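import Pool.Agent.SNT.L0Col4

set_option autoImplicit false

/-! The columns of the road L0 down to the lead `n - k - 5`, from the E-cell of the last step `v = k - 3`. -/

namespace Pool.Agent.SNT.D1

variable {f : ℕ → ℕ → ℕ → ℕ → Prop} {k : ℕ}

/-- the E-cell of the last column -/
def ECell3 (f : ℕ → ℕ → ℕ → ℕ → Prop) (k : ℕ) : Prop :=
  ∀ v : ℕ, v + 3 = k → ∀ b m : ℕ, StackA f k b m 0 0 0 0 0 1 → Q4 f k b m 0 0 → Q2 f k b m 0 0 → QD f k b m 0 v →
    ∀ x y : ℕ, x + 10 + 2 * v = 2 * nn k m 4 → y + 2 * k = x + 2 → ¬ f (6 * k + 1) (b + 4 * 4 + 18) x y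

/-- **All columns of the road L0 down to the lead `n - k - 5`.** -/
theorem P5 (hf : Rule f) (E : ECell3 f k) : ∀ v : ℕ, v + 8 ≤ k + 5 → ColD f k 1 v := by
  intro v hv
  rcases (show v + 4 ≤ k ∨ v + 3 = k by omega) with h | h
  · exact colD4 hf h
  · exact colD_of_ecell hf (by omega) (fun b m S q4 q2 qd x y hx hy => E v h b m S q4 q2 qd x y hx hy)

end Pool.Agent.SNT.D1
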