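import Pool.Agent.SNT.ZoneT
import Pool.Agent.SNT.ZoneI

set_option autoImplicit false

/-! Column runs in an even plane: an even cell of an odd column, all windows above it covered => the whole column is
alternating up to the top. Part 1: the run. Part 2: OUT towers ([D5]). Part 3: IN towers and the last windows at the
diagonal ([D3]). -/

namespace Pool.Agent.SNT.DRun

open Pool.Agent.SNT Pool.Agent.SNT.Sig

variable {f : ℕ → ℕ → ℕ → ℕ → Prop}

/-! ### Part 1 -/

/-- one step of the run -/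
theorem col_step (hf : Rule f) {L R x y : ℕ} (hL : L % 2 = 0) (hR : R % 2 = 0) (hx : x % 2 = 1) (hy : y % 2 = 0)
    (hcov : Cov f L R x (y + 1)) (h0 : f L R x y) : f L R x (y + 2) := by
  rcases hcov with h | h | h | h
  · exact absurd h (kill hf h0 0 0 0 1 (by omega) (by omega) (by omega) le_rfl (by omega))
  · exact absurd h (kill hf h0 0 0 1 1 (by omega) (by omega) le_rfl le_rfl (by omega))
  · exact h
  · exact absurd h (even_zero hf hL hR (by omega) (by omega))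

/-- **the run**: an even cell of the odd column `x` is one, the windows above it are covered => all even cells are one -/
theorem col_run (hf : Rule f) {L R x y0 y1 : ℕ} (hL : L % 2 = 0) (hR : R % 2 = 0) (hx : x % 2 = 1) (hy : y0 % 2 = 0)
    (hcov : ∀ y, y0 ≤ y → y < y1 → y % 2 = 1 → Cov f L R x y) (h0 : f L R x y0) :
    ∀ y, y0 ≤ y → y ≤ y1 → y % 2 = 0 → f L R x y := by
  have key : ∀ j, y0 + 2 * j ≤ y1 → f L R x (y0 + 2 * j) := by
    intro j
    induction j with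
    | zero => exact fun _ => h0
    | succ j ih =>
      intro hj
      have e1 : y0 + 2 * (j + 1) = y0 + 2 * j + 2 := by ring
      rw [e1]
      exact col_step hf (y := y0 + 2 * j) hL hR hx (by omega)
        (hcov (y0 + 2 * j + 1) (by omega) (by omega) (by omega)) (ih (by omega))
  intro y h1 h2 h3
  have h4 := key ((y - y0) / 2) (by omega)
  have h5 : y0 + 2 * ((y - y0) / 2) = y := by omega
  rwa [h5] at h4

/-- the run downwards: a zero at the top gives zeros below -/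
theorem col_run_down (hf : Rule f) {L R x y0 y1 : ℕ} (hL : L % 2 = 0) (hR : R % 2 = 0) (hx : x % 2 = 1)
    (hcov : ∀ y, y0 ≤ y → y < y1 → y % 2 = 1 → Cov f L R x y) (hy1 : y1 % 2 = 0) (h1 : ¬ f L R x y1) :
    ∀ y, y0 ≤ y → y ≤ y1 → y % 2 = 0 → ¬ f L R x y :=
  fun _ h2 h3 h4 h5 => h1 (col_run hf hL hR hx h4 (fun z h6 h7 h8 => hcov z (by omega) h7 h8) h5 _ h3 le_rfl hy1)

/-- the cells next to a run are zero: the odd cells of the column and the next column -/
theorem col_zero (hf : Rule f) {L R x y : ℕ} (h0 : f L R x y) : ¬ f L R x (y + 1) ∧ ¬ f L R (x + 1) y ∧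
    ¬ f L R (x + 1) (y + 1) :=
  ⟨kill hf h0 0 0 0 1 (by omega) (by omega) (by omega) le_rfl (by omega),
    kill hf h0 0 0 1 0 (by omega) (by omega) le_rfl (by omega) (by omega),
    kill hf h0 0 0 1 1 (by omega) (by omega) le_rfl le_rfl (by omega)⟩

/-! ### Part 2: OUT towers -/

section
variable {a r T D : ℕ} {Y : ℕ → ℕ}

/-- [D5] the run in a layer below a static OUT row -/
theorem run_out (hf : Rule f) (S : ZoneT.Tower f a r T D Y) {t s j L R x y0 y1 : ℕ} (ht : t ≤ T) (hs : s + j = t)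
    (hj : 1 ≤ j) (hL : L = a + 2 * s) (hR : R = r + 2 * t) (hR2 : R % 2 = 0) (hx : x % 2 = 1) (hy : y0 % 2 = 0)
    (hY : Y t ≤ y0 + 1) (hw : x + 1 + j ≤ y0 + D) (h1 : y1 + j ≤ x) (h0 : f L R x y0) :
    ∀ y, y0 ≤ y → y ≤ y1 → y % 2 = 0 → f L R x y := by
  have ha := S.ha
  exact col_run hf (by omega) hR2 hx hy
    (fun y h2 h3 h4 => S.cov hf ht hs hj hL hR (by omega) (by omega) (by omega)) h0

end

/-- [D5] the layer `6 k + 2` (`j = 4`) and the layer `6 k + 6` (`j = 2`) in the OUT row of `6 k + 10`: an even cell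
`(2 (n + i) + 1, 2 n + 4)` which is one gives `(2 (n + i) + 1, y)` for all even `y ≤ 2 (n + i) - 4` -/
theorem run_R (hf : Rule f) {k r n : ℕ} {Y : ℕ → ℕ} (S : ZoneT.Tower f (6 * k) r 5 (2 * k) Y) (hY : Y 5 ≤ 2 * n + 5)
    (hr : r % 2 = 0) {s j i : ℕ} (hs : s + j = 5) (hj : 1 ≤ j) (hj4 : j ≤ 4) (hi : i + 1 ≤ k)
    (h0 : f (6 * k + 2 * s) (r + 10) (2 * (n + i) + 1) (2 * n + 4)) :
    ∀ y, 2 * n + 4 ≤ y → y + 4 ≤ 2 * (n + i) → y % 2 = 0 → f (6 * k + 2 * s) (r + 10) (2 * (n + i) + 1) y :=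
  fun y h1 h2 h3 => run_out hf S (t := 5) (y1 := 2 * (n + i) - 4) le_rfl hs hj rfl rfl (by omega) (by omega) (by omega)
    hY (by omega) (by omega) h0 y h1 (by omega) h3

/-! ### Part 3: IN towers and the last windows -/

section
variable {a r T D : ℕ} {X : ℕ → ℕ}

/-- [D3] the run in a layer below a static IN row, up to the last windows -/
theorem run_in (hf : Rule f) (S : ZoneI.InTower f a r T D X) {t s j L R x y0 y1 : ℕ} (ht : t ≤ T) (hs : s + j = t)
    (hL : L = a + 2 * s) (hR : R = r + 2 * t) (hR2 : R % 2 = 0) (hx : x % 2 = 1) (hy : y0 % 2 = 0) (hX : X t ≤ x + 1)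
    (hT : t ≤ y0) (hw : x + 1 + j ≤ y0 + D) (h1 : y1 + j ≤ x) (h2 : y1 + 1 ≤ x) (h0 : f L R x y0) :
    ∀ y, y0 ≤ y → y ≤ y1 → y % 2 = 0 → f L R x y := by
  have ha := S.ha
  exact col_run hf (by omega) hR2 hx hy
    (fun y h3 h4 h5 => S.cov hf ht hs hL hR hX (by omega) (by omega) (by omega) (by omega)) h0

end

/-- a window of a static OUT row is covered also at the diagonal -/
theorem cov_out1 {A b D Y x y : ℕ} (hU : ∀ u v, Y ≤ v → v + 1 ≤ u → u + 1 ≤ v + D → u % 2 = 0 → v % 2 = 1 → f A b u v)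
    (hy : Y ≤ y) (h1 : y + 1 ≤ x) (h2 : x + 2 ≤ y + D) : Cov f A b x y := by
  rcases Nat.mod_two_eq_zero_or_one x with hx | hx <;> rcases Nat.mod_two_eq_zero_or_one y with hy' | hy'
  · exact Or.inr (Or.inr (Or.inl (hU x (y + 1) (by omega) (by omega) (by omega) hx (by omega))))
  · exact Or.inl (hU x y (by omega) (by omega) (by omega) hx hy')
  · exact Or.inr (Or.inr (Or.inr (hU (x + 1) (y + 1) (by omega) (by omega) (by omega) (by omega) (by omega))))
  · exact Or.inr (Or.inl (hU (x + 1) y (by omega) (by omega) (by omega) (by omega) hy'))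

/-- the row after a static OUT row is zero off the diagonal -/
theorem zero_after {A b D Y x y : ℕ} (hf : Rule f) (hD : D % 2 = 0)
    (hO : ∀ u v, Y ≤ v → v + 1 ≤ u → u + 1 ≤ v + D → u % 2 = 0 → v % 2 = 1 → f A b u v)
    (hy : Y + 1 ≤ y) (h1 : y + 1 ≤ x) (h2 : x + 1 ≤ y + D) : ¬ f A (b + 1) x y := by
  intro h
  obtain ⟨u, hu, hxu⟩ : ∃ u : ℕ, u ≤ 1 ∧ (x - u) % 2 = 0 ∧ (u = 0 ↔ x % 2 = 0) := by
    rcases Nat.mod_two_eq_zero_or_one x with hx | hx
    · exact ⟨0, by omega, by omega, by omega⟩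
    · exact ⟨1, by omega, by omega, by omega⟩
  obtain ⟨s, hs, hys⟩ : ∃ s : ℕ, s ≤ 1 ∧ (y - s) % 2 = 1 ∧ (s = 0 ↔ y % 2 = 1) := by
    rcases Nat.mod_two_eq_zero_or_one y with hx | hx
    · exact ⟨1, by omega, by omega, by omega⟩
    · exact ⟨0, by omega, by omega, by omega⟩
  have h3 := kill hf (hO (x - u) (y - s) (by omega) (by omega) (by omega) hxu.1 hys.1) 0 1 u s (by omega) le_rfl hu hs
    (by omega)
  have e1 : x - u + u = x := by omega
  have e2 : y - s + s = y := by omega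
  rw [e1, e2] at h3
  exact h3 h

/-- [D3] **the last windows**: the layer `A + 2` is static in its OUT row `b`, the layer `A` is static in its OUT row
`b - 2` => the windows of the layer `A` in the row `b` are covered up to the diagonal -/
theorem cov_last (hf : Rule f) {A b D D' Y Y' x y : ℕ} (hA : A % 2 = 0) (hD' : D' % 2 = 0)
    (hU : ∀ u v, Y ≤ v → v + 1 ≤ u → u + 1 ≤ v + D → u % 2 = 0 → v % 2 = 1 → f (A + 2) (b + 2) u v)
    (hO : ∀ u v, Y' ≤ v → v + 1 ≤ u → u + 1 ≤ v + D' → u % 2 = 0 → v % 2 = 1 → f A b u v)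
    (hy : Y ≤ y) (hy' : Y' + 1 ≤ y) (h1 : y + 2 ≤ x) (h2 : x + 3 ≤ y + D) (h3 : x + 2 ≤ y + D') :
    Cov f A (b + 2) x y := by
  refine cov_of_zero hf (b := b + 1) (by omega) (W0.mk' fun u v hu hv => ?_) (W0.mk' fun u v hu hv => ?_)
    (W0.mk' fun u v hu hv => ?_)
  · have h4 := cov_out1 hU (x := x + u) (y := y + v) (by omega) (by omega) (by omega)
    exact zero_below hf (p := 1) (q := 0) h4 le_rfl (by omega) (by omega)
  · have h4 := cov_out1 hU (x := x + u) (y := y + v) (by omega) (by omega) (by omega)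
    exact zero_below hf (a := A + 1) (b := b + 1) (p := 1) (q := 1) h4 le_rfl le_rfl (by omega)
  · exact zero_after hf hD' hO (by omega) (by omega) (by omega)

/-- [D3] the run from the cell `y1` up to the tip -/
theorem run_tip (hf : Rule f) {A b D D' Y Y' x y1 : ℕ} (hA : A % 2 = 0) (hb : b % 2 = 0) (hD' : D' % 2 = 0)
    (hU : ∀ u v, Y ≤ v → v + 1 ≤ u → u + 1 ≤ v + D → u % 2 = 0 → v % 2 = 1 → f (A + 2) (b + 2) u v)
    (hO : ∀ u v, Y' ≤ v → v + 1 ≤ u → u + 1 ≤ v + D' → u % 2 = 0 → v % 2 = 1 → f A b u v)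
    (hx : x % 2 = 1) (hy1 : y1 % 2 = 0) (hy : Y ≤ y1 + 1) (hy' : Y' ≤ y1) (h2 : x + 2 ≤ y1 + D) (h3 : x + 1 ≤ y1 + D')
    (h4 : y1 + 1 ≤ x) (h0 : f A (b + 2) x y1) : f A (b + 2) x (x - 1) :=
  col_run hf hA (by omega) hx hy1 (y1 := x - 1)
    (fun y h5 h6 h7 => cov_last hf hA hD' hU hO (by omega) (by omega) (by omega) (by omega) (by omega)) h0 _ (by omega)
    le_rfl (by omega)

section
variable {a r T D₀ : ℕ} {X : ℕ → ℕ}

/-- [D3] **from the wall to the tip**: `j` layers below a static IN row `r + 2 t`, the layer above static in its OUT row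
and the layer itself static in its last OUT row near the diagonal -/
theorem wall_tip (hf : Rule f) (S : ZoneI.InTower f a r T D₀ X) {t s j A b D D' Y Y' x y0 : ℕ} (ht : t ≤ T)
    (hs : s + j = t) (hj : 1 ≤ j) (hj4 : j ≤ 4) (hjp : j % 2 = 0) (hA : A = a + 2 * s) (hb : b + 2 = r + 2 * t)
    (hb2 : b % 2 = 0) (hD' : D' % 2 = 0)
    (hU : ∀ u v, Y ≤ v → v + 1 ≤ u → u + 1 ≤ v + D → u % 2 = 0 → v % 2 = 1 → f (A + 2) (b + 2) u v)
    (hO : ∀ u v, Y' ≤ v → v + 1 ≤ u → u + 1 ≤ v + D' → u % 2 = 0 → v % 2 = 1 → f A b u v)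
    (hx : x % 2 = 1) (hX : X t ≤ x + 1) (hy0 : y0 % 2 = 0) (hT : t ≤ y0) (hw : x + 1 + j ≤ y0 + D₀)
    (hy : Y + j ≤ x) (hy' : Y' + j + 1 ≤ x) (h2 : 8 ≤ D) (h3 : 8 ≤ D') (h4 : y0 + 1 ≤ x)
    (h0 : f A (b + 2) x y0) : f A (b + 2) x (x - 1) := by
  have ha := S.ha
  rcases Nat.lt_or_ge (y0 + j) x with h5 | h5
  · have h6 := run_in hf S (y1 := x - (j + 1)) ht hs hA hb (by omega) hx hy0 hX hT hw (by omega) (by omega) h0
      (x - (j + 1)) (by omega) le_rfl (by omega)
    exact run_tip hf (by omega) hb2 hD' hU hO hx (by omega) (by omega) (by omega) (by omega) (by omega) (by omega) h6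
  · exact run_tip hf (by omega) hb2 hD' hU hO hx hy0 (by omega) (by omega) (by omega) (by omega) h4 h0

end

end Pool.Agent.SNT.DRun
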