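import Pool.Agent.SNT.SLine

set_option autoImplicit false

/-! The killer principle in an even row above a clean row. -/

namespace Pool.Agent.SNT.SLine

open Pool.Agent.SNT Pool.Agent.SNT.Sig

variable {f : ℕ → ℕ → ℕ → ℕ → Prop} {L b : ℕ}

/-- below a one of the odd layer `L + 1` which is not of the type (even, even) the cell of the even layer `L` is blocked -/
theorem not_nb (hf : Rule f) {x y : ℕ} (hxy : x % 2 = 1 ∨ y % 2 = 1) (h : f (L + 1) b x y) : ¬ NB f L b x y := by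
  intro hn
  have h0 : ¬ f L b x y := by
    intro h1
    have := kill hf h1 1 0 0 0 le_rfl (by omega) (by omega) (by omega) (by omega)
    exact this h
  refine h0 ((NB.iff hf hn (by omega)).2 (fun r s hr hs hrs hrx hsy h2 => ?_))
  have := kill hf h2 1 0 r s le_rfl (by omega) hr hs (by omega)
  rw [show x - r + r = x by omega, show y - s + s = y by omega] at this
  exact this h

/-- **The killer**: a one of `P_(L+1)` which is not of the type (even, even) has a one of `P_(L-1)` in the window below -/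
theorem killer (hf : Rule f) {x y : ℕ} (hxy : x % 2 = 1 ∨ y % 2 = 1)
    (hr : ∀ p x' y' : ℕ, p ≤ 1 → x ≤ x' + 1 → x' ≤ x → y ≤ y' + 1 → y' ≤ y → ¬ f (L - p) (b - 1) x' y')
    (h : f (L + 1) b x y) : ∃ x' y' : ℕ, x ≤ x' + 1 ∧ x' ≤ x ∧ y ≤ y' + 1 ∧ y' ≤ y ∧ f (L - 1) b x' y' := by
  by_contra hn
  refine not_nb hf hxy h (nb_of (fun x' y' a1 a2 a3 a4 h1 => hn ⟨x', y', a1, a2, a3, a4, h1⟩) hr)

/-- if the odd layer below is zero then the odd layer above has only cells of the type (even, even) -/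
theorem e_only (hf : Rule f) {x y : ℕ} (hxy : x % 2 = 1 ∨ y % 2 = 1)
    (hr : ∀ p x' y' : ℕ, p ≤ 1 → x ≤ x' + 1 → x' ≤ x → y ≤ y' + 1 → y' ≤ y → ¬ f (L - p) (b - 1) x' y')
    (hP : ∀ x' y' : ℕ, x ≤ x' + 1 → x' ≤ x → y ≤ y' + 1 → y' ≤ y → ¬ f (L - 1) b x' y') : ¬ f (L + 1) b x y := by
  intro h
  obtain ⟨x', y', a1, a2, a3, a4, h1⟩ := killer hf hxy hr h
  exact hP x' y' a1 a2 a3 a4 h1

end Pool.Agent.SNT.SLine
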