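import Pool.Agent.SNT.NHZone
import Pool.Agent.SNT.SKill

set_option autoImplicit false

/-! The layer `6 k - 1` is zero in the window, and `P_(6k+1)` has only cells of the type (even, even) in the OUT row. -/

namespace Pool.Agent.SNT.NHZ

open Pool.Agent.SNT Pool.Agent.SNT.Sig Pool.Agent.SNT.SLine

variable {f : ℕ → ℕ → ℕ → ℕ → Prop} {k b m e0 e2 e4 e6 e8 e10 : ℕ}

/-- the layer `6 k - 1` -/
theorem lw_zero (hs : Side k b m) (S : Stack6 f k b m e0 e2 e4 e6 e8 e10) {i R x y : ℕ} (hi : i ≤ 100) (hR : R = b + i)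
    (hx : 2 * m ≤ x) (hyx : y ≤ x) (hd : 2 * x ≤ b + 2 * y) : ¬ f (6 * k - 1) R x y := by
  subst hR
  obtain ⟨hk, hb, h4, hb2, hm⟩ := hs
  intro h
  have h1 := (S.lw i hi x y (by rw [max_eq_left hyx]; omega)).1 h
  exact Fst_near_odd (by omega) (by rw [max_eq_left hyx, min_eq_right hyx]; omega) h1

/-- `P_(6k+1)` has only cells of the type (even, even) in the row `c + 2` -/
theorem p1_even (hf : Rule f) (hs : Side k b m) (S : Stack6 f k b m 0 0 0 0 0 1) {R x y : ℕ} (hR : R = b + 24)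
    (hxy : x % 2 = 1 ∨ y % 2 = 1) (hy : 2 * (m + 9 + (k + 2) * 4) ≤ y) (h1 : y + 6 ≤ x) (h2 : x + 7 ≤ y + 2 * k) :
    ¬ f (6 * k + 1) R x y := by
  subst hR
  have h := NHT.of_stack hs S
  have hk := hs.1
  have hb := hs.2.2.2.1
  refine e_only hf (L := 6 * k) hxy (fun p x' y' hp a1 a2 a3 a4 => ?_) (fun x' y' a1 a2 a3 a4 => ?_)
  · rcases Nat.eq_zero_or_pos p with hp0 | hp0
    · subst hp0
      have := h.r1 hf (L := 6 * k) (p := 0) (j := 4) (x := x') (y := y') le_rfl (by omega) (by omega) (by omega)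
        (by omega) (by omega)
      exact this
    · have ep : p = 1 := by omega
      subst ep
      exact lw_zero hs S (i := 23) (by omega) (by omega) (by omega) (by omega) (by omega)
  · exact lw_zero hs S (i := 24) (by omega) (by omega) (by omega) (by omega) (by omega)

end Pool.Agent.SNT.NHZ
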