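import Pool.Agent.SNT.Beam
import Pool.Agent.SNT.DRun
import Pool.Agent.SNT.NHZone2

set_option autoImplicit false

/-! E1(-4): the RUNS 17a, 17b, 17c (`c = b + 22`, `N = 2 n` the lead of `6 k + 10`).

`run_a`: the layer `6 k + 4` in the row `c`, the line `2 n + 1`: missing at one cell => missing at all cells to the left.
`run_b`: the layer `6 k + 4` in the row `c - 2`, the column `2 n - 1`: missing at one cell => missing at all cells below.
`run_c1`: the layer `6 k` in the row `c`, the line `2 n - 1`: missing at one cell => missing at all cells to the left.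
`run_c3`: the layer `6 k` in the row `c`, the line `2 n - 3`: present at one cell => present at all cells to the left. -/

namespace Pool.Agent.SNT.E1m4

open Pool.Agent.SNT Pool.Agent.SNT.Sig Pool.Agent.SNT.SLine Pool.Agent.SNT.NHZ

variable {f : ℕ → ℕ → ℕ → ℕ → Prop} {k b c m N : ℕ}

/-! ### Part 1: runs in a line -/

/-- one step of the run in a line -/
theorem row_step (hf : Rule f) {L R x y : ℕ} (hL : L % 2 = 0) (hR : R % 2 = 0) (hx : x % 2 = 0) (hy : y % 2 = 1)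
    (hcov : Cov f L R (x + 1) y) (h0 : f L R x y) : f L R (x + 2) y := by
  rcases hcov with h | h | h | h
  · exact absurd h (kill hf h0 0 0 1 0 (by omega) (by omega) le_rfl (by omega) (by omega))
  · exact h
  · exact absurd h (kill hf h0 0 0 1 1 (by omega) (by omega) le_rfl le_rfl (by omega))
  · exact absurd h (even_zero hf hL hR (by omega) (by omega))

/-- **the run in a line**: an even cell of the odd line `y` is one, the windows right of it are covered => all even cells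
are one -/
theorem row_run (hf : Rule f) {L R y x0 x1 : ℕ} (hL : L % 2 = 0) (hR : R % 2 = 0) (hy : y % 2 = 1) (hx : x0 % 2 = 0)
    (hcov : ∀ x, x0 ≤ x → x < x1 → x % 2 = 1 → Cov f L R x y) (h0 : f L R x0 y) :
    ∀ x, x0 ≤ x → x ≤ x1 → x % 2 = 0 → f L R x y := by
  have key : ∀ j, x0 + 2 * j ≤ x1 → f L R (x0 + 2 * j) y := by
    intro j
    induction j with
    | zero => exact fun _ => h0
    | succ j ih =>
      intro hj
      have e1 : x0 + 2 * (j + 1) = x0 + 2 * j + 2 := by ring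
      rw [e1]
      exact row_step hf (x := x0 + 2 * j) hL hR (by omega) hy
        (hcov (x0 + 2 * j + 1) (by omega) (by omega) (by omega)) (ih (by omega))
  intro x h1 h2 h3
  have h4 := key ((x - x0) / 2) (by omega)
  have h5 : x0 + 2 * ((x - x0) / 2) = x := by omega
  rwa [h5] at h4

/-- the run to the left: a zero at the right end gives zeros left of it -/
theorem row_run_left (hf : Rule f) {L R y x0 x1 : ℕ} (hL : L % 2 = 0) (hR : R % 2 = 0) (hy : y % 2 = 1)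
    (hcov : ∀ x, x0 ≤ x → x < x1 → x % 2 = 1 → Cov f L R x y) (hx1 : x1 % 2 = 0) (h1 : ¬ f L R x1 y) :
    ∀ x, x0 ≤ x → x ≤ x1 → x % 2 = 0 → ¬ f L R x y :=
  fun _ h2 h3 h4 h5 => h1 (row_run hf hL hR hy h4 (fun z h6 h7 h8 => hcov z (by omega) h7 h8) h5 _ h3 le_rfl hx1)

/-! ### Part 2: the runs 17a, 17b, 17c from the towers -/

/-- 17a, the presence form: layer `6 k + 4`, row `c`, any line `y ≥ N - 2` -/
theorem T_a (hf : Rule f) (T : NHT f k c N) {x0 x y : ℕ} (hy : y % 2 = 1) (hx0 : x0 % 2 = 0) (hx : x % 2 = 0)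
    (hN : N ≤ y + 2) (h1 : y + 2 ≤ x0) (hle : x0 ≤ x) (h2 : x + 3 ≤ y + 2 * k) (h0 : f (6 * k + 4) c x0 y) :
    f (6 * k + 4) c x y :=
  row_run hf (x1 := x) (by omega) T.hc hy hx0
    (fun z a1 a2 a3 => T.c0 hf (j := 2) (by omega) (by omega) hN (by omega) (by omega) (by omega)) h0 x hle le_rfl hx

/-- 17a -/
theorem T_a' (hf : Rule f) (T : NHT f k c N) {x0 x y : ℕ} (hy : y % 2 = 1) (hx0 : x0 % 2 = 0) (hx : x % 2 = 0)
    (hN : N ≤ y + 2) (h1 : y + 2 ≤ x) (hle : x ≤ x0) (h2 : x0 + 3 ≤ y + 2 * k) (h0 : ¬ f (6 * k + 4) c x0 y) :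
    ¬ f (6 * k + 4) c x y :=
  fun h => h0 (T_a hf T hy hx hx0 hN h1 hle h2 h)

/-- 17b, the presence form: layer `6 k + 4`, row `c - 2`, any column `x ≥ N - 4` -/
theorem T_b (hf : Rule f) (T : NHT f k c N) {x y0 y : ℕ} (hx : x % 2 = 1) (hy0 : y0 % 2 = 0) (hy : y % 2 = 0)
    (hN : N ≤ x + 4) (h1 : x + 3 ≤ y0 + 2 * k) (hle : y0 ≤ y) (h2 : y + 2 ≤ x) (h0 : f (6 * k + 4) (c - 2) x y0) :
    f (6 * k + 4) (c - 2) x y := by
  have hb := T.hb
  have hc := T.hc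
  exact DRun.col_run hf (y1 := y) (by omega) (by omega) hx hy0
    (fun z a1 a2 a3 => T.cIn hf (t := 4) (j := 2) (by omega) (by omega) (by omega) (by omega) (by omega) (by omega)
      (by omega) (by omega)) h0 y hle le_rfl hy

/-- 17b -/
theorem T_b' (hf : Rule f) (T : NHT f k c N) {x y0 y : ℕ} (hx : x % 2 = 1) (hy0 : y0 % 2 = 0) (hy : y % 2 = 0)
    (hN : N ≤ x + 4) (h1 : x + 3 ≤ y + 2 * k) (hle : y ≤ y0) (h2 : y0 + 2 ≤ x) (h0 : ¬ f (6 * k + 4) (c - 2) x y0) :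
    ¬ f (6 * k + 4) (c - 2) x y :=
  fun h => h0 (T_b hf T hx hy hy0 hN h1 hle h2 h)

/-- 17c, the presence form: layer `6 k`, row `c`, any line `y ≥ N - 2` -/
theorem T_c (hf : Rule f) (T : NHT f k c N) {x0 x y : ℕ} (hy : y % 2 = 1) (hx0 : x0 % 2 = 0) (hx : x % 2 = 0)
    (hN : N ≤ y + 2) (h1 : y + 4 ≤ x0) (hle : x0 ≤ x) (h2 : x + 5 ≤ y + 2 * k) (h0 : f (6 * k) c x0 y) :
    f (6 * k) c x y :=
  row_run hf (x1 := x) (by omega) T.hc hy hx0
    (fun z a1 a2 a3 => T.c0 hf (j := 4) (by omega) (by omega) hN (by omega) (by omega) (by omega)) h0 x hle le_rfl hx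

/-- 17c -/
theorem T_c' (hf : Rule f) (T : NHT f k c N) {x0 x y : ℕ} (hy : y % 2 = 1) (hx0 : x0 % 2 = 0) (hx : x % 2 = 0)
    (hN : N ≤ y + 2) (h1 : y + 4 ≤ x) (hle : x ≤ x0) (h2 : x0 + 5 ≤ y + 2 * k) (h0 : ¬ f (6 * k) c x0 y) :
    ¬ f (6 * k) c x y :=
  fun h => h0 (T_c hf T hy hx hx0 hN h1 hle h2 h)

/-! ### Part 3: the stack forms -/

/-- **17a**: layer `6 k + 4`, row `b + 22`, line `2 n + 1`: missing at `x0 ≤ 2 n + 2 k - 2` => missing at all
`x ≤ x0` (`x ≥ 2 n + 4`, even) -/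
theorem run_a (hf : Rule f) (hs : Side k b m) (S : Stack6 f k b m 0 0 0 0 0 1) {n x0 x : ℕ}
    (hn : n = m + 9 + (k + 2) * 4) (hx0 : x0 % 2 = 0) (hx : x % 2 = 0)
    (h1 : 2 * n + 4 ≤ x) (hle : x ≤ x0) (h2 : x0 + 2 ≤ 2 * n + 2 * k)
    (h0 : ¬ f (6 * k + 4) (b + 22) x0 (2 * n + 1)) : ¬ f (6 * k + 4) (b + 22) x (2 * n + 1) :=
  T_a' hf (NHT.of_stack hs S) (by omega) hx0 hx (by omega) (by omega) hle (by omega) h0

/-- the presence form of 17a -/
theorem run_a_up (hf : Rule f) (hs : Side k b m) (S : Stack6 f k b m 0 0 0 0 0 1) {n x0 x : ℕ}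
    (hn : n = m + 9 + (k + 2) * 4) (hx0 : x0 % 2 = 0) (hx : x % 2 = 0)
    (h1 : 2 * n + 4 ≤ x0) (hle : x0 ≤ x) (h2 : x + 2 ≤ 2 * n + 2 * k)
    (h0 : f (6 * k + 4) (b + 22) x0 (2 * n + 1)) : f (6 * k + 4) (b + 22) x (2 * n + 1) :=
  T_a hf (NHT.of_stack hs S) (by omega) hx0 hx (by omega) (by omega) hle (by omega) h0

/-- **17b**: layer `6 k + 4`, row `b + 20`, column `2 n - 1`: missing at `y0 ≤ 2 n - 4` => missing at all `y ≤ y0`
(`y ≥ 2 n + 2 - 2 k`, even) -/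
theorem run_b (hf : Rule f) (hs : Side k b m) (S : Stack6 f k b m 0 0 0 0 0 1) {n y0 y : ℕ}
    (hn : n = m + 9 + (k + 2) * 4) (hy0 : y0 % 2 = 0) (hy : y % 2 = 0)
    (h1 : 2 * n + 2 ≤ y + 2 * k) (hle : y ≤ y0) (h2 : y0 + 4 ≤ 2 * n)
    (h0 : ¬ f (6 * k + 4) (b + 20) (2 * n - 1) y0) : ¬ f (6 * k + 4) (b + 20) (2 * n - 1) y :=
  T_b' hf (NHT.of_stack hs S) (c := b + 22) (by omega) hy0 hy (by omega) (by omega) hle (by omega) h0

/-- **17c, line `2 n - 1`**: layer `6 k`, row `b + 22`: missing at `x0 ≤ 2 n + 2 k - 6` => missing at all `x ≤ x0`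
(`x ≥ 2 n + 4`, even) -/
theorem run_c1 (hf : Rule f) (hs : Side k b m) (S : Stack6 f k b m 0 0 0 0 0 1) {n x0 x : ℕ}
    (hn : n = m + 9 + (k + 2) * 4) (hx0 : x0 % 2 = 0) (hx : x % 2 = 0)
    (h1 : 2 * n + 3 ≤ x) (hle : x ≤ x0) (h2 : x0 + 6 ≤ 2 * n + 2 * k)
    (h0 : ¬ f (6 * k) (b + 22) x0 (2 * n - 1)) : ¬ f (6 * k) (b + 22) x (2 * n - 1) :=
  T_c' hf (NHT.of_stack hs S) (by omega) hx0 hx (by omega) (by omega) hle (by omega) h0

/-- the row `b + 21` in the layers `6 k - 1`, `6 k` -/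
theorem row21 (hf : Rule f) (hs : Side k b m) (S : Stack6 f k b m 0 0 0 0 0 1) {n p x y : ℕ}
    (hn : n = m + 9 + (k + 2) * 4) (hp : p ≤ 1) (hy : 2 * n ≤ y + 5) (h1 : y + 4 ≤ x) (h2 : x + 5 ≤ y + 2 * k) :
    ¬ f (6 * k - p) (b + 21) x y := by
  obtain ⟨hk, hb, h4, hb2, hm⟩ := hs
  have hs : Side k b m := ⟨hk, hb, h4, hb2, hm⟩
  have T := NHT.of_stack hs S
  rw [← hn] at T
  rcases Nat.eq_zero_or_pos p with hp0 | hp0
  · subst hp0
    exact T.rm1 hf (L := 6 * k) (p := 0) (j := 3) le_rfl (by omega) (by omega) (by omega) (by omega) (by omega)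
  · have ep : p = 1 := by omega
    subst ep
    exact lw_zero hs S (i := 21) (by omega) (by omega) (by omega) (by omega) (by omega)

/-- the layer `6 k - 1` in the row `b + 22` -/
theorem lw22 (hs : Side k b m) (S : Stack6 f k b m 0 0 0 0 0 1) {n x y : ℕ}
    (hn : n = m + 9 + (k + 2) * 4) (hy : 2 * n ≤ y + 5) (h1 : y + 4 ≤ x) (h2 : x + 5 ≤ y + 2 * k) :
    ¬ f (6 * k - 1) (b + 22) x y := by
  obtain ⟨hk, hb, h4, hb2, hm⟩ := hs
  have hs : Side k b m := ⟨hk, hb, h4, hb2, hm⟩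
  exact lw_zero hs S (i := 22) (by omega) (by omega) (by omega) (by omega) (by omega)

/-- one step to the left in the layer `6 k`, row `b + 22`, a line `y ≥ 2 n - 4` -/
theorem left_step (hf : Rule f) (hs : Side k b m) (S : Stack6 f k b m 0 0 0 0 0 1) {n x y : ℕ}
    (hn : n = m + 9 + (k + 2) * 4) (hx : x % 2 = 0) (hy : y % 2 = 1) (hy2 : 2 * n ≤ y + 4) (h1 : y + 5 ≤ x)
    (h2 : x + 7 ≤ y + 2 * k) (h0 : f (6 * k) (b + 22) (x + 2) y) : f (6 * k) (b + 22) x y := by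
  have hb : b % 2 = 0 := by
    have := hs.2.1
    omega
  obtain ⟨i, hi⟩ : ∃ i : ℕ, x = 2 * (i + 1) := ⟨x / 2 - 1, by omega⟩
  obtain ⟨j, hj⟩ : ∃ j : ℕ, y = 2 * j + 1 := ⟨y / 2, by omega⟩
  subst hi hj
  have h3 : ¬ sr f (6 * k) (b + 22) (i + 1) j := by
    intro h
    rcases h with h | h
    · unfold bY at h
      exact kill hf h 0 0 1 1 (by omega) (by omega) le_rfl le_rfl (by omega) h0
    · unfold bO at h
      exact kill hf h 0 0 1 0 (by omega) (by omega) le_rfl (by omega) (by omega) h0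
  have h4 : ¬ sr f (6 * k) (b + 22) i j :=
    Beam.right_back hf (by omega) (by omega)
      (fun x' y' a1 a2 a3 a4 => lw22 hs S hn (by omega) (by omega) (by omega))
      (fun p x' y' hp a1 a2 a3 a4 => by
        rw [show b + 22 - 1 = b + 21 by omega]
        exact row21 hf hs S hn hp (by omega) (by omega) (by omega)) h3
  exact x_of_line hf (by omega) (by omega)
      (fun x' y' a1 a2 a3 a4 => lw22 hs S hn (by omega) (by omega) (by omega))
      (fun p x' y' hp a1 a2 a3 a4 => by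
        rw [show b + 22 - 1 = b + 21 by omega]
        exact row21 hf hs S hn hp (by omega) (by omega) (by omega)) h4

/-- **17c, the left run**: layer `6 k`, row `b + 22`, a line `y ≥ 2 n - 4`: present at `x0 ≤ y + 2 k - 5` => present at
all `x ≤ x0` (`x ≥ y + 5`, even) -/
theorem left_run (hf : Rule f) (hs : Side k b m) (S : Stack6 f k b m 0 0 0 0 0 1) {n x0 x y : ℕ}
    (hn : n = m + 9 + (k + 2) * 4) (hx0 : x0 % 2 = 0) (hx : x % 2 = 0) (hy : y % 2 = 1) (hy2 : 2 * n ≤ y + 4)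
    (h1 : y + 5 ≤ x) (hle : x ≤ x0) (h2 : x0 + 5 ≤ y + 2 * k) (h0 : f (6 * k) (b + 22) x0 y) :
    f (6 * k) (b + 22) x y := by
  obtain ⟨d, hd⟩ : ∃ d : ℕ, x0 = x + 2 * d := ⟨(x0 - x) / 2, by omega⟩
  subst hd
  clear hle hx0
  induction d with
  | zero => exact h0
  | succ d ih =>
    refine ih (by omega) ?_
    exact left_step hf hs S hn (by omega) hy hy2 (by omega) (by omega) (by rwa [show x + 2 * (d + 1) = x + 2 * d + 2 by ring] at h0)

/-- **17c, line `2 n - 3`**: layer `6 k`, row `b + 22`: present at `x0 ≤ 2 n + 2 k - 8` (`d ≤ 2 k - 5`) => present at all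
`x ≤ x0` (`x ≥ 2 n + 2`, even) -/
theorem run_c3 (hf : Rule f) (hs : Side k b m) (S : Stack6 f k b m 0 0 0 0 0 1) {n x0 x : ℕ}
    (hn : n = m + 9 + (k + 2) * 4) (hx0 : x0 % 2 = 0) (hx : x % 2 = 0)
    (h1 : 2 * n + 2 ≤ x) (hle : x ≤ x0) (h2 : x0 + 8 ≤ 2 * n + 2 * k)
    (h0 : f (6 * k) (b + 22) x0 (2 * n - 3)) : f (6 * k) (b + 22) x (2 * n - 3) :=
  left_run hf hs S hn hx0 hx (by omega) (by omega) (by omega) hle (by omega) h0

end Pool.Agent.SNT.E1m4
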