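import Pool.Agent.SNT.NHZone

set_option autoImplicit false

/-! The clean zones of the three upper layers in the window of the top leader `6 k + 10`, up to the wall `d ≤ 2 k`
(`c` is the IN row of the top layer, `N = 2 n` its lead). -/

namespace Pool.Agent.SNT.NHZ

open Pool.Agent.SNT Pool.Agent.SNT.Sig Pool.Agent.SNT.ZoneT Pool.Agent.SNT.ZoneI Pool.Agent.SNT.LW

variable {f : ℕ → ℕ → ℕ → ℕ → Prop}

/-- the IN row of a weak profile, up to the wall -/
theorem in_cw' {a b n x y : ℕ} (C : Cw f a b n) (ha : a % 2 = 0) (h4 : (a + b) % 4 = 2) (hab : a < b)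
    (hx : 2 * n + 5 ≤ x) (h1 : y + 1 ≤ x) (h2 : x + 1 ≤ y + 2 * (a / 6)) :
    f a b x y ↔ (x % 2 = 1 ∧ y % 2 = 0) := by
  rw [C.w0 x y (by omega) (by omega) (Or.inr hx)]
  exact Fst_II (by omega) ha (by omega) (by omega) (by omega) (by omega)

/-- the bounds of the OUT rows -/
def YU (N t : ℕ) : ℕ := if t < 2 then N - 6 + 4 * t else N + 4

/-- the bounds of the IN rows -/
def XU (N t : ℕ) : ℕ := if t < 1 then N - 7 else if t < 2 then N - 1 else N + 5

/-- The two towers of the three upper layers. -/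
structure NHU (f : ℕ → ℕ → ℕ → ℕ → Prop) (k c N : ℕ) : Prop where
  hk : 8 ≤ k
  hc : c % 2 = 0
  hb : 12 * k + 100 ≤ c
  hN : N % 2 = 0
  hN2 : 2 * k + 100 ≤ N
  O : Tower f (6 * k + 6) (c - 2) 2 (2 * k + 2) (YU N)
  I : InTower f (6 * k + 6) (c - 4) 2 (2 * k + 2) (XU N)

variable {k c N : ℕ}

/-- `P` in the rows `c + 1`, `c + 2` -/
theorem NHU.p2 (hf : Rule f) (h : NHU f k c N) {L R j x y : ℕ} (hj : j ≤ 2) (hL : L + 1 + 2 * j = 6 * k + 10)
    (hR : R = c + 1 ∨ R = c + 2) (hy : N + 4 ≤ y) (h1 : y + 1 + j ≤ x) (h2 : x + j ≤ y + 2 * k) : ¬ f L R x y :=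
  h.O.P hf (t := 2) (s := 2 - j) (j := j) (q := c + 2 - R) le_rfl (by omega) (by omega) (by omega)
    (by have := h.hb; omega) (by unfold YU; rw [if_neg (by omega)]; omega) h1 (by omega)

/-- coverings in the row `c + 2` -/
theorem NHU.c2 (hf : Rule f) (h : NHU f k c N) {L j x y : ℕ} (hj : 1 ≤ j) (hj5 : j ≤ 2) (hL : L + 2 * j = 6 * k + 10)
    (hy : N + 4 ≤ y) (h1 : y + 1 + j ≤ x) (h2 : x + j ≤ y + 2 * k) : Cov f L (c + 2) x y :=
  h.O.cov hf (t := 2) (s := 2 - j) (j := j) le_rfl (by omega) hj (by omega) (by have := h.hb; omega)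
    (by unfold YU; rw [if_neg (by omega)]; omega) h1 (by omega)

/-- `P` in the rows `c - 1`, `c`, from the OUT row of `6 k + 8` -/
theorem NHU.p0 (hf : Rule f) (h : NHU f k c N) {L R j x y : ℕ} (hj : j ≤ 1) (hL : L + 1 + 2 * j = 6 * k + 8)
    (hR : R + 1 = c ∨ R = c) (hy : N ≤ y + 2) (h1 : y + 1 + j ≤ x) (h2 : x + j ≤ y + 2 * k) : ¬ f L R x y :=
  h.O.P hf (t := 1) (s := 1 - j) (j := j) (q := c - R) (by omega) (by omega) (by omega) (by omega)
    (by have := h.hb; omega) (by unfold YU; rw [if_pos (by omega)]; have := h.hN2; omega) h1 (by omega)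

/-- `P` in the rows `c - 1`, `c`, from the IN row of `6 k + 10` -/
theorem NHU.p0i (hf : Rule f) (h : NHU f k c N) {L R j x y : ℕ} (hj : j ≤ 2) (hL : L + 1 + 2 * j = 6 * k + 10)
    (hR : R + 1 = c ∨ R = c) (hx : N + 4 ≤ x) (h1 : y + 1 + j ≤ x) (h2 : x + j ≤ y + 2 * k) : ¬ f L R x y :=
  h.I.P hf (t := 2) (s := 2 - j) (j := j) (q := c - R) (by omega) (by omega) (by omega) (by omega)
    (by have := h.hb; omega) (by unfold XU; rw [if_neg (by omega), if_neg (by omega)]; omega)
    (by have := h.hN2; omega) h1 (by omega)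

/-- `P` in the rows `c - 3`, `c - 2`, from the OUT row of `6 k + 6` -/
theorem NHU.pm (hf : Rule f) (h : NHU f k c N) {R x y : ℕ}
    (hR : R + 3 = c ∨ R + 2 = c) (hy : N ≤ y + 6) (h1 : y + 1 ≤ x) (h2 : x ≤ y + 2 * k) : ¬ f (6 * k + 5) R x y :=
  h.O.P hf (t := 0) (s := 0) (j := 0) (q := c - 2 - R) (by omega) (by omega) (by omega) (by omega)
    (by have := h.hb; omega) (by unfold YU; rw [if_pos (by omega)]; have := h.hN2; omega) (by omega) (by omega)

/-- `P` in the rows `c - 3`, `c - 2`, from the IN row of `6 k + 8` -/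
theorem NHU.pmi (hf : Rule f) (h : NHU f k c N) {L R j x y : ℕ} (hj : j ≤ 1) (hL : L + 1 + 2 * j = 6 * k + 8)
    (hR : R + 3 = c ∨ R + 2 = c) (hx : N ≤ x + 2) (h1 : y + 1 + j ≤ x) (h2 : x + j ≤ y + 2 * k) : ¬ f L R x y :=
  h.I.P hf (t := 1) (s := 1 - j) (j := j) (q := c - 2 - R) (by omega) (by omega) (by omega) (by omega)
    (by have := h.hb; omega) (by unfold XU; rw [if_neg (by omega), if_pos (by omega)]; have := h.hN2; omega)
    (by have := h.hN2; omega) h1 (by omega)

/-- coverings in the row `c` -/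
theorem NHU.c0 (hf : Rule f) (h : NHU f k c N) {L j x y : ℕ} (hj : j ≤ 1) (hL : L + 2 * j = 6 * k + 8)
    (hy : N ≤ y + 2) (h1 : y + 2 ≤ x) (h2 : x + j ≤ y + 2 * k) : Cov f L c x y := by
  rcases Nat.eq_zero_or_pos j with hj0 | hj0
  · subst hj0
    have := h.O.cov_out (t := 1) (x := x) (y := y) (by omega)
      (by unfold YU; rw [if_pos (by omega)]; have := h.hN2; omega) h1 (by omega)
    have e1 : 6 * k + 6 + 2 * 1 = L := by omega
    have e2 : c - 2 + 2 * 1 = c := by have := h.hb; omega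
    rwa [e1, e2] at this
  · exact h.O.cov hf (t := 1) (s := 1 - j) (j := j) (by omega) (by omega) hj0 (by omega) (by have := h.hb; omega)
      (by unfold YU; rw [if_pos (by omega)]; have := h.hN2; omega) (by omega) (by omega)

/-- coverings in the row `c`, from the IN row of `6 k + 10` -/
theorem NHU.c0i (hf : Rule f) (h : NHU f k c N) {L j x y : ℕ} (hj : j ≤ 2) (hL : L + 2 * j = 6 * k + 10)
    (hx : N + 4 ≤ x) (h0 : y + 2 ≤ x) (h1 : y + 1 + j ≤ x) (h2 : x + j ≤ y + 2 * k) : Cov f L c x y :=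
  h.I.cov hf (t := 2) (s := 2 - j) (j := j) le_rfl (by omega) (by omega) (by have := h.hb; omega)
    (by unfold XU; rw [if_neg (by omega), if_neg (by omega)]; omega) (by have := h.hN2; omega) h0 h1 (by omega)

/-- coverings in the row `c - 2`, from the IN row of `6 k + 8` -/
theorem NHU.cmi (hf : Rule f) (h : NHU f k c N) {L R j x y : ℕ} (hj : j ≤ 1) (hL : L + 2 * j = 6 * k + 8)
    (hR : R + 2 = c) (hx : N ≤ x + 2) (h0 : y + 2 ≤ x) (h2 : x + j ≤ y + 2 * k) : Cov f L R x y :=
  h.I.cov hf (t := 1) (s := 1 - j) (j := j) (by omega) (by omega) (by omega) (by have := h.hb; omega)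
    (by unfold XU; rw [if_neg (by omega), if_pos (by omega)]; have := h.hN2; omega) (by have := h.hN2; omega) h0
    (by omega) (by omega)

/-- the row `c + 1` -/
theorem NHU.r1 (hf : Rule f) (h : NHU f k c N) {L p j x y : ℕ} (hj : j ≤ 1) (hp : p ≤ 1) (hL : L + 2 * j = 6 * k + 8 + p)
    (hy : N ≤ y + 1) (h1 : y + 1 + j ≤ x) (h2 : x + j ≤ y + 2 * k) : ¬ f L (c + 1) x y :=
  h.O.after hf (t := 1) (s := 1 - j) (j := j) (p := p) (q := 1) (by omega) (by omega) hp le_rfl (by omega) (by omega)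
    (by have := h.hb; omega) (by unfold YU; rw [if_pos (by omega)]; have := h.hN2; omega) h1 (by omega)

/-- the row `c + 1`, right of the front -/
theorem NHU.r1i (hf : Rule f) (h : NHU f k c N) {L p j x y : ℕ} (hj : j ≤ 2) (hp : p ≤ 1)
    (hL : L + 2 * j = 6 * k + 10 + p) (hx : N + 5 ≤ x) (h1 : y + 1 + j ≤ x) (h2 : x + j ≤ y + 2 * k) :
    ¬ f L (c + 1) x y :=
  h.I.after hf (t := 2) (s := 2 - j) (j := j) (p := p) (q := 1) (by omega) (by omega) hp le_rfl (by omega) (by omega)
    (by have := h.hb; omega) (by unfold XU; rw [if_neg (by omega), if_neg (by omega)]; omega)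
    (by have := h.hN2; omega) h1 (by omega)

/-- the row `c - 1` -/
theorem NHU.rm1 (hf : Rule f) (h : NHU f k c N) {L p x y : ℕ} (hp : p ≤ 1) (hL : L = 6 * k + 6 + p)
    (hy : N ≤ y + 5) (h1 : y + 1 ≤ x) (h2 : x ≤ y + 2 * k) : ¬ f L (c - 1) x y :=
  h.O.after hf (t := 0) (s := 0) (j := 0) (p := p) (q := 1) (by omega) (by omega) hp le_rfl (by omega) (by omega)
    (by have := h.hb; omega) (by unfold YU; rw [if_pos (by omega)]; have := h.hN2; omega) (by omega) (by omega)

/-- the row `c - 1`, right of the front of `6 k + 8` -/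
theorem NHU.rm1i (hf : Rule f) (h : NHU f k c N) {L p j x y : ℕ} (hj : j ≤ 1) (hp : p ≤ 1)
    (hL : L + 2 * j = 6 * k + 8 + p) (hx : N ≤ x + 1) (h1 : y + 1 + j ≤ x) (h2 : x + j ≤ y + 2 * k) :
    ¬ f L (c - 1) x y :=
  h.I.after hf (t := 1) (s := 1 - j) (j := j) (p := p) (q := 1) (by omega) (by omega) hp le_rfl (by omega) (by omega)
    (by have := h.hb; omega) (by unfold XU; rw [if_neg (by omega), if_pos (by omega)]; have := h.hN2; omega)
    (by have := h.hN2; omega) h1 (by omega)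

/-- The two towers from the window. -/
theorem NHU.of_stack {b m : ℕ} (hs : Side k b m) (S : Stack6 f k b m 0 0 0 0 0 1) :
    NHU f k (b + 22) (2 * (m + 9 + (k + 2) * 4)) := by
  obtain ⟨hk, hb, h4, hb2, hm⟩ := hs
  refine ⟨hk, by omega, by omega, by omega, by omega, ?_, ?_⟩
  · refine ⟨by omega, by omega, by omega, by omega, ?_, ?_⟩
    · intro t ht
      unfold YU
      rcases Nat.lt_or_ge (t + 1) 2 with h1 | h1
      · rw [if_pos (by omega), if_pos (by omega)]; omega
      · rw [if_pos (by omega), if_neg (by omega)]; omega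
    · intro t x y ht hy h1 h2 hx1 hy1
      unfold YU at hy
      interval_cases t
      · rw [if_pos (by omega)] at hy
        exact (out_cyc (S.l6 4) (by omega) (by omega) (by omega) (by omega) (by omega) h1 (by omega)).2 ⟨hx1, hy1⟩
      · rw [if_pos (by omega)] at hy
        exact (out_cw (S.l8 4) (by omega) (by omega) (by omega) (by omega) (by omega) h1 (by omega)).2 ⟨hx1, hy1⟩
      · rw [if_neg (by omega)] at hy
        exact (out_cw (S.l10 4) (by omega) (by omega) (by omega) (by omega) (by omega) h1 (by omega)).2 ⟨hx1, hy1⟩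
  · refine ⟨by omega, by omega, by omega, by omega, ?_, ?_, ?_⟩
    · intro t ht
      unfold XU
      interval_cases t
      · rw [if_pos (by omega)]; omega
      · rw [if_neg (by omega), if_pos (by omega)]; omega
      · rw [if_neg (by omega), if_neg (by omega)]; omega
    · intro t ht
      unfold XU
      interval_cases t
      · rw [if_pos (by omega), if_neg (by omega), if_pos (by omega)]; omega
      · rw [if_neg (by omega), if_pos (by omega), if_neg (by omega), if_neg (by omega)]; omega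
    · intro t x y ht hy h1 h2 hx1 hy1
      unfold XU at hy
      interval_cases t
      · rw [if_pos (by omega)] at hy
        have e : b + 22 - 4 + 2 * 0 = b + 2 + 4 * 4 := by omega
        rw [e]
        exact (in_cyc (S.l6 4) (by omega) (by omega) (by omega) (by omega) h1 (by omega)).2 ⟨hx1, hy1⟩
      · rw [if_neg (by omega), if_pos (by omega)] at hy
        have e : b + 22 - 4 + 2 * 1 = b + 4 + 4 * 4 := by omega
        rw [e]
        exact (in_cw' (S.l8 4) (by omega) (by omega) (by omega) (by omega) h1 (by omega)).2 ⟨hx1, hy1⟩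
      · rw [if_neg (by omega), if_neg (by omega)] at hy
        have e : b + 22 - 4 + 2 * 2 = b + 6 + 4 * 4 := by omega
        rw [e]
        exact (in_cw' (S.l10 4) (by omega) (by omega) (by omega) (by omega) h1 (by omega)).2 ⟨hx1, hy1⟩

end Pool.Agent.SNT.NHZ
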