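import Pool.Agent.SNT.Loc
import Pool.Agent.SNT.NHZoneU

set_option autoImplicit false
set_option synthInstance.maxSize 100000
set_option maxRecDepth 100000
set_option linter.unusedVariables false

/-! The wall signal of `6 k + 4` in the block row `1` of the row `c + 2` (leads `(1, -3, -6)`) (helper82). -/

namespace Pool.Agent.SNT.Loc

theorem o2ws_cert_chk : check 10 6 15 7 0 0 0 1 0
    (fun j n p q => decide ((((((j = 4 ∧ n = 1 ∧ p = 10 ∧ q = 1) ∨ (j = 6 ∧ n = 1 ∧ p = 11 ∧ q = 2)) ∨ (j = 6 ∧ n = 2 ∧ p = 11 ∧ q = 1)) ∨ ((j = 8 ∧ n = 2 ∧ p = 11 ∧ q = 3) ∨ (j = 8 ∧ n = 2 ∧ p = 13 ∧ q = 3))) ∨ ((((j = 8 ∧ n = 3 ∧ p = 13 ∧ q = 2) ∨ (j = 10 ∧ n = 4 ∧ p = 11 ∧ q = 3)) ∨ (j = 10 ∧ n = 4 ∧ p = 11 ∧ q = 5)) ∨ ((j = 10 ∧ n = 4 ∧ p = 13 ∧ q = 3) ∨ (j = 10 ∧ n = 4 ∧ p = 13 ∧ q = 5))))))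
    (fun j n p q => decide (((((((((j = 1 ∨ (j = 2 ∧ n = 3 ∧ p = 1 ∧ q = 1)) ∨ ((j = 2 ∧ n = 3 ∧ p = 1 ∧ q = 2) ∨ (j = 2 ∧ n = 3 ∧ p = 1 ∧ q = 3))) ∨ (((j = 2 ∧ n = 3 ∧ p = 2 ∧ q = 1) ∨ (j = 2 ∧ n = 3 ∧ p = 2 ∧ q = 3)) ∨ (j = 2 ∧ n = 3 ∧ p = 2 ∧ q = 4))) ∨ ((((j = 2 ∧ n = 3 ∧ p = 3 ∧ q = 1) ∨ (j = 2 ∧ n = 3 ∧ p = 3 ∧ q = 2)) ∨ ((j = 2 ∧ n = 3 ∧ p = 3 ∧ q = 3) ∨ (j = 2 ∧ n = 3 ∧ p = 3 ∧ q = 4))) ∨ (((j = 2 ∧ n = 3 ∧ p = 4 ∧ q = 1) ∨ (j = 2 ∧ n = 3 ∧ p = 4 ∧ q = 2)) ∨ (j = 2 ∧ n = 3 ∧ p = 4 ∧ q = 3)))) ∨ (((((j = 2 ∧ n = 3 ∧ p = 4 ∧ q = 4) ∨ (j = 2 ∧ n = 3 ∧ p = 5 ∧ q = 2)) ∨ ((j = 2 ∧ n = 3 ∧ p = 5 ∧ q = 3) ∨ (j = 2 ∧ n = 3 ∧ p = 6 ∧ q = 4))) ∨ (((j = 2 ∧ n = 3 ∧ p = 7 ∧ q = 4) ∨ (j = 2 ∧ n = 3 ∧ p = 8 ∧ q = 5)) ∨ (j = 3 ∧ n = 3 ∧ p = 2 ∧ q = 2))) ∨ ((((j = 3 ∧ n = 3 ∧ p = 2 ∧ q = 3) ∨ (j = 3 ∧ n = 3 ∧ p = 2 ∧ q = 4))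 ∨ (j = 3 ∧ n = 3 ∧ p = 3 ∧ q = 2)) ∨ (((j = 3 ∧ n = 3 ∧ p = 3 ∧ q = 3) ∨ (j = 3 ∧ n = 3 ∧ p = 3 ∧ q = 4)) ∨ (j = 3 ∧ n = 3 ∧ p = 3 ∧ q = 5))))) ∨ ((((((j = 3 ∧ n = 3 ∧ p = 4 ∧ q = 2) ∨ (j = 3 ∧ n = 3 ∧ p = 4 ∧ q = 3)) ∨ ((j = 3 ∧ n = 3 ∧ p = 4 ∧ q = 4) ∨ (j = 3 ∧ n = 3 ∧ p = 4 ∧ q = 5))) ∨ (((j = 3 ∧ n = 3 ∧ p = 5 ∧ q = 2) ∨ (j = 3 ∧ n = 3 ∧ p = 5 ∧ q = 3)) ∨ (j = 3 ∧ n = 3 ∧ p = 5 ∧ q = 4))) ∨ ((((j = 3 ∧ n = 3 ∧ p = 5 ∧ q = 5) ∨ (j = 3 ∧ n = 3 ∧ p = 6 ∧ q = 3)) ∨ ((j = 3 ∧ n = 3 ∧ p = 6 ∧ q = 4) ∨ (j = 3 ∧ n = 3 ∧ p = 6 ∧ q = 5))) ∨ (((j = 3 ∧ n = 3 ∧ p = 7 ∧ q = 4) ∨ (j = 3 ∧ n = 3 ∧ p = 7 ∧ q = 5)) ∨ (j = 3 ∧ n = 3 ∧ p = 8 ∧ q = 5)))) ∨ (((((j = 3 ∧ n = 4 ∧ p = 3 ∧ q = 5) ∨ (j = 3 ∧ n = 4 ∧ p = 5 ∧ q = 5)) ∨ ((j = 3 ∧ n = 4 ∧ p = 7 ∧ q = 5) ∨ (j = 3 ∧ n = 4 ∧ p = 8 ∧ q = 5))) ∨ (((j = 4 ∧ n = 1 ∧ p = 7 ∧ q = 2) ∨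 (j = 4 ∧ n = 1 ∧ p = 7 ∧ q = 3)) ∨ (j = 4 ∧ n = 1 ∧ p = 8 ∧ q = 2))) ∨ ((((j = 4 ∧ n = 1 ∧ p = 8 ∧ q = 3) ∨ (j = 4 ∧ n = 1 ∧ p = 8 ∧ q = 4)) ∨ (j = 4 ∧ n = 1 ∧ p = 9 ∧ q = 2)) ∨ (((j = 4 ∧ n = 1 ∧ p = 9 ∧ q = 3) ∨ (j = 4 ∧ n = 1 ∧ p = 9 ∧ q = 4)) ∨ (j = 4 ∧ n = 1 ∧ p = 10 ∧ q = 2)))))) ∨ (((((((j = 4 ∧ n = 1 ∧ p = 10 ∧ q = 3) ∨ (j = 4 ∧ n = 1 ∧ p = 10 ∧ q = 4)) ∨ ((j = 4 ∧ n = 3 ∧ p = 2 ∧ q = 2) ∨ (j = 4 ∧ n = 3 ∧ p = 2 ∧ q = 3))) ∨ (((j = 4 ∧ n = 3 ∧ p = 2 ∧ q = 4) ∨ (j = 4 ∧ n = 3 ∧ p = 2 ∧ q = 5)) ∨ (j = 4 ∧ n = 3 ∧ p = 3 ∧ q = 2))) ∨ ((((j = 4 ∧ n = 3 ∧ p = 3 ∧ q = 3) ∨ (j = 4 ∧ n = 3 ∧ p = 3 ∧ q = 4)) ∨ ((j = 4 ∧ n = 3 ∧ p = 3 ∧ q = 5) ∨ (j = 4 ∧ n = 3 ∧ p = 4 ∧ q = 2))) ∨ (((j = 4 ∧ n = 3 ∧ p = 4 ∧ q = 3) ∨ (j = 4 ∧ n = 3 ∧ p = 4 ∧ q = 4)) ∨ (j = 4 ∧ n = 3 ∧ p = 4 ∧ q = 5)))) ∨ (((((j = 4 ∧ n = 3 ∧ p = 5 ∧ q = 2)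 ∨ (j = 4 ∧ n = 3 ∧ p = 5 ∧ q = 3)) ∨ ((j = 4 ∧ n = 3 ∧ p = 5 ∧ q = 4) ∨ (j = 4 ∧ n = 3 ∧ p = 5 ∧ q = 5))) ∨ (((j = 4 ∧ n = 3 ∧ p = 6 ∧ q = 2) ∨ (j = 4 ∧ n = 3 ∧ p = 6 ∧ q = 3)) ∨ (j = 4 ∧ n = 3 ∧ p = 6 ∧ q = 4))) ∨ ((((j = 4 ∧ n = 3 ∧ p = 6 ∧ q = 5) ∨ (j = 4 ∧ n = 3 ∧ p = 7 ∧ q = 3)) ∨ (j = 4 ∧ n = 3 ∧ p = 7 ∧ q = 4)) ∨ (((j = 4 ∧ n = 3 ∧ p = 7 ∧ q = 5) ∨ (j = 4 ∧ n = 3 ∧ p = 8 ∧ q = 4)) ∨ (j = 4 ∧ n = 3 ∧ p = 8 ∧ q = 5))))) ∨ ((((((j = 4 ∧ n = 3 ∧ p = 9 ∧ q = 5) ∨ (j = 4 ∧ n = 4 ∧ p = 3 ∧ q = 5)) ∨ ((j = 4 ∧ n = 4 ∧ p = 5 ∧ q = 5) ∨ (j = 4 ∧ n = 4 ∧ p = 7 ∧ q = 5))) ∨ (((j = 4 ∧ n = 4 ∧ p = 9 ∧ q = 5) ∨ (j = 5 ∧ n = 1 ∧ p = 7 ∧ q = 2)) ∨ (j = 5 ∧ n = 1 ∧ p = 7 ∧ q = 3))) ∨ ((((j = 5 ∧ n = 1 ∧ p = 8 ∧ q = 3) ∨ (j = 5 ∧ n = 1 ∧ p = 8 ∧ q = 4)) ∨ (j = 5 ∧ n = 1 ∧ p = 9 ∧ q = 4)) ∨ (((j = 5 ∧ n = 2 ∧ p = 7 ∧ q = 3) ∨ (j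 = 5 ∧ n = 2 ∧ p = 8 ∧ q = 3)) ∨ (j = 5 ∧ n = 2 ∧ p = 9 ∧ q = 4)))) ∨ (((((j = 5 ∧ n = 3 ∧ p = 3 ∧ q = 3) ∨ (j = 5 ∧ n = 3 ∧ p = 3 ∧ q = 4)) ∨ ((j = 5 ∧ n = 3 ∧ p = 3 ∧ q = 5) ∨ (j = 5 ∧ n = 3 ∧ p = 4 ∧ q = 3))) ∨ (((j = 5 ∧ n = 3 ∧ p = 4 ∧ q = 4) ∨ (j = 5 ∧ n = 3 ∧ p = 4 ∧ q = 5)) ∨ (j = 5 ∧ n = 3 ∧ p = 5 ∧ q = 3))) ∨ ((((j = 5 ∧ n = 3 ∧ p = 5 ∧ q = 4) ∨ (j = 5 ∧ n = 3 ∧ p = 5 ∧ q = 5)) ∨ (j = 5 ∧ n = 3 ∧ p = 6 ∧ q = 3)) ∨ (((j = 5 ∧ n = 3 ∧ p = 6 ∧ q = 4) ∨ (j = 5 ∧ n = 3 ∧ p = 6 ∧ q = 5)) ∨ (j = 5 ∧ n = 3 ∧ p = 7 ∧ q = 3))))))) ∨ ((((((((j = 5 ∧ n = 3 ∧ p = 7 ∧ q = 4) ∨ (j = 5 ∧ n = 3 ∧ p = 7 ∧ q = 5)) ∨ ((j = 5 ∧ n = 3 ∧ p = 8 ∧ q = 4) ∨ (j = 5 ∧ n = 3 ∧ p = 8 ∧ q = 5))) ∨ (((j = 5 ∧ n = 4 ∧ p = 3 ∧ q = 5) ∨ (j = 5 ∧ n = 4 ∧ p = 4 ∧ q = 5)) ∨ (j = 5 ∧ n = 4 ∧ p = 5 ∧ q = 5))) ∨ ((((j = 5 ∧ n = 4 ∧ p = 6 ∧ q = 5) ∨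 (j = 5 ∧ n = 4 ∧ p = 7 ∧ q = 5)) ∨ ((j = 5 ∧ n = 4 ∧ p = 8 ∧ q = 5) ∨ (j = 6 ∧ n = 1 ∧ p = 8 ∧ q = 2))) ∨ (((j = 6 ∧ n = 1 ∧ p = 8 ∧ q = 3) ∨ (j = 6 ∧ n = 1 ∧ p = 9 ∧ q = 2)) ∨ (j = 6 ∧ n = 1 ∧ p = 9 ∧ q = 3)))) ∨ (((((j = 6 ∧ n = 1 ∧ p = 9 ∧ q = 4) ∨ (j = 6 ∧ n = 1 ∧ p = 10 ∧ q = 2)) ∨ ((j = 6 ∧ n = 1 ∧ p = 10 ∧ q = 3) ∨ (j = 6 ∧ n = 1 ∧ p = 10 ∧ q = 4))) ∨ (((j = 6 ∧ n = 1 ∧ p = 11 ∧ q = 3) ∨ (j = 6 ∧ n = 1 ∧ p = 11 ∧ q = 4)) ∨ (j = 6 ∧ n = 1 ∧ p = 12 ∧ q = 3))) ∨ ((((j = 6 ∧ n = 1 ∧ p = 12 ∧ q = 4) ∨ (j = 6 ∧ n = 2 ∧ p = 11 ∧ q = 2)) ∨ (j = 6 ∧ n = 2 ∧ p = 12 ∧ q = 2)) ∨ (((j = 6 ∧ n = 3 ∧ p = 3 ∧ q = 3) ∨ (j = 6 ∧ n = 3 ∧ p = 3 ∧ q = 4)) ∨ (j = 6 ∧ n = 3 ∧ p = 4 ∧ q = 3))))) ∨ ((((((j = 6 ∧ n = 3 ∧ p = 4 ∧ q = 4) ∨ (j = 6 ∧ n = 3 ∧ p = 5 ∧ q = 3)) ∨ ((j = 6 ∧ n = 3 ∧ p = 5 ∧ q = 4) ∨ (j = 6 ∧ n = 3 ∧ p = 5 ∧ q = 5)))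 ∨ (((j = 6 ∧ n = 3 ∧ p = 6 ∧ q = 3) ∨ (j = 6 ∧ n = 3 ∧ p = 6 ∧ q = 4)) ∨ (j = 6 ∧ n = 3 ∧ p = 6 ∧ q = 5))) ∨ ((((j = 6 ∧ n = 3 ∧ p = 7 ∧ q = 3) ∨ (j = 6 ∧ n = 3 ∧ p = 7 ∧ q = 4)) ∨ ((j = 6 ∧ n = 3 ∧ p = 7 ∧ q = 5) ∨ (j = 6 ∧ n = 3 ∧ p = 8 ∧ q = 3))) ∨ (((j = 6 ∧ n = 3 ∧ p = 8 ∧ q = 4) ∨ (j = 6 ∧ n = 3 ∧ p = 8 ∧ q = 5)) ∨ (j = 6 ∧ n = 3 ∧ p = 9 ∧ q = 4)))) ∨ (((((j = 6 ∧ n = 3 ∧ p = 9 ∧ q = 5) ∨ (j = 6 ∧ n = 3 ∧ p = 10 ∧ q = 5)) ∨ ((j = 6 ∧ n = 4 ∧ p = 3 ∧ q = 3) ∨ (j = 6 ∧ n = 4 ∧ p = 3 ∧ q = 4))) ∨ (((j = 7 ∧ n = 1 ∧ p = 8 ∧ q = 2) ∨ (j = 7 ∧ n = 1 ∧ p = 8 ∧ q = 3)) ∨ (j = 7 ∧ n = 1 ∧ p = 9 ∧ q = 2))) ∨ ((((j = 7 ∧ n = 1 ∧ p = 9 ∧ q = 3) ∨ (j = 7 ∧ n = 1 ∧ p = 9 ∧ q = 4)) ∨ (j = 7 ∧ n = 1 ∧ p = 10 ∧ q = 2)) ∨ (((j = 7 ∧ n = 1 ∧ p = 10 ∧ q = 3) ∨ (j = 7 ∧ n = 1 ∧ p = 10 ∧ q = 4)) ∨ (j = 7 ∧ n = 1 ∧ p = 11 ∧ q = 3))))))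 ∨ (((((((j = 7 ∧ n = 1 ∧ p = 11 ∧ q = 4) ∨ (j = 7 ∧ n = 1 ∧ p = 12 ∧ q = 4)) ∨ ((j = 7 ∧ n = 2 ∧ p = 8 ∧ q = 2) ∨ (j = 7 ∧ n = 2 ∧ p = 8 ∧ q = 3))) ∨ (((j = 7 ∧ n = 2 ∧ p = 9 ∧ q = 2) ∨ (j = 7 ∧ n = 2 ∧ p = 9 ∧ q = 3)) ∨ (j = 7 ∧ n = 2 ∧ p = 9 ∧ q = 4))) ∨ ((((j = 7 ∧ n = 2 ∧ p = 10 ∧ q = 2) ∨ (j = 7 ∧ n = 2 ∧ p = 10 ∧ q = 3)) ∨ ((j = 7 ∧ n = 2 ∧ p = 10 ∧ q = 4) ∨ (j = 7 ∧ n = 2 ∧ p = 11 ∧ q = 3))) ∨ (((j = 7 ∧ n = 2 ∧ p = 11 ∧ q = 4) ∨ (j = 7 ∧ n = 2 ∧ p = 12 ∧ q = 4)) ∨ (j = 7 ∧ n = 3 ∧ p = 5 ∧ q = 4)))) ∨ (((((j = 7 ∧ n = 3 ∧ p = 5 ∧ q = 5) ∨ (j = 7 ∧ n = 3 ∧ p = 6 ∧ q = 4)) ∨ ((j = 7 ∧ n = 3 ∧ p = 6 ∧ q = 5) ∨ (j = 7 ∧ n = 3 ∧ p = 7 ∧ q = 4))) ∨ (((j = 7 ∧ n = 3 ∧ p = 7 ∧ q = 5) ∨ (j = 7 ∧ n = 3 ∧ p = 8 ∧ q = 4)) ∨ (j = 7 ∧ n = 3 ∧ p = 8 ∧ q = 5))) ∨ ((((j = 7 ∧ n = 3 ∧ p = 9 ∧ q = 4) ∨ (j = 7 ∧ n = 3 ∧ p = 9 ∧ q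 = 5)) ∨ (j = 7 ∧ n = 3 ∧ p = 10 ∧ q = 5)) ∨ (((j = 7 ∧ n = 3 ∧ p = 11 ∧ q = 5) ∨ (j = 7 ∧ n = 3 ∧ p = 12 ∧ q = 5)) ∨ (j = 7 ∧ n = 4 ∧ p = 5 ∧ q = 5))))) ∨ ((((((j = 7 ∧ n = 4 ∧ p = 6 ∧ q = 5) ∨ (j = 7 ∧ n = 4 ∧ p = 7 ∧ q = 5)) ∨ ((j = 7 ∧ n = 4 ∧ p = 8 ∧ q = 5) ∨ (j = 7 ∧ n = 4 ∧ p = 9 ∧ q = 5))) ∨ (((j = 7 ∧ n = 4 ∧ p = 10 ∧ q = 5) ∨ (j = 7 ∧ n = 4 ∧ p = 11 ∧ q = 5)) ∨ (j = 7 ∧ n = 4 ∧ p = 12 ∧ q = 5))) ∨ ((((j = 8 ∧ n = 3 ∧ p = 10 ∧ q = 4) ∨ (j = 8 ∧ n = 3 ∧ p = 10 ∧ q = 5)) ∨ (j = 8 ∧ n = 3 ∧ p = 11 ∧ q = 4)) ∨ (((j = 8 ∧ n = 3 ∧ p = 11 ∧ q = 5) ∨ (j = 8 ∧ n = 3 ∧ p = 12 ∧ q = 3)) ∨ (j = 8 ∧ n = 3 ∧ p = 12 ∧ q = 4)))) ∨ (((((j = 8 ∧ n = 3 ∧ p = 12 ∧ q = 5) ∨ (j = 8 ∧ n = 3 ∧ p = 13 ∧ q = 3)) ∨ ((j = 8 ∧ n = 3 ∧ p = 13 ∧ q = 4) ∨ (j = 9 ∧ n = 3 ∧ p = 10 ∧ q = 4))) ∨ (((j = 9 ∧ n = 3 ∧ p = 10 ∧ q = 5) ∨ (j = 9 ∧ n =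 3 ∧ p = 11 ∧ q = 3)) ∨ (j = 9 ∧ n = 3 ∧ p = 11 ∧ q = 4))) ∨ ((((j = 9 ∧ n = 3 ∧ p = 11 ∧ q = 5) ∨ (j = 9 ∧ n = 3 ∧ p = 12 ∧ q = 4)) ∨ (j = 9 ∧ n = 3 ∧ p = 12 ∧ q = 5)) ∨ (((j = 9 ∧ n = 4 ∧ p = 10 ∧ q = 5) ∨ (j = 9 ∧ n = 4 ∧ p = 11 ∧ q = 5)) ∨ (j = 9 ∧ n = 4 ∧ p = 12 ∧ q = 5))))))))))
    683
    0x5df03071d8008594a07168008524a099483085200085204084b05084f00084b01098dd2084e00084e04084b03084e80084e8405d50307100007100405d88307138007138405df03071a00071a0405ca830705800844520848000986d208470008470405d80307130007130405d103070c00070c0405e00305a70005a70405dc0307170007170405ce03070900070904096603086000099bca08590008590405d183070c80070c8405a78306ae0006b19205ab0005ab04096603082b80082b84033083046b80046b8405ca83070580084452084780084784099803071e00071e0403688304a38004a38403690304a40004a404035483048f80048f8406b10306e58006e5840c148309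660009660405a78306ae0006b19205ab0005e02a04a08004a0840c1103096280096284035f03049a8005d95204998004998406b10305aa8005aa84035103048c00048c0409270306ad0006ad04032d03046800046804093203082c00082c04092e83096300096304033183046c80046c840335030470000470040c0e0309940009940407178305d80005d804036203049d00049d0405ca0307050007050402f903043400043404092b03095f80095f84092e8306800006b52a06e98006e98403698304a48004a48402fd0304380004380406b18306e60006e604035b0304960004960403660304a10004a104035a83049580049584092703067880067884035003048b00048b04035803049300049304092e83082800082804035383048e80048e84092e8306800006b4a206e90006e904035f03049a00049a0402f983043480043484092703082080082084035103048c8005cb52048b80048b84092a83082400082404035403048f00048f04096603099b00099b04092a8306b08006b084092a83067c00067c04036a0304a50004a504092b0306b10006b104092b03082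48008248407108305d10005d104031d03045800045804033483046f80046f84035703049200049204092e83068080068084032d83046880046884092e830828800828840335830470800470840c118309978009978407098305ca0005ca0409270306788006adaa06e20006e204035e03049900049904033103046c00046c04096603096680096684092b03067c80067c84092e8306b48006b484036283049d80049d8403298304648004648403580304938005d252049280049284036183049c80049c84033403046f00046f0403650304a00004a004035b830496800496840d50000d4f000d49000d48000aa4000a70000a690007f20007be000544000d500f0d4f0f0d490f0d480f0c11870c0e070c0a870bdd070bdc870bd9870bd9070bd8870bd6070bd5870ad6870ad5870acf870aa5070aa4870aa40f0aa2070aa1870aa1070a9e870a9e070a9b070a9a870a700f0a690f099b87099807099487099107098d87098a07098687098307096707096387096007095c87095c07095907095887095587095507095207095187094e87094e07093207092e87092e07092b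07092a87092a0709278709270709268709238709230708fd8708fa0708f98708f68708f60708f58708f30708f28708f20708ef0708ee87086087085987085887085287085187084b87084a87084387084087084007082507082187082107081e07081d87081d07081a87081a07081987081707081687081607081387081307081287080f87080f07080c07080b8707f68707f60707f28707f20f07ef8707e88707c28707c20707bf0707be8707be0f07bb8707bb0707ba8707b80707b78707b70707b40707b387071787071407071087070d0707098707060706e30706e28706df8706df0706de8706dc0706db8706db0706d88706d80706d78706d50706d48706d40706d18706d10706d08706b18706ad8706aa07067d0706798706790706758706750705e00705dc8705db8705d90705d58705d48705d20705ce8705cd8705cb0705c78705c68705ab8705a80705a78705a48705a40705a38705a10705a08705a007059f87059d87059d07059c87059c07059a0705998705990705988705968705960705958705950705930705928705920705918705798705728705458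705450705448705440f054207054187054107053e87053e07053d87053a87053a0704a187049e07049707049007046d07046987046907046607046587046507046287046207046187046107045f07045e87045e07045d87045b87045b07045a87045a07045787045707045687036687036587036487035e87035d87035787035687035087034f87033207032e07032a87032687032607032387032307032287032207032007031f87031f07031e87031c87031c07031b0703188703180703178702fd8702fc8702fb8702f58702f48702e887022f07022e87022e07022d87022d07022b87022b07022a87022a07022987022787022707022687022607022407022387022307022287022087022007021f87021f07021d07021c87021c07021b8702198702190702188702180702160702158702150702148702128702120702118702110701fa8701fa0701f98701f90701f88701f70701f68701f60701f58701f50701f30701f28701f20701f18701ef8701ef0701ee8701ee0701ec0701eb8701eb0701ea8701e88701e80701e78701e70701e50701e48701e40701e38701e20701e18701e10701e08701e00701de8701de0701dd8701dd0701dc8701c60701c58701c50701c48701c40701c28701c20701c18701c10701c08701be8701be0701bd8701bd0701bb0701ba8701ba0701b98701b68701b60701ad8701ad0701aa0701a987018d87018d07018a07018987018907018687018607018587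 = true := by
  decide +kernel

theorem o2ws_cert {f : ℕ → ℕ → ℕ → ℕ → Prop} (hf : Rule f) {a0 b0 x0 y0 : ℕ}
    (ha : a0 % 2 = 0) (hb : b0 % 2 = 0) (hx : x0 % 2 = 0) (hy : y0 % 2 = 1)
    (h1 : ∀ j n p q : ℕ, InR 10 6 15 7 1 j n p q →
      ((((((j = 4 ∧ n = 1 ∧ p = 10 ∧ q = 1) ∨ (j = 6 ∧ n = 1 ∧ p = 11 ∧ q = 2)) ∨ (j = 6 ∧ n = 2 ∧ p = 11 ∧ q = 1)) ∨ ((j = 8 ∧ n = 2 ∧ p = 11 ∧ q = 3) ∨ (j = 8 ∧ n = 2 ∧ p = 13 ∧ q = 3))) ∨ ((((j = 8 ∧ n = 3 ∧ p = 13 ∧ q = 2) ∨ (j = 10 ∧ n = 4 ∧ p = 11 ∧ q = 3)) ∨ (j = 10 ∧ n = 4 ∧ p = 11 ∧ q = 5)) ∨ ((j = 10 ∧ n = 4 ∧ p = 13 ∧ q = 3) ∨ (j = 10 ∧ n = 4 ∧ p = 13 ∧ q = 5))))) →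
      f (a0 + j) (b0 + n) (x0 + p) (y0 + q))
    (h0 : ∀ j n p q : ℕ, InR 10 6 15 7 1 j n p q →
      (((((((((j = 1 ∨ (j = 2 ∧ n = 3 ∧ p = 1 ∧ q = 1)) ∨ ((j = 2 ∧ n = 3 ∧ p = 1 ∧ q = 2) ∨ (j = 2 ∧ n = 3 ∧ p = 1 ∧ q = 3))) ∨ (((j = 2 ∧ n = 3 ∧ p = 2 ∧ q = 1) ∨ (j = 2 ∧ n = 3 ∧ p = 2 ∧ q = 3)) ∨ (j = 2 ∧ n = 3 ∧ p = 2 ∧ q = 4))) ∨ ((((j = 2 ∧ n = 3 ∧ p = 3 ∧ q = 1) ∨ (j = 2 ∧ n = 3 ∧ p = 3 ∧ q = 2)) ∨ ((j = 2 ∧ n = 3 ∧ p = 3 ∧ q = 3) ∨ (j = 2 ∧ n = 3 ∧ p = 3 ∧ q = 4))) ∨ (((j = 2 ∧ n = 3 ∧ p = 4 ∧ q = 1) ∨ (j = 2 ∧ n = 3 ∧ p = 4 ∧ q = 2)) ∨ (j = 2 ∧ n = 3 ∧ p = 4 ∧ q = 3)))) ∨ (((((j = 2 ∧ n = 3 ∧ p = 4 ∧ q = 4) ∨ (j = 2 ∧ n = 3 ∧ p = 5 ∧ q = 2)) ∨ ((j = 2 ∧ n = 3 ∧ p = 5 ∧ q = 3) ∨ (j = 2 ∧ n = 3 ∧ p = 6 ∧ q = 4))) ∨ (((j = 2 ∧ n = 3 ∧ p = 7 ∧ q = 4) ∨ (j = 2 ∧ n = 3 ∧ p = 8 ∧ q = 5)) ∨ (j = 3 ∧ n = 3 ∧ p = 2 ∧ q = 2)))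 ∨ ((((j = 3 ∧ n = 3 ∧ p = 2 ∧ q = 3) ∨ (j = 3 ∧ n = 3 ∧ p = 2 ∧ q = 4)) ∨ (j = 3 ∧ n = 3 ∧ p = 3 ∧ q = 2)) ∨ (((j = 3 ∧ n = 3 ∧ p = 3 ∧ q = 3) ∨ (j = 3 ∧ n = 3 ∧ p = 3 ∧ q = 4)) ∨ (j = 3 ∧ n = 3 ∧ p = 3 ∧ q = 5))))) ∨ ((((((j = 3 ∧ n = 3 ∧ p = 4 ∧ q = 2) ∨ (j = 3 ∧ n = 3 ∧ p = 4 ∧ q = 3)) ∨ ((j = 3 ∧ n = 3 ∧ p = 4 ∧ q = 4) ∨ (j = 3 ∧ n = 3 ∧ p = 4 ∧ q = 5))) ∨ (((j = 3 ∧ n = 3 ∧ p = 5 ∧ q = 2) ∨ (j = 3 ∧ n = 3 ∧ p = 5 ∧ q = 3)) ∨ (j = 3 ∧ n = 3 ∧ p = 5 ∧ q = 4))) ∨ ((((j = 3 ∧ n = 3 ∧ p = 5 ∧ q = 5) ∨ (j = 3 ∧ n = 3 ∧ p = 6 ∧ q = 3)) ∨ ((j = 3 ∧ n = 3 ∧ p = 6 ∧ q = 4) ∨ (j = 3 ∧ n = 3 ∧ p = 6 ∧ q = 5))) ∨ (((j = 3 ∧ n = 3 ∧ p = 7 ∧ q = 4) ∨ (j = 3 ∧ n = 3 ∧ p = 7 ∧ q = 5)) ∨ (j = 3 ∧ n = 3 ∧ p = 8 ∧ q = 5)))) ∨ (((((j = 3 ∧ n = 4 ∧ p = 3 ∧ q = 5) ∨ (j = 3 ∧ n = 4 ∧ p = 5 ∧ q = 5)) ∨ ((j = 3 ∧ n = 4 ∧ p = 7 ∧ q = 5) ∨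 (j = 3 ∧ n = 4 ∧ p = 8 ∧ q = 5))) ∨ (((j = 4 ∧ n = 1 ∧ p = 7 ∧ q = 2) ∨ (j = 4 ∧ n = 1 ∧ p = 7 ∧ q = 3)) ∨ (j = 4 ∧ n = 1 ∧ p = 8 ∧ q = 2))) ∨ ((((j = 4 ∧ n = 1 ∧ p = 8 ∧ q = 3) ∨ (j = 4 ∧ n = 1 ∧ p = 8 ∧ q = 4)) ∨ (j = 4 ∧ n = 1 ∧ p = 9 ∧ q = 2)) ∨ (((j = 4 ∧ n = 1 ∧ p = 9 ∧ q = 3) ∨ (j = 4 ∧ n = 1 ∧ p = 9 ∧ q = 4)) ∨ (j = 4 ∧ n = 1 ∧ p = 10 ∧ q = 2)))))) ∨ (((((((j = 4 ∧ n = 1 ∧ p = 10 ∧ q = 3) ∨ (j = 4 ∧ n = 1 ∧ p = 10 ∧ q = 4)) ∨ ((j = 4 ∧ n = 3 ∧ p = 2 ∧ q = 2) ∨ (j = 4 ∧ n = 3 ∧ p = 2 ∧ q = 3))) ∨ (((j = 4 ∧ n = 3 ∧ p = 2 ∧ q = 4) ∨ (j = 4 ∧ n = 3 ∧ p = 2 ∧ q = 5)) ∨ (j = 4 ∧ n = 3 ∧ p = 3 ∧ q = 2))) ∨ ((((j = 4 ∧ n = 3 ∧ p = 3 ∧ q = 3) ∨ (j = 4 ∧ n = 3 ∧ p = 3 ∧ q = 4)) ∨ ((j = 4 ∧ n = 3 ∧ p = 3 ∧ q = 5) ∨ (j = 4 ∧ n = 3 ∧ p = 4 ∧ q = 2))) ∨ (((j = 4 ∧ n = 3 ∧ p = 4 ∧ q = 3) ∨ (j = 4 ∧ n = 3 ∧ p = 4 ∧ q = 4)) ∨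 (j = 4 ∧ n = 3 ∧ p = 4 ∧ q = 5)))) ∨ (((((j = 4 ∧ n = 3 ∧ p = 5 ∧ q = 2) ∨ (j = 4 ∧ n = 3 ∧ p = 5 ∧ q = 3)) ∨ ((j = 4 ∧ n = 3 ∧ p = 5 ∧ q = 4) ∨ (j = 4 ∧ n = 3 ∧ p = 5 ∧ q = 5))) ∨ (((j = 4 ∧ n = 3 ∧ p = 6 ∧ q = 2) ∨ (j = 4 ∧ n = 3 ∧ p = 6 ∧ q = 3)) ∨ (j = 4 ∧ n = 3 ∧ p = 6 ∧ q = 4))) ∨ ((((j = 4 ∧ n = 3 ∧ p = 6 ∧ q = 5) ∨ (j = 4 ∧ n = 3 ∧ p = 7 ∧ q = 3)) ∨ (j = 4 ∧ n = 3 ∧ p = 7 ∧ q = 4)) ∨ (((j = 4 ∧ n = 3 ∧ p = 7 ∧ q = 5) ∨ (j = 4 ∧ n = 3 ∧ p = 8 ∧ q = 4)) ∨ (j = 4 ∧ n = 3 ∧ p = 8 ∧ q = 5))))) ∨ ((((((j = 4 ∧ n = 3 ∧ p = 9 ∧ q = 5) ∨ (j = 4 ∧ n = 4 ∧ p = 3 ∧ q = 5)) ∨ ((j = 4 ∧ n = 4 ∧ p = 5 ∧ q = 5) ∨ (j = 4 ∧ n = 4 ∧ p = 7 ∧ q = 5))) ∨ (((j = 4 ∧ n = 4 ∧ p = 9 ∧ q = 5) ∨ (j = 5 ∧ n = 1 ∧ p = 7 ∧ q = 2)) ∨ (j = 5 ∧ n = 1 ∧ p = 7 ∧ q = 3))) ∨ ((((j = 5 ∧ n = 1 ∧ p = 8 ∧ q = 3) ∨ (j = 5 ∧ n = 1 ∧ p = 8 ∧ q = 4)) ∨ (j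 = 5 ∧ n = 1 ∧ p = 9 ∧ q = 4)) ∨ (((j = 5 ∧ n = 2 ∧ p = 7 ∧ q = 3) ∨ (j = 5 ∧ n = 2 ∧ p = 8 ∧ q = 3)) ∨ (j = 5 ∧ n = 2 ∧ p = 9 ∧ q = 4)))) ∨ (((((j = 5 ∧ n = 3 ∧ p = 3 ∧ q = 3) ∨ (j = 5 ∧ n = 3 ∧ p = 3 ∧ q = 4)) ∨ ((j = 5 ∧ n = 3 ∧ p = 3 ∧ q = 5) ∨ (j = 5 ∧ n = 3 ∧ p = 4 ∧ q = 3))) ∨ (((j = 5 ∧ n = 3 ∧ p = 4 ∧ q = 4) ∨ (j = 5 ∧ n = 3 ∧ p = 4 ∧ q = 5)) ∨ (j = 5 ∧ n = 3 ∧ p = 5 ∧ q = 3))) ∨ ((((j = 5 ∧ n = 3 ∧ p = 5 ∧ q = 4) ∨ (j = 5 ∧ n = 3 ∧ p = 5 ∧ q = 5)) ∨ (j = 5 ∧ n = 3 ∧ p = 6 ∧ q = 3)) ∨ (((j = 5 ∧ n = 3 ∧ p = 6 ∧ q = 4) ∨ (j = 5 ∧ n = 3 ∧ p = 6 ∧ q = 5)) ∨ (j = 5 ∧ n = 3 ∧ p = 7 ∧ q = 3))))))) ∨ ((((((((j = 5 ∧ n = 3 ∧ p = 7 ∧ q = 4) ∨ (j = 5 ∧ n = 3 ∧ p = 7 ∧ q = 5)) ∨ ((j = 5 ∧ n = 3 ∧ p = 8 ∧ q = 4) ∨ (j = 5 ∧ n = 3 ∧ p = 8 ∧ q = 5))) ∨ (((j = 5 ∧ n = 4 ∧ p = 3 ∧ q = 5) ∨ (j = 5 ∧ n = 4 ∧ p = 4 ∧ q = 5)) ∨ (j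 = 5 ∧ n = 4 ∧ p = 5 ∧ q = 5))) ∨ ((((j = 5 ∧ n = 4 ∧ p = 6 ∧ q = 5) ∨ (j = 5 ∧ n = 4 ∧ p = 7 ∧ q = 5)) ∨ ((j = 5 ∧ n = 4 ∧ p = 8 ∧ q = 5) ∨ (j = 6 ∧ n = 1 ∧ p = 8 ∧ q = 2))) ∨ (((j = 6 ∧ n = 1 ∧ p = 8 ∧ q = 3) ∨ (j = 6 ∧ n = 1 ∧ p = 9 ∧ q = 2)) ∨ (j = 6 ∧ n = 1 ∧ p = 9 ∧ q = 3)))) ∨ (((((j = 6 ∧ n = 1 ∧ p = 9 ∧ q = 4) ∨ (j = 6 ∧ n = 1 ∧ p = 10 ∧ q = 2)) ∨ ((j = 6 ∧ n = 1 ∧ p = 10 ∧ q = 3) ∨ (j = 6 ∧ n = 1 ∧ p = 10 ∧ q = 4))) ∨ (((j = 6 ∧ n = 1 ∧ p = 11 ∧ q = 3) ∨ (j = 6 ∧ n = 1 ∧ p = 11 ∧ q = 4)) ∨ (j = 6 ∧ n = 1 ∧ p = 12 ∧ q = 3))) ∨ ((((j = 6 ∧ n = 1 ∧ p = 12 ∧ q = 4) ∨ (j = 6 ∧ n = 2 ∧ p = 11 ∧ q = 2)) ∨ (j = 6 ∧ n = 2 ∧ p = 12 ∧ q = 2)) ∨ (((j = 6 ∧ n = 3 ∧ p = 3 ∧ q = 3) ∨ (j = 6 ∧ n = 3 ∧ p = 3 ∧ q = 4)) ∨ (j = 6 ∧ n = 3 ∧ p = 4 ∧ q = 3))))) ∨ ((((((j = 6 ∧ n = 3 ∧ p = 4 ∧ q = 4) ∨ (j = 6 ∧ n = 3 ∧ p = 5 ∧ q = 3))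 ∨ ((j = 6 ∧ n = 3 ∧ p = 5 ∧ q = 4) ∨ (j = 6 ∧ n = 3 ∧ p = 5 ∧ q = 5))) ∨ (((j = 6 ∧ n = 3 ∧ p = 6 ∧ q = 3) ∨ (j = 6 ∧ n = 3 ∧ p = 6 ∧ q = 4)) ∨ (j = 6 ∧ n = 3 ∧ p = 6 ∧ q = 5))) ∨ ((((j = 6 ∧ n = 3 ∧ p = 7 ∧ q = 3) ∨ (j = 6 ∧ n = 3 ∧ p = 7 ∧ q = 4)) ∨ ((j = 6 ∧ n = 3 ∧ p = 7 ∧ q = 5) ∨ (j = 6 ∧ n = 3 ∧ p = 8 ∧ q = 3))) ∨ (((j = 6 ∧ n = 3 ∧ p = 8 ∧ q = 4) ∨ (j = 6 ∧ n = 3 ∧ p = 8 ∧ q = 5)) ∨ (j = 6 ∧ n = 3 ∧ p = 9 ∧ q = 4)))) ∨ (((((j = 6 ∧ n = 3 ∧ p = 9 ∧ q = 5) ∨ (j = 6 ∧ n = 3 ∧ p = 10 ∧ q = 5)) ∨ ((j = 6 ∧ n = 4 ∧ p = 3 ∧ q = 3) ∨ (j = 6 ∧ n = 4 ∧ p = 3 ∧ q = 4))) ∨ (((j = 7 ∧ n = 1 ∧ p = 8 ∧ q = 2) ∨ (j = 7 ∧ n = 1 ∧ p = 8 ∧ q = 3)) ∨ (j = 7 ∧ n = 1 ∧ p = 9 ∧ q = 2))) ∨ ((((j = 7 ∧ n = 1 ∧ p = 9 ∧ q = 3) ∨ (j = 7 ∧ n = 1 ∧ p = 9 ∧ q = 4)) ∨ (j = 7 ∧ n = 1 ∧ p = 10 ∧ q = 2)) ∨ (((j = 7 ∧ n = 1 ∧ p = 10 ∧ q = 3) ∨ (j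 = 7 ∧ n = 1 ∧ p = 10 ∧ q = 4)) ∨ (j = 7 ∧ n = 1 ∧ p = 11 ∧ q = 3)))))) ∨ (((((((j = 7 ∧ n = 1 ∧ p = 11 ∧ q = 4) ∨ (j = 7 ∧ n = 1 ∧ p = 12 ∧ q = 4)) ∨ ((j = 7 ∧ n = 2 ∧ p = 8 ∧ q = 2) ∨ (j = 7 ∧ n = 2 ∧ p = 8 ∧ q = 3))) ∨ (((j = 7 ∧ n = 2 ∧ p = 9 ∧ q = 2) ∨ (j = 7 ∧ n = 2 ∧ p = 9 ∧ q = 3)) ∨ (j = 7 ∧ n = 2 ∧ p = 9 ∧ q = 4))) ∨ ((((j = 7 ∧ n = 2 ∧ p = 10 ∧ q = 2) ∨ (j = 7 ∧ n = 2 ∧ p = 10 ∧ q = 3)) ∨ ((j = 7 ∧ n = 2 ∧ p = 10 ∧ q = 4) ∨ (j = 7 ∧ n = 2 ∧ p = 11 ∧ q = 3))) ∨ (((j = 7 ∧ n = 2 ∧ p = 11 ∧ q = 4) ∨ (j = 7 ∧ n = 2 ∧ p = 12 ∧ q = 4)) ∨ (j = 7 ∧ n = 3 ∧ p = 5 ∧ q = 4)))) ∨ (((((j = 7 ∧ n = 3 ∧ p = 5 ∧ q = 5) ∨ (j = 7 ∧ n = 3 ∧ p = 6 ∧ q = 4)) ∨ ((j = 7 ∧ n = 3 ∧ p = 6 ∧ q = 5) ∨ (j = 7 ∧ n = 3 ∧ p = 7 ∧ q = 4))) ∨ (((j = 7 ∧ n = 3 ∧ p = 7 ∧ q = 5) ∨ (j = 7 ∧ n = 3 ∧ p = 8 ∧ q = 4)) ∨ (j = 7 ∧ n = 3 ∧ p = 8 ∧ q =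 5))) ∨ ((((j = 7 ∧ n = 3 ∧ p = 9 ∧ q = 4) ∨ (j = 7 ∧ n = 3 ∧ p = 9 ∧ q = 5)) ∨ (j = 7 ∧ n = 3 ∧ p = 10 ∧ q = 5)) ∨ (((j = 7 ∧ n = 3 ∧ p = 11 ∧ q = 5) ∨ (j = 7 ∧ n = 3 ∧ p = 12 ∧ q = 5)) ∨ (j = 7 ∧ n = 4 ∧ p = 5 ∧ q = 5))))) ∨ ((((((j = 7 ∧ n = 4 ∧ p = 6 ∧ q = 5) ∨ (j = 7 ∧ n = 4 ∧ p = 7 ∧ q = 5)) ∨ ((j = 7 ∧ n = 4 ∧ p = 8 ∧ q = 5) ∨ (j = 7 ∧ n = 4 ∧ p = 9 ∧ q = 5))) ∨ (((j = 7 ∧ n = 4 ∧ p = 10 ∧ q = 5) ∨ (j = 7 ∧ n = 4 ∧ p = 11 ∧ q = 5)) ∨ (j = 7 ∧ n = 4 ∧ p = 12 ∧ q = 5))) ∨ ((((j = 8 ∧ n = 3 ∧ p = 10 ∧ q = 4) ∨ (j = 8 ∧ n = 3 ∧ p = 10 ∧ q = 5)) ∨ (j = 8 ∧ n = 3 ∧ p = 11 ∧ q = 4)) ∨ (((j = 8 ∧ n = 3 ∧ p = 11 ∧ q = 5) ∨ (j = 8 ∧ n = 3 ∧ p = 12 ∧ q = 3)) ∨ (j = 8 ∧ n = 3 ∧ p = 12 ∧ q = 4)))) ∨ (((((j = 8 ∧ n = 3 ∧ p = 12 ∧ q = 5) ∨ (j = 8 ∧ n = 3 ∧ p = 13 ∧ q = 3)) ∨ ((j = 8 ∧ n = 3 ∧ p = 13 ∧ q = 4) ∨ (j = 9 ∧ n = 3 ∧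 p = 10 ∧ q = 4))) ∨ (((j = 9 ∧ n = 3 ∧ p = 10 ∧ q = 5) ∨ (j = 9 ∧ n = 3 ∧ p = 11 ∧ q = 3)) ∨ (j = 9 ∧ n = 3 ∧ p = 11 ∧ q = 4))) ∨ ((((j = 9 ∧ n = 3 ∧ p = 11 ∧ q = 5) ∨ (j = 9 ∧ n = 3 ∧ p = 12 ∧ q = 4)) ∨ (j = 9 ∧ n = 3 ∧ p = 12 ∧ q = 5)) ∨ (((j = 9 ∧ n = 4 ∧ p = 10 ∧ q = 5) ∨ (j = 9 ∧ n = 4 ∧ p = 11 ∧ q = 5)) ∨ (j = 9 ∧ n = 4 ∧ p = 12 ∧ q = 5))))))))) →
      ¬ f (a0 + j) (b0 + n) (x0 + p) (y0 + q)) : False :=
  check_sound hf o2ws_cert_chk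
    ⟨fun h => absurd h (by decide), fun h => absurd h (by decide),
      fun h => absurd h (by decide), ha, hb, hx, hy⟩
    (fun j n p q hr h => h1 j n p q hr (of_decide_eq_true h))
    (fun j n p q hr h => h0 j n p q hr (of_decide_eq_true h))

end Pool.Agent.SNT.Loc

namespace Pool.Agent.SNT.O2W

open Pool.Agent.SNT Pool.Agent.SNT.Sig Pool.Agent.SNT.ZoneT Pool.Agent.SNT.ZoneI Pool.Agent.SNT.LW Pool.Agent.SNT.NHZ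

variable {f : ℕ → ℕ → ℕ → ℕ → Prop} {k b m : ℕ}

/-- The wall signal of `6 k + 4` in the block row `1` of the row `c + 2` (leads `(1, -3, -6)`) (helper82). -/
theorem w1_wall (hf : Rule f) (hs : Side k b m) (S : Stack6 f k b m 0 0 0 0 0 1) {n : ℕ}
    (hn : n = m + 9 + (k + 2) * 4)
    (d2 : Cyc f (6 * k + 2) (b + 18) (2 * (n - 3) + 2))
    (hp2 : ∀ x : ℕ, x % 2 = 1 → 2 * n + 9 ≤ x → x + 1 ≤ 2 * n + 2 * k → ¬ f (6 * k + 2) (b + 24) x (2 * n + 4))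
    :
    f (6 * k + 4) (b + 24) (2 * n + 2 * k - 7) (2 * n + 2) ∨ f (6 * k + 4) (b + 24) (2 * n + 2 * k - 7) (2 * n + 3) := by
  by_contra hc
  have g2 : ¬ f (6 * k + 4) (b + 24) (2 * n + 2 * k - 7) (2 * n + 2) := fun h => hc (Or.inl h)
  have g3 : ¬ f (6 * k + 4) (b + 24) (2 * n + 2 * k - 7) (2 * n + 3) := fun h => hc (Or.inr h)
  clear hc
  have Z := NHT.of_stack hs S
  have U := NHU.of_stack hs S
  obtain ⟨hk, hb, h4, hb2, hm⟩ := hs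
  have hlw : ∀ L R x y : ℕ, L + 1 = 6 * k → b ≤ R → R ≤ b + 40 → 2 * m ≤ x → y ≤ x →
      x ≤ y + 3 * k → ¬ f L R x y := by
    intro L R x y hM h2 h3 h4' h5 h6 h
    have e : L = 6 * k - 1 := by omega
    have e2 : R = b + (R - b) := by omega
    rw [e, e2] at h
    have h7 := (S.lw (R - b) (by omega) x y (by rw [max_eq_left h5]; omega)).1 h
    exact Fst_near_odd (by omega) (by rw [max_eq_left h5, min_eq_right h5]; omega) h7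
  have y2_5 : Lay (6 * k + 2) (b + 18) k := ⟨by omega, by omega, by omega, by omega⟩
  have y4_3 : Lay (6 * k + 4) (b + 4 * 5) k := ⟨by omega, by omega, by omega, by omega⟩
  have y6_3 : Lay (6 * k + 6) (b + 2 + 4 * 5) (k + 1) := ⟨by omega, by omega, by omega, by omega⟩
  have y8_3 : Lay (6 * k + 8) (b + 4 + 4 * 5) (k + 1) := ⟨by omega, by omega, by omega, by omega⟩
  obtain ⟨n1, rfl⟩ : ∃ n1, n = n1 + 6 := ⟨n - 6, by omega⟩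
  rw [show n1 + 6 - 3 = n1 + 3 from rfl] at d2
  obtain ⟨x0, ex⟩ : ∃ x0, x0 + 10 = 2 * (n1 + 6) + 2 * k := ⟨2 * (n1 + 6) + 2 * k - 10, by omega⟩
  obtain ⟨y0, ey⟩ : ∃ y0, y0 + 1 = 2 * (n1 + 6) := ⟨2 * (n1 + 6) - 1, by omega⟩
  obtain ⟨a0, ea⟩ : ∃ a0, a0 + 2 = 6 * k := ⟨6 * k - 2, by omega⟩
  refine Loc.o2ws_cert hf (a0 := a0) (b0 := b + 20) (x0 := x0) (y0 := y0) (by omega) (by omega)
    (by omega) (by omega) ?_ ?_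
  · intro j n p q _ hx
    rcases hx with ((((⟨rfl, rfl, rfl, rfl⟩ | ⟨rfl, rfl, rfl, rfl⟩) | ⟨rfl, rfl, rfl, rfl⟩) | (⟨rfl, rfl, rfl, rfl⟩ | ⟨rfl, rfl, rfl, rfl⟩)) | (((⟨rfl, rfl, rfl, rfl⟩ | 
      ⟨rfl, rfl, rfl, rfl⟩) | ⟨rfl, rfl, rfl, rfl⟩) | (⟨rfl, rfl, rfl, rfl⟩ | ⟨rfl, rfl, rfl, rfl⟩)))
    · exact (v3x y2_5 d2 (by omega) (by omega) (by omega) (by omega) (by omega)).2 (by unfold V3; omega)
    · exact (v1 y4_3 (S.l4 5) (by omega) (by omega) (by omega) (by omega) (by omega)).2 (by unfold V1; omega)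
    · exact (v2x y4_3 (S.l4 5) (by omega) (by omega) (by omega) (by omega) (by omega) (by omega)).2 (by unfold V2; omega)
    · exact (v0 y6_3 (S.l6 5) (by omega) (by omega) (by omega) (by omega) (by omega)).2 (by unfold V0; omega)
    · exact (v0 y6_3 (S.l6 5) (by omega) (by omega) (by omega) (by omega) (by omega)).2 (by unfold V0; omega)
    · exact (v1 y6_3 (S.l6 5) (by omega) (by omega) (by omega) (by omega) (by omega)).2 (by unfold V1; omega)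
    · exact (w0 y8_3 (S.l8 5) (by omega) (by omega) (by omega) (by omega) (by omega) (by omega)).2 (by unfold V0; omega)
    · exact (w0 y8_3 (S.l8 5) (by omega) (by omega) (by omega) (by omega) (by omega) (by omega)).2 (by unfold V0; omega)
    · exact (w0 y8_3 (S.l8 5) (by omega) (by omega) (by omega) (by omega) (by omega) (by omega)).2 (by unfold V0; omega)
    · exact (w0 y8_3 (S.l8 5) (by omega) (by omega) (by omega) (by omega) (by omega) (by omega)).2 (by unfold V0; omega)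
  · intro j n p q hr hx
    rcases hx with ((((((((rfl | ⟨rfl, rfl, rfl, rfl⟩) | (⟨rfl, rfl, rfl, rfl⟩ | ⟨rfl, rfl, rfl, rfl⟩)) | ((⟨rfl, rfl, rfl, rfl⟩ | ⟨rfl, rfl, rfl, rfl⟩) | 
      ⟨rfl, rfl, rfl, rfl⟩)) | (((⟨rfl, rfl, rfl, rfl⟩ | ⟨rfl, rfl, rfl, rfl⟩) | (⟨rfl, rfl, rfl, rfl⟩ | ⟨rfl, rfl, rfl, rfl⟩)) | ((⟨rfl, rfl, rfl, rfl⟩ | 
      ⟨rfl, rfl, rfl, rfl⟩) | ⟨rfl, rfl, rfl, rfl⟩))) | ((((⟨rfl, rfl, rfl, rfl⟩ | ⟨rfl, rfl, rfl, rfl⟩) | (⟨rfl, rfl, rfl, rfl⟩ | ⟨rfl, rfl, rfl, rfl⟩)) | 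
      ((⟨rfl, rfl, rfl, rfl⟩ | ⟨rfl, rfl, rfl, rfl⟩) | ⟨rfl, rfl, rfl, rfl⟩)) | (((⟨rfl, rfl, rfl, rfl⟩ | ⟨rfl, rfl, rfl, rfl⟩) | ⟨rfl, rfl, rfl, rfl⟩) | 
      ((⟨rfl, rfl, rfl, rfl⟩ | ⟨rfl, rfl, rfl, rfl⟩) | ⟨rfl, rfl, rfl, rfl⟩)))) | (((((⟨rfl, rfl, rfl, rfl⟩ | ⟨rfl, rfl, rfl, rfl⟩) | (⟨rfl, rfl, rfl, rfl⟩ | 
      ⟨rfl, rfl, rfl, rfl⟩)) | ((⟨rfl, rfl, rfl, rfl⟩ | ⟨rfl, rfl, rfl, rfl⟩) | ⟨rfl, rfl, rfl, rfl⟩)) | (((⟨rfl, rfl, rfl, rfl⟩ | ⟨rfl, rfl, rfl, rfl⟩) | 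
      (⟨rfl, rfl, rfl, rfl⟩ | ⟨rfl, rfl, rfl, rfl⟩)) | ((⟨rfl, rfl, rfl, rfl⟩ | ⟨rfl, rfl, rfl, rfl⟩) | ⟨rfl, rfl, rfl, rfl⟩))) | ((((⟨rfl, rfl, rfl, rfl⟩ | 
      ⟨rfl, rfl, rfl, rfl⟩) | (⟨rfl, rfl, rfl, rfl⟩ | ⟨rfl, rfl, rfl, rfl⟩)) | ((⟨rfl, rfl, rfl, rfl⟩ | ⟨rfl, rfl, rfl, rfl⟩) | ⟨rfl, rfl, rfl, rfl⟩)) | 
      (((⟨rfl, rfl, rfl, rfl⟩ | ⟨rfl, rfl, rfl, rfl⟩) | ⟨rfl, rfl, rfl, rfl⟩) | ((⟨rfl, rfl, rfl, rfl⟩ | ⟨rfl, rfl, rfl, rfl⟩) | ⟨rfl, rfl, rfl, rfl⟩))))) | 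
      ((((((⟨rfl, rfl, rfl, rfl⟩ | ⟨rfl, rfl, rfl, rfl⟩) | (⟨rfl, rfl, rfl, rfl⟩ | ⟨rfl, rfl, rfl, rfl⟩)) | ((⟨rfl, rfl, rfl, rfl⟩ | ⟨rfl, rfl, rfl, rfl⟩) | 
      ⟨rfl, rfl, rfl, rfl⟩)) | (((⟨rfl, rfl, rfl, rfl⟩ | ⟨rfl, rfl, rfl, rfl⟩) | (⟨rfl, rfl, rfl, rfl⟩ | ⟨rfl, rfl, rfl, rfl⟩)) | ((⟨rfl, rfl, rfl, rfl⟩ | 
      ⟨rfl, rfl, rfl, rfl⟩) | ⟨rfl, rfl, rfl, rfl⟩))) | ((((⟨rfl, rfl, rfl, rfl⟩ | ⟨rfl, rfl, rfl, rfl⟩) | (⟨rfl, rfl, rfl, rfl⟩ | ⟨rfl, rfl, rfl, rfl⟩)) | 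
      ((⟨rfl, rfl, rfl, rfl⟩ | ⟨rfl, rfl, rfl, rfl⟩) | ⟨rfl, rfl, rfl, rfl⟩)) | (((⟨rfl, rfl, rfl, rfl⟩ | ⟨rfl, rfl, rfl, rfl⟩) | ⟨rfl, rfl, rfl, rfl⟩) | 
      ((⟨rfl, rfl, rfl, rfl⟩ | ⟨rfl, rfl, rfl, rfl⟩) | ⟨rfl, rfl, rfl, rfl⟩)))) | (((((⟨rfl, rfl, rfl, rfl⟩ | ⟨rfl, rfl, rfl, rfl⟩) | (⟨rfl, rfl, rfl, rfl⟩ | 
      ⟨rfl, rfl, rfl, rfl⟩)) | ((⟨rfl, rfl, rfl, rfl⟩ | ⟨rfl, rfl, rfl, rfl⟩) | ⟨rfl, rfl, rfl, rfl⟩)) | (((⟨rfl, rfl, rfl, rfl⟩ | ⟨rfl, rfl, rfl, rfl⟩) | 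
      ⟨rfl, rfl, rfl, rfl⟩) | ((⟨rfl, rfl, rfl, rfl⟩ | ⟨rfl, rfl, rfl, rfl⟩) | ⟨rfl, rfl, rfl, rfl⟩))) | ((((⟨rfl, rfl, rfl, rfl⟩ | ⟨rfl, rfl, rfl, rfl⟩) | 
      (⟨rfl, rfl, rfl, rfl⟩ | ⟨rfl, rfl, rfl, rfl⟩)) | ((⟨rfl, rfl, rfl, rfl⟩ | ⟨rfl, rfl, rfl, rfl⟩) | ⟨rfl, rfl, rfl, rfl⟩)) | (((⟨rfl, rfl, rfl, rfl⟩ | 
      ⟨rfl, rfl, rfl, rfl⟩) | ⟨rfl, rfl, rfl, rfl⟩) | ((⟨rfl, rfl, rfl, rfl⟩ | ⟨rfl, rfl, rfl, rfl⟩) | ⟨rfl, rfl, rfl, rfl⟩)))))) | (((((((⟨rfl, rfl, rfl, rfl⟩ | 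
      ⟨rfl, rfl, rfl, rfl⟩) | (⟨rfl, rfl, rfl, rfl⟩ | ⟨rfl, rfl, rfl, rfl⟩)) | ((⟨rfl, rfl, rfl, rfl⟩ | ⟨rfl, rfl, rfl, rfl⟩) | ⟨rfl, rfl, rfl, rfl⟩)) | 
      (((⟨rfl, rfl, rfl, rfl⟩ | ⟨rfl, rfl, rfl, rfl⟩) | (⟨rfl, rfl, rfl, rfl⟩ | ⟨rfl, rfl, rfl, rfl⟩)) | ((⟨rfl, rfl, rfl, rfl⟩ | ⟨rfl, rfl, rfl, rfl⟩) | 
      ⟨rfl, rfl, rfl, rfl⟩))) | ((((⟨rfl, rfl, rfl, rfl⟩ | ⟨rfl, rfl, rfl, rfl⟩) | (⟨rfl, rfl, rfl, rfl⟩ | ⟨rfl, rfl, rfl, rfl⟩)) | ((⟨rfl, rfl, rfl, rfl⟩ | 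
      ⟨rfl, rfl, rfl, rfl⟩) | ⟨rfl, rfl, rfl, rfl⟩)) | (((⟨rfl, rfl, rfl, rfl⟩ | ⟨rfl, rfl, rfl, rfl⟩) | ⟨rfl, rfl, rfl, rfl⟩) | ((⟨rfl, rfl, rfl, rfl⟩ | 
      ⟨rfl, rfl, rfl, rfl⟩) | ⟨rfl, rfl, rfl, rfl⟩)))) | (((((⟨rfl, rfl, rfl, rfl⟩ | ⟨rfl, rfl, rfl, rfl⟩) | (⟨rfl, rfl, rfl, rfl⟩ | ⟨rfl, rfl, rfl, rfl⟩)) | 
      ((⟨rfl, rfl, rfl, rfl⟩ | ⟨rfl, rfl, rfl, rfl⟩) | ⟨rfl, rfl, rfl, rfl⟩)) | (((⟨rfl, rfl, rfl, rfl⟩ | ⟨rfl, rfl, rfl, rfl⟩) | (⟨rfl, rfl, rfl, rfl⟩ | 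
      ⟨rfl, rfl, rfl, rfl⟩)) | ((⟨rfl, rfl, rfl, rfl⟩ | ⟨rfl, rfl, rfl, rfl⟩) | ⟨rfl, rfl, rfl, rfl⟩))) | ((((⟨rfl, rfl, rfl, rfl⟩ | ⟨rfl, rfl, rfl, rfl⟩) | 
      (⟨rfl, rfl, rfl, rfl⟩ | ⟨rfl, rfl, rfl, rfl⟩)) | ((⟨rfl, rfl, rfl, rfl⟩ | ⟨rfl, rfl, rfl, rfl⟩) | ⟨rfl, rfl, rfl, rfl⟩)) | (((⟨rfl, rfl, rfl, rfl⟩ | 
      ⟨rfl, rfl, rfl, rfl⟩) | ⟨rfl, rfl, rfl, rfl⟩) | ((⟨rfl, rfl, rfl, rfl⟩ | ⟨rfl, rfl, rfl, rfl⟩) | ⟨rfl, rfl, rfl, rfl⟩))))) | ((((((⟨rfl, rfl, rfl, rfl⟩ | 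
      ⟨rfl, rfl, rfl, rfl⟩) | (⟨rfl, rfl, rfl, rfl⟩ | ⟨rfl, rfl, rfl, rfl⟩)) | ((⟨rfl, rfl, rfl, rfl⟩ | ⟨rfl, rfl, rfl, rfl⟩) | ⟨rfl, rfl, rfl, rfl⟩)) | 
      (((⟨rfl, rfl, rfl, rfl⟩ | ⟨rfl, rfl, rfl, rfl⟩) | (⟨rfl, rfl, rfl, rfl⟩ | ⟨rfl, rfl, rfl, rfl⟩)) | ((⟨rfl, rfl, rfl, rfl⟩ | ⟨rfl, rfl, rfl, rfl⟩) | 
      ⟨rfl, rfl, rfl, rfl⟩))) | ((((⟨rfl, rfl, rfl, rfl⟩ | ⟨rfl, rfl, rfl, rfl⟩) | (⟨rfl, rfl, rfl, rfl⟩ | ⟨rfl, rfl, rfl, rfl⟩)) | ((⟨rfl, rfl, rfl, rfl⟩ | 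
      ⟨rfl, rfl, rfl, rfl⟩) | ⟨rfl, rfl, rfl, rfl⟩)) | (((⟨rfl, rfl, rfl, rfl⟩ | ⟨rfl, rfl, rfl, rfl⟩) | ⟨rfl, rfl, rfl, rfl⟩) | ((⟨rfl, rfl, rfl, rfl⟩ | 
      ⟨rfl, rfl, rfl, rfl⟩) | ⟨rfl, rfl, rfl, rfl⟩)))) | (((((⟨rfl, rfl, rfl, rfl⟩ | ⟨rfl, rfl, rfl, rfl⟩) | (⟨rfl, rfl, rfl, rfl⟩ | ⟨rfl, rfl, rfl, rfl⟩)) | 
      ((⟨rfl, rfl, rfl, rfl⟩ | ⟨rfl, rfl, rfl, rfl⟩) | ⟨rfl, rfl, rfl, rfl⟩)) | (((⟨rfl, rfl, rfl, rfl⟩ | ⟨rfl, rfl, rfl, rfl⟩) | ⟨rfl, rfl, rfl, rfl⟩) | 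
      ((⟨rfl, rfl, rfl, rfl⟩ | ⟨rfl, rfl, rfl, rfl⟩) | ⟨rfl, rfl, rfl, rfl⟩))) | ((((⟨rfl, rfl, rfl, rfl⟩ | ⟨rfl, rfl, rfl, rfl⟩) | (⟨rfl, rfl, rfl, rfl⟩ | 
      ⟨rfl, rfl, rfl, rfl⟩)) | ((⟨rfl, rfl, rfl, rfl⟩ | ⟨rfl, rfl, rfl, rfl⟩) | ⟨rfl, rfl, rfl, rfl⟩)) | (((⟨rfl, rfl, rfl, rfl⟩ | ⟨rfl, rfl, rfl, rfl⟩) | 
      ⟨rfl, rfl, rfl, rfl⟩) | ((⟨rfl, rfl, rfl, rfl⟩ | ⟨rfl, rfl, rfl, rfl⟩) | ⟨rfl, rfl, rfl, rfl⟩)))))))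
    · obtain ⟨r1, r2, r3, r4, r5, r6, r7, r8⟩ := hr
      exact hlw _ _ _ _ (by omega) (by omega) (by omega) (by omega) (by omega) (by omega)
    · exact Z.rOut hf (t := 4) (p := 0) (j := 4) (by omega) (by omega) (by omega) (by omega) (by omega) (by omega) (by omega) (by omega)
    · exact Z.rOut hf (t := 4) (p := 0) (j := 4) (by omega) (by omega) (by omega) (by omega) (by omega) (by omega) (by omega) (by omega)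
    · exact Z.rOut hf (t := 4) (p := 0) (j := 4) (by omega) (by omega) (by omega) (by omega) (by omega) (by omega) (by omega) (by omega)
    · exact Z.rOut hf (t := 4) (p := 0) (j := 4) (by omega) (by omega) (by omega) (by omega) (by omega) (by omega) (by omega) (by omega)
    · exact Z.rOut hf (t := 4) (p := 0) (j := 4) (by omega) (by omega) (by omega) (by omega) (by omega) (by omega) (by omega) (by omega)
    · exact Z.rOut hf (t := 4) (p := 0) (j := 4) (by omega) (by omega) (by omega) (by omega) (by omega) (by omega) (by omega) (by omega)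
    · exact Z.rOut hf (t := 4) (p := 0) (j := 4) (by omega) (by omega) (by omega) (by omega) (by omega) (by omega) (by omega) (by omega)
    · exact Z.rOut hf (t := 4) (p := 0) (j := 4) (by omega) (by omega) (by omega) (by omega) (by omega) (by omega) (by omega) (by omega)
    · exact Z.rOut hf (t := 4) (p := 0) (j := 4) (by omega) (by omega) (by omega) (by omega) (by omega) (by omega) (by omega) (by omega)
    · exact Z.rOut hf (t := 4) (p := 0) (j := 4) (by omega) (by omega) (by omega) (by omega) (by omega) (by omega) (by omega) (by omega)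
    · exact Z.rOut hf (t := 4) (p := 0) (j := 4) (by omega) (by omega) (by omega) (by omega) (by omega) (by omega) (by omega) (by omega)
    · exact Z.rOut hf (t := 4) (p := 0) (j := 4) (by omega) (by omega) (by omega) (by omega) (by omega) (by omega) (by omega) (by omega)
    · exact Z.rOut hf (t := 4) (p := 0) (j := 4) (by omega) (by omega) (by omega) (by omega) (by omega) (by omega) (by omega) (by omega)
    · exact Z.rOut hf (t := 4) (p := 0) (j := 4) (by omega) (by omega) (by omega) (by omega) (by omega) (by omega) (by omega) (by omega)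
    · exact Z.rOut hf (t := 4) (p := 0) (j := 4) (by omega) (by omega) (by omega) (by omega) (by omega) (by omega) (by omega) (by omega)
    · exact Z.rOut hf (t := 4) (p := 0) (j := 4) (by omega) (by omega) (by omega) (by omega) (by omega) (by omega) (by omega) (by omega)
    · exact Z.rOut hf (t := 4) (p := 0) (j := 4) (by omega) (by omega) (by omega) (by omega) (by omega) (by omega) (by omega) (by omega)
    · exact Z.rOut hf (t := 4) (p := 0) (j := 4) (by omega) (by omega) (by omega) (by omega) (by omega) (by omega) (by omega) (by omega)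
    · exact Z.rOut hf (t := 4) (p := 0) (j := 4) (by omega) (by omega) (by omega) (by omega) (by omega) (by omega) (by omega) (by omega)
    · exact Z.rOut hf (t := 4) (p := 1) (j := 4) (by omega) (by omega) (by omega) (by omega) (by omega) (by omega) (by omega) (by omega)
    · exact Z.rOut hf (t := 4) (p := 1) (j := 4) (by omega) (by omega) (by omega) (by omega) (by omega) (by omega) (by omega) (by omega)
    · exact Z.rOut hf (t := 4) (p := 1) (j := 4) (by omega) (by omega) (by omega) (by omega) (by omega) (by omega) (by omega) (by omega)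
    · exact Z.rOut hf (t := 4) (p := 1) (j := 4) (by omega) (by omega) (by omega) (by omega) (by omega) (by omega) (by omega) (by omega)
    · exact Z.rOut hf (t := 4) (p := 1) (j := 4) (by omega) (by omega) (by omega) (by omega) (by omega) (by omega) (by omega) (by omega)
    · exact Z.rOut hf (t := 4) (p := 1) (j := 4) (by omega) (by omega) (by omega) (by omega) (by omega) (by omega) (by omega) (by omega)
    · exact Z.p2 hf (j := 4) (by omega) (by omega) (by omega) (by omega) (by omega) (by omega)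
    · exact Z.rOut hf (t := 4) (p := 1) (j := 4) (by omega) (by omega) (by omega) (by omega) (by omega) (by omega) (by omega) (by omega)
    · exact Z.rOut hf (t := 4) (p := 1) (j := 4) (by omega) (by omega) (by omega) (by omega) (by omega) (by omega) (by omega) (by omega)
    · exact Z.rOut hf (t := 4) (p := 1) (j := 4) (by omega) (by omega) (by omega) (by omega) (by omega) (by omega) (by omega) (by omega)
    · exact Z.p2 hf (j := 4) (by omega) (by omega) (by omega) (by omega) (by omega) (by omega)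
    · exact Z.rOut hf (t := 4) (p := 1) (j := 4) (by omega) (by omega) (by omega) (by omega) (by omega) (by omega) (by omega) (by omega)
    · exact Z.rOut hf (t := 4) (p := 1) (j := 4) (by omega) (by omega) (by omega) (by omega) (by omega) (by omega) (by omega) (by omega)
    · exact Z.rOut hf (t := 4) (p := 1) (j := 4) (by omega) (by omega) (by omega) (by omega) (by omega) (by omega) (by omega) (by omega)
    · exact Z.p2 hf (j := 4) (by omega) (by omega) (by omega) (by omega) (by omega) (by omega)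
    · exact Z.rOut hf (t := 4) (p := 1) (j := 4) (by omega) (by omega) (by omega) (by omega) (by omega) (by omega) (by omega) (by omega)
    · exact Z.rOut hf (t := 4) (p := 1) (j := 4) (by omega) (by omega) (by omega) (by omega) (by omega) (by omega) (by omega) (by omega)
    · exact Z.p2 hf (j := 4) (by omega) (by omega) (by omega) (by omega) (by omega) (by omega)
    · exact Z.rOut hf (t := 4) (p := 1) (j := 4) (by omega) (by omega) (by omega) (by omega) (by omega) (by omega) (by omega) (by omega)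
    · exact Z.p2 hf (j := 4) (by omega) (by omega) (by omega) (by omega) (by omega) (by omega)
    · exact Z.p2 hf (j := 4) (by omega) (by omega) (by omega) (by omega) (by omega) (by omega)
    · exact Z.p2 hf (j := 4) (by omega) (by omega) (by omega) (by omega) (by omega) (by omega)
    · exact Z.p2 hf (j := 4) (by omega) (by omega) (by omega) (by omega) (by omega) (by omega)
    · exact Z.p2 hf (j := 4) (by omega) (by omega) (by omega) (by omega) (by omega) (by omega)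
    · exact Z.p2 hf (j := 4) (by omega) (by omega) (by omega) (by omega) (by omega) (by omega)
    · exact fun t => absurd ((v3s y2_5 d2 (by omega) (by omega) (by omega) (by omega) (by omega) (by omega)).1 t) (by unfold V3; omega)
    · exact fun t => absurd ((v3s y2_5 d2 (by omega) (by omega) (by omega) (by omega) (by omega) (by omega)).1 t) (by unfold V3; omega)
    · exact fun t => absurd ((v3s y2_5 d2 (by omega) (by omega) (by omega) (by omega) (by omega) (by omega)).1 t) (by unfold V3; omega)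
    · exact fun t => absurd ((v3s y2_5 d2 (by omega) (by omega) (by omega) (by omega) (by omega) (by omega)).1 t) (by unfold V3; omega)
    · exact fun t => absurd ((v3s y2_5 d2 (by omega) (by omega) (by omega) (by omega) (by omega) (by omega)).1 t) (by unfold V3; omega)
    · exact fun t => absurd ((v3s y2_5 d2 (by omega) (by omega) (by omega) (by omega) (by omega) (by omega)).1 t) (by unfold V3; omega)
    · exact fun t => absurd ((v3s y2_5 d2 (by omega) (by omega) (by omega) (by omega) (by omega) (by omega)).1 t) (by unfold V3; omega)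
    · exact fun t => absurd ((v3s y2_5 d2 (by omega) (by omega) (by omega) (by omega) (by omega) (by omega)).1 t) (by unfold V3; omega)
    · exact fun t => absurd ((v3s y2_5 d2 (by omega) (by omega) (by omega) (by omega) (by omega) (by omega)).1 t) (by unfold V3; omega)
    · exact fun t => absurd ((v3s y2_5 d2 (by omega) (by omega) (by omega) (by omega) (by omega) (by omega)).1 t) (by unfold V3; omega)
    · exact fun t => absurd ((v3s y2_5 d2 (by omega) (by omega) (by omega) (by omega) (by omega) (by omega)).1 t) (by unfold V3; omega)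
    · exact Z.rOut hf (t := 4) (p := 0) (j := 3) (by omega) (by omega) (by omega) (by omega) (by omega) (by omega) (by omega) (by omega)
    · exact Z.rOut hf (t := 4) (p := 0) (j := 3) (by omega) (by omega) (by omega) (by omega) (by omega) (by omega) (by omega) (by omega)
    · exact Z.rOut hf (t := 4) (p := 0) (j := 3) (by omega) (by omega) (by omega) (by omega) (by omega) (by omega) (by omega) (by omega)
    · exact Z.rOut hf (t := 4) (p := 0) (j := 3) (by omega) (by omega) (by omega) (by omega) (by omega) (by omega) (by omega) (by omega)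
    · exact Z.rOut hf (t := 4) (p := 0) (j := 3) (by omega) (by omega) (by omega) (by omega) (by omega) (by omega) (by omega) (by omega)
    · exact Z.rOut hf (t := 4) (p := 0) (j := 3) (by omega) (by omega) (by omega) (by omega) (by omega) (by omega) (by omega) (by omega)
    · exact Z.rOut hf (t := 4) (p := 0) (j := 3) (by omega) (by omega) (by omega) (by omega) (by omega) (by omega) (by omega) (by omega)
    · exact Z.rOut hf (t := 4) (p := 0) (j := 3) (by omega) (by omega) (by omega) (by omega) (by omega) (by omega) (by omega) (by omega)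
    · exact Z.rOut hf (t := 4) (p := 0) (j := 3) (by omega) (by omega) (by omega) (by omega) (by omega) (by omega) (by omega) (by omega)
    · exact Z.rOut hf (t := 4) (p := 0) (j := 3) (by omega) (by omega) (by omega) (by omega) (by omega) (by omega) (by omega) (by omega)
    · exact Z.rOut hf (t := 4) (p := 0) (j := 3) (by omega) (by omega) (by omega) (by omega) (by omega) (by omega) (by omega) (by omega)
    · exact Z.rOut hf (t := 4) (p := 0) (j := 3) (by omega) (by omega) (by omega) (by omega) (by omega) (by omega) (by omega) (by omega)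
    · exact Z.rOut hf (t := 4) (p := 0) (j := 3) (by omega) (by omega) (by omega) (by omega) (by omega) (by omega) (by omega) (by omega)
    · exact Z.rOut hf (t := 4) (p := 0) (j := 3) (by omega) (by omega) (by omega) (by omega) (by omega) (by omega) (by omega) (by omega)
    · exact Z.rOut hf (t := 4) (p := 0) (j := 3) (by omega) (by omega) (by omega) (by omega) (by omega) (by omega) (by omega) (by omega)
    · exact Z.rOut hf (t := 4) (p := 0) (j := 3) (by omega) (by omega) (by omega) (by omega) (by omega) (by omega) (by omega) (by omega)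
    · exact Z.rOut hf (t := 4) (p := 0) (j := 3) (by omega) (by omega) (by omega) (by omega) (by omega) (by omega) (by omega) (by omega)
    · exact Z.rOut hf (t := 4) (p := 0) (j := 3) (by omega) (by omega) (by omega) (by omega) (by omega) (by omega) (by omega) (by omega)
    · exact Z.rOut hf (t := 4) (p := 0) (j := 3) (by omega) (by omega) (by omega) (by omega) (by omega) (by omega) (by omega) (by omega)
    · exact Z.rOut hf (t := 4) (p := 0) (j := 3) (by omega) (by omega) (by omega) (by omega) (by omega) (by omega) (by omega) (by omega)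
    · exact Z.rOut hf (t := 4) (p := 0) (j := 3) (by omega) (by omega) (by omega) (by omega) (by omega) (by omega) (by omega) (by omega)
    · exact Z.rOut hf (t := 4) (p := 0) (j := 3) (by omega) (by omega) (by omega) (by omega) (by omega) (by omega) (by omega) (by omega)
    · exact Z.rOut hf (t := 4) (p := 0) (j := 3) (by omega) (by omega) (by omega) (by omega) (by omega) (by omega) (by omega) (by omega)
    · exact Z.rOut hf (t := 4) (p := 0) (j := 3) (by omega) (by omega) (by omega) (by omega) (by omega) (by omega) (by omega) (by omega)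
    · exact Z.rOut hf (t := 4) (p := 0) (j := 3) (by omega) (by omega) (by omega) (by omega) (by omega) (by omega) (by omega) (by omega)
    · exact Z.rOut hf (t := 4) (p := 0) (j := 3) (by omega) (by omega) (by omega) (by omega) (by omega) (by omega) (by omega) (by omega)
    · exact fun t => hp2 _ (by omega) (by omega) (by omega) (mv t (by omega) (by omega) rfl (by omega))
    · exact fun t => hp2 _ (by omega) (by omega) (by omega) (mv t (by omega) (by omega) rfl (by omega))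
    · exact fun t => hp2 _ (by omega) (by omega) (by omega) (mv t (by omega) (by omega) rfl (by omega))
    · exact fun t => hp2 _ (by omega) (by omega) (by omega) (mv t (by omega) (by omega) rfl (by omega))
    · exact Z.p0 hf (j := 2) (by omega) (by omega) (by omega) (by omega) (by omega) (by omega)
    · exact Z.p0 hf (j := 2) (by omega) (by omega) (by omega) (by omega) (by omega) (by omega)
    · exact Z.p0 hf (j := 2) (by omega) (by omega) (by omega) (by omega) (by omega) (by omega)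
    · exact Z.p0 hf (j := 2) (by omega) (by omega) (by omega) (by omega) (by omega) (by omega)
    · exact Z.p0 hf (j := 2) (by omega) (by omega) (by omega) (by omega) (by omega) (by omega)
    · exact Z.p0 hf (j := 2) (by omega) (by omega) (by omega) (by omega) (by omega) (by omega)
    · exact Z.p0 hf (j := 2) (by omega) (by omega) (by omega) (by omega) (by omega) (by omega)
    · exact Z.p0 hf (j := 2) (by omega) (by omega) (by omega) (by omega) (by omega) (by omega)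
    · exact Z.rOut hf (t := 4) (p := 1) (j := 3) (by omega) (by omega) (by omega) (by omega) (by omega) (by omega) (by omega) (by omega)
    · exact Z.rOut hf (t := 4) (p := 1) (j := 3) (by omega) (by omega) (by omega) (by omega) (by omega) (by omega) (by omega) (by omega)
    · exact Z.p2 hf (j := 3) (by omega) (by omega) (by omega) (by omega) (by omega) (by omega)
    · exact Z.rOut hf (t := 4) (p := 1) (j := 3) (by omega) (by omega) (by omega) (by omega) (by omega) (by omega) (by omega) (by omega)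
    · exact Z.rOut hf (t := 4) (p := 1) (j := 3) (by omega) (by omega) (by omega) (by omega) (by omega) (by omega) (by omega) (by omega)
    · exact Z.p2 hf (j := 3) (by omega) (by omega) (by omega) (by omega) (by omega) (by omega)
    · exact Z.rOut hf (t := 4) (p := 1) (j := 3) (by omega) (by omega) (by omega) (by omega) (by omega) (by omega) (by omega) (by omega)
    · exact Z.rOut hf (t := 4) (p := 1) (j := 3) (by omega) (by omega) (by omega) (by omega) (by omega) (by omega) (by omega) (by omega)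
    · exact Z.p2 hf (j := 3) (by omega) (by omega) (by omega) (by omega) (by omega) (by omega)
    · exact Z.rOut hf (t := 4) (p := 1) (j := 3) (by omega) (by omega) (by omega) (by omega) (by omega) (by omega) (by omega) (by omega)
    · exact Z.rOut hf (t := 4) (p := 1) (j := 3) (by omega) (by omega) (by omega) (by omega) (by omega) (by omega) (by omega) (by omega)
    · exact Z.p2 hf (j := 3) (by omega) (by omega) (by omega) (by omega) (by omega) (by omega)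
    · exact Z.rOut hf (t := 4) (p := 1) (j := 3) (by omega) (by omega) (by omega) (by omega) (by omega) (by omega) (by omega) (by omega)
    · exact Z.rOut hf (t := 4) (p := 1) (j := 3) (by omega) (by omega) (by omega) (by omega) (by omega) (by omega) (by omega) (by omega)
    · exact Z.p2 hf (j := 3) (by omega) (by omega) (by omega) (by omega) (by omega) (by omega)
    · exact Z.rOut hf (t := 4) (p := 1) (j := 3) (by omega) (by omega) (by omega) (by omega) (by omega) (by omega) (by omega) (by omega)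
    · exact Z.p2 hf (j := 3) (by omega) (by omega) (by omega) (by omega) (by omega) (by omega)
    · exact Z.p2 hf (j := 3) (by omega) (by omega) (by omega) (by omega) (by omega) (by omega)
    · exact Z.p2 hf (j := 3) (by omega) (by omega) (by omega) (by omega) (by omega) (by omega)
    · exact Z.p2 hf (j := 3) (by omega) (by omega) (by omega) (by omega) (by omega) (by omega)
    · exact Z.p2 hf (j := 3) (by omega) (by omega) (by omega) (by omega) (by omega) (by omega)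
    · exact Z.p2 hf (j := 3) (by omega) (by omega) (by omega) (by omega) (by omega) (by omega)
    · exact Z.p2 hf (j := 3) (by omega) (by omega) (by omega) (by omega) (by omega) (by omega)
    · exact fun t => absurd ((v1 y4_3 (S.l4 5) (by omega) (by omega) (by omega) (by omega) (by omega)).1 t) (by unfold V1; omega)
    · exact fun t => absurd ((v1 y4_3 (S.l4 5) (by omega) (by omega) (by omega) (by omega) (by omega)).1 t) (by unfold V1; omega)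
    · exact fun t => absurd ((v1 y4_3 (S.l4 5) (by omega) (by omega) (by omega) (by omega) (by omega)).1 t) (by unfold V1; omega)
    · exact fun t => absurd ((v1 y4_3 (S.l4 5) (by omega) (by omega) (by omega) (by omega) (by omega)).1 t) (by unfold V1; omega)
    · exact fun t => absurd ((v1 y4_3 (S.l4 5) (by omega) (by omega) (by omega) (by omega) (by omega)).1 t) (by unfold V1; omega)
    · exact fun t => absurd ((v1 y4_3 (S.l4 5) (by omega) (by omega) (by omega) (by omega) (by omega)).1 t) (by unfold V1; omega)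
    · exact fun t => absurd ((v1 y4_3 (S.l4 5) (by omega) (by omega) (by omega) (by omega) (by omega)).1 t) (by unfold V1; omega)
    · exact fun t => absurd ((v1 y4_3 (S.l4 5) (by omega) (by omega) (by omega) (by omega) (by omega)).1 t) (by unfold V1; omega)
    · exact fun t => absurd ((v1 y4_3 (S.l4 5) (by omega) (by omega) (by omega) (by omega) (by omega)).1 t) (by unfold V1; omega)
    · exact fun t => absurd ((v1 y4_3 (S.l4 5) (by omega) (by omega) (by omega) (by omega) (by omega)).1 t) (by unfold V1; omega)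
    · exact fun t => absurd ((v1 y4_3 (S.l4 5) (by omega) (by omega) (by omega) (by omega) (by omega)).1 t) (by unfold V1; omega)
    · exact fun t => absurd ((v1 y4_3 (S.l4 5) (by omega) (by omega) (by omega) (by omega) (by omega)).1 t) (by unfold V1; omega)
    · exact fun t => absurd ((v2x y4_3 (S.l4 5) (by omega) (by omega) (by omega) (by omega) (by omega) (by omega)).1 t) (by unfold V2; omega)
    · exact fun t => absurd ((v2x y4_3 (S.l4 5) (by omega) (by omega) (by omega) (by omega) (by omega) (by omega)).1 t) (by unfold V2; omega)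
    · exact Z.rOut hf (t := 4) (p := 0) (j := 2) (by omega) (by omega) (by omega) (by omega) (by omega) (by omega) (by omega) (by omega)
    · exact Z.rOut hf (t := 4) (p := 0) (j := 2) (by omega) (by omega) (by omega) (by omega) (by omega) (by omega) (by omega) (by omega)
    · exact Z.rOut hf (t := 4) (p := 0) (j := 2) (by omega) (by omega) (by omega) (by omega) (by omega) (by omega) (by omega) (by omega)
    · exact Z.rOut hf (t := 4) (p := 0) (j := 2) (by omega) (by omega) (by omega) (by omega) (by omega) (by omega) (by omega) (by omega)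
    · exact Z.rOut hf (t := 4) (p := 0) (j := 2) (by omega) (by omega) (by omega) (by omega) (by omega) (by omega) (by omega) (by omega)
    · exact Z.rOut hf (t := 4) (p := 0) (j := 2) (by omega) (by omega) (by omega) (by omega) (by omega) (by omega) (by omega) (by omega)
    · exact Z.rOut hf (t := 4) (p := 0) (j := 2) (by omega) (by omega) (by omega) (by omega) (by omega) (by omega) (by omega) (by omega)
    · exact Z.rOut hf (t := 4) (p := 0) (j := 2) (by omega) (by omega) (by omega) (by omega) (by omega) (by omega) (by omega) (by omega)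
    · exact Z.rOut hf (t := 4) (p := 0) (j := 2) (by omega) (by omega) (by omega) (by omega) (by omega) (by omega) (by omega) (by omega)
    · exact Z.rOut hf (t := 4) (p := 0) (j := 2) (by omega) (by omega) (by omega) (by omega) (by omega) (by omega) (by omega) (by omega)
    · exact Z.rOut hf (t := 4) (p := 0) (j := 2) (by omega) (by omega) (by omega) (by omega) (by omega) (by omega) (by omega) (by omega)
    · exact Z.rOut hf (t := 4) (p := 0) (j := 2) (by omega) (by omega) (by omega) (by omega) (by omega) (by omega) (by omega) (by omega)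
    · exact Z.rOut hf (t := 4) (p := 0) (j := 2) (by omega) (by omega) (by omega) (by omega) (by omega) (by omega) (by omega) (by omega)
    · exact Z.rOut hf (t := 4) (p := 0) (j := 2) (by omega) (by omega) (by omega) (by omega) (by omega) (by omega) (by omega) (by omega)
    · exact Z.rOut hf (t := 4) (p := 0) (j := 2) (by omega) (by omega) (by omega) (by omega) (by omega) (by omega) (by omega) (by omega)
    · exact Z.rOut hf (t := 4) (p := 0) (j := 2) (by omega) (by omega) (by omega) (by omega) (by omega) (by omega) (by omega) (by omega)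
    · exact Z.rOut hf (t := 4) (p := 0) (j := 2) (by omega) (by omega) (by omega) (by omega) (by omega) (by omega) (by omega) (by omega)
    · exact Z.rOut hf (t := 4) (p := 0) (j := 2) (by omega) (by omega) (by omega) (by omega) (by omega) (by omega) (by omega) (by omega)
    · exact Z.rOut hf (t := 4) (p := 0) (j := 2) (by omega) (by omega) (by omega) (by omega) (by omega) (by omega) (by omega) (by omega)
    · exact fun t => g2 (mv t (by omega) (by omega) (by omega) (by omega))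
    · exact fun t => g3 (mv t (by omega) (by omega) (by omega) (by omega))
    · exact Z.p0 hf (j := 1) (by omega) (by omega) (by omega) (by omega) (by omega) (by omega)
    · exact Z.p0 hf (j := 1) (by omega) (by omega) (by omega) (by omega) (by omega) (by omega)
    · exact U.p0 hf (j := 1) (by omega) (by omega) (by omega) (by omega) (by omega) (by omega)
    · exact Z.p0 hf (j := 1) (by omega) (by omega) (by omega) (by omega) (by omega) (by omega)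
    · exact Z.p0 hf (j := 1) (by omega) (by omega) (by omega) (by omega) (by omega) (by omega)
    · exact U.p0 hf (j := 1) (by omega) (by omega) (by omega) (by omega) (by omega) (by omega)
    · exact U.p0 hf (j := 1) (by omega) (by omega) (by omega) (by omega) (by omega) (by omega)
    · exact Z.p0 hf (j := 1) (by omega) (by omega) (by omega) (by omega) (by omega) (by omega)
    · exact U.p0 hf (j := 1) (by omega) (by omega) (by omega) (by omega) (by omega) (by omega)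
    · exact U.p0 hf (j := 1) (by omega) (by omega) (by omega) (by omega) (by omega) (by omega)
    · exact U.p0 hf (j := 1) (by omega) (by omega) (by omega) (by omega) (by omega) (by omega)
    · exact Z.p0 hf (j := 1) (by omega) (by omega) (by omega) (by omega) (by omega) (by omega)
    · exact Z.p0 hf (j := 1) (by omega) (by omega) (by omega) (by omega) (by omega) (by omega)
    · exact U.p0 hf (j := 1) (by omega) (by omega) (by omega) (by omega) (by omega) (by omega)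
    · exact Z.p0 hf (j := 1) (by omega) (by omega) (by omega) (by omega) (by omega) (by omega)
    · exact Z.p0 hf (j := 1) (by omega) (by omega) (by omega) (by omega) (by omega) (by omega)
    · exact U.p0 hf (j := 1) (by omega) (by omega) (by omega) (by omega) (by omega) (by omega)
    · exact U.p0 hf (j := 1) (by omega) (by omega) (by omega) (by omega) (by omega) (by omega)
    · exact Z.p0 hf (j := 1) (by omega) (by omega) (by omega) (by omega) (by omega) (by omega)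
    · exact U.p0 hf (j := 1) (by omega) (by omega) (by omega) (by omega) (by omega) (by omega)
    · exact U.p0 hf (j := 1) (by omega) (by omega) (by omega) (by omega) (by omega) (by omega)
    · exact U.p0 hf (j := 1) (by omega) (by omega) (by omega) (by omega) (by omega) (by omega)
    · exact Z.rOut hf (t := 4) (p := 1) (j := 2) (by omega) (by omega) (by omega) (by omega) (by omega) (by omega) (by omega) (by omega)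
    · exact Z.p2 hf (j := 2) (by omega) (by omega) (by omega) (by omega) (by omega) (by omega)
    · exact Z.rOut hf (t := 4) (p := 1) (j := 2) (by omega) (by omega) (by omega) (by omega) (by omega) (by omega) (by omega) (by omega)
    · exact Z.p2 hf (j := 2) (by omega) (by omega) (by omega) (by omega) (by omega) (by omega)
    · exact Z.rOut hf (t := 4) (p := 1) (j := 2) (by omega) (by omega) (by omega) (by omega) (by omega) (by omega) (by omega) (by omega)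
    · exact Z.p2 hf (j := 2) (by omega) (by omega) (by omega) (by omega) (by omega) (by omega)
    · exact Z.rOut hf (t := 4) (p := 1) (j := 2) (by omega) (by omega) (by omega) (by omega) (by omega) (by omega) (by omega) (by omega)
    · exact Z.p2 hf (j := 2) (by omega) (by omega) (by omega) (by omega) (by omega) (by omega)
    · exact Z.rOut hf (t := 4) (p := 1) (j := 2) (by omega) (by omega) (by omega) (by omega) (by omega) (by omega) (by omega) (by omega)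
    · exact Z.p2 hf (j := 2) (by omega) (by omega) (by omega) (by omega) (by omega) (by omega)
    · exact Z.p2 hf (j := 2) (by omega) (by omega) (by omega) (by omega) (by omega) (by omega)
    · exact U.p2 hf (j := 2) (by omega) (by omega) (by omega) (by omega) (by omega) (by omega)
    · exact U.p2 hf (j := 2) (by omega) (by omega) (by omega) (by omega) (by omega) (by omega)
    · exact Z.p2 hf (j := 2) (by omega) (by omega) (by omega) (by omega) (by omega) (by omega)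
    · exact Z.p2 hf (j := 2) (by omega) (by omega) (by omega) (by omega) (by omega) (by omega)
    · exact Z.p2 hf (j := 2) (by omega) (by omega) (by omega) (by omega) (by omega) (by omega)
    · exact Z.p2 hf (j := 2) (by omega) (by omega) (by omega) (by omega) (by omega) (by omega)
    · exact Z.p2 hf (j := 2) (by omega) (by omega) (by omega) (by omega) (by omega) (by omega)
    · exact Z.p2 hf (j := 2) (by omega) (by omega) (by omega) (by omega) (by omega) (by omega)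
    · exact U.p2 hf (j := 2) (by omega) (by omega) (by omega) (by omega) (by omega) (by omega)
    · exact U.p2 hf (j := 2) (by omega) (by omega) (by omega) (by omega) (by omega) (by omega)
    · exact fun t => absurd ((v1 y6_3 (S.l6 5) (by omega) (by omega) (by omega) (by omega) (by omega)).1 t) (by unfold V1; omega)
    · exact fun t => absurd ((v1 y6_3 (S.l6 5) (by omega) (by omega) (by omega) (by omega) (by omega)).1 t) (by unfold V1; omega)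
    · exact fun t => absurd ((v1 y6_3 (S.l6 5) (by omega) (by omega) (by omega) (by omega) (by omega)).1 t) (by unfold V1; omega)
    · exact fun t => absurd ((v1 y6_3 (S.l6 5) (by omega) (by omega) (by omega) (by omega) (by omega)).1 t) (by unfold V1; omega)
    · exact fun t => absurd ((v1 y6_3 (S.l6 5) (by omega) (by omega) (by omega) (by omega) (by omega)).1 t) (by unfold V1; omega)
    · exact fun t => absurd ((v1 y6_3 (S.l6 5) (by omega) (by omega) (by omega) (by omega) (by omega)).1 t) (by unfold V1; omega)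
    · exact fun t => absurd ((v1 y6_3 (S.l6 5) (by omega) (by omega) (by omega) (by omega) (by omega)).1 t) (by unfold V1; omega)
    · exact fun t => absurd ((v1 y6_3 (S.l6 5) (by omega) (by omega) (by omega) (by omega) (by omega)).1 t) (by unfold V1; omega)
    · exact fun t => absurd ((v1 y6_3 (S.l6 5) (by omega) (by omega) (by omega) (by omega) (by omega)).1 t) (by unfold V1; omega)
    · exact Z.rOut hf (t := 4) (p := 1) (j := 1) (by omega) (by omega) (by omega) (by omega) (by omega) (by omega) (by omega) (by omega)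
    · exact Z.p2 hf (j := 1) (by omega) (by omega) (by omega) (by omega) (by omega) (by omega)
    · exact U.r1 hf (p := 1) (j := 1) (by omega) (by omega) (by omega) (by omega) (by omega) (by omega)
    · exact U.r1 hf (p := 1) (j := 1) (by omega) (by omega) (by omega) (by omega) (by omega) (by omega)
    · exact Z.p2 hf (j := 1) (by omega) (by omega) (by omega) (by omega) (by omega) (by omega)
    · exact U.r1 hf (p := 1) (j := 1) (by omega) (by omega) (by omega) (by omega) (by omega) (by omega)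
    · exact U.p2 hf (j := 1) (by omega) (by omega) (by omega) (by omega) (by omega) (by omega)
    · exact Z.p2 hf (j := 1) (by omega) (by omega) (by omega) (by omega) (by omega) (by omega)
    · exact Z.p2 hf (j := 1) (by omega) (by omega) (by omega) (by omega) (by omega) (by omega)
    · exact U.p2 hf (j := 1) (by omega) (by omega) (by omega) (by omega) (by omega) (by omega)

end Pool.Agent.SNT.O2W
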