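import Pool.Agent.SNT.K0D

set_option autoImplicit false

/-! The pair of adjacent in-lines of `6 k + 2` in the row `c`, leads `n - 5`, `n - 2`, `n + 1` (helper33). -/

namespace Pool.Agent.SNT.K0D

open Pool.Agent.SNT Pool.Agent.SNT.Loc Pool.Agent.SNT.LW Pool.Agent.SNT.NHZ

variable {f : ℕ → ℕ → ℕ → ℕ → Prop} {k c n : ℕ}

def k2wT (j n p q : ℕ) : Bool :=
  ((((decide (j = 2 ∧ n = 1 ∧ q ≤ p + 14 ∧ ((p + 7 > 0) ∨ (p ≤ q ∧ p + 8 > 0)) ∧ (q ≤ p ∧ (p + q) % 4 = 0))) ||
    (decide (j = 2 ∧ n = 2 ∧ q ≤ p + 14 ∧ q ≤ p ∧ p + 5 > 0 ∧ (((p + q) % 2 = 1 ∧ p < q ∧ (p + 1) % 2 = 0) ∨ (q ≤ p + 1 ∧ (p + q + 1) % 4 = 0))))) ||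
    (decide (j = 4 ∧ n = 2 ∧ q ≤ p + 14 ∧ p + 3 > 0 ∧ (((p + q) % 2 = 1 ∧ p < q ∧ (p + 1) % 2 = 1) ∨ (q ≤ p + 1 ∧ (p + q + 3) % 4 = 0))))) ||
    ((decide (j = 4 ∧ n = 3 ∧ q ≤ p + 14 ∧ ((p + 1 > 0) ∨ (p ≤ q ∧ p + 2 > 0)) ∧ (q ≤ p ∧ (p + q) % 4 = 0))) ||
    (decide (j = 4 ∧ n = 4 ∧ q ≤ p + 14 ∧ q ≤ p ∧ p > 1 ∧ (((p + q) % 2 = 1 ∧ p < q ∧ (p + 1) % 2 = 0) ∨ (q ≤ p + 1 ∧ (p + q + 1) % 4 = 0)))))) ||
    ((((decide (j = 6 ∧ n = 1 ∧ q ≤ p + 14 ∧ ((p + 11 > 0) ∨ (p ≤ q ∧ p + 12 > 0)) ∧ (q ≤ p ∧ (p + q) % 4 = 0))) ||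
    (decide (j = 6 ∧ n = 2 ∧ q ≤ p + 14 ∧ q ≤ p ∧ p + 9 > 0 ∧ (((p + q) % 2 = 1 ∧ p < q ∧ (p + 1) % 2 = 0) ∨ (q ≤ p + 1 ∧ (p + q + 1) % 4 = 0))))) ||
    (decide (j = 6 ∧ n = 4 ∧ q ≤ p + 14 ∧ p > 3 ∧ (((p + q) % 2 = 1 ∧ p < q ∧ (p + 1) % 2 = 1) ∨ (q ≤ p + 1 ∧ (p + q + 3) % 4 = 0))))) ||
    ((decide (j = 6 ∧ n = 5 ∧ q ≤ p + 14 ∧ ((p > 5) ∨ (p ≤ q ∧ p > 4)) ∧ (q ≤ p ∧ (p + q) % 4 = 0))) ||
    (decide (j = 8 ∧ n = 3 ∧ q ≤ p + 14 ∧ ((p + 7 > 0) ∨ (p ≤ q + 2 ∧ p + 8 > 0)) ∧ (q + 2 ≤ p ∧ (p + q) % 4 = 2)))))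

def k2wF (j n p q : ℕ) : Bool :=
  ((((((decide (j = 2 ∧ n = 1 ∧ q ≤ p + 14 ∧ ((p + 7 > 0) ∨ (p ≤ q ∧ p + 8 > 0)) ∧ ¬ (q ≤ p ∧ (p + q) % 4 = 0))) ||
    (decide (j = 2 ∧ n = 2 ∧ q ≤ p + 14 ∧ q ≤ p ∧ p + 5 > 0 ∧ ¬ (((p + q) % 2 = 1 ∧ p < q ∧ (p + 1) % 2 = 0) ∨ (q ≤ p + 1 ∧ (p + q + 1) % 4 = 0))))) ||
    (decide (j = 4 ∧ n = 3 ∧ q ≤ p + 14 ∧ ((p + 1 > 0) ∨ (p ≤ q ∧ p + 2 > 0)) ∧ ¬ (q ≤ p ∧ (p + q) % 4 = 0)))) ||
    ((decide (j = 4 ∧ n = 4 ∧ q ≤ p + 14 ∧ q ≤ p ∧ p > 1 ∧ ¬ (((p + q) % 2 = 1 ∧ p < q ∧ (p + 1) % 2 = 0) ∨ (q ≤ p + 1 ∧ (p + q + 1) % 4 = 0)))) ||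
    (decide (j = 6 ∧ n = 1 ∧ q ≤ p + 14 ∧ ((p + 11 > 0) ∨ (p ≤ q ∧ p + 12 > 0)) ∧ ¬ (q ≤ p ∧ (p + q) % 4 = 0))))) ||
    ((((decide (j = 6 ∧ n = 2 ∧ q ≤ p + 14 ∧ q ≤ p ∧ p + 9 > 0 ∧ ¬ (((p + q) % 2 = 1 ∧ p < q ∧ (p + 1) % 2 = 0) ∨ (q ≤ p + 1 ∧ (p + q + 1) % 4 = 0)))) ||
    (decide (j = 6 ∧ n = 4 ∧ q ≤ p + 14 ∧ p > 3 ∧ ¬ (((p + q) % 2 = 1 ∧ p < q ∧ (p + 1) % 2 = 1) ∨ (q ≤ p + 1 ∧ (p + q + 3) % 4 = 0))))) ||
    (decide (j = 6 ∧ n = 5 ∧ q ≤ p + 14 ∧ ((p > 5) ∨ (p ≤ q ∧ p > 4)) ∧ ¬ (q ≤ p ∧ (p + q) % 4 = 0)))) ||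
    ((decide (j = 8 ∧ n = 3 ∧ q ≤ p + 14 ∧ ((p + 7 > 0) ∨ (p ≤ q + 2 ∧ p + 8 > 0)) ∧ ¬ (q + 2 ≤ p ∧ (p + q) % 4 = 2))) ||
    (decide (j = 2 ∧ n = 3 ∧ p + 5 ≤ q ∧ q ≤ p + 12))))) ||
    (((((decide (j = 2 ∧ n = 5 ∧ p + 6 ≤ q ∧ q ≤ p + 11)) ||
    (decide (j = 3 ∧ n = 3 ∧ p + 5 ≤ q ∧ q ≤ p + 12))) ||
    (decide (j = 3 ∧ n = 4 ∧ p + 5 ≤ q ∧ q ≤ p + 12))) ||
    ((decide (j = 3 ∧ n = 5 ∧ p + 6 ≤ q ∧ q ≤ p + 11)) ||
    (decide (j = 3 ∧ n = 6 ∧ p + 6 ≤ q ∧ q ≤ p + 11)))) ||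
    ((((decide (j = 4 ∧ n = 5 ∧ p + 5 ≤ q ∧ q ≤ p + 12)) ||
    (decide (j = 5 ∧ n = 3 ∧ p + 4 ≤ q ∧ q ≤ p + 13))) ||
    (decide (j = 5 ∧ n = 4 ∧ p + 4 ≤ q ∧ q ≤ p + 13))) ||
    ((decide (j = 5 ∧ n = 5 ∧ p + 5 ≤ q ∧ q ≤ p + 12)) ||
    (decide (j = 5 ∧ n = 6 ∧ p + 5 ≤ q ∧ q ≤ p + 12)))))) ||
    ((((((decide (j = 6 ∧ n = 3 ∧ p + 3 ≤ q ∧ q ≤ p + 14)) ||
    (decide (j = 6 ∧ n = 5 ∧ p + 4 ≤ q ∧ q ≤ p + 13))) ||
    (decide (j = 7 ∧ n = 1 ∧ p ≤ q ∧ q ≤ p + 15))) ||
    ((decide (j = 7 ∧ n = 2 ∧ p ≤ q ∧ q ≤ p + 15)) ||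
    (decide (j = 7 ∧ n = 3 ∧ p + 1 ≤ q ∧ q ≤ p + 14)))) ||
    ((((decide (j = 7 ∧ n = 4 ∧ p + 1 ≤ q ∧ q ≤ p + 14)) ||
    (decide (j = 7 ∧ n = 5 ∧ p + 4 ≤ q ∧ q ≤ p + 13))) ||
    (decide (j = 7 ∧ n = 5 ∧ p ≥ 3 ∧ p + 2 ≤ q ∧ q ≤ p + 13))) ||
    ((decide (j = 7 ∧ n = 6 ∧ p + 4 ≤ q ∧ q ≤ p + 13)) ||
    (decide (j = 7 ∧ n = 6 ∧ p ≥ 3 ∧ p + 2 ≤ q ∧ q ≤ p + 13))))) ||
    (((((decide (j = 8 ∧ n = 5 ∧ p + 3 ≤ q ∧ q ≤ p + 14)) ||
    (decide (j = 9 ∧ n = 3 ∧ p ≤ q ∧ q ≤ p + 15))) ||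
    (decide (j = 9 ∧ n = 4 ∧ p ≤ q ∧ q ≤ p + 15))) ||
    ((decide (j = 9 ∧ n = 5 ∧ p + 3 ≤ q ∧ q ≤ p + 14)) ||
    (decide (j = 9 ∧ n = 5 ∧ p ≥ 3 ∧ p + 1 ≤ q ∧ q ≤ p + 14)))) ||
    ((((decide (j = 9 ∧ n = 6 ∧ p + 3 ≤ q ∧ q ≤ p + 14)) ||
    (decide (j = 9 ∧ n = 6 ∧ p ≥ 3 ∧ p + 1 ≤ q ∧ q ≤ p + 14))) ||
    (decide (j = 1 ∧ q ≤ p + 14))) ||
    ((decide (j = 4 ∧ n = 6 ∧ p = 2 ∧ q = 7)) ||
    (decide (j = 4 ∧ n = 6 ∧ p = 4 ∧ q = 9))))))

theorem k2w_chk : check 9 8 8 12 0 0 1 1 0 k2wT k2wF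
    1147
    0xeb5030bae800bb51a08ae8008b4920d3b850d35000ec1d20ebb520bba800bbb0a08b48008b4840bbc0308b58008b581072e80072e8406fd80070392073a00073a8a070383073400073404073b00073b8a07108308c10008c18a0a42000bc85207108308c10008c18a0a48000a48040735000735040bc80308c18008c181073500073b9a073a80073a840bc90308c28008c281073b80073b8407108307410007410404340305b40005b4040bc90308c28008c281073b80073b8105b48005b48404350305b50005b504073c8305b58005b58404360305b60005b604043a0305ba0005ba04043a8305ba8005ba84043b0305bb0005bb04043b8305bb8005bb84043c0305bc0005bc04043c8305bc8005bc840e54830d04800d04840cda030d0a800d0a840cdb030d0b000d0b040ce1030d11000d11040ce1030d11800d11840eb5030b7e800b7e8409ce8309fe8009fe8409ce830a04800a048409ff030a05000a05040d2f850d29000eb5d20eaf520bae800baf0a09ce0009ce8a09cf0009cf8a0d2f850d29000eb5d20eaf520bae800baf0a09ce8009cf0a09cf8009cf84087880087884084e03087e00087e0406ce83087e80087e840bb583087f00087f040883830884000884040704830884800884840bb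b83088500088504070583088580088584070b03088b00088b040bc203088b80088b8406dc03088c00088c0406e10308918008918406e20308920008920406e20308928008928406ce8306fe8006fe8406cf0306ff0006ff0407038307040007040406d40307048007048406d50307050007050408558307058007058406db03070b00070b0406db03070b80070b8406dc03070c00070c0407108307110007110406e10307118007118406e20307120007120406e20307128007128403fd03057d00057d0403fd83057d80057d8403fe03057e00057e0403fe83057e80057e8403ff03057f00057f0403ff83057f80057f8405530305830005830404038305838005838404040305840005840404048305848005848403cf0305850005850403cf8305858005858403d603058600058604040a03058a00058a04040a83058a80058a84040b03058b00058b04040b83058b80058b8403dc03058c00058c0403dc83058c80058c8405600305900005900404108305908005908403ce8303fe8003fe8403cf0303ff0003ff0403cf8303ff8003ff8403d30304030004030403ce8304048004048403cf0304050004050403cf8304058004058403d60304060004060403db83040b80040b8403dc03040c00040c0403dc83040c80040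c8403e0030410000410040cda030cda800cda840b548309c80009c8040b558309c90009c9040b4e830848000848040b5483084e00084e0406ce83084e80084e8406db0306db8006db84084e0309ce000b54da09cf000b55da084e8309ce800b4f4a09cf8009cf840548000548040b5503084e80084f0a05488005488403cd03054d00054d0403cd83054d80054d8403ce03054e00054e0403ce83054e80054e8403cf03054f00054f0403d403055400055404085b03055480055484085b03055500055504054f8305558005558403da03055a00055a0403da83055a80055a8403db03055b00055b0403db83055b80055b8403dc03055c00055c0403db0305610005610408680305618005618403e20305620005620403d40305540005548a06d500085b5203d40305540005548a06db0006db0403c80003c804085c0305558005558103ce8003d51a03c90003c90403a38303d40003d40403e10305610005618a06e20008685203e10305610005618a06e80006e80403d50003d50403b08303e10003e1040b4e030817800817840b4e83081800081804084e0309ce000b54da09cf000b55da084e8309ce800b4f4a09cf8009cf840518000518040b5503084e80084f0a051880051884039d83051d80051d84039e03051e00051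e04036e03051e80051e84036f03051f00051f0403740305248005248403750305250005250403750305258005258403aa83052a80052a8403ab03052b00052b04086203052b80052b84037c03052c00052c04038103053180053184038203053200053204085b0305548005548103a38003a381085b03055480055481039d80039d84036e00036e01039800039804086803056180056181037b00038112086803056180056181037500037b1203810003810403aa8003aa8103d500036e0003d501036e01039880039884036e03039e00039e04036e03039e80039e84036f03039f00039f0403a38303a40003a40403740303a48003a48403750303a50003a50403750303a58003a584037b0303ab0003ab04037b0303ab8003ab84037c0303ac0003ac0403b08303b10003b10403810303b18003b18403820303b20003b204036e03036e80036e84037b03037b80037b840968000aee5209b08009a38009740009e73a09da3a0ca9000b2afa0a170009e88009e78009db8009da80098680097980094a00093d0006e68006d98006cc8006b70006aa00069d00068780068000067b80067a80067300066e80066d80037980036c80034a00033d000ec1870ec1070ebb870ebb070eba870eb5870eb5070eb4870eaf870eaf070ea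e870ea9070ea8870e91870e91070e8b870e8b070e8a870e85870e85070e84870e7f870e7f070e7e870e79070e78870e54870e54070e4e870e4e070e24870e24070e1e870e1e070d41870d35870d34870d28870d0b870d05870d05070cff870cff070cfe870cf9070cf8870ce0870cd4870cd3870cb1070cb0870cab070caa870caa070ca9870ca90f0ca5070ca4870ca4070ca3870c9e870c9e070bc9070bc8870bc8070bc3070bc2870bc2070bc1870bbc070bbb870bbb070bb6070bb5870bb5070bb4870baf870baf070ba9070ba8870b99070b98870b98070b93070b92870b92070b91870b8c070b8b870b8b070b86070b85870b85070b84870b7f870b7f070b79070b78870b61070b5b070b5a870b55870b55070b54870b54070b4f870b4f070b4e870b4e070b4d870b49070b48870b48070b47870b31070b2b070b2a870b25870b25070b24870b24070b1f870b1f070b1e870b1e070b1d870b19070b18870b18070b17870afa870afa070af4870af4070aee070aed870ae8070ae7870abe070abd870ab8070ab7870a42870a41870a35870a34870a28870a19070a18870a18070a17870a170f0a13070a12870a12070a11870a0c070a06070a058709ff8709ff0709f90709f88709e88f09e78f09e70709e68709e10709e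08709db8f09da8f09da0709d98709d58709d48709d38709c98709c88709c78709a58709a507099f87099f07099e8709998709990709988709980709868f097a0709798f097487096787094a0f093e07093d87093d0f09380709378708bc8708af87088c87087f87087907085c07085607085587084f87084f07084987084907084887082c07082607082587081f87081f07081987081907081887074287074187073c87073687073587073487072f87070c8707068707060706ff8706e68f06e18706e08706e00706da0706d98f06d58706d48706d38706d30706cd0706cc8f06c88706c78706b80706b78706b70f06b20706b18706b10706b08706ac0706ab8706ab0706aa8706aa0f06a60706a58706a50706a48706a40706a387069f87069f07069e87069e07069d87069d0f06990706988706980706978706878f06800f067b8f067a8f06730f066e8f066d8f05b687058687055607054f87054987054907052607051f8705198705190704368704358704348704338704068704000703f98703e18703e08703df8703d68703d58703d48703d38703d28703c98703c88703c78703c68703ac8703a68703a60703a007039f87039987039907038187038087038007037a0703798f037587037487037387037307036d07036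c8f036887036787035207035187035107035087034c07034b87034b07034a87034a0f034607034587034507034487034407034387033f07033e87033e07033d87033d0f03390703388703380703378702bc8702bc0702bb8702bb0702ba8702ba0702b98702b68702b60702b58702b50702b48702b40702b38702b00702af8702af0702ae8702ae0702ad87029087029007028c87028c07028b87028b07028a87028a07028987028687028607028587028507028487028407028387028307028007027f87027f07027e87027e07027d87027d07027c87027987027907027887027807027787027707027687026207026187026107026087026007025f87025c87025c07025b87025b07025a87025a07025987025687025607025587025507025487025407025387025307025287025007024f87024f07024e87024e07024d87024d07024c87024987024907024887024807024787024707024687023207023187023107023087023007022f87022c87022c07022b87022b07022a87022a07022987022687022607022587022507022487022407022387022307022287022007021f87021f07021e87021e07021d87021d07021c8702198702190702188702180702178702170702168702020702018702010702008702000701fc0701fb8701fb0701fa8701fa0701f60701f58701f50701f48701f40701f38701f30701ef0701ee8701ee0701ed8701ed0701e90701e88701e80701e78701e70701d20701d18701d10701d08701cc0701cb8701cb0701ca8701c60701c58701c50701c48701c40701c38701bf0701be8701be0701bd8701b90701b88701b80701b787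 = true := by
  decide +kernel

theorem k2w (hf : Rule f) (H : KH f k c n 5 2) :
    f (6 * k + 2) c (2 * n + 3) (2 * n - 2 * k + 8) ∨ f (6 * k + 2) c (2 * n + 5) (2 * n - 2 * k + 10) := by
  by_contra hg
  have hk := H.T.hk
  have hc := H.T.hc
  have h4 := H.T.h4
  have hb := H.T.hb
  have hN2 := H.T.hN2
  obtain ⟨a0, ha0⟩ : ∃ a0, a0 + 2 = 6 * k := ⟨6 * k - 2, by omega⟩
  obtain ⟨b0, hb0⟩ : ∃ b0, b0 + 6 = c := ⟨c - 6, by omega⟩
  obtain ⟨x0, hx0⟩ : ∃ x0, x0 = 2 * n + 1 := ⟨2 * n + 1, by omega⟩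
  obtain ⟨y0, hy0⟩ : ∃ y0, y0 = 2 * n - 2 * k + 1 := ⟨2 * n - 2 * k + 1, by omega⟩
  refine check_sound hf (a0 := a0) (b0 := b0) (x0 := x0) (y0 := y0) k2w_chk
    ⟨fun h => absurd h (by decide), fun h => absurd h (by decide), fun h => absurd h (by decide),
      by omega, by omega, by omega, by omega⟩ ?_ ?_
  · intro j m p q hr h
    obtain ⟨-, -, hn1, hn2, hp1, hp2, hq1, hq2⟩ := hr
    unfold k2wT at h
    simp only [Bool.or_eq_true, decide_eq_true_eq] at h
    rcases h with (((h | h) | h) | (h | h)) | (((h | h) | h) | (h | h))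
    · obtain ⟨⟨rfl, rfl, h1⟩, h2⟩ := h
      exact (WrapC.v1 H.k0_m6 (by omega) (by omega) (by omega) (by omega) (by omega) (by omega) (by omega) (by omega)).mpr (by omega)
    · obtain ⟨⟨rfl, rfl, h1⟩, h2⟩ := h
      exact (WrapC.v2 H.k0_m6 (by omega) (by omega) (by omega) (by omega) (by omega) (by omega) (by omega)).mpr (by omega)
    · obtain ⟨⟨rfl, rfl, h1⟩, h2⟩ := h
      exact (WrapC.v0 H.k2_m4 (by omega) (by omega) (by omega) (by omega) (by omega) (by omega) (by omega)).mpr (by omega)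
    · obtain ⟨⟨rfl, rfl, h1⟩, h2⟩ := h
      exact (WrapC.v1 H.k2_m4 (by omega) (by omega) (by omega) (by omega) (by omega) (by omega) (by omega) (by omega)).mpr (by omega)
    · obtain ⟨⟨rfl, rfl, h1⟩, h2⟩ := h
      exact (WrapC.v2 H.k2_m4 (by omega) (by omega) (by omega) (by omega) (by omega) (by omega) (by omega)).mpr (by omega)
    · obtain ⟨⟨rfl, rfl, h1⟩, h2⟩ := h
      exact (WrapC.v1 H.k4_m6 (by omega) (by omega) (by omega) (by omega) (by omega) (by omega) (by omega) (by omega)).mpr (by omega)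
    · obtain ⟨⟨rfl, rfl, h1⟩, h2⟩ := h
      exact (WrapC.v2 H.k4_m6 (by omega) (by omega) (by omega) (by omega) (by omega) (by omega) (by omega)).mpr (by omega)
    · obtain ⟨⟨rfl, rfl, h1⟩, h2⟩ := h
      exact (WrapC.v0 H.k4_m2 (by omega) (by omega) (by omega) (by omega) (by omega) (by omega) (by omega)).mpr (by omega)
    · obtain ⟨⟨rfl, rfl, h1⟩, h2⟩ := h
      exact (WrapC.v1 H.k4_m2 (by omega) (by omega) (by omega) (by omega) (by omega) (by omega) (by omega) (by omega)).mpr (by omega)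
    · obtain ⟨⟨rfl, rfl, h1⟩, h2⟩ := h
      exact (WrapC.v1 H.k6_m4 (by omega) (by omega) (by omega) (by omega) (by omega) (by omega) (by omega) (by omega)).mpr (by omega)
  · intro j m p q hr h
    obtain ⟨-, -, hn1, hn2, hp1, hp2, hq1, hq2⟩ := hr
    unfold k2wF at h
    simp only [Bool.or_eq_true, decide_eq_true_eq] at h
    rcases h with (((((h | h) | h) | (h | h)) | (((h | h) | h) | (h | h))) | ((((h | h) | h) | (h | h)) | (((h | h) | h) | (h | h)))) | (((((h | h) | h) | (h | h)) | (((h | h) | h) | (h | h))) | ((((h | h) | h) | (h | h)) | (((h | h) | h) | (h | h))))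
    · obtain ⟨⟨rfl, rfl, h1⟩, h2⟩ := h
      exact mt (WrapC.v1 H.k0_m6 (by omega) (by omega) (by omega) (by omega) (by omega) (by omega) (by omega) (by omega)).mp (by omega)
    · obtain ⟨⟨rfl, rfl, h1⟩, h2⟩ := h
      exact mt (WrapC.v2 H.k0_m6 (by omega) (by omega) (by omega) (by omega) (by omega) (by omega) (by omega)).mp (by omega)
    · obtain ⟨⟨rfl, rfl, h1⟩, h2⟩ := h
      exact mt (WrapC.v1 H.k2_m4 (by omega) (by omega) (by omega) (by omega) (by omega) (by omega) (by omega) (by omega)).mp (by omega)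
    · obtain ⟨⟨rfl, rfl, h1⟩, h2⟩ := h
      exact mt (WrapC.v2 H.k2_m4 (by omega) (by omega) (by omega) (by omega) (by omega) (by omega) (by omega)).mp (by omega)
    · obtain ⟨⟨rfl, rfl, h1⟩, h2⟩ := h
      exact mt (WrapC.v1 H.k4_m6 (by omega) (by omega) (by omega) (by omega) (by omega) (by omega) (by omega) (by omega)).mp (by omega)
    · obtain ⟨⟨rfl, rfl, h1⟩, h2⟩ := h
      exact mt (WrapC.v2 H.k4_m6 (by omega) (by omega) (by omega) (by omega) (by omega) (by omega) (by omega)).mp (by omega)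
    · obtain ⟨⟨rfl, rfl, h1⟩, h2⟩ := h
      exact mt (WrapC.v0 H.k4_m2 (by omega) (by omega) (by omega) (by omega) (by omega) (by omega) (by omega)).mp (by omega)
    · obtain ⟨⟨rfl, rfl, h1⟩, h2⟩ := h
      exact mt (WrapC.v1 H.k4_m2 (by omega) (by omega) (by omega) (by omega) (by omega) (by omega) (by omega) (by omega)).mp (by omega)
    · obtain ⟨⟨rfl, rfl, h1⟩, h2⟩ := h
      exact mt (WrapC.v1 H.k6_m4 (by omega) (by omega) (by omega) (by omega) (by omega) (by omega) (by omega) (by omega)).mp (by omega)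
    · obtain ⟨rfl, rfl, h1⟩ := h
      exact NHT.rIn hf H.T (t := 3) (j := 3) (p := 0) (by omega) (by omega) (by omega) (by omega) (by omega) (by omega) (by omega) (by omega)
    · obtain ⟨rfl, rfl, h1⟩ := h
      exact NHT.rIn hf H.T (t := 4) (j := 4) (p := 0) (by omega) (by omega) (by omega) (by omega) (by omega) (by omega) (by omega) (by omega)
    · obtain ⟨rfl, rfl, h1⟩ := h
      exact NHT.rIn hf H.T (t := 3) (j := 3) (p := 1) (by omega) (by omega) (by omega) (by omega) (by omega) (by omega) (by omega) (by omega)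
    · obtain ⟨rfl, rfl, h1⟩ := h
      exact NHT.pIn hf H.T (t := 4) (j := 3) (by omega) (by omega) (by omega) (by omega) (by omega) (by omega) (by omega)
    · obtain ⟨rfl, rfl, h1⟩ := h
      exact NHT.rIn hf H.T (t := 4) (j := 4) (p := 1) (by omega) (by omega) (by omega) (by omega) (by omega) (by omega) (by omega) (by omega)
    · obtain ⟨rfl, rfl, h1⟩ := h
      exact NHT.p0i hf H.T (j := 4) (by omega) (by omega) (by omega) (by omega) (by omega) (by omega)
    · obtain ⟨rfl, rfl, h1⟩ := h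
      exact NHT.rIn hf H.T (t := 4) (j := 3) (p := 0) (by omega) (by omega) (by omega) (by omega) (by omega) (by omega) (by omega) (by omega)
    · obtain ⟨rfl, rfl, h1⟩ := h
      exact NHT.rIn hf H.T (t := 3) (j := 2) (p := 1) (by omega) (by omega) (by omega) (by omega) (by omega) (by omega) (by omega) (by omega)
    · obtain ⟨rfl, rfl, h1⟩ := h
      exact NHT.pIn hf H.T (t := 4) (j := 2) (by omega) (by omega) (by omega) (by omega) (by omega) (by omega) (by omega)
    · obtain ⟨rfl, rfl, h1⟩ := h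
      exact NHT.rIn hf H.T (t := 4) (j := 3) (p := 1) (by omega) (by omega) (by omega) (by omega) (by omega) (by omega) (by omega) (by omega)
    · obtain ⟨rfl, rfl, h1⟩ := h
      exact NHT.p0i hf H.T (j := 3) (by omega) (by omega) (by omega) (by omega) (by omega) (by omega)
    · obtain ⟨rfl, rfl, h1⟩ := h
      exact NHT.rIn hf H.T (t := 3) (j := 1) (p := 0) (by omega) (by omega) (by omega) (by omega) (by omega) (by omega) (by omega) (by omega)
    · obtain ⟨rfl, rfl, h1⟩ := h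
      exact NHT.rIn hf H.T (t := 4) (j := 2) (p := 0) (by omega) (by omega) (by omega) (by omega) (by omega) (by omega) (by omega) (by omega)
    · obtain ⟨rfl, rfl, h1⟩ := h
      exact nhu_pmmi hf H.U (by omega) (by omega) (by omega) (by omega) (by omega)
    · obtain ⟨rfl, rfl, h1⟩ := h
      exact nhu_pmmi hf H.U (by omega) (by omega) (by omega) (by omega) (by omega)
    · obtain ⟨rfl, rfl, h1⟩ := h
      exact NHU.pmi hf H.U (j := 1) (by omega) (by omega) (by omega) (by omega) (by omega) (by omega)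
    · obtain ⟨rfl, rfl, h1⟩ := h
      exact NHU.pmi hf H.U (j := 1) (by omega) (by omega) (by omega) (by omega) (by omega) (by omega)
    · obtain ⟨rfl, rfl, h1⟩ := h
      exact NHT.rIn hf H.T (t := 4) (j := 2) (p := 1) (by omega) (by omega) (by omega) (by omega) (by omega) (by omega) (by omega) (by omega)
    · obtain ⟨rfl, rfl, h1⟩ := h
      exact NHU.p0i hf H.U (j := 2) (by omega) (by omega) (by omega) (by omega) (by omega) (by omega)
    · obtain ⟨rfl, rfl, h1⟩ := h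
      exact NHT.p0i hf H.T (j := 2) (by omega) (by omega) (by omega) (by omega) (by omega) (by omega)
    · obtain ⟨rfl, rfl, h1⟩ := h
      exact NHU.p0i hf H.U (j := 2) (by omega) (by omega) (by omega) (by omega) (by omega) (by omega)
    · obtain ⟨rfl, rfl, h1⟩ := h
      exact NHT.rIn hf H.T (t := 4) (j := 1) (p := 0) (by omega) (by omega) (by omega) (by omega) (by omega) (by omega) (by omega) (by omega)
    · obtain ⟨rfl, rfl, h1⟩ := h
      exact NHU.pmi hf H.U (j := 0) (by omega) (by omega) (by omega) (by omega) (by omega) (by omega)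
    · obtain ⟨rfl, rfl, h1⟩ := h
      exact NHU.pmi hf H.U (j := 0) (by omega) (by omega) (by omega) (by omega) (by omega) (by omega)
    · obtain ⟨rfl, rfl, h1⟩ := h
      exact NHT.rIn hf H.T (t := 4) (j := 1) (p := 1) (by omega) (by omega) (by omega) (by omega) (by omega) (by omega) (by omega) (by omega)
    · obtain ⟨rfl, rfl, h1⟩ := h
      exact NHU.p0i hf H.U (j := 1) (by omega) (by omega) (by omega) (by omega) (by omega) (by omega)
    · obtain ⟨rfl, rfl, h1⟩ := h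
      exact NHT.p0i hf H.T (j := 1) (by omega) (by omega) (by omega) (by omega) (by omega) (by omega)
    · obtain ⟨rfl, rfl, h1⟩ := h
      exact NHU.p0i hf H.U (j := 1) (by omega) (by omega) (by omega) (by omega) (by omega) (by omega)
    · obtain ⟨rfl, h1⟩ := h
      exact H.lw _ _ _ _ (by omega) (by omega) (by omega) (by omega) (by omega) (by omega)
    · obtain ⟨rfl, rfl, rfl, rfl⟩ := h
      exact fun h2 => hg (Or.inl (mv h2 (by omega) (by omega) (by omega) (by omega)))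
    · obtain ⟨rfl, rfl, rfl, rfl⟩ := h
      exact fun h2 => hg (Or.inr (mv h2 (by omega) (by omega) (by omega) (by omega)))

/-- The pair of the in-lines `x`, `x + 2` (`x ≥ 2 n + 3` odd) of `6 k + 2` in the row `c`: the third cells
above the wall. -/
theorem k2_gen (hf : Rule f) (H : KH f k c n 5 2) {x y : ℕ} (hx : 2 * n + 3 ≤ x) (ho : x % 2 = 1)
    (hy : y + 2 * k = x + 5) : f (6 * k + 2) c x y ∨ f (6 * k + 2) c (x + 2) (y + 2) := by
  obtain ⟨i, hi⟩ : ∃ i, x = 2 * i + 3 := ⟨(x - 3) / 2, by omega⟩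
  have hk := H.T.hk
  have hn := H.hn
  rcases k2w hf (H.mono (n' := i) (by omega)) with h | h
  · exact Or.inl (mv h (by omega) (by omega) (by omega) (by omega))
  · exact Or.inr (mv h (by omega) (by omega) (by omega) (by omega))

theorem k2_stack {b m : ℕ} (hf : Rule f) (hs : Side k b m) (S : Stack6 f k b m 0 0 0 0 0 1)
    (hn : n = m + 9 + (k + 2) * 4)
    (d0 : Cyc f (6 * k) (b + 16) (2 * (n - 5) + 2))
    (d2 : Cyc f (6 * k + 2) (b + 18) (2 * (n - 2) + 2))
    (d4 : Cyc f (6 * k + 4) (b + 20) (2 * (n + 1) + 2))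
    {x y : ℕ} (hx : 2 * n + 3 ≤ x) (ho : x % 2 = 1) (hy : y + 2 * k = x + 5) :
    f (6 * k + 2) (b + 22) x y ∨ f (6 * k + 2) (b + 22) (x + 2) (y + 2) :=
  k2_gen hf (KH.of_stack hs S hn d0 d2 d4) hx ho hy

end Pool.Agent.SNT.K0D
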