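import Pool.Agent.SNT.Sig

set_option autoImplicit false

/-! The clean zones below a tower of static OUT rows. The layers are `a + 2 t`, `t ≤ T`; the OUT row of the layer
`a + 2 t` is `r + 2 t`, and its static part in the strip is `Y t ≤ y`, `1 ≤ x - y ≤ D - 1`. -/

namespace Pool.Agent.SNT.ZoneT

open Pool.Agent.SNT Pool.Agent.SNT.Sig

variable {f : ℕ → ℕ → ℕ → ℕ → Prop}

/-- A tower of OUT rows. -/
structure Tower (f : ℕ → ℕ → ℕ → ℕ → Prop) (a r T D : ℕ) (Y : ℕ → ℕ) : Prop where
  ha : a % 2 = 0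
  ha1 : 1 ≤ a
  hr1 : 1 ≤ r
  hD : D % 2 = 0
  hY : ∀ t, t < T → Y t + 2 ≤ Y (t + 1)
  out : ∀ t x y, t ≤ T → Y t ≤ y → y + 1 ≤ x → x + 1 ≤ y + D → x % 2 = 0 → y % 2 = 1 →
    f (a + 2 * t) (r + 2 * t) x y

variable {a r T D : ℕ} {Y : ℕ → ℕ}

/-- every window of a static OUT row is covered -/
theorem Tower.cov_out (S : Tower f a r T D Y) {t x y : ℕ} (ht : t ≤ T) (hy : Y t ≤ y) (h1 : y + 2 ≤ x)
    (h2 : x + 2 ≤ y + D) : Cov f (a + 2 * t) (r + 2 * t) x y := by
  rcases Nat.mod_two_eq_zero_or_one x with hx | hx <;> rcases Nat.mod_two_eq_zero_or_one y with hy' | hy'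
  · exact Or.inr (Or.inr (Or.inl (S.out t x (y + 1) ht (by omega) (by omega) (by omega) hx (by omega))))
  · exact Or.inl (S.out t x y ht (by omega) (by omega) (by omega) hx hy')
  · exact Or.inr (Or.inr (Or.inr (S.out t (x + 1) (y + 1) ht (by omega) (by omega) (by omega) (by omega) (by omega))))
  · exact Or.inr (Or.inl (S.out t (x + 1) y ht (by omega) (by omega) (by omega) (by omega) hy'))

/-- the odd layer below a static OUT row -/
theorem Tower.P_out (hf : Rule f) (S : Tower f a r T D Y) {t x y q : ℕ} (ht : t ≤ T) (hq : q ≤ 1) (hy : Y t ≤ y)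
    (h1 : y + 1 ≤ x) (h2 : x + 2 ≤ y + D) : ¬ f (a + 2 * t - 1) (r + 2 * t - q) x y := by
  intro h
  have ha1 := S.ha1
  have hr1 := S.hr1
  obtain ⟨u, hu, hxu⟩ : ∃ u : ℕ, u ≤ 1 ∧ (x + u) % 2 = 0 := by
    rcases Nat.mod_two_eq_zero_or_one x with hx | hx
    · exact ⟨0, by omega, by omega⟩
    · exact ⟨1, by omega, by omega⟩
  obtain ⟨s, hs, hys⟩ : ∃ s : ℕ, s ≤ 1 ∧ (y + s) % 2 = 1 := by
    rcases Nat.mod_two_eq_zero_or_one y with hx | hx
    · exact ⟨1, by omega, by omega⟩
    · exact ⟨0, by omega, by omega⟩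
  have h3 := kill hf h 1 q u s le_rfl hq hu hs (by omega)
  have e1 : a + 2 * t - 1 + 1 = a + 2 * t := by omega
  have e2 : r + 2 * t - q + q = r + 2 * t := by omega
  rw [e1, e2] at h3
  exact h3 (S.out t (x + u) (y + s) ht (by omega) (by omega) (by omega) hxu hys)

/-- the row after a static OUT row -/
theorem Tower.out1 (hf : Rule f) (S : Tower f a r T D Y) {t x y p : ℕ} (ht : t ≤ T) (hp : p ≤ 1) (hy : Y t + 1 ≤ y)
    (h1 : y + 1 ≤ x) (h2 : x + 1 ≤ y + D) : ¬ f (a + 2 * t + p) (r + 2 * t + 1) x y := by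
  intro h
  have hD := S.hD
  obtain ⟨u, hu, hxu⟩ : ∃ u : ℕ, u ≤ 1 ∧ (x - u) % 2 = 0 ∧ (u = 0 ↔ x % 2 = 0) := by
    rcases Nat.mod_two_eq_zero_or_one x with hx | hx
    · exact ⟨0, by omega, by omega, by omega⟩
    · exact ⟨1, by omega, by omega, by omega⟩
  obtain ⟨s, hs, hys⟩ : ∃ s : ℕ, s ≤ 1 ∧ (y - s) % 2 = 1 ∧ (s = 0 ↔ y % 2 = 1) := by
    rcases Nat.mod_two_eq_zero_or_one y with hx | hx
    · exact ⟨1, by omega, by omega, by omega⟩
    · exact ⟨0, by omega, by omega, by omega⟩
  have h3 := kill hf (S.out t (x - u) (y - s) ht (by omega) (by omega) (by omega) hxu.1 hys.1) p 1 u s hp le_rfl hu hs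
    (by omega)
  have e1 : x - u + u = x := by omega
  have e2 : y - s + s = y := by omega
  rw [e1, e2] at h3
  exact h3 h

/-- the odd layer above a static OUT row -/
theorem Tower.P_above (hf : Rule f) (S : Tower f a r T D Y) {t x y q : ℕ} (ht : t ≤ T) (hq : q ≤ 1) (hy : Y t + 1 ≤ y)
    (h1 : y + 1 ≤ x) (h2 : x + 1 ≤ y + D) : ¬ f (a + 2 * t + 1) (r + 2 * t + q) x y := by
  intro h
  have hD := S.hD
  obtain ⟨u, hu, hxu⟩ : ∃ u : ℕ, u ≤ 1 ∧ (x - u) % 2 = 0 ∧ (u = 0 ↔ x % 2 = 0) := by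
    rcases Nat.mod_two_eq_zero_or_one x with hx | hx
    · exact ⟨0, by omega, by omega, by omega⟩
    · exact ⟨1, by omega, by omega, by omega⟩
  obtain ⟨s, hs, hys⟩ : ∃ s : ℕ, s ≤ 1 ∧ (y - s) % 2 = 1 ∧ (s = 0 ↔ y % 2 = 1) := by
    rcases Nat.mod_two_eq_zero_or_one y with hx | hx
    · exact ⟨1, by omega, by omega, by omega⟩
    · exact ⟨0, by omega, by omega, by omega⟩
  have h3 := kill hf (S.out t (x - u) (y - s) ht (by omega) (by omega) (by omega) hxu.1 hys.1) 1 q u s le_rfl hq hu hs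
    (by omega)
  have e1 : x - u + u = x := by omega
  have e2 : y - s + s = y := by omega
  rw [e1, e2] at h3
  exact h3 h

/-- **The clean zone.** -/
theorem Tower.main (hf : Rule f) (S : Tower f a r T D Y) : ∀ t, t ≤ T → ∀ j, j ≤ t → ∀ x y, Y t ≤ y →
    y + 1 + j ≤ x → x + 2 + j ≤ y + D →
    (∀ q, q ≤ 1 → ¬ f (a + 2 * (t - j) - 1) (r + 2 * t - q) x y) ∧
    (1 ≤ j → Cov f (a + 2 * (t - j)) (r + 2 * t) x y) := by
  have ha := S.ha
  have ha1 := S.ha1
  have hr1 := S.hr1
  intro t
  induction t with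
  | zero =>
    intro ht j hj x y hy h1 h2
    have ej : j = 0 := by omega
    subst ej
    exact ⟨fun q hq => S.P_out hf ht hq hy (by omega) (by omega), fun h => absurd h (by omega)⟩
  | succ t iht =>
    intro ht j
    have hYt := S.hY t (by omega)
    induction j with
    | zero =>
      intro _ x y hy h1 h2
      exact ⟨fun q hq => S.P_out hf ht hq hy (by omega) (by omega), fun h => absurd h (by omega)⟩
    | succ j ihj =>
      intro hj x y hy h1 h2
      -- the layer `L = a + 2 * (t - j)`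
      have hcov : Cov f (a + 2 * (t + 1 - (j + 1))) (r + 2 * (t + 1)) x y := by
        have e1 : r + 2 * (t + 1) = (r + 2 * t + 1) + 1 := by ring
        rw [e1]
        refine cov_of_zero hf (by omega) (W0.mk' fun u v hu hv => ?_) (W0.mk' fun u v hu hv => ?_)
          (W0.mk' fun u v hu hv => ?_)
        · have := (ihj (by omega) (x + u) (y + v) (by omega) (by omega) (by omega)).1 0 (by omega)
          have e2 : a + 2 * (t + 1 - j) - 1 = a + 2 * (t + 1 - (j + 1)) + 1 := by omega
          have e3 : r + 2 * (t + 1) - 0 = r + 2 * t + 1 + 1 := by omega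
          rwa [e2, e3] at this
        · have := (ihj (by omega) (x + u) (y + v) (by omega) (by omega) (by omega)).1 1 (by omega)
          have e2 : a + 2 * (t + 1 - j) - 1 = a + 2 * (t + 1 - (j + 1)) + 1 := by omega
          have e3 : r + 2 * (t + 1) - 1 = r + 2 * t + 1 := by omega
          rwa [e2, e3] at this
        · -- the layer itself in the row before
          rcases Nat.eq_zero_or_pos j with hj0 | hj0
          · subst hj0
            have := S.out1 hf (t := t) (x := x + u) (y := y + v) (p := 0) (by omega) (by omega) (by omega) (by omega)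
              (by omega)
            have e2 : a + 2 * t + 0 = a + 2 * (t + 1 - (0 + 1)) := by omega
            rwa [e2] at this
          · have h3 := (iht (by omega) j (by omega) (x + u - 1) (y + v - 1) (by omega) (by omega) (by omega)).2 hj0
            have h4 := zero_of_cov hf h3 (p := 0) (q := 1) (by omega) le_rfl (by omega)
            have e2 : a + 2 * (t - j) + 0 = a + 2 * (t + 1 - (j + 1)) := by omega
            have e3 : x + u - 1 + 1 = x + u := by omega
            have e4 : y + v - 1 + 1 = y + v := by omega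
            rwa [e2, e3, e4] at h4
      refine ⟨fun q hq => ?_, fun _ => hcov⟩
      have e1 : a + 2 * (t + 1 - (j + 1)) = a + 2 * (t + 1 - (j + 1)) - 1 + 1 := by omega
      have e2 : r + 2 * (t + 1) = r + 2 * (t + 1) - q + q := by omega
      rw [e1, e2] at hcov
      exact zero_below hf hcov le_rfl hq (by omega)

/-- the odd layers below in the rows `r + 2 t`, `r + 2 t - 1` -/
theorem Tower.P (hf : Rule f) (S : Tower f a r T D Y) {t s j q L R x y : ℕ} (ht : t ≤ T) (hs : s + j = t) (hq : q ≤ 1)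
    (hL : L + 1 = a + 2 * s) (hR : R + q = r + 2 * t) (hy : Y t ≤ y) (h1 : y + 1 + j ≤ x) (h2 : x + 2 + j ≤ y + D) :
    ¬ f L R x y := by
  have := (S.main hf t ht j (by omega) x y hy h1 h2).1 q hq
  have e1 : a + 2 * (t - j) - 1 = L := by omega
  have e2 : r + 2 * t - q = R := by omega
  rwa [e1, e2] at this

/-- the even layers below are covering in the row `r + 2 t` -/
theorem Tower.cov (hf : Rule f) (S : Tower f a r T D Y) {t s j L R x y : ℕ} (ht : t ≤ T) (hs : s + j = t) (hj : 1 ≤ j)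
    (hL : L = a + 2 * s) (hR : R = r + 2 * t) (hy : Y t ≤ y) (h1 : y + 1 + j ≤ x) (h2 : x + 2 + j ≤ y + D) :
    Cov f L R x y := by
  have := (S.main hf t ht j (by omega) x y hy h1 h2).2 hj
  have e1 : a + 2 * (t - j) = L := by omega
  rwa [e1, ← hR] at this

/-- the row after: the layers `a + 2 s`, `a + 2 s + 1` in the row `r + 2 t + 1`, and `a + 2 s + 1` in the row `r + 2 t` -/
theorem Tower.after (hf : Rule f) (S : Tower f a r T D Y) {t s j p q L R x y : ℕ} (ht : t ≤ T) (hs : s + j = t)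
    (hp : p ≤ 1) (hq : q ≤ 1) (hpq : 1 ≤ p + q) (hL : L = a + 2 * s + p) (hR : R = r + 2 * t + q) (hy : Y t + 1 ≤ y)
    (h1 : y + 1 + j ≤ x) (h2 : x + 2 + j ≤ y + D) : ¬ f L R x y := by
  subst hL hR
  rcases Nat.eq_zero_or_pos j with hj | hj
  · have es : s = t := by omega
    subst es
    rcases Nat.eq_zero_or_pos q with hq0 | hq0
    · subst hq0
      have ep : p = 1 := by omega
      subst ep
      exact S.P_above hf ht (by omega) hy (by omega) (by omega)
    · have eq : q = 1 := by omega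
      subst eq
      exact S.out1 hf ht hp hy (by omega) (by omega)
  · have h3 := S.cov hf (x := x - 1) (y := y - 1) ht hs hj rfl rfl (by omega) (by omega) (by omega)
    have h4 := zero_of_cov hf h3 hp hq hpq
    have e3 : x - 1 + 1 = x := by omega
    have e4 : y - 1 + 1 = y := by omega
    rwa [e3, e4] at h4

end Pool.Agent.SNT.ZoneT
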