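import Pool.Agent.SNT.Stack6
import Pool.Agent.SNT.ZoneT
import Pool.Agent.SNT.ZoneI

set_option autoImplicit false

/-! The clean zones of the window of the top leader `6 k + 10` (`c` is its IN row, `N = 2 n` its lead). -/

namespace Pool.Agent.SNT.NHZ

open Pool.Agent.SNT Pool.Agent.SNT.Sig Pool.Agent.SNT.ZoneT Pool.Agent.SNT.ZoneI Pool.Agent.SNT.LW

variable {f : ℕ → ℕ → ℕ → ℕ → Prop}

/-- the OUT row of a full profile -/
theorem out_cyc {a b n r x y : ℕ} (C : Cyc f a b (2 * n + 2)) (ha : a % 2 = 0) (h4 : (a + b) % 4 = 2) (hab : a < b)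
    (hr : r = b + 2) (hy : 2 * n + 4 ≤ y) (h1 : y + 1 ≤ x) (h2 : x + 1 ≤ y + 2 * (a / 6)) :
    f a r x y ↔ (x % 2 = 0 ∧ y % 2 = 1) := by
  subst hr
  rw [C.r2s x y (by rw [max_eq_left (by omega), min_eq_right (by omega)]; exact h2)
    (by rw [min_eq_right (by omega)]; omega)]
  exact Fst_I (by omega) ha (by omega) (by omega) (by omega) h2

/-- the OUT row of a weak profile -/
theorem out_cw {a b n r x y : ℕ} (C : Cw f a b n) (ha : a % 2 = 0) (h4 : (a + b) % 4 = 2) (hab : a < b)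
    (hr : r = b + 2) (hy : 2 * n + 4 ≤ y) (h1 : y + 1 ≤ x) (h2 : x + 1 ≤ y + 2 * (a / 6)) :
    f a r x y ↔ (x % 2 = 0 ∧ y % 2 = 1) := by
  subst hr
  rw [C.w2s x y (by omega) h2 hy]
  exact Fst_I (by omega) ha (by omega) (by omega) (by omega) h2

/-- the IN row of a full profile -/
theorem in_cyc {a b n x y : ℕ} (C : Cyc f a b (2 * n + 2)) (ha : a % 2 = 0) (h4 : (a + b) % 4 = 2) (hab : a < b)
    (hx : 2 * n + 3 ≤ x) (h1 : y + 1 ≤ x) (h2 : x + 1 ≤ y + 2 * (a / 6)) :
    f a b x y ↔ (x % 2 = 1 ∧ y % 2 = 0) := by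
  rw [C.r0 x y (by rw [max_eq_left (by omega)]; omega)]
  exact Fst_II (by omega) ha (by omega) (by omega) (by omega) h2

/-- the IN row of a weak profile -/
theorem in_cw {a b n x y : ℕ} (C : Cw f a b n) (ha : a % 2 = 0) (h4 : (a + b) % 4 = 2) (hab : a < b)
    (hx : 2 * n + 3 ≤ x) (h1 : y + 1 ≤ x) (h2 : x + 3 ≤ y + 2 * (a / 6)) :
    f a b x y ↔ (x % 2 = 1 ∧ y % 2 = 0) := by
  rw [C.w0 x y (by omega) hx (Or.inl h2)]
  exact Fst_II (by omega) ha (by omega) (by omega) (by omega) (by omega)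

/-- the bounds of the OUT rows -/
def Yf (N t : ℕ) : ℕ := if t < 5 then N - 18 + 4 * t else N + 4

/-- the bounds of the IN rows -/
def Xf (N t : ℕ) : ℕ := if t < 5 then N - 19 + 4 * t else N + 3

/-- The two towers of the top leader. -/
structure NHT (f : ℕ → ℕ → ℕ → ℕ → Prop) (k c N : ℕ) : Prop where
  hk : 8 ≤ k
  hc : c % 2 = 0
  h4 : (6 * k + 10 + c) % 4 = 2
  hb : 12 * k + 100 ≤ c
  hN : N % 2 = 0
  hN2 : 2 * k + 100 ≤ N
  O : Tower f (6 * k) (c - 8) 5 (2 * k) (Yf N)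
  I : InTower f (6 * k) (c - 10) 5 (2 * k) (Xf N)

variable {k c N : ℕ}

/-- `P` in the rows `c + 1`, `c + 2` -/
theorem NHT.p2 (hf : Rule f) (h : NHT f k c N) {L R j x y : ℕ} (hj : j ≤ 5) (hL : L + 1 + 2 * j = 6 * k + 10)
    (hR : R = c + 1 ∨ R = c + 2) (hy : N + 4 ≤ y) (h1 : y + 1 + j ≤ x) (h2 : x + 2 + j ≤ y + 2 * k) : ¬ f L R x y :=
  h.O.P hf (t := 5) (s := 5 - j) (j := j) (q := c + 2 - R) le_rfl (by omega) (by omega) (by omega)
    (by have := h.hb; omega) (by unfold Yf; rw [if_neg (by omega)]; omega) h1 h2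

/-- `P` in the rows `c - 1`, `c`, from the OUT row of `6 k + 8` -/
theorem NHT.p0 (hf : Rule f) (h : NHT f k c N) {L R j x y : ℕ} (hj : j ≤ 4) (hL : L + 1 + 2 * j = 6 * k + 8)
    (hR : R + 1 = c ∨ R = c) (hy : N ≤ y + 2) (h1 : y + 1 + j ≤ x) (h2 : x + 2 + j ≤ y + 2 * k) : ¬ f L R x y :=
  h.O.P hf (t := 4) (s := 4 - j) (j := j) (q := c - R) (by omega) (by omega) (by omega) (by omega)
    (by have := h.hb; omega) (by unfold Yf; rw [if_pos (by omega)]; have := h.hN2; omega) h1 h2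

/-- `P` in the rows `c - 1`, `c`, from the IN row of `6 k + 10` -/
theorem NHT.p0i (hf : Rule f) (h : NHT f k c N) {L R j x y : ℕ} (hj : j ≤ 5) (hL : L + 1 + 2 * j = 6 * k + 10)
    (hR : R + 1 = c ∨ R = c) (hx : N + 2 ≤ x) (h1 : y + 1 + j ≤ x) (h2 : x + 2 + j ≤ y + 2 * k) : ¬ f L R x y :=
  h.I.P hf (t := 5) (s := 5 - j) (j := j) (q := c - R) (by omega) (by omega) (by omega) (by omega)
    (by have := h.hb; omega) (by unfold Xf; rw [if_neg (by omega)]; omega) (by have := h.hN2; omega) h1 h2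

/-- `P` in the rows `c - 3`, `c - 2`, from the OUT row of `6 k + 6` -/
theorem NHT.pm (hf : Rule f) (h : NHT f k c N) {L R j x y : ℕ} (hj : j ≤ 3) (hL : L + 1 + 2 * j = 6 * k + 6)
    (hR : R + 3 = c ∨ R + 2 = c) (hy : N ≤ y + 6) (h1 : y + 1 + j ≤ x) (h2 : x + 2 + j ≤ y + 2 * k) : ¬ f L R x y :=
  h.O.P hf (t := 3) (s := 3 - j) (j := j) (q := c - 2 - R) (by omega) (by omega) (by omega) (by omega)
    (by have := h.hb; omega) (by unfold Yf; rw [if_pos (by omega)]; have := h.hN2; omega) h1 h2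

/-- `P` in the rows `c - 3`, `c - 2`, from the IN row of `6 k + 8` -/
theorem NHT.pmi (hf : Rule f) (h : NHT f k c N) {L R j x y : ℕ} (hj : j ≤ 4) (hL : L + 1 + 2 * j = 6 * k + 8)
    (hR : R + 3 = c ∨ R + 2 = c) (hx : N ≤ x + 4) (h1 : y + 1 + j ≤ x) (h2 : x + 2 + j ≤ y + 2 * k) : ¬ f L R x y :=
  h.I.P hf (t := 4) (s := 4 - j) (j := j) (q := c - 2 - R) (by omega) (by omega) (by omega) (by omega)
    (by have := h.hb; omega) (by unfold Xf; rw [if_pos (by omega)]; have := h.hN2; omega) (by have := h.hN2; omega) h1 h2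

/-- the even layers are covering in the row `c + 2` -/
theorem NHT.c2 (hf : Rule f) (h : NHT f k c N) {L j x y : ℕ} (hj : 1 ≤ j) (hj5 : j ≤ 5) (hL : L + 2 * j = 6 * k + 10)
    (hy : N + 4 ≤ y) (h1 : y + 1 + j ≤ x) (h2 : x + 2 + j ≤ y + 2 * k) : Cov f L (c + 2) x y :=
  h.O.cov hf (t := 5) (s := 5 - j) (j := j) le_rfl (by omega) hj (by omega) (by have := h.hb; omega)
    (by unfold Yf; rw [if_neg (by omega)]; omega) h1 h2

/-- the even layers are covering in the row `c` -/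
theorem NHT.c0 (hf : Rule f) (h : NHT f k c N) {L j x y : ℕ} (hj : j ≤ 4) (hL : L + 2 * j = 6 * k + 8)
    (hy : N ≤ y + 2) (h0 : y + 2 ≤ x) (h1 : y + 1 + j ≤ x) (h2 : x + 2 + j ≤ y + 2 * k) : Cov f L c x y := by
  rcases Nat.eq_zero_or_pos j with hj0 | hj0
  · subst hj0
    have := h.O.cov_out (t := 4) (x := x) (y := y) (by omega)
      (by unfold Yf; rw [if_pos (by omega)]; have := h.hN2; omega) h0 (by omega)
    have e1 : 6 * k + 2 * 4 = L := by omega
    have e2 : c - 8 + 2 * 4 = c := by have := h.hb; omega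
    rwa [e1, e2] at this
  · exact h.O.cov hf (t := 4) (s := 4 - j) (j := j) (by omega) (by omega) hj0 (by omega) (by have := h.hb; omega)
      (by unfold Yf; rw [if_pos (by omega)]; have := h.hN2; omega) h1 h2

/-- the even layers are covering in the row `c`, from the IN row of `6 k + 10` -/
theorem NHT.c0i (hf : Rule f) (h : NHT f k c N) {L j x y : ℕ} (hj : j ≤ 5) (hL : L + 2 * j = 6 * k + 10)
    (hx : N + 2 ≤ x) (h0 : y + 2 ≤ x) (h1 : y + 1 + j ≤ x) (h2 : x + 2 + j ≤ y + 2 * k) : Cov f L c x y :=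
  h.I.cov hf (t := 5) (s := 5 - j) (j := j) le_rfl (by omega) (by omega) (by have := h.hb; omega)
    (by unfold Xf; rw [if_neg (by omega)]; omega) (by have := h.hN2; omega) h0 h1 h2

/-- the row `c + 1`: the layers `6 k .. 6 k + 9` -/
theorem NHT.r1 (hf : Rule f) (h : NHT f k c N) {L p j x y : ℕ} (hj : j ≤ 4) (hp : p ≤ 1) (hL : L + 2 * j = 6 * k + 8 + p)
    (hy : N ≤ y + 1) (h1 : y + 1 + j ≤ x) (h2 : x + 2 + j ≤ y + 2 * k) : ¬ f L (c + 1) x y :=
  h.O.after hf (t := 4) (s := 4 - j) (j := j) (p := p) (q := 1) (by omega) (by omega) hp le_rfl (by omega) (by omega)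
    (by have := h.hb; omega) (by unfold Yf; rw [if_pos (by omega)]; have := h.hN2; omega) h1 h2

/-- the row `c + 1`, right of the front -/
theorem NHT.r1i (hf : Rule f) (h : NHT f k c N) {L p j x y : ℕ} (hj : j ≤ 5) (hp : p ≤ 1)
    (hL : L + 2 * j = 6 * k + 10 + p) (hx : N + 3 ≤ x) (h1 : y + 1 + j ≤ x) (h2 : x + 2 + j ≤ y + 2 * k) :
    ¬ f L (c + 1) x y :=
  h.I.after hf (t := 5) (s := 5 - j) (j := j) (p := p) (q := 1) (by omega) (by omega) hp le_rfl (by omega) (by omega)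
    (by have := h.hb; omega) (by unfold Xf; rw [if_neg (by omega)]; omega) (by have := h.hN2; omega) h1 h2

/-- the row `c - 1`: the layers `6 k .. 6 k + 7` -/
theorem NHT.rm1 (hf : Rule f) (h : NHT f k c N) {L p j x y : ℕ} (hj : j ≤ 3) (hp : p ≤ 1) (hL : L + 2 * j = 6 * k + 6 + p)
    (hy : N ≤ y + 5) (h1 : y + 1 + j ≤ x) (h2 : x + 2 + j ≤ y + 2 * k) : ¬ f L (c - 1) x y :=
  h.O.after hf (t := 3) (s := 3 - j) (j := j) (p := p) (q := 1) (by omega) (by omega) hp le_rfl (by omega) (by omega)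
    (by have := h.hb; omega) (by unfold Yf; rw [if_pos (by omega)]; have := h.hN2; omega) h1 h2

/-- the row `c - 1`, right of the front of `6 k + 8` -/
theorem NHT.rm1i (hf : Rule f) (h : NHT f k c N) {L p j x y : ℕ} (hj : j ≤ 4) (hp : p ≤ 1)
    (hL : L + 2 * j = 6 * k + 8 + p) (hx : N ≤ x + 3) (h1 : y + 1 + j ≤ x) (h2 : x + 2 + j ≤ y + 2 * k) :
    ¬ f L (c - 1) x y :=
  h.I.after hf (t := 4) (s := 4 - j) (j := j) (p := p) (q := 1) (by omega) (by omega) hp le_rfl (by omega) (by omega)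
    (by have := h.hb; omega) (by unfold Xf; rw [if_pos (by omega)]; have := h.hN2; omega) (by have := h.hN2; omega) h1 h2

/-- `P` below the IN row of the layer `6 k + 2 t`, `t ≤ 4`, for all `y` -/
theorem NHT.pIn (hf : Rule f) (h : NHT f k c N) {t L R j x y : ℕ} (ht : t ≤ 4) (hj : j ≤ t)
    (hL : L + 1 + 2 * j = 6 * k + 2 * t) (hR : R + 11 = c + 2 * t ∨ R + 10 = c + 2 * t) (hx : N + 4 * t ≤ x + 20)
    (h1 : y + 1 + j ≤ x) (h2 : x + 2 + j ≤ y + 2 * k) : ¬ f L R x y :=
  h.I.P hf (t := t) (s := t - j) (j := j) (q := c + 2 * t - 10 - R) (by omega) (by omega) (by omega) (by omega)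
    (by have := h.hb; omega) (by unfold Xf; rw [if_pos (by omega)]; have := h.hN2; omega) (by have := h.hN2; omega) h1 h2

/-- coverings in the IN row of the layer `6 k + 2 t`, `t ≤ 4`, for all `y` -/
theorem NHT.cIn (hf : Rule f) (h : NHT f k c N) {t L R j x y : ℕ} (ht : t ≤ 4) (hj : j ≤ t)
    (hL : L + 2 * j = 6 * k + 2 * t) (hR : R + 10 = c + 2 * t) (hx : N + 4 * t ≤ x + 20)
    (h0 : y + 2 ≤ x) (h1 : y + 1 + j ≤ x) (h2 : x + 2 + j ≤ y + 2 * k) : Cov f L R x y :=
  h.I.cov hf (t := t) (s := t - j) (j := j) (by omega) (by omega) (by omega)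
    (by have := h.hb; omega) (by unfold Xf; rw [if_pos (by omega)]; have := h.hN2; omega) (by have := h.hN2; omega) h0 h1 h2

/-- the row after the IN row of the layer `6 k + 2 t`, `t ≤ 4` -/
theorem NHT.rIn (hf : Rule f) (h : NHT f k c N) {t L R p j x y : ℕ} (ht : t ≤ 4) (hj : j ≤ t) (hp : p ≤ 1)
    (hL : L + 2 * j = 6 * k + 2 * t + p) (hR : R + 9 = c + 2 * t) (hx : N + 4 * t ≤ x + 19)
    (h1 : y + 1 + j ≤ x) (h2 : x + 2 + j ≤ y + 2 * k) : ¬ f L R x y :=
  h.I.after hf (t := t) (s := t - j) (j := j) (p := p) (q := 1) (by omega) (by omega) hp le_rfl (by omega) (by omega)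
    (by have := h.hb; omega) (by unfold Xf; rw [if_pos (by omega)]; have := h.hN2; omega) (by have := h.hN2; omega) h1 h2

/-- `P` below the OUT row of the layer `6 k + 2 t`, `t ≤ 4` -/
theorem NHT.pOut (hf : Rule f) (h : NHT f k c N) {t L R j x y : ℕ} (ht : t ≤ 4) (hj : j ≤ t)
    (hL : L + 1 + 2 * j = 6 * k + 2 * t) (hR : R + 9 = c + 2 * t ∨ R + 8 = c + 2 * t) (hy : N + 4 * t ≤ y + 18)
    (h1 : y + 1 + j ≤ x) (h2 : x + 2 + j ≤ y + 2 * k) : ¬ f L R x y :=
  h.O.P hf (t := t) (s := t - j) (j := j) (q := c + 2 * t - 8 - R) (by omega) (by omega) (by omega) (by omega)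
    (by have := h.hb; omega) (by unfold Yf; rw [if_pos (by omega)]; have := h.hN2; omega) h1 h2

/-- coverings in the OUT row of the layer `6 k + 2 t`, `t ≤ 4` -/
theorem NHT.cOut (hf : Rule f) (h : NHT f k c N) {t L R j x y : ℕ} (ht : t ≤ 4) (hj : j ≤ t)
    (hL : L + 2 * j = 6 * k + 2 * t) (hR : R + 8 = c + 2 * t) (hy : N + 4 * t ≤ y + 18)
    (h0 : y + 2 ≤ x) (h1 : y + 1 + j ≤ x) (h2 : x + 2 + j ≤ y + 2 * k) : Cov f L R x y := by
  have hb := h.hb
  rcases Nat.eq_zero_or_pos j with hj0 | hj0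
  · subst hj0
    have := h.O.cov_out (t := t) (x := x) (y := y) (by omega)
      (by unfold Yf; rw [if_pos (by omega)]; have := h.hN2; omega) h0 (by omega)
    have e1 : 6 * k + 2 * t = L := by omega
    have e2 : c - 8 + 2 * t = R := by omega
    rwa [e1, e2] at this
  · exact h.O.cov hf (t := t) (s := t - j) (j := j) (by omega) (by omega) hj0 (by omega) (by omega)
      (by unfold Yf; rw [if_pos (by omega)]; have := h.hN2; omega) h1 h2

/-- the row after the OUT row of the layer `6 k + 2 t`, `t ≤ 4` -/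
theorem NHT.rOut (hf : Rule f) (h : NHT f k c N) {t L R p j x y : ℕ} (ht : t ≤ 4) (hj : j ≤ t) (hp : p ≤ 1)
    (hL : L + 2 * j = 6 * k + 2 * t + p) (hR : R + 7 = c + 2 * t) (hy : N + 4 * t ≤ y + 17)
    (h1 : y + 1 + j ≤ x) (h2 : x + 2 + j ≤ y + 2 * k) : ¬ f L R x y :=
  h.O.after hf (t := t) (s := t - j) (j := j) (p := p) (q := 1) (by omega) (by omega) hp le_rfl (by omega) (by omega)
    (by have := h.hb; omega) (by unfold Yf; rw [if_pos (by omega)]; have := h.hN2; omega) h1 h2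

/-- The two towers from the window. -/
theorem NHT.of_stack {b m : ℕ} (hs : Side k b m) (S : Stack6 f k b m 0 0 0 0 0 1) :
    NHT f k (b + 22) (2 * (m + 9 + (k + 2) * 4)) := by
  obtain ⟨hk, hb, h4, hb2, hm⟩ := hs
  refine ⟨hk, by omega, by omega, by omega, by omega, by omega, ?_, ?_⟩
  · refine ⟨by omega, by omega, by omega, by omega, ?_, ?_⟩
    · intro t ht
      unfold Yf
      rcases Nat.lt_or_ge (t + 1) 5 with h1 | h1
      · rw [if_pos (by omega), if_pos (by omega)]; omega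
      · rw [if_pos (by omega), if_neg (by omega)]; omega
    · intro t x y ht hy h1 h2 hx1 hy1
      unfold Yf at hy
      interval_cases t
      · rw [if_pos (by omega)] at hy
        exact (out_cyc (S.l0 3) (by omega) (by omega) (by omega) (by omega) (by omega) h1 (by omega)).2 ⟨hx1, hy1⟩
      · rw [if_pos (by omega)] at hy
        exact (out_cyc (S.l2 3) (by omega) (by omega) (by omega) (by omega) (by omega) h1 (by omega)).2 ⟨hx1, hy1⟩
      · rw [if_pos (by omega)] at hy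
        exact (out_cyc (S.l4 4) (by omega) (by omega) (by omega) (by omega) (by omega) h1 (by omega)).2 ⟨hx1, hy1⟩
      · rw [if_pos (by omega)] at hy
        exact (out_cyc (S.l6 4) (by omega) (by omega) (by omega) (by omega) (by omega) h1 (by omega)).2 ⟨hx1, hy1⟩
      · rw [if_pos (by omega)] at hy
        exact (out_cw (S.l8 4) (by omega) (by omega) (by omega) (by omega) (by omega) h1 (by omega)).2 ⟨hx1, hy1⟩
      · rw [if_neg (by omega)] at hy
        exact (out_cw (S.l10 4) (by omega) (by omega) (by omega) (by omega) (by omega) h1 (by omega)).2 ⟨hx1, hy1⟩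
  · refine ⟨by omega, by omega, by omega, by omega, ?_, ?_, ?_⟩
    · intro t ht
      unfold Xf
      rcases Nat.lt_or_ge t 5 with h1 | h1
      · rw [if_pos (by omega)]; omega
      · rw [if_neg (by omega)]; omega
    · intro t ht
      unfold Xf
      rcases Nat.lt_or_ge (t + 1) 5 with h1 | h1
      · rw [if_pos (by omega), if_pos (by omega)]; omega
      · rw [if_pos (by omega), if_neg (by omega)]; omega
    · intro t x y ht hy h1 h2 hx1 hy1
      unfold Xf at hy
      interval_cases t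
      · rw [if_pos (by omega)] at hy
        have e : b + 22 - 10 + 2 * 0 = b + 4 * 3 := by omega
        rw [e]
        exact (in_cyc (S.l0 3) (by omega) (by omega) (by omega) (by omega) h1 (by omega)).2 ⟨hx1, hy1⟩
      · rw [if_pos (by omega)] at hy
        have e : b + 22 - 10 + 2 * 1 = b + 2 + 4 * 3 := by omega
        rw [e]
        exact (in_cyc (S.l2 3) (by omega) (by omega) (by omega) (by omega) h1 (by omega)).2 ⟨hx1, hy1⟩
      · rw [if_pos (by omega)] at hy
        have e : b + 22 - 10 + 2 * 2 = b + 4 * 4 := by omega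
        rw [e]
        exact (in_cyc (S.l4 4) (by omega) (by omega) (by omega) (by omega) h1 (by omega)).2 ⟨hx1, hy1⟩
      · rw [if_pos (by omega)] at hy
        have e : b + 22 - 10 + 2 * 3 = b + 2 + 4 * 4 := by omega
        rw [e]
        exact (in_cyc (S.l6 4) (by omega) (by omega) (by omega) (by omega) h1 (by omega)).2 ⟨hx1, hy1⟩
      · rw [if_pos (by omega)] at hy
        have e : b + 22 - 10 + 2 * 4 = b + 4 + 4 * 4 := by omega
        rw [e]
        exact (in_cw (S.l8 4) (by omega) (by omega) (by omega) (by omega) h1 (by omega)).2 ⟨hx1, hy1⟩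
      · rw [if_neg (by omega)] at hy
        have e : b + 22 - 10 + 2 * 5 = b + 6 + 4 * 4 := by omega
        rw [e]
        exact (in_cw (S.l10 4) (by omega) (by omega) (by omega) (by omega) h1 (by omega)).2 ⟨hx1, hy1⟩

end Pool.Agent.SNT.NHZ
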