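import Pool.Agent.SNT.DRun
import Pool.Agent.SNT.NHZone

set_option autoImplicit false

/-! [D3], [D5] over the window `NHT` of the top leader (`c` is the IN row of `6 k + 10`, `N = 2 n`). -/

namespace Pool.Agent.SNT.DRun

open Pool.Agent.SNT Pool.Agent.SNT.Sig Pool.Agent.SNT.NHZ

variable {f : ℕ → ℕ → ℕ → ℕ → Prop} {k c N : ℕ}

/-! ### [D5] the row `c + 2` -/

/-- [D5] an even cell `(x, y0)`, `x` odd, `N + 4 ≤ y0`, of the layer `L = 6 k + 10 - 2 j` in the row `c + 2` gives all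
even cells `(x, y)`, `y0 ≤ y ≤ x - j` -/
theorem run_c2 (hf : Rule f) (h : NHT f k c N) {L j x y0 : ℕ} (hj : 1 ≤ j) (hj5 : j ≤ 5) (hL : L + 2 * j = 6 * k + 10)
    (hx : x % 2 = 1) (hy : y0 % 2 = 0) (hN : N + 3 ≤ y0) (hw : x + 1 + j ≤ y0 + 2 * k) (h0 : f L (c + 2) x y0) :
    ∀ y, y0 ≤ y → y + j ≤ x → y % 2 = 0 → f L (c + 2) x y := by
  have hc := h.hc
  intro y h1 h2 h3
  exact col_run hf (y1 := x - j) (by omega) (by omega) hx hy
    (fun z h4 h5 h6 => h.c2 hf hj hj5 hL (by omega) (by omega) (by omega)) h0 y h1 (by omega) h3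

/-! ### [D3] the row `c` -/

/-- the layer `6 k + 8` in its OUT row `c` -/
theorem out8 (h : NHT f k c N) {u v : ℕ} (hv : N ≤ v + 2) (h1 : v + 1 ≤ u) (h2 : u + 1 ≤ v + 2 * k) (hu : u % 2 = 0)
    (hv1 : v % 2 = 1) : f (6 * k + 8) c u v := by
  have hb := h.hb
  have hN2 := h.hN2
  have h3 := h.O.out 4 u v (by omega) (by unfold Yf; rw [if_pos (by omega)]; omega) h1 h2 hu hv1
  have e1 : 6 * k + 2 * 4 = 6 * k + 8 := by omega
  have e2 : c - 8 + 2 * 4 = c := by omega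
  rwa [e1, e2] at h3

/-- the layer `6 k + 6` in its OUT row `c - 2` -/
theorem out6 (h : NHT f k c N) {u v : ℕ} (hv : N ≤ v + 6) (h1 : v + 1 ≤ u) (h2 : u + 1 ≤ v + 2 * k) (hu : u % 2 = 0)
    (hv1 : v % 2 = 1) : f (6 * k + 6) (c - 2) u v := by
  have hb := h.hb
  have hN2 := h.hN2
  have h3 := h.O.out 3 u v (by omega) (by unfold Yf; rw [if_pos (by omega)]; omega) h1 h2 hu hv1
  have e1 : 6 * k + 2 * 3 = 6 * k + 6 := by omega
  have e2 : c - 8 + 2 * 3 = c - 2 := by omega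
  rwa [e1, e2] at h3

/-- every window of the layer `6 k + 6` in the row `c` is covered, up to the diagonal -/
theorem c6 (hf : Rule f) (h : NHT f k c N) {x y : ℕ} (hX : N + 2 ≤ x) (h1 : y + 2 ≤ x) (h2 : x + 4 ≤ y + 2 * k) :
    Cov f (6 * k + 6) c x y := by
  have hb := h.hb
  have hN2 := h.hN2
  have hk := h.hk
  rcases Nat.lt_or_ge (y + 2) x with h3 | h3
  · exact h.c0i hf (j := 2) (by omega) (by omega) hX h1 (by omega) (by omega)
  · have h4 := cov_last hf (A := 6 * k + 6) (b := c - 2) (D := 2 * k) (D' := 2 * k) (Y := N - 2) (Y' := N - 6) (x := x)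
      (y := y) (by omega) (by omega)
      (fun u v a1 a2 a3 a4 a5 => by
        have e1 : 6 * k + 6 + 2 = 6 * k + 8 := by omega
        have e2 : c - 2 + 2 = c := by omega
        rw [e1, e2]
        exact out8 h (by omega) a2 a3 a4 a5)
      (fun u v a1 a2 a3 a4 a5 => out6 h (by omega) a2 a3 a4 a5) (by omega) (by omega) (by omega) (by omega) (by omega)
    have e2 : c - 2 + 2 = c := by omega
    rwa [e2] at h4

/-- [D3, L6] the run in the layer `6 k + 6`, row `c`, up to the tip -/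
theorem run6 (hf : Rule f) (h : NHT f k c N) {x y0 : ℕ} (hx : x % 2 = 1) (hy : y0 % 2 = 0) (hX : N + 2 ≤ x)
    (hw : x + 3 ≤ y0 + 2 * k) (h0 : f (6 * k + 6) c x y0) :
    ∀ y, y0 ≤ y → y + 1 ≤ x → y % 2 = 0 → f (6 * k + 6) c x y := by
  have hc := h.hc
  intro y h1 h2 h3
  exact col_run hf (y1 := x - 1) (by omega) hc hx hy
    (fun z h4 h5 h6 => c6 hf h hX (by omega) (by omega)) h0 y h1 (by omega) h3

/-- [D3, L6] no two adjacent tips are missing -/
theorem tip6 (hf : Rule f) (h : NHT f k c N) {x y0 y0' : ℕ} (hx : x % 2 = 1) (hX : N + 2 ≤ x) (hy : y0 % 2 = 0)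
    (hy' : y0' % 2 = 0) (h1 : y0 + 1 ≤ x) (h1' : y0' + 1 ≤ x + 2) (hw : x + 3 ≤ y0 + 2 * k) (hw' : x + 5 ≤ y0' + 2 * k)
    (h0 : f (6 * k + 6) c x y0 ∨ f (6 * k + 6) c (x + 2) y0') :
    f (6 * k + 6) c x (x - 1) ∨ f (6 * k + 6) c (x + 2) (x + 1) := by
  rcases h0 with h0 | h0
  · exact Or.inl (run6 hf h hx hy hX hw h0 _ (by omega) (by omega) (by omega))
  · exact Or.inr (run6 hf h (by omega) hy' (by omega) (by omega) h0 _ (by omega) (by omega) (by omega))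

/-! ### the layer `6 k + 2` -/

/-- what is used of the improved leads: the OUT row `c` of `6 k + 4` (from `Y4` on) and the OUT row `c - 2` of `6 k + 2`
(from `Y2` on) -/
structure D1 (f : ℕ → ℕ → ℕ → ℕ → Prop) (k c Y4 Y2 : ℕ) : Prop where
  o4 : ∀ u v, Y4 ≤ v → v + 1 ≤ u → u + 1 ≤ v + 2 * k → u % 2 = 0 → v % 2 = 1 → f (6 * k + 4) c u v
  o2 : ∀ u v, Y2 ≤ v → v + 1 ≤ u → u + 1 ≤ v + 2 * k → u % 2 = 0 → v % 2 = 1 → f (6 * k + 2) (c - 2) u v

theorem D1.of_cyc {n4 n2 : ℕ} (h : NHT f k c N) (C4 : Cyc f (6 * k + 4) (c - 2) (2 * n4 + 2))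
    (C2 : Cyc f (6 * k + 2) (c - 4) (2 * n2 + 2)) : D1 f k c (2 * n4 + 4) (2 * n2 + 4) where
  o4 := by
    have hb := h.hb
    have hc := h.hc
    have h4 := h.h4
    intro u v a1 a2 a3 a4 a5
    exact (out_cyc C4 (by omega) (by omega) (by omega) (by omega) (by omega) a2 (by omega)).2 ⟨a4, a5⟩
  o2 := by
    have hb := h.hb
    have hc := h.hc
    have h4 := h.h4
    intro u v a1 a2 a3 a4 a5
    exact (out_cyc C2 (by omega) (by omega) (by omega) (by omega) (by omega) a2 (by omega)).2 ⟨a4, a5⟩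

variable {Y4 Y2 : ℕ}

/-- `P_(6k+3)` in the rows `c - 1`, `c` -/
theorem p3 (hf : Rule f) (h : NHT f k c N) (d : D1 f k c Y4 Y2) {q x y : ℕ} (hq : q ≤ 1) (hX : N + 2 ≤ x)
    (h1 : (y + 4 ≤ x ∧ x + 5 ≤ y + 2 * k) ∨ (Y4 ≤ y ∧ y + 1 ≤ x ∧ x + 2 ≤ y + 2 * k)) :
    ¬ f (6 * k + 3) (c - q) x y := by
  have hb := h.hb
  rcases h1 with h1 | h1
  · exact h.p0i hf (j := 3) (by omega) (by omega) (by omega) hX (by omega) (by omega)
  · have h2 := cov_out1 (f := f) (A := 6 * k + 4) (b := c) (D := 2 * k) (Y := Y4) (x := x) (y := y) d.o4 h1.1 h1.2.1 h1.2.2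
    have e1 : 6 * k + 4 = 6 * k + 3 + 1 := by omega
    have e2 : c = c - q + q := by omega
    rw [e1, e2] at h2
    exact zero_below hf h2 le_rfl hq (by omega)

/-- every window of the layer `6 k + 2` in the row `c` is covered, up to the diagonal, for `x ≥ N + 2, Y4 + 3, Y2 + 5` -/
theorem cov2 (hf : Rule f) (h : NHT f k c N) (d : D1 f k c Y4 Y2) {x y : ℕ} (hX : N + 2 ≤ x) (h4 : Y4 + 3 ≤ x)
    (hY2 : Y2 + 5 ≤ x) (h1 : y + 2 ≤ x) (h2 : x + 6 ≤ y + 2 * k) : Cov f (6 * k + 2) c x y := by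
  have hb := h.hb
  have hN2 := h.hN2
  have hk := h.hk
  have hc := h.hc
  rcases Nat.lt_or_ge (y + 4) x with h3 | h3
  · exact h.c0i hf (j := 4) (by omega) (by omega) (by omega) h1 (by omega) (by omega)
  · have e1 : c = c - 1 + 1 := by omega
    rw [e1]
    refine cov_of_zero hf (a := 6 * k + 2) (b := c - 1) (by omega) (W0.mk' fun u v hu hv => ?_)
      (W0.mk' fun u v hu hv => ?_) (W0.mk' fun u v hu hv => ?_)
    · rw [← e1]
      exact p3 hf h d (q := 0) (x := x + u) (y := y + v) (by omega) (by omega) (by omega)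
    · exact p3 hf h d (q := 1) (x := x + u) (y := y + v) (by omega) (by omega) (by omega)
    · have h4 := zero_after hf (A := 6 * k + 2) (b := c - 2) (D := 2 * k) (Y := Y2) (x := x + u) (y := y + v) (by omega)
        d.o2 (by omega) (by omega) (by omega)
      have e2 : c - 2 + 1 = c - 1 := by omega
      rwa [e2] at h4

/-- [D3, L2] the run in the layer `6 k + 2`, row `c`, up to the tip -/
theorem run2 (hf : Rule f) (h : NHT f k c N) (d : D1 f k c Y4 Y2) {x y0 : ℕ} (hx : x % 2 = 1) (hy : y0 % 2 = 0)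
    (hX : N + 2 ≤ x) (h4 : Y4 + 3 ≤ x) (hY2 : Y2 + 5 ≤ x) (hw : x + 5 ≤ y0 + 2 * k) (h0 : f (6 * k + 2) c x y0) :
    ∀ y, y0 ≤ y → y + 1 ≤ x → y % 2 = 0 → f (6 * k + 2) c x y := by
  have hc := h.hc
  intro y h1 h2 h3
  exact col_run hf (y1 := x - 1) (by omega) hc hx hy
    (fun z h4' h5 h6 => cov2 hf h d hX h4 hY2 (by omega) (by omega)) h0 y h1 (by omega) h3

/-- [D3, L2] no two adjacent tips are missing -/
theorem tip2 (hf : Rule f) (h : NHT f k c N) (d : D1 f k c Y4 Y2) {x y0 y0' : ℕ} (hx : x % 2 = 1) (hX : N + 2 ≤ x)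
    (h4 : Y4 + 3 ≤ x) (hY2 : Y2 + 5 ≤ x)
    (hy : y0 % 2 = 0) (hy' : y0' % 2 = 0) (h1 : y0 + 1 ≤ x) (h1' : y0' + 1 ≤ x + 2) (hw : x + 5 ≤ y0 + 2 * k)
    (hw' : x + 7 ≤ y0' + 2 * k) (h0 : f (6 * k + 2) c x y0 ∨ f (6 * k + 2) c (x + 2) y0') :
    f (6 * k + 2) c x (x - 1) ∨ f (6 * k + 2) c (x + 2) (x + 1) := by
  rcases h0 with h0 | h0
  · exact Or.inl (run2 hf h d hx hy hX h4 hY2 hw h0 _ (by omega) (by omega) (by omega))
  · exact Or.inr (run2 hf h d (by omega) hy' (by omega) (by omega) (by omega) (by omega) h0 _ (by omega) (by omega)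
      (by omega))

/-- [D3, L2] the part of the run which does not need `D1` -/
theorem run2' (hf : Rule f) (h : NHT f k c N) {x y0 : ℕ} (hx : x % 2 = 1) (hy : y0 % 2 = 0)
    (hX : N + 2 ≤ x) (hw : x + 5 ≤ y0 + 2 * k) (h0 : f (6 * k + 2) c x y0) :
    ∀ y, y0 ≤ y → y + 4 ≤ x → y % 2 = 0 → f (6 * k + 2) c x y := by
  have hc := h.hc
  intro y h1 h2 h3
  exact col_run hf (y1 := x - 4) (by omega) hc hx hy
    (fun z h4 h5 h6 => h.c0i hf (j := 4) (by omega) (by omega) hX (by omega) (by omega) (by omega)) h0 y h1 (by omega) h3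

end Pool.Agent.SNT.DRun
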