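import Pool.Agent.SNT.WrapC
import Pool.Agent.SNT.NHZone2

set_option autoImplicit false

/-! The near-wall windows of the top leader `6 k + 10` (`c` is its IN row, `n` its lead): the hypotheses, with the
improved leads of the lower layers, and the explicit values of the known rows. -/

namespace Pool.Agent.SNT.NW

open Pool.Agent.SNT Pool.Agent.SNT.Loc Pool.Agent.SNT.LW Pool.Agent.SNT.NHZ

variable {f : ℕ → ℕ → ℕ → ℕ → Prop}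

/-- The hypotheses of the near-wall windows. -/
structure NWH (f : ℕ → ℕ → ℕ → ℕ → Prop) (k c n : ℕ) : Prop where
  T : NHT f k c (2 * n)
  c0 : Cyc f (6 * k) (c - 2) (2 * (n + k - 5) + 2)
  c2 : Cyc f (6 * k + 2) (c - 4) (2 * (n - 5) + 2)
  c2b : Cyc f (6 * k + 2) c (2 * (n + k - 3) + 2)
  c4 : Cyc f (6 * k + 4) (c - 2) (2 * (n - 2) + 2)
  c4b : Cyc f (6 * k + 4) (c + 2) (2 * (n + k) + 2)
  c6 : Cyc f (6 * k + 6) (c - 4) (2 * (n - 5) + 2)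
  c6b : Cyc f (6 * k + 6) c (2 * (n + k - 3) + 2)
  c8 : Cw f (6 * k + 8) (c - 2) (n - 3)
  c8b : Cw f (6 * k + 8) (c + 2) (n + k - 1)
  c10 : Cw f (6 * k + 10) c n
  lw : ∀ M R x y : ℕ, M + 1 = 6 * k → c ≤ R + 12 → R ≤ c + 12 → 2 * n ≤ x → y ≤ x → x ≤ y + 4 * k → ¬ f M R x y

/-- The purity of the OUT rows of `6 k + 2` and `6 k + 6` at `y = 2 n + 4` near the wall. -/
structure Pur (f : ℕ → ℕ → ℕ → ℕ → Prop) (k c n : ℕ) : Prop where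
  u2 : ∀ M R x y : ℕ, M = 6 * k + 2 → R = c + 2 → y = 2 * n + 4 → x % 2 = 1 → 2 * n + 2 * k ≤ x + 9 →
    x + 1 ≤ 2 * n + 2 * k → ¬ f M R x y
  u6 : ∀ M R x y : ℕ, M = 6 * k + 6 → R = c + 2 → y = 2 * n + 4 → x % 2 = 1 → 2 * n + 2 * k ≤ x + 9 →
    x + 1 ≤ 2 * n + 2 * k → ¬ f M R x y

section

variable {M L B K R x y n : ℕ}

theorem w0v (C : Cw f L B n) (hM : M = L) (hL : L % 2 = 0) (hB : (L + B) % 4 = 2) (hR : R = B) (hyx : y ≤ x)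
    (hn : x + L + 12 ≤ R + y) (hK : 2 * n + 3 ≤ x ∧ (x + 3 ≤ y + 2 * (L / 6) ∨ 2 * n + 5 ≤ x)) : f M R x y ↔
      ((x + y) % 2 = 1 ∧ x < y + 2 * (L / 6) ∧ x % 2 = 1) ∨
      ((x + y) % 2 = 1 ∧ 2 * (L / 6) + y ≤ x + 1 ∧ (x + y + 1) % 4 = (2 * (L / 6)) % 4) := by
  subst hR hM
  rw [C.w0 x y hyx hK.1 hK.2]
  exact LocZ.fst_two hL hB hyx hn

theorem w1v (C : Cw f L B n) (hM : M = L) (hL : L % 2 = 0) (h6 : 6 ≤ L) (hB : (L + B) % 4 = 2)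
    (hR : R = B + 1) (hyx : y ≤ x) (hn : x + L + 12 ≤ R + y)
    (hK : 2 * n + 4 ≤ x ∧ (x + 3 ≤ y + 2 * (L / 6) ∨ 2 * n + 7 ≤ x)) : f M R x y ↔
      ((x + y) % 2 = 0 ∧ 2 * (L / 6) + y ≤ x ∧ (x + y + 2) % 4 = (2 * (L / 6)) % 4) ∨
      (x = y ∧ x % 2 = 0) := by
  subst hR hM
  rw [C.w1 x y hyx hK.1 hK.2]
  exact LocZ.fst_three hL h6 (by omega) hyx hn

theorem w2v (C : Cw f L B n) (hM : M = L) (hL : L % 2 = 0) (hB : (L + B) % 4 = 2)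
    (hR : R = B + 2) (hyx : y ≤ x) (hn : x + L + 12 ≤ R + y)
    (hK : (x + 1 ≤ y + 2 * (L / 6) ∧ 2 * n + 4 ≤ y) ∨ (y + 2 * (L / 6) ≤ x ∧ 2 * n + 9 ≤ x)) : f M R x y ↔
      ((x + y) % 2 = 1 ∧ x < y + 2 * (L / 6) ∧ x % 2 = 0) ∨
      ((x + y) % 2 = 1 ∧ 2 * (L / 6) + y ≤ x + 1 ∧ (x + y + 3) % 4 = (2 * (L / 6)) % 4) := by
  subst hR hM
  have h : f M (B + 2) x y ↔ Fst M (B + 2) x y := by
    rcases hK with hK | hK
    · exact C.w2s x y hyx hK.1 hK.2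
    · exact C.w2x x y hK.1 hK.2
  rw [h]
  exact LocZ.fst_zero hL (by omega) hyx hn

theorem w3v (C : Cw f L B n) (hM : M = L) (hL : L % 2 = 0) (h6 : 6 ≤ L) (hB : (L + B) % 4 = 2)
    (hR : R = B + 3) (hyx : y ≤ x) (hn : x + L + 12 ≤ R + y)
    (hK : (x + 1 ≤ y + 2 * (L / 6) ∧ 2 * n + 6 ≤ y) ∨ 2 * n + 2 * (L / 6) + 6 ≤ x) : f M R x y ↔
      ((x + y) % 2 = 0 ∧ 2 * (L / 6) + y ≤ x ∧ (x + y) % 4 = (2 * (L / 6)) % 4) ∨
      (x = y ∧ x % 2 = 1) := by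
  subst hR hM
  have h : f M (B + 3) x y ↔ Fst M (B + 3) x y := by
    rcases hK with hK | hK
    · exact C.w3s x y hyx hK.1 hK.2
    · exact C.w3x x y hyx hK
  rw [h]
  exact LocZ.fst_one hL h6 (by omega) hyx hn

end

section

variable {k c N M R x y p j : ℕ}

theorem r1 (hf : Rule f) (h : NHT f k c N) (hR : R = c + 1) (hj : j ≤ 4) (hp : p ≤ 1) (hL : M + 2 * j = 6 * k + 8 + p)
    (hy : N ≤ y + 1) (h1 : y + 1 + j ≤ x) (h2 : x + 2 + j ≤ y + 2 * k) : ¬ f M R x y := by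
  subst hR
  exact h.r1 hf hj hp hL hy h1 h2

theorem r1i (hf : Rule f) (h : NHT f k c N) (hR : R = c + 1) (hj : j ≤ 5) (hp : p ≤ 1)
    (hL : M + 2 * j = 6 * k + 10 + p) (hx : N + 3 ≤ x) (h1 : y + 1 + j ≤ x) (h2 : x + 2 + j ≤ y + 2 * k) :
    ¬ f M R x y := by
  subst hR
  exact h.r1i hf hj hp hL hx h1 h2

theorem rm1 (hf : Rule f) (h : NHT f k c N) (hR : R + 1 = c) (hj : j ≤ 3) (hp : p ≤ 1) (hL : M + 2 * j = 6 * k + 6 + p)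
    (hy : N ≤ y + 5) (h1 : y + 1 + j ≤ x) (h2 : x + 2 + j ≤ y + 2 * k) : ¬ f M R x y := by
  have e : R = c - 1 := by omega
  subst e
  exact h.rm1 hf hj hp hL hy h1 h2

theorem rm1i (hf : Rule f) (h : NHT f k c N) (hR : R + 1 = c) (hj : j ≤ 4) (hp : p ≤ 1)
    (hL : M + 2 * j = 6 * k + 8 + p) (hx : N ≤ x + 3) (h1 : y + 1 + j ≤ x) (h2 : x + 2 + j ≤ y + 2 * k) :
    ¬ f M R x y := by
  have e : R = c - 1 := by omega
  subst e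
  exact h.rm1i hf hj hp hL hx h1 h2

end

end Pool.Agent.SNT.NW
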