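import Pool.Agent.SNT.NHZoneU
import Pool.Agent.SNT.NWD
import Pool.Agent.SNT.DRunI

set_option autoImplicit false
set_option synthInstance.maxSize 100000
set_option synthInstance.maxHeartbeats 4000000

/-! K0 of the layer `6 k + 4` in its IN row `c - 2` (`c` is the IN row of the top leader `6 k + 10`, `n` its lead): near the
wall (third cell above it) two adjacent columns are not both empty; the run up to the diagonal: two adjacent tips are not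
both missing. -/

namespace Pool.Agent.SNT.K0L4

open Pool.Agent.SNT Pool.Agent.SNT.Sig Pool.Agent.SNT.Loc Pool.Agent.SNT.LW Pool.Agent.SNT.NHZ Pool.Agent.SNT.DRun

variable {f : ℕ → ℕ → ℕ → ℕ → Prop}

theorem k0w4_chk : check 6 7 12 16 0 1 1 0 0
    (fun j n p q => decide ((j = 2 ∧ n = 1 ∧ (((p + q + 1) % 2 = 1 ∧ p ≤ q + 0 ∧ p % 2 = 0) ∨ ((p + q + 1) % 2 = 1 ∧ q ≤ p + 0 ∧ (p + q) % 4 = 0)))
      ∨ (j = 2 ∧ n = 3 ∧ q + 1 ≤ p ∧ (((p + q + 1) % 2 = 1 ∧ p ≤ q + 0 ∧ p % 2 = 1) ∨ ((p + q + 1) % 2 = 1 ∧ q ≤ p + 0 ∧ (p + q + 2) % 4 = 0)))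
      ∨ (j = 4 ∧ n = 2 ∧ ((p + q + 1) % 2 = 0 ∧ q + 3 ≤ p ∧ (p + q + 3) % 4 = 2))
      ∨ (j = 4 ∧ n = 3 ∧ (((p + q + 1) % 2 = 1 ∧ p ≤ q + 2 ∧ p % 2 = 0) ∨ ((p + q + 1) % 2 = 1 ∧ q + 2 ≤ p ∧ (p + q) % 4 = 2)))
      ∨ (j = 4 ∧ n = 4 ∧ ((2 ≤ p) ∨ (p ≤ q + 3)) ∧ ((p + q + 1) % 2 = 0 ∧ q + 3 ≤ p ∧ (p + q + 1) % 4 = 2))
      ∨ (j = 4 ∧ n = 5 ∧ q + 3 ≤ p ∧ 4 ≤ p ∧ (((p + q + 1) % 2 = 1 ∧ p ≤ q + 2 ∧ p % 2 = 1) ∨ ((p + q + 1) % 2 = 1 ∧ q + 2 ≤ p ∧ (p + q + 2) % 4 = 2)))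
      ∨ (j = 6 ∧ n = 1 ∧ (((p + q + 1) % 2 = 1 ∧ p ≤ q + 2 ∧ p % 2 = 0) ∨ ((p + q + 1) % 2 = 1 ∧ q + 2 ≤ p ∧ (p + q) % 4 = 2)))
      ∨ (j = 6 ∧ n = 2 ∧ ((p + q + 1) % 2 = 0 ∧ q + 3 ≤ p ∧ (p + q + 1) % 4 = 2))
      ∨ (j = 6 ∧ n = 3 ∧ ((p ≤ q + 2) ∨ (q + 3 ≤ p)) ∧ (((p + q + 1) % 2 = 1 ∧ p ≤ q + 2 ∧ p % 2 = 1) ∨ ((p + q + 1) % 2 = 1 ∧ q + 2 ≤ p ∧ (p + q + 2) % 4 = 2)))
      ∨ (j = 6 ∧ n = 5 ∧ ((4 ≤ p ∧ p ≤ q + 0) ∨ (6 ≤ p)) ∧ (((p + q + 1) % 2 = 1 ∧ p ≤ q + 2 ∧ p % 2 = 0) ∨ ((p + q + 1) % 2 = 1 ∧ q + 2 ≤ p ∧ (p + q) % 4 = 2)))))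
    (fun j n p q => decide ((j = 2 ∧ n = 1 ∧ ¬ (((p + q + 1) % 2 = 1 ∧ p ≤ q + 0 ∧ p % 2 = 0) ∨ ((p + q + 1) % 2 = 1 ∧ q ≤ p + 0 ∧ (p + q) % 4 = 0)))
      ∨ (j = 2 ∧ n = 3 ∧ q + 1 ≤ p ∧ ¬ (((p + q + 1) % 2 = 1 ∧ p ≤ q + 0 ∧ p % 2 = 1) ∨ ((p + q + 1) % 2 = 1 ∧ q ≤ p + 0 ∧ (p + q + 2) % 4 = 0)))
      ∨ (j = 4 ∧ n = 2 ∧ ¬ ((p + q + 1) % 2 = 0 ∧ q + 3 ≤ p ∧ (p + q + 3) % 4 = 2))
      ∨ (j = 4 ∧ n = 3 ∧ ¬ (((p + q + 1) % 2 = 1 ∧ p ≤ q + 2 ∧ p % 2 = 0) ∨ ((p + q + 1) % 2 = 1 ∧ q + 2 ≤ p ∧ (p + q) % 4 = 2)))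
      ∨ (j = 4 ∧ n = 4 ∧ ((2 ≤ p) ∨ (p ≤ q + 3)) ∧ ¬ ((p + q + 1) % 2 = 0 ∧ q + 3 ≤ p ∧ (p + q + 1) % 4 = 2))
      ∨ (j = 4 ∧ n = 5 ∧ q + 3 ≤ p ∧ 4 ≤ p ∧ ¬ (((p + q + 1) % 2 = 1 ∧ p ≤ q + 2 ∧ p % 2 = 1) ∨ ((p + q + 1) % 2 = 1 ∧ q + 2 ≤ p ∧ (p + q + 2) % 4 = 2)))
      ∨ (j = 6 ∧ n = 1 ∧ ¬ (((p + q + 1) % 2 = 1 ∧ p ≤ q + 2 ∧ p % 2 = 0) ∨ ((p + q + 1) % 2 = 1 ∧ q + 2 ≤ p ∧ (p + q) % 4 = 2)))
      ∨ (j = 6 ∧ n = 2 ∧ ¬ ((p + q + 1) % 2 = 0 ∧ q + 3 ≤ p ∧ (p + q + 1) % 4 = 2))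
      ∨ (j = 6 ∧ n = 3 ∧ ((p ≤ q + 2) ∨ (q + 3 ≤ p)) ∧ ¬ (((p + q + 1) % 2 = 1 ∧ p ≤ q + 2 ∧ p % 2 = 1) ∨ ((p + q + 1) % 2 = 1 ∧ q + 2 ≤ p ∧ (p + q + 2) % 4 = 2)))
      ∨ (j = 6 ∧ n = 5 ∧ ((4 ≤ p ∧ p ≤ q + 0) ∨ (6 ≤ p)) ∧ ¬ (((p + q + 1) % 2 = 1 ∧ p ≤ q + 2 ∧ p % 2 = 0) ∨ ((p + q + 1) % 2 = 1 ∧ q + 2 ≤ p ∧ (p + q) % 4 = 2)))
      ∨ (j = 1 ∧ n = 4 ∧ 3 ≤ p ∧ p + 3 ≤ q ∧ q ≤ p + 12)
      ∨ (j = 3 ∧ n = 4 ∧ 3 ≤ p ∧ p + 2 ≤ q)
      ∨ (j = 1 ∧ n = 5 ∧ 3 ≤ p ∧ p + 3 ≤ q ∧ q ≤ p + 12)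
      ∨ (j = 3 ∧ n = 5 ∧ 3 ≤ p ∧ p + 2 ≤ q)
      ∨ (j = 3 ∧ n = 5 ∧ 5 ≤ p ∧ p ≤ q + 0)
      ∨ (j = 2 ∧ n = 5 ∧ p = 4 ∧ q = 8)
      ∨ (j = 2 ∧ n = 5 ∧ p = 6 ∧ q = 10)))
    314
    0x9348306f50009fd7207540009fc52068b800933d209348306f50009fd7207540009fc5206938006938406eb8306ec0009ec6207430009eb5206e200098a5207528009f34a0753800753840f3a8309f28009f28409338309938009f3a2044b00044b04092b8303e30003e304068a80067a80092ac20922d209350306f50009fd7207540009fc5206f30009934206828006828409338303eb0003eb0409340306f40006f404098a03074a80074a84093d0306fd0006fd0409348306f48006f484099b03099b80099b840922830982800982840f2a8309820009820409230306e30006e3040f3b8309930009930409240306e40006e40409338303eb8003eb840f32830c93000c93040f3b83099300099b12075b80075b840f3283098a00098a040f4383099b00099b0409238306e38006e38409eb830443000443040922830683000923ca068400068404093b83099c00099c040c9403098b00098b04092a8306eb0006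eb04093b8306fb8006fb840f32830c93000f33ca0c94000c940409338306f38006f384093c8306fc8006fc8409338309938009f42a044b80044b84093b8306fc0006fc0409228306e28006e28406328006218008d2c208c1c20b1a800b09800b833a0b723a11e40011e30011d40011d30011d20011c30011c2000c42800c31800be5000be4000be3000bd5000bd4000bd3000bd2000bc4000bc3000bc2000b8b000b7a0006920006810005da8005d50005d40005d30005c98005c50005c40005c30005c20005b88005b40005b30005b20005b10011e40f11e30f11d40f11d30f11d20f11c30f11c20f0c9b070c9a070c8c070c8b070c8a070c43870c43070c428f0c3b870c3b070c3a870c3a070c34070c33870c33070c32870c32070c318f0c2c070c2b870c2b070c2a870c2a070c22870c22070be50f0be40f0be30f0bd50f0bd40f0bd30f0bd20f0bc40f0bc30f0bc20f0b8b0f0b83070b82870b7b070b7a870b7a0f0b72070b71870b6a070b69870b1b070b0a0709fd0709fc8709fc0709fb8709f50709f48709f40709f38709f30709ec0709eb8709eb0709ea8709e40709e38709e307099d07099c87099507099487099407098c07098b87098407098387098307075d07075c07075507074c07074b07074407069d07069c07069b07069a8706928706920f068d07068c07068b07068a0706898706818706810f067c07067b07067a0705da8f05d50f05d40f05d30f05d28705d20705ca8705ca0705c98f05c50f05c40f05c30f05c20f05c18705c10705b98705b90705b88f05b40f05b30f05b20f05b10f044387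 = true := by
  decide +kernel

theorem k0_aux (hf : Rule f) {k c n X : ℕ}
    (T : NHT f k c (2 * n)) (U : NHU f k c (2 * n)) (C4a : Cyc f (6 * k + 4) (c - 6) (2 * (n - 7) + 2))
    (C6a : Cyc f (6 * k + 6) (c - 8) (2 * (n - (k + 7)) + 2)) (C6 : Cyc f (6 * k + 6) (c - 4) (2 * (n - 5) + 2))
    (C8a : Cw f (6 * k + 8) (c - 6) (n - (k + 5))) (C8 : Cw f (6 * k + 8) (c - 2) (n - 3))
    (hX : 2 * n ≤ X + 3) (ho : X % 2 = 1)
    (h1 : ∀ {M R x y : ℕ}, M = 6 * k + 4 → R + 2 = c → x = X → y + 2 * k = X + 5 → ¬ f M R x y)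
    (h2 : ∀ {M R x y : ℕ}, M = 6 * k + 4 → R + 2 = c → x = X + 2 → y + 2 * k = X + 7 → ¬ f M R x y) : False := by
  have hk := T.hk
  have hc := T.hc
  have h4 := T.h4
  have hb := T.hb
  have hN := T.hN2
  obtain ⟨a0, ha0⟩ : ∃ z, z = 6 * k + 2 := ⟨_, rfl⟩
  obtain ⟨b0, hb0⟩ : ∃ z, z + 7 = c := ⟨c - 7, by omega⟩
  obtain ⟨x0, hx0⟩ : ∃ z, z + 4 = X := ⟨X - 4, by omega⟩
  obtain ⟨y0, hy0⟩ : ∃ z, z + 2 * k + 20 = X + 17 := ⟨X + 17 - 2 * k - 20, by omega⟩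
  refine check_sound hf (a0 := a0) (b0 := b0) (x0 := x0) (y0 := y0) k0w4_chk
    ⟨fun h => absurd h (by decide), fun h => absurd h (by decide), fun h => absurd h (by decide), by omega, by omega,
      by omega, by omega⟩ ?_ ?_
  · intro j m p q hr h
    obtain ⟨-, -, -, -, hp1, hp2, hq1, hq2⟩ := hr
    replace h := of_decide_eq_true h
    rcases h with h | h | h | h | h | h | h | h | h | h
    · obtain ⟨rfl, rfl, h⟩ := h
      exact (WrapC.v0 C4a (by omega) (by omega) (by omega) (by omega) (by omega) (by omega) (by omega)).mpr (by omega)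
    · obtain ⟨rfl, rfl, h⟩ := h
      exact (WrapC.v2 C4a (by omega) (by omega) (by omega) (by omega) (by omega) (by omega) (by omega)).mpr (by omega)
    · obtain ⟨rfl, rfl, h⟩ := h
      exact (WrapC.v3 C6a (by omega) (by omega) (by omega) (by omega) (by omega) (by omega) (by omega) (by omega)).mpr (by omega)
    · obtain ⟨rfl, rfl, h⟩ := h
      exact (WrapC.v0 C6 (by omega) (by omega) (by omega) (by omega) (by omega) (by omega) (by omega)).mpr (by omega)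
    · obtain ⟨rfl, rfl, h⟩ := h
      exact (WrapC.v1 C6 (by omega) (by omega) (by omega) (by omega) (by omega) (by omega) (by omega) (by omega)).mpr (by omega)
    · obtain ⟨rfl, rfl, h⟩ := h
      exact (WrapC.v2 C6 (by omega) (by omega) (by omega) (by omega) (by omega) (by omega) (by omega)).mpr (by omega)
    · obtain ⟨rfl, rfl, h⟩ := h
      exact (NW.w0v C8a (by omega) (by omega) (by omega) (by omega) (by omega) (by omega) (by omega)).mpr (by omega)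
    · obtain ⟨rfl, rfl, h⟩ := h
      exact (NW.w1v C8a (by omega) (by omega) (by omega) (by omega) (by omega) (by omega) (by omega) (by omega)).mpr (by omega)
    · obtain ⟨rfl, rfl, h⟩ := h
      exact (NW.w2v C8a (by omega) (by omega) (by omega) (by omega) (by omega) (by omega) (by omega)).mpr (by omega)
    · obtain ⟨rfl, rfl, h⟩ := h
      exact (NW.w0v C8 (by omega) (by omega) (by omega) (by omega) (by omega) (by omega) (by omega)).mpr (by omega)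
  · intro j m p q hr h
    obtain ⟨-, -, -, -, hp1, hp2, hq1, hq2⟩ := hr
    replace h := of_decide_eq_true h
    rcases h with h | h | h | h | h | h | h | h | h | h | h | h | h | h | h | h | h
    · obtain ⟨rfl, rfl, h⟩ := h
      exact mt (WrapC.v0 C4a (by omega) (by omega) (by omega) (by omega) (by omega) (by omega) (by omega)).mp (by omega)
    · obtain ⟨rfl, rfl, h⟩ := h
      exact mt (WrapC.v2 C4a (by omega) (by omega) (by omega) (by omega) (by omega) (by omega) (by omega)).mp (by omega)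
    · obtain ⟨rfl, rfl, h⟩ := h
      exact mt (WrapC.v3 C6a (by omega) (by omega) (by omega) (by omega) (by omega) (by omega) (by omega) (by omega)).mp (by omega)
    · obtain ⟨rfl, rfl, h⟩ := h
      exact mt (WrapC.v0 C6 (by omega) (by omega) (by omega) (by omega) (by omega) (by omega) (by omega)).mp (by omega)
    · obtain ⟨rfl, rfl, h⟩ := h
      exact mt (WrapC.v1 C6 (by omega) (by omega) (by omega) (by omega) (by omega) (by omega) (by omega) (by omega)).mp (by omega)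
    · obtain ⟨rfl, rfl, h⟩ := h
      exact mt (WrapC.v2 C6 (by omega) (by omega) (by omega) (by omega) (by omega) (by omega) (by omega)).mp (by omega)
    · obtain ⟨rfl, rfl, h⟩ := h
      exact mt (NW.w0v C8a (by omega) (by omega) (by omega) (by omega) (by omega) (by omega) (by omega)).mp (by omega)
    · obtain ⟨rfl, rfl, h⟩ := h
      exact mt (NW.w1v C8a (by omega) (by omega) (by omega) (by omega) (by omega) (by omega) (by omega) (by omega)).mp (by omega)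
    · obtain ⟨rfl, rfl, h⟩ := h
      exact mt (NW.w2v C8a (by omega) (by omega) (by omega) (by omega) (by omega) (by omega) (by omega)).mp (by omega)
    · obtain ⟨rfl, rfl, h⟩ := h
      exact mt (NW.w0v C8 (by omega) (by omega) (by omega) (by omega) (by omega) (by omega) (by omega)).mp (by omega)
    · obtain ⟨rfl, rfl, h⟩ := h
      exact NHT.pmi hf T (j := 2) (by omega) (by omega) (by omega) (by omega) (by omega) (by omega)
    · obtain ⟨rfl, rfl, h⟩ := h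
      exact NHT.pmi hf T (j := 1) (by omega) (by omega) (by omega) (by omega) (by omega) (by omega)
    · obtain ⟨rfl, rfl, h⟩ := h
      exact NHT.pmi hf T (j := 2) (by omega) (by omega) (by omega) (by omega) (by omega) (by omega)
    · obtain ⟨rfl, rfl, h⟩ := h
      exact NHT.pmi hf T (j := 1) (by omega) (by omega) (by omega) (by omega) (by omega) (by omega)
    · obtain ⟨rfl, rfl, h⟩ := h
      exact NHU.pmi hf U (j := 1) (by omega) (by omega) (by omega) (by omega) (by omega) (by omega)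
    · obtain ⟨rfl, rfl, rfl, rfl⟩ := h
      exact h1 (by omega) (by omega) (by omega) (by omega)
    · obtain ⟨rfl, rfl, rfl, rfl⟩ := h
      exact h2 (by omega) (by omega) (by omega) (by omega)

/-- **K0 of the layer `6 k + 4`** in the row `c - 2`: the third cells above the wall of two adjacent columns are not
both zero. -/
theorem k0_L4 (hf : Rule f) {k c n R x y : ℕ}
    (T : NHT f k c (2 * n)) (U : NHU f k c (2 * n)) (C4a : Cyc f (6 * k + 4) (c - 6) (2 * (n - 7) + 2))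
    (C6a : Cyc f (6 * k + 6) (c - 8) (2 * (n - (k + 7)) + 2)) (C6 : Cyc f (6 * k + 6) (c - 4) (2 * (n - 5) + 2))
    (C8a : Cw f (6 * k + 8) (c - 6) (n - (k + 5))) (C8 : Cw f (6 * k + 8) (c - 2) (n - 3))
    (hR : R + 2 = c) (hx : 2 * n ≤ x + 3) (ho : x % 2 = 1) (hy : y + 2 * k = x + 5) :
    f (6 * k + 4) R x y ∨ f (6 * k + 4) R (x + 2) (y + 2) := by
  by_contra hc
  have h1' : ¬ f (6 * k + 4) R x y := fun h => hc (Or.inl h)
  have h2' : ¬ f (6 * k + 4) R (x + 2) (y + 2) := fun h => hc (Or.inr h)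
  refine k0_aux hf T U C4a C6a C6 C8a C8 hx ho ?_ ?_
  · intro M' R' x' y' e1 e2 e3 e4 h
    exact h1' (mv h (by omega) (by omega) (by omega) (by omega))
  · intro M' R' x' y' e1 e2 e3 e4 h
    exact h2' (mv h (by omega) (by omega) (by omega) (by omega))

/-- every window of the layer `6 k + 4` in the row `c - 2` is covered, up to the diagonal -/
theorem c4 (hf : Rule f) {k c n x y : ℕ} (T : NHT f k c (2 * n)) (C4a : Cyc f (6 * k + 4) (c - 6) (2 * (n - 7) + 2))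
    (C6 : Cyc f (6 * k + 6) (c - 4) (2 * (n - 5) + 2)) (hX : 2 * n ≤ x + 4) (h1 : y + 2 ≤ x)
    (h2 : x + 4 ≤ y + 2 * k) : Cov f (6 * k + 4) (c - 2) x y := by
  have hb := T.hb
  have hN2 := T.hN2
  have hk := T.hk
  have h4 := T.h4
  rcases Nat.lt_or_ge (y + 2) x with h3 | h3
  · exact T.cIn hf (t := 4) (j := 2) (by omega) (by omega) (by omega) (by omega) (by omega) h1 (by omega) (by omega)
  · have h5 := cov_last hf (A := 6 * k + 4) (b := c - 4) (D := 2 * k) (D' := 2 * k) (Y := 2 * (n - 5) + 4)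
      (Y' := 2 * (n - 7) + 4) (x := x) (y := y) (by omega) (by omega)
      (fun u v a1 a2 a3 a4 a5 => by
        have e1 : 6 * k + 4 + 2 = 6 * k + 6 := by omega
        have e2 : c - 4 + 2 = c - 2 := by omega
        rw [e1, e2]
        exact (out_cyc C6 (by omega) (by omega) (by omega) (by omega) (by omega) a2 (by omega)).2 ⟨a4, a5⟩)
      (fun u v a1 a2 a3 a4 a5 => (out_cyc C4a (by omega) (by omega) (by omega) (by omega) (by omega) a2 (by omega)).2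
        ⟨a4, a5⟩) (by omega) (by omega) (by omega) (by omega) (by omega)
    have e2 : c - 4 + 2 = c - 2 := by omega
    rwa [e2] at h5

/-- the run in the layer `6 k + 4`, row `c - 2`, up to the tip -/
theorem run4 (hf : Rule f) {k c n x y0 : ℕ} (T : NHT f k c (2 * n)) (C4a : Cyc f (6 * k + 4) (c - 6) (2 * (n - 7) + 2))
    (C6 : Cyc f (6 * k + 6) (c - 4) (2 * (n - 5) + 2)) (hx : x % 2 = 1) (hy : y0 % 2 = 0) (hX : 2 * n ≤ x + 4)
    (hw : x + 3 ≤ y0 + 2 * k) (h0 : f (6 * k + 4) (c - 2) x y0) :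
    ∀ y, y0 ≤ y → y + 1 ≤ x → y % 2 = 0 → f (6 * k + 4) (c - 2) x y := by
  have hc := T.hc
  have hb := T.hb
  intro y h1 h2 h3
  exact col_run hf (y1 := x - 1) (by omega) (by omega) hx hy
    (fun z h4 h5 h6 => c4 hf T C4a C6 hX (by omega) (by omega)) h0 y h1 (by omega) h3

/-- **No two adjacent tips of the layer `6 k + 4` in the row `c - 2` are missing.** -/
theorem tip4 (hf : Rule f) {k c n x : ℕ}
    (T : NHT f k c (2 * n)) (U : NHU f k c (2 * n)) (C4a : Cyc f (6 * k + 4) (c - 6) (2 * (n - 7) + 2))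
    (C6a : Cyc f (6 * k + 6) (c - 8) (2 * (n - (k + 7)) + 2)) (C6 : Cyc f (6 * k + 6) (c - 4) (2 * (n - 5) + 2))
    (C8a : Cw f (6 * k + 8) (c - 6) (n - (k + 5))) (C8 : Cw f (6 * k + 8) (c - 2) (n - 3))
    (hx : x % 2 = 1) (hX : 2 * n ≤ x + 3) :
    f (6 * k + 4) (c - 2) x (x - 1) ∨ f (6 * k + 4) (c - 2) (x + 2) (x + 1) := by
  have hb := T.hb
  have hN2 := T.hN2
  have hk := T.hk
  obtain ⟨y, hy⟩ : ∃ y, y + 2 * k = x + 5 := ⟨x + 5 - 2 * k, by omega⟩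
  rcases k0_L4 hf T U C4a C6a C6 C8a C8 (R := c - 2) (by omega) hX hx hy with h | h
  · exact Or.inl (run4 hf T C4a C6 hx (by omega) (by omega) (by omega) h _ (by omega) (by omega) (by omega))
  · exact Or.inr (run4 hf T C4a C6 (by omega) (by omega) (by omega) (by omega) h _ (by omega) (by omega) (by omega))

/-- The same over the window of the leader `6 k + 10`. -/
theorem tip4_stack (hf : Rule f) {k b m x : ℕ} (hs : Side k b m) (S : Stack6 f k b m 0 0 0 0 0 1) (hx : x % 2 = 1)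
    (hX : 2 * (m + 9 + (k + 2) * 4) ≤ x + 3) :
    f (6 * k + 4) (b + 20) x (x - 1) ∨ f (6 * k + 4) (b + 20) (x + 2) (x + 1) := by
  have T := NHT.of_stack hs S
  have U := NHU.of_stack hs S
  obtain ⟨hk, hb, h4, hb2, hm⟩ := hs
  have h := tip4 hf (c := b + 22) (n := m + 9 + (k + 2) * 4) (x := x) T U ?_ ?_ ?_ ?_ ?_ hx hX
  · rwa [show b + 22 - 2 = b + 20 by omega] at h
  · rw [show b + 22 - 6 = b + 4 * 4 by omega, show m + 9 + (k + 2) * 4 - 7 = m + 2 + 0 + (k + 2) * 4 by omega]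
    exact S.l4 4
  · rw [show b + 22 - 8 = b + 2 + 4 * 3 by omega,
      show m + 9 + (k + 2) * 4 - (k + 7) = m + 4 + 0 + (k + 2) * 3 by omega]
    exact S.l6 3
  · rw [show b + 22 - 4 = b + 2 + 4 * 4 by omega, show m + 9 + (k + 2) * 4 - 5 = m + 4 + 0 + (k + 2) * 4 by omega]
    exact S.l6 4
  · rw [show b + 22 - 6 = b + 4 + 4 * 3 by omega,
      show m + 9 + (k + 2) * 4 - (k + 5) = m + 6 + 0 + (k + 2) * 3 by omega]
    exact S.l8 3
  · rw [show b + 22 - 2 = b + 4 + 4 * 4 by omega, show m + 9 + (k + 2) * 4 - 3 = m + 6 + 0 + (k + 2) * 4 by omega]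
    exact S.l8 4

end Pool.Agent.SNT.K0L4
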