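import Pool.Agent.SNT.Loc
import Pool.Agent.SNT.NHZoneU

set_option autoImplicit false
set_option synthInstance.maxSize 100000
set_option maxRecDepth 100000
set_option linter.unusedVariables false

/-! Near the wall, in the IN row of the top leader, two adjacent columns of the layer `6 k + 6` are not both
empty at the third cell above the wall. -/

namespace Pool.Agent.SNT.Loc

theorem k0_L6_cert_chk : check 5 6 9 15 1 0 0 1 0
    (fun j n p q => decide ((j = 1 ∧ n = 1 ∧ p = 1 ∧ q = 2) ∨ (j = 1 ∧ n = 1 ∧ p = 3 ∧ q = 4) ∨ (j = 1 ∧ n = 1 ∧ p = 5 ∧ q = 6) ∨ (j = 1 ∧ n = 1 ∧ p = 7 ∧ q = 8) ∨ (j = 1 ∧ n = 2 ∧ p = 3 ∧ q = 3) ∨ (j = 1 ∧ n = 2 ∧ p = 5 ∧ q = 5) ∨ (j = 3 ∧ n = 1 ∧ p = 2 ∧ q = 3) ∨ (j = 3 ∧ n = 2 ∧ p = 1 ∧ q = 7) ∨ (j = 3 ∧ n = 2 ∧ p = 3 ∧ q = 9) ∨ (j = 3 ∧ n = 2 ∧ p = 3 ∧ q = 7) ∨ (j = 3 ∧ n = 2 ∧ p = 5 ∧ q = 11) ∨ (j = 3 ∧ n = 2 ∧ p = 5 ∧ q = 9) ∨ (j = 3 ∧ n = 2 ∧ p = 5 ∧ q = 7) ∨ (j = 3 ∧ n = 2 ∧ p = 7 ∧ q = 11) ∨ (j = 3 ∧ n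 = 2 ∧ p = 7 ∧ q = 9) ∨ (j = 3 ∧ n = 3 ∧ p = 5 ∧ q = 6) ∨ (j = 3 ∧ n = 4 ∧ p = 3 ∧ q = 3) ∨ (j = 3 ∧ n = 4 ∧ p = 7 ∧ q = 7) ∨ (j = 5 ∧ n = 2 ∧ p = 4 ∧ q = 6) ∨ (j = 5 ∧ n = 2 ∧ p = 6 ∧ q = 10) ∨ (j = 5 ∧ n = 4 ∧ p = 3 ∧ q = 9) ∨ (j = 5 ∧ n = 4 ∧ p = 3 ∧ q = 7) ∨ (j = 5 ∧ n = 4 ∧ p = 5 ∧ q = 11) ∨ (j = 5 ∧ n = 4 ∧ p = 5 ∧ q = 7) ∨ (j = 5 ∧ n = 4 ∧ p = 7 ∧ q = 13) ∨ (j = 5 ∧ n = 4 ∧ p = 7 ∧ q = 11) ∨ (j = 5 ∧ n = 4 ∧ p = 7 ∧ q = 9)))
    (fun j n p q => decide ((j = 1 ∧ n = 1 ∧ p = 2 ∧ q = 5) ∨ (j = 1 ∧ n = 1 ∧ p = 4 ∧ q = 8) ∨ (j = 1 ∧ n = 1 ∧ p = 4 ∧ q = 7) ∨ (j = 1 ∧ n = 1 ∧ p = 5 ∧ q = 8) ∨ (j = 1 ∧ n = 3 ∧ p = 3 ∧ q = 8) ∨ (j = 1 ∧ n = 3 ∧ p = 3 ∧ q = 7) ∨ (j = 1 ∧ n = 3 ∧ p = 5 ∧ q = 10) ∨ (j = 1 ∧ n = 3 ∧ p = 6 ∧ q = 10) ∨ (j = 1 ∧ n = 4 ∧ p = 3 ∧ q = 9) ∨ (j = 1 ∧ n = 4 ∧ p = 5 ∧ q = 11) ∨ (j = 2 ∧ n = 4 ∧ p = 3 ∧ q = 9) ∨ (j = 2 ∧ n = 4 ∧ p = 5 ∧ q = 11)))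
    936
    0x4610302cc8004624a079c83046a80046a81023f00041f72079c83046a80046a8102828002828402cd0002cd04028000041542079c83046a80046a81023f00041f72079c83046a80046a8102828002828402cd000462420281000459e2027880027884040f03040f80045ab202bd0002bd04079c83046a80046a8102cd00046242028100045a6a027200023f00040f5a041f72027a80027a84045a83027280027284024e000426e2046103028000041542040f03027a80045af2040f03040f80040f8402bd000459d202788002788402cc8004624a079c83046a80046a8102cd0002cd0402468002468402cc850281000469da0416ca02820002820404698302c50002c50404698302818002818404250302d40002d40404250302908002908403da8302890002890403e20302910002910403da8302898002898403da8302460002460406068005f780079bc207945204610302cc8004624a079c83046a80046a81028280041f52079c83046a80046a81023f00023f04024e000426e2079c83046a80046a8102468002468402cd0002cd04028000041542079c83046a80046a81028280041f52079c83046a80046a81023f00023f04024e000426e2079c83046a80046a8102468002468402cd0004624202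81000459e2027880027884040f03027a80045af202bd0002bd04045a8302728002728402cc850281000469da0416ca02820002820404698302c50002c50404698302818002818404250302d40002d40404250302908002908403da8302890002890403e20302910002910403da8302898002898403da8302460002460405f000078cd205ff0005ff04041503028080028084078383040d80040d84079b8306070006070403ca8302360002360405e000077cd205fe0005ef00079342078bd205a203073780040d80073f9a05aada04610302cc8004624a041f03028a80046af2041f03041f80041f84024e000426e2046a8302468002468402cd0002cd04028000041542041f03028a80046af2041f03041f80041f84024e000426e2046a8302468002468402cd000462420281000459e2027880027884040f03027a80045af202bd0002bd04045a8302728002728404698302818002818404698302c50002c50404250302d40002d40403da8302890002890404250302908002908403e20302910002910403da83028980028984060700060600079c42079bca079c83046a80046a8104598302788004155204610302800002800402bd80045ada02cc800469da02d50002d504029000042542079c83046a80046a8102cd00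0469d2028880028884028280041f52040f03027a80045af202bd000459d202788004155204610302800002800402cc800469da079c83046a80046a8102cd0002cd04029000042542079c83046a80046a8102cd000469d2028880028884023f00023f04024e000426e2040f03027a80045af202bd000459d202788004155204610302800002800402cc800469da079c83046a80046a8102cd0002cd04029000042542079c83046a80046a8102cd000469d202888002888402468002468403da8302890002890404250302908002908403e20302910002910403da8302898002898405c200079b6a06068006068403da83024600024604079b8304698004698102900004254202458002810003dac20416ca028200028204041503028080028084077b83059a8005a21207828007830a040d80040d8405e68304058005a252077b00077b0405a20305e60005e604055f00055f0405f780078cc205e80005e7000784d2077cca04610302cc8004624a079c83046a80046a81028280041f52079c83046a80046a81023f00023f04024e000426e2079c83046a80046a8102468002468402cd0002cd04028000041542079c83046a80046a81028280041f52079c83046a80046a81023f00023f04024e000426e2079c83046a80046a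8102468002468402cd000462420281000459e2027880027884040f03027a80045af202bd0002bd04045a8302728002728404698302818002818404698302c50002c504029000042542079c83046a80046a81028280041f52079c83046a80046a81023f00023f04024e000426e2079c83046a80046a8102468002468402cd000469d202888002888403da8302890002890404698302900004254202458002810003dac20416ca02820002820403e20302910002910403da8302898002898403da8302460002460405ff0005f000079442078cd204610302cc8004624a041f03028a80046af2041f03041f80041f84024e000426e2046a8302468002468402cd0002cd04028000041542041f03028a80046af2041f03041f80041f84024e000426e2046a8302468002468402cd000462420281000459e2027880027884040f03040f80045ab202bd0002bd0405f003027a80027a8404610302cc8004624a041f03028a80046af2041f03041f80041f84024e000426e2046a8302468002468402cd0002cd04028000041542041f03028a80046af2041f03041f80041f84024e000426e2046a8302468002468402cd000462420281000459e2027880027884040f03027a80045af202bd0002bd0405e88005e884045a8302728002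728404698302c50002c50404698302818002818404250302d40002d40403da8302890002890404250302908002908403e20302910002910403da8302898002898403da83024600024604060700060600079c42079bca040f03040f80045ab202bd000459d202788004155204610302800002800402cc800469da079c83046a80046a8102cd0002cd04029000042542079c83046a80046a8102cd000469d2028880028884028280041f52046103028000041542040f03027a80045af2040f03040f80040f8402bd000459d202788002788402cc800469da079c83046a80046a8102cd0002cd04029000042542079c83046a80046a8102cd000469d2028880028884023f00023f04024e000426e2046103028000041542040f03027a80045af2040f03040f80040f8402bd000459d202788002788402cc800469da079c83046a80046a8102cd0002cd04029000042542079c83046a80046a8102cd000469d202888002888402468002468403da8302890002890404250302908002908403e20302910002910403da8302898002898403da8302460002460405c200079b6a060680060684079b8304698004698102900004254202458002810003dac20416ca02820002820405f78005f784041503028080028084078383040d80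040d8405e78005e78407848305e00005e00403ca8302360002360405f68005f68406f403037f00037f0403c20303c28003c284078383040e00040e04077b8305e700059a800783d205a212040d8005aa52073f00073f0405a20305a28005a28408cd8306a90006a90408cd8306ec8006ec84079303041d80041d84078b8305f70005f70408d603088a00088a0408930008de3209210009291a078b83078c00078c0408dd0308dd8008dd8409320009310009300009220009200009120009110008a20008910006050005e50005b200058000057f00057100057000056f0005610005600005510005130002440002340002110002010001f10001e10009320f09310f09300f09288709220f09200f09120f09110f08a20f08928708918708910f08828706050f05ff8705fe8705fd8705ef8705ee8705ed8705e50f05df8705de8705b20f05800f057f0f05710f05700f056f0f05668705610f05600f05578705568705510f05130f04630704530702d58702d48702ce0702c58702c48702be07029187028a07027a07027987024d87024c8702440f023e87023d87023c8702340f022e87022d87022c8702110f02020702010f01fa8701fa0701f10f01ea0701e10f = true := by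
  decide +kernel

theorem k0_L6_cert {f : ℕ → ℕ → ℕ → ℕ → Prop} (hf : Rule f) {a0 b0 x0 y0 : ℕ}
    (ha : a0 % 2 = 1) (hb : b0 % 2 = 0) (hx : x0 % 2 = 0) (hy : y0 % 2 = 1)
    (h1 : ∀ j n p q : ℕ, InR 5 6 9 15 1 j n p q →
      ((j = 1 ∧ n = 1 ∧ p = 1 ∧ q = 2) ∨ (j = 1 ∧ n = 1 ∧ p = 3 ∧ q = 4) ∨ (j = 1 ∧ n = 1 ∧ p = 5 ∧ q = 6) ∨ (j = 1 ∧ n = 1 ∧ p = 7 ∧ q = 8) ∨ (j = 1 ∧ n = 2 ∧ p = 3 ∧ q = 3) ∨ (j = 1 ∧ n = 2 ∧ p = 5 ∧ q = 5) ∨ (j = 3 ∧ n = 1 ∧ p = 2 ∧ q = 3) ∨ (j = 3 ∧ n = 2 ∧ p = 1 ∧ q = 7) ∨ (j = 3 ∧ n = 2 ∧ p = 3 ∧ q = 9) ∨ (j = 3 ∧ n = 2 ∧ p = 3 ∧ q = 7) ∨ (j = 3 ∧ n = 2 ∧ p = 5 ∧ q = 11) ∨ (j = 3 ∧ n = 2 ∧ p = 5 ∧ q = 9) ∨ (j = 3 ∧ n = 2 ∧ p = 5 ∧ q = 7) ∨ (j = 3 ∧ n = 2 ∧ p = 7 ∧ q = 11) ∨ (j = 3 ∧ n = 2 ∧ p = 7 ∧ q = 9) ∨ (j = 3 ∧ n = 3 ∧ p = 5 ∧ q = 6) ∨ (j = 3 ∧ n = 4 ∧ p = 3 ∧ q = 3) ∨ (j = 3 ∧ n = 4 ∧ p = 7 ∧ q = 7) ∨ (j = 5 ∧ n = 2 ∧ p = 4 ∧ q = 6) ∨ (j = 5 ∧ n = 2 ∧ p = 6 ∧ q = 10) ∨ (j = 5 ∧ n = 4 ∧ p = 3 ∧ q = 9) ∨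 (j = 5 ∧ n = 4 ∧ p = 3 ∧ q = 7) ∨ (j = 5 ∧ n = 4 ∧ p = 5 ∧ q = 11) ∨ (j = 5 ∧ n = 4 ∧ p = 5 ∧ q = 7) ∨ (j = 5 ∧ n = 4 ∧ p = 7 ∧ q = 13) ∨ (j = 5 ∧ n = 4 ∧ p = 7 ∧ q = 11) ∨ (j = 5 ∧ n = 4 ∧ p = 7 ∧ q = 9)) →
      f (a0 + j) (b0 + n) (x0 + p) (y0 + q))
    (h0 : ∀ j n p q : ℕ, InR 5 6 9 15 1 j n p q →
      ((j = 1 ∧ n = 1 ∧ p = 2 ∧ q = 5) ∨ (j = 1 ∧ n = 1 ∧ p = 4 ∧ q = 8) ∨ (j = 1 ∧ n = 1 ∧ p = 4 ∧ q = 7) ∨ (j = 1 ∧ n = 1 ∧ p = 5 ∧ q = 8) ∨ (j = 1 ∧ n = 3 ∧ p = 3 ∧ q = 8) ∨ (j = 1 ∧ n = 3 ∧ p = 3 ∧ q = 7) ∨ (j = 1 ∧ n = 3 ∧ p = 5 ∧ q = 10) ∨ (j = 1 ∧ n = 3 ∧ p = 6 ∧ q = 10) ∨ (j = 1 ∧ n = 4 ∧ p = 3 ∧ q = 9) ∨ (j = 1 ∧ n = 4 ∧ p = 5 ∧ q = 11) ∨ (j = 2 ∧ n = 4 ∧ p = 3 ∧ q = 9) ∨ (j = 2 ∧ n = 4 ∧ p = 5 ∧ q = 11)) →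
      ¬ f (a0 + j) (b0 + n) (x0 + p) (y0 + q)) : False :=
  check_sound hf k0_L6_cert_chk
    ⟨fun h => absurd h (by decide), fun h => absurd h (by decide),
      fun h => absurd h (by decide), ha, hb, hx, hy⟩
    (fun j n p q hr h => h1 j n p q hr (of_decide_eq_true h))
    (fun j n p q hr h => h0 j n p q hr (of_decide_eq_true h))

end Pool.Agent.SNT.Loc

namespace Pool.Agent.SNT.NHZ

open Pool.Agent.SNT Pool.Agent.SNT.Sig Pool.Agent.SNT.ZoneT Pool.Agent.SNT.ZoneI Pool.Agent.SNT.LW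

variable {f : ℕ → ℕ → ℕ → ℕ → Prop} {k b m : ℕ}

/-- **K0 of the layer `6 k + 6`** in the IN row `b + 22` of the top leader: the third cells above the wall of two
adjacent columns are not both zero. -/
theorem k0_L6 (hf : Rule f) (hs : Side k b m) (S : Stack6 f k b m 0 0 0 0 0 1) {R x y : ℕ} (hR : R = b + 22)
    (hx : 2 * (m + 9 + (k + 2) * 4) + 3 ≤ x) (ho : x % 2 = 1) (hy : y + 2 * k = x + 3) :
    f (6 * k + 6) R x y ∨ f (6 * k + 6) R (x + 2) (y + 2) := by
  by_contra hc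
  have h1' : ¬ f (6 * k + 6) R x y := fun h => hc (Or.inl h)
  have h2' : ¬ f (6 * k + 6) R (x + 2) (y + 2) := fun h => hc (Or.inr h)
  clear hc
  have Z := NHT.of_stack hs S
  have U := NHU.of_stack hs S
  obtain ⟨hk, hb, h4, hb2, hm⟩ := hs
  subst hR
  obtain rfl : x = y + 2 * k - 3 := by omega
  have y6_4 : Lay (6 * k + 6) (b + 2 + 4 * 4) (k + 1) := ⟨by omega, by omega, by omega, by omega⟩
  have y8_3 : Lay (6 * k + 8) (b + 4 + 4 * 3) (k + 1) := ⟨by omega, by omega, by omega, by omega⟩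
  have y8_4 : Lay (6 * k + 8) (b + 4 + 4 * 4) (k + 1) := ⟨by omega, by omega, by omega, by omega⟩
  have y10_3 : Lay (6 * k + 10) (b + 6 + 4 * 3) (k + 1) := ⟨by omega, by omega, by omega, by omega⟩
  have y10_4 : Lay (6 * k + 10) (b + 6 + 4 * 4) (k + 1) := ⟨by omega, by omega, by omega, by omega⟩
  refine Loc.k0_L6_cert hf (a0 := 6 * k + 5) (b0 := b + 18) (x0 := y + 2 * k - 6) (y0 := y - 9) (by omega) (by omega)
    (by omega) (by omega) ?_ ?_
  · intro j n p q _ hx
    rcases hx with ⟨rfl, rfl, rfl, rfl⟩ | ⟨rfl, rfl, rfl, rfl⟩ | ⟨rfl, rfl, rfl, rfl⟩ | ⟨rfl, rfl, rfl, rfl⟩ | ⟨rfl, rfl, rfl, rfl⟩ | ⟨rfl, rfl, rfl, rfl⟩ |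
      ⟨rfl, rfl, rfl, rfl⟩ | ⟨rfl, rfl, rfl, rfl⟩ | ⟨rfl, rfl, rfl, rfl⟩ | ⟨rfl, rfl, rfl, rfl⟩ | ⟨rfl, rfl, rfl, rfl⟩ | ⟨rfl, rfl, rfl, rfl⟩ |
      ⟨rfl, rfl, rfl, rfl⟩ | ⟨rfl, rfl, rfl, rfl⟩ | ⟨rfl, rfl, rfl, rfl⟩ | ⟨rfl, rfl, rfl, rfl⟩ | ⟨rfl, rfl, rfl, rfl⟩ | ⟨rfl, rfl, rfl, rfl⟩ |
      ⟨rfl, rfl, rfl, rfl⟩ | ⟨rfl, rfl, rfl, rfl⟩ | ⟨rfl, rfl, rfl, rfl⟩ | ⟨rfl, rfl, rfl, rfl⟩ | ⟨rfl, rfl, rfl, rfl⟩ | ⟨rfl, rfl, rfl, rfl⟩ |
      ⟨rfl, rfl, rfl, rfl⟩ | ⟨rfl, rfl, rfl, rfl⟩ | ⟨rfl, rfl, rfl, rfl⟩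
    · exact (v1s y6_4 (S.l6 4) (by omega) (by omega) (by omega) (by omega) (by omega) (by omega)).2 (by unfold V1; omega)
    · exact (v1s y6_4 (S.l6 4) (by omega) (by omega) (by omega) (by omega) (by omega) (by omega)).2 (by unfold V1; omega)
    · exact (v1s y6_4 (S.l6 4) (by omega) (by omega) (by omega) (by omega) (by omega) (by omega)).2 (by unfold V1; omega)
    · exact (v1s y6_4 (S.l6 4) (by omega) (by omega) (by omega) (by omega) (by omega) (by omega)).2 (by unfold V1; omega)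
    · exact (v2x y6_4 (S.l6 4) (by omega) (by omega) (by omega) (by omega) (by omega) (by omega)).2 (by unfold V2; omega)
    · exact (v2x y6_4 (S.l6 4) (by omega) (by omega) (by omega) (by omega) (by omega) (by omega)).2 (by unfold V2; omega)
    · exact (w3x y8_3 (S.l8 3) (by omega) (by omega) (by omega) (by omega) (by omega)).2 (by unfold V3; omega)
    · exact (w0 y8_4 (S.l8 4) (by omega) (by omega) (by omega) (by omega) (by omega) (by omega)).2 (by unfold V0; omega)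
    · exact (w0 y8_4 (S.l8 4) (by omega) (by omega) (by omega) (by omega) (by omega) (by omega)).2 (by unfold V0; omega)
    · exact (w0 y8_4 (S.l8 4) (by omega) (by omega) (by omega) (by omega) (by omega) (by omega)).2 (by unfold V0; omega)
    · exact (w0 y8_4 (S.l8 4) (by omega) (by omega) (by omega) (by omega) (by omega) (by omega)).2 (by unfold V0; omega)
    · exact (w0 y8_4 (S.l8 4) (by omega) (by omega) (by omega) (by omega) (by omega) (by omega)).2 (by unfold V0; omega)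
    · exact (w0 y8_4 (S.l8 4) (by omega) (by omega) (by omega) (by omega) (by omega) (by omega)).2 (by unfold V0; omega)
    · exact (w0 y8_4 (S.l8 4) (by omega) (by omega) (by omega) (by omega) (by omega) (by omega)).2 (by unfold V0; omega)
    · exact (w0 y8_4 (S.l8 4) (by omega) (by omega) (by omega) (by omega) (by omega) (by omega)).2 (by unfold V0; omega)
    · exact (w1 y8_4 (S.l8 4) (by omega) (by omega) (by omega) (by omega) (by omega) (by omega)).2 (by unfold V1; omega)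
    · exact (w2x y8_4 (S.l8 4) (by omega) (by omega) (by omega) (by omega) (by omega) (by omega)).2 (by unfold V2; omega)
    · exact (w2x y8_4 (S.l8 4) (by omega) (by omega) (by omega) (by omega) (by omega) (by omega)).2 (by unfold V2; omega)
    · exact (w2s y10_3 (S.l10 3) (by omega) (by omega) (by omega) (by omega) (by omega) (by omega)).2 (by unfold V2; omega)
    · exact (w2s y10_3 (S.l10 3) (by omega) (by omega) (by omega) (by omega) (by omega) (by omega)).2 (by unfold V2; omega)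
    · exact (w0 y10_4 (S.l10 4) (by omega) (by omega) (by omega) (by omega) (by omega) (by omega)).2 (by unfold V0; omega)
    · exact (w0 y10_4 (S.l10 4) (by omega) (by omega) (by omega) (by omega) (by omega) (by omega)).2 (by unfold V0; omega)
    · exact (w0 y10_4 (S.l10 4) (by omega) (by omega) (by omega) (by omega) (by omega) (by omega)).2 (by unfold V0; omega)
    · exact (w0 y10_4 (S.l10 4) (by omega) (by omega) (by omega) (by omega) (by omega) (by omega)).2 (by unfold V0; omega)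
    · exact (w0 y10_4 (S.l10 4) (by omega) (by omega) (by omega) (by omega) (by omega) (by omega)).2 (by unfold V0; omega)
    · exact (w0 y10_4 (S.l10 4) (by omega) (by omega) (by omega) (by omega) (by omega) (by omega)).2 (by unfold V0; omega)
    · exact (w0 y10_4 (S.l10 4) (by omega) (by omega) (by omega) (by omega) (by omega) (by omega)).2 (by unfold V0; omega)
  · intro j n p q _ hx
    rcases hx with ⟨rfl, rfl, rfl, rfl⟩ | ⟨rfl, rfl, rfl, rfl⟩ | ⟨rfl, rfl, rfl, rfl⟩ | ⟨rfl, rfl, rfl, rfl⟩ | ⟨rfl, rfl, rfl, rfl⟩ | ⟨rfl, rfl, rfl, rfl⟩ |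
      ⟨rfl, rfl, rfl, rfl⟩ | ⟨rfl, rfl, rfl, rfl⟩ | ⟨rfl, rfl, rfl, rfl⟩ | ⟨rfl, rfl, rfl, rfl⟩ | ⟨rfl, rfl, rfl, rfl⟩ | ⟨rfl, rfl, rfl, rfl⟩
    · exact fun t => absurd ((v1s y6_4 (S.l6 4) (by omega) (by omega) (by omega) (by omega) (by omega) (by omega)).1 t) (by unfold V1; omega)
    · exact fun t => absurd ((v1s y6_4 (S.l6 4) (by omega) (by omega) (by omega) (by omega) (by omega) (by omega)).1 t) (by unfold V1; omega)
    · exact fun t => absurd ((v1s y6_4 (S.l6 4) (by omega) (by omega) (by omega) (by omega) (by omega) (by omega)).1 t) (by unfold V1; omega)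
    · exact fun t => absurd ((v1s y6_4 (S.l6 4) (by omega) (by omega) (by omega) (by omega) (by omega) (by omega)).1 t) (by unfold V1; omega)
    · exact U.rm1i hf (p := 0) (j := 1) (by omega) (by omega) (by omega) (by omega) (by omega) (by omega)
    · exact U.rm1i hf (p := 0) (j := 1) (by omega) (by omega) (by omega) (by omega) (by omega) (by omega)
    · exact U.rm1i hf (p := 0) (j := 1) (by omega) (by omega) (by omega) (by omega) (by omega) (by omega)
    · exact U.rm1i hf (p := 0) (j := 1) (by omega) (by omega) (by omega) (by omega) (by omega) (by omega)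
    · exact fun t => h1' (mv t (by omega) (by omega) (by omega) (by omega))
    · exact fun t => h2' (mv t (by omega) (by omega) (by omega) (by omega))
    · exact Z.p0i hf (j := 1) (by omega) (by omega) (by omega) (by omega) (by omega) (by omega)
    · exact U.p0i hf (j := 1) (by omega) (by omega) (by omega) (by omega) (by omega) (by omega)

end Pool.Agent.SNT.NHZ
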