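import Pool.Agent.SNT.LND

set_option autoImplicit false
set_option synthInstance.maxSize 100000
set_option synthInstance.maxHeartbeats 4000000

/-! near-diagonal windows (LN2) -/

namespace Pool.Agent.SNT.LN

open Pool.Agent.SNT Pool.Agent.SNT.Loc Pool.Agent.SNT.LW Pool.Agent.SNT.NHZ Pool.Agent.SNT.NW

variable {f : ℕ → ℕ → ℕ → ℕ → Prop}

theorem d4_2_12_chk : check 12 6 15 15 0 0 1 1 2
    (fun j n p q => decide ((j = 10 ∧ n = 2 ∧ q ≤ p ∧ (p + q) % 2 = 1 ∧ p % 2 = 1)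
      ∨ (j = 10 ∧ n = 3 ∧ q ≤ p ∧ p = q ∧ p % 2 = 0)
      ∨ (j = 8 ∧ n = 1 ∧ q ≤ p ∧ p = q ∧ p % 2 = 0)
      ∨ (j = 6 ∧ n = 1 ∧ q ≤ p ∧ p = q ∧ p % 2 = 1)
      ∨ (j = 6 ∧ n = 2 ∧ q ≤ p ∧ (p + q) % 2 = 1 ∧ p % 2 = 1)
      ∨ (j = 4 ∧ n = 1 ∧ q ≤ p ∧ p = q ∧ p % 2 = 0)
      ∨ (j = 4 ∧ n = 4 ∧ p = 8 ∧ q = 1)
      ∨ (j = 4 ∧ n = 2 ∧ p = 4 ∧ q = 3)
      ∨ (j = 8 ∧ n = 2 ∧ p = 6 ∧ q = 5)))
    (fun j n p q => decide ((j = 10 ∧ n = 2 ∧ q ≤ p ∧ ¬ ((p + q) % 2 = 1 ∧ p % 2 = 1))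
      ∨ (j = 10 ∧ n = 3 ∧ q ≤ p ∧ ¬ (p = q ∧ p % 2 = 0))
      ∨ (j = 8 ∧ n = 1 ∧ q ≤ p ∧ ¬ (p = q ∧ p % 2 = 0))
      ∨ (j = 6 ∧ n = 1 ∧ q ≤ p ∧ ¬ (p = q ∧ p % 2 = 1))
      ∨ (j = 6 ∧ n = 2 ∧ q ≤ p ∧ ¬ ((p + q) % 2 = 1 ∧ p % 2 = 1))
      ∨ (j = 4 ∧ n = 1 ∧ q ≤ p ∧ ¬ (p = q ∧ p % 2 = 0))
      ∨ (j = 1 ∧ n = 1 ∧ q ≤ p)
      ∨ (j = 1 ∧ n = 2 ∧ q ≤ p)
      ∨ (j = 1 ∧ n = 3 ∧ q ≤ p)
      ∨ (j = 1 ∧ n = 4 ∧ q ≤ p)
      ∨ (j = 2 ∧ n = 1 ∧ q + 4 ≤ p ∧ p ≤ q + 11)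
      ∨ (j = 5 ∧ n = 3 ∧ q + 4 ≤ p ∧ p ≤ q + 11)
      ∨ (j = 5 ∧ n = 3 ∧ q + 5 ≤ p ∧ p ≤ q + 10)
      ∨ (j = 5 ∧ n = 4 ∧ q + 4 ≤ p ∧ p ≤ q + 11)
      ∨ (j = 6 ∧ n = 1 ∧ q + 2 ≤ p)
      ∨ (j = 7 ∧ n = 4 ∧ q + 3 ≤ p)
      ∨ (j = 8 ∧ n = 1 ∧ q + 1 ≤ p)
      ∨ (j = 8 ∧ n = 1 ∧ q + 2 ≤ p)
      ∨ (j = 8 ∧ n = 3 ∧ q + 2 ≤ p)
      ∨ (j = 9 ∧ n = 3 ∧ q + 2 ≤ p)
      ∨ (j = 9 ∧ n = 3 ∧ q + 3 ≤ p)
      ∨ (j = 9 ∧ n = 4 ∧ q + 2 ≤ p)
      ∨ (j = 10 ∧ n = 1 ∧ q + 1 ≤ p)))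
    405
    0x7380309db000c7eca06c783096a80096a840c86800f2a4a0e48830c16000c16040e48830c16800c16840f29030f30800f29800f298e0f29840ec00e0eb8830eb9000ec0000ec00e0ec0041478030f2a000f2a040e41030c0e800c0e840ec78e1486030ec7800ec7840e41030c0f000c0f040e41030eb1800eb1840ec70e0e56830ec7000ec704096a0e06c703096a00096a0407308309d38009d3840c77800f1b4a0e39830c07000c07040c238e0e4e830c23800c23840c230e0e55830c23000c23040b8e8e0b8e030b8e800b8e840c1b8e0e4e030c1b800c1b840e39830eaa000eaa041468830f1a800f1a8408f10e0e3f0308f10008f1040c68800f0c4a0e2a830bf8800bf8840e2a830bf8000bf8040e23830bf1000bf1040e22030b7f800b7f840e23030bf0800bf08408808e0e3f03088080088084147e8e147703147780147e80147e8e147e8414860e19d40314860014860416b20e18e48316b20016b20419c58e19c50319cc8019c58019c58e19c58408810e0e3f83088100088104147e0e147683147e00147e0414680e19ae8314680014680417188e19c4031718801718840c05800ea8c211538013f6c20b768016a1800b8b8e1b8f801b80801944c216218010f38010e480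10d58010c68010e38010d48010c58010d38010c4800c59800b85800e2f4a1bff801bef801b968e1b958e19c38e19c30e19bc0e19bb8e19530e19528e194b8e194b0e16b00e16af8e16a88e16a80e16288016288e15d80e15d78e15c88015b88014858e147d8e147d0e14758e10fa8010fa8e10f98010f98e10f88010f88e10f78e10ea8010ea8e10e98010e98e10e88e10da8010da8e10d98010d98e10ca80106a800f370e0f368e0f360e0f358e0f2f0e0f2e8e0f2e0e0ec68e0ec60e0ec58e0ec50e0ebe8e0ebe0e0ebd8e0c8a8e0b8c800b8c8e0b410e0b408e0b3c0e0b3b8e0b3b0e0b3a8e0b3a0e0b398e0b390e0b338e0b330e0b328e0b320e0b318e0b2c800b2b8e0b2b0e0b2a8e0b2a0e0b238e0b230e0b228e0b1c800b0c8004948e04940e048c8e04240e04238e041c0e03b38e1bff8f1bef8f1b968f1b958f19d40719d38719cc0719c40719c38719c30719bc0719bb87196387196307195b87195387195307195287194b87194b0717310717220717210717040716c08716c00716b88716b08716b00716af8716a88716a80716410716310716288f15d80715d78715d08715c88f15b88f148587147d87147d0714758711db0711cd0711cc0711be0710fa8f10f98f10f88f10f78f10ea8f10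e98f10e88f10e30710e28710db0710da8f10d98f10ca8f106a8f0f37070f36870f36070f35870f2f070f2e870f2e070ec6870ec6070ec5870ec5070ebe870ebe070ebd870c8a8f0c87070c86070c78070c77070c69070bb3070bb2070ba5070ba4070ba3070b96070b95070b94070b8c8f0b87070b86070b84070b79070b78070b77070b43070b42870b42070b41870b41070b40870b3c070b3b870b3b070b3a870b3a070b39870b39070b34870b33870b33070b32870b32070b31870b2c8f0b2c070b2b870b2b070b2a870b2a070b24870b24070b23870b23070b22870b1c8f0b1b870b1b070b14070b13870b0c8f073007064f07049507049487049407048d07048c87042487042407042387041c87041c0703b40703b38703b30703ac0703ab87 = true := by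
  decide +kernel

theorem d4_2_12 (hf : Rule f) {k c n s : ℕ} (H : DH f k c n) (hs : s % 2 = 0) (hs4 : 2 * n + 6 ≤ s)
    (h1 : f (6 * k + 2) (c) (s + 3) (s + 2)) (h2 : f (6 * k + 6) (c) (s + 5) (s + 4)) : ¬ f (6 * k + 2) (c + 2) (s + 7) (s) := by
  intro h0
  have hk := H.T.hk
  have hc := H.T.hc
  have h4 := H.T.h4
  have hb := H.T.hb
  have hN := H.T.hN2
  have g0 : ∀ M R x y : ℕ, M = 6 * k + 2 → R = c + 2 → x = s + 7 → y = s → f M R x y := by
    intro M R x y e1 e2 e3 e4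
    rw [e1, e2, e3, e4]
    exact h0
  clear h0
  have g1 : ∀ M R x y : ℕ, M = 6 * k + 2 → R = c → x = s + 3 → y = s + 2 → f M R x y := by
    intro M R x y e1 e2 e3 e4
    rw [e1, e2, e3, e4]
    exact h1
  clear h1
  have g2 : ∀ M R x y : ℕ, M = 6 * k + 6 → R = c → x = s + 5 → y = s + 4 → f M R x y := by
    intro M R x y e1 e2 e3 e4
    rw [e1, e2, e3, e4]
    exact h2
  clear h2
  obtain ⟨a0, ha0⟩ : ∃ z, z + 2 = 6 * k := ⟨6 * k - 2, by omega⟩
  obtain ⟨b0, hb0⟩ : ∃ z, z + 2 = c := ⟨c - 2, by omega⟩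
  obtain ⟨x0, hx0⟩ : ∃ z, z + 1 = s := ⟨s - 1, by omega⟩
  refine check_sound hf (a0 := a0) (b0 := b0) (x0 := x0) (y0 := x0) d4_2_12_chk
    ⟨fun _ => rfl, fun h => absurd h (by decide), fun h => absurd h (by decide), by omega, by omega,
      by omega, by omega⟩ ?_ ?_
  · intro j m p q hr h
    obtain ⟨-, -, -, -, hp1, hp2, hq1, hq2⟩ := hr
    replace h := of_decide_eq_true h
    rcases h with h | h | h | h | h | h | h | h | h
    · obtain ⟨rfl, rfl, h⟩ := h
      exact (w2v H.c8 (by omega) (by omega) (by omega) (by omega) (by omega) (by omega) (by omega)).mpr (by omega)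
    · obtain ⟨rfl, rfl, h⟩ := h
      exact (w3v H.c8 (by omega) (by omega) (by omega) (by omega) (by omega) (by omega) (by omega) (by omega)).mpr (by omega)
    · obtain ⟨rfl, rfl, h⟩ := h
      exact (WrapC.v3 H.c6 (by omega) (by omega) (by omega) (by omega) (by omega) (by omega) (by omega) (by omega)).mpr (by omega)
    · obtain ⟨rfl, rfl, h⟩ := h
      exact (WrapC.v1 H.c4 (by omega) (by omega) (by omega) (by omega) (by omega) (by omega) (by omega) (by omega)).mpr (by omega)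
    · obtain ⟨rfl, rfl, h⟩ := h
      exact (WrapC.v2 H.c4 (by omega) (by omega) (by omega) (by omega) (by omega) (by omega) (by omega)).mpr (by omega)
    · obtain ⟨rfl, rfl, h⟩ := h
      exact (WrapC.v3 H.c2 (by omega) (by omega) (by omega) (by omega) (by omega) (by omega) (by omega) (by omega)).mpr (by omega)
    · obtain ⟨rfl, rfl, rfl, rfl⟩ := h
      exact g0 _ _ _ _ (by omega) (by omega) (by omega) (by omega)
    · obtain ⟨rfl, rfl, rfl, rfl⟩ := h
      exact g1 _ _ _ _ (by omega) (by omega) (by omega) (by omega)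
    · obtain ⟨rfl, rfl, rfl, rfl⟩ := h
      exact g2 _ _ _ _ (by omega) (by omega) (by omega) (by omega)
  · intro j m p q hr h
    obtain ⟨-, -, -, -, hp1, hp2, hq1, hq2⟩ := hr
    replace h := of_decide_eq_true h
    rcases h with h | h | h | h | h | h | h | h | h | h | h | h | h | h | h | h | h | h | h | h | h | h | h
    · obtain ⟨rfl, rfl, h⟩ := h
      exact mt (w2v H.c8 (by omega) (by omega) (by omega) (by omega) (by omega) (by omega) (by omega)).mp (by omega)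
    · obtain ⟨rfl, rfl, h⟩ := h
      exact mt (w3v H.c8 (by omega) (by omega) (by omega) (by omega) (by omega) (by omega) (by omega) (by omega)).mp (by omega)
    · obtain ⟨rfl, rfl, h⟩ := h
      exact mt (WrapC.v3 H.c6 (by omega) (by omega) (by omega) (by omega) (by omega) (by omega) (by omega) (by omega)).mp (by omega)
    · obtain ⟨rfl, rfl, h⟩ := h
      exact mt (WrapC.v1 H.c4 (by omega) (by omega) (by omega) (by omega) (by omega) (by omega) (by omega) (by omega)).mp (by omega)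
    · obtain ⟨rfl, rfl, h⟩ := h
      exact mt (WrapC.v2 H.c4 (by omega) (by omega) (by omega) (by omega) (by omega) (by omega) (by omega)).mp (by omega)
    · obtain ⟨rfl, rfl, h⟩ := h
      exact mt (WrapC.v3 H.c2 (by omega) (by omega) (by omega) (by omega) (by omega) (by omega) (by omega) (by omega)).mp (by omega)
    · obtain ⟨rfl, rfl, h⟩ := h
      exact H.lw _ _ _ _ (by omega) (by omega) (by omega) (by omega) (by omega) (by omega)
    · obtain ⟨rfl, rfl, h⟩ := h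
      exact H.lw _ _ _ _ (by omega) (by omega) (by omega) (by omega) (by omega) (by omega)
    · obtain ⟨rfl, rfl, h⟩ := h
      exact H.lw _ _ _ _ (by omega) (by omega) (by omega) (by omega) (by omega) (by omega)
    · obtain ⟨rfl, rfl, h⟩ := h
      exact H.lw _ _ _ _ (by omega) (by omega) (by omega) (by omega) (by omega) (by omega)
    · obtain ⟨rfl, rfl, h⟩ := h
      exact rm1 hf H.T (p := 0) (j := 3) (by omega) (by omega) (by omega) (by omega) (by omega) (by omega) (by omega)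
    · obtain ⟨rfl, rfl, h⟩ := h
      exact r1 hf H.T (p := 1) (j := 3) (by omega) (by omega) (by omega) (by omega) (by omega) (by omega) (by omega)
    · obtain ⟨rfl, rfl, h⟩ := h
      exact r1i hf H.T (p := 1) (j := 4) (by omega) (by omega) (by omega) (by omega) (by omega) (by omega) (by omega)
    · obtain ⟨rfl, rfl, h⟩ := h
      exact NHT.p2 hf H.T (j := 3) (by omega) (by omega) (by omega) (by omega) (by omega) (by omega)
    · obtain ⟨rfl, rfl, h⟩ := h
      exact rm1 hf H.T (p := 0) (j := 1) (by omega) (by omega) (by omega) (by omega) (by omega) (by omega) (by omega)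
    · obtain ⟨rfl, rfl, h⟩ := h
      exact NHT.p2 hf H.T (j := 2) (by omega) (by omega) (by omega) (by omega) (by omega) (by omega)
    · obtain ⟨rfl, rfl, h⟩ := h
      exact rm1 hf H.T (p := 0) (j := 0) (by omega) (by omega) (by omega) (by omega) (by omega) (by omega) (by omega)
    · obtain ⟨rfl, rfl, h⟩ := h
      exact rm1i hf H.T (p := 0) (j := 1) (by omega) (by omega) (by omega) (by omega) (by omega) (by omega) (by omega)
    · obtain ⟨rfl, rfl, h⟩ := h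
      exact r1 hf H.T (p := 0) (j := 1) (by omega) (by omega) (by omega) (by omega) (by omega) (by omega) (by omega)
    · obtain ⟨rfl, rfl, h⟩ := h
      exact r1 hf H.T (p := 1) (j := 1) (by omega) (by omega) (by omega) (by omega) (by omega) (by omega) (by omega)
    · obtain ⟨rfl, rfl, h⟩ := h
      exact r1i hf H.T (p := 1) (j := 2) (by omega) (by omega) (by omega) (by omega) (by omega) (by omega) (by omega)
    · obtain ⟨rfl, rfl, h⟩ := h
      exact NHT.p2 hf H.T (j := 1) (by omega) (by omega) (by omega) (by omega) (by omega) (by omega)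
    · obtain ⟨rfl, rfl, h⟩ := h
      exact rm1i hf H.T (p := 0) (j := 0) (by omega) (by omega) (by omega) (by omega) (by omega) (by omega) (by omega)

theorem d4_2_21_chk : check 12 7 13 13 0 1 1 1 2
    (fun j n p q => decide ((j = 12 ∧ n = 3 ∧ q ≤ p ∧ (p + q) % 2 = 1 ∧ p % 2 = 0)
      ∨ (j = 12 ∧ n = 4 ∧ q ≤ p ∧ p = q ∧ p % 2 = 1)
      ∨ (j = 12 ∧ n = 5 ∧ q ≤ p ∧ (p + q) % 2 = 1 ∧ p % 2 = 1)
      ∨ (j = 10 ∧ n = 1 ∧ q ≤ p ∧ (p + q) % 2 = 1 ∧ p % 2 = 0)
      ∨ (j = 10 ∧ n = 2 ∧ q ≤ p ∧ p = q ∧ p % 2 = 1)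
      ∨ (j = 10 ∧ n = 3 ∧ q ≤ p ∧ (p + q) % 2 = 1 ∧ p % 2 = 1)
      ∨ (j = 10 ∧ n = 4 ∧ q ≤ p ∧ p = q ∧ p % 2 = 0)
      ∨ (j = 8 ∧ n = 1 ∧ q ≤ p ∧ (p + q) % 2 = 1 ∧ p % 2 = 1)
      ∨ (j = 8 ∧ n = 2 ∧ q ≤ p ∧ p = q ∧ p % 2 = 0)
      ∨ (j = 6 ∧ n = 1 ∧ q ≤ p ∧ (p + q) % 2 = 1 ∧ p % 2 = 0)
      ∨ (j = 6 ∧ n = 2 ∧ q ≤ p ∧ p = q ∧ p % 2 = 1)
      ∨ (j = 6 ∧ n = 3 ∧ q ≤ p ∧ (p + q) % 2 = 1 ∧ p % 2 = 1)
      ∨ (j = 4 ∧ n = 2 ∧ q ≤ p ∧ p = q ∧ p % 2 = 0)
      ∨ (j = 4 ∧ n = 5 ∧ p = 8 ∧ q = 1)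
      ∨ (j = 4 ∧ n = 3 ∧ p = 6 ∧ q = 5)
      ∨ (j = 8 ∧ n = 3 ∧ p = 4 ∧ q = 3)))
    (fun j n p q => decide ((j = 12 ∧ n = 3 ∧ q ≤ p ∧ ¬ ((p + q) % 2 = 1 ∧ p % 2 = 0))
      ∨ (j = 12 ∧ n = 4 ∧ q ≤ p ∧ ¬ (p = q ∧ p % 2 = 1))
      ∨ (j = 12 ∧ n = 5 ∧ q ≤ p ∧ ¬ ((p + q) % 2 = 1 ∧ p % 2 = 1))
      ∨ (j = 10 ∧ n = 1 ∧ q ≤ p ∧ ¬ ((p + q) % 2 = 1 ∧ p % 2 = 0))
      ∨ (j = 10 ∧ n = 2 ∧ q ≤ p ∧ ¬ (p = q ∧ p % 2 = 1))
      ∨ (j = 10 ∧ n = 3 ∧ q ≤ p ∧ ¬ ((p + q) % 2 = 1 ∧ p % 2 = 1))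
      ∨ (j = 10 ∧ n = 4 ∧ q ≤ p ∧ ¬ (p = q ∧ p % 2 = 0))
      ∨ (j = 8 ∧ n = 1 ∧ q ≤ p ∧ ¬ ((p + q) % 2 = 1 ∧ p % 2 = 1))
      ∨ (j = 8 ∧ n = 2 ∧ q ≤ p ∧ ¬ (p = q ∧ p % 2 = 0))
      ∨ (j = 6 ∧ n = 1 ∧ q ≤ p ∧ ¬ ((p + q) % 2 = 1 ∧ p % 2 = 0))
      ∨ (j = 6 ∧ n = 2 ∧ q ≤ p ∧ ¬ (p = q ∧ p % 2 = 1))
      ∨ (j = 6 ∧ n = 3 ∧ q ≤ p ∧ ¬ ((p + q) % 2 = 1 ∧ p % 2 = 1))
      ∨ (j = 4 ∧ n = 2 ∧ q ≤ p ∧ ¬ (p = q ∧ p % 2 = 0))
      ∨ (j = 1 ∧ n = 1 ∧ q ≤ p)
      ∨ (j = 1 ∧ n = 2 ∧ q ≤ p)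
      ∨ (j = 1 ∧ n = 3 ∧ q ≤ p)
      ∨ (j = 1 ∧ n = 4 ∧ q ≤ p)
      ∨ (j = 1 ∧ n = 5 ∧ q ≤ p)
      ∨ (j = 2 ∧ n = 2 ∧ q + 4 ≤ p)
      ∨ (j = 5 ∧ n = 4 ∧ q + 4 ≤ p)
      ∨ (j = 5 ∧ n = 4 ∧ q + 5 ≤ p)
      ∨ (j = 5 ∧ n = 5 ∧ q + 4 ≤ p)
      ∨ (j = 6 ∧ n = 2 ∧ q + 2 ≤ p)
      ∨ (j = 9 ∧ n = 4 ∧ q + 3 ≤ p)
      ∨ (j = 9 ∧ n = 5 ∧ q + 2 ≤ p)))
    498
    0x16bd8312178012180a0d72000d72010a73000b1b000cc2c20d71520a72000b1a000cc1c20d70520a71000a70000cc0c20cc04a16bd8312178012180a0d72000d72010b1b000a72800d71520cc2420b1a000a71800d70520cc1420a70800a7084120a8312110012110416bd831218001218040d0a8e0cb6030d0a800d0a840ac1000d10c20f670011b6c2165c8311b68011b684120b03120b8012118012118e1211840aa10e0c9c030aa1000aa1040d588e11fe030d58800d58840cc1830d16000d160416560e1b50831656001656040f590011a8c2144d8311a88011a88412038e11fd0311fd8012038012038e12038411f68311f70011f704146000144e0016b04a16a45213ff8e164e8314058013ff8013ff8e13ff84145a0e16a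283145a00145a04144d8e169c83144d80144d8416a28e1b488316a28016a28416a38e16a30316a98016a38016a38e16a384140c0e13b103140c00140c0414070e13b28314070014070414130316628016628414050e13b083140500140504165b8e190d03165b80165b8413f20e139d0313f20013f20416488e13f90316488016488416480e1b428316480016480416418e18ed0316418016418414048e13b00314048014048413f98e13a48313f98013f98413be0314128014128413a50e13a48313a50013a50413970e13968313970013970413be831419801419841614031419001419041b3c0318ed0018ed041b5603190d00190d040a45000f4b000a63000c9b52119ac20cb34a0a520013f1000a64000a640e1da7001d9a001d99001d8c001d8b001851001843001836001640c2138f000f13000f06000eec000f05000ef8000eeb000ef7000eea000ee9000e64000e63000e56000e55000e48000e47000a5f000cb44a1dad0e1dac001dac0e1d9f001d9f0e1d9e001d9e0e1d910e18b30018b28e18b20e18aa8e18aa0e18a50018a48e18a40e18a38e189d0e18970018640018630018570018570e18560018490018490e18480e16b00e16af8e16af0e16a90e16a88e16a20e165b0e165a8e16540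e13950013950e136a0e13698e13630e135d00135c0e135b8e13550e134f00134e8e134e0e134d8e13470e134100131b00130e000f19000f190e0f18000f180e0f17000f16000f160e0f0b000f0b0e0f0a000f0a0e0f09000f090e0efd000efd0e0efc000efc0e0eef000eef0e0eb7000ea9000e9b000e76000e760e0e75000e69000e690e0e68000e680e0e67000e5b000e5b0e0e5a000e5a0e0e4d0e0b19000a65000a650e0a1e0e0a1d8e0a1c0e0a1b8e0a170e0a158e0a150e0a11000a0f0e0a0e8e0a088e0a080e0a03001dad0f1dac0f1d9f0f1d9e0f1d910f190c8719008718ff8718f28718e68718e58718b88718b80718b30f18b28718b20718b18718ac0718ab8718ab0718aa8718aa0718a50f18a48718a40718a387189e07189d87189d0718970f18640f18630f18570f18560f18490f18480f16bd8716bd0716b70716b68716b00716af8716af0716a90716a88716a207166907166887166207165b07165a87165407146d8714608714548714538714528714468713c48713b88713b78713ab8713aa8713a987139d87139c8713950f138f87137007136f87136a07136987136907136387136307136287135d0f135c87135c07135b87135b07135607135587135507135487134f0f134e871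34e07134d8713480713470713410f131b0f130e0f0fc1870fb4870fa7870fa6870f190f0f180f0f170f0f160f0f12870f12070f0b870f0b0f0f0a0f0f090f0f04870f04070efd870efd0f0efc0f0ef6870ef6070eef870eef0f0eb70f0ea90f0e9b0f0e760f0e750f0e690f0e680f0e670f0e5b0f0e5a0f0e4d0f0d71070d70870d70070d6f870d6a070d69870d69070d1c870d1c070d1b870d1b070d15870d15070d14870b22870b21870b20870b190f0a6c870a6b870a6a870a69870a650f0a5f870a5d870a5c870a45870a44870a1e870a1e070a1d870a1d070a1c870a1c070a1b870a18070a17870a17070a16870a16070a15870a15070a110f0a10070a0f870a0f070a0e870a09870a09070a08870a08070a030f = true := by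
  decide +kernel

theorem d4_2_21 (hf : Rule f) {k c n s : ℕ} (H : DH f k c n) (hs : s % 2 = 0) (hs4 : 2 * n + 6 ≤ s)
    (h1 : f (6 * k + 2) (c) (s + 5) (s + 4)) (h2 : f (6 * k + 6) (c) (s + 3) (s + 2)) : ¬ f (6 * k + 2) (c + 2) (s + 7) (s) := by
  intro h0
  have hk := H.T.hk
  have hc := H.T.hc
  have h4 := H.T.h4
  have hb := H.T.hb
  have hN := H.T.hN2
  have g0 : ∀ M R x y : ℕ, M = 6 * k + 2 → R = c + 2 → x = s + 7 → y = s → f M R x y := by
    intro M R x y e1 e2 e3 e4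
    rw [e1, e2, e3, e4]
    exact h0
  clear h0
  have g1 : ∀ M R x y : ℕ, M = 6 * k + 2 → R = c → x = s + 5 → y = s + 4 → f M R x y := by
    intro M R x y e1 e2 e3 e4
    rw [e1, e2, e3, e4]
    exact h1
  clear h1
  have g2 : ∀ M R x y : ℕ, M = 6 * k + 6 → R = c → x = s + 3 → y = s + 2 → f M R x y := by
    intro M R x y e1 e2 e3 e4
    rw [e1, e2, e3, e4]
    exact h2
  clear h2
  obtain ⟨a0, ha0⟩ : ∃ z, z + 2 = 6 * k := ⟨6 * k - 2, by omega⟩
  obtain ⟨b0, hb0⟩ : ∃ z, z + 3 = c := ⟨c - 3, by omega⟩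
  obtain ⟨x0, hx0⟩ : ∃ z, z + 1 = s := ⟨s - 1, by omega⟩
  refine check_sound hf (a0 := a0) (b0 := b0) (x0 := x0) (y0 := x0) d4_2_21_chk
    ⟨fun _ => rfl, fun h => absurd h (by decide), fun h => absurd h (by decide), by omega, by omega,
      by omega, by omega⟩ ?_ ?_
  · intro j m p q hr h
    obtain ⟨-, -, -, -, hp1, hp2, hq1, hq2⟩ := hr
    replace h := of_decide_eq_true h
    rcases h with h | h | h | h | h | h | h | h | h | h | h | h | h | h | h | h
    · obtain ⟨rfl, rfl, h⟩ := h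
      exact (w0v H.c10 (by omega) (by omega) (by omega) (by omega) (by omega) (by omega) (by omega)).mpr (by omega)
    · obtain ⟨rfl, rfl, h⟩ := h
      exact (w1v H.c10 (by omega) (by omega) (by omega) (by omega) (by omega) (by omega) (by omega) (by omega)).mpr (by omega)
    · obtain ⟨rfl, rfl, h⟩ := h
      exact (w2v H.c10 (by omega) (by omega) (by omega) (by omega) (by omega) (by omega) (by omega)).mpr (by omega)
    · obtain ⟨rfl, rfl, h⟩ := h
      exact (w0v H.c8 (by omega) (by omega) (by omega) (by omega) (by omega) (by omega) (by omega)).mpr (by omega)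
    · obtain ⟨rfl, rfl, h⟩ := h
      exact (w1v H.c8 (by omega) (by omega) (by omega) (by omega) (by omega) (by omega) (by omega) (by omega)).mpr (by omega)
    · obtain ⟨rfl, rfl, h⟩ := h
      exact (w2v H.c8 (by omega) (by omega) (by omega) (by omega) (by omega) (by omega) (by omega)).mpr (by omega)
    · obtain ⟨rfl, rfl, h⟩ := h
      exact (w3v H.c8 (by omega) (by omega) (by omega) (by omega) (by omega) (by omega) (by omega) (by omega)).mpr (by omega)
    · obtain ⟨rfl, rfl, h⟩ := h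
      exact (WrapC.v2 H.c6 (by omega) (by omega) (by omega) (by omega) (by omega) (by omega) (by omega)).mpr (by omega)
    · obtain ⟨rfl, rfl, h⟩ := h
      exact (WrapC.v3 H.c6 (by omega) (by omega) (by omega) (by omega) (by omega) (by omega) (by omega) (by omega)).mpr (by omega)
    · obtain ⟨rfl, rfl, h⟩ := h
      exact (WrapC.v0 H.c4 (by omega) (by omega) (by omega) (by omega) (by omega) (by omega) (by omega)).mpr (by omega)
    · obtain ⟨rfl, rfl, h⟩ := h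
      exact (WrapC.v1 H.c4 (by omega) (by omega) (by omega) (by omega) (by omega) (by omega) (by omega) (by omega)).mpr (by omega)
    · obtain ⟨rfl, rfl, h⟩ := h
      exact (WrapC.v2 H.c4 (by omega) (by omega) (by omega) (by omega) (by omega) (by omega) (by omega)).mpr (by omega)
    · obtain ⟨rfl, rfl, h⟩ := h
      exact (WrapC.v3 H.c2 (by omega) (by omega) (by omega) (by omega) (by omega) (by omega) (by omega) (by omega)).mpr (by omega)
    · obtain ⟨rfl, rfl, rfl, rfl⟩ := h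
      exact g0 _ _ _ _ (by omega) (by omega) (by omega) (by omega)
    · obtain ⟨rfl, rfl, rfl, rfl⟩ := h
      exact g1 _ _ _ _ (by omega) (by omega) (by omega) (by omega)
    · obtain ⟨rfl, rfl, rfl, rfl⟩ := h
      exact g2 _ _ _ _ (by omega) (by omega) (by omega) (by omega)
  · intro j m p q hr h
    obtain ⟨-, -, -, -, hp1, hp2, hq1, hq2⟩ := hr
    replace h := of_decide_eq_true h
    rcases h with h | h | h | h | h | h | h | h | h | h | h | h | h | h | h | h | h | h | h | h | h | h | h | h | h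
    · obtain ⟨rfl, rfl, h⟩ := h
      exact mt (w0v H.c10 (by omega) (by omega) (by omega) (by omega) (by omega) (by omega) (by omega)).mp (by omega)
    · obtain ⟨rfl, rfl, h⟩ := h
      exact mt (w1v H.c10 (by omega) (by omega) (by omega) (by omega) (by omega) (by omega) (by omega) (by omega)).mp (by omega)
    · obtain ⟨rfl, rfl, h⟩ := h
      exact mt (w2v H.c10 (by omega) (by omega) (by omega) (by omega) (by omega) (by omega) (by omega)).mp (by omega)
    · obtain ⟨rfl, rfl, h⟩ := h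
      exact mt (w0v H.c8 (by omega) (by omega) (by omega) (by omega) (by omega) (by omega) (by omega)).mp (by omega)
    · obtain ⟨rfl, rfl, h⟩ := h
      exact mt (w1v H.c8 (by omega) (by omega) (by omega) (by omega) (by omega) (by omega) (by omega) (by omega)).mp (by omega)
    · obtain ⟨rfl, rfl, h⟩ := h
      exact mt (w2v H.c8 (by omega) (by omega) (by omega) (by omega) (by omega) (by omega) (by omega)).mp (by omega)
    · obtain ⟨rfl, rfl, h⟩ := h
      exact mt (w3v H.c8 (by omega) (by omega) (by omega) (by omega) (by omega) (by omega) (by omega) (by omega)).mp (by omega)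
    · obtain ⟨rfl, rfl, h⟩ := h
      exact mt (WrapC.v2 H.c6 (by omega) (by omega) (by omega) (by omega) (by omega) (by omega) (by omega)).mp (by omega)
    · obtain ⟨rfl, rfl, h⟩ := h
      exact mt (WrapC.v3 H.c6 (by omega) (by omega) (by omega) (by omega) (by omega) (by omega) (by omega) (by omega)).mp (by omega)
    · obtain ⟨rfl, rfl, h⟩ := h
      exact mt (WrapC.v0 H.c4 (by omega) (by omega) (by omega) (by omega) (by omega) (by omega) (by omega)).mp (by omega)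
    · obtain ⟨rfl, rfl, h⟩ := h
      exact mt (WrapC.v1 H.c4 (by omega) (by omega) (by omega) (by omega) (by omega) (by omega) (by omega) (by omega)).mp (by omega)
    · obtain ⟨rfl, rfl, h⟩ := h
      exact mt (WrapC.v2 H.c4 (by omega) (by omega) (by omega) (by omega) (by omega) (by omega) (by omega)).mp (by omega)
    · obtain ⟨rfl, rfl, h⟩ := h
      exact mt (WrapC.v3 H.c2 (by omega) (by omega) (by omega) (by omega) (by omega) (by omega) (by omega) (by omega)).mp (by omega)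
    · obtain ⟨rfl, rfl, h⟩ := h
      exact H.lw _ _ _ _ (by omega) (by omega) (by omega) (by omega) (by omega) (by omega)
    · obtain ⟨rfl, rfl, h⟩ := h
      exact H.lw _ _ _ _ (by omega) (by omega) (by omega) (by omega) (by omega) (by omega)
    · obtain ⟨rfl, rfl, h⟩ := h
      exact H.lw _ _ _ _ (by omega) (by omega) (by omega) (by omega) (by omega) (by omega)
    · obtain ⟨rfl, rfl, h⟩ := h
      exact H.lw _ _ _ _ (by omega) (by omega) (by omega) (by omega) (by omega) (by omega)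
    · obtain ⟨rfl, rfl, h⟩ := h
      exact H.lw _ _ _ _ (by omega) (by omega) (by omega) (by omega) (by omega) (by omega)
    · obtain ⟨rfl, rfl, h⟩ := h
      exact rm1 hf H.T (p := 0) (j := 3) (by omega) (by omega) (by omega) (by omega) (by omega) (by omega) (by omega)
    · obtain ⟨rfl, rfl, h⟩ := h
      exact r1 hf H.T (p := 1) (j := 3) (by omega) (by omega) (by omega) (by omega) (by omega) (by omega) (by omega)
    · obtain ⟨rfl, rfl, h⟩ := h
      exact r1i hf H.T (p := 1) (j := 4) (by omega) (by omega) (by omega) (by omega) (by omega) (by omega) (by omega)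
    · obtain ⟨rfl, rfl, h⟩ := h
      exact NHT.p2 hf H.T (j := 3) (by omega) (by omega) (by omega) (by omega) (by omega) (by omega)
    · obtain ⟨rfl, rfl, h⟩ := h
      exact rm1 hf H.T (p := 0) (j := 1) (by omega) (by omega) (by omega) (by omega) (by omega) (by omega) (by omega)
    · obtain ⟨rfl, rfl, h⟩ := h
      exact r1i hf H.T (p := 1) (j := 2) (by omega) (by omega) (by omega) (by omega) (by omega) (by omega) (by omega)
    · obtain ⟨rfl, rfl, h⟩ := h
      exact NHT.p2 hf H.T (j := 1) (by omega) (by omega) (by omega) (by omega) (by omega) (by omega)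

end Pool.Agent.SNT.LN
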