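import Pool.Agent.SNT.LND

set_option autoImplicit false
set_option synthInstance.maxSize 100000
set_option synthInstance.maxHeartbeats 4000000

/-! near-diagonal windows (LN3) -/

namespace Pool.Agent.SNT.LN

open Pool.Agent.SNT Pool.Agent.SNT.Loc Pool.Agent.SNT.LW Pool.Agent.SNT.NHZ Pool.Agent.SNT.NW

variable {f : ℕ → ℕ → ℕ → ℕ → Prop}

theorem d4_2_22_chk : check 12 7 13 13 0 1 1 1 2
    (fun j n p q => decide ((j = 12 ∧ n = 5 ∧ q ≤ p ∧ (p + q) % 2 = 1 ∧ p % 2 = 1)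
      ∨ (j = 10 ∧ n = 1 ∧ q ≤ p ∧ (p + q) % 2 = 1 ∧ p % 2 = 0)
      ∨ (j = 10 ∧ n = 4 ∧ q ≤ p ∧ p = q ∧ p % 2 = 0)
      ∨ (j = 8 ∧ n = 1 ∧ q ≤ p ∧ (p + q) % 2 = 1 ∧ p % 2 = 1)
      ∨ (j = 6 ∧ n = 2 ∧ q ≤ p ∧ p = q ∧ p % 2 = 1)
      ∨ (j = 6 ∧ n = 3 ∧ q ≤ p ∧ (p + q) % 2 = 1 ∧ p % 2 = 1)
      ∨ (j = 4 ∧ n = 1 ∧ q ≤ p ∧ (p + q) % 2 = 1 ∧ p % 2 = 1)
      ∨ (j = 4 ∧ n = 2 ∧ q ≤ p ∧ p = q ∧ p % 2 = 0)
      ∨ (j = 4 ∧ n = 5 ∧ p = 8 ∧ q = 1)
      ∨ (j = 4 ∧ n = 3 ∧ p = 6 ∧ q = 5)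
      ∨ (j = 8 ∧ n = 3 ∧ p = 6 ∧ q = 5)))
    (fun j n p q => decide ((j = 12 ∧ n = 5 ∧ q ≤ p ∧ ¬ ((p + q) % 2 = 1 ∧ p % 2 = 1))
      ∨ (j = 10 ∧ n = 1 ∧ q ≤ p ∧ ¬ ((p + q) % 2 = 1 ∧ p % 2 = 0))
      ∨ (j = 10 ∧ n = 4 ∧ q ≤ p ∧ ¬ (p = q ∧ p % 2 = 0))
      ∨ (j = 8 ∧ n = 1 ∧ q ≤ p ∧ ¬ ((p + q) % 2 = 1 ∧ p % 2 = 1))
      ∨ (j = 6 ∧ n = 2 ∧ q ≤ p ∧ ¬ (p = q ∧ p % 2 = 1))
      ∨ (j = 6 ∧ n = 3 ∧ q ≤ p ∧ ¬ ((p + q) % 2 = 1 ∧ p % 2 = 1))
      ∨ (j = 4 ∧ n = 1 ∧ q ≤ p ∧ ¬ ((p + q) % 2 = 1 ∧ p % 2 = 1))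
      ∨ (j = 4 ∧ n = 2 ∧ q ≤ p ∧ ¬ (p = q ∧ p % 2 = 0))
      ∨ (j = 1 ∧ n = 1 ∧ q ≤ p)
      ∨ (j = 1 ∧ n = 2 ∧ q ≤ p)
      ∨ (j = 1 ∧ n = 3 ∧ q ≤ p)
      ∨ (j = 1 ∧ n = 4 ∧ q ≤ p)
      ∨ (j = 1 ∧ n = 5 ∧ q ≤ p)
      ∨ (j = 2 ∧ n = 2 ∧ q + 4 ≤ p)
      ∨ (j = 5 ∧ n = 5 ∧ q + 4 ≤ p)
      ∨ (j = 6 ∧ n = 2 ∧ q + 2 ≤ p)
      ∨ (j = 8 ∧ n = 4 ∧ q + 3 ≤ p)
      ∨ (j = 9 ∧ n = 1 ∧ q + 1 ≤ p)
      ∨ (j = 9 ∧ n = 3 ∧ q + 2 ≤ p)
      ∨ (j = 9 ∧ n = 3 ∧ q + 1 ≤ p)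
      ∨ (j = 9 ∧ n = 4 ∧ q + 2 ≤ p)
      ∨ (j = 9 ∧ n = 4 ∧ q + 2 ≤ p)
      ∨ (j = 9 ∧ n = 4 ∧ q + 3 ≤ p)
      ∨ (j = 9 ∧ n = 5 ∧ q + 2 ≤ p)))
    428
    0x120c030d66000d66010a6d000b09000cbcc20d594a0a60000afc000cafc20d4c4a0a53000a46000ca2c20c9c52120c030d66000d66010b09000a66800d594a0cb6420afc000a59800d4c4a0ca9420a4c800a4c8411fe030d58800d58840d158e0cc1030d15800d15840ca2830cf7000cf7040c9c030cf0800cf084169d8311f78011f78412030e16a903120300120304120a0e16af83120a00120a040ac1000d10c20f670011b6c2145b8311b68011b68412118e120b03120b8012118012118e121184120483120500120504145c0016b25213b903140d80140d8414680e16b08314680014680414678e16b08314678014678416b10316b78016b18016b18e16b18413b28314070014070413b903140e00140e04165c0e1b5683165c00165c0413b18313b80013b20013b20e13b20414470e16a40314470014470414000e13ab0314000014000416aa8e1b508316aa8016aa841b488316a28016a28413f90e13a48313f90013f9040a45000f59000e64000e56000c9b5211a8c20eb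f320eb1320a520013ff000e71000e63000e55000a64000ca8521da7001d9a00164ec2139d0013090012fc0012fb0012ee000f13000f06000ef9000eec000f05000ef8000eeb000ef7000eea000aef000a5f000eccba0ebeba0eb0ba09cc0009cb0009be0009bd0009b00009a30009af000cb44a09a2001dad001dad0e1dac001dac0e1d9f001d9e0018b30018b28e18b20e18a50018970016be0e16bd8e16b70e16b00e16af8e16af0e16a90e16a88e16698e16690e16628e165b8e165b0e165a8e16548e16540e15f98e14198e14128e140b8e140b0e14048e13a30013a30e130f00130f0e130e0e13010013010e13000e0f190e0f180e0f17000f170e0f160e0f0b000f0b0e0f0a000f0a0e0f090e0efd000efd0e0efc0e0ed3000ed28e0ed20e0ecb0e0eca8e0ec5000ec48e0ec40e0ebd0e0ebc8e0eb7000eb68e0eb60e0ea9000d710e0d708e0d700e0d6f8e0d6a0e0d698e0d690e0b190e0a65000a650e0a2d000a1f000a1e8e0a1e0e0a1d8e0a1d0e0a1c8e0a1c0e0a1b8e0a170e0a168e0a160e0a158e0a150e0a11000a100e0a0f8e0a0f0e0a0e8e0a090e0a088e0a080e0a030009de0e09d10e09d00e09c30009c30e09c20009c20e09c10009c10e09b50009b50e09b40009b40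e1dad0f1dac0f1d9f0f1d9e0f19008718f28718b30f18b28718b20718ac0718ab8718a50f18a48718a407189e07189d8718970f16be0716bd8716b70716b00716af8716af0716a90716a88716a207166987166907166287165b87165b07165a87165487165407164d8715f987146287146187146087145f87145487145287144787141987141287140b87140b0714048713b88713ab8713aa8713a30f139d87130f0f130e0f13010f13000f0fb5870fb4870fa7870f190f0f180f0f170f0f160f0f12870f12070f0b870f0b0f0f0a0f0f090f0f04870f04070efd870efd0f0efc0f0ed30f0ed2870ed2070ecc070ecb070eca870ec50f0ec4870ec4070ebe070ebd070ebc870eb70f0eb6870eb6070eb0070ea90f0e71870e63870e55870d71070d70870d70070d6f870d6a070d69870d69070b190f0b16870b09870afc870a6c870a6a870a650f0a5f870a5d870a52870a51870a45870a44870a2d0f0a1f0f0a1e870a1e070a1d870a1d070a1c870a1c070a1b870a18070a17070a16870a16070a15870a15070a110f0a10070a0f870a0f070a0e870a09870a09070a08870a08070a030f09de0f09d10f09d00f09c30f09c20f09c10f09b50f09b40f = true := by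
  decide +kernel

theorem d4_2_22 (hf : Rule f) {k c n s : ℕ} (H : DH f k c n) (hs : s % 2 = 0) (hs4 : 2 * n + 6 ≤ s)
    (h1 : f (6 * k + 2) (c) (s + 5) (s + 4)) (h2 : f (6 * k + 6) (c) (s + 5) (s + 4)) : ¬ f (6 * k + 2) (c + 2) (s + 7) (s) := by
  intro h0
  have hk := H.T.hk
  have hc := H.T.hc
  have h4 := H.T.h4
  have hb := H.T.hb
  have hN := H.T.hN2
  have g0 : ∀ M R x y : ℕ, M = 6 * k + 2 → R = c + 2 → x = s + 7 → y = s → f M R x y := by
    intro M R x y e1 e2 e3 e4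
    rw [e1, e2, e3, e4]
    exact h0
  clear h0
  have g1 : ∀ M R x y : ℕ, M = 6 * k + 2 → R = c → x = s + 5 → y = s + 4 → f M R x y := by
    intro M R x y e1 e2 e3 e4
    rw [e1, e2, e3, e4]
    exact h1
  clear h1
  have g2 : ∀ M R x y : ℕ, M = 6 * k + 6 → R = c → x = s + 5 → y = s + 4 → f M R x y := by
    intro M R x y e1 e2 e3 e4
    rw [e1, e2, e3, e4]
    exact h2
  clear h2
  obtain ⟨a0, ha0⟩ : ∃ z, z + 2 = 6 * k := ⟨6 * k - 2, by omega⟩
  obtain ⟨b0, hb0⟩ : ∃ z, z + 3 = c := ⟨c - 3, by omega⟩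
  obtain ⟨x0, hx0⟩ : ∃ z, z + 1 = s := ⟨s - 1, by omega⟩
  refine check_sound hf (a0 := a0) (b0 := b0) (x0 := x0) (y0 := x0) d4_2_22_chk
    ⟨fun _ => rfl, fun h => absurd h (by decide), fun h => absurd h (by decide), by omega, by omega,
      by omega, by omega⟩ ?_ ?_
  · intro j m p q hr h
    obtain ⟨-, -, -, -, hp1, hp2, hq1, hq2⟩ := hr
    replace h := of_decide_eq_true h
    rcases h with h | h | h | h | h | h | h | h | h | h | h
    · obtain ⟨rfl, rfl, h⟩ := h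
      exact (w2v H.c10 (by omega) (by omega) (by omega) (by omega) (by omega) (by omega) (by omega)).mpr (by omega)
    · obtain ⟨rfl, rfl, h⟩ := h
      exact (w0v H.c8 (by omega) (by omega) (by omega) (by omega) (by omega) (by omega) (by omega)).mpr (by omega)
    · obtain ⟨rfl, rfl, h⟩ := h
      exact (w3v H.c8 (by omega) (by omega) (by omega) (by omega) (by omega) (by omega) (by omega) (by omega)).mpr (by omega)
    · obtain ⟨rfl, rfl, h⟩ := h
      exact (WrapC.v2 H.c6 (by omega) (by omega) (by omega) (by omega) (by omega) (by omega) (by omega)).mpr (by omega)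
    · obtain ⟨rfl, rfl, h⟩ := h
      exact (WrapC.v1 H.c4 (by omega) (by omega) (by omega) (by omega) (by omega) (by omega) (by omega) (by omega)).mpr (by omega)
    · obtain ⟨rfl, rfl, h⟩ := h
      exact (WrapC.v2 H.c4 (by omega) (by omega) (by omega) (by omega) (by omega) (by omega) (by omega)).mpr (by omega)
    · obtain ⟨rfl, rfl, h⟩ := h
      exact (WrapC.v2 H.c2 (by omega) (by omega) (by omega) (by omega) (by omega) (by omega) (by omega)).mpr (by omega)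
    · obtain ⟨rfl, rfl, h⟩ := h
      exact (WrapC.v3 H.c2 (by omega) (by omega) (by omega) (by omega) (by omega) (by omega) (by omega) (by omega)).mpr (by omega)
    · obtain ⟨rfl, rfl, rfl, rfl⟩ := h
      exact g0 _ _ _ _ (by omega) (by omega) (by omega) (by omega)
    · obtain ⟨rfl, rfl, rfl, rfl⟩ := h
      exact g1 _ _ _ _ (by omega) (by omega) (by omega) (by omega)
    · obtain ⟨rfl, rfl, rfl, rfl⟩ := h
      exact g2 _ _ _ _ (by omega) (by omega) (by omega) (by omega)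
  · intro j m p q hr h
    obtain ⟨-, -, -, -, hp1, hp2, hq1, hq2⟩ := hr
    replace h := of_decide_eq_true h
    rcases h with h | h | h | h | h | h | h | h | h | h | h | h | h | h | h | h | h | h | h | h | h | h | h | h
    · obtain ⟨rfl, rfl, h⟩ := h
      exact mt (w2v H.c10 (by omega) (by omega) (by omega) (by omega) (by omega) (by omega) (by omega)).mp (by omega)
    · obtain ⟨rfl, rfl, h⟩ := h
      exact mt (w0v H.c8 (by omega) (by omega) (by omega) (by omega) (by omega) (by omega) (by omega)).mp (by omega)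
    · obtain ⟨rfl, rfl, h⟩ := h
      exact mt (w3v H.c8 (by omega) (by omega) (by omega) (by omega) (by omega) (by omega) (by omega) (by omega)).mp (by omega)
    · obtain ⟨rfl, rfl, h⟩ := h
      exact mt (WrapC.v2 H.c6 (by omega) (by omega) (by omega) (by omega) (by omega) (by omega) (by omega)).mp (by omega)
    · obtain ⟨rfl, rfl, h⟩ := h
      exact mt (WrapC.v1 H.c4 (by omega) (by omega) (by omega) (by omega) (by omega) (by omega) (by omega) (by omega)).mp (by omega)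
    · obtain ⟨rfl, rfl, h⟩ := h
      exact mt (WrapC.v2 H.c4 (by omega) (by omega) (by omega) (by omega) (by omega) (by omega) (by omega)).mp (by omega)
    · obtain ⟨rfl, rfl, h⟩ := h
      exact mt (WrapC.v2 H.c2 (by omega) (by omega) (by omega) (by omega) (by omega) (by omega) (by omega)).mp (by omega)
    · obtain ⟨rfl, rfl, h⟩ := h
      exact mt (WrapC.v3 H.c2 (by omega) (by omega) (by omega) (by omega) (by omega) (by omega) (by omega) (by omega)).mp (by omega)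
    · obtain ⟨rfl, rfl, h⟩ := h
      exact H.lw _ _ _ _ (by omega) (by omega) (by omega) (by omega) (by omega) (by omega)
    · obtain ⟨rfl, rfl, h⟩ := h
      exact H.lw _ _ _ _ (by omega) (by omega) (by omega) (by omega) (by omega) (by omega)
    · obtain ⟨rfl, rfl, h⟩ := h
      exact H.lw _ _ _ _ (by omega) (by omega) (by omega) (by omega) (by omega) (by omega)
    · obtain ⟨rfl, rfl, h⟩ := h
      exact H.lw _ _ _ _ (by omega) (by omega) (by omega) (by omega) (by omega) (by omega)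
    · obtain ⟨rfl, rfl, h⟩ := h
      exact H.lw _ _ _ _ (by omega) (by omega) (by omega) (by omega) (by omega) (by omega)
    · obtain ⟨rfl, rfl, h⟩ := h
      exact rm1 hf H.T (p := 0) (j := 3) (by omega) (by omega) (by omega) (by omega) (by omega) (by omega) (by omega)
    · obtain ⟨rfl, rfl, h⟩ := h
      exact NHT.p2 hf H.T (j := 3) (by omega) (by omega) (by omega) (by omega) (by omega) (by omega)
    · obtain ⟨rfl, rfl, h⟩ := h
      exact rm1 hf H.T (p := 0) (j := 1) (by omega) (by omega) (by omega) (by omega) (by omega) (by omega) (by omega)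
    · obtain ⟨rfl, rfl, h⟩ := h
      exact r1i hf H.T (p := 0) (j := 2) (by omega) (by omega) (by omega) (by omega) (by omega) (by omega) (by omega)
    · obtain ⟨rfl, rfl, h⟩ := h
      exact NHT.pmi hf H.T (j := 0) (by omega) (by omega) (by omega) (by omega) (by omega) (by omega)
    · obtain ⟨rfl, rfl, h⟩ := h
      exact NHT.p0i hf H.T (j := 1) (by omega) (by omega) (by omega) (by omega) (by omega) (by omega)
    · obtain ⟨rfl, rfl, h⟩ := h
      exact NHT.p0 hf H.T (j := 0) (by omega) (by omega) (by omega) (by omega) (by omega) (by omega)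
    · obtain ⟨rfl, rfl, h⟩ := h
      exact NHT.p2 hf H.T (j := 1) (by omega) (by omega) (by omega) (by omega) (by omega) (by omega)
    · obtain ⟨rfl, rfl, h⟩ := h
      exact r1 hf H.T (p := 1) (j := 1) (by omega) (by omega) (by omega) (by omega) (by omega) (by omega) (by omega)
    · obtain ⟨rfl, rfl, h⟩ := h
      exact r1i hf H.T (p := 1) (j := 2) (by omega) (by omega) (by omega) (by omega) (by omega) (by omega) (by omega)
    · obtain ⟨rfl, rfl, h⟩ := h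
      exact NHT.p2 hf H.T (j := 1) (by omega) (by omega) (by omega) (by omega) (by omega) (by omega)

theorem d4_6_1_chk : check 7 7 15 15 1 1 1 1 2
    (fun j n p q => decide ((j = 7 ∧ n = 5 ∧ q ≤ p ∧ (p + q) % 2 = 1 ∧ p % 2 = 1)
      ∨ (j = 5 ∧ n = 3 ∧ q ≤ p ∧ (p + q) % 2 = 1 ∧ p % 2 = 1)
      ∨ (j = 5 ∧ n = 4 ∧ q ≤ p ∧ p = q ∧ p % 2 = 0)
      ∨ (j = 3 ∧ n = 1 ∧ q ≤ p ∧ (p + q) % 2 = 1 ∧ p % 2 = 1)
      ∨ (j = 3 ∧ n = 5 ∧ p = 8 ∧ q = 1)
      ∨ (j = 3 ∧ n = 3 ∧ p = 4 ∧ q = 3)))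
    (fun j n p q => decide ((j = 7 ∧ n = 5 ∧ q ≤ p ∧ ¬ ((p + q) % 2 = 1 ∧ p % 2 = 1))
      ∨ (j = 5 ∧ n = 3 ∧ q ≤ p ∧ ¬ ((p + q) % 2 = 1 ∧ p % 2 = 1))
      ∨ (j = 5 ∧ n = 4 ∧ q ≤ p ∧ ¬ (p = q ∧ p % 2 = 0))
      ∨ (j = 3 ∧ n = 1 ∧ q ≤ p ∧ ¬ ((p + q) % 2 = 1 ∧ p % 2 = 1))
      ∨ (j = 3 ∧ n = 4 ∧ q + 3 ≤ p)
      ∨ (j = 4 ∧ n = 4 ∧ q + 2 ≤ p)
      ∨ (j = 4 ∧ n = 5 ∧ q + 2 ≤ p)))
    201
    0x14e0030e40800e40810aad000dc0c20e48030abb800ab4800dcf420dc8420aba800aa5800aa58e0aa5840ba5800bac800eb9ca0ec7d20ec00e0eb8830eb9000ec0000ec00e0ec0040ac4800acb800dd8420ddf420ab5800aca800dc9420dde420aca0e14e0030e40800e40810ba5800eb9ca0eb8830ec0000eb9000eb90e0eb9040eb9830b34800e48420abb800ab4800ab48e0ab4840abd000dd0c20aae000aca0e0aca040aad8e0dc0830aad800aad840a4b800b96800d5f420bab800eaaca107a800ec6d20b87800b248017fb8017ec8010f33a10f38010e48010d58010e38010d4800baa800baa8e0e38420aa48009db8009cc8009cb8009bc8018028e18018e11638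011630e11628e11538010fa8010fa8e10f98010f98e10f88010f88e10f28e10ea8010ea8e10e98010e98e0ec78e0ec70e0ec68e0ec60e0ebf8e0ebf0e0ebe8e0e570e0e568e0e560e0e558e0e4f0e0e4e8e0e4e0e0e470e0ec5d20ba9800b430e0b428e0b420e0b3b0e0b3a8e0aab800aab8e09e28009e28e09e18009e18e09da8e09d28009d28e09d18e18028f18018f11cc0711638f116307116287115b8711538f10fa8f10f98f10f88f10f30710f28710eb0710ea8f10e98f0ec7870ec7070ec6870ec6070ec5870ec5070ebf870ebf070ebe870ebe070ebd870e57070e56870e56070e55870e55070e54870e4f070e4e870e4e070e4d870e4d070e47070bb4070bb3070bb2070ba98f0ba6070ba5070b97070b43070b42870b42070b41870b41070b3b070b3a870b3a070b39870ac4070ac3070ab5070ab4070aab8f0aa50709e28f09e18f09db0709da8709d30709d28f09d18f = true := by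
  decide +kernel

theorem d4_6_1 (hf : Rule f) {k c n s : ℕ} (H : DH f k c n) (hs : s % 2 = 0) (hs4 : 2 * n + 4 ≤ s)
    (h1 : f (6 * k + 6) (c) (s + 3) (s + 2)) : ¬ f (6 * k + 6) (c + 2) (s + 7) (s) := by
  intro h0
  have hk := H.T.hk
  have hc := H.T.hc
  have h4 := H.T.h4
  have hb := H.T.hb
  have hN := H.T.hN2
  have g0 : ∀ M R x y : ℕ, M = 6 * k + 6 → R = c + 2 → x = s + 7 → y = s → f M R x y := by
    intro M R x y e1 e2 e3 e4
    rw [e1, e2, e3, e4]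
    exact h0
  clear h0
  have g1 : ∀ M R x y : ℕ, M = 6 * k + 6 → R = c → x = s + 3 → y = s + 2 → f M R x y := by
    intro M R x y e1 e2 e3 e4
    rw [e1, e2, e3, e4]
    exact h1
  clear h1
  obtain ⟨a0, ha0⟩ : ∃ z, z = 6 * k + 3 := ⟨_, rfl⟩
  obtain ⟨b0, hb0⟩ : ∃ z, z + 3 = c := ⟨c - 3, by omega⟩
  obtain ⟨x0, hx0⟩ : ∃ z, z + 1 = s := ⟨s - 1, by omega⟩
  refine check_sound hf (a0 := a0) (b0 := b0) (x0 := x0) (y0 := x0) d4_6_1_chk
    ⟨fun _ => rfl, fun h => absurd h (by decide), fun h => absurd h (by decide), by omega, by omega,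
      by omega, by omega⟩ ?_ ?_
  · intro j m p q hr h
    obtain ⟨-, -, -, -, hp1, hp2, hq1, hq2⟩ := hr
    replace h := of_decide_eq_true h
    rcases h with h | h | h | h | h | h
    · obtain ⟨rfl, rfl, h⟩ := h
      exact (w2v H.c10 (by omega) (by omega) (by omega) (by omega) (by omega) (by omega) (by omega)).mpr (by omega)
    · obtain ⟨rfl, rfl, h⟩ := h
      exact (w2v H.c8 (by omega) (by omega) (by omega) (by omega) (by omega) (by omega) (by omega)).mpr (by omega)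
    · obtain ⟨rfl, rfl, h⟩ := h
      exact (w3v H.c8 (by omega) (by omega) (by omega) (by omega) (by omega) (by omega) (by omega) (by omega)).mpr (by omega)
    · obtain ⟨rfl, rfl, h⟩ := h
      exact (WrapC.v2 H.c6 (by omega) (by omega) (by omega) (by omega) (by omega) (by omega) (by omega)).mpr (by omega)
    · obtain ⟨rfl, rfl, rfl, rfl⟩ := h
      exact g0 _ _ _ _ (by omega) (by omega) (by omega) (by omega)
    · obtain ⟨rfl, rfl, rfl, rfl⟩ := h
      exact g1 _ _ _ _ (by omega) (by omega) (by omega) (by omega)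
  · intro j m p q hr h
    obtain ⟨-, -, -, -, hp1, hp2, hq1, hq2⟩ := hr
    replace h := of_decide_eq_true h
    rcases h with h | h | h | h | h | h | h
    · obtain ⟨rfl, rfl, h⟩ := h
      exact mt (w2v H.c10 (by omega) (by omega) (by omega) (by omega) (by omega) (by omega) (by omega)).mp (by omega)
    · obtain ⟨rfl, rfl, h⟩ := h
      exact mt (w2v H.c8 (by omega) (by omega) (by omega) (by omega) (by omega) (by omega) (by omega)).mp (by omega)
    · obtain ⟨rfl, rfl, h⟩ := h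
      exact mt (w3v H.c8 (by omega) (by omega) (by omega) (by omega) (by omega) (by omega) (by omega) (by omega)).mp (by omega)
    · obtain ⟨rfl, rfl, h⟩ := h
      exact mt (WrapC.v2 H.c6 (by omega) (by omega) (by omega) (by omega) (by omega) (by omega) (by omega)).mp (by omega)
    · obtain ⟨rfl, rfl, h⟩ := h
      exact r1i hf H.T (p := 0) (j := 2) (by omega) (by omega) (by omega) (by omega) (by omega) (by omega) (by omega)
    · obtain ⟨rfl, rfl, h⟩ := h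
      exact r1 hf H.T (p := 1) (j := 1) (by omega) (by omega) (by omega) (by omega) (by omega) (by omega) (by omega)
    · obtain ⟨rfl, rfl, h⟩ := h
      exact NHT.p2 hf H.T (j := 1) (by omega) (by omega) (by omega) (by omega) (by omega) (by omega)

theorem d4_6_2_chk : check 12 7 15 15 0 1 1 1 2
    (fun j n p q => decide ((j = 10 ∧ n = 4 ∧ q ≤ p ∧ p = q ∧ p % 2 = 0)
      ∨ (j = 8 ∧ n = 1 ∧ q ≤ p ∧ (p + q) % 2 = 1 ∧ p % 2 = 1)
      ∨ (j = 8 ∧ n = 5 ∧ p = 8 ∧ q = 1)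
      ∨ (j = 8 ∧ n = 3 ∧ p = 6 ∧ q = 5)))
    (fun j n p q => decide ((j = 10 ∧ n = 4 ∧ q ≤ p ∧ ¬ (p = q ∧ p % 2 = 0))
      ∨ (j = 8 ∧ n = 1 ∧ q ≤ p ∧ ¬ ((p + q) % 2 = 1 ∧ p % 2 = 1))
      ∨ (j = 1 ∧ n = 1 ∧ q ≤ p)
      ∨ (j = 1 ∧ n = 2 ∧ q ≤ p)
      ∨ (j = 1 ∧ n = 3 ∧ q ≤ p)
      ∨ (j = 1 ∧ n = 4 ∧ q ≤ p)
      ∨ (j = 1 ∧ n = 5 ∧ q ≤ p)
      ∨ (j = 8 ∧ n = 4 ∧ q + 2 ≤ p)
      ∨ (j = 9 ∧ n = 4 ∧ q + 3 ≤ p)
      ∨ (j = 9 ∧ n = 5 ∧ q + 2 ≤ p)))
    63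
    0x1d48031db8801e29221d40031db0801db0841b0d001e28521a96001b0c001da9c21a160020c5001e27521b0b001a1d001a1d0e19530019440019430020c50f1e29071e28871e28071e27871e27071e26871e21071e20871e20071e1f871e1f071db8071db7871db7071db6871db6071db0071daf871daf071dae871b15871b14871b13871b0b0f1aa5071aa4871aa4071aa3871aa3071aa2871a9d071a9c871a9c071a9b871a9b071a34871a25871a24871a1d0f19530f19440f19430f = true := by
  decide +kernel

theorem d4_6_2 (hf : Rule f) {k c n s : ℕ} (H : DH f k c n) (hs : s % 2 = 0) (hs4 : 2 * n + 4 ≤ s)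
    (h1 : f (6 * k + 6) (c) (s + 5) (s + 4)) : ¬ f (6 * k + 6) (c + 2) (s + 7) (s) := by
  intro h0
  have hk := H.T.hk
  have hc := H.T.hc
  have h4 := H.T.h4
  have hb := H.T.hb
  have hN := H.T.hN2
  have g0 : ∀ M R x y : ℕ, M = 6 * k + 6 → R = c + 2 → x = s + 7 → y = s → f M R x y := by
    intro M R x y e1 e2 e3 e4
    rw [e1, e2, e3, e4]
    exact h0
  clear h0
  have g1 : ∀ M R x y : ℕ, M = 6 * k + 6 → R = c → x = s + 5 → y = s + 4 → f M R x y := by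
    intro M R x y e1 e2 e3 e4
    rw [e1, e2, e3, e4]
    exact h1
  clear h1
  obtain ⟨a0, ha0⟩ : ∃ z, z + 2 = 6 * k := ⟨6 * k - 2, by omega⟩
  obtain ⟨b0, hb0⟩ : ∃ z, z + 3 = c := ⟨c - 3, by omega⟩
  obtain ⟨x0, hx0⟩ : ∃ z, z + 1 = s := ⟨s - 1, by omega⟩
  refine check_sound hf (a0 := a0) (b0 := b0) (x0 := x0) (y0 := x0) d4_6_2_chk
    ⟨fun _ => rfl, fun h => absurd h (by decide), fun h => absurd h (by decide), by omega, by omega,
      by omega, by omega⟩ ?_ ?_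
  · intro j m p q hr h
    obtain ⟨-, -, -, -, hp1, hp2, hq1, hq2⟩ := hr
    replace h := of_decide_eq_true h
    rcases h with h | h | h | h
    · obtain ⟨rfl, rfl, h⟩ := h
      exact (w3v H.c8 (by omega) (by omega) (by omega) (by omega) (by omega) (by omega) (by omega) (by omega)).mpr (by omega)
    · obtain ⟨rfl, rfl, h⟩ := h
      exact (WrapC.v2 H.c6 (by omega) (by omega) (by omega) (by omega) (by omega) (by omega) (by omega)).mpr (by omega)
    · obtain ⟨rfl, rfl, rfl, rfl⟩ := h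
      exact g0 _ _ _ _ (by omega) (by omega) (by omega) (by omega)
    · obtain ⟨rfl, rfl, rfl, rfl⟩ := h
      exact g1 _ _ _ _ (by omega) (by omega) (by omega) (by omega)
  · intro j m p q hr h
    obtain ⟨-, -, -, -, hp1, hp2, hq1, hq2⟩ := hr
    replace h := of_decide_eq_true h
    rcases h with h | h | h | h | h | h | h | h | h | h
    · obtain ⟨rfl, rfl, h⟩ := h
      exact mt (w3v H.c8 (by omega) (by omega) (by omega) (by omega) (by omega) (by omega) (by omega) (by omega)).mp (by omega)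
    · obtain ⟨rfl, rfl, h⟩ := h
      exact mt (WrapC.v2 H.c6 (by omega) (by omega) (by omega) (by omega) (by omega) (by omega) (by omega)).mp (by omega)
    · obtain ⟨rfl, rfl, h⟩ := h
      exact H.lw _ _ _ _ (by omega) (by omega) (by omega) (by omega) (by omega) (by omega)
    · obtain ⟨rfl, rfl, h⟩ := h
      exact H.lw _ _ _ _ (by omega) (by omega) (by omega) (by omega) (by omega) (by omega)
    · obtain ⟨rfl, rfl, h⟩ := h
      exact H.lw _ _ _ _ (by omega) (by omega) (by omega) (by omega) (by omega) (by omega)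
    · obtain ⟨rfl, rfl, h⟩ := h
      exact H.lw _ _ _ _ (by omega) (by omega) (by omega) (by omega) (by omega) (by omega)
    · obtain ⟨rfl, rfl, h⟩ := h
      exact H.lw _ _ _ _ (by omega) (by omega) (by omega) (by omega) (by omega) (by omega)
    · obtain ⟨rfl, rfl, h⟩ := h
      exact r1 hf H.T (p := 0) (j := 1) (by omega) (by omega) (by omega) (by omega) (by omega) (by omega) (by omega)
    · obtain ⟨rfl, rfl, h⟩ := h
      exact r1i hf H.T (p := 1) (j := 2) (by omega) (by omega) (by omega) (by omega) (by omega) (by omega) (by omega)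
    · obtain ⟨rfl, rfl, h⟩ := h
      exact NHT.p2 hf H.T (j := 1) (by omega) (by omega) (by omega) (by omega) (by omega) (by omega)

end Pool.Agent.SNT.LN
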