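import Pool.Agent.SNT.LND

set_option autoImplicit false
set_option synthInstance.maxSize 100000
set_option synthInstance.maxHeartbeats 4000000

/-! near-diagonal windows (LN4) -/

namespace Pool.Agent.SNT.LN

open Pool.Agent.SNT Pool.Agent.SNT.Loc Pool.Agent.SNT.LW Pool.Agent.SNT.NHZ Pool.Agent.SNT.NW

variable {f : ℕ → ℕ → ℕ → ℕ → Prop}

theorem co6_7_1_chk : check 12 6 17 17 0 0 1 1 2
    (fun j n p q => decide ((j = 12 ∧ n = 4 ∧ q ≤ p ∧ 7 ≤ q ∧ (p + q) % 2 = 1 ∧ p % 2 = 1)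
      ∨ (j = 10 ∧ n = 2 ∧ q ≤ p ∧ (p + q) % 2 = 1 ∧ p % 2 = 1)
      ∨ (j = 8 ∧ n = 1 ∧ q ≤ p ∧ p = q ∧ p % 2 = 0)
      ∨ (j = 8 ∧ n = 4 ∧ p = 10 ∧ q = 7)
      ∨ (j = 8 ∧ n = 2 ∧ p = 6 ∧ q = 5)))
    (fun j n p q => decide ((j = 12 ∧ n = 4 ∧ q ≤ p ∧ 7 ≤ q ∧ ¬ ((p + q) % 2 = 1 ∧ p % 2 = 1))
      ∨ (j = 10 ∧ n = 2 ∧ q ≤ p ∧ ¬ ((p + q) % 2 = 1 ∧ p % 2 = 1))
      ∨ (j = 8 ∧ n = 1 ∧ q ≤ p ∧ ¬ (p = q ∧ p % 2 = 0))
      ∨ (j = 1 ∧ n = 1 ∧ q ≤ p ∧ 3 ≤ p)
      ∨ (j = 1 ∧ n = 2 ∧ q ≤ p ∧ 3 ≤ p)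
      ∨ (j = 1 ∧ n = 3 ∧ q ≤ p ∧ 3 ≤ p)
      ∨ (j = 1 ∧ n = 4 ∧ q ≤ p ∧ 3 ≤ p)))
    165
    0x27de03210f00210f011d1a80207dc21c78801c80801c78811c80811c800e27ee03211f00211f011d1a00207d421c80001c80041d2b8e1ff5831d2b801d2b841d1b0e207d831d23001d1b001d1b0e1d1b04191d0e1fe383191d00191d041d130e1fe5031d13001d1304187c8e1fdb83187c80187c8419158e2075031915801915841d128e1fe5031d12801d1284207e8e1fed83207e80207e8420760e1fe58320760020760420758e1fe503207580207584206c8e1fdb83206c80206c84187c0e1fdb83187c00187c04207d0e27dc83207d00207d041d0880206bc223e98023d780274cc2273ac222bf8022ad802b41802b408023593a23598023488023473a2347802336802335801d9a801c66802b59802b598e2b48802b488e2b47802b368023618023618e23608023608e23588e234f80234f8e234e80234e8e23468e233d80233d8e1db2801db28e1c6e801c6e8e1c0a0e1c098e1c02801c020e1c018e1c010e1bf88e1bf0801bf00e1bef8e1bde802b598f2b488f2b478f2b368f24820724720724710723618f23608f235907235887235007234f8f234e8f234707234687233e07233d8f1dbc071db28f1dac071c8a071c89071c7a071c79071c78071c6e8f1c0a071c09871c028f1c02071c01871c01071bf9871bf9071bf8871bf08f1bf0071bef871be7871be7071bde8f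 = true := by
  decide +kernel

theorem co6_7_1 (hf : Rule f) {k c n : ℕ} (H : DH f k c n)
    (h1 : f (6 * k + 6) (c) (2 * n + 3) (2 * n + 2)) : ¬ f (6 * k + 6) (c + 2) (2 * n + 7) (2 * n + 4) := by
  intro h0
  have hk := H.T.hk
  have hc := H.T.hc
  have h4 := H.T.h4
  have hb := H.T.hb
  have hN := H.T.hN2
  have g0 : ∀ M R x y : ℕ, M = 6 * k + 6 → R = c + 2 → x = 2 * n + 7 → y = 2 * n + 4 → f M R x y := by
    intro M R x y e1 e2 e3 e4
    rw [e1, e2, e3, e4]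
    exact h0
  clear h0
  have g1 : ∀ M R x y : ℕ, M = 6 * k + 6 → R = c → x = 2 * n + 3 → y = 2 * n + 2 → f M R x y := by
    intro M R x y e1 e2 e3 e4
    rw [e1, e2, e3, e4]
    exact h1
  clear h1
  obtain ⟨a0, ha0⟩ : ∃ z, z + 2 = 6 * k := ⟨6 * k - 2, by omega⟩
  obtain ⟨b0, hb0⟩ : ∃ z, z + 2 = c := ⟨c - 2, by omega⟩
  obtain ⟨x0, hx0⟩ : ∃ z, z + 3 = 2 * n := ⟨2 * n - 3, by omega⟩
  refine check_sound hf (a0 := a0) (b0 := b0) (x0 := x0) (y0 := x0) co6_7_1_chk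
    ⟨fun _ => rfl, fun h => absurd h (by decide), fun h => absurd h (by decide), by omega, by omega,
      by omega, by omega⟩ ?_ ?_
  · intro j m p q hr h
    obtain ⟨-, -, -, -, hp1, hp2, hq1, hq2⟩ := hr
    replace h := of_decide_eq_true h
    rcases h with h | h | h | h | h
    · obtain ⟨rfl, rfl, h⟩ := h
      exact (w2v H.c10 (by omega) (by omega) (by omega) (by omega) (by omega) (by omega) (by omega)).mpr (by omega)
    · obtain ⟨rfl, rfl, h⟩ := h
      exact (w2v H.c8 (by omega) (by omega) (by omega) (by omega) (by omega) (by omega) (by omega)).mpr (by omega)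
    · obtain ⟨rfl, rfl, h⟩ := h
      exact (WrapC.v3 H.c6 (by omega) (by omega) (by omega) (by omega) (by omega) (by omega) (by omega) (by omega)).mpr (by omega)
    · obtain ⟨rfl, rfl, rfl, rfl⟩ := h
      exact g0 _ _ _ _ (by omega) (by omega) (by omega) (by omega)
    · obtain ⟨rfl, rfl, rfl, rfl⟩ := h
      exact g1 _ _ _ _ (by omega) (by omega) (by omega) (by omega)
  · intro j m p q hr h
    obtain ⟨-, -, -, -, hp1, hp2, hq1, hq2⟩ := hr
    replace h := of_decide_eq_true h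
    rcases h with h | h | h | h | h | h | h
    · obtain ⟨rfl, rfl, h⟩ := h
      exact mt (w2v H.c10 (by omega) (by omega) (by omega) (by omega) (by omega) (by omega) (by omega)).mp (by omega)
    · obtain ⟨rfl, rfl, h⟩ := h
      exact mt (w2v H.c8 (by omega) (by omega) (by omega) (by omega) (by omega) (by omega) (by omega)).mp (by omega)
    · obtain ⟨rfl, rfl, h⟩ := h
      exact mt (WrapC.v3 H.c6 (by omega) (by omega) (by omega) (by omega) (by omega) (by omega) (by omega) (by omega)).mp (by omega)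
    · obtain ⟨rfl, rfl, h⟩ := h
      exact H.lw _ _ _ _ (by omega) (by omega) (by omega) (by omega) (by omega) (by omega)
    · obtain ⟨rfl, rfl, h⟩ := h
      exact H.lw _ _ _ _ (by omega) (by omega) (by omega) (by omega) (by omega) (by omega)
    · obtain ⟨rfl, rfl, h⟩ := h
      exact H.lw _ _ _ _ (by omega) (by omega) (by omega) (by omega) (by omega) (by omega)
    · obtain ⟨rfl, rfl, h⟩ := h
      exact H.lw _ _ _ _ (by omega) (by omega) (by omega) (by omega) (by omega) (by omega)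

theorem co6_7_2_chk : check 12 6 17 17 0 0 1 1 2
    (fun j n p q => decide ((j = 12 ∧ n = 4 ∧ q ≤ p ∧ 7 ≤ q ∧ (p + q) % 2 = 1 ∧ p % 2 = 1)
      ∨ (j = 10 ∧ n = 2 ∧ q ≤ p ∧ (p + q) % 2 = 1 ∧ p % 2 = 1)
      ∨ (j = 8 ∧ n = 1 ∧ q ≤ p ∧ p = q ∧ p % 2 = 0)
      ∨ (j = 8 ∧ n = 4 ∧ p = 10 ∧ q = 7)
      ∨ (j = 8 ∧ n = 2 ∧ p = 8 ∧ q = 7)))
    (fun j n p q => decide ((j = 12 ∧ n = 4 ∧ q ≤ p ∧ 7 ≤ q ∧ ¬ ((p + q) % 2 = 1 ∧ p % 2 = 1))
      ∨ (j = 10 ∧ n = 2 ∧ q ≤ p ∧ ¬ ((p + q) % 2 = 1 ∧ p % 2 = 1))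
      ∨ (j = 8 ∧ n = 1 ∧ q ≤ p ∧ ¬ (p = q ∧ p % 2 = 0))
      ∨ (j = 1 ∧ n = 1 ∧ q ≤ p ∧ 3 ≤ p)
      ∨ (j = 1 ∧ n = 2 ∧ q ≤ p ∧ 3 ≤ p)
      ∨ (j = 1 ∧ n = 3 ∧ q ≤ p ∧ 3 ≤ p)
      ∨ (j = 1 ∧ n = 4 ∧ q ≤ p ∧ 3 ≤ p)))
    89
    0x27de03210f00210f011c8a801fedc21c79801fdcc227de03210f00210f011c82001fe5421c71001c71041d1a80207dc223e980274cc21c678022bf801c7f8e2b41802b408023593a2359802348802337802347802336801d9a801c78801fe34a2b598e2b48802b488e23618023618e23608e235f8e23588e234f80234f8e234e80234e8e233d801db28e1c80801c808e1c02801c020e1c018e1c010e1c008e1bf88e1bf80e1bf0801bde802b598f2b488f24720723618f23608f235f8f235907235887235007234f8f234e8f233d8f1db28f1dac071c8a071c808f1c79071c77071c028f1c02071c01871c01071c00871bf9871bf8871bf8071bf08f1bef871bef071be7071be6871bde8f = true := by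
  decide +kernel

theorem co6_7_2 (hf : Rule f) {k c n : ℕ} (H : DH f k c n)
    (h1 : f (6 * k + 6) (c) (2 * n + 5) (2 * n + 4)) : ¬ f (6 * k + 6) (c + 2) (2 * n + 7) (2 * n + 4) := by
  intro h0
  have hk := H.T.hk
  have hc := H.T.hc
  have h4 := H.T.h4
  have hb := H.T.hb
  have hN := H.T.hN2
  have g0 : ∀ M R x y : ℕ, M = 6 * k + 6 → R = c + 2 → x = 2 * n + 7 → y = 2 * n + 4 → f M R x y := by
    intro M R x y e1 e2 e3 e4
    rw [e1, e2, e3, e4]
    exact h0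
  clear h0
  have g1 : ∀ M R x y : ℕ, M = 6 * k + 6 → R = c → x = 2 * n + 5 → y = 2 * n + 4 → f M R x y := by
    intro M R x y e1 e2 e3 e4
    rw [e1, e2, e3, e4]
    exact h1
  clear h1
  obtain ⟨a0, ha0⟩ : ∃ z, z + 2 = 6 * k := ⟨6 * k - 2, by omega⟩
  obtain ⟨b0, hb0⟩ : ∃ z, z + 2 = c := ⟨c - 2, by omega⟩
  obtain ⟨x0, hx0⟩ : ∃ z, z + 3 = 2 * n := ⟨2 * n - 3, by omega⟩
  refine check_sound hf (a0 := a0) (b0 := b0) (x0 := x0) (y0 := x0) co6_7_2_chk
    ⟨fun _ => rfl, fun h => absurd h (by decide), fun h => absurd h (by decide), by omega, by omega,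
      by omega, by omega⟩ ?_ ?_
  · intro j m p q hr h
    obtain ⟨-, -, -, -, hp1, hp2, hq1, hq2⟩ := hr
    replace h := of_decide_eq_true h
    rcases h with h | h | h | h | h
    · obtain ⟨rfl, rfl, h⟩ := h
      exact (w2v H.c10 (by omega) (by omega) (by omega) (by omega) (by omega) (by omega) (by omega)).mpr (by omega)
    · obtain ⟨rfl, rfl, h⟩ := h
      exact (w2v H.c8 (by omega) (by omega) (by omega) (by omega) (by omega) (by omega) (by omega)).mpr (by omega)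
    · obtain ⟨rfl, rfl, h⟩ := h
      exact (WrapC.v3 H.c6 (by omega) (by omega) (by omega) (by omega) (by omega) (by omega) (by omega) (by omega)).mpr (by omega)
    · obtain ⟨rfl, rfl, rfl, rfl⟩ := h
      exact g0 _ _ _ _ (by omega) (by omega) (by omega) (by omega)
    · obtain ⟨rfl, rfl, rfl, rfl⟩ := h
      exact g1 _ _ _ _ (by omega) (by omega) (by omega) (by omega)
  · intro j m p q hr h
    obtain ⟨-, -, -, -, hp1, hp2, hq1, hq2⟩ := hr
    replace h := of_decide_eq_true h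
    rcases h with h | h | h | h | h | h | h
    · obtain ⟨rfl, rfl, h⟩ := h
      exact mt (w2v H.c10 (by omega) (by omega) (by omega) (by omega) (by omega) (by omega) (by omega)).mp (by omega)
    · obtain ⟨rfl, rfl, h⟩ := h
      exact mt (w2v H.c8 (by omega) (by omega) (by omega) (by omega) (by omega) (by omega) (by omega)).mp (by omega)
    · obtain ⟨rfl, rfl, h⟩ := h
      exact mt (WrapC.v3 H.c6 (by omega) (by omega) (by omega) (by omega) (by omega) (by omega) (by omega) (by omega)).mp (by omega)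
    · obtain ⟨rfl, rfl, h⟩ := h
      exact H.lw _ _ _ _ (by omega) (by omega) (by omega) (by omega) (by omega) (by omega)
    · obtain ⟨rfl, rfl, h⟩ := h
      exact H.lw _ _ _ _ (by omega) (by omega) (by omega) (by omega) (by omega) (by omega)
    · obtain ⟨rfl, rfl, h⟩ := h
      exact H.lw _ _ _ _ (by omega) (by omega) (by omega) (by omega) (by omega) (by omega)
    · obtain ⟨rfl, rfl, h⟩ := h
      exact H.lw _ _ _ _ (by omega) (by omega) (by omega) (by omega) (by omega) (by omega)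

theorem co6_9_1_chk : check 12 7 17 17 0 1 1 1 2
    (fun j n p q => decide ((j = 12 ∧ n = 5 ∧ q ≤ p ∧ 9 ≤ q ∧ (p + q) % 2 = 1 ∧ p % 2 = 1)
      ∨ (j = 10 ∧ n = 3 ∧ q ≤ p ∧ 3 ≤ q ∧ (p + q) % 2 = 1 ∧ p % 2 = 1)
      ∨ (j = 10 ∧ n = 4 ∧ q ≤ p ∧ 5 ≤ q ∧ p = q ∧ p % 2 = 0)
      ∨ (j = 8 ∧ n = 1 ∧ q ≤ p ∧ (p + q) % 2 = 1 ∧ p % 2 = 1)
      ∨ (j = 8 ∧ n = 5 ∧ p = 14 ∧ q = 9)
      ∨ (j = 8 ∧ n = 3 ∧ p = 8 ∧ q = 7)))
    (fun j n p q => decide ((j = 12 ∧ n = 5 ∧ q ≤ p ∧ 9 ≤ q ∧ ¬ ((p + q) % 2 = 1 ∧ p % 2 = 1))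
      ∨ (j = 10 ∧ n = 3 ∧ q ≤ p ∧ 3 ≤ q ∧ ¬ ((p + q) % 2 = 1 ∧ p % 2 = 1))
      ∨ (j = 10 ∧ n = 4 ∧ q ≤ p ∧ 5 ≤ q ∧ ¬ (p = q ∧ p % 2 = 0))
      ∨ (j = 8 ∧ n = 1 ∧ q ≤ p ∧ ¬ ((p + q) % 2 = 1 ∧ p % 2 = 1))
      ∨ (j = 1 ∧ n = 1 ∧ q ≤ p ∧ 5 ≤ p)
      ∨ (j = 1 ∧ n = 2 ∧ q ≤ p ∧ 5 ≤ p)
      ∨ (j = 1 ∧ n = 3 ∧ q ≤ p ∧ 5 ≤ p)
      ∨ (j = 1 ∧ n = 4 ∧ q ≤ p ∧ 5 ≤ p)
      ∨ (j = 1 ∧ n = 5 ∧ q ≤ p ∧ 5 ≤ p)
      ∨ (j = 9 ∧ n = 5 ∧ 9 ≤ q ∧ q + 2 ≤ p ∧ p ≤ q + 13)))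
    214
    0x2eac8326bc8026bc8122c98026c65a21a0002593c22eac8326bc8026bc8122c98026c65a21a880259c422197802197842241002634c2219f00218e0021a7002592c2258a52259ac221a68e26d60322408026344221a68021a68422d30022eb0026c74a26e752225a8e25bd83225a80225a8422630e25c603226300226304223a0e259d03223a00223a0422628e25c58322628022628426238e259283262380262384262c8e259c03262c80262c8426358e25a48326358026358426360e25a583263600263604262d0e259c83262d00262d04262d8e259d03262d80262d84262e0e259d83262e00262e0426368e25a603263680263684262c0e2eac83262c00262c04211700250ac2290700222f0032a90032980029a20029910029a0ba29a100299000297f00298f00297e0022c2002622c2218d0020890020780020880020770020870020760020750020640032b10e32b00e2a31002a308e2a300e2a1f0029ba0029ba0e29b90029b90e29a90029a90e29a80029a80e29a70e29a00e29970029970e29960029960e26e70e26e68e26de8e26de0e26d60e26d58e26cd0e26c40e22ea0022ea0e21950021950e20b10020b10e20b00020b00e20a00020a00e209f00209f0e208f00208f0e208e0e20860e207d00207d0e207c0e32b10f32b00f2ab8872a310f2a30872a30072a28072a1f0f29ba0f29b90f29a90f29a80f29a70f29a08729a00729978729970f29960f26e70726e68726de8726de0726d60726d58726cd0726c40722f38722ea0f22e28722d38722d28722c08721d28721d18721c18721b28721b18721b08721af8721a18721a087219f87219e8721950f218d8720b10f20b00f20a00f209f0f208f0f208e0f208687208607207d87207d0f207c0f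 = true := by
  decide +kernel

theorem co6_9_1 (hf : Rule f) {k c n : ℕ} (H : DH f k c n)
    (h1 : f (6 * k + 6) (c) (2 * n + 3) (2 * n + 2)) : ¬ f (6 * k + 6) (c + 2) (2 * n + 9) (2 * n + 4) := by
  intro h0
  have hk := H.T.hk
  have hc := H.T.hc
  have h4 := H.T.h4
  have hb := H.T.hb
  have hN := H.T.hN2
  have g0 : ∀ M R x y : ℕ, M = 6 * k + 6 → R = c + 2 → x = 2 * n + 9 → y = 2 * n + 4 → f M R x y := by
    intro M R x y e1 e2 e3 e4
    rw [e1, e2, e3, e4]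
    exact h0
  clear h0
  have g1 : ∀ M R x y : ℕ, M = 6 * k + 6 → R = c → x = 2 * n + 3 → y = 2 * n + 2 → f M R x y := by
    intro M R x y e1 e2 e3 e4
    rw [e1, e2, e3, e4]
    exact h1
  clear h1
  obtain ⟨a0, ha0⟩ : ∃ z, z + 2 = 6 * k := ⟨6 * k - 2, by omega⟩
  obtain ⟨b0, hb0⟩ : ∃ z, z + 3 = c := ⟨c - 3, by omega⟩
  obtain ⟨x0, hx0⟩ : ∃ z, z + 5 = 2 * n := ⟨2 * n - 5, by omega⟩
  refine check_sound hf (a0 := a0) (b0 := b0) (x0 := x0) (y0 := x0) co6_9_1_chk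
    ⟨fun _ => rfl, fun h => absurd h (by decide), fun h => absurd h (by decide), by omega, by omega,
      by omega, by omega⟩ ?_ ?_
  · intro j m p q hr h
    obtain ⟨-, -, -, -, hp1, hp2, hq1, hq2⟩ := hr
    replace h := of_decide_eq_true h
    rcases h with h | h | h | h | h | h
    · obtain ⟨rfl, rfl, h⟩ := h
      exact (w2v H.c10 (by omega) (by omega) (by omega) (by omega) (by omega) (by omega) (by omega)).mpr (by omega)
    · obtain ⟨rfl, rfl, h⟩ := h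
      exact (w2v H.c8 (by omega) (by omega) (by omega) (by omega) (by omega) (by omega) (by omega)).mpr (by omega)
    · obtain ⟨rfl, rfl, h⟩ := h
      exact (w3v H.c8 (by omega) (by omega) (by omega) (by omega) (by omega) (by omega) (by omega) (by omega)).mpr (by omega)
    · obtain ⟨rfl, rfl, h⟩ := h
      exact (WrapC.v2 H.c6 (by omega) (by omega) (by omega) (by omega) (by omega) (by omega) (by omega)).mpr (by omega)
    · obtain ⟨rfl, rfl, rfl, rfl⟩ := h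
      exact g0 _ _ _ _ (by omega) (by omega) (by omega) (by omega)
    · obtain ⟨rfl, rfl, rfl, rfl⟩ := h
      exact g1 _ _ _ _ (by omega) (by omega) (by omega) (by omega)
  · intro j m p q hr h
    obtain ⟨-, -, -, -, hp1, hp2, hq1, hq2⟩ := hr
    replace h := of_decide_eq_true h
    rcases h with h | h | h | h | h | h | h | h | h | h
    · obtain ⟨rfl, rfl, h⟩ := h
      exact mt (w2v H.c10 (by omega) (by omega) (by omega) (by omega) (by omega) (by omega) (by omega)).mp (by omega)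
    · obtain ⟨rfl, rfl, h⟩ := h
      exact mt (w2v H.c8 (by omega) (by omega) (by omega) (by omega) (by omega) (by omega) (by omega)).mp (by omega)
    · obtain ⟨rfl, rfl, h⟩ := h
      exact mt (w3v H.c8 (by omega) (by omega) (by omega) (by omega) (by omega) (by omega) (by omega) (by omega)).mp (by omega)
    · obtain ⟨rfl, rfl, h⟩ := h
      exact mt (WrapC.v2 H.c6 (by omega) (by omega) (by omega) (by omega) (by omega) (by omega) (by omega)).mp (by omega)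
    · obtain ⟨rfl, rfl, h⟩ := h
      exact H.lw _ _ _ _ (by omega) (by omega) (by omega) (by omega) (by omega) (by omega)
    · obtain ⟨rfl, rfl, h⟩ := h
      exact H.lw _ _ _ _ (by omega) (by omega) (by omega) (by omega) (by omega) (by omega)
    · obtain ⟨rfl, rfl, h⟩ := h
      exact H.lw _ _ _ _ (by omega) (by omega) (by omega) (by omega) (by omega) (by omega)
    · obtain ⟨rfl, rfl, h⟩ := h
      exact H.lw _ _ _ _ (by omega) (by omega) (by omega) (by omega) (by omega) (by omega)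
    · obtain ⟨rfl, rfl, h⟩ := h
      exact H.lw _ _ _ _ (by omega) (by omega) (by omega) (by omega) (by omega) (by omega)
    · obtain ⟨rfl, rfl, h⟩ := h
      exact NHT.p2 hf H.T (j := 1) (by omega) (by omega) (by omega) (by omega) (by omega) (by omega)

theorem co6_9_2_chk : check 12 7 17 17 0 1 1 1 2
    (fun j n p q => decide ((j = 12 ∧ n = 5 ∧ q ≤ p ∧ 9 ≤ q ∧ (p + q) % 2 = 1 ∧ p % 2 = 1)
      ∨ (j = 10 ∧ n = 1 ∧ q ≤ p ∧ 2 ≤ p ∧ (p + q) % 2 = 1 ∧ p % 2 = 0)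
      ∨ (j = 10 ∧ n = 2 ∧ q ≤ p ∧ 3 ≤ p ∧ p = q ∧ p % 2 = 1)
      ∨ (j = 10 ∧ n = 3 ∧ q ≤ p ∧ 3 ≤ q ∧ (p + q) % 2 = 1 ∧ p % 2 = 1)
      ∨ (j = 10 ∧ n = 4 ∧ q ≤ p ∧ 5 ≤ q ∧ p = q ∧ p % 2 = 0)
      ∨ (j = 8 ∧ n = 1 ∧ q ≤ p ∧ (p + q) % 2 = 1 ∧ p % 2 = 1)
      ∨ (j = 8 ∧ n = 5 ∧ p = 14 ∧ q = 9)
      ∨ (j = 8 ∧ n = 3 ∧ p = 10 ∧ q = 9)))
    (fun j n p q => decide ((j = 12 ∧ n = 5 ∧ q ≤ p ∧ 9 ≤ q ∧ ¬ ((p + q) % 2 = 1 ∧ p % 2 = 1))
      ∨ (j = 10 ∧ n = 1 ∧ q ≤ p ∧ 2 ≤ p ∧ ¬ ((p + q) % 2 = 1 ∧ p % 2 = 0))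
      ∨ (j = 10 ∧ n = 2 ∧ q ≤ p ∧ 3 ≤ p ∧ ¬ (p = q ∧ p % 2 = 1))
      ∨ (j = 10 ∧ n = 3 ∧ q ≤ p ∧ 3 ≤ q ∧ ¬ ((p + q) % 2 = 1 ∧ p % 2 = 1))
      ∨ (j = 10 ∧ n = 4 ∧ q ≤ p ∧ 5 ≤ q ∧ ¬ (p = q ∧ p % 2 = 0))
      ∨ (j = 8 ∧ n = 1 ∧ q ≤ p ∧ ¬ ((p + q) % 2 = 1 ∧ p % 2 = 1))
      ∨ (j = 1 ∧ n = 1 ∧ q ≤ p ∧ 5 ≤ p)
      ∨ (j = 1 ∧ n = 2 ∧ q ≤ p ∧ 5 ≤ p)
      ∨ (j = 1 ∧ n = 3 ∧ q ≤ p ∧ 5 ≤ p)
      ∨ (j = 1 ∧ n = 4 ∧ q ≤ p ∧ 5 ≤ p)
      ∨ (j = 1 ∧ n = 5 ∧ q ≤ p ∧ 5 ≤ p)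
      ∨ (j = 8 ∧ n = 4 ∧ 8 ≤ p ∧ q + 3 ≤ p ∧ p ≤ q + 12)
      ∨ (j = 9 ∧ n = 4 ∧ 8 ≤ p ∧ q + 3 ≤ p ∧ p ≤ q + 12)
      ∨ (j = 9 ∧ n = 5 ∧ 9 ≤ q ∧ q + 2 ≤ p ∧ p ≤ q + 13)))
    297
    0x26d8032253002646c221b90021b10021b90121b10121b80021a00021b80121a00121978e26d803224a80263e4221a88021a88121978021978421c30025b6c221b2002242a226d8032253002646c221b10021b90021b10121b90121a00021b80021a00121b80121b78e26e80322528026464221b88021b88121b78021b78421ca8021ba8025be4225ae4221c98021a98021a98e21a9841dd68e25be031dd6801dd6841dc58e2646031dc5801dc58425ae031dbe001dbe0425a5831db6001db6041dc40e25ab831dc4001dc4041d138e2593831d13801d13841d348e25ac831d34801d34841d340e2249031d34001d34041d130e2593831d13001d13041dcd8e25bd831dcd801dcd841db50e25a4831db5001db5041d2b8e2249031d2b801d2b841dc48e25ac031dc4801dc4841dbb8e25ab831dbb801dbb841dac0e259c031dac001dac0426460e2ec683264600264604225b0e25be03225b00225b041d240e25a4831d24001d240421c10e25ac0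321c10021c104263e8e25ae03263e80263e8422d98026d65a25ac0322490022490426358e2ac303263580263584262c8e259c03262c80262c842adb0e2ec6032adb002adb04218e0022d30022410021290021a600258a5229a20029910029a100299000297f00297e00297d0022eb0022eb0e2634c2219f00209900208800251cc2208700207600207500259a4a20640032c30032c20032b1002a4a8e2a4a0e2a43002a420e2a418e2a310029ba0029ba0e29b90029b90e29a90029a90e29a80029a80e29a70029a70e29960029960e29850029850e29190029070028f50026e80e26e78e26e70e26df0e26de8e26570e26568e264e0e26e75222ea0022638e225a8e225a0e22518e21a70021a70e20a10020a10e20a00020a00e20980e208f00208f0e208e00208e0e207d00207d0e207c00207c0e32c30f32c20f32b10f2aca872ac9872aba872a4a872a4a072a430f2a42872a42072a41872a3a072a39872a39072a310f29ba0f29b90f29a90f29a80f29a70f29960f29850f29190f29070f28f50f26e80726e78726e70726e68726df0726de8726de0726d60726d58726cd07265707265687265607264e07264d8726450722f48722f38722ea0f22e48722e287226387226307226287225a87225a0722518722488721c28721c18721b18721b08721af8721a70f219f87219d87218d8720a10f20a00f209887209807208f87208f0f208e0f207d0f207c0f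 = true := by
  decide +kernel

theorem co6_9_2 (hf : Rule f) {k c n : ℕ} (H : DH f k c n)
    (h1 : f (6 * k + 6) (c) (2 * n + 5) (2 * n + 4)) : ¬ f (6 * k + 6) (c + 2) (2 * n + 9) (2 * n + 4) := by
  intro h0
  have hk := H.T.hk
  have hc := H.T.hc
  have h4 := H.T.h4
  have hb := H.T.hb
  have hN := H.T.hN2
  have g0 : ∀ M R x y : ℕ, M = 6 * k + 6 → R = c + 2 → x = 2 * n + 9 → y = 2 * n + 4 → f M R x y := by
    intro M R x y e1 e2 e3 e4
    rw [e1, e2, e3, e4]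
    exact h0
  clear h0
  have g1 : ∀ M R x y : ℕ, M = 6 * k + 6 → R = c → x = 2 * n + 5 → y = 2 * n + 4 → f M R x y := by
    intro M R x y e1 e2 e3 e4
    rw [e1, e2, e3, e4]
    exact h1
  clear h1
  obtain ⟨a0, ha0⟩ : ∃ z, z + 2 = 6 * k := ⟨6 * k - 2, by omega⟩
  obtain ⟨b0, hb0⟩ : ∃ z, z + 3 = c := ⟨c - 3, by omega⟩
  obtain ⟨x0, hx0⟩ : ∃ z, z + 5 = 2 * n := ⟨2 * n - 5, by omega⟩
  refine check_sound hf (a0 := a0) (b0 := b0) (x0 := x0) (y0 := x0) co6_9_2_chk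
    ⟨fun _ => rfl, fun h => absurd h (by decide), fun h => absurd h (by decide), by omega, by omega,
      by omega, by omega⟩ ?_ ?_
  · intro j m p q hr h
    obtain ⟨-, -, -, -, hp1, hp2, hq1, hq2⟩ := hr
    replace h := of_decide_eq_true h
    rcases h with h | h | h | h | h | h | h | h
    · obtain ⟨rfl, rfl, h⟩ := h
      exact (w2v H.c10 (by omega) (by omega) (by omega) (by omega) (by omega) (by omega) (by omega)).mpr (by omega)
    · obtain ⟨rfl, rfl, h⟩ := h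
      exact (w0v H.c8 (by omega) (by omega) (by omega) (by omega) (by omega) (by omega) (by omega)).mpr (by omega)
    · obtain ⟨rfl, rfl, h⟩ := h
      exact (w1v H.c8 (by omega) (by omega) (by omega) (by omega) (by omega) (by omega) (by omega) (by omega)).mpr (by omega)
    · obtain ⟨rfl, rfl, h⟩ := h
      exact (w2v H.c8 (by omega) (by omega) (by omega) (by omega) (by omega) (by omega) (by omega)).mpr (by omega)
    · obtain ⟨rfl, rfl, h⟩ := h
      exact (w3v H.c8 (by omega) (by omega) (by omega) (by omega) (by omega) (by omega) (by omega) (by omega)).mpr (by omega)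
    · obtain ⟨rfl, rfl, h⟩ := h
      exact (WrapC.v2 H.c6 (by omega) (by omega) (by omega) (by omega) (by omega) (by omega) (by omega)).mpr (by omega)
    · obtain ⟨rfl, rfl, rfl, rfl⟩ := h
      exact g0 _ _ _ _ (by omega) (by omega) (by omega) (by omega)
    · obtain ⟨rfl, rfl, rfl, rfl⟩ := h
      exact g1 _ _ _ _ (by omega) (by omega) (by omega) (by omega)
  · intro j m p q hr h
    obtain ⟨-, -, -, -, hp1, hp2, hq1, hq2⟩ := hr
    replace h := of_decide_eq_true h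
    rcases h with h | h | h | h | h | h | h | h | h | h | h | h | h | h
    · obtain ⟨rfl, rfl, h⟩ := h
      exact mt (w2v H.c10 (by omega) (by omega) (by omega) (by omega) (by omega) (by omega) (by omega)).mp (by omega)
    · obtain ⟨rfl, rfl, h⟩ := h
      exact mt (w0v H.c8 (by omega) (by omega) (by omega) (by omega) (by omega) (by omega) (by omega)).mp (by omega)
    · obtain ⟨rfl, rfl, h⟩ := h
      exact mt (w1v H.c8 (by omega) (by omega) (by omega) (by omega) (by omega) (by omega) (by omega) (by omega)).mp (by omega)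
    · obtain ⟨rfl, rfl, h⟩ := h
      exact mt (w2v H.c8 (by omega) (by omega) (by omega) (by omega) (by omega) (by omega) (by omega)).mp (by omega)
    · obtain ⟨rfl, rfl, h⟩ := h
      exact mt (w3v H.c8 (by omega) (by omega) (by omega) (by omega) (by omega) (by omega) (by omega) (by omega)).mp (by omega)
    · obtain ⟨rfl, rfl, h⟩ := h
      exact mt (WrapC.v2 H.c6 (by omega) (by omega) (by omega) (by omega) (by omega) (by omega) (by omega)).mp (by omega)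
    · obtain ⟨rfl, rfl, h⟩ := h
      exact H.lw _ _ _ _ (by omega) (by omega) (by omega) (by omega) (by omega) (by omega)
    · obtain ⟨rfl, rfl, h⟩ := h
      exact H.lw _ _ _ _ (by omega) (by omega) (by omega) (by omega) (by omega) (by omega)
    · obtain ⟨rfl, rfl, h⟩ := h
      exact H.lw _ _ _ _ (by omega) (by omega) (by omega) (by omega) (by omega) (by omega)
    · obtain ⟨rfl, rfl, h⟩ := h
      exact H.lw _ _ _ _ (by omega) (by omega) (by omega) (by omega) (by omega) (by omega)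
    · obtain ⟨rfl, rfl, h⟩ := h
      exact H.lw _ _ _ _ (by omega) (by omega) (by omega) (by omega) (by omega) (by omega)
    · obtain ⟨rfl, rfl, h⟩ := h
      exact r1i hf H.T (p := 0) (j := 2) (by omega) (by omega) (by omega) (by omega) (by omega) (by omega) (by omega)
    · obtain ⟨rfl, rfl, h⟩ := h
      exact r1i hf H.T (p := 1) (j := 2) (by omega) (by omega) (by omega) (by omega) (by omega) (by omega) (by omega)
    · obtain ⟨rfl, rfl, h⟩ := h
      exact NHT.p2 hf H.T (j := 1) (by omega) (by omega) (by omega) (by omega) (by omega) (by omega)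

end Pool.Agent.SNT.LN
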