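import Pool.Agent.SNT.LN1
import Pool.Agent.SNT.LN2
import Pool.Agent.SNT.LN3
import Pool.Agent.SNT.LN4

set_option autoImplicit false

/-! The OUT rows of `6 k + 2` and `6 k + 6` near the diagonal: the cells `(s + 7, s)` are zero. -/

namespace Pool.Agent.SNT.LN

variable {f : ℕ → ℕ → ℕ → ℕ → Prop} {k c n s : ℕ}

theorem d4_2 (hf : Rule f) (H : DH f k c n) (hs : s % 2 = 0) (hs4 : 2 * n + 6 ≤ s)
    (h2 : f (6 * k + 2) c (s + 3) (s + 2) ∨ f (6 * k + 2) c (s + 5) (s + 4))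
    (h6 : f (6 * k + 6) c (s + 3) (s + 2) ∨ f (6 * k + 6) c (s + 5) (s + 4)) :
    ¬ f (6 * k + 2) (c + 2) (s + 7) s := by
  rcases h2 with h2 | h2 <;> rcases h6 with h6 | h6
  · exact d4_2_11 hf H hs hs4 h2 h6
  · exact d4_2_12 hf H hs hs4 h2 h6
  · exact d4_2_21 hf H hs hs4 h2 h6
  · exact d4_2_22 hf H hs hs4 h2 h6

theorem d4_6 (hf : Rule f) (H : DH f k c n) (hs : s % 2 = 0) (hs4 : 2 * n + 4 ≤ s)
    (h6 : f (6 * k + 6) c (s + 3) (s + 2) ∨ f (6 * k + 6) c (s + 5) (s + 4)) :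
    ¬ f (6 * k + 6) (c + 2) (s + 7) s := by
  rcases h6 with h6 | h6
  · exact d4_6_1 hf H hs hs4 h6
  · exact d4_6_2 hf H hs hs4 h6

theorem co6_7 (hf : Rule f) (H : DH f k c n)
    (h6 : f (6 * k + 6) c (2 * n + 3) (2 * n + 2) ∨ f (6 * k + 6) c (2 * n + 5) (2 * n + 4)) :
    ¬ f (6 * k + 6) (c + 2) (2 * n + 7) (2 * n + 4) := by
  rcases h6 with h6 | h6
  · exact co6_7_1 hf H h6
  · exact co6_7_2 hf H h6

theorem co6_9 (hf : Rule f) (H : DH f k c n)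
    (h6 : f (6 * k + 6) c (2 * n + 3) (2 * n + 2) ∨ f (6 * k + 6) c (2 * n + 5) (2 * n + 4)) :
    ¬ f (6 * k + 6) (c + 2) (2 * n + 9) (2 * n + 4) := by
  rcases h6 with h6 | h6
  · exact co6_9_1 hf H h6
  · exact co6_9_2 hf H h6

end Pool.Agent.SNT.LN
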