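import Pool.Agent.SNT.NHP
import Pool.Agent.SNT.NHZone2

set_option autoImplicit false

/-! The hypotheses of `NHP` over the six-layer window of the leader `6 k + 10`. -/

namespace Pool.Agent.SNT.NHP

open Pool.Agent.SNT Pool.Agent.SNT.Sig Pool.Agent.SNT.NHZ Pool.Agent.SNT.SLine

variable {f : ℕ → ℕ → ℕ → ℕ → Prop} {k b m : ℕ}

/-- `P_(6k+1)` has only cells of the type (even, even) in the row `c + 2`, every `y` -/
theorem p1_even' (hf : Rule f) (hs : Side k b m) (S : Stack6 f k b m 0 0 0 0 0 1) {R x y : ℕ}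
    (hR : R = b + 24) (hxy : x % 2 = 1 ∨ y % 2 = 1)
    (hx : 2 * (m + 9 + (k + 2) * 4) + 4 ≤ x) (h1 : y + 7 ≤ x) (h2 : x + 8 ≤ y + 2 * k) :
    ¬ f (6 * k + 1) R x y := by
  subst hR
  have h := NHT.of_stack hs S
  have hk := hs.1
  have hb := hs.2.2.2.1
  refine e_only hf (L := 6 * k) hxy (fun p x' y' hp a1 a2 a3 a4 => ?_)
    (fun x' y' a1 a2 a3 a4 => ?_)
  · rcases Nat.eq_zero_or_pos p with hp0 | hp0
    · subst hp0
      have := h.r1i hf (L := 6 * k) (p := 0) (j := 5) (x := x') (y := y') le_rfl (by omega)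
        (by omega) (by omega) (by omega) (by omega)
      exact this
    · have ep : p = 1 := by omega
      subst ep
      exact lw_zero hs S (i := 23) (by omega) (by omega) (by omega) (by omega) (by omega)
  · exact lw_zero hs S (i := 24) (by omega) (by omega) (by omega) (by omega) (by omega)

/-- The hypotheses over the window, from the purity of the OUT layer `6 k + 2`. -/
theorem HP.of_stack (hf : Rule f) (hs : Side k b m) (S : Stack6 f k b m 0 0 0 0 0 1)
    {N : ℕ} (hN : N = 2 * (m + 9 + (k + 2) * 4))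
    (pur : ∀ x : ℕ, N + 9 ≤ x → x + 9 ≤ N + 2 * k → x % 2 = 1 →
      ¬ f (6 * k + 2) (b + 24) x (N + 4)) :
    HP f (6 * k) (b + 24) N (N + 10) (N + 2 * k - 9) := by
  have h := NHT.of_stack hs S
  rw [← hN] at h
  obtain ⟨hk, hb, h4, hb2, hm⟩ := hs
  have hs : Side k b m := ⟨hk, hb, h4, hb2, hm⟩
  have hN2 := h.hN2
  refine ⟨by omega, by omega, by omega, by omega, by omega, by omega, by omega, ?_, ?_, ?_, ?_,
    ?_⟩
  · intro L x y hL1 hL2 hx1 hx2 hy1 hy2
    obtain ⟨p, j, hp, hj, hLj⟩ : ∃ p j : ℕ, p ≤ 1 ∧ j ≤ 4 ∧ L + 2 * j = 6 * k + 8 + p := by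
      rcases Nat.mod_two_eq_zero_or_one L with hL | hL
      · exact ⟨0, (6 * k + 8 - L) / 2, by omega, by omega, by omega⟩
      · exact ⟨1, (6 * k + 9 - L) / 2, by omega, by omega, by omega⟩
    have := h.r1 hf (L := L) (p := p) (j := j) (x := x) (y := y) hj hp hLj (by omega) (by omega)
      (by omega)
    exact this
  · intro x y hx1 hx2 hy1 hy2 hxy
    exact p1_even' hf hs S rfl (by omega) (by omega) (by omega) (by omega)
  · intro x hx1 hx2
    exact h.p2 hf (j := 4) (by omega) (by omega) (Or.inr rfl) (by omega) (by omega) (by omega)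
  · intro x hx1 hx2
    exact h.p2 hf (j := 3) (by omega) (by omega) (Or.inr rfl) (by omega) (by omega) (by omega)
  · intro x hx1 hx2 hx3
    exact pur x (by omega) (by omega) hx3

end Pool.Agent.SNT.NHP
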