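import Pool.Agent.SNT.Pur20
import Pool.Agent.SNT.PWt
import Pool.Agent.SNT.PW9a
import Pool.Agent.SNT.PW9b
import Pool.Agent.SNT.PW11
import Pool.Agent.SNT.LN
import Pool.Agent.SNT.K0L4
import Pool.Agent.SNT.K0L6
import Pool.Agent.SNT.K0L2d
import Pool.Agent.SNT.NHPI

set_option autoImplicit false

/-! The purity of the OUT row `c + 2` of the layers `6 k + 2`, `6 k + 6` at `y = 2 n + 4`, over the leads `n - 5` of `6 k`,
`n - 2` of `6 k + 2` and `n + 1` of `6 k + 4` (for `6 k + 2` from `x = 2 n + 9` on), and the middle of the lines `2 n`,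
`2 n + 2` of `P_(6k+1)` in this row. -/

namespace Pool.Agent.SNT.PW

open Pool.Agent.SNT Pool.Agent.SNT.Sig Pool.Agent.SNT.NHZ Pool.Agent.SNT.DRun Pool.Agent.SNT.Pur20

variable {f : ℕ → ℕ → ℕ → ℕ → Prop} {k c n : ℕ}

/-- the run up to the diagonal in the layer `6 k + 2`, row `c` -/
theorem tip_of (hf : Rule f) (H : PW f k c n) {x y : ℕ} (hx : x % 2 = 1) (hX : 2 * n + 5 ≤ x) (hy : y + 2 * k = x + 5)
    (h0 : f (6 * k + 2) c x y) : f (6 * k + 2) c x (x - 1) := by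
  have hk := H.T.hk
  have hN := H.T.hN2
  rcases Nat.lt_or_ge x (2 * n + 9) with h | h
  · have h1 := run2' hf H.T hx (y0 := y) (by omega) (by omega) (by omega) h0 (x - 5) (by omega) (by omega) (by omega)
    obtain rfl | rfl : x = 2 * n + 5 ∨ x = 2 * n + 7 := by omega
    · by_contra h2
      exact t2 hf H (by rwa [show 2 * n + 5 - 5 = 2 * n by omega] at h1)
        (by rwa [show 2 * n + 5 - 1 = 2 * n + 4 by omega] at h2)
    · by_contra h2
      exact t3 hf H (by rwa [show 2 * n + 7 - 5 = 2 * n + 2 by omega] at h1)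
        (by rwa [show 2 * n + 7 - 1 = 2 * n + 6 by omega] at h2)
  · exact run2 hf H.T (D1.of_cyc H.T H.c4 H.c2) hx (y0 := y) (by omega) (by omega) (by omega) (by omega) (by omega) h0 _
      (by omega) (by omega) (by omega)

/-- No two adjacent tips of the layer `L` in the row `c` are missing, from `2 n + 5` on. -/
def Tips5 (f : ℕ → ℕ → ℕ → ℕ → Prop) (L c n : ℕ) : Prop :=
  ∀ x : ℕ, x % 2 = 1 → 2 * n + 5 ≤ x → f L c x (x - 1) ∨ f L c (x + 2) (x + 1)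

/-- tips of `6 k + 2` in the row `c` -/
theorem tips5 (hf : Rule f) (H : PW f k c n)
    (K2 : ∀ x y : ℕ, 2 * n + 3 ≤ x → x % 2 = 1 → y + 2 * k = x + 5 → f (6 * k + 2) c x y ∨ f (6 * k + 2) c (x + 2) (y + 2)) :
    Tips5 f (6 * k + 2) c n := by
  have hk := H.T.hk
  have hN := H.T.hN2
  intro x hx hX
  obtain ⟨y, hy⟩ : ∃ y, y + 2 * k = x + 5 := ⟨x + 5 - 2 * k, by omega⟩
  rcases K2 x y (by omega) hx hy with h | h
  · exact Or.inl (tip_of hf H hx hX hy h)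
  · exact Or.inr (tip_of hf H (x := x + 2) (y := y + 2) (by omega) (by omega) (by omega) h)

theorem co2_9 (hf : Rule f) (H : PW f k c n)
    (t4 : f (6 * k + 4) (c - 2) (2 * n + 1) (2 * n) ∨ f (6 * k + 4) (c - 2) (2 * n + 3) (2 * n + 2))
    (t2 : Tips5 f (6 * k + 2) c n)
    (t6 : Tips f (6 * k + 6) c n) : ¬ f (6 * k + 2) (c + 2) (2 * n + 9) (2 * n + 4) := by
  intro h0
  have a := t2 (2 * n + 5) (by omega) (by omega)
  have b := t6 (2 * n + 3) (by omega) (by omega)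
  have e1 : 2 * n + 3 - 1 = 2 * n + 2 := by omega
  have e2 : 2 * n + 3 + 2 = 2 * n + 5 := by omega
  have e3 : 2 * n + 3 + 1 = 2 * n + 4 := by omega
  have e4 : 2 * n + 5 - 1 = 2 * n + 4 := by omega
  have e5 : 2 * n + 5 + 2 = 2 * n + 7 := by omega
  have e6 : 2 * n + 5 + 1 = 2 * n + 6 := by omega
  rw [e1, e2, e3] at b
  rw [e4, e5, e6] at a
  by_cases B2 : f (6 * k + 6) c (2 * n + 5) (2 * n + 4)
  · by_cases T1 : f (6 * k + 4) (c - 2) (2 * n + 3) (2 * n + 2)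
    · rcases a with A | A
      · exact c9_1 hf H h0 A B2 T1
      · exact c9_4 hf H h0 A B2 T1
    · have T0 := t4.resolve_right T1
      rcases a with A | A
      · exact c9_0 hf H h0 A B2 T0
      · exact c9_7 hf H h0 A B2 T0 T1
  · have B1 := b.resolve_right B2
    rcases a with A | A <;> rcases t4 with T | T
    · exact c9_3 hf H h0 A B1 T B2
    · exact c9_2 hf H h0 A B1 T B2
    · exact c9_6 hf H h0 A B1 T B2
    · exact c9_5 hf H h0 A B1 T

theorem co2_11 (hf : Rule f) (H : PW f k c n) (t2 : Tips5 f (6 * k + 2) c n)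
    (t6 : Tips f (6 * k + 6) c n) : ¬ f (6 * k + 2) (c + 2) (2 * n + 11) (2 * n + 4) := by
  intro h
  have hk := H.T.hk
  have h0 := run_c2 hf H.T (L := 6 * k + 2) (j := 4) (x := 2 * n + 11) (y0 := 2 * n + 4) (by omega) (by omega) (by omega)
    (by omega) (by omega) (by omega) (by omega) h (2 * n + 6) (by omega) (by omega) (by omega)
  have a := t2 (2 * n + 7) (by omega) (by omega)
  have b := t6 (2 * n + 5) (by omega) (by omega)
  have e1 : 2 * n + 7 - 1 = 2 * n + 6 := by omega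
  have e2 : 2 * n + 7 + 2 = 2 * n + 9 := by omega
  have e3 : 2 * n + 7 + 1 = 2 * n + 8 := by omega
  have e4 : 2 * n + 5 - 1 = 2 * n + 4 := by omega
  have e5 : 2 * n + 5 + 2 = 2 * n + 7 := by omega
  have e6 : 2 * n + 5 + 1 = 2 * n + 6 := by omega
  rw [e1, e2, e3] at a
  rw [e4, e5, e6] at b
  rcases a with A | A <;> rcases b with B | B
  · exact c11_0 hf H h0 A B
  · exact c11_1 hf H h0 A B
  · exact c11_2 hf H h0 A B
  · exact c11_3 hf H h0 A B

theorem PW.toDH (H : PW f k c n) : LN.DH f k c n :=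
  ⟨H.T, WrapC.cyc_mono H.c2 (by omega), H.c4, H.c6, H.c8, H.c10, fun M R x y a1 a2 a3 a4 => H.lw M R x y a1 a2 a3 (by omega)⟩

/-- **The purity of `6 k + 2` at `y = 2 n + 4`, from `x = 2 n + 9` on.** -/
theorem pur2 (hf : Rule f) (H : PW f k c n)
    (t4 : f (6 * k + 4) (c - 2) (2 * n + 1) (2 * n) ∨ f (6 * k + 4) (c - 2) (2 * n + 3) (2 * n + 2))
    (t2 : Tips5 f (6 * k + 2) c n) (t6 : Tips f (6 * k + 6) c n) {x : ℕ} (hx : x % 2 = 1) (h1 : 2 * n + 9 ≤ x)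
    (h2 : x + 1 ≤ 2 * n + 2 * k) : ¬ f (6 * k + 2) (c + 2) x (2 * n + 4) := by
  intro h
  rcases Nat.lt_or_ge x (2 * n + 13) with h3 | h3
  · obtain rfl | rfl : x = 2 * n + 9 ∨ x = 2 * n + 11 := by omega
    · exact co2_9 hf H t4 t2 t6 h
    · exact co2_11 hf H t2 t6 h
  · have h4 := run_c2 hf H.T (L := 6 * k + 2) (j := 4) (x := x) (y0 := 2 * n + 4) (by omega) (by omega) (by omega) hx
      (by omega) (by omega) (by omega) h (x - 7) (by omega) (by omega) (by omega)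
    have a := t2 (x - 4) (by omega) (by omega)
    have b := t6 (x - 4) (by omega) (by omega)
    obtain ⟨s, rfl⟩ : ∃ s, x = s + 7 := ⟨x - 7, by omega⟩
    rw [show s + 7 - 4 = s + 3 by omega, show s + 3 - 1 = s + 2 by omega] at a b
    rw [show s + 7 - 7 = s by omega] at h4
    exact LN.d4_2 hf H.toDH (by omega) (by omega) a b h4

/-- The purity of `6 k + 6` at `y = 2 n + 4`. -/
theorem pur6 (hf : Rule f) (H : PW f k c n) (t6 : Tips f (6 * k + 6) c n) {x : ℕ} (hx : x % 2 = 1) (h1 : 2 * n + 7 ≤ x)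
    (h2 : x + 1 ≤ 2 * n + 2 * k) : ¬ f (6 * k + 6) (c + 2) x (2 * n + 4) := by
  have D := H.toDH
  have hd6 : ∀ s : ℕ, s % 2 = 0 → 2 * n + 4 ≤ s → ¬ f (6 * k + 6) (c + 2) (s + 7) s := by
    intro s hs h3
    refine LN.d4_6 hf D hs h3 ?_
    have := t6 (s + 3) (by omega) (by omega)
    rwa [show s + 3 - 1 = s + 2 by omega, show s + 3 + 2 = s + 5 by omega, show s + 3 + 1 = s + 4 by omega] at this
  have t := t6 (2 * n + 3) (by omega) (by omega)
  rw [show 2 * n + 3 - 1 = 2 * n + 2 by omega, show 2 * n + 3 + 2 = 2 * n + 5 by omega,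
    show 2 * n + 3 + 1 = 2 * n + 4 by omega] at t
  refine pur hf H.T (j := 2) (by omega) (by omega) (by omega) (fun s hs h3 => hd6 s hs (by omega)) (LN.co6_7 hf D t)
    (LN.co6_9 hf D t) ?_ hx h1 (by omega)
  have := hd6 (2 * n + 4) (by omega) le_rfl
  rwa [show 2 * n + 4 + 7 = 2 * n + 11 by omega] at this

section
variable {b m : ℕ}

/-- The tips of `6 k + 6` in the row `c`. -/
theorem tips6_stack (hf : Rule f) (hs : Side k b m) (S : Stack6 f k b m 0 0 0 0 0 1) (hn : n = m + 9 + (k + 2) * 4) :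
    Tips f (6 * k + 6) (b + 22) n := by
  subst hn
  exact tips6 hf (NHT.of_stack hs S) (fun x y h1 h2 h3 => k0_L6 hf hs S rfl h1 h2 h3)

/-- The tips of `6 k + 2` in the row `c`, from `2 n + 5` on. -/
theorem tips2_stack (hf : Rule f) (hs : Side k b m) (S : Stack6 f k b m 0 0 0 0 0 1) (hn : n = m + 9 + (k + 2) * 4)
    (d0 : Cyc f (6 * k) (b + 16) (2 * (n - 5) + 2)) (d2 : Cyc f (6 * k + 2) (b + 18) (2 * (n - 2) + 2))
    (d4 : Cyc f (6 * k + 4) (b + 20) (2 * (n + 1) + 2)) : Tips5 f (6 * k + 2) (b + 22) n :=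
  tips5 hf (PW.of_stack hs S hn d0 d2 d4) (fun _ _ h1 h2 h3 => K0D.k2_stack hf hs S hn d0 d2 d4 h1 h2 h3)

/-- **[D] The purity at `y = 2 n + 4`, leads `n - 5`, `n - 2`, `n + 1`.** -/
theorem purity_stack (hf : Rule f) (hs : Side k b m) (S : Stack6 f k b m 0 0 0 0 0 1) (hn : n = m + 9 + (k + 2) * 4)
    (d0 : Cyc f (6 * k) (b + 16) (2 * (n - 5) + 2)) (d2 : Cyc f (6 * k + 2) (b + 18) (2 * (n - 2) + 2))
    (d4 : Cyc f (6 * k + 4) (b + 20) (2 * (n + 1) + 2)) {x : ℕ} (hx : x % 2 = 1) (h2 : x + 1 ≤ 2 * n + 2 * k) :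
    (2 * n + 9 ≤ x → ¬ f (6 * k + 2) (b + 24) x (2 * n + 4)) ∧
      (2 * n + 7 ≤ x → ¬ f (6 * k + 6) (b + 24) x (2 * n + 4)) := by
  have H := PW.of_stack hs S hn d0 d2 d4
  have t2 := tips2_stack hf hs S hn d0 d2 d4
  have t6 := tips6_stack hf hs S hn
  have t4 : f (6 * k + 4) (b + 22 - 2) (2 * n + 1) (2 * n) ∨ f (6 * k + 4) (b + 22 - 2) (2 * n + 3) (2 * n + 2) := by
    have B := K0L4.tip4_stack hf hs S (x := 2 * n + 1) (by omega) (by omega)
    rwa [show 2 * n + 1 - 1 = 2 * n by omega, show 2 * n + 1 + 2 = 2 * n + 3 by omega,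
        show 2 * n + 1 + 1 = 2 * n + 2 by omega] at B
  exact ⟨fun h1 => pur2 hf H t4 t2 t6 hx h1 h2, fun h1 => pur6 hf H t6 hx h1 h2⟩

/-- The hypotheses of `NHP` over the window. -/
theorem hp_stack (hf : Rule f) (hs : Side k b m) (S : Stack6 f k b m 0 0 0 0 0 1) (hn : n = m + 9 + (k + 2) * 4)
    (d0 : Cyc f (6 * k) (b + 16) (2 * (n - 5) + 2)) (d2 : Cyc f (6 * k + 2) (b + 18) (2 * (n - 2) + 2))
    (d4 : Cyc f (6 * k + 4) (b + 20) (2 * (n + 1) + 2)) :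
    NHP.HP f (6 * k) (b + 24) (2 * n) (2 * n + 10) (2 * n + 2 * k - 9) :=
  NHP.HP.of_stack hf hs S (by rw [hn]) (fun _ h1 h2 h3 => (purity_stack hf hs S hn d0 d2 d4 h3 (by omega)).1 h1)

/-- **The middle of the line `2 n + 2` of `P_(6k+1)`.** -/
theorem p1_2 (hf : Rule f) (hs : Side k b m) (S : Stack6 f k b m 0 0 0 0 0 1) (hn : n = m + 9 + (k + 2) * 4)
    (d0 : Cyc f (6 * k) (b + 16) (2 * (n - 5) + 2)) (d2 : Cyc f (6 * k + 2) (b + 18) (2 * (n - 2) + 2))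
    (d4 : Cyc f (6 * k + 4) (b + 20) (2 * (n + 1) + 2)) {x : ℕ} (h1 : 2 * n + 10 ≤ x) (h2 : x + 10 ≤ 2 * n + 2 * k) :
    ¬ f (6 * k + 1) (b + 24) x (2 * n + 2) :=
  (hp_stack hf hs S hn d0 d2 d4).p1_2 hf h1 (by omega)

/-- **The middle of the line `2 n` of `P_(6k+1)`.** -/
theorem p1_0 (hf : Rule f) (hs : Side k b m) (S : Stack6 f k b m 0 0 0 0 0 1) (hn : n = m + 9 + (k + 2) * 4)
    (d0 : Cyc f (6 * k) (b + 16) (2 * (n - 5) + 2)) (d2 : Cyc f (6 * k + 2) (b + 18) (2 * (n - 2) + 2))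
    (d4 : Cyc f (6 * k + 4) (b + 20) (2 * (n + 1) + 2)) {x : ℕ} (h1 : 2 * n + 10 ≤ x) (h2 : x + 12 ≤ 2 * n + 2 * k) :
    ¬ f (6 * k + 1) (b + 24) x (2 * n) :=
  (hp_stack hf hs S hn d0 d2 d4).p1_0 hf h1 (by omega)

end

end Pool.Agent.SNT.PW
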