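import Pool.Agent.SNT.ZbL
import Pool.Agent.SNT.PurW
import Pool.Agent.SNT.O2Ws
import Pool.Agent.SNT.E1m4Run

set_option autoImplicit false

/-! E1(-4): the RUN 17d (helper82): the layer `6 k` in the row `b + 26 = c + 4`, the line `2 n + 1`: present at
`x0 ≤ 2 n + 2 k - 6` => present at all `2 n + 10 ≤ x ≤ x0`. -/

namespace Pool.Agent.SNT.E1m4

open Pool.Agent.SNT Pool.Agent.SNT.Sig Pool.Agent.SNT.SLine Pool.Agent.SNT.NHZ Pool.Agent.SNT.NHP Pool.Agent.SNT.Zb

variable {f : ℕ → ℕ → ℕ → ℕ → Prop} {k b m n : ℕ}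

/-- the structure of helper51's `ZbL` over the stack -/
theorem zbh_stack (hf : Rule f) (hs : Side k b m) (S : Stack6 f k b m 0 0 0 0 0 1) (hn : n = m + 9 + (k + 2) * 4)
    (d0 : Cyc f (6 * k) (b + 16) (2 * (n - 5) + 2)) (d2 : Cyc f (6 * k + 2) (b + 18) (2 * (n - 3) + 2))
    (d4 : Cyc f (6 * k + 4) (b + 20) (2 * (n + 1) + 2)) : ZBH f k (b + 22) n := by
  have hk := hs.1
  have hp : ∀ x : ℕ, x % 2 = 1 → 2 * n + 9 ≤ x → x + 1 ≤ 2 * n + 2 * k → ¬ f (6 * k + 2) (b + 24) x (2 * n + 4) :=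
    fun x h1 h2 h3 => (PW.purity_stack hf hs S hn d0 (WrapC.cyc_mono d2 (by omega)) d4 h1 h3).1 h2
  refine ⟨by rw [hn]; exact NHT.of_stack hs S, ?_, ?_, ?_⟩
  · intro M R x y h1 h2 h3 h4 h5 h6
    obtain ⟨hk, hb, h4', hb2, hm⟩ := hs
    have hs : Side k b m := ⟨hk, hb, h4', hb2, hm⟩
    have e : M = 6 * k - 1 := by omega
    rw [e]
    exact lw_zero hs S (i := R - b) (by omega) (by omega) (by omega) (by omega) (by omega)
  · intro x h1 h2 h3
    exact hp x h3 h1 (by omega)
  · have h := O2W.w1_wall hf hs S hn d2 hp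
    rw [sr, bY, bO]
    rw [show 2 * (n + k - 4) + 1 = 2 * n + 2 * k - 7 by omega, show 2 * (n + 1) = 2 * n + 2 by ring,
      show b + 22 + 2 = b + 24 by ring]
    exact h

/-- `P_(L+1)` has only cells of the type (even, even) in an even row if the layer `L - 1` is zero -/
theorem e_only' (hf : Rule f) {L R x y : ℕ} (hxy : ¬ (x % 2 = 0 ∧ y % 2 = 0))
    (hl : ∀ q r s : ℕ, q ≤ 1 → r ≤ 1 → s ≤ 1 → ¬ f (L - 1) (R - q) (x - r) (y - s)) : ¬ f (L + 1) R x y := by
  intro h
  have h0 : ¬ f L R x y := fun g =>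
    kl hf g (by omega) le_rfl le_rfl (by omega) le_rfl (by omega) le_rfl (by omega) (by omega) h
  obtain ⟨p, q, r, s, hp, hq, hr', hs, h5, -, -, -, -, h6⟩ := pred hf h0 (fun hh => hxy ⟨hh.2.2.1, hh.2.2.2⟩)
  rcases Nat.eq_zero_or_pos p with hp0 | hp0
  · subst hp0
    exact kl hf h6 (by omega) (by omega) (by omega) (by omega) (by omega) (by omega) (by omega) (by omega) (by omega) h
  · have ep : p = 1 := by omega
    subst ep
    exact hl q r s hq hr' hs h6

/-- the row `b + 25` of the layer `6 k` at the lines `2 n`, `2 n + 1` -/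
theorem z25 (hf : Rule f) (H : ZBH f k (b + 22) n) {x y : ℕ} (hy : y = 2 * n ∨ y = 2 * n + 1) (h1 : 2 * n + 9 ≤ x)
    (h2 : x + 7 ≤ 2 * n + 2 * k) : ¬ f (6 * k) (b + 25) x y := by
  have hc := H.T.hc
  have hk := H.T.hk
  have hr : ∀ p x' y' : ℕ, p ≤ 1 → 2 * n ≤ y' + 1 → y' + 6 ≤ x' + 1 → x' + 6 ≤ y' + 2 * k →
      ¬ f (6 * k - p) (b + 23) x' y' := by
    intro p x' y' hp a1 a2 a3
    rcases Nat.eq_zero_or_pos p with hp0 | hp0
    · subst hp0
      exact H.T.r1 hf (L := 6 * k) (p := 0) (j := 4) le_rfl (by omega) (by omega) (by omega) (by omega) (by omega)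
    · have ep : p = 1 := by omega
      subst ep
      exact H.lw _ _ _ _ (by omega) (by omega) (by omega) (by omega) (by omega) (by omega)
  have hN := H.T.hN2
  have hlw : ∀ R x' y' : ℕ, b + 23 ≤ R → R ≤ b + 24 → 2 * n ≤ x' → y' ≤ x' → x' ≤ y' + 4 * k →
      ¬ f (6 * k - 1) R x' y' :=
    fun R x' y' a0 a0' a1 a2 a3 => H.lw _ _ _ _ (by omega) (by omega) (by omega) a1 a2 a3
  by_cases hxy : x % 2 = 0 ∧ y % 2 = 0
  · have ey : y = 2 * n := by omega
    subst ey
    intro h
    have h0 := H.p1_0 hf (x := x) h1 h2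
    have := predr hf (L := 6 * k + 1) (R := b + 24) h0 (by omega) (fun p r s hp hr' hs' => by
      rw [show b + 24 - 1 = b + 23 by omega]
      rcases Nat.eq_zero_or_pos p with hp0 | hp0
      · subst hp0
        exact H.T.r1 hf (L := 6 * k + 1) (p := 1) (j := 4) (by omega) (by omega) (by omega) (by omega) (by omega)
          (by omega)
      · have ep : p = 1 := by omega
        subst ep
        rw [Nat.add_sub_cancel]
        exact hr 0 _ _ (by omega) (by omega) (by omega) (by omega))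
    rw [show 6 * k + 1 - 1 = 6 * k by omega] at this
    rcases this with g | g | g | g | g | g | g
    · exact e_only' hf (by omega) (fun q r s a1 a2 a3 => hlw _ _ _ (by omega) (by omega) (by omega) (by omega)
        (by omega)) g
    · exact e_only' hf (by omega) (fun q r s a1 a2 a3 => hlw _ _ _ (by omega) (by omega) (by omega) (by omega)
        (by omega)) g
    · exact e_only' hf (by omega) (fun q r s a1 a2 a3 => hlw _ _ _ (by omega) (by omega) (by omega) (by omega)
        (by omega)) g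
    · exact ev hf (by omega) (by omega) hxy.1 hxy.2 g
    · exact kl hf g le_rfl (by omega) (by omega) (by omega) (by omega) (by omega) le_rfl (by omega) (by omega) h
    · exact kl hf g le_rfl (by omega) (by omega) (by omega) le_rfl (by omega) (by omega) (by omega) (by omega) h
    · exact kl hf g le_rfl (by omega) (by omega) (by omega) (by omega) (by omega) (by omega) (by omega) (by omega) h
  · intro h
    have k0 : ∀ r s : ℕ, r ≤ 1 → s ≤ 1 → ¬ f (6 * k) (b + 24) (x - r) (y - s) := fun r s hr' hs' g =>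
      kl hf g le_rfl (by omega) (by omega) (by omega) (by omega) (by omega) (by omega) (by omega) (by omega) h
    have h0 := k0 0 0 (by omega) (by omega)
    rw [Nat.sub_zero, Nat.sub_zero] at h0
    have := predr hf (L := 6 * k) (R := b + 24) h0 (fun hh => hxy ⟨hh.2.2.1, hh.2.2.2⟩) (fun p r s hp hr' hs' => by
      rw [show b + 24 - 1 = b + 23 by omega]
      exact hr p _ _ hp (by omega) (by omega) (by omega))
    have hl : ∀ x' y' : ℕ, 2 * n ≤ x' → y' ≤ x' → x' ≤ y' + 4 * k → ¬ f (6 * k - 1) (b + 24) x' y' :=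
      fun x' y' a1 a2 a3 => H.lw _ _ _ _ (by omega) (by omega) (by omega) a1 a2 a3
    rcases this with g | g | g | g | g | g | g
    · have := k0 1 0 (by omega) (by omega)
      rw [Nat.sub_zero] at this
      exact this g
    · have := k0 0 1 (by omega) (by omega)
      rw [Nat.sub_zero] at this
      exact this g
    · exact k0 1 1 (by omega) (by omega) g
    · exact hl _ _ (by omega) (by omega) (by omega) g
    · exact hl _ _ (by omega) (by omega) (by omega) g
    · exact hl _ _ (by omega) (by omega) (by omega) g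
    · exact hl _ _ (by omega) (by omega) (by omega) g

/-- **17d**: the left run of the layer `6 k`, row `c + 4`, line `2 n + 1` -/
theorem run_d_aux (hf : Rule f) (H : ZBH f k (b + 22) n) {x0 x : ℕ} (hx0 : x0 % 2 = 0) (hx : x % 2 = 0)
    (h1 : 2 * n + 10 ≤ x) (hle : x ≤ x0) (h2 : x0 + 6 ≤ 2 * n + 2 * k) (h0 : f (6 * k) (b + 26) x0 (2 * n + 1)) :
    f (6 * k) (b + 26) x (2 * n + 1) := by
  have hc := H.T.hc
  have hk := H.T.hk
  obtain ⟨d, hd⟩ : ∃ d : ℕ, x0 = x + 2 * d := ⟨(x0 - x) / 2, by omega⟩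
  subst hd
  clear hle hx0
  induction d with
  | zero => exact h0
  | succ d ih =>
    refine ih (by omega) ?_
    obtain ⟨i, hi⟩ : ∃ i : ℕ, x + 2 * d = 2 * (i + 1) := ⟨(x + 2 * d) / 2 - 1, by omega⟩
    have e2 : x + 2 * (d + 1) = 2 * (i + 1) + 2 := by omega
    rw [e2] at h0
    rw [hi]
    have h3 : ¬ sr f (6 * k) (b + 26) (i + 1) n := by
      intro h
      rcases h with h | h
      · unfold bY at h
        exact kill hf h 0 0 1 1 (by omega) (by omega) le_rfl le_rfl (by omega) h0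
      · unfold bO at h
        exact kill hf h 0 0 1 0 (by omega) (by omega) le_rfl (by omega) (by omega) h0
    have hl : ∀ x' y' : ℕ, 2 * i + 1 ≤ x' → x' ≤ 2 * i + 3 → 2 * n ≤ y' → y' ≤ 2 * n + 1 →
        ¬ f (6 * k - 1) (b + 26) x' y' :=
      fun x' y' a1 a2 a3 a4 => H.lw _ _ _ _ (by omega) (by omega) (by omega) (by omega) (by omega) (by omega)
    have hr : ∀ p x' y' : ℕ, p ≤ 1 → 2 * i + 1 ≤ x' → x' ≤ 2 * i + 3 → 2 * n ≤ y' → y' ≤ 2 * n + 1 →
        ¬ f (6 * k - p) (b + 26 - 1) x' y' := by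
      intro p x' y' hp a1 a2 a3 a4
      rw [show b + 26 - 1 = b + 25 by omega]
      rcases Nat.eq_zero_or_pos p with hp0 | hp0
      · subst hp0
        exact z25 hf H (by omega) (by omega) (by omega)
      · have ep : p = 1 := by omega
        subst ep
        exact H.lw _ _ _ _ (by omega) (by omega) (by omega) (by omega) (by omega) (by omega)
    have h4 : ¬ sr f (6 * k) (b + 26) i n :=
      Beam.right_back hf (by omega) (by omega)
        (fun x' y' a1 a2 a3 a4 => hl x' y' (by omega) (by omega) (by omega) (by omega))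
        (fun p x' y' hp a1 a2 a3 a4 => hr p x' y' hp (by omega) (by omega) (by omega) (by omega)) h3
    have h5 := x_of_line hf (L := 6 * k) (b := b + 26) (i := i) (j := n) (by omega) (by omega)
        (fun x' y' a1 a2 a3 a4 => hl x' y' (by omega) (by omega) (by omega) (by omega))
        (fun p x' y' hp a1 a2 a3 a4 => hr p x' y' hp (by omega) (by omega) (by omega) (by omega)) h4
    exact h5

/-- **17d** over the stack -/
theorem run_d (hf : Rule f) (hs : Side k b m) (S : Stack6 f k b m 0 0 0 0 0 1) (hn : n = m + 9 + (k + 2) * 4)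
    (d0 : Cyc f (6 * k) (b + 16) (2 * (n - 5) + 2)) (d2 : Cyc f (6 * k + 2) (b + 18) (2 * (n - 3) + 2))
    (d4 : Cyc f (6 * k + 4) (b + 20) (2 * (n + 1) + 2)) {x0 x : ℕ} (hx0 : x0 % 2 = 0) (hx : x % 2 = 0)
    (h1 : 2 * n + 10 ≤ x) (hle : x ≤ x0) (h2 : x0 + 6 ≤ 2 * n + 2 * k)
    (h0 : f (6 * k) (b + 26) x0 (2 * n + 1)) : f (6 * k) (b + 26) x (2 * n + 1) :=
  run_d_aux hf (zbh_stack hf hs S hn d0 d2 d4) hx0 hx h1 hle h2 h0

end Pool.Agent.SNT.E1m4
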