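import Mathlib

set_option autoImplicit false

/-! The profile record with nominal slope: abstract form.

`Pf a b J` reads: the layer `a` is static beyond the profile with offset `J` (in columns) over the
nominal lead, at the IN row `b` of `a`. -/

namespace Pool.Agent.SNT

/-- The nominal lead of the layer `a` at its IN row `b` for the speed `(k + 2) / 4`. -/
def nuLead (k a b : ℕ) : ℤ := (((k : ℤ) + 2) * b + 2 * k - ((k : ℤ) - 2) * a) / 4

theorem nuLead_exact {k a b : ℕ} (ha : a % 2 = 0) (hab : (a + b) % 4 = 2) :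
    4 * nuLead k a b = ((k : ℤ) + 2) * b + 2 * k - ((k : ℤ) - 2) * a := by
  obtain ⟨u, hu⟩ : ∃ u : ℕ, a + b = 4 * u + 2 := ⟨(a + b) / 4, by omega⟩
  obtain ⟨v, hv⟩ : ∃ v : ℕ, a = 2 * v := ⟨a / 2, by omega⟩
  have e : ((k : ℤ) + 2) * b + 2 * k - ((k : ℤ) - 2) * a = 4 * (k * (u - v + 1) + 2 * u + 1) := by
    have hb : (b : ℤ) = 4 * u + 2 - 2 * v := by
      have : (a : ℤ) + b = 4 * u + 2 := by exact_mod_cast hu
      have h2 : (a : ℤ) = 2 * v := by exact_mod_cast hv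
      linarith
    have ha' : (a : ℤ) = 2 * v := by exact_mod_cast hv
    rw [hb, ha']
    ring
  unfold nuLead
  rw [e]
  omega

theorem nuLead_next {k a b : ℕ} (ha : a % 2 = 0) (hab : (a + b) % 4 = 2) :
    nuLead k a (b + 4) = nuLead k a b + k + 2 := by
  have h1 := nuLead_exact (k := k) ha hab
  have h2 := nuLead_exact (k := k) (b := b + 4) ha (by omega)
  push_cast at h2
  have : 4 * nuLead k a (b + 4) = 4 * (nuLead k a b + k + 2) := by
    rw [h2]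
    linear_combination -h1
  omega

theorem nuLead_up {k a b : ℕ} (ha : a % 2 = 0) (hab : (a + b) % 4 = 2) :
    nuLead k (a + 2) (b + 2) = nuLead k a b + 2 := by
  have h1 := nuLead_exact (k := k) ha hab
  have h2 := nuLead_exact (k := k) (a := a + 2) (b := b + 2) (by omega) (by omega)
  push_cast at h2
  have : 4 * nuLead k (a + 2) (b + 2) = 4 * (nuLead k a b + 2) := by
    rw [h2]
    linear_combination -h1
  omega

/-- `A` is the lowest maximiser and `O` the top offset. -/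
structure ProfRec (S : Finset ℕ) (Pf : ℕ → ℕ → ℤ → Prop) (A : ℕ) (O : ℤ) : Prop where
  mem : A ∈ S
  all : ∃ B : ℕ, ∀ a ∈ S, ∀ b : ℕ, B ≤ b → Pf a b O
  low : ∃ B : ℕ, ∀ a ∈ S, a < A → ∀ b : ℕ, B ≤ b → Pf a b (O - 1)
  hit : ∀ B : ℕ, ∃ b : ℕ, B ≤ b ∧ ¬ Pf A b (O - 1)

/-- Records exist. -/
theorem exists_profRec (S : Finset ℕ) (Pf : ℕ → ℕ → ℤ → Prop)
    (mono : ∀ a b : ℕ, ∀ J J' : ℤ, J ≤ J' → Pf a b J → Pf a b J')
    (up : ∀ a ∈ S, ∃ J : ℤ, ∃ B : ℕ, ∀ b : ℕ, B ≤ b → Pf a b J)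
    (low : ∃ a ∈ S, ∃ J : ℤ, ∀ B : ℕ, ∃ b : ℕ, B ≤ b ∧ ¬ Pf a b J) :
    ∃ A : ℕ, ∃ O : ℤ, ProfRec S Pf A O := by
  classical
  -- a common upper bound
  have hup : ∃ J : ℤ, ∀ a ∈ S, ∃ B : ℕ, ∀ b : ℕ, B ≤ b → Pf a b J := by
    clear low
    induction S using Finset.induction_on with
    | empty => exact ⟨0, by simp⟩
    | insert c S _ ih =>
      obtain ⟨J1, h1⟩ := ih (fun a ha => up a (Finset.mem_insert_of_mem ha))
      obtain ⟨J2, B2, h2⟩ := up c (Finset.mem_insert_self _ _)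
      refine ⟨max J1 J2, fun a ha => ?_⟩
      rcases Finset.mem_insert.1 ha with rfl | ha'
      · exact ⟨B2, fun b hb => mono _ _ _ _ (le_max_right _ _) (h2 b hb)⟩
      · obtain ⟨B, hB⟩ := h1 a ha'
        exact ⟨B, fun b hb => mono _ _ _ _ (le_max_left _ _) (hB b hb)⟩
  obtain ⟨J1, hJ1⟩ := hup
  obtain ⟨a0, ha0, J0, hJ0⟩ := low
  -- the least good offset
  let Q : ℤ → Prop := fun J => ∀ a ∈ S, ∃ B : ℕ, ∀ b : ℕ, B ≤ b → Pf a b J
  have hbd : ∀ J : ℤ, Q J → J0 + 1 ≤ J := by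
    intro J hQ
    by_contra hlt
    obtain ⟨B, hB⟩ := hQ a0 ha0
    obtain ⟨b, hb, hn⟩ := hJ0 B
    exact hn (mono _ _ _ _ (by omega) (hB b hb))
  obtain ⟨O, hO, hmin⟩ := Int.exists_least_of_bdd (P := Q) ⟨J0 + 1, hbd⟩ ⟨J1, hJ1⟩
  have hn : ¬ Q (O - 1) := fun h => by
    have := hmin _ h
    omega
  -- the layers where `O - 1` fails infinitely often
  have hex : ∃ a, a ∈ S ∧ ∀ B : ℕ, ∃ b : ℕ, B ≤ b ∧ ¬ Pf a b (O - 1) := by
    by_contra hcon
    push Not at hcon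
    exact hn fun a ha => hcon a ha
  let A := Nat.find hex
  have hA := Nat.find_spec hex
  have common : ∀ (P : ℕ → ℕ → Prop), (∀ a ∈ S, ∃ B : ℕ, ∀ b : ℕ, B ≤ b → P a b) →
      ∃ B : ℕ, ∀ a ∈ S, ∀ b : ℕ, B ≤ b → P a b := by
    intro P hP
    choose! g hg using hP
    refine ⟨S.sup g, fun a ha b hb => hg a ha b ?_⟩
    exact (Finset.le_sup (f := g) ha).trans hb
  refine ⟨A, O, hA.1, common _ hO, ?_, hA.2⟩
  obtain ⟨B, hB⟩ := common (fun a b => a < A → Pf a b (O - 1)) (by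
    intro a ha
    by_cases hlt : a < A
    · have h1 := Nat.find_min hex hlt
      have h2 : ¬ ∀ B : ℕ, ∃ b : ℕ, B ≤ b ∧ ¬ Pf a b (O - 1) := fun h => h1 ⟨ha, h⟩
      push Not at h2
      obtain ⟨B, hB⟩ := h2
      exact ⟨B, fun b hb _ => hB b hb⟩
    · exact ⟨0, fun b _ h => absurd h hlt⟩)
  exact ⟨B, fun a ha hlt b hb => hB a ha b hb hlt⟩

/-- The window form: a hit with everything known around it and later. -/
theorem ProfRec.window {S : Finset ℕ} {Pf : ℕ → ℕ → ℤ → Prop} {A : ℕ} {O : ℤ}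
    (h : ProfRec S Pf A O) (W B : ℕ) :
    ∃ b0 : ℕ, B + W ≤ b0 ∧ ¬ Pf A b0 (O - 1) ∧
      (∀ a ∈ S, ∀ b : ℕ, b0 ≤ b + W → Pf a b O) ∧
      (∀ a ∈ S, a < A → ∀ b : ℕ, b0 ≤ b + W → Pf a b (O - 1)) := by
  obtain ⟨B1, h1⟩ := h.all
  obtain ⟨B2, h2⟩ := h.low
  obtain ⟨b0, hb0, hn⟩ := h.hit (B + B1 + B2 + W)
  exact ⟨b0, by omega, hn, fun a ha b hb => h1 a ha b (by omega),
    fun a ha hlt b hb => h2 a ha hlt b (by omega)⟩

end Pool.Agent.SNT
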