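import Pool.Agent.SNT.Up4
import Pool.Agent.SNT.ProfRec

set_option autoImplicit false

/-! The profile predicate of the weighted record and the natural-number window of four layers. -/

namespace Pool.Agent.SNT

/-- The layer `a` is static beyond the profile with offset `J` at its IN row `b`. -/
def Pf (k : ℕ) (f : ℕ → ℕ → ℕ → ℕ → Prop) (a b : ℕ) (J : ℤ) : Prop :=
  a % 2 = 0 → b % 2 = 0 → (a + b) % 4 = 2 → ∀ n : ℕ, nuLead k a b + J ≤ (n : ℤ) →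
    Cyc f a b (2 * n + 2)

theorem Pf.mono {k : ℕ} {f : ℕ → ℕ → ℕ → ℕ → Prop} {a b : ℕ} {J J' : ℤ} (h : J ≤ J')
    (H : Pf k f a b J) : Pf k f a b J' :=
  fun h1 h2 h3 n hn => H h1 h2 h3 n (by omega)

/-- The four rows of a cycle (without the next IN row). -/
structure Cy3 (f : ℕ → ℕ → ℕ → ℕ → Prop) (a b K : ℕ) : Prop where
  r0 : St f a b K
  r1 : St f a (b + 1) (K + 2)
  r1s : 6 ≤ a → ∀ x y : ℕ, max x y ≤ min x y + 2 * (a / 6) → K + 1 < max x y →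
    (f a (b + 1) x y ↔ Fst a (b + 1) x y)
  r2 : St f a (b + 2) (K + cc a)
  r2x : ∀ x y : ℕ, min x y + 2 * (a / 6) ≤ max x y → K + 4 < max x y →
    (f a (b + 2) x y ↔ Fst a (b + 2) x y)
  r2s : ∀ x y : ℕ, max x y + 1 ≤ min x y + 2 * (a / 6) → K + 1 < min x y →
    (f a (b + 2) x y ↔ Fst a (b + 2) x y)
  r3 : St f a (b + 3) (K + cc a + 2)
  r3s : ∀ x y : ℕ, max x y + 1 ≤ min x y + 2 * (a / 6) → K + 3 < min x y →
    (f a (b + 3) x y ↔ Fst a (b + 3) x y)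

theorem Cyc.of3 {f : ℕ → ℕ → ℕ → ℕ → Prop} {a b K : ℕ} (h : Cy3 f a b K)
    (h4 : St f a (b + 4) (K + cc a + 4)) : Cyc f a b K :=
  ⟨h.r0, h.r1, h.r1s, h.r2, h.r2x, h.r2s, h.r3, h.r3s, h4⟩

theorem Cyc.to3 {f : ℕ → ℕ → ℕ → ℕ → Prop} {a b K : ℕ} (h : Cyc f a b K) : Cy3 f a b K :=
  ⟨h.r0, h.r1, h.r1s, h.r2, h.r2x, h.r2s, h.r3, h.r3s⟩

/-- The side conditions of a window. -/
def Side (k b m : ℕ) : Prop :=
  8 ≤ k ∧ b % 2 = 0 ∧ (6 * k + b) % 4 = 2 ∧ 100 * k + 1000 ≤ b ∧ 2 * b ≤ m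

/-- The window of the four layers: `e = 0` is offset `J - 1`, `e = 1` is offset `J`; `b` is an IN
row of the layer `6 k` and `m + k + e0` is its lead there. -/
structure Stack (f : ℕ → ℕ → ℕ → ℕ → Prop) (k b m e0 e2 e4 e6 : ℕ) : Prop where
  l0 : ∀ i : ℕ, Cyc f (6 * k) (b + 4 * i) (2 * (m + k + e0 + (k + 2) * i) + 2)
  l2 : ∀ i : ℕ, Cyc f (6 * k + 2) (b + 2 + 4 * i) (2 * (m + k + 2 + e2 + (k + 2) * i) + 2)
  l4 : ∀ i : ℕ, Cyc f (6 * k + 4) (b + 4 * i) (2 * (m + 2 + e4 + (k + 2) * i) + 2)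
  l6 : ∀ i : ℕ, Cyc f (6 * k + 6) (b + 2 + 4 * i) (2 * (m + 4 + e6 + (k + 2) * i) + 2)
  lw : ∀ i : ℕ, i ≤ 100 → St f (6 * k - 1) (b + i) (2 * m - (100 * k + 1000))

end Pool.Agent.SNT
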