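import Pool.Agent.SNT.FstInd

set_option autoImplicit false

/-! The static field near the strip, in explicit form. -/

namespace Pool.Agent.SNT

/-- The static field of an even layer in the strip and in the adjacent part of the bulk, for
`x = y + D`. -/
theorem Fst_zone {a b y D : ℕ} (ha : a % 2 = 0) (h6 : 6 ≤ a) (hab : a + 30 ≤ b)
    (hd : D ≤ 2 * (a / 6) + 8) : Fst a b (y + D) y ↔
    (b % 2 = 0 ∧ D % 2 = 1 ∧ ((D + 1 ≤ 2 * (a / 6) ∧ (a + b + 2 * y + 2 * D) % 4 = 0) ∨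
      (2 * (a / 6) ≤ D + 1 ∧ (a + b + 2 * y + D) % 4 = (1 + 2 * (a / 6)) % 4))) ∨
    (b % 2 = 1 ∧ D % 2 = 0 ∧ ((2 * (a / 6) ≤ D ∧ (a + b + 2 * y + D) % 4 = (1 + 2 * (a / 6)) % 4) ∨
      (D = 0 ∧ (a + b + 2 * y) % 4 = 3))) := by
  rw [Fst_of_le (by omega) (by omega)]
  have e1 : y + D - y = D := by omega
  rw [e1]
  unfold FF
  have h1 : ¬ FF1 a b D ((y + D) % 2) := by
    unfold FF1
    omega
  have h2 : ¬ FF2 a b D ((y + D) % 2) := by
    rintro ⟨g1, g2, g3, g4⟩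
    unfold FU at g3
    rcases g3 with g3 | g3 | g3 | g3 | g3 | g3 <;> omega
  have h4 : ¬ FF4 a b D ((y + D) % 2) := by
    unfold FF4
    omega
  have h5 : FT a (b - a) D := by
    right
    omega
  rw [iff_false_intro h1, iff_false_intro h2, iff_false_intro h4, false_or, false_or, or_false]
  unfold FF3
  simp only [iff_true_intro h5, true_and, and_true]
  constructor
  · rintro (⟨g1, g2, g3, g4, g5, g6⟩ | ⟨g1, g2, g3, g4, g5, g6⟩ | ⟨g1, g2, g3, g4, g6⟩ |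
      ⟨g1, g2, g3, g4, g5, g6⟩)
    · left; refine ⟨g2, g4, Or.inl ⟨g5, by omega⟩⟩
    · left; refine ⟨g2, g4, Or.inr ⟨g5, by omega⟩⟩
    · right; refine ⟨g2, g3, Or.inl ⟨g4, by omega⟩⟩
    · right; refine ⟨g2, by omega, Or.inr ⟨g3, by omega⟩⟩
  · rintro (⟨g1, g2, ⟨g3, g4⟩ | ⟨g3, g4⟩⟩ | ⟨g1, g2, ⟨g3, g4⟩ | ⟨g3, g4⟩⟩)
    · left; exact ⟨ha, g1, Or.inl (by omega), g2, g3, by omega⟩
    · right; left; exact ⟨ha, g1, Or.inl (by omega), g2, g3, by omega⟩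
    · right; right; left; exact ⟨ha, g1, g2, g3, by omega⟩
    · right; right; right; exact ⟨ha, g1, g3, h6, by omega, Or.inl (by omega)⟩

end Pool.Agent.SNT
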