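import Pool.Agent.SNT.Up4
import Pool.Agent.SNT.FwdZ

set_option autoImplicit false
set_option maxHeartbeats 1000000

/-! The cycle of an even layer, with a weak hypothesis on the odd layer below it. -/

namespace Pool.Agent.SNT

variable {f : ℕ → ℕ → ℕ → ℕ → Prop}

/-- Row `3` of the cycle, weak form. -/
theorem S3w (hf : Rule f) {a b K : ℕ} (hab : a + 5 ≤ b) (ha : a % 2 = 0) (hb : b % 2 = 1)
    (h6 : 6 ≤ a) (h4 : (a + b) % 4 = 1) (hK : a + b + 6 ≤ K) (hK2 : K % 2 = 0)
    (hA : ∀ u v q : ℕ, max u v ≤ min u v + 1 → K + 2 < min u v → q ≤ 1 →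
      (f (a - 1) (b - q) u v ↔ Fst (a - 1) (b - q) u v))
    (hP : ∀ u v : ℕ, max u v + 1 ≤ min u v + 2 * (a / 6) → K + 1 < min u v →
      (f a (b - 1) u v ↔ Fst a (b - 1) u v))
    {x y : ℕ} (hyx : y ≤ x) (hd : x + 1 ≤ y + 2 * (a / 6)) (hy : K + 3 < y) :
    f a b x y ↔ Fst a b x y := by
  have hab' : a ≤ b := by omega
  have hline : ∀ u v : ℕ, v < u → u + 1 ≤ v + 2 * (a / 6) → K + 1 < v → u % 2 = 0 → v % 2 = 1 →
      f a (b - 1) u v := by
    intro u v h3 h5 h2 h7 h8
    rw [hP u v (by omega) (by omega)]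
    exact (Fst_I (by omega) ha (by omega) (by omega) h3.le h5).2 ⟨h7, h8⟩
  rw [Fst_odd (by omega) ha hb hyx hd]
  rcases Nat.eq_or_lt_of_le hyx with h2 | h2
  · subst h2
    rcases Nat.mod_two_eq_zero_or_one y with hy2 | hy2
    · refine iff_of_false ?_ (by omega)
      refine zero_of_one hf 0 1 0 1 (by omega) (by omega) (by omega) (by omega) (by omega)
        (by omega) (by omega) (by omega) (by omega) ?_
      exact hline y (y - 1) (by omega) (by omega) (by omega) (by omega) (by omega)
    · have h3 : (a + b + 2 * y) % 4 = 3 := by omega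
      refine iff_of_true ?_ ⟨rfl, h3⟩
      have hm1 : ¬ f a b y (y - 1) := by
        refine zero_of_one hf 0 1 1 1 (by omega) (by omega) (by omega) (by omega) (by omega)
          (by omega) (by omega) (by omega) (by omega) ?_
        exact hline (y - 1) (y - 1 - 1) (by omega) (by omega) (by omega) (by omega) (by omega)
      refine of_row_zero hf hab' le_rfl (by omega) (by omega) ?_ ?_ ?_ hm1 ?_
      · refine not_low_of_FF hab' (by omega) (Dm.fc11 ?_)
        omega
      · intro r s hr hs p q hp hq hpq hpa hqb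
        rcases Nat.eq_zero_or_pos p with h0 | h0
        · subst h0
          have hq1 : q = 1 := by omega
          subst hq1
          exact hP _ _ (by omega) (by omega)
        · have hp1 : p = 1 := by omega
          subst hp1
          exact hA _ _ _ (by omega) (by omega) hq
      · rw [hf.swap_xy]
        exact hm1
      · refine zero_of_one hf 0 1 0 1 (by omega) (by omega) (by omega) (by omega) (by omega)
          (by omega) (by omega) (by omega) (by omega) ?_
        exact hline (y - 1) (y - 1 - 1) (by omega) (by omega) (by omega) (by omega) (by omega)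
  · refine iff_of_false ?_ (by omega)
    rcases Nat.mod_two_eq_zero_or_one x with hx2 | hx2 <;>
      rcases Nat.mod_two_eq_zero_or_one y with hy2 | hy2
    · refine zero_of_one hf 0 1 0 1 (by omega) (by omega) (by omega) (by omega) (by omega)
        (by omega) (by omega) (by omega) (by omega) ?_
      exact hline x (y - 1) (by omega) (by omega) (by omega) (by omega) (by omega)
    · refine zero_of_one hf 0 1 0 0 (by omega) (by omega) (by omega) (by omega) (by omega)
        (by omega) (by omega) (by omega) (by omega) ?_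
      exact hline x y (by omega) (by omega) (by omega) (by omega) (by omega)
    · refine zero_of_one hf 0 1 1 1 (by omega) (by omega) (by omega) (by omega) (by omega)
        (by omega) (by omega) (by omega) (by omega) ?_
      exact hline (x - 1) (y - 1) (by omega) (by omega) (by omega) (by omega) (by omega)
    · refine zero_of_one hf 0 1 1 0 (by omega) (by omega) (by omega) (by omega) (by omega)
        (by omega) (by omega) (by omega) (by omega) ?_
      exact hline (x - 1) y (by omega) (by omega) (by omega) (by omega) (by omega)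

/-- Row `4`: no particles `(even, odd)`, weak form. -/
theorem S4_Xw (hf : Rule f) {a b K : ℕ} (hab : a + 5 ≤ b) (ha : a % 2 = 0) (hb : b % 2 = 0)
    (h6 : 6 ≤ a) (h4 : (a + b) % 4 = 2) (hK : a + b + 6 ≤ K)
    (hA : ∀ u v q : ℕ, max u v + 1 ≤ min u v + 2 * (a / 6) → K + 3 < min u v → q ≤ 1 →
      (f (a - 1) (b - q) u v ↔ Fst (a - 1) (b - q) u v))
    (hP : ∀ u v : ℕ, max u v + 1 ≤ min u v + 2 * (a / 6) → K + 3 < min u v →
      (f a (b - 1) u v ↔ Fst a (b - 1) u v)) :
    ∀ n x y : ℕ, x = y + (2 * n + 1) → x + 1 ≤ y + 2 * (a / 6) → y % 2 = 1 → K + 4 < y →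
      ¬ f a b x y := by
  have hab' : a ≤ b := by omega
  intro n
  induction n with
  | zero =>
    intro x y hn hd hy hK'
    have h1 : f a (b - 1) y y := by
      rw [hP y y (by omega) (by omega)]
      exact (Fst_odd (by omega) ha (by omega) le_rfl (by omega)).2 ⟨rfl, by omega⟩
    refine zero_of_one hf 0 1 1 0 (by omega) (by omega) (by omega) (by omega) (by omega)
        (by omega) (by omega) (by omega) (by omega) ?_
    have e1 : x - 1 = y := by omega
    rw [e1]
    exact h1
  | succ n ih =>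
    intro x y hn hd hy hK' h
    have hz : ¬ f a b (x - 1) y := by
      have := hf.down h (p := 0) (q := 0) (r := 1) (s := 0) (by omega) (by omega) (by omega)
        (by omega) (by omega) (by omega) (by omega) (by omega) (by omega)
      exact this
    have h3 := exists_pred_of_not_low hf (x := x - 1) (y := y) hab' (by omega) (by omega)
      (by omega) (by
        have e2 : (x - 1) % 2 = 1 := by omega
        rw [e2]
        exact open_O hab' ha hb (by omega) (Or.inl ⟨by omega, by omega⟩))
      (by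
        intro r s hr hs p q hp hq hpq hpa hqb
        rcases Nat.eq_zero_or_pos p with h0 | h0
        · subst h0
          have hq1 : q = 1 := by omega
          subst hq1
          exact hP _ _ (by omega) (by omega)
        · have hp1 : p = 1 := by omega
          subst hp1
          exact hA _ _ _ (by omega) (by omega) hq) hz
    rcases h3 with h3 | h3 | h3
    · exact ih (x - 1 - 1) y (by omega) (by omega) hy hK' h3
    · have := hf.down h (p := 0) (q := 0) (r := 1) (s := 1) (by omega) (by omega) (by omega)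
        (by omega) (by omega) (by omega) (by omega) (by omega) (by omega)
      exact this h3
    · exact hf.not_allEven h3 ⟨ha, hb, by omega, by omega⟩

/-- Row `4`: the lines, weak form. -/
theorem S4_Yw (hf : Rule f) {a b K K' : ℕ} (hab : a + 5 ≤ b) (ha : a % 2 = 0) (hb : b % 2 = 0)
    (h6 : 6 ≤ a) (h4 : (a + b) % 4 = 2) (hK : a + b + 6 ≤ K) (hKK : K + 2 * (a / 6) + 2 ≤ K')
    (hK2' : K' % 2 = 0)
    (hA : ∀ u v q : ℕ, max u v + 1 ≤ min u v + 2 * (a / 6) → K + 3 < min u v → q ≤ 1 →
      (f (a - 1) (b - q) u v ↔ Fst (a - 1) (b - q) u v))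
    (hP : ∀ u v : ℕ, max u v + 1 ≤ min u v + 2 * (a / 6) → K + 3 < min u v →
      (f a (b - 1) u v ↔ Fst a (b - 1) u v))
    (hls : LSK f a b K') :
    ∀ n x y : ℕ, x + 2 * n + 1 = y + 2 * (a / 6) → y ≤ x → x % 2 = 1 → y % 2 = 0 → K' + 2 < x →
      f a b x y := by
  have hab' : a ≤ b := by omega
  have hLS : ∀ u v : ℕ, K' < u → LS f a b u v := fun u v hu => hls u v
    (lt_of_lt_of_le hu (le_max_left _ _))
  have hX : ∀ x y : ℕ, x % 2 = 1 → y % 2 = 0 → y ≤ x → x + 1 ≤ y + 2 * (a / 6) → K' + 2 < x →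
      ¬ f a b (x - 1) (y - 1) := by
    intro x y hx hy hyx hd hK'
    exact S4_Xw hf hab ha hb h6 h4 hK hA hP ((x - y - 1) / 2) (x - 1) (y - 1) (by omega)
      (by omega) (by omega) (by omega)
  intro n
  induction n with
  | zero =>
    intro x y hn hyx hx hy hK'
    refine of_row_zero hf hab' (by omega) (by omega) (by omega) ?_ ?_ ?_ ?_ ?_
    · refine not_low_of_FF hab' (by omega) (Dm.fc8 ?_)
      omega
    · intro r s hr hs
      exact hLS _ _ (by omega)
    · intro h
      exact hf.not_allEven h ⟨ha, hb, by omega, by omega⟩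
    · refine not_of_low hf hab' (by omega) (by omega) ?_ ?_
      · have e1 : x - (y - 1) = 2 * (a / 6) := by omega
        rw [e1, hx]
        exact low_Ok hab' ha h6 h4
      · intro r s hr hs
        exact hLS _ _ (by omega)
    · exact hX x y hx hy hyx (by omega) hK'
  | succ n ih =>
    intro x y hn hyx hx hy hK'
    refine of_row_zero hf hab' (by omega) (by omega) (by omega) ?_ ?_ ?_ ?_ ?_
    · refine not_low_of_FF hab' (by omega) (Dm.fc8 ?_)
      omega
    · intro r s hr hs
      exact hLS _ _ (by omega)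
    · intro h
      exact hf.not_allEven h ⟨ha, hb, by omega, by omega⟩
    · have h1 := ih x (y - 1 - 1) (by omega) (by omega) hx (by omega) hK'
      exact zero_of_one hf 0 0 0 1 (by omega) (by omega) (by omega) (by omega) (by omega)
        (by omega) (by omega) (by omega) (by omega) h1
    · exact hX x y hx hy hyx (by omega) hK'

/-- Row `4` of the cycle (`a + b ≡ 2 mod 4`), inside the strip, weak form. -/
theorem S4w (hf : Rule f) {a b K K' : ℕ} (hab : a + 5 ≤ b) (ha : a % 2 = 0) (hb : b % 2 = 0)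
    (h6 : 6 ≤ a) (h4 : (a + b) % 4 = 2) (hK : a + b + 6 ≤ K) (hKK : K + 2 * (a / 6) + 2 ≤ K')
    (hK2' : K' % 2 = 0)
    (hA : ∀ u v q : ℕ, max u v + 1 ≤ min u v + 2 * (a / 6) → K + 3 < min u v → q ≤ 1 →
      (f (a - 1) (b - q) u v ↔ Fst (a - 1) (b - q) u v))
    (hP : ∀ u v : ℕ, max u v + 1 ≤ min u v + 2 * (a / 6) → K + 3 < min u v →
      (f a (b - 1) u v ↔ Fst a (b - 1) u v))
    (hls : LSK f a b K') {x y : ℕ} (hyx : y ≤ x) (hd : x + 1 ≤ y + 2 * (a / 6))
    (hx : K' + 2 < x) : f a b x y ↔ Fst a b x y := by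
  rw [Fst_II (by omega) ha hb h4 hyx hd]
  rcases Nat.mod_two_eq_zero_or_one x with hx2 | hx2 <;>
    rcases Nat.mod_two_eq_zero_or_one y with hy2 | hy2
  · refine iff_of_false ?_ (by omega)
    intro h
    exact hf.not_allEven h ⟨ha, hb, hx2, hy2⟩
  · refine iff_of_false ?_ (by omega)
    exact S4_Xw hf hab ha hb h6 h4 hK hA hP ((x - y - 1) / 2) x y (by omega) hd hy2 (by omega)
  · refine iff_of_true ?_ ⟨hx2, hy2⟩
    exact S4_Yw hf hab ha hb h6 h4 hK hKK hK2' hA hP hls ((y + 2 * (a / 6) - 1 - x) / 2) x y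
      (by omega) hyx hx2 hy2 hx
  · refine iff_of_false ?_ (by omega)
    have h1 := S4_Yw hf hab ha hb h6 h4 hK hKK hK2' hA hP hls
      ((y - 1 + 2 * (a / 6) - 1 - x) / 2) x (y - 1)
      (by omega) (by omega) hx2 (by omega) hx
    exact zero_of_one hf 0 0 0 1 (by omega) (by omega) (by omega) (by omega) (by omega)
      (by omega) (by omega) (by omega) (by omega) h1

/-- What a cycle needs of the odd layer below. -/
structure OddB (f : ℕ → ℕ → ℕ → ℕ → Prop) (a b K : ℕ) : Prop where
  q0 : St f (a - 1) b K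
  q1 : St f (a - 1) (b + 1) K
  q2 : St f (a - 1) (b + 2) (K + 2)
  q2s : 6 ≤ a → ∀ x y : ℕ, max x y ≤ min x y + 2 * (a / 6) → K + 1 < max x y →
    (f (a - 1) (b + 2) x y ↔ Fst (a - 1) (b + 2) x y)
  q3 : St f (a - 1) (b + 3) (K + cc a)
  q3d : 6 ≤ a → ∀ x y : ℕ, max x y ≤ min x y + 1 → K + 2 < min x y →
    (f (a - 1) (b + 3) x y ↔ Fst (a - 1) (b + 3) x y)
  q3s : 6 ≤ a → ∀ x y : ℕ, max x y + 1 ≤ min x y + 2 * (a / 6) → K + 3 < min x y →
    (f (a - 1) (b + 3) x y ↔ Fst (a - 1) (b + 3) x y)
  q4 : St f (a - 1) (b + 4) (K + cc a + 2)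
  q4s : 6 ≤ a → ∀ x y : ℕ, max x y + 1 ≤ min x y + 2 * (a / 6) → K + 3 < min x y →
    (f (a - 1) (b + 4) x y ↔ Fst (a - 1) (b + 4) x y)

theorem cycle_w (hf : Rule f) {a b K : ℕ} (hab : a + 4 ≤ b) (ha : a % 2 = 0) (hb : b % 2 = 0)
    (h4 : (a + b) % 4 = 2) (hK : a + b + 10 ≤ K) (hK2 : K % 2 = 0) (h0 : St f a b K)
    (hQ : 1 ≤ a → OddB f a b K) : Cyc f a b K := by
  obtain ⟨hc2, hc4, hch⟩ := cc_facts a
  have hl : ∀ i L : ℕ, St f a (b + i) L → (1 ≤ a → St f (a - 1) (b + i + 1) L) →
      (1 ≤ a → St f (a - 1) (b + i) L) → LSK f a (b + i + 1) L := by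
    intro i L h h' h'' x y hxy p q hp hq hpq hpa hqb
    rcases Nat.eq_zero_or_pos p with hp0 | hp0
    · subst hp0
      have hq1 : q = 1 := by omega
      subst hq1
      exact h x y hxy
    · have hp1 : p = 1 := by omega
      subst hp1
      rcases Nat.eq_zero_or_pos q with hq0 | hq0
      · subst hq0
        exact h' hpa x y hxy
      · have hq1 : q = 1 := by omega
        subst hq1
        exact h'' hpa x y hxy
  -- row 1
  have hl1 : LSK f a (b + 1) K := hl 0 K h0 (fun h => (hQ h).q1) (fun h => (hQ h).q0)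
  have r1 : St f a (b + 1) (K + 2) :=
    QF_even_flat hf (by omega) (by omega) hK2 hl1 (Or.inr (by omega))
  have r1s : 6 ≤ a → ∀ x y : ℕ, max x y ≤ min x y + 2 * (a / 6) → K + 1 < max x y →
      (f a (b + 1) x y ↔ Fst a (b + 1) x y) := by
    intro h6 x y h1 h2
    refine all_of_half hf (P := fun x y => x ≤ y + 2 * (a / 6) ∧ K + 1 < x) ?_ x y ⟨h1, h2⟩
    intro x y hyx hP
    exact S1 hf (by omega) ha (by omega) (by omega) h6 (by omega) hK2 hl1 hyx hP.1 hP.2
  -- row 2
  have hl2 : LSK f a (b + 2) (K + 2) := hl 1 (K + 2) r1 (fun h => (hQ h).q2)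
    (fun h => (hQ h).q1.mono (by omega))
  have r2x : ∀ x y : ℕ, min x y + 2 * (a / 6) ≤ max x y → K + 4 < max x y →
      (f a (b + 2) x y ↔ Fst a (b + 2) x y) := by
    intro x y h1 h2
    refine all_of_half hf (P := fun x y => y + 2 * (a / 6) ≤ x ∧ K + 4 < x) ?_ x y ⟨h1, h2⟩
    intro x y hyx hP
    exact QF_even hf (by omega) (by omega) (by omega) hl2 hyx (by omega) (Or.inl (by omega))
  have r2s : ∀ x y : ℕ, max x y + 1 ≤ min x y + 2 * (a / 6) → K + 1 < min x y →
      (f a (b + 2) x y ↔ Fst a (b + 2) x y) := by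
    intro x y h1 h2
    have h6 : 6 ≤ a := by omega
    refine all_of_half hf (P := fun x y => x + 1 ≤ y + 2 * (a / 6) ∧ K + 1 < y) ?_ x y ⟨h1, h2⟩
    intro x y hyx hP
    refine S2 hf (by omega) ha (by omega) h6 (by omega) (by omega) hK2 ?_ hyx hP.1 hP.2
    intro u v huv1 huv2 p q hp hq hpq hpa hqb
    rcases Nat.eq_zero_or_pos p with hp0 | hp0
    · subst hp0
      have hq1 : q = 1 := by omega
      subst hq1
      exact r1s h6 u v huv1 huv2
    · have hp1 : p = 1 := by omega
      subst hp1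
      rcases Nat.eq_zero_or_pos q with hq0 | hq0
      · subst hq0
        exact (hQ hpa).q2s h6 u v huv1 huv2
      · have hq1 : q = 1 := by omega
        subst hq1
        exact (hQ hpa).q1 u v (by omega)
  have r2 : St f a (b + 2) (K + cc a) := by
    intro x y hxy
    rcases Nat.lt_or_ge (max x y) (min x y + 2 * (a / 6)) with h1 | h1
    · exact r2s x y (by omega) (by omega)
    · exact r2x x y h1 (by omega)
  -- row 3
  have hl3 : LSK f a (b + 3) (K + cc a) := hl 2 (K + cc a) r2 (fun h => (hQ h).q3)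
    (fun h => (hQ h).q2.mono (by omega))
  have r3 : St f a (b + 3) (K + cc a + 2) :=
    QF_even_flat hf (by omega) (by omega) (by omega) hl3 (Or.inr (by omega))
  have r3s : ∀ x y : ℕ, max x y + 1 ≤ min x y + 2 * (a / 6) → K + 3 < min x y →
      (f a (b + 3) x y ↔ Fst a (b + 3) x y) := by
    intro x y h1 h2
    have h6 : 6 ≤ a := by omega
    refine all_of_half hf (P := fun x y => x + 1 ≤ y + 2 * (a / 6) ∧ K + 3 < y) ?_ x y ⟨h1, h2⟩
    intro x y hyx hP
    refine S3w hf (by omega) ha (by omega) h6 (by omega) (by omega) hK2 ?_ r2s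
      hyx hP.1 hP.2
    intro u v q huv1 huv2 hq
    rcases Nat.eq_zero_or_pos q with hq0 | hq0
    · subst hq0
      exact (hQ (by omega)).q3d h6 u v huv1 huv2
    · have hq1 : q = 1 := by omega
      subst hq1
      exact (hQ (by omega)).q2 u v (by omega)
  -- row 4
  have hl4 : LSK f a (b + 4) (K + cc a + 2) := hl 3 (K + cc a + 2) r3 (fun h => (hQ h).q4)
    (fun h => (hQ h).q3.mono (by omega))
  have r4 : St f a (b + 4) (K + cc a + 4) := by
    refine St_of_half hf ?_
    intro x y hyx hx
    rcases Nat.lt_or_ge x (y + 2 * (a / 6)) with h1 | h1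
    · have h6 : 6 ≤ a := by omega
      refine S4w hf (K' := K + cc a + 2) (by omega) ha (by omega) h6 (by omega) (by omega)
        (by omega) (by omega) ?_ r3s hl4 hyx (by omega) (by omega)
      intro u v q huv1 huv2 hq
      rcases Nat.eq_zero_or_pos q with hq0 | hq0
      · subst hq0
        exact (hQ (by omega)).q4s h6 u v huv1 huv2
      · have hq1 : q = 1 := by omega
        subst hq1
        exact (hQ (by omega)).q3s h6 u v huv1 huv2
    · exact QF_even hf (by omega) (by omega) (by omega) hl4 hyx (by omega) (Or.inl (by omega))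
  exact ⟨h0, r1, r1s, r2, r2x, r2s, r3, r3s, r4⟩

/-- Flat hypotheses suffice. -/
theorem OddB_of_flat {a b K : ℕ} (h0 : St f (a - 1) b K) (h1 : St f (a - 1) (b + 1) K)
    (h2 : St f (a - 1) (b + 2) (K + 1)) (h3 : St f (a - 1) (b + 3) (K + 2))
    (h4 : St f (a - 1) (b + 4) (K + 3)) : OddB f a b K := by
  obtain ⟨hc2, hc4, hch⟩ := cc_facts a
  refine ⟨h0, h1, h2.mono (by omega), ?_, h3.mono (by omega), ?_, ?_, h4.mono (by omega), ?_⟩
  · intro _ x y _ h
    exact h2 x y h
  · intro _ x y _ h
    exact h3 x y (by omega)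
  · intro _ x y _ h
    exact h3 x y (by omega)
  · intro _ x y _ h
    exact h4 x y (by omega)

end Pool.Agent.SNT
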