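import Pool.Agent.SNT.LocZ
import Pool.Agent.SNT.PfDef
import Pool.Agent.SNT.UpW

set_option autoImplicit false

/-! Location of an isolated even layer in a zone where the two odd layers around it are zero: the
wall part of the row before the IN row need not be recorded. -/

namespace Pool.Agent.SNT

namespace IsoL

open TipI LocZ

variable {f : ℕ → ℕ → ℕ → ℕ → Prop}

/-- `b` is the previous IN row, `N` the column of the tip of the IN row `b + 4`; the OUT row
`b + 2` is known above `K` in the strip and everywhere in the exterior. -/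
structure Hyp (f : ℕ → ℕ → ℕ → ℕ → Prop) (A b N K : ℕ) : Prop where
  x2 : ∀ x y : ℕ, y + 2 * (A / 6) ≤ x → 2 * N < x + 6 → (f A (b + 2) x y ↔ Fst A (b + 2) x y)
  c1 : ∀ x y : ℕ, y ≤ x → x ≤ y + 2 * (A / 6) → 2 * N < x + 3 →
    (f A (b + 1) x y ↔ Fst A (b + 1) x y)
  c2 : ∀ x y : ℕ, y ≤ x → x + 1 ≤ y + 2 * (A / 6) → K < y →
    (f A (b + 2) x y ↔ Fst A (b + 2) x y)
  l2 : ∀ x y : ℕ, y + 2 * (A / 6) ≤ x → 2 * N < x + 6 →
    (f (A - 1) (b + 2) x y ↔ Fst (A - 1) (b + 2) x y)
  l3 : ∀ x y : ℕ, y + 2 * (A / 6) ≤ x → 2 * N < x + 6 →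
    (f (A - 1) (b + 3) x y ↔ Fst (A - 1) (b + 3) x y)
  l4 : ∀ x y : ℕ, y ≤ x → 2 * N < x + 2 → (f (A - 1) (b + 4) x y ↔ Fst (A - 1) (b + 4) x y)
  z : ∀ i x y : ℕ, 1 ≤ i → i ≤ 3 → y ≤ x → x ≤ y + 2 * (A / 6) + 2 → 2 * N < x + 3 →
    x ≤ 2 * N + 3 → ¬ f (A - 1) (b + i) x y
  u : ∀ i x y : ℕ, 1 ≤ i → i ≤ 2 → y ≤ x → x ≤ y + 2 * (A / 6) + 1 → 2 * N < x + 2 →
    x ≤ 2 * N + 2 → ¬ f (A + 1) (b + i) x y

/-- Side conditions. -/
structure Sd (A b N K : ℕ) : Prop where
  hA : A % 2 = 0
  h12 : 12 ≤ A
  hb : (A + b) % 4 = 2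
  hAb : 2 * A + 40 ≤ b
  hN : A + b + 30 ≤ 2 * N
  hK : K + 4 ≤ 2 * N

variable {A b N K : ℕ}

/-- The exterior of the row `b + 3`. -/
theorem ext3 (hf : Rule f) (S : Sd A b N K) (H : Hyp f A b N K) {x y : ℕ}
    (hx : 2 * N < x + 2) (hd : y + 2 * (A / 6) + 1 ≤ x) :
    f A (b + 3) x y ↔ Fst A (b + 3) x y := by
  obtain ⟨hA, h12, hb, hAb, hN, hK⟩ := S
  have hls : ∀ u v : ℕ, v ≤ u → 2 * N - 6 < u → 2 * (A / 6) ≤ u - v → LS f A (b + 3) u v := by
    intro u v huv hu hd' p q hp hq hpq hpa hqb
    rcases Nat.eq_zero_or_pos p with hp0 | hp0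
    · subst hp0
      have hq1 : q = 1 := by omega
      subst hq1
      exact H.x2 u v (by omega) (by omega)
    · have hp1 : p = 1 := by omega
      subst hp1
      rcases Nat.eq_zero_or_pos q with hq0 | hq0
      · subst hq0
        exact H.l3 u v (by omega) (by omega)
      · have hq1 : q = 1 := by omega
        subst hq1
        exact H.l2 u v (by omega) (by omega)
  rcases Nat.lt_or_ge (A + b + 3 + y) x with hfar | hfar
  · rw [hf.far A (b + 3) x y (by omega), Fst_far (by omega) (by omega)]
  have hy6 : 6 ≤ y := by omega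
  rcases Nat.lt_or_ge (x - y) (2 * (A / 6) + 3) with hd3 | hd3
  · -- the two inner diagonals
    have key : ∀ u v : ℕ, u = v + (2 * (A / 6) + 2) → u % 2 = 1 → 2 * N < u + 4 → 6 ≤ v →
        f A (b + 3) u v := by
      intro u v huv hu hu2 hv
      refine one_loc hf (L := 2 * N - 6) (D := 2 * (A / 6)) (by omega) (by omega) (by omega) hv
        (by omega) (by omega) hls ?_
      rw [huv]
      rw [Fst_zone hA (by omega) (by omega) (by omega)]
      omega
    rcases Nat.mod_two_eq_zero_or_one x with hx2 | hx2 <;>
      rcases Nat.lt_or_ge (x - y) (2 * (A / 6) + 2) with hd2 | hd2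
    · have e : x = y + (2 * (A / 6) + 1) := by omega
      have hF : ¬ Fst A (b + 3) x y := by
        rw [e, Fst_zone hA (by omega) (by omega) (by omega)]
        omega
      refine iff_of_false ?_ hF
      have h1 : f A (b + 2) (x - 1) (y - 1) := by
        rw [H.x2 _ _ (by omega) (by omega)]
        have e2 : x - 1 = (y - 1) + (2 * (A / 6) + 1) := by omega
        rw [e2, Fst_zone hA (by omega) (by omega) (by omega)]
        omega
      exact kill hf h1 (by omega) (by omega) (by omega) (by omega) (by omega)
    · have e : x = y + (2 * (A / 6) + 2) := by omega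
      have hF : ¬ Fst A (b + 3) x y := by
        rw [e, Fst_zone hA (by omega) (by omega) (by omega)]
        omega
      refine iff_of_false ?_ hF
      exact kill hf (key (x - 1) (y - 1) (by omega) (by omega) (by omega) (by omega))
        (by omega) (by omega) (by omega) (by omega) (by omega)
    · have e : x = y + (2 * (A / 6) + 1) := by omega
      have hF : ¬ Fst A (b + 3) x y := by
        rw [e, Fst_zone hA (by omega) (by omega) (by omega)]
        omega
      refine iff_of_false ?_ hF
      exact kill hf (key x (y - 1) (by omega) (by omega) (by omega) (by omega))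
        (by omega) (by omega) (by omega) (by omega) (by omega)
    · have e : x = y + (2 * (A / 6) + 2) := by omega
      refine iff_of_true (key x y (by omega) hx2 (by omega) (by omega)) ?_
      rw [e, Fst_zone hA (by omega) (by omega) (by omega)]
      omega
  · exact QF_loc hf (L := 2 * N - 6) (D := 2 * (A / 6)) (by omega) (by omega) (by omega) (by omega)
      hy6 (by omega) (by omega) hls

/-- Row `b + 1`, the cells of the strip and of the diagonal `2 h`. -/
theorem row1 (S : Sd A b N K) (H : Hyp f A b N K) {x y : ℕ} (hyx : y ≤ x)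
    (hd : x ≤ y + 2 * (A / 6)) (hx : 2 * N < x + 3) (hne : ¬ (x = y ∧ x % 2 = 0))
    (hne2 : x = y + 2 * (A / 6) → x % 2 = 0) : ¬ f A (b + 1) x y := by
  obtain ⟨hA, h12, hb, hAb, hN, hK⟩ := S
  rw [H.c1 x y hyx hd hx, fst_three hA (by omega) (by omega) hyx (by omega)]
  omega

/-- The OUT row has no `Y` cell. -/
theorem noY (hf : Rule f) (S : Sd A b N K) (H : Hyp f A b N K) {i : ℕ} (hi : i = N ∨ i + 1 = N) :
    ∀ t j : ℕ, j + t = i → 2 * i + 2 ≤ 2 * j + 2 * (A / 6) → ¬ f A (b + 2) (2 * i + 1) (2 * j) := by
  obtain ⟨hA, h12, hb, hAb, hN, hK⟩ := id S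
  intro t
  induction t with
  | zero =>
    intro j hj hd
    rw [H.c2 _ _ (by omega) (by omega) (by omega), fst_zero hA (by omega) (by omega) (by omega)]
    omega
  | succ t ih =>
    intro j hj hd hY
    rcases Nat.lt_or_ge K (2 * j) with hKj | hKj
    · rw [H.c2 _ _ (by omega) (by omega) hKj, fst_zero hA (by omega) (by omega) (by omega)] at hY
      omega
    have hno : ¬ f (A + 1) (b + 2) (2 * i + 2) (2 * j + 2) :=
      H.u 2 _ _ (by omega) (by omega) (by omega) (by omega) (by omega) (by omega)
    obtain ⟨p, q, r, s, hp, hq, hr, hs, hsum, hpa, hqb, hrx, hsy, hone⟩ :=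
      hf.exists_pred (by omega) hno
    have hq2 : b + 2 - q = b + (2 - q) := by omega
    rcases Nat.eq_zero_or_pos p with hp0 | hp0
    · subst hp0
      rw [hq2] at hone
      exact H.u (2 - q) _ _ (by omega) (by omega) (by omega) (by omega) (by omega) (by omega) hone
    · have hp1 : p = 1 := by omega
      subst hp1
      rw [show A + 1 - 1 = A by omega] at hone
      rcases Nat.eq_zero_or_pos q with hq0 | hq0
      · subst hq0
        rw [Nat.sub_zero] at hone
        have hrs : (r = 0 ∧ s = 0) ∨ (r = 0 ∧ s = 1) ∨ (r = 1 ∧ s = 0) ∨ (r = 1 ∧ s = 1) := by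
          omega
        rcases hrs with ⟨rfl, rfl⟩ | ⟨rfl, rfl⟩ | ⟨rfl, rfl⟩ | ⟨rfl, rfl⟩
        · exact hf.not_allEven hone (by omega)
        · exact kill hf hY (by omega) (by omega) (by omega) (by omega) (by omega) hone
        · refine ih (j + 1) (by omega) (by omega) ?_
          have e1 : 2 * i + 2 - 1 = 2 * i + 1 := by omega
          have e2 : 2 * j + 2 - 0 = 2 * (j + 1) := by omega
          rw [e1, e2] at hone
          exact hone
        · exact kill hf hY (by omega) (by omega) (by omega) (by omega) (by omega) hone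
      · have hq1 : b + 2 - q = b + 1 := by omega
        rw [hq1] at hone
        exact row1 S H (by omega) (by omega) (by omega) (by omega) (by omega) hone

/-- Every block of the OUT row has an `X` or an `O` cell. -/
theorem xo (hf : Rule f) (S : Sd A b N K) (H : Hyp f A b N K) {i j : ℕ}
    (hi : i = N ∨ i + 1 = N) (hji : j < i) (hd : i + 1 ≤ j + A / 6)
    (hO : ¬ f A (b + 2) (2 * i + 1) (2 * j + 1)) : f A (b + 2) (2 * i) (2 * j + 1) := by
  obtain ⟨hA, h12, hb, hAb, hN, hK⟩ := id S
  obtain ⟨p, q, r, s, hp, hq, hr, hs, hsum, hpa, hqb, hrx, hsy, hone⟩ :=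
    hf.exists_pred (by omega) hO
  rcases Nat.eq_zero_or_pos p with hp0 | hp0
  · subst hp0
    rcases Nat.eq_zero_or_pos q with hq0 | hq0
    · subst hq0
      rw [Nat.sub_zero, Nat.sub_zero] at hone
      have hrs : (r = 0 ∧ s = 1) ∨ (r = 1 ∧ s = 0) ∨ (r = 1 ∧ s = 1) := by omega
      rcases hrs with ⟨rfl, rfl⟩ | ⟨rfl, rfl⟩ | ⟨rfl, rfl⟩
      · exact absurd hone (noY hf S H hi (i - j) j (by omega) (by omega))
      · exact hone
      · exact absurd ⟨hA, by omega, by omega, by omega⟩ (hf.not_allEven hone)
    · have hq1 : b + 2 - q = b + 1 := by omega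
      rw [hq1] at hone
      exact absurd hone (row1 S H (by omega) (by omega) (by omega) (by omega) (by omega))
  · have hp1 : p = 1 := by omega
    subst hp1
    have hq2 : b + 2 - q = b + (2 - q) := by omega
    rw [hq2] at hone
    exact absurd hone (H.z (2 - q) _ _ (by omega) (by omega) (by omega) (by omega) (by omega)
      (by omega))

/-- Row `b + 3`, column `2 N + 1`. -/
theorem row3a (hf : Rule f) (S : Sd A b N K) (H : Hyp f A b N K) {j : ℕ} (hj : j < N)
    (hd : N + 1 ≤ j + A / 6) : ¬ f A (b + 3) (2 * N + 1) (2 * j + 2) := by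
  intro h
  by_cases hO : f A (b + 2) (2 * N + 1) (2 * j + 1)
  · exact kill hf hO (by omega) (by omega) (by omega) (by omega) (by omega) h
  · exact kill hf (xo hf S H (Or.inl rfl) hj hd hO) (by omega) (by omega) (by omega) (by omega)
      (by omega) h

/-- Row `b + 3`, column `2 N`. -/
theorem row3b (hf : Rule f) (S : Sd A b N K) (H : Hyp f A b N K) {j : ℕ} (hj : j + 1 < N)
    (hd : N ≤ j + A / 6) : ¬ f A (b + 3) (2 * N) (2 * j + 2) := by
  obtain ⟨hA, h12, hb, hAb, hN, hK⟩ := id S
  intro h
  by_cases hO : f A (b + 2) (2 * N - 1) (2 * j + 1)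
  · exact kill hf hO (by omega) (by omega) (by omega) (by omega) (by omega) h
  have hX : f A (b + 2) (2 * N) (2 * j + 1) := by
    by_contra hno
    obtain ⟨p, q, r, s, hp, hq, hr, hs, hsum, hpa, hqb, hrx, hsy, hone⟩ :=
      hf.exists_pred (by omega) hno
    rcases Nat.eq_zero_or_pos p with hp0 | hp0
    · subst hp0
      rcases Nat.eq_zero_or_pos q with hq0 | hq0
      · subst hq0
        rw [Nat.sub_zero, Nat.sub_zero] at hone
        have hrs : (r = 0 ∧ s = 1) ∨ (r = 1 ∧ s = 0) ∨ (r = 1 ∧ s = 1) := by omega
        rcases hrs with ⟨rfl, rfl⟩ | ⟨rfl, rfl⟩ | ⟨rfl, rfl⟩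
        · exact hf.not_allEven hone (by omega)
        · exact hO hone
        · have h1 := noY hf S H (i := N - 1) (Or.inr (by omega)) (N - 1 - j) j (by omega) (by omega)
          have e1 : 2 * (N - 1) + 1 = 2 * N - 1 := by omega
          rw [e1] at h1
          exact h1 hone
      · have hq1 : b + 2 - q = b + 1 := by omega
        rw [hq1] at hone
        exact row1 S H (by omega) (by omega) (by omega) (by omega) (by omega) hone
    · have hp1 : p = 1 := by omega
      subst hp1
      have hq2 : b + 2 - q = b + (2 - q) := by omega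
      rw [hq2] at hone
      exact H.z (2 - q) _ _ (by omega) (by omega) (by omega) (by omega) (by omega)
        (by omega) hone
  exact kill hf hX (by omega) (by omega) (by omega) (by omega) (by omega) h

/-- Row `b + 3`, the last cell of the strip in the column `2 N + 1`. -/
theorem wall3 (hf : Rule f) (S : Sd A b N K) (H : Hyp f A b N K)
    (hr : St f A (b + 4) (2 * N + 2)) {w : ℕ} (hw : w + 2 * (A / 6) = 2 * N + 2) :
    ¬ f A (b + 3) (2 * N + 1) w := by
  obtain ⟨hA, h12, hb, hAb, hN, hK⟩ := id S
  intro h
  have hwall : f A (b + 4) (2 * N + 3) (w + 2) := by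
    rw [hr _ _ (by rw [max_eq_left (by omega)]; omega),
      fst_two hA (by omega) (by omega) (by omega)]
    omega
  have hno : ¬ f A (b + 4) (2 * N + 3) (w + 1) := by
    rw [hr _ _ (by rw [max_eq_left (by omega)]; omega),
      fst_two hA (by omega) (by omega) (by omega)]
    omega
  obtain ⟨p, q, r, s, hp, hq, hr', hs, hsum, hpa, hqb, hrx, hsy, hone⟩ :=
    hf.exists_pred (by omega) hno
  rcases Nat.eq_zero_or_pos p with hp0 | hp0
  · subst hp0
    rcases Nat.eq_zero_or_pos q with hq0 | hq0
    · subst hq0
      rw [Nat.sub_zero, Nat.sub_zero] at hone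
      have hrs : (r = 0 ∧ s = 1) ∨ (r = 1 ∧ s = 0) ∨ (r = 1 ∧ s = 1) := by omega
      rcases hrs with ⟨rfl, rfl⟩ | ⟨rfl, rfl⟩ | ⟨rfl, rfl⟩
      · rw [Nat.sub_zero, hr _ _ (by rw [max_eq_left (by omega)]; omega),
          fst_two hA (by omega) (by omega) (by omega)] at hone
        omega
      · exact kill hf h (by omega) (by omega) (by omega) (by omega) (by omega) hone
      · exact hf.not_allEven hone (by omega)
    · have hq1 : b + 4 - q = b + 3 := by omega
      rw [hq1, Nat.sub_zero] at hone
      rcases Nat.eq_zero_or_pos s with hs0 | hs0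
      · subst hs0
        exact kill hf hone (by omega) (by omega) (by omega) (by omega) (by omega) hwall
      · have hs1 : s = 1 := by omega
        subst hs1
        rcases Nat.eq_zero_or_pos r with hr0 | hr0
        · subst hr0
          rw [ext3 hf S H (by omega) (by omega)] at hone
          rw [fst_one hA (by omega) (by omega) (by omega) (by omega)] at hone
          omega
        · have hr1 : r = 1 := by omega
          subst hr1
          exact kill hf h (by omega) (by omega) (by omega) (by omega) (by omega) hone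
  · have hp1 : p = 1 := by omega
    subst hp1
    rcases Nat.eq_zero_or_pos q with hq0 | hq0
    · subst hq0
      rw [Nat.sub_zero, H.l4 _ _ (by omega) (by omega)] at hone
      exact odd_zero (by omega) (by omega) (by omega) (by omega) hone
    · have hq1 : b + 4 - q = b + 3 := by omega
      rw [hq1] at hone
      exact H.z 3 _ _ (by omega) (by omega) (by omega) (by omega) (by omega) (by omega) hone

/-- The in-line of the tip is complete in the strip. -/
theorem travel (hf : Rule f) (S : Sd A b N K) (H : Hyp f A b N K)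
    (hr : St f A (b + 4) (2 * N + 2)) (tip : f A (b + 4) (2 * N + 1) (2 * N)) :
    ∀ t : ℕ, t + 1 ≤ A / 6 → f A (b + 4) (2 * N + 1) (2 * N - 2 * t) := by
  obtain ⟨hA, h12, hb, hAb, hN, hK⟩ := id S
  intro t
  induction t with
  | zero => intro _; exact tip
  | succ t ih =>
    intro ht
    have ih' := ih (by omega)
    have hz : ¬ f A (b + 4) (2 * N + 1) (2 * N - 2 * t - 1) := by
      intro h'
      exact kill hf h' (a' := A) (b' := b + 4) (x' := 2 * N + 1) (y' := 2 * N - 2 * t)
        (by omega) (by omega) (by omega) (by omega) (by omega) ih'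
    obtain ⟨p, q, r, s, hp, hq, hr', hs, hsum, hpa, hqb, hrx, hsy, hone⟩ :=
      hf.exists_pred (by omega) hz
    rcases Nat.eq_zero_or_pos s with hs0 | hs0
    · exfalso
      exact kill hf hone (a' := A) (b' := b + 4) (x' := 2 * N + 1) (y' := 2 * N - 2 * t)
        (by omega) (by omega) (by omega) (by omega) (by omega) ih'
    have hs1 : s = 1 := by omega
    subst hs1
    have e : 2 * N - 2 * t - 1 - 1 = 2 * (N - t - 2) + 2 := by omega
    have e' : 2 * N - 2 * (t + 1) = 2 * (N - t - 2) + 2 := by omega
    rw [e] at hone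
    rcases Nat.eq_zero_or_pos p with hp0 | hp0
    · subst hp0
      rcases Nat.eq_zero_or_pos q with hq0 | hq0
      · subst hq0
        rcases Nat.eq_zero_or_pos r with hr0 | hr0
        · subst hr0
          rw [e']
          exact hone
        · exfalso
          exact hf.not_allEven hone (by omega)
      · exfalso
        have hq1 : b + 4 - q = b + 3 := by omega
        rw [hq1, Nat.sub_zero] at hone
        rcases Nat.eq_zero_or_pos r with hr0 | hr0
        · subst hr0
          rw [Nat.sub_zero] at hone
          rcases Nat.lt_or_ge (t + 2) (A / 6) with h1 | h1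
          · exact row3a hf S H (by omega) (by omega) hone
          · exact wall3 hf S H hr (by omega) hone
        · have hr1 : r = 1 := by omega
          subst hr1
          have e1 : 2 * N + 1 - 1 = 2 * N := by omega
          rw [e1] at hone
          exact row3b hf S H (by omega) (by omega) hone
    · have hp1 : p = 1 := by omega
      subst hp1
      exfalso
      rcases Nat.eq_zero_or_pos q with hq0 | hq0
      · subst hq0
        rw [Nat.sub_zero, H.l4 _ _ (by omega) (by omega)] at hone
        exact odd_zero (by omega) (by omega) (by omega) (by omega) hone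
      · have hq1 : b + 4 - q = b + 3 := by omega
        rw [hq1] at hone
        exact H.z 3 _ _ (by omega) (by omega) (by omega) (by omega) (by omega) (by omega) hone

/-- THE TIP LEMMA of an isolated layer. -/
theorem tip_row (hf : Rule f) (S : Sd A b N K) (H : Hyp f A b N K)
    (hr : St f A (b + 4) (2 * N + 2)) (tip : f A (b + 4) (2 * N + 1) (2 * N)) :
    St f A (b + 4) (2 * N) := by
  obtain ⟨hA, h12, hb, hAb, hN, hK⟩ := id S
  refine St_of_half hf ?_
  intro x y hyx hx
  rcases Nat.lt_or_ge (2 * N + 2) x with hx2 | hx2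
  · exact hr x y (lt_of_lt_of_le hx2 (le_max_left _ _))
  have hline : ∀ v : ℕ, v % 2 = 0 → v ≤ 2 * N → 2 * N + 2 ≤ v + 2 * (A / 6) →
      f A (b + 4) (2 * N + 1) v := by
    intro v hv hv1 hv2
    have := travel hf S H hr tip ((2 * N - v) / 2) (by omega)
    have e : 2 * N - 2 * ((2 * N - v) / 2) = v := by omega
    rw [e] at this
    exact this
  -- the lower planes
  have hls : ∀ u v : ℕ, v ≤ u → 2 * N - 2 < u → 2 * (A / 6) + 1 ≤ u - v → LS f A (b + 4) u v := by
    intro u v huv hu hd' p q hp hq hpq hpa hqb
    rcases Nat.eq_zero_or_pos p with hp0 | hp0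
    · subst hp0
      have hq1 : q = 1 := by omega
      subst hq1
      exact ext3 hf S H (by omega) (by omega)
    · have hp1 : p = 1 := by omega
      subst hp1
      rcases Nat.eq_zero_or_pos q with hq0 | hq0
      · subst hq0
        exact H.l4 u v huv (by omega)
      · have hq1 : q = 1 := by omega
        subst hq1
        exact H.l3 u v (by omega) (by omega)
  have h3one : ∀ v : ℕ, 2 * N + 1 = v + (2 * (A / 6) + 3) → f A (b + 4) (2 * N + 1) v := by
    intro v hv
    refine one_loc hf (L := 2 * N - 2) (D := 2 * (A / 6) + 1) (by omega) (by omega) (by omega)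
      (by omega) (by omega) (by omega) hls ?_
    rw [hv, Fst_zone hA (by omega) (by omega) (by omega)]
    omega
  have z1 : ∀ v : ℕ, 2 * N + 1 = v + (2 * (A / 6) + 1) → ¬ f A (b + 4) (2 * N + 1) v := by
    intro v hv
    have h1 : f A (b + 3) (2 * N + 1) (v - 1) := by
      rw [ext3 hf S H (by omega) (by omega)]
      have e : 2 * N + 1 = (v - 1) + (2 * (A / 6) + 2) := by omega
      rw [e, Fst_zone hA (by omega) (by omega) (by omega)]
      omega
    exact kill hf h1 (by omega) (by omega) (by omega) (by omega) (by omega)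
  have z0 : ∀ v : ℕ, 2 * N + 1 = v + 2 * (A / 6) → ¬ f A (b + 4) (2 * N + 1) v := by
    intro v hv h'
    exact kill hf h' (a' := A) (b' := b + 4) (x' := 2 * N + 1) (y' := v + 1)
      (by omega) (by omega) (by omega) (by omega) (by omega)
      (hline (v + 1) (by omega) (by omega) (by omega))
  rcases Nat.lt_or_ge (x - y) (2 * (A / 6) + 4) with hd | hd
  swap
  · rcases Nat.lt_or_ge (A + b + 4 + y) x with hfar | hfar
    · rw [hf.far A (b + 4) x y (by omega), Fst_far (by omega) (by omega)]
    · exact QF_loc hf (L := 2 * N - 2) (D := 2 * (A / 6) + 1) (by omega) (by omega) hyx (by omega)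
        (by omega) (by omega) (by omega) hls
  have hx12 : x = 2 * N + 1 ∨ x = 2 * N + 2 := by omega
  obtain ⟨D, hD⟩ : ∃ D, x = y + D := ⟨x - y, by omega⟩
  have hFst := Fst_zone (a := A) (b := b + 4) (y := y) (D := D) hA (by omega) (by omega) (by omega)
  rw [← hD] at hFst
  rcases hx12 with hx1 | hx1
  · rcases Nat.lt_or_ge D (2 * (A / 6)) with hs | hs
    · rcases Nat.mod_two_eq_zero_or_one y with hy2 | hy2
      · refine iff_of_true ?_ ?_
        · rw [hx1]
          exact hline y hy2 (by omega) (by omega)
        · rw [hFst]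
          omega
      · refine iff_of_false ?_ ?_
        · rw [hx1]
          exact kill hf (hline (y - 1) (by omega) (by omega) (by omega)) (by omega) (by omega)
            (by omega) (by omega) (by omega)
        · rw [hFst]
          omega
    · have hDc : D = 2 * (A / 6) ∨ D = 2 * (A / 6) + 1 ∨ D = 2 * (A / 6) + 2 ∨
          D = 2 * (A / 6) + 3 := by omega
      rcases hDc with hDc | hDc | hDc | hDc
      · refine iff_of_false ?_ ?_
        · rw [hx1]
          exact z0 y (by omega)
        · rw [hFst]
          omega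
      · refine iff_of_false ?_ ?_
        · rw [hx1]
          exact z1 y (by omega)
        · rw [hFst]
          omega
      · refine iff_of_false ?_ ?_
        · rw [hx1]
          exact kill hf (h3one (y - 1) (by omega)) (by omega) (by omega)
            (by omega) (by omega) (by omega)
        · rw [hFst]
          omega
      · refine iff_of_true ?_ ?_
        · rw [hx1]
          exact h3one y (by omega)
        · rw [hFst]
          omega
  · rcases Nat.mod_two_eq_zero_or_one y with hy2 | hy2
    · refine iff_of_false ?_ ?_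
      · intro h'
        exact hf.not_allEven h' (by omega)
      · rw [hFst]
        omega
    · rcases Nat.lt_or_ge D (2 * (A / 6)) with hs | hs
      · refine iff_of_false ?_ ?_
        · exact kill hf (hline (y - 1) (by omega) (by omega) (by omega)) (by omega) (by omega)
            (by omega) (by omega) (by omega)
        · rw [hFst]
          omega
      · have hDc : D = 2 * (A / 6) + 1 ∨ D = 2 * (A / 6) + 3 := by omega
        rcases hDc with hDc | hDc
        · refine iff_of_true ?_ ?_
          · by_contra hno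
            obtain ⟨p, q, r, s, hp, hq, hr', hs', hsum, hpa, hqb, hrx, hsy, hone⟩ :=
              hf.exists_pred (by omega) hno
            rcases Nat.eq_zero_or_pos p with hp0 | hp0
            · subst hp0
              rcases Nat.eq_zero_or_pos q with hq0 | hq0
              · subst hq0
                simp only [Nat.sub_zero] at hone
                have hrs : (r = 0 ∧ s = 1) ∨ (r = 1 ∧ s = 0) ∨ (r = 1 ∧ s = 1) := by omega
                rcases hrs with ⟨rfl, rfl⟩ | ⟨rfl, rfl⟩ | ⟨rfl, rfl⟩
                · exact hf.not_allEven hone (by omega)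
                · have e : x - 1 = 2 * N + 1 := by omega
                  rw [e] at hone
                  exact z0 _ (by omega) hone
                · have e : x - 1 = 2 * N + 1 := by omega
                  rw [e] at hone
                  exact z1 _ (by omega) hone
              · have hq1 : q = 1 := by omega
                subst hq1
                have e3 : b + 4 - 1 = b + 3 := by omega
                rw [e3, Nat.sub_zero] at hone
                rcases Nat.lt_or_ge (y - s + 2 * (A / 6)) (x - r) with h5 | h5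
                · rw [ext3 hf S H (by omega) (by omega)] at hone
                  obtain ⟨D', hD'⟩ : ∃ D', x - r = (y - s) + D' := ⟨x - r - (y - s), by omega⟩
                  rw [hD', Fst_zone hA (by omega) (by omega) (by omega)] at hone
                  omega
                · -- the cell `(2 N + 1, y)` is below the last cell of the tip column
                  have hr1 : r = 1 := by omega
                  have hs0 : s = 0 := by omega
                  subst hr1
                  subst hs0
                  exact kill hf hone (a' := A) (b' := b + 4) (x' := 2 * N + 1) (y' := y + 1)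
                    (by omega) (by omega) (by omega) (by omega) (by omega)
                    (hline (y + 1) (by omega) (by omega) (by omega))
            · have hp1 : p = 1 := by omega
              subst hp1
              rcases Nat.eq_zero_or_pos q with hq0 | hq0
              · subst hq0
                rw [Nat.sub_zero, H.l4 _ _ (by omega) (by omega)] at hone
                exact odd_zero (by omega) (by omega) (by omega) (by omega) hone
              · have hq1 : b + 4 - q = b + 3 := by omega
                rw [hq1] at hone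
                exact H.z 3 _ _ (by omega) (by omega) (by omega) (by omega) (by omega) (by omega)
                  hone
          · rw [hFst]
            omega
        · refine iff_of_false ?_ ?_
          · have := h3one (y - 1) (by omega)
            exact kill hf this (by omega) (by omega) (by omega) (by omega) (by omega)
          · rw [hFst]
            omega

/-- The hypotheses on the previous cycle. -/
theorem Hyp.of_cyc {K' : ℕ} (h12 : 12 ≤ A) (C : Cyc f A b K') (hK : K' + 10 ≤ 2 * N)
    (l2 : ∀ x y : ℕ, y + 2 * (A / 6) ≤ x → 2 * N < x + 6 →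
      (f (A - 1) (b + 2) x y ↔ Fst (A - 1) (b + 2) x y))
    (l3 : ∀ x y : ℕ, y + 2 * (A / 6) ≤ x → 2 * N < x + 6 →
      (f (A - 1) (b + 3) x y ↔ Fst (A - 1) (b + 3) x y))
    (l4 : ∀ x y : ℕ, y ≤ x → 2 * N < x + 2 → (f (A - 1) (b + 4) x y ↔ Fst (A - 1) (b + 4) x y))
    (z : ∀ i x y : ℕ, 1 ≤ i → i ≤ 3 → y ≤ x → x ≤ y + 2 * (A / 6) + 2 → 2 * N < x + 3 →
      x ≤ 2 * N + 3 → ¬ f (A - 1) (b + i) x y)
    (u : ∀ i x y : ℕ, 1 ≤ i → i ≤ 2 → y ≤ x → x ≤ y + 2 * (A / 6) + 1 → 2 * N < x + 2 →
      x ≤ 2 * N + 2 → ¬ f (A + 1) (b + i) x y) : Hyp f A b N (K' + 1) where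
  x2 := by
    intro x y hd hx
    refine C.r2x x y ?_ ?_
    · rw [max_eq_left (by omega), min_eq_right (by omega)]
      exact hd
    · rw [max_eq_left (by omega)]
      omega
  c1 := by
    intro x y hyx hd hx
    refine C.r1s (by omega) x y ?_ ?_
    · rw [max_eq_left hyx, min_eq_right hyx]
      exact hd
    · rw [max_eq_left hyx]
      omega
  c2 := by
    intro x y hyx hd hx
    refine C.r2s x y ?_ ?_
    · rw [max_eq_left hyx, min_eq_right hyx]
      exact hd
    · rw [min_eq_right hyx]
      omega
  l2 := l2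
  l3 := l3
  l4 := l4
  z := z
  u := u

end IsoL

/-- What the four rows of a cycle need of the odd layer below. -/
structure Odd3 (f : ℕ → ℕ → ℕ → ℕ → Prop) (a b K : ℕ) : Prop where
  q0 : St f (a - 1) b K
  q1 : St f (a - 1) (b + 1) K
  q2 : St f (a - 1) (b + 2) (K + 2)
  q2s : ∀ x y : ℕ, max x y ≤ min x y + 2 * (a / 6) → K + 1 < max x y →
    (f (a - 1) (b + 2) x y ↔ Fst (a - 1) (b + 2) x y)
  q3 : St f (a - 1) (b + 3) (K + cc a)
  q3d : ∀ x y : ℕ, max x y ≤ min x y + 1 → K + 2 < min x y →
    (f (a - 1) (b + 3) x y ↔ Fst (a - 1) (b + 3) x y)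

/-- The four rows of a cycle from its IN row. -/
theorem cy3_w {f : ℕ → ℕ → ℕ → ℕ → Prop} (hf : Rule f) {a b K : ℕ} (hab : a + 4 ≤ b)
    (ha : a % 2 = 0) (h6 : 6 ≤ a) (h4 : (a + b) % 4 = 2) (hK : a + b + 10 ≤ K) (hK2 : K % 2 = 0)
    (h0 : St f a b K) (Q : Odd3 f a b K) : Cy3 f a b K := by
  obtain ⟨hc2, hc4, hch⟩ := cc_facts a
  have hl : ∀ i L : ℕ, St f a (b + i) L → St f (a - 1) (b + i + 1) L →
      St f (a - 1) (b + i) L → LSK f a (b + i + 1) L := by
    intro i L h h' h'' x y hxy p q hp hq hpq hpa hqb
    rcases Nat.eq_zero_or_pos p with hp0 | hp0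
    · subst hp0
      have hq1 : q = 1 := by omega
      subst hq1
      exact h x y hxy
    · have hp1 : p = 1 := by omega
      subst hp1
      rcases Nat.eq_zero_or_pos q with hq0 | hq0
      · subst hq0
        exact h' x y hxy
      · have hq1 : q = 1 := by omega
        subst hq1
        exact h'' x y hxy
  have hl1 : LSK f a (b + 1) K := hl 0 K h0 Q.q1 Q.q0
  have r1 : St f a (b + 1) (K + 2) :=
    QF_even_flat hf (by omega) (by omega) hK2 hl1 (Or.inr (by omega))
  have r1s : 6 ≤ a → ∀ x y : ℕ, max x y ≤ min x y + 2 * (a / 6) → K + 1 < max x y →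
      (f a (b + 1) x y ↔ Fst a (b + 1) x y) := by
    intro h6 x y h1 h2
    refine all_of_half hf (P := fun x y => x ≤ y + 2 * (a / 6) ∧ K + 1 < x) ?_ x y ⟨h1, h2⟩
    intro x y hyx hP
    exact S1 hf (by omega) ha (by omega) (by omega) h6 (by omega) hK2 hl1 hyx hP.1 hP.2
  have hl2 : LSK f a (b + 2) (K + 2) := hl 1 (K + 2) r1 Q.q2 (Q.q1.mono (by omega))
  have r2x : ∀ x y : ℕ, min x y + 2 * (a / 6) ≤ max x y → K + 4 < max x y →
      (f a (b + 2) x y ↔ Fst a (b + 2) x y) := by
    intro x y h1 h2
    refine all_of_half hf (P := fun x y => y + 2 * (a / 6) ≤ x ∧ K + 4 < x) ?_ x y ⟨h1, h2⟩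
    intro x y hyx hP
    exact QF_even hf (by omega) (by omega) (by omega) hl2 hyx (by omega) (Or.inl (by omega))
  have r2s : ∀ x y : ℕ, max x y + 1 ≤ min x y + 2 * (a / 6) → K + 1 < min x y →
      (f a (b + 2) x y ↔ Fst a (b + 2) x y) := by
    intro x y h1 h2
    refine all_of_half hf (P := fun x y => x + 1 ≤ y + 2 * (a / 6) ∧ K + 1 < y) ?_ x y ⟨h1, h2⟩
    intro x y hyx hP
    refine S2 hf (by omega) ha (by omega) h6 (by omega) (by omega) hK2 ?_ hyx hP.1 hP.2
    intro u v huv1 huv2 p q hp hq hpq hpa hqb
    rcases Nat.eq_zero_or_pos p with hp0 | hp0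
    · subst hp0
      have hq1 : q = 1 := by omega
      subst hq1
      exact r1s h6 u v huv1 huv2
    · have hp1 : p = 1 := by omega
      subst hp1
      rcases Nat.eq_zero_or_pos q with hq0 | hq0
      · subst hq0
        exact Q.q2s u v huv1 huv2
      · have hq1 : q = 1 := by omega
        subst hq1
        exact Q.q1 u v (by omega)
  have r2 : St f a (b + 2) (K + cc a) := by
    intro x y hxy
    rcases Nat.lt_or_ge (max x y) (min x y + 2 * (a / 6)) with h1 | h1
    · exact r2s x y (by omega) (by omega)
    · exact r2x x y h1 (by omega)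
  have hl3 : LSK f a (b + 3) (K + cc a) := hl 2 (K + cc a) r2 Q.q3 (Q.q2.mono (by omega))
  have r3 : St f a (b + 3) (K + cc a + 2) :=
    QF_even_flat hf (by omega) (by omega) (by omega) hl3 (Or.inr (by omega))
  have r3s : ∀ x y : ℕ, max x y + 1 ≤ min x y + 2 * (a / 6) → K + 3 < min x y →
      (f a (b + 3) x y ↔ Fst a (b + 3) x y) := by
    intro x y h1 h2
    refine all_of_half hf (P := fun x y => x + 1 ≤ y + 2 * (a / 6) ∧ K + 3 < y) ?_ x y ⟨h1, h2⟩
    intro x y hyx hP
    refine S3w hf (by omega) ha (by omega) h6 (by omega) (by omega) hK2 ?_ r2s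
      hyx hP.1 hP.2
    intro u v q huv1 huv2 hq
    rcases Nat.eq_zero_or_pos q with hq0 | hq0
    · subst hq0
      exact Q.q3d u v huv1 huv2
    · have hq1 : q = 1 := by omega
      subst hq1
      exact Q.q2 u v (by omega)
  exact ⟨h0, r1, r1s, r2, r2x, r2s, r3, r3s⟩

/-- LOCATION of an isolated layer: the front of the IN row `b + 4` goes down by one. -/
theorem loc_iso {f : ℕ → ℕ → ℕ → ℕ → Prop} (hf : Rule f) {A b N K : ℕ} (S : IsoL.Sd A b N K)
    (H : IsoL.Hyp f A b N K) (hr : St f A (b + 4) (2 * N + 2)) (Q : Odd3 f A (b + 4) (2 * N))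
    (tip : f A (b + 4) (2 * N + 1) (2 * N)) : Cy3 f A (b + 4) (2 * N) :=
  cy3_w hf (by have := S.hAb; omega) S.hA (by have := S.h12; omega)
    (by have := S.hb; omega) (by have := S.hN; omega) (by omega) (IsoL.tip_row hf S H hr tip) Q

end Pool.Agent.SNT
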