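import Pool.Agent.SNT.D1Ind
import Pool.Agent.SNT.IsoLoc
import Pool.Agent.SNT.NHZone2

set_option autoImplicit false

/-! The improved lead of the layer `6 k`: LOCATION. In the IN row `c - 6 = b + 16` (`c = b + 22` is the IN row of
`6 k + 10`, `n` its lead) the front goes down by one if the tip is present. -/

namespace Pool.Agent.SNT.D1

open Pool.Agent.SNT Pool.Agent.SNT.LocZ Pool.Agent.SNT.TipI

variable {f : ℕ → ℕ → ℕ → ℕ → Prop} {k b m e8 e10 : ℕ}

/-- `P_(6k+1)` is zero in the two rows between the IN rows `b + 12` of `6 k` and `b + 14` of `6 k + 2`. -/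
theorem u0 (hf : Rule f) (hs : Side k b m) (S : Stack6 f k b m 0 0 0 0 e8 e10) {i x y : ℕ} (hi : 1 ≤ i) (hi2 : i ≤ 2)
    (hyx : y ≤ x) (hd : x ≤ y + 2 * k + 1) (hx : 2 * (m + 3 + (k + 2) * 4) ≤ x + 1) : ¬ f (6 * k + 1) (b + 12 + i) x y := by
  obtain ⟨hk, hb, h4, hb2, hm⟩ := id hs
  have hz : ∀ q r s : ℕ, q ≤ 1 → r ≤ 1 → s ≤ 1 → ¬ f (6 * k - 1) (b + 12 + i - q) (x - r) (y - s) := by
    intro q r s hq hr hs1
    rcases Nat.le_total (y - s) (x - r) with h | h
    · exact NHZ.lw_zero hs S (i := 12 + i - q) (by omega) (by omega) (by omega) h (by omega)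
    · have h1 := NHZ.lw_zero hs S (i := 12 + i - q) (R := b + 12 + i - q) (x := y - s) (y := x - r)
        (by omega) (by omega) (by omega) h (by omega)
      rwa [hf.swap_xy] at h1
  by_cases hE : (b + 12 + i) % 2 = 0 ∧ x % 2 = 0 ∧ y % 2 = 0
  swap
  · exact eonly hf (A := 6 * k) (by omega) hE hz
  have hi' : i = 2 := by omega
  subst hi'
  intro h
  have C := S.l2 3
  have hA : (6 * k + 2) / 6 = k := by omega
  rcases Nat.lt_or_ge (x + 1) (y + 2 * k) with h1 | h1
  · -- the cell `(x + 1, y)` of the IN row of `6 k + 2`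
    have h2 : f (6 * k + 2) (b + 2 + 4 * 3) (x + 1) y := by
      rw [C.r0 _ _ (by rw [max_eq_left (by omega)]; omega), fst_two (by omega) (by omega) (by omega) (by omega), hA]
      omega
    exact kill hf h (by omega) (by omega) (by omega) (by omega) (by omega) h2
  · -- the cell `(x + 1, y + 1)` of the next row
    have h2 : f (6 * k + 2) (b + 2 + 4 * 3 + 1) (x + 1) (y + 1) := by
      rw [C.r1 _ _ (by rw [max_eq_left (by omega)]; omega),
        fst_three (by omega) (by omega) (by omega) (by omega) (by omega), hA]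
      omega
    exact kill hf h (by omega) (by omega) (by omega) (by omega) (by omega) h2

/-- **LOCATION of `6 k` in the row `c - 6`**: from the tip. -/
theorem loc0 (hf : Rule f) (hs : Side k b m) (S : Stack6 f k b m 0 0 0 0 e8 e10) {N K' : ℕ}
    (hN : m + 3 + (k + 2) * 4 ≤ N) (C : Cyc f (6 * k) (b + 12) K') (hK : K' + 10 ≤ 2 * N)
    (hr : St f (6 * k) (b + 16) (2 * N + 2)) (tip : f (6 * k) (b + 16) (2 * N + 1) (2 * N)) :
    Cyc f (6 * k) (b + 16) (2 * N) := by
  obtain ⟨hk, hb, h4, hb2, hm⟩ := id hs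
  have hA : 6 * k / 6 = k := by omega
  have lw : ∀ i R L : ℕ, i ≤ 100 → R = b + i → 2 * m ≤ L → St f (6 * k - 1) R L := by
    intro i R L hi hR hL
    subst hR
    exact (S.lw i hi).mono (by omega)
  have hlw : ∀ i R x y : ℕ, i ≤ 100 → R = b + i → 2 * m < x → y ≤ x → (f (6 * k - 1) R x y ↔ Fst (6 * k - 1) R x y) := by
    intro i R x y hi hR hx hyx
    exact lw i R (2 * m) hi hR le_rfl x y (by rw [max_eq_left hyx]; exact hx)
  have H : IsoL.Hyp f (6 * k) (b + 12) N (K' + 1) := by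
    refine IsoL.Hyp.of_cyc (by omega) C hK ?_ ?_ ?_ ?_ ?_
    · intro x y h1 h2
      exact hlw 14 _ x y (by omega) (by omega) (by omega) (by omega)
    · intro x y h1 h2
      exact hlw 15 _ x y (by omega) (by omega) (by omega) (by omega)
    · intro x y h1 h2
      exact hlw 16 _ x y (by omega) (by omega) (by omega) (by omega)
    · intro i x y hi hi3 hyx hd hx1 hx2
      rw [hA] at hd
      exact NHZ.lw_zero hs S (i := 12 + i) (by omega) (by omega) (by omega) hyx (by omega)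
    · intro i x y hi hi2 hyx hd hx1 hx2
      rw [hA] at hd
      exact u0 hf hs S hi hi2 hyx (by omega) (by omega)
  have h0 : St f (6 * k) (b + 16) (2 * N) := by
    have := IsoL.tip_row hf (A := 6 * k) (b := b + 12) (N := N) (K := K' + 1)
      ⟨by omega, by omega, by omega, by omega, by omega, by omega⟩ H hr tip
    exact this
  refine cycle hf (by omega) (by omega) (by omega) (by omega) (by omega) (by omega) h0 ?_
  intro i hi _
  exact lw (16 + i) _ _ (by omega) (by omega) (by omega)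

/-- **LOCATION in the cycle `0`**, from the nominal cycle before; `1 ≤ t`. -/
theorem loc_c0 (hf : Rule f) {t : ℕ} (S : StackA f k b m 0 0 0 0 e8 e10) (ht : 1 ≤ t)
    (Q : Q0 f k b m 0 (t + 1))
    (tip : f (6 * k) (b + 16) (2 * (nn k m 0 + t - 7) + 3) (2 * (nn k m 0 + t - 7) + 2)) :
    Cyc f (6 * k) (b + 16) (2 * (nn k m 0 + t - 7) + 2) := by
  obtain ⟨hk, hb, h4, hb2, hm⟩ := id S.side
  have hn : nn k m 0 = m + 9 + (k + 2) * 4 := by unfold nn; ring
  rw [hn] at tip ⊢
  have h0 := Q 0 le_rfl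
  rw [hn] at h0
  exact cyc_of_eq (loc0 hf S.side S.stack (N := m + 9 + (k + 2) * 4 + t - 6) (by omega) (S.stack.l0 3) (by omega)
    (by
      have := h0.r0
      rw [show 2 * (m + 9 + (k + 2) * 4 + t - 6) + 2 = 2 * (m + 9 + (k + 2) * 4 + (t + 1) - 7) + 2 by omega]
      exact this)
    (by rw [show 2 * (m + 9 + (k + 2) * 4 + t - 6) = 2 * (m + 9 + (k + 2) * 4 + t - 7) + 2 by omega]; exact tip))
    rfl (by omega)

/-- **LOCATION in the cycle `1`**: the steps `s0` (`2 ≤ t`), `s0a` (`t = 1`), `s0b` (`t = 0`) of `D1.Steps` from the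
tip `(2 l + 3, 2 l + 2)`, `l = nn k m 1 + t - 7` the new lead. -/
theorem loc_c1 (hf : Rule f) {t : ℕ} (S : StackA f k b m 0 0 0 0 e8 e10) (Q : Q0 f k b m 0 (t + 1))
    (tip : f (6 * k) (b + 4 * 1 + 16) (2 * (nn k m 1 + t - 7) + 3) (2 * (nn k m 1 + t - 7) + 2)) :
    Cyc f (6 * k) (b + 4 * 1 + 16) (2 * (nn k m 1 + t - 7) + 2) := by
  have S1 := S.shift 1
  obtain ⟨hk, hb, h4, hb2, hm⟩ := id S1.side
  obtain ⟨-, -, -, hb2', hm'⟩ := id S.side
  have h0 := Q 0 le_rfl
  have h1 := Q 1 (by omega)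
  have hn : nn k m 1 = m + (k + 2) * 1 + 9 + (k + 2) * 4 := by unfold nn; ring
  have hn0 : nn k m 0 = m + 9 + (k + 2) * 4 := by unfold nn; ring
  rw [hn] at tip h1 ⊢
  rw [hn0] at h0
  have h0' : Cyc f (6 * k) (b + 4 * 1 + 12) (2 * (m + 9 + (k + 2) * 4 + (t + 1) - 7) + 2) := cyc_of_eq h0 (by omega) rfl
  exact cyc_of_eq (loc0 hf S1.side S1.stack (N := m + (k + 2) * 1 + 9 + (k + 2) * 4 + t - 6) (by omega) h0' (by omega)
    (by
      have := h1.r0
      rw [show 2 * (m + (k + 2) * 1 + 9 + (k + 2) * 4 + t - 6) + 2 = 2 * (m + (k + 2) * 1 + 9 + (k + 2) * 4 + (t + 1) - 7) + 2 by omega]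
      exact this)
    (by
      rw [show 2 * (m + (k + 2) * 1 + 9 + (k + 2) * 4 + t - 6) = 2 * (m + (k + 2) * 1 + 9 + (k + 2) * 4 + t - 7) + 2 by omega]
      exact tip))
    rfl (by omega)

end Pool.Agent.SNT.D1
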