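import Pool.Agent.SNT.D1T0
import Pool.Agent.SNT.D1L0L

set_option autoImplicit false

/-! The deep leads of the layer `6 k`: `n - 7 - u`, `u + 1 ≤ k`, from the zeros of the columns of `P_(6k+1)`
(`PCol`).  Strict birth and location for an arbitrary lead `N` of `6 k`; the cycle before is given explicitly. -/

namespace Pool.Agent.SNT.D1

open Pool.Agent.SNT Pool.Agent.SNT.LocZ Pool.Agent.SNT.TipI

variable {f : ℕ → ℕ → ℕ → ℕ → Prop} {k b m e8 e10 : ℕ}

/-- **A missing tip of `6 k` in the cycle `0` gives a cell of `6 k + 1` in the OUT row of the cycle `3`**, for every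
lead `N ≥ m + 1`; the cycle before has the lead `K'`. -/
theorem birth0L (hf : Rule f) {N K' : ℕ} (S : StackA f k b m 0 0 0 0 e8 e10) (hN : m + 1 ≤ N)
    (Cp : Cyc f (6 * k) (b + 12) K') (hK : K' + 6 ≤ 2 * N)
    (C : ∀ j : ℕ, Cyc f (6 * k) (b + 4 * j + 16) (2 * (N + (k + 2) * j) + 2))
    (ht : ¬ f (6 * k) (b + 16) (2 * N + 1) (2 * N)) :
    ∃ j : ℕ, N + 2 * k + 8 ≤ j ∧ j ≤ N + 3 * k + 6 ∧
      f (6 * k + 1) (b + 30) (2 * (N + 3 * k + 6) + 4) (2 * j + 2) := by
  have hs := S.side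
  have T := S.stack
  obtain ⟨hk, hb2, hb4, hbl, hm⟩ := S.side
  have hdiv : 6 * k / 6 = k := by omega
  have C0 := C 0
  have C1 := C 1
  have C2 := C 2
  have C3 := C 3
  rw [show b + 4 * 0 + 16 = b + 16 by omega, show N + (k + 2) * 0 = N by omega] at C0
  rw [show b + 4 * 1 + 16 = b + 20 by omega, show N + (k + 2) * 1 = N + (k + 2) by omega] at C1
  rw [show b + 4 * 2 + 16 = b + 24 by omega, show N + (k + 2) * 2 = N + (k + 2) + (k + 2) by omega] at C2
  rw [show b + 4 * 3 + 16 = b + 28 by omega,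
    show N + (k + 2) * 3 = N + (k + 2) + (k + 2) + (k + 2) by omega] at C3
  have t1 := D1T.next0 hf hs T.lw (r := 16) (N := N) (by omega) (by omega) (by omega) (by omega) C0
    (by rw [show b + 16 - 4 = b + 12 by omega]; exact Cp) (by omega) ht
  have t2 := D1T.next0 hf hs T.lw (r := 20) (N := N + (k + 2)) (by omega) (by omega) (by omega)
    (by omega) C1 (by rw [show b + 20 - 4 = b + 16 by omega]; exact C0) (by omega) t1
  have t3 := D1T.next0 hf hs T.lw (r := 24) (N := N + (k + 2) + (k + 2)) (by omega) (by omega)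
    (by omega) (by omega) C2 (by rw [show b + 24 - 4 = b + 20 by omega]; exact C1) (by omega) t2
  have P : ∀ r M : ℕ, r ≤ 30 → r % 4 = 0 → m ≤ M → Cyc f (6 * k) (b + r) (2 * M + 2) →
      ¬ f (6 * k) (b + r) (2 * M + 1) (2 * M) → FPer f (6 * k) (b + r) M := by
    intro r M hr hr4 hM CC t
    refine R0.fper_of_cyc hf (by omega) (by omega) (by omega) (by omega) CC t ?_
    intro q x y h1 h2 h3 h4
    rw [hdiv] at h3 h4
    rw [show b + r + q = b + (r + q) by omega]
    exact R0.low_zero hs T.lw (by omega) h2 (by omega) (by omega)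
  have P0 := P 16 N (by omega) (by omega) (by omega) C0 ht
  have P1 := P 20 _ (by omega) (by omega) (by omega) C1 t1
  have P2 := P 24 _ (by omega) (by omega) (by omega) C2 t2
  have P3 := P 28 _ (by omega) (by omega) (by omega) C3 t3
  obtain ⟨j, hj1, hj2, hj⟩ := strict_birth_of_per hf (A := 6 * k) (b := b + 16) (n := N)
    (by omega) (by omega) (by omega) (by omega) (by omega) P0
    (by rw [show N + 6 * k / 6 + 2 = N + (k + 2) by omega]; exact P1)
    (by rw [show N + 2 * (6 * k / 6) + 4 = N + (k + 2) + (k + 2) by omega]; exact P2)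
    (by rw [show N + 3 * (6 * k / 6) + 6 = N + (k + 2) + (k + 2) + (k + 2) by omega]; exact P3)
  rw [hdiv] at hj1 hj2 hj
  exact ⟨j, hj1, hj2, hj⟩

/-- `P_(6k+1)` is zero in the two rows between the IN rows `b + 12` of `6 k` and `b + 14` of `6 k + 2`, right of the
lead `K2` of `6 k + 2`. -/
theorem u0L (hf : Rule f) (hs : Side k b m) (S : Stack6 f k b m 0 0 0 0 e8 e10) {K2 : ℕ}
    (C : Cyc f (6 * k + 2) (b + 14) K2) {i x y : ℕ} (hi : 1 ≤ i) (hi2 : i ≤ 2)
    (hyx : y ≤ x) (hd : x ≤ y + 2 * k + 1) (hm' : 2 * m + 2 ≤ x) (hx : K2 + 1 ≤ x) (hK2 : K2 % 2 = 0) :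
    ¬ f (6 * k + 1) (b + 12 + i) x y := by
  obtain ⟨hk, hb, h4, hb2, hm⟩ := id hs
  have hz : ∀ q r s : ℕ, q ≤ 1 → r ≤ 1 → s ≤ 1 → ¬ f (6 * k - 1) (b + 12 + i - q) (x - r) (y - s) := by
    intro q r s hq hr hs1
    rcases Nat.le_total (y - s) (x - r) with h | h
    · exact NHZ.lw_zero hs S (i := 12 + i - q) (by omega) (by omega) (by omega) h (by omega)
    · have h1 := NHZ.lw_zero hs S (i := 12 + i - q) (R := b + 12 + i - q) (x := y - s) (y := x - r)
        (by omega) (by omega) (by omega) h (by omega)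
      rwa [hf.swap_xy] at h1
  by_cases hE : (b + 12 + i) % 2 = 0 ∧ x % 2 = 0 ∧ y % 2 = 0
  swap
  · exact eonly hf (A := 6 * k) (by omega) hE hz
  have hi' : i = 2 := by omega
  subst hi'
  intro h
  have hA : (6 * k + 2) / 6 = k := by omega
  rcases Nat.lt_or_ge (x + 1) (y + 2 * k) with h1 | h1
  · -- the cell `(x + 1, y)` of the IN row of `6 k + 2`
    have h2 : f (6 * k + 2) (b + 14) (x + 1) y := by
      rw [C.r0 _ _ (by rw [max_eq_left (by omega)]; omega), fst_two (by omega) (by omega) (by omega) (by omega), hA]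
      omega
    exact kill hf h (by omega) (by omega) (by omega) (by omega) (by omega) h2
  · -- the cell `(x + 1, y + 1)` of the next row
    have h2 : f (6 * k + 2) (b + 14 + 1) (x + 1) (y + 1) := by
      rw [C.r1 _ _ (by rw [max_eq_left (by omega)]; omega),
        fst_three (by omega) (by omega) (by omega) (by omega) (by omega), hA]
      omega
    exact kill hf h (by omega) (by omega) (by omega) (by omega) (by omega) h2

/-- **LOCATION of `6 k` in the row `c - 6`**: from the tip, for every lead. -/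
theorem loc0L (hf : Rule f) (hs : Side k b m) (S : Stack6 f k b m 0 0 0 0 e8 e10) {N K' K2 : ℕ}
    (hN : m + 4 ≤ N) (C : Cyc f (6 * k) (b + 12) K') (hK : K' + 10 ≤ 2 * N)
    (C2 : Cyc f (6 * k + 2) (b + 14) K2) (hK2 : K2 % 2 = 0) (hK2' : K2 + 2 ≤ 2 * N)
    (hr : St f (6 * k) (b + 16) (2 * N + 2)) (tip : f (6 * k) (b + 16) (2 * N + 1) (2 * N)) :
    Cyc f (6 * k) (b + 16) (2 * N) := by
  obtain ⟨hk, hb, h4, hb2, hm⟩ := id hs
  have hA : 6 * k / 6 = k := by omega
  have lw : ∀ i R L : ℕ, i ≤ 100 → R = b + i → 2 * m ≤ L → St f (6 * k - 1) R L := by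
    intro i R L hi hR hL
    subst hR
    exact (S.lw i hi).mono (by omega)
  have hlw : ∀ i R x y : ℕ, i ≤ 100 → R = b + i → 2 * m < x → y ≤ x → (f (6 * k - 1) R x y ↔ Fst (6 * k - 1) R x y) := by
    intro i R x y hi hR hx hyx
    exact lw i R (2 * m) hi hR le_rfl x y (by rw [max_eq_left hyx]; exact hx)
  have H : IsoL.Hyp f (6 * k) (b + 12) N (K' + 1) := by
    refine IsoL.Hyp.of_cyc (by omega) C hK ?_ ?_ ?_ ?_ ?_
    · intro x y h1 h2
      exact hlw 14 _ x y (by omega) (by omega) (by omega) (by omega)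
    · intro x y h1 h2
      exact hlw 15 _ x y (by omega) (by omega) (by omega) (by omega)
    · intro x y h1 h2
      exact hlw 16 _ x y (by omega) (by omega) (by omega) (by omega)
    · intro i x y hi hi3 hyx hd hx1 hx2
      rw [hA] at hd
      exact NHZ.lw_zero hs S (i := 12 + i) (by omega) (by omega) (by omega) hyx (by omega)
    · intro i x y hi hi2 hyx hd hx1 hx2
      rw [hA] at hd
      exact u0L hf hs S C2 hi hi2 hyx (by omega) (by omega) (by omega) hK2
  have h0 : St f (6 * k) (b + 16) (2 * N) := by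
    have := IsoL.tip_row hf (A := 6 * k) (b := b + 12) (N := N) (K := K' + 1)
      ⟨by omega, by omega, by omega, by omega, by omega, by omega⟩ H hr tip
    exact this
  refine cycle hf (by omega) (by omega) (by omega) (by omega) (by omega) (by omega) h0 ?_
  intro i hi _
  exact lw (16 + i) _ _ (by omega) (by omega) (by omega)

/-- `6 k` has the lead `n - 7 - u` in all cycles `j ≥ J` -/
def QD (f : ℕ → ℕ → ℕ → ℕ → Prop) (k b m J u : ℕ) : Prop :=
  ∀ j : ℕ, J ≤ j → Cyc f (6 * k) (b + 4 * j + 16) (2 * (nn k m j - 7 - u) + 2)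

theorem QD.shift {J u : ℕ} (Q : QD f k b m J u) (i : ℕ) :
    QD f k (b + 4 * i) (m + (k + 2) * i) (J - i) u := by
  intro j hj
  have h := Q (i + j) (by omega)
  rw [nn_shift]
  rwa [show b + 4 * i + 4 * j + 16 = b + 4 * (i + j) + 16 by ring]

theorem QD.mono {J J' u : ℕ} (Q : QD f k b m J u) (h : J ≤ J') : QD f k b m J' u :=
  fun j hj => Q j (by omega)

theorem QD.at {J u : ℕ} (Q : QD f k b m J u) {i : ℕ} (hi : J ≤ i) :
    QD f k (b + 4 * i) (m + (k + 2) * i) 0 u := by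
  have h := Q.shift i
  rwa [show J - i = 0 by omega] at h

theorem upD {J u : ℕ}
    (h : ∀ i : ℕ, J ≤ i → Cyc f (6 * k) (b + 4 * i + 4 * 1 + 16)
      (2 * (nn k (m + (k + 2) * i) 1 - 7 - u) + 2)) : QD f k b m (J + 1) u := by
  intro j hj
  obtain ⟨i, rfl⟩ : ∃ i, j = i + 1 := ⟨j - 1, by omega⟩
  have := h i (by omega)
  rw [nn_shift] at this
  exact cyc_of_eq this (by omega) rfl

/-- **One deep step**: `6 k` from `n - 7 - u` to `n - 8 - u`, in the cycle `1`, from the zeros of the column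
`2 n - 10 - 2 u` of `P_(6k+1)` in the row `c - 4` of the cycle `4`. -/
theorem stepD (hf : Rule f) {u : ℕ} (hu : u + 2 ≤ k) (S : StackA f k b m 0 0 0 0 e8 e10) (q : QD f k b m 0 u)
    (q2 : Q2 f k b m 0 0)
    (P : ∀ x y : ℕ, x + 10 + 2 * u = 2 * nn k m 4 → y % 2 = 0 → y + 2 ≤ x → x + 2 ≤ y + 2 * k →
      ¬ f (6 * k + 1) (b + 4 * 4 + 18) x y) :
    Cyc f (6 * k) (b + 4 * 1 + 16) (2 * (nn k m 1 - 7 - (u + 1)) + 2) := by
  have S1 := S.shift 1
  obtain ⟨hk, hb, h4, hb2, hm⟩ := id S.side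
  have hn0 : nn k m 0 = m + 9 + (k + 2) * 4 := by unfold nn; ring
  have hn1 : nn k m 1 = m + (k + 2) * 1 + 9 + (k + 2) * 4 := by unfold nn; ring
  have hn4 : nn k m 4 = m + (k + 2) * 4 + 9 + (k + 2) * 4 := by unfold nn; ring
  obtain ⟨N, hN⟩ : ∃ N, N = nn k m 1 - 7 - u := ⟨_, rfl⟩
  have hC0 : Cyc f (6 * k) (b + 4 * 1 + 12) (2 * (nn k m 0 - 7 - u) + 2) := cyc_of_eq (q 0 le_rfl) (by omega) rfl
  have C : ∀ j : ℕ, Cyc f (6 * k) (b + 4 * 1 + 4 * j + 16) (2 * (N + (k + 2) * j) + 2) := by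
    intro j
    have h := q (1 + j) (by omega)
    have e : nn k m (1 + j) = nn k m 1 + (k + 2) * j := by
      unfold nn
      ring
    exact cyc_of_eq h (by omega) (by rw [e]; omega)
  have tip : f (6 * k) (b + 4 * 1 + 16) (2 * (N - 1) + 3) (2 * (N - 1) + 2) := by
    by_contra ht
    obtain ⟨j, h1, h2, h3⟩ := birth0L hf S1 (N := N) (by omega) hC0 (by omega) C (by
      rw [show 2 * N + 1 = 2 * (N - 1) + 3 by omega, show 2 * N = 2 * (N - 1) + 2 by omega]
      exact ht)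
    refine P (2 * (N + 3 * k + 6) + 4) (2 * j + 2) (by omega) (by omega) (by omega) (by omega) ?_
    rw [show b + 4 * 4 + 18 = b + 4 * 1 + 30 by omega]
    exact h3
  have hC2 : Cyc f (6 * k + 2) (b + 4 * 1 + 14) (2 * (nn k m 0 - 5) + 2) := cyc_of_eq (q2 0 le_rfl) (by omega) (by omega)
  refine cyc_of_eq (loc0L hf S1.side S1.stack (N := N) (by omega) hC0 (by omega) hC2 (by omega) (by omega) ?_ ?_)
    rfl (by omega)
  · have := (C 0).r0
    rw [show b + 4 * 1 + 4 * 0 + 16 = b + 4 * 1 + 16 by omega, show N + (k + 2) * 0 = N by omega] at this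
    exact this
  · rw [show 2 * N + 1 = 2 * (N - 1) + 3 by omega, show 2 * N = 2 * (N - 1) + 2 by omega]
    exact tip

/-- The zeros of the column `2 n - 10 - 2 u` of `P_(6k+1)` in the row `c - 4` of the cycle `4`: the leads
`(n + 1, n - 5, n - 7 - u)` are known in all cycles `j ≥ 0`. -/
def ColD (f : ℕ → ℕ → ℕ → ℕ → Prop) (k e10 u : ℕ) : Prop := ∀ b m : ℕ, StackA f k b m 0 0 0 0 0 e10 →
  Q4 f k b m 0 0 → Q2 f k b m 0 0 → QD f k b m 0 u →
  ∀ x y : ℕ, x + 10 + 2 * u = 2 * nn k m 4 → y % 2 = 0 → y + 2 ≤ x → x + 2 ≤ y + 2 * k →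
    ¬ f (6 * k + 1) (b + 4 * 4 + 18) x y

/-- All the leads over `StackA`, in the cycles `j ≥ 3 k + 5 + u`. -/
theorem allD (hf : Rule f) (H : Steps f k 0 e10) (S : StackA f k b m 0 0 0 0 0 e10) (hk : 8 ≤ k) {u : ℕ}
    (hu : u + 1 ≤ k) (P : ∀ v : ℕ, v < u → ColD f k e10 v) :
    QD f k b m (3 * k + 5 + u) u ∧ Q2 f k b m (3 * k + 5 + u) 0 ∧ Q4 f k b m (3 * k + 5 + u) 0 := by
  obtain ⟨q0, q2, q4⟩ := all H S hk
  refine ⟨?_, q2.mono (by omega), q4.mono (by omega)⟩
  induction u with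
  | zero =>
    intro j hj
    exact cyc_of_eq (q0 j (by omega)) rfl (by omega)
  | succ u ih =>
    have q := ih (by omega) (fun v hv => P v (by omega))
    rw [← Nat.add_assoc]
    refine upD fun i hi => ?_
    refine stepD hf (by omega) (S.shift i) (q.at hi) (q2.at (by omega)) ?_
    exact P u (by omega) _ _ (S.shift i) (q4.at (by omega)) (q2.at (by omega)) (q.at hi)

/-- **The deep lead `n - k - 6` of `6 k`** over `StackA`, in the cycles `j ≥ 4 k + 4`, from the columns. -/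
theorem deep (hf : Rule f) (H : Steps f k 0 e10) (S : StackA f k b m 0 0 0 0 0 e10) (hk : 8 ≤ k)
    (P : ∀ v : ℕ, v + 2 ≤ k → ColD f k e10 v) :
    QD f k b m (4 * k + 4) (k - 1) ∧ Q2 f k b m (4 * k + 4) 0 ∧ Q4 f k b m (4 * k + 4) 0 := by
  have h := allD hf H S hk (u := k - 1) (by omega) (fun v hv => P v (by omega))
  rwa [show 3 * k + 5 + (k - 1) = 4 * k + 4 by omega] at h

end Pool.Agent.SNT.D1
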