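import Pool.Agent.SNT.Core

set_option autoImplicit false

/-! A verified kernel checker for finite local statements about solutions of the four counter rule.
The window consists of the cells `(a0 + j, b0 + n, x0 + p, y0 + q)` with `1 ≤ j ≤ A`,
`1 ≤ n ≤ B - 2`, `1 ≤ p ≤ X - 2`, `1 ≤ q ≤ Y - 2` (`B, X, Y` are the radices of the coding, the
outer cells are a margin without meaning).  A state consists of two bit masks: the cells known to be
`1` and the cells known to be `0`.  The certificate is a number whose digits are the steps. -/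

namespace Pool.Agent.SNT.Loc

/-- Forces the kernel to evaluate `n` to a literal. -/
def force (n : ℕ) (k : ℕ → Bool) : Bool :=
  match n with
  | 0 => k 0
  | m + 1 => k (Nat.succ m)

theorem force_eq (n : ℕ) (k : ℕ → Bool) : force n k = k n := by
  cases n <;> rfl

/-- Test of a bit. -/
def tb (T i : ℕ) : Bool := Nat.beq (Nat.land (Nat.shiftRight T i) 1) 1

theorem tb_eq (T i : ℕ) : tb T i = T.testBit i := by
  unfold tb
  rw [show Nat.land (Nat.shiftRight T i) 1 = (T >>> i) &&& 1 from rfl, Nat.and_one_is_mod,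
    Nat.testBit_eq_decide_div_mod_eq, Nat.shiftRight_eq_div_pow]
  rcases Nat.mod_two_eq_zero_or_one (T / 2 ^ i) with h | h <;> rw [h] <;> rfl

/-- The index of a cell. -/
def enc (B X Y j n p q : ℕ) : ℕ := ((j * B + n) * X + p) * Y + q

theorem enc_add (B X Y j n p q j' n' p' q' : ℕ) :
    enc B X Y (j + j') (n + n') (p + p') (q + q') = enc B X Y j n p q + enc B X Y j' n' p' q' := by
  unfold enc; ring

theorem split_lt {Y t q t' q' : ℕ} (hq : q < Y) (hq' : q' < Y) (h : t * Y + q = t' * Y + q') :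
    t = t' ∧ q = q' := by
  have h1 : (t * Y + q) / Y = t := by
    rw [Nat.add_comm, Nat.add_mul_div_right _ _ (by omega), Nat.div_eq_of_lt hq, Nat.zero_add]
  have h2 : (t' * Y + q') / Y = t' := by
    rw [Nat.add_comm, Nat.add_mul_div_right _ _ (by omega), Nat.div_eq_of_lt hq', Nat.zero_add]
  have h3 : t = t' := by rw [← h1, ← h2, h]
  subst h3
  exact ⟨rfl, by omega⟩

theorem enc_inj {B X Y j n p q j' n' p' q' : ℕ} (hn : n < B) (hp : p < X) (hq : q < Y)
    (hn' : n' < B) (hp' : p' < X) (hq' : q' < Y)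
    (h : enc B X Y j n p q = enc B X Y j' n' p' q') : j = j' ∧ n = n' ∧ p = p' ∧ q = q' := by
  unfold enc at h
  obtain ⟨h1, h2⟩ := split_lt hq hq' h
  obtain ⟨h3, h4⟩ := split_lt hp hp' h1
  obtain ⟨h5, h6⟩ := split_lt hn hn' h3
  exact ⟨h5, h6, h4, h2⟩

/-- The cell is in the window and all its coordinates are at least `lo`. -/
def InR (A B X Y lo j n p q : ℕ) : Prop :=
  lo ≤ j ∧ j ≤ A ∧ lo ≤ n ∧ n + 2 ≤ B ∧ lo ≤ p ∧ p + 2 ≤ X ∧ lo ≤ q ∧ q + 2 ≤ Y

/-- Boolean form of `InR`. -/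
def inC (A B X Y lo j n p q : ℕ) : Bool :=
  and (Nat.ble lo q) <| and (Nat.ble (Nat.add q 2) Y) <|
  and (Nat.ble lo p) <| and (Nat.ble (Nat.add p 2) X) <|
  and (Nat.ble lo n) <| and (Nat.ble (Nat.add n 2) B) <|
  and (Nat.ble lo j) (Nat.ble j A)

theorem inC_spec {A B X Y lo j n p q : ℕ} (h : inC A B X Y lo j n p q = true) :
    InR A B X Y lo j n p q := by
  unfold inC at h
  simp only [Bool.and_eq_true, Nat.ble_eq] at h
  obtain ⟨h1, h2, h3, h4, h5, h6, h7, h8⟩ := h
  exact ⟨h7, h8, h5, h6, h3, h4, h1, h2⟩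

/-- Boolean test of `InR` for an index. -/
def inR (A B X Y lo i : ℕ) : Bool :=
  force (Nat.div i Y) fun t1 => force (Nat.div t1 X) fun t2 =>
    inC A B X Y lo (Nat.div t2 B) (Nat.mod t2 B) (Nat.mod t1 X) (Nat.mod i Y)

theorem enc_dec (B X Y i : ℕ) :
    enc B X Y (i / Y / X / B) (i / Y / X % B) (i / Y % X) (i % Y) = i := by
  unfold enc
  rw [Nat.div_add_mod', Nat.div_add_mod', Nat.div_add_mod']

theorem inR_spec {A B X Y lo i : ℕ} (h : inR A B X Y lo i = true) :
    ∃ j n p q, InR A B X Y lo j n p q ∧ i = enc B X Y j n p q ∧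
      j = i / Y / X / B ∧ n = i / Y / X % B ∧ p = i / Y % X ∧ q = i % Y := by
  unfold inR at h
  simp only [force_eq] at h
  exact ⟨_, _, _, _, inC_spec h, (enc_dec B X Y i).symm, rfl, rfl, rfl, rfl⟩

/-- Not all coordinates are even. -/
def unm (B X Y pa pb px py i : ℕ) : Bool :=
  force (Nat.div i Y) fun t1 => force (Nat.div t1 X) fun t2 =>
    not (and (Nat.beq (Nat.mod (Nat.add pa (Nat.div t2 B)) 2) 0) <|
      and (Nat.beq (Nat.mod (Nat.add pb (Nat.mod t2 B)) 2) 0) <|
      and (Nat.beq (Nat.mod (Nat.add px (Nat.mod t1 X)) 2) 0)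
        (Nat.beq (Nat.mod (Nat.add py (Nat.mod i Y)) 2) 0))

theorem unm_spec {B X Y pa pb px py i : ℕ} (h : unm B X Y pa pb px py i = true) :
    ¬ ((pa + i / Y / X / B) % 2 = 0 ∧ (pb + i / Y / X % B) % 2 = 0 ∧ (px + i / Y % X) % 2 = 0 ∧
      (py + i % Y) % 2 = 0) := by
  unfold unm at h
  simp only [force_eq, Bool.not_eq_true'] at h
  rintro ⟨h1, h2, h3, h4⟩
  have e : (and (Nat.beq (Nat.mod (Nat.add pa (Nat.div (Nat.div (Nat.div i Y) X) B)) 2) 0) <|
      and (Nat.beq (Nat.mod (Nat.add pb (Nat.mod (Nat.div (Nat.div i Y) X) B)) 2) 0) <|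
      and (Nat.beq (Nat.mod (Nat.add px (Nat.mod (Nat.div i Y) X)) 2) 0)
        (Nat.beq (Nat.mod (Nat.add py (Nat.mod i Y)) 2) 0)) = true := by
    simp only [Bool.and_eq_true, Nat.beq_eq]
    exact ⟨h1, h2, h3, h4⟩
  rw [e] at h
  exact absurd h (by decide)

/-- The index shift of the direction `d`. -/
def off (B X Y d : ℕ) : ℕ :=
  Nat.add (Nat.mul (Nat.add (Nat.mul (Nat.add (Nat.mul (Nat.div d 8) B) (Nat.mod (Nat.div d 4) 2)) X)
    (Nat.mod (Nat.div d 2) 2)) Y) (Nat.mod d 2)

theorem off_eq (B X Y d : ℕ) : off B X Y d = enc B X Y (d / 8) (d / 4 % 2) (d / 2 % 2) (d % 2) := rfl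

/-- Mask of the predecessors of the cell with index `off 15`. -/
def pmask (B X Y : ℕ) : ℕ → ℕ
  | 0 => 0
  | d + 1 => Nat.lor (pmask B X Y d) (Nat.shiftLeft 1 (Nat.sub (off B X Y 15) (off B X Y (d + 1))))

/-- Mask of the successors of the cell with index `off 15`. -/
def smask (B X Y : ℕ) : ℕ → ℕ
  | 0 => 0
  | d + 1 => Nat.lor (smask B X Y d) (Nat.shiftLeft 1 (Nat.add (off B X Y 15) (off B X Y (d + 1))))

theorem pmask_spec (B X Y m : ℕ) : ∀ D : ℕ, (pmask B X Y D).testBit m = true ↔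
    ∃ d, 1 ≤ d ∧ d ≤ D ∧ m = off B X Y 15 - off B X Y d
  | 0 => by
    simp only [pmask, Nat.zero_testBit, Bool.false_eq_true, false_iff]
    rintro ⟨d, h1, h2, _⟩
    omega
  | D + 1 => by
    rw [pmask, show ∀ a b, Nat.lor a b = a ||| b from fun _ _ => rfl, Nat.testBit_or,
      Bool.or_eq_true, pmask_spec B X Y m D,
      show ∀ a b, Nat.shiftLeft a b = a <<< b from fun _ _ => rfl, Nat.one_shiftLeft,
      Nat.testBit_two_pow]
    simp only [decide_eq_true_eq]
    constructor
    · rintro (⟨d, h1, h2, h3⟩ | h)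
      · exact ⟨d, h1, by omega, h3⟩
      · exact ⟨D + 1, by omega, le_rfl, h.symm⟩
    · rintro ⟨d, h1, h2, h3⟩
      rcases Nat.lt_or_ge D d with hd | hd
      · right
        have : d = D + 1 := by omega
        rw [this] at h3
        exact h3.symm
      · exact Or.inl ⟨d, h1, hd, h3⟩

theorem smask_spec (B X Y m : ℕ) : ∀ D : ℕ, (smask B X Y D).testBit m = true ↔
    ∃ d, 1 ≤ d ∧ d ≤ D ∧ m = off B X Y 15 + off B X Y d
  | 0 => by
    simp only [smask, Nat.zero_testBit, Bool.false_eq_true, false_iff]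
    rintro ⟨d, h1, h2, _⟩
    omega
  | D + 1 => by
    rw [smask, show ∀ a b, Nat.lor a b = a ||| b from fun _ _ => rfl, Nat.testBit_or,
      Bool.or_eq_true, smask_spec B X Y m D,
      show ∀ a b, Nat.shiftLeft a b = a <<< b from fun _ _ => rfl, Nat.one_shiftLeft,
      Nat.testBit_two_pow]
    simp only [decide_eq_true_eq]
    constructor
    · rintro (⟨d, h1, h2, h3⟩ | h)
      · exact ⟨d, h1, by omega, h3⟩
      · exact ⟨D + 1, by omega, le_rfl, h.symm⟩
    · rintro ⟨d, h1, h2, h3⟩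
      rcases Nat.lt_or_ge D d with hd | hd
      · right
        have : d = D + 1 := by omega
        rw [this] at h3
        exact h3.symm
      · exact Or.inl ⟨d, h1, hd, h3⟩

/-- What the two masks mean. -/
structure Inv (f : ℕ → ℕ → ℕ → ℕ → Prop) (a0 b0 x0 y0 A B X Y T F : ℕ) : Prop where
  one : ∀ j n p q, InR A B X Y 1 j n p q → T.testBit (enc B X Y j n p q) = true →
    f (a0 + j) (b0 + n) (x0 + p) (y0 + q)
  zero : ∀ j n p q, InR A B X Y 1 j n p q → F.testBit (enc B X Y j n p q) = true →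
    ¬ f (a0 + j) (b0 + n) (x0 + p) (y0 + q)

theorem Inv.setOne {f : ℕ → ℕ → ℕ → ℕ → Prop} {a0 b0 x0 y0 A B X Y T F : ℕ}
    (h : Inv f a0 b0 x0 y0 A B X Y T F) {j n p q : ℕ} (hn : n < B) (hp : p < X) (hq : q < Y)
    (hf : f (a0 + j) (b0 + n) (x0 + p) (y0 + q)) :
    Inv f a0 b0 x0 y0 A B X Y (T ||| 1 <<< (enc B X Y j n p q)) F := by
  refine ⟨fun j' n' p' q' hr ht => ?_, h.zero⟩
  rw [Nat.testBit_or, Bool.or_eq_true] at ht
  rcases ht with ht | ht
  · exact h.one _ _ _ _ hr ht
  · rw [Nat.one_shiftLeft, Nat.testBit_two_pow, decide_eq_true_eq] at ht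
    obtain ⟨r1, r2, r3, r4, r5, r6, r7, r8⟩ := hr
    obtain ⟨e1, e2, e3, e4⟩ := enc_inj hn hp hq (by omega) (by omega) (by omega) ht
    subst e1; subst e2; subst e3; subst e4
    exact hf

theorem Inv.setZero {f : ℕ → ℕ → ℕ → ℕ → Prop} {a0 b0 x0 y0 A B X Y T F : ℕ}
    (h : Inv f a0 b0 x0 y0 A B X Y T F) {j n p q : ℕ} (hn : n < B) (hp : p < X) (hq : q < Y)
    (hf : ¬ f (a0 + j) (b0 + n) (x0 + p) (y0 + q)) :
    Inv f a0 b0 x0 y0 A B X Y T (F ||| 1 <<< (enc B X Y j n p q)) := by
  refine ⟨h.one, fun j' n' p' q' hr ht => ?_⟩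
  rw [Nat.testBit_or, Bool.or_eq_true] at ht
  rcases ht with ht | ht
  · exact h.zero _ _ _ _ hr ht
  · rw [Nat.one_shiftLeft, Nat.testBit_two_pow, decide_eq_true_eq] at ht
    obtain ⟨r1, r2, r3, r4, r5, r6, r7, r8⟩ := hr
    obtain ⟨e1, e2, e3, e4⟩ := enc_inj hn hp hq (by omega) (by omega) (by omega) ht
    subst e1; subst e2; subst e3; subst e4
    exact hf

theorem dir_bits {d : ℕ} (h1 : 1 ≤ d) (h2 : d ≤ 15) : d / 8 ≤ 1 ∧ d / 4 % 2 ≤ 1 ∧ d / 2 % 2 ≤ 1 ∧
    d % 2 ≤ 1 ∧ 1 ≤ d / 8 + d / 4 % 2 + d / 2 % 2 + d % 2 := by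
  interval_cases d <;> decide

/-- All neighbours of a one are zeros. -/
theorem Inv.nbr {f : ℕ → ℕ → ℕ → ℕ → Prop} (hf : Rule f) {a0 b0 x0 y0 A B X Y T F : ℕ}
    (h : Inv f a0 b0 x0 y0 A B X Y T F) {j n p q : ℕ} (hr : InR A B X Y 1 j n p q)
    (ht : T.testBit (enc B X Y j n p q) = true) :
    Inv f a0 b0 x0 y0 A B X Y T (F ||| ((pmask B X Y 15 ||| smask B X Y 15) <<<
      (enc B X Y j n p q - off B X Y 15))) := by
  have hone := h.one _ _ _ _ hr ht
  refine ⟨h.one, fun j' n' p' q' hr' ht' => ?_⟩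
  rw [Nat.testBit_or, Bool.or_eq_true] at ht'
  rcases ht' with ht' | ht'
  · exact h.zero _ _ _ _ hr' ht'
  rw [Nat.testBit_shiftLeft, Nat.testBit_or, Bool.and_eq_true, Bool.or_eq_true, pmask_spec,
    smask_spec, decide_eq_true_eq] at ht'
  obtain ⟨r1, r2, r3, r4, r5, r6, r7, r8⟩ := hr
  obtain ⟨s1, s2, s3, s4, s5, s6, s7, s8⟩ := hr'
  have hO : off B X Y 15 = enc B X Y 1 1 1 1 := rfl
  have hOle : enc B X Y j n p q = enc B X Y (j - 1) (n - 1) (p - 1) (q - 1) + off B X Y 15 := by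
    rw [hO, ← enc_add]
    congr 1 <;> omega
  obtain ⟨hge, hor⟩ := ht'
  rcases hor with ⟨d, hd1, hd2, hd3⟩ | ⟨d, hd1, hd2, hd3⟩
  · obtain ⟨b1, b2, b3, b4, b5⟩ := dir_bits hd1 hd2
    have hd15 : off B X Y 15 = off B X Y d + enc B X Y (1 - d / 8) (1 - d / 4 % 2)
        (1 - d / 2 % 2) (1 - d % 2) := by
      rw [hO, off_eq, ← enc_add]
      congr 1 <;> omega
    have he : enc B X Y j n p q = enc B X Y (j' + d / 8) (n' + d / 4 % 2) (p' + d / 2 % 2)
        (q' + d % 2) := by
      rw [enc_add, ← off_eq]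
      omega
    obtain ⟨e1, e2, e3, e4⟩ := enc_inj (by omega) (by omega) (by omega) (by omega) (by omega)
      (by omega) he
    have h5 := hf.down hone b1 b2 b3 b4 b5 (by omega) (by omega) (by omega) (by omega)
    have g1 : a0 + j - d / 8 = a0 + j' := by omega
    have g2 : b0 + n - d / 4 % 2 = b0 + n' := by omega
    have g3 : x0 + p - d / 2 % 2 = x0 + p' := by omega
    have g4 : y0 + q - d % 2 = y0 + q' := by omega
    rw [g1, g2, g3, g4] at h5
    exact h5
  · obtain ⟨b1, b2, b3, b4, b5⟩ := dir_bits hd1 hd2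
    have he : enc B X Y j' n' p' q' = enc B X Y (j + d / 8) (n + d / 4 % 2) (p + d / 2 % 2)
        (q + d % 2) := by
      rw [enc_add B X Y j n p q, ← off_eq]
      omega
    obtain ⟨e1, e2, e3, e4⟩ := enc_inj (by omega) (by omega) (by omega) (by omega) (by omega)
      (by omega) he
    have h5 := hf.up hone b1 b2 b3 b4 b5
    have g1 : a0 + j + d / 8 = a0 + j' := by omega
    have g2 : b0 + n + d / 4 % 2 = b0 + n' := by omega
    have g3 : x0 + p + d / 2 % 2 = x0 + p' := by omega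
    have g4 : y0 + q + d % 2 = y0 + q' := by omega
    rw [g1, g2, g3, g4] at h5
    exact h5

/-- All predecessors of the cell `i` are in `F`. -/
def preds (PM F k : ℕ) : Bool := Nat.beq (Nat.land (Nat.shiftRight F k) PM) PM

theorem preds_spec {B X Y F k : ℕ} (h : preds (pmask B X Y 15) F k = true) {d : ℕ} (h1 : 1 ≤ d)
    (h2 : d ≤ 15) : F.testBit (k + (off B X Y 15 - off B X Y d)) = true := by
  unfold preds at h
  rw [Nat.beq_eq] at h
  have h3 : (pmask B X Y 15).testBit (off B X Y 15 - off B X Y d) = true :=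
    (pmask_spec _ _ _ _ _).2 ⟨d, h1, h2, rfl⟩
  rw [← h, show ∀ a b, Nat.land a b = a &&& b from fun _ _ => rfl, Nat.testBit_and,
    Bool.and_eq_true, show ∀ a b, Nat.shiftRight a b = a >>> b from fun _ _ => rfl,
    Nat.testBit_shiftRight] at h3
  exact h3.1

theorem Inv.pred0 {f : ℕ → ℕ → ℕ → ℕ → Prop} {a0 b0 x0 y0 A B X Y T F F' : ℕ}
    (h : Inv f a0 b0 x0 y0 A B X Y T F') {j n p q : ℕ} (hr : InR A B X Y 2 j n p q)
    {d : ℕ} (h1 : 1 ≤ d) (h2 : d ≤ 15)
    (hp : preds (pmask B X Y 15) F (enc B X Y j n p q - off B X Y 15) = true)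
    (hF : F.testBit (enc B X Y j n p q - off B X Y d) = true →
      F'.testBit (enc B X Y j n p q - off B X Y d) = true) :
    enc B X Y j n p q - off B X Y d =
      enc B X Y (j - d / 8) (n - d / 4 % 2) (p - d / 2 % 2) (q - d % 2) ∧
    ¬ f (a0 + j - d / 8) (b0 + n - d / 4 % 2) (x0 + p - d / 2 % 2) (y0 + q - d % 2) := by
  obtain ⟨r1, r2, r3, r4, r5, r6, r7, r8⟩ := hr
  obtain ⟨b1, b2, b3, b4, b5⟩ := dir_bits h1 h2
  have hO : off B X Y 15 = enc B X Y 1 1 1 1 := rfl
  have hOle : enc B X Y j n p q = enc B X Y (j - 1) (n - 1) (p - 1) (q - 1) + off B X Y 15 := by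
    rw [hO, ← enc_add]
    congr 1 <;> omega
  have hd15 : off B X Y 15 = off B X Y d + enc B X Y (1 - d / 8) (1 - d / 4 % 2)
      (1 - d / 2 % 2) (1 - d % 2) := by
    rw [hO, off_eq, ← enc_add]
    congr 1 <;> omega
  have he : enc B X Y j n p q = enc B X Y (j - d / 8) (n - d / 4 % 2) (p - d / 2 % 2)
      (q - d % 2) + off B X Y d := by
    rw [off_eq, ← enc_add]
    congr 1 <;> omega
  have h3 := preds_spec hp h1 h2
  have h4 : enc B X Y j n p q - off B X Y 15 + (off B X Y 15 - off B X Y d) =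
      enc B X Y j n p q - off B X Y d := by omega
  rw [h4] at h3
  have h5 : enc B X Y j n p q - off B X Y d =
      enc B X Y (j - d / 8) (n - d / 4 % 2) (p - d / 2 % 2) (q - d % 2) := by omega
  refine ⟨h5, ?_⟩
  have h6 := hF h3
  rw [h5] at h6
  have h7 := h.zero _ _ _ _ (by
    refine ⟨?_, ?_, ?_, ?_, ?_, ?_, ?_, ?_⟩ <;> omega) h6
  have g1 : a0 + (j - d / 8) = a0 + j - d / 8 := by omega
  have g2 : b0 + (n - d / 4 % 2) = b0 + n - d / 4 % 2 := by omega
  have g3 : x0 + (p - d / 2 % 2) = x0 + p - d / 2 % 2 := by omega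
  have g4 : y0 + (q - d % 2) = y0 + q - d % 2 := by omega
  rw [g1, g2, g3, g4] at h7
  exact h7

theorem to_dir {p q r s : ℕ} (hp : p ≤ 1) (hq : q ≤ 1) (hr : r ≤ 1) (hs : s ≤ 1)
    (h : 1 ≤ p + q + r + s) : ∃ d, 1 ≤ d ∧ d ≤ 15 ∧ d / 8 = p ∧ d / 4 % 2 = q ∧ d / 2 % 2 = r ∧
      d % 2 = s :=
  ⟨8 * p + 4 * q + 2 * r + s, by omega, by omega, by omega, by omega, by omega, by omega⟩

/-- Index after a swap of two coordinates: kind `1` swaps `x` and `y`, kind `2` swaps `a` and `b`,
kind `3` swaps `b` and `x`; `0` if the swapped cell is not in the window. -/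
def swp (A B X Y k i : ℕ) : ℕ :=
  match k with
  | 1 => match inC A B X Y 1 (i / Y / X / B) (i / Y / X % B) (i % Y) (i / Y % X) with
    | true => enc B X Y (i / Y / X / B) (i / Y / X % B) (i % Y) (i / Y % X)
    | false => 0
  | 2 => match inC A B X Y 1 (i / Y / X % B) (i / Y / X / B) (i / Y % X) (i % Y) with
    | true => enc B X Y (i / Y / X % B) (i / Y / X / B) (i / Y % X) (i % Y)
    | false => 0
  | 3 => match inC A B X Y 1 (i / Y / X / B) (i / Y % X) (i / Y / X % B) (i % Y) with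
    | true => enc B X Y (i / Y / X / B) (i / Y % X) (i / Y / X % B) (i % Y)
    | false => 0
  | _ => 0

/-- Masked cells. -/
def msk (pa pb px py j n p q : ℕ) : Bool :=
  and (Nat.beq (Nat.mod (Nat.add pa j) 2) 0) <| and (Nat.beq (Nat.mod (Nat.add pb n) 2) 0) <|
    and (Nat.beq (Nat.mod (Nat.add px p) 2) 0) (Nat.beq (Nat.mod (Nat.add py q) 2) 0)

/-- Test of a Boolean function on the cell with index `i`. -/
def evl (B X Y : ℕ) (φ : ℕ → ℕ → ℕ → ℕ → Bool) (i : ℕ) : Bool :=
  force (Nat.div i Y) fun t1 => force (Nat.div t1 X) fun t2 =>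
  force (Nat.div t2 B) fun j => force (Nat.mod t2 B) fun n => force (Nat.mod t1 X) fun p =>
  force (Nat.mod i Y) fun q => φ j n p q

theorem evl_eq (B X Y : ℕ) (φ : ℕ → ℕ → ℕ → ℕ → Bool) (i : ℕ) :
    evl B X Y φ i = φ (i / Y / X / B) (i / Y / X % B) (i / Y % X) (i % Y) := by
  unfold evl
  simp only [force_eq]
  rfl

section
variable (A B X Y pa pb px py sw : ℕ) (K1 K0 : ℕ → ℕ → ℕ → ℕ → Bool) (O PM NM : ℕ)

/-- The checker. `c` is the rest of the certificate, `T`, `F` the masks, `st` the open branches. -/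
def run : (fuel : ℕ) → (c T F : ℕ) → (st : List (ℕ × ℕ)) → Bool
  | 0, _, _, _, _ => false
  | fuel + 1, c, T, F, st =>
    force (Nat.mod c 16777216) fun w => force (Nat.div c 16777216) fun c' =>
    force (Nat.div w 128) fun i => force (Nat.mod (Nat.div w 8) 16) fun d =>
    match Nat.mod w 8 with
    | 0 => and (inR A B X Y 1 i) <| and (tb T i) <|
        force (Nat.lor F (Nat.shiftLeft NM (Nat.sub i O))) fun F' => run fuel c' T F' st
    | 1 => and (inR A B X Y 2 i) <| and (unm B X Y pa pb px py i) <|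
        and (preds PM F (Nat.sub i O)) <|
        force (Nat.lor T (Nat.shiftLeft 1 i)) fun T' => run fuel c' T' F st
    | 2 => and (inR A B X Y 2 i) <| and (unm B X Y pa pb px py i) <| and (tb F i) <|
        and (Nat.ble 1 d) <| force (Nat.sub i (off B X Y d)) fun i' =>
        force (Nat.shiftLeft 1 i') fun b' =>
        and (preds PM (Nat.lor F b') (Nat.sub i O)) <|
        force (Nat.lor T b') fun T' => run fuel c' T' F st
    | 3 => and (inR A B X Y 2 i) <| and (unm B X Y pa pb px py i) <| and (tb F i) <|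
        and (preds PM F (Nat.sub i O)) <|
        match st with
        | [] => true
        | s :: st' => run fuel c' s.1 s.2 st'
    | 4 => and (inR A B X Y 1 i) <| force (Nat.shiftLeft 1 i) fun b' =>
        force (Nat.lor T b') fun T' => force (Nat.lor F b') fun F' =>
        run fuel c' T' F ((T, F') :: st)
    | 5 => and (inR A B X Y 1 i) <| and (tb T i) <| and (tb F i) <|
        match st with
        | [] => true
        | s :: st' => run fuel c' s.1 s.2 st'
    | 6 => and (inR A B X Y 1 i) <| and (tb sw d) <| force (swp A B X Y d i) fun i' =>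
        and (Nat.ble 1 i') <|
        force (match tb T i with
          | true => Nat.lor T (Nat.shiftLeft 1 i')
          | false => T) fun T' =>
        force (match tb F i with
          | true => Nat.lor F (Nat.shiftLeft 1 i')
          | false => F) fun F' => run fuel c' T' F' st
    | 7 => and (inR A B X Y 1 i) <| force (Nat.shiftLeft 1 i) fun b' =>
        match Nat.beq d 0 with
        | true => and (evl B X Y (fun j n p q => or (K0 j n p q) (msk pa pb px py j n p q)) i) <|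
          force (Nat.lor F b') fun F' => run fuel c' T F' st
        | false => and (evl B X Y K1 i) <|
          force (Nat.lor T b') fun T' => run fuel c' T' F st
    | _ => false

end

/-- The symmetries which may be used, and the parities. -/
def SwOK (a0 b0 x0 y0 pa pb px py sw : ℕ) : Prop :=
  (sw.testBit 1 = true → x0 = y0) ∧ (sw.testBit 2 = true → a0 = b0) ∧
  (sw.testBit 3 = true → b0 = x0) ∧ a0 % 2 = pa ∧ b0 % 2 = pb ∧ x0 % 2 = px ∧ y0 % 2 = py

theorem swp_spec {f : ℕ → ℕ → ℕ → ℕ → Prop} (hf : Rule f)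
    {a0 b0 x0 y0 A B X Y pa pb px py sw T F : ℕ}
    (hsw : SwOK a0 b0 x0 y0 pa pb px py sw) (h : Inv f a0 b0 x0 y0 A B X Y T F) {i d : ℕ}
    (hi : inR A B X Y 1 i = true) (hd : tb sw d = true) (hi' : 1 ≤ swp A B X Y d i) :
    Inv f a0 b0 x0 y0 A B X Y
      (match tb T i with
        | true => Nat.lor T (Nat.shiftLeft 1 (swp A B X Y d i))
        | false => T)
      (match tb F i with
        | true => Nat.lor F (Nat.shiftLeft 1 (swp A B X Y d i))
        | false => F) := by
  obtain ⟨j, n, p, q, hr, hie, ej, en, ep, eq⟩ := inR_spec hi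
  rw [tb_eq] at hd
  have key : ∃ j' n' p' q', InR A B X Y 1 j' n' p' q' ∧ swp A B X Y d i = enc B X Y j' n' p' q' ∧
      (f (a0 + j) (b0 + n) (x0 + p) (y0 + q) ↔ f (a0 + j') (b0 + n') (x0 + p') (y0 + q')) := by
    have hk : d = 1 ∨ d = 2 ∨ d = 3 ∨ (d ≠ 1 ∧ d ≠ 2 ∧ d ≠ 3) := by omega
    rcases hk with rfl | rfl | rfl | hk
    · have hxy := hsw.1 hd
      simp only [swp] at hi' ⊢
      rw [← ej, ← en, ← ep, ← eq] at hi' ⊢
      cases hc : inC A B X Y 1 j n q p with
      | true =>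
        refine ⟨j, n, q, p, inC_spec hc, rfl, ?_⟩
        rw [hf.swap_xy (a0 + j), hxy]
      | false => rw [hc] at hi'; exact absurd hi' (Nat.not_succ_le_zero 0)
    · have hxy := hsw.2.1 hd
      simp only [swp] at hi' ⊢
      rw [← ej, ← en, ← ep, ← eq] at hi' ⊢
      cases hc : inC A B X Y 1 n j p q with
      | true =>
        refine ⟨n, j, p, q, inC_spec hc, rfl, ?_⟩
        rw [hf.swap_ab (a0 + j), hxy]
      | false => rw [hc] at hi'; exact absurd hi' (Nat.not_succ_le_zero 0)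
    · have hxy := hsw.2.2.1 hd
      simp only [swp] at hi' ⊢
      rw [← ej, ← en, ← ep, ← eq] at hi' ⊢
      cases hc : inC A B X Y 1 j p n q with
      | true =>
        refine ⟨j, p, n, q, inC_spec hc, rfl, ?_⟩
        rw [hf.swap_bx (a0 + j), hxy]
      | false => rw [hc] at hi'; exact absurd hi' (Nat.not_succ_le_zero 0)
    · exfalso
      have : swp A B X Y d i = 0 := by
        unfold swp
        split <;> omega
      omega
  obtain ⟨j', n', p', q', hr', he', hiff⟩ := key
  rw [he']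
  have hr2 := hr'
  obtain ⟨s1, s2, s3, s4, s5, s6, s7, s8⟩ := hr2
  have h1 : Inv f a0 b0 x0 y0 A B X Y
      (match tb T i with
        | true => Nat.lor T (Nat.shiftLeft 1 (enc B X Y j' n' p' q'))
        | false => T) F := by
    cases hT : tb T i with
    | true =>
      rw [tb_eq, hie] at hT
      exact h.setOne (by omega) (by omega) (by omega) (hiff.1 (h.one _ _ _ _ hr hT))
    | false => exact h
  cases hF : tb F i with
  | true =>
    rw [tb_eq, hie] at hF
    exact h1.setZero (by omega) (by omega) (by omega) (fun hc => h.zero _ _ _ _ hr hF (hiff.2 hc))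
  | false => exact h1

theorem run_sound {f : ℕ → ℕ → ℕ → ℕ → Prop} (hf : Rule f)
    {a0 b0 x0 y0 A B X Y pa pb px py sw : ℕ} (hsw : SwOK a0 b0 x0 y0 pa pb px py sw)
    {K1 K0 : ℕ → ℕ → ℕ → ℕ → Bool}
    (hK1 : ∀ j n p q, InR A B X Y 1 j n p q → K1 j n p q = true →
      f (a0 + j) (b0 + n) (x0 + p) (y0 + q))
    (hK0 : ∀ j n p q, InR A B X Y 1 j n p q → K0 j n p q = true →
      ¬ f (a0 + j) (b0 + n) (x0 + p) (y0 + q)) :
    ∀ (fuel c T F : ℕ) (st : List (ℕ × ℕ)),
    run A B X Y pa pb px py sw K1 K0 (off B X Y 15) (pmask B X Y 15)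
      (Nat.lor (pmask B X Y 15) (smask B X Y 15)) fuel c T F st = true →
    ¬ Inv f a0 b0 x0 y0 A B X Y T F ∧ ∀ s ∈ st, ¬ Inv f a0 b0 x0 y0 A B X Y s.1 s.2 := by
  intro fuel
  induction fuel with
  | zero => intro c T F st h; exact absurd h (by simp [run])
  | succ fuel ih =>
    intro c T F st
    have hpop : ∀ c' : ℕ, (match st with
        | [] => true
        | s :: st' => run A B X Y pa pb px py sw K1 K0 (off B X Y 15) (pmask B X Y 15)
          (Nat.lor (pmask B X Y 15) (smask B X Y 15)) fuel c' s.1 s.2 st') = true →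
        ∀ s ∈ st, ¬ Inv f a0 b0 x0 y0 A B X Y s.1 s.2 := by
      cases st with
      | nil => intro _ _ s hs; exact absurd hs (List.not_mem_nil)
      | cons s0 st' =>
        intro c' h0 s hs
        have h2 := ih _ _ _ _ h0
        rcases List.mem_cons.1 hs with rfl | hs
        · exact h2.1
        · exact h2.2 s hs
    intro h
    unfold run at h
    simp only [force_eq] at h
    set w := Nat.mod c 16777216 with hw
    set c' := Nat.div c 16777216 with hc'
    set i := Nat.div w 128 with hi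
    set d := Nat.mod (Nat.div w 8) 16 with hd
    have hd15 : d ≤ 15 := by
      have : d < 16 := Nat.mod_lt _ (by norm_num)
      omega
    split at h
    · simp only [Bool.and_eq_true] at h
      obtain ⟨h1, h2, h3⟩ := h
      obtain ⟨j, n, p, q, hr, hie, -⟩ := inR_spec h1
      have h4 := ih _ _ _ _ h3
      refine ⟨fun hinv => h4.1 ?_, h4.2⟩
      rw [tb_eq, hie] at h2
      have h5 := hinv.nbr hf hr h2
      rw [← hie] at h5
      exact h5
    · simp only [Bool.and_eq_true] at h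
      obtain ⟨h1, h2, h3, h4⟩ := h
      obtain ⟨j, n, p, q, hr, hie, ej, en, ep, eq⟩ := inR_spec h1
      have h5 := ih _ _ _ _ h4
      refine ⟨fun hinv => h5.1 ?_, h5.2⟩
      have hone : f (a0 + j) (b0 + n) (x0 + p) (y0 + q) := by
        rw [hf]
        have hu := unm_spec h2
        rw [← ej, ← en, ← ep, ← eq] at hu
        obtain ⟨-, -, -, ha, hb, hx, hy⟩ := hsw
        refine ⟨fun hh => hu ⟨by omega, by omega, by omega, by omega⟩, ?_⟩
        intro p1 q1 r1 s1 hp hq hr1 hs hsum hpa hqb hrx hsy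
        obtain ⟨e, he1, he2, rfl, rfl, rfl, rfl⟩ := to_dir hp hq hr1 hs hsum
        rw [hie] at h3
        exact (hinv.pred0 hr he1 he2 h3 (fun h => h)).2
      have h6 := hinv.setOne (by have := hr.2.2.2.1; omega) (by have := hr.2.2.2.2.2.1; omega)
        (by have := hr.2.2.2.2.2.2.2; omega) hone
      rw [← hie] at h6
      exact h6
    · simp only [Bool.and_eq_true, Nat.ble_eq] at h
      obtain ⟨h1, h2, h3, hd1, h4, h5⟩ := h
      obtain ⟨j, n, p, q, hr, hie, ej, en, ep, eq⟩ := inR_spec h1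
      have h6 := ih _ _ _ _ h5
      refine ⟨fun hinv => h6.1 ?_, h6.2⟩
      rw [tb_eq, hie] at h3
      have hr2 := hr
      obtain ⟨r1, r2, r3, r4, r5, r6, r7, r8⟩ := hr2
      have hzero := hinv.zero _ _ _ _ ⟨by omega, r2, by omega, r4, by omega, r6, by omega, r8⟩ h3
      have hu := unm_spec h2
      rw [← ej, ← en, ← ep, ← eq] at hu
      obtain ⟨-, -, -, ha, hb, hx, hy⟩ := hsw
      obtain ⟨b1, b2, b3, b4, b5⟩ := dir_bits hd1 hd15
      have he : enc B X Y j n p q = enc B X Y (j - d / 8) (n - d / 4 % 2) (p - d / 2 % 2)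
          (q - d % 2) + off B X Y d := by
        rw [off_eq, ← enc_add]
        congr 1 <;> omega
      have he' : Nat.sub i (off B X Y d) = enc B X Y (j - d / 8) (n - d / 4 % 2) (p - d / 2 % 2)
          (q - d % 2) := by
        show i - off B X Y d = _
        omega
      rw [he'] at h4 ⊢
      by_cases hcase : f (a0 + (j - d / 8)) (b0 + (n - d / 4 % 2)) (x0 + (p - d / 2 % 2))
          (y0 + (q - d % 2))
      · exact hinv.setOne (by omega) (by omega) (by omega) hcase
      · exfalso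
        have hinv' := hinv.setZero (by omega) (by omega) (by omega) hcase
        apply hzero
        rw [hf]
        refine ⟨fun hh => hu ⟨by omega, by omega, by omega, by omega⟩, ?_⟩
        intro p1 q1 r1 s1 hp hq hr1 hs hsum hpa hqb hrx hsy
        obtain ⟨e, he1, he2, rfl, rfl, rfl, rfl⟩ := to_dir hp hq hr1 hs hsum
        rw [hie] at h4
        exact (hinv'.pred0 hr he1 he2 h4 (fun h => h)).2
    · simp only [Bool.and_eq_true] at h
      obtain ⟨h1, h2, h3, h4, h5⟩ := h
      refine ⟨fun hinv => ?_, hpop _ h5⟩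
      obtain ⟨j, n, p, q, hr, hie, ej, en, ep, eq⟩ := inR_spec h1
      rw [tb_eq, hie] at h3
      have hr2 := hr
      obtain ⟨r1, r2, r3, r4, r5, r6, r7, r8⟩ := hr2
      have hzero := hinv.zero _ _ _ _ ⟨by omega, r2, by omega, r4, by omega, r6, by omega, r8⟩ h3
      have hu := unm_spec h2
      rw [← ej, ← en, ← ep, ← eq] at hu
      obtain ⟨-, -, -, ha, hb, hx, hy⟩ := hsw
      apply hzero
      rw [hf]
      refine ⟨fun hh => hu ⟨by omega, by omega, by omega, by omega⟩, ?_⟩
      intro p1 q1 r1 s1 hp hq hr1 hs hsum hpa hqb hrx hsy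
      obtain ⟨e, he1, he2, rfl, rfl, rfl, rfl⟩ := to_dir hp hq hr1 hs hsum
      rw [hie] at h4
      exact (hinv.pred0 hr he1 he2 h4 (fun h => h)).2
    · simp only [Bool.and_eq_true] at h
      obtain ⟨h1, h2⟩ := h
      obtain ⟨j, n, p, q, hr, hie, ej, en, ep, eq⟩ := inR_spec h1
      have h3 := ih _ _ _ _ h2
      obtain ⟨r1, r2, r3, r4, r5, r6, r7, r8⟩ := hr
      refine ⟨fun hinv => ?_, fun s hs => h3.2 s (List.mem_cons_of_mem _ hs)⟩
      by_cases hcase : f (a0 + j) (b0 + n) (x0 + p) (y0 + q)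
      · apply h3.1
        have h6 := hinv.setOne (by omega) (by omega) (by omega) hcase
        rw [← hie] at h6
        exact h6
      · apply h3.2 _ List.mem_cons_self
        have h6 := hinv.setZero (by omega) (by omega) (by omega) hcase
        rw [← hie] at h6
        exact h6
    · simp only [Bool.and_eq_true] at h
      obtain ⟨h1, h2, h3, h4⟩ := h
      refine ⟨fun hinv => ?_, hpop _ h4⟩
      obtain ⟨j, n, p, q, hr, hie, ej, en, ep, eq⟩ := inR_spec h1
      rw [tb_eq, hie] at h2 h3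
      exact hinv.zero _ _ _ _ hr h3 (hinv.one _ _ _ _ hr h2)
    · simp only [Bool.and_eq_true, Nat.ble_eq] at h
      obtain ⟨h1, h2, h3, h4⟩ := h
      have h5 := ih _ _ _ _ h4
      refine ⟨fun hinv => h5.1 ?_, h5.2⟩
      exact swp_spec hf hsw hinv h1 h2 h3
    · rw [Bool.and_eq_true] at h
      obtain ⟨h1, h2⟩ := h
      obtain ⟨j, n, p, q, hr, hie, ej, en, ep, eq⟩ := inR_spec h1
      have hr2 := hr
      obtain ⟨r1, r2, r3, r4, r5, r6, r7, r8⟩ := hr2
      cases hb : Nat.beq d 0 <;> rw [hb] at h2 <;> simp only [] at h2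
      rotate_left
      · rw [Bool.and_eq_true, evl_eq, ← ej, ← en, ← ep, ← eq, Bool.or_eq_true] at h2
        obtain ⟨h3, h4⟩ := h2
        have h5 := ih _ _ _ _ h4
        refine ⟨fun hinv => h5.1 ?_, h5.2⟩
        have hz : ¬ f (a0 + j) (b0 + n) (x0 + p) (y0 + q) := by
          rcases h3 with h3 | h3
          · exact hK0 _ _ _ _ hr h3
          · intro hff
            apply hf.not_allEven hff
            unfold msk at h3
            simp only [Bool.and_eq_true, Nat.beq_eq] at h3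
            obtain ⟨e1, e2, e3, e4⟩ := h3
            have e1' : (pa + j) % 2 = 0 := e1
            have e2' : (pb + n) % 2 = 0 := e2
            have e3' : (px + p) % 2 = 0 := e3
            have e4' : (py + q) % 2 = 0 := e4
            obtain ⟨-, -, -, ha, hb, hx, hy⟩ := hsw
            refine ⟨by omega, by omega, by omega, by omega⟩
        have h6 := hinv.setZero (by omega) (by omega) (by omega) hz
        rw [← hie] at h6
        exact h6
      · rw [Bool.and_eq_true, evl_eq, ← ej, ← en, ← ep, ← eq] at h2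
        obtain ⟨h3, h4⟩ := h2
        have h5 := ih _ _ _ _ h4
        refine ⟨fun hinv => h5.1 ?_, h5.2⟩
        have h6 := hinv.setOne (by omega) (by omega) (by omega) (hK1 _ _ _ _ hr h3)
        rw [← hie] at h6
        exact h6
    · exact absurd h (by simp)

/-- The complete check. -/
def check (A B X Y pa pb px py sw : ℕ) (K1 K0 : ℕ → ℕ → ℕ → ℕ → Bool) (len c : ℕ) : Bool :=
  force (off B X Y 15) fun O => force (pmask B X Y 15) fun PM =>
  force (Nat.lor PM (smask B X Y 15)) fun NM =>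
  run A B X Y pa pb px py sw K1 K0 O PM NM len c 0 0 []

/-- Soundness of the checker: the known ones `K1` and the known zeros `K0` are contradictory. -/
theorem check_sound {f : ℕ → ℕ → ℕ → ℕ → Prop} (hf : Rule f) {a0 b0 x0 y0 : ℕ}
    {A B X Y pa pb px py sw : ℕ} {K1 K0 : ℕ → ℕ → ℕ → ℕ → Bool} {len c : ℕ}
    (hc : check A B X Y pa pb px py sw K1 K0 len c = true)
    (hsw : SwOK a0 b0 x0 y0 pa pb px py sw)
    (h1 : ∀ j n p q, InR A B X Y 1 j n p q → K1 j n p q = true →
      f (a0 + j) (b0 + n) (x0 + p) (y0 + q))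
    (h0 : ∀ j n p q, InR A B X Y 1 j n p q → K0 j n p q = true →
      ¬ f (a0 + j) (b0 + n) (x0 + p) (y0 + q)) : False := by
  unfold check at hc
  simp only [force_eq] at hc
  apply (run_sound hf hsw h1 h0 _ _ _ _ _ hc).1
  refine ⟨fun j n p q hr ht => ?_, fun j n p q hr ht => ?_⟩ <;>
  · rw [Nat.zero_testBit] at ht
    exact absurd ht (by decide)

end Pool.Agent.SNT.Loc
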