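import Pool.Agent.SNT.LW2a

set_option autoImplicit false

/-! The weak profile: monotonicity and the full profile one line later. -/

namespace Pool.Agent.SNT.LW

variable {f : ℕ → ℕ → ℕ → ℕ → Prop}

theorem Cw.mono {a b n n' : ℕ} (C : Cw f a b n) (h : n ≤ n') : Cw f a b n' where
  w0 := fun x y h1 h2 h3 => C.w0 x y h1 (by omega) (by omega)
  w1 := fun x y h1 h2 h3 => C.w1 x y h1 (by omega) (by omega)
  w2s := fun x y h1 h2 h3 => C.w2s x y h1 h2 (by omega)
  w2x := fun x y h1 h2 => C.w2x x y h1 (by omega)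
  w3s := fun x y h1 h2 h3 => C.w3s x y h1 h2 (by omega)
  w3x := fun x y h1 h2 => C.w3x x y h1 (by omega)

/-- The near-wall cells of the row after the IN row. -/
theorem Cw.w1n (hf : Rule f) {a b n : ℕ} (ha : a % 2 = 0) (h12 : 12 ≤ a)
    (ph : (a + b) % 4 = 2) (big : 2 * a + 40 ≤ b) (C : Cw f a b n) {x y : ℕ}
    (hx : x = 2 * n + 6) (hs : x ≤ y + 2 * (a / 6)) (hs2 : y + 2 * (a / 6) ≤ x + 2) :
    f a (b + 1) x y ↔ Fst a (b + 1) x y := by
  have hyx : y ≤ x := by omega
  have hl : Lay a b (a / 6) := ⟨ha, h12, rfl, ph⟩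
  have hF : ¬ Fst a (b + 1) x y := by
    rw [fst1 ha (by omega) (by omega) hyx (by omega)]
    omega
  refine ⟨fun t => ?_, fun t => absurd t hF⟩
  exfalso
  rcases (show y + 2 * (a / 6) = x + 2 ∨ y + 2 * (a / 6) = x + 1 ∨ y + 2 * (a / 6) = x by omega)
    with h1 | h1 | h1
  · -- pred in the row `b`
    have t2 : f a b (x - 1) y :=
      (LW.w0 hl C rfl rfl (by omega) (by omega) (by omega) (by omega)).2 (by unfold V0; omega)
    refine ((hf a (b + 1) x y).1 t).2 0 1 1 0 (by omega) (by omega) (by omega) (by omega)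
      (by omega) (by omega) (by omega) (by omega) (by omega) ?_
    exact mv t2 (by omega) (by omega) (by omega) (by omega)
  · have t2 : f a (b + 1) (x + 1) y :=
      (LW.w1 hl C rfl rfl (by omega) (by omega) (by omega) (by omega)).2 (by unfold V1; omega)
    refine ((hf a (b + 1) (x + 1) y).1 t2).2 0 0 1 0 (by omega) (by omega) (by omega) (by omega)
      (by omega) (by omega) (by omega) (by omega) (by omega) ?_
    exact mv t (by omega) (by omega) (by omega) (by omega)
  · have t2 : f a (b + 1) (x + 1) (y + 1) :=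
      (LW.w1 hl C rfl rfl (by omega) (by omega) (by omega) (by omega)).2 (by unfold V1; omega)
    refine ((hf a (b + 1) (x + 1) (y + 1)).1 t2).2 0 0 1 1 (by omega) (by omega) (by omega)
      (by omega) (by omega) (by omega) (by omega) (by omega) (by omega) ?_
    exact mv t (by omega) (by omega) (by omega) (by omega)

/-- The weak profile contains the full profile one line later. -/
theorem Cw.to_cyc (hf : Rule f) {a b n n' : ℕ} (ha : a % 2 = 0) (h12 : 12 ≤ a)
    (ph : (a + b) % 4 = 2) (big : 2 * a + 40 ≤ b) (C : Cw f a b n) (C' : Cw f a (b + 4) n')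
    (hn : n' ≤ n + a / 6 + 2) : Cyc f a b (2 * (n + 1) + 2) := by
  have hc : cc a = 2 * (a / 6) := by
    unfold cc
    omega
  refine ⟨?_, ?_, ?_, ?_, ?_, ?_, ?_, ?_, ?_⟩
  · intro x y h
    refine all_of_half hf (P := fun x y => 2 * (n + 1) + 2 < x) ?_ x y (by omega)
    intro x y hyx h
    exact C.w0 x y hyx (by omega) (by omega)
  · intro x y h
    refine all_of_half hf (P := fun x y => 2 * (n + 1) + 2 + 2 < x) ?_ x y (by omega)
    intro x y hyx h
    exact C.w1 x y hyx (by omega) (by omega)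
  · intro _ x y h1 h2
    refine all_of_half hf (P := fun x y => x ≤ y + 2 * (a / 6) ∧ 2 * (n + 1) + 2 + 1 < x) ?_ x y
      ⟨h1, h2⟩
    intro x y hyx h
    rcases Nat.lt_or_ge (2 * n + 6) x with h3 | h3
    · exact C.w1 x y hyx (by omega) (by omega)
    · rcases Nat.lt_or_ge (y + 2 * (a / 6)) (x + 3) with h4 | h4
      · exact C.w1n hf ha h12 ph big (by omega) (by omega) (by omega)
      · exact C.w1 x y hyx (by omega) (by omega)
  · intro x y h
    refine all_of_half hf (P := fun x y => 2 * (n + 1) + 2 + cc a < x) ?_ x y (by omega)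
    intro x y hyx h
    rw [hc] at h
    rcases Nat.lt_or_ge x (y + 2 * (a / 6)) with h3 | h3
    · exact C.w2s x y hyx (by omega) (by omega)
    · exact C.w2x x y (by omega) (by omega)
  · intro x y h1 h2
    refine all_of_half hf (P := fun x y => y + 2 * (a / 6) ≤ x ∧ 2 * (n + 1) + 2 + 4 < x) ?_ x y
      ⟨h1, h2⟩
    intro x y hyx h
    exact C.w2x x y (by omega) (by omega)
  · intro x y h1 h2
    refine all_of_half hf (P := fun x y => x + 1 ≤ y + 2 * (a / 6) ∧ 2 * (n + 1) + 2 + 1 < y)
      ?_ x y ⟨h1, h2⟩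
    intro x y hyx h
    exact C.w2s x y hyx (by omega) (by omega)
  · intro x y h
    refine all_of_half hf (P := fun x y => 2 * (n + 1) + 2 + cc a + 2 < x) ?_ x y (by omega)
    intro x y hyx h
    rw [hc] at h
    exact C.w3x x y hyx (by omega)
  · intro x y h1 h2
    refine all_of_half hf (P := fun x y => x + 1 ≤ y + 2 * (a / 6) ∧ 2 * (n + 1) + 2 + 3 < y)
      ?_ x y ⟨h1, h2⟩
    intro x y hyx h
    exact C.w3s x y hyx (by omega) (by omega)
  · intro x y h
    refine all_of_half hf (P := fun x y => 2 * (n + 1) + 2 + cc a + 4 < x) ?_ x y (by omega)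
    intro x y hyx h
    rw [hc] at h
    exact C'.w0 x y hyx (by omega) (by omega)

end Pool.Agent.SNT.LW
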