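import Pool.Agent.SNT.FarF
import Pool.Agent.SNT.LWC

set_option autoImplicit false

/-! The window of the six layers `6 k, .., 6 k + 10` and the statements of the leaders. -/

namespace Pool.Agent.SNT

open Pool.Agent.SNT.LW

/-- The window of the six layers: `e = 0` is offset `J - 1`, `e = 1` is offset `J`; `b` is an IN
row of the layer `6 k` and `m + k + e0` is its lead there. Full profiles for the four lower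
layers, weak profiles for the two upper ones. -/
structure Stack6 (f : ℕ → ℕ → ℕ → ℕ → Prop) (k b m e0 e2 e4 e6 e8 e10 : ℕ) : Prop where
  l0 : ∀ i : ℕ, Cyc f (6 * k) (b + 4 * i) (2 * (m + k + e0 + (k + 2) * i) + 2)
  l2 : ∀ i : ℕ, Cyc f (6 * k + 2) (b + 2 + 4 * i) (2 * (m + k + 2 + e2 + (k + 2) * i) + 2)
  l4 : ∀ i : ℕ, Cyc f (6 * k + 4) (b + 4 * i) (2 * (m + 2 + e4 + (k + 2) * i) + 2)
  l6 : ∀ i : ℕ, Cyc f (6 * k + 6) (b + 2 + 4 * i) (2 * (m + 4 + e6 + (k + 2) * i) + 2)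
  l8 : ∀ i : ℕ, Cw f (6 * k + 8) (b + 4 + 4 * i) (m + 6 + e8 + (k + 2) * i)
  l10 : ∀ i : ℕ, Cw f (6 * k + 10) (b + 6 + 4 * i) (m + 8 + e10 + (k + 2) * i)
  lw : ∀ i : ℕ, i ≤ 100 → St f (6 * k - 1) (b + i) (2 * m - (100 * k + 1000))
  fr : ∀ a i x y : ℕ, a ≤ 6 * k + 10 → i ≤ 100 → 2 * m - (100 * k + 1000) < max x y →
    b ≤ 2 * (max x y - min x y) → (f a (b + i) x y ↔ Fst a (b + i) x y)

theorem Stack6.to_stack {f : ℕ → ℕ → ℕ → ℕ → Prop} {k b m e0 e2 e4 e6 e8 e10 : ℕ}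
    (S : Stack6 f k b m e0 e2 e4 e6 e8 e10) : Stack f k b m e0 e2 e4 e6 :=
  ⟨S.l0, S.l2, S.l4, S.l6, S.lw⟩

namespace S6

/-! The leader statements: if the tip is missing then `False`. -/

def LeadR0 (f : ℕ → ℕ → ℕ → ℕ → Prop) (k : ℕ) : Prop := ∀ b m : ℕ, Side k b m →
  Stack6 f k b m 1 1 1 1 1 1 →
  ¬ f (6 * k) (b + 16) (2 * (m + k + 1 + (k + 2) * 4) + 1) (2 * (m + k + 1 + (k + 2) * 4)) →
  False

def LeadR2 (f : ℕ → ℕ → ℕ → ℕ → Prop) (k : ℕ) : Prop := ∀ b m : ℕ, Side k b m →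
  Stack6 f k b m 0 1 1 1 1 1 →
  ¬ f (6 * k + 2) (b + 18) (2 * (m + k + 3 + (k + 2) * 4) + 1) (2 * (m + k + 3 + (k + 2) * 4)) →
  False

def LeadR4 (f : ℕ → ℕ → ℕ → ℕ → Prop) (k : ℕ) : Prop := ∀ b m : ℕ, Side k b m →
  Stack6 f k b m 0 0 1 1 1 1 →
  ¬ f (6 * k + 4) (b + 16) (2 * (m + 3 + (k + 2) * 4) + 1) (2 * (m + 3 + (k + 2) * 4)) →
  False

def LeadR6 (f : ℕ → ℕ → ℕ → ℕ → Prop) (k : ℕ) : Prop := ∀ b m : ℕ, Side k b m →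
  Stack6 f k b m 0 0 0 1 1 1 →
  ¬ f (6 * k + 6) (b + 18) (2 * (m + 5 + (k + 2) * 4) + 1) (2 * (m + 5 + (k + 2) * 4)) →
  False

def LeadR8 (f : ℕ → ℕ → ℕ → ℕ → Prop) (k : ℕ) : Prop := ∀ b m : ℕ, Side k b m →
  Stack6 f k b m 0 0 0 0 1 1 →
  ¬ f (6 * k + 8) (b + 20) (2 * (m + 7 + (k + 2) * 4) + 1) (2 * (m + 7 + (k + 2) * 4)) →
  False

def LeadR10 (f : ℕ → ℕ → ℕ → ℕ → Prop) (k : ℕ) : Prop := ∀ b m : ℕ, Side k b m →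
  Stack6 f k b m 0 0 0 0 0 1 →
  ¬ f (6 * k + 10) (b + 22) (2 * (m + 9 + (k + 2) * 4) + 1) (2 * (m + 9 + (k + 2) * 4)) →
  False

/-! LOCATION: if the profile `J - 1` of the leader fails then the tip is missing. -/

def LocR2 (f : ℕ → ℕ → ℕ → ℕ → Prop) (k : ℕ) : Prop := ∀ b m : ℕ, Side k b m →
  Stack6 f k b m 0 1 1 1 1 1 → ¬ Cy3 f (6 * k + 2) (b + 18) (2 * (m + k + 3 + (k + 2) * 4)) →
  ¬ f (6 * k + 2) (b + 18) (2 * (m + k + 3 + (k + 2) * 4) + 1) (2 * (m + k + 3 + (k + 2) * 4))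

def LocR4 (f : ℕ → ℕ → ℕ → ℕ → Prop) (k : ℕ) : Prop := ∀ b m : ℕ, Side k b m →
  Stack6 f k b m 0 0 1 1 1 1 → ¬ Cy3 f (6 * k + 4) (b + 16) (2 * (m + 3 + (k + 2) * 4)) →
  ¬ f (6 * k + 4) (b + 16) (2 * (m + 3 + (k + 2) * 4) + 1) (2 * (m + 3 + (k + 2) * 4))

def LocR6 (f : ℕ → ℕ → ℕ → ℕ → Prop) (k : ℕ) : Prop := ∀ b m : ℕ, Side k b m →
  Stack6 f k b m 0 0 0 1 1 1 → ¬ Cy3 f (6 * k + 6) (b + 18) (2 * (m + 5 + (k + 2) * 4)) →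
  ¬ f (6 * k + 6) (b + 18) (2 * (m + 5 + (k + 2) * 4) + 1) (2 * (m + 5 + (k + 2) * 4))

def LocR8 (f : ℕ → ℕ → ℕ → ℕ → Prop) (k : ℕ) : Prop := ∀ b m : ℕ, Side k b m →
  Stack6 f k b m 0 0 0 0 1 1 → ¬ Cw f (6 * k + 8) (b + 20) (m + 6 + (k + 2) * 4) →
  ¬ f (6 * k + 8) (b + 20) (2 * (m + 7 + (k + 2) * 4) + 1) (2 * (m + 7 + (k + 2) * 4))

def LocR10 (f : ℕ → ℕ → ℕ → ℕ → Prop) (k : ℕ) : Prop := ∀ b m : ℕ, Side k b m →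
  Stack6 f k b m 0 0 0 0 0 1 → ¬ Cw f (6 * k + 10) (b + 22) (m + 8 + (k + 2) * 4) →
  ¬ f (6 * k + 10) (b + 22) (2 * (m + 9 + (k + 2) * 4) + 1) (2 * (m + 9 + (k + 2) * 4))

end S6

end Pool.Agent.SNT
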