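import Pool.Agent.SNT.LW2
import Pool.Agent.SNT.Stack6
import Pool.Agent.SNT.Loc

set_option autoImplicit false
set_option synthInstance.maxSize 1000

/-! The missing tip of the layer `6 k + 2` persists: from the IN row `B` (missing tip `m`) to the IN
row `B + 4` (missing tip `m + k + 2`), with the lead `m - 3` of the layer `6 k` in the row `B - 2` and
nominal leads of the layers `6 k + 4`, `6 k + 6` (helper41). -/

namespace Pool.Agent.SNT.Loc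

theorem tn_g1_chk : check 5 6 8 8 1 0 0 0 2
    (fun j n p q => decide ((j = 1 ∧ n = 1 ∧ p = 4 ∧ q = 4) ∨ (j = 1 ∧ n = 2 ∧ p = 2 ∧ q = 1) ∨ (j = 1 ∧ n = 2 ∧ p = 4 ∧ q = 1) ∨ (j = 1 ∧ n = 2 ∧ p = 6 ∧ q = 3) ∨ (j = 1 ∧ n = 2 ∧ p = 6 ∧ q = 5) ∨ (j = 1 ∧ n = 3 ∧ p = 3 ∧ q = 3) ∨ (j = 3 ∧ n = 1 ∧ p = 3 ∧ q = 3) ∨ (j = 3 ∧ n = 1 ∧ p = 5 ∧ q = 5) ∨ (j = 3 ∧ n = 4 ∧ p = 6 ∧ q = 5) ∨ (j = 5 ∧ n = 2 ∧ p = 4 ∧ q = 1) ∨ (j = 5 ∧ n = 2 ∧ p = 4 ∧ q = 3) ∨ (j = 5 ∧ n = 2 ∧ p = 6 ∧ q = 3)))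
    (fun j n p q => decide ((j = 3 ∧ n = 1 ∧ p = 3 ∧ q = 1) ∨ (j = 3 ∧ n = 1 ∧ p = 4 ∧ q = 2) ∨ (j = 3 ∧ n = 1 ∧ p = 5 ∧ q = 2) ∨ (j = 3 ∧ n = 2 ∧ p = 3 ∧ q = 2)))
    53
    0x2ae03028580034a5a028a80034ed202928002b200040f00040e0004060002b73a02d6ba02d700011700010f0001060001050004198e04118e04108e02da8002da8e028d0e02768002750e02710e026d80026c8e012d80011a8e01198e01108e01088e00f20004198f04118f04108f02da8f02d207029307028d07028a0702768f027507027107026d8f026c87012d8f011a8f01198f01108f01088f00f20f = true := by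
  decide +kernel

theorem tn_g1 {f : ℕ → ℕ → ℕ → ℕ → Prop} (hf : Rule f) {a0 b0 x0 y0 : ℕ} (hxy : x0 = y0)
    (ha : a0 % 2 = 1) (hb : b0 % 2 = 0) (hx : x0 % 2 = 0) (hy : y0 % 2 = 0)
    (h1 : ∀ j n p q : ℕ, InR 5 6 8 8 1 j n p q →
      ((j = 1 ∧ n = 1 ∧ p = 4 ∧ q = 4) ∨ (j = 1 ∧ n = 2 ∧ p = 2 ∧ q = 1) ∨ (j = 1 ∧ n = 2 ∧ p = 4 ∧ q = 1) ∨ (j = 1 ∧ n = 2 ∧ p = 6 ∧ q = 3) ∨ (j = 1 ∧ n = 2 ∧ p = 6 ∧ q = 5) ∨ (j = 1 ∧ n = 3 ∧ p = 3 ∧ q = 3) ∨ (j = 3 ∧ n = 1 ∧ p = 3 ∧ q = 3) ∨ (j = 3 ∧ n = 1 ∧ p = 5 ∧ q = 5) ∨ (j = 3 ∧ n = 4 ∧ p = 6 ∧ q = 5) ∨ (j = 5 ∧ n = 2 ∧ p = 4 ∧ q = 1) ∨ (j = 5 ∧ n = 2 ∧ p = 4 ∧ q = 3) ∨ (j = 5 ∧ n = 2 ∧ p = 6 ∧ q = 3)) →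
      f (a0 + j) (b0 + n) (x0 + p) (y0 + q))
    (h0 : ∀ j n p q : ℕ, InR 5 6 8 8 1 j n p q →
      ((j = 3 ∧ n = 1 ∧ p = 3 ∧ q = 1) ∨ (j = 3 ∧ n = 1 ∧ p = 4 ∧ q = 2) ∨ (j = 3 ∧ n = 1 ∧ p = 5 ∧ q = 2) ∨ (j = 3 ∧ n = 2 ∧ p = 3 ∧ q = 2)) →
      ¬ f (a0 + j) (b0 + n) (x0 + p) (y0 + q)) : False :=
  check_sound hf tn_g1_chk
    ⟨fun _ => hxy, fun h => absurd h (by decide),
      fun h => absurd h (by decide), ha, hb, hx, hy⟩
    (fun j n p q hr h => h1 j n p q hr (of_decide_eq_true h))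
    (fun j n p q hr h => h0 j n p q hr (of_decide_eq_true h))

theorem tn_g2_chk : check 5 4 7 7 1 0 1 1 2
    (fun j n p q => decide ((j = 1 ∧ n = 2 ∧ p = 5 ∧ q = 2) ∨ (j = 3 ∧ n = 1 ∧ p = 4 ∧ q = 4) ∨ (j = 5 ∧ n = 2 ∧ p = 3 ∧ q = 2) ∨ (j = 5 ∧ n = 2 ∧ p = 5 ∧ q = 2) ∨ (j = 5 ∧ n = 2 ∧ p = 5 ∧ q = 4)))
    (fun j n p q => decide ((j = 1 ∧ n = 1 ∧ p = 3 ∧ q = 1) ∨ (j = 1 ∧ n = 1 ∧ p = 3 ∧ q = 2) ∨ (j = 1 ∧ n = 2 ∧ p = 3 ∧ q = 2) ∨ (j = 3 ∧ n = 1 ∧ p = 3 ∧ q = 1) ∨ (j = 3 ∧ n = 1 ∧ p = 3 ∧ q = 2) ∨ (j = 3 ∧ n = 1 ∧ p = 4 ∧ q = 1) ∨ (j = 3 ∧ n = 1 ∧ p = 4 ∧ q = 2) ∨ (j = 3 ∧ n = 1 ∧ p = 5 ∧ q = 2) ∨ (j = 3 ∧ n = 1 ∧ p = 5 ∧ q = 3)))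
    51
    0xfe0301608001c652015f8001c24a00fe0301638001c64a015c80015c8401660e010403016600016604022b80022480022380009c80022e8e022d8e02268e01518e01510e014e80014d8e014d0e014a0e01498e00a58000a58e009e8e00860e00858e022e8f022d8f02268f016407015c07015187015107014e8f014d87014d07014a0701498700a58f009e87009e07009807008607008587 = true := by
  decide +kernel

theorem tn_g2 {f : ℕ → ℕ → ℕ → ℕ → Prop} (hf : Rule f) {a0 b0 x0 y0 : ℕ} (hxy : x0 = y0)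
    (ha : a0 % 2 = 1) (hb : b0 % 2 = 0) (hx : x0 % 2 = 1) (hy : y0 % 2 = 1)
    (h1 : ∀ j n p q : ℕ, InR 5 4 7 7 1 j n p q →
      ((j = 1 ∧ n = 2 ∧ p = 5 ∧ q = 2) ∨ (j = 3 ∧ n = 1 ∧ p = 4 ∧ q = 4) ∨ (j = 5 ∧ n = 2 ∧ p = 3 ∧ q = 2) ∨ (j = 5 ∧ n = 2 ∧ p = 5 ∧ q = 2) ∨ (j = 5 ∧ n = 2 ∧ p = 5 ∧ q = 4)) →
      f (a0 + j) (b0 + n) (x0 + p) (y0 + q))
    (h0 : ∀ j n p q : ℕ, InR 5 4 7 7 1 j n p q →
      ((j = 1 ∧ n = 1 ∧ p = 3 ∧ q = 1) ∨ (j = 1 ∧ n = 1 ∧ p = 3 ∧ q = 2) ∨ (j = 1 ∧ n = 2 ∧ p = 3 ∧ q = 2) ∨ (j = 3 ∧ n = 1 ∧ p = 3 ∧ q = 1) ∨ (j = 3 ∧ n = 1 ∧ p = 3 ∧ q = 2) ∨ (j = 3 ∧ n = 1 ∧ p = 4 ∧ q = 1) ∨ (j = 3 ∧ n = 1 ∧ p = 4 ∧ q = 2) ∨ (j = 3 ∧ n = 1 ∧ p = 5 ∧ q = 2) ∨ (j = 3 ∧ n = 1 ∧ p = 5 ∧ q = 3)) →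
      ¬ f (a0 + j) (b0 + n) (x0 + p) (y0 + q)) : False :=
  check_sound hf tn_g2_chk
    ⟨fun _ => hxy, fun h => absurd h (by decide),
      fun h => absurd h (by decide), ha, hb, hx, hy⟩
    (fun j n p q hr h => h1 j n p q hr (of_decide_eq_true h))
    (fun j n p q hr h => h0 j n p q hr (of_decide_eq_true h))

theorem tn_g3_chk : check 5 4 5 5 1 0 1 0 0
    (fun j n p q => decide ((j = 1 ∧ n = 2 ∧ p = 3 ∧ q = 1) ∨ (j = 1 ∧ n = 2 ∧ p = 3 ∧ q = 3) ∨ (j = 5 ∧ n = 2 ∧ p = 1 ∧ q = 1) ∨ (j = 5 ∧ n = 2 ∧ p = 1 ∧ q = 3) ∨ (j = 5 ∧ n = 2 ∧ p = 3 ∧ q = 1) ∨ (j = 5 ∧ n = 2 ∧ p = 3 ∧ q = 3)))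
    (fun j n p q => decide ((j = 1 ∧ n = 1 ∧ p = 1 ∧ q = 1) ∨ (j = 1 ∧ n = 1 ∧ p = 1 ∧ q = 2) ∨ (j = 1 ∧ n = 2 ∧ p = 1 ∧ q = 1) ∨ (j = 3 ∧ n = 1 ∧ p = 1 ∧ q = 1) ∨ (j = 3 ∧ n = 1 ∧ p = 1 ∧ q = 2) ∨ (j = 3 ∧ n = 1 ∧ p = 1 ∧ q = 3) ∨ (j = 3 ∧ n = 1 ∧ p = 2 ∧ q = 1) ∨ (j = 3 ∧ n = 1 ∧ p = 2 ∧ q = 2) ∨ (j = 3 ∧ n = 1 ∧ p = 2 ∧ q = 3) ∨ (j = 3 ∧ n = 1 ∧ p = 3 ∧ q = 1) ∨ (j = 3 ∧ n = 1 ∧ p = 3 ∧ q = 2) ∨ (j = 3 ∧ n = 1 ∧ p = 3 ∧ q = 3)))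
    54
    0xe98300760000832a00b80000b30000ea4200e7d200e98300760000832a00b58000b58400e70300738000738400e78300808000808400e98300828000828400e70300800000800400830300b50000b504011c00011b00011700011600005400005300011c0f011b0f01170f01160f00b78700b28700ab8700ab0700aa8700a90700a88700a80700a68700a60700a58700540f00530f004e87004e07004207004187 = true := by
  decide +kernel

theorem tn_g3 {f : ℕ → ℕ → ℕ → ℕ → Prop} (hf : Rule f) {a0 b0 x0 y0 : ℕ}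
    (ha : a0 % 2 = 1) (hb : b0 % 2 = 0) (hx : x0 % 2 = 1) (hy : y0 % 2 = 0)
    (h1 : ∀ j n p q : ℕ, InR 5 4 5 5 1 j n p q →
      ((j = 1 ∧ n = 2 ∧ p = 3 ∧ q = 1) ∨ (j = 1 ∧ n = 2 ∧ p = 3 ∧ q = 3) ∨ (j = 5 ∧ n = 2 ∧ p = 1 ∧ q = 1) ∨ (j = 5 ∧ n = 2 ∧ p = 1 ∧ q = 3) ∨ (j = 5 ∧ n = 2 ∧ p = 3 ∧ q = 1) ∨ (j = 5 ∧ n = 2 ∧ p = 3 ∧ q = 3)) →
      f (a0 + j) (b0 + n) (x0 + p) (y0 + q))
    (h0 : ∀ j n p q : ℕ, InR 5 4 5 5 1 j n p q →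
      ((j = 1 ∧ n = 1 ∧ p = 1 ∧ q = 1) ∨ (j = 1 ∧ n = 1 ∧ p = 1 ∧ q = 2) ∨ (j = 1 ∧ n = 2 ∧ p = 1 ∧ q = 1) ∨ (j = 3 ∧ n = 1 ∧ p = 1 ∧ q = 1) ∨ (j = 3 ∧ n = 1 ∧ p = 1 ∧ q = 2) ∨ (j = 3 ∧ n = 1 ∧ p = 1 ∧ q = 3) ∨ (j = 3 ∧ n = 1 ∧ p = 2 ∧ q = 1) ∨ (j = 3 ∧ n = 1 ∧ p = 2 ∧ q = 2) ∨ (j = 3 ∧ n = 1 ∧ p = 2 ∧ q = 3) ∨ (j = 3 ∧ n = 1 ∧ p = 3 ∧ q = 1) ∨ (j = 3 ∧ n = 1 ∧ p = 3 ∧ q = 2) ∨ (j = 3 ∧ n = 1 ∧ p = 3 ∧ q = 3)) →
      ¬ f (a0 + j) (b0 + n) (x0 + p) (y0 + q)) : False :=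
  check_sound hf tn_g3_chk
    ⟨fun h => absurd h (by decide), fun h => absurd h (by decide),
      fun h => absurd h (by decide), ha, hb, hx, hy⟩
    (fun j n p q hr h => h1 j n p q hr (of_decide_eq_true h))
    (fun j n p q hr h => h0 j n p q hr (of_decide_eq_true h))

theorem tn_g4_chk : check 3 4 5 4 1 0 1 0 0
    (fun j n p q => decide ((j = 1 ∧ n = 2 ∧ p = 3 ∧ q = 1) ∨ (j = 3 ∧ n = 2 ∧ p = 2 ∧ q = 2)))
    (fun j n p q => decide ((j = 1 ∧ n = 1 ∧ p = 1 ∧ q = 1) ∨ (j = 1 ∧ n = 1 ∧ p = 1 ∧ q = 2) ∨ (j = 1 ∧ n = 1 ∧ p = 2 ∧ q = 2) ∨ (j = 1 ∧ n = 2 ∧ p = 1 ∧ q = 1) ∨ (j = 1 ∧ n = 2 ∧ p = 2 ∧ q = 2)))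
    11
    0x690300910000428000910f00428f004107003f07003e87003707003507003487 = true := by
  decide +kernel

theorem tn_g4 {f : ℕ → ℕ → ℕ → ℕ → Prop} (hf : Rule f) {a0 b0 x0 y0 : ℕ}
    (ha : a0 % 2 = 1) (hb : b0 % 2 = 0) (hx : x0 % 2 = 1) (hy : y0 % 2 = 0)
    (h1 : ∀ j n p q : ℕ, InR 3 4 5 4 1 j n p q →
      ((j = 1 ∧ n = 2 ∧ p = 3 ∧ q = 1) ∨ (j = 3 ∧ n = 2 ∧ p = 2 ∧ q = 2)) →
      f (a0 + j) (b0 + n) (x0 + p) (y0 + q))
    (h0 : ∀ j n p q : ℕ, InR 3 4 5 4 1 j n p q →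
      ((j = 1 ∧ n = 1 ∧ p = 1 ∧ q = 1) ∨ (j = 1 ∧ n = 1 ∧ p = 1 ∧ q = 2) ∨ (j = 1 ∧ n = 1 ∧ p = 2 ∧ q = 2) ∨ (j = 1 ∧ n = 2 ∧ p = 1 ∧ q = 1) ∨ (j = 1 ∧ n = 2 ∧ p = 2 ∧ q = 2)) →
      ¬ f (a0 + j) (b0 + n) (x0 + p) (y0 + q)) : False :=
  check_sound hf tn_g4_chk
    ⟨fun h => absurd h (by decide), fun h => absurd h (by decide),
      fun h => absurd h (by decide), ha, hb, hx, hy⟩
    (fun j n p q hr h => h1 j n p q hr (of_decide_eq_true h))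
    (fun j n p q hr h => h0 j n p q hr (of_decide_eq_true h))

theorem tn_g5_chk : check 6 6 8 9 0 0 1 1 0
    (fun j n p q => decide ((j = 2 ∧ n = 1 ∧ p = 1 ∧ q = 1) ∨ (j = 2 ∧ n = 1 ∧ p = 3 ∧ q = 3) ∨ (j = 2 ∧ n = 1 ∧ p = 4 ∧ q = 2) ∨ (j = 2 ∧ n = 1 ∧ p = 6 ∧ q = 4) ∨ (j = 4 ∧ n = 1 ∧ p = 2 ∧ q = 2) ∨ (j = 4 ∧ n = 1 ∧ p = 4 ∧ q = 4) ∨ (j = 4 ∧ n = 2 ∧ p = 6 ∧ q = 5) ∨ (j = 4 ∧ n = 3 ∧ p = 6 ∧ q = 4) ∨ (j = 4 ∧ n = 4 ∧ p = 6 ∧ q = 7) ∨ (j = 6 ∧ n = 2 ∧ p = 2 ∧ q = 5) ∨ (j = 6 ∧ n = 2 ∧ p = 2 ∧ q = 7) ∨ (j = 6 ∧ n = 2 ∧ p = 4 ∧ q = 5) ∨ (j = 6 ∧ n = 2 ∧ p = 4 ∧ q = 7)))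
    (fun j n p q => decide ((j = 1 ∧ n = 1 ∧ p = 2 ∧ q = 1) ∨ (j = 1 ∧ n = 2 ∧ p = 2 ∧ q = 1) ∨ (j = 1 ∧ n = 2 ∧ p = 3 ∧ q = 1) ∨ (j = 1 ∧ n = 2 ∧ p = 3 ∧ q = 2) ∨ (j = 1 ∧ n = 3 ∧ p = 5 ∧ q = 4) ∨ (j = 1 ∧ n = 3 ∧ p = 5 ∧ q = 5) ∨ (j = 1 ∧ n = 3 ∧ p = 6 ∧ q = 4) ∨ (j = 1 ∧ n = 3 ∧ p = 6 ∧ q = 5) ∨ (j = 1 ∧ n = 4 ∧ p = 5 ∧ q = 4) ∨ (j = 1 ∧ n = 4 ∧ p = 5 ∧ q = 5) ∨ (j = 1 ∧ n = 4 ∧ p = 6 ∧ q = 4) ∨ (j = 1 ∧ n = 4 ∧ p = 6 ∧ q = 5) ∨ (j = 2 ∧ n = 1 ∧ p = 1 ∧ q = 3) ∨ (j = 2 ∧ n = 1 ∧ p = 2 ∧ q = 4) ∨ (j = 2 ∧ n = 1 ∧ p = 2 ∧ q = 5) ∨ (j = 2 ∧ n = 1 ∧ p = 3 ∧ q = 5) ∨ (j = 4 ∧ n = 1 ∧ p = 2 ∧ q = 4) ∨ (j = 4 ∧ n = 1 ∧ p = 3 ∧ q = 5) ∨ (j = 4 ∧ n = 1 ∧ p = 3 ∧ q = 6) ∨ (j = 4 ∧ n = 1 ∧ p = 4 ∧ q = 6) ∨ (j = 4 ∧ n = 2 ∧ p = 3 ∧ q = 4)))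
    89
    0x4908302b78002e03203040003e0d203bd0004954203040502038003e0d202e05203b88003b88403e500040e3a025d83033580033584023000030842025d83033580040e4a03080003080402068002068102028002dac203b300021080048fd202e8c2056d80056c80056480056380040e8003e90003c580039800038e0001f10001e70001e30001d900056d8f056c8f05648f05638f040e8f04090703e90f03c58f03b80703b78703b70703990703980f039487039407038f07038e0f02590702100702080702070702060701fe0701f10f01e70f01e40701e30f01df8701df0701da0701d90f018587018507018107018087016187016107015d07015c87012e87012e07012987010587 = true := by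
  decide +kernel

theorem tn_g5 {f : ℕ → ℕ → ℕ → ℕ → Prop} (hf : Rule f) {a0 b0 x0 y0 : ℕ}
    (ha : a0 % 2 = 0) (hb : b0 % 2 = 0) (hx : x0 % 2 = 1) (hy : y0 % 2 = 1)
    (h1 : ∀ j n p q : ℕ, InR 6 6 8 9 1 j n p q →
      ((j = 2 ∧ n = 1 ∧ p = 1 ∧ q = 1) ∨ (j = 2 ∧ n = 1 ∧ p = 3 ∧ q = 3) ∨ (j = 2 ∧ n = 1 ∧ p = 4 ∧ q = 2) ∨ (j = 2 ∧ n = 1 ∧ p = 6 ∧ q = 4) ∨ (j = 4 ∧ n = 1 ∧ p = 2 ∧ q = 2) ∨ (j = 4 ∧ n = 1 ∧ p = 4 ∧ q = 4) ∨ (j = 4 ∧ n = 2 ∧ p = 6 ∧ q = 5) ∨ (j = 4 ∧ n = 3 ∧ p = 6 ∧ q = 4) ∨ (j = 4 ∧ n = 4 ∧ p = 6 ∧ q = 7) ∨ (j = 6 ∧ n = 2 ∧ p = 2 ∧ q = 5) ∨ (j = 6 ∧ n = 2 ∧ p = 2 ∧ q = 7) ∨ (j = 6 ∧ n = 2 ∧ p = 4 ∧ q = 5) ∨ (j = 6 ∧ n = 2 ∧ p = 4 ∧ q = 7)) →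
      f (a0 + j) (b0 + n) (x0 + p) (y0 + q))
    (h0 : ∀ j n p q : ℕ, InR 6 6 8 9 1 j n p q →
      ((j = 1 ∧ n = 1 ∧ p = 2 ∧ q = 1) ∨ (j = 1 ∧ n = 2 ∧ p = 2 ∧ q = 1) ∨ (j = 1 ∧ n = 2 ∧ p = 3 ∧ q = 1) ∨ (j = 1 ∧ n = 2 ∧ p = 3 ∧ q = 2) ∨ (j = 1 ∧ n = 3 ∧ p = 5 ∧ q = 4) ∨ (j = 1 ∧ n = 3 ∧ p = 5 ∧ q = 5) ∨ (j = 1 ∧ n = 3 ∧ p = 6 ∧ q = 4) ∨ (j = 1 ∧ n = 3 ∧ p = 6 ∧ q = 5) ∨ (j = 1 ∧ n = 4 ∧ p = 5 ∧ q = 4) ∨ (j = 1 ∧ n = 4 ∧ p = 5 ∧ q = 5) ∨ (j = 1 ∧ n = 4 ∧ p = 6 ∧ q = 4) ∨ (j = 1 ∧ n = 4 ∧ p = 6 ∧ q = 5) ∨ (j = 2 ∧ n = 1 ∧ p = 1 ∧ q = 3) ∨ (j = 2 ∧ n = 1 ∧ p = 2 ∧ q = 4) ∨ (j = 2 ∧ n = 1 ∧ p = 2 ∧ q = 5) ∨ (j = 2 ∧ n = 1 ∧ p = 3 ∧ q = 5) ∨ (j = 4 ∧ n = 1 ∧ p = 2 ∧ q = 4) ∨ (j = 4 ∧ n = 1 ∧ p = 3 ∧ q = 5) ∨ (j = 4 ∧ n = 1 ∧ p = 3 ∧ q = 6) ∨ (j = 4 ∧ n = 1 ∧ p = 4 ∧ q = 6) ∨ (j = 4 ∧ n = 2 ∧ p = 3 ∧ q = 4)) →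
      ¬ f (a0 + j) (b0 + n) (x0 + p) (y0 + q)) : False :=
  check_sound hf tn_g5_chk
    ⟨fun h => absurd h (by decide), fun h => absurd h (by decide),
      fun h => absurd h (by decide), ha, hb, hx, hy⟩
    (fun j n p q hr h => h1 j n p q hr (of_decide_eq_true h))
    (fun j n p q hr h => h0 j n p q hr (of_decide_eq_true h))

theorem tn_g8_chk : check 5 4 6 5 1 0 1 1 0
    (fun j n p q => decide ((j = 1 ∧ n = 2 ∧ p = 2 ∧ q = 3) ∨ (j = 5 ∧ n = 2 ∧ p = 2 ∧ q = 1) ∨ (j = 5 ∧ n = 2 ∧ p = 2 ∧ q = 3) ∨ (j = 5 ∧ n = 2 ∧ p = 4 ∧ q = 3)))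
    (fun j n p q => decide ((j = 1 ∧ n = 1 ∧ p = 1 ∧ q = 1) ∨ (j = 1 ∧ n = 1 ∧ p = 2 ∧ q = 1) ∨ (j = 1 ∧ n = 2 ∧ p = 2 ∧ q = 1) ∨ (j = 3 ∧ n = 1 ∧ p = 1 ∧ q = 1) ∨ (j = 3 ∧ n = 1 ∧ p = 1 ∧ q = 2) ∨ (j = 3 ∧ n = 1 ∧ p = 2 ∧ q = 1) ∨ (j = 3 ∧ n = 1 ∧ p = 2 ∧ q = 2) ∨ (j = 3 ∧ n = 1 ∧ p = 2 ∧ q = 3) ∨ (j = 3 ∧ n = 1 ∧ p = 3 ∧ q = 2) ∨ (j = 3 ∧ n = 1 ∧ p = 3 ∧ q = 3)))
    34
    0x9c0300d58001145200da8001174a009c0300d78001144a00d88000d884009c0300d80000d804015580015080014f8000608001558f01508f014f8f00db0700d50700cc0700cb8700c98700c90700c88700c68700c60700608f005f87005d07005087004e07 = true := by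
  decide +kernel

theorem tn_g8 {f : ℕ → ℕ → ℕ → ℕ → Prop} (hf : Rule f) {a0 b0 x0 y0 : ℕ}
    (ha : a0 % 2 = 1) (hb : b0 % 2 = 0) (hx : x0 % 2 = 1) (hy : y0 % 2 = 1)
    (h1 : ∀ j n p q : ℕ, InR 5 4 6 5 1 j n p q →
      ((j = 1 ∧ n = 2 ∧ p = 2 ∧ q = 3) ∨ (j = 5 ∧ n = 2 ∧ p = 2 ∧ q = 1) ∨ (j = 5 ∧ n = 2 ∧ p = 2 ∧ q = 3) ∨ (j = 5 ∧ n = 2 ∧ p = 4 ∧ q = 3)) →
      f (a0 + j) (b0 + n) (x0 + p) (y0 + q))
    (h0 : ∀ j n p q : ℕ, InR 5 4 6 5 1 j n p q →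
      ((j = 1 ∧ n = 1 ∧ p = 1 ∧ q = 1) ∨ (j = 1 ∧ n = 1 ∧ p = 2 ∧ q = 1) ∨ (j = 1 ∧ n = 2 ∧ p = 2 ∧ q = 1) ∨ (j = 3 ∧ n = 1 ∧ p = 1 ∧ q = 1) ∨ (j = 3 ∧ n = 1 ∧ p = 1 ∧ q = 2) ∨ (j = 3 ∧ n = 1 ∧ p = 2 ∧ q = 1) ∨ (j = 3 ∧ n = 1 ∧ p = 2 ∧ q = 2) ∨ (j = 3 ∧ n = 1 ∧ p = 2 ∧ q = 3) ∨ (j = 3 ∧ n = 1 ∧ p = 3 ∧ q = 2) ∨ (j = 3 ∧ n = 1 ∧ p = 3 ∧ q = 3)) →
      ¬ f (a0 + j) (b0 + n) (x0 + p) (y0 + q)) : False :=
  check_sound hf tn_g8_chk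
    ⟨fun h => absurd h (by decide), fun h => absurd h (by decide),
      fun h => absurd h (by decide), ha, hb, hx, hy⟩
    (fun j n p q hr h => h1 j n p q hr (of_decide_eq_true h))
    (fun j n p q hr h => h0 j n p q hr (of_decide_eq_true h))

theorem tn_g9_chk : check 3 4 5 5 1 0 1 1 0
    (fun j n p q => decide ((j = 1 ∧ n = 2 ∧ p = 2 ∧ q = 3) ∨ (j = 3 ∧ n = 2 ∧ p = 1 ∧ q = 2) ∨ (j = 3 ∧ n = 2 ∧ p = 3 ∧ q = 2)))
    (fun j n p q => decide ((j = 1 ∧ n = 1 ∧ p = 1 ∧ q = 1) ∨ (j = 1 ∧ n = 1 ∧ p = 2 ∧ q = 1) ∨ (j = 1 ∧ n = 2 ∧ p = 2 ∧ q = 1)))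
    11
    0x830300b78000b28000518000b78f00b28f00518f005087004e07004407004187 = true := by
  decide +kernel

theorem tn_g9 {f : ℕ → ℕ → ℕ → ℕ → Prop} (hf : Rule f) {a0 b0 x0 y0 : ℕ}
    (ha : a0 % 2 = 1) (hb : b0 % 2 = 0) (hx : x0 % 2 = 1) (hy : y0 % 2 = 1)
    (h1 : ∀ j n p q : ℕ, InR 3 4 5 5 1 j n p q →
      ((j = 1 ∧ n = 2 ∧ p = 2 ∧ q = 3) ∨ (j = 3 ∧ n = 2 ∧ p = 1 ∧ q = 2) ∨ (j = 3 ∧ n = 2 ∧ p = 3 ∧ q = 2)) →
      f (a0 + j) (b0 + n) (x0 + p) (y0 + q))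
    (h0 : ∀ j n p q : ℕ, InR 3 4 5 5 1 j n p q →
      ((j = 1 ∧ n = 1 ∧ p = 1 ∧ q = 1) ∨ (j = 1 ∧ n = 1 ∧ p = 2 ∧ q = 1) ∨ (j = 1 ∧ n = 2 ∧ p = 2 ∧ q = 1)) →
      ¬ f (a0 + j) (b0 + n) (x0 + p) (y0 + q)) : False :=
  check_sound hf tn_g9_chk
    ⟨fun h => absurd h (by decide), fun h => absurd h (by decide),
      fun h => absurd h (by decide), ha, hb, hx, hy⟩
    (fun j n p q hr h => h1 j n p q hr (of_decide_eq_true h))
    (fun j n p q hr h => h0 j n p q hr (of_decide_eq_true h))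

end Pool.Agent.SNT.Loc

namespace Pool.Agent.SNT.LW

open Loc

variable {f : ℕ → ℕ → ℕ → ℕ → Prop}

/-- The window of the missing tip `m` of the layer `6 k + 2` in its IN row `B`. -/
structure TN (f : ℕ → ℕ → ℕ → ℕ → Prop) (k B m : ℕ) : Prop where
  hk : 8 ≤ k
  hB : B % 2 = 0
  h4 : (6 * k + 2 + B) % 4 = 2
  hb : 12 * k + 100 ≤ B
  hm : 6 * k + 100 ≤ m
  c0 : Cyc f (6 * k) (B - 2) (2 * (m - 3) + 2)
  c2a : Cyc f (6 * k + 2) (B - 4) (2 * (m - 5) + 2)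
  c2 : Cyc f (6 * k + 2) B (2 * m + 2)
  c4a : Cyc f (6 * k + 4) (B - 2) (2 * (m - 3) + 2)
  c4 : Cyc f (6 * k + 4) (B + 2) (2 * (m + k - 1) + 2)
  c6 : Cyc f (6 * k + 6) B (2 * (m - 1) + 2)
  c6b : Cyc f (6 * k + 6) (B + 4) (2 * (m + k + 1) + 2)
  lw : ∀ M R x y : ℕ, M + 1 = 6 * k → B ≤ R + 4 → R ≤ B + 8 → 2 * m ≤ x + 30 → y ≤ x →
    x ≤ y + 2 * k + 8 → ¬ f M R x y

variable {k B m : ℕ}

theorem TN.lc0 (H : TN f k B m) : Lay (6 * k) (B - 2) k := by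
  have h1 := H.hk
  have h2 := H.h4
  have h3 := H.hb
  exact ⟨by omega, by omega, by omega, by omega⟩

theorem TN.lc2a (H : TN f k B m) : Lay (6 * k + 2) (B - 4) k := by
  have h1 := H.hk
  have h2 := H.h4
  have h3 := H.hb
  exact ⟨by omega, by omega, by omega, by omega⟩

theorem TN.lc2 (H : TN f k B m) : Lay (6 * k + 2) B k := by
  have h1 := H.hk
  have h2 := H.h4
  have h3 := H.hb
  exact ⟨by omega, by omega, by omega, by omega⟩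

theorem TN.lc4a (H : TN f k B m) : Lay (6 * k + 4) (B - 2) k := by
  have h1 := H.hk
  have h2 := H.h4
  have h3 := H.hb
  exact ⟨by omega, by omega, by omega, by omega⟩

theorem TN.lc4 (H : TN f k B m) : Lay (6 * k + 4) (B + 2) k := by
  have h1 := H.hk
  have h2 := H.h4
  have h3 := H.hb
  exact ⟨by omega, by omega, by omega, by omega⟩

theorem TN.lc6 (H : TN f k B m) : Lay (6 * k + 6) B (k + 1) := by
  have h1 := H.hk
  have h2 := H.h4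
  have h3 := H.hb
  exact ⟨by omega, by omega, by omega, by omega⟩

theorem TN.lc6b (H : TN f k B m) : Lay (6 * k + 6) (B + 4) (k + 1) := by
  have h1 := H.hk
  have h2 := H.h4
  have h3 := H.hb
  exact ⟨by omega, by omega, by omega, by omega⟩

/-- The turn at the diagonal. -/
theorem TN.turn0 (hf : Rule f) (H : TN f k B m) (tip : ¬ f (6 * k + 2) B (2 * m + 1) (2 * m)) :
    ¬ f (6 * k + 2) (B + 2) (2 * m + 4) (2 * m + 3) := by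
  have e1 := H.hk
  have e2 := H.hB
  have e3 := H.h4
  have e4 := H.hb
  have e5 := H.hm
  intro hX
  refine Loc.tn_g1 hf (a0 := 6 * k - 1) (b0 := B - 2) (x0 := 2 * m - 2) (y0 := 2 * m - 2) rfl (by omega) (by omega) (by omega) (by omega) ?_ ?_
  · intro j n p q _ hx
    rcases hx with ⟨rfl, rfl, rfl, rfl⟩ | ⟨rfl, rfl, rfl, rfl⟩ | ⟨rfl, rfl, rfl, rfl⟩ | ⟨rfl, rfl, rfl, rfl⟩ | ⟨rfl, rfl, rfl, rfl⟩ | ⟨rfl, rfl, rfl, rfl⟩ | ⟨rfl, rfl, rfl, rfl⟩ | ⟨rfl, rfl, rfl, rfl⟩ | ⟨rfl, rfl, rfl, rfl⟩ | ⟨rfl, rfl, rfl, rfl⟩ | ⟨rfl, rfl, rfl, rfl⟩ | ⟨rfl, rfl, rfl, rfl⟩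
    · exact (v1 H.lc0 H.c0 (by omega) (by omega) (by omega) (by omega) (by omega)).2 (by unfold V1; omega)
    · exact (v2s H.lc0 H.c0 (by omega) (by omega) (by omega) (by omega) (by omega) (by omega)).2 (by unfold V2; omega)
    · exact (v2s H.lc0 H.c0 (by omega) (by omega) (by omega) (by omega) (by omega) (by omega)).2 (by unfold V2; omega)
    · exact (v2s H.lc0 H.c0 (by omega) (by omega) (by omega) (by omega) (by omega) (by omega)).2 (by unfold V2; omega)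
    · exact (v2s H.lc0 H.c0 (by omega) (by omega) (by omega) (by omega) (by omega) (by omega)).2 (by unfold V2; omega)
    · exact (v3s H.lc0 H.c0 (by omega) (by omega) (by omega) (by omega) (by omega) (by omega)).2 (by unfold V3; omega)
    · exact (v3s H.lc2a H.c2a (by omega) (by omega) (by omega) (by omega) (by omega) (by omega)).2 (by unfold V3; omega)
    · exact (v3s H.lc2a H.c2a (by omega) (by omega) (by omega) (by omega) (by omega) (by omega)).2 (by unfold V3; omega)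
    · exact mv hX (by omega) (by omega) (by omega) (by omega)
    · exact (v2s H.lc4a H.c4a (by omega) (by omega) (by omega) (by omega) (by omega) (by omega)).2 (by unfold V2; omega)
    · exact (v2s H.lc4a H.c4a (by omega) (by omega) (by omega) (by omega) (by omega) (by omega)).2 (by unfold V2; omega)
    · exact (v2s H.lc4a H.c4a (by omega) (by omega) (by omega) (by omega) (by omega) (by omega)).2 (by unfold V2; omega)
  · intro j n p q _ hx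
    rcases hx with ⟨rfl, rfl, rfl, rfl⟩ | ⟨rfl, rfl, rfl, rfl⟩ | ⟨rfl, rfl, rfl, rfl⟩ | ⟨rfl, rfl, rfl, rfl⟩
    · exact fun t => absurd ((v3s H.lc2a H.c2a (by omega) (by omega) (by omega) (by omega) (by omega) (by omega)).1 t) (by unfold V3; omega)
    · exact fun t => absurd ((v3s H.lc2a H.c2a (by omega) (by omega) (by omega) (by omega) (by omega) (by omega)).1 t) (by unfold V3; omega)
    · exact fun t => absurd ((v3s H.lc2a H.c2a (by omega) (by omega) (by omega) (by omega) (by omega) (by omega)).1 t) (by unfold V3; omega)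
    · exact fun t => tip (mv t (by omega) (by omega) (by omega) (by omega))

/-- The first step of the OUT line. -/
theorem TN.step0 (hf : Rule f) (H : TN f k B m)
    (h0 : ¬ f (6 * k + 2) (B + 2) (2 * m + 4) (2 * m + 3)) :
    ¬ f (6 * k + 2) (B + 2) (2 * m + 6) (2 * m + 3) := by
  have e1 := H.hk
  have e2 := H.hB
  have e3 := H.h4
  have e4 := H.hb
  have e5 := H.hm
  intro hX
  refine Loc.tn_g2 hf (a0 := 6 * k + 1) (b0 := B) (x0 := 2 * m + 1) (y0 := 2 * m + 1) rfl (by omega) (by omega) (by omega) (by omega) ?_ ?_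
  · intro j n p q _ hx
    rcases hx with ⟨rfl, rfl, rfl, rfl⟩ | ⟨rfl, rfl, rfl, rfl⟩ | ⟨rfl, rfl, rfl, rfl⟩ | ⟨rfl, rfl, rfl, rfl⟩ | ⟨rfl, rfl, rfl, rfl⟩
    · exact mv hX (by omega) (by omega) (by omega) (by omega)
    · exact (v3s H.lc4a H.c4a (by omega) (by omega) (by omega) (by omega) (by omega) (by omega)).2 (by unfold V3; omega)
    · exact (v2s H.lc6 H.c6 (by omega) (by omega) (by omega) (by omega) (by omega) (by omega)).2 (by unfold V2; omega)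
    · exact (v2s H.lc6 H.c6 (by omega) (by omega) (by omega) (by omega) (by omega) (by omega)).2 (by unfold V2; omega)
    · exact (v2s H.lc6 H.c6 (by omega) (by omega) (by omega) (by omega) (by omega) (by omega)).2 (by unfold V2; omega)
  · intro j n p q _ hx
    rcases hx with ⟨rfl, rfl, rfl, rfl⟩ | ⟨rfl, rfl, rfl, rfl⟩ | ⟨rfl, rfl, rfl, rfl⟩ | ⟨rfl, rfl, rfl, rfl⟩ | ⟨rfl, rfl, rfl, rfl⟩ | ⟨rfl, rfl, rfl, rfl⟩ | ⟨rfl, rfl, rfl, rfl⟩ | ⟨rfl, rfl, rfl, rfl⟩ | ⟨rfl, rfl, rfl, rfl⟩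
    · exact fun t => absurd ((v1s H.lc2 H.c2 (by omega) (by omega) (by omega) (by omega) (by omega) (by omega)).1 t) (by unfold V1; omega)
    · exact fun t => absurd ((v1s H.lc2 H.c2 (by omega) (by omega) (by omega) (by omega) (by omega) (by omega)).1 t) (by unfold V1; omega)
    · exact fun t => h0 (mv t (by omega) (by omega) (by omega) (by omega))
    · exact fun t => absurd ((v3s H.lc4a H.c4a (by omega) (by omega) (by omega) (by omega) (by omega) (by omega)).1 t) (by unfold V3; omega)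
    · exact fun t => absurd ((v3s H.lc4a H.c4a (by omega) (by omega) (by omega) (by omega) (by omega) (by omega)).1 t) (by unfold V3; omega)
    · exact fun t => absurd ((v3s H.lc4a H.c4a (by omega) (by omega) (by omega) (by omega) (by omega) (by omega)).1 t) (by unfold V3; omega)
    · exact fun t => absurd ((v3s H.lc4a H.c4a (by omega) (by omega) (by omega) (by omega) (by omega) (by omega)).1 t) (by unfold V3; omega)
    · exact fun t => absurd ((v3s H.lc4a H.c4a (by omega) (by omega) (by omega) (by omega) (by omega) (by omega)).1 t) (by unfold V3; omega)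
    · exact fun t => absurd ((v3s H.lc4a H.c4a (by omega) (by omega) (by omega) (by omega) (by omega) (by omega)).1 t) (by unfold V3; omega)

/-- The steps of the OUT line. -/
theorem TN.step1 (hf : Rule f) (H : TN f k B m) {x : ℕ} (hx2 : x % 2 = 0)
    (hx : 2 * m + 6 ≤ x) (hxk : x + 2 ≤ 2 * m + 2 * k)
    (h0 : ¬ f (6 * k + 2) (B + 2) x (2 * m + 3)) :
    ¬ f (6 * k + 2) (B + 2) (x + 2) (2 * m + 3) := by
  have e1 := H.hk
  have e2 := H.hB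
  have e3 := H.h4
  have e4 := H.hb
  have e5 := H.hm
  intro hX
  refine Loc.tn_g3 hf (a0 := 6 * k + 1) (b0 := B) (x0 := x + 2 - 3) (y0 := 2 * m + 2) (by omega) (by omega) (by omega) (by omega) ?_ ?_
  · intro j n p q _ hx
    rcases hx with ⟨rfl, rfl, rfl, rfl⟩ | ⟨rfl, rfl, rfl, rfl⟩ | ⟨rfl, rfl, rfl, rfl⟩ | ⟨rfl, rfl, rfl, rfl⟩ | ⟨rfl, rfl, rfl, rfl⟩ | ⟨rfl, rfl, rfl, rfl⟩
    · exact mv hX (by omega) (by omega) (by omega) (by omega)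
    · exact (v2s H.lc2 H.c2 (by omega) (by omega) (by omega) (by omega) (by omega) (by omega)).2 (by unfold V2; omega)
    · exact (v2s H.lc6 H.c6 (by omega) (by omega) (by omega) (by omega) (by omega) (by omega)).2 (by unfold V2; omega)
    · exact (v2s H.lc6 H.c6 (by omega) (by omega) (by omega) (by omega) (by omega) (by omega)).2 (by unfold V2; omega)
    · exact (v2s H.lc6 H.c6 (by omega) (by omega) (by omega) (by omega) (by omega) (by omega)).2 (by unfold V2; omega)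
    · exact (v2s H.lc6 H.c6 (by omega) (by omega) (by omega) (by omega) (by omega) (by omega)).2 (by unfold V2; omega)
  · intro j n p q _ hx
    rcases hx with ⟨rfl, rfl, rfl, rfl⟩ | ⟨rfl, rfl, rfl, rfl⟩ | ⟨rfl, rfl, rfl, rfl⟩ | ⟨rfl, rfl, rfl, rfl⟩ | ⟨rfl, rfl, rfl, rfl⟩ | ⟨rfl, rfl, rfl, rfl⟩ | ⟨rfl, rfl, rfl, rfl⟩ | ⟨rfl, rfl, rfl, rfl⟩ | ⟨rfl, rfl, rfl, rfl⟩ | ⟨rfl, rfl, rfl, rfl⟩ | ⟨rfl, rfl, rfl, rfl⟩ | ⟨rfl, rfl, rfl, rfl⟩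
    · exact fun t => absurd ((v1 H.lc2 H.c2 (by omega) (by omega) (by omega) (by omega) (by omega)).1 t) (by unfold V1; omega)
    · exact fun t => absurd ((v1 H.lc2 H.c2 (by omega) (by omega) (by omega) (by omega) (by omega)).1 t) (by unfold V1; omega)
    · exact fun t => h0 (mv t (by omega) (by omega) (by omega) (by omega))
    · exact fun t => absurd ((v3s H.lc4a H.c4a (by omega) (by omega) (by omega) (by omega) (by omega) (by omega)).1 t) (by unfold V3; omega)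
    · exact fun t => absurd ((v3s H.lc4a H.c4a (by omega) (by omega) (by omega) (by omega) (by omega) (by omega)).1 t) (by unfold V3; omega)
    · exact fun t => absurd ((v3s H.lc4a H.c4a (by omega) (by omega) (by omega) (by omega) (by omega) (by omega)).1 t) (by unfold V3; omega)
    · exact fun t => absurd ((v3s H.lc4a H.c4a (by omega) (by omega) (by omega) (by omega) (by omega) (by omega)).1 t) (by unfold V3; omega)
    · exact fun t => absurd ((v3s H.lc4a H.c4a (by omega) (by omega) (by omega) (by omega) (by omega) (by omega)).1 t) (by unfold V3; omega)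
    · exact fun t => absurd ((v3s H.lc4a H.c4a (by omega) (by omega) (by omega) (by omega) (by omega) (by omega)).1 t) (by unfold V3; omega)
    · exact fun t => absurd ((v3s H.lc4a H.c4a (by omega) (by omega) (by omega) (by omega) (by omega) (by omega)).1 t) (by unfold V3; omega)
    · exact fun t => absurd ((v3s H.lc4a H.c4a (by omega) (by omega) (by omega) (by omega) (by omega) (by omega)).1 t) (by unfold V3; omega)
    · exact fun t => absurd ((v3s H.lc4a H.c4a (by omega) (by omega) (by omega) (by omega) (by omega) (by omega)).1 t) (by unfold V3; omega)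

/-- The last step of the OUT line. -/
theorem TN.step2 (hf : Rule f) (H : TN f k B m)
    (h0 : ¬ f (6 * k + 2) (B + 2) (2 * m + 2 * k) (2 * m + 3)) :
    ¬ f (6 * k + 2) (B + 2) (2 * m + 2 * k + 2) (2 * m + 3) := by
  have e1 := H.hk
  have e2 := H.hB
  have e3 := H.h4
  have e4 := H.hb
  have e5 := H.hm
  intro hX
  refine Loc.tn_g4 hf (a0 := 6 * k + 1) (b0 := B) (x0 := 2 * m + 2 * k - 1) (y0 := 2 * m + 2) (by omega) (by omega) (by omega) (by omega) ?_ ?_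
  · intro j n p q _ hx
    rcases hx with ⟨rfl, rfl, rfl, rfl⟩ | ⟨rfl, rfl, rfl, rfl⟩
    · exact mv hX (by omega) (by omega) (by omega) (by omega)
    · exact (v0 H.lc4 H.c4 (by omega) (by omega) (by omega) (by omega) (by omega)).2 (by unfold V0; omega)
  · intro j n p q _ hx
    rcases hx with ⟨rfl, rfl, rfl, rfl⟩ | ⟨rfl, rfl, rfl, rfl⟩ | ⟨rfl, rfl, rfl, rfl⟩ | ⟨rfl, rfl, rfl, rfl⟩ | ⟨rfl, rfl, rfl, rfl⟩
    · exact fun t => absurd ((v1 H.lc2 H.c2 (by omega) (by omega) (by omega) (by omega) (by omega)).1 t) (by unfold V1; omega)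
    · exact fun t => absurd ((v1 H.lc2 H.c2 (by omega) (by omega) (by omega) (by omega) (by omega)).1 t) (by unfold V1; omega)
    · exact fun t => absurd ((v1 H.lc2 H.c2 (by omega) (by omega) (by omega) (by omega) (by omega)).1 t) (by unfold V1; omega)
    · exact fun t => h0 (mv t (by omega) (by omega) (by omega) (by omega))
    · exact fun t => absurd ((v2s H.lc2 H.c2 (by omega) (by omega) (by omega) (by omega) (by omega) (by omega)).1 t) (by unfold V2; omega)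

/-- The turn at the wall. -/
theorem TN.turn1 (hf : Rule f) (H : TN f k B m)
    (h0 : ¬ f (6 * k + 2) (B + 2) (2 * m + 2 * k + 2) (2 * m + 3)) :
    ¬ f (6 * k + 2) (B + 4) (2 * m + 2 * k + 5) (2 * m + 6) := by
  have e1 := H.hk
  have e2 := H.hB
  have e3 := H.h4
  have e4 := H.hb
  have e5 := H.hm
  intro hX
  refine Loc.tn_g5 hf (a0 := 6 * k - 2) (b0 := B) (x0 := 2 * m + 2 * k - 1) (y0 := 2 * m - 1) (by omega) (by omega) (by omega) (by omega) ?_ ?_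
  · intro j n p q _ hx
    rcases hx with ⟨rfl, rfl, rfl, rfl⟩ | ⟨rfl, rfl, rfl, rfl⟩ | ⟨rfl, rfl, rfl, rfl⟩ | ⟨rfl, rfl, rfl, rfl⟩ | ⟨rfl, rfl, rfl, rfl⟩ | ⟨rfl, rfl, rfl, rfl⟩ | ⟨rfl, rfl, rfl, rfl⟩ | ⟨rfl, rfl, rfl, rfl⟩ | ⟨rfl, rfl, rfl, rfl⟩ | ⟨rfl, rfl, rfl, rfl⟩ | ⟨rfl, rfl, rfl, rfl⟩ | ⟨rfl, rfl, rfl, rfl⟩ | ⟨rfl, rfl, rfl, rfl⟩
    · exact (v3x H.lc0 H.c0 (by omega) (by omega) (by omega) (by omega) (by omega)).2 (by unfold V3; omega)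
    · exact (v3x H.lc0 H.c0 (by omega) (by omega) (by omega) (by omega) (by omega)).2 (by unfold V3; omega)
    · exact (v3x H.lc0 H.c0 (by omega) (by omega) (by omega) (by omega) (by omega)).2 (by unfold V3; omega)
    · exact (v3x H.lc0 H.c0 (by omega) (by omega) (by omega) (by omega) (by omega)).2 (by unfold V3; omega)
    · exact (v1 H.lc2 H.c2 (by omega) (by omega) (by omega) (by omega) (by omega)).2 (by unfold V1; omega)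
    · exact (v1 H.lc2 H.c2 (by omega) (by omega) (by omega) (by omega) (by omega)).2 (by unfold V1; omega)
    · exact (v2x H.lc2 H.c2 (by omega) (by omega) (by omega) (by omega) (by omega) (by omega)).2 (by unfold V2; omega)
    · exact (v3x H.lc2 H.c2 (by omega) (by omega) (by omega) (by omega) (by omega)).2 (by unfold V3; omega)
    · exact mv hX (by omega) (by omega) (by omega) (by omega)
    · exact (v0 H.lc4 H.c4 (by omega) (by omega) (by omega) (by omega) (by omega)).2 (by unfold V0; omega)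
    · exact (v0 H.lc4 H.c4 (by omega) (by omega) (by omega) (by omega) (by omega)).2 (by unfold V0; omega)
    · exact (v0 H.lc4 H.c4 (by omega) (by omega) (by omega) (by omega) (by omega)).2 (by unfold V0; omega)
    · exact (v0 H.lc4 H.c4 (by omega) (by omega) (by omega) (by omega) (by omega)).2 (by unfold V0; omega)
  · intro j n p q _ hx
    rcases hx with ⟨rfl, rfl, rfl, rfl⟩ | ⟨rfl, rfl, rfl, rfl⟩ | ⟨rfl, rfl, rfl, rfl⟩ | ⟨rfl, rfl, rfl, rfl⟩ | ⟨rfl, rfl, rfl, rfl⟩ | ⟨rfl, rfl, rfl, rfl⟩ | ⟨rfl, rfl, rfl, rfl⟩ | ⟨rfl, rfl, rfl, rfl⟩ | ⟨rfl, rfl, rfl, rfl⟩ | ⟨rfl, rfl, rfl, rfl⟩ | ⟨rfl, rfl, rfl, rfl⟩ | ⟨rfl, rfl, rfl, rfl⟩ | ⟨rfl, rfl, rfl, rfl⟩ | ⟨rfl, rfl, rfl, rfl⟩ | ⟨rfl, rfl, rfl, rfl⟩ | ⟨rfl, rfl, rfl, rfl⟩ | ⟨rfl, rfl, rfl, rfl⟩ | ⟨rfl, rfl, rfl, rfl⟩ | ⟨rfl, rfl, rfl, rfl⟩ | ⟨rfl, rfl, rfl, rfl⟩ | ⟨rfl, rfl, rfl, rfl⟩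
    · exact H.lw _ _ _ _ (by omega) (by omega) (by omega) (by omega) (by omega) (by omega)
    · exact H.lw _ _ _ _ (by omega) (by omega) (by omega) (by omega) (by omega) (by omega)
    · exact H.lw _ _ _ _ (by omega) (by omega) (by omega) (by omega) (by omega) (by omega)
    · exact H.lw _ _ _ _ (by omega) (by omega) (by omega) (by omega) (by omega) (by omega)
    · exact H.lw _ _ _ _ (by omega) (by omega) (by omega) (by omega) (by omega) (by omega)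
    · exact H.lw _ _ _ _ (by omega) (by omega) (by omega) (by omega) (by omega) (by omega)
    · exact H.lw _ _ _ _ (by omega) (by omega) (by omega) (by omega) (by omega) (by omega)
    · exact H.lw _ _ _ _ (by omega) (by omega) (by omega) (by omega) (by omega) (by omega)
    · exact H.lw _ _ _ _ (by omega) (by omega) (by omega) (by omega) (by omega) (by omega)
    · exact H.lw _ _ _ _ (by omega) (by omega) (by omega) (by omega) (by omega) (by omega)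
    · exact H.lw _ _ _ _ (by omega) (by omega) (by omega) (by omega) (by omega) (by omega)
    · exact H.lw _ _ _ _ (by omega) (by omega) (by omega) (by omega) (by omega) (by omega)
    · exact fun t => absurd ((v3s H.lc0 H.c0 (by omega) (by omega) (by omega) (by omega) (by omega) (by omega)).1 t) (by unfold V3; omega)
    · exact fun t => absurd ((v3s H.lc0 H.c0 (by omega) (by omega) (by omega) (by omega) (by omega) (by omega)).1 t) (by unfold V3; omega)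
    · exact fun t => absurd ((v3s H.lc0 H.c0 (by omega) (by omega) (by omega) (by omega) (by omega) (by omega)).1 t) (by unfold V3; omega)
    · exact fun t => absurd ((v3s H.lc0 H.c0 (by omega) (by omega) (by omega) (by omega) (by omega) (by omega)).1 t) (by unfold V3; omega)
    · exact fun t => absurd ((v1 H.lc2 H.c2 (by omega) (by omega) (by omega) (by omega) (by omega)).1 t) (by unfold V1; omega)
    · exact fun t => absurd ((v1 H.lc2 H.c2 (by omega) (by omega) (by omega) (by omega) (by omega)).1 t) (by unfold V1; omega)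
    · exact fun t => absurd ((v1 H.lc2 H.c2 (by omega) (by omega) (by omega) (by omega) (by omega)).1 t) (by unfold V1; omega)
    · exact fun t => absurd ((v1 H.lc2 H.c2 (by omega) (by omega) (by omega) (by omega) (by omega)).1 t) (by unfold V1; omega)
    · exact fun t => h0 (mv t (by omega) (by omega) (by omega) (by omega))

/-- The steps of the in-line. -/
theorem TN.step3 (hf : Rule f) (H : TN f k B m) {y : ℕ} (hy2 : y % 2 = 0)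
    (hy : 2 * m + 6 ≤ y) (hyk : y ≤ 2 * m + 2 * k)
    (h0 : ¬ f (6 * k + 2) (B + 4) (2 * m + 2 * k + 5) y) :
    ¬ f (6 * k + 2) (B + 4) (2 * m + 2 * k + 5) (y + 2) := by
  have e1 := H.hk
  have e2 := H.hB
  have e3 := H.h4
  have e4 := H.hb
  have e5 := H.hm
  intro hX
  refine Loc.tn_g8 hf (a0 := 6 * k + 1) (b0 := B + 2) (x0 := 2 * m + 2 * k + 3) (y0 := y - 1) (by omega) (by omega) (by omega) (by omega) ?_ ?_
  · intro j n p q _ hx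
    rcases hx with ⟨rfl, rfl, rfl, rfl⟩ | ⟨rfl, rfl, rfl, rfl⟩ | ⟨rfl, rfl, rfl, rfl⟩ | ⟨rfl, rfl, rfl, rfl⟩
    · exact mv hX (by omega) (by omega) (by omega) (by omega)
    · exact (v0 H.lc6b H.c6b (by omega) (by omega) (by omega) (by omega) (by omega)).2 (by unfold V0; omega)
    · exact (v0 H.lc6b H.c6b (by omega) (by omega) (by omega) (by omega) (by omega)).2 (by unfold V0; omega)
    · exact (v0 H.lc6b H.c6b (by omega) (by omega) (by omega) (by omega) (by omega)).2 (by unfold V0; omega)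
  · intro j n p q _ hx
    rcases hx with ⟨rfl, rfl, rfl, rfl⟩ | ⟨rfl, rfl, rfl, rfl⟩ | ⟨rfl, rfl, rfl, rfl⟩ | ⟨rfl, rfl, rfl, rfl⟩ | ⟨rfl, rfl, rfl, rfl⟩ | ⟨rfl, rfl, rfl, rfl⟩ | ⟨rfl, rfl, rfl, rfl⟩ | ⟨rfl, rfl, rfl, rfl⟩ | ⟨rfl, rfl, rfl, rfl⟩ | ⟨rfl, rfl, rfl, rfl⟩
    · exact fun t => absurd ((v3s H.lc2 H.c2 (by omega) (by omega) (by omega) (by omega) (by omega) (by omega)).1 t) (by unfold V3; omega)
    · exact fun t => absurd ((v3s H.lc2 H.c2 (by omega) (by omega) (by omega) (by omega) (by omega) (by omega)).1 t) (by unfold V3; omega)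
    · exact fun t => h0 (mv t (by omega) (by omega) (by omega) (by omega))
    · exact fun t => absurd ((v1 H.lc4 H.c4 (by omega) (by omega) (by omega) (by omega) (by omega)).1 t) (by unfold V1; omega)
    · exact fun t => absurd ((v1 H.lc4 H.c4 (by omega) (by omega) (by omega) (by omega) (by omega)).1 t) (by unfold V1; omega)
    · exact fun t => absurd ((v1 H.lc4 H.c4 (by omega) (by omega) (by omega) (by omega) (by omega)).1 t) (by unfold V1; omega)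
    · exact fun t => absurd ((v1 H.lc4 H.c4 (by omega) (by omega) (by omega) (by omega) (by omega)).1 t) (by unfold V1; omega)
    · exact fun t => absurd ((v1 H.lc4 H.c4 (by omega) (by omega) (by omega) (by omega) (by omega)).1 t) (by unfold V1; omega)
    · exact fun t => absurd ((v1 H.lc4 H.c4 (by omega) (by omega) (by omega) (by omega) (by omega)).1 t) (by unfold V1; omega)
    · exact fun t => absurd ((v1 H.lc4 H.c4 (by omega) (by omega) (by omega) (by omega) (by omega)).1 t) (by unfold V1; omega)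

/-- The last step of the in-line. -/
theorem TN.step4 (hf : Rule f) (H : TN f k B m)
    (h0 : ¬ f (6 * k + 2) (B + 4) (2 * m + 2 * k + 5) (2 * m + 2 * k + 2)) :
    ¬ f (6 * k + 2) (B + 4) (2 * m + 2 * k + 5) (2 * m + 2 * k + 4) := by
  have e1 := H.hk
  have e2 := H.hB
  have e3 := H.h4
  have e4 := H.hb
  have e5 := H.hm
  intro hX
  refine Loc.tn_g9 hf (a0 := 6 * k + 1) (b0 := B + 2) (x0 := 2 * m + 2 * k + 3) (y0 := 2 * m + 2 * k + 1) (by omega) (by omega) (by omega) (by omega) ?_ ?_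
  · intro j n p q _ hx
    rcases hx with ⟨rfl, rfl, rfl, rfl⟩ | ⟨rfl, rfl, rfl, rfl⟩ | ⟨rfl, rfl, rfl, rfl⟩
    · exact mv hX (by omega) (by omega) (by omega) (by omega)
    · exact (v2s H.lc4 H.c4 (by omega) (by omega) (by omega) (by omega) (by omega) (by omega)).2 (by unfold V2; omega)
    · exact (v2s H.lc4 H.c4 (by omega) (by omega) (by omega) (by omega) (by omega) (by omega)).2 (by unfold V2; omega)
  · intro j n p q _ hx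
    rcases hx with ⟨rfl, rfl, rfl, rfl⟩ | ⟨rfl, rfl, rfl, rfl⟩ | ⟨rfl, rfl, rfl, rfl⟩
    · exact fun t => absurd ((v3s H.lc2 H.c2 (by omega) (by omega) (by omega) (by omega) (by omega) (by omega)).1 t) (by unfold V3; omega)
    · exact fun t => absurd ((v3s H.lc2 H.c2 (by omega) (by omega) (by omega) (by omega) (by omega) (by omega)).1 t) (by unfold V3; omega)
    · exact fun t => h0 (mv t (by omega) (by omega) (by omega) (by omega))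

/-- The whole OUT line is missing. -/
theorem TN.out_line (hf : Rule f) (H : TN f k B m) (tip : ¬ f (6 * k + 2) B (2 * m + 1) (2 * m)) :
    ∀ t : ℕ, t + 1 ≤ k → ¬ f (6 * k + 2) (B + 2) (2 * m + 4 + 2 * t) (2 * m + 3) := by
  intro t
  have e1 := H.hk
  induction t with
  | zero => exact fun _ => H.turn0 hf tip
  | succ t ih =>
    intro ht
    have h1 := ih (by omega)
    rcases (show t = 0 ∨ (1 ≤ t ∧ t + 3 ≤ k) ∨ t + 2 = k by omega) with h2 | h2 | h2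
    · subst h2
      exact H.step0 hf h1
    · exact fun q => H.step1 hf (x := 2 * m + 4 + 2 * t) (by omega) (by omega) (by omega) h1
        (mv q rfl rfl (by omega) rfl)
    · exact fun q => H.step2 hf (fun r => h1 (mv r rfl rfl (by omega) rfl))
        (mv q rfl rfl (by omega) rfl)

/-- The whole in-line of the next cycle is missing. -/
theorem TN.in_line (hf : Rule f) (H : TN f k B m) (tip : ¬ f (6 * k + 2) B (2 * m + 1) (2 * m)) :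
    ∀ t : ℕ, t + 1 ≤ k → ¬ f (6 * k + 2) (B + 4) (2 * m + 2 * k + 5) (2 * m + 6 + 2 * t) := by
  intro t
  have e1 := H.hk
  induction t with
  | zero =>
    intro _
    exact H.turn1 hf (fun q => H.out_line hf tip (k - 1) (by omega) (mv q rfl rfl (by omega) rfl))
  | succ t ih =>
    intro ht
    have h1 := ih (by omega)
    rcases (show t + 3 ≤ k ∨ t + 2 = k by omega) with h2 | h2
    · exact fun q => H.step3 hf (y := 2 * m + 6 + 2 * t) (by omega) (by omega) (by omega) h1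
        (mv q rfl rfl rfl (by omega))
    · exact fun q => H.step4 hf (fun r => h1 (mv r rfl rfl rfl (by omega)))
        (mv q rfl rfl rfl (by omega))

/-- **The missing tip persists.** -/
theorem TN.tip_next (hf : Rule f) (H : TN f k B m) (tip : ¬ f (6 * k + 2) B (2 * m + 1) (2 * m)) :
    ¬ f (6 * k + 2) (B + 4) (2 * (m + k + 2) + 1) (2 * (m + k + 2)) := by
  have e1 := H.hk
  exact fun q => H.in_line hf tip (k - 1) (by omega)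
    (mv q rfl rfl (by omega) (by omega))

/-- A profile is monotone. -/
theorem cyc_le {a b K K' : ℕ} (C : Cyc f a b K) (h : K ≤ K') : Cyc f a b K' where
  r0 := fun x y h1 => C.r0 x y (by omega)
  r1 := fun x y h1 => C.r1 x y (by omega)
  r1s := fun h6 x y h1 h2 => C.r1s h6 x y h1 (by omega)
  r2 := fun x y h1 => C.r2 x y (by omega)
  r2x := fun x y h1 h2 => C.r2x x y h1 (by omega)
  r2s := fun x y h1 h2 => C.r2s x y h1 (by omega)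
  r3 := fun x y h1 => C.r3 x y (by omega)
  r3s := fun x y h1 h2 => C.r3s x y h1 (by omega)
  r4 := fun x y h1 => C.r4 x y (by omega)

theorem cyc_to {a b K a' b' K' : ℕ} (C : Cyc f a b K) (ha : a' = a) (hb : b' = b) (h : K ≤ K') :
    Cyc f a' b' K' := by
  subst ha hb
  exact cyc_le C h

/-- The window of the tip `m` (at least `n - 4`) from the stack of the leader `6 k + 10`
(or `6 k + 8`). -/
theorem TN.of_stack {k b m0 n m e8 e10 : ℕ} (hs : Side k b m0)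
    (S : Stack6 f k b m0 0 0 0 0 e8 e10) (hn : n = m0 + 9 + (k + 2) * 4) (h1 : n ≤ m + 4)
    (d0 : Cyc f (6 * k) (b + 16) (2 * (m - 3) + 2))
    (d2 : Cyc f (6 * k + 2) (b + 18) (2 * m + 2)) : TN f k (b + 18) m where
  hk := hs.1
  hB := by
    have := hs.2.1
    omega
  h4 := by
    have := hs.2.2.1
    omega
  hb := by
    have := hs.2.2.2.1
    omega
  hm := by
    have := hs.2.2.2.1
    have := hs.2.2.2.2
    omega
  c0 := cyc_to d0 rfl (by omega) le_rfl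
  c2a := cyc_to (S.l2 3) rfl (by omega) (by
    have := hs.2.2.2.1
    have := hs.2.2.2.2
    omega)
  c2 := d2
  c4a := cyc_to (S.l4 4) rfl (by omega) (by
    have := hs.2.2.2.1
    have := hs.2.2.2.2
    omega)
  c4 := cyc_to (S.l4 5) rfl (by omega) (by
    have := hs.2.2.2.1
    have := hs.2.2.2.2
    omega)
  c6 := cyc_to (S.l6 4) rfl (by omega) (by
    have := hs.2.2.2.1
    have := hs.2.2.2.2
    omega)
  c6b := cyc_to (S.l6 5) rfl (by omega) (by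
    have := hs.2.2.2.1
    have := hs.2.2.2.2
    omega)
  lw := by
    intro M R x y hM h2 h3 h4 h5 h6
    obtain ⟨k1, k2, k3, k4, k5⟩ := hs
    have e : M = 6 * k - 1 := by omega
    have e2 : R = b + (R - b) := by omega
    rw [e, e2]
    intro h
    have h7 := (S.lw (R - b) (by omega) x y (by rw [max_eq_left h5]; omega)).1 h
    exact Fst_near_odd (by omega) (by rw [max_eq_left h5, min_eq_right h5]; omega) h7

end Pool.Agent.SNT.LW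

namespace Pool.Agent.SNT.S6

open Pool.Agent.SNT.LW

/-- **The missing tip `m ≥ n - 4` of the layer `6 k + 2` in the row `b + 18` is missing in the next
cycle**, if the layer `6 k` has the lead `m - 3` in the row `b + 16`. -/
theorem tip_next2 {f : ℕ → ℕ → ℕ → ℕ → Prop} (hf : Rule f) {k b m0 n m e8 e10 : ℕ}
    (hs : Side k b m0) (S : Stack6 f k b m0 0 0 0 0 e8 e10) (hn : n = m0 + 9 + (k + 2) * 4)
    (h1 : n ≤ m + 4) (d0 : Cyc f (6 * k) (b + 16) (2 * (m - 3) + 2))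
    (d2 : Cyc f (6 * k + 2) (b + 18) (2 * m + 2))
    (tip : ¬ f (6 * k + 2) (b + 18) (2 * m + 1) (2 * m)) :
    ¬ f (6 * k + 2) (b + 22) (2 * (m + k + 2) + 1) (2 * (m + k + 2)) :=
  fun q => (TN.of_stack hs S hn h1 d0 d2).tip_next hf tip (mv q rfl (by omega) rfl rfl)

/-- The OUT line of the missing tip is missing. -/
theorem out_line2 {f : ℕ → ℕ → ℕ → ℕ → Prop} (hf : Rule f) {k b m0 n m e8 e10 x : ℕ}
    (hs : Side k b m0) (S : Stack6 f k b m0 0 0 0 0 e8 e10) (hn : n = m0 + 9 + (k + 2) * 4)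
    (h1 : n ≤ m + 4) (d0 : Cyc f (6 * k) (b + 16) (2 * (m - 3) + 2))
    (d2 : Cyc f (6 * k + 2) (b + 18) (2 * m + 2))
    (tip : ¬ f (6 * k + 2) (b + 18) (2 * m + 1) (2 * m)) (hx2 : x % 2 = 0)
    (hx : 2 * m + 4 ≤ x) (hx' : x ≤ 2 * m + 2 * k + 2) :
    ¬ f (6 * k + 2) (b + 20) x (2 * m + 3) :=
  fun q => (TN.of_stack hs S hn h1 d0 d2).out_line hf tip ((x - (2 * m + 4)) / 2) (by omega)
    (mv q rfl (by omega) (by omega) rfl)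

/-- The in-line of the next cycle is missing. -/
theorem in_line2 {f : ℕ → ℕ → ℕ → ℕ → Prop} (hf : Rule f) {k b m0 n m e8 e10 y : ℕ}
    (hs : Side k b m0) (S : Stack6 f k b m0 0 0 0 0 e8 e10) (hn : n = m0 + 9 + (k + 2) * 4)
    (h1 : n ≤ m + 4) (d0 : Cyc f (6 * k) (b + 16) (2 * (m - 3) + 2))
    (d2 : Cyc f (6 * k + 2) (b + 18) (2 * m + 2))
    (tip : ¬ f (6 * k + 2) (b + 18) (2 * m + 1) (2 * m)) (hy2 : y % 2 = 0)
    (hy : 2 * m + 6 ≤ y) (hy' : y ≤ 2 * m + 2 * k + 4) :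
    ¬ f (6 * k + 2) (b + 22) (2 * (m + k + 2) + 1) y :=
  fun q => (TN.of_stack hs S hn h1 d0 d2).in_line hf tip ((y - (2 * m + 6)) / 2) (by omega)
    (mv q rfl (by omega) (by omega) (by omega))

end Pool.Agent.SNT.S6
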