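import Pool.Agent.SNT.D1Fields
import Pool.Agent.SNT.TipN

set_option autoImplicit false

/-! The last three tips of `6 k + 2` (`t = 2, 1, 0`: the known lead is `n - 2`, `n - 3`, `n - 4`) from the escapes
`E0`, `E1`: the tip is missing in all later cycles, in each of them one of the escapes occurs, and no escape can be
followed by one of them three times. -/

namespace Pool.Agent.SNT.D1

variable {f : ℕ → ℕ → ℕ → ℕ → Prop} {k b m t : ℕ}

/-- the known lead of `6 k + 2` in the cycle `j` -/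
def ml (k m t j : ℕ) : ℕ := nn k m j + t - 4

/-- the tip of the known lead is missing in the cycle `j` -/
def Miss (f : ℕ → ℕ → ℕ → ℕ → Prop) (k b m t j : ℕ) : Prop :=
  ¬ f (6 * k + 2) (b + 4 * j + 18) (2 * ml k m t j + 1) (2 * ml k m t j)

/-- the escape at the distance `2 k` in the cycle `j` -/
def E0 (f : ℕ → ℕ → ℕ → ℕ → Prop) (k b m t j : ℕ) : Prop :=
  f (6 * k + 3) (b + 4 * j + 20) (2 * ml k m t j + 4) (2 * ml k m t j + 4 - 2 * k)

/-- the escape at the distance `2 k - 2` in the cycle `j` -/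
def E1 (f : ℕ → ℕ → ℕ → ℕ → Prop) (k b m t j : ℕ) : Prop :=
  f (6 * k + 3) (b + 4 * j + 20) (2 * ml k m t j + 4) (2 * ml k m t j + 6 - 2 * k)

/-- The situation: all leads are known in all cycles `j ≥ 0`, the tip of `6 k + 2` is missing in all of them. -/
structure Ctx (f : ℕ → ℕ → ℕ → ℕ → Prop) (k b m t : ℕ) : Prop where
  S : StackA f k b m 0 0 0 0 0 1
  t2 : t ≤ 2
  q0 : Q0 f k b m 0 t
  q4 : Q4 f k b m 0 0
  q2 : Q2 f k b m 0 (t + 1)
  miss : ∀ j : ℕ, Miss f k b m t j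

theorem ml_shift (k m t i j : ℕ) : ml k (m + (k + 2) * i) t j = ml k m t (i + j) := by
  unfold ml
  rw [nn_shift]

theorem miss_shift (i j : ℕ) :
    Miss f k (b + 4 * i) (m + (k + 2) * i) t j ↔ Miss f k b m t (i + j) := by
  unfold Miss
  rw [ml_shift, show b + 4 * i + 4 * j + 18 = b + 4 * (i + j) + 18 by ring]

theorem e0_shift (i j : ℕ) :
    E0 f k (b + 4 * i) (m + (k + 2) * i) t j ↔ E0 f k b m t (i + j) := by
  unfold E0
  rw [ml_shift, show b + 4 * i + 4 * j + 20 = b + 4 * (i + j) + 20 by ring]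

theorem e1_shift (i j : ℕ) :
    E1 f k (b + 4 * i) (m + (k + 2) * i) t j ↔ E1 f k b m t (i + j) := by
  unfold E1
  rw [ml_shift, show b + 4 * i + 4 * j + 20 = b + 4 * (i + j) + 20 by ring]

theorem Ctx.shift (C : Ctx f k b m t) (i : ℕ) : Ctx f k (b + 4 * i) (m + (k + 2) * i) t where
  S := C.S.shift i
  t2 := C.t2
  q0 := C.q0.at (by omega)
  q4 := C.q4.at (by omega)
  q2 := C.q2.at (by omega)
  miss := fun j => (miss_shift i j).2 (C.miss (i + j))

/-- The window of the cycle `0`: everything in terms of `n`. -/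
theorem Ctx.win (C : Ctx f k b m t) {n : ℕ} (hn : n = m + 9 + (k + 2) * 4) :
    Side k b m ∧ Stack6 f k b m 0 0 0 0 0 1 ∧ Cyc f (6 * k) (b + 16) (2 * (n + t - 7) + 2) ∧
    Cyc f (6 * k + 2) (b + 18) (2 * (n + t - 4) + 2) ∧ Cyc f (6 * k + 4) (b + 20) (2 * (n + 1) + 2) ∧
    ¬ f (6 * k + 2) (b + 18) (2 * (n + t - 4) + 1) (2 * (n + t - 4)) := by
  have e : n = nn k m 0 := by
    unfold nn
    omega
  subst e
  refine ⟨C.S.side, C.S.stack, ?_, ?_, ?_, ?_⟩
  · exact cyc_of_eq (C.q0 0 le_rfl) (by omega) rfl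
  · exact cyc_of_eq (C.q2 0 le_rfl) (by omega) (by omega)
  · exact cyc_of_eq (C.q4 0 le_rfl) (by omega) (by omega)
  · exact C.miss 0

/-- **The four statements** on the escapes, in the cycles `R`, `R + 1` (`R` cycles before are available). -/
structure Birth (f : ℕ → ℕ → ℕ → ℕ → Prop) (k t R : ℕ) : Prop where
  /-- (i) one of the two escapes occurs -/
  e : ∀ b m : ℕ, Ctx f k b m t → E0 f k b m t R ∨ E1 f k b m t R
  /-- (ii) -/
  e00 : ∀ b m : ℕ, Ctx f k b m t → E0 f k b m t R → ¬ E0 f k b m t (R + 1)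
  /-- (iii) -/
  e10 : ∀ b m : ℕ, Ctx f k b m t → E1 f k b m t R → ¬ E0 f k b m t (R + 1)
  /-- (iv) -/
  e11 : ∀ b m : ℕ, Ctx f k b m t → E1 f k b m t R → ¬ E1 f k b m t (R + 1)

/-- A fact in the cycle `R` is a fact in every later cycle. -/
theorem Birth.mono {R R' : ℕ} (B : Birth f k t R) (h : R ≤ R') : Birth f k t R' := by
  obtain ⟨i, rfl⟩ : ∃ i, R' = i + R := ⟨R' - R, by omega⟩
  refine ⟨fun b m C => ?_, fun b m C => ?_, fun b m C => ?_, fun b m C => ?_⟩
  · have := B.e _ _ (C.shift i)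
    rwa [e0_shift, e1_shift] at this
  · have := B.e00 _ _ (C.shift i)
    rwa [e0_shift, e0_shift, ← Nat.add_assoc] at this
  · have := B.e10 _ _ (C.shift i)
    rwa [e0_shift, e1_shift, ← Nat.add_assoc] at this
  · have := B.e11 _ _ (C.shift i)
    rwa [e1_shift, e1_shift, ← Nat.add_assoc] at this

/-- **No tip is missing.** -/
theorem Birth.false {R : ℕ} (B : Birth f k t R) (C : Ctx f k b m t) : False := by
  have B1 := B.mono (R' := R + 1) (by omega)
  have B2 := B.mono (R' := R + 2) (by omega)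
  rcases B.e _ _ C with h | h
  · rcases B1.e _ _ C with h1 | h1
    · exact B.e00 _ _ C h h1
    · rcases B2.e _ _ C with h2 | h2
      · exact B1.e10 _ _ C h1 h2
      · exact B1.e11 _ _ C h1 h2
  · rcases B1.e _ _ C with h1 | h1
    · exact B.e10 _ _ C h h1
    · exact B.e11 _ _ C h h1

/-- The missing tip is missing in the next cycle. -/
theorem miss_next (hf : Rule f) {j : ℕ} (S : StackA f k b m 0 0 0 0 0 1) (_ : t ≤ 2)
    (q0 : Q0 f k b m 0 t) (q2 : Q2 f k b m 0 (t + 1)) (h : Miss f k b m t j) : Miss f k b m t (j + 1) := by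
  have Sj := S.shift j
  have hm0 : 100 ≤ m := by
    have h := S.side
    obtain ⟨h1, h2, h3, h4, h5⟩ := h
    omega
  have hn : nn k m j = m + (k + 2) * j + 9 + (k + 2) * 4 := rfl
  have hsucc : nn k m (j + 1) = nn k m j + (k + 2) := by
    unfold nn
    ring
  unfold Miss ml at h ⊢
  have h1 := S6.tip_next2 hf Sj.side Sj.stack hn (m := nn k m j + t - 4) (by omega)
    (cyc_of_eq (q0 j (by omega)) rfl (by omega)) (cyc_of_eq (q2 j (by omega)) rfl (by omega)) h
  rw [hsucc]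
  rwa [show b + 4 * (j + 1) + 18 = b + 4 * j + 22 by ring,
    show nn k m j + (k + 2) + t - 4 = nn k m j + t - 4 + k + 2 by omega]

/-- **The tip in the cycle `1`** from the four statements. -/
theorem tip2_of (hf : Rule f) {R : ℕ} (B : Birth f k t R) (S : StackA f k b m 0 0 0 0 0 1) (ht : t ≤ 2)
    (q0 : Q0 f k b m 0 t) (q4 : Q4 f k b m 0 0) (q2 : Q2 f k b m 0 (t + 1)) : Tip2 f k b m t := by
  have hm0 : 100 ≤ m := by
    have h := S.side
    obtain ⟨h1, h2, h3, h4, h5⟩ := h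
    omega
  by_contra hc
  have hn : nn k m 1 = m + (k + 2) * 1 + 9 + (k + 2) * 4 := rfl
  have h1 : Miss f k b m t 1 := by
    unfold Tip2 at hc
    unfold Miss ml
    rwa [show 2 * (nn k m 1 + t - 5) + 3 = 2 * (nn k m 1 + t - 4) + 1 by omega,
      show 2 * (nn k m 1 + t - 5) + 2 = 2 * (nn k m 1 + t - 4) by omega] at hc
  have hall : ∀ j : ℕ, Miss f k b m t (1 + j) := by
    intro j
    induction j with
    | zero => exact h1
    | succ j ih => exact miss_next hf S ht q0 q2 ih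
  refine B.false (b := b + 4 * 1) (m := m + (k + 2) * 1) ?_
  exact ⟨S.shift 1, ht, q0.at (by omega), q4.at (by omega), q2.at (by omega),
    fun j => (miss_shift 1 j).2 (hall j)⟩

/-- **`D1.Tips2` from the tip `t2` and the four statements for `t = 2, 1, 0`.** -/
theorem tips2_of (hf : Rule f) {R2 R1 R0 : ℕ}
    (h2 : ∀ b m t : ℕ, StackA f k b m 0 0 0 0 0 1 → 3 ≤ t → t + 3 ≤ k →
      Q0 f k b m 0 2 → Q2 f k b m 0 (t + 1) → Tip2 f k b m t)
    (B2 : Birth f k 2 R2) (B1 : Birth f k 1 R1) (B0 : Birth f k 0 R0) : Tips2 f k where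
  t2 := h2
  t2a := fun _ _ S q0 q4 q2 => tip2_of hf B2 S le_rfl q0 q4 q2
  t2b := fun _ _ S q0 q4 q2 => tip2_of hf B1 S (by omega) q0 q4 q2
  t2c := fun _ _ S q0 q4 q2 => tip2_of hf B0 S (by omega) q0 q4 q2

end Pool.Agent.SNT.D1
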