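import Pool.Agent.SNT.PL

set_option autoImplicit false
set_option synthInstance.maxSize 100000
set_option synthInstance.maxHeartbeats 4000000

/-! Near the diagonal: the line of `6 k + 4` in the IN row and the beam of `6 k + 4` in the OUT row exclude each other. -/

namespace Pool.Agent.SNT.E1X

open Pool.Agent.SNT Pool.Agent.SNT.Sig Pool.Agent.SNT.Loc Pool.Agent.SNT.LW Pool.Agent.SNT.NHZ Pool.Agent.SNT.DRun Pool.Agent.SNT.D1E

variable {f : ℕ → ℕ → ℕ → ℕ → Prop}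

theorem wd_chk : check 5 6 12 12 1 0 1 1 2
    (fun j n p q => decide ((j = 1 ∧ n = 2 ∧ q ≤ p ∧ 10 ≤ p ∧ ((p + q) % 2 = 1 ∧ p % 2 = 0))
      ∨ (j = 1 ∧ n = 1 ∧ q ≤ p ∧ (p = q ∧ p % 2 = 0))
      ∨ (j = 3 ∧ n = 1 ∧ q ≤ p ∧ (p = q ∧ p % 2 = 1))
      ∨ (j = 3 ∧ n = 2 ∧ q ≤ p ∧ ((p + q) % 2 = 1 ∧ p % 2 = 1))
      ∨ (j = 3 ∧ n = 3 ∧ q ≤ p ∧ (p = q ∧ p % 2 = 0))
      ∨ (j = 5 ∧ n = 2 ∧ q ≤ p ∧ 2 ≤ p ∧ ((p + q) % 2 = 1 ∧ p % 2 = 0))
      ∨ (j = 5 ∧ n = 3 ∧ q ≤ p ∧ 3 ≤ p ∧ (p = q ∧ p % 2 = 1))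
      ∨ (j = 5 ∧ n = 4 ∧ q ≤ p ∧ 3 ≤ q ∧ ((p + q) % 2 = 1 ∧ p % 2 = 1))
      ∨ (j = 5 ∧ n = 1 ∧ q ≤ p ∧ (p = q ∧ p % 2 = 0))
      ∨ (j = 1 ∧ n = 2 ∧ p = 4 ∧ q = 1)
      ∨ (j = 1 ∧ n = 4 ∧ p = 8 ∧ q = 5)))
    (fun j n p q => decide ((j = 1 ∧ n = 2 ∧ q ≤ p ∧ 10 ≤ p ∧ ¬ ((p + q) % 2 = 1 ∧ p % 2 = 0))
      ∨ (j = 1 ∧ n = 1 ∧ q ≤ p ∧ ¬ (p = q ∧ p % 2 = 0))
      ∨ (j = 3 ∧ n = 1 ∧ q ≤ p ∧ ¬ (p = q ∧ p % 2 = 1))
      ∨ (j = 3 ∧ n = 2 ∧ q ≤ p ∧ ¬ ((p + q) % 2 = 1 ∧ p % 2 = 1))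
      ∨ (j = 3 ∧ n = 3 ∧ q ≤ p ∧ ¬ (p = q ∧ p % 2 = 0))
      ∨ (j = 5 ∧ n = 2 ∧ q ≤ p ∧ 2 ≤ p ∧ ¬ ((p + q) % 2 = 1 ∧ p % 2 = 0))
      ∨ (j = 5 ∧ n = 3 ∧ q ≤ p ∧ 3 ≤ p ∧ ¬ (p = q ∧ p % 2 = 1))
      ∨ (j = 5 ∧ n = 4 ∧ q ≤ p ∧ 3 ≤ q ∧ ¬ ((p + q) % 2 = 1 ∧ p % 2 = 1))
      ∨ (j = 5 ∧ n = 1 ∧ q ≤ p ∧ ¬ (p = q ∧ p % 2 = 0))
      ∨ (j = 2 ∧ n = 1 ∧ q + 2 ≤ p)
      ∨ (j = 2 ∧ n = 1 ∧ q + 1 ≤ p)
      ∨ (j = 4 ∧ n = 1 ∧ q + 1 ≤ p)
      ∨ (j = 2 ∧ n = 2 ∧ q + 2 ≤ p)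
      ∨ (j = 2 ∧ n = 2 ∧ q + 1 ≤ p)
      ∨ (j = 4 ∧ n = 2 ∧ q + 1 ≤ p)
      ∨ (j = 1 ∧ n = 3 ∧ 2 ≤ p ∧ q + 3 ≤ p)
      ∨ (j = 1 ∧ n = 3 ∧ q + 2 ≤ p)
      ∨ (j = 2 ∧ n = 3 ∧ 7 ≤ p ∧ q + 3 ≤ p)
      ∨ (j = 2 ∧ n = 3 ∧ 3 ≤ q ∧ q + 2 ≤ p)
      ∨ (j = 2 ∧ n = 3 ∧ 2 ≤ p ∧ q + 3 ≤ p)
      ∨ (j = 2 ∧ n = 3 ∧ q + 2 ≤ p)
      ∨ (j = 3 ∧ n = 3 ∧ 2 ≤ p ∧ q + 2 ≤ p)
      ∨ (j = 3 ∧ n = 3 ∧ q + 1 ≤ p)
      ∨ (j = 4 ∧ n = 3 ∧ 7 ≤ p ∧ q + 2 ≤ p)
      ∨ (j = 4 ∧ n = 3 ∧ 3 ≤ q ∧ q + 1 ≤ p)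
      ∨ (j = 4 ∧ n = 3 ∧ 2 ≤ p ∧ q + 2 ≤ p)
      ∨ (j = 4 ∧ n = 3 ∧ q + 1 ≤ p)
      ∨ (j = 5 ∧ n = 3 ∧ 2 ≤ p ∧ q + 1 ≤ p)
      ∨ (j = 2 ∧ n = 4 ∧ 7 ≤ p ∧ q + 3 ≤ p)
      ∨ (j = 2 ∧ n = 4 ∧ 3 ≤ q ∧ q + 2 ≤ p)
      ∨ (j = 4 ∧ n = 4 ∧ 7 ≤ p ∧ q + 2 ≤ p)
      ∨ (j = 4 ∧ n = 4 ∧ 3 ≤ q ∧ q + 1 ≤ p)))
    117
    0x4b98302b5000465420663800813c204b98302b50004654206630006630402660004164204ae8302b5800465c20261000266800411420416c202550002658002658e02658402a8800458c202540002f20002598002598e061c00060f0006020005cd0004b98e04b90e04b30e04718e04710e046b0e04168e04160e03ce8e03ce0e03028003028e02c18e02c10e02bb0e040fd2025880021f00021e8e021e0e021200081387081307080d0707cb8707cb0707c507065d87061c0f061b87061b07061587061507060f0f06020f05cd0f04b98704b90704b307047187047107046b07046487041d07041c87041687041607041587041007040f87040f0704098704090703ce8703ce0703cd8703c80703c78703c70703c18703c10703098703028f02fe8702c18702c10702bb0702b487026d87026c87026087025f8702588f021f0f021e87021e07021d8702188702180702178702170702120f021187021107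 = true := by
  decide +kernel

theorem wd (hf : Rule f) {k c n M : ℕ} (H : PL f k c n M) (hM3 : n ≤ M + 3)
    (h0 : f (6 * k + 4) (c - 2) (2 * M + 5) (2 * M + 2))
    (h1 : f (6 * k + 4) c (2 * M + 9) (2 * M + 6)) : False := by
  have hk := H.T.hk
  have hc := H.T.hc
  have h4' := H.T.h4
  have hb := H.T.hb
  have hN := H.T.hN2
  have hM := H.hM
  obtain ⟨a0, ha0⟩ : ∃ z, z = 6 * k + 3 := ⟨_, rfl⟩
  obtain ⟨b0, hb0⟩ : ∃ z, z + 4 = c := ⟨c - 4, by omega⟩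
  obtain ⟨x0, hx0⟩ : ∃ z, z = 2 * M + 1 := ⟨_, rfl⟩
  refine check_sound hf (a0 := a0) (b0 := b0) (x0 := x0) (y0 := x0) wd_chk
    ⟨fun _ => rfl, fun h => absurd h (by decide), fun h => absurd h (by decide), by omega, by omega,
      by omega, by omega⟩ ?_ ?_
  · intro j m p q hr h
    obtain ⟨-, -, -, -, hp1, hp2, hq1, hq2⟩ := hr
    replace h := of_decide_eq_true h
    rcases h with h | h | h | h | h | h | h | h | h | h | h
    · obtain ⟨rfl, rfl, h⟩ := h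
      exact (WrapC.v0 H.c4 (by omega) (by omega) (by omega) (by omega) (by omega) (by omega) (by omega)).mpr (by omega)
    · obtain ⟨rfl, rfl, h⟩ := h
      exact (WrapC.v3 H.c4a (by omega) (by omega) (by omega) (by omega) (by omega) (by omega) (by omega) (by omega)).mpr (by omega)
    · obtain ⟨rfl, rfl, h⟩ := h
      exact (WrapC.v1 H.c6 (by omega) (by omega) (by omega) (by omega) (by omega) (by omega) (by omega) (by omega)).mpr (by omega)
    · obtain ⟨rfl, rfl, h⟩ := h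
      exact (WrapC.v2 H.c6 (by omega) (by omega) (by omega) (by omega) (by omega) (by omega) (by omega)).mpr (by omega)
    · obtain ⟨rfl, rfl, h⟩ := h
      exact (WrapC.v3 H.c6 (by omega) (by omega) (by omega) (by omega) (by omega) (by omega) (by omega) (by omega)).mpr (by omega)
    · obtain ⟨rfl, rfl, h⟩ := h
      exact (NW.w0v H.c8 (by omega) (by omega) (by omega) (by omega) (by omega) (by omega) (by omega)).mpr (by omega)
    · obtain ⟨rfl, rfl, h⟩ := h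
      exact (NW.w1v H.c8 (by omega) (by omega) (by omega) (by omega) (by omega) (by omega) (by omega) (by omega)).mpr (by omega)
    · obtain ⟨rfl, rfl, h⟩ := h
      exact (NW.w2v H.c8 (by omega) (by omega) (by omega) (by omega) (by omega) (by omega) (by omega)).mpr (by omega)
    · obtain ⟨rfl, rfl, h⟩ := h
      exact (NW.w3v H.c8a (by omega) (by omega) (by omega) (by omega) (by omega) (by omega) (by omega) (by omega)).mpr (by omega)
    · obtain ⟨rfl, rfl, rfl, rfl⟩ := h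
      exact mv h0 (by omega) (by omega) (by omega) (by omega)
    · obtain ⟨rfl, rfl, rfl, rfl⟩ := h
      exact mv h1 (by omega) (by omega) (by omega) (by omega)
  · intro j m p q hr h
    obtain ⟨-, -, -, -, hp1, hp2, hq1, hq2⟩ := hr
    replace h := of_decide_eq_true h
    rcases h with h | h | h | h | h | h | h | h | h | h | h | h | h | h | h | h | h | h | h | h | h | h | h | h | h | h | h | h | h | h | h | h
    · obtain ⟨rfl, rfl, h⟩ := h
      exact mt (WrapC.v0 H.c4 (by omega) (by omega) (by omega) (by omega) (by omega) (by omega) (by omega)).mp (by omega)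
    · obtain ⟨rfl, rfl, h⟩ := h
      exact mt (WrapC.v3 H.c4a (by omega) (by omega) (by omega) (by omega) (by omega) (by omega) (by omega) (by omega)).mp (by omega)
    · obtain ⟨rfl, rfl, h⟩ := h
      exact mt (WrapC.v1 H.c6 (by omega) (by omega) (by omega) (by omega) (by omega) (by omega) (by omega) (by omega)).mp (by omega)
    · obtain ⟨rfl, rfl, h⟩ := h
      exact mt (WrapC.v2 H.c6 (by omega) (by omega) (by omega) (by omega) (by omega) (by omega) (by omega)).mp (by omega)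
    · obtain ⟨rfl, rfl, h⟩ := h
      exact mt (WrapC.v3 H.c6 (by omega) (by omega) (by omega) (by omega) (by omega) (by omega) (by omega) (by omega)).mp (by omega)
    · obtain ⟨rfl, rfl, h⟩ := h
      exact mt (NW.w0v H.c8 (by omega) (by omega) (by omega) (by omega) (by omega) (by omega) (by omega)).mp (by omega)
    · obtain ⟨rfl, rfl, h⟩ := h
      exact mt (NW.w1v H.c8 (by omega) (by omega) (by omega) (by omega) (by omega) (by omega) (by omega) (by omega)).mp (by omega)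
    · obtain ⟨rfl, rfl, h⟩ := h
      exact mt (NW.w2v H.c8 (by omega) (by omega) (by omega) (by omega) (by omega) (by omega) (by omega)).mp (by omega)
    · obtain ⟨rfl, rfl, h⟩ := h
      exact mt (NW.w3v H.c8a (by omega) (by omega) (by omega) (by omega) (by omega) (by omega) (by omega) (by omega)).mp (by omega)
    · obtain ⟨rfl, rfl, h⟩ := h
      exact NHT.pmi hf H.T (j := 1) (by omega) (by omega) (by omega) (by omega) (by omega) (by omega)
    · obtain ⟨rfl, rfl, h⟩ := h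
      exact NHT.pm hf H.T (j := 0) (by omega) (by omega) (by omega) (by omega) (by omega) (by omega)
    · obtain ⟨rfl, rfl, h⟩ := h
      exact NHT.pmi hf H.T (j := 0) (by omega) (by omega) (by omega) (by omega) (by omega) (by omega)
    · obtain ⟨rfl, rfl, h⟩ := h
      exact NHT.pmi hf H.T (j := 1) (by omega) (by omega) (by omega) (by omega) (by omega) (by omega)
    · obtain ⟨rfl, rfl, h⟩ := h
      exact NHT.pm hf H.T (j := 0) (by omega) (by omega) (by omega) (by omega) (by omega) (by omega)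
    · obtain ⟨rfl, rfl, h⟩ := h
      exact NHT.pmi hf H.T (j := 0) (by omega) (by omega) (by omega) (by omega) (by omega) (by omega)
    · obtain ⟨rfl, rfl, h⟩ := h
      exact fun t => NHT.rm1i hf H.T (p := 0) (j := 2) (by omega) (by omega) (by omega) (by omega) (by omega) (by omega) (mv t rfl (by omega) rfl rfl)
    · obtain ⟨rfl, rfl, h⟩ := h
      exact fun t => NHT.rm1 hf H.T (p := 0) (j := 1) (by omega) (by omega) (by omega) (by omega) (by omega) (by omega) (mv t rfl (by omega) rfl rfl)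
    · obtain ⟨rfl, rfl, h⟩ := h
      exact NHT.p0i hf H.T (j := 2) (by omega) (by omega) (by omega) (by omega) (by omega) (by omega)
    · obtain ⟨rfl, rfl, h⟩ := h
      exact NHT.p0 hf H.T (j := 1) (by omega) (by omega) (by omega) (by omega) (by omega) (by omega)
    · obtain ⟨rfl, rfl, h⟩ := h
      exact fun t => NHT.rm1i hf H.T (p := 1) (j := 2) (by omega) (by omega) (by omega) (by omega) (by omega) (by omega) (mv t rfl (by omega) rfl rfl)
    · obtain ⟨rfl, rfl, h⟩ := h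
      exact fun t => NHT.rm1 hf H.T (p := 1) (j := 1) (by omega) (by omega) (by omega) (by omega) (by omega) (by omega) (mv t rfl (by omega) rfl rfl)
    · obtain ⟨rfl, rfl, h⟩ := h
      exact fun t => NHT.rm1i hf H.T (p := 0) (j := 1) (by omega) (by omega) (by omega) (by omega) (by omega) (by omega) (mv t rfl (by omega) rfl rfl)
    · obtain ⟨rfl, rfl, h⟩ := h
      exact fun t => NHT.rm1 hf H.T (p := 0) (j := 0) (by omega) (by omega) (by omega) (by omega) (by omega) (by omega) (mv t rfl (by omega) rfl rfl)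
    · obtain ⟨rfl, rfl, h⟩ := h
      exact NHT.p0i hf H.T (j := 1) (by omega) (by omega) (by omega) (by omega) (by omega) (by omega)
    · obtain ⟨rfl, rfl, h⟩ := h
      exact NHT.p0 hf H.T (j := 0) (by omega) (by omega) (by omega) (by omega) (by omega) (by omega)
    · obtain ⟨rfl, rfl, h⟩ := h
      exact fun t => NHT.rm1i hf H.T (p := 1) (j := 1) (by omega) (by omega) (by omega) (by omega) (by omega) (by omega) (mv t rfl (by omega) rfl rfl)
    · obtain ⟨rfl, rfl, h⟩ := h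
      exact fun t => NHT.rm1 hf H.T (p := 1) (j := 0) (by omega) (by omega) (by omega) (by omega) (by omega) (by omega) (mv t rfl (by omega) rfl rfl)
    · obtain ⟨rfl, rfl, h⟩ := h
      exact fun t => NHT.rm1i hf H.T (p := 0) (j := 0) (by omega) (by omega) (by omega) (by omega) (by omega) (by omega) (mv t rfl (by omega) rfl rfl)
    · obtain ⟨rfl, rfl, h⟩ := h
      exact NHT.p0i hf H.T (j := 2) (by omega) (by omega) (by omega) (by omega) (by omega) (by omega)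
    · obtain ⟨rfl, rfl, h⟩ := h
      exact NHT.p0 hf H.T (j := 1) (by omega) (by omega) (by omega) (by omega) (by omega) (by omega)
    · obtain ⟨rfl, rfl, h⟩ := h
      exact NHT.p0i hf H.T (j := 1) (by omega) (by omega) (by omega) (by omega) (by omega) (by omega)
    · obtain ⟨rfl, rfl, h⟩ := h
      exact NHT.p0 hf H.T (j := 0) (by omega) (by omega) (by omega) (by omega) (by omega) (by omega)

end Pool.Agent.SNT.E1X
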