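import Pool.Agent.SNT.PL

set_option autoImplicit false
set_option synthInstance.maxSize 100000
set_option synthInstance.maxHeartbeats 4000000

/-! Near the diagonal: an in-line of `6 k + 6` in the IN row `c` of the top leader starts the next line in the row `c + 2`. -/

namespace Pool.Agent.SNT.E1X

open Pool.Agent.SNT Pool.Agent.SNT.Sig Pool.Agent.SNT.Loc Pool.Agent.SNT.LW Pool.Agent.SNT.NHZ Pool.Agent.SNT.DRun Pool.Agent.SNT.D1E

variable {f : ℕ → ℕ → ℕ → ℕ → Prop}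

theorem wr_chk : check 5 6 11 11 1 0 1 1 2
    (fun j n p q => decide ((j = 1 ∧ n = 1 ∧ q ≤ p ∧ (p = q ∧ p % 2 = 0))
      ∨ (j = 3 ∧ n = 3 ∧ q ≤ p ∧ (p = q ∧ p % 2 = 0))
      ∨ (j = 5 ∧ n = 1 ∧ q ≤ p ∧ (p = q ∧ p % 2 = 0))
      ∨ (j = 1 ∧ n = 2 ∧ p = 2 ∧ q = 1)))
    (fun j n p q => decide ((j = 1 ∧ n = 1 ∧ q ≤ p ∧ ¬ (p = q ∧ p % 2 = 0))
      ∨ (j = 3 ∧ n = 3 ∧ q ≤ p ∧ ¬ (p = q ∧ p % 2 = 0))
      ∨ (j = 5 ∧ n = 1 ∧ q ≤ p ∧ ¬ (p = q ∧ p % 2 = 0))
      ∨ (j = 2 ∧ n = 1 ∧ q + 2 ≤ p)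
      ∨ (j = 2 ∧ n = 1 ∧ q + 1 ≤ p)
      ∨ (j = 4 ∧ n = 1 ∧ q + 1 ≤ p)
      ∨ (j = 2 ∧ n = 2 ∧ q + 1 ≤ p)
      ∨ (j = 1 ∧ n = 3 ∧ q + 2 ≤ p)
      ∨ (j = 2 ∧ n = 3 ∧ q + 2 ≤ p)
      ∨ (j = 4 ∧ n = 3 ∧ q + 1 ≤ p)
      ∨ (j = 2 ∧ n = 4 ∧ 3 ≤ q ∧ q + 2 ≤ p)
      ∨ (j = 4 ∧ n = 4 ∧ 3 ≤ q ∧ q + 1 ≤ p)
      ∨ (j = 1 ∧ n = 4 ∧ p = 7 ∧ q = 4)))
    103
    0x6bc8303e08003e08102760003e75a023e8003a9c201f68001fb800361c20366c201fb0e03e70302390003a44205518006bcc203e70302390003a442054c00054c0401f10001fb0e01fb04023280039dc201ea8006c18e06c10e06850e06848e051a80051a0e05198e050e8003f10e03f08e03eb0e03e50e03b48e03b40e03ae8e03a88e036c0e03668e03660e032a0e03298e02858e02498e02490e02438e023d8e01ef8001ef8e01bf8001bf0e01be8e01b38006c18706c107068507068487055107051a8f051a07051987051487050e8f03f10703f08703eb0703e50703b48703b40703ae8703a887036c87036c07036687036607036087032a07032987032407028587027c07027007024987024907024387023d8702020701f70701f60701ef8f01bf8f01bf0701be8701b98701b90701b38f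 = true := by
  decide +kernel

theorem wr (hf : Rule f) {k c n M X : ℕ} (H : PL f k c n M) (hX : 2 * n + 3 ≤ X) (ho : X % 2 = 1)
    (h0 : f (6 * k + 6) c X (X - 1)) : f (6 * k + 6) (c + 2) (X + 5) (X + 2) := by
  by_contra z0
  have hk := H.T.hk
  have hc := H.T.hc
  have h4' := H.T.h4
  have hb := H.T.hb
  have hN := H.T.hN2
  obtain ⟨a0, ha0⟩ : ∃ z, z = 6 * k + 5 := ⟨_, rfl⟩
  obtain ⟨b0, hb0⟩ : ∃ z, z + 2 = c := ⟨c - 2, by omega⟩
  obtain ⟨x0, hx0⟩ : ∃ z, z + 2 = X := ⟨X - 2, by omega⟩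
  refine check_sound hf (a0 := a0) (b0 := b0) (x0 := x0) (y0 := x0) wr_chk
    ⟨fun _ => rfl, fun h => absurd h (by decide), fun h => absurd h (by decide), by omega, by omega,
      by omega, by omega⟩ ?_ ?_
  · intro j m p q hr h
    obtain ⟨-, -, -, -, hp1, hp2, hq1, hq2⟩ := hr
    replace h := of_decide_eq_true h
    rcases h with h | h | h | h
    · obtain ⟨rfl, rfl, h⟩ := h
      exact (WrapC.v3 H.c6 (by omega) (by omega) (by omega) (by omega) (by omega) (by omega) (by omega) (by omega)).mpr (by omega)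
    · obtain ⟨rfl, rfl, h⟩ := h
      exact (NW.w3v H.c8 (by omega) (by omega) (by omega) (by omega) (by omega) (by omega) (by omega) (by omega)).mpr (by omega)
    · obtain ⟨rfl, rfl, h⟩ := h
      exact (NW.w3v H.c10a (by omega) (by omega) (by omega) (by omega) (by omega) (by omega) (by omega) (by omega)).mpr (by omega)
    · obtain ⟨rfl, rfl, rfl, rfl⟩ := h
      exact mv h0 (by omega) (by omega) (by omega) (by omega)
  · intro j m p q hr h
    obtain ⟨-, -, -, -, hp1, hp2, hq1, hq2⟩ := hr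
    replace h := of_decide_eq_true h
    rcases h with h | h | h | h | h | h | h | h | h | h | h | h | h
    · obtain ⟨rfl, rfl, h⟩ := h
      exact mt (WrapC.v3 H.c6 (by omega) (by omega) (by omega) (by omega) (by omega) (by omega) (by omega) (by omega)).mp (by omega)
    · obtain ⟨rfl, rfl, h⟩ := h
      exact mt (NW.w3v H.c8 (by omega) (by omega) (by omega) (by omega) (by omega) (by omega) (by omega) (by omega)).mp (by omega)
    · obtain ⟨rfl, rfl, h⟩ := h
      exact mt (NW.w3v H.c10a (by omega) (by omega) (by omega) (by omega) (by omega) (by omega) (by omega) (by omega)).mp (by omega)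
    · obtain ⟨rfl, rfl, h⟩ := h
      exact fun t => NHT.rm1i hf H.T (p := 1) (j := 1) (by omega) (by omega) (by omega) (by omega) (by omega) (by omega) (mv t rfl (by omega) rfl rfl)
    · obtain ⟨rfl, rfl, h⟩ := h
      exact fun t => NHT.rm1 hf H.T (p := 1) (j := 0) (by omega) (by omega) (by omega) (by omega) (by omega) (by omega) (mv t rfl (by omega) rfl rfl)
    · obtain ⟨rfl, rfl, h⟩ := h
      exact fun t => NHT.rm1i hf H.T (p := 1) (j := 0) (by omega) (by omega) (by omega) (by omega) (by omega) (by omega) (mv t rfl (by omega) rfl rfl)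
    · obtain ⟨rfl, rfl, h⟩ := h
      exact NHT.p0 hf H.T (j := 0) (by omega) (by omega) (by omega) (by omega) (by omega) (by omega)
    · obtain ⟨rfl, rfl, h⟩ := h
      exact fun t => NHT.r1 hf H.T (p := 0) (j := 1) (by omega) (by omega) (by omega) (by omega) (by omega) (by omega) (mv t rfl (by omega) rfl rfl)
    · obtain ⟨rfl, rfl, h⟩ := h
      exact fun t => NHT.r1 hf H.T (p := 1) (j := 1) (by omega) (by omega) (by omega) (by omega) (by omega) (by omega) (mv t rfl (by omega) rfl rfl)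
    · obtain ⟨rfl, rfl, h⟩ := h
      exact fun t => NHT.r1 hf H.T (p := 1) (j := 0) (by omega) (by omega) (by omega) (by omega) (by omega) (by omega) (mv t rfl (by omega) rfl rfl)
    · obtain ⟨rfl, rfl, h⟩ := h
      exact NHT.p2 hf H.T (j := 1) (by omega) (by omega) (by omega) (by omega) (by omega) (by omega)
    · obtain ⟨rfl, rfl, h⟩ := h
      exact NHT.p2 hf H.T (j := 0) (by omega) (by omega) (by omega) (by omega) (by omega) (by omega)
    · obtain ⟨rfl, rfl, rfl, rfl⟩ := h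
      exact fun t => z0 (mv t (by omega) (by omega) (by omega) (by omega))

end Pool.Agent.SNT.E1X
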