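import Pool.Agent.SNT.PL

set_option autoImplicit false
set_option synthInstance.maxSize 100000
set_option synthInstance.maxHeartbeats 4000000

/-! E1 and the second line of `6 k + 6` (window W2). -/

namespace Pool.Agent.SNT.E1X

open Pool.Agent.SNT Pool.Agent.SNT.Loc Pool.Agent.SNT.LW Pool.Agent.SNT.NHZ Pool.Agent.SNT.D1E Pool.Agent.SNT.K0L2c

variable {f : ℕ → ℕ → ℕ → ℕ → Prop}

theorem w2_chk : check 8 9 17 23 0 1 1 0 0
    (fun j n p q => decide ((j = 2 ∧ n = 1 ∧ q ≤ p + 16 ∧ (((p + q + 1) % 2 = 1 ∧ p + 2 ≤ q ∧ p % 2 = 0) ∨ ((p + q + 1) % 2 = 1 ∧ q ≤ p + 2 ∧ (p + q + 2) % 4 = 0)))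
      ∨ (j = 2 ∧ n = 2 ∧ q ≤ p + 16 ∧ ((p + q + 1) % 2 = 0 ∧ q ≤ p + 1 ∧ (p + q + 3) % 4 = 0))
      ∨ (j = 2 ∧ n = 3 ∧ q ≤ p + 1 ∧ q ≤ p + 16 ∧ (((p + q + 1) % 2 = 1 ∧ p + 2 ≤ q ∧ p % 2 = 1) ∨ ((p + q + 1) % 2 = 1 ∧ q ≤ p + 2 ∧ (p + q) % 4 = 0)))
      ∨ (j = 2 ∧ n = 5 ∧ 12 ≤ p ∧ q ≤ p + 16 ∧ (((p + q + 1) % 2 = 1 ∧ p + 2 ≤ q ∧ p % 2 = 0) ∨ ((p + q + 1) % 2 = 1 ∧ q ≤ p + 2 ∧ (p + q + 2) % 4 = 0)))
      ∨ (j = 2 ∧ n = 6 ∧ ((14 ≤ p) ∨ (p + 1 ≤ q ∧ 13 ≤ p)) ∧ q ≤ p + 16 ∧ ((p + q + 1) % 2 = 0 ∧ q ≤ p + 1 ∧ (p + q + 3) % 4 = 0))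
      ∨ (j = 4 ∧ n = 1 ∧ q ≤ p + 16 ∧ (((p + q + 1) % 2 = 1 ∧ p ≤ q + 0 ∧ p % 2 = 1) ∨ ((p + q + 1) % 2 = 1 ∧ q ≤ p + 0 ∧ (p + q) % 4 = 2)))
      ∨ (j = 4 ∧ n = 2 ∧ q ≤ p + 16 ∧ ((p + q + 1) % 2 = 0 ∧ q + 1 ≤ p ∧ (p + q + 1) % 4 = 2))
      ∨ (j = 4 ∧ n = 3 ∧ 2 ≤ p ∧ q ≤ p + 16 ∧ (((p + q + 1) % 2 = 1 ∧ p ≤ q + 0 ∧ p % 2 = 0) ∨ ((p + q + 1) % 2 = 1 ∧ q ≤ p + 0 ∧ (p + q + 2) % 4 = 2)))
      ∨ (j = 4 ∧ n = 3 ∧ q ≤ p + 16 ∧ (((p + q + 1) % 2 = 1 ∧ p ≤ q + 0 ∧ p % 2 = 0) ∨ ((p + q + 1) % 2 = 1 ∧ q ≤ p + 0 ∧ (p + q + 2) % 4 = 2)))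
      ∨ (j = 4 ∧ n = 4 ∧ ((2 ≤ p) ∨ (p ≤ q + 1)) ∧ q ≤ p + 16 ∧ ((p + q + 1) % 2 = 0 ∧ q + 1 ≤ p ∧ (p + q + 3) % 4 = 2))
      ∨ (j = 4 ∧ n = 5 ∧ q + 1 ≤ p ∧ 4 ≤ p ∧ q ≤ p + 16 ∧ (((p + q + 1) % 2 = 1 ∧ p ≤ q + 0 ∧ p % 2 = 1) ∨ ((p + q + 1) % 2 = 1 ∧ q ≤ p + 0 ∧ (p + q) % 4 = 2)))
      ∨ (j = 6 ∧ n = 1 ∧ q ≤ p + 16 ∧ (((p + q + 1) % 2 = 1 ∧ p ≤ q + 0 ∧ p % 2 = 0) ∨ ((p + q + 1) % 2 = 1 ∧ q ≤ p + 0 ∧ (p + q + 2) % 4 = 2)))
      ∨ (j = 6 ∧ n = 2 ∧ q ≤ p + 16 ∧ ((p + q + 1) % 2 = 0 ∧ q + 1 ≤ p ∧ (p + q + 3) % 4 = 2))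
      ∨ (j = 6 ∧ n = 3 ∧ ((p ≤ q + 0 ∧ 2 ≤ q) ∨ (q + 1 ≤ p)) ∧ q ≤ p + 16 ∧ (((p + q + 1) % 2 = 1 ∧ p ≤ q + 0 ∧ p % 2 = 1) ∨ ((p + q + 1) % 2 = 1 ∧ q ≤ p + 0 ∧ (p + q) % 4 = 2)))
      ∨ (j = 6 ∧ n = 4 ∧ ((p ≤ q + 0 ∧ 4 ≤ q) ∨ (5 ≤ p)) ∧ q ≤ p + 16 ∧ ((p + q + 1) % 2 = 0 ∧ q + 1 ≤ p ∧ (p + q + 1) % 4 = 2))
      ∨ (j = 6 ∧ n = 5 ∧ ((4 ≤ p ∧ p + 2 ≤ q) ∨ (6 ≤ p)) ∧ q ≤ p + 16 ∧ (((p + q + 1) % 2 = 1 ∧ p ≤ q + 0 ∧ p % 2 = 0) ∨ ((p + q + 1) % 2 = 1 ∧ q ≤ p + 0 ∧ (p + q + 2) % 4 = 2)))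
      ∨ (j = 6 ∧ n = 6 ∧ ((5 ≤ p ∧ p + 2 ≤ q) ∨ (8 ≤ p)) ∧ q ≤ p + 16 ∧ ((p + q + 1) % 2 = 0 ∧ q + 1 ≤ p ∧ (p + q + 3) % 4 = 2))
      ∨ (j = 6 ∧ n = 7 ∧ q + 1 ≤ p ∧ 10 ≤ p ∧ q ≤ p + 16 ∧ (((p + q + 1) % 2 = 1 ∧ p ≤ q + 0 ∧ p % 2 = 1) ∨ ((p + q + 1) % 2 = 1 ∧ q ≤ p + 0 ∧ (p + q) % 4 = 2)))
      ∨ (j = 8 ∧ n = 3 ∧ q ≤ p + 16 ∧ (((p + q + 1) % 2 = 1 ∧ p ≤ q + 0 ∧ p % 2 = 0) ∨ ((p + q + 1) % 2 = 1 ∧ q ≤ p + 0 ∧ (p + q + 2) % 4 = 2)))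
      ∨ (j = 8 ∧ n = 4 ∧ q ≤ p + 16 ∧ ((p + q + 1) % 2 = 0 ∧ q + 1 ≤ p ∧ (p + q + 3) % 4 = 2))
      ∨ (j = 8 ∧ n = 5 ∧ ((p ≤ q + 0 ∧ 8 ≤ q) ∨ (q + 1 ≤ p)) ∧ q ≤ p + 16 ∧ (((p + q + 1) % 2 = 1 ∧ p ≤ q + 0 ∧ p % 2 = 1) ∨ ((p + q + 1) % 2 = 1 ∧ q ≤ p + 0 ∧ (p + q) % 4 = 2)))
      ∨ (j = 8 ∧ n = 6 ∧ ((p ≤ q + 0 ∧ 10 ≤ q) ∨ (11 ≤ p)) ∧ q ≤ p + 16 ∧ ((p + q + 1) % 2 = 0 ∧ q + 1 ≤ p ∧ (p + q + 1) % 4 = 2))
      ∨ (j = 8 ∧ n = 7 ∧ ((10 ≤ p ∧ p + 2 ≤ q) ∨ (12 ≤ p)) ∧ q ≤ p + 16 ∧ (((p + q + 1) % 2 = 1 ∧ p ≤ q + 0 ∧ p % 2 = 0) ∨ ((p + q + 1) % 2 = 1 ∧ q ≤ p + 0 ∧ (p + q + 2) % 4 = 2)))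
      ∨ (j = 1 ∧ n = 5 ∧ p = 5 ∧ q = 8)
      ∨ (j = 4 ∧ n = 5 ∧ p = 3 ∧ q = 11)))
    (fun j n p q => decide ((j = 2 ∧ n = 1 ∧ q ≤ p + 16 ∧ ¬ (((p + q + 1) % 2 = 1 ∧ p + 2 ≤ q ∧ p % 2 = 0) ∨ ((p + q + 1) % 2 = 1 ∧ q ≤ p + 2 ∧ (p + q + 2) % 4 = 0)))
      ∨ (j = 2 ∧ n = 2 ∧ q ≤ p + 16 ∧ ¬ ((p + q + 1) % 2 = 0 ∧ q ≤ p + 1 ∧ (p + q + 3) % 4 = 0))
      ∨ (j = 2 ∧ n = 3 ∧ q ≤ p + 1 ∧ q ≤ p + 16 ∧ ¬ (((p + q + 1) % 2 = 1 ∧ p + 2 ≤ q ∧ p % 2 = 1) ∨ ((p + q + 1) % 2 = 1 ∧ q ≤ p + 2 ∧ (p + q) % 4 = 0)))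
      ∨ (j = 2 ∧ n = 5 ∧ 12 ≤ p ∧ q ≤ p + 16 ∧ ¬ (((p + q + 1) % 2 = 1 ∧ p + 2 ≤ q ∧ p % 2 = 0) ∨ ((p + q + 1) % 2 = 1 ∧ q ≤ p + 2 ∧ (p + q + 2) % 4 = 0)))
      ∨ (j = 2 ∧ n = 6 ∧ ((14 ≤ p) ∨ (p + 1 ≤ q ∧ 13 ≤ p)) ∧ q ≤ p + 16 ∧ ¬ ((p + q + 1) % 2 = 0 ∧ q ≤ p + 1 ∧ (p + q + 3) % 4 = 0))
      ∨ (j = 4 ∧ n = 1 ∧ q ≤ p + 16 ∧ ¬ (((p + q + 1) % 2 = 1 ∧ p ≤ q + 0 ∧ p % 2 = 1) ∨ ((p + q + 1) % 2 = 1 ∧ q ≤ p + 0 ∧ (p + q) % 4 = 2)))
      ∨ (j = 4 ∧ n = 2 ∧ q ≤ p + 16 ∧ ¬ ((p + q + 1) % 2 = 0 ∧ q + 1 ≤ p ∧ (p + q + 1) % 4 = 2))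
      ∨ (j = 4 ∧ n = 3 ∧ 2 ≤ p ∧ q ≤ p + 16 ∧ ¬ (((p + q + 1) % 2 = 1 ∧ p ≤ q + 0 ∧ p % 2 = 0) ∨ ((p + q + 1) % 2 = 1 ∧ q ≤ p + 0 ∧ (p + q + 2) % 4 = 2)))
      ∨ (j = 4 ∧ n = 3 ∧ q ≤ p + 16 ∧ ¬ (((p + q + 1) % 2 = 1 ∧ p ≤ q + 0 ∧ p % 2 = 0) ∨ ((p + q + 1) % 2 = 1 ∧ q ≤ p + 0 ∧ (p + q + 2) % 4 = 2)))
      ∨ (j = 4 ∧ n = 4 ∧ ((2 ≤ p) ∨ (p ≤ q + 1)) ∧ q ≤ p + 16 ∧ ¬ ((p + q + 1) % 2 = 0 ∧ q + 1 ≤ p ∧ (p + q + 3) % 4 = 2))
      ∨ (j = 4 ∧ n = 5 ∧ q + 1 ≤ p ∧ 4 ≤ p ∧ q ≤ p + 16 ∧ ¬ (((p + q + 1) % 2 = 1 ∧ p ≤ q + 0 ∧ p % 2 = 1) ∨ ((p + q + 1) % 2 = 1 ∧ q ≤ p + 0 ∧ (p + q) % 4 = 2)))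
      ∨ (j = 6 ∧ n = 1 ∧ q ≤ p + 16 ∧ ¬ (((p + q + 1) % 2 = 1 ∧ p ≤ q + 0 ∧ p % 2 = 0) ∨ ((p + q + 1) % 2 = 1 ∧ q ≤ p + 0 ∧ (p + q + 2) % 4 = 2)))
      ∨ (j = 6 ∧ n = 2 ∧ q ≤ p + 16 ∧ ¬ ((p + q + 1) % 2 = 0 ∧ q + 1 ≤ p ∧ (p + q + 3) % 4 = 2))
      ∨ (j = 6 ∧ n = 3 ∧ ((p ≤ q + 0 ∧ 2 ≤ q) ∨ (q + 1 ≤ p)) ∧ q ≤ p + 16 ∧ ¬ (((p + q + 1) % 2 = 1 ∧ p ≤ q + 0 ∧ p % 2 = 1) ∨ ((p + q + 1) % 2 = 1 ∧ q ≤ p + 0 ∧ (p + q) % 4 = 2)))
      ∨ (j = 6 ∧ n = 4 ∧ ((p ≤ q + 0 ∧ 4 ≤ q) ∨ (5 ≤ p)) ∧ q ≤ p + 16 ∧ ¬ ((p + q + 1) % 2 = 0 ∧ q + 1 ≤ p ∧ (p + q + 1) % 4 = 2))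
      ∨ (j = 6 ∧ n = 5 ∧ ((4 ≤ p ∧ p + 2 ≤ q) ∨ (6 ≤ p)) ∧ q ≤ p + 16 ∧ ¬ (((p + q + 1) % 2 = 1 ∧ p ≤ q + 0 ∧ p % 2 = 0) ∨ ((p + q + 1) % 2 = 1 ∧ q ≤ p + 0 ∧ (p + q + 2) % 4 = 2)))
      ∨ (j = 6 ∧ n = 6 ∧ ((5 ≤ p ∧ p + 2 ≤ q) ∨ (8 ≤ p)) ∧ q ≤ p + 16 ∧ ¬ ((p + q + 1) % 2 = 0 ∧ q + 1 ≤ p ∧ (p + q + 3) % 4 = 2))
      ∨ (j = 6 ∧ n = 7 ∧ q + 1 ≤ p ∧ 10 ≤ p ∧ q ≤ p + 16 ∧ ¬ (((p + q + 1) % 2 = 1 ∧ p ≤ q + 0 ∧ p % 2 = 1) ∨ ((p + q + 1) % 2 = 1 ∧ q ≤ p + 0 ∧ (p + q) % 4 = 2)))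
      ∨ (j = 8 ∧ n = 3 ∧ q ≤ p + 16 ∧ ¬ (((p + q + 1) % 2 = 1 ∧ p ≤ q + 0 ∧ p % 2 = 0) ∨ ((p + q + 1) % 2 = 1 ∧ q ≤ p + 0 ∧ (p + q + 2) % 4 = 2)))
      ∨ (j = 8 ∧ n = 4 ∧ q ≤ p + 16 ∧ ¬ ((p + q + 1) % 2 = 0 ∧ q + 1 ≤ p ∧ (p + q + 3) % 4 = 2))
      ∨ (j = 8 ∧ n = 5 ∧ ((p ≤ q + 0 ∧ 8 ≤ q) ∨ (q + 1 ≤ p)) ∧ q ≤ p + 16 ∧ ¬ (((p + q + 1) % 2 = 1 ∧ p ≤ q + 0 ∧ p % 2 = 1) ∨ ((p + q + 1) % 2 = 1 ∧ q ≤ p + 0 ∧ (p + q) % 4 = 2)))
      ∨ (j = 8 ∧ n = 6 ∧ ((p ≤ q + 0 ∧ 10 ≤ q) ∨ (11 ≤ p)) ∧ q ≤ p + 16 ∧ ¬ ((p + q + 1) % 2 = 0 ∧ q + 1 ≤ p ∧ (p + q + 1) % 4 = 2))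
      ∨ (j = 8 ∧ n = 7 ∧ ((10 ≤ p ∧ p + 2 ≤ q) ∨ (12 ≤ p)) ∧ q ≤ p + 16 ∧ ¬ (((p + q + 1) % 2 = 1 ∧ p ≤ q + 0 ∧ p % 2 = 0) ∨ ((p + q + 1) % 2 = 1 ∧ q ≤ p + 0 ∧ (p + q + 2) % 4 = 2)))
      ∨ (j = 1 ∧ n = 1 ∧ p + 3 ≤ q ∧ q ≤ p + 16)
      ∨ (j = 1 ∧ n = 2 ∧ p + 4 ≤ q ∧ q ≤ p + 15)
      ∨ (j = 2 ∧ n = 2 ∧ p + 3 ≤ q ∧ q ≤ p + 16)
      ∨ (j = 3 ∧ n = 2 ∧ p + 3 ≤ q ∧ q ≤ p + 16)
      ∨ (j = 3 ∧ n = 2 ∧ p + 1 ≤ q ∧ q ≤ p + 16)
      ∨ (j = 1 ∧ n = 3 ∧ p + 4 ≤ q ∧ q ≤ p + 15)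
      ∨ (j = 3 ∧ n = 3 ∧ p + 3 ≤ q ∧ q ≤ p + 16)
      ∨ (j = 3 ∧ n = 3 ∧ p + 1 ≤ q ∧ q ≤ p + 16)
      ∨ (j = 1 ∧ n = 4 ∧ p + 5 ≤ q ∧ q ≤ p + 14)
      ∨ (j = 2 ∧ n = 4 ∧ p + 4 ≤ q ∧ q ≤ p + 15)
      ∨ (j = 3 ∧ n = 4 ∧ p + 4 ≤ q ∧ q ≤ p + 15)
      ∨ (j = 3 ∧ n = 4 ∧ 5 ≤ p ∧ p + 2 ≤ q ∧ q ≤ p + 15)
      ∨ (j = 4 ∧ n = 4 ∧ p + 3 ≤ q ∧ q ≤ p + 16)
      ∨ (j = 4 ∧ n = 4 ∧ p + 1 ≤ q ∧ q ≤ p + 16)
      ∨ (j = 5 ∧ n = 4 ∧ p + 3 ≤ q ∧ q ≤ p + 16)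
      ∨ (j = 5 ∧ n = 4 ∧ p + 1 ≤ q ∧ q ≤ p + 16)
      ∨ (j = 1 ∧ n = 5 ∧ 3 ≤ p ∧ p + 5 ≤ q ∧ q ≤ p + 14)
      ∨ (j = 3 ∧ n = 5 ∧ 3 ≤ p ∧ p + 4 ≤ q ∧ q ≤ p + 15)
      ∨ (j = 3 ∧ n = 5 ∧ 5 ≤ p ∧ p + 2 ≤ q ∧ q ≤ p + 15)
      ∨ (j = 5 ∧ n = 5 ∧ 3 ≤ p ∧ p + 3 ≤ q ∧ q ≤ p + 16)
      ∨ (j = 5 ∧ n = 5 ∧ 5 ≤ p ∧ p + 1 ≤ q ∧ q ≤ p + 16)
      ∨ (j = 1 ∧ n = 6 ∧ 4 ≤ p ∧ p + 6 ≤ q ∧ q ≤ p + 13)
      ∨ (j = 1 ∧ n = 6 ∧ 9 ≤ p ∧ p + 6 ≤ q ∧ q ≤ p + 13)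
      ∨ (j = 2 ∧ n = 6 ∧ 4 ≤ p ∧ p + 5 ≤ q ∧ q ≤ p + 14)
      ∨ (j = 3 ∧ n = 6 ∧ 4 ≤ p ∧ p + 5 ≤ q ∧ q ≤ p + 14)
      ∨ (j = 3 ∧ n = 6 ∧ 9 ≤ p ∧ p + 5 ≤ q ∧ q ≤ p + 14)
      ∨ (j = 3 ∧ n = 6 ∧ 11 ≤ p ∧ p + 3 ≤ q ∧ q ≤ p + 14)
      ∨ (j = 4 ∧ n = 6 ∧ 4 ≤ p ∧ p + 4 ≤ q ∧ q ≤ p + 15)
      ∨ (j = 4 ∧ n = 6 ∧ 6 ≤ p ∧ p + 2 ≤ q ∧ q ≤ p + 15)
      ∨ (j = 5 ∧ n = 6 ∧ 4 ≤ p ∧ p + 4 ≤ q ∧ q ≤ p + 15)
      ∨ (j = 5 ∧ n = 6 ∧ 9 ≤ p ∧ p + 4 ≤ q ∧ q ≤ p + 15)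
      ∨ (j = 5 ∧ n = 6 ∧ 6 ≤ p ∧ p + 2 ≤ q ∧ q ≤ p + 15)
      ∨ (j = 5 ∧ n = 6 ∧ 11 ≤ p ∧ p + 2 ≤ q ∧ q ≤ p + 15)
      ∨ (j = 6 ∧ n = 6 ∧ 4 ≤ p ∧ p + 3 ≤ q ∧ q ≤ p + 16)
      ∨ (j = 6 ∧ n = 6 ∧ 6 ≤ p ∧ p + 1 ≤ q ∧ q ≤ p + 16)
      ∨ (j = 7 ∧ n = 6 ∧ 4 ≤ p ∧ p + 3 ≤ q ∧ q ≤ p + 16)
      ∨ (j = 7 ∧ n = 6 ∧ 9 ≤ p ∧ p + 3 ≤ q ∧ q ≤ p + 16)
      ∨ (j = 7 ∧ n = 6 ∧ 6 ≤ p ∧ p + 1 ≤ q ∧ q ≤ p + 16)
      ∨ (j = 7 ∧ n = 6 ∧ 11 ≤ p ∧ p + 1 ≤ q ∧ q ≤ p + 16)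
      ∨ (j = 1 ∧ n = 7 ∧ 9 ≤ p ∧ p + 6 ≤ q ∧ q ≤ p + 13)
      ∨ (j = 3 ∧ n = 7 ∧ 9 ≤ p ∧ p + 5 ≤ q ∧ q ≤ p + 14)
      ∨ (j = 3 ∧ n = 7 ∧ 11 ≤ p ∧ p + 3 ≤ q ∧ q ≤ p + 14)
      ∨ (j = 5 ∧ n = 7 ∧ 9 ≤ p ∧ p + 4 ≤ q ∧ q ≤ p + 15)
      ∨ (j = 5 ∧ n = 7 ∧ 11 ≤ p ∧ p + 2 ≤ q ∧ q ≤ p + 15)
      ∨ (j = 7 ∧ n = 7 ∧ 9 ≤ p ∧ p + 3 ≤ q ∧ q ≤ p + 16)
      ∨ (j = 7 ∧ n = 7 ∧ 11 ≤ p ∧ p + 1 ≤ q ∧ q ≤ p + 16)
      ∨ (j = 2 ∧ n = 7 ∧ p = 10 ∧ q = 16)))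
    896
    0x17328311168018b9e21046801726421900831146001825c2106b00174ac21a7c831390801a7bd22166802846422096802096811fbb801fbb812166032166802846ca21678021680a21688021690a216980216a0a1a7c831390801a7bd221670028474a21680021688a21690021698a216a00216a04215280283dd2215180283cd2215080283bd2214f80283ad2208b00208b011fb0001fb00418e90319ac8019ac84120a8312d98012d98412098312cd0012cd041fe00320a38020a38418e98312d90012d9041fbb83207f80207f8411518012213a1fe0831831001831010a72000a720418ea030a67000a67042f3e83278f002852a219c40019c4010b35800b358418e98319ad0019ad0418ea030a5b800a5b84207e83207f00207f0426bf831fe0801fe0841feb8320af8020af8418ea030b1f000b1f0418ea0312ce0012ce0418e98312cd8012cd8418e9830a5b000a5b0418310318f48018f484361d8328528028528419ad0319b88019b88418e9030b29800b298418f6030a67800a678436110328468028468435fa83282f80282f8418e9830b2a000b2a04216885215c802853d22847d21a88001a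8804283c031a71001a710418ea0319ad8019ad8436110328460028460412cc0019abc235f903276a8027761219ab8019ab8426bf8327830027830435f903276a8027761219ab8019ab81139b80139b84361d832f3e802f3e8435f903276a8027761219ab8019ab8113900013900411f10018d0c2269b0318d08018d08418f6030b2b000b2b0419958319a10019a10418f40319b80019b80419b7031a7b001a7b0435fa83282f80283b9a1a70801a708411f30311fe8011fe84107680175642105f80105f8435fa83282f80283b121a70001a70041221030a66000a660418e9030a5a800a5a8418d2830b13000b130435f903282e80282e8418f40312d88012d88435fa03282f00282f04174a83112e8018d26a12c18012c18426cb0319008019008411db8018c6d211da8018ba4211160017f5c2103b00103b0418de0312c20012c20418f60312da001a7dea139180139184285e03285e80285e841a7a031a7a801a7a84175603113a80113a84174a83112e8018d26a12b60012b604360583283a80283a8418f40312d80012d80411f38511e78018ded219967219a18019a18418190311fd8011fd8420ae80278e421fd3802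6b34212e28012ca801fbc8019c24219aa42269cca21648012128012078011fa8011ef801fa58028444210778018f24218e74218da4218cf422685ca20a1802094802089801762d2115c80114f80114480113780112c80111f801114801f8e80278142277442276942108e80183c42182f42182442181742180c4217ff4217f4423cfc803ce4803ccd802f2f802f17802e79802e6c802e61802e5f802e54802e49802db6802d9e802d86801ff6801fe9801fde801fd1801fc6801fc4801fb9801fae802052aa1f77801f1b801f0e801f03801f01801ef6801eeb801ede801ed3801e58801e40801e2880183dfa122c80122280122180121f80109980108c80108180107f80107480106980106780105c80105180104f801044801039800fd6800fc9800fbe800fbc800fb1800fa6800fa4800f99800f8e800f8c800f81800f76800aee803cfc8f3ce48f3ccd8f361d8736120736118736058735fa8735fa0735f98735ef0735ee87355a07354e87354e07354207353707353687353607352b87352b07352a87352a072f33072f32072f31072f2f8f2f1b072f1a072f19072f178f2e7b072e7a872e7a072e798f2e6f872e6f07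2e6e872e6e072e6d872e6c8f2e62872e62072e618f2e5f8f2e57872e57072e56872e56072e55872e548f2e4c072e4b872e4b072e4a872e4a072e498f2db68f2d9e8f2d868f285f07285387285307284807284787284707283d87283d07283c87283c07283b87283b07283207283187283107283087283007279b87279007278f87278487278407278387277a07277987277907277887277807277787276e87276e07276d87276d07276c87276c07276b8726bf8726b40726b38726a787269c87269c07269107269087268f87268587268507267a0726798725fc0725f08725f00725e40725d90725d88725cd8725cd0725cc0725c20725c18725b68725b607217407217307215e07215d07215c07215b07215a0721590720b08720b00720a68720a60720a58720a50720a48720a407209b07209a87209a07209987209907209887209807208f07208e87208e07208d87208d07208c87208c072052872052072047072046871ff68f1feb071fea871fe98f1fdf071fde8f1fde071fdd871fd5071fd4071fd3071fd2871fd2071fd18f1fd1071fd0871fc7071fc68f1fc6071fc5871fc5071fc48f1fbd071fbc071fbb071fba8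71fba071fb98f1faf071fae8f1fa6071f8f071f778f1f28071f27871f1d071f1c871f1c071f1b8f1f11871f11071f10871f10071f0f871f0e8f1f04871f04071f038f1f018f1ef9871ef9071ef8071ef7871ef68f1eee071eed871eec871eec071eeb8f1ee2871ee2071ede8f1ed7071ed6871ed38f1e588f1e408f1e288f1a8a871a8a071a89871a89071a88871a7f071a7e871a7e071a7d871a7d071a7c871a72071a718719c70719c68719c60719c58719c50719bb8719bb0719ba8719ba0719b98719b90719ae8719ae07199607198a87198a0719730719728719678719670719010718f60718f58718f50718ea8718ea0718e98718e90718de8718de0718dd8718dd0718d30718d28718d20718d18718c70718c68718c60718c50718bb0718ba8718ba0718b98718b90718af8718af0718ae8718ae0718ad8718a40718a387183d87183287183207183187182707182687182607182587181b07181a87181a07181987180f87180f07180e87180e07180d8718038718030718028718018717f78717f70717f68717f60717f58717eb0717ea8717ea0717e987177a07177987176e87176e07176d871762871762071761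87175707175687175607175587174a87174a07174987173f07173e87173287173207173187172707172687172607172587171a87171a07169f07169e87169387169307169287169207168707168687167b87167b07166f07166e87166387166307166287166207165707165687139e07139d07139c07139a0713928712da8712cf0712ce8712b68712ab0712aa87122c8f12228f12218f122107122087121f8f121f07121e8712160712150712140712130712120711ff0711fe0711fd0711fc0711fb0711fa0711e70711e50711e40711cf0711ce07115307114787114707113b87113b07113007112f87112f07112407112387112307111807111787111707110b87110b07109a0710998f109907109887108f07108e07108d87108d07108c8f108c07108b8710820710818f108107108087108007107f8f10770710760710758710750710748f107407107387106a0710698f10690710688710680710678f105f07105d87105d07105c8f105c07105b8710520710518f105107105087105007104f8f10470710460710458710450710448f10398f0fd68f0fc98f0fbf870fbf070fbe8f0fbc8f0fb4070fb3870fb3070fb2870fb18f0fa7870fa7070fa68f0fa48f0f9c070f9b870f998f0f8f870f8f070f8e8f0f8c8f0f84070f83870f83070f82870f818f0f77870f77070f768f0b1f870b13870b08070b07870aee8f0a5c070a50070a44870a4407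 = true := by
  decide +kernel

theorem w2_aux (hf : Rule f) {k c n M X : ℕ} (H : PL f k c n M) (hM3 : n ≤ M + 3) (hX : X = 2 * M + 5)
    (p0 : ∀ {L R x y : ℕ}, L = 6 * k + 3 → R + 2 = c → x + 1 = X → y + 2 * k = X + 1 → f L R x y)
    (p1 : ∀ {L R x y : ℕ}, L = 6 * k + 6 → R + 2 = c → x + 3 = X → y + 2 * k = X + 4 → f L R x y)
    (z0 : ∀ {L R x y : ℕ}, L = 6 * k + 4 → R = c → x = X + 4 → y + 2 * k = X + 9 → ¬ f L R x y) : False := by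
  have hk := H.T.hk
  have hc := H.T.hc
  have h4 := H.T.h4
  have hb := H.T.hb
  have hN := H.T.hN2
  have hM0 := H.hM
  have hM1 := H.hM'
  have T := H.T
  have U := H.U
  have C0 := H.c0
  have C2 := H.c2
  have C4a := H.c4a
  have C4 := H.c4
  have C6a := H.c6a
  have C6 := H.c6
  have C8a := H.c8a
  have C8 := H.c8
  have C10a := H.c10a
  have C10 := H.c10
  have hL : ∀ {M' R x y : ℕ}, M' + 1 = 6 * k → c ≤ R + 12 → R ≤ c + 12 → 2 * n ≤ x + 20 → y ≤ x → x ≤ y + 4 * k →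
      ¬ f M' R x y := fun {a b c d} => H.lw a b c d
  obtain ⟨a0, ha0⟩ : ∃ z, z = 6 * k + 2 := ⟨_, rfl⟩
  obtain ⟨b0, hb0⟩ : ∃ z, z + 7 = c := ⟨c - 7, by omega⟩
  obtain ⟨x0, hx0⟩ : ∃ z, z + 6 = X := ⟨X - 6, by omega⟩
  obtain ⟨y0, hy0⟩ : ∃ z, z + 2 * k + 20 = X + 13 := ⟨X + 13 - 2 * k - 20, by omega⟩
  refine check_sound hf (a0 := a0) (b0 := b0) (x0 := x0) (y0 := y0) w2_chk
    ⟨fun h => absurd h (by decide), fun h => absurd h (by decide), fun h => absurd h (by decide), by omega, by omega,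
      by omega, by omega⟩ ?_ ?_
  · intro j m p q hr h
    obtain ⟨-, -, hm1, hm2, hp1, hp2, hq1, hq2⟩ := hr
    replace h := of_decide_eq_true h
    rcases h with h | h | h | h | h | h | h | h | h | h | h | h | h | h | h | h | h | h | h | h | h | h | h | h | h
    · obtain ⟨rfl, rfl, h⟩ := h
      exact (WrapC.v0 C4a (by omega) (by omega) (by omega) (by omega) (by omega) (by omega) (by omega)).mpr (by omega)
    · obtain ⟨rfl, rfl, h⟩ := h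
      exact (WrapC.v1 C4a (by omega) (by omega) (by omega) (by omega) (by omega) (by omega) (by omega) (by omega)).mpr (by omega)
    · obtain ⟨rfl, rfl, h⟩ := h
      exact (WrapC.v2 C4a (by omega) (by omega) (by omega) (by omega) (by omega) (by omega) (by omega)).mpr (by omega)
    · obtain ⟨rfl, rfl, h⟩ := h
      exact (WrapC.v0 C4 (by omega) (by omega) (by omega) (by omega) (by omega) (by omega) (by omega)).mpr (by omega)
    · obtain ⟨rfl, rfl, h⟩ := h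
      exact (WrapC.v1 C4 (by omega) (by omega) (by omega) (by omega) (by omega) (by omega) (by omega) (by omega)).mpr (by omega)
    · obtain ⟨rfl, rfl, h⟩ := h
      exact (WrapC.v2 C6a (by omega) (by omega) (by omega) (by omega) (by omega) (by omega) (by omega)).mpr (by omega)
    · obtain ⟨rfl, rfl, h⟩ := h
      exact (WrapC.v3 C6a (by omega) (by omega) (by omega) (by omega) (by omega) (by omega) (by omega) (by omega)).mpr (by omega)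
    · obtain ⟨rfl, rfl, h⟩ := h
      exact (WrapC.v4 C6a (by omega) (by omega) (by omega) (by omega) (by omega) (by omega) (by omega)).mpr (by omega)
    · obtain ⟨rfl, rfl, h⟩ := h
      exact (WrapC.v0 C6 (by omega) (by omega) (by omega) (by omega) (by omega) (by omega) (by omega)).mpr (by omega)
    · obtain ⟨rfl, rfl, h⟩ := h
      exact (WrapC.v1 C6 (by omega) (by omega) (by omega) (by omega) (by omega) (by omega) (by omega) (by omega)).mpr (by omega)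
    · obtain ⟨rfl, rfl, h⟩ := h
      exact (WrapC.v2 C6 (by omega) (by omega) (by omega) (by omega) (by omega) (by omega) (by omega)).mpr (by omega)
    · obtain ⟨rfl, rfl, h⟩ := h
      exact (NW.w0v C8a (by omega) (by omega) (by omega) (by omega) (by omega) (by omega) (by omega)).mpr (by omega)
    · obtain ⟨rfl, rfl, h⟩ := h
      exact (NW.w1v C8a (by omega) (by omega) (by omega) (by omega) (by omega) (by omega) (by omega) (by omega)).mpr (by omega)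
    · obtain ⟨rfl, rfl, h⟩ := h
      exact (NW.w2v C8a (by omega) (by omega) (by omega) (by omega) (by omega) (by omega) (by omega)).mpr (by omega)
    · obtain ⟨rfl, rfl, h⟩ := h
      exact (NW.w3v C8a (by omega) (by omega) (by omega) (by omega) (by omega) (by omega) (by omega) (by omega)).mpr (by omega)
    · obtain ⟨rfl, rfl, h⟩ := h
      exact (NW.w0v C8 (by omega) (by omega) (by omega) (by omega) (by omega) (by omega) (by omega)).mpr (by omega)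
    · obtain ⟨rfl, rfl, h⟩ := h
      exact (NW.w1v C8 (by omega) (by omega) (by omega) (by omega) (by omega) (by omega) (by omega) (by omega)).mpr (by omega)
    · obtain ⟨rfl, rfl, h⟩ := h
      exact (NW.w2v C8 (by omega) (by omega) (by omega) (by omega) (by omega) (by omega) (by omega)).mpr (by omega)
    · obtain ⟨rfl, rfl, h⟩ := h
      exact (NW.w0v C10a (by omega) (by omega) (by omega) (by omega) (by omega) (by omega) (by omega)).mpr (by omega)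
    · obtain ⟨rfl, rfl, h⟩ := h
      exact (NW.w1v C10a (by omega) (by omega) (by omega) (by omega) (by omega) (by omega) (by omega) (by omega)).mpr (by omega)
    · obtain ⟨rfl, rfl, h⟩ := h
      exact (NW.w2v C10a (by omega) (by omega) (by omega) (by omega) (by omega) (by omega) (by omega)).mpr (by omega)
    · obtain ⟨rfl, rfl, h⟩ := h
      exact (NW.w3v C10a (by omega) (by omega) (by omega) (by omega) (by omega) (by omega) (by omega) (by omega)).mpr (by omega)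
    · obtain ⟨rfl, rfl, h⟩ := h
      exact (NW.w0v C10 (by omega) (by omega) (by omega) (by omega) (by omega) (by omega) (by omega)).mpr (by omega)
    · obtain ⟨rfl, rfl, rfl, rfl⟩ := h
      exact p0 (by omega) (by omega) (by omega) (by omega)
    · obtain ⟨rfl, rfl, rfl, rfl⟩ := h
      exact p1 (by omega) (by omega) (by omega) (by omega)
  · intro j m p q hr h
    obtain ⟨-, -, hm1, hm2, hp1, hp2, hq1, hq2⟩ := hr
    replace h := of_decide_eq_true h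
    rcases h with h | h | h | h | h | h | h | h | h | h | h | h | h | h | h | h | h | h | h | h | h | h | h | h | h | h | h | h | h | h | h | h | h | h | h | h | h | h | h | h | h | h | h | h | h | h | h | h | h | h | h | h | h | h | h | h | h | h | h | h | h | h | h | h | h | h | h | h | h | h
    · obtain ⟨rfl, rfl, h⟩ := h
      exact mt (WrapC.v0 C4a (by omega) (by omega) (by omega) (by omega) (by omega) (by omega) (by omega)).mp (by omega)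
    · obtain ⟨rfl, rfl, h⟩ := h
      exact mt (WrapC.v1 C4a (by omega) (by omega) (by omega) (by omega) (by omega) (by omega) (by omega) (by omega)).mp (by omega)
    · obtain ⟨rfl, rfl, h⟩ := h
      exact mt (WrapC.v2 C4a (by omega) (by omega) (by omega) (by omega) (by omega) (by omega) (by omega)).mp (by omega)
    · obtain ⟨rfl, rfl, h⟩ := h
      exact mt (WrapC.v0 C4 (by omega) (by omega) (by omega) (by omega) (by omega) (by omega) (by omega)).mp (by omega)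
    · obtain ⟨rfl, rfl, h⟩ := h
      exact mt (WrapC.v1 C4 (by omega) (by omega) (by omega) (by omega) (by omega) (by omega) (by omega) (by omega)).mp (by omega)
    · obtain ⟨rfl, rfl, h⟩ := h
      exact mt (WrapC.v2 C6a (by omega) (by omega) (by omega) (by omega) (by omega) (by omega) (by omega)).mp (by omega)
    · obtain ⟨rfl, rfl, h⟩ := h
      exact mt (WrapC.v3 C6a (by omega) (by omega) (by omega) (by omega) (by omega) (by omega) (by omega) (by omega)).mp (by omega)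
    · obtain ⟨rfl, rfl, h⟩ := h
      exact mt (WrapC.v4 C6a (by omega) (by omega) (by omega) (by omega) (by omega) (by omega) (by omega)).mp (by omega)
    · obtain ⟨rfl, rfl, h⟩ := h
      exact mt (WrapC.v0 C6 (by omega) (by omega) (by omega) (by omega) (by omega) (by omega) (by omega)).mp (by omega)
    · obtain ⟨rfl, rfl, h⟩ := h
      exact mt (WrapC.v1 C6 (by omega) (by omega) (by omega) (by omega) (by omega) (by omega) (by omega) (by omega)).mp (by omega)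
    · obtain ⟨rfl, rfl, h⟩ := h
      exact mt (WrapC.v2 C6 (by omega) (by omega) (by omega) (by omega) (by omega) (by omega) (by omega)).mp (by omega)
    · obtain ⟨rfl, rfl, h⟩ := h
      exact mt (NW.w0v C8a (by omega) (by omega) (by omega) (by omega) (by omega) (by omega) (by omega)).mp (by omega)
    · obtain ⟨rfl, rfl, h⟩ := h
      exact mt (NW.w1v C8a (by omega) (by omega) (by omega) (by omega) (by omega) (by omega) (by omega) (by omega)).mp (by omega)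
    · obtain ⟨rfl, rfl, h⟩ := h
      exact mt (NW.w2v C8a (by omega) (by omega) (by omega) (by omega) (by omega) (by omega) (by omega)).mp (by omega)
    · obtain ⟨rfl, rfl, h⟩ := h
      exact mt (NW.w3v C8a (by omega) (by omega) (by omega) (by omega) (by omega) (by omega) (by omega) (by omega)).mp (by omega)
    · obtain ⟨rfl, rfl, h⟩ := h
      exact mt (NW.w0v C8 (by omega) (by omega) (by omega) (by omega) (by omega) (by omega) (by omega)).mp (by omega)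
    · obtain ⟨rfl, rfl, h⟩ := h
      exact mt (NW.w1v C8 (by omega) (by omega) (by omega) (by omega) (by omega) (by omega) (by omega) (by omega)).mp (by omega)
    · obtain ⟨rfl, rfl, h⟩ := h
      exact mt (NW.w2v C8 (by omega) (by omega) (by omega) (by omega) (by omega) (by omega) (by omega)).mp (by omega)
    · obtain ⟨rfl, rfl, h⟩ := h
      exact mt (NW.w0v C10a (by omega) (by omega) (by omega) (by omega) (by omega) (by omega) (by omega)).mp (by omega)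
    · obtain ⟨rfl, rfl, h⟩ := h
      exact mt (NW.w1v C10a (by omega) (by omega) (by omega) (by omega) (by omega) (by omega) (by omega) (by omega)).mp (by omega)
    · obtain ⟨rfl, rfl, h⟩ := h
      exact mt (NW.w2v C10a (by omega) (by omega) (by omega) (by omega) (by omega) (by omega) (by omega)).mp (by omega)
    · obtain ⟨rfl, rfl, h⟩ := h
      exact mt (NW.w3v C10a (by omega) (by omega) (by omega) (by omega) (by omega) (by omega) (by omega) (by omega)).mp (by omega)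
    · obtain ⟨rfl, rfl, h⟩ := h
      exact mt (NW.w0v C10 (by omega) (by omega) (by omega) (by omega) (by omega) (by omega) (by omega)).mp (by omega)
    · obtain ⟨rfl, rfl, h⟩ := h
      exact NHT.pIn hf T (t := 2) (j := 0) (by omega) (by omega) (by omega) (by omega) (by omega) (by omega) (by omega)
    · obtain ⟨rfl, rfl, h⟩ := h
      exact NHT.rIn hf T (t := 2) (p := 1) (j := 1) (by omega) (by omega) (by omega) (by omega) (by omega) (by omega) (by omega) (by omega)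
    · obtain ⟨rfl, rfl, h⟩ := h
      exact NHT.rIn hf T (t := 2) (p := 0) (j := 0) (by omega) (by omega) (by omega) (by omega) (by omega) (by omega) (by omega) (by omega)
    · obtain ⟨rfl, rfl, h⟩ := h
      exact NHT.rIn hf T (t := 2) (p := 1) (j := 0) (by omega) (by omega) (by omega) (by omega) (by omega) (by omega) (by omega) (by omega)
    · obtain ⟨rfl, rfl, h⟩ := h
      exact uP0 hf U (j := 0) (by omega) (by omega) (by omega) (by omega) (by omega) (by omega)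
    · obtain ⟨rfl, rfl, h⟩ := h
      exact NHT.pIn hf T (t := 3) (j := 1) (by omega) (by omega) (by omega) (by omega) (by omega) (by omega) (by omega)
    · obtain ⟨rfl, rfl, h⟩ := h
      exact NHT.pIn hf T (t := 3) (j := 0) (by omega) (by omega) (by omega) (by omega) (by omega) (by omega) (by omega)
    · obtain ⟨rfl, rfl, h⟩ := h
      exact uP0 hf U (j := 0) (by omega) (by omega) (by omega) (by omega) (by omega) (by omega)
    · obtain ⟨rfl, rfl, h⟩ := h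
      exact NHT.rIn hf T (t := 3) (p := 1) (j := 2) (by omega) (by omega) (by omega) (by omega) (by omega) (by omega) (by omega) (by omega)
    · obtain ⟨rfl, rfl, h⟩ := h
      exact NHT.rIn hf T (t := 3) (p := 0) (j := 1) (by omega) (by omega) (by omega) (by omega) (by omega) (by omega) (by omega) (by omega)
    · obtain ⟨rfl, rfl, h⟩ := h
      exact NHT.rIn hf T (t := 3) (p := 1) (j := 1) (by omega) (by omega) (by omega) (by omega) (by omega) (by omega) (by omega) (by omega)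
    · obtain ⟨rfl, rfl, h⟩ := h
      exact uP1 hf U (j := 1) (by omega) (by omega) (by omega) (by omega) (by omega) (by omega)
    · obtain ⟨rfl, rfl, h⟩ := h
      exact NHT.rIn hf T (t := 3) (p := 0) (j := 0) (by omega) (by omega) (by omega) (by omega) (by omega) (by omega) (by omega) (by omega)
    · obtain ⟨rfl, rfl, h⟩ := h
      exact uA0 hf U (p := 0) (j := 0) (by omega) (by omega) (by omega) (by omega) (by omega) (by omega) (by omega)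
    · obtain ⟨rfl, rfl, h⟩ := h
      exact NHT.rIn hf T (t := 3) (p := 1) (j := 0) (by omega) (by omega) (by omega) (by omega) (by omega) (by omega) (by omega) (by omega)
    · obtain ⟨rfl, rfl, h⟩ := h
      exact uA0 hf U (p := 1) (j := 0) (by omega) (by omega) (by omega) (by omega) (by omega) (by omega) (by omega)
    · obtain ⟨rfl, rfl, h⟩ := h
      exact NHT.pIn hf T (t := 4) (j := 2) (by omega) (by omega) (by omega) (by omega) (by omega) (by omega) (by omega)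
    · obtain ⟨rfl, rfl, h⟩ := h
      exact NHT.pIn hf T (t := 4) (j := 1) (by omega) (by omega) (by omega) (by omega) (by omega) (by omega) (by omega)
    · obtain ⟨rfl, rfl, h⟩ := h
      exact uP1 hf U (j := 1) (by omega) (by omega) (by omega) (by omega) (by omega) (by omega)
    · obtain ⟨rfl, rfl, h⟩ := h
      exact NHT.pIn hf T (t := 4) (j := 0) (by omega) (by omega) (by omega) (by omega) (by omega) (by omega) (by omega)
    · obtain ⟨rfl, rfl, h⟩ := h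
      exact uP1 hf U (j := 0) (by omega) (by omega) (by omega) (by omega) (by omega) (by omega)
    · obtain ⟨rfl, rfl, h⟩ := h
      exact NHT.rIn hf T (t := 4) (p := 1) (j := 3) (by omega) (by omega) (by omega) (by omega) (by omega) (by omega) (by omega) (by omega)
    · obtain ⟨rfl, rfl, h⟩ := h
      exact NHT.p0i hf T (j := 3) (by omega) (by omega) (by omega) (by omega) (by omega) (by omega)
    · obtain ⟨rfl, rfl, h⟩ := h
      exact NHT.rIn hf T (t := 4) (p := 0) (j := 2) (by omega) (by omega) (by omega) (by omega) (by omega) (by omega) (by omega) (by omega)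
    · obtain ⟨rfl, rfl, h⟩ := h
      exact NHT.rIn hf T (t := 4) (p := 1) (j := 2) (by omega) (by omega) (by omega) (by omega) (by omega) (by omega) (by omega) (by omega)
    · obtain ⟨rfl, rfl, h⟩ := h
      exact NHT.p0i hf T (j := 2) (by omega) (by omega) (by omega) (by omega) (by omega) (by omega)
    · obtain ⟨rfl, rfl, h⟩ := h
      exact uP2 hf U (j := 2) (by omega) (by omega) (by omega) (by omega) (by omega) (by omega)
    · obtain ⟨rfl, rfl, h⟩ := h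
      exact NHT.rIn hf T (t := 4) (p := 0) (j := 1) (by omega) (by omega) (by omega) (by omega) (by omega) (by omega) (by omega) (by omega)
    · obtain ⟨rfl, rfl, h⟩ := h
      exact uA1 hf U (p := 0) (j := 1) (by omega) (by omega) (by omega) (by omega) (by omega) (by omega) (by omega)
    · obtain ⟨rfl, rfl, h⟩ := h
      exact NHT.rIn hf T (t := 4) (p := 1) (j := 1) (by omega) (by omega) (by omega) (by omega) (by omega) (by omega) (by omega) (by omega)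
    · obtain ⟨rfl, rfl, h⟩ := h
      exact NHT.p0i hf T (j := 1) (by omega) (by omega) (by omega) (by omega) (by omega) (by omega)
    · obtain ⟨rfl, rfl, h⟩ := h
      exact uA1 hf U (p := 1) (j := 1) (by omega) (by omega) (by omega) (by omega) (by omega) (by omega) (by omega)
    · obtain ⟨rfl, rfl, h⟩ := h
      exact uP2 hf U (j := 1) (by omega) (by omega) (by omega) (by omega) (by omega) (by omega)
    · obtain ⟨rfl, rfl, h⟩ := h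
      exact NHT.rIn hf T (t := 4) (p := 0) (j := 0) (by omega) (by omega) (by omega) (by omega) (by omega) (by omega) (by omega) (by omega)
    · obtain ⟨rfl, rfl, h⟩ := h
      exact uA1 hf U (p := 0) (j := 0) (by omega) (by omega) (by omega) (by omega) (by omega) (by omega) (by omega)
    · obtain ⟨rfl, rfl, h⟩ := h
      exact NHT.rIn hf T (t := 4) (p := 1) (j := 0) (by omega) (by omega) (by omega) (by omega) (by omega) (by omega) (by omega) (by omega)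
    · obtain ⟨rfl, rfl, h⟩ := h
      exact NHT.p0i hf T (j := 0) (by omega) (by omega) (by omega) (by omega) (by omega) (by omega)
    · obtain ⟨rfl, rfl, h⟩ := h
      exact uA1 hf U (p := 1) (j := 0) (by omega) (by omega) (by omega) (by omega) (by omega) (by omega) (by omega)
    · obtain ⟨rfl, rfl, h⟩ := h
      exact uP2 hf U (j := 0) (by omega) (by omega) (by omega) (by omega) (by omega) (by omega)
    · obtain ⟨rfl, rfl, h⟩ := h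
      exact NHT.p0i hf T (j := 3) (by omega) (by omega) (by omega) (by omega) (by omega) (by omega)
    · obtain ⟨rfl, rfl, h⟩ := h
      exact NHT.p0i hf T (j := 2) (by omega) (by omega) (by omega) (by omega) (by omega) (by omega)
    · obtain ⟨rfl, rfl, h⟩ := h
      exact uP2 hf U (j := 2) (by omega) (by omega) (by omega) (by omega) (by omega) (by omega)
    · obtain ⟨rfl, rfl, h⟩ := h
      exact NHT.p0i hf T (j := 1) (by omega) (by omega) (by omega) (by omega) (by omega) (by omega)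
    · obtain ⟨rfl, rfl, h⟩ := h
      exact uP2 hf U (j := 1) (by omega) (by omega) (by omega) (by omega) (by omega) (by omega)
    · obtain ⟨rfl, rfl, h⟩ := h
      exact NHT.p0i hf T (j := 0) (by omega) (by omega) (by omega) (by omega) (by omega) (by omega)
    · obtain ⟨rfl, rfl, h⟩ := h
      exact uP2 hf U (j := 0) (by omega) (by omega) (by omega) (by omega) (by omega) (by omega)
    · obtain ⟨rfl, rfl, rfl, rfl⟩ := h
      exact z0 (by omega) (by omega) (by omega) (by omega)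

end Pool.Agent.SNT.E1X
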