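import Pool.Agent.SNT.PL

set_option autoImplicit false
set_option synthInstance.maxSize 100000
set_option synthInstance.maxHeartbeats 4000000

/-! E1: the in-line of `6 k + 4` (window W3). -/

namespace Pool.Agent.SNT.E1X

open Pool.Agent.SNT Pool.Agent.SNT.Loc Pool.Agent.SNT.LW Pool.Agent.SNT.NHZ Pool.Agent.SNT.D1E Pool.Agent.SNT.K0L2c

variable {f : ℕ → ℕ → ℕ → ℕ → Prop}

theorem w3_chk : check 6 6 6 11 0 0 1 0 0
    (fun j n p q => decide ((j = 2 ∧ n = 1 ∧ ((p + q + 1) % 2 = 0 ∧ q ≤ p + 1 ∧ (p + q + 3) % 4 = 0))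
      ∨ (j = 1 ∧ n = 4 ∧ p = 1 ∧ q = 4)))
    (fun j n p q => decide ((j = 2 ∧ n = 1 ∧ ¬ ((p + q + 1) % 2 = 0 ∧ q ≤ p + 1 ∧ (p + q + 3) % 4 = 0))
      ∨ (j = 3 ∧ n = 1 ∧ p + 1 ≤ q)
      ∨ (j = 3 ∧ n = 2 ∧ p + 1 ≤ q)
      ∨ (j = 2 ∧ n = 3 ∧ p + 4 ≤ q)
      ∨ (j = 3 ∧ n = 3 ∧ p + 2 ≤ q)
      ∨ (j = 3 ∧ n = 4 ∧ p + 2 ≤ q)
      ∨ (j = 2 ∧ n = 4 ∧ p = 2 ∧ q = 6)))
    33
    0x2a18301fc8002e46a01b98001518002e40702e38702de8702de0702c30702c28702bd8702bd0702a18702a107029c07029b87028087028007027b07027a87021e0702188701fd0701f78701f70701d58701ba8701ba0701b98f01b50701b48701518f = true := by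
  decide +kernel

theorem w3_aux (hf : Rule f) {k c n M X : ℕ} (H : PL f k c n M) (hM3 : n ≤ M + 3) (hX : X = 2 * M + 5)
    (p0 : ∀ {L R x y : ℕ}, L = 6 * k + 3 → R + 2 = c → x + 1 = X → y + 2 * k = X + 1 → f L R x y)
    (z0 : ∀ {L R x y : ℕ}, L = 6 * k + 4 → R + 2 = c → x = X → y + 2 * k = X + 3 → ¬ f L R x y) : False := by
  have hk := H.T.hk
  have hc := H.T.hc
  have h4 := H.T.h4
  have hb := H.T.hb
  have hN := H.T.hN2
  have hM0 := H.hM
  have hM1 := H.hM'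
  have T := H.T
  have U := H.U
  have C0 := H.c0
  have C2 := H.c2
  have C4a := H.c4a
  have C4 := H.c4
  have C6a := H.c6a
  have C6 := H.c6
  have C8a := H.c8a
  have C8 := H.c8
  have C10a := H.c10a
  have C10 := H.c10
  have hL : ∀ {M' R x y : ℕ}, M' + 1 = 6 * k → c ≤ R + 12 → R ≤ c + 12 → 2 * n ≤ x + 20 → y ≤ x → x ≤ y + 4 * k →
      ¬ f M' R x y := fun {a b c d} => H.lw a b c d
  obtain ⟨a0, ha0⟩ : ∃ z, z = 6 * k + 2 := ⟨_, rfl⟩
  obtain ⟨b0, hb0⟩ : ∃ z, z + 6 = c := ⟨c - 6, by omega⟩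
  obtain ⟨x0, hx0⟩ : ∃ z, z + 2 = X := ⟨X - 2, by omega⟩
  obtain ⟨y0, hy0⟩ : ∃ z, z + 2 * k + 20 = X + 17 := ⟨X + 17 - 2 * k - 20, by omega⟩
  refine check_sound hf (a0 := a0) (b0 := b0) (x0 := x0) (y0 := y0) w3_chk
    ⟨fun h => absurd h (by decide), fun h => absurd h (by decide), fun h => absurd h (by decide), by omega, by omega,
      by omega, by omega⟩ ?_ ?_
  · intro j m p q hr h
    obtain ⟨-, -, hm1, hm2, hp1, hp2, hq1, hq2⟩ := hr
    replace h := of_decide_eq_true h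
    rcases h with h | h
    · obtain ⟨rfl, rfl, h⟩ := h
      exact (WrapC.v1 C4a (by omega) (by omega) (by omega) (by omega) (by omega) (by omega) (by omega) (by omega)).mpr (by omega)
    · obtain ⟨rfl, rfl, rfl, rfl⟩ := h
      exact p0 (by omega) (by omega) (by omega) (by omega)
  · intro j m p q hr h
    obtain ⟨-, -, hm1, hm2, hp1, hp2, hq1, hq2⟩ := hr
    replace h := of_decide_eq_true h
    rcases h with h | h | h | h | h | h | h
    · obtain ⟨rfl, rfl, h⟩ := h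
      exact mt (WrapC.v1 C4a (by omega) (by omega) (by omega) (by omega) (by omega) (by omega) (by omega) (by omega)).mp (by omega)
    · obtain ⟨rfl, rfl, h⟩ := h
      exact uP0 hf U (j := 0) (by omega) (by omega) (by omega) (by omega) (by omega) (by omega)
    · obtain ⟨rfl, rfl, h⟩ := h
      exact uP0 hf U (j := 0) (by omega) (by omega) (by omega) (by omega) (by omega) (by omega)
    · obtain ⟨rfl, rfl, h⟩ := h
      exact NHT.rIn hf T (t := 3) (p := 0) (j := 1) (by omega) (by omega) (by omega) (by omega) (by omega) (by omega) (by omega) (by omega)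
    · obtain ⟨rfl, rfl, h⟩ := h
      exact uP1 hf U (j := 1) (by omega) (by omega) (by omega) (by omega) (by omega) (by omega)
    · obtain ⟨rfl, rfl, h⟩ := h
      exact uP1 hf U (j := 1) (by omega) (by omega) (by omega) (by omega) (by omega) (by omega)
    · obtain ⟨rfl, rfl, rfl, rfl⟩ := h
      exact z0 (by omega) (by omega) (by omega) (by omega)

end Pool.Agent.SNT.E1X
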