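import Pool.Agent.SNT.E1W1
import Pool.Agent.SNT.E1W2
import Pool.Agent.SNT.E1W3
import Pool.Agent.SNT.E1D
import Pool.Agent.SNT.E1R
import Pool.Agent.SNT.K0L6
import Pool.Agent.SNT.DRunI
import Pool.Agent.SNT.D1Birth

set_option autoImplicit false

/-! The escape `E1` does not occur for the known leads `n - 2`, `n - 3` of the layer `6 k + 2` (helper26).

In the cycle before, one of two neighbouring in-lines of `6 k + 6` is present (`k0_L6`); it runs to the diagonal, is
reflected (`wr`) and becomes a line of the row `c - 2`, which runs to the wall of the cycle; there the first line excludes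
`E1` (`w1`) and the second one with `E1` starts a beam of `6 k + 4` in the row `c` (`w2`); `E1` makes the line `M + 2` of
`6 k + 4` in the row `c - 2` present (`w3`); both run up to the diagonal and exclude each other there (`wd`). -/

namespace Pool.Agent.SNT.E1X

open Pool.Agent.SNT Pool.Agent.SNT.Sig Pool.Agent.SNT.Loc Pool.Agent.SNT.LW Pool.Agent.SNT.NHZ Pool.Agent.SNT.DRun
open Pool.Agent.SNT.D1E

variable {f : ℕ → ℕ → ℕ → ℕ → Prop}

/-- one step of the run along a row -/
theorem row_step (hf : Rule f) {L R x y : ℕ} (hL : L % 2 = 0) (hR : R % 2 = 0) (hx : x % 2 = 0) (hy : y % 2 = 1)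
    (hcov : Cov f L R (x + 1) y) (h0 : f L R x y) : f L R (x + 2) y := by
  rcases hcov with h | h | h | h
  · exact absurd h (kill hf h0 0 0 1 0 (by omega) (by omega) le_rfl (by omega) (by omega))
  · exact h
  · exact absurd h (kill hf h0 0 0 1 1 (by omega) (by omega) le_rfl le_rfl (by omega))
  · exact absurd h (even_zero hf hL hR (by omega) (by omega))

/-- the run along a row -/
theorem row_run (hf : Rule f) {L R x0 x1 y : ℕ} (hL : L % 2 = 0) (hR : R % 2 = 0) (hx : x0 % 2 = 0) (hy : y % 2 = 1)
    (hcov : ∀ x, x0 ≤ x → x < x1 → x % 2 = 1 → Cov f L R x y) (h0 : f L R x0 y) :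
    ∀ x, x0 ≤ x → x ≤ x1 → x % 2 = 0 → f L R x y := by
  have key : ∀ j, x0 + 2 * j ≤ x1 → f L R (x0 + 2 * j) y := by
    intro j
    induction j with
    | zero => exact fun _ => h0
    | succ j ih =>
      intro hj
      have e1 : x0 + 2 * (j + 1) = x0 + 2 * j + 2 := by ring
      rw [e1]
      exact row_step hf (x := x0 + 2 * j) hL hR (by omega) hy
        (hcov (x0 + 2 * j + 1) (by omega) (by omega) (by omega)) (ih (by omega))
  intro x h1 h2 h3
  have h4 := key ((x - x0) / 2) (by omega)
  have h5 : x0 + 2 * ((x - x0) / 2) = x := by omega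
  rwa [h5] at h4

/-- from the tip of an in-line of `6 k + 6` in the row `c` to the wall of the row `c + 2` -/
theorem line6 (hf : Rule f) {k c n M X x : ℕ} (H : PL f k c n M) (hX : 2 * n + 3 ≤ X) (ho : X % 2 = 1)
    (h0 : f (6 * k + 6) c X (X + 3 - 2 * k)) (hx : x % 2 = 0) (h1 : X + 5 ≤ x) (h2 : x + 1 ≤ X + 2 * k) :
    f (6 * k + 6) (c + 2) x (X + 2) := by
  have hk := H.T.hk
  have hc := H.T.hc
  have hN := H.T.hN2
  have h3 := run6 hf H.T (x := X) (y0 := X + 3 - 2 * k) ho (by omega) (by omega) (by omega) h0 (X - 1) (by omega)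
    (by omega) (by omega)
  have h4 := wr hf H hX ho h3
  exact row_run hf (x1 := x) (by omega) (by omega) (by omega) (by omega)
    (fun z h5 h6 h7 => H.T.c2 hf (j := 2) (by omega) (by omega) (by omega) (by omega) (by omega) (by omega)) h4 x h1
    le_rfl hx

/-- **No escape `E1`** for `M = n - 2`, `n - 3`: `H0` is the window of the cycle before, `H1` the window of the cycle. -/
theorem noE1_aux (hf : Rule f) {k b m n0 M0 n M : ℕ} (hs : Side k b m) (S : Stack6 f k b m 0 0 0 0 0 1)
    (hn0 : n0 = m + 9 + (k + 2) * 4) (H0 : PL f k (b + 22) n0 M0) (hn : n = n0 + (k + 2))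
    (H : PL f k (b + 26) n M) (hM3 : n ≤ M + 3) :
    ¬ f (6 * k + 3) (b + 24) (2 * M + 4) (2 * M + 6 - 2 * k) := by
  intro he
  have hk := H.T.hk
  have hc := H.T.hc
  have hN := H.T.hN2
  have hM := H.hM
  have hM' := H.hM'
  have hN0 := H0.T.hN2
  have E : ∀ {L R x y : ℕ}, L = 6 * k + 3 → R + 2 = b + 26 → x + 1 = 2 * M + 5 → y + 2 * k = 2 * M + 5 + 1 →
      f L R x y := fun e1 e2 e3 e4 => mv he (by omega) (by omega) (by omega) (by omega)
  -- the two possible lines of `6 k + 6`
  have h1 := k0_L6 hf hs S (R := b + 22) (x := 2 * M + 5 - 2 * k) (y := 2 * M + 8 - 4 * k) rfl (by omega) (by omega)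
    (by omega)
  rcases h1 with h1 | h1
  · -- the first line
    have h2 := line6 hf H0 (X := 2 * M + 5 - 2 * k) (x := 2 * M + 2) (by omega) (by omega)
      (mv h1 rfl rfl rfl (by omega)) (by omega) (by omega) (by omega)
    exact w1_aux hf H hM3 rfl E (fun e1 e2 e3 e4 => mv h2 (by omega) (by omega) (by omega) (by omega))
  · -- the second line
    have h2 := line6 hf H0 (X := 2 * M + 7 - 2 * k) (x := 2 * M + 2) (by omega) (by omega)
      (mv h1 rfl rfl (by omega) (by omega)) (by omega) (by omega) (by omega)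
    have h3 : f (6 * k + 4) (b + 26) (2 * M + 9) (2 * M + 14 - 2 * k) := by
      by_contra hg
      exact w2_aux hf H hM3 rfl E (fun e1 e2 e3 e4 => mv h2 (by omega) (by omega) (by omega) (by omega))
        (fun e1 e2 e3 e4 t => hg (mv t (by omega) (by omega) (by omega) (by omega)))
    have h4 : f (6 * k + 4) (b + 24) (2 * M + 5) (2 * M + 8 - 2 * k) := by
      by_contra hg
      exact w3_aux hf H hM3 rfl E (fun e1 e2 e3 e4 t => hg (mv t (by omega) (by omega) (by omega) (by omega)))
    have h5 := col_run hf (y1 := 2 * M + 6) (by omega) (by omega) (by omega) (by omega)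
      (fun y a1 a2 a3 => H.T.c0i hf (j := 3) (by omega) (by omega) (by omega) (by omega) (by omega) (by omega)) h3
      (2 * M + 6) (by omega) le_rfl (by omega)
    have h6 := col_run hf (y1 := 2 * M + 2) (by omega) (by omega) (by omega) (by omega)
      (fun y a1 a2 a3 => H.T.cIn hf (t := 4) (j := 2) (R := b + 24) (by omega) (by omega) (by omega) (by omega)
        (by omega) (by omega) (by omega) (by omega)) h4 (2 * M + 2) (by omega) le_rfl (by omega)
    exact wd hf H hM3 (mv h6 rfl (by omega) rfl rfl) h5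

end Pool.Agent.SNT.E1X

namespace Pool.Agent.SNT.D1

open Pool.Agent.SNT.D1E Pool.Agent.SNT.E1X

variable {f : ℕ → ℕ → ℕ → ℕ → Prop} {k b m t : ℕ}

/-- the window of a cycle of the situation `Ctx` -/
theorem Ctx.pl (C : Ctx f k b m t) {n : ℕ} (hn : n = m + 9 + (k + 2) * 4) : PL f k (b + 22) n (n + t - 4) := by
  obtain ⟨hs, S, d0, d2, d4, -⟩ := C.win hn
  have ht := C.t2
  have hb := hs.2.2.2.1
  exact PL.of_stack hs S hn (by omega) (by omega) (cyc_of_eq d0 rfl (by omega)) d2 d4

/-- **`E1` does not occur for `t = 2, 1`** (in the cycle `1`; the cycle `0` is the one before). -/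
theorem noE1 (hf : Rule f) (ht : 1 ≤ t) (C : Ctx f k b m t) : ¬ E1 f k b m t 1 := by
  have C1 := C.shift 1
  have ht2 := C.t2
  have H0 := C.pl rfl
  have H1 := C1.pl (n := m + 9 + (k + 2) * 4 + (k + 2)) (by ring)
  have hs := C.S.side
  have h := noE1_aux hf hs C.S.stack rfl H0 (n := m + 9 + (k + 2) * 4 + (k + 2)) rfl
    (M := m + 9 + (k + 2) * 4 + (k + 2) + t - 4) (by
      have e : b + 4 * 1 + 22 = b + 26 := by ring
      rwa [e] at H1) (by omega)
  intro hE
  apply h
  have e : ml k m t 1 = m + 9 + (k + 2) * 4 + (k + 2) + t - 4 := by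
    unfold ml nn
    have : m + (k + 2) * 1 + 9 + (k + 2) * 4 = m + 9 + (k + 2) * 4 + (k + 2) := by ring
    rw [this]
  unfold E1 at hE
  rw [e] at hE
  exact hE

end Pool.Agent.SNT.D1
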