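import Pool.Agent.SNT.NWD

set_option autoImplicit false

/-! The hypotheses of the near-wall windows from the six layer window and the improved leads
(helper33). -/

namespace Pool.Agent.SNT.NW

open Pool.Agent.SNT Pool.Agent.SNT.LW Pool.Agent.SNT.NHZ

variable {f : ℕ → ℕ → ℕ → ℕ → Prop} {k b m : ℕ}

theorem cyc_mv {a b K a' b' K' : ℕ} (h : Cyc f a b K) (ha : a' = a) (hb : b' = b) (hK : K' = K) :
    Cyc f a' b' K' := by
  subst ha hb hK
  exact h

theorem cw_mv {a b n a' b' n' : ℕ} (h : Cw f a b n) (ha : a' = a) (hb : b' = b) (hn : n' = n) :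
    Cw f a' b' n' := by
  subst ha hb hn
  exact h

theorem NWH.of_stack (hs : Side k b m) (S : Stack6 f k b m 0 0 0 0 0 1) {n : ℕ}
    (hn : n = m + 9 + (k + 2) * 4)
    (d0 : Cyc f (6 * k) (b + 20) (2 * (n + k - 5) + 2))
    (d2 : Cyc f (6 * k + 2) (b + 18) (2 * (n - 5) + 2))
    (e2 : Cyc f (6 * k + 2) (b + 22) (2 * (n + k - 3) + 2))
    (d4 : Cyc f (6 * k + 4) (b + 20) (2 * (n - 2) + 2))
    (e4 : Cyc f (6 * k + 4) (b + 24) (2 * (n + k) + 2)) : NWH f k (b + 22) n where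
  T := by
    subst hn
    exact NHT.of_stack hs S
  c0 := cyc_mv d0 rfl (by omega) rfl
  c2 := cyc_mv d2 rfl (by omega) rfl
  c2b := e2
  c4 := cyc_mv d4 rfl (by omega) rfl
  c4b := cyc_mv e4 rfl (by omega) rfl
  c6 := cyc_mv (S.l6 4) rfl (by omega) (by omega)
  c6b := cyc_mv (S.l6 5) rfl (by omega) (by omega)
  c8 := cw_mv (S.l8 4) rfl (by omega) (by omega)
  c8b := cw_mv (S.l8 5) rfl (by omega) (by omega)
  c10 := cw_mv (S.l10 4) rfl (by omega) (by omega)
  lw := by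
    intro M R x y hM h1 h2 h3 h4 h5
    obtain ⟨k1, k2, k3, k4, k5⟩ := hs
    have e : M = 6 * k - 1 := by omega
    rw [e]
    exact lw_zero ⟨k1, k2, k3, k4, k5⟩ S (i := R - b) (by omega) (by omega) (by omega) h4 (by omega)

end Pool.Agent.SNT.NW
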