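import Pool.Agent.SNT.Z8D

set_option autoImplicit false

/-! The near-wall window of a missing in-line of `6 k + 4` (`c` is the IN row of `6 k + 10`, `n` its lead): the
hypotheses (helper33). -/

namespace Pool.Agent.SNT.W4

open Pool.Agent.SNT Pool.Agent.SNT.Loc Pool.Agent.SNT.LW Pool.Agent.SNT.NHZ Pool.Agent.SNT.ZoneT
  Pool.Agent.SNT.ZoneI

variable {f : ℕ → ℕ → ℕ → ℕ → Prop}

/-- The zones are monotone in the front. -/
theorem nht_mono {k c N N' : ℕ} (h : NHT f k c N) (hN : N ≤ N') (h2 : N' % 2 = 0) : NHT f k c N' where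
  hk := h.hk
  hc := h.hc
  h4 := h.h4
  hb := h.hb
  hN := h2
  hN2 := by have := h.hN2; omega
  O := by
    have hO := h.O
    have e := h.hN2
    refine ⟨hO.ha, hO.ha1, hO.hr1, hO.hD, ?_, ?_⟩
    · intro t ht
      unfold Yf
      split_ifs <;> omega
    · intro t x y ht hy h1 h2 h3 h4
      refine hO.out t x y ht ?_ h1 h2 h3 h4
      revert hy
      unfold Yf
      split_ifs <;> omega
  I := by
    have hI := h.I
    have e := h.hN2
    refine ⟨hI.ha, hI.ha1, hI.hr1, hI.hD, ?_, ?_, ?_⟩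
    · intro t ht
      unfold Xf
      split_ifs <;> omega
    · intro t ht
      unfold Xf
      split_ifs <;> omega
    · intro t x y ht hy h1 h2 h3 h4
      refine hI.out t x y ht ?_ h1 h2 h3 h4
      revert hy
      unfold Xf
      split_ifs <;> omega

/-- The hypotheses of the near-wall window. -/
structure W4H (f : ℕ → ℕ → ℕ → ℕ → Prop) (k c n : ℕ) : Prop where
  T : NHT f k c (2 * n)
  hn : 6 * k + 100 ≤ n
  c0 : Cyc f (6 * k) (c - 6) (2 * (n - 5) + 2)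
  c2 : Cyc f (6 * k + 2) (c - 4) (2 * (n - 2) + 2)
  c4 : Cyc f (6 * k + 4) (c - 2) (2 * (n + 2) + 2)
  c4a : Cyc f (6 * k + 4) (c - 6) (2 * (n - 7) + 2)
  c6 : Cyc f (6 * k + 6) (c - 4) (2 * (n - 5) + 2)
  c8 : Cw f (6 * k + 8) (c - 2) (n - 3)
  c10 : Cw f (6 * k + 10) c n
  lw : ∀ M R x y : ℕ, M + 1 = 6 * k → c ≤ R + 12 → R ≤ c + 12 → 2 * n ≤ x + 30 → y ≤ x →
    x ≤ y + 4 * k → ¬ f M R x y

theorem W4H.of_stack {k b m : ℕ} (hs : Side k b m) (S : Stack6 f k b m 0 0 0 0 0 1) {n l : ℕ}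
    (hn : n = m + 9 + (k + 2) * 4)
    (d0 : Cyc f (6 * k) (b + 16) (2 * (n - 5) + 2))
    (d2 : Cyc f (6 * k + 2) (b + 18) (2 * (n - 2) + 2))
    (d4 : Cyc f (6 * k + 4) (b + 20) (2 * (n + l + 2) + 2)) : W4H f k (b + 22) (n + l) where
  T := by
    subst hn
    exact nht_mono (NHT.of_stack hs S) (by omega) (by omega)
  hn := by have := hs.2.2.2.1; have := hs.2.2.2.2; omega
  c0 := NW.cyc_mv (Z8.cyc_mono d0 (K' := 2 * (n + l - 5) + 2) (by omega)) rfl (by omega) rfl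
  c2 := NW.cyc_mv (Z8.cyc_mono d2 (K' := 2 * (n + l - 2) + 2) (by omega)) rfl (by omega) rfl
  c4 := NW.cyc_mv d4 rfl (by omega) (by omega)
  c4a := NW.cyc_mv (Z8.cyc_mono (S.l4 4) (K' := 2 * (n + l - 7) + 2) (by omega)) rfl (by omega) rfl
  c6 := NW.cyc_mv (Z8.cyc_mono (S.l6 4) (K' := 2 * (n + l - 5) + 2) (by omega)) rfl (by omega) rfl
  c8 := NW.cw_mv ((S.l8 4).mono (n' := n + l - 3) (by omega)) rfl (by omega) rfl
  c10 := NW.cw_mv ((S.l10 4).mono (n' := n + l) (by omega)) rfl (by omega) rfl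
  lw := by
    intro M R x y hM h1 h2 h3 h4 h5
    obtain ⟨k1, k2, k3, k4, k5⟩ := hs
    have e : M = 6 * k - 1 := by omega
    rw [e]
    exact NHZ.lw_zero ⟨k1, k2, k3, k4, k5⟩ S (i := R - b) (by omega) (by omega) (by omega) h4 (by omega)

end Pool.Agent.SNT.W4
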