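import Pool.Agent.SNT.NWD
import Pool.Agent.SNT.NWHof
import Pool.Agent.SNT.NHZoneU
import Pool.Agent.SNT.W4D

set_option autoImplicit false

/-! The third cells above the wall of two adjacent in-lines are not both empty: hypotheses (helper33). -/

namespace Pool.Agent.SNT.K0D

open Pool.Agent.SNT Pool.Agent.SNT.Loc Pool.Agent.SNT.LW Pool.Agent.SNT.NHZ

variable {f : ℕ → ℕ → ℕ → ℕ → Prop}

/-- The hypotheses of the windows: the leads of `6 k` and `6 k + 2` are `n - l0` and `n - l2`. -/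
structure KH (f : ℕ → ℕ → ℕ → ℕ → Prop) (k c n l0 l2 : ℕ) : Prop where
  T : NHT f k c (2 * n)
  U : NHU f k c (2 * n)
  hn : 12 * k + 100 ≤ n
  k0_m6 : Cyc f (6 * k) (c - 6) (2 * (n - l0) + 2)
  k2_m4 : Cyc f (6 * k + 2) (c - 4) (2 * (n - l2) + 2)
  k4_m6 : Cyc f (6 * k + 4) (c - 6) (2 * (n - 7) + 2)
  k4_m2 : Cyc f (6 * k + 4) (c - 2) (2 * (n + 1) + 2)
  k6_m4 : Cyc f (6 * k + 6) (c - 4) (2 * (n - 5) + 2)
  k8_m2 : Cw f (6 * k + 8) (c - 2) (n - 3)
  lw : ∀ M R x y : ℕ, M + 1 = 6 * k → c ≤ R + 12 → R ≤ c + 12 → 2 * n ≤ x + 40 → y ≤ x →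
    x ≤ y + 4 * k → ¬ f M R x y

theorem nhu_mono {k c N N' : ℕ} (h : NHU f k c N) (hN : N ≤ N') (h2 : N' % 2 = 0) : NHU f k c N' where
  hk := h.hk
  hc := h.hc
  hb := h.hb
  hN := h2
  hN2 := by have := h.hN2; omega
  O := by
    have hO := h.O
    have e := h.hN2
    refine ⟨hO.ha, hO.ha1, hO.hr1, hO.hD, ?_, ?_⟩
    · intro t ht
      unfold YU
      split_ifs <;> omega
    · intro t x y ht hy h1 h2 h3 h4
      refine hO.out t x y ht ?_ h1 h2 h3 h4
      revert hy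
      unfold YU
      split_ifs <;> omega
  I := by
    have hI := h.I
    have e := h.hN2
    refine ⟨hI.ha, hI.ha1, hI.hr1, hI.hD, ?_, ?_, ?_⟩
    · intro t ht
      unfold XU
      split_ifs <;> omega
    · intro t ht
      unfold XU
      split_ifs <;> omega
    · intro t x y ht hy h1 h2 h3 h4
      refine hI.out t x y ht ?_ h1 h2 h3 h4
      revert hy
      unfold XU
      split_ifs <;> omega

/-- `P_(6 k + 5)` in the rows `c - 5`, `c - 4`, from the IN row of `6 k + 6` -/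
theorem nhu_pmmi {k c N : ℕ} (hf : Rule f) (h : NHU f k c N) {L R x y : ℕ} (hL : L = 6 * k + 5)
    (hR : R + 5 = c ∨ R + 4 = c) (hx : N ≤ x + 6) (h1 : y + 1 ≤ x) (h2 : x ≤ y + 2 * k) : ¬ f L R x y :=
  h.I.P hf (t := 0) (s := 0) (j := 0) (q := c - 4 - R) (by omega) (by omega) (by omega) (by omega)
    (by have := h.hb; omega) (by unfold XU; rw [if_pos (by omega)]; have := h.hN2; omega)
    (by have := h.hN2; omega) (by omega) (by omega)

theorem KH.mono {k c n n' l0 l2 : ℕ} (H : KH f k c n l0 l2) (h : n ≤ n') : KH f k c n' l0 l2 where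
  T := W4.nht_mono H.T (by omega) (by omega)
  U := nhu_mono H.U (by omega) (by omega)
  hn := by have := H.hn; omega
  k0_m6 := Z8.cyc_mono H.k0_m6 (by omega)
  k2_m4 := Z8.cyc_mono H.k2_m4 (by omega)
  k4_m6 := Z8.cyc_mono H.k4_m6 (by omega)
  k4_m2 := Z8.cyc_mono H.k4_m2 (by omega)
  k6_m4 := Z8.cyc_mono H.k6_m4 (by omega)
  k8_m2 := H.k8_m2.mono (by omega)
  lw := fun M R x y h1 h2 h3 h4 h5 h6 => H.lw M R x y h1 h2 h3 (by omega) h5 h6

theorem KH.of_stack {k b m l0 l2 : ℕ} (hs : Side k b m) (S : Stack6 f k b m 0 0 0 0 0 1) {n : ℕ}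
    (hn : n = m + 9 + (k + 2) * 4)
    (d0 : Cyc f (6 * k) (b + 16) (2 * (n - l0) + 2))
    (d2 : Cyc f (6 * k + 2) (b + 18) (2 * (n - l2) + 2))
    (d4 : Cyc f (6 * k + 4) (b + 20) (2 * (n + 1) + 2)) : KH f k (b + 22) n l0 l2 where
  T := by
    subst hn
    exact NHT.of_stack hs S
  U := by
    subst hn
    exact NHU.of_stack hs S
  hn := by have := hs.2.2.2.1; have := hs.2.2.2.2; omega
  k0_m6 := NW.cyc_mv d0 rfl (by omega) rfl
  k2_m4 := NW.cyc_mv d2 rfl (by omega) rfl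
  k4_m6 := NW.cyc_mv (S.l4 4) rfl (by omega) (by omega)
  k4_m2 := NW.cyc_mv d4 rfl (by omega) rfl
  k6_m4 := NW.cyc_mv (S.l6 4) rfl (by omega) (by omega)
  k8_m2 := NW.cw_mv (S.l8 4) rfl (by omega) (by omega)
  lw := by
    intro M R x y hM h1 h2 h3 h4 h5
    obtain ⟨k1, k2, k3, k4, k5⟩ := hs
    have e : M = 6 * k - 1 := by omega
    rw [e]
    exact NHZ.lw_zero ⟨k1, k2, k3, k4, k5⟩ S (i := R - b) (by omega) (by omega) (by omega) h4 (by omega)

end Pool.Agent.SNT.K0D
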