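import Pool.Agent.SNT.PL

set_option autoImplicit false
set_option synthInstance.maxSize 100000
set_option synthInstance.maxHeartbeats 4000000

/-! The E-cell of the road L0: window A2. -/

namespace Pool.Agent.SNT.L0E

open Pool.Agent.SNT Pool.Agent.SNT.Loc Pool.Agent.SNT.LW Pool.Agent.SNT.NHZ Pool.Agent.SNT.D1E Pool.Agent.SNT.K0L2c

variable {f : ℕ → ℕ → ℕ → ℕ → Prop}

theorem a2_chk : check 10 6 12 6 0 0 1 0 0
    (fun j n p q => decide ((j = 2 ∧ n = 1 ∧ ((p + q + 1) % 2 = 0 ∧ q + 5 ≤ p ∧ (p + q + 1) % 4 = 0))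
      ∨ (j = 4 ∧ n = 1 ∧ ((p + q + 1) % 2 = 0 ∧ q + 5 ≤ p ∧ (p + q + 3) % 4 = 0))
      ∨ (j = 4 ∧ n = 2 ∧ 2 ≤ p ∧ (((p + q + 1) % 2 = 1 ∧ p ≤ q + 4 ∧ p % 2 = 0) ∨ ((p + q + 1) % 2 = 1 ∧ q + 4 ≤ p ∧ (p + q) % 4 = 0)))
      ∨ (j = 4 ∧ n = 3 ∧ ((4 ≤ p) ∨ (p ≤ q + 5 ∧ 3 ≤ p)) ∧ ((p + q + 1) % 2 = 0 ∧ q + 5 ≤ p ∧ (p + q + 1) % 4 = 0))
      ∨ (j = 6 ∧ n = 1 ∧ ((p + q + 1) % 2 = 0 ∧ q + 7 ≤ p ∧ (p + q + 1) % 4 = 2))
      ∨ (j = 8 ∧ n = 3 ∧ ((p + q + 1) % 2 = 0 ∧ q + 7 ≤ p ∧ (p + q + 1) % 4 = 2))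
      ∨ (j = 10 ∧ n = 4 ∧ ((p ≤ q + 4) ∨ (2 ≤ p)) ∧ (((p + q + 1) % 2 = 1 ∧ p ≤ q + 6 ∧ p % 2 = 0) ∨ ((p + q + 1) % 2 = 1 ∧ q + 6 ≤ p ∧ (p + q) % 4 = 2)))
      ∨ (j = 1 ∧ n = 4 ∧ p = 5 ∧ q = 2)
      ∨ (j = 2 ∧ n = 2 ∧ p = 1 ∧ q = 1)))
    (fun j n p q => decide ((j = 2 ∧ n = 1 ∧ ¬ ((p + q + 1) % 2 = 0 ∧ q + 5 ≤ p ∧ (p + q + 1) % 4 = 0))
      ∨ (j = 4 ∧ n = 1 ∧ ¬ ((p + q + 1) % 2 = 0 ∧ q + 5 ≤ p ∧ (p + q + 3) % 4 = 0))
      ∨ (j = 4 ∧ n = 2 ∧ 2 ≤ p ∧ ¬ (((p + q + 1) % 2 = 1 ∧ p ≤ q + 4 ∧ p % 2 = 0) ∨ ((p + q + 1) % 2 = 1 ∧ q + 4 ≤ p ∧ (p + q) % 4 = 0)))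
      ∨ (j = 4 ∧ n = 3 ∧ ((4 ≤ p) ∨ (p ≤ q + 5 ∧ 3 ≤ p)) ∧ ¬ ((p + q + 1) % 2 = 0 ∧ q + 5 ≤ p ∧ (p + q + 1) % 4 = 0))
      ∨ (j = 6 ∧ n = 1 ∧ ¬ ((p + q + 1) % 2 = 0 ∧ q + 7 ≤ p ∧ (p + q + 1) % 4 = 2))
      ∨ (j = 8 ∧ n = 3 ∧ ¬ ((p + q + 1) % 2 = 0 ∧ q + 7 ≤ p ∧ (p + q + 1) % 4 = 2))
      ∨ (j = 10 ∧ n = 4 ∧ ((p ≤ q + 4) ∨ (2 ≤ p)) ∧ ¬ (((p + q + 1) % 2 = 1 ∧ p ≤ q + 6 ∧ p % 2 = 0) ∨ ((p + q + 1) % 2 = 1 ∧ q + 6 ≤ p ∧ (p + q) % 4 = 2)))
      ∨ (j = 6 ∧ n = 3 ∧ p ≤ q + 4)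
      ∨ (j = 7 ∧ n = 3 ∧ p ≤ q + 4)
      ∨ (j = 5 ∧ n = 4 ∧ p ≤ q + 3)
      ∨ (j = 7 ∧ n = 4 ∧ p ≤ q + 4)))
    134
    0x2e083022c80032bf204038004dbc205718305958006926a04de8004de81032b80032b8102088002e0c202028002dac205718305958006926a04de8004de81032b80032b8102058002ddc201ff8001ff8405718305958006926a04de8004de81032b00032b04040080040084059583066d80066d8408448306918006918402e38303078003078402e383022f80022f8402078002e04a02018002da4a092000091a00074480054c8003e58003de8003bd8003bc0003bb0003b60003b50003b00003af00039a0001fb8001e68001780009200f091a0f076c0707488707480707458707450707448f069207068f07068e87066e07066b07066a8705b707059607059307059287056e07054d87054d07054c8f054a87054a0704db8704d88704d80704060704000703e58f03e28703e20703df8703df0703de8f03dc8703dc0703bd8f03bc0f03bb0f03b60f03b50f03b00f03af0f039a0f02500702080702020701fb8f01e78701e70701e68f01e48701e40701e38701e18701e10701e08701de8701de0701dd8701db8701db0701da8701780f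 = true := by
  decide +kernel

theorem a2_aux (hf : Rule f) {k c n M X : ℕ} (H : PL f k c n M) (hX : 2 * M + 16 ≤ X) (hX2 : X % 2 = 0)
    (D0 : Cyc f (6 * k) (c - 2) (X - 2)) (D0a : Cyc f (6 * k) (c - 6) (X - 6 - 2 * k))
    (C4a : Cyc f (6 * k + 4) (c - 6) (2 * (n - (k + 1)) + 2))
    (p0 : ∀ {L R x y : ℕ}, L = 6 * k + 1 → R = c → x = X → y + 2 * k = X + 2 → f L R x y)
    (p1 : ∀ {L R x y : ℕ}, L = 6 * k + 2 → R + 2 = c → x + 4 = X → y + 2 * k = X + 1 → f L R x y) : False := by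
  have hk := H.T.hk
  have hc := H.T.hc
  have h4 := H.T.h4
  have hb := H.T.hb
  have hN := H.T.hN2
  have hM := H.hM
  have hM' := H.hM'
  have T := H.T
  have U := H.U
  have C2 := H.c2
  have C4 := H.c4
  have C6a := H.c6a
  have C6 := H.c6
  have C8a := H.c8a
  have C8 := H.c8
  have C10a := H.c10a
  have C10 := H.c10
  have hL : ∀ {M' R x y : ℕ}, M' + 1 = 6 * k → c ≤ R + 12 → R ≤ c + 12 → 2 * n ≤ x + 20 → y ≤ x → x ≤ y + 4 * k →
      ¬ f M' R x y := fun {a b c d} => H.lw a b c d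
  obtain ⟨a0, ha0⟩ : ∃ z, z = 6 * k + 0 := ⟨_, rfl⟩
  obtain ⟨b0, hb0⟩ : ∃ z, z + 4 = c := ⟨c - 4, by omega⟩
  obtain ⟨x0, hx0⟩ : ∃ z, z + 5 = X := ⟨X - 5, by omega⟩
  obtain ⟨y0, hy0⟩ : ∃ z, z + 2 * k + 20 = X + 20 := ⟨X + 20 - 2 * k - 20, by omega⟩
  refine check_sound hf (a0 := a0) (b0 := b0) (x0 := x0) (y0 := y0) a2_chk
    ⟨fun h => absurd h (by decide), fun h => absurd h (by decide), fun h => absurd h (by decide), by omega, by omega,
      by omega, by omega⟩ ?_ ?_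
  · intro j m p q hr h
    obtain ⟨-, -, hm1, hm2, hp1, hp2, hq1, hq2⟩ := hr
    replace h := of_decide_eq_true h
    rcases h with h | h | h | h | h | h | h | h | h
    · obtain ⟨rfl, rfl, h⟩ := h
      exact (WrapC.v1 C2 (by omega) (by omega) (by omega) (by omega) (by omega) (by omega) (by omega) (by omega)).mpr (by omega)
    · obtain ⟨rfl, rfl, h⟩ := h
      exact (WrapC.v3 C4a (by omega) (by omega) (by omega) (by omega) (by omega) (by omega) (by omega) (by omega)).mpr (by omega)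
    · obtain ⟨rfl, rfl, h⟩ := h
      exact (WrapC.v0 C4 (by omega) (by omega) (by omega) (by omega) (by omega) (by omega) (by omega)).mpr (by omega)
    · obtain ⟨rfl, rfl, h⟩ := h
      exact (WrapC.v1 C4 (by omega) (by omega) (by omega) (by omega) (by omega) (by omega) (by omega) (by omega)).mpr (by omega)
    · obtain ⟨rfl, rfl, h⟩ := h
      exact (WrapC.v1 C6 (by omega) (by omega) (by omega) (by omega) (by omega) (by omega) (by omega) (by omega)).mpr (by omega)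
    · obtain ⟨rfl, rfl, h⟩ := h
      exact (NW.w1v C8 (by omega) (by omega) (by omega) (by omega) (by omega) (by omega) (by omega) (by omega)).mpr (by omega)
    · obtain ⟨rfl, rfl, h⟩ := h
      exact (NW.w0v C10 (by omega) (by omega) (by omega) (by omega) (by omega) (by omega) (by omega)).mpr (by omega)
    · obtain ⟨rfl, rfl, rfl, rfl⟩ := h
      exact p0 (by omega) (by omega) (by omega) (by omega)
    · obtain ⟨rfl, rfl, rfl, rfl⟩ := h
      exact p1 (by omega) (by omega) (by omega) (by omega)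
  · intro j m p q hr h
    obtain ⟨-, -, hm1, hm2, hp1, hp2, hq1, hq2⟩ := hr
    replace h := of_decide_eq_true h
    rcases h with h | h | h | h | h | h | h | h | h | h | h
    · obtain ⟨rfl, rfl, h⟩ := h
      exact mt (WrapC.v1 C2 (by omega) (by omega) (by omega) (by omega) (by omega) (by omega) (by omega) (by omega)).mp (by omega)
    · obtain ⟨rfl, rfl, h⟩ := h
      exact mt (WrapC.v3 C4a (by omega) (by omega) (by omega) (by omega) (by omega) (by omega) (by omega) (by omega)).mp (by omega)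
    · obtain ⟨rfl, rfl, h⟩ := h
      exact mt (WrapC.v0 C4 (by omega) (by omega) (by omega) (by omega) (by omega) (by omega) (by omega)).mp (by omega)
    · obtain ⟨rfl, rfl, h⟩ := h
      exact mt (WrapC.v1 C4 (by omega) (by omega) (by omega) (by omega) (by omega) (by omega) (by omega) (by omega)).mp (by omega)
    · obtain ⟨rfl, rfl, h⟩ := h
      exact mt (WrapC.v1 C6 (by omega) (by omega) (by omega) (by omega) (by omega) (by omega) (by omega) (by omega)).mp (by omega)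
    · obtain ⟨rfl, rfl, h⟩ := h
      exact mt (NW.w1v C8 (by omega) (by omega) (by omega) (by omega) (by omega) (by omega) (by omega) (by omega)).mp (by omega)
    · obtain ⟨rfl, rfl, h⟩ := h
      exact mt (NW.w0v C10 (by omega) (by omega) (by omega) (by omega) (by omega) (by omega) (by omega)).mp (by omega)
    · obtain ⟨rfl, rfl, h⟩ := h
      exact uA1 hf U (p := 0) (j := 1) (by omega) (by omega) (by omega) (by omega) (by omega) (by omega) (by omega)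
    · obtain ⟨rfl, rfl, h⟩ := h
      exact uA1 hf U (p := 1) (j := 1) (by omega) (by omega) (by omega) (by omega) (by omega) (by omega) (by omega)
    · obtain ⟨rfl, rfl, h⟩ := h
      exact uP2 hf U (j := 2) (by omega) (by omega) (by omega) (by omega) (by omega) (by omega)
    · obtain ⟨rfl, rfl, h⟩ := h
      exact uP2 hf U (j := 1) (by omega) (by omega) (by omega) (by omega) (by omega) (by omega)

end Pool.Agent.SNT.L0E
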