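import Pool.Agent.SNT.PL

set_option autoImplicit false
set_option synthInstance.maxSize 100000
set_option synthInstance.maxHeartbeats 4000000

/-! The E-cell of the road L0: window A3. -/

namespace Pool.Agent.SNT.L0E

open Pool.Agent.SNT Pool.Agent.SNT.Loc Pool.Agent.SNT.LW Pool.Agent.SNT.NHZ Pool.Agent.SNT.D1E Pool.Agent.SNT.K0L2c

variable {f : ℕ → ℕ → ℕ → ℕ → Prop}

theorem a3_chk : check 12 8 18 14 0 0 1 0 0
    (fun j n p q => decide ((j = 2 ∧ n = 1 ∧ ((p + q + 1) % 2 = 0 ∧ q + 3 ≤ p ∧ (p + q + 3) % 4 = 0))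
      ∨ (j = 2 ∧ n = 2 ∧ ((8 ≤ p) ∨ (q + 3 ≤ p) ∨ (p ≤ q + 2 ∧ 6 ≤ q)) ∧ (((p + q + 1) % 2 = 1 ∧ p ≤ q + 2 ∧ p % 2 = 1) ∨ ((p + q + 1) % 2 = 1 ∧ q + 2 ≤ p ∧ (p + q) % 4 = 0)))
      ∨ (j = 2 ∧ n = 4 ∧ 12 ≤ p ∧ (((p + q + 1) % 2 = 1 ∧ p ≤ q + 2 ∧ p % 2 = 0) ∨ ((p + q + 1) % 2 = 1 ∧ q + 2 ≤ p ∧ (p + q + 2) % 4 = 0)))
      ∨ (j = 4 ∧ n = 3 ∧ ((2 ≤ p) ∨ (p ≤ q + 3)) ∧ ((p + q + 1) % 2 = 0 ∧ q + 3 ≤ p ∧ (p + q + 3) % 4 = 0))
      ∨ (j = 4 ∧ n = 4 ∧ q + 3 ≤ p ∧ 4 ≤ p ∧ (((p + q + 1) % 2 = 1 ∧ p ≤ q + 2 ∧ p % 2 = 1) ∨ ((p + q + 1) % 2 = 1 ∧ q + 2 ≤ p ∧ (p + q) % 4 = 0)))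
      ∨ (j = 6 ∧ n = 1 ∧ ((p + q + 1) % 2 = 0 ∧ q + 3 ≤ p ∧ (p + q + 3) % 4 = 0))
      ∨ (j = 6 ∧ n = 2 ∧ ((6 ≤ p) ∨ (q + 3 ≤ p) ∨ (p ≤ q + 2 ∧ 4 ≤ q)) ∧ (((p + q + 1) % 2 = 1 ∧ p ≤ q + 2 ∧ p % 2 = 1) ∨ ((p + q + 1) % 2 = 1 ∧ q + 2 ≤ p ∧ (p + q) % 4 = 0)))
      ∨ (j = 6 ∧ n = 4 ∧ 10 ≤ p ∧ (((p + q + 1) % 2 = 1 ∧ p ≤ q + 2 ∧ p % 2 = 0) ∨ ((p + q + 1) % 2 = 1 ∧ q + 2 ≤ p ∧ (p + q + 2) % 4 = 0)))
      ∨ (j = 6 ∧ n = 5 ∧ ((12 ≤ p) ∨ (p ≤ q + 3 ∧ 11 ≤ p)) ∧ ((p + q + 1) % 2 = 0 ∧ q + 3 ≤ p ∧ (p + q + 3) % 4 = 0))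
      ∨ (j = 6 ∧ n = 6 ∧ q + 3 ≤ p ∧ 14 ≤ p ∧ (((p + q + 1) % 2 = 1 ∧ p ≤ q + 2 ∧ p % 2 = 1) ∨ ((p + q + 1) % 2 = 1 ∧ q + 2 ≤ p ∧ (p + q) % 4 = 0)))
      ∨ (j = 8 ∧ n = 1 ∧ ((p + q + 1) % 2 = 0 ∧ q + 5 ≤ p ∧ (p + q + 1) % 4 = 2))
      ∨ (j = 8 ∧ n = 2 ∧ (((p + q + 1) % 2 = 1 ∧ p ≤ q + 4 ∧ p % 2 = 0) ∨ ((p + q + 1) % 2 = 1 ∧ q + 4 ≤ p ∧ (p + q + 2) % 4 = 2)))
      ∨ (j = 8 ∧ n = 4 ∧ q + 5 ≤ p ∧ 2 ≤ p ∧ (((p + q + 1) % 2 = 1 ∧ p ≤ q + 4 ∧ p % 2 = 1) ∨ ((p + q + 1) % 2 = 1 ∧ q + 4 ≤ p ∧ (p + q) % 4 = 2)))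
      ∨ (j = 10 ∧ n = 4 ∧ ((2 ≤ p ∧ p ≤ q + 2) ∨ (4 ≤ p)) ∧ (((p + q + 1) % 2 = 1 ∧ p ≤ q + 4 ∧ p % 2 = 0) ∨ ((p + q + 1) % 2 = 1 ∧ q + 4 ≤ p ∧ (p + q + 2) % 4 = 2)))
      ∨ (j = 10 ∧ n = 5 ∧ ((3 ≤ p ∧ p ≤ q + 2) ∨ (6 ≤ p)) ∧ ((p + q + 1) % 2 = 0 ∧ q + 5 ≤ p ∧ (p + q + 3) % 4 = 2))
      ∨ (j = 12 ∧ n = 6 ∧ ((8 ≤ p ∧ p ≤ q + 2) ∨ (10 ≤ p)) ∧ (((p + q + 1) % 2 = 1 ∧ p ≤ q + 4 ∧ p % 2 = 0) ∨ ((p + q + 1) % 2 = 1 ∧ q + 4 ≤ p ∧ (p + q + 2) % 4 = 2)))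
      ∨ (j = 3 ∧ n = 6 ∧ p = 13 ∧ q = 12)
      ∨ (j = 4 ∧ n = 4 ∧ p = 7 ∧ q = 9)))
    (fun j n p q => decide ((j = 2 ∧ n = 1 ∧ ¬ ((p + q + 1) % 2 = 0 ∧ q + 3 ≤ p ∧ (p + q + 3) % 4 = 0))
      ∨ (j = 2 ∧ n = 2 ∧ ((8 ≤ p) ∨ (q + 3 ≤ p) ∨ (p ≤ q + 2 ∧ 6 ≤ q)) ∧ ¬ (((p + q + 1) % 2 = 1 ∧ p ≤ q + 2 ∧ p % 2 = 1) ∨ ((p + q + 1) % 2 = 1 ∧ q + 2 ≤ p ∧ (p + q) % 4 = 0)))
      ∨ (j = 2 ∧ n = 4 ∧ 12 ≤ p ∧ ¬ (((p + q + 1) % 2 = 1 ∧ p ≤ q + 2 ∧ p % 2 = 0) ∨ ((p + q + 1) % 2 = 1 ∧ q + 2 ≤ p ∧ (p + q + 2) % 4 = 0)))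
      ∨ (j = 4 ∧ n = 3 ∧ ((2 ≤ p) ∨ (p ≤ q + 3)) ∧ ¬ ((p + q + 1) % 2 = 0 ∧ q + 3 ≤ p ∧ (p + q + 3) % 4 = 0))
      ∨ (j = 4 ∧ n = 4 ∧ q + 3 ≤ p ∧ 4 ≤ p ∧ ¬ (((p + q + 1) % 2 = 1 ∧ p ≤ q + 2 ∧ p % 2 = 1) ∨ ((p + q + 1) % 2 = 1 ∧ q + 2 ≤ p ∧ (p + q) % 4 = 0)))
      ∨ (j = 6 ∧ n = 1 ∧ ¬ ((p + q + 1) % 2 = 0 ∧ q + 3 ≤ p ∧ (p + q + 3) % 4 = 0))
      ∨ (j = 6 ∧ n = 2 ∧ ((6 ≤ p) ∨ (q + 3 ≤ p) ∨ (p ≤ q + 2 ∧ 4 ≤ q)) ∧ ¬ (((p + q + 1) % 2 = 1 ∧ p ≤ q + 2 ∧ p % 2 = 1) ∨ ((p + q + 1) % 2 = 1 ∧ q + 2 ≤ p ∧ (p + q) % 4 = 0)))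
      ∨ (j = 6 ∧ n = 4 ∧ 10 ≤ p ∧ ¬ (((p + q + 1) % 2 = 1 ∧ p ≤ q + 2 ∧ p % 2 = 0) ∨ ((p + q + 1) % 2 = 1 ∧ q + 2 ≤ p ∧ (p + q + 2) % 4 = 0)))
      ∨ (j = 6 ∧ n = 5 ∧ ((12 ≤ p) ∨ (p ≤ q + 3 ∧ 11 ≤ p)) ∧ ¬ ((p + q + 1) % 2 = 0 ∧ q + 3 ≤ p ∧ (p + q + 3) % 4 = 0))
      ∨ (j = 6 ∧ n = 6 ∧ q + 3 ≤ p ∧ 14 ≤ p ∧ ¬ (((p + q + 1) % 2 = 1 ∧ p ≤ q + 2 ∧ p % 2 = 1) ∨ ((p + q + 1) % 2 = 1 ∧ q + 2 ≤ p ∧ (p + q) % 4 = 0)))
      ∨ (j = 8 ∧ n = 1 ∧ ¬ ((p + q + 1) % 2 = 0 ∧ q + 5 ≤ p ∧ (p + q + 1) % 4 = 2))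
      ∨ (j = 8 ∧ n = 2 ∧ ¬ (((p + q + 1) % 2 = 1 ∧ p ≤ q + 4 ∧ p % 2 = 0) ∨ ((p + q + 1) % 2 = 1 ∧ q + 4 ≤ p ∧ (p + q + 2) % 4 = 2)))
      ∨ (j = 8 ∧ n = 4 ∧ q + 5 ≤ p ∧ 2 ≤ p ∧ ¬ (((p + q + 1) % 2 = 1 ∧ p ≤ q + 4 ∧ p % 2 = 1) ∨ ((p + q + 1) % 2 = 1 ∧ q + 4 ≤ p ∧ (p + q) % 4 = 2)))
      ∨ (j = 10 ∧ n = 4 ∧ ((2 ≤ p ∧ p ≤ q + 2) ∨ (4 ≤ p)) ∧ ¬ (((p + q + 1) % 2 = 1 ∧ p ≤ q + 4 ∧ p % 2 = 0) ∨ ((p + q + 1) % 2 = 1 ∧ q + 4 ≤ p ∧ (p + q + 2) % 4 = 2)))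
      ∨ (j = 10 ∧ n = 5 ∧ ((3 ≤ p ∧ p ≤ q + 2) ∨ (6 ≤ p)) ∧ ¬ ((p + q + 1) % 2 = 0 ∧ q + 5 ≤ p ∧ (p + q + 3) % 4 = 2))
      ∨ (j = 12 ∧ n = 6 ∧ ((8 ≤ p ∧ p ≤ q + 2) ∨ (10 ≤ p)) ∧ ¬ (((p + q + 1) % 2 = 1 ∧ p ≤ q + 4 ∧ p % 2 = 0) ∨ ((p + q + 1) % 2 = 1 ∧ q + 4 ≤ p ∧ (p + q + 2) % 4 = 2)))
      ∨ (j = 1)
      ∨ (j = 5 ∧ n = 2 ∧ p ≤ q + 0)
      ∨ (j = 3 ∧ n = 3 ∧ p + 2 ≤ q ∧ q ≤ p + 9)
      ∨ (j = 5 ∧ n = 3 ∧ p + 1 ≤ q ∧ q ≤ p + 10)
      ∨ (j = 6 ∧ n = 3 ∧ p ≤ q + 0)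
      ∨ (j = 7 ∧ n = 3 ∧ p ≤ q + 0)
      ∨ (j = 7 ∧ n = 3 ∧ 3 ≤ p ∧ p ≤ q + 2)
      ∨ (j = 5 ∧ n = 4 ∧ p + 1 ≤ q ∧ q ≤ p + 10)
      ∨ (j = 7 ∧ n = 4 ∧ 3 ≤ p ∧ p ≤ q + 2)
      ∨ (j = 2 ∧ n = 5 ∧ 2 ≤ p ∧ p + 3 ≤ q ∧ q ≤ p + 8)
      ∨ (j = 3 ∧ n = 5 ∧ 2 ≤ p ∧ p + 3 ≤ q ∧ q ≤ p + 8)
      ∨ (j = 4 ∧ n = 5 ∧ 2 ≤ p ∧ p + 2 ≤ q ∧ q ≤ p + 9)
      ∨ (j = 5 ∧ n = 5 ∧ 2 ≤ p ∧ p + 2 ≤ q ∧ q ≤ p + 9)
      ∨ (j = 6 ∧ n = 5 ∧ 2 ≤ p ∧ p + 1 ≤ q ∧ q ≤ p + 10)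
      ∨ (j = 8 ∧ n = 5 ∧ 4 ≤ p ∧ p ≤ q + 2)
      ∨ (j = 9 ∧ n = 5 ∧ 2 ≤ p ∧ p ≤ q + 0)
      ∨ (j = 9 ∧ n = 5 ∧ 4 ≤ p ∧ p ≤ q + 2)
      ∨ (j = 3 ∧ n = 6 ∧ 7 ≤ p ∧ p + 3 ≤ q ∧ q ≤ p + 8)
      ∨ (j = 5 ∧ n = 6 ∧ 7 ≤ p ∧ p + 2 ≤ q ∧ q ≤ p + 9)
      ∨ (j = 7 ∧ n = 6 ∧ 7 ≤ p ∧ p + 1 ≤ q ∧ q ≤ p + 10)
      ∨ (j = 7 ∧ n = 6 ∧ 9 ≤ p ∧ p ≤ q + 1 ∧ q ≤ p + 10)
      ∨ (j = 9 ∧ n = 6 ∧ 9 ≤ p ∧ p ≤ q + 2)
      ∨ (j = 2 ∧ n = 2 ∧ p = 1 ∧ q = 3)))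
    601
    0xe1603099980099a0a16fd831af4801ae6801ee4c21eddd216fd831aed801aed84120a83128880128884121183128f80128f8426cc031ee4801ee4842eb28326cb8026cb8421df83225d80225d84128f83167f80167f840f16000f16010b17800b1f1a0b1e000b1e010a9f000a9f010a20000a2001099a00099a040b1e830f0e800f0e840a15000a15010a06000a91800dfd520a91810a05000a0c9a11f4030dfc000dfc0109fd800a051a0a05800a0584225d83264d80264d840b26800b2e1a0a23800a2a9208fa800a22800901920a22810908800a1400090f920e0b52099500099c120a21800a28920aae830a28800a28840a12800a128109860009860108f98008f98108eb8008ec0a0dfc850a05000dfd0a0a05010a140009f6000e0b5209f68a09950009fe800a750009860009950109fe810a758a09860109088009720008f98009088109720108f98108fa8008e58008eb0008fb0a08ed1a08eb8a08ec0008ec0412098015f9c221608011fb80197a00128b800b2d002550c215ec4a19ffba167bc20b349a09a28009938032aa00329c002a3c8029bf0020e30020da8020d50020d400205d001a7d801a73001a6e8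01a06801a000019f78019f10019e30019030018fc80121f0012058011ff0011ed8011a1801192801188001183801181801174800f25000a32000a31000a2d00092e80092d80092980092500092300092080091f80091e8009a281091c80091600091180091080099381090d8009070009028008f480088980087a8032aa0f329c0f2ac2072a44872a44072a3d872a3d072a3c8f29bf0f26cc0726c50726c487264e0726470726468722d507225e0722570722568721d80720e30f20e28720e20720db8720db0720da8f20d50f20d40f205d0f1edd871ed6871ed6071de8871d6a871af4071ae6071a7d8f1a76871a76071a730f1a6f871a6f071a6e8f1a68871a68071a068f1a000f19ff8719ff0719f88719f80719f78f19f10f19e30f19030f18fc8f15ec0715e50715e487156e07156707156687130607121f0f120d87120d07120a0712090712068712060712058f11ff0f11fc0711ed8f11ed0711a18f11938711930711928f118c87118c07118b87118b0711880f11858711850711848711840711838f11818f117e07117d8711770711768711760711758711748f116f07116e870f250f0d78070b34070b27070b26070b18070b1707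0a75870a6e870a6e070a320f0a310f0a30870a30070a2d0f0a2a070a29070a28070a26070a1b070a1a070a19070a0e070a0d070a0c070a0b0709fe0709f00709ef07092e8f092d8f09298f09250f09248709240709230f09208f091f8f091e8f091e07091d87091d07091c8f091c07091b8709170709168709160f09158709150709148709118f09108f091007090f07090e87090e07090d8f09078709070f09028f09010708fb0708f48f08f40708f20708ed0708e60708e50708e48708e407089187089107088a87088a0708898f088387088307087d07087c87087c07087b87087b07087a8f087607087587087487087407086f07086e87086e07086d87086d07086807086787086707086687086607074487074407073e07073d87073d07073707073687072f07072e87072e07072d8707280707278707270707268706c68706c60706c00706bf8706bf0706be8706be0706b90706b88706b78706b70706b10706b08706b00706af8706af0706ae8706aa0706a98706a90706a88706a80706a78706a18706a107069a87069a07068587068507067e87067e07064087064007063a87063a070639870639070638870638070633870633070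63287063207063187063107063087063007062f87062b87062b07062a07062987062907062887062507062487062387062307062287062207061e07061d87061c87061c07061b87061b07061587061507061487060e87060e07060d8706078706070706068706060706008706000705ff8705ff0705bc8705bc0705ba8705ba0705b58705b50705b48705b40705b38705b30705b28705b20705b18705ad8705ad0705ac0705ab8705ab0705aa8705aa0705a98705a70705a68705a50705a48705a40705a38705a30705a28705a007059f87059e87059e07059d87059d07059c87059c07059787059707059687059607059587059087059007058f87058f07058e87058987058907058887058807058207058187058107057b07057a87053487053407052e07052d87052d07052c07052b87052707052687052587052507052487052007051f87051f07051e87051e07051887051807051787051187051107051087050b07050a87050a0705098705090705040705038705028705020704fd0704fc8704fc0704fb8704fb0704f60704f58704f50704f48704f40704a18704a107049a87049a07049387049307048d07048c87048c07048b87048b07048607048587048487048407047f07047e87047e07047d87047d07047807047787047707047687047607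 = true := by
  decide +kernel

theorem a3_aux (hf : Rule f) {k c n M X : ℕ} (H : PL f k c n M) (hX : 2 * M + 16 ≤ X) (hX2 : X % 2 = 0)
    (D0 : Cyc f (6 * k) (c - 2) (X - 2)) (D0a : Cyc f (6 * k) (c - 6) (X - 6 - 2 * k))
    (C4a : Cyc f (6 * k + 4) (c - 6) (2 * (n - (k + 1)) + 2))
    (p0 : ∀ {L R x y : ℕ}, L = 6 * k + 1 → R = c → x = X → y + 2 * k = X + 2 → f L R x y)
    (p1 : ∀ {L R x y : ℕ}, L = 6 * k + 2 → R + 2 = c → x + 6 = X → y + 2 * k + 1 = X → f L R x y)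
    (z0 : ∀ {L R x y : ℕ}, L = 6 * k → R + 4 = c → x + 12 = X → y + 2 * k + 7 = X → ¬ f L R x y) : False := by
  have hk := H.T.hk
  have hc := H.T.hc
  have h4 := H.T.h4
  have hb := H.T.hb
  have hN := H.T.hN2
  have hM := H.hM
  have hM' := H.hM'
  have T := H.T
  have U := H.U
  have C2 := H.c2
  have C4 := H.c4
  have C6a := H.c6a
  have C6 := H.c6
  have C8a := H.c8a
  have C8 := H.c8
  have C10a := H.c10a
  have C10 := H.c10
  have hL : ∀ {M' R x y : ℕ}, M' + 1 = 6 * k → c ≤ R + 12 → R ≤ c + 12 → 2 * n ≤ x + 20 → y ≤ x → x ≤ y + 4 * k →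
      ¬ f M' R x y := fun {a b c d} => H.lw a b c d
  obtain ⟨a0, ha0⟩ : ∃ z, z + 2 = 6 * k := ⟨6 * k - 2, by omega⟩
  obtain ⟨b0, hb0⟩ : ∃ z, z + 6 = c := ⟨c - 6, by omega⟩
  obtain ⟨x0, hx0⟩ : ∃ z, z + 13 = X := ⟨X - 13, by omega⟩
  obtain ⟨y0, hy0⟩ : ∃ z, z + 2 * k + 20 = X + 10 := ⟨X + 10 - 2 * k - 20, by omega⟩
  refine check_sound hf (a0 := a0) (b0 := b0) (x0 := x0) (y0 := y0) a3_chk
    ⟨fun h => absurd h (by decide), fun h => absurd h (by decide), fun h => absurd h (by decide), by omega, by omega,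
      by omega, by omega⟩ ?_ ?_
  · intro j m p q hr h
    obtain ⟨-, -, hm1, hm2, hp1, hp2, hq1, hq2⟩ := hr
    replace h := of_decide_eq_true h
    rcases h with h | h | h | h | h | h | h | h | h | h | h | h | h | h | h | h | h | h
    · obtain ⟨rfl, rfl, h⟩ := h
      exact (WrapC.v1 D0a (by omega) (by omega) (by omega) (by omega) (by omega) (by omega) (by omega) (by omega)).mpr (by omega)
    · obtain ⟨rfl, rfl, h⟩ := h
      exact (WrapC.v2 D0a (by omega) (by omega) (by omega) (by omega) (by omega) (by omega) (by omega)).mpr (by omega)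
    · obtain ⟨rfl, rfl, h⟩ := h
      exact (WrapC.v4 D0a (by omega) (by omega) (by omega) (by omega) (by omega) (by omega) (by omega)).mpr (by omega)
    · obtain ⟨rfl, rfl, h⟩ := h
      exact (WrapC.v1 C2 (by omega) (by omega) (by omega) (by omega) (by omega) (by omega) (by omega) (by omega)).mpr (by omega)
    · obtain ⟨rfl, rfl, h⟩ := h
      exact (WrapC.v2 C2 (by omega) (by omega) (by omega) (by omega) (by omega) (by omega) (by omega)).mpr (by omega)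
    · obtain ⟨rfl, rfl, h⟩ := h
      exact (WrapC.v1 C4a (by omega) (by omega) (by omega) (by omega) (by omega) (by omega) (by omega) (by omega)).mpr (by omega)
    · obtain ⟨rfl, rfl, h⟩ := h
      exact (WrapC.v2 C4a (by omega) (by omega) (by omega) (by omega) (by omega) (by omega) (by omega)).mpr (by omega)
    · obtain ⟨rfl, rfl, h⟩ := h
      exact (WrapC.v0 C4 (by omega) (by omega) (by omega) (by omega) (by omega) (by omega) (by omega)).mpr (by omega)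
    · obtain ⟨rfl, rfl, h⟩ := h
      exact (WrapC.v1 C4 (by omega) (by omega) (by omega) (by omega) (by omega) (by omega) (by omega) (by omega)).mpr (by omega)
    · obtain ⟨rfl, rfl, h⟩ := h
      exact (WrapC.v2 C4 (by omega) (by omega) (by omega) (by omega) (by omega) (by omega) (by omega)).mpr (by omega)
    · obtain ⟨rfl, rfl, h⟩ := h
      exact (WrapC.v3 C6a (by omega) (by omega) (by omega) (by omega) (by omega) (by omega) (by omega) (by omega)).mpr (by omega)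
    · obtain ⟨rfl, rfl, h⟩ := h
      exact (WrapC.v0 C6 (by omega) (by omega) (by omega) (by omega) (by omega) (by omega) (by omega)).mpr (by omega)
    · obtain ⟨rfl, rfl, h⟩ := h
      exact (WrapC.v2 C6 (by omega) (by omega) (by omega) (by omega) (by omega) (by omega) (by omega)).mpr (by omega)
    · obtain ⟨rfl, rfl, h⟩ := h
      exact (NW.w0v C8 (by omega) (by omega) (by omega) (by omega) (by omega) (by omega) (by omega)).mpr (by omega)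
    · obtain ⟨rfl, rfl, h⟩ := h
      exact (NW.w1v C8 (by omega) (by omega) (by omega) (by omega) (by omega) (by omega) (by omega) (by omega)).mpr (by omega)
    · obtain ⟨rfl, rfl, h⟩ := h
      exact (NW.w0v C10 (by omega) (by omega) (by omega) (by omega) (by omega) (by omega) (by omega)).mpr (by omega)
    · obtain ⟨rfl, rfl, rfl, rfl⟩ := h
      exact p0 (by omega) (by omega) (by omega) (by omega)
    · obtain ⟨rfl, rfl, rfl, rfl⟩ := h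
      exact p1 (by omega) (by omega) (by omega) (by omega)
  · intro j m p q hr h
    obtain ⟨-, -, hm1, hm2, hp1, hp2, hq1, hq2⟩ := hr
    replace h := of_decide_eq_true h
    rcases h with h | h | h | h | h | h | h | h | h | h | h | h | h | h | h | h | h | h | h | h | h | h | h | h | h | h | h | h | h | h | h | h | h | h | h | h | h | h | h
    · obtain ⟨rfl, rfl, h⟩ := h
      exact mt (WrapC.v1 D0a (by omega) (by omega) (by omega) (by omega) (by omega) (by omega) (by omega) (by omega)).mp (by omega)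
    · obtain ⟨rfl, rfl, h⟩ := h
      exact mt (WrapC.v2 D0a (by omega) (by omega) (by omega) (by omega) (by omega) (by omega) (by omega)).mp (by omega)
    · obtain ⟨rfl, rfl, h⟩ := h
      exact mt (WrapC.v4 D0a (by omega) (by omega) (by omega) (by omega) (by omega) (by omega) (by omega)).mp (by omega)
    · obtain ⟨rfl, rfl, h⟩ := h
      exact mt (WrapC.v1 C2 (by omega) (by omega) (by omega) (by omega) (by omega) (by omega) (by omega) (by omega)).mp (by omega)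
    · obtain ⟨rfl, rfl, h⟩ := h
      exact mt (WrapC.v2 C2 (by omega) (by omega) (by omega) (by omega) (by omega) (by omega) (by omega)).mp (by omega)
    · obtain ⟨rfl, rfl, h⟩ := h
      exact mt (WrapC.v1 C4a (by omega) (by omega) (by omega) (by omega) (by omega) (by omega) (by omega) (by omega)).mp (by omega)
    · obtain ⟨rfl, rfl, h⟩ := h
      exact mt (WrapC.v2 C4a (by omega) (by omega) (by omega) (by omega) (by omega) (by omega) (by omega)).mp (by omega)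
    · obtain ⟨rfl, rfl, h⟩ := h
      exact mt (WrapC.v0 C4 (by omega) (by omega) (by omega) (by omega) (by omega) (by omega) (by omega)).mp (by omega)
    · obtain ⟨rfl, rfl, h⟩ := h
      exact mt (WrapC.v1 C4 (by omega) (by omega) (by omega) (by omega) (by omega) (by omega) (by omega) (by omega)).mp (by omega)
    · obtain ⟨rfl, rfl, h⟩ := h
      exact mt (WrapC.v2 C4 (by omega) (by omega) (by omega) (by omega) (by omega) (by omega) (by omega)).mp (by omega)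
    · obtain ⟨rfl, rfl, h⟩ := h
      exact mt (WrapC.v3 C6a (by omega) (by omega) (by omega) (by omega) (by omega) (by omega) (by omega) (by omega)).mp (by omega)
    · obtain ⟨rfl, rfl, h⟩ := h
      exact mt (WrapC.v0 C6 (by omega) (by omega) (by omega) (by omega) (by omega) (by omega) (by omega)).mp (by omega)
    · obtain ⟨rfl, rfl, h⟩ := h
      exact mt (WrapC.v2 C6 (by omega) (by omega) (by omega) (by omega) (by omega) (by omega) (by omega)).mp (by omega)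
    · obtain ⟨rfl, rfl, h⟩ := h
      exact mt (NW.w0v C8 (by omega) (by omega) (by omega) (by omega) (by omega) (by omega) (by omega)).mp (by omega)
    · obtain ⟨rfl, rfl, h⟩ := h
      exact mt (NW.w1v C8 (by omega) (by omega) (by omega) (by omega) (by omega) (by omega) (by omega) (by omega)).mp (by omega)
    · obtain ⟨rfl, rfl, h⟩ := h
      exact mt (NW.w0v C10 (by omega) (by omega) (by omega) (by omega) (by omega) (by omega) (by omega)).mp (by omega)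
    · obtain rfl := h
      exact hL (by omega) (by omega) (by omega) (by omega) (by omega) (by omega)
    · obtain ⟨rfl, rfl, h⟩ := h
      exact NHT.pIn hf T (t := 3) (j := 1) (by omega) (by omega) (by omega) (by omega) (by omega) (by omega) (by omega)
    · obtain ⟨rfl, rfl, h⟩ := h
      exact NHT.rIn hf T (t := 3) (p := 1) (j := 3) (by omega) (by omega) (by omega) (by omega) (by omega) (by omega) (by omega) (by omega)
    · obtain ⟨rfl, rfl, h⟩ := h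
      exact NHT.rIn hf T (t := 3) (p := 1) (j := 2) (by omega) (by omega) (by omega) (by omega) (by omega) (by omega) (by omega) (by omega)
    · obtain ⟨rfl, rfl, h⟩ := h
      exact NHT.rIn hf T (t := 3) (p := 0) (j := 1) (by omega) (by omega) (by omega) (by omega) (by omega) (by omega) (by omega) (by omega)
    · obtain ⟨rfl, rfl, h⟩ := h
      exact NHT.rIn hf T (t := 3) (p := 1) (j := 1) (by omega) (by omega) (by omega) (by omega) (by omega) (by omega) (by omega) (by omega)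
    · obtain ⟨rfl, rfl, h⟩ := h
      exact uP1 hf U (j := 1) (by omega) (by omega) (by omega) (by omega) (by omega) (by omega)
    · obtain ⟨rfl, rfl, h⟩ := h
      exact NHT.pIn hf T (t := 4) (j := 2) (by omega) (by omega) (by omega) (by omega) (by omega) (by omega) (by omega)
    · obtain ⟨rfl, rfl, h⟩ := h
      exact uP1 hf U (j := 1) (by omega) (by omega) (by omega) (by omega) (by omega) (by omega)
    · obtain ⟨rfl, rfl, h⟩ := h
      exact NHT.rIn hf T (t := 4) (p := 0) (j := 4) (by omega) (by omega) (by omega) (by omega) (by omega) (by omega) (by omega) (by omega)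
    · obtain ⟨rfl, rfl, h⟩ := h
      exact NHT.rIn hf T (t := 4) (p := 1) (j := 4) (by omega) (by omega) (by omega) (by omega) (by omega) (by omega) (by omega) (by omega)
    · obtain ⟨rfl, rfl, h⟩ := h
      exact NHT.rIn hf T (t := 4) (p := 0) (j := 3) (by omega) (by omega) (by omega) (by omega) (by omega) (by omega) (by omega) (by omega)
    · obtain ⟨rfl, rfl, h⟩ := h
      exact NHT.rIn hf T (t := 4) (p := 1) (j := 3) (by omega) (by omega) (by omega) (by omega) (by omega) (by omega) (by omega) (by omega)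
    · obtain ⟨rfl, rfl, h⟩ := h
      exact NHT.rIn hf T (t := 4) (p := 0) (j := 2) (by omega) (by omega) (by omega) (by omega) (by omega) (by omega) (by omega) (by omega)
    · obtain ⟨rfl, rfl, h⟩ := h
      exact uA1 hf U (p := 0) (j := 1) (by omega) (by omega) (by omega) (by omega) (by omega) (by omega) (by omega)
    · obtain ⟨rfl, rfl, h⟩ := h
      exact NHT.rIn hf T (t := 4) (p := 1) (j := 1) (by omega) (by omega) (by omega) (by omega) (by omega) (by omega) (by omega) (by omega)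
    · obtain ⟨rfl, rfl, h⟩ := h
      exact uA1 hf U (p := 1) (j := 1) (by omega) (by omega) (by omega) (by omega) (by omega) (by omega) (by omega)
    · obtain ⟨rfl, rfl, h⟩ := h
      exact NHT.p0i hf T (j := 4) (by omega) (by omega) (by omega) (by omega) (by omega) (by omega)
    · obtain ⟨rfl, rfl, h⟩ := h
      exact NHT.p0i hf T (j := 3) (by omega) (by omega) (by omega) (by omega) (by omega) (by omega)
    · obtain ⟨rfl, rfl, h⟩ := h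
      exact NHT.p0i hf T (j := 2) (by omega) (by omega) (by omega) (by omega) (by omega) (by omega)
    · obtain ⟨rfl, rfl, h⟩ := h
      exact uP2 hf U (j := 2) (by omega) (by omega) (by omega) (by omega) (by omega) (by omega)
    · obtain ⟨rfl, rfl, h⟩ := h
      exact uP2 hf U (j := 1) (by omega) (by omega) (by omega) (by omega) (by omega) (by omega)
    · obtain ⟨rfl, rfl, rfl, rfl⟩ := h
      exact z0 (by omega) (by omega) (by omega) (by omega)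

end Pool.Agent.SNT.L0E
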