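import Pool.Agent.SNT.PL

set_option autoImplicit false
set_option synthInstance.maxSize 100000
set_option synthInstance.maxHeartbeats 4000000

/-! The E-cell of the road L0: window A4. -/

namespace Pool.Agent.SNT.L0E

open Pool.Agent.SNT Pool.Agent.SNT.Loc Pool.Agent.SNT.LW Pool.Agent.SNT.NHZ Pool.Agent.SNT.D1E Pool.Agent.SNT.K0L2c

variable {f : ℕ → ℕ → ℕ → ℕ → Prop}

theorem a4_chk : check 12 8 15 17 0 0 0 1 0
    (fun j n p q => decide ((j = 2 ∧ n = 1 ∧ ((p + q + 1) % 2 = 0 ∧ q ≤ p + 3 ∧ (p + q + 3) % 4 = 0))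
      ∨ (j = 2 ∧ n = 2 ∧ ((5 ≤ p) ∨ (q ≤ p + 3) ∨ (p + 4 ≤ q ∧ 9 ≤ q)) ∧ (((p + q + 1) % 2 = 1 ∧ p + 4 ≤ q ∧ p % 2 = 0) ∨ ((p + q + 1) % 2 = 1 ∧ q ≤ p + 4 ∧ (p + q) % 4 = 0)))
      ∨ (j = 2 ∧ n = 4 ∧ 9 ≤ p ∧ (((p + q + 1) % 2 = 1 ∧ p + 4 ≤ q ∧ p % 2 = 1) ∨ ((p + q + 1) % 2 = 1 ∧ q ≤ p + 4 ∧ (p + q + 2) % 4 = 0)))
      ∨ (j = 4 ∧ n = 2 ∧ (((p + q + 1) % 2 = 1 ∧ p + 4 ≤ q ∧ p % 2 = 1) ∨ ((p + q + 1) % 2 = 1 ∧ q ≤ p + 4 ∧ (p + q + 2) % 4 = 0)))
      ∨ (j = 4 ∧ n = 4 ∧ q ≤ p + 3 ∧ (((p + q + 1) % 2 = 1 ∧ p + 4 ≤ q ∧ p % 2 = 0) ∨ ((p + q + 1) % 2 = 1 ∧ q ≤ p + 4 ∧ (p + q) % 4 = 0)))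
      ∨ (j = 6 ∧ n = 3 ∧ ((5 ≤ p) ∨ (p + 4 ≤ q ∧ 9 ≤ q)) ∧ ((p + q + 1) % 2 = 0 ∧ q ≤ p + 3 ∧ (p + q + 1) % 4 = 0))
      ∨ (j = 6 ∧ n = 4 ∧ 7 ≤ p ∧ (((p + q + 1) % 2 = 1 ∧ p + 4 ≤ q ∧ p % 2 = 1) ∨ ((p + q + 1) % 2 = 1 ∧ q ≤ p + 4 ∧ (p + q + 2) % 4 = 0)))
      ∨ (j = 6 ∧ n = 5 ∧ ((9 ≤ p) ∨ (p + 3 ≤ q ∧ 8 ≤ p)) ∧ ((p + q + 1) % 2 = 0 ∧ q ≤ p + 3 ∧ (p + q + 3) % 4 = 0))
      ∨ (j = 8 ∧ n = 2 ∧ (((p + q + 1) % 2 = 1 ∧ p + 2 ≤ q ∧ p % 2 = 1) ∨ ((p + q + 1) % 2 = 1 ∧ q ≤ p + 2 ∧ (p + q + 2) % 4 = 2)))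
      ∨ (j = 8 ∧ n = 4 ∧ q ≤ p + 1 ∧ (((p + q + 1) % 2 = 1 ∧ p + 2 ≤ q ∧ p % 2 = 0) ∨ ((p + q + 1) % 2 = 1 ∧ q ≤ p + 2 ∧ (p + q) % 4 = 2)))
      ∨ (j = 10 ∧ n = 1 ∧ ((p + q + 1) % 2 = 0 ∧ q ≤ p + 1 ∧ (p + q + 3) % 4 = 2))
      ∨ (j = 10 ∧ n = 2 ∧ ((p + 2 ≤ q) ∨ (q ≤ p + 1)) ∧ (((p + q + 1) % 2 = 1 ∧ p + 2 ≤ q ∧ p % 2 = 0) ∨ ((p + q + 1) % 2 = 1 ∧ q ≤ p + 2 ∧ (p + q) % 4 = 2)))
      ∨ (j = 10 ∧ n = 4 ∧ (((p + q + 1) % 2 = 1 ∧ p + 2 ≤ q ∧ p % 2 = 1) ∨ ((p + q + 1) % 2 = 1 ∧ q ≤ p + 2 ∧ (p + q + 2) % 4 = 2)))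
      ∨ (j = 10 ∧ n = 5 ∧ ((p + 4 ≤ q) ∨ (3 ≤ p)) ∧ ((p + q + 1) % 2 = 0 ∧ q ≤ p + 1 ∧ (p + q + 3) % 4 = 2))
      ∨ (j = 10 ∧ n = 6 ∧ q ≤ p + 1 ∧ 5 ≤ p ∧ (((p + q + 1) % 2 = 1 ∧ p + 2 ≤ q ∧ p % 2 = 0) ∨ ((p + q + 1) % 2 = 1 ∧ q ≤ p + 2 ∧ (p + q) % 4 = 2)))
      ∨ (j = 12 ∧ n = 2 ∧ (((p + q + 1) % 2 = 1 ∧ p + 2 ≤ q ∧ p % 2 = 1) ∨ ((p + q + 1) % 2 = 1 ∧ q ≤ p + 2 ∧ (p + q + 2) % 4 = 2)))
      ∨ (j = 12 ∧ n = 3 ∧ ((p + q + 1) % 2 = 0 ∧ q ≤ p + 1 ∧ (p + q + 3) % 4 = 2))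
      ∨ (j = 12 ∧ n = 6 ∧ ((5 ≤ p ∧ p + 4 ≤ q) ∨ (7 ≤ p)) ∧ (((p + q + 1) % 2 = 1 ∧ p + 2 ≤ q ∧ p % 2 = 1) ∨ ((p + q + 1) % 2 = 1 ∧ q ≤ p + 2 ∧ (p + q + 2) % 4 = 2)))
      ∨ (j = 3 ∧ n = 6 ∧ p = 10 ∧ q = 15)
      ∨ (j = 4 ∧ n = 4 ∧ p = 4 ∧ q = 12)))
    (fun j n p q => decide ((j = 2 ∧ n = 1 ∧ ¬ ((p + q + 1) % 2 = 0 ∧ q ≤ p + 3 ∧ (p + q + 3) % 4 = 0))
      ∨ (j = 2 ∧ n = 2 ∧ ((5 ≤ p) ∨ (q ≤ p + 3) ∨ (p + 4 ≤ q ∧ 9 ≤ q)) ∧ ¬ (((p + q + 1) % 2 = 1 ∧ p + 4 ≤ q ∧ p % 2 = 0) ∨ ((p + q + 1) % 2 = 1 ∧ q ≤ p + 4 ∧ (p + q) % 4 = 0)))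
      ∨ (j = 2 ∧ n = 4 ∧ 9 ≤ p ∧ ¬ (((p + q + 1) % 2 = 1 ∧ p + 4 ≤ q ∧ p % 2 = 1) ∨ ((p + q + 1) % 2 = 1 ∧ q ≤ p + 4 ∧ (p + q + 2) % 4 = 0)))
      ∨ (j = 4 ∧ n = 2 ∧ ¬ (((p + q + 1) % 2 = 1 ∧ p + 4 ≤ q ∧ p % 2 = 1) ∨ ((p + q + 1) % 2 = 1 ∧ q ≤ p + 4 ∧ (p + q + 2) % 4 = 0)))
      ∨ (j = 4 ∧ n = 4 ∧ q ≤ p + 3 ∧ ¬ (((p + q + 1) % 2 = 1 ∧ p + 4 ≤ q ∧ p % 2 = 0) ∨ ((p + q + 1) % 2 = 1 ∧ q ≤ p + 4 ∧ (p + q) % 4 = 0)))
      ∨ (j = 6 ∧ n = 3 ∧ ((5 ≤ p) ∨ (p + 4 ≤ q ∧ 9 ≤ q)) ∧ ¬ ((p + q + 1) % 2 = 0 ∧ q ≤ p + 3 ∧ (p + q + 1) % 4 = 0))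
      ∨ (j = 6 ∧ n = 4 ∧ 7 ≤ p ∧ ¬ (((p + q + 1) % 2 = 1 ∧ p + 4 ≤ q ∧ p % 2 = 1) ∨ ((p + q + 1) % 2 = 1 ∧ q ≤ p + 4 ∧ (p + q + 2) % 4 = 0)))
      ∨ (j = 6 ∧ n = 5 ∧ ((9 ≤ p) ∨ (p + 3 ≤ q ∧ 8 ≤ p)) ∧ ¬ ((p + q + 1) % 2 = 0 ∧ q ≤ p + 3 ∧ (p + q + 3) % 4 = 0))
      ∨ (j = 8 ∧ n = 2 ∧ ¬ (((p + q + 1) % 2 = 1 ∧ p + 2 ≤ q ∧ p % 2 = 1) ∨ ((p + q + 1) % 2 = 1 ∧ q ≤ p + 2 ∧ (p + q + 2) % 4 = 2)))
      ∨ (j = 8 ∧ n = 4 ∧ q ≤ p + 1 ∧ ¬ (((p + q + 1) % 2 = 1 ∧ p + 2 ≤ q ∧ p % 2 = 0) ∨ ((p + q + 1) % 2 = 1 ∧ q ≤ p + 2 ∧ (p + q) % 4 = 2)))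
      ∨ (j = 10 ∧ n = 1 ∧ ¬ ((p + q + 1) % 2 = 0 ∧ q ≤ p + 1 ∧ (p + q + 3) % 4 = 2))
      ∨ (j = 10 ∧ n = 2 ∧ ((p + 2 ≤ q) ∨ (q ≤ p + 1)) ∧ ¬ (((p + q + 1) % 2 = 1 ∧ p + 2 ≤ q ∧ p % 2 = 0) ∨ ((p + q + 1) % 2 = 1 ∧ q ≤ p + 2 ∧ (p + q) % 4 = 2)))
      ∨ (j = 10 ∧ n = 4 ∧ ¬ (((p + q + 1) % 2 = 1 ∧ p + 2 ≤ q ∧ p % 2 = 1) ∨ ((p + q + 1) % 2 = 1 ∧ q ≤ p + 2 ∧ (p + q + 2) % 4 = 2)))
      ∨ (j = 10 ∧ n = 5 ∧ ((p + 4 ≤ q) ∨ (3 ≤ p)) ∧ ¬ ((p + q + 1) % 2 = 0 ∧ q ≤ p + 1 ∧ (p + q + 3) % 4 = 2))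
      ∨ (j = 10 ∧ n = 6 ∧ q ≤ p + 1 ∧ 5 ≤ p ∧ ¬ (((p + q + 1) % 2 = 1 ∧ p + 2 ≤ q ∧ p % 2 = 0) ∨ ((p + q + 1) % 2 = 1 ∧ q ≤ p + 2 ∧ (p + q) % 4 = 2)))
      ∨ (j = 12 ∧ n = 2 ∧ ¬ (((p + q + 1) % 2 = 1 ∧ p + 2 ≤ q ∧ p % 2 = 1) ∨ ((p + q + 1) % 2 = 1 ∧ q ≤ p + 2 ∧ (p + q + 2) % 4 = 2)))
      ∨ (j = 12 ∧ n = 3 ∧ ¬ ((p + q + 1) % 2 = 0 ∧ q ≤ p + 1 ∧ (p + q + 3) % 4 = 2))
      ∨ (j = 12 ∧ n = 6 ∧ ((5 ≤ p ∧ p + 4 ≤ q) ∨ (7 ≤ p)) ∧ ¬ (((p + q + 1) % 2 = 1 ∧ p + 2 ≤ q ∧ p % 2 = 1) ∨ ((p + q + 1) % 2 = 1 ∧ q ≤ p + 2 ∧ (p + q + 2) % 4 = 2)))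
      ∨ (j = 1)
      ∨ (j = 2 ∧ n = 3 ∧ p + 8 ≤ q)
      ∨ (j = 3 ∧ n = 3 ∧ p + 8 ≤ q)
      ∨ (j = 6 ∧ n = 3 ∧ p + 6 ≤ q)
      ∨ (j = 7 ∧ n = 3 ∧ p + 4 ≤ q)
      ∨ (j = 3 ∧ n = 4 ∧ p + 8 ≤ q)
      ∨ (j = 5 ∧ n = 4 ∧ p + 7 ≤ q)
      ∨ (j = 7 ∧ n = 4 ∧ p + 4 ≤ q)
      ∨ (j = 2 ∧ n = 5 ∧ p + 9 ≤ q)
      ∨ (j = 3 ∧ n = 5 ∧ p + 9 ≤ q)
      ∨ (j = 4 ∧ n = 5 ∧ p + 8 ≤ q)
      ∨ (j = 5 ∧ n = 5 ∧ p + 8 ≤ q)
      ∨ (j = 6 ∧ n = 5 ∧ p + 7 ≤ q)
      ∨ (j = 7 ∧ n = 5 ∧ 6 ≤ p ∧ p + 5 ≤ q)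
      ∨ (j = 9 ∧ n = 5 ∧ p + 4 ≤ q)
      ∨ (j = 7 ∧ n = 6 ∧ 4 ≤ p ∧ p + 7 ≤ q)
      ∨ (j = 7 ∧ n = 6 ∧ 6 ≤ p ∧ p + 5 ≤ q)
      ∨ (j = 9 ∧ n = 6 ∧ 6 ≤ p ∧ p + 4 ≤ q)
      ∨ (j = 2 ∧ n = 6 ∧ p = 2 ∧ q = 10)))
    968
    0xa3f030abf000ac81a0ad0000b58ba0aa6850a1e000aaf120a271a0a27800e2cda172b830f2a800f2a810b25000b25010aa4800aa4810aa3800aa381099c000a1280099c010a130a0a13800e18da1f3d03173c00173c8a1f3d03173c80173c840f3b800f3b810b2e000b2e010a13050a9b800a138a0aa49a099c000aa3800a24ba0aac120a2d000b34800ab5ba0b350a0b35800b360a0b36800b370a0b25800b25840a13050a9b800a138a0aa49a099c000aa3800a24ba0aac120a2d000b34800ab5ba0b350a0b35800b360a0b36800f3bda1340001340040aa5000b252a172b830f2a800f2a810b25000b2504273e031f3d001f3d0412418316bd0016bd040a14000a1404098a030a0a000a0a0412390312b88012b8840aac030aac800aac840a0b030dfe800e079a0a8b000b13ba0b1c000b1c040a1d030a9c800a9c840a0c030a8b800a8b840aad830b2d000b2d041f2c03172b0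0172b040d98030e18000e180422428322c20022c204120d030e07800e07840aa5030b24800b24840a13830e0f800e0f841f23831722801722840a0b030e07000e07040b3f030f3b000f3b040a1b030a9a800a9a840b2e030f2a000f2a040b36830f32800f32840a1b030a9b000a9b04090b03098b00098b041f24031723001723040b37030f33000f33040aac030b2c000b2c0426368322ba0022ba040a1d030a9c800aa5120aad800aad840a14030a93800a938412418312c10012c1040b25830f21800f21841f34831734001734040a2d030aad000aad0422c20326be0026be04223a0322b98022b9840a14830a94000a9404099c030a1c000a1c040b26030a9d000a9d040d98030e18000e188a0a0b000a141a0a9c000a9c042f3e03273d80273d8412308316ac0016ac040a14030e10000e1004121e030e18800e18840b2f000b37920a27000a278a0a28000a280422390322b90022b9040b26030f22000f220412308312b00012b0041f348317338017338422430322c28022c2840b40000b491a0a38800a41120903800a37800d08da0a37810914800a2600091d120e2ad209a58009ae120a36800a3f120ac7800ad0120b58800b58840994030d90000d90040d08830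98c00098c0416350316b48016b484098a03098a80098a841f2c83172b80172b84162c830e2b800e2b810aaf000aaf040a14830e10800e10840ab7030eb3000eb30409ae030a2e000a2e040ad0030b50000b50040a37030ab6800ab68421c20021b00012380021c20121b001163442193900192700122700119d000b48000a35000a230011c10011af0019c1ba19afba1623ca1599420ad8000b511a09b6000a350109ac0009a4000a2301099a0009920011c10111af013343003332002ab9002a3b002a3a002a2a00224100222f00214b00214400214300213900213300213200213100212700211f001aca001ab8001a41001a3a001a39001a28001a270019ca0019c20019b80019b00019a600199e00124000122e00121c00121600114a00114200113800113100113000112600112000111f00111e00111400110e00110d00110c0010fd0010fc000f4d800a59000a51000ad8010a4f000a4a000a49000a4700094900094200094100093700093100093000092f0009b601092d0009250009ac01092300091f00091e0009a401091b00091300099a01091100090d0009920109090009010008ca0008b80008a60008940008820033430f33320f2b41872ac2872ac2072ab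a072ab9872ab90f2a3b0f2a3a0f2a2a0f273e0727358727350726be8726b60726b58723398722410f223a87223987223887222f0f214b0f21440f21430f214287214207213a0721398721390f21330f21320f21310f21308721300721280721278721270f211f0f1f34871f2c871f2c071f2b871f24071f23871f23071f1b871f1b071f1a871eb5071ead071eac871eac071ea4871ea4071ea3871e9c071e9b871e9b071e47071e3e871e3e071e35871e35071dc7871dbf071dbe871db6071db5871b40871b30871b2f871b1f871b1e871aca0f1ac1871ac1071ab9071ab8871ab80f1ab1071ab0871ab0071aa8871aa8071aa0071a9f871a9f071a410f1a3a0f1a390f1a280f1a270f19ca0f19c20f19c18719c10719b90719b88719b80f19b00f19af8719af0719a70719a68719a60f199e0f194187192f8716a387162c87162407162387161b07161a8713378713268712a78712400f123887123787122e0f122787121c0f12160f121587120487114a0f11420f11418711410711390711388711380f11310f11300f112f87112f0711270711268711260f11200f111f0f111e0f111d87111d0711150711148711140f110e0f110d0f110c0f10fd0f10fc0f0f4d8f0e2c8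70e2c070e24070e23870e23070e11070e08870e08070dff070dad070dac870da4870da4070da3870d91870d89070d88870d7f870b50870b4f870b40870b3f870b3e870b2e870b2d870b2c870b1d870b1c870b0b070b0a870a9e070a590f0a58870a58070a510f0a50870a50070a4f870a4f0f0a4a0f0a490f0a48870a48070a47870a470f0a40870a3f870a3e870a30870a2f870a2e870a2d870a2c870a1e870a1c870a1b870a1a870a0b870a0a8709b10709b08709a88709a80709a787099f87099f07099e87098c8709840709838709490f09420f09410f09370f09368709360709310f09300f092f0f092e87092e07092d87092d0f092c87092c0709260709258709250f09248709240709238709230f091f0f091e0f091c87091c07091b87091b0f091a87091a0709138709130f09128709120709118709110f090d0f090c87090b87090a87090a0709098709090f09040709018709010f08ca0f08b80f08a60f089d87089d0708950708948708940f088d07088c87088b87088b0708848708840708830708828708820f075c87075c07075507075487075407075387074d07074c87074c07074487074407074307074287073b87073b07073a87073a070739870739070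73887073307073287073207073187073107073087073007072a07072987072907072887072187072107072087072007071787071707070f07070e8706dd0706dc8706dc0706db8706d58706d50706d48706d40706d38706d30706cd8706cd0706cc8706cc0706cb8706cb0706c50706c48706c38706c30706bc0706bb8706bb0706ba8706ba0706b98706b90706b38706b30706b28706b20706b18706b10706b08706b00706af8706aa8706aa0706a98706a90706a88706a80706a78706a70706a20706a18706a10706a08706a007069f87069f07069e87069807069787068f87068f07065c87065c07065487065407065387064c87064c07064b87064507064487064407064387064307064287063c87063c07063b87063b07063a87063a07063987063907063887063387063307063287063207063187063107063087063007062b87062b07062a87062987062907062887062807062787062707062687062307062287062207062107062087062007061f87061f07061e87061e07061887061807061787061707061687061607061007060f87060f07060e87060e0706078706070706068706060705c58705c50705c38705c30705bd0705bc8705bc0705bb8705bb0705b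a8705ba0705b98705b90705b38705b30705b28705b20705b18705b10705b08705b00705af8705ac0705ab8705ab0705a98705a90705a88705a80705a78705a70705a38705a30705a28705a18705a10705a08705a007059f87059f07059e87059e07059d87059907059887059807059787059707059687059607059587059507059087059007058f87058f07058e87058e07058d87058d07058807058787058707058687058587058507053a87053a07053287053207053187053087053007052a07052987052887052807052787052107052087052007051f87051e87051e07051887051807051787051687051607051587051007050f87050f07050e87050e07050d8705068705060705058704a18704a107049907049887048f87048f07048707048687 = true := by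
  decide +kernel

theorem a4_aux (hf : Rule f) {k c n M X : ℕ} (H : PL f k c n M) (hX : 2 * M + 16 ≤ X) (hX2 : X % 2 = 0)
    (D0 : Cyc f (6 * k) (c - 2) (X - 2)) (D0a : Cyc f (6 * k) (c - 6) (X - 6 - 2 * k))
    (C4a : Cyc f (6 * k + 4) (c - 6) (2 * (n - (k + 1)) + 2))
    (p0 : ∀ {L R x y : ℕ}, L = 6 * k + 1 → R = c → x = X → y + 2 * k = X + 2 → f L R x y)
    (p1 : ∀ {L R x y : ℕ}, L = 6 * k + 2 → R + 2 = c → x + 6 = X → y + 2 * k + 1 = X → f L R x y)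
    (z0 : ∀ {L R x y : ℕ}, L = 6 * k → R = c → x + 8 = X → y + 2 * k + 3 = X → ¬ f L R x y) : False := by
  have hk := H.T.hk
  have hc := H.T.hc
  have h4 := H.T.h4
  have hb := H.T.hb
  have hN := H.T.hN2
  have hM := H.hM
  have hM' := H.hM'
  have T := H.T
  have U := H.U
  have C2 := H.c2
  have C4 := H.c4
  have C6a := H.c6a
  have C6 := H.c6
  have C8a := H.c8a
  have C8 := H.c8
  have C10a := H.c10a
  have C10 := H.c10
  have hL : ∀ {M' R x y : ℕ}, M' + 1 = 6 * k → c ≤ R + 12 → R ≤ c + 12 → 2 * n ≤ x + 20 → y ≤ x → x ≤ y + 4 * k →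
      ¬ f M' R x y := fun {a b c d} => H.lw a b c d
  obtain ⟨a0, ha0⟩ : ∃ z, z + 2 = 6 * k := ⟨6 * k - 2, by omega⟩
  obtain ⟨b0, hb0⟩ : ∃ z, z + 6 = c := ⟨c - 6, by omega⟩
  obtain ⟨x0, hx0⟩ : ∃ z, z + 10 = X := ⟨X - 10, by omega⟩
  obtain ⟨y0, hy0⟩ : ∃ z, z + 2 * k + 20 = X + 7 := ⟨X + 7 - 2 * k - 20, by omega⟩
  refine check_sound hf (a0 := a0) (b0 := b0) (x0 := x0) (y0 := y0) a4_chk
    ⟨fun h => absurd h (by decide), fun h => absurd h (by decide), fun h => absurd h (by decide), by omega, by omega,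
      by omega, by omega⟩ ?_ ?_
  · intro j m p q hr h
    obtain ⟨-, -, hm1, hm2, hp1, hp2, hq1, hq2⟩ := hr
    replace h := of_decide_eq_true h
    rcases h with h | h | h | h | h | h | h | h | h | h | h | h | h | h | h | h | h | h | h | h
    · obtain ⟨rfl, rfl, h⟩ := h
      exact (WrapC.v1 D0a (by omega) (by omega) (by omega) (by omega) (by omega) (by omega) (by omega) (by omega)).mpr (by omega)
    · obtain ⟨rfl, rfl, h⟩ := h
      exact (WrapC.v2 D0a (by omega) (by omega) (by omega) (by omega) (by omega) (by omega) (by omega)).mpr (by omega)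
    · obtain ⟨rfl, rfl, h⟩ := h
      exact (WrapC.v4 D0a (by omega) (by omega) (by omega) (by omega) (by omega) (by omega) (by omega)).mpr (by omega)
    · obtain ⟨rfl, rfl, h⟩ := h
      exact (WrapC.v0 C2 (by omega) (by omega) (by omega) (by omega) (by omega) (by omega) (by omega)).mpr (by omega)
    · obtain ⟨rfl, rfl, h⟩ := h
      exact (WrapC.v2 C2 (by omega) (by omega) (by omega) (by omega) (by omega) (by omega) (by omega)).mpr (by omega)
    · obtain ⟨rfl, rfl, h⟩ := h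
      exact (WrapC.v3 C4a (by omega) (by omega) (by omega) (by omega) (by omega) (by omega) (by omega) (by omega)).mpr (by omega)
    · obtain ⟨rfl, rfl, h⟩ := h
      exact (WrapC.v0 C4 (by omega) (by omega) (by omega) (by omega) (by omega) (by omega) (by omega)).mpr (by omega)
    · obtain ⟨rfl, rfl, h⟩ := h
      exact (WrapC.v1 C4 (by omega) (by omega) (by omega) (by omega) (by omega) (by omega) (by omega) (by omega)).mpr (by omega)
    · obtain ⟨rfl, rfl, h⟩ := h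
      exact (WrapC.v0 C6 (by omega) (by omega) (by omega) (by omega) (by omega) (by omega) (by omega)).mpr (by omega)
    · obtain ⟨rfl, rfl, h⟩ := h
      exact (WrapC.v2 C6 (by omega) (by omega) (by omega) (by omega) (by omega) (by omega) (by omega)).mpr (by omega)
    · obtain ⟨rfl, rfl, h⟩ := h
      exact (NW.w1v C8a (by omega) (by omega) (by omega) (by omega) (by omega) (by omega) (by omega) (by omega)).mpr (by omega)
    · obtain ⟨rfl, rfl, h⟩ := h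
      exact (NW.w2v C8a (by omega) (by omega) (by omega) (by omega) (by omega) (by omega) (by omega)).mpr (by omega)
    · obtain ⟨rfl, rfl, h⟩ := h
      exact (NW.w0v C8 (by omega) (by omega) (by omega) (by omega) (by omega) (by omega) (by omega)).mpr (by omega)
    · obtain ⟨rfl, rfl, h⟩ := h
      exact (NW.w1v C8 (by omega) (by omega) (by omega) (by omega) (by omega) (by omega) (by omega) (by omega)).mpr (by omega)
    · obtain ⟨rfl, rfl, h⟩ := h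
      exact (NW.w2v C8 (by omega) (by omega) (by omega) (by omega) (by omega) (by omega) (by omega)).mpr (by omega)
    · obtain ⟨rfl, rfl, h⟩ := h
      exact (NW.w0v C10a (by omega) (by omega) (by omega) (by omega) (by omega) (by omega) (by omega)).mpr (by omega)
    · obtain ⟨rfl, rfl, h⟩ := h
      exact (NW.w1v C10a (by omega) (by omega) (by omega) (by omega) (by omega) (by omega) (by omega) (by omega)).mpr (by omega)
    · obtain ⟨rfl, rfl, h⟩ := h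
      exact (NW.w0v C10 (by omega) (by omega) (by omega) (by omega) (by omega) (by omega) (by omega)).mpr (by omega)
    · obtain ⟨rfl, rfl, rfl, rfl⟩ := h
      exact p0 (by omega) (by omega) (by omega) (by omega)
    · obtain ⟨rfl, rfl, rfl, rfl⟩ := h
      exact p1 (by omega) (by omega) (by omega) (by omega)
  · intro j m p q hr h
    obtain ⟨-, -, hm1, hm2, hp1, hp2, hq1, hq2⟩ := hr
    replace h := of_decide_eq_true h
    rcases h with h | h | h | h | h | h | h | h | h | h | h | h | h | h | h | h | h | h | h | h | h | h | h | h | h | h | h | h | h | h | h | h | h | h | h | h | h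
    · obtain ⟨rfl, rfl, h⟩ := h
      exact mt (WrapC.v1 D0a (by omega) (by omega) (by omega) (by omega) (by omega) (by omega) (by omega) (by omega)).mp (by omega)
    · obtain ⟨rfl, rfl, h⟩ := h
      exact mt (WrapC.v2 D0a (by omega) (by omega) (by omega) (by omega) (by omega) (by omega) (by omega)).mp (by omega)
    · obtain ⟨rfl, rfl, h⟩ := h
      exact mt (WrapC.v4 D0a (by omega) (by omega) (by omega) (by omega) (by omega) (by omega) (by omega)).mp (by omega)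
    · obtain ⟨rfl, rfl, h⟩ := h
      exact mt (WrapC.v0 C2 (by omega) (by omega) (by omega) (by omega) (by omega) (by omega) (by omega)).mp (by omega)
    · obtain ⟨rfl, rfl, h⟩ := h
      exact mt (WrapC.v2 C2 (by omega) (by omega) (by omega) (by omega) (by omega) (by omega) (by omega)).mp (by omega)
    · obtain ⟨rfl, rfl, h⟩ := h
      exact mt (WrapC.v3 C4a (by omega) (by omega) (by omega) (by omega) (by omega) (by omega) (by omega) (by omega)).mp (by omega)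
    · obtain ⟨rfl, rfl, h⟩ := h
      exact mt (WrapC.v0 C4 (by omega) (by omega) (by omega) (by omega) (by omega) (by omega) (by omega)).mp (by omega)
    · obtain ⟨rfl, rfl, h⟩ := h
      exact mt (WrapC.v1 C4 (by omega) (by omega) (by omega) (by omega) (by omega) (by omega) (by omega) (by omega)).mp (by omega)
    · obtain ⟨rfl, rfl, h⟩ := h
      exact mt (WrapC.v0 C6 (by omega) (by omega) (by omega) (by omega) (by omega) (by omega) (by omega)).mp (by omega)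
    · obtain ⟨rfl, rfl, h⟩ := h
      exact mt (WrapC.v2 C6 (by omega) (by omega) (by omega) (by omega) (by omega) (by omega) (by omega)).mp (by omega)
    · obtain ⟨rfl, rfl, h⟩ := h
      exact mt (NW.w1v C8a (by omega) (by omega) (by omega) (by omega) (by omega) (by omega) (by omega) (by omega)).mp (by omega)
    · obtain ⟨rfl, rfl, h⟩ := h
      exact mt (NW.w2v C8a (by omega) (by omega) (by omega) (by omega) (by omega) (by omega) (by omega)).mp (by omega)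
    · obtain ⟨rfl, rfl, h⟩ := h
      exact mt (NW.w0v C8 (by omega) (by omega) (by omega) (by omega) (by omega) (by omega) (by omega)).mp (by omega)
    · obtain ⟨rfl, rfl, h⟩ := h
      exact mt (NW.w1v C8 (by omega) (by omega) (by omega) (by omega) (by omega) (by omega) (by omega) (by omega)).mp (by omega)
    · obtain ⟨rfl, rfl, h⟩ := h
      exact mt (NW.w2v C8 (by omega) (by omega) (by omega) (by omega) (by omega) (by omega) (by omega)).mp (by omega)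
    · obtain ⟨rfl, rfl, h⟩ := h
      exact mt (NW.w0v C10a (by omega) (by omega) (by omega) (by omega) (by omega) (by omega) (by omega)).mp (by omega)
    · obtain ⟨rfl, rfl, h⟩ := h
      exact mt (NW.w1v C10a (by omega) (by omega) (by omega) (by omega) (by omega) (by omega) (by omega) (by omega)).mp (by omega)
    · obtain ⟨rfl, rfl, h⟩ := h
      exact mt (NW.w0v C10 (by omega) (by omega) (by omega) (by omega) (by omega) (by omega) (by omega)).mp (by omega)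
    · obtain rfl := h
      exact hL (by omega) (by omega) (by omega) (by omega) (by omega) (by omega)
    · obtain ⟨rfl, rfl, h⟩ := h
      exact NHT.rIn hf T (t := 3) (p := 0) (j := 3) (by omega) (by omega) (by omega) (by omega) (by omega) (by omega) (by omega) (by omega)
    · obtain ⟨rfl, rfl, h⟩ := h
      exact NHT.rIn hf T (t := 3) (p := 1) (j := 3) (by omega) (by omega) (by omega) (by omega) (by omega) (by omega) (by omega) (by omega)
    · obtain ⟨rfl, rfl, h⟩ := h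
      exact NHT.rIn hf T (t := 3) (p := 0) (j := 1) (by omega) (by omega) (by omega) (by omega) (by omega) (by omega) (by omega) (by omega)
    · obtain ⟨rfl, rfl, h⟩ := h
      exact uP1 hf U (j := 1) (by omega) (by omega) (by omega) (by omega) (by omega) (by omega)
    · obtain ⟨rfl, rfl, h⟩ := h
      exact NHT.pIn hf T (t := 4) (j := 3) (by omega) (by omega) (by omega) (by omega) (by omega) (by omega) (by omega)
    · obtain ⟨rfl, rfl, h⟩ := h
      exact NHT.pIn hf T (t := 4) (j := 2) (by omega) (by omega) (by omega) (by omega) (by omega) (by omega) (by omega)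
    · obtain ⟨rfl, rfl, h⟩ := h
      exact uP1 hf U (j := 1) (by omega) (by omega) (by omega) (by omega) (by omega) (by omega)
    · obtain ⟨rfl, rfl, h⟩ := h
      exact NHT.rIn hf T (t := 4) (p := 0) (j := 4) (by omega) (by omega) (by omega) (by omega) (by omega) (by omega) (by omega) (by omega)
    · obtain ⟨rfl, rfl, h⟩ := h
      exact NHT.rIn hf T (t := 4) (p := 1) (j := 4) (by omega) (by omega) (by omega) (by omega) (by omega) (by omega) (by omega) (by omega)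
    · obtain ⟨rfl, rfl, h⟩ := h
      exact NHT.rIn hf T (t := 4) (p := 0) (j := 3) (by omega) (by omega) (by omega) (by omega) (by omega) (by omega) (by omega) (by omega)
    · obtain ⟨rfl, rfl, h⟩ := h
      exact NHT.rIn hf T (t := 4) (p := 1) (j := 3) (by omega) (by omega) (by omega) (by omega) (by omega) (by omega) (by omega) (by omega)
    · obtain ⟨rfl, rfl, h⟩ := h
      exact NHT.rIn hf T (t := 4) (p := 0) (j := 2) (by omega) (by omega) (by omega) (by omega) (by omega) (by omega) (by omega) (by omega)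
    · obtain ⟨rfl, rfl, h⟩ := h
      exact uP2 hf U (j := 2) (by omega) (by omega) (by omega) (by omega) (by omega) (by omega)
    · obtain ⟨rfl, rfl, h⟩ := h
      exact uA1 hf U (p := 1) (j := 1) (by omega) (by omega) (by omega) (by omega) (by omega) (by omega) (by omega)
    · obtain ⟨rfl, rfl, h⟩ := h
      exact NHT.p0i hf T (j := 2) (by omega) (by omega) (by omega) (by omega) (by omega) (by omega)
    · obtain ⟨rfl, rfl, h⟩ := h
      exact uP2 hf U (j := 2) (by omega) (by omega) (by omega) (by omega) (by omega) (by omega)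
    · obtain ⟨rfl, rfl, h⟩ := h
      exact uP2 hf U (j := 1) (by omega) (by omega) (by omega) (by omega) (by omega) (by omega)
    · obtain ⟨rfl, rfl, rfl, rfl⟩ := h
      exact z0 (by omega) (by omega) (by omega) (by omega)

end Pool.Agent.SNT.L0E
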