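import Pool.Agent.SNT.PL

set_option autoImplicit false
set_option synthInstance.maxSize 100000
set_option synthInstance.maxHeartbeats 4000000

/-! Near the diagonal: an in-line of `6 k + 2` in the row `c` starts a line of `6 k + 2` or of `6 k + 4` in the row `c + 2`. -/

namespace Pool.Agent.SNT.L0E

open Pool.Agent.SNT Pool.Agent.SNT.Sig Pool.Agent.SNT.Loc Pool.Agent.SNT.LW Pool.Agent.SNT.NHZ Pool.Agent.SNT.DRun Pool.Agent.SNT.D1E

variable {f : ℕ → ℕ → ℕ → ℕ → Prop}

theorem wt_chk : check 7 6 13 13 0 0 1 1 2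
    (fun j n p q => decide ((j = 4 ∧ n = 1 ∧ q ≤ p ∧ (p = q ∧ p % 2 = 0))
      ∨ (j = 6 ∧ n = 2 ∧ q ≤ p ∧ ((p + q) % 2 = 1 ∧ p % 2 = 1))
      ∨ (j = 6 ∧ n = 3 ∧ q ≤ p ∧ (p = q ∧ p % 2 = 0))
      ∨ (j = 4 ∧ n = 2 ∧ p = 2 ∧ q = 1)))
    (fun j n p q => decide ((j = 4 ∧ n = 1 ∧ q ≤ p ∧ ¬ (p = q ∧ p % 2 = 0))
      ∨ (j = 6 ∧ n = 2 ∧ q ≤ p ∧ ¬ ((p + q) % 2 = 1 ∧ p % 2 = 1))
      ∨ (j = 6 ∧ n = 3 ∧ q ≤ p ∧ ¬ (p = q ∧ p % 2 = 0))
      ∨ (j = 1 ∧ n = 1 ∧ q ≤ p)
      ∨ (j = 1 ∧ n = 2 ∧ q ≤ p)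
      ∨ (j = 1 ∧ n = 3 ∧ q ≤ p)
      ∨ (j = 1 ∧ n = 4 ∧ q ≤ p)
      ∨ (j = 3 ∧ n = 1 ∧ q + 5 ≤ p)
      ∨ (j = 3 ∧ n = 1 ∧ q + 4 ≤ p)
      ∨ (j = 5 ∧ n = 1 ∧ q + 4 ≤ p)
      ∨ (j = 5 ∧ n = 1 ∧ q + 3 ≤ p)
      ∨ (j = 7 ∧ n = 1 ∧ q + 3 ≤ p)
      ∨ (j = 7 ∧ n = 1 ∧ q + 2 ≤ p)
      ∨ (j = 3 ∧ n = 3 ∧ q + 5 ≤ p)
      ∨ (j = 5 ∧ n = 3 ∧ q + 4 ≤ p)
      ∨ (j = 7 ∧ n = 3 ∧ q + 3 ≤ p)
      ∨ (j = 7 ∧ n = 4 ∧ q + 3 ≤ p)
      ∨ (j = 4 ∧ n = 4 ∧ p = 9 ∧ q = 4)
      ∨ (j = 6 ∧ n = 4 ∧ p = 11 ∧ q = 6)))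
    544
    0xd5f830b5d000b5d01055d83075880095ada056403075f00075f04095b00095b04090c800b07c208b08008aa80090c3a09063a050f83070a80070a8404bb0306b60006b60405090e0d5f830b5d000b5d01095a80095a8105090005090409060e0d5f830b5d000b5d0109060009060407110e05160307110007110409130e08be8309130009130409198e0ab9830919800919840ab98306680006680406bc8e04c18306bc8006bc8407048e050983070480070484070a0e050f03070a00070a0404c80306c30006c30406b58e04ba8306b58006b58406b00e08b28306b00006b00408ff8e08aa8308ff8008ff8406b50e04ba0306b50006b50409128e08c48309128009128406b08e04b58306b08006b08406b78e04bc8306b78006b7840b5e03095b80095b8409200e0ac68309200009200409190e0b76030919000919040aa58306548006548406630e0ab4830663000663040b620e0b5b830b62000b620406c90e08d18306c90006c9040b688e0f65830b68800b68840afa8e0aa5830afa800afa840b0d8e0ab9030b0d800b0d8406628e0ab383066280066284090e8e0ab483090e80090e8409078e08b383090780090784066e0e0ab903066e00066e0408d18e0ac60308d18008d18408b28e0aad0308b28008b2840b148e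0d71830b14800b14840aad830b02000b02040b0f8e0abb030b0f800b0f840b648e0f61830b64800b64840b1b0e0ac6830b1b000b1b040b220e0acd830b22000b220406b88e04bd8306b88006b88406b18e04b68306b18006b1840b570e0f54030b57000b570406b20e0aaf0306b20006b20409080e08b3830908000908040b578e0f54830b57800b57840b760e0f73030b76000b76040d718e0f7a030d71800d7184065a0e0aab83065a00065a040f60830f61000f61040f530e0f52830f53000f530408fe800caa800cb6800ca9800cb5800ca8800ca7800c9a800af9c2089c800f738e0f730e0f728e0f720e0f6c8e0f6c0e0f6b8e0f658e0f650e0f1f0e0f1e8e0f1e0e0f1d8e0f180e0f178e0f170e0f110e0f108e0d240e0d238e0d230e0d228e0d1d8e0d1d0e0d1c8e0d1c0e0d170e0d168e0d160e0d158e0d09800d090e0d088e0cfb800cd48e0cc8800cc88e0cc7800cc78e0cbb800cbb8e0cba800cba8e0cad800cad8e0cac800cac8e0b218e0b210e0b1a8e0a7e8e0a7e0e0a780e0a778e0a720e0a718e0a6b0e0a6a8e0a640e097a8e08a28008a28e08838e08830e087d0e087c8e08778e08770e08768e08760e08708e08700e086f8e086a80086a0e08698e08690e08628e085c80085c0e085b8e084e8006820e06818e067b8e06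7b0e06748e03688e03680e03618e031a8e031a0e03140e03138e030d0e02e08e02e00e02da0e02d98e02d90e02d38e02d30e02d28e02cd0e02cc8e02cc0e02c60e02c58e02bf8e02bf0e028c0e028b8e02858e02850e02848e027f0e027e8e027e0e02788e02780e02778e02718e02710e026b0e0f7a070f79870f73870f73070f72870f72070f6c870f6c070f6b870f65870f65070f5e870f25870f25070f1f070f1e870f1e070f1d870f18070f17870f17070f11070f10870f0a070d7f070d7e870d71070d66070d65070d64070d59070d57070d2a870d2a070d24070d23870d23070d22870d1d870d1d070d1c870d1c070d17070d16870d16070d15870d10870d0f870d0f070d098f0d09070d08870d02870cfb8f0cd48f0cc88f0cc78f0cbb8f0cba8f0cad8f0cac8f0b21870b21070b1a870a7e870a7e070a79070a78870a78070a77870a72070a71870a71070a6b070a6a870a6407097b07097a8709630709620709600709540708d20708d10708c50708c40708b90708b80708b70708ad0708ac0708ab0708aa0708a28f088387088307087e07087d87087d07087c87087787087707087687087607087087087007086f87086a8f086a07086987086907086387086307086287085c8f085c07085b87085587085507084e8f068207068187067b87067b07067487055d0704c10704b70704b60704b50704b40704b307036907036887036807036207036187031b07031a87031a07031487031407031387030d87030d0702e08702e00702da0702d98702d90702d38702d30702d28702cd0702cc8702cc0702c68702c60702c58702c00702bf8702bf0702be8702b90702b88702b807028c07028b87028587028507028487027f07027e87027e07027887027807027787027207027187027107026b87026b07026a87026a07026487026407026387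 = true := by
  decide +kernel

theorem wt (hf : Rule f) {k c n M X : ℕ} (H : PL f k c n M) (hX : 2 * M + 17 ≤ X) (ho : X % 2 = 1)
    (h0 : f (6 * k + 2) c X (X - 1)) :
    f (6 * k + 2) (c + 2) (X + 7) (X + 2) ∨ f (6 * k + 4) (c + 2) (X + 9) (X + 4) := by
  by_contra zz
  have z0 : ¬ f (6 * k + 2) (c + 2) (X + 7) (X + 2) := fun t => zz (Or.inl t)
  have z1 : ¬ f (6 * k + 4) (c + 2) (X + 9) (X + 4) := fun t => zz (Or.inr t)
  have hk := H.T.hk
  have hc := H.T.hc
  have h4' := H.T.h4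
  have hb := H.T.hb
  have hN := H.T.hN2
  have hM := H.hM
  have hM' := H.hM'
  obtain ⟨a0, ha0⟩ : ∃ z, z + 2 = 6 * k := ⟨6 * k - 2, by omega⟩
  obtain ⟨b0, hb0⟩ : ∃ z, z + 2 = c := ⟨c - 2, by omega⟩
  obtain ⟨x0, hx0⟩ : ∃ z, z + 2 = X := ⟨X - 2, by omega⟩
  refine check_sound hf (a0 := a0) (b0 := b0) (x0 := x0) (y0 := x0) wt_chk
    ⟨fun _ => rfl, fun h => absurd h (by decide), fun h => absurd h (by decide), by omega, by omega,
      by omega, by omega⟩ ?_ ?_
  · intro j m p q hr h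
    obtain ⟨-, -, -, -, hp1, hp2, hq1, hq2⟩ := hr
    replace h := of_decide_eq_true h
    rcases h with h | h | h | h
    · obtain ⟨rfl, rfl, h⟩ := h
      exact (WrapC.v3 H.c2 (by omega) (by omega) (by omega) (by omega) (by omega) (by omega) (by omega) (by omega)).mpr (by omega)
    · obtain ⟨rfl, rfl, h⟩ := h
      exact (WrapC.v2 H.c4 (by omega) (by omega) (by omega) (by omega) (by omega) (by omega) (by omega)).mpr (by omega)
    · obtain ⟨rfl, rfl, h⟩ := h
      exact (WrapC.v3 H.c4 (by omega) (by omega) (by omega) (by omega) (by omega) (by omega) (by omega) (by omega)).mpr (by omega)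
    · obtain ⟨rfl, rfl, rfl, rfl⟩ := h
      exact mv h0 (by omega) (by omega) (by omega) (by omega)
  · intro j m p q hr h
    obtain ⟨-, -, -, -, hp1, hp2, hq1, hq2⟩ := hr
    replace h := of_decide_eq_true h
    rcases h with h | h | h | h | h | h | h | h | h | h | h | h | h | h | h | h | h | h | h
    · obtain ⟨rfl, rfl, h⟩ := h
      exact mt (WrapC.v3 H.c2 (by omega) (by omega) (by omega) (by omega) (by omega) (by omega) (by omega) (by omega)).mp (by omega)
    · obtain ⟨rfl, rfl, h⟩ := h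
      exact mt (WrapC.v2 H.c4 (by omega) (by omega) (by omega) (by omega) (by omega) (by omega) (by omega)).mp (by omega)
    · obtain ⟨rfl, rfl, h⟩ := h
      exact mt (WrapC.v3 H.c4 (by omega) (by omega) (by omega) (by omega) (by omega) (by omega) (by omega) (by omega)).mp (by omega)
    · obtain ⟨rfl, rfl, h⟩ := h
      exact H.lw _ _ _ _ (by omega) (by omega) (by omega) (by omega) (by omega) (by omega)
    · obtain ⟨rfl, rfl, h⟩ := h
      exact H.lw _ _ _ _ (by omega) (by omega) (by omega) (by omega) (by omega) (by omega)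
    · obtain ⟨rfl, rfl, h⟩ := h
      exact H.lw _ _ _ _ (by omega) (by omega) (by omega) (by omega) (by omega) (by omega)
    · obtain ⟨rfl, rfl, h⟩ := h
      exact H.lw _ _ _ _ (by omega) (by omega) (by omega) (by omega) (by omega) (by omega)
    · obtain ⟨rfl, rfl, h⟩ := h
      exact fun t => NHT.rm1i hf H.T (p := 1) (j := 4) (by omega) (by omega) (by omega) (by omega) (by omega) (by omega) (mv t rfl (by omega) rfl rfl)
    · obtain ⟨rfl, rfl, h⟩ := h
      exact fun t => NHT.rm1 hf H.T (p := 1) (j := 3) (by omega) (by omega) (by omega) (by omega) (by omega) (by omega) (mv t rfl (by omega) rfl rfl)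
    · obtain ⟨rfl, rfl, h⟩ := h
      exact fun t => NHT.rm1i hf H.T (p := 1) (j := 3) (by omega) (by omega) (by omega) (by omega) (by omega) (by omega) (mv t rfl (by omega) rfl rfl)
    · obtain ⟨rfl, rfl, h⟩ := h
      exact fun t => NHT.rm1 hf H.T (p := 1) (j := 2) (by omega) (by omega) (by omega) (by omega) (by omega) (by omega) (mv t rfl (by omega) rfl rfl)
    · obtain ⟨rfl, rfl, h⟩ := h
      exact fun t => NHT.rm1i hf H.T (p := 1) (j := 2) (by omega) (by omega) (by omega) (by omega) (by omega) (by omega) (mv t rfl (by omega) rfl rfl)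
    · obtain ⟨rfl, rfl, h⟩ := h
      exact fun t => NHT.rm1 hf H.T (p := 1) (j := 1) (by omega) (by omega) (by omega) (by omega) (by omega) (by omega) (mv t rfl (by omega) rfl rfl)
    · obtain ⟨rfl, rfl, h⟩ := h
      exact fun t => NHT.r1 hf H.T (p := 1) (j := 4) (by omega) (by omega) (by omega) (by omega) (by omega) (by omega) (mv t rfl (by omega) rfl rfl)
    · obtain ⟨rfl, rfl, h⟩ := h
      exact fun t => NHT.r1 hf H.T (p := 1) (j := 3) (by omega) (by omega) (by omega) (by omega) (by omega) (by omega) (mv t rfl (by omega) rfl rfl)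
    · obtain ⟨rfl, rfl, h⟩ := h
      exact fun t => NHT.r1 hf H.T (p := 1) (j := 2) (by omega) (by omega) (by omega) (by omega) (by omega) (by omega) (mv t rfl (by omega) rfl rfl)
    · obtain ⟨rfl, rfl, h⟩ := h
      exact NHT.p2 hf H.T (j := 2) (by omega) (by omega) (by omega) (by omega) (by omega) (by omega)
    · obtain ⟨rfl, rfl, rfl, rfl⟩ := h
      exact fun t => z0 (mv t (by omega) (by omega) (by omega) (by omega))
    · obtain ⟨rfl, rfl, rfl, rfl⟩ := h
      exact fun t => z1 (mv t (by omega) (by omega) (by omega) (by omega))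

end Pool.Agent.SNT.L0E
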