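import Pool.Agent.SNT.PL

set_option autoImplicit false
set_option synthInstance.maxSize 100000
set_option synthInstance.maxHeartbeats 4000000

/-! Near the diagonal: the three lines of `6 k` in the rows `c` and `c + 4` exclude each other. -/

namespace Pool.Agent.SNT.L0E

open Pool.Agent.SNT Pool.Agent.SNT.Sig Pool.Agent.SNT.Loc Pool.Agent.SNT.LW Pool.Agent.SNT.NHZ Pool.Agent.SNT.DRun Pool.Agent.SNT.D1E

variable {f : ℕ → ℕ → ℕ → ℕ → Prop}

theorem wf_chk : check 7 10 19 19 0 0 1 1 2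
    (fun j n p q => decide ((j = 2 ∧ n = 2 ∧ q ≤ p ∧ 8 ≤ p ∧ p ≤ q + 14 ∧ ((p + q) % 2 = 1 ∧ p % 2 = 0))
      ∨ (j = 2 ∧ n = 3 ∧ q ≤ p ∧ 9 ≤ p ∧ p ≤ q + 14 ∧ (p = q ∧ p % 2 = 1))
      ∨ (j = 2 ∧ n = 4 ∧ q ≤ p ∧ 9 ≤ q ∧ p ≤ q + 14 ∧ ((p + q) % 2 = 1 ∧ p % 2 = 1))
      ∨ (j = 2 ∧ n = 5 ∧ q ≤ p ∧ 11 ≤ q ∧ p ≤ q + 14 ∧ (p = q ∧ p % 2 = 0))
      ∨ (j = 2 ∧ n = 1 ∧ q ≤ p ∧ p ≤ q + 14 ∧ (p = q ∧ p % 2 = 0))
      ∨ (j = 4 ∧ n = 1 ∧ q ≤ p ∧ p ≤ q + 14 ∧ (p = q ∧ p % 2 = 1))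
      ∨ (j = 4 ∧ n = 2 ∧ q ≤ p ∧ p ≤ q + 14 ∧ ((p + q) % 2 = 1 ∧ p % 2 = 1))
      ∨ (j = 4 ∧ n = 3 ∧ q ≤ p ∧ p ≤ q + 14 ∧ (p = q ∧ p % 2 = 0))
      ∨ (j = 6 ∧ n = 2 ∧ q ≤ p ∧ 6 ≤ p ∧ p ≤ q + 14 ∧ ((p + q) % 2 = 1 ∧ p % 2 = 0))
      ∨ (j = 6 ∧ n = 3 ∧ q ≤ p ∧ 7 ≤ p ∧ p ≤ q + 14 ∧ (p = q ∧ p % 2 = 1))
      ∨ (j = 6 ∧ n = 4 ∧ q ≤ p ∧ 7 ≤ q ∧ p ≤ q + 14 ∧ ((p + q) % 2 = 1 ∧ p % 2 = 1))
      ∨ (j = 6 ∧ n = 5 ∧ q ≤ p ∧ 9 ≤ q ∧ p ≤ q + 14 ∧ (p = q ∧ p % 2 = 0))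
      ∨ (j = 6 ∧ n = 1 ∧ q ≤ p ∧ p ≤ q + 14 ∧ (p = q ∧ p % 2 = 0))
      ∨ (j = 2 ∧ n = 4 ∧ p = 11 ∧ q = 6)
      ∨ (j = 2 ∧ n = 8 ∧ p = 17 ∧ q = 10)))
    (fun j n p q => decide ((j = 2 ∧ n = 2 ∧ q ≤ p ∧ 8 ≤ p ∧ p ≤ q + 14 ∧ ¬ ((p + q) % 2 = 1 ∧ p % 2 = 0))
      ∨ (j = 2 ∧ n = 3 ∧ q ≤ p ∧ 9 ≤ p ∧ p ≤ q + 14 ∧ ¬ (p = q ∧ p % 2 = 1))
      ∨ (j = 2 ∧ n = 4 ∧ q ≤ p ∧ 9 ≤ q ∧ p ≤ q + 14 ∧ ¬ ((p + q) % 2 = 1 ∧ p % 2 = 1))
      ∨ (j = 2 ∧ n = 5 ∧ q ≤ p ∧ 11 ≤ q ∧ p ≤ q + 14 ∧ ¬ (p = q ∧ p % 2 = 0))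
      ∨ (j = 2 ∧ n = 1 ∧ q ≤ p ∧ p ≤ q + 14 ∧ ¬ (p = q ∧ p % 2 = 0))
      ∨ (j = 4 ∧ n = 1 ∧ q ≤ p ∧ p ≤ q + 14 ∧ ¬ (p = q ∧ p % 2 = 1))
      ∨ (j = 4 ∧ n = 2 ∧ q ≤ p ∧ p ≤ q + 14 ∧ ¬ ((p + q) % 2 = 1 ∧ p % 2 = 1))
      ∨ (j = 4 ∧ n = 3 ∧ q ≤ p ∧ p ≤ q + 14 ∧ ¬ (p = q ∧ p % 2 = 0))
      ∨ (j = 6 ∧ n = 2 ∧ q ≤ p ∧ 6 ≤ p ∧ p ≤ q + 14 ∧ ¬ ((p + q) % 2 = 1 ∧ p % 2 = 0))
      ∨ (j = 6 ∧ n = 3 ∧ q ≤ p ∧ 7 ≤ p ∧ p ≤ q + 14 ∧ ¬ (p = q ∧ p % 2 = 1))
      ∨ (j = 6 ∧ n = 4 ∧ q ≤ p ∧ 7 ≤ q ∧ p ≤ q + 14 ∧ ¬ ((p + q) % 2 = 1 ∧ p % 2 = 1))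
      ∨ (j = 6 ∧ n = 5 ∧ q ≤ p ∧ 9 ≤ q ∧ p ≤ q + 14 ∧ ¬ (p = q ∧ p % 2 = 0))
      ∨ (j = 6 ∧ n = 1 ∧ q ≤ p ∧ p ≤ q + 14 ∧ ¬ (p = q ∧ p % 2 = 0))
      ∨ (j = 1 ∧ n = 1 ∧ q ≤ p)
      ∨ (j = 1 ∧ n = 2 ∧ q ≤ p)
      ∨ (j = 1 ∧ n = 3 ∧ q ≤ p)
      ∨ (j = 1 ∧ n = 4 ∧ q ≤ p)
      ∨ (j = 1 ∧ n = 5 ∧ q ≤ p)
      ∨ (j = 1 ∧ n = 6 ∧ q ≤ p)
      ∨ (j = 1 ∧ n = 7 ∧ q ≤ p)
      ∨ (j = 1 ∧ n = 8 ∧ q ≤ p)
      ∨ (j = 3 ∧ n = 1 ∧ q + 4 ≤ p ∧ p ≤ q + 11)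
      ∨ (j = 3 ∧ n = 1 ∧ q + 3 ≤ p ∧ p ≤ q + 12)
      ∨ (j = 5 ∧ n = 1 ∧ q + 3 ≤ p ∧ p ≤ q + 12)
      ∨ (j = 5 ∧ n = 1 ∧ q + 2 ≤ p ∧ p ≤ q + 13)
      ∨ (j = 7 ∧ n = 1 ∧ q + 2 ≤ p ∧ p ≤ q + 13)
      ∨ (j = 7 ∧ n = 1 ∧ q + 1 ≤ p ∧ p ≤ q + 14)
      ∨ (j = 3 ∧ n = 2 ∧ q + 4 ≤ p ∧ p ≤ q + 11)
      ∨ (j = 3 ∧ n = 2 ∧ q + 3 ≤ p ∧ p ≤ q + 12)
      ∨ (j = 5 ∧ n = 2 ∧ q + 3 ≤ p ∧ p ≤ q + 12)
      ∨ (j = 5 ∧ n = 2 ∧ q + 2 ≤ p ∧ p ≤ q + 13)
      ∨ (j = 7 ∧ n = 2 ∧ q + 2 ≤ p ∧ p ≤ q + 13)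
      ∨ (j = 7 ∧ n = 2 ∧ q + 1 ≤ p ∧ p ≤ q + 14)
      ∨ (j = 2 ∧ n = 3 ∧ q + 5 ≤ p ∧ p ≤ q + 10)
      ∨ (j = 2 ∧ n = 3 ∧ q + 4 ≤ p ∧ p ≤ q + 11)
      ∨ (j = 3 ∧ n = 3 ∧ 3 ≤ p ∧ q + 5 ≤ p ∧ p ≤ q + 10)
      ∨ (j = 3 ∧ n = 3 ∧ q + 4 ≤ p ∧ p ≤ q + 11)
      ∨ (j = 3 ∧ n = 3 ∧ q + 5 ≤ p ∧ p ≤ q + 10)
      ∨ (j = 4 ∧ n = 3 ∧ q + 4 ≤ p ∧ p ≤ q + 11)
      ∨ (j = 4 ∧ n = 3 ∧ q + 3 ≤ p ∧ p ≤ q + 12)
      ∨ (j = 5 ∧ n = 3 ∧ 3 ≤ p ∧ q + 4 ≤ p ∧ p ≤ q + 11)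
      ∨ (j = 5 ∧ n = 3 ∧ q + 3 ≤ p ∧ p ≤ q + 12)
      ∨ (j = 5 ∧ n = 3 ∧ q + 4 ≤ p ∧ p ≤ q + 11)
      ∨ (j = 6 ∧ n = 3 ∧ q + 3 ≤ p ∧ p ≤ q + 12)
      ∨ (j = 6 ∧ n = 3 ∧ q + 2 ≤ p ∧ p ≤ q + 13)
      ∨ (j = 7 ∧ n = 3 ∧ 3 ≤ p ∧ q + 3 ≤ p ∧ p ≤ q + 12)
      ∨ (j = 7 ∧ n = 3 ∧ q + 2 ≤ p ∧ p ≤ q + 13)
      ∨ (j = 7 ∧ n = 3 ∧ q + 3 ≤ p ∧ p ≤ q + 12)
      ∨ (j = 3 ∧ n = 4 ∧ 3 ≤ p ∧ q + 5 ≤ p ∧ p ≤ q + 10)
      ∨ (j = 3 ∧ n = 4 ∧ q + 4 ≤ p ∧ p ≤ q + 11)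
      ∨ (j = 5 ∧ n = 4 ∧ 3 ≤ p ∧ q + 4 ≤ p ∧ p ≤ q + 11)
      ∨ (j = 5 ∧ n = 4 ∧ q + 3 ≤ p ∧ p ≤ q + 12)
      ∨ (j = 7 ∧ n = 4 ∧ 3 ≤ p ∧ q + 3 ≤ p ∧ p ≤ q + 12)
      ∨ (j = 7 ∧ n = 4 ∧ q + 2 ≤ p ∧ p ≤ q + 13)
      ∨ (j = 2 ∧ n = 5 ∧ q + 5 ≤ p ∧ p ≤ q + 10)
      ∨ (j = 2 ∧ n = 5 ∧ 4 ≤ p ∧ q + 6 ≤ p ∧ p ≤ q + 9)
      ∨ (j = 3 ∧ n = 5 ∧ 5 ≤ q ∧ q + 5 ≤ p ∧ p ≤ q + 10)
      ∨ (j = 3 ∧ n = 5 ∧ q + 5 ≤ p ∧ p ≤ q + 10)
      ∨ (j = 3 ∧ n = 5 ∧ 4 ≤ p ∧ q + 6 ≤ p ∧ p ≤ q + 9)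
      ∨ (j = 4 ∧ n = 5 ∧ q + 4 ≤ p ∧ p ≤ q + 11)
      ∨ (j = 4 ∧ n = 5 ∧ 4 ≤ p ∧ q + 5 ≤ p ∧ p ≤ q + 10)
      ∨ (j = 5 ∧ n = 5 ∧ 5 ≤ q ∧ q + 4 ≤ p ∧ p ≤ q + 11)
      ∨ (j = 5 ∧ n = 5 ∧ q + 4 ≤ p ∧ p ≤ q + 11)
      ∨ (j = 5 ∧ n = 5 ∧ 4 ≤ p ∧ q + 5 ≤ p ∧ p ≤ q + 10)
      ∨ (j = 6 ∧ n = 5 ∧ q + 3 ≤ p ∧ p ≤ q + 12)
      ∨ (j = 6 ∧ n = 5 ∧ 4 ≤ p ∧ q + 4 ≤ p ∧ p ≤ q + 11)
      ∨ (j = 7 ∧ n = 5 ∧ 5 ≤ q ∧ q + 3 ≤ p ∧ p ≤ q + 12)
      ∨ (j = 7 ∧ n = 5 ∧ q + 3 ≤ p ∧ p ≤ q + 12)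
      ∨ (j = 7 ∧ n = 5 ∧ 4 ≤ p ∧ q + 4 ≤ p ∧ p ≤ q + 11)
      ∨ (j = 3 ∧ n = 6 ∧ 5 ≤ q ∧ q + 5 ≤ p ∧ p ≤ q + 10)
      ∨ (j = 2 ∧ n = 4 ∧ p = 13 ∧ q = 8)))
    741
    0x11288510738011290a107d12107d0e142203142b8014228014351214230a12b88012af8012b88112af8112a60e142303136d80136d8112b80012a60012a60e12a60412a50012a50111e60311e68011e68412a48e11ef8312a48012a484142380143e8014240a14481213898e11e60311e68012a53a12a58012ae8012a60a12b81212a68012c18012b09a12cb9a13658013898013898e138984138a0e12cc03138a00138a0414248014518014250a145b12139d0e12e883139d00139d0413668e19bf0313668013668411270311dc0011dc0411f00e11ef8311f00011f00411d38e11ca0311d38011d38411020311c00011c00411e50e11308311e50011e50411e48e11e40311e48011e48411258e183385111c80183d1211269a112580112584110b8e182c03110b80110b84183d8e113083183d80183d841f4383182c00182c04113a0311ef0011ef042650031f43801f4384264583264600264604182303182c80182c84110c8e182c85111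580182d0a111f9a110c80110c84346a832650002650043474032d53802d53840faa800fa9800f8e800faa810faa0a0f98120f980e1060030f98000f9804120480120481106980113c0010739a113c01107400107d00107d0e107d040fbd0016d45a0fac000fbe000fb5920fbe8a0fbe8e113c83107d80107d810fb5800fbe800fbe8e0fbe84113d00114f00113d8a112980115892113e00114480112a0a1dd9801dc6801dc58014258011620011620e114e12112a800fc9800fb68034860e34858e34850e347c0e347b8e33d18e33d10e33d08e33c78e33c70e2cc48e2cc40e2cc38e2cba8e2cba0e2cb18026618e25ad0e1eaa0e1ea98e1ea08e1ea00e1e968e1e8d801e8d0e1e8c8e1e79801de28e1de18e1dce801dce8e19f50e19f48e19eb8e19eb0e19408e19400e19370e19368e18510e18508e18470e18468e183d0e179c8e179c0e17928e17920e17888e14648014648e12338e12330e122a0e12298e116c80116b9211598011578011578e10a40e10a38e109a8e109a0e10998e10990e10918010910e10908e10900e108f8e108f0e10858e10850e107b8e10718e10710e10678e0fd2800fd28e0fd18e0fd0800f0a800f0a0e0f098e0ef6800ef58e0ef5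0e0eeb8e0ee2800d4e0e0d4d8e0d448e0d440e0d3b0e0d3a8e0d318e0d310e0d280e0d278e0d1e8e0d1e0e0d148e0c998e0c990e0c900e0c8f8e0c868e0c860e0c7d0e0c7c8e0c738e0c730e0c6a0e0c698e0c600e0bbe8e0bbe0e0bb50e0bb48e0bab8e0bab0e0baa8e0ba18e0ba10e0b978e0b0a0e0b098e0b008e0b000e0af70e0af68e0af60e0aed0e0aec8e0ae30e0ad80e0ad78e0ace8e0ace0e0a4b8e0a4b0e0a428e0a420e0a418e0a410e0a408e0a388e0a380e0a378e0a370e0a2e8e0a2e0e0a2d8e0a2d0e0a248e0a240e0a238e0a230e0a1a0e0a198e0a190e0a188e0a0f8e0a0f0e09970e09968e098d8e098d0e098c8e098c0e09840e09838e09830e09828e097a0e09798e09790e09788e09700e096f8e096f0e09660e09648e09640e095c0e095b8e095b0e095a8e09520e08bb8e08b18e08b10e08a78e08a70e089d8e089d0e089c8e08938e08930e07fd0e07fc8e07f30e07e88e07e80e07df0e07de8e348607348587348507347c07347b8733d18733d10733d08733c78733c7072d67072d54072cc4872cc4072cc3872cba872cba072cb18f26618725ad071f3a071f39071f38071eaa071ea9871ea0871ea0071e96871e8d8f1e8d071e8c8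71e83871e798f1de28f1de18f1dce8f19f50719f48719eb8719eb07194087194007193707193687185107185087184707184687183d07183c87183307179c87179c07179287179207178887178807177e8716d40716d38716ca8716ca07161f87161f0716160716158714648f145107143e07142b07141b07141a0714190714180712e80712c20712b20712b00712af0712ae07129c07129b07123407123387123307122a0712298711e40711e38711da07116c8f116b87116b0711598f11580711578f115007114f87114607114407113407113307113207113107113007112f07112007111f07111d07110c0710f80710b70710b68710ad8710ad0710a40710a387109a87109a0710998710990710918f109107109087109007108f87108f07108587108507107b87107b071071871071071067870fd28f0fd18f0fd08f0fc9070fc8070fc7070fb5070fa2070fa1070fa0070f8e070f12870f12070f0a8f0f0a070f09870f09070f08870f00870f00070ef68f0ef6070ef5870ef5070eec870eec070eeb870ee28f0d4e070d4d870d44870d44070d3b070d3a870d31870d31070d28070d27870d1e870d1e070d15070d14870d0b070c99870c99070c90070c8f87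0c86870c86070c7d070c7c870c73870c73070c6a070c69870c60870c60070c56870bdb870bdb070bd2070bd1870bbf070bbe870bbe070bb5870bb5070bb4870bac070bab870bab070baa870ba2070ba1870ba1070b98070b97870b8e070b27070b26870b1d870b1d070b0a870b0a070b09870b01070b00870b00070af7870af7070af6870af6070aed870aed070aec870ae3870ae3070ae2870ae2070ad9870ad9070ad8870ad8070ad7870ad7070ad6870acf870acf070ace870ace070acd870acd070a5e870a5e070a55070a54870a4b870a4b070a43070a42870a42070a41870a41070a40870a39070a38870a38070a37870a37070a2f070a2e870a2e070a2d870a2d070a2c870a25070a24870a24070a23870a23070a22870a22070a1b070a1a870a1a070a19870a19070a18870a10870a10070a0f870a0f0709aa0709a98709a08709a007099707099687098d87098d07098c87098c07098407098387098307098287097a87097a07097987097907097887097807097087097007096f87096f07096e87096687096607096587096507096487096407095c87095c07095b87095b07095a8709528709520708bc0708bb8708bb0708b20708b18708b10708a80708a78708a707089e07089d87089d07089c8708940708938708930707fd0707fc8707f38707f30707e90707e88707e80707df8707df0707de87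 = true := by
  decide +kernel

theorem wf (hf : Rule f) {k c n M D : ℕ} (H : PL f k c n M) (hX : 2 * M + 20 ≤ D) (ho : D % 2 = 0)
    (d0 : Cyc f (6 * k) (c - 2) (D - 6))
    (h0 : f (6 * k) c (D - 2) (D - 7)) (z0 : ¬ f (6 * k) c D (D - 5))
    (h1 : f (6 * k) (c + 4) (D + 4) (D - 3)) : False := by
  have hk := H.T.hk
  have hc := H.T.hc
  have h4' := H.T.h4
  have hb := H.T.hb
  have hN := H.T.hN2
  have hM := H.hM
  have hM' := H.hM'
  obtain ⟨a0, ha0⟩ : ∃ z, z + 2 = 6 * k := ⟨6 * k - 2, by omega⟩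
  obtain ⟨b0, hb0⟩ : ∃ z, z + 4 = c := ⟨c - 4, by omega⟩
  obtain ⟨x0, hx0⟩ : ∃ z, z + 13 = D := ⟨D - 13, by omega⟩
  refine check_sound hf (a0 := a0) (b0 := b0) (x0 := x0) (y0 := x0) wf_chk
    ⟨fun _ => rfl, fun h => absurd h (by decide), fun h => absurd h (by decide), by omega, by omega,
      by omega, by omega⟩ ?_ ?_
  · intro j m p q hr h
    obtain ⟨-, -, -, -, hp1, hp2, hq1, hq2⟩ := hr
    replace h := of_decide_eq_true h
    rcases h with h | h | h | h | h | h | h | h | h | h | h | h | h | h | h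
    · obtain ⟨rfl, rfl, h⟩ := h
      exact (WrapC.v0 d0 (by omega) (by omega) (by omega) (by omega) (by omega) (by omega) (by omega)).mpr (by omega)
    · obtain ⟨rfl, rfl, h⟩ := h
      exact (WrapC.v1 d0 (by omega) (by omega) (by omega) (by omega) (by omega) (by omega) (by omega) (by omega)).mpr (by omega)
    · obtain ⟨rfl, rfl, h⟩ := h
      exact (WrapC.v2 d0 (by omega) (by omega) (by omega) (by omega) (by omega) (by omega) (by omega)).mpr (by omega)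
    · obtain ⟨rfl, rfl, h⟩ := h
      exact (WrapC.v3 d0 (by omega) (by omega) (by omega) (by omega) (by omega) (by omega) (by omega) (by omega)).mpr (by omega)
    · obtain ⟨rfl, rfl, h⟩ := h
      exact (WrapC.v3 H.c0 (by omega) (by omega) (by omega) (by omega) (by omega) (by omega) (by omega) (by omega)).mpr (by omega)
    · obtain ⟨rfl, rfl, h⟩ := h
      exact (WrapC.v1 H.c2 (by omega) (by omega) (by omega) (by omega) (by omega) (by omega) (by omega) (by omega)).mpr (by omega)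
    · obtain ⟨rfl, rfl, h⟩ := h
      exact (WrapC.v2 H.c2 (by omega) (by omega) (by omega) (by omega) (by omega) (by omega) (by omega)).mpr (by omega)
    · obtain ⟨rfl, rfl, h⟩ := h
      exact (WrapC.v3 H.c2 (by omega) (by omega) (by omega) (by omega) (by omega) (by omega) (by omega) (by omega)).mpr (by omega)
    · obtain ⟨rfl, rfl, h⟩ := h
      exact (WrapC.v0 H.c4 (by omega) (by omega) (by omega) (by omega) (by omega) (by omega) (by omega)).mpr (by omega)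
    · obtain ⟨rfl, rfl, h⟩ := h
      exact (WrapC.v1 H.c4 (by omega) (by omega) (by omega) (by omega) (by omega) (by omega) (by omega) (by omega)).mpr (by omega)
    · obtain ⟨rfl, rfl, h⟩ := h
      exact (WrapC.v2 H.c4 (by omega) (by omega) (by omega) (by omega) (by omega) (by omega) (by omega)).mpr (by omega)
    · obtain ⟨rfl, rfl, h⟩ := h
      exact (WrapC.v3 H.c4 (by omega) (by omega) (by omega) (by omega) (by omega) (by omega) (by omega) (by omega)).mpr (by omega)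
    · obtain ⟨rfl, rfl, h⟩ := h
      exact (WrapC.v3 H.c4a (by omega) (by omega) (by omega) (by omega) (by omega) (by omega) (by omega) (by omega)).mpr (by omega)
    · obtain ⟨rfl, rfl, rfl, rfl⟩ := h
      exact mv h0 (by omega) (by omega) (by omega) (by omega)
    · obtain ⟨rfl, rfl, rfl, rfl⟩ := h
      exact mv h1 (by omega) (by omega) (by omega) (by omega)
  · intro j m p q hr h
    obtain ⟨-, -, -, -, hp1, hp2, hq1, hq2⟩ := hr
    replace h := of_decide_eq_true h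
    rcases h with h | h | h | h | h | h | h | h | h | h | h | h | h | h | h | h | h | h | h | h | h | h | h | h | h | h | h | h | h | h | h | h | h | h | h | h | h | h | h | h | h | h | h | h | h | h | h | h | h | h | h | h | h | h | h | h | h | h | h | h | h | h | h | h | h | h | h | h | h | h | h
    · obtain ⟨rfl, rfl, h⟩ := h
      exact mt (WrapC.v0 d0 (by omega) (by omega) (by omega) (by omega) (by omega) (by omega) (by omega)).mp (by omega)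
    · obtain ⟨rfl, rfl, h⟩ := h
      exact mt (WrapC.v1 d0 (by omega) (by omega) (by omega) (by omega) (by omega) (by omega) (by omega) (by omega)).mp (by omega)
    · obtain ⟨rfl, rfl, h⟩ := h
      exact mt (WrapC.v2 d0 (by omega) (by omega) (by omega) (by omega) (by omega) (by omega) (by omega)).mp (by omega)
    · obtain ⟨rfl, rfl, h⟩ := h
      exact mt (WrapC.v3 d0 (by omega) (by omega) (by omega) (by omega) (by omega) (by omega) (by omega) (by omega)).mp (by omega)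
    · obtain ⟨rfl, rfl, h⟩ := h
      exact mt (WrapC.v3 H.c0 (by omega) (by omega) (by omega) (by omega) (by omega) (by omega) (by omega) (by omega)).mp (by omega)
    · obtain ⟨rfl, rfl, h⟩ := h
      exact mt (WrapC.v1 H.c2 (by omega) (by omega) (by omega) (by omega) (by omega) (by omega) (by omega) (by omega)).mp (by omega)
    · obtain ⟨rfl, rfl, h⟩ := h
      exact mt (WrapC.v2 H.c2 (by omega) (by omega) (by omega) (by omega) (by omega) (by omega) (by omega)).mp (by omega)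
    · obtain ⟨rfl, rfl, h⟩ := h
      exact mt (WrapC.v3 H.c2 (by omega) (by omega) (by omega) (by omega) (by omega) (by omega) (by omega) (by omega)).mp (by omega)
    · obtain ⟨rfl, rfl, h⟩ := h
      exact mt (WrapC.v0 H.c4 (by omega) (by omega) (by omega) (by omega) (by omega) (by omega) (by omega)).mp (by omega)
    · obtain ⟨rfl, rfl, h⟩ := h
      exact mt (WrapC.v1 H.c4 (by omega) (by omega) (by omega) (by omega) (by omega) (by omega) (by omega) (by omega)).mp (by omega)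
    · obtain ⟨rfl, rfl, h⟩ := h
      exact mt (WrapC.v2 H.c4 (by omega) (by omega) (by omega) (by omega) (by omega) (by omega) (by omega)).mp (by omega)
    · obtain ⟨rfl, rfl, h⟩ := h
      exact mt (WrapC.v3 H.c4 (by omega) (by omega) (by omega) (by omega) (by omega) (by omega) (by omega) (by omega)).mp (by omega)
    · obtain ⟨rfl, rfl, h⟩ := h
      exact mt (WrapC.v3 H.c4a (by omega) (by omega) (by omega) (by omega) (by omega) (by omega) (by omega) (by omega)).mp (by omega)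
    · obtain ⟨rfl, rfl, h⟩ := h
      exact H.lw _ _ _ _ (by omega) (by omega) (by omega) (by omega) (by omega) (by omega)
    · obtain ⟨rfl, rfl, h⟩ := h
      exact H.lw _ _ _ _ (by omega) (by omega) (by omega) (by omega) (by omega) (by omega)
    · obtain ⟨rfl, rfl, h⟩ := h
      exact H.lw _ _ _ _ (by omega) (by omega) (by omega) (by omega) (by omega) (by omega)
    · obtain ⟨rfl, rfl, h⟩ := h
      exact H.lw _ _ _ _ (by omega) (by omega) (by omega) (by omega) (by omega) (by omega)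
    · obtain ⟨rfl, rfl, h⟩ := h
      exact H.lw _ _ _ _ (by omega) (by omega) (by omega) (by omega) (by omega) (by omega)
    · obtain ⟨rfl, rfl, h⟩ := h
      exact H.lw _ _ _ _ (by omega) (by omega) (by omega) (by omega) (by omega) (by omega)
    · obtain ⟨rfl, rfl, h⟩ := h
      exact H.lw _ _ _ _ (by omega) (by omega) (by omega) (by omega) (by omega) (by omega)
    · obtain ⟨rfl, rfl, h⟩ := h
      exact H.lw _ _ _ _ (by omega) (by omega) (by omega) (by omega) (by omega) (by omega)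
    · obtain ⟨rfl, rfl, h⟩ := h
      exact NHT.pmi hf H.T (j := 3) (by omega) (by omega) (by omega) (by omega) (by omega) (by omega)
    · obtain ⟨rfl, rfl, h⟩ := h
      exact NHT.pm hf H.T (j := 2) (by omega) (by omega) (by omega) (by omega) (by omega) (by omega)
    · obtain ⟨rfl, rfl, h⟩ := h
      exact NHT.pmi hf H.T (j := 2) (by omega) (by omega) (by omega) (by omega) (by omega) (by omega)
    · obtain ⟨rfl, rfl, h⟩ := h
      exact NHT.pm hf H.T (j := 1) (by omega) (by omega) (by omega) (by omega) (by omega) (by omega)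
    · obtain ⟨rfl, rfl, h⟩ := h
      exact NHT.pmi hf H.T (j := 1) (by omega) (by omega) (by omega) (by omega) (by omega) (by omega)
    · obtain ⟨rfl, rfl, h⟩ := h
      exact NHT.pm hf H.T (j := 0) (by omega) (by omega) (by omega) (by omega) (by omega) (by omega)
    · obtain ⟨rfl, rfl, h⟩ := h
      exact NHT.pmi hf H.T (j := 3) (by omega) (by omega) (by omega) (by omega) (by omega) (by omega)
    · obtain ⟨rfl, rfl, h⟩ := h
      exact NHT.pm hf H.T (j := 2) (by omega) (by omega) (by omega) (by omega) (by omega) (by omega)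
    · obtain ⟨rfl, rfl, h⟩ := h
      exact NHT.pmi hf H.T (j := 2) (by omega) (by omega) (by omega) (by omega) (by omega) (by omega)
    · obtain ⟨rfl, rfl, h⟩ := h
      exact NHT.pm hf H.T (j := 1) (by omega) (by omega) (by omega) (by omega) (by omega) (by omega)
    · obtain ⟨rfl, rfl, h⟩ := h
      exact NHT.pmi hf H.T (j := 1) (by omega) (by omega) (by omega) (by omega) (by omega) (by omega)
    · obtain ⟨rfl, rfl, h⟩ := h
      exact NHT.pm hf H.T (j := 0) (by omega) (by omega) (by omega) (by omega) (by omega) (by omega)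
    · obtain ⟨rfl, rfl, h⟩ := h
      exact fun t => NHT.rm1i hf H.T (p := 0) (j := 4) (by omega) (by omega) (by omega) (by omega) (by omega) (by omega) (mv t rfl (by omega) rfl rfl)
    · obtain ⟨rfl, rfl, h⟩ := h
      exact fun t => NHT.rm1 hf H.T (p := 0) (j := 3) (by omega) (by omega) (by omega) (by omega) (by omega) (by omega) (mv t rfl (by omega) rfl rfl)
    · obtain ⟨rfl, rfl, h⟩ := h
      exact NHT.p0i hf H.T (j := 4) (by omega) (by omega) (by omega) (by omega) (by omega) (by omega)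
    · obtain ⟨rfl, rfl, h⟩ := h
      exact NHT.p0 hf H.T (j := 3) (by omega) (by omega) (by omega) (by omega) (by omega) (by omega)
    · obtain ⟨rfl, rfl, h⟩ := h
      exact fun t => NHT.rm1i hf H.T (p := 1) (j := 4) (by omega) (by omega) (by omega) (by omega) (by omega) (by omega) (mv t rfl (by omega) rfl rfl)
    · obtain ⟨rfl, rfl, h⟩ := h
      exact fun t => NHT.rm1i hf H.T (p := 0) (j := 3) (by omega) (by omega) (by omega) (by omega) (by omega) (by omega) (mv t rfl (by omega) rfl rfl)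
    · obtain ⟨rfl, rfl, h⟩ := h
      exact fun t => NHT.rm1 hf H.T (p := 0) (j := 2) (by omega) (by omega) (by omega) (by omega) (by omega) (by omega) (mv t rfl (by omega) rfl rfl)
    · obtain ⟨rfl, rfl, h⟩ := h
      exact NHT.p0i hf H.T (j := 3) (by omega) (by omega) (by omega) (by omega) (by omega) (by omega)
    · obtain ⟨rfl, rfl, h⟩ := h
      exact NHT.p0 hf H.T (j := 2) (by omega) (by omega) (by omega) (by omega) (by omega) (by omega)
    · obtain ⟨rfl, rfl, h⟩ := h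
      exact fun t => NHT.rm1i hf H.T (p := 1) (j := 3) (by omega) (by omega) (by omega) (by omega) (by omega) (by omega) (mv t rfl (by omega) rfl rfl)
    · obtain ⟨rfl, rfl, h⟩ := h
      exact fun t => NHT.rm1i hf H.T (p := 0) (j := 2) (by omega) (by omega) (by omega) (by omega) (by omega) (by omega) (mv t rfl (by omega) rfl rfl)
    · obtain ⟨rfl, rfl, h⟩ := h
      exact fun t => NHT.rm1 hf H.T (p := 0) (j := 1) (by omega) (by omega) (by omega) (by omega) (by omega) (by omega) (mv t rfl (by omega) rfl rfl)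
    · obtain ⟨rfl, rfl, h⟩ := h
      exact NHT.p0i hf H.T (j := 2) (by omega) (by omega) (by omega) (by omega) (by omega) (by omega)
    · obtain ⟨rfl, rfl, h⟩ := h
      exact NHT.p0 hf H.T (j := 1) (by omega) (by omega) (by omega) (by omega) (by omega) (by omega)
    · obtain ⟨rfl, rfl, h⟩ := h
      exact fun t => NHT.rm1i hf H.T (p := 1) (j := 2) (by omega) (by omega) (by omega) (by omega) (by omega) (by omega) (mv t rfl (by omega) rfl rfl)
    · obtain ⟨rfl, rfl, h⟩ := h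
      exact NHT.p0i hf H.T (j := 4) (by omega) (by omega) (by omega) (by omega) (by omega) (by omega)
    · obtain ⟨rfl, rfl, h⟩ := h
      exact NHT.p0 hf H.T (j := 3) (by omega) (by omega) (by omega) (by omega) (by omega) (by omega)
    · obtain ⟨rfl, rfl, h⟩ := h
      exact NHT.p0i hf H.T (j := 3) (by omega) (by omega) (by omega) (by omega) (by omega) (by omega)
    · obtain ⟨rfl, rfl, h⟩ := h
      exact NHT.p0 hf H.T (j := 2) (by omega) (by omega) (by omega) (by omega) (by omega) (by omega)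
    · obtain ⟨rfl, rfl, h⟩ := h
      exact NHT.p0i hf H.T (j := 2) (by omega) (by omega) (by omega) (by omega) (by omega) (by omega)
    · obtain ⟨rfl, rfl, h⟩ := h
      exact NHT.p0 hf H.T (j := 1) (by omega) (by omega) (by omega) (by omega) (by omega) (by omega)
    · obtain ⟨rfl, rfl, h⟩ := h
      exact fun t => NHT.r1 hf H.T (p := 0) (j := 4) (by omega) (by omega) (by omega) (by omega) (by omega) (by omega) (mv t rfl (by omega) rfl rfl)
    · obtain ⟨rfl, rfl, h⟩ := h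
      exact fun t => NHT.r1i hf H.T (p := 0) (j := 5) (by omega) (by omega) (by omega) (by omega) (by omega) (by omega) (mv t rfl (by omega) rfl rfl)
    · obtain ⟨rfl, rfl, h⟩ := h
      exact NHT.p2 hf H.T (j := 4) (by omega) (by omega) (by omega) (by omega) (by omega) (by omega)
    · obtain ⟨rfl, rfl, h⟩ := h
      exact fun t => NHT.r1 hf H.T (p := 1) (j := 4) (by omega) (by omega) (by omega) (by omega) (by omega) (by omega) (mv t rfl (by omega) rfl rfl)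
    · obtain ⟨rfl, rfl, h⟩ := h
      exact fun t => NHT.r1i hf H.T (p := 1) (j := 5) (by omega) (by omega) (by omega) (by omega) (by omega) (by omega) (mv t rfl (by omega) rfl rfl)
    · obtain ⟨rfl, rfl, h⟩ := h
      exact fun t => NHT.r1 hf H.T (p := 0) (j := 3) (by omega) (by omega) (by omega) (by omega) (by omega) (by omega) (mv t rfl (by omega) rfl rfl)
    · obtain ⟨rfl, rfl, h⟩ := h
      exact fun t => NHT.r1i hf H.T (p := 0) (j := 4) (by omega) (by omega) (by omega) (by omega) (by omega) (by omega) (mv t rfl (by omega) rfl rfl)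
    · obtain ⟨rfl, rfl, h⟩ := h
      exact NHT.p2 hf H.T (j := 3) (by omega) (by omega) (by omega) (by omega) (by omega) (by omega)
    · obtain ⟨rfl, rfl, h⟩ := h
      exact fun t => NHT.r1 hf H.T (p := 1) (j := 3) (by omega) (by omega) (by omega) (by omega) (by omega) (by omega) (mv t rfl (by omega) rfl rfl)
    · obtain ⟨rfl, rfl, h⟩ := h
      exact fun t => NHT.r1i hf H.T (p := 1) (j := 4) (by omega) (by omega) (by omega) (by omega) (by omega) (by omega) (mv t rfl (by omega) rfl rfl)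
    · obtain ⟨rfl, rfl, h⟩ := h
      exact fun t => NHT.r1 hf H.T (p := 0) (j := 2) (by omega) (by omega) (by omega) (by omega) (by omega) (by omega) (mv t rfl (by omega) rfl rfl)
    · obtain ⟨rfl, rfl, h⟩ := h
      exact fun t => NHT.r1i hf H.T (p := 0) (j := 3) (by omega) (by omega) (by omega) (by omega) (by omega) (by omega) (mv t rfl (by omega) rfl rfl)
    · obtain ⟨rfl, rfl, h⟩ := h
      exact NHT.p2 hf H.T (j := 2) (by omega) (by omega) (by omega) (by omega) (by omega) (by omega)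
    · obtain ⟨rfl, rfl, h⟩ := h
      exact fun t => NHT.r1 hf H.T (p := 1) (j := 2) (by omega) (by omega) (by omega) (by omega) (by omega) (by omega) (mv t rfl (by omega) rfl rfl)
    · obtain ⟨rfl, rfl, h⟩ := h
      exact fun t => NHT.r1i hf H.T (p := 1) (j := 3) (by omega) (by omega) (by omega) (by omega) (by omega) (by omega) (mv t rfl (by omega) rfl rfl)
    · obtain ⟨rfl, rfl, h⟩ := h
      exact NHT.p2 hf H.T (j := 4) (by omega) (by omega) (by omega) (by omega) (by omega) (by omega)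
    · obtain ⟨rfl, rfl, rfl, rfl⟩ := h
      exact fun t => z0 (mv t (by omega) (by omega) (by omega) (by omega))

end Pool.Agent.SNT.L0E
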