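import Pool.Agent.SNT.L0EA1
import Pool.Agent.SNT.L0EA2
import Pool.Agent.SNT.L0EA3
import Pool.Agent.SNT.L0EA4
import Pool.Agent.SNT.L0ED
import Pool.Agent.SNT.L0EF
import Pool.Agent.SNT.E1Asm
import Pool.Agent.SNT.D1Deep
import Pool.Agent.SNT.K0D

set_option autoImplicit false

/-! The E-cell of the road L0 (helper26): the cell `d = 2 k - 2` of the column `X = 2 n - 10 - 2 v` of `6 k + 1` in the row
`c - 4` is zero, for `v + 7 ≤ k`.

`c` and `n` are the row and the lead of the cycle two before, `c + 4`, `n + (k + 2)` of the cycle before; `D = X - 2 k`. -/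

namespace Pool.Agent.SNT.L0E

open Pool.Agent.SNT Pool.Agent.SNT.Sig Pool.Agent.SNT.Loc Pool.Agent.SNT.LW Pool.Agent.SNT.NHZ Pool.Agent.SNT.DRun
open Pool.Agent.SNT.D1E Pool.Agent.SNT.E1X Pool.Agent.SNT.K0L2c Pool.Agent.SNT.PB

variable {f : ℕ → ℕ → ℕ → ℕ → Prop}

/-- one step to the left along a row -/
theorem left_step (hf : Rule f) {L R x y : ℕ} (hy : y % 2 = 1) (h0 : f L R (x + 2) y)
    (hlow : ∀ L' R' x' y' : ℕ, L' + 1 = L → R' ≤ R → R ≤ R' + 1 → x ≤ x' → x' ≤ x + 1 → y' ≤ y → y ≤ y' + 1 →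
      ¬ f L' R' x' y')
    (hz : ∀ R' y' : ℕ, R' + 1 = R → y' ≤ y → y ≤ y' + 1 → ¬ f L R' x y')
    (hm : ¬ f L R x (y - 1)) : f L R x y := by
  by_contra hn
  have k1 : ¬ f L R (x + 1) y := fun h => kill hf h 0 0 1 0 (by omega) (by omega) le_rfl (by omega) (by omega) h0
  obtain ⟨p, q, r, s, hp, hq, hr, hs, h5, hpa, hqb, hrx, hsy, h6⟩ := pred hf k1 (by omega)
  rcases Nat.eq_zero_or_pos p with hp0 | hp0
  · subst hp0
    rcases Nat.eq_zero_or_pos r with hr0 | hr0
    · subst hr0
      -- killed by the cell on the right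
      refine kill hf h6 0 q 1 s (by omega) hq le_rfl hs (by omega) ?_
      have e1 : L - 0 + 0 = L := by omega
      have e2 : R - q + q = R := by omega
      have e3 : x + 1 - 0 + 1 = x + 2 := by omega
      have e4 : y - s + s = y := by omega
      rw [e1, e2, e3, e4]
      exact h0
    · have er : r = 1 := by omega
      subst er
      have e3 : x + 1 - 1 = x := by omega
      rw [e3, Nat.sub_zero] at h6
      rcases Nat.eq_zero_or_pos q with hq0 | hq0
      · subst hq0
        rw [Nat.sub_zero] at h6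
        rcases Nat.eq_zero_or_pos s with hs0 | hs0
        · subst hs0
          exact hn h6
        · have es : s = 1 := by omega
          subst es
          exact hm h6
      · exact hz (R - q) (y - s) (by omega) (by omega) (by omega) h6
  · exact hlow (L - p) (R - q) (x + 1 - r) (y - s) (by omega) (by omega) (by omega) (by omega) (by omega) (by omega)
      (by omega) h6

/-- the run to the left along a row -/
theorem left_run (hf : Rule f) {L R x0 x1 y : ℕ} (hL : L % 2 = 0) (hR : R % 2 = 0) (hx : x1 % 2 = 0) (hy : y % 2 = 1)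
    (hlow : ∀ L' R' x' y' : ℕ, L' + 1 = L → R' ≤ R → R ≤ R' + 1 → x0 ≤ x' → x' + 1 ≤ x1 → y' ≤ y → y ≤ y' + 1 →
      ¬ f L' R' x' y')
    (hz : ∀ R' x' y' : ℕ, R' + 1 = R → x0 ≤ x' → x' + 2 ≤ x1 → x' % 2 = 0 → y' ≤ y → y ≤ y' + 1 → ¬ f L R' x' y')
    (h0 : f L R x1 y) : ∀ x, x0 ≤ x → x ≤ x1 → x % 2 = 0 → f L R x y := by
  have key : ∀ j x, x + 2 * j = x1 → x0 ≤ x → f L R x y := by
    intro j
    induction j with
    | zero =>
      intro x h1 h2
      have e : x = x1 := by omega
      subst e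
      exact h0
    | succ j ih =>
      intro x h1 h2
      exact left_step hf hy (ih (x + 2) (by omega) (by omega))
        (fun L' R' x' y' a1 a2 a3 a4 a5 a6 a7 => hlow L' R' x' y' a1 a2 a3 (by omega) (by omega) a6 a7)
        (fun R' y' a1 a2 a3 => hz R' x y' a1 h2 (by omega) (by omega) a2 a3)
        (even_zero hf hL hR (by omega) (by omega))
  intro x h1 h2 h3
  exact key ((x1 - x) / 2) x (by omega) h1

/-- one of two neighbouring in-lines of `6 k + 2` in the row `c` is present -/
theorem k0_pair (hf : Rule f) {k c n x y : ℕ} (H : PL f k c n (n - 4)) (hx : 2 * n + 1 ≤ x) (ho : x % 2 = 1)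
    (hy : y + 2 * k = x + 5) : f (6 * k + 2) c x y ∨ f (6 * k + 2) c (x + 2) (y + 2) :=
  k0_L2 hf H.T H.U (fun {a b c d} a1 a2 a3 a4 a5 a6 => H.lw a b c d a1 (by omega) (by omega) (by omega) a5 a6)
    (H.c2.mono' (by omega)) H.c4a H.c4 H.c6a H.c6 H.c8a H.c8 rfl hx ho hy

/-- one of two neighbouring in-lines of `6 k + 2` in the row `c` is present, for `M + 2 ≤ n` -/
theorem k0_pairM (hf : Rule f) {k c n M x y : ℕ} (H : PL f k c n M) (hM : M + 2 ≤ n) (hx : 2 * n + 3 ≤ x)
    (ho : x % 2 = 1) (hy : y + 2 * k = x + 5) : f (6 * k + 2) c x y ∨ f (6 * k + 2) c (x + 2) (y + 2) := by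
  have hN := H.T.hN2
  exact k0_L2 hf (n := n + 1) (W4.nht_mono H.T (by omega) (by omega)) (K0D.nhu_mono H.U (by omega) (by omega))
    (fun {a b c d} a1 a2 a3 a4 a5 a6 => H.lw a b c d a1 (by omega) (by omega) (by omega) a5 a6)
    (H.c2.mono' (by omega)) (H.c4a.mono' (by omega)) (H.c4.mono' (by omega)) (H.c6a.mono' (by omega))
    (H.c6.mono' (by omega)) (H.c8a.mono (by omega)) (H.c8.mono (by omega)) rfl (by omega) ho hy

/-- **The E-cell** for `X ≥ 2 M' + 16` (`c + 4`, `n' = n + (k + 2)`, `M' = M + (k + 2)` the cycle before): the cell `d = 2 k - 2`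
of the column `X` of `6 k + 1` in the row `c + 4` is zero, if the leads of `6 k` are `X - 2` in the row `c + 2` and `X - 6 - 2 k`
in the row `c - 2`. -/
theorem ecell_aux (hf : Rule f) {k c n M n1 M1 X : ℕ} (H2 : PL f k c n M) (hn1 : n1 = n + (k + 2))
    (hM1 : M1 = M + (k + 2)) (H1 : PL f k (c + 4) n1 M1) (hM2 : M + 2 ≤ n) (hX : 2 * M1 + 16 ≤ X) (hX2 : X % 2 = 0)
    (D0 : Cyc f (6 * k) (c + 2) (X - 2)) (D0a : Cyc f (6 * k) (c - 2) (X - 6 - 2 * k)) :
    ¬ f (6 * k + 1) (c + 4) X (X + 2 - 2 * k) := by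
  intro he
  have hk := H2.T.hk
  have hc := H2.T.hc
  have h4 := H2.T.h4
  have hb := H2.T.hb
  have hN := H2.T.hN2
  have hN1 := H1.T.hN2
  have hM := H2.hM
  have hM' := H2.hM'
  have hM3 := H1.hM
  have hM4 := H1.hM'
  obtain ⟨D, hD⟩ : ∃ D, D + 2 * k = X := ⟨X - 2 * k, by omega⟩
  have D0' : Cyc f (6 * k) (c + 4 - 2) (X - 2) := cyc_mv D0 rfl (by omega) rfl
  have D0a' : Cyc f (6 * k) (c + 4 - 6) (X - 6 - 2 * k) := cyc_mv D0a rfl (by omega) rfl
  have C4a : Cyc f (6 * k + 4) (c + 4 - 6) (2 * (n1 - (k + 1)) + 2) := cyc_mv H2.c4 rfl (by omega) (by omega)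
  have d0 : Cyc f (6 * k) (c - 2) (D - 6) := cyc_mv D0a rfl rfl (by omega)
  have E : ∀ {L R x y : ℕ}, L = 6 * k + 1 → R = c + 4 → x = X → y + 2 * k = X + 2 → f L R x y :=
    fun e1 e2 e3 e4 => mv he (by omega) (by omega) (by omega) (by omega)
  -- the line of `6 k` in the row `c` below `D - 5` is missing
  have z5w : ¬ f (6 * k) c (X - 10) (D - 5) := by
    intro h
    exact a1_aux hf H1 hX hX2 D0' D0a' C4a E (fun e1 e2 e3 e4 => mv h (by omega) (by omega) (by omega) (by omega))
  have z5 : ¬ f (6 * k) c D (D - 5) := by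
    intro h
    exact z5w (row_run hf (x1 := X - 10) (by omega) hc (by omega) (by omega)
      (fun z h5 h6 h7 => H2.T.c0 hf (j := 4) (by omega) (by omega) (by omega) (by omega) (by omega) (by omega)) h
      (X - 10) (by omega) le_rfl (by omega))
  -- the run of a line of `6 k + 2` of the row `c + 2`
  have r2 : ∀ y : ℕ, y % 2 = 1 → 2 * n + 4 ≤ y → f (6 * k + 2) (c + 2) (y + 5) y →
      f (6 * k + 2) (c + 2) (y + 2 * k - 5) y := by
    intro y h1 h2 h3
    exact row_run hf (x1 := y + 2 * k - 5) (by omega) (by omega) (by omega) h1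
      (fun z h5 h6 h7 => H2.T.c2 hf (j := 4) (by omega) (by omega) (by omega) (by omega) (by omega) (by omega)) h3
      (y + 2 * k - 5) (by omega) le_rfl (by omega)
  -- the beams of `6 k + 4` in the row `c + 2` do not exist
  have r4 : ∀ y : ℕ, y = D + 1 ∨ y = D + 3 → ¬ f (6 * k + 4) (c + 2) (y + 5) y := by
    intro y h1 h3
    have h5 := row_run hf (x1 := y + 2 * k - 5) (by omega) (by omega) (by omega) (by omega)
      (fun z h5 h6 h7 => H2.T.c2 hf (j := 3) (by omega) (by omega) (by omega) (by omega) (by omega) (by omega)) h3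
      (y + 2 * k - 5) (by omega) le_rfl (by omega)
    have h6 : f (6 * k + 4) (c + 2) (y + 2 * k - 5 + 2) y :=
      row_step hf (by omega) (by omega) (by omega) (by omega)
        (H1.T.cIn hf (t := 4) (j := 2) (by omega) (by omega) (by omega) (by omega) (by omega) (by omega) (by omega)
          (by omega)) h5
    have h7 := (WrapC.v0 H1.c4 (M := 6 * k + 4) (R := c + 2) (x := y + 2 * k - 5 + 2) (y := y) rfl (by omega)
      (by omega) (by omega) (by omega) (by omega) (by omega)).mp h6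
    omega
  -- one of two in-lines of `6 k + 2` runs to the tip and is reflected
  have D1' := D1.of_cyc H2.T H2.c4 H2.c2
  have tip : ∀ x : ℕ, x % 2 = 1 → 2 * n + 9 ≤ x → f (6 * k + 2) c x (x + 5 - 2 * k) →
      f (6 * k + 2) c x (x - 1) := by
    intro x h1 h2 h3
    exact run2 hf H2.T D1' h1 (by omega) (by omega) (by omega) (by omega) (by omega) h3 (x - 1) (by omega) (by omega)
      (by omega)
  have line : f (6 * k + 2) (c + 2) (D + 4) (D - 1) ∨ f (6 * k + 2) (c + 2) (D + 6) (D + 1) := by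
    rcases k0_pairM hf H2 hM2 (x := D - 3) (y := D + 2 - 2 * k) (by omega) (by omega) (by omega) with h | h
    · have h1 := tip (D - 3) (by omega) (by omega) (mv h rfl rfl rfl (by omega))
      rcases wt hf H2 (X := D - 3) (by omega) (by omega) h1 with h2 | h2
      · exact Or.inl (mv h2 rfl rfl (by omega) (by omega))
      · exact absurd (mv h2 rfl rfl (by omega) rfl) (r4 (D - 3 + 4) (by omega))
    · have h1 := tip (D - 1) (by omega) (by omega) (mv h rfl rfl (by omega) (by omega))
      rcases wt hf H2 (X := D - 1) (by omega) (by omega) h1 with h2 | h2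
      · exact Or.inr (mv h2 rfl rfl (by omega) (by omega))
      · exact absurd (mv h2 rfl rfl (by omega) rfl) (r4 (D - 1 + 4) (by omega))
  have l2 : f (6 * k + 2) (c + 2) (D + 4) (D - 1) := by
    rcases line with h | h
    · exact h
    · have h1 := r2 (D + 1) (by omega) (by omega) (mv h rfl rfl (by omega) rfl)
      exact (a2_aux hf H1 hX hX2 D0' D0a' C4a E
        (fun e1 e2 e3 e4 => mv h1 (by omega) (by omega) (by omega) (by omega))).elim
  have l2w := r2 (D - 1) (by omega) (by omega) (mv l2 rfl rfl (by omega) rfl)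
  -- the two lines of `6 k`
  have y7w : f (6 * k) c (X - 12) (D - 7) := by
    by_contra hg
    exact a3_aux hf H1 hX hX2 D0' D0a' C4a E
      (fun e1 e2 e3 e4 => mv l2w (by omega) (by omega) (by omega) (by omega))
      (fun e1 e2 e3 e4 t => hg (mv t (by omega) (by omega) (by omega) (by omega)))
  have y3w : f (6 * k) (c + 4) (X - 8) (D - 3) := by
    by_contra hg
    exact a4_aux hf H1 hX hX2 D0' D0a' C4a E
      (fun e1 e2 e3 e4 => mv l2w (by omega) (by omega) (by omega) (by omega))
      (fun e1 e2 e3 e4 t => hg (mv t (by omega) (by omega) (by omega) (by omega)))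
  have y7 : f (6 * k) c (D - 2) (D - 7) :=
    left_run hf (x0 := D - 2) (x1 := X - 12) (by omega) hc (by omega) (by omega)
      (fun L' R' x' y' a1 a2 a3 a4 a5 a6 a7 => H2.lw _ _ _ _ (by omega) (by omega) (by omega) (by omega) (by omega)
        (by omega))
      (fun R' x' y' a1 a2 a3 a4 a5 a6 t => H2.T.rm1i hf (L := 6 * k) (p := 0) (j := 4) (x := x') (y := y') (by omega)
        (by omega) (by omega) (by omega) (by omega) (by omega) (mv t rfl (by omega) rfl rfl)) y7w (D - 2) le_rfl
      (by omega) (by omega)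
  have y3 : f (6 * k) (c + 4) (D + 4) (D - 3) := by
    refine left_run hf (x0 := D + 4) (x1 := X - 8) (by omega) (by omega) (by omega) (by omega)
      (fun L' R' x' y' a1 a2 a3 a4 a5 a6 a7 => H2.lw _ _ _ _ (by omega) (by omega) (by omega) (by omega) (by omega)
        (by omega)) ?_ y3w (D + 4) le_rfl (by omega) (by omega)
    intro R' x' y' a1 a2 a3 a4 a5 a6 t
    rcases Nat.lt_or_ge (x' + 10) X with hx | hx
    · exact H2.T.O.after hf (t := 5) (s := 0) (j := 5) (p := 0) (q := 1) (L := 6 * k) (R := R') (x := x') (y := y')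
        (by omega) (by omega) (by omega) (by omega) (by omega) (by omega) (by omega)
        (by unfold Yf; rw [if_neg (by omega)]; omega) (by omega) (by omega) t
    · exact H1.T.rm1i hf (L := 6 * k) (p := 0) (j := 4) (x := x') (y := y') (by omega)
        (by omega) (by omega) (by omega) (by omega) (by omega) (mv t rfl (by omega) rfl rfl)
  exact wf hf H2 (by omega) (by omega) d0 y7 z5 y3

end Pool.Agent.SNT.L0E

namespace Pool.Agent.SNT.D1

open Pool.Agent.SNT.D1E Pool.Agent.SNT.L0E

variable {f : ℕ → ℕ → ℕ → ℕ → Prop} {k b m v : ℕ}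

/-- the window of the cycle `j` with the leads `(1, -4, -7)` -/
theorem pl_of (S : StackA f k b m 0 0 0 0 0 1) (q4 : Q4 f k b m 0 0) (q2 : Q2 f k b m 0 0) (qd : QD f k b m 0 v)
    (j : ℕ) {c n : ℕ} (hc : c = b + 4 * j + 22) (hn : n = nn k m j) : PL f k c n (n - 4) := by
  subst hc hn
  have S1 := S.shift j
  have hs := S1.side
  have hm := hs.2.2.2.2
  have e : nn k m j = m + (k + 2) * j + 9 + (k + 2) * 4 := rfl
  have hb := hs.2.2.2.1
  exact PL.of_stack (b := b + 4 * j) (m := m + (k + 2) * j) hs S1.stack e (by omega) (by omega)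
    ((qd j (by omega)).mono' (by omega)) ((q2 j (by omega)).mono' (by omega))
    (cyc_of_eq (q4 j (by omega)) (by omega) (by omega))

/-- **The E-cell** (`d = 2 k - 2`) of the column of the step `v` of the road L0, for `v + 7 ≤ k`. -/
theorem ecell (hf : Rule f) (S : StackA f k b m 0 0 0 0 0 1) (q4 : Q4 f k b m 0 0) (q2 : Q2 f k b m 0 0)
    (qd : QD f k b m 0 v) (hv : v + 7 ≤ k) {x y : ℕ} (hx : x + 10 + 2 * v = 2 * nn k m 4) (hy : y + 2 * k = x + 2) :
    ¬ f (6 * k + 1) (b + 4 * 4 + 18) x y := by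
  have H2 := pl_of S q4 q2 qd 2 (c := b + 30) (n := nn k m 2) (by omega) rfl
  have H1 := pl_of S q4 q2 qd 3 (c := b + 34) (n := nn k m 3) (by omega) rfl
  have e3 : nn k m 3 = nn k m 2 + (k + 2) := by
    unfold nn
    ring
  have e4 : nn k m 4 = nn k m 2 + (k + 2) + (k + 2) := by
    unfold nn
    ring
  have hN := H2.T.hN2
  have D0 := qd 4 (by omega)
  have D0a := qd 3 (by omega)
  intro h
  refine ecell_aux hf (c := b + 30) (n := nn k m 2) (n1 := nn k m 3) (X := x) H2 e3 (by omega) H1 (by omega) (by omega)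
    (by omega)
    (cyc_of_eq D0 (by omega) (by omega)) (cyc_of_eq D0a (by omega) (by omega)) ?_
  have e : y = x + 2 - 2 * k := by omega
  rw [← e]
  exact h

end Pool.Agent.SNT.D1
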