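import Pool.Agent.SNT.DRunI
import Pool.Agent.SNT.K0L6

set_option autoImplicit false

/-! Location of the top leader: the column `N + 2` of the layers `6 k + 6` and `6 k + 2` in the row `c`. -/

namespace Pool.Agent.SNT.LineIn

open Pool.Agent.SNT Pool.Agent.SNT.Sig Pool.Agent.SNT.NHZ Pool.Agent.SNT.DRun

variable {f : ℕ → ℕ → ℕ → ℕ → Prop} {k c N : ℕ}

/-- One of two columns is present: the column before them is zero. -/
theorem col_zero (hf : Rule f) {L c x y : ℕ} (hL : L % 2 = 0) (hc : c % 2 = 0) (hx : x % 2 = 0)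
    (hy : y % 2 = 1) (hcov : Cov f L c (x + 1) y)
    (h : f L c (x + 1) (y + 1) ∨ f L c (x + 3) (y + 1)) : ¬ f L c x y := by
  intro h0
  rcases h with h | h
  · exact kill hf h0 0 0 1 1 (by omega) (by omega) (by omega) (by omega) (by omega) h
  · rcases hcov with h1 | h1 | h1 | h1
    · exact kill hf h0 0 0 1 0 (by omega) (by omega) (by omega) (by omega) (by omega) h1
    · exact kill hf h1 0 0 1 1 (by omega) (by omega) (by omega) (by omega) (by omega) h
    · exact kill hf h0 0 0 1 1 (by omega) (by omega) (by omega) (by omega) (by omega) h1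
    · exact hf.not_allEven h1 ⟨hL, hc, by omega, by omega⟩

/-- (F6) -/
theorem f6 (hf : Rule f) (h : NHT f k c N)
    (K : f (6 * k + 6) c (N + 3) (N + 6 - 2 * k) ∨ f (6 * k + 6) c (N + 5) (N + 8 - 2 * k))
    {y : ℕ} (hy : y % 2 = 1) (h1 : N + 7 ≤ y + 2 * k) (h2 : y ≤ N + 1) :
    ¬ f (6 * k + 6) c (N + 2) y := by
  have hc := h.hc
  have hk := h.hk
  have hN := h.hN
  have hN2 := h.hN2
  refine col_zero hf (x := N + 2) (by omega) hc (by omega) hy
    (c6 hf h (by omega) (by omega) (by omega)) ?_
  rcases K with K | K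
  · exact Or.inl (run6 hf h (by omega) (by omega) (by omega) (by omega) K (y + 1) (by omega)
      (by omega) (by omega))
  · exact Or.inr (run6 hf h (by omega) (by omega) (by omega) (by omega) K (y + 1) (by omega)
      (by omega) (by omega))

/-- (F2) -/
theorem f2 (hf : Rule f) (h : NHT f k c N)
    (K : f (6 * k + 2) c (N + 3) (N + 8 - 2 * k) ∨ f (6 * k + 2) c (N + 5) (N + 10 - 2 * k))
    {y : ℕ} (hy : y % 2 = 1) (h1 : N + 9 ≤ y + 2 * k) (h2 : y + 2 ≤ N) :
    ¬ f (6 * k + 2) c (N + 2) y := by
  have hc := h.hc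
  have hk := h.hk
  have hN := h.hN
  have hN2 := h.hN2
  refine col_zero hf (x := N + 2) (by omega) hc (by omega) hy
    (h.c0i hf (j := 4) (by omega) (by omega) (by omega) (by omega) (by omega) (by omega)) ?_
  rcases K with K | K
  · exact Or.inl (run2' hf h (by omega) (by omega) (by omega) (by omega) K
      (y + 1) (by omega) (by omega) (by omega))
  · exact Or.inr (run2' hf h (by omega) (by omega) (by omega) (by omega) K
      (y + 1) (by omega) (by omega) (by omega))

end Pool.Agent.SNT.LineIn
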