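import Pool.Agent.SNT.K0D

set_option autoImplicit false

/-! The pair of adjacent in-lines of `6 k` in the row `c - 2`, leads `n - 7`, `n - 4`, `n + 1` (helper33). -/

namespace Pool.Agent.SNT.K0D

open Pool.Agent.SNT Pool.Agent.SNT.Loc Pool.Agent.SNT.LW Pool.Agent.SNT.NHZ

variable {f : ℕ → ℕ → ℕ → ℕ → Prop} {k c n : ℕ}

def k0dwT (j n p q : ℕ) : Bool :=
  ((((decide (j = 2 ∧ n = 1 ∧ q ≤ p + 14 ∧ ((p + 5 > 0) ∨ (p ≤ q ∧ p + 6 > 0)) ∧ (q ≤ p ∧ (p + q) % 4 = 0))) ||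
    (decide (j = 2 ∧ n = 2 ∧ q ≤ p + 14 ∧ q ≤ p ∧ p + 3 > 0 ∧ (((p + q) % 2 = 1 ∧ p < q ∧ (p + 1) % 2 = 0) ∨ (q ≤ p + 1 ∧ (p + q + 1) % 4 = 0))))) ||
    (decide (j = 4 ∧ n = 2 ∧ q ≤ p + 14 ∧ p + 1 > 0 ∧ (((p + q) % 2 = 1 ∧ p < q ∧ (p + 1) % 2 = 1) ∨ (q ≤ p + 1 ∧ (p + q + 3) % 4 = 0))))) ||
    ((decide (j = 4 ∧ n = 3 ∧ q ≤ p + 14 ∧ ((p > 1) ∨ (p ≤ q ∧ p > 0)) ∧ (q ≤ p ∧ (p + q) % 4 = 0))) ||
    (decide (j = 6 ∧ n = 1 ∧ q ≤ p + 14 ∧ ((p + 5 > 0) ∨ (p ≤ q ∧ p + 6 > 0)) ∧ (q ≤ p ∧ (p + q) % 4 = 0))))) ||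
    (((decide (j = 6 ∧ n = 2 ∧ q ≤ p + 14 ∧ q ≤ p ∧ p + 3 > 0 ∧ (((p + q) % 2 = 1 ∧ p < q ∧ (p + 1) % 2 = 0) ∨ (q ≤ p + 1 ∧ (p + q + 1) % 4 = 0)))) ||
    (decide (j = 8 ∧ n = 2 ∧ q ≤ p + 14 ∧ p + 3 > 0 ∧ (((p + q) % 2 = 1 ∧ p < q + 2 ∧ (p + 1) % 2 = 1) ∨ (q + 1 ≤ p ∧ (p + q + 3) % 4 = 2))))) ||
    ((decide (j = 8 ∧ n = 3 ∧ q ≤ p + 14 ∧ ((p + 1 > 0) ∨ (p ≤ q + 2 ∧ p + 2 > 0)) ∧ (q + 2 ≤ p ∧ (p + q) % 4 = 2))) ||
    (decide (j = 10 ∧ n = 4 ∧ q ≤ p + 14 ∧ ((p > 1 ∧ p + 1 ≤ q) ∨ (p > 3)) ∧ (((p + q) % 2 = 1 ∧ p < q + 2 ∧ (p + 1) % 2 = 1) ∨ (q + 1 ≤ p ∧ (p + q + 3) % 4 = 2))))))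

def k0dwF (j n p q : ℕ) : Bool :=
  (((((decide (j = 2 ∧ n = 1 ∧ q ≤ p + 14 ∧ ((p + 5 > 0) ∨ (p ≤ q ∧ p + 6 > 0)) ∧ ¬ (q ≤ p ∧ (p + q) % 4 = 0))) ||
    (decide (j = 2 ∧ n = 2 ∧ q ≤ p + 14 ∧ q ≤ p ∧ p + 3 > 0 ∧ ¬ (((p + q) % 2 = 1 ∧ p < q ∧ (p + 1) % 2 = 0) ∨ (q ≤ p + 1 ∧ (p + q + 1) % 4 = 0))))) ||
    ((decide (j = 4 ∧ n = 2 ∧ q ≤ p + 14 ∧ p + 1 > 0 ∧ ¬ (((p + q) % 2 = 1 ∧ p < q ∧ (p + 1) % 2 = 1) ∨ (q ≤ p + 1 ∧ (p + q + 3) % 4 = 0)))) ||
    (decide (j = 4 ∧ n = 3 ∧ q ≤ p + 14 ∧ ((p > 1) ∨ (p ≤ q ∧ p > 0)) ∧ ¬ (q ≤ p ∧ (p + q) % 4 = 0))))) ||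
    (((decide (j = 6 ∧ n = 1 ∧ q ≤ p + 14 ∧ ((p + 5 > 0) ∨ (p ≤ q ∧ p + 6 > 0)) ∧ ¬ (q ≤ p ∧ (p + q) % 4 = 0))) ||
    (decide (j = 6 ∧ n = 2 ∧ q ≤ p + 14 ∧ q ≤ p ∧ p + 3 > 0 ∧ ¬ (((p + q) % 2 = 1 ∧ p < q ∧ (p + 1) % 2 = 0) ∨ (q ≤ p + 1 ∧ (p + q + 1) % 4 = 0))))) ||
    (decide (j = 8 ∧ n = 3 ∧ q ≤ p + 14 ∧ ((p + 1 > 0) ∨ (p ≤ q + 2 ∧ p + 2 > 0)) ∧ ¬ (q + 2 ≤ p ∧ (p + q) % 4 = 2))))) ||
    ((((decide (j = 2 ∧ n = 3 ∧ p + 5 ≤ q ∧ q ≤ p + 12)) ||
    (decide (j = 3 ∧ n = 3 ∧ p + 5 ≤ q ∧ q ≤ p + 12))) ||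
    ((decide (j = 3 ∧ n = 4 ∧ p + 5 ≤ q ∧ q ≤ p + 12)) ||
    (decide (j = 5 ∧ n = 1 ∧ p + 3 ≤ q ∧ q ≤ p + 14)))) ||
    (((decide (j = 5 ∧ n = 2 ∧ p + 3 ≤ q ∧ q ≤ p + 14)) ||
    (decide (j = 5 ∧ n = 3 ∧ p + 4 ≤ q ∧ q ≤ p + 13))) ||
    (decide (j = 5 ∧ n = 4 ∧ p + 4 ≤ q ∧ q ≤ p + 13))))) ||
    (((((decide (j = 6 ∧ n = 3 ∧ p + 3 ≤ q ∧ q ≤ p + 14)) ||
    (decide (j = 7 ∧ n = 1 ∧ p ≤ q ∧ q ≤ p + 15))) ||
    ((decide (j = 7 ∧ n = 2 ∧ p ≤ q ∧ q ≤ p + 15)) ||
    (decide (j = 7 ∧ n = 3 ∧ p + 3 ≤ q ∧ q ≤ p + 14)))) ||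
    (((decide (j = 7 ∧ n = 3 ∧ p ≥ 3 ∧ p + 1 ≤ q ∧ q ≤ p + 14)) ||
    (decide (j = 7 ∧ n = 4 ∧ p + 3 ≤ q ∧ q ≤ p + 14))) ||
    (decide (j = 7 ∧ n = 4 ∧ p ≥ 3 ∧ p + 1 ≤ q ∧ q ≤ p + 14)))) ||
    ((((decide (j = 9 ∧ n = 3 ∧ p + 2 ≤ q ∧ q ≤ p + 15)) ||
    (decide (j = 9 ∧ n = 3 ∧ p ≥ 3 ∧ p ≤ q ∧ q ≤ p + 15))) ||
    ((decide (j = 9 ∧ n = 4 ∧ p + 2 ≤ q ∧ q ≤ p + 15)) ||
    (decide (j = 9 ∧ n = 4 ∧ p ≥ 3 ∧ p ≤ q ∧ q ≤ p + 15)))) ||
    (((decide (j = 1 ∧ q ≤ p + 14)) ||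
    (decide (j = 2 ∧ n = 4 ∧ p = 2 ∧ q = 7))) ||
    (decide (j = 2 ∧ n = 4 ∧ p = 4 ∧ q = 9)))))

theorem k0dw_chk : check 10 6 8 12 0 0 1 1 0 k0dwT k0dwF
    680
    0x6810306818006881a07a88008c8c208b483075d8007639208ba83076380076384078f0008b5da079b0008c1da07708007708108c183076a80076a84079600079c1207a20007a20406880307a80007a804044180044181032103044100044104031500031b9a031a8302e38002e38108c203067b80067c0a043580043581030e8003090003151a030f9a067485079a80067b1a08bb4a079b8008c1d2067b03079b00079b04077080077081073400073401067403067480067b1a079b8008c1d2076a80076a81072e00072e04043480043481030800030e9a030f00030f0402dd8002dd8402a80002ae1202b40002eaba031b00031b0406810306818006881a06888006890a044280044281031b80031b8402f083032100032104075e03087e00087e04072e03075e00075e04076383076400076404073403076480076484073b03076b00076b0407708307710007710407410307718007718408680307780007780408ae0309c8000aee5209d40009da1208ae0309ce8009cd800af4d20af4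5a08ae0309ce0009ce0409da0009da040763800763810637800637840af48308ae0008ae8a072e00072e010af48308ae0008ae8a07280007280406380006380402de0303fe0003fe0402de8303fe8003fe8402af0303ff0003ff0402b40304048004048402b50304050004050402b50304058004058402eb03040b00040b0402bb03040b80040b8402bc03040c00040c0402c10304118004118402c20304120004120402c203041280041284079c8507960008c2d208bc52067b80067c0a04358004358102af0002b512079c8507960008c2d208bc52067b80067c0a04358004358102a90002af1202b50002b504030e80030e8102d78002d784030f8302d88002d88402ae0302de0002de0402ae0302de8002de8402af0302df0002df0402e38302e40002e40402b40302e48002e48402b50302e50002e50402b50302e58002e58402bb0302eb0002eb0402bb0302eb8002eb8402bc0302ec0002ec0402f08302f10002f10402c10302f18002f18402c20302f20002f20402c20302f28002f284084e030607800607840af403087d8008839209da000afa4208838309d40009d404060d00060d0402ae0302ae8002ae8402bb0302bb8002bb84084e0305d78005d78408540305dd8005dd8408540305de0005d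e04085b0305e48005e48408610305ea8005ea8408610305eb0005eb0404c38004fa3a0c0d8009a900097980096d80073980072c80071700070a0006fd00053700052a00051d0005088005078005000004fb8004fa8004f30004ee8004ed8002b98002ac80028a00027d000c0d8f0afa070af4870af4070af3870aee870aee070ae8070ae7870aca070ac4870ac4070ac3870abe870abe070ab8070ab78709d48709d38709c78709aa0709a98709a90f09a48709a40709a387099e87099e07099d8709980709978709798f096d8f08c88708c80708c28708c20708c18708c10708bc8708bc0708bb8708bb0708ba8708b60708b58708b50708b48708b40708af8708af0708ae8708a88708a807089887089807089287089207089187089107088c87088c07088b87088b07088a87088607088587088507088487088407087f87087f07087e87087887087807086807086787086207086187086107086087085b07085a87085507085487085407085387084e07084d87084d07084807084787083807083787083207083187083107083087082b07082a87082507082487082407082387081e07081d8708180708178707a28707a187079587079487078887078787077887077287077207076c87076c07076b8707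6607076587076507075f87075f07075e87075887075807074187074087074007073a0707398f073487073387073307072d07072c8f07278707180707178707170f071207071187071107071087070b07070a87070a0f07050707048707040707038706fe0706fd8706fd0f06f80706f787068907068307068287067c07067607067587065907065307065287064c0706460706458706150706080705e50705d80705628705618705608705558705548705538705390705388705380705378705370f053307053287053207053187053107053087052c07052b87052b07052a87052a0f052607052587052507052487052407052387051e07051d87051d0f05088f05078f05000f04fb8f04fa8f04fa0704f98704f40704f38704f30f04ee8f04ed8f043c87042f87040c8703ff87032287032187032087031c87031587031487030f8703098703088702ec8702df8702d98702d90702c18702c08702c00702ba0702b98f02b58702b48702b38702b30702ad0702ac8f02a88702a787029207029187029107029087028c07028b87028b07028a87028a0f028607028587028507028487028407028387027f07027e87027e07027d87027d0f02790702788702780702778702010702008701fb8701fb0701fa870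1fa0701f58701f50701f48701f40701ef8701ef0701ee8701ee0701e98701e90701e88701e80701d10701d08701d00701cb8701cb0701ca8701ca0701c58701c50701c48701c40701c38701c30701bf8701bf0701be8701be0701bd8701bd0701b98701b90701b88701b80701b78701a20701a18701a10701a08701a007019c07019b87019b07019a87019a07019607019587019507019487019407019387019307018f07018e87018e07018d87018d07018907018887018807018787017207017187017107017087016c07016b87016b07016a87016607016587016507016487016407016387015f07015e87015e07015d87015907015887015807015787 = true := by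
  decide +kernel

theorem k0dw (hf : Rule f) (H : KH f k c n 7 4) :
    f (6 * k + 0) (c - 2) (2 * n - 3) (2 * n - 2 * k + 2) ∨ f (6 * k + 0) (c - 2) (2 * n - 1) (2 * n - 2 * k + 4) := by
  by_contra hg
  have hk := H.T.hk
  have hc := H.T.hc
  have h4 := H.T.h4
  have hb := H.T.hb
  have hN2 := H.T.hN2
  obtain ⟨a0, ha0⟩ : ∃ a0, a0 + 2 = 6 * k := ⟨6 * k - 2, by omega⟩
  obtain ⟨b0, hb0⟩ : ∃ b0, b0 + 6 = c := ⟨c - 6, by omega⟩
  obtain ⟨x0, hx0⟩ : ∃ x0, x0 + 5 = 2 * n := ⟨2 * n - 5, by omega⟩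
  obtain ⟨y0, hy0⟩ : ∃ y0, y0 + 5 = 2 * n - 2 * k := ⟨2 * n - 2 * k - 5, by omega⟩
  refine check_sound hf (a0 := a0) (b0 := b0) (x0 := x0) (y0 := y0) k0dw_chk
    ⟨fun h => absurd h (by decide), fun h => absurd h (by decide), fun h => absurd h (by decide),
      by omega, by omega, by omega, by omega⟩ ?_ ?_
  · intro j m p q hr h
    obtain ⟨-, -, hn1, hn2, hp1, hp2, hq1, hq2⟩ := hr
    unfold k0dwT at h
    simp only [Bool.or_eq_true, decide_eq_true_eq] at h
    rcases h with (((h | h) | h) | (h | h)) | ((h | h) | (h | h))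
    · obtain ⟨⟨rfl, rfl, h1⟩, h2⟩ := h
      exact (WrapC.v1 H.k0_m6 (by omega) (by omega) (by omega) (by omega) (by omega) (by omega) (by omega) (by omega)).mpr (by omega)
    · obtain ⟨⟨rfl, rfl, h1⟩, h2⟩ := h
      exact (WrapC.v2 H.k0_m6 (by omega) (by omega) (by omega) (by omega) (by omega) (by omega) (by omega)).mpr (by omega)
    · obtain ⟨⟨rfl, rfl, h1⟩, h2⟩ := h
      exact (WrapC.v0 H.k2_m4 (by omega) (by omega) (by omega) (by omega) (by omega) (by omega) (by omega)).mpr (by omega)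
    · obtain ⟨⟨rfl, rfl, h1⟩, h2⟩ := h
      exact (WrapC.v1 H.k2_m4 (by omega) (by omega) (by omega) (by omega) (by omega) (by omega) (by omega) (by omega)).mpr (by omega)
    · obtain ⟨⟨rfl, rfl, h1⟩, h2⟩ := h
      exact (WrapC.v1 H.k4_m6 (by omega) (by omega) (by omega) (by omega) (by omega) (by omega) (by omega) (by omega)).mpr (by omega)
    · obtain ⟨⟨rfl, rfl, h1⟩, h2⟩ := h
      exact (WrapC.v2 H.k4_m6 (by omega) (by omega) (by omega) (by omega) (by omega) (by omega) (by omega)).mpr (by omega)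
    · obtain ⟨⟨rfl, rfl, h1⟩, h2⟩ := h
      exact (WrapC.v0 H.k6_m4 (by omega) (by omega) (by omega) (by omega) (by omega) (by omega) (by omega)).mpr (by omega)
    · obtain ⟨⟨rfl, rfl, h1⟩, h2⟩ := h
      exact (WrapC.v1 H.k6_m4 (by omega) (by omega) (by omega) (by omega) (by omega) (by omega) (by omega) (by omega)).mpr (by omega)
    · obtain ⟨⟨rfl, rfl, h1⟩, h2⟩ := h
      exact (NW.w0v H.k8_m2 (by omega) (by omega) (by omega) (by omega) (by omega) (by omega) (by omega)).mpr (by omega)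
  · intro j m p q hr h
    obtain ⟨-, -, hn1, hn2, hp1, hp2, hq1, hq2⟩ := hr
    unfold k0dwF at h
    simp only [Bool.or_eq_true, decide_eq_true_eq] at h
    rcases h with ((((h | h) | (h | h)) | ((h | h) | h)) | (((h | h) | (h | h)) | ((h | h) | h))) | ((((h | h) | (h | h)) | ((h | h) | h)) | (((h | h) | (h | h)) | ((h | h) | h)))
    · obtain ⟨⟨rfl, rfl, h1⟩, h2⟩ := h
      exact mt (WrapC.v1 H.k0_m6 (by omega) (by omega) (by omega) (by omega) (by omega) (by omega) (by omega) (by omega)).mp (by omega)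
    · obtain ⟨⟨rfl, rfl, h1⟩, h2⟩ := h
      exact mt (WrapC.v2 H.k0_m6 (by omega) (by omega) (by omega) (by omega) (by omega) (by omega) (by omega)).mp (by omega)
    · obtain ⟨⟨rfl, rfl, h1⟩, h2⟩ := h
      exact mt (WrapC.v0 H.k2_m4 (by omega) (by omega) (by omega) (by omega) (by omega) (by omega) (by omega)).mp (by omega)
    · obtain ⟨⟨rfl, rfl, h1⟩, h2⟩ := h
      exact mt (WrapC.v1 H.k2_m4 (by omega) (by omega) (by omega) (by omega) (by omega) (by omega) (by omega) (by omega)).mp (by omega)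
    · obtain ⟨⟨rfl, rfl, h1⟩, h2⟩ := h
      exact mt (WrapC.v1 H.k4_m6 (by omega) (by omega) (by omega) (by omega) (by omega) (by omega) (by omega) (by omega)).mp (by omega)
    · obtain ⟨⟨rfl, rfl, h1⟩, h2⟩ := h
      exact mt (WrapC.v2 H.k4_m6 (by omega) (by omega) (by omega) (by omega) (by omega) (by omega) (by omega)).mp (by omega)
    · obtain ⟨⟨rfl, rfl, h1⟩, h2⟩ := h
      exact mt (WrapC.v1 H.k6_m4 (by omega) (by omega) (by omega) (by omega) (by omega) (by omega) (by omega) (by omega)).mp (by omega)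
    · obtain ⟨rfl, rfl, h1⟩ := h
      exact NHT.rIn hf H.T (t := 3) (j := 3) (p := 0) (by omega) (by omega) (by omega) (by omega) (by omega) (by omega) (by omega) (by omega)
    · obtain ⟨rfl, rfl, h1⟩ := h
      exact NHT.rIn hf H.T (t := 3) (j := 3) (p := 1) (by omega) (by omega) (by omega) (by omega) (by omega) (by omega) (by omega) (by omega)
    · obtain ⟨rfl, rfl, h1⟩ := h
      exact NHT.pIn hf H.T (t := 4) (j := 3) (by omega) (by omega) (by omega) (by omega) (by omega) (by omega) (by omega)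
    · obtain ⟨rfl, rfl, h1⟩ := h
      exact NHT.rIn hf H.T (t := 2) (j := 1) (p := 1) (by omega) (by omega) (by omega) (by omega) (by omega) (by omega) (by omega) (by omega)
    · obtain ⟨rfl, rfl, h1⟩ := h
      exact NHT.pIn hf H.T (t := 3) (j := 1) (by omega) (by omega) (by omega) (by omega) (by omega) (by omega) (by omega)
    · obtain ⟨rfl, rfl, h1⟩ := h
      exact NHT.rIn hf H.T (t := 3) (j := 2) (p := 1) (by omega) (by omega) (by omega) (by omega) (by omega) (by omega) (by omega) (by omega)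
    · obtain ⟨rfl, rfl, h1⟩ := h
      exact NHT.pIn hf H.T (t := 4) (j := 2) (by omega) (by omega) (by omega) (by omega) (by omega) (by omega) (by omega)
    · obtain ⟨rfl, rfl, h1⟩ := h
      exact NHT.rIn hf H.T (t := 3) (j := 1) (p := 0) (by omega) (by omega) (by omega) (by omega) (by omega) (by omega) (by omega) (by omega)
    · obtain ⟨rfl, rfl, h1⟩ := h
      exact nhu_pmmi hf H.U (by omega) (by omega) (by omega) (by omega) (by omega)
    · obtain ⟨rfl, rfl, h1⟩ := h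
      exact nhu_pmmi hf H.U (by omega) (by omega) (by omega) (by omega) (by omega)
    · obtain ⟨rfl, rfl, h1⟩ := h
      exact NHT.rIn hf H.T (t := 3) (j := 1) (p := 1) (by omega) (by omega) (by omega) (by omega) (by omega) (by omega) (by omega) (by omega)
    · obtain ⟨rfl, rfl, h1⟩ := h
      exact NHU.pmi hf H.U (j := 1) (by omega) (by omega) (by omega) (by omega) (by omega) (by omega)
    · obtain ⟨rfl, rfl, h1⟩ := h
      exact NHT.pIn hf H.T (t := 4) (j := 1) (by omega) (by omega) (by omega) (by omega) (by omega) (by omega) (by omega)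
    · obtain ⟨rfl, rfl, h1⟩ := h
      exact NHU.pmi hf H.U (j := 1) (by omega) (by omega) (by omega) (by omega) (by omega) (by omega)
    · obtain ⟨rfl, rfl, h1⟩ := h
      exact NHT.rIn hf H.T (t := 3) (j := 0) (p := 1) (by omega) (by omega) (by omega) (by omega) (by omega) (by omega) (by omega) (by omega)
    · obtain ⟨rfl, rfl, h1⟩ := h
      exact NHU.pmi hf H.U (j := 0) (by omega) (by omega) (by omega) (by omega) (by omega) (by omega)
    · obtain ⟨rfl, rfl, h1⟩ := h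
      exact NHT.pIn hf H.T (t := 4) (j := 0) (by omega) (by omega) (by omega) (by omega) (by omega) (by omega) (by omega)
    · obtain ⟨rfl, rfl, h1⟩ := h
      exact NHU.pmi hf H.U (j := 0) (by omega) (by omega) (by omega) (by omega) (by omega) (by omega)
    · obtain ⟨rfl, h1⟩ := h
      exact H.lw _ _ _ _ (by omega) (by omega) (by omega) (by omega) (by omega) (by omega)
    · obtain ⟨rfl, rfl, rfl, rfl⟩ := h
      exact fun h2 => hg (Or.inl (mv h2 (by omega) (by omega) (by omega) (by omega)))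
    · obtain ⟨rfl, rfl, rfl, rfl⟩ := h
      exact fun h2 => hg (Or.inr (mv h2 (by omega) (by omega) (by omega) (by omega)))

/-- The pair of the in-lines `x`, `x + 2` (`x ≥ 2 * n - 3` odd) of `6 k` in the row `c - 2`: the third cells
above the wall. -/
theorem k0d_gen (hf : Rule f) (H : KH f k c n 7 4) {x y : ℕ} (hx : 2 * n ≤ x + 3) (ho : x % 2 = 1)
    (hy : y + 2 * k = x + 5) : f (6 * k) (c - 2) x y ∨ f (6 * k) (c - 2) (x + 2) (y + 2) := by
  obtain ⟨i, hi⟩ : ∃ i, x + 3 = 2 * i := ⟨(x + 3) / 2, by omega⟩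
  have hk := H.T.hk
  have hn := H.hn
  rcases k0dw hf (H.mono (n' := i) (by omega)) with h | h
  · exact Or.inl (mv h (by omega) (by omega) (by omega) (by omega))
  · exact Or.inr (mv h (by omega) (by omega) (by omega) (by omega))

theorem k0d_stack {b m : ℕ} (hf : Rule f) (hs : Side k b m) (S : Stack6 f k b m 0 0 0 0 0 1)
    (hn : n = m + 9 + (k + 2) * 4)
    (d0 : Cyc f (6 * k) (b + 16) (2 * (n - 7) + 2))
    (d2 : Cyc f (6 * k + 2) (b + 18) (2 * (n - 4) + 2))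
    (d4 : Cyc f (6 * k + 4) (b + 20) (2 * (n + 1) + 2))
    {x y : ℕ} (hx : 2 * n ≤ x + 3) (ho : x % 2 = 1) (hy : y + 2 * k = x + 5) :
    f (6 * k) (b + 20) x y ∨ f (6 * k) (b + 20) (x + 2) (y + 2) := by
  have e : b + 22 - 2 = b + 20 := by omega
  have h := k0d_gen hf (KH.of_stack hs S hn d0 d2 d4) hx ho hy
  rwa [e] at h

end Pool.Agent.SNT.K0D
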