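import Pool.Agent.SNT.PV

set_option autoImplicit false
set_option synthInstance.maxSize 100000
set_option synthInstance.maxHeartbeats 4000000

/-! The near-diagonal windows of the cell `(2 n + 4, 2 n)` of `6 k + 1` in the OUT row (leads `n - 6`, `n - 3`). -/

namespace Pool.Agent.SNT.K40

open Pool.Agent.SNT Pool.Agent.SNT.Sig Pool.Agent.SNT.Loc Pool.Agent.SNT.LW Pool.Agent.SNT.NHZ Pool.Agent.SNT.DRun
open Pool.Agent.SNT.PB Pool.Agent.SNT.PV

variable {f : ℕ → ℕ → ℕ → ℕ → Prop}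

theorem run1_step_chk : check 5 5 6 5 0 1 0 1 0
    (fun j n p q => decide ((j = 4 ∧ n = 3 ∧ p = 3 ∧ q = 1)))
    (fun j n p q => decide ((j = 1 ∧ n = 2)
      ∨ (j = 1 ∧ n = 1)
      ∨ (j = 1 ∧ n = 3)
      ∨ (j = 5 ∧ n = 3 ∧ 4 ≤ p ∧ q ≤ p + 1 ∧ p ≤ q + 2)
      ∨ (j = 2 ∧ n = 2 ∧ q + 0 ≤ p ∧ p ≤ q + 1)
      ∨ (j = 3 ∧ n = 2 ∧ q + 0 ≤ p ∧ p ≤ q + 1)
      ∨ (j = 4 ∧ n = 2 ∧ q ≤ p + 1 ∧ p ≤ q + 2)
      ∨ (j = 5 ∧ n = 2 ∧ q ≤ p + 1 ∧ p ≤ q + 2)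
      ∨ (j = 4 ∧ n = 3 ∧ p = 3 ∧ q = 3)
      ∨ (j = 3 ∧ n = 3 ∧ p = 2 ∧ q = 3)))
    64
    0xc90301140001625a00cc0301170001170400ba8301058001058400cb8301168001168401ad0001af9201610001af8701af0701a08701a007019e07019d8701648701620701610f015f8701558701550701530701528701508701500701148701080701078701050700c98700c88700bd0700bc8700ba0700b98700b70700ab87008107008087008007007e87007e07007d87007b87007b07007207007187007107006f87006f07006e87006d07006c87006c07006087006007005e07005d87 = true := by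
  decide +kernel

/-- One step of the run of the column `2 n + 1` of `6 k + 2`, IN row. -/
theorem run1_step (hf : Rule f) {k c n s : ℕ} (H : PV f k c n) (hs : s % 2 = 0) (hs1 : s + 6 ≤ 2 * n) (hs2 : 2 * n + 6 ≤ s + 2 * k)
    (h0 : f (6 * k + 2) c (2 * n + 1) s) (p0 : ¬ f (6 * k + 1) c (2 * n) (s + 2)) : f (6 * k + 2) c (2 * n + 1) (s + 2) := by
  by_contra z0
  have hk := H.T.hk
  have hc := H.T.hc
  have h4' := H.T.h4
  have hb := H.T.hb
  have hN := H.T.hN2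
  obtain ⟨a0, ha0⟩ : ∃ z, z + 2 = 6 * k := ⟨6 * k - 2, by omega⟩
  obtain ⟨b0, hb0⟩ : ∃ z, z + 3 = c := ⟨c - 3, by omega⟩
  obtain ⟨x0, hx0⟩ : ∃ z, z + 2 = 2 * n := ⟨2 * n - 2, by omega⟩
  obtain ⟨y0, hy0⟩ : ∃ z, z + 1 = s := ⟨s - 1, by omega⟩
  refine check_sound hf (a0 := a0) (b0 := b0) (x0 := x0) (y0 := y0) run1_step_chk
    ⟨fun h => absurd h (by decide), fun h => absurd h (by decide), fun h => absurd h (by decide), by omega, by omega,
      by omega, by omega⟩ ?_ ?_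
  · intro j m p q hr h
    obtain ⟨-, -, -, -, hp1, hp2, hq1, hq2⟩ := hr
    replace h := of_decide_eq_true h
    obtain ⟨rfl, rfl, rfl, rfl⟩ := h
    exact mv h0 (by omega) (by omega) (by omega) (by omega)
  · intro j m p q hr h
    obtain ⟨-, -, -, -, hp1, hp2, hq1, hq2⟩ := hr
    replace h := of_decide_eq_true h
    rcases h with h | h | h | h | h | h | h | h | h | h
    · obtain ⟨rfl, rfl⟩ := h
      exact H.lw _ _ _ _ (by omega) (by omega) (by omega) (by omega) (by omega) (by omega)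
    · obtain ⟨rfl, rfl⟩ := h
      exact H.lw _ _ _ _ (by omega) (by omega) (by omega) (by omega) (by omega) (by omega)
    · obtain ⟨rfl, rfl⟩ := h
      exact H.lw _ _ _ _ (by omega) (by omega) (by omega) (by omega) (by omega) (by omega)
    · obtain ⟨rfl, rfl, h⟩ := h
      exact NHT.p0i hf H.T (j := 3) (by omega) (by omega) (by omega) (by omega) (by omega) (by omega)
    · obtain ⟨rfl, rfl, h⟩ := h
      exact fun t => NHT.rm1i hf H.T (p := 0) (j := 4) (by omega) (by omega) (by omega) (by omega) (by omega) (by omega) (mv t rfl (by omega) rfl rfl)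
    · obtain ⟨rfl, rfl, h⟩ := h
      exact fun t => NHT.rm1i hf H.T (p := 1) (j := 4) (by omega) (by omega) (by omega) (by omega) (by omega) (by omega) (mv t rfl (by omega) rfl rfl)
    · obtain ⟨rfl, rfl, h⟩ := h
      exact fun t => NHT.rm1i hf H.T (p := 0) (j := 3) (by omega) (by omega) (by omega) (by omega) (by omega) (by omega) (mv t rfl (by omega) rfl rfl)
    · obtain ⟨rfl, rfl, h⟩ := h
      exact fun t => NHT.rm1i hf H.T (p := 1) (j := 3) (by omega) (by omega) (by omega) (by omega) (by omega) (by omega) (mv t rfl (by omega) rfl rfl)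
    · obtain ⟨rfl, rfl, rfl, rfl⟩ := h
      exact fun t => z0 (mv t (by omega) (by omega) (by omega) (by omega))
    · obtain ⟨rfl, rfl, rfl, rfl⟩ := h
      exact fun t => p0 (mv t (by omega) (by omega) (by omega) (by omega))

theorem w1b2_chk : check 12 9 21 21 0 1 1 1 2
    (fun j n p q => decide ((j = 10 ∧ n = 5 ∧ q ≤ p ∧ 7 ≤ q ∧ p ≤ q + 17 ∧ (p + q) % 2 = 1 ∧ p % 2 = 1)
      ∨ (j = 10 ∧ n = 6 ∧ q ≤ p ∧ 9 ≤ q ∧ p ≤ q + 17 ∧ p = q ∧ p % 2 = 0)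
      ∨ (j = 8 ∧ n = 3 ∧ q ≤ p ∧ 3 ≤ q ∧ p ≤ q + 17 ∧ (p + q) % 2 = 1 ∧ p % 2 = 1)
      ∨ (j = 8 ∧ n = 4 ∧ q ≤ p ∧ 5 ≤ q ∧ p ≤ q + 17 ∧ p = q ∧ p % 2 = 0)
      ∨ (j = 6 ∧ n = 3 ∧ q ≤ p ∧ 14 ≤ p ∧ p ≤ q + 15 ∧ (p + q) % 2 = 1 ∧ p % 2 = 0)
      ∨ (j = 6 ∧ n = 4 ∧ q ≤ p ∧ 15 ≤ p ∧ p ≤ q + 15 ∧ p = q ∧ p % 2 = 1)
      ∨ (j = 4 ∧ n = 1 ∧ q ≤ p ∧ 6 ≤ p ∧ p ≤ q + 15 ∧ (p + q) % 2 = 1 ∧ p % 2 = 0)
      ∨ (j = 4 ∧ n = 2 ∧ q ≤ p ∧ 7 ≤ p ∧ p ≤ q + 15 ∧ p = q ∧ p % 2 = 1)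
      ∨ (j = 4 ∧ n = 3 ∧ q ≤ p ∧ 7 ≤ q ∧ p ≤ q + 15 ∧ (p + q) % 2 = 1 ∧ p % 2 = 1)
      ∨ (j = 4 ∧ n = 4 ∧ q ≤ p ∧ 9 ≤ q ∧ p ≤ q + 15 ∧ p = q ∧ p % 2 = 0)
      ∨ (j = 6 ∧ n = 1 ∧ q ≤ p ∧ p ≤ q + 15 ∧ (p + q) % 2 = 1 ∧ p % 2 = 1)
      ∨ (j = 6 ∧ n = 2 ∧ q ≤ p ∧ p ≤ q + 15 ∧ p = q ∧ p % 2 = 0)
      ∨ (j = 2 ∧ n = 1 ∧ q ≤ p ∧ p ≤ q + 15 ∧ (p + q) % 2 = 1 ∧ p % 2 = 1)
      ∨ (j = 2 ∧ n = 2 ∧ q ≤ p ∧ 3 ≤ q ∧ p ≤ q + 15 ∧ p = q ∧ p % 2 = 0)
      ∨ (j = 3 ∧ n = 7 ∧ p = 13 ∧ q = 9)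
      ∨ (j = 4 ∧ n = 1 ∧ p = 2 ∧ q = 1)
      ∨ (j = 4 ∧ n = 5 ∧ p = 10 ∧ q = 5)
      ∨ (j = 8 ∧ n = 5 ∧ p = 14 ∧ q = 13)))
    (fun j n p q => decide ((j = 10 ∧ n = 6 ∧ q ≤ p ∧ 9 ≤ q ∧ p ≤ q + 17 ∧ ¬ (p = q ∧ p % 2 = 0))
      ∨ (j = 8 ∧ n = 4 ∧ q ≤ p ∧ 5 ≤ q ∧ p ≤ q + 17 ∧ ¬ (p = q ∧ p % 2 = 0))
      ∨ (j = 6 ∧ n = 4 ∧ q ≤ p ∧ 15 ≤ p ∧ p ≤ q + 15 ∧ ¬ (p = q ∧ p % 2 = 1))
      ∨ (j = 4 ∧ n = 2 ∧ q ≤ p ∧ 7 ≤ p ∧ p ≤ q + 15 ∧ ¬ (p = q ∧ p % 2 = 1))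
      ∨ (j = 4 ∧ n = 3 ∧ q ≤ p ∧ 7 ≤ q ∧ p ≤ q + 15 ∧ ¬ ((p + q) % 2 = 1 ∧ p % 2 = 1))
      ∨ (j = 4 ∧ n = 4 ∧ q ≤ p ∧ 9 ≤ q ∧ p ≤ q + 15 ∧ ¬ (p = q ∧ p % 2 = 0))
      ∨ (j = 6 ∧ n = 2 ∧ q ≤ p ∧ p ≤ q + 15 ∧ ¬ (p = q ∧ p % 2 = 0))
      ∨ (j = 2 ∧ n = 2 ∧ q ≤ p ∧ 3 ≤ q ∧ p ≤ q + 15 ∧ ¬ (p = q ∧ p % 2 = 0))
      ∨ (j = 1 ∧ n = 2 ∧ q ≤ p)
      ∨ (j = 1 ∧ n = 3 ∧ q ≤ p)
      ∨ (j = 1 ∧ n = 4 ∧ q ≤ p)
      ∨ (j = 1 ∧ n = 5 ∧ q ≤ p)
      ∨ (j = 1 ∧ n = 6 ∧ q ≤ p)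
      ∨ (j = 1 ∧ n = 7 ∧ q ≤ p)
      ∨ (j = 2 ∧ n = 4 ∧ 4 ≤ q ∧ q + 4 ≤ p ∧ p ≤ q + 11)
      ∨ (j = 3 ∧ n = 2 ∧ q + 3 ≤ p ∧ p ≤ q + 12)
      ∨ (j = 3 ∧ n = 3 ∧ 3 ≤ q ∧ q + 3 ≤ p ∧ p ≤ q + 12)
      ∨ (j = 3 ∧ n = 4 ∧ 7 ≤ q ∧ q + 4 ≤ p ∧ p ≤ q + 11)
      ∨ (j = 3 ∧ n = 5 ∧ 7 ≤ q ∧ q + 4 ≤ p ∧ p ≤ q + 11)
      ∨ (j = 4 ∧ n = 2 ∧ q + 2 ≤ p ∧ p ≤ q + 13)
      ∨ (j = 4 ∧ n = 4 ∧ 4 ≤ q ∧ q + 3 ≤ p ∧ p ≤ q + 12)
      ∨ (j = 4 ∧ n = 6 ∧ 8 ≤ q ∧ q + 4 ≤ p ∧ p ≤ q + 11)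
      ∨ (j = 5 ∧ n = 2 ∧ q + 2 ≤ p ∧ p ≤ q + 13)
      ∨ (j = 5 ∧ n = 3 ∧ 3 ≤ q ∧ q + 2 ≤ p ∧ p ≤ q + 13)
      ∨ (j = 5 ∧ n = 4 ∧ 4 ≤ q ∧ q + 3 ≤ p ∧ p ≤ q + 12)
      ∨ (j = 5 ∧ n = 5 ∧ 11 ≤ p ∧ q + 4 ≤ p ∧ p ≤ q + 11)
      ∨ (j = 5 ∧ n = 5 ∧ 7 ≤ q ∧ q + 3 ≤ p ∧ p ≤ q + 12)
      ∨ (j = 6 ∧ n = 4 ∧ 4 ≤ q ∧ q + 2 ≤ p ∧ p ≤ q + 13)
      ∨ (j = 6 ∧ n = 6 ∧ 8 ≤ q ∧ q + 3 ≤ p ∧ p ≤ q + 12)
      ∨ (j = 7 ∧ n = 2 ∧ q + 1 ≤ p ∧ p ≤ q + 14)
      ∨ (j = 7 ∧ n = 3 ∧ 3 ≤ q ∧ q + 1 ≤ p ∧ p ≤ q + 14)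
      ∨ (j = 7 ∧ n = 4 ∧ 7 ≤ q ∧ q + 2 ≤ p ∧ p ≤ q + 13)
      ∨ (j = 7 ∧ n = 5 ∧ 7 ≤ q ∧ q + 2 ≤ p ∧ p ≤ q + 13)
      ∨ (j = 7 ∧ n = 6 ∧ 13 ≤ q ∧ q + 3 ≤ p ∧ p ≤ q + 12)
      ∨ (j = 7 ∧ n = 7 ∧ 13 ≤ q ∧ q + 3 ≤ p ∧ p ≤ q + 12)
      ∨ (j = 8 ∧ n = 6 ∧ 8 ≤ q ∧ q + 2 ≤ p ∧ p ≤ q + 13)
      ∨ (j = 9 ∧ n = 4 ∧ 7 ≤ q ∧ q + 1 ≤ p ∧ p ≤ q + 14)
      ∨ (j = 9 ∧ n = 5 ∧ 7 ≤ q ∧ q + 1 ≤ p ∧ p ≤ q + 14)
      ∨ (j = 9 ∧ n = 6 ∧ 13 ≤ q ∧ q + 2 ≤ p ∧ p ≤ q + 13)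
      ∨ (j = 9 ∧ n = 7 ∧ 13 ≤ q ∧ q + 2 ≤ p ∧ p ≤ q + 13)
      ∨ (j = 11 ∧ n = 6 ∧ 13 ≤ q ∧ q + 1 ≤ p ∧ p ≤ q + 14)
      ∨ (j = 11 ∧ n = 7 ∧ 13 ≤ q ∧ q + 1 ≤ p ∧ p ≤ q + 14)))
    804
    0x21e4032a81802a8c9a2c7c8324a6002c66c21ce58524b10024a6422c7cda2c66802c66842d59802d63802d5a0a2d6e1225a30e24a60324b10024bc1a25990025a30025a30e25a3041ce50e1524831ce5001ce50424b20e2b960324b20024b20425840025a20025840125a2011cfa8e153a031cfa801cfa8424bb8e25a2052d6d8025a2012d6e0a24bb8024bb841dc38e1603031dc3801dc38423be0023b40023be0123b40122cc0022cc0425ad0e153a031cfa8025a27225ad0025ad041cfa0e1539831cfa001cfa0424c58e2ba98324c58024c5841b2c831c09001c090421e40322c10022c104143d831bfe001bfe04298e8321d90021d9041c1e8e2baa831c1e801c1e841bfd0e143c831bfd001bfd041a44031360001360042c918e3cfa032c91802c9184151a031cda801cda8424b28e2b960324b28024b28424a70e1b2c831c090023ca4a24a70024a704391a83298e80298e841bfd8e143d031bfd801bf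d842d6e0e3b4103345d003cfa622d6e002d6e042c870e2baa832c87002c8704391a8328b20028b2043a18832a8c802a8c841a0e8e124e031a0e801a0e844c7b033cef003cef044c860344ba0044ba0425a28e1539831cfa0025a27a25a28025a28444c50544ba004c864a4c7b4a3cef803cef8424ba8e23de0324ba8024ba841d048e1467831d04801d04842ba9831b41001b41042b9f0e2b94832b9f002b9f041b42831c1f001c1f041b228e1a46031b22801b228424d10e2baa8324d10024d1041b208e1a44031b20801b20841b2c0e136b831b2c001b2c041530031cf0801cf08424c68e2baa8324c68024c6841453831c14001c14043b36832baa802baa843a0e0e4a76833a0e003a0e041c088e1448031c08801c08841b0c0e134b831b0c001b0c041b16831bf3001bf3042c728e2b96032c72802c728413608e1a44831360801360841ce70e1526831ce7001ce7041be88e1428031be8801be8843b3683345280345284134a8e126e03134a80134a841dd70e1616031dd7001dd70413410e126403134100134104343e0e3b2203343e00343e043bfe8e3b22033bfe803bfe841a0f0e124e031a0f001a0f04143f83151c00151c0433620e3b38033362003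362045bfc834c70804c70844c86033cfa003cfa041b180e127b031b18001b18042a8c0e1258031a230021eeda21f90029ba4a2a8c002a8c0413628e1a46031362801362842c910e2b94832b9f002baa1a2c91002c910422cb8e1258031a230021eeda21f90029ba4a22cb8022cb842baa0e3b36032baa002baa043b41033c1d803c1d8443d400239f0020dc004b94c242e20031a80023bd0023bd0e221c0022070022060021f000289cc21fea001dae0010cc0010b700536000534a005278004a808e4a800e49a40e49a38e42ec0042ec0e42100041e40041e38e41e30e41ce0040fc003b4c0e3b4b8e3b410e3b360e3b358e3b2b0e3a6f8e3a6f0e3a648e3a598e3a590e3a4e8e32af0e32ae8e32a40e329a0032990e32988e328e0e31b20031b20e3094003068002f96002ba98e2acd0e24c50e2b885223bc00230e00230d0e230c8e23020e22f80022f78e22f70e22e20022e18e22260022260e22250022250e22100022100e220f0021fa0021fa0e2108002036002020001ff4001ff40e1dd6001dd60e1a598e197d0e138b0e138a8e13800e11be0011bd0e11bc8e11bc0e11b20e11b18e11a80011920011918e11910e117c00117b8e117b0e11660010d60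e10d50e10c00010bf0010aa0010a9001094000e608e0e600e0e560e0e558e0d840e0d838e0d798e0d790e0d6f0e0d590e0ca78e0ca70e0ca68e0c9d0e0c9c8e0c9c0e0c928e0c7c8e0c718e0c710e0c668e0bca8e0bca0e0bc00e0bbf8e0bb60e0ba00e0b950e0b948e0b8a0e0ad88e0ad80e0ace0e0acd8e0ab88e0ab80e0aad8e0aad0e0aa28e0a978e0a970e0a8c8e09fc0e09fb8e09f18e09f10e09d10e09d08e09c60e09bb0e09ba8e09b00e5bfc875bfc075bf1875b20075b1f875b150754318753600f535f87535f07535507535487534a0f52780f4c86074c85874c7b074c7a874c70074ba9874ba9074b9e874b9e074b93874ab7874a80874a800749a40749a38744c58744af8743e90743e88743de0743dd8743d30742f78742ec0f42b58742100f41e40f41e38741e30741d90741ce0f40fc0f3cf9873c1d073b4c073b4b873b41073b40873b36073b35873b2b073a6f873a6f073a64873a64073a59873a59073a4e87393b87391a87391a07390f87383e07383d87383307352e87345c8733778733758733618732af0732ae8732a40732a387329a0f329987329907329887328e0731b20f317b87314f8730940f307d87307d07307307307287306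80f2f960f2ba9872ba9072b9e872b88072b87872b7d872acd072acc872ac2072aab872aab072aa1072aa08729ba0729b98729af07298e0728dd8728dd0728d28728b18725ad8725998725978725838724c50723df8723de8723dd8723ca8723c98723c78723bc0f23b387230e0f230d87230d07230c87230c0723030723028723020723018723010722f80f22f78722f70722f68722ed0722ec8722eb0722ea8722e20f22e18722e08722e00722d70722260f22250f22100f220f0f21fa0f21f98721ef8721ef0721e48721e38721cd87211d07211c8721128721120721118721080f21078721070720f10720360f20200f1fff871ff40f1dd60f1c1d071b40871a59871a43871a2d87197d07196707195107161587160287145d87145c87144987144887144787143487143287143187141d87138b07138a8713800712a587128f87128e87127a87127987127887126487126387124d8711be0f11bd0711bc8711bc0711b20711b18711a80f11a78711a70711a687119d07119c87119c0711920f119187119107118707118687117c0f117b87117b0711710711708711660f10d60f10d50f10c00f10bf0f10aa0f10a90f10940f0e60870e60070e56070e55870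e55070e4b070e4a870d84070d83870d79870d79070d78870d6f870d6f070d6e870d6e070d64870d64070d63870d59870d59070d4e870ca7870ca7070ca6870c9d070c9c870c9c070c93070c92870c92070c91870c88070c87870c87070c7d070c7c870c7c070c7b870c72070c71870c71070c67070c66870bca870bca070bc0070bbf870bb6870bb6070bab870bab070baa870ba0870ba0070b9f870b9f070b95870b95070b94870b8a870b8a070ad8870ad8070ace870ace070acd870ac4070ac3870ab8870ab8070aae070aad870aad070aa3070aa2870a97870a97070a8d070a8c8709fc0709fb8709f18709f10709d10709d08709c68709c60709bb0709ba8709b08709b007 = true := by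
  decide +kernel

theorem w1b2 (hf : Rule f) {k c n : ℕ} (H : PV f k c n)
    (g : f (6 * k + 1) (c + 2) (2 * n + 4) (2 * n)) (t0 : f (6 * k + 2) (c - 4) (2 * n - 7) (2 * n - 8)) (a1 : f (6 * k + 2) (c) (2 * n + 1) (2 * n - 4)) (b2 : f (6 * k + 6) (c) (2 * n + 5) (2 * n + 4)) : False := by
  have hk := H.T.hk
  have hc := H.T.hc
  have h4' := H.T.h4
  have hb := H.T.hb
  have hN := H.T.hN2
  obtain ⟨a0, ha0⟩ : ∃ z, z + 2 = 6 * k := ⟨6 * k - 2, by omega⟩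
  obtain ⟨b0, hb0⟩ : ∃ z, z + 5 = c := ⟨c - 5, by omega⟩
  obtain ⟨x0, hx0⟩ : ∃ z, z + 9 = 2 * n := ⟨2 * n - 9, by omega⟩
  refine check_sound hf (a0 := a0) (b0 := b0) (x0 := x0) (y0 := x0) w1b2_chk
    ⟨fun _ => rfl, fun h => absurd h (by decide), fun h => absurd h (by decide), by omega, by omega,
      by omega, by omega⟩ ?_ ?_
  · intro j m p q hr h
    obtain ⟨-, -, -, -, hp1, hp2, hq1, hq2⟩ := hr
    replace h := of_decide_eq_true h
    rcases h with h | h | h | h | h | h | h | h | h | h | h | h | h | h | h | h | h | h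
    · obtain ⟨rfl, rfl, h⟩ := h
      exact (NW.w2v H.c8 (by omega) (by omega) (by omega) (by omega) (by omega) (by omega) (by omega)).mpr (by omega)
    · obtain ⟨rfl, rfl, h⟩ := h
      exact (NW.w3v H.c8 (by omega) (by omega) (by omega) (by omega) (by omega) (by omega) (by omega) (by omega)).mpr (by omega)
    · obtain ⟨rfl, rfl, h⟩ := h
      exact (WrapC.v2 H.c6 (by omega) (by omega) (by omega) (by omega) (by omega) (by omega) (by omega)).mpr (by omega)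
    · obtain ⟨rfl, rfl, h⟩ := h
      exact (WrapC.v3 H.c6 (by omega) (by omega) (by omega) (by omega) (by omega) (by omega) (by omega) (by omega)).mpr (by omega)
    · obtain ⟨rfl, rfl, h⟩ := h
      exact (WrapC.v0 H.c4 (by omega) (by omega) (by omega) (by omega) (by omega) (by omega) (by omega)).mpr (by omega)
    · obtain ⟨rfl, rfl, h⟩ := h
      exact (WrapC.v1 H.c4 (by omega) (by omega) (by omega) (by omega) (by omega) (by omega) (by omega) (by omega)).mpr (by omega)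
    · obtain ⟨rfl, rfl, h⟩ := h
      exact (WrapC.v0 H.c2 (by omega) (by omega) (by omega) (by omega) (by omega) (by omega) (by omega)).mpr (by omega)
    · obtain ⟨rfl, rfl, h⟩ := h
      exact (WrapC.v1 H.c2 (by omega) (by omega) (by omega) (by omega) (by omega) (by omega) (by omega) (by omega)).mpr (by omega)
    · obtain ⟨rfl, rfl, h⟩ := h
      exact (WrapC.v2 H.c2 (by omega) (by omega) (by omega) (by omega) (by omega) (by omega) (by omega)).mpr (by omega)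
    · obtain ⟨rfl, rfl, h⟩ := h
      exact (WrapC.v3 H.c2 (by omega) (by omega) (by omega) (by omega) (by omega) (by omega) (by omega) (by omega)).mpr (by omega)
    · obtain ⟨rfl, rfl, h⟩ := h
      exact (WrapC.v2 H.c4a (by omega) (by omega) (by omega) (by omega) (by omega) (by omega) (by omega)).mpr (by omega)
    · obtain ⟨rfl, rfl, h⟩ := h
      exact (WrapC.v3 H.c4a (by omega) (by omega) (by omega) (by omega) (by omega) (by omega) (by omega) (by omega)).mpr (by omega)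
    · obtain ⟨rfl, rfl, h⟩ := h
      exact (WrapC.v2 H.c0 (by omega) (by omega) (by omega) (by omega) (by omega) (by omega) (by omega)).mpr (by omega)
    · obtain ⟨rfl, rfl, h⟩ := h
      exact (WrapC.v3 H.c0 (by omega) (by omega) (by omega) (by omega) (by omega) (by omega) (by omega) (by omega)).mpr (by omega)
    · obtain ⟨rfl, rfl, rfl, rfl⟩ := h
      exact mv g (by omega) (by omega) (by omega) (by omega)
    · obtain ⟨rfl, rfl, rfl, rfl⟩ := h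
      exact mv t0 (by omega) (by omega) (by omega) (by omega)
    · obtain ⟨rfl, rfl, rfl, rfl⟩ := h
      exact mv a1 (by omega) (by omega) (by omega) (by omega)
    · obtain ⟨rfl, rfl, rfl, rfl⟩ := h
      exact mv b2 (by omega) (by omega) (by omega) (by omega)
  · intro j m p q hr h
    obtain ⟨-, -, -, -, hp1, hp2, hq1, hq2⟩ := hr
    replace h := of_decide_eq_true h
    rcases h with h | h | h | h | h | h | h | h | h | h | h | h | h | h | h | h | h | h | h | h | h | h | h | h | h | h | h | h | h | h | h | h | h | h | h | h | h | h | h | h | h | h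
    · obtain ⟨rfl, rfl, h⟩ := h
      exact mt (NW.w3v H.c8 (by omega) (by omega) (by omega) (by omega) (by omega) (by omega) (by omega) (by omega)).mp (by omega)
    · obtain ⟨rfl, rfl, h⟩ := h
      exact mt (WrapC.v3 H.c6 (by omega) (by omega) (by omega) (by omega) (by omega) (by omega) (by omega) (by omega)).mp (by omega)
    · obtain ⟨rfl, rfl, h⟩ := h
      exact mt (WrapC.v1 H.c4 (by omega) (by omega) (by omega) (by omega) (by omega) (by omega) (by omega) (by omega)).mp (by omega)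
    · obtain ⟨rfl, rfl, h⟩ := h
      exact mt (WrapC.v1 H.c2 (by omega) (by omega) (by omega) (by omega) (by omega) (by omega) (by omega) (by omega)).mp (by omega)
    · obtain ⟨rfl, rfl, h⟩ := h
      exact mt (WrapC.v2 H.c2 (by omega) (by omega) (by omega) (by omega) (by omega) (by omega) (by omega)).mp (by omega)
    · obtain ⟨rfl, rfl, h⟩ := h
      exact mt (WrapC.v3 H.c2 (by omega) (by omega) (by omega) (by omega) (by omega) (by omega) (by omega) (by omega)).mp (by omega)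
    · obtain ⟨rfl, rfl, h⟩ := h
      exact mt (WrapC.v3 H.c4a (by omega) (by omega) (by omega) (by omega) (by omega) (by omega) (by omega) (by omega)).mp (by omega)
    · obtain ⟨rfl, rfl, h⟩ := h
      exact mt (WrapC.v3 H.c0 (by omega) (by omega) (by omega) (by omega) (by omega) (by omega) (by omega) (by omega)).mp (by omega)
    · obtain ⟨rfl, rfl, h⟩ := h
      exact H.lw _ _ _ _ (by omega) (by omega) (by omega) (by omega) (by omega) (by omega)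
    · obtain ⟨rfl, rfl, h⟩ := h
      exact H.lw _ _ _ _ (by omega) (by omega) (by omega) (by omega) (by omega) (by omega)
    · obtain ⟨rfl, rfl, h⟩ := h
      exact H.lw _ _ _ _ (by omega) (by omega) (by omega) (by omega) (by omega) (by omega)
    · obtain ⟨rfl, rfl, h⟩ := h
      exact H.lw _ _ _ _ (by omega) (by omega) (by omega) (by omega) (by omega) (by omega)
    · obtain ⟨rfl, rfl, h⟩ := h
      exact H.lw _ _ _ _ (by omega) (by omega) (by omega) (by omega) (by omega) (by omega)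
    · obtain ⟨rfl, rfl, h⟩ := h
      exact H.lw _ _ _ _ (by omega) (by omega) (by omega) (by omega) (by omega) (by omega)
    · obtain ⟨rfl, rfl, h⟩ := h
      exact fun t => NHT.rm1 hf H.T (p := 0) (j := 3) (by omega) (by omega) (by omega) (by omega) (by omega) (by omega) (mv t rfl (by omega) rfl rfl)
    · obtain ⟨rfl, rfl, h⟩ := h
      exact NHT.rOut hf H.T (t := 2) (p := 1) (j := 2) (by omega) (by omega) (by omega) (by omega) (by omega) (by omega) (by omega) (by omega)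
    · obtain ⟨rfl, rfl, h⟩ := h
      exact NHT.pm hf H.T (j := 2) (by omega) (by omega) (by omega) (by omega) (by omega) (by omega)
    · obtain ⟨rfl, rfl, h⟩ := h
      exact NHT.p0 hf H.T (j := 3) (by omega) (by omega) (by omega) (by omega) (by omega) (by omega)
    · obtain ⟨rfl, rfl, h⟩ := h
      exact NHT.p0 hf H.T (j := 3) (by omega) (by omega) (by omega) (by omega) (by omega) (by omega)
    · obtain ⟨rfl, rfl, h⟩ := h
      exact NHT.rOut hf H.T (t := 2) (p := 0) (j := 1) (by omega) (by omega) (by omega) (by omega) (by omega) (by omega) (by omega) (by omega)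
    · obtain ⟨rfl, rfl, h⟩ := h
      exact fun t => NHT.rm1 hf H.T (p := 0) (j := 2) (by omega) (by omega) (by omega) (by omega) (by omega) (by omega) (mv t rfl (by omega) rfl rfl)
    · obtain ⟨rfl, rfl, h⟩ := h
      exact fun t => NHT.r1 hf H.T (p := 0) (j := 3) (by omega) (by omega) (by omega) (by omega) (by omega) (by omega) (mv t rfl (by omega) rfl rfl)
    · obtain ⟨rfl, rfl, h⟩ := h
      exact NHT.rOut hf H.T (t := 2) (p := 1) (j := 1) (by omega) (by omega) (by omega) (by omega) (by omega) (by omega) (by omega) (by omega)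
    · obtain ⟨rfl, rfl, h⟩ := h
      exact NHT.pm hf H.T (j := 1) (by omega) (by omega) (by omega) (by omega) (by omega) (by omega)
    · obtain ⟨rfl, rfl, h⟩ := h
      exact fun t => NHT.rm1 hf H.T (p := 1) (j := 2) (by omega) (by omega) (by omega) (by omega) (by omega) (by omega) (mv t rfl (by omega) rfl rfl)
    · obtain ⟨rfl, rfl, h⟩ := h
      exact NHT.p0i hf H.T (j := 3) (by omega) (by omega) (by omega) (by omega) (by omega) (by omega)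
    · obtain ⟨rfl, rfl, h⟩ := h
      exact NHT.p0 hf H.T (j := 2) (by omega) (by omega) (by omega) (by omega) (by omega) (by omega)
    · obtain ⟨rfl, rfl, h⟩ := h
      exact fun t => NHT.rm1 hf H.T (p := 0) (j := 1) (by omega) (by omega) (by omega) (by omega) (by omega) (by omega) (mv t rfl (by omega) rfl rfl)
    · obtain ⟨rfl, rfl, h⟩ := h
      exact fun t => NHT.r1 hf H.T (p := 0) (j := 2) (by omega) (by omega) (by omega) (by omega) (by omega) (by omega) (mv t rfl (by omega) rfl rfl)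
    · obtain ⟨rfl, rfl, h⟩ := h
      exact NHT.rOut hf H.T (t := 2) (p := 1) (j := 0) (by omega) (by omega) (by omega) (by omega) (by omega) (by omega) (by omega) (by omega)
    · obtain ⟨rfl, rfl, h⟩ := h
      exact NHT.pm hf H.T (j := 0) (by omega) (by omega) (by omega) (by omega) (by omega) (by omega)
    · obtain ⟨rfl, rfl, h⟩ := h
      exact NHT.p0 hf H.T (j := 1) (by omega) (by omega) (by omega) (by omega) (by omega) (by omega)
    · obtain ⟨rfl, rfl, h⟩ := h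
      exact NHT.p0 hf H.T (j := 1) (by omega) (by omega) (by omega) (by omega) (by omega) (by omega)
    · obtain ⟨rfl, rfl, h⟩ := h
      exact NHT.p2 hf H.T (j := 2) (by omega) (by omega) (by omega) (by omega) (by omega) (by omega)
    · obtain ⟨rfl, rfl, h⟩ := h
      exact NHT.p2 hf H.T (j := 2) (by omega) (by omega) (by omega) (by omega) (by omega) (by omega)
    · obtain ⟨rfl, rfl, h⟩ := h
      exact fun t => NHT.r1 hf H.T (p := 0) (j := 1) (by omega) (by omega) (by omega) (by omega) (by omega) (by omega) (mv t rfl (by omega) rfl rfl)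
    · obtain ⟨rfl, rfl, h⟩ := h
      exact NHT.p0 hf H.T (j := 0) (by omega) (by omega) (by omega) (by omega) (by omega) (by omega)
    · obtain ⟨rfl, rfl, h⟩ := h
      exact NHT.p0 hf H.T (j := 0) (by omega) (by omega) (by omega) (by omega) (by omega) (by omega)
    · obtain ⟨rfl, rfl, h⟩ := h
      exact NHT.p2 hf H.T (j := 1) (by omega) (by omega) (by omega) (by omega) (by omega) (by omega)
    · obtain ⟨rfl, rfl, h⟩ := h
      exact NHT.p2 hf H.T (j := 1) (by omega) (by omega) (by omega) (by omega) (by omega) (by omega)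
    · obtain ⟨rfl, rfl, h⟩ := h
      exact NHT.p2 hf H.T (j := 0) (by omega) (by omega) (by omega) (by omega) (by omega) (by omega)
    · obtain ⟨rfl, rfl, h⟩ := h
      exact NHT.p2 hf H.T (j := 0) (by omega) (by omega) (by omega) (by omega) (by omega) (by omega)

theorem w2b2_chk : check 12 9 21 21 0 1 1 1 2
    (fun j n p q => decide ((j = 10 ∧ n = 5 ∧ q ≤ p ∧ 7 ≤ q ∧ p ≤ q + 17 ∧ (p + q) % 2 = 1 ∧ p % 2 = 1)
      ∨ (j = 10 ∧ n = 6 ∧ q ≤ p ∧ 9 ≤ q ∧ p ≤ q + 17 ∧ p = q ∧ p % 2 = 0)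
      ∨ (j = 8 ∧ n = 4 ∧ q ≤ p ∧ 5 ≤ q ∧ p ≤ q + 17 ∧ p = q ∧ p % 2 = 0)
      ∨ (j = 6 ∧ n = 3 ∧ q ≤ p ∧ 14 ≤ p ∧ p ≤ q + 15 ∧ (p + q) % 2 = 1 ∧ p % 2 = 0)
      ∨ (j = 4 ∧ n = 3 ∧ q ≤ p ∧ 7 ≤ q ∧ p ≤ q + 15 ∧ (p + q) % 2 = 1 ∧ p % 2 = 1)
      ∨ (j = 4 ∧ n = 4 ∧ q ≤ p ∧ 9 ≤ q ∧ p ≤ q + 15 ∧ p = q ∧ p % 2 = 0)
      ∨ (j = 2 ∧ n = 2 ∧ q ≤ p ∧ 3 ≤ q ∧ p ≤ q + 15 ∧ p = q ∧ p % 2 = 0)
      ∨ (j = 3 ∧ n = 7 ∧ p = 13 ∧ q = 9)
      ∨ (j = 4 ∧ n = 5 ∧ p = 12 ∧ q = 11)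
      ∨ (j = 8 ∧ n = 5 ∧ p = 14 ∧ q = 13)))
    (fun j n p q => decide ((j = 10 ∧ n = 6 ∧ q ≤ p ∧ 9 ≤ q ∧ p ≤ q + 17 ∧ ¬ (p = q ∧ p % 2 = 0))
      ∨ (j = 6 ∧ n = 4 ∧ q ≤ p ∧ 15 ≤ p ∧ p ≤ q + 15 ∧ ¬ (p = q ∧ p % 2 = 1))
      ∨ (j = 4 ∧ n = 4 ∧ q ≤ p ∧ 9 ≤ q ∧ p ≤ q + 15 ∧ ¬ (p = q ∧ p % 2 = 0))
      ∨ (j = 2 ∧ n = 2 ∧ q ≤ p ∧ 3 ≤ q ∧ p ≤ q + 15 ∧ ¬ (p = q ∧ p % 2 = 0))
      ∨ (j = 1 ∧ n = 2 ∧ q ≤ p)
      ∨ (j = 1 ∧ n = 3 ∧ q ≤ p)
      ∨ (j = 1 ∧ n = 4 ∧ q ≤ p)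
      ∨ (j = 1 ∧ n = 5 ∧ q ≤ p)
      ∨ (j = 1 ∧ n = 6 ∧ q ≤ p)
      ∨ (j = 1 ∧ n = 7 ∧ q ≤ p)
      ∨ (j = 2 ∧ n = 6 ∧ 8 ≤ q ∧ q + 5 ≤ p ∧ p ≤ q + 10)
      ∨ (j = 3 ∧ n = 4 ∧ 7 ≤ q ∧ q + 4 ≤ p ∧ p ≤ q + 11)
      ∨ (j = 3 ∧ n = 5 ∧ 7 ≤ q ∧ q + 4 ≤ p ∧ p ≤ q + 11)
      ∨ (j = 4 ∧ n = 6 ∧ 8 ≤ q ∧ q + 4 ≤ p ∧ p ≤ q + 11)
      ∨ (j = 5 ∧ n = 4 ∧ 7 ≤ q ∧ q + 3 ≤ p ∧ p ≤ q + 12)
      ∨ (j = 5 ∧ n = 5 ∧ 7 ≤ q ∧ q + 3 ≤ p ∧ p ≤ q + 12)
      ∨ (j = 6 ∧ n = 4 ∧ 4 ≤ q ∧ q + 2 ≤ p ∧ p ≤ q + 13)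
      ∨ (j = 6 ∧ n = 6 ∧ 8 ≤ q ∧ q + 3 ≤ p ∧ p ≤ q + 12)
      ∨ (j = 7 ∧ n = 4 ∧ 7 ≤ q ∧ q + 2 ≤ p ∧ p ≤ q + 13)
      ∨ (j = 7 ∧ n = 5 ∧ 7 ≤ q ∧ q + 2 ≤ p ∧ p ≤ q + 13)
      ∨ (j = 7 ∧ n = 6 ∧ 13 ≤ q ∧ q + 3 ≤ p ∧ p ≤ q + 12)
      ∨ (j = 7 ∧ n = 7 ∧ 13 ≤ q ∧ q + 3 ≤ p ∧ p ≤ q + 12)
      ∨ (j = 8 ∧ n = 6 ∧ 8 ≤ q ∧ q + 2 ≤ p ∧ p ≤ q + 13)
      ∨ (j = 9 ∧ n = 5 ∧ 7 ≤ q ∧ q + 1 ≤ p ∧ p ≤ q + 14)
      ∨ (j = 9 ∧ n = 6 ∧ 13 ≤ q ∧ q + 2 ≤ p ∧ p ≤ q + 13)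
      ∨ (j = 9 ∧ n = 7 ∧ 13 ≤ q ∧ q + 2 ≤ p ∧ p ≤ q + 13)
      ∨ (j = 11 ∧ n = 6 ∧ 13 ≤ q ∧ q + 1 ≤ p ∧ p ≤ q + 14)
      ∨ (j = 11 ∧ n = 7 ∧ 13 ≤ q ∧ q + 1 ≤ p ∧ p ≤ q + 14)))
    399
    0x24bc0325a3002d6e5223ea0023e9002baac22baa4a24bc0325a3002d6e5223e98023e98424bd0e2ba08324bd0024bd041cfb0e153a831cfb001cfb0425a20025a2011cdc8e151c031cdc801cdc84258e8e151c031cdc80258472258e80258e842d5a0e4c67033cdb003ce61a2d5a002d5a044c7203449c00449c041c1e8e145e031c1e801c1e841530031cf0801cf08424ba8e1299031b360023de7a24ba8024ba842baa832c91802c91841bff8e2b8b831bff801bff841382031c1f001c1f041b230e2b8b831b23001b23042c7c832d63802d63841ce70e1526831ce7001ce7044c72033ce6003ce604345d0e3b4103345d00345d041453831c14001c14043cef8e44c50544ba004c864a4c7b4a3cef803cef842c7d0e2c7c832c7d002c7d0424a78e2b8b8324a78024a7842c728e2b96032c72802c72844c708e5bfc834c70804c70843c1d8e3b41033c1d803c1d843b22033bfe803bfe841dc30e15f8031dc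3001dc3041cfa0e1539831cfa001cfa042baa032c91002c91043b2c833448803448843b2203343e00343e042b960e3b22032b96002b96043b36032baa002baa0124d08024d0842baa8e3b36832baa802baa841cfa8e153a031cfa801cfa841de18e1621031de1801de18443d4004b94c242e20031a80023ca00221c002207001dae00536000534a005278004c860e4c858e4c7b0e4c7a8e4c700e4ba98e4ba90e4b9e8e4b9e0e4b938e43e90e43e88e43de0e43dd8e43d30e42ec0042ec0e4210003cf98e3c1d0e3b360e3b358e3b2b0e3a598e3a590e3a4e8e345c8e32998e32990e32988e328e0e31b20031b20e2ba98e2ba90e2b9e8e2acd0e2acc8e2ac20e24c50e23d40023d40e230d8e230d0e230c8e230c0e23020e23018e22f80022260022260e22250022250e1dd6001dd60e15438e11be000e558e0e550e0e4b0e0e4a8e0d840e0d838e0d830e0d798e0d790e0d788e0d6f0e0d6e8e0d6e0e0ca78e0ca70e0ca68e0c9d0e0c9c8e0c9c0e0c928e0bc10e0bb60e0ae48e5bfc875bfc075bf1875b20075b1f875b150754318753600f535f87535f07535507535487534a0f52780f4c86074c85874c7b074c7a874c70074ba9874ba9074b9e874b9e074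b93874ab78744c58744b18744af87449b8743e90743e88743de0743dd8743d30742f78742ec0f42100f3cf9873c1d073b41073b40873b36073b35873b2b073a64873a64073a59873a59073a4e87351a87345c8733758733618732a40732a387329987329907329887328e0731b20f2ba9872ba9072b9e872acd072acc872ac20725ad8725978725838724c50723df8723de8723dd8723d40f23ca87230d87230d07230c87230c0723030723028723020723018723010722f80f22f70722f68722260f22250f1dd60f1c1d071b408716168715ed87154387145d87145c8714498714488714348712a587128e8711be0f11bc8711bc0711b20711b1870e60870e60070e56070e55870e55070e4b070e4a870d84070d83870d83070d7a070d79870d79070d78870d6f870d6f070d6e870d6e070d64870ca7870ca7070ca6870c9d870c9d070c9c870c9c070c93070c92870c92070c91870c88070bc1870bc1070bc0870bb6870bb6070bab870ae5070ae4870ada070ad8870ad8070ace070acd8709fc0709fb8709f18709f107 = true := by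
  decide +kernel

theorem w2b2 (hf : Rule f) {k c n : ℕ} (H : PV f k c n)
    (g : f (6 * k + 1) (c + 2) (2 * n + 4) (2 * n)) (t0 : f (6 * k + 2) (c - 4) (2 * n - 7) (2 * n - 8)) (a2 : f (6 * k + 2) (c) (2 * n + 3) (2 * n + 2)) (b2 : f (6 * k + 6) (c) (2 * n + 5) (2 * n + 4)) : False := by
  have hk := H.T.hk
  have hc := H.T.hc
  have h4' := H.T.h4
  have hb := H.T.hb
  have hN := H.T.hN2
  obtain ⟨a0, ha0⟩ : ∃ z, z + 2 = 6 * k := ⟨6 * k - 2, by omega⟩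
  obtain ⟨b0, hb0⟩ : ∃ z, z + 5 = c := ⟨c - 5, by omega⟩
  obtain ⟨x0, hx0⟩ : ∃ z, z + 9 = 2 * n := ⟨2 * n - 9, by omega⟩
  refine check_sound hf (a0 := a0) (b0 := b0) (x0 := x0) (y0 := x0) w2b2_chk
    ⟨fun _ => rfl, fun h => absurd h (by decide), fun h => absurd h (by decide), by omega, by omega,
      by omega, by omega⟩ ?_ ?_
  · intro j m p q hr h
    obtain ⟨-, -, -, -, hp1, hp2, hq1, hq2⟩ := hr
    replace h := of_decide_eq_true h
    rcases h with h | h | h | h | h | h | h | h | h | h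
    · obtain ⟨rfl, rfl, h⟩ := h
      exact (NW.w2v H.c8 (by omega) (by omega) (by omega) (by omega) (by omega) (by omega) (by omega)).mpr (by omega)
    · obtain ⟨rfl, rfl, h⟩ := h
      exact (NW.w3v H.c8 (by omega) (by omega) (by omega) (by omega) (by omega) (by omega) (by omega) (by omega)).mpr (by omega)
    · obtain ⟨rfl, rfl, h⟩ := h
      exact (WrapC.v3 H.c6 (by omega) (by omega) (by omega) (by omega) (by omega) (by omega) (by omega) (by omega)).mpr (by omega)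
    · obtain ⟨rfl, rfl, h⟩ := h
      exact (WrapC.v0 H.c4 (by omega) (by omega) (by omega) (by omega) (by omega) (by omega) (by omega)).mpr (by omega)
    · obtain ⟨rfl, rfl, h⟩ := h
      exact (WrapC.v2 H.c2 (by omega) (by omega) (by omega) (by omega) (by omega) (by omega) (by omega)).mpr (by omega)
    · obtain ⟨rfl, rfl, h⟩ := h
      exact (WrapC.v3 H.c2 (by omega) (by omega) (by omega) (by omega) (by omega) (by omega) (by omega) (by omega)).mpr (by omega)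
    · obtain ⟨rfl, rfl, h⟩ := h
      exact (WrapC.v3 H.c0 (by omega) (by omega) (by omega) (by omega) (by omega) (by omega) (by omega) (by omega)).mpr (by omega)
    · obtain ⟨rfl, rfl, rfl, rfl⟩ := h
      exact mv g (by omega) (by omega) (by omega) (by omega)
    · obtain ⟨rfl, rfl, rfl, rfl⟩ := h
      exact mv a2 (by omega) (by omega) (by omega) (by omega)
    · obtain ⟨rfl, rfl, rfl, rfl⟩ := h
      exact mv b2 (by omega) (by omega) (by omega) (by omega)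
  · intro j m p q hr h
    obtain ⟨-, -, -, -, hp1, hp2, hq1, hq2⟩ := hr
    replace h := of_decide_eq_true h
    rcases h with h | h | h | h | h | h | h | h | h | h | h | h | h | h | h | h | h | h | h | h | h | h | h | h | h | h | h | h
    · obtain ⟨rfl, rfl, h⟩ := h
      exact mt (NW.w3v H.c8 (by omega) (by omega) (by omega) (by omega) (by omega) (by omega) (by omega) (by omega)).mp (by omega)
    · obtain ⟨rfl, rfl, h⟩ := h
      exact mt (WrapC.v1 H.c4 (by omega) (by omega) (by omega) (by omega) (by omega) (by omega) (by omega) (by omega)).mp (by omega)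
    · obtain ⟨rfl, rfl, h⟩ := h
      exact mt (WrapC.v3 H.c2 (by omega) (by omega) (by omega) (by omega) (by omega) (by omega) (by omega) (by omega)).mp (by omega)
    · obtain ⟨rfl, rfl, h⟩ := h
      exact mt (WrapC.v3 H.c0 (by omega) (by omega) (by omega) (by omega) (by omega) (by omega) (by omega) (by omega)).mp (by omega)
    · obtain ⟨rfl, rfl, h⟩ := h
      exact H.lw _ _ _ _ (by omega) (by omega) (by omega) (by omega) (by omega) (by omega)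
    · obtain ⟨rfl, rfl, h⟩ := h
      exact H.lw _ _ _ _ (by omega) (by omega) (by omega) (by omega) (by omega) (by omega)
    · obtain ⟨rfl, rfl, h⟩ := h
      exact H.lw _ _ _ _ (by omega) (by omega) (by omega) (by omega) (by omega) (by omega)
    · obtain ⟨rfl, rfl, h⟩ := h
      exact H.lw _ _ _ _ (by omega) (by omega) (by omega) (by omega) (by omega) (by omega)
    · obtain ⟨rfl, rfl, h⟩ := h
      exact H.lw _ _ _ _ (by omega) (by omega) (by omega) (by omega) (by omega) (by omega)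
    · obtain ⟨rfl, rfl, h⟩ := h
      exact H.lw _ _ _ _ (by omega) (by omega) (by omega) (by omega) (by omega) (by omega)
    · obtain ⟨rfl, rfl, h⟩ := h
      exact fun t => NHT.r1 hf H.T (p := 0) (j := 4) (by omega) (by omega) (by omega) (by omega) (by omega) (by omega) (mv t rfl (by omega) rfl rfl)
    · obtain ⟨rfl, rfl, h⟩ := h
      exact NHT.p0 hf H.T (j := 3) (by omega) (by omega) (by omega) (by omega) (by omega) (by omega)
    · obtain ⟨rfl, rfl, h⟩ := h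
      exact NHT.p0 hf H.T (j := 3) (by omega) (by omega) (by omega) (by omega) (by omega) (by omega)
    · obtain ⟨rfl, rfl, h⟩ := h
      exact fun t => NHT.r1 hf H.T (p := 0) (j := 3) (by omega) (by omega) (by omega) (by omega) (by omega) (by omega) (mv t rfl (by omega) rfl rfl)
    · obtain ⟨rfl, rfl, h⟩ := h
      exact NHT.p0 hf H.T (j := 2) (by omega) (by omega) (by omega) (by omega) (by omega) (by omega)
    · obtain ⟨rfl, rfl, h⟩ := h
      exact NHT.p0 hf H.T (j := 2) (by omega) (by omega) (by omega) (by omega) (by omega) (by omega)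
    · obtain ⟨rfl, rfl, h⟩ := h
      exact fun t => NHT.rm1 hf H.T (p := 0) (j := 1) (by omega) (by omega) (by omega) (by omega) (by omega) (by omega) (mv t rfl (by omega) rfl rfl)
    · obtain ⟨rfl, rfl, h⟩ := h
      exact fun t => NHT.r1 hf H.T (p := 0) (j := 2) (by omega) (by omega) (by omega) (by omega) (by omega) (by omega) (mv t rfl (by omega) rfl rfl)
    · obtain ⟨rfl, rfl, h⟩ := h
      exact NHT.p0 hf H.T (j := 1) (by omega) (by omega) (by omega) (by omega) (by omega) (by omega)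
    · obtain ⟨rfl, rfl, h⟩ := h
      exact NHT.p0 hf H.T (j := 1) (by omega) (by omega) (by omega) (by omega) (by omega) (by omega)
    · obtain ⟨rfl, rfl, h⟩ := h
      exact NHT.p2 hf H.T (j := 2) (by omega) (by omega) (by omega) (by omega) (by omega) (by omega)
    · obtain ⟨rfl, rfl, h⟩ := h
      exact NHT.p2 hf H.T (j := 2) (by omega) (by omega) (by omega) (by omega) (by omega) (by omega)
    · obtain ⟨rfl, rfl, h⟩ := h
      exact fun t => NHT.r1 hf H.T (p := 0) (j := 1) (by omega) (by omega) (by omega) (by omega) (by omega) (by omega) (mv t rfl (by omega) rfl rfl)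
    · obtain ⟨rfl, rfl, h⟩ := h
      exact NHT.p0 hf H.T (j := 0) (by omega) (by omega) (by omega) (by omega) (by omega) (by omega)
    · obtain ⟨rfl, rfl, h⟩ := h
      exact NHT.p2 hf H.T (j := 1) (by omega) (by omega) (by omega) (by omega) (by omega) (by omega)
    · obtain ⟨rfl, rfl, h⟩ := h
      exact NHT.p2 hf H.T (j := 1) (by omega) (by omega) (by omega) (by omega) (by omega) (by omega)
    · obtain ⟨rfl, rfl, h⟩ := h
      exact NHT.p2 hf H.T (j := 0) (by omega) (by omega) (by omega) (by omega) (by omega) (by omega)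
    · obtain ⟨rfl, rfl, h⟩ := h
      exact NHT.p2 hf H.T (j := 0) (by omega) (by omega) (by omega) (by omega) (by omega) (by omega)

end Pool.Agent.SNT.K40
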