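import Pool.Agent.SNT.NWD
import Pool.Agent.SNT.NHZoneU
import Pool.Agent.SNT.NHZone2

set_option autoImplicit false
set_option synthInstance.maxSize 100000
set_option synthInstance.maxHeartbeats 4000000

/-! K0 of the layer `6 k + 2` in the IN row `c` of the top leader `6 k + 10`, from the column `2 n + 1` on, with the lead
`n + 1` of the layer `6 k + 4` and the lead `n - 3` of the layer `6 k + 2` in the period before. -/

namespace Pool.Agent.SNT.K0L2c

open Pool.Agent.SNT Pool.Agent.SNT.Loc Pool.Agent.SNT.LW Pool.Agent.SNT.NHZ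

variable {f : ℕ → ℕ → ℕ → ℕ → Prop}

theorem zZ_r1i (hf : Rule f) {k c N M R x y p j : ℕ} (h : NHT f k c N) (hR : R = c + 1) (hj : j ≤ 5) (hp : p ≤ 1)
    (hL : M + 2 * j = 6 * k + 10 + p) (hx : N + 3 ≤ x) (h1 : y + 1 + j ≤ x) (h2 : x + 2 + j ≤ y + 2 * k) :
    ¬ f M R x y := by
  subst hR
  exact h.r1i hf hj hp hL hx h1 h2

theorem uP0 (hf : Rule f) {k c N M R x y j : ℕ} (h : NHU f k c N) (hj : j ≤ 0) (hL : M + 1 + 2 * j = 6 * k + 6)
    (hR : R + 5 = c ∨ R + 4 = c) (hx : N ≤ x + 8) (h1 : y + 1 + j ≤ x) (h2 : x + j ≤ y + 2 * k) : ¬ f M R x y :=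
  h.I.P hf (t := 0) (s := 0) (j := j) (q := c - 4 - R) (by omega) (by omega) (by omega) (by omega)
    (by have := h.hb; omega) (by unfold XU; rw [if_pos (by omega)]; have := h.hN2; omega) (by have := h.hN2; omega)
    (by omega) (by omega)

theorem uP1 (hf : Rule f) {k c N M R x y j : ℕ} (h : NHU f k c N) (hj : j ≤ 1) (hL : M + 1 + 2 * j = 6 * k + 8)
    (hR : R + 3 = c ∨ R + 2 = c) (hx : N ≤ x + 2) (h1 : y + 1 + j ≤ x) (h2 : x + j ≤ y + 2 * k) : ¬ f M R x y :=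
  h.pmi hf hj hL hR hx h1 h2

theorem uP2 (hf : Rule f) {k c N M R x y j : ℕ} (h : NHU f k c N) (hj : j ≤ 2) (hL : M + 1 + 2 * j = 6 * k + 10)
    (hR : R + 1 = c ∨ R = c) (hx : N + 4 ≤ x) (h1 : y + 1 + j ≤ x) (h2 : x + j ≤ y + 2 * k) : ¬ f M R x y :=
  h.p0i hf hj hL hR hx h1 h2

theorem uA0 (hf : Rule f) {k c N M R x y p j : ℕ} (h : NHU f k c N) (hR : R + 3 = c) (hj : j ≤ 0) (hp : p ≤ 1)
    (hL : M + 2 * j = 6 * k + 6 + p) (hx : N ≤ x + 7) (h1 : y + 1 + j ≤ x) (h2 : x + j ≤ y + 2 * k) : ¬ f M R x y :=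
  h.I.after hf (t := 0) (s := 0) (j := j) (p := p) (q := 1) (by omega) (by omega) hp le_rfl (by omega) (by omega)
    (by have := h.hb; omega) (by unfold XU; rw [if_pos (by omega)]; have := h.hN2; omega)
    (by have := h.hN2; omega) (by omega) (by omega)

theorem uA1 (hf : Rule f) {k c N M R x y p j : ℕ} (h : NHU f k c N) (hR : R + 1 = c) (hj : j ≤ 1) (hp : p ≤ 1)
    (hL : M + 2 * j = 6 * k + 8 + p) (hx : N ≤ x + 1) (h1 : y + 1 + j ≤ x) (h2 : x + j ≤ y + 2 * k) : ¬ f M R x y := by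
  have e : R = c - 1 := by omega
  subst e
  exact h.rm1i hf hj hp hL hx h1 h2

theorem uA2 (hf : Rule f) {k c N M R x y p j : ℕ} (h : NHU f k c N) (hR : R = c + 1) (hj : j ≤ 2) (hp : p ≤ 1)
    (hL : M + 2 * j = 6 * k + 10 + p) (hx : N + 5 ≤ x) (h1 : y + 1 + j ≤ x) (h2 : x + j ≤ y + 2 * k) : ¬ f M R x y := by
  subst hR
  exact h.r1i hf hj hp hL hx h1 h2

theorem k0c_chk : check 11 8 12 20 0 0 1 0 0
    (fun j n p q => decide ((j = 4 ∧ n = 2 ∧ (((p + q + 1) % 2 = 1 ∧ p + 4 ≤ q ∧ p % 2 = 0) ∨ ((p + q + 1) % 2 = 1 ∧ q ≤ p + 4 ∧ (p + q) % 4 = 0)))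
      ∨ (j = 4 ∧ n = 3 ∧ ((2 ≤ p) ∨ (p + 3 ≤ q)) ∧ ((p + q + 1) % 2 = 0 ∧ q ≤ p + 3 ∧ (p + q + 1) % 4 = 0))
      ∨ (j = 4 ∧ n = 4 ∧ q ≤ p + 3 ∧ 4 ≤ p ∧ (((p + q + 1) % 2 = 1 ∧ p + 4 ≤ q ∧ p % 2 = 1) ∨ ((p + q + 1) % 2 = 1 ∧ q ≤ p + 4 ∧ (p + q + 2) % 4 = 0)))
      ∨ (j = 6 ∧ n = 4 ∧ 8 ≤ p ∧ (((p + q + 1) % 2 = 1 ∧ p + 4 ≤ q ∧ p % 2 = 0) ∨ ((p + q + 1) % 2 = 1 ∧ q ≤ p + 4 ∧ (p + q) % 4 = 0)))
      ∨ (j = 6 ∧ n = 5 ∧ ((10 ≤ p) ∨ (p + 3 ≤ q ∧ 9 ≤ p)) ∧ ((p + q + 1) % 2 = 0 ∧ q ≤ p + 3 ∧ (p + q + 1) % 4 = 0))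
      ∨ (j = 6 ∧ n = 1 ∧ ((p + q + 1) % 2 = 0 ∧ q ≤ p + 3 ∧ (p + q + 1) % 4 = 0))
      ∨ (j = 6 ∧ n = 2 ∧ q ≤ p + 3 ∧ (((p + q + 1) % 2 = 1 ∧ p + 4 ≤ q ∧ p % 2 = 1) ∨ ((p + q + 1) % 2 = 1 ∧ q ≤ p + 4 ∧ (p + q + 2) % 4 = 0)))
      ∨ (j = 8 ∧ n = 2 ∧ (((p + q + 1) % 2 = 1 ∧ p + 2 ≤ q ∧ p % 2 = 0) ∨ ((p + q + 1) % 2 = 1 ∧ q ≤ p + 2 ∧ (p + q) % 4 = 2)))
      ∨ (j = 8 ∧ n = 3 ∧ ((p + q + 1) % 2 = 0 ∧ q ≤ p + 1 ∧ (p + q + 1) % 4 = 2))
      ∨ (j = 8 ∧ n = 4 ∧ q ≤ p + 1 ∧ (((p + q + 1) % 2 = 1 ∧ p + 2 ≤ q ∧ p % 2 = 1) ∨ ((p + q + 1) % 2 = 1 ∧ q ≤ p + 2 ∧ (p + q + 2) % 4 = 2)))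
      ∨ (j = 8 ∧ n = 1 ∧ ((p + q + 1) % 2 = 0 ∧ q ≤ p + 1 ∧ (p + q + 3) % 4 = 2))
      ∨ (j = 8 ∧ n = 2 ∧ (((p + q + 1) % 2 = 1 ∧ p + 2 ≤ q ∧ p % 2 = 0) ∨ ((p + q + 1) % 2 = 1 ∧ q ≤ p + 2 ∧ (p + q) % 4 = 2)))
      ∨ (j = 10 ∧ n = 4 ∧ ((p + 4 ≤ q) ∨ (2 ≤ p)) ∧ (((p + q + 1) % 2 = 1 ∧ p + 2 ≤ q ∧ p % 2 = 0) ∨ ((p + q + 1) % 2 = 1 ∧ q ≤ p + 2 ∧ (p + q) % 4 = 2)))
      ∨ (j = 10 ∧ n = 5 ∧ ((p + 4 ≤ q) ∨ (4 ≤ p)) ∧ ((p + q + 1) % 2 = 0 ∧ q ≤ p + 1 ∧ (p + q + 1) % 4 = 2))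
      ∨ (j = 10 ∧ n = 6 ∧ q ≤ p + 1 ∧ 6 ≤ p ∧ (((p + q + 1) % 2 = 1 ∧ p + 2 ≤ q ∧ p % 2 = 1) ∨ ((p + q + 1) % 2 = 1 ∧ q ≤ p + 2 ∧ (p + q + 2) % 4 = 2)))
      ∨ (j = 10 ∧ n = 1 ∧ ((p + q + 1) % 2 = 0 ∧ q ≤ p + 1 ∧ (p + q + 1) % 4 = 2))
      ∨ (j = 10 ∧ n = 2 ∧ ((p + 2 ≤ q) ∨ (q ≤ p + 1)) ∧ (((p + q + 1) % 2 = 1 ∧ p + 2 ≤ q ∧ p % 2 = 1) ∨ ((p + q + 1) % 2 = 1 ∧ q ≤ p + 2 ∧ (p + q + 2) % 4 = 2)))
      ∨ (j = 10 ∧ n = 3 ∧ ((p + q + 1) % 2 = 0 ∧ q ≤ p + 1 ∧ (p + q + 3) % 4 = 2))))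
    (fun j n p q => decide ((j = 4 ∧ n = 2 ∧ ¬ (((p + q + 1) % 2 = 1 ∧ p + 4 ≤ q ∧ p % 2 = 0) ∨ ((p + q + 1) % 2 = 1 ∧ q ≤ p + 4 ∧ (p + q) % 4 = 0)))
      ∨ (j = 4 ∧ n = 3 ∧ ((2 ≤ p) ∨ (p + 3 ≤ q)) ∧ ¬ ((p + q + 1) % 2 = 0 ∧ q ≤ p + 3 ∧ (p + q + 1) % 4 = 0))
      ∨ (j = 4 ∧ n = 4 ∧ q ≤ p + 3 ∧ 4 ≤ p ∧ ¬ (((p + q + 1) % 2 = 1 ∧ p + 4 ≤ q ∧ p % 2 = 1) ∨ ((p + q + 1) % 2 = 1 ∧ q ≤ p + 4 ∧ (p + q + 2) % 4 = 0)))
      ∨ (j = 6 ∧ n = 4 ∧ 8 ≤ p ∧ ¬ (((p + q + 1) % 2 = 1 ∧ p + 4 ≤ q ∧ p % 2 = 0) ∨ ((p + q + 1) % 2 = 1 ∧ q ≤ p + 4 ∧ (p + q) % 4 = 0)))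
      ∨ (j = 6 ∧ n = 5 ∧ ((10 ≤ p) ∨ (p + 3 ≤ q ∧ 9 ≤ p)) ∧ ¬ ((p + q + 1) % 2 = 0 ∧ q ≤ p + 3 ∧ (p + q + 1) % 4 = 0))
      ∨ (j = 6 ∧ n = 1 ∧ ¬ ((p + q + 1) % 2 = 0 ∧ q ≤ p + 3 ∧ (p + q + 1) % 4 = 0))
      ∨ (j = 6 ∧ n = 2 ∧ q ≤ p + 3 ∧ ¬ (((p + q + 1) % 2 = 1 ∧ p + 4 ≤ q ∧ p % 2 = 1) ∨ ((p + q + 1) % 2 = 1 ∧ q ≤ p + 4 ∧ (p + q + 2) % 4 = 0)))
      ∨ (j = 8 ∧ n = 2 ∧ ¬ (((p + q + 1) % 2 = 1 ∧ p + 2 ≤ q ∧ p % 2 = 0) ∨ ((p + q + 1) % 2 = 1 ∧ q ≤ p + 2 ∧ (p + q) % 4 = 2)))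
      ∨ (j = 8 ∧ n = 3 ∧ ¬ ((p + q + 1) % 2 = 0 ∧ q ≤ p + 1 ∧ (p + q + 1) % 4 = 2))
      ∨ (j = 8 ∧ n = 4 ∧ q ≤ p + 1 ∧ ¬ (((p + q + 1) % 2 = 1 ∧ p + 2 ≤ q ∧ p % 2 = 1) ∨ ((p + q + 1) % 2 = 1 ∧ q ≤ p + 2 ∧ (p + q + 2) % 4 = 2)))
      ∨ (j = 8 ∧ n = 1 ∧ ¬ ((p + q + 1) % 2 = 0 ∧ q ≤ p + 1 ∧ (p + q + 3) % 4 = 2))
      ∨ (j = 8 ∧ n = 2 ∧ ¬ (((p + q + 1) % 2 = 1 ∧ p + 2 ≤ q ∧ p % 2 = 0) ∨ ((p + q + 1) % 2 = 1 ∧ q ≤ p + 2 ∧ (p + q) % 4 = 2)))
      ∨ (j = 10 ∧ n = 4 ∧ ((p + 4 ≤ q) ∨ (2 ≤ p)) ∧ ¬ (((p + q + 1) % 2 = 1 ∧ p + 2 ≤ q ∧ p % 2 = 0) ∨ ((p + q + 1) % 2 = 1 ∧ q ≤ p + 2 ∧ (p + q) % 4 = 2)))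
      ∨ (j = 10 ∧ n = 5 ∧ ((p + 4 ≤ q) ∨ (4 ≤ p)) ∧ ¬ ((p + q + 1) % 2 = 0 ∧ q ≤ p + 1 ∧ (p + q + 1) % 4 = 2))
      ∨ (j = 10 ∧ n = 6 ∧ q ≤ p + 1 ∧ 6 ≤ p ∧ ¬ (((p + q + 1) % 2 = 1 ∧ p + 2 ≤ q ∧ p % 2 = 1) ∨ ((p + q + 1) % 2 = 1 ∧ q ≤ p + 2 ∧ (p + q + 2) % 4 = 2)))
      ∨ (j = 10 ∧ n = 1 ∧ ¬ ((p + q + 1) % 2 = 0 ∧ q ≤ p + 1 ∧ (p + q + 1) % 4 = 2))
      ∨ (j = 10 ∧ n = 2 ∧ ((p + 2 ≤ q) ∨ (q ≤ p + 1)) ∧ ¬ (((p + q + 1) % 2 = 1 ∧ p + 2 ≤ q ∧ p % 2 = 1) ∨ ((p + q + 1) % 2 = 1 ∧ q ≤ p + 2 ∧ (p + q + 2) % 4 = 2)))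
      ∨ (j = 10 ∧ n = 3 ∧ ¬ ((p + q + 1) % 2 = 0 ∧ q ≤ p + 1 ∧ (p + q + 3) % 4 = 2))
      ∨ (j = 1)
      ∨ (j = 5 ∧ n = 1 ∧ p + 6 ≤ q)
      ∨ (j = 5 ∧ n = 2 ∧ p + 6 ≤ q)
      ∨ (j = 2 ∧ n = 3 ∧ p + 8 ≤ q ∧ q ≤ p + 15)
      ∨ (j = 3 ∧ n = 3 ∧ p + 8 ≤ q ∧ q ≤ p + 15)
      ∨ (j = 5 ∧ n = 3 ∧ p + 7 ≤ q ∧ q ≤ p + 16)
      ∨ (j = 3 ∧ n = 4 ∧ p + 8 ≤ q ∧ q ≤ p + 15)
      ∨ (j = 5 ∧ n = 4 ∧ p + 7 ≤ q ∧ q ≤ p + 16)
      ∨ (j = 7 ∧ n = 4 ∧ p + 4 ≤ q)
      ∨ (j = 2 ∧ n = 5 ∧ p + 9 ≤ q ∧ q ≤ p + 14)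
      ∨ (j = 3 ∧ n = 5 ∧ p + 9 ≤ q ∧ q ≤ p + 14)
      ∨ (j = 4 ∧ n = 5 ∧ p + 8 ≤ q ∧ q ≤ p + 15)
      ∨ (j = 5 ∧ n = 5 ∧ p + 8 ≤ q ∧ q ≤ p + 15)
      ∨ (j = 6 ∧ n = 5 ∧ p + 7 ≤ q ∧ q ≤ p + 16)
      ∨ (j = 7 ∧ n = 5 ∧ p + 7 ≤ q ∧ q ≤ p + 16)
      ∨ (j = 7 ∧ n = 5 ∧ 7 ≤ p ∧ p + 5 ≤ q ∧ q ≤ p + 16)
      ∨ (j = 8 ∧ n = 5 ∧ 2 ≤ p ∧ p + 4 ≤ q)
      ∨ (j = 9 ∧ n = 5 ∧ p + 6 ≤ q)
      ∨ (j = 9 ∧ n = 5 ∧ 2 ≤ p ∧ p + 4 ≤ q)
      ∨ (j = 11 ∧ n = 5 ∧ p + 5 ≤ q)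
      ∨ (j = 3 ∧ n = 6 ∧ 5 ≤ p ∧ p + 9 ≤ q ∧ q ≤ p + 14)
      ∨ (j = 5 ∧ n = 6 ∧ 5 ≤ p ∧ p + 8 ≤ q ∧ q ≤ p + 15)
      ∨ (j = 7 ∧ n = 6 ∧ 5 ≤ p ∧ p + 7 ≤ q ∧ q ≤ p + 16)
      ∨ (j = 7 ∧ n = 6 ∧ 7 ≤ p ∧ p + 5 ≤ q ∧ q ≤ p + 16)
      ∨ (j = 9 ∧ n = 6 ∧ 5 ≤ p ∧ p + 6 ≤ q)
      ∨ (j = 9 ∧ n = 6 ∧ 7 ≤ p ∧ p + 4 ≤ q)
      ∨ (j = 11 ∧ n = 6 ∧ 5 ≤ p ∧ p + 5 ≤ q)
      ∨ (j = 11 ∧ n = 6 ∧ 7 ≤ p ∧ p + 3 ≤ q)
      ∨ (j = 4 ∧ n = 6 ∧ p = 4 ∧ q = 12)
      ∨ (j = 4 ∧ n = 6 ∧ p = 6 ∧ q = 14)))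
    1253
    0x182903179c801b66d211b80312308015f14a121c8015dd4a118e05121080118e0112110a11fc8011fd0a1d518315c70015c701118e0312068012068411f28011f28415be0511f38015c81211fe1a11fd0011fd04110280110c9211168011993a15d20512078015dc1212121a1199001199041212030e47000e4704110d030d42000d420411fe030e33000e330415d20512078015dc1212121a1211001211041d520315c78015c78411fe801208921212801212840a0f030dcf000dcf04111783119000119004111683154f00154f041d678315dd0015dd0414ed03156500156504119003155000155004091f030cdf000cdf0414e1830d57000d5704098c030d4c000d4c041d7183156f00156f040a88830e48800e48840a06030dc6000dc6040a0f830dcf800dcf8418a10319190019190414e18311998011998414d783154f80154f840a0e830dce800dce840982830d42800d4284110283117a80117a840a7d030e3d000e3d04112c8311a48011a484090a830cca800cca8409b6030d76000d76040915830cd5800cd5840900030cc0000cc00411a30311a38011a38414ed0311a50011a5040a91830e51800e518414e18315598015598415008311b90011b904118e0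3118e80118e840a7c830e3c800e3c84112283119a80119a8411a303121b80121b8414cc83110d00110d041c4d0314c28014c28414d68314d70014d7040a05030dc5000dc5041cda831924801d66f215dc0015dc04092a030cea000cea040a91030e51000e51040900830cc0800cc0840a7e030e3e000e3e04110385110e001185b214d852118f80118f841c6c0314e18014e1840920030ce0000ce00409fa830dba800dba841d5d03155a80155a841d528315c80015c80424dc031d51801d51840a73830e33800e338415780315f08015f0841c5703190f00190f041c61031cd9001cd90414f6830d6c000d6c040a87830e47800e4784090a830cca80110d7a1185001185040914830cd4800cd48414cc8314cd0014cd040934030cf4000cf40414cc8314cd0014cd8a0d43000d43040a72830e32800e328409a1030d61000d6104098d830d4d800d4d840a0e030dce000dce0409fb030dbb000dbb04098b830d4b800d4b842c658324db0024db8a1d51001d51040a05830dc5800dc5841c4d0314c28014c30a117b00117b04189783190f80190f8418a203191a00191a04098c830d4c800d4c8409b5830d75800d75840a1a030dda000dda040a22830de2800de284110e050cd58014ce4211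0de21185801185840a38030df8000df8040914030cd4000cd404154e0315c68015c6841cda831924801d677a15dc8015dc84098f050984800d59520a06b20a10800a1084091f830cdf800cdf8414f68311ae8011ae8414cd8315458015458409fb830dbb800dbb841c61831cd9801cd98414cc831544801544842c45832c46002c509a2c51002c518a24c70024d19a1d47001d47040a7d830e3d800e3d841d7b8315f10015f10414c18314c20014c2040a19830dd9800dd98414e2830d58000d5804212705211c8024f15224e6d21d66001d66040a0d830dcd800dcd841c57831ccf801ccf840a7e830e3e800e3e840a10030dd0000dd0041500831579001579040a03830dc3800dc3841c6c0314e18014e20a119a00119a0415630315db8015db841c62031cda001cda0414cd031545001545041c570314cc8014cc841c620314d78014d7840a04030dc4000dc40418a1831919801919841c57031ccf001ccf040a23030de3000de3040a37830df7800df7842c5c0324d18024d1841c6c0319240019240418a18514d7001c6c5a14e19a14e20014e2041c570314cc8014d692118f00118f04092a830cea800cea840915030cd5000cd50414ec831564801564840a18830dd8800dd8842c5c0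324d18024d20a1d47801d4784090b030ccb000ccb041563031563801563840997830d57800d578409a0830d60800d60840a2d830ded800ded841d718315e70015e70409a2830d62800d62840a90830e50800e50840a2e030dee000dee041c610314d68014d68417b283182a8018acb21924801ce54a18988018988417b283182a8018acb21924801d5d6a15d28015d2840a86830e46800e4684097a05096f800d445209f1b209fb8009fb8423ea831c60801c60842c45832c46002c509a2c51002c5b9a24d10024d1040978030d38000d380414f683156e80156e84098d030d4d000d4d04154e03154e80154e840996830d56800d568423ea8324630024630414ec0315640015640424dc831d52001d520414e203155a00155a040a19030dd9000dd9040a10830dd0800dd0840a04830dc4800dc4840a92030e52000e520414f70311af0011af041c6c0314e18014eb9211a40011a40415008311b88011b8840934830cf4800cf484202a8320a30020a304090a030cca000cca04179280179d1a17a68017a684179380179d9217a7801b71d217bb80183e3a1827801848001833001be7c218caba18b5ba282c8028178028028027b50027a10027a000278c00278b002034001fa7801f32001f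31001f30001f1d0019428018cb0018b70018b60017da0017c50017b00017a480179b00174d80173880172d00172380114a00113500112000110b0010d28010bd8010a880109380107e80104f80104700104600103a80103200103100101d00101c001008001007002c65872c5c072c5b872c5b072c52072c51872c47872c47072be4072bda072bd9872bcf872bcf07289c07289b07288707288607288507282d87282d07282c8f282407282387282307281a0728198728190728188728180728178f280f87280f07280e87280e07280d87280d0728038728030728028f27b50f27a10f27a00f278c0f278b0f24f10724f08724e70724e68724e60724dc8724dc0724db8724d28724d20724c80724c787247907247887246f07246e87246e07246487246407246387245a87245a07245987245907245007244f87244f07213107211c07211b0721080721070720b90720b88720af0720ae8720ae0720a48720a40720a387209a87209a07209987209907209007208f87208f0720340f202a071fb2871fb2071fa8871fa8071fa78f1f320f1f310f1f300f1f1d0f1d7b871d71871d71071d67871d67071d66871d5d871d5d071d5c871d5c071d53071d52871d48871d48071d03871cf9871cf90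71cef871cef071cee871ce5871ce5071ce4871ce4071cdb071cda871cd0871cd0071c6d071c6c871c6c071c6b871c63071c62871c62071c61871c61071c58871c58071c57871c57071c56871c4d871c4d071c4c871c43071c428719b107199d07199c0719880719870719438719430719428f193987193907192f87192587192507191b07191a8719108719100718cb0f18ca8718ca0718c08718c00718b70f18b60f18b58718b50718ad0718ac0718ab0718980718970718830717da0f17c58717c50f17bc0717b08717b00f17af8717af0717a80717a70717a60717a58717a50717a48f179b0f179307174d8f173a87173a0717398717390717388f173087173007172f87172f07172e87172e07172d0f17258717250717248717240717238f171b87171b07171a8715d307155b0715460714ed0714e30714e28714d88714d80714ce0714cd8714c40714c38714c30714b90714b887147507146b07146a87146087146007145607145587144c07144b87144b0714410714408713f28713f20713e88713e80713dd8713dd0713d38713d30713d287137a87137a07137087137007136587136507135b87135b07135a87123107121d07121c0712130712080712070711fe0711f40711f30711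9b07119087118687118607117c07117b87114a0f114007113f8711358711350f112d07112c07112b07112a8711208711200f111807111707111607111587110b87110b0f11040711030711020711010710d28f10c88710c80710bf0710be8710be0710bd8f10b50710b48710b40710b38710b30710ab0710aa8710aa0710a98710a90710a88f10a08710a007109f87109f07109e87109e0710960710958710950710948710940710938f108c07108b87108b07108a87108a07108987108907108107108087108007107f87107f07107e8f104f8f10470f10460f103a8f10320f10310f101d0f101c0f10080f10070f0dc6870dbc070d59070d58870d4f070d4e870d4e070d44070d43870d3a070d39870ce1070ce0870cd7070cd6870ccc070ccb870cc2070cc1870a88070a87070a86070a74070a73070a72070a068709fc8709fc0709f18709e78709e70709c00709bf0709ac0709ab0709aa07099907099807099707099607099507098407098307098207098107096f07096e07092107092087091707091687091607090c07090b8709020709018709010708f68708bc0708a80708a707089307089207087e0706d20706d18706d10706d08706d00706c88706c80706c78706c70706c68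706c60706be8706be0706bd8706bd0706bc8706bc0706b48706b40706b38706b30706b28706b20706a98706a90706a88706a807067807067787067707066e07066d87066d07066407066387066307066287066207065a07065987065907065887065807065087065007064f87064f07064e87064e07064d87064d07064687064607064587064507064487064407064387064307063c87063c07063b87063b07063a87063a0706398706390706318706310706308706300706278706270706000705ff8705ff0705f60705f58705f50705ec0705eb8705eb0705ea8705ea0705e28705e20705e18705e10705e08705e00705d88705d80705d78705d70705d68705d60705d58705d50705ce8705ce0705cd8705cd0705cc8705cc0705cb8705cb0705c48705c40705c38705c30705c28705c20705c18705c10705b98705b90705b88705b80705b78705af8705af0705ae0705ad87057e07057d87057d07057487057407057387057307056a87056a07056987056907056887056807056087056007055f87055f07055e87055e07055607055587055507055487055407055387055307054b87054b07054a87054a07054987054907054107054087054007053f8705368705360705358704fc8704fc0704fb8704f28704f20704f18704e88704e80704e78704e70704e68704de0704dd8704dd0704dc8704dc0704db8704d38704d30704d28704d20704d18704c90704c88704c80704c78704be8704be0704bd87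 = true := by
  decide +kernel

theorem k0_aux (hf : Rule f) {k c n X : ℕ}
    (T : NHT f k c (2 * n)) (U : NHU f k c (2 * n))
    (hL : ∀ {M R x y : ℕ}, M + 1 = 6 * k → c ≤ R + 10 → R ≤ c + 2 → 2 * n ≤ x + 10 → y ≤ x → x ≤ y + 4 * k → ¬ f M R x y)
    (C2 : Cyc f (6 * k + 2) (c - 4) (2 * (n - 3) + 2))
    (C4a : Cyc f (6 * k + 4) (c - 6) (2 * (n - 7) + 2)) (C4 : Cyc f (6 * k + 4) (c - 2) (2 * (n + 1) + 2))
    (C6a : Cyc f (6 * k + 6) (c - 8) (2 * (n - (k + 7)) + 2)) (C6 : Cyc f (6 * k + 6) (c - 4) (2 * (n - 5) + 2))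
    (C8a : Cw f (6 * k + 8) (c - 6) (n - (k + 5))) (C8 : Cw f (6 * k + 8) (c - 2) (n - 3))
    (hX : 2 * n + 1 ≤ X) (ho : X % 2 = 1)
    (h1 : ∀ {M R x y : ℕ}, M = 6 * k + 2 → R = c → x = X → y + 2 * k = X + 5 → ¬ f M R x y)
    (h2 : ∀ {M R x y : ℕ}, M = 6 * k + 2 → R = c → x = X + 2 → y + 2 * k = X + 7 → ¬ f M R x y) : False := by
  have hk := T.hk
  have hc := T.hc
  have h4 := T.h4
  have hb := T.hb
  have hN := T.hN2
  obtain ⟨a0, ha0⟩ : ∃ z, z + 2 = 6 * k := ⟨6 * k - 2, by omega⟩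
  obtain ⟨b0, hb0⟩ : ∃ z, z + 6 = c := ⟨c - 6, by omega⟩
  obtain ⟨x0, hx0⟩ : ∃ z, z + 4 = X := ⟨X - 4, by omega⟩
  obtain ⟨y0, hy0⟩ : ∃ z, z + 2 * k + 20 = X + 13 := ⟨X + 13 - 2 * k - 20, by omega⟩
  refine check_sound hf (a0 := a0) (b0 := b0) (x0 := x0) (y0 := y0) k0c_chk
    ⟨fun h => absurd h (by decide), fun h => absurd h (by decide), fun h => absurd h (by decide), by omega, by omega,
      by omega, by omega⟩ ?_ ?_
  · intro j m p q hr h
    obtain ⟨-, -, hm1, hm2, hp1, hp2, hq1, hq2⟩ := hr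
    replace h := of_decide_eq_true h
    rcases h with h | h | h | h | h | h | h | h | h | h | h | h | h | h | h | h | h | h
    · obtain ⟨rfl, rfl, h⟩ := h
      exact (WrapC.v0 C2 (by omega) (by omega) (by omega) (by omega) (by omega) (by omega) (by omega)).mpr (by omega)
    · obtain ⟨rfl, rfl, h⟩ := h
      exact (WrapC.v1 C2 (by omega) (by omega) (by omega) (by omega) (by omega) (by omega) (by omega) (by omega)).mpr (by omega)
    · obtain ⟨rfl, rfl, h⟩ := h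
      exact (WrapC.v2 C2 (by omega) (by omega) (by omega) (by omega) (by omega) (by omega) (by omega)).mpr (by omega)
    · obtain ⟨rfl, rfl, h⟩ := h
      exact (WrapC.v0 C4 (by omega) (by omega) (by omega) (by omega) (by omega) (by omega) (by omega)).mpr (by omega)
    · obtain ⟨rfl, rfl, h⟩ := h
      exact (WrapC.v1 C4 (by omega) (by omega) (by omega) (by omega) (by omega) (by omega) (by omega) (by omega)).mpr (by omega)
    · obtain ⟨rfl, rfl, h⟩ := h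
      exact (WrapC.v1 C4a (by omega) (by omega) (by omega) (by omega) (by omega) (by omega) (by omega) (by omega)).mpr (by omega)
    · obtain ⟨rfl, rfl, h⟩ := h
      exact (WrapC.v2 C4a (by omega) (by omega) (by omega) (by omega) (by omega) (by omega) (by omega)).mpr (by omega)
    · obtain ⟨rfl, rfl, h⟩ := h
      exact (WrapC.v0 C6 (by omega) (by omega) (by omega) (by omega) (by omega) (by omega) (by omega)).mpr (by omega)
    · obtain ⟨rfl, rfl, h⟩ := h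
      exact (WrapC.v1 C6 (by omega) (by omega) (by omega) (by omega) (by omega) (by omega) (by omega) (by omega)).mpr (by omega)
    · obtain ⟨rfl, rfl, h⟩ := h
      exact (WrapC.v2 C6 (by omega) (by omega) (by omega) (by omega) (by omega) (by omega) (by omega)).mpr (by omega)
    · obtain ⟨rfl, rfl, h⟩ := h
      exact (WrapC.v3 C6a (by omega) (by omega) (by omega) (by omega) (by omega) (by omega) (by omega) (by omega)).mpr (by omega)
    · obtain ⟨rfl, rfl, h⟩ := h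
      exact (WrapC.v4 C6a (by omega) (by omega) (by omega) (by omega) (by omega) (by omega) (by omega)).mpr (by omega)
    · obtain ⟨rfl, rfl, h⟩ := h
      exact (NW.w0v C8 (by omega) (by omega) (by omega) (by omega) (by omega) (by omega) (by omega)).mpr (by omega)
    · obtain ⟨rfl, rfl, h⟩ := h
      exact (NW.w1v C8 (by omega) (by omega) (by omega) (by omega) (by omega) (by omega) (by omega) (by omega)).mpr (by omega)
    · obtain ⟨rfl, rfl, h⟩ := h
      exact (NW.w2v C8 (by omega) (by omega) (by omega) (by omega) (by omega) (by omega) (by omega)).mpr (by omega)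
    · obtain ⟨rfl, rfl, h⟩ := h
      exact (NW.w1v C8a (by omega) (by omega) (by omega) (by omega) (by omega) (by omega) (by omega) (by omega)).mpr (by omega)
    · obtain ⟨rfl, rfl, h⟩ := h
      exact (NW.w2v C8a (by omega) (by omega) (by omega) (by omega) (by omega) (by omega) (by omega)).mpr (by omega)
    · obtain ⟨rfl, rfl, h⟩ := h
      exact (NW.w3v C8a (by omega) (by omega) (by omega) (by omega) (by omega) (by omega) (by omega) (by omega)).mpr (by omega)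
  · intro j m p q hr h
    obtain ⟨-, -, hm1, hm2, hp1, hp2, hq1, hq2⟩ := hr
    replace h := of_decide_eq_true h
    rcases h with h | h | h | h | h | h | h | h | h | h | h | h | h | h | h | h | h | h | h | h | h | h | h | h | h | h | h | h | h | h | h | h | h | h | h | h | h | h | h | h | h | h | h | h | h | h | h | h
    · obtain ⟨rfl, rfl, h⟩ := h
      exact mt (WrapC.v0 C2 (by omega) (by omega) (by omega) (by omega) (by omega) (by omega) (by omega)).mp (by omega)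
    · obtain ⟨rfl, rfl, h⟩ := h
      exact mt (WrapC.v1 C2 (by omega) (by omega) (by omega) (by omega) (by omega) (by omega) (by omega) (by omega)).mp (by omega)
    · obtain ⟨rfl, rfl, h⟩ := h
      exact mt (WrapC.v2 C2 (by omega) (by omega) (by omega) (by omega) (by omega) (by omega) (by omega)).mp (by omega)
    · obtain ⟨rfl, rfl, h⟩ := h
      exact mt (WrapC.v0 C4 (by omega) (by omega) (by omega) (by omega) (by omega) (by omega) (by omega)).mp (by omega)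
    · obtain ⟨rfl, rfl, h⟩ := h
      exact mt (WrapC.v1 C4 (by omega) (by omega) (by omega) (by omega) (by omega) (by omega) (by omega) (by omega)).mp (by omega)
    · obtain ⟨rfl, rfl, h⟩ := h
      exact mt (WrapC.v1 C4a (by omega) (by omega) (by omega) (by omega) (by omega) (by omega) (by omega) (by omega)).mp (by omega)
    · obtain ⟨rfl, rfl, h⟩ := h
      exact mt (WrapC.v2 C4a (by omega) (by omega) (by omega) (by omega) (by omega) (by omega) (by omega)).mp (by omega)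
    · obtain ⟨rfl, rfl, h⟩ := h
      exact mt (WrapC.v0 C6 (by omega) (by omega) (by omega) (by omega) (by omega) (by omega) (by omega)).mp (by omega)
    · obtain ⟨rfl, rfl, h⟩ := h
      exact mt (WrapC.v1 C6 (by omega) (by omega) (by omega) (by omega) (by omega) (by omega) (by omega) (by omega)).mp (by omega)
    · obtain ⟨rfl, rfl, h⟩ := h
      exact mt (WrapC.v2 C6 (by omega) (by omega) (by omega) (by omega) (by omega) (by omega) (by omega)).mp (by omega)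
    · obtain ⟨rfl, rfl, h⟩ := h
      exact mt (WrapC.v3 C6a (by omega) (by omega) (by omega) (by omega) (by omega) (by omega) (by omega) (by omega)).mp (by omega)
    · obtain ⟨rfl, rfl, h⟩ := h
      exact mt (WrapC.v4 C6a (by omega) (by omega) (by omega) (by omega) (by omega) (by omega) (by omega)).mp (by omega)
    · obtain ⟨rfl, rfl, h⟩ := h
      exact mt (NW.w0v C8 (by omega) (by omega) (by omega) (by omega) (by omega) (by omega) (by omega)).mp (by omega)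
    · obtain ⟨rfl, rfl, h⟩ := h
      exact mt (NW.w1v C8 (by omega) (by omega) (by omega) (by omega) (by omega) (by omega) (by omega) (by omega)).mp (by omega)
    · obtain ⟨rfl, rfl, h⟩ := h
      exact mt (NW.w2v C8 (by omega) (by omega) (by omega) (by omega) (by omega) (by omega) (by omega)).mp (by omega)
    · obtain ⟨rfl, rfl, h⟩ := h
      exact mt (NW.w1v C8a (by omega) (by omega) (by omega) (by omega) (by omega) (by omega) (by omega) (by omega)).mp (by omega)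
    · obtain ⟨rfl, rfl, h⟩ := h
      exact mt (NW.w2v C8a (by omega) (by omega) (by omega) (by omega) (by omega) (by omega) (by omega)).mp (by omega)
    · obtain ⟨rfl, rfl, h⟩ := h
      exact mt (NW.w3v C8a (by omega) (by omega) (by omega) (by omega) (by omega) (by omega) (by omega) (by omega)).mp (by omega)
    · obtain rfl := h
      exact hL (by omega) (by omega) (by omega) (by omega) (by omega) (by omega)
    · obtain ⟨rfl, rfl, h⟩ := h
      exact NHT.rIn hf T (t := 2) (p := 1) (j := 1) (by omega) (by omega) (by omega) (by omega) (by omega) (by omega) (by omega) (by omega)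
    · obtain ⟨rfl, rfl, h⟩ := h
      exact NHT.pIn hf T (t := 3) (j := 1) (by omega) (by omega) (by omega) (by omega) (by omega) (by omega) (by omega)
    · obtain ⟨rfl, rfl, h⟩ := h
      exact NHT.rIn hf T (t := 3) (p := 0) (j := 3) (by omega) (by omega) (by omega) (by omega) (by omega) (by omega) (by omega) (by omega)
    · obtain ⟨rfl, rfl, h⟩ := h
      exact NHT.rIn hf T (t := 3) (p := 1) (j := 3) (by omega) (by omega) (by omega) (by omega) (by omega) (by omega) (by omega) (by omega)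
    · obtain ⟨rfl, rfl, h⟩ := h
      exact NHT.rIn hf T (t := 3) (p := 1) (j := 2) (by omega) (by omega) (by omega) (by omega) (by omega) (by omega) (by omega) (by omega)
    · obtain ⟨rfl, rfl, h⟩ := h
      exact NHT.pIn hf T (t := 4) (j := 3) (by omega) (by omega) (by omega) (by omega) (by omega) (by omega) (by omega)
    · obtain ⟨rfl, rfl, h⟩ := h
      exact NHT.pIn hf T (t := 4) (j := 2) (by omega) (by omega) (by omega) (by omega) (by omega) (by omega) (by omega)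
    · obtain ⟨rfl, rfl, h⟩ := h
      exact uP1 hf U (j := 1) (by omega) (by omega) (by omega) (by omega) (by omega) (by omega)
    · obtain ⟨rfl, rfl, h⟩ := h
      exact NHT.rIn hf T (t := 4) (p := 0) (j := 4) (by omega) (by omega) (by omega) (by omega) (by omega) (by omega) (by omega) (by omega)
    · obtain ⟨rfl, rfl, h⟩ := h
      exact NHT.rIn hf T (t := 4) (p := 1) (j := 4) (by omega) (by omega) (by omega) (by omega) (by omega) (by omega) (by omega) (by omega)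
    · obtain ⟨rfl, rfl, h⟩ := h
      exact NHT.rIn hf T (t := 4) (p := 0) (j := 3) (by omega) (by omega) (by omega) (by omega) (by omega) (by omega) (by omega) (by omega)
    · obtain ⟨rfl, rfl, h⟩ := h
      exact NHT.rIn hf T (t := 4) (p := 1) (j := 3) (by omega) (by omega) (by omega) (by omega) (by omega) (by omega) (by omega) (by omega)
    · obtain ⟨rfl, rfl, h⟩ := h
      exact NHT.rIn hf T (t := 4) (p := 0) (j := 2) (by omega) (by omega) (by omega) (by omega) (by omega) (by omega) (by omega) (by omega)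
    · obtain ⟨rfl, rfl, h⟩ := h
      exact NHT.rIn hf T (t := 4) (p := 1) (j := 2) (by omega) (by omega) (by omega) (by omega) (by omega) (by omega) (by omega) (by omega)
    · obtain ⟨rfl, rfl, h⟩ := h
      exact uP2 hf U (j := 2) (by omega) (by omega) (by omega) (by omega) (by omega) (by omega)
    · obtain ⟨rfl, rfl, h⟩ := h
      exact uA1 hf U (p := 0) (j := 1) (by omega) (by omega) (by omega) (by omega) (by omega) (by omega) (by omega)
    · obtain ⟨rfl, rfl, h⟩ := h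
      exact NHT.rIn hf T (t := 4) (p := 1) (j := 1) (by omega) (by omega) (by omega) (by omega) (by omega) (by omega) (by omega) (by omega)
    · obtain ⟨rfl, rfl, h⟩ := h
      exact uA1 hf U (p := 1) (j := 1) (by omega) (by omega) (by omega) (by omega) (by omega) (by omega) (by omega)
    · obtain ⟨rfl, rfl, h⟩ := h
      exact NHT.rIn hf T (t := 4) (p := 1) (j := 0) (by omega) (by omega) (by omega) (by omega) (by omega) (by omega) (by omega) (by omega)
    · obtain ⟨rfl, rfl, h⟩ := h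
      exact NHT.p0i hf T (j := 4) (by omega) (by omega) (by omega) (by omega) (by omega) (by omega)
    · obtain ⟨rfl, rfl, h⟩ := h
      exact NHT.p0i hf T (j := 3) (by omega) (by omega) (by omega) (by omega) (by omega) (by omega)
    · obtain ⟨rfl, rfl, h⟩ := h
      exact NHT.p0i hf T (j := 2) (by omega) (by omega) (by omega) (by omega) (by omega) (by omega)
    · obtain ⟨rfl, rfl, h⟩ := h
      exact uP2 hf U (j := 2) (by omega) (by omega) (by omega) (by omega) (by omega) (by omega)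
    · obtain ⟨rfl, rfl, h⟩ := h
      exact NHT.p0i hf T (j := 1) (by omega) (by omega) (by omega) (by omega) (by omega) (by omega)
    · obtain ⟨rfl, rfl, h⟩ := h
      exact uP2 hf U (j := 1) (by omega) (by omega) (by omega) (by omega) (by omega) (by omega)
    · obtain ⟨rfl, rfl, h⟩ := h
      exact NHT.p0i hf T (j := 0) (by omega) (by omega) (by omega) (by omega) (by omega) (by omega)
    · obtain ⟨rfl, rfl, h⟩ := h
      exact uP2 hf U (j := 0) (by omega) (by omega) (by omega) (by omega) (by omega) (by omega)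
    · obtain ⟨rfl, rfl, rfl, rfl⟩ := h
      exact h1 (by omega) (by omega) (by omega) (by omega)
    · obtain ⟨rfl, rfl, rfl, rfl⟩ := h
      exact h2 (by omega) (by omega) (by omega) (by omega)

/-- **K0 of the layer `6 k + 2`** in the IN row `c` of the top leader: the third cells above the wall of two adjacent
columns are not both zero, from the column `2 n + 1` on. -/
theorem k0_L2 (hf : Rule f) {k c n R x y : ℕ}
    (T : NHT f k c (2 * n)) (U : NHU f k c (2 * n))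
    (hL : ∀ {M R x y : ℕ}, M + 1 = 6 * k → c ≤ R + 10 → R ≤ c + 2 → 2 * n ≤ x + 10 → y ≤ x → x ≤ y + 4 * k → ¬ f M R x y)
    (C2 : Cyc f (6 * k + 2) (c - 4) (2 * (n - 3) + 2))
    (C4a : Cyc f (6 * k + 4) (c - 6) (2 * (n - 7) + 2)) (C4 : Cyc f (6 * k + 4) (c - 2) (2 * (n + 1) + 2))
    (C6a : Cyc f (6 * k + 6) (c - 8) (2 * (n - (k + 7)) + 2)) (C6 : Cyc f (6 * k + 6) (c - 4) (2 * (n - 5) + 2))
    (C8a : Cw f (6 * k + 8) (c - 6) (n - (k + 5))) (C8 : Cw f (6 * k + 8) (c - 2) (n - 3))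
    (hR : R = c) (hx : 2 * n + 1 ≤ x) (ho : x % 2 = 1) (hy : y + 2 * k = x + 5) :
    f (6 * k + 2) R x y ∨ f (6 * k + 2) R (x + 2) (y + 2) := by
  by_contra hc
  have h1' : ¬ f (6 * k + 2) R x y := fun h => hc (Or.inl h)
  have h2' : ¬ f (6 * k + 2) R (x + 2) (y + 2) := fun h => hc (Or.inr h)
  refine k0_aux hf T U hL C2 C4a C4 C6a C6 C8a C8 hx ho ?_ ?_
  · intro M' R' x' y' e1 e2 e3 e4 h
    exact h1' (mv h (by omega) (by omega) (by omega) (by omega))
  · intro M' R' x' y' e1 e2 e3 e4 h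
    exact h2' (mv h (by omega) (by omega) (by omega) (by omega))

/-- The same over the window of the leader `6 k + 10`. -/
theorem k0_L2_stack (hf : Rule f) {k b m R x y : ℕ} (hs : Side k b m) (S : Stack6 f k b m 0 0 0 0 0 1)
    (C2 : Cyc f (6 * k + 2) (b + 18) (2 * (m + 9 + (k + 2) * 4 - 3) + 2))
    (C4 : Cyc f (6 * k + 4) (b + 20) (2 * (m + 9 + (k + 2) * 4 + 1) + 2))
    (hR : R = b + 22) (hx : 2 * (m + 9 + (k + 2) * 4) + 1 ≤ x) (ho : x % 2 = 1) (hy : y + 2 * k = x + 5) :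
    f (6 * k + 2) R x y ∨ f (6 * k + 2) R (x + 2) (y + 2) := by
  have T := NHT.of_stack hs S
  have U := NHU.of_stack hs S
  have hlw : ∀ {M R x y : ℕ}, M + 1 = 6 * k → b + 22 ≤ R + 10 → R ≤ b + 22 + 2 →
      2 * (m + 9 + (k + 2) * 4) ≤ x + 10 → y ≤ x → x ≤ y + 4 * k → ¬ f M R x y := by
    intro M R x y e1 e2 e3 e4 e5 e6
    have hb := hs.2.2.2.1
    have e : M = 6 * k - 1 := by omega
    subst e
    exact lw_zero hs S (i := R - b) (by omega) (by omega) (by omega) e5 (by omega)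
  obtain ⟨hk, hb, h4, hb2, hm⟩ := hs
  refine k0_L2 hf (c := b + 22) (n := m + 9 + (k + 2) * 4) T U hlw ?_ ?_ ?_ ?_ ?_ ?_ ?_ hR hx ho hy
  · have e : b + 22 - 4 = b + 18 := by omega
    rw [e]
    exact C2
  · have e : b + 22 - 6 = b + 4 * 4 := by omega
    have e2 : m + 9 + (k + 2) * 4 - 7 = m + 2 + 0 + (k + 2) * 4 := by omega
    rw [e, e2]
    exact S.l4 4
  · have e : b + 22 - 2 = b + 20 := by omega
    rw [e]
    exact C4
  · have e : b + 22 - 8 = b + 2 + 4 * 3 := by omega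
    have e2 : m + 9 + (k + 2) * 4 - (k + 7) = m + 4 + 0 + (k + 2) * 3 := by omega
    rw [e, e2]
    exact S.l6 3
  · have e : b + 22 - 4 = b + 2 + 4 * 4 := by omega
    have e2 : m + 9 + (k + 2) * 4 - 5 = m + 4 + 0 + (k + 2) * 4 := by omega
    rw [e, e2]
    exact S.l6 4
  · have e : b + 22 - 6 = b + 4 + 4 * 3 := by omega
    have e2 : m + 9 + (k + 2) * 4 - (k + 5) = m + 6 + 0 + (k + 2) * 3 := by omega
    rw [e, e2]
    exact S.l8 3
  · have e : b + 22 - 2 = b + 4 + 4 * 4 := by omega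
    have e2 : m + 9 + (k + 2) * 4 - 3 = m + 6 + 0 + (k + 2) * 4 := by omega
    rw [e, e2]
    exact S.l8 4

end Pool.Agent.SNT.K0L2c
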