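import Pool.Agent.SNT.PV

set_option autoImplicit false
set_option synthInstance.maxSize 100000
set_option synthInstance.maxHeartbeats 4000000

/-! Near-diagonal windows (PVt), leads of `PV`. -/

namespace Pool.Agent.SNT.PV

open Pool.Agent.SNT Pool.Agent.SNT.Sig Pool.Agent.SNT.Loc Pool.Agent.SNT.LW Pool.Agent.SNT.NHZ Pool.Agent.SNT.DRun Pool.Agent.SNT.PB

variable {f : ℕ → ℕ → ℕ → ℕ → Prop}

theorem t1_chk : check 5 6 9 9 0 0 1 1 2
    (fun j n p q => decide ((j = 2 ∧ n = 1 ∧ q ≤ p ∧ (p = q ∧ p % 2 = 0))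
      ∨ (j = 4 ∧ n = 2 ∧ q ≤ p ∧ ((p + q) % 2 = 1 ∧ p % 2 = 1))
      ∨ (j = 4 ∧ n = 3 ∧ q ≤ p ∧ 3 ≤ q ∧ (p = q ∧ p % 2 = 0))
      ∨ (j = 4 ∧ n = 4 ∧ p = 6 ∧ q = 1)))
    (fun j n p q => decide ((j = 1 ∧ n = 2 ∧ q ≤ p)
      ∨ (j = 1 ∧ n = 3 ∧ q ≤ p)
      ∨ (j = 1 ∧ n = 4 ∧ q ≤ p)
      ∨ (j = 5 ∧ n = 4 ∧ q + 3 ≤ p)
      ∨ (j = 4 ∧ n = 4 ∧ p = 6 ∧ q = 5)))
    99
    0x274830367800487f202788303940003940403988e02a58303988003988403980e02a503039800039804029c83038f80038f84036b0e027803036b00036b04047e8005724a04758004638004598004318004298004288002228005820e058207057d8e057d87048b8e048b87048707047f0704898e04898f04638f04598f04358e04358f043d8e043d8f04348e04348f02a10702a007029807025007024f0702470702228f01b28701b20701b18701ae0701ad8701ad0701ad8e01ad8701a90701ad0e01ad0701a88e01a887018a0701898701890701858701850701848701898e01898701850e01850701808701800701890e01890701848e01848701800e018007015d07015c87015c0701610e016107015c8e015c8701580701578701608e016087015c0e015c07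 = true := by
  decide +kernel

theorem t1 (hf : Rule f) {k c n : ℕ} (H : PV f k c n)
    (h0 : f (6 * k + 2) (c) (2 * n + 3) (2 * n - 2))
    (z0 : ¬ f (6 * k + 2) (c) (2 * n + 3) (2 * n + 2)) : False := by
  have hk := H.T.hk
  have hc := H.T.hc
  have h4' := H.T.h4
  have hb := H.T.hb
  have hN := H.T.hN2
  obtain ⟨a0, ha0⟩ : ∃ z, z + 2 = 6 * k := ⟨6 * k - 2, by omega⟩
  obtain ⟨b0, hb0⟩ : ∃ z, z + 4 = c := ⟨c - 4, by omega⟩
  obtain ⟨x0, hx0⟩ : ∃ z, z + 3 = 2 * n := ⟨2 * n - 3, by omega⟩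
  refine check_sound hf (a0 := a0) (b0 := b0) (x0 := x0) (y0 := x0) t1_chk
    ⟨fun _ => rfl, fun h => absurd h (by decide), fun h => absurd h (by decide), by omega, by omega,
      by omega, by omega⟩ ?_ ?_
  · intro j m p q hr h
    obtain ⟨-, -, -, -, hp1, hp2, hq1, hq2⟩ := hr
    replace h := of_decide_eq_true h
    rcases h with h | h | h | h
    · obtain ⟨rfl, rfl, h⟩ := h
      exact (WrapC.v3 H.c0 (by omega) (by omega) (by omega) (by omega) (by omega) (by omega) (by omega) (by omega)).mpr (by omega)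
    · obtain ⟨rfl, rfl, h⟩ := h
      exact (WrapC.v2 H.c2 (by omega) (by omega) (by omega) (by omega) (by omega) (by omega) (by omega)).mpr (by omega)
    · obtain ⟨rfl, rfl, h⟩ := h
      exact (WrapC.v3 H.c2 (by omega) (by omega) (by omega) (by omega) (by omega) (by omega) (by omega) (by omega)).mpr (by omega)
    · obtain ⟨rfl, rfl, rfl, rfl⟩ := h
      exact mv h0 (by omega) (by omega) (by omega) (by omega)
  · intro j m p q hr h
    obtain ⟨-, -, -, -, hp1, hp2, hq1, hq2⟩ := hr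
    replace h := of_decide_eq_true h
    rcases h with h | h | h | h | h
    · obtain ⟨rfl, rfl, h⟩ := h
      exact H.lw _ _ _ _ (by omega) (by omega) (by omega) (by omega) (by omega) (by omega)
    · obtain ⟨rfl, rfl, h⟩ := h
      exact H.lw _ _ _ _ (by omega) (by omega) (by omega) (by omega) (by omega) (by omega)
    · obtain ⟨rfl, rfl, h⟩ := h
      exact H.lw _ _ _ _ (by omega) (by omega) (by omega) (by omega) (by omega) (by omega)
    · obtain ⟨rfl, rfl, h⟩ := h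
      exact NHT.p0 hf H.T (j := 2) (by omega) (by omega) (by omega) (by omega) (by omega) (by omega)
    · obtain ⟨rfl, rfl, rfl, rfl⟩ := h
      exact fun t => z0 (mv t (by omega) (by omega) (by omega) (by omega))

theorem c7_t0_5_chk : check 8 7 13 13 1 1 1 1 2
    (fun j n p q => decide ((j = 1 ∧ n = 1 ∧ q ≤ p ∧ ((p + q) % 2 = 1 ∧ p % 2 = 1))
      ∨ (j = 3 ∧ n = 1 ∧ q ≤ p ∧ 6 ≤ p ∧ ((p + q) % 2 = 1 ∧ p % 2 = 0))
      ∨ (j = 3 ∧ n = 3 ∧ q ≤ p ∧ 7 ≤ q ∧ ((p + q) % 2 = 1 ∧ p % 2 = 1))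
      ∨ (j = 5 ∧ n = 1 ∧ q ≤ p ∧ ((p + q) % 2 = 1 ∧ p % 2 = 1))
      ∨ (j = 5 ∧ n = 2 ∧ q ≤ p ∧ (p = q ∧ p % 2 = 0))
      ∨ (j = 7 ∧ n = 3 ∧ q ≤ p ∧ ((p + q) % 2 = 1 ∧ p % 2 = 1))
      ∨ (j = 7 ∧ n = 4 ∧ q ≤ p ∧ (p = q ∧ p % 2 = 0))
      ∨ (j = 1 ∧ n = 3 ∧ p = 6 ∧ q = 5)
      ∨ (j = 1 ∧ n = 5 ∧ p = 8 ∧ q = 5)
      ∨ (j = 3 ∧ n = 1 ∧ p = 2 ∧ q = 1)
      ∨ (j = 5 ∧ n = 3 ∧ p = 4 ∧ q = 3)))
    (fun j n p q => decide ((j = 4 ∧ n = 3 ∧ q + 2 ≤ p)
      ∨ (j = 3 ∧ n = 4 ∧ q + 3 ≤ p)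
      ∨ (j = 5 ∧ n = 4 ∧ q + 2 ≤ p)
      ∨ (j = 6 ∧ n = 4 ∧ 5 ≤ q ∧ q + 2 ≤ p)
      ∨ (j = 6 ∧ n = 5 ∧ 5 ≤ q ∧ q + 2 ≤ p)
      ∨ (j = 8 ∧ n = 5 ∧ 5 ≤ q ∧ q + 1 ≤ p)
      ∨ (j = 5 ∧ n = 3 ∧ p = 6 ∧ q = 5)))
    333
    0x145a030f5f800f5f810f6e030ac8000ac8010622000622010f6e030ac8000ac80105cd8005cd840427800677ca0f6e030ac8000ac80105cd8005ce0a03d38003d3840f6e030ac8000ac80105cd8005ce0a03d30003d30408720e0a66830872000872040f6e030ac8000ac80105cd800622220677000677040a6c030a6c800a6c840f6e030a73800a73840a6c030ac1000ac10405c78303cc8003cc8405c783061c80061c8405c78303cd0003cd040b1d830623000623040a6d8305c10005c1040ac78e0a72830ac7800ac7840622030622800622840b1d8306778006778406280e05d3830628000628040ad48e0fcf030ad4800ad4840a6d830872800872840b228e0fc8830b22800b22840b230e0fc8830b23000b23040b290e0fcf030b29000b29040b298e0fcf030b29800b298408228e0a79830822800822840ace0e0a79830ace000ace040a5e83080f8008158008158e08158405d38e0a798305d38005d3840d668e0fb5830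d66800d66840f618e145b830f61800f61841468030fc2000fc2041468030f74000f74040d180e0f67030d1e000d18000d180e0d18041468030fc8800fc8841467830fc8000fc8040f6d0e1467830f6d000f6d040f6d8e0f67030f67800f6d800f6d8e0f6d840a6d0e0f67030a73000a6d000a6d0e0a6d040fb58e145b830fb5800fb58414548e1454031454801454840d0a000d10000d100e0d10040d02800cb4000ca80007ac800f52420f044a0efe5209fc4211c48011b68011a880116880116780116280115a801159801155801154801147800ca6800ca0800c6e800c60800c52800c04800bfe80082a80082480077a80077980077480076c80076780076680075080074a80041a8003768003708002d48002d38002ce8002c18014680714678714670714678e146787145a0714598714670e146707145a0e145a0714598e14598712120712110712050712040711c48f11b68f11a88f11688f11678f11688e11688f115a8f11598f11678e11678f115a8e115a8f11598e11598f0fcf070fce870fc10e0fc1070f7a870f7a070f6c8e0f6c870d7f070d72070d66070d2b070d2a870d24870d24070d1d870d1d8e0d1d870cca070cbc070cbb070cb4870cb48e0cb4870cae070ca68f0ca68e0ca68f0c6e8f0c608f0c528f0c048f0c048e0c048f0a79870a79070a72870a72070a798e0a79870a790e0a79070a728e0a72870a720e0a720708c70708850e088507082a8f082a07082a8e082a8f081e07081d07081c07081007080f07077a8f07798f077a8e077a8f076c8f07798e07798f076c8e076c8f07580707508f07508e07508f042807042c8e042c8f037e07037d0703768f03710703768e03768f02d48f02d38f02d48e02d48f02d38e02d38f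 = true := by
  decide +kernel

theorem c7_t0_5 (hf : Rule f) {k c n : ℕ} (H : PV f k c n)
    (h0 : f (6 * k + 2) (c + 2) (2 * n + 7) (2 * n + 4))
    (h1 : f (6 * k + 2) (c) (2 * n + 5) (2 * n + 4))
    (h2 : f (6 * k + 6) (c) (2 * n + 3) (2 * n + 2))
    (h3 : f (6 * k + 4) (c - 2) (2 * n + 1) (2 * n))
    (_z0 : ¬ f (6 * k + 2) (c) (2 * n + 3) (2 * n + 2))
    (z1 : ¬ f (6 * k + 6) (c) (2 * n + 5) (2 * n + 4)) : False := by
  have hk := H.T.hk
  have hc := H.T.hc
  have h4' := H.T.h4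
  have hb := H.T.hb
  have hN := H.T.hN2
  obtain ⟨a0, ha0⟩ : ∃ z, z = 6 * k + 1 := ⟨_, rfl⟩
  obtain ⟨b0, hb0⟩ : ∃ z, z + 3 = c := ⟨c - 3, by omega⟩
  obtain ⟨x0, hx0⟩ : ∃ z, z + 1 = 2 * n := ⟨2 * n - 1, by omega⟩
  refine check_sound hf (a0 := a0) (b0 := b0) (x0 := x0) (y0 := x0) c7_t0_5_chk
    ⟨fun _ => rfl, fun h => absurd h (by decide), fun h => absurd h (by decide), by omega, by omega,
      by omega, by omega⟩ ?_ ?_
  · intro j m p q hr h
    obtain ⟨-, -, -, -, hp1, hp2, hq1, hq2⟩ := hr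
    replace h := of_decide_eq_true h
    rcases h with h | h | h | h | h | h | h | h | h | h | h
    · obtain ⟨rfl, rfl, h⟩ := h
      exact (WrapC.v2 H.c2 (by omega) (by omega) (by omega) (by omega) (by omega) (by omega) (by omega)).mpr (by omega)
    · obtain ⟨rfl, rfl, h⟩ := h
      exact (WrapC.v0 H.c4 (by omega) (by omega) (by omega) (by omega) (by omega) (by omega) (by omega)).mpr (by omega)
    · obtain ⟨rfl, rfl, h⟩ := h
      exact (WrapC.v2 H.c4 (by omega) (by omega) (by omega) (by omega) (by omega) (by omega) (by omega)).mpr (by omega)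
    · obtain ⟨rfl, rfl, h⟩ := h
      exact (WrapC.v2 H.c6 (by omega) (by omega) (by omega) (by omega) (by omega) (by omega) (by omega)).mpr (by omega)
    · obtain ⟨rfl, rfl, h⟩ := h
      exact (WrapC.v3 H.c6 (by omega) (by omega) (by omega) (by omega) (by omega) (by omega) (by omega) (by omega)).mpr (by omega)
    · obtain ⟨rfl, rfl, h⟩ := h
      exact (NW.w2v H.c8 (by omega) (by omega) (by omega) (by omega) (by omega) (by omega) (by omega)).mpr (by omega)
    · obtain ⟨rfl, rfl, h⟩ := h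
      exact (NW.w3v H.c8 (by omega) (by omega) (by omega) (by omega) (by omega) (by omega) (by omega) (by omega)).mpr (by omega)
    · obtain ⟨rfl, rfl, rfl, rfl⟩ := h
      exact mv h1 (by omega) (by omega) (by omega) (by omega)
    · obtain ⟨rfl, rfl, rfl, rfl⟩ := h
      exact mv h0 (by omega) (by omega) (by omega) (by omega)
    · obtain ⟨rfl, rfl, rfl, rfl⟩ := h
      exact mv h3 (by omega) (by omega) (by omega) (by omega)
    · obtain ⟨rfl, rfl, rfl, rfl⟩ := h
      exact mv h2 (by omega) (by omega) (by omega) (by omega)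
  · intro j m p q hr h
    obtain ⟨-, -, -, -, hp1, hp2, hq1, hq2⟩ := hr
    replace h := of_decide_eq_true h
    rcases h with h | h | h | h | h | h | h
    · obtain ⟨rfl, rfl, h⟩ := h
      exact NHT.p0 hf H.T (j := 1) (by omega) (by omega) (by omega) (by omega) (by omega) (by omega)
    · obtain ⟨rfl, rfl, h⟩ := h
      exact fun t => NHT.r1 hf H.T (p := 0) (j := 2) (by omega) (by omega) (by omega) (by omega) (by omega) (by omega) (mv t rfl (by omega) rfl rfl)
    · obtain ⟨rfl, rfl, h⟩ := h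
      exact fun t => NHT.r1 hf H.T (p := 0) (j := 1) (by omega) (by omega) (by omega) (by omega) (by omega) (by omega) (mv t rfl (by omega) rfl rfl)
    · obtain ⟨rfl, rfl, h⟩ := h
      exact NHT.p2 hf H.T (j := 1) (by omega) (by omega) (by omega) (by omega) (by omega) (by omega)
    · obtain ⟨rfl, rfl, h⟩ := h
      exact NHT.p2 hf H.T (j := 1) (by omega) (by omega) (by omega) (by omega) (by omega) (by omega)
    · obtain ⟨rfl, rfl, h⟩ := h
      exact NHT.p2 hf H.T (j := 0) (by omega) (by omega) (by omega) (by omega) (by omega) (by omega)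
    · obtain ⟨rfl, rfl, rfl, rfl⟩ := h
      exact fun t => z1 (mv t (by omega) (by omega) (by omega) (by omega))

end Pool.Agent.SNT.PV
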