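import Pool.Agent.SNT.PurW
import Pool.Agent.SNT.PVt
import Pool.Agent.SNT.PV7a
import Pool.Agent.SNT.PV7b
import Pool.Agent.SNT.PV7c
import Pool.Agent.SNT.K0L2c

set_option autoImplicit false

/-! The purity of the OUT row `c + 2` of the layers `6 k + 2`, `6 k + 6` at `y = 2 n + 4`, over the leads `n - 6` of `6 k`,
`n - 3` of `6 k + 2` and `n + 1` of `6 k + 4`, from `x = 2 n + 7` on. -/

namespace Pool.Agent.SNT.PV

open Pool.Agent.SNT Pool.Agent.SNT.Sig Pool.Agent.SNT.NHZ Pool.Agent.SNT.DRun Pool.Agent.SNT.Pur20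

variable {f : ℕ → ℕ → ℕ → ℕ → Prop} {k c n : ℕ}

/-- the run up to the diagonal in the layer `6 k + 2`, row `c` -/
theorem tip_of (hf : Rule f) (H : PV f k c n) {x y : ℕ} (hx : x % 2 = 1) (hX : 2 * n + 3 ≤ x) (hy : y + 2 * k = x + 5)
    (h0 : f (6 * k + 2) c x y) : f (6 * k + 2) c x (x - 1) := by
  have hk := H.T.hk
  have hN := H.T.hN2
  rcases Nat.lt_or_ge x (2 * n + 5) with h | h
  · have h1 := run2' hf H.T hx (y0 := y) (by omega) (by omega) (by omega) h0 (x - 5) (by omega) (by omega) (by omega)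
    obtain rfl : x = 2 * n + 3 := by omega
    by_contra h2
    exact t1 hf H (by rwa [show 2 * n + 3 - 5 = 2 * n - 2 by omega] at h1)
      (by rwa [show 2 * n + 3 - 1 = 2 * n + 2 by omega] at h2)
  · exact PW.tip_of hf H.toPW hx h hy h0

/-- tips of `6 k + 2` in the row `c` -/
theorem tipsV (hf : Rule f) (H : PV f k c n)
    (K2 : ∀ x y : ℕ, 2 * n + 3 ≤ x → x % 2 = 1 → y + 2 * k = x + 5 → f (6 * k + 2) c x y ∨ f (6 * k + 2) c (x + 2) (y + 2)) :
    Tips f (6 * k + 2) c n := by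
  have hk := H.T.hk
  have hN := H.T.hN2
  intro x hx hX
  obtain ⟨y, hy⟩ : ∃ y, y + 2 * k = x + 5 := ⟨x + 5 - 2 * k, by omega⟩
  rcases K2 x y hX hx hy with h | h
  · exact Or.inl (tip_of hf H hx hX hy h)
  · exact Or.inr (tip_of hf H (x := x + 2) (y := y + 2) (by omega) (by omega) (by omega) h)

/-- two pairs of tips of `6 k + 4` in the row `c - 2` -/
structure T4 (f : ℕ → ℕ → ℕ → ℕ → Prop) (k c n : ℕ) : Prop where
  a : f (6 * k + 4) (c - 2) (2 * n - 1) (2 * n - 2) ∨ f (6 * k + 4) (c - 2) (2 * n + 1) (2 * n)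
  b : f (6 * k + 4) (c - 2) (2 * n + 1) (2 * n) ∨ f (6 * k + 4) (c - 2) (2 * n + 3) (2 * n + 2)

theorem co2_7 (hf : Rule f) (H : PV f k c n) (t4 : T4 f k c n) (t2 : Tips f (6 * k + 2) c n)
    (t6 : Tips f (6 * k + 6) c n) : ¬ f (6 * k + 2) (c + 2) (2 * n + 7) (2 * n + 4) := by
  intro h0
  have a := t2 (2 * n + 3) (by omega) (by omega)
  have b := t6 (2 * n + 3) (by omega) (by omega)
  have e1 : 2 * n + 3 - 1 = 2 * n + 2 := by omega
  have e2 : 2 * n + 3 + 2 = 2 * n + 5 := by omega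
  have e3 : 2 * n + 3 + 1 = 2 * n + 4 := by omega
  rw [e1, e2, e3] at a b
  by_cases T0 : f (6 * k + 4) (c - 2) (2 * n + 1) (2 * n)
  · by_cases A1 : f (6 * k + 2) c (2 * n + 3) (2 * n + 2)
    · by_cases B1 : f (6 * k + 6) c (2 * n + 3) (2 * n + 2)
      · by_cases B2 : f (6 * k + 6) c (2 * n + 5) (2 * n + 4)
        · exact c7_t0_0 hf H h0 A1 B1 B2 T0
        · exact c7_t0_1 hf H h0 A1 B1 T0 B2
      · have B2 := b.resolve_left B1
        by_cases A2 : f (6 * k + 2) c (2 * n + 5) (2 * n + 4)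
        · exact c7_t0_2 hf H h0 A1 A2 B2 T0
        · exact c7_t0_3 hf H h0 A1 B2 T0 A2 B1
    · have A2 := a.resolve_left A1
      by_cases B2 : f (6 * k + 6) c (2 * n + 5) (2 * n + 4)
      · exact c7_t0_4 hf H h0 A2 B2 T0 A1
      · exact c7_t0_5 hf H h0 A2 (b.resolve_right B2) T0 A1 B2
  · have Tm := t4.a.resolve_right T0
    have T1 := t4.b.resolve_left T0
    rcases a with A | A <;> rcases b with B | B
    · exact c7_t1_0 hf H h0 A B Tm T1
    · exact c7_t1_1 hf H h0 A B Tm T1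
    · exact c7_t1_2 hf H h0 A B Tm T1
    · exact c7_t1_3 hf H h0 A B Tm T1

section
variable {b m : ℕ}

/-- The tips of `6 k + 2` in the row `c`. -/
theorem tips2_stack (hf : Rule f) (hs : Side k b m) (S : Stack6 f k b m 0 0 0 0 0 1) (hn : n = m + 9 + (k + 2) * 4)
    (d0 : Cyc f (6 * k) (b + 16) (2 * (n - 6) + 2)) (d2 : Cyc f (6 * k + 2) (b + 18) (2 * (n - 3) + 2))
    (d4 : Cyc f (6 * k + 4) (b + 20) (2 * (n + 1) + 2)) : Tips f (6 * k + 2) (b + 22) n := by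
  have H := PV.of_stack hs S hn d0 d2 d4
  subst hn
  exact tipsV hf H (fun x y h1 h2 h3 => K0L2c.k0_L2_stack hf hs S d2 d4 rfl (by omega) h2 h3)

/-- **[D] The purity at `y = 2 n + 4`, leads `n - 6`, `n - 3`, `n + 1`.** -/
theorem purity_stack (hf : Rule f) (hs : Side k b m) (S : Stack6 f k b m 0 0 0 0 0 1) (hn : n = m + 9 + (k + 2) * 4)
    (d0 : Cyc f (6 * k) (b + 16) (2 * (n - 6) + 2)) (d2 : Cyc f (6 * k + 2) (b + 18) (2 * (n - 3) + 2))
    (d4 : Cyc f (6 * k + 4) (b + 20) (2 * (n + 1) + 2)) {x : ℕ} (hx : x % 2 = 1) (h1 : 2 * n + 7 ≤ x)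
    (h2 : x + 1 ≤ 2 * n + 2 * k) :
    ¬ f (6 * k + 2) (b + 24) x (2 * n + 4) ∧ ¬ f (6 * k + 6) (b + 24) x (2 * n + 4) := by
  have P := PW.purity_stack hf hs S hn (WrapC.cyc_mono d0 (by omega)) (WrapC.cyc_mono d2 (by omega)) d4 hx h2
  refine ⟨?_, P.2 h1⟩
  rcases Nat.lt_or_ge x (2 * n + 9) with h | h
  · obtain rfl : x = 2 * n + 7 := by omega
    have H := PV.of_stack hs S hn d0 d2 d4
    have t2 := tips2_stack hf hs S hn d0 d2 d4
    have t6 := PW.tips6_stack hf hs S hn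
    have t4 : T4 f k (b + 22) n := by
      have hN := H.T.hN2
      have hk := H.T.hk
      have A := K0L4.tip4_stack hf hs S (x := 2 * n - 1) (by omega) (by omega)
      have B := K0L4.tip4_stack hf hs S (x := 2 * n + 1) (by omega) (by omega)
      refine ⟨?_, ?_⟩
      · rwa [show 2 * n - 1 - 1 = 2 * n - 2 by omega, show 2 * n - 1 + 2 = 2 * n + 1 by omega,
          show 2 * n - 1 + 1 = 2 * n by omega] at A
      · rwa [show 2 * n + 1 - 1 = 2 * n by omega, show 2 * n + 1 + 2 = 2 * n + 3 by omega,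
          show 2 * n + 1 + 1 = 2 * n + 2 by omega] at B
    exact co2_7 hf H t4 t2 t6
  · exact P.1 h

end

end Pool.Agent.SNT.PV
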