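import Pool.Agent.SNT.Up3

set_option autoImplicit false

/-! The upper bound, part 4: the layer `a` is static ahead of the line of slope
`max (2, (a / 6 + 2) / 2)`. -/

namespace Pool.Agent.SNT

variable {f : ℕ → ℕ → ℕ → ℕ → Prop}

theorem cc_facts (a : ℕ) : cc a % 2 = 0 ∧ 4 ≤ cc a ∧ 2 * (a / 6) ≤ cc a := by
  unfold cc
  omega

theorem cc_mono {a b : ℕ} (h : a ≤ b) : cc a ≤ cc b := by
  unfold cc
  omega

/-- The cycle, iterated: from one row of an even layer, as long as the odd layer below is static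
ahead of the front. -/
theorem cycles_from (hf : Rule f) {a b K : ℕ} (hab : a + 4 ≤ b) (ha : a % 2 = 0) (hb : b % 2 = 0)
    (h4 : (a + b) % 4 = 2) (hK : a + b + 10 ≤ K) (hK2 : K % 2 = 0) (h0 : St f a b K)
    (hA : ∀ n i : ℕ, i ≤ 4 → 1 ≤ a → St f (a - 1) (b + 4 * n + i) (K + (cc a + 4) * n)) :
    ∀ n : ℕ, Cyc f a (b + 4 * n) (K + (cc a + 4) * n) := by
  obtain ⟨h1, h2, _⟩ := cc_facts a
  have key : ∀ n : ℕ, St f a (b + 4 * n) (K + (cc a + 4) * n) →
      Cyc f a (b + 4 * n) (K + (cc a + 4) * n) := by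
    intro n hn
    have h3 : ((cc a + 4) * n) % 2 = 0 := by
      rw [Nat.mul_mod]
      have : (cc a + 4) % 2 = 0 := by omega
      rw [this]
      simp
    have h5 : 8 * n ≤ (cc a + 4) * n := Nat.mul_le_mul_right n (by omega)
    refine cycle hf (by omega) ha (by omega) (by omega) (by omega) (by omega) hn ?_
    intro i hi ha1
    exact hA n i hi ha1
  intro n
  refine key n ?_
  induction n with
  | zero => exact h0
  | succ n ih =>
    have h3 := (key n ih).r4
    have e1 : b + 4 * n + 4 = b + 4 * (n + 1) := by ring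
    have e2 : K + (cc a + 4) * n + cc a + 4 = K + (cc a + 4) * (n + 1) := by ring
    rw [e1, e2] at h3
    exact h3

/-- The linear upper bound of a layer. -/
def Lin (f : ℕ → ℕ → ℕ → ℕ → Prop) (a C : ℕ) : Prop :=
  ∀ b K : ℕ, (cc a + 4) * b + C ≤ 4 * K → St f a b K

theorem lin_even (hf : Rule f) {a C' : ℕ} (ha : a % 2 = 0)
    (hlow : 1 ≤ a → Lin f (a - 1) C') : ∃ C : ℕ, Lin f a C := by
  obtain ⟨h1, h2, _⟩ := cc_facts a
  obtain ⟨K0, hK0⟩ : ∃ K0 : ℕ, K0 = 2 * (KK (a + (a + 6)) + (a + (a + 6) + 10) +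
    (cc a + 4) * (a + 6 + 4) + C') := ⟨_, rfl⟩
  have hcyc := cycles_from hf (a := a) (b := a + 6) (K := K0) (by omega) ha (by omega) (by omega)
    (by omega) (by omega) ((limit_quant hf a (a + 6)).mono (by omega)) (by
      intro n i hi ha1
      refine hlow ha1 _ _ ?_
      have h3 : (cc (a - 1) + 4) * (a + 6 + 4 * n + i) ≤ (cc a + 4) * (a + 6 + 4 + 4 * n) :=
        Nat.mul_le_mul (by have := cc_mono (show a - 1 ≤ a by omega); omega) (by omega)
      have h4 : (cc a + 4) * (a + 6 + 4 + 4 * n) = (cc a + 4) * (a + 6 + 4) +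
        4 * ((cc a + 4) * n) := by ring
      omega)
  refine ⟨4 * K0 + 4 * (cc a + 4), ?_⟩
  intro b K hb
  rcases Nat.lt_or_ge b (a + 6) with h3 | h3
  · have h4 : KK (a + b) ≤ KK (a + (a + 6)) := KK_mono (by omega)
    exact (limit_quant hf a b).mono (by omega)
  · obtain ⟨n, i, hi, rfl⟩ : ∃ n i, i < 4 ∧ b = a + 6 + 4 * n + i :=
      ⟨(b - (a + 6)) / 4, (b - (a + 6)) % 4, by omega, by omega⟩
    have h5 : (cc a + 4) * (4 * n) ≤ (cc a + 4) * (a + 6 + 4 * n + i) :=
      Nat.mul_le_mul_left _ (by omega)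
    have h6 : (cc a + 4) * (4 * n) = 4 * ((cc a + 4) * n) := by ring
    have hc := hcyc n
    have hi' : i = 0 ∨ i = 1 ∨ i = 2 ∨ i = 3 := by omega
    rcases hi' with rfl | rfl | rfl | rfl
    · exact hc.r0.mono (by omega)
    · exact hc.r1.mono (by omega)
    · exact hc.r2.mono (by omega)
    · exact hc.r3.mono (by omega)

theorem lin_odd (hf : Rule f) {a C' : ℕ} (ha : a % 2 = 1)
    (hlow : Lin f (a - 1) C') : ∃ C : ℕ, Lin f a C := by
  obtain ⟨h1, h2, _⟩ := cc_facts a
  obtain ⟨C1, hC1⟩ : ∃ C1 : ℕ, C1 = 4 * KK (a + (a + 4)) + 4 * (a + 20) + C' + 8 := ⟨_, rfl⟩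
  have key : ∀ m K : ℕ, K % 2 = 0 → (cc a + 4) * (a + 4 + m) + C1 ≤ 4 * K →
      St f a (a + 4 + m) K := by
    intro m
    induction m with
    | zero =>
      intro K hK hle
      exact (limit_quant hf a (a + 4)).mono (by omega)
    | succ m ih =>
      intro K hK hle
      have h3 : (cc a + 4) * (a + 4 + (m + 1)) = (cc a + 4) * (a + 4 + m) + (cc a + 4) := by ring
      have h5 : 8 * (a + 4 + m) ≤ (cc a + 4) * (a + 4 + m) := Nat.mul_le_mul_right _ (by omega)
      have h6 : cc (a - 1) ≤ cc a := cc_mono (by omega)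
      have h7 : (cc (a - 1) + 4) * (a + 4 + (m + 1)) ≤ (cc a + 4) * (a + 4 + (m + 1)) :=
        Nat.mul_le_mul_right _ (by omega)
      have h8 : (cc (a - 1) + 4) * (a + 4 + m) ≤ (cc a + 4) * (a + 4 + m) :=
        Nat.mul_le_mul_right _ (by omega)
      have hls : LSK f a (a + 4 + (m + 1)) (K - 2) := by
        intro x y hxy p q hp hq hpq hpa hqb
        rcases Nat.eq_zero_or_pos p with hp0 | hp0
        · subst hp0
          have hq1 : q = 1 := by omega
          subst hq1
          exact ih (K - 2) (by omega) (by omega) x y hxy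
        · have hp1 : p = 1 := by omega
          subst hp1
          rcases Nat.eq_zero_or_pos q with hq0 | hq0
          · subst hq0
            exact hlow (a + 4 + (m + 1)) (K - 2) (by omega) x y hxy
          · have hq1 : q = 1 := by omega
            subst hq1
            exact hlow (a + 4 + m) (K - 2) (by omega) x y hxy
      have h9 := QF_even_flat hf (by omega) (by omega) (by omega) hls (Or.inl ha)
      exact h9.mono (by omega)
  refine ⟨C1 + 4, ?_⟩
  intro b K hb
  rcases Nat.lt_or_ge b (a + 4) with h3 | h3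
  · have h4 : KK (a + b) ≤ KK (a + (a + 4)) := KK_mono (by omega)
    exact (limit_quant hf a b).mono (by omega)
  · obtain ⟨m, rfl⟩ : ∃ m, b = a + 4 + m := ⟨b - (a + 4), by omega⟩
    rcases Nat.mod_two_eq_zero_or_one K with hK | hK
    · exact key m K hK (by omega)
    · exact (key m (K - 1) (by omega) (by omega)).mono (by omega)

theorem lin (hf : Rule f) (a : ℕ) : ∃ C : ℕ, Lin f a C := by
  induction a with
  | zero => exact lin_even hf (C' := 0) rfl (fun h => absurd h (by omega))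
  | succ a ih =>
    obtain ⟨C', hC'⟩ := ih
    rcases Nat.mod_two_eq_zero_or_one (a + 1) with h | h
    · exact lin_even hf h (fun _ => hC')
    · exact lin_odd hf h hC'

/-- THE UPPER BOUND: the layer `a` is static for `4 max (x, y) > max (8, 2 (a / 6) + 4) b + C`. -/
theorem upper (hf : Rule f) (a : ℕ) : ∃ C : ℕ, ∀ b x y : ℕ,
    max 8 (2 * (a / 6) + 4) * b + C < 4 * max x y → (f a b x y ↔ Fst a b x y) := by
  obtain ⟨C, hC⟩ := lin hf a
  refine ⟨C + 4, ?_⟩
  intro b x y h
  have e : max 8 (2 * (a / 6) + 4) = cc a + 4 := by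
    unfold cc
    omega
  rw [e] at h
  exact hC b (max x y - 1) (by omega) x y (by omega)

end Pool.Agent.SNT
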