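import Pool.Agent.SNT.LocZ
import Pool.Agent.SNT.Up4

set_option autoImplicit false

/-! The explicit values of the four rows of a cycle (`Cyc`), at every cell of the near zone. `L` is
an even layer, `B` its IN row, `R` the row of the cell. -/

namespace Pool.Agent.SNT.WrapC

variable {f : ℕ → ℕ → ℕ → ℕ → Prop} {M L B K R x y : ℕ}

theorem v0 (C : Cyc f L B K) (hM : M = L) (hL : L % 2 = 0) (hB : (L + B) % 4 = 2) (hR : R = B) (hyx : y ≤ x)
    (hn : x + L + 12 ≤ R + y) (hK : K < x) : f M R x y ↔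
      ((x + y) % 2 = 1 ∧ x < y + 2 * (L / 6) ∧ x % 2 = 1) ∨
      ((x + y) % 2 = 1 ∧ 2 * (L / 6) + y ≤ x + 1 ∧ (x + y + 1) % 4 = (2 * (L / 6)) % 4) := by
  subst hR hM
  rw [C.r0 x y (by rw [max_eq_left hyx]; exact hK)]
  exact LocZ.fst_two hL hB hyx hn

theorem v1 (C : Cyc f L B K) (hM : M = L) (hL : L % 2 = 0) (h6 : 6 ≤ L) (hB : (L + B) % 4 = 2)
    (hR : R = B + 1) (hyx : y ≤ x) (hn : x + L + 12 ≤ R + y)
    (hK : K + 2 < x ∨ (x ≤ y + 2 * (L / 6) ∧ K + 1 < x)) : f M R x y ↔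
      ((x + y) % 2 = 0 ∧ 2 * (L / 6) + y ≤ x ∧ (x + y + 2) % 4 = (2 * (L / 6)) % 4) ∨
      (x = y ∧ x % 2 = 0) := by
  subst hR hM
  have h : f M (B + 1) x y ↔ Fst M (B + 1) x y := by
    rcases hK with hK | hK
    · exact C.r1 x y (by rw [max_eq_left hyx]; exact hK)
    · exact C.r1s h6 x y (by rw [max_eq_left hyx, min_eq_right hyx]; exact hK.1)
        (by rw [max_eq_left hyx]; exact hK.2)
  rw [h]
  exact LocZ.fst_three hL h6 (by omega) hyx hn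

theorem v2 (C : Cyc f L B K) (hM : M = L) (hL : L % 2 = 0) (hB : (L + B) % 4 = 2)
    (hR : R = B + 2) (hyx : y ≤ x) (hn : x + L + 12 ≤ R + y)
    (hK : (K + 4 < x ∧ K + 2 * (L / 6) < x) ∨ (y + 2 * (L / 6) ≤ x ∧ K + 4 < x) ∨
      (x + 1 ≤ y + 2 * (L / 6) ∧ K + 1 < y)) : f M R x y ↔
      ((x + y) % 2 = 1 ∧ x < y + 2 * (L / 6) ∧ x % 2 = 0) ∨
      ((x + y) % 2 = 1 ∧ 2 * (L / 6) + y ≤ x + 1 ∧ (x + y + 3) % 4 = (2 * (L / 6)) % 4) := by
  subst hR hM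
  have h : f M (B + 2) x y ↔ Fst M (B + 2) x y := by
    rcases hK with hK | hK | hK
    · exact C.r2 x y (by rw [max_eq_left hyx]; unfold cc; omega)
    · exact C.r2x x y (by rw [max_eq_left hyx, min_eq_right hyx]; exact hK.1)
        (by rw [max_eq_left hyx]; exact hK.2)
    · exact C.r2s x y (by rw [max_eq_left hyx, min_eq_right hyx]; exact hK.1)
        (by rw [min_eq_right hyx]; exact hK.2)
  rw [h]
  exact LocZ.fst_zero hL (by omega) hyx hn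

theorem v3 (C : Cyc f L B K) (hM : M = L) (hL : L % 2 = 0) (h6 : 6 ≤ L) (hB : (L + B) % 4 = 2)
    (hR : R = B + 3) (hyx : y ≤ x) (hn : x + L + 12 ≤ R + y)
    (hK : (K + 6 < x ∧ K + 2 * (L / 6) + 2 < x) ∨
      (x + 1 ≤ y + 2 * (L / 6) ∧ K + 3 < y)) : f M R x y ↔
      ((x + y) % 2 = 0 ∧ 2 * (L / 6) + y ≤ x ∧ (x + y) % 4 = (2 * (L / 6)) % 4) ∨
      (x = y ∧ x % 2 = 1) := by
  subst hR hM
  have h : f M (B + 3) x y ↔ Fst M (B + 3) x y := by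
    rcases hK with hK | hK
    · exact C.r3 x y (by rw [max_eq_left hyx]; unfold cc; omega)
    · exact C.r3s x y (by rw [max_eq_left hyx, min_eq_right hyx]; exact hK.1)
        (by rw [min_eq_right hyx]; exact hK.2)
  rw [h]
  exact LocZ.fst_one hL h6 (by omega) hyx hn

theorem v4 (C : Cyc f L B K) (hM : M = L) (hL : L % 2 = 0) (hB : (L + B) % 4 = 2)
    (hR : R = B + 4) (hyx : y ≤ x) (hn : x + L + 12 ≤ R + y)
    (hK : K + 8 < x ∧ K + 2 * (L / 6) + 4 < x) : f M R x y ↔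
      ((x + y) % 2 = 1 ∧ x < y + 2 * (L / 6) ∧ x % 2 = 1) ∨
      ((x + y) % 2 = 1 ∧ 2 * (L / 6) + y ≤ x + 1 ∧ (x + y + 1) % 4 = (2 * (L / 6)) % 4) := by
  subst hR hM
  rw [C.r4 x y (by rw [max_eq_left hyx]; unfold cc; omega)]
  exact LocZ.fst_two hL (by omega) hyx hn

/-- A cycle stays a cycle for larger `K`. -/
theorem cyc_mono {a b K' : ℕ} (C : Cyc f a b K) (h : K ≤ K') : Cyc f a b K' :=
  ⟨C.r0.mono h, C.r1.mono (by omega), fun h6 x y h1 h2 => C.r1s h6 x y h1 (by omega),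
    C.r2.mono (by omega), fun x y h1 h2 => C.r2x x y h1 (by omega),
    fun x y h1 h2 => C.r2s x y h1 (by omega), C.r3.mono (by omega),
    fun x y h1 h2 => C.r3s x y h1 (by omega), C.r4.mono (by omega)⟩

/-- The interior of the strip (`d + 2 ≤ 2 h`) of a cycle. -/
structure CyI (f : ℕ → ℕ → ℕ → ℕ → Prop) (a b K : ℕ) : Prop where
  i0 : ∀ x y : ℕ, y ≤ x → x + 2 ≤ y + 2 * (a / 6) → K < x → (f a b x y ↔ Fst a b x y)
  i1 : ∀ x y : ℕ, y ≤ x → x + 2 ≤ y + 2 * (a / 6) → K + 1 < x →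
    (f a (b + 1) x y ↔ Fst a (b + 1) x y)
  i2 : ∀ x y : ℕ, y ≤ x → x + 2 ≤ y + 2 * (a / 6) → K + 1 < y →
    (f a (b + 2) x y ↔ Fst a (b + 2) x y)
  i3 : ∀ x y : ℕ, y ≤ x → x + 2 ≤ y + 2 * (a / 6) → K + 3 < y →
    (f a (b + 3) x y ↔ Fst a (b + 3) x y)

theorem CyI.of_cyc {a b K : ℕ} (h6 : 6 ≤ a) (C : Cyc f a b K) : CyI f a b K := by
  refine ⟨?_, ?_, ?_, ?_⟩
  · intro x y h1 h2 h3
    exact C.r0 x y (by rw [max_eq_left h1]; exact h3)
  · intro x y h1 h2 h3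
    exact C.r1s h6 x y (by rw [max_eq_left h1, min_eq_right h1]; omega)
      (by rw [max_eq_left h1]; exact h3)
  · intro x y h1 h2 h3
    exact C.r2s x y (by rw [max_eq_left h1, min_eq_right h1]; omega)
      (by rw [min_eq_right h1]; exact h3)
  · intro x y h1 h2 h3
    exact C.r3s x y (by rw [max_eq_left h1, min_eq_right h1]; omega)
      (by rw [min_eq_right h1]; exact h3)

theorem w0 (C : CyI f L B K) (hM : M = L) (hL : L % 2 = 0) (hB : (L + B) % 4 = 2) (hR : R = B)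
    (hyx : y ≤ x) (hn : x + L + 12 ≤ R + y) (hd : x + 2 ≤ y + 2 * (L / 6)) (hK : K < x) :
    f M R x y ↔ ((x + y) % 2 = 1 ∧ x % 2 = 1) := by
  subst hR hM
  rw [C.i0 x y hyx hd hK, LocZ.fst_two hL hB hyx hn]
  omega

theorem w1 (C : CyI f L B K) (hM : M = L) (hL : L % 2 = 0) (h6 : 6 ≤ L) (hB : (L + B) % 4 = 2)
    (hR : R = B + 1) (hyx : y < x) (hn : x + L + 12 ≤ R + y) (hd : x + 2 ≤ y + 2 * (L / 6))
    (hK : K + 1 < x) : ¬ f M R x y := by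
  subst hR hM
  rw [C.i1 x y hyx.le hd hK, LocZ.fst_three hL h6 (by omega) hyx.le hn]
  omega

theorem w2 (C : CyI f L B K) (hM : M = L) (hL : L % 2 = 0) (hB : (L + B) % 4 = 2)
    (hR : R = B + 2) (hyx : y ≤ x) (hn : x + L + 12 ≤ R + y) (hd : x + 2 ≤ y + 2 * (L / 6))
    (hK : K + 1 < y) : f M R x y ↔ ((x + y) % 2 = 1 ∧ x % 2 = 0) := by
  subst hR hM
  rw [C.i2 x y hyx hd hK, LocZ.fst_zero hL (by omega) hyx hn]
  omega

theorem w3 (C : CyI f L B K) (hM : M = L) (hL : L % 2 = 0) (h6 : 6 ≤ L) (hB : (L + B) % 4 = 2)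
    (hR : R = B + 3) (hyx : y < x) (hn : x + L + 12 ≤ R + y) (hd : x + 2 ≤ y + 2 * (L / 6))
    (hK : K + 3 < y) : ¬ f M R x y := by
  subst hR hM
  rw [C.i3 x y hyx.le hd hK, LocZ.fst_one hL h6 (by omega) hyx.le hn]
  omega

end Pool.Agent.SNT.WrapC
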