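import Pool.Agent.SNT.NWD
import Pool.Agent.SNT.WrapC
import Pool.Agent.SNT.NHZone
import Pool.Agent.SNT.NHZoneU
import Pool.Agent.SNT.NHZone2
import Pool.Agent.SNT.DRun
import Pool.Agent.SNT.Z3A
import Pool.Agent.SNT.Z3B
import Pool.Agent.SNT.Z3C
import Pool.Agent.SNT.Z3D

set_option autoImplicit false
set_option synthInstance.maxSize 1000

/-! `P_(6 k + 1)` vanishes in the IN row `c` of the leader `6 k + 10` in the columns `2 n` and `2 n - 2`
(distance `4 .. 2 k - 4`), given the pair of in-lines `2 n + 3`, `2 n + 5` of `6 k + 2` (helper41). -/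

namespace Pool.Agent.SNT.Z3

open Pool.Agent.SNT Pool.Agent.SNT.Loc Pool.Agent.SNT.LW Pool.Agent.SNT.NHZ

variable {f : ℕ → ℕ → ℕ → ℕ → Prop} {k c n : ℕ}

def m0_3T (j n p q : ℕ) : Bool :=
  (decide (j = 3 ∧ n = 3 ∧ p = 7 ∧ q = 5) ||
    decide (j = 4 ∧ n = 3 ∧ p = 10 ∧ q = 5))

def m0_3F (j n p q : ℕ) : Bool :=
  ((decide (j = 1 ∧ q ≤ p + 2) ||
    decide (j = 3 ∧ n = 1 ∧ p ≤ q + 7 ∧ q + 2 ≤ p ∧ p ≥ 3)) ||
    (decide (j = 4 ∧ n = 2 ∧ p ≤ q + 7 ∧ q + 2 ≤ p ∧ p ≥ 4) ||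
    decide (j = 5 ∧ n = 3 ∧ p ≤ q + 7 ∧ q + 2 ≤ p ∧ p ≥ 9)))

theorem m0_3_chk : check 6 5 17 13 0 1 1 1 0 m0_3T m0_3F
    126
    0x5da030802800a2b420c6103095b00094e0009c9a209c332056c0307948009c3d20bec000c613205790307a18009ca420bf2800bf28409540009540405780307a08007a08405788307a10007a104057283079b00079b040c61030954800954840a2b000a2b04056503078d80078d84056b83079400079404057203079a80079a84056483078d00078d040a310007f5000c61070c60870c5a870c5a070a38870a310f0a2a8709ca0709c98709c90709c38709c30709c28709bd0709bc8709bc0709b60709b587095b87095a87094e87094d8707f50f073307073287073207072c87072c07072b8707260707258707250705d987050a8705098704fd8704fc8704ef8703b18703b10703ab0703aa87035087035007034f87034f07034a07034987034907034887034387034307034287033d07033c87033c07033b8703360703358703350702e20702e18702e10702e08702db8702db0702da8702da0702d50702d48702d40702ce8702ce0702cd8702cd0702c78702c70702c687 = true := by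
  decide +kernel

theorem m0_3 (hf : Rule f) (H : ZH f k c n 2) {y : ℕ} (hy2 : y % 2 = 0)
    (hlo : 2 * n + 10 ≤ y + 2 * k) (hhi : y + 4 ≤ 2 * n) (h1 : f (6 * k + 1) c (2 * n) y)
    (h3 : f (6 * k + 2) c (2 * n + 3) y) :
    False := by
  have hk := H.hk
  have hc := H.hc
  have h4 := H.h4
  have hb := H.hb
  have hN2 := H.hn
  obtain ⟨a0, ha0⟩ : ∃ a0, a0 + 2 = 6 * k := ⟨6 * k - 2, by omega⟩
  obtain ⟨b0, hb0⟩ : ∃ b0, b0 + 3 = c := ⟨c - 3, by omega⟩
  obtain ⟨x0, hx0⟩ : ∃ x0, x0 + 7 = 2 * n := ⟨2 * n - 7, by omega⟩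
  obtain ⟨y0, hy0⟩ : ∃ y0, y0 + 5 = y := ⟨y - 5, by omega⟩
  refine check_sound hf (a0 := a0) (b0 := b0) (x0 := x0) (y0 := y0) m0_3_chk
    ⟨fun h => absurd h (by decide), fun h => absurd h (by decide), fun h => absurd h (by decide),
      by omega, by omega, by omega, by omega⟩ ?_ ?_
  · intro j m p q hr h
    obtain ⟨-, -, hn1, hn2, hp1, hp2, hq1, hq2⟩ := hr
    unfold m0_3T at h
    simp only [Bool.or_eq_true, decide_eq_true_eq] at h
    rcases h with (h | h)
    · obtain ⟨rfl, rfl, rfl, rfl⟩ := h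
      exact mv h1 (by omega) (by omega) (by omega) (by omega)
    · obtain ⟨rfl, rfl, rfl, rfl⟩ := h
      exact mv h3 (by omega) (by omega) (by omega) (by omega)
  · intro j m p q hr h
    obtain ⟨-, -, hn1, hn2, hp1, hp2, hq1, hq2⟩ := hr
    unfold m0_3F at h
    simp only [Bool.or_eq_true, decide_eq_true_eq] at h
    rcases h with ((h | h) | (h | h))
    · obtain ⟨rfl, h1⟩ := h
      exact H.lw _ _ _ _ (by omega) (by omega) (by omega) (by omega) (by omega) (by omega)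
    · obtain ⟨rfl, rfl, h1⟩ := h
      exact H.T.pmi hf (j := 3) (by omega) (by omega) (by omega) (by omega) (by omega) (by omega)
    · obtain ⟨rfl, rfl, h1⟩ := h
      exact NW.rm1i hf H.T (p := 0) (j := 3) (by omega) (by omega) (by omega) (by omega) (by omega) (by omega) (by omega)
    · obtain ⟨rfl, rfl, h1⟩ := h
      exact H.T.p0i hf (j := 3) (by omega) (by omega) (by omega) (by omega) (by omega) (by omega)


def m0_5T (j n p q : ℕ) : Bool :=
  (decide (j = 3 ∧ n = 3 ∧ p = 7 ∧ q = 5) ||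
    decide (j = 4 ∧ n = 3 ∧ p = 12 ∧ q = 5))

def m0_5F (j n p q : ℕ) : Bool :=
  ((decide (j = 1 ∧ q ≤ p + 2) ||
    decide (j = 3 ∧ n = 1 ∧ p ≤ q + 7 ∧ q + 2 ≤ p ∧ p ≥ 3)) ||
    (decide (j = 4 ∧ n = 2 ∧ p ≤ q + 7 ∧ q + 2 ≤ p ∧ p ≥ 4) ||
    decide (j = 5 ∧ n = 3 ∧ p ≤ q + 7 ∧ q + 2 ≤ p ∧ p ≥ 9)))

theorem m0_5_chk : check 6 5 17 13 0 1 1 1 0 m0_5T m0_5F
    186
    0x5da030802800a2b420c610309550009ca3209540009c32a0c6103095b0009ca2a094e00094e040c61030954800954840a3f000c6e52095b0509620009d03209d7320bff000bff0409d0030bf8800bf88409d0830bf9000bf90409d7030bff800bff8405858307ae0007ae04057283079b00079b0405790307a18007a184057f8307a80007a80405860307ae8007ae840a2b000a2b04056503078d80078d84056b83079400079404057203079a80079a8405d303080200080204056b0307938007938405788307a10007a104057183079a00079a04057f0307a78007a784056483078d00078d040a3e0007f5000c6e070c6d870c67870c67070c61070c60870c5a870c5a070a45870a3e0f0a38870a2a8709d70709d68709d08709d00709cf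8709ca0709c98709c90709c38709c30709c28709bc8709bc0709b60709b587096887095b87095a87094d8707f50f074007073f87073987073907073887073307073287073207072c87072c07072b8707258707250705d98705cc87051787051687050a8705098704fd8704fc8704ef8703b18703b10703ab0703aa8703aa0703a40703a387035d87035d07035c87035707035687035607035087035007034f87034a07034987034907034887034387034307034287034207033c87033c07033b8703360703358703350702ef0702ee8702ee0702e88702e80702e78702e20702e18702e10702db8702db0702da8702da0702d50702d48702d40702d38702ce0702cd8702cd0702c78702c70702c687 = true := by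
  decide +kernel

theorem m0_5 (hf : Rule f) (H : ZH f k c n 2) {y : ℕ} (hy2 : y % 2 = 0)
    (hlo : 2 * n + 10 ≤ y + 2 * k) (hhi : y + 4 ≤ 2 * n) (h1 : f (6 * k + 1) c (2 * n) y)
    (h3 : f (6 * k + 2) c (2 * n + 5) y) :
    False := by
  have hk := H.hk
  have hc := H.hc
  have h4 := H.h4
  have hb := H.hb
  have hN2 := H.hn
  obtain ⟨a0, ha0⟩ : ∃ a0, a0 + 2 = 6 * k := ⟨6 * k - 2, by omega⟩
  obtain ⟨b0, hb0⟩ : ∃ b0, b0 + 3 = c := ⟨c - 3, by omega⟩
  obtain ⟨x0, hx0⟩ : ∃ x0, x0 + 7 = 2 * n := ⟨2 * n - 7, by omega⟩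
  obtain ⟨y0, hy0⟩ : ∃ y0, y0 + 5 = y := ⟨y - 5, by omega⟩
  refine check_sound hf (a0 := a0) (b0 := b0) (x0 := x0) (y0 := y0) m0_5_chk
    ⟨fun h => absurd h (by decide), fun h => absurd h (by decide), fun h => absurd h (by decide),
      by omega, by omega, by omega, by omega⟩ ?_ ?_
  · intro j m p q hr h
    obtain ⟨-, -, hn1, hn2, hp1, hp2, hq1, hq2⟩ := hr
    unfold m0_5T at h
    simp only [Bool.or_eq_true, decide_eq_true_eq] at h
    rcases h with (h | h)
    · obtain ⟨rfl, rfl, rfl, rfl⟩ := h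
      exact mv h1 (by omega) (by omega) (by omega) (by omega)
    · obtain ⟨rfl, rfl, rfl, rfl⟩ := h
      exact mv h3 (by omega) (by omega) (by omega) (by omega)
  · intro j m p q hr h
    obtain ⟨-, -, hn1, hn2, hp1, hp2, hq1, hq2⟩ := hr
    unfold m0_5F at h
    simp only [Bool.or_eq_true, decide_eq_true_eq] at h
    rcases h with ((h | h) | (h | h))
    · obtain ⟨rfl, h1⟩ := h
      exact H.lw _ _ _ _ (by omega) (by omega) (by omega) (by omega) (by omega) (by omega)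
    · obtain ⟨rfl, rfl, h1⟩ := h
      exact H.T.pmi hf (j := 3) (by omega) (by omega) (by omega) (by omega) (by omega) (by omega)
    · obtain ⟨rfl, rfl, h1⟩ := h
      exact NW.rm1i hf H.T (p := 0) (j := 3) (by omega) (by omega) (by omega) (by omega) (by omega) (by omega) (by omega)
    · obtain ⟨rfl, rfl, h1⟩ := h
      exact H.T.p0i hf (j := 3) (by omega) (by omega) (by omega) (by omega) (by omega) (by omega)


def mm2_3T (j n p q : ℕ) : Bool :=
  (decide (j = 3 ∧ n = 3 ∧ p = 5 ∧ q = 5) ||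
    decide (j = 4 ∧ n = 3 ∧ p = 10 ∧ q = 5))

def mm2_3F (j n p q : ℕ) : Bool :=
  ((decide (j = 1 ∧ q ≤ p + 4) ||
    decide (j = 3 ∧ n = 1 ∧ p ≤ q + 7 ∧ q ≤ p ∧ p ≥ 3)) ||
    (decide (j = 4 ∧ n = 2 ∧ p ≤ q + 7 ∧ q ≤ p ∧ p ≥ 4) ||
    decide (j = 5 ∧ n = 3 ∧ p ≤ q + 7 ∧ q ≤ p ∧ p ≥ 9)))

theorem mm2_3_chk : check 6 5 17 13 0 1 1 1 0 mm2_3T mm2_3F
    194
    0xc540309480009bd3209470009b62a0c5403094e0009bd2a0941000941040c54030947800947840a32000c615209c3030beb800beb8409c9830bf2000bf20409c3830bec000bec0409ca030bf2800bf284056583078e00078e04056c0307948007948405780307a08007a08405788307a10007a104057283079b00079b0405790307a18007a1840a1e000a1e0105cd0307f58007f5840a1e030a24800a2484055803078080078084055e83078700078704056503078d80078d84056b83079400079404057203079a80079a84055e03078680078684056483078d00078d0405c60307f50007f5040557830780000780040a310007e8000c61070c60870c5a870c5a070c54070c53870a38870a310f0a2b870a1d8709ca0709c98709c90709c38709c307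09c28709bd0709bc8709bc0709b68709b60709b58709af8709af0709a90709a887095b87095a87094e87094d8709408707e80f073307073287073207072c87072c07072b87072607072587072507071f87071f07071e8707188707180705cc8705bf87050a8705098704fd8704fc8704f08704ef8704e28703a48703a407039e07039d87039d07039707039687035087035007034f87034f07034a07034987034907034887034387034307034287033d07033c87033c07033b87033687033607033587033507032f87032f07032e8703290703288703280702e20702e18702e10702e08702db8702db0702da8702da0702d50702d48702d40702ce8702ce0702cd8702cd0702c80702c78702c70702c68702c10702c08702c00702ba8702ba0702b987 = true := by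
  decide +kernel

theorem mm2_3 (hf : Rule f) (H : ZH f k c n 2) {y : ℕ} (hy2 : y % 2 = 0)
    (hlo : 2 * n + 10 ≤ y + 2 * k) (hhi : y + 6 ≤ 2 * n) (h1 : f (6 * k + 1) c (2 * n - 2) y)
    (h3 : f (6 * k + 2) c (2 * n + 3) y) :
    False := by
  have hk := H.hk
  have hc := H.hc
  have h4 := H.h4
  have hb := H.hb
  have hN2 := H.hn
  obtain ⟨a0, ha0⟩ : ∃ a0, a0 + 2 = 6 * k := ⟨6 * k - 2, by omega⟩
  obtain ⟨b0, hb0⟩ : ∃ b0, b0 + 3 = c := ⟨c - 3, by omega⟩
  obtain ⟨x0, hx0⟩ : ∃ x0, x0 + 7 = 2 * n := ⟨2 * n - 7, by omega⟩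
  obtain ⟨y0, hy0⟩ : ∃ y0, y0 + 5 = y := ⟨y - 5, by omega⟩
  refine check_sound hf (a0 := a0) (b0 := b0) (x0 := x0) (y0 := y0) mm2_3_chk
    ⟨fun h => absurd h (by decide), fun h => absurd h (by decide), fun h => absurd h (by decide),
      by omega, by omega, by omega, by omega⟩ ?_ ?_
  · intro j m p q hr h
    obtain ⟨-, -, hn1, hn2, hp1, hp2, hq1, hq2⟩ := hr
    unfold mm2_3T at h
    simp only [Bool.or_eq_true, decide_eq_true_eq] at h
    rcases h with (h | h)
    · obtain ⟨rfl, rfl, rfl, rfl⟩ := h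
      exact mv h1 (by omega) (by omega) (by omega) (by omega)
    · obtain ⟨rfl, rfl, rfl, rfl⟩ := h
      exact mv h3 (by omega) (by omega) (by omega) (by omega)
  · intro j m p q hr h
    obtain ⟨-, -, hn1, hn2, hp1, hp2, hq1, hq2⟩ := hr
    unfold mm2_3F at h
    simp only [Bool.or_eq_true, decide_eq_true_eq] at h
    rcases h with ((h | h) | (h | h))
    · obtain ⟨rfl, h1⟩ := h
      exact H.lw _ _ _ _ (by omega) (by omega) (by omega) (by omega) (by omega) (by omega)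
    · obtain ⟨rfl, rfl, h1⟩ := h
      exact H.T.pmi hf (j := 3) (by omega) (by omega) (by omega) (by omega) (by omega) (by omega)
    · obtain ⟨rfl, rfl, h1⟩ := h
      exact NW.rm1i hf H.T (p := 0) (j := 3) (by omega) (by omega) (by omega) (by omega) (by omega) (by omega) (by omega)
    · obtain ⟨rfl, rfl, h1⟩ := h
      exact H.T.p0i hf (j := 3) (by omega) (by omega) (by omega) (by omega) (by omega) (by omega)


def mm2_5T (j n p q : ℕ) : Bool :=
  (decide (j = 3 ∧ n = 3 ∧ p = 5 ∧ q = 5) ||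
    decide (j = 4 ∧ n = 3 ∧ p = 12 ∧ q = 5))

def mm2_5F (j n p q : ℕ) : Bool :=
  ((decide (j = 1 ∧ q ≤ p + 4) ||
    decide (j = 3 ∧ n = 1 ∧ p ≤ q + 7 ∧ q ≤ p ∧ p ≥ 3)) ||
    (decide (j = 4 ∧ n = 2 ∧ p ≤ q + 7 ∧ q ≤ p ∧ p ≥ 4) ||
    decide (j = 5 ∧ n = 3 ∧ p ≤ q + 7 ∧ q ≤ p ∧ p ≥ 9)))

theorem mm2_5_chk : check 6 5 17 13 0 1 1 1 0 mm2_5T mm2_5F
    282
    0x5858307ae0009d74a095b000bf8f20bff000c6e2a05858307ae0009d74a0bff800bff840a38000c614a0a2b000c544a094705094e0009b62a09bd2a0bdf000bdf0409b6030bde800bde8409bd030be5800be58409bc830be5000be50409c9030bf1800bf18409d0030b8a000b8a0409c9030b83000b830409d0030bf8800bf88409c3030beb800beb8409c9830bf2000bf20409c9830b83800b838409c3830bec000bec0409ca030bf2800bf28409d0830bf9000bf9040a1e000a1e0105cd0307f58007f58405c60307f50007f5040a1e030a24800a2484055803078080078084055e83078700078704056583078e00078e04055e03078680078684056503078d80078d84056483078d00078d04056c03079480079484056b83079400079404057283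079b00079b04056b03079380079384057203079a80079a8405860307ae8007ae8405790307a18007a184057f8307a80007a80405788307a10007a104057183079a00079a04057f0307a78007a7840571030799800799840557830780000780040a3e0007e8000c6e070c6d870c67870c67070c61070c60870c5a870c5a070c54070c53870a45870a3e0f0a38870a2b870a1d8709d70709d68709d08709d00709cf8709ca0709c98709c90709c88709c38709c30709c28709c20709bd0709bc8709bc0709b68709b60709b58709af8709af0709a90709a887096887095b87095a87094e87094d8709408707e80f074007073f87073987073907073887073307073287073207073187072c87072c07072b87072b07072607072587072507071f87071f07071e8707188707180705cc8705bf87051787051687050a8705098704fd8704fc8704fb8704f08704ef8704e28703a48703a407039e07039d87039d07039707039687035d87035d07035c87035707035687035607035087035007034f87034a07034987034907034887034807034387034307034287034207034187033d07033c87033c07033b87033687033607033587033507032f87032f07032e8703290703288703280702ef0702ee8702ee0702e88702e80702e78702e20702e18702e10702db8702db0702da8702da0702d98702d50702d48702d40702d38702d30702ce8702ce0702cd8702cd0702c80702c78702c70702c68702c10702c08702c00702ba8702ba0702b987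 = true := by
  decide +kernel

theorem mm2_5 (hf : Rule f) (H : ZH f k c n 2) {y : ℕ} (hy2 : y % 2 = 0)
    (hlo : 2 * n + 10 ≤ y + 2 * k) (hhi : y + 6 ≤ 2 * n) (h1 : f (6 * k + 1) c (2 * n - 2) y)
    (h3 : f (6 * k + 2) c (2 * n + 5) y) :
    False := by
  have hk := H.hk
  have hc := H.hc
  have h4 := H.h4
  have hb := H.hb
  have hN2 := H.hn
  obtain ⟨a0, ha0⟩ : ∃ a0, a0 + 2 = 6 * k := ⟨6 * k - 2, by omega⟩
  obtain ⟨b0, hb0⟩ : ∃ b0, b0 + 3 = c := ⟨c - 3, by omega⟩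
  obtain ⟨x0, hx0⟩ : ∃ x0, x0 + 7 = 2 * n := ⟨2 * n - 7, by omega⟩
  obtain ⟨y0, hy0⟩ : ∃ y0, y0 + 5 = y := ⟨y - 5, by omega⟩
  refine check_sound hf (a0 := a0) (b0 := b0) (x0 := x0) (y0 := y0) mm2_5_chk
    ⟨fun h => absurd h (by decide), fun h => absurd h (by decide), fun h => absurd h (by decide),
      by omega, by omega, by omega, by omega⟩ ?_ ?_
  · intro j m p q hr h
    obtain ⟨-, -, hn1, hn2, hp1, hp2, hq1, hq2⟩ := hr
    unfold mm2_5T at h
    simp only [Bool.or_eq_true, decide_eq_true_eq] at h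
    rcases h with (h | h)
    · obtain ⟨rfl, rfl, rfl, rfl⟩ := h
      exact mv h1 (by omega) (by omega) (by omega) (by omega)
    · obtain ⟨rfl, rfl, rfl, rfl⟩ := h
      exact mv h3 (by omega) (by omega) (by omega) (by omega)
  · intro j m p q hr h
    obtain ⟨-, -, hn1, hn2, hp1, hp2, hq1, hq2⟩ := hr
    unfold mm2_5F at h
    simp only [Bool.or_eq_true, decide_eq_true_eq] at h
    rcases h with ((h | h) | (h | h))
    · obtain ⟨rfl, h1⟩ := h
      exact H.lw _ _ _ _ (by omega) (by omega) (by omega) (by omega) (by omega) (by omega)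
    · obtain ⟨rfl, rfl, h1⟩ := h
      exact H.T.pmi hf (j := 3) (by omega) (by omega) (by omega) (by omega) (by omega) (by omega)
    · obtain ⟨rfl, rfl, h1⟩ := h
      exact NW.rm1i hf H.T (p := 0) (j := 3) (by omega) (by omega) (by omega) (by omega) (by omega) (by omega) (by omega)
    · obtain ⟨rfl, rfl, h1⟩ := h
      exact H.T.p0i hf (j := 3) (by omega) (by omega) (by omega) (by omega) (by omega) (by omega)


/-- The pair of in-lines. -/
def Pair (f : ℕ → ℕ → ℕ → ℕ → Prop) (k c n : ℕ) : Prop :=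
  f (6 * k + 2) c (2 * n + 3) (2 * n + 8 - 2 * k) ∨ f (6 * k + 2) c (2 * n + 5) (2 * n + 10 - 2 * k)

theorem run3 (hf : Rule f) {e : ℕ} (H : ZH f k c n e) (h : f (6 * k + 2) c (2 * n + 3) (2 * n + 8 - 2 * k))
    {y : ℕ} (hy2 : y % 2 = 0) (hlo : 2 * n + 8 ≤ y + 2 * k) (hhi : y + 2 ≤ 2 * n) :
    f (6 * k + 2) c (2 * n + 3) y := by
  have hk := H.hk
  have hc := H.hc
  have hN2 := H.hn
  exact DRun.col_run hf (y1 := 2 * n - 2) (by omega) hc (by omega) (by omega)
    (fun z h2 h3 h4 => H.T.c0i hf (j := 4) (by omega) (by omega) (by omega) (by omega) (by omega)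
      (by omega)) h y (by omega) (by omega) hy2

theorem run5 (hf : Rule f) {e : ℕ} (H : ZH f k c n e) (h : f (6 * k + 2) c (2 * n + 5) (2 * n + 10 - 2 * k))
    {y : ℕ} (hy2 : y % 2 = 0) (hlo : 2 * n + 10 ≤ y + 2 * k) (hhi : y ≤ 2 * n) :
    f (6 * k + 2) c (2 * n + 5) y := by
  have hk := H.hk
  have hc := H.hc
  have hN2 := H.hn
  exact DRun.col_run hf (y1 := 2 * n) (by omega) hc (by omega) (by omega)
    (fun z h2 h3 h4 => H.T.c0i hf (j := 4) (by omega) (by omega) (by omega) (by omega) (by omega)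
      (by omega)) h y (by omega) (by omega) hy2

/-- **The column `2 n`** (distance `4 .. 2 k - 4`). -/
theorem col0 (hf : Rule f) (H : ZH f k c n 2) (P : Pair f k c n) {x y : ℕ} (hx : x = 2 * n)
    (hy2 : y % 2 = 0) (hlo : x + 4 ≤ y + 2 * k) (hhi : y + 4 ≤ x) : ¬ f (6 * k + 1) c x y := by
  have hk := H.hk
  have hN2 := H.hn
  subst hx
  intro h
  rcases (show y = 2 * n - 2 * k + 4 ∨ y = 2 * n - 2 * k + 6 ∨ y = 2 * n - 2 * k + 8 ∨
    2 * n + 10 ≤ y + 2 * k by omega) with h1 | h1 | h1 | h1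
  · subst h1
    exact w0_4 hf H h
  · subst h1
    exact w0_6 hf H h
  · subst h1
    exact w0_8 hf H h
  · rcases P with P | P
    · exact m0_3 hf H hy2 h1 hhi h (run3 hf H P hy2 (by omega) (by omega))
    · exact m0_5 hf H hy2 h1 hhi h (run5 hf H P hy2 (by omega) (by omega))

/-- **The column `2 n - 2`** (distance `4 .. 2 k - 6`). -/
theorem colm2 (hf : Rule f) (H : ZH f k c n 2) (P : Pair f k c n) {x y : ℕ} (hx : x + 2 = 2 * n)
    (hy2 : y % 2 = 0) (hlo : x + 6 ≤ y + 2 * k) (hhi : y + 4 ≤ x) : ¬ f (6 * k + 1) c x y := by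
  have hk := H.hk
  have hN2 := H.hn
  obtain rfl : x = 2 * n - 2 := by omega
  intro h
  rcases (show y = 2 * n - 2 * k + 4 ∨ y = 2 * n - 2 * k + 6 ∨ y = 2 * n - 2 * k + 8 ∨
    2 * n + 10 ≤ y + 2 * k by omega) with h1 | h1 | h1 | h1
  · subst h1
    exact wm2_4 hf H h
  · subst h1
    exact wm2_6 hf H h
  · subst h1
    exact wm2_8 hf H h
  · rcases P with P | P
    · exact mm2_3 hf H hy2 h1 (by omega) h (run3 hf H P hy2 (by omega) (by omega))
    · exact mm2_5 hf H hy2 h1 (by omega) h (run5 hf H P hy2 (by omega) (by omega))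

/-- The column `2 n - 2`, the distance `2 k - 4`, with the lead `n - 3` of `6 k + 2`. -/
theorem colm2' (hf : Rule f) (H : ZH f k c n 3) (P : Pair f k c n) {x y : ℕ} (hx : x + 2 = 2 * n)
    (hy2 : y % 2 = 0) (hlo : x + 4 ≤ y + 2 * k) (hhi : y + 4 ≤ x) : ¬ f (6 * k + 1) c x y := by
  have hk := H.hk
  have hN2 := H.hn
  rcases (show x + 4 = y + 2 * k ∨ x + 6 ≤ y + 2 * k by omega) with h1 | h1
  · obtain rfl : x = 2 * n - 2 := by omega
    obtain rfl : y = 2 * n - 2 * k + 2 := by omega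
    exact wm2_2 hf H
  · exact colm2 hf (H.mono (by omega)) P hx hy2 h1 hhi

end Pool.Agent.SNT.Z3

namespace Pool.Agent.SNT.S6

open Pool.Agent.SNT Pool.Agent.SNT.LW

/-- **Z3, the column `2 n`** of `P_(6 k + 1)` in the row `b + 22`. -/
theorem z3_0 {f : ℕ → ℕ → ℕ → ℕ → Prop} (hf : Rule f) {k b m n : ℕ} (hs : Side k b m)
    (S : Stack6 f k b m 0 0 0 0 0 1) (hn : n = m + 9 + (k + 2) * 4)
    (d2 : Cyc f (6 * k + 2) (b + 18) (2 * (n - 2) + 2))
    (d4 : Cyc f (6 * k + 4) (b + 20) (2 * (n + 1) + 2))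
    (d4a : Cyc f (6 * k + 4) (b + 16) (2 * (n - k - 1) + 2))
    (P : f (6 * k + 2) (b + 22) (2 * n + 3) (2 * n + 8 - 2 * k) ∨
      f (6 * k + 2) (b + 22) (2 * n + 5) (2 * n + 10 - 2 * k)) {x y : ℕ} (hx : x = 2 * n)
    (hy2 : y % 2 = 0) (hlo : x + 4 ≤ y + 2 * k) (hhi : y + 4 ≤ x) : ¬ f (6 * k + 1) (b + 22) x y :=
  Z3.col0 hf (Z3.ZH.of_stack hs S hn d2 d4 d4a) P hx hy2 hlo hhi

/-- **Z3, the column `2 n - 2`** of `P_(6 k + 1)` in the row `b + 22`, distance `4 .. 2 k - 6`. -/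
theorem z3_m2 {f : ℕ → ℕ → ℕ → ℕ → Prop} (hf : Rule f) {k b m n : ℕ} (hs : Side k b m)
    (S : Stack6 f k b m 0 0 0 0 0 1) (hn : n = m + 9 + (k + 2) * 4)
    (d2 : Cyc f (6 * k + 2) (b + 18) (2 * (n - 2) + 2))
    (d4 : Cyc f (6 * k + 4) (b + 20) (2 * (n + 1) + 2))
    (d4a : Cyc f (6 * k + 4) (b + 16) (2 * (n - k - 1) + 2))
    (P : f (6 * k + 2) (b + 22) (2 * n + 3) (2 * n + 8 - 2 * k) ∨
      f (6 * k + 2) (b + 22) (2 * n + 5) (2 * n + 10 - 2 * k)) {x y : ℕ} (hx : x + 2 = 2 * n)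
    (hy2 : y % 2 = 0) (hlo : x + 6 ≤ y + 2 * k) (hhi : y + 4 ≤ x) : ¬ f (6 * k + 1) (b + 22) x y :=
  Z3.colm2 hf (Z3.ZH.of_stack hs S hn d2 d4 d4a) P hx hy2 hlo hhi

/-- **Z3, the column `2 n - 2`**, distance `4 .. 2 k - 4`, with the lead `n - 3` of `6 k + 2`. -/
theorem z3_m2' {f : ℕ → ℕ → ℕ → ℕ → Prop} (hf : Rule f) {k b m n : ℕ} (hs : Side k b m)
    (S : Stack6 f k b m 0 0 0 0 0 1) (hn : n = m + 9 + (k + 2) * 4)
    (d2 : Cyc f (6 * k + 2) (b + 18) (2 * (n - 3) + 2))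
    (d4 : Cyc f (6 * k + 4) (b + 20) (2 * (n + 1) + 2))
    (d4a : Cyc f (6 * k + 4) (b + 16) (2 * (n - k - 1) + 2))
    (P : f (6 * k + 2) (b + 22) (2 * n + 3) (2 * n + 8 - 2 * k) ∨
      f (6 * k + 2) (b + 22) (2 * n + 5) (2 * n + 10 - 2 * k)) {x y : ℕ} (hx : x + 2 = 2 * n)
    (hy2 : y % 2 = 0) (hlo : x + 4 ≤ y + 2 * k) (hhi : y + 4 ≤ x) : ¬ f (6 * k + 1) (b + 22) x y :=
  Z3.colm2' hf (Z3.ZH.of_stack hs S hn d2 d4 d4a) P hx hy2 hlo hhi

end Pool.Agent.SNT.S6
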