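import Pool.Agent.SNT.TipK0w
import Pool.Agent.SNT.K0L0c
import Pool.Agent.SNT.K40A
import Pool.Agent.SNT.PurV
import Pool.Agent.SNT.Z3L

set_option autoImplicit false

/-! Pairs of lines and of tips: `6 k` (row `b + 20`, `x` from `2 n - 3` on), `6 k + 2` and `6 k + 6` (row `b + 22`), leads
`n - 7`, `n - 4`, `n + 1`. -/

namespace Pool.Agent.SNT.TipK0

open Pool.Agent.SNT Pool.Agent.SNT.Sig Pool.Agent.SNT.Loc Pool.Agent.SNT.LW Pool.Agent.SNT.NHZ Pool.Agent.SNT.DRun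
open Pool.Agent.SNT.PB Pool.Agent.SNT.K0D

variable {f : ℕ → ℕ → ℕ → ℕ → Prop} {k b m n : ℕ}

/-- the run of a column of `6 k` in the row `c - 2`, down to `d = 5` -/
theorem run0 (hf : Rule f) {c x y0 : ℕ} (T : NHT f k c (2 * n)) (hx : x % 2 = 1) (hy : y0 % 2 = 0)
    (hX : 2 * n ≤ x + 4) (hw : x + 5 ≤ y0 + 2 * k) (h0 : f (6 * k) (c - 2) x y0) :
    ∀ y, y0 ≤ y → y + 5 ≤ x → y % 2 = 0 → f (6 * k) (c - 2) x y := by
  have hc := T.hc
  have hb := T.hb
  intro y h1 h2 h3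
  exact col_run hf (y1 := x - 5) (by omega) (by omega) hx hy
    (fun z h4 h5 h6 => T.cIn hf (t := 4) (j := 4) le_rfl le_rfl (by omega) (by omega) (by omega) (by omega) (by omega)
      (by omega)) h0 y h1 (by omega) h3

/-- the pair of the lines `x`, `x + 2` of `6 k`, row `b + 20` -/
theorem k0_line (hf : Rule f) (hs : Side k b m) (S : Stack6 f k b m 0 0 0 0 0 1) (hn : n = m + 9 + (k + 2) * 4)
    (d0 : Cyc f (6 * k) (b + 16) (2 * (n - 7) + 2)) (d2 : Cyc f (6 * k + 2) (b + 18) (2 * (n - 4) + 2))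
    (d4 : Cyc f (6 * k + 4) (b + 20) (2 * (n + 1) + 2)) {x y : ℕ} (hx : 2 * n ≤ x + 3) (ho : x % 2 = 1) (hy : y % 2 = 0)
    (h1 : x + 5 ≤ y + 2 * k) (h2 : y + 5 ≤ x) : f (6 * k) (b + 20) x y ∨ f (6 * k) (b + 20) (x + 2) (y + 2) := by
  have H := KH.of_stack hs S hn d0 d2 d4
  have hk := H.T.hk
  have hN := H.T.hN2
  have e : b + 20 = b + 22 - 2 := by omega
  obtain ⟨y0, hy0⟩ : ∃ y0, y0 + 2 * k = x + 5 := ⟨x + 5 - 2 * k, by omega⟩
  rcases k0d_stack hf hs S hn d0 d2 d4 hx ho hy0 with h | h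
  · rw [e] at h ⊢
    exact Or.inl (run0 hf H.T ho (by omega) (by omega) (by omega) h y (by omega) h2 hy)
  · rw [e] at h ⊢
    exact Or.inr (run0 hf H.T (by omega) (by omega) (by omega) (by omega) h (y + 2) (by omega) (by omega) (by omega))

theorem tip0_of (hf : Rule f) {c x : ℕ} (H : KH f k c n 7 4) (hx : 2 * n ≤ x + 3) (ho : x % 2 = 1)
    (h : f (6 * k) (c - 2) x (x - 5)) : f (6 * k) (c - 2) x (x - 1) := by
  obtain ⟨i, hi⟩ : ∃ i, x + 3 = 2 * i := ⟨(x + 3) / 2, by omega⟩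
  have hn := H.hn
  by_contra h2
  exact tip0w hf (H.mono (n' := i) (by omega)) (mv h rfl rfl (by omega) (by omega))
    (fun t => h2 (mv t rfl rfl (by omega) (by omega)))

/-- the tips of `6 k`, row `b + 20` -/
theorem tip0 (hf : Rule f) (hs : Side k b m) (S : Stack6 f k b m 0 0 0 0 0 1) (hn : n = m + 9 + (k + 2) * 4)
    (d0 : Cyc f (6 * k) (b + 16) (2 * (n - 7) + 2)) (d2 : Cyc f (6 * k + 2) (b + 18) (2 * (n - 4) + 2))
    (d4 : Cyc f (6 * k + 4) (b + 20) (2 * (n + 1) + 2)) {x : ℕ} (hx : 2 * n ≤ x + 3) (ho : x % 2 = 1) :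
    f (6 * k) (b + 20) x (x - 1) ∨ f (6 * k) (b + 20) (x + 2) (x + 1) := by
  have H := KH.of_stack hs S hn d0 d2 d4
  have hk := H.T.hk
  have hN := H.T.hN2
  have e : b + 20 = b + 22 - 2 := by omega
  rcases k0_line hf hs S hn d0 d2 d4 (x := x) (y := x - 5) hx ho (by omega) (by omega) (by omega) with h | h
  · rw [e] at h ⊢
    exact Or.inl (tip0_of hf H hx ho h)
  · rw [e] at h ⊢
    have h3 := tip0_of hf H (x := x + 2) (by omega) (by omega) (mv h rfl rfl rfl (by omega))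
    exact Or.inr (mv h3 rfl rfl rfl (by omega))

/-- the pair of the lines `x`, `x + 2` of `6 k + 2`, row `b + 22`, `x` from `2 n + 3` on -/
theorem k2_line (hf : Rule f) (hs : Side k b m) (S : Stack6 f k b m 0 0 0 0 0 1) (hn : n = m + 9 + (k + 2) * 4)
    (d2 : Cyc f (6 * k + 2) (b + 18) (2 * (n - 4) + 2))
    (d4 : Cyc f (6 * k + 4) (b + 20) (2 * (n + 1) + 2)) {x y : ℕ} (hx : 2 * n + 3 ≤ x) (ho : x % 2 = 1) (hy : y % 2 = 0)
    (h1 : x + 5 ≤ y + 2 * k) (h2 : y + 4 ≤ x) : f (6 * k + 2) (b + 22) x y ∨ f (6 * k + 2) (b + 22) (x + 2) (y + 2) := by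
  subst hn
  have T := NHT.of_stack hs S
  have hk := T.hk
  have hN := T.hN2
  obtain ⟨y0, hy0⟩ : ∃ y0, y0 + 2 * k = x + 5 := ⟨x + 5 - 2 * k, by omega⟩
  rcases K0L2c.k0_L2_stack hf hs S (WrapC.cyc_mono d2 (by omega)) d4 rfl (by omega) ho hy0 with h | h
  · exact Or.inl (run2' hf T ho (by omega) (by omega) (by omega) h y (by omega) h2 hy)
  · exact Or.inr (run2' hf T (by omega) (by omega) (by omega) (by omega) h (y + 2) (by omega) (by omega) (by omega))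

/-- the run of the column `2 n + 1` of `6 k + 2`, IN row `c`, down to `d = 5` -/
theorem run1_all (hf : Rule f) {c : ℕ} (H : PV.PV f k c n)
    (hp : ∀ y : ℕ, y % 2 = 0 → 2 * n + 4 ≤ y + 2 * k → y + 4 ≤ 2 * n → ¬ f (6 * k + 1) c (2 * n) y)
    {y0 : ℕ} (hy : y0 + 2 * k = 2 * n + 6) (h0 : f (6 * k + 2) c (2 * n + 1) y0) :
    ∀ y, y0 ≤ y → y + 4 ≤ 2 * n → y % 2 = 0 → f (6 * k + 2) c (2 * n + 1) y := by
  have hk := H.T.hk
  have hN := H.T.hN2
  have key : ∀ j : ℕ, y0 + 2 * j + 4 ≤ 2 * n → f (6 * k + 2) c (2 * n + 1) (y0 + 2 * j) := by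
    intro j
    induction j with
    | zero => exact fun _ => h0
    | succ j ih =>
      intro h
      have h1 := K40.run1_step hf H (s := y0 + 2 * j) (by omega) (by omega) (by omega) (ih (by omega))
        (hp _ (by omega) (by omega) (by omega))
      exact h1
  intro y h1 h2 h3
  have h4 := key ((y - y0) / 2) (by omega)
  rwa [show y0 + 2 * ((y - y0) / 2) = y by omega] at h4

/-- the column `2 n` of `6 k + 1`, row `b + 22`, is zero -/
theorem p1_2n (hf : Rule f) (hs : Side k b m) (S : Stack6 f k b m 0 0 0 0 0 1) (hn : n = m + 9 + (k + 2) * 4)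
    (d2 : Cyc f (6 * k + 2) (b + 18) (2 * (n - 3) + 2))
    (d4 : Cyc f (6 * k + 4) (b + 20) (2 * (n + 1) + 2)) (d4a : Cyc f (6 * k + 4) (b + 16) (2 * (n - k - 1) + 2)) :
    ∀ y : ℕ, y % 2 = 0 → 2 * n + 4 ≤ y + 2 * k → y + 4 ≤ 2 * n → ¬ f (6 * k + 1) (b + 22) (2 * n) y := by
  have T := NHT.of_stack hs S
  have hk := T.hk
  have hN := T.hN2
  have P3 : f (6 * k + 2) (b + 22) (2 * n + 3) (2 * n + 8 - 2 * k) ∨
      f (6 * k + 2) (b + 22) (2 * n + 5) (2 * n + 10 - 2 * k) := by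
    have K2 : ∀ x y : ℕ, 2 * n + 1 ≤ x → x % 2 = 1 → y + 2 * k = x + 5 →
        f (6 * k + 2) (b + 22) x y ∨ f (6 * k + 2) (b + 22) (x + 2) (y + 2) := by
      intro x y h1 h2 h3
      subst hn
      exact K0L2c.k0_L2_stack hf hs S d2 d4 rfl h1 h2 h3
    rcases K2 (2 * n + 3) (2 * n + 8 - 2 * k) (by omega) (by omega) (by omega) with h | h
    · exact Or.inl h
    · exact Or.inr (mv h rfl (by omega) (by omega) (by omega))
  intro y h1 h2 h3
  exact S6.z3_0 hf hs S hn (WrapC.cyc_mono d2 (by omega)) d4 d4a P3 rfl h1 h2 h3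

/-- the pair of the lines `2 n + 1`, `2 n + 3` of `6 k + 2`, row `b + 22` -/
theorem k2_line1 (hf : Rule f) (hs : Side k b m) (S : Stack6 f k b m 0 0 0 0 0 1) (hn : n = m + 9 + (k + 2) * 4)
    (d0 : Cyc f (6 * k) (b + 16) (2 * (n - 6) + 2)) (d2 : Cyc f (6 * k + 2) (b + 18) (2 * (n - 3) + 2))
    (d4 : Cyc f (6 * k + 4) (b + 20) (2 * (n + 1) + 2)) (d4a : Cyc f (6 * k + 4) (b + 16) (2 * (n - k - 1) + 2))
    {y : ℕ} (hy : y % 2 = 0) (h1 : 2 * n + 6 ≤ y + 2 * k) (h2 : y + 4 ≤ 2 * n) :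
    f (6 * k + 2) (b + 22) (2 * n + 1) y ∨ f (6 * k + 2) (b + 22) (2 * n + 3) (y + 2) := by
  have H := PV.PV.of_stack hs S hn d0 d2 d4
  have hp := p1_2n hf hs S hn d2 d4 d4a
  have hk := H.T.hk
  have hN := H.T.hN2
  obtain ⟨y0, hy0⟩ : ∃ y0, y0 + 2 * k = 2 * n + 6 := ⟨2 * n + 6 - 2 * k, by omega⟩
  have K2 : f (6 * k + 2) (b + 22) (2 * n + 1) y0 ∨ f (6 * k + 2) (b + 22) (2 * n + 1 + 2) (y0 + 2) := by
    subst hn
    exact K0L2c.k0_L2_stack hf hs S d2 d4 rfl le_rfl (by omega) (by omega)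
  rcases K2 with h | h
  · exact Or.inl (run1_all hf H hp hy0 h y (by omega) h2 hy)
  · exact Or.inr (run2' hf H.T (by omega) (by omega) (by omega) (by omega) h (y + 2) (by omega) (by omega) (by omega))

/-- the tips of `6 k + 2`, row `b + 22`, `x` from `2 n + 1` on -/
theorem tip2 (hf : Rule f) (hs : Side k b m) (S : Stack6 f k b m 0 0 0 0 0 1) (hn : n = m + 9 + (k + 2) * 4)
    (d0 : Cyc f (6 * k) (b + 16) (2 * (n - 7) + 2)) (d2 : Cyc f (6 * k + 2) (b + 18) (2 * (n - 4) + 2))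
    (d4 : Cyc f (6 * k + 4) (b + 20) (2 * (n + 1) + 2)) (d4a : Cyc f (6 * k + 4) (b + 16) (2 * (n - k - 1) + 2))
    {x : ℕ} (hx : 2 * n + 1 ≤ x) (ho : x % 2 = 1) :
    f (6 * k + 2) (b + 22) x (x - 1) ∨ f (6 * k + 2) (b + 22) (x + 2) (x + 1) := by
  have H := PV.PV.of_stack hs S hn (WrapC.cyc_mono d0 (by omega)) (WrapC.cyc_mono d2 (by omega)) d4
  have HK := KH.of_stack hs S hn d0 d2 d4
  have hk := H.T.hk
  have hN := H.T.hN2
  rcases Nat.lt_or_ge x (2 * n + 3) with h | h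
  · obtain rfl : x = 2 * n + 1 := by omega
    rcases k2_line1 hf hs S hn (WrapC.cyc_mono d0 (by omega)) (WrapC.cyc_mono d2 (by omega)) d4 d4a (y := 2 * n - 4)
      (by omega) (by omega) (by omega) with h1 | h1
    · refine Or.inl ?_
      by_contra h2
      exact tip2w hf HK h1 (fun t => h2 (mv t rfl rfl rfl (by omega)))
    · refine Or.inr ?_
      by_contra h2
      exact PV.t1 hf H (mv h1 rfl rfl rfl (by omega)) (fun t => h2 (mv t rfl rfl (by omega) (by omega)))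
  · exact PV.tips2_stack hf hs S hn (WrapC.cyc_mono d0 (by omega)) (WrapC.cyc_mono d2 (by omega)) d4 x ho h

/-- the pair of the lines `x`, `x + 2` of `6 k + 6`, row `b + 22`, `x` from `2 n + 3` on, down to the tips -/
theorem k6_line (hf : Rule f) (hs : Side k b m) (S : Stack6 f k b m 0 0 0 0 0 1) (hn : n = m + 9 + (k + 2) * 4)
    {x y : ℕ} (hx : 2 * n + 3 ≤ x) (ho : x % 2 = 1) (hy : y % 2 = 0)
    (h1 : x + 3 ≤ y + 2 * k) (h2 : y + 1 ≤ x) : f (6 * k + 6) (b + 22) x y ∨ f (6 * k + 6) (b + 22) (x + 2) (y + 2) := by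
  subst hn
  have T := NHT.of_stack hs S
  have hk := T.hk
  have hN := T.hN2
  obtain ⟨y0, hy0⟩ : ∃ y0, y0 + 2 * k = x + 3 := ⟨x + 3 - 2 * k, by omega⟩
  rcases k0_L6 hf hs S rfl hx ho hy0 with h | h
  · exact Or.inl (run6 hf T ho (by omega) (by omega) (by omega) h y (by omega) h2 hy)
  · exact Or.inr (run6 hf T (by omega) (by omega) (by omega) (by omega) h (y + 2) (by omega) (by omega) (by omega))

end Pool.Agent.SNT.TipK0
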