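import Pool.Agent.SNT.L0Yb
import Pool.Agent.SNT.TipK0
import Pool.Agent.SNT.K0L4
import Pool.Agent.SNT.LineIn

set_option autoImplicit false

/-! The hypotheses of the near-diagonal windows of the road L0 at `X' = 0`, over the window. -/

namespace Pool.Agent.SNT.L0Y

open Pool.Agent.SNT Pool.Agent.SNT.Sig Pool.Agent.SNT.Loc Pool.Agent.SNT.LW Pool.Agent.SNT.NHZ Pool.Agent.SNT.D1E
open Pool.Agent.SNT.DRun Pool.Agent.SNT.TipK0 Pool.Agent.SNT.K0L4 Pool.Agent.SNT.PB

variable {f : ℕ → ℕ → ℕ → ℕ → Prop} {k c n b m : ℕ}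

/-- the pairs of lines used near the diagonal -/
structure YK (f : ℕ → ℕ → ℕ → ℕ → Prop) (k c n : ℕ) : Prop where
  H : YH f k c n
  k2 : f (6 * k + 2) c (2 * n + 3) (2 * n - 4) ∨ f (6 * k + 2) c (2 * n + 5) (2 * n - 2)
  k4a : f (6 * k + 4) (c - 2) (2 * n - 3) (2 * n - 12) ∨ f (6 * k + 4) (c - 2) (2 * n - 1) (2 * n - 10)
  k4b : f (6 * k + 4) (c - 2) (2 * n - 3) (2 * n - 10) ∨ f (6 * k + 4) (c - 2) (2 * n - 1) (2 * n - 8)
  k6a : f (6 * k + 6) c (2 * n + 3) (2 * n - 4) ∨ f (6 * k + 6) c (2 * n + 5) (2 * n - 2)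
  k6b : f (6 * k + 6) c (2 * n + 3) (2 * n - 6) ∨ f (6 * k + 6) c (2 * n + 5) (2 * n - 4)
  k65 : f (6 * k + 6) c (2 * n + 5) (2 * n) ∨ f (6 * k + 6) c (2 * n + 7) (2 * n + 2)

/-- the pair of lines of `6 k + 4`, row `c - 2`, from the column `2 n - 3` on -/
theorem k4_line (hf : Rule f) (P : PL f k c n (n - 4)) {x y : ℕ} (hx : 2 * n ≤ x + 3) (ho : x % 2 = 1) (hy : y % 2 = 0)
    (h1 : x + 5 ≤ y + 2 * k) (h2 : y + 1 ≤ x) :
    f (6 * k + 4) (c - 2) x y ∨ f (6 * k + 4) (c - 2) (x + 2) (y + 2) := by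
  have hb := P.T.hb
  have hN2 := P.T.hN2
  obtain ⟨y0, hy0⟩ : ∃ y0, y0 + 2 * k = x + 5 := ⟨x + 5 - 2 * k, by have := P.T.hk; omega⟩
  have hk := P.T.hk
  rcases k0_L4 hf P.T P.U P.c4a P.c6a P.c6 P.c8a P.c8 (R := c - 2) (by omega) hx ho hy0 with h | h
  · exact Or.inl (run4 hf P.T P.c4a P.c6 ho (by omega) (by omega) (by omega) h y (by omega) h2 hy)
  · exact Or.inr (run4 hf P.T P.c4a P.c6 (by omega) (by omega) (by omega) (by omega) h (y + 2) (by omega) (by omega)
      (by omega))

theorem YH.of_stack (hf : Rule f) (hs : Side k b m) (S : Stack6 f k b m 0 0 0 0 0 1) (hn : n = m + 9 + (k + 2) * 4)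
    (P : PL f k (b + 22) n (n - 4)) (D0a : Cyc f (6 * k) (b + 20) (2 * (n - 2) + 2))
    (D0b : Cyc f (6 * k) (b + 16) (2 * n - 2 * k - 6)) (D2 : Cyc f (6 * k + 2) (b + 18) (2 * (n - 5) + 2)) :
    YH f k (b + 22) n where
  P := P
  D0a := cyc_mv D0a rfl (by omega) rfl
  D0b := cyc_mv (WrapC.cyc_mono D0b (K' := 2 * (n - 12) + 2) (by have := P.T.hk; have := P.T.hN2; omega)) rfl (by omega) rfl
  D2 := cyc_mv D2 rfl (by omega) rfl
  z2 := by
    intro x y hx h1 hy h2 h3
    have T := P.T
    have hk := T.hk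
    have hN2 := T.hN2
    have hc := T.hc
    refine LineIn.col_zero hf (by omega) hc hx hy
      (T.c0i hf (j := 4) (by omega) (by omega) (by omega) (by omega) (by omega) (by omega)) ?_
    rcases k2_line hf hs S hn (cyc_mv P.c2 rfl (by omega) rfl) (cyc_mv P.c4 rfl (by omega) rfl) (x := x + 1) (y := y - 1)
      (by omega) (by omega) (by omega) (by omega) (by omega) with h | h
    · exact Or.inl (run2' hf T (by omega) (by omega) (by omega) (by omega) h (y + 1) (by omega) (by omega) (by omega))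
    · exact Or.inr (mv h rfl rfl (by omega) (by omega))
  z4 := by
    intro x y hx h1 hy h2 h3
    have T := P.T
    have hk := T.hk
    have hN2 := T.hN2
    have hc := T.hc
    have hb := T.hb
    refine LineIn.col_zero hf (by omega) (by omega) hx hy
      (c4 hf T P.c4a P.c6 (by omega) (by omega) (by omega)) ?_
    rcases k4_line hf P (x := x + 1) (y := y - 1) (by omega) (by omega) (by omega) (by omega) (by omega) with h | h
    · exact Or.inl (run4 hf T P.c4a P.c6 (by omega) (by omega) (by omega) (by omega) h (y + 1) (by omega) (by omega)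
        (by omega))
    · exact Or.inr (mv h rfl rfl (by omega) (by omega))
  z6 := by
    intro x y hx h1 hy h2 h3
    have T := P.T
    have hk := T.hk
    have hN2 := T.hN2
    have hc := T.hc
    refine LineIn.col_zero hf (by omega) hc hx hy (c6 hf T (by omega) (by omega) (by omega)) ?_
    rcases k6_line hf hs S hn (x := x + 1) (y := y - 1)
      (by omega) (by omega) (by omega) (by omega) (by omega) with h | h
    · exact Or.inl (run6 hf T (by omega) (by omega) (by omega) (by omega) h (y + 1) (by omega) (by omega) (by omega))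
    · exact Or.inr (mv h rfl rfl (by omega) (by omega))

theorem YK.of_stack (hf : Rule f) (hs : Side k b m) (S : Stack6 f k b m 0 0 0 0 0 1) (hn : n = m + 9 + (k + 2) * 4)
    (P : PL f k (b + 22) n (n - 4)) (D0a : Cyc f (6 * k) (b + 20) (2 * (n - 2) + 2))
    (D0b : Cyc f (6 * k) (b + 16) (2 * n - 2 * k - 6)) (D2 : Cyc f (6 * k + 2) (b + 18) (2 * (n - 5) + 2)) :
    YK f k (b + 22) n where
  H := YH.of_stack hf hs S hn P D0a D0b D2
  k2 := by
    have hk := P.T.hk
    have hN2 := P.T.hN2
    rcases k2_line hf hs S hn (cyc_mv P.c2 rfl (by omega) rfl) (cyc_mv P.c4 rfl (by omega) rfl) (x := 2 * n + 3)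
      (y := 2 * n - 4) (by omega) (by omega) (by omega) (by omega) (by omega) with h | h
    · exact Or.inl h
    · exact Or.inr (mv h rfl rfl (by omega) (by omega))
  k4a := by
    have hk := P.T.hk
    have hN2 := P.T.hN2
    rcases k4_line hf P (x := 2 * n - 3) (y := 2 * n - 12) (by omega) (by omega) (by omega) (by omega) (by omega) with h | h
    · exact Or.inl h
    · exact Or.inr (mv h rfl rfl (by omega) (by omega))
  k4b := by
    have hk := P.T.hk
    have hN2 := P.T.hN2
    rcases k4_line hf P (x := 2 * n - 3) (y := 2 * n - 10) (by omega) (by omega) (by omega) (by omega) (by omega) with h | h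
    · exact Or.inl h
    · exact Or.inr (mv h rfl rfl (by omega) (by omega))
  k6a := by
    have hk := P.T.hk
    have hN2 := P.T.hN2
    rcases k6_line hf hs S hn (x := 2 * n + 3) (y := 2 * n - 4) (by omega) (by omega) (by omega) (by omega) (by omega)
      with h | h
    · exact Or.inl h
    · exact Or.inr (mv h rfl rfl (by omega) (by omega))
  k6b := by
    have hk := P.T.hk
    have hN2 := P.T.hN2
    rcases k6_line hf hs S hn (x := 2 * n + 3) (y := 2 * n - 6) (by omega) (by omega) (by omega) (by omega) (by omega)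
      with h | h
    · exact Or.inl h
    · exact Or.inr (mv h rfl rfl (by omega) (by omega))
  k65 := by
    have hk := P.T.hk
    have hN2 := P.T.hN2
    rcases k6_line hf hs S hn (x := 2 * n + 5) (y := 2 * n) (by omega) (by omega) (by omega) (by omega) (by omega)
      with h | h
    · exact Or.inl h
    · exact Or.inr (mv h rfl rfl (by omega) (by omega))

end Pool.Agent.SNT.L0Y
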