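import Pool.Agent.SNT.StackAB

set_option autoImplicit false

/-! The improved leads `(L4, L2, L0) = (1, -5, -7)` of the three lower layers, in all cycles, from
the single steps. `n j` is the lead of `6 k + 10` at the row `c = b + 4 j + 22`; the layer `6 k` is
looked at in the row `c - 6`, `6 k + 2` in `c - 4`, `6 k + 4` in `c - 2`. -/

namespace Pool.Agent.SNT

namespace D1

variable {f : ℕ → ℕ → ℕ → ℕ → Prop}

/-- the lead of the top layer in the cycle `j` -/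
def nn (k m j : ℕ) : ℕ := m + (k + 2) * j + 9 + (k + 2) * 4

/-- `6 k` has the lead `n + t - 7` in all cycles `j ≥ J` -/
def Q0 (f : ℕ → ℕ → ℕ → ℕ → Prop) (k b m J t : ℕ) : Prop :=
  ∀ j : ℕ, J ≤ j → Cyc f (6 * k) (b + 4 * j + 16) (2 * (nn k m j + t - 7) + 2)

/-- `6 k + 2` has the lead `n + t - 5` in all cycles `j ≥ J` -/
def Q2 (f : ℕ → ℕ → ℕ → ℕ → Prop) (k b m J t : ℕ) : Prop :=
  ∀ j : ℕ, J ≤ j → Cyc f (6 * k + 2) (b + 4 * j + 18) (2 * (nn k m j + t - 5) + 2)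

/-- `6 k + 4` has the lead `n + t + 1` in all cycles `j ≥ J` -/
def Q4 (f : ℕ → ℕ → ℕ → ℕ → Prop) (k b m J t : ℕ) : Prop :=
  ∀ j : ℕ, J ≤ j → Cyc f (6 * k + 4) (b + 4 * j + 20) (2 * (nn k m j + t + 1) + 2)

theorem nn_shift (k m i j : ℕ) : nn k (m + (k + 2) * i) j = nn k m (i + j) := by
  unfold nn
  ring

theorem Q0.shift {k b m J t : ℕ} (Q : Q0 f k b m J t) (i : ℕ) :
    Q0 f k (b + 4 * i) (m + (k + 2) * i) (J - i) t := by
  intro j hj
  have h := Q (i + j) (by omega)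
  rw [nn_shift]
  rwa [show b + 4 * i + 4 * j + 16 = b + 4 * (i + j) + 16 by ring]

theorem Q2.shift {k b m J t : ℕ} (Q : Q2 f k b m J t) (i : ℕ) :
    Q2 f k (b + 4 * i) (m + (k + 2) * i) (J - i) t := by
  intro j hj
  have h := Q (i + j) (by omega)
  rw [nn_shift]
  rwa [show b + 4 * i + 4 * j + 18 = b + 4 * (i + j) + 18 by ring]

theorem Q4.shift {k b m J t : ℕ} (Q : Q4 f k b m J t) (i : ℕ) :
    Q4 f k (b + 4 * i) (m + (k + 2) * i) (J - i) t := by
  intro j hj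
  have h := Q (i + j) (by omega)
  rw [nn_shift]
  rwa [show b + 4 * i + 4 * j + 20 = b + 4 * (i + j) + 20 by ring]

theorem Q0.mono {k b m J J' t : ℕ} (Q : Q0 f k b m J t) (h : J ≤ J') : Q0 f k b m J' t :=
  fun j hj => Q j (by omega)

theorem Q2.mono {k b m J J' t : ℕ} (Q : Q2 f k b m J t) (h : J ≤ J') : Q2 f k b m J' t :=
  fun j hj => Q j (by omega)

theorem Q4.mono {k b m J J' t : ℕ} (Q : Q4 f k b m J t) (h : J ≤ J') : Q4 f k b m J' t :=
  fun j hj => Q j (by omega)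

/-- The steps. In each of them `StackA` is given, the leads are known in all cycles `j ≥ 0`, and
the conclusion is wanted in the cycle `1`. -/
structure Steps (f : ℕ → ℕ → ℕ → ℕ → Prop) (k e8 e10 : ℕ) : Prop where
  /-- `6 k` from the nominal lead `n + k - 9` down to `n - 5` -/
  s0 : ∀ b m t : ℕ, StackA f k b m 0 0 0 0 e8 e10 → 2 ≤ t → t + 3 ≤ k →
    Q0 f k b m 0 (t + 1) → Cyc f (6 * k) (b + 4 * 1 + 16) (2 * (nn k m 1 + t - 7) + 2)
  /-- `6 k + 2` from the nominal lead `n + k - 7` down to `n - 2` -/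
  s2 : ∀ b m t : ℕ, StackA f k b m 0 0 0 0 e8 e10 → 3 ≤ t → t + 3 ≤ k →
    Q0 f k b m 0 2 → Q2 f k b m 0 (t + 1) →
    Cyc f (6 * k + 2) (b + 4 * 1 + 18) (2 * (nn k m 1 + t - 5) + 2)
  /-- `6 k + 4` from the nominal lead `n + k - 5` down to `n + 1` -/
  s4 : ∀ b m t : ℕ, StackA f k b m 0 0 0 0 e8 e10 → t + 7 ≤ k →
    Q0 f k b m 0 2 → Q2 f k b m 0 3 → Q4 f k b m 0 (t + 1) →
    Cyc f (6 * k + 4) (b + 4 * 1 + 20) (2 * (nn k m 1 + t + 1) + 2)
  /-- `6 k + 2` from `n - 2` to `n - 3` -/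
  s2a : ∀ b m : ℕ, StackA f k b m 0 0 0 0 e8 e10 →
    Q0 f k b m 0 2 → Q4 f k b m 0 0 → Q2 f k b m 0 3 →
    Cyc f (6 * k + 2) (b + 4 * 1 + 18) (2 * (nn k m 1 + 2 - 5) + 2)
  /-- `6 k` from `n - 5` to `n - 6` -/
  s0a : ∀ b m : ℕ, StackA f k b m 0 0 0 0 e8 e10 →
    Q2 f k b m 0 2 → Q4 f k b m 0 0 → Q0 f k b m 0 2 →
    Cyc f (6 * k) (b + 4 * 1 + 16) (2 * (nn k m 1 + 1 - 7) + 2)
  /-- `6 k + 2` from `n - 3` to `n - 4` -/
  s2b : ∀ b m : ℕ, StackA f k b m 0 0 0 0 e8 e10 →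
    Q0 f k b m 0 1 → Q4 f k b m 0 0 → Q2 f k b m 0 2 →
    Cyc f (6 * k + 2) (b + 4 * 1 + 18) (2 * (nn k m 1 + 1 - 5) + 2)
  /-- `6 k` from `n - 6` to `n - 7` -/
  s0b : ∀ b m : ℕ, StackA f k b m 0 0 0 0 e8 e10 →
    Q2 f k b m 0 1 → Q4 f k b m 0 0 → Q0 f k b m 0 1 →
    Cyc f (6 * k) (b + 4 * 1 + 16) (2 * (nn k m 1 + 0 - 7) + 2)
  /-- `6 k + 2` from `n - 4` to `n - 5` -/
  s2c : ∀ b m : ℕ, StackA f k b m 0 0 0 0 e8 e10 →
    Q0 f k b m 0 0 → Q4 f k b m 0 0 → Q2 f k b m 0 1 →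
    Cyc f (6 * k + 2) (b + 4 * 1 + 18) (2 * (nn k m 1 + 0 - 5) + 2)

variable {k b m e8 e10 : ℕ}

theorem cyc_of_eq {a B B' K K' : ℕ} (h : Cyc f a B K) (h1 : B = B') (h2 : K = K') :
    Cyc f a B' K' := by
  subst h1
  subst h2
  exact h

/-- the nominal leads -/
theorem start0 (S : StackA f k b m 0 0 0 0 e8 e10) (hk : 8 ≤ k) : Q0 f k b m 0 (k - 2) := by
  intro j _
  refine cyc_of_eq ((S j).2.l0 4) (by omega) ?_
  unfold nn
  omega

theorem start2 (S : StackA f k b m 0 0 0 0 e8 e10) (hk : 8 ≤ k) : Q2 f k b m 0 (k - 2) := by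
  intro j _
  refine cyc_of_eq ((S j).2.l2 4) (by omega) ?_
  unfold nn
  omega

theorem start4 (S : StackA f k b m 0 0 0 0 e8 e10) (hk : 8 ≤ k) : Q4 f k b m 0 (k - 6) := by
  intro j _
  refine cyc_of_eq ((S j).2.l4 5) (by omega) ?_
  unfold nn
  rw [show (k + 2) * 5 = (k + 2) * 4 + (k + 2) by ring]
  omega

theorem Q0.at {k b m J t : ℕ} (Q : Q0 f k b m J t) {i : ℕ} (hi : J ≤ i) :
    Q0 f k (b + 4 * i) (m + (k + 2) * i) 0 t := by
  have h := Q.shift i
  rwa [show J - i = 0 by omega] at h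

theorem Q2.at {k b m J t : ℕ} (Q : Q2 f k b m J t) {i : ℕ} (hi : J ≤ i) :
    Q2 f k (b + 4 * i) (m + (k + 2) * i) 0 t := by
  have h := Q.shift i
  rwa [show J - i = 0 by omega] at h

theorem Q4.at {k b m J t : ℕ} (Q : Q4 f k b m J t) {i : ℕ} (hi : J ≤ i) :
    Q4 f k (b + 4 * i) (m + (k + 2) * i) 0 t := by
  have h := Q.shift i
  rwa [show J - i = 0 by omega] at h

theorem up0 {J t' : ℕ} (S : StackA f k b m 0 0 0 0 e8 e10)
    (h : ∀ i : ℕ, J ≤ i → Cyc f (6 * k) (b + 4 * i + 4 * 1 + 16)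
      (2 * (nn k (m + (k + 2) * i) 1 + t' - 7) + 2)) : Q0 f k b m (J + 1) t' := by
  intro j hj
  obtain ⟨i, rfl⟩ : ∃ i, j = i + 1 := ⟨j - 1, by omega⟩
  have := h i (by omega)
  rw [nn_shift] at this
  exact cyc_of_eq this (by omega) rfl

theorem up2 {J t' : ℕ} (S : StackA f k b m 0 0 0 0 e8 e10)
    (h : ∀ i : ℕ, J ≤ i → Cyc f (6 * k + 2) (b + 4 * i + 4 * 1 + 18)
      (2 * (nn k (m + (k + 2) * i) 1 + t' - 5) + 2)) : Q2 f k b m (J + 1) t' := by
  intro j hj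
  obtain ⟨i, rfl⟩ : ∃ i, j = i + 1 := ⟨j - 1, by omega⟩
  have := h i (by omega)
  rw [nn_shift] at this
  exact cyc_of_eq this (by omega) rfl

theorem up4 {J t' : ℕ} (S : StackA f k b m 0 0 0 0 e8 e10)
    (h : ∀ i : ℕ, J ≤ i → Cyc f (6 * k + 4) (b + 4 * i + 4 * 1 + 20)
      (2 * (nn k (m + (k + 2) * i) 1 + t' + 1) + 2)) : Q4 f k b m (J + 1) t' := by
  intro j hj
  obtain ⟨i, rfl⟩ : ∃ i, j = i + 1 := ⟨j - 1, by omega⟩
  have := h i (by omega)
  rw [nn_shift] at this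
  exact cyc_of_eq this (by omega) rfl

theorem r0 (H : Steps f k e8 e10) (S : StackA f k b m 0 0 0 0 e8 e10) (hk : 8 ≤ k) :
    Q0 f k b m k 2 := by
  have : ∀ u : ℕ, u + 4 ≤ k → Q0 f k b m u (k - 2 - u) := by
    intro u
    induction u with
    | zero => intro _; exact start0 S hk
    | succ u ih =>
      intro hu
      have q := ih (by omega)
      refine up0 S fun i hi => ?_
      refine H.s0 _ _ (k - 2 - (u + 1)) (S.shift i) (by omega) (by omega) ?_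
      rw [show k - 2 - (u + 1) + 1 = k - 2 - u by omega]
      exact q.at hi
  have h := this (k - 4) (by omega)
  rw [show k - 2 - (k - 4) = 2 by omega] at h
  exact h.mono (by omega)

theorem r2 (H : Steps f k e8 e10) (S : StackA f k b m 0 0 0 0 e8 e10) (hk : 8 ≤ k) :
    Q2 f k b m (2 * k) 3 := by
  have q0 := r0 H S hk
  have : ∀ u : ℕ, u + 5 ≤ k → Q2 f k b m (k + u) (k - 2 - u) := by
    intro u
    induction u with
    | zero => intro _; exact (start2 S hk).mono (by omega)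
    | succ u ih =>
      intro hu
      have q := ih (by omega)
      rw [← Nat.add_assoc]
      refine up2 S fun i hi => ?_
      refine H.s2 _ _ (k - 2 - (u + 1)) (S.shift i) (by omega) (by omega)
        (q0.at (by omega)) ?_
      rw [show k - 2 - (u + 1) + 1 = k - 2 - u by omega]
      exact q.at hi
  have h := this (k - 5) (by omega)
  rw [show k - 2 - (k - 5) = 3 by omega] at h
  exact h.mono (by omega)

theorem r4 (H : Steps f k e8 e10) (S : StackA f k b m 0 0 0 0 e8 e10) (hk : 8 ≤ k) :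
    Q4 f k b m (3 * k) 0 := by
  have q0 := r0 H S hk
  have q2 := r2 H S hk
  have : ∀ u : ℕ, u + 6 ≤ k → Q4 f k b m (2 * k + u) (k - 6 - u) := by
    intro u
    induction u with
    | zero => intro _; exact (start4 S hk).mono (by omega)
    | succ u ih =>
      intro hu
      have q := ih (by omega)
      rw [← Nat.add_assoc]
      refine up4 S fun i hi => ?_
      refine H.s4 _ _ (k - 6 - (u + 1)) (S.shift i) (by omega)
        (q0.at (by omega)) (q2.at (by omega)) ?_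
      rw [show k - 6 - (u + 1) + 1 = k - 6 - u by omega]
      exact q.at hi
  have h := this (k - 6) (by omega)
  rw [show k - 6 - (k - 6) = 0 by omega] at h
  exact h.mono (by omega)

/-- **The improved leads, in all cycles `j ≥ 3 k + 5`.** -/
theorem all (H : Steps f k e8 e10) (S : StackA f k b m 0 0 0 0 e8 e10) (hk : 8 ≤ k) :
    Q0 f k b m (3 * k + 5) 0 ∧ Q2 f k b m (3 * k + 5) 0 ∧ Q4 f k b m (3 * k + 5) 0 := by
  have q0 := r0 H S hk
  have q2 := r2 H S hk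
  have q4 := r4 H S hk
  have p2 : Q2 f k b m (3 * k + 1) 2 := up2 S fun i hi =>
    H.s2a _ _ (S.shift i) (q0.at (by omega)) (q4.at (by omega)) (q2.at (by omega))
  have p0 : Q0 f k b m (3 * k + 1 + 1) 1 := up0 S fun i hi =>
    H.s0a _ _ (S.shift i) (p2.at (by omega)) (q4.at (by omega)) (q0.at (by omega))
  have o2 : Q2 f k b m (3 * k + 2 + 1) 1 := up2 S fun i hi =>
    H.s2b _ _ (S.shift i) (p0.at (by omega)) (q4.at (by omega)) (p2.at (by omega))
  have o0 : Q0 f k b m (3 * k + 3 + 1) 0 := up0 S fun i hi =>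
    H.s0b _ _ (S.shift i) (o2.at (by omega)) (q4.at (by omega)) (p0.at (by omega))
  have n2 : Q2 f k b m (3 * k + 4 + 1) 0 := up2 S fun i hi =>
    H.s2c _ _ (S.shift i) (o0.at (by omega)) (q4.at (by omega)) (o2.at (by omega))
  exact ⟨o0.mono (by omega), n2.mono (by omega), q4.mono (by omega)⟩

/-- The improved leads of the window `b` and of the later ones, over `StackB`. -/
theorem main (H : Steps f k e8 e10) (S : StackB f k b m 0 0 0 0 e8 e10) (hk : 8 ≤ k) (j : ℕ) :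
    Cyc f (6 * k) (b + 4 * j + 16) (2 * (nn k m j - 7) + 2) ∧
    Cyc f (6 * k + 2) (b + 4 * j + 18) (2 * (nn k m j - 5) + 2) ∧
    Cyc f (6 * k + 4) (b + 4 * j + 20) (2 * (nn k m j + 1) + 2) := by
  obtain ⟨b', m', rfl, rfl, S'⟩ := S.back (j := 3 * k + 5) (by omega)
  obtain ⟨q0, q2, q4⟩ := all H S' hk
  have e : nn k (m' + (k + 2) * (3 * k + 5)) j = nn k m' (3 * k + 5 + j) :=
    nn_shift k m' (3 * k + 5) j
  refine ⟨cyc_of_eq (q0 (3 * k + 5 + j) (by omega)) (by ring) (by rw [e]; omega),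
    cyc_of_eq (q2 (3 * k + 5 + j) (by omega)) (by ring) (by rw [e]; omega),
    cyc_of_eq (q4 (3 * k + 5 + j) (by omega)) (by ring) (by rw [e])⟩

end D1

end Pool.Agent.SNT
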