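import Pool.Agent.SNT.LW2

set_option autoImplicit false

/-! The wide leaders: the line of the OUT row and the final contradiction. -/

namespace Pool.Agent.SNT.LW

variable {f : ℕ → ℕ → ℕ → ℕ → Prop} {B c h g m l : ℕ}

/-- The odd layer above `B` is zero in the row `c + 5`. -/
theorem p1 (hf : Rule f) (W : Wd f B c h g m l) {x y : ℕ} (hy : 2 * (m + h + 1) + 1 ≤ y)
    (hyx : y ≤ x) (hx : 2 * (m + h + 1) + 2 ≤ x) (hd : x ≤ y + 2 * g + 7) :
    ¬ f (B + 1) (c + 5) x y := by
  have e1 := W.hB
  have e2 := W.h12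
  have e3 := W.hc
  have e4 := W.ph
  have e5 := W.hh
  have e6 := W.hg
  have e7 := W.hk
  have e8 := W.big
  have e9 := W.hl
  have h1 := odd_static hf (a := B + 2) (b := c + 5) (x := x) (y := y) (by omega) (by omega)
    (by omega) (by omega) hyx (by omega) (by
      intro q r s hq hr hs hrs
      have e10 : B + 2 - 2 = B := by omega
      rw [e10]
      have h2 : y - s ≤ x - r := by omega
      rcases (show q = 0 ∨ q = 1 by omega) with rfl | rfl
      · rcases Nat.lt_or_ge (x - r) (y - s + 2 * g) with h3 | h3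
        · have e11 : c + 5 - 0 = c + 2 + 3 := by omega
          rw [e11]
          exact W.D0.w3s _ _ h2 (by omega) (by omega)
        · have e11 : c + 5 - 0 = c + 2 + 3 := by omega
          rw [e11]
          exact W.D0.w3x _ _ h2 (by omega)
      · rcases Nat.lt_or_ge (x - r) (y - s + 2 * g) with h3 | h3
        · have e11 : c + 5 - 1 = c + 2 + 2 := by omega
          rw [e11]
          exact W.D0.w2s _ _ h2 (by omega) (by omega)
        · have e11 : c + 5 - 1 = c + 2 + 2 := by omega
          rw [e11]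
          exact W.D0.w2x _ _ (by omega) (by omega))
  have e12 : B + 2 - 1 = B + 1 := by omega
  rw [e12] at h1
  intro t
  exact Fst_near_odd (by omega) (by rw [max_eq_left hyx, min_eq_right hyx]; omega) (h1.1 t)

/-- The odd layer above `B + 2` is zero in the row `c + 5`. -/
theorem p1u (hf : Rule f) (W : Wd f B c h g m l) {x y : ℕ} (hy : 2 * (m + h + 1) + 3 ≤ y)
    (hyx : y ≤ x) (hx : 2 * (m + h + 1) + 6 ≤ x) (hd : x ≤ y + 2 * h + 7) :
    ¬ f (B + 3) (c + 5) x y := by
  have e1 := W.hB
  have e2 := W.h12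
  have e3 := W.hc
  have e4 := W.ph
  have e5 := W.hh
  have e7 := W.hk
  have e8 := W.big
  have h1 := odd_static hf (a := B + 4) (b := c + 5) (x := x) (y := y) (by omega) (by omega)
    (by omega) (by omega) hyx (by omega) (by
      intro q r s hq hr hs hrs
      have e10 : B + 4 - 2 = B + 2 := by omega
      rw [e10]
      have h2 : y - s ≤ x - r := by omega
      rcases (show q = 0 ∨ q = 1 by omega) with rfl | rfl
      · have e11 : c + 5 - 0 = c + 4 + 1 := by omega
        rw [e11]
        exact W.C1.w1 _ _ h2 (by omega) (by omega)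
      · have e11 : c + 5 - 1 = c + 4 := by omega
        rw [e11]
        exact W.C1.w0 _ _ h2 (by omega) (by omega))
  have e12 : B + 4 - 1 = B + 3 := by omega
  rw [e12] at h1
  intro t
  exact Fst_near_odd (by omega) (by rw [max_eq_left hyx, min_eq_right hyx]; omega) (h1.1 t)

/-- No even birth on the line. -/
theorem ex_zero (hf : Rule f) (W : Wd f B c h g m l) {i : ℕ} (h1 : m + h + 1 + 3 ≤ i)
    (h2 : i ≤ m + h + 1 + h) : ¬ f (B + 1) (c + 6) (2 * i) (2 * (m + h + 1) + 2) := by
  intro hX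
  have e1 := W.hB
  have e2 := W.h12
  have e3 := W.hc
  have e4 := W.ph
  have e5 := W.hh
  have e6 := W.hg
  have e7 := W.hk
  have e8 := W.big
  have e9 := W.hl
  refine ex hf (a0 := B) (b0 := c + 4) (x0 := 2 * i - 1) (y0 := 2 * (m + h + 1) + 1)  (by omega) (by omega) (by omega) (by omega) ?_ ?_
  · intro j n p q _ hx
    rcases hx with ⟨rfl, rfl, rfl, rfl⟩ | ⟨rfl, rfl, rfl, rfl⟩ | ⟨rfl, rfl, rfl, rfl⟩
    · exact (w2s W.lC1 W.C1 (by omega) (by omega) (by omega) (by omega) (by omega) (by omega)).2 (by unfold V2; omega)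
    · exact (w2s W.lC1 W.C1 (by omega) (by omega) (by omega) (by omega) (by omega) (by omega)).2 (by unfold V2; omega)
    · exact mv hX (by omega) (by omega) (by omega) (by omega)
  · intro j n p q _ hx
    rcases hx with ⟨rfl, rfl, rfl, rfl⟩ | ⟨rfl, rfl, rfl, rfl⟩ | ⟨rfl, rfl, rfl, rfl⟩ | ⟨rfl, rfl, rfl, rfl⟩ |
      ⟨rfl, rfl, rfl, rfl⟩ | ⟨rfl, rfl, rfl, rfl⟩ | ⟨rfl, rfl, rfl, rfl⟩ | ⟨rfl, rfl, rfl, rfl⟩ |
      ⟨rfl, rfl, rfl, rfl⟩
    · exact fun t => absurd ((w2s W.lC1 W.C1 (by omega) (by omega) (by omega) (by omega) (by omega) (by omega)).1 t) (by unfold V2; omega)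
    · exact fun t => absurd ((w1 W.lC1 W.C1 (by omega) (by omega) (by omega) (by omega) (by omega) (by omega)).1 t) (by unfold V1; omega)
    · exact fun t => absurd ((w1 W.lC1 W.C1 (by omega) (by omega) (by omega) (by omega) (by omega) (by omega)).1 t) (by unfold V1; omega)
    · exact fun t => absurd ((w1 W.lC1 W.C1 (by omega) (by omega) (by omega) (by omega) (by omega) (by omega)).1 t) (by unfold V1; omega)
    · exact fun t => absurd ((w1 W.lC1 W.C1 (by omega) (by omega) (by omega) (by omega) (by omega) (by omega)).1 t) (by unfold V1; omega)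
    · exact fun t => p1 hf W (x := 2 * i + 0) (y := 2 * (m + h + 1) + 3) (by omega) (by omega) (by omega) (by omega) (mv t (by omega) (by omega) (by omega) (by omega))
    · exact fun t => p1 hf W (x := 2 * i + 0) (y := 2 * (m + h + 1) + 4) (by omega) (by omega) (by omega) (by omega) (mv t (by omega) (by omega) (by omega) (by omega))
    · exact fun t => p1 hf W (x := 2 * i + 1) (y := 2 * (m + h + 1) + 3) (by omega) (by omega) (by omega) (by omega) (mv t (by omega) (by omega) (by omega) (by omega))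
    · exact fun t => p1 hf W (x := 2 * i + 1) (y := 2 * (m + h + 1) + 4) (by omega) (by omega) (by omega) (by omega) (mv t (by omega) (by omega) (by omega) (by omega))

/-- The out-line stays missing: no healer. -/
theorem line_top (hf : Rule f) (W : Wd f B c h g m l) {i : ℕ} (h1 : m + h + 1 + 3 ≤ i)
    (h2 : i ≤ m + h + 1 + h) (h0 : ¬ f (B + 2) (c + 6) (2 * i) (2 * (m + h + 1) + 3))
    (hn : ¬ f (B + 1) (c + 6) (2 * i) (2 * (m + h + 1) + 3)) :
    ¬ f (B + 2) (c + 6) (2 * i + 2) (2 * (m + h + 1) + 3) := by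
  intro hX
  have e1 := W.hB
  have e2 := W.h12
  have e3 := W.hc
  have e4 := W.ph
  have e5 := W.hh
  have e6 := W.hg
  have e7 := W.hk
  have e8 := W.big
  have e9 := W.hl
  refine lint hf (a0 := B) (b0 := c + 4) (x0 := 2 * i - 1) (y0 := 2 * (m + h + 1) + 1)  (by omega) (by omega) (by omega) (by omega) ?_ ?_
  · intro j n p q _ hx
    obtain ⟨rfl, rfl, rfl, rfl⟩ := hx
    exact mv hX (by omega) (by omega) (by omega) (by omega)
  · intro j n p q _ hx
    rcases hx with ⟨rfl, rfl, rfl, rfl⟩ | ⟨rfl, rfl, rfl, rfl⟩ | ⟨rfl, rfl, rfl, rfl⟩ | ⟨rfl, rfl, rfl, rfl⟩ |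
      ⟨rfl, rfl, rfl, rfl⟩ | ⟨rfl, rfl, rfl, rfl⟩ | ⟨rfl, rfl, rfl, rfl⟩ | ⟨rfl, rfl, rfl, rfl⟩ |
      ⟨rfl, rfl, rfl, rfl⟩ | ⟨rfl, rfl, rfl, rfl⟩ | ⟨rfl, rfl, rfl, rfl⟩
    · exact fun t => absurd ((w1 W.lC1 W.C1 (by omega) (by omega) (by omega) (by omega) (by omega) (by omega)).1 t) (by unfold V1; omega)
    · exact fun t => absurd ((w1 W.lC1 W.C1 (by omega) (by omega) (by omega) (by omega) (by omega) (by omega)).1 t) (by unfold V1; omega)
    · exact fun t => absurd ((w1 W.lC1 W.C1 (by omega) (by omega) (by omega) (by omega) (by omega) (by omega)).1 t) (by unfold V1; omega)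
    · exact fun t => absurd ((w1 W.lC1 W.C1 (by omega) (by omega) (by omega) (by omega) (by omega) (by omega)).1 t) (by unfold V1; omega)
    · exact fun t => p1 hf W (x := 2 * i + 0) (y := 2 * (m + h + 1) + 2) (by omega) (by omega) (by omega) (by omega) (mv t (by omega) (by omega) (by omega) (by omega))
    · exact fun t => p1 hf W (x := 2 * i + 0) (y := 2 * (m + h + 1) + 3) (by omega) (by omega) (by omega) (by omega) (mv t (by omega) (by omega) (by omega) (by omega))
    · exact fun t => p1 hf W (x := 2 * i + 1) (y := 2 * (m + h + 1) + 2) (by omega) (by omega) (by omega) (by omega) (mv t (by omega) (by omega) (by omega) (by omega))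
    · exact fun t => p1 hf W (x := 2 * i + 1) (y := 2 * (m + h + 1) + 3) (by omega) (by omega) (by omega) (by omega) (mv t (by omega) (by omega) (by omega) (by omega))
    · exact fun t => h0 (mv t (by omega) (by omega) (by omega) (by omega))
    · exact fun t => (ex_zero hf W h1 h2) (mv t (by omega) (by omega) (by omega) (by omega))
    · exact fun t => hn (mv t (by omega) (by omega) (by omega) (by omega))

/-- The out-line stays missing: the layer above is static. -/
theorem line_mid (hf : Rule f) (W : Wd f B c h g m l) {i : ℕ} (h1 : m + h + 1 + 3 ≤ i)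
    (h2 : i ≤ m + h + 1 + h) (h0 : ¬ f (B + 2) (c + 6) (2 * i) (2 * (m + h + 1) + 3))
    (hu : f (B + 4) (c + 6) (2 * i + 1) (2 * (m + h + 1) + 4)) :
    ¬ f (B + 2) (c + 6) (2 * i + 2) (2 * (m + h + 1) + 3) := by
  intro hX
  have e1 := W.hB
  have e2 := W.h12
  have e3 := W.hc
  have e4 := W.ph
  have e5 := W.hh
  have e6 := W.hg
  have e7 := W.hk
  have e8 := W.big
  have e9 := W.hl
  refine linm hf (a0 := B + 1) (b0 := c + 4) (x0 := 2 * i - 1) (y0 := 2 * (m + h + 1) + 2)  (by omega) (by omega) (by omega) (by omega) ?_ ?_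
  · intro j n p q _ hx
    rcases hx with ⟨rfl, rfl, rfl, rfl⟩ | ⟨rfl, rfl, rfl, rfl⟩
    · exact mv hu (by omega) (by omega) (by omega) (by omega)
    · exact mv hX (by omega) (by omega) (by omega) (by omega)
  · intro j n p q _ hx
    rcases hx with ⟨rfl, rfl, rfl, rfl⟩ | ⟨rfl, rfl, rfl, rfl⟩ | ⟨rfl, rfl, rfl, rfl⟩ | ⟨rfl, rfl, rfl, rfl⟩ |
      ⟨rfl, rfl, rfl, rfl⟩ | ⟨rfl, rfl, rfl, rfl⟩ | ⟨rfl, rfl, rfl, rfl⟩ | ⟨rfl, rfl, rfl, rfl⟩ |
      ⟨rfl, rfl, rfl, rfl⟩ | ⟨rfl, rfl, rfl, rfl⟩
    · exact fun t => absurd ((w2s W.lC1 W.C1 (by omega) (by omega) (by omega) (by omega) (by omega) (by omega)).1 t) (by unfold V2; omega)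
    · exact fun t => p1u hf W (x := 2 * i + 0) (y := 2 * (m + h + 1) + 3) (by omega) (by omega) (by omega) (by omega) (mv t (by omega) (by omega) (by omega) (by omega))
    · exact fun t => p1u hf W (x := 2 * i + 0) (y := 2 * (m + h + 1) + 4) (by omega) (by omega) (by omega) (by omega) (mv t (by omega) (by omega) (by omega) (by omega))
    · exact fun t => p1u hf W (x := 2 * i + 1) (y := 2 * (m + h + 1) + 3) (by omega) (by omega) (by omega) (by omega) (mv t (by omega) (by omega) (by omega) (by omega))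
    · exact fun t => p1u hf W (x := 2 * i + 1) (y := 2 * (m + h + 1) + 4) (by omega) (by omega) (by omega) (by omega) (mv t (by omega) (by omega) (by omega) (by omega))
    · exact fun t => absurd ((w1 W.lC1 W.C1 (by omega) (by omega) (by omega) (by omega) (by omega) (by omega)).1 t) (by unfold V1; omega)
    · exact fun t => absurd ((w1 W.lC1 W.C1 (by omega) (by omega) (by omega) (by omega) (by omega) (by omega)).1 t) (by unfold V1; omega)
    · exact fun t => absurd ((w1 W.lC1 W.C1 (by omega) (by omega) (by omega) (by omega) (by omega) (by omega)).1 t) (by unfold V1; omega)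
    · exact fun t => absurd ((w1 W.lC1 W.C1 (by omega) (by omega) (by omega) (by omega) (by omega) (by omega)).1 t) (by unfold V1; omega)
    · exact fun t => h0 (mv t (by omega) (by omega) (by omega) (by omega))

/-- The window of a wide leader from the full profiles. -/
theorem Wd.of_cyc {B c h g m l : ℕ} (hB : B % 2 = 0) (h12 : 12 ≤ B) (hc : c % 2 = 0)
    (ph : (B + c) % 4 = 0) (hh : (B + 2) / 6 = h) (hg : B / 6 = g) (hk : 9 ≤ h)
    (big : 2 * B + 60 ≤ c) (hl : l + 3 = m + h + 1) (C0 : Cyc f (B + 2) c (2 * m + 2))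
    (C1 : Cyc f (B + 2) (c + 4) (2 * (m + h + 1) + 2))
    (C2 : Cyc f (B + 2) (c + 8) (2 * (m + 2 * (h + 1)) + 2))
    (D0 : Cyc f B (c + 2) (2 * l + 2)) (D1 : Cyc f B (c + 6) (2 * (l + h + 1) + 2)) :
    Wd f B c h g m l :=
  ⟨hB, h12, hc, ph, hh, hg, hk, big, hl, .of_cyc (by omega) C0, .of_cyc (by omega) C1,
    .of_cyc (by omega) C2, .of_cyc h12 D0, .of_cyc h12 D1⟩

/-- The edge of the out-line is present. -/
theorem edge (hf : Rule f) (W : Wd f B c h g m l) :
    f (B + 2) (c + 6) (2 * (m + h + 1) + 2 * h + 2) (2 * (m + h + 1) + 3) := by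
  have e5 := W.hh
  have e6 := W.hg
  rcases (show g + 1 = h ∨ g = h by omega) with h1 | h1
  · exact edgel_ct hf W h1
  · exact edgeg_ct hf W h1

/-- A wide leader with one missing tip and no healer. -/
theorem wide_top (hf : Rule f) (W : Wd f B c h g m l)
    (ht : ¬ f (B + 2) (c + 4) (2 * (m + h + 1) + 1) (2 * (m + h + 1)))
    (hn : ∀ i : ℕ, m + h + 1 + 4 ≤ i → i ≤ m + h + 1 + h →
      ¬ f (B + 1) (c + 6) (2 * i) (2 * (m + h + 1) + 3)) : False := by
  have e7 := W.hk
  have key : ∀ t : ℕ, t + 4 ≤ h + 1 →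
      ¬ f (B + 2) (c + 6) (2 * (m + h + 1 + 4 + t)) (2 * (m + h + 1) + 3) := by
    intro t
    induction t with
    | zero =>
      intro _ q
      exact turn_c hf W ht (mv q rfl rfl (by omega) rfl)
    | succ t ih =>
      intro h1 q
      exact line_top hf W (i := m + h + 1 + 4 + t) (by omega) (by omega) (ih (by omega))
        (hn _ (by omega) (by omega)) (mv q rfl rfl (by omega) rfl)
  exact key (h + 1 - 4) (by omega) (mv (edge hf W) rfl rfl (by omega) rfl)

/-- A wide leader with one missing tip below a layer with a static IN row. -/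
theorem wide_mid (hf : Rule f) (W : Wd f B c h g m l)
    (ht : ¬ f (B + 2) (c + 4) (2 * (m + h + 1) + 1) (2 * (m + h + 1)))
    (hu : ∀ i : ℕ, m + h + 1 + 3 ≤ i → i ≤ m + h + 1 + h →
      f (B + 4) (c + 6) (2 * i + 1) (2 * (m + h + 1) + 4)) : False := by
  have e7 := W.hk
  have key : ∀ t : ℕ, t + 3 ≤ h + 1 →
      ¬ f (B + 2) (c + 6) (2 * (m + h + 1 + 3 + t)) (2 * (m + h + 1) + 3) := by
    intro t
    induction t with
    | zero =>
      intro _ q
      exact turn_b hf W ht (mv q rfl rfl (by omega) rfl)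
    | succ t ih =>
      intro h1 q
      exact line_mid hf W (i := m + h + 1 + 3 + t) (by omega) (by omega) (ih (by omega))
        (hu _ (by omega) (by omega)) (mv q rfl rfl (by omega) rfl)
  exact key (h + 1 - 3) (by omega) (mv (edge hf W) rfl rfl (by omega) rfl)

/-- A wide leader with one missing tip below a layer with the nominal profile. -/
theorem wide_mid' (hf : Rule f) (W : Wd f B c h g m l)
    (ht : ¬ f (B + 2) (c + 4) (2 * (m + h + 1) + 1) (2 * (m + h + 1)))
    (h4 : h ≤ (B + 4) / 6) (E : Cw f (B + 4) (c + 6) (m + h + 1 + 2)) : False := by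
  refine wide_mid hf W ht ?_
  intro i h1 h2
  have e1 := W.hB
  have e2 := W.h12
  have e4 := W.ph
  have e7 := W.hk
  have e8 := W.big
  exact (w0 (h := (B + 4) / 6) ⟨by omega, by omega, rfl, by omega⟩ E rfl rfl (by omega) (by omega)
    (by omega) (by omega)).2 (by unfold V0; omega)

end Pool.Agent.SNT.LW
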