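import Pool.Agent.SNT.Stack6
import Pool.Agent.SNT.LW3

set_option autoImplicit false

/-! The wide leaders `6 k + 6`, `6 k + 8`, and `6 k + 10` from the absence of healers. -/

namespace Pool.Agent.SNT.LW

variable {f : ℕ → ℕ → ℕ → ℕ → Prop}

theorem Cw.cast {a b n a' b' n' : ℕ} (C : Cw f a b n) (ha : a' = a) (hb : b' = b)
    (hn : n' = n) : Cw f a' b' n' := by
  subst ha hb hn
  exact C

theorem Cw.of {a b K a' b' n : ℕ} (C : Cyc f a b K) (h12 : 12 ≤ a) (ha : a' = a) (hb : b' = b)
    (hK : K = 2 * n + 2) : Cw f a' b' n := by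
  subst ha hb hK
  exact Cw.of_cyc h12 C

/-- The leader `6 k + 6`. -/
theorem leadR6 (hf : Rule f) {k : ℕ} : S6.LeadR6 f k := by
  intro b m hs S ht
  obtain ⟨hk, hb, hph, hbig, hm⟩ := hs
  have W : Wd f (6 * k + 4) (b + 14) (k + 1) k (m + 5 + (k + 2) * 3) (m + 2 + (k + 2) * 4) :=
    ⟨by omega, by omega, by omega, by omega, by omega, by omega, by omega, by omega, by omega,
      .of (S.l6 3) (by omega) (by omega) (by omega) (by omega),
      .of (S.l6 4) (by omega) (by omega) (by omega) (by omega),
      .of (S.l6 5) (by omega) (by omega) (by omega) (by omega),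
      .of (S.l4 4) (by omega) (by omega) (by omega) (by omega),
      .of (S.l4 5) (by omega) (by omega) (by omega) (by omega)⟩
  refine wide_mid' hf W (fun t => ht ?_) (by omega)
    ((S.l8 4).cast (by omega) (by omega) (by omega))
  exact mv t (by omega) (by omega) (by omega) (by omega)

/-- The leader `6 k + 8`. -/
theorem leadR8 (hf : Rule f) {k : ℕ} : S6.LeadR8 f k := by
  intro b m hs S ht
  obtain ⟨hk, hb, hph, hbig, hm⟩ := hs
  have W : Wd f (6 * k + 6) (b + 16) (k + 1) (k + 1) (m + 7 + (k + 2) * 3)
      (m + 4 + (k + 2) * 4) :=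
    ⟨by omega, by omega, by omega, by omega, by omega, by omega, by omega, by omega, by omega,
      (S.l8 3).cast (by omega) (by omega) (by omega),
      (S.l8 4).cast (by omega) (by omega) (by omega),
      (S.l8 5).cast (by omega) (by omega) (by omega),
      .of (S.l6 4) (by omega) (by omega) (by omega) (by omega),
      .of (S.l6 5) (by omega) (by omega) (by omega) (by omega)⟩
  refine wide_mid' hf W (fun t => ht ?_) (by omega)
    ((S.l10 4).cast (by omega) (by omega) (by omega))
  exact mv t (by omega) (by omega) (by omega) (by omega)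

/-- The leader `6 k + 10` when no healer is born on the line. -/
theorem leadR10 (hf : Rule f) {k b m : ℕ} (hs : Side k b m) (S : Stack6 f k b m 0 0 0 0 0 1)
    (hn : ∀ i : ℕ, m + 9 + (k + 2) * 4 + 4 ≤ i → i ≤ m + 9 + (k + 2) * 4 + (k + 1) →
      ¬ f (6 * k + 9) (b + 24) (2 * i) (2 * (m + 9 + (k + 2) * 4) + 3))
    (ht : ¬ f (6 * k + 10) (b + 22) (2 * (m + 9 + (k + 2) * 4) + 1)
      (2 * (m + 9 + (k + 2) * 4))) : False := by
  obtain ⟨hk, hb, hph, hbig, hm⟩ := hs
  have W : Wd f (6 * k + 8) (b + 18) (k + 1) (k + 1) (m + 9 + (k + 2) * 3)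
      (m + 6 + (k + 2) * 4) :=
    ⟨by omega, by omega, by omega, by omega, by omega, by omega, by omega, by omega, by omega,
      (S.l10 3).cast (by omega) (by omega) (by omega),
      (S.l10 4).cast (by omega) (by omega) (by omega),
      (S.l10 5).cast (by omega) (by omega) (by omega),
      (S.l8 4).cast (by omega) (by omega) (by omega),
      (S.l8 5).cast (by omega) (by omega) (by omega)⟩
  refine wide_top hf W (fun t => ht ?_) (fun i h1 h2 t => hn i (by omega) (by omega) ?_)
  · exact mv t (by omega) (by omega) (by omega) (by omega)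
  · exact mv t (by omega) (by omega) (by omega) (by omega)

end Pool.Agent.SNT.LW
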