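import Pool.Agent.SNT.NWB

set_option autoImplicit false

/-! The near-wall window p9_0_3 (helper33). -/

namespace Pool.Agent.SNT.NB

open Pool.Agent.SNT Pool.Agent.SNT.Loc Pool.Agent.SNT.LW Pool.Agent.SNT.NHZ Pool.Agent.SNT.NW

variable {f : ℕ → ℕ → ℕ → ℕ → Prop} {k c n : ℕ}

def p9_0_3T (j n p q : ℕ) : Bool :=
  decide (j = 2 ∧ n = 1 ∧ q ≤ p + 14 ∧ ((p > 0) ∨ (p ≤ q ∧ p + 1 > 0)) ∧ (q ≤ p ∧ (p + q + 2) % 4 = 0)) ||
    (decide (j = 2 ∧ n = 2 ∧ q ≤ p + 14 ∧ q ≤ p ∧ p > 2 ∧ (((p + q) % 2 = 1 ∧ p < q ∧ (p) % 2 = 0) ∨ (q ≤ p + 1 ∧ (p + q + 3) % 4 = 0))) ||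
    (decide (j = 4 ∧ n = 1 ∧ q ≤ p + 14 ∧ ((p > 0) ∨ (p + 1 ≤ q ∧ q > 1)) ∧ (q ≤ p ∧ (p + q) % 4 = 0)) ||
    (decide (j = 4 ∧ n = 2 ∧ q ≤ p + 14 ∧ p > 2 ∧ (((p + q) % 2 = 1 ∧ p < q ∧ (p) % 2 = 1) ∨ (q ≤ p + 1 ∧ (p + q + 1) % 4 = 0))) ||
    (decide (j = 4 ∧ n = 3 ∧ q ≤ p + 14 ∧ ((p > 4) ∨ (p ≤ q ∧ p > 3)) ∧ (q ≤ p ∧ (p + q + 2) % 4 = 0)) ||
    (decide (j = 6 ∧ n = 1 ∧ q ≤ p + 14 ∧ (q ≤ p ∧ (p + q + 2) % 4 = 0)) ||
    (decide (j = 6 ∧ n = 2 ∧ q ≤ p + 14 ∧ ((p > 10) ∨ (q ≤ p) ∨ (p + 1 ≤ q ∧ q > 11)) ∧ (((p + q) % 2 = 1 ∧ p < q ∧ (p) % 2 = 0) ∨ (q ≤ p + 1 ∧ (p + q + 3) % 4 = 0))) ||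
    (decide (j = 8 ∧ n = 2 ∧ q ≤ p + 14 ∧ p > 2 ∧ (((p + q) % 2 = 1 ∧ p < q + 2 ∧ (p) % 2 = 1) ∨ (q + 1 ≤ p ∧ (p + q + 1) % 4 = 2))) ||
    (decide (j = 8 ∧ n = 3 ∧ q ≤ p + 14 ∧ ((p > 4) ∨ (p ≤ q + 2 ∧ p > 3)) ∧ (q + 2 ≤ p ∧ (p + q + 2) % 4 = 2)) ||
    (decide (j = 8 ∧ n = 4 ∧ q ≤ p + 14 ∧ q + 2 ≤ p ∧ p > 6 ∧ (((p + q) % 2 = 1 ∧ p < q + 2 ∧ (p) % 2 = 0) ∨ (q + 1 ≤ p ∧ (p + q + 3) % 4 = 2))) ||
    (decide (j = 10 ∧ n = 4 ∧ q ≤ p + 14 ∧ ((p > 6 ∧ p + 1 ≤ q) ∨ (p > 8)) ∧ (((p + q) % 2 = 1 ∧ p < q + 2 ∧ (p) % 2 = 1) ∨ (q + 1 ≤ p ∧ (p + q + 1) % 4 = 2))) ||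
    (decide (j = 11 ∧ n = 4 ∧ p = 6 ∧ q = 9))))))))))))

def p9_0_3F (j n p q : ℕ) : Bool :=
  decide (j = 2 ∧ n = 1 ∧ q ≤ p + 14 ∧ ((p > 0) ∨ (p ≤ q ∧ p + 1 > 0)) ∧ ¬ (q ≤ p ∧ (p + q + 2) % 4 = 0)) ||
    (decide (j = 2 ∧ n = 2 ∧ q ≤ p + 14 ∧ q ≤ p ∧ p > 2 ∧ ¬ (((p + q) % 2 = 1 ∧ p < q ∧ (p) % 2 = 0) ∨ (q ≤ p + 1 ∧ (p + q + 3) % 4 = 0))) ||
    (decide (j = 4 ∧ n = 1 ∧ q ≤ p + 14 ∧ ((p > 0) ∨ (p + 1 ≤ q ∧ q > 1)) ∧ ¬ (q ≤ p ∧ (p + q) % 4 = 0)) ||
    (decide (j = 4 ∧ n = 2 ∧ q ≤ p + 14 ∧ p > 2 ∧ ¬ (((p + q) % 2 = 1 ∧ p < q ∧ (p) % 2 = 1) ∨ (q ≤ p + 1 ∧ (p + q + 1) % 4 = 0))) ||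
    (decide (j = 4 ∧ n = 3 ∧ q ≤ p + 14 ∧ ((p > 4) ∨ (p ≤ q ∧ p > 3)) ∧ ¬ (q ≤ p ∧ (p + q + 2) % 4 = 0)) ||
    (decide (j = 6 ∧ n = 1 ∧ q ≤ p + 14 ∧ ¬ (q ≤ p ∧ (p + q + 2) % 4 = 0)) ||
    (decide (j = 6 ∧ n = 2 ∧ q ≤ p + 14 ∧ ((p > 10) ∨ (q ≤ p) ∨ (p + 1 ≤ q ∧ q > 11)) ∧ ¬ (((p + q) % 2 = 1 ∧ p < q ∧ (p) % 2 = 0) ∨ (q ≤ p + 1 ∧ (p + q + 3) % 4 = 0))) ||
    (decide (j = 8 ∧ n = 3 ∧ q ≤ p + 14 ∧ ((p > 4) ∨ (p ≤ q + 2 ∧ p > 3)) ∧ ¬ (q + 2 ≤ p ∧ (p + q + 2) % 4 = 2)) ||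
    (decide (j = 10 ∧ n = 3 ∧ q ≤ p + 14 ∧ ((p ≤ q + 1 ∧ q > 5) ∨ (p > 7)) ∧ ¬ (q + 2 ≤ p ∧ (p + q) % 4 = 2)) ||
    (decide (j = 2 ∧ n = 3 ∧ q ≥ 5 ∧ p + 6 ≤ q ∧ q ≤ p + 11) ||
    (decide (j = 3 ∧ n = 1 ∧ q ≥ 4 ∧ p + 5 ≤ q ∧ q ≤ p + 12) ||
    (decide (j = 3 ∧ n = 2 ∧ q ≥ 4 ∧ p + 5 ≤ q ∧ q ≤ p + 12) ||
    (decide (j = 3 ∧ n = 3 ∧ q ≥ 5 ∧ p + 6 ≤ q ∧ q ≤ p + 11) ||
    (decide (j = 3 ∧ n = 4 ∧ q ≥ 10 ∧ p + 6 ≤ q ∧ q ≤ p + 11) ||
    (decide (j = 4 ∧ n = 3 ∧ q ≥ 5 ∧ p + 5 ≤ q ∧ q ≤ p + 12) ||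
    (decide (j = 5 ∧ n = 1 ∧ q ≥ 4 ∧ p + 4 ≤ q ∧ q ≤ p + 13) ||
    (decide (j = 5 ∧ n = 2 ∧ q ≥ 4 ∧ p + 4 ≤ q ∧ q ≤ p + 13) ||
    (decide (j = 5 ∧ n = 3 ∧ q ≥ 5 ∧ p + 5 ≤ q ∧ q ≤ p + 12) ||
    (decide (j = 5 ∧ n = 4 ∧ q ≥ 10 ∧ p + 5 ≤ q ∧ q ≤ p + 12) ||
    (decide (j = 6 ∧ n = 3 ∧ q ≥ 5 ∧ p + 4 ≤ q ∧ q ≤ p + 13) ||
    (decide (j = 7 ∧ n = 1 ∧ q ≥ 4 ∧ p + 3 ≤ q ∧ q ≤ p + 14) ||
    (decide (j = 7 ∧ n = 2 ∧ q ≥ 4 ∧ p + 3 ≤ q ∧ q ≤ p + 14) ||
    (decide (j = 7 ∧ n = 3 ∧ q ≥ 5 ∧ p + 4 ≤ q ∧ q ≤ p + 13) ||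
    (decide (j = 7 ∧ n = 4 ∧ q ≥ 10 ∧ p + 4 ≤ q ∧ q ≤ p + 13) ||
    (decide (j = 9 ∧ n = 3 ∧ q ≥ 5 ∧ p + 3 ≤ q ∧ q ≤ p + 14) ||
    (decide (j = 9 ∧ n = 4 ∧ q ≥ 10 ∧ p + 3 ≤ q ∧ q ≤ p + 14) ||
    (decide (j = 4 ∧ n = 4 ∧ q = 10 ∧ p ≥ 1 ∧ p ≤ 5 ∧ ((p) % 2 = 1)) ||
    (decide (j = 8 ∧ n = 4 ∧ q = 10 ∧ p ≥ 1 ∧ p ≤ 5 ∧ ((p) % 2 = 1)) ||
    (decide (j = 1 ∧ q ≤ p + 14)))))))))))))))))))))))))))))

theorem p9_0_3_chk : check 11 6 11 14 0 0 0 0 0 p9_0_3T p9_0_3F
    1121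
    0x136685119100136d9211989a119780119e920dfb800dfb810bd2000bd912136d8311910011989a0fc9800fd0921198830fc2800fc9920fd0800fd0840bd9000bd90413740013748a119e83119f00119f04119900136eda0c28830df6800fcc5a1199801199840c34800c3481136d8311910011989a0fc9800fd0921198830fc2800fc9920fd0800fd084119e83119f00119f04119900136eda0c28830df6800fcc5a1199801199840bd2000bd9120c2d800c2d840c30000e05520c2f000c369a0fcb030c27800c2f1a0fcc030df6000fcb520c20000c279a0fcb030c20800c20840c2e800c2e84119900136eda0c28830df6800fcc5a1199801199840c2f800c2f8411b6830e13000e13010fe08011b5d211b6830e13000e13010fe7800fe7840c36800c36840bf7030c44800c44840884030a52000a52040884830a52800a52840885030a53000a53040885830a53800a5384088b830a59800a598411b6830e13000e13010bf0000bf0010b94800b94810b86800b868111b6830e13000e13010bf7000bf7010b9b800b9b810b8d800b8d810b7f800b7f840c36800c36810a5a000a5a04088c830a5a800a5a840891030a5f000a5f040892830a60800a60840892830a61000a61040893830a61800a61840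a67830a68000a68040e0c030fda0011af5211af830e0c000e0c010fd9800fd98411af830e0c000e0c010fd28011a7d20fe0800fe0840a68800a68840a5b0308850008850408928308930008930404e08306ae8006ae840a5b0308850008850106af0006af0404e18306af8006af8408860306b00006b00404e28306b08006b08404e78306b58006b58404e80306b60006b60404e88306b68006b68404e90306b70006b70404e98306b78006b78404ed8306bb8006bb8404a10306bc0006bc0411af830e0c000e0c8a0a69000a690108930008930106bd0006bd0404ef8306bd8006bd8408940306be0006be0404f08306be8006be8404f60306c40006c40404f68306c48006c48404f70306c50006c50404f78306c58006c58404f80306c60006c60404a10304ee8004ee840bd9030da7000da7040da7030da7800da7840b8d830da8800da8840be1830daf800daf840b94830db0000db0040b9c830db7800db7840bf0830dbe800dbe8411af830dbf000dbf040dc5030dc5800dc5840baa830dc6000dc6040b85830bd3000bd3040bd9030bd9800bd9840b8c830bda000bda040b8d830bda800bda840b94830be1800be1840b94830be2000be2040be8030be8800be8840b9b830be9000be9040b9c830be9800be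9840ba3830bf0800bf0840ba3830bf1000bf1040bf7030bf7800bf7840baa830bf8000bf8040835830a03800a038407e283082f80082f8409b103083000083004049203066000066004049283066080066084049383066180066184049403066200066204049483066280066284049a83066880066884044d83066900066904044e83066980066984044e83066a00066a0404548306700006700404558306708006708404558306710006710404568306718006718404a90306770006770404a983067780067784045c83067800067804045d83067880067884045d83067900067904044583049280049284044583049300049304044683049380049384061503049400049404044783049480049484044d83049a80049a84044d83049b00049b04044e83049b80049b84044e83049c00049c0404a10304a18004a18404548304a20004a20404558304a28004a28404558304a30004a30404568304a38004a384045c8304a98004a984045c8304aa0004aa04045d8304aa8004aa84045d8304ab0004ab040b85830b86000b86040b94830b95000b95040d538309b00009b0040d538309b08009b0840d4c8309a90009b09a0b85800d53c209b0830b7e800b7e84060d00060d040d538309b08009b10a060d80060d8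4044d83044e00044e0404a403044f00044f0404a503045000045004044d83044e00044e8a044f00044f8a04500004508a045100045104045c83045d00045d040d4c83095c00095c040d53830963000963040d53830963800963840d5a83096a00096a040d5a83096a80096a840d5b83096b00096b040d62830972000972040d62830972800972840d69830979000979040d69830979800979840d6a83097a00097a040d71830981000981040d71830981800981840d78830988000988040d788309888009888409b0830b77000d4cda09b0830b77800b77840b85800d53c209b0830b7e800b7e8405c00005c00409b1030b7e800d53d209b1030b85800b858405c08005c0840bdf800dadc204a780153c801385001384001383001376001375000fd7000f99800f8a800f7b800f4e000f4d000f40000f3f000f3e000f31000f30000f2f000f22000f21000ba2000b93000b8a800b84000b55800b46800b3e000b3780085380084b00084480080d8008070007fe8007fa0007f90007f80007ef8007eb0007ea0007e90007c10007b20007a300079400045b0004a781045280044c00040e8003ff8003f080153c8f13850f13840f13830f13760f13750f136e07136d071327871327071321871321071320871320071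31a87131a0713198713190711af8711a88711a807116287115b87115b07115387114c87114c071144870fe1070fe0070fd70f0fd2070fd0070fcc070fc5070fc4070fc3070fc2070f9b870f9b070f9a870f9a070f998f0f94870f94070f93870f93070f8d870f8d070f8c870f8c070f8a8f0f85870f85070f83870f83070f7f070f7e870f7e070f7d870f7d070f7c870f7c070f7b8f0f78070f77870f77070f76870f76070f75870f75070f4e0f0f4d0f0f400f0f3f0f0f3e0f0f310f0f300f0f2f0f0f220f0f210f0e0c870e05870e05070dfe070df7070dbf870db8870db8070db1070db0870daa070da9870da9070d6a870d63870d63070d5b870d54870d54070d4c870d45870d45070d1d870d16870d16070d0e870d07870d07070cff870cf8870cf8070c45070c37070c36070c34070c28070c27070c26070bf1870bea870bea070be3070be2870bdb870bdb070bd4870bd4070bd3870baa070ba9870ba2870ba20f0b9c070b9b070b9a870b93870b930f0b92870b92070b8d070b8c070b8b870b8b070b8a8f0b84870b840f0b7f070b7e070b5d870b5d070b56870b56070b558f0b4f870b4f070b4e870b4e070b48870b48070b47870b47070b468f0b40870b40070b3f870b3f070b3e0f0b39870b39070b3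8870b38070b378f0b32870b32070b31870b31070b2a870b2a070a62070a5b070a54070a15070a0e070a0d870a07070a06870a060709c78709b88709b18709b10709aa0709a987097a87096b87096487096407095d07095c87089b07089907089407088d07088c07088b07088a07088607087f07087e07087d0708538f084e07084d87084c87084c07084b0f08470708468708460708458708450708448f084407084387084007083f87083f07083e87083e07083d07083907083887083807083207083187083107083087080d8f08070f07fe8f07fa0f07f90f07f80f07ef8f07eb0f07ea0f07e90f07e88707e80707e30707e20707e10707c10f07b20f07a30f07960707958707950707940f078f07078e87078e0706bf0706b80706b107067207066b07066a87066407066387066307060e0705c10704f10704f00704ef0704ed0704e20704e10704e00704a50704a48704a407049e07049d87049d07049c87049587049507048e87048e07048d87045b87045b0f045a87045a0704580704570704560704550704540704538704530704528f044c87044c0f044907044807044707044607044507041087041007040f87040f07040e8f04098704090704088704080704078704070704038704030704028704020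704018704010704008704000703ff8f03fc8703fc0703fb8703fb0703fa8703fa0703f98703f90703f88703f80703f38703f30703f28703f20703f18703f10703f08f032a07032987032907032887032807032787032307032287032207032187032107032087031f87031f07031b87031b07031a87031a07031987031907031887031807031487031407031387031307031287031207030d87030d07030c87030c07030b87030b0702dd0702dc8702dc0702db8702db0702da8702d98702d90702d70702d68702d60702d58702d50702d48702d40702d38702d30702d28702d20702d00702cf8702cf0702ce8702ce0702cd8702cd0702cc8702cc0702cb8702cb0702c78702c70702c68702c60702c58702c50702c48702c40702c38702c08702c00702bf8702bf0702be8702be0702bd8702bd0702bc87028f87028f07028e87028e07028d87028c87028c07028a07028987028907028887028807028787028707028687028607028587028507028307028287028207028187028107028087028007027f87027f07027e87027b87027b07027a87027a07027987027907027887027807027787027707027687027287027207027187027107027087027007026f87024287024207024187024107023b87023b07023a87023a07023987023907023587023507023487023407023387023307023287023207022e87022e07022d87022d07022c87022c07022b87022b07022a87022a07022587022507022487022407022387022307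 = true := by
  decide +kernel

theorem p9_0_3 (hf : Rule f) (H : NWJ f k c n) (U : Pur f k c n) :
    ¬ f (6 * k + 9) (c + 2) (2 * n + 2 * k) (2 * n + 3) := by
  by_contra hg
  have hk := H.T.hk
  have hc := H.T.hc
  have h4 := H.T.h4
  have hb := H.T.hb
  have hN2 := H.T.hN2
  obtain ⟨a0, ha0⟩ : ∃ a0, a0 + 2 = 6 * k := ⟨6 * k - 2, by omega⟩
  obtain ⟨b0, hb0⟩ : ∃ b0, b0 + 2 = c := ⟨c - 2, by omega⟩
  obtain ⟨x0, hx0⟩ : ∃ x0, x0 + 6 = 2 * n + 2 * k := ⟨2 * n + 2 * k - 6, by omega⟩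
  obtain ⟨y0, hy0⟩ : ∃ y0, y0 + 6 = 2 * n := ⟨2 * n - 6, by omega⟩
  refine check_sound hf (a0 := a0) (b0 := b0) (x0 := x0) (y0 := y0) p9_0_3_chk
    ⟨fun h => absurd h (by decide), fun h => absurd h (by decide), fun h => absurd h (by decide),
      by omega, by omega, by omega, by omega⟩ ?_ ?_
  · intro j m p q hr h
    obtain ⟨-, -, hn1, hn2, hp1, hp2, hq1, hq2⟩ := hr
    unfold p9_0_3T at h
    simp only [Bool.or_eq_true, decide_eq_true_eq] at h
    rcases h with h | h | h | h | h | h | h | h | h | h | h | h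
    · obtain ⟨⟨rfl, rfl, h1⟩, h2⟩ := h
      exact (WrapC.v1 H.c0 (by omega) (by omega) (by omega) (by omega) (by omega) (by omega) (by omega) (by omega)).mpr (by omega)
    · obtain ⟨⟨rfl, rfl, h1⟩, h2⟩ := h
      exact (WrapC.v2 H.c0 (by omega) (by omega) (by omega) (by omega) (by omega) (by omega) (by omega)).mpr (by omega)
    · obtain ⟨⟨rfl, rfl, h1⟩, h2⟩ := h
      exact (WrapC.v3 H.c2 (by omega) (by omega) (by omega) (by omega) (by omega) (by omega) (by omega) (by omega)).mpr (by omega)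
    · obtain ⟨⟨rfl, rfl, h1⟩, h2⟩ := h
      exact (WrapC.v0 H.c2b (by omega) (by omega) (by omega) (by omega) (by omega) (by omega) (by omega)).mpr (by omega)
    · obtain ⟨⟨rfl, rfl, h1⟩, h2⟩ := h
      exact (WrapC.v1 H.c2b (by omega) (by omega) (by omega) (by omega) (by omega) (by omega) (by omega) (by omega)).mpr (by omega)
    · obtain ⟨⟨rfl, rfl, h1⟩, h2⟩ := h
      exact (WrapC.v1 H.c4 (by omega) (by omega) (by omega) (by omega) (by omega) (by omega) (by omega) (by omega)).mpr (by omega)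
    · obtain ⟨⟨rfl, rfl, h1⟩, h2⟩ := h
      exact (WrapC.v2 H.c4 (by omega) (by omega) (by omega) (by omega) (by omega) (by omega) (by omega)).mpr (by omega)
    · obtain ⟨⟨rfl, rfl, h1⟩, h2⟩ := h
      exact (WrapC.v0 H.c6b (by omega) (by omega) (by omega) (by omega) (by omega) (by omega) (by omega)).mpr (by omega)
    · obtain ⟨⟨rfl, rfl, h1⟩, h2⟩ := h
      exact (WrapC.v1 H.c6b (by omega) (by omega) (by omega) (by omega) (by omega) (by omega) (by omega) (by omega)).mpr (by omega)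
    · obtain ⟨⟨rfl, rfl, h1⟩, h2⟩ := h
      exact (WrapC.v2 H.c6b (by omega) (by omega) (by omega) (by omega) (by omega) (by omega) (by omega)).mpr (by omega)
    · obtain ⟨⟨rfl, rfl, h1⟩, h2⟩ := h
      exact (NW.w0v H.c8b (by omega) (by omega) (by omega) (by omega) (by omega) (by omega) (by omega)).mpr (by omega)
    · obtain ⟨rfl, rfl, rfl, rfl⟩ := h
      exact mv hg (by omega) (by omega) (by omega) (by omega)
  · intro j m p q hr h
    obtain ⟨-, -, hn1, hn2, hp1, hp2, hq1, hq2⟩ := hr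
    unfold p9_0_3F at h
    simp only [Bool.or_eq_true, decide_eq_true_eq] at h
    rcases h with h | h | h | h | h | h | h | h | h | h | h | h | h | h | h | h | h | h | h | h | h | h | h | h | h | h | h | h | h
    · obtain ⟨⟨rfl, rfl, h1⟩, h2⟩ := h
      exact mt (WrapC.v1 H.c0 (by omega) (by omega) (by omega) (by omega) (by omega) (by omega) (by omega) (by omega)).mp (by omega)
    · obtain ⟨⟨rfl, rfl, h1⟩, h2⟩ := h
      exact mt (WrapC.v2 H.c0 (by omega) (by omega) (by omega) (by omega) (by omega) (by omega) (by omega)).mp (by omega)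
    · obtain ⟨⟨rfl, rfl, h1⟩, h2⟩ := h
      exact mt (WrapC.v3 H.c2 (by omega) (by omega) (by omega) (by omega) (by omega) (by omega) (by omega) (by omega)).mp (by omega)
    · obtain ⟨⟨rfl, rfl, h1⟩, h2⟩ := h
      exact mt (WrapC.v0 H.c2b (by omega) (by omega) (by omega) (by omega) (by omega) (by omega) (by omega)).mp (by omega)
    · obtain ⟨⟨rfl, rfl, h1⟩, h2⟩ := h
      exact mt (WrapC.v1 H.c2b (by omega) (by omega) (by omega) (by omega) (by omega) (by omega) (by omega) (by omega)).mp (by omega)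
    · obtain ⟨⟨rfl, rfl, h1⟩, h2⟩ := h
      exact mt (WrapC.v1 H.c4 (by omega) (by omega) (by omega) (by omega) (by omega) (by omega) (by omega) (by omega)).mp (by omega)
    · obtain ⟨⟨rfl, rfl, h1⟩, h2⟩ := h
      exact mt (WrapC.v2 H.c4 (by omega) (by omega) (by omega) (by omega) (by omega) (by omega) (by omega)).mp (by omega)
    · obtain ⟨⟨rfl, rfl, h1⟩, h2⟩ := h
      exact mt (WrapC.v1 H.c6b (by omega) (by omega) (by omega) (by omega) (by omega) (by omega) (by omega) (by omega)).mp (by omega)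
    · obtain ⟨⟨rfl, rfl, h1⟩, h2⟩ := h
      exact mt (NW.w3v H.c8 (by omega) (by omega) (by omega) (by omega) (by omega) (by omega) (by omega) (by omega)).mp (by omega)
    · obtain ⟨rfl, rfl, h1⟩ := h
      exact NW.r1 hf H.T (j := 4) (p := 0) (by omega) (by omega) (by omega) (by omega) (by omega) (by omega) (by omega)
    · obtain ⟨rfl, rfl, h1⟩ := h
      exact NHT.p0 hf H.T (j := 3) (by omega) (by omega) (by omega) (by omega) (by omega) (by omega)
    · obtain ⟨rfl, rfl, h1⟩ := h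
      exact NHT.p0 hf H.T (j := 3) (by omega) (by omega) (by omega) (by omega) (by omega) (by omega)
    · obtain ⟨rfl, rfl, h1⟩ := h
      exact NW.r1 hf H.T (j := 4) (p := 1) (by omega) (by omega) (by omega) (by omega) (by omega) (by omega) (by omega)
    · obtain ⟨rfl, rfl, h1⟩ := h
      exact NHT.p2 hf H.T (j := 4) (by omega) (by omega) (by omega) (by omega) (by omega) (by omega)
    · obtain ⟨rfl, rfl, h1⟩ := h
      exact NW.r1 hf H.T (j := 3) (p := 0) (by omega) (by omega) (by omega) (by omega) (by omega) (by omega) (by omega)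
    · obtain ⟨rfl, rfl, h1⟩ := h
      exact NHT.p0 hf H.T (j := 2) (by omega) (by omega) (by omega) (by omega) (by omega) (by omega)
    · obtain ⟨rfl, rfl, h1⟩ := h
      exact NHT.p0 hf H.T (j := 2) (by omega) (by omega) (by omega) (by omega) (by omega) (by omega)
    · obtain ⟨rfl, rfl, h1⟩ := h
      exact NW.r1 hf H.T (j := 3) (p := 1) (by omega) (by omega) (by omega) (by omega) (by omega) (by omega) (by omega)
    · obtain ⟨rfl, rfl, h1⟩ := h
      exact NHT.p2 hf H.T (j := 3) (by omega) (by omega) (by omega) (by omega) (by omega) (by omega)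
    · obtain ⟨rfl, rfl, h1⟩ := h
      exact NW.r1 hf H.T (j := 2) (p := 0) (by omega) (by omega) (by omega) (by omega) (by omega) (by omega) (by omega)
    · obtain ⟨rfl, rfl, h1⟩ := h
      exact NHT.p0 hf H.T (j := 1) (by omega) (by omega) (by omega) (by omega) (by omega) (by omega)
    · obtain ⟨rfl, rfl, h1⟩ := h
      exact NHT.p0 hf H.T (j := 1) (by omega) (by omega) (by omega) (by omega) (by omega) (by omega)
    · obtain ⟨rfl, rfl, h1⟩ := h
      exact NW.r1 hf H.T (j := 2) (p := 1) (by omega) (by omega) (by omega) (by omega) (by omega) (by omega) (by omega)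
    · obtain ⟨rfl, rfl, h1⟩ := h
      exact NHT.p2 hf H.T (j := 2) (by omega) (by omega) (by omega) (by omega) (by omega) (by omega)
    · obtain ⟨rfl, rfl, h1⟩ := h
      exact NW.r1 hf H.T (j := 1) (p := 1) (by omega) (by omega) (by omega) (by omega) (by omega) (by omega) (by omega)
    · obtain ⟨rfl, rfl, h1⟩ := h
      exact NHT.p2 hf H.T (j := 1) (by omega) (by omega) (by omega) (by omega) (by omega) (by omega)
    · obtain ⟨rfl, rfl, rfl, h1⟩ := h
      exact U.u2 _ _ _ _ (by omega) (by omega) (by omega) (by omega) (by omega) (by omega)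
    · obtain ⟨rfl, rfl, rfl, h1⟩ := h
      exact U.u6 _ _ _ _ (by omega) (by omega) (by omega) (by omega) (by omega) (by omega)
    · obtain ⟨rfl, h1⟩ := h
      exact H.lw _ _ _ _ (by omega) (by omega) (by omega) (by omega) (by omega) (by omega)

end Pool.Agent.SNT.NB
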