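import Pool.Agent.SNT.NWB

set_option autoImplicit false

/-! The near-wall window p9_2_3 (helper33). -/

namespace Pool.Agent.SNT.NB

open Pool.Agent.SNT Pool.Agent.SNT.Loc Pool.Agent.SNT.LW Pool.Agent.SNT.NHZ Pool.Agent.SNT.NW

variable {f : ℕ → ℕ → ℕ → ℕ → Prop} {k c n : ℕ}

def p9_2_3T (j n p q : ℕ) : Bool :=
  decide (j = 1 ∧ n = 1 ∧ q ≤ p + 13 ∧ ((p > 0 ∧ p ≤ q) ∨ (p > 2)) ∧ (((p + q + 1) % 2 = 1 ∧ p < q + 3 ∧ (p) % 2 = 1) ∨ (q + 2 ≤ p ∧ (p + q + 2) % 4 = 2))) ||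
    (decide (j = 2 ∧ n = 1 ∧ p = 2 ∧ q = 2))

def p9_2_3F (j n p q : ℕ) : Bool :=
  false

theorem p9_2_3_chk : check 2 3 4 4 1 1 0 1 0 p9_2_3T p9_2_3F
    4
    0x3d05002280003d0f00228f = true := by
  decide +kernel

theorem p9_2_3 (hf : Rule f) (H : NWJ f k c n) (U : Pur f k c n) :
    ¬ f (6 * k + 9) (c + 2) (2 * n + 2 * k + 2) (2 * n + 3) := by
  by_contra hg
  have hk := H.T.hk
  have hc := H.T.hc
  have h4 := H.T.h4
  have hb := H.T.hb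
  have hN2 := H.T.hN2
  obtain ⟨a0, ha0⟩ : ∃ a0, a0 = 6 * k + 7 := ⟨6 * k + 7, by omega⟩
  obtain ⟨b0, hb0⟩ : ∃ b0, b0 = c + 1 := ⟨c + 1, by omega⟩
  obtain ⟨x0, hx0⟩ : ∃ x0, x0 + 0 = 2 * n + 2 * k := ⟨2 * n + 2 * k - 0, by omega⟩
  obtain ⟨y0, hy0⟩ : ∃ y0, y0 = 2 * n + 1 := ⟨2 * n + 1, by omega⟩
  refine check_sound hf (a0 := a0) (b0 := b0) (x0 := x0) (y0 := y0) p9_2_3_chk
    ⟨fun h => absurd h (by decide), fun h => absurd h (by decide), fun h => absurd h (by decide),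
      by omega, by omega, by omega, by omega⟩ ?_ ?_
  · intro j m p q hr h
    obtain ⟨-, -, hn1, hn2, hp1, hp2, hq1, hq2⟩ := hr
    unfold p9_2_3T at h
    simp only [Bool.or_eq_true, decide_eq_true_eq] at h
    rcases h with h | h
    · obtain ⟨⟨rfl, rfl, h1⟩, h2⟩ := h
      exact (NW.w0v H.c8b (by omega) (by omega) (by omega) (by omega) (by omega) (by omega) (by omega)).mpr (by omega)
    · obtain ⟨rfl, rfl, rfl, rfl⟩ := h
      exact mv hg (by omega) (by omega) (by omega) (by omega)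
  · intro j m p q hr h
    exact absurd h (by simp [p9_2_3F])

end Pool.Agent.SNT.NB
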