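import Pool.Agent.SNT.NB_sr4_m4_1
import Pool.Agent.SNT.NB_sr4_m4_0
import Pool.Agent.SNT.NB_sr8_m3_1
import Pool.Agent.SNT.NB_p9_m4_3
import Pool.Agent.SNT.NB_p9_m2_3
import Pool.Agent.SNT.NB_p9_0_3
import Pool.Agent.SNT.NB_p9_2_3
import Pool.Agent.SNT.NB_p7_m6_3
import Pool.Agent.SNT.NB_p7_m5_2

set_option autoImplicit false

/-! The near-wall facts of the layers `6 k + 4`, `6 k + 7`, `6 k + 8`, `6 k + 9` in the OUT row of the top
leader, in the form used by the line arguments, from the weaker leads `NWJ` (helper33). -/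

namespace Pool.Agent.SNT.NB

open Pool.Agent.SNT Pool.Agent.SNT.LW Pool.Agent.SNT.NHZ Pool.Agent.SNT.NW

variable {f : ℕ → ℕ → ℕ → ℕ → Prop} {k c n i : ℕ}

theorem w1 (hf : Rule f) (H : NWJ f k c n) (U : Pur f k c n) : Sig.sr f (6 * k + 4) (c + 2) (n + k - 4) (n + 1) := by
  have hN2 := H.T.hN2
  have hk := H.T.hk
  unfold Sig.sr Sig.bY Sig.bO
  rcases sr4_m4_1 hf H U with h | h
  · exact Or.inl (mv h rfl rfl (by omega) (by omega))
  · exact Or.inr (mv h rfl rfl (by omega) (by omega))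

theorem w0 (hf : Rule f) (H : NWJ f k c n) (U : Pur f k c n) : Sig.sr f (6 * k + 4) (c + 2) (n + k - 4) n := by
  have hN2 := H.T.hN2
  have hk := H.T.hk
  unfold Sig.sr Sig.bY Sig.bO
  rcases sr4_m4_0 hf H U with h | h
  · exact Or.inl (mv h rfl rfl (by omega) (by omega))
  · exact Or.inr (mv h rfl rfl (by omega) (by omega))

theorem w8 (hf : Rule f) (H : NWJ f k c n) (U : Pur f k c n) : Sig.sr f (6 * k + 8) (c + 2) (n + k - 3) (n + 1) := by
  have hN2 := H.T.hN2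
  have hk := H.T.hk
  unfold Sig.sr Sig.bY Sig.bO
  rcases sr8_m3_1 hf H U with h | h
  · exact Or.inl (mv h rfl rfl (by omega) (by omega))
  · exact Or.inr (mv h rfl rfl (by omega) (by omega))

theorem w7 (hf : Rule f) (H : NWJ f k c n) (U : Pur f k c n) : ¬ f (6 * k + 7) (c + 2) (2 * n + 2 * k - 6) (2 * n + 3) :=
  p7_m6_3 hf H U

theorem w9 (hf : Rule f) (H : NWJ f k c n) (U : Pur f k c n) :
    ∀ j : ℕ, j ≤ 2 → ¬ f (6 * k + 9) (c + 2) (2 * n + 2 * k - 2 + 2 * j) (2 * n + 3) := by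
  have hN2 := H.T.hN2
  have hk := H.T.hk
  intro j hj h
  rcases (show j = 0 ∨ j = 1 ∨ j = 2 by omega) with h3 | h3 | h3
  · exact p9_m2_3 hf H U (mv h rfl rfl (by omega) rfl)
  · exact p9_0_3 hf H U (mv h rfl rfl (by omega) rfl)
  · exact p9_2_3 hf H U (mv h rfl rfl (by omega) rfl)

end Pool.Agent.SNT.NB
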