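import Pool.Agent.SNT.PB

set_option autoImplicit false
set_option synthInstance.maxSize 100000
set_option synthInstance.maxHeartbeats 4000000

/-! The column `2 n + 1` of the layer `6 k + 2` in the row `c`: the run from the wall to the diagonal if the column
`2 n + 3` is empty and the column `2 n + 5` is full. -/

namespace Pool.Agent.SNT.PB

open Pool.Agent.SNT Pool.Agent.SNT.Sig Pool.Agent.SNT.Loc Pool.Agent.SNT.LW Pool.Agent.SNT.NHZ Pool.Agent.SNT.DRun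

variable {f : ℕ → ℕ → ℕ → ℕ → Prop}

theorem r1_mid_chk : check 5 4 9 7 0 0 0 1 0
    (fun j n p q => decide ((j = 4 ∧ n = 2 ∧ p = 3 ∧ q = 1) ∨
      (j = 4 ∧ n = 2 ∧ p = 7 ∧ q = 3) ∨
      (j = 4 ∧ n = 2 ∧ p = 7 ∧ q = 5)))
    (fun j n p q => decide ((j = 1 ∧ n = 1 ∧ p = 1 ∧ q = 1) ∨
      (j = 1 ∧ n = 1 ∧ p = 1 ∧ q = 2) ∨
      (j = 1 ∧ n = 1 ∧ p = 2 ∧ q = 1) ∨
      (j = 1 ∧ n = 1 ∧ p = 2 ∧ q = 2) ∨
      (j = 1 ∧ n = 1 ∧ p = 2 ∧ q = 3) ∨
      (j = 1 ∧ n = 1 ∧ p = 3 ∧ q = 1) ∨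
      (j = 1 ∧ n = 1 ∧ p = 3 ∧ q = 2) ∨
      (j = 1 ∧ n = 1 ∧ p = 3 ∧ q = 3) ∨
      (j = 1 ∧ n = 2 ∧ p = 1 ∧ q = 1) ∨
      (j = 1 ∧ n = 2 ∧ p = 1 ∧ q = 2) ∨
      (j = 1 ∧ n = 2 ∧ p = 2 ∧ q = 1) ∨
      (j = 1 ∧ n = 2 ∧ p = 2 ∧ q = 2) ∨
      (j = 1 ∧ n = 2 ∧ p = 2 ∧ q = 3) ∨
      (j = 1 ∧ n = 2 ∧ p = 3 ∧ q = 1) ∨
      (j = 1 ∧ n = 2 ∧ p = 3 ∧ q = 2) ∨
      (j = 1 ∧ n = 2 ∧ p = 3 ∧ q = 3) ∨
      (j = 3 ∧ n = 1 ∧ p = 2 ∧ q = 2) ∨
      (j = 3 ∧ n = 1 ∧ p = 3 ∧ q = 2) ∨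
      (j = 3 ∧ n = 1 ∧ p = 3 ∧ q = 3) ∨
      (j = 3 ∧ n = 1 ∧ p = 3 ∧ q = 4) ∨
      (j = 3 ∧ n = 1 ∧ p = 5 ∧ q = 3) ∨
      (j = 3 ∧ n = 1 ∧ p = 5 ∧ q = 4) ∨
      (j = 3 ∧ n = 2 ∧ p = 5 ∧ q = 3) ∨
      (j = 3 ∧ n = 2 ∧ p = 5 ∧ q = 4) ∨
      (j = 4 ∧ n = 1 ∧ p = 3 ∧ q = 2) ∨
      (j = 4 ∧ n = 1 ∧ p = 3 ∧ q = 3) ∨
      (j = 4 ∧ n = 1 ∧ p = 3 ∧ q = 4) ∨
      (j = 4 ∧ n = 1 ∧ p = 4 ∧ q = 2) ∨
      (j = 4 ∧ n = 1 ∧ p = 5 ∧ q = 3) ∨
      (j = 4 ∧ n = 1 ∧ p = 5 ∧ q = 4) ∨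
      (j = 4 ∧ n = 2 ∧ p = 3 ∧ q = 3) ∨
      (j = 4 ∧ n = 2 ∧ p = 5 ∧ q = 3) ∨
      (j = 5 ∧ n = 1 ∧ p = 3 ∧ q = 2) ∨
      (j = 5 ∧ n = 1 ∧ p = 3 ∧ q = 3) ∨
      (j = 5 ∧ n = 1 ∧ p = 4 ∧ q = 2) ∨
      (j = 5 ∧ n = 1 ∧ p = 4 ∧ q = 3) ∨
      (j = 5 ∧ n = 2 ∧ p = 4 ∧ q = 3)))
    68
    0x1430301c10002435a01c58002475201430301c10002435a02438002438401470301c50001c50401468301c48001c48402c10002c492024a80024e1202520002510002420002c48702a50702a48702a18702a10702520f02510f024d87024a0702468702430702420f023f87022b07022a8702268702240702238702230701cc8701cc0701ad0701ac8701a60701a58701a50701a18701438701428700c90700c88700c80700c58700c50700c48700c18700c10700a98700a90700a88700a60700a58700a50700a20700a187 = true := by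
  decide +kernel

theorem r1_mid (hf : Rule f) {k c n y : ℕ} (H : PB f k c n) (hy : y % 2 = 0) (g1 : y + 8 ≤ 2 * n + 1)
    (g2 : 2 * n + 1 + 6 ≤ y + 2 * k) (h0 : f (6 * k + 2) c (2 * n + 1) y) (hg : ¬ f (6 * k + 2) c (2 * n + 1) (y + 2))
    (h3 : ¬ f (6 * k + 2) c (2 * n + 3) (y + 2)) (h5 : f (6 * k + 2) c (2 * n + 5) (y + 2))
    (h5b : f (6 * k + 2) c (2 * n + 5) (y + 4)) : False := by
  have hk := H.T.hk
  have hc := H.T.hc
  have h4' := H.T.h4
  have hb := H.T.hb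
  have hN := H.T.hN2
  obtain ⟨a0, ha0⟩ : ∃ z, z + 2 = 6 * k := ⟨6 * k - 2, by omega⟩
  obtain ⟨b0, hb0⟩ : ∃ z, z + 2 = c := ⟨c - 2, by omega⟩
  obtain ⟨x0, hx0⟩ : ∃ z, z + 2 = 2 * n := ⟨2 * n - 2, by omega⟩
  obtain ⟨y0, hy0⟩ : ∃ z, z + 1 = y := ⟨y - 1, by omega⟩
  refine check_sound hf (a0 := a0) (b0 := b0) (x0 := x0) (y0 := y0) r1_mid_chk
    ⟨fun h => absurd h (by decide), fun h => absurd h (by decide), fun h => absurd h (by decide), by omega, by omega,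
      by omega, by omega⟩ ?_ ?_
  · intro j m p q hr h
    replace h := of_decide_eq_true h
    clear hr
    rcases h with h | h | h
    · obtain ⟨rfl, rfl, rfl, rfl⟩ := h
      exact mv h0 (by omega) (by omega) (by omega) (by omega)
    · obtain ⟨rfl, rfl, rfl, rfl⟩ := h
      exact mv h5 (by omega) (by omega) (by omega) (by omega)
    · obtain ⟨rfl, rfl, rfl, rfl⟩ := h
      exact mv h5b (by omega) (by omega) (by omega) (by omega)
  · intro j m p q hr h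
    replace h := of_decide_eq_true h
    clear hr
    rcases h with h | h | h | h | h | h | h | h | h | h | h | h | h | h | h | h | h | h | h | h | h | h | h | h | h | h | h | h | h | h | h | h | h | h | h | h | h
    · obtain ⟨rfl, rfl, rfl, rfl⟩ := h
      exact H.lw _ _ _ _ (by omega) (by omega) (by omega) (by omega) (by omega) (by omega)
    · obtain ⟨rfl, rfl, rfl, rfl⟩ := h
      exact H.lw _ _ _ _ (by omega) (by omega) (by omega) (by omega) (by omega) (by omega)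
    · obtain ⟨rfl, rfl, rfl, rfl⟩ := h
      exact H.lw _ _ _ _ (by omega) (by omega) (by omega) (by omega) (by omega) (by omega)
    · obtain ⟨rfl, rfl, rfl, rfl⟩ := h
      exact H.lw _ _ _ _ (by omega) (by omega) (by omega) (by omega) (by omega) (by omega)
    · obtain ⟨rfl, rfl, rfl, rfl⟩ := h
      exact H.lw _ _ _ _ (by omega) (by omega) (by omega) (by omega) (by omega) (by omega)
    · obtain ⟨rfl, rfl, rfl, rfl⟩ := h
      exact H.lw _ _ _ _ (by omega) (by omega) (by omega) (by omega) (by omega) (by omega)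
    · obtain ⟨rfl, rfl, rfl, rfl⟩ := h
      exact H.lw _ _ _ _ (by omega) (by omega) (by omega) (by omega) (by omega) (by omega)
    · obtain ⟨rfl, rfl, rfl, rfl⟩ := h
      exact H.lw _ _ _ _ (by omega) (by omega) (by omega) (by omega) (by omega) (by omega)
    · obtain ⟨rfl, rfl, rfl, rfl⟩ := h
      exact H.lw _ _ _ _ (by omega) (by omega) (by omega) (by omega) (by omega) (by omega)
    · obtain ⟨rfl, rfl, rfl, rfl⟩ := h
      exact H.lw _ _ _ _ (by omega) (by omega) (by omega) (by omega) (by omega) (by omega)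
    · obtain ⟨rfl, rfl, rfl, rfl⟩ := h
      exact H.lw _ _ _ _ (by omega) (by omega) (by omega) (by omega) (by omega) (by omega)
    · obtain ⟨rfl, rfl, rfl, rfl⟩ := h
      exact H.lw _ _ _ _ (by omega) (by omega) (by omega) (by omega) (by omega) (by omega)
    · obtain ⟨rfl, rfl, rfl, rfl⟩ := h
      exact H.lw _ _ _ _ (by omega) (by omega) (by omega) (by omega) (by omega) (by omega)
    · obtain ⟨rfl, rfl, rfl, rfl⟩ := h
      exact H.lw _ _ _ _ (by omega) (by omega) (by omega) (by omega) (by omega) (by omega)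
    · obtain ⟨rfl, rfl, rfl, rfl⟩ := h
      exact H.lw _ _ _ _ (by omega) (by omega) (by omega) (by omega) (by omega) (by omega)
    · obtain ⟨rfl, rfl, rfl, rfl⟩ := h
      exact H.lw _ _ _ _ (by omega) (by omega) (by omega) (by omega) (by omega) (by omega)
    · obtain ⟨rfl, rfl, rfl, rfl⟩ := h
      exact fun t => NHT.rm1i hf H.T (p := 1) (j := 4) (by omega) (by omega) (by omega) (by omega) (by omega) (by omega) (mv t rfl (by omega) rfl rfl)
    · obtain ⟨rfl, rfl, rfl, rfl⟩ := h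
      exact fun t => NHT.rm1i hf H.T (p := 1) (j := 4) (by omega) (by omega) (by omega) (by omega) (by omega) (by omega) (mv t rfl (by omega) rfl rfl)
    · obtain ⟨rfl, rfl, rfl, rfl⟩ := h
      exact fun t => NHT.rm1i hf H.T (p := 1) (j := 4) (by omega) (by omega) (by omega) (by omega) (by omega) (by omega) (mv t rfl (by omega) rfl rfl)
    · obtain ⟨rfl, rfl, rfl, rfl⟩ := h
      exact fun t => NHT.rm1i hf H.T (p := 1) (j := 4) (by omega) (by omega) (by omega) (by omega) (by omega) (by omega) (mv t rfl (by omega) rfl rfl)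
    · obtain ⟨rfl, rfl, rfl, rfl⟩ := h
      exact fun t => NHT.rm1i hf H.T (p := 1) (j := 4) (by omega) (by omega) (by omega) (by omega) (by omega) (by omega) (mv t rfl (by omega) rfl rfl)
    · obtain ⟨rfl, rfl, rfl, rfl⟩ := h
      exact fun t => NHT.rm1i hf H.T (p := 1) (j := 4) (by omega) (by omega) (by omega) (by omega) (by omega) (by omega) (mv t rfl (by omega) rfl rfl)
    · obtain ⟨rfl, rfl, rfl, rfl⟩ := h
      exact NHT.p0i hf H.T (j := 4) (by omega) (by omega) (by omega) (by omega) (by omega) (by omega)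
    · obtain ⟨rfl, rfl, rfl, rfl⟩ := h
      exact NHT.p0i hf H.T (j := 4) (by omega) (by omega) (by omega) (by omega) (by omega) (by omega)
    · obtain ⟨rfl, rfl, rfl, rfl⟩ := h
      exact fun t => NHT.rm1i hf H.T (p := 0) (j := 3) (by omega) (by omega) (by omega) (by omega) (by omega) (by omega) (mv t rfl (by omega) rfl rfl)
    · obtain ⟨rfl, rfl, rfl, rfl⟩ := h
      exact fun t => NHT.rm1i hf H.T (p := 0) (j := 3) (by omega) (by omega) (by omega) (by omega) (by omega) (by omega) (mv t rfl (by omega) rfl rfl)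
    · obtain ⟨rfl, rfl, rfl, rfl⟩ := h
      exact fun t => NHT.rm1i hf H.T (p := 0) (j := 3) (by omega) (by omega) (by omega) (by omega) (by omega) (by omega) (mv t rfl (by omega) rfl rfl)
    · obtain ⟨rfl, rfl, rfl, rfl⟩ := h
      exact fun t => NHT.rm1i hf H.T (p := 0) (j := 3) (by omega) (by omega) (by omega) (by omega) (by omega) (by omega) (mv t rfl (by omega) rfl rfl)
    · obtain ⟨rfl, rfl, rfl, rfl⟩ := h
      exact fun t => NHT.rm1i hf H.T (p := 0) (j := 3) (by omega) (by omega) (by omega) (by omega) (by omega) (by omega) (mv t rfl (by omega) rfl rfl)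
    · obtain ⟨rfl, rfl, rfl, rfl⟩ := h
      exact fun t => NHT.rm1i hf H.T (p := 0) (j := 3) (by omega) (by omega) (by omega) (by omega) (by omega) (by omega) (mv t rfl (by omega) rfl rfl)
    · obtain ⟨rfl, rfl, rfl, rfl⟩ := h
      exact fun t => hg (mv t (by omega) (by omega) (by omega) (by omega))
    · obtain ⟨rfl, rfl, rfl, rfl⟩ := h
      exact fun t => h3 (mv t (by omega) (by omega) (by omega) (by omega))
    · obtain ⟨rfl, rfl, rfl, rfl⟩ := h
      exact fun t => NHT.rm1i hf H.T (p := 1) (j := 3) (by omega) (by omega) (by omega) (by omega) (by omega) (by omega) (mv t rfl (by omega) rfl rfl)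
    · obtain ⟨rfl, rfl, rfl, rfl⟩ := h
      exact fun t => NHT.rm1i hf H.T (p := 1) (j := 3) (by omega) (by omega) (by omega) (by omega) (by omega) (by omega) (mv t rfl (by omega) rfl rfl)
    · obtain ⟨rfl, rfl, rfl, rfl⟩ := h
      exact fun t => NHT.rm1i hf H.T (p := 1) (j := 3) (by omega) (by omega) (by omega) (by omega) (by omega) (by omega) (mv t rfl (by omega) rfl rfl)
    · obtain ⟨rfl, rfl, rfl, rfl⟩ := h
      exact fun t => NHT.rm1i hf H.T (p := 1) (j := 3) (by omega) (by omega) (by omega) (by omega) (by omega) (by omega) (mv t rfl (by omega) rfl rfl)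
    · obtain ⟨rfl, rfl, rfl, rfl⟩ := h
      exact NHT.p0i hf H.T (j := 3) (by omega) (by omega) (by omega) (by omega) (by omega) (by omega)

theorem r1_wall_chk : check 5 4 9 7 0 0 0 1 0
    (fun j n p q => decide ((j = 4 ∧ n = 2 ∧ p = 3 ∧ q = 1) ∨
      (j = 4 ∧ n = 2 ∧ p = 7 ∧ q = 5)))
    (fun j n p q => decide ((j = 1 ∧ n = 1 ∧ p = 1 ∧ q = 1) ∨
      (j = 1 ∧ n = 1 ∧ p = 1 ∧ q = 2) ∨
      (j = 1 ∧ n = 1 ∧ p = 2 ∧ q = 1) ∨
      (j = 1 ∧ n = 1 ∧ p = 2 ∧ q = 2) ∨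
      (j = 1 ∧ n = 1 ∧ p = 2 ∧ q = 3) ∨
      (j = 1 ∧ n = 1 ∧ p = 3 ∧ q = 1) ∨
      (j = 1 ∧ n = 1 ∧ p = 3 ∧ q = 2) ∨
      (j = 1 ∧ n = 1 ∧ p = 3 ∧ q = 3) ∨
      (j = 1 ∧ n = 2 ∧ p = 1 ∧ q = 1) ∨
      (j = 1 ∧ n = 2 ∧ p = 1 ∧ q = 2) ∨
      (j = 1 ∧ n = 2 ∧ p = 2 ∧ q = 1) ∨
      (j = 1 ∧ n = 2 ∧ p = 2 ∧ q = 2) ∨
      (j = 1 ∧ n = 2 ∧ p = 2 ∧ q = 3) ∨
      (j = 1 ∧ n = 2 ∧ p = 3 ∧ q = 1) ∨
      (j = 1 ∧ n = 2 ∧ p = 3 ∧ q = 2) ∨
      (j = 1 ∧ n = 2 ∧ p = 3 ∧ q = 3) ∨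
      (j = 3 ∧ n = 1 ∧ p = 2 ∧ q = 2) ∨
      (j = 3 ∧ n = 1 ∧ p = 3 ∧ q = 2) ∨
      (j = 3 ∧ n = 1 ∧ p = 3 ∧ q = 3) ∨
      (j = 3 ∧ n = 1 ∧ p = 3 ∧ q = 4) ∨
      (j = 4 ∧ n = 1 ∧ p = 3 ∧ q = 2) ∨
      (j = 4 ∧ n = 1 ∧ p = 3 ∧ q = 3) ∨
      (j = 4 ∧ n = 1 ∧ p = 3 ∧ q = 4) ∨
      (j = 4 ∧ n = 1 ∧ p = 4 ∧ q = 2) ∨
      (j = 4 ∧ n = 1 ∧ p = 5 ∧ q = 4) ∨
      (j = 4 ∧ n = 1 ∧ p = 5 ∧ q = 5) ∨
      (j = 4 ∧ n = 2 ∧ p = 3 ∧ q = 3) ∨
      (j = 4 ∧ n = 2 ∧ p = 5 ∧ q = 5) ∨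
      (j = 5 ∧ n = 1 ∧ p = 3 ∧ q = 2) ∨
      (j = 5 ∧ n = 1 ∧ p = 3 ∧ q = 3) ∨
      (j = 5 ∧ n = 1 ∧ p = 4 ∧ q = 2) ∨
      (j = 5 ∧ n = 1 ∧ p = 4 ∧ q = 3) ∨
      (j = 5 ∧ n = 1 ∧ p = 5 ∧ q = 4) ∨
      (j = 5 ∧ n = 1 ∧ p = 5 ∧ q = 5) ∨
      (j = 5 ∧ n = 1 ∧ p = 6 ∧ q = 4) ∨
      (j = 5 ∧ n = 1 ∧ p = 6 ∧ q = 5) ∨
      (j = 5 ∧ n = 2 ∧ p = 4 ∧ q = 3) ∨
      (j = 5 ∧ n = 2 ∧ p = 5 ∧ q = 4) ∨
      (j = 5 ∧ n = 2 ∧ p = 5 ∧ q = 5) ∨
      (j = 5 ∧ n = 2 ∧ p = 6 ∧ q = 4) ∨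
      (j = 5 ∧ n = 2 ∧ p = 6 ∧ q = 5)))
    70
    0x1430301c10002435a01c58002475201430301c10002435a02438002438401470301c50001c50401468301c48001c48402c10002c492024a8002ccda02520002420002cc8702cc0702c90702c88702c48702ad0702ac8702a98702a90702a50702a48702a18702a10702520f024e87024b0702468702430702420f023f87022b87022b0702268702240702238702230701a60701a58701a50701a18701438701428700c90700c88700c80700c58700c50700c48700c18700c10700a98700a90700a88700a60700a58700a50700a20700a187 = true := by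
  decide +kernel

theorem r1_wall (hf : Rule f) {k c n y : ℕ} (H : PB f k c n) (hy : y + 2 * k = 2 * n + 6)
    (h0 : f (6 * k + 2) c (2 * n + 1) y) (hg : ¬ f (6 * k + 2) c (2 * n + 1) (y + 2))
    (h3 : ∀ {M R u v : ℕ}, M = 6 * k + 2 → R = c → u = 2 * n + 3 → (v % 2 = 0 ∧ 2 * n + 8 ≤ v + 2 * k ∧ v ≤ y + 8) → ¬ f M R u v)
    (h5 : ∀ {M R u v : ℕ}, M = 6 * k + 2 → R = c → u = 2 * n + 5 → (v % 2 = 0 ∧ 2 * n + 10 ≤ v + 2 * k ∧ v ≤ y + 8) → f M R u v) :
    False := by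
  have hk := H.T.hk
  have hc := H.T.hc
  have h4' := H.T.h4
  have hb := H.T.hb
  have hN := H.T.hN2
  obtain ⟨a0, ha0⟩ : ∃ z, z + 2 = 6 * k := ⟨6 * k - 2, by omega⟩
  obtain ⟨b0, hb0⟩ : ∃ z, z + 2 = c := ⟨c - 2, by omega⟩
  obtain ⟨x0, hx0⟩ : ∃ z, z + 3 = 2 * n + 1 := ⟨2 * n + 1 - 3, by omega⟩
  obtain ⟨y0, hy0⟩ : ∃ z, z + 1 = y := ⟨y - 1, by omega⟩
  refine check_sound hf (a0 := a0) (b0 := b0) (x0 := x0) (y0 := y0) r1_wall_chk
    ⟨fun h => absurd h (by decide), fun h => absurd h (by decide), fun h => absurd h (by decide), by omega, by omega,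
      by omega, by omega⟩ ?_ ?_
  · intro j m p q hr h
    replace h := of_decide_eq_true h
    clear hr
    rcases h with h | h
    · obtain ⟨rfl, rfl, rfl, rfl⟩ := h
      exact mv h0 (by omega) (by omega) (by omega) (by omega)
    · obtain ⟨rfl, rfl, rfl, rfl⟩ := h
      exact h5 (by omega) (by omega) (by omega) (by omega)
  · intro j m p q hr h
    replace h := of_decide_eq_true h
    clear hr
    rcases h with h | h | h | h | h | h | h | h | h | h | h | h | h | h | h | h | h | h | h | h | h | h | h | h | h | h | h | h | h | h | h | h | h | h | h | h | h | h | h | h | h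
    · obtain ⟨rfl, rfl, rfl, rfl⟩ := h
      exact H.lw _ _ _ _ (by omega) (by omega) (by omega) (by omega) (by omega) (by omega)
    · obtain ⟨rfl, rfl, rfl, rfl⟩ := h
      exact H.lw _ _ _ _ (by omega) (by omega) (by omega) (by omega) (by omega) (by omega)
    · obtain ⟨rfl, rfl, rfl, rfl⟩ := h
      exact H.lw _ _ _ _ (by omega) (by omega) (by omega) (by omega) (by omega) (by omega)
    · obtain ⟨rfl, rfl, rfl, rfl⟩ := h
      exact H.lw _ _ _ _ (by omega) (by omega) (by omega) (by omega) (by omega) (by omega)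
    · obtain ⟨rfl, rfl, rfl, rfl⟩ := h
      exact H.lw _ _ _ _ (by omega) (by omega) (by omega) (by omega) (by omega) (by omega)
    · obtain ⟨rfl, rfl, rfl, rfl⟩ := h
      exact H.lw _ _ _ _ (by omega) (by omega) (by omega) (by omega) (by omega) (by omega)
    · obtain ⟨rfl, rfl, rfl, rfl⟩ := h
      exact H.lw _ _ _ _ (by omega) (by omega) (by omega) (by omega) (by omega) (by omega)
    · obtain ⟨rfl, rfl, rfl, rfl⟩ := h
      exact H.lw _ _ _ _ (by omega) (by omega) (by omega) (by omega) (by omega) (by omega)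
    · obtain ⟨rfl, rfl, rfl, rfl⟩ := h
      exact H.lw _ _ _ _ (by omega) (by omega) (by omega) (by omega) (by omega) (by omega)
    · obtain ⟨rfl, rfl, rfl, rfl⟩ := h
      exact H.lw _ _ _ _ (by omega) (by omega) (by omega) (by omega) (by omega) (by omega)
    · obtain ⟨rfl, rfl, rfl, rfl⟩ := h
      exact H.lw _ _ _ _ (by omega) (by omega) (by omega) (by omega) (by omega) (by omega)
    · obtain ⟨rfl, rfl, rfl, rfl⟩ := h
      exact H.lw _ _ _ _ (by omega) (by omega) (by omega) (by omega) (by omega) (by omega)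
    · obtain ⟨rfl, rfl, rfl, rfl⟩ := h
      exact H.lw _ _ _ _ (by omega) (by omega) (by omega) (by omega) (by omega) (by omega)
    · obtain ⟨rfl, rfl, rfl, rfl⟩ := h
      exact H.lw _ _ _ _ (by omega) (by omega) (by omega) (by omega) (by omega) (by omega)
    · obtain ⟨rfl, rfl, rfl, rfl⟩ := h
      exact H.lw _ _ _ _ (by omega) (by omega) (by omega) (by omega) (by omega) (by omega)
    · obtain ⟨rfl, rfl, rfl, rfl⟩ := h
      exact H.lw _ _ _ _ (by omega) (by omega) (by omega) (by omega) (by omega) (by omega)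
    · obtain ⟨rfl, rfl, rfl, rfl⟩ := h
      exact fun t => NHT.rm1i hf H.T (p := 1) (j := 4) (by omega) (by omega) (by omega) (by omega) (by omega) (by omega) (mv t rfl (by omega) rfl rfl)
    · obtain ⟨rfl, rfl, rfl, rfl⟩ := h
      exact fun t => NHT.rm1i hf H.T (p := 1) (j := 4) (by omega) (by omega) (by omega) (by omega) (by omega) (by omega) (mv t rfl (by omega) rfl rfl)
    · obtain ⟨rfl, rfl, rfl, rfl⟩ := h
      exact fun t => NHT.rm1i hf H.T (p := 1) (j := 4) (by omega) (by omega) (by omega) (by omega) (by omega) (by omega) (mv t rfl (by omega) rfl rfl)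
    · obtain ⟨rfl, rfl, rfl, rfl⟩ := h
      exact fun t => NHT.rm1i hf H.T (p := 1) (j := 4) (by omega) (by omega) (by omega) (by omega) (by omega) (by omega) (mv t rfl (by omega) rfl rfl)
    · obtain ⟨rfl, rfl, rfl, rfl⟩ := h
      exact fun t => NHT.rm1i hf H.T (p := 0) (j := 3) (by omega) (by omega) (by omega) (by omega) (by omega) (by omega) (mv t rfl (by omega) rfl rfl)
    · obtain ⟨rfl, rfl, rfl, rfl⟩ := h
      exact fun t => NHT.rm1i hf H.T (p := 0) (j := 3) (by omega) (by omega) (by omega) (by omega) (by omega) (by omega) (mv t rfl (by omega) rfl rfl)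
    · obtain ⟨rfl, rfl, rfl, rfl⟩ := h
      exact fun t => NHT.rm1i hf H.T (p := 0) (j := 3) (by omega) (by omega) (by omega) (by omega) (by omega) (by omega) (mv t rfl (by omega) rfl rfl)
    · obtain ⟨rfl, rfl, rfl, rfl⟩ := h
      exact fun t => NHT.rm1i hf H.T (p := 0) (j := 3) (by omega) (by omega) (by omega) (by omega) (by omega) (by omega) (mv t rfl (by omega) rfl rfl)
    · obtain ⟨rfl, rfl, rfl, rfl⟩ := h
      exact fun t => NHT.rm1i hf H.T (p := 0) (j := 3) (by omega) (by omega) (by omega) (by omega) (by omega) (by omega) (mv t rfl (by omega) rfl rfl)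
    · obtain ⟨rfl, rfl, rfl, rfl⟩ := h
      exact fun t => NHT.rm1i hf H.T (p := 0) (j := 3) (by omega) (by omega) (by omega) (by omega) (by omega) (by omega) (mv t rfl (by omega) rfl rfl)
    · obtain ⟨rfl, rfl, rfl, rfl⟩ := h
      exact fun t => hg (mv t (by omega) (by omega) (by omega) (by omega))
    · obtain ⟨rfl, rfl, rfl, rfl⟩ := h
      exact h3 (by omega) (by omega) (by omega) (by omega)
    · obtain ⟨rfl, rfl, rfl, rfl⟩ := h
      exact fun t => NHT.rm1i hf H.T (p := 1) (j := 3) (by omega) (by omega) (by omega) (by omega) (by omega) (by omega) (mv t rfl (by omega) rfl rfl)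
    · obtain ⟨rfl, rfl, rfl, rfl⟩ := h
      exact fun t => NHT.rm1i hf H.T (p := 1) (j := 3) (by omega) (by omega) (by omega) (by omega) (by omega) (by omega) (mv t rfl (by omega) rfl rfl)
    · obtain ⟨rfl, rfl, rfl, rfl⟩ := h
      exact fun t => NHT.rm1i hf H.T (p := 1) (j := 3) (by omega) (by omega) (by omega) (by omega) (by omega) (by omega) (mv t rfl (by omega) rfl rfl)
    · obtain ⟨rfl, rfl, rfl, rfl⟩ := h
      exact fun t => NHT.rm1i hf H.T (p := 1) (j := 3) (by omega) (by omega) (by omega) (by omega) (by omega) (by omega) (mv t rfl (by omega) rfl rfl)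
    · obtain ⟨rfl, rfl, rfl, rfl⟩ := h
      exact fun t => NHT.rm1i hf H.T (p := 1) (j := 3) (by omega) (by omega) (by omega) (by omega) (by omega) (by omega) (mv t rfl (by omega) rfl rfl)
    · obtain ⟨rfl, rfl, rfl, rfl⟩ := h
      exact fun t => NHT.rm1i hf H.T (p := 1) (j := 3) (by omega) (by omega) (by omega) (by omega) (by omega) (by omega) (mv t rfl (by omega) rfl rfl)
    · obtain ⟨rfl, rfl, rfl, rfl⟩ := h
      exact fun t => NHT.rm1i hf H.T (p := 1) (j := 3) (by omega) (by omega) (by omega) (by omega) (by omega) (by omega) (mv t rfl (by omega) rfl rfl)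
    · obtain ⟨rfl, rfl, rfl, rfl⟩ := h
      exact fun t => NHT.rm1i hf H.T (p := 1) (j := 3) (by omega) (by omega) (by omega) (by omega) (by omega) (by omega) (mv t rfl (by omega) rfl rfl)
    · obtain ⟨rfl, rfl, rfl, rfl⟩ := h
      exact NHT.p0i hf H.T (j := 3) (by omega) (by omega) (by omega) (by omega) (by omega) (by omega)
    · obtain ⟨rfl, rfl, rfl, rfl⟩ := h
      exact NHT.p0i hf H.T (j := 3) (by omega) (by omega) (by omega) (by omega) (by omega) (by omega)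
    · obtain ⟨rfl, rfl, rfl, rfl⟩ := h
      exact NHT.p0i hf H.T (j := 3) (by omega) (by omega) (by omega) (by omega) (by omega) (by omega)
    · obtain ⟨rfl, rfl, rfl, rfl⟩ := h
      exact NHT.p0i hf H.T (j := 3) (by omega) (by omega) (by omega) (by omega) (by omega) (by omega)
    · obtain ⟨rfl, rfl, rfl, rfl⟩ := h
      exact NHT.p0i hf H.T (j := 3) (by omega) (by omega) (by omega) (by omega) (by omega) (by omega)

end Pool.Agent.SNT.PB
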