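import Pool.Agent.SNT.PB

set_option autoImplicit false
set_option synthInstance.maxSize 100000
set_option synthInstance.maxHeartbeats 4000000

/-! The column `2 n + 1` of the layer `6 k + 2` near the diagonal. -/

namespace Pool.Agent.SNT.PB

open Pool.Agent.SNT Pool.Agent.SNT.Sig Pool.Agent.SNT.Loc Pool.Agent.SNT.LW Pool.Agent.SNT.NHZ Pool.Agent.SNT.DRun

variable {f : ℕ → ℕ → ℕ → ℕ → Prop}

theorem r1_d7_chk : check 5 4 14 14 0 0 1 1 2
    (fun j n p q => decide ((j = 4 ∧ n = 2 ∧ p = 8 ∧ q = 1)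
      ∨ (j = 4 ∧ n = 2 ∧ p = 12 ∧ q = 3)
      ∨ (j = 4 ∧ n = 2 ∧ p = 12 ∧ q = 5)))
    (fun j n p q => decide ((j = 1 ∧ n = 1 ∧ q ≤ p)
      ∨ (j = 1 ∧ n = 2 ∧ q ≤ p)
      ∨ (j = 3 ∧ n = 1 ∧ 4 ≤ p ∧ q + 5 ≤ p ∧ p ≤ q + 10)
      ∨ (j = 4 ∧ n = 1 ∧ 4 ≤ p ∧ q + 4 ≤ p)
      ∨ (j = 5 ∧ n = 1 ∧ 5 ≤ q ∧ q + 3 ≤ p)
      ∨ (j = 5 ∧ n = 1 ∧ 4 ≤ p ∧ q + 4 ≤ p)
      ∨ (j = 3 ∧ n = 2 ∧ 9 ≤ p ∧ q + 5 ≤ p ∧ p ≤ q + 10)
      ∨ (j = 5 ∧ n = 2 ∧ 9 ≤ p ∧ q + 4 ≤ p)
      ∨ (j = 5 ∧ n = 2 ∧ 5 ≤ q ∧ q + 3 ≤ p)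
      ∨ (j = 4 ∧ n = 2 ∧ p = 8 ∧ q = 3)
      ∨ (j = 4 ∧ n = 2 ∧ p = 10 ∧ q = 3)))
    120
    0x89383051a000704ea05748006fd4a07048305128005128403e583056d80056d8403ed0305750005750403e603056e00056e0408850008858a07050007058a070d0006ff0006ef0008ad8e08ad8708a68e08a68708ac8e08ac87084b8e084b8708448e084487084b0e084b0708440e084407084a8e084a8708438e084387084a0e084a0708430e084307073a8e073a8f070b8707398e07398f06fe87072b8e072b8706fd87071d8e071d8706fc87071c8e071c8f06ca0e06ca0706bc0e06bc0706c98e06c98706bb8e06bb8706c20e06c20706bb0e06bb0705a40e05a40705a38e05a38705420e05420705418e05418705338e05338705330e053307052c0e052c0703ec8703de8702858e028587027e8e027e8702850e028507027e0e027e0702770e02770702848e028487027d8e027d8702768e02768702238e022387021c8e021c8702230e022307021c0e021c0702150e02150702228e022287021b8e021b8702148e021487 = true := by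
  decide +kernel

theorem r1_d7 (hf : Rule f) {k c n : ℕ} (H : PB f k c n)
    (h0 : f (6 * k + 2) (c) (2 * n + 1) (2 * n - 6))
    (h1 : f (6 * k + 2) (c) (2 * n + 5) (2 * n - 4))
    (h2 : f (6 * k + 2) (c) (2 * n + 5) (2 * n - 2))
    (z0 : ¬ f (6 * k + 2) (c) (2 * n + 1) (2 * n - 4))
    (z1 : ¬ f (6 * k + 2) (c) (2 * n + 3) (2 * n - 4)) : False := by
  have hk := H.T.hk
  have hc := H.T.hc
  have h4' := H.T.h4
  have hb := H.T.hb
  have hN := H.T.hN2
  obtain ⟨a0, ha0⟩ : ∃ z, z + 2 = 6 * k := ⟨6 * k - 2, by omega⟩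
  obtain ⟨b0, hb0⟩ : ∃ z, z + 2 = c := ⟨c - 2, by omega⟩
  obtain ⟨x0, hx0⟩ : ∃ z, z + 7 = 2 * n := ⟨2 * n - 7, by omega⟩
  refine check_sound hf (a0 := a0) (b0 := b0) (x0 := x0) (y0 := x0) r1_d7_chk
    ⟨fun _ => rfl, fun h => absurd h (by decide), fun h => absurd h (by decide), by omega, by omega,
      by omega, by omega⟩ ?_ ?_
  · intro j m p q hr h
    obtain ⟨-, -, -, -, hp1, hp2, hq1, hq2⟩ := hr
    replace h := of_decide_eq_true h
    rcases h with h | h | h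
    · obtain ⟨rfl, rfl, rfl, rfl⟩ := h
      exact mv h0 (by omega) (by omega) (by omega) (by omega)
    · obtain ⟨rfl, rfl, rfl, rfl⟩ := h
      exact mv h1 (by omega) (by omega) (by omega) (by omega)
    · obtain ⟨rfl, rfl, rfl, rfl⟩ := h
      exact mv h2 (by omega) (by omega) (by omega) (by omega)
  · intro j m p q hr h
    obtain ⟨-, -, -, -, hp1, hp2, hq1, hq2⟩ := hr
    replace h := of_decide_eq_true h
    rcases h with h | h | h | h | h | h | h | h | h | h | h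
    · obtain ⟨rfl, rfl, h⟩ := h
      exact H.lw _ _ _ _ (by omega) (by omega) (by omega) (by omega) (by omega) (by omega)
    · obtain ⟨rfl, rfl, h⟩ := h
      exact H.lw _ _ _ _ (by omega) (by omega) (by omega) (by omega) (by omega) (by omega)
    · obtain ⟨rfl, rfl, h⟩ := h
      exact fun t => NHT.rm1i hf H.T (p := 1) (j := 4) (by omega) (by omega) (by omega) (by omega) (by omega) (by omega) (mv t rfl (by omega) rfl rfl)
    · obtain ⟨rfl, rfl, h⟩ := h
      exact fun t => NHT.rm1i hf H.T (p := 0) (j := 3) (by omega) (by omega) (by omega) (by omega) (by omega) (by omega) (mv t rfl (by omega) rfl rfl)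
    · obtain ⟨rfl, rfl, h⟩ := h
      exact NHT.p0 hf H.T (j := 2) (by omega) (by omega) (by omega) (by omega) (by omega) (by omega)
    · obtain ⟨rfl, rfl, h⟩ := h
      exact fun t => NHT.rm1i hf H.T (p := 1) (j := 3) (by omega) (by omega) (by omega) (by omega) (by omega) (by omega) (mv t rfl (by omega) rfl rfl)
    · obtain ⟨rfl, rfl, h⟩ := h
      exact NHT.p0i hf H.T (j := 4) (by omega) (by omega) (by omega) (by omega) (by omega) (by omega)
    · obtain ⟨rfl, rfl, h⟩ := h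
      exact NHT.p0i hf H.T (j := 3) (by omega) (by omega) (by omega) (by omega) (by omega) (by omega)
    · obtain ⟨rfl, rfl, h⟩ := h
      exact NHT.p0 hf H.T (j := 2) (by omega) (by omega) (by omega) (by omega) (by omega) (by omega)
    · obtain ⟨rfl, rfl, rfl, rfl⟩ := h
      exact fun t => z0 (mv t (by omega) (by omega) (by omega) (by omega))
    · obtain ⟨rfl, rfl, rfl, rfl⟩ := h
      exact fun t => z1 (mv t (by omega) (by omega) (by omega) (by omega))

theorem r1_d5_chk : check 2 6 9 9 1 0 1 1 2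
    (fun j n p q => decide ((j = 1 ∧ n = 2 ∧ q ≤ p ∧ 3 ≤ q ∧ ((p + q) % 2 = 1 ∧ p % 2 = 1))
      ∨ (j = 1 ∧ n = 4 ∧ p = 6 ∧ q = 1)))
    (fun j n p q => decide ((j = 1 ∧ n = 1 ∧ q ≤ p ∧ 3 ≤ p ∧ ¬ (p = q ∧ p % 2 = 1))
      ∨ (j = 2 ∧ n = 1 ∧ q + 2 ≤ p)
      ∨ (j = 2 ∧ n = 2 ∧ q + 2 ≤ p)
      ∨ (j = 1 ∧ n = 3 ∧ 2 ≤ p ∧ q + 4 ≤ p)
      ∨ (j = 2 ∧ n = 3 ∧ 7 ≤ p ∧ q + 4 ≤ p)
      ∨ (j = 2 ∧ n = 4 ∧ 3 ≤ q ∧ q + 3 ≤ p)
      ∨ (j = 1 ∧ n = 4 ∧ p = 6 ∧ q = 3)))
    51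
    0x29903014f800247da029903015000015004019c8001598001588002a90e02a90702a48e02a48702808e02808702800e02800702538e025387024f0e024f0702530e025307024e8e024e87022b0e022b0702268e022687022a8e022a8702260e02260701a60701b18e01b18701b08e01b08f018d8e018d87018d0e018d0701658e01658f015c8e015c8f01540701378e01378701330e013307 = true := by
  decide +kernel

theorem r1_d5 (hf : Rule f) {k c n : ℕ} (H : PB f k c n)
    (h0 : f (6 * k + 2) (c) (2 * n + 1) (2 * n - 4))
    (z0 : ¬ f (6 * k + 2) (c) (2 * n + 1) (2 * n - 2)) : False := by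
  have hk := H.T.hk
  have hc := H.T.hc
  have h4' := H.T.h4
  have hb := H.T.hb
  have hN := H.T.hN2
  obtain ⟨a0, ha0⟩ : ∃ z, z = 6 * k + 1 := ⟨_, rfl⟩
  obtain ⟨b0, hb0⟩ : ∃ z, z + 4 = c := ⟨c - 4, by omega⟩
  obtain ⟨x0, hx0⟩ : ∃ z, z + 5 = 2 * n := ⟨2 * n - 5, by omega⟩
  refine check_sound hf (a0 := a0) (b0 := b0) (x0 := x0) (y0 := x0) r1_d5_chk
    ⟨fun _ => rfl, fun h => absurd h (by decide), fun h => absurd h (by decide), by omega, by omega,
      by omega, by omega⟩ ?_ ?_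
  · intro j m p q hr h
    obtain ⟨-, -, -, -, hp1, hp2, hq1, hq2⟩ := hr
    replace h := of_decide_eq_true h
    rcases h with h | h
    · obtain ⟨rfl, rfl, h⟩ := h
      exact (WrapC.v2 H.c2 (by omega) (by omega) (by omega) (by omega) (by omega) (by omega) (by omega)).mpr (by omega)
    · obtain ⟨rfl, rfl, rfl, rfl⟩ := h
      exact mv h0 (by omega) (by omega) (by omega) (by omega)
  · intro j m p q hr h
    obtain ⟨-, -, -, -, hp1, hp2, hq1, hq2⟩ := hr
    replace h := of_decide_eq_true h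
    rcases h with h | h | h | h | h | h | h
    · obtain ⟨rfl, rfl, h⟩ := h
      exact mt (WrapC.v1 H.c2 (by omega) (by omega) (by omega) (by omega) (by omega) (by omega) (by omega) (by omega)).mp (by omega)
    · obtain ⟨rfl, rfl, h⟩ := h
      exact NHT.pm hf H.T (j := 1) (by omega) (by omega) (by omega) (by omega) (by omega) (by omega)
    · obtain ⟨rfl, rfl, h⟩ := h
      exact NHT.pm hf H.T (j := 1) (by omega) (by omega) (by omega) (by omega) (by omega) (by omega)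
    · obtain ⟨rfl, rfl, h⟩ := h
      exact fun t => NHT.rm1i hf H.T (p := 0) (j := 3) (by omega) (by omega) (by omega) (by omega) (by omega) (by omega) (mv t rfl (by omega) rfl rfl)
    · obtain ⟨rfl, rfl, h⟩ := h
      exact NHT.p0i hf H.T (j := 3) (by omega) (by omega) (by omega) (by omega) (by omega) (by omega)
    · obtain ⟨rfl, rfl, h⟩ := h
      exact NHT.p0 hf H.T (j := 2) (by omega) (by omega) (by omega) (by omega) (by omega) (by omega)
    · obtain ⟨rfl, rfl, rfl, rfl⟩ := h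
      exact fun t => z0 (mv t (by omega) (by omega) (by omega) (by omega))

theorem r1_d3_chk : check 4 7 7 7 0 1 0 0 2
    (fun j n p q => decide ((j = 2 ∧ n = 1 ∧ q ≤ p ∧ ((p + q) % 2 = 1 ∧ p % 2 = 0))
      ∨ (j = 2 ∧ n = 2 ∧ q ≤ p ∧ (p = q ∧ p % 2 = 1))
      ∨ (j = 4 ∧ n = 3 ∧ q ≤ p ∧ ((p + q) % 2 = 1 ∧ p % 2 = 0))
      ∨ (j = 4 ∧ n = 4 ∧ q ≤ p ∧ 2 ≤ q ∧ (p = q ∧ p % 2 = 1))
      ∨ (j = 4 ∧ n = 5 ∧ p = 5 ∧ q = 2)))
    (fun j n p q => decide ((j = 1 ∧ n = 3 ∧ q ≤ p)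
      ∨ (j = 1 ∧ n = 4 ∧ q ≤ p)
      ∨ (j = 1 ∧ n = 5 ∧ q ≤ p)
      ∨ (j = 4 ∧ n = 5 ∧ p = 5 ∧ q = 4)))
    85
    0x1de0302898003395a01c903028d00028d0402908e01e50302908002908401de83028a00028a0402590302718002718402740e01c883027400027404033200032400031c00030400019400017c00017500033c0e033c07033887033b0e033b0f03240f031c0f03070e03070f01e18701da8701b08701af8701a98701940f017f0e017f0f017e0e017e0f01398701390701360701358701390e01390701358e01358701320701388e01388701350e01350701318e013187012107012087011d87011d07011c8701208e012087011d0e011d0701198701190701200e012007011c8e011c8701190e01190701050701048701040701048e010487010107010087 = true := by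
  decide +kernel

theorem r1_d3 (hf : Rule f) {k c n : ℕ} (H : PB f k c n) (C2 : Cyc f (6 * k + 2) (c - 4) (2 * (n - 4) + 2))
    (h0 : f (6 * k + 2) (c) (2 * n + 1) (2 * n - 2))
    (z0 : ¬ f (6 * k + 2) (c) (2 * n + 1) (2 * n)) : False := by
  have hk := H.T.hk
  have hc := H.T.hc
  have h4' := H.T.h4
  have hb := H.T.hb
  have hN := H.T.hN2
  obtain ⟨a0, ha0⟩ : ∃ z, z + 2 = 6 * k := ⟨6 * k - 2, by omega⟩
  obtain ⟨b0, hb0⟩ : ∃ z, z + 5 = c := ⟨c - 5, by omega⟩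
  obtain ⟨x0, hx0⟩ : ∃ z, z + 4 = 2 * n := ⟨2 * n - 4, by omega⟩
  refine check_sound hf (a0 := a0) (b0 := b0) (x0 := x0) (y0 := x0) r1_d3_chk
    ⟨fun _ => rfl, fun h => absurd h (by decide), fun h => absurd h (by decide), by omega, by omega,
      by omega, by omega⟩ ?_ ?_
  · intro j m p q hr h
    obtain ⟨-, -, -, -, hp1, hp2, hq1, hq2⟩ := hr
    replace h := of_decide_eq_true h
    rcases h with h | h | h | h | h
    · obtain ⟨rfl, rfl, h⟩ := h
      exact (WrapC.v2 H.c0 (by omega) (by omega) (by omega) (by omega) (by omega) (by omega) (by omega)).mpr (by omega)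
    · obtain ⟨rfl, rfl, h⟩ := h
      exact (WrapC.v3 H.c0 (by omega) (by omega) (by omega) (by omega) (by omega) (by omega) (by omega) (by omega)).mpr (by omega)
    · obtain ⟨rfl, rfl, h⟩ := h
      exact (WrapC.v2 C2 (by omega) (by omega) (by omega) (by omega) (by omega) (by omega) (by omega)).mpr (by omega)
    · obtain ⟨rfl, rfl, h⟩ := h
      exact (WrapC.v3 C2 (by omega) (by omega) (by omega) (by omega) (by omega) (by omega) (by omega) (by omega)).mpr (by omega)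
    · obtain ⟨rfl, rfl, rfl, rfl⟩ := h
      exact mv h0 (by omega) (by omega) (by omega) (by omega)
  · intro j m p q hr h
    obtain ⟨-, -, -, -, hp1, hp2, hq1, hq2⟩ := hr
    replace h := of_decide_eq_true h
    rcases h with h | h | h | h
    · obtain ⟨rfl, rfl, h⟩ := h
      exact H.lw _ _ _ _ (by omega) (by omega) (by omega) (by omega) (by omega) (by omega)
    · obtain ⟨rfl, rfl, h⟩ := h
      exact H.lw _ _ _ _ (by omega) (by omega) (by omega) (by omega) (by omega) (by omega)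
    · obtain ⟨rfl, rfl, h⟩ := h
      exact H.lw _ _ _ _ (by omega) (by omega) (by omega) (by omega) (by omega) (by omega)
    · obtain ⟨rfl, rfl, rfl, rfl⟩ := h
      exact fun t => z0 (mv t (by omega) (by omega) (by omega) (by omega))

end Pool.Agent.SNT.PB
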