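import Pool.Agent.SNT.PurB
import Pool.Agent.SNT.PBr1
import Pool.Agent.SNT.PBr1d

set_option autoImplicit false

/-! The pair (0, 1) of the layer `6 k + 2` in the row `c`: the tips of the columns `2 n + 1` and `2 n + 3` are not both
missing. -/

namespace Pool.Agent.SNT.PB

open Pool.Agent.SNT Pool.Agent.SNT.Sig Pool.Agent.SNT.NHZ Pool.Agent.SNT.DRun Pool.Agent.SNT.Pur20

variable {f : ℕ → ℕ → ℕ → ℕ → Prop} {k c n : ℕ}

/-- a cell of the column `2 n + 3` gives the tip -/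
theorem col3_tip (hf : Rule f) (H : PB f k c n) {v : ℕ} (hv : v % 2 = 0) (h1 : 2 * n + 8 ≤ v + 2 * k)
    (h2 : v + 2 ≤ 2 * n) (h0 : f (6 * k + 2) c (2 * n + 3) v) : f (6 * k + 2) c (2 * n + 3) (2 * n + 2) := by
  by_contra h3
  exact t1 hf H (run2' hf H.T (x := 2 * n + 3) (y0 := v) (by omega) hv (by omega) (by omega) h0 (2 * n - 2) (by omega)
    (by omega) (by omega)) h3

/-- **The pair (0, 1) of the layer `6 k + 2`, row `c`.** -/
theorem pair01 (hf : Rule f) (H : PB f k c n) (C2 : Cyc f (6 * k + 2) (c - 4) (2 * (n - 4) + 2))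
    (K2 : ∀ x y : ℕ, 2 * n + 1 ≤ x → x % 2 = 1 → y + 2 * k = x + 5 →
      f (6 * k + 2) c x y ∨ f (6 * k + 2) c (x + 2) (y + 2)) :
    f (6 * k + 2) c (2 * n + 1) (2 * n) ∨ f (6 * k + 2) c (2 * n + 3) (2 * n + 2) := by
  have hk := H.T.hk
  have hN := H.T.hN2
  by_cases h3 : f (6 * k + 2) c (2 * n + 3) (2 * n + 2)
  · exact Or.inr h3
  refine Or.inl ?_
  have c3 : ∀ v : ℕ, v % 2 = 0 → 2 * n + 8 ≤ v + 2 * k → v + 2 ≤ 2 * n → ¬ f (6 * k + 2) c (2 * n + 3) v :=
    fun v hv h1 h2 h0 => h3 (col3_tip hf H hv h1 h2 h0)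
  obtain ⟨y, hy⟩ : ∃ y, y + 2 * k = 2 * n + 6 := ⟨2 * n + 6 - 2 * k, by omega⟩
  have c5w : f (6 * k + 2) c (2 * n + 5) (y + 4) := by
    rcases K2 (2 * n + 3) (y + 2) (by omega) (by omega) (by omega) with h | h
    · exact absurd h (c3 _ (by omega) (by omega) (by omega))
    · exact h
  have c5 : ∀ v : ℕ, v % 2 = 0 → 2 * n + 10 ≤ v + 2 * k → v ≤ 2 * n → f (6 * k + 2) c (2 * n + 5) v :=
    fun v hv h1 h2 => run2' hf H.T (x := 2 * n + 5) (y0 := y + 4) (by omega) (by omega) (by omega) (by omega) c5w v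
      (by omega) (by omega) hv
  have c1w : f (6 * k + 2) c (2 * n + 1) y := by
    rcases K2 (2 * n + 1) y (by omega) (by omega) (by omega) with h | h
    · exact h
    · exact absurd h (c3 _ (by omega) (by omega) (by omega))
  have c1a : f (6 * k + 2) c (2 * n + 1) (y + 2) := by
    by_contra hg
    refine r1_wall hf H hy c1w hg ?_ ?_
    · intro M R u v e1 e2 e3 e4
      subst e1 e2 e3
      exact c3 v e4.1 e4.2.1 (by omega)
    · intro M R u v e1 e2 e3 e4
      subst e1 e2 e3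
      exact c5 v e4.1 e4.2.1 (by omega)
  have c1 : ∀ j : ℕ, y + 2 + 2 * j + 6 ≤ 2 * n → f (6 * k + 2) c (2 * n + 1) (y + 2 + 2 * j) := by
    intro j
    induction j with
    | zero => exact fun _ => c1a
    | succ j ih =>
      intro h
      by_contra hg
      refine r1_mid hf H (y := y + 2 + 2 * j) (by omega) (by omega) (by omega) (ih (by omega)) hg ?_ ?_ ?_
      · exact c3 _ (by omega) (by omega) (by omega)
      · exact c5 _ (by omega) (by omega) (by omega)
      · exact c5 _ (by omega) (by omega) (by omega)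
  have a6 : f (6 * k + 2) c (2 * n + 1) (2 * n - 6) := by
    have := c1 (k - 7) (by omega)
    rwa [show y + 2 + 2 * (k - 7) = 2 * n - 6 by omega] at this
  have a4 : f (6 * k + 2) c (2 * n + 1) (2 * n - 4) := by
    by_contra hg
    exact r1_d7 hf H a6 (c5 _ (by omega) (by omega) (by omega)) (c5 _ (by omega) (by omega) (by omega)) hg
      (c3 _ (by omega) (by omega) (by omega))
  have a2 : f (6 * k + 2) c (2 * n + 1) (2 * n - 2) := by
    by_contra hg
    exact r1_d5 hf H a4 hg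
  by_contra hg
  exact r1_d3 hf H C2 a2 hg

/-- **The pair (0, 1) over the window of the leader `6 k + 10`.** -/
theorem pair01_stack (hf : Rule f) {b m : ℕ} (hs : Side k b m) (S : Stack6 f k b m 0 0 0 0 0 1)
    (hn : n = m + 9 + (k + 2) * 4)
    (d0 : Cyc f (6 * k) (b + 16) (2 * (n - 7) + 2)) (d2 : Cyc f (6 * k + 2) (b + 18) (2 * (n - 4) + 2))
    (d4 : Cyc f (6 * k + 4) (b + 20) (2 * (n + 1) + 2)) :
    f (6 * k + 2) (b + 22) (2 * n + 1) (2 * n) ∨ f (6 * k + 2) (b + 22) (2 * n + 3) (2 * n + 2) := by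
  have d2' : Cyc f (6 * k + 2) (b + 18) (2 * (n - 3) + 2) := WrapC.cyc_mono d2 (by omega)
  have H := PB.of_stack hs S hn d0 d2' d4
  subst hn
  exact pair01 hf H (cyc_mv d2 rfl (by omega) rfl) (fun x y h1 h2 h3 => K0L2c.k0_L2_stack hf hs S d2' d4 rfl h1 h2 h3)

end Pool.Agent.SNT.PB
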