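import Pool.Agent.SNT.NBF
import Pool.Agent.SNT.NBSr
import Pool.Agent.SNT.PBp01
import Pool.Agent.SNT.K0L4
import Pool.Agent.SNT.LW4

set_option autoImplicit false

/-!
# The top leader `6 k + 10`: no healer, over the window and the improved leads of the lower layers
-/

namespace Pool.Agent.SNT.NDB

open Pool.Agent.SNT Pool.Agent.SNT.Sig Pool.Agent.SNT.NHZ Pool.Agent.SNT.NW Pool.Agent.SNT.NHA

variable {f : ℕ → ℕ → ℕ → ℕ → Prop} {k b m n : ℕ}

/-- The improved leads of `6 k`, `6 k + 2`, `6 k + 4` (two cycles). -/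
structure Imp (f : ℕ → ℕ → ℕ → ℕ → Prop) (k b n : ℕ) : Prop where
  a0 : Cyc f (6 * k) (b + 16) (2 * (n - 7) + 2)
  b0 : Cyc f (6 * k) (b + 20) (2 * (n + k - 5) + 2)
  a2 : Cyc f (6 * k + 2) (b + 18) (2 * (n - 5) + 2)
  b2 : Cyc f (6 * k + 2) (b + 22) (2 * (n + k - 3) + 2)
  a4 : Cyc f (6 * k + 4) (b + 20) (2 * (n + 1) + 2)
  b4 : Cyc f (6 * k + 4) (b + 24) (2 * (n + k + 3) + 2)

theorem CorB.of_stack (hf : Rule f) (hs : Side k b m) (S : Stack6 f k b m 0 0 0 0 0 1) (hn : n = m + 9 + (k + 2) * 4)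
    (I : Imp f k b n) : CorB f k (b + 22) n := by
  have h2 : Cyc f (6 * k + 2) (b + 18) (2 * (n - 3) + 2) := WrapC.cyc_mono I.a2 (by omega)
  have h2' : Cyc f (6 * k + 2) (b + 18) (2 * (n - 4) + 2) := WrapC.cyc_mono I.a2 (by omega)
  refine ⟨NWJ.of_stack hs S hn I.b0 I.a2 I.b2 I.a4 I.b4, ?_, ?_, ?_, ?_, ?_, ?_, ?_⟩
  · intro M R x y hM h1 h2 h3 h4 h5
    obtain ⟨k1, k2, k3, k4, k5⟩ := hs
    have e : M = 6 * k - 1 := by omega
    rw [e]
    exact lw_zero ⟨k1, k2, k3, k4, k5⟩ S (i := R - b) (by omega) (by omega) (by omega) h4 (by omega)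
  · rw [show b + 22 - 6 = b + 16 by omega]
    exact I.a0
  · intro x h1 h3 h4
    exact (PB.purity_stack hf hs S hn I.a0 h2 I.a4 h1 h3 h4).1
  · intro x h1 h3 h4
    exact (PB.purity_stack hf hs S hn I.a0 h2 I.a4 h1 h3 h4).2
  · exact PB.pair01_stack hf hs S hn I.a0 h2' I.a4
  · subst hn
    have h := K0L4.tip4_stack hf hs S (x := 2 * (m + 9 + (k + 2) * 4) - 3) (by omega) (by omega)
    rw [show 2 * (m + 9 + (k + 2) * 4) - 3 - 1 = 2 * (m + 9 + (k + 2) * 4) - 4 by omega,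
      show 2 * (m + 9 + (k + 2) * 4) - 3 + 2 = 2 * (m + 9 + (k + 2) * 4) - 1 by omega,
      show 2 * (m + 9 + (k + 2) * 4) - 3 + 1 = 2 * (m + 9 + (k + 2) * 4) - 2 by omega] at h
    rwa [show b + 22 - 2 = b + 20 by omega]
  · subst hn
    have h := K0L4.tip4_stack hf hs S (x := 2 * (m + 9 + (k + 2) * 4) - 1) (by omega) (by omega)
    rw [show 2 * (m + 9 + (k + 2) * 4) - 1 - 1 = 2 * (m + 9 + (k + 2) * 4) - 2 by omega,
      show 2 * (m + 9 + (k + 2) * 4) - 1 + 2 = 2 * (m + 9 + (k + 2) * 4) + 1 by omega,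
      show 2 * (m + 9 + (k + 2) * 4) - 1 + 1 = 2 * (m + 9 + (k + 2) * 4) by omega] at h
    rwa [show b + 22 - 2 = b + 20 by omega]

/-- **No healer** over the window. -/
theorem noheal_stack (hf : Rule f) (hs : Side k b m) (S : Stack6 f k b m 0 0 0 0 0 1) (hn : n = m + 9 + (k + 2) * 4)
    (I : Imp f k b n) {i : ℕ} (h1 : n + 4 ≤ i) (h2 : i ≤ n + (k + 1)) : ¬ f (6 * k + 9) (b + 24) (2 * i) (2 * n + 3) := by
  have K := CorB.of_stack hf hs S hn I
  have U : Pur f k (b + 22) n := ⟨fun M R x y e1 e2 e3 e4 e5 e6 => by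
      subst e1 e2 e3
      exact K.u2 x e4 (by have := hs.1; omega) e6,
    fun M R x y e1 e2 e3 e4 e5 e6 => by
      subst e1 e2 e3
      exact K.u6 x e4 (by have := hs.1; omega) e6⟩
  exact (K.nhg hf (NB.w1 hf K.H U) (NB.w0 hf K.H U) (NB.w8 hf K.H U) (NB.w7 hf K.H U) (NB.w9 hf K.H U)).noheal hf h1 h2

/-- **The tip of the top leader** over the window and the improved leads of the lower layers. -/
theorem leadR10_imp (hf : Rule f) (hs : Side k b m) (S : Stack6 f k b m 0 0 0 0 0 1)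
    (I : Imp f k b (m + 9 + (k + 2) * 4))
    (ht : ¬ f (6 * k + 10) (b + 22) (2 * (m + 9 + (k + 2) * 4) + 1) (2 * (m + 9 + (k + 2) * 4))) : False :=
  LW.leadR10 hf hs S (fun _ h1 h2 => noheal_stack hf hs S rfl I h1 h2) ht

end Pool.Agent.SNT.NDB
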