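import Pool.Agent.SNT.LocWX
import Pool.Agent.SNT.Stack6

set_option autoImplicit false

/-! Location of the top leader: assembly from the two strips and the zones of the odd layer. -/

namespace Pool.Agent.SNT.LW

open TipI

variable {f : ℕ → ℕ → ℕ → ℕ → Prop}

/-- The zones of `P_(A-1)` which the location of the top leader needs: `c` is the previous IN row,
`c + 4` the IN row with the lead `n`. -/
structure ZTop (f : ℕ → ℕ → ℕ → ℕ → Prop) (A c n : ℕ) : Prop where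
  zm2 : ∀ x y : ℕ, y + 2 * (A / 6) ≤ x → 2 * n < x + 2 →
    (f (A - 1) (c + 2) x y ↔ Fst (A - 1) (c + 2) x y)
  zm1 : ∀ x y : ℕ, y + 2 * (A / 6) ≤ x + 2 → 2 * n < x + 2 →
    (f (A - 1) (c + 3) x y ↔ Fst (A - 1) (c + 3) x y)
  z0 : ∀ x y : ℕ, y ≤ x → 2 * n < x →
    (x ≤ y + 1 ∨ y + 2 * (A / 6) ≤ x + 2 ∨ 2 * n + 2 < x) →
    (f (A - 1) (c + 4) x y ↔ Fst (A - 1) (c + 4) x y)
  z1 : ∀ x y : ℕ, y ≤ x → 2 * n < x → (x ≤ y + 1 ∨ 2 * n + 2 < x) →
    (f (A - 1) (c + 5) x y ↔ Fst (A - 1) (c + 5) x y)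
  z2 : ∀ x y : ℕ, y ≤ x → (y + 2 * (A / 6) ≤ x ∧ 2 * n + 5 ≤ x) ∨ (x ≤ y + 1 ∧ 2 * n + 4 ≤ y) ∨
    2 * n + 2 * (A / 6) + 1 ≤ x → (f (A - 1) (c + 6) x y ↔ Fst (A - 1) (c + 6) x y)
  z3 : ∀ x y : ℕ, y ≤ x → (x ≤ y + 1 ∧ 2 * n + 4 ≤ y) ∨ 2 * n + 2 * (A / 6) + 1 ≤ x →
    (f (A - 1) (c + 7) x y ↔ Fst (A - 1) (c + 7) x y)

/-- LOCATION of the top leader. -/
theorem loc_top (hf : Rule f) {A c n n' m' : ℕ} (hA : A % 2 = 0) (h24 : 24 ≤ A)
    (ph : (A + c) % 4 = 2) (big : 2 * A + 40 ≤ c) (hn : A + c + 60 ≤ 2 * n) (hn' : n' + 1 = n)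
    (hm : m' + A / 6 + 1 = n) (C' : Cw f A c m') (C : Cw f A (c + 4) n) (Z : ZTop f A c n)
    (L0 : ∀ x y : ℕ, y ≤ x → x + 3 ≤ y + 2 * (A / 6) → x = 2 * n + 1 ∨ x = 2 * n + 2 →
      (f A (c + 4) x y ↔ Fst A (c + 4) x y))
    (L2 : ∀ x y : ℕ, y ≤ x → x + 1 ≤ y + 2 * (A / 6) → y = 2 * n + 2 ∨ y = 2 * n + 3 →
      (f A (c + 6) x y ↔ Fst A (c + 6) x y)) : Cw f A (c + 4) n' := by
  have odd : ∀ r x y : ℕ, c ≤ r → y ≤ x → x ≤ y + 2 * (A / 6) + 2 →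
      (f (A - 1) r x y ↔ Fst (A - 1) r x y) → ¬ f (A - 1) r x y := by
    intro r x y h1 h2 h3 h4 h5
    exact odd_zero (by omega) (by omega) h2 (by omega) (h4.1 h5)
  have w0 : ∀ x y : ℕ, y ≤ x → 2 * n' + 3 ≤ x → x + 3 ≤ y + 2 * (A / 6) ∨ 2 * n' + 5 ≤ x →
      (f A (c + 4) x y ↔ Fst A (c + 4) x y) := by
    intro x y hyx hx hc
    rcases Nat.lt_or_ge x (2 * n + 3) with h | h
    · exact L0 x y hyx (by omega) (by omega)
    · refine loc_w0x hf hA (by omega) ph big (by omega) C.w0 ?_ ?_ Z.zm2 ?_ ?_ ?_ x y hyx h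
      · intro u v h1 h2
        exact C'.w2x u v h1 (by omega)
      · intro u v h1 h2 h3
        exact C'.w3s u v h1 h2 (by omega)
      · intro u v h1 h2
        exact Z.zm1 u v (by omega) h2
      · intro u v h1 h2
        exact Z.z0 u v (by omega) h2 (by omega)
      · intro i u v h1 h2 h3 h4 h5 h6
        have hi : i = 3 ∨ i = 4 := by omega
        rcases hi with rfl | rfl
        · exact odd _ _ _ (by omega) (by omega) (by omega) (Z.zm1 u v (by omega) (by omega))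
        · exact odd _ _ _ (by omega) (by omega) (by omega)
            (Z.z0 u v (by omega) (by omega) (by omega))
  have w2s : ∀ x y : ℕ, y ≤ x → x + 1 ≤ y + 2 * (A / 6) → 2 * n' + 4 ≤ y →
      (f A (c + 4 + 2) x y ↔ Fst A (c + 4 + 2) x y) := by
    intro x y hyx hs hy
    rcases Nat.lt_or_ge y (2 * n + 4) with h | h
    · exact L2 x y hyx hs (by omega)
    · exact C.w2s x y hyx hs h
  have w1 := loc_w1 hf (b := c + 4) (n := n') hA (by omega) (by omega) (by omega) (by omega) w0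
    (fun x y h1 h2 h3 => Z.z0 x y h1 (by omega) (by omega))
    (fun x y h1 h2 h3 => Z.z1 x y h1 (by omega) (by omega))
  have w2x : ∀ x y : ℕ, y + 2 * (A / 6) ≤ x → 2 * n' + 9 ≤ x →
      (f A (c + 4 + 2) x y ↔ Fst A (c + 4 + 2) x y) := by
    intro x y hd hx
    refine loc_w2x hf (b := c + 4) (L := 2 * n + 4) hA (by omega) (by omega) (by omega) (by omega)
      (by omega) ?_ ?_ ?_ x y hd (by omega)
    · intro u v _ h2 h3
      exact w1 u v h2 (by omega) (by omega)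
    · intro u v h1 h2
      exact Z.z1 u v (by omega) (by omega) (by omega)
    · intro u v h1 h2
      exact Z.z2 u v (by omega) (by omega)
  refine ⟨w0, w1, w2s, w2x, ?_, ?_⟩
  · refine loc_w3s hf (b := c + 4) (n := n') hA (by omega) (by omega) (by omega) w2s ?_ ?_
    · intro x y h1 h2 h3
      exact Z.z2 x y h1 (by omega)
    · intro x y h1 h2 h3
      exact Z.z3 x y h1 (by omega)
  · intro x y hyx hx
    refine loc_w3x hf (b := c + 4) (n := n') hA h24 (by omega) (by omega) (by omega) w2s w2x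
      ?_ ?_ x y hyx (by omega)
    · intro x y h1 h2
      exact Z.z2 x y h1 (by omega)
    · intro x y h1 h2
      exact Z.z3 x y h1 (by omega)

end Pool.Agent.SNT.LW

namespace Pool.Agent.SNT.S6

open Pool.Agent.SNT.LW

/-- What is left of the location of the leader `6 k + 10`. -/
structure TopIn (f : ℕ → ℕ → ℕ → ℕ → Prop) (k b n : ℕ) : Prop where
  Z : ZTop f (6 * k + 10) (b + 18) n
  L0 : ∀ x y : ℕ, y ≤ x → x + 1 ≤ y + 2 * k → x = 2 * n + 1 ∨ x = 2 * n + 2 →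
    (f (6 * k + 10) (b + 22) x y ↔ Fst (6 * k + 10) (b + 22) x y)
  L2 : ∀ x y : ℕ, y ≤ x → x ≤ y + 2 * k + 1 → y = 2 * n + 2 ∨ y = 2 * n + 3 →
    (f (6 * k + 10) (b + 24) x y ↔ Fst (6 * k + 10) (b + 24) x y)

/-- The location of the leader `6 k + 10` from the two strips and the zones. -/
theorem locR10_of {f : ℕ → ℕ → ℕ → ℕ → Prop} (hf : Rule f) {k : ℕ}
    (H : ∀ b m : ℕ, Side k b m → Stack6 f k b m 0 0 0 0 0 1 →
      f (6 * k + 10) (b + 22) (2 * (m + 9 + (k + 2) * 4) + 1) (2 * (m + 9 + (k + 2) * 4)) →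
      TopIn f k b (m + 9 + (k + 2) * 4)) : LocR10 f k := by
  intro b m hs S hno tip
  obtain ⟨Z, L0, L2⟩ := H b m hs S tip
  apply hno
  obtain ⟨hk, hb2, hb4, hbl, hm⟩ := hs
  have hdiv : (6 * k + 10) / 6 = k + 1 := by omega
  have e3 : (k + 2) * 3 = 3 * k + 6 := by ring
  have e4 : (k + 2) * 4 = 4 * k + 8 := by ring
  have C' := S.l10 3
  have C := S.l10 4
  rw [e3] at C'
  rw [e4] at C Z L0 L2 ⊢
  refine loc_top hf (A := 6 * k + 10) (c := b + 18) (n := m + 9 + (4 * k + 8))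
    (n' := m + 8 + (4 * k + 8)) (m' := m + 8 + 0 + (3 * k + 6) + 1) (by omega) (by omega)
    (by omega) (by omega) (by omega) (by omega) (by omega) ?_ ?_ Z ?_ ?_
  · have e : b + 6 + 4 * 3 = b + 18 := by ring
    rw [e] at C'
    have e' : m + 8 + 1 + (3 * k + 6) = m + 8 + 0 + (3 * k + 6) + 1 := by ring
    rw [e'] at C'
    exact C'
  · have e : b + 6 + 4 * 4 = b + 18 + 4 := by ring
    rw [e] at C
    exact C
  · intro x y h1 h2 h3
    exact L0 x y h1 (by omega) h3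
  · intro x y h1 h2 h3
    exact L2 x y h1 (by omega) h3

/-- An odd plane of the window is static where it is zero for `2 (x - y) < b`. -/
theorem st_of_zero {f : ℕ → ℕ → ℕ → ℕ → Prop} {k b m e0 e2 e4 e6 e8 e10 : ℕ}
    (hs : Side k b m) (S : Stack6 f k b m e0 e2 e4 e6 e8 e10) {a i x y : ℕ} (ha : a ≤ 6 * k + 10)
    (ha2 : a % 2 = 1) (hi : i ≤ 100) (hyx : y ≤ x) (hx : 2 * m - (100 * k + 1000) < x)
    (h : 2 * x < 2 * y + b → ¬ f a (b + i) x y) : f a (b + i) x y ↔ Fst a (b + i) x y := by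
  obtain ⟨hk, hb2, hb4, hbl, hm⟩ := hs
  rcases Nat.lt_or_ge (2 * x) (2 * y + b) with h1 | h1
  · refine iff_of_false (h h1) (Fst_near_odd ha2 ?_)
    rw [max_eq_left hyx, min_eq_right hyx]
    omega
  · refine S.fr a i x y ha hi ?_ ?_
    · rw [max_eq_left hyx]
      exact hx
    · rw [max_eq_left hyx, min_eq_right hyx]
      omega

/-- The zones in the form of zeros: `n` is the lead of the leader `6 k + 10` at `b + 22`. -/
structure TopZ (f : ℕ → ℕ → ℕ → ℕ → Prop) (k b n : ℕ) : Prop where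
  zm2 : ∀ x y : ℕ, y + 2 * k + 2 ≤ x → 2 * x < 2 * y + b → 2 * n < x + 2 →
    ¬ f (6 * k + 9) (b + 20) x y
  zm1 : ∀ x y : ℕ, y + 2 * k ≤ x → 2 * x < 2 * y + b → 2 * n < x + 2 →
    ¬ f (6 * k + 9) (b + 21) x y
  z0 : ∀ x y : ℕ, y ≤ x → 2 * x < 2 * y + b → 2 * n < x →
    (x ≤ y + 1 ∨ y + 2 * k ≤ x ∨ 2 * n + 2 < x) → ¬ f (6 * k + 9) (b + 22) x y
  z1 : ∀ x y : ℕ, y ≤ x → 2 * x < 2 * y + b → 2 * n < x → (x ≤ y + 1 ∨ 2 * n + 2 < x) →
    ¬ f (6 * k + 9) (b + 23) x y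
  z2 : ∀ x y : ℕ, y ≤ x → 2 * x < 2 * y + b →
    (y + 2 * k + 2 ≤ x ∧ 2 * n + 5 ≤ x) ∨ (x ≤ y + 1 ∧ 2 * n + 4 ≤ y) ∨
      2 * n + 2 * k + 3 ≤ x → ¬ f (6 * k + 9) (b + 24) x y
  z3 : ∀ x y : ℕ, y ≤ x → 2 * x < 2 * y + b →
    (x ≤ y + 1 ∧ 2 * n + 4 ≤ y) ∨ 2 * n + 2 * k + 3 ≤ x → ¬ f (6 * k + 9) (b + 25) x y

theorem TopZ.ztop {f : ℕ → ℕ → ℕ → ℕ → Prop} {k b m n e0 e2 e4 e6 e8 e10 : ℕ}
    (hs : Side k b m) (S : Stack6 f k b m e0 e2 e4 e6 e8 e10) (hn : 2 * m ≤ 2 * n)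
    (Z : TopZ f k b n) : ZTop f (6 * k + 10) (b + 18) n := by
  have hs' := hs
  obtain ⟨hk, hb2, hb4, hbl, hm⟩ := hs
  have hdiv : (6 * k + 10) / 6 = k + 1 := by omega
  have key : ∀ i x y : ℕ, i ≤ 100 → y ≤ x → 2 * n < x + 2 →
      (2 * x < 2 * y + b → ¬ f (6 * k + 9) (b + i) x y) →
      (f (6 * k + 9) (b + i) x y ↔ Fst (6 * k + 9) (b + i) x y) := by
    intro i x y h1 h2 h3 h4
    exact st_of_zero hs' S (by omega) (by omega) h1 h2 (by omega) h4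
  refine ⟨?_, ?_, ?_, ?_, ?_, ?_⟩
  · intro x y h1 h2
    exact key 20 x y (by omega) (by omega) h2 fun h => Z.zm2 x y (by omega) h h2
  · intro x y h1 h2
    exact key 21 x y (by omega) (by omega) h2 fun h => Z.zm1 x y (by omega) h h2
  · intro x y h1 h2 h3
    exact key 22 x y (by omega) h1 (by omega) fun h => Z.z0 x y h1 h h2 (by omega)
  · intro x y h1 h2 h3
    exact key 23 x y (by omega) h1 (by omega) fun h => Z.z1 x y h1 h h2 (by omega)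
  · intro x y h1 h2
    exact key 24 x y (by omega) h1 (by omega) fun h => Z.z2 x y h1 h (by omega)
  · intro x y h1 h2
    exact key 25 x y (by omega) h1 (by omega) fun h => Z.z3 x y h1 h (by omega)

end Pool.Agent.SNT.S6
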