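import Pool.Agent.SNT.LW4
import Pool.Agent.SNT.LocTop

set_option autoImplicit false
set_option synthInstance.maxSize 1000

/-! Location of the top leader: the out-line of the level `n - 1` is complete. -/

namespace Pool.Agent.SNT.LW

open Loc

theorem l2a_chk : check 3 5 5 5 1 0 1 1 2
    (fun j n p q => decide ((j = 3 ∧ n = 2 ∧ p = 2 ∧ q = 1) ∨ (j = 1 ∧ n = 1 ∧ p = 1 ∧ q = 1) ∨ (j = 1 ∧ n = 2 ∧ p = 3 ∧ q = 2) ∨ (j = 1 ∧ n = 3 ∧ p = 2 ∧ q = 2)))
    (fun j n p q => decide ((j = 3 ∧ n = 3 ∧ p = 3 ∧ q = 3)))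
    15
    0xea0300d800005e0000da0000da0e006a0000600000600e004e0000ea0700dd8700da0f006a0f00600f004e0f = true := by
  decide +kernel

theorem l2a {f : ℕ → ℕ → ℕ → ℕ → Prop} (hf : Rule f) {a0 b0 x0 y0 : ℕ} (hxy : x0 = y0)
    (ha : a0 % 2 = 1) (hb : b0 % 2 = 0) (hx : x0 % 2 = 1) (hy : y0 % 2 = 1)
    (h1 : ∀ j n p q : ℕ, InR 3 5 5 5 1 j n p q →
      ((j = 3 ∧ n = 2 ∧ p = 2 ∧ q = 1) ∨ (j = 1 ∧ n = 1 ∧ p = 1 ∧ q = 1) ∨ (j = 1 ∧ n = 2 ∧ p = 3 ∧ q = 2) ∨ (j = 1 ∧ n = 3 ∧ p = 2 ∧ q = 2)) →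
      f (a0 + j) (b0 + n) (x0 + p) (y0 + q))
    (h0 : ∀ j n p q : ℕ, InR 3 5 5 5 1 j n p q →
      ((j = 3 ∧ n = 3 ∧ p = 3 ∧ q = 3)) →
      ¬ f (a0 + j) (b0 + n) (x0 + p) (y0 + q)) : False :=
  check_sound hf l2a_chk
    ⟨fun _ => hxy, fun h => absurd h (by decide),
      fun h => absurd h (by decide), ha, hb, hx, hy⟩
    (fun j n p q hr h => h1 j n p q hr (of_decide_eq_true h))
    (fun j n p q hr h => h0 j n p q hr (of_decide_eq_true h))

theorem l2b_chk : check 3 5 9 9 1 1 1 1 2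
    (fun j n p q => decide ((j = 3 ∧ n = 1 ∧ p = 2 ∧ q = 1) ∨ (j = 3 ∧ n = 3 ∧ p = 7 ∧ q = 4) ∨ (j = 1 ∧ n = 1 ∧ p = 5 ∧ q = 2) ∨ (j = 1 ∧ n = 2 ∧ p = 2 ∧ q = 2) ∨ (j = 3 ∧ n = 1 ∧ p = 4 ∧ q = 3)))
    (fun j n p q => decide ((j = 3 ∧ n = 3 ∧ p = 5 ∧ q = 4)))
    35
    0x1fa0301fe8001fa8002f67202ee6a02230e02228302270002230002230e022304021e8e021e03021e80021e8402ee8002978000fe8002fa8002fa8e02f18e029b80029b8e012580010a80010a8e02fa8f02f18702f10702e907029b8f01530701258f010a8f010207 = true := by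
  decide +kernel

theorem l2b {f : ℕ → ℕ → ℕ → ℕ → Prop} (hf : Rule f) {a0 b0 x0 y0 : ℕ} (hxy : x0 = y0)
    (ha : a0 % 2 = 1) (hb : b0 % 2 = 1) (hx : x0 % 2 = 1) (hy : y0 % 2 = 1)
    (h1 : ∀ j n p q : ℕ, InR 3 5 9 9 1 j n p q →
      ((j = 3 ∧ n = 1 ∧ p = 2 ∧ q = 1) ∨ (j = 3 ∧ n = 3 ∧ p = 7 ∧ q = 4) ∨ (j = 1 ∧ n = 1 ∧ p = 5 ∧ q = 2) ∨ (j = 1 ∧ n = 2 ∧ p = 2 ∧ q = 2) ∨ (j = 3 ∧ n = 1 ∧ p = 4 ∧ q = 3)) →
      f (a0 + j) (b0 + n) (x0 + p) (y0 + q))
    (h0 : ∀ j n p q : ℕ, InR 3 5 9 9 1 j n p q →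
      ((j = 3 ∧ n = 3 ∧ p = 5 ∧ q = 4)) →
      ¬ f (a0 + j) (b0 + n) (x0 + p) (y0 + q)) : False :=
  check_sound hf l2b_chk
    ⟨fun _ => hxy, fun h => absurd h (by decide),
      fun h => absurd h (by decide), ha, hb, hx, hy⟩
    (fun j n p q hr h => h1 j n p q hr (of_decide_eq_true h))
    (fun j n p q hr h => h0 j n p q hr (of_decide_eq_true h))

theorem l2c_chk : check 3 5 11 11 1 1 1 1 2
    (fun j n p q => decide ((j = 3 ∧ n = 1 ∧ p = 2 ∧ q = 1) ∨ (j = 3 ∧ n = 3 ∧ p = 9 ∧ q = 4) ∨ (j = 1 ∧ n = 1 ∧ p = 3 ∧ q = 2) ∨ (j = 1 ∧ n = 1 ∧ p = 5 ∧ q = 2) ∨ (j = 1 ∧ n = 1 ∧ p = 7 ∧ q = 4) ∨ (j = 1 ∧ n = 2 ∧ p = 2 ∧ q = 2) ∨ (j = 3 ∧ n = 1 ∧ p = 6 ∧ q = 5) ∨ (j = 3 ∧ n = 2 ∧ p = 5 ∧ q = 5) ∨ (j = 3 ∧ n = 3 ∧ p = 9 ∧ q = 6)))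
    (fun j n p q => decide ((j = 3 ∧ n = 3 ∧ p = 7 ∧ q = 4) ∨ (j = 3 ∧ n = 2 ∧ p = 7 ∧ q = 4)))
    64
    0x32503032580032b9a01bf8002ee4201888002f972032c00033b000460da046fda033b8e03310301bf8002ee4201888002f972033180033b80033b8e033b8401c50e02ee0301c50001c504046680045b8003e68001848001788001778004758004758e04748004748e04698e042d0e04228003eb8003eb8e01b38001938001938e01878001878e017c80017c8e04758f04748f046a07046987046007042d0704228f03eb8f02020701f70701f60701b38f01938f01880701878f017d07017c8f = true := by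
  decide +kernel

theorem l2c {f : ℕ → ℕ → ℕ → ℕ → Prop} (hf : Rule f) {a0 b0 x0 y0 : ℕ} (hxy : x0 = y0)
    (ha : a0 % 2 = 1) (hb : b0 % 2 = 1) (hx : x0 % 2 = 1) (hy : y0 % 2 = 1)
    (h1 : ∀ j n p q : ℕ, InR 3 5 11 11 1 j n p q →
      ((j = 3 ∧ n = 1 ∧ p = 2 ∧ q = 1) ∨ (j = 3 ∧ n = 3 ∧ p = 9 ∧ q = 4) ∨ (j = 1 ∧ n = 1 ∧ p = 3 ∧ q = 2) ∨ (j = 1 ∧ n = 1 ∧ p = 5 ∧ q = 2) ∨ (j = 1 ∧ n = 1 ∧ p = 7 ∧ q = 4) ∨ (j = 1 ∧ n = 2 ∧ p = 2 ∧ q = 2) ∨ (j = 3 ∧ n = 1 ∧ p = 6 ∧ q = 5) ∨ (j = 3 ∧ n = 2 ∧ p = 5 ∧ q = 5) ∨ (j = 3 ∧ n = 3 ∧ p = 9 ∧ q = 6)) →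
      f (a0 + j) (b0 + n) (x0 + p) (y0 + q))
    (h0 : ∀ j n p q : ℕ, InR 3 5 11 11 1 j n p q →
      ((j = 3 ∧ n = 3 ∧ p = 7 ∧ q = 4) ∨ (j = 3 ∧ n = 2 ∧ p = 7 ∧ q = 4)) →
      ¬ f (a0 + j) (b0 + n) (x0 + p) (y0 + q)) : False :=
  check_sound hf l2c_chk
    ⟨fun _ => hxy, fun h => absurd h (by decide),
      fun h => absurd h (by decide), ha, hb, hx, hy⟩
    (fun j n p q hr h => h1 j n p q hr (of_decide_eq_true h))
    (fun j n p q hr h => h0 j n p q hr (of_decide_eq_true h))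

variable {f : ℕ → ℕ → ℕ → ℕ → Prop} {B c h g m l : ℕ}

/-- The diagonal cell below the tip. -/
theorem l2_diag (hf : Rule f) (W : Wd f B c h g m l)
    (tip : f (B + 2) (c + 4) (2 * (m + h + 1) + 1) (2 * (m + h + 1))) :
    f (B + 2) (c + 5) (2 * (m + h + 1) + 2) (2 * (m + h + 1) + 2) := by
  have e1 := W.hB
  have e2 := W.h12
  have e3 := W.hc
  have e4 := W.ph
  have e5 := W.hh
  have e6 := W.hg
  have e7 := W.hk
  have e8 := W.big
  have e9 := W.hl
  by_contra hX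
  refine l2a hf (a0 := B - 1) (b0 := c + 2) (x0 := 2 * (m + h + 1) - 1)
    (y0 := 2 * (m + h + 1) - 1) rfl (by omega) (by omega) (by omega) (by omega) ?_ ?_
  · intro j n p q _ hx
    rcases hx with ⟨rfl, rfl, rfl, rfl⟩ | ⟨rfl, rfl, rfl, rfl⟩ | ⟨rfl, rfl, rfl, rfl⟩ |
      ⟨rfl, rfl, rfl, rfl⟩
    · exact mv tip (by omega) (by omega) (by omega) (by omega)
    · exact (w1 W.lD0 W.D0 (by omega) (by omega) (by omega) (by omega) (by omega)
        (by omega)).2 (by unfold V1; omega)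
    · exact (w2s W.lD0 W.D0 (by omega) (by omega) (by omega) (by omega) (by omega)
        (by omega)).2 (by unfold V2; omega)
    · exact (w3s W.lD0 W.D0 (by omega) (by omega) (by omega) (by omega) (by omega)
        (by omega)).2 (by unfold V3; omega)
  · intro j n p q _ hx
    obtain ⟨rfl, rfl, rfl, rfl⟩ := hx
    exact fun t => hX (mv t (by omega) (by omega) (by omega) (by omega))

/-- The first step of the out-line. -/
theorem l2_step2 (hf : Rule f) (W : Wd f B c h g m l)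
    (tip : f (B + 2) (c + 4) (2 * (m + h + 1) + 1) (2 * (m + h + 1)))
    (h0 : ¬ f (B + 2) (c + 6) (2 * (m + h + 1) + 4) (2 * (m + h + 1) + 3)) :
    ¬ f (B + 2) (c + 6) (2 * (m + h + 1) + 6) (2 * (m + h + 1) + 3) := by
  have e1 := W.hB
  have e2 := W.h12
  have e3 := W.hc
  have e4 := W.ph
  have e5 := W.hh
  have e6 := W.hg
  have e7 := W.hk
  have e8 := W.big
  have e9 := W.hl
  intro hX
  refine l2b hf (a0 := B - 1) (b0 := c + 3) (x0 := 2 * (m + h + 1) - 1)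
    (y0 := 2 * (m + h + 1) - 1) rfl (by omega) (by omega) (by omega) (by omega) ?_ ?_
  · intro j n p q _ hx
    rcases hx with ⟨rfl, rfl, rfl, rfl⟩ | ⟨rfl, rfl, rfl, rfl⟩ | ⟨rfl, rfl, rfl, rfl⟩ |
      ⟨rfl, rfl, rfl, rfl⟩ | ⟨rfl, rfl, rfl, rfl⟩
    · exact mv tip (by omega) (by omega) (by omega) (by omega)
    · exact mv hX (by omega) (by omega) (by omega) (by omega)
    · exact (w2s W.lD0 W.D0 (by omega) (by omega) (by omega) (by omega) (by omega)
        (by omega)).2 (by unfold V2; omega)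
    · exact (w3s W.lD0 W.D0 (by omega) (by omega) (by omega) (by omega) (by omega)
        (by omega)).2 (by unfold V3; omega)
    · exact (w0 W.lC1 W.C1 (by omega) (by omega) (by omega) (by omega) (by omega)
        (by omega)).2 (by unfold V0; omega)
  · intro j n p q _ hx
    obtain ⟨rfl, rfl, rfl, rfl⟩ := hx
    exact fun t => h0 (mv t (by omega) (by omega) (by omega) (by omega))

/-- The second step of the out-line. -/
theorem l2_step3 (hf : Rule f) (W : Wd f B c h g m l)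
    (tip : f (B + 2) (c + 4) (2 * (m + h + 1) + 1) (2 * (m + h + 1)))
    (h0 : ¬ f (B + 2) (c + 6) (2 * (m + h + 1) + 6) (2 * (m + h + 1) + 3)) :
    ¬ f (B + 2) (c + 6) (2 * (m + h + 1) + 8) (2 * (m + h + 1) + 3) := by
  have e1 := W.hB
  have e2 := W.h12
  have e3 := W.hc
  have e4 := W.ph
  have e5 := W.hh
  have e6 := W.hg
  have e7 := W.hk
  have e8 := W.big
  have e9 := W.hl
  intro hX
  refine l2c hf (a0 := B - 1) (b0 := c + 3) (x0 := 2 * (m + h + 1) - 1)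
    (y0 := 2 * (m + h + 1) - 1) rfl (by omega) (by omega) (by omega) (by omega) ?_ ?_
  · intro j n p q _ hx
    rcases hx with ⟨rfl, rfl, rfl, rfl⟩ | ⟨rfl, rfl, rfl, rfl⟩ | ⟨rfl, rfl, rfl, rfl⟩ |
      ⟨rfl, rfl, rfl, rfl⟩ | ⟨rfl, rfl, rfl, rfl⟩ | ⟨rfl, rfl, rfl, rfl⟩ |
      ⟨rfl, rfl, rfl, rfl⟩ | ⟨rfl, rfl, rfl, rfl⟩ | ⟨rfl, rfl, rfl, rfl⟩
    · exact mv tip (by omega) (by omega) (by omega) (by omega)
    · exact mv hX (by omega) (by omega) (by omega) (by omega)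
    · exact (w2s W.lD0 W.D0 (by omega) (by omega) (by omega) (by omega) (by omega)
        (by omega)).2 (by unfold V2; omega)
    · exact (w2s W.lD0 W.D0 (by omega) (by omega) (by omega) (by omega) (by omega)
        (by omega)).2 (by unfold V2; omega)
    · exact (w2s W.lD0 W.D0 (by omega) (by omega) (by omega) (by omega) (by omega)
        (by omega)).2 (by unfold V2; omega)
    · exact (w3s W.lD0 W.D0 (by omega) (by omega) (by omega) (by omega) (by omega)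
        (by omega)).2 (by unfold V3; omega)
    · exact (w0 W.lC1 W.C1 (by omega) (by omega) (by omega) (by omega) (by omega)
        (by omega)).2 (by unfold V0; omega)
    · exact (w1 W.lC1 W.C1 (by omega) (by omega) (by omega) (by omega) (by omega)
        (by omega)).2 (by unfold V1; omega)
    · exact (w2s W.lC1 W.C1 (by omega) (by omega) (by omega) (by omega) (by omega)
        (by omega)).2 (by unfold V2; omega)
  · intro j n p q _ hx
    rcases hx with ⟨rfl, rfl, rfl, rfl⟩ | ⟨rfl, rfl, rfl, rfl⟩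
    · exact fun t => h0 (mv t (by omega) (by omega) (by omega) (by omega))
    · exact fun t => absurd ((w1 W.lC1 W.C1 (by omega) (by omega) (by omega) (by omega)
        (by omega) (by omega)).1 t) (by unfold V1; omega)

/-- The out-line is complete. -/
theorem l2_line (hf : Rule f) (W : Wd f B c h g m l)
    (tip : f (B + 2) (c + 4) (2 * (m + h + 1) + 1) (2 * (m + h + 1)))
    (hn : ∀ i : ℕ, m + h + 1 + 4 ≤ i → i ≤ m + h + 1 + h →
      ¬ f (B + 2) (c + 6) (2 * i) (2 * (m + h + 1) + 3) →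
      ¬ f (B + 2) (c + 6) (2 * i + 2) (2 * (m + h + 1) + 3)) {t : ℕ} (ht : t + 2 ≤ h + 1) :
    f (B + 2) (c + 6) (2 * (m + h + 1 + 2 + t)) (2 * (m + h + 1) + 3) := by
  have e7 := W.hk
  by_contra hX
  have key : ∀ s : ℕ, t + s + 2 ≤ h + 1 →
      ¬ f (B + 2) (c + 6) (2 * (m + h + 1 + 2 + (t + s))) (2 * (m + h + 1) + 3) := by
    intro s
    induction s with
    | zero => exact fun _ => hX
    | succ s ih =>
      intro h1 q
      have ih' := ih (by omega)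
      rcases (show t + s = 0 ∨ t + s = 1 ∨ 2 ≤ t + s by omega) with h2 | h2 | h2
      · exact l2_step2 hf W tip (fun r => ih' (mv r rfl rfl (by omega) rfl))
          (mv q rfl rfl (by omega) rfl)
      · exact l2_step3 hf W tip (fun r => ih' (mv r rfl rfl (by omega) rfl))
          (mv q rfl rfl (by omega) rfl)
      · exact hn (m + h + 1 + 2 + (t + s)) (by omega) (by omega) ih' (mv q rfl rfl (by omega) rfl)
  exact key (h + 1 - 2 - t) (by omega) (mv (edge hf W) rfl rfl (by omega) rfl)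

/-- The strip of the out-line of the level `n - 1` is static. -/
theorem l2_strip (hf : Rule f) (W : Wd f B c h g m l)
    (tip : f (B + 2) (c + 4) (2 * (m + h + 1) + 1) (2 * (m + h + 1)))
    (hn : ∀ i : ℕ, m + h + 1 + 4 ≤ i → i ≤ m + h + 1 + h →
      ¬ f (B + 2) (c + 6) (2 * i) (2 * (m + h + 1) + 3) →
      ¬ f (B + 2) (c + 6) (2 * i + 2) (2 * (m + h + 1) + 3)) (x y : ℕ) (hyx : y ≤ x)
    (hd : x + 1 ≤ y + 2 * h) (hy : y = 2 * (m + h + 1) + 2 ∨ y = 2 * (m + h + 1) + 3) :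
    f (B + 2) (c + 6) x y ↔ Fst (B + 2) (c + 6) x y := by
  have e1 := W.hB
  have e2 := W.h12
  have e3 := W.hc
  have e4 := W.ph
  have e5 := W.hh
  have e6 := W.hg
  have e7 := W.hk
  have e8 := W.big
  have e9 := W.hl
  have hF : Fst (B + 2) (c + 6) x y ↔ V2 h x y := by
    have := fst2 (a := B + 2) (b := c + 6) (x := x) (y := y) (by omega) (by omega) hyx (by omega)
    rw [e5] at this
    exact this
  rw [hF]
  have hD := l2_diag hf W tip
  have hL : ∀ i : ℕ, m + h + 1 + 2 ≤ i → i ≤ m + h + 1 + (h + 1) →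
      f (B + 2) (c + 6) (2 * i) (2 * (m + h + 1) + 3) := by
    intro i h1 h2
    exact mv (l2_line hf W tip hn (t := i - (m + h + 1 + 2)) (by omega)) rfl rfl (by omega) rfl
  rcases hy with rfl | rfl
  · refine iff_of_false ?_ (by unfold V2; omega)
    intro t
    rcases Nat.mod_two_eq_zero_or_one x with hx | hx
    · exact hf.not_allEven t ⟨by omega, by omega, hx, by omega⟩
    · have h1 := hL ((x + 1) / 2) (by omega) (by omega)
      exact hf.down h1 (p := 0) (q := 0) (r := 1) (s := 1) (by omega) (by omega) (by omega)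
        (by omega) (by omega) (by omega) (by omega) (by omega) (by omega)
        (mv t (by omega) (by omega) (by omega) (by omega))
  · rcases Nat.mod_two_eq_zero_or_one x with hx | hx
    · refine iff_of_true ?_ (by unfold V2; omega)
      exact mv (hL (x / 2) (by omega) (by omega)) rfl rfl (by omega) rfl
    · refine iff_of_false ?_ (by unfold V2; omega)
      intro t
      rcases Nat.lt_or_ge x (2 * (m + h + 1) + 4) with h1 | h1
      · exact hf.up hD (p := 0) (q := 1) (r := 1) (s := 1) (by omega) (by omega) (by omega)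
          (by omega) (by omega) (mv t (by omega) (by omega) (by omega) (by omega))
      · have h2 := hL (x / 2) (by omega) (by omega)
        exact hf.up h2 (p := 0) (q := 0) (r := 1) (s := 0) (by omega) (by omega) (by omega)
          (by omega) (by omega) (mv t (by omega) (by omega) (by omega) (by omega))

end Pool.Agent.SNT.LW

namespace Pool.Agent.SNT.S6

open Pool.Agent.SNT.LW

/-- The field `L2` of `TopIn`. -/
theorem topL2 {f : ℕ → ℕ → ℕ → ℕ → Prop} (hf : Rule f) {k b m : ℕ} (hs : Side k b m)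
    (S : Stack6 f k b m 0 0 0 0 0 1)
    (hn : ∀ i : ℕ, m + 9 + (k + 2) * 4 + 4 ≤ i → i ≤ m + 9 + (k + 2) * 4 + (k + 1) →
      ¬ f (6 * k + 9) (b + 24) (2 * i) (2 * (m + 9 + (k + 2) * 4) + 3))
    (tip : f (6 * k + 10) (b + 22) (2 * (m + 9 + (k + 2) * 4) + 1)
      (2 * (m + 9 + (k + 2) * 4))) (x y : ℕ) (hyx : y ≤ x) (hd : x ≤ y + 2 * k + 1)
    (hy : y = 2 * (m + 9 + (k + 2) * 4) + 2 ∨ y = 2 * (m + 9 + (k + 2) * 4) + 3) :
    f (6 * k + 10) (b + 24) x y ↔ Fst (6 * k + 10) (b + 24) x y := by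
  obtain ⟨hk, hb, hph, hbig, hm⟩ := hs
  have W : Wd f (6 * k + 8) (b + 18) (k + 1) (k + 1) (m + 9 + (k + 2) * 3)
      (m + 6 + (k + 2) * 4) :=
    ⟨by omega, by omega, by omega, by omega, by omega, by omega, by omega, by omega, by omega,
      (S.l10 3).cast (by omega) (by omega) (by omega),
      (S.l10 4).cast (by omega) (by omega) (by omega),
      (S.l10 5).cast (by omega) (by omega) (by omega),
      (S.l8 4).cast (by omega) (by omega) (by omega),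
      (S.l8 5).cast (by omega) (by omega) (by omega)⟩
  have e1 : 6 * k + 8 + 2 = 6 * k + 10 := by omega
  have e2 : b + 18 + 6 = b + 24 := by omega
  have e3 : b + 18 + 4 = b + 22 := by omega
  have e4 : 6 * k + 8 + 1 = 6 * k + 9 := by omega
  have e5 : m + 9 + (k + 2) * 3 + (k + 1) + 1 = m + 9 + (k + 2) * 4 := by ring
  have h := l2_strip hf W
  have hl : ∀ i : ℕ, _ → _ → _ → _ → _ :=
    fun i h1 h2 h3 h4 => line_top hf W (i := i) h1 h2 h3 h4
  rw [e1, e2, e3, e5] at h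
  rw [e1, e2, e4, e5] at hl
  exact h tip (fun i h1 h2 h3 => hl i (by omega) h2 h3 (hn i h1 h2)) x y hyx (by omega) hy

/-- The strip of the out-line for the leader `6 k + 8`. -/
theorem topL2_8 {f : ℕ → ℕ → ℕ → ℕ → Prop} (hf : Rule f) {k b m : ℕ} (hs : Side k b m)
    (S : Stack6 f k b m 0 0 0 0 1 1)
    (tip : f (6 * k + 8) (b + 20) (2 * (m + 7 + (k + 2) * 4) + 1)
      (2 * (m + 7 + (k + 2) * 4))) (x y : ℕ) (hyx : y ≤ x) (hd : x ≤ y + 2 * k + 1)
    (hy : y = 2 * (m + 7 + (k + 2) * 4) + 2 ∨ y = 2 * (m + 7 + (k + 2) * 4) + 3) :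
    f (6 * k + 8) (b + 22) x y ↔ Fst (6 * k + 8) (b + 22) x y := by
  obtain ⟨hk, hb, hph, hbig, hm⟩ := hs
  have W : Wd f (6 * k + 6) (b + 16) (k + 1) (k + 1) (m + 7 + (k + 2) * 3)
      (m + 4 + (k + 2) * 4) :=
    ⟨by omega, by omega, by omega, by omega, by omega, by omega, by omega, by omega, by omega,
      (S.l8 3).cast (by omega) (by omega) (by omega),
      (S.l8 4).cast (by omega) (by omega) (by omega),
      (S.l8 5).cast (by omega) (by omega) (by omega),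
      .of (S.l6 4) (by omega) (by omega) (by omega) (by omega),
      .of (S.l6 5) (by omega) (by omega) (by omega) (by omega)⟩
  have E : Cw f (6 * k + 6 + 4) (b + 16 + 6) (m + 7 + (k + 2) * 3 + (k + 1) + 1 + 2) :=
    (S.l10 4).cast (by omega) (by omega) (by omega)
  have e1 : 6 * k + 6 + 2 = 6 * k + 8 := by omega
  have e2 : b + 16 + 6 = b + 22 := by omega
  have e3 : b + 16 + 4 = b + 20 := by omega
  have e5 : m + 7 + (k + 2) * 3 + (k + 1) + 1 = m + 7 + (k + 2) * 4 := by ring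
  have h := l2_strip hf W
  have hl : ∀ i : ℕ, _ → _ → _ → _ :=
    fun i h1 h2 h3 => line_mid hf W (i := i) h1 h2 h3
      ((w0 (h := k + 1) ⟨by omega, by omega, by omega, by omega⟩ E rfl rfl (by omega) (by omega)
        (by omega) (by omega)).2 (by unfold V0; omega))
  rw [e1, e2, e3, e5] at h
  rw [e1, e2, e5] at hl
  exact h tip (fun i h1 h2 h3 => hl i (by omega) h2 h3) x y hyx (by omega) hy

end Pool.Agent.SNT.S6
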