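import Pool.Agent.SNT.LocMin2

set_option autoImplicit false

/-! Location of the leader `6 k + 10`: the remaining rows and the assembly. -/

namespace Pool.Agent.SNT.ZTw

open Pool.Agent.SNT.LW TipI

variable {f : ℕ → ℕ → ℕ → ℕ → Prop} {k b n : ℕ}

namespace Mn

/-- The row after the IN row, the columns `2 n + 2` and `2 n + 3` of the strip. -/
theorem w1s (hf : Rule f) (M : Mn f k b n)
    (w0 : ∀ x y : ℕ, y ≤ x → 2 * n + 1 ≤ x → x + 1 ≤ y + 2 * k ∨ 2 * n + 3 ≤ x →
      (f (6 * k + 10) (b + 22) x y ↔ Fst (6 * k + 10) (b + 22) x y)) {x y : ℕ} (hyx : y ≤ x)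
    (hx : 2 * n + 2 ≤ x) (hs : x + 1 ≤ y + 2 * k) :
    f (6 * k + 10) (b + 23) x y ↔ Fst (6 * k + 10) (b + 23) x y := by
  have k1 := M.K.hk
  have k2 := M.K.hb
  have k3 := M.K.ph
  have k4 := M.K.big
  have k5 := M.K.hn
  have one : ∀ u v : ℕ, v ≤ u → 2 * n + 1 ≤ u → u + 1 ≤ v + 2 * k ∨ 2 * n + 3 ≤ u →
      u ≤ v + 2 * k + 1 → u % 2 = 1 → v % 2 = 0 → f (6 * k + 10) (b + 22) u v := by
    intro u v h1 h2 h3 h4 h5 h6
    rw [w0 u v h1 h2 h3, fst0 (by omega) (by omega) h1 (by omega)]
    left
    omega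
  rw [fst1 (by omega) (by omega) (by omega) hyx (by omega)]
  rcases Nat.eq_or_lt_of_le hyx with hd | hd
  · subst hd
    rcases Nat.mod_two_eq_zero_or_one y with hy2 | hy2
    · refine iff_of_true ?_ (by omega)
      by_contra hno
      obtain ⟨p, q, r, s, hp, hq, hr, hs', hsum, hpa, hqb, hrx, hsy, hone⟩ :=
        hf.exists_pred (by omega) hno
      have k1 : ¬ f (6 * k + 10) (b + 23) y (y - 1) :=
        kill hf (one (y - 1) (y - 2) (by omega) (by omega) (by omega) (by omega) (by omega)
          (by omega)) (by omega) (by omega) (by omega) (by omega) (by omega)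
      have k2 : ¬ f (6 * k + 10) (b + 23) (y - 1) (y - 1) :=
        kill hf (one (y - 1) (y - 2) (by omega) (by omega) (by omega) (by omega) (by omega)
          (by omega)) (by omega) (by omega) (by omega) (by omega) (by omega)
      have k3 : ¬ f (6 * k + 10) (b + 23) (y - 1) y := by
        rw [hf.swap_xy]
        exact k1
      have m0 : ¬ f (6 * k + 10) (b + 22) y y := by
        rw [w0 y y le_rfl (by omega) (by omega), fst0 (by omega) (by omega) le_rfl (by omega)]
        omega
      have m1 : ¬ f (6 * k + 10) (b + 22) y (y - 1) := by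
        rw [w0 y (y - 1) (by omega) (by omega) (by omega),
          fst0 (by omega) (by omega) (by omega) (by omega)]
        omega
      have m2 : ¬ f (6 * k + 10) (b + 22) (y - 1) (y - 1) := by
        rw [w0 (y - 1) (y - 1) le_rfl (by omega) (by omega),
          fst0 (by omega) (by omega) le_rfl (by omega)]
        omega
      have m3 : ¬ f (6 * k + 10) (b + 22) (y - 1) y := by
        rw [hf.swap_xy]
        exact m1
      rcases Nat.eq_zero_or_pos p with hp0 | hp0
      · subst hp0
        rcases Nat.eq_zero_or_pos q with hq0 | hq0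
        · subst hq0
          simp only [Nat.sub_zero] at hone
          have hrs : (r = 0 ∧ s = 1) ∨ (r = 1 ∧ s = 0) ∨ (r = 1 ∧ s = 1) := by omega
          rcases hrs with ⟨rfl, rfl⟩ | ⟨rfl, rfl⟩ | ⟨rfl, rfl⟩
          · exact k1 hone
          · exact k3 hone
          · exact k2 hone
        · rw [show b + 23 - q = b + 22 by omega, Nat.sub_zero] at hone
          have hrs : (r = 0 ∧ s = 0) ∨ (r = 0 ∧ s = 1) ∨ (r = 1 ∧ s = 0) ∨ (r = 1 ∧ s = 1) := by
            omega
          rcases hrs with ⟨rfl, rfl⟩ | ⟨rfl, rfl⟩ | ⟨rfl, rfl⟩ | ⟨rfl, rfl⟩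
          · exact m0 hone
          · exact m1 hone
          · exact m3 hone
          · exact m2 hone
      · have hp1 : p = 1 := by omega
        subst hp1
        rw [show 6 * k + 10 - 1 = 6 * k + 9 by omega] at hone
        have odd : ∀ u v : ℕ, y - 1 ≤ u → y - 1 ≤ v → u ≤ y → v ≤ y →
            ¬ f (6 * k + 9) (b + 23 - q) u v := by
          intro u v h1 h2 h3 h4 h5
          have h6 : f (6 * k + 9) (b + 23 - q) (max u v) (min u v) := by
            rcases le_total v u with h | h
            · rw [max_eq_left h, min_eq_right h]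
              exact h5
            · rw [max_eq_right h, min_eq_left h]
              rw [hf.swap_xy]
              exact h5
          rcases Nat.eq_zero_or_pos q with hq0 | hq0
          · subst hq0
            exact d1 hf M (by omega) (by omega) (by omega) h6
          · rw [show b + 23 - q = b + 22 by omega] at h6
            exact d0 hf M (by omega) (by omega) (by omega) h6
        exact odd (y - r) (y - s) (by omega) (by omega) (by omega) (by omega) hone
    · refine iff_of_false ?_ (by omega)
      exact kill hf (one y (y - 1) (by omega) (by omega) (by omega) (by omega) (by omega)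
        (by omega)) (by omega) (by omega) (by omega) (by omega) (by omega)
  · refine iff_of_false ?_ (by omega)
    rcases Nat.mod_two_eq_zero_or_one x with hx2 | hx2 <;>
      rcases Nat.mod_two_eq_zero_or_one y with hy2 | hy2
    · exact kill hf (one (x - 1) y (by omega) (by omega) (by omega) (by omega) (by omega)
        (by omega)) (by omega) (by omega) (by omega) (by omega) (by omega)
    · exact kill hf (one (x - 1) (y - 1) (by omega) (by omega) (by omega) (by omega) (by omega)
        (by omega)) (by omega) (by omega) (by omega) (by omega) (by omega)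
    · exact kill hf (one x y (by omega) (by omega) (by omega) (by omega) (by omega)
        (by omega)) (by omega) (by omega) (by omega) (by omega) (by omega)
    · exact kill hf (one x (y - 1) (by omega) (by omega) (by omega) (by omega) (by omega)
        (by omega)) (by omega) (by omega) (by omega) (by omega) (by omega)

/-- The row after the IN row. -/
theorem w1all (hf : Rule f) (M : Mn f k b n)
    (hz1 : ¬ f (6 * k + 9) (b + 23) (2 * n + 4) (2 * n + 2 - 2 * k))
    (w0 : ∀ x y : ℕ, y ≤ x → 2 * n + 1 ≤ x → x + 1 ≤ y + 2 * k ∨ 2 * n + 3 ≤ x →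
      (f (6 * k + 10) (b + 22) x y ↔ Fst (6 * k + 10) (b + 22) x y)) {x y : ℕ} (hyx : y ≤ x)
    (hx : 2 * n + 2 ≤ x) (hc : x + 1 ≤ y + 2 * k ∨ 2 * n + 5 ≤ x) :
    f (6 * k + 10) (b + 23) x y ↔ Fst (6 * k + 10) (b + 23) x y := by
  have k1 := M.K.hk
  have k2 := M.K.hb
  have k3 := M.K.ph
  have k4 := M.K.big
  have k5 := M.K.hn
  rcases Nat.lt_or_ge (x + 1) (y + 2 * k + 1) with hs | hs
  · exact w1s hf M w0 hyx hx (by omega)
  rcases Nat.lt_or_ge x (2 * n + 7) with h7 | h7
  swap
  · exact M.C.w1 x y hyx (by omega) (by omega)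
  have one : ∀ u v : ℕ, v ≤ u → 2 * n + 3 ≤ u → u ≤ v + 2 * k + 1 → u % 2 = 1 → v % 2 = 0 →
      f (6 * k + 10) (b + 22) u v := by
    intro u v h1 h2 h4 h5 h6
    rw [w0 u v h1 (by omega) (by omega), fst0 (by omega) (by omega) h1 (by omega)]
    left
    omega
  rcases (show x = y + 2 * k ∨ x = y + 2 * k + 1 ∨ y + 2 * k + 2 ≤ x by omega) with h | h | h
  · rw [fst1 (by omega) (by omega) (by omega) hyx (by omega)]
    refine iff_of_false ?_ (by omega)
    rcases Nat.mod_two_eq_zero_or_one x with hx2 | hx2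
    · exact kill hf (one (x - 1) y (by omega) (by omega) (by omega) (by omega) (by omega))
        (by omega) (by omega) (by omega) (by omega) (by omega)
    · exact kill hf (one x (y - 1) (by omega) (by omega) (by omega) (by omega) (by omega))
        (by omega) (by omega) (by omega) (by omega) (by omega)
  · rw [fst1 (by omega) (by omega) (by omega) hyx (by omega)]
    refine iff_of_false ?_ (by omega)
    rcases Nat.mod_two_eq_zero_or_one x with hx2 | hx2
    · exact kill hf (one (x - 1) (y - 1) (by omega) (by omega) (by omega) (by omega) (by omega))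
        (by omega) (by omega) (by omega) (by omega) (by omega)
    · exact kill hf (one x y (by omega) (by omega) (by omega) (by omega) (by omega))
        (by omega) (by omega) (by omega) (by omega) (by omega)
  · rcases Nat.lt_or_ge (2 * x) (2 * y + b) with hnr | hnr
    swap
    · exact M.fr 23 x y (by omega) (by omega) (by omega) (by omega)
    refine LocG.ext_gen hf (D := 2 * k + 1) (by omega) (by omega) (by omega) (by omega)
      (by omega) (by omega) (by omega) ?_ ?_
    · intro u v h1 h2 h3 h4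
      rw [show b + 23 - 1 = b + 22 by omega]
      exact w0 u v (by omega) (by omega) (by omega)
    · intro hres q r s hq hr hs' hz
      rw [show 6 * k + 10 - 1 = 6 * k + 9 by omega] at hz
      have hdv : (6 * k + 10) / 6 = k + 1 := by omega
      rw [hdv] at hres
      by_cases hw : (y - s) + 2 * k + 2 ≤ x - r
      · rcases Nat.eq_zero_or_pos q with hq0 | hq0
        · subst hq0
          rw [Nat.sub_zero] at hz
          by_cases h4 : x - r = 2 * n + 4 ∧ (y - s) + 2 * k + 2 = x - r
          · have e1 : y - s = 2 * n + 2 - 2 * k := by omega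
            rw [h4.1, e1] at hz
            exact hz1 hz
          · exact z1 hf M (by omega) hw (by omega) (by omega) hz
        · rw [show b + 23 - q = b + 22 by omega] at hz
          exact z0 hf M (by omega) hw (by omega) hz
      · -- the distance `2 h - 1`
        have hr1 : r = 1 := by omega
        have hs0 : s = 0 := by omega
        subst hr1
        subst hs0
        rw [Nat.sub_zero] at hz
        have hx5 : x = 2 * n + 5 := by omega
        subst hx5
        rw [show 2 * n + 5 - 1 = 2 * n + 4 by omega] at hz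
        rcases Nat.eq_zero_or_pos q with hq0 | hq0
        · subst hq0
          rw [Nat.sub_zero] at hz
          have h8 : f (6 * k + 8) (b + 20) (2 * n + 3) (y - 1) := by
            rw [M.C8.w0 _ _ (by omega) (by omega) (by omega),
              fst0 (by omega) (by omega) (by omega) (by omega)]
            omega
          exact LocG.sand_b hf h8 (by omega)
            (mv hz (by omega) (by omega) (by omega) (by omega))
        · rw [show b + 23 - q = b + 22 by omega] at hz
          have h8 : f (6 * k + 10) (b + 22) (2 * n + 5) (y + 1) := by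
            rw [w0 _ _ (by omega) (by omega) (by omega),
              fst0 (by omega) (by omega) (by omega) (by omega)]
            omega
          exact kill hf hz (by omega) (by omega) (by omega) (by omega) (by omega) h8

/-- The exterior of the OUT row. -/
theorem w2x (hf : Rule f) (M : Mn f k b n)
    (hz1 : ¬ f (6 * k + 9) (b + 23) (2 * n + 4) (2 * n + 2 - 2 * k))
    (hz2 : ¬ f (6 * k + 9) (b + 24) (2 * n + 6) (2 * n + 3 - 2 * k))
    (w0 : ∀ x y : ℕ, y ≤ x → 2 * n + 1 ≤ x → x + 1 ≤ y + 2 * k ∨ 2 * n + 3 ≤ x →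
      (f (6 * k + 10) (b + 22) x y ↔ Fst (6 * k + 10) (b + 22) x y)) {x y : ℕ}
    (hd : y + 2 * k + 2 ≤ x) (hx : 2 * n + 7 ≤ x) :
    f (6 * k + 10) (b + 24) x y ↔ Fst (6 * k + 10) (b + 24) x y := by
  have k1 := M.K.hk
  have k2 := M.K.hb
  have k3 := M.K.ph
  have k4 := M.K.big
  have k5 := M.K.hn
  rcases Nat.lt_or_ge x (2 * n + 9) with h9 | h9
  swap
  · exact M.C.w2x x y (by omega) (by omega)
  rcases Nat.lt_or_ge (2 * x) (2 * y + b) with hnr | hnr
  swap
  · exact M.fr 24 x y (by omega) (by omega) (by omega) (by omega)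
  have hrow : ∀ u v : ℕ, x ≤ u + 2 → u ≤ x → v + 2 * k + 2 ≤ u →
      (f (6 * k + 10) (b + 24 - 1) u v ↔ Fst (6 * k + 10) (b + 24 - 1) u v) := by
    intro u v h1 h2 h3
    rw [show b + 24 - 1 = b + 23 by omega]
    exact w1all hf M hz1 w0 (by omega) (by omega) (by omega)
  rcases Nat.eq_or_lt_of_le hd with h2h | h2h
  · exact LocG.ext_wall hf (by omega) (by omega) (by omega) (by omega) (by omega) (by omega)
      (fun u v h1 h2 h3 => hrow u v (by omega) h2 (by omega))
  · refine LocG.ext_gen hf (D := 2 * k + 2) (by omega) (by omega) (by omega) (by omega)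
      (by omega) (by omega) (by omega) (fun u v h1 h2 h3 h4 => hrow u v h1 h2 h3) ?_
    intro hres q r s hq hr hs' hz
    rw [show 6 * k + 10 - 1 = 6 * k + 9 by omega] at hz
    have hdv : (6 * k + 10) / 6 = k + 1 := by omega
    rw [hdv] at hres
    rcases Nat.eq_zero_or_pos q with hq0 | hq0
    · subst hq0
      rw [Nat.sub_zero] at hz
      have hrs : (r = 0 ∧ s = 0) ∨ (r = 0 ∧ s = 1) ∨ (r = 1 ∧ s = 0) ∨ (r = 1 ∧ s = 1) := by
        omega
      have hx78 : x = 2 * n + 7 ∨ x = 2 * n + 8 := by omega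
      obtain ⟨D, hD⟩ : ∃ D, x = y + 2 * k + 2 + D := ⟨x - y - 2 * k - 2, by omega⟩
      rcases hx78 with hx7 | hx8
      · have hD4 : D % 4 = 1 := by omega
        rcases hrs with ⟨rfl, rfl⟩ | ⟨rfl, rfl⟩ | ⟨rfl, rfl⟩ | ⟨rfl, rfl⟩
        · exact z2 hf M hz2 (by omega) (by omega) (by omega)
            (Or.inr (Or.inl ⟨by omega, by omega⟩)) (by omega) hz
        · exact z2 hf M hz2 (by omega) (by omega) (by omega)
            (Or.inr (Or.inl ⟨by omega, by omega⟩)) (by omega) hz
        · exact z2 hf M hz2 (by omega) (by omega) (by omega)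
            (Or.inl ⟨by omega, Or.inl (by omega)⟩) (by omega) hz
        · exact z2 hf M hz2 (by omega) (by omega) (by omega)
            (Or.inl ⟨by omega, Or.inr (by omega)⟩) (by omega) hz
      · have hD4 : D % 4 = 3 := by omega
        rcases hrs with ⟨rfl, rfl⟩ | ⟨rfl, rfl⟩ | ⟨rfl, rfl⟩ | ⟨rfl, rfl⟩
        · exact z2 hf M hz2 (by omega) (by omega) (by omega)
            (Or.inr (Or.inr ⟨by omega, Or.inr (by omega)⟩)) (by omega) hz
        · exact z2 hf M hz2 (by omega) (by omega) (by omega)
            (Or.inr (Or.inr ⟨by omega, Or.inl (by omega)⟩)) (by omega) hz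
        · exact z2 hf M hz2 (by omega) (by omega) (by omega)
            (Or.inr (Or.inl ⟨by omega, by omega⟩)) (by omega) hz
        · exact z2 hf M hz2 (by omega) (by omega) (by omega)
            (Or.inr (Or.inl ⟨by omega, by omega⟩)) (by omega) hz
    · rw [show b + 24 - q = b + 23 by omega] at hz
      exact z1 hf M (by omega) (by omega) (by omega) (by omega) hz

/-- The strip of the OUT row. -/
theorem w2s (M : Mn f k b n)
    (L2 : ∀ x y : ℕ, y ≤ x → x ≤ y + 2 * k + 1 → y = 2 * n + 2 ∨ y = 2 * n + 3 →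
      (f (6 * k + 10) (b + 24) x y ↔ Fst (6 * k + 10) (b + 24) x y)) {x y : ℕ} (hyx : y ≤ x)
    (hs : x ≤ y + 2 * k + 1) (hy : 2 * n + 2 ≤ y) :
    f (6 * k + 10) (b + 24) x y ↔ Fst (6 * k + 10) (b + 24) x y := by
  rcases Nat.lt_or_ge y (2 * n + 4) with h | h
  · exact L2 x y hyx hs (by omega)
  · exact M.C.w2s x y hyx (by omega) h

/-- The row after the OUT row, in the strip. -/
theorem w3s (hf : Rule f) (M : Mn f k b n)
    (hz3 : ¬ f (6 * k + 9) (b + 25) (2 * n + 4) (2 * n + 4))
    (hz4 : ¬ f (6 * k + 9) (b + 25) (2 * n + 5) (2 * n + 5))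
    (L2 : ∀ x y : ℕ, y ≤ x → x ≤ y + 2 * k + 1 → y = 2 * n + 2 ∨ y = 2 * n + 3 →
      (f (6 * k + 10) (b + 24) x y ↔ Fst (6 * k + 10) (b + 24) x y)) {x y : ℕ} (hyx : y ≤ x)
    (hs : x ≤ y + 2 * k + 1) (hy : 2 * n + 4 ≤ y) :
    f (6 * k + 10) (b + 25) x y ↔ Fst (6 * k + 10) (b + 25) x y := by
  have k1 := M.K.hk
  have k2 := M.K.hb
  have k3 := M.K.ph
  have k4 := M.K.big
  have k5 := M.K.hn
  rcases Nat.lt_or_ge y (2 * n + 6) with h6 | h6
  swap
  · exact M.C.w3s x y hyx (by omega) h6
  have w2 : ∀ u v : ℕ, v ≤ u → u ≤ v + 2 * k + 1 → 2 * n + 2 ≤ v →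
      (f (6 * k + 10) (b + 24) u v ↔ Fst (6 * k + 10) (b + 24) u v) :=
    fun u v h1 h2 h3 => w2s M L2 h1 h2 h3
  have one : ∀ u v : ℕ, v ≤ u → u ≤ v + 2 * k + 1 → 2 * n + 2 ≤ v → u % 2 = 0 → v % 2 = 1 →
      f (6 * k + 10) (b + 24) u v := by
    intro u v h1 h2 h3 h5 h6
    rw [w2 u v h1 h2 h3, fst2 (by omega) (by omega) h1 (by omega)]
    left
    omega
  rw [fst3 (by omega) (by omega) (by omega) hyx (by omega)]
  rcases Nat.eq_or_lt_of_le hyx with hd | hd
  · subst hd
    rcases Nat.mod_two_eq_zero_or_one y with hy2 | hy2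
    · refine iff_of_false ?_ (by omega)
      exact kill hf (one y (y - 1) (by omega) (by omega) (by omega) (by omega) (by omega))
        (by omega) (by omega) (by omega) (by omega) (by omega)
    · refine iff_of_true ?_ (by omega)
      have hy5 : y = 2 * n + 5 := by omega
      subst hy5
      by_contra hno
      obtain ⟨p, q, r, s, hp, hq, hr, hs', hsum, hpa, hqb, hrx, hsy, hone⟩ :=
        hf.exists_pred (by omega) hno
      have k1 : ¬ f (6 * k + 10) (b + 25) (2 * n + 5) (2 * n + 4) :=
        kill hf (one (2 * n + 4) (2 * n + 3) (by omega) (by omega) (by omega) (by omega)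
          (by omega)) (by omega) (by omega) (by omega) (by omega) (by omega)
      have k2 : ¬ f (6 * k + 10) (b + 25) (2 * n + 4) (2 * n + 4) :=
        kill hf (one (2 * n + 4) (2 * n + 3) (by omega) (by omega) (by omega) (by omega)
          (by omega)) (by omega) (by omega) (by omega) (by omega) (by omega)
      have m0 : ¬ f (6 * k + 10) (b + 24) (2 * n + 5) (2 * n + 5) := by
        rw [w2 _ _ le_rfl (by omega) (by omega), fst2 (by omega) (by omega) le_rfl (by omega)]
        omega
      have m1 : ¬ f (6 * k + 10) (b + 24) (2 * n + 5) (2 * n + 4) := by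
        rw [w2 _ _ (by omega) (by omega) (by omega), fst2 (by omega) (by omega) (by omega)
          (by omega)]
        omega
      have m2 : ¬ f (6 * k + 10) (b + 24) (2 * n + 4) (2 * n + 4) := by
        rw [w2 _ _ le_rfl (by omega) (by omega), fst2 (by omega) (by omega) le_rfl (by omega)]
        omega
      -- the odd layer below, row `b + 24`
      have p44 : ¬ f (6 * k + 9) (b + 24) (2 * n + 4) (2 * n + 4) := by
        have h1 : f (6 * k + 8) (b + 23) (2 * n + 3) (2 * n + 3) := by
          rw [show b + 23 = b + 20 + 3 by omega, M.C8.w3s _ _ le_rfl (by omega) (by omega),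
            fst3 (by omega) (by omega) (by omega) le_rfl (by omega)]
          omega
        exact kill hf h1 (by omega) (by omega) (by omega) (by omega) (by omega)
      have p54 : ¬ f (6 * k + 9) (b + 24) (2 * n + 5) (2 * n + 4) := by
        intro h
        exact kill hf h (by omega) (by omega) (by omega) (by omega) (by omega)
          (one (2 * n + 6) (2 * n + 5) (by omega) (by omega) (by omega) (by omega) (by omega))
      have p55 : ¬ f (6 * k + 9) (b + 24) (2 * n + 5) (2 * n + 5) := by
        intro h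
        exact kill hf h (by omega) (by omega) (by omega) (by omega) (by omega)
          (one (2 * n + 6) (2 * n + 5) (by omega) (by omega) (by omega) (by omega) (by omega))
      have q54 : ¬ f (6 * k + 9) (b + 25) (2 * n + 5) (2 * n + 4) := by
        have h1 : f (6 * k + 8) (b + 22) (2 * n + 4) (2 * n + 3) := by
          rw [show b + 22 = b + 20 + 2 by omega, M.C8.w2s _ _ (by omega) (by omega) (by omega),
            fst2 (by omega) (by omega) (by omega) (by omega)]
          omega
        intro h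
        exact LocG.sand_b hf h1 (by omega) (mv h (by omega) (by omega) (by omega) (by omega))
      rcases Nat.eq_zero_or_pos p with hp0 | hp0
      · subst hp0
        rcases Nat.eq_zero_or_pos q with hq0 | hq0
        · subst hq0
          simp only [Nat.sub_zero] at hone
          have hrs : (r = 0 ∧ s = 1) ∨ (r = 1 ∧ s = 0) ∨ (r = 1 ∧ s = 1) := by omega
          rcases hrs with ⟨rfl, rfl⟩ | ⟨rfl, rfl⟩ | ⟨rfl, rfl⟩
          · exact k1 (mv hone rfl rfl (by omega) (by omega))
          · rw [hf.swap_xy] at hone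
            exact k1 (mv hone rfl rfl (by omega) (by omega))
          · exact k2 (mv hone rfl rfl (by omega) (by omega))
        · rw [show b + 25 - q = b + 24 by omega, Nat.sub_zero] at hone
          have hrs : (r = 0 ∧ s = 0) ∨ (r = 0 ∧ s = 1) ∨ (r = 1 ∧ s = 0) ∨ (r = 1 ∧ s = 1) := by
            omega
          rcases hrs with ⟨rfl, rfl⟩ | ⟨rfl, rfl⟩ | ⟨rfl, rfl⟩ | ⟨rfl, rfl⟩
          · exact m0 (mv hone rfl rfl (by omega) (by omega))
          · exact m1 (mv hone rfl rfl (by omega) (by omega))
          · rw [hf.swap_xy] at hone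
            exact m1 (mv hone rfl rfl (by omega) (by omega))
          · exact m2 (mv hone rfl rfl (by omega) (by omega))
      · have hp1 : p = 1 := by omega
        subst hp1
        rw [show 6 * k + 10 - 1 = 6 * k + 9 by omega] at hone
        have hrs : (r = 0 ∧ s = 0) ∨ (r = 0 ∧ s = 1) ∨ (r = 1 ∧ s = 0) ∨ (r = 1 ∧ s = 1) := by
          omega
        rcases Nat.eq_zero_or_pos q with hq0 | hq0
        · subst hq0
          rw [Nat.sub_zero] at hone
          rcases hrs with ⟨rfl, rfl⟩ | ⟨rfl, rfl⟩ | ⟨rfl, rfl⟩ | ⟨rfl, rfl⟩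
          · exact hz4 (mv hone rfl rfl (by omega) (by omega))
          · exact q54 (mv hone rfl rfl (by omega) (by omega))
          · rw [hf.swap_xy] at hone
            exact q54 (mv hone rfl rfl (by omega) (by omega))
          · exact hz3 (mv hone rfl rfl (by omega) (by omega))
        · rw [show b + 25 - q = b + 24 by omega] at hone
          rcases hrs with ⟨rfl, rfl⟩ | ⟨rfl, rfl⟩ | ⟨rfl, rfl⟩ | ⟨rfl, rfl⟩
          · exact p55 (mv hone rfl rfl (by omega) (by omega))
          · exact p54 (mv hone rfl rfl (by omega) (by omega))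
          · rw [hf.swap_xy] at hone
            exact p54 (mv hone rfl rfl (by omega) (by omega))
          · exact p44 (mv hone rfl rfl (by omega) (by omega))
  · refine iff_of_false ?_ (by omega)
    rcases Nat.mod_two_eq_zero_or_one x with hx2 | hx2 <;>
      rcases Nat.mod_two_eq_zero_or_one y with hy2 | hy2
    · exact kill hf (one x (y - 1) (by omega) (by omega) (by omega) (by omega) (by omega))
        (by omega) (by omega) (by omega) (by omega) (by omega)
    · exact kill hf (one x y (by omega) (by omega) (by omega) (by omega) (by omega))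
        (by omega) (by omega) (by omega) (by omega) (by omega)
    · exact kill hf (one (x - 1) (y - 1) (by omega) (by omega) (by omega) (by omega) (by omega))
        (by omega) (by omega) (by omega) (by omega) (by omega)
    · exact kill hf (one (x - 1) y (by omega) (by omega) (by omega) (by omega) (by omega))
        (by omega) (by omega) (by omega) (by omega) (by omega)

/-- The row after the OUT row, all distances. -/
theorem w3x (hf : Rule f) (M : Mn f k b n)
    (hz1 : ¬ f (6 * k + 9) (b + 23) (2 * n + 4) (2 * n + 2 - 2 * k))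
    (hz2 : ¬ f (6 * k + 9) (b + 24) (2 * n + 6) (2 * n + 3 - 2 * k))
    (hz3 : ¬ f (6 * k + 9) (b + 25) (2 * n + 4) (2 * n + 4))
    (hz4 : ¬ f (6 * k + 9) (b + 25) (2 * n + 5) (2 * n + 5))
    (w0 : ∀ x y : ℕ, y ≤ x → 2 * n + 1 ≤ x → x + 1 ≤ y + 2 * k ∨ 2 * n + 3 ≤ x →
      (f (6 * k + 10) (b + 22) x y ↔ Fst (6 * k + 10) (b + 22) x y))
    (L2 : ∀ x y : ℕ, y ≤ x → x ≤ y + 2 * k + 1 → y = 2 * n + 2 ∨ y = 2 * n + 3 →
      (f (6 * k + 10) (b + 24) x y ↔ Fst (6 * k + 10) (b + 24) x y)) {x y : ℕ} (hyx : y ≤ x)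
    (hx : 2 * n + 2 * k + 6 ≤ x) :
    f (6 * k + 10) (b + 25) x y ↔ Fst (6 * k + 10) (b + 25) x y := by
  have k1 := M.K.hk
  have k2 := M.K.hb
  have k3 := M.K.ph
  have k4 := M.K.big
  have k5 := M.K.hn
  rcases Nat.lt_or_ge x (2 * n + 2 * k + 8) with h9 | h9
  swap
  · exact M.C.w3x x y hyx (by omega)
  rcases Nat.lt_or_ge (y + 2 * k + 1) x with hd | hd
  swap
  · exact w3s hf M hz3 hz4 L2 hyx hd (by omega)
  rcases Nat.lt_or_ge (2 * x) (2 * y + b) with hnr | hnr
  swap
  · exact M.fr 25 x y (by omega) (by omega) (by omega) (by omega)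
  refine LocG.ext_gen hf (D := 2 * k + 1) (by omega) (by omega) (by omega) (by omega)
    (by omega) (by omega) (by omega) ?_ ?_
  · intro u v h1 h2 h3 h4
    rw [show b + 25 - 1 = b + 24 by omega]
    rcases Nat.lt_or_ge u (v + 2 * k + 2) with h5 | h5
    · exact w2s M L2 (by omega) (by omega) (by omega)
    · exact w2x hf M hz1 hz2 w0 h5 (by omega)
  · intro hres q r s hq hr hs' hz
    rw [show 6 * k + 10 - 1 = 6 * k + 9 by omega] at hz
    have hdv : (6 * k + 10) / 6 = k + 1 := by omega
    rw [hdv] at hres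
    have g2 : ∀ u v : ℕ, v ≤ u → v + 2 * k + 1 ≤ u → 2 * n + 2 * k + 3 ≤ u →
        u ≤ v + 2 * k + 2 + b → (6 * k + 8 + (b + 24) + u + v) % 4 = (3 + 2 * k) % 4 →
        2 * u < 2 * v + b + 20 → f (6 * k + 8) (b + 24) u v := by
      intro u v h1 h2 h3 _ h4 h5
      rw [M.C8n.w0 u v h1 (by omega) (by omega),
        LocG.fst_ext (by omega) (by omega) h1 (by omega) (by omega)]
      omega
    have hrs : (r = 0 ∧ s = 0) ∨ (r = 0 ∧ s = 1) ∨ (r = 1 ∧ s = 0) ∨ (r = 1 ∧ s = 1) := by
      omega
    have hq2 : b + 25 - q = b + 24 ∨ b + 25 - q = b + 25 := by omega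
    rcases hrs with ⟨rfl, rfl⟩ | ⟨rfl, rfl⟩ | ⟨rfl, rfl⟩ | ⟨rfl, rfl⟩
    · exact kill hf (g2 x (y - 1) (by omega) (by omega) (by omega) (by omega) (by omega)
        (by omega)) (by omega) (by omega) (by omega) (by omega) (by omega) hz
    · exact kill hf (g2 x (y - 1) (by omega) (by omega) (by omega) (by omega) (by omega)
        (by omega)) (by omega) (by omega) (by omega) (by omega) (by omega) hz
    · exact kill hf (g2 (x - 1) y (by omega) (by omega) (by omega) (by omega) (by omega)
        (by omega)) (by omega) (by omega) (by omega) (by omega) (by omega) hz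
    · rcases hq2 with h | h
      · rw [h] at hz
        have h1 : f (6 * k + 8) (b + 23) (x - 2) (y - 2) := by
          rw [show b + 23 = b + 20 + 3 by omega, M.C8.w3x _ _ (by omega) (by omega),
            LocG.fst_ext (by omega) (by omega) (by omega) (by omega) (by omega)]
          omega
        exact kill hf h1 (by omega) (by omega) (by omega) (by omega) (by omega) hz
      · rw [h] at hz
        have h1 : f (6 * k + 8) (b + 25) (x - 1) (y - 1) := by
          rw [show b + 25 = b + 24 + 1 by omega, M.C8n.w1 _ _ (by omega) (by omega) (by omega),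
            LocG.fst_ext (by omega) (by omega) (by omega) (by omega) (by omega)]
          omega
        exact kill hf h1 (by omega) (by omega) (by omega) (by omega) (by omega) hz

/-- The profile of the level `n - 1`. -/
theorem cw (hf : Rule f) (M : Mn f k b n)
    (hz1 : ¬ f (6 * k + 9) (b + 23) (2 * n + 4) (2 * n + 2 - 2 * k))
    (hz2 : ¬ f (6 * k + 9) (b + 24) (2 * n + 6) (2 * n + 3 - 2 * k))
    (hz3 : ¬ f (6 * k + 9) (b + 25) (2 * n + 4) (2 * n + 4))
    (hz4 : ¬ f (6 * k + 9) (b + 25) (2 * n + 5) (2 * n + 5))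
    (L0 : ∀ x y : ℕ, y ≤ x → x + 1 ≤ y + 2 * k → x = 2 * n + 1 ∨ x = 2 * n + 2 →
      (f (6 * k + 10) (b + 22) x y ↔ Fst (6 * k + 10) (b + 22) x y))
    (L2 : ∀ x y : ℕ, y ≤ x → x ≤ y + 2 * k + 1 → y = 2 * n + 2 ∨ y = 2 * n + 3 →
      (f (6 * k + 10) (b + 24) x y ↔ Fst (6 * k + 10) (b + 24) x y)) {n' : ℕ}
    (hn' : n' + 1 = n) : Cw f (6 * k + 10) (b + 22) n' := by
  have k1 := M.K.hk
  have hdv : (6 * k + 10) / 6 = k + 1 := by omega
  have w0 : ∀ x y : ℕ, y ≤ x → 2 * n + 1 ≤ x → x + 1 ≤ y + 2 * k ∨ 2 * n + 3 ≤ x →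
      (f (6 * k + 10) (b + 22) x y ↔ Fst (6 * k + 10) (b + 22) x y) :=
    fun x y h1 h2 h3 => w0all hf M L0 h1 h2 h3
  refine ⟨?_, ?_, ?_, ?_, ?_, ?_⟩
  · intro x y hyx hx hc
    exact w0 x y hyx (by omega) (by omega)
  · intro x y hyx hx hc
    exact w1all hf M hz1 w0 hyx (by omega) (by omega)
  · intro x y hyx hs hy
    exact w2s M L2 hyx (by omega) (by omega)
  · intro x y hd hx
    exact w2x hf M hz1 hz2 w0 (by omega) (by omega)
  · intro x y hyx hs hy
    exact w3s hf M hz3 hz4 L2 hyx (by omega) (by omega)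
  · intro x y hyx hx
    exact w3x hf M hz1 hz2 hz3 hz4 w0 L2 hyx (by omega)

end Mn

end Pool.Agent.SNT.ZTw

namespace Pool.Agent.SNT.S6

open Pool.Agent.SNT.LW Pool.Agent.SNT.ZTw

/-- What is left of the location of the leader `6 k + 10`; `n` is its lead at `b + 22`. -/
structure TopMin (f : ℕ → ℕ → ℕ → ℕ → Prop) (k b n : ℕ) : Prop where
  I : Imp f k b n
  z1 : ¬ f (6 * k + 9) (b + 23) (2 * n + 4) (2 * n + 2 - 2 * k)
  z2 : ¬ f (6 * k + 9) (b + 24) (2 * n + 6) (2 * n + 3 - 2 * k)
  z3 : ¬ f (6 * k + 9) (b + 25) (2 * n + 4) (2 * n + 4)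
  z4 : ¬ f (6 * k + 9) (b + 25) (2 * n + 5) (2 * n + 5)
  L0 : ∀ x y : ℕ, y ≤ x → x + 1 ≤ y + 2 * k → x = 2 * n + 1 ∨ x = 2 * n + 2 →
    (f (6 * k + 10) (b + 22) x y ↔ Fst (6 * k + 10) (b + 22) x y)
  L2 : ∀ x y : ℕ, y ≤ x → x ≤ y + 2 * k + 1 → y = 2 * n + 2 ∨ y = 2 * n + 3 →
    (f (6 * k + 10) (b + 24) x y ↔ Fst (6 * k + 10) (b + 24) x y)

/-- The location of the leader `6 k + 10` from the two strips, four cells of the layer `6 k + 9`
and the improved leads of the layers `6 k` and `6 k + 2`. -/
theorem locR10_min {f : ℕ → ℕ → ℕ → ℕ → Prop} (hf : Rule f) {k : ℕ}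
    (H : ∀ b m : ℕ, Side k b m → Stack6 f k b m 0 0 0 0 0 1 →
      f (6 * k + 10) (b + 22) (2 * (m + 9 + (k + 2) * 4) + 1) (2 * (m + 9 + (k + 2) * 4)) →
      TopMin f k b (m + 9 + (k + 2) * 4)) : LocR10 f k := by
  intro b m hs S hno tip
  obtain ⟨I, z1, z2, z3, z4, L0, L2⟩ := H b m hs S tip
  exact hno (Mn.cw hf (Mn.of hs S rfl I) z1 z2 z3 z4 L0 L2 (by omega))

end Pool.Agent.SNT.S6
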