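import Pool.Agent.SNT.LL0
import Pool.Agent.SNT.LocMin3
import Pool.Agent.SNT.LocL2
import Pool.Agent.SNT.LR10
import Pool.Agent.SNT.D1Ind

set_option autoImplicit false

/-! The location of the top leader `6 k + 10` over `StackB`, from the steps of the improved leads and ten single cells. -/

namespace Pool.Agent.SNT

open Pool.Agent.SNT.LRI Pool.Agent.SNT.LW

variable {f : ℕ → ℕ → ℕ → ℕ → Prop} {k b m : ℕ}

/-- The windows of all cycles with the improved leads. -/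
def StackW (f : ℕ → ℕ → ℕ → ℕ → Prop) (k b m : ℕ) : Prop :=
  ∀ j : ℕ, Win f k (b + 4 * j) (m + (k + 2) * j) (D1.nn k m j)

theorem StackW.shift (S : StackW f k b m) (i : ℕ) : StackW f k (b + 4 * i) (m + (k + 2) * i) := by
  intro j
  have h := S (i + j)
  rw [show b + 4 * (i + j) = b + 4 * i + 4 * j by ring,
    show m + (k + 2) * (i + j) = m + (k + 2) * i + (k + 2) * j by ring] at h
  rw [D1.nn_shift]
  exact h

/-- the windows of `StackB`, the cycle `25` is the window itself -/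
theorem StackB.wins (H : D1.Steps f k 0 1) (S : StackB f k b m 0 0 0 0 0 1) (hk : 8 ≤ k) :
    ∃ b0 m0 : ℕ, b = b0 + 4 * 25 ∧ m = m0 + (k + 2) * 25 ∧ StackW f k b0 m0 := by
  obtain ⟨b0, m0, rfl, rfl, S'⟩ := S
  obtain ⟨q0, q2, q4⟩ := D1.all H S' hk
  refine ⟨b0 + 4 * (6 * k + 35), m0 + (k + 2) * (6 * k + 35), by ring, by ring, fun j => ?_⟩
  obtain ⟨hs, St⟩ := S'.shift (6 * k + 35) j
  have e : D1.nn k (m0 + (k + 2) * (6 * k + 35)) j = D1.nn k m0 (6 * k + 35 + j) := D1.nn_shift k m0 (6 * k + 35) j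
  have e4 : b0 + 4 * (6 * k + 35) + 4 * j = b0 + 4 * (6 * k + 35 + j) := by ring
  exact {
    hs := hs
    S := St
    hn := rfl
    d0 := D1.cyc_of_eq (q0 (6 * k + 35 + j) (by omega)) (by rw [e4]) (by rw [e]; omega)
    d2 := D1.cyc_of_eq (q2 (6 * k + 35 + j) (by omega)) (by rw [e4]) (by rw [e]; omega)
    d4 := D1.cyc_of_eq (q4 (6 * k + 35 + j) (by omega)) (by rw [e4]) (by rw [e]) }

/-- the improved leads of two cycles -/
theorem StackW.imp (S : StackW f k b m) : NDB.Imp f k b (D1.nn k m 0) := by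
  have W := S 0
  have W' := S 1
  have e1 : D1.nn k m 1 = D1.nn k m 0 + k + 2 := by unfold D1.nn; ring
  exact {
    a0 := D1.cyc_of_eq W.d0 (by ring) rfl
    b0 := D1.cyc_of_eq W'.d0 (by ring) (by rw [e1]; omega)
    a2 := D1.cyc_of_eq W.d2 (by ring) rfl
    b2 := D1.cyc_of_eq W'.d2 (by ring) (by rw [e1]; omega)
    a4 := D1.cyc_of_eq W.d4 (by ring) rfl
    b4 := D1.cyc_of_eq W'.d4 (by ring) (by rw [e1]) }

/-- the chain in every cycle `j ≥ 1` -/
theorem StackW.inp (hf : Rule f) (S : StackW f k b m) (j : ℕ) :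
    LineR0.In f (6 * k) (b + 4 * (j + 1) + 22) (D1.nn k m (j + 1)) (D1.nn k m (j + 1) + 2 - k) (D1.nn k m (j + 1) - 5)
      (D1.nn k m (j + 1) - 4) :=
  (S (j + 1)).inp hf (S j) (by ring) (by ring)

/-- The cells of `P_(6k+9)` which are not local. -/
structure Cells10 (f : ℕ → ℕ → ℕ → ℕ → Prop) (k b n : ℕ) : Prop where
  wall : Wall9 f k (b + 22) n
  z1 : ¬ f (6 * k + 9) (b + 23) (2 * n + 4) (2 * n + 2 - 2 * k)
  z2 : ¬ f (6 * k + 9) (b + 24) (2 * n + 6) (2 * n + 3 - 2 * k)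
  z3 : ¬ f (6 * k + 9) (b + 25) (2 * n + 4) (2 * n + 4)
  z4 : ¬ f (6 * k + 9) (b + 25) (2 * n + 5) (2 * n + 5)

/-- **The profile of the level `n - 1`.** -/
theorem StackW.cw (hf : Rule f) (S : StackW f k b m) (O : Cells10 f k (b + 4 * 1) (D1.nn k m 1))
    (tip : f (6 * k + 10) (b + 4 * 1 + 22) (2 * D1.nn k m 1 + 1) (2 * D1.nn k m 1)) :
    Cw f (6 * k + 10) (b + 4 * 1 + 22) (D1.nn k m 1 - 1) := by
  have W := S 1
  have W' := S 0
  have I := (S.shift 1).imp
  have e0 : D1.nn k (m + (k + 2) * 1) 0 = D1.nn k m 1 := D1.nn_shift k m 1 0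
  rw [e0] at I
  have hn : D1.nn k m 1 = m + (k + 2) * 1 + 9 + (k + 2) * 4 := rfl
  refine ZTw.Mn.cw hf (ZTw.Mn.of W.hs W.S W.hn ⟨W.d2, W.d0⟩) O.z1 O.z2 O.z3 O.z4 ?_ ?_ (by omega)
  · exact W.topL0 hf W' (by ring) (by ring) O.wall tip
  · rw [hn] at tip ⊢
    exact S6.topL2 hf W.hs W.S (fun i h1 h2 => NDB.noheal_stack hf W.hs W.S rfl I h1 h2) tip

namespace S6

/-- **The location of the top leader over `StackB`.** The cells are wanted in the cycle `25` of the windows with the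
improved leads. -/
theorem locR10A_of (hf : Rule f) (hk : 8 ≤ k) (H : D1.Steps f k 0 1)
    (O : ∀ b m : ℕ, StackW f k b m → Cells10 f k (b + 4 * 25) (D1.nn k m 25)) : LocR10A f k := by
  intro b m S hno tip
  obtain ⟨b0, m0, rfl, rfl, W⟩ := S.wins H hk
  have e : D1.nn k m0 25 = m0 + (k + 2) * 25 + 9 + (k + 2) * 4 := rfl
  have h := (W.shift 24).cw hf (by
    have := O b0 m0 W
    rw [D1.nn_shift]
    exact this) (by
    rw [D1.nn_shift, show 24 + 1 = 25 by norm_num, e]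
    exact tip)
  rw [D1.nn_shift, show 24 + 1 = 25 by norm_num, e] at h
  refine hno ?_
  have e2 : m0 + (k + 2) * 25 + 9 + (k + 2) * 4 - 1 = m0 + (k + 2) * 25 + 8 + (k + 2) * 4 := by omega
  rw [e2] at h
  exact h

end S6

end Pool.Agent.SNT
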