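import Pool.Agent.SNT.LRDef
import Pool.Agent.SNT.DRunI
import Pool.Agent.SNT.WrapC
import Pool.Agent.SNT.LL10

set_option autoImplicit false
set_option synthInstance.maxSize 1000
set_option linter.unusedVariables false

/-! The beam lemma: no beam in the column `2 n + 3` of the row `c` of the layer `6 k + 4`. -/

namespace Pool.Agent.SNT.NbL

open Pool.Agent.SNT Pool.Agent.SNT.Loc Pool.Agent.SNT.LW Pool.Agent.SNT.NHZ Pool.Agent.SNT.LRI Pool.Agent.SNT.DRun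

variable {f : ℕ → ℕ → ℕ → ℕ → Prop} {k b m c n : ℕ}

theorem nbA_win_chk : check 7 6 10 10 1 0 1 1 2
    (fun j n p q => decide (
      (j = 1 ∧ n = 1 ∧ p = 3 ∧ q = 3) ∨ (j = 1 ∧ n = 2 ∧ p = 5 ∧ q = 4) ∨ (j = 1 ∧ n = 3 ∧ p = 4 ∧ q = 4) ∨ (j = 3 ∧
      n = 1 ∧ p = 4 ∧ q = 4) ∨ (j = 3 ∧ n = 2 ∧ p = 2 ∧ q = 1) ∨ (j = 3 ∧ n = 4 ∧ p = 8 ∧ q = 5) ∨ (j = 5 ∧ n = 2 ∧ p
      = 5 ∧ q = 4) ∨ (j = 5 ∧ n = 2 ∧ p = 7 ∧ q = 4) ∨ (j = 5 ∧ n = 3 ∧ p = 4 ∧ q = 4) ∨ (j = 7 ∧ n = 4 ∧ p = 7 ∧ q =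
      4) ∨ (j = 7 ∧ n = 4 ∧ p = 7 ∧ q = 6)))
    (fun j n p q => decide (
      (j = 3 ∧ n = 3 ∧ p = 6 ∧ q = 4) ∨ (j = 4 ∧ n = 3 ∧ p = 5 ∧ q = 3) ∨ (j = 4 ∧ n = 3 ∧ p = 7 ∧ q = 4) ∨ (j = 4 ∧
      n = 3 ∧ p = 7 ∧ q = 5) ∨ (j = 4 ∧ n = 4 ∧ p = 5 ∧ q = 3) ∨ (j = 4 ∧ n = 4 ∧ p = 7 ∧ q = 4) ∨ (j = 4 ∧ n = 4 ∧ p
      = 7 ∧ q = 5) ∨ (j = 5 ∧ n = 4 ∧ p = 7 ∧ q = 4)))
    59
    0x59303046c00059dda06c40007f5da059303046c00059dda06c48006c48404358004358104350e059d83043500043504042a800556c2092200092100068800066500065b0004768003f28003ee0003cc0001d80001ab0001a680016e8009220f09210f06c98706c90706880f06650f065b0f059d87059d07059287056b87056b0705608704768f047187046687043a0704038703f88703f28f03f28e03f28f03cc0f01d80f01ab0f01ab0e01ab0f016e8f = true := by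
  decide +kernel

theorem nbA_win {f : ℕ → ℕ → ℕ → ℕ → Prop} (hf : Rule f) {a0 b0 x0 y0 : ℕ} (hxy : x0 = y0)
    (ha : a0 % 2 = 1) (hb : b0 % 2 = 0) (hx : x0 % 2 = 1) (hy : y0 % 2 = 1)
    (h1 : ∀ j n p q : ℕ, InR 7 6 10 10 1 j n p q → (
      (j = 1 ∧ n = 1 ∧ p = 3 ∧ q = 3) ∨ (j = 1 ∧ n = 2 ∧ p = 5 ∧ q = 4) ∨ (j = 1 ∧ n = 3 ∧ p = 4 ∧ q = 4) ∨ (j = 3 ∧
      n = 1 ∧ p = 4 ∧ q = 4) ∨ (j = 3 ∧ n = 2 ∧ p = 2 ∧ q = 1) ∨ (j = 3 ∧ n = 4 ∧ p = 8 ∧ q = 5) ∨ (j = 5 ∧ n = 2 ∧ p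
      = 5 ∧ q = 4) ∨ (j = 5 ∧ n = 2 ∧ p = 7 ∧ q = 4) ∨ (j = 5 ∧ n = 3 ∧ p = 4 ∧ q = 4) ∨ (j = 7 ∧ n = 4 ∧ p = 7 ∧ q =
      4) ∨ (j = 7 ∧ n = 4 ∧ p = 7 ∧ q = 6)) →
      f (a0 + j) (b0 + n) (x0 + p) (y0 + q))
    (h0 : ∀ j n p q : ℕ, InR 7 6 10 10 1 j n p q → (
      (j = 3 ∧ n = 3 ∧ p = 6 ∧ q = 4) ∨ (j = 4 ∧ n = 3 ∧ p = 5 ∧ q = 3) ∨ (j = 4 ∧ n = 3 ∧ p = 7 ∧ q = 4) ∨ (j = 4 ∧
      n = 3 ∧ p = 7 ∧ q = 5) ∨ (j = 4 ∧ n = 4 ∧ p = 5 ∧ q = 3) ∨ (j = 4 ∧ n = 4 ∧ p = 7 ∧ q = 4) ∨ (j = 4 ∧ n = 4 ∧ p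
      = 7 ∧ q = 5) ∨ (j = 5 ∧ n = 4 ∧ p = 7 ∧ q = 4)) →
      ¬ f (a0 + j) (b0 + n) (x0 + p) (y0 + q)) : False :=
  check_sound hf nbA_win_chk
    ⟨fun _ => hxy, fun h => absurd h (by decide),
      fun h => absurd h (by decide), ha, hb, hx, hy⟩
    (fun j n p q hr h => h1 j n p q hr (of_decide_eq_true h))
    (fun j n p q hr h => h0 j n p q hr (of_decide_eq_true h))

theorem nbA (hf : Rule f) (H : LI f k c n) (hF6 : F6 f k c n) (hB : f (6 * k + 4) c (2 * n + 3) (2 * n)) : ¬ f (6 * k + 4) (c - 2) (2 * n - 3) (2 * n - 4) := by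
  have hk := H.T.hk
  have hc := H.T.hc
  have h4 := H.T.h4
  have hb := H.T.hb
  have hN := H.T.hN2
  have l2_4 : Lay (6 * k + 2) (c - 4) k := ⟨by omega, by omega, by omega, by omega⟩
  have l4_6 : Lay (6 * k + 4) (c - 6) k := ⟨by omega, by omega, by omega, by omega⟩
  have l6_4 : Lay (6 * k + 6) (c - 4) (k + 1) := ⟨by omega, by omega, by omega, by omega⟩
  have l8_2 : Lay (6 * k + 8) (c - 2) (k + 1) := ⟨by omega, by omega, by omega, by omega⟩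
  intro hX
  refine nbA_win hf (a0 := 6 * k + 1) (b0 := c - 4) (x0 := 2 * n - 5) (y0 := 2 * n - 5) rfl
    (by omega) (by omega) (by omega) (by omega) ?_ ?_
  · intro j n' p q _ hx
    rcases hx with
      ⟨rfl, rfl, rfl, rfl⟩ | ⟨rfl, rfl, rfl, rfl⟩ | ⟨rfl, rfl, rfl, rfl⟩ | ⟨rfl, rfl, rfl, rfl⟩ | ⟨rfl, rfl, rfl,
      rfl⟩ | ⟨rfl, rfl, rfl, rfl⟩ | ⟨rfl, rfl, rfl, rfl⟩ | ⟨rfl, rfl, rfl, rfl⟩ | ⟨rfl, rfl, rfl, rfl⟩ | ⟨rfl, rfl,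
      rfl, rfl⟩ | ⟨rfl, rfl, rfl, rfl⟩
    · exact (v1 l2_4 H.a2 (by omega) (by omega) (by omega) (by omega) (by omega)).2 (by unfold V1; omega)
    · exact (v2s l2_4 H.a2 (by omega) (by omega) (by omega) (by omega) (by omega) (by omega)).2 (by unfold V2; omega)
    · exact (v3s l2_4 H.a2 (by omega) (by omega) (by omega) (by omega) (by omega) (by omega)).2 (by unfold V3; omega)
    · exact (v3s l4_6 H.b4 (by omega) (by omega) (by omega) (by omega) (by omega) (by omega)).2 (by unfold V3; omega)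
    · exact mv hX (by omega) (by omega) (by omega) (by omega)
    · exact mv hB (by omega) (by omega) (by omega) (by omega)
    · exact (v2s l6_4 H.a6 (by omega) (by omega) (by omega) (by omega) (by omega) (by omega)).2 (by unfold V2; omega)
    · exact (v2s l6_4 H.a6 (by omega) (by omega) (by omega) (by omega) (by omega) (by omega)).2 (by unfold V2; omega)
    · exact (v3s l6_4 H.a6 (by omega) (by omega) (by omega) (by omega) (by omega) (by omega)).2 (by unfold V3; omega)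
    · exact (w2s l8_2 H.a8 (by omega) (by omega) (by omega) (by omega) (by omega) (by omega)).2 (by unfold V2; omega)
    · exact (w2s l8_2 H.a8 (by omega) (by omega) (by omega) (by omega) (by omega) (by omega)).2 (by unfold V2; omega)
  · intro j n' p q _ hx
    rcases hx with
      ⟨rfl, rfl, rfl, rfl⟩ | ⟨rfl, rfl, rfl, rfl⟩ | ⟨rfl, rfl, rfl, rfl⟩ | ⟨rfl, rfl, rfl, rfl⟩ | ⟨rfl, rfl, rfl,
      rfl⟩ | ⟨rfl, rfl, rfl, rfl⟩ | ⟨rfl, rfl, rfl, rfl⟩ | ⟨rfl, rfl, rfl, rfl⟩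
    · exact fun t => H.T.rm1 hf (j := 1) (p := 0) (by omega) (by omega) (by omega) (by omega) (by omega) (by omega) (mv t rfl (by omega) rfl rfl)
    · exact fun t => H.T.rm1 hf (j := 1) (p := 1) (by omega) (by omega) (by omega) (by omega) (by omega) (by omega) (mv t rfl (by omega) rfl rfl)
    · exact fun t => H.T.rm1 hf (j := 1) (p := 1) (by omega) (by omega) (by omega) (by omega) (by omega) (by omega) (mv t rfl (by omega) rfl rfl)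
    · exact fun t => H.T.rm1 hf (j := 1) (p := 1) (by omega) (by omega) (by omega) (by omega) (by omega) (by omega) (mv t rfl (by omega) rfl rfl)
    · exact H.T.p0 hf (j := 1) (by omega) (by omega) (by omega) (by omega) (by omega) (by omega)
    · exact H.T.p0 hf (j := 1) (by omega) (by omega) (by omega) (by omega) (by omega) (by omega)
    · exact H.T.p0 hf (j := 1) (by omega) (by omega) (by omega) (by omega) (by omega) (by omega)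
    · exact fun t => hF6 (6 * k + 6) c (2 * n + 2) (2 * n - 1) rfl rfl rfl (by omega) (by omega) (by omega) (mv t (by omega) (by omega) (by omega) (by omega))

theorem nbB_win_chk : check 5 6 9 9 1 0 1 1 2
    (fun j n p q => decide (
      (j = 1 ∧ n = 1 ∧ p = 3 ∧ q = 3) ∨ (j = 1 ∧ n = 2 ∧ p = 5 ∧ q = 4) ∨ (j = 1 ∧ n = 3 ∧ p = 4 ∧ q = 4) ∨ (j = 3 ∧
      n = 1 ∧ p = 4 ∧ q = 4) ∨ (j = 3 ∧ n = 2 ∧ p = 2 ∧ q = 1) ∨ (j = 3 ∧ n = 4 ∧ p = 6 ∧ q = 3) ∨ (j = 5 ∧ n = 3 ∧ p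
      = 4 ∧ q = 4)))
    (fun j n p q => decide (
      (j = 3 ∧ n = 3 ∧ p = 6 ∧ q = 4) ∨ (j = 3 ∧ n = 3 ∧ p = 7 ∧ q = 4) ∨ (j = 3 ∧ n = 3 ∧ p = 7 ∧ q = 5) ∨ (j = 4 ∧
      n = 3 ∧ p = 6 ∧ q = 4) ∨ (j = 4 ∧ n = 3 ∧ p = 7 ∧ q = 4) ∨ (j = 4 ∧ n = 3 ∧ p = 7 ∧ q = 5) ∨ (j = 4 ∧ n = 4 ∧ p
      = 7 ∧ q = 5)))
    57
    0x48803036b80036b81036b0e049003036b00036b040361800454c2054c80039780038b80033380032f80031580018080015c80015880012a80054c8f04900704900e04900704678704670704628704678e04678704670e04670704628e046287039d0703978f03950703978e03978f037487037407036f8703748e03748703740e037407036f8e036f8703430703390703338f03338e03338f03158f01808f015c8f015c8e015c8f012a8f = true := by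
  decide +kernel

theorem nbB_win {f : ℕ → ℕ → ℕ → ℕ → Prop} (hf : Rule f) {a0 b0 x0 y0 : ℕ} (hxy : x0 = y0)
    (ha : a0 % 2 = 1) (hb : b0 % 2 = 0) (hx : x0 % 2 = 1) (hy : y0 % 2 = 1)
    (h1 : ∀ j n p q : ℕ, InR 5 6 9 9 1 j n p q → (
      (j = 1 ∧ n = 1 ∧ p = 3 ∧ q = 3) ∨ (j = 1 ∧ n = 2 ∧ p = 5 ∧ q = 4) ∨ (j = 1 ∧ n = 3 ∧ p = 4 ∧ q = 4) ∨ (j = 3 ∧
      n = 1 ∧ p = 4 ∧ q = 4) ∨ (j = 3 ∧ n = 2 ∧ p = 2 ∧ q = 1) ∨ (j = 3 ∧ n = 4 ∧ p = 6 ∧ q = 3) ∨ (j = 5 ∧ n = 3 ∧ p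
      = 4 ∧ q = 4)) →
      f (a0 + j) (b0 + n) (x0 + p) (y0 + q))
    (h0 : ∀ j n p q : ℕ, InR 5 6 9 9 1 j n p q → (
      (j = 3 ∧ n = 3 ∧ p = 6 ∧ q = 4) ∨ (j = 3 ∧ n = 3 ∧ p = 7 ∧ q = 4) ∨ (j = 3 ∧ n = 3 ∧ p = 7 ∧ q = 5) ∨ (j = 4 ∧
      n = 3 ∧ p = 6 ∧ q = 4) ∨ (j = 4 ∧ n = 3 ∧ p = 7 ∧ q = 4) ∨ (j = 4 ∧ n = 3 ∧ p = 7 ∧ q = 5) ∨ (j = 4 ∧ n = 4 ∧ p
      = 7 ∧ q = 5)) →
      ¬ f (a0 + j) (b0 + n) (x0 + p) (y0 + q)) : False :=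
  check_sound hf nbB_win_chk
    ⟨fun _ => hxy, fun h => absurd h (by decide),
      fun h => absurd h (by decide), ha, hb, hx, hy⟩
    (fun j n p q hr h => h1 j n p q hr (of_decide_eq_true h))
    (fun j n p q hr h => h0 j n p q hr (of_decide_eq_true h))

theorem nbB (hf : Rule f) (H : LI f k c n) (hB : f (6 * k + 4) c (2 * n + 3) (2 * n)) : ¬ f (6 * k + 4) (c - 2) (2 * n - 1) (2 * n - 2) := by
  have hk := H.T.hk
  have hc := H.T.hc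
  have h4 := H.T.h4
  have hb := H.T.hb
  have hN := H.T.hN2
  have l2_4 : Lay (6 * k + 2) (c - 4) k := ⟨by omega, by omega, by omega, by omega⟩
  have l4_6 : Lay (6 * k + 4) (c - 6) k := ⟨by omega, by omega, by omega, by omega⟩
  have l6_4 : Lay (6 * k + 6) (c - 4) (k + 1) := ⟨by omega, by omega, by omega, by omega⟩
  intro hX
  refine nbB_win hf (a0 := 6 * k + 1) (b0 := c - 4) (x0 := 2 * n - 3) (y0 := 2 * n - 3) rfl
    (by omega) (by omega) (by omega) (by omega) ?_ ?_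
  · intro j n' p q _ hx
    rcases hx with
      ⟨rfl, rfl, rfl, rfl⟩ | ⟨rfl, rfl, rfl, rfl⟩ | ⟨rfl, rfl, rfl, rfl⟩ | ⟨rfl, rfl, rfl, rfl⟩ | ⟨rfl, rfl, rfl,
      rfl⟩ | ⟨rfl, rfl, rfl, rfl⟩ | ⟨rfl, rfl, rfl, rfl⟩
    · exact (v1 l2_4 H.a2 (by omega) (by omega) (by omega) (by omega) (by omega)).2 (by unfold V1; omega)
    · exact (v2s l2_4 H.a2 (by omega) (by omega) (by omega) (by omega) (by omega) (by omega)).2 (by unfold V2; omega)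
    · exact (v3s l2_4 H.a2 (by omega) (by omega) (by omega) (by omega) (by omega) (by omega)).2 (by unfold V3; omega)
    · exact (v3s l4_6 H.b4 (by omega) (by omega) (by omega) (by omega) (by omega) (by omega)).2 (by unfold V3; omega)
    · exact mv hX (by omega) (by omega) (by omega) (by omega)
    · exact mv hB (by omega) (by omega) (by omega) (by omega)
    · exact (v3s l6_4 H.a6 (by omega) (by omega) (by omega) (by omega) (by omega) (by omega)).2 (by unfold V3; omega)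
  · intro j n' p q _ hx
    rcases hx with
      ⟨rfl, rfl, rfl, rfl⟩ | ⟨rfl, rfl, rfl, rfl⟩ | ⟨rfl, rfl, rfl, rfl⟩ | ⟨rfl, rfl, rfl, rfl⟩ | ⟨rfl, rfl, rfl,
      rfl⟩ | ⟨rfl, rfl, rfl, rfl⟩ | ⟨rfl, rfl, rfl, rfl⟩
    · exact fun t => H.T.rm1 hf (j := 1) (p := 0) (by omega) (by omega) (by omega) (by omega) (by omega) (by omega) (mv t rfl (by omega) rfl rfl)
    · exact fun t => H.T.rm1 hf (j := 1) (p := 0) (by omega) (by omega) (by omega) (by omega) (by omega) (by omega) (mv t rfl (by omega) rfl rfl)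
    · exact fun t => H.T.rm1 hf (j := 1) (p := 0) (by omega) (by omega) (by omega) (by omega) (by omega) (by omega) (mv t rfl (by omega) rfl rfl)
    · exact fun t => H.T.rm1 hf (j := 1) (p := 1) (by omega) (by omega) (by omega) (by omega) (by omega) (by omega) (mv t rfl (by omega) rfl rfl)
    · exact fun t => H.T.rm1 hf (j := 1) (p := 1) (by omega) (by omega) (by omega) (by omega) (by omega) (by omega) (mv t rfl (by omega) rfl rfl)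
    · exact fun t => H.T.rm1 hf (j := 1) (p := 1) (by omega) (by omega) (by omega) (by omega) (by omega) (by omega) (mv t rfl (by omega) rfl rfl)
    · exact H.T.p0 hf (j := 1) (by omega) (by omega) (by omega) (by omega) (by omega) (by omega)

theorem nbW8_win_chk : check 2 6 6 5 1 0 1 1 0
    (fun j n p q => decide (
      (j = 1 ∧ n = 2 ∧ p = 4 ∧ q = 3) ∨ (j = 1 ∧ n = 4 ∧ p = 2 ∧ q = 1)))
    (fun j n p q => decide (
      (j = 1 ∧ n = 1 ∧ p = 1 ∧ q = 1) ∨ (j = 1 ∧ n = 1 ∧ p = 2 ∧ q = 1) ∨ (j = 1 ∧ n = 1 ∧ p = 2 ∧ q = 2) ∨ (j = 1 ∧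
      n = 1 ∧ p = 2 ∧ q = 3) ∨ (j = 1 ∧ n = 4 ∧ p = 2 ∧ q = 3) ∨ (j = 2 ∧ n = 1 ∧ p = 1 ∧ q = 1) ∨ (j = 2 ∧ n = 1 ∧ p
      = 1 ∧ q = 2) ∨ (j = 2 ∧ n = 1 ∧ p = 2 ∧ q = 1) ∨ (j = 2 ∧ n = 1 ∧ p = 2 ∧ q = 2) ∨ (j = 2 ∧ n = 1 ∧ p = 2 ∧ q =
      3) ∨ (j = 2 ∧ n = 1 ∧ p = 3 ∧ q = 2) ∨ (j = 2 ∧ n = 1 ∧ p = 3 ∧ q = 3) ∨ (j = 2 ∧ n = 2 ∧ p = 1 ∧ q = 1) ∨ (j =
      2 ∧ n = 2 ∧ p = 1 ∧ q = 2) ∨ (j = 2 ∧ n = 2 ∧ p = 2 ∧ q = 1) ∨ (j = 2 ∧ n = 2 ∧ p = 2 ∧ q = 2) ∨ (j = 2 ∧ n = 2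
      ∧ p = 2 ∧ q = 3) ∨ (j = 2 ∧ n = 2 ∧ p = 3 ∧ q = 2) ∨ (j = 2 ∧ n = 2 ∧ p = 3 ∧ q = 3) ∨ (j = 2 ∧ n = 4 ∧ p = 2 ∧
      q = 3) ∨ (j = 2 ∧ n = 4 ∧ p = 3 ∧ q = 3)))
    36
    0xf903007d8000d84a007e8000db5200f903007e00007e04009b8000838000f90700f68700db0700da8700d88700d80700d78700d58700d50700cc0700cb8700c98700c90700c88700c68700c607009f07009c87009b8f00838f008107007b07006f87006f07006e87006c07 = true := by
  decide +kernel

theorem nbW8_win {f : ℕ → ℕ → ℕ → ℕ → Prop} (hf : Rule f) {a0 b0 x0 y0 : ℕ}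
    (ha : a0 % 2 = 1) (hb : b0 % 2 = 0) (hx : x0 % 2 = 1) (hy : y0 % 2 = 1)
    (h1 : ∀ j n p q : ℕ, InR 2 6 6 5 1 j n p q → (
      (j = 1 ∧ n = 2 ∧ p = 4 ∧ q = 3) ∨ (j = 1 ∧ n = 4 ∧ p = 2 ∧ q = 1)) →
      f (a0 + j) (b0 + n) (x0 + p) (y0 + q))
    (h0 : ∀ j n p q : ℕ, InR 2 6 6 5 1 j n p q → (
      (j = 1 ∧ n = 1 ∧ p = 1 ∧ q = 1) ∨ (j = 1 ∧ n = 1 ∧ p = 2 ∧ q = 1) ∨ (j = 1 ∧ n = 1 ∧ p = 2 ∧ q = 2) ∨ (j = 1 ∧
      n = 1 ∧ p = 2 ∧ q = 3) ∨ (j = 1 ∧ n = 4 ∧ p = 2 ∧ q = 3) ∨ (j = 2 ∧ n = 1 ∧ p = 1 ∧ q = 1) ∨ (j = 2 ∧ n = 1 ∧ p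
      = 1 ∧ q = 2) ∨ (j = 2 ∧ n = 1 ∧ p = 2 ∧ q = 1) ∨ (j = 2 ∧ n = 1 ∧ p = 2 ∧ q = 2) ∨ (j = 2 ∧ n = 1 ∧ p = 2 ∧ q =
      3) ∨ (j = 2 ∧ n = 1 ∧ p = 3 ∧ q = 2) ∨ (j = 2 ∧ n = 1 ∧ p = 3 ∧ q = 3) ∨ (j = 2 ∧ n = 2 ∧ p = 1 ∧ q = 1) ∨ (j =
      2 ∧ n = 2 ∧ p = 1 ∧ q = 2) ∨ (j = 2 ∧ n = 2 ∧ p = 2 ∧ q = 1) ∨ (j = 2 ∧ n = 2 ∧ p = 2 ∧ q = 2) ∨ (j = 2 ∧ n = 2
      ∧ p = 2 ∧ q = 3) ∨ (j = 2 ∧ n = 2 ∧ p = 3 ∧ q = 2) ∨ (j = 2 ∧ n = 2 ∧ p = 3 ∧ q = 3) ∨ (j = 2 ∧ n = 4 ∧ p = 2 ∧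
      q = 3) ∨ (j = 2 ∧ n = 4 ∧ p = 3 ∧ q = 3)) →
      ¬ f (a0 + j) (b0 + n) (x0 + p) (y0 + q)) : False :=
  check_sound hf nbW8_win_chk
    ⟨fun h => absurd h (by decide), fun h => absurd h (by decide),
      fun h => absurd h (by decide), ha, hb, hx, hy⟩
    (fun j n p q hr h => h1 j n p q hr (of_decide_eq_true h))
    (fun j n p q hr h => h0 j n p q hr (of_decide_eq_true h))

theorem nbW8 (hf : Rule f) (H : LI f k c n) (C4 : Cyc f (6 * k + 4) (c - 6) (2 * (n - k - 1) + 2)) (hB : ¬ f (6 * k + 4) c (2 * n + 3) (2 * n - 2 * k + 8)) : ¬ f (6 * k + 4) c (2 * n + 3) (2 * n - 2 * k + 6) := by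
  have hk := H.T.hk
  have hc := H.T.hc
  have h4 := H.T.h4
  have hb := H.T.hb
  have hN := H.T.hN2
  have l4_6 : Lay (6 * k + 4) (c - 6) k := ⟨by omega, by omega, by omega, by omega⟩
  have l4_2 : Lay (6 * k + 4) (c - 2) k := ⟨by omega, by omega, by omega, by omega⟩
  intro hX
  refine nbW8_win hf (a0 := 6 * k + 3) (b0 := c - 4) (x0 := 2 * n + 1) (y0 := 2 * n - 2 * k + 5)
    (by omega) (by omega) (by omega) (by omega) ?_ ?_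
  · intro j n' p q _ hx
    rcases hx with
      ⟨rfl, rfl, rfl, rfl⟩ | ⟨rfl, rfl, rfl, rfl⟩
    · exact (v0 l4_2 H.a4 (by omega) (by omega) (by omega) (by omega) (by omega)).2 (by unfold V0; omega)
    · exact mv hX (by omega) (by omega) (by omega) (by omega)
  · intro j n' p q _ hx
    rcases hx with
      ⟨rfl, rfl, rfl, rfl⟩ | ⟨rfl, rfl, rfl, rfl⟩ | ⟨rfl, rfl, rfl, rfl⟩ | ⟨rfl, rfl, rfl, rfl⟩ | ⟨rfl, rfl, rfl,
      rfl⟩ | ⟨rfl, rfl, rfl, rfl⟩ | ⟨rfl, rfl, rfl, rfl⟩ | ⟨rfl, rfl, rfl, rfl⟩ | ⟨rfl, rfl, rfl, rfl⟩ | ⟨rfl, rfl,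
      rfl, rfl⟩ | ⟨rfl, rfl, rfl, rfl⟩ | ⟨rfl, rfl, rfl, rfl⟩ | ⟨rfl, rfl, rfl, rfl⟩ | ⟨rfl, rfl, rfl, rfl⟩ | ⟨rfl,
      rfl, rfl, rfl⟩ | ⟨rfl, rfl, rfl, rfl⟩ | ⟨rfl, rfl, rfl, rfl⟩ | ⟨rfl, rfl, rfl, rfl⟩ | ⟨rfl, rfl, rfl, rfl⟩ |
      ⟨rfl, rfl, rfl, rfl⟩ | ⟨rfl, rfl, rfl, rfl⟩
    · exact fun t => absurd ((v3s l4_6 C4 (by omega) (by omega) (by omega) (by omega) (by omega) (by omega)).1 t) (by unfold V3; omega)
    · exact fun t => absurd ((v3s l4_6 C4 (by omega) (by omega) (by omega) (by omega) (by omega) (by omega)).1 t) (by unfold V3; omega)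
    · exact fun t => absurd ((v3s l4_6 C4 (by omega) (by omega) (by omega) (by omega) (by omega) (by omega)).1 t) (by unfold V3; omega)
    · exact fun t => absurd ((v3s l4_6 C4 (by omega) (by omega) (by omega) (by omega) (by omega) (by omega)).1 t) (by unfold V3; omega)
    · exact fun t => hB (mv t (by omega) (by omega) (by omega) (by omega))
    · exact H.T.rIn hf (t := 3) (j := 1) (p := 1) (by omega) (by omega) (by omega) (by omega) (by omega) (by omega) (by omega) (by omega)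
    · exact H.T.rIn hf (t := 3) (j := 1) (p := 1) (by omega) (by omega) (by omega) (by omega) (by omega) (by omega) (by omega) (by omega)
    · exact H.T.rIn hf (t := 3) (j := 1) (p := 1) (by omega) (by omega) (by omega) (by omega) (by omega) (by omega) (by omega) (by omega)
    · exact H.T.rIn hf (t := 3) (j := 1) (p := 1) (by omega) (by omega) (by omega) (by omega) (by omega) (by omega) (by omega) (by omega)
    · exact H.T.rIn hf (t := 3) (j := 1) (p := 1) (by omega) (by omega) (by omega) (by omega) (by omega) (by omega) (by omega) (by omega)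
    · exact H.T.rIn hf (t := 3) (j := 1) (p := 1) (by omega) (by omega) (by omega) (by omega) (by omega) (by omega) (by omega) (by omega)
    · exact H.T.rIn hf (t := 3) (j := 1) (p := 1) (by omega) (by omega) (by omega) (by omega) (by omega) (by omega) (by omega) (by omega)
    · exact H.T.pmi hf (j := 1) (by omega) (by omega) (by omega) (by omega) (by omega) (by omega)
    · exact H.T.pmi hf (j := 1) (by omega) (by omega) (by omega) (by omega) (by omega) (by omega)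
    · exact H.T.pmi hf (j := 1) (by omega) (by omega) (by omega) (by omega) (by omega) (by omega)
    · exact H.T.pmi hf (j := 1) (by omega) (by omega) (by omega) (by omega) (by omega) (by omega)
    · exact H.T.pmi hf (j := 1) (by omega) (by omega) (by omega) (by omega) (by omega) (by omega)
    · exact H.T.pmi hf (j := 1) (by omega) (by omega) (by omega) (by omega) (by omega) (by omega)
    · exact H.T.pmi hf (j := 1) (by omega) (by omega) (by omega) (by omega) (by omega) (by omega)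
    · exact H.T.p0i hf (j := 2) (by omega) (by omega) (by omega) (by omega) (by omega) (by omega)
    · exact H.T.p0i hf (j := 2) (by omega) (by omega) (by omega) (by omega) (by omega) (by omega)

theorem nbW6_win_chk : check 7 6 8 7 1 0 1 1 0
    (fun j n p q => decide (
      (j = 1 ∧ n = 2 ∧ p = 4 ∧ q = 3) ∨ (j = 1 ∧ n = 4 ∧ p = 2 ∧ q = 1) ∨ (j = 5 ∧ n = 2 ∧ p = 2 ∧ q = 1) ∨ (j = 5 ∧
      n = 2 ∧ p = 2 ∧ q = 3) ∨ (j = 5 ∧ n = 2 ∧ p = 4 ∧ q = 3) ∨ (j = 5 ∧ n = 2 ∧ p = 4 ∧ q = 5) ∨ (j = 7 ∧ n = 4 ∧ p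
      = 4 ∧ q = 3) ∨ (j = 7 ∧ n = 4 ∧ p = 4 ∧ q = 5) ∨ (j = 7 ∧ n = 4 ∧ p = 6 ∧ q = 5)))
    (fun j n p q => decide (
      (j = 1 ∧ n = 1 ∧ p = 1 ∧ q = 1) ∨ (j = 1 ∧ n = 1 ∧ p = 2 ∧ q = 1) ∨ (j = 1 ∧ n = 1 ∧ p = 2 ∧ q = 2) ∨ (j = 1 ∧
      n = 1 ∧ p = 2 ∧ q = 3) ∨ (j = 1 ∧ n = 4 ∧ p = 2 ∧ q = 3) ∨ (j = 2 ∧ n = 1 ∧ p = 2 ∧ q = 3) ∨ (j = 2 ∧ n = 2 ∧ p
      = 2 ∧ q = 3) ∨ (j = 3 ∧ n = 1 ∧ p = 1 ∧ q = 1) ∨ (j = 3 ∧ n = 1 ∧ p = 1 ∧ q = 2) ∨ (j = 3 ∧ n = 1 ∧ p = 2 ∧ q =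
      1) ∨ (j = 3 ∧ n = 1 ∧ p = 2 ∧ q = 2) ∨ (j = 3 ∧ n = 1 ∧ p = 2 ∧ q = 3) ∨ (j = 3 ∧ n = 1 ∧ p = 3 ∧ q = 2) ∨ (j =
      3 ∧ n = 1 ∧ p = 3 ∧ q = 3) ∨ (j = 3 ∧ n = 1 ∧ p = 3 ∧ q = 4) ∨ (j = 3 ∧ n = 1 ∧ p = 4 ∧ q = 2) ∨ (j = 3 ∧ n = 1
      ∧ p = 4 ∧ q = 3) ∨ (j = 3 ∧ n = 1 ∧ p = 4 ∧ q = 4) ∨ (j = 3 ∧ n = 3 ∧ p = 1 ∧ q = 3) ∨ (j = 3 ∧ n = 3 ∧ p = 1 ∧
      q = 4) ∨ (j = 3 ∧ n = 3 ∧ p = 2 ∧ q = 4) ∨ (j = 3 ∧ n = 3 ∧ p = 3 ∧ q = 4) ∨ (j = 3 ∧ n = 4 ∧ p = 1 ∧ q = 4) ∨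
      (j = 4 ∧ n = 3 ∧ p = 1 ∧ q = 3) ∨ (j = 4 ∧ n = 3 ∧ p = 1 ∧ q = 4) ∨ (j = 4 ∧ n = 3 ∧ p = 2 ∧ q = 4) ∨ (j = 4 ∧
      n = 4 ∧ p = 1 ∧ q = 3) ∨ (j = 4 ∧ n = 4 ∧ p = 1 ∧ q = 4) ∨ (j = 4 ∧ n = 4 ∧ p = 2 ∧ q = 3) ∨ (j = 4 ∧ n = 4 ∧ p
      = 2 ∧ q = 4)))
    194
    0x3c88503c480047452047052031f8003200a02e803025c00025c0402e783025b80025b8403cb8503c78004744a04704a03008003008402e78303038003038402e80303040003040402e40302580002580401cc0001cc0101900301af8001af8401940301ac8001ac8401900301ac0001ac0403190301c88001c884023785023b8002e04a02e44a02548002548402e403030000030004047403032000032004047003031c00031c04031903027480027484023785023b8002e04a02e44a02fc8002fc8401940301b00001b00401940301048001048401940301080001080401900301078001078401900301040001040401940300e48000e48401940300c88000c88402e78301938001938402388502348002e45202e052018f80018f8402e403019000019004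023b8502378002e44a02e04a018c80018c84031903031c80031c8402e003018c00018c0402e80301940001940402388502348002e45202e05201738001738402e783017780017784023b8502378002e44a02e04a01708001708402e40301740001740402e00301700001700402e803017800017804051f80051880051780039080038f80038880038780011f8000ef80051f8f05188f05178f03cc0703c40703908f038f8f03888f03878f03190703188703158703150702fd0702f98702f907027407026d87026d07025887025507025187025107023c07023407022407022387022307022087022007021f87021c87021c07021b87021887021807019087017487012407012087011f8f00ef8f00ec0700e40700cc8700cc0700cb8700c807 = true := by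
  decide +kernel

theorem nbW6_win {f : ℕ → ℕ → ℕ → ℕ → Prop} (hf : Rule f) {a0 b0 x0 y0 : ℕ}
    (ha : a0 % 2 = 1) (hb : b0 % 2 = 0) (hx : x0 % 2 = 1) (hy : y0 % 2 = 1)
    (h1 : ∀ j n p q : ℕ, InR 7 6 8 7 1 j n p q → (
      (j = 1 ∧ n = 2 ∧ p = 4 ∧ q = 3) ∨ (j = 1 ∧ n = 4 ∧ p = 2 ∧ q = 1) ∨ (j = 5 ∧ n = 2 ∧ p = 2 ∧ q = 1) ∨ (j = 5 ∧
      n = 2 ∧ p = 2 ∧ q = 3) ∨ (j = 5 ∧ n = 2 ∧ p = 4 ∧ q = 3) ∨ (j = 5 ∧ n = 2 ∧ p = 4 ∧ q = 5) ∨ (j = 7 ∧ n = 4 ∧ p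
      = 4 ∧ q = 3) ∨ (j = 7 ∧ n = 4 ∧ p = 4 ∧ q = 5) ∨ (j = 7 ∧ n = 4 ∧ p = 6 ∧ q = 5)) →
      f (a0 + j) (b0 + n) (x0 + p) (y0 + q))
    (h0 : ∀ j n p q : ℕ, InR 7 6 8 7 1 j n p q → (
      (j = 1 ∧ n = 1 ∧ p = 1 ∧ q = 1) ∨ (j = 1 ∧ n = 1 ∧ p = 2 ∧ q = 1) ∨ (j = 1 ∧ n = 1 ∧ p = 2 ∧ q = 2) ∨ (j = 1 ∧
      n = 1 ∧ p = 2 ∧ q = 3) ∨ (j = 1 ∧ n = 4 ∧ p = 2 ∧ q = 3) ∨ (j = 2 ∧ n = 1 ∧ p = 2 ∧ q = 3) ∨ (j = 2 ∧ n = 2 ∧ p
      = 2 ∧ q = 3) ∨ (j = 3 ∧ n = 1 ∧ p = 1 ∧ q = 1) ∨ (j = 3 ∧ n = 1 ∧ p = 1 ∧ q = 2) ∨ (j = 3 ∧ n = 1 ∧ p = 2 ∧ q =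
      1) ∨ (j = 3 ∧ n = 1 ∧ p = 2 ∧ q = 2) ∨ (j = 3 ∧ n = 1 ∧ p = 2 ∧ q = 3) ∨ (j = 3 ∧ n = 1 ∧ p = 3 ∧ q = 2) ∨ (j =
      3 ∧ n = 1 ∧ p = 3 ∧ q = 3) ∨ (j = 3 ∧ n = 1 ∧ p = 3 ∧ q = 4) ∨ (j = 3 ∧ n = 1 ∧ p = 4 ∧ q = 2) ∨ (j = 3 ∧ n = 1
      ∧ p = 4 ∧ q = 3) ∨ (j = 3 ∧ n = 1 ∧ p = 4 ∧ q = 4) ∨ (j = 3 ∧ n = 3 ∧ p = 1 ∧ q = 3) ∨ (j = 3 ∧ n = 3 ∧ p = 1 ∧
      q = 4) ∨ (j = 3 ∧ n = 3 ∧ p = 2 ∧ q = 4) ∨ (j = 3 ∧ n = 3 ∧ p = 3 ∧ q = 4) ∨ (j = 3 ∧ n = 4 ∧ p = 1 ∧ q = 4) ∨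
      (j = 4 ∧ n = 3 ∧ p = 1 ∧ q = 3) ∨ (j = 4 ∧ n = 3 ∧ p = 1 ∧ q = 4) ∨ (j = 4 ∧ n = 3 ∧ p = 2 ∧ q = 4) ∨ (j = 4 ∧
      n = 4 ∧ p = 1 ∧ q = 3) ∨ (j = 4 ∧ n = 4 ∧ p = 1 ∧ q = 4) ∨ (j = 4 ∧ n = 4 ∧ p = 2 ∧ q = 3) ∨ (j = 4 ∧ n = 4 ∧ p
      = 2 ∧ q = 4)) →
      ¬ f (a0 + j) (b0 + n) (x0 + p) (y0 + q)) : False :=
  check_sound hf nbW6_win_chk
    ⟨fun h => absurd h (by decide), fun h => absurd h (by decide),
      fun h => absurd h (by decide), ha, hb, hx, hy⟩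
    (fun j n p q hr h => h1 j n p q hr (of_decide_eq_true h))
    (fun j n p q hr h => h0 j n p q hr (of_decide_eq_true h))

theorem nbW6 (hf : Rule f) (H : LI f k c n) (hF6 : F6 f k c n) (C4 : Cyc f (6 * k + 4) (c - 6) (2 * (n - k - 1) + 2)) (hB : ¬ f (6 * k + 4) c (2 * n + 3) (2 * n - 2 * k + 6)) : ¬ f (6 * k + 4) c (2 * n + 3) (2 * n - 2 * k + 4) := by
  have hk := H.T.hk
  have hc := H.T.hc
  have h4 := H.T.h4
  have hb := H.T.hb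
  have hN := H.T.hN2
  have l4_6 : Lay (6 * k + 4) (c - 6) k := ⟨by omega, by omega, by omega, by omega⟩
  have l4_2 : Lay (6 * k + 4) (c - 2) k := ⟨by omega, by omega, by omega, by omega⟩
  have l6_4 : Lay (6 * k + 6) (c - 4) (k + 1) := ⟨by omega, by omega, by omega, by omega⟩
  have l8_2 : Lay (6 * k + 8) (c - 2) (k + 1) := ⟨by omega, by omega, by omega, by omega⟩
  have l10_0 : Lay (6 * k + 10) c (k + 1) := ⟨by omega, by omega, by omega, by omega⟩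
  intro hX
  refine nbW6_win hf (a0 := 6 * k + 3) (b0 := c - 4) (x0 := 2 * n + 1) (y0 := 2 * n - 2 * k + 3)
    (by omega) (by omega) (by omega) (by omega) ?_ ?_
  · intro j n' p q _ hx
    rcases hx with
      ⟨rfl, rfl, rfl, rfl⟩ | ⟨rfl, rfl, rfl, rfl⟩ | ⟨rfl, rfl, rfl, rfl⟩ | ⟨rfl, rfl, rfl, rfl⟩ | ⟨rfl, rfl, rfl,
      rfl⟩ | ⟨rfl, rfl, rfl, rfl⟩ | ⟨rfl, rfl, rfl, rfl⟩ | ⟨rfl, rfl, rfl, rfl⟩ | ⟨rfl, rfl, rfl, rfl⟩
    · exact (v0 l4_2 H.a4 (by omega) (by omega) (by omega) (by omega) (by omega)).2 (by unfold V0; omega)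
    · exact mv hX (by omega) (by omega) (by omega) (by omega)
    · exact (w0 l8_2 H.a8 (by omega) (by omega) (by omega) (by omega) (by omega) (by omega)).2 (by unfold V0; omega)
    · exact (w0 l8_2 H.a8 (by omega) (by omega) (by omega) (by omega) (by omega) (by omega)).2 (by unfold V0; omega)
    · exact (w0 l8_2 H.a8 (by omega) (by omega) (by omega) (by omega) (by omega) (by omega)).2 (by unfold V0; omega)
    · exact (w0 l8_2 H.a8 (by omega) (by omega) (by omega) (by omega) (by omega) (by omega)).2 (by unfold V0; omega)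
    · exact (w0 l10_0 H.a10 (by omega) (by omega) (by omega) (by omega) (by omega) (by omega)).2 (by unfold V0; omega)
    · exact (w0 l10_0 H.a10 (by omega) (by omega) (by omega) (by omega) (by omega) (by omega)).2 (by unfold V0; omega)
    · exact (w0 l10_0 H.a10 (by omega) (by omega) (by omega) (by omega) (by omega) (by omega)).2 (by unfold V0; omega)
  · intro j n' p q _ hx
    rcases hx with
      ⟨rfl, rfl, rfl, rfl⟩ | ⟨rfl, rfl, rfl, rfl⟩ | ⟨rfl, rfl, rfl, rfl⟩ | ⟨rfl, rfl, rfl, rfl⟩ | ⟨rfl, rfl, rfl,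
      rfl⟩ | ⟨rfl, rfl, rfl, rfl⟩ | ⟨rfl, rfl, rfl, rfl⟩ | ⟨rfl, rfl, rfl, rfl⟩ | ⟨rfl, rfl, rfl, rfl⟩ | ⟨rfl, rfl,
      rfl, rfl⟩ | ⟨rfl, rfl, rfl, rfl⟩ | ⟨rfl, rfl, rfl, rfl⟩ | ⟨rfl, rfl, rfl, rfl⟩ | ⟨rfl, rfl, rfl, rfl⟩ | ⟨rfl,
      rfl, rfl, rfl⟩ | ⟨rfl, rfl, rfl, rfl⟩ | ⟨rfl, rfl, rfl, rfl⟩ | ⟨rfl, rfl, rfl, rfl⟩ | ⟨rfl, rfl, rfl, rfl⟩ |
      ⟨rfl, rfl, rfl, rfl⟩ | ⟨rfl, rfl, rfl, rfl⟩ | ⟨rfl, rfl, rfl, rfl⟩ | ⟨rfl, rfl, rfl, rfl⟩ | ⟨rfl, rfl, rfl,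
      rfl⟩ | ⟨rfl, rfl, rfl, rfl⟩ | ⟨rfl, rfl, rfl, rfl⟩ | ⟨rfl, rfl, rfl, rfl⟩ | ⟨rfl, rfl, rfl, rfl⟩ | ⟨rfl, rfl,
      rfl, rfl⟩ | ⟨rfl, rfl, rfl, rfl⟩
    · exact fun t => absurd ((v3s l4_6 C4 (by omega) (by omega) (by omega) (by omega) (by omega) (by omega)).1 t) (by unfold V3; omega)
    · exact fun t => absurd ((v3s l4_6 C4 (by omega) (by omega) (by omega) (by omega) (by omega) (by omega)).1 t) (by unfold V3; omega)
    · exact fun t => absurd ((v3s l4_6 C4 (by omega) (by omega) (by omega) (by omega) (by omega) (by omega)).1 t) (by unfold V3; omega)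
    · exact fun t => absurd ((v3s l4_6 C4 (by omega) (by omega) (by omega) (by omega) (by omega) (by omega)).1 t) (by unfold V3; omega)
    · exact fun t => hB (mv t (by omega) (by omega) (by omega) (by omega))
    · exact H.T.rIn hf (t := 3) (j := 1) (p := 1) (by omega) (by omega) (by omega) (by omega) (by omega) (by omega) (by omega) (by omega)
    · exact H.T.pmi hf (j := 1) (by omega) (by omega) (by omega) (by omega) (by omega) (by omega)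
    · exact fun t => absurd ((v1 l6_4 H.a6 (by omega) (by omega) (by omega) (by omega) (by omega)).1 t) (by unfold V1; omega)
    · exact fun t => absurd ((v1 l6_4 H.a6 (by omega) (by omega) (by omega) (by omega) (by omega)).1 t) (by unfold V1; omega)
    · exact fun t => absurd ((v1 l6_4 H.a6 (by omega) (by omega) (by omega) (by omega) (by omega)).1 t) (by unfold V1; omega)
    · exact fun t => absurd ((v1 l6_4 H.a6 (by omega) (by omega) (by omega) (by omega) (by omega)).1 t) (by unfold V1; omega)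
    · exact fun t => absurd ((v1 l6_4 H.a6 (by omega) (by omega) (by omega) (by omega) (by omega)).1 t) (by unfold V1; omega)
    · exact fun t => absurd ((v1 l6_4 H.a6 (by omega) (by omega) (by omega) (by omega) (by omega)).1 t) (by unfold V1; omega)
    · exact fun t => absurd ((v1 l6_4 H.a6 (by omega) (by omega) (by omega) (by omega) (by omega)).1 t) (by unfold V1; omega)
    · exact fun t => absurd ((v1 l6_4 H.a6 (by omega) (by omega) (by omega) (by omega) (by omega)).1 t) (by unfold V1; omega)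
    · exact fun t => absurd ((v1 l6_4 H.a6 (by omega) (by omega) (by omega) (by omega) (by omega)).1 t) (by unfold V1; omega)
    · exact fun t => absurd ((v1 l6_4 H.a6 (by omega) (by omega) (by omega) (by omega) (by omega)).1 t) (by unfold V1; omega)
    · exact fun t => absurd ((v1 l6_4 H.a6 (by omega) (by omega) (by omega) (by omega) (by omega)).1 t) (by unfold V1; omega)
    · exact fun t => H.T.rm1i hf (j := 1) (p := 0) (by omega) (by omega) (by omega) (by omega) (by omega) (by omega) (mv t rfl (by omega) rfl rfl)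
    · exact fun t => H.T.rm1i hf (j := 1) (p := 0) (by omega) (by omega) (by omega) (by omega) (by omega) (by omega) (mv t rfl (by omega) rfl rfl)
    · exact fun t => H.T.rm1i hf (j := 1) (p := 0) (by omega) (by omega) (by omega) (by omega) (by omega) (by omega) (mv t rfl (by omega) rfl rfl)
    · exact fun t => H.T.rm1i hf (j := 1) (p := 0) (by omega) (by omega) (by omega) (by omega) (by omega) (by omega) (mv t rfl (by omega) rfl rfl)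
    · exact fun t => hF6 (6 * k + 6) c (2 * n + 2) (2 * n - 2 * k + 7) rfl rfl rfl (by omega) (by omega) (by omega) (mv t (by omega) (by omega) (by omega) (by omega))
    · exact fun t => H.T.rm1i hf (j := 1) (p := 1) (by omega) (by omega) (by omega) (by omega) (by omega) (by omega) (mv t rfl (by omega) rfl rfl)
    · exact fun t => H.T.rm1i hf (j := 1) (p := 1) (by omega) (by omega) (by omega) (by omega) (by omega) (by omega) (mv t rfl (by omega) rfl rfl)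
    · exact fun t => H.T.rm1i hf (j := 1) (p := 1) (by omega) (by omega) (by omega) (by omega) (by omega) (by omega) (mv t rfl (by omega) rfl rfl)
    · exact H.T.p0i hf (j := 1) (by omega) (by omega) (by omega) (by omega) (by omega) (by omega)
    · exact H.T.p0i hf (j := 1) (by omega) (by omega) (by omega) (by omega) (by omega) (by omega)
    · exact H.T.p0i hf (j := 1) (by omega) (by omega) (by omega) (by omega) (by omega) (by omega)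
    · exact H.T.p0i hf (j := 1) (by omega) (by omega) (by omega) (by omega) (by omega) (by omega)

/-- **The beam lemma**, near the diagonal -/
theorem nb0 (hf : Rule f) (H : LI f k c n) (hF6 : F6 f k c n)
    (T4 : f (6 * k + 4) (c - 2) (2 * n - 3) (2 * n - 4) ∨ f (6 * k + 4) (c - 2) (2 * n - 1) (2 * n - 2)) :
    ¬ f (6 * k + 4) c (2 * n + 3) (2 * n) := by
  intro hB
  rcases T4 with h | h
  · exact nbA hf H hF6 hB h
  · exact nbB hf H hB h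

/-- **The beam lemma**: no cell `(2 n + 3, y)`, `y` even, of the layer `6 k + 4` in the row `c`. -/
theorem nb (hf : Rule f) (H : LI f k c n) (hF6 : F6 f k c n)
    (T4 : f (6 * k + 4) (c - 2) (2 * n - 3) (2 * n - 4) ∨ f (6 * k + 4) (c - 2) (2 * n - 1) (2 * n - 2))
    (C4 : Cyc f (6 * k + 4) (c - 6) (2 * (n - k - 1) + 2)) {y : ℕ} (hy : y % 2 = 0) (h1 : 2 * n + 3 ≤ y + 2 * k)
    (h2 : y ≤ 2 * n) : ¬ f (6 * k + 4) c (2 * n + 3) y := by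
  have hk := H.T.hk
  have hN := H.T.hN2
  have hc := H.T.hc
  have key : ∀ y : ℕ, y % 2 = 0 → 2 * n + 8 ≤ y + 2 * k → y ≤ 2 * n → ¬ f (6 * k + 4) c (2 * n + 3) y := by
    intro y a1 a2 a3 h
    refine nb0 hf H hF6 T4 (col_run hf (y1 := 2 * n) (by omega) hc (by omega) a1
      (fun z h4 h5 h6 => H.T.c0i hf (j := 3) (by omega) (by omega) (by omega) (by omega) (by omega) (by omega)) h (2 * n)
      a3 le_rfl (by omega))
  rcases Nat.lt_or_ge (y + 2 * k) (2 * n + 8) with h3 | h3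
  · have e8 := key (2 * n - 2 * k + 8) (by omega) (by omega) (by omega)
    have e6 := nbW8 hf H C4 e8
    rcases (show y = 2 * n - 2 * k + 6 ∨ y = 2 * n - 2 * k + 4 by omega) with h5 | h5
    · rw [h5]
      exact e6
    · rw [h5]
      exact nbW6 hf H hF6 C4 e6
  · exact key y hy h3 h2

/-- **The beam lemma over the windows**, in every cycle `j + 1`. -/
theorem nb_stack (hf : Rule f) (S : StackW f k b m) (j : ℕ) {y : ℕ} (hy : y % 2 = 0)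
    (h1 : 2 * D1.nn k m (j + 1) + 3 ≤ y + 2 * k) (h2 : y ≤ 2 * D1.nn k m (j + 1)) :
    ¬ f (6 * k + 4) (b + 4 * (j + 1) + 22) (2 * D1.nn k m (j + 1) + 3) y := by
  have H := (S (j + 1)).li hf
  have hF6 := F6.of hf H ((S (j + 1)).K6 hf)
  have e1 : D1.nn k m (j + 1) = D1.nn k m j + k + 2 := by unfold D1.nn; ring
  have d4 := (S j).d4
  have T4 := (S (j + 1)).T4 hf
  have hb := H.T.hb
  have hN := H.T.hN2
  have C4 : Cyc f (6 * k + 4) (b + 4 * (j + 1) + 22 - 6) (2 * (D1.nn k m (j + 1) - k - 1) + 2) := by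
    rw [e1]
    exact D1.cyc_of_eq d4 (by omega) (by omega)
  exact nb hf H hF6 (by rwa [show b + 4 * (j + 1) + 22 - 2 = b + 4 * (j + 1) + 20 by omega]) C4 hy h1 h2

end Pool.Agent.SNT.NbL
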