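import Pool.Agent.SNT.SKill

set_option autoImplicit false

/-! The exclusion of `P_(6k+9)` in the row of the in-line `n` of the top leader (columns `2 n`, `2 n + 1`), and the in-line. -/

namespace Pool.Agent.SNT.LineR0

open Pool.Agent.SNT Pool.Agent.SNT.Sig Pool.Agent.SNT.SLine

variable {f : ℕ → ℕ → ℕ → ℕ → Prop}

/-- what the chain knows before the beam of the column `n - 1` of `6k+4` is excluded -/
def HB (f : ℕ → ℕ → ℕ → ℕ → Prop) (a b n jb jt : ℕ) : Prop :=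
  (∀ x y : ℕ, 2 * n ≤ x + 3 → x ≤ 2 * n + 1 → 2 * jb ≤ y → y ≤ 2 * jt + 1 → ¬ f (a + 1) b x y) ∧
  (∀ x y : ℕ, 2 * n ≤ x + 1 → x ≤ 2 * n + 1 → 2 * jb ≤ y → y ≤ 2 * jt + 1 → ¬ f (a + 3) b x y) ∧
  (∀ x y : ℕ, 2 * n ≤ x → x ≤ 2 * n + 1 → 2 * jb ≤ y → y ≤ 2 * jt + 1 → ¬ f (a + 5) b x y) ∧
  (∀ j : ℕ, jb ≤ j → j ≤ jt → ¬ f (a + 4) b (2 * n + 1) (2 * j) ∧ ¬ f (a + 6) b (2 * n) (2 * j + 1)) ∧
  (∀ j : ℕ, jb ≤ j → j + 1 ≤ jt → ¬ f (a + 1) b (2 * n + 2) (2 * j) →
    ¬ f (a + 2) b (2 * n) (2 * j + 1) ∧ ¬ f (a + 2) b (2 * n - 2) (2 * j + 1))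

/-- what the chain knows before the beam of the column `n` of `6k+8` is excluded -/
def HC (f : ℕ → ℕ → ℕ → ℕ → Prop) (a b n jb jt : ℕ) : Prop :=
  HB f a b n jb jt ∧
  (∀ x y : ℕ, 2 * n ≤ x + 4 → x ≤ 2 * n + 1 → 2 * jb ≤ y → y + 1 ≤ 2 * jt → ¬ f (a + 1) b x y) ∧
  (∀ x y : ℕ, 2 * n ≤ x + 3 → x ≤ 2 * n + 1 → 2 * jb ≤ y → y + 1 ≤ 2 * jt → ¬ f (a + 3) b x y) ∧
  (∀ x y : ℕ, 2 * n ≤ x + 2 → x ≤ 2 * n + 1 → 2 * jb ≤ y → (2 * n ≤ x + 1 ∨ 2 * jb + 1 ≤ y) → y + 1 ≤ 2 * jt →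
    ¬ f (a + 5) b x y) ∧
  (∀ y : ℕ, 2 * jb ≤ y → y + 1 ≤ 2 * jt → (2 * jb + 2 ≤ y → ¬ f (a + 7) b (2 * n - 1) y) ∧
    ¬ f (a + 7) b (2 * n + 1) y) ∧
  (∀ j : ℕ, jb ≤ j → j + 1 ≤ jt → ¬ f (a + 4) b (2 * n - 1) (2 * j))

/-- Inputs. `a = 6 k`, `b` the IN row of `6 k + 10`, `N = 2 n` the column of the tip, block rows `j0 .. jt` (`jt` near the diagonal,
`j0` near the wall). -/
structure In (f : ℕ → ℕ → ℕ → ℕ → Prop) (a b n j0 jb jt : ℕ) : Prop where
  ha : a % 2 = 0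
  ha1 : 1 ≤ a
  hb : b % 2 = 0
  hb1 : 1 ≤ b
  hn : 3 ≤ n
  h0 : 1 ≤ j0
  h0b : j0 + 1 ≤ jb
  hbt : jb + 1 ≤ jt
  /-- row `b - 1`, layers `6k+1 .. 6k+10` -/
  zr : ∀ p x y : ℕ, 1 ≤ p → p ≤ 10 → 2 * n + (p + 1) / 2 ≤ x + 5 → x ≤ 2 * n + 2 → 2 * j0 ≤ y + 1 → y ≤ 2 * jt + 2 →
    x + 2 * j0 + (p + 1) / 2 ≤ y + 2 * n + 3 → ¬ f (a + p) (b - 1) x y
  /-- row `b - 1`, layer `6k`, and `P_(6k-1)` -/
  z0 : ∀ x y : ℕ, 2 * n ≤ x + 4 → x ≤ 2 * n + 1 → 2 * j0 ≤ y → y ≤ 2 * jt → x + 2 * j0 ≤ y + 2 * n + 1 →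
    ¬ f a (b - 1) x y ∧ ¬ f (a - 1) (b - 1) x y ∧ ¬ f (a - 1) b x y
  /-- the lowest block row of `P_(6k+1)` -/
  q1 : ∀ i : ℕ, n ≤ i + 1 → i ≤ n → ¬ f (a + 1) b (2 * i) (2 * j0)
  /-- `P_(6k+1)` is of the type (even, even) -/
  p1 : ∀ x y : ℕ, (x % 2 = 1 ∨ y % 2 = 1) → 2 * n ≤ x + 4 → x ≤ 2 * n + 2 → 2 * j0 ≤ y + 1 → y ≤ 2 * jt + 2 →
    x + 2 * j0 ≤ y + 2 * n + 2 → ¬ f (a + 1) b x y
  /-- column `2 n + 2`, layers `6k+3, 6k+5, 6k+7, 6k+9` -/
  z2 : ∀ s y : ℕ, 1 ≤ s → s ≤ 4 → 2 * j0 + 2 ≤ y → y ≤ 2 * jt + 2 → ¬ f (a + 2 * s + 1) b (2 * n + 2) y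
  /-- column `2 n + 2` of `6k+2`, `6k+6` (one of the in-lines `n + 1`, `n + 2` is present) -/
  f2 : ∀ j : ℕ, j0 ≤ j → j ≤ jt → ¬ f (a + 2) b (2 * n + 2) (2 * j + 1)
  f6 : ∀ j : ℕ, j0 + 1 ≤ j → j ≤ jt → ¬ f (a + 6) b (2 * n + 2) (2 * j + 1)
  /-- the static in-line `n + 1` of the leader -/
  s10 : ∀ j : ℕ, j0 + 3 ≤ j → j ≤ jt → f (a + 10) b (2 * n + 3) (2 * j)
  /-- near the diagonal (beams of missing `u` do not arrive) -/
  da : su f (a + 4) b n jt
  db : HB f a b n jb jt → su f (a + 4) b (n - 1) (jt - 1)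
  dc : HC f a b n jb jt → su f (a + 8) b n (jt - 1)

/-! ### local lemmas -/

/-- an E-cell of the odd layer empties the block -/
theorem emit (hf : Rule f) {M b i j : ℕ} (h : f M b (2 * i) (2 * j)) : ¬ sr f (M + 1) b i j ∧ ¬ su f (M + 1) b i j := by
  have h1 := kill hf h 1 0 1 0 le_rfl (by omega) le_rfl (by omega) (by omega)
  have h2 := kill hf h 1 0 1 1 le_rfl (by omega) le_rfl le_rfl (by omega)
  have h3 := kill hf h 1 0 0 1 le_rfl (by omega) (by omega) le_rfl (by omega)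
  exact ⟨fun h => h.elim h1 h2, fun h => h.elim h3 h2⟩

/-- the X-cell to the right of a missing `r` (layer `M + 1`) -/
theorem x_right (hf : Rule f) {M b i j : ℕ} (hM : M % 2 = 1) (hb : b % 2 = 0)
    (hP : ∀ x y : ℕ, 2 * i + 1 ≤ x → x ≤ 2 * i + 2 → 2 * j ≤ y → y ≤ 2 * j + 1 → ¬ f M b x y)
    (hr : ∀ p x y : ℕ, p ≤ 1 → 2 * i + 1 ≤ x → x ≤ 2 * i + 2 → 2 * j ≤ y → y ≤ 2 * j + 1 → ¬ f (M + p) (b - 1) x y)
    (h1 : ¬ sr f (M + 1) b i j) : bX f (M + 1) b (i + 1) j := by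
  refine x_of_line hf (by omega) hb (fun x y a1 a2 a3 a4 => ?_) (fun p x y hp a1 a2 a3 a4 => ?_) h1
  · rw [Nat.add_sub_cancel]
    exact hP x y a1 a2 a3 a4
  · have := hr (1 - p) x y (by omega) a1 a2 a3 a4
    rwa [show M + (1 - p) = M + 1 - p by omega] at this

/-- the Y-cell above a missing `u` (layer `M + 1`) -/
theorem y_up (hf : Rule f) {M b i j : ℕ} (hM : M % 2 = 1) (hb : b % 2 = 0)
    (hP : ∀ x y : ℕ, 2 * i ≤ x → x ≤ 2 * i + 1 → 2 * j + 1 ≤ y → y ≤ 2 * j + 2 → ¬ f M b x y)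
    (hr : ∀ p x y : ℕ, p ≤ 1 → 2 * i ≤ x → x ≤ 2 * i + 1 → 2 * j + 1 ≤ y → y ≤ 2 * j + 2 → ¬ f (M + p) (b - 1) x y)
    (h1 : ¬ su f (M + 1) b i j) : bY f (M + 1) b i (j + 1) := by
  refine (rY hf (by omega) hb (nb_of (fun x y a1 a2 a3 a4 => ?_) (fun p x y hp a1 a2 a3 a4 => ?_))).2 h1
  · rw [Nat.add_sub_cancel]
    exact hP x y (by omega) (by omega) (by omega) (by omega)
  · have := hr (1 - p) x y (by omega) (by omega) (by omega) (by omega) (by omega)
    rwa [show M + (1 - p) = M + 1 - p by omega] at this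

/-- no collision (layer `L`) -/
theorem no_coll (hf : Rule f) {L b i j : ℕ} (hL : L % 2 = 0) (hb : b % 2 = 0)
    (h0 : ¬ f (L + 1) b (2 * i + 2) (2 * j + 2))
    (h1 : ∀ p x y : ℕ, p ≤ 1 → 2 * i + 1 ≤ x → x ≤ 2 * i + 2 → 2 * j + 1 ≤ y → y ≤ 2 * j + 2 → ¬ f (L + p) (b - 1) x y)
    (hX : bX f L b i j) (hY : bY f L b i j) : False :=
  coll_zero hf hL hb h0 h1 ⟨hX, hY⟩

/-- a cell of the odd layer `M + 2` which is not of the type (even, even) is zero if the odd layer `M` is zero below -/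
theorem no_kill (hf : Rule f) {M b x y : ℕ} (hxy : x % 2 = 1 ∨ y % 2 = 1)
    (hP : ∀ x' y' : ℕ, x ≤ x' + 1 → x' ≤ x → y ≤ y' + 1 → y' ≤ y → ¬ f M b x' y')
    (hr : ∀ p x' y' : ℕ, p ≤ 1 → x ≤ x' + 1 → x' ≤ x → y ≤ y' + 1 → y' ≤ y → ¬ f (M + p) (b - 1) x' y') :
    ¬ f (M + 2) b x y := by
  refine e_only (L := M + 1) hf hxy (fun p x' y' hp a1 a2 a3 a4 => ?_) (fun x' y' a1 a2 a3 a4 => ?_)
  · have := hr (1 - p) x' y' (by omega) a1 a2 a3 a4
    rwa [show M + (1 - p) = M + 1 - p by omega] at this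
  · rw [Nat.add_sub_cancel]
    exact hP x' y' a1 a2 a3 a4

/-- **the beam**: a missing `u` in the column `i` of the layer `M + 1` goes up -/
theorem beam (hf : Rule f) {M b i j jt : ℕ} (hM : M % 2 = 1) (hb : b % 2 = 0) (hj : j ≤ jt)
    (hP : ∀ x y : ℕ, (x % 2 = 1 ∨ y % 2 = 1) → 2 * i ≤ x → x ≤ 2 * i + 1 → 2 * j + 1 ≤ y → y ≤ 2 * jt → ¬ f M b x y)
    (hU : ∀ j' : ℕ, j + 1 ≤ j' → j' ≤ jt → ¬ f (M + 2) b (2 * i + 2) (2 * j' + 2))
    (hr : ∀ p x y : ℕ, p ≤ 1 → 2 * i ≤ x → x ≤ 2 * i + 1 → 2 * j + 1 ≤ y → y ≤ 2 * jt → ¬ f (M + p) (b - 1) x y)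
    (hr1 : ∀ p x y : ℕ, 1 ≤ p → p ≤ 2 → 2 * i + 1 ≤ x → x ≤ 2 * i + 2 → 2 * j + 3 ≤ y → y ≤ 2 * jt + 2 →
      ¬ f (M + p) (b - 1) x y)
    (h1 : ¬ su f (M + 1) b i j) : ¬ su f (M + 1) b i jt := by
  obtain ⟨t, rfl⟩ : ∃ t, jt = j + t := ⟨jt - j, by omega⟩
  clear hj
  have key : ∀ s, s ≤ t → ¬ su f (M + 1) b i (j + s) := by
    intro s
    induction s with
    | zero => exact fun _ => h1
    | succ s ih =>
      intro hs
      have ih1 := ih (by omega)
      by_cases hE : f M b (2 * i) (2 * (j + s + 1))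
      · exact (emit hf hE).2
      · have hY : bY f (M + 1) b i (j + s + 1) := by
          refine y_up hf hM hb (fun x y a1 a2 a3 a4 => ?_) (fun p x y hp a1 a2 a3 a4 => ?_) ih1
          · by_cases h4 : x % 2 = 1 ∨ y % 2 = 1
            · exact hP x y h4 a1 a2 (by omega) (by omega)
            · have e1 : x = 2 * i := by omega
              have e2 : y = 2 * (j + s + 1) := by omega
              rw [e1, e2]
              exact hE
          · exact hr p x y hp a1 a2 (by omega) (by omega)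
        rintro (hX | hO)
        · refine no_coll hf (by omega) hb ?_ (fun p x y hp a1 a2 a3 a4 => ?_) hX hY
          · exact hU (j + s + 1) (by omega) (by omega)
          · have := hr1 (1 + p) x y (by omega) (by omega) a1 a2 (by omega) (by omega)
            rwa [← add_assoc] at this
        · exact O_Y hf hY hO
  exact key t le_rfl

/-! ### the chain -/

variable {a b n j0 jb jt : ℕ}

/-- at most one E-cell of `P_(6k+1)` in a block row -/
theorem In.one (hf : Rule f) (I : In f a b n j0 jb jt) {i i' j : ℕ} (hi : n ≤ i + 2) (hii : i < i') (hi' : i' ≤ n + 1)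
    (hj : j0 ≤ j) (hjj : n ≤ i + 1 ∨ j0 + 1 ≤ j) (hj1 : j ≤ jt) (h1 : f (a + 1) b (2 * i) (2 * j)) :
    ¬ f (a + 1) b (2 * i') (2 * j) := by
  rcases Nat.eq_or_lt_of_le hj with hj | hj
  · rw [← hj] at h1
    exact absurd h1 (I.q1 i (by omega) (by omega))
  intro h2
  have ha := I.ha
  have hb := I.hb
  have h0 := I.h0
  obtain ⟨m, rfl⟩ : ∃ m, j = m + 1 := ⟨j - 1, by omega⟩
  obtain ⟨t, rfl⟩ : ∃ t, i' = i + t + 1 := ⟨i' - i - 1, by omega⟩
  -- NB
  have nb : ∀ x y : ℕ, 2 * n ≤ x + 3 → x ≤ 2 * n + 1 → 2 * m + 1 ≤ y → y ≤ 2 * m + 2 → NB f a b x y := by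
    intro x y a1 a2 a3 a4
    refine nb_of (fun x' y' b1 b2 b3 b4 => (I.z0 x' y' (by omega) (by omega) (by omega) (by omega) (by omega)).2.2)
      (fun p x' y' hp b1 b2 b3 b4 => ?_)
    have hz := I.z0 x' y' (by omega) (by omega) (by omega) (by omega) (by omega)
    rcases Nat.eq_zero_or_pos p with hp0 | hp0
    · rw [hp0, Nat.sub_zero]
      exact hz.1
    · have : p = 1 := by omega
      rw [this]
      exact hz.2.1
  have key : ∀ s, s ≤ t → ¬ bX f a b (i + s) m := by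
    intro s
    induction s with
    | zero =>
      intro _ h
      exact kill hf h 1 0 0 1 le_rfl (by omega) (by omega) le_rfl (by omega) h1
    | succ s ih =>
      intro hs
      have ih1 := ih (by omega)
      refine sr_kill hf (i := i + s) ?_
      by_cases hY : bY f a b (i + s) m
      · exact Or.inl hY
      · exact Or.inr ((rO hf ha hb (nb _ _ (by omega) (by omega) (by omega) (by omega))).2 ⟨ih1, hY⟩)
  have hX := key t le_rfl
  have hO : ¬ bO f a b (i + t) m := by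
    intro h
    have := kill hf h 1 0 1 1 le_rfl (by omega) le_rfl le_rfl (by omega)
    exact this h2
  have hu : ¬ su f a b (i + t) m := fun h => h.elim hX hO
  have hY : bY f a b (i + t) (m + 1) := (rY hf ha hb (nb _ _ (by omega) (by omega) (by omega) (by omega))).2 hu
  have := kill hf hY 1 0 1 0 le_rfl (by omega) le_rfl (by omega) (by omega)
  exact this h2

/-- a missing `r` of `6k+2` does not pass the column `n` -/
theorem In.stop2 (hf : Rule f) (I : In f a b n j0 jb jt) {j : ℕ} (hj : j0 ≤ j) (hj1 : j ≤ jt)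
    (hE : ¬ f (a + 1) b (2 * n + 2) (2 * j)) : sr f (a + 2) b n j := by
  have ha := I.ha
  by_contra h
  have h1 : bX f (a + 1 + 1) b (n + 1) j := by
    refine x_right hf (by omega) I.hb (fun x y a1 a2 a3 a4 => ?_) (fun p x y hp a1 a2 a3 a4 => ?_) h
    · by_cases h4 : x % 2 = 1 ∨ y % 2 = 1
      · exact I.p1 x y h4 (by omega) (by omega) (by omega) (by omega) (by omega)
      · have e1 : x = 2 * n + 2 := by omega
        have e2 : y = 2 * j := by omega
        rw [e1, e2]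
        exact hE
    · have := I.zr (1 + p) x y (by omega) (by omega) (by omega) (by omega) (by omega) (by omega) (by omega)
      rwa [← add_assoc] at this
  exact I.f2 j hj hj1 h1

theorem In.bb (hf : Rule f) (I : In f a b n j0 jb jt) {j : ℕ} (hj : j0 ≤ j) (hj1 : j ≤ jt)
    (hE : ¬ f (a + 1) b (2 * n + 2) (2 * j)) : ¬ bX f (a + 2) b n j := by
  intro hX
  have ha := I.ha
  rcases I.stop2 hf hj hj1 hE with hY | hO
  · refine no_coll hf (by omega) I.hb ?_ (fun p x y hp a1 a2 a3 a4 => ?_) hX hY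
    · exact I.z2 1 (2 * j + 2) le_rfl (by omega) (by omega) (by omega)
    · have := I.zr (2 + p) x y (by omega) (by omega) (by omega) (by omega) (by omega) (by omega) (by omega)
      rwa [← add_assoc] at this
  · exact O_X hf hX hO

theorem In.p1a (hf : Rule f) (I : In f a b n j0 jb jt) {j : ℕ} (hj : j0 ≤ j) (hj1 : j ≤ jt) :
    ¬ f (a + 1) b (2 * n) (2 * j) := by
  intro h
  exact (emit hf h).1 (I.stop2 hf hj hj1 (I.one hf (i' := n + 1) (by omega) (by omega) le_rfl hj (by omega) hj1 h))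

theorem In.p1c (hf : Rule f) (I : In f a b n j0 jb jt) {i j : ℕ} (hi : i + 1 = n) (hj : j0 ≤ j) (hj1 : j ≤ jt) :
    ¬ f (a + 1) b (2 * i) (2 * j) := by
  intro h
  have ha := I.ha
  have h2 := I.one hf (i' := n + 1) (by omega) (by omega) le_rfl hj (by omega) hj1 h
  refine I.bb hf hj hj1 h2 ?_
  have h1 : bX f (a + 1 + 1) b (i + 1) j := by
    refine x_right hf (by omega) I.hb (fun x y a1 a2 a3 a4 => ?_) (fun p x y hp a1 a2 a3 a4 => ?_) (emit hf h).1
    · by_cases h4 : x % 2 = 1 ∨ y % 2 = 1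
      · exact I.p1 x y h4 (by omega) (by omega) (by omega) (by omega) (by omega)
      · have e1 : x = 2 * n := by omega
        have e2 : y = 2 * j := by omega
        rw [e1, e2]
        exact I.p1a hf hj hj1
    · have := I.zr (1 + p) x y (by omega) (by omega) (by omega) (by omega) (by omega) (by omega) (by omega)
      rwa [← add_assoc] at this
  rwa [hi] at h1

/-- `P_(6k+1)` -/
theorem In.P1 (hf : Rule f) (I : In f a b n j0 jb jt) {x y : ℕ} (hx : 2 * n ≤ x + 3) (hx1 : x ≤ 2 * n + 1)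
    (hy : 2 * j0 ≤ y + 1) (hy1 : y ≤ 2 * jt + 1) : ¬ f (a + 1) b x y := by
  by_cases h4 : x % 2 = 1 ∨ y % 2 = 1
  · exact I.p1 x y h4 (by omega) (by omega) (by omega) (by omega) (by omega)
  · obtain ⟨j, rfl⟩ : ∃ j, y = 2 * j := ⟨y / 2, by omega⟩
    obtain ⟨i, rfl⟩ : ∃ i, x = 2 * i := ⟨x / 2, by omega⟩
    rcases (show i = n ∨ i + 1 = n by omega) with h | h
    · rw [h]
      exact I.p1a hf (by omega) (by omega)
    · exact I.p1c hf h (by omega) (by omega)

/-- `P_(6k+3)`, cells which are not of the type (even, even) -/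
theorem In.P3ne (hf : Rule f) (I : In f a b n j0 jb jt) {x y : ℕ} (hxy : x % 2 = 1 ∨ y % 2 = 1) (hx : 2 * n ≤ x + 2)
    (hx1 : x ≤ 2 * n + 1) (hy : 2 * j0 ≤ y) (hy1 : y ≤ 2 * jt + 1) : ¬ f (a + 3) b x y := by
  have h0 := I.h0
  refine no_kill (M := a + 1) hf hxy (fun x' y' a1 a2 a3 a4 => I.P1 hf (by omega) (by omega) (by omega) (by omega))
    (fun p x' y' hp a1 a2 a3 a4 => ?_)
  have := I.zr (1 + p) x' y' (by omega) (by omega) (by omega) (by omega) (by omega) (by omega) (by omega)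
  rwa [← add_assoc] at this

theorem In.p3e (hf : Rule f) (I : In f a b n j0 jb jt) {j : ℕ} (hj : j0 ≤ j) (hj1 : j ≤ jt) :
    ¬ f (a + 3) b (2 * n) (2 * j) := by
  intro h
  have ha := I.ha
  refine beam (M := a + 3) (i := n) (jt := jt) hf (by omega) I.hb hj1 (fun x y h4 a1 a2 a3 a4 => ?_) (fun j' a1 a2 => ?_)
    (fun p x y hp a1 a2 a3 a4 => ?_) (fun p x y hp hp1 a1 a2 a3 a4 => ?_) (emit hf h).2 I.da
  · exact I.P3ne hf h4 (by omega) (by omega) (by omega) (by omega)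
  · exact I.z2 2 (2 * j' + 2) (by omega) (by omega) (by omega) (by omega)
  · have := I.zr (3 + p) x y (by omega) (by omega) (by omega) (by omega) (by omega) (by omega) (by omega)
    rwa [← add_assoc] at this
  · have := I.zr (3 + p) x y (by omega) (by omega) (by omega) (by omega) (by omega) (by omega) (by omega)
    rwa [← add_assoc] at this

/-- `P_(6k+3)` in the columns `2 n - 1, 2 n, 2 n + 1` -/
theorem In.P3 (hf : Rule f) (I : In f a b n j0 jb jt) {x y : ℕ} (hx : 2 * n ≤ x + 1)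
    (hx1 : x ≤ 2 * n + 1) (hy : 2 * j0 ≤ y) (hy1 : y ≤ 2 * jt + 1) : ¬ f (a + 3) b x y := by
  by_cases h4 : x % 2 = 1 ∨ y % 2 = 1
  · exact I.P3ne hf h4 (by omega) (by omega) (by omega) (by omega)
  · obtain ⟨j, rfl⟩ : ∃ j, y = 2 * j := ⟨y / 2, by omega⟩
    have e1 : x = 2 * n := by omega
    rw [e1]
    exact I.p3e hf (by omega) (by omega)

/-- no Y-cell of `6k+4` in the column `n` -/
theorem In.y4 (hf : Rule f) (I : In f a b n j0 jb jt) {j : ℕ} (hj : j0 + 1 ≤ j) (hj1 : j ≤ jt) :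
    ¬ bY f (a + 4) b n j := by
  intro hY
  have ha := I.ha
  have hu : ¬ su f (a + 3 + 1) b n j := by
    rintro (hX | hO)
    · refine no_coll hf (L := a + 4) (by omega) I.hb ?_ (fun p x y hp a1 a2 a3 a4 => ?_) hX hY
      · exact I.z2 2 (2 * j + 2) (by omega) (by omega) (by omega) (by omega)
      · have := I.zr (4 + p) x y (by omega) (by omega) (by omega) (by omega) (by omega) (by omega) (by omega)
        rwa [← add_assoc] at this
    · exact O_Y hf hY hO
  refine beam (M := a + 3) (i := n) (jt := jt) hf (by omega) I.hb hj1 (fun x y h4 a1 a2 a3 a4 => ?_) (fun j' a1 a2 => ?_)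
    (fun p x y hp a1 a2 a3 a4 => ?_) (fun p x y hp hp1 a1 a2 a3 a4 => ?_) hu I.da
  · exact I.P3ne hf h4 (by omega) (by omega) (by omega) (by omega)
  · exact I.z2 2 (2 * j' + 2) (by omega) (by omega) (by omega) (by omega)
  · have := I.zr (3 + p) x y (by omega) (by omega) (by omega) (by omega) (by omega) (by omega) (by omega)
    rwa [← add_assoc] at this
  · have := I.zr (3 + p) x y (by omega) (by omega) (by omega) (by omega) (by omega) (by omega) (by omega)
    rwa [← add_assoc] at this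

theorem In.ff (hf : Rule f) (I : In f a b n j0 jb jt) {i j : ℕ} (hi : i + 1 = n) (hj : j0 ≤ j) (hj1 : j + 1 ≤ jt)
    (hE : ¬ f (a + 1) b (2 * n + 2) (2 * j)) : ¬ bX f (a + 2) b i j := by
  intro hX
  have ha := I.ha
  have hr : ¬ sr f (a + 1 + 1) b i j := by
    rintro (hY | hO)
    · refine no_coll hf (L := a + 2) (by omega) I.hb ?_ (fun p x y hp a1 a2 a3 a4 => ?_) hX hY
      · rw [show 2 * i + 2 = 2 * n by omega]
        exact I.p3e hf (j := j + 1) (by omega) (by omega)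
      · have := I.zr (2 + p) x y (by omega) (by omega) (by omega) (by omega) (by omega) (by omega) (by omega)
        rwa [← add_assoc] at this
    · exact O_X hf hX hO
  have h1 : bX f (a + 1 + 1) b (i + 1) j := by
    refine x_right hf (by omega) I.hb (fun x y a1 a2 a3 a4 => I.P1 hf (by omega) (by omega) (by omega) (by omega))
      (fun p x y hp a1 a2 a3 a4 => ?_) hr
    have := I.zr (1 + p) x y (by omega) (by omega) (by omega) (by omega) (by omega) (by omega) (by omega)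
    rwa [← add_assoc] at this
  rw [hi] at h1
  exact I.bb hf hj (by omega) hE h1

theorem In.p1g (hf : Rule f) (I : In f a b n j0 jb jt) {i j : ℕ} (hi : i + 2 = n) (hj : j0 + 1 ≤ j) (hj1 : j + 1 ≤ jt) :
    ¬ f (a + 1) b (2 * i) (2 * j) := by
  intro h
  have ha := I.ha
  have h2 := I.one hf (i' := n + 1) (by omega) (by omega) le_rfl (by omega) (by omega) (by omega) h
  refine I.ff hf (i := i + 1) (by omega) (by omega) hj1 h2 ?_
  refine x_right (M := a + 1) hf (by omega) I.hb (fun x y a1 a2 a3 a4 => I.P1 hf (by omega) (by omega) (by omega) (by omega))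
    (fun p x y hp a1 a2 a3 a4 => ?_) (emit hf h).1
  have := I.zr (1 + p) x y (by omega) (by omega) (by omega) (by omega) (by omega) (by omega) (by omega)
  rwa [← add_assoc] at this

theorem In.P1' (hf : Rule f) (I : In f a b n j0 jb jt) {x y : ℕ} (hx : 2 * n ≤ x + 4) (hx1 : x ≤ 2 * n + 1)
    (hy : 2 * j0 ≤ y + 1) (hc : 2 * n ≤ x + 3 ∨ 2 * j0 + 1 ≤ y) (hy1 : y + 1 ≤ 2 * jt) : ¬ f (a + 1) b x y := by
  by_cases h : 2 * n ≤ x + 3
  · exact I.P1 hf h hx1 hy (by omega)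
  · by_cases h4 : x % 2 = 1 ∨ y % 2 = 1
    · exact I.p1 x y h4 (by omega) (by omega) (by omega) (by omega) (by omega)
    · obtain ⟨j, rfl⟩ : ∃ j, y = 2 * j := ⟨y / 2, by omega⟩
      obtain ⟨i, rfl⟩ : ∃ i, x = 2 * i := ⟨x / 2, by omega⟩
      exact I.p1g hf (by omega) (by omega) (by omega)

/-- `P_(6k+5)`, cells which are not of the type (even, even), columns `2 n, 2 n + 1` -/
theorem In.P5ne (hf : Rule f) (I : In f a b n j0 jb jt) {x y : ℕ} (hxy : x % 2 = 1 ∨ y % 2 = 1) (hx : 2 * n ≤ x)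
    (hx1 : x ≤ 2 * n + 1) (hy : 2 * j0 + 1 ≤ y) (hy1 : y ≤ 2 * jt + 1) : ¬ f (a + 5) b x y := by
  have h0 := I.h0
  refine no_kill (M := a + 3) hf hxy (fun x' y' a1 a2 a3 a4 => I.P3 hf (by omega) (by omega) (by omega) (by omega))
    (fun p x' y' hp a1 a2 a3 a4 => ?_)
  have := I.zr (3 + p) x' y' (by omega) (by omega) (by omega) (by omega) (by omega) (by omega) (by omega)
  rwa [← add_assoc] at this

/-- a missing `r` of `6k+6` does not pass the column `n` -/
theorem In.stop6 (hf : Rule f) (I : In f a b n j0 jb jt) {j : ℕ} (hj : j0 + 1 ≤ j) (hj1 : j ≤ jt) :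
    sr f (a + 6) b n j := by
  have ha := I.ha
  by_contra h
  have h1 : bX f (a + 5 + 1) b (n + 1) j := by
    refine x_right hf (by omega) I.hb (fun x y a1 a2 a3 a4 => ?_) (fun p x y hp a1 a2 a3 a4 => ?_) h
    · rcases (show x = 2 * n + 1 ∨ x = 2 * n + 2 by omega) with h2 | h2
      · exact I.P5ne hf (by omega) (by omega) (by omega) (by omega) (by omega)
      · rw [h2]
        exact I.z2 2 y (by omega) (by omega) (by omega) (by omega)
    · have := I.zr (5 + p) x y (by omega) (by omega) (by omega) (by omega) (by omega) (by omega) (by omega)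
      rwa [← add_assoc] at this
  exact I.f6 j hj hj1 h1

theorem In.p5k (hf : Rule f) (I : In f a b n j0 jb jt) {j : ℕ} (hj : j0 + 1 ≤ j) (hj1 : j ≤ jt) :
    ¬ f (a + 5) b (2 * n) (2 * j) := by
  intro h
  exact (emit hf h).1 (I.stop6 hf hj hj1)

/-- `P_(6k+5)` in the columns `2 n, 2 n + 1` -/
theorem In.P5 (hf : Rule f) (I : In f a b n j0 jb jt) {x y : ℕ} (hx : 2 * n ≤ x)
    (hx1 : x ≤ 2 * n + 1) (hy : 2 * j0 + 1 ≤ y) (hy1 : y ≤ 2 * jt + 1) : ¬ f (a + 5) b x y := by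
  by_cases h4 : x % 2 = 1 ∨ y % 2 = 1
  · exact I.P5ne hf h4 hx hx1 hy hy1
  · obtain ⟨j, rfl⟩ : ∃ j, y = 2 * j := ⟨y / 2, by omega⟩
    have e1 : x = 2 * n := by omega
    rw [e1]
    exact I.p5k hf (by omega) (by omega)

/-- no X-cell of `6k+6` in the column `n` -/
theorem In.x6 (hf : Rule f) (I : In f a b n j0 jb jt) {j : ℕ} (hj : j0 + 1 ≤ j) (hj1 : j ≤ jt) :
    ¬ bX f (a + 6) b n j := by
  intro hX
  have ha := I.ha
  rcases I.stop6 hf hj hj1 with hY | hO
  · refine no_coll hf (by omega) I.hb ?_ (fun p x y hp a1 a2 a3 a4 => ?_) hX hY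
    · exact I.z2 3 (2 * j + 2) (by omega) (by omega) (by omega) (by omega)
    · have := I.zr (6 + p) x y (by omega) (by omega) (by omega) (by omega) (by omega) (by omega) (by omega)
      rwa [← add_assoc] at this
  · exact O_X hf hX hO

theorem In.HB (hf : Rule f) (I : In f a b n j0 jb jt) : HB f a b n jb jt := by
  have h0b := I.h0b
  have hn := I.hn
  refine ⟨fun x y a1 a2 a3 a4 => I.P1 hf a1 a2 (by omega) (by omega), fun x y a1 a2 a3 a4 => I.P3 hf a1 a2 (by omega) (by omega),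
    fun x y a1 a2 a3 a4 => I.P5 hf a1 a2 (by omega) (by omega), fun j a1 a2 => ⟨I.y4 hf (by omega) a2, I.x6 hf (by omega) a2⟩,
    fun j a1 a2 hE => ⟨I.bb hf (by omega) (by omega) hE, ?_⟩⟩
  have := I.ff hf (i := n - 1) (by omega) (j := j) (by omega) a2 hE
  unfold bX at this
  rwa [show 2 * (n - 1) = 2 * n - 2 by omega] at this

/-- the beam of the column `n - 1` of `6k+4` -/
theorem In.beam4 (hf : Rule f) (I : In f a b n j0 jb jt) {i j : ℕ} (hi : i + 1 = n) (hj : j0 ≤ j) (hj1 : j + 1 ≤ jt) :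
    su f (a + 4) b i j := by
  have ha := I.ha
  by_contra hu
  refine beam (M := a + 3) (i := i) (jt := jt - 1) hf (by omega) I.hb (by omega) (fun x y h4 a1 a2 a3 a4 => ?_)
    (fun j' a1 a2 => ?_) (fun p x y hp a1 a2 a3 a4 => ?_) (fun p x y hp hp1 a1 a2 a3 a4 => ?_) hu ?_
  · exact I.P3ne hf h4 (by omega) (by omega) (by omega) (by omega)
  · rw [show 2 * i + 2 = 2 * n by omega]
    exact I.p5k hf (j := j' + 1) (by omega) (by omega)
  · have := I.zr (3 + p) x y (by omega) (by omega) (by omega) (by omega) (by omega) (by omega) (by omega)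
    rwa [← add_assoc] at this
  · have := I.zr (3 + p) x y (by omega) (by omega) (by omega) (by omega) (by omega) (by omega) (by omega)
    rwa [← add_assoc] at this
  · have := I.db (I.HB hf)
    rwa [show n - 1 = i by omega] at this

theorem In.p3i (hf : Rule f) (I : In f a b n j0 jb jt) {i j : ℕ} (hi : i + 1 = n) (hj : j0 ≤ j) (hj1 : j + 1 ≤ jt) :
    ¬ f (a + 3) b (2 * i) (2 * j) := by
  intro h
  exact (emit hf h).2 (I.beam4 hf hi hj hj1)

/-- `P_(6k+3)` in the columns `2 n - 3 .. 2 n + 1` -/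
theorem In.P3' (hf : Rule f) (I : In f a b n j0 jb jt) {x y : ℕ} (hx : 2 * n ≤ x + 3)
    (hx1 : x ≤ 2 * n + 1) (hy : 2 * j0 ≤ y) (hc : 2 * n ≤ x + 2 ∨ 2 * j0 + 2 ≤ y) (hy1 : y + 1 ≤ 2 * jt) :
    ¬ f (a + 3) b x y := by
  have h0 := I.h0
  by_cases h : 2 * n ≤ x + 1
  · exact I.P3 hf h hx1 hy (by omega)
  · by_cases h4 : x % 2 = 1 ∨ y % 2 = 1
    · refine no_kill (M := a + 1) hf h4
        (fun x' y' a1 a2 a3 a4 => I.P1' hf (by omega) (by omega) (by omega) (by omega) (by omega))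
        (fun p x' y' hp a1 a2 a3 a4 => ?_)
      have := I.zr (1 + p) x' y' (by omega) (by omega) (by omega) (by omega) (by omega) (by omega) (by omega)
      rwa [← add_assoc] at this
    · obtain ⟨j, rfl⟩ : ∃ j, y = 2 * j := ⟨y / 2, by omega⟩
      obtain ⟨i, rfl⟩ : ∃ i, x = 2 * i := ⟨x / 2, by omega⟩
      exact I.p3i hf (by omega) (by omega) (by omega)

/-- no Y-cell of `6k+4` in the column `n - 1` -/
theorem In.y4' (hf : Rule f) (I : In f a b n j0 jb jt) {i j : ℕ} (hi : i + 1 = n) (hj : j0 + 1 ≤ j) (hj1 : j + 1 ≤ jt) :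
    ¬ bY f (a + 4) b i j := by
  intro hY
  have ha := I.ha
  rcases I.beam4 hf hi (by omega) hj1 with hX | hO
  · refine no_coll hf (L := a + 4) (by omega) I.hb ?_ (fun p x y hp a1 a2 a3 a4 => ?_) hX hY
    · rw [show 2 * i + 2 = 2 * n by omega]
      exact I.p5k hf (j := j + 1) (by omega) (by omega)
    · have := I.zr (4 + p) x y (by omega) (by omega) (by omega) (by omega) (by omega) (by omega) (by omega)
      rwa [← add_assoc] at this
  · exact O_Y hf hY hO

/-- `P_(6k+5)` in the columns `2 n - 2 .. 2 n + 1` -/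
theorem In.P5' (hf : Rule f) (I : In f a b n j0 jb jt) {x y : ℕ} (hx : 2 * n ≤ x + 2)
    (hx1 : x ≤ 2 * n + 1) (hy : 2 * j0 + 1 ≤ y) (hc : 2 * n ≤ x + 1 ∨ 2 * j0 + 3 ≤ y) (hy1 : y + 1 ≤ 2 * jt) :
    ¬ f (a + 5) b x y := by
  have h0 := I.h0
  have ha := I.ha
  by_cases h4 : x % 2 = 1 ∨ y % 2 = 1
  · refine no_kill (M := a + 3) hf h4
      (fun x' y' a1 a2 a3 a4 => I.P3' hf (by omega) (by omega) (by omega) (by omega) (by omega))
      (fun p x' y' hp a1 a2 a3 a4 => ?_)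
    have := I.zr (3 + p) x' y' (by omega) (by omega) (by omega) (by omega) (by omega) (by omega) (by omega)
    rwa [← add_assoc] at this
  · obtain ⟨j, rfl⟩ : ∃ j, y = 2 * j := ⟨y / 2, by omega⟩
    obtain ⟨i, rfl⟩ : ∃ i, x = 2 * i := ⟨x / 2, by omega⟩
    by_cases hi : i = n
    · rw [hi]
      exact I.p5k hf (by omega) (by omega)
    · intro h
      have h1 : bX f (a + 5 + 1) b (i + 1) j := by
        refine x_right hf (by omega) I.hb (fun x y a1 a2 a3 a4 => ?_) (fun p x y hp a1 a2 a3 a4 => ?_) (emit hf h).1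
        · rcases (show x = 2 * i + 1 ∨ x = 2 * n by omega) with h2 | h2
          · rw [h2]
            rcases (show y = 2 * j ∨ y = 2 * j + 1 by omega) with h3 | h3
            · rw [h3]
              exact kill hf h 0 0 1 0 (by omega) (by omega) le_rfl (by omega) (by omega)
            · rw [h3]
              exact kill hf h 0 0 1 1 (by omega) (by omega) le_rfl le_rfl (by omega)
          · rw [h2]
            exact I.P5 hf le_rfl (by omega) (by omega) (by omega)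
        · have := I.zr (5 + p) x y (by omega) (by omega) (by omega) (by omega) (by omega) (by omega) (by omega)
          rwa [← add_assoc] at this
      rw [show i + 1 = n by omega] at h1
      exact I.x6 hf (by omega) (by omega) h1

/-- `P_(6k+7)`, cells which are not of the type (even, even) -/
theorem In.P7ne (hf : Rule f) (I : In f a b n j0 jb jt) {x y : ℕ} (hxy : x % 2 = 1 ∨ y % 2 = 1) (hx : 2 * n ≤ x + 1)
    (hx1 : x ≤ 2 * n + 1) (hy : 2 * j0 + 2 ≤ y) (hc : 2 * n ≤ x ∨ 2 * j0 + 4 ≤ y) (hy1 : y + 1 ≤ 2 * jt) :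
    ¬ f (a + 7) b x y := by
  refine no_kill (M := a + 5) hf hxy
    (fun x' y' a1 a2 a3 a4 => I.P5' hf (by omega) (by omega) (by omega) (by omega) (by omega))
    (fun p x' y' hp a1 a2 a3 a4 => ?_)
  have := I.zr (5 + p) x' y' (by omega) (by omega) (by omega) (by omega) (by omega) (by omega) (by omega)
  rwa [← add_assoc] at this

theorem In.HC (hf : Rule f) (I : In f a b n j0 jb jt) : HC f a b n jb jt := by
  have h0b := I.h0b
  have hn := I.hn
  refine ⟨I.HB hf, fun x y a1 a2 a3 a4 => I.P1' hf a1 a2 (by omega) (by omega) (by omega),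
    fun x y a1 a2 a3 a4 => I.P3' hf a1 a2 (by omega) (by omega) (by omega),
    fun x y a1 a2 a3 a4 a5 => I.P5' hf a1 a2 (by omega) (by omega) (by omega),
    fun y a1 a2 => ⟨fun a3 => I.P7ne hf (by omega) (by omega) (by omega) (by omega) (by omega) (by omega),
      I.P7ne hf (by omega) (by omega) (by omega) (by omega) (by omega) (by omega)⟩, fun j a1 a2 => ?_⟩
  have := I.y4' hf (i := n - 1) (by omega) (j := j) (by omega) a2
  unfold bY at this
  rwa [show 2 * (n - 1) + 1 = 2 * n - 1 by omega] at this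

theorem In.p7o (hf : Rule f) (I : In f a b n j0 jb jt) {j : ℕ} (hj : j0 + 1 ≤ j) (hj1 : j + 1 ≤ jt) :
    ¬ f (a + 7) b (2 * n) (2 * j) := by
  intro h
  have ha := I.ha
  refine beam (M := a + 7) (i := n) (jt := jt - 1) hf (by omega) I.hb (by omega) (fun x y h4 a1 a2 a3 a4 => ?_)
    (fun j' a1 a2 => ?_) (fun p x y hp a1 a2 a3 a4 => ?_) (fun p x y hp hp1 a1 a2 a3 a4 => ?_) (emit hf h).2 (I.dc (I.HC hf))
  · exact I.P7ne hf h4 (by omega) (by omega) (by omega) (by omega) (by omega)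
  · exact I.z2 4 (2 * j' + 2) (by omega) (by omega) (by omega) (by omega)
  · have := I.zr (7 + p) x y (by omega) (by omega) (by omega) (by omega) (by omega) (by omega) (by omega)
    rwa [← add_assoc] at this
  · have := I.zr (7 + p) x y (by omega) (by omega) (by omega) (by omega) (by omega) (by omega) (by omega)
    rwa [← add_assoc] at this

/-- `P_(6k+7)` in the columns `2 n - 1, 2 n, 2 n + 1` -/
theorem In.P7 (hf : Rule f) (I : In f a b n j0 jb jt) {x y : ℕ} (hx : 2 * n ≤ x + 1)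
    (hx1 : x ≤ 2 * n + 1) (hy : 2 * j0 + 2 ≤ y) (hc : 2 * n ≤ x ∨ 2 * j0 + 4 ≤ y) (hy1 : y + 1 ≤ 2 * jt) :
    ¬ f (a + 7) b x y := by
  by_cases h4 : x % 2 = 1 ∨ y % 2 = 1
  · exact I.P7ne hf h4 hx hx1 hy hc hy1
  · obtain ⟨j, rfl⟩ : ∃ j, y = 2 * j := ⟨y / 2, by omega⟩
    have e1 : x = 2 * n := by omega
    rw [e1]
    exact I.p7o hf (by omega) (by omega)

/-- **`P_(6k+9)` in the columns `2 n, 2 n + 1`.** -/
theorem In.P9 (hf : Rule f) (I : In f a b n j0 jb jt) {x y : ℕ} (hx : 2 * n ≤ x)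
    (hx1 : x ≤ 2 * n + 1) (hy : 2 * j0 + 3 ≤ y) (hc : 2 * n + 1 ≤ x ∨ 2 * j0 + 5 ≤ y) (hy1 : y + 1 ≤ 2 * jt) :
    ¬ f (a + 9) b x y := by
  have ha := I.ha
  by_cases h4 : x % 2 = 1 ∨ y % 2 = 1
  · refine no_kill (M := a + 7) hf h4
      (fun x' y' a1 a2 a3 a4 => I.P7 hf (by omega) (by omega) (by omega) (by omega) (by omega))
      (fun p x' y' hp a1 a2 a3 a4 => ?_)
    have := I.zr (7 + p) x' y' (by omega) (by omega) (by omega) (by omega) (by omega) (by omega) (by omega)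
    rwa [← add_assoc] at this
  · obtain ⟨j, rfl⟩ : ∃ j, y = 2 * j := ⟨y / 2, by omega⟩
    have e1 : x = 2 * n := by omega
    rw [e1]
    intro h
    have h1 : bX f (a + 9 + 1) b (n + 1) j := by
      refine x_right hf (by omega) I.hb (fun x y a1 a2 a3 a4 => ?_) (fun p x y hp a1 a2 a3 a4 => ?_) (emit hf h).1
      · rcases (show x = 2 * n + 1 ∨ x = 2 * n + 2 by omega) with h2 | h2
        · rw [h2]
          rcases (show y = 2 * j ∨ y = 2 * j + 1 by omega) with h3 | h3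
          · rw [h3]
            exact kill hf h 0 0 1 0 (by omega) (by omega) le_rfl (by omega) (by omega)
          · rw [h3]
            exact kill hf h 0 0 1 1 (by omega) (by omega) le_rfl le_rfl (by omega)
        · rw [h2]
          exact I.z2 4 y (by omega) (by omega) (by omega) (by omega)
      · have := I.zr (9 + p) x y (by omega) (by omega) (by omega) (by omega) (by omega) (by omega) (by omega)
        rwa [← add_assoc] at this
    have h2 := kill hf h1 0 0 1 1 (by omega) (by omega) le_rfl le_rfl (by omega)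
    exact h2 (I.s10 (j + 1) (by omega) (by omega))

/-- **The in-line `n` of the leader.** -/
theorem In.inline (hf : Rule f) (I : In f a b n j0 jb jt) {j1 : ℕ} (hj1 : j1 ≤ jt) (h : bY f (a + 10) b n j1) {j : ℕ}
    (hj : j0 + 3 ≤ j) (hjj : j ≤ j1) : bY f (a + 10) b n j := by
  have ha := I.ha
  obtain ⟨t, rfl⟩ : ∃ t, j1 = j + t := ⟨j1 - j, by omega⟩
  clear hjj
  have key : ∀ s, s ≤ t → bY f (a + 10) b n (j + (t - s)) := by
    intro s
    induction s with
    | zero =>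
      intro _
      rwa [Nat.sub_zero]
    | succ s ih =>
      intro hs
      have ih1 := ih (by omega)
      rw [show t - s = t - (s + 1) + 1 by omega, ← add_assoc] at ih1
      have hu : ¬ su f (a + 10) b n (j + (t - (s + 1))) := fun h => su_kill hf h ih1
      by_contra hY
      refine hu (Or.inr ((rO hf (by omega) I.hb (nb_of (fun x' y' a1 a2 a3 a4 => ?_)
        (fun p x' y' hp a1 a2 a3 a4 => ?_))).2 ⟨fun h => hu (Or.inl h), hY⟩))
      · exact I.P9 hf (by omega) (by omega) (by omega) (by omega) (by omega)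
      · have := I.zr (10 - p) x' y' (by omega) (by omega) (by omega) (by omega) (by omega) (by omega) (by omega)
        rwa [show a + (10 - p) = a + 10 - p by omega] at this
  have := key t le_rfl
  rwa [Nat.sub_self] at this

end Pool.Agent.SNT.LineR0
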