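import Pool.Agent.SNT.PL
import Pool.Agent.SNT.WrapC
import Pool.Agent.SNT.LineR0

set_option autoImplicit false
set_option synthInstance.maxSize 100000
set_option synthInstance.maxHeartbeats 4000000

/-! Transports along the columns `x = 2 n - 3, 2 n - 1, 2 n + 1` in the middle of the strip, from the In facts of the row `c`
(helper13, core miner of helper57). -/

namespace Pool.Agent.SNT.TrC

open Pool.Agent.SNT Pool.Agent.SNT.Sig Pool.Agent.SNT.Loc Pool.Agent.SNT.LW Pool.Agent.SNT.NHZ Pool.Agent.SNT.DRun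
open Pool.Agent.SNT.PB

variable {f : ℕ → ℕ → ℕ → ℕ → Prop}

/-- The facts: the leads of `6 k` are `n - (k + 4)`, `n - 2`, of `6 k + 2` `n - 5`. -/
structure CI (f : ℕ → ℕ → ℕ → ℕ → Prop) (k c n : ℕ) : Prop where
  T : NHT f k c (2 * n)
  lw : ∀ M R x y : ℕ, M + 1 = 6 * k → c ≤ R + 12 → R ≤ c + 12 → 2 * n ≤ x + 20 → y ≤ x → x ≤ y + 4 * k → ¬ f M R x y
  I : LineR0.In f (6 * k) c n (n + 2 - k) (n - 5) (n - 4)
  D0 : Cyc f (6 * k) (c - 2) (2 * (n - 2) + 2)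
  c0 : Cyc f (6 * k) (c - 6) (2 * (n - (k + 4)) + 2)
  c2 : Cyc f (6 * k + 2) (c - 4) (2 * (n - 5) + 2)

theorem st_bu_chk : check 12 11 19 20 0 1 0 1 0
    (fun j n p q => decide ((j = 2 ∧ n = 5 ∧ q ≤ p + 6 ∧ p ≤ q + 4 ∧ 11 ≤ p ∧ (p % 2 = 1 ∧ q % 2 = 1))
      ∨ (j = 2 ∧ n = 3 ∧ q ≤ p + 6 ∧ p ≤ q + 4 ∧ 3 ≤ q ∧ (p % 2 = 0 ∧ q % 2 = 0))
      ∨ (j = 4 ∧ n = 3 ∧ q ≤ p + 6 ∧ p ≤ q + 4 ∧ 5 ≤ p ∧ (p % 2 = 1 ∧ q % 2 = 1))
      ∨ (j = 2 ∧ n = 7 ∧ p = 9 ∧ q = 9)))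
    (fun j n p q => decide ((j = 4 ∧ n = 7 ∧ p = 14 ∧ 12 ≤ q ∧ q ≤ 12 ∧ q % 2 = 0)
      ∨ (j = 3 ∧ n = 7 ∧ 8 ≤ p ∧ p ≤ 14 ∧ 10 ≤ q ∧ q ≤ 13 ∧ p ≤ q + 3 ∧ ¬ (p % 2 = 0 ∧ q % 2 = 1))
      ∨ (j = 2 ∧ n = 6 ∧ 8 ≤ p ∧ p ≤ 13 ∧ 11 ≤ q ∧ q ≤ 11 ∧ p ≤ q + 2)
      ∨ (j = 5 ∧ n = 7 ∧ p = 14 ∧ 13 ≤ q ∧ q ≤ 13)
      ∨ (j = 3 ∧ n = 6 ∧ 8 ≤ p ∧ p ≤ 14 ∧ 10 ≤ q ∧ q ≤ 13 ∧ p ≤ q + 3)
      ∨ (j = 4 ∧ n = 6 ∧ 8 ≤ p ∧ p ≤ 14 ∧ 10 ≤ q ∧ q ≤ 13 ∧ p ≤ q + 3)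
      ∨ (j = 5 ∧ n = 6 ∧ 9 ≤ p ∧ p ≤ 14 ∧ 10 ≤ q ∧ q ≤ 13 ∧ p ≤ q + 2)
      ∨ (j = 6 ∧ n = 6 ∧ 9 ≤ p ∧ p ≤ 14 ∧ 10 ≤ q ∧ q ≤ 13 ∧ p ≤ q + 2)
      ∨ (j = 1 ∧ n = 6 ∧ q ≤ p + 7 ∧ p ≤ q + 5)
      ∨ (j = 1 ∧ n = 5 ∧ q ≤ p + 7 ∧ p ≤ q + 5)
      ∨ (j = 1 ∧ n = 4 ∧ q ≤ p + 7 ∧ p ≤ q + 5)
      ∨ (j = 1 ∧ n = 7 ∧ q ≤ p + 7 ∧ p ≤ q + 5)
      ∨ (j = 2 ∧ n = 6 ∧ q ≤ p + 6 ∧ p ≤ q + 4 ∧ 12 ≤ p)
      ∨ (j = 2 ∧ n = 4 ∧ q ≤ p + 6 ∧ p ≤ q + 4 ∧ 5 ≤ q)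
      ∨ (j = 4 ∧ n = 4 ∧ q ≤ p + 6 ∧ p ≤ q + 4 ∧ 6 ≤ p)
      ∨ (j = 3 ∧ n = 5 ∧ 8 ≤ p ∧ q ≤ p + 3 ∧ p ≤ q + 0)
      ∨ (j = 5 ∧ n = 5 ∧ 8 ≤ p ∧ q ≤ p + 4 ∧ p ≤ q + 1)
      ∨ (j = 7 ∧ n = 5 ∧ 8 ≤ p ∧ q ≤ p + 5 ∧ p ≤ q + 2)
      ∨ (j = 3 ∧ n = 4 ∧ 5 ≤ p ∧ q ≤ p + 3 ∧ p ≤ q + 0)
      ∨ (j = 5 ∧ n = 4 ∧ 5 ≤ p ∧ q ≤ p + 4 ∧ p ≤ q + 1)
      ∨ (j = 6 ∧ n = 4 ∧ 5 ≤ p ∧ q ≤ p + 5 ∧ p ≤ q + 2)
      ∨ (j = 7 ∧ n = 4 ∧ 5 ≤ p ∧ q ≤ p + 5 ∧ p ≤ q + 2)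
      ∨ (j = 2 ∧ n = 6 ∧ 9 ≤ p ∧ q ≤ p + 2 ∧ p + 1 ≤ q)
      ∨ (j = 2 ∧ n = 7 ∧ p = 9 ∧ q = 11)))
    189
    0x351b053525803d4f5235edb22cfa802cfb0a1c9c801c9c81146780145e0014721a14689a15308015f93a160300160d9a1e4180266c4a2e96002e968a26580026580115f9831e2d801e2d841e19801e19811473031531001531041473031531001e19ea264e00264e0423548015e480147d80147c8012f60012e2003d4f073d4e873d45073d44873c91073c90873c87073c868735ed8735ed0735e38735e307352f87351a87346707346687345d07345c872e96872dd8872dd8072dce872dce072dc3872dc3072db9872db9072d05872cfb872cfb072cf1072cf0872c3d072c33072c3287266c87266c07266b8726578725ae8725ae0725ad8725a48725a40725a387259a07259987259007258f8724c68724130724128724090724088723548f1e42071e38071e37871e2e071e24071e23871e19071e0f871e0f071d84071d83871d7a071d79871d70071d6f871d66071d65871d5b871d5b071d51871d51071c92871bd48716038715ef8715ee8715e58715e48f154f87154f07154587154507153b87153187152787152707147d8f147c8f147287147187145e8713b50713b48713b40713b38713ab0713aa8713aa0713a98713a08713a00712f60f12e20f0de3870de3070dd9870dd9070dcf870dcf070dce870dc5870dc5070dc4870d25870d25070d1b870d1b070d11870d11070d10870d07870d07070d06870c49070c48870c48070c47870c3f070c3e870c3e070c3d870c34870c34070b8b070b8a870b8a070b89870b81070b80870b80070b7f870b76870b7607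 = true := by
  decide +kernel

/-- (b) `6 k`, row `c`, column `2 n - 3`, wall to diagonal, one step -/
theorem st_bu (hf : Rule f) {k c n s : ℕ} (H : CI f k c n) (hs : s % 2 = 0) (h1 : s + 10 ≤ 2 * n) (h2 : 2 * n + 2 ≤ s + 2 * k)
    (g1 : f (6 * k) c (2 * n - 3) s) (g2 : ¬ f (6 * k) c (2 * n - 3) (s + 2)) : False := by
  have hk := H.T.hk
  have hc := H.T.hc
  have h4' := H.T.h4
  have hb := H.T.hb
  have hN := H.T.hN2
  obtain ⟨a0, ha0⟩ : ∃ z, z + 2 = 6 * k := ⟨6 * k - 2, by omega⟩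
  obtain ⟨b0, hb0⟩ : ∃ z, z + 7 = c := ⟨c - 7, by omega⟩
  obtain ⟨x0, hx0⟩ : ∃ z, z + 12 = 2 * n := ⟨2 * n - 12, by omega⟩
  obtain ⟨y0, hy0⟩ : ∃ z, z + 9 = s := ⟨s - 9, by omega⟩
  refine check_sound hf (a0 := a0) (b0 := b0) (x0 := x0) (y0 := y0) st_bu_chk
    ⟨fun h => absurd h (by decide), fun h => absurd h (by decide), fun h => absurd h (by decide), by omega, by omega,
      by omega, by omega⟩ ?_ ?_
  · intro j m p q hr h
    obtain ⟨-, -, -, -, hp1, hp2, hq1, hq2⟩ := hr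
    replace h := of_decide_eq_true h
    rcases h with h | h | h | h
    · obtain ⟨rfl, rfl, h⟩ := h
      exact (WrapC.v0 H.D0 (by omega) (by omega) (by omega) (by omega) (by omega) (by omega) (by omega)).mpr (by omega)
    · obtain ⟨rfl, rfl, h⟩ := h
      exact (WrapC.v2 H.c0 (by omega) (by omega) (by omega) (by omega) (by omega) (by omega) (by omega)).mpr (by omega)
    · obtain ⟨rfl, rfl, h⟩ := h
      exact (WrapC.v0 H.c2 (by omega) (by omega) (by omega) (by omega) (by omega) (by omega) (by omega)).mpr (by omega)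
    · obtain ⟨rfl, rfl, rfl, rfl⟩ := h
      exact mv g1 (by omega) (by omega) (by omega) (by omega)
  · intro j m p q hr h
    obtain ⟨-, -, -, -, hp1, hp2, hq1, hq2⟩ := hr
    replace h := of_decide_eq_true h
    rcases h with h | h | h | h | h | h | h | h | h | h | h | h | h | h | h | h | h | h | h | h | h | h | h | h
    · obtain ⟨rfl, rfl, h⟩ := h
      exact fun t => H.I.f2 ((y0 + q) / 2) (by omega) (by omega) (mv t (by omega) (by omega) (by omega) (by omega))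
    · obtain ⟨rfl, rfl, h⟩ := h
      exact fun t => H.I.p1 (x0 + p) (y0 + q) (by omega) (by omega) (by omega) (by omega) (by omega) (by omega) (mv t (by omega) (by omega) rfl rfl)
    · obtain ⟨rfl, rfl, h⟩ := h
      exact fun t => (H.I.z0 (x0 + p) (y0 + q) (by omega) (by omega) (by omega) (by omega) (by omega)).1 (mv t (by omega) (by omega) rfl rfl)
    · obtain ⟨rfl, rfl, h⟩ := h
      exact fun t => H.I.z2 1 (y0 + q) (by omega) (by omega) (by omega) (by omega) (mv t (by omega) (by omega) (by omega) rfl)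
    · obtain ⟨rfl, rfl, h⟩ := h
      exact fun t => H.I.zr 1 (x0 + p) (y0 + q) (by omega) (by omega) (by omega) (by omega) (by omega) (by omega) (by omega) (mv t (by omega) (by omega) rfl rfl)
    · obtain ⟨rfl, rfl, h⟩ := h
      exact fun t => H.I.zr 2 (x0 + p) (y0 + q) (by omega) (by omega) (by omega) (by omega) (by omega) (by omega) (by omega) (mv t (by omega) (by omega) rfl rfl)
    · obtain ⟨rfl, rfl, h⟩ := h
      exact fun t => H.I.zr 3 (x0 + p) (y0 + q) (by omega) (by omega) (by omega) (by omega) (by omega) (by omega) (by omega) (mv t (by omega) (by omega) rfl rfl)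
    · obtain ⟨rfl, rfl, h⟩ := h
      exact fun t => H.I.zr 4 (x0 + p) (y0 + q) (by omega) (by omega) (by omega) (by omega) (by omega) (by omega) (by omega) (mv t (by omega) (by omega) rfl rfl)
    · obtain ⟨rfl, rfl, h⟩ := h
      exact H.lw _ _ _ _ (by omega) (by omega) (by omega) (by omega) (by omega) (by omega)
    · obtain ⟨rfl, rfl, h⟩ := h
      exact H.lw _ _ _ _ (by omega) (by omega) (by omega) (by omega) (by omega) (by omega)
    · obtain ⟨rfl, rfl, h⟩ := h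
      exact H.lw _ _ _ _ (by omega) (by omega) (by omega) (by omega) (by omega) (by omega)
    · obtain ⟨rfl, rfl, h⟩ := h
      exact H.lw _ _ _ _ (by omega) (by omega) (by omega) (by omega) (by omega) (by omega)
    · obtain ⟨rfl, rfl, h⟩ := h
      exact mt (WrapC.v1 H.D0 (by omega) (by omega) (by omega) (by omega) (by omega) (by omega) (by omega) (by omega)).mp (by omega)
    · obtain ⟨rfl, rfl, h⟩ := h
      exact mt (WrapC.v3 H.c0 (by omega) (by omega) (by omega) (by omega) (by omega) (by omega) (by omega) (by omega)).mp (by omega)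
    · obtain ⟨rfl, rfl, h⟩ := h
      exact mt (WrapC.v1 H.c2 (by omega) (by omega) (by omega) (by omega) (by omega) (by omega) (by omega) (by omega)).mp (by omega)
    · obtain ⟨rfl, rfl, h⟩ := h
      exact NHT.pmi hf H.T (j := 3) (by omega) (by omega) (by omega) (by omega) (by omega) (by omega)
    · obtain ⟨rfl, rfl, h⟩ := h
      exact NHT.pmi hf H.T (j := 2) (by omega) (by omega) (by omega) (by omega) (by omega) (by omega)
    · obtain ⟨rfl, rfl, h⟩ := h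
      exact NHT.pmi hf H.T (j := 1) (by omega) (by omega) (by omega) (by omega) (by omega) (by omega)
    · obtain ⟨rfl, rfl, h⟩ := h
      exact NHT.rIn hf H.T (t := 3) (p := 1) (j := 3) (by omega) (by omega) (by omega) (by omega) (by omega) (by omega) (by omega) (by omega)
    · obtain ⟨rfl, rfl, h⟩ := h
      exact NHT.rIn hf H.T (t := 3) (p := 1) (j := 2) (by omega) (by omega) (by omega) (by omega) (by omega) (by omega) (by omega) (by omega)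
    · obtain ⟨rfl, rfl, h⟩ := h
      exact NHT.rIn hf H.T (t := 3) (p := 0) (j := 1) (by omega) (by omega) (by omega) (by omega) (by omega) (by omega) (by omega) (by omega)
    · obtain ⟨rfl, rfl, h⟩ := h
      exact NHT.rIn hf H.T (t := 3) (p := 1) (j := 1) (by omega) (by omega) (by omega) (by omega) (by omega) (by omega) (by omega) (by omega)
    · obtain ⟨rfl, rfl, h⟩ := h
      exact fun t => NHT.rm1i hf H.T (p := 0) (j := 4) (by omega) (by omega) (by omega) (by omega) (by omega) (by omega) (mv t rfl (by omega) rfl rfl)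
    · obtain ⟨rfl, rfl, rfl, rfl⟩ := h
      exact fun t => g2 (mv t (by omega) (by omega) (by omega) (by omega))

theorem st_bd_chk : check 12 11 19 20 0 1 0 1 0
    (fun j n p q => decide ((j = 2 ∧ n = 7 ∧ p = 9 ∧ q = 11)))
    (fun j n p q => decide ((j = 1 ∧ n = 6 ∧ q ≤ p + 7 ∧ p ≤ q + 5)
      ∨ (j = 1 ∧ n = 5 ∧ q ≤ p + 7 ∧ p ≤ q + 5)
      ∨ (j = 1 ∧ n = 4 ∧ q ≤ p + 7 ∧ p ≤ q + 5)
      ∨ (j = 1 ∧ n = 7 ∧ q ≤ p + 7 ∧ p ≤ q + 5)
      ∨ (j = 2 ∧ n = 4 ∧ q ≤ p + 6 ∧ p ≤ q + 4 ∧ 5 ≤ q)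
      ∨ (j = 3 ∧ n = 5 ∧ 8 ≤ p ∧ q ≤ p + 3 ∧ p ≤ q + 0)
      ∨ (j = 3 ∧ n = 4 ∧ 5 ≤ p ∧ q ≤ p + 3 ∧ p ≤ q + 0)
      ∨ (j = 2 ∧ n = 6 ∧ 9 ≤ p ∧ q ≤ p + 2 ∧ p + 1 ≤ q)
      ∨ (j = 2 ∧ n = 7 ∧ p = 9 ∧ q = 9)))
    56
    0x145483151c8015e53a14688315268015268415e503145e001c88ca144a00144a0415e5801c88871c88071bca871bca071bc0871bc00715e58f15e48715da87152707145e87144a8713aa8713aa0713a08713a007139687139607138c87138c070dbb070dba870db1070db0870cfd070cfc870cf3070cf2870c3e870c3e070c34870c34070c2a870c2a070c20870c20070b80870b80070b76870b76070b6c870b6c070b62870b6207 = true := by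
  decide +kernel

/-- (b) `6 k`, row `c`, column `2 n - 3`, diagonal to wall, one step -/
theorem st_bd (hf : Rule f) {k c n s : ℕ} (H : CI f k c n) (hs : s % 2 = 0) (h1 : s + 10 ≤ 2 * n) (h2 : 2 * n + 2 ≤ s + 2 * k)
    (g1 : f (6 * k) c (2 * n - 3) (s + 2)) (g2 : ¬ f (6 * k) c (2 * n - 3) s) : False := by
  have hk := H.T.hk
  have hc := H.T.hc
  have h4' := H.T.h4
  have hb := H.T.hb
  have hN := H.T.hN2
  obtain ⟨a0, ha0⟩ : ∃ z, z + 2 = 6 * k := ⟨6 * k - 2, by omega⟩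
  obtain ⟨b0, hb0⟩ : ∃ z, z + 7 = c := ⟨c - 7, by omega⟩
  obtain ⟨x0, hx0⟩ : ∃ z, z + 12 = 2 * n := ⟨2 * n - 12, by omega⟩
  obtain ⟨y0, hy0⟩ : ∃ z, z + 9 = s := ⟨s - 9, by omega⟩
  refine check_sound hf (a0 := a0) (b0 := b0) (x0 := x0) (y0 := y0) st_bd_chk
    ⟨fun h => absurd h (by decide), fun h => absurd h (by decide), fun h => absurd h (by decide), by omega, by omega,
      by omega, by omega⟩ ?_ ?_
  · intro j m p q hr h
    obtain ⟨-, -, -, -, hp1, hp2, hq1, hq2⟩ := hr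
    replace h := of_decide_eq_true h
    obtain ⟨rfl, rfl, rfl, rfl⟩ := h
    exact mv g1 (by omega) (by omega) (by omega) (by omega)
  · intro j m p q hr h
    obtain ⟨-, -, -, -, hp1, hp2, hq1, hq2⟩ := hr
    replace h := of_decide_eq_true h
    rcases h with h | h | h | h | h | h | h | h | h
    · obtain ⟨rfl, rfl, h⟩ := h
      exact H.lw _ _ _ _ (by omega) (by omega) (by omega) (by omega) (by omega) (by omega)
    · obtain ⟨rfl, rfl, h⟩ := h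
      exact H.lw _ _ _ _ (by omega) (by omega) (by omega) (by omega) (by omega) (by omega)
    · obtain ⟨rfl, rfl, h⟩ := h
      exact H.lw _ _ _ _ (by omega) (by omega) (by omega) (by omega) (by omega) (by omega)
    · obtain ⟨rfl, rfl, h⟩ := h
      exact H.lw _ _ _ _ (by omega) (by omega) (by omega) (by omega) (by omega) (by omega)
    · obtain ⟨rfl, rfl, h⟩ := h
      exact mt (WrapC.v3 H.c0 (by omega) (by omega) (by omega) (by omega) (by omega) (by omega) (by omega) (by omega)).mp (by omega)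
    · obtain ⟨rfl, rfl, h⟩ := h
      exact NHT.pmi hf H.T (j := 3) (by omega) (by omega) (by omega) (by omega) (by omega) (by omega)
    · obtain ⟨rfl, rfl, h⟩ := h
      exact NHT.rIn hf H.T (t := 3) (p := 1) (j := 3) (by omega) (by omega) (by omega) (by omega) (by omega) (by omega) (by omega) (by omega)
    · obtain ⟨rfl, rfl, h⟩ := h
      exact fun t => NHT.rm1i hf H.T (p := 0) (j := 4) (by omega) (by omega) (by omega) (by omega) (by omega) (by omega) (mv t rfl (by omega) rfl rfl)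
    · obtain ⟨rfl, rfl, rfl, rfl⟩ := h
      exact fun t => g2 (mv t (by omega) (by omega) (by omega) (by omega))

theorem st_b1u_chk : check 12 11 19 20 0 1 0 1 0
    (fun j n p q => decide ((j = 2 ∧ n = 7 ∧ p = 9 ∧ q = 9)))
    (fun j n p q => decide ((j = 4 ∧ n = 7 ∧ p = 12 ∧ 10 ≤ q ∧ q ≤ 12 ∧ q % 2 = 0)
      ∨ (j = 3 ∧ n = 7 ∧ 6 ≤ p ∧ p ≤ 12 ∧ 8 ≤ q ∧ q ≤ 13 ∧ p ≤ q + 3 ∧ ¬ (p % 2 = 0 ∧ q % 2 = 1))
      ∨ (j = 2 ∧ n = 6 ∧ 6 ≤ p ∧ p ≤ 11 ∧ 9 ≤ q ∧ q ≤ 11 ∧ p ≤ q + 2)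
      ∨ (j = 1 ∧ n = 6 ∧ 6 ≤ p ∧ p ≤ 11 ∧ 9 ≤ q ∧ q ≤ 11 ∧ p ≤ q + 2)
      ∨ (j = 1 ∧ n = 7 ∧ 6 ≤ p ∧ p ≤ 11 ∧ 9 ≤ q ∧ q ≤ 11 ∧ p ≤ q + 2)
      ∨ (j = 3 ∧ n = 6 ∧ 6 ≤ p ∧ p ≤ 12 ∧ 8 ≤ q ∧ q ≤ 13 ∧ p ≤ q + 3)
      ∨ (j = 4 ∧ n = 6 ∧ 6 ≤ p ∧ p ≤ 12 ∧ 8 ≤ q ∧ q ≤ 13 ∧ p ≤ q + 3)
      ∨ (j = 2 ∧ n = 7 ∧ p = 9 ∧ q = 11)))
    43
    0x15f9831e2d8026584a1e19801e198115e480265807265787259a07259987259007258f871e2e071e24071e23871e19071e0f871e0f071d70071d6f871d66071d65871d5b871d5b071d51871d510715ef8715e58715e48f153b87153b071531871531071527871527070dcf870dcf070dc5870dc5070d11870d11070d07870d0707 = true := by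
  decide +kernel

/-- (b) `6 k`, row `c`, column `2 n - 1`, wall to diagonal, one step -/
theorem st_b1u (hf : Rule f) {k c n s : ℕ} (H : CI f k c n) (hs : s % 2 = 0) (h1 : s + 10 ≤ 2 * n) (h2 : 2 * n + 4 ≤ s + 2 * k)
    (g1 : f (6 * k) c (2 * n - 1) s) (g2 : ¬ f (6 * k) c (2 * n - 1) (s + 2)) : False := by
  have hk := H.T.hk
  have hc := H.T.hc
  have h4' := H.T.h4
  have hb := H.T.hb
  have hN := H.T.hN2
  obtain ⟨a0, ha0⟩ : ∃ z, z + 2 = 6 * k := ⟨6 * k - 2, by omega⟩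
  obtain ⟨b0, hb0⟩ : ∃ z, z + 7 = c := ⟨c - 7, by omega⟩
  obtain ⟨x0, hx0⟩ : ∃ z, z + 10 = 2 * n := ⟨2 * n - 10, by omega⟩
  obtain ⟨y0, hy0⟩ : ∃ z, z + 9 = s := ⟨s - 9, by omega⟩
  refine check_sound hf (a0 := a0) (b0 := b0) (x0 := x0) (y0 := y0) st_b1u_chk
    ⟨fun h => absurd h (by decide), fun h => absurd h (by decide), fun h => absurd h (by decide), by omega, by omega,
      by omega, by omega⟩ ?_ ?_
  · intro j m p q hr h
    obtain ⟨-, -, -, -, hp1, hp2, hq1, hq2⟩ := hr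
    replace h := of_decide_eq_true h
    obtain ⟨rfl, rfl, rfl, rfl⟩ := h
    exact mv g1 (by omega) (by omega) (by omega) (by omega)
  · intro j m p q hr h
    obtain ⟨-, -, -, -, hp1, hp2, hq1, hq2⟩ := hr
    replace h := of_decide_eq_true h
    rcases h with h | h | h | h | h | h | h | h
    · obtain ⟨rfl, rfl, h⟩ := h
      exact fun t => H.I.f2 ((y0 + q) / 2) (by omega) (by omega) (mv t (by omega) (by omega) (by omega) (by omega))
    · obtain ⟨rfl, rfl, h⟩ := h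
      exact fun t => H.I.p1 (x0 + p) (y0 + q) (by omega) (by omega) (by omega) (by omega) (by omega) (by omega) (mv t (by omega) (by omega) rfl rfl)
    · obtain ⟨rfl, rfl, h⟩ := h
      exact fun t => (H.I.z0 (x0 + p) (y0 + q) (by omega) (by omega) (by omega) (by omega) (by omega)).1 (mv t (by omega) (by omega) rfl rfl)
    · obtain ⟨rfl, rfl, h⟩ := h
      exact fun t => (H.I.z0 (x0 + p) (y0 + q) (by omega) (by omega) (by omega) (by omega) (by omega)).2.1 (mv t (by omega) (by omega) rfl rfl)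
    · obtain ⟨rfl, rfl, h⟩ := h
      exact fun t => (H.I.z0 (x0 + p) (y0 + q) (by omega) (by omega) (by omega) (by omega) (by omega)).2.2 (mv t (by omega) (by omega) rfl rfl)
    · obtain ⟨rfl, rfl, h⟩ := h
      exact fun t => H.I.zr 1 (x0 + p) (y0 + q) (by omega) (by omega) (by omega) (by omega) (by omega) (by omega) (by omega) (mv t (by omega) (by omega) rfl rfl)
    · obtain ⟨rfl, rfl, h⟩ := h
      exact fun t => H.I.zr 2 (x0 + p) (y0 + q) (by omega) (by omega) (by omega) (by omega) (by omega) (by omega) (by omega) (mv t (by omega) (by omega) rfl rfl)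
    · obtain ⟨rfl, rfl, rfl, rfl⟩ := h
      exact fun t => g2 (mv t (by omega) (by omega) (by omega) (by omega))

theorem st_b1d_chk : check 12 11 19 20 0 1 0 1 0
    (fun j n p q => decide ((j = 2 ∧ n = 7 ∧ p = 9 ∧ q = 11)))
    (fun j n p q => decide ((j = 2 ∧ n = 6 ∧ 6 ≤ p ∧ p ≤ 11 ∧ 9 ≤ q ∧ q ≤ 9 ∧ p ≤ q + 2)
      ∨ (j = 1 ∧ n = 6 ∧ q ≤ p + 7 ∧ p ≤ q + 5)
      ∨ (j = 1 ∧ n = 7 ∧ q ≤ p + 7 ∧ p ≤ q + 5)
      ∨ (j = 2 ∧ n = 6 ∧ 7 ≤ p ∧ q ≤ p + 2 ∧ p + 1 ≤ q)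
      ∨ (j = 2 ∧ n = 7 ∧ p = 9 ∧ q = 9)))
    17
    0x15e50315e58015e58f15e48715da87152707152687151d07151c870dbb070dba870db1070db0870cfd070cfc870cf3070cf287 = true := by
  decide +kernel

/-- (b) `6 k`, row `c`, column `2 n - 1`, diagonal to wall, one step -/
theorem st_b1d (hf : Rule f) {k c n s : ℕ} (H : CI f k c n) (hs : s % 2 = 0) (h1 : s + 8 ≤ 2 * n) (h2 : 2 * n + 4 ≤ s + 2 * k)
    (g1 : f (6 * k) c (2 * n - 1) (s + 2)) (g2 : ¬ f (6 * k) c (2 * n - 1) s) : False := by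
  have hk := H.T.hk
  have hc := H.T.hc
  have h4' := H.T.h4
  have hb := H.T.hb
  have hN := H.T.hN2
  obtain ⟨a0, ha0⟩ : ∃ z, z + 2 = 6 * k := ⟨6 * k - 2, by omega⟩
  obtain ⟨b0, hb0⟩ : ∃ z, z + 7 = c := ⟨c - 7, by omega⟩
  obtain ⟨x0, hx0⟩ : ∃ z, z + 10 = 2 * n := ⟨2 * n - 10, by omega⟩
  obtain ⟨y0, hy0⟩ : ∃ z, z + 9 = s := ⟨s - 9, by omega⟩
  refine check_sound hf (a0 := a0) (b0 := b0) (x0 := x0) (y0 := y0) st_b1d_chk
    ⟨fun h => absurd h (by decide), fun h => absurd h (by decide), fun h => absurd h (by decide), by omega, by omega,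
      by omega, by omega⟩ ?_ ?_
  · intro j m p q hr h
    obtain ⟨-, -, -, -, hp1, hp2, hq1, hq2⟩ := hr
    replace h := of_decide_eq_true h
    obtain ⟨rfl, rfl, rfl, rfl⟩ := h
    exact mv g1 (by omega) (by omega) (by omega) (by omega)
  · intro j m p q hr h
    obtain ⟨-, -, -, -, hp1, hp2, hq1, hq2⟩ := hr
    replace h := of_decide_eq_true h
    rcases h with h | h | h | h | h
    · obtain ⟨rfl, rfl, h⟩ := h
      exact fun t => (H.I.z0 (x0 + p) (y0 + q) (by omega) (by omega) (by omega) (by omega) (by omega)).1 (mv t (by omega) (by omega) rfl rfl)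
    · obtain ⟨rfl, rfl, h⟩ := h
      exact H.lw _ _ _ _ (by omega) (by omega) (by omega) (by omega) (by omega) (by omega)
    · obtain ⟨rfl, rfl, h⟩ := h
      exact H.lw _ _ _ _ (by omega) (by omega) (by omega) (by omega) (by omega) (by omega)
    · obtain ⟨rfl, rfl, h⟩ := h
      exact fun t => NHT.rm1i hf H.T (p := 0) (j := 4) (by omega) (by omega) (by omega) (by omega) (by omega) (by omega) (mv t rfl (by omega) rfl rfl)
    · obtain ⟨rfl, rfl, rfl, rfl⟩ := h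
      exact fun t => g2 (mv t (by omega) (by omega) (by omega) (by omega))

theorem st_du_chk : check 12 11 19 20 0 1 0 1 0
    (fun j n p q => decide ((j = 4 ∧ n = 7 ∧ p = 9 ∧ q = 9)))
    (fun j n p q => decide ((j = 5 ∧ n = 7 ∧ 8 ≤ p ∧ p ≤ 11 ∧ 9 ≤ q ∧ q ≤ 12)
      ∨ (j = 4 ∧ n = 6 ∧ 7 ≤ p ∧ q ≤ p + 7 ∧ p ≤ q + 0)
      ∨ (j = 5 ∧ n = 6 ∧ 7 ≤ p ∧ q ≤ p + 7 ∧ p ≤ q + 0)
      ∨ (j = 4 ∧ n = 7 ∧ p = 9 ∧ q = 11)))
    17
    0x2e6d832638802e6d872e6d072e63872e63072daf872daf072da5872da50726438726398726388f258587258507257b87257b07 = true := by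
  decide +kernel

/-- (d) `6 k + 2`, row `c`, column `2 n - 1`, wall to diagonal, one step -/
theorem st_du (hf : Rule f) {k c n s : ℕ} (H : CI f k c n) (hs : s % 2 = 0) (h1 : s + 12 ≤ 2 * n) (h2 : 2 * n + 4 ≤ s + 2 * k)
    (g1 : f (6 * k + 2) c (2 * n - 1) s) (g2 : ¬ f (6 * k + 2) c (2 * n - 1) (s + 2)) : False := by
  have hk := H.T.hk
  have hc := H.T.hc
  have h4' := H.T.h4
  have hb := H.T.hb
  have hN := H.T.hN2
  obtain ⟨a0, ha0⟩ : ∃ z, z + 2 = 6 * k := ⟨6 * k - 2, by omega⟩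
  obtain ⟨b0, hb0⟩ : ∃ z, z + 7 = c := ⟨c - 7, by omega⟩
  obtain ⟨x0, hx0⟩ : ∃ z, z + 10 = 2 * n := ⟨2 * n - 10, by omega⟩
  obtain ⟨y0, hy0⟩ : ∃ z, z + 9 = s := ⟨s - 9, by omega⟩
  refine check_sound hf (a0 := a0) (b0 := b0) (x0 := x0) (y0 := y0) st_du_chk
    ⟨fun h => absurd h (by decide), fun h => absurd h (by decide), fun h => absurd h (by decide), by omega, by omega,
      by omega, by omega⟩ ?_ ?_
  · intro j m p q hr h
    obtain ⟨-, -, -, -, hp1, hp2, hq1, hq2⟩ := hr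
    replace h := of_decide_eq_true h
    obtain ⟨rfl, rfl, rfl, rfl⟩ := h
    exact mv g1 (by omega) (by omega) (by omega) (by omega)
  · intro j m p q hr h
    obtain ⟨-, -, -, -, hp1, hp2, hq1, hq2⟩ := hr
    replace h := of_decide_eq_true h
    rcases h with h | h | h | h
    · obtain ⟨rfl, rfl, h⟩ := h
      exact fun t => H.I.P3' hf (x := x0 + p) (y := y0 + q) (by omega) (by omega) (by omega) (by omega) (by omega) (mv t (by omega) (by omega) rfl rfl)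
    · obtain ⟨rfl, rfl, h⟩ := h
      exact fun t => NHT.rm1i hf H.T (p := 0) (j := 3) (by omega) (by omega) (by omega) (by omega) (by omega) (by omega) (mv t rfl (by omega) rfl rfl)
    · obtain ⟨rfl, rfl, h⟩ := h
      exact fun t => NHT.rm1i hf H.T (p := 1) (j := 3) (by omega) (by omega) (by omega) (by omega) (by omega) (by omega) (mv t rfl (by omega) rfl rfl)
    · obtain ⟨rfl, rfl, rfl, rfl⟩ := h
      exact fun t => g2 (mv t (by omega) (by omega) (by omega) (by omega))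

theorem st_dd_chk : check 12 11 19 20 0 1 0 1 0
    (fun j n p q => decide ((j = 2 ∧ n = 5 ∧ q ≤ p + 6 ∧ p ≤ q + 4 ∧ 9 ≤ p ∧ (p % 2 = 1 ∧ q % 2 = 1))
      ∨ (j = 2 ∧ n = 3 ∧ q ≤ p + 6 ∧ p ≤ q + 4 ∧ (p % 2 = 0 ∧ q % 2 = 0))
      ∨ (j = 4 ∧ n = 3 ∧ q ≤ p + 6 ∧ p ≤ q + 4 ∧ 3 ≤ p ∧ (p % 2 = 1 ∧ q % 2 = 1))
      ∨ (j = 4 ∧ n = 7 ∧ p = 9 ∧ q = 11)))
    (fun j n p q => decide ((j = 4 ∧ n = 7 ∧ p = 12 ∧ 10 ≤ q ∧ q ≤ 10 ∧ q % 2 = 0)
      ∨ (j = 3 ∧ n = 7 ∧ 6 ≤ p ∧ p ≤ 12 ∧ 8 ≤ q ∧ q ≤ 11 ∧ p ≤ q + 3 ∧ ¬ (p % 2 = 0 ∧ q % 2 = 1))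
      ∨ (j = 5 ∧ n = 7 ∧ p = 12 ∧ 11 ≤ q ∧ q ≤ 11)
      ∨ (j = 3 ∧ n = 6 ∧ 6 ≤ p ∧ p ≤ 12 ∧ 8 ≤ q ∧ q ≤ 11 ∧ p ≤ q + 3)
      ∨ (j = 4 ∧ n = 6 ∧ 6 ≤ p ∧ p ≤ 12 ∧ 8 ≤ q ∧ q ≤ 11 ∧ p ≤ q + 3)
      ∨ (j = 5 ∧ n = 6 ∧ 7 ≤ p ∧ p ≤ 12 ∧ 8 ≤ q ∧ q ≤ 11 ∧ p ≤ q + 2)
      ∨ (j = 6 ∧ n = 6 ∧ 7 ≤ p ∧ p ≤ 12 ∧ 8 ≤ q ∧ q ≤ 11 ∧ p ≤ q + 2)
      ∨ (j = 1 ∧ n = 6 ∧ q ≤ p + 7 ∧ p ≤ q + 5)
      ∨ (j = 1 ∧ n = 5 ∧ q ≤ p + 7 ∧ p ≤ q + 5)
      ∨ (j = 1 ∧ n = 4 ∧ q ≤ p + 7 ∧ p ≤ q + 5)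
      ∨ (j = 1 ∧ n = 7 ∧ q ≤ p + 7 ∧ p ≤ q + 5)
      ∨ (j = 2 ∧ n = 6 ∧ q ≤ p + 6 ∧ p ≤ q + 4 ∧ 10 ≤ p)
      ∨ (j = 2 ∧ n = 4 ∧ q ≤ p + 6 ∧ p ≤ q + 4 ∧ 3 ≤ q)
      ∨ (j = 4 ∧ n = 4 ∧ q ≤ p + 6 ∧ p ≤ q + 4 ∧ 4 ≤ p)
      ∨ (j = 3 ∧ n = 5 ∧ 6 ≤ p ∧ q ≤ p + 3 ∧ p ≤ q + 0)
      ∨ (j = 5 ∧ n = 5 ∧ 6 ≤ p ∧ q ≤ p + 4 ∧ p ≤ q + 1)
      ∨ (j = 7 ∧ n = 5 ∧ 6 ≤ p ∧ q ≤ p + 5 ∧ p ≤ q + 2)
      ∨ (j = 3 ∧ n = 4 ∧ 3 ≤ p ∧ q ≤ p + 3 ∧ p ≤ q + 0)
      ∨ (j = 5 ∧ n = 4 ∧ 3 ≤ p ∧ q ≤ p + 4 ∧ p ≤ q + 1)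
      ∨ (j = 6 ∧ n = 4 ∧ 3 ≤ p ∧ q ≤ p + 5 ∧ p ≤ q + 2)
      ∨ (j = 7 ∧ n = 4 ∧ 3 ≤ p ∧ q ≤ p + 5 ∧ p ≤ q + 2)
      ∨ (j = 4 ∧ n = 7 ∧ p = 9 ∧ q = 9)))
    162
    0x3506053510803d3a5235d8b22ce5802ce60a1c87801c8781145280144900145d1a14539a151b8015e43a15ee0015f89a1e2c8026574a264303264d00264d042e8183264300264301264c80264c841e048026395a263980233f8014678012e10012cd003d3a073d39873d30073d2f873c7c073c7b873c72073c718735d88735d80735ce8735ce07351a873505873452073451873448073447872e81872dc3872dc3072db9872db9072dae872dae072da4872da4072cf0872ce6872ce6072cdc072cdb872c28072c1e072c1d8726578726570726568726428726398f263887262e87259987259907259887258f87258f07258e87258507258487257b07257a8725710725708724b18723fe0723fd8723f40723f387233f8f1e2d071e23071e22871e19071e0f071e0e871e05071d6f071d6e871d65071d64871d5b071d5a871d51071d50871d47071d46871c7d871bbf8715ee8715d987153a87153a0715308715300714678f145d87145c87144987139f87139f07139e87139587139507139487138b87138b0712e10f12cd0f0dce870dce070dc4870dc4070dba070db9870db0070daf870d10870d10070d06870d06070cfc070cfb870cf2070cf1870c33070c32870c29870c29070c28870c1f870c1f070b75070b74870b6b870b6b070b6a870b61870b6107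 = true := by
  decide +kernel

/-- (d) `6 k + 2`, row `c`, column `2 n - 1`, diagonal to wall, one step -/
theorem st_dd (hf : Rule f) {k c n s : ℕ} (H : CI f k c n) (hs : s % 2 = 0) (h1 : s + 8 ≤ 2 * n) (h2 : 2 * n + 4 ≤ s + 2 * k)
    (g1 : f (6 * k + 2) c (2 * n - 1) (s + 2)) (g2 : ¬ f (6 * k + 2) c (2 * n - 1) s) : False := by
  have hk := H.T.hk
  have hc := H.T.hc
  have h4' := H.T.h4
  have hb := H.T.hb
  have hN := H.T.hN2
  obtain ⟨a0, ha0⟩ : ∃ z, z + 2 = 6 * k := ⟨6 * k - 2, by omega⟩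
  obtain ⟨b0, hb0⟩ : ∃ z, z + 7 = c := ⟨c - 7, by omega⟩
  obtain ⟨x0, hx0⟩ : ∃ z, z + 10 = 2 * n := ⟨2 * n - 10, by omega⟩
  obtain ⟨y0, hy0⟩ : ∃ z, z + 9 = s := ⟨s - 9, by omega⟩
  refine check_sound hf (a0 := a0) (b0 := b0) (x0 := x0) (y0 := y0) st_dd_chk
    ⟨fun h => absurd h (by decide), fun h => absurd h (by decide), fun h => absurd h (by decide), by omega, by omega,
      by omega, by omega⟩ ?_ ?_
  · intro j m p q hr h
    obtain ⟨-, -, -, -, hp1, hp2, hq1, hq2⟩ := hr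
    replace h := of_decide_eq_true h
    rcases h with h | h | h | h
    · obtain ⟨rfl, rfl, h⟩ := h
      exact (WrapC.v0 H.D0 (by omega) (by omega) (by omega) (by omega) (by omega) (by omega) (by omega)).mpr (by omega)
    · obtain ⟨rfl, rfl, h⟩ := h
      exact (WrapC.v2 H.c0 (by omega) (by omega) (by omega) (by omega) (by omega) (by omega) (by omega)).mpr (by omega)
    · obtain ⟨rfl, rfl, h⟩ := h
      exact (WrapC.v0 H.c2 (by omega) (by omega) (by omega) (by omega) (by omega) (by omega) (by omega)).mpr (by omega)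
    · obtain ⟨rfl, rfl, rfl, rfl⟩ := h
      exact mv g1 (by omega) (by omega) (by omega) (by omega)
  · intro j m p q hr h
    obtain ⟨-, -, -, -, hp1, hp2, hq1, hq2⟩ := hr
    replace h := of_decide_eq_true h
    rcases h with h | h | h | h | h | h | h | h | h | h | h | h | h | h | h | h | h | h | h | h | h | h
    · obtain ⟨rfl, rfl, h⟩ := h
      exact fun t => H.I.f2 ((y0 + q) / 2) (by omega) (by omega) (mv t (by omega) (by omega) (by omega) (by omega))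
    · obtain ⟨rfl, rfl, h⟩ := h
      exact fun t => H.I.p1 (x0 + p) (y0 + q) (by omega) (by omega) (by omega) (by omega) (by omega) (by omega) (mv t (by omega) (by omega) rfl rfl)
    · obtain ⟨rfl, rfl, h⟩ := h
      exact fun t => H.I.z2 1 (y0 + q) (by omega) (by omega) (by omega) (by omega) (mv t (by omega) (by omega) (by omega) rfl)
    · obtain ⟨rfl, rfl, h⟩ := h
      exact fun t => H.I.zr 1 (x0 + p) (y0 + q) (by omega) (by omega) (by omega) (by omega) (by omega) (by omega) (by omega) (mv t (by omega) (by omega) rfl rfl)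
    · obtain ⟨rfl, rfl, h⟩ := h
      exact fun t => H.I.zr 2 (x0 + p) (y0 + q) (by omega) (by omega) (by omega) (by omega) (by omega) (by omega) (by omega) (mv t (by omega) (by omega) rfl rfl)
    · obtain ⟨rfl, rfl, h⟩ := h
      exact fun t => H.I.zr 3 (x0 + p) (y0 + q) (by omega) (by omega) (by omega) (by omega) (by omega) (by omega) (by omega) (mv t (by omega) (by omega) rfl rfl)
    · obtain ⟨rfl, rfl, h⟩ := h
      exact fun t => H.I.zr 4 (x0 + p) (y0 + q) (by omega) (by omega) (by omega) (by omega) (by omega) (by omega) (by omega) (mv t (by omega) (by omega) rfl rfl)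
    · obtain ⟨rfl, rfl, h⟩ := h
      exact H.lw _ _ _ _ (by omega) (by omega) (by omega) (by omega) (by omega) (by omega)
    · obtain ⟨rfl, rfl, h⟩ := h
      exact H.lw _ _ _ _ (by omega) (by omega) (by omega) (by omega) (by omega) (by omega)
    · obtain ⟨rfl, rfl, h⟩ := h
      exact H.lw _ _ _ _ (by omega) (by omega) (by omega) (by omega) (by omega) (by omega)
    · obtain ⟨rfl, rfl, h⟩ := h
      exact H.lw _ _ _ _ (by omega) (by omega) (by omega) (by omega) (by omega) (by omega)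
    · obtain ⟨rfl, rfl, h⟩ := h
      exact mt (WrapC.v1 H.D0 (by omega) (by omega) (by omega) (by omega) (by omega) (by omega) (by omega) (by omega)).mp (by omega)
    · obtain ⟨rfl, rfl, h⟩ := h
      exact mt (WrapC.v3 H.c0 (by omega) (by omega) (by omega) (by omega) (by omega) (by omega) (by omega) (by omega)).mp (by omega)
    · obtain ⟨rfl, rfl, h⟩ := h
      exact mt (WrapC.v1 H.c2 (by omega) (by omega) (by omega) (by omega) (by omega) (by omega) (by omega) (by omega)).mp (by omega)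
    · obtain ⟨rfl, rfl, h⟩ := h
      exact NHT.pmi hf H.T (j := 3) (by omega) (by omega) (by omega) (by omega) (by omega) (by omega)
    · obtain ⟨rfl, rfl, h⟩ := h
      exact NHT.pmi hf H.T (j := 2) (by omega) (by omega) (by omega) (by omega) (by omega) (by omega)
    · obtain ⟨rfl, rfl, h⟩ := h
      exact NHT.pmi hf H.T (j := 1) (by omega) (by omega) (by omega) (by omega) (by omega) (by omega)
    · obtain ⟨rfl, rfl, h⟩ := h
      exact NHT.rIn hf H.T (t := 3) (p := 1) (j := 3) (by omega) (by omega) (by omega) (by omega) (by omega) (by omega) (by omega) (by omega)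
    · obtain ⟨rfl, rfl, h⟩ := h
      exact NHT.rIn hf H.T (t := 3) (p := 1) (j := 2) (by omega) (by omega) (by omega) (by omega) (by omega) (by omega) (by omega) (by omega)
    · obtain ⟨rfl, rfl, h⟩ := h
      exact NHT.rIn hf H.T (t := 3) (p := 0) (j := 1) (by omega) (by omega) (by omega) (by omega) (by omega) (by omega) (by omega) (by omega)
    · obtain ⟨rfl, rfl, h⟩ := h
      exact NHT.rIn hf H.T (t := 3) (p := 1) (j := 1) (by omega) (by omega) (by omega) (by omega) (by omega) (by omega) (by omega) (by omega)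
    · obtain ⟨rfl, rfl, rfl, rfl⟩ := h
      exact fun t => g2 (mv t (by omega) (by omega) (by omega) (by omega))

theorem st_cd_chk : check 12 10 19 20 0 1 0 1 0
    (fun j n p q => decide ((j = 2 ∧ n = 7 ∧ p = 9 ∧ q = 11)))
    (fun j n p q => decide ((j = 4 ∧ n = 5 ∧ p = 10 ∧ 8 ≤ q ∧ q ≤ 10 ∧ q % 2 = 0)
      ∨ (j = 3 ∧ n = 5 ∧ 4 ≤ p ∧ p ≤ 10 ∧ 6 ≤ q ∧ q ≤ 11 ∧ p ≤ q + 3 ∧ ¬ (p % 2 = 0 ∧ q % 2 = 1))
      ∨ (j = 2 ∧ n = 4 ∧ 4 ≤ p ∧ p ≤ 9 ∧ 7 ≤ q ∧ q ≤ 9 ∧ p ≤ q + 2)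
      ∨ (j = 1 ∧ n = 4 ∧ 4 ≤ p ∧ p ≤ 9 ∧ 7 ≤ q ∧ q ≤ 9 ∧ p ≤ q + 2)
      ∨ (j = 1 ∧ n = 5 ∧ 4 ≤ p ∧ p ≤ 9 ∧ 7 ≤ q ∧ q ≤ 9 ∧ p ≤ q + 2)
      ∨ (j = 3 ∧ n = 4 ∧ 4 ≤ p ∧ p ≤ 10 ∧ 6 ≤ q ∧ q ≤ 11 ∧ p ≤ q + 3)
      ∨ (j = 4 ∧ n = 4 ∧ 4 ≤ p ∧ p ≤ 10 ∧ 6 ≤ q ∧ q ≤ 11 ∧ p ≤ q + 3)
      ∨ (j = 1 ∧ n = 6 ∧ q ≤ p + 9 ∧ p ≤ q + 5)
      ∨ (j = 1 ∧ n = 7 ∧ q ≤ p + 9 ∧ p ≤ q + 5)
      ∨ (j = 2 ∧ n = 7 ∧ p = 9 ∧ q = 9)))
    57
    0x12ec8313aa8014692a12ec831a628021cf4a1a4e801a4e8113a08013a08414698021cf0721ce872111072110872107072106871a63071a59071a58871a4e071a44871a440719a50719a487199b07199a8719908719900719868719860714698f146887145e8712e287122e87122e07122487122407121a87121a070cfd070cfc870cf3070cf2870c3f070c3e870c35070c34870b80870b80070b76870b76070ac2870ac2070ab8870ab807 = true := by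
  decide +kernel

/-- (c) `6 k`, row `c + 2`, column `2 n + 1`, diagonal to wall, one step -/
theorem st_cd (hf : Rule f) {k c n s : ℕ} (H : CI f k c n) (hs : s % 2 = 0) (h1 : s + 8 ≤ 2 * n) (h2 : 2 * n + 6 ≤ s + 2 * k)
    (g1 : f (6 * k) (c + 2) (2 * n + 1) (s + 2)) (g2 : ¬ f (6 * k) (c + 2) (2 * n + 1) s) : False := by
  have hk := H.T.hk
  have hc := H.T.hc
  have h4' := H.T.h4
  have hb := H.T.hb
  have hN := H.T.hN2
  obtain ⟨a0, ha0⟩ : ∃ z, z + 2 = 6 * k := ⟨6 * k - 2, by omega⟩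
  obtain ⟨b0, hb0⟩ : ∃ z, z + 5 = c := ⟨c - 5, by omega⟩
  obtain ⟨x0, hx0⟩ : ∃ z, z + 8 = 2 * n := ⟨2 * n - 8, by omega⟩
  obtain ⟨y0, hy0⟩ : ∃ z, z + 9 = s := ⟨s - 9, by omega⟩
  refine check_sound hf (a0 := a0) (b0 := b0) (x0 := x0) (y0 := y0) st_cd_chk
    ⟨fun h => absurd h (by decide), fun h => absurd h (by decide), fun h => absurd h (by decide), by omega, by omega,
      by omega, by omega⟩ ?_ ?_
  · intro j m p q hr h
    obtain ⟨-, -, -, -, hp1, hp2, hq1, hq2⟩ := hr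
    replace h := of_decide_eq_true h
    obtain ⟨rfl, rfl, rfl, rfl⟩ := h
    exact mv g1 (by omega) (by omega) (by omega) (by omega)
  · intro j m p q hr h
    obtain ⟨-, -, -, -, hp1, hp2, hq1, hq2⟩ := hr
    replace h := of_decide_eq_true h
    rcases h with h | h | h | h | h | h | h | h | h | h
    · obtain ⟨rfl, rfl, h⟩ := h
      exact fun t => H.I.f2 ((y0 + q) / 2) (by omega) (by omega) (mv t (by omega) (by omega) (by omega) (by omega))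
    · obtain ⟨rfl, rfl, h⟩ := h
      exact fun t => H.I.p1 (x0 + p) (y0 + q) (by omega) (by omega) (by omega) (by omega) (by omega) (by omega) (mv t (by omega) (by omega) rfl rfl)
    · obtain ⟨rfl, rfl, h⟩ := h
      exact fun t => (H.I.z0 (x0 + p) (y0 + q) (by omega) (by omega) (by omega) (by omega) (by omega)).1 (mv t (by omega) (by omega) rfl rfl)
    · obtain ⟨rfl, rfl, h⟩ := h
      exact fun t => (H.I.z0 (x0 + p) (y0 + q) (by omega) (by omega) (by omega) (by omega) (by omega)).2.1 (mv t (by omega) (by omega) rfl rfl)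
    · obtain ⟨rfl, rfl, h⟩ := h
      exact fun t => (H.I.z0 (x0 + p) (y0 + q) (by omega) (by omega) (by omega) (by omega) (by omega)).2.2 (mv t (by omega) (by omega) rfl rfl)
    · obtain ⟨rfl, rfl, h⟩ := h
      exact fun t => H.I.zr 1 (x0 + p) (y0 + q) (by omega) (by omega) (by omega) (by omega) (by omega) (by omega) (by omega) (mv t (by omega) (by omega) rfl rfl)
    · obtain ⟨rfl, rfl, h⟩ := h
      exact fun t => H.I.zr 2 (x0 + p) (y0 + q) (by omega) (by omega) (by omega) (by omega) (by omega) (by omega) (by omega) (mv t (by omega) (by omega) rfl rfl)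
    · obtain ⟨rfl, rfl, h⟩ := h
      exact H.lw _ _ _ _ (by omega) (by omega) (by omega) (by omega) (by omega) (by omega)
    · obtain ⟨rfl, rfl, h⟩ := h
      exact H.lw _ _ _ _ (by omega) (by omega) (by omega) (by omega) (by omega) (by omega)
    · obtain ⟨rfl, rfl, rfl, rfl⟩ := h
      exact fun t => g2 (mv t (by omega) (by omega) (by omega) (by omega))

theorem st_au_chk : check 12 11 19 20 0 1 0 1 0
    (fun j n p q => decide ((j = 4 ∧ n = 7 ∧ p = 9 ∧ q = 9)))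
    (fun j n p q => decide ((j = 5 ∧ n = 7 ∧ 5 ≤ p ∧ p ≤ 9 ∧ 9 ≤ q ∧ q ≤ 10)
      ∨ (j = 4 ∧ n = 7 ∧ p = 10 ∧ 8 ≤ q ∧ q ≤ 12 ∧ q % 2 = 0)
      ∨ (j = 3 ∧ n = 7 ∧ 4 ≤ p ∧ p ≤ 10 ∧ 6 ≤ q ∧ q ≤ 13 ∧ p ≤ q + 3 ∧ ¬ (p % 2 = 0 ∧ q % 2 = 1))
      ∨ (j = 3 ∧ n = 7 ∧ 10 ≤ p ∧ q ≤ p + 6 ∧ p + 1 ≤ q)
      ∨ (j = 5 ∧ n = 7 ∧ 10 ≤ p ∧ q ≤ p + 7 ∧ p ≤ q + 0)
      ∨ (j = 3 ∧ n = 6 ∧ 5 ≤ p ∧ q ≤ p + 6 ∧ p + 1 ≤ q)
      ∨ (j = 4 ∧ n = 6 ∧ 5 ≤ p ∧ q ≤ p + 7 ∧ p ≤ q + 0)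
      ∨ (j = 5 ∧ n = 6 ∧ 5 ≤ p ∧ q ≤ p + 7 ∧ p ≤ q + 0)
      ∨ (j = 4 ∧ n = 7 ∧ p = 9 ∧ q = 11)))
    41
    0x262f052e638026399a263a002e6d922638802644122e6d872e6d072e63072daf872daf072da5872da50726440726438726430726398726388f262f87258607258587258507257c07257b87257b072571872571071e1a071e19871e10071e0f871e0f071e05071d5c071d5b871d52071d51871d51071d47871d4707 = true := by
  decide +kernel

/-- (a) `6 k + 2`, row `c`, column `2 n + 1`, wall to diagonal, one step -/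
theorem st_au (hf : Rule f) {k c n s : ℕ} (H : CI f k c n) (hs : s % 2 = 0) (h1 : s + 10 ≤ 2 * n) (h2 : 2 * n + 6 ≤ s + 2 * k)
    (g1 : f (6 * k + 2) c (2 * n + 1) s) (g2 : ¬ f (6 * k + 2) c (2 * n + 1) (s + 2)) : False := by
  have hk := H.T.hk
  have hc := H.T.hc
  have h4' := H.T.h4
  have hb := H.T.hb
  have hN := H.T.hN2
  obtain ⟨a0, ha0⟩ : ∃ z, z + 2 = 6 * k := ⟨6 * k - 2, by omega⟩
  obtain ⟨b0, hb0⟩ : ∃ z, z + 7 = c := ⟨c - 7, by omega⟩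
  obtain ⟨x0, hx0⟩ : ∃ z, z + 8 = 2 * n := ⟨2 * n - 8, by omega⟩
  obtain ⟨y0, hy0⟩ : ∃ z, z + 9 = s := ⟨s - 9, by omega⟩
  refine check_sound hf (a0 := a0) (b0 := b0) (x0 := x0) (y0 := y0) st_au_chk
    ⟨fun h => absurd h (by decide), fun h => absurd h (by decide), fun h => absurd h (by decide), by omega, by omega,
      by omega, by omega⟩ ?_ ?_
  · intro j m p q hr h
    obtain ⟨-, -, -, -, hp1, hp2, hq1, hq2⟩ := hr
    replace h := of_decide_eq_true h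
    obtain ⟨rfl, rfl, rfl, rfl⟩ := h
    exact mv g1 (by omega) (by omega) (by omega) (by omega)
  · intro j m p q hr h
    obtain ⟨-, -, -, -, hp1, hp2, hq1, hq2⟩ := hr
    replace h := of_decide_eq_true h
    rcases h with h | h | h | h | h | h | h | h | h
    · obtain ⟨rfl, rfl, h⟩ := h
      exact fun t => H.I.P3' hf (x := x0 + p) (y := y0 + q) (by omega) (by omega) (by omega) (by omega) (by omega) (mv t (by omega) (by omega) rfl rfl)
    · obtain ⟨rfl, rfl, h⟩ := h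
      exact fun t => H.I.f2 ((y0 + q) / 2) (by omega) (by omega) (mv t (by omega) (by omega) (by omega) (by omega))
    · obtain ⟨rfl, rfl, h⟩ := h
      exact fun t => H.I.p1 (x0 + p) (y0 + q) (by omega) (by omega) (by omega) (by omega) (by omega) (by omega) (mv t (by omega) (by omega) rfl rfl)
    · obtain ⟨rfl, rfl, h⟩ := h
      exact NHT.p0i hf H.T (j := 4) (by omega) (by omega) (by omega) (by omega) (by omega) (by omega)
    · obtain ⟨rfl, rfl, h⟩ := h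
      exact NHT.p0i hf H.T (j := 3) (by omega) (by omega) (by omega) (by omega) (by omega) (by omega)
    · obtain ⟨rfl, rfl, h⟩ := h
      exact fun t => NHT.rm1i hf H.T (p := 1) (j := 4) (by omega) (by omega) (by omega) (by omega) (by omega) (by omega) (mv t rfl (by omega) rfl rfl)
    · obtain ⟨rfl, rfl, h⟩ := h
      exact fun t => NHT.rm1i hf H.T (p := 0) (j := 3) (by omega) (by omega) (by omega) (by omega) (by omega) (by omega) (mv t rfl (by omega) rfl rfl)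
    · obtain ⟨rfl, rfl, h⟩ := h
      exact fun t => NHT.rm1i hf H.T (p := 1) (j := 3) (by omega) (by omega) (by omega) (by omega) (by omega) (by omega) (mv t rfl (by omega) rfl rfl)
    · obtain ⟨rfl, rfl, rfl, rfl⟩ := h
      exact fun t => g2 (mv t (by omega) (by omega) (by omega) (by omega))

theorem st_ad_chk : check 12 11 19 20 0 1 0 1 0
    (fun j n p q => decide ((j = 4 ∧ n = 7 ∧ p = 9 ∧ q = 11)))
    (fun j n p q => decide ((j = 4 ∧ n = 7 ∧ p = 10 ∧ 8 ≤ q ∧ q ≤ 10 ∧ q % 2 = 0)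
      ∨ (j = 3 ∧ n = 7 ∧ 4 ≤ p ∧ p ≤ 10 ∧ 6 ≤ q ∧ q ≤ 11 ∧ p ≤ q + 3 ∧ ¬ (p % 2 = 0 ∧ q % 2 = 1))
      ∨ (j = 2 ∧ n = 6 ∧ 4 ≤ p ∧ p ≤ 9 ∧ 7 ≤ q ∧ q ≤ 9 ∧ p ≤ q + 2)
      ∨ (j = 1 ∧ n = 6 ∧ 4 ≤ p ∧ p ≤ 9 ∧ 7 ≤ q ∧ q ≤ 9 ∧ p ≤ q + 2)
      ∨ (j = 1 ∧ n = 7 ∧ 4 ≤ p ∧ p ≤ 9 ∧ 7 ≤ q ∧ q ≤ 9 ∧ p ≤ q + 2)
      ∨ (j = 3 ∧ n = 6 ∧ 4 ≤ p ∧ p ≤ 10 ∧ 6 ≤ q ∧ q ≤ 11 ∧ p ≤ q + 3)
      ∨ (j = 4 ∧ n = 6 ∧ 4 ≤ p ∧ p ≤ 10 ∧ 6 ≤ q ∧ q ≤ 11 ∧ p ≤ q + 3)
      ∨ (j = 4 ∧ n = 7 ∧ p = 9 ∧ q = 9)))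
    40
    0x15e4831e04801e188026395a26434a26398026430726428726398f263887262e87258507258487257b07257a872571072570871e19071e0f071e0e871e05071d5b071d5a871d51071d50871d47071d468715da87152687152607151c87151c070dba870dba070db0870db0070cfc870cfc070cf2870cf207 = true := by
  decide +kernel

/-- (a) `6 k + 2`, row `c`, column `2 n + 1`, diagonal to wall, one step -/
theorem st_ad (hf : Rule f) {k c n s : ℕ} (H : CI f k c n) (hs : s % 2 = 0) (h1 : s + 8 ≤ 2 * n) (h2 : 2 * n + 6 ≤ s + 2 * k)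
    (g1 : f (6 * k + 2) c (2 * n + 1) (s + 2)) (g2 : ¬ f (6 * k + 2) c (2 * n + 1) s) : False := by
  have hk := H.T.hk
  have hc := H.T.hc
  have h4' := H.T.h4
  have hb := H.T.hb
  have hN := H.T.hN2
  obtain ⟨a0, ha0⟩ : ∃ z, z + 2 = 6 * k := ⟨6 * k - 2, by omega⟩
  obtain ⟨b0, hb0⟩ : ∃ z, z + 7 = c := ⟨c - 7, by omega⟩
  obtain ⟨x0, hx0⟩ : ∃ z, z + 8 = 2 * n := ⟨2 * n - 8, by omega⟩
  obtain ⟨y0, hy0⟩ : ∃ z, z + 9 = s := ⟨s - 9, by omega⟩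
  refine check_sound hf (a0 := a0) (b0 := b0) (x0 := x0) (y0 := y0) st_ad_chk
    ⟨fun h => absurd h (by decide), fun h => absurd h (by decide), fun h => absurd h (by decide), by omega, by omega,
      by omega, by omega⟩ ?_ ?_
  · intro j m p q hr h
    obtain ⟨-, -, -, -, hp1, hp2, hq1, hq2⟩ := hr
    replace h := of_decide_eq_true h
    obtain ⟨rfl, rfl, rfl, rfl⟩ := h
    exact mv g1 (by omega) (by omega) (by omega) (by omega)
  · intro j m p q hr h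
    obtain ⟨-, -, -, -, hp1, hp2, hq1, hq2⟩ := hr
    replace h := of_decide_eq_true h
    rcases h with h | h | h | h | h | h | h | h
    · obtain ⟨rfl, rfl, h⟩ := h
      exact fun t => H.I.f2 ((y0 + q) / 2) (by omega) (by omega) (mv t (by omega) (by omega) (by omega) (by omega))
    · obtain ⟨rfl, rfl, h⟩ := h
      exact fun t => H.I.p1 (x0 + p) (y0 + q) (by omega) (by omega) (by omega) (by omega) (by omega) (by omega) (mv t (by omega) (by omega) rfl rfl)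
    · obtain ⟨rfl, rfl, h⟩ := h
      exact fun t => (H.I.z0 (x0 + p) (y0 + q) (by omega) (by omega) (by omega) (by omega) (by omega)).1 (mv t (by omega) (by omega) rfl rfl)
    · obtain ⟨rfl, rfl, h⟩ := h
      exact fun t => (H.I.z0 (x0 + p) (y0 + q) (by omega) (by omega) (by omega) (by omega) (by omega)).2.1 (mv t (by omega) (by omega) rfl rfl)
    · obtain ⟨rfl, rfl, h⟩ := h
      exact fun t => (H.I.z0 (x0 + p) (y0 + q) (by omega) (by omega) (by omega) (by omega) (by omega)).2.2 (mv t (by omega) (by omega) rfl rfl)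
    · obtain ⟨rfl, rfl, h⟩ := h
      exact fun t => H.I.zr 1 (x0 + p) (y0 + q) (by omega) (by omega) (by omega) (by omega) (by omega) (by omega) (by omega) (mv t (by omega) (by omega) rfl rfl)
    · obtain ⟨rfl, rfl, h⟩ := h
      exact fun t => H.I.zr 2 (x0 + p) (y0 + q) (by omega) (by omega) (by omega) (by omega) (by omega) (by omega) (by omega) (mv t (by omega) (by omega) rfl rfl)
    · obtain ⟨rfl, rfl, rfl, rfl⟩ := h
      exact fun t => g2 (mv t (by omega) (by omega) (by omega) (by omega))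

/-- (b) `6 k`, row `c`, column `2 n - 3`, wall to diagonal: `d` from `2 k - 5` to `5` -/
theorem run_bu (hf : Rule f) {k c n y0 y1 : ℕ} (H : CI f k c n) (he : y0 % 2 = 0) (he1 : y1 % 2 = 0) (h1 : 2 * n + 2 ≤ y0 + 2 * k) (h2 : y1 + 8 ≤ 2 * n)
    (hle : y0 ≤ y1) (h : f (6 * k) c (2 * n - 3) y0) : f (6 * k) c (2 * n - 3) y1 := by
  have hN := H.T.hN2
  have hk := H.T.hk
  obtain ⟨i, rfl⟩ : ∃ i, y1 = y0 + 2 * i := ⟨(y1 - y0) / 2, by omega⟩
  induction i with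
  | zero => exact h
  | succ i ih =>
    have := ih (by omega) (by omega) (by omega)
    by_contra hn
    exact st_bu hf H (s := y0 + 2 * i) (by omega) (by omega) (by omega) this (fun t => hn (mv t rfl rfl rfl (by omega)))

/-- (b) `6 k`, row `c`, column `2 n - 3`, diagonal to wall: `d` from `5` to `2 k - 5` -/
theorem run_bd (hf : Rule f) {k c n y0 y1 : ℕ} (H : CI f k c n) (he : y0 % 2 = 0) (he1 : y1 % 2 = 0) (h1 : 2 * n + 2 ≤ y0 + 2 * k) (h2 : y1 + 8 ≤ 2 * n)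
    (hle : y0 ≤ y1) (h : f (6 * k) c (2 * n - 3) y1) : f (6 * k) c (2 * n - 3) y0 := by
  have hN := H.T.hN2
  have hk := H.T.hk
  obtain ⟨i, rfl⟩ : ∃ i, y1 = y0 + 2 * i := ⟨(y1 - y0) / 2, by omega⟩
  induction i with
  | zero => exact h
  | succ i ih =>
    refine ih (by omega) (by omega) (by omega) ?_
    by_contra hn
    exact st_bd hf H (s := y0 + 2 * i) (by omega) (by omega) (by omega) (mv h rfl rfl rfl (by omega)) hn

/-- (b) `6 k`, row `c`, column `2 n - 1`, wall to diagonal: `d` from `2 k - 5` to `7` -/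
theorem run_b1u (hf : Rule f) {k c n y0 y1 : ℕ} (H : CI f k c n) (he : y0 % 2 = 0) (he1 : y1 % 2 = 0) (h1 : 2 * n + 4 ≤ y0 + 2 * k) (h2 : y1 + 8 ≤ 2 * n)
    (hle : y0 ≤ y1) (h : f (6 * k) c (2 * n - 1) y0) : f (6 * k) c (2 * n - 1) y1 := by
  have hN := H.T.hN2
  have hk := H.T.hk
  obtain ⟨i, rfl⟩ : ∃ i, y1 = y0 + 2 * i := ⟨(y1 - y0) / 2, by omega⟩
  induction i with
  | zero => exact h
  | succ i ih =>
    have := ih (by omega) (by omega) (by omega)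
    by_contra hn
    exact st_b1u hf H (s := y0 + 2 * i) (by omega) (by omega) (by omega) this (fun t => hn (mv t rfl rfl rfl (by omega)))

/-- (b) `6 k`, row `c`, column `2 n - 1`, diagonal to wall: `d` from `5` to `2 k - 5` -/
theorem run_b1d (hf : Rule f) {k c n y0 y1 : ℕ} (H : CI f k c n) (he : y0 % 2 = 0) (he1 : y1 % 2 = 0) (h1 : 2 * n + 4 ≤ y0 + 2 * k) (h2 : y1 + 6 ≤ 2 * n)
    (hle : y0 ≤ y1) (h : f (6 * k) c (2 * n - 1) y1) : f (6 * k) c (2 * n - 1) y0 := by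
  have hN := H.T.hN2
  have hk := H.T.hk
  obtain ⟨i, rfl⟩ : ∃ i, y1 = y0 + 2 * i := ⟨(y1 - y0) / 2, by omega⟩
  induction i with
  | zero => exact h
  | succ i ih =>
    refine ih (by omega) (by omega) (by omega) ?_
    by_contra hn
    exact st_b1d hf H (s := y0 + 2 * i) (by omega) (by omega) (by omega) (mv h rfl rfl rfl (by omega)) hn

/-- (d) `6 k + 2`, row `c`, column `2 n - 1`, wall to diagonal: `d` from `2 k - 5` to `9` -/
theorem run_du (hf : Rule f) {k c n y0 y1 : ℕ} (H : CI f k c n) (he : y0 % 2 = 0) (he1 : y1 % 2 = 0) (h1 : 2 * n + 4 ≤ y0 + 2 * k) (h2 : y1 + 10 ≤ 2 * n)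
    (hle : y0 ≤ y1) (h : f (6 * k + 2) c (2 * n - 1) y0) : f (6 * k + 2) c (2 * n - 1) y1 := by
  have hN := H.T.hN2
  have hk := H.T.hk
  obtain ⟨i, rfl⟩ : ∃ i, y1 = y0 + 2 * i := ⟨(y1 - y0) / 2, by omega⟩
  induction i with
  | zero => exact h
  | succ i ih =>
    have := ih (by omega) (by omega) (by omega)
    by_contra hn
    exact st_du hf H (s := y0 + 2 * i) (by omega) (by omega) (by omega) this (fun t => hn (mv t rfl rfl rfl (by omega)))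

/-- (d) `6 k + 2`, row `c`, column `2 n - 1`, diagonal to wall: `d` from `5` to `2 k - 5` -/
theorem run_dd (hf : Rule f) {k c n y0 y1 : ℕ} (H : CI f k c n) (he : y0 % 2 = 0) (he1 : y1 % 2 = 0) (h1 : 2 * n + 4 ≤ y0 + 2 * k) (h2 : y1 + 6 ≤ 2 * n)
    (hle : y0 ≤ y1) (h : f (6 * k + 2) c (2 * n - 1) y1) : f (6 * k + 2) c (2 * n - 1) y0 := by
  have hN := H.T.hN2
  have hk := H.T.hk
  obtain ⟨i, rfl⟩ : ∃ i, y1 = y0 + 2 * i := ⟨(y1 - y0) / 2, by omega⟩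
  induction i with
  | zero => exact h
  | succ i ih =>
    refine ih (by omega) (by omega) (by omega) ?_
    by_contra hn
    exact st_dd hf H (s := y0 + 2 * i) (by omega) (by omega) (by omega) (mv h rfl rfl rfl (by omega)) hn

/-- (c) `6 k`, row `c + 2`, column `2 n + 1`, diagonal to wall: `d` from `7` to `2 k - 5` -/
theorem run_cd (hf : Rule f) {k c n y0 y1 : ℕ} (H : CI f k c n) (he : y0 % 2 = 0) (he1 : y1 % 2 = 0) (h1 : 2 * n + 6 ≤ y0 + 2 * k) (h2 : y1 + 6 ≤ 2 * n)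
    (hle : y0 ≤ y1) (h : f (6 * k) (c + 2) (2 * n + 1) y1) : f (6 * k) (c + 2) (2 * n + 1) y0 := by
  have hN := H.T.hN2
  have hk := H.T.hk
  obtain ⟨i, rfl⟩ : ∃ i, y1 = y0 + 2 * i := ⟨(y1 - y0) / 2, by omega⟩
  induction i with
  | zero => exact h
  | succ i ih =>
    refine ih (by omega) (by omega) (by omega) ?_
    by_contra hn
    exact st_cd hf H (s := y0 + 2 * i) (by omega) (by omega) (by omega) (mv h rfl rfl rfl (by omega)) hn

/-- (a) `6 k + 2`, row `c`, column `2 n + 1`, wall to diagonal: `d` from `2 k - 5` to `9` -/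
theorem run_au (hf : Rule f) {k c n y0 y1 : ℕ} (H : CI f k c n) (he : y0 % 2 = 0) (he1 : y1 % 2 = 0) (h1 : 2 * n + 6 ≤ y0 + 2 * k) (h2 : y1 + 8 ≤ 2 * n)
    (hle : y0 ≤ y1) (h : f (6 * k + 2) c (2 * n + 1) y0) : f (6 * k + 2) c (2 * n + 1) y1 := by
  have hN := H.T.hN2
  have hk := H.T.hk
  obtain ⟨i, rfl⟩ : ∃ i, y1 = y0 + 2 * i := ⟨(y1 - y0) / 2, by omega⟩
  induction i with
  | zero => exact h
  | succ i ih =>
    have := ih (by omega) (by omega) (by omega)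
    by_contra hn
    exact st_au hf H (s := y0 + 2 * i) (by omega) (by omega) (by omega) this (fun t => hn (mv t rfl rfl rfl (by omega)))

/-- (a) `6 k + 2`, row `c`, column `2 n + 1`, diagonal to wall: `d` from `7` to `2 k - 5` -/
theorem run_ad (hf : Rule f) {k c n y0 y1 : ℕ} (H : CI f k c n) (he : y0 % 2 = 0) (he1 : y1 % 2 = 0) (h1 : 2 * n + 6 ≤ y0 + 2 * k) (h2 : y1 + 6 ≤ 2 * n)
    (hle : y0 ≤ y1) (h : f (6 * k + 2) c (2 * n + 1) y1) : f (6 * k + 2) c (2 * n + 1) y0 := by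
  have hN := H.T.hN2
  have hk := H.T.hk
  obtain ⟨i, rfl⟩ : ∃ i, y1 = y0 + 2 * i := ⟨(y1 - y0) / 2, by omega⟩
  induction i with
  | zero => exact h
  | succ i ih =>
    refine ih (by omega) (by omega) (by omega) ?_
    by_contra hn
    exact st_ad hf H (s := y0 + 2 * i) (by omega) (by omega) (by omega) (mv h rfl rfl rfl (by omega)) hn

end Pool.Agent.SNT.TrC
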