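import Pool.Agent.SNT.L0Col
import Pool.Agent.SNT.L0EAsm
import Pool.Agent.SNT.TipK0
import Pool.Agent.SNT.E1m4RunD
import Pool.Agent.SNT.L0Yk
import Pool.Agent.SNT.NbL
import Pool.Agent.SNT.TrC

set_option autoImplicit false
set_option linter.unusedVariables false

/-! The E-cell of the road L0 at the special position `X' = 0` (`v = k - 3`): the facts of one cycle. -/

namespace Pool.Agent.SNT.L0Y

open Pool.Agent.SNT Pool.Agent.SNT.Sig Pool.Agent.SNT.Loc Pool.Agent.SNT.LW Pool.Agent.SNT.NHZ Pool.Agent.SNT.DRun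
open Pool.Agent.SNT.D1E Pool.Agent.SNT.L0E Pool.Agent.SNT.PB Pool.Agent.SNT.D1

variable {f : ℕ → ℕ → ℕ → ℕ → Prop}

/-- the facts of one cycle, `X = 2 n` -/
structure CY (f : ℕ → ℕ → ℕ → ℕ → Prop) (k c n : ℕ) : Prop where
  H : PL f k c n (n - 4)
  D0 : Cyc f (6 * k) (c - 2) (2 * n - 2)
  D0a : Cyc f (6 * k) (c - 6) (2 * n - 6 - 2 * k)
  C2 : Cyc f (6 * k + 2) (c - 4) (2 * (n - 5) + 2)
  C2a : Cyc f (6 * k + 2) (c - 8) (2 * (n - (k + 7)) + 2)
  C4a : Cyc f (6 * k + 4) (c - 6) (2 * (n - (k + 1)) + 2)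
  I : LineR0.In f (6 * k) c n (n + 2 - k) (n - 5) (n - 4)
  nb : ∀ y : ℕ, y % 2 = 0 → 2 * n + 4 ≤ y + 2 * k → y + 2 * k ≤ 2 * n + 12 → ¬ f (6 * k + 4) c (2 * n + 3) y
  nb' : ∀ y : ℕ, y % 2 = 0 → 2 * n + 4 ≤ y + 2 * k → y + 2 ≤ 2 * n → ¬ f (6 * k + 4) c (2 * n + 3) y
  Z : Zb.ZBH f k c n
  K : YK f k c n
  PV : PV.PV f k c n
  p2n : ∀ y : ℕ, y % 2 = 0 → 2 * n + 4 ≤ y + 2 * k → y + 4 ≤ 2 * n → ¬ f (6 * k + 1) c (2 * n) y
  K0p : ∀ x y : ℕ, 2 * n ≤ x + 3 → x % 2 = 1 → y % 2 = 0 → x + 5 ≤ y + 2 * k → y + 5 ≤ x →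
    f (6 * k) (c - 2) x y ∨ f (6 * k) (c - 2) (x + 2) (y + 2)
  K2p : ∀ x y : ℕ, 2 * n + 1 ≤ x → x % 2 = 1 → y + 2 * k = x + 5 →
    f (6 * k + 2) c x y ∨ f (6 * k + 2) c (x + 2) (y + 2)
  K6p : ∀ x y : ℕ, 2 * n + 3 ≤ x → x % 2 = 1 → y % 2 = 0 → x + 3 ≤ y + 2 * k → y + 1 ≤ x →
    f (6 * k + 6) c x y ∨ f (6 * k + 6) c (x + 2) (y + 2)
  T0 : NHT f k (c - 4) (2 * (n - (k + 2)))
  C : TrC.CI f k c n

/-- the facts of the cycle `j + 1`, for `v = k - 3` -/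
theorem CY.of (hf : Rule f) {k b m v : ℕ} (S : StackA f k b m 0 0 0 0 0 1) (q4 : Q4 f k b m 0 0)
    (q2 : Q2 f k b m 0 0) (qd : QD f k b m 0 v) (hv : v + 3 = k) (j : ℕ) {c n : ℕ}
    (hc : c = b + 4 * j + 26) (hn : n = nn k m (j + 1)) : CY f k c n := by
  have S1 := S.shift (j + 1)
  have hs := S1.side
  have e0 : nn k m (j + 1) = m + (k + 2) * (j + 1) + 9 + (k + 2) * 4 := rfl
  have e1 : nn k m (j + 1) = nn k m j + (k + 2) := by
    unfold nn
    ring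
  have e2 : nn k m (j + 2) = nn k m j + (k + 2) + (k + 2) := by
    unfold nn
    ring
  have H : PL f k c n (n - 4) := pl_of S q4 q2 qd (j + 1) (c := c) (n := n) (by omega) hn
  have hk := H.T.hk
  have hc' := H.T.hc
  have hb := H.T.hb
  have hN := H.T.hN2
  have ec : b + 4 * (j + 1) + 22 = c := by omega
  have ec2 : b + 4 * (j + 1) + 20 = c - 2 := by omega
  have d0 : Cyc f (6 * k) (b + 4 * (j + 1) + 16) (2 * (nn k m (j + 1) - 7) + 2) := (qd (j + 1) (by omega)).mono' (by omega)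
  have d2 : Cyc f (6 * k + 2) (b + 4 * (j + 1) + 18) (2 * (nn k m (j + 1) - 5) + 2) :=
    cyc_of_eq (q2 (j + 1) (by omega)) (by omega) (by omega)
  have d4 : Cyc f (6 * k + 4) (b + 4 * (j + 1) + 20) (2 * (nn k m (j + 1) + 1) + 2) :=
    cyc_of_eq (q4 (j + 1) (by omega)) (by omega) (by omega)
  have d4a : Cyc f (6 * k + 4) (b + 4 * (j + 1) + 16) (2 * (nn k m (j + 1) - k - 1) + 2) :=
    cyc_of_eq (q4 j (by omega)) (by omega) (by omega)
  have D0 : Cyc f (6 * k) (c - 2) (2 * n - 2) := cyc_of_eq (qd (j + 2) (by omega)) (by omega) (by omega)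
  have D0a : Cyc f (6 * k) (c - 6) (2 * n - 6 - 2 * k) := cyc_of_eq (qd (j + 1) (by omega)) (by omega) (by omega)
  have C2 : Cyc f (6 * k + 2) (c - 4) (2 * (n - 5) + 2) := cyc_of_eq d2 (by omega) (by omega)
  have C2a : Cyc f (6 * k + 2) (c - 8) (2 * (n - (k + 7)) + 2) := cyc_of_eq (q2 j (by omega)) (by omega) (by omega)
  have C4a : Cyc f (6 * k + 4) (c - 6) (2 * (n - (k + 1)) + 2) := cyc_of_eq (q4 j (by omega)) (by omega) (by omega)
  have W : StackW f k b m := fun i => win_of S q4 q2 qd i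
  have I : LineR0.In f (6 * k) c n (n + 2 - k) (n - 5) (n - 4) := by
    have h := W.inp hf j
    rw [ec] at h
    subst hn
    exact h
  have nb : ∀ y : ℕ, y % 2 = 0 → 2 * n + 4 ≤ y + 2 * k → y ≤ 2 * n → ¬ f (6 * k + 4) c (2 * n + 3) y := by
    intro y h1 h2 h3
    have h := NbL.nb_stack hf W j (y := y) h1 (by omega) (by omega)
    rw [ec] at h
    subst hn
    exact h
  have Z : Zb.ZBH f k c n := by
    have h := E1m4.zbh_stack hf hs S1.stack e0 (d0.mono' (by omega)) (d2.mono' (by omega)) d4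
    rw [ec] at h
    subst hn
    exact h
  have V : PV.PV f k c n := by
    have h := PV.PV.of_stack hs S1.stack e0 (d0.mono' (by omega)) (d2.mono' (by omega)) d4
    rw [ec] at h
    subst hn
    exact h
  have K : YK f k c n := by
    subst hn
    have h := YK.of_stack hf hs S1.stack e0 (by rw [ec]; exact H) (cyc_of_eq D0 (by omega) (by omega))
      (cyc_of_eq D0a (by omega) (by omega)) (cyc_of_eq C2 (by omega) (by omega))
    rw [ec] at h
    exact h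
  refine ⟨H, D0, D0a, C2, C2a, C4a, I, fun y h1 h2 h3 => nb y h1 h2 (by omega), fun y h1 h2 h3 => nb y h1 h2 (by omega),
    Z, K, V, ?_, ?_, ?_, ?_, ?_, ⟨H.T, H.lw, I, cyc_of_eq D0 rfl (by omega), cyc_of_eq D0a rfl (by omega), C2⟩⟩
  · intro y h1 h2 h3
    have h := TipK0.p1_2n hf hs S1.stack e0 (d2.mono' (by omega)) d4 d4a y h1 (by omega) (by omega)
    rw [ec] at h
    subst hn
    exact h
  · intro x y h1 h2 h3 h4 h5
    have h := TipK0.k0_line hf hs S1.stack e0 d0 (d2.mono' (by omega)) d4 (x := x) (y := y) (by omega) h2 h3 h4 h5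
    rwa [ec2] at h
  · intro x y h1 h2 h3
    have h := K0L2c.k0_L2_stack hf hs S1.stack (R := b + 4 * (j + 1) + 22) (x := x) (y := y) (d2.mono' (by omega)) d4 rfl
      (by omega) h2 h3
    rwa [ec] at h
  · intro x y h1 h2 h3 h4 h5
    have h := TipK0.k6_line hf hs S1.stack e0 (x := x) (y := y) (by omega) h2 h3 h4 h5
    rwa [ec] at h
  · have h := (pl_of S q4 q2 qd j (c := b + 4 * j + 22) (n := nn k m j) rfl rfl).T
    have e3 : b + 4 * j + 22 = c - 4 := by omega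
    have e4 : nn k m j = n - (k + 2) := by omega
    rw [e3, e4] at h
    exact h

end Pool.Agent.SNT.L0Y
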