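import Pool.Agent.SNT.L0Y_11q
import Pool.Agent.SNT.L0Y74a
import Pool.Agent.SNT.L0Y74b
import Pool.Agent.SNT.L0Y74c
import Pool.Agent.SNT.L0Y74d
import Pool.Agent.SNT.L0Y74e
import Pool.Agent.SNT.L0Y74f
import Pool.Agent.SNT.L0Y74g
import Pool.Agent.SNT.L0Y74h
import Pool.Agent.SNT.L0Y7a
import Pool.Agent.SNT.L0Y8a
import Pool.Agent.SNT.L0Y8b
import Pool.Agent.SNT.L0Y8c
import Pool.Agent.SNT.L0Y8d
import Pool.Agent.SNT.L0Y8e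
import Pool.Agent.SNT.L0Y8f
import Pool.Agent.SNT.L0Y8g
import Pool.Agent.SNT.L0Y8h

set_option autoImplicit false
set_option linter.unusedVariables false

/-! The near-diagonal windows of the road L0 at `X' = 0`, with the ends `d = 7`, `9`. -/

namespace Pool.Agent.SNT.L0Y

open Pool.Agent.SNT Pool.Agent.SNT.Loc Pool.Agent.SNT.LW Pool.Agent.SNT.NHZ Pool.Agent.SNT.D1E

variable {f : ℕ → ℕ → ℕ → ℕ → Prop} {k c n : ℕ}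

theorem YK.q7 (hf : Rule f) (H : YK f k c n) :
    f (6 * k) (c - 2) (2 * n - 5) (2 * n - 12) ∨ f (6 * k) (c - 2) (2 * n - 3) (2 * n - 10) := by
  have hN2 := H.H.P.T.hN2
  have hk := H.H.P.T.hk
  rcases K0L0e.q0 hf H.H.P (by omega) H.H.D2 (y := 2 * n - 12) (by omega) (by omega) (by omega) with h | h
  · exact Or.inl h
  · exact Or.inr (mv h rfl rfl rfl (by omega))

theorem YK.k45 (hf : Rule f) (H : YK f k c n) :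
    f (6 * k + 4) (c - 2) (2 * n - 3) (2 * n - 8) ∨ f (6 * k + 4) (c - 2) (2 * n - 1) (2 * n - 6) := by
  have hN2 := H.H.P.T.hN2
  have hk := H.H.P.T.hk
  rcases k4_line hf H.H.P (x := 2 * n - 3) (y := 2 * n - 8) (by omega) (by omega) (by omega) (by omega) (by omega) with h | h
  · exact Or.inl h
  · exact Or.inr (mv h rfl rfl (by omega) (by omega))

/-- no `Y(1)` in the row `c + 4`, `d = 7` -/
theorem d1b7 (hf : Rule f) (H : YK f k c n) (z0_0_4_m1 : ¬ f (6 * k) (c) (2 * n + 4) (2 * n - 1)) :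
    ¬ f (6 * k) (c + 4) (2 * n + 8) (2 * n + 1) := by
  rcases H.q0 hf with p0_m2_m5_m10 | p0_m2_m3_m8
  · exact E12_0 hf H.H z0_0_4_m1 p0_m2_m5_m10
  · exact E12_1 hf H.H z0_0_4_m1 p0_m2_m3_m8

/-- no `X(-1)` in the row `c`, `d = 7` -/
theorem n47 (hf : Rule f) (H : YK f k c n)  :
    ¬ f (6 * k) (c) (2 * n - 1) (2 * n - 8) := by
  rcases H.q0 hf with p0_m2_m5_m10 | p0_m2_m3_m8
  · exact EN4_0 hf H.H p0_m2_m5_m10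
  · exact EN4_1 hf H.H p0_m2_m3_m8

/-- `Y(3)` in the row `c + 4`: `X(1)` in the row `c + 2`, `d = 7` -/
theorem d2a7 (hf : Rule f) (H : YK f k c n) (p0_4_10_3 : f (6 * k) (c + 4) (2 * n + 10) (2 * n + 3)) :
    f (6 * k) (c + 2) (2 * n + 1) (2 * n - 6) := by
  rcases H.q0 hf with p0_m2_m5_m10 | p0_m2_m3_m8
  · exact E21_0 hf H.H p0_4_10_3 p0_m2_m5_m10
  · exact E21_1 hf H.H p0_4_10_3 p0_m2_m3_m8

/-- no `Y(5)` of `6k+2` in the row `c + 4`, `d = 7` -/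
theorem d2d7 (hf : Rule f) (H : YK f k c n) (p2_0_1_m4 : f (6 * k + 2) (c) (2 * n + 1) (2 * n - 4)) (p0_4_10_3 : f (6 * k) (c + 4) (2 * n + 10) (2 * n + 3)) (p4_0_10_5 : f (6 * k + 4) (c) (2 * n + 10) (2 * n + 5)) (z4_2_10_3 : ¬ f (6 * k + 4) (c + 2) (2 * n + 10) (2 * n + 3)) :
    ¬ f (6 * k + 2) (c + 4) (2 * n + 12) (2 * n + 5) := by
  rcases H.q0 hf with p0_m2_m5_m10 | p0_m2_m3_m8
  · rcases H.k4b with p4_m2_m3_m10 | p4_m2_m1_m8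
    · rcases H.k6b with p6_0_3_m6 | p6_0_5_m4
      · exact E24_0 hf H.H p2_0_1_m4 p0_4_10_3 p4_0_10_5 z4_2_10_3 p0_m2_m5_m10 p4_m2_m3_m10 p6_0_3_m6
      · exact E24_1 hf H.H p2_0_1_m4 p0_4_10_3 p4_0_10_5 z4_2_10_3 p0_m2_m5_m10 p4_m2_m3_m10 p6_0_5_m4
    · rcases H.k6b with p6_0_3_m6 | p6_0_5_m4
      · exact E24_2 hf H.H p2_0_1_m4 p0_4_10_3 p4_0_10_5 z4_2_10_3 p0_m2_m5_m10 p4_m2_m1_m8 p6_0_3_m6
      · exact E24_3 hf H.H p2_0_1_m4 p0_4_10_3 p4_0_10_5 z4_2_10_3 p0_m2_m5_m10 p4_m2_m1_m8 p6_0_5_m4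
  · rcases H.k4b with p4_m2_m3_m10 | p4_m2_m1_m8
    · rcases H.k6b with p6_0_3_m6 | p6_0_5_m4
      · exact E24_4 hf H.H p2_0_1_m4 p0_4_10_3 p4_0_10_5 z4_2_10_3 p0_m2_m3_m8 p4_m2_m3_m10 p6_0_3_m6
      · exact E24_5 hf H.H p2_0_1_m4 p0_4_10_3 p4_0_10_5 z4_2_10_3 p0_m2_m3_m8 p4_m2_m3_m10 p6_0_5_m4
    · rcases H.k6b with p6_0_3_m6 | p6_0_5_m4
      · exact E24_6 hf H.H p2_0_1_m4 p0_4_10_3 p4_0_10_5 z4_2_10_3 p0_m2_m3_m8 p4_m2_m1_m8 p6_0_3_m6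
      · exact E24_7 hf H.H p2_0_1_m4 p0_4_10_3 p4_0_10_5 z4_2_10_3 p0_m2_m3_m8 p4_m2_m1_m8 p6_0_5_m4

/-- contradiction -/
theorem fin7 (hf : Rule f) (H : YK f k c n) (p2_0_m1_m10 : f (6 * k + 2) (c) (2 * n - 1) (2 * n - 10)) (z2_2_8_1 : ¬ f (6 * k + 2) (c + 2) (2 * n + 8) (2 * n + 1)) (p4_0_10_5 : f (6 * k + 4) (c) (2 * n + 10) (2 * n + 5)) (z4_2_10_3 : ¬ f (6 * k + 4) (c + 2) (2 * n + 10) (2 * n + 3)) :
    False := by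
  rcases H.k2 with p2_0_3_m4 | p2_0_5_m2
  · rcases H.k4a with p4_m2_m3_m12 | p4_m2_m1_m10
    · rcases H.k65 with p6_0_5_0 | p6_0_7_2
      · exact EF8_0 hf H.H p2_0_m1_m10 z2_2_8_1 p4_0_10_5 z4_2_10_3 p4_m2_m3_m12 p6_0_5_0 p2_0_3_m4
      · exact EF8_1 hf H.H p2_0_m1_m10 z2_2_8_1 p4_0_10_5 z4_2_10_3 p4_m2_m3_m12 p6_0_7_2 p2_0_3_m4
    · rcases H.k65 with p6_0_5_0 | p6_0_7_2
      · exact EF8_2 hf H.H p2_0_m1_m10 z2_2_8_1 p4_0_10_5 z4_2_10_3 p4_m2_m1_m10 p6_0_5_0 p2_0_3_m4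
      · exact EF8_3 hf H.H p2_0_m1_m10 z2_2_8_1 p4_0_10_5 z4_2_10_3 p4_m2_m1_m10 p6_0_7_2 p2_0_3_m4
  · rcases H.k4a with p4_m2_m3_m12 | p4_m2_m1_m10
    · rcases H.k65 with p6_0_5_0 | p6_0_7_2
      · exact EF8_4 hf H.H p2_0_m1_m10 z2_2_8_1 p4_0_10_5 z4_2_10_3 p4_m2_m3_m12 p6_0_5_0 p2_0_5_m2
      · exact EF8_5 hf H.H p2_0_m1_m10 z2_2_8_1 p4_0_10_5 z4_2_10_3 p4_m2_m3_m12 p6_0_7_2 p2_0_5_m2
    · rcases H.k65 with p6_0_5_0 | p6_0_7_2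
      · exact EF8_6 hf H.H p2_0_m1_m10 z2_2_8_1 p4_0_10_5 z4_2_10_3 p4_m2_m1_m10 p6_0_5_0 p2_0_5_m2
      · exact EF8_7 hf H.H p2_0_m1_m10 z2_2_8_1 p4_0_10_5 z4_2_10_3 p4_m2_m1_m10 p6_0_7_2 p2_0_5_m2

end Pool.Agent.SNT.L0Y
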