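import Pool.Agent.SNT.K0L0ew
import Pool.Agent.SNT.TipK0

set_option autoImplicit false
set_option synthInstance.maxSize 100000
set_option synthInstance.maxHeartbeats 4000000

/-! The pair of the lines `2 n - 5`, `2 n - 3` of `6 k`, row `b + 20`, at every distance from `5` on. -/

namespace Pool.Agent.SNT.K0L0e

open Pool.Agent.SNT Pool.Agent.SNT.Sig Pool.Agent.SNT.Loc Pool.Agent.SNT.LW Pool.Agent.SNT.NHZ Pool.Agent.SNT.DRun
open Pool.Agent.SNT.PB Pool.Agent.SNT.D1E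

variable {f : ℕ → ℕ → ℕ → ℕ → Prop}

theorem step5_chk : check 3 4 5 5 0 0 1 1 0
    (fun j n p q => decide ((j = 2 ∧ n = 2 ∧ p = 2 ∧ q = 1)))
    (fun j n p q => decide ((j = 1 ∧ n = 2)
      ∨ (j = 1 ∧ n = 1)
      ∨ (j = 3 ∧ n = 2 ∧ 3 ≤ p ∧ q ≤ p + 2 ∧ p ≤ q + 1)
      ∨ (j = 2 ∧ n = 1 ∧ q ≤ p + 2 ∧ p ≤ q + 1)
      ∨ (j = 3 ∧ n = 1 ∧ q ≤ p + 2 ∧ p ≤ q + 1)
      ∨ (j = 2 ∧ n = 2 ∧ p = 2 ∧ q = 3)))
    29
    0xb58500808000b81200839a00828000b80700b78700ab8700ab0700a90700a88700860700838700828f008107007987007907007707007687007487007407005187005107004f07004e87004507004487004287004207 = true := by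
  decide +kernel

/-- One step of the run of the column `2 n - 5` of `6 k`, row `c - 2`. -/
theorem step5 (hf : Rule f) {k c n M s : ℕ} (H : PL f k c n M) (hs : s % 2 = 0) (hs1 : s + 12 ≤ 2 * n) (hs2 : 2 * n ≤ s + 2 * k)
    (h0 : f (6 * k) (c - 2) (2 * n - 5) s) : f (6 * k) (c - 2) (2 * n - 5) (s + 2) := by
  by_contra z0
  have hk := H.T.hk
  have hc := H.T.hc
  have h4' := H.T.h4
  have hb := H.T.hb
  have hN := H.T.hN2
  obtain ⟨a0, ha0⟩ : ∃ z, z + 2 = 6 * k := ⟨6 * k - 2, by omega⟩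
  obtain ⟨b0, hb0⟩ : ∃ z, z + 4 = c := ⟨c - 4, by omega⟩
  obtain ⟨x0, hx0⟩ : ∃ z, z + 7 = 2 * n := ⟨2 * n - 7, by omega⟩
  obtain ⟨y0, hy0⟩ : ∃ z, z + 1 = s := ⟨s - 1, by omega⟩
  refine check_sound hf (a0 := a0) (b0 := b0) (x0 := x0) (y0 := y0) step5_chk
    ⟨fun h => absurd h (by decide), fun h => absurd h (by decide), fun h => absurd h (by decide), by omega, by omega,
      by omega, by omega⟩ ?_ ?_
  · intro j m p q hr h
    obtain ⟨-, -, -, -, hp1, hp2, hq1, hq2⟩ := hr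
    replace h := of_decide_eq_true h
    obtain ⟨rfl, rfl, rfl, rfl⟩ := h
    exact mv h0 (by omega) (by omega) (by omega) (by omega)
  · intro j m p q hr h
    obtain ⟨-, -, -, -, hp1, hp2, hq1, hq2⟩ := hr
    replace h := of_decide_eq_true h
    rcases h with h | h | h | h | h | h
    · obtain ⟨rfl, rfl⟩ := h
      exact H.lw _ _ _ _ (by omega) (by omega) (by omega) (by omega) (by omega) (by omega)
    · obtain ⟨rfl, rfl⟩ := h
      exact H.lw _ _ _ _ (by omega) (by omega) (by omega) (by omega) (by omega) (by omega)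
    · obtain ⟨rfl, rfl, h⟩ := h
      exact NHT.pmi hf H.T (j := 3) (by omega) (by omega) (by omega) (by omega) (by omega) (by omega)
    · obtain ⟨rfl, rfl, h⟩ := h
      exact NHT.rIn hf H.T (t := 3) (p := 0) (j := 3) (by omega) (by omega) (by omega) (by omega) (by omega) (by omega) (by omega) (by omega)
    · obtain ⟨rfl, rfl, h⟩ := h
      exact NHT.rIn hf H.T (t := 3) (p := 1) (j := 3) (by omega) (by omega) (by omega) (by omega) (by omega) (by omega) (by omega) (by omega)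
    · obtain ⟨rfl, rfl, rfl, rfl⟩ := h
      exact fun t => z0 (mv t (by omega) (by omega) (by omega) (by omega))

/-- the run of the column `2 n - 5` of `6 k`, row `c - 2`, from `d = 2 k - 5` down to `d = 5` -/
theorem run5 (hf : Rule f) {k c n M y0 : ℕ} (H : PL f k c n M) (hy : y0 % 2 = 0) (hw : 2 * n ≤ y0 + 2 * k)
    (h0 : f (6 * k) (c - 2) (2 * n - 5) y0) :
    ∀ y, y0 ≤ y → y + 10 ≤ 2 * n → y % 2 = 0 → f (6 * k) (c - 2) (2 * n - 5) y := by
  have key : ∀ j : ℕ, y0 + 2 * j + 10 ≤ 2 * n → f (6 * k) (c - 2) (2 * n - 5) (y0 + 2 * j) := by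
    intro j
    induction j with
    | zero => exact fun _ => h0
    | succ j ih =>
      intro h
      exact step5 hf H (s := y0 + 2 * j) (by omega) (by omega) (by omega) (ih (by omega))
  intro y h1 h2 h3
  have h4 := key ((y - y0) / 2) (by omega)
  rwa [show y0 + 2 * ((y - y0) / 2) = y by omega] at h4

/-- **The pair of the lines `2 n - 5`, `2 n - 3` of `6 k`, row `c - 2`**, at every distance from `5` to `2 k - 5`. -/
theorem q0 (hf : Rule f) {k c n M : ℕ} (H : PL f k c n M) (hM4 : M + 4 = n) (C2 : Cyc f (6 * k + 2) (c - 4) (2 * (n - 5) + 2))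
    {y : ℕ} (hy : y % 2 = 0) (h1 : 2 * n ≤ y + 2 * k) (h2 : y + 10 ≤ 2 * n) :
    f (6 * k) (c - 2) (2 * n - 5) y ∨ f (6 * k) (c - 2) (2 * n - 3) (y + 2) := by
  have hk := H.T.hk
  have hN := H.T.hN2
  rcases k0e hf H hM4 C2 with h | h
  · exact Or.inl (run5 hf H (by omega) (by omega) h y (by omega) h2 hy)
  · exact Or.inr (TipK0.run0 hf H.T (by omega) (by omega) (by omega) (by omega) h (y + 2) (by omega) (by omega) (by omega))

/-- The same over the stack (leads `n - 7`, `n - 5`, `n + 1`), row `b + 20`. -/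
theorem q0_stack (hf : Rule f) {k b m n : ℕ} (hs : Side k b m) (S : Stack6 f k b m 0 0 0 0 0 1) (hn : n = m + 9 + (k + 2) * 4)
    (d0 : Cyc f (6 * k) (b + 16) (2 * (n - 7) + 2)) (d2 : Cyc f (6 * k + 2) (b + 18) (2 * (n - 5) + 2))
    (d4 : Cyc f (6 * k + 4) (b + 20) (2 * (n + 1) + 2)) {y : ℕ} (hy : y % 2 = 0) (h1 : 2 * n ≤ y + 2 * k) (h2 : y + 10 ≤ 2 * n) :
    f (6 * k) (b + 20) (2 * n - 5) y ∨ f (6 * k) (b + 20) (2 * n - 3) (y + 2) := by
  have H := PL.of_stack (M := n - 4) hs S hn (by omega) (by omega) (cyc_mv d0 rfl rfl (by omega))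
    (WrapC.cyc_mono d2 (by omega)) d4
  have hN := H.T.hN2
  have hk := H.T.hk
  have e : b + 22 - 2 = b + 20 := by omega
  have h := q0 hf H (by omega) (cyc_mv d2 rfl (by omega) rfl) hy h1 h2
  rwa [e] at h

end Pool.Agent.SNT.K0L0e
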