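import Pool.Agent.SNT.L0Y_11
import Pool.Agent.SNT.K0L0e

set_option autoImplicit false

/-! The near-diagonal pieces of the road L0 at `X' = 0` with the pair `q0` plugged in. -/

namespace Pool.Agent.SNT.L0Y

open Pool.Agent.SNT Pool.Agent.SNT.Loc Pool.Agent.SNT.LW Pool.Agent.SNT.NHZ Pool.Agent.SNT.D1E

variable {f : ℕ → ℕ → ℕ → ℕ → Prop} {k c n : ℕ}

theorem YK.q0 (hf : Rule f) (H : YK f k c n) :
    f (6 * k) (c - 2) (2 * n - 5) (2 * n - 10) ∨ f (6 * k) (c - 2) (2 * n - 3) (2 * n - 8) := by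
  have hN2 := H.H.P.T.hN2
  have hk := H.H.P.T.hk
  rcases K0L0e.q0 hf H.H.P (by omega) H.H.D2 (y := 2 * n - 10) (by omega) (by omega) (by omega) with h | h
  · exact Or.inl h
  · exact Or.inr (mv h rfl rfl rfl (by omega))

theorem D1c (hf : Rule f) (H : YK f k c n) (h : ¬ f (6 * k) c (2 * n + 4) (2 * n - 1)) :
    f (6 * k) c (2 * n + 2) (2 * n - 3) := d1c hf H (H.q0 hf) h

end Pool.Agent.SNT.L0Y
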