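import Pool.Agent.SNT.PL
import Pool.Agent.SNT.LineR0

set_option autoImplicit false
set_option synthInstance.maxSize 100000
set_option synthInstance.maxHeartbeats 4000000
set_option linter.unusedVariables false

/-! The E-cell of the road L0 at `X = 2 n`, wall windows (helper38's chain, helper23). -/

namespace Pool.Agent.SNT.L0Y

open Pool.Agent.SNT Pool.Agent.SNT.Sig Pool.Agent.SNT.Loc Pool.Agent.SNT.LW Pool.Agent.SNT.NHZ Pool.Agent.SNT.DRun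
open Pool.Agent.SNT.PB Pool.Agent.SNT.D1E

variable {f : ℕ → ℕ → ℕ → ℕ → Prop}

/-- the `In` facts with literal cells -/
theorem iy4 (hf : Rule f) {k c n y : ℕ} (I : LineR0.In f (6 * k) c n (n + 2 - k) (n - 5) (n - 4)) (hk : 8 ≤ k)
    (hN : 2 * k + 100 ≤ 2 * n) (hy : y % 2 = 0) (h1 : 2 * n + 6 ≤ y + 2 * k) (h2 : y + 8 ≤ 2 * n) :
    ¬ f (6 * k + 4) c (2 * n + 1) y := by
  have h := I.y4 hf (j := y / 2) (by omega) (by omega)
  unfold Sig.bY at h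
  rwa [show 2 * (y / 2) = y by omega] at h

theorem iy4p (hf : Rule f) {k c n y : ℕ} (I : LineR0.In f (6 * k) c n (n + 2 - k) (n - 5) (n - 4)) (hk : 8 ≤ k)
    (hN : 2 * k + 100 ≤ 2 * n) (hy : y % 2 = 0) (h1 : 2 * n + 6 ≤ y + 2 * k) (h2 : y + 10 ≤ 2 * n) :
    ¬ f (6 * k + 4) c (2 * n - 1) y := by
  have h := I.y4' hf (i := n - 1) (j := y / 2) (by omega) (by omega) (by omega)
  unfold Sig.bY at h
  rwa [show 2 * (n - 1) + 1 = 2 * n - 1 by omega, show 2 * (y / 2) = y by omega] at h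

theorem ix6 (hf : Rule f) {k c n y : ℕ} (I : LineR0.In f (6 * k) c n (n + 2 - k) (n - 5) (n - 4)) (hk : 8 ≤ k)
    (hN : 2 * k + 100 ≤ 2 * n) (hy : y % 2 = 1) (h1 : 2 * n + 7 ≤ y + 2 * k) (h2 : y + 7 ≤ 2 * n) :
    ¬ f (6 * k + 6) c (2 * n) y := by
  have h := I.x6 hf (j := y / 2) (by omega) (by omega)
  unfold Sig.bX at h
  rwa [show 2 * (y / 2) + 1 = y by omega] at h

theorem x0_w2b_chk : check 8 8 20 22 0 0 1 0 0
    (fun j n p q => decide ((j = 2 ∧ n = 2 ∧ 10 ≤ q ∧ q ≤ p + 14 ∧ p ≤ q ∧ (((p + q + 1) % 2 = 1 ∧ p + 0 ≤ q ∧ (p + 1) % 2 = 0) ∨ ((p + q + 1) % 2 = 1 ∧ q + 0 ≤ p ∧ (p + q + 2) % 4 = 0)))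
      ∨ (j = 2 ∧ n = 4 ∧ 14 ≤ p ∧ q ≤ p + 14 ∧ (((p + q + 1) % 2 = 1 ∧ p + 0 ≤ q ∧ (p + 1) % 2 = 1) ∨ ((p + q + 1) % 2 = 1 ∧ q + 0 ≤ p ∧ (p + q + 0) % 4 = 0)))
      ∨ (j = 4 ∧ n = 2 ∧ 10 ≤ p ∧ q ≤ p + 14 ∧ (((p + q + 1) % 2 = 1 ∧ p + 0 ≤ q ∧ (p + 1) % 2 = 1) ∨ ((p + q + 1) % 2 = 1 ∧ q + 0 ≤ p ∧ (p + q + 0) % 4 = 0)))
      ∨ (j = 6 ∧ n = 2 ∧ 4 ≤ p ∧ q + 1 ≤ p ∧ (((p + q + 1) % 2 = 1 ∧ p + 0 ≤ q ∧ (p + 1) % 2 = 0) ∨ ((p + q + 1) % 2 = 1 ∧ q + 0 ≤ p ∧ (p + q + 2) % 4 = 0)))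
      ∨ (j = 4 ∧ n = 3 ∧ 12 ≤ p ∧ q ≤ p + 14 ∧ ((p + q + 1) % 2 = 0 ∧ q + 1 ≤ p ∧ (p + q + 1) % 4 = 0))
      ∨ (j = 2 ∧ n = 1 ∧ q ≤ p + 14 ∧ ((p + q + 1) % 2 = 0 ∧ q + 1 ≤ p ∧ (p + q + 1) % 4 = 0))
      ∨ (j = 2 ∧ n = 2 ∧ q + 1 ≤ p ∧ (((p + q + 1) % 2 = 1 ∧ p + 0 ≤ q ∧ (p + 1) % 2 = 0) ∨ ((p + q + 1) % 2 = 1 ∧ q + 0 ≤ p ∧ (p + q + 2) % 4 = 0)))
      ∨ (j = 2 ∧ n = 3 ∧ 12 ≤ p ∧ q ≤ p + 14 ∧ ((p + q + 1) % 2 = 0 ∧ q + 1 ≤ p ∧ (p + q + 3) % 4 = 0))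
      ∨ (j = 4 ∧ n = 4 ∧ 14 ≤ p ∧ q + 1 ≤ p ∧ (((p + q + 1) % 2 = 1 ∧ p + 0 ≤ q ∧ (p + 1) % 2 = 0) ∨ ((p + q + 1) % 2 = 1 ∧ q + 0 ≤ p ∧ (p + q + 2) % 4 = 0)))
      ∨ (j = 8 ∧ n = 2 ∧ 8 ≤ p ∧ q ≤ p + 14 ∧ (((p + q + 1) % 2 = 1 ∧ p ≤ q + 2 ∧ (p + 1) % 2 = 1) ∨ ((p + q + 1) % 2 = 1 ∧ q + 2 ≤ p ∧ (p + q + 0) % 4 = 2)))
      ∨ (j = 6 ∧ n = 1 ∧ 2 ≤ p ∧ q ≤ p + 14 ∧ ((p + q + 1) % 2 = 0 ∧ q + 1 ≤ p ∧ (p + q + 1) % 4 = 0))
      ∨ (j = 2 ∧ n = 5 ∧ 16 ≤ p ∧ q ≤ p + 14 ∧ ((p + q + 1) % 2 = 0 ∧ q + 1 ≤ p ∧ (p + q + 1) % 4 = 0))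
      ∨ (j = 8 ∧ n = 3 ∧ 10 ≤ p ∧ q ≤ p + 14 ∧ ((p + q + 1) % 2 = 0 ∧ q + 3 ≤ p ∧ (p + q + 1) % 4 = 2))
      ∨ (j = 6 ∧ n = 2 ∧ 16 ≤ q ∧ q ≤ p + 14 ∧ p ≤ q ∧ (((p + q + 1) % 2 = 1 ∧ p + 0 ≤ q ∧ (p + 1) % 2 = 0) ∨ ((p + q + 1) % 2 = 1 ∧ q + 0 ≤ p ∧ (p + q + 2) % 4 = 0)))
      ∨ (j = 2 ∧ n = 6 ∧ 18 ≤ p ∧ q + 1 ≤ p ∧ (((p + q + 1) % 2 = 1 ∧ p + 0 ≤ q ∧ (p + 1) % 2 = 0) ∨ ((p + q + 1) % 2 = 1 ∧ q + 0 ≤ p ∧ (p + q + 2) % 4 = 0)))
      ∨ (j = 6 ∧ n = 3 ∧ 18 ≤ p ∧ q ≤ p + 14 ∧ ((p + q + 1) % 2 = 0 ∧ q + 1 ≤ p ∧ (p + q + 3) % 4 = 0))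
      ∨ (j = 3 ∧ n = 6 ∧ p = 15 ∧ q = 16)
      ∨ (j = 2 ∧ n = 2 ∧ p = 1 ∧ q = 7)))
    (fun j n p q => decide ((j = 1 ∧ n = 3 ∧ q ≤ p + 15 ∧ p ≤ q + 17)
      ∨ (j = 1 ∧ n = 4 ∧ q ≤ p + 15 ∧ p ≤ q + 17)
      ∨ (j = 1 ∧ n = 2 ∧ q ≤ p + 15 ∧ p ≤ q + 17)
      ∨ (j = 1 ∧ n = 5 ∧ q ≤ p + 15 ∧ p ≤ q + 17)
      ∨ (j = 1 ∧ n = 1 ∧ q ≤ p + 15 ∧ p ≤ q + 17)
      ∨ (j = 2 ∧ n = 1 ∧ q ≤ p + 14 ∧ ¬ ((p + q + 1) % 2 = 0 ∧ q + 1 ≤ p ∧ (p + q + 1) % 4 = 0))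
      ∨ (j = 1 ∧ n = 6 ∧ q ≤ p + 15 ∧ p ≤ q + 17)
      ∨ (j = 4 ∧ n = 3 ∧ 11 ≤ p ∧ q ≤ p + 14 ∧ p ≤ q + 1 ∧ ¬ ((p + q + 1) % 2 = 0 ∧ q + 1 ≤ p ∧ (p + q + 1) % 4 = 0))
      ∨ (j = 7 ∧ n = 3 ∧ 13 ≤ p ∧ q ≤ p + 13 ∧ p ≤ q)
      ∨ (j = 7 ∧ n = 4 ∧ 13 ≤ p ∧ q ≤ p + 13 ∧ p ≤ q)
      ∨ (j = 2 ∧ n = 3 ∧ 12 ≤ q ∧ q ≤ p + 14 ∧ p ≤ q ∧ ¬ ((p + q + 1) % 2 = 0 ∧ q + 1 ≤ p ∧ (p + q + 3) % 4 = 0))
      ∨ (j = 6 ∧ n = 2 ∧ 4 ≤ p ∧ q + 1 ≤ p ∧ ¬ (((p + q + 1) % 2 = 1 ∧ p + 0 ≤ q ∧ (p + 1) % 2 = 0) ∨ ((p + q + 1) % 2 = 1 ∧ q + 0 ≤ p ∧ (p + q + 2) % 4 = 0)))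
      ∨ (j = 2 ∧ n = 2 ∧ q + 1 ≤ p ∧ ¬ (((p + q + 1) % 2 = 1 ∧ p + 0 ≤ q ∧ (p + 1) % 2 = 0) ∨ ((p + q + 1) % 2 = 1 ∧ q + 0 ≤ p ∧ (p + q + 2) % 4 = 0)))
      ∨ (j = 6 ∧ n = 3 ∧ 8 ≤ p ∧ q ≤ p + 13 ∧ p + 2 ≤ q)
      ∨ (j = 6 ∧ n = 1 ∧ 2 ≤ p ∧ q ≤ p + 14 ∧ ¬ ((p + q + 1) % 2 = 0 ∧ q + 1 ≤ p ∧ (p + q + 1) % 4 = 0))
      ∨ (j = 4 ∧ n = 4 ∧ 14 ≤ p ∧ q + 1 ≤ p ∧ ¬ (((p + q + 1) % 2 = 1 ∧ p + 0 ≤ q ∧ (p + 1) % 2 = 0) ∨ ((p + q + 1) % 2 = 1 ∧ q + 0 ≤ p ∧ (p + q + 2) % 4 = 0)))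
      ∨ (j = 4 ∧ n = 2 ∧ 10 ≤ p ∧ q ≤ p + 14 ∧ ¬ (((p + q + 1) % 2 = 1 ∧ p + 0 ≤ q ∧ (p + 1) % 2 = 1) ∨ ((p + q + 1) % 2 = 1 ∧ q + 0 ≤ p ∧ (p + q + 0) % 4 = 0)))
      ∨ (j = 5 ∧ n = 3 ∧ 11 ≤ p ∧ q ≤ p + 12 ∧ p + 3 ≤ q)
      ∨ (j = 5 ∧ n = 4 ∧ 11 ≤ p ∧ q ≤ p + 12 ∧ p + 3 ≤ q)
      ∨ (j = 2 ∧ n = 5 ∧ 16 ≤ p ∧ q ≤ p + 14 ∧ ¬ ((p + q + 1) % 2 = 0 ∧ q + 1 ≤ p ∧ (p + q + 1) % 4 = 0))
      ∨ (j = 3 ∧ n = 6 ∧ 12 ≤ p ∧ p ≤ 16 ∧ 17 ≤ q ∧ q ≤ 23)
      ∨ (j = 6 ∧ n = 5 ∧ 12 ≤ p ∧ q ≤ p + 12 ∧ p + 3 ≤ q)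
      ∨ (j = 2 ∧ n = 3 ∧ 12 ≤ p ∧ q ≤ p + 14 ∧ ¬ ((p + q + 1) % 2 = 0 ∧ q + 1 ≤ p ∧ (p + q + 3) % 4 = 0))
      ∨ (j = 6 ∧ n = 3 ∧ 18 ≤ p ∧ q ≤ p + 14 ∧ ¬ ((p + q + 1) % 2 = 0 ∧ q + 1 ≤ p ∧ (p + q + 3) % 4 = 0))
      ∨ (j = 7 ∧ n = 1 ∧ 7 ≤ p ∧ q ≤ p + 14 ∧ p + 1 ≤ q)
      ∨ (j = 7 ∧ n = 2 ∧ 7 ≤ p ∧ q ≤ p + 14 ∧ p + 1 ≤ q)
      ∨ (j = 7 ∧ n = 5 ∧ 12 ≤ p ∧ q ≤ p + 12 ∧ p + 3 ≤ q)
      ∨ (j = 7 ∧ n = 6 ∧ 15 ≤ p ∧ p ≤ 16 ∧ 19 ≤ q ∧ q ≤ 23)
      ∨ (j = 2 ∧ n = 4 ∧ 14 ≤ p ∧ q ≤ p + 14 ∧ ¬ (((p + q + 1) % 2 = 1 ∧ p + 0 ≤ q ∧ (p + 1) % 2 = 1) ∨ ((p + q + 1) % 2 = 1 ∧ q + 0 ≤ p ∧ (p + q + 0) % 4 = 0)))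
      ∨ (j = 2 ∧ n = 5 ∧ 15 ≤ p ∧ q ≤ p + 14 ∧ p ≤ q + 1 ∧ ¬ ((p + q + 1) % 2 = 0 ∧ q + 1 ≤ p ∧ (p + q + 1) % 4 = 0))
      ∨ (j = 5 ∧ n = 6 ∧ 14 ≤ p ∧ p ≤ 16 ∧ 18 ≤ q ∧ q ≤ 23)
      ∨ (j = 6 ∧ n = 3 ∧ 18 ≤ q ∧ q ≤ p + 14 ∧ p ≤ q ∧ ¬ ((p + q + 1) % 2 = 0 ∧ q + 1 ≤ p ∧ (p + q + 3) % 4 = 0))
      ∨ (j = 6 ∧ n = 6 ∧ 18 ≤ p ∧ p ≤ 18 ∧ 18 ≤ q ∧ q ≤ 18)
      ∨ (j = 6 ∧ n = 6 ∧ 16 ≤ p ∧ p ≤ 16 ∧ 20 ≤ q ∧ q ≤ 20)
      ∨ (j = 2 ∧ n = 2 ∧ 10 ≤ p ∧ q ≤ p + 14 ∧ ¬ (((p + q + 1) % 2 = 1 ∧ p + 0 ≤ q ∧ (p + 1) % 2 = 0) ∨ ((p + q + 1) % 2 = 1 ∧ q + 0 ≤ p ∧ (p + q + 2) % 4 = 0)))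
      ∨ (j = 7 ∧ n = 6 ∧ 17 ≤ p ∧ q ≤ p + 12 ∧ p + 3 ≤ q)
      ∨ (j = 6 ∧ n = 2 ∧ 16 ≤ p ∧ q ≤ p + 14 ∧ ¬ (((p + q + 1) % 2 = 1 ∧ p + 0 ≤ q ∧ (p + 1) % 2 = 0) ∨ ((p + q + 1) % 2 = 1 ∧ q + 0 ≤ p ∧ (p + q + 2) % 4 = 0)))
      ∨ (j = 3 ∧ n = 3 ∧ 8 ≤ p ∧ q ≤ p + 11 ∧ p + 4 ≤ q)
      ∨ (j = 2 ∧ n = 2 ∧ p = 1 ∧ q = 5)
      ∨ (j = 2 ∧ n = 6 ∧ p = 7 ∧ q = 11)
      ∨ (j = 2 ∧ n = 4 ∧ p = 3 ∧ q = 9)))
    1271
    0x12ac8311c48011ba0011c48111ba0110d20010d2010fdf800fdf8111ba8311bb0011c69a0f8f830f90000f908a117683118180118c92137d83128b00128b01118283125e801345b2135080135c1a265b83205780213eb2283503213e80213e84265b83205780213eb22829802829841f7a83265b00265b041372801a480013730a1a4801135c00135c043431832e38802e441a2c80002e43002d67ba2e4e122d72802f35802e5a3a2f360a2f36802f370a2d7e802d7e812c8c003448ea2e44802f212a2835002835041fa883276500276504214a03282a00282a041f9183274e00274e042e4e032f2a802f2a84117703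125e00125e041f9d83275a00275a042078032758802758843454032e45002e45043431832d5c802d5c8413688013739211a50011a5011f7a83265b00265b8a1890001890011199801199841fa8832764802764843448832d73802d73841373831a53801a53842c80032d5c80343d4a2d46802d46841f9183274d80274d842d52832d5d802d5d841f9183206e00206e042e4e032e4e802e4e84208f03284b80284b8413738312810012810413ab831a8b8021775a285700285704118d8011989211a40011a4041f9c83207900207904326d832c6a002c6a043279832c75802c75841f8683206280206284189003196c00196c04128b05137280128b0113730a128080128084137d83128b00128b01188f001f7ada205700205704209b03277b00277b04360d032f21002f21041f91831f92001f92041f9183206d80206d84127f00127f01118c80118c841f85832062002062043454833530803530841f9c83267c80267c842c97032d738034544a2d5d80343e4a2d47802d478413ab831a8b802176d22856802856842d72832e4f002e4f041fb383277000277004135d031a3d001a3d04216103284c00284c04116083116b80116b84118c8312690012690432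84832c81002c81041f9c83267d00267d041f91831f92001f9d9a207a00207a043454832e50802e50843454032e50002e50041373031a53001a5304208f03216b80216b84216a83284a80284a84128b0311988013720011a41a137d9a128b80128b8411a4031280001280041f9c83275900275904208f03276f80276f8413ab831a8c001a8c04127e000fa88010bb00127e010fb39210bb01118b800fbe800fc880118b810fc9920fc8811099000fb2801099010fb2810fa6800f9c800fa6810f9c810f90800f90842c80032c80802c8084208f03276f00276f040f9d83107980107984137e8011ba80138a1a12a23a11bb8011bb842d47852d53002d5292343e522e39802e3984139f031a7f001a7f0411c6831982801982840f8f830f90000f908a0f91000f9c9a0fa8000fa8041fb38326938026938410bb031197801197840f8f830f90000f908a0f91000f9c9a0fa8000fb39a109000109004138a031297801297841f9d83275980275984138a0312970012970411ba831296801296841f9d8320798020798420780328348028348420780320788020788420780321548021548411c68318a68018a68410c70010d21220828011b98020828111c49212ac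0012ac8a11c48312a10012a10410d20311ae8011ae840f90830f9b800fa6920fb1800fb18412ac8311c48011ba0011c48111ba0110d20010d20111a38011a3840fd4800fd48412ac0511c48012ac8a11c48111ba0011ba8a11bb0011c69a12a30012a30412a20319820019820411ba031296001296041fa88320848020848412a2031977001977042d7d002d7d012d66002c95002d66012c95012c8a802c7e002c738013890011a1001d08001d06001cf100336ac2335e423353c220998013949a10c58011a10110b90010ae801defba1dedba1dd8ba3a4a803a3e003a3380397000396f00396d003959002ca1802bbb802bb9802baf002bad002ba5802ba2802b98002b96002b8b802b81002abc802ab0002aa5801fbe002099811fb1801fa7001f9a801f90001ee2801ee0801ed6001ecb801ec9801ebf001eb4801e9d801dfa801df8801df0001dee001de3801dda001dd9001dd7001dc3001a750013b60012da8012ce0012c38011ff0011fd0011f28011e90011e80011e60011db8011d30011d20011d100112180111700110a8011000010f38010e90010dc80102f00102d00102580102480100f80100e80100d800ff8800ff7800ff6800fea000fe180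0fe08010c5810fdd800fd30010b9010fd1000fca8010ae810fc6800fbc000fb4800f86800f53800f3c800f3a800f25800ef7800ee0800ec9800eb2803a4a8f3a3e0f3a338f39700f396f0f396d0f39590f360d07360207360187353107352607352587345487345407345387344987344907344887344807343e07343d87343d07343c87343307343287343207343187343107342687342607337887337807337787336d87336d07336c87336c07336207336187336107336087335707335687335607335587335507334a87334a07327987326e87326e07326287319d873192873192073186872f37072f2d072f2c072f2b072f22072f16072e51072e46072e45872e3a072d74072d73072d72072d5e072d5d072d5c072d5b072d47072d46072ca2872ca2072ca18f2ca1072ca0872c98872c98072c8d872c8d072c82072c81872c77072c76872c76072c6b872c6b072c6a872bbb8f2bbb072bba872bb98f2bb9072bb8872bb0072baf872baf0f2bae872bae072bad872bad0f2ba58f2ba4072ba3872ba3072ba28f2ba2072ba1872b98872b980f2b97872b97072b96872b960f2b8e072b8d072b8c872b8c072b8b8f2b810f2ac8872ac8072abd872abd072a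bc8f2ab2872ab2072ab1872ab1072ab00f2aa6872aa6072aa58f284107283607267287266787266707265b87265087265007259687258b87258b07257f87257487257407216c07216b07216a07215607215507213f07213e071fbe871fbe0f1fbd871fbd071fb4071fb3071fb2871fb2071fb18f1fa7871fa70f1fa6871fa6071f9d071f9c071f9b871f9b071f9a8f1f90871f900f1f86071f85071f70071f6f071ee28f1ee08f1ed7871ed7071ed60f1ecc871ecc071ecb8f1ec98f1ec1871ec1071ec0871ec0071ebf0f1eb6871eb6071eb5871eb5071eb48f1eaa871eaa071ea9871ea9071e9f871e9f071e9e871e9e071e9d8f1e94871e94071e93871e93071dfa8f1df88f1df00f1def871def071dee0f1ded871ded071de4871de4071de38f1de2871de2071dda0f1dd90f1dd8871dd8071dd70f1dcd871dcd071dc30f1a81071a80871a76071a75871a750f17a90713b60f13ab07139407137f07137d07136807135207135107133a87133a0712da8f12cf8712cf0712ce0f12c48712c40712c38f12c30712c28712b88712b80711ff0f11fd0f11f28f11e90f11e80f11e60f11db8f11d30f11d20f11d10f11d08711d00711c60711c50711c40711b0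0711af07119a07119907119807119707119607118207118107118007116c07116b0711558711550711218f11170f110a8f11000f10f38f10ea8710ea0710e90f10e88710e80710df8710df0710de8710de0710dd8710dd0710dc8f10d40710d38710d30710c90710c88710c80710be0710bd8710bd07102f0f102d0f10258f10248f100f8f100e8f100d8f0ff88f0ff78f0ff68f0ff6070ff5870feb070fea870fea0f0fe9870fe9070fe18f0fe08f0fdf070fde870fde070fdd8f0fdd070fdc870fd3870fd30f0fd2870fd2070fd1870fd10f0fca8f0fc9070fc8070fc7870fc7070fc68f0fbc870fbc0f0fb48f0fb3070fb2070f9d070f9c070f9b070f868f0f85870f85070f84070f538f0f3c8f0f3a8f0f258f0f03870f03070ef8870ef8070ef78f0eed870eed070eec870eec070ee2870ee2070ee1870ee1070ee08f0ed7870ed7070ed6870ed6070ecc870ecc070ecb870ecb070eca870eca070ec98f0ec1870ec1070ec0870ec0070ebf870ebf070eb6870eb6070eb5870eb5070eb4870eb4070eb3870eb3070eb28f0ea9870ea9070ea8870ea8070ccb870ccb070cc0870cc0070cbf070cbe870cb4870cb4070cb3870caa070ca9870ca9070c9f07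0c9e870c9d870c9d070c93870c93070c92870c92070c88870c88070c87870c7d070c7c870c7c070c7b870c72070c71870c71070c70870c65870c65070c5a870c5a070bef870bef070be4870be4070be3070be2870bd8870bd8070bd7870bce070bcd870bcd070bcc870bcc070bc3070bc2870bc2070bc1870bc1070bb7870bb7070bb6870bb6070bac870bac070bab870bab070baa870ba1070ba0870ba0070b9f870b9f070b9e870b9e070b9d870b96070b95870b95070b94870b94070b93870b93070b92870b89870b89070b7e870b7e070af0870af0070ae6870ae6070ae5870ae5070ae4870ae4070adb870adb070ada870ada070ad9870ad9070acf870acf070ace870ac5070ac4870ac4070ac3870ac3070ac2870ac2070ac1870ac1070ac0870aba070ab9870ab9070ab8870ab8070ab7870ab7070ab6870ab6070ab5870aad870aad070aac870aac070aab870aab070aa2870aa2070aa1870aa1070aa0870aa0070a97870a97070a96870a96070a8c070a8b870a8b070a80870a80070a75870a75070a0a870a0a070a08870a080709ff8709ff0709fe8709fe0709fd8709fd0709f38709f30709f28709f20709f18709e90709e88709e80709e78709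e70709e68709e58709e50709e48709de0709dd8709dd0709dc8709dc0709db0709da8709da0709d98709d90709d88709d18709d10709d08709d00709cf8709cf0709ce8709ce0709cd8709c68709c60709c58709c50709c48709c40709c38709c30709bb8709bb0709ba8709ba0709b90709b88709b00709af8709af0709ae0709ad8709a48709a407099987099907091607091587090b07090a8709098709090708ff8708ff0708fe8708fe0708fd0708fc8708f48708f40708f38708f28708f20708f18708e98708e90708e88708e80708e78708e70708de8708de0708dd8708dd0708dc8708d38708d30708d28708d20708d18708c88708c80708c78708c70708c68708c60708bd8708bd0708bc8708bc0708bb8708bb0708b28708b20708b18708b10708b08708b00708af8708af0708a58708a50708a48708a407082387082307081887081807080d87080d07080c87080c0708028708020708018708010707f78707f70707f68707f60707ec8707ec0707eb8707eb0707ea8707ea0707e18707e10707e08707e00707df8707df0707d68707d60707d58707d50707d48707d40707d38707d30707c98707c90707c88707c807 = true := by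
  decide +kernel

/-- **W2b**: `E`, the line `- 5` of `6 k` in the row `c - 2`, the line `- 3` in the row `c` missing, the line `- 7` of the row
`c - 4` present => the line `- 9` of the row `c - 4` present. -/
theorem x0_w2b (hf : Rule f) {k c n : ℕ} (H : PL f k c n (n - 4))
    (I : LineR0.In f (6 * k) c n (n + 2 - k) (n - 5) (n - 4))
    (D0 : Cyc f (6 * k) (c - 2) (2 * n - 2))
    (D0a : Cyc f (6 * k) (c - 6) (2 * n - 6 - 2 * k))
    (C4a : Cyc f (6 * k + 4) (c - 6) (2 * (n - (k + 1)) + 2))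
    (nb : ∀ y : ℕ, y % 2 = 0 → 2 * n + 4 ≤ y + 2 * k → y + 2 ≤ 2 * n → ¬ f (6 * k + 4) c (2 * n + 3) y)
    (e : f (6 * k + 1) (c) (2 * n) (2 * n + 2 - 2 * k))
    (h1 : ¬ f (6 * k) (c - 2) (2 * n - 12) (2 * n - 5 - 2 * k))
    (h2 : ¬ f (6 * k) (c) (2 * n - 8) (2 * n - 3 - 2 * k))
    (h3 : f (6 * k) (c - 4) (2 * n - 14) (2 * n - 7 - 2 * k)) :
    f (6 * k) (c - 4) (2 * n - 14) (2 * n - 9 - 2 * k) := by
  by_contra g
  have hk := H.T.hk
  have hc := H.T.hc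
  have h4' := H.T.h4
  have hb := H.T.hb
  have hN := H.T.hN2
  obtain ⟨a0, ha0⟩ : ∃ z, z + 2 = 6 * k := ⟨6 * k - 2, by omega⟩
  obtain ⟨b0, hb0⟩ : ∃ z, z + 6 = c := ⟨c - 6, by omega⟩
  obtain ⟨x0, hx0⟩ : ∃ z, z + 15 = 2 * n := ⟨2 * n - 15, by omega⟩
  obtain ⟨y0, hy0⟩ : ∃ z, z + 14 = (2 * n - 2 * k) := ⟨(2 * n - 2 * k) - 14, by omega⟩
  refine check_sound hf (a0 := a0) (b0 := b0) (x0 := x0) (y0 := y0) x0_w2b_chk
    ⟨fun h => absurd h (by decide), fun h => absurd h (by decide), fun h => absurd h (by decide), by omega, by omega,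
      by omega, by omega⟩ ?_ ?_
  · intro j m p q hr h
    obtain ⟨-, -, -, -, hp1, hp2, hq1, hq2⟩ := hr
    replace h := of_decide_eq_true h
    rcases h with h | h | h | h | h | h | h | h | h
    · obtain ⟨rfl, rfl, h⟩ := h
      exact (WrapC.v2 D0a (by omega) (by omega) (by omega) (by omega) (by omega) (by omega) (by omega)).mpr (by omega)
    · obtain ⟨rfl, rfl, h⟩ := h
      exact (WrapC.v4 D0a (by omega) (by omega) (by omega) (by omega) (by omega) (by omega) (by omega)).mpr (by omega)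
    · obtain ⟨rfl, rfl, h⟩ := h
      exact (WrapC.v0 H.c2 (by omega) (by omega) (by omega) (by omega) (by omega) (by omega) (by omega)).mpr (by omega)
    · obtain ⟨rfl, rfl, h⟩ := h
      exact (WrapC.v2 C4a (by omega) (by omega) (by omega) (by omega) (by omega) (by omega) (by omega)).mpr (by omega)
    · obtain ⟨rfl, rfl, h⟩ := h
      exact (WrapC.v1 H.c2 (by omega) (by omega) (by omega) (by omega) (by omega) (by omega) (by omega) (by omega)).mpr (by omega)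
    · obtain ⟨rfl, rfl, h⟩ := h
      exact (WrapC.v1 D0a (by omega) (by omega) (by omega) (by omega) (by omega) (by omega) (by omega) (by omega)).mpr (by omega)
    · obtain ⟨rfl, rfl, h⟩ := h
      exact (WrapC.v2 D0a (by omega) (by omega) (by omega) (by omega) (by omega) (by omega) (by omega)).mpr (by omega)
    · obtain ⟨rfl, rfl, h⟩ := h
      exact (WrapC.v3 D0a (by omega) (by omega) (by omega) (by omega) (by omega) (by omega) (by omega) (by omega)).mpr (by omega)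
    rcases h with h | h | h | h | h | h | h | h | h
    · obtain ⟨rfl, rfl, h⟩ := h
      exact (WrapC.v2 H.c2 (by omega) (by omega) (by omega) (by omega) (by omega) (by omega) (by omega)).mpr (by omega)
    · obtain ⟨rfl, rfl, h⟩ := h
      exact (WrapC.v0 H.c6 (by omega) (by omega) (by omega) (by omega) (by omega) (by omega) (by omega)).mpr (by omega)
    · obtain ⟨rfl, rfl, h⟩ := h
      exact (WrapC.v1 C4a (by omega) (by omega) (by omega) (by omega) (by omega) (by omega) (by omega) (by omega)).mpr (by omega)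
    · obtain ⟨rfl, rfl, h⟩ := h
      exact (WrapC.v1 D0 (by omega) (by omega) (by omega) (by omega) (by omega) (by omega) (by omega) (by omega)).mpr (by omega)
    · obtain ⟨rfl, rfl, h⟩ := h
      exact (WrapC.v1 H.c6 (by omega) (by omega) (by omega) (by omega) (by omega) (by omega) (by omega) (by omega)).mpr (by omega)
    · obtain ⟨rfl, rfl, h⟩ := h
      exact (WrapC.v2 C4a (by omega) (by omega) (by omega) (by omega) (by omega) (by omega) (by omega)).mpr (by omega)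
    · obtain ⟨rfl, rfl, h⟩ := h
      exact (WrapC.v2 D0 (by omega) (by omega) (by omega) (by omega) (by omega) (by omega) (by omega)).mpr (by omega)
    · obtain ⟨rfl, rfl, h⟩ := h
      exact (WrapC.v3 C4a (by omega) (by omega) (by omega) (by omega) (by omega) (by omega) (by omega) (by omega)).mpr (by omega)
    rcases h with h | h
    · obtain ⟨rfl, rfl, rfl, rfl⟩ := h
      exact mv e (by omega) (by omega) (by omega) (by omega)
    · obtain ⟨rfl, rfl, rfl, rfl⟩ := h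
      exact mv h3 (by omega) (by omega) (by omega) (by omega)
  · intro j m p q hr h
    obtain ⟨-, -, -, -, hp1, hp2, hq1, hq2⟩ := hr
    replace h := of_decide_eq_true h
    rcases h with h | h | h | h | h | h | h | h | h
    · obtain ⟨rfl, rfl, h⟩ := h
      exact H.lw _ _ _ _ (by omega) (by omega) (by omega) (by omega) (by omega) (by omega)
    · obtain ⟨rfl, rfl, h⟩ := h
      exact H.lw _ _ _ _ (by omega) (by omega) (by omega) (by omega) (by omega) (by omega)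
    · obtain ⟨rfl, rfl, h⟩ := h
      exact H.lw _ _ _ _ (by omega) (by omega) (by omega) (by omega) (by omega) (by omega)
    · obtain ⟨rfl, rfl, h⟩ := h
      exact H.lw _ _ _ _ (by omega) (by omega) (by omega) (by omega) (by omega) (by omega)
    · obtain ⟨rfl, rfl, h⟩ := h
      exact H.lw _ _ _ _ (by omega) (by omega) (by omega) (by omega) (by omega) (by omega)
    · obtain ⟨rfl, rfl, h⟩ := h
      exact mt (WrapC.v1 D0a (by omega) (by omega) (by omega) (by omega) (by omega) (by omega) (by omega) (by omega)).mp (by omega)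
    · obtain ⟨rfl, rfl, h⟩ := h
      exact H.lw _ _ _ _ (by omega) (by omega) (by omega) (by omega) (by omega) (by omega)
    · obtain ⟨rfl, rfl, h⟩ := h
      exact mt (WrapC.v1 H.c2 (by omega) (by omega) (by omega) (by omega) (by omega) (by omega) (by omega) (by omega)).mp (by omega)
    rcases h with h | h | h | h | h | h | h | h | h
    · obtain ⟨rfl, rfl, h⟩ := h
      exact NHU.pmi hf H.U (j := 1) (by omega) (by omega) (by omega) (by omega) (by omega) (by omega)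
    · obtain ⟨rfl, rfl, h⟩ := h
      exact NHU.pmi hf H.U (j := 1) (by omega) (by omega) (by omega) (by omega) (by omega) (by omega)
    · obtain ⟨rfl, rfl, h⟩ := h
      exact mt (WrapC.v3 D0a (by omega) (by omega) (by omega) (by omega) (by omega) (by omega) (by omega) (by omega)).mp (by omega)
    · obtain ⟨rfl, rfl, h⟩ := h
      exact mt (WrapC.v2 C4a (by omega) (by omega) (by omega) (by omega) (by omega) (by omega) (by omega)).mp (by omega)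
    · obtain ⟨rfl, rfl, h⟩ := h
      exact mt (WrapC.v2 D0a (by omega) (by omega) (by omega) (by omega) (by omega) (by omega) (by omega)).mp (by omega)
    · obtain ⟨rfl, rfl, h⟩ := h
      exact NHT.rIn hf H.T (t := 3) (p := 0) (j := 1) (by omega) (by omega) (by omega) (by omega) (by omega) (by omega) (by omega) (by omega)
    · obtain ⟨rfl, rfl, h⟩ := h
      exact mt (WrapC.v1 C4a (by omega) (by omega) (by omega) (by omega) (by omega) (by omega) (by omega) (by omega)).mp (by omega)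
    · obtain ⟨rfl, rfl, h⟩ := h
      exact mt (WrapC.v2 H.c2 (by omega) (by omega) (by omega) (by omega) (by omega) (by omega) (by omega)).mp (by omega)
    rcases h with h | h | h | h | h | h | h | h | h
    · obtain ⟨rfl, rfl, h⟩ := h
      exact mt (WrapC.v0 H.c2 (by omega) (by omega) (by omega) (by omega) (by omega) (by omega) (by omega)).mp (by omega)
    · obtain ⟨rfl, rfl, h⟩ := h
      exact NHT.pmi hf H.T (j := 2) (by omega) (by omega) (by omega) (by omega) (by omega) (by omega)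
    · obtain ⟨rfl, rfl, h⟩ := h
      exact NHT.pmi hf H.T (j := 2) (by omega) (by omega) (by omega) (by omega) (by omega) (by omega)
    · obtain ⟨rfl, rfl, h⟩ := h
      exact mt (WrapC.v1 D0 (by omega) (by omega) (by omega) (by omega) (by omega) (by omega) (by omega) (by omega)).mp (by omega)
    · obtain ⟨rfl, rfl, h⟩ := h
      exact fun t => I.P1 hf (by omega) (by omega) (by omega) (by omega) (mv t (by omega) (by omega) rfl rfl)
    · obtain ⟨rfl, rfl, h⟩ := h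
      exact fun t => NHT.rm1i hf H.T (p := 0) (j := 2) (by omega) (by omega) (by omega) (by omega) (by omega) (by omega) (mv t rfl (by omega) rfl rfl)
    · obtain ⟨rfl, rfl, h⟩ := h
      exact mt (WrapC.v3 D0a (by omega) (by omega) (by omega) (by omega) (by omega) (by omega) (by omega) (by omega)).mp (by omega)
    · obtain ⟨rfl, rfl, h⟩ := h
      exact mt (WrapC.v3 C4a (by omega) (by omega) (by omega) (by omega) (by omega) (by omega) (by omega) (by omega)).mp (by omega)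
    rcases h with h | h | h | h | h | h | h | h | h
    · obtain ⟨rfl, rfl, h⟩ := h
      exact NHT.pIn hf H.T (t := 3) (j := 0) (by omega) (by omega) (by omega) (by omega) (by omega) (by omega) (by omega)
    · obtain ⟨rfl, rfl, h⟩ := h
      exact NHT.pIn hf H.T (t := 3) (j := 0) (by omega) (by omega) (by omega) (by omega) (by omega) (by omega) (by omega)
    · obtain ⟨rfl, rfl, h⟩ := h
      exact fun t => NHT.rm1i hf H.T (p := 1) (j := 2) (by omega) (by omega) (by omega) (by omega) (by omega) (by omega) (mv t rfl (by omega) rfl rfl)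
    · obtain ⟨rfl, rfl, h⟩ := h
      exact fun t => I.P5 hf (by omega) (by omega) (by omega) (by omega) (mv t (by omega) (by omega) rfl rfl)
    · obtain ⟨rfl, rfl, h⟩ := h
      exact mt (WrapC.v4 D0a (by omega) (by omega) (by omega) (by omega) (by omega) (by omega) (by omega)).mp (by omega)
    · obtain ⟨rfl, rfl, h⟩ := h
      exact mt (WrapC.v1 D0 (by omega) (by omega) (by omega) (by omega) (by omega) (by omega) (by omega) (by omega)).mp (by omega)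
    · obtain ⟨rfl, rfl, h⟩ := h
      exact fun t => I.P3 hf (by omega) (by omega) (by omega) (by omega) (mv t (by omega) (by omega) rfl rfl)
    · obtain ⟨rfl, rfl, h⟩ := h
      exact mt (WrapC.v3 C4a (by omega) (by omega) (by omega) (by omega) (by omega) (by omega) (by omega) (by omega)).mp (by omega)
    rcases h with h | h | h | h | h | h | h | h | h
    · obtain ⟨rfl, rfl, h⟩ := h
      exact fun t => nb _ (by omega) (by omega) (by omega) (mv t (by omega) (by omega) (by omega) rfl)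
    · obtain ⟨rfl, rfl, h⟩ := h
      exact fun t => iy4 hf I hk hN (by omega) (by omega) (by omega) (mv t (by omega) (by omega) (by omega) rfl)
    · obtain ⟨rfl, rfl, h⟩ := h
      exact mt (WrapC.v2 D0a (by omega) (by omega) (by omega) (by omega) (by omega) (by omega) (by omega)).mp (by omega)
    · obtain ⟨rfl, rfl, h⟩ := h
      exact NHT.p0i hf H.T (j := 2) (by omega) (by omega) (by omega) (by omega) (by omega) (by omega)
    · obtain ⟨rfl, rfl, h⟩ := h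
      exact mt (WrapC.v2 C4a (by omega) (by omega) (by omega) (by omega) (by omega) (by omega) (by omega)).mp (by omega)
    · obtain ⟨rfl, rfl, h⟩ := h
      exact NHT.rIn hf H.T (t := 3) (p := 1) (j := 3) (by omega) (by omega) (by omega) (by omega) (by omega) (by omega) (by omega) (by omega)
    · obtain ⟨rfl, rfl, rfl, rfl⟩ := h
      exact fun t => g (mv t (by omega) (by omega) (by omega) (by omega))
    · obtain ⟨rfl, rfl, rfl, rfl⟩ := h
      exact fun t => h2 (mv t (by omega) (by omega) (by omega) (by omega))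
    · obtain ⟨rfl, rfl, rfl, rfl⟩ := h
      exact fun t => h1 (mv t (by omega) (by omega) (by omega) (by omega))

end Pool.Agent.SNT.L0Y
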