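import Pool.Agent.SNT.PL
import Pool.Agent.SNT.LineR0

set_option autoImplicit false
set_option synthInstance.maxSize 100000
set_option synthInstance.maxHeartbeats 4000000

/-! The E-cell of the road L0 (`X = 2 n`), wall windows (helper38, helper82). -/

namespace Pool.Agent.SNT.L0Y

open Pool.Agent.SNT Pool.Agent.SNT.Sig Pool.Agent.SNT.Loc Pool.Agent.SNT.LW Pool.Agent.SNT.NHZ Pool.Agent.SNT.DRun
open Pool.Agent.SNT.PB Pool.Agent.SNT.D1E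

variable {f : ℕ → ℕ → ℕ → ℕ → Prop}

theorem x0_w1a_chk : check 6 9 9 15 1 1 1 0 0
    (fun j n p q => decide ((j = 5 ∧ n = 2 ∧ q ≤ p + 6 ∧ p + 1 ≤ q ∧ ((p + q + 1) % 2 = 0 ∧ q ≤ p + 1 ∧ (p + q + 3) % 4 = 0))
      ∨ (j = 5 ∧ n = 3 ∧ q ≤ p + 1 ∧ (((p + q + 1) % 2 = 1 ∧ p + 2 ≤ q ∧ p % 2 = 1) ∨ ((p + q + 1) % 2 = 1 ∧ q ≤ p + 2 ∧ (p + q + 0) % 4 = 0)))
      ∨ (j = 1 ∧ n = 1 ∧ q ≤ p + 6 ∧ (((p + q + 1) % 2 = 1 ∧ p + 2 ≤ q ∧ p % 2 = 0) ∨ ((p + q + 1) % 2 = 1 ∧ q ≤ p + 2 ∧ (p + q + 2) % 4 = 0)))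
      ∨ (j = 1 ∧ n = 2 ∧ q ≤ p + 6 ∧ p + 1 ≤ q ∧ ((p + q + 1) % 2 = 0 ∧ q ≤ p + 1 ∧ (p + q + 3) % 4 = 0))
      ∨ (j = 1 ∧ n = 3 ∧ 2 ≤ p ∧ q ≤ p + 6 ∧ (((p + q + 1) % 2 = 1 ∧ p + 2 ≤ q ∧ p % 2 = 1) ∨ ((p + q + 1) % 2 = 1 ∧ q ≤ p + 2 ∧ (p + q + 0) % 4 = 0)))
      ∨ (j = 3 ∧ n = 3 ∧ 2 ≤ p ∧ q ≤ p + 6 ∧ (((p + q + 1) % 2 = 1 ∧ p + 2 ≤ q ∧ p % 2 = 0) ∨ ((p + q + 1) % 2 = 1 ∧ q ≤ p + 2 ∧ (p + q + 2) % 4 = 0)))
      ∨ (j = 3 ∧ n = 4 ∧ 3 ≤ p ∧ q ≤ p + 6 ∧ p + 1 ≤ q ∧ ((p + q + 1) % 2 = 0 ∧ q ≤ p + 1 ∧ (p + q + 3) % 4 = 0))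
      ∨ (j = 3 ∧ n = 1 ∧ q ≤ p + 1 ∧ (((p + q + 1) % 2 = 1 ∧ p + 2 ≤ q ∧ p % 2 = 1) ∨ ((p + q + 1) % 2 = 1 ∧ q ≤ p + 2 ∧ (p + q + 0) % 4 = 0)))
      ∨ (j = 5 ∧ n = 1 ∧ q ≤ p + 6 ∧ (((p + q + 1) % 2 = 1 ∧ p + 2 ≤ q ∧ p % 2 = 0) ∨ ((p + q + 1) % 2 = 1 ∧ q ≤ p + 2 ∧ (p + q + 2) % 4 = 0)))
      ∨ (j = 5 ∧ n = 5 ∧ p = 1 ∧ q = 7)))
    (fun j n p q => decide ((j = 5 ∧ n = 2 ∧ q ≤ p + 6 ∧ p + 1 ≤ q ∧ ¬ ((p + q + 1) % 2 = 0 ∧ q ≤ p + 1 ∧ (p + q + 3) % 4 = 0))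
      ∨ (j = 5 ∧ n = 3 ∧ q ≤ p + 1 ∧ ¬ (((p + q + 1) % 2 = 1 ∧ p + 2 ≤ q ∧ p % 2 = 1) ∨ ((p + q + 1) % 2 = 1 ∧ q ≤ p + 2 ∧ (p + q + 0) % 4 = 0)))
      ∨ (j = 3 ∧ n = 3 ∧ 2 ≤ p ∧ q ≤ p + 6 ∧ ¬ (((p + q + 1) % 2 = 1 ∧ p + 2 ≤ q ∧ p % 2 = 0) ∨ ((p + q + 1) % 2 = 1 ∧ q ≤ p + 2 ∧ (p + q + 2) % 4 = 0)))
      ∨ (j = 3 ∧ n = 1 ∧ q ≤ p + 1 ∧ ¬ (((p + q + 1) % 2 = 1 ∧ p + 2 ≤ q ∧ p % 2 = 1) ∨ ((p + q + 1) % 2 = 1 ∧ q ≤ p + 2 ∧ (p + q + 0) % 4 = 0)))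
      ∨ (j = 2 ∧ n = 1 ∧ q ≤ p + 6 ∧ p + 4 ≤ q)
      ∨ (j = 6 ∧ n = 3 ∧ q ≤ p + 6 ∧ p + 3 ≤ q)
      ∨ (j = 6 ∧ n = 5 ∧ 3 ≤ p ∧ q ≤ p + 6 ∧ p + 4 ≤ q)
      ∨ (j = 3 ∧ n = 2 ∧ q ≤ p + 6 ∧ p + 4 ≤ q)
      ∨ (j = 5 ∧ n = 4 ∧ q ≤ p + 6 ∧ p + 4 ≤ q)
      ∨ (j = 6 ∧ n = 4 ∧ q ≤ p + 6 ∧ p + 4 ≤ q)
      ∨ (j = 6 ∧ n = 2 ∧ q ≤ p + 6 ∧ p + 3 ≤ q)
      ∨ (j = 6 ∧ n = 5 ∧ 5 ≤ p ∧ q ≤ p + 6 ∧ p + 2 ≤ q)
      ∨ (j = 6 ∧ n = 4 ∧ 5 ≤ p ∧ q ≤ p + 6 ∧ p + 2 ≤ q)))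
    121
    0xd14030d58000fb84a0cc9800f294207c7030a26800cd1720d15000fb8620d14030d14800d14840d14030d58000d58040cc2000cc204077b0007c6ba07ce0007be000d49000819ba0809ba0fa94a0d3a000cc8000c95000c85000c4200084d00081a00081100080b00080a00079200078200035a00035300034a0003430003170003070002f70002cb0002c40002bb0002b50002b4000fb8070fb7870fb0870fa9070fa8870f74870f74070f6d070f65870f65070f5e070f5d870f29070f21870f21070ee5870ede070edd870d58870d49870d3a0f0d0d870d06070d05870cfe870cfe070cd0870cd0070cc8870cc80f0cc1870c950f0c8d870c8d070c86070c85870c850f0c7e870c7e070c420f084d0f081a0f08198708190708120708118708110f080b0f080a0f08098708090708020708018707bf8707920f07828707820f077b87051c87035a0f03530f034a0f03430f03170f03070f02f70f02cb0f02c40f02bb0f02b50f02b40f = true := by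
  decide +kernel

/-- `E` => `6 k + 4` has no beam `y = 2 n - 2 k - 1` in the row `c - 2`. -/
theorem x0_w1a (hf : Rule f) {k c n : ℕ} (H : PL f k c n (n - 4))
    (D0 : Cyc f (6 * k) (c - 2) (2 * n - 2)) (D0a : Cyc f (6 * k) (c - 6) (2 * n - 6 - 2 * k))
    (C4a : Cyc f (6 * k + 4) (c - 6) (2 * (n - (k + 1)) + 2))
    (e : f (6 * k + 1) c (2 * n) (2 * n + 2 - 2 * k)) : ¬ f (6 * k + 4) (c - 2) (2 * n - 6) (2 * n - 1 - 2 * k) := by
  intro g0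
  have hk := H.T.hk
  have hc := H.T.hc
  have h4' := H.T.h4
  have hb := H.T.hb
  have hN := H.T.hN2
  obtain ⟨a0, ha0⟩ : ∃ z, z + 1 = 6 * k := ⟨6 * k - (1), by omega⟩
  obtain ⟨b0, hb0⟩ : ∃ z, z + 7 = c := ⟨c - (7), by omega⟩
  obtain ⟨x0, hx0⟩ : ∃ z, z + 7 = 2 * n := ⟨2 * n - (7), by omega⟩
  obtain ⟨y0, hy0⟩ : ∃ z, z + 2 * k + 8 = 2 * n := ⟨2 * n - (2 * k + 8), by omega⟩
  refine check_sound hf (a0 := a0) (b0 := b0) (x0 := x0) (y0 := y0) x0_w1a_chk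
    ⟨fun h => absurd h (by decide), fun h => absurd h (by decide), fun h => absurd h (by decide), by omega, by omega,
      by omega, by omega⟩ ?_ ?_
  · intro j m p q hr h
    obtain ⟨-, -, -, -, hp1, hp2, hq1, hq2⟩ := hr
    replace h := of_decide_eq_true h
    rcases h with h | h | h | h | h | h | h | h | h | h
    · obtain ⟨rfl, rfl, h⟩ := h
      exact (WrapC.v1 C4a (by omega) (by omega) (by omega) (by omega) (by omega) (by omega) (by omega) (by omega)).mpr (by omega)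
    · obtain ⟨rfl, rfl, h⟩ := h
      exact (WrapC.v2 C4a (by omega) (by omega) (by omega) (by omega) (by omega) (by omega) (by omega)).mpr (by omega)
    · obtain ⟨rfl, rfl, h⟩ := h
      exact (WrapC.v0 D0a (by omega) (by omega) (by omega) (by omega) (by omega) (by omega) (by omega)).mpr (by omega)
    · obtain ⟨rfl, rfl, h⟩ := h
      exact (WrapC.v1 D0a (by omega) (by omega) (by omega) (by omega) (by omega) (by omega) (by omega) (by omega)).mpr (by omega)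
    · obtain ⟨rfl, rfl, h⟩ := h
      exact (WrapC.v2 D0a (by omega) (by omega) (by omega) (by omega) (by omega) (by omega) (by omega)).mpr (by omega)
    · obtain ⟨rfl, rfl, h⟩ := h
      exact (WrapC.v0 H.c2 (by omega) (by omega) (by omega) (by omega) (by omega) (by omega) (by omega)).mpr (by omega)
    · obtain ⟨rfl, rfl, h⟩ := h
      exact (WrapC.v1 H.c2 (by omega) (by omega) (by omega) (by omega) (by omega) (by omega) (by omega) (by omega)).mpr (by omega)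
    · obtain ⟨rfl, rfl, h⟩ := h
      exact (WrapC.v2 H.c2a (by omega) (by omega) (by omega) (by omega) (by omega) (by omega) (by omega)).mpr (by omega)
    · obtain ⟨rfl, rfl, h⟩ := h
      exact (WrapC.v4 H.c4b (by omega) (by omega) (by omega) (by omega) (by omega) (by omega) (by omega)).mpr (by omega)
    · obtain ⟨rfl, rfl, rfl, rfl⟩ := h
      exact mv g0 (by omega) (by omega) (by omega) (by omega)
  · intro j m p q hr h
    obtain ⟨-, -, -, -, hp1, hp2, hq1, hq2⟩ := hr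
    replace h := of_decide_eq_true h
    rcases h with h | h | h | h | h | h | h | h | h | h | h | h | h
    · obtain ⟨rfl, rfl, h⟩ := h
      exact mt (WrapC.v1 C4a (by omega) (by omega) (by omega) (by omega) (by omega) (by omega) (by omega) (by omega)).mp (by omega)
    · obtain ⟨rfl, rfl, h⟩ := h
      exact mt (WrapC.v2 C4a (by omega) (by omega) (by omega) (by omega) (by omega) (by omega) (by omega)).mp (by omega)
    · obtain ⟨rfl, rfl, h⟩ := h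
      exact mt (WrapC.v0 H.c2 (by omega) (by omega) (by omega) (by omega) (by omega) (by omega) (by omega)).mp (by omega)
    · obtain ⟨rfl, rfl, h⟩ := h
      exact mt (WrapC.v2 H.c2a (by omega) (by omega) (by omega) (by omega) (by omega) (by omega) (by omega)).mp (by omega)
    · obtain ⟨rfl, rfl, h⟩ := h
      exact NHT.pIn hf H.T (t := 2) (j := 1) (by omega) (by omega) (by omega) (by omega) (by omega) (by omega) (by omega)
    · obtain ⟨rfl, rfl, h⟩ := h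
      exact NHT.pIn hf H.T (t := 3) (j := 0) (by omega) (by omega) (by omega) (by omega) (by omega) (by omega) (by omega)
    · obtain ⟨rfl, rfl, h⟩ := h
      exact NHT.pmi hf H.T (j := 1) (by omega) (by omega) (by omega) (by omega) (by omega) (by omega)
    · obtain ⟨rfl, rfl, h⟩ := h
      exact NHT.rIn hf H.T (t := 2) (p := 0) (j := 1) (by omega) (by omega) (by omega) (by omega) (by omega) (by omega) (by omega) (by omega)
    · obtain ⟨rfl, rfl, h⟩ := h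
      exact NHT.rIn hf H.T (t := 3) (p := 0) (j := 1) (by omega) (by omega) (by omega) (by omega) (by omega) (by omega) (by omega) (by omega)
    · obtain ⟨rfl, rfl, h⟩ := h
      exact NHT.rIn hf H.T (t := 3) (p := 1) (j := 1) (by omega) (by omega) (by omega) (by omega) (by omega) (by omega) (by omega) (by omega)
    · obtain ⟨rfl, rfl, h⟩ := h
      exact NHT.rIn hf H.T (t := 2) (p := 1) (j := 0) (by omega) (by omega) (by omega) (by omega) (by omega) (by omega) (by omega) (by omega)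
    · obtain ⟨rfl, rfl, h⟩ := h
      exact NHU.pmi hf H.U (j := 1) (by omega) (by omega) (by omega) (by omega) (by omega) (by omega)
    · obtain ⟨rfl, rfl, h⟩ := h
      exact NHU.pmi hf H.U (j := 1) (by omega) (by omega) (by omega) (by omega) (by omega) (by omega)

theorem x0_w1b_chk : check 7 7 11 17 0 1 0 1 0
    (fun j n p q => decide ((j = 2 ∧ n = 1 ∧ 3 ≤ q ∧ q ≤ p + 6 ∧ p + 0 ≤ q ∧ (((p + q + 1) % 2 = 1 ∧ p + 0 ≤ q ∧ p % 2 = 0) ∨ ((p + q + 1) % 2 = 1 ∧ q ≤ p + 0 ∧ (p + q + 0) % 4 = 0)))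
      ∨ (j = 2 ∧ n = 3 ∧ 7 ≤ p ∧ q ≤ p + 6 ∧ (((p + q + 1) % 2 = 1 ∧ p + 0 ≤ q ∧ p % 2 = 1) ∨ ((p + q + 1) % 2 = 1 ∧ q ≤ p + 0 ∧ (p + q + 2) % 4 = 0)))
      ∨ (j = 4 ∧ n = 1 ∧ 3 ≤ p ∧ q ≤ p + 6 ∧ (((p + q + 1) % 2 = 1 ∧ p + 0 ≤ q ∧ p % 2 = 1) ∨ ((p + q + 1) % 2 = 1 ∧ q ≤ p + 0 ∧ (p + q + 2) % 4 = 0)))
      ∨ (j = 3 ∧ n = 5 ∧ p = 8 ∧ q = 9)))
    (fun j n p q => decide ((j = 2 ∧ n = 2 ∧ 5 ≤ q ∧ q ≤ p + 6 ∧ p + 0 ≤ q ∧ ¬ ((p + q + 1) % 2 = 0 ∧ q + 1 ≤ p ∧ (p + q + 1) % 4 = 0))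
      ∨ (j = 4 ∧ n = 2 ∧ 4 ≤ p ∧ q ≤ p + 6 ∧ p ≤ q + 1 ∧ ¬ ((p + q + 1) % 2 = 0 ∧ q + 1 ≤ p ∧ (p + q + 3) % 4 = 0))
      ∨ (j = 1 ∧ n = 4 ∧ q ≤ p + 6 ∧ p + 0 ≤ q)
      ∨ (j = 1 ∧ n = 3 ∧ q ≤ p + 6 ∧ p + 0 ≤ q)
      ∨ (j = 1 ∧ n = 2 ∧ q ≤ p + 6 ∧ p + 0 ≤ q)
      ∨ (j = 1 ∧ n = 5 ∧ q ≤ p + 6 ∧ p + 0 ≤ q)
      ∨ (j = 3 ∧ n = 3 ∧ 4 ≤ p ∧ q ≤ p + 6 ∧ p + 4 ≤ q)
      ∨ (j = 5 ∧ n = 3 ∧ 4 ≤ p ∧ q ≤ p + 6 ∧ p + 3 ≤ q)
      ∨ (j = 7 ∧ n = 3 ∧ 4 ≤ p ∧ q ≤ p + 6 ∧ p + 2 ≤ q)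
      ∨ (j = 3 ∧ n = 2 ∧ q ≤ p + 6 ∧ p + 4 ≤ q)
      ∨ (j = 5 ∧ n = 2 ∧ q ≤ p + 6 ∧ p + 3 ≤ q)
      ∨ (j = 6 ∧ n = 2 ∧ q ≤ p + 6 ∧ p + 2 ≤ q)
      ∨ (j = 7 ∧ n = 2 ∧ q ≤ p + 6 ∧ p + 2 ≤ q)
      ∨ (j = 2 ∧ n = 5 ∧ p = 4 ∧ q = 8)))
    196
    0x66c8306ca000730ba10b08510a7801347d2133ed20e21000e218a08fb8008fb81066380066c9a06ca8006ca8406ca050663800730ba066c9a066480066484066c8308f28008f284109e851095801335d2132cd20e0f000e0f8a08e98008e98106498006518006529a065a9a06b880071f3a072780072784065b8306b90006b9040ad7800ac58009c78006758006748005b18005a080059f80058e80134787134707133f07133e87133e07133607133587133507132d07132c87132c0713240713238712ea0712e98712e18712e10712e08712d88712d80712d78712cf8712cf0712ce8712c68712c60710b90710a707109507105b87105b07105307105287105207104a071049871049071041071040871040071038071037870e21870e19070e18870e0f870e07070e06870dc4070dbb870dbb070db2070da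9870da9070b8a070b78070b35870b35070b2d070b2c870b23870b23070b1b070b1a870ad78f0ac58f09c78f08f30708958708838707280707168707160706758f06748f066d07066c07065b07065a07064a07060f87060f07060e8706070706068706060705fe0705fd8705fd0705fc8705f58705f50705f48705f40705ec8705ec0705b18f05a08f059f8f058e8f04a20704a187049987049907049087049007048807048787044487044407043c07043b87043307043287042a87042a0703de0703dd8703d58703d50703cd0703cc8703cc0703cb8703c48703c40703c38703c30703bb8703bb07038087038007037807037787036f87036f07036e87036e07036707036687036607036587035e07035d87 = true := by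
  decide +kernel

/-- `E` => the line `y = 2 n - 2 k + 1` of `6 k` in the row `c` is present. -/
theorem x0_w1b (hf : Rule f) {k c n : ℕ} (H : PL f k c n (n - 4))
    (D0 : Cyc f (6 * k) (c - 2) (2 * n - 2)) (D0a : Cyc f (6 * k) (c - 6) (2 * n - 6 - 2 * k))
    (C4a : Cyc f (6 * k + 4) (c - 6) (2 * (n - (k + 1)) + 2))
    (e : f (6 * k + 1) c (2 * n) (2 * n + 2 - 2 * k)) : f (6 * k) c (2 * n - 4) (2 * n + 1 - 2 * k) := by
  by_contra g0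
  have hk := H.T.hk
  have hc := H.T.hc
  have h4' := H.T.h4
  have hb := H.T.hb
  have hN := H.T.hN2
  obtain ⟨a0, ha0⟩ : ∃ z, z + 2 = 6 * k := ⟨6 * k - (2), by omega⟩
  obtain ⟨b0, hb0⟩ : ∃ z, z + 5 = c := ⟨c - (5), by omega⟩
  obtain ⟨x0, hx0⟩ : ∃ z, z + 8 = 2 * n := ⟨2 * n - (8), by omega⟩
  obtain ⟨y0, hy0⟩ : ∃ z, z + 2 * k + 7 = 2 * n := ⟨2 * n - (2 * k + 7), by omega⟩
  refine check_sound hf (a0 := a0) (b0 := b0) (x0 := x0) (y0 := y0) x0_w1b_chk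
    ⟨fun h => absurd h (by decide), fun h => absurd h (by decide), fun h => absurd h (by decide), by omega, by omega,
      by omega, by omega⟩ ?_ ?_
  · intro j m p q hr h
    obtain ⟨-, -, -, -, hp1, hp2, hq1, hq2⟩ := hr
    replace h := of_decide_eq_true h
    rcases h with h | h | h | h
    · obtain ⟨rfl, rfl, h⟩ := h
      exact (WrapC.v2 D0a (by omega) (by omega) (by omega) (by omega) (by omega) (by omega) (by omega)).mpr (by omega)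
    · obtain ⟨rfl, rfl, h⟩ := h
      exact (WrapC.v4 D0a (by omega) (by omega) (by omega) (by omega) (by omega) (by omega) (by omega)).mpr (by omega)
    · obtain ⟨rfl, rfl, h⟩ := h
      exact (WrapC.v0 H.c2 (by omega) (by omega) (by omega) (by omega) (by omega) (by omega) (by omega)).mpr (by omega)
    · obtain ⟨rfl, rfl, rfl, rfl⟩ := h
      exact mv e (by omega) (by omega) (by omega) (by omega)
  · intro j m p q hr h
    obtain ⟨-, -, -, -, hp1, hp2, hq1, hq2⟩ := hr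
    replace h := of_decide_eq_true h
    rcases h with h | h | h | h | h | h | h | h | h | h | h | h | h | h
    · obtain ⟨rfl, rfl, h⟩ := h
      exact mt (WrapC.v3 D0a (by omega) (by omega) (by omega) (by omega) (by omega) (by omega) (by omega) (by omega)).mp (by omega)
    · obtain ⟨rfl, rfl, h⟩ := h
      exact mt (WrapC.v1 H.c2 (by omega) (by omega) (by omega) (by omega) (by omega) (by omega) (by omega) (by omega)).mp (by omega)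
    · obtain ⟨rfl, rfl, h⟩ := h
      exact H.lw _ _ _ _ (by omega) (by omega) (by omega) (by omega) (by omega) (by omega)
    · obtain ⟨rfl, rfl, h⟩ := h
      exact H.lw _ _ _ _ (by omega) (by omega) (by omega) (by omega) (by omega) (by omega)
    · obtain ⟨rfl, rfl, h⟩ := h
      exact H.lw _ _ _ _ (by omega) (by omega) (by omega) (by omega) (by omega) (by omega)
    · obtain ⟨rfl, rfl, h⟩ := h
      exact H.lw _ _ _ _ (by omega) (by omega) (by omega) (by omega) (by omega) (by omega)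
    · obtain ⟨rfl, rfl, h⟩ := h
      exact NHT.pmi hf H.T (j := 3) (by omega) (by omega) (by omega) (by omega) (by omega) (by omega)
    · obtain ⟨rfl, rfl, h⟩ := h
      exact NHT.pmi hf H.T (j := 2) (by omega) (by omega) (by omega) (by omega) (by omega) (by omega)
    · obtain ⟨rfl, rfl, h⟩ := h
      exact NHT.pmi hf H.T (j := 1) (by omega) (by omega) (by omega) (by omega) (by omega) (by omega)
    · obtain ⟨rfl, rfl, h⟩ := h
      exact NHT.rIn hf H.T (t := 3) (p := 1) (j := 3) (by omega) (by omega) (by omega) (by omega) (by omega) (by omega) (by omega) (by omega)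
    · obtain ⟨rfl, rfl, h⟩ := h
      exact NHT.rIn hf H.T (t := 3) (p := 1) (j := 2) (by omega) (by omega) (by omega) (by omega) (by omega) (by omega) (by omega) (by omega)
    · obtain ⟨rfl, rfl, h⟩ := h
      exact NHT.rIn hf H.T (t := 3) (p := 0) (j := 1) (by omega) (by omega) (by omega) (by omega) (by omega) (by omega) (by omega) (by omega)
    · obtain ⟨rfl, rfl, h⟩ := h
      exact NHT.rIn hf H.T (t := 3) (p := 1) (j := 1) (by omega) (by omega) (by omega) (by omega) (by omega) (by omega) (by omega) (by omega)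
    · obtain ⟨rfl, rfl, rfl, rfl⟩ := h
      exact fun t => g0 (mv t (by omega) (by omega) (by omega) (by omega))

theorem x0_w1c_chk : check 3 9 15 26 0 1 0 0 0
    (fun j n p q => decide ((j = 2 ∧ n = 1 ∧ q ≤ p + 11 ∧ (((p + q + 0) % 2 = 1 ∧ p + 5 ≤ q ∧ p % 2 = 1) ∨ ((p + q + 0) % 2 = 1 ∧ q ≤ p + 5 ∧ (p + q + 1) % 4 = 0)))
      ∨ (j = 2 ∧ n = 2 ∧ q ≤ p + 11 ∧ p + 4 ≤ q ∧ ((p + q + 0) % 2 = 0 ∧ q ≤ p + 4 ∧ (p + q + 2) % 4 = 0))
      ∨ (j = 2 ∧ n = 3 ∧ q ≤ p + 4 ∧ (((p + q + 0) % 2 = 1 ∧ p + 5 ≤ q ∧ p % 2 = 0) ∨ ((p + q + 0) % 2 = 1 ∧ q ≤ p + 5 ∧ (p + q + 3) % 4 = 0)))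
      ∨ (j = 2 ∧ n = 4 ∧ 9 ≤ p ∧ q ≤ p + 11 ∧ ((p + q + 0) % 2 = 0 ∧ q ≤ p + 4 ∧ (p + q + 0) % 4 = 0))
      ∨ (j = 2 ∧ n = 5 ∧ 11 ≤ p ∧ q ≤ p + 11 ∧ (((p + q + 0) % 2 = 1 ∧ p + 5 ≤ q ∧ p % 2 = 1) ∨ ((p + q + 0) % 2 = 1 ∧ q ≤ p + 5 ∧ (p + q + 1) % 4 = 0)))
      ∨ (j = 3 ∧ n = 7 ∧ p = 12 ∧ q = 18)
      ∨ (j = 2 ∧ n = 3 ∧ p = 2 ∧ q = 11)))
    (fun j n p q => decide ((j = 2 ∧ n = 6 ∧ 12 ≤ p ∧ q ≤ p + 11 ∧ p + 4 ≤ q ∧ ¬ ((p + q + 0) % 2 = 0 ∧ q ≤ p + 4 ∧ (p + q + 2) % 4 = 0))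
      ∨ (j = 2 ∧ n = 2 ∧ q ≤ p + 11 ∧ p + 4 ≤ q ∧ ¬ ((p + q + 0) % 2 = 0 ∧ q ≤ p + 4 ∧ (p + q + 2) % 4 = 0))
      ∨ (j = 2 ∧ n = 3 ∧ ((7 ≤ p ∧ q ≤ p + 11) ∨ (12 ≤ q ∧ q ≤ p + 11 ∧ p + 5 ≤ q)) ∧ ¬ (((p + q + 0) % 2 = 1 ∧ p + 5 ≤ q ∧ p % 2 = 0) ∨ ((p + q + 0) % 2 = 1 ∧ q ≤ p + 5 ∧ (p + q + 3) % 4 = 0)))
      ∨ (j = 2 ∧ n = 4 ∧ 9 ≤ p ∧ q ≤ p + 11 ∧ ¬ ((p + q + 0) % 2 = 0 ∧ q ≤ p + 4 ∧ (p + q + 0) % 4 = 0))
      ∨ (j = 2 ∧ n = 5 ∧ 11 ≤ p ∧ q ≤ p + 11 ∧ ¬ (((p + q + 0) % 2 = 1 ∧ p + 5 ≤ q ∧ p % 2 = 1) ∨ ((p + q + 0) % 2 = 1 ∧ q ≤ p + 5 ∧ (p + q + 1) % 4 = 0)))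
      ∨ (j = 1 ∧ n = 6 ∧ q ≤ p + 11 ∧ p + 0 ≤ q)
      ∨ (j = 1 ∧ n = 5 ∧ q ≤ p + 11 ∧ p + 0 ≤ q)
      ∨ (j = 1 ∧ n = 4 ∧ q ≤ p + 11 ∧ p + 0 ≤ q)
      ∨ (j = 1 ∧ n = 3 ∧ q ≤ p + 11 ∧ p + 0 ≤ q)
      ∨ (j = 1 ∧ n = 2 ∧ q ≤ p + 11 ∧ p + 0 ≤ q)
      ∨ (j = 1 ∧ n = 7 ∧ q ≤ p + 11 ∧ p + 0 ≤ q)
      ∨ (j = 3 ∧ n = 3 ∧ 4 ≤ p ∧ q ≤ p + 11 ∧ p + 8 ≤ q)
      ∨ (j = 3 ∧ n = 2 ∧ q ≤ p + 11 ∧ p + 8 ≤ q)))
    111
    0x12de83120d80120d8111300011300110528010528110388017144a10388317138017138413a20013af9a1a8b00121c00114b00113c80105f00101e800f81800ea5001a8b0f17140716510716440716438713af0712ec8712ec07121c0f121b87121b07120e07120d07114b0f114a87114a07113d87113d07113c8f106d07106c87106007105f87105f0f105207103907103807102c07101e8f0f8f870f8f070f82870f82070f818f0f76070f75870f75070f69070f68870f68070ea50f0cd4870cd4070cc7870cc7070c11870c11070c04870c04070c03870c03070bf6870bf6070b40870b40070b33870b33070b32870b32070b25870b25070a6f870a6f070a62870a62070a55070a54870a48070a4787099207099187098507098487097787097707096a87096a07095d87095d0709508709500708b48708b40708a78708a707089a87089a07088d87088d07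 = true := by
  decide +kernel

/-- `E` => the line `y = 2 n - 2 k - 5` of `6 k` in the row `c - 4` is missing. -/
theorem x0_w1c (hf : Rule f) {k c n : ℕ} (H : PL f k c n (n - 4))
    (D0 : Cyc f (6 * k) (c - 2) (2 * n - 2)) (D0a : Cyc f (6 * k) (c - 6) (2 * n - 6 - 2 * k))
    (C4a : Cyc f (6 * k + 4) (c - 6) (2 * (n - (k + 1)) + 2))
    (e : f (6 * k + 1) c (2 * n) (2 * n + 2 - 2 * k)) : ¬ f (6 * k) (c - 4) (2 * n - 10) (2 * n - 5 - 2 * k) := by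
  intro g0
  have hk := H.T.hk
  have hc := H.T.hc
  have h4' := H.T.h4
  have hb := H.T.hb
  have hN := H.T.hN2
  obtain ⟨a0, ha0⟩ : ∃ z, z + 2 = 6 * k := ⟨6 * k - (2), by omega⟩
  obtain ⟨b0, hb0⟩ : ∃ z, z + 7 = c := ⟨c - (7), by omega⟩
  obtain ⟨x0, hx0⟩ : ∃ z, z + 12 = 2 * n := ⟨2 * n - (12), by omega⟩
  obtain ⟨y0, hy0⟩ : ∃ z, z + 2 * k + 16 = 2 * n := ⟨2 * n - (2 * k + 16), by omega⟩
  refine check_sound hf (a0 := a0) (b0 := b0) (x0 := x0) (y0 := y0) x0_w1c_chk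
    ⟨fun h => absurd h (by decide), fun h => absurd h (by decide), fun h => absurd h (by decide), by omega, by omega,
      by omega, by omega⟩ ?_ ?_
  · intro j m p q hr h
    obtain ⟨-, -, -, -, hp1, hp2, hq1, hq2⟩ := hr
    replace h := of_decide_eq_true h
    rcases h with h | h | h | h | h | h | h
    · obtain ⟨rfl, rfl, h⟩ := h
      exact (WrapC.v0 D0a (by omega) (by omega) (by omega) (by omega) (by omega) (by omega) (by omega)).mpr (by omega)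
    · obtain ⟨rfl, rfl, h⟩ := h
      exact (WrapC.v1 D0a (by omega) (by omega) (by omega) (by omega) (by omega) (by omega) (by omega) (by omega)).mpr (by omega)
    · obtain ⟨rfl, rfl, h⟩ := h
      exact (WrapC.v2 D0a (by omega) (by omega) (by omega) (by omega) (by omega) (by omega) (by omega)).mpr (by omega)
    · obtain ⟨rfl, rfl, h⟩ := h
      exact (WrapC.v3 D0a (by omega) (by omega) (by omega) (by omega) (by omega) (by omega) (by omega) (by omega)).mpr (by omega)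
    · obtain ⟨rfl, rfl, h⟩ := h
      exact (WrapC.v4 D0a (by omega) (by omega) (by omega) (by omega) (by omega) (by omega) (by omega)).mpr (by omega)
    · obtain ⟨rfl, rfl, rfl, rfl⟩ := h
      exact mv e (by omega) (by omega) (by omega) (by omega)
    · obtain ⟨rfl, rfl, rfl, rfl⟩ := h
      exact mv g0 (by omega) (by omega) (by omega) (by omega)
  · intro j m p q hr h
    obtain ⟨-, -, -, -, hp1, hp2, hq1, hq2⟩ := hr
    replace h := of_decide_eq_true h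
    rcases h with h | h | h | h | h | h | h | h | h | h | h | h | h
    · obtain ⟨rfl, rfl, h⟩ := h
      exact mt (WrapC.v1 D0 (by omega) (by omega) (by omega) (by omega) (by omega) (by omega) (by omega) (by omega)).mp (by omega)
    · obtain ⟨rfl, rfl, h⟩ := h
      exact mt (WrapC.v1 D0a (by omega) (by omega) (by omega) (by omega) (by omega) (by omega) (by omega) (by omega)).mp (by omega)
    · obtain ⟨rfl, rfl, h⟩ := h
      exact mt (WrapC.v2 D0a (by omega) (by omega) (by omega) (by omega) (by omega) (by omega) (by omega)).mp (by omega)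
    · obtain ⟨rfl, rfl, h⟩ := h
      exact mt (WrapC.v3 D0a (by omega) (by omega) (by omega) (by omega) (by omega) (by omega) (by omega) (by omega)).mp (by omega)
    · obtain ⟨rfl, rfl, h⟩ := h
      exact mt (WrapC.v4 D0a (by omega) (by omega) (by omega) (by omega) (by omega) (by omega) (by omega)).mp (by omega)
    · obtain ⟨rfl, rfl, h⟩ := h
      exact H.lw _ _ _ _ (by omega) (by omega) (by omega) (by omega) (by omega) (by omega)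
    · obtain ⟨rfl, rfl, h⟩ := h
      exact H.lw _ _ _ _ (by omega) (by omega) (by omega) (by omega) (by omega) (by omega)
    · obtain ⟨rfl, rfl, h⟩ := h
      exact H.lw _ _ _ _ (by omega) (by omega) (by omega) (by omega) (by omega) (by omega)
    · obtain ⟨rfl, rfl, h⟩ := h
      exact H.lw _ _ _ _ (by omega) (by omega) (by omega) (by omega) (by omega) (by omega)
    · obtain ⟨rfl, rfl, h⟩ := h
      exact H.lw _ _ _ _ (by omega) (by omega) (by omega) (by omega) (by omega) (by omega)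
    · obtain ⟨rfl, rfl, h⟩ := h
      exact H.lw _ _ _ _ (by omega) (by omega) (by omega) (by omega) (by omega) (by omega)
    · obtain ⟨rfl, rfl, h⟩ := h
      exact NHT.pIn hf H.T (t := 3) (j := 2) (by omega) (by omega) (by omega) (by omega) (by omega) (by omega) (by omega)
    · obtain ⟨rfl, rfl, h⟩ := h
      exact NHT.rIn hf H.T (t := 2) (p := 1) (j := 2) (by omega) (by omega) (by omega) (by omega) (by omega) (by omega) (by omega) (by omega)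

end Pool.Agent.SNT.L0Y
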