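import Pool.Agent.SNT.PL
import Pool.Agent.SNT.LineR0

set_option autoImplicit false
set_option synthInstance.maxSize 100000
set_option synthInstance.maxHeartbeats 4000000

/-! The E-cell of the road L0 (`X = 2 n`), wall window W2c (helper38, helper82). -/

namespace Pool.Agent.SNT.L0Y

open Pool.Agent.SNT Pool.Agent.SNT.Sig Pool.Agent.SNT.Loc Pool.Agent.SNT.LW Pool.Agent.SNT.NHZ Pool.Agent.SNT.DRun
open Pool.Agent.SNT.PB Pool.Agent.SNT.D1E

variable {f : ℕ → ℕ → ℕ → ℕ → Prop}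

theorem x0_w2c_chk : check 11 7 14 25 0 1 1 1 0
    (fun j n p q => decide ((j = 6 ∧ n = 1 ∧ 13 ≤ q ∧ q ≤ p + 11 ∧ p + 5 ≤ q ∧ (((p + q + 0) % 2 = 1 ∧ p + 5 ≤ q ∧ p % 2 = 1) ∨ ((p + q + 0) % 2 = 1 ∧ q ≤ p + 5 ∧ (p + q + 1) % 4 = 0)))
      ∨ (j = 6 ∧ n = 2 ∧ 10 ≤ p ∧ q ≤ p + 11 ∧ ((p + q + 0) % 2 = 0 ∧ q ≤ p + 4 ∧ (p + q + 2) % 4 = 0))
      ∨ (j = 2 ∧ n = 4 ∧ 7 ≤ p ∧ q ≤ p + 11 ∧ p + 4 ≤ q ∧ ((p + q + 0) % 2 = 0 ∧ q ≤ p + 4 ∧ (p + q + 0) % 4 = 0))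
      ∨ (j = 2 ∧ n = 1 ∧ 2 ≤ p ∧ q ≤ p + 11 ∧ (((p + q + 0) % 2 = 1 ∧ p + 5 ≤ q ∧ p % 2 = 1) ∨ ((p + q + 0) % 2 = 1 ∧ q ≤ p + 5 ∧ (p + q + 1) % 4 = 0)))
      ∨ (j = 2 ∧ n = 2 ∧ 4 ≤ p ∧ q ≤ p + 11 ∧ ((p + q + 0) % 2 = 0 ∧ q ≤ p + 4 ∧ (p + q + 2) % 4 = 0))
      ∨ (j = 2 ∧ n = 3 ∧ 6 ≤ p ∧ q ≤ p + 11 ∧ (((p + q + 0) % 2 = 1 ∧ p + 5 ≤ q ∧ p % 2 = 0) ∨ ((p + q + 0) % 2 = 1 ∧ q ≤ p + 5 ∧ (p + q + 3) % 4 = 0)))
      ∨ (j = 4 ∧ n = 1 ∧ 2 ≤ p ∧ q ≤ p + 11 ∧ (((p + q + 0) % 2 = 1 ∧ p + 5 ≤ q ∧ p % 2 = 0) ∨ ((p + q + 0) % 2 = 1 ∧ q ≤ p + 5 ∧ (p + q + 3) % 4 = 0)))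
      ∨ (j = 4 ∧ n = 2 ∧ 3 ≤ p ∧ q ≤ p + 11 ∧ p + 4 ≤ q ∧ ((p + q + 0) % 2 = 0 ∧ q ≤ p + 4 ∧ (p + q + 0) % 4 = 0))
      ∨ (j = 4 ∧ n = 3 ∧ 6 ≤ p ∧ q ≤ p + 4 ∧ (((p + q + 0) % 2 = 1 ∧ p + 5 ≤ q ∧ p % 2 = 1) ∨ ((p + q + 0) % 2 = 1 ∧ q ≤ p + 5 ∧ (p + q + 1) % 4 = 0)))
      ∨ (j = 10 ∧ n = 3 ∧ 6 ≤ p ∧ q ≤ p + 11 ∧ (((p + q + 0) % 2 = 1 ∧ p + 3 ≤ q ∧ p % 2 = 0) ∨ ((p + q + 0) % 2 = 1 ∧ q ≤ p + 3 ∧ (p + q + 3) % 4 = 2)))
      ∨ (j = 10 ∧ n = 4 ∧ 8 ≤ p ∧ q ≤ p + 11 ∧ ((p + q + 0) % 2 = 0 ∧ q ≤ p + 2 ∧ (p + q + 0) % 4 = 2))))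
    (fun j n p q => decide ((j = 6 ∧ n = 2 ∧ ((10 ≤ p ∧ q ≤ p + 11) ∨ (15 ≤ q ∧ q ≤ p + 11 ∧ p + 5 ≤ q)) ∧ ¬ ((p + q + 0) % 2 = 0 ∧ q ≤ p + 4 ∧ (p + q + 2) % 4 = 0))
      ∨ (j = 2 ∧ n = 4 ∧ 7 ≤ p ∧ q ≤ p + 11 ∧ p + 4 ≤ q ∧ ¬ ((p + q + 0) % 2 = 0 ∧ q ≤ p + 4 ∧ (p + q + 0) % 4 = 0))
      ∨ (j = 2 ∧ n = 1 ∧ 2 ≤ p ∧ q ≤ p + 11 ∧ ¬ (((p + q + 0) % 2 = 1 ∧ p + 5 ≤ q ∧ p % 2 = 1) ∨ ((p + q + 0) % 2 = 1 ∧ q ≤ p + 5 ∧ (p + q + 1) % 4 = 0)))
      ∨ (j = 2 ∧ n = 2 ∧ ((4 ≤ p ∧ q ≤ p + 11) ∨ (9 ≤ q ∧ q ≤ p + 11 ∧ p + 5 ≤ q)) ∧ ¬ ((p + q + 0) % 2 = 0 ∧ q ≤ p + 4 ∧ (p + q + 2) % 4 = 0))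
      ∨ (j = 2 ∧ n = 3 ∧ 6 ≤ p ∧ q ≤ p + 11 ∧ ¬ (((p + q + 0) % 2 = 1 ∧ p + 5 ≤ q ∧ p % 2 = 0) ∨ ((p + q + 0) % 2 = 1 ∧ q ≤ p + 5 ∧ (p + q + 3) % 4 = 0)))
      ∨ (j = 4 ∧ n = 2 ∧ 3 ≤ p ∧ q ≤ p + 11 ∧ p + 4 ≤ q ∧ ¬ ((p + q + 0) % 2 = 0 ∧ q ≤ p + 4 ∧ (p + q + 0) % 4 = 0))
      ∨ (j = 4 ∧ n = 3 ∧ 6 ≤ p ∧ q ≤ p + 4 ∧ ¬ (((p + q + 0) % 2 = 1 ∧ p + 5 ≤ q ∧ p % 2 = 1) ∨ ((p + q + 0) % 2 = 1 ∧ q ≤ p + 5 ∧ (p + q + 1) % 4 = 0)))
      ∨ (j = 10 ∧ n = 4 ∧ 8 ≤ p ∧ q ≤ p + 11 ∧ ¬ ((p + q + 0) % 2 = 0 ∧ q ≤ p + 2 ∧ (p + q + 0) % 4 = 2))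
      ∨ (j = 1 ∧ n = 4 ∧ q ≤ p + 11 ∧ p + 0 ≤ q)
      ∨ (j = 1 ∧ n = 3 ∧ q ≤ p + 11 ∧ p + 0 ≤ q)
      ∨ (j = 1 ∧ n = 2 ∧ q ≤ p + 11 ∧ p + 0 ≤ q)
      ∨ (j = 1 ∧ n = 1 ∧ q ≤ p + 11 ∧ p + 0 ≤ q)
      ∨ (j = 1 ∧ n = 5 ∧ q ≤ p + 11 ∧ p + 0 ≤ q)
      ∨ (j = 7 ∧ n = 5 ∧ 9 ≤ p ∧ q ≤ p + 11 ∧ p + 8 ≤ q)
      ∨ (j = 9 ∧ n = 5 ∧ 9 ≤ p ∧ q ≤ p + 11 ∧ p + 7 ≤ q)
      ∨ (j = 11 ∧ n = 5 ∧ 9 ≤ p ∧ q ≤ p + 11 ∧ p + 6 ≤ q)
      ∨ (j = 3 ∧ n = 3 ∧ 3 ≤ p ∧ q ≤ p + 11 ∧ p + 9 ≤ q)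
      ∨ (j = 5 ∧ n = 3 ∧ 3 ≤ p ∧ q ≤ p + 11 ∧ p + 8 ≤ q)
      ∨ (j = 3 ∧ n = 2 ∧ q ≤ p + 11 ∧ p + 9 ≤ q)
      ∨ (j = 5 ∧ n = 2 ∧ q ≤ p + 11 ∧ p + 8 ≤ q)
      ∨ (j = 2 ∧ n = 4 ∧ 4 ≤ p ∧ q ≤ p + 11 ∧ p + 10 ≤ q)
      ∨ (j = 3 ∧ n = 4 ∧ 4 ≤ p ∧ q ≤ p + 11 ∧ p + 10 ≤ q)
      ∨ (j = 4 ∧ n = 4 ∧ 4 ≤ p ∧ q ≤ p + 11 ∧ p + 9 ≤ q)
      ∨ (j = 5 ∧ n = 4 ∧ 4 ≤ p ∧ q ≤ p + 11 ∧ p + 9 ≤ q)
      ∨ (j = 6 ∧ n = 4 ∧ 4 ≤ p ∧ q ≤ p + 11 ∧ p + 8 ≤ q)
      ∨ (j = 7 ∧ n = 4 ∧ 4 ≤ p ∧ q ≤ p + 11 ∧ p + 8 ≤ q)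
      ∨ (j = 9 ∧ n = 5 ∧ 11 ≤ p ∧ q ≤ p + 11 ∧ p + 5 ≤ q)
      ∨ (j = 11 ∧ n = 5 ∧ 11 ≤ p ∧ q ≤ p + 11 ∧ p + 4 ≤ q)
      ∨ (j = 7 ∧ n = 3 ∧ 5 ≤ p ∧ q ≤ p + 11 ∧ p + 5 ≤ q)
      ∨ (j = 7 ∧ n = 2 ∧ 5 ≤ p ∧ q ≤ p + 11 ∧ p + 5 ≤ q)
      ∨ (j = 8 ∧ n = 4 ∧ 6 ≤ p ∧ q ≤ p + 11 ∧ p + 5 ≤ q)
      ∨ (j = 9 ∧ n = 4 ∧ 6 ≤ p ∧ q ≤ p + 11 ∧ p + 5 ≤ q)
      ∨ (j = 11 ∧ n = 4 ∧ 6 ≤ p ∧ q ≤ p + 11 ∧ p + 4 ≤ q)
      ∨ (j = 2 ∧ n = 3 ∧ p = 4 ∧ q = 13)
      ∨ (j = 2 ∧ n = 5 ∧ p = 6 ∧ q = 15)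
      ∨ (j = 4 ∧ n = 5 ∧ p = 8 ∧ q = 17)))
    680
    0x1224030d4d801223520c9d800c9d810bd5000bd58a0bd60010ac5a163080163d1216f90016f98a16fa0016fa8a16fb0016fb8a1224030d4d801223520c9d800c9d810bd5000bd58a0bd60010ac5a163080163d1216f90016f98a16fa0016fa8a1707801bd14a16ee8016ee841bd00316ed8016ed842a38852a2b802f0e522f0152256e80256f0a1bd0001bd0041bd10316fa8016fa811224001224040d5b8312250012250416fb83163f00163f04256f831bd0801bd08416fb831bc4801bc4842f0103256200256204389f832f00802f008438a0032f01002f01040d4f830c93000d4eb21217001217040d4e8312178012178415a9831659001659040d69031232001232043893032ef4002ef4040bd683109f80109f8416fb831225001225010d4e800d4e840d59831222801222840bd5830c91000c910415a9831b21801b21841657031657801657840d4f83121800121804159c03164b80164b841657031b20801b20840c9e0311670011670415a8831b21001b21041657031bcf801bcf840d690312320016fbca1bc4001bc4040d5a831223801223840d690312328012328424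110324c00024c004159c03159c80159c840d6803123180123184159c03164b00164b042570031bd1001bd104159c031b14801b14840d5c831225801225840c9e03121600121604158f83163e80163e840d5b8312248012248438a0032f01002f018a25628025628415a8831a71801f47da24bf8024bf841f47831ff6801ff684158e83163d80163d8424048324b38024b3842404831fea801fea842404031fea001fea0424040324b30024b304159d031b15001b1504158e83163e00163e040c9e030d4d000d4d042570031b22001b22043892033892803892840bd683109f00109f042411031ff7001ff70438a0032f01002f0e1a256f00256f040d68030d68800d688415a8831a72001a72040d4f831218801218843884833885003885041657031706801706841582031a4b801a4c0a10ad0010ad010bd6800bd6840d680312310012310415a9831658801658840d4d83121680121684241e031ff7801ff7840d5c83122600122604159c031b14001b1404241e031f3b801f3b842f0e83256f80256f840b19030bc8800bc884241e0324c08024c0840c9e03116700163d5a16ec8016ec84159d03164c00164c0415a8831658001658040bd8000be49233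190032ff00326a803250801ea5001ddc801dc380159a8015808015060014ec0014d200145780143e80143d801424800cb8000c15800c0b800c0a800c09800bfb800bf1800bf0800bef800bed800b67000b4d000b33000ab9800ab8800aa0800a9f800a9e800a86800a85800a84800a6c800a6b800a6a800a5c8038a007389f87389f0738938738930738868738860737f10737f08737f00737e48737e40737e38737e30737d78737d70737d68737d60737c90733d70733d60733bd0733bc0733bb07332807332787332707331b87331b07331a87331a0733198733190f330e87330e07330d87330d07330c87330c0733000732ff8732ff0f326a8f32508f2f0e872f0e072f0d872f02072f01872ef5072ef4872e5f872e5f072e5e872e53072e52872e52072e51872e46072e45872e45072a45072a2c072a2b07299687299607299587298a07298987298907298887297d07297c87297c0725700725638725630724c10724b48724b407241e07241d8724118724110724108724048724040724038723f80723f78723f707236f07236e87236287236207236187235587235507235487234907234887234807209a072099071ff8071feb871feb071f55071f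3b071ea6071ea5871ea50f1e99871e99071e98871e98071e8c871e8c071e80071e7f871ddc8f1dc38f1b15871a4c071a3f871a3f07199d0719908719900717080717070716fb8716ef0716ee0716ed07164c87164007163f8715a90715a80715a787159b07159a8f159007158f07158e07158d8715810715808f15760715750715060f14fa8714fa0714f98714f90714ee0714ed8714ed0714ec8714ec0f14e18714e10714e08714e00714df8714df0714d40714d38714d30714d28714d20f14c78714c70714c68714c60714578f143e8f143d8f14248f11770710c78710a0871018870ff1870d5c070d5b070d5a070d59070d4f870d43070d42070d41070cba070cb9870cb9070cb8870cb80f0cad870cad070cac870cac070cab870cab070ca1070c94070c158f0c0b8f0c0a8f0c098f0bfb8f0bf18f0bf08f0bef8f0bef070bee870bee070bed8f0be4070be3070be2070bd7870bca070bc9070b670f0b4d0f0b35870b35070b34870b34070b33870b330f0b29070b28870b28070b27870b27070b26870b26070b1b070b1a870b1a070ab98f0ab88f0aa08f0a9f8f0a9e8f0a868f0a858f0a848f0a6c8f0a6b8f0a6a8f0a6a070a69870a5d870a5d070a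5c8f08a007089f87089f07089e87089387089307089287089207089187089107089087089007088707088687088607088587088507088487088407088387087a0708798708790708788708780708778707f10707f08707f00707ef8707e48707e40707e38707e30707e28707e20707e18707e10707d80707d78707d70707d68707d60707d58707d50707d48707d40707cb0707ca8707ca0707c98707c90707c88707c80707c787072607072587072507071b87071b07071987071907071887070f07070e87070d87070d07070c87070c0707010707008707000706ff87066c87066c07066007065f87065e87065e07065d87065d07065207065187065107065087065007064f8706438706430705a10705a087059487059407 = true := by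
  decide +kernel

/-- In-line `2 n - 3` of `6 k` (row `c - 2`) missing, no beam `2 n - 1` of `6 k` (row `c`) => the in-line `2 n + 1` of `6 k + 2` (row `c`) is present. -/
theorem x0_w2c (hf : Rule f) {k c n : ℕ} (H : PL f k c n (n - 4))
    (D0 : Cyc f (6 * k) (c - 2) (2 * n - 2)) (D0a : Cyc f (6 * k) (c - 6) (2 * n - 6 - 2 * k))
    (C4a : Cyc f (6 * k + 4) (c - 6) (2 * (n - (k + 1)) + 2))
    (h0 : ¬ f (6 * k) (c - 2) (2 * n - 3) (2 * n + 2 - 2 * k)) (h1 : ¬ f (6 * k) c (2 * n - 1) (2 * n + 4 - 2 * k)) : f (6 * k + 2) c (2 * n + 1) (2 * n + 6 - 2 * k) := by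
  by_contra g0
  have hk := H.T.hk
  have hc := H.T.hc
  have h4' := H.T.h4
  have hb := H.T.hb
  have hN := H.T.hN2
  obtain ⟨a0, ha0⟩ : ∃ z, z + 2 = 6 * k := ⟨6 * k - (2), by omega⟩
  obtain ⟨b0, hb0⟩ : ∃ z, z + 5 = c := ⟨c - (5), by omega⟩
  obtain ⟨x0, hx0⟩ : ∃ z, z + 7 = 2 * n := ⟨2 * n - (7), by omega⟩
  obtain ⟨y0, hy0⟩ : ∃ z, z + 2 * k + 11 = 2 * n := ⟨2 * n - (2 * k + 11), by omega⟩
  refine check_sound hf (a0 := a0) (b0 := b0) (x0 := x0) (y0 := y0) x0_w2c_chk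
    ⟨fun h => absurd h (by decide), fun h => absurd h (by decide), fun h => absurd h (by decide), by omega, by omega,
      by omega, by omega⟩ ?_ ?_
  · intro j m p q hr h
    obtain ⟨-, -, -, -, hp1, hp2, hq1, hq2⟩ := hr
    replace h := of_decide_eq_true h
    rcases h with h | h | h | h | h | h | h | h | h | h | h
    · obtain ⟨rfl, rfl, h⟩ := h
      exact (WrapC.v2 C4a (by omega) (by omega) (by omega) (by omega) (by omega) (by omega) (by omega)).mpr (by omega)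
    · obtain ⟨rfl, rfl, h⟩ := h
      exact (WrapC.v3 C4a (by omega) (by omega) (by omega) (by omega) (by omega) (by omega) (by omega) (by omega)).mpr (by omega)
    · obtain ⟨rfl, rfl, h⟩ := h
      exact (WrapC.v1 D0 (by omega) (by omega) (by omega) (by omega) (by omega) (by omega) (by omega) (by omega)).mpr (by omega)
    · obtain ⟨rfl, rfl, h⟩ := h
      exact (WrapC.v2 D0a (by omega) (by omega) (by omega) (by omega) (by omega) (by omega) (by omega)).mpr (by omega)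
    · obtain ⟨rfl, rfl, h⟩ := h
      exact (WrapC.v3 D0a (by omega) (by omega) (by omega) (by omega) (by omega) (by omega) (by omega) (by omega)).mpr (by omega)
    · obtain ⟨rfl, rfl, h⟩ := h
      exact (WrapC.v4 D0a (by omega) (by omega) (by omega) (by omega) (by omega) (by omega) (by omega)).mpr (by omega)
    · obtain ⟨rfl, rfl, h⟩ := h
      exact (WrapC.v0 H.c2 (by omega) (by omega) (by omega) (by omega) (by omega) (by omega) (by omega)).mpr (by omega)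
    · obtain ⟨rfl, rfl, h⟩ := h
      exact (WrapC.v1 H.c2 (by omega) (by omega) (by omega) (by omega) (by omega) (by omega) (by omega) (by omega)).mpr (by omega)
    · obtain ⟨rfl, rfl, h⟩ := h
      exact (WrapC.v2 H.c2 (by omega) (by omega) (by omega) (by omega) (by omega) (by omega) (by omega)).mpr (by omega)
    · obtain ⟨rfl, rfl, h⟩ := h
      exact (NW.w0v H.c8 (by omega) (by omega) (by omega) (by omega) (by omega) (by omega) (by omega)).mpr (by omega)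
    · obtain ⟨rfl, rfl, h⟩ := h
      exact (NW.w1v H.c8 (by omega) (by omega) (by omega) (by omega) (by omega) (by omega) (by omega) (by omega)).mpr (by omega)
  · intro j m p q hr h
    obtain ⟨-, -, -, -, hp1, hp2, hq1, hq2⟩ := hr
    replace h := of_decide_eq_true h
    rcases h with h | h | h | h | h | h | h | h | h | h | h | h | h | h | h | h | h | h | h | h | h | h | h | h | h | h | h | h | h | h | h | h | h | h | h | h
    · obtain ⟨rfl, rfl, h⟩ := h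
      exact mt (WrapC.v3 C4a (by omega) (by omega) (by omega) (by omega) (by omega) (by omega) (by omega) (by omega)).mp (by omega)
    · obtain ⟨rfl, rfl, h⟩ := h
      exact mt (WrapC.v1 D0 (by omega) (by omega) (by omega) (by omega) (by omega) (by omega) (by omega) (by omega)).mp (by omega)
    · obtain ⟨rfl, rfl, h⟩ := h
      exact mt (WrapC.v2 D0a (by omega) (by omega) (by omega) (by omega) (by omega) (by omega) (by omega)).mp (by omega)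
    · obtain ⟨rfl, rfl, h⟩ := h
      exact mt (WrapC.v3 D0a (by omega) (by omega) (by omega) (by omega) (by omega) (by omega) (by omega) (by omega)).mp (by omega)
    · obtain ⟨rfl, rfl, h⟩ := h
      exact mt (WrapC.v4 D0a (by omega) (by omega) (by omega) (by omega) (by omega) (by omega) (by omega)).mp (by omega)
    · obtain ⟨rfl, rfl, h⟩ := h
      exact mt (WrapC.v1 H.c2 (by omega) (by omega) (by omega) (by omega) (by omega) (by omega) (by omega) (by omega)).mp (by omega)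
    · obtain ⟨rfl, rfl, h⟩ := h
      exact mt (WrapC.v2 H.c2 (by omega) (by omega) (by omega) (by omega) (by omega) (by omega) (by omega)).mp (by omega)
    · obtain ⟨rfl, rfl, h⟩ := h
      exact mt (NW.w1v H.c8 (by omega) (by omega) (by omega) (by omega) (by omega) (by omega) (by omega) (by omega)).mp (by omega)
    · obtain ⟨rfl, rfl, h⟩ := h
      exact H.lw _ _ _ _ (by omega) (by omega) (by omega) (by omega) (by omega) (by omega)
    · obtain ⟨rfl, rfl, h⟩ := h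
      exact H.lw _ _ _ _ (by omega) (by omega) (by omega) (by omega) (by omega) (by omega)
    · obtain ⟨rfl, rfl, h⟩ := h
      exact H.lw _ _ _ _ (by omega) (by omega) (by omega) (by omega) (by omega) (by omega)
    · obtain ⟨rfl, rfl, h⟩ := h
      exact H.lw _ _ _ _ (by omega) (by omega) (by omega) (by omega) (by omega) (by omega)
    · obtain ⟨rfl, rfl, h⟩ := h
      exact H.lw _ _ _ _ (by omega) (by omega) (by omega) (by omega) (by omega) (by omega)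
    · obtain ⟨rfl, rfl, h⟩ := h
      exact NHT.p0i hf H.T (j := 2) (by omega) (by omega) (by omega) (by omega) (by omega) (by omega)
    · obtain ⟨rfl, rfl, h⟩ := h
      exact NHT.p0i hf H.T (j := 1) (by omega) (by omega) (by omega) (by omega) (by omega) (by omega)
    · obtain ⟨rfl, rfl, h⟩ := h
      exact NHT.p0i hf H.T (j := 0) (by omega) (by omega) (by omega) (by omega) (by omega) (by omega)
    · obtain ⟨rfl, rfl, h⟩ := h
      exact NHT.pmi hf H.T (j := 3) (by omega) (by omega) (by omega) (by omega) (by omega) (by omega)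
    · obtain ⟨rfl, rfl, h⟩ := h
      exact NHT.pmi hf H.T (j := 2) (by omega) (by omega) (by omega) (by omega) (by omega) (by omega)
    · obtain ⟨rfl, rfl, h⟩ := h
      exact NHT.rIn hf H.T (t := 3) (p := 1) (j := 3) (by omega) (by omega) (by omega) (by omega) (by omega) (by omega) (by omega) (by omega)
    · obtain ⟨rfl, rfl, h⟩ := h
      exact NHT.rIn hf H.T (t := 3) (p := 1) (j := 2) (by omega) (by omega) (by omega) (by omega) (by omega) (by omega) (by omega) (by omega)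
    · obtain ⟨rfl, rfl, h⟩ := h
      exact fun t => NHT.rm1i hf H.T (p := 0) (j := 4) (by omega) (by omega) (by omega) (by omega) (by omega) (by omega) (mv t rfl (by omega) rfl rfl)
    · obtain ⟨rfl, rfl, h⟩ := h
      exact fun t => NHT.rm1i hf H.T (p := 1) (j := 4) (by omega) (by omega) (by omega) (by omega) (by omega) (by omega) (mv t rfl (by omega) rfl rfl)
    · obtain ⟨rfl, rfl, h⟩ := h
      exact fun t => NHT.rm1i hf H.T (p := 0) (j := 3) (by omega) (by omega) (by omega) (by omega) (by omega) (by omega) (mv t rfl (by omega) rfl rfl)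
    · obtain ⟨rfl, rfl, h⟩ := h
      exact fun t => NHT.rm1i hf H.T (p := 1) (j := 3) (by omega) (by omega) (by omega) (by omega) (by omega) (by omega) (mv t rfl (by omega) rfl rfl)
    · obtain ⟨rfl, rfl, h⟩ := h
      exact fun t => NHT.rm1i hf H.T (p := 0) (j := 2) (by omega) (by omega) (by omega) (by omega) (by omega) (by omega) (mv t rfl (by omega) rfl rfl)
    · obtain ⟨rfl, rfl, h⟩ := h
      exact fun t => NHT.rm1i hf H.T (p := 1) (j := 2) (by omega) (by omega) (by omega) (by omega) (by omega) (by omega) (mv t rfl (by omega) rfl rfl)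
    · obtain ⟨rfl, rfl, h⟩ := h
      exact NHU.p0i hf H.U (j := 1) (by omega) (by omega) (by omega) (by omega) (by omega) (by omega)
    · obtain ⟨rfl, rfl, h⟩ := h
      exact NHU.p0i hf H.U (j := 0) (by omega) (by omega) (by omega) (by omega) (by omega) (by omega)
    · obtain ⟨rfl, rfl, h⟩ := h
      exact NHU.pmi hf H.U (j := 1) (by omega) (by omega) (by omega) (by omega) (by omega) (by omega)
    · obtain ⟨rfl, rfl, h⟩ := h
      exact NHU.pmi hf H.U (j := 1) (by omega) (by omega) (by omega) (by omega) (by omega) (by omega)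
    · obtain ⟨rfl, rfl, h⟩ := h
      exact fun t => NHU.rm1i hf H.U (p := 0) (j := 1) (by omega) (by omega) (by omega) (by omega) (by omega) (by omega) (mv t rfl (by omega) rfl rfl)
    · obtain ⟨rfl, rfl, h⟩ := h
      exact fun t => NHU.rm1i hf H.U (p := 1) (j := 1) (by omega) (by omega) (by omega) (by omega) (by omega) (by omega) (mv t rfl (by omega) rfl rfl)
    · obtain ⟨rfl, rfl, h⟩ := h
      exact fun t => NHU.rm1i hf H.U (p := 1) (j := 0) (by omega) (by omega) (by omega) (by omega) (by omega) (by omega) (mv t rfl (by omega) rfl rfl)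
    · obtain ⟨rfl, rfl, rfl, rfl⟩ := h
      exact fun t => h0 (mv t (by omega) (by omega) (by omega) (by omega))
    · obtain ⟨rfl, rfl, rfl, rfl⟩ := h
      exact fun t => h1 (mv t (by omega) (by omega) (by omega) (by omega))
    · obtain ⟨rfl, rfl, rfl, rfl⟩ := h
      exact fun t => g0 (mv t (by omega) (by omega) (by omega) (by omega))

end Pool.Agent.SNT.L0Y
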