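import Pool.Agent.SNT.PL
import Pool.Agent.SNT.LineR0

set_option autoImplicit false
set_option synthInstance.maxSize 100000
set_option synthInstance.maxHeartbeats 4000000

/-! The E-cell of the road L0 (`X = 2 n`), wall window W3a (helper38, helper82). -/

namespace Pool.Agent.SNT.L0Y

open Pool.Agent.SNT Pool.Agent.SNT.Sig Pool.Agent.SNT.Loc Pool.Agent.SNT.LW Pool.Agent.SNT.NHZ Pool.Agent.SNT.DRun
open Pool.Agent.SNT.PB Pool.Agent.SNT.D1E

variable {f : ℕ → ℕ → ℕ → ℕ → Prop}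

theorem x0_w3a_chk : check 5 10 16 28 0 0 0 0 0
    (fun j n p q => decide ((j = 2 ∧ n = 5 ∧ 13 ≤ p ∧ q ≤ p + 12 ∧ ((p + q + 0) % 2 = 0 ∧ q ≤ p + 6 ∧ (p + q + 0) % 4 = 0))
      ∨ (j = 2 ∧ n = 1 ∧ q ≤ p + 12 ∧ ((p + q + 0) % 2 = 0 ∧ q ≤ p + 6 ∧ (p + q + 0) % 4 = 0))
      ∨ (j = 2 ∧ n = 2 ∧ ((7 ≤ p ∧ q ≤ p + 12) ∨ (q ≤ p + 6) ∨ (14 ≤ q ∧ q ≤ p + 12 ∧ p + 7 ≤ q)) ∧ (((p + q + 0) % 2 = 1 ∧ p + 7 ≤ q ∧ p % 2 = 0) ∨ ((p + q + 0) % 2 = 1 ∧ q ≤ p + 7 ∧ (p + q + 1) % 4 = 0)))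
      ∨ (j = 2 ∧ n = 3 ∧ 9 ≤ p ∧ q ≤ p + 12 ∧ ((p + q + 0) % 2 = 0 ∧ q ≤ p + 6 ∧ (p + q + 2) % 4 = 0))
      ∨ (j = 2 ∧ n = 4 ∧ 11 ≤ p ∧ q ≤ p + 12 ∧ (((p + q + 0) % 2 = 1 ∧ p + 7 ≤ q ∧ p % 2 = 1) ∨ ((p + q + 0) % 2 = 1 ∧ q ≤ p + 7 ∧ (p + q + 3) % 4 = 0)))
      ∨ (j = 4 ∧ n = 2 ∧ 7 ≤ p ∧ q ≤ p + 12 ∧ (((p + q + 0) % 2 = 1 ∧ p + 7 ≤ q ∧ p % 2 = 1) ∨ ((p + q + 0) % 2 = 1 ∧ q ≤ p + 7 ∧ (p + q + 3) % 4 = 0)))
      ∨ (j = 4 ∧ n = 3 ∧ 9 ≤ p ∧ q ≤ p + 12 ∧ ((p + q + 0) % 2 = 0 ∧ q ≤ p + 6 ∧ (p + q + 0) % 4 = 0))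
      ∨ (j = 2 ∧ n = 8 ∧ p = 13 ∧ q = 24)
      ∨ (j = 2 ∧ n = 4 ∧ p = 5 ∧ q = 16)))
    (fun j n p q => decide ((j = 3 ∧ n = 6 ∧ 11 ≤ p ∧ p ≤ 12 ∧ 21 ≤ q ∧ q ≤ 22)
      ∨ (j = 5 ∧ n = 6 ∧ 11 ≤ p ∧ p ≤ 12 ∧ 22 ≤ q ∧ q ≤ 22)
      ∨ (j = 2 ∧ n = 5 ∧ ((13 ≤ p ∧ q ≤ p + 12) ∨ (12 ≤ p ∧ q ≤ p + 12 ∧ p + 6 ≤ q)) ∧ ¬ ((p + q + 0) % 2 = 0 ∧ q ≤ p + 6 ∧ (p + q + 0) % 4 = 0))
      ∨ (j = 2 ∧ n = 1 ∧ q ≤ p + 12 ∧ p + 6 ≤ q ∧ ¬ ((p + q + 0) % 2 = 0 ∧ q ≤ p + 6 ∧ (p + q + 0) % 4 = 0))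
      ∨ (j = 2 ∧ n = 2 ∧ ((q ≤ p + 6) ∨ (14 ≤ q ∧ q ≤ p + 12 ∧ p + 7 ≤ q)) ∧ ¬ (((p + q + 0) % 2 = 1 ∧ p + 7 ≤ q ∧ p % 2 = 0) ∨ ((p + q + 0) % 2 = 1 ∧ q ≤ p + 7 ∧ (p + q + 1) % 4 = 0)))
      ∨ (j = 2 ∧ n = 3 ∧ ((9 ≤ p ∧ q ≤ p + 12) ∨ (16 ≤ q ∧ q ≤ p + 12 ∧ p + 7 ≤ q)) ∧ ¬ ((p + q + 0) % 2 = 0 ∧ q ≤ p + 6 ∧ (p + q + 2) % 4 = 0))
      ∨ (j = 2 ∧ n = 4 ∧ 11 ≤ p ∧ q ≤ p + 12 ∧ ¬ (((p + q + 0) % 2 = 1 ∧ p + 7 ≤ q ∧ p % 2 = 1) ∨ ((p + q + 0) % 2 = 1 ∧ q ≤ p + 7 ∧ (p + q + 3) % 4 = 0)))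
      ∨ (j = 4 ∧ n = 3 ∧ 8 ≤ p ∧ q ≤ p + 12 ∧ p + 6 ≤ q ∧ ¬ ((p + q + 0) % 2 = 0 ∧ q ≤ p + 6 ∧ (p + q + 0) % 4 = 0))
      ∨ (j = 1 ∧ n = 5 ∧ q ≤ p + 12 ∧ p + 0 ≤ q)
      ∨ (j = 1 ∧ n = 4 ∧ q ≤ p + 12 ∧ p + 0 ≤ q)
      ∨ (j = 1 ∧ n = 3 ∧ q ≤ p + 12 ∧ p + 0 ≤ q)
      ∨ (j = 1 ∧ n = 2 ∧ q ≤ p + 12 ∧ p + 0 ≤ q)
      ∨ (j = 1 ∧ n = 1 ∧ q ≤ p + 12 ∧ p + 0 ≤ q)
      ∨ (j = 1 ∧ n = 6 ∧ q ≤ p + 12 ∧ p + 0 ≤ q)
      ∨ (j = 1 ∧ n = 7 ∧ q ≤ p + 12 ∧ p + 0 ≤ q)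
      ∨ (j = 1 ∧ n = 8 ∧ q ≤ p + 12 ∧ p + 0 ≤ q)
      ∨ (j = 3 ∧ n = 4 ∧ 8 ≤ p ∧ q ≤ p + 12 ∧ p + 11 ≤ q)
      ∨ (j = 5 ∧ n = 4 ∧ 8 ≤ p ∧ q ≤ p + 12 ∧ p + 10 ≤ q)
      ∨ (j = 3 ∧ n = 3 ∧ 5 ≤ p ∧ q ≤ p + 12 ∧ p + 11 ≤ q)
      ∨ (j = 5 ∧ n = 3 ∧ 5 ≤ p ∧ q ≤ p + 12 ∧ p + 10 ≤ q)
      ∨ (j = 4 ∧ n = 5 ∧ 9 ≤ p ∧ q ≤ p + 12 ∧ p + 11 ≤ q)
      ∨ (j = 5 ∧ n = 5 ∧ 9 ≤ p ∧ q ≤ p + 12 ∧ p + 11 ≤ q)
      ∨ (j = 2 ∧ n = 4 ∧ p = 9 ∧ q = 20)
      ∨ (j = 4 ∧ n = 6 ∧ p = 11 ∧ q = 22)))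
    630
    0x2fe4831e56001e560115870015959a27328330d28031b32a28e40028e40127238328040028040427158327f60027f6042732832813002813042fe48330c48030c48427238327240027240420150020150117558017641a1852001940ba185f80185f81176300176301174600174601156883146c00154caa154b8015599216480016561215768017448016653a17450a17458017458416498317378017378427158327f58027f5842fe4832804802804842706832707002707041649831657801657842ff30330d30030d304175483201480201484165603165680165684272383280380280384176403202400202404156a00156a01154d00137080154d8a137e92138c80177e80139a92177e8114890016820014971216820115858015860a15868015870a156a8315788015788415878015878414970315778015778419410019418a1780831861001861041780831861001941aa193280193284273283281280281284137e83145f00145f04165603173680173684158603166600166604137d83145e00145e042fe3832fe4002fe4041763832023802023842fd4832fd5002fd5041747032007002007041587031f27001f27041595831e47801e478419418318528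0185284203303185300185304137085145f00137e92154dba146c80146c84136f83137000137004158400158401156700149500148780156701147800146a801d5542264280262580262380256400256300254700254600194200169f80169d8015b08015a50015a40015a30015a100154e0014a48013f28013f18013d68013d58013d48013b98013b88013b78013b58013a80013a600139b80148781139880138b00147801138900137f80146a81137b80136e0012c68012b90012ab80128e8031b30731a50730c5072ff3072fe5072fe4872fd6872fd6072f13072f05072f04872ef6872ef60728f30728e50728d60728050727330727320727160727150727140726f80726530726528726520726450726448726440726438726430726428f26368726360726358726350726348726340726278726270726268726260726258f26238f26188726180725640f25630f25470f25460f2033072032872025072024871e48071d680719420f19330719320717730717720717710717700717560717550717540717390717380717370716a08716a007169f8f169e87169e07169d8f16930716928716920715b08f15a50f15a40f15a30f15a20715a18715a10f1596071595071594071588071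57907157807157707157607155c07155b07155a07155907154e0f153f07153e0714b60714b58714b50714a80714a78714a70714a68714a60714a58714a48f14a40714a387149907149887149807148a87148a07147c87147c0713f28f13f18f13d68f13d58f13d48f13b98f13b88f13b78f13b70713b68713b58f13b50713b48713a90713a88713a80f13a78713a70713a68713a60f139b8f139a0713998713990713988f139807139787138b0f138a87138a0713898713890f137f8f137e07137d07137c87137c07137b8f136e0f13610712c68f12ba8712ba0712b90f12ac8712ac0712ab8f129e87129e07129d87129d07129087129007128f87128f07128e8f1281871281071081871081071080871080071073871073071072871072070fa1870fa1070fa0870fa0070f9f870f9f070f93870f93070f92870f92070f91870f91070ec0870ec0070ebf870ebf070ebe870ebe070eb2870eb2070eb1870eb1070eb0870eb0070ea4070ea3870ea3070ea2870e96070e95870e95070e94870e94070e87070e86870e86070e85870e85070e84870e79070e78870e78070e77870e77070e76870de0870de0070dde870dde070dd2870dd2070dd0870dd0070dc4070dc3870dc3070dc2870dc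2070dc1870db6070db5870db5070db4870db4070db3870da7070da6870da6070da5870da5070da4870d99070d98870d98070d97870d97070d96870d96070d95870d89870d89070d88070d87870d7b870d7b070ce2070ce1870cd5870cd5070cd4070cd3870cc7870cc7070cc6870cc6070cc5870cc5070cc4870cc4070cc3870cb9070cb8870cb8070cb7870cb7070cb6870cb6070cb5870caa870caa070ca9870ca9070ca8870ca8070ca7870ca7070ca6870c9c870c9c070c9b870c9b070c9a870c9a070c99870c99070c98870c8d870c8d070c8c870c8c070c8b870c8b070c7f870c7f070c7e870c7e070bf5870bf5070be7870be7070be6870be6070be5870be4070be3870bd9070bd8870bd8070bd7870bd7070bd6870bd6070bd5870bca870bca070bc9870bc9070bc8870bc8070bc7870bc7070bc6870bbc870bbc070bbb870bba870bba070bb9870bb9070bb8870bb8070bb7870bad870bad070bac870bac070bab870bab070baa870baa070ba9870b9f870b9f070b9e870b9e070b9c870b9c070af7070af6870ae9070ae8870ae7870ae7070ada870ada070ad9870ad9070ad8070ad7870acc870acc070aca870aca070ac9870abe870abe070abd870abd070abc870abc070ab0870ab0070aaf870aaf070aa1870aa10709fa8709fa0709ec8709ec0709de8709de0709dd8709dd0709d08709d00709cf8709cf0709c18709c107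 = true := by
  decide +kernel

/-- In-lines `2 n + 1` of `6 k` (row `c + 2`), `2 n - 7` of `6 k` (row `c - 2`) present, `2 n - 3` of `6 k` (row `c - 2`) missing => the in-line `2 n - 1` of `6 k + 2` (row `c`) is present. -/
theorem x0_w3a (hf : Rule f) {k c n : ℕ} (H : PL f k c n (n - 4))
    (I : LineR0.In f (6 * k) c n (n + 2 - k) (n - 5) (n - 4))
    (D0 : Cyc f (6 * k) (c - 2) (2 * n - 2)) (D0a : Cyc f (6 * k) (c - 6) (2 * n - 6 - 2 * k))
    (C4a : Cyc f (6 * k + 4) (c - 6) (2 * (n - (k + 1)) + 2))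
    (h0 : f (6 * k) (c + 2) (2 * n + 1) (2 * n + 6 - 2 * k)) (h1 : f (6 * k) (c - 2) (2 * n - 7) (2 * n - 2 - 2 * k))
    (h2 : ¬ f (6 * k) (c - 2) (2 * n - 3) (2 * n + 2 - 2 * k)) :
    f (6 * k + 2) c (2 * n - 1) (2 * n + 4 - 2 * k) := by
  by_contra g0
  have hk := H.T.hk
  have hc := H.T.hc
  have h4' := H.T.h4
  have hb := H.T.hb
  have hN := H.T.hN2
  obtain ⟨a0, ha0⟩ : ∃ z, z + 2 = 6 * k := ⟨6 * k - (2), by omega⟩
  obtain ⟨b0, hb0⟩ : ∃ z, z + 6 = c := ⟨c - (6), by omega⟩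
  obtain ⟨x0, hx0⟩ : ∃ z, z + 12 = 2 * n := ⟨2 * n - (12), by omega⟩
  obtain ⟨y0, hy0⟩ : ∃ z, z + 2 * k + 18 = 2 * n := ⟨2 * n - (2 * k + 18), by omega⟩
  refine check_sound hf (a0 := a0) (b0 := b0) (x0 := x0) (y0 := y0) x0_w3a_chk
    ⟨fun h => absurd h (by decide), fun h => absurd h (by decide), fun h => absurd h (by decide), by omega, by omega,
      by omega, by omega⟩ ?_ ?_
  · intro j m p q hr h
    obtain ⟨-, -, -, -, hp1, hp2, hq1, hq2⟩ := hr
    replace h := of_decide_eq_true h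
    rcases h with h | h | h | h | h | h | h | h | h
    · obtain ⟨rfl, rfl, h⟩ := h
      exact (WrapC.v1 D0 (by omega) (by omega) (by omega) (by omega) (by omega) (by omega) (by omega) (by omega)).mpr (by omega)
    · obtain ⟨rfl, rfl, h⟩ := h
      exact (WrapC.v1 D0a (by omega) (by omega) (by omega) (by omega) (by omega) (by omega) (by omega) (by omega)).mpr (by omega)
    · obtain ⟨rfl, rfl, h⟩ := h
      exact (WrapC.v2 D0a (by omega) (by omega) (by omega) (by omega) (by omega) (by omega) (by omega)).mpr (by omega)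
    · obtain ⟨rfl, rfl, h⟩ := h
      exact (WrapC.v3 D0a (by omega) (by omega) (by omega) (by omega) (by omega) (by omega) (by omega) (by omega)).mpr (by omega)
    · obtain ⟨rfl, rfl, h⟩ := h
      exact (WrapC.v4 D0a (by omega) (by omega) (by omega) (by omega) (by omega) (by omega) (by omega)).mpr (by omega)
    · obtain ⟨rfl, rfl, h⟩ := h
      exact (WrapC.v0 H.c2 (by omega) (by omega) (by omega) (by omega) (by omega) (by omega) (by omega)).mpr (by omega)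
    · obtain ⟨rfl, rfl, h⟩ := h
      exact (WrapC.v1 H.c2 (by omega) (by omega) (by omega) (by omega) (by omega) (by omega) (by omega) (by omega)).mpr (by omega)
    · obtain ⟨rfl, rfl, rfl, rfl⟩ := h
      exact mv h0 (by omega) (by omega) (by omega) (by omega)
    · obtain ⟨rfl, rfl, rfl, rfl⟩ := h
      exact mv h1 (by omega) (by omega) (by omega) (by omega)
  · intro j m p q hr h
    obtain ⟨-, -, -, -, hp1, hp2, hq1, hq2⟩ := hr
    replace h := of_decide_eq_true h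
    rcases h with h | h | h | h | h | h | h | h | h | h | h | h | h | h | h | h | h | h | h | h | h | h | h | h
    · obtain ⟨rfl, rfl, h⟩ := h
      exact fun t => LineR0.In.P1 hf I (by omega) (by omega) (by omega) (by omega) (mv t (by omega) (by omega) rfl rfl)
    · obtain ⟨rfl, rfl, h⟩ := h
      exact fun t => LineR0.In.P3 hf I (by omega) (by omega) (by omega) (by omega) (mv t (by omega) (by omega) rfl rfl)
    · obtain ⟨rfl, rfl, h⟩ := h
      exact mt (WrapC.v1 D0 (by omega) (by omega) (by omega) (by omega) (by omega) (by omega) (by omega) (by omega)).mp (by omega)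
    · obtain ⟨rfl, rfl, h⟩ := h
      exact mt (WrapC.v1 D0a (by omega) (by omega) (by omega) (by omega) (by omega) (by omega) (by omega) (by omega)).mp (by omega)
    · obtain ⟨rfl, rfl, h⟩ := h
      exact mt (WrapC.v2 D0a (by omega) (by omega) (by omega) (by omega) (by omega) (by omega) (by omega)).mp (by omega)
    · obtain ⟨rfl, rfl, h⟩ := h
      exact mt (WrapC.v3 D0a (by omega) (by omega) (by omega) (by omega) (by omega) (by omega) (by omega) (by omega)).mp (by omega)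
    · obtain ⟨rfl, rfl, h⟩ := h
      exact mt (WrapC.v4 D0a (by omega) (by omega) (by omega) (by omega) (by omega) (by omega) (by omega)).mp (by omega)
    · obtain ⟨rfl, rfl, h⟩ := h
      exact mt (WrapC.v1 H.c2 (by omega) (by omega) (by omega) (by omega) (by omega) (by omega) (by omega) (by omega)).mp (by omega)
    · obtain ⟨rfl, rfl, h⟩ := h
      exact H.lw _ _ _ _ (by omega) (by omega) (by omega) (by omega) (by omega) (by omega)
    · obtain ⟨rfl, rfl, h⟩ := h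
      exact H.lw _ _ _ _ (by omega) (by omega) (by omega) (by omega) (by omega) (by omega)
    · obtain ⟨rfl, rfl, h⟩ := h
      exact H.lw _ _ _ _ (by omega) (by omega) (by omega) (by omega) (by omega) (by omega)
    · obtain ⟨rfl, rfl, h⟩ := h
      exact H.lw _ _ _ _ (by omega) (by omega) (by omega) (by omega) (by omega) (by omega)
    · obtain ⟨rfl, rfl, h⟩ := h
      exact H.lw _ _ _ _ (by omega) (by omega) (by omega) (by omega) (by omega) (by omega)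
    · obtain ⟨rfl, rfl, h⟩ := h
      exact H.lw _ _ _ _ (by omega) (by omega) (by omega) (by omega) (by omega) (by omega)
    · obtain ⟨rfl, rfl, h⟩ := h
      exact H.lw _ _ _ _ (by omega) (by omega) (by omega) (by omega) (by omega) (by omega)
    · obtain ⟨rfl, rfl, h⟩ := h
      exact H.lw _ _ _ _ (by omega) (by omega) (by omega) (by omega) (by omega) (by omega)
    · obtain ⟨rfl, rfl, h⟩ := h
      exact NHT.pmi hf H.T (j := 3) (by omega) (by omega) (by omega) (by omega) (by omega) (by omega)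
    · obtain ⟨rfl, rfl, h⟩ := h
      exact NHT.pmi hf H.T (j := 2) (by omega) (by omega) (by omega) (by omega) (by omega) (by omega)
    · obtain ⟨rfl, rfl, h⟩ := h
      exact NHT.rIn hf H.T (t := 3) (p := 1) (j := 3) (by omega) (by omega) (by omega) (by omega) (by omega) (by omega) (by omega) (by omega)
    · obtain ⟨rfl, rfl, h⟩ := h
      exact NHT.rIn hf H.T (t := 3) (p := 1) (j := 2) (by omega) (by omega) (by omega) (by omega) (by omega) (by omega) (by omega) (by omega)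
    · obtain ⟨rfl, rfl, h⟩ := h
      exact fun t => NHT.rm1i hf H.T (p := 0) (j := 3) (by omega) (by omega) (by omega) (by omega) (by omega) (by omega) (mv t rfl (by omega) rfl rfl)
    · obtain ⟨rfl, rfl, h⟩ := h
      exact fun t => NHT.rm1i hf H.T (p := 1) (j := 3) (by omega) (by omega) (by omega) (by omega) (by omega) (by omega) (mv t rfl (by omega) rfl rfl)
    · obtain ⟨rfl, rfl, rfl, rfl⟩ := h
      exact fun t => h2 (mv t (by omega) (by omega) (by omega) (by omega))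
    · obtain ⟨rfl, rfl, rfl, rfl⟩ := h
      exact fun t => g0 (mv t (by omega) (by omega) (by omega) (by omega))

end Pool.Agent.SNT.L0Y
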