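import Pool.Agent.SNT.LL10
import Pool.Agent.SNT.D1Deep

set_option autoImplicit false

/-! The windows with the improved leads and the deep lead of `6 k` (`n - k - 5` or `n - k - 6`), and the location of
the top leader over them. -/

namespace Pool.Agent.SNT

open Pool.Agent.SNT.LRI Pool.Agent.SNT.LW

variable {f : ℕ → ℕ → ℕ → ℕ → Prop} {k b m e : ℕ}

/-- The windows of all cycles with the leads `(n + 1, n - 5, n - k - e)`. -/
structure WL0 (f : ℕ → ℕ → ℕ → ℕ → Prop) (k b m e : ℕ) : Prop where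
  w : StackW f k b m
  l0 : ∀ j : ℕ, Cyc f (6 * k) (b + 4 * j + 16) (2 * (D1.nn k m j - (k + e)) + 2)

namespace WL0

theorem shift (W : WL0 f k b m e) (i : ℕ) : WL0 f k (b + 4 * i) (m + (k + 2) * i) e := by
  refine ⟨W.w.shift i, fun j => ?_⟩
  have h := W.l0 (i + j)
  rw [D1.nn_shift]
  exact D1.cyc_of_eq h (by ring) rfl

theorem mono (W : WL0 f k b m e) {e' : ℕ} (h : e' ≤ e) : WL0 f k b m e' :=
  ⟨W.w, fun j => WrapC.cyc_mono (W.l0 j) (by omega)⟩

/-- the window of the cycle `j` -/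
theorem win (W : WL0 f k b m e) (j : ℕ) :
    Win f k (b + 4 * j) (m + (k + 2) * j) (D1.nn k m j) := W.w j

/-- the chain in the row `c` of the cycle `j + 1` -/
theorem inp (hf : Rule f) (W : WL0 f k b m e) (j : ℕ) :
    LineR0.In f (6 * k) (b + 4 * (j + 1) + 22) (D1.nn k m (j + 1)) (D1.nn k m (j + 1) + 2 - k) (D1.nn k m (j + 1) - 5)
      (D1.nn k m (j + 1) - 4) := W.w.inp hf j

end WL0

/-- the windows of `StackB` with the deep lead, the cycle `25` is the window itself; `u + 7` is the depth -/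
theorem StackB.winsD (hf : Rule f) (H : D1.Steps f k 0 1) (S : StackB f k b m 0 0 0 0 0 1) (hk : 8 ≤ k) {u : ℕ}
    (hu : u + 1 ≤ k) (hu2 : k + e ≤ u + 7) (P : ∀ v : ℕ, v < u → D1.ColD f k 1 v) :
    ∃ b0 m0 : ℕ, b = b0 + 4 * 25 ∧ m = m0 + (k + 2) * 25 ∧ WL0 f k b0 m0 e := by
  obtain ⟨b0, m0, rfl, rfl, S'⟩ := S
  obtain ⟨q0, q2, q4⟩ := D1.allD hf H S' hk hu P
  refine ⟨b0 + 4 * (6 * k + 35), m0 + (k + 2) * (6 * k + 35), by ring, by ring, fun j => ?_, fun j => ?_⟩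
  · obtain ⟨hs, St⟩ := S'.shift (6 * k + 35) j
    have e : D1.nn k (m0 + (k + 2) * (6 * k + 35)) j = D1.nn k m0 (6 * k + 35 + j) := D1.nn_shift k m0 (6 * k + 35) j
    have e4 : b0 + 4 * (6 * k + 35) + 4 * j = b0 + 4 * (6 * k + 35 + j) := by ring
    exact {
      hs := hs
      S := St
      hn := rfl
      d0 := WrapC.cyc_mono (D1.cyc_of_eq (q0 (6 * k + 35 + j) (by omega)) (by rw [e4]) rfl) (by rw [e]; omega)
      d2 := D1.cyc_of_eq (q2 (6 * k + 35 + j) (by omega)) (by rw [e4]) (by rw [e]; omega)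
      d4 := D1.cyc_of_eq (q4 (6 * k + 35 + j) (by omega)) (by rw [e4]) (by rw [e]) }
  · have e : D1.nn k (m0 + (k + 2) * (6 * k + 35)) j = D1.nn k m0 (6 * k + 35 + j) := D1.nn_shift k m0 (6 * k + 35) j
    have e4 : b0 + 4 * (6 * k + 35) + 4 * j = b0 + 4 * (6 * k + 35 + j) := by ring
    exact WrapC.cyc_mono (D1.cyc_of_eq (q0 (6 * k + 35 + j) (by omega)) (by rw [e4]) rfl) (by rw [e]; omega)

namespace S6

/-- **The location of the top leader over `StackB`, with the deep lead of `6 k`** (`e = 5`, `u = k - 2` or `e = 6`,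
`u = k - 1`); the cells are wanted only in the cycle `25`, with the tip. -/
theorem locR10A_ofD {e : ℕ} (hf : Rule f) (hk : 8 ≤ k) (H : D1.Steps f k 0 1) {u : ℕ} (hu : u + 1 ≤ k)
    (hu2 : k + e ≤ u + 7) (P : ∀ v : ℕ, v < u → D1.ColD f k 1 v)
    (O : ∀ b m : ℕ, WL0 f k b m e →
      f (6 * k + 10) (b + 4 * 25 + 22) (2 * D1.nn k m 25 + 1) (2 * D1.nn k m 25) →
      Cells10 f k (b + 4 * 25) (D1.nn k m 25)) : LocR10A f k := by
  intro b m S hno tip
  obtain ⟨b0, m0, rfl, rfl, W⟩ := S.winsD hf H hk hu hu2 P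
  have e : D1.nn k m0 25 = m0 + (k + 2) * 25 + 9 + (k + 2) * 4 := rfl
  have h := (W.w.shift 24).cw hf (by
    have := O b0 m0 W (by rw [e]; exact tip)
    rw [D1.nn_shift]
    exact this) (by
    rw [D1.nn_shift, show 24 + 1 = 25 by norm_num, e]
    exact tip)
  rw [D1.nn_shift, show 24 + 1 = 25 by norm_num, e] at h
  refine hno ?_
  have e2 : m0 + (k + 2) * 25 + 9 + (k + 2) * 4 - 1 = m0 + (k + 2) * 25 + 8 + (k + 2) * 4 := by omega
  rw [e2] at h
  exact h

end S6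

end Pool.Agent.SNT
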