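import Pool.Agent.SNT.LineV9
import Pool.Agent.SNT.LLW

set_option autoImplicit false

/-! The tip line of the top leader and the cells `v = 3, 5, 6` of the wall over `WL0`. -/

namespace Pool.Agent.SNT.LineV9

open Pool.Agent.SNT Pool.Agent.SNT.LRI Pool.Agent.SNT.LW Pool.Agent.SNT.NHZ

variable {f : ℕ → ℕ → ℕ → ℕ → Prop} {k b m c n : ℕ}

/-- **The in-line `n` of the leader**, from the tip down to `y' = 10`. -/
theorem tipline (hf : Rule f) (H : LI f k c n) (hF2 : F2 f k c n) (hF6 : F6 f k c n)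
    (I : LineR0.In f (6 * k) c n (n + 2 - k) (n - 5) (n - 4)) (tip : f (6 * k + 10) c (2 * n + 1) (2 * n)) {y : ℕ}
    (h1 : y % 2 = 0) (h2 : 2 * n + 8 ≤ y + 2 * k) (h3 : y ≤ 2 * n) : f (6 * k + 10) c (2 * n + 1) y := by
  have hk := H.T.hk
  have hN := H.T.hN2
  have hb := H.T.hb
  have hc := H.T.hc
  have h4 := H.T.h4
  obtain ⟨C, rfl⟩ : ∃ C, c = C + 1 := ⟨c - 1, by omega⟩
  have l0 : Lay (6 * k + 10) (C + 1) (k + 1) := ⟨by omega, by omega, by omega, by omega⟩
  have l4 : Lay (6 * k + 10) (C + 1 - 4) (k + 1) := ⟨by omega, by omega, by omega, by omega⟩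
  have line := l0_line hf (A := 6 * k + 10) (c := C) (n := n) (E := 2 * n - 2 * k + 8)
    (by
      intro y h1 h2 h3
      exact (w0 l0 H.a10 rfl rfl (by omega) (by omega) (by omega) (by omega)).2 (by unfold V0; omega))
    (by
      intro x y h1 h2 h3 h4
      have := (w3s l4 H.b10 rfl (by omega) (by omega) (by omega) (by omega) (by omega)).1 h4
      unfold V3 at this
      omega)
    (by
      intro x y a1 a2 a3 a4
      have a5 : f (6 * k + 9) (C + 1) x y := a4
      rcases a1 with rfl | rfl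
      · exact H.p9_1 hf hF2 hF6 I (by omega) (by omega) a5
      · exact p9_2 hf H rfl rfl (by omega) (by omega) a5)
    (by
      intro x y a1 a2 a3 a4
      have a5 : f (6 * k + 9) C x y := a4
      exact p9m hf H rfl a1 (by omega) (by omega) a5) (by omega) (by omega) tip (n - y / 2) (by omega)
  exact mv line rfl rfl rfl (by omega)

/-- the inputs of the windows `v = 3, 5, 6`, in every cycle `j + 1` -/
theorem In.of (hf : Rule f) (W : WL0 f k b m 5) (j : ℕ)
    (tip : f (6 * k + 10) (b + 4 * (j + 1) + 22) (2 * D1.nn k m (j + 1) + 1) (2 * D1.nn k m (j + 1))) :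
    In f k (b + 4 * (j + 1) + 22) (D1.nn k m (j + 1)) := by
  have H := (W.win (j + 1)).li hf
  have I := W.inp hf j
  have hF2 := F2.of hf H ((W.win (j + 1)).K2 hf)
  have hF6 := F6.of hf H ((W.win (j + 1)).K6 hf)
  have e1 : D1.nn k m (j + 1) = D1.nn k m j + k + 2 := by unfold D1.nn; ring
  have e2 : D1.nn k m (j + 2) = D1.nn k m (j + 1) + k + 2 := by unfold D1.nn; ring
  have d4 := (W.win j).d4
  have c6 := W.l0 (j + 1)
  have c2 := W.l0 (j + 2)
  have hk := H.T.hk
  have hN := H.T.hN2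
  have hb := H.T.hb
  have hT := tipline hf H hF2 hF6 I tip (y := 2 * D1.nn k m (j + 1) - 2 * k + 8) (by omega) (by omega) (by omega)
  generalize D1.nn k m (j + 1) = n at *
  generalize D1.nn k m (j + 2) = n2 at *
  generalize D1.nn k m j = n0 at *
  subst e1 e2
  exact {
    T := H.T
    lw := fun R x y h1 h2 h3 h4 h5 h6 => H.lw _ _ _ _ (by omega) (by omega) (by omega) (by omega) h5 (by omega)
    C10_0 := H.a10
    C10_4 := NW.cw_mv H.b10 rfl rfl (by omega)
    C8_2 := H.a8
    C6_4 := H.a6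
    C4_6 := D1.cyc_of_eq d4 (by omega) (by omega)
    C2_4 := H.a2
    C0_6 := D1.cyc_of_eq c6 (by omega) (by omega)
    C0_2 := D1.cyc_of_eq c2 (by omega) (by omega)
    p1 := fun x y h1 h2 h3 h4 => I.P1 hf h1 h2 (by omega) (by omega)
    p3 := fun x y h1 h2 h3 h4 => I.P3 hf h1 h2 (by omega) (by omega)
    p3' := fun x y h1 h2 h3 h4 => I.P3' hf (by omega) h2 (by omega) (by omega) (by omega)
    p5 := fun x y h1 h2 h3 h4 => I.P5 hf h1 h2 (by omega) (by omega)
    p7 := fun x y h1 h2 h3 h4 => I.P7 hf (by omega) h2 (by omega) (by omega) (by omega)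
    y4' := fun y h1 h2 h3 => by
      have h := I.y4' hf (i := n0 + k + 2 - 1) (j := y / 2) (by omega) (by omega) (by omega)
      unfold Sig.bY at h
      rwa [show 2 * (n0 + k + 2 - 1) + 1 = 2 * (n0 + k + 2) - 1 by omega, show 2 * (y / 2) = y by omega] at h
    tl := hT }

end Pool.Agent.SNT.LineV9
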