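import Pool.Agent.SNT.L0YC
import Pool.Agent.SNT.L0YS
import Pool.Agent.SNT.L0Y_11q
import Pool.Agent.SNT.L0Y_11e
import Pool.Agent.SNT.L0Y_82
import Pool.Agent.SNT.L0Y_82b
import Pool.Agent.SNT.L0Y_82c
import Pool.Agent.SNT.L0Y_82d
import Pool.Agent.SNT.L0Y_82f
import Pool.Agent.SNT.L0Y_82g
import Pool.Agent.SNT.L0Y_82h
import Pool.Agent.SNT.L0Y_23
import Pool.Agent.SNT.L0Y_23b
import Pool.Agent.SNT.LineV9A
import Pool.Agent.SNT.L0P5

set_option autoImplicit false
set_option linter.unusedVariables false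

/-! **The E-cell of the road L0 at `X' = 0` (`v = k - 3`)** (helper11, helper13, helper23, helper32, helper38, helper57,
helper82, helper85). -/

namespace Pool.Agent.SNT.L0Y

open Pool.Agent.SNT Pool.Agent.SNT.Sig Pool.Agent.SNT.Loc Pool.Agent.SNT.LW Pool.Agent.SNT.NHZ Pool.Agent.SNT.DRun
open Pool.Agent.SNT.D1E Pool.Agent.SNT.L0E Pool.Agent.SNT.PB Pool.Agent.SNT.D1

variable {f : ℕ → ℕ → ℕ → ℕ → Prop}

/-- the tip line of `6 k + 10` in the row `c` of the cycle `j + 1` -/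
theorem tl_of (hf : Rule f) {k b m v : ℕ} (S : StackA f k b m 0 0 0 0 0 1) (q4 : Q4 f k b m 0 0) (q2 : Q2 f k b m 0 0)
    (qd : QD f k b m 0 v) (j : ℕ) {c n : ℕ} (hc : c = b + 4 * j + 26) (hn : n = nn k m (j + 1)) :
    f (6 * k + 10) c (2 * n + 1) (2 * n + 8 - 2 * k) := by
  have W : StackW f k b m := fun i => win_of S q4 q2 qd i
  have S1 := S.shift (j + 1)
  have e0 : nn k m (j + 1) = m + (k + 2) * (j + 1) + 9 + (k + 2) * 4 := rfl
  have ec : b + 4 * (j + 1) + 22 = c := by omega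
  have I0 : NDB.Imp f k (b + 4 * (j + 1)) (m + (k + 2) * (j + 1) + 9 + (k + 2) * 4) := by
    have h := (W.shift (j + 1)).imp
    have e : nn k (m + (k + 2) * (j + 1)) 0 = m + (k + 2) * (j + 1) + 9 + (k + 2) * 4 := by
      unfold nn
      ring
    rwa [e] at h
  have tip : f (6 * k + 10) c (2 * n + 1) (2 * n) := by
    by_contra h
    refine NDB.leadR10_imp hf S1.side S1.stack I0 ?_
    rw [ec, ← e0, ← hn]
    exact h
  have I := W.inp hf j
  have H := (W (j + 1)).li hf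
  have hF2 := LRI.F2.of hf H ((W (j + 1)).K2 hf)
  have hF6 := LRI.F6.of hf H ((W (j + 1)).K6 hf)
  rw [ec, ← hn] at I H hF2 hF6
  have hk := H.T.hk
  have hN := H.T.hN2
  exact LineV9.tipline hf H hF2 hF6 I tip (by omega) (by omega) (by omega)

/-- **The E-cell** for `X = 2 n'` (`c + 4`, `n' = n + (k + 2)` the cycle of the cell, `c`, `n` the cycle before). -/
theorem ecell0_aux (hf : Rule f) {k c n n' : ℕ} (A : CY f k c n) (hn : n' = n + (k + 2)) (B : CY f k (c + 4) n')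
    (tl : f (6 * k + 10) (c + 4) (2 * n' + 1) (2 * n' + 8 - 2 * k)) :
    ¬ f (6 * k + 1) (c + 4) (2 * n') (2 * n' + 2 - 2 * k) := by
  intro e
  have hk := A.H.T.hk
  have hc := A.H.T.hc
  have hb := A.H.T.hb
  have hN := A.H.T.hN2
  have N2 := n2_wall hf A.H hn B.H B.D0a B.C2 B.C4a
    (by
      rcases A.K2p (2 * n + 2 * k - 9) (2 * n - 4) (by omega) (by omega) (by omega) with h | h
      · exact Or.inl (run2' hf A.H.T (by omega) (by omega) (by omega) (by omega) h (2 * n + 2 * k - 14) (by omega) (by omega)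
          (by omega))
      · exact Or.inr (mv (run2' hf A.H.T (by omega) (by omega) (by omega) (by omega) h (2 * n + 2 * k - 12) (by omega)
          (by omega) (by omega)) rfl rfl (by omega) rfl))
    (by
      rcases A.K6p (2 * n + 2 * k - 7) (2 * n + 2 * k - 14) (by omega) (by omega) (by omega) (by omega) (by omega) with h | h
      · exact Or.inl h
      · exact Or.inr (mv h rfl rfl (by omega) (by omega)))
  refine chain0 hf A.H A.Z A.C A.PV A.p2n A.T0 ?_ ?_ ?_ ?_ (d1a hf A.K) (d1b7 hf A.K) (D1c hf A.K) (d1f hf A.K)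
    (n47 hf A.K) ?_ ?_ (x0_w2c hf A.H A.D0 A.D0a A.C4a) (d2a7 hf A.K) (d2b hf A.K) (d2c hf A.K) ?_ ?_
    (x0_w3a hf A.H A.I A.D0 A.D0a A.C4a) ?_ ?_
  · intro t
    exact x0_w1a11 hf B.H B.D0 B.D0a B.C4a e (mv t rfl (by omega) (by omega) (by omega))
  · intro t
    exact x0_w1a9 hf B.H B.D0 B.D0a B.C4a e (mv t rfl (by omega) (by omega) (by omega))
  · exact mv (x0_w1b hf B.H B.D0 B.D0a B.C4a e) rfl rfl (by omega) (by omega)
  · intro t
    exact x0_w1c hf B.H B.D0 B.D0a B.C4a e (mv t rfl (by omega) (by omega) (by omega))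
  · intro h
    exact mv (x0_w2a hf B.H B.D0 B.D0a B.C4a B.C2a e (fun t => h (mv t rfl rfl (by omega) (by omega))) N2) rfl rfl (by omega)
      (by omega)
  · intro h1 h2 h3
    exact mv (x0_w2b hf B.H B.I B.D0 B.D0a B.C4a B.nb' e (fun t => h1 (mv t rfl (by omega) (by omega) (by omega)))
      (fun t => h2 (mv t rfl rfl (by omega) (by omega))) (mv h3 rfl (by omega) (by omega) (by omega))) rfl (by omega)
      (by omega) (by omega)
  · intro h
    exact mv (x0_n1' hf B.H B.I B.D0 B.D0a B.C4a B.nb (mv h rfl (by omega) (by omega) (by omega))) rfl (by omega) (by omega)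
      (by omega)
  · intro h1 h2 h3 h4 h5
    exact d2d7 hf A.K h1 h2 h4 h5
  · intro h1 h2 h3
    exact fun t => x0_w3b hf B.H B.I B.D0 B.D0a B.C4a B.C2 B.nb' tl e
      (fun t => h1 (mv t rfl rfl (by omega) (by omega))) (mv h2 rfl (by omega) (by omega) (by omega))
      (fun t => h3 (mv t rfl rfl (by omega) (by omega))) (mv t rfl (by omega) (by omega) (by omega))
  · intro h1 h2 h3 h4
    exact fin7 hf A.K h1 h2 h3 h4

end Pool.Agent.SNT.L0Y

namespace Pool.Agent.SNT.D1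

open Pool.Agent.SNT Pool.Agent.SNT.Loc Pool.Agent.SNT.LW Pool.Agent.SNT.NHZ Pool.Agent.SNT.L0Y

variable {f : ℕ → ℕ → ℕ → ℕ → Prop} {k b m v : ℕ}

/-- **The E-cell** (`d = 2 k - 2`) of the column of the step `v = k - 3` of the road L0. -/
theorem ecell0 (hf : Rule f) (S : StackA f k b m 0 0 0 0 0 1) (q4 : Q4 f k b m 0 0) (q2 : Q2 f k b m 0 0)
    (qd : QD f k b m 0 v) (hv : v + 3 = k) {x y : ℕ} (hx : x + 10 + 2 * v = 2 * nn k m 4) (hy : y + 2 * k = x + 2) :
    ¬ f (6 * k + 1) (b + 4 * 4 + 18) x y := by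
  have A := CY.of hf S q4 q2 qd hv 1 (c := b + 4 * 1 + 26) (n := nn k m 2) rfl rfl
  have B := CY.of hf S q4 q2 qd hv 2 (c := b + 4 * 1 + 26 + 4) (n := nn k m 3) (by omega) rfl
  have tl := tl_of hf S q4 q2 qd 2 (c := b + 4 * 1 + 26 + 4) (n := nn k m 3) (by omega) rfl
  have e3 : nn k m 3 = nn k m 2 + (k + 2) := by
    unfold nn
    ring
  have e4 : nn k m 4 = nn k m 3 + (k + 2) := by
    unfold nn
    ring
  intro h
  exact ecell0_aux hf A e3 B tl (mv h rfl (by omega) (by omega) (by omega))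

/-- the last open cell of the road L0 -/
theorem ecell3 (hf : Rule f) : ECell3 f k := fun v hv b m S q4 q2 qd x y hx hy => ecell0 hf S q4 q2 qd hv hx hy

end Pool.Agent.SNT.D1
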