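import Pool.Agent.SNT.LLW
import Pool.Agent.SNT.PurW
import Pool.Agent.SNT.D4B

set_option autoImplicit false

/-! The reflection of the in-line `2 n - 1` of `6 k + 2` in the row `c` at the diagonal, over the windows with the deep lead. -/

namespace Pool.Agent.SNT.D4B

open Pool.Agent.SNT Pool.Agent.SNT.Loc Pool.Agent.SNT.LW Pool.Agent.SNT.LRI

variable {f : ℕ → ℕ → ℕ → ℕ → Prop} {k b m : ℕ}

/-- **D4b** in the cycle `j + 1` (`c = b + 4 (j + 1) + 22`) -/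
theorem d4b (hf : Rule f) (W : WL0 f k b m 5) (j : ℕ) {n c : ℕ} (en : n = D1.nn k m (j + 1))
    (ec : c = b + 4 * (j + 1) + 22)
    (A : ∀ y : ℕ, y % 2 = 0 → 2 * n ≤ y + 10 → y + 8 ≤ 2 * n → f (6 * k + 2) c (2 * n - 1) y)
    (B : ¬ f (6 * k + 2) (c + 2) (2 * n + 8) (2 * n + 1))
    (NY : ∀ x : ℕ, x % 2 = 0 → 2 * n + 8 ≤ x → x ≤ 2 * n + 14 → ¬ f (6 * k + 4) (c + 2) x (2 * n + 3))
    (OL : ∀ x : ℕ, x % 2 = 0 → 2 * n + 10 ≤ x → x ≤ 2 * n + 14 → f (6 * k + 4) c x (2 * n + 5))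
    (tm : f (6 * k + 4) (c - 2) (2 * n - 1) (2 * n - 2)) : False := by
  have e1 : D1.nn k m (j + 1) = D1.nn k m j + k + 2 := by unfold D1.nn; ring
  have e2 : D1.nn k m (j + 2) = D1.nn k m (j + 1) + k + 2 := by unfold D1.nn; ring
  have W0 := W.w j
  have W1 := W.w (j + 1)
  have hk := W1.hs.1
  have H := W1.li hf
  have l0 := W.l0 (j + 1)
  have l1 := W.l0 (j + 2)
  have d4 := W0.d4
  have pur := fun (x : ℕ) (h1 : x % 2 = 1) (h2 : 2 * D1.nn k m (j + 1) + 9 ≤ x)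
      (h3 : x ≤ 2 * D1.nn k m (j + 1) + 11) =>
    (PW.purity_stack hf W1.hs W1.S W1.hn
      (WrapC.cyc_mono l0 (by omega)) (WrapC.cyc_mono W1.d2 (by omega)) W1.d4 (x := x) h1 (by omega)).1 h2
  rw [← en, ← ec] at H
  rw [← en] at l0 pur
  have hn := H.T.hN2
  refine d4b_aux hf hk H.T.hb H.T.h4 hn (fun {M R x y} a1 a2 a3 a5 a6 a7 => H.lw M R x y a1 (by omega) (by omega) (by omega) a6 a7)
    ?_ ?_ ?_ H.a2 H.a6 H.a8 H.a10 ?_ A B NY OL tm ?_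
  · exact D1.cyc_of_eq d4 (by omega) (by omega)
  · exact NW.cw_mv H.b10 rfl rfl (by omega)
  · exact D1.cyc_of_eq l0 (by omega) rfl
  · exact D1.cyc_of_eq l1 (by omega) (by omega)
  · intro x h1 h2 h3
    have h := pur x h1 h2 h3
    rwa [show b + 4 * (j + 1) + 24 = c + 2 by omega] at h

end Pool.Agent.SNT.D4B
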