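import Pool.Agent.SNT.W9D

set_option autoImplicit false
set_option synthInstance.maxSize 100000
set_option synthInstance.maxHeartbeats 4000000

/-! The cell `y + 2 k = 2 n + 3` of `Wall9`. -/

namespace Pool.Agent.SNT.W9

open Pool.Agent.SNT Pool.Agent.SNT.Loc Pool.Agent.SNT.LW Pool.Agent.SNT.NHZ

variable {f : ℕ → ℕ → ℕ → ℕ → Prop}

theorem w9_3_chk : check 11 7 13 12 1 1 0 0 0
    (fun j n p q => decide ((j = 1 ∧ n = 4 ∧ ((3 ≤ p) ∨ (p ≤ q + 2 ∧ 2 ≤ p)) ∧ ((p + q) % 2 = 0 ∧ q + 2 ≤ p ∧ (p + q) % 4 = 0))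
      ∨ (j = 3 ∧ n = 2 ∧ ((p + q) % 2 = 0 ∧ q + 2 ≤ p ∧ (p + q) % 4 = 0))
      ∨ (j = 3 ∧ n = 3 ∧ q + 2 ≤ p ∧ (((p + q) % 2 = 1 ∧ p ≤ q + 1 ∧ p % 2 = 0) ∨ ((p + q) % 2 = 1 ∧ q + 1 ≤ p ∧ (p + q + 1) % 4 = 0)))
      ∨ (j = 7 ∧ n = 3 ∧ q + 4 ≤ p ∧ (((p + q) % 2 = 1 ∧ p ≤ q + 3 ∧ p % 2 = 0) ∨ ((p + q) % 2 = 1 ∧ q + 3 ≤ p ∧ (p + q + 1) % 4 = 2)))
      ∨ (j = 11 ∧ n = 5 ∧ ((7 ≤ p ∧ p ≤ q + 1) ∨ (9 ≤ p)) ∧ (((p + q) % 2 = 1 ∧ p ≤ q + 3 ∧ p % 2 = 1) ∨ ((p + q) % 2 = 1 ∧ q + 3 ≤ p ∧ (p + q + 3) % 4 = 2)))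
      ∨ (j = 11 ∧ n = 3 ∧ ((p ≤ q + 3 ∧ 2 ≤ q) ∨ (q + 4 ≤ p)) ∧ (((p + q) % 2 = 1 ∧ p ≤ q + 3 ∧ p % 2 = 0) ∨ ((p + q) % 2 = 1 ∧ q + 3 ≤ p ∧ (p + q + 1) % 4 = 2)))
      ∨ (j = 9 ∧ n = 2 ∧ ((p ≤ q + 3) ∨ (2 ≤ p)) ∧ ((p + q) % 2 = 0 ∧ q + 4 ≤ p ∧ (p + q + 2) % 4 = 2))
      ∨ (j = 7 ∧ n = 1 ∧ (((p + q) % 2 = 1 ∧ p ≤ q + 3 ∧ p % 2 = 1) ∨ ((p + q) % 2 = 1 ∧ q + 3 ≤ p ∧ (p + q + 3) % 4 = 2)))
      ∨ (j = 5 ∧ n = 1 ∧ ((5 ≤ p) ∨ (q + 2 ≤ p) ∨ (p ≤ q + 1 ∧ 4 ≤ q)) ∧ (((p + q) % 2 = 1 ∧ p ≤ q + 1 ∧ p % 2 = 0) ∨ ((p + q) % 2 = 1 ∧ q + 1 ≤ p ∧ (p + q + 1) % 4 = 0)))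
      ∨ (j = 11 ∧ n = 5 ∧ 5 ≤ p ∧ p ≤ 5 ∧ 10 ≤ q ∧ q % 2 = 0)
      ∨ (j = 10 ∧ n = 5 ∧ p = 5 ∧ q = 5)))
    (fun j n p q => decide ((j = 1 ∧ n = 4 ∧ ((3 ≤ p) ∨ (p ≤ q + 2 ∧ 2 ≤ p)) ∧ ¬ ((p + q) % 2 = 0 ∧ q + 2 ≤ p ∧ (p + q) % 4 = 0))
      ∨ (j = 3 ∧ n = 2 ∧ ¬ ((p + q) % 2 = 0 ∧ q + 2 ≤ p ∧ (p + q) % 4 = 0))
      ∨ (j = 3 ∧ n = 3 ∧ q + 2 ≤ p ∧ ¬ (((p + q) % 2 = 1 ∧ p ≤ q + 1 ∧ p % 2 = 0) ∨ ((p + q) % 2 = 1 ∧ q + 1 ≤ p ∧ (p + q + 1) % 4 = 0)))
      ∨ (j = 7 ∧ n = 3 ∧ q + 4 ≤ p ∧ ¬ (((p + q) % 2 = 1 ∧ p ≤ q + 3 ∧ p % 2 = 0) ∨ ((p + q) % 2 = 1 ∧ q + 3 ≤ p ∧ (p + q + 1) % 4 = 2)))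
      ∨ (j = 11 ∧ n = 5 ∧ ((7 ≤ p ∧ p ≤ q + 1) ∨ (9 ≤ p)) ∧ ¬ (((p + q) % 2 = 1 ∧ p ≤ q + 3 ∧ p % 2 = 1) ∨ ((p + q) % 2 = 1 ∧ q + 3 ≤ p ∧ (p + q + 3) % 4 = 2)))
      ∨ (j = 11 ∧ n = 3 ∧ ((p ≤ q + 3 ∧ 2 ≤ q) ∨ (q + 4 ≤ p)) ∧ ¬ (((p + q) % 2 = 1 ∧ p ≤ q + 3 ∧ p % 2 = 0) ∨ ((p + q) % 2 = 1 ∧ q + 3 ≤ p ∧ (p + q + 1) % 4 = 2)))
      ∨ (j = 9 ∧ n = 2 ∧ ((p ≤ q + 3) ∨ (2 ≤ p)) ∧ ¬ ((p + q) % 2 = 0 ∧ q + 4 ≤ p ∧ (p + q + 2) % 4 = 2))
      ∨ (j = 7 ∧ n = 1 ∧ ¬ (((p + q) % 2 = 1 ∧ p ≤ q + 3 ∧ p % 2 = 1) ∨ ((p + q) % 2 = 1 ∧ q + 3 ≤ p ∧ (p + q + 3) % 4 = 2)))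
      ∨ (j = 5 ∧ n = 1 ∧ ((5 ≤ p) ∨ (q + 2 ≤ p) ∨ (p ≤ q + 1 ∧ 4 ≤ q)) ∧ ¬ (((p + q) % 2 = 1 ∧ p ≤ q + 1 ∧ p % 2 = 0) ∨ ((p + q) % 2 = 1 ∧ q + 1 ≤ p ∧ (p + q + 1) % 4 = 0)))
      ∨ (j = 9 ∧ n = 4 ∧ p ≤ q + 0)
      ∨ (j = 3 ∧ n = 4 ∧ p + 3 ≤ q)
      ∨ (j = 2 ∧ n = 1 ∧ p + 2 ≤ q)
      ∨ (j = 6 ∧ n = 3 ∧ p + 1 ≤ q)
      ∨ (j = 8 ∧ n = 1 ∧ p ≤ q + 0)
      ∨ (j = 2 ∧ n = 2)
      ∨ (j = 2 ∧ n = 3 ∧ (p % 2 = 1 ∨ q % 2 = 1))
      ∨ (j = 2 ∧ n = 4)
      ∨ (j = 2 ∧ n = 5 ∧ (p % 2 = 1 ∨ q % 2 = 1))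
      ∨ (j = 6 ∧ n = 5 ∧ 2 ≤ p ∧ p ≤ 2 ∧ 9 ≤ q ∧ q ≤ 9)
      ∨ (j = 8 ∧ n = 5 ∧ 4 ≤ p ∧ p ≤ 5 ∧ 8 ≤ q ∧ q ≤ 9)
      ∨ (j = 5 ∧ n = 5 ∧ 5 ≤ p ∧ p ≤ 5 ∧ 8 ≤ q ∧ q % 2 = 0)
      ∨ (j = 5 ∧ n = 5 ∧ 3 ≤ p ∧ p ≤ 3 ∧ 8 ≤ q ∧ q ≤ 8 ∧ q % 2 = 0)
      ∨ (j = 7 ∧ n = 5 ∧ 4 ≤ p ∧ p ≤ 4 ∧ 9 ≤ q ∧ q % 2 = 1)
      ∨ (j = 3 ∧ n = 5 ∧ 6 ≤ p ∧ p ≤ 6 ∧ 7 ≤ q ∧ q % 2 = 1)
      ∨ (j = 4 ∧ n = 5 ∧ 6 ≤ p ∧ p ≤ 6 ∧ 8 ≤ q)
      ∨ (j = 6 ∧ n = 5 ∧ 6 ≤ p ∧ p ≤ 6 ∧ 8 ≤ q)
      ∨ (j = 3 ∧ n = 4 ∧ p ≤ 6 ∧ 5 ≤ q ∧ p ≤ q + 0)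
      ∨ (j = 4 ∧ n = 4 ∧ p ≤ 6 ∧ 5 ≤ q ∧ p + 1 ≤ q)
      ∨ (j = 5 ∧ n = 4 ∧ p ≤ 6 ∧ 5 ≤ q ∧ p + 1 ≤ q)
      ∨ (j = 6 ∧ n = 4 ∧ 2 ≤ p ∧ p ≤ 6 ∧ 5 ≤ q ∧ p + 2 ≤ q)
      ∨ (j = 7 ∧ n = 4 ∧ 2 ≤ p ∧ p ≤ 6 ∧ 5 ≤ q ∧ p + 2 ≤ q)
      ∨ (j = 8 ∧ n = 4 ∧ 3 ≤ p ∧ p ≤ 6 ∧ 5 ≤ q ∧ p + 3 ≤ q)
      ∨ (j = 1 ∧ n = 4 ∧ p ≤ 5 ∧ 6 ≤ q ∧ p + 1 ≤ q)
      ∨ (j = 10 ∧ n = 5 ∧ 6 ≤ p ∧ p ≤ 6 ∧ p ≤ q + 2)))
    1008
    0x192383191e0019249a0c45030e6700108fda12b18014da5a10958010960a17208312d60012d601106500128742100a80100a8117208312d60012d601105f00105f0110048010048410a78012ca4a109b80109b810c45030e6700108fda12b18014da5a1095001095041096001096040c45830e67800e678407fb830a1e000c46520a1d000a1d041287030e3c800e3c841017831066001066041287030e3d000e3d041287031065801065840c14830e36800e368412cf830e37000e370407fa830a1c800a1c840a290307fa8007fa840800830a22800a22840c51030e73000e730408068305d80005d8040a350308068008068409928309e08009e0840dd683093e00093e0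4121a830dd0000dd0041220830dd6000dd60409e6030a34800a348407c40308128008128409e60309e68009e6840e7f830a35000a350412c9830e7f000e7f040bc1030c0f000c0f040de3830c0f800c0f8412ca030e7f800e7f8407768309e70009e7040de383094b00094b040776830999000999040dd7030992800992840de303094a80094a840776830998800998840c03030c09000c09040ddd030bae800bae840d8e030bba800bba840de3030e31000e3104101183105f80105f84101183106000106004171a8312d00012d00412c3830e79000e79040dd703098c80098c840ddd830993000993040ddd030944800944840dd703093e80093e840dd783098d00098d040b79000d9b421233830d9b000d9b040d9b030de9800de9840de3830e31800e31840ddd030e2b000e2b041221030dd6800dd684121a830d82000d82041220830d88000d88041005030d8e000d8e040d8e030ddc800ddc84100a831058801058840d9b030de9000de904122c830de2800de284122d831059801059841281030de8800de884127b83105a00105a040e7a030c51000c510412c4030e79800e798417088312be0012be04170e8312c40012c40417148312ca0012ca04100a83105900105904123383128200128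20412398312880012880407698307b80007b80407640307b20007b204122d83127c00127c04122d830de3000de304100503105300105304122103104d00104d0407c40307c48007c484100583105380105384122d830de3800de3841006030ddd000ddd041006031054001054040ddd830e2b800e2b840dd7030e25000e2504170e831276001276040fff83104d80104d84080c830a2e800a2e840ff90310470010470417080312bd8012bd84122183126f80126f8414eb8312bd0012bd0417080312c38012c38412278312758012758414eb83126f00126f0417078312c30012c3041222031270001270040806830a28800a28841707831275001275041227831006001006041226831005001005040c51830e73800e73840c4b830e6d800e6d840801850a2a000807920c52520a29000a290414628314b08014b0840802030a24000a240407fb830a1d800a1d840801030a23000a23040801830a23800a238414da03108f80108f84080d030a2f000a2f04165e83121a00121a0414428312140012140408078305d90005d9040a36030807800807840813830a35800a3584165f03121a80121a84165f03121480121484165f83121b00121b0412b8830e6e000e6e0408088305da0005da040a37030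80880080884121b831269801269840ff983121b80121b841443831215001215040ff3831215801215840ffa03121c00121c0416660314378014378416650314368014368412b8830e74000e74040807830a29800a2984080d830a2f800a2f84080e030a30000a3004080e830a30800a308414f1801713c217078314eb8014eb8414d90016fbca191d8019239216fc0016fc0416600316ae0016ae0408138305e50005e504165f0316ad0016ad0408148305e60005e60405f18305f20005f20405ea8303c90003c90405e38305e40005e40405f08305f10005f104144a001672521456001449000b7e800b718014af8014a280167e521671520da0c20d93c216d1c216c4c21455001448000fc2800fb580145a80144d80167742166a4211e4c211d7c2194300194200193a80193700193600193500192b00192a00192900191f0018a080189f80189480189380189280188880188780188680187c80187b80187a8016fa80145a81144d81141280140d0014058014000013f300101d001010001003000f82000f7a800f76000f75000f6d800f6a000f69000f68000f60800f5e000f5d000f5c000f5b000f52000f51000f50000b31000b2b800b29800b24000b1f800b1e800b1c800b17000b13800b128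00b07800b0680077c00076f00073400072e80072180071480037980036c8019430f19420f193a8f19370f19360f19350f192b0f192a0f19290f192407192307191f0f18a08f189f8f18948f18938f18928f18888f18878f18868f187c8f187b8f187a8f17028717020717018717010716fa8f14f80714ec0714eb0714e00714df0714d40714d30714a487149e87149e07149887149807149787149287149207149187149107148c07148b87148b07148607148587148507145c07145b07145a07145007144f07144e07144d0714440714430714420714380714370714360714148714140714128f140e87140e07140d87140d0f140c87140c0714080714078714070714068714060714058f14020714018714010714008714000f13ff8713ff0713fc0713fb8713fb0713fa8713fa0713f98713f90713f60713f58713f50713f48713f40713f38713f30f13f00713ef8713ef0713ee8713ee0713ea0713e98713e90713e88713e80712b88712b80712b28712b207126a87126a0712648712640712638710b40710a80710a707109c07109b07109087109007108f07104e07104887104807104787104287104207104187104107103b87103b07101d0f10170710168710108710100f100b07100a07100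30f1000070fff070ffe070ff4070ff3070ff2070f820f0f7a8f0f760f0f750f0f74870f74070f6e870f6e070f6d8f0f6a0f0f690f0f680f0f67870f67070f61870f61070f608f0f5e0f0f5d0f0f5c0f0f5b0f0f520f0f510f0f500f0e7a070e2c070e26070e25870e20070e1f870e1f070e19870e19070de4070dde070ddd870dd8070dd7870dd7070dd2070dd1870dd1070dd0870dcb870dcb070c58070c57070c52070c4c070c4b070c46070c40070c3f070c0a070c09870c04070c03870c03070bfe070bfd870bfd070bfc870bf8070bf7870bf7070bf6870bf2070bf1870bf1070bf0870bc6070bbb070baf070bae070b310f0b30870b30070b2b8f0b2b070b2a870b2a070b298f0b25070b24870b240f0b23870b23070b1f8f0b1e8f0b1e070b1d870b1d070b1c8f0b18070b17870b170f0b138f0b128f0b078f0b068f0a37070a36870a360709e90709e88709e80709e78709e30709e28709e20709e18709e10709dc0709db8709db0709da8709d60709d58709d50709d48709d00709cf8709cf0709ce8708150708148708140708138708130708080708070708060707fc0707fb0707fa0707c70707c68707c60707c58707c50707c10707c08707c00707bf8707bf0707be8707ba8707ba070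7b98707b90707b88707b48707b40707b38707b30707b28707ae0707ad8707ad0707ac8707a78707a70707a68707a607077c0f077607077587076f87076f0f076a07076907075e0707340f072e8f07288707280707228707220707218f071c87071c07071b87071b0707160707158707150707148f071007070f8705f28705f18705f08705ec8705ec0705eb8705eb0705ea8705ea0705e68705e58705e48705e38705e08705e00705df8705df0705de8705de0705dd8705dd0705d98705d88705d38705d30705d28705d20705a48705a40705a38705a30705a28705a20705a187059e87059e07059d87059d07059c87059c07059b87059887059807059787059707059687059607059587059507059287059207059187059107059087059007058f87058f07058c07058b87058b07058a87058a07058587058507058487058407055487055387054e87054e07054d87054787054207054187054107053b8705068705060705008705000704f98704f90704f40704f38704f30704ee0704ed8703cf0703ce0703c20703c107038187038107038087038007037b87037b07037a87037a0703798f037487037407037387037307036d87036d07036c8f = true := by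
  decide +kernel

theorem w9_3 (hf : Rule f) {k c n y : ℕ} (W : W9H f k c n) (Z : W9T f k c n) (hy : y + 2 * k = 2 * n + 3) : ¬ f (6 * k + 9) (c) (2 * n + 1) y := by
  intro hg
  have hk := W.H.T.hk
  have hc := W.H.T.hc
  have h4 := W.H.T.h4
  have hb := W.H.T.hb
  have hN := W.H.T.hN2
  have hg' : ∀ M R x z : ℕ, M = 6 * k + 9 → R = c → x = 2 * n + 1 → z = y → f M R x z := by
    intro M R x z e1 e2 e3 e4
    rw [e1, e2, e3, e4]
    exact hg
  clear hg
  obtain ⟨a0, ha0⟩ : ∃ z, z + 1 = 6 * k := ⟨6 * k - 1, by omega⟩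
  obtain ⟨b0, hb0⟩ : ∃ z, z + 5 = c := ⟨c - 5, by omega⟩
  obtain ⟨x0, hx0⟩ : ∃ z, z + 4 = 2 * n := ⟨2 * n - 4, by omega⟩
  obtain ⟨y0, hy0⟩ : ∃ z, z + 2 * k + 2 = 2 * n := ⟨2 * n - 2 - 2 * k, by omega⟩
  refine check_sound hf (a0 := a0) (b0 := b0) (x0 := x0) (y0 := y0) w9_3_chk
    ⟨fun h => absurd h (by decide), fun h => absurd h (by decide), fun h => absurd h (by decide), by omega, by omega,
      by omega, by omega⟩ ?_ ?_
  · intro j m p q hr h
    obtain ⟨-, -, -, -, hp1, hp2, hq1, hq2⟩ := hr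
    replace h := of_decide_eq_true h
    rcases h with h | h | h | h | h | h | h | h | h | h | h
    · obtain ⟨rfl, rfl, h⟩ := h
      exact (WrapC.v1 W.d0 (by omega) (by omega) (by omega) (by omega) (by omega) (by omega) (by omega) (by omega)).mpr (by omega)
    · obtain ⟨rfl, rfl, h⟩ := h
      exact (WrapC.v1 W.H.a2 (by omega) (by omega) (by omega) (by omega) (by omega) (by omega) (by omega) (by omega)).mpr (by omega)
    · obtain ⟨rfl, rfl, h⟩ := h
      exact (WrapC.v2 W.H.a2 (by omega) (by omega) (by omega) (by omega) (by omega) (by omega) (by omega)).mpr (by omega)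
    · obtain ⟨rfl, rfl, h⟩ := h
      exact (WrapC.v2 W.H.a6 (by omega) (by omega) (by omega) (by omega) (by omega) (by omega) (by omega)).mpr (by omega)
    · obtain ⟨rfl, rfl, h⟩ := h
      exact (NW.w0v W.H.a10 (by omega) (by omega) (by omega) (by omega) (by omega) (by omega) (by omega)).mpr (by omega)
    · obtain ⟨rfl, rfl, h⟩ := h
      exact (NW.w2v W.H.b10 (by omega) (by omega) (by omega) (by omega) (by omega) (by omega) (by omega)).mpr (by omega)
    · obtain ⟨rfl, rfl, h⟩ := h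
      exact (NW.w3v W.H.b8 (by omega) (by omega) (by omega) (by omega) (by omega) (by omega) (by omega) (by omega)).mpr (by omega)
    · obtain ⟨rfl, rfl, h⟩ := h
      exact (WrapC.v4 W.H.b6 (by omega) (by omega) (by omega) (by omega) (by omega) (by omega) (by omega)).mpr (by omega)
    · obtain ⟨rfl, rfl, h⟩ := h
      exact (WrapC.v2 W.p4 (by omega) (by omega) (by omega) (by omega) (by omega) (by omega) (by omega)).mpr (by omega)
    · obtain ⟨rfl, rfl, h⟩ := h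
      exact Z.tl _ _ _ _ (by omega) (by omega) (by omega) (by omega) (by omega) (by omega)
    · obtain ⟨rfl, rfl, rfl, rfl⟩ := h
      exact hg' _ _ _ _ (by omega) (by omega) (by omega) (by omega)
  · intro j m p q hr h
    obtain ⟨-, -, -, -, hp1, hp2, hq1, hq2⟩ := hr
    replace h := of_decide_eq_true h
    rcases h with h | h | h | h | h | h | h | h | h | h | h | h | h | h | h | h | h | h | h | h | h | h | h | h | h | h | h | h | h | h | h | h | h | h
    · obtain ⟨rfl, rfl, h⟩ := h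
      exact mt (WrapC.v1 W.d0 (by omega) (by omega) (by omega) (by omega) (by omega) (by omega) (by omega) (by omega)).mp (by omega)
    · obtain ⟨rfl, rfl, h⟩ := h
      exact mt (WrapC.v1 W.H.a2 (by omega) (by omega) (by omega) (by omega) (by omega) (by omega) (by omega) (by omega)).mp (by omega)
    · obtain ⟨rfl, rfl, h⟩ := h
      exact mt (WrapC.v2 W.H.a2 (by omega) (by omega) (by omega) (by omega) (by omega) (by omega) (by omega)).mp (by omega)
    · obtain ⟨rfl, rfl, h⟩ := h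
      exact mt (WrapC.v2 W.H.a6 (by omega) (by omega) (by omega) (by omega) (by omega) (by omega) (by omega)).mp (by omega)
    · obtain ⟨rfl, rfl, h⟩ := h
      exact mt (NW.w0v W.H.a10 (by omega) (by omega) (by omega) (by omega) (by omega) (by omega) (by omega)).mp (by omega)
    · obtain ⟨rfl, rfl, h⟩ := h
      exact mt (NW.w2v W.H.b10 (by omega) (by omega) (by omega) (by omega) (by omega) (by omega) (by omega)).mp (by omega)
    · obtain ⟨rfl, rfl, h⟩ := h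
      exact mt (NW.w3v W.H.b8 (by omega) (by omega) (by omega) (by omega) (by omega) (by omega) (by omega) (by omega)).mp (by omega)
    · obtain ⟨rfl, rfl, h⟩ := h
      exact mt (WrapC.v4 W.H.b6 (by omega) (by omega) (by omega) (by omega) (by omega) (by omega) (by omega)).mp (by omega)
    · obtain ⟨rfl, rfl, h⟩ := h
      exact mt (WrapC.v2 W.p4 (by omega) (by omega) (by omega) (by omega) (by omega) (by omega) (by omega)).mp (by omega)
    · obtain ⟨rfl, rfl, h⟩ := h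
      exact NW.rm1i hf W.H.T (p := 0) (j := 0) (by omega) (by omega) (by omega) (by omega) (by omega) (by omega) (by omega)
    · obtain ⟨rfl, rfl, h⟩ := h
      exact NW.rm1i hf W.H.T (p := 0) (j := 3) (by omega) (by omega) (by omega) (by omega) (by omega) (by omega) (by omega)
    · obtain ⟨rfl, rfl, h⟩ := h
      exact NHT.pIn hf W.H.T (t := 3) (j := 2) (by omega) (by omega) (by omega) (by omega) (by omega) (by omega) (by omega)
    · obtain ⟨rfl, rfl, h⟩ := h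
      exact NHT.pIn hf W.H.T (t := 4) (j := 1) (by omega) (by omega) (by omega) (by omega) (by omega) (by omega) (by omega)
    · obtain ⟨rfl, rfl, h⟩ := h
      exact NHT.p0 hf W.T' (j := 0) (by omega) (by omega) (by omega) (by omega) (by omega) (by omega)
    · obtain ⟨rfl, rfl⟩ := h
      exact W.H.eo _ _ _ _ (by omega) (by omega) (by omega) (by omega) (by omega) (by omega) (by omega)
    · obtain ⟨rfl, rfl, h⟩ := h
      exact W.H.eo _ _ _ _ (by omega) (by omega) (by omega) (by omega) (by omega) (by omega) (by omega)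
    · obtain ⟨rfl, rfl⟩ := h
      exact W.H.eo _ _ _ _ (by omega) (by omega) (by omega) (by omega) (by omega) (by omega) (by omega)
    · obtain ⟨rfl, rfl, h⟩ := h
      exact W.H.eo _ _ _ _ (by omega) (by omega) (by omega) (by omega) (by omega) (by omega) (by omega)
    · obtain ⟨rfl, rfl, h⟩ := h
      exact W.P5' hf (by omega) (by omega) (by omega) (by omega) (by omega) (by omega) (by omega)
    · obtain ⟨rfl, rfl, h⟩ := h
      exact W.P7 hf (by omega) (by omega) (by omega) (by omega) (by omega) (by omega) (by omega)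
    · obtain ⟨rfl, rfl, h⟩ := h
      exact W.y4 hf (by omega) (by omega) (by omega) (by omega) (by omega) (by omega)
    · obtain ⟨rfl, rfl, h⟩ := h
      exact W.y4' hf (by omega) (by omega) (by omega) (by omega) (by omega) (by omega)
    · obtain ⟨rfl, rfl, h⟩ := h
      exact W.x6 hf (by omega) (by omega) (by omega) (by omega) (by omega) (by omega)
    · obtain ⟨rfl, rfl, h⟩ := h
      exact W.f2 (by omega) (by omega) (by omega) (by omega) (by omega) (by omega)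
    · obtain ⟨rfl, rfl, h⟩ := h
      exact W.z2 (s := 1) (by omega) (by omega) (by omega) (by omega) (by omega) (by omega) (by omega)
    · obtain ⟨rfl, rfl, h⟩ := h
      exact W.z2 (s := 2) (by omega) (by omega) (by omega) (by omega) (by omega) (by omega) (by omega)
    · obtain ⟨rfl, rfl, h⟩ := h
      exact W.zr (p := 2) (by omega) (by omega) (by omega) (by omega) (by omega) (by omega) (by omega) (by omega) (by omega)
    · obtain ⟨rfl, rfl, h⟩ := h
      exact W.zr (p := 3) (by omega) (by omega) (by omega) (by omega) (by omega) (by omega) (by omega) (by omega) (by omega)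
    · obtain ⟨rfl, rfl, h⟩ := h
      exact W.zr (p := 4) (by omega) (by omega) (by omega) (by omega) (by omega) (by omega) (by omega) (by omega) (by omega)
    · obtain ⟨rfl, rfl, h⟩ := h
      exact W.zr (p := 5) (by omega) (by omega) (by omega) (by omega) (by omega) (by omega) (by omega) (by omega) (by omega)
    · obtain ⟨rfl, rfl, h⟩ := h
      exact W.zr (p := 6) (by omega) (by omega) (by omega) (by omega) (by omega) (by omega) (by omega) (by omega) (by omega)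
    · obtain ⟨rfl, rfl, h⟩ := h
      exact W.zr (p := 7) (by omega) (by omega) (by omega) (by omega) (by omega) (by omega) (by omega) (by omega) (by omega)
    · obtain ⟨rfl, rfl, h⟩ := h
      exact W.z0 (by omega) (by omega) (by omega) (by omega) (by omega) (by omega) (by omega)
    · obtain ⟨rfl, rfl, h⟩ := h
      exact W.p92 hf (by omega) (by omega) (by omega) (by omega) (by omega)

end Pool.Agent.SNT.W9
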