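import Pool.Agent.SNT.W9D

set_option autoImplicit false
set_option synthInstance.maxSize 100000
set_option synthInstance.maxHeartbeats 4000000

/-! The cell `y + 2 k = 2 n + 6` of `Wall9`. -/

namespace Pool.Agent.SNT.W9

open Pool.Agent.SNT Pool.Agent.SNT.Loc Pool.Agent.SNT.LW Pool.Agent.SNT.NHZ

variable {f : ℕ → ℕ → ℕ → ℕ → Prop}

theorem w9_6_chk : check 11 7 13 12 1 1 0 0 0
    (fun j n p q => decide ((j = 1 ∧ n = 4 ∧ ((3 ≤ p) ∨ (p ≤ q + 2 ∧ 2 ≤ p)) ∧ ((p + q) % 2 = 0 ∧ q + 2 ≤ p ∧ (p + q) % 4 = 0))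
      ∨ (j = 3 ∧ n = 2 ∧ ((p + q) % 2 = 0 ∧ q + 2 ≤ p ∧ (p + q) % 4 = 0))
      ∨ (j = 3 ∧ n = 3 ∧ q + 2 ≤ p ∧ (((p + q) % 2 = 1 ∧ p ≤ q + 1 ∧ p % 2 = 0) ∨ ((p + q) % 2 = 1 ∧ q + 1 ≤ p ∧ (p + q + 1) % 4 = 0)))
      ∨ (j = 7 ∧ n = 3 ∧ q + 4 ≤ p ∧ (((p + q) % 2 = 1 ∧ p ≤ q + 3 ∧ p % 2 = 0) ∨ ((p + q) % 2 = 1 ∧ q + 3 ≤ p ∧ (p + q + 1) % 4 = 2)))
      ∨ (j = 11 ∧ n = 5 ∧ ((7 ≤ p ∧ p ≤ q + 1) ∨ (9 ≤ p)) ∧ (((p + q) % 2 = 1 ∧ p ≤ q + 3 ∧ p % 2 = 1) ∨ ((p + q) % 2 = 1 ∧ q + 3 ≤ p ∧ (p + q + 3) % 4 = 2)))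
      ∨ (j = 11 ∧ n = 3 ∧ ((p ≤ q + 3 ∧ 2 ≤ q) ∨ (q + 4 ≤ p)) ∧ (((p + q) % 2 = 1 ∧ p ≤ q + 3 ∧ p % 2 = 0) ∨ ((p + q) % 2 = 1 ∧ q + 3 ≤ p ∧ (p + q + 1) % 4 = 2)))
      ∨ (j = 9 ∧ n = 2 ∧ ((p ≤ q + 3) ∨ (2 ≤ p)) ∧ ((p + q) % 2 = 0 ∧ q + 4 ≤ p ∧ (p + q + 2) % 4 = 2))
      ∨ (j = 7 ∧ n = 1 ∧ (((p + q) % 2 = 1 ∧ p ≤ q + 3 ∧ p % 2 = 1) ∨ ((p + q) % 2 = 1 ∧ q + 3 ≤ p ∧ (p + q + 3) % 4 = 2)))
      ∨ (j = 5 ∧ n = 1 ∧ ((5 ≤ p) ∨ (q + 2 ≤ p) ∨ (p ≤ q + 1 ∧ 4 ≤ q)) ∧ (((p + q) % 2 = 1 ∧ p ≤ q + 1 ∧ p % 2 = 0) ∨ ((p + q) % 2 = 1 ∧ q + 1 ≤ p ∧ (p + q + 1) % 4 = 0)))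
      ∨ (j = 10 ∧ n = 5 ∧ p = 5 ∧ q = 8)))
    (fun j n p q => decide ((j = 1 ∧ n = 4 ∧ ((3 ≤ p) ∨ (p ≤ q + 2 ∧ 2 ≤ p)) ∧ ¬ ((p + q) % 2 = 0 ∧ q + 2 ≤ p ∧ (p + q) % 4 = 0))
      ∨ (j = 3 ∧ n = 2 ∧ ¬ ((p + q) % 2 = 0 ∧ q + 2 ≤ p ∧ (p + q) % 4 = 0))
      ∨ (j = 3 ∧ n = 3 ∧ q + 2 ≤ p ∧ ¬ (((p + q) % 2 = 1 ∧ p ≤ q + 1 ∧ p % 2 = 0) ∨ ((p + q) % 2 = 1 ∧ q + 1 ≤ p ∧ (p + q + 1) % 4 = 0)))
      ∨ (j = 7 ∧ n = 3 ∧ q + 4 ≤ p ∧ ¬ (((p + q) % 2 = 1 ∧ p ≤ q + 3 ∧ p % 2 = 0) ∨ ((p + q) % 2 = 1 ∧ q + 3 ≤ p ∧ (p + q + 1) % 4 = 2)))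
      ∨ (j = 11 ∧ n = 5 ∧ ((7 ≤ p ∧ p ≤ q + 1) ∨ (9 ≤ p)) ∧ ¬ (((p + q) % 2 = 1 ∧ p ≤ q + 3 ∧ p % 2 = 1) ∨ ((p + q) % 2 = 1 ∧ q + 3 ≤ p ∧ (p + q + 3) % 4 = 2)))
      ∨ (j = 11 ∧ n = 3 ∧ ((p ≤ q + 3 ∧ 2 ≤ q) ∨ (q + 4 ≤ p)) ∧ ¬ (((p + q) % 2 = 1 ∧ p ≤ q + 3 ∧ p % 2 = 0) ∨ ((p + q) % 2 = 1 ∧ q + 3 ≤ p ∧ (p + q + 1) % 4 = 2)))
      ∨ (j = 9 ∧ n = 2 ∧ ((p ≤ q + 3) ∨ (2 ≤ p)) ∧ ¬ ((p + q) % 2 = 0 ∧ q + 4 ≤ p ∧ (p + q + 2) % 4 = 2))
      ∨ (j = 7 ∧ n = 1 ∧ ¬ (((p + q) % 2 = 1 ∧ p ≤ q + 3 ∧ p % 2 = 1) ∨ ((p + q) % 2 = 1 ∧ q + 3 ≤ p ∧ (p + q + 3) % 4 = 2)))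
      ∨ (j = 5 ∧ n = 1 ∧ ((5 ≤ p) ∨ (q + 2 ≤ p) ∨ (p ≤ q + 1 ∧ 4 ≤ q)) ∧ ¬ (((p + q) % 2 = 1 ∧ p ≤ q + 1 ∧ p % 2 = 0) ∨ ((p + q) % 2 = 1 ∧ q + 1 ≤ p ∧ (p + q + 1) % 4 = 0)))
      ∨ (j = 2 ∧ n = 1 ∧ p + 2 ≤ q)
      ∨ (j = 4 ∧ n = 2 ∧ p + 2 ≤ q)
      ∨ (j = 1 ∧ n = 2 ∧ p + 4 ≤ q)
      ∨ (j = 2 ∧ n = 1 ∧ (p % 2 = 1 ∨ q % 2 = 1))
      ∨ (j = 2 ∧ n = 2)
      ∨ (j = 2 ∧ n = 3 ∧ (p % 2 = 1 ∨ q % 2 = 1))
      ∨ (j = 2 ∧ n = 4)
      ∨ (j = 2 ∧ n = 5 ∧ (p % 2 = 1 ∨ q % 2 = 1))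
      ∨ (j = 2 ∧ n = 5 ∧ p ≤ 5 ∧ 5 ≤ q)
      ∨ (j = 6 ∧ n = 5 ∧ 3 ≤ p ∧ p ≤ 5 ∧ 7 ≤ q ∧ q ≤ 9)
      ∨ (j = 6 ∧ n = 5 ∧ 2 ≤ p ∧ p ≤ 2 ∧ 9 ≤ q ∧ q ≤ 9)
      ∨ (j = 8 ∧ n = 5 ∧ 4 ≤ p ∧ p ≤ 5 ∧ 8 ≤ q ∧ q ≤ 9)
      ∨ (j = 5 ∧ n = 5 ∧ 5 ≤ p ∧ p ≤ 5 ∧ 8 ≤ q ∧ q % 2 = 0)
      ∨ (j = 5 ∧ n = 5 ∧ 3 ≤ p ∧ p ≤ 3 ∧ 8 ≤ q ∧ q ≤ 8 ∧ q % 2 = 0)
      ∨ (j = 7 ∧ n = 5 ∧ 4 ≤ p ∧ p ≤ 4 ∧ 9 ≤ q ∧ q % 2 = 1)
      ∨ (j = 3 ∧ n = 5 ∧ 6 ≤ p ∧ p ≤ 6 ∧ 7 ≤ q ∧ q % 2 = 1)
      ∨ (j = 8 ∧ n = 5 ∧ 6 ≤ p ∧ p ≤ 6 ∧ 8 ≤ q)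
      ∨ (j = 3 ∧ n = 4 ∧ p ≤ 6 ∧ 5 ≤ q ∧ p ≤ q + 0)
      ∨ (j = 4 ∧ n = 4 ∧ p ≤ 6 ∧ 5 ≤ q ∧ p + 1 ≤ q)
      ∨ (j = 5 ∧ n = 4 ∧ p ≤ 6 ∧ 5 ≤ q ∧ p + 1 ≤ q)
      ∨ (j = 6 ∧ n = 4 ∧ 2 ≤ p ∧ p ≤ 6 ∧ 5 ≤ q ∧ p + 2 ≤ q)
      ∨ (j = 7 ∧ n = 4 ∧ 2 ≤ p ∧ p ≤ 6 ∧ 5 ≤ q ∧ p + 2 ≤ q)
      ∨ (j = 9 ∧ n = 4 ∧ 3 ≤ p ∧ p ≤ 6 ∧ 5 ≤ q ∧ p + 3 ≤ q)
      ∨ (j = 10 ∧ n = 4 ∧ 4 ≤ p ∧ p ≤ 6 ∧ 5 ≤ q ∧ p + 4 ≤ q)
      ∨ (j = 1 ∧ n = 4 ∧ p ≤ 5 ∧ 6 ≤ q ∧ p + 1 ≤ q)))
    1058
    0xc51030e7900109bca0e6d00108fca07fa830a1c800c455a08008008010a07fa830a1c800c455a08000008069a0bc1830c0f800e7fe20a35000a350107c40007c4010769800769810bc1830c0f800e7fe20a35000a350107be0007be010763800763840bc1030c0f000c0f0412c3830e7f000e7f0412c4030e7f800e7f840bc1030e31000e31040de3830e31800e31840c03030c09000c090412c3830e79000e79040806800806840801000801040c450307fa8007fa840e67000e670412b18014da5a0c51030e79000e6d00109bca1095da12b78012b78412c4030e79800e79840c03030e2b000e2b0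407768309e70009e7040c51030e73000e730407be8309e08009e084099283054800054804098b83098c00098c040dd7030992800992840dd703098c80098c841221030dd6800dd684121b030dd0800dd0840ddd030bae800bae840d8e030bba800bba8412ca03109b80109b8412d60310a78010a78412870310b38010b384128703106580106584101783106600106604101183106000106004101183105f80105f840bd3800bd3810b79000d9b421233830d9b000d9b040de8830de9000de90412870312d58012d58417208312d60012d6041220830d88000d88040d8e030ddc800ddc841005030d8e000d8e040bc0830de2800de284122d83105a00105a040bc1030de3000de304077683099880099884122d83105980105984099883099900099904122d830de3800de3840ddd830993000993040ddd830e2b800e2b840dd7030e25000e2504100503105300105304122103104d00104d040ff9031047001047041227830ddd000ddd041005831053801053840dd783098d00098d041221830dd7000dd7041227830ddd800ddd841006031054001054040fff83104d80104d8407158309378009378417078312bd0012bd04170d8312c30012c30417198312cf8012cf84171a8312d00012d00412340312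8200128204123983128800128804122103126f00126f0417080312bd8012bd84170e0312c38012c384170d8312750012750412338312818012818417138312c98012c984122d83127b80127b84170e8312c40012c40417148312ca0012ca04122783127580127584122d83127c00127c0412278310060010060412280312760012760407698307b80007b80407640307b20007b204122183126f80126f84122683100500100504080c830a2e800a2e8407c40307c48007c484165f03121480121484165e83121a00121a04165f03121a80121a84166503143680143684166503149100149104071583093d80093d84071603093e00093e040806830a28800a28841222030dd7800dd784122203127000127004121b830dd1000dd104121c030dd1800dd184166683121c00121c0416608312160012160414438312150012150414da03108f80108f84121b83126980126984166003121580121584121603126400126404121583126380126384121c03126a00126a04165f83121b00121b04166003121b80121b84072f83095180095184072283094a80094a84072303094b00094b04072283094480094484093883093e80093e84094583094b80094b8417198312810012810414628314b08014b08414438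314918014918416600314920014920417138314f20014f204080d030a2f000a2f040c46030a1d000a1d040e68830a1e000a1e041090830e62000e62040c52030a29000a29040801030a23000a230407fb830a1d800a1d84080d830a2f800a2f840801830a23800a23840807830a29800a29840e74830a2a000a2a04080e030a30000a30040802030a24000a24040e6e030c45000c4504071c0306c18006c184166603143780143784071d0306c28006c28407290306ce8006ce84072a0306cf8006cf8407360306db8006db8407428304c60004c60407358304b90004b90407288304ac0004ac04071b83049f00049f0405e38305e40005e404144a001672521456001449000b7e800b718014af8014a280167e521671520da0c20d93c216d1c216c4c21455001448000fc2800fb58006e68006d980145a80144d80167742166a4211e4c211d7c2073b3a072e3a194300194200193a80193700193600193500192b00192a0019290018a080189f80189480189380189280188880188780188680187c80187b80187a8016fc00145a81144d81141280140d0014058014000013f300101d001010001003000f82000f7a800f76000f75000f6d800f6a000f69000f68000f60800f5e000f5d000f5c000f5b000f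52000f51000f50000b31000b2b800b29800b24000b1f800b1e800b1c800b17000b13800b12800b0680078900077c00076f00074880074100073b80073400072e80072180071480036c8019430f19420f193a8f19370f19360f19350f192b0f192a0f19290f18a08f189f8f18948f18938f18928f18888f18878f18868f187c8f187b8f187a8f16fc0f14f80714f70714ec0714eb0714e00714df0714d407148c07148607148587145c07145b07145a07145007144f07144e07144d0714440714430714420714380714370714360714148714140714128f140e87140e07140d87140d0f140c87140c0714080714078714070714068714060714058f14020714018714010714008714000f13ff8713ff0713fc0713fb8713fb0713fa8713fa0713f98713f90713f68713f60713f58713f50713f48713f40713f38713f30f13f08713f00713ef8713ef0713ee8713ee0713ea8713ea0713e98713e90713e88713e80712be0712b80712b20710b40710a807109c07109b07109087109007108f07104e07104787104287104207104187104107103c87103c07103b87103b07101d0f10170710168710108710100f100c07100b0710030f1000070fff070ffe070ff4070ff3070f820f0f7a8f0f760f0f750f0f748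70f74070f6e870f6e070f6d8f0f6a0f0f690f0f680f0f67870f67070f61870f61070f608f0f5e0f0f5d0f0f5c0f0f5b0f0f520f0f510f0f500f0e74870e74070e73870e6e870e6e070e6d870e68870e68070e67870e62870e26870e26070e25870e20870e20070e1f870e1f070e1a870e1a070e19870e19070e14870e14070c57070c52070c4c070c4b070c46070c40070c3f070c09870c04870c04070c03870c03070bfe870bfe070bfd870bfd070bfc870bf8870bf8070bf7870bf7070bf6870bf2870bf2070bf1870bf1070bf0870bd3070bc6070bbb070bba070baf070b310f0b30870b30070b2b8f0b2b070b2a870b2a070b298f0b25070b24870b240f0b23870b23070b1f8f0b1e8f0b1e070b1d870b1d070b1c8f0b18070b17870b170f0b138f0b128f0b068f09e20709e18709e10709dc0709db8709db0709da8709d60709d58709d50709d48709d00709cf8709cf0709ce87094587093f87093f0709388709328709320708130708080708070708060707fc0707fb0707fa0707c50707c00707bf8707bf0707be8707ba0707b98707b90707b88707b40707b38707b30707b28707ae0707ad8707ad0707ac8707a78707a70707a68707890f077c0f077607077587076f87076f0f076a0707690707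5e0707488f07428707420707410f073c87073c07073b8f073b07073a8707360707358707350707348707340f073007072f87072f07072e8f072e07072d87072a0707298707290707288707280707278707240707238707230707228707220707218f071d87071d07071c87071c07071b87071b0707170707168707160707158707150707148f071087071007070f87070f0706f40706e80706e70706dc0706db0706da0706cf0706ce0706cd0706c20706c10705ec0705eb8705eb0705ea8705ea0705e60705e58705e50705e48705e38705e00705df8705df0705de8705de0705dd8705dd0705da0705d98705d90705d88705d38705d30705d28705d20705a20705a187059e07059d87059d07059c87059c07059b87059807059787059707059687059607059587059507059207059187059107059087059007058f87058f07058c07058b87058b07058a87058a07058587058507058487058407055487055387054e87054e07054d87054887054787054207054187054107053b87052087052007051a87051a07051907051887051407051387051307051287050e07050d87050d07050c07050b8705080705078705070705068705060705058705020705018705010705008705000704fb0704fa8704fa0704f98704f90704f50704f48704f40704f38704f30704ee0704ed8704ed0704d28704cc8704cc0704cb0704ca8704c58704c48704c00704bf8704bf0704be0704bd8704ba0704b98704b88704b78704b40704b38704b30704b28704b20704ad0704ac8704ab8704a70704a68704a60704a58704a50704a007049f8703c107037387037307036d87036d07036c8f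 = true := by
  decide +kernel

theorem w9_6 (hf : Rule f) {k c n y : ℕ} (W : W9H f k c n) (hy : y + 2 * k = 2 * n + 6) : ¬ f (6 * k + 9) (c) (2 * n + 1) y := by
  intro hg
  have hk := W.H.T.hk
  have hc := W.H.T.hc
  have h4 := W.H.T.h4
  have hb := W.H.T.hb
  have hN := W.H.T.hN2
  have hg' : ∀ M R x z : ℕ, M = 6 * k + 9 → R = c → x = 2 * n + 1 → z = y → f M R x z := by
    intro M R x z e1 e2 e3 e4
    rw [e1, e2, e3, e4]
    exact hg
  clear hg
  obtain ⟨a0, ha0⟩ : ∃ z, z + 1 = 6 * k := ⟨6 * k - 1, by omega⟩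
  obtain ⟨b0, hb0⟩ : ∃ z, z + 5 = c := ⟨c - 5, by omega⟩
  obtain ⟨x0, hx0⟩ : ∃ z, z + 4 = 2 * n := ⟨2 * n - 4, by omega⟩
  obtain ⟨y0, hy0⟩ : ∃ z, z + 2 * k + 2 = 2 * n := ⟨2 * n - 2 - 2 * k, by omega⟩
  refine check_sound hf (a0 := a0) (b0 := b0) (x0 := x0) (y0 := y0) w9_6_chk
    ⟨fun h => absurd h (by decide), fun h => absurd h (by decide), fun h => absurd h (by decide), by omega, by omega,
      by omega, by omega⟩ ?_ ?_
  · intro j m p q hr h
    obtain ⟨-, -, -, -, hp1, hp2, hq1, hq2⟩ := hr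
    replace h := of_decide_eq_true h
    rcases h with h | h | h | h | h | h | h | h | h | h
    · obtain ⟨rfl, rfl, h⟩ := h
      exact (WrapC.v1 W.d0 (by omega) (by omega) (by omega) (by omega) (by omega) (by omega) (by omega) (by omega)).mpr (by omega)
    · obtain ⟨rfl, rfl, h⟩ := h
      exact (WrapC.v1 W.H.a2 (by omega) (by omega) (by omega) (by omega) (by omega) (by omega) (by omega) (by omega)).mpr (by omega)
    · obtain ⟨rfl, rfl, h⟩ := h
      exact (WrapC.v2 W.H.a2 (by omega) (by omega) (by omega) (by omega) (by omega) (by omega) (by omega)).mpr (by omega)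
    · obtain ⟨rfl, rfl, h⟩ := h
      exact (WrapC.v2 W.H.a6 (by omega) (by omega) (by omega) (by omega) (by omega) (by omega) (by omega)).mpr (by omega)
    · obtain ⟨rfl, rfl, h⟩ := h
      exact (NW.w0v W.H.a10 (by omega) (by omega) (by omega) (by omega) (by omega) (by omega) (by omega)).mpr (by omega)
    · obtain ⟨rfl, rfl, h⟩ := h
      exact (NW.w2v W.H.b10 (by omega) (by omega) (by omega) (by omega) (by omega) (by omega) (by omega)).mpr (by omega)
    · obtain ⟨rfl, rfl, h⟩ := h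
      exact (NW.w3v W.H.b8 (by omega) (by omega) (by omega) (by omega) (by omega) (by omega) (by omega) (by omega)).mpr (by omega)
    · obtain ⟨rfl, rfl, h⟩ := h
      exact (WrapC.v4 W.H.b6 (by omega) (by omega) (by omega) (by omega) (by omega) (by omega) (by omega)).mpr (by omega)
    · obtain ⟨rfl, rfl, h⟩ := h
      exact (WrapC.v2 W.p4 (by omega) (by omega) (by omega) (by omega) (by omega) (by omega) (by omega)).mpr (by omega)
    · obtain ⟨rfl, rfl, rfl, rfl⟩ := h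
      exact hg' _ _ _ _ (by omega) (by omega) (by omega) (by omega)
  · intro j m p q hr h
    obtain ⟨-, -, -, -, hp1, hp2, hq1, hq2⟩ := hr
    replace h := of_decide_eq_true h
    rcases h with h | h | h | h | h | h | h | h | h | h | h | h | h | h | h | h | h | h | h | h | h | h | h | h | h | h | h | h | h | h | h | h | h | h
    · obtain ⟨rfl, rfl, h⟩ := h
      exact mt (WrapC.v1 W.d0 (by omega) (by omega) (by omega) (by omega) (by omega) (by omega) (by omega) (by omega)).mp (by omega)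
    · obtain ⟨rfl, rfl, h⟩ := h
      exact mt (WrapC.v1 W.H.a2 (by omega) (by omega) (by omega) (by omega) (by omega) (by omega) (by omega) (by omega)).mp (by omega)
    · obtain ⟨rfl, rfl, h⟩ := h
      exact mt (WrapC.v2 W.H.a2 (by omega) (by omega) (by omega) (by omega) (by omega) (by omega) (by omega)).mp (by omega)
    · obtain ⟨rfl, rfl, h⟩ := h
      exact mt (WrapC.v2 W.H.a6 (by omega) (by omega) (by omega) (by omega) (by omega) (by omega) (by omega)).mp (by omega)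
    · obtain ⟨rfl, rfl, h⟩ := h
      exact mt (NW.w0v W.H.a10 (by omega) (by omega) (by omega) (by omega) (by omega) (by omega) (by omega)).mp (by omega)
    · obtain ⟨rfl, rfl, h⟩ := h
      exact mt (NW.w2v W.H.b10 (by omega) (by omega) (by omega) (by omega) (by omega) (by omega) (by omega)).mp (by omega)
    · obtain ⟨rfl, rfl, h⟩ := h
      exact mt (NW.w3v W.H.b8 (by omega) (by omega) (by omega) (by omega) (by omega) (by omega) (by omega) (by omega)).mp (by omega)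
    · obtain ⟨rfl, rfl, h⟩ := h
      exact mt (WrapC.v4 W.H.b6 (by omega) (by omega) (by omega) (by omega) (by omega) (by omega) (by omega)).mp (by omega)
    · obtain ⟨rfl, rfl, h⟩ := h
      exact mt (WrapC.v2 W.p4 (by omega) (by omega) (by omega) (by omega) (by omega) (by omega) (by omega)).mp (by omega)
    · obtain ⟨rfl, rfl, h⟩ := h
      exact NHT.pIn hf W.H.T (t := 3) (j := 2) (by omega) (by omega) (by omega) (by omega) (by omega) (by omega) (by omega)
    · obtain ⟨rfl, rfl, h⟩ := h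
      exact NHT.pIn hf W.H.T (t := 4) (j := 2) (by omega) (by omega) (by omega) (by omega) (by omega) (by omega) (by omega)
    · obtain ⟨rfl, rfl, h⟩ := h
      exact NW.r1 hf W.T' (p := 0) (j := 4) (by omega) (by omega) (by omega) (by omega) (by omega) (by omega) (by omega)
    · obtain ⟨rfl, rfl, h⟩ := h
      exact W.H.eo _ _ _ _ (by omega) (by omega) (by omega) (by omega) (by omega) (by omega) (by omega)
    · obtain ⟨rfl, rfl⟩ := h
      exact W.H.eo _ _ _ _ (by omega) (by omega) (by omega) (by omega) (by omega) (by omega) (by omega)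
    · obtain ⟨rfl, rfl, h⟩ := h
      exact W.H.eo _ _ _ _ (by omega) (by omega) (by omega) (by omega) (by omega) (by omega) (by omega)
    · obtain ⟨rfl, rfl⟩ := h
      exact W.H.eo _ _ _ _ (by omega) (by omega) (by omega) (by omega) (by omega) (by omega) (by omega)
    · obtain ⟨rfl, rfl, h⟩ := h
      exact W.H.eo _ _ _ _ (by omega) (by omega) (by omega) (by omega) (by omega) (by omega) (by omega)
    · obtain ⟨rfl, rfl, h⟩ := h
      exact W.P1 hf (by omega) (by omega) (by omega) (by omega) (by omega) (by omega)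
    · obtain ⟨rfl, rfl, h⟩ := h
      exact W.P5' hf (by omega) (by omega) (by omega) (by omega) (by omega) (by omega) (by omega)
    · obtain ⟨rfl, rfl, h⟩ := h
      exact W.P5' hf (by omega) (by omega) (by omega) (by omega) (by omega) (by omega) (by omega)
    · obtain ⟨rfl, rfl, h⟩ := h
      exact W.P7 hf (by omega) (by omega) (by omega) (by omega) (by omega) (by omega) (by omega)
    · obtain ⟨rfl, rfl, h⟩ := h
      exact W.y4 hf (by omega) (by omega) (by omega) (by omega) (by omega) (by omega)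
    · obtain ⟨rfl, rfl, h⟩ := h
      exact W.y4' hf (by omega) (by omega) (by omega) (by omega) (by omega) (by omega)
    · obtain ⟨rfl, rfl, h⟩ := h
      exact W.x6 hf (by omega) (by omega) (by omega) (by omega) (by omega) (by omega)
    · obtain ⟨rfl, rfl, h⟩ := h
      exact W.f2 (by omega) (by omega) (by omega) (by omega) (by omega) (by omega)
    · obtain ⟨rfl, rfl, h⟩ := h
      exact W.z2 (s := 3) (by omega) (by omega) (by omega) (by omega) (by omega) (by omega) (by omega)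
    · obtain ⟨rfl, rfl, h⟩ := h
      exact W.zr (p := 2) (by omega) (by omega) (by omega) (by omega) (by omega) (by omega) (by omega) (by omega) (by omega)
    · obtain ⟨rfl, rfl, h⟩ := h
      exact W.zr (p := 3) (by omega) (by omega) (by omega) (by omega) (by omega) (by omega) (by omega) (by omega) (by omega)
    · obtain ⟨rfl, rfl, h⟩ := h
      exact W.zr (p := 4) (by omega) (by omega) (by omega) (by omega) (by omega) (by omega) (by omega) (by omega) (by omega)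
    · obtain ⟨rfl, rfl, h⟩ := h
      exact W.zr (p := 5) (by omega) (by omega) (by omega) (by omega) (by omega) (by omega) (by omega) (by omega) (by omega)
    · obtain ⟨rfl, rfl, h⟩ := h
      exact W.zr (p := 6) (by omega) (by omega) (by omega) (by omega) (by omega) (by omega) (by omega) (by omega) (by omega)
    · obtain ⟨rfl, rfl, h⟩ := h
      exact W.zr (p := 8) (by omega) (by omega) (by omega) (by omega) (by omega) (by omega) (by omega) (by omega) (by omega)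
    · obtain ⟨rfl, rfl, h⟩ := h
      exact W.zr (p := 9) (by omega) (by omega) (by omega) (by omega) (by omega) (by omega) (by omega) (by omega) (by omega)
    · obtain ⟨rfl, rfl, h⟩ := h
      exact W.z0 (by omega) (by omega) (by omega) (by omega) (by omega) (by omega) (by omega)

end Pool.Agent.SNT.W9
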