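import Pool.Agent.SNT.LLW
import Pool.Agent.SNT.W9v3
import Pool.Agent.SNT.W9v5
import Pool.Agent.SNT.W9v6

set_option autoImplicit false

/-! The hypotheses of the windows at the left wall from the windows with the deep lead (`WL0`), and the cells
`v = 3, 5, 6` of `Wall9`. -/

namespace Pool.Agent.SNT.W9

open Pool.Agent.SNT.LRI Pool.Agent.SNT.LW Pool.Agent.SNT.NHZ

variable {f : ℕ → ℕ → ℕ → ℕ → Prop} {k c n : ℕ}

/-- the line of the tip -/
theorem W9T.of (hf : Rule f) (W : W9H f k c n) (hF2 : F2 f k c n) (hF6 : F6 f k c n)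
    (tip : f (6 * k + 10) c (2 * n + 1) (2 * n)) : W9T f k c n := by
  have hk := W.H.T.hk
  have hc := W.H.T.hc
  have h4 := W.H.T.h4
  have hb := W.H.T.hb
  have hN := W.H.T.hN2
  have p91 : ∀ y : ℕ, 2 * n + 7 ≤ y + 2 * k → y + 1 ≤ 2 * n → ¬ f (6 * k + 9) c (2 * n + 1) y :=
    fun y h1 h2 => W.H.p9_1 hf hF2 hF6 W.I h1 h2
  refine ⟨fun M R x y e1 e2 e3 h1 h2 h3 => ?_, fun M R x y e1 e2 e3 h1 h2 => ?_⟩
  · subst e1 e2 e3
    obtain ⟨c', rfl⟩ : ∃ c', R = c' + 1 := ⟨R - 1, by omega⟩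
    have line := l0_line hf (A := 6 * k + 10) (c := c') (n := n) (E := 2 * n + 8 - 2 * k)
      (by
        intro y a1 a2 a3
        exact (NW.w0v W.H.a10 (by omega) (by omega) (by omega) (by omega) (by omega) (by omega) (by omega)).mpr
          (by omega))
      (by
        intro x y a1 a2 a3
        exact mt (NW.w3v W.H.b10 (by omega) (by omega) (by omega) (by omega) (by omega) (by omega) (by omega)
          (by omega)).mp (by omega))
      (by
        intro x y a1 a2 a3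
        rw [show 6 * k + 10 - 1 = 6 * k + 9 by omega]
        rcases a1 with rfl | rfl
        · exact p91 y (by omega) (by omega)
        · exact W.p92 hf rfl rfl rfl (by omega) (by omega))
      (by
        intro x y a1 a2 a3
        rw [show 6 * k + 10 - 1 = 6 * k + 9 by omega]
        exact W.p9m hf rfl rfl a1 (by omega) (by omega))
      (by omega) (by omega) tip
    have := line (n - y / 2) (by omega)
    rwa [show 2 * n - 2 * (n - y / 2) = y by omega] at this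
  · subst e1 e2 e3
    exact p91 y h1 h2

end Pool.Agent.SNT.W9

namespace Pool.Agent.SNT

open Pool.Agent.SNT.LRI Pool.Agent.SNT.LW Pool.Agent.SNT.NHZ

variable {f : ℕ → ℕ → ℕ → ℕ → Prop} {k b m : ℕ}

/-- the window hypotheses in the cycle `j + 1`; the depth `5` is enough -/
theorem WL0.w9h (hf : Rule f) (W : WL0 f k b m 5) (j : ℕ) :
    W9.W9H f k (b + 4 * (j + 1) + 22) (D1.nn k m (j + 1)) := by
  have W1 := W.w (j + 1)
  have W0 := W.w j
  have hk := W1.hs.1
  have hm : 2 * (b + 4 * (j + 1)) ≤ m + (k + 2) * (j + 1) := W1.hs.2.2.2.2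
  have hb4 : 100 * k + 1000 ≤ b + 4 * (j + 1) := W1.hs.2.2.2.1
  have en : D1.nn k m (j + 1) = D1.nn k m j + (k + 2) := by unfold D1.nn; ring
  have en2 : D1.nn k m (j + 2) = D1.nn k m (j + 1) + (k + 2) := by unfold D1.nn; ring
  have hn1 : D1.nn k m (j + 1) = m + (k + 2) * (j + 1) + 9 + (k + 2) * 4 := rfl
  have T0 := NHT.of_stack W0.hs W0.S
  have hn0 : D1.nn k m j = m + (k + 2) * j + 9 + (k + 2) * 4 := rfl
  exact {
    H := W1.li hf
    T' := by
      have e1 : b + 4 * (j + 1) + 22 - 4 = b + 4 * j + 22 := by omega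
      have e2 : D1.nn k m (j + 1) - k - 2 = m + (k + 2) * j + 9 + (k + 2) * 4 := by omega
      rw [e1, e2]
      exact T0
    p4 := D1.cyc_of_eq W0.d4 (by omega) (by omega)
    d0 := D1.cyc_of_eq (W.l0 (j + 2)) (by omega) (by omega)
    I := W.inp hf j }

/-- the line of the tip in the cycle `j + 1` -/
theorem WL0.w9t (hf : Rule f) (W : WL0 f k b m 5) (j : ℕ)
    (tip : f (6 * k + 10) (b + 4 * (j + 1) + 22) (2 * D1.nn k m (j + 1) + 1) (2 * D1.nn k m (j + 1))) :
    W9.W9T f k (b + 4 * (j + 1) + 22) (D1.nn k m (j + 1)) :=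
  W9.W9T.of hf (W.w9h hf j) (F2.of hf (W.w9h hf j).H ((W.w (j + 1)).K2 hf))
    (F6.of hf (W.w9h hf j).H ((W.w (j + 1)).K6 hf)) tip

/-- **The cells `v = 5, 6` of `Wall9`**, in every cycle `j + 1` -/
theorem WL0.wall56 (hf : Rule f) (W : WL0 f k b m 5) (j : ℕ) {y : ℕ}
    (hy : y + 2 * k = 2 * D1.nn k m (j + 1) + 5 ∨ y + 2 * k = 2 * D1.nn k m (j + 1) + 6) :
    ¬ f (6 * k + 9) (b + 4 * (j + 1) + 22) (2 * D1.nn k m (j + 1) + 1) y := by
  rcases hy with hy | hy
  · exact W9.w9_5 hf (W.w9h hf j) hy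
  · exact W9.w9_6 hf (W.w9h hf j) hy

/-- **The cell `v = 3` of `Wall9`**, in every cycle `j + 1`, with the tip -/
theorem WL0.wall3 (hf : Rule f) (W : WL0 f k b m 5) (j : ℕ)
    (tip : f (6 * k + 10) (b + 4 * (j + 1) + 22) (2 * D1.nn k m (j + 1) + 1) (2 * D1.nn k m (j + 1))) {y : ℕ}
    (hy : y + 2 * k = 2 * D1.nn k m (j + 1) + 3) :
    ¬ f (6 * k + 9) (b + 4 * (j + 1) + 22) (2 * D1.nn k m (j + 1) + 1) y :=
  W9.w9_3 hf (W.w9h hf j) (W.w9t hf j tip) hy

end Pool.Agent.SNT
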