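import Pool.Agent.SNT.W4V1
import Pool.Agent.SNT.W4V4
import Pool.Agent.SNT.W9W
import Pool.Agent.SNT.NbL

set_option autoImplicit false

/-! The window `W4` over `WL0`: the cells `v = 1` and `v = 4` of the wall of the top leader. -/

namespace Pool.Agent.SNT

open Pool.Agent.SNT.LRI Pool.Agent.SNT.LW Pool.Agent.SNT.NHZ

variable {f : ℕ → ℕ → ℕ → ℕ → Prop} {k b m : ℕ}

/-- **`W4`**, in every cycle `j + 1` -/
theorem WL0.w4 (hf : Rule f) (W : WL0 f k b m 5) (j : ℕ)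
    (tip : f (6 * k + 10) (b + 4 * (j + 1) + 22) (2 * D1.nn k m (j + 1) + 1) (2 * D1.nn k m (j + 1))) {v : ℕ}
    (hv : v = 1 ∨ v = 4)
    (g : f (6 * k + 9) (b + 4 * (j + 1) + 22) (2 * D1.nn k m (j + 1) + 1) (2 * D1.nn k m (j + 1) - 2 * k + v))
    (h0 : ¬ f (6 * k) (b + 4 * (j + 1) + 22) (2 * D1.nn k m (j + 1) - 12) (2 * D1.nn k m (j + 1) - 2 * k - 5))
    (h2 : f (6 * k + 2) (b + 4 * (j + 1) + 22 - 2) (2 * D1.nn k m (j + 1) - 12) (2 * D1.nn k m (j + 1) - 2 * k - 3)) :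
    False := by
  have H := W.w9h hf j
  have hN := H.H.T.hN2
  have hk := H.H.T.hk
  have hb := H.H.T.hb
  have nb : ∀ M R x y : ℕ, M = 6 * k + 4 → R = b + 4 * (j + 1) + 22 → x = 2 * D1.nn k m (j + 1) + 3 → y % 2 = 0 →
      2 * D1.nn k m (j + 1) + 4 ≤ y + 2 * k → y + 2 ≤ 2 * D1.nn k m (j + 1) → ¬ f M R x y := by
    intro M R x y e1 e2 e3 h1 h3 h4
    rw [e1, e2, e3]
    exact NbL.nb_stack hf W.w j h1 (by omega) (by omega)
  have a0 : ∀ M R x y : ℕ, M = 6 * k → R = b + 4 * (j + 1) + 22 → x + 12 = 2 * D1.nn k m (j + 1) →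
      y + 5 + 2 * k = 2 * D1.nn k m (j + 1) → ¬ f M R x y := by
    intro M R x y e1 e2 e3 e4 t
    exact h0 (mv t (by omega) (by omega) (by omega) (by omega))
  have a2 : ∀ M R x y : ℕ, M = 6 * k + 2 → R + 2 = b + 4 * (j + 1) + 22 → x + 12 = 2 * D1.nn k m (j + 1) →
      y + 3 + 2 * k = 2 * D1.nn k m (j + 1) → f M R x y := by
    intro M R x y e1 e2 e3 e4
    exact mv h2 (by omega) (by omega) (by omega) (by omega)
  have e1 : D1.nn k m (j + 1) = D1.nn k m j + k + 2 := by unfold D1.nn; ring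
  have c0 : Cyc f (6 * k) (b + 4 * (j + 1) + 22 - 6) (2 * (D1.nn k m (j + 1) - k - 5) + 2) :=
    D1.cyc_of_eq (W.l0 (j + 1)) (by omega) (by omega)
  have p2 : Cyc f (6 * k + 2) (b + 4 * (j + 1) + 22 - 8) (2 * (D1.nn k m (j + 1) - k - 7) + 2) :=
    D1.cyc_of_eq ((W.win j).li hf).a2 (by omega) (by omega)
  rcases hv with rfl | rfl
  · exact W9.w4_1 hf H (W.w9t hf j tip) c0 p2 nb a0 a2 (y := 2 * D1.nn k m (j + 1) - 2 * k + 1) (by omega) g
  · exact W9.w4_4 hf H c0 p2 nb a0 a2 (y := 2 * D1.nn k m (j + 1) - 2 * k + 4) (by omega) g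

end Pool.Agent.SNT
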