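import Pool.Agent.SNT.LPB
import Pool.Agent.SNT.D4F
import Pool.Agent.SNT.W4F

set_option autoImplicit false

/-! The cells `v = 1` and `v = 4` of `Wall9`. -/

namespace Pool.Agent.SNT.LPA

open Pool.Agent.SNT Pool.Agent.SNT.LRI Pool.Agent.SNT.LW Pool.Agent.SNT.NHZ Pool.Agent.SNT.DRun Pool.Agent.SNT.D1E

variable {f : ℕ → ℕ → ℕ → ℕ → Prop} {k b m c n : ℕ}

/-- the in-line `2 n - 1` of `6 k + 2` gives the out-line `2 n + 1`, in the cycle `j + 2` -/
theorem d4 (hf : Rule f) (W : WL0 f k b m 5) (j : ℕ)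
    (h8 : f (6 * k + 2) (b + 4 * (j + 2) + 22) (2 * D1.nn k m (j + 2) - 1) (2 * D1.nn k m (j + 2) - 8))
    (h10 : f (6 * k + 2) (b + 4 * (j + 2) + 22) (2 * D1.nn k m (j + 2) - 1) (2 * D1.nn k m (j + 2) - 10))
    (B : ¬ f (6 * k + 2) (b + 4 * (j + 2) + 22 + 2) (2 * D1.nn k m (j + 2) + 8) (2 * D1.nn k m (j + 2) + 1)) : False := by
  have a := PA.of hf W j
  have hk := a.H.T.hk
  have hN := a.H.T.hN2
  refine D4B.d4b hf W (j + 1) (n := D1.nn k m (j + 2)) (c := b + 4 * (j + 2) + 22) rfl rfl ?_ B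
    (fun x h1 h2 h3 => a.ny x h1 (by omega) (by omega)) (fun x h1 h2 h3 => a.o5 hf h1 (by omega) (by omega))
    (a.t1 _ (by omega) (by omega) (by omega))
  intro y h1 h2 h3
  rcases (show y = 2 * D1.nn k m (j + 2) - 8 ∨ y = 2 * D1.nn k m (j + 2) - 10 by omega) with rfl | rfl
  · exact h8
  · exact h10

/-- **The cells `v = 1, 4` of `Wall9`** in the cycle `j + 3` -/
theorem w14 (hf : Rule f) (W : WL0 f k b m 5) (j : ℕ) {v : ℕ} (hv : v = 1 ∨ v = 4) :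
    ¬ f (6 * k + 9) (b + 4 * (j + 2 + 1) + 22) (2 * D1.nn k m (j + 2 + 1) + 1) (2 * D1.nn k m (j + 2 + 1) - 2 * k + v) := by
  intro g
  have a := PA.of hf W j
  have e3 : D1.nn k m (j + 2 + 1) = D1.nn k m (j + 2) + k + 2 := by unfold D1.nn; ring
  have hk := a.H.T.hk
  have hN := a.H.T.hN2
  have h1 := LineVC.W2 hf W (j + 2) (W.w.tip hf (j + 2 + 1)) (by
    rcases hv with rfl | rfl
    · exact Or.inl g
    · exact Or.inr g)
  have h2 : ¬ f (6 * k) (b + 4 * (j + 2) + 22) (2 * D1.nn k m (j + 2) + 2 * k - 10) (2 * D1.nn k m (j + 2) - 3) := by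
    intro t
    refine h1 (Z34P.mv t (by omega) (by omega) (by omega) (by omega))
  have h3 := a.x5 hf h2
  have h4 := a.om1 hf h3
  have h5 := a.o1 hf (d4 hf W j) h3
  exact WL0.w4 hf W (j + 2) (W.w.tip hf (j + 2 + 1)) hv g
    (fun t => h4 (Z34P.mv t (by omega) (by omega) (by omega) (by omega)))
    (Z34P.mv h5 (by omega) (by omega) (by omega) (by omega))

/-- the cell `v = 1` in the cycle `25` -/
theorem w1 (hf : Rule f) (W : WL0 f k b m 5) :
    ¬ f (6 * k + 9) (b + 4 * 25 + 22) (2 * D1.nn k m 25 + 1) (2 * D1.nn k m 25 - 2 * k + 1) :=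
  w14 hf W 22 (Or.inl rfl)

/-- the cell `v = 4` in the cycle `25` -/
theorem w4 (hf : Rule f) (W : WL0 f k b m 5) :
    ¬ f (6 * k + 9) (b + 4 * 25 + 22) (2 * D1.nn k m 25 + 1) (2 * D1.nn k m 25 - 2 * k + 4) :=
  w14 hf W 22 (Or.inr rfl)

end Pool.Agent.SNT.LPA
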