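import Pool.Agent.SNT.FinalH
import Pool.Agent.SNT.L0YE
import Pool.Agent.SNT.LPC

set_option autoImplicit false

/-! The frozen statement. -/

namespace Pool.Agent.SNT.S6

/-- **The P-positions are not semilinear for all `n`, `k`.** -/
theorem final :
    ¬ (∀ n k : ℕ, 1 ≤ k →
      ∀ P : Set (Fin n → ℕ),
        (∀ x : Fin n → ℕ, x ∈ P ↔
          ∀ S : Finset (Fin n), S.card = k → (∀ i ∈ S, 1 ≤ x i) →
            (fun i => if i ∈ S then x i - 1 else x i) ∉ P) →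
        ∃ m r : ℕ, ∃ base : Fin m → Fin n → ℕ, ∃ per : Fin m → Fin r → Fin n → ℕ,
          ∀ x : Fin n → ℕ, x ∈ P ↔
            ∃ i : Fin m, ∃ c : Fin r → ℕ, x = base i + ∑ j, c j • per i j) :=
  final_of_x0 (fun _ hf _ _ => D1.ecell3 hf) (fun _ hf _ _ _ _ W _ => LPA.w1 hf W) (fun _ hf _ _ _ _ W _ => LPA.w4 hf W)

end Pool.Agent.SNT.S6
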