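import Pool.Agent.SNT.L0EAsm

set_option autoImplicit false

/-! The two cells `d = 2 k - 2` of the IN row in the context of the last three tips of `6 k + 2`: the E-cell of the
lead of `6 k`, one deep step of this lead, and the E-cell of the next lead. -/

namespace Pool.Agent.SNT.D1

open Pool.Agent.SNT Pool.Agent.SNT.D1E Pool.Agent.SNT.PB

variable {f : ℕ → ℕ → ℕ → ℕ → Prop} {k b m t : ℕ}

theorem Ctx.plw (C : Ctx f k b m t) (i : ℕ) : PL f k (b + 4 * i + 22) (nn k m i) (ml k m t i) := by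
  have ht := C.t2
  have hn : nn k m i = m + (k + 2) * i + 9 + (k + 2) * 4 := rfl
  have hl : ml k m t i = nn k m i + t - 4 := rfl
  obtain ⟨hs, S, d0, d2, d4, -⟩ := (C.shift i).win (n := nn k m i) rfl
  exact PL.of_stack hs S rfl (by omega) (by omega) (cyc_of_eq d0 rfl (by omega)) (cyc_of_eq d2 rfl (by omega)) d4

theorem Ctx.lw0 (C : Ctx f k b m t) (i : ℕ) : Cyc f (6 * k) (b + 4 * i + 16) (2 * (ml k m t i - 3) + 2) := by
  have hn : nn k m i = m + (k + 2) * i + 9 + (k + 2) * 4 := rfl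
  have hl : ml k m t i = nn k m i + t - 4 := rfl
  exact cyc_of_eq (C.q0 i (by omega)) rfl (by omega)

theorem ml_succ1 (k m t i : ℕ) : ml k m t (i + 1) = ml k m t i + (k + 2) := by
  have e : nn k m (i + 1) = nn k m i + (k + 2) := by
    unfold nn
    ring
  have hn : nn k m i = m + (k + 2) * i + 9 + (k + 2) * 4 := rfl
  unfold ml
  rw [e]
  omega

/-- **The cell `a3`** in every cycle `i + 1`. -/
theorem Ctx.a3 (hf : Rule f) (C : Ctx f k b m t) (i : ℕ) :
    ¬ f (6 * k + 1) (b + 4 * (i + 1) + 22) (2 * ml k m t (i + 1) + 2 * k + 2) (2 * ml k m t (i + 1) + 4) := by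
  have H2 := C.plw i
  have H1 := C.plw (i + 1)
  have hk : 8 ≤ k := C.S.side.1
  have e := ml_succ1 k m t i
  have e1 : nn k m (i + 1) = nn k m i + (k + 2) := by
    unfold nn
    ring
  have hM := H2.hM
  have ht := C.t2
  have hl : ml k m t i = nn k m i + t - 4 := rfl
  have hn : nn k m i = m + (k + 2) * i + 9 + (k + 2) * 4 := rfl
  have D0 := C.lw0 (i + 1 + 1)
  have D0a := C.lw0 (i + 1)
  have e2 := ml_succ1 k m t (i + 1)
  rw [e2] at D0
  intro h
  refine L0E.ecell_aux hf (c := b + 4 * i + 22) (X := 2 * ml k m t (i + 1) + 2 * k + 2) H2 e1 e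
    (by rwa [show b + 4 * i + 22 + 4 = b + 4 * (i + 1) + 22 by omega]) (by omega) (by omega) (by omega)
    (cyc_mv D0 rfl (by omega) (by omega)) (cyc_mv D0a rfl (by omega) (by omega)) ?_
  rwa [show b + 4 * i + 22 + 4 = b + 4 * (i + 1) + 22 by omega,
    show 2 * ml k m t (i + 1) + 2 * k + 2 + 2 - 2 * k = 2 * ml k m t (i + 1) + 4 by omega]

/-- **One deep step over the context**: `6 k` from `M - 3` to `M - 4` in the cycle `1`. -/
theorem Ctx.deep (hf : Rule f) (C : Ctx f k b m t)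
    (Z : ∀ x y : ℕ, x % 2 = 0 → y % 2 = 0 → y ≤ x → x + 4 ≤ y + 2 * k → 4 * ml k m t 3 + 8 ≤ x + y →
      2 * ml k m t 3 + 2 ≤ y → ¬ f (6 * k + 1) (b + 4 * 3 + 22) x y) :
    Cyc f (6 * k) (b + 4 * 1 + 16) (2 * (ml k m t 1 - 4) + 2) := by
  have S1 := C.S.shift 1
  obtain ⟨hk, hb, h4, hb2, hm⟩ := id C.S.side
  have hn0 : nn k m 0 = m + 9 + (k + 2) * 4 := by unfold nn; ring
  have hl0 : ml k m t 0 = nn k m 0 + t - 4 := rfl
  have e1 := ml_succ1 k m t 0
  have e2 := ml_succ1 k m t 1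
  have e3 := ml_succ1 k m t 2
  rw [Nat.zero_add] at e1
  rw [show 1 + 1 = 2 by norm_num] at e2
  rw [show 2 + 1 = 3 by norm_num] at e3
  obtain ⟨N, hN⟩ : ∃ N, N = ml k m t 1 - 3 := ⟨_, rfl⟩
  have hC0 : Cyc f (6 * k) (b + 4 * 1 + 12) (2 * (ml k m t 0 - 3) + 2) := cyc_of_eq (C.lw0 0) (by omega) rfl
  have em : ∀ j : ℕ, ml k m t (1 + j) = ml k m t 1 + (k + 2) * j := by
    intro j
    induction j with
    | zero => rfl
    | succ j ih =>
      rw [← Nat.add_assoc, ml_succ1, ih]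
      ring
  have CC : ∀ j : ℕ, Cyc f (6 * k) (b + 4 * 1 + 4 * j + 16) (2 * (N + (k + 2) * j) + 2) := by
    intro j
    exact cyc_of_eq (C.lw0 (1 + j)) (by omega) (by rw [em j]; omega)
  have tip : f (6 * k) (b + 4 * 1 + 16) (2 * N + 1) (2 * N) := by
    by_contra ht
    obtain ⟨j, h1, h2, h3⟩ := birth0L hf S1 (N := N) (by omega) hC0 (by omega) CC ht
    rcases Nat.lt_or_ge (2 * j + 2 + 2 * k) (2 * (N + 3 * k + 6) + 4 + 4) with h | h
    · refine C.a3 hf 2 ?_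
      rw [show 2 + 1 = 3 by norm_num, show b + 4 * 3 + 22 = b + 4 * 1 + 30 by omega,
        show 2 * ml k m t 3 + 2 * k + 2 = 2 * (N + 3 * k + 6) + 4 by omega,
        show 2 * ml k m t 3 + 4 = 2 * j + 2 by omega]
      exact h3
    · refine Z (2 * (N + 3 * k + 6) + 4) (2 * j + 2) (by omega) (by omega) (by omega) h (by omega) (by omega) ?_
      rw [show b + 4 * 3 + 22 = b + 4 * 1 + 30 by omega]
      exact h3
  have hC2 : Cyc f (6 * k + 2) (b + 4 * 1 + 14) (2 * ml k m t 0 + 2) := by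
    have h := (C.plw 0).c2
    exact cyc_mv h rfl (by omega) rfl
  refine cyc_of_eq (loc0L hf S1.side S1.stack (N := N) (by omega) hC0 (by omega) hC2 (by omega) (by omega) ?_ tip)
    rfl (by omega)
  have := (CC 0).r0
  rwa [show b + 4 * 1 + 4 * 0 + 16 = b + 4 * 1 + 16 by omega, show N + (k + 2) * 0 = N by omega] at this

/-- **The cell `a2`** in every cycle `i + 1`. -/
theorem Ctx.a2 (hf : Rule f) (C : Ctx f k b m t)
    (Z : ∀ i x y : ℕ, x % 2 = 0 → y % 2 = 0 → y ≤ x → x + 4 ≤ y + 2 * k → 4 * ml k m t i + 8 ≤ x + y →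
      2 * ml k m t i + 2 ≤ y → ¬ f (6 * k + 1) (b + 4 * i + 22) x y) (i : ℕ) :
    ¬ f (6 * k + 1) (b + 4 * (i + 1) + 22) (2 * ml k m t (i + 1) + 2 * k) (2 * ml k m t (i + 1) + 2) := by
  have H2 := C.plw i
  have H1 := C.plw (i + 1)
  have hk : 8 ≤ k := C.S.side.1
  have e := ml_succ1 k m t i
  have e1 : nn k m (i + 1) = nn k m i + (k + 2) := by
    unfold nn
    ring
  have hM := H2.hM
  have ht := C.t2
  have hl : ml k m t i = nn k m i + t - 4 := rfl
  have hn : nn k m i = m + (k + 2) * i + 9 + (k + 2) * 4 := rfl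
  have ZZ : ∀ i x y : ℕ, x % 2 = 0 → y % 2 = 0 → y ≤ x → x + 4 ≤ y + 2 * k →
      4 * ml k (m + (k + 2) * i) t 3 + 8 ≤ x + y →
      2 * ml k (m + (k + 2) * i) t 3 + 2 ≤ y → ¬ f (6 * k + 1) (b + 4 * i + 4 * 3 + 22) x y := by
    intro i x y a1 a2 a3 a4 a5 a6
    rw [ml_shift] at a5 a6
    rw [show b + 4 * i + 4 * 3 + 22 = b + 4 * (i + 3) + 22 by ring]
    exact Z (i + 3) x y a1 a2 a3 a4 a5 a6
  have D0a := (C.shift i).deep hf (ZZ i)
  have D0 := (C.shift (i + 1)).deep hf (ZZ (i + 1))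
  rw [ml_shift] at D0a D0
  have e2 := ml_succ1 k m t (i + 1)
  rw [e2] at D0
  intro h
  refine L0E.ecell_aux hf (c := b + 4 * i + 22) (X := 2 * ml k m t (i + 1) + 2 * k) H2 e1 e
    (by rwa [show b + 4 * i + 22 + 4 = b + 4 * (i + 1) + 22 by omega]) (by omega) (by omega) (by omega)
    (cyc_mv D0 rfl (by omega) (by omega)) (cyc_mv D0a rfl (by omega) (by omega)) ?_
  rwa [show b + 4 * i + 22 + 4 = b + 4 * (i + 1) + 22 by omega,
    show 2 * ml k m t (i + 1) + 2 * k + 2 - 2 * k = 2 * ml k m t (i + 1) + 2 by omega]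

end Pool.Agent.SNT.D1
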