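import Pool.Agent.SNT.ProfRec

set_option autoImplicit false

/-! The profile record with integer weights: the layer `a` has the bonus `w a`.

Maximise `offset a + w a`; `A` is the lowest maximiser and `O` the maximal value, so the own offset of
the leader is `O - w A`, the layers `a` have offset `≤ O - w a`, and `≤ O - w a - 1` below `A`. -/

namespace Pool.Agent.SNT

/-- A weighted record exists. -/
theorem exists_profRec_w (S : Finset ℕ) (Pf : ℕ → ℕ → ℤ → Prop) (w : ℕ → ℤ)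
    (mono : ∀ a b : ℕ, ∀ J J' : ℤ, J ≤ J' → Pf a b J → Pf a b J')
    (up : ∀ a ∈ S, ∃ J : ℤ, ∃ B : ℕ, ∀ b : ℕ, B ≤ b → Pf a b J)
    (low : ∃ a ∈ S, ∃ J : ℤ, ∀ B : ℕ, ∃ b : ℕ, B ≤ b ∧ ¬ Pf a b J) :
    ∃ A : ℕ, ∃ O : ℤ, ProfRec S (fun a b J => Pf a b (J - w a)) A O := by
  refine exists_profRec S (fun a b J => Pf a b (J - w a)) ?_ ?_ ?_
  · intro a b J J' hJ h
    exact mono a b _ _ (by omega) h
  · intro a ha
    obtain ⟨J, B, h⟩ := up a ha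
    refine ⟨J + w a, B, fun b hb => ?_⟩
    have e : J + w a - w a = J := by ring
    show Pf a b (J + w a - w a)
    rw [e]
    exact h b hb
  · obtain ⟨a, ha, J, h⟩ := low
    refine ⟨a, ha, J + w a, fun B => ?_⟩
    obtain ⟨b, hb, hn⟩ := h B
    refine ⟨b, hb, ?_⟩
    have e : J + w a - w a = J := by ring
    show ¬ Pf a b (J + w a - w a)
    rw [e]
    exact hn

/-- The window form of the weighted record in one statement: a leader `A` with own offset `J`, a hit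
`b0` (arbitrarily late) where `A` is not static beyond the offset `J - 1`, every layer `a` static
beyond the offset `J + w A - w a` from `b0 - W` on, and beyond one less below `A`. -/
theorem wRec_window (S : Finset ℕ) (Pf : ℕ → ℕ → ℤ → Prop) (w : ℕ → ℤ)
    (mono : ∀ a b : ℕ, ∀ J J' : ℤ, J ≤ J' → Pf a b J → Pf a b J')
    (up : ∀ a ∈ S, ∃ J : ℤ, ∃ B : ℕ, ∀ b : ℕ, B ≤ b → Pf a b J)
    (low : ∃ a ∈ S, ∃ J : ℤ, ∀ B : ℕ, ∃ b : ℕ, B ≤ b ∧ ¬ Pf a b J) (W : ℕ) :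
    ∃ A ∈ S, ∃ J : ℤ, ∀ B : ℕ, ∃ b0 : ℕ, B + W ≤ b0 ∧ ¬ Pf A b0 (J - 1) ∧
      (∀ a ∈ S, ∀ b : ℕ, b0 ≤ b + W → Pf a b (J + w A - w a)) ∧
      (∀ a ∈ S, a < A → ∀ b : ℕ, b0 ≤ b + W → Pf a b (J + w A - w a - 1)) := by
  obtain ⟨A, O, h⟩ := exists_profRec_w S Pf w mono up low
  refine ⟨A, h.mem, O - w A, fun B => ?_⟩
  obtain ⟨b0, hb0, hn, h1, h2⟩ := h.window W B
  refine ⟨b0, hb0, ?_, ?_, ?_⟩
  · have e : O - w A - 1 = O - 1 - w A := by ring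
    rw [e]
    exact hn
  · intro a ha b hb
    have e : O - w A + w A - w a = O - w a := by ring
    rw [e]
    exact h1 a ha b hb
  · intro a ha hlt b hb
    have e : O - w A + w A - w a - 1 = O - 1 - w a := by ring
    rw [e]
    exact h2 a ha hlt b hb

/-- The weighted record of the four layers `6 k, 6 k + 2, 6 k + 4, 6 k + 6` with the bonus `1` for
the last one: one of four leaders. All statements are for arbitrarily late hits `b0`. -/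
theorem rec4 (k : ℕ) (Pf : ℕ → ℕ → ℤ → Prop)
    (mono : ∀ a b : ℕ, ∀ J J' : ℤ, J ≤ J' → Pf a b J → Pf a b J')
    (up : ∀ i : ℕ, i ≤ 3 → ∃ J : ℤ, ∃ B : ℕ, ∀ b : ℕ, B ≤ b → Pf (6 * k + 2 * i) b J)
    (low : ∃ J : ℤ, ∀ B : ℕ, ∃ b : ℕ, B ≤ b ∧ ¬ Pf (6 * k) b J) (W : ℕ)
    (R0 : ∀ J : ℤ, ∃ B : ℕ, ∀ b0 : ℕ, B ≤ b0 →
      (∀ b : ℕ, b0 ≤ b + W → Pf (6 * k) b J) → (∀ b : ℕ, b0 ≤ b + W → Pf (6 * k + 2) b J) →
      (∀ b : ℕ, b0 ≤ b + W → Pf (6 * k + 4) b J) →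
      (∀ b : ℕ, b0 ≤ b + W → Pf (6 * k + 6) b (J - 1)) → Pf (6 * k) b0 (J - 1))
    (R2 : ∀ J : ℤ, ∃ B : ℕ, ∀ b0 : ℕ, B ≤ b0 →
      (∀ b : ℕ, b0 ≤ b + W → Pf (6 * k) b (J - 1)) → (∀ b : ℕ, b0 ≤ b + W → Pf (6 * k + 2) b J) →
      (∀ b : ℕ, b0 ≤ b + W → Pf (6 * k + 4) b J) →
      (∀ b : ℕ, b0 ≤ b + W → Pf (6 * k + 6) b (J - 1)) → Pf (6 * k + 2) b0 (J - 1))
    (R4 : ∀ J : ℤ, ∃ B : ℕ, ∀ b0 : ℕ, B ≤ b0 →
      (∀ b : ℕ, b0 ≤ b + W → Pf (6 * k) b (J - 1)) →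
      (∀ b : ℕ, b0 ≤ b + W → Pf (6 * k + 2) b (J - 1)) →
      (∀ b : ℕ, b0 ≤ b + W → Pf (6 * k + 4) b J) →
      (∀ b : ℕ, b0 ≤ b + W → Pf (6 * k + 6) b (J - 1)) → Pf (6 * k + 4) b0 (J - 1))
    (R6 : ∀ J : ℤ, ∃ B : ℕ, ∀ b0 : ℕ, B ≤ b0 →
      (∀ b : ℕ, b0 ≤ b + W → Pf (6 * k) b J) → (∀ b : ℕ, b0 ≤ b + W → Pf (6 * k + 2) b J) →
      (∀ b : ℕ, b0 ≤ b + W → Pf (6 * k + 4) b J) →
      (∀ b : ℕ, b0 ≤ b + W → Pf (6 * k + 6) b J) → Pf (6 * k + 6) b0 (J - 1)) : False := by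
  have hup : ∀ a ∈ ({6 * k, 6 * k + 2, 6 * k + 4, 6 * k + 6} : Finset ℕ),
      ∃ J : ℤ, ∃ B : ℕ, ∀ b : ℕ, B ≤ b → Pf a b J := by
    intro a ha
    simp only [Finset.mem_insert, Finset.mem_singleton] at ha
    rcases ha with rfl | rfl | rfl | rfl
    · exact up 0 (by omega)
    · exact up 1 (by omega)
    · exact up 2 (by omega)
    · exact up 3 (by omega)
  obtain ⟨Jl, hl⟩ := low
  obtain ⟨A, hA, J, h⟩ := wRec_window ({6 * k, 6 * k + 2, 6 * k + 4, 6 * k + 6} : Finset ℕ) Pf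
    (fun a => if a = 6 * k + 6 then 1 else 0) mono hup
    ⟨6 * k, by simp, Jl, hl⟩ W
  have m0 : 6 * k ∈ ({6 * k, 6 * k + 2, 6 * k + 4, 6 * k + 6} : Finset ℕ) := by simp
  have m2 : 6 * k + 2 ∈ ({6 * k, 6 * k + 2, 6 * k + 4, 6 * k + 6} : Finset ℕ) := by simp
  have m4 : 6 * k + 4 ∈ ({6 * k, 6 * k + 2, 6 * k + 4, 6 * k + 6} : Finset ℕ) := by simp
  have m6 : 6 * k + 6 ∈ ({6 * k, 6 * k + 2, 6 * k + 4, 6 * k + 6} : Finset ℕ) := by simp
  simp only [Finset.mem_insert, Finset.mem_singleton] at hA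
  rcases hA with rfl | rfl | rfl | rfl
  · obtain ⟨B, hB⟩ := R0 J
    obtain ⟨b0, hb0, hn, h1, _⟩ := h B
    refine hn (hB b0 (by omega) ?_ ?_ ?_ ?_)
    · intro b hb
      simpa using h1 _ m0 b hb
    · intro b hb
      simpa using h1 _ m2 b hb
    · intro b hb
      simpa using h1 _ m4 b hb
    · intro b hb
      simpa using h1 _ m6 b hb
  · obtain ⟨B, hB⟩ := R2 J
    obtain ⟨b0, hb0, hn, h1, h2⟩ := h B
    refine hn (hB b0 (by omega) ?_ ?_ ?_ ?_)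
    · intro b hb
      simpa using h2 _ m0 (by omega) b hb
    · intro b hb
      simpa using h1 _ m2 b hb
    · intro b hb
      simpa using h1 _ m4 b hb
    · intro b hb
      simpa using h1 _ m6 b hb
  · obtain ⟨B, hB⟩ := R4 J
    obtain ⟨b0, hb0, hn, h1, h2⟩ := h B
    refine hn (hB b0 (by omega) ?_ ?_ ?_ ?_)
    · intro b hb
      simpa using h2 _ m0 (by omega) b hb
    · intro b hb
      simpa using h2 _ m2 (by omega) b hb
    · intro b hb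
      simpa using h1 _ m4 b hb
    · intro b hb
      simpa using h1 _ m6 b hb
  · obtain ⟨B, hB⟩ := R6 J
    obtain ⟨b0, hb0, hn, h1, h2⟩ := h B
    refine hn (hB b0 (by omega) ?_ ?_ ?_ ?_)
    · intro b hb
      have := h2 _ m0 (by omega) b hb
      simpa using this
    · intro b hb
      have := h2 _ m2 (by omega) b hb
      simpa using this
    · intro b hb
      have := h2 _ m4 (by omega) b hb
      simpa using this
    · intro b hb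
      simpa using h1 _ m6 b hb

end Pool.Agent.SNT
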