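import Pool.Agent.SNT.Up4
import Pool.Agent.SNT.FwdZ

set_option autoImplicit false

/-! The tip lemma: if the IN row `b + 4` of an even layer is static beyond the nominal threshold
`2 N + 2`, the previous cycle has its nominal profile, the odd layer below is static near the
front and the tip `(2 N + 1, 2 N)` is present, then the row is static beyond `2 N`. -/

namespace Pool.Agent.SNT

variable {f : ℕ → ℕ → ℕ → ℕ → Prop}

namespace TipI

/-- A one has no one below it. -/
theorem kill (hf : Rule f) {a b x y a' b' x' y' : ℕ} (h : f a b x y)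
    (ha : a ≤ a' ∧ a' ≤ a + 1) (hb : b ≤ b' ∧ b' ≤ b + 1) (hx : x ≤ x' ∧ x' ≤ x + 1)
    (hy : y ≤ y' ∧ y' ≤ y + 1) (hlt : a + b + x + y < a' + b' + x' + y') : ¬ f a' b' x' y' := by
  intro h'
  have h1 := hf.down h' (p := a' - a) (q := b' - b) (r := x' - x) (s := y' - y) (by omega)
    (by omega) (by omega) (by omega) (by omega) (by omega) (by omega) (by omega) (by omega)
  rw [Nat.sub_sub_self ha.1, Nat.sub_sub_self hb.1, Nat.sub_sub_self hx.1,
    Nat.sub_sub_self hy.1] at h1
  exact h1 h

/-- The odd layers are zero in the near zone. -/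
theorem odd_zero {a b x y : ℕ} (ha : a % 2 = 1) (hab : a + 40 ≤ b) (hyx : y ≤ x)
    (hd : x ≤ y + 2 * (a / 6) + 12) : ¬ Fst a b x y := by
  rw [Fst_of_le (by omega) hyx]
  intro h
  rcases h with h | h | h | h
  · unfold FF1 at h
    omega
  · unfold FF2 FU at h
    omega
  · unfold FF3 FT at h
    omega
  · unfold FF4 at h
    omega

/-- One row forcing in the exterior, local form. -/
theorem QF_loc (hf : Rule f) {a b L D x y : ℕ} (hab : a + 4 ≤ b) (hL : L % 2 = 0)
    (hyx : y ≤ x) (hx : L + 2 < x) (hy : 6 ≤ y) (hD : D + 3 ≤ x - y)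
    (h2 : 2 * (a / 6) + 1 ≤ x - y)
    (hls : ∀ u v : ℕ, v ≤ u → L < u → D ≤ u - v → LS f a b u v) :
    f a b x y ↔ Fst a b x y := by
  have hab' : a ≤ b := by omega
  rcases Nat.lt_or_ge (a + b + y) x with h1 | h1
  · rw [hf.far a b x y h1, Fst_far hab' h1]
  constructor
  · intro h
    by_contra hF
    rcases Nat.mod_two_eq_zero_or_one x with hx2 | hx2
    · refine zero_of_row_ones hf (by omega) (by omega) hF ?_ ?_ h
      · intro r s hr hs'
        exact hls _ _ (by omega) (by omega) (by omega)
      · intro r s hr hs' hrs h2'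
        rw [Fst_of_le hab' (by omega)] at h2'
        refine E1 hf hab' (by omega) (by omega) h2' ?_ ?_
        · unfold Exc
          omega
        · intro i j hi hj
          exact hls _ _ (by omega) (by omega) (by omega)
    · rw [Fst_of_le hab' hyx, hx2] at hF
      rcases dom_odd (by omega) (by omega) (by omega) hF with h2' | h2'
      · refine not_of_low hf hab' hyx (by omega) ?_ ?_ h
        · rw [hx2]
          exact h2'
        · intro r s hr hs'
          exact hls _ _ (by omega) (by omega) (by omega)
      · have h3 : f a b x (y - 1) := by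
          refine E1 hf hab' (by omega) (by omega) ?_ ?_ ?_
          · have e1 : x - (y - 1) = x - y + 1 := by omega
            rw [e1, hx2]
            exact h2'
          · unfold Exc
            omega
          · intro i j hi hj
            exact hls _ _ (by omega) (by omega) (by omega)
        have h4 := hf.down h (p := 0) (q := 0) (r := 0) (s := 1) (by omega) (by omega) (by omega)
          (by omega) (by omega) (by omega) (by omega) (by omega) (by omega)
        exact h4 h3
  · intro hF
    rw [Fst_of_le hab' hyx] at hF
    refine E1 hf hab' hyx (by omega) hF ?_ ?_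
    · unfold Exc
      omega
    · intro i j hi hj
      exact hls _ _ (by omega) (by omega) (by omega)

/-- Ones in the exterior, local form. -/
theorem one_loc (hf : Rule f) {a b L D x y : ℕ} (hab : a + 4 ≤ b)
    (hyx : y ≤ x) (hx : L + 2 < x) (hy : 6 ≤ y) (hD : D + 2 ≤ x - y)
    (h2 : 2 * (a / 6) + 1 ≤ x - y)
    (hls : ∀ u v : ℕ, v ≤ u → L < u → D ≤ u - v → LS f a b u v)
    (hF : Fst a b x y) : f a b x y := by
  have hab' : a ≤ b := by omega
  rw [Fst_of_le hab' hyx] at hF
  refine E1 hf hab' hyx (by omega) hF ?_ ?_
  · unfold Exc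
    omega
  · intro i j hi hj
    exact hls _ _ (by omega) (by omega) (by omega)

end TipI

open TipI

/-- What the tip lemma needs. -/
structure TipI.Hyp (f : ℕ → ℕ → ℕ → ℕ → Prop) (A b N : ℕ) : Prop where
  x2 : ∀ x y : ℕ, y + 2 * (A / 6) ≤ x → 2 * N < x + 6 → (f A (b + 2) x y ↔ Fst A (b + 2) x y)
  r3 : ∀ x y : ℕ, y ≤ x → 2 * N < x → (f A (b + 3) x y ↔ Fst A (b + 3) x y)
  s3 : ∀ x y : ℕ, y ≤ x → x < y + 2 * (A / 6) → 2 * N + 1 < y + 2 * (A / 6) →
    (f A (b + 3) x y ↔ Fst A (b + 3) x y)
  l2 : ∀ x y : ℕ, y + 2 * (A / 6) ≤ x → 2 * N < x + 6 →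
    (f (A - 1) (b + 2) x y ↔ Fst (A - 1) (b + 2) x y)
  l3 : ∀ x y : ℕ, y ≤ x → 2 * N < x + 6 → (f (A - 1) (b + 3) x y ↔ Fst (A - 1) (b + 3) x y)
  l4 : ∀ x y : ℕ, y ≤ x → 2 * N < x + 2 → (f (A - 1) (b + 4) x y ↔ Fst (A - 1) (b + 4) x y)

namespace TipI

variable {A b N : ℕ}

theorem ext3 (hf : Rule f) (hA : A % 2 = 0) (h4 : 2 ≤ A / 6) (hb : (A + b) % 4 = 2)
    (hAb : A + 40 ≤ b) (hN : A + b + 30 ≤ 2 * N) (H : Hyp f A b N) {x y : ℕ}
    (hx : 2 * N < x + 2) (hd : y + 2 * (A / 6) + 1 ≤ x) :
    f A (b + 3) x y ↔ Fst A (b + 3) x y := by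
  rcases Nat.lt_or_ge (2 * N) x with hx1 | hx1
  · exact H.r3 x y (by omega) hx1
  have hls : ∀ u v : ℕ, v ≤ u → 2 * N - 6 < u → 2 * (A / 6) ≤ u - v → LS f A (b + 3) u v := by
    intro u v huv hu hd' p q hp hq hpq hpa hqb
    rcases Nat.eq_zero_or_pos p with hp0 | hp0
    · subst hp0
      have hq1 : q = 1 := by omega
      subst hq1
      exact H.x2 u v (by omega) (by omega)
    · have hp1 : p = 1 := by omega
      subst hp1
      rcases Nat.eq_zero_or_pos q with hq0 | hq0
      · subst hq0
        exact H.l3 u v huv (by omega)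
      · have hq1 : q = 1 := by omega
        subst hq1
        exact H.l2 u v (by omega) (by omega)
  rcases Nat.lt_or_ge (A + b + 3 + y) x with hfar | hfar
  · rw [hf.far A (b + 3) x y (by omega), Fst_far (by omega) (by omega)]
  have hy6 : 6 ≤ y := by omega
  rcases Nat.lt_or_ge (x - y) (2 * (A / 6) + 3) with hd3 | hd3
  · -- the two inner deviations
    have key : ∀ u v : ℕ, u = v + (2 * (A / 6) + 2) → u % 2 = 1 → 2 * N < u + 4 → 6 ≤ v →
        f A (b + 3) u v := by
      intro u v huv hu hu2 hv
      refine one_loc hf (L := 2 * N - 6) (D := 2 * (A / 6)) (by omega) (by omega) (by omega) hv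
        (by omega) (by omega) hls ?_
      rw [huv]
      rw [Fst_zone hA (by omega) (by omega) (by omega)]
      omega
    rcases Nat.mod_two_eq_zero_or_one x with hx2 | hx2 <;>
      rcases Nat.lt_or_ge (x - y) (2 * (A / 6) + 2) with hd2 | hd2
    · -- `x` even, `d = 2 h + 1`
      have e : x = y + (2 * (A / 6) + 1) := by omega
      have hF : ¬ Fst A (b + 3) x y := by
        rw [e, Fst_zone hA (by omega) (by omega) (by omega)]
        omega
      refine iff_of_false ?_ hF
      have h1 : f A (b + 2) (x - 1) (y - 1) := by
        rw [H.x2 _ _ (by omega) (by omega)]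
        have e2 : x - 1 = (y - 1) + (2 * (A / 6) + 1) := by omega
        rw [e2, Fst_zone hA (by omega) (by omega) (by omega)]
        omega
      exact kill hf h1 (by omega) (by omega) (by omega) (by omega) (by omega)
    · -- `x` even, `d = 2 h + 2`
      have e : x = y + (2 * (A / 6) + 2) := by omega
      have hF : ¬ Fst A (b + 3) x y := by
        rw [e, Fst_zone hA (by omega) (by omega) (by omega)]
        omega
      refine iff_of_false ?_ hF
      exact kill hf (key (x - 1) (y - 1) (by omega) (by omega) (by omega) (by omega))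
        (by omega) (by omega) (by omega) (by omega) (by omega)
    · -- `x` odd, `d = 2 h + 1`
      have e : x = y + (2 * (A / 6) + 1) := by omega
      have hF : ¬ Fst A (b + 3) x y := by
        rw [e, Fst_zone hA (by omega) (by omega) (by omega)]
        omega
      refine iff_of_false ?_ hF
      exact kill hf (key x (y - 1) (by omega) (by omega) (by omega) (by omega))
        (by omega) (by omega) (by omega) (by omega) (by omega)
    · -- `x` odd, `d = 2 h + 2`
      have e : x = y + (2 * (A / 6) + 2) := by omega
      refine iff_of_true (key x y (by omega) hx2 (by omega) (by omega)) ?_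
      rw [e, Fst_zone hA (by omega) (by omega) (by omega)]
      omega
  · exact QF_loc hf (L := 2 * N - 6) (D := 2 * (A / 6)) (by omega) (by omega) (by omega) (by omega)
      hy6 (by omega) (by omega) hls

/-- The in-line of the tip is complete in the strip. -/
theorem travel (hf : Rule f) (hA : A % 2 = 0) (h4 : 2 ≤ A / 6) (hb : (A + b) % 4 = 2)
    (hAb : A + 40 ≤ b) (hN : A + b + 30 ≤ 2 * N) (H : Hyp f A b N)
    (tip : f A (b + 4) (2 * N + 1) (2 * N)) :
    ∀ t : ℕ, t + 1 ≤ A / 6 → f A (b + 4) (2 * N + 1) (2 * N - 2 * t) := by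
  intro t
  induction t with
  | zero => intro _; exact tip
  | succ t ih =>
    intro ht
    have ih' := ih (by omega)
    have hz : ¬ f A (b + 4) (2 * N + 1) (2 * N - 2 * t - 1) := by
      intro h'
      exact kill hf h' (a' := A) (b' := b + 4) (x' := 2 * N + 1) (y' := 2 * N - 2 * t)
        (by omega) (by omega) (by omega) (by omega) (by omega) ih'
    obtain ⟨p, q, r, s, hp, hq, hr, hs, hsum, hpa, hqb, hrx, hsy, hone⟩ :=
      hf.exists_pred (by omega) hz
    rcases Nat.eq_zero_or_pos s with hs0 | hs0
    · exfalso
      exact kill hf hone (a' := A) (b' := b + 4) (x' := 2 * N + 1) (y' := 2 * N - 2 * t)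
        (by omega) (by omega) (by omega) (by omega) (by omega) ih'
    have hs1 : s = 1 := by omega
    subst hs1
    rcases Nat.eq_zero_or_pos p with hp0 | hp0
    · subst hp0
      rcases Nat.eq_zero_or_pos q with hq0 | hq0
      · subst hq0
        rcases Nat.eq_zero_or_pos r with hr0 | hr0
        · subst hr0
          have e : 2 * N - 2 * t - 1 - 1 = 2 * N - 2 * (t + 1) := by omega
          rw [e] at hone
          exact hone
        · exfalso
          exact hf.not_allEven hone (by omega)
      · have hq1 : q = 1 := by omega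
        subst hq1
        exfalso
        rcases Nat.eq_zero_or_pos r with hr0 | hr0
        · subst hr0
          have e3 : b + 4 - 1 = b + 3 := by omega
          rw [e3, Nat.sub_zero, Nat.sub_zero, H.r3 _ _ (by omega) (by omega)] at hone
          have e : 2 * N + 1 = (2 * N - 2 * t - 1 - 1) + (2 * t + 3) := by omega
          rw [e, Fst_zone hA (by omega) (by omega) (by omega)] at hone
          omega
        · have hr1 : r = 1 := by omega
          subst hr1
          have e3 : b + 4 - 1 = b + 3 := by omega
          rw [e3, Nat.sub_zero, H.s3 _ _ (by omega) (by omega) (by omega)] at hone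
          have e : 2 * N + 1 - 1 = (2 * N - 2 * t - 1 - 1) + (2 * t + 2) := by omega
          rw [e, Fst_zone hA (by omega) (by omega) (by omega)] at hone
          omega
    · have hp1 : p = 1 := by omega
      subst hp1
      exfalso
      rcases Nat.eq_zero_or_pos q with hq0 | hq0
      · subst hq0
        rw [Nat.sub_zero, H.l4 _ _ (by omega) (by omega)] at hone
        exact odd_zero (by omega) (by omega) (by omega) (by omega) hone
      · have hq1 : q = 1 := by omega
        subst hq1
        have e3 : b + 4 - 1 = b + 3 := by omega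
        rw [e3, H.l3 _ _ (by omega) (by omega)] at hone
        exact odd_zero (by omega) (by omega) (by omega) (by omega) hone

end TipI

/-- THE TIP LEMMA, local form. -/
theorem tip_row (hf : Rule f) {A b N : ℕ} (hA : A % 2 = 0) (h4 : 2 ≤ A / 6)
    (hb : (A + b) % 4 = 2) (hAb : A + 40 ≤ b) (hN : A + b + 30 ≤ 2 * N) (H : Hyp f A b N)
    (hr : St f A (b + 4) (2 * N + 2)) (tip : f A (b + 4) (2 * N + 1) (2 * N)) :
    St f A (b + 4) (2 * N) := by
  refine St_of_half hf ?_
  intro x y hyx hx
  rcases Nat.lt_or_ge (2 * N + 2) x with hx2 | hx2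
  · exact hr x y (lt_of_lt_of_le hx2 (le_max_left _ _))
  have hline : ∀ v : ℕ, v % 2 = 0 → v ≤ 2 * N → 2 * N + 2 ≤ v + 2 * (A / 6) →
      f A (b + 4) (2 * N + 1) v := by
    intro v hv hv1 hv2
    have := travel hf hA h4 hb hAb hN H tip ((2 * N - v) / 2) (by omega)
    have e : 2 * N - 2 * ((2 * N - v) / 2) = v := by omega
    rw [e] at this
    exact this
  -- the lower planes
  have hls : ∀ u v : ℕ, v ≤ u → 2 * N - 2 < u → 2 * (A / 6) + 1 ≤ u - v → LS f A (b + 4) u v := by
    intro u v huv hu hd' p q hp hq hpq hpa hqb
    rcases Nat.eq_zero_or_pos p with hp0 | hp0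
    · subst hp0
      have hq1 : q = 1 := by omega
      subst hq1
      exact ext3 hf hA h4 hb hAb hN H (by omega) (by omega)
    · have hp1 : p = 1 := by omega
      subst hp1
      rcases Nat.eq_zero_or_pos q with hq0 | hq0
      · subst hq0
        exact H.l4 u v huv (by omega)
      · have hq1 : q = 1 := by omega
        subst hq1
        exact H.l3 u v huv (by omega)
  have h3one : ∀ v : ℕ, 2 * N + 1 = v + (2 * (A / 6) + 3) → f A (b + 4) (2 * N + 1) v := by
    intro v hv
    refine one_loc hf (L := 2 * N - 2) (D := 2 * (A / 6) + 1) (by omega) (by omega) (by omega)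
      (by omega) (by omega) (by omega) hls ?_
    rw [hv, Fst_zone hA (by omega) (by omega) (by omega)]
    omega
  have z1 : ∀ v : ℕ, 2 * N + 1 = v + (2 * (A / 6) + 1) → ¬ f A (b + 4) (2 * N + 1) v := by
    intro v hv
    have h1 : f A (b + 3) (2 * N + 1) (v - 1) := by
      rw [H.r3 _ _ (by omega) (by omega)]
      have e : 2 * N + 1 = (v - 1) + (2 * (A / 6) + 2) := by omega
      rw [e, Fst_zone hA (by omega) (by omega) (by omega)]
      omega
    exact kill hf h1 (by omega) (by omega) (by omega) (by omega) (by omega)
  have z0 : ∀ v : ℕ, 2 * N + 1 = v + 2 * (A / 6) → ¬ f A (b + 4) (2 * N + 1) v := by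
    intro v hv h'
    exact kill hf h' (a' := A) (b' := b + 4) (x' := 2 * N + 1) (y' := v + 1)
      (by omega) (by omega) (by omega) (by omega) (by omega)
      (hline (v + 1) (by omega) (by omega) (by omega))
  rcases Nat.lt_or_ge (x - y) (2 * (A / 6) + 4) with hd | hd
  swap
  · rcases Nat.lt_or_ge (A + b + 4 + y) x with hfar | hfar
    · rw [hf.far A (b + 4) x y (by omega), Fst_far (by omega) (by omega)]
    · exact QF_loc hf (L := 2 * N - 2) (D := 2 * (A / 6) + 1) (by omega) (by omega) hyx (by omega)
        (by omega) (by omega) (by omega) hls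
  have hx12 : x = 2 * N + 1 ∨ x = 2 * N + 2 := by omega
  obtain ⟨D, hD⟩ : ∃ D, x = y + D := ⟨x - y, by omega⟩
  have hFst := Fst_zone (a := A) (b := b + 4) (y := y) (D := D) hA (by omega) (by omega) (by omega)
  rw [← hD] at hFst
  rcases hx12 with hx1 | hx1
  · rcases Nat.lt_or_ge D (2 * (A / 6)) with hs | hs
    · rcases Nat.mod_two_eq_zero_or_one y with hy2 | hy2
      · refine iff_of_true ?_ ?_
        · rw [hx1]
          exact hline y hy2 (by omega) (by omega)
        · rw [hFst]
          omega
      · refine iff_of_false ?_ ?_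
        · rw [hx1]
          exact kill hf (hline (y - 1) (by omega) (by omega) (by omega)) (by omega) (by omega)
            (by omega) (by omega) (by omega)
        · rw [hFst]
          omega
    · have hDc : D = 2 * (A / 6) ∨ D = 2 * (A / 6) + 1 ∨ D = 2 * (A / 6) + 2 ∨
          D = 2 * (A / 6) + 3 := by omega
      rcases hDc with hDc | hDc | hDc | hDc
      · refine iff_of_false ?_ ?_
        · rw [hx1]
          exact z0 y (by omega)
        · rw [hFst]
          omega
      · refine iff_of_false ?_ ?_
        · rw [hx1]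
          exact z1 y (by omega)
        · rw [hFst]
          omega
      · refine iff_of_false ?_ ?_
        · rw [hx1]
          exact kill hf (h3one (y - 1) (by omega)) (by omega) (by omega)
            (by omega) (by omega) (by omega)
        · rw [hFst]
          omega
      · refine iff_of_true ?_ ?_
        · rw [hx1]
          exact h3one y (by omega)
        · rw [hFst]
          omega
  · rcases Nat.mod_two_eq_zero_or_one y with hy2 | hy2
    · refine iff_of_false ?_ ?_
      · intro h'
        exact hf.not_allEven h' (by omega)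
      · rw [hFst]
        omega
    · rcases Nat.lt_or_ge D (2 * (A / 6)) with hs | hs
      · refine iff_of_false ?_ ?_
        · exact kill hf (hline (y - 1) (by omega) (by omega) (by omega)) (by omega) (by omega)
            (by omega) (by omega) (by omega)
        · rw [hFst]
          omega
      · have hDc : D = 2 * (A / 6) + 1 ∨ D = 2 * (A / 6) + 3 := by omega
        rcases hDc with hDc | hDc
        · refine iff_of_true ?_ ?_
          · -- born
            by_contra hno
            obtain ⟨p, q, r, s, hp, hq, hr', hs', hsum, hpa, hqb, hrx, hsy, hone⟩ :=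
              hf.exists_pred (by omega) hno
            rcases Nat.eq_zero_or_pos p with hp0 | hp0
            · subst hp0
              rcases Nat.eq_zero_or_pos q with hq0 | hq0
              · subst hq0
                simp only [Nat.sub_zero] at hone
                have hrs : (r = 0 ∧ s = 1) ∨ (r = 1 ∧ s = 0) ∨ (r = 1 ∧ s = 1) := by omega
                rcases hrs with ⟨rfl, rfl⟩ | ⟨rfl, rfl⟩ | ⟨rfl, rfl⟩
                · exact hf.not_allEven hone (by omega)
                · have e : x - 1 = 2 * N + 1 := by omega
                  rw [e] at hone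
                  exact z0 _ (by omega) hone
                · have e : x - 1 = 2 * N + 1 := by omega
                  rw [e] at hone
                  exact z1 _ (by omega) hone
              · have hq1 : q = 1 := by omega
                subst hq1
                have e3 : b + 4 - 1 = b + 3 := by omega
                rw [e3, Nat.sub_zero, H.r3 _ _ (by omega) (by omega)] at hone
                obtain ⟨D', hD'⟩ : ∃ D', x - r = (y - s) + D' := ⟨x - r - (y - s), by omega⟩
                rw [hD', Fst_zone hA (by omega) (by omega) (by omega)] at hone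
                omega
            · have hp1 : p = 1 := by omega
              subst hp1
              rcases Nat.eq_zero_or_pos q with hq0 | hq0
              · subst hq0
                rw [Nat.sub_zero, H.l4 _ _ (by omega) (by omega)] at hone
                exact odd_zero (by omega) (by omega) (by omega) (by omega) hone
              · have hq1 : q = 1 := by omega
                subst hq1
                have e3 : b + 4 - 1 = b + 3 := by omega
                rw [e3, H.l3 _ _ (by omega) (by omega)] at hone
                exact odd_zero (by omega) (by omega) (by omega) (by omega) hone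
          · rw [hFst]
            omega
        · refine iff_of_false ?_ ?_
          · have := h3one (y - 1) (by omega)
            exact kill hf this (by omega) (by omega) (by omega) (by omega) (by omega)
          · rw [hFst]
            omega

/-- The hypotheses of the tip lemma from the previous cycle. -/
theorem hyp_of_cyc {A b n : ℕ} (h4 : 4 ≤ A / 6) (C : Cyc f A b (2 * n + 2))
    (l2 : St f (A - 1) (b + 2) (2 * (n + A / 6 + 2) - 6))
    (l3 : St f (A - 1) (b + 3) (2 * (n + A / 6 + 2) - 6))
    (l4 : St f (A - 1) (b + 4) (2 * (n + A / 6 + 2) - 2)) :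
    Hyp f A b (n + A / 6 + 2) := by
  have hcc : cc A = 2 * (A / 6) := by
    unfold cc
    omega
  refine ⟨?_, ?_, ?_, ?_, ?_, ?_⟩
  · intro x y hd hx
    refine C.r2x x y ?_ ?_
    · rw [max_eq_left (by omega), min_eq_right (by omega)]
      exact hd
    · rw [max_eq_left (by omega)]
      omega
  · intro x y hyx hx
    refine C.r3 x y ?_
    rw [max_eq_left hyx]
    omega
  · intro x y hyx hd hy
    refine C.r3s x y ?_ ?_
    · rw [max_eq_left hyx, min_eq_right hyx]
      omega
    · rw [min_eq_right hyx]
      omega
  · intro x y hd hx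
    refine l2 x y (lt_of_lt_of_le ?_ (le_max_left _ _))
    omega
  · intro x y hyx hx
    refine l3 x y (lt_of_lt_of_le ?_ (le_max_left _ _))
    omega
  · intro x y hyx hx
    refine l4 x y (lt_of_lt_of_le ?_ (le_max_left _ _))
    omega

/-- THE TIP LEMMA over the cycle of helper96. -/
theorem tip_cyc (hf : Rule f) {A b n : ℕ} (hA : A % 2 = 0) (h4 : 4 ≤ A / 6)
    (hb : (A + b) % 4 = 2) (hAb : A + 40 ≤ b) (hn : A + b + 30 ≤ 2 * n)
    (C : Cyc f A b (2 * n + 2))
    (l2 : St f (A - 1) (b + 2) (2 * (n + A / 6 + 2) - 6))
    (l3 : St f (A - 1) (b + 3) (2 * (n + A / 6 + 2) - 6))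
    (l4 : St f (A - 1) (b + 4) (2 * (n + A / 6 + 2) - 2))
    (hnot : ¬ St f A (b + 4) (2 * (n + A / 6 + 2))) :
    ¬ f A (b + 4) (2 * (n + A / 6 + 2) + 1) (2 * (n + A / 6 + 2)) := by
  intro tip
  have hcc : cc A = 2 * (A / 6) := by
    unfold cc
    omega
  refine hnot (tip_row hf hA (by omega) hb hAb (by omega) (hyp_of_cyc h4 C l2 l3 l4) ?_ tip)
  have h := C.r4
  have e : 2 * n + 2 + cc A + 4 = 2 * (n + A / 6 + 2) + 2 := by omega
  rw [e] at h
  exact h

end Pool.Agent.SNT
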