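import Pool.Agent.SNT.PfDef
import Pool.Agent.SNT.ProfRecW
import Pool.Agent.SNT.TipI

set_option autoImplicit false

/-! The adapter: the four leader theorems in the natural-number window form give the premises of
the weighted record. -/

namespace Pool.Agent.SNT

variable {f : ℕ → ℕ → ℕ → ℕ → Prop}

theorem nuLead_iter {k a b : ℕ} (ha : a % 2 = 0) (hab : (a + b) % 4 = 2) (i : ℕ) :
    nuLead k a (b + 4 * i) = nuLead k a b + ((k : ℤ) + 2) * i := by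
  induction i with
  | zero => simp
  | succ i ih =>
    have h := nuLead_next (k := k) (a := a) (b := b + 4 * i) ha (by omega)
    have e : b + 4 * (i + 1) = b + 4 * i + 4 := by ring
    rw [e, h, ih]
    push_cast
    ring

/-- The leads of the other layers. -/
theorem nuLead_two {k b : ℕ} (hb : (6 * k + b) % 4 = 2) :
    nuLead k (6 * k + 2) (b + 2) = nuLead k (6 * k) b + 2 :=
  nuLead_up (by omega) hb

theorem nuLead_four {k b : ℕ} (hb : (6 * k + b) % 4 = 2) :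
    nuLead k (6 * k + 4) b = nuLead k (6 * k) b + 2 - k := by
  have h1 := nuLead_up (k := k) (a := 6 * k + 2) (b := b + 2) (by omega) (by omega)
  have h2 := nuLead_two hb
  have h3 := nuLead_next (k := k) (a := 6 * k + 4) (b := b) (by omega) (by omega)
  have e1 : 6 * k + 2 + 2 = 6 * k + 4 := by ring
  have e2 : b + 2 + 2 = b + 4 := by ring
  rw [e1, e2] at h1
  omega

theorem nuLead_six {k b : ℕ} (hb : (6 * k + b) % 4 = 2) :
    nuLead k (6 * k + 6) (b + 2) = nuLead k (6 * k) b + 4 - k := by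
  have h1 := nuLead_up (k := k) (a := 6 * k + 4) (b := b) (by omega) (by omega)
  have h2 := nuLead_four hb
  have e1 : 6 * k + 4 + 2 = 6 * k + 6 := by ring
  rw [e1] at h1
  omega

/-- The window from the profiles. -/
theorem stack_of_pf {k b m e0 e2 e4 e6 : ℕ} {J : ℤ} (hb2 : b % 2 = 0)
    (hb : (6 * k + b) % 4 = 2) (hm : (m : ℤ) + k = nuLead k (6 * k) b + (J - 1))
    (h0 : ∀ b' : ℕ, b ≤ b' → Pf k f (6 * k) b' (J - 1 + e0))
    (h2 : ∀ b' : ℕ, b ≤ b' → Pf k f (6 * k + 2) b' (J - 1 + e2))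
    (h4 : ∀ b' : ℕ, b ≤ b' → Pf k f (6 * k + 4) b' (J - 1 + e4))
    (h6 : ∀ b' : ℕ, b ≤ b' → Pf k f (6 * k + 6) b' (J - 1 + e6))
    (lw : ∀ i : ℕ, i ≤ 100 → St f (6 * k - 1) (b + i) (2 * m - (100 * k + 1000))) :
    Stack f k b m e0 e2 e4 e6 := by
  refine ⟨?_, ?_, ?_, ?_, lw⟩
  · intro i
    refine h0 (b + 4 * i) (by omega) (by omega) (by omega) (by omega) _ ?_
    rw [nuLead_iter (by omega) hb]
    push_cast
    linarith
  · intro i
    refine h2 (b + 2 + 4 * i) (by omega) (by omega) (by omega) (by omega) _ ?_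
    rw [nuLead_iter (by omega) (by omega), nuLead_two hb]
    push_cast
    linarith
  · intro i
    refine h4 (b + 4 * i) (by omega) (by omega) (by omega) (by omega) _ ?_
    rw [nuLead_iter (by omega) (by omega), nuLead_four hb]
    push_cast
    linarith
  · intro i
    refine h6 (b + 2 + 4 * i) (by omega) (by omega) (by omega) (by omega) _ ?_
    rw [nuLead_iter (by omega) (by omega), nuLead_six hb]
    push_cast
    linarith

/-- Large rows have a window. -/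
theorem exists_side (hf : Rule f) {k : ℕ} (hk : 8 ≤ k) (J : ℤ) : ∃ B : ℕ, ∀ b : ℕ, B ≤ b →
    b % 2 = 0 → (6 * k + b) % 4 = 2 → ∃ m : ℕ, Side k b m ∧
      (m : ℤ) + k = nuLead k (6 * k) b + (J - 1) ∧
      ∀ i : ℕ, i ≤ 100 → St f (6 * k - 1) (b + i) (2 * m - (100 * k + 1000)) := by
  obtain ⟨C, hC⟩ := lin hf (6 * k - 1)
  refine ⟨C + 12 * k * k + 1000 * k + 10000 + 8 * J.natAbs, ?_⟩
  intro b hB hb2 hb
  have hex := nuLead_exact (k := k) (a := 6 * k) (b := b) (by omega) hb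
  push_cast at hex
  have hJ : -(J.natAbs : ℤ) ≤ J := by omega
  have hB' : (C : ℤ) + 12 * k * k + 1000 * k + 10000 + 8 * J.natAbs ≤ b := by exact_mod_cast hB
  have hk' : (8 : ℤ) ≤ k := by exact_mod_cast hk
  have hb0 : (0 : ℤ) ≤ b := Int.natCast_nonneg b
  have hC0 : (0 : ℤ) ≤ C := Int.natCast_nonneg C
  have hJ0 : (0 : ℤ) ≤ J.natAbs := Int.natCast_nonneg _
  have hkb : (0 : ℤ) ≤ ((k : ℤ) - 8) * b := mul_nonneg (by linarith) hb0
  have hkk : (0 : ℤ) ≤ (k : ℤ) * k := mul_nonneg (by linarith) (by linarith)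
  have hbig : 2 * (b : ℤ) ≤ nuLead k (6 * k) b + (J - 1) - k := by
    nlinarith
  obtain ⟨m, hm⟩ : ∃ m : ℕ, (m : ℤ) = nuLead k (6 * k) b + (J - 1) - k :=
    ⟨(nuLead k (6 * k) b + (J - 1) - k).toNat, Int.toNat_of_nonneg (by linarith)⟩
  have hbm : 2 * b ≤ m := by
    have : 2 * (b : ℤ) ≤ m := by rw [hm]; exact hbig
    exact_mod_cast this
  have hkB : 100 * k + 1000 ≤ b := by
    have h1 : 1000 * k ≤ b := by
      have : 0 ≤ 12 * k * k := Nat.zero_le _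
      omega
    omega
  refine ⟨m, ⟨hk, hb2, hb, hkB, hbm⟩, by linarith, ?_⟩
  intro i hi
  refine hC (b + i) _ ?_
  have hcc : cc (6 * k - 1) = 2 * k - 2 := by
    unfold cc
    omega
  have e1 : cc (6 * k - 1) + 4 = 2 * k + 2 := by omega
  rw [e1]
  have h1 : (2 * (k : ℤ) + 2) * (b + i) + C ≤ 4 * (2 * m - (100 * k + 1000)) := by
    have hi' : (i : ℤ) ≤ 100 := by exact_mod_cast hi
    have hki : (2 * (k : ℤ) + 2) * i ≤ (2 * (k : ℤ) + 2) * 100 :=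
      mul_le_mul_of_nonneg_left hi' (by linarith)
    rw [hm]
    nlinarith
  have h2 : 100 * k + 1000 ≤ 2 * m := by omega
  zify [h2]
  exact_mod_cast h1

/-- LOCATION for the isolated layer `6 k`. -/
theorem loc_zero (hf : Rule f) {k b m e2 e4 e6 : ℕ} (hs : Side k b m)
    (S : Stack f k b m 1 e2 e4 e6)
    (h : ¬ Cyc f (6 * k) (b + 16) (2 * (m + k + 1 + (k + 2) * 4))) :
    ¬ f (6 * k) (b + 16) (2 * (m + k + 1 + (k + 2) * 4) + 1) (2 * (m + k + 1 + (k + 2) * 4)) := by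
  obtain ⟨hk, hb2, hb, hkb, hbm⟩ := hs
  have e6k : 6 * k / 6 = k := by omega
  have hlow : ∀ i K : ℕ, i ≤ 100 → 2 * m ≤ K → St f (6 * k - 1) (b + i) K := by
    intro i K hi hK
    exact (S.lw i hi).mono (by omega)
  have h3 := S.l0 3
  have hnot : ¬ St f (6 * k) (b + 16) (2 * (m + k + 1 + (k + 2) * 4)) := by
    intro hst
    refine h (cycle hf (by omega) (by omega) (by omega) (by omega) (by omega) (by omega) hst ?_)
    intro i hi _
    have := hlow (16 + i) (2 * (m + k + 1 + (k + 2) * 4)) (by omega) (by omega)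
    rwa [← Nat.add_assoc] at this
  have key := tip_cyc hf (A := 6 * k) (b := b + 12) (n := m + k + 1 + (k + 2) * 3) (by omega)
    (by omega) (by omega) (by omega) (by omega) h3
  rw [e6k] at key
  have en : m + k + 1 + (k + 2) * 3 + k + 2 = m + k + 1 + (k + 2) * 4 := by ring
  rw [en] at key
  exact key (hlow 14 _ (by omega) (by omega)) (hlow 15 _ (by omega) (by omega))
    (hlow 16 _ (by omega) (by omega)) hnot

/-- The leader statements in window form. -/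
def LeadR0 (f : ℕ → ℕ → ℕ → ℕ → Prop) (k : ℕ) : Prop := ∀ b m : ℕ, Side k b m →
  Stack f k b m 1 1 1 1 →
  ¬ f (6 * k) (b + 16) (2 * (m + k + 1 + (k + 2) * 4) + 1) (2 * (m + k + 1 + (k + 2) * 4)) →
  False

def LeadR2 (f : ℕ → ℕ → ℕ → ℕ → Prop) (k : ℕ) : Prop := ∀ b m : ℕ, Side k b m →
  Stack f k b m 0 1 1 1 →
  ¬ f (6 * k + 2) (b + 18) (2 * (m + k + 3 + (k + 2) * 4) + 1) (2 * (m + k + 3 + (k + 2) * 4)) →
  False

def LeadR4 (f : ℕ → ℕ → ℕ → ℕ → Prop) (k : ℕ) : Prop := ∀ b m : ℕ, Side k b m →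
  Stack f k b m 0 0 1 0 →
  ¬ f (6 * k + 4) (b + 16) (2 * (m + 3 + (k + 2) * 4) + 1) (2 * (m + 3 + (k + 2) * 4)) →
  False

def LeadR6 (f : ℕ → ℕ → ℕ → ℕ → Prop) (k : ℕ) : Prop := ∀ b m : ℕ, Side k b m →
  Stack f k b m 1 1 1 1 →
  ¬ f (6 * k + 6) (b + 18) (2 * (m + 5 + (k + 2) * 4) + 1) (2 * (m + 5 + (k + 2) * 4)) →
  False

/-- LOCATION in window form for the other three layers. -/
def LocR2 (f : ℕ → ℕ → ℕ → ℕ → Prop) (k : ℕ) : Prop := ∀ b m : ℕ, Side k b m →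
  Stack f k b m 0 1 1 1 → ¬ Cy3 f (6 * k + 2) (b + 18) (2 * (m + k + 3 + (k + 2) * 4)) →
  ¬ f (6 * k + 2) (b + 18) (2 * (m + k + 3 + (k + 2) * 4) + 1) (2 * (m + k + 3 + (k + 2) * 4))

def LocR4 (f : ℕ → ℕ → ℕ → ℕ → Prop) (k : ℕ) : Prop := ∀ b m : ℕ, Side k b m →
  Stack f k b m 0 0 1 0 → ¬ Cy3 f (6 * k + 4) (b + 16) (2 * (m + 3 + (k + 2) * 4)) →
  ¬ f (6 * k + 4) (b + 16) (2 * (m + 3 + (k + 2) * 4) + 1) (2 * (m + 3 + (k + 2) * 4))

def LocR6 (f : ℕ → ℕ → ℕ → ℕ → Prop) (k : ℕ) : Prop := ∀ b m : ℕ, Side k b m →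
  Stack f k b m 1 1 1 1 → ¬ Cy3 f (6 * k + 6) (b + 18) (2 * (m + 5 + (k + 2) * 4)) →
  ¬ f (6 * k + 6) (b + 18) (2 * (m + 5 + (k + 2) * 4) + 1) (2 * (m + 5 + (k + 2) * 4))

/-- One step below the profile: the general reduction. -/
theorem pf_pred {k a b0 : ℕ} {J : ℤ} (hJ : Pf k f a b0 J)
    (h : a % 2 = 0 → b0 % 2 = 0 → (a + b0) % 4 = 2 → ∀ n : ℕ,
      (n : ℤ) = nuLead k a b0 + (J - 1) → Cyc f a b0 (2 * n + 2)) : Pf k f a b0 (J - 1) := by
  intro h1 h2 h3 n hn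
  rcases lt_or_ge (n : ℤ) (nuLead k a b0 + J) with h4 | h4
  · exact h h1 h2 h3 n (by omega)
  · exact hJ h1 h2 h3 n h4

theorem prem0 (hf : Rule f) {k : ℕ} (hk : 8 ≤ k) (R : LeadR0 f k) :
    ∀ J : ℤ, ∃ B : ℕ, ∀ b0 : ℕ, B ≤ b0 →
      (∀ b : ℕ, b0 ≤ b + 20 → Pf k f (6 * k) b J) →
      (∀ b : ℕ, b0 ≤ b + 20 → Pf k f (6 * k + 2) b J) →
      (∀ b : ℕ, b0 ≤ b + 20 → Pf k f (6 * k + 4) b J) →
      (∀ b : ℕ, b0 ≤ b + 20 → Pf k f (6 * k + 6) b (J - 1)) → Pf k f (6 * k) b0 (J - 1) := by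
  intro J
  obtain ⟨B, hB⟩ := exists_side hf hk J
  refine ⟨B + 20, ?_⟩
  intro b0 hb0 p0 p2 p4 p6
  refine pf_pred (p0 b0 (by omega)) ?_
  intro h1 h2 h3 n hn
  by_contra hno
  obtain ⟨b, rfl⟩ : ∃ b, b0 = b + 16 := ⟨b0 - 16, by omega⟩
  obtain ⟨m, hs, hm, hlw⟩ := hB b (by omega) (by omega) (by omega)
  have S : Stack f k b m 1 1 1 1 := by
    refine stack_of_pf (J := J) (by omega) (by omega) hm ?_ ?_ ?_ ?_ hlw
    · intro b' hb'
      exact (p0 b' (by omega)).mono (by omega)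
    · intro b' hb'
      exact (p2 b' (by omega)).mono (by omega)
    · intro b' hb'
      exact (p4 b' (by omega)).mono (by omega)
    · intro b' hb'
      exact (p6 b' (by omega)).mono (by omega)
  have hn' : n + 1 = m + k + 1 + (k + 2) * 4 := by
    have e := nuLead_iter (k := k) (a := 6 * k) (b := b) (by omega) (by omega) 4
    have e' : b + 4 * 4 = b + 16 := by ring
    rw [e'] at e
    rw [e] at hn
    push_cast at hn
    have : (n : ℤ) + 1 = m + k + 1 + (k + 2) * 4 := by linarith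
    exact_mod_cast this
  refine R b m hs S (loc_zero hf hs S ?_)
  rw [← hn']
  exact hno

/-- The hit of the layer `6 k + 2` at any row of the window. -/
theorem hit2 {k : ℕ} {J : ℤ} {B b1 : ℕ} (R : LeadR2 f k) (L : LocR2 f k)
    (hB : ∀ b : ℕ, B ≤ b → b % 2 = 0 → (6 * k + b) % 4 = 2 → ∃ m : ℕ, Side k b m ∧
      (m : ℤ) + k = nuLead k (6 * k) b + (J - 1) ∧
      ∀ i : ℕ, i ≤ 100 → St f (6 * k - 1) (b + i) (2 * m - (100 * k + 1000)))
    (hb1 : B + 20 ≤ b1)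
    (p0 : ∀ b : ℕ, b1 ≤ b + 20 → Pf k f (6 * k) b (J - 1))
    (p2 : ∀ b : ℕ, b1 ≤ b + 20 → Pf k f (6 * k + 2) b J)
    (p4 : ∀ b : ℕ, b1 ≤ b + 20 → Pf k f (6 * k + 4) b J)
    (p6 : ∀ b : ℕ, b1 ≤ b + 20 → Pf k f (6 * k + 6) b (J - 1))
    (h2 : b1 % 2 = 0) (h3 : (6 * k + 2 + b1) % 4 = 2) (n : ℕ)
    (hn : (n : ℤ) = nuLead k (6 * k + 2) b1 + (J - 1)) : Cy3 f (6 * k + 2) b1 (2 * n + 2) := by
  by_contra hno
  obtain ⟨b, rfl⟩ : ∃ b, b1 = b + 18 := ⟨b1 - 18, by omega⟩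
  obtain ⟨m, hs, hm, hlw⟩ := hB b (by omega) (by omega) (by omega)
  have S : Stack f k b m 0 1 1 1 := by
    refine stack_of_pf (J := J) (by omega) (by omega) hm ?_ ?_ ?_ ?_ hlw
    · intro b' hb'
      exact (p0 b' (by omega)).mono (by omega)
    · intro b' hb'
      exact (p2 b' (by omega)).mono (by omega)
    · intro b' hb'
      exact (p4 b' (by omega)).mono (by omega)
    · intro b' hb'
      exact (p6 b' (by omega)).mono (by omega)
  have hn' : n + 1 = m + k + 3 + (k + 2) * 4 := by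
    have e := nuLead_iter (k := k) (a := 6 * k + 2) (b := b + 2) (by omega) (by omega) 4
    have e' : b + 2 + 4 * 4 = b + 18 := by ring
    have t := nuLead_two (k := k) (b := b) (by omega)
    rw [e', t] at e
    rw [e] at hn
    push_cast at hn
    have : (n : ℤ) + 1 = m + k + 3 + (k + 2) * 4 := by linarith
    exact_mod_cast this
  refine R b m hs S (L b m hs S ?_)
  rw [← hn']
  exact hno

theorem hit4 {k : ℕ} {J : ℤ} {B b1 : ℕ} (R : LeadR4 f k) (L : LocR4 f k)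
    (hB : ∀ b : ℕ, B ≤ b → b % 2 = 0 → (6 * k + b) % 4 = 2 → ∃ m : ℕ, Side k b m ∧
      (m : ℤ) + k = nuLead k (6 * k) b + (J - 1) ∧
      ∀ i : ℕ, i ≤ 100 → St f (6 * k - 1) (b + i) (2 * m - (100 * k + 1000)))
    (hb1 : B + 20 ≤ b1)
    (p0 : ∀ b : ℕ, b1 ≤ b + 20 → Pf k f (6 * k) b (J - 1))
    (p2 : ∀ b : ℕ, b1 ≤ b + 20 → Pf k f (6 * k + 2) b (J - 1))
    (p4 : ∀ b : ℕ, b1 ≤ b + 20 → Pf k f (6 * k + 4) b J)
    (p6 : ∀ b : ℕ, b1 ≤ b + 20 → Pf k f (6 * k + 6) b (J - 1))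
    (h2 : b1 % 2 = 0) (h3 : (6 * k + 4 + b1) % 4 = 2) (n : ℕ)
    (hn : (n : ℤ) = nuLead k (6 * k + 4) b1 + (J - 1)) : Cy3 f (6 * k + 4) b1 (2 * n + 2) := by
  by_contra hno
  obtain ⟨b, rfl⟩ : ∃ b, b1 = b + 16 := ⟨b1 - 16, by omega⟩
  obtain ⟨m, hs, hm, hlw⟩ := hB b (by omega) (by omega) (by omega)
  have S : Stack f k b m 0 0 1 0 := by
    refine stack_of_pf (J := J) (by omega) (by omega) hm ?_ ?_ ?_ ?_ hlw
    · intro b' hb'
      exact (p0 b' (by omega)).mono (by omega)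
    · intro b' hb'
      exact (p2 b' (by omega)).mono (by omega)
    · intro b' hb'
      exact (p4 b' (by omega)).mono (by omega)
    · intro b' hb'
      exact (p6 b' (by omega)).mono (by omega)
  have hn' : n + 1 = m + 3 + (k + 2) * 4 := by
    have e := nuLead_iter (k := k) (a := 6 * k + 4) (b := b) (by omega) (by omega) 4
    have e' : b + 4 * 4 = b + 16 := by ring
    have t := nuLead_four (k := k) (b := b) (by omega)
    rw [e', t] at e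
    rw [e] at hn
    push_cast at hn
    have : (n : ℤ) + 1 = m + 3 + (k + 2) * 4 := by linarith
    exact_mod_cast this
  refine R b m hs S (L b m hs S ?_)
  rw [← hn']
  exact hno

theorem hit6 {k : ℕ} {J : ℤ} {B b1 : ℕ} (R : LeadR6 f k) (L : LocR6 f k)
    (hB : ∀ b : ℕ, B ≤ b → b % 2 = 0 → (6 * k + b) % 4 = 2 → ∃ m : ℕ, Side k b m ∧
      (m : ℤ) + k = nuLead k (6 * k) b + (J - 1) ∧
      ∀ i : ℕ, i ≤ 100 → St f (6 * k - 1) (b + i) (2 * m - (100 * k + 1000)))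
    (hb1 : B + 20 ≤ b1)
    (p0 : ∀ b : ℕ, b1 ≤ b + 20 → Pf k f (6 * k) b J)
    (p2 : ∀ b : ℕ, b1 ≤ b + 20 → Pf k f (6 * k + 2) b J)
    (p4 : ∀ b : ℕ, b1 ≤ b + 20 → Pf k f (6 * k + 4) b J)
    (p6 : ∀ b : ℕ, b1 ≤ b + 20 → Pf k f (6 * k + 6) b J)
    (h2 : b1 % 2 = 0) (h3 : (6 * k + 6 + b1) % 4 = 2) (n : ℕ)
    (hn : (n : ℤ) = nuLead k (6 * k + 6) b1 + (J - 1)) : Cy3 f (6 * k + 6) b1 (2 * n + 2) := by
  by_contra hno
  obtain ⟨b, rfl⟩ : ∃ b, b1 = b + 18 := ⟨b1 - 18, by omega⟩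
  obtain ⟨m, hs, hm, hlw⟩ := hB b (by omega) (by omega) (by omega)
  have S : Stack f k b m 1 1 1 1 := by
    refine stack_of_pf (J := J) (by omega) (by omega) hm ?_ ?_ ?_ ?_ hlw
    · intro b' hb'
      exact (p0 b' (by omega)).mono (by omega)
    · intro b' hb'
      exact (p2 b' (by omega)).mono (by omega)
    · intro b' hb'
      exact (p4 b' (by omega)).mono (by omega)
    · intro b' hb'
      exact (p6 b' (by omega)).mono (by omega)
  have hn' : n + 1 = m + 5 + (k + 2) * 4 := by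
    have e := nuLead_iter (k := k) (a := 6 * k + 6) (b := b + 2) (by omega) (by omega) 4
    have e' : b + 2 + 4 * 4 = b + 18 := by ring
    have t := nuLead_six (k := k) (b := b) (by omega)
    rw [e', t] at e
    rw [e] at hn
    push_cast at hn
    have : (n : ℤ) + 1 = m + 5 + (k + 2) * 4 := by linarith
    exact_mod_cast this
  refine R b m hs S (L b m hs S ?_)
  rw [← hn']
  exact hno

theorem prem2 (hf : Rule f) {k : ℕ} (hk : 8 ≤ k) (R : LeadR2 f k) (L : LocR2 f k) :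
    ∀ J : ℤ, ∃ B : ℕ, ∀ b0 : ℕ, B ≤ b0 →
      (∀ b : ℕ, b0 ≤ b + 20 → Pf k f (6 * k) b (J - 1)) →
      (∀ b : ℕ, b0 ≤ b + 20 → Pf k f (6 * k + 2) b J) →
      (∀ b : ℕ, b0 ≤ b + 20 → Pf k f (6 * k + 4) b J) →
      (∀ b : ℕ, b0 ≤ b + 20 → Pf k f (6 * k + 6) b (J - 1)) →
      Pf k f (6 * k + 2) b0 (J - 1) := by
  intro J
  obtain ⟨B, hB⟩ := exists_side hf hk J
  refine ⟨B + 20, ?_⟩
  intro b0 hb0 p0 p2 p4 p6
  refine pf_pred (p2 b0 (by omega)) ?_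
  intro h1 h2 h3 n hn
  have c0 := hit2 R L hB hb0 p0 p2 p4 p6 h2 h3 n hn
  have hn4 : ((n + (k + 2) : ℕ) : ℤ) = nuLead k (6 * k + 2) (b0 + 4) + (J - 1) := by
    rw [nuLead_next h1 h3]
    push_cast
    linarith
  have c4 := hit2 R L hB (b1 := b0 + 4) (by omega) (fun b hb => p0 b (by omega))
    (fun b hb => p2 b (by omega)) (fun b hb => p4 b (by omega)) (fun b hb => p6 b (by omega))
    (by omega) (by omega) (n + (k + 2)) hn4
  refine Cyc.of3 c0 ?_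
  have hcc : cc (6 * k + 2) = 2 * k := by
    unfold cc
    omega
  rw [hcc]
  exact c4.r0.mono (by omega)

theorem prem4 (hf : Rule f) {k : ℕ} (hk : 8 ≤ k) (R : LeadR4 f k) (L : LocR4 f k) :
    ∀ J : ℤ, ∃ B : ℕ, ∀ b0 : ℕ, B ≤ b0 →
      (∀ b : ℕ, b0 ≤ b + 20 → Pf k f (6 * k) b (J - 1)) →
      (∀ b : ℕ, b0 ≤ b + 20 → Pf k f (6 * k + 2) b (J - 1)) →
      (∀ b : ℕ, b0 ≤ b + 20 → Pf k f (6 * k + 4) b J) →
      (∀ b : ℕ, b0 ≤ b + 20 → Pf k f (6 * k + 6) b (J - 1)) →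
      Pf k f (6 * k + 4) b0 (J - 1) := by
  intro J
  obtain ⟨B, hB⟩ := exists_side hf hk J
  refine ⟨B + 20, ?_⟩
  intro b0 hb0 p0 p2 p4 p6
  refine pf_pred (p4 b0 (by omega)) ?_
  intro h1 h2 h3 n hn
  have c0 := hit4 R L hB hb0 p0 p2 p4 p6 h2 h3 n hn
  have hn4 : ((n + (k + 2) : ℕ) : ℤ) = nuLead k (6 * k + 4) (b0 + 4) + (J - 1) := by
    rw [nuLead_next h1 h3]
    push_cast
    linarith
  have c4 := hit4 R L hB (b1 := b0 + 4) (by omega) (fun b hb => p0 b (by omega))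
    (fun b hb => p2 b (by omega)) (fun b hb => p4 b (by omega)) (fun b hb => p6 b (by omega))
    (by omega) (by omega) (n + (k + 2)) hn4
  refine Cyc.of3 c0 ?_
  have hcc : cc (6 * k + 4) = 2 * k := by
    unfold cc
    omega
  rw [hcc]
  exact c4.r0.mono (by omega)

theorem prem6 (hf : Rule f) {k : ℕ} (hk : 8 ≤ k) (R : LeadR6 f k) (L : LocR6 f k) :
    ∀ J : ℤ, ∃ B : ℕ, ∀ b0 : ℕ, B ≤ b0 →
      (∀ b : ℕ, b0 ≤ b + 20 → Pf k f (6 * k) b J) →
      (∀ b : ℕ, b0 ≤ b + 20 → Pf k f (6 * k + 2) b J) →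
      (∀ b : ℕ, b0 ≤ b + 20 → Pf k f (6 * k + 4) b J) →
      (∀ b : ℕ, b0 ≤ b + 20 → Pf k f (6 * k + 6) b J) →
      Pf k f (6 * k + 6) b0 (J - 1) := by
  intro J
  obtain ⟨B, hB⟩ := exists_side hf hk J
  refine ⟨B + 20, ?_⟩
  intro b0 hb0 p0 p2 p4 p6
  refine pf_pred (p6 b0 (by omega)) ?_
  intro h1 h2 h3 n hn
  have c0 := hit6 R L hB hb0 p0 p2 p4 p6 h2 h3 n hn
  have c4 := p6 (b0 + 4) (by omega) h1 (by omega) (by omega) (n + (k + 2) + 1) (by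
    rw [nuLead_next h1 h3]
    push_cast
    linarith)
  refine Cyc.of3 c0 ?_
  have hcc : cc (6 * k + 6) = 2 * k + 2 := by
    unfold cc
    omega
  rw [hcc]
  exact c4.r0.mono (by omega)

/-- The record step: leaders, LOCATION, upper bounds and the lower bound are contradictory. -/
theorem record_false (hf : Rule f) {k : ℕ} (hk : 8 ≤ k)
    (up : ∀ i : ℕ, i ≤ 3 → ∃ J : ℤ, ∃ B : ℕ, ∀ b : ℕ, B ≤ b → Pf k f (6 * k + 2 * i) b J)
    (low : ∃ J : ℤ, ∀ B : ℕ, ∃ b : ℕ, B ≤ b ∧ ¬ Pf k f (6 * k) b J)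
    (R0 : LeadR0 f k) (R2 : LeadR2 f k) (R4 : LeadR4 f k) (R6 : LeadR6 f k)
    (L2 : LocR2 f k) (L4 : LocR4 f k) (L6 : LocR6 f k) : False :=
  rec4 k (Pf k f) (fun _ _ _ _ h H => H.mono h) up low 20 (prem0 hf hk R0) (prem2 hf hk R2 L2)
    (prem4 hf hk R4 L4) (prem6 hf hk R6 L6)

end Pool.Agent.SNT
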