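import Pool.Agent.SNT.StepS
import Pool.Agent.SNT.LWC

set_option autoImplicit false

/-! The record: the mixed predicate of the six layers `6 k, .., 6 k + 10`, and the induction step
from the six premises. -/

namespace Pool.Agent.SNT

open Pool.Agent.SNT.LW

variable {f : ℕ → ℕ → ℕ → ℕ → Prop}

/-- The layer `a` is static beyond the weak profile with offset `J` at its IN row `b`. -/
def Pw (k : ℕ) (f : ℕ → ℕ → ℕ → ℕ → Prop) (a b : ℕ) (J : ℤ) : Prop :=
  a % 2 = 0 → b % 2 = 0 → (a + b) % 4 = 2 → ∀ n : ℕ, nuLead k a b + J ≤ (n : ℤ) →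
    Cw f a b n

theorem Pw.mono {k a b : ℕ} {J J' : ℤ} (h : J ≤ J') (H : Pw k f a b J) : Pw k f a b J' :=
  fun h1 h2 h3 n hn => H h1 h2 h3 n (by omega)

/-- The predicate of the record: the full profile for the four lower layers, the weak profile for
the two upper ones. -/
def PfM (k : ℕ) (f : ℕ → ℕ → ℕ → ℕ → Prop) (i b : ℕ) (J : ℤ) : Prop :=
  if i ≤ 3 then Pf k f (6 * k + 2 * i) b J else Pw k f (6 * k + 2 * i) b J

theorem PfM.mono {k i b : ℕ} {J J' : ℤ} (h : J ≤ J') (H : PfM k f i b J) : PfM k f i b J' := by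
  unfold PfM at H ⊢
  split_ifs with hi
  · rw [if_pos hi] at H
    exact H.mono h
  · rw [if_neg hi] at H
    exact H.mono h

theorem PfM.of_pf {k i b : ℕ} {J : ℤ} (hk : 2 ≤ k) (H : Pf k f (6 * k + 2 * i) b J) :
    PfM k f i b J := by
  unfold PfM
  split_ifs with hi
  · exact H
  · intro h1 h2 h3 n hn
    exact Cw.of_cyc (by omega) (H h1 h2 h3 n hn)

/-- The premise of the leader `6 k + 2 i`: with the offset `J` for the layers `j ≥ i` and `J - 1`
for the layers `j < i` (from some row on) the leader has the offset `J - 1`. -/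
def Prem (f : ℕ → ℕ → ℕ → ℕ → Prop) (k i : ℕ) : Prop :=
  ∀ J : ℤ, ∃ B : ℕ, ∀ b0 : ℕ, B ≤ b0 →
    (∀ j : ℕ, j ≤ 5 → ∀ b : ℕ, b0 ≤ b + 40 → PfM k f j b (if j < i then J - 1 else J)) →
    PfM k f i b0 (J - 1)

/-- The induction step from the six premises. -/
theorem step_of_prem (hf : Rule f) {k : ℕ} (hk : 8 ≤ k) (P : ∀ i : ℕ, i ≤ 5 → Prem f k i)
    (h : SK f k) : SK f (k + 1) := by
  by_contra hno
  obtain ⟨A, O, H⟩ := exists_profRec (Finset.range 6) (fun i b J => PfM k f i b J)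
    (fun a b J J' hJ H => H.mono hJ)
    (by
      intro i hi
      obtain ⟨J, B, hB⟩ := up_of_not_SK hf (by omega) hno i
        (by have := Finset.mem_range.1 hi; omega)
      exact ⟨J, B, fun b hb => PfM.of_pf (by omega) (hB b hb)⟩)
    (by
      obtain ⟨i, hi, J, hJ⟩ := low_of_SK (by omega) h
      refine ⟨i, Finset.mem_range.2 (by omega), J, fun B => ?_⟩
      obtain ⟨b, hb, hn⟩ := hJ B
      refine ⟨b, hb, ?_⟩
      simp only [PfM]
      rw [if_pos (by omega : i ≤ 3)]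
      exact hn)
  have hA : A ≤ 5 := by
    have := Finset.mem_range.1 H.mem
    omega
  obtain ⟨B1, h1⟩ := H.all
  obtain ⟨B2, h2⟩ := H.low
  obtain ⟨B, hB⟩ := P A hA O
  obtain ⟨b, hb, hn⟩ := H.hit (B + B1 + B2 + 40)
  refine hn (hB b (by omega) ?_)
  intro j hj b' hb'
  have hjS : j ∈ Finset.range 6 := Finset.mem_range.2 (by omega)
  split_ifs with hjA
  · exact h2 j hjS hjA b' (by omega)
  · exact h1 j hjS b' (by omega)

/-- FINAL from the premises. -/
theorem final_of_prem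
    (h : ∀ f : ℕ → ℕ → ℕ → ℕ → Prop, Rule f → ∀ k : ℕ, 8 ≤ k → ∀ i : ℕ, i ≤ 5 → Prem f k i) :
    ¬ (∀ n k : ℕ, 1 ≤ k →
      ∀ P : Set (Fin n → ℕ),
        (∀ x : Fin n → ℕ, x ∈ P ↔
          ∀ S : Finset (Fin n), S.card = k → (∀ i ∈ S, 1 ≤ x i) →
            (fun i => if i ∈ S then x i - 1 else x i) ∉ P) →
        ∃ m r : ℕ, ∃ base : Fin m → Fin n → ℕ, ∃ per : Fin m → Fin r → Fin n → ℕ,
          ∀ x : Fin n → ℕ, x ∈ P ↔
            ∃ i : Fin m, ∃ c : Fin r → ℕ, x = base i + ∑ j, c j • per i j) :=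
  final_of_step fun f hf _ hk => step_of_prem hf hk (h f hf _ hk)

end Pool.Agent.SNT
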