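import Pool.Agent.SNT.Stack6
import Pool.Agent.SNT.Adapt
import Pool.Agent.SNT.RecFin

set_option autoImplicit false

/-! The adapter of the six layers: the six leader theorems and the five location theorems in the
natural-number window form give the six premises of the record. -/

namespace Pool.Agent.SNT

open Pool.Agent.SNT.LW

variable {f : ℕ → ℕ → ℕ → ℕ → Prop}

theorem nuLead_eight {k b : ℕ} (hb : (6 * k + b) % 4 = 2) :
    nuLead k (6 * k + 8) (b + 4) = nuLead k (6 * k) b + 6 - k := by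
  have h1 := nuLead_up (k := k) (a := 6 * k + 6) (b := b + 2) (by omega) (by omega)
  have h2 := nuLead_six hb
  have e1 : 6 * k + 6 + 2 = 6 * k + 8 := by ring
  have e2 : b + 2 + 2 = b + 4 := by ring
  rw [e1, e2] at h1
  omega

theorem nuLead_ten {k b : ℕ} (hb : (6 * k + b) % 4 = 2) :
    nuLead k (6 * k + 10) (b + 6) = nuLead k (6 * k) b + 8 - k := by
  have h1 := nuLead_up (k := k) (a := 6 * k + 8) (b := b + 4) (by omega) (by omega)
  have h2 := nuLead_eight hb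
  have e1 : 6 * k + 8 + 2 = 6 * k + 10 := by ring
  have e2 : b + 4 + 2 = b + 6 := by ring
  rw [e1, e2] at h1
  omega

namespace S6

/-- The window from the profiles. -/
theorem stack6 {k b m e0 e2 e4 e6 e8 e10 : ℕ} {J : ℤ} (hb2 : b % 2 = 0)
    (hb : (6 * k + b) % 4 = 2) (hm : (m : ℤ) + k = nuLead k (6 * k) b + (J - 1))
    (h0 : ∀ b' : ℕ, b ≤ b' → Pf k f (6 * k) b' (J - 1 + e0))
    (h2 : ∀ b' : ℕ, b ≤ b' → Pf k f (6 * k + 2) b' (J - 1 + e2))
    (h4 : ∀ b' : ℕ, b ≤ b' → Pf k f (6 * k + 4) b' (J - 1 + e4))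
    (h6 : ∀ b' : ℕ, b ≤ b' → Pf k f (6 * k + 6) b' (J - 1 + e6))
    (h8 : ∀ b' : ℕ, b ≤ b' → Pw k f (6 * k + 8) b' (J - 1 + e8))
    (h10 : ∀ b' : ℕ, b ≤ b' → Pw k f (6 * k + 10) b' (J - 1 + e10))
    (lw : ∀ i : ℕ, i ≤ 100 → St f (6 * k - 1) (b + i) (2 * m - (100 * k + 1000)))
    (fr : FarW f k b m) :
    Stack6 f k b m e0 e2 e4 e6 e8 e10 := by
  have S := stack_of_pf hb2 hb hm h0 h2 h4 h6 lw
  refine ⟨S.l0, S.l2, S.l4, S.l6, ?_, ?_, lw, fr⟩
  · intro i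
    refine h8 (b + 4 + 4 * i) (by omega) (by omega) (by omega) (by omega) _ ?_
    rw [nuLead_iter (by omega) (by omega), nuLead_eight hb]
    push_cast
    linarith
  · intro i
    refine h10 (b + 6 + 4 * i) (by omega) (by omega) (by omega) (by omega) _ ?_
    rw [nuLead_iter (by omega) (by omega), nuLead_ten hb]
    push_cast
    linarith

/-- The data of a window over the offset `J`, at all large rows. -/
def Dat (f : ℕ → ℕ → ℕ → ℕ → Prop) (k : ℕ) (J : ℤ) (b : ℕ) : Prop :=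
  b % 2 = 0 → (6 * k + b) % 4 = 2 → ∃ m : ℕ, Side k b m ∧
    (m : ℤ) + k = nuLead k (6 * k) b + (J - 1) ∧
    (∀ i : ℕ, i ≤ 100 → St f (6 * k - 1) (b + i) (2 * m - (100 * k + 1000))) ∧ FarW f k b m

theorem exists_dat (hf : Rule f) {k : ℕ} (hk : 8 ≤ k) (J : ℤ) :
    ∃ B : ℕ, ∀ b : ℕ, B ≤ b → Dat f k J b := by
  obtain ⟨B, hB⟩ := exists_side hf hk J
  obtain ⟨B', hB'⟩ := exists_far hf hk J
  refine ⟨B + B', fun b hb hb2 hb4 => ?_⟩
  obtain ⟨m, h1, h2, h3⟩ := hB b (by omega) hb2 hb4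
  exact ⟨m, h1, h2, h3, hB' b m (by omega) hb4 h2⟩

/-- The hypotheses of a premise, from a row on. -/
def Hyp (f : ℕ → ℕ → ℕ → ℕ → Prop) (k i : ℕ) (J : ℤ) (b1 : ℕ) : Prop :=
  ∀ j : ℕ, j ≤ 5 → ∀ b : ℕ, b1 ≤ b → PfM k f j b (if j < i then J - 1 else J)

theorem Hyp.mono {k i : ℕ} {J : ℤ} {b1 b2 : ℕ} (H : Hyp f k i J b1) (h : b1 ≤ b2) :
    Hyp f k i J b2 := fun j hj b hb => H j hj b (by omega)

theorem Hyp.lo {k i : ℕ} {J : ℤ} {b1 : ℕ} (H : Hyp f k i J b1) (j : ℕ) (hj : j ≤ 3) {b : ℕ}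
    (hb : b1 ≤ b) : Pf k f (6 * k + 2 * j) b (if j < i then J - 1 else J) := by
  have h := H j (by omega) b hb
  unfold PfM at h
  rwa [if_pos hj] at h

theorem Hyp.hi {k i : ℕ} {J : ℤ} {b1 : ℕ} (H : Hyp f k i J b1) (j : ℕ) (hj : 4 ≤ j)
    (hj5 : j ≤ 5) {b : ℕ} (hb : b1 ≤ b) :
    Pw k f (6 * k + 2 * j) b (if j < i then J - 1 else J) := by
  have h := H j (by omega) b hb
  unfold PfM at h
  rwa [if_neg (by omega)] at h

/-- The window of a premise. -/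
theorem stack_hyp {k i b m : ℕ} {J : ℤ} (H : Hyp f k i J b) (hb2 : b % 2 = 0)
    (hb : (6 * k + b) % 4 = 2) (hm : (m : ℤ) + k = nuLead k (6 * k) b + (J - 1))
    (lw : ∀ i : ℕ, i ≤ 100 → St f (6 * k - 1) (b + i) (2 * m - (100 * k + 1000)))
    (fr : FarW f k b m) :
    Stack6 f k b m (if 0 < i then 0 else 1) (if 1 < i then 0 else 1) (if 2 < i then 0 else 1)
      (if 3 < i then 0 else 1) (if 4 < i then 0 else 1) (if 5 < i then 0 else 1) := by
  have aux : ∀ j : ℕ, (J - 1 + ((if j < i then 0 else 1 : ℕ) : ℤ)) =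
      (if j < i then J - 1 else J) := by
    intro j
    split_ifs
    · simp
    · simp
  refine stack6 hb2 hb hm ?_ ?_ ?_ ?_ ?_ ?_ lw fr
  · intro b' hb'
    rw [aux]
    exact H.lo 0 (by omega) hb'
  · intro b' hb'
    rw [aux]
    exact H.lo 1 (by omega) hb'
  · intro b' hb'
    rw [aux]
    exact H.lo 2 (by omega) hb'
  · intro b' hb'
    rw [aux]
    exact H.lo 3 (by omega) hb'
  · intro b' hb'
    rw [aux]
    exact H.hi 4 (by omega) (by omega) hb'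
  · intro b' hb'
    rw [aux]
    exact H.hi 5 (by omega) (by omega) hb'

/-- The weak profile one step below. -/
theorem pw_pred {k a b0 : ℕ} {J : ℤ} (hJ : Pw k f a b0 J)
    (h : a % 2 = 0 → b0 % 2 = 0 → (a + b0) % 4 = 2 → ∀ n : ℕ,
      (n : ℤ) = nuLead k a b0 + (J - 1) → Cw f a b0 n) : Pw k f a b0 (J - 1) := by
  intro h1 h2 h3 n hn
  rcases lt_or_ge (n : ℤ) (nuLead k a b0 + J) with h4 | h4
  · exact h h1 h2 h3 n (by omega)
  · exact hJ h1 h2 h3 n h4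

theorem hit0 (hf : Rule f) {k : ℕ} {J : ℤ} {B b1 : ℕ} (R : LeadR0 f k)
    (hB : ∀ b : ℕ, B ≤ b → Dat f k J b) (hb1 : B + 30 ≤ b1) (H : Hyp f k 0 J (b1 - 30))
    (h2 : b1 % 2 = 0) (h3 : (6 * k + b1) % 4 = 2) (n : ℕ)
    (hn : (n : ℤ) = nuLead k (6 * k) b1 + (J - 1)) : Cyc f (6 * k) b1 (2 * n + 2) := by
  by_contra hno
  obtain ⟨b, rfl⟩ : ∃ b, b1 = b + 16 := ⟨b1 - 16, by omega⟩
  obtain ⟨m, hs, hm, hlw, hfr⟩ := hB b (by omega) (by omega) (by omega)
  have S : Stack6 f k b m 1 1 1 1 1 1 :=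
    stack_hyp (i := 0) (H.mono (by omega)) (by omega) (by omega) hm hlw hfr
  have hn' : n + 1 = m + k + 1 + (k + 2) * 4 := by
    have e := nuLead_iter (k := k) (a := 6 * k) (b := b) (by omega) (by omega) 4
    have e' : b + 4 * 4 = b + 16 := by ring
    rw [e'] at e
    rw [e] at hn
    push_cast at hn
    have : (n : ℤ) + 1 = m + k + 1 + (k + 2) * 4 := by linarith
    exact_mod_cast this
  refine R b m hs S (loc_zero hf hs S.to_stack ?_)
  rw [← hn']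
  exact hno

theorem hit2 {k : ℕ} {J : ℤ} {B b1 : ℕ} (R : LeadR2 f k) (L : LocR2 f k)
    (hB : ∀ b : ℕ, B ≤ b → Dat f k J b) (hb1 : B + 30 ≤ b1) (H : Hyp f k 1 J (b1 - 30))
    (h2 : b1 % 2 = 0) (h3 : (6 * k + 2 + b1) % 4 = 2) (n : ℕ)
    (hn : (n : ℤ) = nuLead k (6 * k + 2) b1 + (J - 1)) : Cy3 f (6 * k + 2) b1 (2 * n + 2) := by
  by_contra hno
  obtain ⟨b, rfl⟩ : ∃ b, b1 = b + 18 := ⟨b1 - 18, by omega⟩
  obtain ⟨m, hs, hm, hlw, hfr⟩ := hB b (by omega) (by omega) (by omega)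
  have S : Stack6 f k b m 0 1 1 1 1 1 :=
    stack_hyp (i := 1) (H.mono (by omega)) (by omega) (by omega) hm hlw hfr
  have hn' : n + 1 = m + k + 3 + (k + 2) * 4 := by
    have e := nuLead_iter (k := k) (a := 6 * k + 2) (b := b + 2) (by omega) (by omega) 4
    have e' : b + 2 + 4 * 4 = b + 18 := by ring
    have t := nuLead_two (k := k) (b := b) (by omega)
    rw [e', t] at e
    rw [e] at hn
    push_cast at hn
    have : (n : ℤ) + 1 = m + k + 3 + (k + 2) * 4 := by linarith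
    exact_mod_cast this
  refine R b m hs S (L b m hs S ?_)
  rw [← hn']
  exact hno

theorem hit4 {k : ℕ} {J : ℤ} {B b1 : ℕ} (R : LeadR4 f k) (L : LocR4 f k)
    (hB : ∀ b : ℕ, B ≤ b → Dat f k J b) (hb1 : B + 30 ≤ b1) (H : Hyp f k 2 J (b1 - 30))
    (h2 : b1 % 2 = 0) (h3 : (6 * k + 4 + b1) % 4 = 2) (n : ℕ)
    (hn : (n : ℤ) = nuLead k (6 * k + 4) b1 + (J - 1)) : Cy3 f (6 * k + 4) b1 (2 * n + 2) := by
  by_contra hno
  obtain ⟨b, rfl⟩ : ∃ b, b1 = b + 16 := ⟨b1 - 16, by omega⟩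
  obtain ⟨m, hs, hm, hlw, hfr⟩ := hB b (by omega) (by omega) (by omega)
  have S : Stack6 f k b m 0 0 1 1 1 1 :=
    stack_hyp (i := 2) (H.mono (by omega)) (by omega) (by omega) hm hlw hfr
  have hn' : n + 1 = m + 3 + (k + 2) * 4 := by
    have e := nuLead_iter (k := k) (a := 6 * k + 4) (b := b) (by omega) (by omega) 4
    have e' : b + 4 * 4 = b + 16 := by ring
    have t := nuLead_four (k := k) (b := b) (by omega)
    rw [e', t] at e
    rw [e] at hn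
    push_cast at hn
    have : (n : ℤ) + 1 = m + 3 + (k + 2) * 4 := by linarith
    exact_mod_cast this
  refine R b m hs S (L b m hs S ?_)
  rw [← hn']
  exact hno

theorem hit6 {k : ℕ} {J : ℤ} {B b1 : ℕ} (R : LeadR6 f k) (L : LocR6 f k)
    (hB : ∀ b : ℕ, B ≤ b → Dat f k J b) (hb1 : B + 30 ≤ b1) (H : Hyp f k 3 J (b1 - 30))
    (h2 : b1 % 2 = 0) (h3 : (6 * k + 6 + b1) % 4 = 2) (n : ℕ)
    (hn : (n : ℤ) = nuLead k (6 * k + 6) b1 + (J - 1)) : Cy3 f (6 * k + 6) b1 (2 * n + 2) := by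
  by_contra hno
  obtain ⟨b, rfl⟩ : ∃ b, b1 = b + 18 := ⟨b1 - 18, by omega⟩
  obtain ⟨m, hs, hm, hlw, hfr⟩ := hB b (by omega) (by omega) (by omega)
  have S : Stack6 f k b m 0 0 0 1 1 1 :=
    stack_hyp (i := 3) (H.mono (by omega)) (by omega) (by omega) hm hlw hfr
  have hn' : n + 1 = m + 5 + (k + 2) * 4 := by
    have e := nuLead_iter (k := k) (a := 6 * k + 6) (b := b + 2) (by omega) (by omega) 4
    have e' : b + 2 + 4 * 4 = b + 18 := by ring
    have t := nuLead_six (k := k) (b := b) (by omega)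
    rw [e', t] at e
    rw [e] at hn
    push_cast at hn
    have : (n : ℤ) + 1 = m + 5 + (k + 2) * 4 := by linarith
    exact_mod_cast this
  refine R b m hs S (L b m hs S ?_)
  rw [← hn']
  exact hno

theorem hit8 {k : ℕ} {J : ℤ} {B b1 : ℕ} (R : LeadR8 f k) (L : LocR8 f k)
    (hB : ∀ b : ℕ, B ≤ b → Dat f k J b) (hb1 : B + 30 ≤ b1) (H : Hyp f k 4 J (b1 - 30))
    (h2 : b1 % 2 = 0) (h3 : (6 * k + 8 + b1) % 4 = 2) (n : ℕ)
    (hn : (n : ℤ) = nuLead k (6 * k + 8) b1 + (J - 1)) : Cw f (6 * k + 8) b1 n := by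
  by_contra hno
  obtain ⟨b, rfl⟩ : ∃ b, b1 = b + 20 := ⟨b1 - 20, by omega⟩
  obtain ⟨m, hs, hm, hlw, hfr⟩ := hB b (by omega) (by omega) (by omega)
  have S : Stack6 f k b m 0 0 0 0 1 1 :=
    stack_hyp (i := 4) (H.mono (by omega)) (by omega) (by omega) hm hlw hfr
  have hn' : n = m + 6 + (k + 2) * 4 := by
    have e := nuLead_iter (k := k) (a := 6 * k + 8) (b := b + 4) (by omega) (by omega) 4
    have e' : b + 4 + 4 * 4 = b + 20 := by ring
    have t := nuLead_eight (k := k) (b := b) (by omega)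
    rw [e', t] at e
    rw [e] at hn
    push_cast at hn
    have : (n : ℤ) = m + 6 + (k + 2) * 4 := by linarith
    exact_mod_cast this
  refine R b m hs S (L b m hs S ?_)
  rw [← hn']
  exact hno

theorem hit10 {k : ℕ} {J : ℤ} {B b1 : ℕ} (R : LeadR10 f k) (L : LocR10 f k)
    (hB : ∀ b : ℕ, B ≤ b → Dat f k J b) (hb1 : B + 30 ≤ b1) (H : Hyp f k 5 J (b1 - 30))
    (h2 : b1 % 2 = 0) (h3 : (6 * k + 10 + b1) % 4 = 2) (n : ℕ)
    (hn : (n : ℤ) = nuLead k (6 * k + 10) b1 + (J - 1)) : Cw f (6 * k + 10) b1 n := by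
  by_contra hno
  obtain ⟨b, rfl⟩ : ∃ b, b1 = b + 22 := ⟨b1 - 22, by omega⟩
  obtain ⟨m, hs, hm, hlw, hfr⟩ := hB b (by omega) (by omega) (by omega)
  have S : Stack6 f k b m 0 0 0 0 0 1 :=
    stack_hyp (i := 5) (H.mono (by omega)) (by omega) (by omega) hm hlw hfr
  have hn' : n = m + 8 + (k + 2) * 4 := by
    have e := nuLead_iter (k := k) (a := 6 * k + 10) (b := b + 6) (by omega) (by omega) 4
    have e' : b + 6 + 4 * 4 = b + 22 := by ring
    have t := nuLead_ten (k := k) (b := b) (by omega)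
    rw [e', t] at e
    rw [e] at hn
    push_cast at hn
    have : (n : ℤ) = m + 8 + (k + 2) * 4 := by linarith
    exact_mod_cast this
  refine R b m hs S (L b m hs S ?_)
  rw [← hn']
  exact hno

theorem prem0 (hf : Rule f) {k : ℕ} (hk : 8 ≤ k) (R : LeadR0 f k) : Prem f k 0 := by
  intro J
  obtain ⟨B, hB⟩ := exists_dat hf hk J
  refine ⟨B + 30, fun b0 hb0 h => ?_⟩
  have H : Hyp f k 0 J (b0 - 30) := fun j hj b hb => h j hj b (by omega)
  unfold PfM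
  rw [if_pos (by omega)]
  have p := H.lo 0 (by omega) (b := b0) (by omega)
  rw [if_neg (by omega)] at p
  refine pf_pred p ?_
  intro h1 h2 h3 n hn
  exact hit0 hf R hB hb0 H h2 h3 n hn

theorem prem1 (hf : Rule f) {k : ℕ} (hk : 8 ≤ k) (R : LeadR2 f k) (L : LocR2 f k) :
    Prem f k 1 := by
  intro J
  obtain ⟨B, hB⟩ := exists_dat hf hk J
  refine ⟨B + 30, fun b0 hb0 h => ?_⟩
  have H : Hyp f k 1 J (b0 - 30) := fun j hj b hb => h j hj b (by omega)
  unfold PfM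
  rw [if_pos (by omega)]
  have p := H.lo 1 (by omega) (b := b0) (by omega)
  rw [if_neg (by omega)] at p
  refine pf_pred p ?_
  intro h1 h2 h3 n hn
  have c0 := hit2 R L hB hb0 H h2 h3 n hn
  have hn4 : ((n + (k + 2) : ℕ) : ℤ) = nuLead k (6 * k + 2 * 1) (b0 + 4) + (J - 1) := by
    rw [nuLead_next h1 h3]
    push_cast
    linarith
  have c4 := hit2 R L hB (b1 := b0 + 4) (by omega) (H.mono (by omega)) (by omega) (by omega)
    (n + (k + 2)) hn4
  refine Cyc.of3 c0 ?_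
  have hcc : cc (6 * k + 2 * 1) = 2 * k := by
    unfold cc
    omega
  rw [hcc]
  exact c4.r0.mono (by omega)

theorem prem2 (hf : Rule f) {k : ℕ} (hk : 8 ≤ k) (R : LeadR4 f k) (L : LocR4 f k) :
    Prem f k 2 := by
  intro J
  obtain ⟨B, hB⟩ := exists_dat hf hk J
  refine ⟨B + 30, fun b0 hb0 h => ?_⟩
  have H : Hyp f k 2 J (b0 - 30) := fun j hj b hb => h j hj b (by omega)
  unfold PfM
  rw [if_pos (by omega)]
  have p := H.lo 2 (by omega) (b := b0) (by omega)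
  rw [if_neg (by omega)] at p
  refine pf_pred p ?_
  intro h1 h2 h3 n hn
  have c0 := hit4 R L hB hb0 H h2 h3 n hn
  have hn4 : ((n + (k + 2) : ℕ) : ℤ) = nuLead k (6 * k + 2 * 2) (b0 + 4) + (J - 1) := by
    rw [nuLead_next h1 h3]
    push_cast
    linarith
  have c4 := hit4 R L hB (b1 := b0 + 4) (by omega) (H.mono (by omega)) (by omega) (by omega)
    (n + (k + 2)) hn4
  refine Cyc.of3 c0 ?_
  have hcc : cc (6 * k + 2 * 2) = 2 * k := by
    unfold cc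
    omega
  rw [hcc]
  exact c4.r0.mono (by omega)

theorem prem3 (hf : Rule f) {k : ℕ} (hk : 8 ≤ k) (R : LeadR6 f k) (L : LocR6 f k) :
    Prem f k 3 := by
  intro J
  obtain ⟨B, hB⟩ := exists_dat hf hk J
  refine ⟨B + 30, fun b0 hb0 h => ?_⟩
  have H : Hyp f k 3 J (b0 - 30) := fun j hj b hb => h j hj b (by omega)
  unfold PfM
  rw [if_pos (by omega)]
  have p := H.lo 3 (by omega) (b := b0) (by omega)
  rw [if_neg (by omega)] at p
  refine pf_pred p ?_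
  intro h1 h2 h3 n hn
  have c0 := hit6 R L hB hb0 H h2 h3 n hn
  have p4 := H.lo 3 (by omega) (b := b0 + 4) (by omega)
  rw [if_neg (by omega)] at p4
  have c4 := p4 h1 (by omega) (by omega) (n + (k + 2) + 1) (by
    rw [nuLead_next h1 h3]
    push_cast
    linarith)
  refine Cyc.of3 c0 ?_
  have hcc : cc (6 * k + 2 * 3) = 2 * k + 2 := by
    unfold cc
    omega
  rw [hcc]
  exact c4.r0.mono (by omega)

theorem prem4 (hf : Rule f) {k : ℕ} (hk : 8 ≤ k) (R : LeadR8 f k) (L : LocR8 f k) :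
    Prem f k 4 := by
  intro J
  obtain ⟨B, hB⟩ := exists_dat hf hk J
  refine ⟨B + 30, fun b0 hb0 h => ?_⟩
  have H : Hyp f k 4 J (b0 - 30) := fun j hj b hb => h j hj b (by omega)
  unfold PfM
  rw [if_neg (by omega)]
  have p := H.hi 4 (by omega) (by omega) (b := b0) (by omega)
  rw [if_neg (by omega)] at p
  refine pw_pred p ?_
  intro h1 h2 h3 n hn
  exact hit8 R L hB hb0 H h2 h3 n hn

theorem prem5 (hf : Rule f) {k : ℕ} (hk : 8 ≤ k) (R : LeadR10 f k) (L : LocR10 f k) :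
    Prem f k 5 := by
  intro J
  obtain ⟨B, hB⟩ := exists_dat hf hk J
  refine ⟨B + 30, fun b0 hb0 h => ?_⟩
  have H : Hyp f k 5 J (b0 - 30) := fun j hj b hb => h j hj b (by omega)
  unfold PfM
  rw [if_neg (by omega)]
  have p := H.hi 5 (by omega) (by omega) (b := b0) (by omega)
  rw [if_neg (by omega)] at p
  refine pw_pred p ?_
  intro h1 h2 h3 n hn
  exact hit10 R L hB hb0 H h2 h3 n hn

/-- The leader and location theorems of one field and one `k`. -/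
structure All (f : ℕ → ℕ → ℕ → ℕ → Prop) (k : ℕ) : Prop where
  R0 : LeadR0 f k
  R2 : LeadR2 f k
  R4 : LeadR4 f k
  R6 : LeadR6 f k
  R8 : LeadR8 f k
  R10 : LeadR10 f k
  L2 : LocR2 f k
  L4 : LocR4 f k
  L6 : LocR6 f k
  L8 : LocR8 f k
  L10 : LocR10 f k

theorem prem_of_all (hf : Rule f) {k : ℕ} (hk : 8 ≤ k) (H : All f k) :
    ∀ i : ℕ, i ≤ 5 → Prem f k i := by
  intro i hi
  have h : i = 0 ∨ i = 1 ∨ i = 2 ∨ i = 3 ∨ i = 4 ∨ i = 5 := by omega
  rcases h with rfl | rfl | rfl | rfl | rfl | rfl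
  · exact prem0 hf hk H.R0
  · exact prem1 hf hk H.R2 H.L2
  · exact prem2 hf hk H.R4 H.L4
  · exact prem3 hf hk H.R6 H.L6
  · exact prem4 hf hk H.R8 H.L8
  · exact prem5 hf hk H.R10 H.L10

/-- THE FROZEN STATEMENT from the eleven window theorems. -/
theorem final_of_all
    (h : ∀ f : ℕ → ℕ → ℕ → ℕ → Prop, Rule f → ∀ k : ℕ, 8 ≤ k → All f k) :
    ¬ (∀ n k : ℕ, 1 ≤ k →
      ∀ P : Set (Fin n → ℕ),
        (∀ x : Fin n → ℕ, x ∈ P ↔
          ∀ S : Finset (Fin n), S.card = k → (∀ i ∈ S, 1 ≤ x i) →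
            (fun i => if i ∈ S then x i - 1 else x i) ∉ P) →
        ∃ m r : ℕ, ∃ base : Fin m → Fin n → ℕ, ∃ per : Fin m → Fin r → Fin n → ℕ,
          ∀ x : Fin n → ℕ, x ∈ P ↔
            ∃ i : Fin m, ∃ c : Fin r → ℕ, x = base i + ∑ j, c j • per i j) :=
  final_of_prem fun f hf k hk i hi => prem_of_all hf hk (h f hf k hk) i hi

end S6

end Pool.Agent.SNT
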