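import Pool.Agent.SNT.LocR2
import Pool.Agent.SNT.Stack6

set_option autoImplicit false

/-! LOCATION for the leader `6 k + 2` in the window of the six layers. -/

namespace Pool.Agent.SNT

variable {f : ℕ → ℕ → ℕ → ℕ → Prop}

namespace S6

open LocZ

/-- The far field of a window in the form `Fr`. -/
theorem fr_of {k b m e0 e2 e4 e6 e8 e10 a i T : ℕ} (S : Stack6 f k b m e0 e2 e4 e6 e8 e10)
    (ha : a ≤ 6 * k + 10) (hi : i ≤ 100) (hT : b ≤ 2 * T) :
    Fr f a (b + i) (2 * m - (100 * k + 1000)) T := by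
  intro x y hx hd
  exact S.fr a i x y ha hi hx (by omega)

/-- The zones over the isolated layer `6 k`, at the rows `b + 12 + 4 j`. -/
theorem zh_zero {k b m e2 e4 e6 e8 e10 : ℕ} (hs : Side k b m)
    (S : Stack6 f k b m 0 e2 e4 e6 e8 e10) (j : ℕ) (hj : j ≤ 20) :
    ZH f (6 * k) (b + 4 * j) (2 * (m + k + (k + 2) * (j + 1)) + 2) (2 * m - (100 * k + 1000))
      (b / 2 + 1) := by
  obtain ⟨hk, hb2, hb, hkb, hbm⟩ := hs
  have e6k : 6 * k / 6 = k := by omega
  have hcc : cc (6 * k) = 2 * k := by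
    unfold cc
    omega
  have hkj : k ≤ (k + 2) * (j + 1) := by nlinarith
  have hC := S.l0 (j + 1)
  have hC0 := S.l0 j
  have e1 : b + 4 * (j + 1) = b + 4 * j + 4 := by ring
  rw [e1] at hC
  refine ⟨by omega, by omega, by omega, by omega, by omega, by omega, by omega, by omega, by omega,
    by omega, ?_, hC, ?_, ?_⟩
  · have h3 := hC0.r3
    rw [hcc] at h3
    have e2 : (k + 2) * (j + 1) = (k + 2) * j + k + 2 := by ring
    exact h3.mono (by omega)
  · intro i hi
    have := S.lw (4 * j + i) (by omega)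
    rwa [← Nat.add_assoc] at this
  · intro i hi
    have := fr_of S (a := 6 * k + 1) (i := 4 * j + i) (T := b / 2 + 1) (by omega) (by omega)
      (by omega)
    rwa [← Nat.add_assoc] at this

theorem locR2 (hf : Rule f) (k : ℕ) : LocR2 f k := by
  intro b m hs S hno tip
  apply hno
  have Z := zh_zero hs S 3 (by omega)
  obtain ⟨hk, hb2, hb, hkb, hbm⟩ := hs
  have e6k : 6 * k / 6 = k := by omega
  have e6k2 : (6 * k + 2) / 6 = k := by omega
  have CA := S.l2 3
  have CB := S.l2 4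
  have CU := (S.l4 5).r0
  have r1 : b + 2 + 4 * 3 = b + 4 * 3 + 2 := by ring
  have r2 : b + 2 + 4 * 4 = b + 4 * 3 + 6 := by ring
  have r3 : b + 4 * 5 = b + 4 * 3 + 8 := by ring
  have r4 : b + 18 = b + 4 * 3 + 6 := by ring
  rw [r1] at CA
  rw [r2] at CB
  rw [r3] at CU
  rw [r4] at tip ⊢
  have n2 : 2 * (m + k + 2 + 1 + (k + 2) * 4) + 2 = 2 * (m + k + 3 + (k + 2) * 4) + 2 := by ring
  have n3 : 2 * (m + 2 + 1 + (k + 2) * 5) + 2 = 2 * (m + k + 3 + (k + 2) * 4) + 6 := by ring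
  rw [n2] at CB
  rw [n3] at CU
  exact loc_below hf Z (n := m + k + 3 + (k + 2) * 4) (by rw [e6k, e6k2]) (by omega)
    (by rw [e6k]; omega) CA CB CU tip

end S6

end Pool.Agent.SNT
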