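import Pool.Agent.SNT.LocR4c
import Pool.Agent.SNT.LocR2f

set_option autoImplicit false

/-! LOCATION for the leader `6 k + 4` in the window of the six layers. -/

namespace Pool.Agent.SNT

variable {f : ℕ → ℕ → ℕ → ℕ → Prop}

namespace S6

open LocZ LocG Pool.Agent.SNT.LW

/-- The full profile of a weak layer one line later, from two consecutive cycles. -/
theorem cyc_of_cw' (hf : Rule f) {a b b' n n' c K : ℕ} (ha : a % 2 = 0)
    (h12 : 12 ≤ a) (ph : (a + b) % 4 = 2) (big : 2 * a + 40 ≤ b) (C : Cw f a b n)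
    (C' : Cw f a b' n') (hb' : b' = b + 4) (hn : n' ≤ n + a / 6 + 2) (hc : c = b)
    (hK : K = 2 * (n + 1) + 2) : Cyc f a c K := by
  subst hb' hc hK
  exact C.to_cyc hf ha h12 ph big C' hn

theorem hs_of_stack (hf : Rule f) {k b m : ℕ} (hs : Side k b m)
    (S : Stack6 f k b m 0 0 1 1 1 1) :
    LocR4.HS f k (m + 3 + (k + 2) * 4) (b + 16) (2 * m - (100 * k + 1000)) := by
  have Z2 := zh_zero hs S 2 (by omega)
  have Z3 := zh_zero hs S 3 (by omega)
  obtain ⟨hk, hb2, hb, hkb, hbm⟩ := hs
  have hkk : (k + 2) * 4 = (k + 2) * 3 + (k + 2) := by ring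
  have hk3 : (k + 2) * 3 = (k + 2) * 2 + (k + 2) := by ring
  have hk2 : (k + 2) * 2 = (k + 2) + (k + 2) := by ring
  have e0 : 6 * k / 6 = k := by omega
  have z1 : ∀ r : ℕ, b + 16 ≤ r + 8 → r ≤ b + 16 + 8 →
      St f (6 * k - 1) r (2 * m - (100 * k + 1000)) := by
    intro r h1 h2
    have h3 := S.lw (r - b) (by omega)
    have e : b + (r - b) = r := by omega
    rwa [e] at h3
  have fr : ∀ a r x y : ℕ, a ≤ 6 * k + 10 → b + 16 ≤ r + 8 → r ≤ b + 16 + 8 → y ≤ x →
      2 * m - (100 * k + 1000) < x → b + 16 + y < x + 6 * k + 60 →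
      (f a r x y ↔ Fst a r x y) := by
    intro a r x y h1 h2 h3 h4 h5 h6
    have h7 := S.fr a (r - b) x y h1 (by omega) (by omega) (by omega)
    have e : b + (r - b) = r := by omega
    rwa [e] at h7
  have c0 := S.l0 3
  have b2 := S.l2 3
  have b6 := (S.l2 2).r3
  have am := S.l4 3
  have a0 := S.l4 4
  have d2 := (S.l6 4).r0
  have hcc : cc (6 * k + 2) = 2 * k := by
    unfold cc
    omega
  rw [hcc] at b6
  refine ⟨hk, by omega, by omega, by omega, by omega, by omega, fr, z1, ?_, ?_, ?_, ?_, ?_, ?_,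
    ?_, ?_, ?_, ?_, ?_, ?_⟩
  · -- only exceptional cells
    intro r x y h1 h2 hne hyx hx
    rcases Nat.lt_or_ge (b + 16 + y) (x + 6 * k + 60) with h3 | h3
    · exact fr _ r x y (by omega) (by omega) (by omega) hyx (by omega) h3
    · refine iff_of_false ?_ (Fst_near_odd (by omega) (by omega))
      refine eonly hf (A := 6 * k) (by omega) hne ?_
      intro q i s hq hi hs'
      rw [z1 (r - q) (by omega) (by omega) _ _ (by omega)]
      exact Fst_near_odd (by omega) (by omega)
  · intro x y hyx hx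
    have := (Z2.out6 hf) x y (by omega)
    have e : b + 4 * 2 + 6 = b + 16 - 2 := by omega
    rwa [e] at this
  · intro x y hyx hx
    have := Z2.in8b hf (x := x) (y := y) hyx (by omega)
    have e : b + 4 * 2 + 8 = b + 16 := by omega
    rwa [e] at this
  · intro x y hd hx
    have := Z2.in8a hf (x := x) (y := y) (by rw [e0]; omega) (by omega)
    have e : b + 4 * 2 + 8 = b + 16 := by omega
    rwa [e] at this
  · intro x y hyx hx
    have := (Z3.out6 hf) x y (by omega)
    have e : b + 4 * 3 + 6 = b + 16 + 2 := by omega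
    rwa [e] at this
  · convert c0 using 1 <;> omega
  · have e : b + 2 + 4 * 2 + 3 = b + 16 - 3 := by omega
    rw [e] at b6
    exact b6.mono (by omega)
  · convert b2 using 1 <;> omega
  · convert am using 1 <;> omega
  · convert a0 using 1
  · have e : b + 2 + 4 * 4 = b + 16 + 2 := by omega
    rw [e] at d2
    exact d2.mono (by omega)
  · have l4 := S.l4 4
    have l3 := S.l4 3
    have m4 := S.l6 4
    have m3 := S.l6 3
    have u3 := S.l8 3
    have u4 := S.l8 4
    have C4 : Cyc f (6 * k + 4 + 4) (b + 16) (2 * (m + 3 + (k + 2) * 4 + 2 - k) + 4) :=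
      cyc_of_cw' hf (by omega) (by omega) (by omega) (by omega) u3 u4 (by omega) (by omega)
        (by omega) (by omega)
    refine ⟨hk, by omega, by omega, by omega, by omega, by omega, by omega, ?_, ?_, ?_, ?_, C4,
      ?_⟩
    · convert l4 using 1
    · convert l3 using 1 <;> omega
    · convert m3 using 1 <;> omega
    · convert m4 using 1 <;> omega
    · intro x y h1 h2 h3
      exact u3.w2s x y h1 h2 (by omega)

/-- LOCATION for the leader `6 k + 4`. -/
theorem locR4 (hf : Rule f) (k : ℕ) : LocR4 f k := by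
  intro b m hs S hno tip
  exact hno ((hs_of_stack hf hs S).cy3 hf tip)

end S6

end Pool.Agent.SNT
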