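import Pool.Agent.SNT.LocR2f
import Pool.Agent.SNT.LocR4f

/-!
# S10712: the fields L2 and L4 of `S6.All` under their final names
-/

namespace Pool.Agent.SNT
namespace S6

theorem L2 {f : ℕ → ℕ → ℕ → ℕ → Prop} (hf : Rule f) {k : ℕ} (_hk : 8 ≤ k) : LocR2 f k := locR2 hf k

theorem L4 {f : ℕ → ℕ → ℕ → ℕ → Prop} (hf : Rule f) {k : ℕ} (_hk : 8 ≤ k) : LocR4 f k := locR4 hf k

end S6
end Pool.Agent.SNT
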