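import Pool.Agent.SNT.Loc

set_option autoImplicit false

/-! Near-wall certificate (i) of MP_ab1118_co (S10712), helper20.
Window of eleven static cells in rows r, r+1, r+2 of the layers A+2, A+4, A+6 and one cell of
layer A+1. -/

namespace Pool.Agent.SNT.Loc

theorem near_wall_win_chk : check 8 6 8 13 0 0 1 0 0
    (fun j n p q => decide ((j = 4 ∧ n = 2 ∧ p = 1 ∧ q = 5) ∨ (j = 4 ∧ n = 2 ∧ p = 3 ∧ q = 7) ∨ (j = 6 ∧ n = 2 ∧ p = 2 ∧ q = 6) ∨ (j = 6 ∧ n = 4 ∧ p = 5 ∧ q = 9) ∨ (j = 8 ∧ n = 2 ∧ p = 5 ∧ q = 7) ∨ (j = 8 ∧ n = 4 ∧ p = 4 ∧ q = 6) ∨ (j = 8 ∧ n = 4 ∧ p = 4 ∧ q = 8) ∨ (j = 8 ∧ n = 4 ∧ p = 6 ∧ q = 8) ∨ (j = 3 ∧ n = 4 ∧ p = 3 ∧ q = 6)))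
    (fun j n p q => decide ((j = 4 ∧ n = 3 ∧ p = 3 ∧ q = 6) ∨ (j = 6 ∧ n = 2 ∧ p = 4 ∧ q = 7) ∨ (j = 6 ∧ n = 3 ∧ p = 4 ∧ q = 7)))
    47
    0x9750306ca0006ca8a0599000705ea0837000975d2084400097cca09750306ca0006ca8a0599000705ea083d80083d8407d5000941ea097c830809000809040abb000aae000aad000a4c0008450007c800055f00055100048e800abb0f0aae0f0aad0f0a4c0f08450f08448708368708098707d58707ce8707c80f05c687059287055f0f055e8705510f048e8f = true := by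
  decide +kernel

theorem near_wall_win {f : ℕ → ℕ → ℕ → ℕ → Prop} (hf : Rule f) {a0 b0 x0 y0 : ℕ}
    (ha : a0 % 2 = 0) (hb : b0 % 2 = 0) (hx : x0 % 2 = 1) (hy : y0 % 2 = 0)
    (h1 : ∀ j n p q : ℕ, InR 8 6 8 13 1 j n p q →
      ((j = 4 ∧ n = 2 ∧ p = 1 ∧ q = 5) ∨ (j = 4 ∧ n = 2 ∧ p = 3 ∧ q = 7) ∨ (j = 6 ∧ n = 2 ∧ p = 2 ∧ q = 6) ∨ (j = 6 ∧ n = 4 ∧ p = 5 ∧ q = 9) ∨ (j = 8 ∧ n = 2 ∧ p = 5 ∧ q = 7) ∨ (j = 8 ∧ n = 4 ∧ p = 4 ∧ q = 6) ∨ (j = 8 ∧ n = 4 ∧ p = 4 ∧ q = 8) ∨ (j = 8 ∧ n = 4 ∧ p = 6 ∧ q = 8) ∨ (j = 3 ∧ n = 4 ∧ p = 3 ∧ q = 6)) →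
      f (a0 + j) (b0 + n) (x0 + p) (y0 + q))
    (h0 : ∀ j n p q : ℕ, InR 8 6 8 13 1 j n p q →
      ((j = 4 ∧ n = 3 ∧ p = 3 ∧ q = 6) ∨ (j = 6 ∧ n = 2 ∧ p = 4 ∧ q = 7) ∨ (j = 6 ∧ n = 3 ∧ p = 4 ∧ q = 7)) →
      ¬ f (a0 + j) (b0 + n) (x0 + p) (y0 + q)) : False :=
  check_sound hf near_wall_win_chk
    ⟨fun h => absurd h (by decide), fun h => absurd h (by decide),
      fun h => absurd h (by decide), ha, hb, hx, hy⟩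
    (fun j n p q hr h => h1 j n p q hr (of_decide_eq_true h))
    (fun j n p q hr h => h0 j n p q hr (of_decide_eq_true h))

/-- Near-wall certificate (i): eleven values of the layers `A + 2`, `A + 4`, `A + 6` (for `A = 6k`,
`x = 2c`, `y = 2c - 2k` they are the values of the static record) forbid
`f (A + 1) (r + 2) (x + 4) (y + 6)`, that is `E (c + 2, c + 3 - k)`. -/
theorem near_wall {f : ℕ → ℕ → ℕ → ℕ → Prop} (hf : Rule f) {A r x y : ℕ}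
    (hA : A % 2 = 0) (hA2 : 2 ≤ A) (hr : r % 2 = 0) (hr2 : 2 ≤ r)
    (hx : x % 2 = 0) (hy : y % 2 = 0)
    (u1 : f (A + 2) r (x + 2) (y + 5)) (u2 : f (A + 2) r (x + 4) (y + 7))
    (u3 : f (A + 4) r (x + 3) (y + 6)) (u4 : f (A + 4) (r + 2) (x + 6) (y + 9))
    (u5 : f (A + 6) r (x + 6) (y + 7)) (u6 : f (A + 6) (r + 2) (x + 5) (y + 6))
    (u7 : f (A + 6) (r + 2) (x + 5) (y + 8)) (u8 : f (A + 6) (r + 2) (x + 7) (y + 8))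
    (z1 : ¬ f (A + 2) (r + 1) (x + 4) (y + 6)) (z2 : ¬ f (A + 4) r (x + 5) (y + 7))
    (z3 : ¬ f (A + 4) (r + 1) (x + 5) (y + 7)) :
    ¬ f (A + 1) (r + 2) (x + 4) (y + 6) := by
  intro hP
  obtain ⟨a, rfl⟩ : ∃ a, A = a + 2 := ⟨A - 2, by omega⟩
  obtain ⟨b, rfl⟩ : ∃ b, r = b + 2 := ⟨r - 2, by omega⟩
  refine near_wall_win hf (a0 := a) (b0 := b) (x0 := x + 1) (y0 := y) (by omega) (by omega)
    (by omega) (by omega) ?_ ?_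
  · intro j n p q _ h
    rcases h with ⟨rfl, rfl, rfl, rfl⟩ | ⟨rfl, rfl, rfl, rfl⟩ | ⟨rfl, rfl, rfl, rfl⟩ |
      ⟨rfl, rfl, rfl, rfl⟩ | ⟨rfl, rfl, rfl, rfl⟩ | ⟨rfl, rfl, rfl, rfl⟩ |
      ⟨rfl, rfl, rfl, rfl⟩ | ⟨rfl, rfl, rfl, rfl⟩ | ⟨rfl, rfl, rfl, rfl⟩
    · exact u1
    · exact u2
    · exact u3
    · exact u4
    · exact u5
    · exact u6
    · exact u7
    · exact u8
    · exact hP
  · intro j n p q _ h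
    rcases h with ⟨rfl, rfl, rfl, rfl⟩ | ⟨rfl, rfl, rfl, rfl⟩ | ⟨rfl, rfl, rfl, rfl⟩
    · exact z1
    · exact z2
    · exact z3

end Pool.Agent.SNT.Loc
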