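import Pool.Agent.SNT.Loc

set_option autoImplicit false

/-! The turn of the front at the diagonal (local window). -/

namespace Pool.Agent.SNT.Loc

theorem diagX_chk : check 2 6 10 10 0 0 1 1 2
    (fun j n p q => decide ((j = 2 ∧ (q ≤ p ∧ p ≤ q + 3 ∧ ((n = 1 ∧ 4 ≤ p + q) ∨ (n = 2 ∧ 8 ≤ p + q))) ∧ ((n % 2 = 0 ∧ (p + q) % 2 = 1 ∧ (n + 2 * p) % 4 = 2) ∨ (n % 2 = 1 ∧ p = q ∧ (n + 2 * p) % 4 = 1))) ∨ (j = 2 ∧ n = 4 ∧ p = 7 ∧ q = 6)))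
    (fun j n p q => decide ((j = 1 ∧ q ≤ p ∧ p ≤ q + 3 ∧ 5 ≤ p + q) ∨ (j = 2 ∧ (q ≤ p ∧ p ≤ q + 3 ∧ ((n = 1 ∧ 4 ≤ p + q) ∨ (n = 2 ∧ 8 ≤ p + q))) ∧ ¬ ((n % 2 = 0 ∧ (p + q) % 2 = 1 ∧ (n + 2 * p) % 4 = 2) ∨ (n % 2 = 1 ∧ p = q ∧ (n + 2 * p) % 4 = 1))) ∨ (j = 2 ∧ n = 2 ∧ p = 4 ∧ q = 3)))
    62
    0x3048303098002c80003413a03418002d80002cd1203460003460e02dc8002dc8e02d18e02a000029f8e029f0e02950002148e01e28e01dd0e01dc8e01d78e01ab0e01aa8e01a58e01a50e01a00e01738e01730e016e0e03460f033b8702dc8f02d20702d18702cd8702cc8702a00f029f87029f07029a8702950f021507021487020f8701e30701e28701dd8701dd0701dc8701d80701d78701ab0701aa8701a60701a58701a50701a08701a007017387017307016e87016e07 = true := by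
  decide +kernel

theorem diagX {f : ℕ → ℕ → ℕ → ℕ → Prop} (hf : Rule f) {a0 b0 x0 y0 : ℕ} (hxy : x0 = y0)
    (ha : a0 % 2 = 0) (hb : b0 % 2 = 0) (hx : x0 % 2 = 1) (hy : y0 % 2 = 1)
    (h1 : ∀ j n p q : ℕ, InR 2 6 10 10 1 j n p q →
      ((j = 2 ∧ (q ≤ p ∧ p ≤ q + 3 ∧ ((n = 1 ∧ 4 ≤ p + q) ∨ (n = 2 ∧ 8 ≤ p + q))) ∧ ((n % 2 = 0 ∧ (p + q) % 2 = 1 ∧ (n + 2 * p) % 4 = 2) ∨ (n % 2 = 1 ∧ p = q ∧ (n + 2 * p) % 4 = 1))) ∨ (j = 2 ∧ n = 4 ∧ p = 7 ∧ q = 6)) →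
      f (a0 + j) (b0 + n) (x0 + p) (y0 + q))
    (h0 : ∀ j n p q : ℕ, InR 2 6 10 10 1 j n p q →
      ((j = 1 ∧ q ≤ p ∧ p ≤ q + 3 ∧ 5 ≤ p + q) ∨ (j = 2 ∧ (q ≤ p ∧ p ≤ q + 3 ∧ ((n = 1 ∧ 4 ≤ p + q) ∨ (n = 2 ∧ 8 ≤ p + q))) ∧ ¬ ((n % 2 = 0 ∧ (p + q) % 2 = 1 ∧ (n + 2 * p) % 4 = 2) ∨ (n % 2 = 1 ∧ p = q ∧ (n + 2 * p) % 4 = 1))) ∨ (j = 2 ∧ n = 2 ∧ p = 4 ∧ q = 3)) →
      ¬ f (a0 + j) (b0 + n) (x0 + p) (y0 + q)) : False :=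
  check_sound hf diagX_chk
    ⟨fun _ => hxy, fun h => absurd h (by decide),
      fun h => absurd h (by decide), ha, hb, hx, hy⟩
    (fun j n p q hr h => h1 j n p q hr (of_decide_eq_true h))
    (fun j n p q hr h => h0 j n p q hr (of_decide_eq_true h))

end Pool.Agent.SNT.Loc
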