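import Pool.Agent.SNT.Loc

set_option autoImplicit false

/-! The turn of the front at the edge of the strip (local window). -/

namespace Pool.Agent.SNT.Loc

theorem edgeY_chk : check 2 6 10 10 0 0 1 0 0
    (fun j n p q => decide ((j = 2 ∧ (q ≤ p + 3 ∧ ((n = 1 ∧ 5 ≤ p + q) ∨ (n = 2 ∧ 9 ≤ p + q))) ∧ ((n % 2 = 0 ∧ (p + q) % 2 = 0 ∧ ((p + 2 ≤ q ∧ (n + 2 * p) % 4 = 0) ∨ (q ≤ p + 2 ∧ (n + p + q) % 4 = 2))) ∨ (n % 2 = 1 ∧ (p + q) % 2 = 1 ∧ q ≤ p + 1 ∧ (n + p + q) % 4 = 2))) ∨ (j = 2 ∧ n = 4 ∧ p = 6 ∧ q = 8)))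
    (fun j n p q => decide ((j = 1 ∧ q ≤ p + 3 ∧ 6 ≤ p + q) ∨ (j = 2 ∧ (q ≤ p + 3 ∧ ((n = 1 ∧ 5 ≤ p + q) ∨ (n = 2 ∧ 9 ≤ p + q))) ∧ ¬ ((n % 2 = 0 ∧ (p + q) % 2 = 0 ∧ ((p + 2 ≤ q ∧ (n + 2 * p) % 4 = 0) ∨ (q ≤ p + 2 ∧ (n + p + q) % 4 = 2))) ∨ (n % 2 = 1 ∧ (p + q) % 2 = 1 ∧ q ≤ p + 1 ∧ (n + p + q) % 4 = 2))) ∨ (j = 2 ∧ n = 2 ∧ p = 3 ∧ q = 5)))
    85
    0x34183030e80030500030e8103050102d68002d20002c88003420002dd0002d88002d68102d201029a0002cd9202958003420f033c0702dd0f02dc8702dc0702d88f02d78702d70702d60702d30702d28702ce0702cd8702cd0702a48702a40702a007029f87029f07029b87029b07029a87029a0f02968702960702958f02158702150702108702100701e38701e30701e28701e20701de8701de0701dd8701dd0701d90701d88701d40701d38701b08701b00701ab8701ab0701aa8701aa0701a70701a68701a60701a58701a50701a20701a18701a10701a087019c87019c07017887017807017407017387017307016f87016f07016e87016a87016a07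 = true := by
  decide +kernel

theorem edgeY {f : ℕ → ℕ → ℕ → ℕ → Prop} (hf : Rule f) {a0 b0 x0 y0 : ℕ}
    (ha : a0 % 2 = 0) (hb : b0 % 2 = 0) (hx : x0 % 2 = 1) (hy : y0 % 2 = 0)
    (h1 : ∀ j n p q : ℕ, InR 2 6 10 10 1 j n p q →
      ((j = 2 ∧ (q ≤ p + 3 ∧ ((n = 1 ∧ 5 ≤ p + q) ∨ (n = 2 ∧ 9 ≤ p + q))) ∧ ((n % 2 = 0 ∧ (p + q) % 2 = 0 ∧ ((p + 2 ≤ q ∧ (n + 2 * p) % 4 = 0) ∨ (q ≤ p + 2 ∧ (n + p + q) % 4 = 2))) ∨ (n % 2 = 1 ∧ (p + q) % 2 = 1 ∧ q ≤ p + 1 ∧ (n + p + q) % 4 = 2))) ∨ (j = 2 ∧ n = 4 ∧ p = 6 ∧ q = 8)) →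
      f (a0 + j) (b0 + n) (x0 + p) (y0 + q))
    (h0 : ∀ j n p q : ℕ, InR 2 6 10 10 1 j n p q →
      ((j = 1 ∧ q ≤ p + 3 ∧ 6 ≤ p + q) ∨ (j = 2 ∧ (q ≤ p + 3 ∧ ((n = 1 ∧ 5 ≤ p + q) ∨ (n = 2 ∧ 9 ≤ p + q))) ∧ ¬ ((n % 2 = 0 ∧ (p + q) % 2 = 0 ∧ ((p + 2 ≤ q ∧ (n + 2 * p) % 4 = 0) ∨ (q ≤ p + 2 ∧ (n + p + q) % 4 = 2))) ∨ (n % 2 = 1 ∧ (p + q) % 2 = 1 ∧ q ≤ p + 1 ∧ (n + p + q) % 4 = 2))) ∨ (j = 2 ∧ n = 2 ∧ p = 3 ∧ q = 5)) →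
      ¬ f (a0 + j) (b0 + n) (x0 + p) (y0 + q)) : False :=
  check_sound hf edgeY_chk
    ⟨fun h => absurd h (by decide), fun h => absurd h (by decide),
      fun h => absurd h (by decide), ha, hb, hx, hy⟩
    (fun j n p q hr h => h1 j n p q hr (of_decide_eq_true h))
    (fun j n p q hr h => h0 j n p q hr (of_decide_eq_true h))

end Pool.Agent.SNT.Loc
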