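import Pool.Agent.SNT.UpO
import Pool.Agent.SNT.FwdD
import Pool.Agent.SNT.FwdE

set_option autoImplicit false

/-! The forward steps (diagonal and edge), for `A + 24 ≤ B`. -/

namespace Pool.Agent.SNT

open Loc

variable {f : ℕ → ℕ → ℕ → ℕ → Prop}

/-- The static field of an even layer near the strip. -/
theorem Fst_zone' {a b y D : ℕ} (ha : a % 2 = 0) (h6 : 6 ≤ a) (hab : a + 17 ≤ b)
    (hd : D ≤ 2 * (a / 6) + 8) : Fst a b (y + D) y ↔
    (b % 2 = 0 ∧ D % 2 = 1 ∧ ((D + 1 ≤ 2 * (a / 6) ∧ (a + b + 2 * y + 2 * D) % 4 = 0) ∨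
      (2 * (a / 6) ≤ D + 1 ∧ (a + b + 2 * y + D) % 4 = (1 + 2 * (a / 6)) % 4))) ∨
    (b % 2 = 1 ∧ D % 2 = 0 ∧ ((2 * (a / 6) ≤ D ∧ (a + b + 2 * y + D) % 4 = (1 + 2 * (a / 6)) % 4) ∨
      (D = 0 ∧ (a + b + 2 * y) % 4 = 3))) :=
  Fst_Zn ha h6 hab hd

/-- The static field in the window at the diagonal. -/
theorem Fst_diag' {A B m n p q : ℕ} (hA : A % 2 = 0) (h6 : 12 ≤ A) (hAB : A + 24 ≤ B)
    (hT : (A + B) % 4 = 2) (hm : 2 ≤ m) (hn1 : 1 ≤ n) (hn : n ≤ 4)
    (hpq : q ≤ p) (hpq' : p ≤ q + 3) :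
    Fst A (B - 2 + n) (2 * m - 3 + p) (2 * m - 3 + q) ↔
    ((n % 2 = 0 ∧ (p + q) % 2 = 1 ∧ (n + 2 * p) % 4 = 2) ∨
      (n % 2 = 1 ∧ p = q ∧ (n + 2 * p) % 4 = 1)) := by
  have e : 2 * m - 3 + p = (2 * m - 3 + q) + (p - q) := by omega
  rw [e, Fst_zone' hA (by omega) (by omega) (by omega)]
  constructor
  · rintro (⟨g1, g2, ⟨g3, g4⟩ | ⟨g3, g4⟩⟩ | ⟨g1, g2, ⟨g3, g4⟩ | ⟨g3, g4⟩⟩)
    · left; exact ⟨by omega, by omega, by omega⟩
    · left; exact ⟨by omega, by omega, by omega⟩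
    · exfalso; omega
    · right; exact ⟨by omega, by omega, by omega⟩
  · rintro (⟨g1, g2, g3⟩ | ⟨g1, g2, g3⟩)
    · left; exact ⟨by omega, by omega, Or.inl ⟨by omega, by omega⟩⟩
    · right; exact ⟨by omega, by omega, Or.inr ⟨by omega, by omega⟩⟩

/-- The turn at the diagonal. -/
theorem diag_turn' (hf : Rule f) {A B m : ℕ} (hA : A % 2 = 0) (h6 : 12 ≤ A) (hAB : A + 24 ≤ B)
    (hT : (A + B) % 4 = 2) (hm : 2 ≤ m)
    (hP : ∀ b x y : ℕ, B ≤ b + 1 → b ≤ B + 2 → y ≤ x → x ≤ y + (2 * (A / 6) + 8) →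
      4 * m + 1 ≤ x + y + 2 → ¬ f (A - 1) b x y)
    (hS0 : ∀ x y : ℕ, y ≤ x → x ≤ y + (2 * (A / 6) + 8) → 4 * m + 1 < x + y →
      (f A B x y ↔ Fst A B x y))
    (hS1 : ∀ x y : ℕ, y ≤ x → x ≤ y + (2 * (A / 6) + 8) → 4 * m + 1 ≤ x + y + 3 →
      (f A (B - 1) x y ↔ Fst A (B - 1) x y))
    (hl : ¬ f A B (2 * m + 1) (2 * m)) :
    ¬ f A (B + 2) (2 * m + 4) (2 * m + 3) := by
  intro hcon
  refine diagX hf (a0 := A - 2) (b0 := B - 2) (x0 := 2 * m - 3) (y0 := 2 * m - 3) rfl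
    (by omega) (by omega) (by omega) (by omega) ?_ ?_
  · intro j n p q hr h
    obtain ⟨r1, r2, r3, r4, r5, r6, r7, r8⟩ := hr
    rcases h with ⟨rfl, ⟨hpq, hpq', hR⟩, hF⟩ | ⟨rfl, rfl, rfl, rfl⟩
    · have hz := (Fst_diag' hA h6 hAB hT hm r3 (by omega) hpq hpq').2 hF
      have ea : A - 2 + 2 = A := by omega
      rw [ea]
      rcases hR with ⟨rfl, hR⟩ | ⟨rfl, hR⟩
      · have eb : B - 2 + 1 = B - 1 := by omega
        rw [eb] at hz ⊢
        exact (hS1 _ _ (by omega) (by omega) (by omega)).2 hz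
      · have eb : B - 2 + 2 = B := by omega
        rw [eb] at hz ⊢
        exact (hS0 _ _ (by omega) (by omega) (by omega)).2 hz
    · have ea : A - 2 + 2 = A := by omega
      have eb : B - 2 + 4 = B + 2 := by omega
      have ex : 2 * m - 3 + 7 = 2 * m + 4 := by omega
      have ey : 2 * m - 3 + 6 = 2 * m + 3 := by omega
      rw [ea, eb, ex, ey]
      exact hcon
  · intro j n p q hr h
    obtain ⟨r1, r2, r3, r4, r5, r6, r7, r8⟩ := hr
    rcases h with ⟨rfl, hpq, hpq', hs⟩ | ⟨rfl, ⟨hpq, hpq', hR⟩, hF⟩ | ⟨rfl, rfl, rfl, rfl⟩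
    · have ea : A - 2 + 1 = A - 1 := by omega
      rw [ea]
      exact hP _ _ _ (by omega) (by omega) (by omega) (by omega) (by omega)
    · have hz := (not_congr (Fst_diag' hA h6 hAB hT hm r3 (by omega) hpq hpq')).2 hF
      have ea : A - 2 + 2 = A := by omega
      rw [ea]
      rcases hR with ⟨rfl, hR⟩ | ⟨rfl, hR⟩
      · have eb : B - 2 + 1 = B - 1 := by omega
        rw [eb] at hz ⊢
        exact fun hc => hz ((hS1 _ _ (by omega) (by omega) (by omega)).1 hc)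
      · have eb : B - 2 + 2 = B := by omega
        rw [eb] at hz ⊢
        exact fun hc => hz ((hS0 _ _ (by omega) (by omega) (by omega)).1 hc)
    · have ea : A - 2 + 2 = A := by omega
      have eb : B - 2 + 2 = B := by omega
      have ex : 2 * m - 3 + 4 = 2 * m + 1 := by omega
      have ey : 2 * m - 3 + 3 = 2 * m := by omega
      rw [ea, eb, ex, ey]
      exact hl

/-- Odd rows are zero ahead in the strip, over an in-row. -/
theorem odd_zero_in' (hf : Rule f) {A B S : ℕ} (hA : A % 2 = 0) (h6 : 12 ≤ A) (hAB : A + 24 ≤ B)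
    (hT : (A + B) % 4 = 2)
    (hS0 : ∀ x y : ℕ, y ≤ x → x ≤ y + (2 * (A / 6) + 8) → S < x + y →
      (f A B x y ↔ Fst A B x y)) {u w : ℕ} (hw : 2 ≤ w) (h1 : w + 1 ≤ u)
    (h2 : u + 1 ≤ w + 2 * (A / 6)) (hs : S + 2 < u + w) : ¬ f A (B + 1) u w := by
  intro h
  have key : ∀ r t : ℕ, r ≤ 1 → t ≤ 1 → (u - r) % 2 = 1 → (w - t) % 2 = 0 → w - t ≤ u - r →
      u - r ≤ (w - t) + (2 * (A / 6)) → False := by
    intro r t hr ht e1 e2 e3 e4
    have h3 := hf.down h (p := 0) (q := 1) (r := r) (s := t) (by omega) le_rfl hr ht (by omega)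
      (by omega) (by omega) (by omega) (by omega)
    apply h3
    have eb : B + 1 - 1 = B := by omega
    rw [Nat.sub_zero, eb, hS0 _ _ e3 (by omega) (by omega)]
    have e : u - r = (w - t) + ((u - r) - (w - t)) := by omega
    rw [e, Fst_zone' hA (by omega) (by omega) (by omega)]
    left
    exact ⟨by omega, by omega, Or.inl ⟨by omega, by omega⟩⟩
  rcases Nat.mod_two_eq_zero_or_one u with hu | hu <;>
    rcases Nat.mod_two_eq_zero_or_one w with hv | hv
  · exact key 1 0 (by omega) (by omega) (by omega) (by omega) (by omega) (by omega)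
  · exact key 1 1 (by omega) (by omega) (by omega) (by omega) (by omega) (by omega)
  · exact key 0 0 (by omega) (by omega) (by omega) (by omega) (by omega) (by omega)
  · exact key 0 1 (by omega) (by omega) (by omega) (by omega) (by omega) (by omega)

/-- Forward step, type I. -/
theorem fwd_diag' (hf : Rule f) {A B m : ℕ} (hA : A % 2 = 0) (h6 : 12 ≤ A) (hAB : A + 24 ≤ B)
    (hT : (A + B) % 4 = 2) (hm : 2 ≤ m)
    (hP : ∀ b x y : ℕ, B ≤ b + 1 → b ≤ B + 2 → y ≤ x → x ≤ y + (2 * (A / 6) + 8) →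
      4 * m + 1 ≤ x + y + 2 → ¬ f (A - 1) b x y)
    (hS0 : ∀ x y : ℕ, y ≤ x → x ≤ y + (2 * (A / 6) + 8) → 4 * m + 1 < x + y →
      (f A B x y ↔ Fst A B x y))
    (hS1 : ∀ x y : ℕ, y ≤ x → x ≤ y + (2 * (A / 6) + 8) → 4 * m + 1 ≤ x + y + 3 →
      (f A (B - 1) x y ↔ Fst A (B - 1) x y))
    (hl : ¬ f A B (2 * m + 1) (2 * m)) :
    ∀ t : ℕ, t + 1 ≤ A / 6 → ¬ f A (B + 2) (2 * m + 4 + 2 * t) (2 * m + 3) := by
  intro t
  induction t with
  | zero => intro _; exact diag_turn' hf hA h6 hAB hT hm hP hS0 hS1 hl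
  | succ t ih =>
    intro ht hcon
    have ih' := ih (by omega)
    have e2 : 2 * m + 4 + 2 * (t + 1) = (2 * m + 4 + 2 * t) + 2 := by omega
    rw [e2] at hcon
    set i2 := 2 * m + 4 + 2 * t with hi2
    set j2 := 2 * m + 2 with hj2
    have e1 : 2 * m + 3 = j2 + 1 := by omega
    rw [e1] at hcon ih'
    have ho : ¬ f A (B + 2) (i2 + 1) (j2 + 1) := by
      have h1 := hf.down hcon (p := 0) (q := 0) (r := 1) (s := 0) (by omega) (by omega) (by omega)
        (by omega) (by omega) (by omega) (by omega) (by omega) (by omega)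
      simpa using h1
    have hy : ¬ f A (B + 2) (i2 + 1) j2 := by
      have h1 := hf.down hcon (p := 0) (q := 0) (r := 1) (s := 1) (by omega) (by omega) (by omega)
        (by omega) (by omega) (by omega) (by omega) (by omega) (by omega)
      simpa using h1
    obtain ⟨p, q, r, s, hp, hq, hr, hs, hsum, hpa, hqb, hrx, hsy, hpred⟩ :=
      hf.exists_pred (a := A) (b := B + 2) (x := i2 + 1) (y := j2 + 1) (by omega) ho
    rcases Nat.lt_or_ge p 1 with hp0 | hp1
    · have hp0' : p = 0 := by omega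
      subst hp0'
      rw [Nat.sub_zero] at hpred
      rcases Nat.lt_or_ge q 1 with hq0 | hq1
      · have hq0' : q = 0 := by omega
        subst hq0'
        rw [Nat.sub_zero] at hpred
        have h3 : (r = 1 ∧ s = 0) ∨ (r = 0 ∧ s = 1) ∨ (r = 1 ∧ s = 1) := by omega
        rcases h3 with ⟨rfl, rfl⟩ | ⟨rfl, rfl⟩ | ⟨rfl, rfl⟩
        · exact ih' (by simpa using hpred)
        · exact hy (by simpa using hpred)
        · have h4 := hf.not_allEven hpred
          apply h4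
          refine ⟨hA, by omega, by omega, by omega⟩
      · have hq1' : q = 1 := by omega
        subst hq1'
        have eb : B + 2 - 1 = B + 1 := by omega
        rw [eb] at hpred
        exact odd_zero_in' hf hA h6 hAB hT hS0 (by omega) (by omega) (by omega) (by omega) hpred
    · have hp1' : p = 1 := by omega
      subst hp1'
      exact hP _ _ _ (by omega) (by omega) (by omega) (by omega) (by omega) hpred

/-- The static field in the window at the edge. -/
theorem Fst_edge' {A B c n p q : ℕ} (hA : A % 2 = 0) (h6 : 12 ≤ A) (hAB : A + 24 ≤ B)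
    (hT : (A + B) % 4 = 0) (hc : 2 ≤ c) (hn1 : 1 ≤ n) (hn : n ≤ 4) (hp1 : 1 ≤ p) (hp : p ≤ 8)
    (hq1 : 1 ≤ q) (hq : q ≤ 8) (hpq : q ≤ p + 3) :
    Fst A (B - 2 + n) (2 * (c + A / 6) - 3 + p) (2 * c - 4 + q) ↔
    ((n % 2 = 0 ∧ (p + q) % 2 = 0 ∧ ((p + 2 ≤ q ∧ (n + 2 * p) % 4 = 0) ∨
      (q ≤ p + 2 ∧ (n + p + q) % 4 = 2))) ∨
      (n % 2 = 1 ∧ (p + q) % 2 = 1 ∧ q ≤ p + 1 ∧ (n + p + q) % 4 = 2)) := by
  have e : 2 * (c + A / 6) - 3 + p = (2 * c - 4 + q) + (2 * (A / 6) + 1 + p - q) := by omega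
  rw [e, Fst_zone' hA (by omega) (by omega) (by omega)]
  constructor
  · rintro (⟨g1, g2, ⟨g3, g4⟩ | ⟨g3, g4⟩⟩ | ⟨g1, g2, ⟨g3, g4⟩ | ⟨g3, g4⟩⟩)
    · left; exact ⟨by omega, by omega, Or.inl ⟨by omega, by omega⟩⟩
    · left; exact ⟨by omega, by omega, Or.inr ⟨by omega, by omega⟩⟩
    · right; exact ⟨by omega, by omega, by omega, by omega⟩
    · exfalso; omega
  · rintro (⟨g1, g2, ⟨g3, g4⟩ | ⟨g3, g4⟩⟩ | ⟨g1, g2, g3, g4⟩)
    · left; exact ⟨by omega, by omega, Or.inl ⟨by omega, by omega⟩⟩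
    · left; exact ⟨by omega, by omega, Or.inr ⟨by omega, by omega⟩⟩
    · right; exact ⟨by omega, by omega, Or.inl ⟨by omega, by omega⟩⟩

/-- The turn at the edge. -/
theorem edge_turn' (hf : Rule f) {A B c : ℕ} (hA : A % 2 = 0) (h6 : 12 ≤ A) (hAB : A + 24 ≤ B)
    (hT : (A + B) % 4 = 0) (hc : 2 ≤ c)
    (hP : ∀ b x y : ℕ, B ≤ b + 1 → b ≤ B + 2 → y ≤ x → x ≤ y + (2 * (A / 6) + 8) →
      4 * c + 2 * (A / 6) + 1 ≤ x + y + 2 → ¬ f (A - 1) b x y)
    (hS0 : ∀ x y : ℕ, y ≤ x → x ≤ y + (2 * (A / 6) + 8) → 4 * c + 2 * (A / 6) + 1 < x + y →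
      (f A B x y ↔ Fst A B x y))
    (hS1 : ∀ x y : ℕ, y ≤ x → x ≤ y + (2 * (A / 6) + 8) → 4 * c + 2 * (A / 6) + 1 ≤ x + y + 3 →
      (f A (B - 1) x y ↔ Fst A (B - 1) x y))
    (hl : ¬ f A B (2 * (c + A / 6)) (2 * c + 1)) :
    ¬ f A (B + 2) (2 * (c + A / 6) + 3) (2 * c + 4) := by
  intro hcon
  refine edgeY hf (a0 := A - 2) (b0 := B - 2) (x0 := 2 * (c + A / 6) - 3) (y0 := 2 * c - 4)
    (by omega) (by omega) (by omega) (by omega) ?_ ?_
  · intro j n p q hr h
    obtain ⟨r1, r2, r3, r4, r5, r6, r7, r8⟩ := hr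
    rcases h with ⟨rfl, ⟨hpq, hR⟩, hF⟩ | ⟨rfl, rfl, rfl, rfl⟩
    · have hz := (Fst_edge' hA h6 hAB hT hc r3 (by omega) r5 (by omega) r7 (by omega) hpq).2 hF
      have ea : A - 2 + 2 = A := by omega
      rw [ea]
      rcases hR with ⟨rfl, hR⟩ | ⟨rfl, hR⟩
      · have eb : B - 2 + 1 = B - 1 := by omega
        rw [eb] at hz ⊢
        exact (hS1 _ _ (by omega) (by omega) (by omega)).2 hz
      · have eb : B - 2 + 2 = B := by omega
        rw [eb] at hz ⊢
        exact (hS0 _ _ (by omega) (by omega) (by omega)).2 hz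
    · have ea : A - 2 + 2 = A := by omega
      have eb : B - 2 + 4 = B + 2 := by omega
      have ex : 2 * (c + A / 6) - 3 + 6 = 2 * (c + A / 6) + 3 := by omega
      have ey : 2 * c - 4 + 8 = 2 * c + 4 := by omega
      rw [ea, eb, ex, ey]
      exact hcon
  · intro j n p q hr h
    obtain ⟨r1, r2, r3, r4, r5, r6, r7, r8⟩ := hr
    rcases h with ⟨rfl, hpq, hs⟩ | ⟨rfl, ⟨hpq, hR⟩, hF⟩ | ⟨rfl, rfl, rfl, rfl⟩
    · have ea : A - 2 + 1 = A - 1 := by omega
      rw [ea]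
      exact hP _ _ _ (by omega) (by omega) (by omega) (by omega) (by omega)
    · have hz := (not_congr (Fst_edge' hA h6 hAB hT hc r3 (by omega) r5 (by omega) r7 (by omega)
        hpq)).2 hF
      have ea : A - 2 + 2 = A := by omega
      rw [ea]
      rcases hR with ⟨rfl, hR⟩ | ⟨rfl, hR⟩
      · have eb : B - 2 + 1 = B - 1 := by omega
        rw [eb] at hz ⊢
        exact fun hc => hz ((hS1 _ _ (by omega) (by omega) (by omega)).1 hc)
      · have eb : B - 2 + 2 = B := by omega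
        rw [eb] at hz ⊢
        exact fun hc => hz ((hS0 _ _ (by omega) (by omega) (by omega)).1 hc)
    · have ea : A - 2 + 2 = A := by omega
      have eb : B - 2 + 2 = B := by omega
      have ex : 2 * (c + A / 6) - 3 + 3 = 2 * (c + A / 6) := by omega
      have ey : 2 * c - 4 + 5 = 2 * c + 1 := by omega
      rw [ea, eb, ex, ey]
      exact hl

/-- Odd rows are zero ahead in the strip, over an out-row. -/
theorem odd_zero_out' (hf : Rule f) {A B S : ℕ} (hA : A % 2 = 0) (h6 : 12 ≤ A) (hAB : A + 24 ≤ B)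
    (hT : (A + B) % 4 = 0)
    (hS0 : ∀ x y : ℕ, y ≤ x → x ≤ y + (2 * (A / 6) + 8) → S < x + y →
      (f A B x y ↔ Fst A B x y)) {u w : ℕ} (hw : 2 ≤ w) (h1 : w + 1 ≤ u)
    (h2 : u + 1 ≤ w + 2 * (A / 6)) (hs : S + 2 < u + w) : ¬ f A (B + 1) u w := by
  intro h
  have key : ∀ r t : ℕ, r ≤ 1 → t ≤ 1 → (u - r) % 2 = 0 → (w - t) % 2 = 1 → w - t ≤ u - r →
      u - r ≤ (w - t) + (2 * (A / 6)) → False := by
    intro r t hr ht e1 e2 e3 e4
    have h3 := hf.down h (p := 0) (q := 1) (r := r) (s := t) (by omega) le_rfl hr ht (by omega)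
      (by omega) (by omega) (by omega) (by omega)
    apply h3
    have eb : B + 1 - 1 = B := by omega
    rw [Nat.sub_zero, eb, hS0 _ _ e3 (by omega) (by omega)]
    have e : u - r = (w - t) + ((u - r) - (w - t)) := by omega
    rw [e, Fst_zone' hA (by omega) (by omega) (by omega)]
    left
    exact ⟨by omega, by omega, Or.inl ⟨by omega, by omega⟩⟩
  rcases Nat.mod_two_eq_zero_or_one u with hu | hu <;>
    rcases Nat.mod_two_eq_zero_or_one w with hv | hv
  · exact key 0 1 (by omega) (by omega) (by omega) (by omega) (by omega) (by omega)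
  · exact key 0 0 (by omega) (by omega) (by omega) (by omega) (by omega) (by omega)
  · exact key 1 1 (by omega) (by omega) (by omega) (by omega) (by omega) (by omega)
  · exact key 1 0 (by omega) (by omega) (by omega) (by omega) (by omega) (by omega)

/-- Forward step, type II. -/
theorem fwd_edge' (hf : Rule f) {A B c : ℕ} (hA : A % 2 = 0) (h6 : 12 ≤ A) (hAB : A + 24 ≤ B)
    (hT : (A + B) % 4 = 0) (hc : 2 ≤ c)
    (hP : ∀ b x y : ℕ, B ≤ b + 1 → b ≤ B + 2 → y ≤ x → x ≤ y + (2 * (A / 6) + 8) →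
      4 * c + 2 * (A / 6) + 1 ≤ x + y + 2 → ¬ f (A - 1) b x y)
    (hS0 : ∀ x y : ℕ, y ≤ x → x ≤ y + (2 * (A / 6) + 8) → 4 * c + 2 * (A / 6) + 1 < x + y →
      (f A B x y ↔ Fst A B x y))
    (hS1 : ∀ x y : ℕ, y ≤ x → x ≤ y + (2 * (A / 6) + 8) → 4 * c + 2 * (A / 6) + 1 ≤ x + y + 3 →
      (f A (B - 1) x y ↔ Fst A (B - 1) x y))
    (hl : ¬ f A B (2 * (c + A / 6)) (2 * c + 1)) :
    ∀ t : ℕ, t + 1 ≤ A / 6 → ¬ f A (B + 2) (2 * (c + A / 6) + 3) (2 * c + 4 + 2 * t) := by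
  intro t
  induction t with
  | zero => intro _; exact edge_turn' hf hA h6 hAB hT hc hP hS0 hS1 hl
  | succ t ih =>
    intro ht hcon
    have ih' := ih (by omega)
    set i2 := 2 * (c + A / 6) + 2 with hi2
    have e1 : 2 * (c + A / 6) + 3 = i2 + 1 := by omega
    rw [e1] at hcon ih'
    have e2 : 2 * c + 4 + 2 * (t + 1) = (2 * c + 4 + 2 * t) + 2 := by omega
    rw [e2] at hcon
    set j2 := 2 * c + 4 + 2 * t with hj2
    -- the block `(i, j)` has no one in the in-plane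
    have ho : ¬ f A (B + 2) (i2 + 1) (j2 + 1) := by
      have h1 := hf.down hcon (p := 0) (q := 0) (r := 0) (s := 1) (by omega) (by omega) (by omega)
        (by omega) (by omega) (by omega) (by omega) (by omega) (by omega)
      simpa using h1
    have hx : ¬ f A (B + 2) i2 (j2 + 1) := by
      have h1 := hf.down hcon (p := 0) (q := 0) (r := 1) (s := 1) (by omega) (by omega) (by omega)
        (by omega) (by omega) (by omega) (by omega) (by omega) (by omega)
      simpa using h1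
    obtain ⟨p, q, r, s, hp, hq, hr, hs, hsum, hpa, hqb, hrx, hsy, hpred⟩ :=
      hf.exists_pred (a := A) (b := B + 2) (x := i2 + 1) (y := j2 + 1) (by omega) ho
    rcases Nat.lt_or_ge p 1 with hp0 | hp1
    · have hp0' : p = 0 := by omega
      subst hp0'
      rw [Nat.sub_zero] at hpred
      rcases Nat.lt_or_ge q 1 with hq0 | hq1
      · have hq0' : q = 0 := by omega
        subst hq0'
        rw [Nat.sub_zero] at hpred
        have h3 : (r = 1 ∧ s = 0) ∨ (r = 0 ∧ s = 1) ∨ (r = 1 ∧ s = 1) := by omega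
        rcases h3 with ⟨rfl, rfl⟩ | ⟨rfl, rfl⟩ | ⟨rfl, rfl⟩
        · exact hx (by simpa using hpred)
        · exact ih' (by simpa using hpred)
        · have h4 := hf.not_allEven hpred
          apply h4
          refine ⟨hA, by omega, by omega, by omega⟩
      · have hq1' : q = 1 := by omega
        subst hq1'
        have eb : B + 2 - 1 = B + 1 := by omega
        rw [eb] at hpred
        exact odd_zero_out' hf hA h6 hAB hT hS0 (by omega) (by omega) (by omega) (by omega) hpred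
    · have hp1' : p = 1 := by omega
      subst hp1'
      exact hP _ _ _ (by omega) (by omega) (by omega) (by omega) (by omega) hpred

end Pool.Agent.SNT
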