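import Pool.Agent.SNT.UpC
import Pool.Agent.SNT.FwdW

set_option autoImplicit false
set_option maxHeartbeats 1000000

/-! Persistence of the tip of an isolated layer. -/

namespace Pool.Agent.SNT

variable {f : ℕ → ℕ → ℕ → ℕ → Prop}

/-- The static field of an odd layer is zero except far outside. -/
theorem Fst_odd_far {a b x y : ℕ} (ha : a % 2 = 1) (hab : a + 2 ≤ b) (hyx : y ≤ x)
    (hd : x + 10 * (a / 6) + 8 < y + (a + b)) : ¬ Fst a b x y := by
  rw [Fst_of_le (by omega) hyx]
  rintro (h | h | h | h)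
  · unfold FF1 at h
    omega
  · obtain ⟨g1, g2, g3, g4⟩ := h
    unfold FU at g3
    rcases g3 with g3 | g3 | g3 | g3 | g3 | g3 <;> omega
  · unfold FF3 at h
    omega
  · unfold FF4 at h
    omega

/-- One period of the tip: the layer `A` is exact, the layer `A - 1` is behind by two columns. -/
theorem tip_step (hf : Rule f) {A B m L : ℕ} (hA : A % 2 = 0) (h24 : 24 ≤ A) (hAB : A + 28 ≤ B)
    (hT : (A + B) % 4 = 2) (hm : 2 * (A / 6) + 2 ≤ m) (C : Cyc f A B (2 * m + 2))
    (Cp : Cyc f A (B - 4) (2 * m - 2 - 2 * (A / 6))) (hO : OddB f A B L)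
    (hOm : St f (A - 1) (B - 1) (2 * m - 1)) (hL : L + 2 ≤ 2 * m)
    (ht : ¬ f A B (2 * m + 1) (2 * m)) :
    ¬ f A (B + 4) (2 * (m + A / 6 + 2) + 1) (2 * (m + A / 6 + 2)) := by
  have ecc : cc A = 2 * (A / 6) := by
    unfold cc
    omega
  have z : ∀ b x y : ℕ, (f (A - 1) b x y ↔ Fst (A - 1) b x y) → A + 27 ≤ b → y ≤ x →
      x ≤ y + (2 * (A / 6) + 8) → ¬ f (A - 1) b x y := by
    intro b x y hs hb hyx hd h
    exact Fst_odd_far (a := A - 1) (by omega) (by omega) hyx (by omega) (hs.1 h)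
  have r1 := C.r1
  have r2x := C.r2x
  have r2s := C.r2s
  have p3 := Cp.r3
  have p3s := Cp.r3s
  rw [ecc] at p3
  have eB : B - 4 + 3 = B - 1 := by omega
  rw [eB] at p3 p3s
  have q3 := hO.q3
  have q4 := hO.q4
  rw [ecc] at q3 q4
  have h6 : 6 ≤ A := by omega
  -- in row
  have d1 : ¬ f A (B + 2) (2 * m + 4 + 2 * (A / 6 - 1)) (2 * m + 3) := by
    refine fwd_diag' hf (A := A) (B := B) (m := m) hA (by omega) (by omega) hT
      (by omega) ?_ ?_ ?_ ht (A / 6 - 1) (by omega)
    · intro b x y h1 h2 hyx hd hs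
      refine z b x y ?_ (by omega) hyx hd
      have h3 : b = B - 1 ∨ b = B ∨ b = B + 1 ∨ b = B + 2 := by omega
      rcases h3 with rfl | rfl | rfl | rfl
      · exact hOm x y (lt_of_lt_of_le (by omega) (le_max_left _ _))
      · exact hO.q0 x y (lt_of_lt_of_le (by omega) (le_max_left _ _))
      · exact hO.q1 x y (lt_of_lt_of_le (by omega) (le_max_left _ _))
      · rcases Nat.lt_or_ge (2 * m) x with h4 | h4
        · exact hO.q2 x y (lt_of_lt_of_le (by omega) (le_max_left _ _))
        · exact hO.q2s h6 x y (by omega) (by omega)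
    · intro x y hyx hd hs
      rcases Nat.lt_or_ge (2 * m + 2) x with h3 | h3
      · exact C.r0 x y (lt_of_lt_of_le h3 (le_max_left _ _))
      · rw [Fst_II (by omega) (by omega) (by omega) (by omega) hyx (by omega)]
        refine iff_of_false ?_ (by omega)
        have h4 : (x % 2 = 0 ∧ y % 2 = 0) ∨ (x = 2 * m + 2 ∧ y = 2 * m + 1) ∨
            (x = 2 * m + 1 ∧ y = 2 * m + 1) := by omega
        rcases h4 with h4 | ⟨rfl, rfl⟩ | ⟨rfl, rfl⟩
        · intro h
          exact hf.not_allEven h ⟨by omega, by omega, h4.1, h4.2⟩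
        · intro h
          have h5 : f A B (2 * m + 3) (2 * m + 2) := by
            rw [C.r0 _ _ (lt_of_lt_of_le (by omega) (le_max_left _ _)),
              Fst_II (by omega) (by omega) (by omega) (by omega) (by omega) (by omega)]
            omega
          have h6 := hf.down h5 (p := 0) (q := 0) (r := 1) (s := 1) (by omega) (by omega)
            (by omega) (by omega) (by omega) (by omega) (by omega) (by omega) (by omega)
          exact h6 h
        · refine zero_of_one hf 0 1 0 0 (by omega) (by omega) (by omega) (by omega) (by omega)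
            (by omega) (by omega) (by omega) (by omega) ?_
          show f A (B - 1) (2 * m + 1) (2 * m + 1)
          rw [p3 _ _ (by omega), Fst_odd (by omega) (by omega) (by omega) le_rfl (by omega)]
          omega
    · intro x y hyx hd hs
      rcases Nat.lt_or_ge (2 * m) x with h3 | h3
      · exact p3 x y (lt_of_lt_of_le (by omega) (le_max_left _ _))
      · exact p3s x y (by omega) (by omega)
  -- out row
  have d2 : ¬ f A (B + 2 + 2) (2 * (m + 1 + A / 6) + 3) (2 * (m + 1) + 4 + 2 * (A / 6 - 1)) := by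
    refine fwd_edge' hf (A := A) (B := B + 2) (c := m + 1) hA (by omega) (by omega)
      (by omega) (by omega) ?_ ?_ ?_ ?_ (A / 6 - 1) (by omega)
    · intro b x y h1 h2 hyx hd hs
      refine z b x y ?_ (by omega) hyx hd
      have h3 : b = B + 1 ∨ b = B + 2 ∨ b = B + 3 ∨ b = B + 4 := by omega
      rcases h3 with rfl | rfl | rfl | rfl
      · exact hO.q1 x y (lt_of_lt_of_le (by omega) (le_max_left _ _))
      · exact hO.q2 x y (lt_of_lt_of_le (by omega) (le_max_left _ _))
      · rcases Nat.lt_or_ge x (y + 2 * (A / 6)) with h4 | h4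
        · exact hO.q3s h6 x y (by omega) (by omega)
        · exact q3 x y (lt_of_lt_of_le (by omega) (le_max_left _ _))
      · rcases Nat.lt_or_ge x (y + 2 * (A / 6)) with h4 | h4
        · exact hO.q4s h6 x y (by omega) (by omega)
        · exact q4 x y (lt_of_lt_of_le (by omega) (le_max_left _ _))
    · intro x y hyx hd hs
      rcases Nat.lt_or_ge x (y + 2 * (A / 6)) with h3 | h3
      · exact r2s x y (by omega) (by omega)
      · exact r2x x y (by omega) (by omega)
    · intro x y hyx hd hs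
      have eb : B + 2 - 1 = B + 1 := by omega
      rw [eb]
      exact r1 x y (lt_of_lt_of_le (by omega) (le_max_left _ _))
    · have e5 : 2 * (m + 1 + A / 6) = 2 * m + 4 + 2 * (A / 6 - 1) := by omega
      have e6 : 2 * (m + 1) + 1 = 2 * m + 3 := by omega
      rw [e5, e6]
      exact d1
  have e5 : B + 4 = B + 2 + 2 := by omega
  have e6 : 2 * (m + A / 6 + 2) + 1 = 2 * (m + 1 + A / 6) + 3 := by omega
  have e7 : 2 * (m + A / 6 + 2) = 2 * (m + 1) + 4 + 2 * (A / 6 - 1) := by omega
  rw [e5, e6, e7]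
  exact d2

/-- The tips of an isolated exact layer persist for ever. -/
theorem tips_all (hf : Rule f) {A b m K2 : ℕ} (hA : A % 2 = 0) (h24 : 24 ≤ A)
    (hAB : A + 28 ≤ b) (hb : b % 2 = 0) (hT : (A + b) % 4 = 2) (hm : 2 * (A / 6) + 2 ≤ m)
    (hK2e : K2 % 2 = 0) (hK2 : K2 + 2 ≤ 2 * m) (hK2' : A + b + 9 ≤ K2)
    (hC : ∀ n : ℕ, Cyc f A (b - 4 + 4 * n) (2 * m - 2 - 2 * (A / 6) + (cc A + 4) * n))
    (hc : ∀ n : ℕ, Cyc f (A - 2) (b - 2 + 4 * n) (K2 - (cc (A - 2) + 4) + (cc (A - 2) + 4) * n))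
    (hK2c : cc (A - 2) + 4 ≤ K2) (hq : St f (A - 1) (b - 1) (K2 - 4))
    (ht : ¬ f A b (2 * m + 1) (2 * m)) :
    ∀ n : ℕ, ¬ f A (b + 4 * n) (2 * (m + (A / 6 + 2) * n) + 1) (2 * (m + (A / 6 + 2) * n)) := by
  have ecc : cc A = 2 * (A / 6) := by
    unfold cc
    omega
  obtain ⟨hc2, hc4, hch⟩ := cc_facts (A - 2)
  have hcd : cc (A - 2) ≤ cc A := cc_mono (by omega)
  have main : ∀ n : ℕ, St f (A - 1) (b + 4 * n - 1) (K2 + (cc (A - 2) + 4) * n - 4) ∧
      ¬ f A (b + 4 * n) (2 * (m + (A / 6 + 2) * n) + 1) (2 * (m + (A / 6 + 2) * n)) := by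
    intro n
    induction n with
    | zero => exact ⟨hq, ht⟩
    | succ n ih =>
      obtain ⟨ih1, ih2⟩ := ih
      obtain ⟨w, hw⟩ : ∃ w, w = (A / 6) * n := ⟨_, rfl⟩
      obtain ⟨v, hv⟩ : ∃ v, v = (cc (A - 2)) * n := ⟨_, rfl⟩
      have hvw : v ≤ 2 * w := by
        rw [hv, hw, ← Nat.mul_assoc, ← ecc]
        exact Nat.mul_le_mul_right _ hcd
      have hve : v % 2 = 0 := by
        rw [hv, Nat.mul_mod, hc2]
        simp
      have hv4 : 4 * n ≤ v := by
        rw [hv]
        exact Nat.mul_le_mul_right _ hc4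
      have e1 : (A / 6 + 2) * n = w + 2 * n := by rw [hw]; ring
      have e2 : (cc (A - 2) + 4) * n = v + 4 * n := by rw [hv]; ring
      have e3 : (cc (A - 2) + 4) * (n + 1) = v + 4 * n + cc (A - 2) + 4 := by rw [hv]; ring
      have e4 : (cc (A - 2) + 4) * (n + 1 + 1) = v + 4 * n + 2 * cc (A - 2) + 8 := by
        rw [hv]; ring
      have e5 : (A / 6 + 2) * (n + 1) = w + 2 * n + A / 6 + 2 := by rw [hw]; ring
      have e6 : (cc A + 4) * n = 2 * w + 4 * n := by rw [hw, ecc]; ring
      have e7 : (cc A + 4) * (n + 1) = 2 * w + 4 * n + 2 * (A / 6) + 4 := by rw [hw, ecc]; ring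
      have C := hC (n + 1)
      have Cp := hC n
      have c1 := hc n
      have c2 := hc (n + 1)
      rw [e7] at C
      rw [e6] at Cp
      rw [e2] at c1 ih1
      rw [e3] at c2
      rw [e1] at ih2
      rw [e3, e5]
      have E1 : b - 4 + 4 * (n + 1) = b + 4 * n := by omega
      have E2 : 2 * m - 2 - 2 * (A / 6) + (2 * w + 4 * n + 2 * (A / 6) + 4) =
          2 * (m + (w + 2 * n)) + 2 := by omega
      have E3 : b - 4 + 4 * n = b + 4 * n - 4 := by omega
      have E4 : 2 * m - 2 - 2 * (A / 6) + (2 * w + 4 * n) =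
          2 * (m + (w + 2 * n)) - 2 - 2 * (A / 6) := by omega
      have E5 : b - 2 + 4 * n = b + 4 * n - 2 := by omega
      have E6 : b - 2 + 4 * (n + 1) = b + 4 * n + 2 := by omega
      rw [E1, E2] at C
      rw [E3, E4] at Cp
      rw [E5] at c1
      rw [E6] at c2
      have hO : OddB f A (b + 4 * n) (K2 + (v + 4 * n)) :=
        OddB_of_cyc hf hA (by omega) (by omega) (by omega) (by omega) (by omega) (by omega)
          (by omega) c1 c2 ih1
      obtain ⟨_, _, _, q3, _⟩ := oddQ hf (b := b + 4 * n) (L := K2 + (v + 4 * n)) hA (by omega)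
        (by omega) (by omega) (by omega) (by omega) (by omega) c1 c2 ih1
      refine ⟨q3.congr rfl (by omega) (by omega), ?_⟩
      have h1 := tip_step hf (m := m + (w + 2 * n)) hA h24 (by omega) (by omega) (by omega) C Cp hO
        (ih1.mono (by omega)) (by omega) ih2
      have E7 : b + 4 * (n + 1) = b + 4 * n + 4 := by omega
      have E8 : m + (w + 2 * n + A / 6 + 2) = m + (w + 2 * n) + A / 6 + 2 := by omega
      rw [E7, E8]
      exact h1
  intro n
  exact (main n).2

end Pool.Agent.SNT
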