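import Pool.Agent.SNT.NothP
import Pool.Agent.SNT.TipG
import Pool.Agent.SNT.NearWall
import Pool.Agent.SNT.PfDef

set_option autoImplicit false

/-! The leader `6 k` of the profile record: an isolated layer with one missing tip has a birth in a
later OUT row, and a birth contradicts the profiles of the layers `6k+2`, `6k+4`, `6k+6`. -/

namespace Pool.Agent.SNT

namespace R0

open Loc in
theorem viol_win_chk : check 3 5 6 5 1 1 1 1 0
    (fun j n p q => decide ((j = 2 ∧ n = 3 ∧ p = 1 ∧ q = 1) ∨ (j = 3 ∧ n = 3 ∧ p = 4 ∧ q = 1) ∨ (j = 3 ∧ n = 3 ∧ p = 4 ∧ q = 3) ∨ (j = 1 ∧ n = 1 ∧ p = 2 ∧ q = 1)))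
    (fun j n p q => decide ((j = 3 ∧ n = 2 ∧ p = 2 ∧ q = 1) ∨ (j = 3 ∧ n = 2 ∧ p = 2 ∧ q = 2) ∨ (j = 3 ∧ n = 2 ∧ p = 3 ∧ q = 1) ∨ (j = 3 ∧ n = 2 ∧ p = 3 ∧ q = 2) ∨ (j = 3 ∧ n = 3 ∧ p = 3 ∧ q = 2)))
    15
    0x1168301198001188000c600005f8001198f01188f01168701160701078701070701050701048700c60f005f8f = true := by
  decide +kernel

open Loc in
theorem viol_win {f : ℕ → ℕ → ℕ → ℕ → Prop} (hf : Rule f) {a0 b0 x0 y0 : ℕ}
    (ha : a0 % 2 = 1) (hb : b0 % 2 = 1) (hx : x0 % 2 = 1) (hy : y0 % 2 = 1)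
    (h1 : ∀ j n p q : ℕ, InR 3 5 6 5 1 j n p q →
      ((j = 2 ∧ n = 3 ∧ p = 1 ∧ q = 1) ∨ (j = 3 ∧ n = 3 ∧ p = 4 ∧ q = 1) ∨ (j = 3 ∧ n = 3 ∧ p = 4 ∧ q = 3) ∨ (j = 1 ∧ n = 1 ∧ p = 2 ∧ q = 1)) →
      f (a0 + j) (b0 + n) (x0 + p) (y0 + q))
    (h0 : ∀ j n p q : ℕ, InR 3 5 6 5 1 j n p q →
      ((j = 3 ∧ n = 2 ∧ p = 2 ∧ q = 1) ∨ (j = 3 ∧ n = 2 ∧ p = 2 ∧ q = 2) ∨ (j = 3 ∧ n = 2 ∧ p = 3 ∧ q = 1) ∨ (j = 3 ∧ n = 2 ∧ p = 3 ∧ q = 2) ∨ (j = 3 ∧ n = 3 ∧ p = 3 ∧ q = 2)) →
      ¬ f (a0 + j) (b0 + n) (x0 + p) (y0 + q)) : False :=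
  check_sound hf viol_win_chk
    ⟨fun h => absurd h (by decide), fun h => absurd h (by decide),
      fun h => absurd h (by decide), ha, hb, hx, hy⟩
    (fun j n p q hr h => h1 j n p q hr (of_decide_eq_true h))
    (fun j n p q hr h => h0 j n p q hr (of_decide_eq_true h))

/-- The beam step. -/
theorem viol {f : ℕ → ℕ → ℕ → ℕ → Prop} (hf : Rule f) {A r x y : ℕ}
    (hA : A % 2 = 0) (hA2 : 2 ≤ A) (hr : r % 2 = 0) (hr2 : 2 ≤ r)
    (hx : x % 2 = 0) (hx2 : 2 ≤ x) (hy : y % 2 = 0) (hy2 : 2 ≤ y)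
    (u1 : f (A + 2) (r + 2) (x + 3) y) (u2 : f (A + 2) (r + 2) (x + 3) (y + 2))
    (u3 : f A r (x + 1) y)
    (z1 : ¬ f (A + 2) (r + 1) (x + 1) y) (z2 : ¬ f (A + 2) (r + 1) (x + 1) (y + 1))
    (z3 : ¬ f (A + 2) (r + 1) (x + 2) y) (z4 : ¬ f (A + 2) (r + 1) (x + 2) (y + 1))
    (z5 : ¬ f (A + 2) (r + 2) (x + 2) (y + 1)) :
    ¬ f (A + 1) (r + 2) x y := by
  intro hP
  obtain ⟨a, rfl⟩ : ∃ a, A = a + 1 := ⟨A - 1, by omega⟩
  obtain ⟨b, rfl⟩ : ∃ b, r = b + 1 := ⟨r - 1, by omega⟩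
  obtain ⟨X, rfl⟩ : ∃ X, x = X + 1 := ⟨x - 1, by omega⟩
  obtain ⟨Y, rfl⟩ : ∃ Y, y = Y + 1 := ⟨y - 1, by omega⟩
  refine viol_win hf (a0 := a) (b0 := b) (x0 := X) (y0 := Y) (by omega) (by omega)
    (by omega) (by omega) ?_ ?_
  · intro j n p q _ h
    rcases h with ⟨rfl, rfl, rfl, rfl⟩ | ⟨rfl, rfl, rfl, rfl⟩ | ⟨rfl, rfl, rfl, rfl⟩ |
      ⟨rfl, rfl, rfl, rfl⟩
    · exact hP
    · exact u1
    · exact u2
    · exact u3
  · intro j n p q _ h
    rcases h with ⟨rfl, rfl, rfl, rfl⟩ | ⟨rfl, rfl, rfl, rfl⟩ | ⟨rfl, rfl, rfl, rfl⟩ |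
      ⟨rfl, rfl, rfl, rfl⟩ | ⟨rfl, rfl, rfl, rfl⟩
    · exact z1
    · exact z2
    · exact z3
    · exact z4
    · exact z5

/-- The static values in the strip. -/
theorem fst_strip {a b x y : ℕ} (ha : a % 2 = 0) (hyx : y < x) (hs : x + 1 ≤ y + 2 * (a / 6))
    (hn : x + a + 12 ≤ b + y) :
    Fst a b x y ↔ b % 2 = 0 ∧ (x + y) % 2 = 1 ∧ (a + b + 2 * x) % 4 = 0 := by
  rw [Fst_near ha (by rw [max_eq_left (by omega), min_eq_right (by omega)]; exact hn)]
  unfold NF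
  rw [max_eq_left (by omega), min_eq_right (by omega)]
  generalize a / 6 = h at hs
  constructor
  · rintro (⟨q1, q2, q3, q4⟩ | ⟨q1, q2, q3, q4⟩ | ⟨q1, q2, q3, q4⟩ | ⟨q1, q2, q3, q4⟩)
    · exact ⟨by omega, by omega, by omega⟩
    · exact ⟨by omega, by omega, by omega⟩
    · omega
    · omega
  · rintro ⟨q1, q2, q3⟩
    exact Or.inl ⟨by omega, by omega, by omega, by omega⟩

variable {f : ℕ → ℕ → ℕ → ℕ → Prop}

/-- The IN row in the strip, from the column `2 n + 2` on. -/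
theorem cyc_s0 (hf : Rule f) {A b n : ℕ} (hA : A % 2 = 0) (h12 : 12 ≤ A) (hb : (A + b) % 4 = 2)
    (hAb : 2 * A + 40 ≤ b) (C : Cyc f A b (2 * n + 2)) {x y : ℕ} (hyx : y ≤ x)
    (hx : 2 * n + 2 ≤ x) (hs : x < y + 2 * (A / 6)) : f A b x y ↔ Fst A b x y := by
  rcases Nat.lt_or_ge (2 * n + 2) x with h | h
  · exact C.r0 x y (by rw [max_eq_left hyx]; exact h)
  · obtain rfl : x = 2 * n + 2 := by omega
    have one : ∀ y' : ℕ, y' % 2 = 0 → y' ≤ 2 * n + 2 → 2 * n + 3 + 1 ≤ y' + 2 * (A / 6) →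
        f A b (2 * n + 3) y' := by
      intro y' h1 h2 h3
      rw [C.r0 _ _ (by rw [max_eq_left (by omega)]; omega),
        fst_strip hA (by omega) h3 (by omega)]
      omega
    have hz : ¬ f A b (2 * n + 2) y := by
      rcases Nat.mod_two_eq_zero_or_one y with hy | hy
      · have h1 := hf.down (p := 0) (q := 0) (r := 1) (s := 0) (one y hy hyx (by omega))
          (by omega) (by omega) (by omega) (by omega) (by omega) (by omega) (by omega) (by omega)
          (by omega)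
        exact h1
      · have h1 := hf.down (p := 0) (q := 0) (r := 1) (s := 1)
          (one (y + 1) (by omega) (by omega) (by omega))
          (by omega) (by omega) (by omega) (by omega) (by omega) (by omega) (by omega) (by omega)
          (by omega)
        exact h1
    have hF : ¬ Fst A b (2 * n + 2) y := by
      rw [Fst_near hA (by rw [max_eq_left hyx, min_eq_right hyx]; omega)]
      unfold NF
      rw [max_eq_left hyx, min_eq_right hyx]
      generalize A / 6 = h at hs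
      omega
    exact ⟨fun h => absurd h hz, fun h => absurd h hF⟩

/-- The row after the IN row in the strip, from the column `2 n + 3` on. -/
theorem cyc_s1 (hf : Rule f) {A b n : ℕ} (hA : A % 2 = 0) (h12 : 12 ≤ A) (hb : (A + b) % 4 = 2)
    (hAb : 2 * A + 40 ≤ b) (C : Cyc f A b (2 * n + 2)) {x y : ℕ} (hyx : y ≤ x)
    (hx : 2 * n + 3 ≤ x) (hs : x < y + 2 * (A / 6)) : f A (b + 1) x y ↔ Fst A (b + 1) x y := by
  rcases Nat.lt_or_ge (2 * n + 3) x with h | h
  · exact C.r1s (by omega) x y (by rw [max_eq_left hyx, min_eq_right hyx]; omega)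
      (by rw [max_eq_left hyx]; omega)
  · obtain rfl : x = 2 * n + 3 := by omega
    have one : ∀ y' : ℕ, y' % 2 = 0 → y' ≤ 2 * n + 2 → 2 * n + 3 + 1 ≤ y' + 2 * (A / 6) →
        f A b (2 * n + 3) y' := by
      intro y' h1 h2 h3
      rw [C.r0 _ _ (by rw [max_eq_left (by omega)]; omega),
        fst_strip hA (by omega) h3 (by omega)]
      omega
    have hz : ¬ f A (b + 1) (2 * n + 3) y := by
      rcases Nat.mod_two_eq_zero_or_one y with hy | hy
      · intro h'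
        exact hf.down (p := 0) (q := 1) (r := 0) (s := 0) h'
          (by omega) (by omega) (by omega) (by omega) (by omega) (by omega) (by omega) (by omega)
          (by omega) (one y hy (by omega) (by omega))
      · intro h'
        exact hf.down (p := 0) (q := 1) (r := 0) (s := 1) h'
          (by omega) (by omega) (by omega) (by omega) (by omega) (by omega) (by omega) (by omega)
          (by omega) (one (y - 1) (by omega) (by omega) (by omega))
    have hF : ¬ Fst A (b + 1) (2 * n + 3) y := by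
      rw [Fst_near hA (by rw [max_eq_left hyx, min_eq_right hyx]; omega)]
      unfold NF
      rw [max_eq_left hyx, min_eq_right hyx]
      generalize A / 6 = h at hs
      omega
    exact ⟨fun h => absurd h hz, fun h => absurd h hF⟩

/-- A cycle with its missing tip in the form `FPer`. -/
theorem fper_of_cyc (hf : Rule f) {A b n : ℕ} (hA : A % 2 = 0) (h12 : 12 ≤ A)
    (hb : (A + b) % 4 = 2) (hAb : 2 * A + 40 ≤ b) (C : Cyc f A b (2 * n + 2))
    (tip : ¬ f A b (2 * n + 1) (2 * n))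
    (low : ∀ r x y : ℕ, r ≤ 3 → y ≤ x → x ≤ y + 2 * (A / 6) + 8 → 2 * n ≤ x + 2 * (A / 6) + 8 →
      ¬ f (A - 1) (b + r) x y) : FPer f A b n := by
  have ecc : cc A = 2 * (A / 6) := by
    unfold cc
    omega
  refine ⟨tip, ?_, ?_, ?_, ?_, low⟩
  · intro x y hyx hx h
    rcases Nat.lt_or_ge x (y + 2 * (A / 6)) with h1 | h1
    · exact cyc_s0 hf hA h12 hb hAb C hyx hx h1
    · exact C.r0 x y (by rw [max_eq_left hyx]; omega)
  · intro x y hyx hx h
    rcases Nat.lt_or_ge x (y + 2 * (A / 6)) with h1 | h1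
    · exact cyc_s1 hf hA h12 hb hAb C hyx hx h1
    · exact C.r1 x y (by rw [max_eq_left hyx]; omega)
  · intro x y hyx h
    rcases h with ⟨h1, h2⟩ | ⟨h1, h2⟩
    · exact C.r2s x y (by rw [max_eq_left hyx, min_eq_right hyx]; omega)
        (by rw [min_eq_right hyx]; omega)
    · exact C.r2x x y (by rw [max_eq_left hyx, min_eq_right hyx]; omega)
        (by rw [max_eq_left hyx]; omega)
  · intro x y hyx h
    rcases h with ⟨h1, h2⟩ | ⟨h1, h2⟩
    · exact C.r3s x y (by rw [max_eq_left hyx, min_eq_right hyx]; omega)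
        (by rw [min_eq_right hyx]; omega)
    · exact C.r3 x y (by rw [max_eq_left hyx, ecc]; omega)

/-- The values of the four rows of a cycle in the strip. -/
theorem val0 (hf : Rule f) {A b n : ℕ} (hA : A % 2 = 0) (h12 : 12 ≤ A) (hb : (A + b) % 4 = 2)
    (hAb : 2 * A + 40 ≤ b) (C : Cyc f A b (2 * n + 2)) {x y : ℕ} (hyx : y < x)
    (hx : 2 * n + 2 ≤ x) (hs : x < y + 2 * (A / 6)) :
    f A b x y ↔ (x + y) % 2 = 1 ∧ x % 2 = 1 := by
  rw [cyc_s0 hf hA h12 hb hAb C hyx.le hx hs, fst_strip hA hyx (by omega) (by omega)]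
  omega

theorem val1 (hf : Rule f) {A b n : ℕ} (hA : A % 2 = 0) (h12 : 12 ≤ A) (hb : (A + b) % 4 = 2)
    (hAb : 2 * A + 40 ≤ b) (C : Cyc f A b (2 * n + 2)) {x y : ℕ} (hyx : y < x)
    (hx : 2 * n + 3 ≤ x) (hs : x < y + 2 * (A / 6)) : ¬ f A (b + 1) x y := by
  rw [cyc_s1 hf hA h12 hb hAb C hyx.le hx hs, fst_strip hA hyx (by omega) (by omega)]
  omega

theorem val2 {A b n : ℕ} (hA : A % 2 = 0) (hb : (A + b) % 4 = 2)
    (hAb : 2 * A + 40 ≤ b) (C : Cyc f A b (2 * n + 2)) {x y : ℕ} (hyx : y < x)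
    (hy : 2 * n + 4 ≤ y) (hs : x < y + 2 * (A / 6)) :
    f A (b + 2) x y ↔ (x + y) % 2 = 1 ∧ x % 2 = 0 := by
  rw [C.r2s x y (by rw [max_eq_left hyx.le, min_eq_right hyx.le]; omega)
        (by rw [min_eq_right hyx.le]; omega), fst_strip hA hyx (by omega) (by omega)]
  omega

theorem val3 {A b n : ℕ} (hA : A % 2 = 0) (hb : (A + b) % 4 = 2)
    (hAb : 2 * A + 40 ≤ b) (C : Cyc f A b (2 * n + 2)) {x y : ℕ} (hyx : y < x)
    (hy : 2 * n + 6 ≤ y) (hs : x < y + 2 * (A / 6)) : ¬ f A (b + 3) x y := by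
  rw [C.r3s x y (by rw [max_eq_left hyx.le, min_eq_right hyx.le]; omega)
        (by rw [min_eq_right hyx.le]; omega), fst_strip hA hyx (by omega) (by omega)]
  omega

/-- The layer `6 k - 1` is zero near the front. -/
theorem low_zero {k b m : ℕ} (hs : Side k b m)
    (lw : ∀ i : ℕ, i ≤ 100 → St f (6 * k - 1) (b + i) (2 * m - (100 * k + 1000)))
    {i x y : ℕ} (hi : i ≤ 100) (hyx : y ≤ x) (hxy : x ≤ y + 2 * k + 8)
    (hx : 2 * m ≤ x + (100 * k + 999)) : ¬ f (6 * k - 1) (b + i) x y := by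
  obtain ⟨hk, hb2, hb4, hbl, hm⟩ := hs
  rw [lw i hi x y (by rw [max_eq_left hyx]; omega)]
  exact Fst_odd_far (by omega) (by omega) hyx (by omega)

/-- The missing tip of the isolated layer `6 k` persists. -/
theorem tip_next (hf : Rule f) {k b m : ℕ} (hs : Side k b m)
    (l0 : ∀ i : ℕ, Cyc f (6 * k) (b + 4 * i) (2 * (m + k + 1 + (k + 2) * i) + 2))
    (lw : ∀ i : ℕ, i ≤ 100 → St f (6 * k - 1) (b + i) (2 * m - (100 * k + 1000)))
    {i : ℕ} (hi : i ≤ 20)
    (ht : ¬ f (6 * k) (b + 4 * (i + 1)) (2 * (m + k + 1 + (k + 2) * (i + 1)) + 1)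
      (2 * (m + k + 1 + (k + 2) * (i + 1)))) :
    ¬ f (6 * k) (b + 4 * (i + 2)) (2 * (m + k + 1 + (k + 2) * (i + 2)) + 1)
      (2 * (m + k + 1 + (k + 2) * (i + 2))) := by
  obtain ⟨hk, hb2, hb4, hbl, hm⟩ := hs
  have hdiv : 6 * k / 6 = k := by omega
  obtain ⟨v, hv⟩ : ∃ v, v = (k + 2) * i := ⟨_, rfl⟩
  have e1 : (k + 2) * (i + 1) = v + k + 2 := by rw [hv]; ring
  have e2 : (k + 2) * (i + 2) = v + 2 * k + 4 := by rw [hv]; ring
  have C := l0 (i + 1)
  have Cp := l0 i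
  rw [e1] at C ht
  rw [← hv] at Cp
  rw [e2]
  have hO : OddB f (6 * k) (b + 4 * (i + 1)) (2 * m) := by
    have hh : ∀ j : ℕ, j ≤ 4 → St f (6 * k - 1) (b + 4 * (i + 1) + j) (2 * m - (100 * k + 1000)) := by
      intro j hj
      have := lw (4 * (i + 1) + j) (by omega)
      rw [show b + 4 * (i + 1) + j = b + (4 * (i + 1) + j) by omega]
      exact this
    exact OddB_of_flat ((hh 0 (by omega)).mono (by omega)) ((hh 1 (by omega)).mono (by omega))
      ((hh 2 (by omega)).mono (by omega)) ((hh 3 (by omega)).mono (by omega))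
      ((hh 4 (by omega)).mono (by omega))
  have h1 := tip_step hf (A := 6 * k) (B := b + 4 * (i + 1)) (m := m + k + 1 + (v + k + 2))
    (L := 2 * m) (by omega) (by omega) (by omega) (by omega) (by omega) C
    (by
      rw [hdiv]
      rw [show b + 4 * (i + 1) - 4 = b + 4 * i by omega,
        show 2 * (m + k + 1 + (v + k + 2)) - 2 - 2 * k = 2 * (m + k + 1 + v) + 2 by omega]
      exact Cp) hO
    (by
      have := lw (4 * i + 3) (by omega)
      rw [show b + 4 * (i + 1) - 1 = b + (4 * i + 3) by omega]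
      exact this.mono (by omega)) (by omega) ht
  rw [hdiv] at h1
  rw [show b + 4 * (i + 2) = b + 4 * (i + 1) + 4 by omega,
    show m + k + 1 + (v + 2 * k + 4) = m + k + 1 + (v + k + 2) + k + 2 by omega]
  exact h1

/-- A birth of the layer `6 k` at distance `1 ≤ D ≤ k - 1` contradicts the profiles of the layers
`6k+2`, `6k+4`, `6k+6`.  `r` is the IN row of `6 k` before the birth, `c = m + k` its lead. -/
theorem no_birth0 (hf : Rule f) {k r m j : ℕ} (hk : 8 ≤ k) (hr2 : r % 2 = 0)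
    (hr : (6 * k + r) % 4 = 2) (hrl : 100 * k + 1000 ≤ r) (hm : 3 * k ≤ m)
    (C0 : Cyc f (6 * k) r (2 * (m + k) + 2))
    (C2 : Cyc f (6 * k + 2) (r + 2) (2 * (m + k + 2) + 2))
    (C2' : Cyc f (6 * k + 2) (r - 2) (2 * m + 2))
    (C4 : Cyc f (6 * k + 4) r (2 * (m + 2) + 2))
    (C6 : Cyc f (6 * k + 6) (r + 2) (2 * (m + 4) + 2))
    (C6' : Cyc f (6 * k + 6) (r - 2) (2 * (m + 2 - k) + 2))
    (hj1 : m + 3 ≤ j) (hj2 : j ≤ m + k + 1) :
    ¬ f (6 * k + 1) (r + 2) (2 * (m + k) + 4) (2 * j) := by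
  have d0 : 6 * k / 6 = k := by omega
  have d2 : (6 * k + 2) / 6 = k := by omega
  have d4 : (6 * k + 4) / 6 = k := by omega
  have d6 : (6 * k + 6) / 6 = k + 1 := by omega
  -- rows
  have V0 : ∀ x y : ℕ, y < x → 2 * (m + k) + 2 ≤ x → x < y + 2 * k →
      (f (6 * k) r x y ↔ (x + y) % 2 = 1 ∧ x % 2 = 1) := by
    intro x y h1 h2 h3
    exact val0 hf (by omega) (by omega) (by omega) (by omega) C0 h1 h2 (by omega)
  have V2 : ∀ x y : ℕ, y < x → 2 * (m + k + 2) + 2 ≤ x → x < y + 2 * k →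
      (f (6 * k + 2) (r + 2) x y ↔ (x + y) % 2 = 1 ∧ x % 2 = 1) := by
    intro x y h1 h2 h3
    exact val0 hf (by omega) (by omega) (by omega) (by omega) C2 h1 h2 (by omega)
  have W2 : ∀ x y : ℕ, y < x → 2 * m + 4 ≤ y → x < y + 2 * k →
      (f (6 * k + 2) r x y ↔ (x + y) % 2 = 1 ∧ x % 2 = 0) := by
    intro x y h1 h2 h3
    have h := val2 (by omega) (by omega) (by omega) C2' h1 h2 (by omega)
    rw [show r - 2 + 2 = r by omega] at h
    exact h
  have X2 : ∀ x y : ℕ, y < x → 2 * m + 6 ≤ y → x < y + 2 * k →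
      ¬ f (6 * k + 2) (r + 1) x y := by
    intro x y h1 h2 h3
    have h := val3 (by omega) (by omega) (by omega) C2' h1 h2 (by omega)
    rw [show r - 2 + 3 = r + 1 by omega] at h
    exact h
  rcases Nat.lt_or_ge j (m + 4) with hj | hj
  · -- distance `k - 1`
    obtain rfl : j = m + 3 := by omega
    have V4 : ∀ x y : ℕ, y < x → 2 * (m + 2) + 2 ≤ x → x < y + 2 * k →
        (f (6 * k + 4) r x y ↔ (x + y) % 2 = 1 ∧ x % 2 = 1) := by
      intro x y h1 h2 h3
      exact val0 hf (by omega) (by omega) (by omega) (by omega) C4 h1 h2 (by omega)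
    have V4' : ∀ x y : ℕ, y < x → 2 * (m + 2) + 3 ≤ x → x < y + 2 * k →
        ¬ f (6 * k + 4) (r + 1) x y := by
      intro x y h1 h2 h3
      exact val1 hf (by omega) (by omega) (by omega) (by omega) C4 h1 h2 (by omega)
    have W4 : ∀ x y : ℕ, y < x → 2 * (m + 2) + 4 ≤ y → x < y + 2 * k →
        (f (6 * k + 4) (r + 2) x y ↔ (x + y) % 2 = 1 ∧ x % 2 = 0) := by
      intro x y h1 h2 h3
      exact val2 (by omega) (by omega) (by omega) C4 h1 h2 (by omega)
    have V6 : ∀ x y : ℕ, y < x → 2 * (m + 4) + 2 ≤ x → x < y + 2 * (k + 1) →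
        (f (6 * k + 6) (r + 2) x y ↔ (x + y) % 2 = 1 ∧ x % 2 = 1) := by
      intro x y h1 h2 h3
      exact val0 hf (by omega) (by omega) (by omega) (by omega) C6 h1 h2 (by omega)
    have W6 : ∀ x y : ℕ, y < x → 2 * (m + 2 - k) + 4 ≤ y → x < y + 2 * (k + 1) →
        (f (6 * k + 6) r x y ↔ (x + y) % 2 = 1 ∧ x % 2 = 0) := by
      intro x y h1 h2 h3
      have h := val2 (by omega) (by omega) (by omega) C6' h1 h2 (by omega)
      rw [show r - 2 + 2 = r by omega] at h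
      exact h
    exact Loc.near_wall hf (A := 6 * k) (r := r) (x := 2 * (m + k)) (y := 2 * m) (by omega)
      (by omega) (by omega) (by omega) (by omega) (by omega)
      ((W2 _ _ (by omega) (by omega) (by omega)).2 (by omega))
      ((W2 _ _ (by omega) (by omega) (by omega)).2 (by omega))
      ((V4 _ _ (by omega) (by omega) (by omega)).2 (by omega))
      ((W4 _ _ (by omega) (by omega) (by omega)).2 (by omega))
      ((W6 _ _ (by omega) (by omega) (by omega)).2 (by omega))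
      ((V6 _ _ (by omega) (by omega) (by omega)).2 (by omega))
      ((V6 _ _ (by omega) (by omega) (by omega)).2 (by omega))
      ((V6 _ _ (by omega) (by omega) (by omega)).2 (by omega))
      (X2 _ _ (by omega) (by omega) (by omega))
      (fun h => absurd ((V4 _ _ (by omega) (by omega) (by omega)).1 h) (by omega))
      (V4' _ _ (by omega) (by omega) (by omega))
  · refine viol hf (A := 6 * k) (r := r) (x := 2 * (m + k) + 4) (y := 2 * j) (by omega)
      (by omega) (by omega) (by omega) (by omega) (by omega) (by omega) (by omega)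
      ((V2 _ _ (by omega) (by omega) (by omega)).2 (by omega))
      ((V2 _ _ (by omega) (by omega) (by omega)).2 (by omega))
      ((V0 _ _ (by omega) (by omega) (by omega)).2 (by omega))
      (X2 _ _ (by omega) (by omega) (by omega))
      (X2 _ _ (by omega) (by omega) (by omega))
      (X2 _ _ (by omega) (by omega) (by omega))
      (X2 _ _ (by omega) (by omega) (by omega))
      (fun h => absurd ((V2 _ _ (by omega) (by omega) (by omega)).1 h) (by omega))

end R0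

variable {f : ℕ → ℕ → ℕ → ℕ → Prop}

/-- **The leader `6 k`.**  (Any layers above `6 k + 6`.) -/
theorem lead0 (hf : Rule f) {k b m : ℕ} (hs : Side k b m) (S : Stack f k b m 1 1 1 1)
    (ht : ¬ f (6 * k) (b + 16) (2 * (m + k + 1 + (k + 2) * 4) + 1)
      (2 * (m + k + 1 + (k + 2) * 4))) : False := by
  have hs' := hs
  obtain ⟨hk, hb2, hb4, hbl, hm⟩ := hs'
  have hdiv : 6 * k / 6 = k := by omega
  have t4 : ¬ f (6 * k) (b + 4 * (3 + 1)) (2 * (m + k + 1 + (k + 2) * (3 + 1)) + 1)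
      (2 * (m + k + 1 + (k + 2) * (3 + 1))) := ht
  have t5 := R0.tip_next hf hs S.l0 S.lw (i := 3) (by omega) t4
  have t6 := R0.tip_next hf hs S.l0 S.lw (i := 4) (by omega) t5
  have t7 := R0.tip_next hf hs S.l0 S.lw (i := 5) (by omega) t6
  have P : ∀ i : ℕ, i ≤ 20 → ¬ f (6 * k) (b + 4 * i) (2 * (m + k + 1 + (k + 2) * i) + 1)
      (2 * (m + k + 1 + (k + 2) * i)) → FPer f (6 * k) (b + 4 * i) (m + k + 1 + (k + 2) * i) := by
    intro i hi t
    refine R0.fper_of_cyc hf (by omega) (by omega) (by omega) (by omega) (S.l0 i) t ?_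
    intro r x y h1 h2 h3 h4
    rw [hdiv] at h3 h4
    rw [show b + 4 * i + r = b + (4 * i + r) by omega]
    exact R0.low_zero hs S.lw (by omega) h2 (by omega) (by
      have : 0 ≤ (k + 2) * i := Nat.zero_le _
      omega)
  have P4 := P 4 (by omega) t4
  have P5 := P 5 (by omega) t5
  have P6 := P 6 (by omega) t6
  have P7 := P 7 (by omega) t7
  obtain ⟨n, hn⟩ : ∃ n, n = m + k + 1 + (k + 2) * 4 := ⟨_, rfl⟩
  rw [show m + k + 1 + (k + 2) * 5 = n + 6 * k / 6 + 2 by omega] at P5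
  rw [show m + k + 1 + (k + 2) * 6 = n + 2 * (6 * k / 6) + 4 by omega] at P6
  rw [show m + k + 1 + (k + 2) * 7 = n + 3 * (6 * k / 6) + 6 by omega] at P7
  rw [← hn] at P4
  obtain ⟨j, hj1, hj2, hj⟩ := strict_birth_of_per hf (A := 6 * k) (b := b + 4 * 4) (n := n)
    (by omega) (by omega) (by omega) (by omega) (by omega) P4 P5 P6 P7
  rw [hdiv] at hj1 hj2 hj
  have C0 := S.l0 7
  have C2 := S.l2 7
  have C2' := S.l2 6
  have C4 := S.l4 7
  have C6 := S.l6 7
  have C6' := S.l6 6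
  obtain ⟨c, hc⟩ : ∃ c, c = n + 2 * k + 6 := ⟨_, rfl⟩
  refine R0.no_birth0 hf (k := k) (r := b + 28) (m := c) (j := j + 1) hk (by omega) (by omega)
    (by omega) (by omega) ?_ ?_ ?_ ?_ ?_ ?_ (by omega) (by omega) ?_
  · rw [show 2 * (c + k) + 2 = 2 * (m + k + 1 + (k + 2) * 7) + 2 by omega]
    exact C0
  · rw [show 2 * (c + k + 2) + 2 = 2 * (m + k + 2 + 1 + (k + 2) * 7) + 2 by omega]
    exact C2
  · rw [show 2 * c + 2 = 2 * (m + k + 2 + 1 + (k + 2) * 6) + 2 by omega]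
    exact C2'
  · rw [show 2 * (c + 2) + 2 = 2 * (m + 2 + 1 + (k + 2) * 7) + 2 by omega]
    exact C4
  · rw [show 2 * (c + 4) + 2 = 2 * (m + 4 + 1 + (k + 2) * 7) + 2 by omega]
    exact C6
  · rw [show 2 * (c + 2 - k) + 2 = 2 * (m + 4 + 1 + (k + 2) * 6) + 2 by omega]
    exact C6'
  · rw [show 2 * (c + k) + 4 = 2 * (n + 3 * k + 6) + 4 by omega,
      show 2 * (j + 1) = 2 * j + 2 by omega]
    exact hj

end Pool.Agent.SNT
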