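import Pool.Agent.SNT.Mid

set_option autoImplicit false

/-! The two facts next to the diagonal for a narrow leader. Relative to `2 n`: the tip `(1, 0)` of the
IN row `b` is missing, the cell `(-1, -2)` is a one; then `(3, 0)` and `(5, 0)` of the OUT row `b + 2` are zero. -/

namespace Pool.Agent.SNT.Mid

open Pool.Agent.SNT Pool.Agent.SNT.Sig

variable {f : ℕ → ℕ → ℕ → ℕ → Prop} {k A b n : ℕ}

/-- the diagonal after an IN row -/
theorem diag_in {a b K x : ℕ} (C : Cyc f a b K) (ha : a % 2 = 0) (hb : b % 2 = 0)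
    (h4 : (a + b) % 4 = 2) (h6 : 6 ≤ a) (hab : a + 3 ≤ b) (hx : x % 2 = 0) (hK : K + 2 ≤ x) :
    f a (b + 1) x x := by
  rw [C.r1s h6 x x (by rw [max_self, min_self]; omega) (by rw [max_self]; omega)]
  rw [Fst_odd (by omega) ha (by omega) le_rfl (by omega)]
  omega

/-- the diagonal after an OUT row -/
theorem diag_out {a b K x : ℕ} (C : Cyc f a b K) (ha : a % 2 = 0) (hb : b % 2 = 0)
    (h4 : (a + b) % 4 = 2) (h6 : 6 ≤ a) (hab : a + 3 ≤ b) (hx : x % 2 = 1) (hK : K + 4 ≤ x) :
    f a (b + 3) x x := by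
  rw [C.r3s x x (by rw [max_self, min_self]; omega) (by rw [min_self]; omega)]
  rw [Fst_odd (by omega) ha (by omega) le_rfl (by omega)]
  omega

/-- a one kills its successors, in the form of a zero -/
theorem H.g5 (hf : Rule f) (h : H f k A b n) (ht : ¬ f A b (2 * n + 1) (2 * n)) :
    ¬ f A (b + 2) (2 * n + 5) (2 * n) := by
  have hAb := h.hAb
  have e := h.hAk
  have hk := h.hk
  have hn := h.hn
  have hA := h.hA
  have hb := h.hb
  have h4 := h.h4
  intro g
  have m62 : ¬ f A (b + 2) (2 * n + 6) (2 * n + 2) := even_zero hf hA (by omega) (by omega) (by omega)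
  have m64 : ¬ f A (b + 2) (2 * n + 6) (2 * n + 4) := even_zero hf hA (by omega) (by omega) (by omega)
  -- the cell (5, 2)
  have g52 : f A (b + 2) (2 * n + 5) (2 * n + 2) := by
    have c := h.cov3 hf ht (x := 2 * n + 5) (y := 2 * n + 1) (by omega) (by omega) (by omega) (by omega) (by omega)
    rcases c with c | c | c | c
    · exact absurd c (kill hf g 0 0 0 1 (by omega) (by omega) (by omega) le_rfl (by omega))
    · exact absurd c (kill hf g 0 0 1 1 (by omega) (by omega) le_rfl le_rfl (by omega))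
    · exact c
    · exact absurd c m62
  -- the window (5, 3) is empty
  have z53 : ¬ f A (b + 2) (2 * n + 5) (2 * n + 3) := kill hf g52 0 0 0 1 (by omega) (by omega) (by omega) le_rfl (by omega)
  have z63 : ¬ f A (b + 2) (2 * n + 6) (2 * n + 3) := kill hf g52 0 0 1 1 (by omega) (by omega) le_rfl le_rfl (by omega)
  have z54 : ¬ f A (b + 2) (2 * n + 5) (2 * n + 4) := fun h1 => by
    have := (out_iff h.c0 hA hb h4 (by omega) (by omega) (by omega) (by omega)).1 h1
    omega
  -- the vertex (6, 4) of the layer `A + 1`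
  have v : ¬ f (A + 1) (b + 2 - 0) (2 * n + 6) (2 * n + 4) := h.P1_2 hf (q := 0) (by omega) (by omega) (by omega) (by omega)
  rw [Nat.sub_zero] at v
  obtain ⟨p, q, r, s, hp, hq, hr, hs, h0, -, -, -, -, h6⟩ := pred hf v (by omega)
  have d44 : f A (b + 1) (2 * n + 4) (2 * n + 4) := diag_in h.c0 hA hb h4 (by omega) (by omega) (by omega) (by omega)
  have d55 : f (A + 2) (b + 1) (2 * n + 5) (2 * n + 5) := by
    have := diag_out (x := 2 * n + 5) h.c2m (by omega) (by omega) (by omega) (by omega) (by omega) (by omega) (by omega)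
    rwa [show b - 2 + 3 = b + 1 by omega] at this
  have hP2 : ∀ x y : ℕ, 2 * n ≤ y → y + 2 ≤ x → x ≤ 2 * n + 6 → ¬ f (A + 1) (b + 2) x y := fun x y h1 h2 h3 => by
    have := h.P1_2 hf (q := 0) (x := x) (y := y) (by omega) (by omega) (by omega) (by omega)
    rwa [Nat.sub_zero] at this
  have hP1 : ∀ x y : ℕ, 2 * n ≤ y → y + 2 ≤ x → x ≤ 2 * n + 6 → ¬ f (A + 1) (b + 1) x y := fun x y h1 h2 h3 => by
    have := h.P1_2 hf (q := 1) (x := x) (y := y) (by omega) (by omega) (by omega) (by omega)
    rwa [show b + 2 - 1 = b + 1 by omega] at this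
  have hA1 : ∀ x y : ℕ, 2 * n + 4 ≤ x → y < x → 2 * n ≤ y → x ≤ 2 * n + 6 → ¬ f A (b + 1) x y := fun x y h1 h2 h3 h5 =>
    in1_zero h.c0 hA hb (by omega) (by omega) h2 (by omega) (by omega)
  have w1 : ¬ f (A + 1) (b + 2) (2 * n + 5) (2 * n + 4) := kill hf d44 1 1 1 0 le_rfl le_rfl le_rfl (by omega) (by omega)
  have w2 : ¬ f (A + 1) (b + 1) (2 * n + 5) (2 * n + 4) := fun h1 =>
    kill hf h1 1 0 0 1 le_rfl (by omega) (by omega) le_rfl (by omega) d55
  have c52 : 2 * n + 6 - 1 = 2 * n + 5 := by omega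
  have c53 : 2 * n + 4 - 1 = 2 * n + 3 := by omega
  have c54 : b + 2 - 1 = b + 1 := by omega
  interval_cases p <;> interval_cases q <;> interval_cases r <;> interval_cases s <;>
    simp only [Nat.sub_zero, Nat.add_sub_cancel, c52, c53, c54] at h6
  · exact absurd h0 (by omega)
  · exact hP2 _ _ (by omega) (by omega) (by omega) h6
  · exact w1 h6
  · exact hP2 _ _ (by omega) (by omega) (by omega) h6
  · exact hP1 _ _ (by omega) (by omega) (by omega) h6
  · exact hP1 _ _ (by omega) (by omega) (by omega) h6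
  · exact w2 h6
  · exact hP1 _ _ (by omega) (by omega) (by omega) h6
  · exact m64 h6
  · exact z63 h6
  · exact z54 h6
  · exact z53 h6
  · exact hA1 _ _ (by omega) (by omega) (by omega) (by omega) h6
  · exact hA1 _ _ (by omega) (by omega) (by omega) (by omega) h6
  · exact hA1 _ _ (by omega) (by omega) (by omega) (by omega) h6
  · exact hA1 _ _ (by omega) (by omega) (by omega) (by omega) h6

/-- the diagonal cell `(0, 0)` of the row `b + 1` of `A` is a one -/
theorem H.d00 (hf : Rule f) (h : H f k A b n) (h1 : f A b (2 * n - 1) (2 * n - 2)) :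
    f A (b + 1) (2 * n) (2 * n) := by
  have hAb := h.hAb
  have e := h.hAk
  have hk := h.hk
  have hn := h.hn
  have hA := h.hA
  have hb := h.hb
  have h4 := h.h4
  obtain ⟨m, rfl⟩ : ∃ m : ℕ, n = m + 1 := ⟨n - 1, by omega⟩
  have ea : 2 * (m + 1) - 1 = 2 * m + 1 := by omega
  have eb : 2 * (m + 1) - 2 = 2 * m := by omega
  have ec : 2 * (m + 1) = 2 * m + 2 := by omega
  rw [ea, eb] at h1
  rw [ec]
  -- the static ones of `A + 2`
  have s1 : f (A + 2) (b + 1) (2 * m + 3) (2 * m + 3) := by
    have := diag_out (x := 2 * m + 3) h.c2m (by omega) (by omega) (by omega) (by omega) (by omega) (by omega) (by omega)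
    rwa [show b - 2 + 3 = b + 1 by omega] at this
  have s2 : f (A + 2) b (2 * m + 2) (2 * m + 1) := by
    have := (out_iff (x := 2 * m + 2) (y := 2 * m + 1) h.c2m (by omega) (by omega) (by omega) (by omega) (by omega)
      (by omega) (by omega)).2 ⟨by omega, by omega⟩
    rwa [show b - 2 + 2 = b by omega] at this
  have v : ¬ f (A + 1) (b + 1) (2 * m + 2) (2 * m + 2) := fun h2 =>
    kill hf h2 1 0 1 1 le_rfl (by omega) le_rfl le_rfl (by omega) s1
  obtain ⟨p, q, r, s, hp, hq, hr, hs, h0, -, -, -, -, h6⟩ := pred hf v (by omega)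
  have c1 : 2 * m + 2 - 1 = 2 * m + 1 := by omega
  have c2 : b + 1 - 1 = b := by omega
  -- the cells killed by (-1, -2)
  have k1 : ∀ p q r : ℕ, p ≤ 1 → q ≤ 1 → r ≤ 1 → ¬ f (A + p) (b + q) (2 * m + 1 + r) (2 * m + 1) := fun p q r hp hq hr =>
    kill hf h1 p q r 1 hp hq hr le_rfl (by omega)
  have k2 : ∀ q : ℕ, q ≤ 1 → ¬ f (A + 1) (b + q) (2 * m + 1) (2 * m + 2) := fun q hq h2 =>
    k1 1 q 1 le_rfl hq le_rfl ((hf.swap_xy _ _ _ _).1 h2)
  have k3 : ∀ q : ℕ, q ≤ 1 → ¬ f A (b + q) (2 * m + 1) (2 * m + 2) := fun q hq h2 =>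
    k1 0 q 1 (by omega) hq le_rfl ((hf.swap_xy _ _ _ _).1 h2)
  have k4 : ¬ f (A + 1) b (2 * m + 2) (2 * m + 2) := fun h2 =>
    kill hf h2 1 1 1 1 le_rfl le_rfl le_rfl le_rfl (by omega) s1
  interval_cases p <;> interval_cases q <;> interval_cases r <;> interval_cases s <;>
    simp only [Nat.sub_zero, Nat.add_sub_cancel, c1, c2] at h6
  · exact absurd h0 (by omega)
  · exact absurd h6 (k1 1 1 1 le_rfl le_rfl le_rfl)
  · exact absurd h6 (k2 1 le_rfl)
  · exact absurd h6 (k1 1 1 0 le_rfl le_rfl (by omega))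
  · exact absurd h6 k4
  · exact absurd h6 (k1 1 0 1 le_rfl (by omega) le_rfl)
  · exact absurd h6 (k2 0 (by omega))
  · exact absurd h6 (k1 1 0 0 le_rfl (by omega) (by omega))
  · exact h6
  · exact absurd h6 (k1 0 1 1 (by omega) le_rfl le_rfl)
  · exact absurd h6 (k3 1 le_rfl)
  · exact absurd h6 (k1 0 1 0 (by omega) le_rfl (by omega))
  · exact absurd h6 (even_zero hf hA hb (by omega) (by omega))
  · exact absurd h6 (k1 0 0 1 (by omega) (by omega) le_rfl)
  · exact absurd h6 (k3 0 (by omega))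
  · exact absurd h6 (k1 0 0 0 (by omega) (by omega) (by omega))

/-- the y-signal of the column `n + 1` cannot end at the diagonal -/
theorem H.g3 (hf : Rule f) (h : H f k A b n) (ht : ¬ f A b (2 * n + 1) (2 * n))
    (h1 : f A b (2 * n - 1) (2 * n - 2)) : ¬ f A (b + 2) (2 * n + 3) (2 * n) := by
  have hAb := h.hAb
  have e := h.hAk
  have hk := h.hk
  have hn := h.hn
  have hA := h.hA
  have hb := h.hb
  have h4 := h.h4
  intro g
  have d00 := h.d00 hf h1
  have m20 : ¬ f A (b + 2) (2 * n + 2) (2 * n) := even_zero hf hA (by omega) (by omega) (by omega)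
  have m42 : ¬ f A (b + 2) (2 * n + 4) (2 * n + 2) := even_zero hf hA (by omega) (by omega) (by omega)
  have d33 : f (A + 2) (b + 1) (2 * n + 3) (2 * n + 3) := by
    have := diag_out (x := 2 * n + 3) h.c2m (by omega) (by omega) (by omega) (by omega) (by omega) (by omega) (by omega)
    rwa [show b - 2 + 3 = b + 1 by omega] at this
  have d11 : f (A + 2) (b + 1) (2 * n + 1) (2 * n + 1) := by
    have := diag_out (x := 2 * n + 1) h.c2m (by omega) (by omega) (by omega) (by omega) (by omega) (by omega) (by omega)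
    rwa [show b - 2 + 3 = b + 1 by omega] at this
  have hP2 : ∀ x y : ℕ, 2 * n ≤ y → y + 2 ≤ x → x ≤ 2 * n + 6 → ¬ f (A + 1) (b + 2) x y := fun x y h1 h2 h3 => by
    have := h.P1_2 hf (q := 0) (x := x) (y := y) (by omega) (by omega) (by omega) (by omega)
    rwa [Nat.sub_zero] at this
  have hP1 : ∀ x y : ℕ, 2 * n ≤ y → y + 2 ≤ x → x ≤ 2 * n + 6 → ¬ f (A + 1) (b + 1) x y := fun x y h1 h2 h3 => by
    have := h.P1_2 hf (q := 1) (x := x) (y := y) (by omega) (by omega) (by omega) (by omega)
    rwa [show b + 2 - 1 = b + 1 by omega] at this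
  -- the row `b + 1` of `A`
  have i30 : f A b (2 * n + 3) (2 * n) := (in_iff h.c0 hA hb h4 (by omega) (by omega) (by omega) (by omega)).2
    ⟨by omega, by omega⟩
  have i32 : f A b (2 * n + 3) (2 * n + 2) := (in_iff h.c0 hA hb h4 (by omega) (by omega) (by omega) (by omega)).2
    ⟨by omega, by omega⟩
  have i1m : f A b (2 * n + 1) (2 * n - 1) := (h.line hf ht (by omega) (by omega)).2 (by omega)
  -- the vertex (4, 2) of `A + 1`: the cell (3, 2) of `A` or of `A + 1` is a one
  have s1 : f A (b + 2) (2 * n + 3) (2 * n + 2) ∨ f (A + 1) (b + 2) (2 * n + 3) (2 * n + 2) := by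
    obtain ⟨p, q, r, s, hp, hq, hr, hs, h0, -, -, -, -, h6⟩ :=
      pred hf (hP2 (2 * n + 4) (2 * n + 2) (by omega) (by omega) (by omega)) (by omega)
    have c1 : 2 * n + 4 - 1 = 2 * n + 3 := by omega
    have c2 : 2 * n + 2 - 1 = 2 * n + 1 := by omega
    have c3 : b + 2 - 1 = b + 1 := by omega
    interval_cases p <;> interval_cases q <;> interval_cases r <;> interval_cases s <;>
      simp only [Nat.sub_zero, Nat.add_sub_cancel, c1, c2, c3] at h6
    · exact absurd h0 (by omega)
    · exact absurd h6 (hP2 _ _ (by omega) (by omega) (by omega))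
    · exact Or.inr h6
    · exact absurd h6 (hP2 _ _ (by omega) (by omega) (by omega))
    · exact absurd h6 (hP1 _ _ (by omega) (by omega) (by omega))
    · exact absurd h6 (hP1 _ _ (by omega) (by omega) (by omega))
    · exact absurd d33 (kill hf h6 1 0 0 1 le_rfl (by omega) (by omega) le_rfl (by omega))
    · exact absurd h6 (hP1 _ _ (by omega) (by omega) (by omega))
    · exact absurd h6 m42
    · exact absurd h6 (kill hf g 0 0 1 1 (by omega) (by omega) le_rfl le_rfl (by omega))
    · exact Or.inl h6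
    · exact absurd h6 (kill hf g 0 0 0 1 (by omega) (by omega) (by omega) le_rfl (by omega))
    · exact absurd h6 (kill hf i32 0 1 1 0 (by omega) le_rfl le_rfl (by omega) (by omega))
    · exact absurd h6 (kill hf i30 0 1 1 1 (by omega) le_rfl le_rfl le_rfl (by omega))
    · exact absurd h6 (kill hf i32 0 1 0 0 (by omega) le_rfl (by omega) (by omega) (by omega))
    · exact absurd h6 (kill hf i30 0 1 0 1 (by omega) le_rfl (by omega) le_rfl (by omega))
  -- the cells (2, 1) of `A`
  have z2 : ¬ f A (b + 2) (2 * n + 2) (2 * n + 1) := fun h2 => by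
    rcases s1 with h3 | h3
    · exact kill hf h2 0 0 1 1 (by omega) (by omega) le_rfl le_rfl (by omega) h3
    · exact kill hf h2 1 0 1 1 le_rfl (by omega) le_rfl le_rfl (by omega) h3
  have z1 : ¬ f A (b + 1) (2 * n + 2) (2 * n + 1) := fun h2 => by
    rcases s1 with h3 | h3
    · exact kill hf h2 0 1 1 1 (by omega) le_rfl le_rfl le_rfl (by omega) h3
    · exact kill hf h2 1 1 1 1 le_rfl le_rfl le_rfl le_rfl (by omega) h3
  have z0 : ¬ f A (b + 1) (2 * n + 2) (2 * n) := fun h2 =>
    kill hf h2 0 1 1 0 (by omega) le_rfl le_rfl (by omega) (by omega) g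
  have z10 : ¬ f A (b + 1) (2 * n + 1) (2 * n) := by
    have := kill hf i1m 0 1 0 1 (by omega) le_rfl (by omega) le_rfl (by omega)
    rwa [show 2 * n - 1 + 1 = 2 * n by omega] at this
  -- the cells (2, 1) of `A + 1`
  have s2 : f (A + 1) (b + 2) (2 * n + 2) (2 * n + 1) ∨ f (A + 1) (b + 1) (2 * n + 2) (2 * n + 1) := by
    by_contra hcon
    push Not at hcon
    obtain ⟨p, q, r, s, hp, hq, hr, hs, h0, -, -, -, -, h6⟩ := pred hf hcon.1 (by omega)
    have c1 : 2 * n + 2 - 1 = 2 * n + 1 := by omega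
    have c2 : 2 * n + 1 - 1 = 2 * n := by omega
    have c3 : b + 2 - 1 = b + 1 := by omega
    interval_cases p <;> interval_cases q <;> interval_cases r <;> interval_cases s <;>
      simp only [Nat.sub_zero, Nat.add_sub_cancel, c1, c2, c3] at h6
    · exact absurd h0 (by omega)
    · exact absurd h6 (hP2 _ _ (by omega) (by omega) (by omega))
    · exact absurd h6 (kill hf d00 1 1 1 1 le_rfl le_rfl le_rfl le_rfl (by omega))
    · exact absurd h6 (kill hf d00 1 1 1 0 le_rfl le_rfl le_rfl (by omega) (by omega))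
    · exact absurd h6 hcon.2
    · exact absurd h6 (hP1 _ _ (by omega) (by omega) (by omega))
    · exact absurd d11 (kill hf h6 1 0 0 0 le_rfl (by omega) (by omega) (by omega) (by omega))
    · exact absurd d11 (kill hf h6 1 0 0 1 le_rfl (by omega) (by omega) le_rfl (by omega))
    · exact absurd h6 z2
    · exact absurd h6 m20
    · exact absurd h6 (kill hf d00 0 1 1 1 (by omega) le_rfl le_rfl le_rfl (by omega))
    · exact absurd h6 (kill hf d00 0 1 1 0 (by omega) le_rfl le_rfl (by omega) (by omega))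
    · exact absurd h6 z1
    · exact absurd h6 z0
    · exact absurd h6 (kill hf d00 0 0 1 1 (by omega) (by omega) le_rfl le_rfl (by omega))
    · exact absurd h6 z10
  -- they kill (3, 1) and (3, 2) of `A + 2`
  have z31 : ¬ f (A + 2) (b + 2) (2 * n + 3) (2 * n + 1) := fun h2 => by
    rcases s2 with h3 | h3
    · exact kill hf h3 1 0 1 0 le_rfl (by omega) le_rfl (by omega) (by omega) h2
    · exact kill hf h3 1 1 1 0 le_rfl le_rfl le_rfl (by omega) (by omega) h2
  have z32 : ¬ f (A + 2) (b + 2) (2 * n + 3) (2 * n + 2) := fun h2 => by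
    rcases s2 with h3 | h3
    · exact kill hf h3 1 0 1 1 le_rfl (by omega) le_rfl le_rfl (by omega) h2
    · exact kill hf h3 1 1 1 1 le_rfl le_rfl le_rfl le_rfl (by omega) h2
  -- the windows of `A + 2`
  have c20 := h.cov2 hf (x := 2 * n + 2) (y := 2 * n) (by omega) (by omega) (by omega)
  have z41 : ¬ f (A + 2) (b + 2) (2 * n + 4) (2 * n + 1) := by
    rcases c20 with c | c | c | c
    · exact absurd c (even_zero hf (by omega) (by omega) (by omega) (by omega))
    · exact kill hf c 0 0 1 1 (by omega) (by omega) le_rfl le_rfl (by omega)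
    · exact absurd c (kill hf d11 0 1 1 0 (by omega) le_rfl le_rfl (by omega) (by omega))
    · exact absurd c z31
  rcases h.cov2 hf (x := 2 * n + 3) (y := 2 * n + 1) (by omega) (by omega) (by omega) with c | c | c | c
  · exact z31 c
  · exact z41 c
  · exact z32 c
  · exact even_zero hf (by omega) (by omega) (by omega) (by omega) c

end Pool.Agent.SNT.Mid
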