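import Pool.Agent.SNT.Sig
import Pool.Agent.SNT.Up4

set_option autoImplicit false

/-! The middle of a narrow leader: alternation of the lines, away from the wall and from the
diagonal. Everything is relative to the IN row `b` of the layer `A` with lead `n`. -/

namespace Pool.Agent.SNT.Mid

open Pool.Agent.SNT Pool.Agent.SNT.Sig

variable {f : ℕ → ℕ → ℕ → ℕ → Prop}

/-- an OUT row in the strip -/
theorem out_iff {a b K x y : ℕ} (C : Cyc f a b K) (ha : a % 2 = 0) (hb : b % 2 = 0)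
    (h4 : (a + b) % 4 = 2) (hab : a < b) (hyx : y ≤ x) (hd : x + 1 ≤ y + 2 * (a / 6))
    (hK : K + 2 ≤ y) : f a (b + 2) x y ↔ (x % 2 = 0 ∧ y % 2 = 1) := by
  rw [C.r2s x y (by rw [max_eq_left hyx, min_eq_right hyx]; exact hd)
    (by rw [min_eq_right hyx]; omega)]
  exact Fst_I (by omega) ha (by omega) (by omega) hyx hd

/-- an OUT row in the strip, from the strip only -/
theorem out_iff' {a b K x y : ℕ} (C : ∀ x y : ℕ, y ≤ x → x + 1 ≤ y + 2 * (a / 6) →
    K + 2 ≤ y → (f a (b + 2) x y ↔ Fst a (b + 2) x y)) (ha : a % 2 = 0) (hb : b % 2 = 0)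
    (h4 : (a + b) % 4 = 2) (hab : a < b) (hyx : y ≤ x) (hd : x + 1 ≤ y + 2 * (a / 6))
    (hK : K + 2 ≤ y) : f a (b + 2) x y ↔ (x % 2 = 0 ∧ y % 2 = 1) := by
  rw [C x y hyx hd hK]
  exact Fst_I (by omega) ha (by omega) (by omega) hyx hd

/-- an IN row in the strip -/
theorem in_iff {a b K x y : ℕ} (C : Cyc f a b K) (ha : a % 2 = 0) (hb : b % 2 = 0)
    (h4 : (a + b) % 4 = 2) (hab : a < b) (hyx : y ≤ x) (hd : x + 1 ≤ y + 2 * (a / 6))
    (hK : K + 1 ≤ x) : f a b x y ↔ (x % 2 = 1 ∧ y % 2 = 0) := by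
  rw [C.r0 x y (by rw [max_eq_left hyx]; omega)]
  exact Fst_II (by omega) ha (by omega) (by omega) hyx hd

/-- the row after an IN row -/
theorem in1_zero {a b K x y : ℕ} (C : Cyc f a b K) (ha : a % 2 = 0) (hb : b % 2 = 0)
    (h6 : 6 ≤ a) (hab : a + 3 ≤ b) (hyx : y < x) (hd : x + 1 ≤ y + 2 * (a / 6))
    (hK : K + 2 ≤ x) : ¬ f a (b + 1) x y := by
  rw [C.r1s h6 x y (by rw [max_eq_left hyx.le, min_eq_right hyx.le]; omega)
    (by rw [max_eq_left hyx.le]; omega)]
  rw [Fst_odd (by omega) ha (by omega) hyx.le hd]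
  omega

/-- the row after an OUT row -/
theorem out1_zero {a b K x y : ℕ} (C : Cyc f a b K) (ha : a % 2 = 0) (hb : b % 2 = 0)
    (hab : a + 3 ≤ b) (hyx : y < x) (hd : x + 1 ≤ y + 2 * (a / 6))
    (hK : K + 4 ≤ y) : ¬ f a (b + 3) x y := by
  rw [C.r3s x y (by rw [max_eq_left hyx.le, min_eq_right hyx.le]; exact hd)
    (by rw [min_eq_right hyx.le]; omega)]
  rw [Fst_odd (by omega) ha (by omega) hyx.le hd]
  omega

/-- the odd layer below an OUT row, from the strip only -/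
theorem P_out' (hf : Rule f) {c b K x y q : ℕ}
    (C : ∀ x y : ℕ, y ≤ x → x + 1 ≤ y + 2 * ((c + 1) / 6) →
    K + 2 ≤ y → (f (c + 1) (b + 2) x y ↔ Fst (c + 1) (b + 2) x y)) (ha : (c + 1) % 2 = 0)
    (hb : b % 2 = 0) (h4 : (c + 1 + b) % 4 = 2) (hab : c + 1 < b) (hq : q ≤ 1)
    (hy : K + 2 ≤ y) (h1 : y + 1 ≤ x) (h2 : x + 2 ≤ y + 2 * ((c + 1) / 6)) :
    ¬ f c (b + 2 - q) x y := by
  intro h
  obtain ⟨r, hr, hxr⟩ : ∃ r : ℕ, r ≤ 1 ∧ (x + r) % 2 = 0 := by
    rcases Nat.mod_two_eq_zero_or_one x with hx | hx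
    · exact ⟨0, by omega, by omega⟩
    · exact ⟨1, by omega, by omega⟩
  obtain ⟨s, hs, hys⟩ : ∃ s : ℕ, s ≤ 1 ∧ (y + s) % 2 = 1 := by
    rcases Nat.mod_two_eq_zero_or_one y with hx | hx
    · exact ⟨1, by omega, by omega⟩
    · exact ⟨0, by omega, by omega⟩
  have h3 := kill hf h 1 q r s le_rfl hq hr hs (by omega)
  have e : b + 2 - q + q = b + 2 := by omega
  rw [e] at h3
  exact h3 ((out_iff' C ha hb h4 hab (by omega) (by omega) (by omega)).2 ⟨hxr, hys⟩)

/-- the odd layer below an OUT row -/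
theorem P_out (hf : Rule f) {c b K x y q : ℕ} (C : Cyc f (c + 1) b K) (ha : (c + 1) % 2 = 0)
    (hb : b % 2 = 0) (h4 : (c + 1 + b) % 4 = 2) (hab : c + 1 < b) (hq : q ≤ 1)
    (hy : K + 2 ≤ y) (h1 : y + 1 ≤ x) (h2 : x + 2 ≤ y + 2 * ((c + 1) / 6)) :
    ¬ f c (b + 2 - q) x y :=
  P_out' hf (fun x y hyx hd hK => C.r2s x y (by rw [max_eq_left hyx, min_eq_right hyx]; exact hd)
    (by rw [min_eq_right hyx]; omega)) ha hb h4 hab hq hy h1 h2

/-- A window is covered if the layer above and the row below are zero there. -/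
theorem cov_of {a b x y : ℕ} (hf : Rule f) (ha : a % 2 = 0)
    (h1 : ∀ r s q : ℕ, r ≤ 1 → s ≤ 1 → q ≤ 1 → ¬ f (a + 1) (b + 1 - q) (x + r) (y + s))
    (h2 : ∀ r s : ℕ, r ≤ 1 → s ≤ 1 → ¬ f a b (x + r) (y + s)) : Cov f a (b + 1) x y := by
  refine cov_of_zero hf (by omega) (W0.mk' fun r s hr hs => ?_) (W0.mk' fun r s hr hs => ?_)
    (W0.mk' fun r s hr hs => h2 r s hr hs)
  · exact h1 r s 0 hr hs (by omega)
  · have := h1 r s 1 hr hs le_rfl
    rwa [Nat.add_sub_cancel] at this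

/-- The hypotheses on the layers `A`, `A + 2`, `A + 4` around the IN row `b` of `A` (lead `n`). -/
structure H (f : ℕ → ℕ → ℕ → ℕ → Prop) (k A b n : ℕ) : Prop where
  hk : 8 ≤ k
  hA : A % 2 = 0
  hAk : A / 6 = k
  hb : b % 2 = 0
  h4 : (A + b) % 4 = 2
  hAb : A + 20 ≤ b
  hn : 2 * k + 20 ≤ n
  c0 : Cyc f A b (2 * n + 2)
  c0m : Cyc f A (b - 4) (2 * (n - k - 2) + 2)
  c2m : Cyc f (A + 2) (b - 2) (2 * (n - k) + 2)
  c2 : Cyc f (A + 2) (b + 2) (2 * (n + 2) + 2)
  c4 : Cyc f (A + 4) b (2 * (n + 2 - k) + 4)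
  c4s : ∀ x y : ℕ, y ≤ x → x + 1 ≤ y + 2 * ((A + 4) / 6) →
    2 * (n + 2 - k) + 4 ≤ y → (f (A + 4) (b + 2) x y ↔ Fst (A + 4) (b + 2) x y)

variable {k A b n : ℕ}

/-- `P_(A+1)` in the rows `b - 1`, `b`. -/
theorem H.P1_0 (hf : Rule f) (h : H f k A b n) {x y q : ℕ} (hq : q ≤ 1)
    (hy : 2 * n + 4 ≤ y + 2 * k) (h1 : y + 1 ≤ x) (h2 : x + 2 ≤ y + 2 * k) :
    ¬ f (A + 1) (b - q) x y := by
  obtain ⟨hk, hA, hAk, hb, h4, hAb, hn, -, -, C, -, -, -⟩ := h
  have := P_out hf (c := A + 1) (b := b - 2) (q := q) (x := x) (y := y) C (by omega) (by omega)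
    (by omega) (by omega) hq (by omega) h1 (by omega)
  rwa [show b - 2 + 2 - q = b - q by omega] at this

/-- The layer `A` is zero in the row `b - 1`. -/
theorem H.A_m1 (h : H f k A b n) {x y : ℕ} (hy : 2 * n + 2 ≤ y + 2 * k) (h1 : y + 1 ≤ x)
    (h2 : x + 1 ≤ y + 2 * k) : ¬ f A (b - 1) x y := by
  obtain ⟨hk, hA, hAk, hb, h4, hAb, hn, -, C, -, -, -, -⟩ := h
  have := out1_zero (x := x) (y := y) C hA (by omega) (by omega) (by omega) (by omega) (by omega)
  rwa [show b - 4 + 3 = b - 1 by omega] at this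

/-- The IN row `b` of `A` is covering. -/
theorem H.cov0 (hf : Rule f) (h : H f k A b n) {x y : ℕ} (hy : 2 * n + 4 ≤ y + 2 * k)
    (h1 : y + 2 ≤ x) (h2 : x + 3 ≤ y + 2 * k) : Cov f A b x y := by
  have hb : 1 ≤ b := by have := h.hAb; omega
  have := cov_of hf (b := b - 1) (x := x) (y := y) h.hA (fun r s q hr hs hq => by
    have := h.P1_0 hf (x := x + r) (y := y + s) hq (by omega) (by omega) (by omega)
    rwa [show b - 1 + 1 - q = b - q by omega]) (fun r s hr hs =>
      h.A_m1 (by omega) (by omega) (by omega))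
  rwa [show b - 1 + 1 = b by omega] at this

/-- The column `2 n + 2` of the IN row is zero. -/
theorem H.col2 (hf : Rule f) (h : H f k A b n) {y : ℕ} (hy : 2 * n + 4 ≤ y + 2 * k)
    (h1 : y ≤ 2 * n + 2) : ¬ f A b (2 * n + 2) y := by
  intro hc
  have C := h.c0
  have hAb := h.hAb
  have e := h.hAk
  obtain ⟨s, hs, hys⟩ : ∃ s : ℕ, s ≤ 1 ∧ (y + s) % 2 = 0 := by
    rcases Nat.mod_two_eq_zero_or_one y with hx | hx
    · exact ⟨0, by omega, by omega⟩
    · exact ⟨1, by omega, by omega⟩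
  have h3 := kill hf hc 0 0 1 s (by omega) (by omega) le_rfl hs (by omega)
  exact h3 ((in_iff C h.hA h.hb h.h4 (by omega) (by omega) (by omega) (by omega)).2
    ⟨by omega, hys⟩)

/-- Alternation of the column `2 n + 1`. -/
theorem H.alt1 (hf : Rule f) (h : H f k A b n) {y : ℕ} (hy : 2 * n + 4 ≤ y + 2 * k)
    (h1 : y + 1 ≤ 2 * n) : f A b (2 * n + 1) (y + 1) ↔ ¬ f A b (2 * n + 1) y := by
  have := (alt_step hf (a := A) (b := b) (x := 2 * n) (y0 := y) (y1 := y)
    (fun y' h2 h3 => h.cov0 hf (by omega) (by omega) (by omega))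
    (fun y' h2 h3 => h.col2 hf (by omega) (by omega))).1 y le_rfl le_rfl
  exact this

/-- The column `2 n` is zero. -/
theorem H.col0 (hf : Rule f) (h : H f k A b n) {y : ℕ} (hy : 2 * n + 4 ≤ y + 2 * k)
    (h1 : y + 1 ≤ 2 * n) : ¬ f A b (2 * n) y :=
  (alt_step hf (a := A) (b := b) (x := 2 * n) (y0 := y) (y1 := y)
    (fun y' h2 h3 => h.cov0 hf (by omega) (by omega) (by omega))
    (fun y' h2 h3 => h.col2 hf (by omega) (by omega))).2 y le_rfl le_rfl

/-- Alternation of the column `2 n - 1`. -/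
theorem H.altm (hf : Rule f) (h : H f k A b n) {y : ℕ} (hy : 2 * n + 4 ≤ y + 2 * k)
    (h1 : y + 3 ≤ 2 * n) : f A b (2 * n - 1) (y + 1) ↔ ¬ f A b (2 * n - 1) y := by
  have hn := h.hn
  have := (alt_step hf (a := A) (b := b) (x := 2 * n - 2) (y0 := y) (y1 := y)
    (fun y' h2 h3 => by
      rw [show 2 * n - 2 + 1 = 2 * n - 1 by omega]
      exact h.cov0 hf (by omega) (by omega) (by omega))
    (fun y' h2 h3 => by
      rw [show 2 * n - 2 + 2 = 2 * n by omega]
      exact h.col0 hf (by omega) (by omega))).1 y le_rfl le_rfl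
  rwa [show 2 * n - 2 + 1 = 2 * n - 1 by omega] at this

/-- **The in-line `n` is missing down to the wall.** -/
theorem H.line (hf : Rule f) (h : H f k A b n) (ht : ¬ f A b (2 * n + 1) (2 * n)) {y : ℕ}
    (hy : 2 * n + 4 ≤ y + 2 * k) (h1 : y ≤ 2 * n) : f A b (2 * n + 1) y ↔ y % 2 = 1 := by
  obtain ⟨d, hd⟩ : ∃ d : ℕ, y + d = 2 * n := ⟨2 * n - y, by omega⟩
  clear h1
  induction d generalizing y with
  | zero =>
    have e : y = 2 * n := by omega
    rw [e]
    exact iff_of_false ht (by omega)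
  | succ d ih =>
    have h2 := ih (y := y + 1) (by omega) (by omega)
    have h3 := h.alt1 hf hy (by omega)
    rw [h3] at h2
    constructor
    · intro h4
      by_contra h5
      exact (h2.2 (by omega)) h4
    · intro h4
      by_contra h5
      have := h2.1 h5
      omega

/-- **The in-line `n - 1` is present up to the diagonal if it is present at one place.** -/
theorem H.linem (hf : Rule f) (h : H f k A b n) {y0 : ℕ} (hy0 : 2 * n + 4 ≤ y0 + 2 * k)
    (hp : f A b (2 * n - 1) y0) (he : y0 % 2 = 0) {y : ℕ} (hy : y0 ≤ y) (h1 : y + 2 ≤ 2 * n) :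
    f A b (2 * n - 1) y ↔ y % 2 = 0 := by
  obtain ⟨d, rfl⟩ : ∃ d : ℕ, y = y0 + d := ⟨y - y0, by omega⟩
  clear hy
  induction d with
  | zero => exact iff_of_true hp he
  | succ d ih =>
    have h2 := ih (by omega)
    have h3 := h.altm hf (y := y0 + d) (by omega) (by omega)
    have e : y0 + (d + 1) = y0 + d + 1 := by omega
    rw [e, h3, h2]
    omega

/-- `P_(A+3)` in the rows `b + 1`, `b + 2`. -/
theorem H.P3_2 (hf : Rule f) (h : H f k A b n) {x y q : ℕ} (hq : q ≤ 1)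
    (hy : 2 * n + 8 ≤ y + 2 * k) (h1 : y + 1 ≤ x) (h2 : x + 2 ≤ y + 2 * k) :
    ¬ f (A + 3) (b + 2 - q) x y := by
  obtain ⟨hk, hA, hAk, hb, h4, hAb, hn, -, -, -, -, -, C⟩ := h
  exact P_out' hf (c := A + 3) (b := b) (q := q) (x := x) (y := y) C (by omega) (by omega)
    (by omega) (by omega) hq (by omega) h1 (by omega)

/-- The layer `A + 2` is zero in the row `b + 1`. -/
theorem H.A2_1 (h : H f k A b n) {x y : ℕ} (hy : 2 * n + 6 ≤ y + 2 * k) (h1 : y + 1 ≤ x)
    (h2 : x + 1 ≤ y + 2 * k) : ¬ f (A + 2) (b + 1) x y := by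
  obtain ⟨hk, hA, hAk, hb, h4, hAb, hn, -, -, C, -, -, -⟩ := h
  have := out1_zero (x := x) (y := y) C (by omega) (by omega) (by omega) (by omega) (by omega)
    (by omega)
  rwa [show b - 2 + 3 = b + 1 by omega] at this

/-- The IN row `b + 2` of `A + 2` is covering. -/
theorem H.cov2 (hf : Rule f) (h : H f k A b n) {x y : ℕ} (hy : 2 * n + 8 ≤ y + 2 * k)
    (h1 : y + 2 ≤ x) (h2 : x + 3 ≤ y + 2 * k) : Cov f (A + 2) (b + 2) x y := by
  have hA := h.hA
  exact cov_of hf (b := b + 1) (x := x) (y := y) (by omega) (fun r s q hr hs hq => by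
    have := h.P3_2 hf (x := x + r) (y := y + s) hq (by omega) (by omega) (by omega)
    rwa [show b + 1 + 1 - q = b + 2 - q by omega]) (fun r s hr hs =>
      h.A2_1 (by omega) (by omega) (by omega))

/-- **`P_(A+1)` in the rows `b + 1`, `b + 2`.** -/
theorem H.P1_2 (hf : Rule f) (h : H f k A b n) {x y q : ℕ} (hq : q ≤ 1)
    (hy : 2 * n + 8 ≤ y + 2 * k) (h1 : y + 2 ≤ x) (h2 : x + 3 ≤ y + 2 * k) :
    ¬ f (A + 1) (b + 2 - q) x y := by
  have h3 := h.cov2 hf hy h1 h2
  rcases Nat.eq_zero_or_pos q with h4 | h4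
  · subst h4
    exact zero_below hf (a := A + 1) (b := b + 2) (p := 1) (q := 0) h3 le_rfl (by omega) (by omega)
  · have e : q = 1 := by omega
    subst e
    exact zero_below hf (a := A + 1) (b := b + 1) (p := 1) (q := 1) h3 le_rfl le_rfl (by omega)

/-- The layer `A` is zero in the row `b + 1`, right of the missing line. -/
theorem H.A_1 (hf : Rule f) (h : H f k A b n) (ht : ¬ f A b (2 * n + 1) (2 * n)) {x y : ℕ}
    (hx : 2 * n + 2 ≤ x) (hy : 2 * n + 5 ≤ y + 2 * k) (hy2 : y ≤ 2 * n + 3)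
    (h1 : y + 2 ≤ x) (h2 : x + 1 ≤ y + 2 * k) : ¬ f A (b + 1) x y := by
  have hAb := h.hAb
  have e := h.hAk
  have hk := h.hk
  have hn := h.hn
  rcases Nat.lt_or_ge x (2 * n + 4) with h3 | h3
  · rcases Nat.lt_or_ge x (2 * n + 3) with h5 | h5
    · -- the column `2 n + 2`
      have ex : x = 2 * n + 1 + 1 := by omega
      subst ex
      rcases Nat.mod_two_eq_zero_or_one y with h6 | h6
      · have h7 := (h.line hf ht (y := y - 1) (by omega) (by omega)).2 (by omega)
        have := kill hf h7 0 1 1 1 (by omega) le_rfl le_rfl le_rfl (by omega)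
        rwa [show y - 1 + 1 = y by omega] at this
      · have h7 := (h.line hf ht (y := y) (by omega) (by omega)).2 h6
        exact kill hf h7 0 1 1 0 (by omega) le_rfl le_rfl (by omega) (by omega)
    · -- the column `2 n + 3`
      have ex : x = 2 * n + 3 := by omega
      subst ex
      rcases Nat.mod_two_eq_zero_or_one y with h6 | h6
      · have h7 := (in_iff h.c0 h.hA h.hb h.h4 (by omega) (x := 2 * n + 3) (y := y) (by omega)
          (by omega) (by omega)).2 ⟨by omega, h6⟩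
        exact kill hf h7 0 1 0 0 (by omega) le_rfl (by omega) (by omega) (by omega)
      · have h7 := (in_iff h.c0 h.hA h.hb h.h4 (by omega) (x := 2 * n + 3) (y := y - 1) (by omega)
          (by omega) (by omega)).2 ⟨by omega, by omega⟩
        have := kill hf h7 0 1 0 1 (by omega) le_rfl (by omega) le_rfl (by omega)
        rwa [show y - 1 + 1 = y by omega] at this
  · exact in1_zero h.c0 h.hA h.hb (by omega) (by omega) (by omega) (by omega) (by omega)

/-- The OUT row `b + 2` of `A` is covering right of the missing line. -/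
theorem H.cov3 (hf : Rule f) (h : H f k A b n) (ht : ¬ f A b (2 * n + 1) (2 * n)) {x y : ℕ}
    (hx : 2 * n + 2 ≤ x) (hy : 2 * n + 8 ≤ y + 2 * k) (hy2 : y ≤ 2 * n + 2) (h1 : y + 3 ≤ x)
    (h2 : x + 4 ≤ y + 2 * k) : Cov f A (b + 2) x y :=
  cov_of hf (b := b + 1) (x := x) (y := y) h.hA (fun r s q hr hs hq => by
    have := h.P1_2 hf (x := x + r) (y := y + s) hq (by omega) (by omega) (by omega)
    rwa [show b + 1 + 1 - q = b + 2 - q by omega]) (fun r s hr hs =>
      h.A_1 hf ht (by omega) (by omega) (by omega) (by omega) (by omega))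

/-- One step of the alternation of the rows. -/
theorem H.row_step (hf : Rule f) (h : H f k A b n) (ht : ¬ f A b (2 * n + 1) (2 * n))
    {x0 x1 y : ℕ} (hx : 2 * n + 2 ≤ x0) (hy : 2 * n + 8 ≤ y + 1 + 2 * k) (hy2 : y + 1 ≤ 2 * n + 3)
    (h1 : y + 4 ≤ x0) (h2 : x1 + 4 ≤ y + 1 + 2 * k)
    (hz : ∀ x, x0 ≤ x → x ≤ x1 + 1 → ¬ f A (b + 2) x (y + 2)) :
    ∀ x, x0 ≤ x → x ≤ x1 → ¬ f A (b + 2) x y := by
  intro x h3 h4
  have := (alt_step (f := fun a b x y => f a b y x) (swap hf) (a := A) (b := b + 2) (x := y)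
    (y0 := x0) (y1 := x1) (fun x' h5 h6 => Cov.swap.2 (by
      rcases Nat.lt_or_ge (y + 1) (2 * n + 3) with h7 | h7
      · exact h.cov3 hf ht (by omega) (by omega) (by omega) (by omega) (by omega)
      · -- the row `2 n + 3`: the window meets the static row `2 n + 4`
        have hAb := h.hAb
        have e := h.hAk
        have hk := h.hk
        refine cov_of hf (b := b + 1) (x := x') (y := y + 1) h.hA (fun r s q hr hs hq => ?_)
          (fun r s hr hs => ?_)
        · have := h.P1_2 hf (x := x' + r) (y := y + 1 + s) hq (by omega) (by omega) (by omega)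
          rwa [show b + 1 + 1 - q = b + 2 - q by omega]
        · exact in1_zero h.c0 h.hA h.hb (by omega) (by omega) (by omega) (by omega) (by omega)))
    (fun x' h5 h6 => hz x' h5 h6)).2 x h3 h4
  exact this

/-- Rows far from the diagonal: the even rows are zero. -/
theorem H.rows_far (hf : Rule f) (h : H f k A b n) (ht : ¬ f A b (2 * n + 1) (2 * n)) {j : ℕ}
    (hj : n + 4 ≤ j + k) (hj2 : j ≤ n + 2) :
    ∀ x, 2 * n + 6 ≤ x → x + 4 ≤ 2 * j + 2 * k → ¬ f A (b + 2) x (2 * j) := by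
  obtain ⟨d, hd⟩ : ∃ d : ℕ, j + d = n + 2 := ⟨n + 2 - j, by omega⟩
  have hAb := h.hAb
  have e := h.hAk
  have hk := h.hk
  clear hj2
  induction d generalizing j with
  | zero =>
    have ej : j = n + 2 := by omega
    subst ej
    intro x h1 h2 h3
    have := (out_iff h.c0 h.hA h.hb h.h4 (by omega) (x := x) (y := 2 * (n + 2)) (by omega)
      (by omega) (by omega)).1 h3
    omega
  | succ d ih =>
    have h5 := ih (j := j + 1) (by omega) (by omega)
    intro x h1 h2
    refine h.row_step hf ht (x0 := x) (x1 := x) (y := 2 * j) (by omega) (by omega) (by omega)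
      (by omega) (by omega) (fun x' h6 h7 => ?_) x le_rfl le_rfl
    have := h5 x' (by omega) (by omega)
    rwa [show 2 * (j + 1) = 2 * j + 2 by ring] at this

/-- **The column `c' = n + 1` of the OUT row carries no signal**, from two near diagonal facts. -/
theorem H.col_dead (hf : Rule f) (h : H f k A b n) (ht : ¬ f A b (2 * n + 1) (2 * n))
    (g3 : ¬ f A (b + 2) (2 * n + 3) (2 * n)) (g5 : ¬ f A (b + 2) (2 * n + 5) (2 * n)) {j : ℕ}
    (hj : n + 4 ≤ j + k) (hj2 : j ≤ n) :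
    ∀ x, 2 * n + 2 ≤ x → x + 4 ≤ 2 * j + 2 * k → ¬ f A (b + 2) x (2 * j) := by
  obtain ⟨d, hd⟩ : ∃ d : ℕ, j + d = n := ⟨n - j, by omega⟩
  have hb := h.hb
  have hA := h.hA
  clear hj2
  induction d generalizing j with
  | zero =>
    have ej : j = n := by omega
    subst ej
    intro x h1 h2
    rcases Nat.lt_or_ge x (2 * j + 6) with h3 | h3
    · rcases Nat.mod_two_eq_zero_or_one x with h4 | h4
      · exact even_zero hf hA (by omega) h4 (by omega)
      · have h5 : x = 2 * j + 3 ∨ x = 2 * j + 5 := by omega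
        rcases h5 with rfl | rfl
        · exact g3
        · exact g5
    · exact h.rows_far hf ht (by omega) (by omega) x (by omega) (by omega)
  | succ d ih =>
    have h5 := ih (j := j + 1) (by omega) (by omega)
    intro x h1 h2
    refine h.row_step hf ht (x0 := x) (x1 := x) (y := 2 * j) (by omega) (by omega) (by omega)
      (by omega) (by omega) (fun x' h6 h7 => ?_) x le_rfl le_rfl
    have := h5 x' (by omega) (by omega)
    rwa [show 2 * (j + 1) = 2 * j + 2 by ring] at this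

end Pool.Agent.SNT.Mid
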