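import Mathlib

/-! The static limit field of the 4-counter system, in clause form. -/

namespace Pool.Agent.SNT

/-- Upper end of the periodic part. -/
def FU (a u : ℕ) : Prop :=
  (a % 6 = 0 ∧ u + 2 ≤ 10 * (a / 6)) ∨ (a % 6 = 1 ∧ u ≤ 10 * (a / 6) + 1) ∨
  (a % 6 = 2 ∧ u ≤ 10 * (a / 6) + 4) ∨ (a % 6 = 3 ∧ u ≤ 10 * (a / 6) + 4) ∨
  (a % 6 = 4 ∧ u ≤ 10 * (a / 6) + 8) ∨ (a % 6 = 5 ∧ u ≤ 10 * (a / 6) + 8)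

/-- Upper end of the bulk part (`a` even). -/
def FT (a m d : ℕ) : Prop :=
  ((a % 6 = 0 ∨ a = 2) ∧ d + 1 ≤ m + 2 * (a / 6)) ∨ d + 3 ≤ m + 2 * (a / 6)

/-- Top part (`a + b ≤ d + 5`). -/
def FF1 (a b d e : ℕ) : Prop :=
  (a % 2 = 0 ∧ b % 2 = 0 ∧ d % 2 = 1 ∧ e = 1 ∧ a + b < d) ∨
  (a % 2 = 0 ∧ b % 2 = 0 ∧ e = 0 ∧ a + b = d + 1) ∨
  (a % 2 = 0 ∧ b % 2 = 0 ∧ e = 1 ∧ a + b = d + 3) ∨
  (a % 2 = 0 ∧ b % 2 = 0 ∧ e = 1 ∧ a + b = d + 5 ∧ 3 ≤ a) ∨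
  ((a + b) % 2 = 1 ∧ e = 0 ∧ a + b = d + 1) ∨
  (a % 2 = 1 ∧ b % 2 = 1 ∧ e = 1 ∧ a + b = d + 4 ∧ 3 ≤ a)

/-- Periodic part. -/
def FF2 (a b d e : ℕ) : Prop :=
  d + 8 ≤ a + b ∧ (d + 11 ≤ a + b ∨ a % 2 = 0 ∨ b % 2 = 0) ∧ FU a (a + b - d) ∧
    (((a + b - d) % 10 = 4 ∧ e = 1) ∨ ((a + b - d) % 10 = 8 ∧ e = 1) ∨
      ((a + b - d) % 10 = 1 ∧ e = 0))

/-- Strip and bulk. -/
def FF3 (a b d e : ℕ) : Prop :=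
  (a % 2 = 0 ∧ b % 2 = 0 ∧ (a < b ∨ a % 6 = 0) ∧ d % 2 = 1 ∧ d + 1 ≤ 2 * (a / 6) ∧
    (a + b + 2 * e) % 4 = 0) ∨
  (a % 2 = 0 ∧ b % 2 = 0 ∧ (a < b ∨ a % 6 = 0) ∧ d % 2 = 1 ∧ 2 * (a / 6) ≤ d + 1 ∧
    FT a (b - a) d ∧ (a + b + 2 * e + 3 * d) % 4 = (1 + 2 * (a / 6)) % 4) ∨
  (a % 2 = 0 ∧ b % 2 = 1 ∧ d % 2 = 0 ∧ 2 * (a / 6) ≤ d ∧
    FT a (b - a) d ∧ (a + b + 2 * e + 3 * d) % 4 = (1 + 2 * (a / 6)) % 4) ∨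
  (a % 2 = 0 ∧ b % 2 = 1 ∧ d = 0 ∧ 6 ≤ a ∧ (a + b + 2 * e) % 4 = 3 ∧
    (a + 3 ≤ b ∨ (b = a + 1 ∧ a % 6 = 2)))

/-- Corners. -/
def FF4 (a b d e : ℕ) : Prop :=
  (a = b ∧ a % 6 = 2 ∧ e = 1 ∧ d % 2 = 0 ∧ 2 ≤ d ∧ d + 2 ≤ 2 * (a / 6)) ∨
  (a = b ∧ a % 6 = 4 ∧ e = 1 ∧ d % 2 = 0 ∧ d + 2 ≤ 2 * (a / 6)) ∨
  (a = b ∧ a % 6 = 1 ∧ e = 1 ∧ d = 0 ∧ 6 ≤ a) ∨
  (b = a + 1 ∧ a % 6 = 5 ∧ e = 0 ∧ d = 0)

/-- The static field for `a ≤ b`, `d` the difference of the two large counters and `e`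
the parity of the larger one. -/
def FF (a b d e : ℕ) : Prop := FF1 a b d e ∨ FF2 a b d e ∨ FF3 a b d e ∨ FF4 a b d e

instance (a u : ℕ) : Decidable (FU a u) := by unfold FU; infer_instance
instance (a m d : ℕ) : Decidable (FT a m d) := by unfold FT; infer_instance
instance (a b d e : ℕ) : Decidable (FF1 a b d e) := by unfold FF1; infer_instance
instance (a b d e : ℕ) : Decidable (FF2 a b d e) := by unfold FF2; infer_instance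
instance (a b d e : ℕ) : Decidable (FF3 a b d e) := by unfold FF3; infer_instance
instance (a b d e : ℕ) : Decidable (FF4 a b d e) := by unfold FF4; infer_instance
instance (a b d e : ℕ) : Decidable (FF a b d e) := by unfold FF; infer_instance

/-- The static field on all four coordinates (two small, two large). -/
def Fst (a b x y : ℕ) : Prop :=
  FF (min a b) (max a b) (max x y - min x y) (max x y % 2)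

instance (a b x y : ℕ) : Decidable (Fst a b x y) := by unfold Fst; infer_instance

end Pool.Agent.SNT
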