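import Pool.Agent.SNT.Core
import Pool.Agent.SNT.Fst

/-!
# Location of a leading deviation, near zone

`NF h c x y`: the static field of an even layer `a` (`h = a / 6`, `c = (a + b) % 4`) far away from the outer wall.
`loc_near`: if `f` is static ahead of a deviation of the plane `(a, b)`, `a` even, and the row `b - 1` and the layer `a - 1` are
static (zero) from slightly behind it on, then the deviation is one of the two ends of the lines of the strip.
-/

set_option autoImplicit false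

namespace Pool.Agent.SNT

/-- The static field of an even layer in the near zone, difference form. -/
def NFd (h c d e : ℕ) : Prop :=
  (c % 2 = 0 ∧ d % 2 = 1 ∧ d < 2 * h ∧ (c + 2 * e) % 4 = 0) ∨
  (c % 2 = 0 ∧ d % 2 = 1 ∧ 2 * h ≤ d + 1 ∧ (c + 2 * e + 3 * d) % 4 = (1 + 2 * h) % 4) ∨
  (c % 2 = 1 ∧ d % 2 = 0 ∧ 2 * h ≤ d ∧ (c + 2 * e + 3 * d) % 4 = (1 + 2 * h) % 4) ∨
  (c % 2 = 1 ∧ d = 0 ∧ 1 ≤ h ∧ (c + 2 * e) % 4 = 3)

theorem FF_near {a b d e : ℕ} (ha : a % 2 = 0) (hn : d + a + 12 ≤ b) :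
    FF a b d e ↔ NFd (a / 6) ((a + b) % 4) d e := by
  obtain ⟨h, r, hr, hah⟩ : ∃ h r : ℕ, r < 6 ∧ a = 6 * h + r :=
    ⟨a / 6, a % 6, Nat.mod_lt _ (by norm_num), by omega⟩
  have hdiv : a / 6 = h := by omega
  constructor
  · rintro (h1 | h1 | h1 | h1)
    · exfalso
      rcases h1 with h1 | h1 | h1 | h1 | h1 | h1
      · omega
      · omega
      · omega
      · omega
      · omega
      · omega
    · exfalso
      obtain ⟨h2, h3, h4, h5⟩ := h1
      clear h5 h3
      unfold FU at h4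
      rw [hdiv] at h4
      rcases h4 with h4 | h4 | h4 | h4 | h4 | h4
      · omega
      · omega
      · omega
      · omega
      · omega
      · omega
    · rw [hdiv]
      unfold FF3 at h1
      rw [hdiv] at h1
      rcases h1 with ⟨q1, q2, q3, q4, q5, q6⟩ | ⟨q1, q2, q3, q4, q5, q6, q7⟩ | ⟨q1, q2, q4, q5, q6, q7⟩ |
        ⟨q1, q2, q4, q5, q6, q7⟩
      · exact Or.inl ⟨by omega, q4, by omega, by omega⟩
      · exact Or.inr (Or.inl ⟨by omega, q4, by omega, by omega⟩)
      · exact Or.inr (Or.inr (Or.inl ⟨by omega, q4, by omega, by omega⟩))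
      · exact Or.inr (Or.inr (Or.inr ⟨by omega, q4, by omega, by omega⟩))
    · exfalso
      rcases h1 with h1 | h1 | h1 | h1
      · omega
      · omega
      · omega
      · omega
  · intro h1
    refine Or.inr (Or.inr (Or.inl ?_))
    rw [hdiv] at h1
    have hFT : FT a (b - a) d := by
      unfold FT
      right
      omega
    unfold FF3
    rw [hdiv]
    rcases h1 with ⟨q1, q2, q3, q4⟩ | ⟨q1, q2, q3, q4⟩ | ⟨q1, q2, q3, q4⟩ | ⟨q1, q2, q3, q4⟩
    · exact Or.inl ⟨ha, by omega, Or.inl (by omega), q2, by omega, by omega⟩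
    · exact Or.inr (Or.inl ⟨ha, by omega, Or.inl (by omega), q2, by omega, hFT, by omega⟩)
    · exact Or.inr (Or.inr (Or.inl ⟨ha, by omega, q2, by omega, hFT, by omega⟩))
    · exact Or.inr (Or.inr (Or.inr ⟨ha, by omega, q2, by omega, by omega, by omega⟩))

theorem FF_near_odd {a b d e : ℕ} (ha : a % 2 = 1) (hn : d + a + 12 ≤ b) : ¬ FF a b d e := by
  obtain ⟨h, r, hr, hah⟩ : ∃ h r : ℕ, r < 6 ∧ a = 6 * h + r :=
    ⟨a / 6, a % 6, Nat.mod_lt _ (by norm_num), by omega⟩
  have hdiv : a / 6 = h := by omega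
  rintro (h1 | h1 | h1 | h1)
  · rcases h1 with h1 | h1 | h1 | h1 | h1 | h1
    · omega
    · omega
    · omega
    · omega
    · omega
    · omega
  · obtain ⟨h2, h3, h4, h5⟩ := h1
    clear h5 h3
    unfold FU at h4
    rw [hdiv] at h4
    rcases h4 with h4 | h4 | h4 | h4 | h4 | h4
    · omega
    · omega
    · omega
    · omega
    · omega
    · omega
  · unfold FF3 at h1
    rcases h1 with h1 | h1 | h1 | h1
    · omega
    · exact absurd h1.1 (by omega)
    · exact absurd h1.1 (by omega)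
    · omega
  · rcases h1 with h1 | h1 | h1 | h1
    · omega
    · omega
    · omega
    · omega

/-- The static field of an even layer in the near zone. -/
def NF (h c x y : ℕ) : Prop :=
  (c % 2 = 0 ∧ (x + y) % 2 = 1 ∧ max x y < min x y + 2 * h ∧ (c + 2 * max x y) % 4 = 0) ∨
  (c % 2 = 0 ∧ (x + y) % 2 = 1 ∧ 2 * h + min x y ≤ max x y + 1 ∧ (c + x + y) % 4 = (1 + 2 * h) % 4) ∨
  (c % 2 = 1 ∧ (x + y) % 2 = 0 ∧ 2 * h + min x y ≤ max x y ∧ (c + x + y) % 4 = (1 + 2 * h) % 4) ∨
  (c % 2 = 1 ∧ x = y ∧ 1 ≤ h ∧ (c + x + y) % 4 = 3)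

theorem NF_swap (h c x y : ℕ) : NF h c x y ↔ NF h c y x := by
  unfold NF
  rw [max_comm x y, min_comm x y, add_comm x y]
  have e1 : c + x + y = c + y + x := by ring
  rw [e1]
  have e2 : x = y ↔ y = x := eq_comm
  rw [e2]

theorem NFd_iff {h c x y : ℕ} (hxy : y ≤ x) : NFd h c (x - y) (x % 2) ↔ NF h c x y := by
  obtain ⟨d, rfl⟩ := Nat.exists_eq_add_of_le hxy
  unfold NFd NF
  rw [max_eq_left hxy, min_eq_right hxy]
  have e1 : y + d - y = d := by omega
  rw [e1]
  refine or_congr ?_ (or_congr ?_ (or_congr ?_ ?_))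
  · constructor
    · rintro ⟨q1, q2, q3, q4⟩
      exact ⟨q1, by omega, by omega, by omega⟩
    · rintro ⟨q1, q2, q3, q4⟩
      exact ⟨q1, by omega, by omega, by omega⟩
  · constructor
    · rintro ⟨q1, q2, q3, q4⟩
      exact ⟨q1, by omega, by omega, by omega⟩
    · rintro ⟨q1, q2, q3, q4⟩
      exact ⟨q1, by omega, by omega, by omega⟩
  · constructor
    · rintro ⟨q1, q2, q3, q4⟩
      exact ⟨q1, by omega, by omega, by omega⟩
    · rintro ⟨q1, q2, q3, q4⟩
      exact ⟨q1, by omega, by omega, by omega⟩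
  · constructor
    · rintro ⟨q1, q2, q3, q4⟩
      exact ⟨q1, by omega, by omega, by omega⟩
    · rintro ⟨q1, q2, q3, q4⟩
      exact ⟨q1, by omega, by omega, by omega⟩

theorem Fst_swap (a b x y : ℕ) : Fst a b x y ↔ Fst a b y x := by
  unfold Fst
  rw [max_comm x y, min_comm x y]

theorem Fst_near {a b x y : ℕ} (ha : a % 2 = 0) (hn : max x y + a + 12 ≤ b + min x y) :
    Fst a b x y ↔ NF (a / 6) ((a + b) % 4) x y := by
  rcases le_total y x with h | h
  · rw [← NFd_iff h]
    unfold Fst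
    rw [max_eq_left h, min_eq_right h] at hn ⊢
    rw [min_eq_left (by omega), max_eq_right (by omega)]
    exact FF_near ha (by omega)
  · rw [NF_swap, ← NFd_iff h]
    unfold Fst
    rw [max_eq_right h, min_eq_left h] at hn ⊢
    rw [min_eq_left (by omega), max_eq_right (by omega)]
    exact FF_near ha (by omega)

theorem Fst_near_odd {a b x y : ℕ} (ha : a % 2 = 1) (hn : max x y + a + 12 ≤ b + min x y) :
    ¬ Fst a b x y := by
  unfold Fst
  have h1 : min x y ≤ max x y := min_le_max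
  rw [min_eq_left (show a ≤ b by omega), max_eq_right (show a ≤ b by omega)]
  exact FF_near_odd ha (by omega)

end Pool.Agent.SNT
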