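import Pool.Agent.SNT.K0Cert
import Pool.Agent.SNT.Near
import Pool.Agent.SNT.Mid

set_option autoImplicit false

/-! Near the wall the in-lines `n` and `n - 1` of a narrow leader are not both missing. -/

namespace Pool.Agent.SNT.Mid

open Pool.Agent.SNT Pool.Agent.SNT.Sig

variable {f : ℕ → ℕ → ℕ → ℕ → Prop}

/-- the exterior of an OUT row -/
theorem ext_out {a b K x y : ℕ} (C : Cyc f a b K) (ha : a % 2 = 0) (hb : b % 2 = 0)
    (h4 : (a + b) % 4 = 2) (hn : x + a + 12 ≤ b + 2 + y) (hyx : y ≤ x)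
    (hd : y + 2 * (a / 6) ≤ x) (hK : K + 4 < x) (h1 : (x + y) % 2 = 1)
    (h2 : (x + y) % 4 = (1 + 2 * (a / 6)) % 4) : f a (b + 2) x y := by
  rw [C.r2x x y (by rw [max_eq_left hyx, min_eq_right hyx]; exact hd)
    (by rw [max_eq_left hyx]; exact hK)]
  rw [Fst_near ha (by rw [max_eq_left hyx, min_eq_right hyx]; omega)]
  unfold NF
  rw [max_eq_left hyx, min_eq_right hyx]
  generalize a / 6 = h at *
  omega

/-- the exterior of the row after an OUT row -/
theorem ext_out1 {a b K x y : ℕ} (C : Cyc f a b K) (ha : a % 2 = 0) (hb : b % 2 = 0)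
    (h4 : (a + b) % 4 = 2) (hn : x + a + 12 ≤ b + 3 + y) (hyx : y ≤ x)
    (hd : y + 2 * (a / 6) ≤ x) (hK : K + cc a + 2 < x) (h1 : (x + y) % 2 = 0)
    (h2 : (1 + x + y) % 4 = (1 + 2 * (a / 6)) % 4) : f a (b + 3) x y := by
  rw [C.r3 x y (by rw [max_eq_left hyx]; exact hK)]
  rw [Fst_near ha (by rw [max_eq_left hyx, min_eq_right hyx]; omega)]
  unfold NF
  rw [max_eq_left hyx, min_eq_right hyx]
  generalize a / 6 = h at *
  omega

/-- **K0.** -/
theorem k0 (hf : Rule f) {k A b n : ℕ} (h : H f k A b n) (hA2 : A = 6 * k + 2 ∨ A = 6 * k + 4)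
    (hb2 : 2 * A + 60 ≤ b) (C4m : Cyc f (A + 4) (b - 4) (2 * (n - 2 * k) + 4))
    (ht : ¬ f A b (2 * n + 1) (2 * n)) : f A b (2 * n - 1) (2 * n - 2 * k + 4) := by
  by_contra hz
  have hline : f A b (2 * n + 1) (2 * n - 2 * k + 5) := by
    have hk := h.hk
    have hn := h.hn
    exact (h.line hf ht (y := 2 * n - 2 * k + 5) (by omega) (by omega)).2 (by omega)
  obtain ⟨hk, hA, hAk, hb, h4, hAb, hn, c0, c0m, c2m, c2, c4, c4s⟩ := h
  have e4 : (A + 4) / 6 = k + 1 := by omega
  have e2 : k ≤ (A + 2) / 6 := by omega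
  have ecc : cc (A + 4) = 2 * (k + 1) := by
    unfold cc
    rw [e4]
    omega
  -- the row `b - 2` of `A`
  have O : ∀ x y : ℕ, y ≤ x → x + 1 ≤ y + 2 * k → 2 * (n - k - 2) + 4 ≤ y → x % 2 = 0 →
      y % 2 = 1 → f A (b - 2) x y := by
    intro x y h1 h2 h3 h5 h6
    have := (out_iff c0m hA (by omega) (by omega) (by omega) h1 (by rw [hAk]; exact h2)
      (by omega)).2 ⟨h5, h6⟩
    rwa [show b - 4 + 2 = b - 2 by omega] at this
  have E : ∀ x y : ℕ, y + 2 * k ≤ x → x ≤ y + 2 * k + 6 → 2 * (n - k - 2) + 6 < x →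
      (x + y) % 2 = 1 → (x + y) % 4 = (1 + 2 * k) % 4 → f A (b - 2) x y := by
    intro x y h1 h2 h3 h5 h6
    have := ext_out (x := x) (y := y) c0m hA (by omega) (by omega) (by omega) (by omega)
      (by rw [hAk]; exact h1) (by omega) h5 (by rw [hAk]; exact h6)
    rwa [show b - 4 + 2 = b - 2 by omega] at this
  have I2 : ∀ x y : ℕ, y ≤ x → x + 1 ≤ y + 2 * k → 2 * (n - k) + 3 ≤ x → x % 2 = 1 →
      y % 2 = 0 → f (A + 2) (b - 2) x y := by
    intro x y h1 h2 h3 h5 h6
    exact (in_iff c2m (by omega) (by omega) (by omega) (by omega) h1 (by omega)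
      (by omega)).2 ⟨h5, h6⟩
  have I4 : ∀ x y : ℕ, y ≤ x → x + 1 ≤ y + 2 * (k + 1) → 2 * (n + 2 - k) + 5 ≤ x → x % 2 = 1 →
      y % 2 = 0 → f (A + 4) b x y := by
    intro x y h1 h2 h3 h5 h6
    exact (in_iff c4 (by omega) (by omega) (by omega) (by omega) h1 (by omega)
      (by omega)).2 ⟨h5, h6⟩
  have E4 : ∀ x y : ℕ, y + 2 * (k + 1) ≤ x → x ≤ y + 2 * k + 6 → 2 * n - 2 * k + 8 < x →
      (x + y) % 2 = 0 → (1 + x + y) % 4 = (1 + 2 * (k + 1)) % 4 → f (A + 4) (b - 1) x y := by
    intro x y h1 h2 h3 h5 h6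
    have := ext_out1 (x := x) (y := y) C4m (by omega) (by omega) (by omega) (by omega) (by omega)
      (by rw [e4]; exact h1) (by rw [ecc]; omega) h5 (by rw [e4]; exact h6)
    rwa [show b - 4 + 3 = b - 1 by omega] at this
  obtain ⟨m, rfl⟩ : ∃ m, n = m + 2 * k := ⟨n - 2 * k, by omega⟩
  obtain ⟨B, rfl⟩ : ∃ B, b = B + 2 := ⟨b - 2, by omega⟩
  have hB : B + 2 - 2 = B := by omega
  have hB1 : B + 2 - 1 = B + 1 := by omega
  rw [hB] at O E I2
  rw [hB1] at E4
  refine Loc.k0_cert hf (A := A) (r := B) (x := 2 * m + 4 * k - 4) (y := 2 * m + 2 * k - 2) hA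
    (by omega) (by omega) (by omega) (by omega) (by omega) (by omega)
    (O _ _ (by omega) (by omega) (by omega) (by omega) (by omega))
    (E _ _ (by omega) (by omega) (by omega) (by omega) (by omega))
    (E _ _ (by omega) (by omega) (by omega) (by omega) (by omega))
    (O _ _ (by omega) (by omega) (by omega) (by omega) (by omega))
    (I2 _ _ (by omega) (by omega) (by omega) (by omega) (by omega))
    (I2 _ _ (by omega) (by omega) (by omega) (by omega) (by omega))
    (I2 _ _ (by omega) (by omega) (by omega) (by omega) (by omega))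
    (I2 _ _ (by omega) (by omega) (by omega) (by omega) (by omega))
    (I2 _ _ (by omega) (by omega) (by omega) (by omega) (by omega))
    (I2 _ _ (by omega) (by omega) (by omega) (by omega) (by omega))
    (E4 _ _ (by omega) (by omega) (by omega) (by omega) (by omega))
    (E4 _ _ (by omega) (by omega) (by omega) (by omega) (by omega))
    (I4 _ _ (by omega) (by omega) (by omega) (by omega) (by omega))
    (I4 _ _ (by omega) (by omega) (by omega) (by omega) (by omega))
    (I4 _ _ (by omega) (by omega) (by omega) (by omega) (by omega))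
    (I4 _ _ (by omega) (by omega) (by omega) (by omega) (by omega))
    (I4 _ _ (by omega) (by omega) (by omega) (by omega) (by omega))
    (I4 _ _ (by omega) (by omega) (by omega) (by omega) (by omega))
    (I4 _ _ (by omega) (by omega) (by omega) (by omega) (by omega))
    (I4 _ _ (by omega) (by omega) (by omega) (by omega) (by omega))
    (I4 _ _ (by omega) (by omega) (by omega) (by omega) (by omega))
    (I4 _ _ (by omega) (by omega) (by omega) (by omega) (by omega))
    (I4 _ _ (by omega) (by omega) (by omega) (by omega) (by omega))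
    ?_ ?_
  · convert hz using 2 <;> omega
  · convert hline using 1 <;> omega

end Pool.Agent.SNT.Mid
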