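import Pool.Agent.SNT.WrapC
import Pool.Agent.SNT.WCert

set_option autoImplicit false

/-! W' : the missing in-line of the narrow leader sends a column signal near the wall. -/

namespace Pool.Agent.SNT.WNear

open Pool.Agent.SNT.Loc

variable {f : ℕ → ℕ → ℕ → ℕ → Prop}

theorem w2 (hf : Rule f) {k A b n : ℕ} (hk : 8 ≤ k) (hA : A = 6 * k + 2) (hb : b % 2 = 0)
    (h4 : (A + b) % 4 = 2) (hAb : 2 * A + 60 ≤ b) (hn : 4 * k + 40 ≤ n)
    (c0m4 : Cyc f A (b - 4) (2 * (n - k - 2) + 2))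
    (c0p0 : Cyc f A b (2 * n + 2))
    (c2m2 : Cyc f (A + 2) (b - 2) (2 * (n - k) + 2))
    (c4p0 : Cyc f (A + 4) b (2 * (n + 2 - k) + 2))
    (c6p2 : Cyc f (A + 6) (b + 2) (2 * (n + 4 - k) + 4))
    (c8p4 : Cyc f (A + 8) (b + 4) (2 * (n + 6 - k) + 4))
    (hl : ∀ y : ℕ, 2 * n + 4 ≤ y + 2 * k → y ≤ 2 * n → (f A b (2 * n + 1) y ↔ y % 2 = 1))
    (hP10 : ∀ x y q : ℕ, q ≤ 1 → 2 * n + 4 ≤ y + 2 * k → y + 1 ≤ x → x + 2 ≤ y + 2 * k →
      ¬ f (A + 1) (b - q) x y)
    (hP12 : ∀ x y q : ℕ, q ≤ 1 → 2 * n + 8 ≤ y + 2 * k → y + 2 ≤ x → x + 3 ≤ y + 2 * k →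
      ¬ f (A + 1) (b + 2 - q) x y)
    (hP32 : ∀ x y q : ℕ, q ≤ 1 → 2 * n + 8 ≤ y + 2 * k → y + 1 ≤ x → x + 2 ≤ y + 2 * k →
      ¬ f (A + 3) (b + 2 - q) x y) : f A (b + 2) (2 * n + 3) (2 * n - 2 * k + 8) := by
  by_contra hgoal
  have hl' : ∀ M R x y : ℕ, M = A → R = b → x = 2 * n + 1 → 2 * n + 4 ≤ y + 2 * k → y ≤ 2 * n →
      (f M R x y ↔ y % 2 = 1) := by
    intro M R x y e1 e2 e3 h1 h2
    rw [e1, e2, e3]
    exact hl y h1 h2
  have hP10' : ∀ M R x y : ℕ, M = A + 1 → (R = b ∨ R + 1 = b) → 2 * n + 4 ≤ y + 2 * k →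
      y + 1 ≤ x → x + 2 ≤ y + 2 * k → ¬ f M R x y := by
    intro M R x y e1 e2 h1 h2 h3
    obtain ⟨q, hq, e3⟩ : ∃ q : ℕ, q ≤ 1 ∧ R = b - q := by
      rcases e2 with e2 | e2
      · exact ⟨0, by omega, by omega⟩
      · exact ⟨1, by omega, by omega⟩
    rw [e1, e3]
    exact hP10 x y q hq h1 h2 h3
  have hP12' : ∀ M R x y : ℕ, M = A + 1 → (R = b + 2 ∨ R = b + 1) → 2 * n + 8 ≤ y + 2 * k →
      y + 2 ≤ x → x + 3 ≤ y + 2 * k → ¬ f M R x y := by
    intro M R x y e1 e2 h1 h2 h3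
    obtain ⟨q, hq, e3⟩ : ∃ q : ℕ, q ≤ 1 ∧ R = b + 2 - q := by
      rcases e2 with e2 | e2
      · exact ⟨0, by omega, by omega⟩
      · exact ⟨1, by omega, by omega⟩
    rw [e1, e3]
    exact hP12 x y q hq h1 h2 h3
  have hP32' : ∀ M R x y : ℕ, M = A + 3 → (R = b + 2 ∨ R = b + 1) → 2 * n + 8 ≤ y + 2 * k →
      y + 1 ≤ x → x + 2 ≤ y + 2 * k → ¬ f M R x y := by
    intro M R x y e1 e2 h1 h2 h3
    obtain ⟨q, hq, e3⟩ : ∃ q : ℕ, q ≤ 1 ∧ R = b + 2 - q := by
      rcases e2 with e2 | e2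
      · exact ⟨0, by omega, by omega⟩
      · exact ⟨1, by omega, by omega⟩
    rw [e1, e3]
    exact hP32 x y q hq h1 h2 h3
  have hg' : ∀ M R x y : ℕ, M = A → R = b + 2 → x = 2 * n + 3 → y = 2 * n - 2 * k + 8 →
      ¬ f M R x y := by
    intro M R x y e1 e2 e3 e4
    rw [e1, e2, e3, e4]
    exact hgoal
  clear hl hP10 hP12 hP32 hgoal
  obtain ⟨a0, ha0⟩ : ∃ a0, a0 + 1 = A := ⟨A - 1, by omega⟩
  obtain ⟨b0, hb0⟩ : ∃ b0, b0 + 3 = b := ⟨b - 3, by omega⟩
  obtain ⟨x0, hx0⟩ : ∃ x0, x0 + 2 = 2 * n := ⟨2 * n - 2, by omega⟩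
  obtain ⟨y0, hy0⟩ : ∃ y0, y0 + 2 * k + 3 = 2 * n := ⟨2 * n - 2 * k - 3, by omega⟩
  refine w2_win hf (a0 := a0) (b0 := b0) (x0 := x0) (y0 := y0) (by omega) (by omega) (by omega)
    (by omega) ?_ ?_
  · intro j m p q hr h
    obtain ⟨-, -, -, -, hp1, hp2, hq1, hq2⟩ := hr
    unfold w2T at h
    simp only [Bool.or_eq_true, decide_eq_true_eq] at h
    rcases h with h | h | h | h | h | h | h | h | h | h | h | h | h | h
    · obtain ⟨rfl, rfl, h⟩ := h
      exact (WrapC.v2 c0m4 (by omega) (by omega) (by omega) (by omega) (by omega) (by omega) (by omega)).mpr (by omega)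
    · obtain ⟨rfl, rfl, h⟩ := h
      exact (WrapC.v3 c0m4 (by omega) (by omega) (by omega) (by omega) (by omega) (by omega) (by omega) (by omega)).mpr (by omega)
    · obtain ⟨rfl, rfl, h⟩ := h
      exact (WrapC.v0 c0p0 (by omega) (by omega) (by omega) (by omega) (by omega) (by omega) (by omega)).mpr (by omega)
    · obtain ⟨rfl, rfl, h⟩ := h
      exact (WrapC.v0 c2m2 (by omega) (by omega) (by omega) (by omega) (by omega) (by omega) (by omega)).mpr (by omega)
    · obtain ⟨rfl, rfl, h⟩ := h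
      exact (WrapC.v1 c2m2 (by omega) (by omega) (by omega) (by omega) (by omega) (by omega) (by omega) (by omega)).mpr (by omega)
    · obtain ⟨rfl, rfl, h⟩ := h
      exact (WrapC.v2 c2m2 (by omega) (by omega) (by omega) (by omega) (by omega) (by omega) (by omega)).mpr (by omega)
    · obtain ⟨rfl, rfl, h⟩ := h
      exact (WrapC.v3 c2m2 (by omega) (by omega) (by omega) (by omega) (by omega) (by omega) (by omega) (by omega)).mpr (by omega)
    · obtain ⟨rfl, rfl, h⟩ := h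
      exact (WrapC.v0 c4p0 (by omega) (by omega) (by omega) (by omega) (by omega) (by omega) (by omega)).mpr (by omega)
    · obtain ⟨rfl, rfl, h⟩ := h
      exact (WrapC.v1 c4p0 (by omega) (by omega) (by omega) (by omega) (by omega) (by omega) (by omega) (by omega)).mpr (by omega)
    · obtain ⟨rfl, rfl, h⟩ := h
      exact (WrapC.v2 c4p0 (by omega) (by omega) (by omega) (by omega) (by omega) (by omega) (by omega)).mpr (by omega)
    · obtain ⟨rfl, rfl, h⟩ := h
      exact (WrapC.v0 c6p2 (by omega) (by omega) (by omega) (by omega) (by omega) (by omega) (by omega)).mpr (by omega)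
    · obtain ⟨rfl, rfl, h⟩ := h
      exact (WrapC.v1 c6p2 (by omega) (by omega) (by omega) (by omega) (by omega) (by omega) (by omega) (by omega)).mpr (by omega)
    · obtain ⟨rfl, rfl, h⟩ := h
      exact (WrapC.v2 c6p2 (by omega) (by omega) (by omega) (by omega) (by omega) (by omega) (by omega)).mpr (by omega)
    · obtain ⟨rfl, rfl, h⟩ := h
      exact (WrapC.v0 c8p4 (by omega) (by omega) (by omega) (by omega) (by omega) (by omega) (by omega)).mpr (by omega)
  · intro j m p q hr h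
    obtain ⟨-, -, -, -, hp1, hp2, hq1, hq2⟩ := hr
    unfold w2F at h
    simp only [Bool.or_eq_true, decide_eq_true_eq] at h
    rcases h with h | h | h | h | h | h | h | h | h | h | h | h | h | h | h | h | h | h | h
    · obtain ⟨rfl, rfl, h⟩ := h
      exact mt (WrapC.v2 c0m4 (by omega) (by omega) (by omega) (by omega) (by omega) (by omega) (by omega)).mp (by omega)
    · obtain ⟨rfl, rfl, h⟩ := h
      exact mt (WrapC.v3 c0m4 (by omega) (by omega) (by omega) (by omega) (by omega) (by omega) (by omega) (by omega)).mp (by omega)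
    · obtain ⟨rfl, rfl, h⟩ := h
      exact mt (WrapC.v0 c0p0 (by omega) (by omega) (by omega) (by omega) (by omega) (by omega) (by omega)).mp (by omega)
    · obtain ⟨rfl, rfl, h⟩ := h
      exact mt (WrapC.v1 c0p0 (by omega) (by omega) (by omega) (by omega) (by omega) (by omega) (by omega) (by omega)).mp (by omega)
    · obtain ⟨rfl, rfl, h⟩ := h
      exact mt (WrapC.v1 c2m2 (by omega) (by omega) (by omega) (by omega) (by omega) (by omega) (by omega) (by omega)).mp (by omega)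
    · obtain ⟨rfl, rfl, h⟩ := h
      exact mt (WrapC.v2 c2m2 (by omega) (by omega) (by omega) (by omega) (by omega) (by omega) (by omega)).mp (by omega)
    · obtain ⟨rfl, rfl, h⟩ := h
      exact mt (WrapC.v3 c2m2 (by omega) (by omega) (by omega) (by omega) (by omega) (by omega) (by omega) (by omega)).mp (by omega)
    · obtain ⟨rfl, rfl, h⟩ := h
      exact mt (WrapC.v1 c4p0 (by omega) (by omega) (by omega) (by omega) (by omega) (by omega) (by omega) (by omega)).mp (by omega)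
    · obtain ⟨rfl, rfl, h⟩ := h
      exact mt (WrapC.v2 c4p0 (by omega) (by omega) (by omega) (by omega) (by omega) (by omega) (by omega)).mp (by omega)
    · obtain ⟨rfl, rfl, h⟩ := h
      exact mt (WrapC.v1 c6p2 (by omega) (by omega) (by omega) (by omega) (by omega) (by omega) (by omega) (by omega)).mp (by omega)
    · obtain ⟨rfl, rfl, h⟩ := h
      exact mt (WrapC.v2 c6p2 (by omega) (by omega) (by omega) (by omega) (by omega) (by omega) (by omega)).mp (by omega)
    · obtain ⟨⟨rfl, rfl, rfl, h2, h3⟩, h4⟩ := h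
      exact mt (hl' _ _ _ _ (by omega) (by omega) (by omega) (by omega) (by omega)).mp (by omega)
    · obtain ⟨rfl, rfl, h2, h3, h4⟩ := h
      exact hP10' _ _ _ _ (by omega) (by omega) (by omega) (by omega) (by omega)
    · obtain ⟨rfl, rfl, h2, h3, h4⟩ := h
      exact hP10' _ _ _ _ (by omega) (by omega) (by omega) (by omega) (by omega)
    · obtain ⟨rfl, rfl, h2, h3, h4⟩ := h
      exact hP12' _ _ _ _ (by omega) (by omega) (by omega) (by omega) (by omega)
    · obtain ⟨rfl, rfl, h2, h3, h4⟩ := h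
      exact hP12' _ _ _ _ (by omega) (by omega) (by omega) (by omega) (by omega)
    · obtain ⟨rfl, rfl, h2, h3, h4⟩ := h
      exact hP32' _ _ _ _ (by omega) (by omega) (by omega) (by omega) (by omega)
    · obtain ⟨rfl, rfl, h2, h3, h4⟩ := h
      exact hP32' _ _ _ _ (by omega) (by omega) (by omega) (by omega) (by omega)
    · obtain ⟨rfl, rfl, rfl, rfl⟩ := h
      exact hg' _ _ _ _ (by omega) (by omega) (by omega) (by omega)

end Pool.Agent.SNT.WNear
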