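import Pool.Agent.SNT.NarrowCore
import Pool.Agent.SNT.K0
import Pool.Agent.SNT.W2
import Pool.Agent.SNT.W4
import Pool.Agent.SNT.DG55

set_option autoImplicit false

/-! The two narrow leaders `6 k + 2` and `6 k + 4`. -/

namespace Pool.Agent.SNT.Mid

open Pool.Agent.SNT Pool.Agent.SNT.Sig

variable {f : ℕ → ℕ → ℕ → ℕ → Prop} {k A b n : ℕ}

theorem H.certD (hf : Rule f) (h : H f k A b n) (ht : ¬ f A b (2 * n + 1) (2 * n)) :
    CertD f A b n := by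
  intro hl
  have hn := h.hn
  refine ⟨h.g3 hf ht ?_, h.g5 hf ht⟩
  exact (hl (2 * n - 2) (by omega) (by omega)).2 (by omega)

/-- The leader `6 k + 4`. -/
theorem narrow4 (hf : Rule f) (h : H f k A b n) (hA : A = 6 * k + 4) (hAb : 2 * A + 60 ≤ b)
    (hn : 4 * k + 40 ≤ n) (C4m : Cyc f (A + 4) (b - 4) (2 * (n - 2 * k) + 4))
    (C6 : Cyc f (A + 6) (b + 2) (2 * (n + 4 - k) + 4))
    (ht : ¬ f A b (2 * n + 1) (2 * n)) : False := by
  refine narrow_core hf h ht (k0 hf h (Or.inr hA) hAb C4m ht) (h.certD hf ht) ?_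
  refine WNear.w4 hf h.hk hA h.hb h.h4 hAb hn h.c0m h.c0 h.c2m h.c2 h.c4 C6 ?_ ?_ ?_ ?_
  · intro y h1 h2
    exact h.line hf ht h1 h2
  · intro x y q hq h1 h2 h3
    exact h.P1_0 hf hq h1 h2 h3
  · intro x y q hq h1 h2 h3
    exact h.P1_2 hf hq h1 h2 h3
  · intro x y q hq h1 h2 h3
    exact h.P3_2 hf hq h1 h2 h3

/-- The leader `6 k + 2`. -/
theorem narrow2 (hf : Rule f) (h : H f k A b n) (hA : A = 6 * k + 2) (hAb : 2 * A + 60 ≤ b)
    (hn : 4 * k + 40 ≤ n) (C4m : Cyc f (A + 4) (b - 4) (2 * (n - 2 * k) + 4))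
    (C4 : Cyc f (A + 4) b (2 * (n + 2 - k) + 2))
    (C6 : Cyc f (A + 6) (b + 2) (2 * (n + 4 - k) + 4))
    (C8 : Cyc f (A + 8) (b + 4) (2 * (n + 6 - k) + 4))
    (ht : ¬ f A b (2 * n + 1) (2 * n)) : False := by
  refine narrow_core hf h ht (k0 hf h (Or.inl hA) hAb C4m ht) (h.certD hf ht) ?_
  refine WNear.w2 hf h.hk hA h.hb h.h4 hAb hn h.c0m h.c0 h.c2m C4 C6 C8 ?_ ?_ ?_ ?_
  · intro y h1 h2
    exact h.line hf ht h1 h2
  · intro x y q hq h1 h2 h3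
    exact h.P1_0 hf hq h1 h2 h3
  · intro x y q hq h1 h2 h3
    exact h.P1_2 hf hq h1 h2 h3
  · intro x y q hq h1 h2 h3
    exact h.P3_2 hf hq h1 h2 h3

end Pool.Agent.SNT.Mid
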