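import Pool.Agent.SNT.Stack6
import Pool.Agent.SNT.NarrowLead

set_option autoImplicit false

/-! The leader statements `R2` and `R4` of the six-layer window. -/

namespace Pool.Agent.SNT

open Pool.Agent.SNT.LW Pool.Agent.SNT.Mid

/-- The full profile of a weak layer one line later, from two consecutive cycles. -/
theorem cyc_of_cw (f : ℕ → ℕ → ℕ → ℕ → Prop) (hf : Rule f) {a b b' n n' c K : ℕ} (ha : a % 2 = 0)
    (h12 : 12 ≤ a) (ph : (a + b) % 4 = 2) (big : 2 * a + 40 ≤ b) (C : Cw f a b n)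
    (C' : Cw f a b' n') (hb' : b' = b + 4) (hn : n' ≤ n + a / 6 + 2) (hc : c = b)
    (hK : K = 2 * (n + 1) + 2) : Cyc f a c K := by
  subst hb' hc hK
  exact C.to_cyc hf ha h12 ph big C' hn

/-- **The leader `6 k + 4`.** -/
theorem leadR4 {f : ℕ → ℕ → ℕ → ℕ → Prop} (hf : Rule f) {k : ℕ} : S6.LeadR4 f k := by
  intro b m hs S ht
  obtain ⟨hk, hb2, hb, hkb, hbm⟩ := hs
  have hkk : (k + 2) * 4 = (k + 2) * 3 + (k + 2) := by ring
  have hk3 : (k + 2) * 3 = (k + 2) * 2 + (k + 2) := by ring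
  have hk2 : (k + 2) * 2 = (k + 2) + (k + 2) := by ring
  have l4 := S.l4 4
  have l3 := S.l4 3
  have m4 := S.l6 4
  have m3 := S.l6 3
  have u2 := S.l8 2
  have u3 := S.l8 3
  have u4 := S.l8 4
  have v3 := S.l10 3
  have v4 := S.l10 4
  have e8 : (6 * k + 8) / 6 = k + 1 := by omega
  have e10 : (6 * k + 10) / 6 = k + 1 := by omega
  have C4 : Cyc f (6 * k + 4 + 4) (b + 16) (2 * (m + 3 + (k + 2) * 4 + 2 - k) + 4) :=
    cyc_of_cw f hf (by omega) (by omega) (by omega) (by omega) u3 u4 (by omega) (by omega)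
      (by omega) (by omega)
  have C4m : Cyc f (6 * k + 4 + 4) (b + 16 - 4) (2 * (m + 3 + (k + 2) * 4 - 2 * k) + 4) :=
    cyc_of_cw f hf (by omega) (by omega) (by omega) (by omega) u2 u3 (by omega) (by omega)
      (by omega) (by omega)
  have C6 : Cyc f (6 * k + 4 + 6) (b + 16 + 2) (2 * (m + 3 + (k + 2) * 4 + 4 - k) + 4) :=
    cyc_of_cw f hf (by omega) (by omega) (by omega) (by omega) v3 v4 (by omega) (by omega)
      (by omega) (by omega)
  have h : H f k (6 * k + 4) (b + 16) (m + 3 + (k + 2) * 4) := by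
    refine ⟨hk, by omega, by omega, by omega, by omega, by omega, by omega, ?_, ?_, ?_, ?_, C4,
      ?_⟩
    · convert l4 using 1
    · convert l3 using 1 <;> omega
    · convert m3 using 1 <;> omega
    · convert m4 using 1 <;> omega
    · intro x y h1 h2 h3
      exact u3.w2s x y h1 h2 (by omega)
  exact narrow4 hf h rfl (by omega) (by omega) C4m C6 ht

/-- **The leader `6 k + 2`.** -/
theorem leadR2 {f : ℕ → ℕ → ℕ → ℕ → Prop} (hf : Rule f) {k : ℕ} : S6.LeadR2 f k := by
  intro b m hs S ht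
  obtain ⟨hk, hb2, hb, hkb, hbm⟩ := hs
  have hk5 : (k + 2) * 5 = (k + 2) * 4 + (k + 2) := by ring
  have hkk : (k + 2) * 4 = (k + 2) * 3 + (k + 2) := by ring
  have hk3 : (k + 2) * 3 = (k + 2) * 2 + (k + 2) := by ring
  have hk2 : (k + 2) * 2 = (k + 2) + (k + 2) := by ring
  have l4 := S.l2 4
  have l3 := S.l2 3
  have m4 := S.l4 4
  have m5 := S.l4 5
  have u3 := S.l6 3
  have u4 := S.l6 4
  have v4 := S.l8 4
  have v5 := S.l8 5
  have w4 := S.l10 4
  have w5 := S.l10 5
  have e6 : (6 * k + 2 + 4) / 6 = k + 1 := by omega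
  have e8 : (6 * k + 8) / 6 = k + 1 := by omega
  have e10 : (6 * k + 10) / 6 = k + 1 := by omega
  have C4 : Cyc f (6 * k + 2 + 4) (b + 18) (2 * (m + k + 3 + (k + 2) * 4 + 2 - k) + 2) := by
    convert u4 using 1 <;> omega
  have C4m' : Cyc f (6 * k + 2 + 4) (b + 18 - 4) (2 * (m + k + 3 + (k + 2) * 4 - 2 * k) + 2) := by
    convert u3 using 1 <;> omega
  have C4m : Cyc f (6 * k + 2 + 4) (b + 18 - 4) (2 * (m + k + 3 + (k + 2) * 4 - 2 * k) + 4) :=
    WrapC.cyc_mono C4m' (by omega)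
  have C6 : Cyc f (6 * k + 2 + 6) (b + 18 + 2) (2 * (m + k + 3 + (k + 2) * 4 + 4 - k) + 4) :=
    cyc_of_cw f hf (by omega) (by omega) (by omega) (by omega) v4 v5 (by omega) (by omega)
      (by omega) (by omega)
  have C8 : Cyc f (6 * k + 2 + 8) (b + 18 + 4) (2 * (m + k + 3 + (k + 2) * 4 + 6 - k) + 4) :=
    cyc_of_cw f hf (by omega) (by omega) (by omega) (by omega) w4 w5 (by omega) (by omega)
      (by omega) (by omega)
  have h : H f k (6 * k + 2) (b + 18) (m + k + 3 + (k + 2) * 4) := by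
    refine ⟨hk, by omega, by omega, by omega, by omega, by omega, by omega, ?_, ?_, ?_, ?_,
      WrapC.cyc_mono C4 (by omega), ?_⟩
    · convert l4 using 1 <;> omega
    · convert l3 using 1 <;> omega
    · convert m4 using 1 <;> omega
    · convert m5 using 1 <;> omega
    · intro x y h1 h2 h3
      exact C4.r2s x y (by rw [max_eq_left h1, min_eq_right h1]; exact h2)
        (by rw [min_eq_right h1]; omega)
  exact narrow2 hf h rfl (by omega) (by omega) C4m C4 C6 C8 ht

end Pool.Agent.SNT
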