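import Pool.Agent.SNT.Adapt6
import Pool.Agent.SNT.LR0
import Pool.Agent.SNT.LeadR24
import Pool.Agent.SNT.LW4
import Pool.Agent.SNT.L24

set_option autoImplicit false

/-! The finished leader statements `R0`, `R2`, `R4`, `R6` and `R8` under their final names
(`L2` and `L4` are in `L24`). -/

namespace Pool.Agent.SNT

namespace S6

variable {f : ℕ → ℕ → ℕ → ℕ → Prop}

theorem R0 (hf : Rule f) {k : ℕ} (_hk : 8 ≤ k) : LeadR0 f k :=
  fun _ _ hs S ht => lead0 hf hs S.to_stack ht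

theorem R2 (hf : Rule f) {k : ℕ} (_hk : 8 ≤ k) : LeadR2 f k := leadR2 hf

theorem R4 (hf : Rule f) {k : ℕ} (_hk : 8 ≤ k) : LeadR4 f k := leadR4 hf

theorem R6 (hf : Rule f) {k : ℕ} (_hk : 8 ≤ k) : LeadR6 f k := LW.leadR6 hf

theorem R8 (hf : Rule f) {k : ℕ} (_hk : 8 ≤ k) : LeadR8 f k := LW.leadR8 hf

/-- The remaining four statements give all of them. -/
theorem all_of_four (hf : Rule f) {k : ℕ} (hk : 8 ≤ k) (r10 : LeadR10 f k) (l6 : LocR6 f k)
    (l8 : LocR8 f k) (l10 : LocR10 f k) : All f k where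
  R0 := R0 hf hk
  R2 := R2 hf hk
  R4 := R4 hf hk
  R6 := R6 hf hk
  R8 := R8 hf hk
  R10 := r10
  L2 := L2 hf hk
  L4 := L4 hf hk
  L6 := l6
  L8 := l8
  L10 := l10

end S6

end Pool.Agent.SNT
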