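import Pool.Agent.SNT.StackAB
import Pool.Agent.SNT.Adapt6
import Pool.Agent.SNT.W6

set_option autoImplicit false

/-! The adapter with the windows of all later cycles and of `3 k + 30` earlier ones: the four open
statements (`L6`, `L8`, `R10`, `L10`) may use `StackB`: the windows `Stack6` over all the bases
`b + 4 j`, `j ≥ -(3 k + 30)`. -/

namespace Pool.Agent.SNT

open Pool.Agent.SNT.LW

variable {f : ℕ → ℕ → ℕ → ℕ → Prop}

/-- The premise of the leader `6 k + 2 i` over a longer window of earlier rows. -/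
def PremB (f : ℕ → ℕ → ℕ → ℕ → Prop) (k i : ℕ) : Prop :=
  ∀ J : ℤ, ∃ B : ℕ, ∀ b0 : ℕ, B ≤ b0 →
    (∀ j : ℕ, j ≤ 5 → ∀ b : ℕ, b0 ≤ b + (24 * k + 420) → PfM k f j b (if j < i then J - 1 else J)) →
    PfM k f i b0 (J - 1)

theorem PremB.of_prem {k i : ℕ} (P : Prem f k i) : PremB f k i := by
  intro J
  obtain ⟨B, hB⟩ := P J
  exact ⟨B, fun b0 hb0 h => hB b0 hb0 fun j hj b hb => h j hj b (by omega)⟩

/-- The induction step from the six premises over longer windows. -/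
theorem step_of_premB (hf : Rule f) {k : ℕ} (hk : 8 ≤ k) (P : ∀ i : ℕ, i ≤ 5 → PremB f k i)
    (h : SK f k) : SK f (k + 1) := by
  by_contra hno
  obtain ⟨A, O, H⟩ := exists_profRec (Finset.range 6) (fun i b J => PfM k f i b J)
    (fun a b J J' hJ H => H.mono hJ)
    (by
      intro i hi
      obtain ⟨J, B, hB⟩ := up_of_not_SK hf (by omega) hno i
        (by have := Finset.mem_range.1 hi; omega)
      exact ⟨J, B, fun b hb => PfM.of_pf (by omega) (hB b hb)⟩)
    (by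
      obtain ⟨i, hi, J, hJ⟩ := low_of_SK (by omega) h
      refine ⟨i, Finset.mem_range.2 (by omega), J, fun B => ?_⟩
      obtain ⟨b, hb, hn⟩ := hJ B
      refine ⟨b, hb, ?_⟩
      simp only [PfM]
      rw [if_pos (by omega : i ≤ 3)]
      exact hn)
  have hA : A ≤ 5 := by
    have := Finset.mem_range.1 H.mem
    omega
  obtain ⟨B1, h1⟩ := H.all
  obtain ⟨B2, h2⟩ := H.low
  obtain ⟨B, hB⟩ := P A hA O
  obtain ⟨b, hb, hn⟩ := H.hit (B + B1 + B2 + (24 * k + 420))
  refine hn (hB b (by omega) ?_)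
  intro j hj b' hb'
  have hjS : j ∈ Finset.range 6 := Finset.mem_range.2 (by omega)
  split_ifs with hjA
  · exact h2 j hjS hjA b' (by omega)
  · exact h1 j hjS b' (by omega)

namespace S6

theorem stackA_hyp {k i b m B : ℕ} {J : ℤ} (hB : ∀ b : ℕ, B ≤ b → Dat f k J b) (hbB : B ≤ b)
    (H : Hyp f k i J b) (hb2 : b % 2 = 0) (hb : (6 * k + b) % 4 = 2)
    (hm : (m : ℤ) + k = nuLead k (6 * k) b + (J - 1)) :
    StackA f k b m (if 0 < i then 0 else 1) (if 1 < i then 0 else 1) (if 2 < i then 0 else 1)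
      (if 3 < i then 0 else 1) (if 4 < i then 0 else 1) (if 5 < i then 0 else 1) := by
  intro j
  obtain ⟨m', hs, hm', hlw, hfr⟩ := hB (b + 4 * j) (by omega) (by omega) (by omega)
  have e := nuLead_iter (k := k) (a := 6 * k) (b := b) (by omega) (by omega) j
  have e' : m' = m + (k + 2) * j := by
    rw [e] at hm'
    have : (m' : ℤ) = m + (k + 2) * j := by linarith
    exact_mod_cast this
  subst e'
  exact ⟨hs, stack_hyp (H.mono (by omega)) (by omega) (by omega) hm' hlw hfr⟩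

theorem stackB_hyp {k i b B : ℕ} {J : ℤ} (hB : ∀ b : ℕ, B ≤ b → Dat f k J b) (hbB : B + (24 * k + 240) ≤ b)
    (H : Hyp f k i J (b - (24 * k + 240))) (hb2 : b % 2 = 0) (hb : (6 * k + b) % 4 = 2) :
    ∃ m : ℕ, (m : ℤ) + k = nuLead k (6 * k) b + (J - 1) ∧
      StackB f k b m (if 0 < i then 0 else 1) (if 1 < i then 0 else 1) (if 2 < i then 0 else 1)
        (if 3 < i then 0 else 1) (if 4 < i then 0 else 1) (if 5 < i then 0 else 1) := by
  obtain ⟨b0, rfl⟩ : ∃ b0, b = b0 + 4 * (6 * k + 60) := ⟨b - (24 * k + 240), by omega⟩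
  obtain ⟨m0, hs, hm, hlw, hfr⟩ := hB b0 (by omega) (by omega) (by omega)
  refine ⟨m0 + (k + 2) * (6 * k + 60), ?_, b0, m0, rfl, rfl,
    stackA_hyp hB (by omega) (H.mono (by omega)) (by omega) (by omega) hm⟩
  rw [nuLead_iter (by omega) (by omega)]
  push_cast
  linarith

theorem hit6A {k : ℕ} {J : ℤ} {B b1 : ℕ} (R : LeadR6 f k) (L : LocR6A f k)
    (hB : ∀ b : ℕ, B ≤ b → Dat f k J b) (hb1 : B + (24 * k + 320) ≤ b1) (H : Hyp f k 3 J (b1 - (24 * k + 320)))
    (h2 : b1 % 2 = 0) (h3 : (6 * k + 6 + b1) % 4 = 2) (n : ℕ)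
    (hn : (n : ℤ) = nuLead k (6 * k + 6) b1 + (J - 1)) : Cy3 f (6 * k + 6) b1 (2 * n + 2) := by
  by_contra hno
  obtain ⟨b, rfl⟩ : ∃ b, b1 = b + 18 := ⟨b1 - 18, by omega⟩
  obtain ⟨m, hm, S⟩ : ∃ m : ℕ, (m : ℤ) + k = nuLead k (6 * k) b + (J - 1) ∧
      StackB f k b m 0 0 0 1 1 1 :=
    stackB_hyp (i := 3) hB (by omega) (H.mono (by omega)) (by omega) (by omega)
  have hn' : n + 1 = m + 5 + (k + 2) * 4 := by
    have e := nuLead_iter (k := k) (a := 6 * k + 6) (b := b + 2) (by omega) (by omega) 4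
    have e' : b + 2 + 4 * 4 = b + 18 := by ring
    have t := nuLead_six (k := k) (b := b) (by omega)
    rw [e', t] at e
    rw [e] at hn
    push_cast at hn
    have : (n : ℤ) + 1 = m + 5 + (k + 2) * 4 := by linarith
    exact_mod_cast this
  refine R b m S.side S.stack (L b m S ?_)
  rw [← hn']
  exact hno

theorem hit8A {k : ℕ} {J : ℤ} {B b1 : ℕ} (R : LeadR8 f k) (L : LocR8A f k)
    (hB : ∀ b : ℕ, B ≤ b → Dat f k J b) (hb1 : B + (24 * k + 320) ≤ b1) (H : Hyp f k 4 J (b1 - (24 * k + 320)))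
    (h2 : b1 % 2 = 0) (h3 : (6 * k + 8 + b1) % 4 = 2) (n : ℕ)
    (hn : (n : ℤ) = nuLead k (6 * k + 8) b1 + (J - 1)) : Cw f (6 * k + 8) b1 n := by
  by_contra hno
  obtain ⟨b, rfl⟩ : ∃ b, b1 = b + 20 := ⟨b1 - 20, by omega⟩
  obtain ⟨m, hm, S⟩ : ∃ m : ℕ, (m : ℤ) + k = nuLead k (6 * k) b + (J - 1) ∧
      StackB f k b m 0 0 0 0 1 1 :=
    stackB_hyp (i := 4) hB (by omega) (H.mono (by omega)) (by omega) (by omega)
  have hn' : n = m + 6 + (k + 2) * 4 := by
    have e := nuLead_iter (k := k) (a := 6 * k + 8) (b := b + 4) (by omega) (by omega) 4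
    have e' : b + 4 + 4 * 4 = b + 20 := by ring
    have t := nuLead_eight (k := k) (b := b) (by omega)
    rw [e', t] at e
    rw [e] at hn
    push_cast at hn
    have : (n : ℤ) = m + 6 + (k + 2) * 4 := by linarith
    exact_mod_cast this
  refine R b m S.side S.stack (L b m S ?_)
  rw [← hn']
  exact hno

theorem hit10A {k : ℕ} {J : ℤ} {B b1 : ℕ} (R : LeadR10A f k) (L : LocR10A f k)
    (hB : ∀ b : ℕ, B ≤ b → Dat f k J b) (hb1 : B + (24 * k + 320) ≤ b1) (H : Hyp f k 5 J (b1 - (24 * k + 320)))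
    (h2 : b1 % 2 = 0) (h3 : (6 * k + 10 + b1) % 4 = 2) (n : ℕ)
    (hn : (n : ℤ) = nuLead k (6 * k + 10) b1 + (J - 1)) : Cw f (6 * k + 10) b1 n := by
  by_contra hno
  obtain ⟨b, rfl⟩ : ∃ b, b1 = b + 22 := ⟨b1 - 22, by omega⟩
  obtain ⟨m, hm, S⟩ : ∃ m : ℕ, (m : ℤ) + k = nuLead k (6 * k) b + (J - 1) ∧
      StackB f k b m 0 0 0 0 0 1 :=
    stackB_hyp (i := 5) hB (by omega) (H.mono (by omega)) (by omega) (by omega)
  have hn' : n = m + 8 + (k + 2) * 4 := by
    have e := nuLead_iter (k := k) (a := 6 * k + 10) (b := b + 6) (by omega) (by omega) 4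
    have e' : b + 6 + 4 * 4 = b + 22 := by ring
    have t := nuLead_ten (k := k) (b := b) (by omega)
    rw [e', t] at e
    rw [e] at hn
    push_cast at hn
    have : (n : ℤ) = m + 8 + (k + 2) * 4 := by linarith
    exact_mod_cast this
  refine R b m S (L b m S ?_)
  rw [← hn']
  exact hno

theorem prem3A (hf : Rule f) {k : ℕ} (hk : 8 ≤ k) (R : LeadR6 f k) (L : LocR6A f k) :
    PremB f k 3 := by
  intro J
  obtain ⟨B, hB⟩ := exists_dat hf hk J
  refine ⟨B + (24 * k + 320), fun b0 hb0 h => ?_⟩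
  have H : Hyp f k 3 J (b0 - (24 * k + 320)) := fun j hj b hb => h j hj b (by omega)
  unfold PfM
  rw [if_pos (by omega)]
  have p := H.lo 3 (by omega) (b := b0) (by omega)
  rw [if_neg (by omega)] at p
  refine pf_pred p ?_
  intro h1 h2 h3 n hn
  have c0 := hit6A R L hB hb0 H h2 h3 n hn
  have p4 := H.lo 3 (by omega) (b := b0 + 4) (by omega)
  rw [if_neg (by omega)] at p4
  have c4 := p4 h1 (by omega) (by omega) (n + (k + 2) + 1) (by
    rw [nuLead_next h1 h3]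
    push_cast
    linarith)
  refine Cyc.of3 c0 ?_
  have hcc : cc (6 * k + 2 * 3) = 2 * k + 2 := by
    unfold cc
    omega
  rw [hcc]
  exact c4.r0.mono (by omega)

theorem prem4A (hf : Rule f) {k : ℕ} (hk : 8 ≤ k) (R : LeadR8 f k) (L : LocR8A f k) :
    PremB f k 4 := by
  intro J
  obtain ⟨B, hB⟩ := exists_dat hf hk J
  refine ⟨B + (24 * k + 320), fun b0 hb0 h => ?_⟩
  have H : Hyp f k 4 J (b0 - (24 * k + 320)) := fun j hj b hb => h j hj b (by omega)
  unfold PfM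
  rw [if_neg (by omega)]
  have p := H.hi 4 (by omega) (by omega) (b := b0) (by omega)
  rw [if_neg (by omega)] at p
  refine pw_pred p ?_
  intro h1 h2 h3 n hn
  exact hit8A R L hB hb0 H h2 h3 n hn

theorem prem5A (hf : Rule f) {k : ℕ} (hk : 8 ≤ k) (R : LeadR10A f k) (L : LocR10A f k) :
    PremB f k 5 := by
  intro J
  obtain ⟨B, hB⟩ := exists_dat hf hk J
  refine ⟨B + (24 * k + 320), fun b0 hb0 h => ?_⟩
  have H : Hyp f k 5 J (b0 - (24 * k + 320)) := fun j hj b hb => h j hj b (by omega)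
  unfold PfM
  rw [if_neg (by omega)]
  have p := H.hi 5 (by omega) (by omega) (b := b0) (by omega)
  rw [if_neg (by omega)] at p
  refine pw_pred p ?_
  intro h1 h2 h3 n hn
  exact hit10A R L hB hb0 H h2 h3 n hn

/-- The four open statements of one field and one `k`. -/
structure AllA (f : ℕ → ℕ → ℕ → ℕ → Prop) (k : ℕ) : Prop where
  R10 : LeadR10A f k
  L6 : LocR6A f k
  L8 : LocR8A f k
  L10 : LocR10A f k

theorem prem_of_allA (hf : Rule f) {k : ℕ} (hk : 8 ≤ k) (H : AllA f k) :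
    ∀ i : ℕ, i ≤ 5 → PremB f k i := by
  intro i hi
  have h : i = 0 ∨ i = 1 ∨ i = 2 ∨ i = 3 ∨ i = 4 ∨ i = 5 := by omega
  rcases h with rfl | rfl | rfl | rfl | rfl | rfl
  · exact .of_prem (prem0 hf hk (R0 hf hk))
  · exact .of_prem (prem1 hf hk (R2 hf hk) (L2 hf hk))
  · exact .of_prem (prem2 hf hk (R4 hf hk) (L4 hf hk))
  · exact prem3A hf hk (R6 hf hk) H.L6
  · exact prem4A hf hk (R8 hf hk) H.L8
  · exact prem5A hf hk H.R10 H.L10

/-- THE FROZEN STATEMENT from the four open statements. -/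
theorem final_of_allA
    (h : ∀ f : ℕ → ℕ → ℕ → ℕ → Prop, Rule f → ∀ k : ℕ, 8 ≤ k → AllA f k) :
    ¬ (∀ n k : ℕ, 1 ≤ k →
      ∀ P : Set (Fin n → ℕ),
        (∀ x : Fin n → ℕ, x ∈ P ↔
          ∀ S : Finset (Fin n), S.card = k → (∀ i ∈ S, 1 ≤ x i) →
            (fun i => if i ∈ S then x i - 1 else x i) ∉ P) →
        ∃ m r : ℕ, ∃ base : Fin m → Fin n → ℕ, ∃ per : Fin m → Fin r → Fin n → ℕ,
          ∀ x : Fin n → ℕ, x ∈ P ↔
            ∃ i : Fin m, ∃ c : Fin r → ℕ, x = base i + ∑ j, c j • per i j) :=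
  final_of_step fun f hf _ hk => step_of_premB hf hk (prem_of_allA hf hk (h f hf _ hk))

end S6

end Pool.Agent.SNT
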