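import Pool.Agent.SNT.Thr

set_option autoImplicit false

/-! From the frozen form of semilinearity to linear thresholds; existence of the set of
P-positions; the final assembly. -/

namespace Pool.Agent.SNT

open Finset Pointwise

/-- The frozen form of semilinearity. -/
def FrozenSemi {n : ℕ} (P : Set (Fin n → ℕ)) : Prop :=
  ∃ m r : ℕ, ∃ base : Fin m → Fin n → ℕ, ∃ per : Fin m → Fin r → Fin n → ℕ,
    ∀ x : Fin n → ℕ, x ∈ P ↔ ∃ i : Fin m, ∃ c : Fin r → ℕ, x = base i + ∑ j, c j • per i j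

/-- The defining equation of the set of P-positions. -/
def GameEq (n k : ℕ) (P : Set (Fin n → ℕ)) : Prop :=
  ∀ x : Fin n → ℕ, x ∈ P ↔
    ∀ S : Finset (Fin n), S.card = k → (∀ i ∈ S, 1 ≤ x i) →
      (fun i => if i ∈ S then x i - 1 else x i) ∉ P

theorem FrozenSemi.isSemilinearSet {n : ℕ} {P : Set (Fin n → ℕ)} (h : FrozenSemi P) :
    IsSemilinearSet P := by
  obtain ⟨m, r, base, per, h⟩ := h
  let φ : Fin m → (Fin r → ℕ) →ₗ[ℕ] (Fin n → ℕ) := fun i =>
    ∑ j, (LinearMap.proj j : (Fin r → ℕ) →ₗ[ℕ] ℕ).smulRight (per i j)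
  have hφ : ∀ i c, φ i c = ∑ j, c j • per i j := by
    intro i c
    simp [φ, LinearMap.sum_apply]
  have hP : P = ⋃ i : Fin m, (base i +ᵥ (φ i '' (Set.univ : Set (Fin r → ℕ)))) := by
    ext x
    rw [h x, Set.mem_iUnion]
    refine exists_congr fun i => ?_
    rw [Set.mem_vadd_set]
    constructor
    · rintro ⟨c, rfl⟩
      exact ⟨∑ j, c j • per i j, ⟨c, Set.mem_univ _, hφ i c⟩, rfl⟩
    · rintro ⟨y, ⟨c, _, rfl⟩, rfl⟩
      exact ⟨c, by rw [hφ]; rfl⟩
  rw [hP]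
  exact IsSemilinearSet.iUnion fun i =>
    ((IsSemilinearSet.univ).image _).vadd _

/-- The position with parameters `a, b, t`. -/
def pos {n : ℕ} (w : Fin n → ℕ) (u : Fin 3 → Fin n → ℕ) (a b t : ℕ) : Fin n → ℕ :=
  fun i => w i + a * u 0 i + b * u 1 i + t * u 2 i

theorem section_semilinear {n : ℕ} {P : Set (Fin n → ℕ)} (h : IsSemilinearSet P)
    (w : Fin n → ℕ) (u : Fin 3 → Fin n → ℕ) :
    IsSemilinearSet {z : Fin 3 → ℕ | pos w u (z 0) (z 1) (z 2) ∈ P} := by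
  -- first with a fourth coordinate which multiplies `w`
  let φ : (Fin 4 → ℕ) →ₗ[ℕ] (Fin n → ℕ) :=
    (LinearMap.proj 0).smulRight (u 0) + (LinearMap.proj 1).smulRight (u 1) +
      (LinearMap.proj 2).smulRight (u 2) + (LinearMap.proj 3).smulRight w
  have h1 : IsSemilinearSet (φ ⁻¹' P) := h.preimage φ
  have h2 : IsSemilinearSet ((LinearMap.proj 3 : (Fin 4 → ℕ) →ₗ[ℕ] ℕ) ⁻¹' {1}) :=
    (IsSemilinearSet.singleton 1).preimage _
  have h3 := h1.inter h2
  let ψ : (Fin 4 → ℕ) →ₗ[ℕ] (Fin 3 → ℕ) := LinearMap.pi ![LinearMap.proj 0, LinearMap.proj 1,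
    LinearMap.proj 2]
  have h4 := h3.image ψ
  convert h4 using 1
  ext z
  simp only [Set.mem_ofPred_eq, Set.mem_image, Set.mem_inter_iff, Set.mem_preimage,
    Set.mem_singleton_iff]
  constructor
  · intro hz
    refine ⟨![z 0, z 1, z 2, 1], ⟨?_, rfl⟩, ?_⟩
    · convert hz using 1
      ext i
      simp [φ, pos]
      ring
    · ext i
      fin_cases i <;> rfl
  · rintro ⟨y, ⟨hy, hy3⟩, rfl⟩
    convert hy using 1
    ext i
    have : y 3 = 1 := hy3
    simp [φ, ψ, pos, this]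
    ring

/-- Along a line, a semilinear set is periodic from a linear threshold on. -/
theorem frozen_per {n : ℕ} {P : Set (Fin n → ℕ)} (h : FrozenSemi P)
    (w : Fin n → ℕ) (u : Fin 3 → Fin n → ℕ) :
    ∃ N C : ℕ, 0 < N ∧ ∀ a b t : ℕ, C * (a + b + 1) ≤ t →
      (pos w u a b t ∈ P ↔ pos w u a b (t + N) ∈ P) := by
  obtain ⟨N, C, hN, hp⟩ := semilinear_per (section_semilinear h.isSemilinearSet w u)
  refine ⟨N, C, hN, fun a b t ht => ?_⟩
  exact hp a b t ht

/-- A front whose slope is unbounded contradicts semilinearity. -/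
theorem not_frozenSemi {n : ℕ} {P : Set (Fin n → ℕ)} (w : Fin n → ℕ) (u : Fin 3 → Fin n → ℕ)
    (hfront : ∀ C : ℕ, ∃ a b t : ℕ, C * (a + b + 1) ≤ t ∧
      ∀ j : ℕ, 1 ≤ j → ¬ (pos w u a b t ∈ P ↔ pos w u a b (t + 2 * j) ∈ P)) :
    ¬ FrozenSemi P := by
  intro h
  obtain ⟨N, C, hN, hp⟩ := frozen_per h w u
  obtain ⟨a, b, t, ht, hf⟩ := hfront C
  refine hf N hN ?_
  rw [hp a b t ht, hp a b (t + N) (by omega)]
  have : t + N + N = t + 2 * N := by ring
  rw [this]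

/-- The set of P-positions. -/
def isPpos (n k : ℕ) : (Fin n → ℕ) → Prop :=
  WellFounded.fix (measure (fun x : Fin n → ℕ => ∑ i, x i)).wf
    (fun x rec => ∀ S : Finset (Fin n), ∀ _ : S.card = k, ∀ hS : ∀ i ∈ S, 1 ≤ x i,
      ∀ hne : S.Nonempty,
      ¬ rec (fun i => if i ∈ S then x i - 1 else x i) (by
        obtain ⟨i, hi⟩ := hne
        show ∑ j, (if j ∈ S then x j - 1 else x j) < ∑ j, x j
        refine Finset.sum_lt_sum (fun j _ => ?_) ⟨i, mem_univ _, ?_⟩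
        · split_ifs <;> omega
        · have := hS i hi
          simp only [hi, if_true]
          omega))

theorem gameEq_isPpos {n k : ℕ} (hk : 1 ≤ k) : GameEq n k {x | isPpos n k x} := by
  intro x
  show isPpos n k x ↔ _
  unfold isPpos
  rw [WellFounded.fix_eq]
  constructor
  · intro h S hS h1
    exact h S hS h1 (card_pos.1 (by omega))
  · intro h S hS h1 _
    exact h S hS h1

/-- Final assembly: a front of unbounded slope in the P-positions with `n` piles, `k` tokens. -/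
theorem assembly (n k : ℕ) (hk : 1 ≤ k) (w : Fin n → ℕ) (u : Fin 3 → Fin n → ℕ)
    (hfront : ∀ P : Set (Fin n → ℕ), GameEq n k P → ∀ C : ℕ, ∃ a b t : ℕ, C * (a + b + 1) ≤ t ∧
      ∀ j : ℕ, 1 ≤ j → ¬ (pos w u a b t ∈ P ↔ pos w u a b (t + 2 * j) ∈ P)) :
    ¬ (∀ n k : ℕ, 1 ≤ k →
      ∀ P : Set (Fin n → ℕ),
        (∀ x : Fin n → ℕ, x ∈ P ↔
          ∀ S : Finset (Fin n), S.card = k → (∀ i ∈ S, 1 ≤ x i) →
            (fun i => if i ∈ S then x i - 1 else x i) ∉ P) →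
        ∃ m r : ℕ, ∃ base : Fin m → Fin n → ℕ, ∃ per : Fin m → Fin r → Fin n → ℕ,
          ∀ x : Fin n → ℕ, x ∈ P ↔
            ∃ i : Fin m, ∃ c : Fin r → ℕ, x = base i + ∑ j, c j • per i j) := by
  intro h
  exact not_frozenSemi w u (hfront _ (gameEq_isPpos hk)) (h n k hk _ (gameEq_isPpos hk))

end Pool.Agent.SNT
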