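import Pool.Agent.SNT.Up4

set_option autoImplicit false

/-! The end of the proof: tips of slope `A / 6 + 2` in layers `A` with `A / 6` as large as we want
contradict the periodicity along the diagonal. -/

namespace Pool.Agent.SNT

variable {f : ℕ → ℕ → ℕ → ℕ → Prop}

/-- The layer `a` has missing line ends `(2 n + 1, 2 n)` near the line of slope `a / 6 + 2`,
arbitrarily far. -/
def SS (f : ℕ → ℕ → ℕ → ℕ → Prop) (a : ℕ) : Prop :=
  ∃ C : ℕ, ∀ B : ℕ, ∃ b n : ℕ, B ≤ b ∧ b % 2 = 0 ∧ (a + b) % 4 = 2 ∧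
    (a / 6 + 2) * b ≤ 4 * n + C ∧ ¬ f a b (2 * n + 1) (2 * n)

theorem no_diagPer_of_SS (hf : Rule f) {A : ℕ} (hA : A % 2 = 0) (h6 : 6 ≤ A) (h : SS f A)
    {N C : ℕ} (hN : 0 < N) (hC : 2 * C ≤ A / 6) : ¬ DiagPer f N C := by
  intro hp
  obtain ⟨C', h⟩ := h
  obtain ⟨b, n, hB, hb2, h4, hle, hm⟩ := h (A + 1 + (2 * C * (A + 1) + C'))
  have hF : Fst A b (2 * n + 1) (2 * n) :=
    (Fst_II (by omega) hA hb2 h4 (by omega) (by omega)).2 ⟨by omega, by omega⟩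
  have hs : ¬ C * (A + b + 1) ≤ max (2 * n + 1) (2 * n) := by
    intro h1
    exact hm ((St_of_diagPer hf hN hp A b _ _ h1).2 hF)
  have h1 : 2 * n + 1 < C * (A + b + 1) := by omega
  have h2 : 2 * (C * (A + b + 1)) = 2 * C * b + 2 * C * (A + 1) := by ring
  have h3 : 2 * C * b ≤ (A / 6) * b := Nat.mul_le_mul_right _ hC
  have h5 : (A / 6 + 2) * b = (A / 6) * b + 2 * b := by ring
  omega

/-- FINAL: tips in layers as high as we want give the frozen statement. -/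
theorem final_of_SS_unbounded (h : ∀ f : ℕ → ℕ → ℕ → ℕ → Prop, Rule f →
      ∀ m : ℕ, ∃ A : ℕ, A % 2 = 0 ∧ m ≤ A / 6 ∧ SS f A) :
    ¬ (∀ n k : ℕ, 1 ≤ k →
      ∀ P : Set (Fin n → ℕ),
        (∀ x : Fin n → ℕ, x ∈ P ↔
          ∀ S : Finset (Fin n), S.card = k → (∀ i ∈ S, 1 ≤ x i) →
            (fun i => if i ∈ S then x i - 1 else x i) ∉ P) →
        ∃ m r : ℕ, ∃ base : Fin m → Fin n → ℕ, ∃ per : Fin m → Fin r → Fin n → ℕ,
          ∀ x : Fin n → ℕ, x ∈ P ↔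
            ∃ i : Fin m, ∃ c : Fin r → ℕ, x = base i + ∑ j, c j • per i j) := by
  refine final_rule ?_
  intro f hf N C hN hp
  obtain ⟨A, hA, hm, hS⟩ := h f hf (2 * C + 1)
  exact no_diagPer_of_SS hf hA (by omega) hS hN (by omega) hp

/-- The induction statement: an isolated layer of slope `k + 2` in the group `k`. -/
def SI (f : ℕ → ℕ → ℕ → ℕ → Prop) (k : ℕ) : Prop :=
  ∃ A : ℕ, A % 2 = 0 ∧ A / 6 = k ∧ SS f A ∧
    ∃ C : ℕ, ∀ b K : ℕ, (2 * k + 2) * b + C ≤ 4 * K → St f (A - 1) b K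

/-- For `A = 6 k` the isolation is the upper bound. -/
theorem SI_of_SS (hf : Rule f) {k : ℕ} (hk : 3 ≤ k) (h : SS f (6 * k)) : SI f k := by
  obtain ⟨C, hC⟩ := lin hf (6 * k - 1)
  refine ⟨6 * k, by omega, by omega, h, C, ?_⟩
  intro b K hb
  refine hC b K ?_
  have e : cc (6 * k - 1) + 4 = 2 * k + 2 := by
    unfold cc
    omega
  rw [e]
  exact hb

/-- FINAL: a base and an induction step to one of the next groups. -/
theorem final_of_SI (h : ∀ f : ℕ → ℕ → ℕ → ℕ → Prop, Rule f →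
      ∃ k0 : ℕ, SI f k0 ∧ ∀ k : ℕ, k0 ≤ k → SI f k → ∃ k' : ℕ, k < k' ∧ SI f k') :
    ¬ (∀ n k : ℕ, 1 ≤ k →
      ∀ P : Set (Fin n → ℕ),
        (∀ x : Fin n → ℕ, x ∈ P ↔
          ∀ S : Finset (Fin n), S.card = k → (∀ i ∈ S, 1 ≤ x i) →
            (fun i => if i ∈ S then x i - 1 else x i) ∉ P) →
        ∃ m r : ℕ, ∃ base : Fin m → Fin n → ℕ, ∃ per : Fin m → Fin r → Fin n → ℕ,
          ∀ x : Fin n → ℕ, x ∈ P ↔
            ∃ i : Fin m, ∃ c : Fin r → ℕ, x = base i + ∑ j, c j • per i j) := by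
  refine final_of_SS_unbounded ?_
  intro f hf m
  obtain ⟨k0, h0, hs⟩ := h f hf
  have hall : ∀ j : ℕ, ∃ k : ℕ, k0 ≤ k ∧ j ≤ k ∧ SI f k := by
    intro j
    induction j with
    | zero => exact ⟨k0, le_rfl, by omega, h0⟩
    | succ j ih =>
      obtain ⟨k, h1, h2, h3⟩ := ih
      obtain ⟨k', h4, h5⟩ := hs k h1 h3
      exact ⟨k', by omega, by omega, h5⟩
  obtain ⟨k, _, h2, A, h3, h4, h5, _⟩ := hall m
  exact ⟨A, h3, by omega, h5⟩

/-- FINAL in the layers `6 k`: a base and the induction step give the frozen statement. -/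
theorem final_of_SS (h : ∀ f : ℕ → ℕ → ℕ → ℕ → Prop, Rule f →
      ∃ k0 : ℕ, SS f (6 * k0) ∧ ∀ k : ℕ, k0 ≤ k → SS f (6 * k) → SS f (6 * (k + 1))) :
    ¬ (∀ n k : ℕ, 1 ≤ k →
      ∀ P : Set (Fin n → ℕ),
        (∀ x : Fin n → ℕ, x ∈ P ↔
          ∀ S : Finset (Fin n), S.card = k → (∀ i ∈ S, 1 ≤ x i) →
            (fun i => if i ∈ S then x i - 1 else x i) ∉ P) →
        ∃ m r : ℕ, ∃ base : Fin m → Fin n → ℕ, ∃ per : Fin m → Fin r → Fin n → ℕ,
          ∀ x : Fin n → ℕ, x ∈ P ↔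
            ∃ i : Fin m, ∃ c : Fin r → ℕ, x = base i + ∑ j, c j • per i j) := by
  refine final_of_SS_unbounded ?_
  intro f hf m
  obtain ⟨k0, h0, hs⟩ := h f hf
  have hall : ∀ j : ℕ, SS f (6 * (k0 + j)) := by
    intro j
    induction j with
    | zero => exact h0
    | succ j ih => exact hs (k0 + j) (by omega) ih
  exact ⟨6 * (k0 + m), by omega, by omega, hall m⟩

end Pool.Agent.SNT
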