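import Pool.Agent.SNT.TipG
import Pool.Agent.SNT.UpFin
import Pool.Agent.SNT.BoxT48

set_option autoImplicit false
set_option maxRecDepth 100000

/-! The even layers up to 48 are static ahead of the lines given by the cycles. -/

namespace Pool.Agent.SNT

open BoxT

variable {f : ℕ → ℕ → ℕ → ℕ → Prop}

/-- A link of the chain, started from the table. -/
theorem link48 (hf : Rule f) {a b K K2 off : ℕ}
    (h : a % 2 = 0 ∧ 2 ≤ a ∧ a ≤ 48 ∧ a + 13 ≤ b ∧ b ≤ 86 ∧ b % 2 = 0 ∧ (a + b) % 4 = 2 ∧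
      a + b + 10 + off ≤ K ∧ K % 2 = 0 ∧ ((off = 0 ∧ a ≠ 6) ∨ (off = 6 ∧ a = 6)) ∧ K2 + off ≤ K ∧
      kt48 a b ≤ K ∧ kt48 (a - 1) b ≤ K ∧ kt48 (a - 1) (b + 1) ≤ K ∧
      kt48 (a - 1) (b + 2) ≤ K + 1 ∧ kt48 (a - 1) (b + 3) ≤ K + 2 ∧
      kt48 (a - 1) (b + 4) ≤ K + 3 ∧ kt48 (a - 1) (b + 3) ≤ K + cc a - off)
    (hc : ∀ n : ℕ, Cyc f (a - 2) (b + 2 + 4 * n) (K2 + (cc (a - 2) + 4) * n)) :
    ∀ n : ℕ, Cyc f a (b + 4 * n) (K + (cc a + 4) * n) := by
  obtain ⟨h1, h2, h3, h4, h5, h6, h7, h8, h9, h10, h11, h12, h13, h14, h15, h16, h17, h18⟩ := h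
  have st : ∀ i K' : ℕ, i ≤ 4 → kt48 (a - 1) (b + i) ≤ K' → St f (a - 1) (b + i) K' := by
    intro i K' hi hk
    exact (st48 hf (a := a - 1) (b := b + i) (by omega) (by omega) (by omega)).mono hk
  exact chain_step hf h1 h2 h4 h6 h7 h8 h9 h10 h11
    ((st48 hf (by omega) (by omega) (by omega)).mono h12)
    (OddB_of_flat (st 0 _ (by omega) h13) (st 1 _ (by omega) h14) (st 2 _ (by omega) h15)
      (st 3 _ (by omega) h16) (st 4 _ (by omega) h17)) (st 3 _ (by omega) h18) hc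

theorem cyc_shift48 {a b K c : ℕ} (h : ∀ n : ℕ, Cyc f a (b + 4 * n) (K + c * n)) :
    ∀ n : ℕ, Cyc f a (b + 4 + 4 * n) (K + c + c * n) := by
  intro n
  have h1 := h (n + 1)
  have e1 : b + 4 * (n + 1) = b + 4 + 4 * n := by ring
  have e2 : K + c * (n + 1) = K + c + c * n := by ring
  rwa [e1, e2] at h1

/-- The chain up to the layer 46. -/
theorem cyc46 (hf : Rule f) : ∀ n : ℕ, Cyc f 46 (84 + 4 * n) (376 + (cc 46 + 4) * n) := by
  have c0 : ∀ n : ℕ, Cyc f 0 (86 + 4 * n) (96 + (cc 0 + 4) * n) :=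
    cycles_from hf (a := 0) (by omega) rfl rfl rfl (by omega) rfl
      ((st48 hf (a := 0) (b := 86) (by omega) (by omega) (by omega)).mono (by decide +kernel))
      (fun n i _ h => absurd h (by omega))
  have c2 : ∀ n : ℕ, Cyc f 2 (84 + 4 * n) (96 + (cc 2 + 4) * n) :=
    link48 hf (a := 2) (b := 84) (K := 96) (K2 := 96) (off := 0) (by decide +kernel)
      c0
  have c4 : ∀ n : ℕ, Cyc f 4 (86 + 4 * n) (104 + (cc 4 + 4) * n) :=
    link48 hf (a := 4) (b := 86) (K := 104) (K2 := 96 + (cc 2 + 4)) (off := 0) (by decide +kernel)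
      (cyc_shift48 c2)
  have c6 : ∀ n : ℕ, Cyc f 6 (84 + 4 * n) (110 + (cc 6 + 4) * n) :=
    link48 hf (a := 6) (b := 84) (K := 110) (K2 := 104) (off := 6) (by decide +kernel)
      c4
  have c8 : ∀ n : ℕ, Cyc f 8 (86 + 4 * n) (164 + (cc 8 + 4) * n) :=
    link48 hf (a := 8) (b := 86) (K := 164) (K2 := 110 + (cc 6 + 4)) (off := 0) (by decide +kernel)
      (cyc_shift48 c6)
  have c10 : ∀ n : ℕ, Cyc f 10 (84 + 4 * n) (164 + (cc 10 + 4) * n) :=
    link48 hf (a := 10) (b := 84) (K := 164) (K2 := 164) (off := 0) (by decide +kernel)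
      c8
  have c12 : ∀ n : ℕ, Cyc f 12 (86 + 4 * n) (176 + (cc 12 + 4) * n) :=
    link48 hf (a := 12) (b := 86) (K := 176) (K2 := 164 + (cc 10 + 4)) (off := 0) (by decide +kernel)
      (cyc_shift48 c10)
  have c14 : ∀ n : ℕ, Cyc f 14 (84 + 4 * n) (176 + (cc 14 + 4) * n) :=
    link48 hf (a := 14) (b := 84) (K := 176) (K2 := 176) (off := 0) (by decide +kernel)
      c12
  have c16 : ∀ n : ℕ, Cyc f 16 (86 + 4 * n) (184 + (cc 16 + 4) * n) :=
    link48 hf (a := 16) (b := 86) (K := 184) (K2 := 176 + (cc 14 + 4)) (off := 0) (by decide +kernel)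
      (cyc_shift48 c14)
  have c18 : ∀ n : ℕ, Cyc f 18 (84 + 4 * n) (208 + (cc 18 + 4) * n) :=
    link48 hf (a := 18) (b := 84) (K := 208) (K2 := 184) (off := 0) (by decide +kernel)
      c16
  have c20 : ∀ n : ℕ, Cyc f 20 (86 + 4 * n) (218 + (cc 20 + 4) * n) :=
    link48 hf (a := 20) (b := 86) (K := 218) (K2 := 208 + (cc 18 + 4)) (off := 0) (by decide +kernel)
      (cyc_shift48 c18)
  have c22 : ∀ n : ℕ, Cyc f 22 (84 + 4 * n) (218 + (cc 22 + 4) * n) :=
    link48 hf (a := 22) (b := 84) (K := 218) (K2 := 218) (off := 0) (by decide +kernel)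
      c20
  have c24 : ∀ n : ℕ, Cyc f 24 (86 + 4 * n) (254 + (cc 24 + 4) * n) :=
    link48 hf (a := 24) (b := 86) (K := 254) (K2 := 218 + (cc 22 + 4)) (off := 0) (by decide +kernel)
      (cyc_shift48 c22)
  have c26 : ∀ n : ℕ, Cyc f 26 (84 + 4 * n) (254 + (cc 26 + 4) * n) :=
    link48 hf (a := 26) (b := 84) (K := 254) (K2 := 254) (off := 0) (by decide +kernel)
      c24
  have c28 : ∀ n : ℕ, Cyc f 28 (86 + 4 * n) (266 + (cc 28 + 4) * n) :=
    link48 hf (a := 28) (b := 86) (K := 266) (K2 := 254 + (cc 26 + 4)) (off := 0) (by decide +kernel)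
      (cyc_shift48 c26)
  have c30 : ∀ n : ℕ, Cyc f 30 (84 + 4 * n) (288 + (cc 30 + 4) * n) :=
    link48 hf (a := 30) (b := 84) (K := 288) (K2 := 266) (off := 0) (by decide +kernel)
      c28
  have c32 : ∀ n : ℕ, Cyc f 32 (86 + 4 * n) (302 + (cc 32 + 4) * n) :=
    link48 hf (a := 32) (b := 86) (K := 302) (K2 := 288 + (cc 30 + 4)) (off := 0) (by decide +kernel)
      (cyc_shift48 c30)
  have c34 : ∀ n : ℕ, Cyc f 34 (84 + 4 * n) (302 + (cc 34 + 4) * n) :=
    link48 hf (a := 34) (b := 84) (K := 302) (K2 := 302) (off := 0) (by decide +kernel)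
      c32
  have c36 : ∀ n : ℕ, Cyc f 36 (86 + 4 * n) (334 + (cc 36 + 4) * n) :=
    link48 hf (a := 36) (b := 86) (K := 334) (K2 := 302 + (cc 34 + 4)) (off := 0) (by decide +kernel)
      (cyc_shift48 c34)
  have c38 : ∀ n : ℕ, Cyc f 38 (84 + 4 * n) (334 + (cc 38 + 4) * n) :=
    link48 hf (a := 38) (b := 84) (K := 334) (K2 := 334) (off := 0) (by decide +kernel)
      c36
  have c40 : ∀ n : ℕ, Cyc f 40 (86 + 4 * n) (350 + (cc 40 + 4) * n) :=
    link48 hf (a := 40) (b := 86) (K := 350) (K2 := 334 + (cc 38 + 4)) (off := 0) (by decide +kernel)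
      (cyc_shift48 c38)
  have c42 : ∀ n : ℕ, Cyc f 42 (84 + 4 * n) (358 + (cc 42 + 4) * n) :=
    link48 hf (a := 42) (b := 84) (K := 358) (K2 := 350) (off := 0) (by decide +kernel)
      c40
  have c44 : ∀ n : ℕ, Cyc f 44 (86 + 4 * n) (376 + (cc 44 + 4) * n) :=
    link48 hf (a := 44) (b := 86) (K := 376) (K2 := 358 + (cc 42 + 4)) (off := 0) (by decide +kernel)
      (cyc_shift48 c42)
  have c46 : ∀ n : ℕ, Cyc f 46 (84 + 4 * n) (376 + (cc 46 + 4) * n) :=
    link48 hf (a := 46) (b := 84) (K := 376) (K2 := 376) (off := 0) (by decide +kernel)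
      c44
  exact c46

/-- The layer 48. -/
theorem cyc48 (hf : Rule f) : ∀ n : ℕ, Cyc f 48 (86 + 4 * n) (396 + (cc 48 + 4) * n) :=
  link48 hf (a := 48) (b := 86) (K := 396) (K2 := 376 + (cc 46 + 4)) (off := 0)
    (by decide +kernel) (cyc_shift48 (cyc46 hf))

/-- The tips of the layer 48. -/
theorem tips48 (hf : Rule f) :
    ∀ n : ℕ, ¬ f 48 (90 + 4 * n) (2 * (207 + 10 * n) + 1) (2 * (207 + 10 * n)) := by
  refine tips_all hf (A := 48) (b := 90) (m := 207) (K2 := 412) (by omega) (by omega) (by omega)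
    (by omega) (by omega) (by omega) (by omega) (by omega) (by omega) ?_ ?_ (by decide)
    ((st48 hf (a := 47) (b := 89) (by omega) (by omega) (by omega)).mono (by decide +kernel))
    (tip48 hf)
  · intro n
    exact cyc48 hf n
  · intro n
    have h := cyc_shift48 (cyc46 hf) n
    exact h

/-- THE BASE: the layer 48 has missing line ends near the line of slope 10. -/
theorem SS48 (hf : Rule f) : SS f 48 := by
  refine ⟨72, fun B => ⟨90 + 4 * B, 207 + 10 * B, by omega, by omega, by omega, by omega,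
    tips48 hf B⟩⟩

end Pool.Agent.SNT
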