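import Pool.Agent.SNT.SLine

set_option autoImplicit false

/-! BEAM CALCULUS in an even row `b` of an even layer `L`, the row `b - 1` empty there.

Block `(i, j)` = cells `bX = (2i, 2j+1)`, `bY = (2i+1, 2j)`, `bO = (2i+1, 2j+1)`; `su = bX ∨ bO`, `sr = bY ∨ bO`.
`su (i, j) = 0` is the beam which runs UP in the column `i` (its cells are the `bY`, the cells `(2i+1, 2j)`),
`sr (i, j) = 0` is the beam which runs RIGHT in the line `j` (its cells are the `bX`, the cells `(2i, 2j+1)`).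
(helper63: X-beam = cells `(2i+1, 2j)` = here `su = 0`; Y-beam = cells `(2i, 2j+1)` = here `sr = 0`.) -/

namespace Pool.Agent.SNT.Beam

open Pool.Agent.SNT Pool.Agent.SNT.Sig Pool.Agent.SNT.SLine

variable {f : ℕ → ℕ → ℕ → ℕ → Prop} {L b i j i0 i1 j0 j1 : ℕ}

/-- The row before is empty at the block `(i, j)` and at its upper right corner: layers `L - 1, L, L + 1`. -/
structure Pre (f : ℕ → ℕ → ℕ → ℕ → Prop) (L b i j : ℕ) : Prop where
  /-- the row before, layers `L - 1` and `L`, window `2i-1 .. 2i+1` x `2j-1 .. 2j+1` -/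
  lo : ∀ p x y : ℕ, p ≤ 1 → 2 * i ≤ x + 1 → x ≤ 2 * i + 1 → 2 * j ≤ y + 1 → y ≤ 2 * j + 1 → ¬ f (L - p) (b - 1) x y
  /-- the row before, layers `L` and `L + 1`, window `2i+1 .. 2i+2` x `2j+1 .. 2j+2` -/
  hi : ∀ p x y : ℕ, p ≤ 1 → 2 * i + 1 ≤ x → x ≤ 2 * i + 2 → 2 * j + 1 ≤ y → y ≤ 2 * j + 2 → ¬ f (L + p) (b - 1) x y

theorem coll_E (hf : Rule f) (hL : L % 2 = 0) (hb : b % 2 = 0)
    (h1 : ∀ p x y : ℕ, p ≤ 1 → 2 * i + 1 ≤ x → x ≤ 2 * i + 2 → 2 * j + 1 ≤ y → y ≤ 2 * j + 2 → ¬ f (L + p) (b - 1) x y)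
    (h : Coll f L b i j) : f (L + 1) b (2 * i + 2) (2 * j + 2) := by
  by_contra h0
  exact coll_zero hf hL hb h0 h1 h

/-- not blocked: the layer below vanishes at the three cells which see `(2i, 2j+1)` -/
theorem nbX (hP : ∀ x y : ℕ, 2 * i ≤ x + 1 → x ≤ 2 * i → 2 * j ≤ y → y ≤ 2 * j + 1 → ¬ f (L - 1) b x y)
    (H : Pre f L b i j) : NB f L b (2 * i) (2 * j + 1) :=
  nb_of (fun x y a1 a2 a3 a4 => hP x y a1 a2 (by omega) a4)
    (fun p x y hp a1 a2 a3 a4 => H.lo p x y hp a1 (by omega) (by omega) a4)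

theorem nbY (hP : ∀ x y : ℕ, 2 * i ≤ x → x ≤ 2 * i + 1 → 2 * j ≤ y + 1 → y ≤ 2 * j → ¬ f (L - 1) b x y)
    (H : Pre f L b i j) : NB f L b (2 * i + 1) (2 * j) :=
  nb_of (fun x y a1 a2 a3 a4 => hP x y (by omega) a2 a3 a4)
    (fun p x y hp a1 a2 a3 a4 => H.lo p x y hp (by omega) a2 a3 (by omega))

theorem nbO (hP : ∀ x y : ℕ, 2 * i ≤ x → x ≤ 2 * i + 1 → 2 * j ≤ y → y ≤ 2 * j + 1 → ¬ f (L - 1) b x y)
    (H : Pre f L b i j) : NB f L b (2 * i + 1) (2 * j + 1) :=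
  nb_of (fun x y a1 a2 a3 a4 => hP x y (by omega) a2 (by omega) a4)
    (fun p x y hp a1 a2 a3 a4 => H.lo p x y hp (by omega) a2 (by omega) a4)

/-- CROSSING: the beam in the column `i` from below and the beam in the line `j` from the left meet in a free block. -/
theorem cross (hf : Rule f) (hL : L % 2 = 0) (hb : b % 2 = 0)
    (hP : ∀ x y : ℕ, 2 * i + 1 ≤ x → x ≤ 2 * i + 3 → 2 * j + 1 ≤ y → y ≤ 2 * j + 3 → ¬ (x = 2 * i + 1 ∧ y = 2 * j + 1) →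
      ¬ (x = 2 * i + 3 ∧ y = 2 * j + 3) → ¬ f (L - 1) b x y)
    (H : Pre f L b (i + 1) (j + 1))
    (hu : ¬ su f L b (i + 1) j) (hr : ¬ sr f L b i (j + 1)) :
    f (L + 1) b (2 * i + 4) (2 * j + 4) := by
  have hX : bX f L b (i + 1) (j + 1) := by
    rw [rX hf hL hb (nbX (fun x y a1 a2 a3 a4 => hP x y (by omega) (by omega) (by omega) (by omega) (by omega) (by omega)) H)]
    exact hr
  have hY : bY f L b (i + 1) (j + 1) := by
    rw [rY hf hL hb (nbY (fun x y a1 a2 a3 a4 => hP x y (by omega) (by omega) (by omega) (by omega) (by omega) (by omega)) H)]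
    exact hu
  exact coll_E hf hL hb H.hi ⟨hX, hY⟩

/-- THE BEAM RUNS UP in the column `i` from `j0` to `j1`: the layer below has at most E-cells there, the layer above no
E-cell at the corners, the row before is empty. -/
theorem up_line (hf : Rule f) (hL : L % 2 = 0) (hL1 : 1 ≤ L) (hb : b % 2 = 0)
    (hP : ∀ x y : ℕ, 2 * j0 + 1 ≤ y → y ≤ 2 * j1 → 2 * i ≤ x → x ≤ 2 * i + 1 → (x % 2 = 1 ∨ y % 2 = 1) →
      ¬ f (L - 1) b x y)
    (hU : ∀ j : ℕ, j0 < j → j ≤ j1 → ¬ f (L + 1) b (2 * i + 2) (2 * j + 2))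
    (hr0 : ∀ p x y : ℕ, p ≤ 1 → 2 * j0 + 1 ≤ y → y ≤ 2 * j1 → 2 * i ≤ x → x ≤ 2 * i + 1 → ¬ f (L - p) (b - 1) x y)
    (hr1 : ∀ p x y : ℕ, p ≤ 1 → 2 * j0 + 3 ≤ y → y ≤ 2 * j1 + 2 → 2 * i + 1 ≤ x → x ≤ 2 * i + 2 →
      ¬ f (L + p) (b - 1) x y)
    (h1 : ¬ su f L b i j0) {j : ℕ} (hj : j0 ≤ j) (hj1 : j ≤ j1) : ¬ su f L b i j :=
  s_line (f := fun a b x y => f a b y x) (swap hf) (i0 := j0) (i1 := j1) (j := i) hL hL1 hb
    (fun x y a1 a2 a3 a4 a5 => hP y x a1 a2 a3 a4 a5.symm) hU (fun p x y hp a1 a2 a3 a4 => hr0 p y x hp a1 a2 a3 a4)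
    (fun p x y hp a1 a2 a3 a4 => hr1 p y x hp a1 a2 a3 a4) h1 hj hj1

/-- its cells are the `(2i+1, 2j)` of the free blocks -/
theorem y_of_beam (hf : Rule f) (hL : L % 2 = 0) (hb : b % 2 = 0)
    (hP : ∀ x y : ℕ, 2 * j + 1 ≤ y → y ≤ 2 * j + 2 → 2 * i ≤ x → x ≤ 2 * i + 1 → ¬ f (L - 1) b x y)
    (hr0 : ∀ p x y : ℕ, p ≤ 1 → 2 * j + 1 ≤ y → y ≤ 2 * j + 2 → 2 * i ≤ x → x ≤ 2 * i + 1 → ¬ f (L - p) (b - 1) x y)
    (h1 : ¬ su f L b i j) : bY f L b i (j + 1) :=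
  x_of_line (f := fun a b x y => f a b y x) (swap hf) (i := j) (j := i) hL hb
    (fun x y a1 a2 a3 a4 => hP y x a1 a2 a3 a4) (fun p x y hp a1 a2 a3 a4 => hr0 p y x hp a1 a2 a3 a4) h1

/-- DEATH of the beam in the column `i`: an E-cell of the layer above at the corner of the block where it dies. -/
theorem death_up (hf : Rule f) (hL : L % 2 = 0) (hL1 : 1 ≤ L) (hb : b % 2 = 0)
    (hP : ∀ x y : ℕ, 2 * j0 + 1 ≤ y → y ≤ 2 * j1 → 2 * i ≤ x → x ≤ 2 * i + 1 → (x % 2 = 1 ∨ y % 2 = 1) →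
      ¬ f (L - 1) b x y)
    (hr0 : ∀ p x y : ℕ, p ≤ 1 → 2 * j0 + 1 ≤ y → y ≤ 2 * j1 → 2 * i ≤ x → x ≤ 2 * i + 1 → ¬ f (L - p) (b - 1) x y)
    (hr1 : ∀ p x y : ℕ, p ≤ 1 → 2 * j0 + 3 ≤ y → y ≤ 2 * j1 + 2 → 2 * i + 1 ≤ x → x ≤ 2 * i + 2 →
      ¬ f (L + p) (b - 1) x y)
    (h0 : ¬ su f L b i j0) (hj : j0 ≤ j1) (h1 : su f L b i j1) :
    ∃ j : ℕ, j0 < j ∧ j ≤ j1 ∧ f (L + 1) b (2 * i + 2) (2 * j + 2) := by
  by_contra hn
  exact up_line hf hL hL1 hb hP (fun j a1 a2 a3 => hn ⟨j, a1, a2, a3⟩) hr0 hr1 h0 hj le_rfl h1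

/-- DEATH of the beam in the line `j`. -/
theorem death_right (hf : Rule f) (hL : L % 2 = 0) (hL1 : 1 ≤ L) (hb : b % 2 = 0)
    (hP : ∀ x y : ℕ, 2 * i0 + 1 ≤ x → x ≤ 2 * i1 → 2 * j ≤ y → y ≤ 2 * j + 1 → (x % 2 = 1 ∨ y % 2 = 1) →
      ¬ f (L - 1) b x y)
    (hr0 : ∀ p x y : ℕ, p ≤ 1 → 2 * i0 + 1 ≤ x → x ≤ 2 * i1 → 2 * j ≤ y → y ≤ 2 * j + 1 → ¬ f (L - p) (b - 1) x y)
    (hr1 : ∀ p x y : ℕ, p ≤ 1 → 2 * i0 + 3 ≤ x → x ≤ 2 * i1 + 2 → 2 * j + 1 ≤ y → y ≤ 2 * j + 2 →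
      ¬ f (L + p) (b - 1) x y)
    (h0 : ¬ sr f L b i0 j) (hi : i0 ≤ i1) (h1 : sr f L b i1 j) :
    ∃ i : ℕ, i0 < i ∧ i ≤ i1 ∧ f (L + 1) b (2 * i + 2) (2 * j + 2) := by
  by_contra hn
  exact s_line hf hL hL1 hb hP (fun i a1 a2 a3 => hn ⟨i, a1, a2, a3⟩) hr0 hr1 h0 hi le_rfl h1

/-- BACKWARDS: the signal `su = 1` above a free O-cell comes from below or from the left: if `su = 0` at `(i, j+1)` then `su = 0`
at `(i, j)`, or the block `(i, j+1)` is not free. -/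
theorem up_back (hf : Rule f) (hL : L % 2 = 0) (hb : b % 2 = 0)
    (hP : ∀ x y : ℕ, 2 * j + 2 ≤ y → y ≤ 2 * j + 3 → 2 * i ≤ x → x ≤ 2 * i + 1 → ¬ f (L - 1) b x y)
    (hr0 : ∀ p x y : ℕ, p ≤ 1 → 2 * j + 2 ≤ y → y ≤ 2 * j + 3 → 2 * i ≤ x → x ≤ 2 * i + 1 → ¬ f (L - p) (b - 1) x y)
    (h1 : ¬ su f L b i (j + 1)) : ¬ su f L b i j := fun h =>
  h1 (u1_step hf hL hb (nb_of (fun x y a1 a2 a3 a4 => hP x y (by omega) (by omega) (by omega) a2)
    (fun p x y hp a1 a2 a3 a4 => hr0 p x y hp (by omega) (by omega) (by omega) a2)) h)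

theorem right_back (hf : Rule f) (hL : L % 2 = 0) (hb : b % 2 = 0)
    (hP : ∀ x y : ℕ, 2 * i + 2 ≤ x → x ≤ 2 * i + 3 → 2 * j ≤ y → y ≤ 2 * j + 1 → ¬ f (L - 1) b x y)
    (hr0 : ∀ p x y : ℕ, p ≤ 1 → 2 * i + 2 ≤ x → x ≤ 2 * i + 3 → 2 * j ≤ y → y ≤ 2 * j + 1 → ¬ f (L - p) (b - 1) x y)
    (h1 : ¬ sr f L b (i + 1) j) : ¬ sr f L b i j := fun h =>
  h1 (r1_step hf hL hb (nb_of (fun x y a1 a2 a3 a4 => hP x y (by omega) (by omega) (by omega) (by omega))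
    (fun p x y hp a1 a2 a3 a4 => hr0 p x y hp (by omega) (by omega) (by omega) (by omega))) h)

/-- NEXT ROW: a collision gives a one of the same layer in the next row. -/
theorem coll_next (hf : Rule f) (h : Coll f L b i j)
    (hL : L % 2 = 0) (hb : b % 2 = 0)
    (h0 : ∀ q r s : ℕ, q ≤ 1 → r ≤ 1 → s ≤ 1 → 1 ≤ L → ¬ f (L - 1) (b + 1 - q) (2 * i + 2 - r) (2 * j + 2 - s)) :
    f L (b + 1) (2 * i + 2) (2 * j + 2) := by
  have kX := h.1
  have kY := h.2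
  unfold bX at kX
  unfold bY at kY
  rw [hf]
  refine ⟨by omega, fun p q r s hp hq hr hs hsum hpa _ _ _ h2 => ?_⟩
  rcases Nat.eq_zero_or_pos p with hp0 | hp0
  · subst hp0
    rw [Nat.sub_zero] at h2
    rcases Nat.eq_zero_or_pos q with hq0 | hq0
    · subst hq0
      rw [Nat.sub_zero] at h2
      rcases Nat.eq_zero_or_pos s with hs0 | hs0
      · subst hs0
        have er : r = 1 := by omega
        subst er
        have := kill hf kX 0 1 1 1 (by omega) le_rfl le_rfl le_rfl (by omega)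
        have e1 : 2 * i + 2 - 1 = 2 * i + 1 := by omega
        rw [e1] at h2
        exact this h2
      · have es : s = 1 := by omega
        subst es
        have := kill hf kY 0 1 (1 - r) 1 (by omega) le_rfl (by omega) le_rfl (by omega)
        have e1 : 2 * i + 2 - r = 2 * i + 1 + (1 - r) := by omega
        have e2 : 2 * j + 2 - 1 = 2 * j + 1 := by omega
        rw [e1, e2] at h2
        exact this h2
    · have eq : q = 1 := by omega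
      subst eq
      rw [Nat.add_sub_cancel] at h2
      rcases Nat.eq_zero_or_pos s with hs0 | hs0
      · subst hs0
        rcases Nat.eq_zero_or_pos r with hr0 | hr0
        · subst hr0
          exact even_zero hf hL hb (by omega) (by omega) h2
        · have er : r = 1 := by omega
          subst er
          have := kill hf kX 0 0 1 1 (by omega) (by omega) le_rfl le_rfl (by omega)
          have e1 : 2 * i + 2 - 1 = 2 * i + 1 := by omega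
          rw [e1] at h2
          exact this h2
      · have es : s = 1 := by omega
        subst es
        have := kill hf kY 0 0 (1 - r) 1 (by omega) (by omega) (by omega) le_rfl (by omega)
        have e1 : 2 * i + 2 - r = 2 * i + 1 + (1 - r) := by omega
        have e2 : 2 * j + 2 - 1 = 2 * j + 1 := by omega
        rw [e1, e2] at h2
        exact this h2
  · have ep : p = 1 := by omega
    subst ep
    exact h0 q r s hq hr hs hpa h2

end Pool.Agent.SNT.Beam
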