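import Pool.Agent.SNT.HoleB

set_option autoImplicit false

/-! Birth lemma, part A: one even layer ahead of an exact front (no hypothesis on the layer
above).  Blocks: `E = (2i,2j)`, `X = (2i,2j+1)`, `Y = (2i+1,2j)`, `O = (2i+1,2j+1)`. -/

namespace Pool.Agent.SNT.Hole

variable {g : ℕ → ℕ → ℕ → Prop} {h m : ℕ}

/-- Diagonal ones of row `3`. -/
theorem Tip0.D3g (T : Tip0 g h m) {j : ℕ} (hj : m + 1 ≤ j) : g 3 (2 * j + 1) (2 * j + 1) := by
  have h2 := T.hh
  have h3 := T.hm
  have a := T.X2 (i := j + 1) (j := j) (by omega) (by omega) (by omega)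
  have b := T.X2 (i := j) (j := j - 1) (by omega) (by omega) (by omega)
  have c2 : ¬ g 2 (2 * j + 1) (2 * j) := fun h' => T.kill h' (by omega) a
  have c3 : ¬ g 3 (2 * j + 1) (2 * j) := T.kill b (by omega)
  exact T.rule (k1 := 2) (x1 := 2 * j) (y1 := 2 * j)
    ⟨by omega, by omega, by omega⟩ ⟨by omega, by omega, by omega, by omega, by omega⟩
    c3 (fun h' => c3 (T.sym h')) (T.kill b (by omega)) (fun h' => T.kill h' (by omega) a)
    c2 (fun h' => c2 (T.sym h')) (T.ev (by omega))

/-- No `X` in row `4`. -/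
theorem Tip0.NX4 (T : Tip0 g h m) {j : ℕ} (hj : m + 1 ≤ j) :
    ∀ t : ℕ, t + 1 ≤ h → ¬ g 4 (2 * (j + 1 + t)) (2 * j + 1) := by
  have h2 := T.hh
  have h3 := T.hm
  intro t
  induction t with
  | zero =>
    intro _
    exact T.kill (T.D3g hj) (by omega)
  | succ t ih =>
    intro ht hX
    have h4 := ih (by omega)
    refine T.kill (k := 4) (x := 2 * (j + 1 + t) + 1) (y := 2 * j + 1) ?_ (by omega) hX
    refine T.rule (k1 := 3) (x1 := 2 * (j + 1 + t)) (y1 := 2 * j)
      ⟨by omega, by omega, by omega⟩ ⟨by omega, by omega, by omega, by omega, by omega⟩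
      (fun h' => T.kill h' (by omega) hX) h4 (T.ev (by omega))
      (T.z3 (j := j) (by omega) (by omega) (by omega) (by omega))
      (T.z3 (j := j - 1) (by omega) (by omega) (by omega) (by omega))
      (T.z3 (j := j) (by omega) (by omega) (by omega) (by omega))
      (T.z3 (j := j - 1) (by omega) (by omega) (by omega) (by omega))

theorem Tip0.nx4 (T : Tip0 g h m) {i j : ℕ} (hj : m + 1 ≤ j) (h1 : j + 1 ≤ i) (h2 : i ≤ j + h) :
    ¬ g 4 (2 * i) (2 * j + 1) := by
  have h3 := T.NX4 hj (i - (j + 1)) (by omega)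
  have e : j + 1 + (i - (j + 1)) = i := by omega
  rwa [e] at h3

/-- Complete columns of row `4`. -/
theorem Tip0.C4a (T : Tip0 g h m) {i : ℕ} (hi : m + h + 1 ≤ i) :
    ∀ t : ℕ, t + 1 ≤ h → g 4 (2 * i + 1) (2 * (i - t)) := by
  have h2 := T.hh
  have h3 := T.hm
  intro t
  induction t with
  | zero =>
    intro _
    refine T.st1 ⟨by omega, by omega, by omega, by omega⟩ ?_
    unfold Fx; omega
  | succ t ih =>
    intro ht
    have h4 := ih (by omega)
    by_contra hcon
    have hO : g 4 (2 * i + 1) (2 * (i - (t + 1)) + 1) :=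
      T.rule (k1 := 3) (x1 := 2 * i) (y1 := 2 * (i - (t + 1)))
        ⟨by omega, by omega, by omega⟩
        ⟨by omega, by omega, by omega, by omega, by omega⟩
        hcon (fun h' => T.kill h' (by omega) h4) (T.ev (by omega))
        (fun h' => T.kill h' (by omega) h4)
        (T.z3 (j := i - (t + 1) - 1) (by omega) (by omega) (by omega) (by omega))
        (fun h' => T.kill h' (by omega) h4)
        (T.z3 (j := i - (t + 1) - 1) (by omega) (by omega) (by omega) (by omega))
    exact T.kill hO (by omega) h4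

theorem Tip0.C4 (T : Tip0 g h m) {i j : ℕ} (hi : m + h + 1 ≤ i) (h1 : i + 1 ≤ j + h) (h2 : j ≤ i) :
    g 4 (2 * i + 1) (2 * j) := by
  have h3 := T.C4a hi (i - j) (by omega)
  have e : i - (i - j) = j := by omega
  rwa [e] at h3

/-! The bulk next to the strip. -/

theorem Tip0.Y2 (T : Tip0 g h m) {j : ℕ} (hj : m ≤ j) : g 2 (2 * (j + h) + 1) (2 * j) := by
  have h2 := T.hh
  have h3 := T.hm
  refine T.st1 ⟨by omega, by omega, by omega, by omega⟩ ?_
  unfold Fx; omega

theorem Tip0.X2b (T : Tip0 g h m) {j : ℕ} (hj : m ≤ j + 2) :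
    g 2 (2 * (j + h + 2)) (2 * j + 1) := by
  have h2 := T.hh
  have h3 := T.hm
  by_cases e : m = j + 2
  · have := T.Xb2
    have e1 : 2 * m + 2 * h = 2 * (j + h + 2) := by omega
    have e2 : 2 * m - 3 = 2 * j + 1 := by omega
    rwa [e1, e2] at this
  · refine T.st1 ⟨by omega, by omega, by omega, by omega⟩ ?_
    unfold Fx; omega

theorem Tip0.Y2b (T : Tip0 g h m) {j : ℕ} (hj : m ≤ j + 2) :
    g 2 (2 * (j + h + 2) + 1) (2 * j) := by
  have h2 := T.hh
  have h3 := T.hm
  by_cases e : m = j + 2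
  · have := T.Yb2
    have e1 : 2 * m + 2 * h + 1 = 2 * (j + h + 2) + 1 := by omega
    have e2 : 2 * m - 4 = 2 * j := by omega
    rwa [e1, e2] at this
  · refine T.st1 ⟨by omega, by omega, by omega, by omega⟩ ?_
    unfold Fx; omega

theorem Tip0.E3 (T : Tip0 g h m) {j : ℕ} (hj : m + 1 ≤ j) : g 3 (2 * (j + h)) (2 * j) := by
  have h2 := T.hh
  have h3 := T.hm
  have a := T.X2 (i := j + h - 1) (j := j - 1) (by omega) (by omega) (by omega)
  have b := T.Y2 (j := j - 1) (by omega)
  refine T.rule (k1 := 2) (x1 := 2 * (j + h) - 1) (y1 := 2 * j - 1)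
    ⟨by omega, by omega, by omega⟩ ⟨by omega, by omega, by omega, by omega, by omega⟩
    (T.kill b (by omega)) (T.kill a (by omega)) (T.kill a (by omega)) (T.ev (by omega))
    ?_ ?_ ?_ <;>
  · refine T.st0 ⟨by omega, by omega, by omega, by omega⟩ ?_
    unfold Fx; omega

theorem Tip0.O3 (T : Tip0 g h m) {j : ℕ} (hj : m ≤ j) : g 3 (2 * (j + h + 1) + 1) (2 * j + 1) := by
  have h2 := T.hh
  have h3 := T.hm
  have a := T.Y2 (j := j) (by omega)
  have b := T.X2b (j := j - 1) (by omega)
  refine T.rule (k1 := 2) (x1 := 2 * (j + h + 1)) (y1 := 2 * j)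
    ⟨by omega, by omega, by omega⟩ ⟨by omega, by omega, by omega, by omega, by omega⟩
    (T.kill b (by omega)) (T.kill a (by omega)) (T.kill a (by omega)) ?_ ?_ ?_
    (T.ev (by omega)) <;>
  · refine T.st0 ⟨by omega, by omega, by omega, by omega⟩ ?_
    unfold Fx; omega

theorem Tip0.E3c (T : Tip0 g h m) {j : ℕ} (hj : m ≤ j + 1) : g 3 (2 * (j + h + 2)) (2 * j) := by
  have h2 := T.hh
  have h3 := T.hm
  have a := T.X2b (j := j - 1) (by omega)
  have b := T.Y2b (j := j - 1) (by omega)
  refine T.rule (k1 := 2) (x1 := 2 * (j + h + 2) - 1) (y1 := 2 * j - 1)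
    ⟨by omega, by omega, by omega⟩ ⟨by omega, by omega, by omega, by omega, by omega⟩
    (T.kill b (by omega)) (T.kill a (by omega)) (T.kill a (by omega))
    (T.ev (by omega)) ?_ ?_ ?_ <;>
  · refine T.st0 ⟨by omega, by omega, by omega, by omega⟩ ?_
    unfold Fx; omega

theorem Tip0.X4 (T : Tip0 g h m) {j : ℕ} (hj : m + 1 ≤ j) : g 4 (2 * (j + h + 1)) (2 * j + 1) := by
  have h2 := T.hh
  have h3 := T.hm
  have a := T.Y2 (j := j) (by omega)
  have b := T.E3 (j := j) (by omega)
  exact T.rule (k1 := 3) (x1 := 2 * (j + h) + 1) (y1 := 2 * j)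
    ⟨by omega, by omega, by omega⟩ ⟨by omega, by omega, by omega, by omega, by omega⟩
    (T.ev (by omega)) (T.kill b (by omega)) (T.kill b (by omega))
    (T.kill a (by omega)) (T.kill a (by omega)) (T.kill a (by omega)) (T.kill a (by omega))

theorem Tip0.Y4 (T : Tip0 g h m) {j : ℕ} (hj : m ≤ j) : g 4 (2 * (j + h + 1) + 1) (2 * j) := by
  have h2 := T.hh
  have h3 := T.hm
  have a := T.X2b (j := j - 1) (by omega)
  have b := T.E3c (j := j - 1) (by omega)
  have c : g 3 (2 * (j + h) + 1) (2 * j - 1) := by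
    by_cases e : m = j
    · have := T.O3b
      have e1 : 2 * m + 2 * h + 1 = 2 * (j + h) + 1 := by omega
      have e2 : 2 * m - 1 = 2 * j - 1 := by omega
      rwa [e1, e2] at this
    · have := T.O3 (j := j - 1) (by omega)
      have e1 : 2 * (j - 1 + h + 1) + 1 = 2 * (j + h) + 1 := by omega
      have e2 : 2 * (j - 1) + 1 = 2 * j - 1 := by omega
      rwa [e1, e2] at this
  exact T.rule (k1 := 3) (x1 := 2 * (j + h + 1)) (y1 := 2 * j - 1)
    ⟨by omega, by omega, by omega⟩ ⟨by omega, by omega, by omega, by omega, by omega⟩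
    (T.kill b (by omega)) (T.ev (by omega)) (T.kill c (by omega))
    (T.kill a (by omega)) (T.kill a (by omega)) (T.kill a (by omega)) (T.kill a (by omega))

/-- The edge ones of row `5`. -/
theorem Tip0.O5 (T : Tip0 g h m) {j : ℕ} (hj : m + 2 ≤ j) : g 5 (2 * (j + h) + 1) (2 * j + 1) := by
  have h2 := T.hh
  have h3 := T.hm
  have a := T.E3 (j := j) (by omega)
  have b := T.C4 (i := j + h - 1) (j := j) (by omega) (by omega) (by omega)
  have c := T.X4 (j := j - 1) (by omega)
  exact T.rule (k1 := 4) (x1 := 2 * (j + h)) (y1 := 2 * j)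
    ⟨by omega, by omega, by omega⟩ ⟨by omega, by omega, by omega, by omega, by omega⟩
    (T.kill c (by omega)) (T.kill b (by omega)) (T.kill b (by omega))
    (T.kill a (by omega)) (T.kill a (by omega)) (T.kill a (by omega)) (T.ev (by omega))

theorem Tip0.E5 (T : Tip0 g h m) {j : ℕ} (hj : m + 2 ≤ j) : g 5 (2 * (j + h + 1)) (2 * j) := by
  have h2 := T.hh
  have h3 := T.hm
  have a := T.E3 (j := j) (by omega)
  have b := T.Y4 (j := j - 1) (by omega)
  have c := T.O3 (j := j - 1) (by omega)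
  have d := T.O5 (j := j) (by omega)
  exact T.rule (k1 := 4) (x1 := 2 * (j + h) + 1) (y1 := 2 * j - 1)
    ⟨by omega, by omega, by omega⟩ ⟨by omega, by omega, by omega, by omega, by omega⟩
    (T.kill b (by omega)) (fun h' => T.kill h' (by omega) d) (T.kill b (by omega))
    (T.ev (by omega)) (T.kill c (by omega)) (T.kill a (by omega)) (T.kill b (by omega))

theorem Tip0.Y6 (T : Tip0 g h m) {j : ℕ} (hj : m + 3 ≤ j) : g 6 (2 * (j + h) + 1) (2 * j) := by
  have h2 := T.hh
  have h3 := T.hm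
  have a := T.E5 (j := j - 1) (by omega)
  have b := T.O5 (j := j - 1) (by omega)
  have c := T.X4 (j := j - 1) (by omega)
  have d := T.O5 (j := j) (by omega)
  exact T.rule (k1 := 5) (x1 := 2 * (j + h)) (y1 := 2 * j - 1)
    ⟨by omega, by omega, by omega⟩ ⟨by omega, by omega, by omega, by omega, by omega⟩
    (T.kill a (by omega)) (T.ev (by omega)) (T.kill b (by omega))
    (fun h' => T.kill h' (by omega) d) (T.kill c (by omega))
    (fun h' => T.kill h' (by omega) d) (T.kill c (by omega))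

/-- No `Y` in the columns `≥ n + 2` of row `6`. -/
theorem Tip0.NY6 (T : Tip0 g h m) {i : ℕ} (hi : m + h + 2 ≤ i) :
    ∀ t : ℕ, t + 1 ≤ h → ¬ g 6 (2 * i + 1) (2 * (i + 1 - h + t)) := by
  have h2 := T.hh
  have h3 := T.hm
  intro t
  induction t with
  | zero =>
    intro _
    have a := T.O5 (j := i - h) (by omega)
    exact T.kill a (by omega)
  | succ t ih =>
    intro ht hY
    have h4 := ih (by omega)
    have c1 := T.C4 (i := i) (j := i + 1 - h + t) (by omega) (by omega) (by omega)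
    have c2 := T.C4 (i := i - 1) (j := i + 1 - h + t) (by omega) (by omega) (by omega)
    refine T.kill (k := 6) (x := 2 * i + 1) (y := 2 * (i + 1 - h + t) + 1) ?_ (by omega) hY
    exact T.rule (k1 := 5) (x1 := 2 * i) (y1 := 2 * (i + 1 - h + t))
      ⟨by omega, by omega, by omega⟩ ⟨by omega, by omega, by omega, by omega, by omega⟩
      h4 (fun h' => T.kill h' (by omega) hY) (T.ev (by omega))
      (T.kill c1 (by omega)) (T.kill c1 (by omega)) (T.kill c2 (by omega)) (T.kill c2 (by omega))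

theorem Tip0.ny6 (T : Tip0 g h m) {i j : ℕ} (hi : m + h + 2 ≤ i) (h1 : i + 1 ≤ j + h) (h2 : j ≤ i) :
    ¬ g 6 (2 * i + 1) (2 * j) := by
  have h3 := T.NY6 hi (j - (i + 1 - h)) (by omega)
  have e : i + 1 - h + (j - (i + 1 - h)) = j := by omega
  rwa [e] at h3

end Pool.Agent.SNT.Hole
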