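import Pool.Agent.SNT.BirthA

set_option autoImplicit false

/-! Birth lemma, part B: one even layer ahead of an exact front, with the missing cell
`Y(n,n) = (2n+1,2n)` of row `4`, `n = m + h`. -/

namespace Pool.Agent.SNT.Hole

variable {g : ℕ → ℕ → ℕ → Prop} {h m : ℕ}

theorem Tip0.colY (T : Tip0 g h m) (hL : ¬ g 4 (2 * m + 2 * h + 1) (2 * m + 2 * h)) :
    ∀ t : ℕ, t + 1 ≤ h → ¬ g 4 (2 * m + 2 * h + 1) (2 * (m + h - t)) := by
  have h2 := T.hh
  have h3 := T.hm
  intro t
  induction t with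
  | zero =>
    intro _
    have e : 2 * (m + h - 0) = 2 * m + 2 * h := by omega
    rw [e]; exact hL
  | succ t ih =>
    intro ht hY
    have h4 := ih (by omega)
    have nx := T.nx4 (i := m + h) (j := m + h - (t + 1)) (by omega) (by omega) (by omega)
    have e : 2 * (m + h) = 2 * m + 2 * h := by omega
    rw [e] at nx
    apply h4
    exact T.rule (k1 := 3) (x1 := 2 * m + 2 * h) (y1 := 2 * (m + h - (t + 1)) + 1)
      ⟨by omega, by omega, by omega⟩ ⟨by omega, by omega, by omega, by omega, by omega⟩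
      (T.kill hY (by omega)) (T.ev (by omega)) nx
      (T.z3 (j := m + h - (t + 1)) (by omega) (by omega) (by omega) (by omega))
      (T.z3 (j := m + h - (t + 1)) (by omega) (by omega) (by omega) (by omega))
      (T.z3 (j := m + h - (t + 1)) (by omega) (by omega) (by omega) (by omega))
      (T.z3 (j := m + h - (t + 1)) (by omega) (by omega) (by omega) (by omega))

theorem Tip0.y0 (T : Tip0 g h m) (hL : ¬ g 4 (2 * m + 2 * h + 1) (2 * m + 2 * h)) {j : ℕ}
    (h1 : m + 1 ≤ j) (h2 : j ≤ m + h) : ¬ g 4 (2 * m + 2 * h + 1) (2 * j) := by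
  have h3 := T.colY hL (m + h - j) (by omega)
  have e : m + h - (m + h - j) = j := by omega
  rwa [e] at h3

theorem Tip0.x0 (T : Tip0 g h m) {j : ℕ} (h1 : m + 1 ≤ j) (h2 : j + 1 ≤ m + h) :
    ¬ g 4 (2 * m + 2 * h) (2 * j + 1) := by
  have nx := T.nx4 (i := m + h) (j := j) (by omega) (by omega) (by omega)
  have e : 2 * (m + h) = 2 * m + 2 * h := by omega
  rwa [e] at nx

theorem Tip0.xe (T : Tip0 g h m) : ¬ g 4 (2 * m + 2 * h) (2 * m + 1) := by
  rcases T.edge3 with h1 | h1
  · exact T.kill h1 (by omega)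
  · exact T.kill h1 (by omega)

theorem Tip0.oe (T : Tip0 g h m) (hL : ¬ g 4 (2 * m + 2 * h + 1) (2 * m + 2 * h)) :
    g 4 (2 * m + 2 * h + 1) (2 * m + 1) := by
  have h3 := T.hh
  have h4 := T.hm
  by_contra hcon
  have h5 := T.y0 hL (j := m + 1) (by omega) (by omega)
  apply h5
  refine T.rule (k1 := 3) (x1 := 2 * m + 2 * h) (y1 := 2 * m + 1)
    ⟨by omega, by omega, by omega⟩ ⟨by omega, by omega, by omega, by omega, by omega⟩
    hcon (T.ev (by omega)) T.xe
    (T.z3 (j := m) (by omega) (by omega) (by omega) (by omega))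
    (T.z3 (j := m) (by omega) (by omega) (by omega) (by omega))
    (T.z3 (j := m) (by omega) (by omega) (by omega) (by omega))
    (T.z3 (j := m) (by omega) (by omega) (by omega) (by omega))

theorem Tip0.o0 (T : Tip0 g h m) (hL : ¬ g 4 (2 * m + 2 * h + 1) (2 * m + 2 * h)) {j : ℕ}
    (h1 : m ≤ j) (h2 : j + 1 ≤ m + h) : g 4 (2 * m + 2 * h + 1) (2 * j + 1) := by
  have h3 := T.hh
  have h4 := T.hm
  by_cases e : j = m
  · subst e; exact T.oe hL
  · refine T.rule (k1 := 3) (x1 := 2 * m + 2 * h) (y1 := 2 * j)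
      ⟨by omega, by omega, by omega⟩ ⟨by omega, by omega, by omega, by omega, by omega⟩
      (T.y0 hL (by omega) (by omega)) (T.x0 (by omega) (by omega)) (T.ev (by omega))
      (T.z3 (j := j) (by omega) (by omega) (by omega) (by omega))
      (T.z3 (j := j - 1) (by omega) (by omega) (by omega) (by omega))
      (T.z3 (j := j) (by omega) (by omega) (by omega) (by omega))
      (T.z3 (j := j - 1) (by omega) (by omega) (by omega) (by omega))

theorem Tip0.ye3 (T : Tip0 g h m) (hL : ¬ g 4 (2 * m + 2 * h + 1) (2 * m + 2 * h)) :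
    g 3 (2 * m + 2 * h - 1) (2 * m) := by
  rcases T.edge3 with h1 | h1
  · exact absurd (T.oe hL) (T.kill h1 (by omega))
  · exact h1

/-- The column `n - 1` of row `4` is present unless an `X` signal reaches it in row `m`. -/
theorem Tip0.dich (T : Tip0 g h m) (hL : ¬ g 4 (2 * m + 2 * h + 1) (2 * m + 2 * h))
    (hx : ¬ g 4 (2 * m + 2 * h - 2) (2 * m + 1)) :
    ∀ t : ℕ, t + 2 ≤ h → g 4 (2 * m + 2 * h - 1) (2 * (m + 1 + t)) := by
  have h2 := T.hh
  have h3 := T.hm
  intro t
  induction t with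
  | zero =>
    intro _
    have e := T.ye3 hL
    exact T.rule (k1 := 3) (x1 := 2 * m + 2 * h - 2) (y1 := 2 * m + 1)
      ⟨by omega, by omega, by omega⟩ ⟨by omega, by omega, by omega, by omega, by omega⟩
      (T.kill e (by omega)) (T.ev (by omega)) hx
      (T.z3 (j := m) (by omega) (by omega) (by omega) (by omega))
      (T.z3 (j := m) (by omega) (by omega) (by omega) (by omega))
      (T.z3 (j := m) (by omega) (by omega) (by omega) (by omega))
      (T.z3 (j := m) (by omega) (by omega) (by omega) (by omega))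
  | succ t ih =>
    intro ht
    have h4 := ih (by omega)
    have nx := T.nx4 (i := m + h - 1) (j := m + 1 + t) (by omega) (by omega) (by omega)
    have e : 2 * (m + h - 1) = 2 * m + 2 * h - 2 := by omega
    rw [e] at nx
    exact T.rule (k1 := 3) (x1 := 2 * m + 2 * h - 2) (y1 := 2 * (m + 1 + t) + 1)
      ⟨by omega, by omega, by omega⟩ ⟨by omega, by omega, by omega, by omega, by omega⟩
      (T.kill h4 (by omega)) (T.ev (by omega)) nx
      (T.z3 (j := m + 1 + t) (by omega) (by omega) (by omega) (by omega))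
      (T.z3 (j := m + 1 + t) (by omega) (by omega) (by omega) (by omega))
      (T.z3 (j := m + 1 + t) (by omega) (by omega) (by omega) (by omega))
      (T.z3 (j := m + 1 + t) (by omega) (by omega) (by omega) (by omega))

theorem Tip0.w5' (T : Tip0 g h m) (hL : ¬ g 4 (2 * m + 2 * h + 1) (2 * m + 2 * h)) :
    g 5 (2 * m + 2 * h + 3) (2 * m + 2) := by
  have h3 := T.hh
  have h4 := T.hm
  have e := T.oe hL
  have a := T.Y4 (j := m) (by omega)
  have b := T.E3 (j := m + 1) (by omega)
  have c := T.O3 (j := m) (by omega)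
  refine T.rule (k1 := 4) (x1 := 2 * m + 2 * h + 2) (y1 := 2 * m + 1)
    ⟨by omega, by omega, by omega⟩ ⟨by omega, by omega, by omega, by omega, by omega⟩
    (T.kill a (by omega)) (T.kill e (by omega)) (T.kill e (by omega)) (T.kill b (by omega))
    (T.kill c (by omega)) (T.ev (by omega)) (T.kill e (by omega))

/-- One of the two diagonal cells after the missing one is a one. -/
theorem Tip0.diag5 (T : Tip0 g h m) (hL : ¬ g 4 (2 * m + 2 * h + 1) (2 * m + 2 * h))
    (hx : ¬ g 5 (2 * m + 2 * h + 2) (2 * m + 2 * h + 1)) :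
    g 5 (2 * m + 2 * h + 1) (2 * m + 2 * h + 1) := by
  have h2 := T.hh
  have h3 := T.hm
  have o1 := T.o0 hL (j := m + h - 1) (by omega) (by omega)
  have d3 := T.D3 (j := m + h) (by omega)
  by_contra ho
  apply hx
  refine T.rule (k1 := 4) (x1 := 2 * m + 2 * h + 1) (y1 := 2 * m + 2 * h)
    ⟨by omega, by omega, by omega⟩ ⟨by omega, by omega, by omega, by omega, by omega⟩
    (T.kill o1 (by omega)) ho (T.kill o1 (by omega)) (T.kill d3 (by omega))
    (T.ev (by omega)) (T.kill d3 (by omega)) hL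

/-- If the beam of row `6` reaches the diagonal, then an `X` signal reaches column `n - 1`. -/
theorem Tip0.reach (T : Tip0 g h m) (hL : ¬ g 4 (2 * m + 2 * h + 1) (2 * m + 2 * h))
    (hx : ¬ g 5 (2 * m + 2 * h + 2) (2 * m + 2 * h + 1)) :
    g 4 (2 * m + 2 * h - 2) (2 * m + 1) := by
  have h2 := T.hh
  have h3 := T.hm
  by_contra hcon
  have y1 : g 4 (2 * m + 2 * h - 1) (2 * m + 2 * h - 2) := by
    have := T.dich hL hcon (h - 2) (by omega)
    have e : 2 * (m + 1 + (h - 2)) = 2 * m + 2 * h - 2 := by omega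
    rwa [e] at this
  have ho := T.diag5 hL hx
  have he : ¬ g 5 (2 * m + 2 * h) (2 * m + 2 * h) := fun h' => T.kill h' (by omega) ho
  apply he
  have x2 : ¬ g 4 (2 * m + 2 * h) (2 * m + 2 * h - 1) := by
    have x1 := T.x0 (j := m + h - 1) (by omega) (by omega)
    have e : 2 * (m + h - 1) + 1 = 2 * m + 2 * h - 1 := by omega
    rwa [e] at x1
  have y2 : ¬ g 5 (2 * m + 2 * h) (2 * m + 2 * h - 1) := T.kill y1 (by omega)
  refine T.rule (k1 := 4) (x1 := 2 * m + 2 * h - 1) (y1 := 2 * m + 2 * h - 1)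
    ⟨by omega, by omega, by omega⟩ ⟨by omega, by omega, by omega, by omega, by omega⟩
    y2 (fun h' => y2 (T.sym h')) (T.kill y1 (by omega)) (T.ev (by omega)) x2
    (fun h' => x2 (T.sym h')) (T.kill y1 (by omega))

theorem Tip0.e5z (T : Tip0 g h m) (hL : ¬ g 4 (2 * m + 2 * h + 1) (2 * m + 2 * h)) :
    ¬ g 5 (2 * m + 2 * h + 2) (2 * m + 2 * h + 2) := by
  by_cases hx : g 5 (2 * m + 2 * h + 2) (2 * m + 2 * h + 1)
  · exact T.kill hx (by omega)
  · exact T.kill (T.diag5 hL hx) (by omega)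

/-- The out-line `n + 1` of row `6` does not start. -/
theorem Tip0.S6 (T : Tip0 g h m) (hL : ¬ g 4 (2 * m + 2 * h + 1) (2 * m + 2 * h)) :
    ¬ g 6 (2 * m + 2 * h + 4) (2 * m + 2 * h + 3) := by
  have h2 := T.hh
  have h3 := T.hm
  intro hX
  have c : ¬ g 6 (2 * m + 2 * h + 3) (2 * m + 2 * h + 2) := fun h' => T.kill h' (by omega) hX
  have d : ¬ g 5 (2 * m + 2 * h + 3) (2 * m + 2 * h + 2) := fun h' => T.kill h' (by omega) hX
  refine T.kill (k := 6) (x := 2 * m + 2 * h + 3) (y := 2 * m + 2 * h + 3) ?_ (by omega) hX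
  exact T.rule (k1 := 5) (x1 := 2 * m + 2 * h + 2) (y1 := 2 * m + 2 * h + 2)
    ⟨by omega, by omega, by omega⟩ ⟨by omega, by omega, by omega, by omega, by omega⟩
    c (fun h' => c (T.sym h')) (T.ev (by omega)) (fun h' => T.kill h' (by omega) hX)
    d (fun h' => d (T.sym h')) (T.e5z hL)

/-- Row `6`: no `X` in line `n + 1`. -/
theorem Tip0.XS6 (T : Tip0 g h m) (hL : ¬ g 4 (2 * m + 2 * h + 1) (2 * m + 2 * h)) :
    ∀ t : ℕ, t + 1 ≤ h → ¬ g 6 (2 * (m + h + 2 + t)) (2 * m + 2 * h + 3) := by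
  have h2 := T.hh
  have h3 := T.hm
  intro t
  induction t with
  | zero =>
    intro _
    have e : 2 * (m + h + 2 + 0) = 2 * m + 2 * h + 4 := by omega
    rw [e]; exact T.S6 hL
  | succ t ih =>
    intro ht hX
    have h4 := ih (by omega)
    have c1 := T.C4 (i := m + h + 2 + t) (j := m + h + 1) (by omega) (by omega) (by omega)
    have c2 := T.C4 (i := m + h + 2 + t - 1) (j := m + h + 1) (by omega) (by omega) (by omega)
    refine T.kill (k := 6) (x := 2 * (m + h + 2 + t) + 1) (y := 2 * m + 2 * h + 3) ?_ (by omega) hX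
    exact T.rule (k1 := 5) (x1 := 2 * (m + h + 2 + t)) (y1 := 2 * m + 2 * h + 2)
      ⟨by omega, by omega, by omega⟩ ⟨by omega, by omega, by omega, by omega, by omega⟩
      (fun h' => T.kill h' (by omega) hX) h4 (T.ev (by omega))
      (T.kill c1 (by omega)) (T.kill c1 (by omega)) (T.kill c2 (by omega)) (T.kill c2 (by omega))

/-- Row `6`: the line `n + 1` is empty. -/
theorem Tip0.OS6 (T : Tip0 g h m) (hL : ¬ g 4 (2 * m + 2 * h + 1) (2 * m + 2 * h)) {i : ℕ}
    (h1 : m + h + 2 ≤ i) (h2 : i ≤ m + 2 * h) : g 6 (2 * i + 1) (2 * m + 2 * h + 3) := by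
  have h3 := T.hh
  have h4 := T.hm
  have a := T.XS6 hL (i - (m + h + 2)) (by omega)
  have e : 2 * (m + h + 2 + (i - (m + h + 2))) = 2 * i := by omega
  rw [e] at a
  have b := T.ny6 (i := i) (j := m + h + 1) (by omega) (by omega) (by omega)
  have e2 : 2 * (m + h + 1) = 2 * m + 2 * h + 2 := by omega
  rw [e2] at b
  have c1 := T.C4 (i := i) (j := m + h + 1) (by omega) (by omega) (by omega)
  have c2 := T.C4 (i := i - 1) (j := m + h + 1) (by omega) (by omega) (by omega)
  exact T.rule (k1 := 5) (x1 := 2 * i) (y1 := 2 * m + 2 * h + 2)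
    ⟨by omega, by omega, by omega⟩ ⟨by omega, by omega, by omega, by omega, by omega⟩
    b a (T.ev (by omega))
    (T.kill c1 (by omega)) (T.kill c1 (by omega)) (T.kill c2 (by omega)) (T.kill c2 (by omega))

end Pool.Agent.SNT.Hole
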