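import Pool.Agent.SNT.BirthB

set_option autoImplicit false

/-! Birth lemma, part C: two consecutive periods.  `g` is four rows later than `G`;
`m = p + h + 2`, `n = p + 2 h + 2`, `c = p + h + 1`, `n' = p + h`. -/

namespace Pool.Agent.SNT.Hole

variable {G g : ℕ → ℕ → ℕ → Prop} {h p : ℕ}

/-- The beam in row `6` and the signal at its end. -/
theorem Tip0.beam6 {m : ℕ} (T : Tip0 g h m) (hL : ¬ g 4 (2 * m + 2 * h + 1) (2 * m + 2 * h))
    (nb : ∀ j, m + 1 ≤ j → j ≤ m + h →
      ¬ (¬ g 6 (2 * m + 2 * h + 4) (2 * j + 1) ∧ ¬ g 6 (2 * m + 2 * h + 3) (2 * j + 2) ∧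
        ¬ g 6 (2 * m + 2 * h + 3) (2 * j + 1) ∧ ¬ g 5 (2 * m + 2 * h + 4) (2 * j + 2) ∧
        ¬ g 5 (2 * m + 2 * h + 4) (2 * j + 1) ∧ ¬ g 5 (2 * m + 2 * h + 3) (2 * j + 2) ∧
        ¬ g 5 (2 * m + 2 * h + 3) (2 * j + 1))) :
    ∀ t : ℕ, t + 1 ≤ h → g 6 (2 * m + 2 * h + 3) (2 * (m + 2 + t)) := by
  have h2 := T.hh
  have h3 := T.hm
  have w := T.w5' hL
  intro t
  induction t with
  | zero =>
    intro _
    have c1 := T.C4 (i := m + h + 1) (j := m + 2) (by omega) (by omega) (by omega)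
    by_contra hcon
    have e : 2 * (m + 2 + 0) = 2 * (m + 1) + 2 := by omega
    rw [e] at hcon
    exact nb (m + 1) (by omega) (by omega)
      ⟨T.kill w (by omega), hcon, T.kill w (by omega), T.kill c1 (by omega),
        T.kill w (by omega), T.kill c1 (by omega), T.kill w (by omega)⟩
  | succ t ih =>
    intro ht
    have h4 := ih (by omega)
    have c1 := T.C4 (i := m + h + 1) (j := m + 2 + t) (by omega) (by omega) (by omega)
    have c2 := T.C4 (i := m + h + 1) (j := m + 2 + t + 1) (by omega) (by omega) (by omega)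
    by_contra hcon
    have e : 2 * (m + 2 + (t + 1)) = 2 * (m + 2 + t) + 2 := by omega
    rw [e] at hcon
    exact nb (m + 2 + t) (by omega) (by omega)
      ⟨T.kill h4 (by omega), hcon, T.kill h4 (by omega), T.kill c2 (by omega),
        T.kill c1 (by omega), T.kill c2 (by omega), T.kill c1 (by omega)⟩

/-- Two consecutive periods in front of an exact front with missing diagonal cells. -/
structure Two (G g : ℕ → ℕ → ℕ → Prop) (h p : ℕ) : Prop where
  h3 : 3 ≤ h
  T0 : Tip0 G h p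
  T1 : Tip0 g h (p + h + 2)
  L0 : ¬ G 4 (2 * p + 2 * h + 1) (2 * p + 2 * h)
  L1 : ¬ g 4 (2 * (p + h + 2) + 2 * h + 1) (2 * (p + h + 2) + 2 * h)
  ov : ∀ x y, g 2 x y ↔ G 6 x y
  R : ∀ {k x y k1 x1 y1 : ℕ}, (k = k1 + 1 ∧ x = x1 + 1 ∧ y = y1 + 1) →
    (k ≤ 6 ∧ (k % 2 = 1 ∨ x % 2 = 1 ∨ y % 2 = 1) ∧ y ≤ x ∧ x ≤ y + 2 * h + 6 ∧
      4 * (p + h + 2) + 1 + (h + 2) * k ≤ x + y + 4 * (h + 2) + 8) →
    ¬ g k x y1 → ¬ g k x1 y → ¬ g k x1 y1 → ¬ g k1 x y → ¬ g k1 x y1 → ¬ g k1 x1 y →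
    ¬ g k1 x1 y1 → g k x y

/-- Step 2: the signal runs to the left in line `m` of row `4`. -/
theorem Two.sig (W : Two G g h p)
    (hs : g 4 (2 * (p + h + 2) + 2 * h - 2) (2 * (p + h + 2) + 1)) :
    ∀ t : ℕ, t + 2 ≤ h → g 4 (2 * (p + 2 * h + 1 - t)) (2 * (p + h + 2) + 1) := by
  have h2 := W.h3
  have T0 := W.T0
  have T1 := W.T1
  intro t
  induction t with
  | zero =>
    intro _
    have e : 2 * (p + 2 * h + 1 - 0) = 2 * (p + h + 2) + 2 * h - 2 := by omega
    rw [e]; exact hs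
  | succ t ih =>
    intro ht
    have h4 := ih (by omega)
    by_contra hcon
    have os := T0.OS6 W.L0 (i := p + 2 * h + 1 - (t + 1) - 1) (by omega) (by omega)
    rw [← W.ov] at os
    refine T1.kill (k := 4) (x := 2 * (p + 2 * h + 1 - (t + 1)) + 1) (y := 2 * (p + h + 2) + 1) ?_
      (by omega) h4
    exact T1.rule (k1 := 3) (x1 := 2 * (p + 2 * h + 1 - (t + 1))) (y1 := 2 * (p + h + 2))
      ⟨by omega, by omega, by omega⟩ ⟨by omega, by omega, by omega, by omega, by omega⟩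
      (fun h' => T1.kill h' (by omega) h4) hcon (T1.ev (by omega))
      (T1.z3 (j := p + h + 2) (by omega) (by omega) (by omega) (by omega))
      (fun h' => T1.kill h' (by omega) h4)
      (T1.z3 (j := p + h + 2) (by omega) (by omega) (by omega) (by omega))
      (T1.kill os (by omega))

/-- Step 3, first part. -/
theorem Two.em (W : Two G g h p)
    (hs : g 4 (2 * (p + h + 2) + 2 * h - 2) (2 * (p + h + 2) + 1)) :
    g 3 (2 * (p + h + 2)) (2 * (p + h + 2)) := by
  have h2 := W.h3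
  have T1 := W.T1
  have h4 := W.sig hs (h - 2) (by omega)
  by_contra hcon
  have y4 : ¬ g 4 (2 * (p + h + 2) + 1) (2 * (p + h + 2)) := fun h' => T1.kill h' (by omega) h4
  have y3 : ¬ g 3 (2 * (p + h + 2) + 1) (2 * (p + h + 2)) := fun h' => T1.kill h' (by omega) h4
  refine T1.kill (k := 4) (x := 2 * (p + h + 2) + 1) (y := 2 * (p + h + 2) + 1) ?_
    (by omega) h4
  exact T1.rule (k1 := 3) (x1 := 2 * (p + h + 2)) (y1 := 2 * (p + h + 2))
    ⟨by omega, by omega, by omega⟩ ⟨by omega, by omega, by omega, by omega, by omega⟩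
    y4 (fun h' => y4 (T1.sym h')) (T1.ev (by omega)) (fun h' => T1.kill h' (by omega) h4)
    y3 (fun h' => y3 (T1.sym h')) hcon

/-- Step 3, second part: `Y(c,c)` of row `G6`. -/
theorem Two.ycc (W : Two G g h p)
    (hs : g 4 (2 * (p + h + 2) + 2 * h - 2) (2 * (p + h + 2) + 1)) :
    G 6 (2 * (p + h + 1) + 1) (2 * (p + h + 1)) := by
  have h2 := W.h3
  have T0 := W.T0
  have T1 := W.T1
  have em := W.em hs
  have c1 := T0.C4 (i := p + h + 1) (j := p + h + 1) (by omega) (by omega) (by omega)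
  have ez := T0.e5z W.L0
  have e : 2 * p + 2 * h + 2 = 2 * (p + h + 1) := by omega
  rw [e] at ez
  by_contra hcon
  have hO : G 6 (2 * (p + h + 1) + 1) (2 * (p + h + 1) + 1) :=
    T0.rule (k1 := 5) (x1 := 2 * (p + h + 1)) (y1 := 2 * (p + h + 1))
      ⟨by omega, by omega, by omega⟩ ⟨by omega, by omega, by omega, by omega, by omega⟩
      hcon (fun h' => hcon (T0.sym h')) (T0.ev (by omega)) (T0.kill c1 (by omega))
      (T0.kill c1 (by omega)) (fun h' => T0.kill c1 (by omega) (T0.sym h')) ez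
  rw [← W.ov] at hO
  exact T1.kill hO (by omega) em

/-- Step 3, third part. -/
theorem Two.sig0 (W : Two G g h p)
    (hs : g 4 (2 * (p + h + 2) + 2 * h - 2) (2 * (p + h + 2) + 1)) :
    G 4 (2 * p + 2 * h - 2) (2 * p + 1) := by
  have y := W.ycc hs
  exact W.T0.reach W.L0 (fun h' => W.T0.kill h' (by omega) y)

/-- Step 4: the beam in column `c` of row `G6`. -/
theorem Two.beamc (W : Two G g h p)
    (hs : g 4 (2 * (p + h + 2) + 2 * h - 2) (2 * (p + h + 2) + 1)) :
    ∀ t : ℕ, t + 1 ≤ h → G 6 (2 * (p + h + 1) + 1) (2 * (p + h + 1 - t)) := by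
  have h2 := W.h3
  have T0 := W.T0
  have y := W.ycc hs
  intro t
  induction t with
  | zero =>
    intro _
    have e : 2 * (p + h + 1 - 0) = 2 * (p + h + 1) := by omega
    rw [e]; exact y
  | succ t ih =>
    intro ht
    have h4 := ih (by omega)
    have c1 := T0.C4 (i := p + h + 1) (j := p + h + 1 - (t + 1)) (by omega) (by omega) (by omega)
    have o1 := T0.o0 W.L0 (j := p + h + 1 - (t + 1) - 1) (by omega) (by omega)
    have xz : ¬ G 5 (2 * (p + h + 1)) (2 * (p + h + 1 - (t + 1)) + 1) := by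
      by_cases e : t = 0
      · subst e
        exact fun h' => T0.kill h' (by omega) y
      · have o2 := T0.o0 W.L0 (j := p + h + 1 - (t + 1)) (by omega) (by omega)
        exact T0.kill o2 (by omega)
    by_contra hcon
    refine T0.kill (k := 6) (x := 2 * (p + h + 1) + 1) (y := 2 * (p + h + 1 - (t + 1)) + 1) ?_
      (by omega) h4
    exact T0.rule (k1 := 5) (x1 := 2 * (p + h + 1)) (y1 := 2 * (p + h + 1 - (t + 1)))
      ⟨by omega, by omega, by omega⟩ ⟨by omega, by omega, by omega, by omega, by omega⟩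
      hcon (fun h' => T0.kill h' (by omega) h4) (T0.ev (by omega)) (T0.kill c1 (by omega))
      (T0.kill c1 (by omega)) xz (T0.kill o1 (by omega))

theorem Two.yc (W : Two G g h p)
    (hs : g 4 (2 * (p + h + 2) + 2 * h - 2) (2 * (p + h + 2) + 1)) {j : ℕ} (h1 : p + 2 ≤ j)
    (h2 : j ≤ p + h + 1) : G 6 (2 * (p + h + 1) + 1) (2 * j) := by
  have h3 := W.beamc hs (p + h + 1 - j) (by omega)
  have e : p + h + 1 - (p + h + 1 - j) = j := by omega
  rwa [e] at h3

/-- Step 4: no `X` in the lines below `m` of row `G6`. -/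
theorem Two.x6 (W : Two G g h p)
    (hs : g 4 (2 * (p + h + 2) + 2 * h - 2) (2 * (p + h + 2) + 1)) {j : ℕ} (h1 : p + 2 ≤ j)
    (h2 : j ≤ p + h + 1) :
    ∀ t : ℕ, p + h + 1 + t ≤ j + h → ¬ G 6 (2 * (p + h + 2 + t)) (2 * j + 1) := by
  have h3 := W.h3
  have T0 := W.T0
  intro t
  induction t with
  | zero =>
    intro _
    have y := W.yc hs h1 h2
    exact T0.kill y (by omega)
  | succ t ih =>
    intro ht hX
    have h4 := ih (by omega)
    have c2 := T0.C4 (i := p + h + 1 + t) (j := j) (by omega) (by omega) (by omega)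
    refine T0.kill (k := 6) (x := 2 * (p + h + 2 + t) + 1) (y := 2 * j + 1) ?_ (by omega) hX
    exact T0.rule (k1 := 5) (x1 := 2 * (p + h + 2 + t)) (y1 := 2 * j)
      ⟨by omega, by omega, by omega⟩ ⟨by omega, by omega, by omega, by omega, by omega⟩
      (fun h' => T0.kill h' (by omega) hX) h4 (T0.ev (by omega))
      (fun h' => T0.kill h' (by omega) hX) (fun h' => T0.kill h' (by omega) hX)
      (T0.kill c2 (by omega)) (T0.kill c2 (by omega))

theorem Two.nx6 (W : Two G g h p)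
    (hs : g 4 (2 * (p + h + 2) + 2 * h - 2) (2 * (p + h + 2) + 1)) {i j : ℕ} (h0 : p + h + 2 ≤ i)
    (h1 : p + 2 ≤ j) (h2 : j ≤ p + h + 1) (h3 : i ≤ j + h + 1) : ¬ G 6 (2 * i) (2 * j + 1) := by
  have h4 := W.x6 hs h1 h2 (i - (p + h + 2)) (by omega)
  have e : p + h + 2 + (i - (p + h + 2)) = i := by omega
  rwa [e] at h4

theorem Two.o6 (W : Two G g h p)
    (hs : g 4 (2 * (p + h + 2) + 2 * h - 2) (2 * (p + h + 2) + 1)) {i j : ℕ} (h0 : p + h + 2 ≤ i)
    (h2 : j ≤ p + h + 1) (h3 : i + 1 ≤ j + h) : G 6 (2 * i + 1) (2 * j + 1) := by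
  have h4 := W.h3
  have T0 := W.T0
  have a := W.nx6 hs (i := i) (j := j) (by omega) (by omega) (by omega) (by omega)
  have b := T0.ny6 (i := i) (j := j) (by omega) (by omega) (by omega)
  have c1 := T0.C4 (i := i) (j := j) (by omega) (by omega) (by omega)
  have c2 := T0.C4 (i := i - 1) (j := j) (by omega) (by omega) (by omega)
  exact T0.rule (k1 := 5) (x1 := 2 * i) (y1 := 2 * j)
    ⟨by omega, by omega, by omega⟩ ⟨by omega, by omega, by omega, by omega, by omega⟩
    b a (T0.ev (by omega))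
    (T0.kill c1 (by omega)) (T0.kill c1 (by omega)) (T0.kill c2 (by omega)) (T0.kill c2 (by omega))

/-- Step 5. -/
theorem Two.yp (W : Two G g h p)
    (hs : g 4 (2 * (p + h + 2) + 2 * h - 2) (2 * (p + h + 2) + 1)) :
    g 3 (2 * (p + 2 * h) + 1) (2 * (p + h + 1)) := by
  have h2 := W.h3
  have T0 := W.T0
  have T1 := W.T1
  have o5 := T0.O5 (j := p + h) (by omega)
  have y6 := T0.Y6 (j := p + h) (by omega)
  have a := W.nx6 hs (i := p + 2 * h) (j := p + h) (by omega) (by omega) (by omega) (by omega)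
  have b := T0.ny6 (i := p + 2 * h) (j := p + h + 1) (by omega) (by omega) (by omega)
  have c := W.o6 hs (i := p + 2 * h - 1) (j := p + h) (by omega) (by omega) (by omega)
  have d : ¬ G 6 (2 * (p + 2 * h) + 1) (2 * (p + h) + 1) := T0.kill o5 (by omega)
  rw [← W.ov] at y6 a b c d
  exact W.R (k1 := 2) (x1 := 2 * (p + 2 * h)) (y1 := 2 * (p + h) + 1)
    ⟨by omega, by omega, by omega⟩ ⟨by omega, by omega, by omega, by omega, by omega⟩
    (T1.kill y6 (by omega)) (T1.kill c (by omega)) (T1.kill c (by omega))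
    b d (T1.ev (by omega)) a

/-- Step 6: `X(n-2,m-1)` of row `4`. -/
theorem Two.xn (W : Two G g h p)
    (hs : g 4 (2 * (p + h + 2) + 2 * h - 2) (2 * (p + h + 2) + 1)) :
    g 4 (2 * (p + 2 * h)) (2 * (p + h + 1) + 1) := by
  have h2 := W.h3
  have T0 := W.T0
  have T1 := W.T1
  have yp := W.yp hs
  have os := T0.OS6 W.L0 (i := p + 2 * h - 1) (by omega) (by omega)
  rw [← W.ov] at os
  by_contra hcon
  refine T1.kill (k := 4) (x := 2 * (p + 2 * h) + 1) (y := 2 * (p + h + 2)) ?_ (by omega) hs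
  exact W.R (k1 := 3) (x1 := 2 * (p + 2 * h)) (y1 := 2 * (p + h + 1) + 1)
    ⟨by omega, by omega, by omega⟩ ⟨by omega, by omega, by omega, by omega, by omega⟩
    (T1.kill yp (by omega)) (T1.ev (by omega)) hcon (fun h' => T1.kill h' (by omega) hs)
    (T1.kill yp (by omega)) (T1.kill os (by omega)) (T1.kill os (by omega))

/-- Step 6: the signal in line `m - 1` of row `4`. -/
theorem Two.sig1 (W : Two G g h p)
    (hs : g 4 (2 * (p + h + 2) + 2 * h - 2) (2 * (p + h + 2) + 1)) :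
    ∀ t : ℕ, t + 2 ≤ h → g 4 (2 * (p + 2 * h - t)) (2 * (p + h + 1) + 1) := by
  have h2 := W.h3
  have T0 := W.T0
  have T1 := W.T1
  intro t
  induction t with
  | zero =>
    intro _
    exact W.xn hs
  | succ t ih =>
    intro ht
    have h4 := ih (by omega)
    by_contra hcon
    have z : ¬ g 3 (2 * (p + 2 * h - (t + 1))) (2 * (p + h + 1) + 1) ∧
        ¬ g 3 (2 * (p + 2 * h - (t + 1))) (2 * (p + h + 1)) := by
      by_cases e : t + 4 ≤ h
      · have os := T0.OS6 W.L0 (i := p + 2 * h - (t + 1) - 1) (by omega) (by omega)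
        have c := W.o6 hs (i := p + 2 * h - (t + 1) - 1) (j := p + h) (by omega) (by omega)
          (by omega)
        rw [← W.ov] at os c
        exact ⟨T1.kill os (by omega), T1.kill c (by omega)⟩
      · have y := W.ycc hs
        rw [← W.ov] at y
        exact ⟨T1.kill y (by omega), T1.kill y (by omega)⟩
    refine T1.kill (k := 4) (x := 2 * (p + 2 * h - (t + 1)) + 1) (y := 2 * (p + h + 1) + 1) ?_
      (by omega) h4
    exact W.R (k1 := 3) (x1 := 2 * (p + 2 * h - (t + 1))) (y1 := 2 * (p + h + 1))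
      ⟨by omega, by omega, by omega⟩ ⟨by omega, by omega, by omega, by omega, by omega⟩
      (fun h' => T1.kill h' (by omega) h4) hcon (T1.ev (by omega))
      (fun h' => T1.kill h' (by omega) h4) (fun h' => T1.kill h' (by omega) h4) z.1 z.2

/-- Step 7: `E'(c,c)` of row `3`. -/
theorem Two.ec (W : Two G g h p)
    (hs : g 4 (2 * (p + h + 2) + 2 * h - 2) (2 * (p + h + 2) + 1)) :
    g 3 (2 * (p + h + 1)) (2 * (p + h + 1)) := by
  have h2 := W.h3
  have T1 := W.T1
  have h4 : g 4 (2 * (p + h + 2)) (2 * (p + h + 1) + 1) := by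
    have h5 := W.sig1 hs (h - 2) (by omega)
    have e : p + 2 * h - (h - 2) = p + h + 2 := by omega
    rwa [e] at h5
  by_contra hcon
  have y4 : ¬ g 4 (2 * (p + h + 1) + 1) (2 * (p + h + 1)) := fun h' => T1.kill h' (by omega) h4
  have y3 : ¬ g 3 (2 * (p + h + 1) + 1) (2 * (p + h + 1)) := fun h' => T1.kill h' (by omega) h4
  refine T1.kill (k := 4) (x := 2 * (p + h + 1) + 1) (y := 2 * (p + h + 1) + 1) ?_ (by omega) h4
  exact W.R (k1 := 3) (x1 := 2 * (p + h + 1)) (y1 := 2 * (p + h + 1))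
    ⟨by omega, by omega, by omega⟩ ⟨by omega, by omega, by omega, by omega, by omega⟩
    y4 (fun h' => y4 (T1.sym h')) (T1.ev (by omega)) (fun h' => T1.kill h' (by omega) h4)
    y3 (fun h' => y3 (T1.sym h')) hcon

/-- Step 8: one step down in column `n'` of row `G6`. -/
theorem Two.down1 (W : Two G g h p)
    (hs : g 4 (2 * (p + h + 2) + 2 * h - 2) (2 * (p + h + 2) + 1)) {j : ℕ} (h1 : p + 1 ≤ j)
    (h2 : j + 1 ≤ p + h) (ho : ¬ G 6 (2 * (p + h) + 1) (2 * j + 1)) :
    G 6 (2 * (p + h) + 1) (2 * j) := by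
  have h3 := W.h3
  have T0 := W.T0
  have y := W.yc hs (j := j + 1) (by omega) (by omega)
  have o1 := T0.o0 W.L0 (j := j) (by omega) (by omega)
  have o2 := T0.o0 W.L0 (j := j - 1) (by omega) (by omega)
  by_contra hcon
  refine T0.kill (k := 6) (x := 2 * (p + h) + 2) (y := 2 * j + 1) ?_ (by omega) y
  exact T0.rule (k1 := 5) (x1 := 2 * (p + h) + 1) (y1 := 2 * j)
    ⟨by omega, by omega, by omega⟩ ⟨by omega, by omega, by omega, by omega, by omega⟩
    (T0.ev (by omega)) ho hcon (T0.kill o1 (by omega)) (T0.kill o2 (by omega))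
    (T0.kill o1 (by omega)) (T0.kill o2 (by omega))

/-- Step 8: down to line `m' + 1`. -/
theorem Two.down (W : Two G g h p)
    (hs : g 4 (2 * (p + h + 2) + 2 * h - 2) (2 * (p + h + 2) + 1))
    (hy : G 6 (2 * (p + h) + 1) (2 * (p + h - 1))) :
    ∀ t : ℕ, t + 2 ≤ h → G 6 (2 * (p + h) + 1) (2 * (p + h - 1 - t)) := by
  have h3 := W.h3
  have T0 := W.T0
  intro t
  induction t with
  | zero =>
    intro _
    have e : p + h - 1 - 0 = p + h - 1 := by omega
    rw [e]; exact hy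
  | succ t ih =>
    intro ht
    have h4 := ih (by omega)
    exact W.down1 hs (by omega) (by omega) (fun h' => T0.kill h' (by omega) h4)

/-- Step 9: contradiction from `Y(n',n'-1)`. -/
theorem Two.fin (W : Two G g h p)
    (hs : g 4 (2 * (p + h + 2) + 2 * h - 2) (2 * (p + h + 2) + 1))
    (hy : G 6 (2 * (p + h) + 1) (2 * (p + h - 1))) : False := by
  have h3 := W.h3
  have T0 := W.T0
  have s0 := W.sig0 hs
  have y : G 6 (2 * (p + h) + 1) (2 * (p + 1)) := by
    have h5 := W.down hs hy (h - 2) (by omega)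
    have e : p + h - 1 - (h - 2) = p + 1 := by omega
    rwa [e] at h5
  refine T0.kill (k := 5) (x := 2 * p + 2 * h) (y := 2 * p + 2) ?_ (by omega) y
  exact T0.rule (k1 := 4) (x1 := 2 * p + 2 * h - 1) (y1 := 2 * p + 1)
    ⟨by omega, by omega, by omega⟩ ⟨by omega, by omega, by omega, by omega, by omega⟩
    (fun h' => T0.kill h' (by omega) y) (T0.kill s0 (by omega)) (T0.kill s0 (by omega))
    (T0.ev (by omega)) T0.xe (T0.kill s0 (by omega)) (T0.kill s0 (by omega))

/-- No `X` signal reaches column `n - 1` in line `m` of row `4`. -/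
theorem Two.noreach (W : Two G g h p) :
    ¬ g 4 (2 * (p + h + 2) + 2 * h - 2) (2 * (p + h + 2) + 1) := by
  intro hs
  have h3 := W.h3
  have T0 := W.T0
  have T1 := W.T1
  have ec := W.ec hs
  -- `Y(n',n'-1)` of row `G6`
  apply W.fin hs
  have key : ¬ G 6 (2 * (p + h) + 1) (2 * (p + h - 1) + 1) → G 6 (2 * (p + h) + 1) (2 * (p + h - 1)) :=
    fun ho => W.down1 hs (by omega) (by omega) ho
  apply key
  by_cases hy : G 6 (2 * (p + h) + 1) (2 * (p + h))
  · exact fun h' => T0.kill h' (by omega) hy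
  · intro ho
    rw [← W.ov] at hy ho
    have x3 : ¬ g 3 (2 * (p + h + 1)) (2 * (p + h) + 1) := fun h' => T1.kill h' (by omega) ec
    apply x3
    exact W.R (k1 := 2) (x1 := 2 * (p + h) + 1) (y1 := 2 * (p + h))
      ⟨by omega, by omega, by omega⟩ ⟨by omega, by omega, by omega, by omega, by omega⟩
      (T1.kill ho (by omega)) (fun h' => T1.kill h' (by omega) ec) (T1.kill ho (by omega))
      (fun h' => T1.kill h' (by omega) ec) (T1.ev (by omega))
      (fun h' => T1.kill h' (by omega) ec) hy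

/-- **Birth lemma (abstract form).** -/
theorem Two.birth (W : Two G g h p)
    (nb : ∀ j, p + h + 2 + 1 ≤ j → j ≤ p + h + 2 + h →
      ¬ (¬ g 6 (2 * (p + h + 2) + 2 * h + 4) (2 * j + 1) ∧
        ¬ g 6 (2 * (p + h + 2) + 2 * h + 3) (2 * j + 2) ∧
        ¬ g 6 (2 * (p + h + 2) + 2 * h + 3) (2 * j + 1) ∧
        ¬ g 5 (2 * (p + h + 2) + 2 * h + 4) (2 * j + 2) ∧
        ¬ g 5 (2 * (p + h + 2) + 2 * h + 4) (2 * j + 1) ∧
        ¬ g 5 (2 * (p + h + 2) + 2 * h + 3) (2 * j + 2) ∧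
        ¬ g 5 (2 * (p + h + 2) + 2 * h + 3) (2 * j + 1))) : False := by
  have h3 := W.h3
  have T1 := W.T1
  apply W.noreach
  apply T1.reach W.L1
  have y := T1.beam6 W.L1 nb (h - 1) (by omega)
  have e : 2 * (p + h + 2 + 2 + (h - 1)) = 2 * (p + h + 2) + 2 * h + 2 := by omega
  rw [e] at y
  exact fun h' => T1.kill h' (by omega) y

end Pool.Agent.SNT.Hole
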