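import Pool.Agent.SNT.HoleE
import Pool.Agent.SNT.BirthC

set_option autoImplicit false

/-! Birth lemma, part D: the four counter rule. -/

namespace Pool.Agent.SNT

variable {f : ℕ → ℕ → ℕ → ℕ → Prop}

/-- One period of an exact front of the even layer `A` (`h = A / 6`): `b` is an IN row
(`(A + b) % 4 = 2`) and `(2 n + 1, 2 n)` is the leading missing cell. -/
structure FPer (f : ℕ → ℕ → ℕ → ℕ → Prop) (A b n : ℕ) : Prop where
  tip : ¬ f A b (2 * n + 1) (2 * n)
  s0 : ∀ x y : ℕ, y ≤ x → 2 * n + 2 ≤ x → (x < y + 2 * (A / 6) ∨ 2 * n + 3 ≤ x) →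
    (f A b x y ↔ Fst A b x y)
  s1 : ∀ x y : ℕ, y ≤ x → 2 * n + 3 ≤ x → (x < y + 2 * (A / 6) ∨ 2 * n + 5 ≤ x) →
    (f A (b + 1) x y ↔ Fst A (b + 1) x y)
  s2 : ∀ x y : ℕ, y ≤ x → (x < y + 2 * (A / 6) ∧ 2 * n + 4 ≤ y ∨
    y + 2 * (A / 6) ≤ x ∧ 2 * n + 7 ≤ x) → (f A (b + 2) x y ↔ Fst A (b + 2) x y)
  s3 : ∀ x y : ℕ, y ≤ x → (x < y + 2 * (A / 6) ∧ 2 * n + 6 ≤ y ∨
    y + 2 * (A / 6) ≤ x ∧ 2 * n + 2 * (A / 6) + 5 ≤ x) → (f A (b + 3) x y ↔ Fst A (b + 3) x y)
  low : ∀ r x y : ℕ, r ≤ 3 → y ≤ x → x ≤ y + 2 * (A / 6) + 8 → 2 * n ≤ x + 2 * (A / 6) + 8 →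
    ¬ f (A - 1) (b + r) x y

namespace Hole

/-- The rule of layer `a` where the layer `a - 1` is zero. -/
theorem rule_gen (hf : Rule f) {a b x y b1 x1 y1 : ℕ} (e : b = b1 + 1 ∧ x = x1 + 1 ∧ y = y1 + 1)
    (ho : b % 2 = 1 ∨ x % 2 = 1 ∨ y % 2 = 1)
    (P : ∀ q r s : ℕ, q ≤ 1 → r ≤ 1 → s ≤ 1 → ¬ f (a - 1) (b1 + 1 - q) (x1 + 1 - r) (y1 + 1 - s))
    (g1 : ¬ f a b x y1) (g2 : ¬ f a b x1 y) (g3 : ¬ f a b x1 y1) (g4 : ¬ f a b1 x y)
    (g5 : ¬ f a b1 x y1) (g6 : ¬ f a b1 x1 y) (g7 : ¬ f a b1 x1 y1) : f a b x y := by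
  obtain ⟨rfl, rfl, rfl⟩ := e
  rw [hf]
  refine ⟨by omega, ?_⟩
  intro p q r s hp hq hr hs hsum hpa hqb hrx hsy
  have ep : p = 0 ∨ p = 1 := by omega
  rcases ep with rfl | rfl
  · have eq : q = 0 ∨ q = 1 := by omega
    have er : r = 0 ∨ r = 1 := by omega
    have es : s = 0 ∨ s = 1 := by omega
    rcases eq with rfl | rfl <;> rcases er with rfl | rfl <;> rcases es with rfl | rfl
    · exact absurd hsum (by omega)
    · exact g1
    · exact g2
    · exact g3
    · exact g4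
    · exact g5
    · exact g6
    · exact g7
  · exact P q r s hq hr hs

/-- Independence. -/
theorem kill_gen (hf : Rule f) {a b x y a' b' x' y' : ℕ} (h : f a b x y)
    (h1 : a ≤ a' ∧ a' ≤ a + 1 ∧ b ≤ b' ∧ b' ≤ b + 1 ∧ x ≤ x' ∧ x' ≤ x + 1 ∧ y ≤ y' ∧ y' ≤ y + 1 ∧
      a + b + x + y < a' + b' + x' + y') : ¬ f a' b' x' y' := by
  have h2 := hf.up h (p := a' - a) (q := b' - b) (r := x' - x) (s := y' - y) (by omega) (by omega)
    (by omega) (by omega) (by omega)
  have e0 : a + (a' - a) = a' := by omega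
  have e1 : b + (b' - b) = b' := by omega
  have e2 : x + (x' - x) = x' := by omega
  have e3 : y + (y' - y) = y' := by omega
  rw [e0, e1, e2, e3] at h2
  exact h2

theorem tip0_of (hf : Rule f) {a c h m : ℕ} (ha : a % 2 = 0) (hh : h = a / 6) (h2 : 2 ≤ h)
    (hm : 4 ≤ m) (hc : c % 2 = 0) (hac : (a + c) % 4 = 2) (hb : a + 20 ≤ c)
    (st : ∀ k x y : ℕ, k ≤ 6 → y + (1 - k) ≤ x → x ≤ y + 2 * h + 8 →
      4 * m + 4 * h + 1 + (h + 2) * k < x + y + 4 * (h + 2) →
      (f a (c + k) x y ↔ Fst a (c + k) x y))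
    (pm : ∀ k x y : ℕ, k ≤ 6 → y ≤ x + 1 → x ≤ y + 2 * h + 8 →
      4 * m + (h + 2) * k ≤ x + y + 1 + 4 * (h + 2) → ¬ f (a - 1) (c + k) x y) :
    Tip0 (fun k x y => f a (c + k) x y) h m where
  hh := h2
  hm := hm
  kill := by
    intro k x y k' x' y' hg hn
    exact kill_gen hf hg ⟨by omega, by omega, by omega, by omega, by omega, by omega, by omega,
      by omega, by omega⟩
  ev := by
    intro k x y he hg
    exact hf.not_allEven hg ⟨ha, by omega, he.2.1, he.2.2⟩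
  sym := by
    intro k x y hg
    exact (hf.swap_xy _ _ _ _).1 hg
  rule := by
    intro k x y k1 x1 y1 e hz g1 g2 g3 g4 g5 g6 g7
    obtain ⟨rfl, rfl, rfl⟩ := e
    obtain ⟨z1, z2, z3, z4, z5⟩ := hz
    have hk : (h + 2) * (k1 + 1) = (h + 2) * k1 + (h + 2) := by ring
    refine rule_gen (b1 := c + k1) (x1 := x1) (y1 := y1) hf ⟨by omega, rfl, rfl⟩ (by omega) ?_
      g1 g2 g3 g4 g5 g6 g7
    intro q r s hq hr hs
    have e0 : c + k1 + 1 - q = c + (k1 + 1 - q) := by omega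
    rw [e0]
    have hq2 : q = 0 ∨ q = 1 := by omega
    rcases hq2 with rfl | rfl
    · have e0 : k1 + 1 - 0 = k1 + 1 := by omega
      rw [e0]
      exact pm _ _ _ (by omega) (by omega) (by omega) (by omega)
    · have e0 : k1 + 1 - 1 = k1 := by omega
      rw [e0]
      exact pm _ _ _ (by omega) (by omega) (by omega) (by omega)
  st := by
    intro k x y hz
    obtain ⟨z1, z2, z3, z4⟩ := hz
    subst hh
    rw [← fst_iff_Fx ha hc hac (by omega) hb (by omega) z3]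
    exact st k x y z1 z2 z3 z4

/-- Level form of the static region, rows `0 … 3` of one period.  The cell `(2 n + 1, 2 n + 1)` of
row `0` is excluded. -/
theorem _root_.Pool.Agent.SNT.FPer.lev {A b n : ℕ} (P : FPer f A b n) (h2 : 3 ≤ A / 6) {r x y : ℕ}
    (hr : r ≤ 3) (hyx : y ≤ x) (hx : r = 0 → y < x)
    (hl : 4 * n + 1 + (A / 6 + 2) * r < x + y) : f A (b + r) x y ↔ Fst A (b + r) x y := by
  have e : r = 0 ∨ r = 1 ∨ r = 2 ∨ r = 3 := by omega
  rcases e with rfl | rfl | rfl | rfl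
  · exact P.s0 x y hyx (by omega) (by omega)
  · exact P.s1 x y hyx (by omega) (by omega)
  · exact P.s2 x y hyx (by omega)
  · exact P.s3 x y hyx (by omega)

/-- The cell `(2 n + 1, 2 n + 1)` of row `0` is zero. -/
theorem diag0 (hf : Rule f) {A b n : ℕ} (hA : A % 2 = 0) (hb : (A + b) % 4 = 2)
    (hb2 : A + 20 ≤ b) (h2 : 3 ≤ A / 6) (P : FPer f A b n) :
    ¬ f A (b + 4) (2 * (n + A / 6 + 2) + 1) (2 * (n + A / 6 + 2) + 1) := by
  have h3 : f A (b + 3) (2 * (n + A / 6 + 2) + 1) (2 * (n + A / 6 + 2) + 1) := by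
    rw [P.s3 _ _ le_rfl (by omega), fst_iff_Fx hA (by omega) hb (by omega) hb2 le_rfl (by omega)]
    unfold Fx
    omega
  exact kill_gen hf h3 (by omega)


/-- The layer below is zero, level form. -/
theorem low_lev (hf : Rule f) {A b n : ℕ} (P0 : FPer f A b n)
    (P1 : FPer f A (b + 4) (n + A / 6 + 2)) (P2 : FPer f A (b + 8) (n + 2 * (A / 6) + 4))
    {j x y : ℕ} (hj : j ≤ 11) (hyx : y ≤ x + 1) (hd : x ≤ y + 2 * (A / 6) + 8)
    (hl : 4 * n + (A / 6 + 2) * j ≤ x + y + 4 * (A / 6) + 9) : ¬ f (A - 1) (b + j) x y := by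
  have key : ∀ u v : ℕ, v ≤ u → u ≤ v + 2 * (A / 6) + 8 →
      4 * n + (A / 6 + 2) * j ≤ u + v + 4 * (A / 6) + 9 → ¬ f (A - 1) (b + j) u v := by
    intro u v h1 h2 h3
    have e : (∃ r, r ≤ 3 ∧ j = r) ∨ (∃ r, r ≤ 3 ∧ j = 4 + r) ∨ (∃ r, r ≤ 3 ∧ j = 8 + r) := by
      rcases Nat.lt_or_ge j 4 with h4 | h4
      · exact Or.inl ⟨j, by omega, rfl⟩
      · rcases Nat.lt_or_ge j 8 with h5 | h5
        · exact Or.inr (Or.inl ⟨j - 4, by omega, by omega⟩)
        · exact Or.inr (Or.inr ⟨j - 8, by omega, by omega⟩)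
    rcases e with ⟨r, hr, rfl⟩ | ⟨r, hr, rfl⟩ | ⟨r, hr, rfl⟩
    · refine P0.low _ u v hr h1 h2 ?_
      have := Nat.zero_le ((A / 6 + 2) * j)
      omega
    · have e2 : b + (4 + r) = b + 4 + r := by ring
      rw [e2]
      refine P1.low r u v hr h1 h2 ?_
      have e3 : (A / 6 + 2) * (4 + r) = 4 * (A / 6) + 8 + (A / 6 + 2) * r := by ring
      have := Nat.zero_le ((A / 6 + 2) * r)
      omega
    · have e2 : b + (8 + r) = b + 8 + r := by ring
      rw [e2]
      refine P2.low r u v hr h1 h2 ?_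
      have e3 : (A / 6 + 2) * (8 + r) = 8 * (A / 6) + 16 + (A / 6 + 2) * r := by ring
      have := Nat.zero_le ((A / 6 + 2) * r)
      omega
  rcases Nat.lt_or_ge x y with h1 | h1
  · rw [hf.swap_xy]
    exact key y x (by omega) (by omega) (by omega)
  · exact key x y h1 hd hl

/-- Two periods of the front of layer `A` give the abstract structure. -/
theorem _root_.Pool.Agent.SNT.two_of_per (hf : Rule f) {A b n : ℕ} (hA : A % 2 = 0)
    (hb : (A + b) % 4 = 2) (hb2 : A + 20 ≤ b) (h2 : 3 ≤ A / 6) (hn : 2 ≤ n) (P0 : FPer f A b n)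
    (P1 : FPer f A (b + 4) (n + A / 6 + 2)) (P2 : FPer f A (b + 8) (n + 2 * (A / 6) + 4)) :
    Two (fun k x y => f A (b + k) x y) (fun k x y => f A (b + 4 + k) x y) (A / 6) (n + 2) where
  h3 := h2
  T0 := by
    refine tip0_of hf hA rfl (by omega) (by omega) (by omega) hb hb2 ?_ ?_
    · intro k x y hk hyx hd hl
      rcases Nat.lt_or_ge k 4 with hk4 | hk4
      · refine P0.lev h2 (by omega) (by omega) (by omega) ?_
        ring_nf at hl ⊢
        omega
      · by_cases hdg : k = 4 ∧ x = y ∧ x = 2 * (n + A / 6 + 2) + 1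
        · obtain ⟨rfl, rfl, rfl⟩ := hdg
          refine iff_of_false (diag0 hf hA hb hb2 h2 P0) ?_
          rw [fst_iff_Fx hA (by omega) hb (by omega) hb2 le_rfl (by omega)]
          unfold Fx
          omega
        · obtain ⟨r, rfl⟩ : ∃ r, k = 4 + r := ⟨k - 4, by omega⟩
          have e : b + (4 + r) = b + 4 + r := by ring
          rw [e]
          by_cases hr0 : r = 0 ∧ x = y
          · obtain ⟨rfl, rfl⟩ := hr0
            exact P1.s0 x x le_rfl (by omega) (by omega)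
          · refine P1.lev h2 (by omega) (by omega) (by omega) ?_
            ring_nf at hl ⊢
            omega
    · intro k x y hk hyx hd hl
      exact low_lev hf P0 P1 P2 (by omega) hyx hd (by omega)
  T1 := by
    refine tip0_of hf hA rfl (by omega) (by omega) (by omega) (by omega) (by omega) ?_ ?_
    · intro k x y hk hyx hd hl
      rcases Nat.lt_or_ge k 4 with hk4 | hk4
      · refine P1.lev h2 (by omega) (by omega) (by omega) ?_
        ring_nf at hl ⊢
        omega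
      · by_cases hdg : k = 4 ∧ x = y ∧ x = 2 * (n + A / 6 + 2 + A / 6 + 2) + 1
        · obtain ⟨rfl, rfl, rfl⟩ := hdg
          refine iff_of_false (diag0 hf hA (by omega) (by omega) h2 P1) ?_
          rw [fst_iff_Fx hA (by omega) (c := b + 4) (by omega) (by omega) (by omega) le_rfl
            (by omega)]
          unfold Fx
          omega
        · obtain ⟨r, rfl⟩ : ∃ r, k = 4 + r := ⟨k - 4, by omega⟩
          have e : b + 4 + (4 + r) = b + 8 + r := by ring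
          rw [e]
          by_cases hr0 : r = 0 ∧ x = y
          · obtain ⟨rfl, rfl⟩ := hr0
            exact P2.s0 x x le_rfl (by omega) (by omega)
          · refine P2.lev h2 (by omega) (by omega) (by omega) ?_
            ring_nf at hl ⊢
            omega
    · intro k x y hk hyx hd hl
      have e : b + 4 + k = b + (4 + k) := by ring
      rw [e]
      refine low_lev hf P0 P1 P2 (by omega) hyx hd ?_
      have e3 : (A / 6 + 2) * (4 + k) = 4 * (A / 6) + 8 + (A / 6 + 2) * k := by ring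
      omega
  L0 := by
    have h3 := P1.tip
    have e : 2 * (n + 2) + 2 * (A / 6) = 2 * (n + A / 6 + 2) := by ring
    rw [e]
    exact h3
  L1 := by
    have h3 := P2.tip
    have e : 2 * (n + 2 + A / 6 + 2) + 2 * (A / 6) = 2 * (n + 2 * (A / 6) + 4) := by ring
    rw [e]
    exact h3
  ov := by
    intro x y
    exact Iff.rfl
  R := by
    intro k x y k1 x1 y1 e hz g1 g2 g3 g4 g5 g6 g7
    obtain ⟨rfl, rfl, rfl⟩ := e
    obtain ⟨z1, z2, z3, z4, z5⟩ := hz
    have hk : (A / 6 + 2) * (k1 + 1) = (A / 6 + 2) * k1 + (A / 6 + 2) := by ring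
    have hk4 : (A / 6 + 2) * (4 + (k1 + 1)) = (A / 6 + 2) * (k1 + 1) + 4 * (A / 6) + 8 := by ring
    have hk5 : (A / 6 + 2) * (4 + k1) = (A / 6 + 2) * k1 + 4 * (A / 6) + 8 := by ring
    refine rule_gen (b1 := b + 4 + k1) (x1 := x1) (y1 := y1) hf ⟨by omega, rfl, rfl⟩ (by omega) ?_
      g1 g2 g3 g4 g5 g6 g7
    intro q r s hq hr hs
    have hq2 : q = 0 ∨ q = 1 := by omega
    rcases hq2 with rfl | rfl
    · have e0 : b + 4 + k1 + 1 - 0 = b + (4 + (k1 + 1)) := by omega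
      rw [e0]
      exact low_lev hf P0 P1 P2 (by omega) (by omega) (by omega) (by omega)
    · have e0 : b + 4 + k1 + 1 - 1 = b + (4 + k1) := by omega
      rw [e0]
      exact low_lev hf P0 P1 P2 (by omega) (by omega) (by omega) (by omega)

end Hole

open Hole

/-- In front of an exact front no `X` signal reaches column `n - 1` (`n` the lead of the last of
three consecutive periods). -/
theorem noreach_of_per (hf : Rule f) {A b n : ℕ} (hA : A % 2 = 0) (hb : (A + b) % 4 = 2)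
    (hb2 : A + 20 ≤ b) (h2 : 3 ≤ A / 6) (hn : 2 ≤ n) (P0 : FPer f A b n)
    (P1 : FPer f A (b + 4) (n + A / 6 + 2)) (P2 : FPer f A (b + 8) (n + 2 * (A / 6) + 4)) :
    ¬ f A (b + 8) (2 * (n + 2 * (A / 6) + 4) - 2) (2 * (n + A / 6 + 4) + 1) := by
  have W := two_of_per hf hA hb hb2 h2 hn P0 P1 P2
  have h3 := W.noreach
  have e1 : 2 * (n + 2 + A / 6 + 2) + 2 * (A / 6) - 2 = 2 * (n + 2 * (A / 6) + 4) - 2 := by omega
  have e2 : 2 * (n + 2 + A / 6 + 2) + 1 = 2 * (n + A / 6 + 4) + 1 := by ring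
  rw [e1, e2] at h3
  exact h3

/-- A not all even cell near which the layer `A - 1` is zero is dominated by the layer `A`. -/
theorem dom_up (hf : Rule f) {A b x y : ℕ} (hA : 1 ≤ A) (ho : b % 2 = 1 ∨ x % 2 = 1 ∨ y % 2 = 1)
    (hP : ∀ q r s : ℕ, q ≤ 1 → r ≤ 1 → s ≤ 1 → q ≤ b → r ≤ x → s ≤ y →
      ¬ f (A - 1) (b - q) (x - r) (y - s)) : ¬ f (A + 1) b x y := by
  intro h
  by_cases hg : f A b x y
  · exact kill_gen hf hg (by omega) h
  · obtain ⟨p, q, r, s, hp, hq, hr, hs, hsum, hpa, hqb, hrx, hsy, h1⟩ :=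
      hf.exists_pred (by omega) hg
    have ep : p = 0 ∨ p = 1 := by omega
    rcases ep with rfl | rfl
    · exact kill_gen hf h1 (by omega) h
    · exact hP q r s hq hr hs hqb hrx hsy h1

/-- **Birth lemma.**  In every OUT row behind an exact front of an even layer `A`, `A / 6 ≥ 3`
(last of three consecutive periods, lead `n₂ = n + 2 h + 4`), there is a cell of the next layer
with value one at `(2 n₂ + 4, 2 j + 2)`, `n₂ - h + 1 ≤ j ≤ n₂`. -/
theorem birth_of_per (hf : Rule f) {A b n : ℕ} (hA : A % 2 = 0) (hb : (A + b) % 4 = 2)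
    (hb2 : A + 20 ≤ b) (h2 : 3 ≤ A / 6) (hn : 2 ≤ n) (P0 : FPer f A b n)
    (P1 : FPer f A (b + 4) (n + A / 6 + 2)) (P2 : FPer f A (b + 8) (n + 2 * (A / 6) + 4)) :
    ∃ j : ℕ, n + A / 6 + 5 ≤ j ∧ j ≤ n + 2 * (A / 6) + 4 ∧
      f (A + 1) (b + 10) (2 * (n + 2 * (A / 6) + 4) + 4) (2 * j + 2) := by
  by_contra hcon
  push Not at hcon
  have W := two_of_per hf hA hb hb2 h2 hn P0 P1 P2
  apply W.birth
  intro j hj1 hj2
  rintro ⟨g1, g2, g3, g4, g5, g6, g7⟩
  have eX : 2 * (n + 2 + A / 6 + 2) + 2 * (A / 6) + 4 = 2 * (n + 2 * (A / 6) + 4) + 4 := by ring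
  have eX1 : 2 * (n + 2 + A / 6 + 2) + 2 * (A / 6) + 3 = 2 * (n + 2 * (A / 6) + 4) + 3 := by ring
  rw [eX] at g1 g4 g5
  rw [eX1] at g2 g3 g6 g7
  apply hcon j (by omega) (by omega)
  have hlow : ∀ q r s : ℕ, q ≤ 2 → r ≤ 2 → s ≤ 2 →
      ¬ f (A - 1) (b + 10 - q) (2 * (n + 2 * (A / 6) + 4) + 4 - r) (2 * j + 2 - s) := by
    intro q r s hq hr hs
    have e0 : b + 10 - q = b + 8 + (2 - q) := by omega
    rw [e0]
    exact P2.low _ _ _ (by omega) (by omega) (by omega) (by omega)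
  have hd : ∀ q r s : ℕ, q ≤ 1 → r ≤ 1 → s ≤ 1 → 1 ≤ q + r + s →
      ¬ f (A + 1) (b + 10 - q) (2 * (n + 2 * (A / 6) + 4) + 4 - r) (2 * j + 2 - s) := by
    intro q r s hq hr hs hsum
    refine dom_up hf (by omega) (by omega) ?_
    intro q' r' s' hq' hr' hs' _ _ _
    have e0 : b + 10 - q - q' = b + 10 - (q + q') := by omega
    have e1 : 2 * (n + 2 * (A / 6) + 4) + 4 - r - r' = 2 * (n + 2 * (A / 6) + 4) + 4 - (r + r') := by
      omega
    have e2 : 2 * j + 2 - s - s' = 2 * j + 2 - (s + s') := by omega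
    rw [e0, e1, e2]
    exact hlow _ _ _ (by omega) (by omega) (by omega)
  rw [hf]
  refine ⟨by omega, ?_⟩
  intro p q r s hp hq hr hs hsum hpa hqb hrx hsy
  have ep : p = 0 ∨ p = 1 := by omega
  rcases ep with rfl | rfl
  · exact hd q r s hq hr hs (by omega)
  · have e0 : A + 1 - 1 = A := by omega
    rw [e0]
    have eq : q = 0 ∨ q = 1 := by omega
    have er : r = 0 ∨ r = 1 := by omega
    have es : s = 0 ∨ s = 1 := by omega
    rcases eq with rfl | rfl <;> rcases er with rfl | rfl <;> rcases es with rfl | rfl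
    · exact fun h' => hf.not_allEven h' ⟨hA, by omega, by omega, by omega⟩
    · exact g1
    · exact g2
    · exact g3
    · exact g4
    · exact g5
    · exact g6
    · exact g7

end Pool.Agent.SNT
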