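import Pool.Agent.SNT.BirthD

set_option autoImplicit false

/-! Birth lemma, part E: the diagonal cells behind the front in the OUT row. -/

namespace Pool.Agent.SNT

namespace Hole

variable {G g : ℕ → ℕ → ℕ → Prop} {h p : ℕ}

theorem Two.xp5 (W : Two G g h p) :
    g 5 (2 * (p + h + 2) + 2 * h + 2) (2 * (p + h + 2) + 2 * h + 1) := by
  by_contra hx
  exact W.noreach (W.T1.reach W.L1 hx)

theorem Two.y6 (W : Two G g h p) :
    ¬ g 6 (2 * (p + h + 2) + 2 * h + 3) (2 * (p + h + 2) + 2 * h + 2) :=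
  W.T1.kill W.xp5 (by omega)

theorem Two.od6 (W : Two G g h p) :
    g 6 (2 * (p + h + 2) + 2 * h + 3) (2 * (p + h + 2) + 2 * h + 3) := by
  have h3 := W.h3
  have T1 := W.T1
  have y := W.y6
  have c1 := T1.C4 (i := p + h + 2 + h + 1) (j := p + h + 2 + h + 1) (by omega) (by omega)
    (by omega)
  have ez := T1.e5z W.L1
  have y5 : ¬ g 5 (2 * (p + h + 2) + 2 * h + 3) (2 * (p + h + 2) + 2 * h + 2) :=
    T1.kill c1 (by omega)
  exact T1.rule (k1 := 5) (x1 := 2 * (p + h + 2) + 2 * h + 2) (y1 := 2 * (p + h + 2) + 2 * h + 2)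
    ⟨by omega, by omega, by omega⟩ ⟨by omega, by omega, by omega, by omega, by omega⟩
    y (fun h' => y (T1.sym h')) (T1.ev (by omega)) (T1.kill c1 (by omega))
    y5 (fun h' => y5 (T1.sym h')) ez

end Hole

open Hole

variable {f : ℕ → ℕ → ℕ → ℕ → Prop}

/-- `X'(n,n-1)` of the row after the IN row, shifted: `(2 n₂ + 2, 2 n₂ + 1)` of row `b + 9`. -/
theorem xp_of_per (hf : Rule f) {A b n : ℕ} (hA : A % 2 = 0) (hb : (A + b) % 4 = 2)
    (hb2 : A + 20 ≤ b) (h2 : 3 ≤ A / 6) (hn : 2 ≤ n) (P0 : FPer f A b n)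
    (P1 : FPer f A (b + 4) (n + A / 6 + 2)) (P2 : FPer f A (b + 8) (n + 2 * (A / 6) + 4)) :
    f A (b + 9) (2 * (n + 2 * (A / 6) + 4) + 2) (2 * (n + 2 * (A / 6) + 4) + 1) := by
  have W := two_of_per hf hA hb hb2 h2 hn P0 P1 P2
  have h3 := W.xp5
  have e1 : 2 * (n + 2 + A / 6 + 2) + 2 * (A / 6) = 2 * (n + 2 * (A / 6) + 4) := by ring
  rw [e1] at h3
  exact h3

/-- `Y(c',c')` of the OUT row is zero. -/
theorem y_of_per (hf : Rule f) {A b n : ℕ} (hA : A % 2 = 0) (hb : (A + b) % 4 = 2)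
    (hb2 : A + 20 ≤ b) (h2 : 3 ≤ A / 6) (hn : 2 ≤ n) (P0 : FPer f A b n)
    (P1 : FPer f A (b + 4) (n + A / 6 + 2)) (P2 : FPer f A (b + 8) (n + 2 * (A / 6) + 4)) :
    ¬ f A (b + 10) (2 * (n + 2 * (A / 6) + 4) + 3) (2 * (n + 2 * (A / 6) + 4) + 2) := by
  have W := two_of_per hf hA hb hb2 h2 hn P0 P1 P2
  have h3 := W.y6
  have e1 : 2 * (n + 2 + A / 6 + 2) + 2 * (A / 6) = 2 * (n + 2 * (A / 6) + 4) := by ring
  rw [e1] at h3
  exact h3

/-- `O(c',c')` of the OUT row is one. -/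
theorem o_of_per (hf : Rule f) {A b n : ℕ} (hA : A % 2 = 0) (hb : (A + b) % 4 = 2)
    (hb2 : A + 20 ≤ b) (h2 : 3 ≤ A / 6) (hn : 2 ≤ n) (P0 : FPer f A b n)
    (P1 : FPer f A (b + 4) (n + A / 6 + 2)) (P2 : FPer f A (b + 8) (n + 2 * (A / 6) + 4)) :
    f A (b + 10) (2 * (n + 2 * (A / 6) + 4) + 3) (2 * (n + 2 * (A / 6) + 4) + 3) := by
  have W := two_of_per hf hA hb hb2 h2 hn P0 P1 P2
  have h3 := W.od6
  have e1 : 2 * (n + 2 + A / 6 + 2) + 2 * (A / 6) = 2 * (n + 2 * (A / 6) + 4) := by ring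
  rw [e1] at h3
  exact h3

/-- The diagonal one at the front of the row after the OUT row. -/
theorem diag_of_per (hf : Rule f) {A b n : ℕ} (hA : A % 2 = 0) (hb : (A + b) % 4 = 2)
    (hb2 : A + 20 ≤ b) (h2 : 3 ≤ A / 6) (hn : 2 ≤ n) (P0 : FPer f A b n)
    (P1 : FPer f A (b + 4) (n + A / 6 + 2)) (P2 : FPer f A (b + 8) (n + 2 * (A / 6) + 4)) :
    f A (b + 11) (2 * (n + 2 * (A / 6) + 4) + 5) (2 * (n + 2 * (A / 6) + 4) + 5) := by
  have W := two_of_per hf hA hb hb2 h2 hn P0 P1 P2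
  have od := o_of_per hf hA hb hb2 h2 hn P0 P1 P2
  have os := W.T1.OS6 W.L1 (i := n + 2 * (A / 6) + 6) (by omega) (by omega)
  have os' : f A (b + 10) (2 * (n + 2 * (A / 6) + 4) + 5) (2 * (n + 2 * (A / 6) + 4) + 3) := by
    have e1 : 2 * (n + 2 + A / 6 + 2) + 2 * (A / 6) = 2 * (n + 2 * (A / 6) + 4) := by ring
    have e2 : 2 * (n + 2 * (A / 6) + 6) + 1 = 2 * (n + 2 * (A / 6) + 4) + 5 := by ring
    rw [e1, e2] at os
    exact os
  have xs : f A (b + 10) (2 * (n + 2 * (A / 6) + 4) + 6) (2 * (n + 2 * (A / 6) + 4) + 5) := by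
    have e : b + 10 = b + 8 + 2 := by ring
    rw [e, P2.s2 _ _ (by omega) (by omega), fst_iff_Fx hA (by omega) (by omega) (by omega)
      (by omega) (by omega) (by omega)]
    unfold Fx
    omega
  have y : ¬ f A (b + 11) (2 * (n + 2 * (A / 6) + 4) + 5) (2 * (n + 2 * (A / 6) + 4) + 4) :=
    kill_gen hf os' (by omega)
  have y' : ¬ f A (b + 10) (2 * (n + 2 * (A / 6) + 4) + 5) (2 * (n + 2 * (A / 6) + 4) + 4) :=
    fun h' => kill_gen hf h' (by omega) xs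
  refine rule_gen (b1 := b + 10) (x1 := 2 * (n + 2 * (A / 6) + 4) + 4)
    (y1 := 2 * (n + 2 * (A / 6) + 4) + 4) hf ⟨rfl, rfl, rfl⟩ (by omega) ?_
    y (fun h' => y ((hf.swap_xy _ _ _ _).1 h')) (kill_gen hf od (by omega))
    (fun h' => kill_gen hf h' (by omega) xs) y' (fun h' => y' ((hf.swap_xy _ _ _ _).1 h'))
    (fun h' => hf.not_allEven h' ⟨hA, by omega, by omega, by omega⟩)
  intro q r s hq hr hs
  have e0 : b + 10 + 1 - q = b + 8 + (3 - q) := by omega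
  rw [e0]
  rcases Nat.lt_or_ge s r with h4 | h4
  · rw [hf.swap_xy]
    exact P2.low _ _ _ (by omega) (by omega) (by omega) (by omega)
  · exact P2.low _ _ _ (by omega) (by omega) (by omega) (by omega)

end Pool.Agent.SNT
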