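import Pool.Agent.SNT.Dom

set_option autoImplicit false

/-! Domination under its short name. -/

namespace Pool.Agent.SNT

/-- Every zero of the static field which is not all even has a one among its predecessors. -/
theorem Fst_dom {a b x y : ℕ} (hx : 1 ≤ x) (hy : 1 ≤ y)
    (hne : ¬ (a % 2 = 0 ∧ b % 2 = 0 ∧ x % 2 = 0 ∧ y % 2 = 0)) (h : ¬ Fst a b x y) :
    ∃ p q r s : ℕ, p ≤ 1 ∧ q ≤ 1 ∧ r ≤ 1 ∧ s ≤ 1 ∧ 1 ≤ p + q + r + s ∧ p ≤ a ∧ q ≤ b ∧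
      Fst (a - p) (b - q) (x - r) (y - s) := Dm.Fst_dom hx hy hne h

end Pool.Agent.SNT
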