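import Pool.Agent.SNT.LimD
import Pool.Agent.SNT.DomStub

set_option autoImplicit false

/-! One row forcing (quantitative) and the limit theorem. -/

namespace Pool.Agent.SNT

variable {f : ℕ → ℕ → ℕ → ℕ → Prop}

theorem Fst_far {a b x y : ℕ} (hab : a ≤ b) (hx : a + b + y + 1 ≤ x) :
    Fst a b x y ↔ (a % 2 = 0 ∧ b % 2 = 0 ∧ y % 2 = 0 ∧ x % 2 = 1) := by
  rw [Fst_of_le hab (by omega)]
  constructor
  · intro hF
    rcases hF with hF | hF | hF | hF
    · rcases hF with hF | hF | hF | hF | hF | hF <;> omega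
    · exact absurd hF.1 (by omega)
    · unfold FF3 FT at hF
      omega
    · unfold FF4 at hF
      omega
  · rintro ⟨h1, h2, h3, h4⟩
    exact Or.inl (Or.inl ⟨h1, h2, by omega, h4, by omega⟩)

/-- A static zero whose static row predecessors are ones of `f`. -/
theorem zero_of_row_ones (hf : Rule f) {a b x y : ℕ} (hx : 1 ≤ x) (hy : 1 ≤ y)
    (h : ¬ Fst a b x y) (hls : ∀ r s, r ≤ 1 → s ≤ 1 → LS f a b (x - r) (y - s))
    (hrow : ∀ r s, r ≤ 1 → s ≤ 1 → 1 ≤ r + s → Fst a b (x - r) (y - s) →
      f a b (x - r) (y - s)) : ¬ f a b x y := by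
  intro hc
  obtain ⟨p, q, r, s, hp, hq, hr, hs, hsum, hpa, hqb, hF⟩ :=
    Fst_dom hx hy (hf.not_allEven hc) h
  have h1 := hf.down hc hp hq hr hs hsum hpa hqb (by omega) (by omega)
  rcases Nat.eq_zero_or_pos (p + q) with h0 | h0
  · have hp0 : p = 0 := by omega
    have hq0 : q = 0 := by omega
    subst hp0 hq0
    exact h1 (hrow r s hr hs (by omega) hF)
  · exact h1 ((hls r s hr hs p q hp hq h0 hpa hqb).2 hF)

/-- Zeros outside the strips. -/
theorem E0 (hf : Rule f) {a b x y : ℕ} (hab : a ≤ b) (hyx : y + 2 * (a / 6) + 3 ≤ x) (hy : 6 ≤ y)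
    (hF : ¬ Fst a b x y)
    (hls : ∀ i j, i ≤ 3 → j ≤ 5 → LS f a b (x - i) (y - j)) : ¬ f a b x y := by
  refine zero_of_row_ones hf (by omega) (by omega) hF ?_ ?_
  · intro r s hr hs
    exact hls r s (by omega) (by omega)
  · intro r s hr hs hrs h1
    rw [Fst_of_le hab (by omega)] at h1
    refine E1 hf hab (by omega) (by omega) h1 ?_ ?_
    · unfold Exc
      omega
    · intro i j hi hj
      have := hls (r + i) (s + j) (by omega) (by omega)
      rwa [← Nat.sub_sub, ← Nat.sub_sub] at this

/-- The plane `(a, b)` is static beyond `K`. -/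
def St (f : ℕ → ℕ → ℕ → ℕ → Prop) (a b K : ℕ) : Prop :=
  ∀ x y : ℕ, K < max x y → (f a b x y ↔ Fst a b x y)

theorem St.mono {a b K L : ℕ} (h : St f a b K) (hKL : K ≤ L) : St f a b L :=
  fun x y hxy => h x y (by omega)

/-- Ones outside the exceptional set. -/
theorem QF_ones (hf : Rule f) {a b K : ℕ} (hab : a ≤ b) (hK : a + b + 6 ≤ K)
    (hls : LSK f a b K) {x y : ℕ} (hyx : y ≤ x) (hx : K + 2 < x) (hne : ¬ Exc a b (x - y))
    (hF : Fst a b x y) : f a b x y := by
  rcases Nat.lt_or_ge (a + b + y) x with h1 | h1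
  · rw [hf.far a b x y h1]
    exact (Fst_far hab h1).1 hF
  · rw [Fst_of_le hab hyx] at hF
    refine E1 hf hab hyx (by omega) hF hne ?_
    intro i j hi hj
    exact hls _ _ (lt_of_lt_of_le (by omega) (le_max_left _ _))

/-- One row forcing outside the strips. -/
theorem QF_ext (hf : Rule f) {a b K : ℕ} (hab : a ≤ b) (hK : a + b + 6 ≤ K)
    (hls : LSK f a b K) {x y : ℕ} (hyx : y + 2 * (a / 6) + 3 ≤ x) (hx : K + 3 < x) :
    f a b x y ↔ Fst a b x y := by
  rcases Nat.lt_or_ge (a + b + y) x with h1 | h1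
  · rw [hf.far a b x y h1, Fst_far hab h1]
  · constructor
    · intro h
      by_contra hF
      refine E0 hf hab hyx (by omega) hF ?_ h
      intro i j hi hj
      exact hls _ _ (lt_of_lt_of_le (by omega) (le_max_left _ _))
    · intro hF
      refine QF_ones hf hab hK hls (by omega) (by omega) ?_ hF
      unfold Exc
      omega

/-- Type I strips. -/
theorem QF_typeI (hf : Rule f) {a b K d y : ℕ} (hab : a ≤ b) (ha : a % 2 = 0) (hb : b % 2 = 0)
    (h6 : 6 ≤ a) (h4 : (a + b) % 4 = 0) (hv : a = b → a % 6 = 0) (hls : LSK f a b K)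
    (hK : a + b + 6 ≤ K) (hd : d % 2 = 1) (hdS : d + 1 ≤ 2 * (a / 6)) (hy : y % 2 = 1)
    (hy1 : K + 1 < y) : f a b (y + d) y := by
  refine strip_X_one hf (S := 2 * (a / 6)) hab ha hb hls (low_O0 hab ha h6 h4 hv) ?_ ?_
    ((d - 1) / 2) d y (by omega) hdS hy hy1 (by omega)
  · intro d' hd' hdS'
    refine not_low_of_FF hab (by omega) ?_
    refine Or.inr (Or.inr (Or.inl (Or.inl ?_)))
    omega
  · intro d' x hd' hdS' hx hx1 hx2
    refine strip_Y_zero hf (T := 2 * (a / 6) - 1) hab ha hb hls (by omega)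
      (low_Ytop hab ha h6 h4 hv) ?_ ((2 * (a / 6) - 1 - d') / 2) d' x (by omega) hd' hx hx1
      (by omega)
    intro d'' h1 h2 h3
    exact open_O hab ha hb h1 (Or.inl ⟨h2, by omega⟩)

/-- Type II strips. -/
theorem QF_typeII (hf : Rule f) {a b K d x : ℕ} (hab : a ≤ b) (ha : a % 2 = 0) (hb : b % 2 = 0)
    (h6 : 6 ≤ a) (h4 : (a + b) % 4 = 2) (hls : LSK f a b K)
    (hK : a + b + 6 ≤ K) (hd : d % 2 = 1) (hdS : d + 1 ≤ 2 * (a / 6)) (hx : x % 2 = 1)
    (hx1 : K + 2 * (a / 6) + 1 < x) : f a b x (x - d) := by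
  refine strip_Y_one hf (S := 2 * (a / 6)) hab ha hb hls (by omega) (low_Ok hab ha h6 h4) ?_ ?_
    ((2 * (a / 6) - 1 - d) / 2) d x (by omega) hd hx hx1 (by omega)
  · intro d' hd' hdS'
    refine not_low_of_FF hab (by omega) ?_
    refine Or.inr (Or.inr (Or.inl (Or.inl ?_)))
    omega
  · intro d' y hd' hdS' hy hy1 hy2
    refine strip_X_zero hf (S := 2 * (a / 6)) hab ha hb hls ?_ ?_
      ((d' - 1) / 2) d' y (by omega) hdS' hy hy1 hy2
    · by_cases hm : b = a + 2 ∧ (a % 6 = 0 ∨ a % 6 = 4)
      · refine Or.inr (open_O hab ha hb (by omega) (Or.inr (Or.inr ⟨rfl, h6, ?_⟩)))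
        omega
      · exact Or.inl (low_X1 hab ha h6 (Or.inl ⟨h4, hm⟩))
    · intro d'' h1 h2 h3
      exact open_O hab ha hb h1 (Or.inl ⟨h2, by omega⟩)

/-- Vacuum strips. -/
theorem QF_vac (hf : Rule f) {a K d y : ℕ} (h6 : 6 ≤ a) (hv : a % 6 = 2 ∨ a % 6 = 4)
    (hls : LSK f a a K) (hK : a + a + 6 ≤ K) (hd : d % 2 = 0) (hdS : d ≤ 2 * (a / 6))
    (hF : FF a a d 1) (hy : y % 2 = 1) (hy1 : K + 1 < y) : f a a (y + d) y := by
  have ha : a % 2 = 0 := by omega
  refine strip_O_one hf (S := 2 * (a / 6)) le_rfl ha ha hls ?_ ?_ d y hd hdS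
    (not_low_of_FF le_rfl (by omega) hF) hy hy1 (by omega)
  · intro d' y' hd' hdS' hy' hy1' hy2'
    refine strip_X_zero hf (S := 2 * (a / 6)) le_rfl ha ha hls ?_ ?_
      ((d' - 1) / 2) d' y' (by omega) hdS' hy' hy1' hy2'
    · rcases hv with hv | hv
      · exact Or.inl (low_X1 le_rfl ha h6 (Or.inr ⟨rfl, hv⟩))
      · exact Or.inr (open_O le_rfl ha ha (by omega) (Or.inr (Or.inr ⟨rfl, h6, by omega⟩)))
    · intro d'' h1 h2 h3
      exact open_O le_rfl ha ha h1 (Or.inl ⟨h2, by omega⟩)
  · intro d' x hd' hdS' hx hx1 hx2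
    refine strip_Y_zero hf (T := 2 * (a / 6) + 1) le_rfl ha ha hls (by omega)
      (low_Yvac h6 hv) ?_ ((2 * (a / 6) + 1 - d') / 2) d' x (by omega) hd' hx hx1
      (by omega)
    intro d'' h1 h2 h3
    exact open_O le_rfl ha ha h1 (Or.inr (Or.inl ⟨h2, rfl, hv, by omega⟩))

/-- The ones of the static field in the vacuum strips. -/
theorem FF_vac {a d e : ℕ} (h6 : 6 ≤ a) (hv : a % 6 = 2 ∨ a % 6 = 4) (hd : d ≤ 2 * (a / 6))
    (hF : FF a a d e) : d % 2 = 0 ∧ e = 1 := by
  rcases hF with hF | hF | hF | hF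
  · rcases hF with hF | hF | hF | hF | hF | hF <;> omega
  · obtain ⟨h1, h2, h3, h4⟩ := hF
    unfold FU at h3
    rcases h3 with h3 | h3 | h3 | h3 | h3 | h3 <;> omega
  · unfold FF3 at hF
    rcases hF with hF | hF | hF | hF <;> omega
  · unfold FF4 at hF
    omega

/-- The ones of the static field in the other strips. -/
theorem FF_strip {a b d e : ℕ} (hab : a ≤ b) (ha : a % 2 = 0) (hb : b % 2 = 0)
    (hv : a = b → a % 6 = 0) (hd : d + 1 ≤ 2 * (a / 6)) (he : e ≤ 1)
    (hF : FF a b d e) : d % 2 = 1 ∧ (a + b + 2 * e) % 4 = 0 := by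
  rcases hF with hF | hF | hF | hF
  · rcases hF with hF | hF | hF | hF | hF | hF <;> omega
  · obtain ⟨h1, h2, h3, h4⟩ := hF
    unfold FU at h3
    rcases h3 with h3 | h3 | h3 | h3 | h3 | h3 <;> omega
  · unfold FF3 at hF
    rcases hF with hF | hF | hF | hF <;> omega
  · unfold FF4 at hF
    omega

/-- All ones are forced beyond `K + 2 h + 3`. -/
theorem QF_all_ones (hf : Rule f) {a b K : ℕ} (hab : a ≤ b) (hK : a + b + 6 ≤ K)
    (hls : LSK f a b K) {x y : ℕ} (hyx : y ≤ x) (hx : K + 2 * (a / 6) + 3 < x)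
    (hF : Fst a b x y) : f a b x y := by
  by_cases hne : Exc a b (x - y)
  · have hF' := (Fst_of_le hab hyx).1 hF
    by_cases hv : a = b ∧ (a % 6 = 2 ∨ a % 6 = 4)
    · obtain ⟨rfl, hv⟩ := hv
      have h6 : 6 ≤ a := by
        unfold Exc at hne
        omega
      have hd : x - y ≤ 2 * (a / 6) := by
        unfold Exc at hne
        omega
      obtain ⟨h1, h2⟩ := FF_vac h6 hv hd hF'
      have := QF_vac hf (d := x - y) (y := y) h6 hv hls hK h1 hd (by rw [← h2]; exact hF')
        (by omega) (by omega)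
      have e1 : y + (x - y) = x := by omega
      rwa [e1] at this
    · rcases hne with ⟨ha, hb, hd⟩ | ⟨h1, h6, h2, hd⟩ | ⟨hd, h6, h1, h2⟩ | ⟨h1, h2, hd⟩
      · have hv' : a = b → a % 6 = 0 := by omega
        obtain ⟨h1, h2⟩ := FF_strip hab ha hb hv' hd (by omega) hF'
        rcases Nat.eq_zero_or_pos (x % 2) with he | he
        · have := QF_typeI hf (d := x - y) (y := y) hab ha hb (by omega) (by omega) hv' hls hK
            h1 hd (by omega) (by omega)
          have e1 : y + (x - y) = x := by omega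
          rwa [e1] at this
        · have := QF_typeII hf (d := x - y) (x := x) hab ha hb (by omega) (by omega) hls hK
            h1 hd (by omega) (by omega)
          have e1 : x - (x - y) = y := by omega
          rwa [e1] at this
      · exact absurd ⟨h1, h2⟩ hv
      · have hxy : x = y := by omega
        subst hxy
        have hx2 : x % 2 = 1 := by
          by_contra hcon
          have e0 : x % 2 = 0 := by omega
          rw [Nat.sub_self, e0] at hF'
          rcases hF' with hF' | hF' | hF' | hF'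
          · rcases hF' with hF' | hF' | hF' | hF' | hF' | hF' <;> omega
          · obtain ⟨h3, h4, h5, h7⟩ := hF'
            unfold FU at h5
            rcases h5 with h5 | h5 | h5 | h5 | h5 | h5 <;> omega
          · unfold FF3 FT at hF'
            rcases hF' with hF' | hF' | hF' | hF' <;> omega
          · unfold FF4 at hF'
            omega
        refine E1_centre hf (Or.inl ⟨h1, h2, h6⟩) (by omega) hx2 ?_ ?_
        · rw [Nat.sub_self, hx2] at hF'
          exact hF'
        · intro i j hi hj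
          exact hls _ _ (lt_of_lt_of_le (by omega) (le_max_left _ _))
      · have hxy : x = y := by omega
        subst hxy h1 h2
        have hx2 : x % 2 = 1 := by
          by_contra hcon
          have e0 : x % 2 = 0 := by omega
          rw [Nat.sub_self, e0] at hF'
          exact absurd hF' (by decide)
        refine E1_centre hf (Or.inr ⟨rfl, rfl⟩) (by omega) hx2 ?_ ?_
        · rw [Nat.sub_self, hx2] at hF'
          exact hF'
        · intro i j hi hj
          exact hls _ _ (lt_of_lt_of_le (by omega) (le_max_left _ _))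
  · exact QF_ones hf hab hK hls hyx (by omega) hne hF

/-- One row forcing: if the three lower planes are static beyond `K`, the plane `(a, b)` is
static beyond `K + 2 h + 4`, `h = a / 6`. -/
theorem QF_all (hf : Rule f) {a b K : ℕ} (hab : a ≤ b) (hK : a + b + 6 ≤ K)
    (hls : LSK f a b K) : St f a b (K + 2 * (a / 6) + 4) := by
  have main : ∀ x y : ℕ, y ≤ x → K + 2 * (a / 6) + 4 < x → (f a b x y ↔ Fst a b x y) := by
    intro x y hyx hx
    rcases Nat.lt_or_ge (a + b + y) x with h1 | h1
    · rw [hf.far a b x y h1, Fst_far hab h1]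
    · constructor
      · intro h
        by_contra hF
        refine zero_of_row_ones hf (by omega) (by omega) hF ?_ ?_ h
        · intro r s hr hs
          exact hls _ _ (lt_of_lt_of_le (by omega) (le_max_left _ _))
        · intro r s hr hs hrs h2
          rcases Nat.lt_or_ge (x - r) (y - s) with h3 | h3
          · rw [Fst_swap_xy] at h2
            rw [hf.swap_xy]
            exact QF_all_ones hf hab hK hls h3.le (by omega) h2
          · exact QF_all_ones hf hab hK hls h3 (by omega) h2
      · intro hF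
        exact QF_all_ones hf hab hK hls hyx (by omega) hF
  intro x y hxy
  rcases le_total y x with h | h
  · exact main x y h (by rwa [max_eq_left h] at hxy)
  · rw [hf.swap_xy, Fst_swap_xy]
    exact main y x h (by rwa [max_eq_right h] at hxy)

/-- The lower planes, from their static ranges. -/
theorem LSK_of_St {a b K : ℕ}
    (h : ∀ p q : ℕ, p ≤ 1 → q ≤ 1 → 1 ≤ p + q → p ≤ a → q ≤ b → St f (a - p) (b - q) K) :
    LSK f a b K := by
  intro x y hxy p q hp hq hpq hpa hqb
  exact h p q hp hq hpq hpa hqb x y hxy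

theorem St_swap (hf : Rule f) {a b K : ℕ} (h : St f a b K) : St f b a K := by
  intro x y hxy
  rw [hf.swap_ab, Fst_swap_ab]
  exact h x y hxy

/-- An explicit bound for the static range. -/
def KK (n : ℕ) : ℕ := (n + 6) * (n + 2)

theorem KK_succ (n : ℕ) : KK (n + 1) = KK n + (2 * n + 9) := by
  unfold KK
  ring

theorem KK_mono {m n : ℕ} (h : m ≤ n) : KK m ≤ KK n := by
  unfold KK
  exact Nat.mul_le_mul (by omega) (by omega)

theorem KK_ge (n : ℕ) : n + 12 ≤ KK n := by
  induction n with
  | zero => decide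
  | succ n ih =>
    rw [KK_succ]
    omega

/-- The limit theorem, with an explicit (quadratic) threshold. -/
theorem limit_quant (hf : Rule f) : ∀ a b : ℕ, St f a b (KK (a + b)) := by
  suffices H : ∀ n a b : ℕ, a + b = n → a ≤ b → St f a b (KK n) by
    intro a b
    rcases le_total a b with h | h
    · exact H _ a b rfl h
    · have := H _ b a rfl h
      rw [Nat.add_comm b a] at this
      exact St_swap hf this
  intro n
  induction n using Nat.strong_induction_on with
  | _ n ih =>
    intro a b hn hab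
    rcases Nat.eq_zero_or_pos n with h0 | h0
    · have ha : a = 0 := by omega
      have hb : b = 0 := by omega
      subst ha hb h0
      refine (QF_all hf (a := 0) (b := 0) (K := 6) le_rfl (by omega) ?_).mono (by decide)
      intro x y hxy p q hp hq hpq hpa hqb
      omega
    · obtain ⟨m, rfl⟩ := Nat.exists_eq_succ_of_ne_zero h0.ne'
      have hge := KK_ge m
      refine (QF_all hf (K := KK m) hab (by omega) ?_).mono ?_
      · refine LSK_of_St ?_
        intro p q hp hq hpq hpa hqb
        rcases le_total (a - p) (b - q) with h | h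
        · exact (ih (a - p + (b - q)) (by omega) _ _ rfl h).mono (KK_mono (by omega))
        · exact (St_swap hf (ih (b - q + (a - p)) (by omega) _ _ rfl h)).mono
            (KK_mono (by omega))
      · rw [Nat.succ_eq_add_one, KK_succ]
        omega

/-- The limit theorem. -/
theorem limit_thm (hf : Rule f) (a b : ℕ) : ∃ K : ℕ, St f a b K := ⟨_, limit_quant hf a b⟩

/-- Under the periodicity hypothesis every plane is static beyond a linear threshold. -/
theorem St_of_diagPer (hf : Rule f) {N C : ℕ} (hN : 0 < N) (hp : DiagPer f N C) (a b : ℕ) :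
    ∀ x y : ℕ, C * (a + b + 1) ≤ max x y → (f a b x y ↔ Fst a b x y) := by
  intro x y hxy
  have h1 : ∀ n : ℕ, f a b x y ↔ f a b (x + 2 * N * n) (y + 2 * N * n) := by
    intro n
    induction n with
    | zero => simp
    | succ n ih =>
      have h2 := hp a b (x + 2 * N * n) (y + 2 * N * n) (by
        have : max x y ≤ max (x + 2 * N * n) (y + 2 * N * n) := by omega
        omega)
      have e1 : x + 2 * N * n + 2 * N = x + 2 * N * (n + 1) := by ring
      have e2 : y + 2 * N * n + 2 * N = y + 2 * N * (n + 1) := by ring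
      rw [e1, e2] at h2
      exact ih.trans h2
  have h3 : Fst a b x y ↔ Fst a b (x + 2 * N * (KK (a + b) + 1)) (y + 2 * N * (KK (a + b) + 1)) := by
    unfold Fst
    have e0 : (2 * N * (KK (a + b) + 1)) % 2 = 0 := by
      rw [Nat.mul_assoc]
      exact Nat.mul_mod_right 2 _
    generalize 2 * N * (KK (a + b) + 1) = M at e0
    have e1 : max (x + M) (y + M) - min (x + M) (y + M) = max x y - min x y := by omega
    have e2 : max (x + M) (y + M) % 2 = max x y % 2 := by omega
    rw [e1, e2]
  rw [h1 (KK (a + b) + 1), h3]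
  refine limit_quant hf a b _ _ ?_
  have h4 : KK (a + b) + 1 ≤ 2 * N * (KK (a + b) + 1) :=
    Nat.le_mul_of_pos_left _ (by omega)
  omega

end Pool.Agent.SNT
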