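import Pool.Agent.SNT.BoxT
import Pool.Agent.SNT.LimE

set_option autoImplicit false

/-! Static thresholds from a verified table. -/

namespace Pool.Agent.SNT.BoxT

theorem St.swap {f : ℕ → ℕ → ℕ → ℕ → Prop} (hf : Rule f) {a b K : ℕ} (h : St f a b K) :
    St f b a K := by
  intro x y hxy
  rw [hf.swap_ab, Fst_swap_ab]
  exact h x y hxy

/-- The static thresholds of a verified table. -/
theorem table_st {f : ℕ → ℕ → ℕ → ℕ → Prop} (hf : Rule f) {W H NA N : ℕ} {kt : ℕ → ℕ → ℕ}
    (hsym : ∀ a b, kt a b = kt b a)
    (hb : ∀ a b, a ≤ b → a < NA → b + 1 < H → low kt a b + 4 ≤ W ∧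
      a + b + 2 * low kt a b + 6 ≤ N)
    (hc : ∀ a b u y, a ≤ b → Bx W H NA a b (u + 2) → kt a b < u → u ≤ low kt a b →
      a + b + u + y + 4 < N → (f a b (u + 2) (y + 2) ↔ f a b u y)) :
    ∀ s a b, a + b ≤ s → a ≤ b → a < NA → b + 1 < H → St f a b (kt a b) := by
  intro s
  induction s using Nat.strong_induction_on with
  | _ s ih =>
    intro a b hs hab ha hbH
    obtain ⟨h1, h2⟩ := hb a b hab ha hbH
    obtain ⟨L, hL⟩ : ∃ L, L = max (max (kt (a - 1) b) (kt a (b - 1)))
      (max (kt (a - 1) (b - 1)) (a + b + 6)) := ⟨_, rfl⟩
    have elow : low kt a b = L + 2 * (a / 6) + 4 := by rw [hL]; rfl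
    have hlsk : LSK f a b L := by
      intro x y hxy p q hp hq hpq hpa hqb
      have hp' : p = 0 ∨ p = 1 := by omega
      have hq' : q = 0 ∨ q = 1 := by omega
      rcases hp' with rfl | rfl
      · rcases hq' with rfl | rfl
        · omega
        · rw [Nat.sub_zero]
          have hkL : kt a (b - 1) ≤ L := by
            rw [hL]; exact le_trans (le_max_right _ _) (le_max_left _ _)
          rcases Nat.lt_or_ge (b - 1) a with h3 | h3
          · have hab' : a = b := by omega
            have h4 := ih (a + (b - 1)) (by omega) (b - 1) a (by omega) (by omega) (by omega)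
              (by omega)
            rw [hsym] at h4
            exact (St.swap hf h4) x y (by omega)
          · exact ih (a + (b - 1)) (by omega) a (b - 1) (by omega) h3 (by omega) (by omega) x y
              (by omega)
      · have ha1 : a - 1 ≤ b - q := by omega
        have hkL : kt (a - 1) (b - q) ≤ L := by
          rcases hq' with rfl | rfl
          · rw [hL]; exact le_trans (le_max_left _ _) (le_max_left _ _)
          · rw [hL]; exact le_trans (le_max_left _ _) (le_max_right _ _)
        exact ih (a - 1 + (b - q)) (by omega) (a - 1) (b - q) (by omega) ha1 (by omega) (by omega)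
          x y (by omega)
    have hLge : a + b + 6 ≤ L := by
      rw [hL]; exact le_trans (le_max_right _ _) (le_max_right _ _)
    have hst : St f a b (low kt a b) := by
      rw [elow]
      exact QF_all hf hab hLge hlsk
    have key : ∀ k x y, low kt a b + 2 - x ≤ k → y ≤ x → kt a b < x →
        (f a b x y ↔ Fst a b x y) := by
      intro k
      induction k with
      | zero =>
        intro x y h3 h4 h5
        exact hst x y (lt_of_lt_of_le (by omega) (le_max_left _ _))
      | succ k ihk =>
        intro x y h3 h4 h5
        rcases Nat.lt_or_ge (low kt a b) x with h6 | h6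
        · exact hst x y (lt_of_lt_of_le (by omega) (le_max_left _ _))
        · have h7 := ihk (x + 2) (y + 2) (by omega) (by omega) (by omega)
          have h8 := hc a b x y hab ⟨ha, hbH, by omega⟩ h5 h6 (by omega)
          rw [← h8, h7, Fst_of_le hab (by omega), Fst_of_le hab h4]
          have e1 : x + 2 - (y + 2) = x - y := by omega
          have e2 : (x + 2) % 2 = x % 2 := by omega
          rw [e1, e2]
    intro x y hxy
    rcases le_total y x with h | h
    · exact key _ x y le_rfl h (by omega)
    · rw [hf.swap_xy, Fst_swap_xy]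
      exact key _ y x le_rfl h (by omega)

end Pool.Agent.SNT.BoxT
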