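import Pool.Agent.SNT.Core

set_option autoImplicit false
set_option linter.unusedSimpArgs false
set_option linter.unusedVariables false
set_option maxHeartbeats 1000000

/-! Verified kernel computation of the four counter rule on a box, slice by slice.  The slice
`T = a + b + x + y` is coded as one natural number, the cell `(a, b, x)` is the bit
`(a * H + b) * W + x`; the counter `y` is implicit. -/

namespace Pool.Agent.SNT.BoxT

/-- Names an intermediate result. -/
def bind (n : ℕ) (k : ℕ → Bool) : Bool := k n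

theorem bind_eq (n : ℕ) (k : ℕ → Bool) : bind n k = k n := rfl

/-- `E` in even slices. -/
def sel : Bool → ℕ → ℕ
  | true, E => E
  | false, _ => 0

/-- The test of the bit `j` in one slice. -/
def tst : Bool → ℕ → ℕ → Bool
  | true, S', j => Nat.beq (Nat.land (Nat.shiftRight S' j) 1) 0
  | false, _, _ => true

/-- Lazy conjunction. -/
def andB : Bool → Bool → Bool → Bool
  | true, true, c => c
  | true, false, _ => false
  | false, _, _ => false

theorem andB_eq {a b c : Bool} (h : andB a b c = true) : a = true ∧ b = true ∧ c = true := by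
  cases a <;> cases b <;> simp_all [andB]

/-- The loop over the slices. `S, Y, R, Q` are the previous slice and its partial sums, `V` the
valid cells, `S1, S2, S3` the three slices before, `V1, V2` the valid cells before. -/
def loop (W SA FULL E M j t0 : ℕ) :
    (n : ℕ) → (ev : Bool) → (S Y R Q V S1 S2 S3 V1 V2 : ℕ) → Bool
  | 0, _, _, _, _, _, _, _, _, _, _, _ => true
  | n + 1, ev, S, Y, R, Q, V, S1, S2, S3, V1, V2 =>
    bind (Nat.shiftLeft Y 1) fun t1 =>
    bind (Nat.shiftLeft R W) fun t2 =>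
    bind (Nat.lor (Nat.lor (Nat.lor S (sel ev E)) (Nat.lor t1 t2))
      (Nat.shiftLeft Q SA)) fun G =>
    bind (Nat.xor V (Nat.land V G)) fun S' =>
    bind (Nat.lor S' S) fun Y' =>
    bind (Nat.lor Y' t1) fun R' =>
    bind (Nat.lor R' t2) fun Q' =>
    bind (Nat.land FULL (Nat.lor (Nat.lor V (Nat.shiftLeft V 1))
      (Nat.lor (Nat.shiftLeft V W) (Nat.shiftLeft V SA)))) fun V' =>
    bind (Nat.land (Nat.land M V2) (Nat.xor S' (Nat.shiftLeft S3 2))) fun D =>
    andB (Nat.beq D 0) (tst (Nat.beq n t0) S' j)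
      (loop W SA FULL E M j t0 n (not ev) S' Y' R' Q' V' S S1 S2 V V1)

section Code

variable {W H : ℕ}

/-- `P` codes the set `g`. -/
def Code (W H : ℕ) (g : ℕ → ℕ → ℕ → Prop) (P : ℕ) : Prop :=
  ∀ a b x, b < H → x < W → (P.testBit ((a * H + b) * W + x) = true ↔ g a b x)

theorem Code.congr {g g' : ℕ → ℕ → ℕ → Prop} {P : ℕ} (h : Code W H g P)
    (hg : ∀ a b x, b < H → x < W → (g a b x ↔ g' a b x)) : Code W H g' P := by
  intro a b x hb hx
  rw [h a b x hb hx, hg a b x hb hx]

theorem Code.zero {g : ℕ → ℕ → ℕ → Prop} (hg : ∀ a b x, ¬ g a b x) : Code W H g 0 := by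
  intro a b x _ _
  rw [Nat.zero_testBit]
  exact ⟨fun h => absurd h (by decide), fun h => absurd h (hg a b x)⟩

theorem Code.or {g g' : ℕ → ℕ → ℕ → Prop} {P P' : ℕ} (h : Code W H g P) (h' : Code W H g' P') :
    Code W H (fun a b x => g a b x ∨ g' a b x) (P ||| P') := by
  intro a b x hb hx
  rw [Nat.testBit_or, Bool.or_eq_true, h a b x hb hx, h' a b x hb hx]

theorem Code.and {g g' : ℕ → ℕ → ℕ → Prop} {P P' : ℕ} (h : Code W H g P) (h' : Code W H g' P') :
    Code W H (fun a b x => g a b x ∧ g' a b x) (P &&& P') := by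
  intro a b x hb hx
  rw [Nat.testBit_and, Bool.and_eq_true, h a b x hb hx, h' a b x hb hx]

theorem Code.diff {g g' : ℕ → ℕ → ℕ → Prop} {P P' : ℕ} (h : Code W H g P) (h' : Code W H g' P') :
    Code W H (fun a b x => g a b x ∧ ¬ g' a b x) (P ^^^ (P &&& P')) := by
  intro a b x hb hx
  show _ ↔ (g a b x ∧ ¬ g' a b x)
  rw [← h a b x hb hx, ← h' a b x hb hx, Nat.testBit_xor, Nat.testBit_and]
  cases P.testBit ((a * H + b) * W + x) <;> cases P'.testBit ((a * H + b) * W + x) <;> simp

theorem Code.xor {g g' : ℕ → ℕ → ℕ → Prop} {P P' : ℕ} (h : Code W H g P) (h' : Code W H g' P') :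
    Code W H (fun a b x => ¬ (g a b x ↔ g' a b x)) (P ^^^ P') := by
  intro a b x hb hx
  show _ ↔ ¬ (g a b x ↔ g' a b x)
  rw [← h a b x hb hx, ← h' a b x hb hx, Nat.testBit_xor]
  cases P.testBit ((a * H + b) * W + x) <;> cases P'.testBit ((a * H + b) * W + x) <;> simp

theorem Code.eq_zero {g : ℕ → ℕ → ℕ → Prop} {P : ℕ} (h : Code W H g P) (h0 : P = 0) {a b x : ℕ}
    (hb : b < H) (hx : x < W) : ¬ g a b x := by
  rw [← h a b x hb hx, h0, Nat.zero_testBit]
  decide

theorem Code.shiftX {g : ℕ → ℕ → ℕ → Prop} {P : ℕ} (h : Code W H g P)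
    (hg : ∀ a b, ¬ g a b (W - 1)) :
    Code W H (fun a b x => 1 ≤ x ∧ g a b (x - 1)) (P <<< 1) := by
  intro a b x hb hx
  rw [Nat.testBit_shiftLeft, Bool.and_eq_true, decide_eq_true_eq]
  rcases Nat.eq_zero_or_pos x with h0 | h0
  · subst h0
    constructor
    · rintro ⟨h1, h2⟩
      exfalso
      rw [Nat.add_zero] at h1 h2
      have hc : 1 ≤ a * H + b := by
        rcases Nat.eq_zero_or_pos (a * H + b) with h3 | h3
        · rw [h3, Nat.zero_mul] at h1
          omega
        · exact h3
      obtain ⟨c, hc'⟩ : ∃ c, a * H + b = c + 1 := ⟨a * H + b - 1, by omega⟩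
      have e : (a * H + b) * W - 1 = ((c / H) * H + c % H) * W + (W - 1) := by
        rw [hc', Nat.div_add_mod', Nat.add_mul]
        omega
      rw [e] at h2
      exact hg _ _ ((h (c / H) (c % H) (W - 1) (Nat.mod_lt _ (by omega)) (by omega)).1 h2)
    · intro h1
      omega
  · have e : (a * H + b) * W + x - 1 = (a * H + b) * W + (x - 1) := by omega
    rw [e, h a b (x - 1) hb (by omega)]
    exact ⟨fun h1 => ⟨h0, h1.2⟩, fun h1 => ⟨by omega, h1.2⟩⟩

theorem Code.shiftB {g : ℕ → ℕ → ℕ → Prop} {P : ℕ} (h : Code W H g P)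
    (hg : ∀ a x, ¬ g a (H - 1) x) :
    Code W H (fun a b x => 1 ≤ b ∧ g a (b - 1) x) (P <<< W) := by
  intro a b x hb hx
  rw [Nat.testBit_shiftLeft, Bool.and_eq_true, decide_eq_true_eq]
  rcases Nat.eq_zero_or_pos b with h0 | h0
  · subst h0
    constructor
    · rintro ⟨h1, h2⟩
      exfalso
      rw [Nat.add_zero] at h1 h2
      obtain ⟨c, rfl⟩ : ∃ c, a = c + 1 := by
        rcases Nat.eq_zero_or_pos a with h3 | h3
        · subst h3
          rw [Nat.zero_mul, Nat.zero_mul] at h1
          omega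
        · exact ⟨a - 1, by omega⟩
      obtain ⟨H', rfl⟩ : ∃ H', H = H' + 1 := ⟨H - 1, by omega⟩
      have e : (c + 1) * (H' + 1) * W + x - W = (c * (H' + 1) + (H' + 1 - 1)) * W + x := by
        have : (c + 1) * (H' + 1) * W = (c * (H' + 1) + H') * W + W := by ring
        rw [this, Nat.add_sub_cancel]
        omega
      rw [e] at h2
      exact hg _ _ ((h c (H' + 1 - 1) x (by omega) hx).1 h2)
    · intro h1
      omega
  · obtain ⟨c, rfl⟩ : ∃ c, b = c + 1 := ⟨b - 1, by omega⟩
    have e0 : (a * H + (c + 1)) * W = (a * H + c) * W + W := by ring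
    have e : (a * H + (c + 1)) * W + x - W = (a * H + (c + 1 - 1)) * W + x := by
      rw [Nat.add_sub_cancel]
      omega
    rw [e, h a (c + 1 - 1) x (by omega) hx]
    exact ⟨fun h1 => ⟨h0, h1.2⟩, fun h1 => ⟨by omega, h1.2⟩⟩

theorem Code.shiftA {g : ℕ → ℕ → ℕ → Prop} {P : ℕ} (h : Code W H g P) :
    Code W H (fun a b x => 1 ≤ a ∧ g (a - 1) b x) (P <<< (H * W)) := by
  intro a b x hb hx
  rw [Nat.testBit_shiftLeft, Bool.and_eq_true, decide_eq_true_eq]
  rcases Nat.eq_zero_or_pos a with h0 | h0
  · subst h0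
    constructor
    · rintro ⟨h1, h2⟩
      exfalso
      rw [Nat.zero_mul, Nat.zero_add] at h1
      have h3 : b * W + W ≤ H * W := by
        have : (b + 1) * W ≤ H * W := Nat.mul_le_mul_right _ (by omega)
        rwa [Nat.add_mul, Nat.one_mul] at this
      omega
    · intro h1
      omega
  · obtain ⟨c, rfl⟩ : ∃ c, a = c + 1 := ⟨a - 1, by omega⟩
    have e0 : ((c + 1) * H + b) * W = (c * H + b) * W + H * W := by ring
    have e : ((c + 1) * H + b) * W + x - H * W = ((c + 1 - 1) * H + b) * W + x := by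
      rw [Nat.add_sub_cancel]
      omega
    rw [e, h (c + 1 - 1) b x hb hx]
    exact ⟨fun h1 => ⟨h0, h1.2⟩, fun h1 => ⟨by omega, h1.2⟩⟩

theorem Code.shift2 {g : ℕ → ℕ → ℕ → Prop} {P : ℕ} (h : Code W H g P) {a b x : ℕ} (hb : b < H)
    (hx : x < W) (h2 : 2 ≤ x) :
    (P <<< 2).testBit ((a * H + b) * W + x) = true ↔ g a b (x - 2) := by
  rw [Nat.testBit_shiftLeft, Bool.and_eq_true, decide_eq_true_eq]
  have e : (a * H + b) * W + x - 2 = (a * H + b) * W + (x - 2) := by omega
  rw [e, h a b (x - 2) hb (by omega)]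
  exact ⟨fun h1 => h1.2, fun h1 => ⟨by omega, h1⟩⟩

end Code

section Sem

variable (f : ℕ → ℕ → ℕ → ℕ → Prop) (W H NA : ℕ)

/-- The box. -/
def Bx (a b x : ℕ) : Prop := a < NA ∧ b + 1 < H ∧ x + 1 < W

/-- The slice `m - 1`. -/
def sS (m a b x : ℕ) : Prop := Bx W H NA a b x ∧ a + b + x + 1 ≤ m ∧ f a b x (m - 1 - (a + b + x))

def sY (m a b x : ℕ) : Prop := sS f W H NA m a b x ∨ sS f W H NA (m - 1) a b x

def sR (m a b x : ℕ) : Prop := sY f W H NA m a b x ∨ (1 ≤ x ∧ sY f W H NA (m - 1) a b (x - 1))

def sQ (m a b x : ℕ) : Prop := sR f W H NA m a b x ∨ (1 ≤ b ∧ sR f W H NA (m - 1) a (b - 1) x)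

/-- The valid cells. -/
def sV (m a b x : ℕ) : Prop := Bx W H NA a b x ∧ a + b + x ≤ m

end Sem

section Step

variable {f : ℕ → ℕ → ℕ → ℕ → Prop} {W H NA : ℕ}

theorem pred_iff {n a b x p q r s : ℕ} (hB : Bx W H NA a b x) (hn : a + b + x ≤ n) :
    (p ≤ a ∧ q ≤ b ∧ r ≤ x ∧ s ≤ n - (a + b + x) ∧ f (a - p) (b - q) (x - r) (n - (a + b + x) - s)) ↔
    (p ≤ a ∧ q ≤ b ∧ r ≤ x ∧ sS f W H NA (n + 1 - (p + q + r + s)) (a - p) (b - q) (x - r)) := by
  unfold sS Bx
  unfold Bx at hB
  constructor
  · rintro ⟨h1, h2, h3, h4, h5⟩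
    refine ⟨h1, h2, h3, ⟨by omega, by omega, by omega⟩, by omega, ?_⟩
    have e : n + 1 - (p + q + r + s) - 1 - (a - p + (b - q) + (x - r)) = n - (a + b + x) - s := by
      omega
    rw [e]
    exact h5
  · rintro ⟨h1, h2, h3, _, h4, h5⟩
    have e : n + 1 - (p + q + r + s) - 1 - (a - p + (b - q) + (x - r)) = n - (a + b + x) - s := by
      omega
    rw [e] at h5
    exact ⟨h1, h2, h3, by omega, h5⟩

/-- The rule in terms of the partial sums. -/
theorem step_iff (hf : Rule f) (n a b x : ℕ) :
    sS f W H NA (n + 1) a b x ↔ (sV W H NA n a b x ∧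
      ¬ (((sS f W H NA n a b x ∨ (n % 2 = 0 ∧ a % 2 = 0 ∧ b % 2 = 0 ∧ x % 2 = 0)) ∨
        ((1 ≤ x ∧ sY f W H NA n a b (x - 1)) ∨ (1 ≤ b ∧ sR f W H NA n a (b - 1) x))) ∨
        (1 ≤ a ∧ sQ f W H NA n (a - 1) b x))) := by
  by_cases hv : sV W H NA n a b x
  swap
  · constructor
    · intro h
      exfalso
      apply hv
      unfold sS at h
      unfold sV
      exact ⟨h.1, by omega⟩
    · intro h
      exact absurd h.1 hv
  obtain ⟨hB, hn⟩ := hv
  have e0 : sS f W H NA (n + 1) a b x ↔ f a b x (n - (a + b + x)) := by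
    unfold sS
    rw [Nat.add_sub_cancel]
    exact ⟨fun h => h.2.2, fun h => ⟨hB, by omega, h⟩⟩
  rw [e0, hf a b x (n - (a + b + x))]
  have key := fun p q r s => pred_iff (f := f) (p := p) (q := q) (r := r) (s := s) hB hn
  constructor
  · rintro ⟨h1, h2⟩
    refine ⟨⟨hB, hn⟩, ?_⟩
    have h3 : ∀ p q r s : ℕ, p ≤ 1 → q ≤ 1 → r ≤ 1 → s ≤ 1 → 1 ≤ p + q + r + s → p ≤ a → q ≤ b →
        r ≤ x → ∀ m, m = n + 1 - (p + q + r + s) → ¬ sS f W H NA m (a - p) (b - q) (x - r) := by
      intro p q r s hp hq hr hs hK hpa hqb hrx m hm hS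
      rw [hm] at hS
      obtain ⟨g1, g2, g3, g4, g5⟩ := (key p q r s).2 ⟨hpa, hqb, hrx, hS⟩
      exact h2 p q r s hp hq hr hs hK g1 g2 g3 g4 g5
    rintro (((h4 | h4) | (⟨h5, h4⟩ | ⟨h5, h4⟩)) | ⟨h5, h4⟩)
    · exact h3 0 0 0 1 (by omega) (by omega) (by omega) (by omega) (by omega) (by omega) (by omega)
        (by omega) n (by omega) h4
    · exact h1 (by omega)
    · rcases h4 with h4 | h4
      · exact h3 0 0 1 0 (by omega) (by omega) (by omega) (by omega) (by omega) (by omega)
          (by omega) (by omega) _ (by omega) h4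
      · exact h3 0 0 1 1 (by omega) (by omega) (by omega) (by omega) (by omega) (by omega)
          (by omega) (by omega) _ (by omega) h4
    · rcases h4 with (h4 | h4) | ⟨h6, h4 | h4⟩
      · exact h3 0 1 0 0 (by omega) (by omega) (by omega) (by omega) (by omega) (by omega)
          (by omega) (by omega) _ (by omega) h4
      · exact h3 0 1 0 1 (by omega) (by omega) (by omega) (by omega) (by omega) (by omega)
          (by omega) (by omega) _ (by omega) h4
      · exact h3 0 1 1 0 (by omega) (by omega) (by omega) (by omega) (by omega) (by omega)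
          (by omega) (by omega) _ (by omega) h4
      · exact h3 0 1 1 1 (by omega) (by omega) (by omega) (by omega) (by omega) (by omega)
          (by omega) (by omega) _ (by omega) h4
    · rcases h4 with ((h4 | h4) | ⟨h6, h4 | h4⟩) | ⟨h7, (h4 | h4) | ⟨h6, h4 | h4⟩⟩
      · exact h3 1 0 0 0 (by omega) (by omega) (by omega) (by omega) (by omega) (by omega)
          (by omega) (by omega) _ (by omega) h4
      · exact h3 1 0 0 1 (by omega) (by omega) (by omega) (by omega) (by omega) (by omega)
          (by omega) (by omega) _ (by omega) h4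
      · exact h3 1 0 1 0 (by omega) (by omega) (by omega) (by omega) (by omega) (by omega)
          (by omega) (by omega) _ (by omega) h4
      · exact h3 1 0 1 1 (by omega) (by omega) (by omega) (by omega) (by omega) (by omega)
          (by omega) (by omega) _ (by omega) h4
      · exact h3 1 1 0 0 (by omega) (by omega) (by omega) (by omega) (by omega) (by omega)
          (by omega) (by omega) _ (by omega) h4
      · exact h3 1 1 0 1 (by omega) (by omega) (by omega) (by omega) (by omega) (by omega)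
          (by omega) (by omega) _ (by omega) h4
      · exact h3 1 1 1 0 (by omega) (by omega) (by omega) (by omega) (by omega) (by omega)
          (by omega) (by omega) _ (by omega) h4
      · exact h3 1 1 1 1 (by omega) (by omega) (by omega) (by omega) (by omega) (by omega)
          (by omega) (by omega) _ (by omega) h4
  · rintro ⟨_, h1⟩
    refine ⟨?_, ?_⟩
    · intro h2
      apply h1
      left; left; right
      omega
    · intro p q r s hp hq hr hs hK hpa hqb hrx hsy hh
      obtain ⟨_, _, _, hS⟩ := (key p q r s).1 ⟨hpa, hqb, hrx, hsy, hh⟩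
      apply h1
      have hp' : p = 0 ∨ p = 1 := by omega
      have hq' : q = 0 ∨ q = 1 := by omega
      have hr' : r = 0 ∨ r = 1 := by omega
      have hs' : s = 0 ∨ s = 1 := by omega
      have en2 : n + 1 - 2 = n - 1 := by omega
      have en3 : n + 1 - 3 = n - 1 - 1 := by omega
      have en4 : n + 1 - 4 = n - 1 - 1 - 1 := by omega
      rcases hp' with rfl | rfl
      · rcases hq' with rfl | rfl
        · rcases hr' with rfl | rfl
          · rcases hs' with rfl | rfl
            · omega
            · left; left; left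
              simpa using hS
          · left; right; left
            refine ⟨hrx, ?_⟩
            rcases hs' with rfl | rfl
            · left; simpa using hS
            · right
              simp only [Nat.zero_add, Nat.sub_zero, Nat.reduceAdd] at hS
              rwa [en2] at hS
        · left; right; right
          refine ⟨hqb, ?_⟩
          rcases hr' with rfl | rfl
          · left
            rcases hs' with rfl | rfl
            · left; simpa using hS
            · right
              simp only [Nat.zero_add, Nat.sub_zero, Nat.reduceAdd, Nat.add_zero] at hS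
              rwa [en2] at hS
          · right
            refine ⟨hrx, ?_⟩
            rcases hs' with rfl | rfl
            · left
              simp only [Nat.zero_add, Nat.sub_zero, Nat.reduceAdd, Nat.add_zero] at hS
              rwa [en2] at hS
            · right
              simp only [Nat.zero_add, Nat.sub_zero, Nat.reduceAdd, Nat.add_zero] at hS
              rwa [en3] at hS
      · right
        refine ⟨hpa, ?_⟩
        rcases hq' with rfl | rfl
        · left
          rcases hr' with rfl | rfl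
          · left
            rcases hs' with rfl | rfl
            · left; simpa using hS
            · right
              simp only [Nat.zero_add, Nat.sub_zero, Nat.reduceAdd, Nat.add_zero] at hS
              rwa [en2] at hS
          · right
            refine ⟨hrx, ?_⟩
            rcases hs' with rfl | rfl
            · left
              simp only [Nat.zero_add, Nat.sub_zero, Nat.reduceAdd, Nat.add_zero] at hS
              rwa [en2] at hS
            · right
              simp only [Nat.zero_add, Nat.sub_zero, Nat.reduceAdd, Nat.add_zero] at hS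
              rwa [en3] at hS
        · right
          refine ⟨hqb, ?_⟩
          rcases hr' with rfl | rfl
          · left
            rcases hs' with rfl | rfl
            · left
              simp only [Nat.zero_add, Nat.sub_zero, Nat.reduceAdd, Nat.add_zero] at hS
              rwa [en2] at hS
            · right
              simp only [Nat.zero_add, Nat.sub_zero, Nat.reduceAdd, Nat.add_zero] at hS
              rwa [en3] at hS
          · right
            refine ⟨hrx, ?_⟩
            rcases hs' with rfl | rfl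
            · left
              simp only [Nat.zero_add, Nat.sub_zero, Nat.reduceAdd, Nat.add_zero] at hS
              rwa [en3] at hS
            · right
              simp only [Nat.zero_add, Nat.sub_zero, Nat.reduceAdd, Nat.add_zero] at hS
              rwa [en4] at hS

end Step

section Loop

theorem bool6 : ∀ v s e t1 t2 t3 : Bool, ((v ^^ (v && (s || e || (t1 || t2) || t3))) = true ↔
    (v = true ∧ ¬ (((s = true ∨ e = true) ∨ (t1 = true ∨ t2 = true)) ∨ t3 = true))) := by
  decide

variable {f : ℕ → ℕ → ℕ → ℕ → Prop} {W H NA : ℕ}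

/-- What a completed loop proves: `T` runs over the slices `n0, ..., n0 + n - 1`. -/
theorem loop_spec (hf : Rule f) (hW : 0 < W) (hH : 0 < H) {FULL E M j t0 : ℕ} {gM : ℕ → ℕ → ℕ → Prop}
    (hFULL : Code W H (Bx W H NA) FULL)
    (hE' : ∀ a b x, Bx W H NA a b x → (E.testBit ((a * H + b) * W + x) = true ↔
      (a % 2 = 0 ∧ b % 2 = 0 ∧ x % 2 = 0)))
    (hM : Code W H gM M) (hM2 : ∀ a b x, gM a b x → 2 ≤ x) :
    ∀ (n n0 : ℕ) (ev : Bool) (S Y R Q V S1 S2 S3 V1 V2 : ℕ), (ev = true ↔ n0 % 2 = 0) →
      Code W H (sS f W H NA n0) S → Code W H (sY f W H NA n0) Y → Code W H (sR f W H NA n0) R →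
      Code W H (sQ f W H NA n0) Q → Code W H (sV W H NA n0) V →
      Code W H (sS f W H NA (n0 - 1)) S1 → Code W H (sS f W H NA (n0 - 2)) S2 →
      Code W H (sS f W H NA (n0 - 3)) S3 →
      Code W H (fun a b x => 1 ≤ n0 ∧ sV W H NA (n0 - 1) a b x) V1 →
      Code W H (fun a b x => 2 ≤ n0 ∧ sV W H NA (n0 - 2) a b x) V2 →
      loop W (H * W) FULL E M j t0 n ev S Y R Q V S1 S2 S3 V1 V2 = true →
      (∀ m a b u y, n0 ≤ m → m < n0 + n → Bx W H NA a b (u + 2) → gM a b (u + 2) →
        a + b + u + y + 4 = m → (f a b (u + 2) (y + 2) ↔ f a b u y)) ∧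
      (t0 < n → ∀ a b x, Bx W H NA a b x → (a * H + b) * W + x = j →
        a + b + x ≤ n0 + (n - 1 - t0) → ¬ f a b x (n0 + (n - 1 - t0) - (a + b + x))) := by
  intro n
  induction n with
  | zero =>
    intro n0 ev S Y R Q V S1 S2 S3 V1 V2 _ _ _ _ _ _ _ _ _ _ _ _
    exact ⟨fun m a b u y h1 h2 => by omega, fun h => by omega⟩
  | succ n ih =>
    intro n0 ev S Y R Q V S1 S2 S3 V1 V2 hev hS hY hR hQ hV hS1 hS2 hS3 hV1 hV2 h
    unfold loop at h
    simp only [bind_eq] at h
    have g1 : ∀ a b, ¬ sY f W H NA n0 a b (W - 1) := by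
      intro a b h1
      unfold sY sS Bx at h1
      omega
    have g2 : ∀ a x, ¬ sR f W H NA n0 a (H - 1) x := by
      intro a x h1
      unfold sR sY sS Bx at h1
      omega
    have ht1 := hY.shiftX g1
    have ht2 := hR.shiftB g2
    have ht3 := hQ.shiftA
    obtain ⟨t1, et1⟩ : ∃ t1, t1 = Y <<< 1 := ⟨_, rfl⟩
    obtain ⟨t2, et2⟩ : ∃ t2, t2 = R <<< W := ⟨_, rfl⟩
    obtain ⟨t3, et3⟩ : ∃ t3, t3 = Q <<< (H * W) := ⟨_, rfl⟩
    rw [← et1] at ht1
    rw [← et2] at ht2
    rw [← et3] at ht3
    change andB (Nat.beq ((M &&& V2) &&& ((V ^^^ (V &&& (((S ||| sel ev E) |||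
        (Y <<< 1 ||| R <<< W)) ||| Q <<< (H * W)))) ^^^ S3 <<< 2)) 0)
      (tst (Nat.beq n t0) (V ^^^ (V &&& (((S ||| sel ev E) |||
        (Y <<< 1 ||| R <<< W)) ||| Q <<< (H * W)))) j)
      (loop W (H * W) FULL E M j t0 n (not ev) (V ^^^ (V &&& (((S ||| sel ev E) |||
        (Y <<< 1 ||| R <<< W)) ||| Q <<< (H * W)))) ((V ^^^ (V &&& (((S ||| sel ev E) |||
        (Y <<< 1 ||| R <<< W)) ||| Q <<< (H * W)))) ||| S)
        (((V ^^^ (V &&& (((S ||| sel ev E) ||| (Y <<< 1 ||| R <<< W)) ||| Q <<< (H * W)))) ||| S)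
          ||| Y <<< 1)
        ((((V ^^^ (V &&& (((S ||| sel ev E) ||| (Y <<< 1 ||| R <<< W)) ||| Q <<< (H * W)))) ||| S)
          ||| Y <<< 1) ||| R <<< W)
        (FULL &&& ((V ||| V <<< 1) ||| (V <<< W ||| V <<< (H * W)))) S S1 S2 V V1) = true at h
    rw [← et1, ← et2, ← et3] at h
    obtain ⟨S', eS'⟩ : ∃ S', S' = (V ^^^ (V &&& (((S ||| sel ev E) ||| (t1 ||| t2)) ||| t3))) :=
      ⟨_, rfl⟩
    rw [← eS'] at h
    have cS' : Code W H (sS f W H NA (n0 + 1)) S' := by
      intro a b x hb hx
      rw [step_iff hf n0 a b x, eS', Nat.testBit_xor, Nat.testBit_and, Nat.testBit_or,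
        Nat.testBit_or, Nat.testBit_or, Nat.testBit_or]
      rw [← hV a b x hb hx, ← hS a b x hb hx]
      have k1 : _ ↔ (1 ≤ x ∧ sY f W H NA n0 a b (x - 1)) := ht1 a b x hb hx
      have k2 : _ ↔ (1 ≤ b ∧ sR f W H NA n0 a (b - 1) x) := ht2 a b x hb hx
      have k3 : _ ↔ (1 ≤ a ∧ sQ f W H NA n0 (a - 1) b x) := ht3 a b x hb hx
      rw [← k1, ← k2, ← k3]
      by_cases hv : sV W H NA n0 a b x
      · have k4 : (sel ev E).testBit ((a * H + b) * W + x) = true ↔
            (n0 % 2 = 0 ∧ a % 2 = 0 ∧ b % 2 = 0 ∧ x % 2 = 0) := by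
          cases ev with
          | true =>
            have h1 := hev.1 rfl
            have h2 := hE' a b x hv.1
            show E.testBit _ = true ↔ _
            rw [h2]
            tauto
          | false =>
            have h1 : ¬ n0 % 2 = 0 := fun h' => absurd (hev.2 h') (by decide)
            show (0 : ℕ).testBit _ = true ↔ _
            rw [Nat.zero_testBit]
            constructor
            · intro h'; exact absurd h' (by decide)
            · intro h'; exact absurd h'.1 h1
        rw [← k4]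
        exact bool6 _ _ _ _ _ _
      · have k4 : V.testBit ((a * H + b) * W + x) = false := by
          rw [← Bool.not_eq_true, hV a b x hb hx]
          exact hv
        rw [k4]
        simp
    have cY' : Code W H (sY f W H NA (n0 + 1)) (S' ||| S) := by
      refine (cS'.or hS).congr ?_
      intro a b x _ _
      unfold sY
      rw [Nat.add_sub_cancel]
    have cR' : Code W H (sR f W H NA (n0 + 1)) ((S' ||| S) ||| t1) := by
      refine (cY'.or ht1).congr ?_
      intro a b x _ _
      unfold sR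
      rw [Nat.add_sub_cancel]
    have cQ' : Code W H (sQ f W H NA (n0 + 1)) (((S' ||| S) ||| t1) ||| t2) := by
      refine (cR'.or ht2).congr ?_
      intro a b x _ _
      unfold sQ
      rw [Nat.add_sub_cancel]
    have v1 : ∀ a b, ¬ sV W H NA n0 a b (W - 1) := by
      intro a b h1
      unfold sV Bx at h1
      omega
    have v2 : ∀ a x, ¬ sV W H NA n0 a (H - 1) x := by
      intro a x h1
      unfold sV Bx at h1
      omega
    have cV' : Code W H (sV W H NA (n0 + 1))
        (FULL &&& ((V ||| V <<< 1) ||| (V <<< W ||| V <<< (H * W)))) := by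
      refine (hFULL.and ((hV.or (hV.shiftX v1)).or ((hV.shiftB v2).or hV.shiftA))).congr ?_
      intro a b x _ _
      unfold sV Bx
      constructor
      · rintro ⟨h1, h2⟩
        exact ⟨h1, by omega⟩
      · rintro ⟨h1, h2⟩
        refine ⟨h1, ?_⟩
        rcases Nat.lt_or_ge n0 (a + b + x) with h3 | h3
        · rcases Nat.eq_zero_or_pos x with h4 | h4
          · rcases Nat.eq_zero_or_pos b with h5 | h5
            · right; right
              exact ⟨by omega, ⟨by omega, by omega, by omega⟩, by omega⟩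
            · right; left
              exact ⟨by omega, ⟨by omega, by omega, by omega⟩, by omega⟩
          · left; right
            exact ⟨by omega, ⟨by omega, by omega, by omega⟩, by omega⟩
        · left; left
          exact ⟨h1, h3⟩
    have hev' : (not ev) = true ↔ (n0 + 1) % 2 = 0 := by
      rw [Bool.not_eq_true', ← Bool.not_eq_true, hev]
      omega
    obtain ⟨hD, hT, h⟩ := andB_eq h
    have hD0 := Nat.eq_of_beq_eq_true hD
    obtain ⟨r1, r2⟩ := ih (n0 + 1) (not ev) S' (S' ||| S) ((S' ||| S) ||| t1)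
      (((S' ||| S) ||| t1) ||| t2) (FULL &&& ((V ||| V <<< 1) ||| (V <<< W ||| V <<< (H * W))))
      S S1 S2 V V1 hev' cS' cY' cR' cQ' cV'
      (by rw [Nat.add_sub_cancel]; exact hS)
      (by have e : n0 + 1 - 2 = n0 - 1 := by omega
          rw [e]; exact hS1)
      (by have e : n0 + 1 - 3 = n0 - 2 := by omega
          rw [e]; exact hS2)
      (by refine hV.congr ?_
          intro a b x _ _
          rw [Nat.add_sub_cancel]
          exact ⟨fun h' => ⟨by omega, h'⟩, fun h' => h'.2⟩)
      (by refine hV1.congr ?_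
          intro a b x _ _
          have e : n0 + 1 - 2 = n0 - 1 := by omega
          rw [e]
          exact ⟨fun h' => ⟨by omega, h'.2⟩, fun h' => ⟨by omega, h'.2⟩⟩)
      h
    refine ⟨?_, ?_⟩
    · intro m a b u y h1 h2 hB hg hm
      rcases Nat.lt_or_ge n0 m with h3 | h3
      · exact r1 m a b u y (by omega) (by omega) hB hg hm
      · have hm0 : m = n0 := by omega
        have hb : b < H := by unfold Bx at hB; omega
        have hx : u + 2 < W := by unfold Bx at hB; omega
        have h4 : ((M &&& V2) &&& (S' ^^^ S3 <<< 2)).testBit ((a * H + b) * W + (u + 2)) = false := by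
          rw [hD0, Nat.zero_testBit]
        rw [Nat.testBit_and, Nat.testBit_and, Nat.testBit_xor] at h4
        have h5 : M.testBit ((a * H + b) * W + (u + 2)) = true := (hM a b (u + 2) hb hx).2 hg
        have h6 : V2.testBit ((a * H + b) * W + (u + 2)) = true := by
          rw [hV2 a b (u + 2) hb hx]
          unfold sV
          exact ⟨by omega, hB, by omega⟩
        rw [h5, h6, Bool.true_and, Bool.true_and] at h4
        have h7 : S'.testBit ((a * H + b) * W + (u + 2)) = true ↔
            (S3 <<< 2).testBit ((a * H + b) * W + (u + 2)) = true := by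
          revert h4
          cases S'.testBit ((a * H + b) * W + (u + 2)) <;>
            cases (S3 <<< 2).testBit ((a * H + b) * W + (u + 2)) <;> simp
        rw [cS' a b (u + 2) hb hx, hS3.shift2 hb hx (by omega)] at h7
        unfold sS at h7
        have e1 : n0 + 1 - 1 - (a + b + (u + 2)) = y + 2 := by omega
        have e2 : n0 - 3 - 1 - (a + b + (u + 2 - 2)) = y := by omega
        rw [e1, e2] at h7
        have hB' : Bx W H NA a b (u + 2 - 2) := by unfold Bx at hB ⊢; omega
        constructor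
        · intro h8
          exact (h7.1 ⟨hB, by omega, h8⟩).2.2
        · intro h8
          exact (h7.2 ⟨hB', by omega, by rwa [Nat.add_sub_cancel]⟩).2.2
    · intro ht a b x hB hj hle
      rcases Nat.lt_or_ge t0 n with h3 | h3
      · have e : n0 + (n + 1 - 1 - t0) = n0 + 1 + (n - 1 - t0) := by omega
        rw [e] at hle ⊢
        exact r2 h3 a b x hB hj hle
      · have ht0 : t0 = n := by omega
        subst ht0
        have e : n0 + (t0 + 1 - 1 - t0) = n0 := by omega
        rw [e] at hle ⊢
        have h5 : Nat.beq t0 t0 = true := Nat.beq_refl t0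
        rw [h5] at hT
        have h6 : (S' >>> j) &&& 1 = 0 := Nat.eq_of_beq_eq_true hT
        have h7 : S'.testBit j = false := by
          rw [Nat.and_one_is_mod, Nat.shiftRight_eq_div_pow] at h6
          rw [Nat.testBit_eq_decide_div_mod_eq, decide_eq_false_iff_not]
          omega
        intro h8
        have h9 : sS f W H NA (t0 - t0 + n0 + 1) a b x := by
          unfold sS
          refine ⟨hB, by omega, ?_⟩
          have e1 : t0 - t0 + n0 + 1 - 1 - (a + b + x) = n0 - (a + b + x) := by omega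
          rw [e1]
          exact h8
        have e2 : t0 - t0 + n0 + 1 = n0 + 1 := by omega
        rw [e2, ← cS' a b x (by unfold Bx at hB; omega) (by unfold Bx at hB; omega), hj, h7] at h9
        exact absurd h9 (by decide)

end Loop

section Masks

/-- `g i, g (i + 1), ...` with period `w`. -/
def bld (w : ℕ) (g : ℕ → ℕ) : ℕ → ℕ → ℕ
  | _, 0 => 0
  | i, n + 1 => Nat.lor (g i) (Nat.shiftLeft (bld w g (Nat.succ i) n) w)

theorem bld_testBit {w : ℕ} {g : ℕ → ℕ} (hg : ∀ i, g i < 2 ^ w) :
    ∀ n i k j : ℕ, j < w → (bld w g i n).testBit (k * w + j) =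
      (decide (k < n) && (g (i + k)).testBit j) := by
  intro n
  induction n with
  | zero =>
    intro i k j hj
    show (0 : ℕ).testBit _ = _
    simp
  | succ n ih =>
    intro i k j hj
    show ((g i) ||| ((bld w g (i + 1) n) <<< w)).testBit (k * w + j) = _
    rw [Nat.testBit_or, Nat.testBit_shiftLeft]
    rcases Nat.eq_zero_or_pos k with hk | hk
    · subst hk
      rw [Nat.zero_mul, Nat.zero_add, Nat.add_zero]
      have h1 : decide (j ≥ w) = false := decide_eq_false (by omega)
      rw [h1, Bool.false_and, Bool.or_false]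
      simp
    · obtain ⟨k', rfl⟩ : ∃ k', k = k' + 1 := ⟨k - 1, by omega⟩
      have e1 : (k' + 1) * w + j - w = k' * w + j := by
        rw [Nat.add_mul]; omega
      have e2 : w ≤ (k' + 1) * w + j := by
        rw [Nat.add_mul]; omega
      rw [e1, ih (i + 1) k' j hj, Nat.testBit_lt_two_pow (lt_of_lt_of_le (hg i)
        (Nat.pow_le_pow_right (by omega) e2)), Bool.false_or]
      have h1 : decide ((k' + 1) * w + j ≥ w) = true := decide_eq_true e2
      rw [h1, Bool.true_and]
      have e3 : i + 1 + k' = i + (k' + 1) := by omega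
      rw [e3]
      congr 1
      exact decide_eq_decide.2 (by omega)

theorem bld_lt {w : ℕ} {g : ℕ → ℕ} (hg : ∀ i, g i < 2 ^ w) :
    ∀ n i : ℕ, bld w g i n < 2 ^ (n * w) := by
  intro n
  induction n with
  | zero => intro i; show 0 < _; exact Nat.pow_pos (by omega)
  | succ n ih =>
    intro i
    show ((g i) ||| ((bld w g (i + 1) n) <<< w)) < _
    refine Nat.or_lt_two_pow ?_ ?_
    · exact lt_of_lt_of_le (hg i) (Nat.pow_le_pow_right (by omega) (by rw [Nat.add_mul]; omega))
    · rw [Nat.shiftLeft_eq]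
      have h1 := ih (i + 1)
      have e : 2 ^ ((n + 1) * w) = 2 ^ (n * w) * 2 ^ w := by
        rw [← Nat.pow_add, Nat.add_mul, Nat.one_mul]
      rw [e]
      exact Nat.mul_lt_mul_of_pos_right h1 (Nat.pow_pos (by omega))

/-- Two level masks. -/
theorem code_bld {W H : ℕ} {NA HB : ℕ} (hHB : HB ≤ H) {r : ℕ → ℕ → ℕ}
    (hr : ∀ a b, r a b < 2 ^ W) :
    Code W H (fun a b x => a < NA ∧ b < HB ∧ (r a b).testBit x = true)
      (bld (H * W) (fun a => bld W (fun b => r a b) 0 HB) 0 NA) := by
  intro a b x hb hx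
  have h1 : ∀ i, bld W (fun b => r i b) 0 HB < 2 ^ (H * W) := fun i =>
    lt_of_lt_of_le (bld_lt (fun b => hr i b) HB 0)
      (Nat.pow_le_pow_right (by omega) (Nat.mul_le_mul_right _ hHB))
  have e : (a * H + b) * W + x = a * (H * W) + (b * W + x) := by ring
  have h2 : b * W + x < H * W := by
    have : (b + 1) * W ≤ H * W := Nat.mul_le_mul_right _ (by omega)
    rw [Nat.add_mul] at this
    omega
  rw [e, bld_testBit h1 NA 0 a (b * W + x) h2, bld_testBit (fun b => hr _ b) HB 0 b x hx]
  simp only [Nat.zero_add, Bool.and_eq_true, decide_eq_true_eq]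

/-- The static thresholds of the lower planes. -/
def low (kt : ℕ → ℕ → ℕ) (a b : ℕ) : ℕ :=
  Nat.add (Nat.add (max (max (kt (Nat.pred a) b) (kt a (Nat.pred b)))
    (max (kt (Nat.pred a) (Nat.pred b)) (Nat.add (Nat.add a b) 6)))
    (Nat.mul 2 (Nat.div a 6))) 4

/-- The mask of the cells to be checked. -/
def rmask (kt : ℕ → ℕ → ℕ) (a b : ℕ) : ℕ :=
  Nat.mul (Nat.sub 1 (Nat.sub a b)) (Nat.shiftLeft (Nat.sub (Nat.pow 2 (Nat.sub (low kt a b)
    (kt a b))) 1) (Nat.add (kt a b) 3))

theorem rmask_testBit {kt : ℕ → ℕ → ℕ} {a b x : ℕ} (hab : a ≤ b) (h1 : kt a b + 3 ≤ x)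
    (h2 : x ≤ low kt a b + 2) : (rmask kt a b).testBit x = true := by
  have e : rmask kt a b = (1 - (a - b)) * ((2 ^ (low kt a b - kt a b) - 1) <<< (kt a b + 3)) := rfl
  have e0 : a - b = 0 := by omega
  rw [e, e0, Nat.sub_zero, Nat.one_mul, Nat.testBit_shiftLeft, Nat.testBit_two_pow_sub_one,
    Bool.and_eq_true, decide_eq_true_eq, decide_eq_true_eq]
  omega

theorem rmask_two {kt : ℕ → ℕ → ℕ} {a b x : ℕ} (h : (rmask kt a b).testBit x = true) :
    2 ≤ x := by
  have e : rmask kt a b = (1 - (a - b)) * ((2 ^ (low kt a b - kt a b) - 1) <<< (kt a b + 3)) := rfl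
  rw [e] at h
  have h1 : 1 - (a - b) = 0 ∨ 1 - (a - b) = 1 := by omega
  rcases h1 with h1 | h1
  · rw [h1, Nat.zero_mul, Nat.zero_testBit] at h
    exact absurd h (by decide)
  · rw [h1, Nat.one_mul, Nat.testBit_shiftLeft, Bool.and_eq_true, decide_eq_true_eq] at h
    omega

end Masks

/-- The whole computation. -/
def run (W H NA N j t0 : ℕ) (kt : ℕ → ℕ → ℕ) : Bool :=
  bind (Nat.mul H W) fun SA =>
  bind (Nat.sub (Nat.pow 2 (Nat.sub W 1)) 1) fun row =>
  bind (Nat.sub (Nat.pow 2 W) 1) fun row' =>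
  bind (bld SA (fun _ => bld W (fun _ => row) 0 (Nat.sub H 1)) 0 NA) fun FULL =>
  bind (bld 1 (fun i => Nat.sub 1 (Nat.mod i 2)) 0 W) fun e1 =>
  bind (bld SA (fun a => bld W (fun b => Nat.mul (Nat.mul (Nat.sub 1 (Nat.mod a 2))
    (Nat.sub 1 (Nat.mod b 2))) e1) 0 H) 0 NA) fun E =>
  bind (bld SA (fun a => bld W (fun b => Nat.land row' (rmask kt a b)) 0 H) 0 NA) fun M =>
  loop W SA FULL E M j t0 N true 0 0 0 0 1 0 0 0 0 0

theorem run_spec {f : ℕ → ℕ → ℕ → ℕ → Prop} (hf : Rule f) {W H NA N j t0 : ℕ}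
    {kt : ℕ → ℕ → ℕ} (hW : 2 ≤ W) (hH : 2 ≤ H) (hNA : 1 ≤ NA)
    (h : run W H NA N j t0 kt = true) :
    (∀ a b u y, a ≤ b → Bx W H NA a b (u + 2) → kt a b < u → u ≤ low kt a b →
      a + b + u + y + 4 < N → (f a b (u + 2) (y + 2) ↔ f a b u y)) ∧
    (t0 < N → ∀ a b x, Bx W H NA a b x → (a * H + b) * W + x = j →
        a + b + x ≤ N - 1 - t0 → ¬ f a b x (N - 1 - t0 - (a + b + x))) := by
  unfold run at h
  simp only [bind_eq] at h
  have e1 : ∀ i x, x < W → (bld 1 (fun i => Nat.sub 1 (Nat.mod i 2)) i W).testBit x =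
      decide ((i + x) % 2 = 0) := by
    intro i x hx
    have h1 := bld_testBit (w := 1) (g := fun i => 1 - i % 2) (fun i => by
      show 1 - i % 2 < 2 ^ 1
      omega) W i x 0 (by omega)
    rw [Nat.mul_one, Nat.add_zero] at h1
    refine h1.trans ?_
    rw [decide_eq_true hx, Bool.true_and]
    show (1 - (i + x) % 2).testBit 0 = _
    have h2 : (i + x) % 2 = 0 ∨ (i + x) % 2 = 1 := by omega
    rcases h2 with h2 | h2
    · rw [h2]; rfl
    · rw [h2]; rfl
  have hrow : 2 ^ (W - 1) - 1 < 2 ^ W :=
    lt_of_le_of_lt (Nat.sub_le _ _) (Nat.pow_lt_pow_right (by omega) (by omega))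
  have cFULL : Code W H (Bx W H NA) (bld (H * W) (fun _ => bld W (fun _ => 2 ^ (W - 1) - 1) 0
      (H - 1)) 0 NA) := by
    refine (code_bld (NA := NA) (HB := H - 1) (by omega) (r := fun _ _ => 2 ^ (W - 1) - 1)
      (fun _ _ => hrow)).congr ?_
    intro a b x hb hx
    show (a < NA ∧ b < H - 1 ∧ (2 ^ (W - 1) - 1).testBit x = true) ↔ Bx W H NA a b x
    rw [Nat.testBit_two_pow_sub_one, decide_eq_true_eq]
    unfold Bx
    omega
  have he1 : bld 1 (fun i => Nat.sub 1 (Nat.mod i 2)) 0 W < 2 ^ W := by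
    have := bld_lt (w := 1) (g := fun i => 1 - i % 2) (fun i => by
      show 1 - i % 2 < 2 ^ 1
      omega) W 0
    rwa [Nat.mul_one] at this
  have cE : Code W H (fun a b x => a < NA ∧ b < H ∧ (a % 2 = 0 ∧ b % 2 = 0 ∧ x % 2 = 0))
      (bld (H * W) (fun a => bld W (fun b => ((1 - a % 2) * (1 - b % 2)) *
        (bld 1 (fun i => Nat.sub 1 (Nat.mod i 2)) 0 W)) 0 H) 0 NA) := by
    refine (code_bld (NA := NA) (HB := H) le_rfl (r := fun a b => ((1 - a % 2) * (1 - b % 2)) *
        (bld 1 (fun i => Nat.sub 1 (Nat.mod i 2)) 0 W)) ?_).congr ?_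
    · intro a b
      refine lt_of_le_of_lt ?_ he1
      have h1 : (1 - a % 2) * (1 - b % 2) ≤ 1 * 1 :=
        Nat.mul_le_mul (by omega) (by omega)
      calc _ ≤ 1 * _ := Nat.mul_le_mul_right _ h1
        _ = _ := Nat.one_mul _
    · intro a b x hb hx
      have k0 := e1 0 x hx
      rw [Nat.zero_add] at k0
      have ha : a % 2 = 0 ∨ a % 2 = 1 := by omega
      have hb' : b % 2 = 0 ∨ b % 2 = 1 := by omega
      rcases ha with ha | ha <;> rcases hb' with hb' | hb'
      · rw [ha, hb']
        show (a < NA ∧ b < H ∧ (((1 - 0) * (1 - 0)) * _).testBit x = true) ↔ _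
        rw [Nat.sub_zero, Nat.one_mul, k0, decide_eq_true_eq]
        omega
      · rw [ha, hb']
        show (a < NA ∧ b < H ∧ (((1 - 0) * (1 - 1)) * _).testBit x = true) ↔ _
        simp only [Nat.sub_self, Nat.mul_zero, Nat.zero_mul, Nat.zero_testBit]
        constructor
        · intro h'; exact absurd h'.2.2 (by decide)
        · intro h'; omega
      · rw [ha, hb']
        show (a < NA ∧ b < H ∧ (((1 - 1) * (1 - 0)) * _).testBit x = true) ↔ _
        simp only [Nat.sub_self, Nat.zero_mul, Nat.zero_testBit]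
        constructor
        · intro h'; exact absurd h'.2.2 (by decide)
        · intro h'; omega
      · rw [ha, hb']
        show (a < NA ∧ b < H ∧ (((1 - 1) * (1 - 1)) * _).testBit x = true) ↔ _
        simp only [Nat.sub_self, Nat.zero_mul, Nat.zero_testBit]
        constructor
        · intro h'; exact absurd h'.2.2 (by decide)
        · intro h'; omega
  have cM : Code W H (fun a b x => a < NA ∧ b < H ∧ ((2 ^ W - 1) &&& rmask kt a b).testBit x = true)
      (bld (H * W) (fun a => bld W (fun b => (2 ^ W - 1) &&& rmask kt a b) 0 H) 0 NA) := by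
    refine code_bld le_rfl ?_
    intro a b
    refine lt_of_le_of_lt Nat.and_le_left ?_
    have : 0 < 2 ^ W := Nat.pow_pos (by omega)
    omega
  have z0 : ∀ a b x, ¬ sS f W H NA 0 a b x := by
    intro a b x h1
    unfold sS at h1
    omega
  have z1 : ∀ a b x, ¬ sY f W H NA 0 a b x := by
    intro a b x h1
    rcases h1 with h1 | h1
    · exact z0 _ _ _ h1
    · exact z0 _ _ _ h1
  have z2 : ∀ a b x, ¬ sR f W H NA 0 a b x := by
    intro a b x h1
    rcases h1 with h1 | h1
    · exact z1 _ _ _ h1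
    · exact z1 _ _ _ h1.2
  have z3 : ∀ a b x, ¬ sQ f W H NA 0 a b x := by
    intro a b x h1
    rcases h1 with h1 | h1
    · exact z2 _ _ _ h1
    · exact z2 _ _ _ h1.2
  have cV : Code W H (sV W H NA 0) 1 := by
    intro a b x hb hx
    have e0 : (1 : ℕ) = 2 ^ 0 := rfl
    rw [e0, Nat.testBit_two_pow, decide_eq_true_eq]
    unfold sV Bx
    constructor
    · intro h1
      have h2 : (a * H + b) * W = 0 := by omega
      have h3 : a * H + b = 0 := by
        rcases Nat.mul_eq_zero.1 h2 with h3 | h3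
        · exact h3
        · omega
      have h4 : a * H = 0 := by omega
      have h5 : a = 0 := by
        rcases Nat.mul_eq_zero.1 h4 with h5 | h5
        · exact h5
        · omega
      omega
    · intro h1
      have h2 : a = 0 ∧ b = 0 ∧ x = 0 := by omega
      obtain ⟨rfl, rfl, rfl⟩ := h2
      simp
  obtain ⟨r1, r2⟩ := loop_spec (gM := fun a b x => a < NA ∧ b < H ∧
      ((2 ^ W - 1) &&& rmask kt a b).testBit x = true) hf (by omega) (by omega) cFULL
    (E := bld (H * W) (fun a => bld W (fun b => ((1 - a % 2) * (1 - b % 2)) *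
        (bld 1 (fun i => Nat.sub 1 (Nat.mod i 2)) 0 W)) 0 H) 0 NA)
    (fun a b x hB => by
      unfold Bx at hB
      rw [cE a b x (by omega) (by omega)]
      exact ⟨fun h' => h'.2.2, fun h' => ⟨by omega, by omega, h'⟩⟩) cM
    (fun a b x hg => by
      have h1 := hg.2.2
      rw [Nat.testBit_and, Bool.and_eq_true] at h1
      exact rmask_two h1.2)
    N 0 true 0 0 0 0 1 0 0 0 0 0 (by simp) (Code.zero z0) (Code.zero z1) (Code.zero z2)
    (Code.zero z3) cV (Code.zero z0) (Code.zero z0) (Code.zero z0)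
    (Code.zero (fun _ _ _ h' => by omega)) (Code.zero (fun _ _ _ h' => by omega)) h
  refine ⟨?_, ?_⟩
  · intro a b u y hab hB h1 h2 h3
    have hB' := hB
    unfold Bx at hB'
    refine r1 (a + b + u + y + 4) a b u y (by omega) (by omega) hB ?_ rfl
    refine ⟨by omega, by omega, ?_⟩
    rw [Nat.testBit_and, Bool.and_eq_true, Nat.testBit_two_pow_sub_one, decide_eq_true_eq]
    exact ⟨by omega, rmask_testBit hab (by omega) (by omega)⟩
  · intro h1 a b x hB hj hle
    have := r2 h1 a b x hB hj
    rw [Nat.zero_add] at this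
    exact this hle

end Pool.Agent.SNT.BoxT
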