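import Mathlib

set_option autoImplicit false

/-! Along a coordinate, a semilinear subset of `ℕ^ι` is periodic from a threshold on which is
linear in the other coordinates. -/

namespace Pool.Agent.SNT

open Finset Pointwise

variable {ι : Type} [Fintype ι] [DecidableEq ι]

/-- `s` is `N`-periodic in the coordinate `k` from `C (∑_{i ≠ k} x i + 1)` on. -/
def PerN (k : ι) (N C : ℕ) (s : Set (ι → ℕ)) : Prop :=
  ∀ x : ι → ℕ, C * (∑ i ∈ univ.erase k, x i + 1) ≤ x k → (x ∈ s ↔ x + Pi.single k N ∈ s)

theorem sum_erase_add_single (k : ι) (x : ι → ℕ) (n : ℕ) :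
    ∑ i ∈ univ.erase k, (x + Pi.single k n : ι → ℕ) i = ∑ i ∈ univ.erase k, x i := by
  refine sum_congr rfl fun i hi => ?_
  have : i ≠ k := (mem_erase.1 hi).1
  simp [this]

theorem PerN.mul {k : ι} {N C : ℕ} {s : Set (ι → ℕ)} (h : PerN k N C s) (M : ℕ) :
    PerN k (N * M) C s := by
  induction M with
  | zero => intro x _; simp
  | succ M ih =>
    intro x hx
    refine (ih x hx).trans ((h (x + Pi.single k (N * M)) ?_).trans ?_)
    · rw [sum_erase_add_single]
      simp only [Pi.add_apply, Pi.single_eq_same]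
      omega
    · have : x + Pi.single k (N * M) + Pi.single k N = x + Pi.single k (N * (M + 1)) := by
        rw [add_assoc, ← Pi.single_add]
        congr 2
      rw [this]

theorem PerN.mono {k : ι} {N C C' : ℕ} {s : Set (ι → ℕ)} (h : PerN k N C s) (hC : C ≤ C') :
    PerN k N C' s := by
  intro x hx
  exact h x (le_trans (Nat.mul_le_mul_right _ hC) hx)

theorem PerN.union {k : ι} {N C : ℕ} {s s' : Set (ι → ℕ)} (h : PerN k N C s)
    (h' : PerN k N C s') : PerN k N C (s ∪ s') := by
  intro x hx
  simp only [Set.mem_union]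
  rw [h x hx, h' x hx]

theorem linear_perN (k : ι) (v : ι → ℕ) (T : Finset (ι → ℕ)) :
    ∃ N C : ℕ, 0 < N ∧
      PerN k N C (v +ᵥ (AddSubmonoid.closure (T : Set (ι → ℕ)) : Set (ι → ℕ))) := by
  classical
  set T0 := T.filter (fun p => (∀ i, i ≠ k → p i = 0) ∧ p k ≠ 0) with hT0
  set N := ∏ p ∈ T0, p k with hN
  set K := ∑ p ∈ T, p k with hK
  have hNpos : 0 < N := by
    rw [hN]
    apply Finset.prod_pos
    intro p hp
    rw [hT0, mem_filter] at hp
    exact Nat.pos_of_ne_zero hp.2.2
  have hmem : ∀ x : ι → ℕ, x ∈ AddSubmonoid.closure (T : Set (ι → ℕ)) ↔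
      ∃ c : (ι → ℕ) → ℕ, x = ∑ p ∈ T, c p • p := by
    intro x
    constructor
    · intro hx
      induction hx using AddSubmonoid.closure_induction with
      | mem x hx =>
        refine ⟨fun p => if p = x then 1 else 0, ?_⟩
        rw [Finset.sum_eq_single x]
        · simp
        · intro p _ hpx; simp [hpx]
        · intro h; exact absurd hx h
      | zero => exact ⟨fun _ => 0, by simp⟩
      | add x y _ _ hx hy =>
        obtain ⟨c, rfl⟩ := hx
        obtain ⟨c', rfl⟩ := hy
        refine ⟨fun p => c p + c' p, ?_⟩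
        rw [← Finset.sum_add_distrib]
        exact Finset.sum_congr rfl fun p _ => by rw [add_smul]
    · rintro ⟨c, rfl⟩
      exact AddSubmonoid.sum_mem _ fun p hp =>
        AddSubmonoid.nsmul_mem _ (AddSubmonoid.subset_closure hp) _
  -- the other coordinates
  have hoth : ∀ c : (ι → ℕ) → ℕ, ∀ x : ι → ℕ, x = ∑ p ∈ T, c p • p →
      ∑ i ∈ univ.erase k, x i = ∑ p ∈ T, c p * ∑ i ∈ univ.erase k, p i := by
    intro c x hx
    rw [hx]
    simp only [Finset.sum_apply, Pi.smul_apply, smul_eq_mul]
    rw [Finset.sum_comm]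
    exact sum_congr rfl fun p _ => by rw [mul_sum]
  -- a long element uses a pure period often
  have hlong : ∀ c : (ι → ℕ) → ℕ, ∀ x : ι → ℕ, x = ∑ p ∈ T, c p • p →
      K * (∑ i ∈ univ.erase k, x i) + N * K < x k → ∃ p ∈ T0, N ≤ c p := by
    intro c x hx hlt
    by_contra hcon
    push Not at hcon
    have h2 : x k = ∑ p ∈ T, c p * p k := by rw [hx]; simp [Finset.sum_apply]
    have hb : ∀ p ∈ T, c p * p k ≤ K * (c p * ∑ i ∈ univ.erase k, p i) + N * p k := by
      intro p hp
      by_cases hp0 : p ∈ T0
      · have := hcon p hp0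
        have h3 : c p * p k ≤ N * p k := Nat.mul_le_mul_right _ this.le
        omega
      · have hpK : p k ≤ K := Finset.single_le_sum (f := fun p : ι → ℕ => p k)
          (fun _ _ => Nat.zero_le _) hp
        by_cases hz : p k = 0
        · simp [hz]
        · have hne : 1 ≤ ∑ i ∈ univ.erase k, p i := by
            by_contra hlt1
            apply hp0
            rw [hT0, mem_filter]
            refine ⟨hp, fun i hi => ?_, hz⟩
            have h0 : ∑ i ∈ univ.erase k, p i = 0 := by omega
            exact (sum_eq_zero_iff.1 h0) i (mem_erase.2 ⟨hi, mem_univ _⟩)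
          have : c p * p k ≤ K * (c p * ∑ i ∈ univ.erase k, p i) := by
            calc c p * p k ≤ c p * K := Nat.mul_le_mul_left _ hpK
              _ = K * (c p * 1) := by ring
              _ ≤ K * (c p * ∑ i ∈ univ.erase k, p i) := by gcongr
          omega
    have hs := Finset.sum_le_sum hb
    rw [← h2, Finset.sum_add_distrib, ← Finset.mul_sum, ← hoth c x hx, ← Finset.mul_sum,
      ← hK] at hs
    omega
  refine ⟨N, K + N * K + v k + 1, hNpos, ?_⟩
  intro y hy
  have hmv : ∀ y : ι → ℕ, y ∈ (v +ᵥ (AddSubmonoid.closure (T : Set (ι → ℕ)) :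
      Set (ι → ℕ))) ↔ ∃ c : (ι → ℕ) → ℕ, y = v + ∑ p ∈ T, c p • p := by
    intro y
    rw [Set.mem_vadd_set]
    constructor
    · rintro ⟨x, hx, rfl⟩
      obtain ⟨c, rfl⟩ := (hmem x).1 hx
      exact ⟨c, rfl⟩
    · rintro ⟨c, rfl⟩
      exact ⟨_, (hmem _).2 ⟨c, rfl⟩, rfl⟩
  have hdvd : ∀ p ∈ T0, p k ∣ N := fun p hp => Finset.dvd_prod_of_mem _ hp
  have hpure : ∀ p ∈ T0, (N / p k) • p = Pi.single k N := by
    intro p hp
    have hpp := hp
    rw [hT0, mem_filter] at hp
    ext i
    by_cases hi : i = k
    · subst hi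
      simp only [Pi.smul_apply, smul_eq_mul, Pi.single_eq_same]
      exact Nat.div_mul_cancel (hdvd p hpp)
    · simp [hi, hp.2.1 i hi]
  rw [hmv, hmv]
  have hbig : ∀ x : ι → ℕ, ∑ i ∈ univ.erase k, x i ≤ ∑ i ∈ univ.erase k, y i →
      y k ≤ x k + v k → K * (∑ i ∈ univ.erase k, x i) + N * K < x k := by
    intro x ha h
    set A := ∑ i ∈ univ.erase k, y i with hA
    have h1 : K * (∑ i ∈ univ.erase k, x i) ≤ K * A := Nat.mul_le_mul_left _ ha
    have h2 : (K + N * K + v k + 1) * (A + 1) =
      K * A + (K + (N * K + v k + 1) * (A + 1)) := by ring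
    have h3 : (N * K + v k + 1) ≤ (N * K + v k + 1) * (A + 1) :=
      Nat.le_mul_of_pos_right _ (by omega)
    omega
  constructor
  · rintro ⟨c, hc⟩
    set x := ∑ p ∈ T, c p • p with hx
    have e : ∀ i, y i = v i + x i := fun i => congrFun hc i
    obtain ⟨p, hp, _⟩ := hlong c x hx (hbig x
      (sum_le_sum fun i _ => by rw [e i]; omega) (by rw [e k]; omega))
    have hpT : p ∈ T := (mem_filter.1 hp).1
    refine ⟨fun q => c q + (if q = p then N / p k else 0), ?_⟩
    have : ∑ q ∈ T, (c q + (if q = p then N / p k else 0)) • q = x + Pi.single k N := by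
      simp only [add_smul]
      rw [Finset.sum_add_distrib, ← hx]
      congr 1
      rw [Finset.sum_eq_single p]
      · simp only [if_true]; exact hpure p hp
      · intro q _ hq; simp [hq]
      · intro h; exact absurd hpT h
    rw [this, hc, add_assoc]
  · rintro ⟨c, hc⟩
    set x := ∑ p ∈ T, c p • p with hx
    have e : ∀ i, (y + Pi.single k N : ι → ℕ) i = v i + x i := fun i => congrFun hc i
    have e' : ∀ i ∈ univ.erase k, y i = v i + x i := by
      intro i hi
      have := e i
      have hik : i ≠ k := (mem_erase.1 hi).1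
      simpa [hik] using this
    have ek : y k + N = v k + x k := by
      have := e k
      simpa using this
    obtain ⟨p, hp, hcp⟩ := hlong c x hx (hbig x
      (sum_le_sum fun i hi => by rw [e' i hi]; omega) (by omega))
    have hpT : p ∈ T := (mem_filter.1 hp).1
    refine ⟨fun q => c q - (if q = p then N / p k else 0), ?_⟩
    have : (∑ q ∈ T, (c q - (if q = p then N / p k else 0)) • q) + Pi.single k N = x := by
      rw [← hpure p hp, hx]
      have hs : (N / p k) • p = ∑ q ∈ T, (if q = p then N / p k else 0) • q := by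
        rw [Finset.sum_eq_single p]
        · simp
        · intro q _ hq; simp [hq]
        · intro h; exact absurd hpT h
      rw [hs, ← Finset.sum_add_distrib]
      refine Finset.sum_congr rfl fun q _ => ?_
      rw [← add_smul]
      congr 1
      by_cases hq : q = p
      · subst hq
        simp only [if_true]
        have : N / q k ≤ N := Nat.div_le_self _ _
        omega
      · simp [hq]
    rw [← this, ← add_assoc] at hc
    exact add_right_cancel hc

/-- A semilinear subset of `ℕ^ι` is periodic along a coordinate from a linear threshold. -/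
theorem semilinear_perN {s : Set (ι → ℕ)} (hs : IsSemilinearSet s) (k : ι) :
    ∃ N C : ℕ, 0 < N ∧ PerN k N C s := by
  obtain ⟨S, hS, hlin, rfl⟩ := hs
  induction S, hS using Set.Finite.induction_on with
  | empty => exact ⟨1, 0, one_pos, fun x _ => by simp⟩
  | @insert s S _ _ ih =>
    obtain ⟨N, C, hN, h⟩ := ih fun t ht => hlin t (Set.mem_insert_of_mem _ ht)
    obtain ⟨v, T, hT, hs⟩ := hlin s (Set.mem_insert _ _)
    obtain ⟨N', C', hN', h'⟩ := linear_perN k v hT.toFinset
    rw [Set.Finite.coe_toFinset, ← hs] at h'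
    refine ⟨N * N', max C C', Nat.mul_pos hN hN', ?_⟩
    rw [Set.sUnion_insert]
    refine PerN.union ?_ ?_
    · have := (h'.mul N).mono (le_max_right C C')
      rwa [Nat.mul_comm N' N] at this
    · exact (h.mul N').mono (le_max_left C C')

end Pool.Agent.SNT
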