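import Pool.Agent.SNT.Final
import Pool.Agent.SNT.ThrN

set_option autoImplicit false

/-! The four counter rule: symmetry, far field, independence, persistence, and the final reduction:
if a solution of the rule cannot be periodic along the diagonal of its last two counters from a
linear threshold on, then the frozen statement follows. -/

namespace Pool.Agent.SNT

open Finset Pointwise

/-- The four counter rule. -/
def Rule (f : ℕ → ℕ → ℕ → ℕ → Prop) : Prop :=
  ∀ a b x y, f a b x y ↔
    (¬ (a % 2 = 0 ∧ b % 2 = 0 ∧ x % 2 = 0 ∧ y % 2 = 0) ∧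
     ∀ p q r s : ℕ, p ≤ 1 → q ≤ 1 → r ≤ 1 → s ≤ 1 → 1 ≤ p + q + r + s →
        p ≤ a → q ≤ b → r ≤ x → s ≤ y → ¬ f (a - p) (b - q) (x - r) (y - s))

theorem rule_of_sub1 {f : ℕ → ℕ → ℕ → ℕ → Prop}
    (h : ∀ z : Fin 4 → ℕ, f (z 0) (z 1) (z 2) (z 3) ↔
        (¬ AllEven z ∧ ∀ K : Finset (Fin 4), K.Nonempty → (∀ i ∈ K, 1 ≤ z i) →
          ¬ f (sub1 z K 0) (sub1 z K 1) (sub1 z K 2) (sub1 z K 3))) : Rule f := by
  intro a b x y
  have h0 := h ![a, b, x, y]
  have e : f a b x y ↔ _ := h0
  rw [e]
  refine and_congr ?_ ?_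
  · unfold AllEven
    constructor
    · intro h1 h2
      apply h1
      intro i
      fin_cases i
      · exact h2.1
      · exact h2.2.1
      · exact h2.2.2.1
      · exact h2.2.2.2
    · intro h1 h2
      exact h1 ⟨h2 0, h2 1, h2 2, h2 3⟩
  · constructor
    · intro h1 p q r s hp hq hr hs hsum hpa hqb hrx hsy
      set K : Finset (Fin 4) := univ.filter (fun i => (![p, q, r, s] : Fin 4 → ℕ) i = 1) with hK
      have hmem : ∀ i, i ∈ K ↔ (![p, q, r, s] : Fin 4 → ℕ) i = 1 := by
        intro i; simp [hK]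
      have h2 := h1 K ?_ ?_
      · have e0 : sub1 ![a, b, x, y] K 0 = a - p := by
          unfold sub1
          by_cases hc : (0 : Fin 4) ∈ K
          · have : p = 1 := (hmem 0).1 hc
            simp [hc, this]
          · have : p ≠ 1 := fun h' => hc ((hmem 0).2 h')
            have : p = 0 := by omega
            simp [hc, this]
        have e1 : sub1 ![a, b, x, y] K 1 = b - q := by
          unfold sub1
          by_cases hc : (1 : Fin 4) ∈ K
          · have : q = 1 := (hmem 1).1 hc
            simp [hc, this]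
          · have : q ≠ 1 := fun h' => hc ((hmem 1).2 h')
            have : q = 0 := by omega
            simp [hc, this]
        have e2 : sub1 ![a, b, x, y] K 2 = x - r := by
          unfold sub1
          by_cases hc : (2 : Fin 4) ∈ K
          · have : r = 1 := (hmem 2).1 hc
            simp [hc, this]
          · have : r ≠ 1 := fun h' => hc ((hmem 2).2 h')
            have : r = 0 := by omega
            simp [hc, this]
        have e3 : sub1 ![a, b, x, y] K 3 = y - s := by
          unfold sub1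
          by_cases hc : (3 : Fin 4) ∈ K
          · have : s = 1 := (hmem 3).1 hc
            simp [hc, this]
          · have : s ≠ 1 := fun h' => hc ((hmem 3).2 h')
            have : s = 0 := by omega
            simp [hc, this]
        rw [e0, e1, e2, e3] at h2
        exact h2
      · have : p = 1 ∨ q = 1 ∨ r = 1 ∨ s = 1 := by omega
        rcases this with h' | h' | h' | h'
        · exact ⟨0, (hmem 0).2 h'⟩
        · exact ⟨1, (hmem 1).2 h'⟩
        · exact ⟨2, (hmem 2).2 h'⟩
        · exact ⟨3, (hmem 3).2 h'⟩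
      · intro i hi
        have hi' := (hmem i).1 hi
        fin_cases i
        · change p = 1 at hi'; show 1 ≤ a; omega
        · change q = 1 at hi'; show 1 ≤ b; omega
        · change r = 1 at hi'; show 1 ≤ x; omega
        · change s = 1 at hi'; show 1 ≤ y; omega
    · intro h1 K hne hK
      have h2 := h1 (if (0 : Fin 4) ∈ K then 1 else 0) (if (1 : Fin 4) ∈ K then 1 else 0)
        (if (2 : Fin 4) ∈ K then 1 else 0) (if (3 : Fin 4) ∈ K then 1 else 0)
        (by split_ifs <;> omega) (by split_ifs <;> omega) (by split_ifs <;> omega)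
        (by split_ifs <;> omega) (by
          obtain ⟨i, hi⟩ := hne
          have hi4 : i = 0 ∨ i = 1 ∨ i = 2 ∨ i = 3 := by
            fin_cases i <;> simp
          rcases hi4 with h' | h' | h' | h' <;> subst h' <;> rw [if_pos hi] <;>
            split_ifs <;> omega)
        (by
          split_ifs with hc
          · exact hK 0 hc
          · omega)
        (by
          split_ifs with hc
          · exact hK 1 hc
          · omega)
        (by
          split_ifs with hc
          · exact hK 2 hc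
          · omega)
        (by
          split_ifs with hc
          · exact hK 3 hc
          · omega)
      have e : ∀ i : Fin 4, sub1 ![a, b, x, y] K i =
          (![a, b, x, y] : Fin 4 → ℕ) i - (if i ∈ K then 1 else 0) := by
        intro i
        unfold sub1
        split_ifs <;> simp
      rw [e 0, e 1, e 2, e 3]
      exact h2

variable {f : ℕ → ℕ → ℕ → ℕ → Prop}

theorem Rule.not_allEven (hf : Rule f) {a b x y : ℕ} (h : f a b x y) :
    ¬ (a % 2 = 0 ∧ b % 2 = 0 ∧ x % 2 = 0 ∧ y % 2 = 0) := ((hf a b x y).1 h).1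

/-- Independence, downwards. -/
theorem Rule.down (hf : Rule f) {a b x y : ℕ} (h : f a b x y) {p q r s : ℕ} (hp : p ≤ 1)
    (hq : q ≤ 1) (hr : r ≤ 1) (hs : s ≤ 1) (hsum : 1 ≤ p + q + r + s) (ha : p ≤ a) (hb : q ≤ b)
    (hx : r ≤ x) (hy : s ≤ y) : ¬ f (a - p) (b - q) (x - r) (y - s) :=
  ((hf a b x y).1 h).2 p q r s hp hq hr hs hsum ha hb hx hy

/-- Independence, upwards. -/
theorem Rule.up (hf : Rule f) {a b x y : ℕ} (h : f a b x y) {p q r s : ℕ} (hp : p ≤ 1)
    (hq : q ≤ 1) (hr : r ≤ 1) (hs : s ≤ 1) (hsum : 1 ≤ p + q + r + s) :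
    ¬ f (a + p) (b + q) (x + r) (y + s) := by
  intro h'
  have := hf.down h' hp hq hr hs hsum (by omega) (by omega) (by omega) (by omega)
  simp only [Nat.add_sub_cancel] at this
  exact this h

/-- If a cell is not all even and not `1`, one of its predecessors is `1`. -/
theorem Rule.exists_pred (hf : Rule f) {a b x y : ℕ}
    (hne : ¬ (a % 2 = 0 ∧ b % 2 = 0 ∧ x % 2 = 0 ∧ y % 2 = 0)) (h : ¬ f a b x y) :
    ∃ p q r s : ℕ, p ≤ 1 ∧ q ≤ 1 ∧ r ≤ 1 ∧ s ≤ 1 ∧ 1 ≤ p + q + r + s ∧
      p ≤ a ∧ q ≤ b ∧ r ≤ x ∧ s ≤ y ∧ f (a - p) (b - q) (x - r) (y - s) := by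
  by_contra hcon
  apply h
  rw [hf]
  refine ⟨hne, ?_⟩
  intro p q r s hp hq hr hs hsum ha hb hx hy hff
  exact hcon ⟨p, q, r, s, hp, hq, hr, hs, hsum, ha, hb, hx, hy, hff⟩

/-- Uniqueness. -/
theorem Rule.unique {g : ℕ → ℕ → ℕ → ℕ → Prop} (hf : Rule f) (hg : Rule g) :
    ∀ a b x y, f a b x y ↔ g a b x y := by
  suffices H : ∀ n : ℕ, ∀ a b x y : ℕ, a + b + x + y = n → (f a b x y ↔ g a b x y) from
    fun a b x y => H _ a b x y rfl
  intro n
  induction n using Nat.strong_induction_on with
  | _ n ih =>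
    intro a b x y hn
    rw [hf, hg]
    refine and_congr_right fun _ => ?_
    refine forall_congr' fun p => forall_congr' fun q => forall_congr' fun r =>
      forall_congr' fun s => forall_congr' fun hp => forall_congr' fun hq => forall_congr' fun hr =>
      forall_congr' fun hs => forall_congr' fun hsum => forall_congr' fun ha =>
      forall_congr' fun hb => forall_congr' fun hx => forall_congr' fun hy => not_congr ?_
    exact ih _ (by omega) _ _ _ _ rfl

theorem Rule.swap_ab (hf : Rule f) (a b x y : ℕ) : f a b x y ↔ f b a x y := by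
  have hg : Rule (fun a b x y => f b a x y) := by
    intro a b x y
    show f b a x y ↔ _
    rw [hf]
    constructor
    · rintro ⟨h1, h2⟩
      refine ⟨fun h => h1 ⟨h.2.1, h.1, h.2.2.1, h.2.2.2⟩, ?_⟩
      intro p q r s hp hq hr hs hsum ha hb hx hy
      exact h2 q p r s hq hp hr hs (by omega) hb ha hx hy
    · rintro ⟨h1, h2⟩
      refine ⟨fun h => h1 ⟨h.2.1, h.1, h.2.2.1, h.2.2.2⟩, ?_⟩
      intro p q r s hp hq hr hs hsum ha hb hx hy
      exact h2 q p r s hq hp hr hs (by omega) hb ha hx hy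
  exact hf.unique hg a b x y

theorem Rule.swap_xy (hf : Rule f) (a b x y : ℕ) : f a b x y ↔ f a b y x := by
  have hg : Rule (fun a b x y => f a b y x) := by
    intro a b x y
    show f a b y x ↔ _
    rw [hf]
    constructor
    · rintro ⟨h1, h2⟩
      refine ⟨fun h => h1 ⟨h.1, h.2.1, h.2.2.2, h.2.2.1⟩, ?_⟩
      intro p q r s hp hq hr hs hsum ha hb hx hy
      exact h2 p q s r hp hq hs hr (by omega) ha hb hy hx
    · rintro ⟨h1, h2⟩
      refine ⟨fun h => h1 ⟨h.1, h.2.1, h.2.2.2, h.2.2.1⟩, ?_⟩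
      intro p q r s hp hq hr hs hsum ha hb hx hy
      exact h2 p q s r hp hq hs hr (by omega) ha hb hy hx
  exact hf.unique hg a b x y

theorem Rule.swap_bx (hf : Rule f) (a b x y : ℕ) : f a b x y ↔ f a x b y := by
  have hg : Rule (fun a b x y => f a x b y) := by
    intro a b x y
    show f a x b y ↔ _
    rw [hf]
    constructor
    · rintro ⟨h1, h2⟩
      refine ⟨fun h => h1 ⟨h.1, h.2.2.1, h.2.1, h.2.2.2⟩, ?_⟩
      intro p q r s hp hq hr hs hsum ha hb hx hy
      exact h2 p r q s hp hr hq hs (by omega) ha hx hb hy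
    · rintro ⟨h1, h2⟩
      refine ⟨fun h => h1 ⟨h.1, h.2.2.1, h.2.1, h.2.2.2⟩, ?_⟩
      intro p q r s hp hq hr hs hsum ha hb hx hy
      exact h2 p r q s hp hr hq hs (by omega) ha hx hb hy
  exact hf.unique hg a b x y

/-- The far field. -/
theorem Rule.far (hf : Rule f) : ∀ a b x y : ℕ, a + b + y + 1 ≤ x →
    (f a b x y ↔ a % 2 = 0 ∧ b % 2 = 0 ∧ y % 2 = 0 ∧ x % 2 = 1) := by
  suffices H : ∀ n : ℕ, ∀ a b x y : ℕ, a + b + x + y = n → a + b + y + 1 ≤ x →
      (f a b x y ↔ a % 2 = 0 ∧ b % 2 = 0 ∧ y % 2 = 0 ∧ x % 2 = 1) from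
    fun a b x y => H _ a b x y rfl
  intro n
  induction n using Nat.strong_induction_on with
  | _ n ih =>
    intro a b x y hn hx
    by_cases hev : a % 2 = 0 ∧ b % 2 = 0 ∧ y % 2 = 0
    · obtain ⟨ha, hb, hy⟩ := hev
      by_cases hx2 : x % 2 = 1
      · refine iff_of_true ?_ ⟨ha, hb, hy, hx2⟩
        rw [hf]
        refine ⟨fun h => by omega, ?_⟩
        intro p q r s hp hq hr hs hsum hpa hqb hrx hsy h
        by_cases hpqs : p + q + s = 0
        · have hr1 : r = 1 := by omega
          have hne := hf.not_allEven h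
          omega
        · have h3 := (ih _ (by omega) (a - p) (b - q) (x - r) (y - s) rfl (by omega)).1 h
          omega
      · refine iff_of_false ?_ (fun h => hx2 h.2.2.2)
        intro h
        exact hf.not_allEven h ⟨ha, hb, by omega, hy⟩
    · refine iff_of_false ?_ (fun h => hev ⟨h.1, h.2.1, h.2.2.1⟩)
      intro h
      have h1 := hf.down h (p := a % 2) (q := b % 2) (r := (x + 1) % 2) (s := y % 2) (by omega)
        (by omega) (by omega) (by omega) (by omega) (by omega) (by omega) (by omega) (by omega)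
      apply h1
      refine (ih _ (by omega) _ _ _ _ rfl (by omega)).2 ⟨by omega, by omega, by omega, by omega⟩

/-- Odd persistence (helper89, helper93). -/
theorem Rule.persist (hf : Rule f) {a b x y : ℕ} (h : f a b x y) (ha : a % 2 = 1) :
    ∃ q r s : ℕ, q ≤ 1 ∧ r ≤ 1 ∧ s ≤ 1 ∧ f (a + 2) (b + q) (x + r) (y + s) := by
  by_contra hcon
  push Not at hcon
  have key : f (a + 2) (b + 1) (x + 1) (y + 1) := by
    rw [hf]
    refine ⟨fun h' => by omega, ?_⟩
    intro p q r s hp hq hr hs hsum _ _ _ _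
    rcases Nat.lt_or_ge p 1 with hp0 | hp1
    · have : p = 0 := by omega
      subst this
      have h3 := hcon (1 - q) (1 - r) (1 - s) (by omega) (by omega) (by omega)
      have e1 : b + 1 - q = b + (1 - q) := by omega
      have e2 : x + 1 - r = x + (1 - r) := by omega
      have e3 : y + 1 - s = y + (1 - s) := by omega
      rw [e1, e2, e3]
      exact h3
    · have : p = 1 := by omega
      subst this
      have h3 := hf.up h (p := 1) (q := 1 - q) (r := 1 - r) (s := 1 - s) le_rfl (by omega)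
        (by omega) (by omega) (by omega)
      have e0 : a + 2 - 1 = a + 1 := by omega
      have e1 : b + 1 - q = b + (1 - q) := by omega
      have e2 : x + 1 - r = x + (1 - r) := by omega
      have e3 : y + 1 - s = y + (1 - s) := by omega
      rw [e0, e1, e2, e3]
      exact h3
  exact hcon 1 1 1 le_rfl le_rfl le_rfl key

/-- The property which has to be refuted. -/
def DiagPer (f : ℕ → ℕ → ℕ → ℕ → Prop) (N C : ℕ) : Prop :=
  ∀ a b x y : ℕ, C * (a + b + 1) ≤ max x y → (f a b x y ↔ f a b (x + 2 * N) (y + 2 * N))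

theorem Rule.diagPer (hf : Rule f)
    (hs : IsSemilinearSet {z : Fin 4 → ℕ | f (z 0) (z 1) (z 2) (z 3)}) :
    ∃ N C : ℕ, 0 < N ∧ DiagPer f N C := by
  let pr : Fin 4 → (Fin 4 → ℕ) →ₗ[ℕ] ℕ := fun i => LinearMap.proj i
  let φ : (Fin 4 → ℕ) →ₗ[ℕ] (Fin 4 → ℕ) := LinearMap.pi ![pr 0, pr 1, pr 3 + pr 2, pr 3]
  obtain ⟨N, C, hN, hp⟩ := semilinear_perN (hs.preimage φ) (3 : Fin 4)
  have key : ∀ a b d t : ℕ, C * (a + b + d + 1) ≤ t →
      (f a b (t + d) t ↔ f a b (t + N + d) (t + N)) := by
    intro a b d t ht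
    have h1 := hp ![a, b, d, t] (by
      have : ∑ i ∈ (univ : Finset (Fin 4)).erase 3, (![a, b, d, t] : Fin 4 → ℕ) i = a + b + d := by
        have h2 : (univ : Finset (Fin 4)).erase 3 = {0, 1, 2} := by decide
        rw [h2]
        simp [add_assoc]
      rw [this]
      exact ht)
    have e1 : (![a, b, d, t] : Fin 4 → ℕ) ∈ φ ⁻¹' {z : Fin 4 → ℕ | f (z 0) (z 1) (z 2) (z 3)} ↔
        f a b (t + d) t := Iff.rfl
    have e2 : (![a, b, d, t] + Pi.single 3 N : Fin 4 → ℕ) = ![a, b, d, t + N] := by
      ext i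
      fin_cases i <;> simp
    have e3 : (![a, b, d, t + N] : Fin 4 → ℕ) ∈
        φ ⁻¹' {z : Fin 4 → ℕ | f (z 0) (z 1) (z 2) (z 3)} ↔ f a b (t + N + d) (t + N) := Iff.rfl
    rw [e2] at h1
    exact e1.symm.trans (h1.trans e3)
  refine ⟨N, 2 * C + 1, hN, ?_⟩
  have main : ∀ a b x y : ℕ, y ≤ x → (2 * C + 1) * (a + b + 1) ≤ x →
      (f a b x y ↔ f a b (x + 2 * N) (y + 2 * N)) := by
    intro a b x y hyx hx
    rcases Nat.lt_or_ge (a + b + y) x with hfar | hnear
    · rw [hf.far a b x y hfar, hf.far a b (x + 2 * N) (y + 2 * N) (by omega)]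
      constructor
      · rintro ⟨h1, h2, h3, h4⟩
        exact ⟨h1, h2, by omega, by omega⟩
      · rintro ⟨h1, h2, h3, h4⟩
        exact ⟨h1, h2, by omega, by omega⟩
    · obtain ⟨d, rfl⟩ := Nat.exists_eq_add_of_le hyx
      have h1 : (2 * C + 1) * (a + b + 1) = C * (a + b + (a + b) + 1) + C + (a + b + 1) := by ring
      have h2 : C * (a + b + d + 1) ≤ C * (a + b + (a + b) + 1) :=
        Nat.mul_le_mul_left _ (by omega)
      have h3 := key a b d y (by omega)
      have h4 := key a b d (y + N) (by omega)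
      have e1 : y + N + N + d = y + d + 2 * N := by ring
      have e2 : y + N + N = y + 2 * N := by ring
      rw [e1, e2] at h4
      exact h3.trans h4
  intro a b x y h
  rcases le_total y x with hyx | hxy
  · exact main a b x y hyx (by rwa [max_eq_left hyx] at h)
  · rw [hf.swap_xy a b x y, hf.swap_xy a b (x + 2 * N)]
    exact main a b y x hxy (by rwa [max_eq_right hxy] at h)

/-- Final reduction. -/
theorem final_rule (h : ∀ f : ℕ → ℕ → ℕ → ℕ → Prop, Rule f → ∀ N C : ℕ, 0 < N →
      DiagPer f N C → False) :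
    ¬ (∀ n k : ℕ, 1 ≤ k →
      ∀ P : Set (Fin n → ℕ),
        (∀ x : Fin n → ℕ, x ∈ P ↔
          ∀ S : Finset (Fin n), S.card = k → (∀ i ∈ S, 1 ≤ x i) →
            (fun i => if i ∈ S then x i - 1 else x i) ∉ P) →
        ∃ m r : ℕ, ∃ base : Fin m → Fin n → ℕ, ∃ per : Fin m → Fin r → Fin n → ℕ,
          ∀ x : Fin n → ℕ, x ∈ P ↔
            ∃ i : Fin m, ∃ c : Fin r → ℕ, x = base i + ∑ j, c j • per i j) := by
  intro hfr
  have h1 : IsSemilinearSet {y | Qf 3 4 y} :=
    semilinear_Qf_le (k := 6) (r := 3) (m := 4) (by norm_num) (by norm_num) (by norm_num)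
      (gameEq_isPpos (by norm_num)) (hfr _ 6 (by norm_num) _ (gameEq_isPpos (by norm_num)))
  have hvec : ∀ z : Fin 4 → ℕ, ![z 0, z 1, z 2, z 3] = z := by
    intro z
    ext i
    fin_cases i <;> rfl
  have hR : Rule (fun a b x y => Qf 3 4 ![a, b, x, y]) := by
    apply rule_of_sub1
    intro z
    show Qf 3 4 ![z 0, z 1, z 2, z 3] ↔ _
    rw [hvec, isQ_Qf 3 4 z]
    refine and_congr ?_ (forall_congr' fun K => forall_congr' fun _ => forall_congr' fun _ => ?_)
    · have h1 := evn_add_odn z
      constructor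
      · intro h2 hall
        have h5 : (odn z).card = 0 := by
          rw [card_eq_zero]
          ext i
          simp only [odn, mem_filter, mem_univ, true_and, notMem_empty, iff_false]
          have := hall i
          omega
        omega
      · intro hall
        by_contra h2
        refine hall fun i => ?_
        by_contra h3
        have : i ∈ odn z := by
          simp only [odn, mem_filter, mem_univ, true_and]
          omega
        have := card_pos.2 ⟨i, this⟩
        omega
    · show _ ↔ ¬ Qf 3 4 ![sub1 z K 0, sub1 z K 1, sub1 z K 2, sub1 z K 3]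
      rw [hvec]
  have h2 : IsSemilinearSet {z : Fin 4 → ℕ | (fun a b x y => Qf 3 4 ![a, b, x, y])
      (z 0) (z 1) (z 2) (z 3)} := by
    convert h1 using 1
    ext z
    show Qf 3 4 ![z 0, z 1, z 2, z 3] ↔ Qf 3 4 z
    rw [hvec]
  obtain ⟨N, C, hN, hp⟩ := hR.diagPer h2
  exact h _ hR N C hN hp

end Pool.Agent.SNT
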