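import Pool.Agent.SNT.LW2a

set_option autoImplicit false

/-! The wide windows `Wd` of two neighbouring layers: the turns and the edges. -/

namespace Pool.Agent.SNT.LW

variable {f : ℕ → ℕ → ℕ → ℕ → Prop}

/-- The window of a wide leader: `A = B + 2`, IN rows `c`, `c + 4`, `c + 8` of `A` with the leads
`m`, `m + h + 1`, `m + 2 (h + 1)`, IN rows `c + 2`, `c + 6` of `B` with the leads `l`, `l + h + 1`,
where `l + 3 = m + h + 1`. -/
structure Wd (f : ℕ → ℕ → ℕ → ℕ → Prop) (B c h g m l : ℕ) : Prop where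
  hB : B % 2 = 0
  h12 : 12 ≤ B
  hc : c % 2 = 0
  ph : (B + c) % 4 = 0
  hh : (B + 2) / 6 = h
  hg : B / 6 = g
  hk : 9 ≤ h
  big : 2 * B + 60 ≤ c
  hl : l + 3 = m + h + 1
  C0 : Cw f (B + 2) c m
  C1 : Cw f (B + 2) (c + 4) (m + h + 1)
  C2 : Cw f (B + 2) (c + 8) (m + 2 * (h + 1))
  D0 : Cw f B (c + 2) l
  D1 : Cw f B (c + 6) (l + h + 1)

variable {B c h g m l : ℕ}

theorem Wd.lC0 (W : Wd f B c h g m l) : Lay (B + 2) c h :=
  ⟨by have := W.hB; omega, by have := W.h12; omega, W.hh, by have := W.ph; omega⟩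

theorem Wd.lC1 (W : Wd f B c h g m l) : Lay (B + 2) (c + 4) h :=
  ⟨by have := W.hB; omega, by have := W.h12; omega, W.hh, by have := W.ph; omega⟩

theorem Wd.lC2 (W : Wd f B c h g m l) : Lay (B + 2) (c + 8) h :=
  ⟨by have := W.hB; omega, by have := W.h12; omega, W.hh, by have := W.ph; omega⟩

theorem Wd.lD0 (W : Wd f B c h g m l) : Lay B (c + 2) g :=
  ⟨W.hB, W.h12, W.hg, by have := W.ph; omega⟩

theorem Wd.lD1 (W : Wd f B c h g m l) : Lay B (c + 6) g :=
  ⟨W.hB, W.h12, W.hg, by have := W.ph; omega⟩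

/-- The diagonal turn. -/
theorem turn_a (hf : Rule f) (W : Wd f B c h g m l)
    (ht : ¬ f (B + 2) (c + 4) (2 * (m + h + 1) + 1) (2 * (m + h + 1))) :
    ¬ f (B + 2) (c + 6) (2 * (m + h + 1) + 4) (2 * (m + h + 1) + 3) := by
  intro hX
  have e1 := W.hB
  have e2 := W.h12
  have e3 := W.hc
  have e4 := W.ph
  have e5 := W.hh
  have e6 := W.hg
  have e7 := W.hk
  have e8 := W.big
  have e9 := W.hl
  refine dg2a hf (a0 := B - 1) (b0 := c + 1) (x0 := 2 * (m + h + 1) - 3) (y0 := 2 * (m + h + 1) - 3) rfl  (by omega) (by omega) (by omega) (by omega) ?_ ?_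
  · intro j n p q _ hx
    rcases hx with ⟨rfl, rfl, rfl, rfl⟩ | ⟨rfl, rfl, rfl, rfl⟩ | ⟨rfl, rfl, rfl, rfl⟩ | ⟨rfl, rfl, rfl, rfl⟩ |
      ⟨rfl, rfl, rfl, rfl⟩ | ⟨rfl, rfl, rfl, rfl⟩ | ⟨rfl, rfl, rfl, rfl⟩ | ⟨rfl, rfl, rfl, rfl⟩ |
      ⟨rfl, rfl, rfl, rfl⟩
    · exact (w0 W.lD0 W.D0 (by omega) (by omega) (by omega) (by omega) (by omega) (by omega)).2 (by unfold V0; omega)
    · exact (w0 W.lD0 W.D0 (by omega) (by omega) (by omega) (by omega) (by omega) (by omega)).2 (by unfold V0; omega)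
    · exact (w2s W.lC0 W.C0 (by omega) (by omega) (by omega) (by omega) (by omega) (by omega)).2 (by unfold V2; omega)
    · exact (w2s W.lD0 W.D0 (by omega) (by omega) (by omega) (by omega) (by omega) (by omega)).2 (by unfold V2; omega)
    · exact (w3s W.lD0 W.D0 (by omega) (by omega) (by omega) (by omega) (by omega) (by omega)).2 (by unfold V3; omega)
    · exact (w3s W.lC0 W.C0 (by omega) (by omega) (by omega) (by omega) (by omega) (by omega)).2 (by unfold V3; omega)
    · exact (w2s W.lD0 W.D0 (by omega) (by omega) (by omega) (by omega) (by omega) (by omega)).2 (by unfold V2; omega)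
    · exact (w0 W.lC1 W.C1 (by omega) (by omega) (by omega) (by omega) (by omega) (by omega)).2 (by unfold V0; omega)
    · exact mv hX (by omega) (by omega) (by omega) (by omega)
  · intro j n p q _ hx
    rcases hx with ⟨rfl, rfl, rfl, rfl⟩ | ⟨rfl, rfl, rfl, rfl⟩
    · exact fun t => absurd ((w3s W.lC0 W.C0 (by omega) (by omega) (by omega) (by omega) (by omega) (by omega)).1 t) (by unfold V3; omega)
    · exact fun t => ht (mv t (by omega) (by omega) (by omega) (by omega))

/-- The diagonal turn. -/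
theorem turn_b (hf : Rule f) (W : Wd f B c h g m l)
    (ht : ¬ f (B + 2) (c + 4) (2 * (m + h + 1) + 1) (2 * (m + h + 1))) :
    ¬ f (B + 2) (c + 6) (2 * (m + h + 1) + 6) (2 * (m + h + 1) + 3) := by
  intro hX
  have e1 := W.hB
  have e2 := W.h12
  have e3 := W.hc
  have e4 := W.ph
  have e5 := W.hh
  have e6 := W.hg
  have e7 := W.hk
  have e8 := W.big
  have e9 := W.hl
  refine dg2b hf (a0 := B - 1) (b0 := c + 1) (x0 := 2 * (m + h + 1) - 3) (y0 := 2 * (m + h + 1) - 3) rfl  (by omega) (by omega) (by omega) (by omega) ?_ ?_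
  · intro j n p q _ hx
    rcases hx with ⟨rfl, rfl, rfl, rfl⟩ | ⟨rfl, rfl, rfl, rfl⟩ | ⟨rfl, rfl, rfl, rfl⟩ | ⟨rfl, rfl, rfl, rfl⟩ |
      ⟨rfl, rfl, rfl, rfl⟩ | ⟨rfl, rfl, rfl, rfl⟩ | ⟨rfl, rfl, rfl, rfl⟩ | ⟨rfl, rfl, rfl, rfl⟩ |
      ⟨rfl, rfl, rfl, rfl⟩ | ⟨rfl, rfl, rfl, rfl⟩ | ⟨rfl, rfl, rfl, rfl⟩ | ⟨rfl, rfl, rfl, rfl⟩
    · exact (w0 W.lD0 W.D0 (by omega) (by omega) (by omega) (by omega) (by omega) (by omega)).2 (by unfold V0; omega)
    · exact (w0 W.lD0 W.D0 (by omega) (by omega) (by omega) (by omega) (by omega) (by omega)).2 (by unfold V0; omega)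
    · exact (w2s W.lC0 W.C0 (by omega) (by omega) (by omega) (by omega) (by omega) (by omega)).2 (by unfold V2; omega)
    · exact (w2s W.lD0 W.D0 (by omega) (by omega) (by omega) (by omega) (by omega) (by omega)).2 (by unfold V2; omega)
    · exact (w3s W.lD0 W.D0 (by omega) (by omega) (by omega) (by omega) (by omega) (by omega)).2 (by unfold V3; omega)
    · exact (w3s W.lC0 W.C0 (by omega) (by omega) (by omega) (by omega) (by omega) (by omega)).2 (by unfold V3; omega)
    · exact (w2s W.lD0 W.D0 (by omega) (by omega) (by omega) (by omega) (by omega) (by omega)).2 (by unfold V2; omega)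
    · exact (w0 W.lC1 W.C1 (by omega) (by omega) (by omega) (by omega) (by omega) (by omega)).2 (by unfold V0; omega)
    · exact (w3s W.lD0 W.D0 (by omega) (by omega) (by omega) (by omega) (by omega) (by omega)).2 (by unfold V3; omega)
    · exact (w1 W.lC1 W.C1 (by omega) (by omega) (by omega) (by omega) (by omega) (by omega)).2 (by unfold V1; omega)
    · exact (w2s W.lD0 W.D0 (by omega) (by omega) (by omega) (by omega) (by omega) (by omega)).2 (by unfold V2; omega)
    · exact mv hX (by omega) (by omega) (by omega) (by omega)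
  · intro j n p q _ hx
    rcases hx with ⟨rfl, rfl, rfl, rfl⟩ | ⟨rfl, rfl, rfl, rfl⟩ | ⟨rfl, rfl, rfl, rfl⟩ | ⟨rfl, rfl, rfl, rfl⟩
    · exact fun t => absurd ((w3s W.lC0 W.C0 (by omega) (by omega) (by omega) (by omega) (by omega) (by omega)).1 t) (by unfold V3; omega)
    · exact fun t => absurd ((w3s W.lD0 W.D0 (by omega) (by omega) (by omega) (by omega) (by omega) (by omega)).1 t) (by unfold V3; omega)
    · exact fun t => absurd ((w1 W.lC1 W.C1 (by omega) (by omega) (by omega) (by omega) (by omega) (by omega)).1 t) (by unfold V1; omega)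
    · exact fun t => ht (mv t (by omega) (by omega) (by omega) (by omega))

/-- The diagonal turn. -/
theorem turn_c (hf : Rule f) (W : Wd f B c h g m l)
    (ht : ¬ f (B + 2) (c + 4) (2 * (m + h + 1) + 1) (2 * (m + h + 1))) :
    ¬ f (B + 2) (c + 6) (2 * (m + h + 1) + 8) (2 * (m + h + 1) + 3) := by
  intro hX
  have e1 := W.hB
  have e2 := W.h12
  have e3 := W.hc
  have e4 := W.ph
  have e5 := W.hh
  have e6 := W.hg
  have e7 := W.hk
  have e8 := W.big
  have e9 := W.hl
  refine dg2c hf (a0 := B - 1) (b0 := c + 1) (x0 := 2 * (m + h + 1) - 3) (y0 := 2 * (m + h + 1) - 3) rfl  (by omega) (by omega) (by omega) (by omega) ?_ ?_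
  · intro j n p q _ hx
    rcases hx with (⟨rfl, rfl, rfl, rfl⟩ | ⟨rfl, rfl, rfl, rfl⟩ | ⟨rfl, rfl, rfl, rfl⟩ | ⟨rfl, rfl, rfl, rfl⟩ | ⟨rfl, rfl, rfl, rfl⟩ | ⟨rfl, rfl, rfl, rfl⟩) |
      (⟨rfl, rfl, rfl, rfl⟩ | ⟨rfl, rfl, rfl, rfl⟩ | ⟨rfl, rfl, rfl, rfl⟩ | ⟨rfl, rfl, rfl, rfl⟩ | ⟨rfl, rfl, rfl, rfl⟩ | ⟨rfl, rfl, rfl, rfl⟩) |
      (⟨rfl, rfl, rfl, rfl⟩ | ⟨rfl, rfl, rfl, rfl⟩ | ⟨rfl, rfl, rfl, rfl⟩ | ⟨rfl, rfl, rfl, rfl⟩)
    · exact (w0 W.lD0 W.D0 (by omega) (by omega) (by omega) (by omega) (by omega) (by omega)).2 (by unfold V0; omega)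
    · exact (w2s W.lC1 W.C1 (by omega) (by omega) (by omega) (by omega) (by omega) (by omega)).2 (by unfold V2; omega)
    · exact (w0 W.lD0 W.D0 (by omega) (by omega) (by omega) (by omega) (by omega) (by omega)).2 (by unfold V0; omega)
    · exact (w2s W.lC0 W.C0 (by omega) (by omega) (by omega) (by omega) (by omega) (by omega)).2 (by unfold V2; omega)
    · exact (w2s W.lD0 W.D0 (by omega) (by omega) (by omega) (by omega) (by omega) (by omega)).2 (by unfold V2; omega)
    · exact (w3s W.lD0 W.D0 (by omega) (by omega) (by omega) (by omega) (by omega) (by omega)).2 (by unfold V3; omega)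
    · exact (w3s W.lC0 W.C0 (by omega) (by omega) (by omega) (by omega) (by omega) (by omega)).2 (by unfold V3; omega)
    · exact (w2s W.lC1 W.C1 (by omega) (by omega) (by omega) (by omega) (by omega) (by omega)).2 (by unfold V2; omega)
    · exact (w2s W.lD0 W.D0 (by omega) (by omega) (by omega) (by omega) (by omega) (by omega)).2 (by unfold V2; omega)
    · exact (w0 W.lC1 W.C1 (by omega) (by omega) (by omega) (by omega) (by omega) (by omega)).2 (by unfold V0; omega)
    · exact (w0 W.lC1 W.C1 (by omega) (by omega) (by omega) (by omega) (by omega) (by omega)).2 (by unfold V0; omega)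
    · exact (w3s W.lD0 W.D0 (by omega) (by omega) (by omega) (by omega) (by omega) (by omega)).2 (by unfold V3; omega)
    · exact (w1 W.lC1 W.C1 (by omega) (by omega) (by omega) (by omega) (by omega) (by omega)).2 (by unfold V1; omega)
    · exact (w0 W.lD0 W.D0 (by omega) (by omega) (by omega) (by omega) (by omega) (by omega)).2 (by unfold V0; omega)
    · exact (w2s W.lD0 W.D0 (by omega) (by omega) (by omega) (by omega) (by omega) (by omega)).2 (by unfold V2; omega)
    · exact mv hX (by omega) (by omega) (by omega) (by omega)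
  · intro j n p q _ hx
    rcases hx with ⟨rfl, rfl, rfl, rfl⟩ | ⟨rfl, rfl, rfl, rfl⟩ | ⟨rfl, rfl, rfl, rfl⟩ | ⟨rfl, rfl, rfl, rfl⟩ |
      ⟨rfl, rfl, rfl, rfl⟩ | ⟨rfl, rfl, rfl, rfl⟩
    · exact fun t => absurd ((w3s W.lC0 W.C0 (by omega) (by omega) (by omega) (by omega) (by omega) (by omega)).1 t) (by unfold V3; omega)
    · exact fun t => absurd ((w1 W.lC1 W.C1 (by omega) (by omega) (by omega) (by omega) (by omega) (by omega)).1 t) (by unfold V1; omega)
    · exact fun t => absurd ((w3s W.lD0 W.D0 (by omega) (by omega) (by omega) (by omega) (by omega) (by omega)).1 t) (by unfold V3; omega)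
    · exact fun t => absurd ((w1 W.lD0 W.D0 (by omega) (by omega) (by omega) (by omega) (by omega) (by omega)).1 t) (by unfold V1; omega)
    · exact fun t => absurd ((w1 W.lC1 W.C1 (by omega) (by omega) (by omega) (by omega) (by omega) (by omega)).1 t) (by unfold V1; omega)
    · exact fun t => ht (mv t (by omega) (by omega) (by omega) (by omega))

/-- The edge of the out-line is present. -/
theorem edgel_ct (hf : Rule f) (W : Wd f B c h g m l) (hgh : g + 1 = h)
    : f (B + 2) (c + 6) (2 * (m + h + 1) + 2 * h + 2) (2 * (m + h + 1) + 3) := by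
  by_contra hX
  have e1 := W.hB
  have e2 := W.h12
  have e3 := W.hc
  have e4 := W.ph
  have e5 := W.hh
  have e6 := W.hg
  have e7 := W.hk
  have e8 := W.big
  have e9 := W.hl
  refine edgel hf (a0 := B - 1) (b0 := c + 4) (x0 := 2 * (m + h + 1) + 2 * h - 1) (y0 := 2 * (m + h + 1))  (by omega) (by omega) (by omega) (by omega) ?_ ?_
  · intro j n p q _ hx
    rcases hx with (⟨rfl, rfl, rfl, rfl⟩ | ⟨rfl, rfl, rfl, rfl⟩ | ⟨rfl, rfl, rfl, rfl⟩ | ⟨rfl, rfl, rfl, rfl⟩ | ⟨rfl, rfl, rfl, rfl⟩ | ⟨rfl, rfl, rfl, rfl⟩) |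
      (⟨rfl, rfl, rfl, rfl⟩ | ⟨rfl, rfl, rfl, rfl⟩ | ⟨rfl, rfl, rfl, rfl⟩ | ⟨rfl, rfl, rfl, rfl⟩ | ⟨rfl, rfl, rfl, rfl⟩ | ⟨rfl, rfl, rfl, rfl⟩) |
      (⟨rfl, rfl, rfl, rfl⟩ | ⟨rfl, rfl, rfl, rfl⟩ | ⟨rfl, rfl, rfl, rfl⟩)
    · exact (w0 W.lC2 W.C2 (by omega) (by omega) (by omega) (by omega) (by omega) (by omega)).2 (by unfold V0; omega)
    · exact (w2x W.lD1 W.D1 (by omega) (by omega) (by omega) (by omega) (by omega) (by omega)).2 (by unfold V2; omega)
    · exact (w2x W.lC1 W.C1 (by omega) (by omega) (by omega) (by omega) (by omega) (by omega)).2 (by unfold V2; omega)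
    · exact (w1 W.lD1 W.D1 (by omega) (by omega) (by omega) (by omega) (by omega) (by omega)).2 (by unfold V1; omega)
    · exact (w2x W.lC1 W.C1 (by omega) (by omega) (by omega) (by omega) (by omega) (by omega)).2 (by unfold V2; omega)
    · exact (w0 W.lD1 W.D1 (by omega) (by omega) (by omega) (by omega) (by omega) (by omega)).2 (by unfold V0; omega)
    · exact (w3x W.lD0 W.D0 (by omega) (by omega) (by omega) (by omega) (by omega)).2 (by unfold V3; omega)
    · exact (w0 W.lD1 W.D1 (by omega) (by omega) (by omega) (by omega) (by omega) (by omega)).2 (by unfold V0; omega)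
    · exact (w2s W.lC1 W.C1 (by omega) (by omega) (by omega) (by omega) (by omega) (by omega)).2 (by unfold V2; omega)
    · exact (w1 W.lD1 W.D1 (by omega) (by omega) (by omega) (by omega) (by omega) (by omega)).2 (by unfold V1; omega)
    · exact (w1 W.lC1 W.C1 (by omega) (by omega) (by omega) (by omega) (by omega) (by omega)).2 (by unfold V1; omega)
    · exact (w2x W.lC1 W.C1 (by omega) (by omega) (by omega) (by omega) (by omega) (by omega)).2 (by unfold V2; omega)
    · exact (w1 W.lC1 W.C1 (by omega) (by omega) (by omega) (by omega) (by omega) (by omega)).2 (by unfold V1; omega)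
    · exact (w3x W.lD0 W.D0 (by omega) (by omega) (by omega) (by omega) (by omega)).2 (by unfold V3; omega)
    · exact (w0 W.lD1 W.D1 (by omega) (by omega) (by omega) (by omega) (by omega) (by omega)).2 (by unfold V0; omega)
  · intro j n p q _ hx
    rcases hx with ⟨rfl, rfl, rfl, rfl⟩ | ⟨rfl, rfl, rfl, rfl⟩ | ⟨rfl, rfl, rfl, rfl⟩ | ⟨rfl, rfl, rfl, rfl⟩
    · exact fun t => absurd ((w3s W.lC1 W.C1 (by omega) (by omega) (by omega) (by omega) (by omega) (by omega)).1 t) (by unfold V3; omega)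
    · exact fun t => absurd ((w1 W.lC1 W.C1 (by omega) (by omega) (by omega) (by omega) (by omega) (by omega)).1 t) (by unfold V1; omega)
    · exact fun t => absurd ((w1 W.lC1 W.C1 (by omega) (by omega) (by omega) (by omega) (by omega) (by omega)).1 t) (by unfold V1; omega)
    · exact fun t => hX (mv t (by omega) (by omega) (by omega) (by omega))

/-- The edge of the out-line is present. -/
theorem edgeg_ct (hf : Rule f) (W : Wd f B c h g m l) (hgh : g = h)
    : f (B + 2) (c + 6) (2 * (m + h + 1) + 2 * h + 2) (2 * (m + h + 1) + 3) := by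
  by_contra hX
  have e1 := W.hB
  have e2 := W.h12
  have e3 := W.hc
  have e4 := W.ph
  have e5 := W.hh
  have e6 := W.hg
  have e7 := W.hk
  have e8 := W.big
  have e9 := W.hl
  refine edgeg hf (a0 := B - 1) (b0 := c + 3) (x0 := 2 * (m + h + 1) + 2 * h - 1) (y0 := 2 * (m + h + 1))  (by omega) (by omega) (by omega) (by omega) ?_ ?_
  · intro j n p q _ hx
    rcases hx with (⟨rfl, rfl, rfl, rfl⟩ | ⟨rfl, rfl, rfl, rfl⟩ | ⟨rfl, rfl, rfl, rfl⟩ | ⟨rfl, rfl, rfl, rfl⟩ | ⟨rfl, rfl, rfl, rfl⟩ | ⟨rfl, rfl, rfl, rfl⟩) |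
      (⟨rfl, rfl, rfl, rfl⟩ | ⟨rfl, rfl, rfl, rfl⟩ | ⟨rfl, rfl, rfl, rfl⟩ | ⟨rfl, rfl, rfl, rfl⟩ | ⟨rfl, rfl, rfl, rfl⟩ | ⟨rfl, rfl, rfl, rfl⟩) |
      (⟨rfl, rfl, rfl, rfl⟩ | ⟨rfl, rfl, rfl, rfl⟩ | ⟨rfl, rfl, rfl, rfl⟩ | ⟨rfl, rfl, rfl, rfl⟩ | ⟨rfl, rfl, rfl, rfl⟩)
    · exact (w0 W.lC2 W.C2 (by omega) (by omega) (by omega) (by omega) (by omega) (by omega)).2 (by unfold V0; omega)
    · exact (w1 W.lD1 W.D1 (by omega) (by omega) (by omega) (by omega) (by omega) (by omega)).2 (by unfold V1; omega)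
    · exact (w2x W.lC1 W.C1 (by omega) (by omega) (by omega) (by omega) (by omega) (by omega)).2 (by unfold V2; omega)
    · exact (w2x W.lD1 W.D1 (by omega) (by omega) (by omega) (by omega) (by omega) (by omega)).2 (by unfold V2; omega)
    · exact (w3x W.lD0 W.D0 (by omega) (by omega) (by omega) (by omega) (by omega)).2 (by unfold V3; omega)
    · exact (w1 W.lD1 W.D1 (by omega) (by omega) (by omega) (by omega) (by omega) (by omega)).2 (by unfold V1; omega)
    · exact (w2s W.lD0 W.D0 (by omega) (by omega) (by omega) (by omega) (by omega) (by omega)).2 (by unfold V2; omega)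
    · exact (w0 W.lD1 W.D1 (by omega) (by omega) (by omega) (by omega) (by omega) (by omega)).2 (by unfold V0; omega)
    · exact (w2x W.lC1 W.C1 (by omega) (by omega) (by omega) (by omega) (by omega) (by omega)).2 (by unfold V2; omega)
    · exact (w1 W.lC1 W.C1 (by omega) (by omega) (by omega) (by omega) (by omega) (by omega)).2 (by unfold V1; omega)
    · exact (w0 W.lD1 W.D1 (by omega) (by omega) (by omega) (by omega) (by omega) (by omega)).2 (by unfold V0; omega)
    · exact (w1 W.lD1 W.D1 (by omega) (by omega) (by omega) (by omega) (by omega) (by omega)).2 (by unfold V1; omega)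
    · exact (w2s W.lD0 W.D0 (by omega) (by omega) (by omega) (by omega) (by omega) (by omega)).2 (by unfold V2; omega)
    · exact (w0 W.lD1 W.D1 (by omega) (by omega) (by omega) (by omega) (by omega) (by omega)).2 (by unfold V0; omega)
    · exact (w0 W.lC1 W.C1 (by omega) (by omega) (by omega) (by omega) (by omega) (by omega)).2 (by unfold V0; omega)
    · exact (w0 W.lD1 W.D1 (by omega) (by omega) (by omega) (by omega) (by omega) (by omega)).2 (by unfold V0; omega)
    · exact (w1 W.lC1 W.C1 (by omega) (by omega) (by omega) (by omega) (by omega) (by omega)).2 (by unfold V1; omega)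
  · intro j n p q _ hx
    rcases hx with ⟨rfl, rfl, rfl, rfl⟩ | ⟨rfl, rfl, rfl, rfl⟩ | ⟨rfl, rfl, rfl, rfl⟩ | ⟨rfl, rfl, rfl, rfl⟩ |
      ⟨rfl, rfl, rfl, rfl⟩
    · exact fun t => absurd ((w3s W.lC1 W.C1 (by omega) (by omega) (by omega) (by omega) (by omega) (by omega)).1 t) (by unfold V3; omega)
    · exact fun t => absurd ((w3s W.lC1 W.C1 (by omega) (by omega) (by omega) (by omega) (by omega) (by omega)).1 t) (by unfold V3; omega)
    · exact fun t => absurd ((w1 W.lD1 W.D1 (by omega) (by omega) (by omega) (by omega) (by omega) (by omega)).1 t) (by unfold V1; omega)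
    · exact fun t => absurd ((w1 W.lD1 W.D1 (by omega) (by omega) (by omega) (by omega) (by omega) (by omega)).1 t) (by unfold V1; omega)
    · exact fun t => hX (mv t (by omega) (by omega) (by omega) (by omega))

end Pool.Agent.SNT.LW
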