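import Pool.Agent.SNT.NHZone2
import Pool.Agent.SNT.NWHof
import Pool.Agent.SNT.LW2

set_option autoImplicit false
set_option linter.unusedVariables false

/-! Layer `6k+1`, IN row `c` of `6k+10`: the diagonal cell `(2 M + 2, 2 M + 2)` is zero (lead `M - 3` of `6k`). -/

namespace Pool.Agent.SNT.INd0

open Pool.Agent.SNT Pool.Agent.SNT.Loc Pool.Agent.SNT.LW Pool.Agent.SNT.NHZ

theorem d0c_chk : check 3 6 4 4 0 0 0 0 2
    (fun j n p q => decide ((j = 2 ∧ n = 1 ∧ p = 1 ∧ q = 1) ∨ (j = 3 ∧ n = 4 ∧ p = 2 ∧ q = 2)))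
    (fun j n p q => decide (j = 1))
    14
    0x7d0300b500006a8000b50f007507006a8f004d07004c87004b07004a87004507004487004307004287 = true := by
  decide +kernel

theorem d0c {f : ℕ → ℕ → ℕ → ℕ → Prop} (hf : Rule f) {a0 b0 x0 y0 : ℕ} (hxy : x0 = y0)
    (ha : a0 % 2 = 0) (hb : b0 % 2 = 0) (hx : x0 % 2 = 0) (hy : y0 % 2 = 0)
    (h1 : ∀ j n p q : ℕ, InR 3 6 4 4 1 j n p q →
      ((j = 2 ∧ n = 1 ∧ p = 1 ∧ q = 1) ∨ (j = 3 ∧ n = 4 ∧ p = 2 ∧ q = 2)) →
      f (a0 + j) (b0 + n) (x0 + p) (y0 + q))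
    (h0 : ∀ j n p q : ℕ, InR 3 6 4 4 1 j n p q →
      (j = 1) →
      ¬ f (a0 + j) (b0 + n) (x0 + p) (y0 + q)) : False :=
  check_sound hf d0c_chk
    ⟨fun _ => hxy, fun h => absurd h (by decide),
      fun h => absurd h (by decide), ha, hb, hx, hy⟩
    (fun j n p q hr h => h1 j n p q hr (of_decide_eq_true h))
    (fun j n p q hr h => h0 j n p q hr (of_decide_eq_true h))

theorem in_d0 {f : ℕ → ℕ → ℕ → ℕ → Prop} (hf : Rule f) {k b m n M : ℕ} (hs : Side k b m)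
    (S : Stack6 f k b m 0 0 0 0 0 1) (hn : n = m + 9 + (k + 2) * 4) (hM : n ≤ M + 4) (hM' : M ≤ n)
    (d0 : Cyc f (6 * k) (b + 16) (2 * (M - 3) + 2)) : ¬ f (6 * k + 1) (b + 22) (2 * M + 2) (2 * M + 2) := by
  have hs' := hs
  obtain ⟨hk, hb, h4, hb4, hm⟩ := hs
  intro h
  have l0 : Lay (6 * k) (b + 16) k := ⟨by omega, by omega, by omega, by omega⟩
  refine d0c hf (a0 := 6 * k - 2) (b0 := b + 18) (x0 := 2 * M) (y0 := 2 * M) rfl (by omega) (by omega) (by omega)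
    (by omega) ?_ ?_
  · rintro j n' p q - (⟨rfl, rfl, rfl, rfl⟩ | ⟨rfl, rfl, rfl, rfl⟩)
    · exact (v3s l0 d0 (by omega) (by omega) (by omega) (by omega) (by omega) (by omega)).2 (by unfold V3; omega)
    · exact mv h (by omega) (by omega) (by omega) (by omega)
  · rintro j n' p q ⟨-, -, r3, r4, r5, r6, r7, r8⟩ rfl t
    rcases Nat.le_total (2 * M + q) (2 * M + p) with h1 | h1
    · exact lw_zero hs' S (i := 18 + n') (by omega) (by omega) (by omega) h1 (by omega)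
        (mv t (by omega) rfl rfl rfl)
    · exact lw_zero hs' S (i := 18 + n') (R := b + 18 + n') (by omega) (by omega) (by omega) h1 (by omega)
        ((Rule.swap_xy hf _ _ _ _).1 (mv t (by omega) rfl rfl rfl))

/-- the same on the whole diagonal -/
theorem in_d0' {f : ℕ → ℕ → ℕ → ℕ → Prop} (hf : Rule f) {k b m n M : ℕ} (hs : Side k b m)
    (S : Stack6 f k b m 0 0 0 0 0 1) (hn : n = m + 9 + (k + 2) * 4) (hM : n ≤ M + 4) {N : ℕ} (hN : M ≤ N)
    (d0 : Cyc f (6 * k) (b + 16) (2 * (M - 3) + 2)) : ¬ f (6 * k + 1) (b + 22) (2 * N + 2) (2 * N + 2) := by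
  have hs' := hs
  obtain ⟨hk, hb, h4, hb4, hm⟩ := hs
  intro h
  have l0 : Lay (6 * k) (b + 16) k := ⟨by omega, by omega, by omega, by omega⟩
  refine d0c hf (a0 := 6 * k - 2) (b0 := b + 18) (x0 := 2 * N) (y0 := 2 * N) rfl (by omega) (by omega) (by omega)
    (by omega) ?_ ?_
  · rintro j n' p q - (⟨rfl, rfl, rfl, rfl⟩ | ⟨rfl, rfl, rfl, rfl⟩)
    · exact (v3s l0 d0 (by omega) (by omega) (by omega) (by omega) (by omega) (by omega)).2 (by unfold V3; omega)
    · exact mv h (by omega) (by omega) (by omega) (by omega)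
  · rintro j n' p q ⟨-, -, r3, r4, r5, r6, r7, r8⟩ rfl t
    rcases Nat.le_total (2 * N + q) (2 * N + p) with h1 | h1
    · exact lw_zero hs' S (i := 18 + n') (by omega) (by omega) (by omega) h1 (by omega)
        (mv t (by omega) rfl rfl rfl)
    · exact lw_zero hs' S (i := 18 + n') (R := b + 18 + n') (by omega) (by omega) (by omega) h1 (by omega)
        ((Rule.swap_xy hf _ _ _ _).1 (mv t (by omega) rfl rfl rfl))

end Pool.Agent.SNT.INd0
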