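import Pool.Agent.SNT.IG2
import Pool.Agent.SNT.IG3
import Pool.Agent.SNT.INm4
import Pool.Agent.SNT.INd0

set_option autoImplicit false

/-! Layer `6k+1`, IN row `c = b + 22` of `6k+10`, near the diagonal (distance `0, 2, 4`, and `6, 8` in the column `2 n`): zero,
for the leads `M = n - 2, n - 3, n - 4` of `6k+2`. -/

namespace Pool.Agent.SNT.INdiag

open Pool.Agent.SNT Pool.Agent.SNT.Loc Pool.Agent.SNT.LW Pool.Agent.SNT.NHZ Pool.Agent.SNT.DRun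

variable {f : ℕ → ℕ → ℕ → ℕ → Prop} {k b m n : ℕ}

/-- a present column (one of two) near the diagonal, for every `N ≥ n` -/
theorem pr (hf : Rule f) (hs : Side k b m) (S : Stack6 f k b m 0 0 0 0 0 1) (hn : n = m + 9 + (k + 2) * 4)
    (d0 : Cyc f (6 * k) (b + 16) (2 * (n - 5) + 2)) (d2 : Cyc f (6 * k + 2) (b + 18) (2 * (n - 2) + 2))
    (d4 : Cyc f (6 * k + 4) (b + 20) (2 * (n + 1) + 2)) {N : ℕ} (hN : n ≤ N) :
    NHT f k (b + 22) (2 * N) ∧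
    (f (6 * k + 2) (b + 22) (2 * N + 3) (2 * N - 4) ∨ f (6 * k + 2) (b + 22) (2 * N + 5) (2 * N - 4)) ∧
    (∀ y : ℕ, y % 2 = 1 → 2 * N ≤ y + 7 → y + 3 ≤ 2 * N → ¬ f (6 * k + 2) (b + 22) (2 * N + 2) y) := by
  have T0 : NHT f k (b + 22) (2 * n) := by
    subst hn
    exact NHT.of_stack hs S
  have hk := T0.hk
  have hN2 := T0.hN2
  have T : NHT f k (b + 22) (2 * N) := W4.nht_mono T0 (by omega) (by omega)
  have K := K0D.k2_stack hf hs S hn d0 d2 d4 (x := 2 * N + 3) (y := 2 * N + 8 - 2 * k) (by omega) (by omega) (by omega)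
  have K' : f (6 * k + 2) (b + 22) (2 * N + 3) (2 * N + 8 - 2 * k) ∨
      f (6 * k + 2) (b + 22) (2 * N + 5) (2 * N + 10 - 2 * k) :=
    K.imp id (fun t => mv t rfl rfl rfl (by omega))
  refine ⟨T, ?_, fun y ho h1 h2 => LineIn.f2 hf T K' ho (by omega) (by omega)⟩
  rcases K' with h | h
  · exact Or.inl (run2' hf T (by omega) (by omega) (by omega) (by omega) h _ (by omega) (by omega) (by omega))
  · exact Or.inr (run2' hf T (by omega) (by omega) (by omega) (by omega) h _ (by omega) (by omega) (by omega))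

theorem lw (hs : Side k b m) (S : Stack6 f k b m 0 0 0 0 0 1) (hn : n = m + 9 + (k + 2) * 4) {N : ℕ} (hN : n ≤ N)
    (R x y : ℕ) (h1 : b + 22 ≤ R + 4) (h2 : R ≤ b + 22) (h3 : 2 * N ≤ x + 12) (h5 : y ≤ x) (h6 : x ≤ y + 16) :
    ¬ f (6 * k - 1) R x y := by
  have hb4 : 100 * k + 1000 ≤ b := hs.2.2.2.1
  exact lw_zero hs S (i := R - b) (by omega) (by omega) (by omega) h5 (by omega)

theorem mkI2 (hf : Rule f) (hs : Side k b m) (S : Stack6 f k b m 0 0 0 0 0 1) (hn : n = m + 9 + (k + 2) * 4)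
    (d0 : Cyc f (6 * k) (b + 16) (2 * (n - 5) + 2)) (d2 : Cyc f (6 * k + 2) (b + 18) (2 * (n - 2) + 2))
    (d4 : Cyc f (6 * k + 4) (b + 20) (2 * (n + 1) + 2)) {N : ℕ} (hN : n ≤ N) : IG2.In f k (b + 22) N := by
  obtain ⟨T, hp, h2⟩ := pr hf hs S hn d0 d2 d4 hN
  have hb4 : 100 * k + 1000 ≤ b := hs.2.2.2.1
  exact ⟨T, fun R x y a1 a2 a3 a4 a5 a6 => lw hs S hn hN R x y a1 a2 a3 a5 a6,
    Z8.cyc_mono (NW.cyc_mv (K' := 2 * (n - 5) + 2) (S.l6 4) rfl (by omega) (by omega)) (by omega),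
    Z8.cyc_mono (NW.cyc_mv (K' := 2 * (n - 7) + 2) (S.l4 4) rfl (by omega) (by omega)) (by omega),
    Z8.cyc_mono (NW.cyc_mv (K' := 2 * (n - 2) + 2) d2 rfl (by omega) rfl) (by omega),
    Z8.cyc_mono (NW.cyc_mv (K' := 2 * (n - 5) + 2) d0 rfl (by omega) rfl) (by omega), hp, h2⟩

theorem mkI3 (hf : Rule f) (hs : Side k b m) (S : Stack6 f k b m 0 0 0 0 0 1) (hn : n = m + 9 + (k + 2) * 4)
    (d0 : Cyc f (6 * k) (b + 16) (2 * (n - 6) + 2)) (d2 : Cyc f (6 * k + 2) (b + 18) (2 * (n - 3) + 2))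
    (d4 : Cyc f (6 * k + 4) (b + 20) (2 * (n + 1) + 2)) : IG3.In f k (b + 22) n := by
  obtain ⟨T, hp, h2⟩ := pr hf hs S hn (Z8.cyc_mono d0 (by omega)) (Z8.cyc_mono d2 (by omega)) d4 le_rfl
  have hb4 : 100 * k + 1000 ≤ b := hs.2.2.2.1
  exact ⟨T, fun R x y a1 a2 a3 a4 a5 a6 => lw hs S hn le_rfl R x y a1 a2 a3 a5 a6,
    NW.cyc_mv (S.l6 4) rfl (by omega) (by omega), NW.cyc_mv (S.l4 4) rfl (by omega) (by omega),
    NW.cyc_mv d2 rfl (by omega) rfl, NW.cyc_mv d0 rfl (by omega) rfl, hp, h2⟩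

/-- **the IN row near the diagonal** -/
theorem in_diag (hf : Rule f) {M : ℕ} (hs : Side k b m) (S : Stack6 f k b m 0 0 0 0 0 1) (hn : n = m + 9 + (k + 2) * 4)
    (hM : n ≤ M + 4) (hM' : M + 2 ≤ n)
    (d0 : Cyc f (6 * k) (b + 16) (2 * (M - 3) + 2)) (d2 : Cyc f (6 * k + 2) (b + 18) (2 * M + 2))
    (d4 : Cyc f (6 * k + 4) (b + 20) (2 * (n + 1) + 2)) {x y : ℕ} (hx : x % 2 = 0)
    (h : (x = y ∧ 2 * M + 2 ≤ x) ∨ (x = y + 2 ∧ 2 * M + 4 ≤ x) ∨ (x = y + 4 ∧ 2 * M + 4 ≤ x) ∨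
      (x = y + 6 ∧ 2 * n ≤ x) ∨ (x = y + 8 ∧ 2 * n ≤ x)) :
    ¬ f (6 * k + 1) (b + 22) x y := by
  have hk : 8 ≤ k := hs.1
  have e0 : Cyc f (6 * k) (b + 16) (2 * (n - 5) + 2) := Z8.cyc_mono d0 (by omega)
  have e2 : Cyc f (6 * k + 2) (b + 18) (2 * (n - 2) + 2) := Z8.cyc_mono d2 (by omega)
  -- the columns `≥ 2 n`
  have G : ∀ N : ℕ, n ≤ N → ¬ f (6 * k + 1) (b + 22) (2 * N) (2 * N - 2) ∧ ¬ f (6 * k + 1) (b + 22) (2 * N) (2 * N - 4) ∧
      ¬ f (6 * k + 1) (b + 22) (2 * N) (2 * N - 6) ∧ ¬ f (6 * k + 1) (b + 22) (2 * N) (2 * N - 8) := by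
    intro N hN
    have I := mkI2 hf hs S hn e0 e2 d4 hN
    exact ⟨I.g2 hf, I.g4 hf, I.g6 hf, I.g8 hf⟩
  rcases h with ⟨h1, h2⟩ | ⟨h1, h2⟩ | ⟨h1, h2⟩ | ⟨h1, h2⟩ | ⟨h1, h2⟩
  · intro t
    obtain ⟨N, hN⟩ : ∃ N, x = 2 * N + 2 := ⟨(x - 2) / 2, by omega⟩
    exact INd0.in_d0' hf hs S hn hM (N := N) (by omega) d0 (mv t rfl rfl (by omega) (by omega))
  · intro t
    rcases Nat.lt_or_ge x (2 * n) with h3 | h3
    · rcases (show x + 2 = 2 * n ∨ x + 4 = 2 * n by omega) with h4 | h4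
      · exact (mkI3 hf hs S hn (Z8.cyc_mono d0 (by omega)) (Z8.cyc_mono d2 (by omega)) d4).g2 hf
          (mv t rfl rfl (by omega) (by omega))
      · exact (INm4.inm4 hf hs S hn (Z8.cyc_mono d0 (by omega)) (Z8.cyc_mono d2 (by omega)) d4).1
          (mv t rfl rfl (by omega) (by omega))
    · exact (G (x / 2) (by omega)).1 (mv t rfl rfl (by omega) (by omega))
  · intro t
    rcases Nat.lt_or_ge x (2 * n) with h3 | h3
    · rcases (show x + 2 = 2 * n ∨ x + 4 = 2 * n by omega) with h4 | h4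
      · exact (mkI3 hf hs S hn (Z8.cyc_mono d0 (by omega)) (Z8.cyc_mono d2 (by omega)) d4).g4 hf
          (mv t rfl rfl (by omega) (by omega))
      · exact (INm4.inm4 hf hs S hn (Z8.cyc_mono d0 (by omega)) (Z8.cyc_mono d2 (by omega)) d4).2
          (mv t rfl rfl (by omega) (by omega))
    · exact (G (x / 2) (by omega)).2.1 (mv t rfl rfl (by omega) (by omega))
  · exact fun t => (G (x / 2) (by omega)).2.2.1 (mv t rfl rfl (by omega) (by omega))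
  · exact fun t => (G (x / 2) (by omega)).2.2.2 (mv t rfl rfl (by omega) (by omega))

end Pool.Agent.SNT.INdiag
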