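import Pool.Agent.SNT.D00a2
import Pool.Agent.SNT.D00a3
import Pool.Agent.SNT.D00a4
import Pool.Agent.SNT.D00b2
import Pool.Agent.SNT.D00b3
import Pool.Agent.SNT.D00b4
import Pool.Agent.SNT.INdiag

set_option autoImplicit false

/-! The windows `D1`, `D2` (near the diagonal) of the cell `(2 M + 4, 2 M + 4)` of `P_(6 k + 1)` in the row `b + 24`. -/

namespace Pool.Agent.SNT.D00

open Pool.Agent.SNT Pool.Agent.SNT.Sig Pool.Agent.SNT.Loc Pool.Agent.SNT.LW Pool.Agent.SNT.NHZ Pool.Agent.SNT.D1E

variable {f : ℕ → ℕ → ℕ → ℕ → Prop} {k b m n M : ℕ}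

theorem d1 (hf : Rule f) (hs : Side k b m) (S : Stack6 f k b m 0 0 0 0 0 1) (hn : n = m + 9 + (k + 2) * 4)
    (hM : n ≤ M + 4) (hM' : M + 2 ≤ n)
    (d0 : Cyc f (6 * k) (b + 16) (2 * (M - 3) + 2)) (d2 : Cyc f (6 * k + 2) (b + 18) (2 * M + 2))
    (d4 : Cyc f (6 * k + 4) (b + 20) (2 * (n + 1) + 2)) (h : f (6 * k + 1) (b + 24) (2 * M + 4) (2 * M + 4)) :
    ¬ f (6 * k) (b + 20) (2 * M + 1) (2 * M - 6) := by
  have I := PL.of_stack hs S hn hM (by omega) d0 d2 d4
  have ha := INdiag.in_diag hf hs S hn hM hM' d0 d2 d4 (x := 2 * M + 4) (y := 2 * M + 2) (by omega) (by omega)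
  rcases (show M = n - 2 ∨ M = n - 3 ∨ M = n - 4 by omega) with e | e | e
  · subst e
    exact fun t => D00a2.d1 hf I (mv h (by omega) (by omega) (by omega) (by omega))
      (fun t => ha (mv t (by omega) (by omega) (by omega) (by omega))) (mv t (by omega) (by omega) (by omega) (by omega))
  · subst e
    exact fun t => D00a3.d1 hf I (mv h (by omega) (by omega) (by omega) (by omega))
      (fun t => ha (mv t (by omega) (by omega) (by omega) (by omega))) (mv t (by omega) (by omega) (by omega) (by omega))
  · subst e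
    exact fun t => D00a4.d1 hf I (mv h (by omega) (by omega) (by omega) (by omega))
      (fun t => ha (mv t (by omega) (by omega) (by omega) (by omega))) (mv t (by omega) (by omega) (by omega) (by omega))

theorem d2 (hf : Rule f) (hs : Side k b m) (S : Stack6 f k b m 0 0 0 0 0 1) (hn : n = m + 9 + (k + 2) * 4)
    (hM : n ≤ M + 4) (hM' : M + 2 ≤ n)
    (d0 : Cyc f (6 * k) (b + 16) (2 * (M - 3) + 2)) (d2 : Cyc f (6 * k + 2) (b + 18) (2 * M + 2))
    (d4 : Cyc f (6 * k + 4) (b + 20) (2 * (n + 1) + 2)) (h : f (6 * k + 1) (b + 24) (2 * M + 4) (2 * M + 4))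
    (a : f (6 * k) (b + 20) (2 * M - 1) (2 * M - 8)) :
    f (6 * k) (b + 22) (2 * M + 1) (2 * M - 8) ∧ f (6 * k) (b + 22) (2 * M + 3) (2 * M - 5) := by
  have I := PL.of_stack hs S hn hM (by omega) d0 d2 d4
  have ha := INdiag.in_diag hf hs S hn hM hM' d0 d2 d4 (x := 2 * M + 4) (y := 2 * M + 2) (by omega) (by omega)
  rcases (show M = n - 2 ∨ M = n - 3 ∨ M = n - 4 by omega) with e | e | e
  · subst e
    exact ⟨mv (D00b2.d2 hf I (mv h (by omega) (by omega) (by omega) (by omega)) (fun t => ha (mv t (by omega) (by omega) (by omega) (by omega))) (mv a (by omega) (by omega) (by omega) (by omega))) (by omega) (by omega) (by omega) (by omega),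
      mv (D00b2.d3 hf I (mv h (by omega) (by omega) (by omega) (by omega)) (fun t => ha (mv t (by omega) (by omega) (by omega) (by omega))) (mv a (by omega) (by omega) (by omega) (by omega))) (by omega) (by omega) (by omega) (by omega)⟩
  · subst e
    exact ⟨mv (D00b3.d2 hf I (mv h (by omega) (by omega) (by omega) (by omega)) (fun t => ha (mv t (by omega) (by omega) (by omega) (by omega))) (mv a (by omega) (by omega) (by omega) (by omega))) (by omega) (by omega) (by omega) (by omega),
      mv (D00b3.d3 hf I (mv h (by omega) (by omega) (by omega) (by omega)) (fun t => ha (mv t (by omega) (by omega) (by omega) (by omega))) (mv a (by omega) (by omega) (by omega) (by omega))) (by omega) (by omega) (by omega) (by omega)⟩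
  · subst e
    exact ⟨mv (D00b4.d2 hf I (mv h (by omega) (by omega) (by omega) (by omega)) (fun t => ha (mv t (by omega) (by omega) (by omega) (by omega))) (mv a (by omega) (by omega) (by omega) (by omega))) (by omega) (by omega) (by omega) (by omega),
      mv (D00b4.d3 hf I (mv h (by omega) (by omega) (by omega) (by omega)) (fun t => ha (mv t (by omega) (by omega) (by omega) (by omega))) (mv a (by omega) (by omega) (by omega) (by omega))) (by omega) (by omega) (by omega) (by omega)⟩

end Pool.Agent.SNT.D00
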