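import Pool.Agent.SNT.NWD
import Pool.Agent.SNT.NHZoneU
import Pool.Agent.SNT.DRun

set_option autoImplicit false
set_option synthInstance.maxSize 100000
set_option synthInstance.maxHeartbeats 4000000

/-! The layer `6 k + 2` in its IN row `c - 4` (`c` is the IN row of the top leader `6 k + 10`, `n` its lead): two adjacent
columns are not both empty near the wall, the runs to the diagonal, and the window near the diagonal. Only the plain window
is used. -/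

namespace Pool.Agent.SNT.D1T2

open Pool.Agent.SNT Pool.Agent.SNT.Sig Pool.Agent.SNT.Loc Pool.Agent.SNT.LW Pool.Agent.SNT.NHZ Pool.Agent.SNT.DRun

variable {f : ℕ → ℕ → ℕ → ℕ → Prop}

theorem sy0 (hf : Rule f) {M R x y : ℕ} (h : ¬ f M R y x) : ¬ f M R x y := fun h1 => h ((hf.swap_xy M R x y).1 h1)

theorem sy1 (hf : Rule f) {M R x y : ℕ} (h : f M R y x) : f M R x y := (hf.swap_xy M R x y).2 h

theorem zZ_r1i (hf : Rule f) {k c N M R x y p j : ℕ} (h : NHT f k c N) (hR : R = c + 1) (hj : j ≤ 5) (hp : p ≤ 1)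
    (hL : M + 2 * j = 6 * k + 10 + p) (hx : N + 3 ≤ x) (h1 : y + 1 + j ≤ x) (h2 : x + 2 + j ≤ y + 2 * k) :
    ¬ f M R x y := by
  subst hR
  exact h.r1i hf hj hp hL hx h1 h2

theorem uP0 (hf : Rule f) {k c N M R x y j : ℕ} (h : NHU f k c N) (hj : j ≤ 0) (hL : M + 1 + 2 * j = 6 * k + 6)
    (hR : R + 5 = c ∨ R + 4 = c) (hx : N ≤ x + 8) (h1 : y + 1 + j ≤ x) (h2 : x + j ≤ y + 2 * k) : ¬ f M R x y :=
  h.I.P hf (t := 0) (s := 0) (j := j) (q := c - 4 - R) (by omega) (by omega) (by omega) (by omega)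
    (by have := h.hb; omega) (by unfold XU; rw [if_pos (by omega)]; have := h.hN2; omega) (by have := h.hN2; omega)
    (by omega) (by omega)

theorem uP1 (hf : Rule f) {k c N M R x y j : ℕ} (h : NHU f k c N) (hj : j ≤ 1) (hL : M + 1 + 2 * j = 6 * k + 8)
    (hR : R + 3 = c ∨ R + 2 = c) (hx : N ≤ x + 2) (h1 : y + 1 + j ≤ x) (h2 : x + j ≤ y + 2 * k) : ¬ f M R x y :=
  h.pmi hf hj hL hR hx h1 h2

theorem uP2 (hf : Rule f) {k c N M R x y j : ℕ} (h : NHU f k c N) (hj : j ≤ 2) (hL : M + 1 + 2 * j = 6 * k + 10)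
    (hR : R + 1 = c ∨ R = c) (hx : N + 4 ≤ x) (h1 : y + 1 + j ≤ x) (h2 : x + j ≤ y + 2 * k) : ¬ f M R x y :=
  h.p0i hf hj hL hR hx h1 h2

theorem uA0 (hf : Rule f) {k c N M R x y p j : ℕ} (h : NHU f k c N) (hR : R + 3 = c) (hj : j ≤ 0) (hp : p ≤ 1)
    (hL : M + 2 * j = 6 * k + 6 + p) (hx : N ≤ x + 7) (h1 : y + 1 + j ≤ x) (h2 : x + j ≤ y + 2 * k) : ¬ f M R x y :=
  h.I.after hf (t := 0) (s := 0) (j := j) (p := p) (q := 1) (by omega) (by omega) hp le_rfl (by omega) (by omega)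
    (by have := h.hb; omega) (by unfold XU; rw [if_pos (by omega)]; have := h.hN2; omega)
    (by have := h.hN2; omega) (by omega) (by omega)

theorem uA1 (hf : Rule f) {k c N M R x y p j : ℕ} (h : NHU f k c N) (hR : R + 1 = c) (hj : j ≤ 1) (hp : p ≤ 1)
    (hL : M + 2 * j = 6 * k + 8 + p) (hx : N ≤ x + 1) (h1 : y + 1 + j ≤ x) (h2 : x + j ≤ y + 2 * k) : ¬ f M R x y := by
  have e : R = c - 1 := by omega
  subst e
  exact h.rm1i hf hj hp hL hx h1 h2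

theorem uA2 (hf : Rule f) {k c N M R x y p j : ℕ} (h : NHU f k c N) (hR : R = c + 1) (hj : j ≤ 2) (hp : p ≤ 1)
    (hL : M + 2 * j = 6 * k + 10 + p) (hx : N + 5 ≤ x) (h1 : y + 1 + j ≤ x) (h2 : x + j ≤ y + 2 * k) : ¬ f M R x y := by
  subst hR
  exact h.r1i hf hj hp hL hx h1 h2

theorem k0p_chk : check 8 7 11 21 0 1 1 1 0
    (fun j n p q => decide ((j = 2 ∧ n = 1 ∧ (((p + q) % 2 = 1 ∧ p + 5 ≤ q ∧ p % 2 = 0) ∨ ((p + q) % 2 = 1 ∧ q ≤ p + 5 ∧ (p + q + 3) % 4 = 0)))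
      ∨ (j = 2 ∧ n = 2 ∧ ((p + q) % 2 = 0 ∧ q ≤ p + 4 ∧ (p + q) % 4 = 0))
      ∨ (j = 2 ∧ n = 3 ∧ q ≤ p + 4 ∧ (((p + q) % 2 = 1 ∧ p + 5 ≤ q ∧ p % 2 = 1) ∨ ((p + q) % 2 = 1 ∧ q ≤ p + 5 ∧ (p + q + 1) % 4 = 0)))
      ∨ (j = 4 ∧ n = 3 ∧ (((p + q) % 2 = 1 ∧ p + 5 ≤ q ∧ p % 2 = 0) ∨ ((p + q) % 2 = 1 ∧ q ≤ p + 5 ∧ (p + q + 3) % 4 = 0)))
      ∨ (j = 4 ∧ n = 4 ∧ ((p + q) % 2 = 0 ∧ q ≤ p + 4 ∧ (p + q) % 4 = 0))
      ∨ (j = 4 ∧ n = 5 ∧ q ≤ p + 4 ∧ (((p + q) % 2 = 1 ∧ p + 5 ≤ q ∧ p % 2 = 1) ∨ ((p + q) % 2 = 1 ∧ q ≤ p + 5 ∧ (p + q + 1) % 4 = 0)))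
      ∨ (j = 6 ∧ n = 5 ∧ (((p + q) % 2 = 1 ∧ p + 3 ≤ q ∧ p % 2 = 0) ∨ ((p + q) % 2 = 1 ∧ q ≤ p + 3 ∧ (p + q + 3) % 4 = 2)))
      ∨ (j = 6 ∧ n = 2 ∧ ((p + q) % 2 = 0 ∧ q ≤ p + 2 ∧ (p + q) % 4 = 2))
      ∨ (j = 6 ∧ n = 3 ∧ (((p + q) % 2 = 1 ∧ p + 3 ≤ q ∧ p % 2 = 1) ∨ ((p + q) % 2 = 1 ∧ q ≤ p + 3 ∧ (p + q + 1) % 4 = 2)))
      ∨ (j = 8 ∧ n = 3 ∧ (((p + q) % 2 = 1 ∧ p + 3 ≤ q ∧ p % 2 = 0) ∨ ((p + q) % 2 = 1 ∧ q ≤ p + 3 ∧ (p + q + 3) % 4 = 2)))
      ∨ (j = 8 ∧ n = 4 ∧ ((p + q) % 2 = 0 ∧ q ≤ p + 2 ∧ (p + q) % 4 = 2))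
      ∨ (j = 8 ∧ n = 5 ∧ ((p + 3 ≤ q ∧ 5 ≤ q) ∨ (q ≤ p + 2)) ∧ (((p + q) % 2 = 1 ∧ p + 3 ≤ q ∧ p % 2 = 1) ∨ ((p + q) % 2 = 1 ∧ q ≤ p + 3 ∧ (p + q + 1) % 4 = 2)))))
    (fun j n p q => decide ((j = 2 ∧ n = 1 ∧ ¬ (((p + q) % 2 = 1 ∧ p + 5 ≤ q ∧ p % 2 = 0) ∨ ((p + q) % 2 = 1 ∧ q ≤ p + 5 ∧ (p + q + 3) % 4 = 0)))
      ∨ (j = 2 ∧ n = 2 ∧ ¬ ((p + q) % 2 = 0 ∧ q ≤ p + 4 ∧ (p + q) % 4 = 0))
      ∨ (j = 2 ∧ n = 3 ∧ q ≤ p + 4 ∧ ¬ (((p + q) % 2 = 1 ∧ p + 5 ≤ q ∧ p % 2 = 1) ∨ ((p + q) % 2 = 1 ∧ q ≤ p + 5 ∧ (p + q + 1) % 4 = 0)))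
      ∨ (j = 4 ∧ n = 3 ∧ ¬ (((p + q) % 2 = 1 ∧ p + 5 ≤ q ∧ p % 2 = 0) ∨ ((p + q) % 2 = 1 ∧ q ≤ p + 5 ∧ (p + q + 3) % 4 = 0)))
      ∨ (j = 4 ∧ n = 4 ∧ ¬ ((p + q) % 2 = 0 ∧ q ≤ p + 4 ∧ (p + q) % 4 = 0))
      ∨ (j = 4 ∧ n = 5 ∧ q ≤ p + 4 ∧ ¬ (((p + q) % 2 = 1 ∧ p + 5 ≤ q ∧ p % 2 = 1) ∨ ((p + q) % 2 = 1 ∧ q ≤ p + 5 ∧ (p + q + 1) % 4 = 0)))
      ∨ (j = 6 ∧ n = 5 ∧ ¬ (((p + q) % 2 = 1 ∧ p + 3 ≤ q ∧ p % 2 = 0) ∨ ((p + q) % 2 = 1 ∧ q ≤ p + 3 ∧ (p + q + 3) % 4 = 2)))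
      ∨ (j = 6 ∧ n = 2 ∧ ¬ ((p + q) % 2 = 0 ∧ q ≤ p + 2 ∧ (p + q) % 4 = 2))
      ∨ (j = 6 ∧ n = 3 ∧ ¬ (((p + q) % 2 = 1 ∧ p + 3 ≤ q ∧ p % 2 = 1) ∨ ((p + q) % 2 = 1 ∧ q ≤ p + 3 ∧ (p + q + 1) % 4 = 2)))
      ∨ (j = 8 ∧ n = 3 ∧ ¬ (((p + q) % 2 = 1 ∧ p + 3 ≤ q ∧ p % 2 = 0) ∨ ((p + q) % 2 = 1 ∧ q ≤ p + 3 ∧ (p + q + 3) % 4 = 2)))
      ∨ (j = 8 ∧ n = 4 ∧ ¬ ((p + q) % 2 = 0 ∧ q ≤ p + 2 ∧ (p + q) % 4 = 2))
      ∨ (j = 8 ∧ n = 5 ∧ ((p + 3 ≤ q ∧ 5 ≤ q) ∨ (q ≤ p + 2)) ∧ ¬ (((p + q) % 2 = 1 ∧ p + 3 ≤ q ∧ p % 2 = 1) ∨ ((p + q) % 2 = 1 ∧ q ≤ p + 3 ∧ (p + q + 1) % 4 = 2)))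
      ∨ (j = 1 ∧ n = 1 ∧ p + 6 ≤ q)
      ∨ (j = 1 ∧ n = 2 ∧ p + 7 ≤ q)
      ∨ (j = 1 ∧ n = 3 ∧ p + 7 ≤ q)
      ∨ (j = 1 ∧ n = 4 ∧ p + 8 ≤ q ∧ q ≤ p + 17)
      ∨ (j = 2 ∧ n = 4 ∧ p + 7 ≤ q)
      ∨ (j = 3 ∧ n = 4 ∧ p + 7 ≤ q)
      ∨ (j = 1 ∧ n = 5 ∧ p + 8 ≤ q ∧ q ≤ p + 17)
      ∨ (j = 3 ∧ n = 5 ∧ p + 7 ≤ q)
      ∨ (j = 2 ∧ n = 5 ∧ p = 6 ∧ q = 13)
      ∨ (j = 2 ∧ n = 5 ∧ p = 6 ∧ q = 15)
      ∨ (j = 2 ∧ n = 5 ∧ p = 6 ∧ q = 17)
      ∨ (j = 2 ∧ n = 5 ∧ p = 6 ∧ q = 19)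
      ∨ (j = 2 ∧ n = 5 ∧ p = 4 ∧ q = 11)
      ∨ (j = 2 ∧ n = 5 ∧ p = 4 ∧ q = 13)
      ∨ (j = 2 ∧ n = 5 ∧ p = 4 ∧ q = 15)))
    162
    0xc0b0307e6000b19520c0b0307f08007f08408d7000bffc2125b830bff800bff841245830b76000b809208d68008d6840b80830bf4800bf4841245830b76000b809208cc0008cc041245830b76000b80920bff000bff040b2383086f00086f041251030bf5000bf5041251030bf5000bf501084d80084d84086e000b96c207e50007d0000b0dc20b03520b2383086f000c0b620863800b8c4207da8007da840b23830b97800b9784125b830b8c000b8c041267030c0b000c0b040c0083085900085904159000158f00157a001579001564000eca000eb4000e9e000e57000e42000e41000e2c000e2b0007ef0007d900077c0007660007090006f40006f30006de0015900f158f0f157a0f15790f15640f0f33870f32870f1d870f1c870ecb070eca870eca0f0ec0870ec0070ebf870ebf070eb5070eb4870eb40f0eaa870eaa070ea9870ea9070e9f070e9e870e9e0f0e570f0e420f0e410f0e2c0f0e2b0f0c00870bf6070bf5870bea870b8d070b82870b82070b770708e28708d80708cd8708cc8708c207086487085a07085987084e8707fa8707fa0707ef8707ef0f07e58707e48707e40707d98707d90f07cf87078787078707077d07077c87077c0f07728707720707718707710707670707668707660f075c87075c0707090f06f40f06f30f06de0f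 = true := by
  decide +kernel

theorem k0p_aux (hf : Rule f) {k c n X : ℕ} (T : NHT f k c (2 * n)) (U : NHU f k c (2 * n))
    (C2a : Cyc f (6 * k + 2) (c - 8) (2 * (n - 9) + 2)) (C4a : Cyc f (6 * k + 4) (c - 6) (2 * (n - 7) + 2))
    (C6a : Cyc f (6 * k + 6) (c - 8) (2 * (n - (k + 7)) + 2)) (C6 : Cyc f (6 * k + 6) (c - 4) (2 * (n - 5) + 2))
    (C8a : Cw f (6 * k + 8) (c - 6) (n - (k + 5)))
    (hX : 2 * n ≤ X + 1) (ho : X % 2 = 1)
    (h1 : ∀ {M R x y : ℕ}, M = 6 * k + 2 → R + 4 = c → x = X → y % 2 = 0 → X + 3 ≤ y + 2 * k → y + 1 ≤ X → ¬ f M R x y)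
    (h2 : ∀ {M R x y : ℕ}, M = 6 * k + 2 → R + 4 = c → x + 2 = X → y % 2 = 0 → X + 1 ≤ y + 2 * k → y + 2 * k ≤ X + 5 →
      ¬ f M R x y) : False := by
  have hk := T.hk
  have hc := T.hc
  have h4 := T.h4
  have hb := T.hb
  have hN := T.hN2
  obtain ⟨a0, ha0⟩ : ∃ z, z = 6 * k + 0 := ⟨_, rfl⟩
  obtain ⟨b0, hb0⟩ : ∃ z, z + 9 = c := ⟨c - 9, by omega⟩
  obtain ⟨x0, hx0⟩ : ∃ z, z + 6 = X := ⟨X - 6, by omega⟩
  obtain ⟨y0, hy0⟩ : ∃ z, z + 2 * k + 20 = X + 10 := ⟨X + 10 - 2 * k - 20, by omega⟩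
  refine check_sound hf (a0 := a0) (b0 := b0) (x0 := x0) (y0 := y0) k0p_chk
    ⟨fun h => absurd h (by decide), fun h => absurd h (by decide), fun h => absurd h (by decide), by omega, by omega,
      by omega, by omega⟩ ?_ ?_
  · intro j m p q hr h
    obtain ⟨-, -, hm1, hm2, hp1, hp2, hq1, hq2⟩ := hr
    replace h := of_decide_eq_true h
    rcases h with h | h | h | h | h | h | h | h | h | h | h | h
    · obtain ⟨rfl, rfl, h⟩ := h
      exact (WrapC.v0 C2a (by omega) (by omega) (by omega) (by omega) (by omega) (by omega) (by omega)).mpr (by omega)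
    · obtain ⟨rfl, rfl, h⟩ := h
      exact (WrapC.v1 C2a (by omega) (by omega) (by omega) (by omega) (by omega) (by omega) (by omega) (by omega)).mpr (by omega)
    · obtain ⟨rfl, rfl, h⟩ := h
      exact (WrapC.v2 C2a (by omega) (by omega) (by omega) (by omega) (by omega) (by omega) (by omega)).mpr (by omega)
    · obtain ⟨rfl, rfl, h⟩ := h
      exact (WrapC.v0 C4a (by omega) (by omega) (by omega) (by omega) (by omega) (by omega) (by omega)).mpr (by omega)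
    · obtain ⟨rfl, rfl, h⟩ := h
      exact (WrapC.v1 C4a (by omega) (by omega) (by omega) (by omega) (by omega) (by omega) (by omega) (by omega)).mpr (by omega)
    · obtain ⟨rfl, rfl, h⟩ := h
      exact (WrapC.v2 C4a (by omega) (by omega) (by omega) (by omega) (by omega) (by omega) (by omega)).mpr (by omega)
    · obtain ⟨rfl, rfl, h⟩ := h
      exact (WrapC.v0 C6 (by omega) (by omega) (by omega) (by omega) (by omega) (by omega) (by omega)).mpr (by omega)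
    · obtain ⟨rfl, rfl, h⟩ := h
      exact (WrapC.v1 C6a (by omega) (by omega) (by omega) (by omega) (by omega) (by omega) (by omega) (by omega)).mpr (by omega)
    · obtain ⟨rfl, rfl, h⟩ := h
      exact (WrapC.v2 C6a (by omega) (by omega) (by omega) (by omega) (by omega) (by omega) (by omega)).mpr (by omega)
    · obtain ⟨rfl, rfl, h⟩ := h
      exact (NW.w0v C8a (by omega) (by omega) (by omega) (by omega) (by omega) (by omega) (by omega)).mpr (by omega)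
    · obtain ⟨rfl, rfl, h⟩ := h
      exact (NW.w1v C8a (by omega) (by omega) (by omega) (by omega) (by omega) (by omega) (by omega) (by omega)).mpr (by omega)
    · obtain ⟨rfl, rfl, h⟩ := h
      exact (NW.w2v C8a (by omega) (by omega) (by omega) (by omega) (by omega) (by omega) (by omega)).mpr (by omega)
  · intro j m p q hr h
    obtain ⟨-, -, hm1, hm2, hp1, hp2, hq1, hq2⟩ := hr
    replace h := of_decide_eq_true h
    rcases h with h | h | h | h | h | h | h | h | h | h | h | h | h | h | h | h | h | h | h | h | h | h | h | h | h | h | h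
    · obtain ⟨rfl, rfl, h⟩ := h
      exact mt (WrapC.v0 C2a (by omega) (by omega) (by omega) (by omega) (by omega) (by omega) (by omega)).mp (by omega)
    · obtain ⟨rfl, rfl, h⟩ := h
      exact mt (WrapC.v1 C2a (by omega) (by omega) (by omega) (by omega) (by omega) (by omega) (by omega) (by omega)).mp (by omega)
    · obtain ⟨rfl, rfl, h⟩ := h
      exact mt (WrapC.v2 C2a (by omega) (by omega) (by omega) (by omega) (by omega) (by omega) (by omega)).mp (by omega)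
    · obtain ⟨rfl, rfl, h⟩ := h
      exact mt (WrapC.v0 C4a (by omega) (by omega) (by omega) (by omega) (by omega) (by omega) (by omega)).mp (by omega)
    · obtain ⟨rfl, rfl, h⟩ := h
      exact mt (WrapC.v1 C4a (by omega) (by omega) (by omega) (by omega) (by omega) (by omega) (by omega) (by omega)).mp (by omega)
    · obtain ⟨rfl, rfl, h⟩ := h
      exact mt (WrapC.v2 C4a (by omega) (by omega) (by omega) (by omega) (by omega) (by omega) (by omega)).mp (by omega)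
    · obtain ⟨rfl, rfl, h⟩ := h
      exact mt (WrapC.v0 C6 (by omega) (by omega) (by omega) (by omega) (by omega) (by omega) (by omega)).mp (by omega)
    · obtain ⟨rfl, rfl, h⟩ := h
      exact mt (WrapC.v1 C6a (by omega) (by omega) (by omega) (by omega) (by omega) (by omega) (by omega) (by omega)).mp (by omega)
    · obtain ⟨rfl, rfl, h⟩ := h
      exact mt (WrapC.v2 C6a (by omega) (by omega) (by omega) (by omega) (by omega) (by omega) (by omega)).mp (by omega)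
    · obtain ⟨rfl, rfl, h⟩ := h
      exact mt (NW.w0v C8a (by omega) (by omega) (by omega) (by omega) (by omega) (by omega) (by omega)).mp (by omega)
    · obtain ⟨rfl, rfl, h⟩ := h
      exact mt (NW.w1v C8a (by omega) (by omega) (by omega) (by omega) (by omega) (by omega) (by omega) (by omega)).mp (by omega)
    · obtain ⟨rfl, rfl, h⟩ := h
      exact mt (NW.w2v C8a (by omega) (by omega) (by omega) (by omega) (by omega) (by omega) (by omega)).mp (by omega)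
    · obtain ⟨rfl, rfl, h⟩ := h
      exact NHT.pIn hf T (t := 1) (j := 0) (by omega) (by omega) (by omega) (by omega) (by omega) (by omega) (by omega)
    · obtain ⟨rfl, rfl, h⟩ := h
      exact NHT.rIn hf T (t := 1) (p := 1) (j := 1) (by omega) (by omega) (by omega) (by omega) (by omega) (by omega) (by omega) (by omega)
    · obtain ⟨rfl, rfl, h⟩ := h
      exact NHT.pIn hf T (t := 2) (j := 1) (by omega) (by omega) (by omega) (by omega) (by omega) (by omega) (by omega)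
    · obtain ⟨rfl, rfl, h⟩ := h
      exact NHT.rIn hf T (t := 2) (p := 1) (j := 2) (by omega) (by omega) (by omega) (by omega) (by omega) (by omega) (by omega) (by omega)
    · obtain ⟨rfl, rfl, h⟩ := h
      exact NHT.rIn hf T (t := 2) (p := 0) (j := 1) (by omega) (by omega) (by omega) (by omega) (by omega) (by omega) (by omega) (by omega)
    · obtain ⟨rfl, rfl, h⟩ := h
      exact NHT.rIn hf T (t := 2) (p := 1) (j := 1) (by omega) (by omega) (by omega) (by omega) (by omega) (by omega) (by omega) (by omega)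
    · obtain ⟨rfl, rfl, h⟩ := h
      exact NHT.pIn hf T (t := 3) (j := 2) (by omega) (by omega) (by omega) (by omega) (by omega) (by omega) (by omega)
    · obtain ⟨rfl, rfl, h⟩ := h
      exact NHT.pIn hf T (t := 3) (j := 1) (by omega) (by omega) (by omega) (by omega) (by omega) (by omega) (by omega)
    · obtain ⟨rfl, rfl, rfl, rfl⟩ := h
      exact h1 (by omega) (by omega) (by omega) (by omega) (by omega) (by omega)
    · obtain ⟨rfl, rfl, rfl, rfl⟩ := h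
      exact h1 (by omega) (by omega) (by omega) (by omega) (by omega) (by omega)
    · obtain ⟨rfl, rfl, rfl, rfl⟩ := h
      exact h1 (by omega) (by omega) (by omega) (by omega) (by omega) (by omega)
    · obtain ⟨rfl, rfl, rfl, rfl⟩ := h
      exact h1 (by omega) (by omega) (by omega) (by omega) (by omega) (by omega)
    · obtain ⟨rfl, rfl, rfl, rfl⟩ := h
      exact h2 (by omega) (by omega) (by omega) (by omega) (by omega) (by omega)
    · obtain ⟨rfl, rfl, rfl, rfl⟩ := h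
      exact h2 (by omega) (by omega) (by omega) (by omega) (by omega) (by omega)
    · obtain ⟨rfl, rfl, rfl, rfl⟩ := h
      exact h2 (by omega) (by omega) (by omega) (by omega) (by omega) (by omega)

theorem dg_chk : check 6 8 13 10 1 0 0 0 0
    (fun j n p q => decide ((j = 3 ∧ n = 1 ∧ q ≤ p + 2 ∧ (q = p + 2 ∧ p % 2 = 0))
      ∨ (j = 3 ∧ n = 2 ∧ q ≤ p + 2 ∧ (p % 2 = 0 ∧ q % 2 = 1))
      ∨ (j = 3 ∧ n = 3 ∧ q ≤ p + 2 ∧ (q = p + 2 ∧ p % 2 = 1))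
      ∨ (j = 5 ∧ n = 2 ∧ q ≤ p + 2 ∧ (p % 2 = 1 ∧ q % 2 = 0))
      ∨ (j = 5 ∧ n = 4 ∧ q ≤ p + 2 ∧ (p % 2 = 0 ∧ q % 2 = 1))
      ∨ (j = 5 ∧ n = 5 ∧ q ≤ p + 2 ∧ (q = p + 2 ∧ p % 2 = 1))
      ∨ (j = 3 ∧ n = 2 ∧ p + 3 ≤ q ∧ (q % 2 = 0 ∧ p % 2 = 1))
      ∨ (j = 5 ∧ n = 2 ∧ p + 3 ≤ q ∧ (q % 2 = 1 ∧ p % 2 = 0))
      ∨ (j = 5 ∧ n = 4 ∧ p + 3 ≤ q ∧ (q % 2 = 0 ∧ p % 2 = 1))
      ∨ (j = 3 ∧ n = 4 ∧ p = 3 ∧ q = 4)
      ∨ (j = 3 ∧ n = 4 ∧ p = 2 ∧ q = 5)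
      ∨ (j = 3 ∧ n = 4 ∧ p = 3 ∧ q = 2)
      ∨ (j = 3 ∧ n = 6 ∧ p = 7 ∧ q = 6)
      ∨ (j = 3 ∧ n = 6 ∧ p = 7 ∧ q = 4)
      ∨ (j = 3 ∧ n = 6 ∧ p = 7 ∧ q = 2)))
    (fun j n p q => decide ((j = 3 ∧ n = 1 ∧ q ≤ p + 2 ∧ ¬ (q = p + 2 ∧ p % 2 = 0))
      ∨ (j = 3 ∧ n = 2 ∧ q ≤ p + 2 ∧ ¬ (p % 2 = 0 ∧ q % 2 = 1))
      ∨ (j = 3 ∧ n = 3 ∧ q ≤ p + 2 ∧ ¬ (q = p + 2 ∧ p % 2 = 1))
      ∨ (j = 5 ∧ n = 2 ∧ q ≤ p + 2 ∧ ¬ (p % 2 = 1 ∧ q % 2 = 0))
      ∨ (j = 5 ∧ n = 4 ∧ q ≤ p + 2 ∧ ¬ (p % 2 = 0 ∧ q % 2 = 1))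
      ∨ (j = 5 ∧ n = 5 ∧ q ≤ p + 2 ∧ ¬ (q = p + 2 ∧ p % 2 = 1))
      ∨ (j = 1 ∧ n = 1 ∧ q ≤ p + 0)
      ∨ (j = 2 ∧ n = 1 ∧ q ≤ p + 0)
      ∨ (j = 1 ∧ n = 3 ∧ q ≤ p + 0)
      ∨ (j = 2 ∧ n = 3 ∧ q ≤ p + 0)
      ∨ (j = 5 ∧ n = 3 ∧ q ≤ p + 1)
      ∨ (j = 2 ∧ n = 4 ∧ q ≤ p + 0)
      ∨ (j = 4 ∧ n = 4 ∧ q ≤ p + 0)
      ∨ (j = 1 ∧ n = 5 ∧ q + 1 ≤ p)
      ∨ (j = 3 ∧ n = 5 ∧ q ≤ p + 0)
      ∨ (j = 4 ∧ n = 5 ∧ q ≤ p + 0)
      ∨ (j = 6 ∧ n = 5 ∧ q ≤ p + 1)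
      ∨ (j = 4 ∧ n = 6 ∧ q ≤ p + 0 ∧ 2 ≤ q)
      ∨ (j = 4 ∧ n = 6 ∧ q + 1 ≤ p ∧ 2 ≤ p)
      ∨ (j = 6 ∧ n = 6 ∧ q ≤ p + 1 ∧ 2 ≤ q)
      ∨ (j = 3 ∧ n = 1 ∧ p + 3 ≤ q)
      ∨ (j = 3 ∧ n = 2 ∧ p + 3 ≤ q ∧ ¬ (q % 2 = 0 ∧ p % 2 = 1))
      ∨ (j = 3 ∧ n = 3 ∧ p + 3 ≤ q)
      ∨ (j = 5 ∧ n = 2 ∧ p + 3 ≤ q ∧ ¬ (q % 2 = 1 ∧ p % 2 = 0))
      ∨ (j = 5 ∧ n = 4 ∧ p + 3 ≤ q ∧ ¬ (q % 2 = 0 ∧ p % 2 = 1))
      ∨ (j = 5 ∧ n = 5 ∧ p + 3 ≤ q)
      ∨ (j = 1 ∧ n = 1 ∧ p + 4 ≤ q)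
      ∨ (j = 2 ∧ n = 1 ∧ p + 4 ≤ q)
      ∨ (j = 1 ∧ n = 3 ∧ p + 4 ≤ q)
      ∨ (j = 2 ∧ n = 3 ∧ p + 4 ≤ q)
      ∨ (j = 5 ∧ n = 3 ∧ p + 3 ≤ q)
      ∨ (j = 2 ∧ n = 4 ∧ p + 4 ≤ q)
      ∨ (j = 4 ∧ n = 4 ∧ p + 4 ≤ q)
      ∨ (j = 1 ∧ n = 5 ∧ p + 5 ≤ q)
      ∨ (j = 3 ∧ n = 5 ∧ p + 4 ≤ q)
      ∨ (j = 4 ∧ n = 5 ∧ p + 4 ≤ q)
      ∨ (j = 6 ∧ n = 5 ∧ p + 3 ≤ q)
      ∨ (j = 4 ∧ n = 6 ∧ p + 4 ≤ q)
      ∨ (j = 4 ∧ n = 6 ∧ p + 5 ≤ q ∧ 4 ≤ q)
      ∨ (j = 6 ∧ n = 6 ∧ p + 3 ≤ q)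
      ∨ (j = 3 ∧ n = 4 ∧ p = 5 ∧ q = 6)
      ∨ (j = 3 ∧ n = 4 ∧ p = 4 ∧ q = 7)
      ∨ (j = 3 ∧ n = 4 ∧ p = 5 ∧ q = 4)
      ∨ (j = 3 ∧ n = 4 ∧ p = 2 ∧ q = 7)
      ∨ (j = 3 ∧ n = 4 ∧ p = 5 ∧ q = 2)))
    66
    0xddd0309868009868109d203077e80077e84077400073780097c420b89800b4d800b490007c400072d0007288006f780093fc206ec8006b08006af800ddd070ddc870dd7870d9c070d9b870d96870bd0070b94070b93870b8f070b8e870b898f0b4d8f0b490f09d20709d18709cc87099107099087098b87098607094507093f87093f07093a0707ca0707c40f078907078887078387077e07073d07073807073707073307073207072d0f07288f06f78f06f68706f60706f18706f10706ec8f06b08f06af8f = true := by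
  decide +kernel

theorem dg_aux (hf : Rule f) {k c n X : ℕ} (T : NHT f k c (2 * n))
    (C2a : Cyc f (6 * k + 2) (c - 8) (2 * (n - 9) + 2)) (C4a : Cyc f (6 * k + 4) (c - 6) (2 * (n - 7) + 2))
    (hX : 2 * n ≤ X + 1) (ho : X % 2 = 1)
    (h1 : ∀ {M R x y : ℕ}, M = 6 * k + 2 → R + 4 = c → x = X → y % 2 = 0 → X ≤ y + 7 → y + 1 ≤ X → ¬ f M R x y)
    (hp : ∀ {M R x y : ℕ}, M = 6 * k + 2 → R + 4 = c → x + 2 = X → y % 2 = 0 → X ≤ y + 9 → y + 3 ≤ X → f M R x y)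
    (hy : ∀ {M R x y : ℕ}, M = 6 * k + 2 → R + 2 = c → x = X + 2 → y % 2 = 0 → X ≤ y + 5 → y + 1 ≤ X → f M R x y) :
    False := by
  have hk := T.hk
  have hc := T.hc
  have h4 := T.h4
  have hb := T.hb
  have hN := T.hN2
  obtain ⟨a0, ha0⟩ : ∃ z, z + 1 = 6 * k := ⟨6 * k - 1, by omega⟩
  obtain ⟨b0, hb0⟩ : ∃ z, z + 8 = c := ⟨c - 8, by omega⟩
  obtain ⟨x0, hx0⟩ : ∃ z, z + 5 = X := ⟨X - 5, by omega⟩
  obtain ⟨y0, hy0⟩ : ∃ z, z + 7 = X := ⟨X - 7, by omega⟩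
  refine check_sound hf (a0 := a0) (b0 := b0) (x0 := x0) (y0 := y0) dg_chk
    ⟨fun h => absurd h (by decide), fun h => absurd h (by decide), fun h => absurd h (by decide), by omega, by omega,
      by omega, by omega⟩ ?_ ?_
  · intro j m p q hr h
    obtain ⟨-, -, hm1, hm2, hp1, hp2, hq1, hq2⟩ := hr
    replace h := of_decide_eq_true h
    rcases h with h | h | h | h | h | h | h | h | h | h | h | h | h | h | h
    · obtain ⟨rfl, rfl, h⟩ := h
      exact (WrapC.v1 C2a (by omega) (by omega) (by omega) (by omega) (by omega) (by omega) (by omega) (by omega)).mpr (by omega)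
    · obtain ⟨rfl, rfl, h⟩ := h
      exact (WrapC.v2 C2a (by omega) (by omega) (by omega) (by omega) (by omega) (by omega) (by omega)).mpr (by omega)
    · obtain ⟨rfl, rfl, h⟩ := h
      exact (WrapC.v3 C2a (by omega) (by omega) (by omega) (by omega) (by omega) (by omega) (by omega) (by omega)).mpr (by omega)
    · obtain ⟨rfl, rfl, h⟩ := h
      exact (WrapC.v0 C4a (by omega) (by omega) (by omega) (by omega) (by omega) (by omega) (by omega)).mpr (by omega)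
    · obtain ⟨rfl, rfl, h⟩ := h
      exact (WrapC.v2 C4a (by omega) (by omega) (by omega) (by omega) (by omega) (by omega) (by omega)).mpr (by omega)
    · obtain ⟨rfl, rfl, h⟩ := h
      exact (WrapC.v3 C4a (by omega) (by omega) (by omega) (by omega) (by omega) (by omega) (by omega) (by omega)).mpr (by omega)
    · obtain ⟨rfl, rfl, h⟩ := h
      exact sy1 hf ((WrapC.v2 C2a (by omega) (by omega) (by omega) (by omega) (by omega) (by omega) (by omega)).mpr (by omega))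
    · obtain ⟨rfl, rfl, h⟩ := h
      exact sy1 hf ((WrapC.v0 C4a (by omega) (by omega) (by omega) (by omega) (by omega) (by omega) (by omega)).mpr (by omega))
    · obtain ⟨rfl, rfl, h⟩ := h
      exact sy1 hf ((WrapC.v2 C4a (by omega) (by omega) (by omega) (by omega) (by omega) (by omega) (by omega)).mpr (by omega))
    · obtain ⟨rfl, rfl, rfl, rfl⟩ := h
      exact hp (by omega) (by omega) (by omega) (by omega) (by omega) (by omega)
    · obtain ⟨rfl, rfl, rfl, rfl⟩ := h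
      exact sy1 hf (hp (by omega) (by omega) (by omega) (by omega) (by omega) (by omega))
    · obtain ⟨rfl, rfl, rfl, rfl⟩ := h
      exact hp (by omega) (by omega) (by omega) (by omega) (by omega) (by omega)
    · obtain ⟨rfl, rfl, rfl, rfl⟩ := h
      exact hy (by omega) (by omega) (by omega) (by omega) (by omega) (by omega)
    · obtain ⟨rfl, rfl, rfl, rfl⟩ := h
      exact hy (by omega) (by omega) (by omega) (by omega) (by omega) (by omega)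
    · obtain ⟨rfl, rfl, rfl, rfl⟩ := h
      exact hy (by omega) (by omega) (by omega) (by omega) (by omega) (by omega)
  · intro j m p q hr h
    obtain ⟨-, -, hm1, hm2, hp1, hp2, hq1, hq2⟩ := hr
    replace h := of_decide_eq_true h
    rcases h with h | h | h | h | h | h | h | h | h | h | h | h | h | h | h | h | h | h | h | h | h | h | h | h | h | h | h | h | h | h | h | h | h | h | h | h | h | h | h | h | h | h | h | h | h
    · obtain ⟨rfl, rfl, h⟩ := h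
      exact mt (WrapC.v1 C2a (by omega) (by omega) (by omega) (by omega) (by omega) (by omega) (by omega) (by omega)).mp (by omega)
    · obtain ⟨rfl, rfl, h⟩ := h
      exact mt (WrapC.v2 C2a (by omega) (by omega) (by omega) (by omega) (by omega) (by omega) (by omega)).mp (by omega)
    · obtain ⟨rfl, rfl, h⟩ := h
      exact mt (WrapC.v3 C2a (by omega) (by omega) (by omega) (by omega) (by omega) (by omega) (by omega) (by omega)).mp (by omega)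
    · obtain ⟨rfl, rfl, h⟩ := h
      exact mt (WrapC.v0 C4a (by omega) (by omega) (by omega) (by omega) (by omega) (by omega) (by omega)).mp (by omega)
    · obtain ⟨rfl, rfl, h⟩ := h
      exact mt (WrapC.v2 C4a (by omega) (by omega) (by omega) (by omega) (by omega) (by omega) (by omega)).mp (by omega)
    · obtain ⟨rfl, rfl, h⟩ := h
      exact mt (WrapC.v3 C4a (by omega) (by omega) (by omega) (by omega) (by omega) (by omega) (by omega) (by omega)).mp (by omega)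
    · obtain ⟨rfl, rfl, h⟩ := h
      exact NHT.rIn hf T (t := 1) (p := 0) (j := 1) (by omega) (by omega) (by omega) (by omega) (by omega) (by omega) (by omega) (by omega)
    · obtain ⟨rfl, rfl, h⟩ := h
      exact NHT.rIn hf T (t := 1) (p := 1) (j := 1) (by omega) (by omega) (by omega) (by omega) (by omega) (by omega) (by omega) (by omega)
    · obtain ⟨rfl, rfl, h⟩ := h
      exact NHT.rOut hf T (t := 1) (p := 0) (j := 1) (by omega) (by omega) (by omega) (by omega) (by omega) (by omega) (by omega) (by omega)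
    · obtain ⟨rfl, rfl, h⟩ := h
      exact NHT.rOut hf T (t := 1) (p := 1) (j := 1) (by omega) (by omega) (by omega) (by omega) (by omega) (by omega) (by omega) (by omega)
    · obtain ⟨rfl, rfl, h⟩ := h
      exact NHT.rIn hf T (t := 2) (p := 0) (j := 0) (by omega) (by omega) (by omega) (by omega) (by omega) (by omega) (by omega) (by omega)
    · obtain ⟨rfl, rfl, h⟩ := h
      exact NHT.pOut hf T (t := 2) (j := 1) (by omega) (by omega) (by omega) (by omega) (by omega) (by omega) (by omega)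
    · obtain ⟨rfl, rfl, h⟩ := h
      exact NHT.pIn hf T (t := 3) (j := 1) (by omega) (by omega) (by omega) (by omega) (by omega) (by omega) (by omega)
    · obtain ⟨rfl, rfl, h⟩ := h
      exact NHT.rOut hf T (t := 2) (p := 0) (j := 2) (by omega) (by omega) (by omega) (by omega) (by omega) (by omega) (by omega) (by omega)
    · obtain ⟨rfl, rfl, h⟩ := h
      exact NHT.rOut hf T (t := 2) (p := 0) (j := 1) (by omega) (by omega) (by omega) (by omega) (by omega) (by omega) (by omega) (by omega)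
    · obtain ⟨rfl, rfl, h⟩ := h
      exact NHT.rOut hf T (t := 2) (p := 1) (j := 1) (by omega) (by omega) (by omega) (by omega) (by omega) (by omega) (by omega) (by omega)
    · obtain ⟨rfl, rfl, h⟩ := h
      exact NHT.rOut hf T (t := 2) (p := 1) (j := 0) (by omega) (by omega) (by omega) (by omega) (by omega) (by omega) (by omega) (by omega)
    · obtain ⟨rfl, rfl, h⟩ := h
      exact NHT.pOut hf T (t := 3) (j := 1) (by omega) (by omega) (by omega) (by omega) (by omega) (by omega) (by omega)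
    · obtain ⟨rfl, rfl, h⟩ := h
      exact NHT.pIn hf T (t := 4) (j := 2) (by omega) (by omega) (by omega) (by omega) (by omega) (by omega) (by omega)
    · obtain ⟨rfl, rfl, h⟩ := h
      exact NHT.pOut hf T (t := 3) (j := 0) (by omega) (by omega) (by omega) (by omega) (by omega) (by omega) (by omega)
    · obtain ⟨rfl, rfl, h⟩ := h
      exact sy0 hf (mt (WrapC.v1 C2a (by omega) (by omega) (by omega) (by omega) (by omega) (by omega) (by omega) (by omega)).mp (by omega))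
    · obtain ⟨rfl, rfl, h⟩ := h
      exact sy0 hf (mt (WrapC.v2 C2a (by omega) (by omega) (by omega) (by omega) (by omega) (by omega) (by omega)).mp (by omega))
    · obtain ⟨rfl, rfl, h⟩ := h
      exact sy0 hf (mt (WrapC.v3 C2a (by omega) (by omega) (by omega) (by omega) (by omega) (by omega) (by omega) (by omega)).mp (by omega))
    · obtain ⟨rfl, rfl, h⟩ := h
      exact sy0 hf (mt (WrapC.v0 C4a (by omega) (by omega) (by omega) (by omega) (by omega) (by omega) (by omega)).mp (by omega))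
    · obtain ⟨rfl, rfl, h⟩ := h
      exact sy0 hf (mt (WrapC.v2 C4a (by omega) (by omega) (by omega) (by omega) (by omega) (by omega) (by omega)).mp (by omega))
    · obtain ⟨rfl, rfl, h⟩ := h
      exact sy0 hf (mt (WrapC.v3 C4a (by omega) (by omega) (by omega) (by omega) (by omega) (by omega) (by omega) (by omega)).mp (by omega))
    · obtain ⟨rfl, rfl, h⟩ := h
      exact sy0 hf (NHT.rIn hf T (t := 1) (p := 0) (j := 1) (by omega) (by omega) (by omega) (by omega) (by omega) (by omega) (by omega) (by omega))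
    · obtain ⟨rfl, rfl, h⟩ := h
      exact sy0 hf (NHT.rIn hf T (t := 1) (p := 1) (j := 1) (by omega) (by omega) (by omega) (by omega) (by omega) (by omega) (by omega) (by omega))
    · obtain ⟨rfl, rfl, h⟩ := h
      exact sy0 hf (NHT.rOut hf T (t := 1) (p := 0) (j := 1) (by omega) (by omega) (by omega) (by omega) (by omega) (by omega) (by omega) (by omega))
    · obtain ⟨rfl, rfl, h⟩ := h
      exact sy0 hf (NHT.rOut hf T (t := 1) (p := 1) (j := 1) (by omega) (by omega) (by omega) (by omega) (by omega) (by omega) (by omega) (by omega))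
    · obtain ⟨rfl, rfl, h⟩ := h
      exact sy0 hf (NHT.rIn hf T (t := 2) (p := 0) (j := 0) (by omega) (by omega) (by omega) (by omega) (by omega) (by omega) (by omega) (by omega))
    · obtain ⟨rfl, rfl, h⟩ := h
      exact sy0 hf (NHT.pOut hf T (t := 2) (j := 1) (by omega) (by omega) (by omega) (by omega) (by omega) (by omega) (by omega))
    · obtain ⟨rfl, rfl, h⟩ := h
      exact sy0 hf (NHT.pIn hf T (t := 3) (j := 1) (by omega) (by omega) (by omega) (by omega) (by omega) (by omega) (by omega))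
    · obtain ⟨rfl, rfl, h⟩ := h
      exact sy0 hf (NHT.rOut hf T (t := 2) (p := 0) (j := 2) (by omega) (by omega) (by omega) (by omega) (by omega) (by omega) (by omega) (by omega))
    · obtain ⟨rfl, rfl, h⟩ := h
      exact sy0 hf (NHT.rOut hf T (t := 2) (p := 0) (j := 1) (by omega) (by omega) (by omega) (by omega) (by omega) (by omega) (by omega) (by omega))
    · obtain ⟨rfl, rfl, h⟩ := h
      exact sy0 hf (NHT.rOut hf T (t := 2) (p := 1) (j := 1) (by omega) (by omega) (by omega) (by omega) (by omega) (by omega) (by omega) (by omega))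
    · obtain ⟨rfl, rfl, h⟩ := h
      exact sy0 hf (NHT.rOut hf T (t := 2) (p := 1) (j := 0) (by omega) (by omega) (by omega) (by omega) (by omega) (by omega) (by omega) (by omega))
    · obtain ⟨rfl, rfl, h⟩ := h
      exact sy0 hf (NHT.pOut hf T (t := 3) (j := 1) (by omega) (by omega) (by omega) (by omega) (by omega) (by omega) (by omega))
    · obtain ⟨rfl, rfl, h⟩ := h
      exact sy0 hf (NHT.pIn hf T (t := 4) (j := 2) (by omega) (by omega) (by omega) (by omega) (by omega) (by omega) (by omega))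
    · obtain ⟨rfl, rfl, h⟩ := h
      exact sy0 hf (NHT.pOut hf T (t := 3) (j := 0) (by omega) (by omega) (by omega) (by omega) (by omega) (by omega) (by omega))
    · obtain ⟨rfl, rfl, rfl, rfl⟩ := h
      exact h1 (by omega) (by omega) (by omega) (by omega) (by omega) (by omega)
    · obtain ⟨rfl, rfl, rfl, rfl⟩ := h
      exact sy0 hf (h1 (by omega) (by omega) (by omega) (by omega) (by omega) (by omega))
    · obtain ⟨rfl, rfl, rfl, rfl⟩ := h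
      exact h1 (by omega) (by omega) (by omega) (by omega) (by omega) (by omega)
    · obtain ⟨rfl, rfl, rfl, rfl⟩ := h
      exact sy0 hf (h1 (by omega) (by omega) (by omega) (by omega) (by omega) (by omega))
    · obtain ⟨rfl, rfl, rfl, rfl⟩ := h
      exact h1 (by omega) (by omega) (by omega) (by omega) (by omega) (by omega)

/-- every window of the layer `6 k + 2` in the row `c - 4` is covered, up to the diagonal -/
theorem cov4 (hf : Rule f) {k c n x y : ℕ} (T : NHT f k c (2 * n)) (C2a : Cyc f (6 * k + 2) (c - 8) (2 * (n - 9) + 2))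
    (C4a : Cyc f (6 * k + 4) (c - 6) (2 * (n - 7) + 2)) (hX : 2 * n ≤ x + 4) (h1 : y + 2 ≤ x)
    (h2 : x + 4 ≤ y + 2 * k) : Cov f (6 * k + 2) (c - 4) x y := by
  have hb := T.hb
  have hN2 := T.hN2
  have hk := T.hk
  have h4 := T.h4
  rcases Nat.lt_or_ge (y + 2) x with h3 | h3
  · exact T.cIn hf (t := 3) (j := 2) (by omega) (by omega) (by omega) (by omega) (by omega) h1 (by omega) (by omega)
  · have h5 := cov_last hf (A := 6 * k + 2) (b := c - 6) (D := 2 * k) (D' := 2 * k) (Y := 2 * (n - 7) + 4)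
      (Y' := 2 * (n - 9) + 4) (x := x) (y := y) (by omega) (by omega)
      (fun u v a1 a2 a3 a4 a5 => by
        have e1 : 6 * k + 2 + 2 = 6 * k + 4 := by omega
        rw [e1]
        exact (out_cyc C4a (by omega) (by omega) (by omega) (by omega) (by omega) a2 (by omega)).2 ⟨a4, a5⟩)
      (fun u v a1 a2 a3 a4 a5 => (out_cyc C2a (by omega) (by omega) (by omega) (by omega) (by omega) a2 (by omega)).2
        ⟨a4, a5⟩) (by omega) (by omega) (by omega) (by omega) (by omega)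
    have e2 : c - 6 + 2 = c - 4 := by omega
    rwa [e2] at h5

/-- the run in the row `c - 4`, up to the tip -/
theorem run4 (hf : Rule f) {k c n x y0 : ℕ} (T : NHT f k c (2 * n)) (C2a : Cyc f (6 * k + 2) (c - 8) (2 * (n - 9) + 2))
    (C4a : Cyc f (6 * k + 4) (c - 6) (2 * (n - 7) + 2)) (hx : x % 2 = 1) (hy : y0 % 2 = 0) (hX : 2 * n ≤ x + 4)
    (hw : x + 3 ≤ y0 + 2 * k) (h0 : f (6 * k + 2) (c - 4) x y0) :
    ∀ y, y0 ≤ y → y + 1 ≤ x → y % 2 = 0 → f (6 * k + 2) (c - 4) x y := by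
  have hc := T.hc
  have hb := T.hb
  intro y h1 h2 h3
  exact col_run hf (y1 := x - 1) (by omega) (by omega) hx hy
    (fun z h4 h5 h6 => cov4 hf T C2a C4a hX (by omega) (by omega)) h0 y h1 (by omega) h3

/-- the run in the row `c - 2`, up to the distance `3` -/
theorem run2 (hf : Rule f) {k c n x y0 : ℕ} (T : NHT f k c (2 * n)) (hx : x % 2 = 1) (hy : y0 % 2 = 0)
    (hX : 2 * n ≤ x + 4) (hw : x + 5 ≤ y0 + 2 * k) (h0 : f (6 * k + 2) (c - 2) x y0) :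
    ∀ y, y0 ≤ y → y + 3 ≤ x → y % 2 = 0 → f (6 * k + 2) (c - 2) x y := by
  have hc := T.hc
  have hb := T.hb
  intro y h1 h2 h3
  exact col_run hf (y1 := x - 3) (by omega) (by omega) hx hy
    (fun z h4 h5 h6 => T.cIn hf (t := 4) (j := 3) (by omega) (by omega) (by omega) (by omega) (by omega) (by omega)
      (by omega) (by omega)) h0 y h1 (by omega) h3

/-- **The tip of the layer `6 k + 2` in the row `c - 4`**, from the alternative near the wall. -/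
theorem tip_of (hf : Rule f) {k c n x : ℕ} (T : NHT f k c (2 * n)) (U : NHU f k c (2 * n))
    (C2a : Cyc f (6 * k + 2) (c - 8) (2 * (n - 9) + 2)) (C4a : Cyc f (6 * k + 4) (c - 6) (2 * (n - 7) + 2))
    (C6a : Cyc f (6 * k + 6) (c - 8) (2 * (n - (k + 7)) + 2)) (C6 : Cyc f (6 * k + 6) (c - 4) (2 * (n - 5) + 2))
    (C8a : Cw f (6 * k + 8) (c - 6) (n - (k + 5))) (hX : 2 * n ≤ x + 1) (ho : x % 2 = 1)
    (W : (∀ {M R u y : ℕ}, M = 6 * k + 2 → R + 4 = c → u = x → y % 2 = 0 → x + 3 ≤ y + 2 * k → y + 1 ≤ x → ¬ f M R u y) →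
      ∃ y, y % 2 = 0 ∧ x + 7 ≤ y + 2 * k ∧ y + 2 * k ≤ x + 9 ∧ f (6 * k + 2) (c - 2) (x + 2) y) :
    f (6 * k + 2) (c - 4) x (x - 1) := by
  have hk := T.hk
  have hb := T.hb
  have hN2 := T.hN2
  by_contra hno
  have z0 : ∀ {M R u y : ℕ}, M = 6 * k + 2 → R + 4 = c → u = x → y % 2 = 0 → x + 3 ≤ y + 2 * k → y + 1 ≤ x →
      ¬ f M R u y := by
    intro M R u y e1 e2 e3 h1 h2 h3 h
    have e4 : R = c - 4 := by omega
    subst e1 e3 e4
    exact hno (run4 hf T C2a C4a ho h1 (by omega) h2 h _ (by omega) (by omega) (by omega))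
  obtain ⟨y1, a1, a2, a3, a4⟩ : ∃ y, y % 2 = 0 ∧ x + 1 ≤ y + 2 * k ∧ y + 2 * k ≤ x + 5 ∧
      f (6 * k + 2) (c - 4) (x - 2) y := by
    by_contra hn
    refine k0p_aux hf T U C2a C4a C6a C6 C8a hX ho z0 ?_
    intro M R u y e1 e2 e3 h1 h2 h3 h
    have e4 : R = c - 4 := by omega
    have e5 : u = x - 2 := by omega
    subst e1 e4 e5
    exact hn ⟨y, h1, h2, h3, h⟩
  obtain ⟨y2, b1, b2, b3, b4⟩ := W z0
  refine dg_aux hf T C2a C4a hX ho ?_ ?_ ?_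
  · intro M R u y e1 e2 e3 h1 h2 h3
    exact z0 e1 e2 e3 h1 (by omega) h3
  · intro M R u y e1 e2 e3 h1 h2 h3
    have e4 : R = c - 4 := by omega
    have e5 : u = x - 2 := by omega
    subst e1 e4 e5
    exact run4 hf T C2a C4a (by omega) a1 (by omega) (by omega) a4 y (by omega) (by omega) h1
  · intro M R u y e1 e2 e3 h1 h2 h3
    have e4 : R = c - 2 := by omega
    subst e1 e3 e4
    exact run2 hf T (by omega) b1 (by omega) (by omega) b4 y (by omega) (by omega) h1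

end Pool.Agent.SNT.D1T2
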