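import Pool.Agent.SNT.D1W2
import Pool.Agent.SNT.D1T2

set_option autoImplicit false

/-! The tips of the layer `6 k + 2` in the row `c - 4 = b + 18`, from the column `2 n - 1` on. -/

namespace Pool.Agent.SNT.D1T2

open Pool.Agent.SNT Pool.Agent.SNT.LW Pool.Agent.SNT.NHZ

variable {f : ℕ → ℕ → ℕ → ℕ → Prop}

/-- **The tip of the layer `6 k + 2` in the row `b + 18`**, in the plain window, the columns to the right being known. -/
theorem tips_L2 (hf : Rule f) {k b m n x : ℕ} (hs : Side k b m) (S : Stack6 f k b m 0 0 0 0 0 1)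
    (hn : n = m + 9 + (k + 2) * 4) (C2 : Cyc f (6 * k + 2) (b + 18) (x + 1)) (hX : 2 * n ≤ x + 1) (ho : x % 2 = 1) :
    f (6 * k + 2) (b + 18) x (x - 1) := by
  subst hn
  have T := NHT.of_stack hs S
  have U := NHU.of_stack hs S
  have hlw : ∀ {M R x y : ℕ}, M + 1 = 6 * k → b + 22 ≤ R + 12 → R ≤ b + 22 + 2 →
      2 * (m + 9 + (k + 2) * 4) ≤ x + 12 → y ≤ x → x ≤ y + 4 * k → ¬ f M R x y := by
    intro M R x y e1 e2 e3 e4 e5 e6
    have hb := hs.2.2.2.1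
    have e : M = 6 * k - 1 := by omega
    subst e
    exact lw_zero hs S (i := R - b) (by omega) (by omega) (by omega) e5 (by omega)
  obtain ⟨hk, hb, h4, hb2, hm⟩ := hs
  have C2a : Cyc f (6 * k + 2) (b + 22 - 8) (2 * (m + 9 + (k + 2) * 4 - 9) + 2) := by
    rw [show b + 22 - 8 = b + 2 + 4 * 3 by omega,
      show m + 9 + (k + 2) * 4 - 9 = m + k + 2 + 0 + (k + 2) * 3 by omega]
    exact S.l2 3
  have C2b : Cyc f (6 * k + 2) (b + 22 - 4) (x + 1) := by
    rw [show b + 22 - 4 = b + 18 by omega]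
    exact C2
  have C4a : Cyc f (6 * k + 4) (b + 22 - 6) (2 * (m + 9 + (k + 2) * 4 - 7) + 2) := by
    rw [show b + 22 - 6 = b + 4 * 4 by omega, show m + 9 + (k + 2) * 4 - 7 = m + 2 + 0 + (k + 2) * 4 by omega]
    exact S.l4 4
  have C6a : Cyc f (6 * k + 6) (b + 22 - 8) (2 * (m + 9 + (k + 2) * 4 - (k + 7)) + 2) := by
    rw [show b + 22 - 8 = b + 2 + 4 * 3 by omega,
      show m + 9 + (k + 2) * 4 - (k + 7) = m + 4 + 0 + (k + 2) * 3 by omega]
    exact S.l6 3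
  have C6 : Cyc f (6 * k + 6) (b + 22 - 4) (2 * (m + 9 + (k + 2) * 4 - 5) + 2) := by
    rw [show b + 22 - 4 = b + 2 + 4 * 4 by omega, show m + 9 + (k + 2) * 4 - 5 = m + 4 + 0 + (k + 2) * 4 by omega]
    exact S.l6 4
  have C8a : Cw f (6 * k + 8) (b + 22 - 6) (m + 9 + (k + 2) * 4 - (k + 5)) := by
    rw [show b + 22 - 6 = b + 4 + 4 * 3 by omega,
      show m + 9 + (k + 2) * 4 - (k + 5) = m + 6 + 0 + (k + 2) * 3 by omega]
    exact S.l8 3
  have C8 : Cw f (6 * k + 8) (b + 22 - 2) (m + 9 + (k + 2) * 4 - 3) := by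
    rw [show b + 22 - 2 = b + 4 + 4 * 4 by omega, show m + 9 + (k + 2) * 4 - 3 = m + 6 + 0 + (k + 2) * 4 by omega]
    exact S.l8 4
  have C10a : Cw f (6 * k + 10) (b + 22 - 4) (m + 9 + (k + 2) * 4 - (k + 2)) := by
    rw [show b + 22 - 4 = b + 6 + 4 * 3 by omega,
      show m + 9 + (k + 2) * 4 - (k + 2) = m + 8 + 1 + (k + 2) * 3 by omega]
    exact S.l10 3
  have C10 : Cw f (6 * k + 10) (b + 22) (m + 9 + (k + 2) * 4) := by
    have h := S.l10 4
    rwa [show b + 6 + 4 * 4 = b + 22 by omega, show m + 8 + 1 + (k + 2) * 4 = m + 9 + (k + 2) * 4 by omega] at h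
  have h := tip_of hf T U C2a C4a C6a C6 C8a hX ho
    (fun h1 => D1W2.w2 hf T U hlw C2a C2b C4a C6a C6 C8a C8 C10a C10 hX ho h1)
  rwa [show b + 22 - 4 = b + 18 by omega] at h

end Pool.Agent.SNT.D1T2
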