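import Pool.Agent.SNT.D1Ind
import Pool.Agent.SNT.D1T2f

set_option autoImplicit false

/-! The field `t2` of `D1.Tips2`. -/

namespace Pool.Agent.SNT.D1

open Pool.Agent.SNT

variable {f : ℕ → ℕ → ℕ → ℕ → Prop} {k : ℕ}

/-- **The tip of `6 k + 2` in the cycle one**, the known lead being `nn k m 1 + t - 4` with `3 ≤ t` (the
field `t2` of `D1.Tips2`, `D1.Tip2` unfolded). -/
theorem t2_field (hf : Rule f) : ∀ b m t : ℕ, StackA f k b m 0 0 0 0 0 1 → 3 ≤ t → t + 3 ≤ k →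
    Q0 f k b m 0 2 → Q2 f k b m 0 (t + 1) →
    f (6 * k + 2) (b + 4 * 1 + 18) (2 * (nn k m 1 + t - 5) + 3) (2 * (nn k m 1 + t - 5) + 2) := by
  intro b m t S h3 _ _ q2
  have S1 := S.shift 1
  have hn1 : nn k m 1 = m + (k + 2) * 1 + 9 + (k + 2) * 4 := by unfold nn; ring
  have C := q2 1 (by omega)
  have h := D1T2.tips_L2 hf S1.side S1.stack (n := nn k m 1) (x := 2 * (nn k m 1 + t - 5) + 3) hn1
    (cyc_of_eq C rfl (by omega)) (by omega) (by omega)
  rwa [show 2 * (nn k m 1 + t - 5) + 3 - 1 = 2 * (nn k m 1 + t - 5) + 2 by omega] at h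

end Pool.Agent.SNT.D1
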