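import Pool.Agent.SNT.Loc
import Pool.Agent.SNT.NHZoneU

set_option autoImplicit false
set_option synthInstance.maxSize 100000
set_option maxRecDepth 100000
set_option linter.unusedVariables false

/-! (W1) The missing in-line `M` of the layer `6 k + 2` near the wall: in the OUT row the beam of the column `M + 1`
leaves the wall, or `P` of the layer `6 k + 3` has one of two cells at the wall (helper82). -/

namespace Pool.Agent.SNT.Loc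

theorem w1_wall_cert_chk : check 12 7 8 16 0 1 0 1 0
    (fun j n p q => decide ((((((((j = 2 ∧ n = 1 ∧ p = 1 ∧ q = 3) ∨ (j = 2 ∧ n = 1 ∧ p = 1 ∧ q = 5)) ∨ (j = 2 ∧ n = 1 ∧ p = 2 ∧ q = 2)) ∨ ((j = 2 ∧ n = 1 ∧ p = 3 ∧ q = 5) ∨ (j = 2 ∧ n = 1 ∧ p = 3 ∧ q = 7))) ∨ ((((j = 2 ∧ n = 2 ∧ p = 3 ∧ q = 4) ∨ (j = 2 ∧ n = 2 ∧ p = 4 ∧ q = 3)) ∨ (j = 2 ∧ n = 2 ∧ p = 5 ∧ q = 6)) ∨ ((j = 2 ∧ n = 2 ∧ p = 6 ∧ q = 5) ∨ (j = 2 ∧ n = 3 ∧ p = 5 ∧ q = 5)))) ∨ (((((j = 2 ∧ n = 3 ∧ p = 6 ∧ q = 4) ∨ (j = 4 ∧ n = 1 ∧ p = 1 ∧ q = 1)) ∨ (j = 4 ∧ n = 1 ∧ p = 3 ∧ q = 3)) ∨ ((j = 4 ∧ n = 1 ∧ p = 5 ∧ q = 5) ∨ (j = 4 ∧ n = 3 ∧ p = 5 ∧ q = 3))) ∨ (((j = 4 ∧ n = 3 ∧ p = 5 ∧ q = 7) ∨ (j = 4 ∧ n = 3 ∧ p = 5 ∧ q = 9)) ∨ ((j = 4 ∧ n = 3 ∧ p = 6 ∧ q = 6) ∨ (j = 6 ∧ n = 2 ∧ p = 1 ∧ q = 2))))) ∨ ((((((j = 6 ∧ n = 2 ∧ p = 3 ∧ q = 4) ∨ (j = 6 ∧ n = 3 ∧ p = 5 ∧ q = 5)) ∨ (j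 = 8 ∧ n = 1 ∧ p = 2 ∧ q = 4)) ∨ ((j = 8 ∧ n = 3 ∧ p = 3 ∧ q = 5) ∨ (j = 10 ∧ n = 1 ∧ p = 1 ∧ q = 3))) ∨ (((j = 10 ∧ n = 1 ∧ p = 1 ∧ q = 5) ∨ (j = 10 ∧ n = 1 ∧ p = 3 ∧ q = 3)) ∨ ((j = 10 ∧ n = 2 ∧ p = 3 ∧ q = 2) ∨ (j = 10 ∧ n = 3 ∧ p = 2 ∧ q = 6)))) ∨ (((((j = 10 ∧ n = 3 ∧ p = 4 ∧ q = 14) ∨ (j = 10 ∧ n = 3 ∧ p = 6 ∧ q = 10)) ∨ (j = 10 ∧ n = 3 ∧ p = 6 ∧ q = 12)) ∨ ((j = 10 ∧ n = 3 ∧ p = 6 ∧ q = 14) ∨ (j = 12 ∧ n = 3 ∧ p = 1 ∧ q = 5))) ∨ (((j = 12 ∧ n = 3 ∧ p = 3 ∧ q = 3) ∨ (j = 12 ∧ n = 3 ∧ p = 3 ∧ q = 5)) ∨ ((j = 12 ∧ n = 5 ∧ p = 6 ∧ q = 12) ∨ (j = 12 ∧ n = 5 ∧ p = 6 ∧ q = 14))))))))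
    (fun j n p q => decide ((((((((j = 1 ∨ (j = 2 ∧ n = 2 ∧ p = 1 ∧ q = 6)) ∨ (j = 2 ∧ n = 2 ∧ p = 2 ∧ q = 3)) ∨ (((j = 2 ∧ n = 2 ∧ p = 2 ∧ q = 4) ∨ (j = 2 ∧ n = 2 ∧ p = 2 ∧ q = 5)) ∨ (j = 2 ∧ n = 2 ∧ p = 2 ∧ q = 6))) ∨ ((((j = 2 ∧ n = 2 ∧ p = 3 ∧ q = 5) ∨ (j = 2 ∧ n = 2 ∧ p = 3 ∧ q = 6)) ∨ (j = 2 ∧ n = 2 ∧ p = 3 ∧ q = 7)) ∨ (((j = 2 ∧ n = 2 ∧ p = 3 ∧ q = 8) ∨ (j = 2 ∧ n = 2 ∧ p = 4 ∧ q = 5)) ∨ (j = 2 ∧ n = 2 ∧ p = 4 ∧ q = 6)))) ∨ (((((j = 2 ∧ n = 2 ∧ p = 4 ∧ q = 7) ∨ (j = 2 ∧ n = 2 ∧ p = 4 ∧ q = 8)) ∨ (j = 2 ∧ n = 3 ∧ p = 5 ∧ q = 3)) ∨ (((j = 2 ∧ n = 4 ∧ p = 3 ∧ q = 9) ∨ (j = 2 ∧ n = 4 ∧ p = 3 ∧ q = 10)) ∨ (j = 2 ∧ n = 4 ∧ p = 4 ∧ q = 10))) ∨ ((((j = 2 ∧ n = 4 ∧ p = 4 ∧ q = 11) ∨ (j = 2 ∧ n = 4 ∧ p = 5 ∧ q = 11)) ∨ (j = 3 ∧ n = 2 ∧ p = 2 ∧ q = 7)) ∨ ((j = 3 ∧ n = 4 ∧ p = 4 ∧ q = 10) ∨ (j = 3 ∧ n = 4 ∧ p = 4 ∧ q = 11))))) ∨ ((((((j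 = 3 ∧ n = 4 ∧ p = 5 ∧ q = 11) ∨ (j = 4 ∧ n = 1 ∧ p = 2 ∧ q = 2)) ∨ (j = 4 ∧ n = 2 ∧ p = 2 ∧ q = 7)) ∨ (((j = 4 ∧ n = 2 ∧ p = 3 ∧ q = 7) ∨ (j = 4 ∧ n = 2 ∧ p = 3 ∧ q = 8)) ∨ (j = 4 ∧ n = 2 ∧ p = 4 ∧ q = 8))) ∨ ((((j = 4 ∧ n = 3 ∧ p = 3 ∧ q = 5) ∨ (j = 4 ∧ n = 3 ∧ p = 3 ∧ q = 7)) ∨ (j = 4 ∧ n = 3 ∧ p = 5 ∧ q = 4)) ∨ (((j = 4 ∧ n = 3 ∧ p = 5 ∧ q = 5) ∨ (j = 4 ∧ n = 3 ∧ p = 6 ∧ q = 4)) ∨ (j = 4 ∧ n = 4 ∧ p = 4 ∧ q = 10)))) ∨ (((((j = 4 ∧ n = 4 ∧ p = 4 ∧ q = 11) ∨ (j = 4 ∧ n = 4 ∧ p = 5 ∧ q = 11)) ∨ (j = 4 ∧ n = 4 ∧ p = 6 ∧ q = 7)) ∨ (((j = 4 ∧ n = 4 ∧ p = 6 ∧ q = 8) ∨ (j = 4 ∧ n = 4 ∧ p = 6 ∧ q = 9)) ∨ (j = 4 ∧ n = 4 ∧ p = 6 ∧ q = 11))) ∨ ((((j = 4 ∧ n = 5 ∧ p = 5 ∧ q = 11) ∨ (j = 5 ∧ n = 4 ∧ p = 5 ∧ q = 10)) ∨ (j = 5 ∧ n = 4 ∧ p = 5 ∧ q = 11)) ∨ ((j = 5 ∧ n = 4 ∧ p = 6 ∧ q = 11) ∨ (j = 5 ∧ n = 5 ∧ p = 6 ∧ q = 7)))))) ∨ (((((((j = 5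 ∧ n = 5 ∧ p = 6 ∧ q = 9) ∨ (j = 5 ∧ n = 5 ∧ p = 6 ∧ q = 11)) ∨ (j = 6 ∧ n = 2 ∧ p = 1 ∧ q = 3)) ∨ (((j = 6 ∧ n = 2 ∧ p = 1 ∧ q = 4) ∨ (j = 6 ∧ n = 2 ∧ p = 2 ∧ q = 4)) ∨ (j = 6 ∧ n = 4 ∧ p = 5 ∧ q = 11))) ∨ ((((j = 6 ∧ n = 4 ∧ p = 5 ∧ q = 12) ∨ (j = 6 ∧ n = 4 ∧ p = 6 ∧ q = 11)) ∨ (j = 6 ∧ n = 4 ∧ p = 6 ∧ q = 12)) ∨ (((j = 7 ∧ n = 2 ∧ p = 1 ∧ q = 4) ∨ (j = 7 ∧ n = 4 ∧ p = 5 ∧ q = 11)) ∨ (j = 7 ∧ n = 4 ∧ p = 5 ∧ q = 12)))) ∨ (((((j = 7 ∧ n = 4 ∧ p = 6 ∧ q = 11) ∨ (j = 7 ∧ n = 4 ∧ p = 6 ∧ q = 12)) ∨ (j = 7 ∧ n = 5 ∧ p = 6 ∧ q = 11)) ∨ (((j = 7 ∧ n = 5 ∧ p = 6 ∧ q = 12) ∨ (j = 8 ∧ n = 2 ∧ p = 1 ∧ q = 4)) ∨ (j = 8 ∧ n = 2 ∧ p = 1 ∧ q = 5))) ∨ ((((j = 8 ∧ n = 2 ∧ p = 2 ∧ q = 4) ∨ (j = 8 ∧ n = 4 ∧ p = 5 ∧ q = 11)) ∨ (j = 8 ∧ n = 4 ∧ p = 5 ∧ q = 12)) ∨ ((j = 8 ∧ n = 4 ∧ p = 5 ∧ q = 13) ∨ (j = 8 ∧ n = 4 ∧ p = 6 ∧ q = 11))))) ∨ ((((((j = 8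 ∧ n = 4 ∧ p = 6 ∧ q = 12) ∨ (j = 8 ∧ n = 4 ∧ p = 6 ∧ q = 13)) ∨ (j = 9 ∧ n = 4 ∧ p = 5 ∧ q = 11)) ∨ (((j = 9 ∧ n = 4 ∧ p = 5 ∧ q = 12) ∨ (j = 9 ∧ n = 4 ∧ p = 6 ∧ q = 11)) ∨ (j = 9 ∧ n = 4 ∧ p = 6 ∧ q = 12))) ∨ ((((j = 9 ∧ n = 4 ∧ p = 6 ∧ q = 13) ∨ (j = 9 ∧ n = 5 ∧ p = 6 ∧ q = 11)) ∨ (j = 9 ∧ n = 5 ∧ p = 6 ∧ q = 12)) ∨ (((j = 9 ∧ n = 5 ∧ p = 6 ∧ q = 13) ∨ (j = 10 ∧ n = 2 ∧ p = 1 ∧ q = 4)) ∨ (j = 10 ∧ n = 2 ∧ p = 2 ∧ q = 3)))) ∨ (((((j = 10 ∧ n = 2 ∧ p = 2 ∧ q = 4) ∨ (j = 10 ∧ n = 2 ∧ p = 3 ∧ q = 3)) ∨ (j = 10 ∧ n = 2 ∧ p = 3 ∧ q = 4)) ∨ (((j = 10 ∧ n = 3 ∧ p = 1 ∧ q = 5) ∨ (j = 10 ∧ n = 4 ∧ p = 5 ∧ q = 11)) ∨ (j = 10 ∧ n = 4 ∧ p = 5 ∧ q = 12))) ∨ ((((j = 10 ∧ n = 4 ∧ p = 5 ∧ q = 13) ∨ (j = 10 ∧ n = 4 ∧ p = 6 ∧ q = 11)) ∨ (j = 10 ∧ n = 4 ∧ p = 6 ∧ q = 12)) ∨ ((j = 10 ∧ n = 4 ∧ p = 6 ∧ q = 13) ∨ (j = 10 ∧ n = 4 ∧ p = 6 ∧ q = 14)))))))))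
    552
    0x4520306128006118007dad207da5a0789800951d208230306128007dad207918007918409518307d20007da9a044a00044a0407e200082aba0a2c850864000a3492086c9a086b80086b81082a80082a8409518307d20007da9a07e200082aba07db00082b000823320a33fa086300086304075200079aba07db830792800792840a2c850864000a3492086c9a086b80086b81082280082284095183079200079204086c830823800823840a3583086c80086c840db6030a2d800a2d840db6030a2d800a3592086c80086c8106a38006a384049a83065a80065a841136030dad800dad8404ac83066c80066c84045b03061b00061b0404aa03066a00066a041092830d0a000d121209498009498404eb8306ab8006ab8404530306130006130414b683112e00112e0407e403082480082484082b03086b00086b04141283104a00104a04061b03065b00065b0404ac03066c00066c0404640304a40004a40414b683112e0011369a0dae000dae0404520304920004920407e20308220008220404a40304a48004a48404ec0306ac0006ac0406240306648006648407e40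3082400082404141283108a00108a04045b03049b80049b84141a03109200109204062303066300066304045b03061b80061b8404598306198006198414b603112d80112d84062303066300082b5209eb0009eb0404e30306a30006a304046c03046c80046c8404e50306a580086dd206a48006a48404ad03066d00066d0404630304a30004a30414b703112e80112e8414b70310ee8010ee840cd20309098009098404a2830662800662840a3383082300082304062403066400066404045b03045b80045b8404eb0306ab0006ab0404520306120006120407e40306138006138404e40306a40006a40404ec8306ac8006ac8404ed8306ad8006ad8406238306638006638409eb030a2b000a2b0404630304a38004a38404ed0306ad0006ad0404a20306620006620404aa03066a000832da0a33000a330404aa03066a000832da08730008730404ab83066b80066b8407a28007eb3a16770016760015da8015d98015ca8012770012760012750012670012530012190011d98011ca8011c9800eda800e52000b6a800b1a000b090007f30007ec8007eb8007e980076a80075980074880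047200046a80043280042b00042180041a0003db8003da8003d10003ca8003c98016770f16760f15da8f15d98f15ca8f12f68712f58712b70712b68712b60712b58712ae8712ae0712ad8712770f12760f12750f12670f12530f125287125187124a87121a0712198712190f121207121187120a0711d98f11ca8f11c98f11368711360711358710f68710f60710f58710ee0710ed870f76870f75870f36870f36070f35870f2e870f2e070f2d870eda8f0ed2870e92070e8a870e8a070e520f0db6070db5870d76070d75870d6e070d6d870cca070bf5870bb6070bb5870bae070bad870b6a8f0b51870b1a0f0b12070b0a070b09870b090f0ad1870a35870a34870a338709f58709ed8709ed07087587087487087387086d87086587086487086387083587083487083407083387082d8708258708250707f30f07f28707f20707ec8f07eb8f07ea8707ea0707e98f07e38707e28707e18707db8707da8707d38707d28707d18707a407079c07079b87079387076a8f07598f07528707518707510707488f066d8706658706650705d38704e58704e48704e38704e28704ad8704a5870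4a507049d07049c8704720f046a8f04698704648704638704628704618704528704518704328f042b0f04240704238704230704228704218f041c07041b87041b07041a87041a0f041307041287041207041187040b0703db8f03da8f03d10f03ca8f03c98f032d87032d07032c87032c07032b87032b07032a87032587032507032487032407032387032307032287031d07031c87031c07031b87031b07031a8702ed8702ed0702ec8702ec0702eb8702eb0702ea8702ea0702e98702e58702e50702e48702e40702e38702e30702e28702e20702e18702dd0702dc8702dc0702db8702db0702da8702da0702d98702d28702d20702ad0702ac8702ac0702ab8702ab0702aa0702a98702a50702a48702a40702a38702a30702a28702a20702a187029c07029b87029b07029a87029a07029987029907029307029287029207029187029107028b07028a87028a07028987026c07026b87026407026387026307026287025c07025b87025b07025a87025987025907025307025287025207025187025107024b07024a87024a07024987 = true := by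
  decide +kernel

theorem w1_wall_cert {f : ℕ → ℕ → ℕ → ℕ → Prop} (hf : Rule f) {a0 b0 x0 y0 : ℕ}
    (ha : a0 % 2 = 0) (hb : b0 % 2 = 1) (hx : x0 % 2 = 0) (hy : y0 % 2 = 1)
    (h1 : ∀ j n p q : ℕ, InR 12 7 8 16 1 j n p q →
      ((((((((j = 2 ∧ n = 1 ∧ p = 1 ∧ q = 3) ∨ (j = 2 ∧ n = 1 ∧ p = 1 ∧ q = 5)) ∨ (j = 2 ∧ n = 1 ∧ p = 2 ∧ q = 2)) ∨ ((j = 2 ∧ n = 1 ∧ p = 3 ∧ q = 5) ∨ (j = 2 ∧ n = 1 ∧ p = 3 ∧ q = 7))) ∨ ((((j = 2 ∧ n = 2 ∧ p = 3 ∧ q = 4) ∨ (j = 2 ∧ n = 2 ∧ p = 4 ∧ q = 3)) ∨ (j = 2 ∧ n = 2 ∧ p = 5 ∧ q = 6)) ∨ ((j = 2 ∧ n = 2 ∧ p = 6 ∧ q = 5) ∨ (j = 2 ∧ n = 3 ∧ p = 5 ∧ q = 5)))) ∨ (((((j = 2 ∧ n = 3 ∧ p = 6 ∧ q = 4) ∨ (j = 4 ∧ n = 1 ∧ p = 1 ∧ q = 1)) ∨ (j = 4 ∧ n = 1 ∧ p = 3 ∧ q = 3)) ∨ ((j = 4 ∧ n = 1 ∧ p = 5 ∧ q = 5) ∨ (j = 4 ∧ n = 3 ∧ p = 5 ∧ q = 3))) ∨ (((j = 4 ∧ n = 3 ∧ p = 5 ∧ q = 7) ∨ (j = 4 ∧ n = 3 ∧ p = 5 ∧ q = 9)) ∨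 ((j = 4 ∧ n = 3 ∧ p = 6 ∧ q = 6) ∨ (j = 6 ∧ n = 2 ∧ p = 1 ∧ q = 2))))) ∨ ((((((j = 6 ∧ n = 2 ∧ p = 3 ∧ q = 4) ∨ (j = 6 ∧ n = 3 ∧ p = 5 ∧ q = 5)) ∨ (j = 8 ∧ n = 1 ∧ p = 2 ∧ q = 4)) ∨ ((j = 8 ∧ n = 3 ∧ p = 3 ∧ q = 5) ∨ (j = 10 ∧ n = 1 ∧ p = 1 ∧ q = 3))) ∨ (((j = 10 ∧ n = 1 ∧ p = 1 ∧ q = 5) ∨ (j = 10 ∧ n = 1 ∧ p = 3 ∧ q = 3)) ∨ ((j = 10 ∧ n = 2 ∧ p = 3 ∧ q = 2) ∨ (j = 10 ∧ n = 3 ∧ p = 2 ∧ q = 6)))) ∨ (((((j = 10 ∧ n = 3 ∧ p = 4 ∧ q = 14) ∨ (j = 10 ∧ n = 3 ∧ p = 6 ∧ q = 10)) ∨ (j = 10 ∧ n = 3 ∧ p = 6 ∧ q = 12)) ∨ ((j = 10 ∧ n = 3 ∧ p = 6 ∧ q = 14) ∨ (j = 12 ∧ n = 3 ∧ p = 1 ∧ q = 5))) ∨ (((j = 12 ∧ n = 3 ∧ p = 3 ∧ q = 3) ∨ (j = 12 ∧ n = 3 ∧ p = 3 ∧ q = 5)) ∨ ((j = 12 ∧ n = 5 ∧ p = 6 ∧ q = 12) ∨ (j = 12 ∧ n = 5 ∧ p = 6 ∧ q = 14))))))) →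
      f (a0 + j) (b0 + n) (x0 + p) (y0 + q))
    (h0 : ∀ j n p q : ℕ, InR 12 7 8 16 1 j n p q →
      ((((((((j = 1 ∨ (j = 2 ∧ n = 2 ∧ p = 1 ∧ q = 6)) ∨ (j = 2 ∧ n = 2 ∧ p = 2 ∧ q = 3)) ∨ (((j = 2 ∧ n = 2 ∧ p = 2 ∧ q = 4) ∨ (j = 2 ∧ n = 2 ∧ p = 2 ∧ q = 5)) ∨ (j = 2 ∧ n = 2 ∧ p = 2 ∧ q = 6))) ∨ ((((j = 2 ∧ n = 2 ∧ p = 3 ∧ q = 5) ∨ (j = 2 ∧ n = 2 ∧ p = 3 ∧ q = 6)) ∨ (j = 2 ∧ n = 2 ∧ p = 3 ∧ q = 7)) ∨ (((j = 2 ∧ n = 2 ∧ p = 3 ∧ q = 8) ∨ (j = 2 ∧ n = 2 ∧ p = 4 ∧ q = 5)) ∨ (j = 2 ∧ n = 2 ∧ p = 4 ∧ q = 6)))) ∨ (((((j = 2 ∧ n = 2 ∧ p = 4 ∧ q = 7) ∨ (j = 2 ∧ n = 2 ∧ p = 4 ∧ q = 8)) ∨ (j = 2 ∧ n = 3 ∧ p = 5 ∧ q = 3)) ∨ (((j = 2 ∧ n = 4 ∧ p = 3 ∧ q = 9) ∨ (j = 2 ∧ n = 4 ∧ p = 3 ∧ q = 10)) ∨ (j = 2 ∧ n = 4 ∧ p = 4 ∧ q = 10))) ∨ ((((j = 2 ∧ n = 4 ∧ p = 4 ∧ q = 11) ∨ (j = 2 ∧ n = 4 ∧ p = 5 ∧ q = 11)) ∨ (j = 3 ∧ n = 2 ∧ p = 2 ∧ q = 7)) ∨ ((j =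 3 ∧ n = 4 ∧ p = 4 ∧ q = 10) ∨ (j = 3 ∧ n = 4 ∧ p = 4 ∧ q = 11))))) ∨ ((((((j = 3 ∧ n = 4 ∧ p = 5 ∧ q = 11) ∨ (j = 4 ∧ n = 1 ∧ p = 2 ∧ q = 2)) ∨ (j = 4 ∧ n = 2 ∧ p = 2 ∧ q = 7)) ∨ (((j = 4 ∧ n = 2 ∧ p = 3 ∧ q = 7) ∨ (j = 4 ∧ n = 2 ∧ p = 3 ∧ q = 8)) ∨ (j = 4 ∧ n = 2 ∧ p = 4 ∧ q = 8))) ∨ ((((j = 4 ∧ n = 3 ∧ p = 3 ∧ q = 5) ∨ (j = 4 ∧ n = 3 ∧ p = 3 ∧ q = 7)) ∨ (j = 4 ∧ n = 3 ∧ p = 5 ∧ q = 4)) ∨ (((j = 4 ∧ n = 3 ∧ p = 5 ∧ q = 5) ∨ (j = 4 ∧ n = 3 ∧ p = 6 ∧ q = 4)) ∨ (j = 4 ∧ n = 4 ∧ p = 4 ∧ q = 10)))) ∨ (((((j = 4 ∧ n = 4 ∧ p = 4 ∧ q = 11) ∨ (j = 4 ∧ n = 4 ∧ p = 5 ∧ q = 11)) ∨ (j = 4 ∧ n = 4 ∧ p = 6 ∧ q = 7)) ∨ (((j = 4 ∧ n = 4 ∧ p = 6 ∧ q = 8) ∨ (j = 4 ∧ n = 4 ∧ p = 6 ∧ q = 9)) ∨ (j = 4 ∧ n = 4 ∧ p = 6 ∧ q = 11))) ∨ ((((j = 4 ∧ n = 5 ∧ p = 5 ∧ q = 11) ∨ (j = 5 ∧ n = 4 ∧ p = 5 ∧ q = 10)) ∨ (j = 5 ∧ n = 4 ∧ p = 5 ∧ q = 11)) ∨ ((j = 5 ∧ n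 = 4 ∧ p = 6 ∧ q = 11) ∨ (j = 5 ∧ n = 5 ∧ p = 6 ∧ q = 7)))))) ∨ (((((((j = 5 ∧ n = 5 ∧ p = 6 ∧ q = 9) ∨ (j = 5 ∧ n = 5 ∧ p = 6 ∧ q = 11)) ∨ (j = 6 ∧ n = 2 ∧ p = 1 ∧ q = 3)) ∨ (((j = 6 ∧ n = 2 ∧ p = 1 ∧ q = 4) ∨ (j = 6 ∧ n = 2 ∧ p = 2 ∧ q = 4)) ∨ (j = 6 ∧ n = 4 ∧ p = 5 ∧ q = 11))) ∨ ((((j = 6 ∧ n = 4 ∧ p = 5 ∧ q = 12) ∨ (j = 6 ∧ n = 4 ∧ p = 6 ∧ q = 11)) ∨ (j = 6 ∧ n = 4 ∧ p = 6 ∧ q = 12)) ∨ (((j = 7 ∧ n = 2 ∧ p = 1 ∧ q = 4) ∨ (j = 7 ∧ n = 4 ∧ p = 5 ∧ q = 11)) ∨ (j = 7 ∧ n = 4 ∧ p = 5 ∧ q = 12)))) ∨ (((((j = 7 ∧ n = 4 ∧ p = 6 ∧ q = 11) ∨ (j = 7 ∧ n = 4 ∧ p = 6 ∧ q = 12)) ∨ (j = 7 ∧ n = 5 ∧ p = 6 ∧ q = 11)) ∨ (((j = 7 ∧ n = 5 ∧ p = 6 ∧ q = 12) ∨ (j = 8 ∧ n = 2 ∧ p = 1 ∧ q = 4)) ∨ (j = 8 ∧ n = 2 ∧ p = 1 ∧ q = 5))) ∨ ((((j = 8 ∧ n = 2 ∧ p = 2 ∧ q = 4) ∨ (j = 8 ∧ n = 4 ∧ p = 5 ∧ q = 11)) ∨ (j = 8 ∧ n = 4 ∧ p = 5 ∧ q = 12)) ∨ ((j = 8 ∧ n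 = 4 ∧ p = 5 ∧ q = 13) ∨ (j = 8 ∧ n = 4 ∧ p = 6 ∧ q = 11))))) ∨ ((((((j = 8 ∧ n = 4 ∧ p = 6 ∧ q = 12) ∨ (j = 8 ∧ n = 4 ∧ p = 6 ∧ q = 13)) ∨ (j = 9 ∧ n = 4 ∧ p = 5 ∧ q = 11)) ∨ (((j = 9 ∧ n = 4 ∧ p = 5 ∧ q = 12) ∨ (j = 9 ∧ n = 4 ∧ p = 6 ∧ q = 11)) ∨ (j = 9 ∧ n = 4 ∧ p = 6 ∧ q = 12))) ∨ ((((j = 9 ∧ n = 4 ∧ p = 6 ∧ q = 13) ∨ (j = 9 ∧ n = 5 ∧ p = 6 ∧ q = 11)) ∨ (j = 9 ∧ n = 5 ∧ p = 6 ∧ q = 12)) ∨ (((j = 9 ∧ n = 5 ∧ p = 6 ∧ q = 13) ∨ (j = 10 ∧ n = 2 ∧ p = 1 ∧ q = 4)) ∨ (j = 10 ∧ n = 2 ∧ p = 2 ∧ q = 3)))) ∨ (((((j = 10 ∧ n = 2 ∧ p = 2 ∧ q = 4) ∨ (j = 10 ∧ n = 2 ∧ p = 3 ∧ q = 3)) ∨ (j = 10 ∧ n = 2 ∧ p = 3 ∧ q = 4)) ∨ (((j = 10 ∧ n = 3 ∧ p = 1 ∧ q = 5) ∨ (j = 10 ∧ n = 4 ∧ p = 5 ∧ q = 11)) ∨ (j = 10 ∧ n = 4 ∧ p = 5 ∧ q = 12))) ∨ ((((j = 10 ∧ n = 4 ∧ p = 5 ∧ q = 13) ∨ (j = 10 ∧ n = 4 ∧ p = 6 ∧ q = 11)) ∨ (j = 10 ∧ n = 4 ∧ p = 6 ∧ q = 12)) ∨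 ((j = 10 ∧ n = 4 ∧ p = 6 ∧ q = 13) ∨ (j = 10 ∧ n = 4 ∧ p = 6 ∧ q = 14)))))))) →
      ¬ f (a0 + j) (b0 + n) (x0 + p) (y0 + q)) : False :=
  check_sound hf w1_wall_cert_chk
    ⟨fun h => absurd h (by decide), fun h => absurd h (by decide),
      fun h => absurd h (by decide), ha, hb, hx, hy⟩
    (fun j n p q hr h => h1 j n p q hr (of_decide_eq_true h))
    (fun j n p q hr h => h0 j n p q hr (of_decide_eq_true h))

end Pool.Agent.SNT.Loc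

namespace Pool.Agent.SNT.D1W

open Pool.Agent.SNT Pool.Agent.SNT.Sig Pool.Agent.SNT.ZoneT Pool.Agent.SNT.ZoneI Pool.Agent.SNT.LW Pool.Agent.SNT.NHZ

variable {f : ℕ → ℕ → ℕ → ℕ → Prop} {k b m : ℕ}

/-- (W1): the wall cells `d = 2 k - 1, 2 k - 3, 2 k - 5` of the in-line `x = 2 M + 1` of the layer `6 k + 2` are missing
in the row `b + 18` => the beam of the column `M + 1` in the row `b + 20` at `d = 2 k - 5`, or one of the cells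
`(2 M + 4, d = 2 k - 2)`, `(2 M + 4, d = 2 k)` of the layer `6 k + 3`. -/
theorem wall1 (hf : Rule f) (hs : Side k b m) (S : Stack6 f k b m 0 0 0 0 0 1) {n M : ℕ}
    (hn : n = m + 9 + (k + 2) * 4) (h1 : n ≤ M + 4)
    (d0 : Cyc f (6 * k) (b + 16) (2 * (M - 2) + 2)) (d2 : Cyc f (6 * k + 2) (b + 18) (2 * M + 2))
    (hl : ∀ y : ℕ, y % 2 = 0 → 2 * M + 2 ≤ y + 2 * k → y + 2 * k ≤ 2 * M + 6 →
      ¬ f (6 * k + 2) (b + 18) (2 * M + 1) y) :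
    f (6 * k + 2) (b + 20) (2 * M + 3) (2 * M + 8 - 2 * k) ∨
      f (6 * k + 3) (b + 20) (2 * M + 4) (2 * M + 6 - 2 * k) ∨
      f (6 * k + 3) (b + 20) (2 * M + 4) (2 * M + 4 - 2 * k) := by
  by_contra hc
  have g1 : ¬ f (6 * k + 2) (b + 20) (2 * M + 3) (2 * M + 8 - 2 * k) := fun h => hc (Or.inl h)
  have g2 : ¬ f (6 * k + 3) (b + 20) (2 * M + 4) (2 * M + 6 - 2 * k) := fun h => hc (Or.inr (Or.inl h))
  have g3 : ¬ f (6 * k + 3) (b + 20) (2 * M + 4) (2 * M + 4 - 2 * k) := fun h => hc (Or.inr (Or.inr h))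
  clear hc
  have Z := NHT.of_stack hs S
  have U := NHU.of_stack hs S
  obtain ⟨hk, hb, h4, hb2, hm⟩ := hs
  have hlw : ∀ L R x y : ℕ, L + 1 = 6 * k → b ≤ R → R ≤ b + 40 → 2 * m ≤ x → y ≤ x →
      x ≤ y + 3 * k → ¬ f L R x y := by
    intro L R x y hM h2 h3 h4' h5 h6 h
    have e : L = 6 * k - 1 := by omega
    have e2 : R = b + (R - b) := by omega
    rw [e, e2] at h
    have h7 := (S.lw (R - b) (by omega) x y (by rw [max_eq_left h5]; omega)).1 h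
    exact Fst_near_odd (by omega) (by rw [max_eq_left h5, min_eq_right h5]; omega) h7
  have y0_6 : Lay (6 * k) (b + 16) k := ⟨by omega, by omega, by omega, by omega⟩
  have y10_1 : Lay (6 * k + 10) (b + 6 + 4 * 3) (k + 1) := ⟨by omega, by omega, by omega, by omega⟩
  have y2_2 : Lay (6 * k + 2) (b + 2 + 4 * 3) k := ⟨by omega, by omega, by omega, by omega⟩
  have y2_5 : Lay (6 * k + 2) (b + 18) k := ⟨by omega, by omega, by omega, by omega⟩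
  have y4_2 : Lay (6 * k + 4) (b + 4 * 4) k := ⟨by omega, by omega, by omega, by omega⟩
  have y6_1 : Lay (6 * k + 6) (b + 2 + 4 * 3) (k + 1) := ⟨by omega, by omega, by omega, by omega⟩
  have y6_2 : Lay (6 * k + 6) (b + 2 + 4 * 4) (k + 1) := ⟨by omega, by omega, by omega, by omega⟩
  have y8_1 : Lay (6 * k + 8) (b + 4 + 4 * 3) (k + 1) := ⟨by omega, by omega, by omega, by omega⟩
  obtain ⟨M1, rfl⟩ : ∃ M1, M = M1 + 2 := ⟨M - 2, by omega⟩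
  rw [show M1 + 2 - 2 = M1 from rfl] at d0
  obtain ⟨x0, ex⟩ : ∃ x0, x0 + 2 = 2 * (M1 + 2) := ⟨2 * (M1 + 2) - 2, by omega⟩
  obtain ⟨y0, ey⟩ : ∃ y0, y0 + 3 + 2 * k = 2 * (M1 + 2) := ⟨2 * (M1 + 2) - (2 * k + 3), by omega⟩
  obtain ⟨a0, ea⟩ : ∃ a0, a0 + 2 = 6 * k := ⟨6 * k - 2, by omega⟩
  refine Loc.w1_wall_cert hf (a0 := a0) (b0 := b + 15) (x0 := x0) (y0 := y0) (by omega) (by omega)
    (by omega) (by omega) ?_ ?_
  · intro j n p q _ hx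
    rcases hx with ((((((⟨rfl, rfl, rfl, rfl⟩ | ⟨rfl, rfl, rfl, rfl⟩) | ⟨rfl, rfl, rfl, rfl⟩) | (⟨rfl, rfl, rfl, rfl⟩ | ⟨rfl, rfl, rfl, rfl⟩)) | (((⟨rfl, rfl, rfl, rfl⟩ | 
      ⟨rfl, rfl, rfl, rfl⟩) | ⟨rfl, rfl, rfl, rfl⟩) | (⟨rfl, rfl, rfl, rfl⟩ | ⟨rfl, rfl, rfl, rfl⟩))) | ((((⟨rfl, rfl, rfl, rfl⟩ | ⟨rfl, rfl, rfl, rfl⟩) | 
      ⟨rfl, rfl, rfl, rfl⟩) | (⟨rfl, rfl, rfl, rfl⟩ | ⟨rfl, rfl, rfl, rfl⟩)) | ((⟨rfl, rfl, rfl, rfl⟩ | ⟨rfl, rfl, rfl, rfl⟩) | (⟨rfl, rfl, rfl, rfl⟩ | 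
      ⟨rfl, rfl, rfl, rfl⟩)))) | (((((⟨rfl, rfl, rfl, rfl⟩ | ⟨rfl, rfl, rfl, rfl⟩) | ⟨rfl, rfl, rfl, rfl⟩) | (⟨rfl, rfl, rfl, rfl⟩ | ⟨rfl, rfl, rfl, rfl⟩)) | 
      ((⟨rfl, rfl, rfl, rfl⟩ | ⟨rfl, rfl, rfl, rfl⟩) | (⟨rfl, rfl, rfl, rfl⟩ | ⟨rfl, rfl, rfl, rfl⟩))) | ((((⟨rfl, rfl, rfl, rfl⟩ | ⟨rfl, rfl, rfl, rfl⟩) | 
      ⟨rfl, rfl, rfl, rfl⟩) | (⟨rfl, rfl, rfl, rfl⟩ | ⟨rfl, rfl, rfl, rfl⟩)) | ((⟨rfl, rfl, rfl, rfl⟩ | ⟨rfl, rfl, rfl, rfl⟩) | (⟨rfl, rfl, rfl, rfl⟩ | 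
      ⟨rfl, rfl, rfl, rfl⟩)))))
    · exact (v0 y0_6 d0 (by omega) (by omega) (by omega) (by omega) (by omega)).2 (by unfold V0; omega)
    · exact (v0 y0_6 d0 (by omega) (by omega) (by omega) (by omega) (by omega)).2 (by unfold V0; omega)
    · exact (v0 y0_6 d0 (by omega) (by omega) (by omega) (by omega) (by omega)).2 (by unfold V0; omega)
    · exact (v0 y0_6 d0 (by omega) (by omega) (by omega) (by omega) (by omega)).2 (by unfold V0; omega)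
    · exact (v0 y0_6 d0 (by omega) (by omega) (by omega) (by omega) (by omega)).2 (by unfold V0; omega)
    · exact (v1 y0_6 d0 (by omega) (by omega) (by omega) (by omega) (by omega)).2 (by unfold V1; omega)
    · exact (v1 y0_6 d0 (by omega) (by omega) (by omega) (by omega) (by omega)).2 (by unfold V1; omega)
    · exact (v1 y0_6 d0 (by omega) (by omega) (by omega) (by omega) (by omega)).2 (by unfold V1; omega)
    · exact (v1 y0_6 d0 (by omega) (by omega) (by omega) (by omega) (by omega)).2 (by unfold V1; omega)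
    · exact (v2x y0_6 d0 (by omega) (by omega) (by omega) (by omega) (by omega) (by omega)).2 (by unfold V2; omega)
    · exact (v2x y0_6 d0 (by omega) (by omega) (by omega) (by omega) (by omega) (by omega)).2 (by unfold V2; omega)
    · exact (v2x y2_2 (S.l2 3) (by omega) (by omega) (by omega) (by omega) (by omega) (by omega)).2 (by unfold V2; omega)
    · exact (v2x y2_2 (S.l2 3) (by omega) (by omega) (by omega) (by omega) (by omega) (by omega)).2 (by unfold V2; omega)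
    · exact (v2x y2_2 (S.l2 3) (by omega) (by omega) (by omega) (by omega) (by omega) (by omega)).2 (by unfold V2; omega)
    · exact (v0 y2_5 d2 (by omega) (by omega) (by omega) (by omega) (by omega)).2 (by unfold V0; omega)
    · exact (v0 y2_5 d2 (by omega) (by omega) (by omega) (by omega) (by omega)).2 (by unfold V0; omega)
    · exact (v0 y2_5 d2 (by omega) (by omega) (by omega) (by omega) (by omega)).2 (by unfold V0; omega)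
    · exact (v0 y2_5 d2 (by omega) (by omega) (by omega) (by omega) (by omega)).2 (by unfold V0; omega)
    · exact (v1 y4_2 (S.l4 4) (by omega) (by omega) (by omega) (by omega) (by omega)).2 (by unfold V1; omega)
    · exact (v1 y4_2 (S.l4 4) (by omega) (by omega) (by omega) (by omega) (by omega)).2 (by unfold V1; omega)
    · exact (v2x y4_2 (S.l4 4) (by omega) (by omega) (by omega) (by omega) (by omega) (by omega)).2 (by unfold V2; omega)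
    · exact (v2s y6_1 (S.l6 3) (by omega) (by omega) (by omega) (by omega) (by omega) (by omega)).2 (by unfold V2; omega)
    · exact (v0 y6_2 (S.l6 4) (by omega) (by omega) (by omega) (by omega) (by omega)).2 (by unfold V0; omega)
    · exact (w0 y8_1 (S.l8 3) (by omega) (by omega) (by omega) (by omega) (by omega) (by omega)).2 (by unfold V0; omega)
    · exact (w0 y8_1 (S.l8 3) (by omega) (by omega) (by omega) (by omega) (by omega) (by omega)).2 (by unfold V0; omega)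
    · exact (w0 y8_1 (S.l8 3) (by omega) (by omega) (by omega) (by omega) (by omega) (by omega)).2 (by unfold V0; omega)
    · exact (w1 y8_1 (S.l8 3) (by omega) (by omega) (by omega) (by omega) (by omega) (by omega)).2 (by unfold V1; omega)
    · exact (w2s y8_1 (S.l8 3) (by omega) (by omega) (by omega) (by omega) (by omega) (by omega)).2 (by unfold V2; omega)
    · exact (w2s y8_1 (S.l8 3) (by omega) (by omega) (by omega) (by omega) (by omega) (by omega)).2 (by unfold V2; omega)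
    · exact (w2s y8_1 (S.l8 3) (by omega) (by omega) (by omega) (by omega) (by omega) (by omega)).2 (by unfold V2; omega)
    · exact (w2s y8_1 (S.l8 3) (by omega) (by omega) (by omega) (by omega) (by omega) (by omega)).2 (by unfold V2; omega)
    · exact (w2s y8_1 (S.l8 3) (by omega) (by omega) (by omega) (by omega) (by omega) (by omega)).2 (by unfold V2; omega)
    · exact (w0 y10_1 (S.l10 3) (by omega) (by omega) (by omega) (by omega) (by omega) (by omega)).2 (by unfold V0; omega)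
    · exact (w0 y10_1 (S.l10 3) (by omega) (by omega) (by omega) (by omega) (by omega) (by omega)).2 (by unfold V0; omega)
    · exact (w0 y10_1 (S.l10 3) (by omega) (by omega) (by omega) (by omega) (by omega) (by omega)).2 (by unfold V0; omega)
    · exact (w2s y10_1 (S.l10 3) (by omega) (by omega) (by omega) (by omega) (by omega) (by omega)).2 (by unfold V2; omega)
    · exact (w2s y10_1 (S.l10 3) (by omega) (by omega) (by omega) (by omega) (by omega) (by omega)).2 (by unfold V2; omega)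
  · intro j n p q hr hx
    rcases hx with (((((((rfl | ⟨rfl, rfl, rfl, rfl⟩) | ⟨rfl, rfl, rfl, rfl⟩) | ((⟨rfl, rfl, rfl, rfl⟩ | ⟨rfl, rfl, rfl, rfl⟩) | ⟨rfl, rfl, rfl, rfl⟩)) | 
      (((⟨rfl, rfl, rfl, rfl⟩ | ⟨rfl, rfl, rfl, rfl⟩) | ⟨rfl, rfl, rfl, rfl⟩) | ((⟨rfl, rfl, rfl, rfl⟩ | ⟨rfl, rfl, rfl, rfl⟩) | ⟨rfl, rfl, rfl, rfl⟩))) | 
      ((((⟨rfl, rfl, rfl, rfl⟩ | ⟨rfl, rfl, rfl, rfl⟩) | ⟨rfl, rfl, rfl, rfl⟩) | ((⟨rfl, rfl, rfl, rfl⟩ | ⟨rfl, rfl, rfl, rfl⟩) | ⟨rfl, rfl, rfl, rfl⟩)) | 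
      (((⟨rfl, rfl, rfl, rfl⟩ | ⟨rfl, rfl, rfl, rfl⟩) | ⟨rfl, rfl, rfl, rfl⟩) | (⟨rfl, rfl, rfl, rfl⟩ | ⟨rfl, rfl, rfl, rfl⟩)))) | (((((⟨rfl, rfl, rfl, rfl⟩ | 
      ⟨rfl, rfl, rfl, rfl⟩) | ⟨rfl, rfl, rfl, rfl⟩) | ((⟨rfl, rfl, rfl, rfl⟩ | ⟨rfl, rfl, rfl, rfl⟩) | ⟨rfl, rfl, rfl, rfl⟩)) | (((⟨rfl, rfl, rfl, rfl⟩ | 
      ⟨rfl, rfl, rfl, rfl⟩) | ⟨rfl, rfl, rfl, rfl⟩) | ((⟨rfl, rfl, rfl, rfl⟩ | ⟨rfl, rfl, rfl, rfl⟩) | ⟨rfl, rfl, rfl, rfl⟩))) | ((((⟨rfl, rfl, rfl, rfl⟩ | 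
      ⟨rfl, rfl, rfl, rfl⟩) | ⟨rfl, rfl, rfl, rfl⟩) | ((⟨rfl, rfl, rfl, rfl⟩ | ⟨rfl, rfl, rfl, rfl⟩) | ⟨rfl, rfl, rfl, rfl⟩)) | (((⟨rfl, rfl, rfl, rfl⟩ | 
      ⟨rfl, rfl, rfl, rfl⟩) | ⟨rfl, rfl, rfl, rfl⟩) | (⟨rfl, rfl, rfl, rfl⟩ | ⟨rfl, rfl, rfl, rfl⟩))))) | ((((((⟨rfl, rfl, rfl, rfl⟩ | ⟨rfl, rfl, rfl, rfl⟩) | 
      ⟨rfl, rfl, rfl, rfl⟩) | ((⟨rfl, rfl, rfl, rfl⟩ | ⟨rfl, rfl, rfl, rfl⟩) | ⟨rfl, rfl, rfl, rfl⟩)) | (((⟨rfl, rfl, rfl, rfl⟩ | ⟨rfl, rfl, rfl, rfl⟩) | 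
      ⟨rfl, rfl, rfl, rfl⟩) | ((⟨rfl, rfl, rfl, rfl⟩ | ⟨rfl, rfl, rfl, rfl⟩) | ⟨rfl, rfl, rfl, rfl⟩))) | ((((⟨rfl, rfl, rfl, rfl⟩ | ⟨rfl, rfl, rfl, rfl⟩) | 
      ⟨rfl, rfl, rfl, rfl⟩) | ((⟨rfl, rfl, rfl, rfl⟩ | ⟨rfl, rfl, rfl, rfl⟩) | ⟨rfl, rfl, rfl, rfl⟩)) | (((⟨rfl, rfl, rfl, rfl⟩ | ⟨rfl, rfl, rfl, rfl⟩) | 
      ⟨rfl, rfl, rfl, rfl⟩) | (⟨rfl, rfl, rfl, rfl⟩ | ⟨rfl, rfl, rfl, rfl⟩)))) | (((((⟨rfl, rfl, rfl, rfl⟩ | ⟨rfl, rfl, rfl, rfl⟩) | ⟨rfl, rfl, rfl, rfl⟩) | 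
      ((⟨rfl, rfl, rfl, rfl⟩ | ⟨rfl, rfl, rfl, rfl⟩) | ⟨rfl, rfl, rfl, rfl⟩)) | (((⟨rfl, rfl, rfl, rfl⟩ | ⟨rfl, rfl, rfl, rfl⟩) | ⟨rfl, rfl, rfl, rfl⟩) | 
      ((⟨rfl, rfl, rfl, rfl⟩ | ⟨rfl, rfl, rfl, rfl⟩) | ⟨rfl, rfl, rfl, rfl⟩))) | ((((⟨rfl, rfl, rfl, rfl⟩ | ⟨rfl, rfl, rfl, rfl⟩) | ⟨rfl, rfl, rfl, rfl⟩) | 
      ((⟨rfl, rfl, rfl, rfl⟩ | ⟨rfl, rfl, rfl, rfl⟩) | ⟨rfl, rfl, rfl, rfl⟩)) | (((⟨rfl, rfl, rfl, rfl⟩ | ⟨rfl, rfl, rfl, rfl⟩) | ⟨rfl, rfl, rfl, rfl⟩) | 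
      (⟨rfl, rfl, rfl, rfl⟩ | ⟨rfl, rfl, rfl, rfl⟩))))))
    · obtain ⟨r1, r2, r3, r4, r5, r6, r7, r8⟩ := hr
      exact hlw _ _ _ _ (by omega) (by omega) (by omega) (by omega) (by omega) (by omega)
    · exact Z.rIn hf (t := 2) (p := 0) (j := 2) (by omega) (by omega) (by omega) (by omega) (by omega) (by omega) (by omega) (by omega)
    · exact fun t => absurd ((v1s y0_6 d0 (by omega) (by omega) (by omega) (by omega) (by omega) (by omega)).1 t) (by unfold V1; omega)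
    · exact fun t => absurd ((v1s y0_6 d0 (by omega) (by omega) (by omega) (by omega) (by omega) (by omega)).1 t) (by unfold V1; omega)
    · exact fun t => absurd ((v1s y0_6 d0 (by omega) (by omega) (by omega) (by omega) (by omega) (by omega)).1 t) (by unfold V1; omega)
    · exact fun t => absurd ((v1s y0_6 d0 (by omega) (by omega) (by omega) (by omega) (by omega) (by omega)).1 t) (by unfold V1; omega)
    · exact fun t => absurd ((v1 y0_6 d0 (by omega) (by omega) (by omega) (by omega) (by omega)).1 t) (by unfold V1; omega)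
    · exact fun t => absurd ((v1 y0_6 d0 (by omega) (by omega) (by omega) (by omega) (by omega)).1 t) (by unfold V1; omega)
    · exact fun t => absurd ((v1 y0_6 d0 (by omega) (by omega) (by omega) (by omega) (by omega)).1 t) (by unfold V1; omega)
    · exact fun t => absurd ((v1 y0_6 d0 (by omega) (by omega) (by omega) (by omega) (by omega)).1 t) (by unfold V1; omega)
    · exact fun t => absurd ((v1 y0_6 d0 (by omega) (by omega) (by omega) (by omega) (by omega)).1 t) (by unfold V1; omega)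
    · exact fun t => absurd ((v1 y0_6 d0 (by omega) (by omega) (by omega) (by omega) (by omega)).1 t) (by unfold V1; omega)
    · exact fun t => absurd ((v1 y0_6 d0 (by omega) (by omega) (by omega) (by omega) (by omega)).1 t) (by unfold V1; omega)
    · exact fun t => absurd ((v1 y0_6 d0 (by omega) (by omega) (by omega) (by omega) (by omega)).1 t) (by unfold V1; omega)
    · exact fun t => absurd ((v2x y0_6 d0 (by omega) (by omega) (by omega) (by omega) (by omega) (by omega)).1 t) (by unfold V2; omega)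
    · exact Z.rIn hf (t := 3) (p := 0) (j := 3) (by omega) (by omega) (by omega) (by omega) (by omega) (by omega) (by omega) (by omega)
    · exact Z.rIn hf (t := 3) (p := 0) (j := 3) (by omega) (by omega) (by omega) (by omega) (by omega) (by omega) (by omega) (by omega)
    · exact Z.rIn hf (t := 3) (p := 0) (j := 3) (by omega) (by omega) (by omega) (by omega) (by omega) (by omega) (by omega) (by omega)
    · exact Z.rIn hf (t := 3) (p := 0) (j := 3) (by omega) (by omega) (by omega) (by omega) (by omega) (by omega) (by omega) (by omega)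
    · exact Z.rIn hf (t := 3) (p := 0) (j := 3) (by omega) (by omega) (by omega) (by omega) (by omega) (by omega) (by omega) (by omega)
    · exact Z.pIn hf (t := 3) (j := 2) (by omega) (by omega) (by omega) (by omega) (by omega) (by omega) (by omega)
    · exact Z.rIn hf (t := 3) (p := 1) (j := 3) (by omega) (by omega) (by omega) (by omega) (by omega) (by omega) (by omega) (by omega)
    · exact Z.rIn hf (t := 3) (p := 1) (j := 3) (by omega) (by omega) (by omega) (by omega) (by omega) (by omega) (by omega) (by omega)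
    · exact Z.rIn hf (t := 3) (p := 1) (j := 3) (by omega) (by omega) (by omega) (by omega) (by omega) (by omega) (by omega) (by omega)
    · exact fun t => absurd ((v2x y2_2 (S.l2 3) (by omega) (by omega) (by omega) (by omega) (by omega) (by omega)).1 t) (by unfold V2; omega)
    · exact Z.rIn hf (t := 2) (p := 0) (j := 1) (by omega) (by omega) (by omega) (by omega) (by omega) (by omega) (by omega) (by omega)
    · exact Z.rIn hf (t := 2) (p := 0) (j := 1) (by omega) (by omega) (by omega) (by omega) (by omega) (by omega) (by omega) (by omega)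
    · exact Z.rIn hf (t := 2) (p := 0) (j := 1) (by omega) (by omega) (by omega) (by omega) (by omega) (by omega) (by omega) (by omega)
    · exact Z.rIn hf (t := 2) (p := 0) (j := 1) (by omega) (by omega) (by omega) (by omega) (by omega) (by omega) (by omega) (by omega)
    · exact fun t => hl _ (by omega) (by omega) (by omega) (mv t (by omega) (by omega) (by omega) rfl)
    · exact fun t => hl _ (by omega) (by omega) (by omega) (mv t (by omega) (by omega) (by omega) rfl)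
    · exact fun t => absurd ((v0 y2_5 d2 (by omega) (by omega) (by omega) (by omega) (by omega)).1 t) (by unfold V0; omega)
    · exact fun t => absurd ((v0 y2_5 d2 (by omega) (by omega) (by omega) (by omega) (by omega)).1 t) (by unfold V0; omega)
    · exact fun t => absurd ((v0 y2_5 d2 (by omega) (by omega) (by omega) (by omega) (by omega)).1 t) (by unfold V0; omega)
    · exact Z.rIn hf (t := 3) (p := 0) (j := 2) (by omega) (by omega) (by omega) (by omega) (by omega) (by omega) (by omega) (by omega)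
    · exact Z.rIn hf (t := 3) (p := 0) (j := 2) (by omega) (by omega) (by omega) (by omega) (by omega) (by omega) (by omega) (by omega)
    · exact Z.rIn hf (t := 3) (p := 0) (j := 2) (by omega) (by omega) (by omega) (by omega) (by omega) (by omega) (by omega) (by omega)
    · exact fun t => absurd ((v1s y2_5 d2 (by omega) (by omega) (by omega) (by omega) (by omega) (by omega)).1 t) (by unfold V1; omega)
    · exact fun t => absurd ((v1s y2_5 d2 (by omega) (by omega) (by omega) (by omega) (by omega) (by omega)).1 t) (by unfold V1; omega)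
    · exact fun t => absurd ((v1s y2_5 d2 (by omega) (by omega) (by omega) (by omega) (by omega) (by omega)).1 t) (by unfold V1; omega)
    · exact fun t => absurd ((v1s y2_5 d2 (by omega) (by omega) (by omega) (by omega) (by omega) (by omega)).1 t) (by unfold V1; omega)
    · exact fun t => g1 (mv t (by omega) (by omega) (by omega) (by omega))
    · exact Z.rIn hf (t := 3) (p := 1) (j := 2) (by omega) (by omega) (by omega) (by omega) (by omega) (by omega) (by omega) (by omega)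
    · exact Z.rIn hf (t := 3) (p := 1) (j := 2) (by omega) (by omega) (by omega) (by omega) (by omega) (by omega) (by omega) (by omega)
    · exact Z.pmi hf (j := 2) (by omega) (by omega) (by omega) (by omega) (by omega) (by omega)
    · exact fun t => g3 (mv t (by omega) (by omega) (by omega) (by omega))
    · exact fun t => g2 (mv t (by omega) (by omega) (by omega) (by omega))
    · exact Z.pmi hf (j := 2) (by omega) (by omega) (by omega) (by omega) (by omega) (by omega)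
    · exact fun t => absurd ((v1 y4_2 (S.l4 4) (by omega) (by omega) (by omega) (by omega) (by omega)).1 t) (by unfold V1; omega)
    · exact fun t => absurd ((v1 y4_2 (S.l4 4) (by omega) (by omega) (by omega) (by omega) (by omega)).1 t) (by unfold V1; omega)
    · exact fun t => absurd ((v1 y4_2 (S.l4 4) (by omega) (by omega) (by omega) (by omega) (by omega)).1 t) (by unfold V1; omega)
    · exact Z.rIn hf (t := 3) (p := 0) (j := 1) (by omega) (by omega) (by omega) (by omega) (by omega) (by omega) (by omega) (by omega)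
    · exact Z.rIn hf (t := 3) (p := 0) (j := 1) (by omega) (by omega) (by omega) (by omega) (by omega) (by omega) (by omega) (by omega)
    · exact Z.rIn hf (t := 3) (p := 0) (j := 1) (by omega) (by omega) (by omega) (by omega) (by omega) (by omega) (by omega) (by omega)
    · exact Z.rIn hf (t := 3) (p := 0) (j := 1) (by omega) (by omega) (by omega) (by omega) (by omega) (by omega) (by omega) (by omega)
    · exact Z.rIn hf (t := 2) (p := 1) (j := 0) (by omega) (by omega) (by omega) (by omega) (by omega) (by omega) (by omega) (by omega)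
    · exact Z.rIn hf (t := 3) (p := 1) (j := 1) (by omega) (by omega) (by omega) (by omega) (by omega) (by omega) (by omega) (by omega)
    · exact Z.rIn hf (t := 3) (p := 1) (j := 1) (by omega) (by omega) (by omega) (by omega) (by omega) (by omega) (by omega) (by omega)
    · exact Z.pmi hf (j := 1) (by omega) (by omega) (by omega) (by omega) (by omega) (by omega)
    · exact Z.pmi hf (j := 1) (by omega) (by omega) (by omega) (by omega) (by omega) (by omega)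
    · exact Z.pmi hf (j := 1) (by omega) (by omega) (by omega) (by omega) (by omega) (by omega)
    · exact Z.pmi hf (j := 1) (by omega) (by omega) (by omega) (by omega) (by omega) (by omega)
    · exact fun t => absurd ((v3s y6_1 (S.l6 3) (by omega) (by omega) (by omega) (by omega) (by omega) (by omega)).1 t) (by unfold V3; omega)
    · exact fun t => absurd ((v3s y6_1 (S.l6 3) (by omega) (by omega) (by omega) (by omega) (by omega) (by omega)).1 t) (by unfold V3; omega)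
    · exact fun t => absurd ((v3s y6_1 (S.l6 3) (by omega) (by omega) (by omega) (by omega) (by omega) (by omega)).1 t) (by unfold V3; omega)
    · exact fun t => absurd ((v1 y6_2 (S.l6 4) (by omega) (by omega) (by omega) (by omega) (by omega)).1 t) (by unfold V1; omega)
    · exact fun t => absurd ((v1 y6_2 (S.l6 4) (by omega) (by omega) (by omega) (by omega) (by omega)).1 t) (by unfold V1; omega)
    · exact fun t => absurd ((v1 y6_2 (S.l6 4) (by omega) (by omega) (by omega) (by omega) (by omega)).1 t) (by unfold V1; omega)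
    · exact fun t => absurd ((v1 y6_2 (S.l6 4) (by omega) (by omega) (by omega) (by omega) (by omega)).1 t) (by unfold V1; omega)
    · exact fun t => absurd ((v1 y6_2 (S.l6 4) (by omega) (by omega) (by omega) (by omega) (by omega)).1 t) (by unfold V1; omega)
    · exact fun t => absurd ((v1 y6_2 (S.l6 4) (by omega) (by omega) (by omega) (by omega) (by omega)).1 t) (by unfold V1; omega)
    · exact Z.rIn hf (t := 3) (p := 1) (j := 0) (by omega) (by omega) (by omega) (by omega) (by omega) (by omega) (by omega) (by omega)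
    · exact Z.rIn hf (t := 3) (p := 1) (j := 0) (by omega) (by omega) (by omega) (by omega) (by omega) (by omega) (by omega) (by omega)
    · exact Z.pmi hf (j := 0) (by omega) (by omega) (by omega) (by omega) (by omega) (by omega)
    · exact Z.pmi hf (j := 0) (by omega) (by omega) (by omega) (by omega) (by omega) (by omega)
    · exact Z.pmi hf (j := 0) (by omega) (by omega) (by omega) (by omega) (by omega) (by omega)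
    · exact Z.pmi hf (j := 0) (by omega) (by omega) (by omega) (by omega) (by omega) (by omega)
    · exact Z.pmi hf (j := 0) (by omega) (by omega) (by omega) (by omega) (by omega) (by omega)
    · exact Z.pmi hf (j := 0) (by omega) (by omega) (by omega) (by omega) (by omega) (by omega)
    · exact fun t => absurd ((w1 y8_1 (S.l8 3) (by omega) (by omega) (by omega) (by omega) (by omega) (by omega)).1 t) (by unfold V1; omega)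
    · exact fun t => absurd ((w1 y8_1 (S.l8 3) (by omega) (by omega) (by omega) (by omega) (by omega) (by omega)).1 t) (by unfold V1; omega)
    · exact fun t => absurd ((w1 y8_1 (S.l8 3) (by omega) (by omega) (by omega) (by omega) (by omega) (by omega)).1 t) (by unfold V1; omega)
    · exact fun t => absurd ((w1 y8_1 (S.l8 3) (by omega) (by omega) (by omega) (by omega) (by omega) (by omega)).1 t) (by unfold V1; omega)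
    · exact fun t => absurd ((w1 y8_1 (S.l8 3) (by omega) (by omega) (by omega) (by omega) (by omega) (by omega)).1 t) (by unfold V1; omega)
    · exact fun t => absurd ((w2s y8_1 (S.l8 3) (by omega) (by omega) (by omega) (by omega) (by omega) (by omega)).1 t) (by unfold V2; omega)
    · exact fun t => absurd ((w3s y8_1 (S.l8 3) (by omega) (by omega) (by omega) (by omega) (by omega) (by omega)).1 t) (by unfold V3; omega)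
    · exact fun t => absurd ((w3s y8_1 (S.l8 3) (by omega) (by omega) (by omega) (by omega) (by omega) (by omega)).1 t) (by unfold V3; omega)
    · exact fun t => absurd ((w3s y8_1 (S.l8 3) (by omega) (by omega) (by omega) (by omega) (by omega) (by omega)).1 t) (by unfold V3; omega)
    · exact fun t => absurd ((w3s y8_1 (S.l8 3) (by omega) (by omega) (by omega) (by omega) (by omega) (by omega)).1 t) (by unfold V3; omega)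
    · exact fun t => absurd ((w3s y8_1 (S.l8 3) (by omega) (by omega) (by omega) (by omega) (by omega) (by omega)).1 t) (by unfold V3; omega)
    · exact fun t => absurd ((w3s y8_1 (S.l8 3) (by omega) (by omega) (by omega) (by omega) (by omega) (by omega)).1 t) (by unfold V3; omega)
    · exact fun t => absurd ((w3s y8_1 (S.l8 3) (by omega) (by omega) (by omega) (by omega) (by omega) (by omega)).1 t) (by unfold V3; omega)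

end Pool.Agent.SNT.D1W
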