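import Pool.Agent.SNT.PL

set_option autoImplicit false
set_option synthInstance.maxSize 100000
set_option synthInstance.maxHeartbeats 4000000

/-! Near-diagonal windows of the missing line `M` of `6 k + 2`. -/

namespace Pool.Agent.SNT.D1E

open Pool.Agent.SNT Pool.Agent.SNT.Sig Pool.Agent.SNT.Loc Pool.Agent.SNT.LW Pool.Agent.SNT.NHZ Pool.Agent.SNT.DRun
open Pool.Agent.SNT.PB

variable {f : ℕ → ℕ → ℕ → ℕ → Prop}

theorem dg5_chk : check 11 6 11 11 1 0 1 1 2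
    (fun j n p q => decide ((j = 1 ∧ n = 1 ∧ q ≤ p ∧ (p = q ∧ p % 2 = 1))
      ∨ (j = 1 ∧ n = 2 ∧ q ≤ p ∧ ((p + q) % 2 = 1 ∧ p % 2 = 1))
      ∨ (j = 1 ∧ n = 3 ∧ q ≤ p ∧ 3 ≤ q ∧ (p = q ∧ p % 2 = 0))
      ∨ (j = 3 ∧ n = 2 ∧ q ≤ p ∧ 6 ≤ p ∧ ((p + q) % 2 = 1 ∧ p % 2 = 0))
      ∨ (j = 5 ∧ n = 2 ∧ q ≤ p ∧ ((p + q) % 2 = 1 ∧ p % 2 = 1))
      ∨ (j = 5 ∧ n = 3 ∧ q ≤ p ∧ 3 ≤ q ∧ (p = q ∧ p % 2 = 0))
      ∨ (j = 7 ∧ n = 2 ∧ q ≤ p ∧ 4 ≤ p ∧ ((p + q) % 2 = 1 ∧ p % 2 = 0))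
      ∨ (j = 7 ∧ n = 3 ∧ q ≤ p ∧ 5 ≤ p ∧ (p = q ∧ p % 2 = 1))
      ∨ (j = 7 ∧ n = 4 ∧ q ≤ p ∧ 5 ≤ q ∧ ((p + q) % 2 = 1 ∧ p % 2 = 1))
      ∨ (j = 9 ∧ n = 4 ∧ q ≤ p ∧ 8 ≤ p ∧ ((p + q) % 2 = 1 ∧ p % 2 = 0))
      ∨ (j = 9 ∧ n = 2 ∧ q ≤ p ∧ ((p + q) % 2 = 1 ∧ p % 2 = 1))
      ∨ (j = 11 ∧ n = 4 ∧ q ≤ p ∧ ((p + q) % 2 = 1 ∧ p % 2 = 1))
      ∨ (j = 3 ∧ n = 1 ∧ q ≤ p ∧ (p = q ∧ p % 2 = 0))
      ∨ (j = 3 ∧ n = 2 ∧ p = 2 ∧ q = 1)
      ∨ (j = 3 ∧ n = 4 ∧ p = 6 ∧ q = 1)))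
    (fun j n p q => decide ((j = 4 ∧ n = 4 ∧ 7 ≤ p ∧ q + 3 ≤ p)
      ∨ (j = 4 ∧ n = 4 ∧ 5 ≤ q ∧ q + 2 ≤ p)
      ∨ (j = 3 ∧ n = 2 ∧ p = 4 ∧ q = 3)))
    92
    0x6bd03050f00050f0105468006b24a099c830b02000c735a0dd8000f495a099c830b02000c735a0dd8800dd8840b0d000c78ca099c830b07800b078406c08006b18e06b1840508800673c210b48010b3800de3800d59800b13800ac0800a93800a89800a888007e48007b88007b78007ad8007ac80053b8004d88004cd8004c58004c28004c08004958002388001f08001b98010b48f10b38f0de38f0dde070d598f0b138f0b08070ac08f0a938f0a898f0a888f08310707e48f07b88f07b78f07ad8f07ac8f06c70e06c70706c60e06c60705520705470705548e05548f04dd8e04dd8f04dc8e04dc8f04cd0704d18e04d18704cc0704c58f04db8e04db8f04c58e04c58f04958f02388f01f58e01f58f01b98f = true := by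
  decide +kernel

theorem dg5 (hf : Rule f) {k c n M : ℕ} (H : PL f k c n M)
    (h0 : f (6 * k + 2) (c - 4) (2 * M - 1) (2 * M - 2))
    (h1 : f (6 * k + 2) (c - 2) (2 * M + 3) (2 * M - 2))
    (z0 : ¬ f (6 * k + 2) (c - 4) (2 * M + 1) (2 * M)) : False := by
  have hk := H.T.hk
  have hc := H.T.hc
  have h4' := H.T.h4
  have hb := H.T.hb
  have hN := H.T.hN2
  have hM := H.hM
  obtain ⟨a0, ha0⟩ : ∃ z, z + 1 = 6 * k := ⟨6 * k - 1, by omega⟩
  obtain ⟨b0, hb0⟩ : ∃ z, z + 6 = c := ⟨c - 6, by omega⟩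
  obtain ⟨x0, hx0⟩ : ∃ z, z + 3 = 2 * M := ⟨2 * M - 3, by omega⟩
  refine check_sound hf (a0 := a0) (b0 := b0) (x0 := x0) (y0 := x0) dg5_chk
    ⟨fun _ => rfl, fun h => absurd h (by decide), fun h => absurd h (by decide), by omega, by omega,
      by omega, by omega⟩ ?_ ?_
  · intro j m p q hr h
    obtain ⟨-, -, -, -, hp1, hp2, hq1, hq2⟩ := hr
    replace h := of_decide_eq_true h
    rcases h with h | h | h | h | h | h | h | h | h | h | h | h | h | h | h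
    · obtain ⟨rfl, rfl, h⟩ := h
      exact (WrapC.v1 H.c0 (by omega) (by omega) (by omega) (by omega) (by omega) (by omega) (by omega) (by omega)).mpr (by omega)
    · obtain ⟨rfl, rfl, h⟩ := h
      exact (WrapC.v2 H.c0 (by omega) (by omega) (by omega) (by omega) (by omega) (by omega) (by omega)).mpr (by omega)
    · obtain ⟨rfl, rfl, h⟩ := h
      exact (WrapC.v3 H.c0 (by omega) (by omega) (by omega) (by omega) (by omega) (by omega) (by omega) (by omega)).mpr (by omega)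
    · obtain ⟨rfl, rfl, h⟩ := h
      exact (WrapC.v0 H.c2 (by omega) (by omega) (by omega) (by omega) (by omega) (by omega) (by omega)).mpr (by omega)
    · obtain ⟨rfl, rfl, h⟩ := h
      exact (WrapC.v2 H.c4a (by omega) (by omega) (by omega) (by omega) (by omega) (by omega) (by omega)).mpr (by omega)
    · obtain ⟨rfl, rfl, h⟩ := h
      exact (WrapC.v3 H.c4a (by omega) (by omega) (by omega) (by omega) (by omega) (by omega) (by omega) (by omega)).mpr (by omega)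
    · obtain ⟨rfl, rfl, h⟩ := h
      exact (WrapC.v0 H.c6 (by omega) (by omega) (by omega) (by omega) (by omega) (by omega) (by omega)).mpr (by omega)
    · obtain ⟨rfl, rfl, h⟩ := h
      exact (WrapC.v1 H.c6 (by omega) (by omega) (by omega) (by omega) (by omega) (by omega) (by omega) (by omega)).mpr (by omega)
    · obtain ⟨rfl, rfl, h⟩ := h
      exact (WrapC.v2 H.c6 (by omega) (by omega) (by omega) (by omega) (by omega) (by omega) (by omega)).mpr (by omega)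
    · obtain ⟨rfl, rfl, h⟩ := h
      exact (NW.w0v H.c8 (by omega) (by omega) (by omega) (by omega) (by omega) (by omega) (by omega)).mpr (by omega)
    · obtain ⟨rfl, rfl, h⟩ := h
      exact (NW.w2v H.c8a (by omega) (by omega) (by omega) (by omega) (by omega) (by omega) (by omega)).mpr (by omega)
    · obtain ⟨rfl, rfl, h⟩ := h
      exact (NW.w2v H.c10a (by omega) (by omega) (by omega) (by omega) (by omega) (by omega) (by omega)).mpr (by omega)
    · obtain ⟨rfl, rfl, h⟩ := h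
      exact (WrapC.v3 H.c2a (by omega) (by omega) (by omega) (by omega) (by omega) (by omega) (by omega) (by omega)).mpr (by omega)
    · obtain ⟨rfl, rfl, rfl, rfl⟩ := h
      exact mv h0 (by omega) (by omega) (by omega) (by omega)
    · obtain ⟨rfl, rfl, rfl, rfl⟩ := h
      exact mv h1 (by omega) (by omega) (by omega) (by omega)
  · intro j m p q hr h
    obtain ⟨-, -, -, -, hp1, hp2, hq1, hq2⟩ := hr
    replace h := of_decide_eq_true h
    rcases h with h | h | h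
    · obtain ⟨rfl, rfl, h⟩ := h
      exact NHT.pmi hf H.T (j := 2) (by omega) (by omega) (by omega) (by omega) (by omega) (by omega)
    · obtain ⟨rfl, rfl, h⟩ := h
      exact NHT.pm hf H.T (j := 1) (by omega) (by omega) (by omega) (by omega) (by omega) (by omega)
    · obtain ⟨rfl, rfl, rfl, rfl⟩ := h
      exact fun t => z0 (mv t (by omega) (by omega) (by omega) (by omega))

theorem runX_d3_chk : check 3 5 7 7 1 1 1 1 2
    (fun j n p q => decide ((j = 3 ∧ n = 3 ∧ q ≤ p ∧ ((p + q) % 2 = 1 ∧ p % 2 = 1))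
      ∨ (j = 1 ∧ n = 1 ∧ q ≤ p ∧ ((p + q) % 2 = 1 ∧ p % 2 = 1))
      ∨ (j = 1 ∧ n = 3 ∧ p = 4 ∧ q = 1)))
    (fun j n p q => decide ((j = 1 ∧ n = 3 ∧ p = 4 ∧ q = 3)))
    16
    0x14b8301c98000c980009c80009b8001cc8e01cc8f00d10700d38e00d38700d28e00d28f00a58e00a58f009e8e009e8f = true := by
  decide +kernel

theorem runX_d3 (hf : Rule f) {k c n M : ℕ} (H : PL f k c n M)
    (h0 : f (6 * k + 2) (c - 4) (2 * M + 1) (2 * M - 2))
    (z0 : ¬ f (6 * k + 2) (c - 4) (2 * M + 1) (2 * M)) : False := by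
  have hk := H.T.hk
  have hc := H.T.hc
  have h4' := H.T.h4
  have hb := H.T.hb
  have hN := H.T.hN2
  have hM := H.hM
  obtain ⟨a0, ha0⟩ : ∃ z, z = 6 * k + 1 := ⟨_, rfl⟩
  obtain ⟨b0, hb0⟩ : ∃ z, z + 7 = c := ⟨c - 7, by omega⟩
  obtain ⟨x0, hx0⟩ : ∃ z, z + 3 = 2 * M := ⟨2 * M - 3, by omega⟩
  refine check_sound hf (a0 := a0) (b0 := b0) (x0 := x0) (y0 := x0) runX_d3_chk
    ⟨fun _ => rfl, fun h => absurd h (by decide), fun h => absurd h (by decide), by omega, by omega,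
      by omega, by omega⟩ ?_ ?_
  · intro j m p q hr h
    obtain ⟨-, -, -, -, hp1, hp2, hq1, hq2⟩ := hr
    replace h := of_decide_eq_true h
    rcases h with h | h | h
    · obtain ⟨rfl, rfl, h⟩ := h
      exact (WrapC.v2 H.c4a (by omega) (by omega) (by omega) (by omega) (by omega) (by omega) (by omega)).mpr (by omega)
    · obtain ⟨rfl, rfl, h⟩ := h
      exact (WrapC.v2 H.c2a (by omega) (by omega) (by omega) (by omega) (by omega) (by omega) (by omega)).mpr (by omega)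
    · obtain ⟨rfl, rfl, rfl, rfl⟩ := h
      exact mv h0 (by omega) (by omega) (by omega) (by omega)
  · intro j m p q hr h
    obtain ⟨-, -, -, -, hp1, hp2, hq1, hq2⟩ := hr
    replace h := of_decide_eq_true h
    obtain ⟨rfl, rfl, rfl, rfl⟩ := h
    exact fun t => z0 (mv t (by omega) (by omega) (by omega) (by omega))

theorem runX2_d3_chk : check 3 5 7 7 1 1 1 1 2
    (fun j n p q => decide ((j = 3 ∧ n = 3 ∧ q ≤ p ∧ 3 ≤ q ∧ ((p + q) % 2 = 1 ∧ p % 2 = 1))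
      ∨ (j = 1 ∧ n = 1 ∧ q ≤ p ∧ ((p + q) % 2 = 1 ∧ p % 2 = 1))
      ∨ (j = 1 ∧ n = 3 ∧ p = 4 ∧ q = 1)))
    (fun j n p q => decide ((j = 1 ∧ n = 3 ∧ p = 4 ∧ q = 3)))
    16
    0x14b8301c98000c980009c80009b8001cc8e01cc8f00d10700d38e00d38700d28e00d28f00a58e00a58f009e8e009e8f = true := by
  decide +kernel

theorem runX2_d3 (hf : Rule f) {k c n M : ℕ} (H : PL f k c n M)
    (h0 : f (6 * k + 2) (c - 4) (2 * M - 1) (2 * M - 4))
    (z0 : ¬ f (6 * k + 2) (c - 4) (2 * M - 1) (2 * M - 2)) : False := by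
  have hk := H.T.hk
  have hc := H.T.hc
  have h4' := H.T.h4
  have hb := H.T.hb
  have hN := H.T.hN2
  have hM := H.hM
  obtain ⟨a0, ha0⟩ : ∃ z, z = 6 * k + 1 := ⟨_, rfl⟩
  obtain ⟨b0, hb0⟩ : ∃ z, z + 7 = c := ⟨c - 7, by omega⟩
  obtain ⟨x0, hx0⟩ : ∃ z, z + 5 = 2 * M := ⟨2 * M - 5, by omega⟩
  refine check_sound hf (a0 := a0) (b0 := b0) (x0 := x0) (y0 := x0) runX2_d3_chk
    ⟨fun _ => rfl, fun h => absurd h (by decide), fun h => absurd h (by decide), by omega, by omega,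
      by omega, by omega⟩ ?_ ?_
  · intro j m p q hr h
    obtain ⟨-, -, -, -, hp1, hp2, hq1, hq2⟩ := hr
    replace h := of_decide_eq_true h
    rcases h with h | h | h
    · obtain ⟨rfl, rfl, h⟩ := h
      exact (WrapC.v2 H.c4a (by omega) (by omega) (by omega) (by omega) (by omega) (by omega) (by omega)).mpr (by omega)
    · obtain ⟨rfl, rfl, h⟩ := h
      exact (WrapC.v2 H.c2a (by omega) (by omega) (by omega) (by omega) (by omega) (by omega) (by omega)).mpr (by omega)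
    · obtain ⟨rfl, rfl, rfl, rfl⟩ := h
      exact mv h0 (by omega) (by omega) (by omega) (by omega)
  · intro j m p q hr h
    obtain ⟨-, -, -, -, hp1, hp2, hq1, hq2⟩ := hr
    replace h := of_decide_eq_true h
    obtain ⟨rfl, rfl, rfl, rfl⟩ := h
    exact fun t => z0 (mv t (by omega) (by omega) (by omega) (by omega))

end Pool.Agent.SNT.D1E
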