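import Pool.Agent.SNT.PL

set_option autoImplicit false
set_option synthInstance.maxSize 100000
set_option synthInstance.maxHeartbeats 4000000

/-! Mid-strip windows of the missing line `M` of `6 k + 2`. -/

namespace Pool.Agent.SNT.D1E

open Pool.Agent.SNT Pool.Agent.SNT.Sig Pool.Agent.SNT.Loc Pool.Agent.SNT.LW Pool.Agent.SNT.NHZ Pool.Agent.SNT.DRun
open Pool.Agent.SNT.PB

variable {f : ℕ → ℕ → ℕ → ℕ → Prop}

theorem beam_chk : check 9 5 6 9 1 1 1 1 0
    (fun j n p q => decide ((j = 1 ∧ n = 1 ∧ p = 2 ∧ q = 1) ∨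
      (j = 1 ∧ n = 1 ∧ p = 2 ∧ q = 3) ∨
      (j = 1 ∧ n = 3 ∧ p = 2 ∧ q = 1) ∨
      (j = 5 ∧ n = 1 ∧ p = 2 ∧ q = 3) ∨
      (j = 5 ∧ n = 1 ∧ p = 2 ∧ q = 5) ∨
      (j = 7 ∧ n = 1 ∧ p = 1 ∧ q = 2) ∨
      (j = 7 ∧ n = 1 ∧ p = 1 ∧ q = 4) ∨
      (j = 7 ∧ n = 1 ∧ p = 1 ∧ q = 6) ∨
      (j = 7 ∧ n = 3 ∧ p = 4 ∧ q = 3) ∨
      (j = 7 ∧ n = 3 ∧ p = 4 ∧ q = 5) ∨
      (j = 7 ∧ n = 3 ∧ p = 4 ∧ q = 7) ∨
      (j = 9 ∧ n = 3 ∧ p = 3 ∧ q = 4) ∨
      (j = 9 ∧ n = 3 ∧ p = 3 ∧ q = 6)))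
    (fun j n p q => decide ((j = 1 ∧ n = 3 ∧ p = 2 ∧ q = 3) ∨
      (j = 2 ∧ n = 3 ∧ p = 3 ∧ q = 3) ∨
      (j = 3 ∧ n = 2 ∧ p = 2 ∧ q = 3) ∨
      (j = 3 ∧ n = 2 ∧ p = 2 ∧ q = 4) ∨
      (j = 3 ∧ n = 2 ∧ p = 3 ∧ q = 3) ∨
      (j = 3 ∧ n = 2 ∧ p = 3 ∧ q = 4) ∨
      (j = 4 ∧ n = 2 ∧ p = 3 ∧ q = 3) ∨
      (j = 4 ∧ n = 2 ∧ p = 3 ∧ q = 4) ∨
      (j = 4 ∧ n = 3 ∧ p = 3 ∧ q = 3) ∨
      (j = 4 ∧ n = 3 ∧ p = 3 ∧ q = 4)))
    68
    0x27c8302fe80038ada040c800498da027c8302fe80038ada040d00040d0402ff80038b52027c8302ff0002ff04049983038680038684049903038600038604027c83030380030384016980052080051f8004178004168004158003d38003d28003d18002c98002c880016e1200e18000ac8000ab8005208f051f8f04178f04168f04158f04120704110703d38f03d28f03d18f03040703030702c98f02c88f027c87027c0702618702610701f50701da8701da0701d60701d587016e0700e70700e28700e18f00ac8f00ab8f = true := by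
  decide +kernel

theorem beam_mid (hf : Rule f) {k c n M y : ℕ} (H : PL f k c n M) (hy : y % 2 = 0) (g1 : y + 7 ≤ 2 * M + 3)
    (g2 : 2 * M + 6 ≤ y + 2 * k) (h0 : f (6 * k + 2) (c - 2) (2 * M + 3) y)
    (hg : ¬ f (6 * k + 2) (c - 2) (2 * M + 3) (y + 2)) : False := by
  have hk := H.T.hk
  have hc := H.T.hc
  have h4' := H.T.h4
  have hb := H.T.hb
  have hN := H.T.hN2
  have hM := H.hM
  obtain ⟨a0, ha0⟩ : ∃ z, z = 6 * k + 1 := ⟨_, rfl⟩
  obtain ⟨b0, hb0⟩ : ∃ z, z + 5 = c := ⟨c - 5, by omega⟩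
  obtain ⟨x0, hx0⟩ : ∃ z, z = 2 * M + 1 := ⟨_, rfl⟩
  obtain ⟨y0, hy0⟩ : ∃ z, z + 1 = y := ⟨y - 1, by omega⟩
  refine check_sound hf (a0 := a0) (b0 := b0) (x0 := x0) (y0 := y0) beam_chk
    ⟨fun h => absurd h (by decide), fun h => absurd h (by decide), fun h => absurd h (by decide), by omega, by omega,
      by omega, by omega⟩ ?_ ?_
  · intro j m p q hr h
    replace h := of_decide_eq_true h
    clear hr
    rcases h with h | h | h | h | h | h | h | h | h | h | h | h | h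
    · obtain ⟨rfl, rfl, rfl, rfl⟩ := h
      exact (WrapC.v0 H.c2 (by omega) (by omega) (by omega) (by omega) (by omega) (by omega) (by omega)).mpr (by omega)
    · obtain ⟨rfl, rfl, rfl, rfl⟩ := h
      exact (WrapC.v0 H.c2 (by omega) (by omega) (by omega) (by omega) (by omega) (by omega) (by omega)).mpr (by omega)
    · obtain ⟨rfl, rfl, rfl, rfl⟩ := h
      exact mv h0 (by omega) (by omega) (by omega) (by omega)
    · obtain ⟨rfl, rfl, rfl, rfl⟩ := h
      exact (WrapC.v0 H.c6 (by omega) (by omega) (by omega) (by omega) (by omega) (by omega) (by omega)).mpr (by omega)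
    · obtain ⟨rfl, rfl, rfl, rfl⟩ := h
      exact (WrapC.v0 H.c6 (by omega) (by omega) (by omega) (by omega) (by omega) (by omega) (by omega)).mpr (by omega)
    · obtain ⟨rfl, rfl, rfl, rfl⟩ := h
      exact (NW.w2v H.c8a (by omega) (by omega) (by omega) (by omega) (by omega) (by omega) (by omega)).mpr (by omega)
    · obtain ⟨rfl, rfl, rfl, rfl⟩ := h
      exact (NW.w2v H.c8a (by omega) (by omega) (by omega) (by omega) (by omega) (by omega) (by omega)).mpr (by omega)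
    · obtain ⟨rfl, rfl, rfl, rfl⟩ := h
      exact (NW.w2v H.c8a (by omega) (by omega) (by omega) (by omega) (by omega) (by omega) (by omega)).mpr (by omega)
    · obtain ⟨rfl, rfl, rfl, rfl⟩ := h
      exact (NW.w0v H.c8 (by omega) (by omega) (by omega) (by omega) (by omega) (by omega) (by omega)).mpr (by omega)
    · obtain ⟨rfl, rfl, rfl, rfl⟩ := h
      exact (NW.w0v H.c8 (by omega) (by omega) (by omega) (by omega) (by omega) (by omega) (by omega)).mpr (by omega)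
    · obtain ⟨rfl, rfl, rfl, rfl⟩ := h
      exact (NW.w0v H.c8 (by omega) (by omega) (by omega) (by omega) (by omega) (by omega) (by omega)).mpr (by omega)
    · obtain ⟨rfl, rfl, rfl, rfl⟩ := h
      exact (NW.w2v H.c10a (by omega) (by omega) (by omega) (by omega) (by omega) (by omega) (by omega)).mpr (by omega)
    · obtain ⟨rfl, rfl, rfl, rfl⟩ := h
      exact (NW.w2v H.c10a (by omega) (by omega) (by omega) (by omega) (by omega) (by omega) (by omega)).mpr (by omega)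
  · intro j m p q hr h
    replace h := of_decide_eq_true h
    clear hr
    rcases h with h | h | h | h | h | h | h | h | h | h
    · obtain ⟨rfl, rfl, rfl, rfl⟩ := h
      exact fun t => hg (mv t (by omega) (by omega) (by omega) (by omega))
    · obtain ⟨rfl, rfl, rfl, rfl⟩ := h
      exact NHT.pIn hf H.T (t := 4) (j := 2) (by omega) (by omega) (by omega) (by omega) (by omega) (by omega) (by omega)
    · obtain ⟨rfl, rfl, rfl, rfl⟩ := h
      exact NHT.rIn hf H.T (t := 3) (j := 1) (p := 0) (by omega) (by omega) (by omega) (by omega) (by omega) (by omega) (by omega) (by omega)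
    · obtain ⟨rfl, rfl, rfl, rfl⟩ := h
      exact NHT.rIn hf H.T (t := 3) (j := 1) (p := 0) (by omega) (by omega) (by omega) (by omega) (by omega) (by omega) (by omega) (by omega)
    · obtain ⟨rfl, rfl, rfl, rfl⟩ := h
      exact NHT.rIn hf H.T (t := 3) (j := 1) (p := 0) (by omega) (by omega) (by omega) (by omega) (by omega) (by omega) (by omega) (by omega)
    · obtain ⟨rfl, rfl, rfl, rfl⟩ := h
      exact NHT.rIn hf H.T (t := 3) (j := 1) (p := 0) (by omega) (by omega) (by omega) (by omega) (by omega) (by omega) (by omega) (by omega)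
    · obtain ⟨rfl, rfl, rfl, rfl⟩ := h
      exact NHT.rIn hf H.T (t := 3) (j := 1) (p := 1) (by omega) (by omega) (by omega) (by omega) (by omega) (by omega) (by omega) (by omega)
    · obtain ⟨rfl, rfl, rfl, rfl⟩ := h
      exact NHT.rIn hf H.T (t := 3) (j := 1) (p := 1) (by omega) (by omega) (by omega) (by omega) (by omega) (by omega) (by omega) (by omega)
    · obtain ⟨rfl, rfl, rfl, rfl⟩ := h
      exact NHT.pIn hf H.T (t := 4) (j := 1) (by omega) (by omega) (by omega) (by omega) (by omega) (by omega) (by omega)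
    · obtain ⟨rfl, rfl, rfl, rfl⟩ := h
      exact NHT.pIn hf H.T (t := 4) (j := 1) (by omega) (by omega) (by omega) (by omega) (by omega) (by omega) (by omega)

theorem runX_chk : check 2 4 5 5 1 0 0 1 0
    (fun j n p q => decide ((j = 1 ∧ n = 2 ∧ p = 1 ∧ q = 1) ∨
      (j = 1 ∧ n = 2 ∧ p = 3 ∧ q = 3)))
    (fun j n p q => decide ((j = 1 ∧ n = 1 ∧ p = 1 ∧ q = 2) ∨
      (j = 1 ∧ n = 1 ∧ p = 1 ∧ q = 3) ∨
      (j = 1 ∧ n = 2 ∧ p = 1 ∧ q = 3) ∨
      (j = 2 ∧ n = 1 ∧ p = 1 ∧ q = 2) ∨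
      (j = 2 ∧ n = 1 ∧ p = 1 ∧ q = 3) ∨
      (j = 2 ∧ n = 1 ∧ p = 2 ∧ q = 2) ∨
      (j = 2 ∧ n = 1 ∧ p = 2 ∧ q = 3) ∨
      (j = 2 ∧ n = 2 ∧ p = 1 ∧ q = 3) ∨
      (j = 2 ∧ n = 2 ∧ p = 2 ∧ q = 3)))
    15
    0x8383005400004e0000838700810700770700768700748700740700540f005187004f07004e0f004287004207 = true := by
  decide +kernel

theorem runX_mid (hf : Rule f) {k c n M y : ℕ} (H : PL f k c n M) (hy : y % 2 = 0) (g1 : y + 4 ≤ 2 * M + 1)
    (g2 : 2 * M + 4 ≤ y + 2 * k) (h0 : f (6 * k + 2) (c - 4) (2 * M + 1) y)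
    (hg : ¬ f (6 * k + 2) (c - 4) (2 * M + 1) (y + 2)) : False := by
  have hk := H.T.hk
  have hc := H.T.hc
  have h4' := H.T.h4
  have hb := H.T.hb
  have hN := H.T.hN2
  have hM := H.hM
  obtain ⟨a0, ha0⟩ : ∃ z, z = 6 * k + 1 := ⟨_, rfl⟩
  obtain ⟨b0, hb0⟩ : ∃ z, z + 6 = c := ⟨c - 6, by omega⟩
  obtain ⟨x0, hx0⟩ : ∃ z, z = 2 * M := ⟨_, rfl⟩
  obtain ⟨y0, hy0⟩ : ∃ z, z + 1 = y := ⟨y - 1, by omega⟩
  refine check_sound hf (a0 := a0) (b0 := b0) (x0 := x0) (y0 := y0) runX_chk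
    ⟨fun h => absurd h (by decide), fun h => absurd h (by decide), fun h => absurd h (by decide), by omega, by omega,
      by omega, by omega⟩ ?_ ?_
  · intro j m p q hr h
    replace h := of_decide_eq_true h
    clear hr
    rcases h with h | h
    · obtain ⟨rfl, rfl, rfl, rfl⟩ := h
      exact mv h0 (by omega) (by omega) (by omega) (by omega)
    · obtain ⟨rfl, rfl, rfl, rfl⟩ := h
      exact (WrapC.v0 H.c2 (by omega) (by omega) (by omega) (by omega) (by omega) (by omega) (by omega)).mpr (by omega)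
  · intro j m p q hr h
    replace h := of_decide_eq_true h
    clear hr
    rcases h with h | h | h | h | h | h | h | h | h
    · obtain ⟨rfl, rfl, rfl, rfl⟩ := h
      exact NHT.rIn hf H.T (t := 2) (j := 1) (p := 0) (by omega) (by omega) (by omega) (by omega) (by omega) (by omega) (by omega) (by omega)
    · obtain ⟨rfl, rfl, rfl, rfl⟩ := h
      exact NHT.rIn hf H.T (t := 2) (j := 1) (p := 0) (by omega) (by omega) (by omega) (by omega) (by omega) (by omega) (by omega) (by omega)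
    · obtain ⟨rfl, rfl, rfl, rfl⟩ := h
      exact fun t => hg (mv t (by omega) (by omega) (by omega) (by omega))
    · obtain ⟨rfl, rfl, rfl, rfl⟩ := h
      exact NHT.rIn hf H.T (t := 2) (j := 1) (p := 1) (by omega) (by omega) (by omega) (by omega) (by omega) (by omega) (by omega) (by omega)
    · obtain ⟨rfl, rfl, rfl, rfl⟩ := h
      exact NHT.rIn hf H.T (t := 2) (j := 1) (p := 1) (by omega) (by omega) (by omega) (by omega) (by omega) (by omega) (by omega) (by omega)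
    · obtain ⟨rfl, rfl, rfl, rfl⟩ := h
      exact NHT.rIn hf H.T (t := 2) (j := 1) (p := 1) (by omega) (by omega) (by omega) (by omega) (by omega) (by omega) (by omega) (by omega)
    · obtain ⟨rfl, rfl, rfl, rfl⟩ := h
      exact NHT.rIn hf H.T (t := 2) (j := 1) (p := 1) (by omega) (by omega) (by omega) (by omega) (by omega) (by omega) (by omega) (by omega)
    · obtain ⟨rfl, rfl, rfl, rfl⟩ := h
      exact NHT.pIn hf H.T (t := 3) (j := 1) (by omega) (by omega) (by omega) (by omega) (by omega) (by omega) (by omega)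
    · obtain ⟨rfl, rfl, rfl, rfl⟩ := h
      exact NHT.pIn hf H.T (t := 3) (j := 1) (by omega) (by omega) (by omega) (by omega) (by omega) (by omega) (by omega)

theorem runX2_chk : check 5 5 9 7 0 1 0 1 0
    (fun j n p q => decide ((j = 2 ∧ n = 1 ∧ p = 1 ∧ q = 1) ∨
      (j = 2 ∧ n = 1 ∧ p = 1 ∧ q = 3) ∨
      (j = 2 ∧ n = 1 ∧ p = 3 ∧ q = 1) ∨
      (j = 2 ∧ n = 1 ∧ p = 3 ∧ q = 3) ∨
      (j = 4 ∧ n = 3 ∧ p = 3 ∧ q = 1) ∨
      (j = 4 ∧ n = 3 ∧ p = 7 ∧ q = 5)))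
    (fun j n p q => decide ((j = 1 ∧ n = 2 ∧ p = 1 ∧ q = 1) ∨
      (j = 1 ∧ n = 2 ∧ p = 1 ∧ q = 2) ∨
      (j = 1 ∧ n = 2 ∧ p = 2 ∧ q = 1) ∨
      (j = 1 ∧ n = 2 ∧ p = 2 ∧ q = 2) ∨
      (j = 1 ∧ n = 2 ∧ p = 2 ∧ q = 3) ∨
      (j = 1 ∧ n = 2 ∧ p = 3 ∧ q = 1) ∨
      (j = 1 ∧ n = 2 ∧ p = 3 ∧ q = 2) ∨
      (j = 1 ∧ n = 2 ∧ p = 3 ∧ q = 3) ∨
      (j = 1 ∧ n = 3 ∧ p = 1 ∧ q = 1) ∨
      (j = 1 ∧ n = 3 ∧ p = 1 ∧ q = 2) ∨
      (j = 1 ∧ n = 3 ∧ p = 2 ∧ q = 1) ∨
      (j = 1 ∧ n = 3 ∧ p = 2 ∧ q = 2) ∨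
      (j = 1 ∧ n = 3 ∧ p = 2 ∧ q = 3) ∨
      (j = 1 ∧ n = 3 ∧ p = 3 ∧ q = 1) ∨
      (j = 1 ∧ n = 3 ∧ p = 3 ∧ q = 2) ∨
      (j = 1 ∧ n = 3 ∧ p = 3 ∧ q = 3) ∨
      (j = 4 ∧ n = 2 ∧ p = 3 ∧ q = 2) ∨
      (j = 4 ∧ n = 2 ∧ p = 3 ∧ q = 3) ∨
      (j = 4 ∧ n = 2 ∧ p = 3 ∧ q = 4) ∨
      (j = 4 ∧ n = 2 ∧ p = 4 ∧ q = 2) ∨
      (j = 4 ∧ n = 2 ∧ p = 4 ∧ q = 3) ∨
      (j = 4 ∧ n = 2 ∧ p = 5 ∧ q = 4) ∨
      (j = 4 ∧ n = 2 ∧ p = 5 ∧ q = 5) ∨
      (j = 4 ∧ n = 3 ∧ p = 3 ∧ q = 3) ∨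
      (j = 5 ∧ n = 2 ∧ p = 3 ∧ q = 2) ∨
      (j = 5 ∧ n = 2 ∧ p = 3 ∧ q = 3) ∨
      (j = 5 ∧ n = 2 ∧ p = 4 ∧ q = 2) ∨
      (j = 5 ∧ n = 2 ∧ p = 4 ∧ q = 3) ∨
      (j = 5 ∧ n = 2 ∧ p = 5 ∧ q = 4) ∨
      (j = 5 ∧ n = 2 ∧ p = 5 ∧ q = 5) ∨
      (j = 5 ∧ n = 2 ∧ p = 6 ∧ q = 4) ∨
      (j = 5 ∧ n = 2 ∧ p = 6 ∧ q = 5) ∨
      (j = 5 ∧ n = 3 ∧ p = 4 ∧ q = 3) ∨
      (j = 5 ∧ n = 3 ∧ p = 5 ∧ q = 4) ∨
      (j = 5 ∧ n = 3 ∧ p = 5 ∧ q = 5) ∨
      (j = 5 ∧ n = 3 ∧ p = 6 ∧ q = 4) ∨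
      (j = 5 ∧ n = 3 ∧ p = 6 ∧ q = 5)))
    82
    0x1a58302468002e4ca02e8800389d202e48302e80002e804023f8002e0d201a583024300024304019d8001a19a01a58302430002e0c2019e00019e0402e08301a18001a18401a503024280024284037e0002ef8003819202df80016680016580015f80015e80038987038907038607038587038187036a07036987036687036607036207036187035e87035e0702ef8f02ec0702e40702e08702df8f02dd0702c90702c88702c48702c40702c18702c10702c08701a20701a10701668f01658f015f8f015e8f01080701078701070701048701040701038701008701000700e88700e80700e78700e50700e48700e40700e10700e087 = true := by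
  decide +kernel

theorem runX2_mid (hf : Rule f) {k c n M y : ℕ} (H : PL f k c n M) (hy : y % 2 = 0) (g1 : y + 5 + 1 ≤ 2 * M)
    (g2 : 2 * M + 2 ≤ y + 2 * k) (h0 : f (6 * k + 2) (c - 4) (2 * M - 1) y)
    (hg : ¬ f (6 * k + 2) (c - 4) (2 * M - 1) (y + 2)) : False := by
  have hk := H.T.hk
  have hc := H.T.hc
  have h4' := H.T.h4
  have hb := H.T.hb
  have hN := H.T.hN2
  have hM := H.hM
  obtain ⟨a0, ha0⟩ : ∃ z, z + 2 = 6 * k := ⟨6 * k - 2, by omega⟩
  obtain ⟨b0, hb0⟩ : ∃ z, z + 7 = c := ⟨c - 7, by omega⟩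
  obtain ⟨x0, hx0⟩ : ∃ z, z + 4 = 2 * M := ⟨2 * M - 4, by omega⟩
  obtain ⟨y0, hy0⟩ : ∃ z, z + 1 = y := ⟨y - 1, by omega⟩
  refine check_sound hf (a0 := a0) (b0 := b0) (x0 := x0) (y0 := y0) runX2_chk
    ⟨fun h => absurd h (by decide), fun h => absurd h (by decide), fun h => absurd h (by decide), by omega, by omega,
      by omega, by omega⟩ ?_ ?_
  · intro j m p q hr h
    replace h := of_decide_eq_true h
    clear hr
    rcases h with h | h | h | h | h | h
    · obtain ⟨rfl, rfl, rfl, rfl⟩ := h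
      exact (WrapC.v0 H.c0 (by omega) (by omega) (by omega) (by omega) (by omega) (by omega) (by omega)).mpr (by omega)
    · obtain ⟨rfl, rfl, rfl, rfl⟩ := h
      exact (WrapC.v0 H.c0 (by omega) (by omega) (by omega) (by omega) (by omega) (by omega) (by omega)).mpr (by omega)
    · obtain ⟨rfl, rfl, rfl, rfl⟩ := h
      exact (WrapC.v0 H.c0 (by omega) (by omega) (by omega) (by omega) (by omega) (by omega) (by omega)).mpr (by omega)
    · obtain ⟨rfl, rfl, rfl, rfl⟩ := h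
      exact (WrapC.v0 H.c0 (by omega) (by omega) (by omega) (by omega) (by omega) (by omega) (by omega)).mpr (by omega)
    · obtain ⟨rfl, rfl, rfl, rfl⟩ := h
      exact mv h0 (by omega) (by omega) (by omega) (by omega)
    · obtain ⟨rfl, rfl, rfl, rfl⟩ := h
      exact (WrapC.v0 H.c2 (by omega) (by omega) (by omega) (by omega) (by omega) (by omega) (by omega)).mpr (by omega)
  · intro j m p q hr h
    replace h := of_decide_eq_true h
    clear hr
    rcases h with h | h | h | h | h | h | h | h | h | h | h | h | h | h | h | h | h | h | h | h | h | h | h | h | h | h | h | h | h | h | h | h | h | h | h | h | h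
    · obtain ⟨rfl, rfl, rfl, rfl⟩ := h
      exact H.lw _ _ _ _ (by omega) (by omega) (by omega) (by omega) (by omega) (by omega)
    · obtain ⟨rfl, rfl, rfl, rfl⟩ := h
      exact H.lw _ _ _ _ (by omega) (by omega) (by omega) (by omega) (by omega) (by omega)
    · obtain ⟨rfl, rfl, rfl, rfl⟩ := h
      exact H.lw _ _ _ _ (by omega) (by omega) (by omega) (by omega) (by omega) (by omega)
    · obtain ⟨rfl, rfl, rfl, rfl⟩ := h
      exact H.lw _ _ _ _ (by omega) (by omega) (by omega) (by omega) (by omega) (by omega)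
    · obtain ⟨rfl, rfl, rfl, rfl⟩ := h
      exact H.lw _ _ _ _ (by omega) (by omega) (by omega) (by omega) (by omega) (by omega)
    · obtain ⟨rfl, rfl, rfl, rfl⟩ := h
      exact H.lw _ _ _ _ (by omega) (by omega) (by omega) (by omega) (by omega) (by omega)
    · obtain ⟨rfl, rfl, rfl, rfl⟩ := h
      exact H.lw _ _ _ _ (by omega) (by omega) (by omega) (by omega) (by omega) (by omega)
    · obtain ⟨rfl, rfl, rfl, rfl⟩ := h
      exact H.lw _ _ _ _ (by omega) (by omega) (by omega) (by omega) (by omega) (by omega)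
    · obtain ⟨rfl, rfl, rfl, rfl⟩ := h
      exact H.lw _ _ _ _ (by omega) (by omega) (by omega) (by omega) (by omega) (by omega)
    · obtain ⟨rfl, rfl, rfl, rfl⟩ := h
      exact H.lw _ _ _ _ (by omega) (by omega) (by omega) (by omega) (by omega) (by omega)
    · obtain ⟨rfl, rfl, rfl, rfl⟩ := h
      exact H.lw _ _ _ _ (by omega) (by omega) (by omega) (by omega) (by omega) (by omega)
    · obtain ⟨rfl, rfl, rfl, rfl⟩ := h
      exact H.lw _ _ _ _ (by omega) (by omega) (by omega) (by omega) (by omega) (by omega)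
    · obtain ⟨rfl, rfl, rfl, rfl⟩ := h
      exact H.lw _ _ _ _ (by omega) (by omega) (by omega) (by omega) (by omega) (by omega)
    · obtain ⟨rfl, rfl, rfl, rfl⟩ := h
      exact H.lw _ _ _ _ (by omega) (by omega) (by omega) (by omega) (by omega) (by omega)
    · obtain ⟨rfl, rfl, rfl, rfl⟩ := h
      exact H.lw _ _ _ _ (by omega) (by omega) (by omega) (by omega) (by omega) (by omega)
    · obtain ⟨rfl, rfl, rfl, rfl⟩ := h
      exact H.lw _ _ _ _ (by omega) (by omega) (by omega) (by omega) (by omega) (by omega)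
    · obtain ⟨rfl, rfl, rfl, rfl⟩ := h
      exact NHT.rIn hf H.T (t := 2) (j := 1) (p := 0) (by omega) (by omega) (by omega) (by omega) (by omega) (by omega) (by omega) (by omega)
    · obtain ⟨rfl, rfl, rfl, rfl⟩ := h
      exact NHT.rIn hf H.T (t := 2) (j := 1) (p := 0) (by omega) (by omega) (by omega) (by omega) (by omega) (by omega) (by omega) (by omega)
    · obtain ⟨rfl, rfl, rfl, rfl⟩ := h
      exact NHT.rIn hf H.T (t := 2) (j := 1) (p := 0) (by omega) (by omega) (by omega) (by omega) (by omega) (by omega) (by omega) (by omega)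
    · obtain ⟨rfl, rfl, rfl, rfl⟩ := h
      exact NHT.rIn hf H.T (t := 2) (j := 1) (p := 0) (by omega) (by omega) (by omega) (by omega) (by omega) (by omega) (by omega) (by omega)
    · obtain ⟨rfl, rfl, rfl, rfl⟩ := h
      exact NHT.rIn hf H.T (t := 2) (j := 1) (p := 0) (by omega) (by omega) (by omega) (by omega) (by omega) (by omega) (by omega) (by omega)
    · obtain ⟨rfl, rfl, rfl, rfl⟩ := h
      exact NHT.rIn hf H.T (t := 2) (j := 1) (p := 0) (by omega) (by omega) (by omega) (by omega) (by omega) (by omega) (by omega) (by omega)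
    · obtain ⟨rfl, rfl, rfl, rfl⟩ := h
      exact NHT.rIn hf H.T (t := 2) (j := 1) (p := 0) (by omega) (by omega) (by omega) (by omega) (by omega) (by omega) (by omega) (by omega)
    · obtain ⟨rfl, rfl, rfl, rfl⟩ := h
      exact fun t => hg (mv t (by omega) (by omega) (by omega) (by omega))
    · obtain ⟨rfl, rfl, rfl, rfl⟩ := h
      exact NHT.rIn hf H.T (t := 2) (j := 1) (p := 1) (by omega) (by omega) (by omega) (by omega) (by omega) (by omega) (by omega) (by omega)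
    · obtain ⟨rfl, rfl, rfl, rfl⟩ := h
      exact NHT.rIn hf H.T (t := 2) (j := 1) (p := 1) (by omega) (by omega) (by omega) (by omega) (by omega) (by omega) (by omega) (by omega)
    · obtain ⟨rfl, rfl, rfl, rfl⟩ := h
      exact NHT.rIn hf H.T (t := 2) (j := 1) (p := 1) (by omega) (by omega) (by omega) (by omega) (by omega) (by omega) (by omega) (by omega)
    · obtain ⟨rfl, rfl, rfl, rfl⟩ := h
      exact NHT.rIn hf H.T (t := 2) (j := 1) (p := 1) (by omega) (by omega) (by omega) (by omega) (by omega) (by omega) (by omega) (by omega)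
    · obtain ⟨rfl, rfl, rfl, rfl⟩ := h
      exact NHT.rIn hf H.T (t := 2) (j := 1) (p := 1) (by omega) (by omega) (by omega) (by omega) (by omega) (by omega) (by omega) (by omega)
    · obtain ⟨rfl, rfl, rfl, rfl⟩ := h
      exact NHT.rIn hf H.T (t := 2) (j := 1) (p := 1) (by omega) (by omega) (by omega) (by omega) (by omega) (by omega) (by omega) (by omega)
    · obtain ⟨rfl, rfl, rfl, rfl⟩ := h
      exact NHT.rIn hf H.T (t := 2) (j := 1) (p := 1) (by omega) (by omega) (by omega) (by omega) (by omega) (by omega) (by omega) (by omega)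
    · obtain ⟨rfl, rfl, rfl, rfl⟩ := h
      exact NHT.rIn hf H.T (t := 2) (j := 1) (p := 1) (by omega) (by omega) (by omega) (by omega) (by omega) (by omega) (by omega) (by omega)
    · obtain ⟨rfl, rfl, rfl, rfl⟩ := h
      exact NHT.pIn hf H.T (t := 3) (j := 1) (by omega) (by omega) (by omega) (by omega) (by omega) (by omega) (by omega)
    · obtain ⟨rfl, rfl, rfl, rfl⟩ := h
      exact NHT.pIn hf H.T (t := 3) (j := 1) (by omega) (by omega) (by omega) (by omega) (by omega) (by omega) (by omega)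
    · obtain ⟨rfl, rfl, rfl, rfl⟩ := h
      exact NHT.pIn hf H.T (t := 3) (j := 1) (by omega) (by omega) (by omega) (by omega) (by omega) (by omega) (by omega)
    · obtain ⟨rfl, rfl, rfl, rfl⟩ := h
      exact NHT.pIn hf H.T (t := 3) (j := 1) (by omega) (by omega) (by omega) (by omega) (by omega) (by omega) (by omega)
    · obtain ⟨rfl, rfl, rfl, rfl⟩ := h
      exact NHT.pIn hf H.T (t := 3) (j := 1) (by omega) (by omega) (by omega) (by omega) (by omega) (by omega) (by omega)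

end Pool.Agent.SNT.D1E
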