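import Pool.Agent.SNT.NEw
import Pool.Agent.SNT.NEm
import Pool.Agent.SNT.NEd
import Pool.Agent.SNT.D1W1

set_option autoImplicit false

/-! The missing line `M` of the layer `6 k + 2` (row `c - 4`) forces one of two wall cells of `P` in the row `c - 2`. -/

namespace Pool.Agent.SNT.D1E

open Pool.Agent.SNT Pool.Agent.SNT.Sig Pool.Agent.SNT.Loc Pool.Agent.SNT.LW Pool.Agent.SNT.NHZ Pool.Agent.SNT.DRun
open Pool.Agent.SNT.PB

variable {f : ℕ → ℕ → ℕ → ℕ → Prop} {k c n M : ℕ}

/-- a cell of the column `2 M + 1` in the IN row from the wall on runs to the tip -/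
theorem runX_tip (hf : Rule f) (H : PL f k c n M) {y : ℕ} (hy : y % 2 = 0) (g1 : 2 * M + 2 ≤ y + 2 * k) (g2 : y ≤ 2 * M)
    (h0 : f (6 * k + 2) (c - 4) (2 * M + 1) y) : f (6 * k + 2) (c - 4) (2 * M + 1) (2 * M) := by
  have hk := H.T.hk
  have hN := H.T.hN2
  have hM := H.hM
  obtain ⟨z, hz, hz1, hz2, h1⟩ : ∃ z, z % 2 = 0 ∧ 2 * M + 4 ≤ z + 2 * k ∧ z ≤ 2 * M ∧ f (6 * k + 2) (c - 4) (2 * M + 1) z := by
    by_cases e : y + 2 * k = 2 * M + 2
    · refine ⟨y + 2, by omega, by omega, by omega, ?_⟩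
      by_contra hg
      exact x_wall hf H e h0 hg
    · exact ⟨y, hy, by omega, g2, h0⟩
  have h4 : ∀ j : ℕ, z + 2 * j + 2 ≤ 2 * M → f (6 * k + 2) (c - 4) (2 * M + 1) (z + 2 * j) := by
    intro j
    induction j with
    | zero => exact fun _ => h1
    | succ j ih =>
      intro h
      by_contra hg
      exact runX_mid hf H (y := z + 2 * j) (by omega) (by omega) (by omega) (ih (by omega))
        (by rwa [show z + 2 * (j + 1) = z + 2 * j + 2 by omega] at hg)
  by_cases e : z = 2 * M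
  · rw [e] at h1
    exact h1
  · have h5 := h4 ((2 * M - z) / 2 - 1) (by omega)
    rw [show z + 2 * ((2 * M - z) / 2 - 1) = 2 * M - 2 by omega] at h5
    by_contra hg
    exact runX_d3 hf H h5 hg

/-- the third cell of the column `2 M - 1` runs to the tip -/
theorem runX2_tip (hf : Rule f) (H : PL f k c n M) {y : ℕ} (hy : y + 2 * k = 2 * M + 4)
    (h0 : f (6 * k + 2) (c - 4) (2 * M - 1) y) : f (6 * k + 2) (c - 4) (2 * M - 1) (2 * M - 2) := by
  have hk := H.T.hk
  have hN := H.T.hN2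
  have hM := H.hM
  have h4 : ∀ j : ℕ, y + 2 * j + 4 ≤ 2 * M → f (6 * k + 2) (c - 4) (2 * M - 1) (y + 2 * j) := by
    intro j
    induction j with
    | zero => exact fun _ => h0
    | succ j ih =>
      intro h
      by_contra hg
      exact runX2_mid hf H (y := y + 2 * j) (by omega) (by omega) (by omega) (ih (by omega))
        (by rwa [show y + 2 * (j + 1) = y + 2 * j + 2 by omega] at hg)
  have h5 := h4 (k - 4) (by omega)
  rw [show y + 2 * (k - 4) = 2 * M - 4 by omega] at h5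
  by_contra hg
  exact runX2_d3 hf H h5 hg

/-- the beam of the column `2 M + 3` in the OUT row goes from the wall to the diagonal -/
theorem beam_d5 (hf : Rule f) (H : PL f k c n M) {y : ℕ} (hy : y + 2 * k = 2 * M + 8)
    (h0 : f (6 * k + 2) (c - 2) (2 * M + 3) y) : f (6 * k + 2) (c - 2) (2 * M + 3) (2 * M - 2) := by
  have hk := H.T.hk
  have hN := H.T.hN2
  have hM := H.hM
  have h4 : ∀ j : ℕ, y + 2 * j + 2 ≤ 2 * M → f (6 * k + 2) (c - 2) (2 * M + 3) (y + 2 * j) := by
    intro j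
    induction j with
    | zero => exact fun _ => h0
    | succ j ih =>
      intro h
      by_contra hg
      exact beam_mid hf H (y := y + 2 * j) (by omega) (by omega) (by omega) (ih (by omega))
        (by rwa [show y + 2 * (j + 1) = y + 2 * j + 2 by omega] at hg)
  have h5 := h4 (k - 5) (by omega)
  rwa [show y + 2 * (k - 5) = 2 * M - 2 by omega] at h5

/-- **A missing line `M` of the layer `6 k + 2` in the row `c - 4`** makes one of the cells `E0`, `E1` of `P` in the row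
`c - 2` at the wall. -/
theorem noE (hf : Rule f) {b m : ℕ} (hs : Side k b m) (S : Stack6 f k b m 0 0 0 0 0 1)
    (hn : n = m + 9 + (k + 2) * 4) (hM : n ≤ M + 4) (hM' : M ≤ n)
    (d0 : Cyc f (6 * k) (b + 16) (2 * (M - 3) + 2))
    (d2 : Cyc f (6 * k + 2) (b + 18) (2 * M + 2))
    (d4 : Cyc f (6 * k + 4) (b + 20) (2 * (n + 1) + 2))
    (ht : ¬ f (6 * k + 2) (b + 18) (2 * M + 1) (2 * M)) :
    f (6 * k + 3) (b + 20) (2 * M + 4) (2 * M + 6 - 2 * k) ∨
      f (6 * k + 3) (b + 20) (2 * M + 4) (2 * M + 4 - 2 * k) := by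
  have H := PL.of_stack hs S hn hM hM' d0 d2 d4
  have hk := H.T.hk
  have hN := H.T.hN2
  have ht' : ¬ f (6 * k + 2) (b + 22 - 4) (2 * M + 1) (2 * M) := by rwa [show b + 22 - 4 = b + 18 by omega]
  by_contra hE
  have hX : ∀ y : ℕ, y % 2 = 0 → 2 * M + 2 ≤ y + 2 * k → y ≤ 2 * M → ¬ f (6 * k + 2) (b + 22 - 4) (2 * M + 1) y :=
    fun y h1 h2 h3 h4 => ht' (runX_tip hf H h1 h2 h3 h4)
  obtain ⟨y, hy⟩ : ∃ y, y + 2 * k = 2 * M + 6 := ⟨2 * M + 6 - 2 * k, by omega⟩
  -- the pair of third cells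
  have h2 : f (6 * k + 2) (b + 22 - 4) (2 * M - 1) (y - 2) := by
    by_contra hg
    exact k0_pair_w hf H hy (hX y (by omega) (by omega) (by omega)) hg
  have h3 := runX2_tip hf H (y := y - 2) (by omega) h2
  rcases D1W.wall1 hf hs S hn hM (WrapC.cyc_mono d0 (by omega)) d2
    (fun z h4 h5 h6 => by
      have h7 := hX z h4 h5 (by omega)
      rwa [show b + 22 - 4 = b + 18 by omega] at h7) with h | h
  · have h4 := beam_d5 hf H (y := 2 * M + 8 - 2 * k) (by omega)
      (by rwa [show b + 22 - 2 = b + 20 by omega])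
    exact dg5 hf H h3 h4 ht'
  · exact hE h

end Pool.Agent.SNT.D1E
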