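import Pool.Agent.SNT.D1Birth
import Pool.Agent.SNT.NoE
import Pool.Agent.SNT.D1T2g

set_option autoImplicit false

/-! The last three tips of `6 k + 2`: the interface `NoCtx`, and the ways to it. -/

namespace Pool.Agent.SNT.D1

variable {f : ℕ → ℕ → ℕ → ℕ → Prop} {k b m t : ℕ}

/-- **The interface**: no tip is missing in all cycles. -/
def NoCtx (f : ℕ → ℕ → ℕ → ℕ → Prop) (k t : ℕ) : Prop := ∀ b m : ℕ, ¬ Ctx f k b m t

/-- the escape `E0` does not occur in the cycle `R` -/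
def NoE0 (f : ℕ → ℕ → ℕ → ℕ → Prop) (k t R : ℕ) : Prop :=
  ∀ b m : ℕ, Ctx f k b m t → ¬ E0 f k b m t R

/-- the escape `E1` does not occur in the cycle `R` -/
def NoE1 (f : ℕ → ℕ → ℕ → ℕ → Prop) (k t R : ℕ) : Prop :=
  ∀ b m : ℕ, Ctx f k b m t → ¬ E1 f k b m t R

/-- the strict birth: without `E1` (in all cycles) no tip is missing -/
def SBirth (f : ℕ → ℕ → ℕ → ℕ → Prop) (k t : ℕ) : Prop :=
  ∀ b m : ℕ, Ctx f k b m t → (∀ j : ℕ, ¬ E1 f k b m t j) → False

/-- (i): one of the two escapes occurs in every cycle. -/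
theorem Ctx.esc (hf : Rule f) (C : Ctx f k b m t) (j : ℕ) : E0 f k b m t j ∨ E1 f k b m t j := by
  have Cj := C.shift j
  have ht := C.t2
  obtain ⟨hs, S, d0, d2, d4, hm⟩ := Cj.win rfl
  have hm0 : 100 ≤ m := by
    have h := C.S.side
    obtain ⟨h1, h2, h3, h4, h5⟩ := h
    omega
  have h := D1E.noE hf hs S rfl (M := m + (k + 2) * j + 9 + (k + 2) * 4 + t - 4) (by omega) (by omega)
    (cyc_of_eq d0 rfl (by omega)) d2 d4 hm
  have e : ml k m t j = m + (k + 2) * j + 9 + (k + 2) * 4 + t - 4 := rfl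
  unfold E0 E1
  rw [e]
  exact h.symm

theorem NoE0.at {R : ℕ} (h : NoE0 f k t R) (C : Ctx f k b m t) {j : ℕ} (hj : R ≤ j) : ¬ E0 f k b m t j := by
  obtain ⟨i, rfl⟩ : ∃ i, j = i + R := ⟨j - R, by omega⟩
  have := h _ _ (C.shift i)
  rwa [e0_shift] at this

theorem NoE1.at {R : ℕ} (h : NoE1 f k t R) (C : Ctx f k b m t) {j : ℕ} (hj : R ≤ j) : ¬ E1 f k b m t j := by
  obtain ⟨i, rfl⟩ : ∃ i, j = i + R := ⟨j - R, by omega⟩
  have := h _ _ (C.shift i)
  rwa [e1_shift] at this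

/-- Way 1: the four statements (the first one is `Ctx.esc`). -/
theorem noCtx_of_birth {R : ℕ} (B : Birth f k t R) : NoCtx f k t := fun _ _ C => B.false C

/-- Way 2: neither `E0` nor `E1`. -/
theorem noCtx_of_E {R R' : ℕ} (hf : Rule f) (h0 : NoE0 f k t R) (h1 : NoE1 f k t R') : NoCtx f k t := by
  intro b m C
  rcases C.esc hf (R + R') with h | h
  · exact h0.at C (by omega) h
  · exact h1.at C (by omega) h

/-- Way 3: no `E1`, and the strict birth. -/
theorem noCtx_of_sb {R : ℕ} (h1 : NoE1 f k t R) (h : SBirth f k t) : NoCtx f k t := by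
  intro b m C
  refine h _ _ (C.shift R) fun j => ?_
  rw [e1_shift]
  exact h1.at C (by omega)

/-- The tip in the cycle `1`. -/
theorem tip2_of_noCtx (hf : Rule f) (B : NoCtx f k t) (S : StackA f k b m 0 0 0 0 0 1) (ht : t ≤ 2)
    (q0 : Q0 f k b m 0 t) (q4 : Q4 f k b m 0 0) (q2 : Q2 f k b m 0 (t + 1)) : Tip2 f k b m t :=
  tip2_of hf (R := 0) ⟨fun b m C => (B b m C).elim, fun b m C => (B b m C).elim,
    fun b m C => (B b m C).elim, fun b m C => (B b m C).elim⟩ S ht q0 q4 q2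

/-- **`D1.Tips2` from the three statements.** -/
theorem tips2_of_noCtx (hf : Rule f) (B2 : NoCtx f k 2) (B1 : NoCtx f k 1) (B0 : NoCtx f k 0) : Tips2 f k where
  t2 := t2_field hf
  t2a := fun _ _ S q0 q4 q2 => tip2_of_noCtx hf B2 S le_rfl q0 q4 q2
  t2b := fun _ _ S q0 q4 q2 => tip2_of_noCtx hf B1 S (by omega) q0 q4 q2
  t2c := fun _ _ S q0 q4 q2 => tip2_of_noCtx hf B0 S (by omega) q0 q4 q2

/-- **`D1.Steps` from the three statements.** -/
theorem steps_of_noCtx (hf : Rule f) (hk : 8 ≤ k) (B2 : NoCtx f k 2) (B1 : NoCtx f k 1) (B0 : NoCtx f k 0) :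
    Steps f k 0 1 :=
  steps_of hf hk (tips2_of_noCtx hf B2 B1 B0)

end Pool.Agent.SNT.D1
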