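import Pool.Agent.SNT.PND

set_option autoImplicit false

/-! `P_(6 k + 1)` next to the wall in the row `c - 4`, nominal leads (helper33). -/

namespace Pool.Agent.SNT.PN

open Pool.Agent.SNT Pool.Agent.SNT.Loc Pool.Agent.SNT.LW

variable {f : ℕ → ℕ → ℕ → ℕ → Prop} {k c n : ℕ}

def p1nT (j n p q : ℕ) : Bool :=
  decide (j = 6 ∧ n = 1 ∧ q ≤ p + 12 ∧ p + 3 > 0 ∧ (((p + q) % 2 = 1 ∧ p < q + 4 ∧ (p + 1) % 2 = 1) ∨ (q + 3 ≤ p ∧ (p + q + 1) % 4 = 2))) ||
    (decide (j = 8 ∧ n = 3 ∧ q ≤ p + 12 ∧ ((p > 1 ∧ p ≤ q + 1) ∨ (p > 3)) ∧ (((p + q) % 2 = 1 ∧ p < q + 4 ∧ (p + 1) % 2 = 1) ∨ (q + 3 ≤ p ∧ (p + q + 1) % 4 = 2))) ||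
    (decide (j = 1 ∧ n = 1 ∧ p = 1 ∧ q = 1)))

def p1nF (j n p q : ℕ) : Bool :=
  decide (j = 6 ∧ n = 2 ∧ q ≤ p + 12 ∧ ((p + 1 > 0) ∨ (p ≤ q + 4 ∧ p + 2 > 0)) ∧ ¬ (q + 4 ≤ p ∧ (p + q + 2) % 4 = 2))

theorem p1n_chk : check 8 5 6 7 0 1 1 1 0 p1nT p1nF
    178
    0x24303015800016d22025803016d00016d04025783016c80016c84025483016980016984023f83015480015484032683025080025084032703025100025104032983025380025384032a03025400025404032a83025480025484032d03025700025704032d83025780025784032e03025800025804024303015800016d22023f8301548001548401eb0001eb04032683023b80023b84032703023c00023c04032983023e80023e84032a03023f00023f04032a83023f80023f84032d03024200024204032d83024280024284032e03024300024304016d0301d60001d60402540302bd8002bc80032a520329da02540302b98003265202c08002c08402540302bd0002bd04016900016904023f0302bd8002bc80032a520329da023f0302b98003265202c08002c084023f0302bd0002bd04015400015404032d8302428002428102bd8002bc800326c203264a032d8302428002428102bd0002bd04032d03024200024204032a0302b98002b98402428302c08002c084015780015784039780039680039580039080038f80038e80029a8002998002938002928000820003978f03968f03958f03908f038f8f038e8f02c10702c00702ba0702b90702b00702af8702af0702ae8702ac8702ac0702ab8702ab0702a90702a88702a80702a78702a58702a50702a48702a407029a8f02998f02938f02928f01ef0701ee0701e80701e70701c50701c40701be0701bd0700eb0700820f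 = true := by
  decide +kernel

theorem p1n (hf : Rule f) (H : PNH f k c n) :
    ¬ f (6 * k + 1) (c - 4) (2 * n - 4) (2 * n - 2 * k - 2) := by
  by_contra hg
  have hk := H.hk
  have hc := H.hc
  have h4 := H.h4
  have hb := H.hb
  have hN2 := H.hn
  obtain ⟨a0, ha0⟩ : ∃ a0, a0 + 0 = 6 * k := ⟨6 * k - 0, by omega⟩
  obtain ⟨b0, hb0⟩ : ∃ b0, b0 + 5 = c := ⟨c - 5, by omega⟩
  obtain ⟨x0, hx0⟩ : ∃ x0, x0 + 5 = 2 * n := ⟨2 * n - 5, by omega⟩
  obtain ⟨y0, hy0⟩ : ∃ y0, y0 + 3 = 2 * n - 2 * k := ⟨2 * n - 2 * k - 3, by omega⟩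
  refine check_sound hf (a0 := a0) (b0 := b0) (x0 := x0) (y0 := y0) p1n_chk
    ⟨fun h => absurd h (by decide), fun h => absurd h (by decide), fun h => absurd h (by decide),
      by omega, by omega, by omega, by omega⟩ ?_ ?_
  · intro j m p q hr h
    obtain ⟨-, -, hn1, hn2, hp1, hp2, hq1, hq2⟩ := hr
    unfold p1nT at h
    simp only [Bool.or_eq_true, decide_eq_true_eq] at h
    rcases h with h | h | h
    · obtain ⟨⟨rfl, rfl, h1⟩, h2⟩ := h
      exact (WrapC.v0 H.c6 (by omega) (by omega) (by omega) (by omega) (by omega) (by omega) (by omega)).mpr (by omega)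
    · obtain ⟨⟨rfl, rfl, h1⟩, h2⟩ := h
      exact (NW.w0v H.c8 (by omega) (by omega) (by omega) (by omega) (by omega) (by omega) (by omega)).mpr (by omega)
    · obtain ⟨rfl, rfl, rfl, rfl⟩ := h
      exact mv hg (by omega) (by omega) (by omega) (by omega)
  · intro j m p q hr h
    obtain ⟨-, -, hn1, hn2, hp1, hp2, hq1, hq2⟩ := hr
    unfold p1nF at h
    simp only [Bool.or_eq_true, decide_eq_true_eq] at h
    · obtain ⟨⟨rfl, rfl, h1⟩, h2⟩ := h
      exact mt (WrapC.v1 H.c6 (by omega) (by omega) (by omega) (by omega) (by omega) (by omega) (by omega) (by omega)).mp (by omega)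

/-- `P_(6 k + 1)` vanishes in the row `c - 4` at `x` even, `x ≥ 2 n - 4`, `x - y = 2 k - 2`. -/
theorem p1_c4 {b m e10 x y : ℕ} (hf : Rule f) (hs : Side k b m) (S : Stack6 f k b m 0 0 0 0 0 e10)
    (hn : n = m + 9 + (k + 2) * 4) (hx : 2 * n ≤ x + 4) (hx2 : x % 2 = 0) (hy : y + 2 * k = x + 2) :
    ¬ f (6 * k + 1) (b + 18) x y := by
  obtain ⟨i, hi⟩ : ∃ i, x + 4 = 2 * n + 2 * i := ⟨(x + 4 - 2 * n) / 2, by omega⟩
  have H : PNH f k (b + 22) (n + i) := PNH.of_stack hs S hn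
  have hk := hs.1
  have hn2 := H.hn
  exact fun h => p1n hf H (mv h rfl (by omega) (by omega) (by omega))

end Pool.Agent.SNT.PN
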