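import Pool.Agent.SNT.NoP1
import Pool.Agent.SNT.PN_1

set_option autoImplicit false

/-! `P_(6 k + 1)` vanishes in the row `c - 4 = b + 18` for all even `x ≥ 2 n - 4`, `2 ≤ d ≤ 2 k - 2`, with the wall
cell of helper33 (helper26, for `D1.Steps`). -/

namespace Pool.Agent.SNT.NoP1

open Pool.Agent.SNT Pool.Agent.SNT.LW

variable {f : ℕ → ℕ → ℕ → ℕ → Prop} {k b m e10 n : ℕ}

/-- **`P_(6 k + 1)` in the row `c - 4`, `x ≥ 2 n - 4` even, `2 ≤ d ≤ 2 k - 2`**, nominal leads. -/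
theorem noP1_0 (hf : Rule f) (hs : Side k b m) (S : Stack6 f k b m 0 0 0 0 0 e10) (hn : n = m + 9 + (k + 2) * 4)
    {x y : ℕ} (hx : 2 * n ≤ x + 4) (hx2 : x % 2 = 0) (hy2 : y % 2 = 0) (h1 : y + 2 ≤ x) (h2 : x + 2 ≤ y + 2 * k) :
    ¬ f (6 * k + 1) (b + 18) x y :=
  noP1 hf hs S hn hx (by omega) h1 h2 (fun _ hy => PN.p1_c4 hf hs S hn hx hx2 hy)

end Pool.Agent.SNT.NoP1
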