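import Pool.Agent.SNT.Stack6
import Pool.Agent.SNT.LWC

set_option autoImplicit false

/-! The window of the six layers with larger leads. -/

namespace Pool.Agent.SNT

open Pool.Agent.SNT.LW

variable {f : ℕ → ℕ → ℕ → ℕ → Prop}

/-- Monotonicity of the cycle in the bound. -/
theorem Cyc.mono' {a b K K' : ℕ} (C : Cyc f a b K) (h : K ≤ K') : Cyc f a b K' where
  r0 := C.r0.mono h
  r1 := C.r1.mono (by omega)
  r1s := fun h6 x y h1 h2 => C.r1s h6 x y h1 (by omega)
  r2 := C.r2.mono (by omega)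
  r2x := fun x y h1 h2 => C.r2x x y h1 (by omega)
  r2s := fun x y h1 h2 => C.r2s x y h1 (by omega)
  r3 := C.r3.mono (by omega)
  r3s := fun x y h1 h2 => C.r3s x y h1 (by omega)
  r4 := C.r4.mono (by omega)

theorem Side.succ {k b m : ℕ} (h : Side k b m) : Side k b (m + 1) := by
  obtain ⟨h1, h2, h3, h4, h5⟩ := h
  exact ⟨h1, h2, h3, h4, by omega⟩

/-- The window with `m` is a window with `m + 1` and the offsets lowered by one. -/
theorem Stack6.shift {k b m e0 e2 e4 e6 e8 e10 d0 d2 d4 d6 d8 d10 : ℕ}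
    (S : Stack6 f k b m e0 e2 e4 e6 e8 e10) (h0 : e0 ≤ d0 + 1) (h2 : e2 ≤ d2 + 1)
    (h4 : e4 ≤ d4 + 1) (h6 : e6 ≤ d6 + 1) (h8 : e8 ≤ d8 + 1) (h10 : e10 ≤ d10 + 1) :
    Stack6 f k b (m + 1) d0 d2 d4 d6 d8 d10 where
  l0 := fun i => (S.l0 i).mono' (by omega)
  l2 := fun i => (S.l2 i).mono' (by omega)
  l4 := fun i => (S.l4 i).mono' (by omega)
  l6 := fun i => (S.l6 i).mono' (by omega)
  l8 := fun i => (S.l8 i).mono (by omega)
  l10 := fun i => (S.l10 i).mono (by omega)
  lw := fun i hi => (S.lw i hi).mono (Nat.sub_le_sub_right (Nat.mul_le_mul_left 2 (Nat.le_succ m)) _)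
  fr := fun a i x y h1 h2 h3 h4 => S.fr a i x y h1 h2
    (lt_of_le_of_lt (Nat.sub_le_sub_right (Nat.mul_le_mul_left 2 (Nat.le_succ m)) _) h3) h4

/-- The window of the leader `6 k + 8` is a window of the leader `6 k + 10` with `m + 1`. -/
theorem Stack6.of8 {k b m : ℕ} (S : Stack6 f k b m 0 0 0 0 1 1) :
    Stack6 f k b (m + 1) 0 0 0 0 0 1 :=
  S.shift (by omega) (by omega) (by omega) (by omega) (by omega) (by omega)

/-- The window of the leader `6 k + 6` is a window of the leader `6 k + 10` with `m + 1`. -/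
theorem Stack6.of6 {k b m : ℕ} (S : Stack6 f k b m 0 0 0 1 1 1) :
    Stack6 f k b (m + 1) 0 0 0 0 0 1 :=
  S.shift (by omega) (by omega) (by omega) (by omega) (by omega) (by omega)

/-- The window of the leader `6 k + 4` is a window of the leader `6 k + 10` with `m + 1`. -/
theorem Stack6.of4 {k b m : ℕ} (S : Stack6 f k b m 0 0 1 1 1 1) :
    Stack6 f k b (m + 1) 0 0 0 0 0 1 :=
  S.shift (by omega) (by omega) (by omega) (by omega) (by omega) (by omega)

end Pool.Agent.SNT
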