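import Pool.Agent.SNT.D1T0
import Pool.Agent.SNT.D1L0L
import Pool.Agent.SNT.NoP1W
import Pool.Agent.SNT.StackShift

set_option autoImplicit false

/-! The three fields `s0`, `s0a`, `s0b` of `D1.Steps`: the improved leads of the layer `6 k` in the
cycle one, from the strict birth (`D1T.birth0`), the zeros of `P_(6k+1)` (`NoP1`) and the location
step (`D1.loc_c1`). -/

namespace Pool.Agent.SNT.D1

open Pool.Agent.SNT

variable {f : ℕ → ℕ → ℕ → ℕ → Prop} {k b m e8 e10 : ℕ}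

/-- The tip in the cycle one, if `P_(6k+1)` vanishes in the row `c - 4` of the cycle four. -/
theorem tip_c1 (hf : Rule f) {t : ℕ} (S : StackA f k b m 0 0 0 0 e8 e10) (Q : Q0 f k b m 0 (t + 1))
    (P : ∀ x y : ℕ, x + 8 = 2 * nn k m 4 + 2 * t → y % 2 = 0 → y + 2 ≤ x → x + 2 ≤ y + 2 * k →
      ¬ f (6 * k + 1) (b + 4 * 4 + 18) x y) :
    f (6 * k) (b + 4 * 1 + 16) (2 * (nn k m 1 + t - 7) + 3) (2 * (nn k m 1 + t - 7) + 2) := by
  by_contra ht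
  have S1 := S.shift 1
  obtain ⟨hk, hb, h4, hb2, hm⟩ := id S.side
  have hn1 : nn k m 1 = m + (k + 2) * 1 + 9 + (k + 2) * 4 := by unfold nn; ring
  have hn4 : nn k m 4 = m + (k + 2) * 4 + 9 + (k + 2) * 4 := by unfold nn; ring
  obtain ⟨N, hN⟩ : ∃ N, N = nn k m 1 + t - 6 := ⟨_, rfl⟩
  have C : ∀ j : ℕ, Cyc f (6 * k) (b + 4 * 1 + 4 * j + 16) (2 * (N + (k + 2) * j) + 2) := by
    intro j
    have h := Q (1 + j) (by omega)
    have e : nn k m (1 + j) = nn k m 1 + (k + 2) * j := by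
      unfold nn
      ring
    exact cyc_of_eq h (by omega) (by rw [e]; omega)
  obtain ⟨j, h1, h2, h3⟩ := D1T.birth0 hf S1 (N := N) (by omega) C (by
    rw [show 2 * N + 1 = 2 * (nn k m 1 + t - 7) + 3 by omega,
      show 2 * N = 2 * (nn k m 1 + t - 7) + 2 by omega]
    exact ht)
  refine P (2 * (N + 3 * k + 6) + 4) (2 * j + 2) (by omega) (by omega) (by omega) (by omega) ?_
  rw [show b + 4 * 4 + 18 = b + 4 * 1 + 30 by omega]
  exact h3

/-- **`s0`** (with `e8 = 0`). -/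
theorem s0 (hf : Rule f) {t : ℕ} (S : StackA f k b m 0 0 0 0 0 e10) (ht : 2 ≤ t)
    (Q : Q0 f k b m 0 (t + 1)) :
    Cyc f (6 * k) (b + 4 * 1 + 16) (2 * (nn k m 1 + t - 7) + 2) := by
  refine loc_c1 hf S Q (tip_c1 hf S Q ?_)
  intro x y h1 h2 h3 h4
  have S4 := S.shift 4
  have hn4 : nn k m 4 = m + (k + 2) * 4 + 9 + (k + 2) * 4 := by unfold nn; ring
  exact NoP1.noP1_0 hf S4.side S4.stack (n := nn k m 4) hn4 (by omega) (by omega) (by omega)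
    (by omega) (by omega)

/-- **`s0a`** (any `e8`, `e10`). -/
theorem s0a (hf : Rule f) (S : StackA f k b m 0 0 0 0 e8 e10) (q2 : Q2 f k b m 0 2)
    (q0 : Q0 f k b m 0 2) : Cyc f (6 * k) (b + 4 * 1 + 16) (2 * (nn k m 1 + 1 - 7) + 2) := by
  refine loc_c1 hf S q0 (tip_c1 hf S q0 ?_)
  intro x y h1 h2 h3 h4
  have S4 := S.shift 4
  have hn4 : nn k m 4 = m + (k + 2) * 4 + 9 + (k + 2) * 4 := by unfold nn; ring
  refine NoP1.noP1_m6 hf S4.side S4.stack (n := nn k m 4) hn4 ?_ ?_ (by omega) (by omega)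
    (by omega) (by omega)
  · exact cyc_of_eq (q0 4 (by omega)) rfl (by omega)
  · exact cyc_of_eq (q2 4 (by omega)) rfl (by omega)

/-- **`s0b`** (any `e8`, `e10`). -/
theorem s0b (hf : Rule f) (S : StackA f k b m 0 0 0 0 e8 e10) (q2 : Q2 f k b m 0 1)
    (q0 : Q0 f k b m 0 1) : Cyc f (6 * k) (b + 4 * 1 + 16) (2 * (nn k m 1 + 0 - 7) + 2) := by
  refine loc_c1 hf S q0 (tip_c1 hf S q0 ?_)
  intro x y h1 h2 h3 h4
  have S4 := S.shift 4
  have hn4 : nn k m 4 = m + (k + 2) * 4 + 9 + (k + 2) * 4 := by unfold nn; ring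
  refine NoP1.noP1_m8 hf S4.side S4.stack (n := nn k m 4) hn4 ?_ ?_ (by omega) (by omega)
    (by omega) (by omega)
  · exact (q0 4 (by omega)).mono' (by omega)
  · exact cyc_of_eq (q2 4 (by omega)) rfl (by omega)

/-- The three fields of `D1.Steps f k 0 e10`, literally. -/
theorem fields0 (hf : Rule f) (k e10 : ℕ) :
    (∀ b m t : ℕ, StackA f k b m 0 0 0 0 0 e10 → 2 ≤ t → t + 3 ≤ k →
      Q0 f k b m 0 (t + 1) → Cyc f (6 * k) (b + 4 * 1 + 16) (2 * (nn k m 1 + t - 7) + 2)) ∧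
    (∀ b m : ℕ, StackA f k b m 0 0 0 0 0 e10 →
      Q2 f k b m 0 2 → Q4 f k b m 0 0 → Q0 f k b m 0 2 →
      Cyc f (6 * k) (b + 4 * 1 + 16) (2 * (nn k m 1 + 1 - 7) + 2)) ∧
    (∀ b m : ℕ, StackA f k b m 0 0 0 0 0 e10 →
      Q2 f k b m 0 1 → Q4 f k b m 0 0 → Q0 f k b m 0 1 →
      Cyc f (6 * k) (b + 4 * 1 + 16) (2 * (nn k m 1 + 0 - 7) + 2)) :=
  ⟨fun _ _ _ S ht _ Q => s0 hf S ht Q, fun _ _ S q2 _ q0 => s0a hf S q2 q0,
    fun _ _ S q2 _ q0 => s0b hf S q2 q0⟩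

end Pool.Agent.SNT.D1
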