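import Pool.Agent.SNT.D1L4
import Pool.Agent.SNT.W4_win

set_option autoImplicit false

/-! The improved lead of the layer `6 k + 4` below the top leader: the tip of the leads `n + l`, `l ≥ 2`, is
present. -/

namespace Pool.Agent.SNT.NHZ

open Pool.Agent.SNT Pool.Agent.SNT.Sig

variable {f : ℕ → ℕ → ℕ → ℕ → Prop} {k b m : ℕ}

/-- **The tip of `6 k + 4` in the IN row `c - 2 = b + 20`**: with the lead `n + l`, `l ≥ 2`, the tip is present. -/
theorem d1l4_tip' (hf : Rule f) (hs : Side k b m) (S : Stack6 f k b m 0 0 0 0 0 1) {n l : ℕ}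
    (hn : n = m + 9 + (k + 2) * 4) (C0 : Cyc f (6 * k) (b + 16) (2 * (n - 5) + 2))
    (C2 : Cyc f (6 * k + 2) (b + 18) (2 * (n - 2) + 2)) (hl : 2 ≤ l)
    (C4 : Cyc f (6 * k + 4) (b + 20) (2 * (n + l) + 2)) :
    f (6 * k + 4) (b + 20) (2 * (n + l) + 1) (2 * (n + l)) := by
  have hs' := hs
  obtain ⟨hk, hb, h4, hb2, hm⟩ := hs'
  refine d1l4_tip hf hs S (l := n + l) (by omega) ?_
  intro hz y hy
  obtain ⟨y', rfl⟩ : ∃ y', y = y' + 4 := ⟨y - 4, by omega⟩
  have h := W4.w4 hf hs S hn C0 C2 hl C4 (x := 2 * (n + l) + 1) (y := y') rfl (by omega)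
    (hz _ (by omega) (by omega) (by omega)) (hz _ (by omega) (by omega) (by omega))
    (hz _ (by omega) (by omega) (by omega))
  exact h

end Pool.Agent.SNT.NHZ
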