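import Pool.Agent.SNT.LocR2

set_option autoImplicit false

/-! Location from below: the dirty cycle, the strip of the row `b + 2`, when nothing is known about
the layer `A + 2` but the odd layer below is known in the whole strip beyond the column `2 n + 3`. -/

namespace Pool.Agent.SNT

variable {f : ℕ → ℕ → ℕ → ℕ → Prop}

namespace LocZ

open TipI

/-- The odd layer below in the OUT row, inside the strip. -/
def P2s (f : ℕ → ℕ → ℕ → ℕ → Prop) (A b n : ℕ) : Prop :=
  ∀ u v : ℕ, v ≤ u → u ≤ v + 2 * (A / 6) → 2 * n + 3 < u →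
    (f (A - 1) (b + 2) u v ↔ Fst (A - 1) (b + 2) u v)

namespace DH

variable {A b n : ℕ}

theorem Yz (hf : Rule f) (H : DH f A b n) (hi : P2s f A b n) {x : ℕ} (hx2 : x % 2 = 1)
    (hx : 2 * n + 3 ≤ x) (hd : x + 1 ≤ 2 * n + 2 + 2 * (A / 6)) :
    ¬ f A (b + 2) x (2 * n + 2) := by
  have h1 := H.hA; have h2 := H.hb2; have h3 := H.h4; have h4 := H.hAb; have h5 := H.hn
  have h6 := H.h6
  rcases Nat.lt_or_ge x (2 * n + 5) with h | h
  · have e : x = 2 * n + 3 := by omega
    subst e
    exact kill hf (H.diag1 hf) (by omega) (by omega) (by omega) (by omega) (by omega)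
  · refine S2_Y hf (a := A) (b := b + 2) (K := 2 * n + 2) (by omega) h1 (by omega) (by omega)
      (by omega) (by omega) ?_ ((2 * n + 2 + 2 * (A / 6) - 1 - x) / 2) x (2 * n + 2) (by omega)
      (by omega) hx2 (by omega) (by omega)
    intro u v hd' hu p q hp hq hpq hpa hqb
    rcases Nat.eq_zero_or_pos p with hp0 | hp0
    · subst hp0
      have hq1 : q = 1 := by omega
      subst hq1
      exact H.r1s hf u v hd' (by omega)
    · have hp1 : p = 1 := by omega
      subst hp1
      rcases Nat.eq_zero_or_pos q with hq0 | hq0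
      · subst hq0
        rcases le_total v u with h7 | h7
        · exact hi u v h7 (by omega) (by omega)
        · rw [hf.swap_xy, Fst_swap_xy]
          exact hi v u h7 (by omega) (by omega)
      · have hq1 : q = 1 := by omega
        subst hq1
        exact H.p1 u v (by omega)

theorem line3 (hf : Rule f) (H : DH f A b n) (hi : P2s f A b n) : ∀ t : ℕ,
    2 * n + 4 + 2 * t + 1 ≤ 2 * n + 3 + 2 * (A / 6) →
      f A (b + 2) (2 * n + 4 + 2 * t) (2 * n + 3) := by
  have h1 := H.hA; have h2 := H.hb2; have h3 := H.h4; have h4 := H.hAb; have h5 := H.hn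
  have h6 := H.h6
  intro t
  induction t with
  | zero =>
    intro hd
    by_contra hno
    obtain ⟨p, q, r, s, hp, hq, hr, hs, hsum, hpa, hqb, hrx, hsy, hone⟩ :=
      hf.exists_pred (by omega) hno
    rcases Nat.eq_zero_or_pos p with hp0 | hp0
    · subst hp0
      rw [Nat.sub_zero] at hone
      rcases Nat.eq_zero_or_pos q with hq0 | hq0
      · subst hq0
        rw [Nat.sub_zero] at hone
        have hrs : (r = 0 ∧ s = 1) ∨ (r = 1 ∧ s = 0) ∨ (r = 1 ∧ s = 1) := by omega
        rcases hrs with ⟨rfl, rfl⟩ | ⟨rfl, rfl⟩ | ⟨rfl, rfl⟩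
        · exact hf.not_allEven hone (by omega)
        · exact kill hf (H.diag1 hf) (a' := A) (b' := b + 2) (x' := 2 * n + 4 + 2 * 0 - 1)
            (y' := 2 * n + 3 - 0) (by omega) (by omega) (by omega) (by omega) (by omega) hone
        · exact H.Yz hf hi (x := 2 * n + 4 + 2 * 0 - 1) (by omega) (by omega) (by omega)
            hone
      · have hq1 : b + 2 - q = b + 1 := by omega
        rw [hq1, H.r1s hf _ _ (by omega) (by omega),
          fst_three h1 (by omega) (by omega) (by omega) (by omega)] at hone
        omega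
    · have hp1 : p = 1 := by omega
      subst hp1
      rcases Nat.eq_zero_or_pos q with hq0 | hq0
      · subst hq0
        rw [Nat.sub_zero, H.p2b _ _ (by omega) (by omega)] at hone
        exact Fst_near_odd (by omega) (by omega) hone
      · have hq1 : b + 2 - q = b + 1 := by omega
        rw [hq1, H.p1 _ _ (by omega)] at hone
        exact Fst_near_odd (by omega) (by omega) hone
  | succ t ih =>
    intro hd
    have ih' := ih (by omega)
    by_contra hno
    obtain ⟨p, q, r, s, hp, hq, hr, hs, hsum, hpa, hqb, hrx, hsy, hone⟩ :=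
      hf.exists_pred (by omega) hno
    rcases Nat.eq_zero_or_pos p with hp0 | hp0
    · subst hp0
      rw [Nat.sub_zero] at hone
      rcases Nat.eq_zero_or_pos q with hq0 | hq0
      · subst hq0
        rw [Nat.sub_zero] at hone
        have hrs : (r = 0 ∧ s = 1) ∨ (r = 1 ∧ s = 0) ∨ (r = 1 ∧ s = 1) := by omega
        rcases hrs with ⟨rfl, rfl⟩ | ⟨rfl, rfl⟩ | ⟨rfl, rfl⟩
        · exact hf.not_allEven hone (by omega)
        · exact kill hf ih' (a' := A) (b' := b + 2) (x' := 2 * n + 4 + 2 * (t + 1) - 1)
            (y' := 2 * n + 3 - 0) (by omega) (by omega) (by omega) (by omega) (by omega) hone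
        · exact H.Yz hf hi (x := 2 * n + 4 + 2 * (t + 1) - 1) (by omega) (by omega) (by omega)
            hone
      · have hq1 : b + 2 - q = b + 1 := by omega
        rw [hq1, H.r1s hf _ _ (by omega) (by omega),
          fst_three h1 (by omega) (by omega) (by omega) (by omega)] at hone
        omega
    · have hp1 : p = 1 := by omega
      subst hp1
      rcases Nat.eq_zero_or_pos q with hq0 | hq0
      · subst hq0
        rw [Nat.sub_zero, H.p2b _ _ (by omega) (by omega)] at hone
        exact Fst_near_odd (by omega) (by omega) hone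
      · have hq1 : b + 2 - q = b + 1 := by omega
        rw [hq1, H.p1 _ _ (by omega)] at hone
        exact Fst_near_odd (by omega) (by omega) hone

theorem r2s3 (hf : Rule f) (H : DH f A b n) (hi : P2s f A b n) : ∀ x y : ℕ,
    max x y + 1 ≤ min x y + 2 * (A / 6) → 2 * n + 1 < min x y →
      (f A (b + 2) x y ↔ Fst A (b + 2) x y) := by
  have h1 := H.hA; have h2 := H.hb2; have h3 := H.h4; have h4 := H.hAb; have h5 := H.hn
  have h6 := H.h6
  intro x y h7 h8
  rcases Nat.lt_or_ge (2 * n + 3) (min x y) with h9 | h9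
  · exact H.C.r2s x y h7 (by omega)
  refine all_of_half hf (P := fun x y => x + 1 ≤ y + 2 * (A / 6) ∧ 2 * n + 1 < y ∧
    y ≤ 2 * n + 3) ?_ x y ⟨h7, h8, h9⟩
  intro x y hyx hP
  obtain ⟨hd, hy, hy3⟩ := hP
  have hl : ∀ u : ℕ, u % 2 = 0 → 2 * n + 4 ≤ u → u + 1 ≤ 2 * n + 3 + 2 * (A / 6) →
      f A (b + 2) u (2 * n + 3) := by
    intro u hu2 hu hud
    have h10 := H.line3 hf hi ((u - (2 * n + 4)) / 2) (by omega)
    have e : 2 * n + 4 + 2 * ((u - (2 * n + 4)) / 2) = u := by omega
    rw [e] at h10
    exact h10
  have hyy : y = 2 * n + 2 ∨ y = 2 * n + 3 := by omega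
  rw [fst_zero h1 (by omega) hyx (by omega)]
  rcases hyy with rfl | rfl
  · rcases Nat.mod_two_eq_zero_or_one x with hx2 | hx2
    · refine iff_of_false ?_ (by omega)
      intro h
      exact hf.not_allEven h (by omega)
    · refine iff_of_false ?_ (by omega)
      exact H.Yz hf hi hx2 (by omega) hd
  · rcases Nat.mod_two_eq_zero_or_one x with hx2 | hx2
    · refine iff_of_true ?_ (by omega)
      exact hl x hx2 (by omega) hd
    · refine iff_of_false ?_ (by omega)
      rcases Nat.eq_or_lt_of_le hyx with h10 | h10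
      · subst h10
        exact kill hf (H.diag1 hf) (by omega) (by omega) (by omega) (by omega) (by omega)
      · exact kill hf (hl (x - 1) (by omega) (by omega) (by omega)) (by omega) (by omega)
          (by omega) (by omega) (by omega)

/-- THE DIRTY CYCLE. -/
theorem cy33 (hf : Rule f) (H : DH f A b n) (hi : P2s f A b n) : Cy3 f A b (2 * n) := by
  have h1 := H.hA; have h2 := H.hb2; have h3 := H.h4; have h4 := H.hAb; have h5 := H.hn
  have h6 := H.h6
  have hcc : cc A = 2 * (A / 6) := by
    unfold cc
    omega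
  have r2 : St f A (b + 2) (2 * n + cc A) := by
    intro x y hxy
    rw [hcc] at hxy
    rcases Nat.lt_or_ge (max x y) (min x y + 2 * (A / 6)) with h7 | h7
    · exact H.r2s3 hf hi x y (by omega) (by omega)
    · exact H.r2x hf x y h7 (by omega)
  refine ⟨H.r0, H.r1 hf, fun _ => H.r1s hf, r2, H.r2x hf, H.r2s3 hf hi, ?_, ?_⟩
  · rw [hcc] at r2 ⊢
    refine QF_even_flat hf (by omega) (by omega) (by omega) ?_ (Or.inr (by omega))
    intro x y hxy p q hp hq hpq hpa hqb
    rcases Nat.eq_zero_or_pos p with hp0 | hp0
    · subst hp0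
      have hq1 : q = 1 := by omega
      subst hq1
      exact r2 x y hxy
    · have hp1 : p = 1 := by omega
      subst hp1
      rcases Nat.eq_zero_or_pos q with hq0 | hq0
      · subst hq0
        exact H.p3 x y (by omega)
      · have hq1 : q = 1 := by omega
        subst hq1
        have e : b + 3 - 1 = b + 2 := by omega
        rw [e]
        have key : ∀ u v : ℕ, v ≤ u → 2 * n + 2 * (A / 6) < u →
            (f (A - 1) (b + 2) u v ↔ Fst (A - 1) (b + 2) u v) := by
          intro u v huv hu
          rcases Nat.lt_or_ge (2 * n + 1) v with h7 | h7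
          · exact H.p2b u v huv h7
          · exact H.p2a u v huv (by omega) (by omega)
        rcases le_total y x with h | h
        · exact key x y h (by omega)
        · rw [hf.swap_xy, Fst_swap_xy]
          exact key y x h (by omega)
  · intro x y h7 h8
    refine all_of_half hf (P := fun x y => x + 1 ≤ y + 2 * (A / 6) ∧ 2 * n + 3 < y) ?_ x y ⟨h7, h8⟩
    intro x y hyx hP
    refine S3' hf (K := 2 * n) (by omega) h1 (by omega) (by omega) (by omega) (by omega) (by omega)
      ?_ (H.r2s3 hf hi) hyx hP.1 hP.2
    intro u v q huv hq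
    rcases Nat.eq_zero_or_pos q with hq0 | hq0
    · subst hq0
      exact H.p3 u v (by omega)
    · have hq1 : q = 1 := by omega
      subst hq1
      have e : b + 3 - 1 = b + 2 := by omega
      rw [e]
      rcases le_total v u with h | h
      · exact H.p2b u v h (by omega)
      · rw [hf.swap_xy, Fst_swap_xy]
        exact H.p2b v u h (by omega)

end DH

end LocZ

end Pool.Agent.SNT
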