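import Pool.Agent.SNT.LocD2

set_option autoImplicit false

/-! Location: sandwiches, and the forcing of a row in the exterior near zone. -/

namespace Pool.Agent.SNT

variable {f : ℕ → ℕ → ℕ → ℕ → Prop}

namespace LocG

open TipI

/-- Between a one and a cell three rows above there is an unmasked cell. -/
theorem sand_b (hf : Rule f) {a b x y : ℕ} (h : f a b x y)
    (hm : ¬ ((a + 1) % 2 = 0 ∧ (b + 2) % 2 = 0 ∧ (x + 1) % 2 = 0 ∧ (y + 1) % 2 = 0)) :
    ¬ f (a + 1) (b + 3) (x + 1) (y + 1) := by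
  intro h3
  have h2 : ¬ f (a + 1) (b + 2) (x + 1) (y + 1) := by
    intro h2
    exact kill hf h2 (by omega) (by omega) (by omega) (by omega) (by omega) h3
  obtain ⟨p, q, r, s, hp, hq, hr, hs, hsum, hpa, hqb, hrx, hsy, hone⟩ := hf.exists_pred hm h2
  rcases Nat.eq_zero_or_pos q with hq0 | hq0
  · subst hq0
    exact kill hf hone (a' := a + 1) (b' := b + 3) (x' := x + 1) (y' := y + 1)
      (by omega) (by omega) (by omega) (by omega) (by omega) h3
  · exact kill hf h (by omega) (by omega) (by omega) (by omega) (by omega) hone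

/-- Between a one and a cell three lines above there is an unmasked cell. -/
theorem sand_y (hf : Rule f) {a b x y : ℕ} (h : f a b x y)
    (hm : ¬ ((a + 1) % 2 = 0 ∧ (b + 1) % 2 = 0 ∧ (x + 1) % 2 = 0 ∧ (y + 2) % 2 = 0)) :
    ¬ f (a + 1) (b + 1) (x + 1) (y + 3) := by
  intro h3
  have h2 : ¬ f (a + 1) (b + 1) (x + 1) (y + 2) := by
    intro h2
    exact kill hf h2 (by omega) (by omega) (by omega) (by omega) (by omega) h3
  obtain ⟨p, q, r, s, hp, hq, hr, hs, hsum, hpa, hqb, hrx, hsy, hone⟩ := hf.exists_pred hm h2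
  rcases Nat.eq_zero_or_pos s with hs0 | hs0
  · subst hs0
    exact kill hf hone (a' := a + 1) (b' := b + 1) (x' := x + 1) (y' := y + 3)
      (by omega) (by omega) (by omega) (by omega) (by omega) h3
  · exact kill hf h (by omega) (by omega) (by omega) (by omega) (by omega) hone

theorem sand_x (hf : Rule f) {a b x y : ℕ} (h : f a b x y)
    (hm : ¬ ((a + 1) % 2 = 0 ∧ (b + 1) % 2 = 0 ∧ (x + 2) % 2 = 0 ∧ (y + 1) % 2 = 0)) :
    ¬ f (a + 1) (b + 1) (x + 3) (y + 1) := by
  rw [hf.swap_xy] at h ⊢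
  exact sand_y hf h (by omega)

/-- `Fst` of an even layer in the exterior near zone: the sum modulo `4`. -/
theorem fst_ext {a b x y : ℕ} (ha : a % 2 = 0) (h6 : 6 ≤ a) (hyx : y ≤ x)
    (hn : x + a + 12 ≤ b + y)
    (hd : y + 2 * (a / 6) ≤ x ∨ (y + 2 * (a / 6) ≤ x + 1 ∧ (a + b) % 2 = 0)) :
    Fst a b x y ↔ (a + b + x + y) % 4 = (1 + 2 * (a / 6)) % 4 := by
  rw [Fst_near ha (by omega)]
  unfold NF
  rw [max_eq_left hyx, min_eq_right hyx]
  have h1 : 1 ≤ a / 6 := by omega
  generalize a / 6 = h at h1 hd ⊢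
  omega

/-- THE EXTERIOR FORCING: the row `b - 1` is static from the column `x - 2` on at the distances
from `D` on, and the odd layer below is zero at the predecessors of the ones. -/
theorem ext_gen (hf : Rule f) {a b D x y : ℕ} (ha : a % 2 = 0) (h6 : 6 ≤ a) (hyx : y ≤ x)
    (hn : x + a + 20 ≤ b + y) (hy : 4 ≤ y)
    (hD : 2 * (a / 6) ≤ D ∨ (2 * (a / 6) ≤ D + 1 ∧ (a + b) % 2 = 1))
    (hd : y + D + 1 ≤ x)
    (hrow : ∀ u v : ℕ, x ≤ u + 2 → u ≤ x → v + D ≤ u → u + y ≤ v + x + 1 →
      (f a (b - 1) u v ↔ Fst a (b - 1) u v))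
    (hP : (a + b + x + y) % 4 = (1 + 2 * (a / 6)) % 4 → ∀ q r s : ℕ, q ≤ 1 → r ≤ 1 → s ≤ 1 →
      ¬ f (a - 1) (b - q) (x - r) (y - s)) :
    f a b x y ↔ Fst a b x y := by
  have h1 : 1 ≤ a / 6 := by omega
  obtain ⟨h, hh⟩ : ∃ h, h = a / 6 := ⟨_, rfl⟩
  rw [← hh] at hD h1
  rw [fst_ext ha h6 hyx (by omega) (by omega)]
  -- a one of the row below
  have one : ∀ u v : ℕ, x ≤ u + 2 → u ≤ x → v + D ≤ u → u + y ≤ v + x + 1 →
      (a + (b - 1) + u + v) % 4 = (1 + 2 * h) % 4 → f a (b - 1) u v := by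
    intro u v h2 h3 h4 h5 h7
    rw [hrow u v h2 h3 h4 h5, fst_ext ha h6 (by omega) (by omega) (by omega)]
    omega
  have zero : ∀ u v : ℕ, x ≤ u + 2 → u ≤ x → v + D ≤ u → u + y ≤ v + x + 1 →
      (a + (b - 1) + u + v) % 4 ≠ (1 + 2 * h) % 4 → ¬ f a (b - 1) u v := by
    intro u v h2 h3 h4 h5 h7
    rw [hrow u v h2 h3 h4 h5, fst_ext ha h6 (by omega) (by omega) (by omega)]
    omega
  rcases (show (a + b + x + y) % 4 = (1 + 2 * h) % 4 ∨ (a + b + x + y) % 4 = (2 + 2 * h) % 4 ∨
    (a + b + x + y) % 4 = (3 + 2 * h) % 4 ∨ (a + b + x + y) % 4 = (2 * h) % 4 by omega)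
    with hc | hc | hc | hc
  · rw [← hh]
    refine iff_of_true ?_ hc
    have hP' := hP (by rw [← hh]; exact hc)
    by_contra hno
    obtain ⟨p, q, r, s, hp, hq, hr, hs, hsum, hpa, hqb, hrx, hsy, hone⟩ :=
      hf.exists_pred (by omega) hno
    rcases Nat.eq_zero_or_pos p with hp0 | hp0
    · subst hp0
      rw [Nat.sub_zero] at hone
      rcases Nat.eq_zero_or_pos q with hq0 | hq0
      · subst hq0
        rw [Nat.sub_zero] at hone
        have hrs : (r = 1 ∧ s = 0) ∨ (r = 0 ∧ s = 1) ∨ (r = 1 ∧ s = 1) := by omega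
        rcases hrs with ⟨rfl, rfl⟩ | ⟨rfl, rfl⟩ | ⟨rfl, rfl⟩
        · exact kill hf (one (x - 2) (y - 1) (by omega) (by omega) (by omega) (by omega)
            (by omega)) (by omega) (by omega) (by omega) (by omega) (by omega) hone
        · exact kill hf (one (x - 1) (y - 2) (by omega) (by omega) (by omega) (by omega)
            (by omega)) (by omega) (by omega) (by omega) (by omega) (by omega) hone
        · exact kill hf (one (x - 1) (y - 2) (by omega) (by omega) (by omega) (by omega)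
            (by omega)) (by omega) (by omega) (by omega) (by omega) (by omega) hone
      · have hq1 : q = 1 := by omega
        subst hq1
        exact zero (x - r) (y - s) (by omega) (by omega) (by omega) (by omega) (by omega) hone
    · have hp1 : p = 1 := by omega
      subst hp1
      exact hP' q r s hq hr hs hone
  · rw [← hh]
    refine iff_of_false ?_ (by omega)
    exact kill hf (one x y (by omega) (by omega) (by omega) (by omega) (by omega))
      (by omega) (by omega) (by omega) (by omega) (by omega)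
  · rw [← hh]
    refine iff_of_false ?_ (by omega)
    exact kill hf (one x (y - 1) (by omega) (by omega) (by omega) (by omega) (by omega))
      (by omega) (by omega) (by omega) (by omega) (by omega)
  · rw [← hh]
    refine iff_of_false ?_ (by omega)
    exact kill hf (one (x - 1) (y - 1) (by omega) (by omega) (by omega) (by omega) (by omega))
      (by omega) (by omega) (by omega) (by omega) (by omega)

/-- The distance `2 h` in an even row. -/
theorem ext_wall (hf : Rule f) {a b x y : ℕ} (ha : a % 2 = 0) (h6 : 6 ≤ a)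
    (hn : x + a + 20 ≤ b + y) (hy : 4 ≤ y) (hab : (a + b) % 2 = 0)
    (hd : x = y + 2 * (a / 6))
    (hrow : ∀ u v : ℕ, x ≤ u + 1 → u ≤ x → u = v + 2 * (a / 6) →
      (f a (b - 1) u v ↔ Fst a (b - 1) u v)) :
    f a b x y ↔ Fst a b x y := by
  have h1 : 1 ≤ a / 6 := by omega
  obtain ⟨h, hh⟩ : ∃ h, h = a / 6 := ⟨_, rfl⟩
  rw [← hh] at hd h1
  rw [fst_ext ha h6 (by omega) (by omega) (by omega), ← hh]
  have one : ∀ u v : ℕ, x ≤ u + 1 → u ≤ x → u = v + 2 * h →
      (a + (b - 1) + u + v) % 4 = (1 + 2 * h) % 4 → f a (b - 1) u v := by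
    intro u v h2 h3 h4 h7
    rw [hrow u v h2 h3 (by omega), fst_ext ha h6 (by omega) (by omega) (by omega)]
    omega
  refine iff_of_false ?_ (by omega)
  rcases (show (a + b + x + y) % 4 = (2 + 2 * h) % 4 ∨ (a + b + x + y) % 4 = (2 * h) % 4 by omega)
    with hc | hc
  · exact kill hf (one x y (by omega) (by omega) (by omega) (by omega))
      (by omega) (by omega) (by omega) (by omega) (by omega)
  · exact kill hf (one (x - 1) (y - 1) (by omega) (by omega) (by omega) (by omega))
      (by omega) (by omega) (by omega) (by omega) (by omega)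

end LocG

end Pool.Agent.SNT
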