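import Pool.Agent.SNT.ZG
import Pool.Agent.SNT.LocD3
import Pool.Agent.SNT.IsoLocB
import Pool.Agent.SNT.NHZoneU
import Pool.Agent.SNT.LocR2f
import Pool.Agent.SNT.LocG

set_option autoImplicit false

/-! The location step of the layer `6 k + 2` with the improved leads. -/

namespace Pool.Agent.SNT

variable {f : ℕ → ℕ → ℕ → ℕ → Prop}

namespace D1

open LocZ LocG TipI NHZ

/-- The two wall cells of `P_(6 k + 1)` in the IN row `c - 2` of `6 k`. -/
def Wall2 (f : ℕ → ℕ → ℕ → ℕ → Prop) (k b N : ℕ) : Prop :=
  ∀ x y : ℕ, x % 2 = 0 → 2 * N + 4 ≤ x → (y + 2 * k = x + 4 ∨ y + 2 * k = x + 2) →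
    ¬ f (6 * k + 1) (b + 20) x y

/-- The zones over the isolated layer `6 k` with an improved lead. -/
theorem zg_zero (hf : Rule f) {k b m e2 e4 e6 e8 e10 : ℕ} (hs : Side k b m)
    (S : Stack6 f k b m 0 e2 e4 e6 e8 e10) {N : ℕ} (hN : m + 9 + (k + 2) * 4 ≤ N + 4)
    (C0 : Cyc f (6 * k) (b + 16) (2 * N - 4)) :
    ZG f (6 * k) (b + 12) (2 * N - 4) (2 * m - (100 * k + 1000)) (b / 2 + 1) := by
  obtain ⟨hk, hb2, hb, hkb, hbm⟩ := hs
  have e6k : 6 * k / 6 = k := by omega
  have hCp := S.l0 3
  refine ⟨by omega, by omega, by omega, by omega, by omega, by omega, by omega, by omega,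
    by omega, by omega, ?_, C0, ?_, ?_⟩
  · intro x y hd hx hT hF
    rw [e6k] at hd
    have hst : f (6 * k) (b + 15) x y ↔ Fst (6 * k) (b + 15) x y := by
      refine ext_gen hf (D := 2 * k) (by omega) (by omega) (by omega) (by omega) (by omega)
        (by rw [e6k]; omega) (by omega) ?_ ?_
      · intro u v h7 h8 h9 h10
        have e : b + 15 - 1 = b + 4 * 3 + 2 := by omega
        rw [e]
        exact hCp.r2x u v (by rw [e6k]; omega) (by omega)
      · intro _ q r s hq hr hs'
        have h1 := S.lw (15 - q) (by omega)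
        have e : b + 15 - q = b + (15 - q) := by omega
        rw [e, h1 _ _ (by omega)]
        exact Fst_near_odd (by omega) (by omega)
    exact hst.2 hF
  · intro i hi
    have := S.lw (12 + i) (by omega)
    rwa [← Nat.add_assoc] at this
  · intro i hi
    have := S6.fr_of S (a := 6 * k + 1) (i := 12 + i) (T := b / 2 + 1) (by omega) (by omega)
      (by omega)
    rwa [← Nat.add_assoc] at this

/-- THE LOCATION STEP of `6 k + 2`: the tip of the in-line `N` of the row `c - 4` is present. -/
theorem loc2 (hf : Rule f) {k b m : ℕ} (hs : Side k b m)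
    (S : Stack6 f k b m 0 0 0 0 0 1) {N : ℕ} (hN : m + 9 + (k + 2) * 4 ≤ N + 4)
    (C0 : Cyc f (6 * k) (b + 16) (2 * N - 4))
    (C2 : Cyc f (6 * k + 2) (b + 18) (2 * N + 2))
    (W : St f (6 * k + 2) (b + 18) (2 * N) → Wall2 f k b N)
    (tip : f (6 * k + 2) (b + 18) (2 * N + 1) (2 * N)) :
    Cy3 f (6 * k + 2) (b + 18) (2 * N) := by
  have Z := zg_zero hf hs S hN C0
  have T := NHT.of_stack hs S
  obtain ⟨hk, hb2, hb, hkb, hbm⟩ := hs
  have e6k : 6 * k / 6 = k := by omega
  have e6k2 : (6 * k + 2) / 6 = k := by omega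
  have hsub : 6 * k + 2 - 1 = 6 * k + 1 := by omega
  have C0p := S.l0 3
  have C2p := S.l2 3
  have C4p := S.l4 4
  have hXN : 2 * m - (100 * k + 1000) + 6 ≤ 2 * N := by omega
  -- zero cells
  have zf : ∀ r x y : ℕ, b + 12 ≤ r → r ≤ b + 21 → y ≤ x → x ≤ y + 2 * k + 20 →
      (f (6 * k + 1) r x y ↔ Fst (6 * k + 1) r x y) → ¬ f (6 * k + 1) r x y := by
    intro r x y hr1 hr2 hyx hd h
    rw [h]
    exact Fst_near_odd (by omega) (by omega)
  -- the IN row
  have hyp : IsoB.Hyp f (6 * k + 2) (b + 14) N (2 * (m + k + 2 + 0 + (k + 2) * 3) + 2 + 1) := by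
    refine IsoB.Hyp.of_cyc (by omega) ?_ (by omega) ?_ ?_ ?_ ?_ ?_
    · convert C2p using 1
    · intro x y hd hx
      rw [e6k2] at hd
      rw [hsub]
      exact Z.in4 hf (by rw [e6k]; omega) (by omega)
    · intro x y hd hx
      rw [hsub]
      exact Z.odd hf (i := 5) (by omega) (by omega) x y (by omega)
    · intro x y hyx hx
      rw [hsub]
      exact Z.out6 hf x y (by omega)
    · intro i x y hi1 hi3 hyx hd hx1 hx2
      rw [e6k2] at hd
      rw [hsub]
      rcases (show i = 1 ∨ i = 2 ∨ i = 3 by omega) with rfl | rfl | rfl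
      · exact zf _ _ _ (by omega) (by omega) hyx (by omega)
          (Z.odd hf (i := 3) (by omega) (by omega) x y (by omega))
      · by_cases hE : x % 2 = 0 ∧ y % 2 = 0
        swap
        · exact Z.eo hf (i := 4) (by omega) (by omega) (by omega) (by omega) (by omega)
        obtain ⟨hx', hy'⟩ := hE
        rcases Nat.lt_or_ge x (y + 2 * k) with hd2 | hd2
        swap
        · exact zf _ _ _ (by omega) (by omega) hyx (by omega)
            (Z.in4 hf (by rw [e6k]; omega) (by omega))
        rcases Nat.eq_or_lt_of_le hyx with h0 | h0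
        · subst h0
          have hd1 : f (6 * k) (b + 15) (y - 1) (y - 1) := by
            have e : b + 15 = b + 4 * 3 + 3 := by omega
            rw [e, C0p.r3s _ _ (by rw [e6k]; omega) (by omega), Fst_odd (by omega) (by omega)
              (by omega) le_rfl (by rw [e6k]; omega)]
            omega
          exact kill hf hd1 (by omega) (by omega) (by omega) (by omega) (by omega)
        · have hc : f (6 * k) (b + 16) (x - 1) y := by
            rw [C0.r0 (x - 1) y (by omega), Fst_II (by omega) (by omega) (by omega) (by omega)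
              (by omega) (by rw [e6k]; omega)]
            omega
          exact kill hf hc (by omega) (by omega) (by omega) (by omega) (by omega)
      · exact zf _ _ _ (by omega) (by omega) hyx (by omega)
          (Z.odd hf (i := 5) (by omega) (by omega) x y (by omega))
    · intro i x y hi1 hi2 hyx hd hx1 hx2 h
      rw [e6k2] at hd
      have e4 : (6 * k + 4) / 6 = k := by omega
      have one : ∀ u v : ℕ, v < u → u + 1 ≤ v + 2 * k → 2 * N ≤ u + 2 → u % 2 = 1 → v % 2 = 0 →
          f (6 * k + 4) (b + 16) u v := by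
        intro u v h1 h2 h3 h4 h5
        have e : b + 16 = b + 4 * 4 := by omega
        rw [e, C4p.r0 u v (by omega), Fst_II (by omega) (by omega) (by omega) (by omega)
          (by omega) (by rw [e4]; omega)]
        omega
      have hk2 : ∀ u v : ℕ, x ≤ u → u ≤ x + 1 → y ≤ v → v ≤ y + 1 →
          f (6 * k + 4) (b + 16) u v → False := by
        intro u v h1 h2 h3 h4 h5
        exact kill hf h (by omega) (by omega) ⟨h1, h2⟩ ⟨h3, h4⟩ (by omega) h5
      rcases Nat.mod_two_eq_zero_or_one x with hx' | hx' <;>
        rcases Nat.mod_two_eq_zero_or_one y with hy' | hy'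
      · exact hk2 (x + 1) y (by omega) (by omega) (by omega) (by omega)
          (one _ _ (by omega) (by omega) (by omega) (by omega) (by omega))
      · exact hk2 (x + 1) (y + 1) (by omega) (by omega) (by omega) (by omega)
          (one _ _ (by omega) (by omega) (by omega) (by omega) (by omega))
      · exact hk2 x y (by omega) (by omega) (by omega) (by omega)
          (one _ _ (by omega) (by omega) (by omega) (by omega) (by omega))
      · exact hk2 x (y + 1) (by omega) (by omega) (by omega) (by omega)
          (one _ _ (by omega) (by omega) (by omega) (by omega) (by omega))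
  have r0 : St f (6 * k + 2) (b + 14 + 4) (2 * N) := by
    refine IsoB.tip_row hf ⟨by omega, by omega, by omega, by omega, by omega, ?_⟩ hyp ?_ ?_
    · omega
    · have e : b + 14 + 4 = b + 18 := by omega
      rw [e]
      exact C2.r0
    · have e : b + 14 + 4 = b + 18 := by omega
      rw [e]
      exact tip
  have e18 : b + 14 + 4 = b + 18 := by omega
  rw [e18] at r0
  have H : DH f (6 * k + 2) (b + 18) N := by
    refine ⟨by omega, by omega, by omega, by omega, by omega, by omega, C2, r0, ?_, ?_, ?_, ?_, ?_⟩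
    · rw [hsub]
      exact (Z.out6 hf).mono (by omega)
    · rw [hsub]
      exact (Z.odd hf (i := 7) (by omega) (by omega)).mono (by omega)
    · intro u v huv hu hd
      rw [e6k2] at hd
      rw [hsub]
      exact Z.in8a hf (by omega) (by omega)
    · intro u v huv hv
      rw [hsub]
      exact Z.in8b hf huv (by omega)
    · rw [hsub]
      exact (Z.odd hf (i := 9) (by omega) (by omega)).mono (by omega)
  refine H.cy33 hf ?_
  intro u v huv hd hu
  rw [e6k2] at hd
  rw [hsub]
  rcases Nat.lt_or_ge (2 * N + 1) v with hv | hv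
  · exact Z.in8b hf huv (by omega)
  rcases Nat.lt_or_ge (u + 1) (v + 2 * k) with hd2 | hd2
  swap
  · exact Z.in8a hf (by omega) (by omega)
  have e20 : b + 18 + 2 = b + 20 := by omega
  rw [e20]
  refine iff_of_false ?_ (Fst_near_odd (by omega) (by omega))
  by_cases hE : u % 2 = 0 ∧ v % 2 = 0
  swap
  · have := Z.eo hf (i := 8) (x := u) (y := v) (by omega) (by omega) (by omega) (by omega)
      (by omega)
    have e : b + 12 + 8 = b + 20 := by omega
    rwa [e] at this
  obtain ⟨hu2, hv2⟩ := hE
  rcases Nat.lt_or_ge (v + 2 * k) (u + 5) with hw | hw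
  · exact W r0 u v hu2 (by omega) (by omega)
  · exact T.pmi hf (L := 6 * k + 1) (R := b + 20) (j := 3) (by omega) (by omega) (by omega)
      (by omega) (by omega) (by omega)

end D1

end Pool.Agent.SNT
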