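import Pool.Agent.SNT.PLD

set_option autoImplicit false

/-! `P_(6 k + 1)` next to the wall in the row `c - 2` (helper33). -/

namespace Pool.Agent.SNT.PL

open Pool.Agent.SNT Pool.Agent.SNT.Loc Pool.Agent.SNT.LW Pool.Agent.SNT.NHZ

variable {f : ℕ → ℕ → ℕ → ℕ → Prop} {k c n : ℕ}

def w4dT (j n p q : ℕ) : Bool :=
  decide (j = 2 ∧ n = 2 ∧ q ≤ p + 11 ∧ p + 1 > 0 ∧ (((p + q + 1) % 2 = 1 ∧ p < q + 3 ∧ (p + 1) % 2 = 1) ∨ (q + 2 ≤ p ∧ (p + q + 2) % 4 = 0))) ||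
    (decide (j = 6 ∧ n = 2 ∧ q ≤ p + 11 ∧ p + 3 > 0 ∧ (((p + q + 1) % 2 = 1 ∧ p < q + 5 ∧ (p + 1) % 2 = 1) ∨ (q + 4 ≤ p ∧ (p + q + 2) % 4 = 2))) ||
    (decide (j = 8 ∧ n = 4 ∧ q ≤ p + 11 ∧ ((p > 1 ∧ p ≤ q + 2) ∨ (p > 3)) ∧ (((p + q + 1) % 2 = 1 ∧ p < q + 5 ∧ (p + 1) % 2 = 1) ∨ (q + 4 ≤ p ∧ (p + q + 2) % 4 = 2))) ||
    (decide (j = 1 ∧ n = 4 ∧ p = 1 ∧ q = 2))))

def w4dF (j n p q : ℕ) : Bool :=
  decide (j = 2 ∧ n = 3 ∧ q ≤ p + 11 ∧ ((p > 1) ∨ (p ≤ q + 3 ∧ p > 0)) ∧ ¬ (q + 3 ≤ p ∧ (p + q + 3) % 4 = 0)) ||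
    (decide (j = 4 ∧ n = 1 ∧ q ≤ p + 11 ∧ ((p + 5 > 0) ∨ (p ≤ q + 3 ∧ p + 6 > 0)) ∧ ¬ (q + 3 ≤ p ∧ (p + q + 3) % 4 = 0)) ||
    (decide (j = 6 ∧ n = 3 ∧ q ≤ p + 11 ∧ ((p + 1 > 0) ∨ (p ≤ q + 5 ∧ p + 2 > 0)) ∧ ¬ (q + 5 ≤ p ∧ (p + q + 3) % 4 = 2)) ||
    (decide (j = 3 ∧ n = 3 ∧ p + 1 ≤ q ∧ q ≤ p + 10) ||
    (decide (j = 3 ∧ n = 4 ∧ p + 1 ≤ q ∧ q ≤ p + 10) ||
    (decide (j = 4 ∧ n = 3 ∧ p ≤ q ∧ q ≤ p + 11) ||
    (decide (j = 5 ∧ n = 1 ∧ p ≤ q + 1 ∧ q ≤ p + 12) ||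
    (decide (j = 5 ∧ n = 2 ∧ p ≤ q + 1 ∧ q ≤ p + 12) ||
    (decide (j = 5 ∧ n = 3 ∧ p ≤ q ∧ q ≤ p + 11) ||
    (decide (j = 5 ∧ n = 4 ∧ p ≤ q ∧ q ≤ p + 11) ||
    (decide (j = 7 ∧ n = 3 ∧ p ≤ q + 1 ∧ q ≤ p + 12) ||
    (decide (j = 7 ∧ n = 4 ∧ p ≤ q + 1 ∧ q ≤ p + 12))))))))))))

theorem w4d_chk : check 8 6 6 5 0 0 1 0 0 w4dT w4dF
    68
    0x2bd8302068002070a018e0001e8ca02bd8302068002070a018b80018b8402bd8302068002070a018c00018c0401500003170002450001508a00d80000998003170f02bd8702bb0702ba8702ae8702ac0702ab8702608702548702540702520702518702450f02070702048702040701f80701f58701f50701e88701e60701e58701d98701d70701d68701ac87019e07019b87019b07018e87017f87017f07017d07017c87015087014e07014d87014187013f07013e8700f38700e78700e70700e50700e48700d80f00998f = true := by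
  decide +kernel

theorem w4d (hf : Rule f) (H : PLH f k c n) :
    ¬ f (6 * k + 1) (c - 2) (2 * n - 4) (2 * n - 2 * k) := by
  by_contra hg
  have hk := H.T.hk
  have hc := H.T.hc
  have h4 := H.T.h4
  have hb := H.T.hb
  have hN2 := H.hn
  obtain ⟨a0, ha0⟩ : ∃ a0, a0 + 0 = 6 * k := ⟨6 * k - 0, by omega⟩
  obtain ⟨b0, hb0⟩ : ∃ b0, b0 + 6 = c := ⟨c - 6, by omega⟩
  obtain ⟨x0, hx0⟩ : ∃ x0, x0 + 5 = 2 * n := ⟨2 * n - 5, by omega⟩
  obtain ⟨y0, hy0⟩ : ∃ y0, y0 + 2 = 2 * n - 2 * k := ⟨2 * n - 2 * k - 2, by omega⟩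
  refine check_sound hf (a0 := a0) (b0 := b0) (x0 := x0) (y0 := y0) w4d_chk
    ⟨fun h => absurd h (by decide), fun h => absurd h (by decide), fun h => absurd h (by decide),
      by omega, by omega, by omega, by omega⟩ ?_ ?_
  · intro j m p q hr h
    obtain ⟨-, -, hn1, hn2, hp1, hp2, hq1, hq2⟩ := hr
    unfold w4dT at h
    simp only [Bool.or_eq_true, decide_eq_true_eq] at h
    rcases h with h | h | h | h
    · obtain ⟨⟨rfl, rfl, h1⟩, h2⟩ := h
      exact (WrapC.v0 H.c2 (by omega) (by omega) (by omega) (by omega) (by omega) (by omega) (by omega)).mpr (by omega)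
    · obtain ⟨⟨rfl, rfl, h1⟩, h2⟩ := h
      exact (WrapC.v0 H.c6 (by omega) (by omega) (by omega) (by omega) (by omega) (by omega) (by omega)).mpr (by omega)
    · obtain ⟨⟨rfl, rfl, h1⟩, h2⟩ := h
      exact (NW.w0v H.c8 (by omega) (by omega) (by omega) (by omega) (by omega) (by omega) (by omega)).mpr (by omega)
    · obtain ⟨rfl, rfl, rfl, rfl⟩ := h
      exact mv hg (by omega) (by omega) (by omega) (by omega)
  · intro j m p q hr h
    obtain ⟨-, -, hn1, hn2, hp1, hp2, hq1, hq2⟩ := hr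
    unfold w4dF at h
    simp only [Bool.or_eq_true, decide_eq_true_eq] at h
    rcases h with h | h | h | h | h | h | h | h | h | h | h | h
    · obtain ⟨⟨rfl, rfl, h1⟩, h2⟩ := h
      exact mt (WrapC.v1 H.c2 (by omega) (by omega) (by omega) (by omega) (by omega) (by omega) (by omega) (by omega)).mp (by omega)
    · obtain ⟨⟨rfl, rfl, h1⟩, h2⟩ := h
      exact mt (WrapC.v1 H.c4a (by omega) (by omega) (by omega) (by omega) (by omega) (by omega) (by omega) (by omega)).mp (by omega)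
    · obtain ⟨⟨rfl, rfl, h1⟩, h2⟩ := h
      exact mt (WrapC.v1 H.c6 (by omega) (by omega) (by omega) (by omega) (by omega) (by omega) (by omega) (by omega)).mp (by omega)
    · obtain ⟨rfl, rfl, h1⟩ := h
      exact NHT.rIn hf H.T (t := 3) (j := 2) (p := 1) (by omega) (by omega) (by omega) (by omega) (by omega) (by omega) (by omega) (by omega)
    · obtain ⟨rfl, rfl, h1⟩ := h
      exact NHT.pIn hf H.T (t := 4) (j := 2) (by omega) (by omega) (by omega) (by omega) (by omega) (by omega) (by omega)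
    · obtain ⟨rfl, rfl, h1⟩ := h
      exact NHT.rIn hf H.T (t := 3) (j := 1) (p := 0) (by omega) (by omega) (by omega) (by omega) (by omega) (by omega) (by omega) (by omega)
    · obtain ⟨rfl, rfl, h1⟩ := h
      exact NHT.rIn hf H.T (t := 2) (j := 0) (p := 1) (by omega) (by omega) (by omega) (by omega) (by omega) (by omega) (by omega) (by omega)
    · obtain ⟨rfl, rfl, h1⟩ := h
      exact NHT.pIn hf H.T (t := 3) (j := 0) (by omega) (by omega) (by omega) (by omega) (by omega) (by omega) (by omega)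
    · obtain ⟨rfl, rfl, h1⟩ := h
      exact NHT.rIn hf H.T (t := 3) (j := 1) (p := 1) (by omega) (by omega) (by omega) (by omega) (by omega) (by omega) (by omega) (by omega)
    · obtain ⟨rfl, rfl, h1⟩ := h
      exact NHT.pIn hf H.T (t := 4) (j := 1) (by omega) (by omega) (by omega) (by omega) (by omega) (by omega) (by omega)
    · obtain ⟨rfl, rfl, h1⟩ := h
      exact NHT.rIn hf H.T (t := 3) (j := 0) (p := 1) (by omega) (by omega) (by omega) (by omega) (by omega) (by omega) (by omega) (by omega)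
    · obtain ⟨rfl, rfl, h1⟩ := h
      exact NHT.pIn hf H.T (t := 4) (j := 0) (by omega) (by omega) (by omega) (by omega) (by omega) (by omega) (by omega)

def w2dT (j n p q : ℕ) : Bool :=
  decide (j = 2 ∧ n = 1 ∧ q ≤ p + 14 ∧ ((p + 2 > 0) ∨ (p ≤ q ∧ p + 3 > 0)) ∧ (q ≤ p ∧ (p + q + 2) % 4 = 0)) ||
    (decide (j = 2 ∧ n = 2 ∧ q ≤ p + 14 ∧ q ≤ p ∧ p > 0 ∧ (((p + q) % 2 = 1 ∧ p < q ∧ (p) % 2 = 0) ∨ (q ≤ p + 1 ∧ (p + q + 3) % 4 = 0))) ||
    (decide (j = 4 ∧ n = 3 ∧ q ≤ p + 14 ∧ ((p > 4) ∨ (p ≤ q ∧ p > 3)) ∧ (q ≤ p ∧ (p + q + 2) % 4 = 0)) ||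
    (decide (j = 6 ∧ n = 1 ∧ q ≤ p + 14 ∧ ((p + 2 > 0) ∨ (p ≤ q ∧ p + 3 > 0)) ∧ (q ≤ p ∧ (p + q + 2) % 4 = 0)) ||
    (decide (j = 6 ∧ n = 2 ∧ q ≤ p + 14 ∧ q ≤ p ∧ p > 0 ∧ (((p + q) % 2 = 1 ∧ p < q ∧ (p) % 2 = 0) ∨ (q ≤ p + 1 ∧ (p + q + 3) % 4 = 0))) ||
    (decide (j = 8 ∧ n = 2 ∧ q ≤ p + 14 ∧ p > 0 ∧ (((p + q) % 2 = 1 ∧ p < q + 2 ∧ (p) % 2 = 1) ∨ (q + 1 ≤ p ∧ (p + q + 1) % 4 = 2))) ||
    (decide (j = 10 ∧ n = 4 ∧ q ≤ p + 14 ∧ ((p > 4 ∧ p + 1 ≤ q) ∨ (p > 6)) ∧ (((p + q) % 2 = 1 ∧ p < q + 2 ∧ (p) % 2 = 1) ∨ (q + 1 ≤ p ∧ (p + q + 1) % 4 = 2))) ||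
    (decide (j = 4 ∧ n = 2 ∧ q ≤ p + 14 ∧ p > 0 ∧ (((p + q) % 2 = 1 ∧ p < q ∧ (p) % 2 = 1) ∨ (q ≤ p + 1 ∧ (p + q + 1) % 4 = 0))) ||
    (decide (j = 3 ∧ n = 4 ∧ p = 4 ∧ q = 6)))))))))

def w2dF (j n p q : ℕ) : Bool :=
  decide (j = 2 ∧ n = 1 ∧ q ≤ p + 14 ∧ ((p + 2 > 0) ∨ (p ≤ q ∧ p + 3 > 0)) ∧ ¬ (q ≤ p ∧ (p + q + 2) % 4 = 0)) ||
    (decide (j = 2 ∧ n = 2 ∧ q ≤ p + 14 ∧ q ≤ p ∧ p > 0 ∧ ¬ (((p + q) % 2 = 1 ∧ p < q ∧ (p) % 2 = 0) ∨ (q ≤ p + 1 ∧ (p + q + 3) % 4 = 0))) ||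
    (decide (j = 4 ∧ n = 3 ∧ q ≤ p + 14 ∧ ((p > 4) ∨ (p ≤ q ∧ p > 3)) ∧ ¬ (q ≤ p ∧ (p + q + 2) % 4 = 0)) ||
    (decide (j = 6 ∧ n = 1 ∧ q ≤ p + 14 ∧ ((p + 2 > 0) ∨ (p ≤ q ∧ p + 3 > 0)) ∧ ¬ (q ≤ p ∧ (p + q + 2) % 4 = 0)) ||
    (decide (j = 6 ∧ n = 2 ∧ q ≤ p + 14 ∧ q ≤ p ∧ p > 0 ∧ ¬ (((p + q) % 2 = 1 ∧ p < q ∧ (p) % 2 = 0) ∨ (q ≤ p + 1 ∧ (p + q + 3) % 4 = 0))) ||
    (decide (j = 8 ∧ n = 3 ∧ q ≤ p + 14 ∧ ((p > 2) ∨ (p ≤ q + 2 ∧ p > 1)) ∧ ¬ (q + 2 ≤ p ∧ (p + q + 2) % 4 = 2)) ||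
    (decide (j = 2 ∧ n = 3 ∧ p + 5 ≤ q ∧ q ≤ p + 12) ||
    (decide (j = 3 ∧ n = 1 ∧ p + 4 ≤ q ∧ q ≤ p + 13) ||
    (decide (j = 3 ∧ n = 2 ∧ p + 4 ≤ q ∧ q ≤ p + 13) ||
    (decide (j = 3 ∧ n = 3 ∧ p + 5 ≤ q ∧ q ≤ p + 12) ||
    (decide (j = 4 ∧ n = 3 ∧ p + 4 ≤ q ∧ q ≤ p + 13) ||
    (decide (j = 5 ∧ n = 1 ∧ p + 3 ≤ q ∧ q ≤ p + 14) ||
    (decide (j = 5 ∧ n = 2 ∧ p + 3 ≤ q ∧ q ≤ p + 14) ||
    (decide (j = 5 ∧ n = 3 ∧ p + 4 ≤ q ∧ q ≤ p + 13) ||
    (decide (j = 5 ∧ n = 4 ∧ p ≥ 4 ∧ p + 4 ≤ q ∧ q ≤ p + 13) ||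
    (decide (j = 6 ∧ n = 3 ∧ p + 3 ≤ q ∧ q ≤ p + 14) ||
    (decide (j = 7 ∧ n = 1 ∧ p + 2 ≤ q ∧ q ≤ p + 15) ||
    (decide (j = 7 ∧ n = 2 ∧ p + 2 ≤ q ∧ q ≤ p + 15) ||
    (decide (j = 7 ∧ n = 3 ∧ p + 3 ≤ q ∧ q ≤ p + 14) ||
    (decide (j = 7 ∧ n = 4 ∧ p ≥ 4 ∧ p + 3 ≤ q ∧ q ≤ p + 14) ||
    (decide (j = 9 ∧ n = 3 ∧ p + 2 ≤ q ∧ q ≤ p + 15) ||
    (decide (j = 9 ∧ n = 4 ∧ p ≥ 4 ∧ p + 2 ≤ q ∧ q ≤ p + 15) ||
    (decide (j = 4 ∧ n = 2 ∧ q ≤ p + 14 ∧ p > 0 ∧ ¬ (((p + q) % 2 = 1 ∧ p < q ∧ (p) % 2 = 1) ∨ (q ≤ p + 1 ∧ (p + q + 1) % 4 = 0))) ||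
    (decide (j = 1 ∧ q ≤ p + 14))))))))))))))))))))))))

theorem w2d_chk : check 10 6 9 11 0 0 0 0 0 w2dT w2dF
    365
    0xb5c0309040009048a06ac8006ad0a057880057e120b5c03090400090a1a0b6203090a00090a0406b20006b201057e00057e04057d000582920b5c0309040009048a06ac8006ad0a057880057e120b5c03090400090a1a0b6203090a00090a0406b20006b201057e00057e04057780057d120582800582840b5c03090400090a1a0b6203090a00090a0406b20006b201057d80057d81044e00044e04032683044f80044f84032a83045380045384032c0304550004550403308304590004590407780308d28008d284077d8308d88008d88407ae8007ae810b6203090a00090a01077d80077d810b6203090a00090a0107780007780406ab8306ac0006b21a07db8007db8407a90007a90407780307a98007a98407ae8307af0007af04077d8307af8007af84054a80054a8102f283041b80041b8402f303041c00041c0402f383041c80041c8402c283041d00041d0402f483041d80041d8402f90304220004220402c90304238004238402c18302f30002f304032580032b9a02c28302f40002f40403ec030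2f48002f48402c90302fa8002fa8402c80302c88002c88408a10306178006178408a683061d00061d0408a683061d80061d8404ed8005253a0c8a8009d58009c980077680075180074580055680052a80052580051a80051980051280050e80050d80045a0002d28002c68002a1800295800289800c8a8f0b62070b5c870b5c070b56870b56070b30870b2b070b2a870b25070b24870a33070a07870a07070a02070a01870a010709fc0709fb8709d58f09c98f09048708ff0708fe8708d30708cd8708cd0708a107089b87089b07086f87086a0708698707e10707d60707aa0707a48707a407077d07077c8707770707768f07720707518f074c07074b8707468707460707458f07410707408706ad07067b8706760706758706498706180705840705830705820705780705770705578705570705568f055287055207055187055107055087054d07054c87054707054687052a8f05258f052507052487051f87051f07051a8f05198f05190705188705138705130705128f050e8f050d8f045a0f041e0703ec0703e68703e60703ba8703b50703b48703300703260703250702f50702ef8702ef0702d28f02c70702c68f02c30702c20702c10702c08702bb0702a18f0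2978702970702968702960702958f029207029187029107029087029007028f87028c07028b87028b07028a87028a0702898f02078702070702030702028702020702018702010701fd8701fd0701fc8701fc0701fb8701f80701f78701d60701d58701d18701d10701d08701d00701cf8701cc0701cb8701cb0701ca8701ca0701c98701c90701c68701c60701c58701c50701c48701c40701c38701a007019f87019f07019e87019e07019a87019a07019987019907019887019807019787019487019407019387019307019287019207016e87016e07016d87016d07016907016887016807016787016707016687016287016207016187016107 = true := by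
  decide +kernel

theorem w2d (hf : Rule f) (H : PLH f k c n) :
    ¬ f (6 * k + 1) (c - 2) (2 * n - 4) (2 * n - 2 * k - 2) := by
  by_contra hg
  have hk := H.T.hk
  have hc := H.T.hc
  have h4 := H.T.h4
  have hb := H.T.hb
  have hN2 := H.hn
  obtain ⟨a0, ha0⟩ : ∃ a0, a0 + 2 = 6 * k := ⟨6 * k - 2, by omega⟩
  obtain ⟨b0, hb0⟩ : ∃ b0, b0 + 6 = c := ⟨c - 6, by omega⟩
  obtain ⟨x0, hx0⟩ : ∃ x0, x0 + 8 = 2 * n := ⟨2 * n - 8, by omega⟩
  obtain ⟨y0, hy0⟩ : ∃ y0, y0 + 8 = 2 * n - 2 * k := ⟨2 * n - 2 * k - 8, by omega⟩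
  refine check_sound hf (a0 := a0) (b0 := b0) (x0 := x0) (y0 := y0) w2d_chk
    ⟨fun h => absurd h (by decide), fun h => absurd h (by decide), fun h => absurd h (by decide),
      by omega, by omega, by omega, by omega⟩ ?_ ?_
  · intro j m p q hr h
    obtain ⟨-, -, hn1, hn2, hp1, hp2, hq1, hq2⟩ := hr
    unfold w2dT at h
    simp only [Bool.or_eq_true, decide_eq_true_eq] at h
    rcases h with h | h | h | h | h | h | h | h | h
    · obtain ⟨⟨rfl, rfl, h1⟩, h2⟩ := h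
      exact (WrapC.v1 H.c0 (by omega) (by omega) (by omega) (by omega) (by omega) (by omega) (by omega) (by omega)).mpr (by omega)
    · obtain ⟨⟨rfl, rfl, h1⟩, h2⟩ := h
      exact (WrapC.v2 H.c0 (by omega) (by omega) (by omega) (by omega) (by omega) (by omega) (by omega)).mpr (by omega)
    · obtain ⟨⟨rfl, rfl, h1⟩, h2⟩ := h
      exact (WrapC.v1 H.c2 (by omega) (by omega) (by omega) (by omega) (by omega) (by omega) (by omega) (by omega)).mpr (by omega)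
    · obtain ⟨⟨rfl, rfl, h1⟩, h2⟩ := h
      exact (WrapC.v1 H.c4a (by omega) (by omega) (by omega) (by omega) (by omega) (by omega) (by omega) (by omega)).mpr (by omega)
    · obtain ⟨⟨rfl, rfl, h1⟩, h2⟩ := h
      exact (WrapC.v2 H.c4a (by omega) (by omega) (by omega) (by omega) (by omega) (by omega) (by omega)).mpr (by omega)
    · obtain ⟨⟨rfl, rfl, h1⟩, h2⟩ := h
      exact (WrapC.v0 H.c6 (by omega) (by omega) (by omega) (by omega) (by omega) (by omega) (by omega)).mpr (by omega)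
    · obtain ⟨⟨rfl, rfl, h1⟩, h2⟩ := h
      exact (NW.w0v H.c8 (by omega) (by omega) (by omega) (by omega) (by omega) (by omega) (by omega)).mpr (by omega)
    · obtain ⟨⟨rfl, rfl, h1⟩, h2⟩ := h
      exact (PL.st0v H.s2 (by omega) (by omega) (by omega) (by omega) (by omega) (by omega) (by omega)).mpr (by omega)
    · obtain ⟨rfl, rfl, rfl, rfl⟩ := h
      exact mv hg (by omega) (by omega) (by omega) (by omega)
  · intro j m p q hr h
    obtain ⟨-, -, hn1, hn2, hp1, hp2, hq1, hq2⟩ := hr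
    unfold w2dF at h
    simp only [Bool.or_eq_true, decide_eq_true_eq] at h
    rcases h with h | h | h | h | h | h | h | h | h | h | h | h | h | h | h | h | h | h | h | h | h | h | h | h
    · obtain ⟨⟨rfl, rfl, h1⟩, h2⟩ := h
      exact mt (WrapC.v1 H.c0 (by omega) (by omega) (by omega) (by omega) (by omega) (by omega) (by omega) (by omega)).mp (by omega)
    · obtain ⟨⟨rfl, rfl, h1⟩, h2⟩ := h
      exact mt (WrapC.v2 H.c0 (by omega) (by omega) (by omega) (by omega) (by omega) (by omega) (by omega)).mp (by omega)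
    · obtain ⟨⟨rfl, rfl, h1⟩, h2⟩ := h
      exact mt (WrapC.v1 H.c2 (by omega) (by omega) (by omega) (by omega) (by omega) (by omega) (by omega) (by omega)).mp (by omega)
    · obtain ⟨⟨rfl, rfl, h1⟩, h2⟩ := h
      exact mt (WrapC.v1 H.c4a (by omega) (by omega) (by omega) (by omega) (by omega) (by omega) (by omega) (by omega)).mp (by omega)
    · obtain ⟨⟨rfl, rfl, h1⟩, h2⟩ := h
      exact mt (WrapC.v2 H.c4a (by omega) (by omega) (by omega) (by omega) (by omega) (by omega) (by omega)).mp (by omega)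
    · obtain ⟨⟨rfl, rfl, h1⟩, h2⟩ := h
      exact mt (WrapC.v1 H.c6 (by omega) (by omega) (by omega) (by omega) (by omega) (by omega) (by omega) (by omega)).mp (by omega)
    · obtain ⟨rfl, rfl, h1⟩ := h
      exact NHT.rIn hf H.T (t := 3) (j := 3) (p := 0) (by omega) (by omega) (by omega) (by omega) (by omega) (by omega) (by omega) (by omega)
    · obtain ⟨rfl, rfl, h1⟩ := h
      exact NHT.rIn hf H.T (t := 2) (j := 2) (p := 1) (by omega) (by omega) (by omega) (by omega) (by omega) (by omega) (by omega) (by omega)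
    · obtain ⟨rfl, rfl, h1⟩ := h
      exact NHT.pIn hf H.T (t := 3) (j := 2) (by omega) (by omega) (by omega) (by omega) (by omega) (by omega) (by omega)
    · obtain ⟨rfl, rfl, h1⟩ := h
      exact NHT.rIn hf H.T (t := 3) (j := 3) (p := 1) (by omega) (by omega) (by omega) (by omega) (by omega) (by omega) (by omega) (by omega)
    · obtain ⟨rfl, rfl, h1⟩ := h
      exact NHT.rIn hf H.T (t := 3) (j := 2) (p := 0) (by omega) (by omega) (by omega) (by omega) (by omega) (by omega) (by omega) (by omega)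
    · obtain ⟨rfl, rfl, h1⟩ := h
      exact NHT.rIn hf H.T (t := 2) (j := 1) (p := 1) (by omega) (by omega) (by omega) (by omega) (by omega) (by omega) (by omega) (by omega)
    · obtain ⟨rfl, rfl, h1⟩ := h
      exact NHT.pIn hf H.T (t := 3) (j := 1) (by omega) (by omega) (by omega) (by omega) (by omega) (by omega) (by omega)
    · obtain ⟨rfl, rfl, h1⟩ := h
      exact NHT.rIn hf H.T (t := 3) (j := 2) (p := 1) (by omega) (by omega) (by omega) (by omega) (by omega) (by omega) (by omega) (by omega)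
    · obtain ⟨rfl, rfl, h1⟩ := h
      exact NHT.pIn hf H.T (t := 4) (j := 2) (by omega) (by omega) (by omega) (by omega) (by omega) (by omega) (by omega)
    · obtain ⟨rfl, rfl, h1⟩ := h
      exact NHT.rIn hf H.T (t := 3) (j := 1) (p := 0) (by omega) (by omega) (by omega) (by omega) (by omega) (by omega) (by omega) (by omega)
    · obtain ⟨rfl, rfl, h1⟩ := h
      exact NHT.rIn hf H.T (t := 2) (j := 0) (p := 1) (by omega) (by omega) (by omega) (by omega) (by omega) (by omega) (by omega) (by omega)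
    · obtain ⟨rfl, rfl, h1⟩ := h
      exact NHT.pIn hf H.T (t := 3) (j := 0) (by omega) (by omega) (by omega) (by omega) (by omega) (by omega) (by omega)
    · obtain ⟨rfl, rfl, h1⟩ := h
      exact NHT.rIn hf H.T (t := 3) (j := 1) (p := 1) (by omega) (by omega) (by omega) (by omega) (by omega) (by omega) (by omega) (by omega)
    · obtain ⟨rfl, rfl, h1⟩ := h
      exact NHT.pIn hf H.T (t := 4) (j := 1) (by omega) (by omega) (by omega) (by omega) (by omega) (by omega) (by omega)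
    · obtain ⟨rfl, rfl, h1⟩ := h
      exact NHT.rIn hf H.T (t := 3) (j := 0) (p := 1) (by omega) (by omega) (by omega) (by omega) (by omega) (by omega) (by omega) (by omega)
    · obtain ⟨rfl, rfl, h1⟩ := h
      exact NHT.pIn hf H.T (t := 4) (j := 0) (by omega) (by omega) (by omega) (by omega) (by omega) (by omega) (by omega)
    · obtain ⟨⟨rfl, rfl, h1⟩, h2⟩ := h
      exact mt (PL.st0v H.s2 (by omega) (by omega) (by omega) (by omega) (by omega) (by omega) (by omega)).mp (by omega)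
    · obtain ⟨rfl, h1⟩ := h
      exact H.lw _ _ _ _ (by omega) (by omega) (by omega) (by omega) (by omega) (by omega)

/-- `P_(6 k + 1)` vanishes in the row `c - 2` at `x = 2 N + 4`, `x - y = 2 k - 4`, if `N` is the lead of `6 k + 2`
in the row `c - 4`. -/
theorem p1_d4 {b m N x y : ℕ} (hf : Rule f) (hs : Side k b m) (S : Stack6 f k b m 0 0 0 0 0 1)
    (hn : n = m + 9 + (k + 2) * 4) (hN : n ≤ N + 4)
    (d0 : Cyc f (6 * k) (b + 16) (2 * (N - 3) + 2))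
    (d2 : Cyc f (6 * k + 2) (b + 18) (2 * N + 2))
    (s2 : St f (6 * k + 2) (b + 18) (2 * N)) (hx : x = 2 * N + 4) (hy : y + 2 * k = x + 4) :
    ¬ f (6 * k + 1) (b + 20) x y := by
  have H : PLH f k (b + 22) (N + 4) := PLH.of_stack hs S hn rfl hN d0 d2 s2
  have hk := hs.1
  have hn2 := H.hn
  exact fun h => w4d hf H (mv h rfl (by omega) (by omega) (by omega))

/-- `P_(6 k + 1)` vanishes in the row `c - 2` at `x = 2 N + 4`, `x - y = 2 k - 2`, if `N` is the lead of `6 k + 2`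
in the row `c - 4`. -/
theorem p1_d2 {b m N x y : ℕ} (hf : Rule f) (hs : Side k b m) (S : Stack6 f k b m 0 0 0 0 0 1)
    (hn : n = m + 9 + (k + 2) * 4) (hN : n ≤ N + 4)
    (d0 : Cyc f (6 * k) (b + 16) (2 * (N - 3) + 2))
    (d2 : Cyc f (6 * k + 2) (b + 18) (2 * N + 2))
    (s2 : St f (6 * k + 2) (b + 18) (2 * N)) (hx : x = 2 * N + 4) (hy : y + 2 * k = x + 2) :
    ¬ f (6 * k + 1) (b + 20) x y := by
  have H : PLH f k (b + 22) (N + 4) := PLH.of_stack hs S hn rfl hN d0 d2 s2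
  have hk := hs.1
  have hn2 := H.hn
  exact fun h => w2d hf H (mv h rfl (by omega) (by omega) (by omega))

end Pool.Agent.SNT.PL
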