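import Pool.Agent.SNT.LocL4b
import Pool.Agent.SNT.D1Loc2
import Pool.Agent.SNT.PL_w

set_option autoImplicit false

/-! LOCATION STEP of the layer `6 k + 4`, from the window of the six layers. -/

namespace Pool.Agent.SNT

variable {f : ℕ → ℕ → ℕ → ℕ → Prop}

namespace LocL4

open TipI LocZ LocG NHZ

/-- `P_(6 k + 1)` in the IN row `c - 6 = b + 16` of `6 k`. -/
theorem p1_in (hf : Rule f) {k b m t : ℕ} (hs : Side k b m) (S : Stack6 f k b m 0 0 0 0 0 1)
    (ht : t = m + 9 + (k + 2) * 4) (C0 : Cyc f (6 * k) (b + 16) (2 * (t - 5) + 2))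
    (Z : ZG f (6 * k) (b + 12) (2 * (t - 2) - 4) (2 * m - (100 * k + 1000)) (b / 2 + 1))
    {x y : ℕ} (hyx : y ≤ x) (hx : 2 * t < x + 7) :
    f (6 * k + 1) (b + 16) x y ↔ Fst (6 * k + 1) (b + 16) x y := by
  obtain ⟨hk, hb2, hb, hkb, hbm⟩ := hs
  have e6k : 6 * k / 6 = k := by omega
  have C0p := S.l0 3
  rcases Nat.lt_or_ge x (y + 2 * k) with hd2 | hd2
  swap
  · exact Z.in4 hf (by rw [e6k]; omega) (by omega)
  refine iff_of_false ?_ (Fst_near_odd (by omega) (by omega))
  by_cases hE : x % 2 = 0 ∧ y % 2 = 0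
  swap
  · exact Z.eo hf (i := 4) (by omega) (by omega) (by omega) (by omega) (by omega)
  obtain ⟨hx', hy'⟩ := hE
  rcases Nat.eq_or_lt_of_le hyx with h0 | h0
  · subst h0
    have hd1 : f (6 * k) (b + 15) (y - 1) (y - 1) := by
      have e : b + 15 = b + 4 * 3 + 3 := by omega
      rw [e, C0p.r3s _ _ (by rw [e6k]; omega) (by omega), Fst_odd (by omega) (by omega)
        (by omega) le_rfl (by rw [e6k]; omega)]
      omega
    exact kill hf hd1 (by omega) (by omega) (by omega) (by omega) (by omega)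
  · have hc : f (6 * k) (b + 16) (x - 1) y := by
      rw [C0.r0 (x - 1) y (by omega), Fst_II (by omega) (by omega) (by omega) (by omega)
        (by omega) (by rw [e6k]; omega)]
      omega
    exact kill hf hc (by omega) (by omega) (by omega) (by omega) (by omega)

/-- `P_(6 k + 1)` in the IN row `c - 2 = b + 20` of `6 k`. -/
theorem p1_in2 (hf : Rule f) {k b m t : ℕ} (hs : Side k b m) (S : Stack6 f k b m 0 0 0 0 0 1)
    (ht : t = m + 9 + (k + 2) * 4) (C0 : Cyc f (6 * k) (b + 16) (2 * (t - 5) + 2))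
    (C2 : Cyc f (6 * k + 2) (b + 18) (2 * (t - 2) + 2))
    (Z : ZG f (6 * k) (b + 12) (2 * (t - 2) - 4) (2 * m - (100 * k + 1000)) (b / 2 + 1))
    {x y : ℕ} (hyx : y ≤ x) (hx : 2 * t + 2 ≤ x) :
    f (6 * k + 1) (b + 20) x y ↔ Fst (6 * k + 1) (b + 20) x y := by
  have T := NHT.of_stack hs S
  have hs0 := hs
  obtain ⟨hk, hb2, hb, hkb, hbm⟩ := hs
  have e6k : 6 * k / 6 = k := by omega
  rcases Nat.lt_or_ge (2 * (t - 2) - 4 + 5) y with hv | hv
  · exact Z.in8b hf hyx (by omega)
  rcases Nat.lt_or_ge (x + 1) (y + 2 * k) with hd2 | hd2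
  swap
  · exact Z.in8a hf (by rw [e6k]; omega) (by omega)
  refine iff_of_false ?_ (Fst_near_odd (by omega) (by omega))
  by_cases hE : x % 2 = 0 ∧ y % 2 = 0
  swap
  · have := Z.eo hf (i := 8) (x := x) (y := y) (by omega) (by omega) (by omega) (by omega)
      (by omega)
    have e : b + 12 + 8 = b + 20 := by omega
    rwa [e] at this
  obtain ⟨hx2, hy2⟩ := hE
  rcases Nat.lt_or_ge (y + 2 * k) (x + 5) with hw | hw
  · obtain ⟨N, hN⟩ : ∃ N, x = 2 * N + 4 := ⟨(x - 4) / 2, by omega⟩
    have D0 : Cyc f (6 * k) (b + 16) (2 * (N - 3) + 2) := Z8.cyc_mono C0 (by omega)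
    have D2 : Cyc f (6 * k + 2) (b + 18) (2 * N + 2) := Z8.cyc_mono C2 (by omega)
    have s2 : St f (6 * k + 2) (b + 18) (2 * N) := C2.r0.mono (by omega)
    rcases (show y + 2 * k = x + 4 ∨ y + 2 * k = x + 2 by omega) with h | h
    · exact PL.p1_d4 hf hs0 S ht (by omega) D0 D2 s2 hN h
    · exact PL.p1_d2 hf hs0 S ht (by omega) D0 D2 s2 hN h
  · exact T.pmi hf (L := 6 * k + 1) (R := b + 20) (j := 3) (by omega) (by omega) (by omega)
      (by omega) (by omega) (by omega)

/-- The window of the location step. -/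
theorem HL.of_stack (hf : Rule f) {k b m t n : ℕ} (hs : Side k b m)
    (S : Stack6 f k b m 0 0 0 0 0 1) (hs' : Side k (b + 4) (m + (k + 2)))
    (S' : Stack6 f k (b + 4) (m + (k + 2)) 0 0 0 0 0 1) (ht : t = m + 9 + (k + 2) * 4)
    (C0 : Cyc f (6 * k) (b + 16) (2 * (t - 5) + 2))
    (C0' : Cyc f (6 * k) (b + 20) (2 * (t + k - 3) + 2))
    (C2 : Cyc f (6 * k + 2) (b + 18) (2 * (t - 2) + 2)) (hn : t + 2 ≤ n)
    (C4 : Cyc f (6 * k + 4) (b + 20) (2 * n + 2)) :
    HL f k n (b + 20) (2 * m - (100 * k + 1000)) := by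
  have T := NHT.of_stack hs S
  have C0z : Cyc f (6 * k) (b + 16) (2 * (t - 2) - 4) := by
    refine Z8.cyc_mono C0 ?_
    have := hs.2.2.2.2; have := hs.2.2.2.1
    omega
  have Z := D1.zg_zero hf hs S (N := t - 2) (by omega) C0z
  have C0z' : Cyc f (6 * k) (b + 4 + 16) (2 * (t + k) - 4) := by
    have e : b + 4 + 16 = b + 20 := by omega
    rw [e]
    refine Z8.cyc_mono C0' ?_
    omega
  have Z' := D1.zg_zero hf hs' S' (N := t + k) (by omega) C0z'
  have hs0 := hs
  obtain ⟨hk, hb2, hb, hkb, hbm⟩ := hs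
  have e6k : 6 * k / 6 = k := by omega
  have e6k2 : (6 * k + 2) / 6 = k := by omega
  have z1 : ∀ r : ℕ, b + 20 ≤ r + 8 → r ≤ b + 20 + 8 →
      St f (6 * k - 1) r (2 * m - (100 * k + 1000)) := by
    intro r h1 h2
    have h3 := S.lw (r - b) (by omega)
    have e : b + (r - b) = r := by omega
    rwa [e] at h3
  have fr : ∀ a r x y : ℕ, a ≤ 6 * k + 10 → b + 20 ≤ r + 8 → r ≤ b + 20 + 8 → y ≤ x →
      2 * m - (100 * k + 1000) < x → b + 20 + y < x + 6 * k + 60 →
      (f a r x y ↔ Fst a r x y) := by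
    intro a r x y h1 h2 h3 h4 h5 h6
    have h7 := S.fr a (r - b) x y h1 (by omega) (by omega) (by omega)
    have e : b + (r - b) = r := by omega
    rwa [e] at h7
  have qe : ∀ r x y : ℕ, b + 20 ≤ r + 4 → r ≤ b + 20 + 4 →
      ¬ (r % 2 = 0 ∧ x % 2 = 0 ∧ y % 2 = 0) → y ≤ x → 2 * m - (100 * k + 1000) + 1 < x →
      (f (6 * k + 1) r x y ↔ Fst (6 * k + 1) r x y) := by
    intro r x y h1 h2 hne hyx hx
    rcases Nat.lt_or_ge (b + 20 + y) (x + 6 * k + 60) with h3 | h3
    · exact fr _ r x y (by omega) (by omega) (by omega) hyx (by omega) h3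
    · refine iff_of_false ?_ (Fst_near_odd (by omega) (by omega))
      refine eonly hf (A := 6 * k) (by omega) hne ?_
      intro q i s hq hi hs'
      rw [z1 (r - q) (by omega) (by omega) _ _ (by omega)]
      exact Fst_near_odd (by omega) (by omega)
  refine ⟨hk, by omega, by omega, by omega, by omega, by omega, fr, z1, qe, ?_, ?_, ?_, ?_,
    ?_, ?_, ?_, ?_, ?_, ?_, ?_, ?_, ?_, ?_⟩
  · -- qm4
    intro x y hyx hx
    rw [show b + 20 - 4 = b + 16 by omega]
    exact p1_in hf hs0 S ht C0 Z hyx (by omega)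
  · intro x y hyx hx
    rw [show b + 20 - 2 = b + 12 + 6 by omega]
    exact Z.out6 hf x y (by omega)
  · intro x y hyx hx
    exact p1_in2 hf hs0 S ht C0 C2 Z hyx (by omega)
  · intro x y hyx hx
    rw [show b + 20 + 2 = b + 4 + 12 + 6 by omega]
    exact Z'.out6 hf x y (by omega)
  · rw [show b + 20 - 4 = b + 16 by omega]
    exact Z8.cyc_mono C0 (by omega)
  · intro x hx2 hx
    rw [show b + 20 - 3 = b + 2 + 4 * 3 + 3 by omega, (S.l2 3).r3s _ _ (by rw [e6k2]; omega)
      (by omega), Fst_odd (by omega) (by omega) (by omega) le_rfl (by rw [e6k2]; omega)]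
    omega
  · intro x y hd hx hn' hc
    rw [show b + 20 - 3 = b + 17 by omega]
    have hst : f (6 * k + 2) (b + 17) x y ↔ Fst (6 * k + 2) (b + 17) x y := by
      refine ext_gen hf (D := 2 * k) (by omega) (by omega) (by omega) (by omega) (by omega)
        (by rw [e6k2]; omega) (by omega) ?_ ?_
      · intro u v h7 h8 h9 h10
        have e : b + 17 - 1 = b + 2 + 4 * 3 + 2 := by omega
        rw [e]
        exact (S.l2 3).r2x u v (by rw [e6k2]; omega) (by omega)
      · intro _ q r s hq hr hs'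
        have e3 : 6 * k + 2 - 1 = 6 * k + 1 := by omega
        rw [e3]
        rcases Nat.eq_zero_or_pos q with hq0 | hq0
        · subst hq0
          rw [Nat.sub_zero, qe (b + 17) _ _ (by omega) (by omega) (by omega) (by omega) (by omega)]
          exact Fst_near_odd (by omega) (by omega)
        · have e : b + 17 - q = b + 16 := by omega
          rw [e, p1_in hf hs0 S ht C0 Z (by omega) (by omega)]
          exact Fst_near_odd (by omega) (by omega)
    rw [hst, fst_ext (by omega) (by omega) (by omega) (by omega) (by rw [e6k2]; omega), e6k2]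
    omega
  · rw [show b + 20 - 2 = b + 18 by omega]
    exact Z8.cyc_mono C2 (by omega)
  · have h := S.l4 4
    rw [show b + 4 * 4 = b + 16 by omega] at h
    rw [show b + 20 - 4 = b + 16 by omega]
    exact Z8.cyc_mono h (by omega)
  · exact C4
  · have h := (S.l6 4).r0
    rw [show b + 2 + 4 * 4 = b + 18 by omega] at h
    rw [show b + 20 - 2 = b + 18 by omega]
    exact h.mono (by omega)
  · have h := (S.l6 5).r0
    have e5 : (k + 2) * 5 = (k + 2) * 4 + (k + 2) := by ring
    rw [show b + 2 + 4 * 5 = b + 22 by omega, e5] at h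
    rw [show b + 20 + 2 = b + 22 by omega]
    exact h.mono (by omega)
  · intro y h1 h2
    exact T.pmi hf (L := 6 * k + 3) (R := b + 20) (j := 2) (by omega) (by omega) (by omega)
      (by omega) (by omega) (by omega)
  · intro x y h1 h2 h3
    exact T.p0 hf (L := 6 * k + 5) (R := b + 20 + 2) (j := 1) (by omega) (by omega) (by omega)
      (by omega) (by omega) (by omega)

end LocL4

end Pool.Agent.SNT
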