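import Pool.Agent.SNT.D1Ind
import Pool.Agent.SNT.D1L4b
import Pool.Agent.SNT.LocL4c

set_option autoImplicit false

/-! The step `s4` of the improved leads: the layer `6 k + 4` from the nominal lead `n + k - 5` down to `n + 1`. -/

namespace Pool.Agent.SNT

namespace D1

variable {f : ℕ → ℕ → ℕ → ℕ → Prop} {k : ℕ}

/-- The window of the location step and the tip, in the cycle `j`. -/
theorem s4_win (hf : Rule f) {b m t : ℕ} (S : StackA f k b m 0 0 0 0 0 1) (Q0' : Q0 f k b m 0 2)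
    (Q2' : Q2 f k b m 0 3) (Q4' : Q4 f k b m 0 (t + 1)) (j : ℕ) :
    LocL4.HL f k (nn k m j + t + 2) (b + 4 * j + 20) (2 * (m + (k + 2) * j) - (100 * k + 1000)) ∧
    f (6 * k + 4) (b + 4 * j + 20) (2 * (nn k m j + t + 2) + 1) (2 * (nn k m j + t + 2)) := by
  obtain ⟨hs, Sj⟩ := S j
  obtain ⟨hs', Sj'⟩ := S (j + 1)
  have e1 : b + 4 * (j + 1) = b + 4 * j + 4 := by ring
  have e2 : m + (k + 2) * (j + 1) = m + (k + 2) * j + (k + 2) := by ring
  rw [e1, e2] at hs' Sj'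
  have hn : nn k m j = m + (k + 2) * j + 9 + (k + 2) * 4 := rfl
  have hn' : nn k m (j + 1) = nn k m j + (k + 2) := by
    unfold nn
    ring
  have c0 := Q0' j (by omega)
  have c0' := Q0' (j + 1) (by omega)
  have c2 := Q2' j (by omega)
  have c4 := Q4' j (by omega)
  have hb := hs.2.2.2.1
  have hm := hs.2.2.2.2
  have C0 : Cyc f (6 * k) (b + 4 * j + 16) (2 * (nn k m j - 5) + 2) :=
    cyc_of_eq c0 rfl (by omega)
  have C0' : Cyc f (6 * k) (b + 4 * j + 20) (2 * (nn k m j + k - 3) + 2) :=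
    cyc_of_eq c0' (by omega) (by omega)
  have C2 : Cyc f (6 * k + 2) (b + 4 * j + 18) (2 * (nn k m j - 2) + 2) :=
    cyc_of_eq c2 rfl (by omega)
  have C4 : Cyc f (6 * k + 4) (b + 4 * j + 20) (2 * (nn k m j + t + 2) + 2) :=
    cyc_of_eq c4 rfl (by omega)
  have C4b : Cyc f (6 * k + 4) (b + 4 * j + 20) (2 * (nn k m j + (t + 2)) + 2) :=
    cyc_of_eq c4 rfl (by omega)
  refine ⟨LocL4.HL.of_stack hf hs Sj hs' Sj' hn C0 C0' C2 (by omega) C4, ?_⟩
  have h := NHZ.d1l4_tip' hf hs Sj hn C0 C2 (l := t + 2) (by omega) C4b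
  have e : nn k m j + (t + 2) = nn k m j + t + 2 := by omega
  rwa [e] at h

/-- THE STEP `s4`, in the cycle `j`. -/
theorem s4_all (hf : Rule f) {b m t : ℕ} (hk : 8 ≤ k) (S : StackA f k b m 0 0 0 0 0 1)
    (Q0' : Q0 f k b m 0 2) (Q2' : Q2 f k b m 0 3) (Q4' : Q4 f k b m 0 (t + 1)) (j : ℕ) :
    Cyc f (6 * k + 4) (b + 4 * j + 20) (2 * (nn k m j + t + 1) + 2) := by
  obtain ⟨H, tip⟩ := s4_win hf S Q0' Q2' Q4' j
  obtain ⟨H', tip'⟩ := s4_win hf S Q0' Q2' Q4' (j + 1)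
  have h3 := H.cy3 hf tip
  have h4 := H'.r0 hf tip'
  have hn' : nn k m (j + 1) = nn k m j + (k + 2) := by
    unfold nn
    ring
  have hcc : cc (6 * k + 4) = 2 * k := by
    unfold cc
    omega
  refine cyc_of_eq (Cyc.of3 h3 ?_) rfl (by omega)
  rw [hcc, show b + 4 * j + 20 + 4 = b + 4 * (j + 1) + 20 by ring]
  exact h4.mono (by omega)

/-- THE STEP `s4` of `D1.Steps`. -/
theorem s4 (hf : Rule f) (hk : 8 ≤ k) : ∀ b m t : ℕ, StackA f k b m 0 0 0 0 0 1 → t + 7 ≤ k →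
    Q0 f k b m 0 2 → Q2 f k b m 0 3 → Q4 f k b m 0 (t + 1) →
    Cyc f (6 * k + 4) (b + 4 * 1 + 20) (2 * (nn k m 1 + t + 1) + 2) :=
  fun _ _ _ S _ Q0' Q2' Q4' => s4_all hf hk S Q0' Q2' Q4' 1

end D1

end Pool.Agent.SNT
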