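import Pool.Agent.SNT.D1Loc2
import Pool.Agent.SNT.D1Ind
import Pool.Agent.SNT.StackShift
import Pool.Agent.SNT.PL_w

set_option autoImplicit false

/-! The location part of the steps `s2`, `s2a`, `s2b`, `s2c` of `D1.Steps`. -/

namespace Pool.Agent.SNT.D1

variable {f : ℕ → ℕ → ℕ → ℕ → Prop} {k b m : ℕ}

/-- The wall cells, as a statement over the window. -/
def WallFact (f : ℕ → ℕ → ℕ → ℕ → Prop) (k : ℕ) : Prop :=
  ∀ b m N : ℕ, Side k b m → Stack6 f k b m 0 0 0 0 0 1 → m + 9 + (k + 2) * 4 ≤ N + 4 →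
    Cyc f (6 * k) (b + 16) (2 * N - 4) → Cyc f (6 * k + 2) (b + 18) (2 * N + 2) →
    St f (6 * k + 2) (b + 18) (2 * N) → Wall2 f k b N

/-- The wall cells hold. -/
theorem wallFact (hf : Rule f) (k : ℕ) : WallFact f k := by
  intro b m N hs S hN C0 C2 r0 x y hx2 hx hy
  obtain ⟨M, hM⟩ : ∃ M, x = 2 * M + 4 := ⟨x / 2 - 2, by omega⟩
  have hNM : N ≤ M := by omega
  have hm : 100 ≤ m := by
    obtain ⟨h1, h2, h3, h4, h5⟩ := hs
    omega
  have D0 : Cyc f (6 * k) (b + 16) (2 * (M - 3) + 2) := C0.mono' (by omega)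
  have D2 : Cyc f (6 * k + 2) (b + 18) (2 * M + 2) := C2.mono' (by omega)
  have s2 : St f (6 * k + 2) (b + 18) (2 * M) := r0.mono (by omega)
  rcases hy with hy | hy
  · exact PL.p1_d4 hf hs S rfl (by omega) D0 D2 s2 hM hy
  · exact PL.p1_d2 hf hs S rfl (by omega) D0 D2 s2 hM hy

/-- **LOCATION of `6 k + 2` in the cycle `1`** from the tips of the cycles `1`, `2`. -/
theorem loc2_c1 (hf : Rule f) {t t' : ℕ} (ht : t' ≤ t)
    (S : StackA f k b m 0 0 0 0 0 1) (q0 : Q0 f k b m 0 t') (q2 : Q2 f k b m 0 (t + 1))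
    (tip : ∀ j : ℕ, 1 ≤ j → j ≤ 2 → f (6 * k + 2) (b + 4 * j + 18)
      (2 * (nn k m j + t - 5) + 3) (2 * (nn k m j + t - 5) + 2)) :
    Cyc f (6 * k + 2) (b + 4 * 1 + 18) (2 * (nn k m 1 + t - 5) + 2) := by
  have hm0 : 100 ≤ m := by
    have h := S.side
    obtain ⟨h1, h2, h3, h4, h5⟩ := h
    omega
  have key : ∀ j : ℕ, 1 ≤ j → j ≤ 2 →
      Cy3 f (6 * k + 2) (b + 4 * j + 18) (2 * (nn k m j + t - 5) + 2) := by
    intro j h1 h2
    have Sj := S.shift j
    have hn : nn k m j = m + (k + 2) * j + 9 + (k + 2) * 4 := rfl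
    obtain ⟨N, hN⟩ : ∃ N, N + 4 = nn k m j + t := ⟨nn k m j + t - 4, by omega⟩
    have C0 : Cyc f (6 * k) (b + 4 * j + 16) (2 * N - 4) := (q0 j (by omega)).mono' (by omega)
    have C2 : Cyc f (6 * k + 2) (b + 4 * j + 18) (2 * N + 2) := (q2 j (by omega)).mono' (by omega)
    have e1 : 2 * (nn k m j + t - 5) + 2 = 2 * N := by omega
    have tj := tip j h1 h2
    rw [show 2 * (nn k m j + t - 5) + 3 = 2 * N + 1 by omega, e1] at tj
    rw [e1]
    exact loc2 hf Sj.side Sj.stack (by omega) C0 C2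
      (fun h => wallFact hf k _ _ N Sj.side Sj.stack (by omega) C0 C2 h) tj
  have c1 := key 1 le_rfl (by omega)
  have c2 := key 2 (by omega) le_rfl
  refine Cyc.of3 c1 ?_
  have hcc : cc (6 * k + 2) = 2 * k := by
    unfold cc
    have := S.side
    obtain ⟨h1, h2, h3, h4, h5⟩ := this
    omega
  rw [hcc]
  have h := c2.r0
  have e : b + 4 * 2 + 18 = b + 4 * 1 + 18 + 4 := by omega
  rw [e] at h
  refine h.mono ?_
  have h1 : nn k m 2 = nn k m 1 + k + 2 := by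
    unfold nn
    ring
  rw [h1]
  omega

end Pool.Agent.SNT.D1
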