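import Pool.Agent.SNT.D1F0
import Pool.Agent.SNT.D1S4
import Pool.Agent.SNT.D1Step2

set_option autoImplicit false

/-! `D1.Steps` from the tips of `6 k + 2` (the fields `s0`, `s0a`, `s0b`, `s4` are complete, the location
parts of `s2`, `s2a`, `s2b`, `s2c` too). -/

namespace Pool.Agent.SNT.D1

variable {f : ℕ → ℕ → ℕ → ℕ → Prop} {k : ℕ}

/-- The tip of `6 k + 2` in the cycle `1`, the known lead being `nn k m 1 + t - 4`, the wanted one
`nn k m 1 + t - 5`. -/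
def Tip2 (f : ℕ → ℕ → ℕ → ℕ → Prop) (k b m t : ℕ) : Prop :=
  f (6 * k + 2) (b + 4 * 1 + 18) (2 * (nn k m 1 + t - 5) + 3) (2 * (nn k m 1 + t - 5) + 2)

/-- The four tip statements of `6 k + 2`, in the cycle `1` (all leads are known in the cycles `j ≥ 0`). -/
structure Tips2 (f : ℕ → ℕ → ℕ → ℕ → Prop) (k : ℕ) : Prop where
  /-- the known lead is `n + t - 4`, `t ≥ 3` -/
  t2 : ∀ b m t : ℕ, StackA f k b m 0 0 0 0 0 1 → 3 ≤ t → t + 3 ≤ k →
    Q0 f k b m 0 2 → Q2 f k b m 0 (t + 1) → Tip2 f k b m t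
  /-- the known lead is `n - 2` -/
  t2a : ∀ b m : ℕ, StackA f k b m 0 0 0 0 0 1 →
    Q0 f k b m 0 2 → Q4 f k b m 0 0 → Q2 f k b m 0 3 → Tip2 f k b m 2
  /-- the known lead is `n - 3` -/
  t2b : ∀ b m : ℕ, StackA f k b m 0 0 0 0 0 1 →
    Q0 f k b m 0 1 → Q4 f k b m 0 0 → Q2 f k b m 0 2 → Tip2 f k b m 1
  /-- the known lead is `n - 4` -/
  t2c : ∀ b m : ℕ, StackA f k b m 0 0 0 0 0 1 →
    Q0 f k b m 0 0 → Q4 f k b m 0 0 → Q2 f k b m 0 1 → Tip2 f k b m 0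

/-- From the tips in the cycle `1` of every window to the tips in the cycles `1`, `2`. -/
theorem tips12 {b m t : ℕ} (h : ∀ i : ℕ, Tip2 f k (b + 4 * i) (m + (k + 2) * i) t) :
    ∀ j : ℕ, 1 ≤ j → j ≤ 2 → f (6 * k + 2) (b + 4 * j + 18)
      (2 * (nn k m j + t - 5) + 3) (2 * (nn k m j + t - 5) + 2) := by
  intro j h1 _
  obtain ⟨i, rfl⟩ : ∃ i, j = i + 1 := ⟨j - 1, by omega⟩
  have h3 := h i
  unfold Tip2 at h3
  rw [nn_shift] at h3
  rwa [show b + 4 * i + 4 * 1 + 18 = b + 4 * (i + 1) + 18 by omega] at h3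

/-- **`D1.Steps` from the four tips of `6 k + 2`.** -/
theorem steps_of (hf : Rule f) (hk : 8 ≤ k) (T : Tips2 f k) : Steps f k 0 1 where
  s0 := (fields0 hf k 1).1
  s0a := (fields0 hf k 1).2.1
  s0b := (fields0 hf k 1).2.2
  s4 := s4 hf hk
  s2 := fun b m t S ht htk q0 q2 => loc2_c1 hf (t' := 2) (t := t) (by omega) S q0 q2
    (tips12 fun i => T.t2 _ _ t (S.shift i) ht htk (q0.at (by omega)) (q2.at (by omega)))
  s2a := fun b m S q0 q4 q2 => loc2_c1 hf (t' := 2) (t := 2) (by omega) S q0 q2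
    (tips12 fun i => T.t2a _ _ (S.shift i) (q0.at (by omega)) (q4.at (by omega)) (q2.at (by omega)))
  s2b := fun b m S q0 q4 q2 => loc2_c1 hf (t' := 1) (t := 1) (by omega) S q0 q2
    (tips12 fun i => T.t2b _ _ (S.shift i) (q0.at (by omega)) (q4.at (by omega)) (q2.at (by omega)))
  s2c := fun b m S q0 q4 q2 => loc2_c1 hf (t' := 0) (t := 0) (by omega) S q0 q2
    (tips12 fun i => T.t2c _ _ (S.shift i) (q0.at (by omega)) (q4.at (by omega)) (q2.at (by omega)))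

end Pool.Agent.SNT.D1
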