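import Pool.Agent.SNT.D1L6m2
import Pool.Agent.SNT.D1L6m3
import Pool.Agent.SNT.D1L6m4
import Pool.Agent.SNT.D1L8m2
import Pool.Agent.SNT.D1L8m3
import Pool.Agent.SNT.D1L8m4
import Pool.Agent.SNT.D1L10m2
import Pool.Agent.SNT.D1L10m3
import Pool.Agent.SNT.D1L10m4
import Pool.Agent.SNT.INdiag

set_option autoImplicit false

/-! The cells `(2 M + 6, 2 M + 6)`, `(2 M + 8, 2 M + 6)`, `(2 M + 10, 2 M + 6)` of `P_(6 k + 1)` in the row `b + 24`. -/

namespace Pool.Agent.SNT.D1L

open Pool.Agent.SNT Pool.Agent.SNT.Sig Pool.Agent.SNT.Loc Pool.Agent.SNT.LW Pool.Agent.SNT.NHZ Pool.Agent.SNT.D1E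

variable {f : ℕ → ℕ → ℕ → ℕ → Prop} {k b m n M : ℕ}

theorem t6 (hf : Rule f) (hs : Side k b m) (S : Stack6 f k b m 0 0 0 0 0 1) (hn : n = m + 9 + (k + 2) * 4)
    (hM : n ≤ M + 4) (hM' : M + 2 ≤ n)
    (d0 : Cyc f (6 * k) (b + 16) (2 * (M - 3) + 2)) (d2 : Cyc f (6 * k + 2) (b + 18) (2 * M + 2))
    (d4 : Cyc f (6 * k + 4) (b + 20) (2 * (n + 1) + 2))
    (h1 : f (6 * k) (b + 20) (2 * M + 1) (2 * M - 6) ∨ f (6 * k) (b + 20) (2 * M + 3) (2 * M - 4)) :
    ¬ f (6 * k + 1) (b + 24) (2 * M + 6) (2 * M + 6) := by
  have I := PL.of_stack hs S hn hM (by omega) d0 d2 d4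
  have a1 := INdiag.in_diag hf hs S hn hM hM' d0 d2 d4 (x := 2 * M + 4) (y := 2 * M + 2) (by omega) (by omega)
  have a2 := INdiag.in_diag hf hs S hn hM hM' d0 d2 d4 (x := 2 * M + 6) (y := 2 * M + 4) (by omega) (by omega)
  have a3 := INdiag.in_diag hf hs S hn hM hM' d0 d2 d4 (x := 2 * M + 8) (y := 2 * M + 6) (by omega) (by omega)
  intro hc
  rcases (show M = n - 2 ∨ M = n - 3 ∨ M = n - 4 by omega) with e | e | e
  · subst e
    rcases h1 with h | h
    · exact D1L6m2.tA hf I (mv h (by omega) (by omega) (by omega) (by omega)) (fun t => a1 (mv t (by omega) (by omega) (by omega) (by omega))) (fun t => a2 (mv t (by omega) (by omega) (by omega) (by omega))) (mv hc (by omega) (by omega) (by omega) (by omega))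
    · exact D1L6m2.tB hf I (mv h (by omega) (by omega) (by omega) (by omega)) (fun t => a2 (mv t (by omega) (by omega) (by omega) (by omega))) (mv hc (by omega) (by omega) (by omega) (by omega))
  · subst e
    rcases h1 with h | h
    · exact D1L6m3.tA hf I (mv h (by omega) (by omega) (by omega) (by omega)) (fun t => a1 (mv t (by omega) (by omega) (by omega) (by omega))) (fun t => a2 (mv t (by omega) (by omega) (by omega) (by omega))) (mv hc (by omega) (by omega) (by omega) (by omega))
    · exact D1L6m3.tB hf I (mv h (by omega) (by omega) (by omega) (by omega)) (fun t => a2 (mv t (by omega) (by omega) (by omega) (by omega))) (mv hc (by omega) (by omega) (by omega) (by omega))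
  · subst e
    rcases h1 with h | h
    · exact D1L6m4.tA hf I (mv h (by omega) (by omega) (by omega) (by omega)) (fun t => a1 (mv t (by omega) (by omega) (by omega) (by omega))) (fun t => a2 (mv t (by omega) (by omega) (by omega) (by omega))) (mv hc (by omega) (by omega) (by omega) (by omega))
    · exact D1L6m4.tB hf I (mv h (by omega) (by omega) (by omega) (by omega)) (fun t => a2 (mv t (by omega) (by omega) (by omega) (by omega))) (mv hc (by omega) (by omega) (by omega) (by omega))

theorem t8 (hf : Rule f) (hs : Side k b m) (S : Stack6 f k b m 0 0 0 0 0 1) (hn : n = m + 9 + (k + 2) * 4)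
    (hM : n ≤ M + 4) (hM' : M + 2 ≤ n)
    (d0 : Cyc f (6 * k) (b + 16) (2 * (M - 3) + 2)) (d2 : Cyc f (6 * k + 2) (b + 18) (2 * M + 2))
    (d4 : Cyc f (6 * k + 4) (b + 20) (2 * (n + 1) + 2))
    (h1 : f (6 * k) (b + 20) (2 * M + 1) (2 * M - 6) ∨ f (6 * k) (b + 20) (2 * M + 3) (2 * M - 4))
    (h2 : f (6 * k) (b + 20) (2 * M - 1) (2 * M - 8) ∨ f (6 * k) (b + 20) (2 * M + 1) (2 * M - 6))
    (b1 : ¬ f (6 * k + 1) (b + 20) (2 * M) (2 * M - 4)) (b2 : ¬ f (6 * k + 1) (b + 20) (2 * M + 2) (2 * M))
    (b3 : ¬ f (6 * k + 1) (b + 20) (2 * M + 2) (2 * M - 2)) :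
    ¬ f (6 * k + 1) (b + 24) (2 * M + 8) (2 * M + 6) := by
  have I := PL.of_stack hs S hn hM (by omega) d0 d2 d4
  have a1 := INdiag.in_diag hf hs S hn hM hM' d0 d2 d4 (x := 2 * M + 4) (y := 2 * M + 2) (by omega) (by omega)
  have a2 := INdiag.in_diag hf hs S hn hM hM' d0 d2 d4 (x := 2 * M + 6) (y := 2 * M + 4) (by omega) (by omega)
  have a3 := INdiag.in_diag hf hs S hn hM hM' d0 d2 d4 (x := 2 * M + 8) (y := 2 * M + 6) (by omega) (by omega)
  intro hc
  rcases (show M = n - 2 ∨ M = n - 3 ∨ M = n - 4 by omega) with e | e | e
  · subst e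
    rcases h1 with h | h
    · exact D1L8m2.tA hf I (mv h (by omega) (by omega) (by omega) (by omega)) (fun t => a1 (mv t (by omega) (by omega) (by omega) (by omega))) (fun t => a2 (mv t (by omega) (by omega) (by omega) (by omega))) (fun t => b2 (mv t (by omega) (by omega) (by omega) (by omega))) (fun t => b3 (mv t (by omega) (by omega) (by omega) (by omega))) (mv hc (by omega) (by omega) (by omega) (by omega))
    · rcases h2 with g | g
      · exact D1L8m2.tB hf I (mv h (by omega) (by omega) (by omega) (by omega)) (mv g (by omega) (by omega) (by omega) (by omega)) (fun t => a2 (mv t (by omega) (by omega) (by omega) (by omega))) (fun t => b1 (mv t (by omega) (by omega) (by omega) (by omega))) (fun t => b2 (mv t (by omega) (by omega) (by omega) (by omega))) (fun t => b3 (mv t (by omega) (by omega) (by omega) (by omega))) (mv hc (by omega) (by omega) (by omega) (by omega))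
      · exact D1L8m2.tA hf I (mv g (by omega) (by omega) (by omega) (by omega)) (fun t => a1 (mv t (by omega) (by omega) (by omega) (by omega))) (fun t => a2 (mv t (by omega) (by omega) (by omega) (by omega))) (fun t => b2 (mv t (by omega) (by omega) (by omega) (by omega))) (fun t => b3 (mv t (by omega) (by omega) (by omega) (by omega))) (mv hc (by omega) (by omega) (by omega) (by omega))
  · subst e
    rcases h1 with h | h
    · exact D1L8m3.tA hf I (mv h (by omega) (by omega) (by omega) (by omega)) (fun t => a1 (mv t (by omega) (by omega) (by omega) (by omega))) (fun t => a2 (mv t (by omega) (by omega) (by omega) (by omega))) (fun t => b2 (mv t (by omega) (by omega) (by omega) (by omega))) (fun t => b3 (mv t (by omega) (by omega) (by omega) (by omega))) (mv hc (by omega) (by omega) (by omega) (by omega))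
    · rcases h2 with g | g
      · exact D1L8m3.tB hf I (mv h (by omega) (by omega) (by omega) (by omega)) (mv g (by omega) (by omega) (by omega) (by omega)) (fun t => a2 (mv t (by omega) (by omega) (by omega) (by omega))) (fun t => b1 (mv t (by omega) (by omega) (by omega) (by omega))) (fun t => b2 (mv t (by omega) (by omega) (by omega) (by omega))) (fun t => b3 (mv t (by omega) (by omega) (by omega) (by omega))) (mv hc (by omega) (by omega) (by omega) (by omega))
      · exact D1L8m3.tA hf I (mv g (by omega) (by omega) (by omega) (by omega)) (fun t => a1 (mv t (by omega) (by omega) (by omega) (by omega))) (fun t => a2 (mv t (by omega) (by omega) (by omega) (by omega))) (fun t => b2 (mv t (by omega) (by omega) (by omega) (by omega))) (fun t => b3 (mv t (by omega) (by omega) (by omega) (by omega))) (mv hc (by omega) (by omega) (by omega) (by omega))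
  · subst e
    rcases h1 with h | h
    · exact D1L8m4.tA hf I (mv h (by omega) (by omega) (by omega) (by omega)) (fun t => a1 (mv t (by omega) (by omega) (by omega) (by omega))) (fun t => a2 (mv t (by omega) (by omega) (by omega) (by omega))) (fun t => b2 (mv t (by omega) (by omega) (by omega) (by omega))) (fun t => b3 (mv t (by omega) (by omega) (by omega) (by omega))) (mv hc (by omega) (by omega) (by omega) (by omega))
    · rcases h2 with g | g
      · exact D1L8m4.tB hf I (mv h (by omega) (by omega) (by omega) (by omega)) (mv g (by omega) (by omega) (by omega) (by omega)) (fun t => a2 (mv t (by omega) (by omega) (by omega) (by omega))) (fun t => b1 (mv t (by omega) (by omega) (by omega) (by omega))) (fun t => b2 (mv t (by omega) (by omega) (by omega) (by omega))) (fun t => b3 (mv t (by omega) (by omega) (by omega) (by omega))) (mv hc (by omega) (by omega) (by omega) (by omega))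
      · exact D1L8m4.tA hf I (mv g (by omega) (by omega) (by omega) (by omega)) (fun t => a1 (mv t (by omega) (by omega) (by omega) (by omega))) (fun t => a2 (mv t (by omega) (by omega) (by omega) (by omega))) (fun t => b2 (mv t (by omega) (by omega) (by omega) (by omega))) (fun t => b3 (mv t (by omega) (by omega) (by omega) (by omega))) (mv hc (by omega) (by omega) (by omega) (by omega))

theorem t10 (hf : Rule f) (hs : Side k b m) (S : Stack6 f k b m 0 0 0 0 0 1) (hn : n = m + 9 + (k + 2) * 4)
    (hM : n ≤ M + 4) (hM' : M + 2 ≤ n)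
    (d0 : Cyc f (6 * k) (b + 16) (2 * (M - 3) + 2)) (d2 : Cyc f (6 * k + 2) (b + 18) (2 * M + 2))
    (d4 : Cyc f (6 * k + 4) (b + 20) (2 * (n + 1) + 2))
    (h1 : f (6 * k) (b + 20) (2 * M + 1) (2 * M - 6) ∨ f (6 * k) (b + 20) (2 * M + 3) (2 * M - 4))
    (h2 : f (6 * k) (b + 20) (2 * M - 1) (2 * M - 8) ∨ f (6 * k) (b + 20) (2 * M + 1) (2 * M - 6))
    (b1 : ¬ f (6 * k + 1) (b + 20) (2 * M) (2 * M - 4)) (b2 : ¬ f (6 * k + 1) (b + 20) (2 * M + 2) (2 * M))
    (b3 : ¬ f (6 * k + 1) (b + 20) (2 * M + 2) (2 * M - 2)) :
    ¬ f (6 * k + 1) (b + 24) (2 * M + 10) (2 * M + 6) := by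
  have I := PL.of_stack hs S hn hM (by omega) d0 d2 d4
  have a1 := INdiag.in_diag hf hs S hn hM hM' d0 d2 d4 (x := 2 * M + 4) (y := 2 * M + 2) (by omega) (by omega)
  have a2 := INdiag.in_diag hf hs S hn hM hM' d0 d2 d4 (x := 2 * M + 6) (y := 2 * M + 4) (by omega) (by omega)
  have a3 := INdiag.in_diag hf hs S hn hM hM' d0 d2 d4 (x := 2 * M + 8) (y := 2 * M + 6) (by omega) (by omega)
  intro hc
  rcases (show M = n - 2 ∨ M = n - 3 ∨ M = n - 4 by omega) with e | e | e
  · subst e
    rcases h1 with h | h
    · exact D1L10m2.tA hf I (mv h (by omega) (by omega) (by omega) (by omega)) (fun t => a1 (mv t (by omega) (by omega) (by omega) (by omega))) (fun t => a2 (mv t (by omega) (by omega) (by omega) (by omega))) (fun t => b2 (mv t (by omega) (by omega) (by omega) (by omega))) (fun t => b3 (mv t (by omega) (by omega) (by omega) (by omega))) (mv hc (by omega) (by omega) (by omega) (by omega))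
    · rcases h2 with g | g
      · exact D1L10m2.tB hf I (mv h (by omega) (by omega) (by omega) (by omega)) (mv g (by omega) (by omega) (by omega) (by omega)) (fun t => a2 (mv t (by omega) (by omega) (by omega) (by omega))) (fun t => b1 (mv t (by omega) (by omega) (by omega) (by omega))) (fun t => b2 (mv t (by omega) (by omega) (by omega) (by omega))) (fun t => b3 (mv t (by omega) (by omega) (by omega) (by omega))) (fun t => a3 (mv t (by omega) (by omega) (by omega) (by omega))) (mv hc (by omega) (by omega) (by omega) (by omega))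
      · exact D1L10m2.tA hf I (mv g (by omega) (by omega) (by omega) (by omega)) (fun t => a1 (mv t (by omega) (by omega) (by omega) (by omega))) (fun t => a2 (mv t (by omega) (by omega) (by omega) (by omega))) (fun t => b2 (mv t (by omega) (by omega) (by omega) (by omega))) (fun t => b3 (mv t (by omega) (by omega) (by omega) (by omega))) (mv hc (by omega) (by omega) (by omega) (by omega))
  · subst e
    rcases h1 with h | h
    · exact D1L10m3.tA hf I (mv h (by omega) (by omega) (by omega) (by omega)) (fun t => a1 (mv t (by omega) (by omega) (by omega) (by omega))) (fun t => a2 (mv t (by omega) (by omega) (by omega) (by omega))) (fun t => b2 (mv t (by omega) (by omega) (by omega) (by omega))) (fun t => b3 (mv t (by omega) (by omega) (by omega) (by omega))) (mv hc (by omega) (by omega) (by omega) (by omega))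
    · rcases h2 with g | g
      · exact D1L10m3.tB hf I (mv h (by omega) (by omega) (by omega) (by omega)) (mv g (by omega) (by omega) (by omega) (by omega)) (fun t => a2 (mv t (by omega) (by omega) (by omega) (by omega))) (fun t => b1 (mv t (by omega) (by omega) (by omega) (by omega))) (fun t => b2 (mv t (by omega) (by omega) (by omega) (by omega))) (fun t => b3 (mv t (by omega) (by omega) (by omega) (by omega))) (fun t => a3 (mv t (by omega) (by omega) (by omega) (by omega))) (mv hc (by omega) (by omega) (by omega) (by omega))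
      · exact D1L10m3.tA hf I (mv g (by omega) (by omega) (by omega) (by omega)) (fun t => a1 (mv t (by omega) (by omega) (by omega) (by omega))) (fun t => a2 (mv t (by omega) (by omega) (by omega) (by omega))) (fun t => b2 (mv t (by omega) (by omega) (by omega) (by omega))) (fun t => b3 (mv t (by omega) (by omega) (by omega) (by omega))) (mv hc (by omega) (by omega) (by omega) (by omega))
  · subst e
    rcases h1 with h | h
    · exact D1L10m4.tA hf I (mv h (by omega) (by omega) (by omega) (by omega)) (fun t => a1 (mv t (by omega) (by omega) (by omega) (by omega))) (fun t => a2 (mv t (by omega) (by omega) (by omega) (by omega))) (fun t => b2 (mv t (by omega) (by omega) (by omega) (by omega))) (fun t => b3 (mv t (by omega) (by omega) (by omega) (by omega))) (mv hc (by omega) (by omega) (by omega) (by omega))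
    · rcases h2 with g | g
      · exact D1L10m4.tB hf I (mv h (by omega) (by omega) (by omega) (by omega)) (mv g (by omega) (by omega) (by omega) (by omega)) (fun t => a2 (mv t (by omega) (by omega) (by omega) (by omega))) (fun t => b1 (mv t (by omega) (by omega) (by omega) (by omega))) (fun t => b2 (mv t (by omega) (by omega) (by omega) (by omega))) (fun t => b3 (mv t (by omega) (by omega) (by omega) (by omega))) (fun t => a3 (mv t (by omega) (by omega) (by omega) (by omega))) (mv hc (by omega) (by omega) (by omega) (by omega))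
      · exact D1L10m4.tA hf I (mv g (by omega) (by omega) (by omega) (by omega)) (fun t => a1 (mv t (by omega) (by omega) (by omega) (by omega))) (fun t => a2 (mv t (by omega) (by omega) (by omega) (by omega))) (fun t => b2 (mv t (by omega) (by omega) (by omega) (by omega))) (fun t => b3 (mv t (by omega) (by omega) (by omega) (by omega))) (mv hc (by omega) (by omega) (by omega) (by omega))

end Pool.Agent.SNT.D1L
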