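import Pool.Agent.SNT.Loc
import Pool.Agent.SNT.NHZone

set_option autoImplicit false
set_option linter.unusedVariables false

/-! Near the diagonal: the `y`-signal of the column `l + 1` in the OUT row of `6 k + 4` cannot arrive at the
diagonal if the in-line `l` is missing and the in-line `l - 1` is present. -/

namespace Pool.Agent.SNT.Loc

theorem dg4_cert_chk : check 4 5 8 8 1 1 1 1 2
    (fun j n p q => decide ((j = 1 ∧ n = 1 ∧ p = 2 ∧ q = 1) ∨ (j = 1 ∧ n = 3 ∧ p = 6 ∧ q = 5) ∨ (j = 3 ∧ n = 1 ∧ p = 5 ∧ q = 4) ∨ (j = 3 ∧ n = 2 ∧ p = 4 ∧ q = 4)))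
    (fun j n p q => decide ((j = 1 ∧ n = 1 ∧ p = 4 ∧ q = 3) ∨ (j = 1 ∧ n = 2 ∧ p = 5 ∧ q = 3) ∨ (j = 4 ∧ n = 3 ∧ p = 6 ∧ q = 4) ∨ (j = 4 ∧ n = 3 ∧ p = 6 ∧ q = 5)))
    29
    0x1b603025a0002faca01b683025700025a80025a8e025a8400ed80011700018dc200c500023200021600011a80011a8e00c88000c88e02fa8702fa0702568702320f02160f011a8f01168701158700f58700cd8700c88f = true := by
  decide +kernel

theorem dg4_cert {f : ℕ → ℕ → ℕ → ℕ → Prop} (hf : Rule f) {a0 b0 x0 y0 : ℕ} (hxy : x0 = y0)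
    (ha : a0 % 2 = 1) (hb : b0 % 2 = 1) (hx : x0 % 2 = 1) (hy : y0 % 2 = 1)
    (h1 : ∀ j n p q : ℕ, InR 4 5 8 8 1 j n p q →
      ((j = 1 ∧ n = 1 ∧ p = 2 ∧ q = 1) ∨ (j = 1 ∧ n = 3 ∧ p = 6 ∧ q = 5) ∨ (j = 3 ∧ n = 1 ∧ p = 5 ∧ q = 4) ∨ (j = 3 ∧ n = 2 ∧ p = 4 ∧ q = 4)) →
      f (a0 + j) (b0 + n) (x0 + p) (y0 + q))
    (h0 : ∀ j n p q : ℕ, InR 4 5 8 8 1 j n p q →
      ((j = 1 ∧ n = 1 ∧ p = 4 ∧ q = 3) ∨ (j = 1 ∧ n = 2 ∧ p = 5 ∧ q = 3) ∨ (j = 4 ∧ n = 3 ∧ p = 6 ∧ q = 4) ∨ (j = 4 ∧ n = 3 ∧ p = 6 ∧ q = 5)) →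
      ¬ f (a0 + j) (b0 + n) (x0 + p) (y0 + q)) : False :=
  check_sound hf dg4_cert_chk
    ⟨fun _ => hxy, fun h => absurd h (by decide),
      fun h => absurd h (by decide), ha, hb, hx, hy⟩
    (fun j n p q hr h => h1 j n p q hr (of_decide_eq_true h))
    (fun j n p q hr h => h0 j n p q hr (of_decide_eq_true h))
theorem dg4b_cert_chk : check 4 6 9 9 1 0 1 1 2
    (fun j n p q => decide ((j = 1 ∧ n = 1 ∧ p = 4 ∧ q = 4) ∨ (j = 1 ∧ n = 1 ∧ p = 6 ∧ q = 6) ∨ (j = 1 ∧ n = 2 ∧ p = 2 ∧ q = 1) ∨ (j = 1 ∧ n = 4 ∧ p = 6 ∧ q = 3) ∨ (j = 3 ∧ n = 2 ∧ p = 5 ∧ q = 4) ∨ (j = 3 ∧ n = 2 ∧ p = 7 ∧ q = 4) ∨ (j = 3 ∧ n = 2 ∧ p = 7 ∧ q = 6) ∨ (j = 3 ∧ n = 3 ∧ p = 4 ∧ q = 4)))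
    (fun j n p q => decide ((j = 1 ∧ n = 1 ∧ p = 5 ∧ q = 3) ∨ (j = 1 ∧ n = 1 ∧ p = 6 ∧ q = 3) ∨ (j = 1 ∧ n = 1 ∧ p = 6 ∧ q = 4) ∨ (j = 1 ∧ n = 2 ∧ p = 4 ∧ q = 3) ∨ (j = 2 ∧ n = 4 ∧ p = 7 ∧ q = 5) ∨ (j = 4 ∧ n = 4 ∧ p = 6 ∧ q = 4) ∨ (j = 4 ∧ n = 4 ∧ p = 6 ∧ q = 5)))
    98
    0x2a10301ae8001b28002a24a02aa52015d800154800161800160800250c2024c520254c202544a01610e02a10301ae8001b28002a24a02aa5201590001610001610e016104039880039480048bc20487c203900e02aa030161800160800254c202544a02aa0301610001610401850002784203980003900e03900401868e02508301868001868401860e025083018600018604017b80034880033f80033e8001a580026ec2014980048b8e048b0e036680034c80034c8e034b80034b8e03428003428e02aa0e01b18001b18e014d80014d8e01398001388e01380e01338e012f80048b87048b0703940703668f034c8f034b8f03428f02aa0701b70701b18f01af0701ae07015d07015c07015787015407015307014d8f01398f013887013807013387012f8f =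 true := by
  decide +kernel

theorem dg4b_cert {f : ℕ → ℕ → ℕ → ℕ → Prop} (hf : Rule f) {a0 b0 x0 y0 : ℕ} (hxy : x0 = y0)
    (ha : a0 % 2 = 1) (hb : b0 % 2 = 0) (hx : x0 % 2 = 1) (hy : y0 % 2 = 1)
    (h1 : ∀ j n p q : ℕ, InR 4 6 9 9 1 j n p q →
      ((j = 1 ∧ n = 1 ∧ p = 4 ∧ q = 4) ∨ (j = 1 ∧ n = 1 ∧ p = 6 ∧ q = 6) ∨ (j = 1 ∧ n = 2 ∧ p = 2 ∧ q = 1) ∨ (j = 1 ∧ n = 4 ∧ p = 6 ∧ q = 3) ∨ (j = 3 ∧ n = 2 ∧ p = 5 ∧ q = 4) ∨ (j = 3 ∧ n = 2 ∧ p = 7 ∧ q = 4) ∨ (j = 3 ∧ n = 2 ∧ p = 7 ∧ q = 6) ∨ (j = 3 ∧ n = 3 ∧ p = 4 ∧ q = 4)) →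
      f (a0 + j) (b0 + n) (x0 + p) (y0 + q))
    (h0 : ∀ j n p q : ℕ, InR 4 6 9 9 1 j n p q →
      ((j = 1 ∧ n = 1 ∧ p = 5 ∧ q = 3) ∨ (j = 1 ∧ n = 1 ∧ p = 6 ∧ q = 3) ∨ (j = 1 ∧ n = 1 ∧ p = 6 ∧ q = 4) ∨ (j = 1 ∧ n = 2 ∧ p = 4 ∧ q = 3) ∨ (j = 2 ∧ n = 4 ∧ p = 7 ∧ q = 5) ∨ (j = 4 ∧ n = 4 ∧ p = 6 ∧ q = 4) ∨ (j = 4 ∧ n = 4 ∧ p = 6 ∧ q = 5)) →
      ¬ f (a0 + j) (b0 + n) (x0 + p) (y0 + q)) : False :=
  check_sound hf dg4b_cert_chk
    ⟨fun _ => hxy, fun h => absurd h (by decide),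
      fun h => absurd h (by decide), ha, hb, hx, hy⟩
    (fun j n p q hr h => h1 j n p q hr (of_decide_eq_true h))
    (fun j n p q hr h => h0 j n p q hr (of_decide_eq_true h))

end Pool.Agent.SNT.Loc

namespace Pool.Agent.SNT.NHZ

open Pool.Agent.SNT Pool.Agent.SNT.Sig Pool.Agent.SNT.ZoneT Pool.Agent.SNT.ZoneI Pool.Agent.SNT.LW

variable {f : ℕ → ℕ → ℕ → ℕ → Prop} {k b m : ℕ}

/-- `NHT.rm1` with a free row -/
theorem zrm1 (hf : Rule f) {k c N M R x y p j : ℕ} (h : NHT f k c N) (hR : R + 1 = c) (hj : j ≤ 3) (hp : p ≤ 1)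
    (hL : M + 2 * j = 6 * k + 6 + p) (hy : N ≤ y + 5) (h1 : y + 1 + j ≤ x) (h2 : x + 2 + j ≤ y + 2 * k) : ¬ f M R x y := by
  have e : R = c - 1 := by omega
  subst e
  exact h.rm1 hf hj hp hL hy h1 h2

/-- **DG4.** `c = b + 22` is the IN row of the top leader, `s = 2 l`. If the tip `l` of `6 k + 4` in the IN row
`c - 2` is missing and the tip `l - 1` is present then the last cell of the `y`-signal of the column `l + 1` in the
OUT row `c` is zero. -/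
theorem dg4 (hf : Rule f) (hs : Side k b m) (S : Stack6 f k b m 0 0 0 0 0 1) {s : ℕ}
    (hs2 : s % 2 = 0) (hN : 2 * (m + 9 + (k + 2) * 4) ≤ s + 2)
    (h1 : ¬ f (6 * k + 4) (b + 20) (s + 1) s) (h2 : f (6 * k + 4) (b + 20) (s - 1) (s - 2)) :
    ¬ f (6 * k + 4) (b + 22) (s + 3) (s + 2) := by
  intro h3
  have Z := NHT.of_stack hs S
  obtain ⟨hk, hb, h4, hb2, hm⟩ := hs
  have y6_4 : Lay (6 * k + 6) (b + 2 + 4 * 4) (k + 1) := ⟨by omega, by omega, by omega, by omega⟩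
  refine Loc.dg4_cert hf (a0 := 6 * k + 3) (b0 := b + 19) (x0 := s - 3) (y0 := s - 3) (by omega) (by omega) (by omega)
    (by omega) (by omega) ?_ ?_
  · intro j n p q _ hx
    rcases hx with ⟨rfl, rfl, rfl, rfl⟩ | ⟨rfl, rfl, rfl, rfl⟩ | ⟨rfl, rfl, rfl, rfl⟩ | ⟨rfl, rfl, rfl, rfl⟩
    · exact mv h2 (by omega) (by omega) (by omega) (by omega)
    · exact mv h3 (by omega) (by omega) (by omega) (by omega)
    · exact (v2s y6_4 (S.l6 4) (by omega) (by omega) (by omega) (by omega) (by omega) (by omega)).2 (by unfold V2; omega)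
    · exact (v3s y6_4 (S.l6 4) (by omega) (by omega) (by omega) (by omega) (by omega) (by omega)).2 (by unfold V3; omega)
  · intro j n p q _ hx
    rcases hx with ⟨rfl, rfl, rfl, rfl⟩ | ⟨rfl, rfl, rfl, rfl⟩ | ⟨rfl, rfl, rfl, rfl⟩ | ⟨rfl, rfl, rfl, rfl⟩
    · exact fun t => h1 (mv t (by omega) (by omega) (by omega) (by omega))
    · exact zrm1 hf Z (R := b + 18 + 3) (p := 0) (j := 1) (by omega) (by omega) (by omega) (by omega) (by omega) (by omega) (by omega)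
    · exact Z.p0 hf (j := 0) (by omega) (by omega) (by omega) (by omega) (by omega) (by omega)
    · exact Z.p0 hf (j := 0) (by omega) (by omega) (by omega) (by omega) (by omega) (by omega)

/-- **DG4**, one cell earlier. -/
theorem dg4b (hf : Rule f) (hs : Side k b m) (S : Stack6 f k b m 0 0 0 0 0 1) {s : ℕ}
    (hs2 : s % 2 = 0) (hN : 2 * (m + 9 + (k + 2) * 4) ≤ s + 2)
    (h1 : ¬ f (6 * k + 4) (b + 20) (s + 1) s) (h2 : f (6 * k + 4) (b + 20) (s - 1) (s - 2)) :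
    ¬ f (6 * k + 4) (b + 22) (s + 3) s := by
  intro h3
  have Z := NHT.of_stack hs S
  obtain ⟨hk, hb, h4, hb2, hm⟩ := hs
  have y6_4 : Lay (6 * k + 6) (b + 2 + 4 * 4) (k + 1) := ⟨by omega, by omega, by omega, by omega⟩
  have y4_4 : Lay (6 * k + 4) (b + 4 * 4) k := ⟨by omega, by omega, by omega, by omega⟩
  refine Loc.dg4b_cert hf (a0 := 6 * k + 3) (b0 := b + 18) (x0 := s - 3) (y0 := s - 3) (by omega) (by omega) (by omega)
    (by omega) (by omega) ?_ ?_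
  · intro j n p q _ hx
    rcases hx with ⟨rfl, rfl, rfl, rfl⟩ | ⟨rfl, rfl, rfl, rfl⟩ | ⟨rfl, rfl, rfl, rfl⟩ | ⟨rfl, rfl, rfl, rfl⟩ | ⟨rfl, rfl, rfl, rfl⟩ | ⟨rfl, rfl, rfl, rfl⟩ |
      ⟨rfl, rfl, rfl, rfl⟩ | ⟨rfl, rfl, rfl, rfl⟩
    · exact (v3s y4_4 (S.l4 4) (by omega) (by omega) (by omega) (by omega) (by omega) (by omega)).2 (by unfold V3; omega)
    · exact (v3s y4_4 (S.l4 4) (by omega) (by omega) (by omega) (by omega) (by omega) (by omega)).2 (by unfold V3; omega)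
    · exact mv h2 (by omega) (by omega) (by omega) (by omega)
    · exact mv h3 (by omega) (by omega) (by omega) (by omega)
    · exact (v2s y6_4 (S.l6 4) (by omega) (by omega) (by omega) (by omega) (by omega) (by omega)).2 (by unfold V2; omega)
    · exact (v2s y6_4 (S.l6 4) (by omega) (by omega) (by omega) (by omega) (by omega) (by omega)).2 (by unfold V2; omega)
    · exact (v2s y6_4 (S.l6 4) (by omega) (by omega) (by omega) (by omega) (by omega) (by omega)).2 (by unfold V2; omega)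
    · exact (v3s y6_4 (S.l6 4) (by omega) (by omega) (by omega) (by omega) (by omega) (by omega)).2 (by unfold V3; omega)
  · intro j n p q _ hx
    rcases hx with ⟨rfl, rfl, rfl, rfl⟩ | ⟨rfl, rfl, rfl, rfl⟩ | ⟨rfl, rfl, rfl, rfl⟩ | ⟨rfl, rfl, rfl, rfl⟩ | ⟨rfl, rfl, rfl, rfl⟩ | ⟨rfl, rfl, rfl, rfl⟩ |
      ⟨rfl, rfl, rfl, rfl⟩
    · exact fun t => absurd ((v3s y4_4 (S.l4 4) (by omega) (by omega) (by omega) (by omega) (by omega) (by omega)).1 t) (by unfold V3; omega)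
    · exact fun t => absurd ((v3s y4_4 (S.l4 4) (by omega) (by omega) (by omega) (by omega) (by omega) (by omega)).1 t) (by unfold V3; omega)
    · exact fun t => absurd ((v3s y4_4 (S.l4 4) (by omega) (by omega) (by omega) (by omega) (by omega) (by omega)).1 t) (by unfold V3; omega)
    · exact fun t => h1 (mv t (by omega) (by omega) (by omega) (by omega))
    · exact Z.p0 hf (j := 1) (by omega) (by omega) (by omega) (by omega) (by omega) (by omega)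
    · exact Z.p0 hf (j := 0) (by omega) (by omega) (by omega) (by omega) (by omega) (by omega)
    · exact Z.p0 hf (j := 0) (by omega) (by omega) (by omega) (by omega) (by omega) (by omega)

end Pool.Agent.SNT.NHZ
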