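import Pool.Agent.SNT.K0L4
import Pool.Agent.SNT.DG4

set_option autoImplicit false

/-! The improved lead of the layer `6 k + 4` below the top leader: the step of the descent, up to the near wall
window `W4`. -/

namespace Pool.Agent.SNT.NHZ

open Pool.Agent.SNT Pool.Agent.SNT.Sig Pool.Agent.SNT.ZoneT Pool.Agent.SNT.ZoneI Pool.Agent.SNT.LW Pool.Agent.SNT.DRun

variable {f : ℕ → ℕ → ℕ → ℕ → Prop} {k b m : ℕ}

/-- The run of a `y`-signal of the layer `6 k + 4` in the row `c`, up to three cells before the diagonal. -/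
theorem run_c4 (hf : Rule f) {c N x y0 : ℕ} (T : NHT f k c N) (hx : x % 2 = 1) (hy : y0 % 2 = 0) (hX : N + 2 ≤ x)
    (hw : x + 4 ≤ y0 + 2 * k) (h0 : f (6 * k + 4) c x y0) :
    ∀ y, y0 ≤ y → y + 3 ≤ x → y % 2 = 0 → f (6 * k + 4) c x y := by
  have hc := T.hc
  intro y h1 h2 h3
  exact col_run hf (y1 := x - 3) (by omega) (by omega) hx hy
    (fun z h4 h5 h6 => T.c0i hf (j := 3) (by omega) (by omega) hX (by omega) (by omega) (by omega)) h0 y h1 (by omega) h3

/-- **The step for `6 k + 4`**: in the IN row `c - 2 = b + 20`, with the lead `l ≥ n + 2` the tip `l` is present. -/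
theorem d1l4_tip (hf : Rule f) (hs : Side k b m) (S : Stack6 f k b m 0 0 0 0 0 1) {l : ℕ}
    (hl : m + 9 + (k + 2) * 4 ≤ l)
    (W4 : (∀ y : ℕ, y % 2 = 0 → 2 * l + 4 ≤ y + 2 * k → y ≤ 2 * l → ¬ f (6 * k + 4) (b + 20) (2 * l + 1) y) →
      ∀ y : ℕ, y + 2 * k = 2 * l + 8 → f (6 * k + 4) (b + 22) (2 * l + 3) y) :
    f (6 * k + 4) (b + 20) (2 * l + 1) (2 * l) := by
  by_contra ht
  have T := NHT.of_stack hs S
  have hs' := hs
  obtain ⟨hk, hb, h4, hb2, hm⟩ := hs'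
  have C4a : Cyc f (6 * k + 4) (b + 22 - 6) (2 * (m + 9 + (k + 2) * 4 - 7) + 2) := by
    rw [show b + 22 - 6 = b + 4 * 4 by omega, show m + 9 + (k + 2) * 4 - 7 = m + 2 + 0 + (k + 2) * 4 by omega]
    exact S.l4 4
  have C6 : Cyc f (6 * k + 6) (b + 22 - 4) (2 * (m + 9 + (k + 2) * 4 - 5) + 2) := by
    rw [show b + 22 - 4 = b + 2 + 4 * 4 by omega, show m + 9 + (k + 2) * 4 - 5 = m + 4 + 0 + (k + 2) * 4 by omega]
    exact S.l6 4
  have e20 : b + 22 - 2 = b + 20 := by omega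
  have hz : ∀ y : ℕ, y % 2 = 0 → 2 * l + 4 ≤ y + 2 * k → y ≤ 2 * l → ¬ f (6 * k + 4) (b + 20) (2 * l + 1) y := by
    intro y h1 h2 h3 h5
    have h6 := K0L4.run4 hf (x := 2 * l + 1) (y0 := y) T C4a C6 (by omega) h1 (by omega) (by omega)
      (by rw [e20]; exact h5) (2 * l) h3 (by omega) (by omega)
    rw [e20] at h6
    exact ht h6
  obtain ⟨y0, hy0⟩ : ∃ y0, y0 + 2 * k = 2 * l + 8 := ⟨2 * l + 8 - 2 * k, by omega⟩
  have hY := W4 hz y0 hy0
  have hR := run_c4 hf T (x := 2 * l + 3) (y0 := y0) (by omega) (by omega) (by omega) (by omega) hY (2 * l)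
    (by omega) (by omega) (by omega)
  have ht1 : f (6 * k + 4) (b + 20) (2 * l - 1) (2 * l - 2) := by
    rcases K0L4.tip4_stack hf hs S (x := 2 * l - 1) (by omega) (by omega) with h | h
    · rwa [show 2 * l - 1 - 1 = 2 * l - 2 by omega] at h
    · rw [show 2 * l - 1 + 2 = 2 * l + 1 by omega, show 2 * l - 1 + 1 = 2 * l by omega] at h
      exact absurd h ht
  exact dg4b hf hs S (s := 2 * l) (by omega) (by omega) ht ht1 hR

end Pool.Agent.SNT.NHZ
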