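import Pool.Agent.SNT.D1BirthE
import Pool.Agent.SNT.E1Asm

set_option autoImplicit false

/-! `E1 = 0` for the first two tips (helper26's `noE1`) plugged into the frame of `D1BirthE`: with the strict birth
`SBirth` of `6 k + 2` the contexts `t = 2`, `t = 1` are impossible. -/

namespace Pool.Agent.SNT.D1

variable {f : ℕ → ℕ → ℕ → ℕ → Prop} {k : ℕ}

theorem noE1_two (hf : Rule f) : NoE1 f k 2 1 := fun _ _ C => noE1 hf (by omega) C

theorem noE1_one (hf : Rule f) : NoE1 f k 1 1 := fun _ _ C => noE1 hf (by omega) C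

/-- `l = -2`: from the strict birth. -/
theorem noCtx_two (hf : Rule f) (SB : SBirth f k 2) : NoCtx f k 2 := noCtx_of_sb (noE1_two hf) SB

/-- `l = -3`: from the strict birth. -/
theorem noCtx_one (hf : Rule f) (SB : SBirth f k 1) : NoCtx f k 1 := noCtx_of_sb (noE1_one hf) SB

/-- `l = -4`: from the strict birth and `E1 = 0`. -/
theorem noCtx_zero {R : ℕ} (N : NoE1 f k 0 R) (SB : SBirth f k 0) : NoCtx f k 0 := noCtx_of_sb N SB

/-- All the steps of the improved leads from the strict births and from `E1 = 0` for `l = -4`. -/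
theorem steps_of_sb (hf : Rule f) (hk : 8 ≤ k) {R : ℕ} (B2 : SBirth f k 2) (B1 : SBirth f k 1) (N : NoE1 f k 0 R)
    (B0 : SBirth f k 0) : Steps f k 0 1 :=
  steps_of_noCtx hf hk (noCtx_two hf B2) (noCtx_one hf B1) (noCtx_zero N B0)

end Pool.Agent.SNT.D1
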