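import Pool.Agent.SNT.P1_p1

set_option autoImplicit false

/-! `P_(6 k + 1)` vanishes in the row `c - 4 = b + 18`, in the window `2 ≤ d ≤ 2 k - 2`, with the nominal leads of
the four lower layers only (helper26, for `D1.Steps`). -/

namespace Pool.Agent.SNT.NoP1

open Pool.Agent.SNT Pool.Agent.SNT.ZoneT Pool.Agent.SNT.ZoneI Pool.Agent.SNT.LW Pool.Agent.SNT.NHZ

variable {f : ℕ → ℕ → ℕ → ℕ → Prop} {k b m e8 e10 n : ℕ}

/-- The tower of the OUT rows `c - 8, c - 6, c - 4, c - 2` of the layers `6 k, .., 6 k + 6`. -/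
theorem towO (hs : Side k b m) (S : Stack6 f k b m 0 0 0 0 e8 e10) (hn : n = m + 9 + (k + 2) * 4) :
    Tower f (6 * k) (b + 14) 3 (2 * k) (fun t => 2 * n - 18 + 4 * t) := by
  obtain ⟨hk, hb, h4, hb2, hm⟩ := hs
  refine ⟨by omega, by omega, by omega, by omega, ?_, ?_⟩
  · intro t ht
    omega
  · intro t x y ht hy h1 h2 hx1 hy1
    interval_cases t
    · exact (out_cyc (S.l0 3) (by omega) (by omega) (by omega) (by omega) (by omega) h1 (by omega)).2 ⟨hx1, hy1⟩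
    · exact (out_cyc (S.l2 3) (by omega) (by omega) (by omega) (by omega) (by omega) h1 (by omega)).2 ⟨hx1, hy1⟩
    · exact (out_cyc (S.l4 4) (by omega) (by omega) (by omega) (by omega) (by omega) h1 (by omega)).2 ⟨hx1, hy1⟩
    · exact (out_cyc (S.l6 4) (by omega) (by omega) (by omega) (by omega) (by omega) h1 (by omega)).2 ⟨hx1, hy1⟩

/-- The tower of the IN rows `c - 10, c - 8, c - 6, c - 4` of the layers `6 k, .., 6 k + 6`. -/
theorem towI (hs : Side k b m) (S : Stack6 f k b m 0 0 0 0 e8 e10) (hn : n = m + 9 + (k + 2) * 4) :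
    InTower f (6 * k) (b + 12) 3 (2 * k) (fun t => 2 * n - 19 + 4 * t) := by
  obtain ⟨hk, hb, h4, hb2, hm⟩ := hs
  refine ⟨by omega, by omega, by omega, by omega, ?_, ?_, ?_⟩
  · intro t ht
    omega
  · intro t ht
    omega
  · intro t x y ht hy h1 h2 hx1 hy1
    interval_cases t
    · have e : b + 12 + 2 * 0 = b + 4 * 3 := by omega
      rw [e]
      exact (in_cyc (S.l0 3) (by omega) (by omega) (by omega) (by omega) h1 (by omega)).2 ⟨hx1, hy1⟩
    · have e : b + 12 + 2 * 1 = b + 2 + 4 * 3 := by omega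
      rw [e]
      exact (in_cyc (S.l2 3) (by omega) (by omega) (by omega) (by omega) h1 (by omega)).2 ⟨hx1, hy1⟩
    · have e : b + 12 + 2 * 2 = b + 4 * 4 := by omega
      rw [e]
      exact (in_cyc (S.l4 4) (by omega) (by omega) (by omega) (by omega) h1 (by omega)).2 ⟨hx1, hy1⟩
    · have e : b + 12 + 2 * 3 = b + 2 + 4 * 4 := by omega
      rw [e]
      exact (in_cyc (S.l6 4) (by omega) (by omega) (by omega) (by omega) h1 (by omega)).2 ⟨hx1, hy1⟩

/-- Away from the wall: `2 ≤ d ≤ 2 k - 3`, all parities, `y ≥ 2 n - 10` (from the OUT row of `6 k + 4`). -/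
theorem lo (hf : Rule f) (hs : Side k b m) (S : Stack6 f k b m 0 0 0 0 e8 e10) (hn : n = m + 9 + (k + 2) * 4)
    {x y : ℕ} (hy : 2 * n ≤ y + 10) (h1 : y + 2 ≤ x) (h2 : x + 3 ≤ y + 2 * k) : ¬ f (6 * k + 1) (b + 18) x y := by
  have hm := hs.2.2.2.2
  refine (towO hs S hn).P hf (t := 2) (s := 1) (j := 1) (q := 0) (by omega) (by omega) (by omega) (by omega)
    (by omega) ?_ (by omega) (by omega)
  omega

/-- Away from the diagonal: `3 ≤ d ≤ 2 k - 4`, all parities, `x ≥ 2 n - 8` (from the IN row of `6 k + 6`). -/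
theorem mid (hf : Rule f) (hs : Side k b m) (S : Stack6 f k b m 0 0 0 0 e8 e10) (hn : n = m + 9 + (k + 2) * 4)
    {x y : ℕ} (hx : 2 * n ≤ x + 8) (h1 : y + 3 ≤ x) (h2 : x + 4 ≤ y + 2 * k) : ¬ f (6 * k + 1) (b + 18) x y := by
  have hm := hs.2.2.2.2
  refine (towI hs S hn).P hf (t := 3) (s := 1) (j := 2) (q := 0) (by omega) (by omega) (by omega) (by omega)
    (by omega) ?_ (by omega) (by omega) (by omega)
  omega

/-- The even window but the wall cell: `2 ≤ d ≤ 2 k - 4`, `x ≥ 2 n - 8`. -/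
theorem noP1w (hf : Rule f) (hs : Side k b m) (S : Stack6 f k b m 0 0 0 0 e8 e10) (hn : n = m + 9 + (k + 2) * 4)
    {x y : ℕ} (hx : 2 * n ≤ x + 8) (hp : (x + y) % 2 = 0) (h1 : y + 2 ≤ x) (h2 : x + 4 ≤ y + 2 * k) :
    ¬ f (6 * k + 1) (b + 18) x y := by
  rcases Nat.lt_or_ge x (y + 3) with h | h
  · exact lo hf hs S hn (by omega) h1 (by omega)
  · exact mid hf hs S hn hx h h2

/-- **`P_(6 k + 1)` in the row `c - 4`, `x ≥ 2 n - 4`, `2 ≤ d ≤ 2 k - 2`**, up to the wall cell. -/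
theorem noP1 (hf : Rule f) (hs : Side k b m) (S : Stack6 f k b m 0 0 0 0 e8 e10) (hn : n = m + 9 + (k + 2) * 4)
    {x y : ℕ} (hx : 2 * n ≤ x + 4) (hp : (x + y) % 2 = 0) (h1 : y + 2 ≤ x) (h2 : x + 2 ≤ y + 2 * k)
    (W : ∀ y : ℕ, y + 2 * k = x + 2 → ¬ f (6 * k + 1) (b + 18) x y) :
    ¬ f (6 * k + 1) (b + 18) x y := by
  rcases Nat.lt_or_ge (y + 2 * k) (x + 4) with h | h
  · exact W y (by omega)
  · exact noP1w hf hs S hn (by omega) hp h1 h

/-- **`P_(6 k + 1)` in the row `c - 4`, `x = 2 n - 6`, `2 ≤ d ≤ 2 k - 2`**: `L0@c-6` and `L2@c-4` improved by one. -/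
theorem noP1_m6 (hf : Rule f) (hs : Side k b m) (S : Stack6 f k b m 0 0 0 0 e8 e10)
    (hn : n = m + 9 + (k + 2) * 4) (d0 : Cyc f (6 * k) (b + 16) (2 * (n - 5) + 2))
    (d2 : Cyc f (6 * k + 2) (b + 18) (2 * (n - 3) + 2))
    {x y : ℕ} (hx : x + 6 = 2 * n) (hp : (x + y) % 2 = 0) (h1 : y + 2 ≤ x) (h2 : x + 2 ≤ y + 2 * k) :
    ¬ f (6 * k + 1) (b + 18) x y := by
  rcases Nat.lt_or_ge (y + 2 * k) (x + 4) with h | h
  · exact P1W.p1_m6 hf hs S hn d0 d2 hx (by omega)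
  · exact noP1w hf hs S hn (by omega) hp h1 h

/-- **`P_(6 k + 1)` in the row `c - 4`, `x = 2 n - 8`, `2 ≤ d ≤ 2 k - 2`**: `L0@c-6` with lead `n - 5` (or better) and
`L2@c-4` with lead `n - 4`. -/
theorem noP1_m8 (hf : Rule f) (hs : Side k b m) (S : Stack6 f k b m 0 0 0 0 e8 e10)
    (hn : n = m + 9 + (k + 2) * 4) (d0 : Cyc f (6 * k) (b + 16) (2 * (n - 5) + 2))
    (d2 : Cyc f (6 * k + 2) (b + 18) (2 * (n - 4) + 2))
    {x y : ℕ} (hx : x + 8 = 2 * n) (hp : (x + y) % 2 = 0) (h1 : y + 2 ≤ x) (h2 : x + 2 ≤ y + 2 * k) :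
    ¬ f (6 * k + 1) (b + 18) x y := by
  rcases Nat.lt_or_ge (y + 2 * k) (x + 4) with h | h
  · exact P1W.p1_m8 hf hs S hn d0 d2 hx (by omega)
  · exact noP1w hf hs S hn (by omega) hp h1 h

end Pool.Agent.SNT.NoP1
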