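import Pool.Agent.SNT.D1T0
import Pool.Agent.SNT.D1L0L
import Pool.Agent.SNT.NoP1
import Pool.Agent.SNT.StackShift

set_option autoImplicit false

/-! The improved lead `n - 7` of `6 k` in the window of the leader `6 k + 8` (`n = nn k m j`, the numbering of
`6 k + 10`), from the steps `D1.Steps f k 0 1` (helper26). -/

namespace Pool.Agent.SNT.D1

open Pool.Agent.SNT Pool.Agent.SNT.LW

variable {f : ℕ → ℕ → ℕ → ℕ → Prop} {k b m e8 e10 : ℕ}

/-- **The step `s0b` for general `e8`, `e10`** (no lead of `6 k + 4`): `6 k` from `n - 6` to `n - 7`, with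
`6 k + 2` at `n - 4`. -/
theorem s0b_gen (hf : Rule f) (S : StackA f k b m 0 0 0 0 e8 e10) (q2 : Q2 f k b m 0 1) (q0 : Q0 f k b m 0 1) :
    Cyc f (6 * k) (b + 4 * 1 + 16) (2 * (nn k m 1 + 0 - 7) + 2) := by
  refine loc_c1 hf (t := 0) S q0 ?_
  by_contra ht
  obtain ⟨hk, hb, h4, hb2, hm⟩ := id S.side
  have hn1 : nn k m 1 = m + (k + 2) + 9 + (k + 2) * 4 := by unfold nn; ring
  have S1 := S.shift 1
  obtain ⟨j, hj1, hj2, hj⟩ := D1T.birth0 hf (S.shift 1) (N := nn k m 1 - 6) (by rw [hn1]; omega)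
    (by
      intro j
      refine cyc_of_eq (q0 (1 + j) (by omega)) (by omega) ?_
      have : nn k m (1 + j) = nn k m 1 + (k + 2) * j := by unfold nn; ring
      rw [this]
      omega)
    (by
      rw [show 2 * (nn k m 1 - 6) + 1 = 2 * (nn k m 1 + 0 - 7) + 3 by omega,
        show 2 * (nn k m 1 - 6) = 2 * (nn k m 1 + 0 - 7) + 2 by omega]
      exact ht)
  have S4 := S.shift 4
  have hn4 : nn k m 4 = m + (k + 2) * 4 + 9 + (k + 2) * 4 := by unfold nn; ring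
  have hn41 : nn k m 4 = nn k m 1 + (k + 2) * 3 := by unfold nn; ring
  refine NoP1.noP1_m8 hf S4.side S4.stack hn4 ?_ ?_ (x := 2 * (nn k m 1 - 6 + 3 * k + 6) + 4) (y := 2 * j + 2)
    (by omega) (by omega) (by omega) (by omega) ?_
  · exact cyc_of_eq ((q0 4 (by omega)).mono' (K' := 2 * (nn k m 4 - 5) + 2) (by omega)) (by omega) rfl
  · exact cyc_of_eq (q2 4 (by omega)) (by omega) (by omega)
  · rw [show b + 4 * 4 + 18 = b + 4 * 1 + 30 by omega]
    exact hj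

/-- The windows of the leader `6 k + 8` are windows of the leader `6 k + 10` with `m + 1`. -/
theorem stackA_of8 (S : StackA f k b m 0 0 0 0 1 1) : StackA f k b (m + 1) 0 0 0 0 0 1 := by
  intro j
  have h := S j
  rw [show m + 1 + (k + 2) * j = m + (k + 2) * j + 1 by ring]
  exact ⟨h.1.succ, h.2.of8⟩

theorem nn_succ (k m j : ℕ) : nn k (m + 1) j = nn k m j + 1 := by
  unfold nn
  ring

/-- **The lead `n - 7` of `6 k` over `StackB .. 0 0 0 0 1 1`**, in all cycles of the window. -/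
theorem r8_l0 (hf : Rule f) (H : Steps f k 0 1) (S : StackB f k b m 0 0 0 0 1 1) (hk : 8 ≤ k) (j : ℕ) :
    Cyc f (6 * k) (b + 4 * j + 16) (2 * (nn k m j - 7) + 2) := by
  obtain ⟨b', m', rfl, rfl, S'⟩ := S.back (j := 3 * k + 6) (by omega)
  obtain ⟨q0, q2, -⟩ := all H (stackA_of8 S') hk
  have p0 : Q0 f k b' m' (3 * k + 5) 1 := fun i hi =>
    cyc_of_eq (q0 i hi) rfl (by rw [nn_succ])
  have p2 : Q2 f k b' m' (3 * k + 5) 1 := fun i hi =>
    cyc_of_eq (q2 i hi) rfl (by rw [nn_succ])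
  have h := s0b_gen hf (S'.shift (3 * k + 5 + j)) (p2.at (i := 3 * k + 5 + j) (by omega))
    (p0.at (i := 3 * k + 5 + j) (by omega))
  refine cyc_of_eq h (by ring) ?_
  have e1 : nn k (m' + (k + 2) * (3 * k + 5 + j)) 1 = nn k m' (3 * k + 5 + j + 1) :=
    nn_shift k m' (3 * k + 5 + j) 1
  have e2 : nn k (m' + (k + 2) * (3 * k + 6)) j = nn k m' (3 * k + 6 + j) := nn_shift k m' (3 * k + 6) j
  rw [e1, e2, show 3 * k + 5 + j + 1 = 3 * k + 6 + j by omega]
  rfl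

/-- **All the leads over `StackB .. 0 0 0 0 1 1`**: `(L4, L2, L0) = (n + 2, n - 4, n - 7)`. -/
theorem main8 (hf : Rule f) (H : Steps f k 0 1) (S : StackB f k b m 0 0 0 0 1 1) (hk : 8 ≤ k) (j : ℕ) :
    Cyc f (6 * k) (b + 4 * j + 16) (2 * (nn k m j - 7) + 2) ∧
    Cyc f (6 * k + 2) (b + 4 * j + 18) (2 * (nn k m j - 4) + 2) ∧
    Cyc f (6 * k + 4) (b + 4 * j + 20) (2 * (nn k m j + 2) + 2) := by
  refine ⟨r8_l0 hf H S hk j, ?_⟩
  obtain ⟨b', m', rfl, rfl, S'⟩ := S.back (j := 3 * k + 5) (by omega)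
  obtain ⟨-, q2, q4⟩ := all H (stackA_of8 S') hk
  have e : nn k (m' + (k + 2) * (3 * k + 5)) j = nn k m' (3 * k + 5 + j) :=
    nn_shift k m' (3 * k + 5) j
  exact ⟨cyc_of_eq (q2 (3 * k + 5 + j) (by omega)) (by ring) (by rw [e, nn_succ]; omega),
    cyc_of_eq (q4 (3 * k + 5 + j) (by omega)) (by ring) (by rw [e, nn_succ])⟩

end Pool.Agent.SNT.D1
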