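import Pool.Agent.SNT.D1Birth
import Pool.Agent.SNT.SNothP
import Pool.Agent.SNT.NHZone2

set_option autoImplicit false

/-! The strict birth of `6 k + 2` over `Ctx` (helper44): `D1.sb`.  `PZ f k b n M`: the cells of
`P = 6 k + 1` which have to be zero, in the window `(b, m)`, `c = b + 22`, `n = m + 9 + (k + 2) * 4`
(rows `c` = IN row and `c + 2` = OUT row of `6 k + 2`), `M = n + l` the lead of `6 k + 2` in the row
`c - 4`.  `PX f k b M`: the cells needed in one cycle only. -/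

namespace Pool.Agent.SNT.D1

open Pool.Agent.SNT Pool.Agent.SNT.NHZ

variable {f : ℕ → ℕ → ℕ → ℕ → Prop} {k b m t : ℕ}

/-- The zero cells of `6 k + 1` in every cycle (all `x`, `y` even). -/
structure PZ (f : ℕ → ℕ → ℕ → ℕ → Prop) (k b M : ℕ) : Prop where
  /-- IN row, slanted zone, the part `2 M + 2 ≤ y` -/
  i1 : ∀ x y : ℕ, x % 2 = 0 → y % 2 = 0 → y ≤ x → x + 4 ≤ y + 2 * k → 4 * M + 8 ≤ x + y →
    2 * M + 2 ≤ y → ¬ f (6 * k + 1) (b + 22) x y
  /-- IN row, `d = 2 k - 2` -/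
  i2 : ∀ x y : ℕ, x % 2 = 0 → x + 2 = y + 2 * k → 2 * M + 2 * k + 4 ≤ x → ¬ f (6 * k + 1) (b + 22) x y
  /-- IN row, `d = 2 k` -/
  i3 : ∀ x y : ℕ, x % 2 = 0 → x = y + 2 * k → 2 * M + 2 * k + 6 ≤ x → ¬ f (6 * k + 1) (b + 22) x y
  /-- IN row, `d = 2 k + 2` -/
  i4 : ∀ x y : ℕ, x % 2 = 0 → x = y + 2 * k + 2 → 2 * M + 2 * k + 6 ≤ x → ¬ f (6 * k + 1) (b + 22) x y
  /-- IN row, `(2 M + 2, 2 M + 2)` -/
  i5 : ¬ f (6 * k + 1) (b + 22) (2 * M + 2) (2 * M + 2)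
  /-- IN row, `(2 M + 4, 2 M + 2)` -/
  i6 : ¬ f (6 * k + 1) (b + 22) (2 * M + 4) (2 * M + 2)
  /-- OUT row, slanted zone -/
  o1 : ∀ x y : ℕ, x % 2 = 0 → y % 2 = 0 → y ≤ x → x + 4 ≤ y + 2 * k → 4 * M + 2 * k + 12 ≤ x + y →
    ¬ f (6 * k + 1) (b + 24) x y
  /-- OUT row, `d = 2 k - 2` -/
  o2 : ∀ x y : ℕ, x % 2 = 0 → x + 2 = y + 2 * k → 2 * M + 2 * k + 6 ≤ x → ¬ f (6 * k + 1) (b + 24) x y
  /-- OUT row, `d = 2 k` -/
  o3 : ∀ x y : ℕ, x % 2 = 0 → x = y + 2 * k → 2 * M + 2 * k + 6 ≤ x → ¬ f (6 * k + 1) (b + 24) x y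
  /-- OUT row, `d = 2 k + 2` -/
  o4 : ∀ x y : ℕ, x % 2 = 0 → x = y + 2 * k + 2 → 2 * M + 4 * k + 4 ≤ x → ¬ f (6 * k + 1) (b + 24) x y
  /-- OUT row, `d = 2 k + 4` -/
  o5 : ∀ x y : ℕ, x % 2 = 0 → x = y + 2 * k + 4 → 2 * M + 4 * k + 6 ≤ x → ¬ f (6 * k + 1) (b + 24) x y

/-- The other zero cells of `6 k + 1` (one cycle). -/
structure PX (f : ℕ → ℕ → ℕ → ℕ → Prop) (k b M : ℕ) : Prop where
  /-- IN row, `(2 M + 4, 2 M)` -/
  a1 : ¬ f (6 * k + 1) (b + 22) (2 * M + 4) (2 * M)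
  /-- IN row, `(2 M + 2 k, 2 M + 2)`, `d = 2 k - 2` -/
  a2 : ¬ f (6 * k + 1) (b + 22) (2 * M + 2 * k) (2 * M + 2)
  /-- IN row, `(2 M + 2 k + 2, 2 M + 4)`, `d = 2 k - 2` -/
  a3 : ¬ f (6 * k + 1) (b + 22) (2 * M + 2 * k + 2) (2 * M + 4)
  /-- IN row, `(2 M + 2 k + 2, 2 M)`, `d = 2 k + 2` -/
  a5 : ¬ f (6 * k + 1) (b + 22) (2 * M + 2 * k + 2) (2 * M)
  /-- IN row, `(2 M + 2 k + 4, 2 M + 2)`, `d = 2 k + 2` -/
  a6 : ¬ f (6 * k + 1) (b + 22) (2 * M + 2 * k + 4) (2 * M + 2)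
  /-- OUT row, the line `y = 2 M + 6`, `d = 0 .. 2 k - 2` -/
  l1 : ∀ x : ℕ, x % 2 = 0 → 2 * M + 6 ≤ x → x ≤ 2 * M + 2 * k + 4 → ¬ f (6 * k + 1) (b + 24) x (2 * M + 6)
  /-- OUT row, `(2 M + 4, 2 M + 4)` -/
  l2 : ¬ f (6 * k + 1) (b + 24) (2 * M + 4) (2 * M + 4)
  /-- OUT row, `(2 M + 6, 2 M + 4)` -/
  l3 : ¬ f (6 * k + 1) (b + 24) (2 * M + 6) (2 * M + 4)
  /-- OUT row, `(2 M + 2 k + 4, 2 M + 4)`, `d = 2 k` -/
  l4 : ¬ f (6 * k + 1) (b + 24) (2 * M + 2 * k + 4) (2 * M + 4)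

/-- The cells of `6 k + 1` which are not all even are zero. -/
theorem p1_ne (hf : Rule f) (hs : Side k b m) (S : Stack6 f k b m 0 0 0 0 0 1) {i x y : ℕ} (hi1 : 1 ≤ i)
    (hi : i ≤ 100) (ho : (b + i) % 2 = 1 ∨ x % 2 = 1 ∨ y % 2 = 1) (hyx : y ≤ x) (hx : 2 * m + 2 ≤ x)
    (_ : 1 ≤ y) (hd : 2 * x + 4 ≤ b + 2 * y) : ¬ f (6 * k + 1) (b + i) x y := by
  have hk := hs.1
  refine dom_up hf (A := 6 * k) (by omega) ho ?_
  intro q r s hq hr hs' _ _ _
  rcases Nat.lt_or_ge (x - r) (y - s) with h1 | h1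
  · rw [hf.swap_xy]
    exact lw_zero hs S (i := i - q) (by omega) (by omega) (by omega) (by omega) (by omega)
  · exact lw_zero hs S (i := i - q) (by omega) (by omega) (by omega) (by omega) (by omega)

/-- The period of the cycle `j + 1`. -/
theorem sper (hf : Rule f) (C : Ctx f k b m t) {M : ℕ} (hM : M = m + 9 + (k + 2) * 4 + t - 4)
    (Z : PZ f k b M) : SPer f (6 * k + 2) (b + 22) (M + k + 2) := by
  have ht := C.t2
  obtain ⟨hs, S, d0, d2, d4, hm⟩ := (C.shift 1).win rfl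
  have hs0 := C.S.side
  have S0 := C.S.stack
  obtain ⟨hk, hb2, h4, hb, hm5⟩ := hs0
  have hs0 : Side k b m := ⟨hk, hb2, h4, hb, hm5⟩
  have hdiv : (6 * k + 2) / 6 = k := by omega
  have eL : m + (k + 2) * 1 + 9 + (k + 2) * 4 + t - 4 = M + k + 2 := by omega
  rw [eL] at d2 hm
  have e18 : b + 4 * 1 + 18 = b + 22 := by ring
  rw [e18] at d2 hm
  have ecc : cc (6 * k + 2) = 2 * k := by
    unfold cc
    omega
  have hMm : m + 25 ≤ M := by omega
  refine ⟨hm, ?_, ?_, ?_, ?_, ?_, ?_, ?_⟩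
  · intro x y hyx hx h
    rcases Nat.lt_or_ge x (y + 2 * ((6 * k + 2) / 6)) with h1 | h1
    · exact R0.cyc_s0 hf (by omega) (by omega) (by omega) (by omega) d2 hyx hx h1
    · exact d2.r0 x y (by rw [max_eq_left hyx]; omega)
  · intro x y hyx hx h
    rcases Nat.lt_or_ge x (y + 2 * ((6 * k + 2) / 6)) with h1 | h1
    · exact R0.cyc_s1 hf (by omega) (by omega) (by omega) (by omega) d2 hyx hx h1
    · exact d2.r1 x y (by rw [max_eq_left hyx]; omega)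
  · intro x y hyx h
    rcases h with ⟨h1, h2⟩ | ⟨h1, h2⟩
    · exact d2.r2s x y (by rw [max_eq_left hyx, min_eq_right hyx]; omega)
        (by rw [min_eq_right hyx]; omega)
    · exact d2.r2x x y (by rw [max_eq_left hyx, min_eq_right hyx]; omega)
        (by rw [max_eq_left hyx]; omega)
  · intro x y hyx h
    rcases h with ⟨h1, h2⟩ | ⟨h1, h2⟩
    · exact d2.r3s x y (by rw [max_eq_left hyx, min_eq_right hyx]; omega)
        (by rw [min_eq_right hyx]; omega)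
    · exact d2.r3 x y (by rw [max_eq_left hyx, ecc]; omega)
  · intro r x y hr ho hyx hd hx
    rw [hdiv] at hd hx
    rw [show 6 * k + 2 - 1 = 6 * k + 1 by omega, show b + 22 + r = b + (22 + r) by ring]
    exact p1_ne hf hs0 S0 (by omega) (by omega) (by omega) hyx (by omega) (by omega) (by omega)
  · intro r x y hr hE hyx hl hz
    rw [hdiv] at hl hz
    rw [show 6 * k + 2 - 1 = 6 * k + 1 by omega]
    rcases hr with rfl | rfl
    · rw [Nat.add_zero]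
      rcases hz with ⟨h1, h2⟩ | ⟨h1, h2⟩ | ⟨h1, h2⟩ | ⟨h1, h2⟩ | ⟨h1, h2, h3⟩
      · exact Z.i1 x y hE.1 hE.2 hyx h1 (by omega) (by omega)
      · exact Z.i2 x y hE.1 h1 (by omega)
      · exact Z.i3 x y hE.1 h1 (by omega)
      · exact Z.i4 x y hE.1 h1 (by omega)
      · omega
    · rcases hz with ⟨h1, h2⟩ | ⟨h1, h2⟩ | ⟨h1, h2⟩ | ⟨h1, h2⟩ | ⟨h1, h2, h3⟩
      · exact Z.o1 x y hE.1 hE.2 hyx h1 (by omega)
      · exact Z.o2 x y hE.1 h1 (by omega)
      · exact Z.o3 x y hE.1 h1 (by omega)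
      · exact Z.o4 x y hE.1 h1 (by omega)
      · exact Z.o5 x y hE.1 h1 (by omega)
  · intro x y hy hx
    rw [hdiv] at hy
    rw [show 6 * k + 2 - 1 = 6 * k + 1 by omega]
    rcases hx with hx | hx
    · rw [show x = 2 * M + 2 by omega, show y = 2 * M + 2 by omega]
      exact Z.i5
    · rw [show x = 2 * M + 4 by omega, show y = 2 * M + 2 by omega]
      exact Z.i6

theorem sext {M : ℕ} (X : PX f k b M) : SExt f (6 * k + 2) (b + 22) (M + k + 2) := by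
  have hdiv : (6 * k + 2) / 6 = k := by omega
  have e1 : 6 * k + 2 - 1 = 6 * k + 1 := by omega
  refine ⟨?_, ?_, ?_, ?_, ?_⟩ <;> intro x y h1 h2 <;> rw [hdiv] at h1 <;> rw [e1]
  · rw [show x = 2 * M + 4 by omega, show y = 2 * M by omega]
    exact X.a1
  · rcases h2 with h2 | h2
    · rw [show x = 2 * M + 2 * k by omega, show y = 2 * M + 2 by omega]
      exact X.a2
    · rw [show x = 2 * M + 2 * k + 2 by omega, show y = 2 * M + 4 by omega]
      exact X.a3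
  · rcases h2 with h2 | h2
    · rw [show x = 2 * M + 2 * k + 2 by omega, show y = 2 * M by omega]
      exact X.a5
    · rw [show x = 2 * M + 2 * k + 4 by omega, show y = 2 * M + 2 by omega]
      exact X.a6
  · intro h3 h4
    rw [show y = 2 * M + 6 by omega]
    exact X.l1 x h2 (by omega) (by omega)
  · rcases h2 with h2 | h2 | h2
    · rw [show x = 2 * M + 4 by omega, show y = 2 * M + 4 by omega]
      exact X.l2
    · rw [show x = 2 * M + 6 by omega, show y = 2 * M + 4 by omega]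
      exact X.l3
    · rw [show x = 2 * M + 2 * k + 4 by omega, show y = 2 * M + 4 by omega]
      exact X.l4

/-- **The strict birth over `Ctx`.**  The cycle `j` of the zero cells is the window `(b + 4 j, m + (k + 2) j)`;
the cycles `0 .. 3` and (for `PX`) the cycle `3` are used. -/
theorem sb (hf : Rule f) (C : Ctx f k b m t)
    (Z : ∀ j : ℕ, j ≤ 3 → PZ f k (b + 4 * j) (ml k m t j)) (X : PX f k (b + 4 * 3) (ml k m t 3))
    (E : ¬ E1 f k b m t 4) : False := by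
  have ht := C.t2
  have hs := C.S.side
  obtain ⟨hk, hb2, h4, hb, hm5⟩ := hs
  have P : ∀ j : ℕ, j ≤ 3 → SPer f (6 * k + 2) (b + 4 * j + 22) (ml k m t j + k + 2) := by
    intro j hj
    refine sper hf (C.shift j) (M := ml k m t j) rfl (Z j hj)
  have X3 := sext X
  obtain ⟨n, hn⟩ : ∃ n, n = ml k m t 0 + k + 2 := ⟨_, rfl⟩
  have hdiv : (6 * k + 2) / 6 = k := by omega
  have m1 : ml k m t 1 = ml k m t 0 + k + 2 := by
    unfold ml nn
    omega
  have m2 : ml k m t 2 = ml k m t 0 + 2 * k + 4 := by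
    unfold ml nn
    omega
  have m3 : ml k m t 3 = ml k m t 0 + 3 * k + 6 := by
    unfold ml nn
    omega
  have m4 : ml k m t 4 = ml k m t 0 + 4 * k + 8 := by
    unfold ml nn
    omega
  have P0 := P 0 (by omega)
  have P1 := P 1 (by omega)
  have P2 := P 2 (by omega)
  have P3 := P 3 (by omega)
  rw [show b + 4 * 0 + 22 = b + 22 by ring, ← hn] at P0
  rw [show b + 4 * 1 + 22 = b + 22 + 4 by ring, show ml k m t 1 + k + 2 = n + (6 * k + 2) / 6 + 2 by omega] at P1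
  rw [show b + 4 * 2 + 22 = b + 22 + 8 by ring, show ml k m t 2 + k + 2 = n + 2 * ((6 * k + 2) / 6) + 4 by omega] at P2
  rw [show b + 4 * 3 + 22 = b + 22 + 12 by ring, show ml k m t 3 + k + 2 = n + 3 * ((6 * k + 2) / 6) + 6 by omega]
    at P3 X3
  obtain ⟨j, hj1, hj2, hj⟩ := strict_birth_of_sper hf (A := 6 * k + 2) (b := b + 22) (n := n) (by omega)
    (by omega) (by omega) (by omega) (by omega) P0 P1 P2 P3 X3
  rw [hdiv] at hj1 hj2 hj
  rw [show 6 * k + 2 + 1 = 6 * k + 3 by ring, show b + 22 + 14 = b + 4 * 4 + 20 by ring,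
    show n + 3 * k + 6 = ml k m t 4 by omega] at hj
  obtain ⟨hs4, S4, -, -, -, -⟩ := (C.shift 4).win rfl
  have T := NHT.of_stack hs4 S4
  have eN : 2 * ml k m t 4 + 8 = 2 * (m + (k + 2) * 4 + 9 + (k + 2) * 4) + 2 * t := by
    unfold ml nn
    omega
  rcases Nat.lt_or_ge (n + 2 * k + 8) j with h1 | h1
  · rcases Nat.lt_or_ge j (n + 3 * k + 6) with h2 | h2
    · exact T.pmi hf (j := 2) (by omega) (by omega) (Or.inr (by omega)) (by omega) (by omega) (by omega) hj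
    · exact T.pm hf (j := 1) (by omega) (by omega) (Or.inr (by omega)) (by omega) (by omega) (by omega) hj
  · apply E
    unfold E1
    rwa [show 2 * ml k m t 4 + 6 - 2 * k = 2 * j + 2 by omega]

end Pool.Agent.SNT.D1
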