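import Pool.Agent.SNT.Stack6

set_option autoImplicit false

/-! The windows `Stack6` of all later cycles (`StackA`) and of `6 k + 60` earlier ones (`StackB`), and the
four statements `LeadR10A`, `LocR6A`, `LocR8A`, `LocR10A` over `StackB`. -/

namespace Pool.Agent.SNT

open Pool.Agent.SNT.LW

variable {f : ℕ → ℕ → ℕ → ℕ → Prop}

/-- The windows of all later cycles. -/
def StackA (f : ℕ → ℕ → ℕ → ℕ → Prop) (k b m e0 e2 e4 e6 e8 e10 : ℕ) : Prop :=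
  ∀ j : ℕ, Side k (b + 4 * j) (m + (k + 2) * j) ∧
    Stack6 f k (b + 4 * j) (m + (k + 2) * j) e0 e2 e4 e6 e8 e10

namespace StackA

variable {k b m e0 e2 e4 e6 e8 e10 : ℕ}

theorem side (S : StackA f k b m e0 e2 e4 e6 e8 e10) : Side k b m := by
  have h := (S 0).1
  simpa using h

theorem stack (S : StackA f k b m e0 e2 e4 e6 e8 e10) : Stack6 f k b m e0 e2 e4 e6 e8 e10 := by
  have h := (S 0).2
  simpa using h

/-- the later windows -/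
theorem shift (S : StackA f k b m e0 e2 e4 e6 e8 e10) (j : ℕ) :
    StackA f k (b + 4 * j) (m + (k + 2) * j) e0 e2 e4 e6 e8 e10 := by
  intro i
  have h := S (j + i)
  rw [show b + 4 * (j + i) = b + 4 * j + 4 * i by ring,
    show m + (k + 2) * (j + i) = m + (k + 2) * j + (k + 2) * i by ring] at h
  exact h

end StackA

/-- The windows of all later cycles and of `3 k + 30` cycles before. -/
def StackB (f : ℕ → ℕ → ℕ → ℕ → Prop) (k b m e0 e2 e4 e6 e8 e10 : ℕ) : Prop :=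
  ∃ b0 m0 : ℕ, b = b0 + 4 * (6 * k + 60) ∧ m = m0 + (k + 2) * (6 * k + 60) ∧
    StackA f k b0 m0 e0 e2 e4 e6 e8 e10

namespace StackB

variable {k b m e0 e2 e4 e6 e8 e10 : ℕ}

/-- the window itself and the later ones -/
theorem toA (S : StackB f k b m e0 e2 e4 e6 e8 e10) : StackA f k b m e0 e2 e4 e6 e8 e10 := by
  obtain ⟨b0, m0, rfl, rfl, S⟩ := S
  exact S.shift (6 * k + 60)

theorem side (S : StackB f k b m e0 e2 e4 e6 e8 e10) : Side k b m := S.toA.side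

theorem stack (S : StackB f k b m e0 e2 e4 e6 e8 e10) : Stack6 f k b m e0 e2 e4 e6 e8 e10 :=
  S.toA.stack

/-- the later windows -/
theorem shift (S : StackB f k b m e0 e2 e4 e6 e8 e10) (j : ℕ) :
    StackB f k (b + 4 * j) (m + (k + 2) * j) e0 e2 e4 e6 e8 e10 := by
  obtain ⟨b0, m0, rfl, rfl, S⟩ := S
  refine ⟨b0 + 4 * j, m0 + (k + 2) * j, by ring, by ring, S.shift j⟩

/-- the earlier windows: `j` cycles before, `j ≤ 3 k + 30` -/
theorem back (S : StackB f k b m e0 e2 e4 e6 e8 e10) {j : ℕ}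
    (hj : j ≤ 6 * k + 60) :
    ∃ b' m' : ℕ, b = b' + 4 * j ∧ m = m' + (k + 2) * j ∧ StackA f k b' m' e0 e2 e4 e6 e8 e10 := by
  obtain ⟨b0, m0, rfl, rfl, S⟩ := S
  obtain ⟨i, hi⟩ : ∃ i, i + j = 6 * k + 60 := ⟨6 * k + 60 - j, by omega⟩
  refine ⟨b0 + 4 * i, m0 + (k + 2) * i, by omega, ?_, S.shift i⟩
  rw [← hi]
  ring

end StackB

namespace S6

/-- `R10` over `StackB`. -/
def LeadR10A (f : ℕ → ℕ → ℕ → ℕ → Prop) (k : ℕ) : Prop := ∀ b m : ℕ,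
  StackB f k b m 0 0 0 0 0 1 →
  ¬ f (6 * k + 10) (b + 22) (2 * (m + 9 + (k + 2) * 4) + 1) (2 * (m + 9 + (k + 2) * 4)) →
  False

/-- `L6` over `StackB`. -/
def LocR6A (f : ℕ → ℕ → ℕ → ℕ → Prop) (k : ℕ) : Prop := ∀ b m : ℕ,
  StackB f k b m 0 0 0 1 1 1 → ¬ Cy3 f (6 * k + 6) (b + 18) (2 * (m + 5 + (k + 2) * 4)) →
  ¬ f (6 * k + 6) (b + 18) (2 * (m + 5 + (k + 2) * 4) + 1) (2 * (m + 5 + (k + 2) * 4))

/-- `L8` over `StackB`. -/
def LocR8A (f : ℕ → ℕ → ℕ → ℕ → Prop) (k : ℕ) : Prop := ∀ b m : ℕ,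
  StackB f k b m 0 0 0 0 1 1 → ¬ Cw f (6 * k + 8) (b + 20) (m + 6 + (k + 2) * 4) →
  ¬ f (6 * k + 8) (b + 20) (2 * (m + 7 + (k + 2) * 4) + 1) (2 * (m + 7 + (k + 2) * 4))

/-- `L10` over `StackB`. -/
def LocR10A (f : ℕ → ℕ → ℕ → ℕ → Prop) (k : ℕ) : Prop := ∀ b m : ℕ,
  StackB f k b m 0 0 0 0 0 1 → ¬ Cw f (6 * k + 10) (b + 22) (m + 8 + (k + 2) * 4) →
  ¬ f (6 * k + 10) (b + 22) (2 * (m + 9 + (k + 2) * 4) + 1) (2 * (m + 9 + (k + 2) * 4))

end S6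

end Pool.Agent.SNT
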