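import Pool.Agent.SNT.LR0
import Pool.Agent.SNT.StackAB

set_option autoImplicit false
set_option maxHeartbeats 1000000

/-! The missing tip of the isolated layer `6 k` under a weak previous cycle, and the birth of a
cell of `6 k + 1` three cycles later. -/

namespace Pool.Agent.SNT

namespace D1T

open Loc

variable {f : ℕ → ℕ → ℕ → ℕ → Prop}

/-- The turn at the diagonal; of the row `B - 1` only cells with `x ≤ y + 3` are used. -/
theorem diag_turnW (hf : Rule f) {A B m : ℕ} (hA : A % 2 = 0) (h6 : 12 ≤ A) (hAB : A + 24 ≤ B)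
    (hT : (A + B) % 4 = 2) (hm : 2 ≤ m)
    (hP : ∀ b x y : ℕ, B ≤ b + 1 → b ≤ B + 2 → y ≤ x → x ≤ y + (2 * (A / 6) + 8) →
      4 * m + 1 ≤ x + y + 2 → ¬ f (A - 1) b x y)
    (hS0 : ∀ x y : ℕ, y ≤ x → x ≤ y + (2 * (A / 6) + 8) → 4 * m + 1 < x + y →
      (f A B x y ↔ Fst A B x y))
    (hS1 : ∀ x y : ℕ, y ≤ x → x ≤ y + 3 → 4 * m + 1 ≤ x + y + 3 →
      (f A (B - 1) x y ↔ Fst A (B - 1) x y))
    (hl : ¬ f A B (2 * m + 1) (2 * m)) :
    ¬ f A (B + 2) (2 * m + 4) (2 * m + 3) := by
  intro hcon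
  refine diagX hf (a0 := A - 2) (b0 := B - 2) (x0 := 2 * m - 3) (y0 := 2 * m - 3) rfl
    (by omega) (by omega) (by omega) (by omega) ?_ ?_
  · intro j n p q hr h
    obtain ⟨r1, r2, r3, r4, r5, r6, r7, r8⟩ := hr
    rcases h with ⟨rfl, ⟨hpq, hpq', hR⟩, hF⟩ | ⟨rfl, rfl, rfl, rfl⟩
    · have hz := (Fst_diag' hA h6 hAB hT hm r3 (by omega) hpq hpq').2 hF
      have ea : A - 2 + 2 = A := by omega
      rw [ea]
      rcases hR with ⟨rfl, hR⟩ | ⟨rfl, hR⟩
      · have eb : B - 2 + 1 = B - 1 := by omega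
        rw [eb] at hz ⊢
        exact (hS1 _ _ (by omega) (by omega) (by omega)).2 hz
      · have eb : B - 2 + 2 = B := by omega
        rw [eb] at hz ⊢
        exact (hS0 _ _ (by omega) (by omega) (by omega)).2 hz
    · have ea : A - 2 + 2 = A := by omega
      have eb : B - 2 + 4 = B + 2 := by omega
      have ex : 2 * m - 3 + 7 = 2 * m + 4 := by omega
      have ey : 2 * m - 3 + 6 = 2 * m + 3 := by omega
      rw [ea, eb, ex, ey]
      exact hcon
  · intro j n p q hr h
    obtain ⟨r1, r2, r3, r4, r5, r6, r7, r8⟩ := hr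
    rcases h with ⟨rfl, hpq, hpq', hs⟩ | ⟨rfl, ⟨hpq, hpq', hR⟩, hF⟩ | ⟨rfl, rfl, rfl, rfl⟩
    · have ea : A - 2 + 1 = A - 1 := by omega
      rw [ea]
      exact hP _ _ _ (by omega) (by omega) (by omega) (by omega) (by omega)
    · have hz := (not_congr (Fst_diag' hA h6 hAB hT hm r3 (by omega) hpq hpq')).2 hF
      have ea : A - 2 + 2 = A := by omega
      rw [ea]
      rcases hR with ⟨rfl, hR⟩ | ⟨rfl, hR⟩
      · have eb : B - 2 + 1 = B - 1 := by omega
        rw [eb] at hz ⊢
        exact fun hc => hz ((hS1 _ _ (by omega) (by omega) (by omega)).1 hc)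
      · have eb : B - 2 + 2 = B := by omega
        rw [eb] at hz ⊢
        exact fun hc => hz ((hS0 _ _ (by omega) (by omega) (by omega)).1 hc)
    · have ea : A - 2 + 2 = A := by omega
      have eb : B - 2 + 2 = B := by omega
      have ex : 2 * m - 3 + 4 = 2 * m + 1 := by omega
      have ey : 2 * m - 3 + 3 = 2 * m := by omega
      rw [ea, eb, ex, ey]
      exact hl

/-- Forward step, type I. -/
theorem fwd_diagW (hf : Rule f) {A B m : ℕ} (hA : A % 2 = 0) (h6 : 12 ≤ A) (hAB : A + 24 ≤ B)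
    (hT : (A + B) % 4 = 2) (hm : 2 ≤ m)
    (hP : ∀ b x y : ℕ, B ≤ b + 1 → b ≤ B + 2 → y ≤ x → x ≤ y + (2 * (A / 6) + 8) →
      4 * m + 1 ≤ x + y + 2 → ¬ f (A - 1) b x y)
    (hS0 : ∀ x y : ℕ, y ≤ x → x ≤ y + (2 * (A / 6) + 8) → 4 * m + 1 < x + y →
      (f A B x y ↔ Fst A B x y))
    (hS1 : ∀ x y : ℕ, y ≤ x → x ≤ y + 3 → 4 * m + 1 ≤ x + y + 3 →
      (f A (B - 1) x y ↔ Fst A (B - 1) x y))
    (hl : ¬ f A B (2 * m + 1) (2 * m)) :
    ∀ t : ℕ, t + 1 ≤ A / 6 → ¬ f A (B + 2) (2 * m + 4 + 2 * t) (2 * m + 3) := by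
  intro t
  induction t with
  | zero => intro _; exact diag_turnW hf hA h6 hAB hT hm hP hS0 hS1 hl
  | succ t ih =>
    intro ht hcon
    have ih' := ih (by omega)
    have e2 : 2 * m + 4 + 2 * (t + 1) = (2 * m + 4 + 2 * t) + 2 := by omega
    rw [e2] at hcon
    set i2 := 2 * m + 4 + 2 * t with hi2
    set j2 := 2 * m + 2 with hj2
    have e1 : 2 * m + 3 = j2 + 1 := by omega
    rw [e1] at hcon ih'
    have ho : ¬ f A (B + 2) (i2 + 1) (j2 + 1) := by
      have h1 := hf.down hcon (p := 0) (q := 0) (r := 1) (s := 0) (by omega) (by omega) (by omega)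
        (by omega) (by omega) (by omega) (by omega) (by omega) (by omega)
      simpa using h1
    have hy : ¬ f A (B + 2) (i2 + 1) j2 := by
      have h1 := hf.down hcon (p := 0) (q := 0) (r := 1) (s := 1) (by omega) (by omega) (by omega)
        (by omega) (by omega) (by omega) (by omega) (by omega) (by omega)
      simpa using h1
    obtain ⟨p, q, r, s, hp, hq, hr, hs, hsum, hpa, hqb, hrx, hsy, hpred⟩ :=
      hf.exists_pred (a := A) (b := B + 2) (x := i2 + 1) (y := j2 + 1) (by omega) ho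
    rcases Nat.lt_or_ge p 1 with hp0 | hp1
    · have hp0' : p = 0 := by omega
      subst hp0'
      rw [Nat.sub_zero] at hpred
      rcases Nat.lt_or_ge q 1 with hq0 | hq1
      · have hq0' : q = 0 := by omega
        subst hq0'
        rw [Nat.sub_zero] at hpred
        have h3 : (r = 1 ∧ s = 0) ∨ (r = 0 ∧ s = 1) ∨ (r = 1 ∧ s = 1) := by omega
        rcases h3 with ⟨rfl, rfl⟩ | ⟨rfl, rfl⟩ | ⟨rfl, rfl⟩
        · exact ih' (by simpa using hpred)
        · exact hy (by simpa using hpred)
        · have h4 := hf.not_allEven hpred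
          apply h4
          refine ⟨hA, by omega, by omega, by omega⟩
      · have hq1' : q = 1 := by omega
        subst hq1'
        have eb : B + 2 - 1 = B + 1 := by omega
        rw [eb] at hpred
        exact odd_zero_in' hf hA h6 hAB hT hS0 (by omega) (by omega) (by omega) (by omega) hpred
    · have hp1' : p = 1 := by omega
      subst hp1'
      exact hP _ _ _ (by omega) (by omega) (by omega) (by omega) (by omega) hpred

/-- One period of the tip: the layer `A` is exact in the cycle `B` and weak in the cycle before. -/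
theorem tip_stepW (hf : Rule f) {A B m L K' : ℕ} (hA : A % 2 = 0) (h24 : 24 ≤ A) (hAB : A + 28 ≤ B)
    (hT : (A + B) % 4 = 2) (hm : 2 * (A / 6) + 2 ≤ m) (C : Cyc f A B (2 * m + 2))
    (Cp : Cyc f A (B - 4) K') (hK : K' + 6 ≤ 2 * m) (hO : OddB f A B L)
    (hOm : St f (A - 1) (B - 1) (2 * m - 1)) (hL : L + 2 ≤ 2 * m)
    (ht : ¬ f A B (2 * m + 1) (2 * m)) :
    ¬ f A (B + 4) (2 * (m + A / 6 + 2) + 1) (2 * (m + A / 6 + 2)) := by
  have ecc : cc A = 2 * (A / 6) := by
    unfold cc
    omega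
  have z : ∀ b x y : ℕ, (f (A - 1) b x y ↔ Fst (A - 1) b x y) → A + 27 ≤ b → y ≤ x →
      x ≤ y + (2 * (A / 6) + 8) → ¬ f (A - 1) b x y := by
    intro b x y hs hb hyx hd h
    exact Fst_odd_far (a := A - 1) (by omega) (by omega) hyx (by omega) (hs.1 h)
  have r1 := C.r1
  have r2x := C.r2x
  have r2s := C.r2s
  have p3s := Cp.r3s
  have eB : B - 4 + 3 = B - 1 := by omega
  rw [eB] at p3s
  have q3 := hO.q3
  have q4 := hO.q4
  rw [ecc] at q3 q4
  have h6 : 6 ≤ A := by omega
  -- in row
  have d1 : ¬ f A (B + 2) (2 * m + 4 + 2 * (A / 6 - 1)) (2 * m + 3) := by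
    refine fwd_diagW hf (A := A) (B := B) (m := m) hA (by omega) (by omega) hT
      (by omega) ?_ ?_ ?_ ht (A / 6 - 1) (by omega)
    · intro b x y h1 h2 hyx hd hs
      refine z b x y ?_ (by omega) hyx hd
      have h3 : b = B - 1 ∨ b = B ∨ b = B + 1 ∨ b = B + 2 := by omega
      rcases h3 with rfl | rfl | rfl | rfl
      · exact hOm x y (lt_of_lt_of_le (by omega) (le_max_left _ _))
      · exact hO.q0 x y (lt_of_lt_of_le (by omega) (le_max_left _ _))
      · exact hO.q1 x y (lt_of_lt_of_le (by omega) (le_max_left _ _))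
      · rcases Nat.lt_or_ge (2 * m) x with h4 | h4
        · exact hO.q2 x y (lt_of_lt_of_le (by omega) (le_max_left _ _))
        · exact hO.q2s h6 x y (by omega) (by omega)
    · intro x y hyx hd hs
      rcases Nat.lt_or_ge (2 * m + 2) x with h3 | h3
      · exact C.r0 x y (lt_of_lt_of_le h3 (le_max_left _ _))
      · rw [Fst_II (by omega) (by omega) (by omega) (by omega) hyx (by omega)]
        refine iff_of_false ?_ (by omega)
        have h4 : (x % 2 = 0 ∧ y % 2 = 0) ∨ (x = 2 * m + 2 ∧ y = 2 * m + 1) ∨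
            (x = 2 * m + 1 ∧ y = 2 * m + 1) := by omega
        rcases h4 with h4 | ⟨rfl, rfl⟩ | ⟨rfl, rfl⟩
        · intro h
          exact hf.not_allEven h ⟨by omega, by omega, h4.1, h4.2⟩
        · intro h
          have h5 : f A B (2 * m + 3) (2 * m + 2) := by
            rw [C.r0 _ _ (lt_of_lt_of_le (by omega) (le_max_left _ _)),
              Fst_II (by omega) (by omega) (by omega) (by omega) (by omega) (by omega)]
            omega
          have h6 := hf.down h5 (p := 0) (q := 0) (r := 1) (s := 1) (by omega) (by omega)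
            (by omega) (by omega) (by omega) (by omega) (by omega) (by omega) (by omega)
          exact h6 h
        · refine zero_of_one hf 0 1 0 0 (by omega) (by omega) (by omega) (by omega) (by omega)
            (by omega) (by omega) (by omega) (by omega) ?_
          show f A (B - 1) (2 * m + 1) (2 * m + 1)
          rw [p3s _ _ (by rw [max_self, min_self]; omega) (by rw [min_self]; omega),
            Fst_odd (by omega) (by omega) (by omega) le_rfl (by omega)]
          omega
    · intro x y hyx hd hs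
      exact p3s x y (by rw [max_eq_left hyx, min_eq_right hyx]; omega)
        (by rw [min_eq_right hyx]; omega)
  -- out row
  have d2 : ¬ f A (B + 2 + 2) (2 * (m + 1 + A / 6) + 3) (2 * (m + 1) + 4 + 2 * (A / 6 - 1)) := by
    refine fwd_edge' hf (A := A) (B := B + 2) (c := m + 1) hA (by omega) (by omega)
      (by omega) (by omega) ?_ ?_ ?_ ?_ (A / 6 - 1) (by omega)
    · intro b x y h1 h2 hyx hd hs
      refine z b x y ?_ (by omega) hyx hd
      have h3 : b = B + 1 ∨ b = B + 2 ∨ b = B + 3 ∨ b = B + 4 := by omega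
      rcases h3 with rfl | rfl | rfl | rfl
      · exact hO.q1 x y (lt_of_lt_of_le (by omega) (le_max_left _ _))
      · exact hO.q2 x y (lt_of_lt_of_le (by omega) (le_max_left _ _))
      · rcases Nat.lt_or_ge x (y + 2 * (A / 6)) with h4 | h4
        · exact hO.q3s h6 x y (by omega) (by omega)
        · exact q3 x y (lt_of_lt_of_le (by omega) (le_max_left _ _))
      · rcases Nat.lt_or_ge x (y + 2 * (A / 6)) with h4 | h4
        · exact hO.q4s h6 x y (by omega) (by omega)
        · exact q4 x y (lt_of_lt_of_le (by omega) (le_max_left _ _))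
    · intro x y hyx hd hs
      rcases Nat.lt_or_ge x (y + 2 * (A / 6)) with h3 | h3
      · exact r2s x y (by omega) (by omega)
      · exact r2x x y (by omega) (by omega)
    · intro x y hyx hd hs
      have eb : B + 2 - 1 = B + 1 := by omega
      rw [eb]
      exact r1 x y (lt_of_lt_of_le (by omega) (le_max_left _ _))
    · have e5 : 2 * (m + 1 + A / 6) = 2 * m + 4 + 2 * (A / 6 - 1) := by omega
      have e6 : 2 * (m + 1) + 1 = 2 * m + 3 := by omega
      rw [e5, e6]
      exact d1
  have e5 : B + 4 = B + 2 + 2 := by omega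
  have e6 : 2 * (m + A / 6 + 2) + 1 = 2 * (m + 1 + A / 6) + 3 := by omega
  have e7 : 2 * (m + A / 6 + 2) = 2 * (m + 1) + 4 + 2 * (A / 6 - 1) := by omega
  rw [e5, e6, e7]
  exact d2

/-- The missing tip of the isolated layer `6 k` in the next cycle. -/
theorem next0 (hf : Rule f) {k b m : ℕ} (hs : Side k b m)
    (lw : ∀ i : ℕ, i ≤ 100 → St f (6 * k - 1) (b + i) (2 * m - (100 * k + 1000)))
    {r N K' : ℕ} (hr : 4 ≤ r) (hr2 : r ≤ 90) (hr4 : r % 4 = 0) (hN : m + 1 ≤ N)
    (C : Cyc f (6 * k) (b + r) (2 * N + 2)) (Cp : Cyc f (6 * k) (b + r - 4) K')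
    (hK : K' + 6 ≤ 2 * N) (ht : ¬ f (6 * k) (b + r) (2 * N + 1) (2 * N)) :
    ¬ f (6 * k) (b + (r + 4)) (2 * (N + (k + 2)) + 1) (2 * (N + (k + 2))) := by
  obtain ⟨hk, hb2, hb4, hbl, hm⟩ := hs
  have hdiv : 6 * k / 6 = k := by omega
  have hO : OddB f (6 * k) (b + r) (2 * m) := by
    have hh : ∀ j : ℕ, j ≤ 4 → St f (6 * k - 1) (b + r + j) (2 * m - (100 * k + 1000)) := by
      intro j hj
      have := lw (r + j) (by omega)
      rw [show b + r + j = b + (r + j) by omega]
      exact this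
    exact OddB_of_flat ((hh 0 (by omega)).mono (by omega)) ((hh 1 (by omega)).mono (by omega))
      ((hh 2 (by omega)).mono (by omega)) ((hh 3 (by omega)).mono (by omega))
      ((hh 4 (by omega)).mono (by omega))
  have h1 := tip_stepW hf (A := 6 * k) (B := b + r) (m := N) (K' := K')
    (L := 2 * m) (by omega) (by omega) (by omega) (by omega) (by omega) C Cp hK hO
    (by
      have := lw (r - 1) (by omega)
      rw [show b + r - 1 = b + (r - 1) by omega]
      exact this.mono (by omega)) (by omega) ht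
  rw [hdiv] at h1
  rw [show b + (r + 4) = b + r + 4 by omega, show N + (k + 2) = N + k + 2 by omega]
  exact h1

/-- **A missing tip of `6 k` in the cycle `0` gives a cell of `6 k + 1` in the OUT row of the
cycle `3`.**  The cycle before is only nominal. -/
theorem birth0 (hf : Rule f) {k b m e8 e10 N : ℕ} (S : StackA f k b m 0 0 0 0 e8 e10)
    (hN : m + (k + 2) * 4 + 2 ≤ N)
    (C : ∀ j : ℕ, Cyc f (6 * k) (b + 4 * j + 16) (2 * (N + (k + 2) * j) + 2))
    (ht : ¬ f (6 * k) (b + 16) (2 * N + 1) (2 * N)) :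
    ∃ j : ℕ, N + 2 * k + 8 ≤ j ∧ j ≤ N + 3 * k + 6 ∧
      f (6 * k + 1) (b + 30) (2 * (N + 3 * k + 6) + 4) (2 * j + 2) := by
  have hs := S.side
  have T := S.stack
  obtain ⟨hk, hb2, hb4, hbl, hm⟩ := S.side
  have hdiv : 6 * k / 6 = k := by omega
  have C0 := C 0
  have C1 := C 1
  have C2 := C 2
  have C3 := C 3
  have Cp := T.l0 3
  rw [show b + 4 * 0 + 16 = b + 16 by omega, show N + (k + 2) * 0 = N by omega] at C0
  rw [show b + 4 * 1 + 16 = b + 20 by omega, show N + (k + 2) * 1 = N + (k + 2) by omega] at C1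
  rw [show b + 4 * 2 + 16 = b + 24 by omega, show N + (k + 2) * 2 = N + (k + 2) + (k + 2) by omega] at C2
  rw [show b + 4 * 3 + 16 = b + 28 by omega,
    show N + (k + 2) * 3 = N + (k + 2) + (k + 2) + (k + 2) by omega] at C3
  have t1 := next0 hf hs T.lw (r := 16) (N := N) (by omega) (by omega) (by omega) (by omega) C0
    (by rw [show b + 16 - 4 = b + 4 * 3 by omega]; exact Cp) (by omega) ht
  have t2 := next0 hf hs T.lw (r := 20) (N := N + (k + 2)) (by omega) (by omega) (by omega)
    (by omega) C1 (by rw [show b + 20 - 4 = b + 16 by omega]; exact C0) (by omega) t1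
  have t3 := next0 hf hs T.lw (r := 24) (N := N + (k + 2) + (k + 2)) (by omega) (by omega)
    (by omega) (by omega) C2 (by rw [show b + 24 - 4 = b + 20 by omega]; exact C1) (by omega) t2
  have P : ∀ r M : ℕ, r ≤ 30 → r % 4 = 0 → m ≤ M → Cyc f (6 * k) (b + r) (2 * M + 2) →
      ¬ f (6 * k) (b + r) (2 * M + 1) (2 * M) → FPer f (6 * k) (b + r) M := by
    intro r M hr hr4 hM CC t
    refine R0.fper_of_cyc hf (by omega) (by omega) (by omega) (by omega) CC t ?_
    intro q x y h1 h2 h3 h4
    rw [hdiv] at h3 h4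
    rw [show b + r + q = b + (r + q) by omega]
    exact R0.low_zero hs T.lw (by omega) h2 (by omega) (by omega)
  have P0 := P 16 N (by omega) (by omega) (by omega) C0 ht
  have P1 := P 20 _ (by omega) (by omega) (by omega) C1 t1
  have P2 := P 24 _ (by omega) (by omega) (by omega) C2 t2
  have P3 := P 28 _ (by omega) (by omega) (by omega) C3 t3
  obtain ⟨j, hj1, hj2, hj⟩ := strict_birth_of_per hf (A := 6 * k) (b := b + 16) (n := N)
    (by omega) (by omega) (by omega) (by omega) (by omega) P0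
    (by rw [show N + 6 * k / 6 + 2 = N + (k + 2) by omega]; exact P1)
    (by rw [show N + 2 * (6 * k / 6) + 4 = N + (k + 2) + (k + 2) by omega]; exact P2)
    (by rw [show N + 3 * (6 * k / 6) + 6 = N + (k + 2) + (k + 2) + (k + 2) by omega]; exact P3)
  rw [hdiv] at hj1 hj2 hj
  exact ⟨j, hj1, hj2, hj⟩

end D1T

end Pool.Agent.SNT
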