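import Pool.Agent.SNT.NWD
import Pool.Agent.SNT.NHZoneU
import Pool.Agent.SNT.NHZone2

set_option autoImplicit false
set_option synthInstance.maxSize 100000
set_option synthInstance.maxHeartbeats 4000000

/-! The layer `6 k + 2` in its IN row `c - 4` (`c` is the IN row of the top leader `6 k + 10`, `n` its lead): near the wall, an
empty column sends a line into the next column of the OUT row `c - 2`. -/

namespace Pool.Agent.SNT.D1W2

open Pool.Agent.SNT Pool.Agent.SNT.Loc Pool.Agent.SNT.LW Pool.Agent.SNT.NHZ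

variable {f : ℕ → ℕ → ℕ → ℕ → Prop}

theorem zZ_r1i (hf : Rule f) {k c N M R x y p j : ℕ} (h : NHT f k c N) (hR : R = c + 1) (hj : j ≤ 5) (hp : p ≤ 1)
    (hL : M + 2 * j = 6 * k + 10 + p) (hx : N + 3 ≤ x) (h1 : y + 1 + j ≤ x) (h2 : x + 2 + j ≤ y + 2 * k) :
    ¬ f M R x y := by
  subst hR
  exact h.r1i hf hj hp hL hx h1 h2

theorem uP0 (hf : Rule f) {k c N M R x y j : ℕ} (h : NHU f k c N) (hj : j ≤ 0) (hL : M + 1 + 2 * j = 6 * k + 6)
    (hR : R + 5 = c ∨ R + 4 = c) (hx : N ≤ x + 8) (h1 : y + 1 + j ≤ x) (h2 : x + j ≤ y + 2 * k) : ¬ f M R x y :=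
  h.I.P hf (t := 0) (s := 0) (j := j) (q := c - 4 - R) (by omega) (by omega) (by omega) (by omega)
    (by have := h.hb; omega) (by unfold XU; rw [if_pos (by omega)]; have := h.hN2; omega) (by have := h.hN2; omega)
    (by omega) (by omega)

theorem uP1 (hf : Rule f) {k c N M R x y j : ℕ} (h : NHU f k c N) (hj : j ≤ 1) (hL : M + 1 + 2 * j = 6 * k + 8)
    (hR : R + 3 = c ∨ R + 2 = c) (hx : N ≤ x + 2) (h1 : y + 1 + j ≤ x) (h2 : x + j ≤ y + 2 * k) : ¬ f M R x y :=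
  h.pmi hf hj hL hR hx h1 h2

theorem uP2 (hf : Rule f) {k c N M R x y j : ℕ} (h : NHU f k c N) (hj : j ≤ 2) (hL : M + 1 + 2 * j = 6 * k + 10)
    (hR : R + 1 = c ∨ R = c) (hx : N + 4 ≤ x) (h1 : y + 1 + j ≤ x) (h2 : x + j ≤ y + 2 * k) : ¬ f M R x y :=
  h.p0i hf hj hL hR hx h1 h2

theorem uA0 (hf : Rule f) {k c N M R x y p j : ℕ} (h : NHU f k c N) (hR : R + 3 = c) (hj : j ≤ 0) (hp : p ≤ 1)
    (hL : M + 2 * j = 6 * k + 6 + p) (hx : N ≤ x + 7) (h1 : y + 1 + j ≤ x) (h2 : x + j ≤ y + 2 * k) : ¬ f M R x y :=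
  h.I.after hf (t := 0) (s := 0) (j := j) (p := p) (q := 1) (by omega) (by omega) hp le_rfl (by omega) (by omega)
    (by have := h.hb; omega) (by unfold XU; rw [if_pos (by omega)]; have := h.hN2; omega)
    (by have := h.hN2; omega) (by omega) (by omega)

theorem uA1 (hf : Rule f) {k c N M R x y p j : ℕ} (h : NHU f k c N) (hR : R + 1 = c) (hj : j ≤ 1) (hp : p ≤ 1)
    (hL : M + 2 * j = 6 * k + 8 + p) (hx : N ≤ x + 1) (h1 : y + 1 + j ≤ x) (h2 : x + j ≤ y + 2 * k) : ¬ f M R x y := by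
  have e : R = c - 1 := by omega
  subst e
  exact h.rm1i hf hj hp hL hx h1 h2

theorem uA2 (hf : Rule f) {k c N M R x y p j : ℕ} (h : NHU f k c N) (hR : R = c + 1) (hj : j ≤ 2) (hp : p ≤ 1)
    (hL : M + 2 * j = 6 * k + 10 + p) (hx : N + 5 ≤ x) (h1 : y + 1 + j ≤ x) (h2 : x + j ≤ y + 2 * k) : ¬ f M R x y := by
  subst hR
  exact h.r1i hf hj hp hL hx h1 h2

theorem w2_chk : check 12 11 12 17 0 1 1 1 0
    (fun j n p q => decide ((j = 4 ∧ n = 5 ∧ 6 ≤ p ∧ (((p + q) % 2 = 1 ∧ p + 3 ≤ q ∧ p % 2 = 0) ∨ ((p + q) % 2 = 1 ∧ q ≤ p + 3 ∧ (p + q + 1) % 4 = 0)))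
      ∨ (j = 4 ∧ n = 7 ∧ q ≤ p + 2 ∧ 10 ≤ p ∧ (((p + q) % 2 = 1 ∧ p + 3 ≤ q ∧ p % 2 = 1) ∨ ((p + q) % 2 = 1 ∧ q ≤ p + 3 ∧ (p + q + 3) % 4 = 0)))
      ∨ (j = 4 ∧ n = 1 ∧ (((p + q) % 2 = 1 ∧ p + 3 ≤ q ∧ p % 2 = 0) ∨ ((p + q) % 2 = 1 ∧ q ≤ p + 3 ∧ (p + q + 1) % 4 = 0)))
      ∨ (j = 4 ∧ n = 2 ∧ ((p + q) % 2 = 0 ∧ q ≤ p + 2 ∧ (p + q + 2) % 4 = 0))
      ∨ (j = 4 ∧ n = 3 ∧ q ≤ p + 2 ∧ (((p + q) % 2 = 1 ∧ p + 3 ≤ q ∧ p % 2 = 1) ∨ ((p + q) % 2 = 1 ∧ q ≤ p + 3 ∧ (p + q + 3) % 4 = 0)))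
      ∨ (j = 6 ∧ n = 3 ∧ (((p + q) % 2 = 1 ∧ p + 3 ≤ q ∧ p % 2 = 0) ∨ ((p + q) % 2 = 1 ∧ q ≤ p + 3 ∧ (p + q + 1) % 4 = 0)))
      ∨ (j = 6 ∧ n = 4 ∧ ((p + q) % 2 = 0 ∧ q ≤ p + 2 ∧ (p + q + 2) % 4 = 0))
      ∨ (j = 6 ∧ n = 5 ∧ q ≤ p + 2 ∧ (((p + q) % 2 = 1 ∧ p + 3 ≤ q ∧ p % 2 = 1) ∨ ((p + q) % 2 = 1 ∧ q ≤ p + 3 ∧ (p + q + 3) % 4 = 0)))
      ∨ (j = 8 ∧ n = 7 ∧ q ≤ p + 0 ∧ 2 ≤ p ∧ (((p + q) % 2 = 1 ∧ p + 1 ≤ q ∧ p % 2 = 1) ∨ ((p + q) % 2 = 1 ∧ q ≤ p + 1 ∧ (p + q + 3) % 4 = 2)))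
      ∨ (j = 8 ∧ n = 1 ∧ (((p + q) % 2 = 1 ∧ p + 1 ≤ q ∧ p % 2 = 0) ∨ ((p + q) % 2 = 1 ∧ q ≤ p + 1 ∧ (p + q + 1) % 4 = 2)))
      ∨ (j = 8 ∧ n = 2 ∧ ((p + q) % 2 = 0 ∧ q ≤ p + 0 ∧ (p + q + 2) % 4 = 2))
      ∨ (j = 8 ∧ n = 3 ∧ (((p + q) % 2 = 1 ∧ p + 1 ≤ q ∧ p % 2 = 1) ∨ ((p + q) % 2 = 1 ∧ q ≤ p + 1 ∧ (p + q + 3) % 4 = 2)))
      ∨ (j = 8 ∧ n = 5 ∧ (((p + q) % 2 = 1 ∧ p + 1 ≤ q ∧ p % 2 = 0) ∨ ((p + q) % 2 = 1 ∧ q ≤ p + 1 ∧ (p + q + 1) % 4 = 2)))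
      ∨ (j = 10 ∧ n = 7 ∧ ((2 ≤ p ∧ p + 3 ≤ q) ∨ (4 ≤ p)) ∧ (((p + q) % 2 = 1 ∧ p + 1 ≤ q ∧ p % 2 = 0) ∨ ((p + q) % 2 = 1 ∧ q ≤ p + 1 ∧ (p + q + 1) % 4 = 2)))
      ∨ (j = 10 ∧ n = 8 ∧ ((3 ≤ p ∧ p + 3 ≤ q) ∨ (6 ≤ p)) ∧ ((p + q) % 2 = 0 ∧ q ≤ p + 0 ∧ (p + q + 2) % 4 = 2))
      ∨ (j = 10 ∧ n = 9 ∧ q ≤ p + 0 ∧ 8 ≤ p ∧ (((p + q) % 2 = 1 ∧ p + 1 ≤ q ∧ p % 2 = 1) ∨ ((p + q) % 2 = 1 ∧ q ≤ p + 1 ∧ (p + q + 3) % 4 = 2)))
      ∨ (j = 10 ∧ n = 3 ∧ (((p + q) % 2 = 1 ∧ p + 1 ≤ q ∧ p % 2 = 0) ∨ ((p + q) % 2 = 1 ∧ q ≤ p + 1 ∧ (p + q + 1) % 4 = 2)))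
      ∨ (j = 10 ∧ n = 4 ∧ ((p + q) % 2 = 0 ∧ q ≤ p + 0 ∧ (p + q + 2) % 4 = 2))
      ∨ (j = 10 ∧ n = 5 ∧ ((p + 1 ≤ q) ∨ (q ≤ p + 0)) ∧ (((p + q) % 2 = 1 ∧ p + 1 ≤ q ∧ p % 2 = 1) ∨ ((p + q) % 2 = 1 ∧ q ≤ p + 1 ∧ (p + q + 3) % 4 = 2)))
      ∨ (j = 10 ∧ n = 6 ∧ ((p + 1 ≤ q ∧ 3 ≤ q) ∨ (3 ≤ p)) ∧ ((p + q) % 2 = 0 ∧ q ≤ p + 0 ∧ (p + q) % 4 = 2))
      ∨ (j = 12 ∧ n = 9 ∧ ((8 ≤ p ∧ p + 3 ≤ q) ∨ (10 ≤ p)) ∧ (((p + q) % 2 = 1 ∧ p + 1 ≤ q ∧ p % 2 = 0) ∨ ((p + q) % 2 = 1 ∧ q ≤ p + 1 ∧ (p + q + 1) % 4 = 2)))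
      ∨ (j = 12 ∧ n = 5 ∧ (((p + q) % 2 = 1 ∧ p + 1 ≤ q ∧ p % 2 = 0) ∨ ((p + q) % 2 = 1 ∧ q ≤ p + 1 ∧ (p + q + 1) % 4 = 2)))
      ∨ (j = 12 ∧ n = 6 ∧ ((p + q) % 2 = 0 ∧ q ≤ p + 0 ∧ (p + q + 2) % 4 = 2))
      ∨ (j = 12 ∧ n = 7 ∧ ((p + 1 ≤ q ∧ 7 ≤ q) ∨ (q ≤ p + 0)) ∧ (((p + q) % 2 = 1 ∧ p + 1 ≤ q ∧ p % 2 = 1) ∨ ((p + q) % 2 = 1 ∧ q ≤ p + 1 ∧ (p + q + 3) % 4 = 2)))))
    (fun j n p q => decide ((j = 4 ∧ n = 5 ∧ 6 ≤ p ∧ ¬ (((p + q) % 2 = 1 ∧ p + 3 ≤ q ∧ p % 2 = 0) ∨ ((p + q) % 2 = 1 ∧ q ≤ p + 3 ∧ (p + q + 1) % 4 = 0)))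
      ∨ (j = 4 ∧ n = 7 ∧ q ≤ p + 2 ∧ 10 ≤ p ∧ ¬ (((p + q) % 2 = 1 ∧ p + 3 ≤ q ∧ p % 2 = 1) ∨ ((p + q) % 2 = 1 ∧ q ≤ p + 3 ∧ (p + q + 3) % 4 = 0)))
      ∨ (j = 4 ∧ n = 1 ∧ ¬ (((p + q) % 2 = 1 ∧ p + 3 ≤ q ∧ p % 2 = 0) ∨ ((p + q) % 2 = 1 ∧ q ≤ p + 3 ∧ (p + q + 1) % 4 = 0)))
      ∨ (j = 4 ∧ n = 2 ∧ ¬ ((p + q) % 2 = 0 ∧ q ≤ p + 2 ∧ (p + q + 2) % 4 = 0))
      ∨ (j = 4 ∧ n = 3 ∧ q ≤ p + 2 ∧ ¬ (((p + q) % 2 = 1 ∧ p + 3 ≤ q ∧ p % 2 = 1) ∨ ((p + q) % 2 = 1 ∧ q ≤ p + 3 ∧ (p + q + 3) % 4 = 0)))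
      ∨ (j = 6 ∧ n = 3 ∧ ¬ (((p + q) % 2 = 1 ∧ p + 3 ≤ q ∧ p % 2 = 0) ∨ ((p + q) % 2 = 1 ∧ q ≤ p + 3 ∧ (p + q + 1) % 4 = 0)))
      ∨ (j = 6 ∧ n = 4 ∧ ¬ ((p + q) % 2 = 0 ∧ q ≤ p + 2 ∧ (p + q + 2) % 4 = 0))
      ∨ (j = 6 ∧ n = 5 ∧ q ≤ p + 2 ∧ ¬ (((p + q) % 2 = 1 ∧ p + 3 ≤ q ∧ p % 2 = 1) ∨ ((p + q) % 2 = 1 ∧ q ≤ p + 3 ∧ (p + q + 3) % 4 = 0)))
      ∨ (j = 8 ∧ n = 7 ∧ q ≤ p + 0 ∧ 2 ≤ p ∧ ¬ (((p + q) % 2 = 1 ∧ p + 1 ≤ q ∧ p % 2 = 1) ∨ ((p + q) % 2 = 1 ∧ q ≤ p + 1 ∧ (p + q + 3) % 4 = 2)))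
      ∨ (j = 8 ∧ n = 1 ∧ ¬ (((p + q) % 2 = 1 ∧ p + 1 ≤ q ∧ p % 2 = 0) ∨ ((p + q) % 2 = 1 ∧ q ≤ p + 1 ∧ (p + q + 1) % 4 = 2)))
      ∨ (j = 8 ∧ n = 2 ∧ ¬ ((p + q) % 2 = 0 ∧ q ≤ p + 0 ∧ (p + q + 2) % 4 = 2))
      ∨ (j = 8 ∧ n = 3 ∧ ¬ (((p + q) % 2 = 1 ∧ p + 1 ≤ q ∧ p % 2 = 1) ∨ ((p + q) % 2 = 1 ∧ q ≤ p + 1 ∧ (p + q + 3) % 4 = 2)))
      ∨ (j = 8 ∧ n = 5 ∧ ¬ (((p + q) % 2 = 1 ∧ p + 1 ≤ q ∧ p % 2 = 0) ∨ ((p + q) % 2 = 1 ∧ q ≤ p + 1 ∧ (p + q + 1) % 4 = 2)))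
      ∨ (j = 10 ∧ n = 7 ∧ ((2 ≤ p ∧ p + 3 ≤ q) ∨ (4 ≤ p)) ∧ ¬ (((p + q) % 2 = 1 ∧ p + 1 ≤ q ∧ p % 2 = 0) ∨ ((p + q) % 2 = 1 ∧ q ≤ p + 1 ∧ (p + q + 1) % 4 = 2)))
      ∨ (j = 10 ∧ n = 8 ∧ ((3 ≤ p ∧ p + 3 ≤ q) ∨ (6 ≤ p)) ∧ ¬ ((p + q) % 2 = 0 ∧ q ≤ p + 0 ∧ (p + q + 2) % 4 = 2))
      ∨ (j = 10 ∧ n = 9 ∧ q ≤ p + 0 ∧ 8 ≤ p ∧ ¬ (((p + q) % 2 = 1 ∧ p + 1 ≤ q ∧ p % 2 = 1) ∨ ((p + q) % 2 = 1 ∧ q ≤ p + 1 ∧ (p + q + 3) % 4 = 2)))
      ∨ (j = 10 ∧ n = 3 ∧ ¬ (((p + q) % 2 = 1 ∧ p + 1 ≤ q ∧ p % 2 = 0) ∨ ((p + q) % 2 = 1 ∧ q ≤ p + 1 ∧ (p + q + 1) % 4 = 2)))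
      ∨ (j = 10 ∧ n = 4 ∧ ¬ ((p + q) % 2 = 0 ∧ q ≤ p + 0 ∧ (p + q + 2) % 4 = 2))
      ∨ (j = 10 ∧ n = 5 ∧ ((p + 1 ≤ q) ∨ (q ≤ p + 0)) ∧ ¬ (((p + q) % 2 = 1 ∧ p + 1 ≤ q ∧ p % 2 = 1) ∨ ((p + q) % 2 = 1 ∧ q ≤ p + 1 ∧ (p + q + 3) % 4 = 2)))
      ∨ (j = 10 ∧ n = 6 ∧ ((p + 1 ≤ q ∧ 3 ≤ q) ∨ (3 ≤ p)) ∧ ¬ ((p + q) % 2 = 0 ∧ q ≤ p + 0 ∧ (p + q) % 4 = 2))
      ∨ (j = 12 ∧ n = 9 ∧ ((8 ≤ p ∧ p + 3 ≤ q) ∨ (10 ≤ p)) ∧ ¬ (((p + q) % 2 = 1 ∧ p + 1 ≤ q ∧ p % 2 = 0) ∨ ((p + q) % 2 = 1 ∧ q ≤ p + 1 ∧ (p + q + 1) % 4 = 2)))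
      ∨ (j = 12 ∧ n = 5 ∧ ¬ (((p + q) % 2 = 1 ∧ p + 1 ≤ q ∧ p % 2 = 0) ∨ ((p + q) % 2 = 1 ∧ q ≤ p + 1 ∧ (p + q + 1) % 4 = 2)))
      ∨ (j = 12 ∧ n = 6 ∧ ¬ ((p + q) % 2 = 0 ∧ q ≤ p + 0 ∧ (p + q + 2) % 4 = 2))
      ∨ (j = 12 ∧ n = 7 ∧ ((p + 1 ≤ q ∧ 7 ≤ q) ∨ (q ≤ p + 0)) ∧ ¬ (((p + q) % 2 = 1 ∧ p + 1 ≤ q ∧ p % 2 = 1) ∨ ((p + q) % 2 = 1 ∧ q ≤ p + 1 ∧ (p + q + 3) % 4 = 2)))
      ∨ (j = 1)
      ∨ (j = 2 ∧ n = 2 ∧ p + 5 ≤ q)
      ∨ (j = 3 ∧ n = 2 ∧ p + 5 ≤ q)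
      ∨ (j = 3 ∧ n = 3 ∧ p + 5 ≤ q)
      ∨ (j = 2 ∧ n = 4 ∧ p + 6 ≤ q)
      ∨ (j = 3 ∧ n = 4 ∧ p + 6 ≤ q)
      ∨ (j = 4 ∧ n = 4 ∧ p + 5 ≤ q)
      ∨ (j = 5 ∧ n = 4 ∧ p + 5 ≤ q)
      ∨ (j = 3 ∧ n = 5 ∧ p + 6 ≤ q)
      ∨ (j = 5 ∧ n = 5 ∧ p + 5 ≤ q)
      ∨ (j = 2 ∧ n = 6 ∧ p + 7 ≤ q)
      ∨ (j = 3 ∧ n = 6 ∧ p + 7 ≤ q)
      ∨ (j = 4 ∧ n = 6 ∧ p + 6 ≤ q)
      ∨ (j = 5 ∧ n = 6 ∧ p + 6 ≤ q)
      ∨ (j = 6 ∧ n = 6 ∧ p + 5 ≤ q)
      ∨ (j = 7 ∧ n = 6 ∧ p + 5 ≤ q)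
      ∨ (j = 7 ∧ n = 6 ∧ 3 ≤ p ∧ p + 3 ≤ q)
      ∨ (j = 8 ∧ n = 6 ∧ p + 2 ≤ q)
      ∨ (j = 9 ∧ n = 6 ∧ p + 2 ≤ q)
      ∨ (j = 3 ∧ n = 7 ∧ p + 7 ≤ q)
      ∨ (j = 5 ∧ n = 7 ∧ p + 6 ≤ q)
      ∨ (j = 7 ∧ n = 7 ∧ p + 5 ≤ q)
      ∨ (j = 7 ∧ n = 7 ∧ 3 ≤ p ∧ p + 3 ≤ q)
      ∨ (j = 2 ∧ n = 8 ∧ 2 ≤ p ∧ p + 8 ≤ q ∧ q ≤ p + 13)
      ∨ (j = 3 ∧ n = 8 ∧ 2 ≤ p ∧ p + 8 ≤ q ∧ q ≤ p + 13)
      ∨ (j = 4 ∧ n = 8 ∧ 2 ≤ p ∧ p + 7 ≤ q)
      ∨ (j = 5 ∧ n = 8 ∧ 2 ≤ p ∧ p + 7 ≤ q)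
      ∨ (j = 6 ∧ n = 8 ∧ 2 ≤ p ∧ p + 6 ≤ q)
      ∨ (j = 7 ∧ n = 8 ∧ 2 ≤ p ∧ p + 6 ≤ q)
      ∨ (j = 7 ∧ n = 8 ∧ 9 ≤ p ∧ p + 4 ≤ q)
      ∨ (j = 8 ∧ n = 8 ∧ 2 ≤ p ∧ p + 5 ≤ q)
      ∨ (j = 8 ∧ n = 8 ∧ 4 ≤ p ∧ p + 3 ≤ q)
      ∨ (j = 9 ∧ n = 8 ∧ 2 ≤ p ∧ p + 5 ≤ q)
      ∨ (j = 9 ∧ n = 8 ∧ 4 ≤ p ∧ p + 3 ≤ q)
      ∨ (j = 3 ∧ n = 9 ∧ 7 ≤ p ∧ p + 8 ≤ q ∧ q ≤ p + 13)
      ∨ (j = 5 ∧ n = 9 ∧ 7 ≤ p ∧ p + 7 ≤ q)
      ∨ (j = 7 ∧ n = 9 ∧ 7 ≤ p ∧ p + 6 ≤ q)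
      ∨ (j = 7 ∧ n = 9 ∧ 9 ≤ p ∧ p + 4 ≤ q)
      ∨ (j = 9 ∧ n = 9 ∧ 7 ≤ p ∧ p + 5 ≤ q)
      ∨ (j = 9 ∧ n = 9 ∧ 9 ≤ p ∧ p + 3 ≤ q)
      ∨ (j = 4 ∧ n = 5 ∧ p = 4 ∧ q = 9)
      ∨ (j = 4 ∧ n = 5 ∧ p = 4 ∧ q = 11)
      ∨ (j = 4 ∧ n = 5 ∧ p = 4 ∧ q = 13)
      ∨ (j = 4 ∧ n = 5 ∧ p = 4 ∧ q = 15)
      ∨ (j = 4 ∧ n = 7 ∧ p = 6 ∧ q = 13)
      ∨ (j = 4 ∧ n = 7 ∧ p = 6 ∧ q = 15)))
    962
    0x20ec8317b98017b98112e000174ad218f50314898018f4521d4e801d5f0021b95221c1421ce7801ce78118f5031489801489810b56830fb8800fb8842b5a032227002227011d4d801d4d811d55802226fa18f40018f40114808014808421b98318ec8018ec84221d03221d80221d841cf0001cf0011c78801c78840b56830fb8801489fa18eb8018eb841cf0031cf0801cf0842623032aeb002aeb0418f40318f48018f4840bbc83101e80101e841c82031ce8001ce8041422801884c213ab00180dca13ac00180eca20da83180e00180e040bc58310278010278413b3831419801419841c78831cdf001cdf042b5203221f0022281a18f500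18f5042b5a8322278022278426910326918026918420da83180d80180d840b5f830fc1800fc1841d55831dbb801dbb842af3032b59802b598413b383187c000f520018851a14237a14890014890413b383141a00141a040b5f030fc1000fc10418058314098014129a141a80141a8418170313a38013a384179e03180480180484341d832aea802af3122226802226840ae8030f4a000f4a041c8a831cf1001cf1040b60030fc200148aea101f00101f0420c883179580179e1213a28013a2842a8d832af4002af40421b783221e00221e042a7b8321af0021b7921884801884842152031885001885041cde031cde801cde8418f603148a80148a84181703187d00187d04148b830fba000fba04341e832b51802b51840b60830fc2800fc2840a80830ee2800ee2842b5b032228002228042b5283221f80221f840ae6830f48800f488420d2031805001805043416032b49002b49041c82831817001817040bc50310270010270421b78321b80021b80420e4031c82801c82840b57830fb9800fb9840b46030fa8000fa80426910326f78026f7841d46851d4f801d4f1221ba521dbd801dbd8418ed83102000102004341f032b52002b520418850318eb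0018eb042140031873001873040b4e030fb0000fb004341d832aea802aea812611002a7bd221b78021b7840aef830f51800f51842611832140002140040bc6831028801028840b57030fb9000fb9040bc7031029001029042623832152002152042a7303261180261184341d832b51002b51042619832680002680042a73032140002140011d44801d448420e403181700181701187c80187c8420da83180e00180e8a1412801412840b45830fa7800fa7840adf830f41800f41842a8d8321c10021c10412d78012e09a12e88012e8842a7303214000214001180d00180d04134e0017b04212d6801738c220da8317a78017a78112ce0012ce04173883179f00179f043427032b5a002b5a04262b83269200269204262383215200215201181f00181f011345801345840b5e830fc0800fc0840b4e830fb0800fb0842a85032623802623842a850326890026890412e98017545220fe8317cb8017cb8112f20012f2040bc6031028001028041d5d801d4b8021bfc221adc22699001cf8001cee001ce6001cdc001cd4002afb42215a42215042214842213e4221364226870025c40025bc0025b20025aa0025a0002598001356001344002ae9422a26422a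1e422a14422a0c422a024229fa4213ad0017b84217a6423889803888803878803877802fc3802f5e002f54002f4c002ef8802ee8802ee7802ee6802ed6802ed5802ed4802e91002e89002e7f002e77002e6d002e6500263380262980262180261780260f80256980255880255780255680255480254c80254680254580254480254280253a802534802533802532802530802528802522802520801c92801c88801c80801c7e801c76801c6e801c6c801c64801c5c801c2d001c23001c1b001c19001c11001c09001c07001bff001bf7001bc7801bb6801bb5801ba4801ba3801b92801b918018185a13cf8013c58013be8013bd8013bb8013028012f08012e68012de8012d48012cc80129d00128b00128100127900126f0012670012258012148012138012018038898f38888f38788f38778f2fc38f2fbd072fbc072fbb072fab072f5f072f5e872f5e0f2f57072f56872f56072f55872f55072f540f2f4e872f4e072f4d872f4d072f4c872f4c0f2f45872f45072ef88f2ee88f2ee78f2ee68f2ed68f2ed58f2ed48f2e910f2e890f2e7f0f2e770f2e6d0f2e650f2b5b072b5a872b52872b4a072b49872af5072af4872aec872aec072aeb872ae407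2ae3872ae3072a1f072a16872a16072a0d072a04872a040726f90726f80726e80726e707269307269287268a87268a0726898726820726818726810726338f263307263287262b07262a87262a0726298f26220726218f262107262087261b07261a0726190726188726180726178f260f8f26090726080725bd8725bd0725b50725b48725b40725ab8725ab0725a30725a28725a20725698f255e07255d8725588f25578f25568f25560725558725550725548f254d87254d07254c8f254c07254b8725468f25458f25448f25440725438725430725428f253b87253b07253a8f253a0725398725348f25338f25328f25320725318725310725308f25298725290725288f25228f25208f21c20721c18721ba0721b98721b90721b88721b18721b10721b08721b00721af8721a70721a687215b87215407215387215307215287214b87214b07214a87214a072149872141072140872137871d58071d57071d56071d55071d46071d45071d43071cf2071cf1871ce9871ce9071ce8871ce0871ce0071c9c071c928f1c92071c91871c8a071c89871c89071c888f1c88071c87871c81071c808f1c80071c7f871c7f071c7e8f1c7a071c79071c78071c77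871c77071c768f1c76071c75871c6f071c6e8f1c6e071c6d871c6d071c6c8f1c67071c66071c65871c65071c648f1c5c8f1c36871c36071c2e071c2d871c2d0f1c24871c24071c230f1c1c871c1c071c1b871c1b0f1c190f1c14071c13871c13071c12871c12071c110f1c0a071c09871c090f1c070f1c01871c01071c00871c00071bff0f1bf8071bf7871bf70f1bc78f1bb68f1bb58f1ba48f1ba38f1b928f1b918f18f60718ed8718ed0718e50718e48718e407189007188787188707187f07187e87187e07182087181807181787180f87180f07180e8718060718058717fd0717fc8717ba8717b20717b18717a98717a90717a88717a007179f87179707179687149407149307149207148b87148307148207148107142e07142587142507141d07141c87141c07140a0713cf8f13c58f13be8f13bd8f13bd0713bc8713bc0713bb8f13b60713b50713b40713b30713ad8713ac8713a40713a307135007134f87134787134707134687133e07133d8713350713348713030713028f12fb0712f10712f08f12f00712ef8712e90712e80712e78712e70712e68f12df0712de8f12de0712dd8712d80712d70712d60712d58712d50712d48f12cd0712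cc8f129d0f128c07128b87128b0f12838712830712828712820712810f127a87127a0712798712790f127207127187127087127007126f0f12680712678712670f12258f12148f12138f12018f1029871021071020870fc3870fbb070fba870f42070e7e870e76070e75870e18870e10070e0f870bbe070bbd070bbc070b58870b3d870af2070af1070af0070aef070ae0070adf070ade070a71070a1207076507076487076407076387076307076287075c87075c07075b87075b07075a87075a0707520707518706ff0706fe8706fe0706fd8706fd0706fc8706fc0706f68706f60706f58706f50706f48706f40706f38706ed0706ec8706ec0706eb8706e40706e38706e30706db8706db0706da87069887069807069787069707069687069607069007068f87068f07068e87068e07068d87068d07068707068687068607068587068507068487068407067e07067d87067d07067c07067b87067587067507067487062787062707062007061f87061f07061e87061e07061787061707061607061587060f07060e8705b88705b80705b00705af87 = true := by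
  decide +kernel

theorem w2_aux (hf : Rule f) {k c n X : ℕ}
    (T : NHT f k c (2 * n)) (U : NHU f k c (2 * n))
    (hL : ∀ {M R x y : ℕ}, M + 1 = 6 * k → c ≤ R + 12 → R ≤ c + 2 → 2 * n ≤ x + 12 → y ≤ x → x ≤ y + 4 * k → ¬ f M R x y)
    (C2a : Cyc f (6 * k + 2) (c - 8) (2 * (n - 9) + 2)) (C2 : Cyc f (6 * k + 2) (c - 4) (X + 1))
    (C4a : Cyc f (6 * k + 4) (c - 6) (2 * (n - 7) + 2))
    (C6a : Cyc f (6 * k + 6) (c - 8) (2 * (n - (k + 7)) + 2)) (C6 : Cyc f (6 * k + 6) (c - 4) (2 * (n - 5) + 2))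
    (C8a : Cw f (6 * k + 8) (c - 6) (n - (k + 5))) (C8 : Cw f (6 * k + 8) (c - 2) (n - 3))
    (C10a : Cw f (6 * k + 10) (c - 4) (n - (k + 2))) (C10 : Cw f (6 * k + 10) c n)
    (hX : 2 * n ≤ X + 1) (ho : X % 2 = 1)
    (h1 : ∀ {M R x y : ℕ}, M = 6 * k + 2 → R + 4 = c → x = X → y % 2 = 0 → X + 3 ≤ y + 2 * k → y + 1 ≤ X → ¬ f M R x y)
    (h2 : ∀ {M R x y : ℕ}, M = 6 * k + 2 → R + 2 = c → x = X + 2 → y % 2 = 0 → X + 7 ≤ y + 2 * k → y + 2 * k ≤ X + 9 →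
      ¬ f M R x y) : False := by
  have hk := T.hk
  have hc := T.hc
  have h4 := T.h4
  have hb := T.hb
  have hN := T.hN2
  obtain ⟨a0, ha0⟩ : ∃ z, z + 2 = 6 * k := ⟨6 * k - 2, by omega⟩
  obtain ⟨b0, hb0⟩ : ∃ z, z + 9 = c := ⟨c - 9, by omega⟩
  obtain ⟨x0, hx0⟩ : ∃ z, z + 4 = X := ⟨X - 4, by omega⟩
  obtain ⟨y0, hy0⟩ : ∃ z, z + 2 * k + 20 = X + 14 := ⟨X + 14 - 2 * k - 20, by omega⟩
  refine check_sound hf (a0 := a0) (b0 := b0) (x0 := x0) (y0 := y0) w2_chk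
    ⟨fun h => absurd h (by decide), fun h => absurd h (by decide), fun h => absurd h (by decide), by omega, by omega,
      by omega, by omega⟩ ?_ ?_
  · intro j m p q hr h
    obtain ⟨-, -, hm1, hm2, hp1, hp2, hq1, hq2⟩ := hr
    replace h := of_decide_eq_true h
    rcases h with h | h | h | h | h | h | h | h | h | h | h | h | h | h | h | h | h | h | h | h | h | h | h | h
    · obtain ⟨rfl, rfl, h⟩ := h
      exact (WrapC.v0 C2 (by omega) (by omega) (by omega) (by omega) (by omega) (by omega) (by omega)).mpr (by omega)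
    · obtain ⟨rfl, rfl, h⟩ := h
      exact (WrapC.v2 C2 (by omega) (by omega) (by omega) (by omega) (by omega) (by omega) (by omega)).mpr (by omega)
    · obtain ⟨rfl, rfl, h⟩ := h
      exact (WrapC.v0 C2a (by omega) (by omega) (by omega) (by omega) (by omega) (by omega) (by omega)).mpr (by omega)
    · obtain ⟨rfl, rfl, h⟩ := h
      exact (WrapC.v1 C2a (by omega) (by omega) (by omega) (by omega) (by omega) (by omega) (by omega) (by omega)).mpr (by omega)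
    · obtain ⟨rfl, rfl, h⟩ := h
      exact (WrapC.v2 C2a (by omega) (by omega) (by omega) (by omega) (by omega) (by omega) (by omega)).mpr (by omega)
    · obtain ⟨rfl, rfl, h⟩ := h
      exact (WrapC.v0 C4a (by omega) (by omega) (by omega) (by omega) (by omega) (by omega) (by omega)).mpr (by omega)
    · obtain ⟨rfl, rfl, h⟩ := h
      exact (WrapC.v1 C4a (by omega) (by omega) (by omega) (by omega) (by omega) (by omega) (by omega) (by omega)).mpr (by omega)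
    · obtain ⟨rfl, rfl, h⟩ := h
      exact (WrapC.v2 C4a (by omega) (by omega) (by omega) (by omega) (by omega) (by omega) (by omega)).mpr (by omega)
    · obtain ⟨rfl, rfl, h⟩ := h
      exact (WrapC.v2 C6 (by omega) (by omega) (by omega) (by omega) (by omega) (by omega) (by omega)).mpr (by omega)
    · obtain ⟨rfl, rfl, h⟩ := h
      exact (WrapC.v0 C6a (by omega) (by omega) (by omega) (by omega) (by omega) (by omega) (by omega)).mpr (by omega)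
    · obtain ⟨rfl, rfl, h⟩ := h
      exact (WrapC.v1 C6a (by omega) (by omega) (by omega) (by omega) (by omega) (by omega) (by omega) (by omega)).mpr (by omega)
    · obtain ⟨rfl, rfl, h⟩ := h
      exact (WrapC.v2 C6a (by omega) (by omega) (by omega) (by omega) (by omega) (by omega) (by omega)).mpr (by omega)
    · obtain ⟨rfl, rfl, h⟩ := h
      exact (WrapC.v4 C6a (by omega) (by omega) (by omega) (by omega) (by omega) (by omega) (by omega)).mpr (by omega)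
    · obtain ⟨rfl, rfl, h⟩ := h
      exact (NW.w0v C8 (by omega) (by omega) (by omega) (by omega) (by omega) (by omega) (by omega)).mpr (by omega)
    · obtain ⟨rfl, rfl, h⟩ := h
      exact (NW.w1v C8 (by omega) (by omega) (by omega) (by omega) (by omega) (by omega) (by omega) (by omega)).mpr (by omega)
    · obtain ⟨rfl, rfl, h⟩ := h
      exact (NW.w2v C8 (by omega) (by omega) (by omega) (by omega) (by omega) (by omega) (by omega)).mpr (by omega)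
    · obtain ⟨rfl, rfl, h⟩ := h
      exact (NW.w0v C8a (by omega) (by omega) (by omega) (by omega) (by omega) (by omega) (by omega)).mpr (by omega)
    · obtain ⟨rfl, rfl, h⟩ := h
      exact (NW.w1v C8a (by omega) (by omega) (by omega) (by omega) (by omega) (by omega) (by omega) (by omega)).mpr (by omega)
    · obtain ⟨rfl, rfl, h⟩ := h
      exact (NW.w2v C8a (by omega) (by omega) (by omega) (by omega) (by omega) (by omega) (by omega)).mpr (by omega)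
    · obtain ⟨rfl, rfl, h⟩ := h
      exact (NW.w3v C8a (by omega) (by omega) (by omega) (by omega) (by omega) (by omega) (by omega) (by omega)).mpr (by omega)
    · obtain ⟨rfl, rfl, h⟩ := h
      exact (NW.w0v C10 (by omega) (by omega) (by omega) (by omega) (by omega) (by omega) (by omega)).mpr (by omega)
    · obtain ⟨rfl, rfl, h⟩ := h
      exact (NW.w0v C10a (by omega) (by omega) (by omega) (by omega) (by omega) (by omega) (by omega)).mpr (by omega)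
    · obtain ⟨rfl, rfl, h⟩ := h
      exact (NW.w1v C10a (by omega) (by omega) (by omega) (by omega) (by omega) (by omega) (by omega) (by omega)).mpr (by omega)
    · obtain ⟨rfl, rfl, h⟩ := h
      exact (NW.w2v C10a (by omega) (by omega) (by omega) (by omega) (by omega) (by omega) (by omega)).mpr (by omega)
  · intro j m p q hr h
    obtain ⟨-, -, hm1, hm2, hp1, hp2, hq1, hq2⟩ := hr
    replace h := of_decide_eq_true h
    rcases h with h | h | h | h | h | h | h | h | h | h | h | h | h | h | h | h | h | h | h | h | h | h | h | h | h | h | h | h | h | h | h | h | h | h | h | h | h | h | h | h | h | h | h | h | h | h | h | h | h | h | h | h | h | h | h | h | h | h | h | h | h | h | h | h | h | h | h | h | h | h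
    · obtain ⟨rfl, rfl, h⟩ := h
      exact mt (WrapC.v0 C2 (by omega) (by omega) (by omega) (by omega) (by omega) (by omega) (by omega)).mp (by omega)
    · obtain ⟨rfl, rfl, h⟩ := h
      exact mt (WrapC.v2 C2 (by omega) (by omega) (by omega) (by omega) (by omega) (by omega) (by omega)).mp (by omega)
    · obtain ⟨rfl, rfl, h⟩ := h
      exact mt (WrapC.v0 C2a (by omega) (by omega) (by omega) (by omega) (by omega) (by omega) (by omega)).mp (by omega)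
    · obtain ⟨rfl, rfl, h⟩ := h
      exact mt (WrapC.v1 C2a (by omega) (by omega) (by omega) (by omega) (by omega) (by omega) (by omega) (by omega)).mp (by omega)
    · obtain ⟨rfl, rfl, h⟩ := h
      exact mt (WrapC.v2 C2a (by omega) (by omega) (by omega) (by omega) (by omega) (by omega) (by omega)).mp (by omega)
    · obtain ⟨rfl, rfl, h⟩ := h
      exact mt (WrapC.v0 C4a (by omega) (by omega) (by omega) (by omega) (by omega) (by omega) (by omega)).mp (by omega)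
    · obtain ⟨rfl, rfl, h⟩ := h
      exact mt (WrapC.v1 C4a (by omega) (by omega) (by omega) (by omega) (by omega) (by omega) (by omega) (by omega)).mp (by omega)
    · obtain ⟨rfl, rfl, h⟩ := h
      exact mt (WrapC.v2 C4a (by omega) (by omega) (by omega) (by omega) (by omega) (by omega) (by omega)).mp (by omega)
    · obtain ⟨rfl, rfl, h⟩ := h
      exact mt (WrapC.v2 C6 (by omega) (by omega) (by omega) (by omega) (by omega) (by omega) (by omega)).mp (by omega)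
    · obtain ⟨rfl, rfl, h⟩ := h
      exact mt (WrapC.v0 C6a (by omega) (by omega) (by omega) (by omega) (by omega) (by omega) (by omega)).mp (by omega)
    · obtain ⟨rfl, rfl, h⟩ := h
      exact mt (WrapC.v1 C6a (by omega) (by omega) (by omega) (by omega) (by omega) (by omega) (by omega) (by omega)).mp (by omega)
    · obtain ⟨rfl, rfl, h⟩ := h
      exact mt (WrapC.v2 C6a (by omega) (by omega) (by omega) (by omega) (by omega) (by omega) (by omega)).mp (by omega)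
    · obtain ⟨rfl, rfl, h⟩ := h
      exact mt (WrapC.v4 C6a (by omega) (by omega) (by omega) (by omega) (by omega) (by omega) (by omega)).mp (by omega)
    · obtain ⟨rfl, rfl, h⟩ := h
      exact mt (NW.w0v C8 (by omega) (by omega) (by omega) (by omega) (by omega) (by omega) (by omega)).mp (by omega)
    · obtain ⟨rfl, rfl, h⟩ := h
      exact mt (NW.w1v C8 (by omega) (by omega) (by omega) (by omega) (by omega) (by omega) (by omega) (by omega)).mp (by omega)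
    · obtain ⟨rfl, rfl, h⟩ := h
      exact mt (NW.w2v C8 (by omega) (by omega) (by omega) (by omega) (by omega) (by omega) (by omega)).mp (by omega)
    · obtain ⟨rfl, rfl, h⟩ := h
      exact mt (NW.w0v C8a (by omega) (by omega) (by omega) (by omega) (by omega) (by omega) (by omega)).mp (by omega)
    · obtain ⟨rfl, rfl, h⟩ := h
      exact mt (NW.w1v C8a (by omega) (by omega) (by omega) (by omega) (by omega) (by omega) (by omega) (by omega)).mp (by omega)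
    · obtain ⟨rfl, rfl, h⟩ := h
      exact mt (NW.w2v C8a (by omega) (by omega) (by omega) (by omega) (by omega) (by omega) (by omega)).mp (by omega)
    · obtain ⟨rfl, rfl, h⟩ := h
      exact mt (NW.w3v C8a (by omega) (by omega) (by omega) (by omega) (by omega) (by omega) (by omega) (by omega)).mp (by omega)
    · obtain ⟨rfl, rfl, h⟩ := h
      exact mt (NW.w0v C10 (by omega) (by omega) (by omega) (by omega) (by omega) (by omega) (by omega)).mp (by omega)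
    · obtain ⟨rfl, rfl, h⟩ := h
      exact mt (NW.w0v C10a (by omega) (by omega) (by omega) (by omega) (by omega) (by omega) (by omega)).mp (by omega)
    · obtain ⟨rfl, rfl, h⟩ := h
      exact mt (NW.w1v C10a (by omega) (by omega) (by omega) (by omega) (by omega) (by omega) (by omega) (by omega)).mp (by omega)
    · obtain ⟨rfl, rfl, h⟩ := h
      exact mt (NW.w2v C10a (by omega) (by omega) (by omega) (by omega) (by omega) (by omega) (by omega)).mp (by omega)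
    · obtain rfl := h
      exact hL (by omega) (by omega) (by omega) (by omega) (by omega) (by omega)
    · obtain ⟨rfl, rfl, h⟩ := h
      exact NHT.rIn hf T (t := 1) (p := 0) (j := 1) (by omega) (by omega) (by omega) (by omega) (by omega) (by omega) (by omega) (by omega)
    · obtain ⟨rfl, rfl, h⟩ := h
      exact NHT.rIn hf T (t := 1) (p := 1) (j := 1) (by omega) (by omega) (by omega) (by omega) (by omega) (by omega) (by omega) (by omega)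
    · obtain ⟨rfl, rfl, h⟩ := h
      exact NHT.pIn hf T (t := 2) (j := 1) (by omega) (by omega) (by omega) (by omega) (by omega) (by omega) (by omega)
    · obtain ⟨rfl, rfl, h⟩ := h
      exact NHT.rIn hf T (t := 2) (p := 0) (j := 2) (by omega) (by omega) (by omega) (by omega) (by omega) (by omega) (by omega) (by omega)
    · obtain ⟨rfl, rfl, h⟩ := h
      exact NHT.rIn hf T (t := 2) (p := 1) (j := 2) (by omega) (by omega) (by omega) (by omega) (by omega) (by omega) (by omega) (by omega)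
    · obtain ⟨rfl, rfl, h⟩ := h
      exact NHT.rIn hf T (t := 2) (p := 0) (j := 1) (by omega) (by omega) (by omega) (by omega) (by omega) (by omega) (by omega) (by omega)
    · obtain ⟨rfl, rfl, h⟩ := h
      exact NHT.rIn hf T (t := 2) (p := 1) (j := 1) (by omega) (by omega) (by omega) (by omega) (by omega) (by omega) (by omega) (by omega)
    · obtain ⟨rfl, rfl, h⟩ := h
      exact NHT.pIn hf T (t := 3) (j := 2) (by omega) (by omega) (by omega) (by omega) (by omega) (by omega) (by omega)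
    · obtain ⟨rfl, rfl, h⟩ := h
      exact NHT.pIn hf T (t := 3) (j := 1) (by omega) (by omega) (by omega) (by omega) (by omega) (by omega) (by omega)
    · obtain ⟨rfl, rfl, h⟩ := h
      exact NHT.rIn hf T (t := 3) (p := 0) (j := 3) (by omega) (by omega) (by omega) (by omega) (by omega) (by omega) (by omega) (by omega)
    · obtain ⟨rfl, rfl, h⟩ := h
      exact NHT.rIn hf T (t := 3) (p := 1) (j := 3) (by omega) (by omega) (by omega) (by omega) (by omega) (by omega) (by omega) (by omega)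
    · obtain ⟨rfl, rfl, h⟩ := h
      exact NHT.rIn hf T (t := 3) (p := 0) (j := 2) (by omega) (by omega) (by omega) (by omega) (by omega) (by omega) (by omega) (by omega)
    · obtain ⟨rfl, rfl, h⟩ := h
      exact NHT.rIn hf T (t := 3) (p := 1) (j := 2) (by omega) (by omega) (by omega) (by omega) (by omega) (by omega) (by omega) (by omega)
    · obtain ⟨rfl, rfl, h⟩ := h
      exact NHT.rIn hf T (t := 3) (p := 0) (j := 1) (by omega) (by omega) (by omega) (by omega) (by omega) (by omega) (by omega) (by omega)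
    · obtain ⟨rfl, rfl, h⟩ := h
      exact NHT.rIn hf T (t := 3) (p := 1) (j := 1) (by omega) (by omega) (by omega) (by omega) (by omega) (by omega) (by omega) (by omega)
    · obtain ⟨rfl, rfl, h⟩ := h
      exact uP1 hf U (j := 1) (by omega) (by omega) (by omega) (by omega) (by omega) (by omega)
    · obtain ⟨rfl, rfl, h⟩ := h
      exact uA0 hf U (p := 0) (j := 0) (by omega) (by omega) (by omega) (by omega) (by omega) (by omega) (by omega)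
    · obtain ⟨rfl, rfl, h⟩ := h
      exact uA0 hf U (p := 1) (j := 0) (by omega) (by omega) (by omega) (by omega) (by omega) (by omega) (by omega)
    · obtain ⟨rfl, rfl, h⟩ := h
      exact NHT.pIn hf T (t := 4) (j := 3) (by omega) (by omega) (by omega) (by omega) (by omega) (by omega) (by omega)
    · obtain ⟨rfl, rfl, h⟩ := h
      exact NHT.pIn hf T (t := 4) (j := 2) (by omega) (by omega) (by omega) (by omega) (by omega) (by omega) (by omega)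
    · obtain ⟨rfl, rfl, h⟩ := h
      exact NHT.pIn hf T (t := 4) (j := 1) (by omega) (by omega) (by omega) (by omega) (by omega) (by omega) (by omega)
    · obtain ⟨rfl, rfl, h⟩ := h
      exact uP1 hf U (j := 1) (by omega) (by omega) (by omega) (by omega) (by omega) (by omega)
    · obtain ⟨rfl, rfl, h⟩ := h
      exact NHT.rIn hf T (t := 4) (p := 0) (j := 4) (by omega) (by omega) (by omega) (by omega) (by omega) (by omega) (by omega) (by omega)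
    · obtain ⟨rfl, rfl, h⟩ := h
      exact NHT.rIn hf T (t := 4) (p := 1) (j := 4) (by omega) (by omega) (by omega) (by omega) (by omega) (by omega) (by omega) (by omega)
    · obtain ⟨rfl, rfl, h⟩ := h
      exact NHT.rIn hf T (t := 4) (p := 0) (j := 3) (by omega) (by omega) (by omega) (by omega) (by omega) (by omega) (by omega) (by omega)
    · obtain ⟨rfl, rfl, h⟩ := h
      exact NHT.rIn hf T (t := 4) (p := 1) (j := 3) (by omega) (by omega) (by omega) (by omega) (by omega) (by omega) (by omega) (by omega)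
    · obtain ⟨rfl, rfl, h⟩ := h
      exact NHT.rIn hf T (t := 4) (p := 0) (j := 2) (by omega) (by omega) (by omega) (by omega) (by omega) (by omega) (by omega) (by omega)
    · obtain ⟨rfl, rfl, h⟩ := h
      exact NHT.rIn hf T (t := 4) (p := 1) (j := 2) (by omega) (by omega) (by omega) (by omega) (by omega) (by omega) (by omega) (by omega)
    · obtain ⟨rfl, rfl, h⟩ := h
      exact uP2 hf U (j := 2) (by omega) (by omega) (by omega) (by omega) (by omega) (by omega)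
    · obtain ⟨rfl, rfl, h⟩ := h
      exact NHT.rIn hf T (t := 4) (p := 0) (j := 1) (by omega) (by omega) (by omega) (by omega) (by omega) (by omega) (by omega) (by omega)
    · obtain ⟨rfl, rfl, h⟩ := h
      exact uA1 hf U (p := 0) (j := 1) (by omega) (by omega) (by omega) (by omega) (by omega) (by omega) (by omega)
    · obtain ⟨rfl, rfl, h⟩ := h
      exact NHT.rIn hf T (t := 4) (p := 1) (j := 1) (by omega) (by omega) (by omega) (by omega) (by omega) (by omega) (by omega) (by omega)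
    · obtain ⟨rfl, rfl, h⟩ := h
      exact uA1 hf U (p := 1) (j := 1) (by omega) (by omega) (by omega) (by omega) (by omega) (by omega) (by omega)
    · obtain ⟨rfl, rfl, h⟩ := h
      exact NHT.p0i hf T (j := 4) (by omega) (by omega) (by omega) (by omega) (by omega) (by omega)
    · obtain ⟨rfl, rfl, h⟩ := h
      exact NHT.p0i hf T (j := 3) (by omega) (by omega) (by omega) (by omega) (by omega) (by omega)
    · obtain ⟨rfl, rfl, h⟩ := h
      exact NHT.p0i hf T (j := 2) (by omega) (by omega) (by omega) (by omega) (by omega) (by omega)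
    · obtain ⟨rfl, rfl, h⟩ := h
      exact uP2 hf U (j := 2) (by omega) (by omega) (by omega) (by omega) (by omega) (by omega)
    · obtain ⟨rfl, rfl, h⟩ := h
      exact NHT.p0i hf T (j := 1) (by omega) (by omega) (by omega) (by omega) (by omega) (by omega)
    · obtain ⟨rfl, rfl, h⟩ := h
      exact uP2 hf U (j := 1) (by omega) (by omega) (by omega) (by omega) (by omega) (by omega)
    · obtain ⟨rfl, rfl, rfl, rfl⟩ := h
      exact h1 (by omega) (by omega) (by omega) (by omega) (by omega) (by omega)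
    · obtain ⟨rfl, rfl, rfl, rfl⟩ := h
      exact h1 (by omega) (by omega) (by omega) (by omega) (by omega) (by omega)
    · obtain ⟨rfl, rfl, rfl, rfl⟩ := h
      exact h1 (by omega) (by omega) (by omega) (by omega) (by omega) (by omega)
    · obtain ⟨rfl, rfl, rfl, rfl⟩ := h
      exact h1 (by omega) (by omega) (by omega) (by omega) (by omega) (by omega)
    · obtain ⟨rfl, rfl, rfl, rfl⟩ := h
      exact h2 (by omega) (by omega) (by omega) (by omega) (by omega) (by omega)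
    · obtain ⟨rfl, rfl, rfl, rfl⟩ := h
      exact h2 (by omega) (by omega) (by omega) (by omega) (by omega) (by omega)

/-- **W2**: an empty odd column `x ≥ 2 n - 1` of the layer `6 k + 2` in the row `c - 4` gives a line in the column `x + 2`
of the row `c - 2`. -/
theorem w2 (hf : Rule f) {k c n x : ℕ}
    (T : NHT f k c (2 * n)) (U : NHU f k c (2 * n))
    (hL : ∀ {M R x y : ℕ}, M + 1 = 6 * k → c ≤ R + 12 → R ≤ c + 2 → 2 * n ≤ x + 12 → y ≤ x → x ≤ y + 4 * k → ¬ f M R x y)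
    (C2a : Cyc f (6 * k + 2) (c - 8) (2 * (n - 9) + 2)) (C2 : Cyc f (6 * k + 2) (c - 4) (x + 1))
    (C4a : Cyc f (6 * k + 4) (c - 6) (2 * (n - 7) + 2))
    (C6a : Cyc f (6 * k + 6) (c - 8) (2 * (n - (k + 7)) + 2)) (C6 : Cyc f (6 * k + 6) (c - 4) (2 * (n - 5) + 2))
    (C8a : Cw f (6 * k + 8) (c - 6) (n - (k + 5))) (C8 : Cw f (6 * k + 8) (c - 2) (n - 3))
    (C10a : Cw f (6 * k + 10) (c - 4) (n - (k + 2))) (C10 : Cw f (6 * k + 10) c n)
    (hX : 2 * n ≤ x + 1) (ho : x % 2 = 1)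
    (h1 : ∀ {M R u y : ℕ}, M = 6 * k + 2 → R + 4 = c → u = x → y % 2 = 0 → x + 3 ≤ y + 2 * k → y + 1 ≤ x → ¬ f M R u y) :
    ∃ y, y % 2 = 0 ∧ x + 7 ≤ y + 2 * k ∧ y + 2 * k ≤ x + 9 ∧ f (6 * k + 2) (c - 2) (x + 2) y := by
  have hb := T.hb
  by_contra hn
  refine w2_aux hf T U hL C2a C2 C4a C6a C6 C8a C8 C10a C10 hX ho h1 ?_
  intro M R u y e1 e2 e3 h3 h4 h5 h
  have e4 : R = c - 2 := by omega
  subst e1 e3 e4
  exact hn ⟨y, h3, h4, h5, h⟩

end Pool.Agent.SNT.D1W2
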