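import Pool.Agent.SNT.D1BirthE

set_option autoImplicit false

/-! The improved leads `(L4, L2, L0) = (1, -4, -7)` without the last tip of `6 k + 2` (reserve road). -/

namespace Pool.Agent.SNT.D1

variable {f : ℕ → ℕ → ℕ → ℕ → Prop} {k b m e10 : ℕ}

/-- The leads `n - 7`, `n - 4`, `n + 1` of `6 k`, `6 k + 2`, `6 k + 4` in all cycles of the window `b` and of the
later ones, over `StackB`, from the two tips `t = 2, 1`. -/
theorem mainW (hf : Rule f) (hk : 8 ≤ k) (B2 : NoCtx f k 2) (B1 : NoCtx f k 1)
    (S : StackB f k b m 0 0 0 0 0 1) (j : ℕ) :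
    Cyc f (6 * k) (b + 4 * j + 16) (2 * (nn k m j - 7) + 2) ∧
    Cyc f (6 * k + 2) (b + 4 * j + 18) (2 * (nn k m j - 4) + 2) ∧
    Cyc f (6 * k + 4) (b + 4 * j + 20) (2 * (nn k m j + 1) + 2) := by
  obtain ⟨b', m', rfl, rfl, S'⟩ := S.back (j := 3 * k + 5) (by omega)
  -- the steps, the last one replaced by a weaker use
  have T2 : ∀ b m : ℕ, StackA f k b m 0 0 0 0 0 1 → Q0 f k b m 0 2 → Q4 f k b m 0 0 → Q2 f k b m 0 3 →
      Tip2 f k b m 2 := fun _ _ S q0 q4 q2 => tip2_of_noCtx hf B2 S le_rfl q0 q4 q2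
  have T1 : ∀ b m : ℕ, StackA f k b m 0 0 0 0 0 1 → Q0 f k b m 0 1 → Q4 f k b m 0 0 → Q2 f k b m 0 2 →
      Tip2 f k b m 1 := fun _ _ S q0 q4 q2 => tip2_of_noCtx hf B1 S (by omega) q0 q4 q2
  -- `6 k`: down to `n - 5`
  have r0 : Q0 f k b' m' k 2 := by
    have : ∀ u : ℕ, u + 4 ≤ k → Q0 f k b' m' u (k - 2 - u) := by
      intro u
      induction u with
      | zero => intro _; exact start0 S' hk
      | succ u ih =>
        intro hu
        have q := ih (by omega)
        refine up0 S' fun i hi => ?_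
        refine s0 hf (t := k - 2 - (u + 1)) (S'.shift i) (by omega) ?_
        rw [show k - 2 - (u + 1) + 1 = k - 2 - u by omega]
        exact q.at hi
    have h := this (k - 4) (by omega)
    rw [show k - 2 - (k - 4) = 2 by omega] at h
    exact h.mono (by omega)
  have r2 : Q2 f k b' m' (2 * k) 3 := by
    have : ∀ u : ℕ, u + 5 ≤ k → Q2 f k b' m' (k + u) (k - 2 - u) := by
      intro u
      induction u with
      | zero => intro _; exact (start2 S' hk).mono (by omega)
      | succ u ih =>
        intro hu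
        have q := ih (by omega)
        rw [← Nat.add_assoc]
        refine up2 S' fun i hi => ?_
        have q' : Q2 f k (b' + 4 * i) (m' + (k + 2) * i) 0 (k - 2 - (u + 1) + 1) := by
          rw [show k - 2 - (u + 1) + 1 = k - 2 - u by omega]
          exact q.at hi
        exact loc2_c1 hf (t' := 2) (t := k - 2 - (u + 1)) (by omega) (S'.shift i) (r0.at (by omega)) q'
          (tips12 fun i' => t2_field hf _ _ (k - 2 - (u + 1)) ((S'.shift i).shift i') (by omega) (by omega)
            ((r0.at (by omega)).at (by omega)) (q'.at (by omega)))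
    have h := this (k - 5) (by omega)
    rw [show k - 2 - (k - 5) = 3 by omega] at h
    exact h.mono (by omega)
  have r4 : Q4 f k b' m' (3 * k) 0 := by
    have : ∀ u : ℕ, u + 6 ≤ k → Q4 f k b' m' (2 * k + u) (k - 6 - u) := by
      intro u
      induction u with
      | zero => intro _; exact (start4 S' hk).mono (by omega)
      | succ u ih =>
        intro hu
        have q := ih (by omega)
        rw [← Nat.add_assoc]
        refine up4 S' fun i hi => ?_
        refine s4 hf hk _ _ (k - 6 - (u + 1)) (S'.shift i) (by omega)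
          (r0.at (by omega)) (r2.at (by omega)) ?_
        rw [show k - 6 - (u + 1) + 1 = k - 6 - u by omega]
        exact q.at hi
    have h := this (k - 6) (by omega)
    rw [show k - 6 - (k - 6) = 0 by omega] at h
    exact h.mono (by omega)
  have p2 : Q2 f k b' m' (3 * k + 1) 2 := up2 S' fun i hi =>
    loc2_c1 hf (t' := 2) (t := 2) (by omega) (S'.shift i) (r0.at (by omega)) (r2.at (by omega))
      (tips12 fun i' => T2 _ _ ((S'.shift i).shift i') ((r0.at (by omega)).at (by omega))
        ((r4.at (by omega)).at (by omega)) ((r2.at (by omega)).at (by omega)))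
  have p0 : Q0 f k b' m' (3 * k + 1 + 1) 1 := up0 S' fun i hi =>
    s0a hf (S'.shift i) (p2.at (by omega)) (r0.at (by omega))
  have o2 : Q2 f k b' m' (3 * k + 2 + 1) 1 := up2 S' fun i hi =>
    loc2_c1 hf (t' := 1) (t := 1) (by omega) (S'.shift i) (p0.at (by omega)) (p2.at (by omega))
      (tips12 fun i' => T1 _ _ ((S'.shift i).shift i') ((p0.at (by omega)).at (by omega))
        ((r4.at (by omega)).at (by omega)) ((p2.at (by omega)).at (by omega)))
  have o0 : Q0 f k b' m' (3 * k + 3 + 1) 0 := up0 S' fun i hi =>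
    s0b hf (S'.shift i) (o2.at (by omega)) (p0.at (by omega))
  have e : nn k (m' + (k + 2) * (3 * k + 5)) j = nn k m' (3 * k + 5 + j) :=
    nn_shift k m' (3 * k + 5) j
  refine ⟨cyc_of_eq (o0 (3 * k + 5 + j) (by omega)) (by ring) (by rw [e]; omega),
    cyc_of_eq (o2 (3 * k + 5 + j) (by omega)) (by ring) ?_,
    cyc_of_eq (r4 (3 * k + 5 + j) (by omega)) (by ring) (by rw [e])⟩
  rw [e]
  have hh : nn k m' (3 * k + 5 + j) = m' + (k + 2) * (3 * k + 5 + j) + 9 + (k + 2) * 4 := rfl
  omega

end Pool.Agent.SNT.D1
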