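import Pool.Agent.SNT.DomPar

set_option autoImplicit false
set_option linter.unusedVariables false

namespace Pool.Agent.SNT.Dm

theorem dom_5_1_0_0 (k p u : ℕ) (hab : (6 * k + 5) ≤ (2 * p + 1)) (hu : (6 * k + 5) + (2 * p + 1) = 0 + u) (hu1 : 1 ≤ u) :
    Res (6 * k + 5) (2 * p + 1) 0 0 := by
  by_cases h1 : 0 + 3 ≤ 2 * k + 1
  · by_cases h2 : (2 * p + 1) ≤ (6 * k + 5) + 0
    · exact res_low ⟨(6 * k + 4), (2 * p), 0, 1, Or.inr (Or.inr ⟨by omega, by omega⟩), Or.inr (Or.inr (Or.inl ⟨rfl, rfl⟩)),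
        fc13 ⟨by omega, by omega, by omega, by omega, by omega⟩⟩
    · by_cases h3 : ((6 * k + 5) + (2 * p + 1) + 2 * 0 + 3 * 0) % 4 ≤ 0
      · exact res_low ⟨(6 * k + 4), (2 * p + 1), 0, 0, Or.inl ⟨by omega, rfl⟩, Or.inl ⟨rfl, rfl⟩,
          fc11 ⟨by omega, by omega, by omega, by omega, by omega, by omega⟩⟩
      · exact res_low ⟨(6 * k + 4), (2 * p + 1), 0, 1, Or.inl ⟨by omega, rfl⟩, Or.inr (Or.inr (Or.inl ⟨rfl, rfl⟩)),
          fc11 ⟨by omega, by omega, by omega, by omega, by omega, by omega⟩⟩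
  · by_cases h4 : (2 * p + 1) ≤ (6 * k + 5) + 0
    · exact res_low ⟨(6 * k + 4), (2 * p), 0, 1, Or.inr (Or.inr ⟨by omega, by omega⟩), Or.inr (Or.inr (Or.inl ⟨rfl, rfl⟩)),
        g7_4_8 k (u - 2) (by omega) (by omega) (by omega) (by omega) (by omega) (by omega) (by omega)⟩
    · by_cases h5 : ((6 * k + 5) + (2 * p + 1) + 2 * 0 + 3 * 0 + 2 * k) % 4 ≤ 0
      · exact res_low ⟨(6 * k + 4), (2 * p + 1), 0, 1, Or.inl ⟨by omega, rfl⟩, Or.inr (Or.inr (Or.inl ⟨rfl, rfl⟩)),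
          g10b k 4 (by omega) (by omega) (by omega) (by omega) (by omega) (by omega) (by omega) (by omega)⟩
      · exact res_low ⟨(6 * k + 4), (2 * p + 1), 0, 0, Or.inl ⟨by omega, rfl⟩, Or.inl ⟨rfl, rfl⟩,
          g10b k 4 (by omega) (by omega) (by omega) (by omega) (by omega) (by omega) (by omega) (by omega)⟩

theorem dom_5_1_0_1 (k p u : ℕ) (hab : (6 * k + 5) ≤ (2 * p + 1)) (hu : (6 * k + 5) + (2 * p + 1) = 0 + u) (hu1 : 1 ≤ u) :
    Res (6 * k + 5) (2 * p + 1) 0 1 := by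
  by_cases h1 : 0 + 3 ≤ 2 * k + 1
  · by_cases h2 : (2 * p + 1) ≤ (6 * k + 5) + 0
    · exact res_low ⟨(6 * k + 4), (2 * p), 0, 1, Or.inr (Or.inr ⟨by omega, by omega⟩), Or.inl ⟨rfl, rfl⟩,
        fc13 ⟨by omega, by omega, by omega, by omega, by omega⟩⟩
    · by_cases h3 : ((6 * k + 5) + (2 * p + 1) + 2 * 1 + 3 * 0) % 4 ≤ 0
      · exact res_low ⟨(6 * k + 4), (2 * p + 1), 0, 1, Or.inl ⟨by omega, rfl⟩, Or.inl ⟨rfl, rfl⟩,
          fc11 ⟨by omega, by omega, by omega, by omega, by omega, by omega⟩⟩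
      · exact res_low ⟨(6 * k + 4), (2 * p + 1), 0, 0, Or.inl ⟨by omega, rfl⟩, Or.inr (Or.inr (Or.inl ⟨rfl, rfl⟩)),
          fc11 ⟨by omega, by omega, by omega, by omega, by omega, by omega⟩⟩
  · by_cases h4 : (2 * p + 1) ≤ (6 * k + 5) + 0
    · exact res_low ⟨(6 * k + 4), (2 * p + 1), (0 + 1), 1, Or.inl ⟨by omega, rfl⟩, Or.inr (Or.inl ⟨rfl, rfl⟩),
        g7_4_8 k (u - 2) (by omega) (by omega) (by omega) (by omega) (by omega) (by omega) (by omega)⟩
    · by_cases h5 : ((6 * k + 5) + (2 * p + 1) + 2 * 1 + 3 * 0 + 2 * k) % 4 ≤ 0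
      · exact res_low ⟨(6 * k + 4), (2 * p + 1), 0, 0, Or.inl ⟨by omega, rfl⟩, Or.inr (Or.inr (Or.inl ⟨rfl, rfl⟩)),
          g10b k 4 (by omega) (by omega) (by omega) (by omega) (by omega) (by omega) (by omega) (by omega)⟩
      · exact res_low ⟨(6 * k + 4), (2 * p + 1), 0, 1, Or.inl ⟨by omega, rfl⟩, Or.inl ⟨rfl, rfl⟩,
          g10b k 4 (by omega) (by omega) (by omega) (by omega) (by omega) (by omega) (by omega) (by omega)⟩

theorem dom_5_1_1_0 (k p q u : ℕ) (hab : (6 * k + 5) ≤ (2 * p + 1)) (hu : (6 * k + 5) + (2 * p + 1) = (2 * q + 1) + u) (hu1 : 1 ≤ u) :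
    Res (6 * k + 5) (2 * p + 1) (2 * q + 1) 0 := by
  by_cases h1 : (2 * p + 1) + 2 * k + 6 ≤ (6 * k + 5) + (2 * q + 1) + 5
  · by_cases h2 : u ≤ 7
    · by_cases h3 : u ≤ 3
      · by_cases h4 : u ≤ 1
        · exact res_low ⟨(6 * k + 4), (2 * p), (2 * q + 1), 1, Or.inr (Or.inr ⟨by omega, by omega⟩), Or.inr (Or.inr (Or.inl ⟨rfl, rfl⟩)),
            fc1 ⟨by omega, by omega, by omega, by omega, by omega⟩⟩
        · exact res_low ⟨(6 * k + 4), (2 * p + 1), (2 * q + 1 + 1), 0, Or.inl ⟨by omega, rfl⟩, Or.inr (Or.inl ⟨rfl, rfl⟩),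
            fc5 ⟨by omega, by omega, by omega⟩⟩
      · by_cases h5 : u ≤ 5
        · exact res_low ⟨(6 * k + 4), (2 * p), (2 * q + 1), 1, Or.inr (Or.inr ⟨by omega, by omega⟩), Or.inr (Or.inr (Or.inl ⟨rfl, rfl⟩)),
            fc3 ⟨by omega, by omega, by omega, by omega⟩⟩
        · exact res_low ⟨(6 * k + 4), (2 * p), (2 * q + 1), 1, Or.inr (Or.inr ⟨by omega, by omega⟩), Or.inr (Or.inr (Or.inl ⟨rfl, rfl⟩)),
            fc4 ⟨by omega, by omega, by omega, by omega, by omega⟩⟩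
    · by_cases h6 : u % 10 ≤ 3
      · by_cases h7 : u % 10 ≤ 1
        · exact res_one (g7_5_1 k u (by omega) (by omega) (by omega) (by omega) (by omega) (by omega) (by omega))
        · exact res_low ⟨(6 * k + 4), (2 * p + 1), (2 * q + 1 + 1), 0, Or.inl ⟨by omega, rfl⟩, Or.inr (Or.inl ⟨rfl, rfl⟩),
            g7_4_1 k (u - 2) (by omega) (by omega) (by omega) (by omega) (by omega) (by omega) (by omega)⟩
      · by_cases h8 : u % 10 ≤ 5
        · exact res_low ⟨(6 * k + 4), (2 * p + 1), (2 * q + 1), 1, Or.inl ⟨by omega, rfl⟩, Or.inr (Or.inr (Or.inl ⟨rfl, rfl⟩)),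
            g7_4_4 k (u - 1) (by omega) (by omega) (by omega) (by omega) (by omega) (by omega) (by omega)⟩
        · by_cases h9 : u % 10 ≤ 7
          · exact res_wk (w1_5 k u (by omega) (by omega) (by omega) (by omega) (by omega) (by omega) (by omega))
          · exact res_low ⟨(6 * k + 4), (2 * p + 1), (2 * q + 1), 1, Or.inl ⟨by omega, rfl⟩, Or.inr (Or.inr (Or.inl ⟨rfl, rfl⟩)),
              g7_4_8 k (u - 1) (by omega) (by omega) (by omega) (by omega) (by omega) (by omega) (by omega)⟩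
  · by_cases h10 : (2 * q + 1) + 3 ≤ 2 * k + 2
    · by_cases h11 : (2 * p + 1) ≤ (6 * k + 5) + 0
      · exact res_low ⟨(6 * k + 4), (2 * p), (2 * q), 1, Or.inr (Or.inr ⟨by omega, by omega⟩), Or.inr (Or.inr (Or.inr ⟨by omega, rfl⟩)),
          fc13 ⟨by omega, by omega, by omega, by omega, by omega⟩⟩
      · by_cases h12 : ((6 * k + 5) + (2 * p + 1) + 2 * 0) % 4 ≤ 0
        · exact res_low ⟨(6 * k + 4), (2 * p), (2 * q + 1), 1, Or.inr (Or.inr ⟨by omega, by omega⟩), Or.inr (Or.inr (Or.inl ⟨rfl, rfl⟩)),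
            fc8 ⟨by omega, by omega, by omega, by omega, by omega, by omega⟩⟩
        · exact res_low ⟨(6 * k + 4), (2 * p), (2 * q + 1), 0, Or.inr (Or.inr ⟨by omega, by omega⟩), Or.inl ⟨rfl, rfl⟩,
            fc8 ⟨by omega, by omega, by omega, by omega, by omega, by omega⟩⟩
    · by_cases h13 : ((6 * k + 5) + (2 * p + 1) + 2 * 0 + 3 * (2 * q + 1) + 2 * k) % 4 ≤ 1
      · exact res_low ⟨(6 * k + 4), (2 * p), (2 * q + 1), 1, Or.inr (Or.inr ⟨by omega, by omega⟩), Or.inr (Or.inr (Or.inl ⟨rfl, rfl⟩)),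
          g9b k 4 (by omega) (by omega) (by omega) (by omega) (by omega) (by omega) (by omega) (by omega) (by omega)⟩
      · exact res_low ⟨(6 * k + 4), (2 * p + 1), (2 * q), 1, Or.inl ⟨by omega, rfl⟩, Or.inr (Or.inr (Or.inr ⟨by omega, rfl⟩)),
          g10b k 4 (by omega) (by omega) (by omega) (by omega) (by omega) (by omega) (by omega) (by omega)⟩

theorem dom_5_1_1_1 (k p q u : ℕ) (hab : (6 * k + 5) ≤ (2 * p + 1)) (hu : (6 * k + 5) + (2 * p + 1) = (2 * q + 1) + u) (hu1 : 1 ≤ u) :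
    Res (6 * k + 5) (2 * p + 1) (2 * q + 1) 1 := by
  by_cases h1 : (2 * p + 1) + 2 * k + 6 ≤ (6 * k + 5) + (2 * q + 1) + 7
  · by_cases h2 : u ≤ 7
    · by_cases h3 : u ≤ 3
      · by_cases h4 : u ≤ 1
        · exact res_low ⟨(6 * k + 4), (2 * p + 1), (2 * q), 0, Or.inl ⟨by omega, rfl⟩, Or.inr (Or.inr (Or.inr ⟨by omega, rfl⟩)),
            fc5 ⟨by omega, by omega, by omega⟩⟩
        · exact res_low ⟨(6 * k + 4), (2 * p), (2 * q + 1), 0, Or.inr (Or.inr ⟨by omega, by omega⟩), Or.inr (Or.inr (Or.inl ⟨rfl, rfl⟩)),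
            fc2 ⟨by omega, by omega, by omega, by omega⟩⟩
      · by_cases h5 : u ≤ 5
        · exact res_low ⟨(6 * k + 4), (2 * p), (2 * q + 1), 1, Or.inr (Or.inr ⟨by omega, by omega⟩), Or.inl ⟨rfl, rfl⟩,
            fc3 ⟨by omega, by omega, by omega, by omega⟩⟩
        · exact res_low ⟨(6 * k + 4), (2 * p), (2 * q + 1), 1, Or.inr (Or.inr ⟨by omega, by omega⟩), Or.inl ⟨rfl, rfl⟩,
            fc4 ⟨by omega, by omega, by omega, by omega, by omega⟩⟩
    · by_cases h6 : u % 10 ≤ 3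
      · by_cases h7 : u % 10 ≤ 1
        · exact res_low ⟨(6 * k + 4), (2 * p), (2 * q + 1 + 1), 1, Or.inr (Or.inr ⟨by omega, by omega⟩), Or.inr (Or.inl ⟨rfl, rfl⟩),
            g7_4_8 k (u - 3) (by omega) (by omega) (by omega) (by omega) (by omega) (by omega) (by omega)⟩
        · exact res_low ⟨(6 * k + 4), (2 * p), (2 * q + 1), 0, Or.inr (Or.inr ⟨by omega, by omega⟩), Or.inr (Or.inr (Or.inl ⟨rfl, rfl⟩)),
            g7_4_1 k (u - 2) (by omega) (by omega) (by omega) (by omega) (by omega) (by omega) (by omega)⟩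
      · by_cases h8 : u % 10 ≤ 5
        · exact res_low ⟨(6 * k + 4), (2 * p + 1), (2 * q + 1), 1, Or.inl ⟨by omega, rfl⟩, Or.inl ⟨rfl, rfl⟩,
            g7_4_4 k (u - 1) (by omega) (by omega) (by omega) (by omega) (by omega) (by omega) (by omega)⟩
        · by_cases h9 : u % 10 ≤ 7
          · exact res_low ⟨(6 * k + 4), (2 * p), (2 * q + 1 + 1), 1, Or.inr (Or.inr ⟨by omega, by omega⟩), Or.inr (Or.inl ⟨rfl, rfl⟩),
              g7_4_4 k (u - 3) (by omega) (by omega) (by omega) (by omega) (by omega) (by omega) (by omega)⟩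
          · exact res_low ⟨(6 * k + 4), (2 * p + 1), (2 * q + 1), 1, Or.inl ⟨by omega, rfl⟩, Or.inl ⟨rfl, rfl⟩,
              g7_4_8 k (u - 1) (by omega) (by omega) (by omega) (by omega) (by omega) (by omega) (by omega)⟩
  · by_cases h10 : (2 * q + 1) + 3 ≤ 2 * k + 0
    · by_cases h11 : (2 * p + 1) ≤ (6 * k + 5) + 0
      · exact res_low ⟨(6 * k + 4), (2 * p), (2 * q + 1 + 1), 1, Or.inr (Or.inr ⟨by omega, by omega⟩), Or.inr (Or.inl ⟨rfl, rfl⟩),
          fc13 ⟨by omega, by omega, by omega, by omega, by omega⟩⟩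
      · by_cases h12 : ((6 * k + 5) + (2 * p + 1) + 2 * 1) % 4 ≤ 0
        · exact res_low ⟨(6 * k + 4), (2 * p), (2 * q + 1), 0, Or.inr (Or.inr ⟨by omega, by omega⟩), Or.inr (Or.inr (Or.inl ⟨rfl, rfl⟩)),
            fc8 ⟨by omega, by omega, by omega, by omega, by omega, by omega⟩⟩
        · exact res_low ⟨(6 * k + 4), (2 * p), (2 * q + 1), 1, Or.inr (Or.inr ⟨by omega, by omega⟩), Or.inl ⟨rfl, rfl⟩,
            fc8 ⟨by omega, by omega, by omega, by omega, by omega, by omega⟩⟩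
    · by_cases h13 : ((6 * k + 5) + (2 * p + 1) + 2 * 1 + 3 * (2 * q + 1) + 2 * k) % 4 ≤ 1
      · exact res_low ⟨(6 * k + 4), (2 * p), (2 * q + 1), 0, Or.inr (Or.inr ⟨by omega, by omega⟩), Or.inr (Or.inr (Or.inl ⟨rfl, rfl⟩)),
          g9b k 4 (by omega) (by omega) (by omega) (by omega) (by omega) (by omega) (by omega) (by omega) (by omega)⟩
      · exact res_low ⟨(6 * k + 4), (2 * p + 1), (2 * q + 1 + 1), 1, Or.inl ⟨by omega, rfl⟩, Or.inr (Or.inl ⟨rfl, rfl⟩),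
          g10b k 4 (by omega) (by omega) (by omega) (by omega) (by omega) (by omega) (by omega) (by omega)⟩

theorem dom_5_1_2_0 (k p q u : ℕ) (hab : (6 * k + 5) ≤ (2 * p + 1)) (hu : (6 * k + 5) + (2 * p + 1) = (2 * q + 2) + u) (hu1 : 1 ≤ u) :
    Res (6 * k + 5) (2 * p + 1) (2 * q + 2) 0 := by
  by_cases h1 : (2 * p + 1) + 2 * k + 6 ≤ (6 * k + 5) + (2 * q + 2) + 6
  · by_cases h2 : u ≤ 6
    · by_cases h3 : u ≤ 2
      · exact res_low ⟨(6 * k + 4), (2 * p + 1), (2 * q + 2), 0, Or.inl ⟨by omega, rfl⟩, Or.inl ⟨rfl, rfl⟩,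
          fc5 ⟨by omega, by omega, by omega⟩⟩
      · by_cases h4 : u ≤ 4
        · exact res_low ⟨(6 * k + 4), (2 * p), (2 * q + 2 + 1), 0, Or.inr (Or.inr ⟨by omega, by omega⟩), Or.inr (Or.inl ⟨rfl, rfl⟩),
            fc2 ⟨by omega, by omega, by omega, by omega⟩⟩
        · exact res_low ⟨(6 * k + 4), (2 * p), (2 * q + 1), 1, Or.inr (Or.inr ⟨by omega, by omega⟩), Or.inr (Or.inr (Or.inr ⟨by omega, rfl⟩)),
            fc4 ⟨by omega, by omega, by omega, by omega, by omega⟩⟩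
    · by_cases h5 : u % 10 ≤ 2
      · by_cases h6 : u % 10 ≤ 0
        · exact res_low ⟨(6 * k + 4), (2 * p), (2 * q + 2), 1, Or.inr (Or.inr ⟨by omega, by omega⟩), Or.inr (Or.inr (Or.inl ⟨rfl, rfl⟩)),
            g7_4_8 k (u - 2) (by omega) (by omega) (by omega) (by omega) (by omega) (by omega) (by omega)⟩
        · exact res_low ⟨(6 * k + 4), (2 * p + 1), (2 * q + 2), 0, Or.inl ⟨by omega, rfl⟩, Or.inl ⟨rfl, rfl⟩,
            g7_4_1 k (u - 1) (by omega) (by omega) (by omega) (by omega) (by omega) (by omega) (by omega)⟩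
      · by_cases h7 : u % 10 ≤ 4
        · exact res_low ⟨(6 * k + 4), (2 * p + 1), (2 * q + 1), 1, Or.inl ⟨by omega, rfl⟩, Or.inr (Or.inr (Or.inr ⟨by omega, rfl⟩)),
            g7_4_4 k u (by omega) (by omega) (by omega) (by omega) (by omega) (by omega) (by omega)⟩
        · by_cases h8 : u % 10 ≤ 6
          · exact res_low ⟨(6 * k + 4), (2 * p), (2 * q + 2), 1, Or.inr (Or.inr ⟨by omega, by omega⟩), Or.inr (Or.inr (Or.inl ⟨rfl, rfl⟩)),
              g7_4_4 k (u - 2) (by omega) (by omega) (by omega) (by omega) (by omega) (by omega) (by omega)⟩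
          · exact res_low ⟨(6 * k + 4), (2 * p + 1), (2 * q + 1), 1, Or.inl ⟨by omega, rfl⟩, Or.inr (Or.inr (Or.inr ⟨by omega, rfl⟩)),
              g7_4_8 k u (by omega) (by omega) (by omega) (by omega) (by omega) (by omega) (by omega)⟩
  · by_cases h9 : (2 * q + 2) + 3 ≤ 2 * k + 1
    · by_cases h10 : (2 * p + 1) ≤ (6 * k + 5) + 0
      · exact res_low ⟨(6 * k + 4), (2 * p), (2 * q + 2), 1, Or.inr (Or.inr ⟨by omega, by omega⟩), Or.inr (Or.inr (Or.inl ⟨rfl, rfl⟩)),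
          fc13 ⟨by omega, by omega, by omega, by omega, by omega⟩⟩
      · by_cases h11 : ((6 * k + 5) + (2 * p + 1) + 2 * 0) % 4 ≤ 0
        · exact res_low ⟨(6 * k + 4), (2 * p), (2 * q + 1), 1, Or.inr (Or.inr ⟨by omega, by omega⟩), Or.inr (Or.inr (Or.inr ⟨by omega, rfl⟩)),
            fc8 ⟨by omega, by omega, by omega, by omega, by omega, by omega⟩⟩
        · exact res_low ⟨(6 * k + 4), (2 * p), (2 * q + 2 + 1), 0, Or.inr (Or.inr ⟨by omega, by omega⟩), Or.inr (Or.inl ⟨rfl, rfl⟩),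
            fc8 ⟨by omega, by omega, by omega, by omega, by omega, by omega⟩⟩
    · by_cases h12 : ((6 * k + 5) + (2 * p + 1) + 2 * 0 + 3 * (2 * q + 2) + 2 * k) % 4 ≤ 0
      · exact res_low ⟨(6 * k + 4), (2 * p + 1), (2 * q + 2), 1, Or.inl ⟨by omega, rfl⟩, Or.inr (Or.inr (Or.inl ⟨rfl, rfl⟩)),
          g10b k 4 (by omega) (by omega) (by omega) (by omega) (by omega) (by omega) (by omega) (by omega)⟩
      · exact res_low ⟨(6 * k + 4), (2 * p + 1), (2 * q + 2), 0, Or.inl ⟨by omega, rfl⟩, Or.inl ⟨rfl, rfl⟩,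
          g10b k 4 (by omega) (by omega) (by omega) (by omega) (by omega) (by omega) (by omega) (by omega)⟩

theorem dom_5_1_2_1 (k p q u : ℕ) (hab : (6 * k + 5) ≤ (2 * p + 1)) (hu : (6 * k + 5) + (2 * p + 1) = (2 * q + 2) + u) (hu1 : 1 ≤ u) :
    Res (6 * k + 5) (2 * p + 1) (2 * q + 2) 1 := by
  by_cases h1 : (2 * p + 1) + 2 * k + 6 ≤ (6 * k + 5) + (2 * q + 2) + 6
  · by_cases h2 : u ≤ 8
    · by_cases h3 : u ≤ 4
      · by_cases h4 : u ≤ 2
        · exact res_low ⟨(6 * k + 4), (2 * p + 1), (2 * q + 2), 0, Or.inl ⟨by omega, rfl⟩, Or.inr (Or.inr (Or.inl ⟨rfl, rfl⟩)),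
            fc5 ⟨by omega, by omega, by omega⟩⟩
        · exact res_one (fc6 ⟨by omega, by omega, by omega, by omega, by omega⟩)
      · by_cases h5 : u ≤ 6
        · exact res_low ⟨(6 * k + 4), (2 * p), (2 * q + 2 + 1), 1, Or.inr (Or.inr ⟨by omega, by omega⟩), Or.inr (Or.inl ⟨rfl, rfl⟩),
            fc3 ⟨by omega, by omega, by omega, by omega⟩⟩
        · exact res_low ⟨(6 * k + 4), (2 * p), (2 * q + 2 + 1), 1, Or.inr (Or.inr ⟨by omega, by omega⟩), Or.inr (Or.inl ⟨rfl, rfl⟩),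
            fc4 ⟨by omega, by omega, by omega, by omega, by omega⟩⟩
    · by_cases h6 : u % 10 ≤ 2
      · by_cases h7 : u % 10 ≤ 0
        · exact res_low ⟨(6 * k + 4), (2 * p + 1), (2 * q + 2 + 1), 1, Or.inl ⟨by omega, rfl⟩, Or.inr (Or.inl ⟨rfl, rfl⟩),
            g7_4_8 k (u - 2) (by omega) (by omega) (by omega) (by omega) (by omega) (by omega) (by omega)⟩
        · exact res_low ⟨(6 * k + 4), (2 * p + 1), (2 * q + 2), 0, Or.inl ⟨by omega, rfl⟩, Or.inr (Or.inr (Or.inl ⟨rfl, rfl⟩)),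
            g7_4_1 k (u - 1) (by omega) (by omega) (by omega) (by omega) (by omega) (by omega) (by omega)⟩
      · by_cases h8 : u % 10 ≤ 4
        · exact res_one (g7_5_4 k u (by omega) (by omega) (by omega) (by omega) (by omega) (by omega) (by omega))
        · by_cases h9 : u % 10 ≤ 6
          · exact res_low ⟨(6 * k + 4), (2 * p + 1), (2 * q + 2 + 1), 1, Or.inl ⟨by omega, rfl⟩, Or.inr (Or.inl ⟨rfl, rfl⟩),
              g7_4_4 k (u - 2) (by omega) (by omega) (by omega) (by omega) (by omega) (by omega) (by omega)⟩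
          · exact res_one (g7_5_8 k u (by omega) (by omega) (by omega) (by omega) (by omega) (by omega) (by omega))
  · by_cases h10 : (2 * q + 2) + 3 ≤ 2 * k + 1
    · by_cases h11 : (2 * p + 1) ≤ (6 * k + 5) + 0
      · exact res_low ⟨(6 * k + 4), (2 * p), (2 * q + 2), 1, Or.inr (Or.inr ⟨by omega, by omega⟩), Or.inl ⟨rfl, rfl⟩,
          fc13 ⟨by omega, by omega, by omega, by omega, by omega⟩⟩
      · by_cases h12 : ((6 * k + 5) + (2 * p + 1) + 2 * 1) % 4 ≤ 0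
        · exact res_low ⟨(6 * k + 4), (2 * p), (2 * q + 1), 0, Or.inr (Or.inr ⟨by omega, by omega⟩), Or.inr (Or.inr (Or.inr ⟨by omega, rfl⟩)),
            fc8 ⟨by omega, by omega, by omega, by omega, by omega, by omega⟩⟩
        · exact res_low ⟨(6 * k + 4), (2 * p), (2 * q + 2 + 1), 1, Or.inr (Or.inr ⟨by omega, by omega⟩), Or.inr (Or.inl ⟨rfl, rfl⟩),
            fc8 ⟨by omega, by omega, by omega, by omega, by omega, by omega⟩⟩
    · by_cases h13 : ((6 * k + 5) + (2 * p + 1) + 2 * 1 + 3 * (2 * q + 2) + 2 * k) % 4 ≤ 0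
      · exact res_low ⟨(6 * k + 4), (2 * p + 1), (2 * q + 2), 0, Or.inl ⟨by omega, rfl⟩, Or.inr (Or.inr (Or.inl ⟨rfl, rfl⟩)),
          g10b k 4 (by omega) (by omega) (by omega) (by omega) (by omega) (by omega) (by omega) (by omega)⟩
      · exact res_low ⟨(6 * k + 4), (2 * p + 1), (2 * q + 2), 1, Or.inl ⟨by omega, rfl⟩, Or.inl ⟨rfl, rfl⟩,
          g10b k 4 (by omega) (by omega) (by omega) (by omega) (by omega) (by omega) (by omega) (by omega)⟩

theorem dom_5_2_0_0 (k p u : ℕ) (hab : (6 * k + 5) ≤ (2 * p + 2)) (hu : (6 * k + 5) + (2 * p + 2) = 0 + u) (hu1 : 1 ≤ u) :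
    Res (6 * k + 5) (2 * p + 2) 0 0 := by
  by_cases h1 : ((6 * k + 5) + (2 * p + 2) + 2 * 0 + 3 * 0) % 4 ≤ 1
  · by_cases h2 : 0 + 3 ≤ 2 * k + 1
    · exact res_low ⟨(6 * k + 4), (2 * p + 2), (0 + 1), 0, Or.inl ⟨by omega, rfl⟩, Or.inr (Or.inl ⟨rfl, rfl⟩),
        fc8 ⟨by omega, by omega, by omega, by omega, by omega, by omega⟩⟩
    · exact res_low ⟨(6 * k + 4), (2 * p + 1), 0, 1, Or.inr (Or.inr ⟨by omega, by omega⟩), Or.inr (Or.inr (Or.inl ⟨rfl, rfl⟩)),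
        g10b k 4 (by omega) (by omega) (by omega) (by omega) (by omega) (by omega) (by omega) (by omega)⟩
  · by_cases h3 : (2 * p + 2) ≤ (6 * k + 5) + 1
    · exact res_one (fc15 ⟨by omega, by omega, by omega, by omega⟩)
    · by_cases h4 : 0 + 3 ≤ 2 * k + 1
      · exact res_low ⟨(6 * k + 4), (2 * p + 1), 0, 1, Or.inr (Or.inr ⟨by omega, by omega⟩), Or.inr (Or.inr (Or.inl ⟨rfl, rfl⟩)),
          fc11 ⟨by omega, by omega, by omega, by omega, by omega, by omega⟩⟩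
      · exact res_low ⟨(6 * k + 4), (2 * p + 2), (0 + 1), 0, Or.inl ⟨by omega, rfl⟩, Or.inr (Or.inl ⟨rfl, rfl⟩),
          g9b k 4 (by omega) (by omega) (by omega) (by omega) (by omega) (by omega) (by omega) (by omega) (by omega)⟩

theorem dom_5_2_0_1 (k p u : ℕ) (hab : (6 * k + 5) ≤ (2 * p + 2)) (hu : (6 * k + 5) + (2 * p + 2) = 0 + u) (hu1 : 1 ≤ u) :
    Res (6 * k + 5) (2 * p + 2) 0 1 := by
  by_cases h1 : 0 + 3 ≤ 2 * k + 1
  · by_cases h2 : ((6 * k + 5) + (2 * p + 2) + 2 * 1 + 3 * 0) % 4 ≤ 1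
    · exact res_low ⟨(6 * k + 4), (2 * p + 2), (0 + 1), 1, Or.inl ⟨by omega, rfl⟩, Or.inr (Or.inl ⟨rfl, rfl⟩),
        fc8 ⟨by omega, by omega, by omega, by omega, by omega, by omega⟩⟩
    · exact res_low ⟨(6 * k + 4), (2 * p + 1), 0, 0, Or.inr (Or.inr ⟨by omega, by omega⟩), Or.inr (Or.inr (Or.inl ⟨rfl, rfl⟩)),
        fc11 ⟨by omega, by omega, by omega, by omega, by omega, by omega⟩⟩
  · by_cases h3 : (2 * p + 2) ≤ (6 * k + 5) + 1
    · exact res_low ⟨(6 * k + 4), (2 * p + 1), (0 + 1), 1, Or.inr (Or.inr ⟨by omega, by omega⟩), Or.inr (Or.inl ⟨rfl, rfl⟩),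
        g7_4_8 k (u - 3) (by omega) (by omega) (by omega) (by omega) (by omega) (by omega) (by omega)⟩
    · by_cases h4 : ((6 * k + 5) + (2 * p + 2) + 2 * 1 + 3 * 0 + 2 * k) % 4 ≤ 1
      · exact res_low ⟨(6 * k + 4), (2 * p + 1), 0, 0, Or.inr (Or.inr ⟨by omega, by omega⟩), Or.inr (Or.inr (Or.inl ⟨rfl, rfl⟩)),
          g10b k 4 (by omega) (by omega) (by omega) (by omega) (by omega) (by omega) (by omega) (by omega)⟩
      · exact res_low ⟨(6 * k + 4), (2 * p + 2), (0 + 1), 1, Or.inl ⟨by omega, rfl⟩, Or.inr (Or.inl ⟨rfl, rfl⟩),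
          g9b k 4 (by omega) (by omega) (by omega) (by omega) (by omega) (by omega) (by omega) (by omega) (by omega)⟩

theorem dom_5_2_1_0 (k p q u : ℕ) (hab : (6 * k + 5) ≤ (2 * p + 2)) (hu : (6 * k + 5) + (2 * p + 2) = (2 * q + 1) + u) (hu1 : 1 ≤ u) :
    Res (6 * k + 5) (2 * p + 2) (2 * q + 1) 0 := by
  by_cases h1 : (2 * p + 2) + 2 * k + 6 ≤ (6 * k + 5) + (2 * q + 1) + 6
  · by_cases h2 : u ≤ 6
    · by_cases h3 : u ≤ 2
      · exact res_low ⟨(6 * k + 4), (2 * p + 2), (2 * q + 1), 0, Or.inl ⟨by omega, rfl⟩, Or.inl ⟨rfl, rfl⟩,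
          fc2 ⟨by omega, by omega, by omega, by omega⟩⟩
      · by_cases h4 : u ≤ 4
        · exact res_low ⟨(6 * k + 4), (2 * p + 2), (2 * q + 1), 1, Or.inl ⟨by omega, rfl⟩, Or.inr (Or.inr (Or.inl ⟨rfl, rfl⟩)),
            fc3 ⟨by omega, by omega, by omega, by omega⟩⟩
        · exact res_low ⟨(6 * k + 4), (2 * p + 2), (2 * q + 1), 1, Or.inl ⟨by omega, rfl⟩, Or.inr (Or.inr (Or.inl ⟨rfl, rfl⟩)),
            fc4 ⟨by omega, by omega, by omega, by omega, by omega⟩⟩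
    · by_cases h5 : u % 10 ≤ 2
      · by_cases h6 : u % 10 ≤ 0
        · exact res_low ⟨(6 * k + 4), (2 * p + 1), (2 * q + 1), 1, Or.inr (Or.inr ⟨by omega, by omega⟩), Or.inr (Or.inr (Or.inl ⟨rfl, rfl⟩)),
            g7_4_8 k (u - 2) (by omega) (by omega) (by omega) (by omega) (by omega) (by omega) (by omega)⟩
        · exact res_low ⟨(6 * k + 4), (2 * p + 2), (2 * q + 1), 0, Or.inl ⟨by omega, rfl⟩, Or.inl ⟨rfl, rfl⟩,
            g7_4_1 k (u - 1) (by omega) (by omega) (by omega) (by omega) (by omega) (by omega) (by omega)⟩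
      · by_cases h7 : u % 10 ≤ 4
        · exact res_low ⟨(6 * k + 4), (2 * p + 2), (2 * q), 1, Or.inl ⟨by omega, rfl⟩, Or.inr (Or.inr (Or.inr ⟨by omega, rfl⟩)),
            g7_4_4 k u (by omega) (by omega) (by omega) (by omega) (by omega) (by omega) (by omega)⟩
        · by_cases h8 : u % 10 ≤ 6
          · exact res_low ⟨(6 * k + 4), (2 * p + 1), (2 * q + 1), 1, Or.inr (Or.inr ⟨by omega, by omega⟩), Or.inr (Or.inr (Or.inl ⟨rfl, rfl⟩)),
              g7_4_4 k (u - 2) (by omega) (by omega) (by omega) (by omega) (by omega) (by omega) (by omega)⟩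
          · exact res_low ⟨(6 * k + 4), (2 * p + 2), (2 * q), 1, Or.inl ⟨by omega, rfl⟩, Or.inr (Or.inr (Or.inr ⟨by omega, rfl⟩)),
              g7_4_8 k u (by omega) (by omega) (by omega) (by omega) (by omega) (by omega) (by omega)⟩
  · by_cases h9 : (2 * q + 1) + 3 ≤ 2 * k + 0
    · by_cases h10 : ((6 * k + 5) + (2 * p + 2) + 2 * 0) % 4 ≤ 1
      · exact res_low ⟨(6 * k + 4), (2 * p + 2), (2 * q + 1), 0, Or.inl ⟨by omega, rfl⟩, Or.inl ⟨rfl, rfl⟩,
          fc8 ⟨by omega, by omega, by omega, by omega, by omega, by omega⟩⟩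
      · exact res_low ⟨(6 * k + 4), (2 * p + 2), (2 * q + 1), 1, Or.inl ⟨by omega, rfl⟩, Or.inr (Or.inr (Or.inl ⟨rfl, rfl⟩)),
          fc8 ⟨by omega, by omega, by omega, by omega, by omega, by omega⟩⟩
    · by_cases h11 : ((6 * k + 5) + (2 * p + 2) + 2 * 0 + 3 * (2 * q + 1) + 2 * k) % 4 ≤ 0
      · exact res_low ⟨(6 * k + 4), (2 * p + 2), (2 * q + 1), 1, Or.inl ⟨by omega, rfl⟩, Or.inr (Or.inr (Or.inl ⟨rfl, rfl⟩)),
          g9b k 4 (by omega) (by omega) (by omega) (by omega) (by omega) (by omega) (by omega) (by omega) (by omega)⟩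
      · exact res_low ⟨(6 * k + 4), (2 * p + 2), (2 * q + 1), 0, Or.inl ⟨by omega, rfl⟩, Or.inl ⟨rfl, rfl⟩,
          g9b k 4 (by omega) (by omega) (by omega) (by omega) (by omega) (by omega) (by omega) (by omega) (by omega)⟩

theorem dom_5_2_1_1 (k p q u : ℕ) (hab : (6 * k + 5) ≤ (2 * p + 2)) (hu : (6 * k + 5) + (2 * p + 2) = (2 * q + 1) + u) (hu1 : 1 ≤ u) :
    Res (6 * k + 5) (2 * p + 2) (2 * q + 1) 1 := by
  by_cases h1 : (2 * p + 2) + 2 * k + 6 ≤ (6 * k + 5) + (2 * q + 1) + 6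
  · by_cases h2 : u ≤ 6
    · by_cases h3 : u ≤ 2
      · exact res_low ⟨(6 * k + 4), (2 * p + 2), (2 * q + 1), 0, Or.inl ⟨by omega, rfl⟩, Or.inr (Or.inr (Or.inl ⟨rfl, rfl⟩)),
          fc2 ⟨by omega, by omega, by omega, by omega⟩⟩
      · by_cases h4 : u ≤ 4
        · exact res_low ⟨(6 * k + 4), (2 * p + 2), (2 * q + 1), 1, Or.inl ⟨by omega, rfl⟩, Or.inl ⟨rfl, rfl⟩,
            fc3 ⟨by omega, by omega, by omega, by omega⟩⟩
        · exact res_low ⟨(6 * k + 4), (2 * p + 2), (2 * q + 1), 1, Or.inl ⟨by omega, rfl⟩, Or.inl ⟨rfl, rfl⟩,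
            fc4 ⟨by omega, by omega, by omega, by omega, by omega⟩⟩
    · by_cases h5 : u % 10 ≤ 2
      · by_cases h6 : u % 10 ≤ 0
        · exact res_low ⟨(6 * k + 4), (2 * p + 2), (2 * q + 1 + 1), 1, Or.inl ⟨by omega, rfl⟩, Or.inr (Or.inl ⟨rfl, rfl⟩),
            g7_4_8 k (u - 2) (by omega) (by omega) (by omega) (by omega) (by omega) (by omega) (by omega)⟩
        · exact res_low ⟨(6 * k + 4), (2 * p + 2), (2 * q + 1), 0, Or.inl ⟨by omega, rfl⟩, Or.inr (Or.inr (Or.inl ⟨rfl, rfl⟩)),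
            g7_4_1 k (u - 1) (by omega) (by omega) (by omega) (by omega) (by omega) (by omega) (by omega)⟩
      · by_cases h7 : u % 10 ≤ 4
        · exact res_one (g7_5_4 k u (by omega) (by omega) (by omega) (by omega) (by omega) (by omega) (by omega))
        · by_cases h8 : u % 10 ≤ 6
          · exact res_low ⟨(6 * k + 4), (2 * p + 2), (2 * q + 1 + 1), 1, Or.inl ⟨by omega, rfl⟩, Or.inr (Or.inl ⟨rfl, rfl⟩),
              g7_4_4 k (u - 2) (by omega) (by omega) (by omega) (by omega) (by omega) (by omega) (by omega)⟩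
          · exact res_one (g7_5_8 k u (by omega) (by omega) (by omega) (by omega) (by omega) (by omega) (by omega))
  · by_cases h9 : (2 * q + 1) + 3 ≤ 2 * k + 0
    · by_cases h10 : ((6 * k + 5) + (2 * p + 2) + 2 * 1) % 4 ≤ 1
      · exact res_low ⟨(6 * k + 4), (2 * p + 2), (2 * q + 1), 1, Or.inl ⟨by omega, rfl⟩, Or.inl ⟨rfl, rfl⟩,
          fc8 ⟨by omega, by omega, by omega, by omega, by omega, by omega⟩⟩
      · exact res_low ⟨(6 * k + 4), (2 * p + 2), (2 * q + 1), 0, Or.inl ⟨by omega, rfl⟩, Or.inr (Or.inr (Or.inl ⟨rfl, rfl⟩)),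
          fc8 ⟨by omega, by omega, by omega, by omega, by omega, by omega⟩⟩
    · by_cases h11 : ((6 * k + 5) + (2 * p + 2) + 2 * 1 + 3 * (2 * q + 1) + 2 * k) % 4 ≤ 0
      · exact res_low ⟨(6 * k + 4), (2 * p + 2), (2 * q + 1), 0, Or.inl ⟨by omega, rfl⟩, Or.inr (Or.inr (Or.inl ⟨rfl, rfl⟩)),
          g9b k 4 (by omega) (by omega) (by omega) (by omega) (by omega) (by omega) (by omega) (by omega) (by omega)⟩
      · exact res_low ⟨(6 * k + 4), (2 * p + 2), (2 * q + 1), 1, Or.inl ⟨by omega, rfl⟩, Or.inl ⟨rfl, rfl⟩,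
          g9b k 4 (by omega) (by omega) (by omega) (by omega) (by omega) (by omega) (by omega) (by omega) (by omega)⟩

theorem dom_5_2_2_0 (k p q u : ℕ) (hab : (6 * k + 5) ≤ (2 * p + 2)) (hu : (6 * k + 5) + (2 * p + 2) = (2 * q + 2) + u) (hu1 : 1 ≤ u) :
    Res (6 * k + 5) (2 * p + 2) (2 * q + 2) 0 := by
  by_cases h1 : (2 * p + 2) + 2 * k + 6 ≤ (6 * k + 5) + (2 * q + 2) + 5
  · by_cases h2 : u % 10 ≤ 3
    · by_cases h3 : u ≤ 3
      · by_cases h4 : u ≤ 1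
        · exact res_one (fc5 ⟨by omega, by omega, by omega⟩)
        · exact res_low ⟨(6 * k + 4), (2 * p + 2), (2 * q + 2 + 1), 0, Or.inl ⟨by omega, rfl⟩, Or.inr (Or.inl ⟨rfl, rfl⟩),
            fc2 ⟨by omega, by omega, by omega, by omega⟩⟩
      · by_cases h5 : u % 10 ≤ 1
        · exact res_one (g7_5_1 k u (by omega) (by omega) (by omega) (by omega) (by omega) (by omega) (by omega))
        · exact res_low ⟨(6 * k + 4), (2 * p + 2), (2 * q + 2 + 1), 0, Or.inl ⟨by omega, rfl⟩, Or.inr (Or.inl ⟨rfl, rfl⟩),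
            g7_4_1 k (u - 2) (by omega) (by omega) (by omega) (by omega) (by omega) (by omega) (by omega)⟩
    · by_cases h6 : u % 10 ≤ 5
      · by_cases h7 : u ≤ 5
        · exact res_low ⟨(6 * k + 4), (2 * p + 2), (2 * q + 1), 1, Or.inl ⟨by omega, rfl⟩, Or.inr (Or.inr (Or.inr ⟨by omega, rfl⟩)),
            fc4 ⟨by omega, by omega, by omega, by omega, by omega⟩⟩
        · exact res_low ⟨(6 * k + 4), (2 * p + 2), (2 * q + 2), 1, Or.inl ⟨by omega, rfl⟩, Or.inr (Or.inr (Or.inl ⟨rfl, rfl⟩)),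
            g7_4_4 k (u - 1) (by omega) (by omega) (by omega) (by omega) (by omega) (by omega) (by omega)⟩
      · by_cases h8 : u % 10 ≤ 7
        · exact res_wk (w1_5 k u (by omega) (by omega) (by omega) (by omega) (by omega) (by omega) (by omega))
        · exact res_low ⟨(6 * k + 4), (2 * p + 2), (2 * q + 2), 1, Or.inl ⟨by omega, rfl⟩, Or.inr (Or.inr (Or.inl ⟨rfl, rfl⟩)),
            g7_4_8 k (u - 1) (by omega) (by omega) (by omega) (by omega) (by omega) (by omega) (by omega)⟩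
  · by_cases h9 : (2 * q + 2) + 3 ≤ 2 * k + 1
    · by_cases h10 : ((6 * k + 5) + (2 * p + 2) + 2 * 0) % 4 ≤ 1
      · exact res_low ⟨(6 * k + 4), (2 * p + 2), (2 * q + 2 + 1), 0, Or.inl ⟨by omega, rfl⟩, Or.inr (Or.inl ⟨rfl, rfl⟩),
          fc8 ⟨by omega, by omega, by omega, by omega, by omega, by omega⟩⟩
      · exact res_low ⟨(6 * k + 4), (2 * p + 2), (2 * q + 1), 1, Or.inl ⟨by omega, rfl⟩, Or.inr (Or.inr (Or.inr ⟨by omega, rfl⟩)),
          fc8 ⟨by omega, by omega, by omega, by omega, by omega, by omega⟩⟩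
    · by_cases h11 : ((6 * k + 5) + (2 * p + 2) + 2 * 0 + 3 * (2 * q + 2) + 2 * k) % 4 ≤ 1
      · exact res_low ⟨(6 * k + 4), (2 * p + 1), (2 * q + 2), 1, Or.inr (Or.inr ⟨by omega, by omega⟩), Or.inr (Or.inr (Or.inl ⟨rfl, rfl⟩)),
          g10b k 4 (by omega) (by omega) (by omega) (by omega) (by omega) (by omega) (by omega) (by omega)⟩
      · exact res_low ⟨(6 * k + 4), (2 * p + 2), (2 * q + 1), 1, Or.inl ⟨by omega, rfl⟩, Or.inr (Or.inr (Or.inr ⟨by omega, rfl⟩)),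
          g9b k 4 (by omega) (by omega) (by omega) (by omega) (by omega) (by omega) (by omega) (by omega) (by omega)⟩

theorem dom_5_2_2_1 (k p q u : ℕ) (hab : (6 * k + 5) ≤ (2 * p + 2)) (hu : (6 * k + 5) + (2 * p + 2) = (2 * q + 2) + u) (hu1 : 1 ≤ u) :
    Res (6 * k + 5) (2 * p + 2) (2 * q + 2) 1 := by
  by_cases h1 : (2 * p + 2) + 2 * k + 6 ≤ (6 * k + 5) + (2 * q + 2) + 7
  · by_cases h2 : u ≤ 7
    · by_cases h3 : u ≤ 3
      · by_cases h4 : u ≤ 1
        · exact res_low ⟨(6 * k + 4), (2 * p + 2), (2 * q + 2 + 1), 1, Or.inl ⟨by omega, rfl⟩, Or.inr (Or.inl ⟨rfl, rfl⟩),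
            fc1 ⟨by omega, by omega, by omega, by omega, by omega⟩⟩
        · exact res_low ⟨(6 * k + 4), (2 * p + 1), (2 * q + 2), 0, Or.inr (Or.inr ⟨by omega, by omega⟩), Or.inr (Or.inr (Or.inl ⟨rfl, rfl⟩)),
            fc5 ⟨by omega, by omega, by omega⟩⟩
      · by_cases h5 : u ≤ 5
        · exact res_low ⟨(6 * k + 4), (2 * p + 2), (2 * q + 2 + 1), 1, Or.inl ⟨by omega, rfl⟩, Or.inr (Or.inl ⟨rfl, rfl⟩),
            fc3 ⟨by omega, by omega, by omega, by omega⟩⟩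
        · exact res_low ⟨(6 * k + 4), (2 * p + 2), (2 * q + 2 + 1), 1, Or.inl ⟨by omega, rfl⟩, Or.inr (Or.inl ⟨rfl, rfl⟩),
            fc4 ⟨by omega, by omega, by omega, by omega, by omega⟩⟩
    · by_cases h6 : u % 10 ≤ 3
      · by_cases h7 : u % 10 ≤ 1
        · exact res_low ⟨(6 * k + 4), (2 * p + 1), (2 * q + 2 + 1), 1, Or.inr (Or.inr ⟨by omega, by omega⟩), Or.inr (Or.inl ⟨rfl, rfl⟩),
            g7_4_8 k (u - 3) (by omega) (by omega) (by omega) (by omega) (by omega) (by omega) (by omega)⟩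
        · exact res_low ⟨(6 * k + 4), (2 * p + 1), (2 * q + 2), 0, Or.inr (Or.inr ⟨by omega, by omega⟩), Or.inr (Or.inr (Or.inl ⟨rfl, rfl⟩)),
            g7_4_1 k (u - 2) (by omega) (by omega) (by omega) (by omega) (by omega) (by omega) (by omega)⟩
      · by_cases h8 : u % 10 ≤ 5
        · exact res_low ⟨(6 * k + 4), (2 * p + 2), (2 * q + 2), 1, Or.inl ⟨by omega, rfl⟩, Or.inl ⟨rfl, rfl⟩,
            g7_4_4 k (u - 1) (by omega) (by omega) (by omega) (by omega) (by omega) (by omega) (by omega)⟩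
        · by_cases h9 : u % 10 ≤ 7
          · exact res_low ⟨(6 * k + 4), (2 * p + 1), (2 * q + 2 + 1), 1, Or.inr (Or.inr ⟨by omega, by omega⟩), Or.inr (Or.inl ⟨rfl, rfl⟩),
              g7_4_4 k (u - 3) (by omega) (by omega) (by omega) (by omega) (by omega) (by omega) (by omega)⟩
          · exact res_low ⟨(6 * k + 4), (2 * p + 2), (2 * q + 2), 1, Or.inl ⟨by omega, rfl⟩, Or.inl ⟨rfl, rfl⟩,
              g7_4_8 k (u - 1) (by omega) (by omega) (by omega) (by omega) (by omega) (by omega) (by omega)⟩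
  · by_cases h10 : (2 * q + 2) + 3 ≤ 2 * k + 1
    · by_cases h11 : ((6 * k + 5) + (2 * p + 2) + 2 * 1) % 4 ≤ 1
      · exact res_low ⟨(6 * k + 4), (2 * p + 2), (2 * q + 2 + 1), 1, Or.inl ⟨by omega, rfl⟩, Or.inr (Or.inl ⟨rfl, rfl⟩),
          fc8 ⟨by omega, by omega, by omega, by omega, by omega, by omega⟩⟩
      · exact res_low ⟨(6 * k + 4), (2 * p + 2), (2 * q + 1), 0, Or.inl ⟨by omega, rfl⟩, Or.inr (Or.inr (Or.inr ⟨by omega, rfl⟩)),
          fc8 ⟨by omega, by omega, by omega, by omega, by omega, by omega⟩⟩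
    · by_cases h12 : ((6 * k + 5) + (2 * p + 2) + 2 * 1 + 3 * (2 * q + 2) + 2 * k) % 4 ≤ 1
      · exact res_low ⟨(6 * k + 4), (2 * p + 1), (2 * q + 2), 0, Or.inr (Or.inr ⟨by omega, by omega⟩), Or.inr (Or.inr (Or.inl ⟨rfl, rfl⟩)),
          g10b k 4 (by omega) (by omega) (by omega) (by omega) (by omega) (by omega) (by omega) (by omega)⟩
      · exact res_low ⟨(6 * k + 4), (2 * p + 2), (2 * q + 2 + 1), 1, Or.inl ⟨by omega, rfl⟩, Or.inr (Or.inl ⟨rfl, rfl⟩),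
          g9b k 4 (by omega) (by omega) (by omega) (by omega) (by omega) (by omega) (by omega) (by omega) (by omega)⟩

end Pool.Agent.SNT.Dm
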