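import Pool.Agent.SNT.DomG0
import Pool.Agent.SNT.DomG1
import Pool.Agent.SNT.DomG2
import Pool.Agent.SNT.DomG3
import Pool.Agent.SNT.DomG4
import Pool.Agent.SNT.DomG5
import Pool.Agent.SNT.DomG6

set_option autoImplicit false

/-! Domination: every zero of the static field which is not all even has a one among its
predecessors. -/

namespace Pool.Agent.SNT.Dm

theorem FF_dom {a b d e : ℕ} (hab : a ≤ b) (hd : d < a + b) (he : e ≤ 1) :
    FF a b d e ∨ Msk a b d e ∨ Low a b d e ∨ Wk a b d e := by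
  obtain ⟨u, hu, hu1⟩ : ∃ u, a + b = d + u ∧ 1 ≤ u := ⟨a + b - d, by omega, by omega⟩
  have ha' : a = 0 ∨ ∃ k r, 1 ≤ r ∧ r ≤ 6 ∧ a = 6 * k + r := by
    rcases Nat.eq_zero_or_pos a with h | h
    · exact Or.inl h
    · exact Or.inr ⟨(a - 1) / 6, (a - 1) % 6 + 1, by omega, by omega, by omega⟩
  obtain ⟨p, s, hs, rfl⟩ : ∃ p s, (s = 1 ∨ s = 2) ∧ b = 2 * p + s :=
    ⟨(b - 1) / 2, (b - 1) % 2 + 1, by omega, by omega⟩
  have hd' : d = 0 ∨ ∃ q t, (t = 1 ∨ t = 2) ∧ d = 2 * q + t := by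
    rcases Nat.eq_zero_or_pos d with h | h
    · exact Or.inl h
    · exact Or.inr ⟨(d - 1) / 2, (d - 1) % 2 + 1, by omega, by omega⟩
  have he' : e = 0 ∨ e = 1 := by omega
  rcases ha' with rfl | ⟨k, r, hr1, hr2, rfl⟩
  · rcases hs with rfl | rfl <;> rcases hd' with rfl | ⟨q, t, rfl | rfl, rfl⟩ <;>
      rcases he' with rfl | rfl
    · exact dom_0_1_0_0 p u hu hu1
    · exact dom_0_1_0_1 p u hu hu1
    · exact dom_0_1_1_0 p q u hu hu1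
    · exact dom_0_1_1_1 p q u hu hu1
    · exact dom_0_1_2_0 p q u hu hu1
    · exact dom_0_1_2_1 p q u hu hu1
    · exact dom_0_2_0_0 p u hu hu1
    · exact dom_0_2_0_1 p u hu hu1
    · exact dom_0_2_1_0 p q u hu hu1
    · exact dom_0_2_1_1 p q u hu hu1
    · exact dom_0_2_2_0 p q u hu hu1
    · exact dom_0_2_2_1 p q u hu hu1
  · have hr' : r = 1 ∨ r = 2 ∨ r = 3 ∨ r = 4 ∨ r = 5 ∨ r = 6 := by omega
    clear hr1 hr2
    rcases hr' with rfl | rfl | rfl | rfl | rfl | rfl <;> rcases hs with rfl | rfl <;>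
      rcases hd' with rfl | ⟨q, t, rfl | rfl, rfl⟩ <;> rcases he' with rfl | rfl
    · exact dom_1_1_0_0 k p u hab hu hu1
    · exact dom_1_1_0_1 k p u hab hu hu1
    · exact dom_1_1_1_0 k p q u hab hu hu1
    · exact dom_1_1_1_1 k p q u hab hu hu1
    · exact dom_1_1_2_0 k p q u hab hu hu1
    · exact dom_1_1_2_1 k p q u hab hu hu1
    · exact dom_1_2_0_0 k p u hab hu hu1
    · exact dom_1_2_0_1 k p u hab hu hu1
    · exact dom_1_2_1_0 k p q u hab hu hu1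
    · exact dom_1_2_1_1 k p q u hab hu hu1
    · exact dom_1_2_2_0 k p q u hab hu hu1
    · exact dom_1_2_2_1 k p q u hab hu hu1
    · exact dom_2_1_0_0 k p u hab hu hu1
    · exact dom_2_1_0_1 k p u hab hu hu1
    · exact dom_2_1_1_0 k p q u hab hu hu1
    · exact dom_2_1_1_1 k p q u hab hu hu1
    · exact dom_2_1_2_0 k p q u hab hu hu1
    · exact dom_2_1_2_1 k p q u hab hu hu1
    · exact dom_2_2_0_0 k p u hab hu hu1
    · exact dom_2_2_0_1 k p u hab hu hu1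
    · exact dom_2_2_1_0 k p q u hab hu hu1
    · exact dom_2_2_1_1 k p q u hab hu hu1
    · exact dom_2_2_2_0 k p q u hab hu hu1
    · exact dom_2_2_2_1 k p q u hab hu hu1
    · exact dom_3_1_0_0 k p u hab hu hu1
    · exact dom_3_1_0_1 k p u hab hu hu1
    · exact dom_3_1_1_0 k p q u hab hu hu1
    · exact dom_3_1_1_1 k p q u hab hu hu1
    · exact dom_3_1_2_0 k p q u hab hu hu1
    · exact dom_3_1_2_1 k p q u hab hu hu1
    · exact dom_3_2_0_0 k p u hab hu hu1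
    · exact dom_3_2_0_1 k p u hab hu hu1
    · exact dom_3_2_1_0 k p q u hab hu hu1
    · exact dom_3_2_1_1 k p q u hab hu hu1
    · exact dom_3_2_2_0 k p q u hab hu hu1
    · exact dom_3_2_2_1 k p q u hab hu hu1
    · exact dom_4_1_0_0 k p u hab hu hu1
    · exact dom_4_1_0_1 k p u hab hu hu1
    · exact dom_4_1_1_0 k p q u hab hu hu1
    · exact dom_4_1_1_1 k p q u hab hu hu1
    · exact dom_4_1_2_0 k p q u hab hu hu1
    · exact dom_4_1_2_1 k p q u hab hu hu1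
    · exact dom_4_2_0_0 k p u hab hu hu1
    · exact dom_4_2_0_1 k p u hab hu hu1
    · exact dom_4_2_1_0 k p q u hab hu hu1
    · exact dom_4_2_1_1 k p q u hab hu hu1
    · exact dom_4_2_2_0 k p q u hab hu hu1
    · exact dom_4_2_2_1 k p q u hab hu hu1
    · exact dom_5_1_0_0 k p u hab hu hu1
    · exact dom_5_1_0_1 k p u hab hu hu1
    · exact dom_5_1_1_0 k p q u hab hu hu1
    · exact dom_5_1_1_1 k p q u hab hu hu1
    · exact dom_5_1_2_0 k p q u hab hu hu1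
    · exact dom_5_1_2_1 k p q u hab hu hu1
    · exact dom_5_2_0_0 k p u hab hu hu1
    · exact dom_5_2_0_1 k p u hab hu hu1
    · exact dom_5_2_1_0 k p q u hab hu hu1
    · exact dom_5_2_1_1 k p q u hab hu hu1
    · exact dom_5_2_2_0 k p q u hab hu hu1
    · exact dom_5_2_2_1 k p q u hab hu hu1
    · exact dom_6_1_0_0 k p u hab hu hu1
    · exact dom_6_1_0_1 k p u hab hu hu1
    · exact dom_6_1_1_0 k p q u hab hu hu1
    · exact dom_6_1_1_1 k p q u hab hu hu1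
    · exact dom_6_1_2_0 k p q u hab hu hu1
    · exact dom_6_1_2_1 k p q u hab hu hu1
    · exact dom_6_2_0_0 k p u hab hu hu1
    · exact dom_6_2_0_1 k p u hab hu hu1
    · exact dom_6_2_1_0 k p q u hab hu hu1
    · exact dom_6_2_1_1 k p q u hab hu hu1
    · exact dom_6_2_2_0 k p q u hab hu hu1
    · exact dom_6_2_2_1 k p q u hab hu hu1

/-- In-row predecessors. -/
def InRow (a b d e : ℕ) : Prop :=
  ∃ d' e', ((d' = d + 1 ∧ e' = e) ∨ (d' = d ∧ e' + e = 1) ∨ (d = d' + 1 ∧ e' + e = 1)) ∧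
    FF a b d' e'

theorem wk_inRow {a b d e : ℕ} (hab : a ≤ b) (h : Wk a b d e) : InRow a b d e := by
  rcases h with h | h | h | h | h | h | h | h | h | h | h | h | h
  · obtain ⟨h1, h2, h3, h4, h5⟩ := h
    unfold FU at h4
    subst h3
    refine ⟨d - 1, 1, Or.inr (Or.inr ⟨by omega, rfl⟩), ?_⟩
    refine fc7 ⟨by omega, by omega, ?_, by omega⟩
    have : a + b - (d - 1) = a + b - d + 1 := by omega
    rw [this]; exact h4
  · obtain ⟨h1, h2, h3, rfl, h5⟩ := h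
    exact ⟨d + 1, 1, Or.inl ⟨rfl, rfl⟩, fc3 (by omega)⟩
  · obtain ⟨h1, h2, h3, h4, rfl, h5⟩ := h
    exact ⟨d - 1, 1, Or.inr (Or.inr ⟨by omega, rfl⟩), fc10 (by omega)⟩
  · obtain ⟨h1, h2, h3, rfl, h5⟩ := h
    rcases (by omega : d = 0 ∨ d = 1) with rfl | rfl
    · exact ⟨0, 1, Or.inr (Or.inl ⟨rfl, rfl⟩), fc11 (by omega)⟩
    · exact ⟨0, 1, Or.inr (Or.inr ⟨rfl, rfl⟩), fc11 (by omega)⟩
  · obtain ⟨rfl, rfl, rfl, rfl⟩ := h
    exact ⟨0, 1, Or.inr (Or.inl ⟨rfl, rfl⟩), fc10 (by omega)⟩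
  · obtain ⟨h1, h2, h3, h4, rfl, h5, h6, h7⟩ := h
    exact ⟨d + 1, 1, Or.inl ⟨rfl, rfl⟩, fc8 (by omega)⟩
  · obtain ⟨h1, h2, h3, h4, rfl, h5, h6, h7⟩ := h
    exact ⟨d, 1, Or.inr (Or.inl ⟨rfl, rfl⟩), fc8 (by omega)⟩
  · obtain ⟨h1, h2, h3, rfl, h5, h6, h7⟩ := h
    exact ⟨d, 1, Or.inr (Or.inl ⟨rfl, rfl⟩), fc8 (by omega)⟩
  · obtain ⟨h1, h2, h3, h4, rfl, h5, h6, h7⟩ := h
    exact ⟨d - 1, 0, Or.inr (Or.inr ⟨by omega, rfl⟩), fc8 (by omega)⟩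
  · obtain ⟨h1, h2, h3, h4, rfl, h5, h6, h7⟩ := h
    exact ⟨d, 0, Or.inr (Or.inl ⟨rfl, rfl⟩), fc8 (by omega)⟩
  · obtain ⟨rfl, h2, rfl, h4, h5⟩ := h
    rcases (by omega : d + 3 ≤ 2 * (b / 6) ∨ d + 1 = 2 * (b / 6)) with h6 | h6
    · exact ⟨d + 1, 1, Or.inl ⟨rfl, rfl⟩, fc12 (by omega)⟩
    · exact ⟨d + 1, 1, Or.inl ⟨rfl, rfl⟩, fc7_2 (by omega)⟩
  · obtain ⟨rfl, h2, rfl, h4, h5, h6⟩ := h
    exact ⟨d - 1, 1, Or.inr (Or.inr ⟨by omega, rfl⟩), fc12 (by omega)⟩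
  · obtain ⟨rfl, h2, h3, h4, h5⟩ := h
    rcases (by omega : e = 0 ∨ e = 1) with rfl | rfl
    · exact ⟨d - 1, 1, Or.inr (Or.inr ⟨by omega, rfl⟩), fc13 (by omega)⟩
    · rcases (by omega : d + 3 ≤ 2 * (b / 6) ∨ d + 1 = 2 * (b / 6)) with h6 | h6
      · exact ⟨d + 1, 1, Or.inl ⟨rfl, rfl⟩, fc13 (by omega)⟩
      · exact ⟨d + 1, 1, Or.inl ⟨rfl, rfl⟩, fc7_4 (by omega)⟩

theorem dom_sorted {a b x y : ℕ} (hab : a ≤ b) (hxy : y ≤ x) (hy : 1 ≤ y)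
    (hm : ¬ (a % 2 = 0 ∧ b % 2 = 0 ∧ x % 2 = 0 ∧ y % 2 = 0))
    (h : ¬ FF a b (x - y) (x % 2)) :
    ∃ p q r s, p ≤ 1 ∧ q ≤ 1 ∧ r ≤ 1 ∧ s ≤ 1 ∧ 1 ≤ p + q + r + s ∧ p ≤ a ∧ q ≤ b ∧
      a - p ≤ b - q ∧ y - s ≤ x - r ∧ FF (a - p) (b - q) ((x - r) - (y - s)) ((x - r) % 2) := by
  rcases Nat.lt_or_ge (x - y) (a + b) with hd | hd
  · have key : Low a b (x - y) (x % 2) ∨ InRow a b (x - y) (x % 2) := by
      rcases FF_dom hab hd (by omega : x % 2 ≤ 1) with h1 | h1 | h1 | h1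
      · exact absurd h1 h
      · exact absurd ⟨h1.1, h1.2.1, h1.2.2.2, by have := h1.2.2.1; have := h1.2.2.2; omega⟩ hm
      · exact Or.inl h1
      · exact Or.inr (wk_inRow hab h1)
    rcases key with ⟨a', b', d', e', hr, hc, hF⟩ | ⟨d', e', hc, hF⟩
    · obtain ⟨p, q, hp, hq, hpq, hpa, hqb, ha', hb', hab'⟩ : ∃ p q, p ≤ 1 ∧ q ≤ 1 ∧ 1 ≤ p + q ∧
          p ≤ a ∧ q ≤ b ∧ a' = a - p ∧ b' = b - q ∧ a - p ≤ b - q := by
        rcases hr with h1 | h1 | h1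
        · exact ⟨1, 0, by omega⟩
        · exact ⟨0, 1, by omega⟩
        · exact ⟨1, 1, by omega⟩
      obtain ⟨r, s, hr1, hs1, hd', he', hle⟩ : ∃ r s, r ≤ 1 ∧ s ≤ 1 ∧
          d' = (x - r) - (y - s) ∧ e' = (x - r) % 2 ∧ y - s ≤ x - r := by
        rcases hc with h1 | h1 | h1 | h1
        · exact ⟨0, 0, by omega⟩
        · exact ⟨0, 1, by omega⟩
        · exact ⟨1, 1, by omega⟩
        · exact ⟨1, 0, by omega⟩
      subst ha' hb' hd' he'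
      exact ⟨p, q, r, s, hp, hq, hr1, hs1, by omega, hpa, hqb, hab', hle, hF⟩
    · obtain ⟨r, s, hr1, hs1, hrs, hd', he', hle⟩ : ∃ r s, r ≤ 1 ∧ s ≤ 1 ∧ 1 ≤ r + s ∧
          d' = (x - r) - (y - s) ∧ e' = (x - r) % 2 ∧ y - s ≤ x - r := by
        rcases hc with h1 | h1 | h1
        · exact ⟨0, 1, by omega⟩
        · exact ⟨1, 1, by omega⟩
        · exact ⟨1, 0, by omega⟩
      subst hd' he'
      exact ⟨0, 0, r, s, by omega, by omega, hr1, hs1, by omega, by omega, by omega,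
        by omega, hle, by simpa using hF⟩
  · -- closed form
    have h0 : ¬ (a % 2 = 0 ∧ b % 2 = 0 ∧ (x - y) % 2 = 1 ∧ x % 2 = 1 ∧ a + b < x - y) :=
      fun h1 => h (fc1 h1)
    refine ⟨a % 2, b % 2, (x + 1) % 2, y % 2, by omega, by omega, by omega, by omega, by omega,
      by omega, by omega, by omega, by omega, fc1 ⟨by omega, by omega, by omega, by omega,
      by omega⟩⟩

theorem Fst_swap_ab (a b x y : ℕ) : Fst a b x y ↔ Fst b a x y := by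
  unfold Fst; rw [min_comm a b, max_comm a b]

theorem Fst_swap_xy (a b x y : ℕ) : Fst a b x y ↔ Fst a b y x := by
  unfold Fst; rw [min_comm x y, max_comm x y]

theorem Fst_sorted {a b x y : ℕ} (hab : a ≤ b) (hxy : y ≤ x) :
    Fst a b x y ↔ FF a b (x - y) (x % 2) := by
  unfold Fst; rw [min_eq_left hab, max_eq_right hab, min_eq_right hxy, max_eq_left hxy]

theorem Fst_dom {a b x y : ℕ} (hx : 1 ≤ x) (hy : 1 ≤ y)
    (hm : ¬ (a % 2 = 0 ∧ b % 2 = 0 ∧ x % 2 = 0 ∧ y % 2 = 0))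
    (h : ¬ Fst a b x y) :
    ∃ p q r s, p ≤ 1 ∧ q ≤ 1 ∧ r ≤ 1 ∧ s ≤ 1 ∧ 1 ≤ p + q + r + s ∧ p ≤ a ∧ q ≤ b ∧
      Fst (a - p) (b - q) (x - r) (y - s) := by
  rcases le_total a b with hab | hab <;> rcases le_total y x with hxy | hxy
  · obtain ⟨p, q, r, s, h1, h2, h3, h4, h5, h6, h7, h8, h9, h10⟩ := dom_sorted hab hxy hy hm
      (by rwa [Fst_sorted hab hxy] at h)
    exact ⟨p, q, r, s, h1, h2, h3, h4, h5, h6, h7, (Fst_sorted h8 h9).2 h10⟩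
  · rw [Fst_swap_xy] at h
    obtain ⟨p, q, r, s, h1, h2, h3, h4, h5, h6, h7, h8, h9, h10⟩ := dom_sorted hab hxy hx
      (by omega) (by rwa [Fst_sorted hab hxy] at h)
    exact ⟨p, q, s, r, h1, h2, h4, h3, by omega, h6, h7,
      (Fst_swap_xy _ _ _ _).2 ((Fst_sorted h8 h9).2 h10)⟩
  · rw [Fst_swap_ab] at h
    obtain ⟨p, q, r, s, h1, h2, h3, h4, h5, h6, h7, h8, h9, h10⟩ := dom_sorted hab hxy hy
      (by omega) (by rwa [Fst_sorted hab hxy] at h)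
    exact ⟨q, p, r, s, h2, h1, h3, h4, by omega, h7, h6,
      (Fst_swap_ab _ _ _ _).2 ((Fst_sorted h8 h9).2 h10)⟩
  · rw [Fst_swap_ab, Fst_swap_xy] at h
    obtain ⟨p, q, r, s, h1, h2, h3, h4, h5, h6, h7, h8, h9, h10⟩ := dom_sorted hab hxy hx
      (by omega) (by rwa [Fst_sorted hab hxy] at h)
    exact ⟨q, p, s, r, h2, h1, h4, h3, by omega, h7, h6,
      (Fst_swap_ab _ _ _ _).2 ((Fst_swap_xy _ _ _ _).2 ((Fst_sorted h8 h9).2 h10))⟩

end Pool.Agent.SNT.Dm
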