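import Pool.Agent.SNT.Fst

set_option autoImplicit false

/-! Interface for the domination half of the rule for the static field. -/

namespace Pool.Agent.SNT.Dm

/-- The three lower rows of the row `(a, b)`, `a ≤ b`. -/
def RowLow (a b a' b' : ℕ) : Prop :=
  (a = a' + 1 ∧ b' = b) ∨ (a' = a ∧ b = b' + 1 ∧ a ≤ b') ∨ (a = a' + 1 ∧ b = b' + 1)

/-- The four cells (of a lower row) below the cell `(d, e)`. -/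
def CellStep (d e d' e' : ℕ) : Prop :=
  (d' = d ∧ e' = e) ∨ (d' = d + 1 ∧ e' = e) ∨ (d' = d ∧ e' + e = 1) ∨ (d = d' + 1 ∧ e' + e = 1)

/-- Some predecessor in a lower row is a one of the static field. -/
def Low (a b d e : ℕ) : Prop :=
  ∃ a' b' d' e', RowLow a b a' b' ∧ CellStep d e d' e' ∧ FF a' b' d' e'

/-- The all even cells. -/
def Msk (a b d e : ℕ) : Prop := a % 2 = 0 ∧ b % 2 = 0 ∧ d % 2 = 0 ∧ e = 0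

/-- The weak cells (zeros which are dominated only inside their row). -/
def Wk (a b d e : ℕ) : Prop :=
  (d + 7 ≤ a + b ∧ (a + b - d) % 10 = 7 ∧ e = 0 ∧ FU a (a + b - d + 1) ∧
    ¬ (a + b = d + 7 ∧ a % 2 = 1 ∧ b % 2 = 1)) ∨
  (a % 2 = 0 ∧ b % 2 = 0 ∧ a + b = d + 4 ∧ e = 1 ∧ 2 ≤ a) ∨
  (a % 2 = 0 ∧ b % 2 = 1 ∧ 4 ≤ a ∧ a + 3 ≤ b ∧ e = 0 ∧
    ((a % 6 = 2 ∧ a + b = d + 10 * (a / 6) + 6) ∨ (a % 6 = 4 ∧ a + b = d + 10 * (a / 6) + 10))) ∨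
  (b = a + 1 ∧ a % 6 = 2 ∧ 8 ≤ a ∧ e = 0 ∧ d ≤ 1) ∨
  (a = 4 ∧ b = 7 ∧ d = 0 ∧ e = 0) ∨
  (a % 2 = 0 ∧ b % 2 = 0 ∧ a < b ∧ (a + b) % 4 = 2 ∧ e = 1 ∧ d % 2 = 0 ∧ d + 2 ≤ 2 * (a / 6) ∧
    (2 ≤ d ∨ (b = a + 2 ∧ a % 6 ≠ 2))) ∨
  (a % 2 = 0 ∧ b % 2 = 0 ∧ a < b ∧ (a + b) % 4 = 2 ∧ e = 0 ∧ d % 2 = 1 ∧ d + 3 ≤ 2 * (a / 6) ∧
    (3 ≤ d ∨ (b = a + 2 ∧ a % 6 ≠ 2))) ∨
  (a % 2 = 0 ∧ b = a + 2 ∧ a % 6 ≠ 0 ∧ e = 0 ∧ d % 2 = 1 ∧ d + 1 = 2 * (a / 6) ∧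
    (3 ≤ d ∨ a % 6 = 4)) ∨
  (a % 2 = 0 ∧ b % 2 = 0 ∧ (a < b ∨ a % 6 = 0) ∧ (a + b) % 4 = 0 ∧ e = 1 ∧ d % 2 = 0 ∧ 2 ≤ d ∧
    d + 2 ≤ 2 * (a / 6)) ∨
  (a % 2 = 0 ∧ b % 2 = 0 ∧ (a < b ∨ a % 6 = 0) ∧ (a + b) % 4 = 0 ∧ e = 1 ∧ d % 2 = 1 ∧ 3 ≤ d ∧
    d + 3 ≤ 2 * (a / 6)) ∨
  (b = a ∧ a % 6 = 2 ∧ e = 1 ∧ d % 2 = 1 ∧ d + 1 ≤ 2 * (a / 6)) ∨
  (b = a ∧ a % 6 = 2 ∧ e = 0 ∧ d % 2 = 1 ∧ 3 ≤ d ∧ d + 1 ≤ 2 * (a / 6)) ∨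
  (b = a ∧ a % 6 = 4 ∧ e ≤ 1 ∧ d % 2 = 1 ∧ d + 1 ≤ 2 * (a / 6))

/-- The result of the case analysis. -/
def Res (a b d e : ℕ) : Prop := FF a b d e ∨ Msk a b d e ∨ Low a b d e ∨ Wk a b d e

section
variable {a b d e : ℕ}

theorem res_one (h : FF a b d e) : Res a b d e := Or.inl h
theorem res_mask (h : a % 2 = 0 ∧ b % 2 = 0 ∧ d % 2 = 0 ∧ e = 0) : Res a b d e :=
  Or.inr (Or.inl h)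
theorem res_low (h : Low a b d e) : Res a b d e := Or.inr (Or.inr (Or.inl h))
theorem res_wk (h : Wk a b d e) : Res a b d e := Or.inr (Or.inr (Or.inr h))

theorem ffU (h : FF1 a b d e) : FF a b d e := Or.inl h
theorem ffP (h : FF2 a b d e) : FF a b d e := Or.inr (Or.inl h)
theorem ffC (h : FF3 a b d e) : FF a b d e := Or.inr (Or.inr (Or.inl h))
theorem ffE (h : FF4 a b d e) : FF a b d e := Or.inr (Or.inr (Or.inr h))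

theorem fc1 (h : a % 2 = 0 ∧ b % 2 = 0 ∧ d % 2 = 1 ∧ e = 1 ∧ a + b < d) : FF a b d e :=
  ffU (Or.inl h)
theorem fc2 (h : a % 2 = 0 ∧ b % 2 = 0 ∧ e = 0 ∧ a + b = d + 1) : FF a b d e :=
  ffU (Or.inr (Or.inl h))
theorem fc3 (h : a % 2 = 0 ∧ b % 2 = 0 ∧ e = 1 ∧ a + b = d + 3) : FF a b d e :=
  ffU (Or.inr (Or.inr (Or.inl h)))
theorem fc4 (h : a % 2 = 0 ∧ b % 2 = 0 ∧ e = 1 ∧ a + b = d + 5 ∧ 3 ≤ a) : FF a b d e :=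
  ffU (Or.inr (Or.inr (Or.inr (Or.inl h))))
theorem fc5 (h : (a + b) % 2 = 1 ∧ e = 0 ∧ a + b = d + 1) : FF a b d e :=
  ffU (Or.inr (Or.inr (Or.inr (Or.inr (Or.inl h)))))
theorem fc6 (h : a % 2 = 1 ∧ b % 2 = 1 ∧ e = 1 ∧ a + b = d + 4 ∧ 3 ≤ a) : FF a b d e :=
  ffU (Or.inr (Or.inr (Or.inr (Or.inr (Or.inr h)))))

theorem fc7 (h : d + 8 ≤ a + b ∧ (d + 11 ≤ a + b ∨ a % 2 = 0 ∨ b % 2 = 0) ∧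
    FU a (a + b - d) ∧
    (((a + b - d) % 10 = 4 ∧ e = 1) ∨ ((a + b - d) % 10 = 8 ∧ e = 1) ∨
      ((a + b - d) % 10 = 1 ∧ e = 0))) : FF a b d e := ffP h

theorem fc7_0 (h : a % 6 = 0 ∧ (a + b - d) + 2 ≤ 10 * (a / 6) ∧ d + 8 ≤ a + b ∧
    (d + 11 ≤ a + b ∨ a % 2 = 0 ∨ b % 2 = 0) ∧
    (((a + b - d) % 10 = 4 ∧ e = 1) ∨ ((a + b - d) % 10 = 8 ∧ e = 1) ∨
      ((a + b - d) % 10 = 1 ∧ e = 0))) : FF a b d e :=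
  fc7 ⟨h.2.2.1, h.2.2.2.1, Or.inl ⟨h.1, h.2.1⟩, h.2.2.2.2⟩
theorem fc7_1 (h : a % 6 = 1 ∧ (a + b - d) ≤ 10 * (a / 6) + 1 ∧ d + 8 ≤ a + b ∧
    (d + 11 ≤ a + b ∨ a % 2 = 0 ∨ b % 2 = 0) ∧
    (((a + b - d) % 10 = 4 ∧ e = 1) ∨ ((a + b - d) % 10 = 8 ∧ e = 1) ∨
      ((a + b - d) % 10 = 1 ∧ e = 0))) : FF a b d e :=
  fc7 ⟨h.2.2.1, h.2.2.2.1, Or.inr (Or.inl ⟨h.1, h.2.1⟩), h.2.2.2.2⟩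
theorem fc7_2 (h : a % 6 = 2 ∧ (a + b - d) ≤ 10 * (a / 6) + 4 ∧ d + 8 ≤ a + b ∧
    (d + 11 ≤ a + b ∨ a % 2 = 0 ∨ b % 2 = 0) ∧
    (((a + b - d) % 10 = 4 ∧ e = 1) ∨ ((a + b - d) % 10 = 8 ∧ e = 1) ∨
      ((a + b - d) % 10 = 1 ∧ e = 0))) : FF a b d e :=
  fc7 ⟨h.2.2.1, h.2.2.2.1, Or.inr (Or.inr (Or.inl ⟨h.1, h.2.1⟩)), h.2.2.2.2⟩
theorem fc7_3 (h : a % 6 = 3 ∧ (a + b - d) ≤ 10 * (a / 6) + 4 ∧ d + 8 ≤ a + b ∧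
    (d + 11 ≤ a + b ∨ a % 2 = 0 ∨ b % 2 = 0) ∧
    (((a + b - d) % 10 = 4 ∧ e = 1) ∨ ((a + b - d) % 10 = 8 ∧ e = 1) ∨
      ((a + b - d) % 10 = 1 ∧ e = 0))) : FF a b d e :=
  fc7 ⟨h.2.2.1, h.2.2.2.1, Or.inr (Or.inr (Or.inr (Or.inl ⟨h.1, h.2.1⟩))), h.2.2.2.2⟩
theorem fc7_4 (h : a % 6 = 4 ∧ (a + b - d) ≤ 10 * (a / 6) + 8 ∧ d + 8 ≤ a + b ∧
    (d + 11 ≤ a + b ∨ a % 2 = 0 ∨ b % 2 = 0) ∧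
    (((a + b - d) % 10 = 4 ∧ e = 1) ∨ ((a + b - d) % 10 = 8 ∧ e = 1) ∨
      ((a + b - d) % 10 = 1 ∧ e = 0))) : FF a b d e :=
  fc7 ⟨h.2.2.1, h.2.2.2.1, Or.inr (Or.inr (Or.inr (Or.inr (Or.inl ⟨h.1, h.2.1⟩)))), h.2.2.2.2⟩
theorem fc7_5 (h : a % 6 = 5 ∧ (a + b - d) ≤ 10 * (a / 6) + 8 ∧ d + 8 ≤ a + b ∧
    (d + 11 ≤ a + b ∨ a % 2 = 0 ∨ b % 2 = 0) ∧
    (((a + b - d) % 10 = 4 ∧ e = 1) ∨ ((a + b - d) % 10 = 8 ∧ e = 1) ∨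
      ((a + b - d) % 10 = 1 ∧ e = 0))) : FF a b d e :=
  fc7 ⟨h.2.2.1, h.2.2.2.1, Or.inr (Or.inr (Or.inr (Or.inr (Or.inr (⟨h.1, h.2.1⟩))))), h.2.2.2.2⟩

theorem fc8 (h : a % 2 = 0 ∧ b % 2 = 0 ∧ (a < b ∨ a % 6 = 0) ∧ d % 2 = 1 ∧ d + 1 ≤ 2 * (a / 6) ∧
    (a + b + 2 * e) % 4 = 0) : FF a b d e := ffC (Or.inl h)
theorem fc9 (h : a % 2 = 0 ∧ b % 2 = 0 ∧ (a < b ∨ a % 6 = 0) ∧ d % 2 = 1 ∧ 2 * (a / 6) ≤ d + 1 ∧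
    (((a % 6 = 0 ∨ a = 2) ∧ d + 1 ≤ (b - a) + 2 * (a / 6)) ∨ d + 3 ≤ (b - a) + 2 * (a / 6)) ∧
    (a + b + 2 * e + 3 * d) % 4 = (1 + 2 * (a / 6)) % 4) : FF a b d e :=
  ffC (Or.inr (Or.inl h))
theorem fc10 (h : a % 2 = 0 ∧ b % 2 = 1 ∧ d % 2 = 0 ∧ 2 * (a / 6) ≤ d ∧
    (((a % 6 = 0 ∨ a = 2) ∧ d + 1 ≤ (b - a) + 2 * (a / 6)) ∨ d + 3 ≤ (b - a) + 2 * (a / 6)) ∧
    (a + b + 2 * e + 3 * d) % 4 = (1 + 2 * (a / 6)) % 4) : FF a b d e :=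
  ffC (Or.inr (Or.inr (Or.inl h)))
theorem fc11 (h : a % 2 = 0 ∧ b % 2 = 1 ∧ d = 0 ∧ 6 ≤ a ∧ (a + b + 2 * e) % 4 = 3 ∧
    (a + 3 ≤ b ∨ (b = a + 1 ∧ a % 6 = 2))) : FF a b d e :=
  ffC (Or.inr (Or.inr (Or.inr h)))
theorem fc12 (h : a = b ∧ a % 6 = 2 ∧ e = 1 ∧ d % 2 = 0 ∧ 2 ≤ d ∧ d + 2 ≤ 2 * (a / 6)) :
    FF a b d e := ffE (Or.inl h)
theorem fc13 (h : a = b ∧ a % 6 = 4 ∧ e = 1 ∧ d % 2 = 0 ∧ d + 2 ≤ 2 * (a / 6)) :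
    FF a b d e := ffE (Or.inr (Or.inl h))
theorem fc14 (h : a = b ∧ a % 6 = 1 ∧ e = 1 ∧ d = 0 ∧ 6 ≤ a) :
    FF a b d e := ffE (Or.inr (Or.inr (Or.inl h)))
theorem fc15 (h : b = a + 1 ∧ a % 6 = 5 ∧ e = 0 ∧ d = 0) :
    FF a b d e := ffE (Or.inr (Or.inr (Or.inr h)))

theorem wk1 (h : d + 7 ≤ a + b ∧ (a + b - d) % 10 = 7 ∧ e = 0 ∧
    ((a % 6 = 0 ∧ (a + b - d + 1) + 2 ≤ 10 * (a / 6)) ∨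
      (a % 6 = 1 ∧ (a + b - d + 1) ≤ 10 * (a / 6) + 1) ∨
      (a % 6 = 2 ∧ (a + b - d + 1) ≤ 10 * (a / 6) + 4) ∨
      (a % 6 = 3 ∧ (a + b - d + 1) ≤ 10 * (a / 6) + 4) ∨
      (a % 6 = 4 ∧ (a + b - d + 1) ≤ 10 * (a / 6) + 8) ∨
      (a % 6 = 5 ∧ (a + b - d + 1) ≤ 10 * (a / 6) + 8)) ∧
    ¬ (a + b = d + 7 ∧ a % 2 = 1 ∧ b % 2 = 1)) : Wk a b d e := Or.inl h
theorem wk2 (h : a % 2 = 0 ∧ b % 2 = 0 ∧ a + b = d + 4 ∧ e = 1 ∧ 2 ≤ a) : Wk a b d e :=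
  Or.inr (Or.inl h)
theorem wk3 (h : a % 2 = 0 ∧ b % 2 = 1 ∧ 4 ≤ a ∧ a + 3 ≤ b ∧ e = 0 ∧
    ((a % 6 = 2 ∧ a + b = d + 10 * (a / 6) + 6) ∨ (a % 6 = 4 ∧ a + b = d + 10 * (a / 6) + 10))) :
    Wk a b d e := Or.inr (Or.inr (Or.inl h))
theorem wk4 (h : b = a + 1 ∧ a % 6 = 2 ∧ 8 ≤ a ∧ e = 0 ∧ d ≤ 1) : Wk a b d e :=
  Or.inr (Or.inr (Or.inr (Or.inl h)))
theorem wk5 (h : a = 4 ∧ b = 7 ∧ d = 0 ∧ e = 0) : Wk a b d e :=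
  Or.inr (Or.inr (Or.inr (Or.inr (Or.inl h))))
theorem wk6 (h : a % 2 = 0 ∧ b % 2 = 0 ∧ a < b ∧ (a + b) % 4 = 2 ∧ e = 1 ∧ d % 2 = 0 ∧
    d + 2 ≤ 2 * (a / 6) ∧ (2 ≤ d ∨ (b = a + 2 ∧ a % 6 ≠ 2))) : Wk a b d e :=
  Or.inr (Or.inr (Or.inr (Or.inr (Or.inr (Or.inl h)))))
theorem wk7 (h : a % 2 = 0 ∧ b % 2 = 0 ∧ a < b ∧ (a + b) % 4 = 2 ∧ e = 0 ∧ d % 2 = 1 ∧
    d + 3 ≤ 2 * (a / 6) ∧ (3 ≤ d ∨ (b = a + 2 ∧ a % 6 ≠ 2))) : Wk a b d e :=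
  Or.inr (Or.inr (Or.inr (Or.inr (Or.inr (Or.inr (Or.inl h))))))
theorem wk8 (h : a % 2 = 0 ∧ b = a + 2 ∧ a % 6 ≠ 0 ∧ e = 0 ∧ d % 2 = 1 ∧ d + 1 = 2 * (a / 6) ∧
    (3 ≤ d ∨ a % 6 = 4)) : Wk a b d e :=
  Or.inr (Or.inr (Or.inr (Or.inr (Or.inr (Or.inr (Or.inr (Or.inl h)))))))
theorem wk9 (h : a % 2 = 0 ∧ b % 2 = 0 ∧ (a < b ∨ a % 6 = 0) ∧ (a + b) % 4 = 0 ∧ e = 1 ∧
    d % 2 = 0 ∧ 2 ≤ d ∧ d + 2 ≤ 2 * (a / 6)) : Wk a b d e :=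
  Or.inr (Or.inr (Or.inr (Or.inr (Or.inr (Or.inr (Or.inr (Or.inr (Or.inl h))))))))
theorem wk10 (h : a % 2 = 0 ∧ b % 2 = 0 ∧ (a < b ∨ a % 6 = 0) ∧ (a + b) % 4 = 0 ∧ e = 1 ∧
    d % 2 = 1 ∧ 3 ≤ d ∧ d + 3 ≤ 2 * (a / 6)) : Wk a b d e :=
  Or.inr (Or.inr (Or.inr (Or.inr (Or.inr (Or.inr (Or.inr (Or.inr (Or.inr (Or.inl h)))))))))
theorem wk11 (h : b = a ∧ a % 6 = 2 ∧ e = 1 ∧ d % 2 = 1 ∧ d + 1 ≤ 2 * (a / 6)) : Wk a b d e :=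
  Or.inr (Or.inr (Or.inr (Or.inr (Or.inr (Or.inr (Or.inr (Or.inr (Or.inr (Or.inr
    (Or.inl h))))))))))
theorem wk12 (h : b = a ∧ a % 6 = 2 ∧ e = 0 ∧ d % 2 = 1 ∧ 3 ≤ d ∧ d + 1 ≤ 2 * (a / 6)) :
    Wk a b d e :=
  Or.inr (Or.inr (Or.inr (Or.inr (Or.inr (Or.inr (Or.inr (Or.inr (Or.inr (Or.inr (Or.inr
    (Or.inl h)))))))))))
theorem wk13 (h : b = a ∧ a % 6 = 4 ∧ e ≤ 1 ∧ d % 2 = 1 ∧ d + 1 ≤ 2 * (a / 6)) : Wk a b d e :=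
  Or.inr (Or.inr (Or.inr (Or.inr (Or.inr (Or.inr (Or.inr (Or.inr (Or.inr (Or.inr (Or.inr
    (Or.inr h)))))))))))

end

end Pool.Agent.SNT.Dm
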