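import Pool.Agent.SNT.DomPar

set_option autoImplicit false
set_option linter.unusedVariables false

namespace Pool.Agent.SNT.Dm

theorem dom_0_1_0_0 (p u : ℕ) (hu : 0 + (2 * p + 1) = 0 + u) (hu1 : 1 ≤ u) :
    Res 0 (2 * p + 1) 0 0 := by
  by_cases h1 : (0 + (2 * p + 1) + 2 * 0 + 3 * 0 + 2 * 0) % 4 ≤ 1
  · exact res_one (g10a 0 (by omega) (by omega) (by omega) (by omega) (by omega) (by omega))
  · exact res_low ⟨0, (2 * p), (0 + 1), 0, Or.inr (Or.inl ⟨rfl, by omega, by omega⟩), Or.inr (Or.inl ⟨rfl, rfl⟩),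
      g9a 0 (by omega) (by omega) (by omega) (by omega) (by omega) (by omega)⟩

theorem dom_0_1_0_1 (p u : ℕ) (hu : 0 + (2 * p + 1) = 0 + u) (hu1 : 1 ≤ u) :
    Res 0 (2 * p + 1) 0 1 := by
  by_cases h1 : (2 * p + 1) ≤ 0 + 1
  · exact res_low ⟨0, (2 * p), (0 + 1), 1, Or.inr (Or.inl ⟨rfl, by omega, by omega⟩), Or.inr (Or.inl ⟨rfl, rfl⟩),
      fc1 ⟨by omega, by omega, by omega, by omega, by omega⟩⟩
  · by_cases h2 : (0 + (2 * p + 1) + 2 * 1 + 3 * 0 + 2 * 0) % 4 ≤ 1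
    · exact res_one (g10a 0 (by omega) (by omega) (by omega) (by omega) (by omega) (by omega))
    · exact res_low ⟨0, (2 * p), (0 + 1), 1, Or.inr (Or.inl ⟨rfl, by omega, by omega⟩), Or.inr (Or.inl ⟨rfl, rfl⟩),
        g9a 0 (by omega) (by omega) (by omega) (by omega) (by omega) (by omega)⟩

theorem dom_0_1_1_0 (p q u : ℕ) (hu : 0 + (2 * p + 1) = (2 * q + 1) + u) (hu1 : 1 ≤ u) :
    Res 0 (2 * p + 1) (2 * q + 1) 0 := by
  by_cases h1 : (0 + (2 * p + 1) + 2 * 0 + 3 * (2 * q + 1) + 2 * 0) % 4 ≤ 0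
  · exact res_low ⟨0, (2 * p), (2 * q + 1), 1, Or.inr (Or.inl ⟨rfl, by omega, by omega⟩), Or.inr (Or.inr (Or.inl ⟨rfl, rfl⟩)),
      g9a 0 (by omega) (by omega) (by omega) (by omega) (by omega) (by omega)⟩
  · exact res_low ⟨0, (2 * p), (2 * q + 1), 0, Or.inr (Or.inl ⟨rfl, by omega, by omega⟩), Or.inl ⟨rfl, rfl⟩,
      g9a 0 (by omega) (by omega) (by omega) (by omega) (by omega) (by omega)⟩

theorem dom_0_1_1_1 (p q u : ℕ) (hu : 0 + (2 * p + 1) = (2 * q + 1) + u) (hu1 : 1 ≤ u) :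
    Res 0 (2 * p + 1) (2 * q + 1) 1 := by
  by_cases h1 : (0 + (2 * p + 1) + 2 * 1 + 3 * (2 * q + 1) + 2 * 0) % 4 ≤ 0
  · exact res_low ⟨0, (2 * p), (2 * q + 1), 0, Or.inr (Or.inl ⟨rfl, by omega, by omega⟩), Or.inr (Or.inr (Or.inl ⟨rfl, rfl⟩)),
      g9a 0 (by omega) (by omega) (by omega) (by omega) (by omega) (by omega)⟩
  · exact res_low ⟨0, (2 * p), (2 * q + 1), 1, Or.inr (Or.inl ⟨rfl, by omega, by omega⟩), Or.inl ⟨rfl, rfl⟩,
      g9a 0 (by omega) (by omega) (by omega) (by omega) (by omega) (by omega)⟩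

theorem dom_0_1_2_0 (p q u : ℕ) (hu : 0 + (2 * p + 1) = (2 * q + 2) + u) (hu1 : 1 ≤ u) :
    Res 0 (2 * p + 1) (2 * q + 2) 0 := by
  by_cases h1 : (0 + (2 * p + 1) + 2 * 0 + 3 * (2 * q + 2) + 2 * 0) % 4 ≤ 1
  · exact res_one (g10a 0 (by omega) (by omega) (by omega) (by omega) (by omega) (by omega))
  · exact res_low ⟨0, (2 * p), (2 * q + 2 + 1), 0, Or.inr (Or.inl ⟨rfl, by omega, by omega⟩), Or.inr (Or.inl ⟨rfl, rfl⟩),
      g9a 0 (by omega) (by omega) (by omega) (by omega) (by omega) (by omega)⟩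

theorem dom_0_1_2_1 (p q u : ℕ) (hu : 0 + (2 * p + 1) = (2 * q + 2) + u) (hu1 : 1 ≤ u) :
    Res 0 (2 * p + 1) (2 * q + 2) 1 := by
  by_cases h1 : (0 + (2 * p + 1) + 2 * 1 + 3 * (2 * q + 2) + 2 * 0) % 4 ≤ 1
  · exact res_one (g10a 0 (by omega) (by omega) (by omega) (by omega) (by omega) (by omega))
  · exact res_low ⟨0, (2 * p), (2 * q + 1), 0, Or.inr (Or.inl ⟨rfl, by omega, by omega⟩), Or.inr (Or.inr (Or.inr ⟨by omega, rfl⟩)),
      g9a 0 (by omega) (by omega) (by omega) (by omega) (by omega) (by omega)⟩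

theorem dom_0_2_0_0 (p u : ℕ) (hu : 0 + (2 * p + 2) = 0 + u) (hu1 : 1 ≤ u) :
    Res 0 (2 * p + 2) 0 0 := by
  exact res_mask ⟨by omega, by omega, by omega, by omega⟩

theorem dom_0_2_0_1 (p u : ℕ) (hu : 0 + (2 * p + 2) = 0 + u) (hu1 : 1 ≤ u) :
    Res 0 (2 * p + 2) 0 1 := by
  by_cases h1 : (0 + (2 * p + 2) + 2 * 1 + 3 * 0 + 2 * 0) % 4 ≤ 0
  · exact res_low ⟨0, (2 * p + 1), 0, 0, Or.inr (Or.inl ⟨rfl, by omega, by omega⟩), Or.inr (Or.inr (Or.inl ⟨rfl, rfl⟩)),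
      g10a 0 (by omega) (by omega) (by omega) (by omega) (by omega) (by omega)⟩
  · exact res_low ⟨0, (2 * p + 1), 0, 1, Or.inr (Or.inl ⟨rfl, by omega, by omega⟩), Or.inl ⟨rfl, rfl⟩,
      g10a 0 (by omega) (by omega) (by omega) (by omega) (by omega) (by omega)⟩

theorem dom_0_2_1_0 (p q u : ℕ) (hu : 0 + (2 * p + 2) = (2 * q + 1) + u) (hu1 : 1 ≤ u) :
    Res 0 (2 * p + 2) (2 * q + 1) 0 := by
  by_cases h1 : (0 + (2 * p + 2) + 2 * 0 + 3 * (2 * q + 1) + 2 * 0) % 4 ≤ 1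
  · exact res_one (g9a 0 (by omega) (by omega) (by omega) (by omega) (by omega) (by omega))
  · exact res_low ⟨0, (2 * p + 1), (2 * q + 1 + 1), 0, Or.inr (Or.inl ⟨rfl, by omega, by omega⟩), Or.inr (Or.inl ⟨rfl, rfl⟩),
      g10a 0 (by omega) (by omega) (by omega) (by omega) (by omega) (by omega)⟩

theorem dom_0_2_1_1 (p q u : ℕ) (hu : 0 + (2 * p + 2) = (2 * q + 1) + u) (hu1 : 1 ≤ u) :
    Res 0 (2 * p + 2) (2 * q + 1) 1 := by
  by_cases h1 : (0 + (2 * p + 2) + 2 * 1 + 3 * (2 * q + 1) + 2 * 0) % 4 ≤ 1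
  · exact res_one (g9a 0 (by omega) (by omega) (by omega) (by omega) (by omega) (by omega))
  · exact res_low ⟨0, (2 * p + 1), (2 * q), 0, Or.inr (Or.inl ⟨rfl, by omega, by omega⟩), Or.inr (Or.inr (Or.inr ⟨by omega, rfl⟩)),
      g10a 0 (by omega) (by omega) (by omega) (by omega) (by omega) (by omega)⟩

theorem dom_0_2_2_0 (p q u : ℕ) (hu : 0 + (2 * p + 2) = (2 * q + 2) + u) (hu1 : 1 ≤ u) :
    Res 0 (2 * p + 2) (2 * q + 2) 0 := by
  exact res_mask ⟨by omega, by omega, by omega, by omega⟩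

theorem dom_0_2_2_1 (p q u : ℕ) (hu : 0 + (2 * p + 2) = (2 * q + 2) + u) (hu1 : 1 ≤ u) :
    Res 0 (2 * p + 2) (2 * q + 2) 1 := by
  by_cases h1 : (0 + (2 * p + 2) + 2 * 1 + 3 * (2 * q + 2) + 2 * 0) % 4 ≤ 0
  · exact res_low ⟨0, (2 * p + 1), (2 * q + 2), 0, Or.inr (Or.inl ⟨rfl, by omega, by omega⟩), Or.inr (Or.inr (Or.inl ⟨rfl, rfl⟩)),
      g10a 0 (by omega) (by omega) (by omega) (by omega) (by omega) (by omega)⟩
  · exact res_low ⟨0, (2 * p + 1), (2 * q + 2), 1, Or.inr (Or.inl ⟨rfl, by omega, by omega⟩), Or.inl ⟨rfl, rfl⟩,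
      g10a 0 (by omega) (by omega) (by omega) (by omega) (by omega) (by omega)⟩

end Pool.Agent.SNT.Dm
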