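import Pool.Agent.SNT.DomDef

set_option autoImplicit false

/-! Clause lemmas in a form without subtraction. -/

namespace Pool.Agent.SNT.Dm

variable {a b d e : ℕ}

theorem g7_0_4 (K u : ℕ) (ha : a = 6 * K + 0) (hu : a + b = d + u) (h8 : 8 ≤ u)
    (hp : 11 ≤ u ∨ a % 2 = 0 ∨ b % 2 = 0) (hb : u + 2 ≤ 10 * K) (hm : u % 10 = 4) (he : e = 1) :
    FF a b d e := by
  have e1 : a + b - d = u := by omega
  refine fc7 ⟨by omega, by omega, ?_, ?_⟩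
  · rw [e1]
    have e2 : a / 6 = K := by omega
    exact Or.inl ⟨by omega, by omega⟩
  · rw [e1]
    exact Or.inl ⟨hm, he⟩

theorem g7_0_8 (K u : ℕ) (ha : a = 6 * K + 0) (hu : a + b = d + u) (h8 : 8 ≤ u)
    (hp : 11 ≤ u ∨ a % 2 = 0 ∨ b % 2 = 0) (hb : u + 2 ≤ 10 * K) (hm : u % 10 = 8) (he : e = 1) :
    FF a b d e := by
  have e1 : a + b - d = u := by omega
  refine fc7 ⟨by omega, by omega, ?_, ?_⟩
  · rw [e1]
    have e2 : a / 6 = K := by omega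
    exact Or.inl ⟨by omega, by omega⟩
  · rw [e1]
    exact Or.inr (Or.inl ⟨hm, he⟩)

theorem g7_0_1 (K u : ℕ) (ha : a = 6 * K + 0) (hu : a + b = d + u) (h8 : 8 ≤ u)
    (hp : 11 ≤ u ∨ a % 2 = 0 ∨ b % 2 = 0) (hb : u + 2 ≤ 10 * K) (hm : u % 10 = 1) (he : e = 0) :
    FF a b d e := by
  have e1 : a + b - d = u := by omega
  refine fc7 ⟨by omega, by omega, ?_, ?_⟩
  · rw [e1]
    have e2 : a / 6 = K := by omega
    exact Or.inl ⟨by omega, by omega⟩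
  · rw [e1]
    exact Or.inr (Or.inr ⟨hm, he⟩)

theorem g7_1_4 (K u : ℕ) (ha : a = 6 * K + 1) (hu : a + b = d + u) (h8 : 8 ≤ u)
    (hp : 11 ≤ u ∨ a % 2 = 0 ∨ b % 2 = 0) (hb : u ≤ 10 * K + 1) (hm : u % 10 = 4) (he : e = 1) :
    FF a b d e := by
  have e1 : a + b - d = u := by omega
  refine fc7 ⟨by omega, by omega, ?_, ?_⟩
  · rw [e1]
    have e2 : a / 6 = K := by omega
    exact Or.inr (Or.inl ⟨by omega, by omega⟩)
  · rw [e1]
    exact Or.inl ⟨hm, he⟩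

theorem g7_1_8 (K u : ℕ) (ha : a = 6 * K + 1) (hu : a + b = d + u) (h8 : 8 ≤ u)
    (hp : 11 ≤ u ∨ a % 2 = 0 ∨ b % 2 = 0) (hb : u ≤ 10 * K + 1) (hm : u % 10 = 8) (he : e = 1) :
    FF a b d e := by
  have e1 : a + b - d = u := by omega
  refine fc7 ⟨by omega, by omega, ?_, ?_⟩
  · rw [e1]
    have e2 : a / 6 = K := by omega
    exact Or.inr (Or.inl ⟨by omega, by omega⟩)
  · rw [e1]
    exact Or.inr (Or.inl ⟨hm, he⟩)

theorem g7_1_1 (K u : ℕ) (ha : a = 6 * K + 1) (hu : a + b = d + u) (h8 : 8 ≤ u)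
    (hp : 11 ≤ u ∨ a % 2 = 0 ∨ b % 2 = 0) (hb : u ≤ 10 * K + 1) (hm : u % 10 = 1) (he : e = 0) :
    FF a b d e := by
  have e1 : a + b - d = u := by omega
  refine fc7 ⟨by omega, by omega, ?_, ?_⟩
  · rw [e1]
    have e2 : a / 6 = K := by omega
    exact Or.inr (Or.inl ⟨by omega, by omega⟩)
  · rw [e1]
    exact Or.inr (Or.inr ⟨hm, he⟩)

theorem g7_2_4 (K u : ℕ) (ha : a = 6 * K + 2) (hu : a + b = d + u) (h8 : 8 ≤ u)
    (hp : 11 ≤ u ∨ a % 2 = 0 ∨ b % 2 = 0) (hb : u ≤ 10 * K + 4) (hm : u % 10 = 4) (he : e = 1) :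
    FF a b d e := by
  have e1 : a + b - d = u := by omega
  refine fc7 ⟨by omega, by omega, ?_, ?_⟩
  · rw [e1]
    have e2 : a / 6 = K := by omega
    exact Or.inr (Or.inr (Or.inl ⟨by omega, by omega⟩))
  · rw [e1]
    exact Or.inl ⟨hm, he⟩

theorem g7_2_8 (K u : ℕ) (ha : a = 6 * K + 2) (hu : a + b = d + u) (h8 : 8 ≤ u)
    (hp : 11 ≤ u ∨ a % 2 = 0 ∨ b % 2 = 0) (hb : u ≤ 10 * K + 4) (hm : u % 10 = 8) (he : e = 1) :
    FF a b d e := by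
  have e1 : a + b - d = u := by omega
  refine fc7 ⟨by omega, by omega, ?_, ?_⟩
  · rw [e1]
    have e2 : a / 6 = K := by omega
    exact Or.inr (Or.inr (Or.inl ⟨by omega, by omega⟩))
  · rw [e1]
    exact Or.inr (Or.inl ⟨hm, he⟩)

theorem g7_2_1 (K u : ℕ) (ha : a = 6 * K + 2) (hu : a + b = d + u) (h8 : 8 ≤ u)
    (hp : 11 ≤ u ∨ a % 2 = 0 ∨ b % 2 = 0) (hb : u ≤ 10 * K + 4) (hm : u % 10 = 1) (he : e = 0) :
    FF a b d e := by
  have e1 : a + b - d = u := by omega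
  refine fc7 ⟨by omega, by omega, ?_, ?_⟩
  · rw [e1]
    have e2 : a / 6 = K := by omega
    exact Or.inr (Or.inr (Or.inl ⟨by omega, by omega⟩))
  · rw [e1]
    exact Or.inr (Or.inr ⟨hm, he⟩)

theorem g7_3_4 (K u : ℕ) (ha : a = 6 * K + 3) (hu : a + b = d + u) (h8 : 8 ≤ u)
    (hp : 11 ≤ u ∨ a % 2 = 0 ∨ b % 2 = 0) (hb : u ≤ 10 * K + 4) (hm : u % 10 = 4) (he : e = 1) :
    FF a b d e := by
  have e1 : a + b - d = u := by omega
  refine fc7 ⟨by omega, by omega, ?_, ?_⟩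
  · rw [e1]
    have e2 : a / 6 = K := by omega
    exact Or.inr (Or.inr (Or.inr (Or.inl ⟨by omega, by omega⟩)))
  · rw [e1]
    exact Or.inl ⟨hm, he⟩

theorem g7_3_8 (K u : ℕ) (ha : a = 6 * K + 3) (hu : a + b = d + u) (h8 : 8 ≤ u)
    (hp : 11 ≤ u ∨ a % 2 = 0 ∨ b % 2 = 0) (hb : u ≤ 10 * K + 4) (hm : u % 10 = 8) (he : e = 1) :
    FF a b d e := by
  have e1 : a + b - d = u := by omega
  refine fc7 ⟨by omega, by omega, ?_, ?_⟩
  · rw [e1]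
    have e2 : a / 6 = K := by omega
    exact Or.inr (Or.inr (Or.inr (Or.inl ⟨by omega, by omega⟩)))
  · rw [e1]
    exact Or.inr (Or.inl ⟨hm, he⟩)

theorem g7_3_1 (K u : ℕ) (ha : a = 6 * K + 3) (hu : a + b = d + u) (h8 : 8 ≤ u)
    (hp : 11 ≤ u ∨ a % 2 = 0 ∨ b % 2 = 0) (hb : u ≤ 10 * K + 4) (hm : u % 10 = 1) (he : e = 0) :
    FF a b d e := by
  have e1 : a + b - d = u := by omega
  refine fc7 ⟨by omega, by omega, ?_, ?_⟩
  · rw [e1]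
    have e2 : a / 6 = K := by omega
    exact Or.inr (Or.inr (Or.inr (Or.inl ⟨by omega, by omega⟩)))
  · rw [e1]
    exact Or.inr (Or.inr ⟨hm, he⟩)

theorem g7_4_4 (K u : ℕ) (ha : a = 6 * K + 4) (hu : a + b = d + u) (h8 : 8 ≤ u)
    (hp : 11 ≤ u ∨ a % 2 = 0 ∨ b % 2 = 0) (hb : u ≤ 10 * K + 8) (hm : u % 10 = 4) (he : e = 1) :
    FF a b d e := by
  have e1 : a + b - d = u := by omega
  refine fc7 ⟨by omega, by omega, ?_, ?_⟩
  · rw [e1]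
    have e2 : a / 6 = K := by omega
    exact Or.inr (Or.inr (Or.inr (Or.inr (Or.inl ⟨by omega, by omega⟩))))
  · rw [e1]
    exact Or.inl ⟨hm, he⟩

theorem g7_4_8 (K u : ℕ) (ha : a = 6 * K + 4) (hu : a + b = d + u) (h8 : 8 ≤ u)
    (hp : 11 ≤ u ∨ a % 2 = 0 ∨ b % 2 = 0) (hb : u ≤ 10 * K + 8) (hm : u % 10 = 8) (he : e = 1) :
    FF a b d e := by
  have e1 : a + b - d = u := by omega
  refine fc7 ⟨by omega, by omega, ?_, ?_⟩
  · rw [e1]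
    have e2 : a / 6 = K := by omega
    exact Or.inr (Or.inr (Or.inr (Or.inr (Or.inl ⟨by omega, by omega⟩))))
  · rw [e1]
    exact Or.inr (Or.inl ⟨hm, he⟩)

theorem g7_4_1 (K u : ℕ) (ha : a = 6 * K + 4) (hu : a + b = d + u) (h8 : 8 ≤ u)
    (hp : 11 ≤ u ∨ a % 2 = 0 ∨ b % 2 = 0) (hb : u ≤ 10 * K + 8) (hm : u % 10 = 1) (he : e = 0) :
    FF a b d e := by
  have e1 : a + b - d = u := by omega
  refine fc7 ⟨by omega, by omega, ?_, ?_⟩
  · rw [e1]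
    have e2 : a / 6 = K := by omega
    exact Or.inr (Or.inr (Or.inr (Or.inr (Or.inl ⟨by omega, by omega⟩))))
  · rw [e1]
    exact Or.inr (Or.inr ⟨hm, he⟩)

theorem g7_5_4 (K u : ℕ) (ha : a = 6 * K + 5) (hu : a + b = d + u) (h8 : 8 ≤ u)
    (hp : 11 ≤ u ∨ a % 2 = 0 ∨ b % 2 = 0) (hb : u ≤ 10 * K + 8) (hm : u % 10 = 4) (he : e = 1) :
    FF a b d e := by
  have e1 : a + b - d = u := by omega
  refine fc7 ⟨by omega, by omega, ?_, ?_⟩
  · rw [e1]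
    have e2 : a / 6 = K := by omega
    exact Or.inr (Or.inr (Or.inr (Or.inr (Or.inr (⟨by omega, by omega⟩)))))
  · rw [e1]
    exact Or.inl ⟨hm, he⟩

theorem g7_5_8 (K u : ℕ) (ha : a = 6 * K + 5) (hu : a + b = d + u) (h8 : 8 ≤ u)
    (hp : 11 ≤ u ∨ a % 2 = 0 ∨ b % 2 = 0) (hb : u ≤ 10 * K + 8) (hm : u % 10 = 8) (he : e = 1) :
    FF a b d e := by
  have e1 : a + b - d = u := by omega
  refine fc7 ⟨by omega, by omega, ?_, ?_⟩
  · rw [e1]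
    have e2 : a / 6 = K := by omega
    exact Or.inr (Or.inr (Or.inr (Or.inr (Or.inr (⟨by omega, by omega⟩)))))
  · rw [e1]
    exact Or.inr (Or.inl ⟨hm, he⟩)

theorem g7_5_1 (K u : ℕ) (ha : a = 6 * K + 5) (hu : a + b = d + u) (h8 : 8 ≤ u)
    (hp : 11 ≤ u ∨ a % 2 = 0 ∨ b % 2 = 0) (hb : u ≤ 10 * K + 8) (hm : u % 10 = 1) (he : e = 0) :
    FF a b d e := by
  have e1 : a + b - d = u := by omega
  refine fc7 ⟨by omega, by omega, ?_, ?_⟩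
  · rw [e1]
    have e2 : a / 6 = K := by omega
    exact Or.inr (Or.inr (Or.inr (Or.inr (Or.inr (⟨by omega, by omega⟩)))))
  · rw [e1]
    exact Or.inr (Or.inr ⟨hm, he⟩)

theorem g9a (K : ℕ) (ha : a = 6 * K) (hb : b % 2 = 0) (hd : d % 2 = 1) (h1 : 2 * K ≤ d + 1)
    (h2 : d + 1 + a ≤ b + 2 * K) (hm : (a + b + 2 * e + 3 * d + 2 * K) % 4 = 1) :
    FF a b d e := by
  have e2 : a / 6 = K := by omega
  refine fc9 ⟨by omega, hb, Or.inr (by omega), hd, by omega, Or.inl ⟨Or.inl (by omega), by omega⟩, by omega⟩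

theorem g9b (K r : ℕ) (ha : a = 6 * K + r) (hr : r < 6) (hab : a < b) (hp : a % 2 = 0)
    (hb : b % 2 = 0) (hd : d % 2 = 1) (h1 : 2 * K ≤ d + 1)
    (h2 : d + 3 + a ≤ b + 2 * K) (hm : (a + b + 2 * e + 3 * d + 2 * K) % 4 = 1) :
    FF a b d e := by
  have e2 : a / 6 = K := by omega
  refine fc9 ⟨by omega, hb, Or.inl hab, hd, by omega, Or.inr (by omega), by omega⟩

theorem g9c (ha : a = 2) (hab : 2 < b) (hb : b % 2 = 0) (hd : d % 2 = 1)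
    (h2 : d + 1 + 2 ≤ b) (hm : (a + b + 2 * e + 3 * d) % 4 = 1) :
    FF a b d e := by
  have e2 : a / 6 = 0 := by omega
  refine fc9 ⟨by omega, hb, Or.inl (by omega), hd, by omega, Or.inl ⟨Or.inr (by omega), by omega⟩, by omega⟩

theorem g10a (K : ℕ) (ha : a = 6 * K) (hb : b % 2 = 1) (hd : d % 2 = 0) (h1 : 2 * K ≤ d)
    (h2 : d + 1 + a ≤ b + 2 * K) (hm : (a + b + 2 * e + 3 * d + 2 * K) % 4 = 1) :
    FF a b d e := by
  have e2 : a / 6 = K := by omega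
  refine fc10 ⟨by omega, hb, hd, by omega, Or.inl ⟨Or.inl (by omega), by omega⟩, by omega⟩

theorem g10b (K r : ℕ) (ha : a = 6 * K + r) (hr : r < 6) (hp : a % 2 = 0)
    (hb : b % 2 = 1) (hd : d % 2 = 0) (h1 : 2 * K ≤ d)
    (h2 : d + 3 + a ≤ b + 2 * K) (hm : (a + b + 2 * e + 3 * d + 2 * K) % 4 = 1) :
    FF a b d e := by
  have e2 : a / 6 = K := by omega
  refine fc10 ⟨by omega, hb, hd, by omega, Or.inr (by omega), by omega⟩

theorem g10c (ha : a = 2) (hb : b % 2 = 1) (hd : d % 2 = 0)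
    (h2 : d + 1 + 2 ≤ b) (hm : (a + b + 2 * e + 3 * d) % 4 = 1) :
    FF a b d e := by
  have e2 : a / 6 = 0 := by omega
  refine fc10 ⟨by omega, hb, hd, by omega, Or.inl ⟨Or.inr (by omega), by omega⟩, by omega⟩

theorem w1_0 (K u : ℕ) (ha : a = 6 * K + 0) (hu : a + b = d + u) (h7 : 7 ≤ u)
    (hm : u % 10 = 7) (he : e = 0) (hb : u + 3 ≤ 10 * K) (hn : ¬ (u = 7 ∧ a % 2 = 1 ∧ b % 2 = 1)) :
    Wk a b d e := by
  have e1 : a + b - d = u := by omega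
  have e2 : a / 6 = K := by omega
  refine wk1 ⟨by omega, by omega, he, ?_, by omega⟩
  rw [e1]
  exact Or.inl ⟨by omega, by omega⟩

theorem w1_1 (K u : ℕ) (ha : a = 6 * K + 1) (hu : a + b = d + u) (h7 : 7 ≤ u)
    (hm : u % 10 = 7) (he : e = 0) (hb : u + 1 ≤ 10 * K + 1) (hn : ¬ (u = 7 ∧ a % 2 = 1 ∧ b % 2 = 1)) :
    Wk a b d e := by
  have e1 : a + b - d = u := by omega
  have e2 : a / 6 = K := by omega
  refine wk1 ⟨by omega, by omega, he, ?_, by omega⟩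
  rw [e1]
  exact Or.inr (Or.inl ⟨by omega, by omega⟩)

theorem w1_2 (K u : ℕ) (ha : a = 6 * K + 2) (hu : a + b = d + u) (h7 : 7 ≤ u)
    (hm : u % 10 = 7) (he : e = 0) (hb : u + 1 ≤ 10 * K + 4) (hn : ¬ (u = 7 ∧ a % 2 = 1 ∧ b % 2 = 1)) :
    Wk a b d e := by
  have e1 : a + b - d = u := by omega
  have e2 : a / 6 = K := by omega
  refine wk1 ⟨by omega, by omega, he, ?_, by omega⟩
  rw [e1]
  exact Or.inr (Or.inr (Or.inl ⟨by omega, by omega⟩))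

theorem w1_3 (K u : ℕ) (ha : a = 6 * K + 3) (hu : a + b = d + u) (h7 : 7 ≤ u)
    (hm : u % 10 = 7) (he : e = 0) (hb : u + 1 ≤ 10 * K + 4) (hn : ¬ (u = 7 ∧ a % 2 = 1 ∧ b % 2 = 1)) :
    Wk a b d e := by
  have e1 : a + b - d = u := by omega
  have e2 : a / 6 = K := by omega
  refine wk1 ⟨by omega, by omega, he, ?_, by omega⟩
  rw [e1]
  exact Or.inr (Or.inr (Or.inr (Or.inl ⟨by omega, by omega⟩)))

theorem w1_4 (K u : ℕ) (ha : a = 6 * K + 4) (hu : a + b = d + u) (h7 : 7 ≤ u)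
    (hm : u % 10 = 7) (he : e = 0) (hb : u + 1 ≤ 10 * K + 8) (hn : ¬ (u = 7 ∧ a % 2 = 1 ∧ b % 2 = 1)) :
    Wk a b d e := by
  have e1 : a + b - d = u := by omega
  have e2 : a / 6 = K := by omega
  refine wk1 ⟨by omega, by omega, he, ?_, by omega⟩
  rw [e1]
  exact Or.inr (Or.inr (Or.inr (Or.inr (Or.inl ⟨by omega, by omega⟩))))

theorem w1_5 (K u : ℕ) (ha : a = 6 * K + 5) (hu : a + b = d + u) (h7 : 7 ≤ u)
    (hm : u % 10 = 7) (he : e = 0) (hb : u + 1 ≤ 10 * K + 8) (hn : ¬ (u = 7 ∧ a % 2 = 1 ∧ b % 2 = 1)) :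
    Wk a b d e := by
  have e1 : a + b - d = u := by omega
  have e2 : a / 6 = K := by omega
  refine wk1 ⟨by omega, by omega, he, ?_, by omega⟩
  rw [e1]
  exact Or.inr (Or.inr (Or.inr (Or.inr (Or.inr (⟨by omega, by omega⟩)))))

theorem w3 (K u r : ℕ) (ha : a = 6 * K + r) (hu : a + b = d + u) (hb : b % 2 = 1) (h4 : 4 ≤ a)
    (h3 : a + 3 ≤ b) (he : e = 0) (hr : (r = 2 ∧ u = 10 * K + 6) ∨ (r = 4 ∧ u = 10 * K + 10))
    (hp : a % 2 = 0) : Wk a b d e := by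
  have e2 : a / 6 = K := by omega
  refine wk3 ⟨hp, hb, h4, h3, he, ?_⟩
  rcases hr with ⟨h, h'⟩ | ⟨h, h'⟩
  · exact Or.inl ⟨by omega, by omega⟩
  · exact Or.inr ⟨by omega, by omega⟩

end Pool.Agent.SNT.Dm
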