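import Pool.Agent.SNT.PL

set_option autoImplicit false
set_option synthInstance.maxSize 100000
set_option synthInstance.maxHeartbeats 4000000

/-! Four near-wall cells of `6 k + 1` in the row `c` are zero (leads `n + 1`, `n - 4`, `n - 7`). -/

namespace Pool.Agent.SNT.E1P1

open Pool.Agent.SNT Pool.Agent.SNT.Sig Pool.Agent.SNT.Loc Pool.Agent.SNT.LW Pool.Agent.SNT.NHZ Pool.Agent.SNT.DRun
open Pool.Agent.SNT.PB Pool.Agent.SNT.D1E

variable {f : ℕ → ℕ → ℕ → ℕ → Prop}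

theorem p1a_chk : check 7 8 10 17 0 0 1 0 0
    (fun j n p q => decide ((j = 2 ∧ n = 1 ∧ q ≤ p + 7 ∧ p + 1 ≤ q ∧ ((p + q + 1) % 2 = 0 ∧ q ≤ p + 1 ∧ (p + q + 3) % 4 = 0))
      ∨ (j = 2 ∧ n = 2 ∧ q ≤ p + 1 ∧ (((p + q + 1) % 2 = 1 ∧ p + 2 ≤ q ∧ p % 2 = 1) ∨ ((p + q + 1) % 2 = 1 ∧ q ≤ p + 2 ∧ (p + q + 0) % 4 = 0)))
      ∨ (j = 4 ∧ n = 2 ∧ q ≤ p + 7 ∧ (((p + q + 1) % 2 = 1 ∧ p + 2 ≤ q ∧ p % 2 = 0) ∨ ((p + q + 1) % 2 = 1 ∧ q ≤ p + 2 ∧ (p + q + 2) % 4 = 0)))
      ∨ (j = 4 ∧ n = 3 ∧ q ≤ p + 7 ∧ p + 1 ≤ q ∧ ((p + q + 1) % 2 = 0 ∧ q ≤ p + 1 ∧ (p + q + 3) % 4 = 0))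
      ∨ (j = 4 ∧ n = 4 ∧ q ≤ p + 1 ∧ (((p + q + 1) % 2 = 1 ∧ p + 2 ≤ q ∧ p % 2 = 1) ∨ ((p + q + 1) % 2 = 1 ∧ q ≤ p + 2 ∧ (p + q + 0) % 4 = 0)))
      ∨ (j = 6 ∧ n = 4 ∧ 6 ≤ p ∧ q ≤ p + 7 ∧ (((p + q + 1) % 2 = 1 ∧ p + 2 ≤ q ∧ p % 2 = 0) ∨ ((p + q + 1) % 2 = 1 ∧ q ≤ p + 2 ∧ (p + q + 2) % 4 = 0)))
      ∨ (j = 6 ∧ n = 5 ∧ 7 ≤ p ∧ q ≤ p + 7 ∧ p + 1 ≤ q ∧ ((p + q + 1) % 2 = 0 ∧ q ≤ p + 1 ∧ (p + q + 3) % 4 = 0))
      ∨ (j = 6 ∧ n = 1 ∧ q ≤ p + 7 ∧ p + 1 ≤ q ∧ ((p + q + 1) % 2 = 0 ∧ q ≤ p + 1 ∧ (p + q + 3) % 4 = 0))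
      ∨ (j = 6 ∧ n = 2 ∧ q ≤ p + 1 ∧ (((p + q + 1) % 2 = 1 ∧ p + 2 ≤ q ∧ p % 2 = 1) ∨ ((p + q + 1) % 2 = 1 ∧ q ≤ p + 2 ∧ (p + q + 0) % 4 = 0)))
      ∨ (j = 3 ∧ n = 6 ∧ p = 1 ∧ q = 8)))
    (fun j n p q => decide ((j = 2 ∧ n = 1 ∧ q ≤ p + 7 ∧ p + 1 ≤ q ∧ ¬ ((p + q + 1) % 2 = 0 ∧ q ≤ p + 1 ∧ (p + q + 3) % 4 = 0))
      ∨ (j = 2 ∧ n = 2 ∧ q ≤ p + 1 ∧ ¬ (((p + q + 1) % 2 = 1 ∧ p + 2 ≤ q ∧ p % 2 = 1) ∨ ((p + q + 1) % 2 = 1 ∧ q ≤ p + 2 ∧ (p + q + 0) % 4 = 0)))
      ∨ (j = 4 ∧ n = 2 ∧ q ≤ p + 7 ∧ ¬ (((p + q + 1) % 2 = 1 ∧ p + 2 ≤ q ∧ p % 2 = 0) ∨ ((p + q + 1) % 2 = 1 ∧ q ≤ p + 2 ∧ (p + q + 2) % 4 = 0)))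
      ∨ (j = 4 ∧ n = 3 ∧ q ≤ p + 7 ∧ p + 1 ≤ q ∧ ¬ ((p + q + 1) % 2 = 0 ∧ q ≤ p + 1 ∧ (p + q + 3) % 4 = 0))
      ∨ (j = 4 ∧ n = 4 ∧ q ≤ p + 1 ∧ ¬ (((p + q + 1) % 2 = 1 ∧ p + 2 ≤ q ∧ p % 2 = 1) ∨ ((p + q + 1) % 2 = 1 ∧ q ≤ p + 2 ∧ (p + q + 0) % 4 = 0)))
      ∨ (j = 6 ∧ n = 5 ∧ 7 ≤ p ∧ q ≤ p + 7 ∧ p + 1 ≤ q ∧ ¬ ((p + q + 1) % 2 = 0 ∧ q ≤ p + 1 ∧ (p + q + 3) % 4 = 0))
      ∨ (j = 6 ∧ n = 1 ∧ q ≤ p + 7 ∧ p + 1 ≤ q ∧ ¬ ((p + q + 1) % 2 = 0 ∧ q ≤ p + 1 ∧ (p + q + 3) % 4 = 0))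
      ∨ (j = 6 ∧ n = 2 ∧ q ≤ p + 1 ∧ ¬ (((p + q + 1) % 2 = 1 ∧ p + 2 ≤ q ∧ p % 2 = 1) ∨ ((p + q + 1) % 2 = 1 ∧ q ≤ p + 2 ∧ (p + q + 0) % 4 = 0)))
      ∨ (j = 1 ∧ n = 5 ∧ q ≤ p + 7)
      ∨ (j = 1 ∧ n = 4 ∧ q ≤ p + 7)
      ∨ (j = 1 ∧ n = 3 ∧ q ≤ p + 7)
      ∨ (j = 1 ∧ n = 2 ∧ q ≤ p + 7)
      ∨ (j = 1 ∧ n = 1 ∧ q ≤ p + 7)
      ∨ (j = 1 ∧ n = 6 ∧ q ≤ p + 7)
      ∨ (j = 5 ∧ n = 6 ∧ 3 ≤ p ∧ q ≤ p + 7 ∧ p + 6 ≤ q)
      ∨ (j = 7 ∧ n = 6 ∧ 3 ≤ p ∧ q ≤ p + 7 ∧ p + 5 ≤ q)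
      ∨ (j = 3 ∧ n = 2 ∧ q ≤ p + 7 ∧ p + 5 ≤ q)
      ∨ (j = 7 ∧ n = 2 ∧ q ≤ p + 7 ∧ p + 3 ≤ q)
      ∨ (j = 3 ∧ n = 4 ∧ q ≤ p + 7 ∧ p + 6 ≤ q)
      ∨ (j = 5 ∧ n = 4 ∧ q ≤ p + 7 ∧ p + 5 ≤ q)
      ∨ (j = 2 ∧ n = 3 ∧ q ≤ p + 7 ∧ p + 6 ≤ q)
      ∨ (j = 3 ∧ n = 3 ∧ q ≤ p + 7 ∧ p + 6 ≤ q)
      ∨ (j = 3 ∧ n = 1 ∧ q ≤ p + 7 ∧ p + 5 ≤ q)
      ∨ (j = 5 ∧ n = 3 ∧ q ≤ p + 7 ∧ p + 5 ≤ q)
      ∨ (j = 6 ∧ n = 3 ∧ q ≤ p + 7 ∧ p + 4 ≤ q)
      ∨ (j = 7 ∧ n = 1 ∧ q ≤ p + 7 ∧ p + 3 ≤ q)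
      ∨ (j = 2 ∧ n = 5 ∧ q ≤ p + 7 ∧ p + 7 ≤ q)
      ∨ (j = 3 ∧ n = 5 ∧ q ≤ p + 7 ∧ p + 7 ≤ q)
      ∨ (j = 4 ∧ n = 5 ∧ q ≤ p + 7 ∧ p + 6 ≤ q)
      ∨ (j = 5 ∧ n = 5 ∧ q ≤ p + 7 ∧ p + 6 ≤ q)
      ∨ (j = 6 ∧ n = 5 ∧ q ≤ p + 7 ∧ p + 5 ≤ q)
      ∨ (j = 7 ∧ n = 5 ∧ q ≤ p + 7 ∧ p + 5 ≤ q)
      ∨ (j = 7 ∧ n = 5 ∧ 5 ≤ p ∧ q ≤ p + 7 ∧ p + 3 ≤ q)
      ∨ (j = 7 ∧ n = 6 ∧ 5 ≤ p ∧ q ≤ p + 7 ∧ p + 3 ≤ q)
      ∨ (j = 7 ∧ n = 4 ∧ q ≤ p + 7 ∧ p + 2 ≤ q)
      ∨ (j = 7 ∧ n = 3 ∧ q ≤ p + 7 ∧ p + 2 ≤ q)))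
    477
    0xc88830cde000f86ca0ccd000f75ca0c12000c1a920c34000c23000edc420ed3d20c88830cde000f86ca0ccd000f75ca0c1a800c23120c2b800c2b84061f83091d00091d04062083091d80091d84098b0309e00009e00414df830f86800f868406ca030972000972040ec1830c1a000c1a040ed3830c81000c8104072f8309d78009d7840ec28309698009698414ce830f75800f7584061703066c00066c040cbc000cbc010eb9830c66800c6684061f83067500067504067e0309260009260414ce030f75000f75040ec2830f17800f1784076c030a14000a14040ed383097a80097a84070e0309b60009b604061f8306200006200407168309be8009be8407388309e08009e0840edc030c89000c89040620830675800675840763030a13800a1384061f830674800674840f30830f86000f860406ca830972800972840ed3830f28800f2884141b030ec2000ec20414c5830f6c800f6c840eb8030eb8800eb884141b030ec2000ecb1a0c78000c780414d7030f7e000f7e040ecb830f20800f208408bf83066c80066c840ed4030f29000f29040edc030f31800f318406da8309828009828411730311c80011c804067d830925800925840ed3830c80800c8084141a830ec18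00ec1841412030eb9000eb90407170309bf0009bf040edc030c89800c8984066c83091480091484067c83067d00067d04062903067e00067e0410b7001367d210c80011263a0b22800b80ba11e180118d00117c00117b0010d000107b801069800c3c000c2a000bd5800bc3800bb1800b89000b82000b81000b70000b6f000b5e000b5d000a0280063000061e0005db8005c98014df8714d70714d68714ce8714ce0714cd8714c60714c58714c50714bd0714bc87148a87148207148187147987147907147887147107147087147007146807146787141b07141a87141a0714128714120714118714098714090713c60713c58713c50713bd8713bd0713bc8713b48713b407136787135f07135e87131287130a07130987122e87121d8711e28711e20711e18f11da0711d98711d18711c90711c88711c00711bf87118d0f117c0f117b0f117287116187111e07111587111507110c87110c0710d08710d00f10c88710b687107b8f106a87106a0710698f1062071061870f6d070f18070ecb870ec3070ec2870eba070eb9870eb1070eb0870e76870e6e070e6d870e65070e64870e5c070e5b870cde870ccd870cbb870c70070c67070c5e870c5e070c3c0f0c33870c33070c2a870c2a0f0c2387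0c22870c11870c10870c0f870bdf070bde870bd7070bd6870bd6070bd58f0bce870bce070bcd870bc6070bc5870bc5070bc4870bc4070bc38f0bbd070bbc870bbc070bbb870bbb070bba870bb4070bb3870bb2870bb2070bb18f0b890f0b820f0b810f0b80870b80070b78070b77870b700f0b6f0f0b5e0f0b5d0f0a028f09b687096a0709150708bf8708b70708b687086a87086207086187076b87075a87070e8707058706e38706e28706d18706c18706b087066d0706640706300f062887062787062707061e87061e0f06178706168705db8f05d40705d38705cb8705cb0705ca8705ca0705c98f05c30705c28705c20705c18705ba0705b98705b90704c40704c38704bb8704bb0704ba8704b28704b207049087049007048807048787048707047f07047e87046f07046e87046e07046687046607046587045d87045d07043b87043b07043307043287043207042a07042987042287042207042187041a0704198704190704118704110704108704088704080703dd8703dd0703d60703d58703d50703d48703d40703cd8703cd0703cc8703cc0703cb8703c50703c48703c40703bc0703bb87038107038087038007037f87037f07037887037807037787037707037687037007036f87036f07036e87036707036687036607032c07032b87032387032307032287032207031b07031a87031a07031987031187031107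 = true := by
  decide +kernel

theorem p1a (hf : Rule f) {k c n M : ℕ} (H : PL f k c n M) (hM4 : M + 4 = n) : ¬ f (6 * k + 1) c (2 * n) (2 * n + 6 - 2 * k) := by
  intro h0
  have hk := H.T.hk
  have hc := H.T.hc
  have h4' := H.T.h4
  have hb := H.T.hb
  have hN := H.T.hN2
  obtain ⟨a0, ha0⟩ : ∃ z, z + 2 = 6 * k := ⟨6 * k - (2), by omega⟩
  obtain ⟨b0, hb0⟩ : ∃ z, z + 6 = c := ⟨c - (6), by omega⟩
  obtain ⟨x0, hx0⟩ : ∃ z, z + 1 = 2 * n := ⟨2 * n - (1), by omega⟩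
  obtain ⟨y0, hy0⟩ : ∃ z, z + 2 * k + 2 = 2 * n := ⟨2 * n - (2 * k + 2), by omega⟩
  refine check_sound hf (a0 := a0) (b0 := b0) (x0 := x0) (y0 := y0) p1a_chk
    ⟨fun h => absurd h (by decide), fun h => absurd h (by decide), fun h => absurd h (by decide), by omega, by omega,
      by omega, by omega⟩ ?_ ?_
  · intro j m p q hr h
    obtain ⟨-, -, -, -, hp1, hp2, hq1, hq2⟩ := hr
    replace h := of_decide_eq_true h
    rcases h with h | h | h | h | h | h | h | h | h | h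
    · obtain ⟨rfl, rfl, h⟩ := h
      exact (WrapC.v1 H.c0 (by omega) (by omega) (by omega) (by omega) (by omega) (by omega) (by omega) (by omega)).mpr (by omega)
    · obtain ⟨rfl, rfl, h⟩ := h
      exact (WrapC.v2 H.c0 (by omega) (by omega) (by omega) (by omega) (by omega) (by omega) (by omega)).mpr (by omega)
    · obtain ⟨rfl, rfl, h⟩ := h
      exact (WrapC.v0 H.c2 (by omega) (by omega) (by omega) (by omega) (by omega) (by omega) (by omega)).mpr (by omega)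
    · obtain ⟨rfl, rfl, h⟩ := h
      exact (WrapC.v1 H.c2 (by omega) (by omega) (by omega) (by omega) (by omega) (by omega) (by omega) (by omega)).mpr (by omega)
    · obtain ⟨rfl, rfl, h⟩ := h
      exact (WrapC.v2 H.c2 (by omega) (by omega) (by omega) (by omega) (by omega) (by omega) (by omega)).mpr (by omega)
    · obtain ⟨rfl, rfl, h⟩ := h
      exact (WrapC.v0 H.c4 (by omega) (by omega) (by omega) (by omega) (by omega) (by omega) (by omega)).mpr (by omega)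
    · obtain ⟨rfl, rfl, h⟩ := h
      exact (WrapC.v1 H.c4 (by omega) (by omega) (by omega) (by omega) (by omega) (by omega) (by omega) (by omega)).mpr (by omega)
    · obtain ⟨rfl, rfl, h⟩ := h
      exact (WrapC.v1 H.c4a (by omega) (by omega) (by omega) (by omega) (by omega) (by omega) (by omega) (by omega)).mpr (by omega)
    · obtain ⟨rfl, rfl, h⟩ := h
      exact (WrapC.v2 H.c4a (by omega) (by omega) (by omega) (by omega) (by omega) (by omega) (by omega)).mpr (by omega)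
    · obtain ⟨rfl, rfl, rfl, rfl⟩ := h
      exact mv h0 (by omega) (by omega) (by omega) (by omega)
  · intro j m p q hr h
    obtain ⟨-, -, -, -, hp1, hp2, hq1, hq2⟩ := hr
    replace h := of_decide_eq_true h
    rcases h with h | h | h | h | h | h | h | h | h | h | h | h | h | h | h | h | h | h | h | h | h | h | h | h | h | h | h | h | h | h | h | h | h | h | h | h
    · obtain ⟨rfl, rfl, h⟩ := h
      exact mt (WrapC.v1 H.c0 (by omega) (by omega) (by omega) (by omega) (by omega) (by omega) (by omega) (by omega)).mp (by omega)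
    · obtain ⟨rfl, rfl, h⟩ := h
      exact mt (WrapC.v2 H.c0 (by omega) (by omega) (by omega) (by omega) (by omega) (by omega) (by omega)).mp (by omega)
    · obtain ⟨rfl, rfl, h⟩ := h
      exact mt (WrapC.v0 H.c2 (by omega) (by omega) (by omega) (by omega) (by omega) (by omega) (by omega)).mp (by omega)
    · obtain ⟨rfl, rfl, h⟩ := h
      exact mt (WrapC.v1 H.c2 (by omega) (by omega) (by omega) (by omega) (by omega) (by omega) (by omega) (by omega)).mp (by omega)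
    · obtain ⟨rfl, rfl, h⟩ := h
      exact mt (WrapC.v2 H.c2 (by omega) (by omega) (by omega) (by omega) (by omega) (by omega) (by omega)).mp (by omega)
    · obtain ⟨rfl, rfl, h⟩ := h
      exact mt (WrapC.v1 H.c4 (by omega) (by omega) (by omega) (by omega) (by omega) (by omega) (by omega) (by omega)).mp (by omega)
    · obtain ⟨rfl, rfl, h⟩ := h
      exact mt (WrapC.v1 H.c4a (by omega) (by omega) (by omega) (by omega) (by omega) (by omega) (by omega) (by omega)).mp (by omega)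
    · obtain ⟨rfl, rfl, h⟩ := h
      exact mt (WrapC.v2 H.c4a (by omega) (by omega) (by omega) (by omega) (by omega) (by omega) (by omega)).mp (by omega)
    · obtain ⟨rfl, rfl, h⟩ := h
      exact H.lw _ _ _ _ (by omega) (by omega) (by omega) (by omega) (by omega) (by omega)
    · obtain ⟨rfl, rfl, h⟩ := h
      exact H.lw _ _ _ _ (by omega) (by omega) (by omega) (by omega) (by omega) (by omega)
    · obtain ⟨rfl, rfl, h⟩ := h
      exact H.lw _ _ _ _ (by omega) (by omega) (by omega) (by omega) (by omega) (by omega)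
    · obtain ⟨rfl, rfl, h⟩ := h
      exact H.lw _ _ _ _ (by omega) (by omega) (by omega) (by omega) (by omega) (by omega)
    · obtain ⟨rfl, rfl, h⟩ := h
      exact H.lw _ _ _ _ (by omega) (by omega) (by omega) (by omega) (by omega) (by omega)
    · obtain ⟨rfl, rfl, h⟩ := h
      exact H.lw _ _ _ _ (by omega) (by omega) (by omega) (by omega) (by omega) (by omega)
    · obtain ⟨rfl, rfl, h⟩ := h
      exact NHT.p0i hf H.T (j := 3) (by omega) (by omega) (by omega) (by omega) (by omega) (by omega)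
    · obtain ⟨rfl, rfl, h⟩ := h
      exact NHT.p0i hf H.T (j := 2) (by omega) (by omega) (by omega) (by omega) (by omega) (by omega)
    · obtain ⟨rfl, rfl, h⟩ := h
      exact NHT.pIn hf H.T (t := 3) (j := 2) (by omega) (by omega) (by omega) (by omega) (by omega) (by omega) (by omega)
    · obtain ⟨rfl, rfl, h⟩ := h
      exact NHT.pIn hf H.T (t := 3) (j := 0) (by omega) (by omega) (by omega) (by omega) (by omega) (by omega) (by omega)
    · obtain ⟨rfl, rfl, h⟩ := h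
      exact NHT.pmi hf H.T (j := 3) (by omega) (by omega) (by omega) (by omega) (by omega) (by omega)
    · obtain ⟨rfl, rfl, h⟩ := h
      exact NHT.pmi hf H.T (j := 2) (by omega) (by omega) (by omega) (by omega) (by omega) (by omega)
    · obtain ⟨rfl, rfl, h⟩ := h
      exact NHT.rIn hf H.T (t := 3) (p := 0) (j := 3) (by omega) (by omega) (by omega) (by omega) (by omega) (by omega) (by omega) (by omega)
    · obtain ⟨rfl, rfl, h⟩ := h
      exact NHT.rIn hf H.T (t := 3) (p := 1) (j := 3) (by omega) (by omega) (by omega) (by omega) (by omega) (by omega) (by omega) (by omega)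
    · obtain ⟨rfl, rfl, h⟩ := h
      exact NHT.rIn hf H.T (t := 2) (p := 1) (j := 2) (by omega) (by omega) (by omega) (by omega) (by omega) (by omega) (by omega) (by omega)
    · obtain ⟨rfl, rfl, h⟩ := h
      exact NHT.rIn hf H.T (t := 3) (p := 1) (j := 2) (by omega) (by omega) (by omega) (by omega) (by omega) (by omega) (by omega) (by omega)
    · obtain ⟨rfl, rfl, h⟩ := h
      exact NHT.rIn hf H.T (t := 3) (p := 0) (j := 1) (by omega) (by omega) (by omega) (by omega) (by omega) (by omega) (by omega) (by omega)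
    · obtain ⟨rfl, rfl, h⟩ := h
      exact NHT.rIn hf H.T (t := 2) (p := 1) (j := 0) (by omega) (by omega) (by omega) (by omega) (by omega) (by omega) (by omega) (by omega)
    · obtain ⟨rfl, rfl, h⟩ := h
      exact fun t => NHT.rm1i hf H.T (p := 0) (j := 4) (by omega) (by omega) (by omega) (by omega) (by omega) (by omega) (mv t rfl (by omega) rfl rfl)
    · obtain ⟨rfl, rfl, h⟩ := h
      exact fun t => NHT.rm1i hf H.T (p := 1) (j := 4) (by omega) (by omega) (by omega) (by omega) (by omega) (by omega) (mv t rfl (by omega) rfl rfl)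
    · obtain ⟨rfl, rfl, h⟩ := h
      exact fun t => NHT.rm1i hf H.T (p := 0) (j := 3) (by omega) (by omega) (by omega) (by omega) (by omega) (by omega) (mv t rfl (by omega) rfl rfl)
    · obtain ⟨rfl, rfl, h⟩ := h
      exact fun t => NHT.rm1i hf H.T (p := 1) (j := 3) (by omega) (by omega) (by omega) (by omega) (by omega) (by omega) (mv t rfl (by omega) rfl rfl)
    · obtain ⟨rfl, rfl, h⟩ := h
      exact fun t => NHT.rm1i hf H.T (p := 0) (j := 2) (by omega) (by omega) (by omega) (by omega) (by omega) (by omega) (mv t rfl (by omega) rfl rfl)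
    · obtain ⟨rfl, rfl, h⟩ := h
      exact fun t => NHT.rm1i hf H.T (p := 1) (j := 2) (by omega) (by omega) (by omega) (by omega) (by omega) (by omega) (mv t rfl (by omega) rfl rfl)
    · obtain ⟨rfl, rfl, h⟩ := h
      exact NHU.p0i hf H.U (j := 2) (by omega) (by omega) (by omega) (by omega) (by omega) (by omega)
    · obtain ⟨rfl, rfl, h⟩ := h
      exact NHU.p0i hf H.U (j := 2) (by omega) (by omega) (by omega) (by omega) (by omega) (by omega)
    · obtain ⟨rfl, rfl, h⟩ := h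
      exact NHU.pmi hf H.U (j := 1) (by omega) (by omega) (by omega) (by omega) (by omega) (by omega)
    · obtain ⟨rfl, rfl, h⟩ := h
      exact NHU.pmi hf H.U (j := 1) (by omega) (by omega) (by omega) (by omega) (by omega) (by omega)

theorem p1b_chk : check 9 8 10 20 0 0 1 1 0
    (fun j n p q => decide ((j = 2 ∧ n = 1 ∧ q ≤ p + 10 ∧ p + 2 ≤ q ∧ ((p + q + 0) % 2 = 0 ∧ q ≤ p + 2 ∧ (p + q + 2) % 4 = 0))
      ∨ (j = 2 ∧ n = 2 ∧ q ≤ p + 2 ∧ (((p + q + 0) % 2 = 1 ∧ p + 3 ≤ q ∧ p % 2 = 1) ∨ ((p + q + 0) % 2 = 1 ∧ q ≤ p + 3 ∧ (p + q + 3) % 4 = 0)))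
      ∨ (j = 4 ∧ n = 2 ∧ q ≤ p + 10 ∧ (((p + q + 0) % 2 = 1 ∧ p + 3 ≤ q ∧ p % 2 = 0) ∨ ((p + q + 0) % 2 = 1 ∧ q ≤ p + 3 ∧ (p + q + 1) % 4 = 0)))
      ∨ (j = 4 ∧ n = 3 ∧ q ≤ p + 10 ∧ p + 2 ≤ q ∧ ((p + q + 0) % 2 = 0 ∧ q ≤ p + 2 ∧ (p + q + 2) % 4 = 0))
      ∨ (j = 4 ∧ n = 4 ∧ q ≤ p + 2 ∧ (((p + q + 0) % 2 = 1 ∧ p + 3 ≤ q ∧ p % 2 = 1) ∨ ((p + q + 0) % 2 = 1 ∧ q ≤ p + 3 ∧ (p + q + 3) % 4 = 0)))
      ∨ (j = 6 ∧ n = 4 ∧ 6 ≤ p ∧ q ≤ p + 10 ∧ (((p + q + 0) % 2 = 1 ∧ p + 3 ≤ q ∧ p % 2 = 0) ∨ ((p + q + 0) % 2 = 1 ∧ q ≤ p + 3 ∧ (p + q + 1) % 4 = 0)))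
      ∨ (j = 6 ∧ n = 5 ∧ 7 ≤ p ∧ q ≤ p + 10 ∧ p + 2 ≤ q ∧ ((p + q + 0) % 2 = 0 ∧ q ≤ p + 2 ∧ (p + q + 2) % 4 = 0))
      ∨ (j = 6 ∧ n = 1 ∧ q ≤ p + 10 ∧ p + 2 ≤ q ∧ ((p + q + 0) % 2 = 0 ∧ q ≤ p + 2 ∧ (p + q + 2) % 4 = 0))
      ∨ (j = 6 ∧ n = 2 ∧ q ≤ p + 2 ∧ (((p + q + 0) % 2 = 1 ∧ p + 3 ≤ q ∧ p % 2 = 1) ∨ ((p + q + 0) % 2 = 1 ∧ q ≤ p + 3 ∧ (p + q + 3) % 4 = 0)))
      ∨ (j = 8 ∧ n = 2 ∧ q ≤ p + 10 ∧ (((p + q + 0) % 2 = 1 ∧ p + 1 ≤ q ∧ p % 2 = 0) ∨ ((p + q + 0) % 2 = 1 ∧ q ≤ p + 1 ∧ (p + q + 1) % 4 = 2)))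
      ∨ (j = 3 ∧ n = 6 ∧ p = 1 ∧ q = 11)))
    (fun j n p q => decide ((j = 2 ∧ n = 1 ∧ q ≤ p + 10 ∧ p + 2 ≤ q ∧ ¬ ((p + q + 0) % 2 = 0 ∧ q ≤ p + 2 ∧ (p + q + 2) % 4 = 0))
      ∨ (j = 2 ∧ n = 2 ∧ q ≤ p + 2 ∧ ¬ (((p + q + 0) % 2 = 1 ∧ p + 3 ≤ q ∧ p % 2 = 1) ∨ ((p + q + 0) % 2 = 1 ∧ q ≤ p + 3 ∧ (p + q + 3) % 4 = 0)))
      ∨ (j = 4 ∧ n = 3 ∧ q ≤ p + 10 ∧ p + 2 ≤ q ∧ ¬ ((p + q + 0) % 2 = 0 ∧ q ≤ p + 2 ∧ (p + q + 2) % 4 = 0))
      ∨ (j = 4 ∧ n = 4 ∧ q ≤ p + 2 ∧ ¬ (((p + q + 0) % 2 = 1 ∧ p + 3 ≤ q ∧ p % 2 = 1) ∨ ((p + q + 0) % 2 = 1 ∧ q ≤ p + 3 ∧ (p + q + 3) % 4 = 0)))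
      ∨ (j = 6 ∧ n = 5 ∧ 7 ≤ p ∧ q ≤ p + 10 ∧ p + 2 ≤ q ∧ ¬ ((p + q + 0) % 2 = 0 ∧ q ≤ p + 2 ∧ (p + q + 2) % 4 = 0))
      ∨ (j = 6 ∧ n = 1 ∧ q ≤ p + 10 ∧ p + 2 ≤ q ∧ ¬ ((p + q + 0) % 2 = 0 ∧ q ≤ p + 2 ∧ (p + q + 2) % 4 = 0))
      ∨ (j = 6 ∧ n = 2 ∧ q ≤ p + 2 ∧ ¬ (((p + q + 0) % 2 = 1 ∧ p + 3 ≤ q ∧ p % 2 = 1) ∨ ((p + q + 0) % 2 = 1 ∧ q ≤ p + 3 ∧ (p + q + 3) % 4 = 0)))
      ∨ (j = 1 ∧ n = 5 ∧ q ≤ p + 10)
      ∨ (j = 1 ∧ n = 4 ∧ q ≤ p + 10)
      ∨ (j = 1 ∧ n = 3 ∧ q ≤ p + 10)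
      ∨ (j = 1 ∧ n = 2 ∧ q ≤ p + 10)
      ∨ (j = 1 ∧ n = 1 ∧ q ≤ p + 10)
      ∨ (j = 1 ∧ n = 6 ∧ q ≤ p + 10)
      ∨ (j = 3 ∧ n = 6 ∧ 3 ≤ p ∧ q ≤ p + 10 ∧ p + 8 ≤ q)
      ∨ (j = 5 ∧ n = 6 ∧ 3 ≤ p ∧ q ≤ p + 10 ∧ p + 7 ≤ q)
      ∨ (j = 7 ∧ n = 6 ∧ 3 ≤ p ∧ q ≤ p + 10 ∧ p + 6 ≤ q)
      ∨ (j = 9 ∧ n = 6 ∧ 3 ≤ p ∧ q ≤ p + 10 ∧ p + 5 ≤ q)
      ∨ (j = 7 ∧ n = 2 ∧ q ≤ p + 10 ∧ p + 4 ≤ q)
      ∨ (j = 3 ∧ n = 4 ∧ q ≤ p + 10 ∧ p + 7 ≤ q)
      ∨ (j = 5 ∧ n = 4 ∧ q ≤ p + 10 ∧ p + 6 ≤ q)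
      ∨ (j = 2 ∧ n = 3 ∧ q ≤ p + 10 ∧ p + 7 ≤ q)
      ∨ (j = 3 ∧ n = 3 ∧ q ≤ p + 10 ∧ p + 7 ≤ q)
      ∨ (j = 5 ∧ n = 3 ∧ q ≤ p + 10 ∧ p + 6 ≤ q)
      ∨ (j = 6 ∧ n = 3 ∧ q ≤ p + 10 ∧ p + 5 ≤ q)
      ∨ (j = 7 ∧ n = 1 ∧ q ≤ p + 10 ∧ p + 4 ≤ q)
      ∨ (j = 2 ∧ n = 5 ∧ q ≤ p + 10 ∧ p + 8 ≤ q)
      ∨ (j = 3 ∧ n = 5 ∧ q ≤ p + 10 ∧ p + 8 ≤ q)
      ∨ (j = 4 ∧ n = 5 ∧ q ≤ p + 10 ∧ p + 7 ≤ q)
      ∨ (j = 5 ∧ n = 5 ∧ q ≤ p + 10 ∧ p + 7 ≤ q)
      ∨ (j = 6 ∧ n = 5 ∧ q ≤ p + 10 ∧ p + 6 ≤ q)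
      ∨ (j = 7 ∧ n = 5 ∧ q ≤ p + 10 ∧ p + 6 ≤ q)
      ∨ (j = 7 ∧ n = 5 ∧ 5 ≤ p ∧ q ≤ p + 10 ∧ p + 4 ≤ q)
      ∨ (j = 7 ∧ n = 6 ∧ 5 ≤ p ∧ q ≤ p + 10 ∧ p + 4 ≤ q)
      ∨ (j = 9 ∧ n = 6 ∧ 5 ≤ p ∧ q ≤ p + 10 ∧ p + 3 ≤ q)
      ∨ (j = 7 ∧ n = 4 ∧ q ≤ p + 10 ∧ p + 3 ≤ q)
      ∨ (j = 7 ∧ n = 3 ∧ q ≤ p + 10 ∧ p + 3 ≤ q)
      ∨ (j = 8 ∧ n = 5 ∧ q ≤ p + 10 ∧ p + 3 ≤ q)
      ∨ (j = 9 ∧ n = 5 ∧ q ≤ p + 10 ∧ p + 3 ≤ q)))
    1006
    0xe52030eb6001244fa1243830f0f00122fca0f18830ea9800ea9810e31000e3101122e830e9f800e9f810e27000e27040f19000f198a0f05000f05041243830f18800f18840e32000e4600115c520e46011243830eb4800eb4810e3c000e3c0407fb830b1b800b1b8418840311d58011d5841166030eaa800eaa84187a03122f80122f8407f1030b11000b11040ebe830f23000f230411670311cb0011cb040f24000f2404179c83115c00115c040eb60311d60011d60408d8830bf8800bf8840855030b75000b75040e5b0311df8011df84086a030b8a000b8a0411c983122e00122e04147c8314ea8018797a122e80122e84146803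1472001472040e51030e51800e51840810030b30000b30040783030aa3000aa3040798830ab8800e3d6a0ea1000ea10411668311ca8011ca8407a2830ac2800ac2840798030ab8000ab8040b25030b89000b8904078c8307f10007f10407ac830acc800acc8407e6830b06800b06840eab8311cb8011cb84087e830b9e800b9e840811030b31000b3104078c83078d00078d041151031151801151840e5c030ec0000ec0040876030b96000b96041171030eb5000eb504156f8311e08011e0841eaf0318648018650a154580186fd21224801224840782830aa2800aa284073403073480073484188e03124400124404117b030ebf000ebf0407fc030b1c000b1c040869830b89800b89840799030ab9000ab90407fb030b1b000b1b04078e830aae800aae840810830b30800b3084117c0311e00011e00407a3830ac3800ac3840874030b94000b940407490307ad0007ad0411c98311ca0011ca040ad6830b3b000b3b0407e7030b07000b0704178803114780114784147c8314e08014e08411870311eb0011eb040797830ab7800ab78408cf030bef000bef040ac1830b26000b26041b99851b8f001ec3d21eb952187880187884072903078d80078d84073403079800079804188f031244801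244840874830b94800b9484179d03115c8011671a0eab000eab0407ae030ace000ace0407ad030acd000acd040812030b32000b32040875830b95800b9584081c030b3c000b3c0407fd030b1d000b1d04071f03078300078304179c8318008018008408d9030bf9000bf904086b030b8b000b8b0407b8030ad8000ad80407498307ad8007ad840807030b27000b27041171030b26800b268411710311d50011d50408d9830bf9800bf9840b3a030b9e000b9e04179c8311520011520417a683115c001166120eaa000eaa04188e031243801243840875030b95000b95040eb6830b27800b2784115c0311c00011c0040855830b75800b7584115d0311c10011c1040876830b96800b968411de83124300124304086a830b8a800b8a841171830eb5800eb58407b7830ad7800ad78418840312398012398417a6831472001792ca145e00145e0407ad830acd800acd8407200307840007840417a7831473001473040861030b81000b810414870314eb0014eb0408ce030bee000bee04188f03156f80156f8407fe8507f4000b28d2086232086c00086c04085f830b7f800b7f841171030e518011724a0e52800e528414870314eb00186fea122500122504085f030b7f000b7f04115c8311c08011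c084188e03156e80156e8408d8030bf8000bf80407a1830806000806040811830b31800b3184117c830ec0800ec08414870314eb001879fa122f00122f0413aa0016d4520f100013be001230ca174cfa0efc001a088015090014a68014a58014918014908013c780136400134f000e64800e4f800e3a800e01000dec000dd7000dc2000d9e800d89800d88800d74800d73800d5f800d5e800efc010bc780074780073280071d8006e40006cf0006ba001ec3871ec3071eb9871eb9071eb8871eaf071eae871ea5071ea4871e5f871e5f071e55871e55071e54871e4b071e4a871e41071e40871ba3871b8e871b3f871b3f071b35871b35071b34871b2b071b2a871b21071b20871a088f188f07188e87188e07188507188487188407188387187a07187987187907187007186f87186f07186e87186587186507185b07185a87182b07182a87182a07182107182087182007181f87181607181587181507180c07180b87180b07180a8718018718010717f70717f68717a78717a70717a68717a607179d87179d07179c87179c07179307179287179207178887178807178787177e07177d87174c87174387174307174287174207173987173907173887173807172f07172e87172e07172487172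407172387171a0717198716de8716d40716ca0716c987167007166607166587156587156487156387154f87154e87153a87150b87150b07150a87150a0715098715090f15018715010715008715000714ff8714f60714ec0714eb8714e18714e10714d70714d68714a68f14a58f14918f14908f148787148687147287145d87142387142307141987141907141887140f07140e87140e0714048714040714038713fa0713f98713c80713c78f13be8713a98713640f135007134f87134f0f134607134587124f87124587124507123a8712308712300712268712260712258711eb8711e18711e10711d68711cc8711cc0711c28711c20711c187118707117d07117c87117287117207116807116787115d07115307115287114807113e07113d87112307111907111887110e87110e0711040711038710f90710ef0710ee8710e40710da0710d9870f24870f23870f10870f0f870f0e870efb870eb6870eac870eac070ea2870ea2070ea1870e98070e97870e8e070e8d870e648f0e5c870e5b870e5a870e5a070e50070e4f8f0e48870e47870e46870e45870e45070e3b070e3a8f0e32870e31870e30870e03070e02870e010f0df9070df8870df8070df7870df7070df6870dee870dee070ded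870ded070dec870dec0f0de4070de3870de3070de2870de2070de1870dd9070dd8870dd8070dd7870dd70f0dcf070dce870dce070dcd870dcd070dcc870dc3070dc2870dc20f0d9e8f0d898f0d888f0d748f0d738f0d5f8f0d5e8f0bdc070bdb870bc78f0b8c870b78070b77870b6e070b6d870b32870b28870b28070b1e870b1e070b1d870b13070ac4870ac4070aba870aba070aaf0708cf8708ce8708cd87086c87086207085807085787081b87081a8708198708088708078708068708058708048707f38707f28707f18707f08707dc8707a48707a407079a87079a07079987078f0707848707538707528707520707480707478f073f87073e87073d87073d0707330707328f072a87072987072887072807071e07071d8f07158707148706e58706e50706e48706e40f06db8706db0706da8706d00706cf8706cf0f06c60706c58706c50706c48706bc0706bb8706bb0706ba8706ba0f06b20706b18706b10706b08705b98705b90705b88705b80705b78705af8705af0705ae8705ae0705ad8705a50705a48705a40705a387055e87055e07055687055607055587055507055487055407055387054c87054c07054b87054b07054a87054a0705498705490705420705418705410705408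7054007053f87053f07053e87053807053787053707053687053587053507053487052b87052b07052a8704fc0704fb8704fa8704fa0704f28704f20704f18704f10704f08704f00704ef8704e88704e80704e78704e70704e68704e60704e58704e50704de0704dd8704dd0704dc8704dc0704db8704db0704da8704d40704d38704d30704d28704d20704d18704d10704d08704c78704c70704c68704c60704bd0704bc8704bc07049807049787049707048e07048d87048d07048c87048c07048b87048407048387048307048287048207048187048107047987047907047887047807047787047707047687046f07046e87046e07046d87046d07046c87046c07046487046407046307046287046207045907045887045807043407043387043307042a07042987042907042887042807042007041f87041f07041e87041e07041d87041d07041587041507041487041407041387041307040b07040a87040a0704098704090704088704080704008704000703ff8703ff0703fe8703fe0703f60703f58703f50703f48703f40703c58703c50703c48703bb8703bb0703ba8703b00703af8703a60703a58703a50703a487039c07039b87039b07039a87039207039187039107039087 = true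 := by
  decide +kernel

theorem p1b (hf : Rule f) {k c n M : ℕ} (H : PL f k c n M) (hM4 : M + 4 = n) : ¬ f (6 * k + 1) c (2 * n) (2 * n + 8 - 2 * k) := by
  intro h0
  have hk := H.T.hk
  have hc := H.T.hc
  have h4' := H.T.h4
  have hb := H.T.hb
  have hN := H.T.hN2
  obtain ⟨a0, ha0⟩ : ∃ z, z + 2 = 6 * k := ⟨6 * k - (2), by omega⟩
  obtain ⟨b0, hb0⟩ : ∃ z, z + 6 = c := ⟨c - (6), by omega⟩
  obtain ⟨x0, hx0⟩ : ∃ z, z + 1 = 2 * n := ⟨2 * n - (1), by omega⟩
  obtain ⟨y0, hy0⟩ : ∃ z, z + 2 * k + 3 = 2 * n := ⟨2 * n - (2 * k + 3), by omega⟩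
  refine check_sound hf (a0 := a0) (b0 := b0) (x0 := x0) (y0 := y0) p1b_chk
    ⟨fun h => absurd h (by decide), fun h => absurd h (by decide), fun h => absurd h (by decide), by omega, by omega,
      by omega, by omega⟩ ?_ ?_
  · intro j m p q hr h
    obtain ⟨-, -, -, -, hp1, hp2, hq1, hq2⟩ := hr
    replace h := of_decide_eq_true h
    rcases h with h | h | h | h | h | h | h | h | h | h | h
    · obtain ⟨rfl, rfl, h⟩ := h
      exact (WrapC.v1 H.c0 (by omega) (by omega) (by omega) (by omega) (by omega) (by omega) (by omega) (by omega)).mpr (by omega)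
    · obtain ⟨rfl, rfl, h⟩ := h
      exact (WrapC.v2 H.c0 (by omega) (by omega) (by omega) (by omega) (by omega) (by omega) (by omega)).mpr (by omega)
    · obtain ⟨rfl, rfl, h⟩ := h
      exact (WrapC.v0 H.c2 (by omega) (by omega) (by omega) (by omega) (by omega) (by omega) (by omega)).mpr (by omega)
    · obtain ⟨rfl, rfl, h⟩ := h
      exact (WrapC.v1 H.c2 (by omega) (by omega) (by omega) (by omega) (by omega) (by omega) (by omega) (by omega)).mpr (by omega)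
    · obtain ⟨rfl, rfl, h⟩ := h
      exact (WrapC.v2 H.c2 (by omega) (by omega) (by omega) (by omega) (by omega) (by omega) (by omega)).mpr (by omega)
    · obtain ⟨rfl, rfl, h⟩ := h
      exact (WrapC.v0 H.c4 (by omega) (by omega) (by omega) (by omega) (by omega) (by omega) (by omega)).mpr (by omega)
    · obtain ⟨rfl, rfl, h⟩ := h
      exact (WrapC.v1 H.c4 (by omega) (by omega) (by omega) (by omega) (by omega) (by omega) (by omega) (by omega)).mpr (by omega)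
    · obtain ⟨rfl, rfl, h⟩ := h
      exact (WrapC.v1 H.c4a (by omega) (by omega) (by omega) (by omega) (by omega) (by omega) (by omega) (by omega)).mpr (by omega)
    · obtain ⟨rfl, rfl, h⟩ := h
      exact (WrapC.v2 H.c4a (by omega) (by omega) (by omega) (by omega) (by omega) (by omega) (by omega)).mpr (by omega)
    · obtain ⟨rfl, rfl, h⟩ := h
      exact (WrapC.v4 H.c6a (by omega) (by omega) (by omega) (by omega) (by omega) (by omega) (by omega)).mpr (by omega)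
    · obtain ⟨rfl, rfl, rfl, rfl⟩ := h
      exact mv h0 (by omega) (by omega) (by omega) (by omega)
  · intro j m p q hr h
    obtain ⟨-, -, -, -, hp1, hp2, hq1, hq2⟩ := hr
    replace h := of_decide_eq_true h
    rcases h with h | h | h | h | h | h | h | h | h | h | h | h | h | h | h | h | h | h | h | h | h | h | h | h | h | h | h | h | h | h | h | h | h | h | h | h | h | h
    · obtain ⟨rfl, rfl, h⟩ := h
      exact mt (WrapC.v1 H.c0 (by omega) (by omega) (by omega) (by omega) (by omega) (by omega) (by omega) (by omega)).mp (by omega)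
    · obtain ⟨rfl, rfl, h⟩ := h
      exact mt (WrapC.v2 H.c0 (by omega) (by omega) (by omega) (by omega) (by omega) (by omega) (by omega)).mp (by omega)
    · obtain ⟨rfl, rfl, h⟩ := h
      exact mt (WrapC.v1 H.c2 (by omega) (by omega) (by omega) (by omega) (by omega) (by omega) (by omega) (by omega)).mp (by omega)
    · obtain ⟨rfl, rfl, h⟩ := h
      exact mt (WrapC.v2 H.c2 (by omega) (by omega) (by omega) (by omega) (by omega) (by omega) (by omega)).mp (by omega)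
    · obtain ⟨rfl, rfl, h⟩ := h
      exact mt (WrapC.v1 H.c4 (by omega) (by omega) (by omega) (by omega) (by omega) (by omega) (by omega) (by omega)).mp (by omega)
    · obtain ⟨rfl, rfl, h⟩ := h
      exact mt (WrapC.v1 H.c4a (by omega) (by omega) (by omega) (by omega) (by omega) (by omega) (by omega) (by omega)).mp (by omega)
    · obtain ⟨rfl, rfl, h⟩ := h
      exact mt (WrapC.v2 H.c4a (by omega) (by omega) (by omega) (by omega) (by omega) (by omega) (by omega)).mp (by omega)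
    · obtain ⟨rfl, rfl, h⟩ := h
      exact H.lw _ _ _ _ (by omega) (by omega) (by omega) (by omega) (by omega) (by omega)
    · obtain ⟨rfl, rfl, h⟩ := h
      exact H.lw _ _ _ _ (by omega) (by omega) (by omega) (by omega) (by omega) (by omega)
    · obtain ⟨rfl, rfl, h⟩ := h
      exact H.lw _ _ _ _ (by omega) (by omega) (by omega) (by omega) (by omega) (by omega)
    · obtain ⟨rfl, rfl, h⟩ := h
      exact H.lw _ _ _ _ (by omega) (by omega) (by omega) (by omega) (by omega) (by omega)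
    · obtain ⟨rfl, rfl, h⟩ := h
      exact H.lw _ _ _ _ (by omega) (by omega) (by omega) (by omega) (by omega) (by omega)
    · obtain ⟨rfl, rfl, h⟩ := h
      exact H.lw _ _ _ _ (by omega) (by omega) (by omega) (by omega) (by omega) (by omega)
    · obtain ⟨rfl, rfl, h⟩ := h
      exact NHT.p0i hf H.T (j := 4) (by omega) (by omega) (by omega) (by omega) (by omega) (by omega)
    · obtain ⟨rfl, rfl, h⟩ := h
      exact NHT.p0i hf H.T (j := 3) (by omega) (by omega) (by omega) (by omega) (by omega) (by omega)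
    · obtain ⟨rfl, rfl, h⟩ := h
      exact NHT.p0i hf H.T (j := 2) (by omega) (by omega) (by omega) (by omega) (by omega) (by omega)
    · obtain ⟨rfl, rfl, h⟩ := h
      exact NHT.p0i hf H.T (j := 1) (by omega) (by omega) (by omega) (by omega) (by omega) (by omega)
    · obtain ⟨rfl, rfl, h⟩ := h
      exact NHT.pIn hf H.T (t := 3) (j := 0) (by omega) (by omega) (by omega) (by omega) (by omega) (by omega) (by omega)
    · obtain ⟨rfl, rfl, h⟩ := h
      exact NHT.pmi hf H.T (j := 3) (by omega) (by omega) (by omega) (by omega) (by omega) (by omega)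
    · obtain ⟨rfl, rfl, h⟩ := h
      exact NHT.pmi hf H.T (j := 2) (by omega) (by omega) (by omega) (by omega) (by omega) (by omega)
    · obtain ⟨rfl, rfl, h⟩ := h
      exact NHT.rIn hf H.T (t := 3) (p := 0) (j := 3) (by omega) (by omega) (by omega) (by omega) (by omega) (by omega) (by omega) (by omega)
    · obtain ⟨rfl, rfl, h⟩ := h
      exact NHT.rIn hf H.T (t := 3) (p := 1) (j := 3) (by omega) (by omega) (by omega) (by omega) (by omega) (by omega) (by omega) (by omega)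
    · obtain ⟨rfl, rfl, h⟩ := h
      exact NHT.rIn hf H.T (t := 3) (p := 1) (j := 2) (by omega) (by omega) (by omega) (by omega) (by omega) (by omega) (by omega) (by omega)
    · obtain ⟨rfl, rfl, h⟩ := h
      exact NHT.rIn hf H.T (t := 3) (p := 0) (j := 1) (by omega) (by omega) (by omega) (by omega) (by omega) (by omega) (by omega) (by omega)
    · obtain ⟨rfl, rfl, h⟩ := h
      exact NHT.rIn hf H.T (t := 2) (p := 1) (j := 0) (by omega) (by omega) (by omega) (by omega) (by omega) (by omega) (by omega) (by omega)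
    · obtain ⟨rfl, rfl, h⟩ := h
      exact fun t => NHT.rm1i hf H.T (p := 0) (j := 4) (by omega) (by omega) (by omega) (by omega) (by omega) (by omega) (mv t rfl (by omega) rfl rfl)
    · obtain ⟨rfl, rfl, h⟩ := h
      exact fun t => NHT.rm1i hf H.T (p := 1) (j := 4) (by omega) (by omega) (by omega) (by omega) (by omega) (by omega) (mv t rfl (by omega) rfl rfl)
    · obtain ⟨rfl, rfl, h⟩ := h
      exact fun t => NHT.rm1i hf H.T (p := 0) (j := 3) (by omega) (by omega) (by omega) (by omega) (by omega) (by omega) (mv t rfl (by omega) rfl rfl)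
    · obtain ⟨rfl, rfl, h⟩ := h
      exact fun t => NHT.rm1i hf H.T (p := 1) (j := 3) (by omega) (by omega) (by omega) (by omega) (by omega) (by omega) (mv t rfl (by omega) rfl rfl)
    · obtain ⟨rfl, rfl, h⟩ := h
      exact fun t => NHT.rm1i hf H.T (p := 0) (j := 2) (by omega) (by omega) (by omega) (by omega) (by omega) (by omega) (mv t rfl (by omega) rfl rfl)
    · obtain ⟨rfl, rfl, h⟩ := h
      exact fun t => NHT.rm1i hf H.T (p := 1) (j := 2) (by omega) (by omega) (by omega) (by omega) (by omega) (by omega) (mv t rfl (by omega) rfl rfl)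
    · obtain ⟨rfl, rfl, h⟩ := h
      exact NHU.p0i hf H.U (j := 2) (by omega) (by omega) (by omega) (by omega) (by omega) (by omega)
    · obtain ⟨rfl, rfl, h⟩ := h
      exact NHU.p0i hf H.U (j := 2) (by omega) (by omega) (by omega) (by omega) (by omega) (by omega)
    · obtain ⟨rfl, rfl, h⟩ := h
      exact NHU.p0i hf H.U (j := 1) (by omega) (by omega) (by omega) (by omega) (by omega) (by omega)
    · obtain ⟨rfl, rfl, h⟩ := h
      exact NHU.pmi hf H.U (j := 1) (by omega) (by omega) (by omega) (by omega) (by omega) (by omega)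
    · obtain ⟨rfl, rfl, h⟩ := h
      exact NHU.pmi hf H.U (j := 1) (by omega) (by omega) (by omega) (by omega) (by omega) (by omega)
    · obtain ⟨rfl, rfl, h⟩ := h
      exact fun t => NHU.rm1i hf H.U (p := 0) (j := 1) (by omega) (by omega) (by omega) (by omega) (by omega) (by omega) (mv t rfl (by omega) rfl rfl)
    · obtain ⟨rfl, rfl, h⟩ := h
      exact fun t => NHU.rm1i hf H.U (p := 1) (j := 1) (by omega) (by omega) (by omega) (by omega) (by omega) (by omega) (mv t rfl (by omega) rfl rfl)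

theorem p1c_chk : check 7 6 14 27 0 0 0 1 0
    (fun j n p q => decide ((j = 4 ∧ n = 1 ∧ q ≤ p + 13 ∧ ((p + q + 1) % 2 = 0 ∧ q ≤ p + 3 ∧ (p + q + 3) % 4 = 0))
      ∨ (j = 4 ∧ n = 2 ∧ 3 ≤ p ∧ q ≤ p + 3 ∧ (((p + q + 1) % 2 = 1 ∧ p + 4 ≤ q ∧ p % 2 = 0) ∨ ((p + q + 1) % 2 = 1 ∧ q ≤ p + 4 ∧ (p + q + 0) % 4 = 0)))
      ∨ (j = 6 ∧ n = 2 ∧ 9 ≤ p ∧ q ≤ p + 13 ∧ (((p + q + 1) % 2 = 1 ∧ p + 4 ≤ q ∧ p % 2 = 1) ∨ ((p + q + 1) % 2 = 1 ∧ q ≤ p + 4 ∧ (p + q + 2) % 4 = 0)))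
      ∨ (j = 6 ∧ n = 3 ∧ 11 ≤ p ∧ q ≤ p + 13 ∧ ((p + q + 1) % 2 = 0 ∧ q ≤ p + 3 ∧ (p + q + 3) % 4 = 0))
      ∨ (j = 3 ∧ n = 4 ∧ p = 2 ∧ q = 13)))
    (fun j n p q => decide ((j = 4 ∧ n = 1 ∧ q ≤ p + 13 ∧ p + 3 ≤ q ∧ ¬ ((p + q + 1) % 2 = 0 ∧ q ≤ p + 3 ∧ (p + q + 3) % 4 = 0))
      ∨ (j = 4 ∧ n = 2 ∧ 3 ≤ p ∧ q ≤ p + 3 ∧ ¬ (((p + q + 1) % 2 = 1 ∧ p + 4 ≤ q ∧ p % 2 = 0) ∨ ((p + q + 1) % 2 = 1 ∧ q ≤ p + 4 ∧ (p + q + 0) % 4 = 0)))
      ∨ (j = 6 ∧ n = 3 ∧ 10 ≤ p ∧ q ≤ p + 13 ∧ p + 3 ≤ q ∧ ¬ ((p + q + 1) % 2 = 0 ∧ q ≤ p + 3 ∧ (p + q + 3) % 4 = 0))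
      ∨ (j = 1 ∧ n = 3 ∧ q ≤ p + 13)
      ∨ (j = 1 ∧ n = 2 ∧ q ≤ p + 13)
      ∨ (j = 1 ∧ n = 1 ∧ q ≤ p + 13)
      ∨ (j = 1 ∧ n = 4 ∧ q ≤ p + 13)
      ∨ (j = 5 ∧ n = 4 ∧ 6 ≤ p ∧ q ≤ p + 13 ∧ p + 8 ≤ q)
      ∨ (j = 5 ∧ n = 2 ∧ q ≤ p + 13 ∧ p + 7 ≤ q)
      ∨ (j = 5 ∧ n = 1 ∧ q ≤ p + 13 ∧ p + 7 ≤ q)
      ∨ (j = 6 ∧ n = 1 ∧ q ≤ p + 13 ∧ p + 6 ≤ q)
      ∨ (j = 2 ∧ n = 3 ∧ q ≤ p + 13 ∧ p + 9 ≤ q)
      ∨ (j = 3 ∧ n = 3 ∧ q ≤ p + 13 ∧ p + 9 ≤ q)
      ∨ (j = 4 ∧ n = 3 ∧ q ≤ p + 13 ∧ p + 8 ≤ q)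
      ∨ (j = 5 ∧ n = 3 ∧ q ≤ p + 13 ∧ p + 8 ≤ q)
      ∨ (j = 6 ∧ n = 3 ∧ q ≤ p + 13 ∧ p + 7 ≤ q)
      ∨ (j = 7 ∧ n = 3 ∧ 8 ≤ p ∧ q ≤ p + 13 ∧ p + 5 ≤ q)
      ∨ (j = 7 ∧ n = 4 ∧ 8 ≤ p ∧ q ≤ p + 13 ∧ p + 5 ≤ q)
      ∨ (j = 7 ∧ n = 2 ∧ 2 ≤ p ∧ q ≤ p + 13 ∧ p + 4 ≤ q)
      ∨ (j = 7 ∧ n = 1 ∧ 2 ≤ p ∧ q ≤ p + 13 ∧ p + 4 ≤ q)))
    270
    0x19a883147c80147c8119a883146f00146f04182083146f80146f84151f00198dca227703198d00198d0418130318d00018d004182e0318eb8018eb84147c83147d00147d041504001972ca14e90014e9010c0d03107b00107b0418058318c28018c28418138314628014628418208314700014700422928319a88019a8840ad5830f43800f438414e90314f70014f70422850318de0018de040bff03107a80107a8418138318d08018d0840ad6030f44000f440418208318dd8018dd841c81031d3e001d3e0420ef03174800174804228503199b00199b0420ef0317480018133a14620014620420ef031748001805aa1454801454840b930310010010010420ef03180500180504227783198d80198d84182e03147d80147d840ba083100e80100e84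14e90314f68014f6840b928310008010008414898018f7c21d73801d66801caa001c8f001c8e0013cd0013be0013b10013018012f480105f80229287228507228487227787227707227687226a0722698722690721d58721c80721c78721ba8721ba0721b98721ad0721ac8721ac0720ef0720ee8720e18720e1072032072031872024872024071e16871dfb871d738f1d67871d67071d668f1d5a071d59871d4c871d3f071d3e871caa0f1c8f0f1c8e0f1c80871bc4071bb6871bb60719800719728719720718c30718b58718b50718a80718a78718138718060718058717f80717f787175687174907174887173b07173a87153a87151f8715048714e887145507144787144707143a07143987142c07142b87141e87141e0713cd0f13cc8713cc0713bf8713bf0713be8713be0f13b18713b10f13a58713a48713898713030713028713018f12f58712f50712f48f12e88712e80712e78712db0712da8712da0712cd0712cc87105f8f0fbe070fbd870fb0870fb0070c0c870bf1870b50070b4f870b42870b42070b41870b34870b34070ae3870ac8870ac787079f07079e8707918707910707908707838707830707328707320707250707248707240707178707170707168706e20706e18706d48706d40706d38706c68706c607067587067507066807066787066707065a87065a0706598705ab0705aa8705aa07059d87059d07059c87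 = true := by
  decide +kernel

theorem p1c (hf : Rule f) {k c n M : ℕ} (H : PL f k c n M) (hM4 : M + 4 = n) : ¬ f (6 * k + 1) c (2 * n - 2) (2 * n + 6 - 2 * k) := by
  intro h0
  have hk := H.T.hk
  have hc := H.T.hc
  have h4' := H.T.h4
  have hb := H.T.hb
  have hN := H.T.hN2
  obtain ⟨a0, ha0⟩ : ∃ z, z + 2 = 6 * k := ⟨6 * k - (2), by omega⟩
  obtain ⟨b0, hb0⟩ : ∃ z, z + 4 = c := ⟨c - (4), by omega⟩
  obtain ⟨x0, hx0⟩ : ∃ z, z + 4 = 2 * n := ⟨2 * n - (4), by omega⟩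
  obtain ⟨y0, hy0⟩ : ∃ z, z + 2 * k + 7 = 2 * n := ⟨2 * n - (2 * k + 7), by omega⟩
  refine check_sound hf (a0 := a0) (b0 := b0) (x0 := x0) (y0 := y0) p1c_chk
    ⟨fun h => absurd h (by decide), fun h => absurd h (by decide), fun h => absurd h (by decide), by omega, by omega,
      by omega, by omega⟩ ?_ ?_
  · intro j m p q hr h
    obtain ⟨-, -, -, -, hp1, hp2, hq1, hq2⟩ := hr
    replace h := of_decide_eq_true h
    rcases h with h | h | h | h | h
    · obtain ⟨rfl, rfl, h⟩ := h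
      exact (WrapC.v1 H.c2 (by omega) (by omega) (by omega) (by omega) (by omega) (by omega) (by omega) (by omega)).mpr (by omega)
    · obtain ⟨rfl, rfl, h⟩ := h
      exact (WrapC.v2 H.c2 (by omega) (by omega) (by omega) (by omega) (by omega) (by omega) (by omega)).mpr (by omega)
    · obtain ⟨rfl, rfl, h⟩ := h
      exact (WrapC.v0 H.c4 (by omega) (by omega) (by omega) (by omega) (by omega) (by omega) (by omega)).mpr (by omega)
    · obtain ⟨rfl, rfl, h⟩ := h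
      exact (WrapC.v1 H.c4 (by omega) (by omega) (by omega) (by omega) (by omega) (by omega) (by omega) (by omega)).mpr (by omega)
    · obtain ⟨rfl, rfl, rfl, rfl⟩ := h
      exact mv h0 (by omega) (by omega) (by omega) (by omega)
  · intro j m p q hr h
    obtain ⟨-, -, -, -, hp1, hp2, hq1, hq2⟩ := hr
    replace h := of_decide_eq_true h
    rcases h with h | h | h | h | h | h | h | h | h | h | h | h | h | h | h | h | h | h | h | h
    · obtain ⟨rfl, rfl, h⟩ := h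
      exact mt (WrapC.v1 H.c2 (by omega) (by omega) (by omega) (by omega) (by omega) (by omega) (by omega) (by omega)).mp (by omega)
    · obtain ⟨rfl, rfl, h⟩ := h
      exact mt (WrapC.v2 H.c2 (by omega) (by omega) (by omega) (by omega) (by omega) (by omega) (by omega)).mp (by omega)
    · obtain ⟨rfl, rfl, h⟩ := h
      exact mt (WrapC.v1 H.c4 (by omega) (by omega) (by omega) (by omega) (by omega) (by omega) (by omega) (by omega)).mp (by omega)
    · obtain ⟨rfl, rfl, h⟩ := h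
      exact H.lw _ _ _ _ (by omega) (by omega) (by omega) (by omega) (by omega) (by omega)
    · obtain ⟨rfl, rfl, h⟩ := h
      exact H.lw _ _ _ _ (by omega) (by omega) (by omega) (by omega) (by omega) (by omega)
    · obtain ⟨rfl, rfl, h⟩ := h
      exact H.lw _ _ _ _ (by omega) (by omega) (by omega) (by omega) (by omega) (by omega)
    · obtain ⟨rfl, rfl, h⟩ := h
      exact H.lw _ _ _ _ (by omega) (by omega) (by omega) (by omega) (by omega) (by omega)
    · obtain ⟨rfl, rfl, h⟩ := h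
      exact NHT.p0i hf H.T (j := 3) (by omega) (by omega) (by omega) (by omega) (by omega) (by omega)
    · obtain ⟨rfl, rfl, h⟩ := h
      exact NHT.pmi hf H.T (j := 2) (by omega) (by omega) (by omega) (by omega) (by omega) (by omega)
    · obtain ⟨rfl, rfl, h⟩ := h
      exact NHT.rIn hf H.T (t := 3) (p := 1) (j := 2) (by omega) (by omega) (by omega) (by omega) (by omega) (by omega) (by omega) (by omega)
    · obtain ⟨rfl, rfl, h⟩ := h
      exact NHT.rIn hf H.T (t := 3) (p := 0) (j := 1) (by omega) (by omega) (by omega) (by omega) (by omega) (by omega) (by omega) (by omega)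
    · obtain ⟨rfl, rfl, h⟩ := h
      exact fun t => NHT.rm1i hf H.T (p := 0) (j := 4) (by omega) (by omega) (by omega) (by omega) (by omega) (by omega) (mv t rfl (by omega) rfl rfl)
    · obtain ⟨rfl, rfl, h⟩ := h
      exact fun t => NHT.rm1i hf H.T (p := 1) (j := 4) (by omega) (by omega) (by omega) (by omega) (by omega) (by omega) (mv t rfl (by omega) rfl rfl)
    · obtain ⟨rfl, rfl, h⟩ := h
      exact fun t => NHT.rm1i hf H.T (p := 0) (j := 3) (by omega) (by omega) (by omega) (by omega) (by omega) (by omega) (mv t rfl (by omega) rfl rfl)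
    · obtain ⟨rfl, rfl, h⟩ := h
      exact fun t => NHT.rm1i hf H.T (p := 1) (j := 3) (by omega) (by omega) (by omega) (by omega) (by omega) (by omega) (mv t rfl (by omega) rfl rfl)
    · obtain ⟨rfl, rfl, h⟩ := h
      exact fun t => NHT.rm1i hf H.T (p := 0) (j := 2) (by omega) (by omega) (by omega) (by omega) (by omega) (by omega) (mv t rfl (by omega) rfl rfl)
    · obtain ⟨rfl, rfl, h⟩ := h
      exact NHU.p0i hf H.U (j := 2) (by omega) (by omega) (by omega) (by omega) (by omega) (by omega)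
    · obtain ⟨rfl, rfl, h⟩ := h
      exact NHU.p0i hf H.U (j := 2) (by omega) (by omega) (by omega) (by omega) (by omega) (by omega)
    · obtain ⟨rfl, rfl, h⟩ := h
      exact NHU.pmi hf H.U (j := 1) (by omega) (by omega) (by omega) (by omega) (by omega) (by omega)
    · obtain ⟨rfl, rfl, h⟩ := h
      exact NHU.pmi hf H.U (j := 1) (by omega) (by omega) (by omega) (by omega) (by omega) (by omega)

theorem p1d_chk : check 9 8 12 23 0 0 1 0 0
    (fun j n p q => decide ((j = 2 ∧ n = 1 ∧ q ≤ p + 11 ∧ p + 1 ≤ q ∧ ((p + q + 1) % 2 = 0 ∧ q ≤ p + 1 ∧ (p + q + 3) % 4 = 0))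
      ∨ (j = 2 ∧ n = 2 ∧ q ≤ p + 1 ∧ (((p + q + 1) % 2 = 1 ∧ p + 2 ≤ q ∧ p % 2 = 1) ∨ ((p + q + 1) % 2 = 1 ∧ q ≤ p + 2 ∧ (p + q + 0) % 4 = 0)))
      ∨ (j = 4 ∧ n = 2 ∧ q ≤ p + 11 ∧ (((p + q + 1) % 2 = 1 ∧ p + 2 ≤ q ∧ p % 2 = 0) ∨ ((p + q + 1) % 2 = 1 ∧ q ≤ p + 2 ∧ (p + q + 2) % 4 = 0)))
      ∨ (j = 4 ∧ n = 3 ∧ q ≤ p + 11 ∧ p + 1 ≤ q ∧ ((p + q + 1) % 2 = 0 ∧ q ≤ p + 1 ∧ (p + q + 3) % 4 = 0))
      ∨ (j = 4 ∧ n = 4 ∧ 2 ≤ p ∧ q ≤ p + 1 ∧ (((p + q + 1) % 2 = 1 ∧ p + 2 ≤ q ∧ p % 2 = 1) ∨ ((p + q + 1) % 2 = 1 ∧ q ≤ p + 2 ∧ (p + q + 0) % 4 = 0)))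
      ∨ (j = 6 ∧ n = 4 ∧ 8 ≤ p ∧ q ≤ p + 11 ∧ (((p + q + 1) % 2 = 1 ∧ p + 2 ≤ q ∧ p % 2 = 0) ∨ ((p + q + 1) % 2 = 1 ∧ q ≤ p + 2 ∧ (p + q + 2) % 4 = 0)))
      ∨ (j = 6 ∧ n = 5 ∧ 9 ≤ p ∧ q ≤ p + 11 ∧ p + 1 ≤ q ∧ ((p + q + 1) % 2 = 0 ∧ q ≤ p + 1 ∧ (p + q + 3) % 4 = 0))
      ∨ (j = 6 ∧ n = 1 ∧ q ≤ p + 11 ∧ p + 1 ≤ q ∧ ((p + q + 1) % 2 = 0 ∧ q ≤ p + 1 ∧ (p + q + 3) % 4 = 0))
      ∨ (j = 6 ∧ n = 2 ∧ q ≤ p + 1 ∧ (((p + q + 1) % 2 = 1 ∧ p + 2 ≤ q ∧ p % 2 = 1) ∨ ((p + q + 1) % 2 = 1 ∧ q ≤ p + 2 ∧ (p + q + 0) % 4 = 0)))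
      ∨ (j = 8 ∧ n = 2 ∧ q ≤ p + 11 ∧ (((p + q + 1) % 2 = 1 ∧ p + 0 ≤ q ∧ p % 2 = 0) ∨ ((p + q + 1) % 2 = 1 ∧ q ≤ p + 0 ∧ (p + q + 2) % 4 = 2)))
      ∨ (j = 3 ∧ n = 6 ∧ p = 1 ∧ q = 12)))
    (fun j n p q => decide ((j = 2 ∧ n = 1 ∧ q ≤ p + 11 ∧ p + 1 ≤ q ∧ ¬ ((p + q + 1) % 2 = 0 ∧ q ≤ p + 1 ∧ (p + q + 3) % 4 = 0))
      ∨ (j = 2 ∧ n = 2 ∧ q ≤ p + 1 ∧ ¬ (((p + q + 1) % 2 = 1 ∧ p + 2 ≤ q ∧ p % 2 = 1) ∨ ((p + q + 1) % 2 = 1 ∧ q ≤ p + 2 ∧ (p + q + 0) % 4 = 0)))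
      ∨ (j = 4 ∧ n = 3 ∧ q ≤ p + 11 ∧ p + 1 ≤ q ∧ ¬ ((p + q + 1) % 2 = 0 ∧ q ≤ p + 1 ∧ (p + q + 3) % 4 = 0))
      ∨ (j = 4 ∧ n = 4 ∧ 2 ≤ p ∧ q ≤ p + 1 ∧ ¬ (((p + q + 1) % 2 = 1 ∧ p + 2 ≤ q ∧ p % 2 = 1) ∨ ((p + q + 1) % 2 = 1 ∧ q ≤ p + 2 ∧ (p + q + 0) % 4 = 0)))
      ∨ (j = 6 ∧ n = 5 ∧ 9 ≤ p ∧ q ≤ p + 11 ∧ p + 1 ≤ q ∧ ¬ ((p + q + 1) % 2 = 0 ∧ q ≤ p + 1 ∧ (p + q + 3) % 4 = 0))
      ∨ (j = 6 ∧ n = 1 ∧ q ≤ p + 11 ∧ p + 1 ≤ q ∧ ¬ ((p + q + 1) % 2 = 0 ∧ q ≤ p + 1 ∧ (p + q + 3) % 4 = 0))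
      ∨ (j = 6 ∧ n = 2 ∧ q ≤ p + 1 ∧ ¬ (((p + q + 1) % 2 = 1 ∧ p + 2 ≤ q ∧ p % 2 = 1) ∨ ((p + q + 1) % 2 = 1 ∧ q ≤ p + 2 ∧ (p + q + 0) % 4 = 0)))
      ∨ (j = 1 ∧ n = 5 ∧ q ≤ p + 11)
      ∨ (j = 1 ∧ n = 4 ∧ q ≤ p + 11)
      ∨ (j = 1 ∧ n = 3 ∧ q ≤ p + 11)
      ∨ (j = 1 ∧ n = 2 ∧ q ≤ p + 11)
      ∨ (j = 1 ∧ n = 1 ∧ q ≤ p + 11)
      ∨ (j = 1 ∧ n = 6 ∧ q ≤ p + 11)
      ∨ (j = 3 ∧ n = 6 ∧ 5 ≤ p ∧ q ≤ p + 11 ∧ p + 7 ≤ q)
      ∨ (j = 5 ∧ n = 6 ∧ 5 ≤ p ∧ q ≤ p + 11 ∧ p + 6 ≤ q)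
      ∨ (j = 7 ∧ n = 6 ∧ 5 ≤ p ∧ q ≤ p + 11 ∧ p + 5 ≤ q)
      ∨ (j = 9 ∧ n = 6 ∧ 5 ≤ p ∧ q ≤ p + 11 ∧ p + 4 ≤ q)
      ∨ (j = 3 ∧ n = 2 ∧ q ≤ p + 11 ∧ p + 5 ≤ q)
      ∨ (j = 7 ∧ n = 2 ∧ q ≤ p + 11 ∧ p + 3 ≤ q)
      ∨ (j = 3 ∧ n = 4 ∧ q ≤ p + 11 ∧ p + 6 ≤ q)
      ∨ (j = 5 ∧ n = 4 ∧ q ≤ p + 11 ∧ p + 5 ≤ q)
      ∨ (j = 2 ∧ n = 3 ∧ q ≤ p + 11 ∧ p + 6 ≤ q)
      ∨ (j = 3 ∧ n = 3 ∧ q ≤ p + 11 ∧ p + 6 ≤ q)
      ∨ (j = 3 ∧ n = 1 ∧ q ≤ p + 11 ∧ p + 5 ≤ q)
      ∨ (j = 5 ∧ n = 3 ∧ q ≤ p + 11 ∧ p + 5 ≤ q)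
      ∨ (j = 6 ∧ n = 3 ∧ q ≤ p + 11 ∧ p + 4 ≤ q)
      ∨ (j = 7 ∧ n = 1 ∧ q ≤ p + 11 ∧ p + 3 ≤ q)
      ∨ (j = 2 ∧ n = 5 ∧ q ≤ p + 11 ∧ p + 7 ≤ q)
      ∨ (j = 3 ∧ n = 5 ∧ q ≤ p + 11 ∧ p + 7 ≤ q)
      ∨ (j = 4 ∧ n = 5 ∧ q ≤ p + 11 ∧ p + 6 ≤ q)
      ∨ (j = 5 ∧ n = 5 ∧ q ≤ p + 11 ∧ p + 6 ≤ q)
      ∨ (j = 6 ∧ n = 5 ∧ q ≤ p + 11 ∧ p + 5 ≤ q)
      ∨ (j = 7 ∧ n = 5 ∧ q ≤ p + 11 ∧ p + 5 ≤ q)
      ∨ (j = 7 ∧ n = 5 ∧ 7 ≤ p ∧ q ≤ p + 11 ∧ p + 3 ≤ q)
      ∨ (j = 7 ∧ n = 6 ∧ 7 ≤ p ∧ q ≤ p + 11 ∧ p + 3 ≤ q)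
      ∨ (j = 9 ∧ n = 6 ∧ 7 ≤ p ∧ q ≤ p + 11 ∧ p + 2 ≤ q)
      ∨ (j = 7 ∧ n = 4 ∧ q ≤ p + 11 ∧ p + 2 ≤ q)
      ∨ (j = 7 ∧ n = 3 ∧ q ≤ p + 11 ∧ p + 2 ≤ q)
      ∨ (j = 8 ∧ n = 5 ∧ 2 ≤ p ∧ q ≤ p + 11 ∧ p + 2 ≤ q)
      ∨ (j = 9 ∧ n = 5 ∧ 2 ≤ p ∧ q ≤ p + 11 ∧ p + 2 ≤ q)))
    1043
    0x19398314d2001922ca14bb00190bca14a40014b01a192183143b0014469214dc8014dd0a14468314d10014d10421c20319160019160414dd8014de0a14c68014c68114af8014af8419228314c60014c60421cd8319218019218414c703106a80106a840b9c030fec000fec04145e8013a60018aec213b19213bd0014533a0bb30310030010030413be031448001448041801830f55800f558413d503145f00145f040a0a030ee4000ee4040c26031076001076040b35030f85000f85041c52031cdc001cdc04180e030ed8000ed804193983145300145304180283188c80188c840a87030ed7000ed704180e031898001898040f56830b90800b90840bb283100280100284193a8314de0014de042a620321b60021b6040b12030f62000f62040c3d83108d80108d840b1e030f6e000f6e0409f1030a7b800a7b840c0f8310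5f80105f840a9f830eef800eef84180d031447801447840ee2830f6d000f6d040b29030f79000f7904180203188c00188c0409fe830ed8800ed8840c0f83105f8014b04a18ff8018ff840b12030b9c000b9c040a92830b1d000b1d040aaa830b35000b350417f6831430801430841446831447001447041c52031ce7801ce78418198318a38018a3841d970318b08018b0840b9c830fec800fec8421e683193a80193a840c3d03108d00108d040b91030fe1000fe1040a7b830ecb800ecb840bf8831054001054040ba7830ff7800ff78409fd8309fe0009fe040b12830f62800f62840a70830ec0800ec0840a09030a93800a9384180283143c80143c84182503145f80145f840c3e03108e00108e041826031460001460040a09030a93800b1e2a0ba8000ba80421cd831897801897840a7c030ecc000ecc040c3c83108c80108c8420a20318018018018420a20317f60017f60409f2030a7c000a7c04180183188b80188b84181a8318a48018a484181a831454801454840bf8830c04000c040421e6831d97001d97041454030f6d800f6d841819831454001454040b29830f79800f798420ad831c46001c46040ba6830ff6800ff6840b07030b91000b91040b12830b9c800b9c8421ce83192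2801922840c320310820010820409e58309e60009e6040b06030f56000f56040b11030f61000f6104180e831898801898840bb40310040010040418250318af8018af8421ce0319220019220418198314538014538421e58319398019398418968319210019210409fe830a88800a88841826031460801460840b9b030feb000feb040f6c030ff6000ff60414c7030fe0800fe0840bb3831003801003840a92830a93000a93040a15830a9f800a9f8414d3001923ca14bc00190cca14a50014a5010c05031055001055040b28830f78800f788409e6830a70800a7084261e052612002a79d22a6dd221cd0021cd040e2a830a64800a64840a9f030eef000eef04181a830f6e800f6e8409fd830a87800a87840c1b03106b00106b040b10830f60800f60841c5e031ce8001ce8040aaa830aab000aab0421e5831d96001d960421da0318a40018a4040ba7030ff7000ff7041c5e031ce80021c2ea1916801916840b9a830fea800fea840afa830f4a800f4a8418ae831939001939040bf9031054801054840ba8030ff8000ff8040a87830ed7800ed78421da03192e00192e040a7c830ecc800ecc840e42830a7c800a7c8417f50317f58017f5840b11830f61800f61840c27031077001077040c26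831076801076840b2a030f7a000f7a041802830f56800f568409e6830a70800afb2a0b85000b850409fe030a88000a88040c310310810010810418198313ca0013ca0420a203212c00212c040a93830ee3800ee38418260318b00018b00420ae031802001802040c10031060001060040a0a030a94000a94041b32001f8dd21b4900202f7a23f5001d0a801c82001c81001c6a001c69001b54001aca801ab28013e00013c80013b000135680133e80132680130e8012b60012b500129e00129d00128600128500103d800a140009fc00098a80097280095a802a79872a79072a6e072a6d872a6d072a62072a61872a56872a560729ef8729ef0729e40729e38729e30729d80729d78729cc8729cc07262987261187259f87259f07259407259387259307258807258787257c87257c0723f50f21e68721e60721e58721db0721da8721da0721d98721ce8721ce0721cd8721c30721c28721c20721c18721b70721b687215c87215c07215b87215107215087215007214f87214487214407214387213907213887213807213787212d07212c8720ae0720ad8720ad0720a28720a20720a187209687209607202f07202407202387202307201887201807201787200c87200c071f99871f8d871f820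71f81871f03871ef8071ef7871d8b871d8a871d89871d72871d71871d0d071d0c871d0c071d0b871d0b071d0a8f1d01871d01071d00871d00071cff871cf4871ce9071ce8871cdd071cdc871c820f1c810f1c6a0f1c690f1c5d871c46871bd4071bc8871bc8071bbc871bbc071b54871b540f1b49871b31871aca8f1ab3871ab3071ab28f1aa8071aa787194707193b87193b07192f07192387192307191807191787191707190c87190c07190b87190b0718bd0718b18718b10718a507189987189907188e07188d87188d07188287188207188187188107187707187687187607187587181a87180f07180e8718030718028717f70717f68717eb0717ea87179087178507178487177907177887176d07176c8717610717608714ea8714e98714d38714d28714d18714bc8714bb8714ba8714a487145507144987144907143e07143d87143d07143287143207143187143107142707142687142607142587141b07141a87141a07140f87140f0713e00f13d58713d48713d40713c88713c80f13be8713bd8713bc8713bc0713b08713b00f13a68713a58713a48713568f134c07134b87134b07134a87134087134007133f87133f07133e8f133507133487133407133387133307133287132907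13288713280713278713270713268f131d07131c87131c07131b87131b07131a87131107131087130f87130f07130e8f12b60f12b50f129e0f129d0f12860f12850f106b87103d8f0fe1870fd6070fd5870fcb070fca870fca070fbf870fbf070f4b070ec1070e42870e37070e36870e2a870e1f070e1e870db8870dad070dac870da0870d95070d94870c32870c31870c30870c1b870c1a870c04870c03870bed870bec870b91870b86070b85870b7b070b7a870b7a070b79870b6f870b6f070b6e870b6e070b63870b63070b62870b34870b1e870b1d870b1c870b1b870b06870b05870b04870aef870aee870a7d070a71870a71070a65870a65070a20870a20070a14870a140f0a09870a08870a080709fc8709fc0f09f28709f18709f08709da8709d987098b87098b07098a8f098007097f87097f07097e8709748709740709738709730709728f096907096887096807096787096707096687095d07095c87095c07095b87095b07095a8f095107095087095007094f8709450709448707ee0707ed8707ed0707ec8707ec0707e28707e20707e18707e10707e08707d70707d68707d60707d58707d50707cb8707cb0707ca8707ca0707c00707bf8707bf0707b50707b48707b40707b3870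7a98707a90707a88707a807079d87079d07079c87076407076387076307076287076207075887075807075787075707075687075607074d07074c87074c07074b87074b07074a87074a07074187074107074087074007073f87073f07073e87073607073587073507072b07072a87072a07072987071f87071f07071e87071e0707138707130707128706e50706e48706da0706d98706d90706d88706d80706ce8706ce0706cd8706cd0706cc8706cc0706c28706c20706c18706c10706c08706c00706b70706b68706b60706b58706b50706b48706ab8706ab0706aa8706aa07069f87069f07069e87065b07065a87065a07065007064f87064f07064e87064e07064487064407064387064307064287064207063887063807063787063707063687063607062d07062c87062c07062b87062b07062a87062187062107062087062007061f8706158706150706148705d08705d00705c58705c50705c48705ba0705b98705b90705b88705b80705ae8705ae0705ad8705ad0705ac8705a30705a28705a20705a18705a10705a087059707059687059607059587059507058b07058a87058a07058987053b87053b07053007052f87052f07052e87052487052407052387052307051907051887051807051787051707051687050c87050c07050b87050b0705010705008705000704ff87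 = true := by
  decide +kernel

theorem p1d (hf : Rule f) {k c n M : ℕ} (H : PL f k c n M) (hM4 : M + 4 = n) : ¬ f (6 * k + 1) c (2 * n - 2) (2 * n + 8 - 2 * k) := by
  intro h0
  have hk := H.T.hk
  have hc := H.T.hc
  have h4' := H.T.h4
  have hb := H.T.hb
  have hN := H.T.hN2
  obtain ⟨a0, ha0⟩ : ∃ z, z + 2 = 6 * k := ⟨6 * k - (2), by omega⟩
  obtain ⟨b0, hb0⟩ : ∃ z, z + 6 = c := ⟨c - (6), by omega⟩
  obtain ⟨x0, hx0⟩ : ∃ z, z + 3 = 2 * n := ⟨2 * n - (3), by omega⟩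
  obtain ⟨y0, hy0⟩ : ∃ z, z + 2 * k + 4 = 2 * n := ⟨2 * n - (2 * k + 4), by omega⟩
  refine check_sound hf (a0 := a0) (b0 := b0) (x0 := x0) (y0 := y0) p1d_chk
    ⟨fun h => absurd h (by decide), fun h => absurd h (by decide), fun h => absurd h (by decide), by omega, by omega,
      by omega, by omega⟩ ?_ ?_
  · intro j m p q hr h
    obtain ⟨-, -, -, -, hp1, hp2, hq1, hq2⟩ := hr
    replace h := of_decide_eq_true h
    rcases h with h | h | h | h | h | h | h | h | h | h | h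
    · obtain ⟨rfl, rfl, h⟩ := h
      exact (WrapC.v1 H.c0 (by omega) (by omega) (by omega) (by omega) (by omega) (by omega) (by omega) (by omega)).mpr (by omega)
    · obtain ⟨rfl, rfl, h⟩ := h
      exact (WrapC.v2 H.c0 (by omega) (by omega) (by omega) (by omega) (by omega) (by omega) (by omega)).mpr (by omega)
    · obtain ⟨rfl, rfl, h⟩ := h
      exact (WrapC.v0 H.c2 (by omega) (by omega) (by omega) (by omega) (by omega) (by omega) (by omega)).mpr (by omega)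
    · obtain ⟨rfl, rfl, h⟩ := h
      exact (WrapC.v1 H.c2 (by omega) (by omega) (by omega) (by omega) (by omega) (by omega) (by omega) (by omega)).mpr (by omega)
    · obtain ⟨rfl, rfl, h⟩ := h
      exact (WrapC.v2 H.c2 (by omega) (by omega) (by omega) (by omega) (by omega) (by omega) (by omega)).mpr (by omega)
    · obtain ⟨rfl, rfl, h⟩ := h
      exact (WrapC.v0 H.c4 (by omega) (by omega) (by omega) (by omega) (by omega) (by omega) (by omega)).mpr (by omega)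
    · obtain ⟨rfl, rfl, h⟩ := h
      exact (WrapC.v1 H.c4 (by omega) (by omega) (by omega) (by omega) (by omega) (by omega) (by omega) (by omega)).mpr (by omega)
    · obtain ⟨rfl, rfl, h⟩ := h
      exact (WrapC.v1 H.c4a (by omega) (by omega) (by omega) (by omega) (by omega) (by omega) (by omega) (by omega)).mpr (by omega)
    · obtain ⟨rfl, rfl, h⟩ := h
      exact (WrapC.v2 H.c4a (by omega) (by omega) (by omega) (by omega) (by omega) (by omega) (by omega)).mpr (by omega)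
    · obtain ⟨rfl, rfl, h⟩ := h
      exact (WrapC.v4 H.c6a (by omega) (by omega) (by omega) (by omega) (by omega) (by omega) (by omega)).mpr (by omega)
    · obtain ⟨rfl, rfl, rfl, rfl⟩ := h
      exact mv h0 (by omega) (by omega) (by omega) (by omega)
  · intro j m p q hr h
    obtain ⟨-, -, -, -, hp1, hp2, hq1, hq2⟩ := hr
    replace h := of_decide_eq_true h
    rcases h with h | h | h | h | h | h | h | h | h | h | h | h | h | h | h | h | h | h | h | h | h | h | h | h | h | h | h | h | h | h | h | h | h | h | h | h | h | h | h | h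
    · obtain ⟨rfl, rfl, h⟩ := h
      exact mt (WrapC.v1 H.c0 (by omega) (by omega) (by omega) (by omega) (by omega) (by omega) (by omega) (by omega)).mp (by omega)
    · obtain ⟨rfl, rfl, h⟩ := h
      exact mt (WrapC.v2 H.c0 (by omega) (by omega) (by omega) (by omega) (by omega) (by omega) (by omega)).mp (by omega)
    · obtain ⟨rfl, rfl, h⟩ := h
      exact mt (WrapC.v1 H.c2 (by omega) (by omega) (by omega) (by omega) (by omega) (by omega) (by omega) (by omega)).mp (by omega)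
    · obtain ⟨rfl, rfl, h⟩ := h
      exact mt (WrapC.v2 H.c2 (by omega) (by omega) (by omega) (by omega) (by omega) (by omega) (by omega)).mp (by omega)
    · obtain ⟨rfl, rfl, h⟩ := h
      exact mt (WrapC.v1 H.c4 (by omega) (by omega) (by omega) (by omega) (by omega) (by omega) (by omega) (by omega)).mp (by omega)
    · obtain ⟨rfl, rfl, h⟩ := h
      exact mt (WrapC.v1 H.c4a (by omega) (by omega) (by omega) (by omega) (by omega) (by omega) (by omega) (by omega)).mp (by omega)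
    · obtain ⟨rfl, rfl, h⟩ := h
      exact mt (WrapC.v2 H.c4a (by omega) (by omega) (by omega) (by omega) (by omega) (by omega) (by omega)).mp (by omega)
    · obtain ⟨rfl, rfl, h⟩ := h
      exact H.lw _ _ _ _ (by omega) (by omega) (by omega) (by omega) (by omega) (by omega)
    · obtain ⟨rfl, rfl, h⟩ := h
      exact H.lw _ _ _ _ (by omega) (by omega) (by omega) (by omega) (by omega) (by omega)
    · obtain ⟨rfl, rfl, h⟩ := h
      exact H.lw _ _ _ _ (by omega) (by omega) (by omega) (by omega) (by omega) (by omega)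
    · obtain ⟨rfl, rfl, h⟩ := h
      exact H.lw _ _ _ _ (by omega) (by omega) (by omega) (by omega) (by omega) (by omega)
    · obtain ⟨rfl, rfl, h⟩ := h
      exact H.lw _ _ _ _ (by omega) (by omega) (by omega) (by omega) (by omega) (by omega)
    · obtain ⟨rfl, rfl, h⟩ := h
      exact H.lw _ _ _ _ (by omega) (by omega) (by omega) (by omega) (by omega) (by omega)
    · obtain ⟨rfl, rfl, h⟩ := h
      exact NHT.p0i hf H.T (j := 4) (by omega) (by omega) (by omega) (by omega) (by omega) (by omega)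
    · obtain ⟨rfl, rfl, h⟩ := h
      exact NHT.p0i hf H.T (j := 3) (by omega) (by omega) (by omega) (by omega) (by omega) (by omega)
    · obtain ⟨rfl, rfl, h⟩ := h
      exact NHT.p0i hf H.T (j := 2) (by omega) (by omega) (by omega) (by omega) (by omega) (by omega)
    · obtain ⟨rfl, rfl, h⟩ := h
      exact NHT.p0i hf H.T (j := 1) (by omega) (by omega) (by omega) (by omega) (by omega) (by omega)
    · obtain ⟨rfl, rfl, h⟩ := h
      exact NHT.pIn hf H.T (t := 3) (j := 2) (by omega) (by omega) (by omega) (by omega) (by omega) (by omega) (by omega)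
    · obtain ⟨rfl, rfl, h⟩ := h
      exact NHT.pIn hf H.T (t := 3) (j := 0) (by omega) (by omega) (by omega) (by omega) (by omega) (by omega) (by omega)
    · obtain ⟨rfl, rfl, h⟩ := h
      exact NHT.pmi hf H.T (j := 3) (by omega) (by omega) (by omega) (by omega) (by omega) (by omega)
    · obtain ⟨rfl, rfl, h⟩ := h
      exact NHT.pmi hf H.T (j := 2) (by omega) (by omega) (by omega) (by omega) (by omega) (by omega)
    · obtain ⟨rfl, rfl, h⟩ := h
      exact NHT.rIn hf H.T (t := 3) (p := 0) (j := 3) (by omega) (by omega) (by omega) (by omega) (by omega) (by omega) (by omega) (by omega)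
    · obtain ⟨rfl, rfl, h⟩ := h
      exact NHT.rIn hf H.T (t := 3) (p := 1) (j := 3) (by omega) (by omega) (by omega) (by omega) (by omega) (by omega) (by omega) (by omega)
    · obtain ⟨rfl, rfl, h⟩ := h
      exact NHT.rIn hf H.T (t := 2) (p := 1) (j := 2) (by omega) (by omega) (by omega) (by omega) (by omega) (by omega) (by omega) (by omega)
    · obtain ⟨rfl, rfl, h⟩ := h
      exact NHT.rIn hf H.T (t := 3) (p := 1) (j := 2) (by omega) (by omega) (by omega) (by omega) (by omega) (by omega) (by omega) (by omega)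
    · obtain ⟨rfl, rfl, h⟩ := h
      exact NHT.rIn hf H.T (t := 3) (p := 0) (j := 1) (by omega) (by omega) (by omega) (by omega) (by omega) (by omega) (by omega) (by omega)
    · obtain ⟨rfl, rfl, h⟩ := h
      exact NHT.rIn hf H.T (t := 2) (p := 1) (j := 0) (by omega) (by omega) (by omega) (by omega) (by omega) (by omega) (by omega) (by omega)
    · obtain ⟨rfl, rfl, h⟩ := h
      exact fun t => NHT.rm1i hf H.T (p := 0) (j := 4) (by omega) (by omega) (by omega) (by omega) (by omega) (by omega) (mv t rfl (by omega) rfl rfl)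
    · obtain ⟨rfl, rfl, h⟩ := h
      exact fun t => NHT.rm1i hf H.T (p := 1) (j := 4) (by omega) (by omega) (by omega) (by omega) (by omega) (by omega) (mv t rfl (by omega) rfl rfl)
    · obtain ⟨rfl, rfl, h⟩ := h
      exact fun t => NHT.rm1i hf H.T (p := 0) (j := 3) (by omega) (by omega) (by omega) (by omega) (by omega) (by omega) (mv t rfl (by omega) rfl rfl)
    · obtain ⟨rfl, rfl, h⟩ := h
      exact fun t => NHT.rm1i hf H.T (p := 1) (j := 3) (by omega) (by omega) (by omega) (by omega) (by omega) (by omega) (mv t rfl (by omega) rfl rfl)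
    · obtain ⟨rfl, rfl, h⟩ := h
      exact fun t => NHT.rm1i hf H.T (p := 0) (j := 2) (by omega) (by omega) (by omega) (by omega) (by omega) (by omega) (mv t rfl (by omega) rfl rfl)
    · obtain ⟨rfl, rfl, h⟩ := h
      exact fun t => NHT.rm1i hf H.T (p := 1) (j := 2) (by omega) (by omega) (by omega) (by omega) (by omega) (by omega) (mv t rfl (by omega) rfl rfl)
    · obtain ⟨rfl, rfl, h⟩ := h
      exact NHU.p0i hf H.U (j := 2) (by omega) (by omega) (by omega) (by omega) (by omega) (by omega)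
    · obtain ⟨rfl, rfl, h⟩ := h
      exact NHU.p0i hf H.U (j := 2) (by omega) (by omega) (by omega) (by omega) (by omega) (by omega)
    · obtain ⟨rfl, rfl, h⟩ := h
      exact NHU.p0i hf H.U (j := 1) (by omega) (by omega) (by omega) (by omega) (by omega) (by omega)
    · obtain ⟨rfl, rfl, h⟩ := h
      exact NHU.pmi hf H.U (j := 1) (by omega) (by omega) (by omega) (by omega) (by omega) (by omega)
    · obtain ⟨rfl, rfl, h⟩ := h
      exact NHU.pmi hf H.U (j := 1) (by omega) (by omega) (by omega) (by omega) (by omega) (by omega)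
    · obtain ⟨rfl, rfl, h⟩ := h
      exact fun t => NHU.rm1i hf H.U (p := 0) (j := 1) (by omega) (by omega) (by omega) (by omega) (by omega) (by omega) (mv t rfl (by omega) rfl rfl)
    · obtain ⟨rfl, rfl, h⟩ := h
      exact fun t => NHU.rm1i hf H.U (p := 1) (j := 1) (by omega) (by omega) (by omega) (by omega) (by omega) (by omega) (mv t rfl (by omega) rfl rfl)

end Pool.Agent.SNT.E1P1
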