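import Pool.Agent.SNT.E4B

set_option autoImplicit false
set_option synthInstance.maxSize 100000
set_option synthInstance.maxHeartbeats 4000000

/-! `T1_7`: no beam in the column `2 n + 1` of the layer `6 k + 4` in the row `c`, at the distance `7` from the diagonal
(helper32). The column `2 n + 2` of `6 k + 2` (`LineIn.f2`) is a hypothesis. -/

namespace Pool.Agent.SNT.E1T1

open Pool.Agent.SNT Pool.Agent.SNT.Sig Pool.Agent.SNT.Loc Pool.Agent.SNT.LW Pool.Agent.SNT.NHZ Pool.Agent.SNT.D1E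

variable {f : ℕ → ℕ → ℕ → ℕ → Prop}

theorem zrm1 {k c N : ℕ} (h : NHT f k c N) (hf : Rule f) {L R p j x y : ℕ} (hR : R + 1 = c) (hj : j ≤ 3) (hp : p ≤ 1)
    (hL : L + 2 * j = 6 * k + 6 + p) (hy : N ≤ y + 5) (h1 : y + 1 + j ≤ x) (h2 : x + 2 + j ≤ y + 2 * k) :
    ¬ f L R x y := by
  have e : R = c - 1 := by omega
  subst e
  exact h.rm1 hf hj hp hL hy h1 h2

theorem zrm1i {k c N : ℕ} (h : NHT f k c N) (hf : Rule f) {L R p j x y : ℕ} (hR : R + 1 = c) (hj : j ≤ 4) (hp : p ≤ 1)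
    (hL : L + 2 * j = 6 * k + 8 + p) (hx : N ≤ x + 3) (h1 : y + 1 + j ≤ x) (h2 : x + 2 + j ≤ y + 2 * k) :
    ¬ f L R x y := by
  have e : R = c - 1 := by omega
  subst e
  exact h.rm1i hf hj hp hL hx h1 h2

theorem wa_chk : check 12 6 15 15 0 0 0 0 2
    (fun j n p q => decide (((j = 2 ∧ n = 1 ∧ p = 3 ∧ q = 3) ∨ (j = 2 ∧ n = 1 ∧ p = 5 ∧ q = 5) ∨ (j = 4 ∧ n = 1 ∧ p = 6 ∧ q = 6) ∨ (j = 4 ∧ n = 1 ∧ p = 8 ∧ q = 8) ∨
      (j = 4 ∧ n = 2 ∧ p = 6 ∧ q = 5) ∨ (j = 4 ∧ n = 2 ∧ p = 8 ∧ q = 5) ∨ (j = 4 ∧ n = 2 ∧ p = 8 ∧ q = 7) ∨ (j = 4 ∧ n = 3 ∧ p = 7 ∧ q = 7) ∨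
      (j = 6 ∧ n = 1 ∧ p = 5 ∧ q = 5) ∨ (j = 6 ∧ n = 1 ∧ p = 7 ∧ q = 7) ∨ (j = 8 ∧ n = 2 ∧ p = 8 ∧ q = 7) ∨ (j = 8 ∧ n = 3 ∧ p = 7 ∧ q = 7)) ∨
      ((j = 8 ∧ n = 3 ∧ p = 9 ∧ q = 9) ∨ (j = 6 ∧ n = 4 ∧ p = 9 ∧ q = 2) ∨ (j = 6 ∧ n = 2 ∧ p = 5 ∧ q = 4))))
    (fun j n p q => decide (((j = 1 ∧ n = 1 ∧ p = 4 ∧ q = 2) ∨ (j = 1 ∧ n = 1 ∧ p = 4 ∧ q = 3) ∨ (j = 1 ∧ n = 1 ∧ p = 5 ∧ q = 2) ∨ (j = 1 ∧ n = 1 ∧ p = 5 ∧ q = 3) ∨
      (j = 1 ∧ n = 1 ∧ p = 6 ∧ q = 3) ∨ (j = 1 ∧ n = 1 ∧ p = 6 ∧ q = 4) ∨ (j = 1 ∧ n = 1 ∧ p = 6 ∧ q = 5) ∨ (j = 1 ∧ n = 1 ∧ p = 7 ∧ q = 3) ∨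
      (j = 1 ∧ n = 1 ∧ p = 7 ∧ q = 4) ∨ (j = 1 ∧ n = 1 ∧ p = 7 ∧ q = 5) ∨ (j = 1 ∧ n = 2 ∧ p = 4 ∧ q = 2) ∨ (j = 1 ∧ n = 2 ∧ p = 4 ∧ q = 3)) ∨
      ((j = 1 ∧ n = 2 ∧ p = 5 ∧ q = 2) ∨ (j = 1 ∧ n = 2 ∧ p = 5 ∧ q = 3) ∨ (j = 1 ∧ n = 2 ∧ p = 6 ∧ q = 3) ∨ (j = 1 ∧ n = 2 ∧ p = 6 ∧ q = 4) ∨
      (j = 1 ∧ n = 2 ∧ p = 6 ∧ q = 5) ∨ (j = 1 ∧ n = 2 ∧ p = 7 ∧ q = 3) ∨ (j = 1 ∧ n = 2 ∧ p = 7 ∧ q = 4) ∨ (j = 1 ∧ n = 2 ∧ p = 7 ∧ q = 5) ∨
      (j = 1 ∧ n = 3 ∧ p = 6 ∧ q = 1) ∨ (j = 1 ∧ n = 3 ∧ p = 6 ∧ q = 2) ∨ (j = 1 ∧ n = 3 ∧ p = 6 ∧ q = 3) ∨ (j = 1 ∧ n = 3 ∧ p = 6 ∧ q = 4)) ∨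
      ((j = 1 ∧ n = 3 ∧ p = 6 ∧ q = 5) ∨ (j = 1 ∧ n = 3 ∧ p = 7 ∧ q = 1) ∨ (j = 1 ∧ n = 3 ∧ p = 7 ∧ q = 2) ∨ (j = 1 ∧ n = 3 ∧ p = 7 ∧ q = 3) ∨
      (j = 1 ∧ n = 3 ∧ p = 7 ∧ q = 4) ∨ (j = 1 ∧ n = 3 ∧ p = 7 ∧ q = 5) ∨ (j = 1 ∧ n = 3 ∧ p = 8 ∧ q = 1) ∨ (j = 1 ∧ n = 3 ∧ p = 8 ∧ q = 2) ∨
      (j = 1 ∧ n = 3 ∧ p = 8 ∧ q = 3) ∨ (j = 1 ∧ n = 3 ∧ p = 8 ∧ q = 4) ∨ (j = 1 ∧ n = 3 ∧ p = 8 ∧ q = 5) ∨ (j = 1 ∧ n = 3 ∧ p = 9 ∧ q = 1)) ∨
      ((j = 1 ∧ n = 3 ∧ p = 9 ∧ q = 2) ∨ (j = 1 ∧ n = 3 ∧ p = 9 ∧ q = 3) ∨ (j = 1 ∧ n = 3 ∧ p = 9 ∧ q = 4) ∨ (j = 1 ∧ n = 3 ∧ p = 9 ∧ q = 5) ∨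
      (j = 1 ∧ n = 4 ∧ p = 6 ∧ q = 1) ∨ (j = 1 ∧ n = 4 ∧ p = 6 ∧ q = 2) ∨ (j = 1 ∧ n = 4 ∧ p = 6 ∧ q = 3) ∨ (j = 1 ∧ n = 4 ∧ p = 6 ∧ q = 4) ∨
      (j = 1 ∧ n = 4 ∧ p = 6 ∧ q = 5) ∨ (j = 1 ∧ n = 4 ∧ p = 7 ∧ q = 1) ∨ (j = 1 ∧ n = 4 ∧ p = 7 ∧ q = 2) ∨ (j = 1 ∧ n = 4 ∧ p = 7 ∧ q = 3)) ∨
      ((j = 1 ∧ n = 4 ∧ p = 7 ∧ q = 4) ∨ (j = 1 ∧ n = 4 ∧ p = 7 ∧ q = 5) ∨ (j = 1 ∧ n = 4 ∧ p = 8 ∧ q = 1) ∨ (j = 1 ∧ n = 4 ∧ p = 8 ∧ q = 2) ∨
      (j = 1 ∧ n = 4 ∧ p = 8 ∧ q = 3) ∨ (j = 1 ∧ n = 4 ∧ p = 8 ∧ q = 4) ∨ (j = 1 ∧ n = 4 ∧ p = 8 ∧ q = 5) ∨ (j = 1 ∧ n = 4 ∧ p = 9 ∧ q = 1) ∨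
      (j = 1 ∧ n = 4 ∧ p = 9 ∧ q = 2) ∨ (j = 1 ∧ n = 4 ∧ p = 9 ∧ q = 3) ∨ (j = 1 ∧ n = 4 ∧ p = 9 ∧ q = 4) ∨ (j = 1 ∧ n = 4 ∧ p = 9 ∧ q = 5)) ∨
      ((j = 2 ∧ n = 1 ∧ p = 4 ∧ q = 2) ∨ (j = 2 ∧ n = 1 ∧ p = 5 ∧ q = 2) ∨ (j = 2 ∧ n = 1 ∧ p = 5 ∧ q = 3) ∨ (j = 2 ∧ n = 1 ∧ p = 6 ∧ q = 3) ∨
      (j = 2 ∧ n = 1 ∧ p = 6 ∧ q = 4) ∨ (j = 2 ∧ n = 1 ∧ p = 7 ∧ q = 3) ∨ (j = 2 ∧ n = 1 ∧ p = 7 ∧ q = 4) ∨ (j = 2 ∧ n = 1 ∧ p = 7 ∧ q = 5) ∨
      (j = 2 ∧ n = 3 ∧ p = 6 ∧ q = 1) ∨ (j = 2 ∧ n = 3 ∧ p = 7 ∧ q = 1) ∨ (j = 2 ∧ n = 3 ∧ p = 7 ∧ q = 2) ∨ (j = 2 ∧ n = 3 ∧ p = 7 ∧ q = 3)) ∨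
      ((j = 2 ∧ n = 3 ∧ p = 8 ∧ q = 1) ∨ (j = 2 ∧ n = 3 ∧ p = 8 ∧ q = 2) ∨ (j = 2 ∧ n = 3 ∧ p = 8 ∧ q = 3) ∨ (j = 2 ∧ n = 3 ∧ p = 8 ∧ q = 4) ∨
      (j = 2 ∧ n = 3 ∧ p = 9 ∧ q = 1) ∨ (j = 2 ∧ n = 3 ∧ p = 9 ∧ q = 2) ∨ (j = 2 ∧ n = 3 ∧ p = 9 ∧ q = 3) ∨ (j = 2 ∧ n = 3 ∧ p = 9 ∧ q = 4) ∨
      (j = 2 ∧ n = 3 ∧ p = 9 ∧ q = 5) ∨ (j = 3 ∧ n = 3 ∧ p = 7 ∧ q = 2) ∨ (j = 3 ∧ n = 3 ∧ p = 7 ∧ q = 3) ∨ (j = 3 ∧ n = 3 ∧ p = 8 ∧ q = 2)) ∨
      ((j = 3 ∧ n = 3 ∧ p = 8 ∧ q = 3) ∨ (j = 3 ∧ n = 3 ∧ p = 8 ∧ q = 4) ∨ (j = 3 ∧ n = 3 ∧ p = 9 ∧ q = 2) ∨ (j = 3 ∧ n = 3 ∧ p = 9 ∧ q = 3) ∨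
      (j = 3 ∧ n = 3 ∧ p = 9 ∧ q = 4) ∨ (j = 3 ∧ n = 3 ∧ p = 9 ∧ q = 5) ∨ (j = 3 ∧ n = 3 ∧ p = 10 ∧ q = 2) ∨ (j = 3 ∧ n = 3 ∧ p = 10 ∧ q = 3) ∨
      (j = 3 ∧ n = 3 ∧ p = 10 ∧ q = 4) ∨ (j = 3 ∧ n = 3 ∧ p = 10 ∧ q = 5) ∨ (j = 3 ∧ n = 4 ∧ p = 10 ∧ q = 2) ∨ (j = 3 ∧ n = 4 ∧ p = 10 ∧ q = 3)) ∨
      ((j = 3 ∧ n = 4 ∧ p = 10 ∧ q = 4) ∨ (j = 3 ∧ n = 4 ∧ p = 10 ∧ q = 5) ∨ (j = 4 ∧ n = 3 ∧ p = 7 ∧ q = 2) ∨ (j = 4 ∧ n = 3 ∧ p = 7 ∧ q = 3) ∨
      (j = 4 ∧ n = 3 ∧ p = 7 ∧ q = 4) ∨ (j = 4 ∧ n = 3 ∧ p = 8 ∧ q = 2) ∨ (j = 4 ∧ n = 3 ∧ p = 8 ∧ q = 3) ∨ (j = 4 ∧ n = 3 ∧ p = 8 ∧ q = 4) ∨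
      (j = 4 ∧ n = 3 ∧ p = 8 ∧ q = 5) ∨ (j = 4 ∧ n = 3 ∧ p = 9 ∧ q = 2) ∨ (j = 4 ∧ n = 3 ∧ p = 9 ∧ q = 3) ∨ (j = 4 ∧ n = 3 ∧ p = 9 ∧ q = 4)) ∨
      ((j = 4 ∧ n = 3 ∧ p = 9 ∧ q = 5) ∨ (j = 4 ∧ n = 3 ∧ p = 10 ∧ q = 2) ∨ (j = 4 ∧ n = 3 ∧ p = 10 ∧ q = 3) ∨ (j = 4 ∧ n = 3 ∧ p = 10 ∧ q = 4) ∨
      (j = 4 ∧ n = 3 ∧ p = 10 ∧ q = 5) ∨ (j = 4 ∧ n = 4 ∧ p = 10 ∧ q = 3) ∨ (j = 4 ∧ n = 4 ∧ p = 10 ∧ q = 5) ∨ (j = 5 ∧ n = 2 ∧ p = 8 ∧ q = 6) ∨
      (j = 5 ∧ n = 3 ∧ p = 8 ∧ q = 3) ∨ (j = 5 ∧ n = 3 ∧ p = 8 ∧ q = 4) ∨ (j = 5 ∧ n = 3 ∧ p = 8 ∧ q = 5) ∨ (j = 5 ∧ n = 3 ∧ p = 9 ∧ q = 3)) ∨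
      ((j = 5 ∧ n = 3 ∧ p = 9 ∧ q = 4) ∨ (j = 5 ∧ n = 3 ∧ p = 9 ∧ q = 5) ∨ (j = 5 ∧ n = 3 ∧ p = 9 ∧ q = 6) ∨ (j = 5 ∧ n = 3 ∧ p = 10 ∧ q = 3) ∨
      (j = 5 ∧ n = 3 ∧ p = 10 ∧ q = 4) ∨ (j = 5 ∧ n = 4 ∧ p = 9 ∧ q = 6) ∨ (j = 5 ∧ n = 4 ∧ p = 10 ∧ q = 3) ∨ (j = 5 ∧ n = 4 ∧ p = 10 ∧ q = 4) ∨
      (j = 6 ∧ n = 3 ∧ p = 8 ∧ q = 3) ∨ (j = 6 ∧ n = 3 ∧ p = 8 ∧ q = 4) ∨ (j = 6 ∧ n = 3 ∧ p = 8 ∧ q = 5) ∨ (j = 6 ∧ n = 3 ∧ p = 8 ∧ q = 6)) ∨
      ((j = 6 ∧ n = 3 ∧ p = 9 ∧ q = 3) ∨ (j = 6 ∧ n = 3 ∧ p = 9 ∧ q = 4) ∨ (j = 6 ∧ n = 3 ∧ p = 9 ∧ q = 5) ∨ (j = 6 ∧ n = 3 ∧ p = 9 ∧ q = 6) ∨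
      (j = 6 ∧ n = 3 ∧ p = 9 ∧ q = 7) ∨ (j = 6 ∧ n = 3 ∧ p = 10 ∧ q = 3) ∨ (j = 6 ∧ n = 3 ∧ p = 10 ∧ q = 4) ∨ (j = 6 ∧ n = 3 ∧ p = 10 ∧ q = 5) ∨
      (j = 6 ∧ n = 3 ∧ p = 10 ∧ q = 6) ∨ (j = 6 ∧ n = 3 ∧ p = 10 ∧ q = 7) ∨ (j = 6 ∧ n = 3 ∧ p = 10 ∧ q = 8) ∨ (j = 7 ∧ n = 2 ∧ p = 6 ∧ q = 5)) ∨
      ((j = 7 ∧ n = 3 ∧ p = 8 ∧ q = 6) ∨ (j = 7 ∧ n = 3 ∧ p = 9 ∧ q = 3) ∨ (j = 7 ∧ n = 3 ∧ p = 9 ∧ q = 4) ∨ (j = 7 ∧ n = 3 ∧ p = 9 ∧ q = 5) ∨
      (j = 7 ∧ n = 3 ∧ p = 9 ∧ q = 6) ∨ (j = 7 ∧ n = 3 ∧ p = 9 ∧ q = 7) ∨ (j = 7 ∧ n = 3 ∧ p = 10 ∧ q = 3) ∨ (j = 7 ∧ n = 3 ∧ p = 10 ∧ q = 4) ∨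
      (j = 7 ∧ n = 3 ∧ p = 10 ∧ q = 5) ∨ (j = 7 ∧ n = 3 ∧ p = 10 ∧ q = 6) ∨ (j = 7 ∧ n = 3 ∧ p = 10 ∧ q = 7) ∨ (j = 7 ∧ n = 3 ∧ p = 10 ∧ q = 8)) ∨
      ((j = 7 ∧ n = 4 ∧ p = 8 ∧ q = 6) ∨ (j = 7 ∧ n = 4 ∧ p = 9 ∧ q = 6) ∨ (j = 7 ∧ n = 4 ∧ p = 9 ∧ q = 7) ∨ (j = 7 ∧ n = 4 ∧ p = 10 ∧ q = 3) ∨
      (j = 7 ∧ n = 4 ∧ p = 10 ∧ q = 4) ∨ (j = 7 ∧ n = 4 ∧ p = 10 ∧ q = 5) ∨ (j = 7 ∧ n = 4 ∧ p = 10 ∧ q = 6) ∨ (j = 7 ∧ n = 4 ∧ p = 10 ∧ q = 7) ∨
      (j = 7 ∧ n = 4 ∧ p = 10 ∧ q = 8) ∨ (j = 8 ∧ n = 3 ∧ p = 8 ∧ q = 8) ∨ (j = 8 ∧ n = 3 ∧ p = 9 ∧ q = 7) ∨ (j = 8 ∧ n = 3 ∧ p = 9 ∧ q = 8)) ∨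
      ((j = 9 ∧ n = 3 ∧ p = 9 ∧ q = 7) ∨ (j = 9 ∧ n = 3 ∧ p = 9 ∧ q = 8) ∨ (j = 9 ∧ n = 4 ∧ p = 9 ∧ q = 7) ∨ (j = 9 ∧ n = 4 ∧ p = 9 ∧ q = 8))))
    477
    0x11638311d48011db8014784a14865211c58011da8014694a14855211b68011d980145a4a148452147c8e073f0309e2000c8cd2065e00065e01073f0309e2000c8cd2065d80065d8407468309e98009e98406b90e06488306b90006b90406400306408006408406ce03097100097104073e8309e18009e1840f300011dad20f2f0011d9d2073d8309e0800c8bda0f2e800f2e84073e0309e10009e10409cd0e0c788309cd0009cd040c9a8309e80009e80409c58e07228309c58009c5840f3e030c8b800c8b840f138e1469030f13800f138411e28011cd8014864a14785211cd0e19bd83146f80146f8111cd0011cd0411d48e11638311db8011d48011d48e11d484147c80147c8414778e147703147e8014778014778e147784116b0e116383116400116b00116b0e116b04147d0e148403147d00147d040c9b830f37000f370409d50e07320309d50009d5040c9a830f36000f360409be8e071b8309be8009be84074d0309f00009f00409f08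e074d8309f08009f08413ff0e115c0313ff0013ff0411538011a78013f6c210d3800ba5800b96800b958019c48e19c40e19540e19538e16b18016b10e16b08e16a18016388014860e14858e14850e14848e14840e14838e147e0e147d8e14760e14158e14150e14148e14140e14138e14130e140d8e140d0e140c8e140c0e140b8e14058e11d88011d88e11728e11720e11718e11710e11708e11700e116a8e116a0e11698e11690e11688e11628e10da8010da8e107a80106a800e4f0e0c9b8e0c2b0e0c2a8e0c238e0c230e0c15800bac800bac8e0bab800bab8e0b9c800b9c8e0b3c800b2c8009f88e09f80e09880e09878e09808e09800e06dd8e06dd0e06dc0e06db8e06d58e06d50e06d48e06d40e06cd8e06cd0e05ed0e05ec8e05e58e05e50e05de8005dd8e05dd0e05d58e05ce8004ab0e04aa8e04a98e04a90e04a38e04a30e04a28e04a20e04a18e049b0e049a8e043a8e043a0e04390e04388e04330e04328e04320e04318e04310e042a8e042a0e03ba8e03ba0e03b30e03b28e03ab0e03aa8e03a38e03a30e034a0e03498e03428e03420e033a8e033a0e03330e03328e19c48719c407195407195387171a0716b18f16b10716b0871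6a98716a18f16388f148607148587148507148487148407148387147e07147d87147607141587141507141487141407141387141307140d87140d07140c87140c07140b8714058713858711e30711e20711e10711d88f11d50711d40711d30711d20711c60711c50711b707117287117207117187117107117087117007116a87116a0711698711690711688711628711620711618711610710f30710e40710e30710da8f107a8f106a8f0f3e070f3d870f37870ecd870ecd070ec7070ec6870ec6070ec5870ebf070ebe870ebe070e4f070c9b870c9b070c9a870c9a070c8c070c8b070c71070c2b070c2a870c2a070c29870c23870c23070c22870c22070c1c070c1b870c1b070c1a870c158f0c14070c13870c13070bac8f0bab8f0b9c8f0b3c8f0b2c8f09f88709f80709f78709f707098807098787098707098687098087098007097f87097f07097887097807097787097087097007074607074507073707073607072a07071b0706dd8706dd0706dc8706dc0706db8706d58706d50706d48706d40706cd8706cd0706cc8706c50706560706480706380705ed8705ed0705ec8705e58705e50705de8f05dd8705dd0705d58705ce8f04ab0704aa8704aa0704a98704a90704a38704a30704a28704a20704a187049c07049b87049b07049a87049a07049487049407049387049307049287043a87043a07043987043907043887043307043287043207043187043107042b87042b07042a87042a0704298704240704238704230704228704220703bb0703ba8703ba0703b38703b30703b28703ab0703aa8703a38703a307034a87034a07034987034307034287034207033a87033a07033307033287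 = true := by
  decide +kernel

theorem wa (hf : Rule f) {k b n M : ℕ} (h : PL f k b n M) (hM : M + 4 = n) (h1 : f (6 * k + 4) b (2 * n + 1) (2 * n - 6))
    (h3 : f (6 * k + 4) (b - 2) (2 * n - 3) (2 * n - 4))
    (h2 : ∀ M' R x y : ℕ, M' = 6 * k + 2 → R = b → x = 2 * n + 2 → y % 2 = 1 → 2 * n ≤ y + 7 → y + 2 ≤ 2 * n → ¬ f M' R x y) : False := by
  have hk := h.T.hk
  have hb := h.T.hc
  have h4 := h.T.h4
  have hbig := h.T.hb
  have hn := h.T.hN2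
  obtain ⟨a0, ha0⟩ : ∃ z, z + 2 = 6 * k := ⟨6 * k - 2, by omega⟩
  obtain ⟨b0, hb0⟩ : ∃ z, z + 4 = b := ⟨b - 4, by omega⟩
  obtain ⟨x0, hx0⟩ : ∃ z, z + 8 = 2 * n := ⟨2 * n - 8, by omega⟩
  refine check_sound hf (a0 := a0) (b0 := b0) (x0 := x0) (y0 := x0) wa_chk
    ⟨fun _ => rfl, fun h => absurd h (by decide), fun h => absurd h (by decide), by omega, by omega,
      by omega, by omega⟩ ?_ ?_
  · intro j m p q hr hx
    clear hr
    replace hx := of_decide_eq_true hx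
    rcases hx with hx | hx
    · rcases hx with ⟨rfl, rfl, rfl, rfl⟩ | ⟨rfl, rfl, rfl, rfl⟩ | ⟨rfl, rfl, rfl, rfl⟩ |
        ⟨rfl, rfl, rfl, rfl⟩ | ⟨rfl, rfl, rfl, rfl⟩ | ⟨rfl, rfl, rfl, rfl⟩ | ⟨rfl, rfl, rfl, rfl⟩ |
        ⟨rfl, rfl, rfl, rfl⟩ | ⟨rfl, rfl, rfl, rfl⟩ | ⟨rfl, rfl, rfl, rfl⟩ | ⟨rfl, rfl, rfl, rfl⟩ |
        ⟨rfl, rfl, rfl, rfl⟩
      · exact (WrapC.v3 h.c0 (by omega) (by omega) (by omega) (by omega) (by omega) (by omega) (by omega) (by omega)).mpr (by omega)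
      · exact (WrapC.v3 h.c0 (by omega) (by omega) (by omega) (by omega) (by omega) (by omega) (by omega) (by omega)).mpr (by omega)
      · exact (WrapC.v1 h.c2 (by omega) (by omega) (by omega) (by omega) (by omega) (by omega) (by omega) (by omega)).mpr (by omega)
      · exact (WrapC.v1 h.c2 (by omega) (by omega) (by omega) (by omega) (by omega) (by omega) (by omega) (by omega)).mpr (by omega)
      · exact (WrapC.v2 h.c2 (by omega) (by omega) (by omega) (by omega) (by omega) (by omega) (by omega)).mpr (by omega)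
      · exact (WrapC.v2 h.c2 (by omega) (by omega) (by omega) (by omega) (by omega) (by omega) (by omega)).mpr (by omega)
      · exact (WrapC.v2 h.c2 (by omega) (by omega) (by omega) (by omega) (by omega) (by omega) (by omega)).mpr (by omega)
      · exact (WrapC.v3 h.c2 (by omega) (by omega) (by omega) (by omega) (by omega) (by omega) (by omega) (by omega)).mpr (by omega)
      · exact (WrapC.v3 h.c4a (by omega) (by omega) (by omega) (by omega) (by omega) (by omega) (by omega) (by omega)).mpr (by omega)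
      · exact (WrapC.v3 h.c4a (by omega) (by omega) (by omega) (by omega) (by omega) (by omega) (by omega) (by omega)).mpr (by omega)
      · exact (WrapC.v2 h.c6 (by omega) (by omega) (by omega) (by omega) (by omega) (by omega) (by omega)).mpr (by omega)
      · exact (WrapC.v3 h.c6 (by omega) (by omega) (by omega) (by omega) (by omega) (by omega) (by omega) (by omega)).mpr (by omega)
    · rcases hx with ⟨rfl, rfl, rfl, rfl⟩ | ⟨rfl, rfl, rfl, rfl⟩ | ⟨rfl, rfl, rfl, rfl⟩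
      · exact (WrapC.v3 h.c6 (by omega) (by omega) (by omega) (by omega) (by omega) (by omega) (by omega) (by omega)).mpr (by omega)
      · rwa [show a0 + 6 = 6 * k + 4 by omega, show b0 + 4 = b by omega, show x0 + 9 = 2 * n + 1 by omega, show x0 + 2 = 2 * n - 6 by omega]
      · rwa [show a0 + 6 = 6 * k + 4 by omega, show b0 + 2 = b - 2 by omega, show x0 + 5 = 2 * n - 3 by omega, show x0 + 4 = 2 * n - 4 by omega]
  · intro j m p q hr hx
    clear hr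
    replace hx := of_decide_eq_true hx
    rcases hx with hx | hx | hx | hx | hx | hx | hx | hx | hx | hx | hx | hx | hx | hx | hx
    · rcases hx with ⟨rfl, rfl, rfl, rfl⟩ | ⟨rfl, rfl, rfl, rfl⟩ | ⟨rfl, rfl, rfl, rfl⟩ |
        ⟨rfl, rfl, rfl, rfl⟩ | ⟨rfl, rfl, rfl, rfl⟩ | ⟨rfl, rfl, rfl, rfl⟩ | ⟨rfl, rfl, rfl, rfl⟩ |
        ⟨rfl, rfl, rfl, rfl⟩ | ⟨rfl, rfl, rfl, rfl⟩ | ⟨rfl, rfl, rfl, rfl⟩ | ⟨rfl, rfl, rfl, rfl⟩ |
        ⟨rfl, rfl, rfl, rfl⟩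
      · exact h.lw _ _ _ _ (by omega) (by omega) (by omega) (by omega) (by omega) (by omega)
      · exact h.lw _ _ _ _ (by omega) (by omega) (by omega) (by omega) (by omega) (by omega)
      · exact h.lw _ _ _ _ (by omega) (by omega) (by omega) (by omega) (by omega) (by omega)
      · exact h.lw _ _ _ _ (by omega) (by omega) (by omega) (by omega) (by omega) (by omega)
      · exact h.lw _ _ _ _ (by omega) (by omega) (by omega) (by omega) (by omega) (by omega)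
      · exact h.lw _ _ _ _ (by omega) (by omega) (by omega) (by omega) (by omega) (by omega)
      · exact h.lw _ _ _ _ (by omega) (by omega) (by omega) (by omega) (by omega) (by omega)
      · exact h.lw _ _ _ _ (by omega) (by omega) (by omega) (by omega) (by omega) (by omega)
      · exact h.lw _ _ _ _ (by omega) (by omega) (by omega) (by omega) (by omega) (by omega)
      · exact h.lw _ _ _ _ (by omega) (by omega) (by omega) (by omega) (by omega) (by omega)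
      · exact h.lw _ _ _ _ (by omega) (by omega) (by omega) (by omega) (by omega) (by omega)
      · exact h.lw _ _ _ _ (by omega) (by omega) (by omega) (by omega) (by omega) (by omega)
    · rcases hx with ⟨rfl, rfl, rfl, rfl⟩ | ⟨rfl, rfl, rfl, rfl⟩ | ⟨rfl, rfl, rfl, rfl⟩ |
        ⟨rfl, rfl, rfl, rfl⟩ | ⟨rfl, rfl, rfl, rfl⟩ | ⟨rfl, rfl, rfl, rfl⟩ | ⟨rfl, rfl, rfl, rfl⟩ |
        ⟨rfl, rfl, rfl, rfl⟩ | ⟨rfl, rfl, rfl, rfl⟩ | ⟨rfl, rfl, rfl, rfl⟩ | ⟨rfl, rfl, rfl, rfl⟩ |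
        ⟨rfl, rfl, rfl, rfl⟩
      · exact h.lw _ _ _ _ (by omega) (by omega) (by omega) (by omega) (by omega) (by omega)
      · exact h.lw _ _ _ _ (by omega) (by omega) (by omega) (by omega) (by omega) (by omega)
      · exact h.lw _ _ _ _ (by omega) (by omega) (by omega) (by omega) (by omega) (by omega)
      · exact h.lw _ _ _ _ (by omega) (by omega) (by omega) (by omega) (by omega) (by omega)
      · exact h.lw _ _ _ _ (by omega) (by omega) (by omega) (by omega) (by omega) (by omega)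
      · exact h.lw _ _ _ _ (by omega) (by omega) (by omega) (by omega) (by omega) (by omega)
      · exact h.lw _ _ _ _ (by omega) (by omega) (by omega) (by omega) (by omega) (by omega)
      · exact h.lw _ _ _ _ (by omega) (by omega) (by omega) (by omega) (by omega) (by omega)
      · exact h.lw _ _ _ _ (by omega) (by omega) (by omega) (by omega) (by omega) (by omega)
      · exact h.lw _ _ _ _ (by omega) (by omega) (by omega) (by omega) (by omega) (by omega)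
      · exact h.lw _ _ _ _ (by omega) (by omega) (by omega) (by omega) (by omega) (by omega)
      · exact h.lw _ _ _ _ (by omega) (by omega) (by omega) (by omega) (by omega) (by omega)
    · rcases hx with ⟨rfl, rfl, rfl, rfl⟩ | ⟨rfl, rfl, rfl, rfl⟩ | ⟨rfl, rfl, rfl, rfl⟩ |
        ⟨rfl, rfl, rfl, rfl⟩ | ⟨rfl, rfl, rfl, rfl⟩ | ⟨rfl, rfl, rfl, rfl⟩ | ⟨rfl, rfl, rfl, rfl⟩ |
        ⟨rfl, rfl, rfl, rfl⟩ | ⟨rfl, rfl, rfl, rfl⟩ | ⟨rfl, rfl, rfl, rfl⟩ | ⟨rfl, rfl, rfl, rfl⟩ |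
        ⟨rfl, rfl, rfl, rfl⟩
      · exact h.lw _ _ _ _ (by omega) (by omega) (by omega) (by omega) (by omega) (by omega)
      · exact h.lw _ _ _ _ (by omega) (by omega) (by omega) (by omega) (by omega) (by omega)
      · exact h.lw _ _ _ _ (by omega) (by omega) (by omega) (by omega) (by omega) (by omega)
      · exact h.lw _ _ _ _ (by omega) (by omega) (by omega) (by omega) (by omega) (by omega)
      · exact h.lw _ _ _ _ (by omega) (by omega) (by omega) (by omega) (by omega) (by omega)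
      · exact h.lw _ _ _ _ (by omega) (by omega) (by omega) (by omega) (by omega) (by omega)
      · exact h.lw _ _ _ _ (by omega) (by omega) (by omega) (by omega) (by omega) (by omega)
      · exact h.lw _ _ _ _ (by omega) (by omega) (by omega) (by omega) (by omega) (by omega)
      · exact h.lw _ _ _ _ (by omega) (by omega) (by omega) (by omega) (by omega) (by omega)
      · exact h.lw _ _ _ _ (by omega) (by omega) (by omega) (by omega) (by omega) (by omega)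
      · exact h.lw _ _ _ _ (by omega) (by omega) (by omega) (by omega) (by omega) (by omega)
      · exact h.lw _ _ _ _ (by omega) (by omega) (by omega) (by omega) (by omega) (by omega)
    · rcases hx with ⟨rfl, rfl, rfl, rfl⟩ | ⟨rfl, rfl, rfl, rfl⟩ | ⟨rfl, rfl, rfl, rfl⟩ |
        ⟨rfl, rfl, rfl, rfl⟩ | ⟨rfl, rfl, rfl, rfl⟩ | ⟨rfl, rfl, rfl, rfl⟩ | ⟨rfl, rfl, rfl, rfl⟩ |
        ⟨rfl, rfl, rfl, rfl⟩ | ⟨rfl, rfl, rfl, rfl⟩ | ⟨rfl, rfl, rfl, rfl⟩ | ⟨rfl, rfl, rfl, rfl⟩ |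
        ⟨rfl, rfl, rfl, rfl⟩
      · exact h.lw _ _ _ _ (by omega) (by omega) (by omega) (by omega) (by omega) (by omega)
      · exact h.lw _ _ _ _ (by omega) (by omega) (by omega) (by omega) (by omega) (by omega)
      · exact h.lw _ _ _ _ (by omega) (by omega) (by omega) (by omega) (by omega) (by omega)
      · exact h.lw _ _ _ _ (by omega) (by omega) (by omega) (by omega) (by omega) (by omega)
      · exact h.lw _ _ _ _ (by omega) (by omega) (by omega) (by omega) (by omega) (by omega)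
      · exact h.lw _ _ _ _ (by omega) (by omega) (by omega) (by omega) (by omega) (by omega)
      · exact h.lw _ _ _ _ (by omega) (by omega) (by omega) (by omega) (by omega) (by omega)
      · exact h.lw _ _ _ _ (by omega) (by omega) (by omega) (by omega) (by omega) (by omega)
      · exact h.lw _ _ _ _ (by omega) (by omega) (by omega) (by omega) (by omega) (by omega)
      · exact h.lw _ _ _ _ (by omega) (by omega) (by omega) (by omega) (by omega) (by omega)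
      · exact h.lw _ _ _ _ (by omega) (by omega) (by omega) (by omega) (by omega) (by omega)
      · exact h.lw _ _ _ _ (by omega) (by omega) (by omega) (by omega) (by omega) (by omega)
    · rcases hx with ⟨rfl, rfl, rfl, rfl⟩ | ⟨rfl, rfl, rfl, rfl⟩ | ⟨rfl, rfl, rfl, rfl⟩ |
        ⟨rfl, rfl, rfl, rfl⟩ | ⟨rfl, rfl, rfl, rfl⟩ | ⟨rfl, rfl, rfl, rfl⟩ | ⟨rfl, rfl, rfl, rfl⟩ |
        ⟨rfl, rfl, rfl, rfl⟩ | ⟨rfl, rfl, rfl, rfl⟩ | ⟨rfl, rfl, rfl, rfl⟩ | ⟨rfl, rfl, rfl, rfl⟩ |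
        ⟨rfl, rfl, rfl, rfl⟩
      · exact h.lw _ _ _ _ (by omega) (by omega) (by omega) (by omega) (by omega) (by omega)
      · exact h.lw _ _ _ _ (by omega) (by omega) (by omega) (by omega) (by omega) (by omega)
      · exact h.lw _ _ _ _ (by omega) (by omega) (by omega) (by omega) (by omega) (by omega)
      · exact h.lw _ _ _ _ (by omega) (by omega) (by omega) (by omega) (by omega) (by omega)
      · exact h.lw _ _ _ _ (by omega) (by omega) (by omega) (by omega) (by omega) (by omega)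
      · exact h.lw _ _ _ _ (by omega) (by omega) (by omega) (by omega) (by omega) (by omega)
      · exact h.lw _ _ _ _ (by omega) (by omega) (by omega) (by omega) (by omega) (by omega)
      · exact h.lw _ _ _ _ (by omega) (by omega) (by omega) (by omega) (by omega) (by omega)
      · exact h.lw _ _ _ _ (by omega) (by omega) (by omega) (by omega) (by omega) (by omega)
      · exact h.lw _ _ _ _ (by omega) (by omega) (by omega) (by omega) (by omega) (by omega)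
      · exact h.lw _ _ _ _ (by omega) (by omega) (by omega) (by omega) (by omega) (by omega)
      · exact h.lw _ _ _ _ (by omega) (by omega) (by omega) (by omega) (by omega) (by omega)
    · rcases hx with ⟨rfl, rfl, rfl, rfl⟩ | ⟨rfl, rfl, rfl, rfl⟩ | ⟨rfl, rfl, rfl, rfl⟩ |
        ⟨rfl, rfl, rfl, rfl⟩ | ⟨rfl, rfl, rfl, rfl⟩ | ⟨rfl, rfl, rfl, rfl⟩ | ⟨rfl, rfl, rfl, rfl⟩ |
        ⟨rfl, rfl, rfl, rfl⟩ | ⟨rfl, rfl, rfl, rfl⟩ | ⟨rfl, rfl, rfl, rfl⟩ | ⟨rfl, rfl, rfl, rfl⟩ |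
        ⟨rfl, rfl, rfl, rfl⟩
      · exact mt (WrapC.v3 h.c0 (by omega) (by omega) (by omega) (by omega) (by omega) (by omega) (by omega) (by omega)).mp (by omega)
      · exact mt (WrapC.v3 h.c0 (by omega) (by omega) (by omega) (by omega) (by omega) (by omega) (by omega) (by omega)).mp (by omega)
      · exact mt (WrapC.v3 h.c0 (by omega) (by omega) (by omega) (by omega) (by omega) (by omega) (by omega) (by omega)).mp (by omega)
      · exact mt (WrapC.v3 h.c0 (by omega) (by omega) (by omega) (by omega) (by omega) (by omega) (by omega) (by omega)).mp (by omega)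
      · exact mt (WrapC.v3 h.c0 (by omega) (by omega) (by omega) (by omega) (by omega) (by omega) (by omega) (by omega)).mp (by omega)
      · exact mt (WrapC.v3 h.c0 (by omega) (by omega) (by omega) (by omega) (by omega) (by omega) (by omega) (by omega)).mp (by omega)
      · exact mt (WrapC.v3 h.c0 (by omega) (by omega) (by omega) (by omega) (by omega) (by omega) (by omega) (by omega)).mp (by omega)
      · exact mt (WrapC.v3 h.c0 (by omega) (by omega) (by omega) (by omega) (by omega) (by omega) (by omega) (by omega)).mp (by omega)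
      · exact zrm1i h.T hf (j := 4) (p := 0) (by omega) (by omega) (by omega) (by omega) (by omega) (by omega) (by omega)
      · exact zrm1i h.T hf (j := 4) (p := 0) (by omega) (by omega) (by omega) (by omega) (by omega) (by omega) (by omega)
      · exact zrm1i h.T hf (j := 4) (p := 0) (by omega) (by omega) (by omega) (by omega) (by omega) (by omega) (by omega)
      · exact zrm1 h.T hf (j := 3) (p := 0) (by omega) (by omega) (by omega) (by omega) (by omega) (by omega) (by omega)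
    · rcases hx with ⟨rfl, rfl, rfl, rfl⟩ | ⟨rfl, rfl, rfl, rfl⟩ | ⟨rfl, rfl, rfl, rfl⟩ |
        ⟨rfl, rfl, rfl, rfl⟩ | ⟨rfl, rfl, rfl, rfl⟩ | ⟨rfl, rfl, rfl, rfl⟩ | ⟨rfl, rfl, rfl, rfl⟩ |
        ⟨rfl, rfl, rfl, rfl⟩ | ⟨rfl, rfl, rfl, rfl⟩ | ⟨rfl, rfl, rfl, rfl⟩ | ⟨rfl, rfl, rfl, rfl⟩ |
        ⟨rfl, rfl, rfl, rfl⟩
      · exact zrm1i h.T hf (j := 4) (p := 0) (by omega) (by omega) (by omega) (by omega) (by omega) (by omega) (by omega)
      · exact zrm1i h.T hf (j := 4) (p := 0) (by omega) (by omega) (by omega) (by omega) (by omega) (by omega) (by omega)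
      · exact zrm1 h.T hf (j := 3) (p := 0) (by omega) (by omega) (by omega) (by omega) (by omega) (by omega) (by omega)
      · exact zrm1 h.T hf (j := 3) (p := 0) (by omega) (by omega) (by omega) (by omega) (by omega) (by omega) (by omega)
      · exact zrm1i h.T hf (j := 4) (p := 0) (by omega) (by omega) (by omega) (by omega) (by omega) (by omega) (by omega)
      · exact zrm1i h.T hf (j := 4) (p := 0) (by omega) (by omega) (by omega) (by omega) (by omega) (by omega) (by omega)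
      · exact zrm1 h.T hf (j := 3) (p := 0) (by omega) (by omega) (by omega) (by omega) (by omega) (by omega) (by omega)
      · exact zrm1 h.T hf (j := 3) (p := 0) (by omega) (by omega) (by omega) (by omega) (by omega) (by omega) (by omega)
      · exact zrm1 h.T hf (j := 3) (p := 0) (by omega) (by omega) (by omega) (by omega) (by omega) (by omega) (by omega)
      · exact zrm1i h.T hf (j := 4) (p := 1) (by omega) (by omega) (by omega) (by omega) (by omega) (by omega) (by omega)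
      · exact zrm1 h.T hf (j := 3) (p := 1) (by omega) (by omega) (by omega) (by omega) (by omega) (by omega) (by omega)
      · exact zrm1i h.T hf (j := 4) (p := 1) (by omega) (by omega) (by omega) (by omega) (by omega) (by omega) (by omega)
    · rcases hx with ⟨rfl, rfl, rfl, rfl⟩ | ⟨rfl, rfl, rfl, rfl⟩ | ⟨rfl, rfl, rfl, rfl⟩ |
        ⟨rfl, rfl, rfl, rfl⟩ | ⟨rfl, rfl, rfl, rfl⟩ | ⟨rfl, rfl, rfl, rfl⟩ | ⟨rfl, rfl, rfl, rfl⟩ |
        ⟨rfl, rfl, rfl, rfl⟩ | ⟨rfl, rfl, rfl, rfl⟩ | ⟨rfl, rfl, rfl, rfl⟩ | ⟨rfl, rfl, rfl, rfl⟩ |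
        ⟨rfl, rfl, rfl, rfl⟩
      · exact zrm1 h.T hf (j := 3) (p := 1) (by omega) (by omega) (by omega) (by omega) (by omega) (by omega) (by omega)
      · exact zrm1 h.T hf (j := 3) (p := 1) (by omega) (by omega) (by omega) (by omega) (by omega) (by omega) (by omega)
      · exact zrm1i h.T hf (j := 4) (p := 1) (by omega) (by omega) (by omega) (by omega) (by omega) (by omega) (by omega)
      · exact zrm1 h.T hf (j := 3) (p := 1) (by omega) (by omega) (by omega) (by omega) (by omega) (by omega) (by omega)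
      · exact zrm1 h.T hf (j := 3) (p := 1) (by omega) (by omega) (by omega) (by omega) (by omega) (by omega) (by omega)
      · exact zrm1 h.T hf (j := 3) (p := 1) (by omega) (by omega) (by omega) (by omega) (by omega) (by omega) (by omega)
      · exact h.T.p0i hf (j := 4) (by omega) (by omega) (by omega) (by omega) (by omega) (by omega)
      · exact zrm1 h.T hf (j := 3) (p := 1) (by omega) (by omega) (by omega) (by omega) (by omega) (by omega) (by omega)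
      · exact zrm1 h.T hf (j := 3) (p := 1) (by omega) (by omega) (by omega) (by omega) (by omega) (by omega) (by omega)
      · exact zrm1 h.T hf (j := 3) (p := 1) (by omega) (by omega) (by omega) (by omega) (by omega) (by omega) (by omega)
      · exact h.T.p0i hf (j := 4) (by omega) (by omega) (by omega) (by omega) (by omega) (by omega)
      · exact h.T.p0i hf (j := 4) (by omega) (by omega) (by omega) (by omega) (by omega) (by omega)
    · rcases hx with ⟨rfl, rfl, rfl, rfl⟩ | ⟨rfl, rfl, rfl, rfl⟩ | ⟨rfl, rfl, rfl, rfl⟩ |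
        ⟨rfl, rfl, rfl, rfl⟩ | ⟨rfl, rfl, rfl, rfl⟩ | ⟨rfl, rfl, rfl, rfl⟩ | ⟨rfl, rfl, rfl, rfl⟩ |
        ⟨rfl, rfl, rfl, rfl⟩ | ⟨rfl, rfl, rfl, rfl⟩ | ⟨rfl, rfl, rfl, rfl⟩ | ⟨rfl, rfl, rfl, rfl⟩ |
        ⟨rfl, rfl, rfl, rfl⟩
      · exact h.T.p0i hf (j := 4) (by omega) (by omega) (by omega) (by omega) (by omega) (by omega)
      · exact h.T.p0i hf (j := 4) (by omega) (by omega) (by omega) (by omega) (by omega) (by omega)
      · exact zrm1i h.T hf (j := 3) (p := 0) (by omega) (by omega) (by omega) (by omega) (by omega) (by omega) (by omega)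
      · exact zrm1 h.T hf (j := 2) (p := 0) (by omega) (by omega) (by omega) (by omega) (by omega) (by omega) (by omega)
      · exact zrm1 h.T hf (j := 2) (p := 0) (by omega) (by omega) (by omega) (by omega) (by omega) (by omega) (by omega)
      · exact zrm1i h.T hf (j := 3) (p := 0) (by omega) (by omega) (by omega) (by omega) (by omega) (by omega) (by omega)
      · exact zrm1 h.T hf (j := 2) (p := 0) (by omega) (by omega) (by omega) (by omega) (by omega) (by omega) (by omega)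
      · exact zrm1 h.T hf (j := 2) (p := 0) (by omega) (by omega) (by omega) (by omega) (by omega) (by omega) (by omega)
      · exact zrm1 h.T hf (j := 2) (p := 0) (by omega) (by omega) (by omega) (by omega) (by omega) (by omega) (by omega)
      · exact zrm1i h.T hf (j := 3) (p := 0) (by omega) (by omega) (by omega) (by omega) (by omega) (by omega) (by omega)
      · exact zrm1 h.T hf (j := 2) (p := 0) (by omega) (by omega) (by omega) (by omega) (by omega) (by omega) (by omega)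
      · exact zrm1 h.T hf (j := 2) (p := 0) (by omega) (by omega) (by omega) (by omega) (by omega) (by omega) (by omega)
    · rcases hx with ⟨rfl, rfl, rfl, rfl⟩ | ⟨rfl, rfl, rfl, rfl⟩ | ⟨rfl, rfl, rfl, rfl⟩ |
        ⟨rfl, rfl, rfl, rfl⟩ | ⟨rfl, rfl, rfl, rfl⟩ | ⟨rfl, rfl, rfl, rfl⟩ | ⟨rfl, rfl, rfl, rfl⟩ |
        ⟨rfl, rfl, rfl, rfl⟩ | ⟨rfl, rfl, rfl, rfl⟩ | ⟨rfl, rfl, rfl, rfl⟩ | ⟨rfl, rfl, rfl, rfl⟩ |
        ⟨rfl, rfl, rfl, rfl⟩
      · exact zrm1 h.T hf (j := 2) (p := 0) (by omega) (by omega) (by omega) (by omega) (by omega) (by omega) (by omega)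
      · exact zrm1i h.T hf (j := 3) (p := 0) (by omega) (by omega) (by omega) (by omega) (by omega) (by omega) (by omega)
      · exact zrm1 h.T hf (j := 2) (p := 0) (by omega) (by omega) (by omega) (by omega) (by omega) (by omega) (by omega)
      · exact zrm1 h.T hf (j := 2) (p := 0) (by omega) (by omega) (by omega) (by omega) (by omega) (by omega) (by omega)
      · exact zrm1 h.T hf (j := 2) (p := 0) (by omega) (by omega) (by omega) (by omega) (by omega) (by omega) (by omega)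
      · exact h2 _ _ _ _ (by omega) (by omega) (by omega) (by omega) (by omega) (by omega)
      · exact h2 _ _ _ _ (by omega) (by omega) (by omega) (by omega) (by omega) (by omega)
      · exact h.T.pm hf (j := 1) (by omega) (by omega) (by omega) (by omega) (by omega) (by omega)
      · exact zrm1 h.T hf (j := 2) (p := 1) (by omega) (by omega) (by omega) (by omega) (by omega) (by omega) (by omega)
      · exact zrm1 h.T hf (j := 2) (p := 1) (by omega) (by omega) (by omega) (by omega) (by omega) (by omega) (by omega)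
      · exact zrm1 h.T hf (j := 2) (p := 1) (by omega) (by omega) (by omega) (by omega) (by omega) (by omega) (by omega)
      · exact zrm1 h.T hf (j := 2) (p := 1) (by omega) (by omega) (by omega) (by omega) (by omega) (by omega) (by omega)
    · rcases hx with ⟨rfl, rfl, rfl, rfl⟩ | ⟨rfl, rfl, rfl, rfl⟩ | ⟨rfl, rfl, rfl, rfl⟩ |
        ⟨rfl, rfl, rfl, rfl⟩ | ⟨rfl, rfl, rfl, rfl⟩ | ⟨rfl, rfl, rfl, rfl⟩ | ⟨rfl, rfl, rfl, rfl⟩ |
        ⟨rfl, rfl, rfl, rfl⟩ | ⟨rfl, rfl, rfl, rfl⟩ | ⟨rfl, rfl, rfl, rfl⟩ | ⟨rfl, rfl, rfl, rfl⟩ |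
        ⟨rfl, rfl, rfl, rfl⟩
      · exact zrm1 h.T hf (j := 2) (p := 1) (by omega) (by omega) (by omega) (by omega) (by omega) (by omega) (by omega)
      · exact zrm1 h.T hf (j := 2) (p := 1) (by omega) (by omega) (by omega) (by omega) (by omega) (by omega) (by omega)
      · exact h.T.p0 hf (j := 2) (by omega) (by omega) (by omega) (by omega) (by omega) (by omega)
      · exact zrm1 h.T hf (j := 2) (p := 1) (by omega) (by omega) (by omega) (by omega) (by omega) (by omega) (by omega)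
      · exact zrm1 h.T hf (j := 2) (p := 1) (by omega) (by omega) (by omega) (by omega) (by omega) (by omega) (by omega)
      · exact h.T.p0 hf (j := 2) (by omega) (by omega) (by omega) (by omega) (by omega) (by omega)
      · exact h.T.p0i hf (j := 3) (by omega) (by omega) (by omega) (by omega) (by omega) (by omega)
      · exact h.T.p0i hf (j := 3) (by omega) (by omega) (by omega) (by omega) (by omega) (by omega)
      · exact zrm1 h.T hf (j := 1) (p := 0) (by omega) (by omega) (by omega) (by omega) (by omega) (by omega) (by omega)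
      · exact zrm1 h.T hf (j := 1) (p := 0) (by omega) (by omega) (by omega) (by omega) (by omega) (by omega) (by omega)
      · exact zrm1 h.T hf (j := 1) (p := 0) (by omega) (by omega) (by omega) (by omega) (by omega) (by omega) (by omega)
      · exact zrm1 h.T hf (j := 1) (p := 0) (by omega) (by omega) (by omega) (by omega) (by omega) (by omega) (by omega)
    · rcases hx with ⟨rfl, rfl, rfl, rfl⟩ | ⟨rfl, rfl, rfl, rfl⟩ | ⟨rfl, rfl, rfl, rfl⟩ |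
        ⟨rfl, rfl, rfl, rfl⟩ | ⟨rfl, rfl, rfl, rfl⟩ | ⟨rfl, rfl, rfl, rfl⟩ | ⟨rfl, rfl, rfl, rfl⟩ |
        ⟨rfl, rfl, rfl, rfl⟩ | ⟨rfl, rfl, rfl, rfl⟩ | ⟨rfl, rfl, rfl, rfl⟩ | ⟨rfl, rfl, rfl, rfl⟩ |
        ⟨rfl, rfl, rfl, rfl⟩
      · exact zrm1 h.T hf (j := 1) (p := 0) (by omega) (by omega) (by omega) (by omega) (by omega) (by omega) (by omega)
      · exact zrm1 h.T hf (j := 1) (p := 0) (by omega) (by omega) (by omega) (by omega) (by omega) (by omega) (by omega)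
      · exact zrm1 h.T hf (j := 1) (p := 0) (by omega) (by omega) (by omega) (by omega) (by omega) (by omega) (by omega)
      · exact zrm1 h.T hf (j := 1) (p := 0) (by omega) (by omega) (by omega) (by omega) (by omega) (by omega) (by omega)
      · exact zrm1 h.T hf (j := 1) (p := 0) (by omega) (by omega) (by omega) (by omega) (by omega) (by omega) (by omega)
      · exact zrm1 h.T hf (j := 1) (p := 0) (by omega) (by omega) (by omega) (by omega) (by omega) (by omega) (by omega)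
      · exact zrm1 h.T hf (j := 1) (p := 0) (by omega) (by omega) (by omega) (by omega) (by omega) (by omega) (by omega)
      · exact zrm1 h.T hf (j := 1) (p := 0) (by omega) (by omega) (by omega) (by omega) (by omega) (by omega) (by omega)
      · exact zrm1 h.T hf (j := 1) (p := 0) (by omega) (by omega) (by omega) (by omega) (by omega) (by omega) (by omega)
      · exact zrm1 h.T hf (j := 1) (p := 0) (by omega) (by omega) (by omega) (by omega) (by omega) (by omega) (by omega)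
      · exact zrm1 h.T hf (j := 1) (p := 0) (by omega) (by omega) (by omega) (by omega) (by omega) (by omega) (by omega)
      · exact h.T.pm hf (j := 0) (by omega) (by omega) (by omega) (by omega) (by omega) (by omega)
    · rcases hx with ⟨rfl, rfl, rfl, rfl⟩ | ⟨rfl, rfl, rfl, rfl⟩ | ⟨rfl, rfl, rfl, rfl⟩ |
        ⟨rfl, rfl, rfl, rfl⟩ | ⟨rfl, rfl, rfl, rfl⟩ | ⟨rfl, rfl, rfl, rfl⟩ | ⟨rfl, rfl, rfl, rfl⟩ |
        ⟨rfl, rfl, rfl, rfl⟩ | ⟨rfl, rfl, rfl, rfl⟩ | ⟨rfl, rfl, rfl, rfl⟩ | ⟨rfl, rfl, rfl, rfl⟩ |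
        ⟨rfl, rfl, rfl, rfl⟩
      · exact h.T.p0 hf (j := 1) (by omega) (by omega) (by omega) (by omega) (by omega) (by omega)
      · exact zrm1 h.T hf (j := 1) (p := 1) (by omega) (by omega) (by omega) (by omega) (by omega) (by omega) (by omega)
      · exact zrm1 h.T hf (j := 1) (p := 1) (by omega) (by omega) (by omega) (by omega) (by omega) (by omega) (by omega)
      · exact zrm1 h.T hf (j := 1) (p := 1) (by omega) (by omega) (by omega) (by omega) (by omega) (by omega) (by omega)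
      · exact h.T.p0 hf (j := 1) (by omega) (by omega) (by omega) (by omega) (by omega) (by omega)
      · exact h.T.p0 hf (j := 1) (by omega) (by omega) (by omega) (by omega) (by omega) (by omega)
      · exact zrm1 h.T hf (j := 1) (p := 1) (by omega) (by omega) (by omega) (by omega) (by omega) (by omega) (by omega)
      · exact zrm1 h.T hf (j := 1) (p := 1) (by omega) (by omega) (by omega) (by omega) (by omega) (by omega) (by omega)
      · exact zrm1 h.T hf (j := 1) (p := 1) (by omega) (by omega) (by omega) (by omega) (by omega) (by omega) (by omega)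
      · exact h.T.p0 hf (j := 1) (by omega) (by omega) (by omega) (by omega) (by omega) (by omega)
      · exact h.T.p0 hf (j := 1) (by omega) (by omega) (by omega) (by omega) (by omega) (by omega)
      · exact h.T.p0 hf (j := 1) (by omega) (by omega) (by omega) (by omega) (by omega) (by omega)
    · rcases hx with ⟨rfl, rfl, rfl, rfl⟩ | ⟨rfl, rfl, rfl, rfl⟩ | ⟨rfl, rfl, rfl, rfl⟩ |
        ⟨rfl, rfl, rfl, rfl⟩ | ⟨rfl, rfl, rfl, rfl⟩ | ⟨rfl, rfl, rfl, rfl⟩ | ⟨rfl, rfl, rfl, rfl⟩ |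
        ⟨rfl, rfl, rfl, rfl⟩ | ⟨rfl, rfl, rfl, rfl⟩ | ⟨rfl, rfl, rfl, rfl⟩ | ⟨rfl, rfl, rfl, rfl⟩ |
        ⟨rfl, rfl, rfl, rfl⟩
      · exact h.T.p0 hf (j := 1) (by omega) (by omega) (by omega) (by omega) (by omega) (by omega)
      · exact h.T.p0 hf (j := 1) (by omega) (by omega) (by omega) (by omega) (by omega) (by omega)
      · exact h.T.p0 hf (j := 1) (by omega) (by omega) (by omega) (by omega) (by omega) (by omega)
      · exact h.T.p0i hf (j := 2) (by omega) (by omega) (by omega) (by omega) (by omega) (by omega)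
      · exact h.T.p0i hf (j := 2) (by omega) (by omega) (by omega) (by omega) (by omega) (by omega)
      · exact h.T.p0i hf (j := 2) (by omega) (by omega) (by omega) (by omega) (by omega) (by omega)
      · exact h.T.p0 hf (j := 1) (by omega) (by omega) (by omega) (by omega) (by omega) (by omega)
      · exact h.T.p0 hf (j := 1) (by omega) (by omega) (by omega) (by omega) (by omega) (by omega)
      · exact h.T.p0 hf (j := 1) (by omega) (by omega) (by omega) (by omega) (by omega) (by omega)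
      · exact mt (WrapC.v3 h.c6 (by omega) (by omega) (by omega) (by omega) (by omega) (by omega) (by omega) (by omega)).mp (by omega)
      · exact mt (WrapC.v3 h.c6 (by omega) (by omega) (by omega) (by omega) (by omega) (by omega) (by omega) (by omega)).mp (by omega)
      · exact mt (WrapC.v3 h.c6 (by omega) (by omega) (by omega) (by omega) (by omega) (by omega) (by omega) (by omega)).mp (by omega)
    · rcases hx with ⟨rfl, rfl, rfl, rfl⟩ | ⟨rfl, rfl, rfl, rfl⟩ | ⟨rfl, rfl, rfl, rfl⟩ | ⟨rfl, rfl, rfl, rfl⟩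
      · exact h.T.p0 hf (j := 0) (by omega) (by omega) (by omega) (by omega) (by omega) (by omega)
      · exact h.T.p0 hf (j := 0) (by omega) (by omega) (by omega) (by omega) (by omega) (by omega)
      · exact h.T.p0 hf (j := 0) (by omega) (by omega) (by omega) (by omega) (by omega) (by omega)
      · exact h.T.p0 hf (j := 0) (by omega) (by omega) (by omega) (by omega) (by omega) (by omega)

theorem wb_chk : check 12 6 17 17 0 0 0 0 2
    (fun j n p q => decide ((j = 4 ∧ n = 1 ∧ p = 8 ∧ q = 8) ∨ (j = 4 ∧ n = 1 ∧ p = 10 ∧ q = 10) ∨ (j = 4 ∧ n = 2 ∧ p = 10 ∧ q = 7) ∨ (j = 4 ∧ n = 2 ∧ p = 10 ∧ q = 9) ∨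
      (j = 4 ∧ n = 3 ∧ p = 9 ∧ q = 9) ∨ (j = 6 ∧ n = 1 ∧ p = 9 ∧ q = 9) ∨ (j = 8 ∧ n = 2 ∧ p = 10 ∧ q = 9) ∨ (j = 8 ∧ n = 3 ∧ p = 9 ∧ q = 9) ∨
      (j = 8 ∧ n = 3 ∧ p = 11 ∧ q = 11) ∨ (j = 6 ∧ n = 4 ∧ p = 11 ∧ q = 4) ∨ (j = 6 ∧ n = 2 ∧ p = 9 ∧ q = 8)))
    (fun j n p q => decide (((j = 1 ∧ n = 3 ∧ p = 8 ∧ q = 3) ∨ (j = 1 ∧ n = 3 ∧ p = 8 ∧ q = 4) ∨ (j = 1 ∧ n = 3 ∧ p = 8 ∧ q = 5) ∨ (j = 1 ∧ n = 3 ∧ p = 9 ∧ q = 3) ∨
      (j = 1 ∧ n = 3 ∧ p = 9 ∧ q = 4) ∨ (j = 1 ∧ n = 3 ∧ p = 9 ∧ q = 5) ∨ (j = 1 ∧ n = 3 ∧ p = 10 ∧ q = 3) ∨ (j = 1 ∧ n = 3 ∧ p = 10 ∧ q = 4) ∨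
      (j = 1 ∧ n = 3 ∧ p = 10 ∧ q = 5) ∨ (j = 1 ∧ n = 3 ∧ p = 11 ∧ q = 3) ∨ (j = 1 ∧ n = 3 ∧ p = 11 ∧ q = 4) ∨ (j = 1 ∧ n = 3 ∧ p = 11 ∧ q = 5)) ∨
      ((j = 1 ∧ n = 4 ∧ p = 8 ∧ q = 3) ∨ (j = 1 ∧ n = 4 ∧ p = 8 ∧ q = 4) ∨ (j = 1 ∧ n = 4 ∧ p = 8 ∧ q = 5) ∨ (j = 1 ∧ n = 4 ∧ p = 9 ∧ q = 3) ∨
      (j = 1 ∧ n = 4 ∧ p = 9 ∧ q = 4) ∨ (j = 1 ∧ n = 4 ∧ p = 9 ∧ q = 5) ∨ (j = 1 ∧ n = 4 ∧ p = 10 ∧ q = 3) ∨ (j = 1 ∧ n = 4 ∧ p = 10 ∧ q = 4) ∨
      (j = 1 ∧ n = 4 ∧ p = 10 ∧ q = 5) ∨ (j = 1 ∧ n = 4 ∧ p = 11 ∧ q = 3) ∨ (j = 1 ∧ n = 4 ∧ p = 11 ∧ q = 4) ∨ (j = 1 ∧ n = 4 ∧ p = 11 ∧ q = 5)) ∨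
      ((j = 2 ∧ n = 3 ∧ p = 8 ∧ q = 3) ∨ (j = 2 ∧ n = 3 ∧ p = 9 ∧ q = 3) ∨ (j = 2 ∧ n = 3 ∧ p = 9 ∧ q = 4) ∨ (j = 2 ∧ n = 3 ∧ p = 9 ∧ q = 5) ∨
      (j = 2 ∧ n = 3 ∧ p = 10 ∧ q = 3) ∨ (j = 2 ∧ n = 3 ∧ p = 10 ∧ q = 4) ∨ (j = 2 ∧ n = 3 ∧ p = 10 ∧ q = 5) ∨ (j = 2 ∧ n = 3 ∧ p = 11 ∧ q = 3) ∨
      (j = 2 ∧ n = 3 ∧ p = 11 ∧ q = 4) ∨ (j = 2 ∧ n = 3 ∧ p = 11 ∧ q = 5) ∨ (j = 3 ∧ n = 3 ∧ p = 9 ∧ q = 4) ∨ (j = 3 ∧ n = 3 ∧ p = 9 ∧ q = 5)) ∨
      ((j = 3 ∧ n = 3 ∧ p = 10 ∧ q = 4) ∨ (j = 3 ∧ n = 3 ∧ p = 10 ∧ q = 5) ∨ (j = 3 ∧ n = 3 ∧ p = 11 ∧ q = 4) ∨ (j = 3 ∧ n = 3 ∧ p = 11 ∧ q = 5) ∨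
      (j = 3 ∧ n = 3 ∧ p = 12 ∧ q = 4) ∨ (j = 3 ∧ n = 3 ∧ p = 12 ∧ q = 5) ∨ (j = 3 ∧ n = 4 ∧ p = 12 ∧ q = 4) ∨ (j = 3 ∧ n = 4 ∧ p = 12 ∧ q = 5) ∨
      (j = 4 ∧ n = 3 ∧ p = 9 ∧ q = 4) ∨ (j = 4 ∧ n = 3 ∧ p = 9 ∧ q = 5) ∨ (j = 4 ∧ n = 3 ∧ p = 10 ∧ q = 4) ∨ (j = 4 ∧ n = 3 ∧ p = 10 ∧ q = 5)) ∨
      ((j = 4 ∧ n = 3 ∧ p = 11 ∧ q = 4) ∨ (j = 4 ∧ n = 3 ∧ p = 11 ∧ q = 5) ∨ (j = 4 ∧ n = 3 ∧ p = 12 ∧ q = 4) ∨ (j = 4 ∧ n = 3 ∧ p = 12 ∧ q = 5) ∨
      (j = 4 ∧ n = 4 ∧ p = 12 ∧ q = 5) ∨ (j = 5 ∧ n = 3 ∧ p = 10 ∧ q = 5) ∨ (j = 5 ∧ n = 3 ∧ p = 10 ∧ q = 6) ∨ (j = 5 ∧ n = 3 ∧ p = 10 ∧ q = 7) ∨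
      (j = 5 ∧ n = 3 ∧ p = 11 ∧ q = 5) ∨ (j = 5 ∧ n = 3 ∧ p = 11 ∧ q = 6) ∨ (j = 5 ∧ n = 3 ∧ p = 11 ∧ q = 7) ∨ (j = 5 ∧ n = 3 ∧ p = 11 ∧ q = 8)) ∨
      ((j = 5 ∧ n = 4 ∧ p = 11 ∧ q = 8) ∨ (j = 6 ∧ n = 3 ∧ p = 10 ∧ q = 5) ∨ (j = 6 ∧ n = 3 ∧ p = 10 ∧ q = 6) ∨ (j = 6 ∧ n = 3 ∧ p = 10 ∧ q = 7) ∨
      (j = 6 ∧ n = 3 ∧ p = 10 ∧ q = 8) ∨ (j = 6 ∧ n = 3 ∧ p = 11 ∧ q = 5) ∨ (j = 6 ∧ n = 3 ∧ p = 11 ∧ q = 6) ∨ (j = 6 ∧ n = 3 ∧ p = 11 ∧ q = 7) ∨
      (j = 6 ∧ n = 3 ∧ p = 11 ∧ q = 8) ∨ (j = 6 ∧ n = 3 ∧ p = 11 ∧ q = 9) ∨ (j = 6 ∧ n = 3 ∧ p = 12 ∧ q = 5) ∨ (j = 6 ∧ n = 3 ∧ p = 12 ∧ q = 6)) ∨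
      ((j = 6 ∧ n = 3 ∧ p = 12 ∧ q = 7) ∨ (j = 6 ∧ n = 3 ∧ p = 12 ∧ q = 8) ∨ (j = 6 ∧ n = 3 ∧ p = 12 ∧ q = 9) ∨ (j = 6 ∧ n = 3 ∧ p = 12 ∧ q = 10) ∨
      (j = 7 ∧ n = 3 ∧ p = 10 ∧ q = 8) ∨ (j = 7 ∧ n = 3 ∧ p = 11 ∧ q = 5) ∨ (j = 7 ∧ n = 3 ∧ p = 11 ∧ q = 6) ∨ (j = 7 ∧ n = 3 ∧ p = 11 ∧ q = 7) ∨
      (j = 7 ∧ n = 3 ∧ p = 11 ∧ q = 8) ∨ (j = 7 ∧ n = 3 ∧ p = 11 ∧ q = 9) ∨ (j = 7 ∧ n = 3 ∧ p = 12 ∧ q = 5) ∨ (j = 7 ∧ n = 3 ∧ p = 12 ∧ q = 6)) ∨
      ((j = 7 ∧ n = 3 ∧ p = 12 ∧ q = 7) ∨ (j = 7 ∧ n = 3 ∧ p = 12 ∧ q = 8) ∨ (j = 7 ∧ n = 3 ∧ p = 12 ∧ q = 9) ∨ (j = 7 ∧ n = 3 ∧ p = 12 ∧ q = 10) ∨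
      (j = 7 ∧ n = 4 ∧ p = 10 ∧ q = 8) ∨ (j = 7 ∧ n = 4 ∧ p = 11 ∧ q = 8) ∨ (j = 7 ∧ n = 4 ∧ p = 11 ∧ q = 9) ∨ (j = 7 ∧ n = 4 ∧ p = 12 ∧ q = 5) ∨
      (j = 7 ∧ n = 4 ∧ p = 12 ∧ q = 6) ∨ (j = 7 ∧ n = 4 ∧ p = 12 ∧ q = 7) ∨ (j = 7 ∧ n = 4 ∧ p = 12 ∧ q = 8) ∨ (j = 7 ∧ n = 4 ∧ p = 12 ∧ q = 9)) ∨
      ((j = 7 ∧ n = 4 ∧ p = 12 ∧ q = 10) ∨ (j = 8 ∧ n = 3 ∧ p = 10 ∧ q = 10) ∨ (j = 8 ∧ n = 3 ∧ p = 11 ∧ q = 9) ∨ (j = 8 ∧ n = 3 ∧ p = 11 ∧ q = 10) ∨
      (j = 9 ∧ n = 3 ∧ p = 11 ∧ q = 9) ∨ (j = 9 ∧ n = 3 ∧ p = 11 ∧ q = 10) ∨ (j = 9 ∧ n = 4 ∧ p = 11 ∧ q = 9) ∨ (j = 9 ∧ n = 4 ∧ p = 11 ∧ q = 10))))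
    228
    0x1a620316f5801a615216f4801a60521a5903138a0016f5d213890016f4d20957030cba001025d20956830cb9800cb98413888013888413698e1a4103136980136984095f830cc2800cc2840c920e0ffe830c92000c920416f4831025801025841036831391001391040cca8e0967830cca800cca840ccb0e0968030ccb000ccb0416f58e1a620316f58016f5841a488e2117831a48801a48841a2f801a57801a578e1a5784165d80165d8115bb800efe80211f8e211f0e208f0e208e8e1d2c801d2c0e1d2b8e1d1a801c92801a610e1a608e1a588e19d08e19d00e19c80e19c78e16f380166d8e166d0e16650e16648e15c38015c38e15338010368e0fa60e0fa58e0f9d8e0f9d0e0f8e800f06800f068e0f05800e76800e64800cd38e0cd30e0c430e0c428e0c3a8e0c3a0e211f87211f07208f07208e871db4071d2c8f1d2c071d2b871d23871d1a8f1c928f1a62071a61871a61071a60871a60071a5f871a59071a58871a500719d18719d10719d08719d00719cf8719cf0719c88719c80719c78719c70719c68719bf8716ff0716fe0716fd0716f38f16ed0716ec0716de07166e87166e07166d87166d07166c87166c0716658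7166507166487166407166387165c87165c07165b87165b0715cd0715c38f15338f13928713020713018713010713008712f90712f88712f8071036871036071025070ff6070fa6070fa5870f9d870f9d070f95070f94870f8e8f0f8c870f8c070f068f0f058f0e768f0e648f0cd3870cd3070c43070c42870c3a870c3a070c32070c31870c29870c2907095f07094e0708d78708d70708d68708cf0708ce8708ce0708c68708c60708c58708bd0706050706048706040705fc8705fc0705fb8705f40705f38705f30705eb8705eb0705ea87057487057407057387056c07056b87056b07056387056307056287055b07055a87055a07 = true := by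
  decide +kernel

theorem wb (hf : Rule f) {k b n M : ℕ} (h : PL f k b n M) (hM : M + 4 = n) (h1 : f (6 * k + 4) b (2 * n + 1) (2 * n - 6))
    (h3 : f (6 * k + 4) (b - 2) (2 * n - 1) (2 * n - 2))
    (h2 : ∀ M' R x y : ℕ, M' = 6 * k + 2 → R = b → x = 2 * n + 2 → y % 2 = 1 → 2 * n ≤ y + 7 → y + 2 ≤ 2 * n → ¬ f M' R x y) : False := by
  have hk := h.T.hk
  have hb := h.T.hc
  have h4 := h.T.h4
  have hbig := h.T.hb
  have hn := h.T.hN2
  obtain ⟨a0, ha0⟩ : ∃ z, z + 2 = 6 * k := ⟨6 * k - 2, by omega⟩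
  obtain ⟨b0, hb0⟩ : ∃ z, z + 4 = b := ⟨b - 4, by omega⟩
  obtain ⟨x0, hx0⟩ : ∃ z, z + 10 = 2 * n := ⟨2 * n - 10, by omega⟩
  refine check_sound hf (a0 := a0) (b0 := b0) (x0 := x0) (y0 := x0) wb_chk
    ⟨fun _ => rfl, fun h => absurd h (by decide), fun h => absurd h (by decide), by omega, by omega,
      by omega, by omega⟩ ?_ ?_
  · intro j m p q hr hx
    clear hr
    replace hx := of_decide_eq_true hx
    rcases hx with ⟨rfl, rfl, rfl, rfl⟩ | ⟨rfl, rfl, rfl, rfl⟩ | ⟨rfl, rfl, rfl, rfl⟩ | ⟨rfl, rfl, rfl, rfl⟩ |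
      ⟨rfl, rfl, rfl, rfl⟩ | ⟨rfl, rfl, rfl, rfl⟩ | ⟨rfl, rfl, rfl, rfl⟩ | ⟨rfl, rfl, rfl, rfl⟩ |
      ⟨rfl, rfl, rfl, rfl⟩ | ⟨rfl, rfl, rfl, rfl⟩ | ⟨rfl, rfl, rfl, rfl⟩
    · exact (WrapC.v1 h.c2 (by omega) (by omega) (by omega) (by omega) (by omega) (by omega) (by omega) (by omega)).mpr (by omega)
    · exact (WrapC.v1 h.c2 (by omega) (by omega) (by omega) (by omega) (by omega) (by omega) (by omega) (by omega)).mpr (by omega)
    · exact (WrapC.v2 h.c2 (by omega) (by omega) (by omega) (by omega) (by omega) (by omega) (by omega)).mpr (by omega)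
    · exact (WrapC.v2 h.c2 (by omega) (by omega) (by omega) (by omega) (by omega) (by omega) (by omega)).mpr (by omega)
    · exact (WrapC.v3 h.c2 (by omega) (by omega) (by omega) (by omega) (by omega) (by omega) (by omega) (by omega)).mpr (by omega)
    · exact (WrapC.v3 h.c4a (by omega) (by omega) (by omega) (by omega) (by omega) (by omega) (by omega) (by omega)).mpr (by omega)
    · exact (WrapC.v2 h.c6 (by omega) (by omega) (by omega) (by omega) (by omega) (by omega) (by omega)).mpr (by omega)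
    · exact (WrapC.v3 h.c6 (by omega) (by omega) (by omega) (by omega) (by omega) (by omega) (by omega) (by omega)).mpr (by omega)
    · exact (WrapC.v3 h.c6 (by omega) (by omega) (by omega) (by omega) (by omega) (by omega) (by omega) (by omega)).mpr (by omega)
    · rwa [show a0 + 6 = 6 * k + 4 by omega, show b0 + 4 = b by omega, show x0 + 11 = 2 * n + 1 by omega, show x0 + 4 = 2 * n - 6 by omega]
    · rwa [show a0 + 6 = 6 * k + 4 by omega, show b0 + 2 = b - 2 by omega, show x0 + 9 = 2 * n - 1 by omega, show x0 + 8 = 2 * n - 2 by omega]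
  · intro j m p q hr hx
    clear hr
    replace hx := of_decide_eq_true hx
    rcases hx with hx | hx | hx | hx | hx | hx | hx | hx | hx
    · rcases hx with ⟨rfl, rfl, rfl, rfl⟩ | ⟨rfl, rfl, rfl, rfl⟩ | ⟨rfl, rfl, rfl, rfl⟩ |
        ⟨rfl, rfl, rfl, rfl⟩ | ⟨rfl, rfl, rfl, rfl⟩ | ⟨rfl, rfl, rfl, rfl⟩ | ⟨rfl, rfl, rfl, rfl⟩ |
        ⟨rfl, rfl, rfl, rfl⟩ | ⟨rfl, rfl, rfl, rfl⟩ | ⟨rfl, rfl, rfl, rfl⟩ | ⟨rfl, rfl, rfl, rfl⟩ |
        ⟨rfl, rfl, rfl, rfl⟩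
      · exact h.lw _ _ _ _ (by omega) (by omega) (by omega) (by omega) (by omega) (by omega)
      · exact h.lw _ _ _ _ (by omega) (by omega) (by omega) (by omega) (by omega) (by omega)
      · exact h.lw _ _ _ _ (by omega) (by omega) (by omega) (by omega) (by omega) (by omega)
      · exact h.lw _ _ _ _ (by omega) (by omega) (by omega) (by omega) (by omega) (by omega)
      · exact h.lw _ _ _ _ (by omega) (by omega) (by omega) (by omega) (by omega) (by omega)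
      · exact h.lw _ _ _ _ (by omega) (by omega) (by omega) (by omega) (by omega) (by omega)
      · exact h.lw _ _ _ _ (by omega) (by omega) (by omega) (by omega) (by omega) (by omega)
      · exact h.lw _ _ _ _ (by omega) (by omega) (by omega) (by omega) (by omega) (by omega)
      · exact h.lw _ _ _ _ (by omega) (by omega) (by omega) (by omega) (by omega) (by omega)
      · exact h.lw _ _ _ _ (by omega) (by omega) (by omega) (by omega) (by omega) (by omega)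
      · exact h.lw _ _ _ _ (by omega) (by omega) (by omega) (by omega) (by omega) (by omega)
      · exact h.lw _ _ _ _ (by omega) (by omega) (by omega) (by omega) (by omega) (by omega)
    · rcases hx with ⟨rfl, rfl, rfl, rfl⟩ | ⟨rfl, rfl, rfl, rfl⟩ | ⟨rfl, rfl, rfl, rfl⟩ |
        ⟨rfl, rfl, rfl, rfl⟩ | ⟨rfl, rfl, rfl, rfl⟩ | ⟨rfl, rfl, rfl, rfl⟩ | ⟨rfl, rfl, rfl, rfl⟩ |
        ⟨rfl, rfl, rfl, rfl⟩ | ⟨rfl, rfl, rfl, rfl⟩ | ⟨rfl, rfl, rfl, rfl⟩ | ⟨rfl, rfl, rfl, rfl⟩ |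
        ⟨rfl, rfl, rfl, rfl⟩
      · exact h.lw _ _ _ _ (by omega) (by omega) (by omega) (by omega) (by omega) (by omega)
      · exact h.lw _ _ _ _ (by omega) (by omega) (by omega) (by omega) (by omega) (by omega)
      · exact h.lw _ _ _ _ (by omega) (by omega) (by omega) (by omega) (by omega) (by omega)
      · exact h.lw _ _ _ _ (by omega) (by omega) (by omega) (by omega) (by omega) (by omega)
      · exact h.lw _ _ _ _ (by omega) (by omega) (by omega) (by omega) (by omega) (by omega)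
      · exact h.lw _ _ _ _ (by omega) (by omega) (by omega) (by omega) (by omega) (by omega)
      · exact h.lw _ _ _ _ (by omega) (by omega) (by omega) (by omega) (by omega) (by omega)
      · exact h.lw _ _ _ _ (by omega) (by omega) (by omega) (by omega) (by omega) (by omega)
      · exact h.lw _ _ _ _ (by omega) (by omega) (by omega) (by omega) (by omega) (by omega)
      · exact h.lw _ _ _ _ (by omega) (by omega) (by omega) (by omega) (by omega) (by omega)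
      · exact h.lw _ _ _ _ (by omega) (by omega) (by omega) (by omega) (by omega) (by omega)
      · exact h.lw _ _ _ _ (by omega) (by omega) (by omega) (by omega) (by omega) (by omega)
    · rcases hx with ⟨rfl, rfl, rfl, rfl⟩ | ⟨rfl, rfl, rfl, rfl⟩ | ⟨rfl, rfl, rfl, rfl⟩ |
        ⟨rfl, rfl, rfl, rfl⟩ | ⟨rfl, rfl, rfl, rfl⟩ | ⟨rfl, rfl, rfl, rfl⟩ | ⟨rfl, rfl, rfl, rfl⟩ |
        ⟨rfl, rfl, rfl, rfl⟩ | ⟨rfl, rfl, rfl, rfl⟩ | ⟨rfl, rfl, rfl, rfl⟩ | ⟨rfl, rfl, rfl, rfl⟩ |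
        ⟨rfl, rfl, rfl, rfl⟩
      · exact zrm1i h.T hf (j := 4) (p := 0) (by omega) (by omega) (by omega) (by omega) (by omega) (by omega) (by omega)
      · exact zrm1i h.T hf (j := 4) (p := 0) (by omega) (by omega) (by omega) (by omega) (by omega) (by omega) (by omega)
      · exact zrm1i h.T hf (j := 4) (p := 0) (by omega) (by omega) (by omega) (by omega) (by omega) (by omega) (by omega)
      · exact zrm1 h.T hf (j := 3) (p := 0) (by omega) (by omega) (by omega) (by omega) (by omega) (by omega) (by omega)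
      · exact zrm1i h.T hf (j := 4) (p := 0) (by omega) (by omega) (by omega) (by omega) (by omega) (by omega) (by omega)
      · exact zrm1i h.T hf (j := 4) (p := 0) (by omega) (by omega) (by omega) (by omega) (by omega) (by omega) (by omega)
      · exact zrm1 h.T hf (j := 3) (p := 0) (by omega) (by omega) (by omega) (by omega) (by omega) (by omega) (by omega)
      · exact zrm1i h.T hf (j := 4) (p := 0) (by omega) (by omega) (by omega) (by omega) (by omega) (by omega) (by omega)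
      · exact zrm1i h.T hf (j := 4) (p := 0) (by omega) (by omega) (by omega) (by omega) (by omega) (by omega) (by omega)
      · exact zrm1 h.T hf (j := 3) (p := 0) (by omega) (by omega) (by omega) (by omega) (by omega) (by omega) (by omega)
      · exact zrm1i h.T hf (j := 4) (p := 1) (by omega) (by omega) (by omega) (by omega) (by omega) (by omega) (by omega)
      · exact zrm1 h.T hf (j := 3) (p := 1) (by omega) (by omega) (by omega) (by omega) (by omega) (by omega) (by omega)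
    · rcases hx with ⟨rfl, rfl, rfl, rfl⟩ | ⟨rfl, rfl, rfl, rfl⟩ | ⟨rfl, rfl, rfl, rfl⟩ |
        ⟨rfl, rfl, rfl, rfl⟩ | ⟨rfl, rfl, rfl, rfl⟩ | ⟨rfl, rfl, rfl, rfl⟩ | ⟨rfl, rfl, rfl, rfl⟩ |
        ⟨rfl, rfl, rfl, rfl⟩ | ⟨rfl, rfl, rfl, rfl⟩ | ⟨rfl, rfl, rfl, rfl⟩ | ⟨rfl, rfl, rfl, rfl⟩ |
        ⟨rfl, rfl, rfl, rfl⟩
      · exact zrm1i h.T hf (j := 4) (p := 1) (by omega) (by omega) (by omega) (by omega) (by omega) (by omega) (by omega)
      · exact zrm1 h.T hf (j := 3) (p := 1) (by omega) (by omega) (by omega) (by omega) (by omega) (by omega) (by omega)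
      · exact zrm1i h.T hf (j := 4) (p := 1) (by omega) (by omega) (by omega) (by omega) (by omega) (by omega) (by omega)
      · exact zrm1 h.T hf (j := 3) (p := 1) (by omega) (by omega) (by omega) (by omega) (by omega) (by omega) (by omega)
      · exact h.T.p0i hf (j := 4) (by omega) (by omega) (by omega) (by omega) (by omega) (by omega)
      · exact zrm1 h.T hf (j := 3) (p := 1) (by omega) (by omega) (by omega) (by omega) (by omega) (by omega) (by omega)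
      · exact h.T.p0i hf (j := 4) (by omega) (by omega) (by omega) (by omega) (by omega) (by omega)
      · exact h.T.p0i hf (j := 4) (by omega) (by omega) (by omega) (by omega) (by omega) (by omega)
      · exact zrm1i h.T hf (j := 3) (p := 0) (by omega) (by omega) (by omega) (by omega) (by omega) (by omega) (by omega)
      · exact zrm1 h.T hf (j := 2) (p := 0) (by omega) (by omega) (by omega) (by omega) (by omega) (by omega) (by omega)
      · exact zrm1i h.T hf (j := 3) (p := 0) (by omega) (by omega) (by omega) (by omega) (by omega) (by omega) (by omega)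
      · exact zrm1 h.T hf (j := 2) (p := 0) (by omega) (by omega) (by omega) (by omega) (by omega) (by omega) (by omega)
    · rcases hx with ⟨rfl, rfl, rfl, rfl⟩ | ⟨rfl, rfl, rfl, rfl⟩ | ⟨rfl, rfl, rfl, rfl⟩ |
        ⟨rfl, rfl, rfl, rfl⟩ | ⟨rfl, rfl, rfl, rfl⟩ | ⟨rfl, rfl, rfl, rfl⟩ | ⟨rfl, rfl, rfl, rfl⟩ |
        ⟨rfl, rfl, rfl, rfl⟩ | ⟨rfl, rfl, rfl, rfl⟩ | ⟨rfl, rfl, rfl, rfl⟩ | ⟨rfl, rfl, rfl, rfl⟩ |
        ⟨rfl, rfl, rfl, rfl⟩
      · exact zrm1i h.T hf (j := 3) (p := 0) (by omega) (by omega) (by omega) (by omega) (by omega) (by omega) (by omega)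
      · exact zrm1 h.T hf (j := 2) (p := 0) (by omega) (by omega) (by omega) (by omega) (by omega) (by omega) (by omega)
      · exact zrm1i h.T hf (j := 3) (p := 0) (by omega) (by omega) (by omega) (by omega) (by omega) (by omega) (by omega)
      · exact zrm1 h.T hf (j := 2) (p := 0) (by omega) (by omega) (by omega) (by omega) (by omega) (by omega) (by omega)
      · exact h2 _ _ _ _ (by omega) (by omega) (by omega) (by omega) (by omega) (by omega)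
      · exact zrm1 h.T hf (j := 2) (p := 1) (by omega) (by omega) (by omega) (by omega) (by omega) (by omega) (by omega)
      · exact zrm1 h.T hf (j := 2) (p := 1) (by omega) (by omega) (by omega) (by omega) (by omega) (by omega) (by omega)
      · exact zrm1 h.T hf (j := 2) (p := 1) (by omega) (by omega) (by omega) (by omega) (by omega) (by omega) (by omega)
      · exact zrm1 h.T hf (j := 2) (p := 1) (by omega) (by omega) (by omega) (by omega) (by omega) (by omega) (by omega)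
      · exact zrm1 h.T hf (j := 2) (p := 1) (by omega) (by omega) (by omega) (by omega) (by omega) (by omega) (by omega)
      · exact zrm1 h.T hf (j := 2) (p := 1) (by omega) (by omega) (by omega) (by omega) (by omega) (by omega) (by omega)
      · exact h.T.p0 hf (j := 2) (by omega) (by omega) (by omega) (by omega) (by omega) (by omega)
    · rcases hx with ⟨rfl, rfl, rfl, rfl⟩ | ⟨rfl, rfl, rfl, rfl⟩ | ⟨rfl, rfl, rfl, rfl⟩ |
        ⟨rfl, rfl, rfl, rfl⟩ | ⟨rfl, rfl, rfl, rfl⟩ | ⟨rfl, rfl, rfl, rfl⟩ | ⟨rfl, rfl, rfl, rfl⟩ |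
        ⟨rfl, rfl, rfl, rfl⟩ | ⟨rfl, rfl, rfl, rfl⟩ | ⟨rfl, rfl, rfl, rfl⟩ | ⟨rfl, rfl, rfl, rfl⟩ |
        ⟨rfl, rfl, rfl, rfl⟩
      · exact h.T.p0 hf (j := 2) (by omega) (by omega) (by omega) (by omega) (by omega) (by omega)
      · exact zrm1 h.T hf (j := 1) (p := 0) (by omega) (by omega) (by omega) (by omega) (by omega) (by omega) (by omega)
      · exact zrm1 h.T hf (j := 1) (p := 0) (by omega) (by omega) (by omega) (by omega) (by omega) (by omega) (by omega)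
      · exact zrm1 h.T hf (j := 1) (p := 0) (by omega) (by omega) (by omega) (by omega) (by omega) (by omega) (by omega)
      · exact zrm1 h.T hf (j := 1) (p := 0) (by omega) (by omega) (by omega) (by omega) (by omega) (by omega) (by omega)
      · exact zrm1 h.T hf (j := 1) (p := 0) (by omega) (by omega) (by omega) (by omega) (by omega) (by omega) (by omega)
      · exact zrm1 h.T hf (j := 1) (p := 0) (by omega) (by omega) (by omega) (by omega) (by omega) (by omega) (by omega)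
      · exact zrm1 h.T hf (j := 1) (p := 0) (by omega) (by omega) (by omega) (by omega) (by omega) (by omega) (by omega)
      · exact zrm1 h.T hf (j := 1) (p := 0) (by omega) (by omega) (by omega) (by omega) (by omega) (by omega) (by omega)
      · exact zrm1 h.T hf (j := 1) (p := 0) (by omega) (by omega) (by omega) (by omega) (by omega) (by omega) (by omega)
      · exact zrm1 h.T hf (j := 1) (p := 0) (by omega) (by omega) (by omega) (by omega) (by omega) (by omega) (by omega)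
      · exact zrm1 h.T hf (j := 1) (p := 0) (by omega) (by omega) (by omega) (by omega) (by omega) (by omega) (by omega)
    · rcases hx with ⟨rfl, rfl, rfl, rfl⟩ | ⟨rfl, rfl, rfl, rfl⟩ | ⟨rfl, rfl, rfl, rfl⟩ |
        ⟨rfl, rfl, rfl, rfl⟩ | ⟨rfl, rfl, rfl, rfl⟩ | ⟨rfl, rfl, rfl, rfl⟩ | ⟨rfl, rfl, rfl, rfl⟩ |
        ⟨rfl, rfl, rfl, rfl⟩ | ⟨rfl, rfl, rfl, rfl⟩ | ⟨rfl, rfl, rfl, rfl⟩ | ⟨rfl, rfl, rfl, rfl⟩ |
        ⟨rfl, rfl, rfl, rfl⟩
      · exact zrm1 h.T hf (j := 1) (p := 0) (by omega) (by omega) (by omega) (by omega) (by omega) (by omega) (by omega)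
      · exact zrm1 h.T hf (j := 1) (p := 0) (by omega) (by omega) (by omega) (by omega) (by omega) (by omega) (by omega)
      · exact zrm1 h.T hf (j := 1) (p := 0) (by omega) (by omega) (by omega) (by omega) (by omega) (by omega) (by omega)
      · exact zrm1 h.T hf (j := 1) (p := 0) (by omega) (by omega) (by omega) (by omega) (by omega) (by omega) (by omega)
      · exact h.T.p0 hf (j := 1) (by omega) (by omega) (by omega) (by omega) (by omega) (by omega)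
      · exact zrm1 h.T hf (j := 1) (p := 1) (by omega) (by omega) (by omega) (by omega) (by omega) (by omega) (by omega)
      · exact zrm1 h.T hf (j := 1) (p := 1) (by omega) (by omega) (by omega) (by omega) (by omega) (by omega) (by omega)
      · exact zrm1 h.T hf (j := 1) (p := 1) (by omega) (by omega) (by omega) (by omega) (by omega) (by omega) (by omega)
      · exact h.T.p0 hf (j := 1) (by omega) (by omega) (by omega) (by omega) (by omega) (by omega)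
      · exact h.T.p0 hf (j := 1) (by omega) (by omega) (by omega) (by omega) (by omega) (by omega)
      · exact zrm1 h.T hf (j := 1) (p := 1) (by omega) (by omega) (by omega) (by omega) (by omega) (by omega) (by omega)
      · exact zrm1 h.T hf (j := 1) (p := 1) (by omega) (by omega) (by omega) (by omega) (by omega) (by omega) (by omega)
    · rcases hx with ⟨rfl, rfl, rfl, rfl⟩ | ⟨rfl, rfl, rfl, rfl⟩ | ⟨rfl, rfl, rfl, rfl⟩ |
        ⟨rfl, rfl, rfl, rfl⟩ | ⟨rfl, rfl, rfl, rfl⟩ | ⟨rfl, rfl, rfl, rfl⟩ | ⟨rfl, rfl, rfl, rfl⟩ |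
        ⟨rfl, rfl, rfl, rfl⟩ | ⟨rfl, rfl, rfl, rfl⟩ | ⟨rfl, rfl, rfl, rfl⟩ | ⟨rfl, rfl, rfl, rfl⟩ |
        ⟨rfl, rfl, rfl, rfl⟩
      · exact zrm1 h.T hf (j := 1) (p := 1) (by omega) (by omega) (by omega) (by omega) (by omega) (by omega) (by omega)
      · exact h.T.p0 hf (j := 1) (by omega) (by omega) (by omega) (by omega) (by omega) (by omega)
      · exact h.T.p0 hf (j := 1) (by omega) (by omega) (by omega) (by omega) (by omega) (by omega)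
      · exact h.T.p0 hf (j := 1) (by omega) (by omega) (by omega) (by omega) (by omega) (by omega)
      · exact h.T.p0 hf (j := 1) (by omega) (by omega) (by omega) (by omega) (by omega) (by omega)
      · exact h.T.p0 hf (j := 1) (by omega) (by omega) (by omega) (by omega) (by omega) (by omega)
      · exact h.T.p0 hf (j := 1) (by omega) (by omega) (by omega) (by omega) (by omega) (by omega)
      · exact h.T.p0i hf (j := 2) (by omega) (by omega) (by omega) (by omega) (by omega) (by omega)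
      · exact h.T.p0i hf (j := 2) (by omega) (by omega) (by omega) (by omega) (by omega) (by omega)
      · exact h.T.p0i hf (j := 2) (by omega) (by omega) (by omega) (by omega) (by omega) (by omega)
      · exact h.T.p0 hf (j := 1) (by omega) (by omega) (by omega) (by omega) (by omega) (by omega)
      · exact h.T.p0 hf (j := 1) (by omega) (by omega) (by omega) (by omega) (by omega) (by omega)
    · rcases hx with ⟨rfl, rfl, rfl, rfl⟩ | ⟨rfl, rfl, rfl, rfl⟩ | ⟨rfl, rfl, rfl, rfl⟩ |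
        ⟨rfl, rfl, rfl, rfl⟩ | ⟨rfl, rfl, rfl, rfl⟩ | ⟨rfl, rfl, rfl, rfl⟩ | ⟨rfl, rfl, rfl, rfl⟩ |
        ⟨rfl, rfl, rfl, rfl⟩
      · exact h.T.p0 hf (j := 1) (by omega) (by omega) (by omega) (by omega) (by omega) (by omega)
      · exact mt (WrapC.v3 h.c6 (by omega) (by omega) (by omega) (by omega) (by omega) (by omega) (by omega) (by omega)).mp (by omega)
      · exact mt (WrapC.v3 h.c6 (by omega) (by omega) (by omega) (by omega) (by omega) (by omega) (by omega) (by omega)).mp (by omega)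
      · exact mt (WrapC.v3 h.c6 (by omega) (by omega) (by omega) (by omega) (by omega) (by omega) (by omega) (by omega)).mp (by omega)
      · exact h.T.p0 hf (j := 0) (by omega) (by omega) (by omega) (by omega) (by omega) (by omega)
      · exact h.T.p0 hf (j := 0) (by omega) (by omega) (by omega) (by omega) (by omega) (by omega)
      · exact h.T.p0 hf (j := 0) (by omega) (by omega) (by omega) (by omega) (by omega) (by omega)
      · exact h.T.p0 hf (j := 0) (by omega) (by omega) (by omega) (by omega) (by omega) (by omega)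


/-- **`T1`, `d = 7`**: no beam in the column `2 n + 1` of `6 k + 4` in the row `c`. -/
theorem t1_7 (hf : Rule f) {k c n M : ℕ} (H : PL f k c n M) (hM : M + 4 = n)
    (f2 : ∀ y : ℕ, y % 2 = 1 → 2 * n ≤ y + 7 → y + 2 ≤ 2 * n → ¬ f (6 * k + 2) c (2 * n + 2) y) :
    ¬ f (6 * k + 4) c (2 * n + 1) (2 * n - 6) := by
  intro h
  have hN := H.T.hN2
  have g2 : ∀ M' R x y : ℕ, M' = 6 * k + 2 → R = c → x = 2 * n + 2 → y % 2 = 1 → 2 * n ≤ y + 7 →
      y + 2 ≤ 2 * n → ¬ f M' R x y := by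
    intro M' R x y e1 e2 e3 e4 e5 e6
    rw [e1, e2, e3]
    exact f2 y e4 e5 e6
  rcases E4.pl_tip4 hf H (x := 2 * n - 3) (by omega) (by omega) with h1 | h1
  · exact wa hf H hM h (by rwa [show 2 * n - 3 - 1 = 2 * n - 4 by omega] at h1) g2
  · exact wb hf H hM h (by rwa [show 2 * n - 3 + 2 = 2 * n - 1 by omega, show 2 * n - 3 + 1 = 2 * n - 2 by omega] at h1) g2

end Pool.Agent.SNT.E1T1
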