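import Pool.Agent.SNT.E1T2Z

set_option autoImplicit false
set_option synthInstance.maxSize 100000
set_option synthInstance.maxHeartbeats 4000000

/-! The facts of the window of `T2_5` and `db` (helper32) -/

namespace Pool.Agent.SNT.E1T2

open Pool.Agent.SNT Pool.Agent.SNT.Sig Pool.Agent.SNT.Loc Pool.Agent.SNT.LW Pool.Agent.SNT.NHZ Pool.Agent.SNT.D1E

variable {f : ℕ → ℕ → ℕ → ℕ → Prop}

theorem h_on2_s (hf : Rule f) {k b n M a0 b0 x0 : ℕ} (h : PL f k b n M) (hM : M + 4 = n)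
    (ha0 : a0 + 2 = 6 * k) (hb0 : b0 + 4 = b) (hx0 : x0 + 15 = 2 * n)
    (h2 : ∀ M' R x y : ℕ, M' = 6 * k + 2 → R = b → x = 2 * n + 2 → y % 2 = 1 → 2 * n ≤ y + 7 → y + 2 ≤ 2 * n → ¬ f M' R x y)
    (h6 : ∀ M' R x y : ℕ, M' = 6 * k + 6 → R = b → x = 2 * n + 2 → y % 2 = 1 → 2 * n ≤ y + 9 → y ≤ 2 * n + 1 → ¬ f M' R x y) {m p q : ℕ} (hx : h_on2 m p q = true) :
    f (a0 + 2) (b0 + m) (x0 + p) (x0 + q) := by
  have hk := h.T.hk
  have hb := h.T.hc
  have h4 := h.T.h4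
  have hbig := h.T.hb
  have hn := h.T.hN2
  unfold h_on2 at hx
  obtain ⟨e0, hx⟩ := and_l hx
  replace e0 := pr_iff e0
  obtain ⟨g1, g2, g3, g4, g5, g6, g7, g8⟩ := rg_iff hx
  exact (WrapC.v3 h.c0 (by omega) (by omega) (by omega) (by omega) (by omega) (by omega) (by omega) (by omega)).mpr (by omega)

theorem h_on4_s (hf : Rule f) {k b n M a0 b0 x0 : ℕ} (h : PL f k b n M) (hM : M + 4 = n)
    (ha0 : a0 + 2 = 6 * k) (hb0 : b0 + 4 = b) (hx0 : x0 + 15 = 2 * n)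
    (h2 : ∀ M' R x y : ℕ, M' = 6 * k + 2 → R = b → x = 2 * n + 2 → y % 2 = 1 → 2 * n ≤ y + 7 → y + 2 ≤ 2 * n → ¬ f M' R x y)
    (h6 : ∀ M' R x y : ℕ, M' = 6 * k + 6 → R = b → x = 2 * n + 2 → y % 2 = 1 → 2 * n ≤ y + 9 → y ≤ 2 * n + 1 → ¬ f M' R x y) {m p q : ℕ} (hx : h_on4 m p q = true) :
    f (a0 + 4) (b0 + m) (x0 + p) (x0 + q) := by
  have hk := h.T.hk
  have hb := h.T.hc
  have h4 := h.T.h4
  have hbig := h.T.hb
  have hn := h.T.hN2
  unfold h_on4 at hx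
  obtain ⟨e0, hx⟩ := and_l hx
  replace e0 := pr_iff e0
  obtain ⟨g1, g2, g3, g4, g5, g6, g7, g8⟩ := rg_iff hx
  exact (WrapC.v1 h.c2 (by omega) (by omega) (by omega) (by omega) (by omega) (by omega) (by omega) (by omega)).mpr (by omega)

theorem h_on6_s (hf : Rule f) {k b n M a0 b0 x0 : ℕ} (h : PL f k b n M) (hM : M + 4 = n)
    (ha0 : a0 + 2 = 6 * k) (hb0 : b0 + 4 = b) (hx0 : x0 + 15 = 2 * n)
    (h2 : ∀ M' R x y : ℕ, M' = 6 * k + 2 → R = b → x = 2 * n + 2 → y % 2 = 1 → 2 * n ≤ y + 7 → y + 2 ≤ 2 * n → ¬ f M' R x y)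
    (h6 : ∀ M' R x y : ℕ, M' = 6 * k + 6 → R = b → x = 2 * n + 2 → y % 2 = 1 → 2 * n ≤ y + 9 → y ≤ 2 * n + 1 → ¬ f M' R x y) {m p q : ℕ} (hx : h_on6 m p q = true) :
    f (a0 + 6) (b0 + m) (x0 + p) (x0 + q) := by
  have hk := h.T.hk
  have hb := h.T.hc
  have h4 := h.T.h4
  have hbig := h.T.hb
  have hn := h.T.hN2
  unfold h_on6 at hx
  rcases or_l hx with hx | hx
  · obtain ⟨e0, hx⟩ := and_l hx
    replace e0 := pr_iff e0
    obtain ⟨g1, g2, g3, g4, g5, g6, g7, g8⟩ := rg_iff hx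
    exact (WrapC.v3 h.c4a (by omega) (by omega) (by omega) (by omega) (by omega) (by omega) (by omega) (by omega)).mpr (by omega)
  obtain ⟨e0, hx⟩ := and_l hx
  replace e0 := pr_iff e0
  obtain ⟨e1, hx⟩ := and_l hx
  replace e1 := pr_iff e1
  obtain ⟨g1, g2, g3, g4, g5, g6, g7, g8⟩ := rg_iff hx
  exact (WrapC.v0 h.c4 (by omega) (by omega) (by omega) (by omega) (by omega) (by omega) (by omega)).mpr (by omega)

theorem h_on8_s (hf : Rule f) {k b n M a0 b0 x0 : ℕ} (h : PL f k b n M) (hM : M + 4 = n)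
    (ha0 : a0 + 2 = 6 * k) (hb0 : b0 + 4 = b) (hx0 : x0 + 15 = 2 * n)
    (h2 : ∀ M' R x y : ℕ, M' = 6 * k + 2 → R = b → x = 2 * n + 2 → y % 2 = 1 → 2 * n ≤ y + 7 → y + 2 ≤ 2 * n → ¬ f M' R x y)
    (h6 : ∀ M' R x y : ℕ, M' = 6 * k + 6 → R = b → x = 2 * n + 2 → y % 2 = 1 → 2 * n ≤ y + 9 → y ≤ 2 * n + 1 → ¬ f M' R x y) {m p q : ℕ} (hx : h_on8 m p q = true) :
    f (a0 + 8) (b0 + m) (x0 + p) (x0 + q) := by
  have hk := h.T.hk
  have hb := h.T.hc
  have h4 := h.T.h4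
  have hbig := h.T.hb
  have hn := h.T.hN2
  unfold h_on8 at hx
  obtain ⟨e0, hx⟩ := and_l hx
  replace e0 := pr_iff e0
  obtain ⟨g1, g2, g3, g4, g5, g6, g7, g8⟩ := rg_iff hx
  exact (WrapC.v3 h.c6 (by omega) (by omega) (by omega) (by omega) (by omega) (by omega) (by omega) (by omega)).mpr (by omega)

theorem h_zr1_s (hf : Rule f) {k b n M a0 b0 x0 : ℕ} (h : PL f k b n M) (hM : M + 4 = n)
    (ha0 : a0 + 2 = 6 * k) (hb0 : b0 + 4 = b) (hx0 : x0 + 15 = 2 * n)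
    (h2 : ∀ M' R x y : ℕ, M' = 6 * k + 2 → R = b → x = 2 * n + 2 → y % 2 = 1 → 2 * n ≤ y + 7 → y + 2 ≤ 2 * n → ¬ f M' R x y)
    (h6 : ∀ M' R x y : ℕ, M' = 6 * k + 6 → R = b → x = 2 * n + 2 → y % 2 = 1 → 2 * n ≤ y + 9 → y ≤ 2 * n + 1 → ¬ f M' R x y) {m p q : ℕ} (hx : h_zr1 m p q = true) :
    ¬ f (a0 + 1) (b0 + m) (x0 + p) (x0 + q) := by
  have hk := h.T.hk
  have hb := h.T.hc
  have h4 := h.T.h4
  have hbig := h.T.hb
  have hn := h.T.hN2
  unfold h_zr1 at hx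
  obtain ⟨g1, g2, g3, g4, g5, g6, g7, g8⟩ := rg_iff hx
  exact h.lw _ _ _ _ (by omega) (by omega) (by omega) (by omega) (by omega) (by omega)

theorem h_zr2_s (hf : Rule f) {k b n M a0 b0 x0 : ℕ} (h : PL f k b n M) (hM : M + 4 = n)
    (ha0 : a0 + 2 = 6 * k) (hb0 : b0 + 4 = b) (hx0 : x0 + 15 = 2 * n)
    (h2 : ∀ M' R x y : ℕ, M' = 6 * k + 2 → R = b → x = 2 * n + 2 → y % 2 = 1 → 2 * n ≤ y + 7 → y + 2 ≤ 2 * n → ¬ f M' R x y)
    (h6 : ∀ M' R x y : ℕ, M' = 6 * k + 6 → R = b → x = 2 * n + 2 → y % 2 = 1 → 2 * n ≤ y + 9 → y ≤ 2 * n + 1 → ¬ f M' R x y) {m p q : ℕ} (hx : h_zr2 m p q = true) :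
    ¬ f (a0 + 2) (b0 + m) (x0 + p) (x0 + q) := by
  have hk := h.T.hk
  have hb := h.T.hc
  have h4 := h.T.h4
  have hbig := h.T.hb
  have hn := h.T.hN2
  unfold h_zr2 at hx
  rcases or_l hx with hx | hx
  · obtain ⟨g1, g2, g3, g4, g5, g6, g7, g8⟩ := rg_iff hx
    exact mt (WrapC.v3 h.c0 (by omega) (by omega) (by omega) (by omega) (by omega) (by omega) (by omega) (by omega)).mp (by omega)
  rcases or_l hx with hx | hx
  · obtain ⟨g1, g2, g3, g4, g5, g6, g7, g8⟩ := rg_iff hx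
    exact zrm1i h.T hf (j := 4) (p := 0) (by omega) (by omega) (by omega) (by omega) (by omega) (by omega) (by omega)
  obtain ⟨g1, g2, g3, g4, g5, g6, g7, g8⟩ := rg_iff hx
  exact zrm1 h.T hf (j := 3) (p := 0) (by omega) (by omega) (by omega) (by omega) (by omega) (by omega) (by omega)

theorem h_zr3_s (hf : Rule f) {k b n M a0 b0 x0 : ℕ} (h : PL f k b n M) (hM : M + 4 = n)
    (ha0 : a0 + 2 = 6 * k) (hb0 : b0 + 4 = b) (hx0 : x0 + 15 = 2 * n)
    (h2 : ∀ M' R x y : ℕ, M' = 6 * k + 2 → R = b → x = 2 * n + 2 → y % 2 = 1 → 2 * n ≤ y + 7 → y + 2 ≤ 2 * n → ¬ f M' R x y)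
    (h6 : ∀ M' R x y : ℕ, M' = 6 * k + 6 → R = b → x = 2 * n + 2 → y % 2 = 1 → 2 * n ≤ y + 9 → y ≤ 2 * n + 1 → ¬ f M' R x y) {m p q : ℕ} (hx : h_zr3 m p q = true) :
    ¬ f (a0 + 3) (b0 + m) (x0 + p) (x0 + q) := by
  have hk := h.T.hk
  have hb := h.T.hc
  have h4 := h.T.h4
  have hbig := h.T.hb
  have hn := h.T.hN2
  unfold h_zr3 at hx
  rcases or_l hx with hx | hx
  · obtain ⟨g1, g2, g3, g4, g5, g6, g7, g8⟩ := rg_iff hx
    exact h.T.rOut hf (j := 2) (t := 2) (p := 1) (by omega) (by omega) (by omega) (by omega) (by omega) (by omega) (by omega) (by omega)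
  rcases or_l hx with hx | hx
  · obtain ⟨g1, g2, g3, g4, g5, g6, g7, g8⟩ := rg_iff hx
    exact h.T.pmi hf (j := 3) (by omega) (by omega) (by omega) (by omega) (by omega) (by omega)
  rcases or_l hx with hx | hx
  · obtain ⟨g1, g2, g3, g4, g5, g6, g7, g8⟩ := rg_iff hx
    exact zrm1i h.T hf (j := 4) (p := 1) (by omega) (by omega) (by omega) (by omega) (by omega) (by omega) (by omega)
  rcases or_l hx with hx | hx
  · obtain ⟨g1, g2, g3, g4, g5, g6, g7, g8⟩ := rg_iff hx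
    exact zrm1 h.T hf (j := 3) (p := 1) (by omega) (by omega) (by omega) (by omega) (by omega) (by omega) (by omega)
  obtain ⟨g1, g2, g3, g4, g5, g6, g7, g8⟩ := rg_iff hx
  exact h.T.p0i hf (j := 4) (by omega) (by omega) (by omega) (by omega) (by omega) (by omega)

theorem h_zr4_s (hf : Rule f) {k b n M a0 b0 x0 : ℕ} (h : PL f k b n M) (hM : M + 4 = n)
    (ha0 : a0 + 2 = 6 * k) (hb0 : b0 + 4 = b) (hx0 : x0 + 15 = 2 * n)
    (h2 : ∀ M' R x y : ℕ, M' = 6 * k + 2 → R = b → x = 2 * n + 2 → y % 2 = 1 → 2 * n ≤ y + 7 → y + 2 ≤ 2 * n → ¬ f M' R x y)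
    (h6 : ∀ M' R x y : ℕ, M' = 6 * k + 6 → R = b → x = 2 * n + 2 → y % 2 = 1 → 2 * n ≤ y + 9 → y ≤ 2 * n + 1 → ¬ f M' R x y) {m p q : ℕ} (hx : h_zr4 m p q = true) :
    ¬ f (a0 + 4) (b0 + m) (x0 + p) (x0 + q) := by
  have hk := h.T.hk
  have hb := h.T.hc
  have h4 := h.T.h4
  have hbig := h.T.hb
  have hn := h.T.hN2
  unfold h_zr4 at hx
  rcases or_l hx with hx | hx
  · obtain ⟨g1, g2, g3, g4, g5, g6, g7, g8⟩ := rg_iff hx
    exact mt (WrapC.v1 h.c2 (by omega) (by omega) (by omega) (by omega) (by omega) (by omega) (by omega) (by omega)).mp (by omega)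
  rcases or_l hx with hx | hx
  · obtain ⟨g1, g2, g3, g4, g5, g6, g7, g8⟩ := rg_iff hx
    exact zrm1i h.T hf (j := 3) (p := 0) (by omega) (by omega) (by omega) (by omega) (by omega) (by omega) (by omega)
  rcases or_l hx with hx | hx
  · obtain ⟨g1, g2, g3, g4, g5, g6, g7, g8⟩ := rg_iff hx
    exact zrm1 h.T hf (j := 2) (p := 0) (by omega) (by omega) (by omega) (by omega) (by omega) (by omega) (by omega)
  rcases or_l hx with hx | hx
  · obtain ⟨g1, g2, g3, g4, g5, g6, g7, g8⟩ := rg_iff hx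
    exact h2 _ _ _ _ (by omega) (by omega) (by omega) (by omega) (by omega) (by omega)
  obtain ⟨g1, g2, g3, g4, g5, g6, g7, g8⟩ := rg_iff hx
  exact h2 _ _ _ _ (by omega) (by omega) (by omega) (by omega) (by omega) (by omega)

theorem h_zr5_s (hf : Rule f) {k b n M a0 b0 x0 : ℕ} (h : PL f k b n M) (hM : M + 4 = n)
    (ha0 : a0 + 2 = 6 * k) (hb0 : b0 + 4 = b) (hx0 : x0 + 15 = 2 * n)
    (h2 : ∀ M' R x y : ℕ, M' = 6 * k + 2 → R = b → x = 2 * n + 2 → y % 2 = 1 → 2 * n ≤ y + 7 → y + 2 ≤ 2 * n → ¬ f M' R x y)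
    (h6 : ∀ M' R x y : ℕ, M' = 6 * k + 6 → R = b → x = 2 * n + 2 → y % 2 = 1 → 2 * n ≤ y + 9 → y ≤ 2 * n + 1 → ¬ f M' R x y) {m p q : ℕ} (hx : h_zr5 m p q = true) :
    ¬ f (a0 + 5) (b0 + m) (x0 + p) (x0 + q) := by
  have hk := h.T.hk
  have hb := h.T.hc
  have h4 := h.T.h4
  have hbig := h.T.hb
  have hn := h.T.hN2
  unfold h_zr5 at hx
  rcases or_l hx with hx | hx
  · obtain ⟨g1, g2, g3, g4, g5, g6, g7, g8⟩ := rg_iff hx
    exact h.T.rOut hf (j := 1) (t := 2) (p := 1) (by omega) (by omega) (by omega) (by omega) (by omega) (by omega) (by omega) (by omega)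
  rcases or_l hx with hx | hx
  · obtain ⟨g1, g2, g3, g4, g5, g6, g7, g8⟩ := rg_iff hx
    exact h.T.pm hf (j := 1) (by omega) (by omega) (by omega) (by omega) (by omega) (by omega)
  rcases or_l hx with hx | hx
  · obtain ⟨g1, g2, g3, g4, g5, g6, g7, g8⟩ := rg_iff hx
    exact h.T.pmi hf (j := 2) (by omega) (by omega) (by omega) (by omega) (by omega) (by omega)
  rcases or_l hx with hx | hx
  · obtain ⟨g1, g2, g3, g4, g5, g6, g7, g8⟩ := rg_iff hx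
    exact zrm1i h.T hf (j := 3) (p := 1) (by omega) (by omega) (by omega) (by omega) (by omega) (by omega) (by omega)
  rcases or_l hx with hx | hx
  · obtain ⟨g1, g2, g3, g4, g5, g6, g7, g8⟩ := rg_iff hx
    exact zrm1 h.T hf (j := 2) (p := 1) (by omega) (by omega) (by omega) (by omega) (by omega) (by omega) (by omega)
  obtain ⟨g1, g2, g3, g4, g5, g6, g7, g8⟩ := rg_iff hx
  exact h.T.p0i hf (j := 3) (by omega) (by omega) (by omega) (by omega) (by omega) (by omega)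

theorem h_zr6_s (hf : Rule f) {k b n M a0 b0 x0 : ℕ} (h : PL f k b n M) (hM : M + 4 = n)
    (ha0 : a0 + 2 = 6 * k) (hb0 : b0 + 4 = b) (hx0 : x0 + 15 = 2 * n)
    (h2 : ∀ M' R x y : ℕ, M' = 6 * k + 2 → R = b → x = 2 * n + 2 → y % 2 = 1 → 2 * n ≤ y + 7 → y + 2 ≤ 2 * n → ¬ f M' R x y)
    (h6 : ∀ M' R x y : ℕ, M' = 6 * k + 6 → R = b → x = 2 * n + 2 → y % 2 = 1 → 2 * n ≤ y + 9 → y ≤ 2 * n + 1 → ¬ f M' R x y) {m p q : ℕ} (hx : h_zr6 m p q = true) :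
    ¬ f (a0 + 6) (b0 + m) (x0 + p) (x0 + q) := by
  have hk := h.T.hk
  have hb := h.T.hc
  have h4 := h.T.h4
  have hbig := h.T.hb
  have hn := h.T.hN2
  unfold h_zr6 at hx
  rcases or_l hx with hx | hx
  · obtain ⟨g1, g2, g3, g4, g5, g6, g7, g8⟩ := rg_iff hx
    exact mt (WrapC.v3 h.c4a (by omega) (by omega) (by omega) (by omega) (by omega) (by omega) (by omega) (by omega)).mp (by omega)
  rcases or_l hx with hx | hx
  · obtain ⟨e0, hx⟩ := and_l hx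
    replace e0 := pr_iff e0
    obtain ⟨g1, g2, g3, g4, g5, g6, g7, g8⟩ := rg_iff hx
    exact mt (WrapC.v3 h.c4a (by omega) (by omega) (by omega) (by omega) (by omega) (by omega) (by omega) (by omega)).mp (by omega)
  rcases or_l hx with hx | hx
  · obtain ⟨g1, g2, g3, g4, g5, g6, g7, g8⟩ := rg_iff hx
    exact h.T.rIn hf (j := 1) (t := 3) (p := 0) (by omega) (by omega) (by omega) (by omega) (by omega) (by omega) (by omega) (by omega)
  rcases or_l hx with hx | hx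
  · obtain ⟨g1, g2, g3, g4, g5, g6, g7, g8⟩ := rg_iff hx
    exact h.T.rOut hf (j := 0) (t := 2) (p := 0) (by omega) (by omega) (by omega) (by omega) (by omega) (by omega) (by omega) (by omega)
  rcases or_l hx with hx | hx
  · obtain ⟨g1, g2, g3, g4, g5, g6, g7, g8⟩ := rg_iff hx
    exact zrm1i h.T hf (j := 2) (p := 0) (by omega) (by omega) (by omega) (by omega) (by omega) (by omega) (by omega)
  rcases or_l hx with hx | hx
  · obtain ⟨g1, g2, g3, g4, g5, g6, g7, g8⟩ := rg_iff hx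
    exact zrm1 h.T hf (j := 1) (p := 0) (by omega) (by omega) (by omega) (by omega) (by omega) (by omega) (by omega)
  obtain ⟨g1, g2, g3, g4, g5, g6, g7, g8⟩ := rg_iff hx
  exact mt (WrapC.v1 h.c4 (by omega) (by omega) (by omega) (by omega) (by omega) (by omega) (by omega) (by omega)).mp (by omega)

theorem h_zr7_s (hf : Rule f) {k b n M a0 b0 x0 : ℕ} (h : PL f k b n M) (hM : M + 4 = n)
    (ha0 : a0 + 2 = 6 * k) (hb0 : b0 + 4 = b) (hx0 : x0 + 15 = 2 * n)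
    (h2 : ∀ M' R x y : ℕ, M' = 6 * k + 2 → R = b → x = 2 * n + 2 → y % 2 = 1 → 2 * n ≤ y + 7 → y + 2 ≤ 2 * n → ¬ f M' R x y)
    (h6 : ∀ M' R x y : ℕ, M' = 6 * k + 6 → R = b → x = 2 * n + 2 → y % 2 = 1 → 2 * n ≤ y + 9 → y ≤ 2 * n + 1 → ¬ f M' R x y) {m p q : ℕ} (hx : h_zr7 m p q = true) :
    ¬ f (a0 + 7) (b0 + m) (x0 + p) (x0 + q) := by
  have hk := h.T.hk
  have hb := h.T.hc
  have h4 := h.T.h4
  have hbig := h.T.hb
  have hn := h.T.hN2
  unfold h_zr7 at hx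
  rcases or_l hx with hx | hx
  · obtain ⟨g1, g2, g3, g4, g5, g6, g7, g8⟩ := rg_iff hx
    exact h.T.pm hf (j := 0) (by omega) (by omega) (by omega) (by omega) (by omega) (by omega)
  rcases or_l hx with hx | hx
  · obtain ⟨g1, g2, g3, g4, g5, g6, g7, g8⟩ := rg_iff hx
    exact h.T.pmi hf (j := 1) (by omega) (by omega) (by omega) (by omega) (by omega) (by omega)
  rcases or_l hx with hx | hx
  · obtain ⟨g1, g2, g3, g4, g5, g6, g7, g8⟩ := rg_iff hx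
    exact h.T.rOut hf (j := 0) (t := 2) (p := 1) (by omega) (by omega) (by omega) (by omega) (by omega) (by omega) (by omega) (by omega)
  rcases or_l hx with hx | hx
  · obtain ⟨g1, g2, g3, g4, g5, g6, g7, g8⟩ := rg_iff hx
    exact h.U.pmi hf (j := 1) (by omega) (by omega) (by omega) (by omega) (by omega) (by omega)
  rcases or_l hx with hx | hx
  · obtain ⟨g1, g2, g3, g4, g5, g6, g7, g8⟩ := rg_iff hx
    exact zrm1i h.T hf (j := 2) (p := 1) (by omega) (by omega) (by omega) (by omega) (by omega) (by omega) (by omega)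
  rcases or_l hx with hx | hx
  · obtain ⟨g1, g2, g3, g4, g5, g6, g7, g8⟩ := rg_iff hx
    exact zrm1 h.T hf (j := 1) (p := 1) (by omega) (by omega) (by omega) (by omega) (by omega) (by omega) (by omega)
  rcases or_l hx with hx | hx
  · obtain ⟨g1, g2, g3, g4, g5, g6, g7, g8⟩ := rg_iff hx
    exact h.T.p0 hf (j := 1) (by omega) (by omega) (by omega) (by omega) (by omega) (by omega)
  rcases or_l hx with hx | hx
  · obtain ⟨g1, g2, g3, g4, g5, g6, g7, g8⟩ := rg_iff hx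
    exact h.T.p0i hf (j := 2) (by omega) (by omega) (by omega) (by omega) (by omega) (by omega)
  obtain ⟨g1, g2, g3, g4, g5, g6, g7, g8⟩ := rg_iff hx
  exact h.U.p0i hf (j := 2) (by omega) (by omega) (by omega) (by omega) (by omega) (by omega)

theorem h_zr8_s (hf : Rule f) {k b n M a0 b0 x0 : ℕ} (h : PL f k b n M) (hM : M + 4 = n)
    (ha0 : a0 + 2 = 6 * k) (hb0 : b0 + 4 = b) (hx0 : x0 + 15 = 2 * n)
    (h2 : ∀ M' R x y : ℕ, M' = 6 * k + 2 → R = b → x = 2 * n + 2 → y % 2 = 1 → 2 * n ≤ y + 7 → y + 2 ≤ 2 * n → ¬ f M' R x y)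
    (h6 : ∀ M' R x y : ℕ, M' = 6 * k + 6 → R = b → x = 2 * n + 2 → y % 2 = 1 → 2 * n ≤ y + 9 → y ≤ 2 * n + 1 → ¬ f M' R x y) {m p q : ℕ} (hx : h_zr8 m p q = true) :
    ¬ f (a0 + 8) (b0 + m) (x0 + p) (x0 + q) := by
  have hk := h.T.hk
  have hb := h.T.hc
  have h4 := h.T.h4
  have hbig := h.T.hb
  have hn := h.T.hN2
  unfold h_zr8 at hx
  rcases or_l hx with hx | hx
  · obtain ⟨g1, g2, g3, g4, g5, g6, g7, g8⟩ := rg_iff hx
    exact mt (WrapC.v3 h.c6 (by omega) (by omega) (by omega) (by omega) (by omega) (by omega) (by omega) (by omega)).mp (by omega)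
  obtain ⟨g1, g2, g3, g4, g5, g6, g7, g8⟩ := rg_iff hx
  exact h6 _ _ _ _ (by omega) (by omega) (by omega) (by omega) (by omega) (by omega)

end Pool.Agent.SNT.E1T2
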