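import Pool.Agent.SNT.E1T2F1
import Pool.Agent.SNT.E1T2F2
import Pool.Agent.SNT.E1T2F3
import Pool.Agent.SNT.E1T2F4
import Pool.Agent.SNT.E1T2Fh
import Pool.Agent.SNT.E1T2Caa
import Pool.Agent.SNT.E1T2Cab
import Pool.Agent.SNT.E1T2Cba
import Pool.Agent.SNT.E1T2Cbb
import Pool.Agent.SNT.E1T2Ch

set_option autoImplicit false
set_option synthInstance.maxSize 100000
set_option synthInstance.maxHeartbeats 4000000

/-! `T2_7`, `T2_5` and `db` (helper32) -/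

namespace Pool.Agent.SNT.E1T2

open Pool.Agent.SNT Pool.Agent.SNT.Sig Pool.Agent.SNT.Loc Pool.Agent.SNT.LW Pool.Agent.SNT.NHZ Pool.Agent.SNT.D1E

variable {f : ℕ → ℕ → ℕ → ℕ → Prop}

theorem g_on_s (hf : Rule f) {k b n M a0 b0 x0 : ℕ} (h : PL f k b n M) (hM : M + 4 = n)
    (ha0 : a0 + 2 = 6 * k) (hb0 : b0 + 8 = b) (hx0 : x0 + 19 = 2 * n)
    (h2 : ∀ M' R x y : ℕ, M' = 6 * k + 2 → R = b → x = 2 * n + 2 → y % 2 = 1 → 2 * n ≤ y + 7 → y + 2 ≤ 2 * n → ¬ f M' R x y)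
    (h6 : ∀ M' R x y : ℕ, M' = 6 * k + 6 → R = b → x = 2 * n + 2 → y % 2 = 1 → 2 * n ≤ y + 9 → y ≤ 2 * n + 1 → ¬ f M' R x y) {j m p q : ℕ} (hx : g_on j m p q = true) :
    f (a0 + j) (b0 + m) (x0 + p) (x0 + q) := by
  unfold g_on at hx
  rcases or_l hx with hx | hx
  · obtain ⟨e, hx⟩ := and_l hx
    rw [Nat.beq_eq] at e
    subst e
    exact g_on2_s hf h hM ha0 hb0 hx0 h2 h6 hx
  rcases or_l hx with hx | hx
  · obtain ⟨e, hx⟩ := and_l hx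
    rw [Nat.beq_eq] at e
    subst e
    exact g_on4_s hf h hM ha0 hb0 hx0 h2 h6 hx
  rcases or_l hx with hx | hx
  · obtain ⟨e, hx⟩ := and_l hx
    rw [Nat.beq_eq] at e
    subst e
    exact g_on6_s hf h hM ha0 hb0 hx0 h2 h6 hx
  rcases or_l hx with hx | hx
  · obtain ⟨e, hx⟩ := and_l hx
    rw [Nat.beq_eq] at e
    subst e
    exact g_on8_s hf h hM ha0 hb0 hx0 h2 h6 hx
  rcases or_l hx with hx | hx
  · obtain ⟨e, hx⟩ := and_l hx
    rw [Nat.beq_eq] at e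
    subst e
    exact g_on10_s hf h hM ha0 hb0 hx0 h2 h6 hx
  obtain ⟨e, hx⟩ := and_l hx
  rw [Nat.beq_eq] at e
  subst e
  exact g_on12_s hf h hM ha0 hb0 hx0 h2 h6 hx

theorem g_zr_s (hf : Rule f) {k b n M a0 b0 x0 : ℕ} (h : PL f k b n M) (hM : M + 4 = n)
    (ha0 : a0 + 2 = 6 * k) (hb0 : b0 + 8 = b) (hx0 : x0 + 19 = 2 * n)
    (h2 : ∀ M' R x y : ℕ, M' = 6 * k + 2 → R = b → x = 2 * n + 2 → y % 2 = 1 → 2 * n ≤ y + 7 → y + 2 ≤ 2 * n → ¬ f M' R x y)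
    (h6 : ∀ M' R x y : ℕ, M' = 6 * k + 6 → R = b → x = 2 * n + 2 → y % 2 = 1 → 2 * n ≤ y + 9 → y ≤ 2 * n + 1 → ¬ f M' R x y) {j m p q : ℕ} (hx : g_zr j m p q = true) :
    ¬ f (a0 + j) (b0 + m) (x0 + p) (x0 + q) := by
  unfold g_zr at hx
  rcases or_l hx with hx | hx
  · obtain ⟨e, hx⟩ := and_l hx
    rw [Nat.beq_eq] at e
    subst e
    exact g_zr1_s hf h hM ha0 hb0 hx0 h2 h6 hx
  rcases or_l hx with hx | hx
  · obtain ⟨e, hx⟩ := and_l hx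
    rw [Nat.beq_eq] at e
    subst e
    exact g_zr2_s hf h hM ha0 hb0 hx0 h2 h6 hx
  rcases or_l hx with hx | hx
  · obtain ⟨e, hx⟩ := and_l hx
    rw [Nat.beq_eq] at e
    subst e
    exact g_zr3_s hf h hM ha0 hb0 hx0 h2 h6 hx
  rcases or_l hx with hx | hx
  · obtain ⟨e, hx⟩ := and_l hx
    rw [Nat.beq_eq] at e
    subst e
    exact g_zr4_s hf h hM ha0 hb0 hx0 h2 h6 hx
  rcases or_l hx with hx | hx
  · obtain ⟨e, hx⟩ := and_l hx
    rw [Nat.beq_eq] at e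
    subst e
    exact g_zr5_s hf h hM ha0 hb0 hx0 h2 h6 hx
  rcases or_l hx with hx | hx
  · obtain ⟨e, hx⟩ := and_l hx
    rw [Nat.beq_eq] at e
    subst e
    exact g_zr6_s hf h hM ha0 hb0 hx0 h2 h6 hx
  rcases or_l hx with hx | hx
  · obtain ⟨e, hx⟩ := and_l hx
    rw [Nat.beq_eq] at e
    subst e
    exact g_zr7_s hf h hM ha0 hb0 hx0 h2 h6 hx
  rcases or_l hx with hx | hx
  · obtain ⟨e, hx⟩ := and_l hx
    rw [Nat.beq_eq] at e
    subst e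
    exact g_zr8_s hf h hM ha0 hb0 hx0 h2 h6 hx
  rcases or_l hx with hx | hx
  · obtain ⟨e, hx⟩ := and_l hx
    rw [Nat.beq_eq] at e
    subst e
    exact g_zr9_s hf h hM ha0 hb0 hx0 h2 h6 hx
  obtain ⟨e, hx⟩ := and_l hx
  rw [Nat.beq_eq] at e
  subst e
  exact g_zr10_s hf h hM ha0 hb0 hx0 h2 h6 hx

theorem h_on_s (hf : Rule f) {k b n M a0 b0 x0 : ℕ} (h : PL f k b n M) (hM : M + 4 = n)
    (ha0 : a0 + 2 = 6 * k) (hb0 : b0 + 4 = b) (hx0 : x0 + 15 = 2 * n)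
    (h2 : ∀ M' R x y : ℕ, M' = 6 * k + 2 → R = b → x = 2 * n + 2 → y % 2 = 1 → 2 * n ≤ y + 7 → y + 2 ≤ 2 * n → ¬ f M' R x y)
    (h6 : ∀ M' R x y : ℕ, M' = 6 * k + 6 → R = b → x = 2 * n + 2 → y % 2 = 1 → 2 * n ≤ y + 9 → y ≤ 2 * n + 1 → ¬ f M' R x y) {j m p q : ℕ} (hx : h_on j m p q = true) :
    f (a0 + j) (b0 + m) (x0 + p) (x0 + q) := by
  unfold h_on at hx
  rcases or_l hx with hx | hx
  · obtain ⟨e, hx⟩ := and_l hx
    rw [Nat.beq_eq] at e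
    subst e
    exact h_on2_s hf h hM ha0 hb0 hx0 h2 h6 hx
  rcases or_l hx with hx | hx
  · obtain ⟨e, hx⟩ := and_l hx
    rw [Nat.beq_eq] at e
    subst e
    exact h_on4_s hf h hM ha0 hb0 hx0 h2 h6 hx
  rcases or_l hx with hx | hx
  · obtain ⟨e, hx⟩ := and_l hx
    rw [Nat.beq_eq] at e
    subst e
    exact h_on6_s hf h hM ha0 hb0 hx0 h2 h6 hx
  obtain ⟨e, hx⟩ := and_l hx
  rw [Nat.beq_eq] at e
  subst e
  exact h_on8_s hf h hM ha0 hb0 hx0 h2 h6 hx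

theorem h_zr_s (hf : Rule f) {k b n M a0 b0 x0 : ℕ} (h : PL f k b n M) (hM : M + 4 = n)
    (ha0 : a0 + 2 = 6 * k) (hb0 : b0 + 4 = b) (hx0 : x0 + 15 = 2 * n)
    (h2 : ∀ M' R x y : ℕ, M' = 6 * k + 2 → R = b → x = 2 * n + 2 → y % 2 = 1 → 2 * n ≤ y + 7 → y + 2 ≤ 2 * n → ¬ f M' R x y)
    (h6 : ∀ M' R x y : ℕ, M' = 6 * k + 6 → R = b → x = 2 * n + 2 → y % 2 = 1 → 2 * n ≤ y + 9 → y ≤ 2 * n + 1 → ¬ f M' R x y) {j m p q : ℕ} (hx : h_zr j m p q = true) :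
    ¬ f (a0 + j) (b0 + m) (x0 + p) (x0 + q) := by
  unfold h_zr at hx
  rcases or_l hx with hx | hx
  · obtain ⟨e, hx⟩ := and_l hx
    rw [Nat.beq_eq] at e
    subst e
    exact h_zr1_s hf h hM ha0 hb0 hx0 h2 h6 hx
  rcases or_l hx with hx | hx
  · obtain ⟨e, hx⟩ := and_l hx
    rw [Nat.beq_eq] at e
    subst e
    exact h_zr2_s hf h hM ha0 hb0 hx0 h2 h6 hx
  rcases or_l hx with hx | hx
  · obtain ⟨e, hx⟩ := and_l hx
    rw [Nat.beq_eq] at e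
    subst e
    exact h_zr3_s hf h hM ha0 hb0 hx0 h2 h6 hx
  rcases or_l hx with hx | hx
  · obtain ⟨e, hx⟩ := and_l hx
    rw [Nat.beq_eq] at e
    subst e
    exact h_zr4_s hf h hM ha0 hb0 hx0 h2 h6 hx
  rcases or_l hx with hx | hx
  · obtain ⟨e, hx⟩ := and_l hx
    rw [Nat.beq_eq] at e
    subst e
    exact h_zr5_s hf h hM ha0 hb0 hx0 h2 h6 hx
  rcases or_l hx with hx | hx
  · obtain ⟨e, hx⟩ := and_l hx
    rw [Nat.beq_eq] at e
    subst e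
    exact h_zr6_s hf h hM ha0 hb0 hx0 h2 h6 hx
  rcases or_l hx with hx | hx
  · obtain ⟨e, hx⟩ := and_l hx
    rw [Nat.beq_eq] at e
    subst e
    exact h_zr7_s hf h hM ha0 hb0 hx0 h2 h6 hx
  obtain ⟨e, hx⟩ := and_l hx
  rw [Nat.beq_eq] at e
  subst e
  exact h_zr8_s hf h hM ha0 hb0 hx0 h2 h6 hx

theorem t27aa (hf : Rule f) {k b n M : ℕ} (h : PL f k b n M) (hM : M + 4 = n)
    (t_4_0_29_22 : f (6 * k + 4) b (2 * n - 1) (2 * n - 8))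
    (t_4_2_27_16 : f (6 * k + 4) (b - 2) (2 * n - 3) (2 * n - 14))
    (t_0_6_13_12 : f (6 * k) (b - 6) (2 * n - 17) (2 * n - 18))
    (t_2_4_15_14 : f (6 * k + 2) (b - 4) (2 * n - 15) (2 * n - 16))
    (h2 : ∀ M' R x y : ℕ, M' = 6 * k + 2 → R = b → x = 2 * n + 2 → y % 2 = 1 → 2 * n ≤ y + 7 → y + 2 ≤ 2 * n → ¬ f M' R x y)
    (h6 : ∀ M' R x y : ℕ, M' = 6 * k + 6 → R = b → x = 2 * n + 2 → y % 2 = 1 → 2 * n ≤ y + 9 → y ≤ 2 * n + 1 → ¬ f M' R x y) :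
    False := by
  have hk := h.T.hk
  have hb := h.T.hc
  have h4 := h.T.h4
  have hbig := h.T.hb
  have hn := h.T.hN2
  obtain ⟨a0, ha0⟩ : ∃ z, z + 2 = 6 * k := ⟨6 * k - 2, by omega⟩
  obtain ⟨b0, hb0⟩ : ∃ z, z + 8 = b := ⟨b - 8, by omega⟩
  obtain ⟨x0, hx0⟩ : ∃ z, z + 19 = 2 * n := ⟨2 * n - 19, by omega⟩
  refine check_sound hf (a0 := a0) (b0 := b0) (x0 := x0) (y0 := x0) t27aa_chk
    ⟨fun _ => rfl, fun h => absurd h (by decide), fun h => absurd h (by decide), by omega, by omega,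
      by omega, by omega⟩ ?_ ?_
  · intro j m p q hr hx
    clear hr
    rcases or_l hx with hx | hx
    · obtain ⟨rfl, rfl, rfl, rfl⟩ := tg_iff hx
      rwa [show a0 + 6 = 6 * k + 4 by omega, show b0 + 8 = b by omega, show x0 + 18 = 2 * n - 1 by omega, show x0 + 11 = 2 * n - 8 by omega]
    rcases or_l hx with hx | hx
    · obtain ⟨rfl, rfl, rfl, rfl⟩ := tg_iff hx
      rwa [show a0 + 6 = 6 * k + 4 by omega, show b0 + 6 = b - 2 by omega, show x0 + 16 = 2 * n - 3 by omega, show x0 + 5 = 2 * n - 14 by omega]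
    rcases or_l hx with hx | hx
    · obtain ⟨rfl, rfl, rfl, rfl⟩ := tg_iff hx
      rwa [show a0 + 2 = 6 * k by omega, show b0 + 2 = b - 6 by omega, show x0 + 2 = 2 * n - 17 by omega, show x0 + 1 = 2 * n - 18 by omega]
    rcases or_l hx with hx | hx
    · obtain ⟨rfl, rfl, rfl, rfl⟩ := tg_iff hx
      rwa [show a0 + 4 = 6 * k + 2 by omega, show b0 + 4 = b - 4 by omega, show x0 + 4 = 2 * n - 15 by omega, show x0 + 3 = 2 * n - 16 by omega]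
    exact g_on_s hf h hM ha0 hb0 hx0 h2 h6 hx
  · intro j m p q hr hx
    clear hr
    exact g_zr_s hf h hM ha0 hb0 hx0 h2 h6 hx

theorem t27ab (hf : Rule f) {k b n M : ℕ} (h : PL f k b n M) (hM : M + 4 = n)
    (t_4_0_29_22 : f (6 * k + 4) b (2 * n - 1) (2 * n - 8))
    (t_4_2_27_16 : f (6 * k + 4) (b - 2) (2 * n - 3) (2 * n - 14))
    (t_0_6_13_12 : f (6 * k) (b - 6) (2 * n - 17) (2 * n - 18))
    (t_2_4_17_16 : f (6 * k + 2) (b - 4) (2 * n - 13) (2 * n - 14))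
    (h2 : ∀ M' R x y : ℕ, M' = 6 * k + 2 → R = b → x = 2 * n + 2 → y % 2 = 1 → 2 * n ≤ y + 7 → y + 2 ≤ 2 * n → ¬ f M' R x y)
    (h6 : ∀ M' R x y : ℕ, M' = 6 * k + 6 → R = b → x = 2 * n + 2 → y % 2 = 1 → 2 * n ≤ y + 9 → y ≤ 2 * n + 1 → ¬ f M' R x y) :
    False := by
  have hk := h.T.hk
  have hb := h.T.hc
  have h4 := h.T.h4
  have hbig := h.T.hb
  have hn := h.T.hN2
  obtain ⟨a0, ha0⟩ : ∃ z, z + 2 = 6 * k := ⟨6 * k - 2, by omega⟩
  obtain ⟨b0, hb0⟩ : ∃ z, z + 8 = b := ⟨b - 8, by omega⟩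
  obtain ⟨x0, hx0⟩ : ∃ z, z + 19 = 2 * n := ⟨2 * n - 19, by omega⟩
  refine check_sound hf (a0 := a0) (b0 := b0) (x0 := x0) (y0 := x0) t27ab_chk
    ⟨fun _ => rfl, fun h => absurd h (by decide), fun h => absurd h (by decide), by omega, by omega,
      by omega, by omega⟩ ?_ ?_
  · intro j m p q hr hx
    clear hr
    rcases or_l hx with hx | hx
    · obtain ⟨rfl, rfl, rfl, rfl⟩ := tg_iff hx
      rwa [show a0 + 6 = 6 * k + 4 by omega, show b0 + 8 = b by omega, show x0 + 18 = 2 * n - 1 by omega, show x0 + 11 = 2 * n - 8 by omega]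
    rcases or_l hx with hx | hx
    · obtain ⟨rfl, rfl, rfl, rfl⟩ := tg_iff hx
      rwa [show a0 + 6 = 6 * k + 4 by omega, show b0 + 6 = b - 2 by omega, show x0 + 16 = 2 * n - 3 by omega, show x0 + 5 = 2 * n - 14 by omega]
    rcases or_l hx with hx | hx
    · obtain ⟨rfl, rfl, rfl, rfl⟩ := tg_iff hx
      rwa [show a0 + 2 = 6 * k by omega, show b0 + 2 = b - 6 by omega, show x0 + 2 = 2 * n - 17 by omega, show x0 + 1 = 2 * n - 18 by omega]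
    rcases or_l hx with hx | hx
    · obtain ⟨rfl, rfl, rfl, rfl⟩ := tg_iff hx
      rwa [show a0 + 4 = 6 * k + 2 by omega, show b0 + 4 = b - 4 by omega, show x0 + 6 = 2 * n - 13 by omega, show x0 + 5 = 2 * n - 14 by omega]
    exact g_on_s hf h hM ha0 hb0 hx0 h2 h6 hx
  · intro j m p q hr hx
    clear hr
    exact g_zr_s hf h hM ha0 hb0 hx0 h2 h6 hx

theorem t27ba (hf : Rule f) {k b n M : ℕ} (h : PL f k b n M) (hM : M + 4 = n)
    (t_4_0_29_22 : f (6 * k + 4) b (2 * n - 1) (2 * n - 8))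
    (t_4_2_27_16 : f (6 * k + 4) (b - 2) (2 * n - 3) (2 * n - 14))
    (t_0_6_15_14 : f (6 * k) (b - 6) (2 * n - 15) (2 * n - 16))
    (t_2_4_15_14 : f (6 * k + 2) (b - 4) (2 * n - 15) (2 * n - 16))
    (h2 : ∀ M' R x y : ℕ, M' = 6 * k + 2 → R = b → x = 2 * n + 2 → y % 2 = 1 → 2 * n ≤ y + 7 → y + 2 ≤ 2 * n → ¬ f M' R x y)
    (h6 : ∀ M' R x y : ℕ, M' = 6 * k + 6 → R = b → x = 2 * n + 2 → y % 2 = 1 → 2 * n ≤ y + 9 → y ≤ 2 * n + 1 → ¬ f M' R x y) :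
    False := by
  have hk := h.T.hk
  have hb := h.T.hc
  have h4 := h.T.h4
  have hbig := h.T.hb
  have hn := h.T.hN2
  obtain ⟨a0, ha0⟩ : ∃ z, z + 2 = 6 * k := ⟨6 * k - 2, by omega⟩
  obtain ⟨b0, hb0⟩ : ∃ z, z + 8 = b := ⟨b - 8, by omega⟩
  obtain ⟨x0, hx0⟩ : ∃ z, z + 19 = 2 * n := ⟨2 * n - 19, by omega⟩
  refine check_sound hf (a0 := a0) (b0 := b0) (x0 := x0) (y0 := x0) t27ba_chk
    ⟨fun _ => rfl, fun h => absurd h (by decide), fun h => absurd h (by decide), by omega, by omega,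
      by omega, by omega⟩ ?_ ?_
  · intro j m p q hr hx
    clear hr
    rcases or_l hx with hx | hx
    · obtain ⟨rfl, rfl, rfl, rfl⟩ := tg_iff hx
      rwa [show a0 + 6 = 6 * k + 4 by omega, show b0 + 8 = b by omega, show x0 + 18 = 2 * n - 1 by omega, show x0 + 11 = 2 * n - 8 by omega]
    rcases or_l hx with hx | hx
    · obtain ⟨rfl, rfl, rfl, rfl⟩ := tg_iff hx
      rwa [show a0 + 6 = 6 * k + 4 by omega, show b0 + 6 = b - 2 by omega, show x0 + 16 = 2 * n - 3 by omega, show x0 + 5 = 2 * n - 14 by omega]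
    rcases or_l hx with hx | hx
    · obtain ⟨rfl, rfl, rfl, rfl⟩ := tg_iff hx
      rwa [show a0 + 2 = 6 * k by omega, show b0 + 2 = b - 6 by omega, show x0 + 4 = 2 * n - 15 by omega, show x0 + 3 = 2 * n - 16 by omega]
    rcases or_l hx with hx | hx
    · obtain ⟨rfl, rfl, rfl, rfl⟩ := tg_iff hx
      rwa [show a0 + 4 = 6 * k + 2 by omega, show b0 + 4 = b - 4 by omega, show x0 + 4 = 2 * n - 15 by omega, show x0 + 3 = 2 * n - 16 by omega]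
    exact g_on_s hf h hM ha0 hb0 hx0 h2 h6 hx
  · intro j m p q hr hx
    clear hr
    exact g_zr_s hf h hM ha0 hb0 hx0 h2 h6 hx

theorem t27bb (hf : Rule f) {k b n M : ℕ} (h : PL f k b n M) (hM : M + 4 = n)
    (t_4_0_29_22 : f (6 * k + 4) b (2 * n - 1) (2 * n - 8))
    (t_4_2_27_16 : f (6 * k + 4) (b - 2) (2 * n - 3) (2 * n - 14))
    (t_0_6_15_14 : f (6 * k) (b - 6) (2 * n - 15) (2 * n - 16))
    (t_2_4_17_16 : f (6 * k + 2) (b - 4) (2 * n - 13) (2 * n - 14))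
    (h2 : ∀ M' R x y : ℕ, M' = 6 * k + 2 → R = b → x = 2 * n + 2 → y % 2 = 1 → 2 * n ≤ y + 7 → y + 2 ≤ 2 * n → ¬ f M' R x y)
    (h6 : ∀ M' R x y : ℕ, M' = 6 * k + 6 → R = b → x = 2 * n + 2 → y % 2 = 1 → 2 * n ≤ y + 9 → y ≤ 2 * n + 1 → ¬ f M' R x y) :
    False := by
  have hk := h.T.hk
  have hb := h.T.hc
  have h4 := h.T.h4
  have hbig := h.T.hb
  have hn := h.T.hN2
  obtain ⟨a0, ha0⟩ : ∃ z, z + 2 = 6 * k := ⟨6 * k - 2, by omega⟩
  obtain ⟨b0, hb0⟩ : ∃ z, z + 8 = b := ⟨b - 8, by omega⟩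
  obtain ⟨x0, hx0⟩ : ∃ z, z + 19 = 2 * n := ⟨2 * n - 19, by omega⟩
  refine check_sound hf (a0 := a0) (b0 := b0) (x0 := x0) (y0 := x0) t27bb_chk
    ⟨fun _ => rfl, fun h => absurd h (by decide), fun h => absurd h (by decide), by omega, by omega,
      by omega, by omega⟩ ?_ ?_
  · intro j m p q hr hx
    clear hr
    rcases or_l hx with hx | hx
    · obtain ⟨rfl, rfl, rfl, rfl⟩ := tg_iff hx
      rwa [show a0 + 6 = 6 * k + 4 by omega, show b0 + 8 = b by omega, show x0 + 18 = 2 * n - 1 by omega, show x0 + 11 = 2 * n - 8 by omega]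
    rcases or_l hx with hx | hx
    · obtain ⟨rfl, rfl, rfl, rfl⟩ := tg_iff hx
      rwa [show a0 + 6 = 6 * k + 4 by omega, show b0 + 6 = b - 2 by omega, show x0 + 16 = 2 * n - 3 by omega, show x0 + 5 = 2 * n - 14 by omega]
    rcases or_l hx with hx | hx
    · obtain ⟨rfl, rfl, rfl, rfl⟩ := tg_iff hx
      rwa [show a0 + 2 = 6 * k by omega, show b0 + 2 = b - 6 by omega, show x0 + 4 = 2 * n - 15 by omega, show x0 + 3 = 2 * n - 16 by omega]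
    rcases or_l hx with hx | hx
    · obtain ⟨rfl, rfl, rfl, rfl⟩ := tg_iff hx
      rwa [show a0 + 4 = 6 * k + 2 by omega, show b0 + 4 = b - 4 by omega, show x0 + 6 = 2 * n - 13 by omega, show x0 + 5 = 2 * n - 14 by omega]
    exact g_on_s hf h hM ha0 hb0 hx0 h2 h6 hx
  · intro j m p q hr hx
    clear hr
    exact g_zr_s hf h hM ha0 hb0 hx0 h2 h6 hx

theorem t25A (hf : Rule f) {k b n M : ℕ} (h : PL f k b n M) (hM : M + 4 = n)
    (t_4_0_29_24 : f (6 * k + 4) b (2 * n - 1) (2 * n - 6))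
    (t_4_2_27_16 : f (6 * k + 4) (b - 2) (2 * n - 3) (2 * n - 14))
    (t_4_0_30_23 : f (6 * k + 4) b (2 * n) (2 * n - 7))
    (t_4_0_31_26 : ¬ f (6 * k + 4) b (2 * n + 1) (2 * n - 4))
    (t_4_0_31_24 : ¬ f (6 * k + 4) b (2 * n + 1) (2 * n - 6))
    (t_4_0_29_22 : ¬ f (6 * k + 4) b (2 * n - 1) (2 * n - 8))
    (h2 : ∀ M' R x y : ℕ, M' = 6 * k + 2 → R = b → x = 2 * n + 2 → y % 2 = 1 → 2 * n ≤ y + 7 → y + 2 ≤ 2 * n → ¬ f M' R x y)
    (h6 : ∀ M' R x y : ℕ, M' = 6 * k + 6 → R = b → x = 2 * n + 2 → y % 2 = 1 → 2 * n ≤ y + 9 → y ≤ 2 * n + 1 → ¬ f M' R x y) :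
    False := by
  have hk := h.T.hk
  have hb := h.T.hc
  have h4 := h.T.h4
  have hbig := h.T.hb
  have hn := h.T.hN2
  obtain ⟨a0, ha0⟩ : ∃ z, z + 2 = 6 * k := ⟨6 * k - 2, by omega⟩
  obtain ⟨b0, hb0⟩ : ∃ z, z + 4 = b := ⟨b - 4, by omega⟩
  obtain ⟨x0, hx0⟩ : ∃ z, z + 15 = 2 * n := ⟨2 * n - 15, by omega⟩
  refine check_sound hf (a0 := a0) (b0 := b0) (x0 := x0) (y0 := x0) t25A_chk
    ⟨fun _ => rfl, fun h => absurd h (by decide), fun h => absurd h (by decide), by omega, by omega,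
      by omega, by omega⟩ ?_ ?_
  · intro j m p q hr hx
    clear hr
    rcases or_l hx with hx | hx
    · obtain ⟨rfl, rfl, rfl, rfl⟩ := tg_iff hx
      rwa [show a0 + 6 = 6 * k + 4 by omega, show b0 + 4 = b by omega, show x0 + 14 = 2 * n - 1 by omega, show x0 + 9 = 2 * n - 6 by omega]
    rcases or_l hx with hx | hx
    · obtain ⟨rfl, rfl, rfl, rfl⟩ := tg_iff hx
      rwa [show a0 + 6 = 6 * k + 4 by omega, show b0 + 2 = b - 2 by omega, show x0 + 12 = 2 * n - 3 by omega, show x0 + 1 = 2 * n - 14 by omega]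
    rcases or_l hx with hx | hx
    · obtain ⟨rfl, rfl, rfl, rfl⟩ := tg_iff hx
      rwa [show a0 + 6 = 6 * k + 4 by omega, show b0 + 4 = b by omega, show x0 + 15 = 2 * n by omega, show x0 + 8 = 2 * n - 7 by omega]
    exact h_on_s hf h hM ha0 hb0 hx0 h2 h6 hx
  · intro j m p q hr hx
    clear hr
    rcases or_l hx with hx | hx
    · obtain ⟨rfl, rfl, rfl, rfl⟩ := tg_iff hx
      rwa [show a0 + 6 = 6 * k + 4 by omega, show b0 + 4 = b by omega, show x0 + 16 = 2 * n + 1 by omega, show x0 + 11 = 2 * n - 4 by omega]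
    rcases or_l hx with hx | hx
    · obtain ⟨rfl, rfl, rfl, rfl⟩ := tg_iff hx
      rwa [show a0 + 6 = 6 * k + 4 by omega, show b0 + 4 = b by omega, show x0 + 16 = 2 * n + 1 by omega, show x0 + 9 = 2 * n - 6 by omega]
    rcases or_l hx with hx | hx
    · obtain ⟨rfl, rfl, rfl, rfl⟩ := tg_iff hx
      rwa [show a0 + 6 = 6 * k + 4 by omega, show b0 + 4 = b by omega, show x0 + 14 = 2 * n - 1 by omega, show x0 + 7 = 2 * n - 8 by omega]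
    exact h_zr_s hf h hM ha0 hb0 hx0 h2 h6 hx

theorem t25B (hf : Rule f) {k b n M : ℕ} (h : PL f k b n M) (hM : M + 4 = n)
    (t_4_0_29_24 : f (6 * k + 4) b (2 * n - 1) (2 * n - 6))
    (t_4_0_31_23 : f (6 * k + 4) b (2 * n + 1) (2 * n - 7))
    (t_4_0_29_22 : ¬ f (6 * k + 4) b (2 * n - 1) (2 * n - 8))
    (h2 : ∀ M' R x y : ℕ, M' = 6 * k + 2 → R = b → x = 2 * n + 2 → y % 2 = 1 → 2 * n ≤ y + 7 → y + 2 ≤ 2 * n → ¬ f M' R x y)
    (h6 : ∀ M' R x y : ℕ, M' = 6 * k + 6 → R = b → x = 2 * n + 2 → y % 2 = 1 → 2 * n ≤ y + 9 → y ≤ 2 * n + 1 → ¬ f M' R x y) :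
    False := by
  have hk := h.T.hk
  have hb := h.T.hc
  have h4 := h.T.h4
  have hbig := h.T.hb
  have hn := h.T.hN2
  obtain ⟨a0, ha0⟩ : ∃ z, z + 2 = 6 * k := ⟨6 * k - 2, by omega⟩
  obtain ⟨b0, hb0⟩ : ∃ z, z + 4 = b := ⟨b - 4, by omega⟩
  obtain ⟨x0, hx0⟩ : ∃ z, z + 15 = 2 * n := ⟨2 * n - 15, by omega⟩
  refine check_sound hf (a0 := a0) (b0 := b0) (x0 := x0) (y0 := x0) t25B_chk
    ⟨fun _ => rfl, fun h => absurd h (by decide), fun h => absurd h (by decide), by omega, by omega,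
      by omega, by omega⟩ ?_ ?_
  · intro j m p q hr hx
    clear hr
    rcases or_l hx with hx | hx
    · obtain ⟨rfl, rfl, rfl, rfl⟩ := tg_iff hx
      rwa [show a0 + 6 = 6 * k + 4 by omega, show b0 + 4 = b by omega, show x0 + 14 = 2 * n - 1 by omega, show x0 + 9 = 2 * n - 6 by omega]
    rcases or_l hx with hx | hx
    · obtain ⟨rfl, rfl, rfl, rfl⟩ := tg_iff hx
      rwa [show a0 + 6 = 6 * k + 4 by omega, show b0 + 4 = b by omega, show x0 + 16 = 2 * n + 1 by omega, show x0 + 8 = 2 * n - 7 by omega]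
    exact h_on_s hf h hM ha0 hb0 hx0 h2 h6 hx
  · intro j m p q hr hx
    clear hr
    rcases or_l hx with hx | hx
    · obtain ⟨rfl, rfl, rfl, rfl⟩ := tg_iff hx
      rwa [show a0 + 6 = 6 * k + 4 by omega, show b0 + 4 = b by omega, show x0 + 14 = 2 * n - 1 by omega, show x0 + 7 = 2 * n - 8 by omega]
    exact h_zr_s hf h hM ha0 hb0 hx0 h2 h6 hx

theorem dbaA (hf : Rule f) {k b n M : ℕ} (h : PL f k b n M) (hM : M + 4 = n)
    (t_2_0_33_24 : f (6 * k + 2) b (2 * n + 3) (2 * n - 6))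
    (t_4_0_30_23 : f (6 * k + 4) b (2 * n) (2 * n - 7))
    (t_4_0_28_21 : ¬ f (6 * k + 4) b (2 * n - 2) (2 * n - 9))
    (t_4_0_29_21 : ¬ f (6 * k + 4) b (2 * n - 1) (2 * n - 9))
    (t_4_0_31_24 : ¬ f (6 * k + 4) b (2 * n + 1) (2 * n - 6))
    (t_4_0_29_24 : ¬ f (6 * k + 4) b (2 * n - 1) (2 * n - 6))
    (t_4_0_29_22 : ¬ f (6 * k + 4) b (2 * n - 1) (2 * n - 8))
    (h2 : ∀ M' R x y : ℕ, M' = 6 * k + 2 → R = b → x = 2 * n + 2 → y % 2 = 1 → 2 * n ≤ y + 7 → y + 2 ≤ 2 * n → ¬ f M' R x y)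
    (h6 : ∀ M' R x y : ℕ, M' = 6 * k + 6 → R = b → x = 2 * n + 2 → y % 2 = 1 → 2 * n ≤ y + 9 → y ≤ 2 * n + 1 → ¬ f M' R x y) :
    False := by
  have hk := h.T.hk
  have hb := h.T.hc
  have h4 := h.T.h4
  have hbig := h.T.hb
  have hn := h.T.hN2
  obtain ⟨a0, ha0⟩ : ∃ z, z + 2 = 6 * k := ⟨6 * k - 2, by omega⟩
  obtain ⟨b0, hb0⟩ : ∃ z, z + 4 = b := ⟨b - 4, by omega⟩
  obtain ⟨x0, hx0⟩ : ∃ z, z + 15 = 2 * n := ⟨2 * n - 15, by omega⟩
  refine check_sound hf (a0 := a0) (b0 := b0) (x0 := x0) (y0 := x0) dbaA_chk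
    ⟨fun _ => rfl, fun h => absurd h (by decide), fun h => absurd h (by decide), by omega, by omega,
      by omega, by omega⟩ ?_ ?_
  · intro j m p q hr hx
    clear hr
    rcases or_l hx with hx | hx
    · obtain ⟨rfl, rfl, rfl, rfl⟩ := tg_iff hx
      rwa [show a0 + 4 = 6 * k + 2 by omega, show b0 + 4 = b by omega, show x0 + 18 = 2 * n + 3 by omega, show x0 + 9 = 2 * n - 6 by omega]
    rcases or_l hx with hx | hx
    · obtain ⟨rfl, rfl, rfl, rfl⟩ := tg_iff hx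
      rwa [show a0 + 6 = 6 * k + 4 by omega, show b0 + 4 = b by omega, show x0 + 15 = 2 * n by omega, show x0 + 8 = 2 * n - 7 by omega]
    exact h_on_s hf h hM ha0 hb0 hx0 h2 h6 hx
  · intro j m p q hr hx
    clear hr
    rcases or_l hx with hx | hx
    · obtain ⟨rfl, rfl, rfl, rfl⟩ := tg_iff hx
      rwa [show a0 + 6 = 6 * k + 4 by omega, show b0 + 4 = b by omega, show x0 + 13 = 2 * n - 2 by omega, show x0 + 6 = 2 * n - 9 by omega]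
    rcases or_l hx with hx | hx
    · obtain ⟨rfl, rfl, rfl, rfl⟩ := tg_iff hx
      rwa [show a0 + 6 = 6 * k + 4 by omega, show b0 + 4 = b by omega, show x0 + 14 = 2 * n - 1 by omega, show x0 + 6 = 2 * n - 9 by omega]
    rcases or_l hx with hx | hx
    · obtain ⟨rfl, rfl, rfl, rfl⟩ := tg_iff hx
      rwa [show a0 + 6 = 6 * k + 4 by omega, show b0 + 4 = b by omega, show x0 + 16 = 2 * n + 1 by omega, show x0 + 9 = 2 * n - 6 by omega]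
    rcases or_l hx with hx | hx
    · obtain ⟨rfl, rfl, rfl, rfl⟩ := tg_iff hx
      rwa [show a0 + 6 = 6 * k + 4 by omega, show b0 + 4 = b by omega, show x0 + 14 = 2 * n - 1 by omega, show x0 + 9 = 2 * n - 6 by omega]
    rcases or_l hx with hx | hx
    · obtain ⟨rfl, rfl, rfl, rfl⟩ := tg_iff hx
      rwa [show a0 + 6 = 6 * k + 4 by omega, show b0 + 4 = b by omega, show x0 + 14 = 2 * n - 1 by omega, show x0 + 7 = 2 * n - 8 by omega]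
    exact h_zr_s hf h hM ha0 hb0 hx0 h2 h6 hx

theorem dbaB (hf : Rule f) {k b n M : ℕ} (h : PL f k b n M) (hM : M + 4 = n)
    (t_2_0_33_24 : f (6 * k + 2) b (2 * n + 3) (2 * n - 6))
    (t_4_0_31_23 : f (6 * k + 4) b (2 * n + 1) (2 * n - 7))
    (t_4_0_28_21 : ¬ f (6 * k + 4) b (2 * n - 2) (2 * n - 9))
    (t_4_0_29_21 : ¬ f (6 * k + 4) b (2 * n - 1) (2 * n - 9))
    (t_4_0_29_22 : ¬ f (6 * k + 4) b (2 * n - 1) (2 * n - 8))
    (h2 : ∀ M' R x y : ℕ, M' = 6 * k + 2 → R = b → x = 2 * n + 2 → y % 2 = 1 → 2 * n ≤ y + 7 → y + 2 ≤ 2 * n → ¬ f M' R x y)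
    (h6 : ∀ M' R x y : ℕ, M' = 6 * k + 6 → R = b → x = 2 * n + 2 → y % 2 = 1 → 2 * n ≤ y + 9 → y ≤ 2 * n + 1 → ¬ f M' R x y) :
    False := by
  have hk := h.T.hk
  have hb := h.T.hc
  have h4 := h.T.h4
  have hbig := h.T.hb
  have hn := h.T.hN2
  obtain ⟨a0, ha0⟩ : ∃ z, z + 2 = 6 * k := ⟨6 * k - 2, by omega⟩
  obtain ⟨b0, hb0⟩ : ∃ z, z + 4 = b := ⟨b - 4, by omega⟩
  obtain ⟨x0, hx0⟩ : ∃ z, z + 15 = 2 * n := ⟨2 * n - 15, by omega⟩
  refine check_sound hf (a0 := a0) (b0 := b0) (x0 := x0) (y0 := x0) dbaB_chk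
    ⟨fun _ => rfl, fun h => absurd h (by decide), fun h => absurd h (by decide), by omega, by omega,
      by omega, by omega⟩ ?_ ?_
  · intro j m p q hr hx
    clear hr
    rcases or_l hx with hx | hx
    · obtain ⟨rfl, rfl, rfl, rfl⟩ := tg_iff hx
      rwa [show a0 + 4 = 6 * k + 2 by omega, show b0 + 4 = b by omega, show x0 + 18 = 2 * n + 3 by omega, show x0 + 9 = 2 * n - 6 by omega]
    rcases or_l hx with hx | hx
    · obtain ⟨rfl, rfl, rfl, rfl⟩ := tg_iff hx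
      rwa [show a0 + 6 = 6 * k + 4 by omega, show b0 + 4 = b by omega, show x0 + 16 = 2 * n + 1 by omega, show x0 + 8 = 2 * n - 7 by omega]
    exact h_on_s hf h hM ha0 hb0 hx0 h2 h6 hx
  · intro j m p q hr hx
    clear hr
    rcases or_l hx with hx | hx
    · obtain ⟨rfl, rfl, rfl, rfl⟩ := tg_iff hx
      rwa [show a0 + 6 = 6 * k + 4 by omega, show b0 + 4 = b by omega, show x0 + 13 = 2 * n - 2 by omega, show x0 + 6 = 2 * n - 9 by omega]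
    rcases or_l hx with hx | hx
    · obtain ⟨rfl, rfl, rfl, rfl⟩ := tg_iff hx
      rwa [show a0 + 6 = 6 * k + 4 by omega, show b0 + 4 = b by omega, show x0 + 14 = 2 * n - 1 by omega, show x0 + 6 = 2 * n - 9 by omega]
    rcases or_l hx with hx | hx
    · obtain ⟨rfl, rfl, rfl, rfl⟩ := tg_iff hx
      rwa [show a0 + 6 = 6 * k + 4 by omega, show b0 + 4 = b by omega, show x0 + 14 = 2 * n - 1 by omega, show x0 + 7 = 2 * n - 8 by omega]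
    exact h_zr_s hf h hM ha0 hb0 hx0 h2 h6 hx

theorem dbbA (hf : Rule f) {k b n M : ℕ} (h : PL f k b n M) (hM : M + 4 = n)
    (t_2_0_35_24 : f (6 * k + 2) b (2 * n + 5) (2 * n - 6))
    (t_4_0_30_23 : f (6 * k + 4) b (2 * n) (2 * n - 7))
    (t_4_0_28_21 : ¬ f (6 * k + 4) b (2 * n - 2) (2 * n - 9))
    (t_4_0_29_21 : ¬ f (6 * k + 4) b (2 * n - 1) (2 * n - 9))
    (t_4_0_31_24 : ¬ f (6 * k + 4) b (2 * n + 1) (2 * n - 6))
    (t_4_0_29_24 : ¬ f (6 * k + 4) b (2 * n - 1) (2 * n - 6))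
    (t_4_0_29_22 : ¬ f (6 * k + 4) b (2 * n - 1) (2 * n - 8))
    (h2 : ∀ M' R x y : ℕ, M' = 6 * k + 2 → R = b → x = 2 * n + 2 → y % 2 = 1 → 2 * n ≤ y + 7 → y + 2 ≤ 2 * n → ¬ f M' R x y)
    (h6 : ∀ M' R x y : ℕ, M' = 6 * k + 6 → R = b → x = 2 * n + 2 → y % 2 = 1 → 2 * n ≤ y + 9 → y ≤ 2 * n + 1 → ¬ f M' R x y) :
    False := by
  have hk := h.T.hk
  have hb := h.T.hc
  have h4 := h.T.h4
  have hbig := h.T.hb
  have hn := h.T.hN2
  obtain ⟨a0, ha0⟩ : ∃ z, z + 2 = 6 * k := ⟨6 * k - 2, by omega⟩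
  obtain ⟨b0, hb0⟩ : ∃ z, z + 4 = b := ⟨b - 4, by omega⟩
  obtain ⟨x0, hx0⟩ : ∃ z, z + 15 = 2 * n := ⟨2 * n - 15, by omega⟩
  refine check_sound hf (a0 := a0) (b0 := b0) (x0 := x0) (y0 := x0) dbbA_chk
    ⟨fun _ => rfl, fun h => absurd h (by decide), fun h => absurd h (by decide), by omega, by omega,
      by omega, by omega⟩ ?_ ?_
  · intro j m p q hr hx
    clear hr
    rcases or_l hx with hx | hx
    · obtain ⟨rfl, rfl, rfl, rfl⟩ := tg_iff hx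
      rwa [show a0 + 4 = 6 * k + 2 by omega, show b0 + 4 = b by omega, show x0 + 20 = 2 * n + 5 by omega, show x0 + 9 = 2 * n - 6 by omega]
    rcases or_l hx with hx | hx
    · obtain ⟨rfl, rfl, rfl, rfl⟩ := tg_iff hx
      rwa [show a0 + 6 = 6 * k + 4 by omega, show b0 + 4 = b by omega, show x0 + 15 = 2 * n by omega, show x0 + 8 = 2 * n - 7 by omega]
    exact h_on_s hf h hM ha0 hb0 hx0 h2 h6 hx
  · intro j m p q hr hx
    clear hr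
    rcases or_l hx with hx | hx
    · obtain ⟨rfl, rfl, rfl, rfl⟩ := tg_iff hx
      rwa [show a0 + 6 = 6 * k + 4 by omega, show b0 + 4 = b by omega, show x0 + 13 = 2 * n - 2 by omega, show x0 + 6 = 2 * n - 9 by omega]
    rcases or_l hx with hx | hx
    · obtain ⟨rfl, rfl, rfl, rfl⟩ := tg_iff hx
      rwa [show a0 + 6 = 6 * k + 4 by omega, show b0 + 4 = b by omega, show x0 + 14 = 2 * n - 1 by omega, show x0 + 6 = 2 * n - 9 by omega]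
    rcases or_l hx with hx | hx
    · obtain ⟨rfl, rfl, rfl, rfl⟩ := tg_iff hx
      rwa [show a0 + 6 = 6 * k + 4 by omega, show b0 + 4 = b by omega, show x0 + 16 = 2 * n + 1 by omega, show x0 + 9 = 2 * n - 6 by omega]
    rcases or_l hx with hx | hx
    · obtain ⟨rfl, rfl, rfl, rfl⟩ := tg_iff hx
      rwa [show a0 + 6 = 6 * k + 4 by omega, show b0 + 4 = b by omega, show x0 + 14 = 2 * n - 1 by omega, show x0 + 9 = 2 * n - 6 by omega]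
    rcases or_l hx with hx | hx
    · obtain ⟨rfl, rfl, rfl, rfl⟩ := tg_iff hx
      rwa [show a0 + 6 = 6 * k + 4 by omega, show b0 + 4 = b by omega, show x0 + 14 = 2 * n - 1 by omega, show x0 + 7 = 2 * n - 8 by omega]
    exact h_zr_s hf h hM ha0 hb0 hx0 h2 h6 hx

theorem dbbB (hf : Rule f) {k b n M : ℕ} (h : PL f k b n M) (hM : M + 4 = n)
    (t_2_0_35_24 : f (6 * k + 2) b (2 * n + 5) (2 * n - 6))
    (t_4_0_31_23 : f (6 * k + 4) b (2 * n + 1) (2 * n - 7))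
    (t_4_0_28_21 : ¬ f (6 * k + 4) b (2 * n - 2) (2 * n - 9))
    (t_4_0_29_21 : ¬ f (6 * k + 4) b (2 * n - 1) (2 * n - 9))
    (t_4_0_29_22 : ¬ f (6 * k + 4) b (2 * n - 1) (2 * n - 8))
    (h2 : ∀ M' R x y : ℕ, M' = 6 * k + 2 → R = b → x = 2 * n + 2 → y % 2 = 1 → 2 * n ≤ y + 7 → y + 2 ≤ 2 * n → ¬ f M' R x y)
    (h6 : ∀ M' R x y : ℕ, M' = 6 * k + 6 → R = b → x = 2 * n + 2 → y % 2 = 1 → 2 * n ≤ y + 9 → y ≤ 2 * n + 1 → ¬ f M' R x y) :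
    False := by
  have hk := h.T.hk
  have hb := h.T.hc
  have h4 := h.T.h4
  have hbig := h.T.hb
  have hn := h.T.hN2
  obtain ⟨a0, ha0⟩ : ∃ z, z + 2 = 6 * k := ⟨6 * k - 2, by omega⟩
  obtain ⟨b0, hb0⟩ : ∃ z, z + 4 = b := ⟨b - 4, by omega⟩
  obtain ⟨x0, hx0⟩ : ∃ z, z + 15 = 2 * n := ⟨2 * n - 15, by omega⟩
  refine check_sound hf (a0 := a0) (b0 := b0) (x0 := x0) (y0 := x0) dbbB_chk
    ⟨fun _ => rfl, fun h => absurd h (by decide), fun h => absurd h (by decide), by omega, by omega,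
      by omega, by omega⟩ ?_ ?_
  · intro j m p q hr hx
    clear hr
    rcases or_l hx with hx | hx
    · obtain ⟨rfl, rfl, rfl, rfl⟩ := tg_iff hx
      rwa [show a0 + 4 = 6 * k + 2 by omega, show b0 + 4 = b by omega, show x0 + 20 = 2 * n + 5 by omega, show x0 + 9 = 2 * n - 6 by omega]
    rcases or_l hx with hx | hx
    · obtain ⟨rfl, rfl, rfl, rfl⟩ := tg_iff hx
      rwa [show a0 + 6 = 6 * k + 4 by omega, show b0 + 4 = b by omega, show x0 + 16 = 2 * n + 1 by omega, show x0 + 8 = 2 * n - 7 by omega]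
    exact h_on_s hf h hM ha0 hb0 hx0 h2 h6 hx
  · intro j m p q hr hx
    clear hr
    rcases or_l hx with hx | hx
    · obtain ⟨rfl, rfl, rfl, rfl⟩ := tg_iff hx
      rwa [show a0 + 6 = 6 * k + 4 by omega, show b0 + 4 = b by omega, show x0 + 13 = 2 * n - 2 by omega, show x0 + 6 = 2 * n - 9 by omega]
    rcases or_l hx with hx | hx
    · obtain ⟨rfl, rfl, rfl, rfl⟩ := tg_iff hx
      rwa [show a0 + 6 = 6 * k + 4 by omega, show b0 + 4 = b by omega, show x0 + 14 = 2 * n - 1 by omega, show x0 + 6 = 2 * n - 9 by omega]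
    rcases or_l hx with hx | hx
    · obtain ⟨rfl, rfl, rfl, rfl⟩ := tg_iff hx
      rwa [show a0 + 6 = 6 * k + 4 by omega, show b0 + 4 = b by omega, show x0 + 14 = 2 * n - 1 by omega, show x0 + 7 = 2 * n - 8 by omega]
    exact h_zr_s hf h hM ha0 hb0 hx0 h2 h6 hx

/-- **`T2`, `d = 7`**: no beam in the column `2 n - 1` of `6 k + 4` in the row `c`. -/
theorem t2_7 (hf : Rule f) {k c n M : ℕ} (H : PL f k c n M) (hM : M + 4 = n)
    (h11 : f (6 * k + 4) (c - 2) (2 * n - 3) (2 * n - 14))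
    (f2 : ∀ y : ℕ, y % 2 = 1 → 2 * n ≤ y + 7 → y + 2 ≤ 2 * n → ¬ f (6 * k + 2) c (2 * n + 2) y)
    (f6 : ∀ y : ℕ, y % 2 = 1 → 2 * n ≤ y + 9 → y ≤ 2 * n + 1 → ¬ f (6 * k + 6) c (2 * n + 2) y)
    (q0 : f (6 * k) (c - 6) (2 * n - 17) (2 * n - 18) ∨ f (6 * k) (c - 6) (2 * n - 15) (2 * n - 16))
    (q2 : f (6 * k + 2) (c - 4) (2 * n - 15) (2 * n - 16) ∨ f (6 * k + 2) (c - 4) (2 * n - 13) (2 * n - 14)) :
    ¬ f (6 * k + 4) c (2 * n - 1) (2 * n - 8) := by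
  have g2 : ∀ M' R x y : ℕ, M' = 6 * k + 2 → R = c → x = 2 * n + 2 → y % 2 = 1 → 2 * n ≤ y + 7 →
      y + 2 ≤ 2 * n → ¬ f M' R x y := by
    intro M' R x y e1 e2 e3 e4 e5 e6
    rw [e1, e2, e3]
    exact f2 y e4 e5 e6
  have g6 : ∀ M' R x y : ℕ, M' = 6 * k + 6 → R = c → x = 2 * n + 2 → y % 2 = 1 → 2 * n ≤ y + 9 →
      y ≤ 2 * n + 1 → ¬ f M' R x y := by
    intro M' R x y e1 e2 e3 e4 e5 e6
    rw [e1, e2, e3]
    exact f6 y e4 e5 e6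
  intro t27
  rcases q0 with p0 | p0 <;> rcases q2 with p2 | p2
  · exact t27aa hf H hM t27 h11 p0 p2 g2 g6
  · exact t27ab hf H hM t27 h11 p0 p2 g2 g6
  · exact t27ba hf H hM t27 h11 p0 p2 g2 g6
  · exact t27bb hf H hM t27 h11 p0 p2 g2 g6

/-- **`T2`, `d = 5`**. -/
theorem t2_5 (hf : Rule f) {k c n M : ℕ} (H : PL f k c n M) (hM : M + 4 = n)
    (h11 : f (6 * k + 4) (c - 2) (2 * n - 3) (2 * n - 14))
    (f2 : ∀ y : ℕ, y % 2 = 1 → 2 * n ≤ y + 7 → y + 2 ≤ 2 * n → ¬ f (6 * k + 2) c (2 * n + 2) y)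
    (f6 : ∀ y : ℕ, y % 2 = 1 → 2 * n ≤ y + 9 → y ≤ 2 * n + 1 → ¬ f (6 * k + 6) c (2 * n + 2) y)
    (da : f (6 * k + 4) c (2 * n) (2 * n - 7) ∨ f (6 * k + 4) c (2 * n + 1) (2 * n - 7))
    (t15 : ¬ f (6 * k + 4) c (2 * n + 1) (2 * n - 4)) (t17 : ¬ f (6 * k + 4) c (2 * n + 1) (2 * n - 6))
    (t27 : ¬ f (6 * k + 4) c (2 * n - 1) (2 * n - 8))
    : ¬ f (6 * k + 4) c (2 * n - 1) (2 * n - 6) := by
  have g2 : ∀ M' R x y : ℕ, M' = 6 * k + 2 → R = c → x = 2 * n + 2 → y % 2 = 1 → 2 * n ≤ y + 7 →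
      y + 2 ≤ 2 * n → ¬ f M' R x y := by
    intro M' R x y e1 e2 e3 e4 e5 e6
    rw [e1, e2, e3]
    exact f2 y e4 e5 e6
  have g6 : ∀ M' R x y : ℕ, M' = 6 * k + 6 → R = c → x = 2 * n + 2 → y % 2 = 1 → 2 * n ≤ y + 9 →
      y ≤ 2 * n + 1 → ¬ f M' R x y := by
    intro M' R x y e1 e2 e3 e4 e5 e6
    rw [e1, e2, e3]
    exact f6 y e4 e5 e6
  intro t25
  rcases da with dA | dB
  · exact t25A hf H hM t25 h11 dA t15 t17 t27 g2 g6
  · exact t25B hf H hM t25 dB t27 g2 g6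

/-- **`db`**: the beams of `6 k + 4` in the row `c`, at the distance of the pair before. -/
theorem db (hf : Rule f) {k c n M : ℕ} (H : PL f k c n M) (hM : M + 4 = n)
    (h11 : f (6 * k + 4) (c - 2) (2 * n - 3) (2 * n - 14))
    (f2 : ∀ y : ℕ, y % 2 = 1 → 2 * n ≤ y + 7 → y + 2 ≤ 2 * n → ¬ f (6 * k + 2) c (2 * n + 2) y)
    (f6 : ∀ y : ℕ, y % 2 = 1 → 2 * n ≤ y + 9 → y ≤ 2 * n + 1 → ¬ f (6 * k + 6) c (2 * n + 2) y)
    (da : f (6 * k + 4) c (2 * n) (2 * n - 7) ∨ f (6 * k + 4) c (2 * n + 1) (2 * n - 7))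
    (t15 : ¬ f (6 * k + 4) c (2 * n + 1) (2 * n - 4)) (t17 : ¬ f (6 * k + 4) c (2 * n + 1) (2 * n - 6))
    (t27 : ¬ f (6 * k + 4) c (2 * n - 1) (2 * n - 8))
    (t25 : ¬ f (6 * k + 4) c (2 * n - 1) (2 * n - 6))
    (q2' : f (6 * k + 2) c (2 * n + 3) (2 * n - 6) ∨ f (6 * k + 2) c (2 * n + 5) (2 * n - 6)) :
    f (6 * k + 4) c (2 * n - 2) (2 * n - 9) ∨ f (6 * k + 4) c (2 * n - 1) (2 * n - 9) := by
  have g2 : ∀ M' R x y : ℕ, M' = 6 * k + 2 → R = c → x = 2 * n + 2 → y % 2 = 1 → 2 * n ≤ y + 7 →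
      y + 2 ≤ 2 * n → ¬ f M' R x y := by
    intro M' R x y e1 e2 e3 e4 e5 e6
    rw [e1, e2, e3]
    exact f2 y e4 e5 e6
  have g6 : ∀ M' R x y : ℕ, M' = 6 * k + 6 → R = c → x = 2 * n + 2 → y % 2 = 1 → 2 * n ≤ y + 9 →
      y ≤ 2 * n + 1 → ¬ f M' R x y := by
    intro M' R x y e1 e2 e3 e4 e5 e6
    rw [e1, e2, e3]
    exact f6 y e4 e5 e6
  by_contra hcon
  have n1 : ¬ f (6 * k + 4) c (2 * n - 2) (2 * n - 9) := fun h => hcon (Or.inl h)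
  have n2 : ¬ f (6 * k + 4) c (2 * n - 1) (2 * n - 9) := fun h => hcon (Or.inr h)
  rcases q2' with dq | dq <;> rcases da with dA | dB
  · exact dbaA hf H hM dq dA n1 n2 t17 t25 t27 g2 g6
  · exact dbaB hf H hM dq dB n1 n2 t27 g2 g6
  · exact dbbA hf H hM dq dA n1 n2 t17 t25 t27 g2 g6
  · exact dbbB hf H hM dq dB n1 n2 t27 g2 g6

end Pool.Agent.SNT.E1T2
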