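import Pool.Agent.SNT.Loc

set_option autoImplicit false

/-! Region tables of the windows of `T2_7`, `T2_5`, `db` (helper32) -/

namespace Pool.Agent.SNT.E1T2

open Pool.Agent.SNT Pool.Agent.SNT.Loc

/-- The region predicate of the fact tables. -/
def rg (r1 r2 u1 u2 v1 v2 d1 d2 n p q : ℕ) : Bool :=
  Nat.ble r1 n && (Nat.ble n r2 && (Nat.ble u1 p && (Nat.ble p u2 && (Nat.ble v1 q && (Nat.ble q v2 &&
    (Nat.ble (q + d1) p && Nat.ble p (q + d2)))))))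

theorem rg_iff {r1 r2 u1 u2 v1 v2 d1 d2 n p q : ℕ} (h : rg r1 r2 u1 u2 v1 v2 d1 d2 n p q = true) :
    r1 ≤ n ∧ n ≤ r2 ∧ u1 ≤ p ∧ p ≤ u2 ∧ v1 ≤ q ∧ q ≤ v2 ∧ q + d1 ≤ p ∧ p ≤ q + d2 := by
  simpa only [rg, Bool.and_eq_true, Nat.ble_eq] using h

/-- A residue modulo `2`. -/
def pr (a r : ℕ) : Bool := Nat.beq (a % 2) r

theorem pr_iff {a r : ℕ} (h : pr a r = true) : a % 2 = r := by
  simpa only [pr, Nat.beq_eq] using h

/-- A single cell. -/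
def tg (J N P Q j n p q : ℕ) : Bool := Nat.beq j J && (Nat.beq n N && (Nat.beq p P && Nat.beq q Q))

theorem tg_iff {J N P Q j n p q : ℕ} (h : tg J N P Q j n p q = true) : j = J ∧ n = N ∧ p = P ∧ q = Q := by
  simpa only [tg, Bool.and_eq_true, Nat.beq_eq] using h

theorem or_l {a b : Bool} (h : (a || b) = true) : a = true ∨ b = true := by
  simpa only [Bool.or_eq_true] using h

theorem and_l {a b : Bool} (h : (a && b) = true) : a = true ∧ b = true := by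
  simpa only [Bool.and_eq_true] using h

def g_on2 (n p q : ℕ) : Bool :=
    (pr p 0 && rg 1 1 4 6 4 6 0 0 n p q) || (
    (pr q 1 && (pr p 0 && rg 2 2 8 10 3 9 1 5 n p q)) || (
    (pr p 1 && rg 3 3 9 13 9 13 0 0 n p q) || (
    (pr q 0 && (pr p 1 && rg 4 4 11 17 10 16 1 3 n p q)) || (
    (pr p 0 && rg 5 5 12 16 12 16 0 0 n p q)))))

def g_on4 (n p q : ℕ) : Bool :=
    (pr p 1 && rg 1 1 5 5 5 5 0 0 n p q) || (
    (pr q 0 && (pr p 1 && rg 2 2 9 11 8 10 1 1 n p q)) || (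
    (pr p 0 && rg 3 3 8 12 8 12 0 0 n p q) || (
    (pr q 1 && (pr p 0 && rg 4 4 14 16 5 15 1 9 n p q)) || (
    (pr p 1 && rg 5 5 15 15 15 15 0 0 n p q) || (
    (pr q 0 && (pr p 1 && rg 6 6 17 19 16 16 1 3 n p q)))))))

def g_on6 (n p q : ℕ) : Bool :=
    (pr q 1 && (pr p 0 && rg 2 2 8 8 7 7 1 1 n p q)) || (
    (pr p 1 && rg 3 3 9 9 9 9 0 0 n p q) || (
    (pr q 0 && (pr p 1 && rg 4 4 13 15 12 14 1 1 n p q)) || (
    (pr p 0 && rg 5 5 12 16 12 16 0 0 n p q))))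

def g_on8 (n p q : ℕ) : Bool :=
    (pr q 0 && (pr p 1 && rg 2 2 7 11 4 8 1 7 n p q)) || (
    (pr p 0 && rg 3 3 6 8 6 8 0 0 n p q) || (
    (pr q 1 && (pr p 0 && rg 4 4 12 12 7 7 5 5 n p q)) || (
    (pr p 1 && rg 5 5 13 13 13 13 0 0 n p q) || (
    (pr p 0 && rg 7 7 16 18 16 18 0 0 n p q)))))

def g_on10 (n p q : ℕ) : Bool :=
    (pr q 0 && (pr p 1 && rg 4 4 9 15 6 12 1 9 n p q)) || (
    (pr p 0 && rg 5 5 8 12 8 12 0 0 n p q) || (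
    (pr q 1 && (pr p 0 && rg 6 6 16 16 7 13 3 9 n p q))))

def g_on12 (n p q : ℕ) : Bool :=
    (pr q 0 && (pr p 1 && rg 6 6 9 15 6 14 1 9 n p q)) || (
    (pr p 0 && rg 7 7 10 14 10 14 0 0 n p q))

def g_on (j n p q : ℕ) : Bool :=
  (Nat.beq j 2 && g_on2 n p q) || (
  (Nat.beq j 4 && g_on4 n p q) || (
  (Nat.beq j 6 && g_on6 n p q) || (
  (Nat.beq j 8 && g_on8 n p q) || (
  (Nat.beq j 10 && g_on10 n p q) || (
  (Nat.beq j 12 && g_on12 n p q))))))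

def g_zr1 (n p q : ℕ) : Bool :=
    rg 1 8 2 20 1 16 0 8 n p q

def g_zr2 (n p q : ℕ) : Bool :=
    rg 1 1 3 7 2 2 1 5 n p q || (
    (pr p 1 && rg 1 1 3 5 3 5 0 0 n p q) || (
    rg 1 1 4 7 3 5 1 4 n p q || (
    rg 3 3 8 8 2 5 3 6 n p q || (
    rg 3 3 8 8 6 6 2 2 n p q || (
    rg 3 3 9 12 3 9 1 7 n p q || (
    (pr (p + q) 0 && rg 4 4 9 11 9 10 0 2 n p q) || (
    (pr p 0 && rg 4 4 10 12 9 9 1 3 n p q) || (
    (pr p 1 && rg 5 5 11 15 11 15 0 0 n p q) || (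
    rg 5 5 12 14 7 9 4 6 n p q || (
    rg 5 5 12 18 11 16 1 5 n p q || (
    rg 5 5 13 14 10 10 3 4 n p q || (
    rg 7 7 16 20 10 13 5 8 n p q || (
    rg 7 7 18 20 14 15 4 6 n p q)))))))))))))

def g_zr3 (n p q : ℕ) : Bool :=
    rg 1 1 5 7 2 4 1 5 n p q || (
    rg 2 2 6 6 5 5 1 1 n p q || (
    rg 2 2 7 7 2 4 3 5 n p q || (
    rg 3 3 8 11 3 5 3 7 n p q || (
    rg 3 3 8 12 6 9 2 5 n p q || (
    rg 4 4 11 13 4 8 3 7 n p q || (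
    rg 4 4 11 12 9 9 2 3 n p q || (
    rg 5 5 12 14 6 9 4 7 n p q || (
    rg 5 5 13 17 10 12 3 5 n p q || (
    rg 5 6 16 18 13 15 3 4 n p q || (
    rg 6 6 16 17 12 12 4 5 n p q || (
    rg 7 7 16 20 11 13 5 9 n p q || (
    rg 7 7 18 21 14 16 4 7 n p q || (
    rg 7 8 21 21 11 16 5 10 n p q)))))))))))))

def g_zr4 (n p q : ℕ) : Bool :=
    rg 1 1 5 7 2 5 1 4 n p q || (
    (pr (p + q) 0 && rg 2 2 5 6 5 6 0 0 n p q) || (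
    (pr p 0 && rg 2 2 6 6 5 5 1 1 n p q) || (
    rg 3 3 7 11 6 6 1 5 n p q || (
    (pr p 1 && rg 3 3 7 11 7 11 0 0 n p q) || (
    rg 3 3 8 11 3 5 3 7 n p q || (
    rg 3 3 8 12 7 11 1 4 n p q || (
    rg 5 5 12 14 4 9 3 9 n p q || (
    rg 5 5 12 14 10 12 2 4 n p q || (
    rg 5 5 15 17 12 15 1 4 n p q || (
    (pr p 0 && rg 6 6 16 16 15 15 1 1 n p q) || (
    (pr (p + q) 0 && rg 6 6 17 17 15 15 2 2 n p q) || (
    rg 7 7 16 21 11 13 4 10 n p q || (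
    rg 7 7 17 21 14 16 3 7 n p q || (
    rg 7 7 20 21 17 17 3 4 n p q || (
    rg 8 8 21 21 12 12 9 9 n p q || (
    rg 8 8 21 21 14 14 7 7 n p q || (
    rg 8 8 21 21 16 16 5 5 n p q)))))))))))))))))

def g_zr5 (n p q : ℕ) : Bool :=
    rg 1 1 6 7 4 5 2 3 n p q || (
    rg 2 2 7 7 4 5 2 3 n p q || (
    rg 3 3 8 11 4 5 3 7 n p q || (
    rg 3 3 8 12 6 11 1 5 n p q || (
    rg 4 4 10 13 9 11 1 4 n p q || (
    rg 4 4 11 13 4 8 4 9 n p q || (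
    rg 5 5 12 14 4 9 3 9 n p q || (
    rg 5 5 12 16 10 12 2 4 n p q || (
    rg 5 6 15 17 13 15 2 3 n p q || (
    rg 6 6 15 17 8 12 3 9 n p q || (
    rg 7 7 16 20 8 13 4 9 n p q || (
    rg 7 7 17 21 14 16 3 7 n p q || (
    rg 7 8 20 21 17 17 3 4 n p q || (
    rg 7 8 21 21 12 16 5 9 n p q)))))))))))))

def g_zr6 (n p q : ℕ) : Bool :=
    rg 3 3 8 8 7 7 1 1 n p q || (
    rg 3 3 9 11 6 9 1 5 n p q || (
    (pr p 0 && rg 4 4 10 10 9 9 1 1 n p q) || (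
    (pr (p + q) 0 && rg 4 4 11 11 9 9 2 2 n p q) || (
    rg 5 5 12 17 6 9 3 11 n p q || (
    rg 5 5 12 15 10 10 2 5 n p q || (
    rg 5 5 13 17 11 15 1 5 n p q || (
    (pr p 1 && rg 5 5 13 15 13 15 0 0 n p q) || (
    rg 7 7 16 19 6 13 3 11 n p q || (
    rg 7 7 17 19 14 17 2 5 n p q)))))))))

def g_zr7 (n p q : ℕ) : Bool :=
    rg 3 3 8 11 6 9 1 5 n p q || (
    rg 4 4 11 11 6 9 2 5 n p q || (
    rg 5 5 12 14 6 9 3 8 n p q || (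
    rg 5 5 13 17 10 12 1 5 n p q || (
    rg 5 6 14 17 13 16 1 4 n p q || (
    rg 5 6 15 17 6 12 4 11 n p q || (
    rg 7 7 16 20 6 13 3 11 n p q || (
    rg 7 7 18 21 14 16 2 7 n p q || (
    rg 7 8 19 19 17 17 2 2 n p q || (
    rg 7 8 21 21 13 16 5 8 n p q)))))))))

def g_zr8 (n p q : ℕ) : Bool :=
    rg 3 3 7 11 5 9 1 6 n p q || (
    (pr p 1 && rg 3 3 7 9 7 9 0 0 n p q) || (
    rg 5 5 12 12 6 10 2 6 n p q || (
    rg 5 5 13 15 6 13 1 9 n p q || (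
    (pr p 0 && rg 6 6 14 14 13 13 1 1 n p q) || (
    (pr (p + q) 0 && rg 6 6 15 15 13 13 2 2 n p q) || (
    rg 7 7 20 21 13 13 7 8 n p q || (
    rg 7 7 20 21 14 14 6 7 n p q || (
    rg 7 7 20 21 15 16 4 6 n p q || (
    rg 8 8 21 21 14 14 7 7 n p q || (
    rg 8 8 21 21 16 16 5 5 n p q))))))))))

def g_zr9 (n p q : ℕ) : Bool :=
    rg 5 5 12 14 6 13 1 8 n p q || (
    rg 5 6 15 15 6 13 2 9 n p q)

def g_zr10 (n p q : ℕ) : Bool :=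
    rg 5 5 9 15 6 13 1 9 n p q || (
    (pr p 1 && rg 5 5 9 13 9 13 0 0 n p q))

def g_zr (j n p q : ℕ) : Bool :=
  (Nat.beq j 1 && g_zr1 n p q) || (
  (Nat.beq j 2 && g_zr2 n p q) || (
  (Nat.beq j 3 && g_zr3 n p q) || (
  (Nat.beq j 4 && g_zr4 n p q) || (
  (Nat.beq j 5 && g_zr5 n p q) || (
  (Nat.beq j 6 && g_zr6 n p q) || (
  (Nat.beq j 7 && g_zr7 n p q) || (
  (Nat.beq j 8 && g_zr8 n p q) || (
  (Nat.beq j 9 && g_zr9 n p q) || (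
  (Nat.beq j 10 && g_zr10 n p q))))))))))

def h_on2 (n p q : ℕ) : Bool :=
    (pr p 0 && rg 1 1 10 10 10 10 0 0 n p q)

def h_on4 (n p q : ℕ) : Bool :=
    (pr p 1 && rg 1 1 11 11 11 11 0 0 n p q)

def h_on6 (n p q : ℕ) : Bool :=
    (pr p 0 && rg 1 1 10 12 10 12 0 0 n p q) || (
    (pr q 1 && (pr p 0 && rg 2 2 20 20 5 7 13 15 n p q)))

def h_on8 (n p q : ℕ) : Bool :=
    (pr p 0 && rg 3 3 12 14 12 14 0 0 n p q)

def h_on (j n p q : ℕ) : Bool :=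
  (Nat.beq j 2 && h_on2 n p q) || (
  (Nat.beq j 4 && h_on4 n p q) || (
  (Nat.beq j 6 && h_on6 n p q) || (
  (Nat.beq j 8 && h_on8 n p q))))

def h_zr1 (n p q : ℕ) : Bool :=
    rg 1 4 11 16 4 10 1 10 n p q

def h_zr2 (n p q : ℕ) : Bool :=
    rg 1 1 11 12 7 10 1 5 n p q || (
    rg 3 3 12 16 4 9 5 10 n p q || (
    rg 3 3 14 16 10 10 4 6 n p q))

def h_zr3 (n p q : ℕ) : Bool :=
    rg 1 1 11 12 7 8 3 5 n p q || (
    rg 2 2 11 12 7 8 4 5 n p q || (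
    rg 3 3 12 16 5 9 5 10 n p q || (
    rg 3 3 14 17 10 10 4 7 n p q || (
    rg 3 4 17 17 9 10 7 8 n p q))))

def h_zr4 (n p q : ℕ) : Bool :=
    rg 1 1 11 20 5 11 2 14 n p q || (
    rg 3 3 12 19 5 9 4 11 n p q || (
    rg 3 3 13 17 10 11 3 7 n p q || (
    rg 4 4 17 17 8 8 9 9 n p q || (
    rg 4 4 17 17 10 10 7 7 n p q))))

def h_zr5 (n p q : ℕ) : Bool :=
    rg 1 1 11 20 6 8 3 13 n p q || (
    rg 1 2 11 13 9 11 2 3 n p q || (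
    rg 1 2 11 19 5 8 3 12 n p q || (
    rg 3 3 12 16 6 9 4 10 n p q || (
    rg 3 3 13 17 10 11 3 7 n p q || (
    rg 3 4 17 19 6 11 6 11 n p q)))))

def h_zr6 (n p q : ℕ) : Bool :=
    rg 1 1 11 12 10 11 1 2 n p q || (
    (pr p 1 && rg 1 1 11 11 11 11 0 0 n p q) || (
    rg 1 1 12 18 2 5 7 13 n p q || (
    rg 1 1 18 19 6 6 12 13 n p q || (
    rg 3 3 12 20 6 9 3 12 n p q || (
    rg 3 3 13 17 10 13 2 6 n p q || (
    rg 3 3 21 21 8 9 12 13 n p q))))))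

def h_zr7 (n p q : ℕ) : Bool :=
    rg 1 2 11 13 9 12 1 4 n p q || (
    rg 1 2 12 19 2 8 4 13 n p q || (
    rg 1 1 18 19 6 6 12 13 n p q || (
    rg 1 2 19 19 5 5 14 14 n p q || (
    rg 3 3 12 16 8 9 3 8 n p q || (
    rg 3 3 14 17 10 12 2 6 n p q || (
    rg 3 4 15 17 13 13 2 4 n p q || (
    rg 3 4 17 21 6 12 5 12 n p q || (
    rg 3 4 19 21 6 8 13 14 n p q))))))))

def h_zr8 (n p q : ℕ) : Bool :=
    rg 3 3 16 17 11 12 4 6 n p q || (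
    rg 4 4 17 17 12 12 5 5 n p q)

def h_zr (j n p q : ℕ) : Bool :=
  (Nat.beq j 1 && h_zr1 n p q) || (
  (Nat.beq j 2 && h_zr2 n p q) || (
  (Nat.beq j 3 && h_zr3 n p q) || (
  (Nat.beq j 4 && h_zr4 n p q) || (
  (Nat.beq j 5 && h_zr5 n p q) || (
  (Nat.beq j 6 && h_zr6 n p q) || (
  (Nat.beq j 7 && h_zr7 n p q) || (
  (Nat.beq j 8 && h_zr8 n p q))))))))

end Pool.Agent.SNT.E1T2
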