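import Pool.Agent.SNT.NWD
import Pool.Agent.SNT.NWHof

set_option autoImplicit false

/-! The near-wall windows of the leader `6 k + 8` (`c` is its IN row, `n` its lead): the hypotheses
(helper33). -/

namespace Pool.Agent.SNT.Z8

open Pool.Agent.SNT Pool.Agent.SNT.Loc Pool.Agent.SNT.LW

variable {f : ℕ → ℕ → ℕ → ℕ → Prop}

/-- The hypotheses of the near-wall windows. -/
structure Z8H (f : ℕ → ℕ → ℕ → ℕ → Prop) (k c n : ℕ) : Prop where
  hk : 8 ≤ k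
  hc : c % 2 = 0
  h4 : (6 * k + 8 + c) % 4 = 2
  hb : 12 * k + 100 ≤ c
  hn : 6 * k + 100 ≤ n
  c0 : Cyc f (6 * k) (c - 4) (2 * (n - 5) + 2)
  c2 : Cyc f (6 * k + 2) (c - 2) (2 * (n - 2) + 2)
  c4 : Cyc f (6 * k + 4) (c - 4) (2 * (n - 5) + 2)
  c6 : Cyc f (6 * k + 6) (c - 2) (2 * (n - 3) + 2)
  c8 : Cw f (6 * k + 8) c n
  c8a : Cw f (6 * k + 8) (c - 4) (n - (k + 2))
  lw : ∀ M R x y : ℕ, M + 1 = 6 * k → c ≤ R + 12 → R ≤ c + 12 → 2 * n ≤ x + 20 → y ≤ x →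
    x ≤ y + 4 * k → ¬ f M R x y

theorem cyc_mono {a b K K' : ℕ} (C : Cyc f a b K) (h : K ≤ K') : Cyc f a b K' where
  r0 := fun x y hx => C.r0 x y (by omega)
  r1 := fun x y hx => C.r1 x y (by omega)
  r1s := fun h6 x y h1 hx => C.r1s h6 x y h1 (by omega)
  r2 := fun x y hx => C.r2 x y (by omega)
  r2x := fun x y h1 hx => C.r2x x y h1 (by omega)
  r2s := fun x y h1 hx => C.r2s x y h1 (by omega)
  r3 := fun x y hx => C.r3 x y (by omega)
  r3s := fun x y h1 hx => C.r3s x y h1 (by omega)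
  r4 := fun x y hx => C.r4 x y (by omega)

theorem Z8H.mono {k c n n' : ℕ} (H : Z8H f k c n) (h : n ≤ n') : Z8H f k c n' where
  hk := H.hk
  hc := H.hc
  h4 := H.h4
  hb := H.hb
  hn := by have := H.hn; omega
  c0 := cyc_mono H.c0 (by omega)
  c2 := cyc_mono H.c2 (by omega)
  c4 := cyc_mono H.c4 (by omega)
  c6 := cyc_mono H.c6 (by omega)
  c8 := H.c8.mono h
  c8a := H.c8a.mono (by omega)
  lw := fun M R x y h1 h2 h3 h4 h5 h6 => H.lw M R x y h1 h2 h3 (by omega) h5 h6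

theorem Z8H.of_stack {k b m : ℕ} (hs : Side k b m) (S : Stack6 f k b m 0 0 0 0 1 1) {n : ℕ}
    (hn : n = m + 7 + (k + 2) * 4)
    (d2 : Cyc f (6 * k + 2) (b + 18) (2 * (n - 2) + 2))
    (d0 : Cyc f (6 * k) (b + 16) (2 * (n - 5) + 2)) : Z8H f k (b + 20) n where
  hk := hs.1
  hc := by have := hs.2.1; omega
  h4 := by have := hs.2.2.1; omega
  hb := by have := hs.2.2.2.1; omega
  hn := by have := hs.2.2.2.1; have := hs.2.2.2.2; omega
  c0 := NW.cyc_mv d0 rfl (by omega) rfl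
  c2 := NW.cyc_mv d2 rfl (by omega) rfl
  c4 := NW.cyc_mv (S.l4 4) rfl (by omega) (by omega)
  c6 := NW.cyc_mv (S.l6 4) rfl (by omega) (by omega)
  c8 := NW.cw_mv (S.l8 4) rfl (by omega) (by omega)
  c8a := NW.cw_mv (S.l8 3) rfl (by omega) (by omega)
  lw := by
    intro M R x y hM h1 h2 h3 h4 h5
    obtain ⟨k1, k2, k3, k4, k5⟩ := hs
    have e : M = 6 * k - 1 := by omega
    rw [e]
    exact NHZ.lw_zero ⟨k1, k2, k3, k4, k5⟩ S (i := R - b) (by omega) (by omega) (by omega) h4 (by omega)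

end Pool.Agent.SNT.Z8
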