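import Pool.Agent.SNT.PL
import Pool.Agent.SNT.NWB
import Pool.Agent.SNT.E1T2R

set_option autoImplicit false
set_option synthInstance.maxSize 100000
set_option synthInstance.maxHeartbeats 4000000

/-! Two zone lemmas (helper32) -/

namespace Pool.Agent.SNT.E1T2

open Pool.Agent.SNT Pool.Agent.SNT.Sig Pool.Agent.SNT.Loc Pool.Agent.SNT.LW Pool.Agent.SNT.NHZ Pool.Agent.SNT.D1E

variable {f : ℕ → ℕ → ℕ → ℕ → Prop}

theorem zrm1 {k c N : ℕ} (h : NHT f k c N) (hf : Rule f) {L R p j x y : ℕ} (hR : R + 1 = c) (hj : j ≤ 3) (hp : p ≤ 1)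
    (hL : L + 2 * j = 6 * k + 6 + p) (hy : N ≤ y + 5) (h1 : y + 1 + j ≤ x) (h2 : x + 2 + j ≤ y + 2 * k) :
    ¬ f L R x y := by
  have e : R = c - 1 := by omega
  subst e
  exact h.rm1 hf hj hp hL hy h1 h2

theorem zrm1i {k c N : ℕ} (h : NHT f k c N) (hf : Rule f) {L R p j x y : ℕ} (hR : R + 1 = c) (hj : j ≤ 4) (hp : p ≤ 1)
    (hL : L + 2 * j = 6 * k + 8 + p) (hx : N ≤ x + 3) (h1 : y + 1 + j ≤ x) (h2 : x + 2 + j ≤ y + 2 * k) :
    ¬ f L R x y := by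
  have e : R = c - 1 := by omega
  subst e
  exact h.rm1i hf hj hp hL hx h1 h2

end Pool.Agent.SNT.E1T2
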