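import Pool.Agent.SNT.PL

set_option autoImplicit false
set_option synthInstance.maxSize 100000
set_option synthInstance.maxHeartbeats 4000000

/-! (T3) the two beams of `6 k + 8` nearest to the diagonal do not occur (leads `n + 1`, `n - 4`, `n - 7`). -/

namespace Pool.Agent.SNT.E1T3

open Pool.Agent.SNT Pool.Agent.SNT.Sig Pool.Agent.SNT.Loc Pool.Agent.SNT.LW Pool.Agent.SNT.NHZ Pool.Agent.SNT.DRun
open Pool.Agent.SNT.PB Pool.Agent.SNT.D1E

variable {f : ℕ → ℕ → ℕ → ℕ → Prop}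

theorem t3_5_chk : check 11 9 14 14 0 1 1 1 2
    (fun j n p q => decide ((j = 2 ∧ n = 1 ∧ q ≤ p ∧ p ≤ q + 11 ∧ ((p + q) % 2 = 1 ∧ p % 2 = 0))
      ∨ (j = 2 ∧ n = 3 ∧ q ≤ p ∧ p ≤ q + 11 ∧ ((p + q) % 2 = 1 ∧ p % 2 = 1))
      ∨ (j = 2 ∧ n = 4 ∧ q ≤ p ∧ p ≤ q + 11 ∧ (p = q ∧ p % 2 = 0))
      ∨ (j = 4 ∧ n = 3 ∧ 4 ≤ p ∧ q ≤ p ∧ p ≤ q + 11 ∧ ((p + q) % 2 = 1 ∧ p % 2 = 0))
      ∨ (j = 4 ∧ n = 4 ∧ 5 ≤ p ∧ q ≤ p ∧ p ≤ q + 11 ∧ (p = q ∧ p % 2 = 1))
      ∨ (j = 4 ∧ n = 5 ∧ 5 ≤ q ∧ q ≤ p ∧ p ≤ q + 11 ∧ ((p + q) % 2 = 1 ∧ p % 2 = 1))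
      ∨ (j = 4 ∧ n = 6 ∧ 7 ≤ q ∧ q ≤ p ∧ p ≤ q + 11 ∧ (p = q ∧ p % 2 = 0))
      ∨ (j = 6 ∧ n = 3 ∧ q ≤ p ∧ p ≤ q + 11 ∧ ((p + q) % 2 = 1 ∧ p % 2 = 1))
      ∨ (j = 6 ∧ n = 4 ∧ q ≤ p ∧ p ≤ q + 11 ∧ (p = q ∧ p % 2 = 0))
      ∨ (j = 8 ∧ n = 4 ∧ 3 ≤ p ∧ q ≤ p ∧ p ≤ q + 11 ∧ (p = q ∧ p % 2 = 1))
      ∨ (j = 8 ∧ n = 5 ∧ 3 ≤ q ∧ q ≤ p ∧ p ≤ q + 11 ∧ ((p + q) % 2 = 1 ∧ p % 2 = 1))
      ∨ (j = 8 ∧ n = 6 ∧ 5 ≤ q ∧ q ≤ p ∧ p ≤ q + 11 ∧ (p = q ∧ p % 2 = 0))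
      ∨ (j = 8 ∧ n = 3 ∧ 4 ≤ p ∧ q ≤ p ∧ p ≤ q + 11 ∧ ((p + q) % 2 = 1 ∧ p % 2 = 0))
      ∨ (j = 10 ∧ n = 5 ∧ 8 ≤ p ∧ q ≤ p ∧ p ≤ q + 11 ∧ ((p + q) % 2 = 1 ∧ p % 2 = 0))
      ∨ (j = 10 ∧ n = 6 ∧ 7 ≤ p ∧ q ≤ p ∧ p ≤ q + 11 ∧ (p = q ∧ p % 2 = 1))
      ∨ (j = 10 ∧ n = 7 ∧ 7 ≤ q ∧ q ≤ p ∧ p ≤ q + 11 ∧ ((p + q) % 2 = 1 ∧ p % 2 = 1))
      ∨ (j = 10 ∧ n = 3 ∧ q ≤ p ∧ p ≤ q + 11 ∧ ((p + q) % 2 = 1 ∧ p % 2 = 1))
      ∨ (j = 6 ∧ n = 5 ∧ p = 6 ∧ q = 3)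
      ∨ (j = 10 ∧ n = 7 ∧ p = 10 ∧ q = 5)))
    (fun j n p q => decide ((j = 2 ∧ n = 2 ∧ q ≤ p ∧ p ≤ q + 11 ∧ ¬ (p = q ∧ p % 2 = 1))
      ∨ (j = 2 ∧ n = 3 ∧ q ≤ p ∧ p ≤ q + 11 ∧ ¬ ((p + q) % 2 = 1 ∧ p % 2 = 1))
      ∨ (j = 2 ∧ n = 4 ∧ q ≤ p ∧ p ≤ q + 11 ∧ ¬ (p = q ∧ p % 2 = 0))
      ∨ (j = 4 ∧ n = 4 ∧ 5 ≤ p ∧ q ≤ p ∧ p ≤ q + 11 ∧ ¬ (p = q ∧ p % 2 = 1))
      ∨ (j = 4 ∧ n = 5 ∧ 5 ≤ q ∧ q ≤ p ∧ p ≤ q + 11 ∧ ¬ ((p + q) % 2 = 1 ∧ p % 2 = 1))
      ∨ (j = 6 ∧ n = 4 ∧ q ≤ p ∧ p ≤ q + 11 ∧ ¬ (p = q ∧ p % 2 = 0))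
      ∨ (j = 8 ∧ n = 4 ∧ 3 ≤ p ∧ q ≤ p ∧ p ≤ q + 11 ∧ ¬ (p = q ∧ p % 2 = 1))
      ∨ (j = 8 ∧ n = 5 ∧ 3 ≤ q ∧ q ≤ p ∧ p ≤ q + 11 ∧ ¬ ((p + q) % 2 = 1 ∧ p % 2 = 1))
      ∨ (j = 8 ∧ n = 6 ∧ 5 ≤ q ∧ q ≤ p ∧ p ≤ q + 11 ∧ ¬ (p = q ∧ p % 2 = 0))
      ∨ (j = 10 ∧ n = 5 ∧ 8 ≤ p ∧ q ≤ p ∧ p ≤ q + 11 ∧ ¬ ((p + q) % 2 = 1 ∧ p % 2 = 0))
      ∨ (j = 10 ∧ n = 6 ∧ 7 ≤ p ∧ q ≤ p ∧ p ≤ q + 11 ∧ ¬ (p = q ∧ p % 2 = 1))
      ∨ (j = 1 ∧ n = 6 ∧ q ≤ p ∧ p ≤ q + 11)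
      ∨ (j = 1 ∧ n = 5 ∧ q ≤ p ∧ p ≤ q + 11)
      ∨ (j = 1 ∧ n = 4 ∧ q ≤ p ∧ p ≤ q + 11)
      ∨ (j = 1 ∧ n = 3 ∧ q ≤ p ∧ p ≤ q + 11)
      ∨ (j = 1 ∧ n = 2 ∧ q ≤ p ∧ p ≤ q + 11)
      ∨ (j = 1 ∧ n = 7 ∧ q ≤ p ∧ p ≤ q + 11)
      ∨ (j = 3 ∧ n = 7 ∧ 11 ≤ p ∧ q + 5 ≤ p ∧ p ≤ q + 10)
      ∨ (j = 5 ∧ n = 7 ∧ 11 ≤ p ∧ q + 4 ≤ p ∧ p ≤ q + 11)
      ∨ (j = 7 ∧ n = 7 ∧ 11 ≤ p ∧ q + 3 ≤ p ∧ p ≤ q + 11)
      ∨ (j = 11 ∧ n = 7 ∧ 11 ≤ p ∧ q + 1 ≤ p ∧ p ≤ q + 11)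
      ∨ (j = 3 ∧ n = 3 ∧ q + 2 ≤ p ∧ p ≤ q + 11)
      ∨ (j = 5 ∧ n = 7 ∧ 7 ≤ q ∧ q + 3 ≤ p ∧ p ≤ q + 11)
      ∨ (j = 7 ∧ n = 7 ∧ 7 ≤ q ∧ q + 2 ≤ p ∧ p ≤ q + 11)
      ∨ (j = 9 ∧ n = 7 ∧ 7 ≤ q ∧ q + 1 ≤ p ∧ p ≤ q + 11)
      ∨ (j = 3 ∧ n = 5 ∧ 3 ≤ q ∧ q + 3 ≤ p ∧ p ≤ q + 11)
      ∨ (j = 5 ∧ n = 5 ∧ 3 ≤ q ∧ q + 2 ≤ p ∧ p ≤ q + 11)
      ∨ (j = 7 ∧ n = 5 ∧ 3 ≤ q ∧ q + 1 ≤ p ∧ p ≤ q + 11)
      ∨ (j = 3 ∧ n = 5 ∧ 5 ≤ p ∧ q + 4 ≤ p ∧ p ≤ q + 11)
      ∨ (j = 9 ∧ n = 5 ∧ 5 ≤ p ∧ q + 1 ≤ p ∧ p ≤ q + 11)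
      ∨ (j = 9 ∧ n = 4 ∧ 2 ≤ p ∧ q + 1 ≤ p ∧ p ≤ q + 11)
      ∨ (j = 3 ∧ n = 4 ∧ q + 3 ≤ p ∧ p ≤ q + 11)
      ∨ (j = 3 ∧ n = 2 ∧ q + 2 ≤ p ∧ p ≤ q + 11)
      ∨ (j = 5 ∧ n = 4 ∧ q + 2 ≤ p ∧ p ≤ q + 11)
      ∨ (j = 2 ∧ n = 6 ∧ 4 ≤ q ∧ q + 4 ≤ p ∧ p ≤ q + 11)
      ∨ (j = 3 ∧ n = 6 ∧ 4 ≤ q ∧ q + 4 ≤ p ∧ p ≤ q + 11)
      ∨ (j = 4 ∧ n = 6 ∧ 4 ≤ q ∧ q + 3 ≤ p ∧ p ≤ q + 11)
      ∨ (j = 5 ∧ n = 6 ∧ 4 ≤ q ∧ q + 3 ≤ p ∧ p ≤ q + 11)
      ∨ (j = 6 ∧ n = 6 ∧ 4 ≤ q ∧ q + 2 ≤ p ∧ p ≤ q + 11)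
      ∨ (j = 7 ∧ n = 6 ∧ 4 ≤ q ∧ q + 2 ≤ p ∧ p ≤ q + 11)
      ∨ (j = 9 ∧ n = 6 ∧ 4 ≤ q ∧ q + 1 ≤ p ∧ p ≤ q + 11)
      ∨ (j = 2 ∧ n = 6 ∧ 6 ≤ p ∧ q + 5 ≤ p ∧ p ≤ q + 10)
      ∨ (j = 3 ∧ n = 6 ∧ 6 ≤ p ∧ q + 5 ≤ p ∧ p ≤ q + 10)
      ∨ (j = 4 ∧ n = 6 ∧ 6 ≤ p ∧ q + 4 ≤ p ∧ p ≤ q + 11)
      ∨ (j = 5 ∧ n = 6 ∧ 6 ≤ p ∧ q + 4 ≤ p ∧ p ≤ q + 11)
      ∨ (j = 6 ∧ n = 6 ∧ 6 ≤ p ∧ q + 3 ≤ p ∧ p ≤ q + 11)
      ∨ (j = 11 ∧ n = 6 ∧ 6 ≤ p ∧ q + 1 ≤ p ∧ p ≤ q + 11)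
      ∨ (j = 6 ∧ n = 7 ∧ p = 8 ∧ q = 3)
      ∨ (j = 4 ∧ n = 7 ∧ p = 11 ∧ (q + 1) % 2 = 1 ∧ 4 ≤ q ∧ q ≤ 6)))
    667
    0x16e0831742801b1df217a3031b15001e874221f900256bca1b07051e79801e805221ebc221f20021f204179b031b0d801b0d841794031b06801b068410be8314308014308410af8314218014218410be8314308017a2c21b14801b148410b803142300179c521b0e001b0e0410b08314228014228410b08314298014298410af8314218017944a1b06801e805a1e798021ebc221f200256bda1e87001e870410b0831422801794c210a20010a912141a80141a8410b7030d36800d368410b803142a00142a0410b70314220014220410b8030d37800d378410b7030d368010a94a141b00141b0410b8030cd5800cd58417a38310b10014298010b81214298110a90010a90410be8314308017a2c210b00010b71214288014288414388310b80010b8041b1c8317a28017a28410c6030d45800d458414378310b70010b70409cb030d3d000d3d040c72830cd4800cd4840909030cdd000cdd041357831047801047841b0e8317948017948408fa030cd5000cd50413578313b98013b98408f9830ccd800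ccd84256b831e80001e800410b70314290014290409cc830d3e800d3e8409c4030d36000d360408fa030cce000cce040909030ce4000ce4040908830cdc800cdc8413500310400010400409bd830d2f800d2f8409cb830d3d800d3d8409d3030d45000d450409d9830d4b8010c55a14300014300409c5030d37000d370417ab0017ab0409cc030d3e000d3e0421fa831b0f001b0f0117a40017a40408fa03095c00095c0409be030d30000d300421fa831b0f001b0f0117a48017a48410c60314310014310414310510be8014389a10c61a0d46000d46040c728309628009628410c5030d44800d448409da030d4c000d4c0409cd030d3f000d3f04173b031aad001aad040fdd83103f80103f841b0f031b16801b168408fa030963000963041357830fdd800fdd8409db030d4d000d4d0409da830d4c800d4c8428dd80172c8028e4921a9ec216bc001e090024a7801dbb0016c28016c28e082f00082e00217b421d988024af1a212dca1a3bd20ba85208359a257300256a8025650024f48024b68024b58024a88024a68024988023dc00217a8e1e27001e18001dcb001dbd001dbc001dae001dad001d9f001d9f0e1d3d801cff801cef8016c180167000166100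16150016050015f7001050001002000ff5000ff4000fe6000f93800f84800f75800f37800f29800f1a800f19800f0b80089900088a00083e00083d00083c0007718007638007628028e48728e407288207287b87287b0725730f257287256a8f25650f25648725108725100725028725020724f48f24b68f24b58f24af0724ae8724a88f24a68f24988f23dc0f21fa8721f98721eb87219887219807219707219007218207217a87213c87212d87212d0720d40720cb8720cb071e81871e7f871e72871e270f1e1d871e180f1e17071e16871e01871dcb0f1dbd0f1dbc0f1dbb871db4071dae0f1dad0f1da7071d9f871d9f0f1d59871d3d8f1cff8f1cef8f1b1d871b1d071b1c871b1c071b16071b15871b0e871abb871abb071aba871aba071ab4071ab3871ab3071ab2871aac871aac071aab871aa5071aa4871a34871a340717ab8717aa87179c87179b87179a87179387178d87178c87174987174907174887174807174207174187174107174087174007173a87173a07173987173907173887173307173287173207173187172a8716d98716d88716ca8716c98716c18f167e8716770716700f16670716610f16600716150f16050f15f70f14388714380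714378714370714318713d58713d50713cf8713cf0713ce8713ce0713c80713c78713c70713c68713c08713c00713bf8713b90713b887136e0713668713578713570713500712f58712ee0712ed8710c68710c60710c58710c50710c48710b78710b68710a98710a887106487106407106387106307106287105d87105d07105c87105c07105b8710560710558710550710548710500f104e87104e07104d87104d0710470710468710460710020f0ff50f0ff40f0fe60f0fe5870fde870fd6870f938f0f848f0f83070f7b870f7b070f758f0f74070f378f0f298f0f1a8f0f198f0f0b8f0d54070d53870d53070d52870cf2070cf1870cf1070cf0870ceb070cea870cea070ce9870ce3870ce3070ce2870cdc070cdb870cdb070cd4070c72870c72070c6b870c6b070c10870c10070c09870c09070ba8070ba0870b458709d38709d28709c58709c48709c38709b687097907097887097807097787097707097187097107097087097007096a07096987096907096887096207096187095a8709018709008708f287089f07089e8708990f089787089707089107089007088a0f083e0f083d0f083c0f083587083507082e8707cc8707718f07638f07628f0669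07066887066807066787066707066207066187066107066087066007065b07065a87065a07065987065907065887065407065387065307065287065207065187064c07064b87064b07064a8706450706448706440706070706068706060706058706050706000705ff8705ff0705fe8705fe0705f90705f88705f80705f78705f70705f68705f20705f18705f10705f08705f00705ef8705ea0705e98705e90705e88705e30705e28705e207059707059687059607059007058f87058f07058807058787058707058107058087058007053507053487053407052e07052d87052d07052607052587052507051f07051e87051e0704c38704c30704bc8704bc07046107045a87045a07 = true := by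
  decide +kernel

theorem t3_5 (hf : Rule f) {k c n M : ℕ} (H : PL f k c n M) (hM4 : M + 4 = n)
    (h3 : f (6 * k + 4) (c - 2) (2 * n - 3) (2 * n - 6)) (h1 : ¬ f (6 * k + 4) c (2 * n - 1) (2 * n - 6))
    (f2 : ∀ y : ℕ, y % 2 = 1 → 2 * n ≤ y + 7 → y + 2 ≤ 2 * n → ¬ f (6 * k + 2) c (2 * n + 2) y) :
    ¬ f (6 * k + 8) c (2 * n + 1) (2 * n - 4) := by
  intro h0
  have hk := H.T.hk
  have hc := H.T.hc
  have h4' := H.T.h4
  have hb := H.T.hb
  have hN := H.T.hN2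
  obtain ⟨a0, ha0⟩ : ∃ z, z + 2 = 6 * k := ⟨6 * k - (2), by omega⟩
  obtain ⟨b0, hb0⟩ : ∃ z, z + 7 = c := ⟨c - (7), by omega⟩
  obtain ⟨x0, hx0⟩ : ∃ z, z + 9 = 2 * n := ⟨2 * n - (9), by omega⟩
  refine check_sound hf (a0 := a0) (b0 := b0) (x0 := x0) (y0 := x0) t3_5_chk
    ⟨fun _ => rfl, fun h => absurd h (by decide), fun h => absurd h (by decide), by omega, by omega,
      by omega, by omega⟩ ?_ ?_
  · intro j m p q hr h
    obtain ⟨-, -, -, -, hp1, hp2, hq1, hq2⟩ := hr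
    replace h := of_decide_eq_true h
    rcases h with h | h | h | h | h | h | h | h | h | h | h | h | h | h | h | h | h | h | h
    · obtain ⟨rfl, rfl, h⟩ := h
      exact (WrapC.v0 H.c0 (by omega) (by omega) (by omega) (by omega) (by omega) (by omega) (by omega)).mpr (by omega)
    · obtain ⟨rfl, rfl, h⟩ := h
      exact (WrapC.v2 H.c0 (by omega) (by omega) (by omega) (by omega) (by omega) (by omega) (by omega)).mpr (by omega)
    · obtain ⟨rfl, rfl, h⟩ := h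
      exact (WrapC.v3 H.c0 (by omega) (by omega) (by omega) (by omega) (by omega) (by omega) (by omega) (by omega)).mpr (by omega)
    · obtain ⟨rfl, rfl, h⟩ := h
      exact (WrapC.v0 H.c2 (by omega) (by omega) (by omega) (by omega) (by omega) (by omega) (by omega)).mpr (by omega)
    · obtain ⟨rfl, rfl, h⟩ := h
      exact (WrapC.v1 H.c2 (by omega) (by omega) (by omega) (by omega) (by omega) (by omega) (by omega) (by omega)).mpr (by omega)
    · obtain ⟨rfl, rfl, h⟩ := h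
      exact (WrapC.v2 H.c2 (by omega) (by omega) (by omega) (by omega) (by omega) (by omega) (by omega)).mpr (by omega)
    · obtain ⟨rfl, rfl, h⟩ := h
      exact (WrapC.v3 H.c2 (by omega) (by omega) (by omega) (by omega) (by omega) (by omega) (by omega) (by omega)).mpr (by omega)
    · obtain ⟨rfl, rfl, h⟩ := h
      exact (WrapC.v2 H.c4a (by omega) (by omega) (by omega) (by omega) (by omega) (by omega) (by omega)).mpr (by omega)
    · obtain ⟨rfl, rfl, h⟩ := h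
      exact (WrapC.v3 H.c4a (by omega) (by omega) (by omega) (by omega) (by omega) (by omega) (by omega) (by omega)).mpr (by omega)
    · obtain ⟨rfl, rfl, h⟩ := h
      exact (WrapC.v1 H.c6 (by omega) (by omega) (by omega) (by omega) (by omega) (by omega) (by omega) (by omega)).mpr (by omega)
    · obtain ⟨rfl, rfl, h⟩ := h
      exact (WrapC.v2 H.c6 (by omega) (by omega) (by omega) (by omega) (by omega) (by omega) (by omega)).mpr (by omega)
    · obtain ⟨rfl, rfl, h⟩ := h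
      exact (WrapC.v3 H.c6 (by omega) (by omega) (by omega) (by omega) (by omega) (by omega) (by omega) (by omega)).mpr (by omega)
    · obtain ⟨rfl, rfl, h⟩ := h
      exact (WrapC.v4 H.c6a (by omega) (by omega) (by omega) (by omega) (by omega) (by omega) (by omega)).mpr (by omega)
    · obtain ⟨rfl, rfl, h⟩ := h
      exact (NW.w0v H.c8 (by omega) (by omega) (by omega) (by omega) (by omega) (by omega) (by omega)).mpr (by omega)
    · obtain ⟨rfl, rfl, h⟩ := h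
      exact (NW.w1v H.c8 (by omega) (by omega) (by omega) (by omega) (by omega) (by omega) (by omega) (by omega)).mpr (by omega)
    · obtain ⟨rfl, rfl, h⟩ := h
      exact (NW.w2v H.c8 (by omega) (by omega) (by omega) (by omega) (by omega) (by omega) (by omega)).mpr (by omega)
    · obtain ⟨rfl, rfl, h⟩ := h
      exact (NW.w2v H.c8a (by omega) (by omega) (by omega) (by omega) (by omega) (by omega) (by omega)).mpr (by omega)
    · obtain ⟨rfl, rfl, rfl, rfl⟩ := h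
      exact mv h3 (by omega) (by omega) (by omega) (by omega)
    · obtain ⟨rfl, rfl, rfl, rfl⟩ := h
      exact mv h0 (by omega) (by omega) (by omega) (by omega)
  · intro j m p q hr h
    obtain ⟨-, -, -, -, hp1, hp2, hq1, hq2⟩ := hr
    replace h := of_decide_eq_true h
    rcases h with h | h | h | h | h | h | h | h | h | h | h | h | h | h | h | h | h | h | h | h | h | h | h | h | h | h | h | h | h | h | h | h | h | h | h | h | h | h | h | h | h | h | h | h | h | h | h | h | h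
    · obtain ⟨rfl, rfl, h⟩ := h
      exact mt (WrapC.v1 H.c0 (by omega) (by omega) (by omega) (by omega) (by omega) (by omega) (by omega) (by omega)).mp (by omega)
    · obtain ⟨rfl, rfl, h⟩ := h
      exact mt (WrapC.v2 H.c0 (by omega) (by omega) (by omega) (by omega) (by omega) (by omega) (by omega)).mp (by omega)
    · obtain ⟨rfl, rfl, h⟩ := h
      exact mt (WrapC.v3 H.c0 (by omega) (by omega) (by omega) (by omega) (by omega) (by omega) (by omega) (by omega)).mp (by omega)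
    · obtain ⟨rfl, rfl, h⟩ := h
      exact mt (WrapC.v1 H.c2 (by omega) (by omega) (by omega) (by omega) (by omega) (by omega) (by omega) (by omega)).mp (by omega)
    · obtain ⟨rfl, rfl, h⟩ := h
      exact mt (WrapC.v2 H.c2 (by omega) (by omega) (by omega) (by omega) (by omega) (by omega) (by omega)).mp (by omega)
    · obtain ⟨rfl, rfl, h⟩ := h
      exact mt (WrapC.v3 H.c4a (by omega) (by omega) (by omega) (by omega) (by omega) (by omega) (by omega) (by omega)).mp (by omega)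
    · obtain ⟨rfl, rfl, h⟩ := h
      exact mt (WrapC.v1 H.c6 (by omega) (by omega) (by omega) (by omega) (by omega) (by omega) (by omega) (by omega)).mp (by omega)
    · obtain ⟨rfl, rfl, h⟩ := h
      exact mt (WrapC.v2 H.c6 (by omega) (by omega) (by omega) (by omega) (by omega) (by omega) (by omega)).mp (by omega)
    · obtain ⟨rfl, rfl, h⟩ := h
      exact mt (WrapC.v3 H.c6 (by omega) (by omega) (by omega) (by omega) (by omega) (by omega) (by omega) (by omega)).mp (by omega)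
    · obtain ⟨rfl, rfl, h⟩ := h
      exact mt (NW.w0v H.c8 (by omega) (by omega) (by omega) (by omega) (by omega) (by omega) (by omega)).mp (by omega)
    · obtain ⟨rfl, rfl, h⟩ := h
      exact mt (NW.w1v H.c8 (by omega) (by omega) (by omega) (by omega) (by omega) (by omega) (by omega) (by omega)).mp (by omega)
    · obtain ⟨rfl, rfl, h⟩ := h
      exact H.lw _ _ _ _ (by omega) (by omega) (by omega) (by omega) (by omega) (by omega)
    · obtain ⟨rfl, rfl, h⟩ := h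
      exact H.lw _ _ _ _ (by omega) (by omega) (by omega) (by omega) (by omega) (by omega)
    · obtain ⟨rfl, rfl, h⟩ := h
      exact H.lw _ _ _ _ (by omega) (by omega) (by omega) (by omega) (by omega) (by omega)
    · obtain ⟨rfl, rfl, h⟩ := h
      exact H.lw _ _ _ _ (by omega) (by omega) (by omega) (by omega) (by omega) (by omega)
    · obtain ⟨rfl, rfl, h⟩ := h
      exact H.lw _ _ _ _ (by omega) (by omega) (by omega) (by omega) (by omega) (by omega)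
    · obtain ⟨rfl, rfl, h⟩ := h
      exact H.lw _ _ _ _ (by omega) (by omega) (by omega) (by omega) (by omega) (by omega)
    · obtain ⟨rfl, rfl, h⟩ := h
      exact NHT.p0i hf H.T (j := 4) (by omega) (by omega) (by omega) (by omega) (by omega) (by omega)
    · obtain ⟨rfl, rfl, h⟩ := h
      exact NHT.p0i hf H.T (j := 3) (by omega) (by omega) (by omega) (by omega) (by omega) (by omega)
    · obtain ⟨rfl, rfl, h⟩ := h
      exact NHT.p0i hf H.T (j := 2) (by omega) (by omega) (by omega) (by omega) (by omega) (by omega)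
    · obtain ⟨rfl, rfl, h⟩ := h
      exact NHT.p0i hf H.T (j := 0) (by omega) (by omega) (by omega) (by omega) (by omega) (by omega)
    · obtain ⟨rfl, rfl, h⟩ := h
      exact NHT.pOut hf H.T (t := 2) (j := 1) (by omega) (by omega) (by omega) (by omega) (by omega) (by omega) (by omega)
    · obtain ⟨rfl, rfl, h⟩ := h
      exact NHT.pOut hf H.T (t := 4) (j := 2) (by omega) (by omega) (by omega) (by omega) (by omega) (by omega) (by omega)
    · obtain ⟨rfl, rfl, h⟩ := h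
      exact NHT.pOut hf H.T (t := 4) (j := 1) (by omega) (by omega) (by omega) (by omega) (by omega) (by omega) (by omega)
    · obtain ⟨rfl, rfl, h⟩ := h
      exact NHT.pOut hf H.T (t := 4) (j := 0) (by omega) (by omega) (by omega) (by omega) (by omega) (by omega) (by omega)
    · obtain ⟨rfl, rfl, h⟩ := h
      exact NHT.pm hf H.T (j := 2) (by omega) (by omega) (by omega) (by omega) (by omega) (by omega)
    · obtain ⟨rfl, rfl, h⟩ := h
      exact NHT.pm hf H.T (j := 1) (by omega) (by omega) (by omega) (by omega) (by omega) (by omega)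
    · obtain ⟨rfl, rfl, h⟩ := h
      exact NHT.pm hf H.T (j := 0) (by omega) (by omega) (by omega) (by omega) (by omega) (by omega)
    · obtain ⟨rfl, rfl, h⟩ := h
      exact NHT.pmi hf H.T (j := 3) (by omega) (by omega) (by omega) (by omega) (by omega) (by omega)
    · obtain ⟨rfl, rfl, h⟩ := h
      exact NHT.pmi hf H.T (j := 0) (by omega) (by omega) (by omega) (by omega) (by omega) (by omega)
    · obtain ⟨rfl, rfl, h⟩ := h
      exact NHT.rIn hf H.T (t := 3) (p := 1) (j := 0) (by omega) (by omega) (by omega) (by omega) (by omega) (by omega) (by omega) (by omega)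
    · obtain ⟨rfl, rfl, h⟩ := h
      exact NHT.rOut hf H.T (t := 2) (p := 1) (j := 2) (by omega) (by omega) (by omega) (by omega) (by omega) (by omega) (by omega) (by omega)
    · obtain ⟨rfl, rfl, h⟩ := h
      exact NHT.rOut hf H.T (t := 1) (p := 1) (j := 1) (by omega) (by omega) (by omega) (by omega) (by omega) (by omega) (by omega) (by omega)
    · obtain ⟨rfl, rfl, h⟩ := h
      exact NHT.rOut hf H.T (t := 2) (p := 1) (j := 1) (by omega) (by omega) (by omega) (by omega) (by omega) (by omega) (by omega) (by omega)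
    · obtain ⟨rfl, rfl, h⟩ := h
      exact fun t => NHT.rm1 hf H.T (p := 0) (j := 3) (by omega) (by omega) (by omega) (by omega) (by omega) (by omega) (mv t rfl (by omega) rfl rfl)
    · obtain ⟨rfl, rfl, h⟩ := h
      exact fun t => NHT.rm1 hf H.T (p := 1) (j := 3) (by omega) (by omega) (by omega) (by omega) (by omega) (by omega) (mv t rfl (by omega) rfl rfl)
    · obtain ⟨rfl, rfl, h⟩ := h
      exact fun t => NHT.rm1 hf H.T (p := 0) (j := 2) (by omega) (by omega) (by omega) (by omega) (by omega) (by omega) (mv t rfl (by omega) rfl rfl)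
    · obtain ⟨rfl, rfl, h⟩ := h
      exact fun t => NHT.rm1 hf H.T (p := 1) (j := 2) (by omega) (by omega) (by omega) (by omega) (by omega) (by omega) (mv t rfl (by omega) rfl rfl)
    · obtain ⟨rfl, rfl, h⟩ := h
      exact fun t => NHT.rm1 hf H.T (p := 0) (j := 1) (by omega) (by omega) (by omega) (by omega) (by omega) (by omega) (mv t rfl (by omega) rfl rfl)
    · obtain ⟨rfl, rfl, h⟩ := h
      exact fun t => NHT.rm1 hf H.T (p := 1) (j := 1) (by omega) (by omega) (by omega) (by omega) (by omega) (by omega) (mv t rfl (by omega) rfl rfl)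
    · obtain ⟨rfl, rfl, h⟩ := h
      exact fun t => NHT.rm1 hf H.T (p := 1) (j := 0) (by omega) (by omega) (by omega) (by omega) (by omega) (by omega) (mv t rfl (by omega) rfl rfl)
    · obtain ⟨rfl, rfl, h⟩ := h
      exact fun t => NHT.rm1i hf H.T (p := 0) (j := 4) (by omega) (by omega) (by omega) (by omega) (by omega) (by omega) (mv t rfl (by omega) rfl rfl)
    · obtain ⟨rfl, rfl, h⟩ := h
      exact fun t => NHT.rm1i hf H.T (p := 1) (j := 4) (by omega) (by omega) (by omega) (by omega) (by omega) (by omega) (mv t rfl (by omega) rfl rfl)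
    · obtain ⟨rfl, rfl, h⟩ := h
      exact fun t => NHT.rm1i hf H.T (p := 0) (j := 3) (by omega) (by omega) (by omega) (by omega) (by omega) (by omega) (mv t rfl (by omega) rfl rfl)
    · obtain ⟨rfl, rfl, h⟩ := h
      exact fun t => NHT.rm1i hf H.T (p := 1) (j := 3) (by omega) (by omega) (by omega) (by omega) (by omega) (by omega) (mv t rfl (by omega) rfl rfl)
    · obtain ⟨rfl, rfl, h⟩ := h
      exact fun t => NHT.rm1i hf H.T (p := 0) (j := 2) (by omega) (by omega) (by omega) (by omega) (by omega) (by omega) (mv t rfl (by omega) rfl rfl)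
    · obtain ⟨rfl, rfl, h⟩ := h
      exact fun t => NHT.rm1i hf H.T (p := 1) (j := 0) (by omega) (by omega) (by omega) (by omega) (by omega) (by omega) (mv t rfl (by omega) rfl rfl)
    · obtain ⟨rfl, rfl, rfl, rfl⟩ := h
      exact fun t => h1 (mv t (by omega) (by omega) (by omega) (by omega))
    · obtain ⟨rfl, rfl, rfl, h⟩ := h
      exact fun t => f2 _ (by omega) (by omega) (by omega) (mv t (by omega) (by omega) (by omega) rfl)

theorem t3_7_chk : check 11 9 16 16 0 1 1 1 2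
    (fun j n p q => decide ((j = 2 ∧ n = 1 ∧ q ≤ p ∧ p ≤ q + 11 ∧ ((p + q) % 2 = 1 ∧ p % 2 = 0))
      ∨ (j = 2 ∧ n = 3 ∧ q ≤ p ∧ p ≤ q + 11 ∧ ((p + q) % 2 = 1 ∧ p % 2 = 1))
      ∨ (j = 2 ∧ n = 4 ∧ 3 ≤ q ∧ q ≤ p ∧ p ≤ q + 11 ∧ (p = q ∧ p % 2 = 0))
      ∨ (j = 4 ∧ n = 3 ∧ 6 ≤ p ∧ q ≤ p ∧ p ≤ q + 11 ∧ ((p + q) % 2 = 1 ∧ p % 2 = 0))
      ∨ (j = 4 ∧ n = 4 ∧ 7 ≤ p ∧ q ≤ p ∧ p ≤ q + 11 ∧ (p = q ∧ p % 2 = 1))
      ∨ (j = 4 ∧ n = 5 ∧ 7 ≤ q ∧ q ≤ p ∧ p ≤ q + 11 ∧ ((p + q) % 2 = 1 ∧ p % 2 = 1))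
      ∨ (j = 4 ∧ n = 1 ∧ q ≤ p ∧ p ≤ q + 11 ∧ ((p + q) % 2 = 1 ∧ p % 2 = 1))
      ∨ (j = 4 ∧ n = 2 ∧ q ≤ p ∧ p ≤ q + 11 ∧ (p = q ∧ p % 2 = 0))
      ∨ (j = 6 ∧ n = 3 ∧ q ≤ p ∧ p ≤ q + 11 ∧ ((p + q) % 2 = 1 ∧ p % 2 = 1))
      ∨ (j = 6 ∧ n = 4 ∧ 3 ≤ q ∧ q ≤ p ∧ p ≤ q + 11 ∧ (p = q ∧ p % 2 = 0))
      ∨ (j = 8 ∧ n = 4 ∧ 5 ≤ p ∧ q ≤ p ∧ p ≤ q + 11 ∧ (p = q ∧ p % 2 = 1))
      ∨ (j = 8 ∧ n = 5 ∧ 5 ≤ q ∧ q ≤ p ∧ p ≤ q + 11 ∧ ((p + q) % 2 = 1 ∧ p % 2 = 1))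
      ∨ (j = 8 ∧ n = 6 ∧ 7 ≤ q ∧ q ≤ p ∧ p ≤ q + 11 ∧ (p = q ∧ p % 2 = 0))
      ∨ (j = 8 ∧ n = 3 ∧ 6 ≤ p ∧ q ≤ p ∧ p ≤ q + 11 ∧ ((p + q) % 2 = 1 ∧ p % 2 = 0))
      ∨ (j = 10 ∧ n = 5 ∧ 10 ≤ p ∧ q ≤ p ∧ p ≤ q + 11 ∧ ((p + q) % 2 = 1 ∧ p % 2 = 0))
      ∨ (j = 10 ∧ n = 7 ∧ 9 ≤ q ∧ q ≤ p ∧ p ≤ q + 11 ∧ ((p + q) % 2 = 1 ∧ p % 2 = 1))
      ∨ (j = 10 ∧ n = 3 ∧ q ≤ p ∧ p ≤ q + 11 ∧ ((p + q) % 2 = 1 ∧ p % 2 = 1))
      ∨ (j = 6 ∧ n = 5 ∧ p = 8 ∧ (q + 1) % 2 = 0 ∧ 5 ≤ q ∧ q ≤ 5)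
      ∨ (j = 10 ∧ n = 7 ∧ p = 12 ∧ q = 5)))
    (fun j n p q => decide ((j = 2 ∧ n = 2 ∧ q ≤ p ∧ p ≤ q + 11 ∧ ¬ (p = q ∧ p % 2 = 1))
      ∨ (j = 2 ∧ n = 3 ∧ q ≤ p ∧ p ≤ q + 11 ∧ ¬ ((p + q) % 2 = 1 ∧ p % 2 = 1))
      ∨ (j = 2 ∧ n = 4 ∧ 3 ≤ q ∧ q ≤ p ∧ p ≤ q + 11 ∧ ¬ (p = q ∧ p % 2 = 0))
      ∨ (j = 4 ∧ n = 3 ∧ 6 ≤ p ∧ q ≤ p ∧ p ≤ q + 11 ∧ ¬ ((p + q) % 2 = 1 ∧ p % 2 = 0))
      ∨ (j = 4 ∧ n = 4 ∧ 7 ≤ p ∧ q ≤ p ∧ p ≤ q + 11 ∧ ¬ (p = q ∧ p % 2 = 1))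
      ∨ (j = 4 ∧ n = 5 ∧ 7 ≤ q ∧ q ≤ p ∧ p ≤ q + 11 ∧ ¬ ((p + q) % 2 = 1 ∧ p % 2 = 1))
      ∨ (j = 4 ∧ n = 2 ∧ q ≤ p ∧ p ≤ q + 11 ∧ ¬ (p = q ∧ p % 2 = 0))
      ∨ (j = 6 ∧ n = 4 ∧ 3 ≤ q ∧ q ≤ p ∧ p ≤ q + 11 ∧ ¬ (p = q ∧ p % 2 = 0))
      ∨ (j = 8 ∧ n = 6 ∧ 7 ≤ q ∧ q ≤ p ∧ p ≤ q + 11 ∧ ¬ (p = q ∧ p % 2 = 0))
      ∨ (j = 10 ∧ n = 5 ∧ 10 ≤ p ∧ q ≤ p ∧ p ≤ q + 11 ∧ ¬ ((p + q) % 2 = 1 ∧ p % 2 = 0))
      ∨ (j = 10 ∧ n = 6 ∧ 9 ≤ p ∧ q ≤ p ∧ p ≤ q + 11 ∧ ¬ (p = q ∧ p % 2 = 1))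
      ∨ (j = 10 ∧ n = 7 ∧ 9 ≤ q ∧ q ≤ p ∧ p ≤ q + 11 ∧ ¬ ((p + q) % 2 = 1 ∧ p % 2 = 1))
      ∨ (j = 1 ∧ n = 6 ∧ q ≤ p ∧ p ≤ q + 11)
      ∨ (j = 1 ∧ n = 5 ∧ q ≤ p ∧ p ≤ q + 11)
      ∨ (j = 1 ∧ n = 4 ∧ q ≤ p ∧ p ≤ q + 11)
      ∨ (j = 1 ∧ n = 7 ∧ q ≤ p ∧ p ≤ q + 11)
      ∨ (j = 3 ∧ n = 7 ∧ 13 ≤ p ∧ q + 5 ≤ p ∧ p ≤ q + 10)
      ∨ (j = 5 ∧ n = 7 ∧ 13 ≤ p ∧ q + 4 ≤ p ∧ p ≤ q + 11)
      ∨ (j = 7 ∧ n = 7 ∧ 13 ≤ p ∧ q + 3 ≤ p ∧ p ≤ q + 11)
      ∨ (j = 9 ∧ n = 7 ∧ 13 ≤ p ∧ q + 2 ≤ p ∧ p ≤ q + 11)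
      ∨ (j = 11 ∧ n = 7 ∧ 13 ≤ p ∧ q + 1 ≤ p ∧ p ≤ q + 11)
      ∨ (j = 3 ∧ n = 3 ∧ q + 2 ≤ p ∧ p ≤ q + 11)
      ∨ (j = 5 ∧ n = 3 ∧ q + 1 ≤ p ∧ p ≤ q + 11)
      ∨ (j = 5 ∧ n = 7 ∧ 9 ≤ q ∧ q + 3 ≤ p ∧ p ≤ q + 11)
      ∨ (j = 7 ∧ n = 7 ∧ 9 ≤ q ∧ q + 2 ≤ p ∧ p ≤ q + 11)
      ∨ (j = 9 ∧ n = 7 ∧ 9 ≤ q ∧ q + 1 ≤ p ∧ p ≤ q + 11)
      ∨ (j = 5 ∧ n = 5 ∧ 5 ≤ q ∧ q + 2 ≤ p ∧ p ≤ q + 11)
      ∨ (j = 7 ∧ n = 5 ∧ 5 ≤ q ∧ q + 1 ≤ p ∧ p ≤ q + 11)
      ∨ (j = 9 ∧ n = 5 ∧ 7 ≤ p ∧ q + 1 ≤ p ∧ p ≤ q + 11)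
      ∨ (j = 9 ∧ n = 4 ∧ 4 ≤ p ∧ q + 1 ≤ p ∧ p ≤ q + 11)
      ∨ (j = 3 ∧ n = 2 ∧ q + 2 ≤ p ∧ p ≤ q + 11)
      ∨ (j = 5 ∧ n = 4 ∧ 2 ≤ q ∧ q + 2 ≤ p ∧ p ≤ q + 11)
      ∨ (j = 5 ∧ n = 2 ∧ q + 1 ≤ p ∧ p ≤ q + 11)
      ∨ (j = 7 ∧ n = 4 ∧ 2 ≤ q ∧ q + 1 ≤ p ∧ p ≤ q + 11)
      ∨ (j = 2 ∧ n = 6 ∧ 6 ≤ q ∧ q + 4 ≤ p ∧ p ≤ q + 11)
      ∨ (j = 3 ∧ n = 6 ∧ 6 ≤ q ∧ q + 4 ≤ p ∧ p ≤ q + 11)
      ∨ (j = 4 ∧ n = 6 ∧ 6 ≤ q ∧ q + 3 ≤ p ∧ p ≤ q + 11)
      ∨ (j = 5 ∧ n = 6 ∧ 6 ≤ q ∧ q + 3 ≤ p ∧ p ≤ q + 11)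
      ∨ (j = 6 ∧ n = 6 ∧ 6 ≤ q ∧ q + 2 ≤ p ∧ p ≤ q + 11)
      ∨ (j = 7 ∧ n = 6 ∧ 6 ≤ q ∧ q + 2 ≤ p ∧ p ≤ q + 11)
      ∨ (j = 2 ∧ n = 6 ∧ 8 ≤ p ∧ q + 5 ≤ p ∧ p ≤ q + 10)
      ∨ (j = 3 ∧ n = 6 ∧ 8 ≤ p ∧ q + 5 ≤ p ∧ p ≤ q + 10)
      ∨ (j = 4 ∧ n = 6 ∧ 8 ≤ p ∧ q + 4 ≤ p ∧ p ≤ q + 11)
      ∨ (j = 5 ∧ n = 6 ∧ 8 ≤ p ∧ q + 4 ≤ p ∧ p ≤ q + 11)
      ∨ (j = 6 ∧ n = 6 ∧ 8 ≤ p ∧ q + 3 ≤ p ∧ p ≤ q + 11)
      ∨ (j = 7 ∧ n = 6 ∧ 8 ≤ p ∧ q + 3 ≤ p ∧ p ≤ q + 11)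
      ∨ (j = 8 ∧ n = 6 ∧ 8 ≤ p ∧ q + 2 ≤ p ∧ p ≤ q + 11)
      ∨ (j = 9 ∧ n = 6 ∧ 8 ≤ p ∧ q + 2 ≤ p ∧ p ≤ q + 11)
      ∨ (j = 11 ∧ n = 6 ∧ 8 ≤ p ∧ q + 1 ≤ p ∧ p ≤ q + 11)
      ∨ (j = 6 ∧ n = 7 ∧ p = 12 ∧ (q + 1) % 2 = 0 ∧ 3 ≤ q ∧ q ≤ 7)
      ∨ (j = 6 ∧ n = 7 ∧ p = 10 ∧ q = 5)
      ∨ (j = 4 ∧ n = 7 ∧ p = 13 ∧ (q + 1) % 2 = 1 ∧ 4 ≤ q ∧ q ≤ 8)
      ∨ (j = 8 ∧ n = 7 ∧ p = 13 ∧ (q + 1) % 2 = 1 ∧ 4 ≤ q ∧ q ≤ 6)
      ∨ (j = 10 ∧ n = 7 ∧ p = 12 ∧ q = 7)))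
    724
    0x1ee30323630027e3ca2c638030e3c227d30027db121ee30323630027e3ca2c638030e3c227d28027d28427db032c5b0030e3da27e30027e3041ed3032353002353041edb03235b00235b041ed2832352802352841ee30323630027eb522c63002c630415cb031a4b801ed3d21a4a801a4a8415e2831a62801a62841edb03235b80235b8415d3831a53801a538415d2831a52801a528415e2831a62801ee34a23638023638415db031a5b001a5b0415ca031a4a001a4a0415db031a53001a530415dc03114b80114b8415db03114a80114a8415e3831a63801ee3c215d30015db121a5a801a5a8415db03114a8015cb4a1a4b001a4b040bd38310d38010d38415dc0310cb8010cb840bd40310dc0010dc0423620327e2002c6ada2362802362840ce3831163801163840cdb03115b00115b0415da031a52001a52040ce2031162001162040bc30310c30010c304194b8319cb8019cb840cd1831151801151840bc3030bcb000bcb0415ec03115b80115b840cda03115a00115a040bd40310d40010d4041943031543001543041a6b8315db0015db04194b8314c28014c2841a6c8315dc0015dc040bc28310ca8010ca840cd38311538011538423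5c831ed3801ed3840cda03115a0015da421149801149840bc28310c28010c28415ea0311598011598427eb03235a80235a840cc3031143001143041a6a8315da0015da040cd3031153001153040cd2031152001152040bc3030c4b000c4b040bc2830c42800c42840cc1831141801141840cd2831152801152840bc2830c4a800c4a840bc3030c43000c43040cca03114a00114a04194b83154b80154b840ce30311630011630430e38327db0027db040bc20310c20010c2040cc2031142001142040ce30311630015eb521a63001a630430e4832c5b802c5b840bc30310cb0010cb040ccb03114b00114b040ce2831162801162840cc28311428011428415eb03115a80115a842c6a83235a00235a040cdc03115c00115c040bb2030bba000bba043563801e4c80356b9222ccc22755002fe3801dbc0013c3800acb002bd54226c4802fec1a1dc3801dc38e13c2801843c20f535230e28030dd002ff4802ff3802fe4802fe2802fd3802eec002edb0027548e27440026ec0026dc0026db0026cc0026cc0e264c8025e3802243c21dc2801d44001d33001cbb0014cc00143b8013d38018434a13330012bb000b44000b33000b22000adb000aba0009c280356b873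4eb8734e30730eb8730e48730e38730e28f30dd0f30dc8730db87306b87306b07305c87305b87305b072ff48f2ff38f2feb872fe48f2fe4072fe28f2fd38f2eec0f2edb0f2c6a872c6a072c64872bea872bea072be4072be3872be2872be2072bdb872b64072aec072ae4072ae38727eb0727ea8727ea0727db8727da87276b07276a87276a07276387276307276287276207275b07275a87275487275307275287274c8727440f26ec0f26dc0f26db0f26cc8726cc0f264c8f25e38f236b07236a87235c8722eb0722ea8722e38722e30722e28722e20722e18722dc8722dc0722db8722db0722da8722da0722d98722d40722d30722d28722438721c38721c30721bb071ee3871ee2871ee1871edc871edb871eda871ed9871ed2871ecb871eca871e63871e63071e62871e62071e61871e5c871e5c071e5b871e5b071e5a871e5a071e59871e54071e53871e53071e52871e52071e4b871e4b071e4a871e4a071dcc871dc28f1dbb871d440f1d3b071d330f1cbb0f1a6c871a6c071a6b871a6b071a6a871a6a071a648719ec8719ec0719eb8719eb0719ea8719ea0719e48719e40719e38719e30719e28719e20719db8719db0719da8719d38719d30719d287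19d20719cb0719ca8719ca07194b87194b07194307193a8718cb0718c287184307184287183a8717c38717c30717c28717bb0717ba8715ec8715ec0715eb8715eb0715ea8715ea0715e98715db8715da8715d98715cb8715ca8715c987156c87156c07156b87156b07156a87156a07156987156487156407156387156307156287156207156187155c07155b87155b07155a87155a07155987155387155307155287155207155187154b07154a87154a0715498715420715418714cc0f14cb8714c38714ba87144b07144387144307144287143b8f143a8713d38f13c30713bb8713bb0713ba87134287133a8713330f12bb0f116c07116b87116b07116a87116a0711698710ec0710eb8710eb0710ea8710ea0710e98710e40710e38710e30710e28710e20710e18710db8710db0710da8710da0710d98710d30710d28710d20710d18710ca0710c98710c1870f53070f52870f4a870ed3070ed2870eca870cdb870cda870cd9870ccb870cca870cc9870cba870cb9870c63870c63070c62870c62070c61870c5b870c5b070c5a870c5a070c59870c53070c52870c52070c51870c51070c4a070c49870c49070c41870c41070bcb870bba870bb9870ba9870b540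70b53070b4b870b440f0b43070b42070b41870b3a870b3a070b39870b330f0b32070b31870b2a070b29870b220f0adb0f0ad3070ad2870aca870aba0f0a52870a4a8709c28f086387086307086287086207086187085c07085b87085b07085a87085a07085987085407085387085307085287085207085187085107084b87084b07084a87084a07084987084907084307084287084207084187084107083b07083a87083a0708398708390707e38707e30707e28707e20707e18707dc0707db8707db0707da8707da0707d98707d40707d38707d30707d28707d20707d18707d10707cb8707cb0707ca8707ca0707c98707c90707c30707c28707c20707c18707c10707bb0707ba8707ba0707b98707b907075407075387075307074c07074b87074b07074307074287074207074187073b07073a87073a07073987073207073187072a0707298706d40706d38706d30706cc0706cb8706cb0706c30706c28706c20706c18706bb0706ba8706ba0706b98706b20706b18706aa0706a987 = true := by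
  decide +kernel

theorem t3_7 (hf : Rule f) {k c n M : ℕ} (H : PL f k c n M) (hM4 : M + 4 = n)
    (x3 : ∀ y : ℕ, y % 2 = 0 → 2 * n + 2 ≤ y + 2 * k → y + 6 ≤ 2 * n → f (6 * k + 4) (c - 2) (2 * n - 3) y)
    (t1 : ∀ y : ℕ, y % 2 = 0 → 2 * n + 8 ≤ y + 2 * k → y + 4 ≤ 2 * n → ¬ f (6 * k + 4) c (2 * n + 1) y)
    (h1 : ¬ f (6 * k + 4) c (2 * n - 1) (2 * n - 6))
    (f2 : ∀ y : ℕ, y % 2 = 1 → 2 * n ≤ y + 7 → y + 2 ≤ 2 * n → ¬ f (6 * k + 2) c (2 * n + 2) y)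
    (f6 : ∀ y : ℕ, y % 2 = 1 → 2 * n ≤ y + 7 → y + 2 ≤ 2 * n → ¬ f (6 * k + 6) c (2 * n + 2) y)
    (t5 : ¬ f (6 * k + 8) c (2 * n + 1) (2 * n - 4)) : ¬ f (6 * k + 8) c (2 * n + 1) (2 * n - 6) := by
  intro h0
  have hk := H.T.hk
  have hc := H.T.hc
  have h4' := H.T.h4
  have hb := H.T.hb
  have hN := H.T.hN2
  obtain ⟨a0, ha0⟩ : ∃ z, z + 2 = 6 * k := ⟨6 * k - (2), by omega⟩
  obtain ⟨b0, hb0⟩ : ∃ z, z + 7 = c := ⟨c - (7), by omega⟩
  obtain ⟨x0, hx0⟩ : ∃ z, z + 11 = 2 * n := ⟨2 * n - (11), by omega⟩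
  refine check_sound hf (a0 := a0) (b0 := b0) (x0 := x0) (y0 := x0) t3_7_chk
    ⟨fun _ => rfl, fun h => absurd h (by decide), fun h => absurd h (by decide), by omega, by omega,
      by omega, by omega⟩ ?_ ?_
  · intro j m p q hr h
    obtain ⟨-, -, -, -, hp1, hp2, hq1, hq2⟩ := hr
    replace h := of_decide_eq_true h
    rcases h with h | h | h | h | h | h | h | h | h | h | h | h | h | h | h | h | h | h | h
    · obtain ⟨rfl, rfl, h⟩ := h
      exact (WrapC.v0 H.c0 (by omega) (by omega) (by omega) (by omega) (by omega) (by omega) (by omega)).mpr (by omega)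
    · obtain ⟨rfl, rfl, h⟩ := h
      exact (WrapC.v2 H.c0 (by omega) (by omega) (by omega) (by omega) (by omega) (by omega) (by omega)).mpr (by omega)
    · obtain ⟨rfl, rfl, h⟩ := h
      exact (WrapC.v3 H.c0 (by omega) (by omega) (by omega) (by omega) (by omega) (by omega) (by omega) (by omega)).mpr (by omega)
    · obtain ⟨rfl, rfl, h⟩ := h
      exact (WrapC.v0 H.c2 (by omega) (by omega) (by omega) (by omega) (by omega) (by omega) (by omega)).mpr (by omega)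
    · obtain ⟨rfl, rfl, h⟩ := h
      exact (WrapC.v1 H.c2 (by omega) (by omega) (by omega) (by omega) (by omega) (by omega) (by omega) (by omega)).mpr (by omega)
    · obtain ⟨rfl, rfl, h⟩ := h
      exact (WrapC.v2 H.c2 (by omega) (by omega) (by omega) (by omega) (by omega) (by omega) (by omega)).mpr (by omega)
    · obtain ⟨rfl, rfl, h⟩ := h
      exact (WrapC.v2 H.c2a (by omega) (by omega) (by omega) (by omega) (by omega) (by omega) (by omega)).mpr (by omega)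
    · obtain ⟨rfl, rfl, h⟩ := h
      exact (WrapC.v3 H.c2a (by omega) (by omega) (by omega) (by omega) (by omega) (by omega) (by omega) (by omega)).mpr (by omega)
    · obtain ⟨rfl, rfl, h⟩ := h
      exact (WrapC.v2 H.c4a (by omega) (by omega) (by omega) (by omega) (by omega) (by omega) (by omega)).mpr (by omega)
    · obtain ⟨rfl, rfl, h⟩ := h
      exact (WrapC.v3 H.c4a (by omega) (by omega) (by omega) (by omega) (by omega) (by omega) (by omega) (by omega)).mpr (by omega)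
    · obtain ⟨rfl, rfl, h⟩ := h
      exact (WrapC.v1 H.c6 (by omega) (by omega) (by omega) (by omega) (by omega) (by omega) (by omega) (by omega)).mpr (by omega)
    · obtain ⟨rfl, rfl, h⟩ := h
      exact (WrapC.v2 H.c6 (by omega) (by omega) (by omega) (by omega) (by omega) (by omega) (by omega)).mpr (by omega)
    · obtain ⟨rfl, rfl, h⟩ := h
      exact (WrapC.v3 H.c6 (by omega) (by omega) (by omega) (by omega) (by omega) (by omega) (by omega) (by omega)).mpr (by omega)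
    · obtain ⟨rfl, rfl, h⟩ := h
      exact (WrapC.v4 H.c6a (by omega) (by omega) (by omega) (by omega) (by omega) (by omega) (by omega)).mpr (by omega)
    · obtain ⟨rfl, rfl, h⟩ := h
      exact (NW.w0v H.c8 (by omega) (by omega) (by omega) (by omega) (by omega) (by omega) (by omega)).mpr (by omega)
    · obtain ⟨rfl, rfl, h⟩ := h
      exact (NW.w2v H.c8 (by omega) (by omega) (by omega) (by omega) (by omega) (by omega) (by omega)).mpr (by omega)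
    · obtain ⟨rfl, rfl, h⟩ := h
      exact (NW.w2v H.c8a (by omega) (by omega) (by omega) (by omega) (by omega) (by omega) (by omega)).mpr (by omega)
    · obtain ⟨rfl, rfl, rfl, h⟩ := h
      exact mv (x3 (x0 + q) (by omega) (by omega) (by omega)) (by omega) (by omega) (by omega) rfl
    · obtain ⟨rfl, rfl, rfl, rfl⟩ := h
      exact mv h0 (by omega) (by omega) (by omega) (by omega)
  · intro j m p q hr h
    obtain ⟨-, -, -, -, hp1, hp2, hq1, hq2⟩ := hr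
    replace h := of_decide_eq_true h
    rcases h with h | h | h | h | h | h | h | h | h | h | h | h | h | h | h | h | h | h | h | h | h | h | h | h | h | h | h | h | h | h | h | h | h | h | h | h | h | h | h | h | h | h | h | h | h | h | h | h | h | h | h | h | h | h
    · obtain ⟨rfl, rfl, h⟩ := h
      exact mt (WrapC.v1 H.c0 (by omega) (by omega) (by omega) (by omega) (by omega) (by omega) (by omega) (by omega)).mp (by omega)
    · obtain ⟨rfl, rfl, h⟩ := h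
      exact mt (WrapC.v2 H.c0 (by omega) (by omega) (by omega) (by omega) (by omega) (by omega) (by omega)).mp (by omega)
    · obtain ⟨rfl, rfl, h⟩ := h
      exact mt (WrapC.v3 H.c0 (by omega) (by omega) (by omega) (by omega) (by omega) (by omega) (by omega) (by omega)).mp (by omega)
    · obtain ⟨rfl, rfl, h⟩ := h
      exact mt (WrapC.v0 H.c2 (by omega) (by omega) (by omega) (by omega) (by omega) (by omega) (by omega)).mp (by omega)
    · obtain ⟨rfl, rfl, h⟩ := h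
      exact mt (WrapC.v1 H.c2 (by omega) (by omega) (by omega) (by omega) (by omega) (by omega) (by omega) (by omega)).mp (by omega)
    · obtain ⟨rfl, rfl, h⟩ := h
      exact mt (WrapC.v2 H.c2 (by omega) (by omega) (by omega) (by omega) (by omega) (by omega) (by omega)).mp (by omega)
    · obtain ⟨rfl, rfl, h⟩ := h
      exact mt (WrapC.v3 H.c2a (by omega) (by omega) (by omega) (by omega) (by omega) (by omega) (by omega) (by omega)).mp (by omega)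
    · obtain ⟨rfl, rfl, h⟩ := h
      exact mt (WrapC.v3 H.c4a (by omega) (by omega) (by omega) (by omega) (by omega) (by omega) (by omega) (by omega)).mp (by omega)
    · obtain ⟨rfl, rfl, h⟩ := h
      exact mt (WrapC.v3 H.c6 (by omega) (by omega) (by omega) (by omega) (by omega) (by omega) (by omega) (by omega)).mp (by omega)
    · obtain ⟨rfl, rfl, h⟩ := h
      exact mt (NW.w0v H.c8 (by omega) (by omega) (by omega) (by omega) (by omega) (by omega) (by omega)).mp (by omega)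
    · obtain ⟨rfl, rfl, h⟩ := h
      exact mt (NW.w1v H.c8 (by omega) (by omega) (by omega) (by omega) (by omega) (by omega) (by omega) (by omega)).mp (by omega)
    · obtain ⟨rfl, rfl, h⟩ := h
      exact mt (NW.w2v H.c8 (by omega) (by omega) (by omega) (by omega) (by omega) (by omega) (by omega)).mp (by omega)
    · obtain ⟨rfl, rfl, h⟩ := h
      exact H.lw _ _ _ _ (by omega) (by omega) (by omega) (by omega) (by omega) (by omega)
    · obtain ⟨rfl, rfl, h⟩ := h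
      exact H.lw _ _ _ _ (by omega) (by omega) (by omega) (by omega) (by omega) (by omega)
    · obtain ⟨rfl, rfl, h⟩ := h
      exact H.lw _ _ _ _ (by omega) (by omega) (by omega) (by omega) (by omega) (by omega)
    · obtain ⟨rfl, rfl, h⟩ := h
      exact H.lw _ _ _ _ (by omega) (by omega) (by omega) (by omega) (by omega) (by omega)
    · obtain ⟨rfl, rfl, h⟩ := h
      exact NHT.p0i hf H.T (j := 4) (by omega) (by omega) (by omega) (by omega) (by omega) (by omega)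
    · obtain ⟨rfl, rfl, h⟩ := h
      exact NHT.p0i hf H.T (j := 3) (by omega) (by omega) (by omega) (by omega) (by omega) (by omega)
    · obtain ⟨rfl, rfl, h⟩ := h
      exact NHT.p0i hf H.T (j := 2) (by omega) (by omega) (by omega) (by omega) (by omega) (by omega)
    · obtain ⟨rfl, rfl, h⟩ := h
      exact NHT.p0i hf H.T (j := 1) (by omega) (by omega) (by omega) (by omega) (by omega) (by omega)
    · obtain ⟨rfl, rfl, h⟩ := h
      exact NHT.p0i hf H.T (j := 0) (by omega) (by omega) (by omega) (by omega) (by omega) (by omega)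
    · obtain ⟨rfl, rfl, h⟩ := h
      exact NHT.pOut hf H.T (t := 2) (j := 1) (by omega) (by omega) (by omega) (by omega) (by omega) (by omega) (by omega)
    · obtain ⟨rfl, rfl, h⟩ := h
      exact NHT.pOut hf H.T (t := 2) (j := 0) (by omega) (by omega) (by omega) (by omega) (by omega) (by omega) (by omega)
    · obtain ⟨rfl, rfl, h⟩ := h
      exact NHT.pOut hf H.T (t := 4) (j := 2) (by omega) (by omega) (by omega) (by omega) (by omega) (by omega) (by omega)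
    · obtain ⟨rfl, rfl, h⟩ := h
      exact NHT.pOut hf H.T (t := 4) (j := 1) (by omega) (by omega) (by omega) (by omega) (by omega) (by omega) (by omega)
    · obtain ⟨rfl, rfl, h⟩ := h
      exact NHT.pOut hf H.T (t := 4) (j := 0) (by omega) (by omega) (by omega) (by omega) (by omega) (by omega) (by omega)
    · obtain ⟨rfl, rfl, h⟩ := h
      exact NHT.pm hf H.T (j := 1) (by omega) (by omega) (by omega) (by omega) (by omega) (by omega)
    · obtain ⟨rfl, rfl, h⟩ := h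
      exact NHT.pm hf H.T (j := 0) (by omega) (by omega) (by omega) (by omega) (by omega) (by omega)
    · obtain ⟨rfl, rfl, h⟩ := h
      exact NHT.pmi hf H.T (j := 0) (by omega) (by omega) (by omega) (by omega) (by omega) (by omega)
    · obtain ⟨rfl, rfl, h⟩ := h
      exact NHT.rIn hf H.T (t := 3) (p := 1) (j := 0) (by omega) (by omega) (by omega) (by omega) (by omega) (by omega) (by omega) (by omega)
    · obtain ⟨rfl, rfl, h⟩ := h
      exact NHT.rOut hf H.T (t := 1) (p := 1) (j := 1) (by omega) (by omega) (by omega) (by omega) (by omega) (by omega) (by omega) (by omega)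
    · obtain ⟨rfl, rfl, h⟩ := h
      exact NHT.rOut hf H.T (t := 2) (p := 1) (j := 1) (by omega) (by omega) (by omega) (by omega) (by omega) (by omega) (by omega) (by omega)
    · obtain ⟨rfl, rfl, h⟩ := h
      exact NHT.rOut hf H.T (t := 1) (p := 1) (j := 0) (by omega) (by omega) (by omega) (by omega) (by omega) (by omega) (by omega) (by omega)
    · obtain ⟨rfl, rfl, h⟩ := h
      exact NHT.rOut hf H.T (t := 2) (p := 1) (j := 0) (by omega) (by omega) (by omega) (by omega) (by omega) (by omega) (by omega) (by omega)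
    · obtain ⟨rfl, rfl, h⟩ := h
      exact fun t => NHT.rm1 hf H.T (p := 0) (j := 3) (by omega) (by omega) (by omega) (by omega) (by omega) (by omega) (mv t rfl (by omega) rfl rfl)
    · obtain ⟨rfl, rfl, h⟩ := h
      exact fun t => NHT.rm1 hf H.T (p := 1) (j := 3) (by omega) (by omega) (by omega) (by omega) (by omega) (by omega) (mv t rfl (by omega) rfl rfl)
    · obtain ⟨rfl, rfl, h⟩ := h
      exact fun t => NHT.rm1 hf H.T (p := 0) (j := 2) (by omega) (by omega) (by omega) (by omega) (by omega) (by omega) (mv t rfl (by omega) rfl rfl)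
    · obtain ⟨rfl, rfl, h⟩ := h
      exact fun t => NHT.rm1 hf H.T (p := 1) (j := 2) (by omega) (by omega) (by omega) (by omega) (by omega) (by omega) (mv t rfl (by omega) rfl rfl)
    · obtain ⟨rfl, rfl, h⟩ := h
      exact fun t => NHT.rm1 hf H.T (p := 0) (j := 1) (by omega) (by omega) (by omega) (by omega) (by omega) (by omega) (mv t rfl (by omega) rfl rfl)
    · obtain ⟨rfl, rfl, h⟩ := h
      exact fun t => NHT.rm1 hf H.T (p := 1) (j := 1) (by omega) (by omega) (by omega) (by omega) (by omega) (by omega) (mv t rfl (by omega) rfl rfl)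
    · obtain ⟨rfl, rfl, h⟩ := h
      exact fun t => NHT.rm1i hf H.T (p := 0) (j := 4) (by omega) (by omega) (by omega) (by omega) (by omega) (by omega) (mv t rfl (by omega) rfl rfl)
    · obtain ⟨rfl, rfl, h⟩ := h
      exact fun t => NHT.rm1i hf H.T (p := 1) (j := 4) (by omega) (by omega) (by omega) (by omega) (by omega) (by omega) (mv t rfl (by omega) rfl rfl)
    · obtain ⟨rfl, rfl, h⟩ := h
      exact fun t => NHT.rm1i hf H.T (p := 0) (j := 3) (by omega) (by omega) (by omega) (by omega) (by omega) (by omega) (mv t rfl (by omega) rfl rfl)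
    · obtain ⟨rfl, rfl, h⟩ := h
      exact fun t => NHT.rm1i hf H.T (p := 1) (j := 3) (by omega) (by omega) (by omega) (by omega) (by omega) (by omega) (mv t rfl (by omega) rfl rfl)
    · obtain ⟨rfl, rfl, h⟩ := h
      exact fun t => NHT.rm1i hf H.T (p := 0) (j := 2) (by omega) (by omega) (by omega) (by omega) (by omega) (by omega) (mv t rfl (by omega) rfl rfl)
    · obtain ⟨rfl, rfl, h⟩ := h
      exact fun t => NHT.rm1i hf H.T (p := 1) (j := 2) (by omega) (by omega) (by omega) (by omega) (by omega) (by omega) (mv t rfl (by omega) rfl rfl)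
    · obtain ⟨rfl, rfl, h⟩ := h
      exact fun t => NHT.rm1i hf H.T (p := 0) (j := 1) (by omega) (by omega) (by omega) (by omega) (by omega) (by omega) (mv t rfl (by omega) rfl rfl)
    · obtain ⟨rfl, rfl, h⟩ := h
      exact fun t => NHT.rm1i hf H.T (p := 1) (j := 1) (by omega) (by omega) (by omega) (by omega) (by omega) (by omega) (mv t rfl (by omega) rfl rfl)
    · obtain ⟨rfl, rfl, h⟩ := h
      exact fun t => NHT.rm1i hf H.T (p := 1) (j := 0) (by omega) (by omega) (by omega) (by omega) (by omega) (by omega) (mv t rfl (by omega) rfl rfl)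
    · obtain ⟨rfl, rfl, rfl, h⟩ := h
      exact fun t => t1 _ (by omega) (by omega) (by omega) (mv t (by omega) (by omega) (by omega) rfl)
    · obtain ⟨rfl, rfl, rfl, rfl⟩ := h
      exact fun t => h1 (mv t (by omega) (by omega) (by omega) (by omega))
    · obtain ⟨rfl, rfl, rfl, h⟩ := h
      exact fun t => f2 _ (by omega) (by omega) (by omega) (mv t (by omega) (by omega) (by omega) rfl)
    · obtain ⟨rfl, rfl, rfl, h⟩ := h
      exact fun t => f6 _ (by omega) (by omega) (by omega) (mv t (by omega) (by omega) (by omega) rfl)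
    · obtain ⟨rfl, rfl, rfl, rfl⟩ := h
      exact fun t => t5 (mv t (by omega) (by omega) (by omega) (by omega))

end Pool.Agent.SNT.E1T3
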