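import Pool.Agent.SNT.PL

set_option autoImplicit false
set_option synthInstance.maxSize 100000
set_option synthInstance.maxHeartbeats 4000000

/-! (T3) the beams of `6 k + 8` at the distances `9`, `11`, and `dc` (leads `n + 1`, `n - 4`, `n - 7`). -/

namespace Pool.Agent.SNT.E1T3

open Pool.Agent.SNT Pool.Agent.SNT.Sig Pool.Agent.SNT.Loc Pool.Agent.SNT.LW Pool.Agent.SNT.NHZ Pool.Agent.SNT.DRun
open Pool.Agent.SNT.PB Pool.Agent.SNT.D1E

variable {f : ℕ → ℕ → ℕ → ℕ → Prop}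

theorem t9a_chk : check 11 9 16 16 0 1 0 0 2
    (fun j n p q => decide ((j = 2 ∧ n = 1 ∧ q ≤ p ∧ p ≤ q + 14 ∧ ((p + q) % 2 = 1 ∧ p % 2 = 1))
      ∨ (j = 2 ∧ n = 3 ∧ 2 ≤ q ∧ q ≤ p ∧ p ≤ q + 14 ∧ ((p + q) % 2 = 1 ∧ p % 2 = 0))
      ∨ (j = 4 ∧ n = 3 ∧ 7 ≤ p ∧ q ≤ p ∧ p ≤ q + 14 ∧ ((p + q) % 2 = 1 ∧ p % 2 = 1))
      ∨ (j = 10 ∧ n = 5 ∧ 11 ≤ p ∧ q ≤ p ∧ p ≤ q + 14 ∧ ((p + q) % 2 = 1 ∧ p % 2 = 1))
      ∨ (j = 10 ∧ n = 7 ∧ 10 ≤ q ∧ q ≤ p ∧ p ≤ q + 14 ∧ ((p + q) % 2 = 1 ∧ p % 2 = 0))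
      ∨ (j = 6 ∧ n = 5 ∧ p = 9 ∧ (q + 0) % 2 = 0 ∧ 2 ≤ q ∧ q ≤ 6)
      ∨ (j = 4 ∧ n = 7 ∧ p = 13 ∧ q = 2)
      ∨ (j = 10 ∧ n = 7 ∧ p = 13 ∧ q = 4)))
    (fun j n p q => decide ((j = 2 ∧ n = 2 ∧ 2 ≤ p ∧ q ≤ p ∧ p ≤ q + 14 ∧ ¬ (p = q ∧ p % 2 = 0))
      ∨ (j = 2 ∧ n = 3 ∧ 2 ≤ q ∧ q ≤ p ∧ p ≤ q + 14 ∧ ¬ ((p + q) % 2 = 1 ∧ p % 2 = 0))
      ∨ (j = 10 ∧ n = 6 ∧ 10 ≤ p ∧ q ≤ p ∧ p ≤ q + 14 ∧ ¬ (p = q ∧ p % 2 = 0))
      ∨ (j = 1 ∧ n = 6 ∧ q ≤ p ∧ p ≤ q + 14)
      ∨ (j = 1 ∧ n = 5 ∧ q ≤ p ∧ p ≤ q + 14)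
      ∨ (j = 1 ∧ n = 4 ∧ q ≤ p ∧ p ≤ q + 14)
      ∨ (j = 1 ∧ n = 7 ∧ q ≤ p ∧ p ≤ q + 14)
      ∨ (j = 3 ∧ n = 7 ∧ 14 ≤ p ∧ q + 5 ≤ p ∧ p ≤ q + 10)
      ∨ (j = 5 ∧ n = 7 ∧ 14 ≤ p ∧ q + 4 ≤ p ∧ p ≤ q + 11)
      ∨ (j = 7 ∧ n = 7 ∧ 14 ≤ p ∧ q + 3 ≤ p ∧ p ≤ q + 12)
      ∨ (j = 11 ∧ n = 7 ∧ 14 ≤ p ∧ q + 1 ≤ p ∧ p ≤ q + 14)
      ∨ (j = 3 ∧ n = 3 ∧ 4 ≤ p ∧ q + 3 ≤ p ∧ p ≤ q + 12)
      ∨ (j = 9 ∧ n = 7 ∧ 10 ≤ q ∧ q + 1 ≤ p ∧ p ≤ q + 14)
      ∨ (j = 3 ∧ n = 5 ∧ 6 ≤ q ∧ q + 3 ≤ p ∧ p ≤ q + 12)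
      ∨ (j = 3 ∧ n = 5 ∧ 8 ≤ p ∧ q + 4 ≤ p ∧ p ≤ q + 11)
      ∨ (j = 2 ∧ n = 4 ∧ 5 ≤ p ∧ q + 4 ≤ p ∧ p ≤ q + 11)
      ∨ (j = 3 ∧ n = 4 ∧ 3 ≤ q ∧ q + 3 ≤ p ∧ p ≤ q + 12)
      ∨ (j = 3 ∧ n = 2 ∧ q + 2 ≤ p ∧ p ≤ q + 13)
      ∨ (j = 2 ∧ n = 6 ∧ 7 ≤ q ∧ q + 4 ≤ p ∧ p ≤ q + 11)
      ∨ (j = 3 ∧ n = 6 ∧ 7 ≤ q ∧ q + 4 ≤ p ∧ p ≤ q + 11)
      ∨ (j = 2 ∧ n = 6 ∧ 9 ≤ p ∧ q + 5 ≤ p ∧ p ≤ q + 10)
      ∨ (j = 3 ∧ n = 6 ∧ 9 ≤ p ∧ q + 5 ≤ p ∧ p ≤ q + 10)
      ∨ (j = 4 ∧ n = 6 ∧ 9 ≤ p ∧ q + 4 ≤ p ∧ p ≤ q + 11)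
      ∨ (j = 5 ∧ n = 6 ∧ 9 ≤ p ∧ q + 4 ≤ p ∧ p ≤ q + 11)
      ∨ (j = 6 ∧ n = 6 ∧ 9 ≤ p ∧ q + 3 ≤ p ∧ p ≤ q + 12)
      ∨ (j = 7 ∧ n = 6 ∧ 9 ≤ p ∧ q + 3 ≤ p ∧ p ≤ q + 12)
      ∨ (j = 8 ∧ n = 6 ∧ 9 ≤ p ∧ q + 2 ≤ p ∧ p ≤ q + 13)
      ∨ (j = 9 ∧ n = 6 ∧ 9 ≤ p ∧ q + 2 ≤ p ∧ p ≤ q + 13)
      ∨ (j = 11 ∧ n = 6 ∧ 9 ≤ p ∧ q + 1 ≤ p ∧ p ≤ q + 14)
      ∨ (j = 4 ∧ n = 7 ∧ p = 14 ∧ (q + 0) % 2 = 1 ∧ 5 ≤ q ∧ q ≤ 9)
      ∨ (j = 8 ∧ n = 7 ∧ p = 14 ∧ (q + 0) % 2 = 1 ∧ 5 ≤ q ∧ q ≤ 5)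
      ∨ (j = 6 ∧ n = 7 ∧ p = 13 ∧ (q + 0) % 2 = 0 ∧ 4 ≤ q ∧ q ≤ 8)
      ∨ (j = 6 ∧ n = 7 ∧ p = 11 ∧ (q + 0) % 2 = 0 ∧ 4 ≤ q ∧ q ≤ 6)
      ∨ (j = 10 ∧ n = 7 ∧ p = 13 ∧ q = 8)
      ∨ (j = 10 ∧ n = 7 ∧ p = 13 ∧ q = 6)))
    650
    0x27e2832c628030eb5a27ea8027f29227e2832c628030eb5a27ea0027ea0427ec032c6c0030ec422c63002c630427eb032c6b002c6b041ee3832363802363841ee38323640023640415d2831a53001a52001edb521edada235a80235a841eea03236a00236a041eeb83236b80236b841a630315d28015d2841eeb03236b00236b041ee28323630023630415db851a640015e3921eec521a63001a630415d2831a53001edb521a52001eda52235a00235a0415db031a5b001a5b0415d1831a51801a518415db851a640015e3921eec521a63001eeb52236a80236a841a620315d18015d18415da031a5a001a5a0415da031a5a001ee2da23628023628415e1831a61801a61840cd90311590011590415e3831153001153040cda03115a00115a0430ed032c64002c64040cd1831151801151840cd90311590015e1da1a59801a598415e3831a64001a63001eec521eebda236c00236c0415d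2831a52801a52840cd9831159801159840cda03115a0015e2da1a5a801a5a8415db851a640015e3921eec521a63001eeb521a62001a620415eb0015ec0015f39a15ec0115eb0315eb8015eb8415f38311630015e3ca1a5b801a5b840cda03115a0015e2da1a62801a628415e2831152001152040ceb83116b80116b8415ea001a72520ce98311698015ea4a1a6a001a6a0415f2831162001162041a720315e18015e18111510011510415f38311630015e3ca1a63801a6384104a8310ca8010ca840cc9831149801149840ce1831161801161840ceb03116b00116b0410530310d30010d3040cea03116a00116a040cda83115a80115a840cea83116a80116a840cec03116c00116c040be9030c69000c690430eb0327e28027e2840ce2831162801162841a72031a6a801a6a840cca83114a80114a840cdb03115b00115b041a740315e38015e38427f2832362002362040cca03114a00114a0415f4831164001164040cd2831152801152840cc9031149001149040f69030b68800b68840ce3831163801163841a730315e28015e2840cdb83115b80115b84356b0030f58035731230ea0030e5802fec002fea002fdd002fdc001dcb001dca001dc90015e90013e9000ad2800ac2800ac1800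9e90035730735728734f30734f28734eb0734ea8730f58f30f30730ec0730eb0730ea0f30e58f30e50730e40730e307307307306d07306c87306b87306b073063873063073062872fec0f2fea0f2fdd0f2fdc0f2c6d072bed072bec872bec072beb872beb072bea872be5072be4872be4072be3872be3072be28727f28727f20727e40727e30727e207277287277207276c07276b87276b07276a87276a07276407276387276307276287276207275a87275a0723728723720722f28722f20722ec0722eb8722eb0722ea8722ea0722e40722e38722e30722e28722e20722da8722da071eec071eeb071eea071ee4071ee3071ee2071edb071eda071ed3071ed2071e6c071e6b871e6b071e6a871e6a071e69871e64071e63871e63071e62871e62071e61871e5b871e5b071e5a871e5a071e59871e52071dcb0f1dca0f1dc90f1a74071a73871a73071a72871a72071a718719f40719f38719f30719f28719f20719f18719ec0719eb8719eb0719ea8719ea0719e98719e40719e38719e30719e28719e20719e18719db8719db0719da8719da0719d98719d30719d28719d20719d18715f48715f40715f38715f30715f28715f20715e90f15e40715e30715e20715e10715d30715d20715d10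7157487157407157387157307157287157207157187156c87156c07156b87156b07156a87156a07156987156407156387156307156287156207156187156107155b87155b07155a87155a07155987155907155307155287155207155187155107154a87154a0715498715490713e90f11748711740711738711730711728711720710f48710f40710f38710f30710f28710f20710ec8710ec0710eb8710eb0710ea8710ea0710e98710e40710e38710e30710e28710e20710e18710e10710db8710db0710da8710da0710d98710d90710d28710d20710d18710d10710ca0710c98710c907105307105287104b07104a87104a071042070fd3070fd2870fcb070fca870fc2070f68870f61070ee8870ce4070ce3070ce2070ce1070cd3070cd2070cd1070cc2070cc1070c6c070c6b870c6b070c6a870c6a070c69870c64070c63870c63070c62870c62070c61870c61070c5b870c5b070c5a870c5a070c59870c59070c58870c52870c52070c51870c51070c50870c4a070c49870c49070c48870be1070bd3070bc2070b69070b61070b60870b52870ae9070ae1070ad28f0ac28f0ac18f0a68870a61070a608709e90f086c07086b87086b07086a87086a07086987086907086407086387086307086287086207086187086107085b87085b07085a87085a07085987085907085887085387085307085287085207085187085107085087084a87084a0708498708490708488708428708420708418708410708408707ec0707eb8707eb0707ea8707ea0707e98707e90707e40707e38707e30707e28707e20707e18707e10707db8707db0707da8707da0707d98707d90707d88707d38707d30707d28707d20707d18707d10707d08707ca8707ca0707c98707c90707c88707c28707c20707c18707c10707c08707690707688707610707608706e90706e88706e10706e087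 = true := by
  decide +kernel

theorem t9a (hf : Rule f) {k c n M : ℕ} (H : PL f k c n M) (hM4 : M + 4 = n)
    (x3 : ∀ y : ℕ, y % 2 = 0 → 2 * n + 2 ≤ y + 2 * k → y + 6 ≤ 2 * n → f (6 * k + 4) (c - 2) (2 * n - 3) y)
    (t1 : ∀ y : ℕ, y % 2 = 0 → 2 * n + 8 ≤ y + 2 * k → y + 4 ≤ 2 * n → ¬ f (6 * k + 4) c (2 * n + 1) y)
    (t2 : ∀ y : ℕ, y % 2 = 0 → 2 * n + 6 ≤ y + 2 * k → y + 6 ≤ 2 * n → ¬ f (6 * k + 4) c (2 * n - 1) y)
    (f2 : ∀ y : ℕ, y % 2 = 1 → 2 * n + 9 ≤ y + 2 * k → y + 2 ≤ 2 * n → ¬ f (6 * k + 2) c (2 * n + 2) y)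
    (f6 : ∀ y : ℕ, y % 2 = 1 → 2 * n + 7 ≤ y + 2 * k → y ≤ 2 * n + 1 → ¬ f (6 * k + 6) c (2 * n + 2) y)
    (t5' : ¬ f (6 * k + 8) c (2 * n + 1) (2 * n - 4)) (t7' : ¬ f (6 * k + 8) c (2 * n + 1) (2 * n - 6)) (q : f (6 * k + 2) c (2 * n + 1) (2 * n - 10)) :
    ¬ f (6 * k + 8) c (2 * n + 1) (2 * n - 8) := by
  intro h0
  have hk := H.T.hk
  have hc := H.T.hc
  have h4' := H.T.h4
  have hb := H.T.hb
  have hN := H.T.hN2
  obtain ⟨a0, ha0⟩ : ∃ z, z + 2 = 6 * k := ⟨6 * k - (2), by omega⟩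
  obtain ⟨b0, hb0⟩ : ∃ z, z + 7 = c := ⟨c - (7), by omega⟩
  obtain ⟨x0, hx0⟩ : ∃ z, z + 12 = 2 * n := ⟨2 * n - (12), by omega⟩
  refine check_sound hf (a0 := a0) (b0 := b0) (x0 := x0) (y0 := x0) t9a_chk
    ⟨fun _ => rfl, fun h => absurd h (by decide), fun h => absurd h (by decide), by omega, by omega,
      by omega, by omega⟩ ?_ ?_
  · intro j m p q hr h
    obtain ⟨-, -, -, -, hp1, hp2, hq1, hq2⟩ := hr
    replace h := of_decide_eq_true h
    rcases h with h | h | h | h | h | h | h | h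
    · obtain ⟨rfl, rfl, h⟩ := h
      exact (WrapC.v0 H.c0 (by omega) (by omega) (by omega) (by omega) (by omega) (by omega) (by omega)).mpr (by omega)
    · obtain ⟨rfl, rfl, h⟩ := h
      exact (WrapC.v2 H.c0 (by omega) (by omega) (by omega) (by omega) (by omega) (by omega) (by omega)).mpr (by omega)
    · obtain ⟨rfl, rfl, h⟩ := h
      exact (WrapC.v0 H.c2 (by omega) (by omega) (by omega) (by omega) (by omega) (by omega) (by omega)).mpr (by omega)
    · obtain ⟨rfl, rfl, h⟩ := h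
      exact (NW.w0v H.c8 (by omega) (by omega) (by omega) (by omega) (by omega) (by omega) (by omega)).mpr (by omega)
    · obtain ⟨rfl, rfl, h⟩ := h
      exact (NW.w2v H.c8 (by omega) (by omega) (by omega) (by omega) (by omega) (by omega) (by omega)).mpr (by omega)
    · obtain ⟨rfl, rfl, rfl, h⟩ := h
      exact mv (x3 (x0 + q) (by omega) (by omega) (by omega)) (by omega) (by omega) (by omega) rfl
    · obtain ⟨rfl, rfl, rfl, rfl⟩ := h
      exact mv q (by omega) (by omega) (by omega) (by omega)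
    · obtain ⟨rfl, rfl, rfl, rfl⟩ := h
      exact mv h0 (by omega) (by omega) (by omega) (by omega)
  · intro j m p q hr h
    obtain ⟨-, -, -, -, hp1, hp2, hq1, hq2⟩ := hr
    replace h := of_decide_eq_true h
    rcases h with h | h | h | h | h | h | h | h | h | h | h | h | h | h | h | h | h | h | h | h | h | h | h | h | h | h | h | h | h | h | h | h | h | h | h
    · obtain ⟨rfl, rfl, h⟩ := h
      exact mt (WrapC.v1 H.c0 (by omega) (by omega) (by omega) (by omega) (by omega) (by omega) (by omega) (by omega)).mp (by omega)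
    · obtain ⟨rfl, rfl, h⟩ := h
      exact mt (WrapC.v2 H.c0 (by omega) (by omega) (by omega) (by omega) (by omega) (by omega) (by omega)).mp (by omega)
    · obtain ⟨rfl, rfl, h⟩ := h
      exact mt (NW.w1v H.c8 (by omega) (by omega) (by omega) (by omega) (by omega) (by omega) (by omega) (by omega)).mp (by omega)
    · obtain ⟨rfl, rfl, h⟩ := h
      exact H.lw _ _ _ _ (by omega) (by omega) (by omega) (by omega) (by omega) (by omega)
    · obtain ⟨rfl, rfl, h⟩ := h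
      exact H.lw _ _ _ _ (by omega) (by omega) (by omega) (by omega) (by omega) (by omega)
    · obtain ⟨rfl, rfl, h⟩ := h
      exact H.lw _ _ _ _ (by omega) (by omega) (by omega) (by omega) (by omega) (by omega)
    · obtain ⟨rfl, rfl, h⟩ := h
      exact H.lw _ _ _ _ (by omega) (by omega) (by omega) (by omega) (by omega) (by omega)
    · obtain ⟨rfl, rfl, h⟩ := h
      exact NHT.p0i hf H.T (j := 4) (by omega) (by omega) (by omega) (by omega) (by omega) (by omega)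
    · obtain ⟨rfl, rfl, h⟩ := h
      exact NHT.p0i hf H.T (j := 3) (by omega) (by omega) (by omega) (by omega) (by omega) (by omega)
    · obtain ⟨rfl, rfl, h⟩ := h
      exact NHT.p0i hf H.T (j := 2) (by omega) (by omega) (by omega) (by omega) (by omega) (by omega)
    · obtain ⟨rfl, rfl, h⟩ := h
      exact NHT.p0i hf H.T (j := 0) (by omega) (by omega) (by omega) (by omega) (by omega) (by omega)
    · obtain ⟨rfl, rfl, h⟩ := h
      exact NHT.pIn hf H.T (t := 3) (j := 2) (by omega) (by omega) (by omega) (by omega) (by omega) (by omega) (by omega)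
    · obtain ⟨rfl, rfl, h⟩ := h
      exact NHT.pOut hf H.T (t := 4) (j := 0) (by omega) (by omega) (by omega) (by omega) (by omega) (by omega) (by omega)
    · obtain ⟨rfl, rfl, h⟩ := h
      exact NHT.pm hf H.T (j := 2) (by omega) (by omega) (by omega) (by omega) (by omega) (by omega)
    · obtain ⟨rfl, rfl, h⟩ := h
      exact NHT.pmi hf H.T (j := 3) (by omega) (by omega) (by omega) (by omega) (by omega) (by omega)
    · obtain ⟨rfl, rfl, h⟩ := h
      exact NHT.rIn hf H.T (t := 3) (p := 0) (j := 3) (by omega) (by omega) (by omega) (by omega) (by omega) (by omega) (by omega) (by omega)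
    · obtain ⟨rfl, rfl, h⟩ := h
      exact NHT.rOut hf H.T (t := 2) (p := 1) (j := 2) (by omega) (by omega) (by omega) (by omega) (by omega) (by omega) (by omega) (by omega)
    · obtain ⟨rfl, rfl, h⟩ := h
      exact NHT.rOut hf H.T (t := 1) (p := 1) (j := 1) (by omega) (by omega) (by omega) (by omega) (by omega) (by omega) (by omega) (by omega)
    · obtain ⟨rfl, rfl, h⟩ := h
      exact fun t => NHT.rm1 hf H.T (p := 0) (j := 3) (by omega) (by omega) (by omega) (by omega) (by omega) (by omega) (mv t rfl (by omega) rfl rfl)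
    · obtain ⟨rfl, rfl, h⟩ := h
      exact fun t => NHT.rm1 hf H.T (p := 1) (j := 3) (by omega) (by omega) (by omega) (by omega) (by omega) (by omega) (mv t rfl (by omega) rfl rfl)
    · obtain ⟨rfl, rfl, h⟩ := h
      exact fun t => NHT.rm1i hf H.T (p := 0) (j := 4) (by omega) (by omega) (by omega) (by omega) (by omega) (by omega) (mv t rfl (by omega) rfl rfl)
    · obtain ⟨rfl, rfl, h⟩ := h
      exact fun t => NHT.rm1i hf H.T (p := 1) (j := 4) (by omega) (by omega) (by omega) (by omega) (by omega) (by omega) (mv t rfl (by omega) rfl rfl)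
    · obtain ⟨rfl, rfl, h⟩ := h
      exact fun t => NHT.rm1i hf H.T (p := 0) (j := 3) (by omega) (by omega) (by omega) (by omega) (by omega) (by omega) (mv t rfl (by omega) rfl rfl)
    · obtain ⟨rfl, rfl, h⟩ := h
      exact fun t => NHT.rm1i hf H.T (p := 1) (j := 3) (by omega) (by omega) (by omega) (by omega) (by omega) (by omega) (mv t rfl (by omega) rfl rfl)
    · obtain ⟨rfl, rfl, h⟩ := h
      exact fun t => NHT.rm1i hf H.T (p := 0) (j := 2) (by omega) (by omega) (by omega) (by omega) (by omega) (by omega) (mv t rfl (by omega) rfl rfl)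
    · obtain ⟨rfl, rfl, h⟩ := h
      exact fun t => NHT.rm1i hf H.T (p := 1) (j := 2) (by omega) (by omega) (by omega) (by omega) (by omega) (by omega) (mv t rfl (by omega) rfl rfl)
    · obtain ⟨rfl, rfl, h⟩ := h
      exact fun t => NHT.rm1i hf H.T (p := 0) (j := 1) (by omega) (by omega) (by omega) (by omega) (by omega) (by omega) (mv t rfl (by omega) rfl rfl)
    · obtain ⟨rfl, rfl, h⟩ := h
      exact fun t => NHT.rm1i hf H.T (p := 1) (j := 1) (by omega) (by omega) (by omega) (by omega) (by omega) (by omega) (mv t rfl (by omega) rfl rfl)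
    · obtain ⟨rfl, rfl, h⟩ := h
      exact fun t => NHT.rm1i hf H.T (p := 1) (j := 0) (by omega) (by omega) (by omega) (by omega) (by omega) (by omega) (mv t rfl (by omega) rfl rfl)
    · obtain ⟨rfl, rfl, rfl, h⟩ := h
      exact fun t => f2 _ (by omega) (by omega) (by omega) (mv t (by omega) (by omega) (by omega) rfl)
    · obtain ⟨rfl, rfl, rfl, h⟩ := h
      exact fun t => f6 _ (by omega) (by omega) (by omega) (mv t (by omega) (by omega) (by omega) rfl)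
    · obtain ⟨rfl, rfl, rfl, h⟩ := h
      exact fun t => t1 _ (by omega) (by omega) (by omega) (mv t (by omega) (by omega) (by omega) rfl)
    · obtain ⟨rfl, rfl, rfl, h⟩ := h
      exact fun t => t2 _ (by omega) (by omega) (by omega) (mv t (by omega) (by omega) (by omega) rfl)
    · obtain ⟨rfl, rfl, rfl, rfl⟩ := h
      exact fun t => t5' (mv t (by omega) (by omega) (by omega) (by omega))
    · obtain ⟨rfl, rfl, rfl, rfl⟩ := h
      exact fun t => t7' (mv t (by omega) (by omega) (by omega) (by omega))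

theorem t9b_chk : check 11 9 24 24 0 1 1 1 2
    (fun j n p q => decide ((j = 2 ∧ n = 1 ∧ 4 ≤ p ∧ q ≤ p ∧ p ≤ q + 14 ∧ ((p + q) % 2 = 1 ∧ p % 2 = 0))
      ∨ (j = 2 ∧ n = 3 ∧ 5 ≤ q ∧ q ≤ p ∧ p ≤ q + 14 ∧ ((p + q) % 2 = 1 ∧ p % 2 = 1))
      ∨ (j = 4 ∧ n = 3 ∧ 10 ≤ p ∧ q ≤ p ∧ p ≤ q + 14 ∧ ((p + q) % 2 = 1 ∧ p % 2 = 0))
      ∨ (j = 4 ∧ n = 1 ∧ q ≤ p ∧ p ≤ q + 14 ∧ ((p + q) % 2 = 1 ∧ p % 2 = 1))
      ∨ (j = 6 ∧ n = 5 ∧ 20 ≤ p ∧ q ≤ p ∧ p ≤ q + 14 ∧ ((p + q) % 2 = 1 ∧ p % 2 = 0))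
      ∨ (j = 6 ∧ n = 3 ∧ 5 ≤ q ∧ q ≤ p ∧ p ≤ q + 14 ∧ ((p + q) % 2 = 1 ∧ p % 2 = 1))
      ∨ (j = 8 ∧ n = 5 ∧ 9 ≤ q ∧ q ≤ p ∧ p ≤ q + 14 ∧ ((p + q) % 2 = 1 ∧ p % 2 = 1))
      ∨ (j = 10 ∧ n = 5 ∧ 14 ≤ p ∧ q ≤ p ∧ p ≤ q + 14 ∧ ((p + q) % 2 = 1 ∧ p % 2 = 0))
      ∨ (j = 10 ∧ n = 7 ∧ 13 ≤ q ∧ q ≤ p ∧ p ≤ q + 14 ∧ ((p + q) % 2 = 1 ∧ p % 2 = 1))
      ∨ (j = 6 ∧ n = 5 ∧ p = 12 ∧ (q + 1) % 2 = 0 ∧ 5 ≤ q ∧ q ≤ 9)
      ∨ (j = 4 ∧ n = 7 ∧ p = 18 ∧ q = 7)
      ∨ (j = 10 ∧ n = 7 ∧ p = 16 ∧ q = 7)))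
    (fun j n p q => decide ((j = 2 ∧ n = 1 ∧ 4 ≤ p ∧ q ≤ p ∧ p ≤ q + 14 ∧ ¬ ((p + q) % 2 = 1 ∧ p % 2 = 0))
      ∨ (j = 2 ∧ n = 2 ∧ 5 ≤ p ∧ q ≤ p ∧ p ≤ q + 14 ∧ ¬ (p = q ∧ p % 2 = 1))
      ∨ (j = 2 ∧ n = 3 ∧ 5 ≤ q ∧ q ≤ p ∧ p ≤ q + 14 ∧ ¬ ((p + q) % 2 = 1 ∧ p % 2 = 1))
      ∨ (j = 4 ∧ n = 3 ∧ 10 ≤ p ∧ q ≤ p ∧ p ≤ q + 14 ∧ ¬ ((p + q) % 2 = 1 ∧ p % 2 = 0))
      ∨ (j = 4 ∧ n = 4 ∧ 11 ≤ p ∧ q ≤ p ∧ p ≤ q + 14 ∧ ¬ (p = q ∧ p % 2 = 1))
      ∨ (j = 4 ∧ n = 5 ∧ 11 ≤ q ∧ q ≤ p ∧ p ≤ q + 14 ∧ ¬ ((p + q) % 2 = 1 ∧ p % 2 = 1))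
      ∨ (j = 4 ∧ n = 2 ∧ 3 ≤ q ∧ q ≤ p ∧ p ≤ q + 14 ∧ ¬ (p = q ∧ p % 2 = 0))
      ∨ (j = 6 ∧ n = 5 ∧ 20 ≤ p ∧ q ≤ p ∧ p ≤ q + 14 ∧ ¬ ((p + q) % 2 = 1 ∧ p % 2 = 0))
      ∨ (j = 6 ∧ n = 4 ∧ 7 ≤ q ∧ q ≤ p ∧ p ≤ q + 14 ∧ ¬ (p = q ∧ p % 2 = 0))
      ∨ (j = 10 ∧ n = 6 ∧ 13 ≤ p ∧ q ≤ p ∧ p ≤ q + 14 ∧ ¬ (p = q ∧ p % 2 = 1))
      ∨ (j = 1 ∧ n = 6 ∧ q ≤ p ∧ p ≤ q + 14)
      ∨ (j = 1 ∧ n = 5 ∧ q ≤ p ∧ p ≤ q + 14)
      ∨ (j = 1 ∧ n = 4 ∧ q ≤ p ∧ p ≤ q + 14)
      ∨ (j = 1 ∧ n = 3 ∧ q ≤ p ∧ p ≤ q + 14)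
      ∨ (j = 1 ∧ n = 2 ∧ q ≤ p ∧ p ≤ q + 14)
      ∨ (j = 1 ∧ n = 7 ∧ q ≤ p ∧ p ≤ q + 14)
      ∨ (j = 3 ∧ n = 7 ∧ 17 ≤ p ∧ q + 5 ≤ p ∧ p ≤ q + 10)
      ∨ (j = 5 ∧ n = 7 ∧ 17 ≤ p ∧ q + 4 ≤ p ∧ p ≤ q + 11)
      ∨ (j = 7 ∧ n = 7 ∧ 17 ≤ p ∧ q + 3 ≤ p ∧ p ≤ q + 12)
      ∨ (j = 9 ∧ n = 7 ∧ 17 ≤ p ∧ q + 2 ≤ p ∧ p ≤ q + 13)
      ∨ (j = 11 ∧ n = 7 ∧ 17 ≤ p ∧ q + 1 ≤ p ∧ p ≤ q + 14)
      ∨ (j = 3 ∧ n = 3 ∧ 7 ≤ p ∧ q + 3 ≤ p ∧ p ≤ q + 12)
      ∨ (j = 1 ∧ n = 1 ∧ q + 2 ≤ p ∧ p ≤ q + 13)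
      ∨ (j = 5 ∧ n = 3 ∧ 5 ≤ q ∧ q + 1 ≤ p ∧ p ≤ q + 14)
      ∨ (j = 9 ∧ n = 7 ∧ 13 ≤ q ∧ q + 1 ≤ p ∧ p ≤ q + 14)
      ∨ (j = 3 ∧ n = 5 ∧ 11 ≤ p ∧ q + 4 ≤ p ∧ p ≤ q + 11)
      ∨ (j = 5 ∧ n = 5 ∧ 11 ≤ p ∧ q + 3 ≤ p ∧ p ≤ q + 12)
      ∨ (j = 7 ∧ n = 5 ∧ 11 ≤ p ∧ q + 2 ≤ p ∧ p ≤ q + 13)
      ∨ (j = 3 ∧ n = 4 ∧ 6 ≤ q ∧ q + 3 ≤ p ∧ p ≤ q + 12)
      ∨ (j = 3 ∧ n = 2 ∧ 2 ≤ q ∧ q + 2 ≤ p ∧ p ≤ q + 13)
      ∨ (j = 5 ∧ n = 4 ∧ 6 ≤ q ∧ q + 2 ≤ p ∧ p ≤ q + 13)
      ∨ (j = 5 ∧ n = 2 ∧ 2 ≤ q ∧ q + 1 ≤ p ∧ p ≤ q + 14)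
      ∨ (j = 7 ∧ n = 4 ∧ 6 ≤ q ∧ q + 1 ≤ p ∧ p ≤ q + 14)
      ∨ (j = 2 ∧ n = 6 ∧ 10 ≤ q ∧ q + 4 ≤ p ∧ p ≤ q + 11)
      ∨ (j = 3 ∧ n = 6 ∧ 10 ≤ q ∧ q + 4 ≤ p ∧ p ≤ q + 11)
      ∨ (j = 2 ∧ n = 6 ∧ 12 ≤ p ∧ q + 5 ≤ p ∧ p ≤ q + 10)
      ∨ (j = 3 ∧ n = 6 ∧ 12 ≤ p ∧ q + 5 ≤ p ∧ p ≤ q + 10)
      ∨ (j = 4 ∧ n = 6 ∧ 12 ≤ p ∧ q + 4 ≤ p ∧ p ≤ q + 11)
      ∨ (j = 5 ∧ n = 6 ∧ 12 ≤ p ∧ q + 4 ≤ p ∧ p ≤ q + 11)
      ∨ (j = 6 ∧ n = 6 ∧ 12 ≤ p ∧ q + 3 ≤ p ∧ p ≤ q + 12)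
      ∨ (j = 7 ∧ n = 6 ∧ 12 ≤ p ∧ q + 3 ≤ p ∧ p ≤ q + 12)
      ∨ (j = 8 ∧ n = 6 ∧ 12 ≤ p ∧ q + 2 ≤ p ∧ p ≤ q + 13)
      ∨ (j = 9 ∧ n = 6 ∧ 12 ≤ p ∧ q + 2 ≤ p ∧ p ≤ q + 13)
      ∨ (j = 11 ∧ n = 6 ∧ 12 ≤ p ∧ q + 1 ≤ p ∧ p ≤ q + 14)
      ∨ (j = 4 ∧ n = 7 ∧ p = 17 ∧ (q + 1) % 2 = 1 ∧ 8 ≤ q ∧ q ≤ 12)
      ∨ (j = 8 ∧ n = 7 ∧ p = 17 ∧ (q + 1) % 2 = 1 ∧ 8 ≤ q ∧ q ≤ 10)
      ∨ (j = 6 ∧ n = 7 ∧ p = 16 ∧ (q + 1) % 2 = 0 ∧ 7 ≤ q ∧ q ≤ 11)
      ∨ (j = 6 ∧ n = 7 ∧ p = 14 ∧ (q + 1) % 2 = 0 ∧ 7 ≤ q ∧ q ≤ 9)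
      ∨ (j = 10 ∧ n = 7 ∧ p = 16 ∧ q = 11)
      ∨ (j = 10 ∧ n = 7 ∧ p = 16 ∧ q = 9)))
    906
    0x1ce283270e80312f4a26f68031174a3b37004563da4f838059b05a63c4006de4ca59a58363c5806de5c263b88063b88459a48363c48063c484454c034f6c0059985263b80063b8041ce283270e80312f4a26f68031174a3b2b00454bca4f6b804f6b841ce283270e8026f680312f4a31235a3b43003b43044558034f78004f7804390e052ee180390e8a2eee1a300e80300e8430f4053b2080310012454cd23b1f803b1f844565034f85804f85843118033b2c003b2c04310b833b2b803b2b843131033b45003b45044564834f84804f84843119033b2d004559524f79004f79043119033b2d004559524f79804f79843123833b43803b43842efa8323ad8023ad843118033b38003b38041cca8326f68031174a26de8030ff4a3b1f003b1f043131033b45004565424f85004f85042efa8324cd8024cd84310d0526e080311912310cd23b2c803b2c843119033b39003b390459b1034f78804f7884391b8324ce8024ce843b3805310b803b388a31181a31000031000439278324da8024da844564833b37803b3784228e8323ae8023ae84187a8323ba0023ba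043100033b20003b20043118033b38004564da4f84004f84041ccb8326eb8026eb843b4f833117003117043124833b44803b448431190325c08025c0841cd80326f80026f8041ce3832703802703841cd70326f70026f7043125833b45804565c2310d003119123b38803b388424940325b40025b4041ce48327048027048431310326f88026f8841ce3032703002703043b51833119003119041bce8325ee8025ee8459b0034f77804f77841cd90326f90026f9041cb40326d40026d4041ccc0326ec0026ec0431320326f98026f9841cd80326f80031184226df8026df8422828323a20023a2043927832efa802efa841cb38326d38026d3846de68363b98063b9841ccd0326ed0026ed042494031b94001b9404187a8323ba8023ba841ce5832705802705842ec0052eb38038e0ca38d44a2488002488041ce283270280270284228e8323ae0023ae041ce5032705002705041cb28326d28026d2841aa18324c18024c18431300326f78026f78422818323a18023a1841ce38327038031305a3b44003b440463d0835998005998042281831981801981841cbf0326df0026df041bc28325e28025e2843929832efc803a48f22efb802efb843b50833118003118041ccc8326ec8026ec841c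e4032704002704041cc00326e00026e0041cca8326ea8026ea841ccb0326eb0026eb041cb30326d30026d3044355802cbc802c73807804804d825a313c802cbd8036e95a36a05a1609806df3007810926de3806ddb006ba5806ba3806b8e806b8d8057a200577100436e8043548043538042f48042f38042f28041220041210041090040c0003b68d2313b802cd4802cbb802cba802ca3802ca2802ca1802c8c802c748036e9d22a89002a71002a70002a40002a28002a2700186f001828001827001622801608801729a278108778100776f08776f00776e48776e4076df30f6df0876de5876de4876de38f6ddb0f6dda876dd9876dd8876cd0876cc6876cc6076cc5076cc4876cb9076cb8876cb8076ba58f6ba38f6b8e8f6b8d8f63d08763d00763c68762b08762b00762a68762a60762a58762a50762a48762a407629a87629a0762998762990762988762980759b10759b08759b00759af87599987599887599787589087589007588f87588587588507588487588407588387587987587907587887587807587787586c07586b8757a20f57710f4f91074f90874f90074f8f874e71074e70874e70074e6f874e65874e65074e64874e64074e63874e59874e59074e58874e58074e5787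4e4c074e4b874d81874d76074d75874c62074c5607456587456487456387455987455887455787454c87454b87454087453f87444587444507444487444407444387444307443987443907443887443807443787443707442d07442c87442c07442b87442b07441f87436e8f43618743560743548f43538f42f48f42f38f42f28f42418742360741220f41210f41090f40c00f3b68873b68073b5c873b5c073b51873b51073b50873b50073b4f873b4f073a48873a48073a3c873a3c073a31873a31073a30873a30073a2f873a2f073a25873a25073a24873a24073a23873a23073a19873a19073a18873a18073a17873a17073a0d073a0c873a0c073a0b873a0b073a00873a000739ff8739ff07392887392787391d87391d07391c87391c07391b87391b07390f87390f07390e8739028739020738e08738e00738d38738078737fd8737fb0737ef0737c08737c00737b40737b38736e98736e90736dd8736dd0736dc8736a007369f8735c98735c90735c88735bd07358007357f87314887313b8f313207313187313107313087313007312f87312e8731198731188731178731168731008730ff8730fe87302887302807301c87301c07301207301187301107301007300f87300f073006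073005873005073004873004073003873003073002872ff9872ff9072ff8872ff8072ff7872ff7072ff6872fed072fec872fec072feb872feb072fea872fe0872fe0072fdf872fdf072fde872fd4072fd3872fd3072fd2872f09872f08872f07872efd872eef872eee872eed872ec0872ea7872de9072de7872de7072ddd872ddd072ddb872ddb072dda872dda072dcf872dce072dcd872dc2872dc1872da0072d94072d88072d87872cd48f2cc9872cc9072cc8872cbd072cbb8f2cba8f2ca38f2ca28f2ca18f2c8c8f2c7f872c748f2c74072ba9072b9c872b5f872a890f2a710f2a700f2a400f2a280f2a270f271207271187271107271087271007270f8725f20725f18725f10725f08725f00725ef8725e60725e58725e50725e48725e40725e38725e30725d98725d90725d88725d80725d78725d70725d68725cd0725cc8725cc0725cb8725cb0725ca8725c00725bf8725bf0725be8725b38725b30725b287249407249387248787237407236787228e87228207227687227587216e072162072161872155871cd9871cd8871cd7871cd6871cc0871cbf871cbe871ca7871ca6871bc5871bc5071bc4871bc4071bc3871bc3071bb9871bb9071bb8871bb8071bb7871bb7071bb6871b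ad071bac871bac071bab871bab071baa871baa071ba0071b9f871b9f071b9e871b9e071b93871b93071b92871b92071aae871a96871a95871a6787187a87186f0f186e8718628718568718558718280f18270f175a87175a07174e07174207174187174107173687173607172987172907171d87171d0716228f16090716088f15fd8715fd0712c58712c50712c48712c40712c38712c30712c28712c20712b98712b90712b88712b80712b78712b70712b68712b60712ad0712ac8712ac0712ab8712ab0712aa8712aa0712a10712a08712a007129f87129f07129e87129e0712940712938712930712928712920712880712878712870712868712860711ae8711ae0711a58711a50711a48711a40711a38711a30711a28711a207119987119907119887119807119787119707119687119607118d07118c87118c07118b87118b07118a87118a07118107118087118007117f87117f07117e87117e07117407117387117307117287117207116807116787116707116687116607108e87108e071082871082071081871081071076871076071075871075070f61870f61070f55870f55070e5a870e5a070e4e070d3a870d3a070d2e070d09870d09070cfd870cfd070be9870be9070bdd870bdd07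 = true := by
  decide +kernel

theorem t9b (hf : Rule f) {k c n M : ℕ} (H : PL f k c n M) (hM4 : M + 4 = n)
    (x3 : ∀ y : ℕ, y % 2 = 0 → 2 * n + 2 ≤ y + 2 * k → y + 6 ≤ 2 * n → f (6 * k + 4) (c - 2) (2 * n - 3) y)
    (t1 : ∀ y : ℕ, y % 2 = 0 → 2 * n + 8 ≤ y + 2 * k → y + 4 ≤ 2 * n → ¬ f (6 * k + 4) c (2 * n + 1) y)
    (t2 : ∀ y : ℕ, y % 2 = 0 → 2 * n + 6 ≤ y + 2 * k → y + 6 ≤ 2 * n → ¬ f (6 * k + 4) c (2 * n - 1) y)
    (f2 : ∀ y : ℕ, y % 2 = 1 → 2 * n + 9 ≤ y + 2 * k → y + 2 ≤ 2 * n → ¬ f (6 * k + 2) c (2 * n + 2) y)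
    (f6 : ∀ y : ℕ, y % 2 = 1 → 2 * n + 7 ≤ y + 2 * k → y ≤ 2 * n + 1 → ¬ f (6 * k + 6) c (2 * n + 2) y)
    (t5' : ¬ f (6 * k + 8) c (2 * n + 1) (2 * n - 4)) (t7' : ¬ f (6 * k + 8) c (2 * n + 1) (2 * n - 6)) (q : f (6 * k + 2) c (2 * n + 3) (2 * n - 8)) :
    ¬ f (6 * k + 8) c (2 * n + 1) (2 * n - 8) := by
  intro h0
  have hk := H.T.hk
  have hc := H.T.hc
  have h4' := H.T.h4
  have hb := H.T.hb
  have hN := H.T.hN2
  obtain ⟨a0, ha0⟩ : ∃ z, z + 2 = 6 * k := ⟨6 * k - (2), by omega⟩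
  obtain ⟨b0, hb0⟩ : ∃ z, z + 7 = c := ⟨c - (7), by omega⟩
  obtain ⟨x0, hx0⟩ : ∃ z, z + 15 = 2 * n := ⟨2 * n - (15), by omega⟩
  refine check_sound hf (a0 := a0) (b0 := b0) (x0 := x0) (y0 := x0) t9b_chk
    ⟨fun _ => rfl, fun h => absurd h (by decide), fun h => absurd h (by decide), by omega, by omega,
      by omega, by omega⟩ ?_ ?_
  · intro j m p q hr h
    obtain ⟨-, -, -, -, hp1, hp2, hq1, hq2⟩ := hr
    replace h := of_decide_eq_true h
    rcases h with h | h | h | h | h | h | h | h | h | h | h | h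
    · obtain ⟨rfl, rfl, h⟩ := h
      exact (WrapC.v0 H.c0 (by omega) (by omega) (by omega) (by omega) (by omega) (by omega) (by omega)).mpr (by omega)
    · obtain ⟨rfl, rfl, h⟩ := h
      exact (WrapC.v2 H.c0 (by omega) (by omega) (by omega) (by omega) (by omega) (by omega) (by omega)).mpr (by omega)
    · obtain ⟨rfl, rfl, h⟩ := h
      exact (WrapC.v0 H.c2 (by omega) (by omega) (by omega) (by omega) (by omega) (by omega) (by omega)).mpr (by omega)
    · obtain ⟨rfl, rfl, h⟩ := h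
      exact (WrapC.v2 H.c2a (by omega) (by omega) (by omega) (by omega) (by omega) (by omega) (by omega)).mpr (by omega)
    · obtain ⟨rfl, rfl, h⟩ := h
      exact (WrapC.v0 H.c4 (by omega) (by omega) (by omega) (by omega) (by omega) (by omega) (by omega)).mpr (by omega)
    · obtain ⟨rfl, rfl, h⟩ := h
      exact (WrapC.v2 H.c4a (by omega) (by omega) (by omega) (by omega) (by omega) (by omega) (by omega)).mpr (by omega)
    · obtain ⟨rfl, rfl, h⟩ := h
      exact (WrapC.v2 H.c6 (by omega) (by omega) (by omega) (by omega) (by omega) (by omega) (by omega)).mpr (by omega)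
    · obtain ⟨rfl, rfl, h⟩ := h
      exact (NW.w0v H.c8 (by omega) (by omega) (by omega) (by omega) (by omega) (by omega) (by omega)).mpr (by omega)
    · obtain ⟨rfl, rfl, h⟩ := h
      exact (NW.w2v H.c8 (by omega) (by omega) (by omega) (by omega) (by omega) (by omega) (by omega)).mpr (by omega)
    · obtain ⟨rfl, rfl, rfl, h⟩ := h
      exact mv (x3 (x0 + q) (by omega) (by omega) (by omega)) (by omega) (by omega) (by omega) rfl
    · obtain ⟨rfl, rfl, rfl, rfl⟩ := h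
      exact mv q (by omega) (by omega) (by omega) (by omega)
    · obtain ⟨rfl, rfl, rfl, rfl⟩ := h
      exact mv h0 (by omega) (by omega) (by omega) (by omega)
  · intro j m p q hr h
    obtain ⟨-, -, -, -, hp1, hp2, hq1, hq2⟩ := hr
    replace h := of_decide_eq_true h
    rcases h with h | h | h | h | h | h | h | h | h | h | h | h | h | h | h | h | h | h | h | h | h | h | h | h | h | h | h | h | h | h | h | h | h | h | h | h | h | h | h | h | h | h | h | h | h | h | h | h | h | h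
    · obtain ⟨rfl, rfl, h⟩ := h
      exact mt (WrapC.v0 H.c0 (by omega) (by omega) (by omega) (by omega) (by omega) (by omega) (by omega)).mp (by omega)
    · obtain ⟨rfl, rfl, h⟩ := h
      exact mt (WrapC.v1 H.c0 (by omega) (by omega) (by omega) (by omega) (by omega) (by omega) (by omega) (by omega)).mp (by omega)
    · obtain ⟨rfl, rfl, h⟩ := h
      exact mt (WrapC.v2 H.c0 (by omega) (by omega) (by omega) (by omega) (by omega) (by omega) (by omega)).mp (by omega)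
    · obtain ⟨rfl, rfl, h⟩ := h
      exact mt (WrapC.v0 H.c2 (by omega) (by omega) (by omega) (by omega) (by omega) (by omega) (by omega)).mp (by omega)
    · obtain ⟨rfl, rfl, h⟩ := h
      exact mt (WrapC.v1 H.c2 (by omega) (by omega) (by omega) (by omega) (by omega) (by omega) (by omega) (by omega)).mp (by omega)
    · obtain ⟨rfl, rfl, h⟩ := h
      exact mt (WrapC.v2 H.c2 (by omega) (by omega) (by omega) (by omega) (by omega) (by omega) (by omega)).mp (by omega)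
    · obtain ⟨rfl, rfl, h⟩ := h
      exact mt (WrapC.v3 H.c2a (by omega) (by omega) (by omega) (by omega) (by omega) (by omega) (by omega) (by omega)).mp (by omega)
    · obtain ⟨rfl, rfl, h⟩ := h
      exact mt (WrapC.v0 H.c4 (by omega) (by omega) (by omega) (by omega) (by omega) (by omega) (by omega)).mp (by omega)
    · obtain ⟨rfl, rfl, h⟩ := h
      exact mt (WrapC.v3 H.c4a (by omega) (by omega) (by omega) (by omega) (by omega) (by omega) (by omega) (by omega)).mp (by omega)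
    · obtain ⟨rfl, rfl, h⟩ := h
      exact mt (NW.w1v H.c8 (by omega) (by omega) (by omega) (by omega) (by omega) (by omega) (by omega) (by omega)).mp (by omega)
    · obtain ⟨rfl, rfl, h⟩ := h
      exact H.lw _ _ _ _ (by omega) (by omega) (by omega) (by omega) (by omega) (by omega)
    · obtain ⟨rfl, rfl, h⟩ := h
      exact H.lw _ _ _ _ (by omega) (by omega) (by omega) (by omega) (by omega) (by omega)
    · obtain ⟨rfl, rfl, h⟩ := h
      exact H.lw _ _ _ _ (by omega) (by omega) (by omega) (by omega) (by omega) (by omega)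
    · obtain ⟨rfl, rfl, h⟩ := h
      exact H.lw _ _ _ _ (by omega) (by omega) (by omega) (by omega) (by omega) (by omega)
    · obtain ⟨rfl, rfl, h⟩ := h
      exact H.lw _ _ _ _ (by omega) (by omega) (by omega) (by omega) (by omega) (by omega)
    · obtain ⟨rfl, rfl, h⟩ := h
      exact H.lw _ _ _ _ (by omega) (by omega) (by omega) (by omega) (by omega) (by omega)
    · obtain ⟨rfl, rfl, h⟩ := h
      exact NHT.p0i hf H.T (j := 4) (by omega) (by omega) (by omega) (by omega) (by omega) (by omega)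
    · obtain ⟨rfl, rfl, h⟩ := h
      exact NHT.p0i hf H.T (j := 3) (by omega) (by omega) (by omega) (by omega) (by omega) (by omega)
    · obtain ⟨rfl, rfl, h⟩ := h
      exact NHT.p0i hf H.T (j := 2) (by omega) (by omega) (by omega) (by omega) (by omega) (by omega)
    · obtain ⟨rfl, rfl, h⟩ := h
      exact NHT.p0i hf H.T (j := 1) (by omega) (by omega) (by omega) (by omega) (by omega) (by omega)
    · obtain ⟨rfl, rfl, h⟩ := h
      exact NHT.p0i hf H.T (j := 0) (by omega) (by omega) (by omega) (by omega) (by omega) (by omega)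
    · obtain ⟨rfl, rfl, h⟩ := h
      exact NHT.pIn hf H.T (t := 3) (j := 2) (by omega) (by omega) (by omega) (by omega) (by omega) (by omega) (by omega)
    · obtain ⟨rfl, rfl, h⟩ := h
      exact NHT.pOut hf H.T (t := 1) (j := 1) (by omega) (by omega) (by omega) (by omega) (by omega) (by omega) (by omega)
    · obtain ⟨rfl, rfl, h⟩ := h
      exact NHT.pOut hf H.T (t := 2) (j := 0) (by omega) (by omega) (by omega) (by omega) (by omega) (by omega) (by omega)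
    · obtain ⟨rfl, rfl, h⟩ := h
      exact NHT.pOut hf H.T (t := 4) (j := 0) (by omega) (by omega) (by omega) (by omega) (by omega) (by omega) (by omega)
    · obtain ⟨rfl, rfl, h⟩ := h
      exact NHT.pmi hf H.T (j := 3) (by omega) (by omega) (by omega) (by omega) (by omega) (by omega)
    · obtain ⟨rfl, rfl, h⟩ := h
      exact NHT.pmi hf H.T (j := 2) (by omega) (by omega) (by omega) (by omega) (by omega) (by omega)
    · obtain ⟨rfl, rfl, h⟩ := h
      exact NHT.pmi hf H.T (j := 1) (by omega) (by omega) (by omega) (by omega) (by omega) (by omega)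
    · obtain ⟨rfl, rfl, h⟩ := h
      exact NHT.rOut hf H.T (t := 2) (p := 1) (j := 2) (by omega) (by omega) (by omega) (by omega) (by omega) (by omega) (by omega) (by omega)
    · obtain ⟨rfl, rfl, h⟩ := h
      exact NHT.rOut hf H.T (t := 1) (p := 1) (j := 1) (by omega) (by omega) (by omega) (by omega) (by omega) (by omega) (by omega) (by omega)
    · obtain ⟨rfl, rfl, h⟩ := h
      exact NHT.rOut hf H.T (t := 2) (p := 1) (j := 1) (by omega) (by omega) (by omega) (by omega) (by omega) (by omega) (by omega) (by omega)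
    · obtain ⟨rfl, rfl, h⟩ := h
      exact NHT.rOut hf H.T (t := 1) (p := 1) (j := 0) (by omega) (by omega) (by omega) (by omega) (by omega) (by omega) (by omega) (by omega)
    · obtain ⟨rfl, rfl, h⟩ := h
      exact NHT.rOut hf H.T (t := 2) (p := 1) (j := 0) (by omega) (by omega) (by omega) (by omega) (by omega) (by omega) (by omega) (by omega)
    · obtain ⟨rfl, rfl, h⟩ := h
      exact fun t => NHT.rm1 hf H.T (p := 0) (j := 3) (by omega) (by omega) (by omega) (by omega) (by omega) (by omega) (mv t rfl (by omega) rfl rfl)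
    · obtain ⟨rfl, rfl, h⟩ := h
      exact fun t => NHT.rm1 hf H.T (p := 1) (j := 3) (by omega) (by omega) (by omega) (by omega) (by omega) (by omega) (mv t rfl (by omega) rfl rfl)
    · obtain ⟨rfl, rfl, h⟩ := h
      exact fun t => NHT.rm1i hf H.T (p := 0) (j := 4) (by omega) (by omega) (by omega) (by omega) (by omega) (by omega) (mv t rfl (by omega) rfl rfl)
    · obtain ⟨rfl, rfl, h⟩ := h
      exact fun t => NHT.rm1i hf H.T (p := 1) (j := 4) (by omega) (by omega) (by omega) (by omega) (by omega) (by omega) (mv t rfl (by omega) rfl rfl)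
    · obtain ⟨rfl, rfl, h⟩ := h
      exact fun t => NHT.rm1i hf H.T (p := 0) (j := 3) (by omega) (by omega) (by omega) (by omega) (by omega) (by omega) (mv t rfl (by omega) rfl rfl)
    · obtain ⟨rfl, rfl, h⟩ := h
      exact fun t => NHT.rm1i hf H.T (p := 1) (j := 3) (by omega) (by omega) (by omega) (by omega) (by omega) (by omega) (mv t rfl (by omega) rfl rfl)
    · obtain ⟨rfl, rfl, h⟩ := h
      exact fun t => NHT.rm1i hf H.T (p := 0) (j := 2) (by omega) (by omega) (by omega) (by omega) (by omega) (by omega) (mv t rfl (by omega) rfl rfl)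
    · obtain ⟨rfl, rfl, h⟩ := h
      exact fun t => NHT.rm1i hf H.T (p := 1) (j := 2) (by omega) (by omega) (by omega) (by omega) (by omega) (by omega) (mv t rfl (by omega) rfl rfl)
    · obtain ⟨rfl, rfl, h⟩ := h
      exact fun t => NHT.rm1i hf H.T (p := 0) (j := 1) (by omega) (by omega) (by omega) (by omega) (by omega) (by omega) (mv t rfl (by omega) rfl rfl)
    · obtain ⟨rfl, rfl, h⟩ := h
      exact fun t => NHT.rm1i hf H.T (p := 1) (j := 1) (by omega) (by omega) (by omega) (by omega) (by omega) (by omega) (mv t rfl (by omega) rfl rfl)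
    · obtain ⟨rfl, rfl, h⟩ := h
      exact fun t => NHT.rm1i hf H.T (p := 1) (j := 0) (by omega) (by omega) (by omega) (by omega) (by omega) (by omega) (mv t rfl (by omega) rfl rfl)
    · obtain ⟨rfl, rfl, rfl, h⟩ := h
      exact fun t => f2 _ (by omega) (by omega) (by omega) (mv t (by omega) (by omega) (by omega) rfl)
    · obtain ⟨rfl, rfl, rfl, h⟩ := h
      exact fun t => f6 _ (by omega) (by omega) (by omega) (mv t (by omega) (by omega) (by omega) rfl)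
    · obtain ⟨rfl, rfl, rfl, h⟩ := h
      exact fun t => t1 _ (by omega) (by omega) (by omega) (mv t (by omega) (by omega) (by omega) rfl)
    · obtain ⟨rfl, rfl, rfl, h⟩ := h
      exact fun t => t2 _ (by omega) (by omega) (by omega) (mv t (by omega) (by omega) (by omega) rfl)
    · obtain ⟨rfl, rfl, rfl, rfl⟩ := h
      exact fun t => t5' (mv t (by omega) (by omega) (by omega) (by omega))
    · obtain ⟨rfl, rfl, rfl, rfl⟩ := h
      exact fun t => t7' (mv t (by omega) (by omega) (by omega) (by omega))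

theorem t11a_chk : check 11 7 19 19 0 1 1 1 2
    (fun j n p q => decide ((j = 2 ∧ n = 1 ∧ 5 ≤ q ∧ q ≤ p ∧ p ≤ q + 16 ∧ ((p + q) % 2 = 1 ∧ p % 2 = 1))
      ∨ (j = 2 ∧ n = 2 ∧ 7 ≤ q ∧ q ≤ p ∧ p ≤ q + 16 ∧ (p = q ∧ p % 2 = 0))
      ∨ (j = 10 ∧ n = 3 ∧ 14 ≤ p ∧ q ≤ p ∧ p ≤ q + 16 ∧ ((p + q) % 2 = 1 ∧ p % 2 = 0))
      ∨ (j = 6 ∧ n = 3 ∧ p = 12 ∧ (q + 1) % 2 = 0 ∧ 7 ≤ q ∧ q ≤ 7)
      ∨ (j = 4 ∧ n = 5 ∧ p = 16 ∧ q = 3)
      ∨ (j = 10 ∧ n = 5 ∧ p = 16 ∧ q = 5)))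
    (fun j n p q => decide ((j = 2 ∧ n = 2 ∧ 7 ≤ q ∧ q ≤ p ∧ p ≤ q + 16 ∧ ¬ (p = q ∧ p % 2 = 0))
      ∨ (j = 10 ∧ n = 4 ∧ 13 ≤ p ∧ q ≤ p ∧ p ≤ q + 16 ∧ ¬ (p = q ∧ p % 2 = 1))
      ∨ (j = 1 ∧ n = 4 ∧ q ≤ p ∧ p ≤ q + 16)
      ∨ (j = 1 ∧ n = 3 ∧ q ≤ p ∧ p ≤ q + 16)
      ∨ (j = 1 ∧ n = 2 ∧ q ≤ p ∧ p ≤ q + 16)
      ∨ (j = 1 ∧ n = 5 ∧ q ≤ p ∧ p ≤ q + 16)
      ∨ (j = 3 ∧ n = 5 ∧ 17 ≤ p ∧ q + 5 ≤ p ∧ p ≤ q + 12)
      ∨ (j = 5 ∧ n = 5 ∧ 17 ≤ p ∧ q + 4 ≤ p ∧ p ≤ q + 13)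
      ∨ (j = 7 ∧ n = 5 ∧ 17 ≤ p ∧ q + 3 ≤ p ∧ p ≤ q + 14)
      ∨ (j = 9 ∧ n = 5 ∧ 17 ≤ p ∧ q + 2 ≤ p ∧ p ≤ q + 15)
      ∨ (j = 11 ∧ n = 5 ∧ 17 ≤ p ∧ q + 1 ≤ p ∧ p ≤ q + 16)
      ∨ (j = 2 ∧ n = 2 ∧ 8 ≤ p ∧ q + 4 ≤ p ∧ p ≤ q + 13)
      ∨ (j = 2 ∧ n = 4 ∧ 10 ≤ q ∧ q + 4 ≤ p ∧ p ≤ q + 13)
      ∨ (j = 3 ∧ n = 4 ∧ 10 ≤ q ∧ q + 4 ≤ p ∧ p ≤ q + 13)
      ∨ (j = 2 ∧ n = 4 ∧ 12 ≤ p ∧ q + 5 ≤ p ∧ p ≤ q + 12)
      ∨ (j = 3 ∧ n = 4 ∧ 12 ≤ p ∧ q + 5 ≤ p ∧ p ≤ q + 12)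
      ∨ (j = 4 ∧ n = 4 ∧ 12 ≤ p ∧ q + 4 ≤ p ∧ p ≤ q + 13)
      ∨ (j = 5 ∧ n = 4 ∧ 12 ≤ p ∧ q + 4 ≤ p ∧ p ≤ q + 13)
      ∨ (j = 6 ∧ n = 4 ∧ 12 ≤ p ∧ q + 3 ≤ p ∧ p ≤ q + 14)
      ∨ (j = 7 ∧ n = 4 ∧ 12 ≤ p ∧ q + 3 ≤ p ∧ p ≤ q + 14)
      ∨ (j = 8 ∧ n = 4 ∧ 12 ≤ p ∧ q + 2 ≤ p ∧ p ≤ q + 15)
      ∨ (j = 9 ∧ n = 4 ∧ 12 ≤ p ∧ q + 2 ≤ p ∧ p ≤ q + 15)
      ∨ (j = 11 ∧ n = 4 ∧ 12 ≤ p ∧ q + 1 ≤ p ∧ p ≤ q + 16)
      ∨ (j = 4 ∧ n = 5 ∧ p = 17 ∧ (q + 1) % 2 = 1 ∧ 6 ≤ q ∧ q ≤ 10)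
      ∨ (j = 8 ∧ n = 5 ∧ p = 17 ∧ (q + 1) % 2 = 1 ∧ 6 ≤ q ∧ q ≤ 8)
      ∨ (j = 6 ∧ n = 5 ∧ p = 16 ∧ (q + 1) % 2 = 0 ∧ 5 ≤ q ∧ q ≤ 9)
      ∨ (j = 6 ∧ n = 5 ∧ p = 14 ∧ (q + 1) % 2 = 0 ∧ 5 ≤ q ∧ q ≤ 9)
      ∨ (j = 10 ∧ n = 5 ∧ p = 16 ∧ q = 9)
      ∨ (j = 10 ∧ n = 5 ∧ p = 16 ∧ q = 7)))
    822
    0x26b8031cce801cd81217df8017e00a2b9e03308d80357d422b8b002b951a21b50326a50026a50421b50326a5002b9e52308d80357d42357400357e1a2b8b802b8b842b9f003098522b8b853085002b9512357e52308400357d522b9d802b9e0a2b9e802b9e84357d03357d80357d8421b50326a48026a48421b50326a4802b944230838030838421ac83269c00269c0421b60326a5802b9f5a308e80308e8417cd031cc6001cc6042b94033083802b9d80357d5a30975a308e00308e0421ab83269b00269b0417cd031cc60021b64a26a60026a60417c2031cb18021ab5a269a80269a8421c00317cd801cc60017d7121cc60117c30017c30417d70312d40012d4041cc50317c20017c20417d7031cc7001cc60021c05221bfda26af8026af8417e90312e58017d54212d20012d20417d7031cc7001c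c60021c05221bfda26af0026af0421ac031cb2001cb20421ac03269b80269b8417cc8512d30017d61217cc521cbb801cbb8417d60312d30017c34a1cb2801cb28417e90312e58017d5421cbb001cbb0417e10017e10117e00017e00417e1031cd08021c04217cd8017d7121cc60021bf5226ae8026ae8417cd8512d40017d71217cd521cbc801cbc8417e1031cd08021c04217cd8017d7121cc60021bf5226ae8026b8121cce8021be4226ad802ba75a308d00308d0417e1031cd08021c04217cd8017d7121cc60021bf5226ae0026ae0417d6031cc5801cc58417d7031cbd001cbd0417d70312d40017c44a1cb40021ad521cb3001cb30417ce031cbd801cbd8417d6031cbc001cbc0412e58517df0017d5421cd8521cc4801cc48417cc851cc60017d61221bf521cc5001cc5040ded8312dd0012dd040de40312d38012d38417d70312d40017c44a1cb3801cb3840dda8312ca0012ca040dda0312c98012c9840ddb8312cb0012cb040e018312f10012f10417ea0312e70012e70417d80312208012208417ea0312e70017d74a1cc6801cc6840ded0312dc8012dc840df80312e78012e78417e90312e60012e6040c68030d1c800d1c840ddb0312ca8012ca841cda0317d70017d70417d803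12d50012d5041cd80317d50017d5041cdb0317d80017d8040dd90312c88012c8840def0312de8012de840e018312f10017ea521cd0001cd0040c72831216801216840c67030d1b800d1b841cd90317d60017d6040dee8312de0012de0417ea0312e70017e0521ccf801ccf840e020312f18012f1841cd8031ccf001ccf040c73030d31000d31042ba70326a40026a4043098032b95002b95040dee0312dd8012dd840c72830d27000d27040c5f830d1d800d1d840de50312d48012d4843097032b94002b94040e010312f08012f0840c5f830c69000c69040df90312e88012e8840de30312d28012d2840dec8312dc0012dc040dd98312c90012c9040dec0312db8012db840e008312f00012f0040df70312e68012e68417eb0312e80012e8043a6c803a7612357c0034150034140034130034010020300017de000b98000aff000aed000aec003a760739c107358687357e07357d07357c0f35748735738734d20734d18734c90734c88734c80734c00734bf0734be8734150f34140f34130f34010f3098073097873097073096872fe3872fe3072fe2872fe2072fda072fd9872fd9072fd8872fd0872fd0072fcf872fcf072ba8872ba8072ba7872ba7072ba6872b95872b94872b93872af4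072af3872af3072af2872af2072aea872aea072ae9872ae9072ae8872ae1072ae0872ae0072adf872adf072ad7072ad6872ad6072ad58726b80726b78726b70726038726030726028725fb0725fa8725fa0725f98725f90725f18725f10725f08725f00725ef8725e78725e70725e68725e60721c88721c00721bf0721be0721b68721b58721b48721ad0721ac0721ab0721a38721a28721a187211407211387210b87210b07210a87210a0721098721090721020721018721010721008721000720ff8720f88720f80720f78720f70720f68720f60720ef0720ee0720ed8720ed0720ec8720300f1cdb071cda871cda071cd9871cd9071cd8871cd8071cd7871c26871c26071c25871c25071c24871c24071c23871c23071c1d071c1c871c1c071c1b871c1b071c1a871c1a071c19871c12871c12071c11871c11071c10871c10071c09071c08871c08071c07871c07071c06871bff871bff071bfe871bfe071bfd871bfd0717eb8717eb0717ea8717ea0717e98717e90717e88717de0f17d78717d68717d58717d48717c48717c38717c28717c187173707173687173607173587173507173487173407173387172d87172d07172c87172c07172b87172b07172a87172a0717238717230717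2287172207172187172107172087172007171a07171987171907171887171807171787171707171687171007170f87170f07170e87170e07170d87170d0717060717058717050717048717040717038712fb8712fb0712fa8712fa0712f98712f907124707124687124607124587124507124487123d87123d07123c87123c07123b87123b07123407123387123307123287123207123187123107123087122a87122a07122987122907122887122807122787122707122007121f87121f07121e87121e07121d871216071215871215071214871214070df8870df7870df6870de5870de4870de3870de2870dd1870dd0870dcf870d4d870d4d070d4c870d4c070d4b870d44870d44070d43870d43070d42870d42070d3b070d3a870d3a070d39870d39070d38870d38070d37870d37070d30870d30070d2f870d2f070d2e870d2e070d2d870d26870d26070d25870d25070d24870d24070c69870c68870c67870c66870c55870bbe870bbe070bb5070bb4870bb4070bb3870bb3070bb2870bb2070bab070baa870ba9870ba9070ba8870b980f0aff0f0aed0f0aec0f09128709120709118709110709108709098709090709088709080709078709070709000708ff8708ff0708fe8708fe07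08fd8708fd0708fc8708fc0708f60708f58708f50708f48708f40708f38708f30708f28708ec0708eb8708eb0708ea8708ea0708e98708e90708e28708e20708e18708e10708e08708e00708df87085e07085d87085d07085c87085c07085507085487085407085387085307085287084b87084b07084a87084a07084987084907084887084807084787084187084107084087084007083f87083f07083e87083e07083787083707083687083607083587083507083487082e07082d87082d07082c87082c07082b87082b07078387078307078287077a07077987077907077887077807077787077707077007076f87076f07076e87076e07076d8707668707660706cf0706ce8706ce0706c58706c50706c48706c40706c38706c30706c28706bb8706bb0706ba8706ba0706b98706b90706b20706b187 = true := by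
  decide +kernel

theorem t11a (hf : Rule f) {k c n M : ℕ} (H : PL f k c n M) (hM4 : M + 4 = n) (hk' : 9 ≤ k)
    (x3 : ∀ y : ℕ, y % 2 = 0 → 2 * n + 2 ≤ y + 2 * k → y + 6 ≤ 2 * n → f (6 * k + 4) (c - 2) (2 * n - 3) y)
    (t1 : ∀ y : ℕ, y % 2 = 0 → 2 * n + 8 ≤ y + 2 * k → y + 4 ≤ 2 * n → ¬ f (6 * k + 4) c (2 * n + 1) y)
    (t2 : ∀ y : ℕ, y % 2 = 0 → 2 * n + 6 ≤ y + 2 * k → y + 6 ≤ 2 * n → ¬ f (6 * k + 4) c (2 * n - 1) y)
    (f2 : ∀ y : ℕ, y % 2 = 1 → 2 * n + 9 ≤ y + 2 * k → y + 2 ≤ 2 * n → ¬ f (6 * k + 2) c (2 * n + 2) y)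
    (f6 : ∀ y : ℕ, y % 2 = 1 → 2 * n + 7 ≤ y + 2 * k → y ≤ 2 * n + 1 → ¬ f (6 * k + 6) c (2 * n + 2) y)
    (t5' : ¬ f (6 * k + 8) c (2 * n + 1) (2 * n - 4)) (t7' : ¬ f (6 * k + 8) c (2 * n + 1) (2 * n - 6)) (t9' : ¬ f (6 * k + 8) c (2 * n + 1) (2 * n - 8)) (q : f (6 * k + 2) c (2 * n + 1) (2 * n - 12)) :
    ¬ f (6 * k + 8) c (2 * n + 1) (2 * n - 10) := by
  intro h0
  have hk := H.T.hk
  have hc := H.T.hc
  have h4' := H.T.h4
  have hb := H.T.hb
  have hN := H.T.hN2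
  obtain ⟨a0, ha0⟩ : ∃ z, z + 2 = 6 * k := ⟨6 * k - (2), by omega⟩
  obtain ⟨b0, hb0⟩ : ∃ z, z + 5 = c := ⟨c - (5), by omega⟩
  obtain ⟨x0, hx0⟩ : ∃ z, z + 15 = 2 * n := ⟨2 * n - (15), by omega⟩
  refine check_sound hf (a0 := a0) (b0 := b0) (x0 := x0) (y0 := x0) t11a_chk
    ⟨fun _ => rfl, fun h => absurd h (by decide), fun h => absurd h (by decide), by omega, by omega,
      by omega, by omega⟩ ?_ ?_
  · intro j m p q hr h
    obtain ⟨-, -, -, -, hp1, hp2, hq1, hq2⟩ := hr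
    replace h := of_decide_eq_true h
    rcases h with h | h | h | h | h | h
    · obtain ⟨rfl, rfl, h⟩ := h
      exact (WrapC.v2 H.c0 (by omega) (by omega) (by omega) (by omega) (by omega) (by omega) (by omega)).mpr (by omega)
    · obtain ⟨rfl, rfl, h⟩ := h
      exact (WrapC.v3 H.c0 (by omega) (by omega) (by omega) (by omega) (by omega) (by omega) (by omega) (by omega)).mpr (by omega)
    · obtain ⟨rfl, rfl, h⟩ := h
      exact (NW.w0v H.c8 (by omega) (by omega) (by omega) (by omega) (by omega) (by omega) (by omega)).mpr (by omega)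
    · obtain ⟨rfl, rfl, rfl, h⟩ := h
      exact mv (x3 (x0 + q) (by omega) (by omega) (by omega)) (by omega) (by omega) (by omega) rfl
    · obtain ⟨rfl, rfl, rfl, rfl⟩ := h
      exact mv q (by omega) (by omega) (by omega) (by omega)
    · obtain ⟨rfl, rfl, rfl, rfl⟩ := h
      exact mv h0 (by omega) (by omega) (by omega) (by omega)
  · intro j m p q hr h
    obtain ⟨-, -, -, -, hp1, hp2, hq1, hq2⟩ := hr
    replace h := of_decide_eq_true h
    rcases h with h | h | h | h | h | h | h | h | h | h | h | h | h | h | h | h | h | h | h | h | h | h | h | h | h | h | h | h | h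
    · obtain ⟨rfl, rfl, h⟩ := h
      exact mt (WrapC.v3 H.c0 (by omega) (by omega) (by omega) (by omega) (by omega) (by omega) (by omega) (by omega)).mp (by omega)
    · obtain ⟨rfl, rfl, h⟩ := h
      exact mt (NW.w1v H.c8 (by omega) (by omega) (by omega) (by omega) (by omega) (by omega) (by omega) (by omega)).mp (by omega)
    · obtain ⟨rfl, rfl, h⟩ := h
      exact H.lw _ _ _ _ (by omega) (by omega) (by omega) (by omega) (by omega) (by omega)
    · obtain ⟨rfl, rfl, h⟩ := h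
      exact H.lw _ _ _ _ (by omega) (by omega) (by omega) (by omega) (by omega) (by omega)
    · obtain ⟨rfl, rfl, h⟩ := h
      exact H.lw _ _ _ _ (by omega) (by omega) (by omega) (by omega) (by omega) (by omega)
    · obtain ⟨rfl, rfl, h⟩ := h
      exact H.lw _ _ _ _ (by omega) (by omega) (by omega) (by omega) (by omega) (by omega)
    · obtain ⟨rfl, rfl, h⟩ := h
      exact NHT.p0i hf H.T (j := 4) (by omega) (by omega) (by omega) (by omega) (by omega) (by omega)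
    · obtain ⟨rfl, rfl, h⟩ := h
      exact NHT.p0i hf H.T (j := 3) (by omega) (by omega) (by omega) (by omega) (by omega) (by omega)
    · obtain ⟨rfl, rfl, h⟩ := h
      exact NHT.p0i hf H.T (j := 2) (by omega) (by omega) (by omega) (by omega) (by omega) (by omega)
    · obtain ⟨rfl, rfl, h⟩ := h
      exact NHT.p0i hf H.T (j := 1) (by omega) (by omega) (by omega) (by omega) (by omega) (by omega)
    · obtain ⟨rfl, rfl, h⟩ := h
      exact NHT.p0i hf H.T (j := 0) (by omega) (by omega) (by omega) (by omega) (by omega) (by omega)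
    · obtain ⟨rfl, rfl, h⟩ := h
      exact NHT.rIn hf H.T (t := 3) (p := 0) (j := 3) (by omega) (by omega) (by omega) (by omega) (by omega) (by omega) (by omega) (by omega)
    · obtain ⟨rfl, rfl, h⟩ := h
      exact fun t => NHT.rm1 hf H.T (p := 0) (j := 3) (by omega) (by omega) (by omega) (by omega) (by omega) (by omega) (mv t rfl (by omega) rfl rfl)
    · obtain ⟨rfl, rfl, h⟩ := h
      exact fun t => NHT.rm1 hf H.T (p := 1) (j := 3) (by omega) (by omega) (by omega) (by omega) (by omega) (by omega) (mv t rfl (by omega) rfl rfl)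
    · obtain ⟨rfl, rfl, h⟩ := h
      exact fun t => NHT.rm1i hf H.T (p := 0) (j := 4) (by omega) (by omega) (by omega) (by omega) (by omega) (by omega) (mv t rfl (by omega) rfl rfl)
    · obtain ⟨rfl, rfl, h⟩ := h
      exact fun t => NHT.rm1i hf H.T (p := 1) (j := 4) (by omega) (by omega) (by omega) (by omega) (by omega) (by omega) (mv t rfl (by omega) rfl rfl)
    · obtain ⟨rfl, rfl, h⟩ := h
      exact fun t => NHT.rm1i hf H.T (p := 0) (j := 3) (by omega) (by omega) (by omega) (by omega) (by omega) (by omega) (mv t rfl (by omega) rfl rfl)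
    · obtain ⟨rfl, rfl, h⟩ := h
      exact fun t => NHT.rm1i hf H.T (p := 1) (j := 3) (by omega) (by omega) (by omega) (by omega) (by omega) (by omega) (mv t rfl (by omega) rfl rfl)
    · obtain ⟨rfl, rfl, h⟩ := h
      exact fun t => NHT.rm1i hf H.T (p := 0) (j := 2) (by omega) (by omega) (by omega) (by omega) (by omega) (by omega) (mv t rfl (by omega) rfl rfl)
    · obtain ⟨rfl, rfl, h⟩ := h
      exact fun t => NHT.rm1i hf H.T (p := 1) (j := 2) (by omega) (by omega) (by omega) (by omega) (by omega) (by omega) (mv t rfl (by omega) rfl rfl)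
    · obtain ⟨rfl, rfl, h⟩ := h
      exact fun t => NHT.rm1i hf H.T (p := 0) (j := 1) (by omega) (by omega) (by omega) (by omega) (by omega) (by omega) (mv t rfl (by omega) rfl rfl)
    · obtain ⟨rfl, rfl, h⟩ := h
      exact fun t => NHT.rm1i hf H.T (p := 1) (j := 1) (by omega) (by omega) (by omega) (by omega) (by omega) (by omega) (mv t rfl (by omega) rfl rfl)
    · obtain ⟨rfl, rfl, h⟩ := h
      exact fun t => NHT.rm1i hf H.T (p := 1) (j := 0) (by omega) (by omega) (by omega) (by omega) (by omega) (by omega) (mv t rfl (by omega) rfl rfl)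
    · obtain ⟨rfl, rfl, rfl, h⟩ := h
      exact fun t => f2 _ (by omega) (by omega) (by omega) (mv t (by omega) (by omega) (by omega) rfl)
    · obtain ⟨rfl, rfl, rfl, h⟩ := h
      exact fun t => f6 _ (by omega) (by omega) (by omega) (mv t (by omega) (by omega) (by omega) rfl)
    · obtain ⟨rfl, rfl, rfl, h⟩ := h
      exact fun t => t1 _ (by omega) (by omega) (by omega) (mv t (by omega) (by omega) (by omega) rfl)
    · obtain ⟨rfl, rfl, rfl, h⟩ := h
      exact fun t => t2 _ (by omega) (by omega) (by omega) (mv t (by omega) (by omega) (by omega) rfl)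
    · obtain ⟨rfl, rfl, rfl, rfl⟩ := h
      exact fun t => t7' (mv t (by omega) (by omega) (by omega) (by omega))
    · obtain ⟨rfl, rfl, rfl, rfl⟩ := h
      exact fun t => t9' (mv t (by omega) (by omega) (by omega) (by omega))

theorem t11b_chk : check 11 9 27 27 0 1 1 1 2
    (fun j n p q => decide ((j = 2 ∧ n = 1 ∧ 6 ≤ p ∧ q ≤ p ∧ p ≤ q + 16 ∧ ((p + q) % 2 = 1 ∧ p % 2 = 0))
      ∨ (j = 2 ∧ n = 3 ∧ 7 ≤ q ∧ q ≤ p ∧ p ≤ q + 16 ∧ ((p + q) % 2 = 1 ∧ p % 2 = 1))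
      ∨ (j = 2 ∧ n = 4 ∧ 9 ≤ q ∧ q ≤ p ∧ p ≤ q + 16 ∧ (p = q ∧ p % 2 = 0))
      ∨ (j = 4 ∧ n = 3 ∧ 12 ≤ p ∧ q ≤ p ∧ p ≤ q + 16 ∧ ((p + q) % 2 = 1 ∧ p % 2 = 0))
      ∨ (j = 4 ∧ n = 5 ∧ 13 ≤ q ∧ q ≤ p ∧ p ≤ q + 16 ∧ ((p + q) % 2 = 1 ∧ p % 2 = 1))
      ∨ (j = 6 ∧ n = 5 ∧ 22 ≤ p ∧ q ≤ p ∧ p ≤ q + 16 ∧ ((p + q) % 2 = 1 ∧ p % 2 = 0))
      ∨ (j = 6 ∧ n = 3 ∧ 7 ≤ q ∧ q ≤ p ∧ p ≤ q + 16 ∧ ((p + q) % 2 = 1 ∧ p % 2 = 1))
      ∨ (j = 8 ∧ n = 5 ∧ 11 ≤ q ∧ q ≤ p ∧ p ≤ q + 16 ∧ ((p + q) % 2 = 1 ∧ p % 2 = 1))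
      ∨ (j = 10 ∧ n = 5 ∧ 16 ≤ p ∧ q ≤ p ∧ p ≤ q + 16 ∧ ((p + q) % 2 = 1 ∧ p % 2 = 0))
      ∨ (j = 6 ∧ n = 5 ∧ p = 14 ∧ (q + 1) % 2 = 0 ∧ 7 ≤ q ∧ q ≤ 11)
      ∨ (j = 4 ∧ n = 7 ∧ p = 20 ∧ q = 7)
      ∨ (j = 10 ∧ n = 7 ∧ p = 18 ∧ q = 7)))
    (fun j n p q => decide ((j = 2 ∧ n = 2 ∧ 7 ≤ p ∧ q ≤ p ∧ p ≤ q + 16 ∧ ¬ (p = q ∧ p % 2 = 1))
      ∨ (j = 2 ∧ n = 3 ∧ 7 ≤ q ∧ q ≤ p ∧ p ≤ q + 16 ∧ ¬ ((p + q) % 2 = 1 ∧ p % 2 = 1))
      ∨ (j = 2 ∧ n = 4 ∧ 9 ≤ q ∧ q ≤ p ∧ p ≤ q + 16 ∧ ¬ (p = q ∧ p % 2 = 0))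
      ∨ (j = 4 ∧ n = 3 ∧ 12 ≤ p ∧ q ≤ p ∧ p ≤ q + 16 ∧ ¬ ((p + q) % 2 = 1 ∧ p % 2 = 0))
      ∨ (j = 4 ∧ n = 4 ∧ 13 ≤ p ∧ q ≤ p ∧ p ≤ q + 16 ∧ ¬ (p = q ∧ p % 2 = 1))
      ∨ (j = 4 ∧ n = 5 ∧ 13 ≤ q ∧ q ≤ p ∧ p ≤ q + 16 ∧ ¬ ((p + q) % 2 = 1 ∧ p % 2 = 1))
      ∨ (j = 6 ∧ n = 5 ∧ 22 ≤ p ∧ q ≤ p ∧ p ≤ q + 16 ∧ ¬ ((p + q) % 2 = 1 ∧ p % 2 = 0))
      ∨ (j = 6 ∧ n = 3 ∧ 7 ≤ q ∧ q ≤ p ∧ p ≤ q + 16 ∧ ¬ ((p + q) % 2 = 1 ∧ p % 2 = 1))
      ∨ (j = 10 ∧ n = 6 ∧ 15 ≤ p ∧ q ≤ p ∧ p ≤ q + 16 ∧ ¬ (p = q ∧ p % 2 = 1))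
      ∨ (j = 1 ∧ n = 6 ∧ q ≤ p ∧ p ≤ q + 16)
      ∨ (j = 1 ∧ n = 5 ∧ q ≤ p ∧ p ≤ q + 16)
      ∨ (j = 1 ∧ n = 4 ∧ q ≤ p ∧ p ≤ q + 16)
      ∨ (j = 1 ∧ n = 3 ∧ q ≤ p ∧ p ≤ q + 16)
      ∨ (j = 1 ∧ n = 2 ∧ q ≤ p ∧ p ≤ q + 16)
      ∨ (j = 1 ∧ n = 7 ∧ q ≤ p ∧ p ≤ q + 16)
      ∨ (j = 3 ∧ n = 7 ∧ 19 ≤ p ∧ q + 5 ≤ p ∧ p ≤ q + 12)
      ∨ (j = 5 ∧ n = 7 ∧ 19 ≤ p ∧ q + 4 ≤ p ∧ p ≤ q + 13)
      ∨ (j = 7 ∧ n = 7 ∧ 19 ≤ p ∧ q + 3 ≤ p ∧ p ≤ q + 14)
      ∨ (j = 11 ∧ n = 7 ∧ 19 ≤ p ∧ q + 1 ≤ p ∧ p ≤ q + 16)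
      ∨ (j = 3 ∧ n = 3 ∧ 9 ≤ p ∧ q + 3 ≤ p ∧ p ≤ q + 14)
      ∨ (j = 5 ∧ n = 3 ∧ 9 ≤ p ∧ q + 2 ≤ p ∧ p ≤ q + 15)
      ∨ (j = 5 ∧ n = 3 ∧ 7 ≤ q ∧ q + 1 ≤ p ∧ p ≤ q + 16)
      ∨ (j = 3 ∧ n = 5 ∧ 13 ≤ p ∧ q + 4 ≤ p ∧ p ≤ q + 13)
      ∨ (j = 5 ∧ n = 5 ∧ 13 ≤ p ∧ q + 3 ≤ p ∧ p ≤ q + 14)
      ∨ (j = 7 ∧ n = 5 ∧ 13 ≤ p ∧ q + 2 ≤ p ∧ p ≤ q + 15)
      ∨ (j = 2 ∧ n = 4 ∧ 10 ≤ p ∧ q + 4 ≤ p ∧ p ≤ q + 13)
      ∨ (j = 3 ∧ n = 4 ∧ 10 ≤ p ∧ q + 4 ≤ p ∧ p ≤ q + 13)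
      ∨ (j = 3 ∧ n = 2 ∧ 6 ≤ p ∧ q + 3 ≤ p ∧ p ≤ q + 14)
      ∨ (j = 4 ∧ n = 2 ∧ 6 ≤ p ∧ q + 2 ≤ p ∧ p ≤ q + 15)
      ∨ (j = 5 ∧ n = 4 ∧ 10 ≤ p ∧ q + 3 ≤ p ∧ p ≤ q + 14)
      ∨ (j = 5 ∧ n = 2 ∧ 6 ≤ p ∧ q + 2 ≤ p ∧ p ≤ q + 15)
      ∨ (j = 2 ∧ n = 4 ∧ 8 ≤ q ∧ q + 3 ≤ p ∧ p ≤ q + 14)
      ∨ (j = 3 ∧ n = 4 ∧ 8 ≤ q ∧ q + 3 ≤ p ∧ p ≤ q + 14)
      ∨ (j = 3 ∧ n = 2 ∧ 4 ≤ q ∧ q + 2 ≤ p ∧ p ≤ q + 15)
      ∨ (j = 5 ∧ n = 4 ∧ 8 ≤ q ∧ q + 2 ≤ p ∧ p ≤ q + 15)
      ∨ (j = 6 ∧ n = 4 ∧ 8 ≤ q ∧ q + 1 ≤ p ∧ p ≤ q + 16)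
      ∨ (j = 7 ∧ n = 4 ∧ 8 ≤ q ∧ q + 1 ≤ p ∧ p ≤ q + 16)
      ∨ (j = 2 ∧ n = 6 ∧ 12 ≤ q ∧ q + 4 ≤ p ∧ p ≤ q + 13)
      ∨ (j = 3 ∧ n = 6 ∧ 12 ≤ q ∧ q + 4 ≤ p ∧ p ≤ q + 13)
      ∨ (j = 2 ∧ n = 6 ∧ 14 ≤ p ∧ q + 5 ≤ p ∧ p ≤ q + 12)
      ∨ (j = 3 ∧ n = 6 ∧ 14 ≤ p ∧ q + 5 ≤ p ∧ p ≤ q + 12)
      ∨ (j = 4 ∧ n = 6 ∧ 14 ≤ p ∧ q + 4 ≤ p ∧ p ≤ q + 13)
      ∨ (j = 5 ∧ n = 6 ∧ 14 ≤ p ∧ q + 4 ≤ p ∧ p ≤ q + 13)
      ∨ (j = 6 ∧ n = 6 ∧ 14 ≤ p ∧ q + 3 ≤ p ∧ p ≤ q + 14)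
      ∨ (j = 7 ∧ n = 6 ∧ 14 ≤ p ∧ q + 3 ≤ p ∧ p ≤ q + 14)
      ∨ (j = 8 ∧ n = 6 ∧ 14 ≤ p ∧ q + 2 ≤ p ∧ p ≤ q + 15)
      ∨ (j = 9 ∧ n = 6 ∧ 14 ≤ p ∧ q + 2 ≤ p ∧ p ≤ q + 15)
      ∨ (j = 11 ∧ n = 6 ∧ 14 ≤ p ∧ q + 1 ≤ p ∧ p ≤ q + 16)
      ∨ (j = 4 ∧ n = 7 ∧ p = 19 ∧ (q + 1) % 2 = 1 ∧ 8 ≤ q ∧ q ≤ 12)
      ∨ (j = 8 ∧ n = 7 ∧ p = 19 ∧ (q + 1) % 2 = 1 ∧ 8 ≤ q ∧ q ≤ 12)
      ∨ (j = 6 ∧ n = 7 ∧ p = 18 ∧ (q + 1) % 2 = 0 ∧ 7 ≤ q ∧ q ≤ 11)
      ∨ (j = 6 ∧ n = 7 ∧ p = 16 ∧ (q + 1) % 2 = 0 ∧ 7 ≤ q ∧ q ≤ 11)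
      ∨ (j = 10 ∧ n = 7 ∧ p = 18 ∧ q = 11)
      ∨ (j = 10 ∧ n = 7 ∧ p = 18 ∧ q = 9)))
    1198
    0x8b14037157807165128b15037e36008b14527157007157047166037e37007e37047166037e36807e368457c50364958064958457c50364958071745a7e44807e44847180037e43007e43047180037e43008b144a71570071651a71580071580457c40364948064948457b70364878064878457d28364a30064a30457d10364a18064a18457b70364870064870464b0034b00804b008457c40364948071735a7e43807e438457d28364a38064a38457d28364a3007181527e44007e440457b7034ad80057b65264868064868457d2034af3004af3043e22034af2804af28457d20364a20064a2043e16034af4004af40457b7836488006488043e23034ae6004ae6043e16034af40057d25264a28064a2843e2f834b00004b00043e08034ad8804ad8843e22034ae5004ae5043e15034ae5804ae5843e23033137003137043e24034af4804af4843e32034b028057d3423e16804af4003e24124af4013e08003e08043e09034ada0057b8524ad9004ad9043e16034ae6804ae6843e24033138003138043e24034ae7004ae7043e07034ad7804ad7843e2203313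6003136043e25033139003e17524ae7804ae784248e03316c003e3d4a3151003151043e23034af3804af3842475033145803145842467033137803137843b71032e92003b634a3cd0003cd0042475833146003146042483033153803153844b11033e25003e25042474833145003145044b0f033e23003e23042490833161003161044842832e93003b71522d25802d25841ee9032d26002d26042483033153803e24423138003e094a4ad9804ad98421b5032321802321844842832d26802d2684232f032fff802fff842181832fbe802fbe84718103649500649504246803313880313884245983312a00312a042166832174002174043e3f0331530031530422fc032fcc802fcc843e40033154003154043e3e033152003152044b0e033e22003e22043e3e034b01004b01042bac032d18802d18842bab8320478021b4aa232100232104247403314480314484245a03312a80312a842490833161003e3f524b02004b02043e3f033153003e31524b01804b01844835033b56004834523b55003b5504248f03315f80315f84248e03315e80315e8421730322df8022df842482033152803152848b14037165007165042bc7832d33802d33842bac032048002048042bc7832d34002d34042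476033146803146844850032ea0802ea084245a83312b00312b0421b4832e85002e850424730331438031438424810331518031518424910331618031618421b4032e84802e84844850033b71003b7104216683217400218192218f00218f04218c05219a002e6a522e78522313802313843cd4033b590049a3f23b580049a2f23b57003b57044b10033e24003e24042bd6031ef7001ef7042458833129003129042473833144003144042e440321580021650021661a21731a22e00022e0047180036494006494042bac0320480021b52a2ff2002ff2047182036496006496042bab832d18002d18042b9e03203a00203a044853033b740049bef23b73004851523b72003b7204245803312880312884246603313680313684249003316080316084245903312980312984248e83315f00315f04248f83316000316004248403315480315484389b003a15321eec001efa1a552f001f08003e4d00620dda2be6da4b2b5252630038b70097e480387c003e4c0053ddba46f4ea97f2128b1300883c00883b008820006ea900554a00553200552e0054c40054c30054c200527f00524900524800454d4a4b2a523e4b003b680038b50038b400389c00389a00389900389800387d001fdf001f240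01f09001f07001eed001e9a001e80001e7f001c21001c1f001c1e001c05001c02001be60097f20797f1879685079678079677878b21878b15078b14078b130f8b07878b068789b50789b48789a707899b07899987883c0f883b0f88200f7cd8077cd7877cd7077cd6877cca877cca077cc9877cc907718207718187718107718087718007717f877166877165877164877015077014877014077013877013077008077007877007077006877006077005876ffa076ff9876ff9076ff8876ff8076fec076feb876feb076fea876ea90f64b18764b10764b08764b00764af8764af07634507634487634407634387634307634287633787633707633687633607633587633507632987632907632887632807632787631b87631b07631a87631a07620d87620d0762000761ff8760a10760930757df8757d30757d20757d10757c58757c48757c38757b80757b70757b60757aa8757a98757a887567307567287566687566607566587566507566487566407565907565887565807565787565707565687564b87564b07564a87564a07564987564907563b87554a0f553d07553c8755320f552f87552e0f54c40f54c30f54c20f53dd8753d08753cf87527f0f52708752638752490f52480f4b2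b074b2a874b2a074b29874b1d874b1d074b1c874b11074b10874b10074b0f874b0f074b0e874b0e074b0d8749be8749be0749bd8749bd0749b10749b08749b00749af8749a48749a40749a38749a30749a28749a20749a18749a107499707499687499607499587499507499487499407499387498887498807498787498707498687498607497b07497a87497a07497987497907497887496d87496d07496c87496c07496b87496b07485307485287485207485187485087484587484507484487484407484387484307484287484207483707483687483607483587483507483487483407482987482907482887482807482787482707482687482607470d0746f40746e68746e60746e48746e40746e38746d88746d70746d68746d60746d58746c88746c80746c78746bb0746b98745a007459307459287458807458787457a87457a07454d07454c87453f87453f0743e08743e00743d30743d2873e5a873e59873e4b0f3e40873e40073e3f873e3f073e3e873e3e073e3d873e3c873e24873e23873e22873e21873e09873e08873e07873e06873cee073ced873ced073cec873ce0873ce0073cdf873cdf073cd4073cd3873cd2873cd2073cd1873cd0873cc6873cc6073cc5873cc5073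cc4873cc4073cc3873cc3073cc2873cb8873cb8073cb7873cb7073cb6873cb6073cb5873cb5073cab073caa873caa073ca9873ca9073ca8873ca8073ca7873c9d073c9c873c9c073c9b873c9b073c9a873c9a073c8f073c8e873c8e073c8d873c8d073c8c873b82873b81873b80873b7f873b75073b680f3b67873b66873b65873b64873b63873b62873a24073a23873a16073a15073a14873a13873a12873a08873a08073a07873a07073a06873a05873a040739f80739f60739ea8739ea0739e98739e88738b78738b50f38b40f38a98738a88738a807389c0f389a0f38990f38980f387d0f386f07386e87371007370f87370287370207316f87316f07316e87316e07316d87316d073003873003073002873002073001873001073000872ff6072ff5872ff5072ff4872ff4072ff3872ff3072ff2872fe8072fe7872fe7072fe6872fe6072fe5872fe5072fe4872fda872fda072fd9872fd9072fd8872fd8072fd7872fd7072fcc072fcb872fcb072fca872fca072fc9872fbe072fbd872fbd072fbc872fbc072e96872e89072e78072e77872e6a872e6a072e69872e5c872e5c072e44072e43872d44872d44072d37072d0b872d0b072cfe072cfd872cfd072cf0072cef872cd7872cd70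72cca072be6872be6072bd8072bd7872bd6072bca872bc8872bac072b9e872b9e072b90872b90072a79872a6c872a69072a4d872a3f872a31872a24072a2387248387248287248187248087246887246787246687246587244c87244b87244a87232487232407232387232307232287232207231787231707231687231607231587231507231487231407230a0723098723090723088723080723078723070723068723060722fb8722fb0722fa8722fa0722f98722f90722f88722ed8722ed0722ec8722ec0722eb8722eb0721c28721a78721a687218f87218b87217387217287215887204887203b07203a87202d87202d07202c87201f87201f072015072014872007872006071ffa071ff9071ff8871fec071feb871fdf0f1f240f1f16071f15871f090f1f08871f070f1f05871efa071ef8071eed0f1eec871ee9871ee8871ecd871e9a0f1e800f1e7f0f1da9071d8d071d8b871d8b071d8a871d8a071d80071d7d071d7c071d6f071d6e071d61871d61071d60871d53871d53071c210f1c1f0f1c1e0f1c050f1c020f1be60f17c08717c00717bf8717bf0717be8717be0717bd8717bd0717b38717b30717b28717b20717b18717b10717b08717b00717af8717a60717a58717a50717a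48717a40717a38717a30717a28717a207179807179787179707179687179607179587179507179487178a07178987178907178887178807178787178707177c87177c07177b87177b07177a87177a07177987165e87165e07165407165387165307165287165207165187165107165087164707164687164607164587164507164487164407164387164307163987163907163887163807163787163707163687163607163587162b87162b07162a87162a07162987162907162887162807161e07161d87161d07161c87161c07161b87161b07161a87161007160f87160f07160e87160e07160d87160d0714f20714f18714e48714e40714e38714e30714d70714d68714d60714d58714bf0714be8714b18714b10714b08714a38714a30714a28714a207149607149587149507149487148887148807148787137807137787137707137687136a87136a07136987136907134487134407133707133687133607133587132987132907132887132807131c07131b87131b07122907121c07121b87121887121807120b07120a8710bd0710bc8710af0710ac0710ab87109e87109e07 = true := by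
  decide +kernel

theorem t11b (hf : Rule f) {k c n M : ℕ} (H : PL f k c n M) (hM4 : M + 4 = n) (hk' : 9 ≤ k)
    (x3 : ∀ y : ℕ, y % 2 = 0 → 2 * n + 2 ≤ y + 2 * k → y + 6 ≤ 2 * n → f (6 * k + 4) (c - 2) (2 * n - 3) y)
    (t1 : ∀ y : ℕ, y % 2 = 0 → 2 * n + 8 ≤ y + 2 * k → y + 4 ≤ 2 * n → ¬ f (6 * k + 4) c (2 * n + 1) y)
    (t2 : ∀ y : ℕ, y % 2 = 0 → 2 * n + 6 ≤ y + 2 * k → y + 6 ≤ 2 * n → ¬ f (6 * k + 4) c (2 * n - 1) y)
    (f2 : ∀ y : ℕ, y % 2 = 1 → 2 * n + 9 ≤ y + 2 * k → y + 2 ≤ 2 * n → ¬ f (6 * k + 2) c (2 * n + 2) y)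
    (f6 : ∀ y : ℕ, y % 2 = 1 → 2 * n + 7 ≤ y + 2 * k → y ≤ 2 * n + 1 → ¬ f (6 * k + 6) c (2 * n + 2) y)
    (t5' : ¬ f (6 * k + 8) c (2 * n + 1) (2 * n - 4)) (t7' : ¬ f (6 * k + 8) c (2 * n + 1) (2 * n - 6)) (t9' : ¬ f (6 * k + 8) c (2 * n + 1) (2 * n - 8)) (q : f (6 * k + 2) c (2 * n + 3) (2 * n - 10)) :
    ¬ f (6 * k + 8) c (2 * n + 1) (2 * n - 10) := by
  intro h0
  have hk := H.T.hk
  have hc := H.T.hc
  have h4' := H.T.h4
  have hb := H.T.hb
  have hN := H.T.hN2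
  obtain ⟨a0, ha0⟩ : ∃ z, z + 2 = 6 * k := ⟨6 * k - (2), by omega⟩
  obtain ⟨b0, hb0⟩ : ∃ z, z + 7 = c := ⟨c - (7), by omega⟩
  obtain ⟨x0, hx0⟩ : ∃ z, z + 17 = 2 * n := ⟨2 * n - (17), by omega⟩
  refine check_sound hf (a0 := a0) (b0 := b0) (x0 := x0) (y0 := x0) t11b_chk
    ⟨fun _ => rfl, fun h => absurd h (by decide), fun h => absurd h (by decide), by omega, by omega,
      by omega, by omega⟩ ?_ ?_
  · intro j m p q hr h
    obtain ⟨-, -, -, -, hp1, hp2, hq1, hq2⟩ := hr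
    replace h := of_decide_eq_true h
    rcases h with h | h | h | h | h | h | h | h | h | h | h | h
    · obtain ⟨rfl, rfl, h⟩ := h
      exact (WrapC.v0 H.c0 (by omega) (by omega) (by omega) (by omega) (by omega) (by omega) (by omega)).mpr (by omega)
    · obtain ⟨rfl, rfl, h⟩ := h
      exact (WrapC.v2 H.c0 (by omega) (by omega) (by omega) (by omega) (by omega) (by omega) (by omega)).mpr (by omega)
    · obtain ⟨rfl, rfl, h⟩ := h
      exact (WrapC.v3 H.c0 (by omega) (by omega) (by omega) (by omega) (by omega) (by omega) (by omega) (by omega)).mpr (by omega)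
    · obtain ⟨rfl, rfl, h⟩ := h
      exact (WrapC.v0 H.c2 (by omega) (by omega) (by omega) (by omega) (by omega) (by omega) (by omega)).mpr (by omega)
    · obtain ⟨rfl, rfl, h⟩ := h
      exact (WrapC.v2 H.c2 (by omega) (by omega) (by omega) (by omega) (by omega) (by omega) (by omega)).mpr (by omega)
    · obtain ⟨rfl, rfl, h⟩ := h
      exact (WrapC.v0 H.c4 (by omega) (by omega) (by omega) (by omega) (by omega) (by omega) (by omega)).mpr (by omega)
    · obtain ⟨rfl, rfl, h⟩ := h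
      exact (WrapC.v2 H.c4a (by omega) (by omega) (by omega) (by omega) (by omega) (by omega) (by omega)).mpr (by omega)
    · obtain ⟨rfl, rfl, h⟩ := h
      exact (WrapC.v2 H.c6 (by omega) (by omega) (by omega) (by omega) (by omega) (by omega) (by omega)).mpr (by omega)
    · obtain ⟨rfl, rfl, h⟩ := h
      exact (NW.w0v H.c8 (by omega) (by omega) (by omega) (by omega) (by omega) (by omega) (by omega)).mpr (by omega)
    · obtain ⟨rfl, rfl, rfl, h⟩ := h
      exact mv (x3 (x0 + q) (by omega) (by omega) (by omega)) (by omega) (by omega) (by omega) rfl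
    · obtain ⟨rfl, rfl, rfl, rfl⟩ := h
      exact mv q (by omega) (by omega) (by omega) (by omega)
    · obtain ⟨rfl, rfl, rfl, rfl⟩ := h
      exact mv h0 (by omega) (by omega) (by omega) (by omega)
  · intro j m p q hr h
    obtain ⟨-, -, -, -, hp1, hp2, hq1, hq2⟩ := hr
    replace h := of_decide_eq_true h
    rcases h with h | h | h | h | h | h | h | h | h | h | h | h | h | h | h | h | h | h | h | h | h | h | h | h | h | h | h | h | h | h | h | h | h | h | h | h | h | h | h | h | h | h | h | h | h | h | h | h | h | h | h | h | h | h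
    · obtain ⟨rfl, rfl, h⟩ := h
      exact mt (WrapC.v1 H.c0 (by omega) (by omega) (by omega) (by omega) (by omega) (by omega) (by omega) (by omega)).mp (by omega)
    · obtain ⟨rfl, rfl, h⟩ := h
      exact mt (WrapC.v2 H.c0 (by omega) (by omega) (by omega) (by omega) (by omega) (by omega) (by omega)).mp (by omega)
    · obtain ⟨rfl, rfl, h⟩ := h
      exact mt (WrapC.v3 H.c0 (by omega) (by omega) (by omega) (by omega) (by omega) (by omega) (by omega) (by omega)).mp (by omega)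
    · obtain ⟨rfl, rfl, h⟩ := h
      exact mt (WrapC.v0 H.c2 (by omega) (by omega) (by omega) (by omega) (by omega) (by omega) (by omega)).mp (by omega)
    · obtain ⟨rfl, rfl, h⟩ := h
      exact mt (WrapC.v1 H.c2 (by omega) (by omega) (by omega) (by omega) (by omega) (by omega) (by omega) (by omega)).mp (by omega)
    · obtain ⟨rfl, rfl, h⟩ := h
      exact mt (WrapC.v2 H.c2 (by omega) (by omega) (by omega) (by omega) (by omega) (by omega) (by omega)).mp (by omega)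
    · obtain ⟨rfl, rfl, h⟩ := h
      exact mt (WrapC.v0 H.c4 (by omega) (by omega) (by omega) (by omega) (by omega) (by omega) (by omega)).mp (by omega)
    · obtain ⟨rfl, rfl, h⟩ := h
      exact mt (WrapC.v2 H.c4a (by omega) (by omega) (by omega) (by omega) (by omega) (by omega) (by omega)).mp (by omega)
    · obtain ⟨rfl, rfl, h⟩ := h
      exact mt (NW.w1v H.c8 (by omega) (by omega) (by omega) (by omega) (by omega) (by omega) (by omega) (by omega)).mp (by omega)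
    · obtain ⟨rfl, rfl, h⟩ := h
      exact H.lw _ _ _ _ (by omega) (by omega) (by omega) (by omega) (by omega) (by omega)
    · obtain ⟨rfl, rfl, h⟩ := h
      exact H.lw _ _ _ _ (by omega) (by omega) (by omega) (by omega) (by omega) (by omega)
    · obtain ⟨rfl, rfl, h⟩ := h
      exact H.lw _ _ _ _ (by omega) (by omega) (by omega) (by omega) (by omega) (by omega)
    · obtain ⟨rfl, rfl, h⟩ := h
      exact H.lw _ _ _ _ (by omega) (by omega) (by omega) (by omega) (by omega) (by omega)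
    · obtain ⟨rfl, rfl, h⟩ := h
      exact H.lw _ _ _ _ (by omega) (by omega) (by omega) (by omega) (by omega) (by omega)
    · obtain ⟨rfl, rfl, h⟩ := h
      exact H.lw _ _ _ _ (by omega) (by omega) (by omega) (by omega) (by omega) (by omega)
    · obtain ⟨rfl, rfl, h⟩ := h
      exact NHT.p0i hf H.T (j := 4) (by omega) (by omega) (by omega) (by omega) (by omega) (by omega)
    · obtain ⟨rfl, rfl, h⟩ := h
      exact NHT.p0i hf H.T (j := 3) (by omega) (by omega) (by omega) (by omega) (by omega) (by omega)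
    · obtain ⟨rfl, rfl, h⟩ := h
      exact NHT.p0i hf H.T (j := 2) (by omega) (by omega) (by omega) (by omega) (by omega) (by omega)
    · obtain ⟨rfl, rfl, h⟩ := h
      exact NHT.p0i hf H.T (j := 0) (by omega) (by omega) (by omega) (by omega) (by omega) (by omega)
    · obtain ⟨rfl, rfl, h⟩ := h
      exact NHT.pIn hf H.T (t := 3) (j := 2) (by omega) (by omega) (by omega) (by omega) (by omega) (by omega) (by omega)
    · obtain ⟨rfl, rfl, h⟩ := h
      exact NHT.pIn hf H.T (t := 3) (j := 1) (by omega) (by omega) (by omega) (by omega) (by omega) (by omega) (by omega)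
    · obtain ⟨rfl, rfl, h⟩ := h
      exact NHT.pOut hf H.T (t := 2) (j := 0) (by omega) (by omega) (by omega) (by omega) (by omega) (by omega) (by omega)
    · obtain ⟨rfl, rfl, h⟩ := h
      exact NHT.pmi hf H.T (j := 3) (by omega) (by omega) (by omega) (by omega) (by omega) (by omega)
    · obtain ⟨rfl, rfl, h⟩ := h
      exact NHT.pmi hf H.T (j := 2) (by omega) (by omega) (by omega) (by omega) (by omega) (by omega)
    · obtain ⟨rfl, rfl, h⟩ := h
      exact NHT.pmi hf H.T (j := 1) (by omega) (by omega) (by omega) (by omega) (by omega) (by omega)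
    · obtain ⟨rfl, rfl, h⟩ := h
      exact NHT.rIn hf H.T (t := 3) (p := 0) (j := 3) (by omega) (by omega) (by omega) (by omega) (by omega) (by omega) (by omega) (by omega)
    · obtain ⟨rfl, rfl, h⟩ := h
      exact NHT.rIn hf H.T (t := 3) (p := 1) (j := 3) (by omega) (by omega) (by omega) (by omega) (by omega) (by omega) (by omega) (by omega)
    · obtain ⟨rfl, rfl, h⟩ := h
      exact NHT.rIn hf H.T (t := 2) (p := 1) (j := 2) (by omega) (by omega) (by omega) (by omega) (by omega) (by omega) (by omega) (by omega)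
    · obtain ⟨rfl, rfl, h⟩ := h
      exact NHT.rIn hf H.T (t := 2) (p := 0) (j := 1) (by omega) (by omega) (by omega) (by omega) (by omega) (by omega) (by omega) (by omega)
    · obtain ⟨rfl, rfl, h⟩ := h
      exact NHT.rIn hf H.T (t := 3) (p := 1) (j := 2) (by omega) (by omega) (by omega) (by omega) (by omega) (by omega) (by omega) (by omega)
    · obtain ⟨rfl, rfl, h⟩ := h
      exact NHT.rIn hf H.T (t := 2) (p := 1) (j := 1) (by omega) (by omega) (by omega) (by omega) (by omega) (by omega) (by omega) (by omega)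
    · obtain ⟨rfl, rfl, h⟩ := h
      exact NHT.rOut hf H.T (t := 2) (p := 0) (j := 2) (by omega) (by omega) (by omega) (by omega) (by omega) (by omega) (by omega) (by omega)
    · obtain ⟨rfl, rfl, h⟩ := h
      exact NHT.rOut hf H.T (t := 2) (p := 1) (j := 2) (by omega) (by omega) (by omega) (by omega) (by omega) (by omega) (by omega) (by omega)
    · obtain ⟨rfl, rfl, h⟩ := h
      exact NHT.rOut hf H.T (t := 1) (p := 1) (j := 1) (by omega) (by omega) (by omega) (by omega) (by omega) (by omega) (by omega) (by omega)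
    · obtain ⟨rfl, rfl, h⟩ := h
      exact NHT.rOut hf H.T (t := 2) (p := 1) (j := 1) (by omega) (by omega) (by omega) (by omega) (by omega) (by omega) (by omega) (by omega)
    · obtain ⟨rfl, rfl, h⟩ := h
      exact NHT.rOut hf H.T (t := 2) (p := 0) (j := 0) (by omega) (by omega) (by omega) (by omega) (by omega) (by omega) (by omega) (by omega)
    · obtain ⟨rfl, rfl, h⟩ := h
      exact NHT.rOut hf H.T (t := 2) (p := 1) (j := 0) (by omega) (by omega) (by omega) (by omega) (by omega) (by omega) (by omega) (by omega)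
    · obtain ⟨rfl, rfl, h⟩ := h
      exact fun t => NHT.rm1 hf H.T (p := 0) (j := 3) (by omega) (by omega) (by omega) (by omega) (by omega) (by omega) (mv t rfl (by omega) rfl rfl)
    · obtain ⟨rfl, rfl, h⟩ := h
      exact fun t => NHT.rm1 hf H.T (p := 1) (j := 3) (by omega) (by omega) (by omega) (by omega) (by omega) (by omega) (mv t rfl (by omega) rfl rfl)
    · obtain ⟨rfl, rfl, h⟩ := h
      exact fun t => NHT.rm1i hf H.T (p := 0) (j := 4) (by omega) (by omega) (by omega) (by omega) (by omega) (by omega) (mv t rfl (by omega) rfl rfl)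
    · obtain ⟨rfl, rfl, h⟩ := h
      exact fun t => NHT.rm1i hf H.T (p := 1) (j := 4) (by omega) (by omega) (by omega) (by omega) (by omega) (by omega) (mv t rfl (by omega) rfl rfl)
    · obtain ⟨rfl, rfl, h⟩ := h
      exact fun t => NHT.rm1i hf H.T (p := 0) (j := 3) (by omega) (by omega) (by omega) (by omega) (by omega) (by omega) (mv t rfl (by omega) rfl rfl)
    · obtain ⟨rfl, rfl, h⟩ := h
      exact fun t => NHT.rm1i hf H.T (p := 1) (j := 3) (by omega) (by omega) (by omega) (by omega) (by omega) (by omega) (mv t rfl (by omega) rfl rfl)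
    · obtain ⟨rfl, rfl, h⟩ := h
      exact fun t => NHT.rm1i hf H.T (p := 0) (j := 2) (by omega) (by omega) (by omega) (by omega) (by omega) (by omega) (mv t rfl (by omega) rfl rfl)
    · obtain ⟨rfl, rfl, h⟩ := h
      exact fun t => NHT.rm1i hf H.T (p := 1) (j := 2) (by omega) (by omega) (by omega) (by omega) (by omega) (by omega) (mv t rfl (by omega) rfl rfl)
    · obtain ⟨rfl, rfl, h⟩ := h
      exact fun t => NHT.rm1i hf H.T (p := 0) (j := 1) (by omega) (by omega) (by omega) (by omega) (by omega) (by omega) (mv t rfl (by omega) rfl rfl)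
    · obtain ⟨rfl, rfl, h⟩ := h
      exact fun t => NHT.rm1i hf H.T (p := 1) (j := 1) (by omega) (by omega) (by omega) (by omega) (by omega) (by omega) (mv t rfl (by omega) rfl rfl)
    · obtain ⟨rfl, rfl, h⟩ := h
      exact fun t => NHT.rm1i hf H.T (p := 1) (j := 0) (by omega) (by omega) (by omega) (by omega) (by omega) (by omega) (mv t rfl (by omega) rfl rfl)
    · obtain ⟨rfl, rfl, rfl, h⟩ := h
      exact fun t => f2 _ (by omega) (by omega) (by omega) (mv t (by omega) (by omega) (by omega) rfl)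
    · obtain ⟨rfl, rfl, rfl, h⟩ := h
      exact fun t => f6 _ (by omega) (by omega) (by omega) (mv t (by omega) (by omega) (by omega) rfl)
    · obtain ⟨rfl, rfl, rfl, h⟩ := h
      exact fun t => t1 _ (by omega) (by omega) (by omega) (mv t (by omega) (by omega) (by omega) rfl)
    · obtain ⟨rfl, rfl, rfl, h⟩ := h
      exact fun t => t2 _ (by omega) (by omega) (by omega) (mv t (by omega) (by omega) (by omega) rfl)
    · obtain ⟨rfl, rfl, rfl, rfl⟩ := h
      exact fun t => t7' (mv t (by omega) (by omega) (by omega) (by omega))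
    · obtain ⟨rfl, rfl, rfl, rfl⟩ := h
      exact fun t => t9' (mv t (by omega) (by omega) (by omega) (by omega))

theorem dc_chk : check 10 7 19 19 0 1 1 1 2
    (fun j n p q => decide ((j = 2 ∧ n = 1 ∧ 5 ≤ q ∧ q ≤ p ∧ p ≤ q + 14 ∧ ((p + q) % 2 = 1 ∧ p % 2 = 1))
      ∨ (j = 10 ∧ n = 3 ∧ 14 ≤ p ∧ q ≤ p ∧ p ≤ q + 14 ∧ ((p + q) % 2 = 1 ∧ p % 2 = 0))
      ∨ (j = 6 ∧ n = 3 ∧ p = 12 ∧ (q + 1) % 2 = 0 ∧ 5 ≤ q ∧ q ≤ 9)))
    (fun j n p q => decide ((j = 10 ∧ n = 4 ∧ 13 ≤ p ∧ q ≤ p ∧ p ≤ q + 14 ∧ ¬ (p = q ∧ p % 2 = 1))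
      ∨ (j = 1 ∧ n = 4 ∧ q ≤ p ∧ p ≤ q + 14)
      ∨ (j = 1 ∧ n = 3 ∧ q ≤ p ∧ p ≤ q + 14)
      ∨ (j = 1 ∧ n = 2 ∧ q ≤ p ∧ p ≤ q + 14)
      ∨ (j = 1 ∧ n = 5 ∧ q ≤ p ∧ p ≤ q + 14)
      ∨ (j = 3 ∧ n = 5 ∧ 17 ≤ p ∧ q + 5 ≤ p ∧ p ≤ q + 14)
      ∨ (j = 5 ∧ n = 5 ∧ 17 ≤ p ∧ q + 4 ≤ p ∧ p ≤ q + 14)
      ∨ (j = 7 ∧ n = 5 ∧ 17 ≤ p ∧ q + 3 ≤ p ∧ p ≤ q + 14)
      ∨ (j = 9 ∧ n = 5 ∧ 17 ≤ p ∧ q + 2 ≤ p ∧ p ≤ q + 14)
      ∨ (j = 3 ∧ n = 3 ∧ 11 ≤ p ∧ q + 4 ≤ p ∧ p ≤ q + 14)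
      ∨ (j = 2 ∧ n = 2 ∧ 8 ≤ p ∧ q + 4 ≤ p ∧ p ≤ q + 14)
      ∨ (j = 3 ∧ n = 2 ∧ 6 ≤ q ∧ q + 3 ≤ p ∧ p ≤ q + 14)
      ∨ (j = 2 ∧ n = 4 ∧ 10 ≤ q ∧ q + 4 ≤ p ∧ p ≤ q + 14)
      ∨ (j = 3 ∧ n = 4 ∧ 10 ≤ q ∧ q + 4 ≤ p ∧ p ≤ q + 14)
      ∨ (j = 2 ∧ n = 4 ∧ 12 ≤ p ∧ q + 5 ≤ p ∧ p ≤ q + 14)
      ∨ (j = 3 ∧ n = 4 ∧ 12 ≤ p ∧ q + 5 ≤ p ∧ p ≤ q + 14)
      ∨ (j = 4 ∧ n = 4 ∧ 12 ≤ p ∧ q + 4 ≤ p ∧ p ≤ q + 14)
      ∨ (j = 5 ∧ n = 4 ∧ 12 ≤ p ∧ q + 4 ≤ p ∧ p ≤ q + 14)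
      ∨ (j = 6 ∧ n = 4 ∧ 12 ≤ p ∧ q + 3 ≤ p ∧ p ≤ q + 14)
      ∨ (j = 7 ∧ n = 4 ∧ 12 ≤ p ∧ q + 3 ≤ p ∧ p ≤ q + 14)
      ∨ (j = 8 ∧ n = 4 ∧ 12 ≤ p ∧ q + 2 ≤ p ∧ p ≤ q + 14)
      ∨ (j = 9 ∧ n = 4 ∧ 12 ≤ p ∧ q + 2 ≤ p ∧ p ≤ q + 14)
      ∨ (j = 4 ∧ n = 5 ∧ p = 17 ∧ (q + 1) % 2 = 1 ∧ 4 ≤ q ∧ q ≤ 10)
      ∨ (j = 8 ∧ n = 5 ∧ p = 17 ∧ (q + 1) % 2 = 1 ∧ 6 ≤ q ∧ q ≤ 8)
      ∨ (j = 6 ∧ n = 5 ∧ p = 16 ∧ (q + 1) % 2 = 0 ∧ 5 ≤ q ∧ q ≤ 9)
      ∨ (j = 6 ∧ n = 5 ∧ p = 14 ∧ (q + 1) % 2 = 0 ∧ 5 ≤ q ∧ q ≤ 9)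
      ∨ (j = 10 ∧ n = 5 ∧ p = 16 ∧ q = 9)
      ∨ (j = 10 ∧ n = 5 ∧ p = 16 ∧ q = 7)
      ∨ (j = 10 ∧ n = 5 ∧ p = 15 ∧ q = 6)
      ∨ (j = 10 ∧ n = 5 ∧ p = 16 ∧ q = 6)))
    738
    0x21bf8326af802b9f42308e80357e422b8b802b951221ac83269c00269c0421ac03269b80269b8421b60326a58026a584308400357d5221ac03269b002b945230838030838421b60326a60026a60421ab03269a80269a8421bf8326af0026af0421ac031cb2001cb20417c2031cb1801cb18417cd031cc6001cc60417d70312d40012d40417d7031cc6801cc68417d5031cbb001cbb0417d7031cbd001cbd0417cd8512d40017d71217cd521cbc801cbc842ba703308d00308d0417d70312d40017c44a1cb40021ad521cb3001cb30417ce031cbd801cbd8417d50312d20012d2042ba703308d00357d4a2b8a802b8a8417cd8512d40017d71217cd521cc60021bf5226ae802b9e42308d80308d8417df031cce8021be4226ad8026ad8417e1031cd08021c04217cd801cc60017d7121cc60117c30017c30417e1031cd08021c04217cd8017d7121cc60021bf5226ae0026ae0421b50326a48026a48417d70312d40017c44a1cb3801cb38417c3031cb28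01cb28421b50326a50026a50417d5031cc4801cc4840e018312f10012f10417e8031cce001cce040dd98312c90012c90417d6031cc5801cc58417d80312208012208417d6031cbc001cbc040dda8312ca0012ca042ba70326a40026a4040def0312de8012de8417cc031cbb801cbb840dee8312de0012de040de30312d28012d2841cd80317d50017d5040dec8312dc0012dc040e018312f10017ea521cd0001cd00417e9031ccf001ccf040df60312e58012e5843098032b95002b95040df80312e78012e7840e020312f18012f1840e000312ef8012ef840dff0312ee8012ee841cd90317d60017d60417ea0312e70012e7040dee0312dd8012dd8417d6031cc60021bf521cc5001cc5040de50312d48012d48417d80312d50012d5041cd90317d60017d60112d30012d3043097032b94002b94041162031216801216840dec0312db8012db840ddb8312cb0012cb0417e90312e60012e6040ddb0312ca8012ca840de40312d38012d3840dda0312c98012c9840dd90312c88012c8840c68030d1c800d1c840df90312e88012e88417e80312e50012e5040ded0312dc8012dc8417eb0312e80012e80417ea0312e70017e0521ccf801ccf841cda0317d70017d7041cdb0317d80017d8040df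f8312ef0012ef040e008312f00012f0040e010312f08012f0840ded8312dd0012dd040df70312e68012e684341500341400341300340200203100202f000b00000aff000aec00357e07357d07357c8735748735738735730734c88734bf8734bf0734be8734150f34140f34130f34020f3098073097873097073096872fe3872fe3072fe2872fe2072fda072fd9872fd9072fd8872fd0872fd0072fcf872fcf072ba8872ba8072ba7872ba7072ba6872b95872b94872b93872af4072af3872af3072af2872af2072aea872aea072ae9872ae9072ae8872ae1072ae0872ae0072adf872adf072ad7072ad6872ad6072ad58726b78726b70726030726028725fb0725fa8725fa0725f98725f90725f18725f10725f08725f00725ef8725e78725e70725e68725e60721c00721bf0721be0721b68721b58721b48721ad0721ac0721ab0721a38721a28721a187210b87210b07210a87210a0721098721090721020721018721010721008721000720ff8720f88720f80720f78720f70720f68720f60720ee8720ee0720ed0720ec8720310f202f0f1cdb071cda871cda071cd9871cd9071cd8871cd8071cd7871c26871c26071c25871c25071c24871c24071c23871c23071c1d071c1c871c1c071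c1b871c1b071c1a871c1a071c19871c12871c12071c11871c11071c10871c10071c09071c08871c08071c07871c07071c06871bff871bff071bfe871bfe071bfd871bfd0717eb8717eb0717ea8717ea0717e98717e90717e88717e80717e78717d78717d68717d58717d48717c48717c38717c28717c187173707173687173607173587173507173487173407173387173307172d87172d07172c87172c07172b87172b07172a87172a07172987172387172307172287172207172187172107172087172007171a07171987171907171887171807171787171707171687171007170f87170f07170e87170e07170d87170d0717060717058717050717048717040717038712fb8712fb0712fa8712fa0712f98712f90712f88712f807124707124687124607124587124507124487124407124387123d87123d07123c87123c07123b87123b07123a87123a07123407123387123307123287123207123187123107123087122a87122a07122987122907122887122807122787122707122007121f87121f07121e87121e07121d8712160712158712150712148712140711620711618711580710ad8710ad0710a40710a3870df8870df7870df6870df5870de5870de4870de3870de2870dd18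70dd0870dcf870d4d870d4d070d4c870d4c070d4b870d4b070d4a870d4a070d44870d44070d43870d43070d42870d42070d41870d41070d40870d3b070d3a870d3a070d39870d39070d38870d38070d37870d37070d30870d30070d2f870d2f070d2e870d2e070d2d870d26870d26070d25870d25070d24870d24070c68870c67870bbd870bb3870bb3070ba9870b000f0aff0f0aec0f091287091207091187091107091087091007090f87090f0709098709090709088709080709078709070709068709060709058709000708ff8708ff0708fe8708fe0708fd8708fd0708fc8708fc0708f60708f58708f50708f48708f40708f38708f30708f28708ec0708eb8708eb0708ea8708ea0708e98708e90708e28708e20708e18708e10708e08708e00708df87085e07085d87085d07085c87085c07085b87085b07085a87085507085487085407085387085307085287085207085187085107084b87084b07084a87084a07084987084907084887084807084787084187084107084087084007083f87083f07083e87083e07083787083707083687083607083587083507083487082e07082d87082d07082c87082c07082b87082b07077887077807076f07076e8706c40706c38706ba8706ba07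 = true := by
  decide +kernel

theorem dc (hf : Rule f) {k c n M : ℕ} (H : PL f k c n M) (hM4 : M + 4 = n) (hk' : 10 ≤ k)
    (x3 : ∀ y : ℕ, y % 2 = 0 → 2 * n + 2 ≤ y + 2 * k → y + 6 ≤ 2 * n → f (6 * k + 4) (c - 2) (2 * n - 3) y)
    (t1 : ∀ y : ℕ, y % 2 = 0 → 2 * n + 8 ≤ y + 2 * k → y + 4 ≤ 2 * n → ¬ f (6 * k + 4) c (2 * n + 1) y)
    (t2 : ∀ y : ℕ, y % 2 = 0 → 2 * n + 6 ≤ y + 2 * k → y + 6 ≤ 2 * n → ¬ f (6 * k + 4) c (2 * n - 1) y)
    (f2 : ∀ y : ℕ, y % 2 = 1 → 2 * n + 9 ≤ y + 2 * k → y + 2 ≤ 2 * n → ¬ f (6 * k + 2) c (2 * n + 2) y)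
    (f6 : ∀ y : ℕ, y % 2 = 1 → 2 * n + 7 ≤ y + 2 * k → y ≤ 2 * n + 1 → ¬ f (6 * k + 6) c (2 * n + 2) y)
    (t5' : ¬ f (6 * k + 8) c (2 * n + 1) (2 * n - 4)) (t7' : ¬ f (6 * k + 8) c (2 * n + 1) (2 * n - 6)) (t9' : ¬ f (6 * k + 8) c (2 * n + 1) (2 * n - 8)) :
    f (6 * k + 8) c (2 * n) (2 * n - 9) ∨ f (6 * k + 8) c (2 * n + 1) (2 * n - 9) := by
  by_contra hcon
  rw [not_or] at hcon
  obtain ⟨g0, g1⟩ := hcon
  have hk := H.T.hk
  have hc := H.T.hc
  have h4' := H.T.h4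
  have hb := H.T.hb
  have hN := H.T.hN2
  obtain ⟨a0, ha0⟩ : ∃ z, z + 2 = 6 * k := ⟨6 * k - (2), by omega⟩
  obtain ⟨b0, hb0⟩ : ∃ z, z + 5 = c := ⟨c - (5), by omega⟩
  obtain ⟨x0, hx0⟩ : ∃ z, z + 15 = 2 * n := ⟨2 * n - (15), by omega⟩
  refine check_sound hf (a0 := a0) (b0 := b0) (x0 := x0) (y0 := x0) dc_chk
    ⟨fun _ => rfl, fun h => absurd h (by decide), fun h => absurd h (by decide), by omega, by omega,
      by omega, by omega⟩ ?_ ?_
  · intro j m p q hr h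
    obtain ⟨-, -, -, -, hp1, hp2, hq1, hq2⟩ := hr
    replace h := of_decide_eq_true h
    rcases h with h | h | h
    · obtain ⟨rfl, rfl, h⟩ := h
      exact (WrapC.v2 H.c0 (by omega) (by omega) (by omega) (by omega) (by omega) (by omega) (by omega)).mpr (by omega)
    · obtain ⟨rfl, rfl, h⟩ := h
      exact (NW.w0v H.c8 (by omega) (by omega) (by omega) (by omega) (by omega) (by omega) (by omega)).mpr (by omega)
    · obtain ⟨rfl, rfl, rfl, h⟩ := h
      exact mv (x3 (x0 + q) (by omega) (by omega) (by omega)) (by omega) (by omega) (by omega) rfl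
  · intro j m p q hr h
    obtain ⟨-, -, -, -, hp1, hp2, hq1, hq2⟩ := hr
    replace h := of_decide_eq_true h
    rcases h with h | h | h | h | h | h | h | h | h | h | h | h | h | h | h | h | h | h | h | h | h | h | h | h | h | h | h | h | h | h
    · obtain ⟨rfl, rfl, h⟩ := h
      exact mt (NW.w1v H.c8 (by omega) (by omega) (by omega) (by omega) (by omega) (by omega) (by omega) (by omega)).mp (by omega)
    · obtain ⟨rfl, rfl, h⟩ := h
      exact H.lw _ _ _ _ (by omega) (by omega) (by omega) (by omega) (by omega) (by omega)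
    · obtain ⟨rfl, rfl, h⟩ := h
      exact H.lw _ _ _ _ (by omega) (by omega) (by omega) (by omega) (by omega) (by omega)
    · obtain ⟨rfl, rfl, h⟩ := h
      exact H.lw _ _ _ _ (by omega) (by omega) (by omega) (by omega) (by omega) (by omega)
    · obtain ⟨rfl, rfl, h⟩ := h
      exact H.lw _ _ _ _ (by omega) (by omega) (by omega) (by omega) (by omega) (by omega)
    · obtain ⟨rfl, rfl, h⟩ := h
      exact NHT.p0i hf H.T (j := 4) (by omega) (by omega) (by omega) (by omega) (by omega) (by omega)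
    · obtain ⟨rfl, rfl, h⟩ := h
      exact NHT.p0i hf H.T (j := 3) (by omega) (by omega) (by omega) (by omega) (by omega) (by omega)
    · obtain ⟨rfl, rfl, h⟩ := h
      exact NHT.p0i hf H.T (j := 2) (by omega) (by omega) (by omega) (by omega) (by omega) (by omega)
    · obtain ⟨rfl, rfl, h⟩ := h
      exact NHT.p0i hf H.T (j := 1) (by omega) (by omega) (by omega) (by omega) (by omega) (by omega)
    · obtain ⟨rfl, rfl, h⟩ := h
      exact NHT.pmi hf H.T (j := 3) (by omega) (by omega) (by omega) (by omega) (by omega) (by omega)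
    · obtain ⟨rfl, rfl, h⟩ := h
      exact NHT.rIn hf H.T (t := 3) (p := 0) (j := 3) (by omega) (by omega) (by omega) (by omega) (by omega) (by omega) (by omega) (by omega)
    · obtain ⟨rfl, rfl, h⟩ := h
      exact NHT.rOut hf H.T (t := 2) (p := 1) (j := 2) (by omega) (by omega) (by omega) (by omega) (by omega) (by omega) (by omega) (by omega)
    · obtain ⟨rfl, rfl, h⟩ := h
      exact fun t => NHT.rm1 hf H.T (p := 0) (j := 3) (by omega) (by omega) (by omega) (by omega) (by omega) (by omega) (mv t rfl (by omega) rfl rfl)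
    · obtain ⟨rfl, rfl, h⟩ := h
      exact fun t => NHT.rm1 hf H.T (p := 1) (j := 3) (by omega) (by omega) (by omega) (by omega) (by omega) (by omega) (mv t rfl (by omega) rfl rfl)
    · obtain ⟨rfl, rfl, h⟩ := h
      exact fun t => NHT.rm1i hf H.T (p := 0) (j := 4) (by omega) (by omega) (by omega) (by omega) (by omega) (by omega) (mv t rfl (by omega) rfl rfl)
    · obtain ⟨rfl, rfl, h⟩ := h
      exact fun t => NHT.rm1i hf H.T (p := 1) (j := 4) (by omega) (by omega) (by omega) (by omega) (by omega) (by omega) (mv t rfl (by omega) rfl rfl)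
    · obtain ⟨rfl, rfl, h⟩ := h
      exact fun t => NHT.rm1i hf H.T (p := 0) (j := 3) (by omega) (by omega) (by omega) (by omega) (by omega) (by omega) (mv t rfl (by omega) rfl rfl)
    · obtain ⟨rfl, rfl, h⟩ := h
      exact fun t => NHT.rm1i hf H.T (p := 1) (j := 3) (by omega) (by omega) (by omega) (by omega) (by omega) (by omega) (mv t rfl (by omega) rfl rfl)
    · obtain ⟨rfl, rfl, h⟩ := h
      exact fun t => NHT.rm1i hf H.T (p := 0) (j := 2) (by omega) (by omega) (by omega) (by omega) (by omega) (by omega) (mv t rfl (by omega) rfl rfl)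
    · obtain ⟨rfl, rfl, h⟩ := h
      exact fun t => NHT.rm1i hf H.T (p := 1) (j := 2) (by omega) (by omega) (by omega) (by omega) (by omega) (by omega) (mv t rfl (by omega) rfl rfl)
    · obtain ⟨rfl, rfl, h⟩ := h
      exact fun t => NHT.rm1i hf H.T (p := 0) (j := 1) (by omega) (by omega) (by omega) (by omega) (by omega) (by omega) (mv t rfl (by omega) rfl rfl)
    · obtain ⟨rfl, rfl, h⟩ := h
      exact fun t => NHT.rm1i hf H.T (p := 1) (j := 1) (by omega) (by omega) (by omega) (by omega) (by omega) (by omega) (mv t rfl (by omega) rfl rfl)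
    · obtain ⟨rfl, rfl, rfl, h⟩ := h
      exact fun t => f2 _ (by omega) (by omega) (by omega) (mv t (by omega) (by omega) (by omega) rfl)
    · obtain ⟨rfl, rfl, rfl, h⟩ := h
      exact fun t => f6 _ (by omega) (by omega) (by omega) (mv t (by omega) (by omega) (by omega) rfl)
    · obtain ⟨rfl, rfl, rfl, h⟩ := h
      exact fun t => t1 _ (by omega) (by omega) (by omega) (mv t (by omega) (by omega) (by omega) rfl)
    · obtain ⟨rfl, rfl, rfl, h⟩ := h
      exact fun t => t2 _ (by omega) (by omega) (by omega) (mv t (by omega) (by omega) (by omega) rfl)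
    · obtain ⟨rfl, rfl, rfl, rfl⟩ := h
      exact fun t => t7' (mv t (by omega) (by omega) (by omega) (by omega))
    · obtain ⟨rfl, rfl, rfl, rfl⟩ := h
      exact fun t => t9' (mv t (by omega) (by omega) (by omega) (by omega))
    · obtain ⟨rfl, rfl, rfl, rfl⟩ := h
      exact fun t => g0 (mv t (by omega) (by omega) (by omega) (by omega))
    · obtain ⟨rfl, rfl, rfl, rfl⟩ := h
      exact fun t => g1 (mv t (by omega) (by omega) (by omega) (by omega))

/-- the third beam of `6 k + 8` -/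
theorem t3_9 (hf : Rule f) {k c n M : ℕ} (H : PL f k c n M) (hM4 : M + 4 = n)
    (x3 : ∀ y : ℕ, y % 2 = 0 → 2 * n + 2 ≤ y + 2 * k → y + 6 ≤ 2 * n → f (6 * k + 4) (c - 2) (2 * n - 3) y)
    (t1 : ∀ y : ℕ, y % 2 = 0 → 2 * n + 8 ≤ y + 2 * k → y + 4 ≤ 2 * n → ¬ f (6 * k + 4) c (2 * n + 1) y)
    (t2 : ∀ y : ℕ, y % 2 = 0 → 2 * n + 6 ≤ y + 2 * k → y + 6 ≤ 2 * n → ¬ f (6 * k + 4) c (2 * n - 1) y)
    (f2 : ∀ y : ℕ, y % 2 = 1 → 2 * n + 9 ≤ y + 2 * k → y + 2 ≤ 2 * n → ¬ f (6 * k + 2) c (2 * n + 2) y)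
    (f6 : ∀ y : ℕ, y % 2 = 1 → 2 * n + 7 ≤ y + 2 * k → y ≤ 2 * n + 1 → ¬ f (6 * k + 6) c (2 * n + 2) y)
    (t5' : ¬ f (6 * k + 8) c (2 * n + 1) (2 * n - 4)) (t7' : ¬ f (6 * k + 8) c (2 * n + 1) (2 * n - 6))
    (q : f (6 * k + 2) c (2 * n + 1) (2 * n - 10) ∨ f (6 * k + 2) c (2 * n + 3) (2 * n - 8)) :
    ¬ f (6 * k + 8) c (2 * n + 1) (2 * n - 8) := by
  rcases q with q | q
  · exact t9a hf H hM4 x3 t1 t2 f2 f6 t5' t7' q
  · exact t9b hf H hM4 x3 t1 t2 f2 f6 t5' t7' q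

/-- the fourth beam of `6 k + 8` -/
theorem t3_11 (hf : Rule f) {k c n M : ℕ} (H : PL f k c n M) (hM4 : M + 4 = n) (hk' : 9 ≤ k)
    (x3 : ∀ y : ℕ, y % 2 = 0 → 2 * n + 2 ≤ y + 2 * k → y + 6 ≤ 2 * n → f (6 * k + 4) (c - 2) (2 * n - 3) y)
    (t1 : ∀ y : ℕ, y % 2 = 0 → 2 * n + 8 ≤ y + 2 * k → y + 4 ≤ 2 * n → ¬ f (6 * k + 4) c (2 * n + 1) y)
    (t2 : ∀ y : ℕ, y % 2 = 0 → 2 * n + 6 ≤ y + 2 * k → y + 6 ≤ 2 * n → ¬ f (6 * k + 4) c (2 * n - 1) y)
    (f2 : ∀ y : ℕ, y % 2 = 1 → 2 * n + 9 ≤ y + 2 * k → y + 2 ≤ 2 * n → ¬ f (6 * k + 2) c (2 * n + 2) y)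
    (f6 : ∀ y : ℕ, y % 2 = 1 → 2 * n + 7 ≤ y + 2 * k → y ≤ 2 * n + 1 → ¬ f (6 * k + 6) c (2 * n + 2) y)
    (t5' : ¬ f (6 * k + 8) c (2 * n + 1) (2 * n - 4)) (t7' : ¬ f (6 * k + 8) c (2 * n + 1) (2 * n - 6))
    (t9' : ¬ f (6 * k + 8) c (2 * n + 1) (2 * n - 8))
    (q : f (6 * k + 2) c (2 * n + 1) (2 * n - 12) ∨ f (6 * k + 2) c (2 * n + 3) (2 * n - 10)) :
    ¬ f (6 * k + 8) c (2 * n + 1) (2 * n - 10) := by
  rcases q with q | q
  · exact t11a hf H hM4 hk' x3 t1 t2 f2 f6 t5' t7' t9' q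
  · exact t11b hf H hM4 hk' x3 t1 t2 f2 f6 t5' t7' t9' q

end Pool.Agent.SNT.E1T3
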