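import Pool.Agent.SNT.PL

set_option autoImplicit false
set_option synthInstance.maxSize 100000
set_option synthInstance.maxHeartbeats 4000000
set_option linter.unusedVariables false

/-! E1 and the first line of `6 k + 6` (window W1). -/

namespace Pool.Agent.SNT.E1X

open Pool.Agent.SNT Pool.Agent.SNT.Loc Pool.Agent.SNT.LW Pool.Agent.SNT.NHZ Pool.Agent.SNT.D1E Pool.Agent.SNT.K0L2c

variable {f : ℕ → ℕ → ℕ → ℕ → Prop}

theorem w1_chk : check 12 9 16 23 0 1 1 0 0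
    (fun j n p q => decide ((j = 2 ∧ n = 3 ∧ q ≤ p + 3 ∧ 2 ≤ p ∧ q ≤ p + 18 ∧ (((p + q + 1) % 2 = 1 ∧ p + 4 ≤ q ∧ p % 2 = 1) ∨ ((p + q + 1) % 2 = 1 ∧ q ≤ p + 4 ∧ (p + q + 2) % 4 = 0)))
      ∨ (j = 4 ∧ n = 4 ∧ ((6 ≤ p) ∨ (p + 3 ≤ q ∧ 5 ≤ p)) ∧ q ≤ p + 18 ∧ ((p + q + 1) % 2 = 0 ∧ q ≤ p + 3 ∧ (p + q + 1) % 4 = 0))
      ∨ (j = 6 ∧ n = 2 ∧ q ≤ p + 18 ∧ ((p + q + 1) % 2 = 0 ∧ q ≤ p + 3 ∧ (p + q + 1) % 4 = 0))
      ∨ (j = 8 ∧ n = 3 ∧ q ≤ p + 18 ∧ (((p + q + 1) % 2 = 1 ∧ p + 2 ≤ q ∧ p % 2 = 0) ∨ ((p + q + 1) % 2 = 1 ∧ q ≤ p + 2 ∧ (p + q) % 4 = 2)))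
      ∨ (j = 10 ∧ n = 5 ∧ ((4 ≤ p ∧ p + 4 ≤ q) ∨ (6 ≤ p)) ∧ q ≤ p + 18 ∧ (((p + q + 1) % 2 = 1 ∧ p + 2 ≤ q ∧ p % 2 = 0) ∨ ((p + q + 1) % 2 = 1 ∧ q ≤ p + 2 ∧ (p + q) % 4 = 2)))
      ∨ (j = 10 ∧ n = 6 ∧ ((5 ≤ p ∧ p + 4 ≤ q) ∨ (8 ≤ p)) ∧ q ≤ p + 18 ∧ ((p + q + 1) % 2 = 0 ∧ q ≤ p + 1 ∧ (p + q + 1) % 4 = 2))
      ∨ (j = 12 ∧ n = 7 ∧ ((10 ≤ p ∧ p + 4 ≤ q) ∨ (12 ≤ p)) ∧ q ≤ p + 18 ∧ (((p + q + 1) % 2 = 1 ∧ p + 2 ≤ q ∧ p % 2 = 0) ∨ ((p + q + 1) % 2 = 1 ∧ q ≤ p + 2 ∧ (p + q) % 4 = 2)))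
      ∨ (j = 5 ∧ n = 5 ∧ p = 5 ∧ q = 10)
      ∨ (j = 8 ∧ n = 5 ∧ p = 3 ∧ q = 11)))
    (fun j n p q => decide ((j = 2 ∧ n = 3 ∧ q ≤ p + 3 ∧ 2 ≤ p ∧ q ≤ p + 18 ∧ ¬ (((p + q + 1) % 2 = 1 ∧ p + 4 ≤ q ∧ p % 2 = 1) ∨ ((p + q + 1) % 2 = 1 ∧ q ≤ p + 4 ∧ (p + q + 2) % 4 = 0)))
      ∨ (j = 4 ∧ n = 4 ∧ ((6 ≤ p) ∨ (p + 3 ≤ q ∧ 5 ≤ p)) ∧ q ≤ p + 18 ∧ ¬ ((p + q + 1) % 2 = 0 ∧ q ≤ p + 3 ∧ (p + q + 1) % 4 = 0))
      ∨ (j = 6 ∧ n = 2 ∧ q ≤ p + 18 ∧ ¬ ((p + q + 1) % 2 = 0 ∧ q ≤ p + 3 ∧ (p + q + 1) % 4 = 0))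
      ∨ (j = 8 ∧ n = 3 ∧ q ≤ p + 18 ∧ ¬ (((p + q + 1) % 2 = 1 ∧ p + 2 ≤ q ∧ p % 2 = 0) ∨ ((p + q + 1) % 2 = 1 ∧ q ≤ p + 2 ∧ (p + q) % 4 = 2)))
      ∨ (j = 10 ∧ n = 5 ∧ ((4 ≤ p ∧ p + 4 ≤ q) ∨ (6 ≤ p)) ∧ q ≤ p + 18 ∧ ¬ (((p + q + 1) % 2 = 1 ∧ p + 2 ≤ q ∧ p % 2 = 0) ∨ ((p + q + 1) % 2 = 1 ∧ q ≤ p + 2 ∧ (p + q) % 4 = 2)))
      ∨ (j = 10 ∧ n = 6 ∧ ((5 ≤ p ∧ p + 4 ≤ q) ∨ (8 ≤ p)) ∧ q ≤ p + 18 ∧ ¬ ((p + q + 1) % 2 = 0 ∧ q ≤ p + 1 ∧ (p + q + 1) % 4 = 2))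
      ∨ (j = 12 ∧ n = 7 ∧ ((10 ≤ p ∧ p + 4 ≤ q) ∨ (12 ≤ p)) ∧ q ≤ p + 18 ∧ ¬ (((p + q + 1) % 2 = 1 ∧ p + 2 ≤ q ∧ p % 2 = 0) ∨ ((p + q + 1) % 2 = 1 ∧ q ≤ p + 2 ∧ (p + q) % 4 = 2)))
      ∨ (j = 1 ∧ q ≤ p + 18)
      ∨ (j = 3 ∧ n = 1 ∧ p + 6 ≤ q ∧ q ≤ p + 17)
      ∨ (j = 4 ∧ n = 2 ∧ p + 6 ≤ q ∧ q ≤ p + 17)
      ∨ (j = 6 ∧ n = 4 ∧ p + 6 ≤ q ∧ q ≤ p + 17)
      ∨ (j = 9 ∧ n = 4 ∧ p + 3 ≤ q ∧ q ≤ p + 18)
      ∨ (j = 7 ∧ n = 5 ∧ 5 ≤ p ∧ p + 4 ≤ q ∧ q ≤ p + 17)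
      ∨ (j = 8 ∧ n = 6 ∧ 6 ≤ p ∧ p + 4 ≤ q ∧ q ≤ p + 17)
      ∨ (j = 9 ∧ n = 6 ∧ 6 ≤ p ∧ p + 4 ≤ q ∧ q ≤ p + 17)))
    542
    0x2fba8329fa80312ae232bd832b81002b8c9232bd832b8c802b8c842b76002b76011e858324fd8024fd843fb98332bd8032bd841e858324fd802b764a32b20032b204244603174a00174a042abd032b75802b75844cb5033fb9803fb98424460324fe0024fe041dd9002451422ac9803141c229fa0029fa0410dd031755801755843e1b83306780312b3223828023828410dd031755001e90f22508802508842fba8329fa80312ae22a05803141fa238e00238e04119483180c80180c844cb5033fb9003fb9041dc1032439002439041dcc031e84801e84844c9d034c9d804ca99a3fad803fad842fba833073003073043e49833f01803f01844c9d034c9d804ca99a3fae003fae0410c503173d80173d84292a802fae522fba8329fa80312ae2293600293604118983180180180184118a0318020018020424510325090025090410d18317498017498410c503173d00173d0410dd03180d80180d84119483180d00180d043e49833889803889841d090323810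02381042ac80031404237b8003e304236f38036f3812a03802a03812a108037c50029f8801b8b803088c23e3d423070c21c4fba37ae0037188037008036e8801de4000dd8003e26ca3d90c23d78c23d60c21de4010e9c3a10e80010d000379700359c80358480295900294c00356c80294100293f00293400292900103b801c5d001030800e9c801c5b0010e8011c500010238010d001100b803e0fca3660ba3648ba2fd1422fc4423630ba2fb9422fb7422fac422fa14216b3c21d213a16a8c20f60ba1d1f3a1018801d143a169bc21000801683c2533900532200457880456b8045608044c20044c10044b40044aa0044a900449c00449400449300449100378000366c00366100365400364a00364900363c00363300363200363100362f00362400361c00361b0036190028ac8028a180289480288980288780287c80287a80287180286f80286480285980242e801d37801d2c801d2a801d21801d1f801d14801d09801d07800f84000f79000f77000f6c000f61000f5f001018810f54000f49000f47001000810f3c000f310053390f53220f463c8746258746248745850745848745798745790745788f456e07456d87456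d07456c87456b8f45618745610745608f44c20f44c10f44b40f44aa0f44a90f449c0f44940f44930f44910f3ef6073d91873d86073d85873d79873d6e873d6e073d63873d63073d62873d58073d57873d57073d4c073d4b87393587387e0737c58737c48737ae8737ac8737978737800f366c0f36610f36608736600736550736548736540f364a0f36490f364887364807363d07363c87363c0f363b87363b0736330f36320f36310f363087363007362f87362f0f36250736248736240f361c0f361b0f36190f313607312b07312a87312a07311f87311f07311e872c45872ad4872abd872abc872aa7872aa68729fb0729ef8729ef07294d87294c87294b87293687293587293487293387291d8728ac8f28a18f28a10728a08728958728950728948f289407289387288a87288a0728898f28890728888728880728878f288707288687287f07287e87287e07287d87287d07287c8f287c07287b87287b07287a8f28728728720728718f287107287087287007286f8f28658728650728648f28598f242e8f1de3871dcd871dcc871dcb871db5871d378f1d2c8f1d2c071d2b871d2a8f1d218f1d21071d20871d20071d1f8f1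d1f071d1e871d16071d15871d15071d148f1d14071d13871d13071d0a871d0a071d098f1d09071d08871d08071d078f1cfd871c5d871c5b871c45871c438710dc8710c68710c58710c4870f840f0f83870f83070f790f0f78870f78070f77870f770f0f6d070f6c870f6c0f0f6b870f6b070f610f0f60870f60070f5f870f5f0f0f55070f54870f540f0f53870f53070f490f0f48870f48070f47870f470f0f3d070f3c870f3c0f0f310f0de3870b1c870b1c070b12070b11870b11070b10870b06870b06070b05870a70070a6f870a65070a64870a64070a5a070a59870a59070a58870a58070a57870a4e870a4e070a4d870a4d070a4c870a4c070a41870a410709b80709b78709ad0709ac8709ac0709a18709a10709a08709a007099f87099607099587099507099487099407098987098907098887098807097d07097c8708e88708e80708dd0708dc8708d08708d00708c50708c487083087083007082507082487082407082387081887081807076c07076b87076087076007 = true := by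
  decide +kernel

structure W1H (f : ℕ → ℕ → ℕ → ℕ → Prop) (k c n M X a0 b0 x0 y0 : ℕ) : Prop where
  H : PL f k c n M
  hM3 : n ≤ M + 3
  hM0 : M ≤ n
  hX : X = 2 * M + 5
  ea : a0 + 2 = 6 * k
  eb : b0 + 7 = c
  ex : x0 + 6 = X
  ey : y0 + 2 * k + 20 = X + 11
  p0 : ∀ {L R x y : ℕ}, L = 6 * k + 3 → R + 2 = c → x + 1 = X → y + 2 * k = X + 1 → f L R x y
  p1 : ∀ {L R x y : ℕ}, L = 6 * k + 6 → R + 2 = c → x + 3 = X → y + 2 * k = X + 2 → f L R x y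

theorem w1_o0 (hf : Rule f) {k c n M X a0 b0 x0 y0 p q : ℕ} (W : W1H f k c n M X a0 b0 x0 y0)
    (hp1 : 1 ≤ p) (hp2 : p ≤ 14) (hq1 : 1 ≤ q) (hq2 : q ≤ 21)
    (h : q ≤ p + 3 ∧ 2 ≤ p ∧ q ≤ p + 18) (hpt : (((p + q + 1) % 2 = 1 ∧ p + 4 ≤ q ∧ p % 2 = 1) ∨ ((p + q + 1) % 2 = 1 ∧ q ≤ p + 4 ∧ (p + q + 2) % 4 = 0))) : f (a0 + 2) (b0 + 3) (x0 + p) (y0 + q) := by
  have hk := W.H.T.hk; have hc := W.H.T.hc; have h4 := W.H.T.h4; have hb := W.H.T.hb; have hN := W.H.T.hN2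
  have ea := W.ea; have eb := W.eb; have ex := W.ex; have ey := W.ey; have _ := hf
  have hM3 := W.hM3; have hM0 := W.hM0; have hX := W.hX
  exact ((WrapC.v2 W.H.c0 (by clear hpt; omega) (by clear hpt; omega) (by clear hpt; omega) (by clear hpt; omega) (by clear hpt; omega) (by clear hpt; omega) (by clear hpt; omega)).mpr (hpt.imp (fun u => ⟨by omega, by omega, by omega⟩) (fun u => ⟨by omega, by omega, by omega⟩)))

theorem w1_o1 (hf : Rule f) {k c n M X a0 b0 x0 y0 p q : ℕ} (W : W1H f k c n M X a0 b0 x0 y0)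
    (hp1 : 1 ≤ p) (hp2 : p ≤ 14) (hq1 : 1 ≤ q) (hq2 : q ≤ 21)
    (h : ((6 ≤ p) ∨ (p + 3 ≤ q ∧ 5 ≤ p)) ∧ q ≤ p + 18) (hpt : ((p + q + 1) % 2 = 0 ∧ q ≤ p + 3 ∧ (p + q + 1) % 4 = 0)) : f (a0 + 4) (b0 + 4) (x0 + p) (y0 + q) := by
  have hk := W.H.T.hk; have hc := W.H.T.hc; have h4 := W.H.T.h4; have hb := W.H.T.hb; have hN := W.H.T.hN2
  have ea := W.ea; have eb := W.eb; have ex := W.ex; have ey := W.ey; have _ := hf
  have hM3 := W.hM3; have hM0 := W.hM0; have hX := W.hX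
  exact ((WrapC.v1 W.H.c2 (by clear hpt; omega) (by clear hpt; omega) (by clear hpt; omega) (by clear hpt; omega) (by clear hpt; omega) (by clear hpt; omega) (by clear hpt; omega) (by clear hpt; omega)).mpr (Or.inl ⟨by omega, by omega, by omega⟩))

theorem w1_o2 (hf : Rule f) {k c n M X a0 b0 x0 y0 p q : ℕ} (W : W1H f k c n M X a0 b0 x0 y0)
    (hp1 : 1 ≤ p) (hp2 : p ≤ 14) (hq1 : 1 ≤ q) (hq2 : q ≤ 21)
    (h : q ≤ p + 18) (hpt : ((p + q + 1) % 2 = 0 ∧ q ≤ p + 3 ∧ (p + q + 1) % 4 = 0)) : f (a0 + 6) (b0 + 2) (x0 + p) (y0 + q) := by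
  have hk := W.H.T.hk; have hc := W.H.T.hc; have h4 := W.H.T.h4; have hb := W.H.T.hb; have hN := W.H.T.hN2
  have ea := W.ea; have eb := W.eb; have ex := W.ex; have ey := W.ey; have _ := hf
  have hM3 := W.hM3; have hM0 := W.hM0; have hX := W.hX
  exact ((WrapC.v1 W.H.c4a (by clear hpt; omega) (by clear hpt; omega) (by clear hpt; omega) (by clear hpt; omega) (by clear hpt; omega) (by clear hpt; omega) (by clear hpt; omega) (by clear hpt; omega)).mpr (Or.inl ⟨by omega, by omega, by omega⟩))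

theorem w1_o3 (hf : Rule f) {k c n M X a0 b0 x0 y0 p q : ℕ} (W : W1H f k c n M X a0 b0 x0 y0)
    (hp1 : 1 ≤ p) (hp2 : p ≤ 14) (hq1 : 1 ≤ q) (hq2 : q ≤ 21)
    (h : q ≤ p + 18) (hpt : (((p + q + 1) % 2 = 1 ∧ p + 2 ≤ q ∧ p % 2 = 0) ∨ ((p + q + 1) % 2 = 1 ∧ q ≤ p + 2 ∧ (p + q) % 4 = 2))) : f (a0 + 8) (b0 + 3) (x0 + p) (y0 + q) := by
  have hk := W.H.T.hk; have hc := W.H.T.hc; have h4 := W.H.T.h4; have hb := W.H.T.hb; have hN := W.H.T.hN2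
  have ea := W.ea; have eb := W.eb; have ex := W.ex; have ey := W.ey; have _ := hf
  have hM3 := W.hM3; have hM0 := W.hM0; have hX := W.hX
  exact ((WrapC.v0 W.H.c6 (by clear hpt; omega) (by clear hpt; omega) (by clear hpt; omega) (by clear hpt; omega) (by clear hpt; omega) (by clear hpt; omega) (by clear hpt; omega)).mpr (hpt.imp (fun u => ⟨by omega, by omega, by omega⟩) (fun u => ⟨by omega, by omega, by omega⟩)))

theorem w1_o4 (hf : Rule f) {k c n M X a0 b0 x0 y0 p q : ℕ} (W : W1H f k c n M X a0 b0 x0 y0)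
    (hp1 : 1 ≤ p) (hp2 : p ≤ 14) (hq1 : 1 ≤ q) (hq2 : q ≤ 21)
    (h : ((4 ≤ p ∧ p + 4 ≤ q) ∨ (6 ≤ p)) ∧ q ≤ p + 18) (hpt : (((p + q + 1) % 2 = 1 ∧ p + 2 ≤ q ∧ p % 2 = 0) ∨ ((p + q + 1) % 2 = 1 ∧ q ≤ p + 2 ∧ (p + q) % 4 = 2))) : f (a0 + 10) (b0 + 5) (x0 + p) (y0 + q) := by
  have hk := W.H.T.hk; have hc := W.H.T.hc; have h4 := W.H.T.h4; have hb := W.H.T.hb; have hN := W.H.T.hN2
  have ea := W.ea; have eb := W.eb; have ex := W.ex; have ey := W.ey; have _ := hf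
  have hM3 := W.hM3; have hM0 := W.hM0; have hX := W.hX
  exact ((NW.w0v W.H.c8 (by clear hpt; omega) (by clear hpt; omega) (by clear hpt; omega) (by clear hpt; omega) (by clear hpt; omega) (by clear hpt; omega) (by clear hpt; omega)).mpr (hpt.imp (fun u => ⟨by omega, by omega, by omega⟩) (fun u => ⟨by omega, by omega, by omega⟩)))

theorem w1_o5 (hf : Rule f) {k c n M X a0 b0 x0 y0 p q : ℕ} (W : W1H f k c n M X a0 b0 x0 y0)
    (hp1 : 1 ≤ p) (hp2 : p ≤ 14) (hq1 : 1 ≤ q) (hq2 : q ≤ 21)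
    (h : ((5 ≤ p ∧ p + 4 ≤ q) ∨ (8 ≤ p)) ∧ q ≤ p + 18) (hpt : ((p + q + 1) % 2 = 0 ∧ q ≤ p + 1 ∧ (p + q + 1) % 4 = 2)) : f (a0 + 10) (b0 + 6) (x0 + p) (y0 + q) := by
  have hk := W.H.T.hk; have hc := W.H.T.hc; have h4 := W.H.T.h4; have hb := W.H.T.hb; have hN := W.H.T.hN2
  have ea := W.ea; have eb := W.eb; have ex := W.ex; have ey := W.ey; have _ := hf
  have hM3 := W.hM3; have hM0 := W.hM0; have hX := W.hX
  exact ((NW.w1v W.H.c8 (by clear hpt; omega) (by clear hpt; omega) (by clear hpt; omega) (by clear hpt; omega) (by clear hpt; omega) (by clear hpt; omega) (by clear hpt; omega) (by clear hpt; omega)).mpr (Or.inl ⟨by omega, by omega, by omega⟩))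

theorem w1_o6 (hf : Rule f) {k c n M X a0 b0 x0 y0 p q : ℕ} (W : W1H f k c n M X a0 b0 x0 y0)
    (hp1 : 1 ≤ p) (hp2 : p ≤ 14) (hq1 : 1 ≤ q) (hq2 : q ≤ 21)
    (h : ((10 ≤ p ∧ p + 4 ≤ q) ∨ (12 ≤ p)) ∧ q ≤ p + 18) (hpt : (((p + q + 1) % 2 = 1 ∧ p + 2 ≤ q ∧ p % 2 = 0) ∨ ((p + q + 1) % 2 = 1 ∧ q ≤ p + 2 ∧ (p + q) % 4 = 2))) : f (a0 + 12) (b0 + 7) (x0 + p) (y0 + q) := by
  have hk := W.H.T.hk; have hc := W.H.T.hc; have h4 := W.H.T.h4; have hb := W.H.T.hb; have hN := W.H.T.hN2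
  have ea := W.ea; have eb := W.eb; have ex := W.ex; have ey := W.ey; have _ := hf
  have hM3 := W.hM3; have hM0 := W.hM0; have hX := W.hX
  exact ((NW.w0v W.H.c10 (by clear hpt; omega) (by clear hpt; omega) (by clear hpt; omega) (by clear hpt; omega) (by clear hpt; omega) (by clear hpt; omega) (by clear hpt; omega)).mpr (hpt.imp (fun u => ⟨by omega, by omega, by omega⟩) (fun u => ⟨by omega, by omega, by omega⟩)))

theorem w1_z0 (hf : Rule f) {k c n M X a0 b0 x0 y0 p q : ℕ} (W : W1H f k c n M X a0 b0 x0 y0)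
    (hp1 : 1 ≤ p) (hp2 : p ≤ 14) (hq1 : 1 ≤ q) (hq2 : q ≤ 21)
    (h : q ≤ p + 3 ∧ 2 ≤ p ∧ q ≤ p + 18) (hpt : ¬ (((p + q + 1) % 2 = 1 ∧ p + 4 ≤ q ∧ p % 2 = 1) ∨ ((p + q + 1) % 2 = 1 ∧ q ≤ p + 4 ∧ (p + q + 2) % 4 = 0))) : ¬ f (a0 + 2) (b0 + 3) (x0 + p) (y0 + q) := by
  have hk := W.H.T.hk; have hc := W.H.T.hc; have h4 := W.H.T.h4; have hb := W.H.T.hb; have hN := W.H.T.hN2
  have ea := W.ea; have eb := W.eb; have ex := W.ex; have ey := W.ey; have _ := hf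
  have hM3 := W.hM3; have hM0 := W.hM0; have hX := W.hX
  exact (fun hq => by
    exact hpt ((((WrapC.v2 W.H.c0 (by clear hpt; omega) (by clear hpt; omega) (by clear hpt; omega) (by clear hpt; omega) (by clear hpt; omega) (by clear hpt; omega) (by clear hpt; omega)).mp hq)).imp (fun ⟨u1, u2, u3⟩ => ⟨by omega, by omega, by omega⟩) (fun ⟨u1, u2, u3⟩ => ⟨by omega, by omega, by omega⟩)))

theorem w1_z1 (hf : Rule f) {k c n M X a0 b0 x0 y0 p q : ℕ} (W : W1H f k c n M X a0 b0 x0 y0)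
    (hp1 : 1 ≤ p) (hp2 : p ≤ 14) (hq1 : 1 ≤ q) (hq2 : q ≤ 21)
    (h : ((6 ≤ p) ∨ (p + 3 ≤ q ∧ 5 ≤ p)) ∧ q ≤ p + 18) (hpt : ¬ ((p + q + 1) % 2 = 0 ∧ q ≤ p + 3 ∧ (p + q + 1) % 4 = 0)) : ¬ f (a0 + 4) (b0 + 4) (x0 + p) (y0 + q) := by
  have hk := W.H.T.hk; have hc := W.H.T.hc; have h4 := W.H.T.h4; have hb := W.H.T.hb; have hN := W.H.T.hN2
  have ea := W.ea; have eb := W.eb; have ex := W.ex; have ey := W.ey; have _ := hf
  have hM3 := W.hM3; have hM0 := W.hM0; have hX := W.hX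
  exact (fun hq => by
    rcases (WrapC.v1 W.H.c2 (by clear hpt; omega) (by clear hpt; omega) (by clear hpt; omega) (by clear hpt; omega) (by clear hpt; omega) (by clear hpt; omega) (by clear hpt; omega) (by clear hpt; omega)).mp hq with ⟨u1, u2, u3⟩ | ⟨u1, u2⟩
    · exact hpt ⟨by omega, by omega, by omega⟩
    · omega)

theorem w1_z2 (hf : Rule f) {k c n M X a0 b0 x0 y0 p q : ℕ} (W : W1H f k c n M X a0 b0 x0 y0)
    (hp1 : 1 ≤ p) (hp2 : p ≤ 14) (hq1 : 1 ≤ q) (hq2 : q ≤ 21)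
    (h : q ≤ p + 18) (hpt : ¬ ((p + q + 1) % 2 = 0 ∧ q ≤ p + 3 ∧ (p + q + 1) % 4 = 0)) : ¬ f (a0 + 6) (b0 + 2) (x0 + p) (y0 + q) := by
  have hk := W.H.T.hk; have hc := W.H.T.hc; have h4 := W.H.T.h4; have hb := W.H.T.hb; have hN := W.H.T.hN2
  have ea := W.ea; have eb := W.eb; have ex := W.ex; have ey := W.ey; have _ := hf
  have hM3 := W.hM3; have hM0 := W.hM0; have hX := W.hX
  exact (fun hq => by
    rcases (WrapC.v1 W.H.c4a (by clear hpt; omega) (by clear hpt; omega) (by clear hpt; omega) (by clear hpt; omega) (by clear hpt; omega) (by clear hpt; omega) (by clear hpt; omega) (by clear hpt; omega)).mp hq with ⟨u1, u2, u3⟩ | ⟨u1, u2⟩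
    · exact hpt ⟨by omega, by omega, by omega⟩
    · omega)

theorem w1_z3 (hf : Rule f) {k c n M X a0 b0 x0 y0 p q : ℕ} (W : W1H f k c n M X a0 b0 x0 y0)
    (hp1 : 1 ≤ p) (hp2 : p ≤ 14) (hq1 : 1 ≤ q) (hq2 : q ≤ 21)
    (h : q ≤ p + 18) (hpt : ¬ (((p + q + 1) % 2 = 1 ∧ p + 2 ≤ q ∧ p % 2 = 0) ∨ ((p + q + 1) % 2 = 1 ∧ q ≤ p + 2 ∧ (p + q) % 4 = 2))) : ¬ f (a0 + 8) (b0 + 3) (x0 + p) (y0 + q) := by
  have hk := W.H.T.hk; have hc := W.H.T.hc; have h4 := W.H.T.h4; have hb := W.H.T.hb; have hN := W.H.T.hN2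
  have ea := W.ea; have eb := W.eb; have ex := W.ex; have ey := W.ey; have _ := hf
  have hM3 := W.hM3; have hM0 := W.hM0; have hX := W.hX
  exact (fun hq => by
    exact hpt ((((WrapC.v0 W.H.c6 (by clear hpt; omega) (by clear hpt; omega) (by clear hpt; omega) (by clear hpt; omega) (by clear hpt; omega) (by clear hpt; omega) (by clear hpt; omega)).mp hq)).imp (fun ⟨u1, u2, u3⟩ => ⟨by omega, by omega, by omega⟩) (fun ⟨u1, u2, u3⟩ => ⟨by omega, by omega, by omega⟩)))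

theorem w1_z4 (hf : Rule f) {k c n M X a0 b0 x0 y0 p q : ℕ} (W : W1H f k c n M X a0 b0 x0 y0)
    (hp1 : 1 ≤ p) (hp2 : p ≤ 14) (hq1 : 1 ≤ q) (hq2 : q ≤ 21)
    (h : ((4 ≤ p ∧ p + 4 ≤ q) ∨ (6 ≤ p)) ∧ q ≤ p + 18) (hpt : ¬ (((p + q + 1) % 2 = 1 ∧ p + 2 ≤ q ∧ p % 2 = 0) ∨ ((p + q + 1) % 2 = 1 ∧ q ≤ p + 2 ∧ (p + q) % 4 = 2))) : ¬ f (a0 + 10) (b0 + 5) (x0 + p) (y0 + q) := by
  have hk := W.H.T.hk; have hc := W.H.T.hc; have h4 := W.H.T.h4; have hb := W.H.T.hb; have hN := W.H.T.hN2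
  have ea := W.ea; have eb := W.eb; have ex := W.ex; have ey := W.ey; have _ := hf
  have hM3 := W.hM3; have hM0 := W.hM0; have hX := W.hX
  exact (fun hq => by
    exact hpt ((((NW.w0v W.H.c8 (by clear hpt; omega) (by clear hpt; omega) (by clear hpt; omega) (by clear hpt; omega) (by clear hpt; omega) (by clear hpt; omega) (by clear hpt; omega)).mp hq)).imp (fun ⟨u1, u2, u3⟩ => ⟨by omega, by omega, by omega⟩) (fun ⟨u1, u2, u3⟩ => ⟨by omega, by omega, by omega⟩)))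

theorem w1_z5 (hf : Rule f) {k c n M X a0 b0 x0 y0 p q : ℕ} (W : W1H f k c n M X a0 b0 x0 y0)
    (hp1 : 1 ≤ p) (hp2 : p ≤ 14) (hq1 : 1 ≤ q) (hq2 : q ≤ 21)
    (h : ((5 ≤ p ∧ p + 4 ≤ q) ∨ (8 ≤ p)) ∧ q ≤ p + 18) (hpt : ¬ ((p + q + 1) % 2 = 0 ∧ q ≤ p + 1 ∧ (p + q + 1) % 4 = 2)) : ¬ f (a0 + 10) (b0 + 6) (x0 + p) (y0 + q) := by
  have hk := W.H.T.hk; have hc := W.H.T.hc; have h4 := W.H.T.h4; have hb := W.H.T.hb; have hN := W.H.T.hN2
  have ea := W.ea; have eb := W.eb; have ex := W.ex; have ey := W.ey; have _ := hf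
  have hM3 := W.hM3; have hM0 := W.hM0; have hX := W.hX
  exact (fun hq => by
    rcases (NW.w1v W.H.c8 (by clear hpt; omega) (by clear hpt; omega) (by clear hpt; omega) (by clear hpt; omega) (by clear hpt; omega) (by clear hpt; omega) (by clear hpt; omega) (by clear hpt; omega)).mp hq with ⟨u1, u2, u3⟩ | ⟨u1, u2⟩
    · exact hpt ⟨by omega, by omega, by omega⟩
    · omega)

theorem w1_z6 (hf : Rule f) {k c n M X a0 b0 x0 y0 p q : ℕ} (W : W1H f k c n M X a0 b0 x0 y0)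
    (hp1 : 1 ≤ p) (hp2 : p ≤ 14) (hq1 : 1 ≤ q) (hq2 : q ≤ 21)
    (h : ((10 ≤ p ∧ p + 4 ≤ q) ∨ (12 ≤ p)) ∧ q ≤ p + 18) (hpt : ¬ (((p + q + 1) % 2 = 1 ∧ p + 2 ≤ q ∧ p % 2 = 0) ∨ ((p + q + 1) % 2 = 1 ∧ q ≤ p + 2 ∧ (p + q) % 4 = 2))) : ¬ f (a0 + 12) (b0 + 7) (x0 + p) (y0 + q) := by
  have hk := W.H.T.hk; have hc := W.H.T.hc; have h4 := W.H.T.h4; have hb := W.H.T.hb; have hN := W.H.T.hN2
  have ea := W.ea; have eb := W.eb; have ex := W.ex; have ey := W.ey; have _ := hf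
  have hM3 := W.hM3; have hM0 := W.hM0; have hX := W.hX
  exact (fun hq => by
    exact hpt ((((NW.w0v W.H.c10 (by clear hpt; omega) (by clear hpt; omega) (by clear hpt; omega) (by clear hpt; omega) (by clear hpt; omega) (by clear hpt; omega) (by clear hpt; omega)).mp hq)).imp (fun ⟨u1, u2, u3⟩ => ⟨by omega, by omega, by omega⟩) (fun ⟨u1, u2, u3⟩ => ⟨by omega, by omega, by omega⟩)))

theorem w1_z7 (hf : Rule f) {k c n M X a0 b0 x0 y0 m p q : ℕ} (W : W1H f k c n M X a0 b0 x0 y0)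
    (hm1 : 1 ≤ m) (hm2 : m ≤ 7) (hp1 : 1 ≤ p) (hp2 : p ≤ 14) (hq1 : 1 ≤ q) (hq2 : q ≤ 21)
    (h : q ≤ p + 18) : ¬ f (a0 + 1) (b0 + m) (x0 + p) (y0 + q) := by
  have hk := W.H.T.hk; have hc := W.H.T.hc; have h4 := W.H.T.h4; have hb := W.H.T.hb; have hN := W.H.T.hN2
  have ea := W.ea; have eb := W.eb; have ex := W.ex; have ey := W.ey; have _ := hf
  have hM3 := W.hM3; have hM0 := W.hM0; have hX := W.hX
  exact W.H.lw _ _ _ _ (by omega) (by omega) (by omega) (by omega) (by omega) (by omega)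

theorem w1_z8 (hf : Rule f) {k c n M X a0 b0 x0 y0 p q : ℕ} (W : W1H f k c n M X a0 b0 x0 y0)
    (hp1 : 1 ≤ p) (hp2 : p ≤ 14) (hq1 : 1 ≤ q) (hq2 : q ≤ 21)
    (h : p + 6 ≤ q ∧ q ≤ p + 17) : ¬ f (a0 + 3) (b0 + 1) (x0 + p) (y0 + q) := by
  have hk := W.H.T.hk; have hc := W.H.T.hc; have h4 := W.H.T.h4; have hb := W.H.T.hb; have hN := W.H.T.hN2
  have ea := W.ea; have eb := W.eb; have ex := W.ex; have ey := W.ey; have _ := hf
  have hM3 := W.hM3; have hM0 := W.hM0; have hX := W.hX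
  exact NHT.pIn hf W.H.T (t := 2) (j := 1) (by omega) (by omega) (by omega) (by omega) (by omega) (by omega) (by omega)

theorem w1_z9 (hf : Rule f) {k c n M X a0 b0 x0 y0 p q : ℕ} (W : W1H f k c n M X a0 b0 x0 y0)
    (hp1 : 1 ≤ p) (hp2 : p ≤ 14) (hq1 : 1 ≤ q) (hq2 : q ≤ 21)
    (h : p + 6 ≤ q ∧ q ≤ p + 17) : ¬ f (a0 + 4) (b0 + 2) (x0 + p) (y0 + q) := by
  have hk := W.H.T.hk; have hc := W.H.T.hc; have h4 := W.H.T.h4; have hb := W.H.T.hb; have hN := W.H.T.hN2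
  have ea := W.ea; have eb := W.eb; have ex := W.ex; have ey := W.ey; have _ := hf
  have hM3 := W.hM3; have hM0 := W.hM0; have hX := W.hX
  exact NHT.rIn hf W.H.T (t := 2) (p := 0) (j := 1) (by omega) (by omega) (by omega) (by omega) (by omega) (by omega) (by omega) (by omega)

theorem w1_z10 (hf : Rule f) {k c n M X a0 b0 x0 y0 p q : ℕ} (W : W1H f k c n M X a0 b0 x0 y0)
    (hp1 : 1 ≤ p) (hp2 : p ≤ 14) (hq1 : 1 ≤ q) (hq2 : q ≤ 21)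
    (h : p + 6 ≤ q ∧ q ≤ p + 17) : ¬ f (a0 + 6) (b0 + 4) (x0 + p) (y0 + q) := by
  have hk := W.H.T.hk; have hc := W.H.T.hc; have h4 := W.H.T.h4; have hb := W.H.T.hb; have hN := W.H.T.hN2
  have ea := W.ea; have eb := W.eb; have ex := W.ex; have ey := W.ey; have _ := hf
  have hM3 := W.hM3; have hM0 := W.hM0; have hX := W.hX
  exact NHT.rIn hf W.H.T (t := 3) (p := 0) (j := 1) (by omega) (by omega) (by omega) (by omega) (by omega) (by omega) (by omega) (by omega)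

theorem w1_z11 (hf : Rule f) {k c n M X a0 b0 x0 y0 p q : ℕ} (W : W1H f k c n M X a0 b0 x0 y0)
    (hp1 : 1 ≤ p) (hp2 : p ≤ 14) (hq1 : 1 ≤ q) (hq2 : q ≤ 21)
    (h : p + 3 ≤ q ∧ q ≤ p + 18) : ¬ f (a0 + 9) (b0 + 4) (x0 + p) (y0 + q) := by
  have hk := W.H.T.hk; have hc := W.H.T.hc; have h4 := W.H.T.h4; have hb := W.H.T.hb; have hN := W.H.T.hN2
  have ea := W.ea; have eb := W.eb; have ex := W.ex; have ey := W.ey; have _ := hf
  have hM3 := W.hM3; have hM0 := W.hM0; have hX := W.hX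
  exact uA0 hf W.H.U (p := 1) (j := 0) (by omega) (by omega) (by omega) (by omega) (by omega) (by omega) (by omega)

theorem w1_z12 (hf : Rule f) {k c n M X a0 b0 x0 y0 p q : ℕ} (W : W1H f k c n M X a0 b0 x0 y0)
    (hp1 : 1 ≤ p) (hp2 : p ≤ 14) (hq1 : 1 ≤ q) (hq2 : q ≤ 21)
    (h : 5 ≤ p ∧ p + 4 ≤ q ∧ q ≤ p + 17) : ¬ f (a0 + 7) (b0 + 5) (x0 + p) (y0 + q) := by
  have hk := W.H.T.hk; have hc := W.H.T.hc; have h4 := W.H.T.h4; have hb := W.H.T.hb; have hN := W.H.T.hN2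
  have ea := W.ea; have eb := W.eb; have ex := W.ex; have ey := W.ey; have _ := hf
  have hM3 := W.hM3; have hM0 := W.hM0; have hX := W.hX
  exact uP1 hf W.H.U (j := 1) (by omega) (by omega) (by omega) (by omega) (by omega) (by omega)

theorem w1_z13 (hf : Rule f) {k c n M X a0 b0 x0 y0 p q : ℕ} (W : W1H f k c n M X a0 b0 x0 y0)
    (hp1 : 1 ≤ p) (hp2 : p ≤ 14) (hq1 : 1 ≤ q) (hq2 : q ≤ 21)
    (h : 6 ≤ p ∧ p + 4 ≤ q ∧ q ≤ p + 17) : ¬ f (a0 + 8) (b0 + 6) (x0 + p) (y0 + q) := by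
  have hk := W.H.T.hk; have hc := W.H.T.hc; have h4 := W.H.T.h4; have hb := W.H.T.hb; have hN := W.H.T.hN2
  have ea := W.ea; have eb := W.eb; have ex := W.ex; have ey := W.ey; have _ := hf
  have hM3 := W.hM3; have hM0 := W.hM0; have hX := W.hX
  exact uA1 hf W.H.U (p := 0) (j := 1) (by omega) (by omega) (by omega) (by omega) (by omega) (by omega) (by omega)

theorem w1_z14 (hf : Rule f) {k c n M X a0 b0 x0 y0 p q : ℕ} (W : W1H f k c n M X a0 b0 x0 y0)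
    (hp1 : 1 ≤ p) (hp2 : p ≤ 14) (hq1 : 1 ≤ q) (hq2 : q ≤ 21)
    (h : 6 ≤ p ∧ p + 4 ≤ q ∧ q ≤ p + 17) : ¬ f (a0 + 9) (b0 + 6) (x0 + p) (y0 + q) := by
  have hk := W.H.T.hk; have hc := W.H.T.hc; have h4 := W.H.T.h4; have hb := W.H.T.hb; have hN := W.H.T.hN2
  have ea := W.ea; have eb := W.eb; have ex := W.ex; have ey := W.ey; have _ := hf
  have hM3 := W.hM3; have hM0 := W.hM0; have hX := W.hX
  exact uA1 hf W.H.U (p := 1) (j := 1) (by omega) (by omega) (by omega) (by omega) (by omega) (by omega) (by omega)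

theorem w1_run (hf : Rule f) {k c n M X a0 b0 x0 y0 : ℕ} (W : W1H f k c n M X a0 b0 x0 y0) : False := by
  have hk := W.H.T.hk; have hc := W.H.T.hc; have h4 := W.H.T.h4; have hb := W.H.T.hb; have hN := W.H.T.hN2
  have ea := W.ea; have eb := W.eb; have ex := W.ex; have ey := W.ey; have _ := hf
  have hM3 := W.hM3; have hM0 := W.hM0; have hX := W.hX
  refine check_sound hf (a0 := a0) (b0 := b0) (x0 := x0) (y0 := y0) w1_chk
    ⟨fun h => absurd h (by decide), fun h => absurd h (by decide), fun h => absurd h (by decide), by omega, by omega,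
      by omega, by omega⟩ ?_ ?_
  · intro j m p q hr h
    obtain ⟨-, -, hm1, hm2, hp1, hp2, hq1, hq2⟩ := hr
    replace h := of_decide_eq_true h
    rcases h with h | h | h | h | h | h | h | h | h
    · obtain ⟨rfl, rfl, g0, g1, g2, hpt⟩ := h
      exact w1_o0 hf W (by omega) (by omega) (by omega) (by omega) ⟨g0, g1, g2⟩ hpt
    · obtain ⟨rfl, rfl, g0, g1, hpt⟩ := h
      exact w1_o1 hf W (by omega) (by omega) (by omega) (by omega) ⟨g0, g1⟩ hpt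
    · obtain ⟨rfl, rfl, g0, hpt⟩ := h
      exact w1_o2 hf W (by omega) (by omega) (by omega) (by omega) g0 hpt
    · obtain ⟨rfl, rfl, g0, hpt⟩ := h
      exact w1_o3 hf W (by omega) (by omega) (by omega) (by omega) g0 hpt
    · obtain ⟨rfl, rfl, g0, g1, hpt⟩ := h
      exact w1_o4 hf W (by omega) (by omega) (by omega) (by omega) ⟨g0, g1⟩ hpt
    · obtain ⟨rfl, rfl, g0, g1, hpt⟩ := h
      exact w1_o5 hf W (by omega) (by omega) (by omega) (by omega) ⟨g0, g1⟩ hpt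
    · obtain ⟨rfl, rfl, g0, g1, hpt⟩ := h
      exact w1_o6 hf W (by omega) (by omega) (by omega) (by omega) ⟨g0, g1⟩ hpt
    · obtain ⟨rfl, rfl, rfl, rfl⟩ := h
      exact W.p0 (by omega) (by omega) (by omega) (by omega)
    · obtain ⟨rfl, rfl, rfl, rfl⟩ := h
      exact W.p1 (by omega) (by omega) (by omega) (by omega)
  · intro j m p q hr h
    obtain ⟨-, -, hm1, hm2, hp1, hp2, hq1, hq2⟩ := hr
    replace h := of_decide_eq_true h
    rcases h with h | h | h | h | h | h | h | h | h | h | h | h | h | h | h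
    · obtain ⟨rfl, rfl, g0, g1, g2, hpt⟩ := h
      exact w1_z0 hf W (by omega) (by omega) (by omega) (by omega) ⟨g0, g1, g2⟩ hpt
    · obtain ⟨rfl, rfl, g0, g1, hpt⟩ := h
      exact w1_z1 hf W (by omega) (by omega) (by omega) (by omega) ⟨g0, g1⟩ hpt
    · obtain ⟨rfl, rfl, g0, hpt⟩ := h
      exact w1_z2 hf W (by omega) (by omega) (by omega) (by omega) g0 hpt
    · obtain ⟨rfl, rfl, g0, hpt⟩ := h
      exact w1_z3 hf W (by omega) (by omega) (by omega) (by omega) g0 hpt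
    · obtain ⟨rfl, rfl, g0, g1, hpt⟩ := h
      exact w1_z4 hf W (by omega) (by omega) (by omega) (by omega) ⟨g0, g1⟩ hpt
    · obtain ⟨rfl, rfl, g0, g1, hpt⟩ := h
      exact w1_z5 hf W (by omega) (by omega) (by omega) (by omega) ⟨g0, g1⟩ hpt
    · obtain ⟨rfl, rfl, g0, g1, hpt⟩ := h
      exact w1_z6 hf W (by omega) (by omega) (by omega) (by omega) ⟨g0, g1⟩ hpt
    · obtain ⟨rfl, g0⟩ := h
      exact w1_z7 hf W (by omega) (by omega) (by omega) (by omega) (by omega) (by omega) g0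
    · obtain ⟨rfl, rfl, g0, g1⟩ := h
      exact w1_z8 hf W (by omega) (by omega) (by omega) (by omega) ⟨g0, g1⟩
    · obtain ⟨rfl, rfl, g0, g1⟩ := h
      exact w1_z9 hf W (by omega) (by omega) (by omega) (by omega) ⟨g0, g1⟩
    · obtain ⟨rfl, rfl, g0, g1⟩ := h
      exact w1_z10 hf W (by omega) (by omega) (by omega) (by omega) ⟨g0, g1⟩
    · obtain ⟨rfl, rfl, g0, g1⟩ := h
      exact w1_z11 hf W (by omega) (by omega) (by omega) (by omega) ⟨g0, g1⟩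
    · obtain ⟨rfl, rfl, g0, g1, g2⟩ := h
      exact w1_z12 hf W (by omega) (by omega) (by omega) (by omega) ⟨g0, g1, g2⟩
    · obtain ⟨rfl, rfl, g0, g1, g2⟩ := h
      exact w1_z13 hf W (by omega) (by omega) (by omega) (by omega) ⟨g0, g1, g2⟩
    · obtain ⟨rfl, rfl, g0, g1, g2⟩ := h
      exact w1_z14 hf W (by omega) (by omega) (by omega) (by omega) ⟨g0, g1, g2⟩

theorem w1_aux (hf : Rule f) {k c n M X : ℕ} (H : PL f k c n M) (hM3 : n ≤ M + 3) (hX : X = 2 * M + 5)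
    (p0 : ∀ {L R x y : ℕ}, L = 6 * k + 3 → R + 2 = c → x + 1 = X → y + 2 * k = X + 1 → f L R x y)
    (p1 : ∀ {L R x y : ℕ}, L = 6 * k + 6 → R + 2 = c → x + 3 = X → y + 2 * k = X + 2 → f L R x y) : False := by
  have hk := H.T.hk
  have hc := H.T.hc
  have hb := H.T.hb
  have hN := H.T.hN2
  have hM0 := H.hM'
  exact w1_run hf (X := X) (a0 := 6 * k - 2) (b0 := c - 7) (x0 := X - 6) (y0 := X - 9 - 2 * k)
    ⟨H, hM3, hM0, hX, by omega, by omega, by omega, by omega, p0, p1⟩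

end Pool.Agent.SNT.E1X
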