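import Pool.Agent.SNT.PB
import Pool.Agent.SNT.K0L2c

set_option autoImplicit false

/-! The window of the top leader `6 k + 10` (`c` is its IN row, `n` its lead) while the lines of the layer `6 k + 2` are
added one by one: the lead of `6 k + 2` (row `c - 4`) is `M`, of `6 k` (row `c - 6`) `M - 3`, of `6 k + 4` (row `c - 2`) `n + 1`. -/

namespace Pool.Agent.SNT.D1E

open Pool.Agent.SNT Pool.Agent.SNT.Sig Pool.Agent.SNT.Loc Pool.Agent.SNT.LW Pool.Agent.SNT.NHZ Pool.Agent.SNT.DRun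
open Pool.Agent.SNT.PB

variable {f : ℕ → ℕ → ℕ → ℕ → Prop}

/-- The hypotheses of the windows. -/
structure PL (f : ℕ → ℕ → ℕ → ℕ → Prop) (k c n M : ℕ) : Prop where
  T : NHT f k c (2 * n)
  U : NHU f k c (2 * n)
  hM : n ≤ M + 4
  hM' : M ≤ n
  c0 : Cyc f (6 * k) (c - 6) (2 * (M - 3) + 2)
  c0a : Cyc f (6 * k) (c - 10) (2 * (n - 11) + 2)
  c2 : Cyc f (6 * k + 2) (c - 4) (2 * M + 2)
  c2a : Cyc f (6 * k + 2) (c - 8) (2 * (n - 9) + 2)
  c4 : Cyc f (6 * k + 4) (c - 2) (2 * (n + 1) + 2)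
  c4a : Cyc f (6 * k + 4) (c - 6) (2 * (n - 7) + 2)
  c4b : Cyc f (6 * k + 4) (c - 10) (2 * (n - (k + 9)) + 2)
  c6 : Cyc f (6 * k + 6) (c - 4) (2 * (n - 5) + 2)
  c6a : Cyc f (6 * k + 6) (c - 8) (2 * (n - (k + 7)) + 2)
  c8 : Cw f (6 * k + 8) (c - 2) (n - 3)
  c8a : Cw f (6 * k + 8) (c - 6) (n - (k + 5))
  c10 : Cw f (6 * k + 10) c n
  c10a : Cw f (6 * k + 10) (c - 4) (n - (k + 2))
  lw : ∀ M' R x y : ℕ, M' + 1 = 6 * k → c ≤ R + 12 → R ≤ c + 12 → 2 * n ≤ x + 20 → y ≤ x → x ≤ y + 4 * k → ¬ f M' R x y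

theorem PL.of_stack {k b m : ℕ} (hs : Side k b m) (S : Stack6 f k b m 0 0 0 0 0 1) {n M : ℕ}
    (hn : n = m + 9 + (k + 2) * 4) (hM : n ≤ M + 4) (hM' : M ≤ n)
    (d0 : Cyc f (6 * k) (b + 16) (2 * (M - 3) + 2))
    (d2 : Cyc f (6 * k + 2) (b + 18) (2 * M + 2))
    (d4 : Cyc f (6 * k + 4) (b + 20) (2 * (n + 1) + 2)) : PL f k (b + 22) n M where
  T := by
    subst hn
    exact NHT.of_stack hs S
  U := by
    subst hn
    exact NHU.of_stack hs S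
  hM := hM
  hM' := hM'
  c0 := cyc_mv d0 rfl (by omega) rfl
  c0a := cyc_mv (S.l0 3) rfl (by omega) (by omega)
  c2 := cyc_mv d2 rfl (by omega) rfl
  c2a := cyc_mv (S.l2 3) rfl (by omega) (by omega)
  c4 := cyc_mv d4 rfl (by omega) rfl
  c4a := cyc_mv (S.l4 4) rfl (by omega) (by omega)
  c4b := cyc_mv (S.l4 3) rfl (by omega) (by omega)
  c6 := cyc_mv (S.l6 4) rfl (by omega) (by omega)
  c6a := cyc_mv (S.l6 3) rfl (by omega) (by omega)
  c8 := cw_mv (S.l8 4) rfl (by omega) (by omega)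
  c8a := cw_mv (S.l8 3) rfl (by omega) (by omega)
  c10 := cw_mv (S.l10 4) rfl (by omega) (by omega)
  c10a := cw_mv (S.l10 3) rfl (by omega) (by omega)
  lw := by
    intro M' R x y hM h1 h2 h3 h4 h5
    obtain ⟨k1, k2, k3, k4, k5⟩ := hs
    have e : M' = 6 * k - 1 := by omega
    rw [e]
    exact lw_zero ⟨k1, k2, k3, k4, k5⟩ S (i := R - b) (by omega) (by omega) (by omega) h4 (by omega)

end Pool.Agent.SNT.D1E
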