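import Pool.Agent.SNT.LineR0
import Pool.Agent.SNT.LineIn
import Pool.Agent.SNT.PL
import Pool.Agent.SNT.NWD

set_option autoImplicit false

/-! No beams in the columns `2 n - 1`, `2 n + 1` of `6 k + 4` and `2 n + 1` of `6 k + 8` in the row `c`, over the leads `n + 1`,
`n - 4`, `n - 7` (after helper96's `LineR0`): the part between the wall and the diagonal. -/

namespace Pool.Agent.SNT.XB

open Pool.Agent.SNT Pool.Agent.SNT.Sig Pool.Agent.SNT.SLine Pool.Agent.SNT.Loc Pool.Agent.SNT.LW Pool.Agent.SNT.NHZ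
open Pool.Agent.SNT.LineR0 (emit x_right y_up no_coll no_kill beam)

variable {f : ℕ → ℕ → ℕ → ℕ → Prop} {k c n : ℕ}

/-- The inputs of the part between the wall and the diagonal. -/
structure XI (f : ℕ → ℕ → ℕ → ℕ → Prop) (k c n : ℕ) : Prop where
  T : NHT f k c (2 * n)
  lw : ∀ M R x y : ℕ, M + 1 = 6 * k → c ≤ R + 12 → R ≤ c + 12 → 2 * n ≤ x + 20 → y ≤ x → x ≤ y + 4 * k → ¬ f M R x y
  K6 : f (6 * k + 6) c (2 * n + 3) (2 * n + 6 - 2 * k) ∨ f (6 * k + 6) c (2 * n + 5) (2 * n + 8 - 2 * k)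
  K2 : f (6 * k + 2) c (2 * n + 3) (2 * n + 8 - 2 * k) ∨ f (6 * k + 2) c (2 * n + 5) (2 * n + 10 - 2 * k)
  /-- the two lowest rows of `P_(6k+1)` -/
  q : ∀ i j : ℕ, n ≤ i + 1 → i ≤ n → n + 3 ≤ j + k → j + k ≤ n + 4 → ¬ f (6 * k + 1) c (2 * i) (2 * j)
  da : su f (6 * k + 4) c n (n - 4)

theorem eo (hf : Rule f) (I : XI f k c n) {R x y : ℕ} (h1 : c ≤ R + 6) (h2 : R ≤ c) (hne : R % 2 = 1 ∨ x % 2 = 1 ∨ y % 2 = 1)
    (h3 : 2 * n ≤ x + 10) (h4 : y + 1 ≤ x) (h5 : x + 1 ≤ y + 4 * k) : ¬ f (6 * k + 1) R x y := by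
  have hk := I.T.hk
  have hb := I.T.hb
  have hN := I.T.hN2
  refine LocZ.eonly hf (A := 6 * k) (by omega) (by omega) (fun q r s hq hr hs => ?_)
  exact I.lw _ _ _ _ (by omega) (by omega) (by omega) (by omega) (by omega) (by omega)

/-- the row `c - 1` -/
theorem zr (hf : Rule f) (I : XI f k c n) {q x y : ℕ} (hq : q ≤ 9) (h1 : 2 * n ≤ x + 3) (h2 : y + 1 + (9 - q) / 2 ≤ x)
    (h3 : x + 2 + (9 - q) / 2 ≤ y + 2 * k) : ¬ f (6 * k + q) (c - 1) x y := by
  have hc := I.T.hc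
  have hb := I.T.hb
  rcases Nat.mod_two_eq_zero_or_one q with h | h
  · exact NW.rm1i hf I.T (by omega) (p := 0) (j := (9 - q) / 2) (by omega) (by omega) (by omega) (by omega) h2 h3
  · exact NW.rm1i hf I.T (by omega) (p := 1) (j := (9 - q) / 2) (by omega) (by omega) (by omega) (by omega) h2 h3

/-- the row `c - 1`, layers `6 k + 1`, `6 k + 2` -/
theorem zr1 (hf : Rule f) (I : XI f k c n) {p x y : ℕ} (hp : p ≤ 1) (h1 : 2 * n ≤ x + 3) (h2 : y + 4 ≤ x)
    (h3 : x + 5 ≤ y + 2 * k) : ¬ f (6 * k + 1 + p) (c - 1) x y := by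
  have hc := I.T.hc
  have hb := I.T.hb
  have hk := I.T.hk
  rcases (show p = 0 ∨ p = 1 by omega) with rfl | rfl
  · exact eo hf I (by omega) (by omega) (by omega) (by omega) (by omega) (by omega)
  · exact zr hf I (q := 2) (by omega) (by omega) (by omega) (by omega)

/-- column `2 n + 2` of the odd layers -/
theorem z2 (hf : Rule f) (I : XI f k c n) {s y : ℕ} (h1 : 1 ≤ s) (h2 : s ≤ 4) (h3 : 2 * n + 8 ≤ y + 2 * k)
    (h4 : y + 6 ≤ 2 * n) : ¬ f (6 * k + 2 * s + 1) c (2 * n + 2) y :=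
  NHT.p0i hf I.T (j := 4 - s) (by omega) (by omega) (by omega) (by omega) (by omega) (by omega)

theorem z2' (hf : Rule f) (I : XI f k c n) {s q x y : ℕ} (hs : q = 2 * s + 1) (h1 : 1 ≤ s) (h2 : s ≤ 4) (hx : x = 2 * n + 2)
    (h3 : 2 * n + 8 ≤ y + 2 * k) (h4 : y + 6 ≤ 2 * n) : ¬ f (6 * k + q) c x y := by
  subst hx hs
  exact z2 hf I h1 h2 h3 h4

theorem f2 (hf : Rule f) (I : XI f k c n) {y : ℕ} (hy : y % 2 = 1) (h1 : 2 * n + 9 ≤ y + 2 * k) (h2 : y + 2 ≤ 2 * n) :
    ¬ f (6 * k + 2) c (2 * n + 2) y := LineIn.f2 hf I.T I.K2 hy h1 h2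

theorem f6 (hf : Rule f) (I : XI f k c n) {y : ℕ} (hy : y % 2 = 1) (h1 : 2 * n + 7 ≤ y + 2 * k) (h2 : y ≤ 2 * n + 1) :
    ¬ f (6 * k + 6) c (2 * n + 2) y := LineIn.f6 hf I.T I.K6 hy h1 h2

/-- at most one E-cell of `P_(6k+1)` in a block row -/
theorem one (hf : Rule f) (I : XI f k c n) {i i' j : ℕ} (hi : n ≤ i + 1) (hii : i < i') (hi' : i' ≤ n + 1)
    (hj : n + 5 ≤ j + k) (hj1 : j + 4 ≤ n) (h1 : f (6 * k + 1) c (2 * i) (2 * j)) :
    ¬ f (6 * k + 1) c (2 * i') (2 * j) := by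
  intro h2
  have hk := I.T.hk
  have hc := I.T.hc
  have hb := I.T.hb
  have hN := I.T.hN2
  obtain ⟨m, rfl⟩ : ∃ m, j = m + 1 := ⟨j - 1, by omega⟩
  obtain ⟨t, rfl⟩ : ∃ t, i' = i + t + 1 := ⟨i' - i - 1, by omega⟩
  have nb : ∀ x y : ℕ, 2 * n ≤ x + 2 → x ≤ 2 * n + 1 → 2 * m + 1 ≤ y → y ≤ 2 * m + 2 → NB f (6 * k) c x y := by
    intro x y a1 a2 a3 a4
    refine nb_of (fun x' y' b1 b2 b3 b4 => I.lw _ _ _ _ (by omega) (by omega) (by omega) (by omega) (by omega) (by omega))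
      (fun p x' y' hp b1 b2 b3 b4 => ?_)
    rcases Nat.eq_zero_or_pos p with hp0 | hp0
    · rw [hp0, Nat.sub_zero]
      have := zr hf I (q := 0) (x := x') (y := y') (by omega) (by omega) (by omega) (by omega)
      rwa [Nat.add_zero] at this
    · exact I.lw _ _ _ _ (by omega) (by omega) (by omega) (by omega) (by omega) (by omega)
  have key : ∀ s, s ≤ t → ¬ bX f (6 * k) c (i + s) m := by
    intro s
    induction s with
    | zero =>
      intro _ h
      exact kill hf h 1 0 0 1 le_rfl (by omega) (by omega) le_rfl (by omega) h1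
    | succ s ih =>
      intro hs
      have ih1 := ih (by omega)
      refine sr_kill hf (i := i + s) ?_
      by_cases hY : bY f (6 * k) c (i + s) m
      · exact Or.inl hY
      · exact Or.inr ((rO hf (by omega) hc (nb _ _ (by omega) (by omega) (by omega) (by omega))).2 ⟨ih1, hY⟩)
  have hX := key t le_rfl
  have hO : ¬ bO f (6 * k) c (i + t) m := by
    intro h
    have := kill hf h 1 0 1 1 le_rfl (by omega) le_rfl le_rfl (by omega)
    exact this h2
  have hu : ¬ su f (6 * k) c (i + t) m := fun h => h.elim hX hO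
  have hY : bY f (6 * k) c (i + t) (m + 1) :=
    (rY hf (by omega) hc (nb _ _ (by omega) (by omega) (by omega) (by omega))).2 hu
  have := kill hf hY 1 0 1 0 le_rfl (by omega) le_rfl (by omega) (by omega)
  exact this h2

theorem stop2 (hf : Rule f) (I : XI f k c n) {j : ℕ} (hj : n + 5 ≤ j + k) (hj1 : j + 4 ≤ n)
    (hE : ¬ f (6 * k + 1) c (2 * n + 2) (2 * j)) : sr f (6 * k + 2) c n j := by
  have hk := I.T.hk
  have hc := I.T.hc
  have hb := I.T.hb
  have hN := I.T.hN2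
  by_contra h
  have h1 : bX f (6 * k + 1 + 1) c (n + 1) j := by
    refine x_right hf (by omega) I.T.hc (fun x y a1 a2 a3 a4 => ?_) (fun p x y hp a1 a2 a3 a4 => ?_) h
    · by_cases h4 : x % 2 = 1 ∨ y % 2 = 1
      · exact eo hf I (by omega) le_rfl (by omega) (by omega) (by omega) (by omega)
      · have e1 : x = 2 * n + 2 := by omega
        have e2 : y = 2 * j := by omega
        rw [e1, e2]
        exact hE
    · exact zr1 hf I hp (by omega) (by omega) (by omega)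
  exact f2 hf I (y := 2 * j + 1) (by omega) (by omega) (by omega) h1

theorem bb (hf : Rule f) (I : XI f k c n) {j : ℕ} (hj : n + 5 ≤ j + k) (hj1 : j + 4 ≤ n)
    (hE : ¬ f (6 * k + 1) c (2 * n + 2) (2 * j)) : ¬ bX f (6 * k + 2) c n j := by
  intro hX
  have hk := I.T.hk
  have hN := I.T.hN2
  rcases stop2 hf I hj hj1 hE with hY | hO
  · refine no_coll hf (by omega) I.T.hc ?_ (fun p x y hp a1 a2 a3 a4 => ?_) hX hY
    · exact z2' hf I (s := 1) (q := 2 + 1) rfl (by omega) (by omega) rfl (by omega) (by omega)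
    · have := zr hf I (q := 2 + p) (x := x) (y := y) (by omega) (by omega) (by omega) (by omega)
      rwa [← add_assoc] at this
  · exact O_X hf hX hO

theorem p1a (hf : Rule f) (I : XI f k c n) {j : ℕ} (hj : n + 3 ≤ j + k) (hj1 : j + 4 ≤ n) :
    ¬ f (6 * k + 1) c (2 * n) (2 * j) := by
  intro h
  rcases Nat.lt_or_ge (j + k) (n + 5) with h0 | h0
  · exact I.q n j (by omega) le_rfl hj (by omega) h
  · exact (emit hf h).1 (stop2 hf I h0 hj1 (one hf I (i' := n + 1) (by omega) (by omega) le_rfl h0 hj1 h))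

theorem p1c (hf : Rule f) (I : XI f k c n) {i j : ℕ} (hi : i + 1 = n) (hj : n + 3 ≤ j + k) (hj1 : j + 4 ≤ n) :
    ¬ f (6 * k + 1) c (2 * i) (2 * j) := by
  intro h
  have hk := I.T.hk
  have hc := I.T.hc
  have hb := I.T.hb
  have hN := I.T.hN2
  rcases Nat.lt_or_ge (j + k) (n + 5) with h0 | h0
  · exact I.q i j (by omega) (by omega) hj (by omega) h
  have h2 := one hf I (i' := n + 1) (by omega) (by omega) le_rfl h0 hj1 h
  refine bb hf I h0 hj1 h2 ?_
  have h1 : bX f (6 * k + 1 + 1) c (i + 1) j := by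
    refine x_right hf (by omega) I.T.hc (fun x y a1 a2 a3 a4 => ?_) (fun p x y hp a1 a2 a3 a4 => ?_) (emit hf h).1
    · by_cases h4 : x % 2 = 1 ∨ y % 2 = 1
      · exact eo hf I (by omega) le_rfl (by omega) (by omega) (by omega) (by omega)
      · have e1 : x = 2 * n := by omega
        have e2 : y = 2 * j := by omega
        rw [e1, e2]
        exact p1a hf I hj hj1
    · exact zr1 hf I hp (by omega) (by omega) (by omega)
  rwa [hi] at h1

/-- `P_(6k+1)` -/
theorem P1 (hf : Rule f) (I : XI f k c n) {x y : ℕ} (hx : 2 * n ≤ x + 3) (hx1 : x ≤ 2 * n + 1)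
    (hy : 2 * n + 5 ≤ y + 2 * k) (hy1 : y + 7 ≤ 2 * n) : ¬ f (6 * k + 1) c x y := by
  have hk := I.T.hk
  have hb := I.T.hb
  have hN := I.T.hN2
  by_cases h4 : x % 2 = 1 ∨ y % 2 = 1
  · exact eo hf I (by omega) le_rfl (by omega) (by omega) (by omega) (by omega)
  · obtain ⟨j, rfl⟩ : ∃ j, y = 2 * j := ⟨y / 2, by omega⟩
    obtain ⟨i, rfl⟩ : ∃ i, x = 2 * i := ⟨x / 2, by omega⟩
    rcases (show i = n ∨ i + 1 = n by omega) with h | h
    · rw [h]
      exact p1a hf I (by omega) (by omega)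
    · exact p1c hf I h (by omega) (by omega)

/-- `P_(6k+3)`, cells which are not of the type (even, even) -/
theorem P3ne (hf : Rule f) (I : XI f k c n) {x y : ℕ} (hxy : x % 2 = 1 ∨ y % 2 = 1) (hx : 2 * n ≤ x + 2)
    (hx1 : x ≤ 2 * n + 1) (hy : 2 * n + 7 ≤ y + 2 * k) (hy1 : y + 7 ≤ 2 * n) : ¬ f (6 * k + 3) c x y := by
  have hk := I.T.hk
  have hN := I.T.hN2
  refine no_kill (M := 6 * k + 1) hf hxy (fun x' y' a1 a2 a3 a4 => P1 hf I (by omega) (by omega) (by omega) (by omega))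
    (fun p x' y' hp a1 a2 a3 a4 => ?_)
  exact zr1 hf I hp (by omega) (by omega) (by omega)

theorem p3e (hf : Rule f) (I : XI f k c n) {j : ℕ} (hj : n + 4 ≤ j + k) (hj1 : j + 4 ≤ n) :
    ¬ f (6 * k + 3) c (2 * n) (2 * j) := by
  intro h
  have hk := I.T.hk
  have hN := I.T.hN2
  refine beam (M := 6 * k + 3) (i := n) (jt := n - 4) hf (by omega) I.T.hc (by omega) (fun x y h4 a1 a2 a3 a4 => ?_)
    (fun j' a1 a2 => ?_) (fun p x y hp a1 a2 a3 a4 => ?_) (fun p x y hp hp1 a1 a2 a3 a4 => ?_) (emit hf h).2 I.da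
  · exact P3ne hf I h4 (by omega) (by omega) (by omega) (by omega)
  · exact z2' hf I (s := 2) (q := 3 + 2) rfl (by omega) (by omega) rfl (by omega) (by omega)
  · have := zr hf I (q := 3 + p) (x := x) (y := y) (by omega) (by omega) (by omega) (by omega)
    rwa [← add_assoc] at this
  · have := zr hf I (q := 3 + p) (x := x) (y := y) (by omega) (by omega) (by omega) (by omega)
    rwa [← add_assoc] at this

/-- `P_(6k+3)` in the columns `2 n - 1, 2 n, 2 n + 1` -/
theorem P3 (hf : Rule f) (I : XI f k c n) {x y : ℕ} (hx : 2 * n ≤ x + 1)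
    (hx1 : x ≤ 2 * n + 1) (hy : 2 * n + 7 ≤ y + 2 * k) (hy1 : y + 7 ≤ 2 * n) : ¬ f (6 * k + 3) c x y := by
  by_cases h4 : x % 2 = 1 ∨ y % 2 = 1
  · exact P3ne hf I h4 (by omega) (by omega) (by omega) (by omega)
  · obtain ⟨j, rfl⟩ : ∃ j, y = 2 * j := ⟨y / 2, by omega⟩
    have e1 : x = 2 * n := by omega
    rw [e1]
    exact p3e hf I (by omega) (by omega)

/-- **no Y-cell of `6k+4` in the column `n`** -/
theorem y4 (hf : Rule f) (I : XI f k c n) {j : ℕ} (hj : n + 4 ≤ j + k) (hj1 : j + 4 ≤ n) :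
    ¬ bY f (6 * k + 4) c n j := by
  intro hY
  have hk := I.T.hk
  have hN := I.T.hN2
  have hu : ¬ su f (6 * k + 3 + 1) c n j := by
    rintro (hX | hO)
    · refine no_coll hf (L := 6 * k + 4) (by omega) I.T.hc ?_ (fun p x y hp a1 a2 a3 a4 => ?_) hX hY
      · exact z2' hf I (s := 2) (q := 4 + 1) rfl (by omega) (by omega) rfl (by omega) (by omega)
      · have := zr hf I (q := 4 + p) (x := x) (y := y) (by omega) (by omega) (by omega) (by omega)
        rwa [← add_assoc] at this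
    · exact O_Y hf hY hO
  refine beam (M := 6 * k + 3) (i := n) (jt := n - 4) hf (by omega) I.T.hc (by omega) (fun x y h4 a1 a2 a3 a4 => ?_)
    (fun j' a1 a2 => ?_) (fun p x y hp a1 a2 a3 a4 => ?_) (fun p x y hp hp1 a1 a2 a3 a4 => ?_) hu I.da
  · exact P3ne hf I h4 (by omega) (by omega) (by omega) (by omega)
  · exact z2' hf I (s := 2) (q := 3 + 2) rfl (by omega) (by omega) rfl (by omega) (by omega)
  · have := zr hf I (q := 3 + p) (x := x) (y := y) (by omega) (by omega) (by omega) (by omega)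
    rwa [← add_assoc] at this
  · have := zr hf I (q := 3 + p) (x := x) (y := y) (by omega) (by omega) (by omega) (by omega)
    rwa [← add_assoc] at this

/-- `P_(6k+5)`, cells which are not of the type (even, even), columns `2 n, 2 n + 1` -/
theorem P5ne (hf : Rule f) (I : XI f k c n) {x y : ℕ} (hxy : x % 2 = 1 ∨ y % 2 = 1) (hx : 2 * n ≤ x)
    (hx1 : x ≤ 2 * n + 1) (hy : 2 * n + 8 ≤ y + 2 * k) (hy1 : y + 7 ≤ 2 * n) : ¬ f (6 * k + 5) c x y := by
  have hk := I.T.hk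
  have hN := I.T.hN2
  refine no_kill (M := 6 * k + 3) hf hxy (fun x' y' a1 a2 a3 a4 => P3 hf I (by omega) (by omega) (by omega) (by omega))
    (fun p x' y' hp a1 a2 a3 a4 => ?_)
  have := zr hf I (q := 3 + p) (x := x') (y := y') (by omega) (by omega) (by omega) (by omega)
  rwa [← add_assoc] at this

/-- a missing `r` of `6k+6` does not pass the column `n` -/
theorem stop6 (hf : Rule f) (I : XI f k c n) {j : ℕ} (hj : n + 4 ≤ j + k) (hj1 : j + 4 ≤ n) :
    sr f (6 * k + 6) c n j := by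
  have hk := I.T.hk
  have hN := I.T.hN2
  by_contra h
  have h1 : bX f (6 * k + 5 + 1) c (n + 1) j := by
    refine x_right hf (by omega) I.T.hc (fun x y a1 a2 a3 a4 => ?_) (fun p x y hp a1 a2 a3 a4 => ?_) h
    · rcases (show x = 2 * n + 1 ∨ x = 2 * n + 2 by omega) with h2 | h2
      · exact P5ne hf I (by omega) (by omega) (by omega) (by omega) (by omega)
      · exact z2' hf I (s := 2) rfl (by omega) (by omega) h2 (by omega) (by omega)
    · have := zr hf I (q := 5 + p) (x := x) (y := y) (by omega) (by omega) (by omega) (by omega)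
      rwa [← add_assoc] at this
  exact f6 hf I (y := 2 * j + 1) (by omega) (by omega) (by omega) h1

theorem p5k (hf : Rule f) (I : XI f k c n) {j : ℕ} (hj : n + 4 ≤ j + k) (hj1 : j + 4 ≤ n) :
    ¬ f (6 * k + 5) c (2 * n) (2 * j) := by
  intro h
  exact (emit hf h).1 (stop6 hf I hj hj1)

/-- `P_(6k+5)` in the columns `2 n, 2 n + 1` -/
theorem P5 (hf : Rule f) (I : XI f k c n) {x y : ℕ} (hx : 2 * n ≤ x)
    (hx1 : x ≤ 2 * n + 1) (hy : 2 * n + 8 ≤ y + 2 * k) (hy1 : y + 7 ≤ 2 * n) : ¬ f (6 * k + 5) c x y := by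
  by_cases h4 : x % 2 = 1 ∨ y % 2 = 1
  · exact P5ne hf I h4 hx hx1 hy hy1
  · obtain ⟨j, rfl⟩ : ∃ j, y = 2 * j := ⟨y / 2, by omega⟩
    have e1 : x = 2 * n := by omega
    rw [e1]
    exact p5k hf I (by omega) (by omega)

/-- the beam of the column `n - 1` of `6k+4` -/
theorem beam4 (hf : Rule f) (I : XI f k c n) (db : su f (6 * k + 4) c (n - 1) (n - 5)) {i j : ℕ} (hi : i + 1 = n)
    (hj : n + 3 ≤ j + k) (hj1 : j + 5 ≤ n) : su f (6 * k + 4) c i j := by
  have hk := I.T.hk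
  have hN := I.T.hN2
  by_contra hu
  refine beam (M := 6 * k + 3) (i := i) (jt := n - 5) hf (by omega) I.T.hc (by omega) (fun x y h4 a1 a2 a3 a4 => ?_)
    (fun j' a1 a2 => ?_) (fun p x y hp a1 a2 a3 a4 => ?_) (fun p x y hp hp1 a1 a2 a3 a4 => ?_) hu ?_
  · exact P3ne hf I h4 (by omega) (by omega) (by omega) (by omega)
  · rw [show 2 * i + 2 = 2 * n by omega]
    exact p5k hf I (j := j' + 1) (by omega) (by omega)
  · have := zr hf I (q := 3 + p) (x := x) (y := y) (by omega) (by omega) (by omega) (by omega)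
    rwa [← add_assoc] at this
  · have := zr hf I (q := 3 + p) (x := x) (y := y) (by omega) (by omega) (by omega) (by omega)
    rwa [← add_assoc] at this
  · rwa [show n - 1 = i by omega] at db

theorem p3i (hf : Rule f) (I : XI f k c n) (db : su f (6 * k + 4) c (n - 1) (n - 5)) {i j : ℕ} (hi : i + 1 = n)
    (hj : n + 3 ≤ j + k) (hj1 : j + 5 ≤ n) : ¬ f (6 * k + 3) c (2 * i) (2 * j) := by
  intro h
  exact (emit hf h).2 (beam4 hf I db hi hj hj1)

/-- `P_(6k+3)` in the columns `2 n - 2 .. 2 n + 1` -/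
theorem P3' (hf : Rule f) (I : XI f k c n) (db : su f (6 * k + 4) c (n - 1) (n - 5)) {x y : ℕ} (hx : 2 * n ≤ x + 2)
    (hx1 : x ≤ 2 * n + 1) (hy : 2 * n + 7 ≤ y + 2 * k) (hy1 : y + 9 ≤ 2 * n) : ¬ f (6 * k + 3) c x y := by
  by_cases h : 2 * n ≤ x + 1
  · exact P3 hf I h hx1 hy (by omega)
  · by_cases h4 : x % 2 = 1 ∨ y % 2 = 1
    · exact P3ne hf I h4 (by omega) (by omega) (by omega) (by omega)
    · obtain ⟨j, rfl⟩ : ∃ j, y = 2 * j := ⟨y / 2, by omega⟩
      obtain ⟨i, rfl⟩ : ∃ i, x = 2 * i := ⟨x / 2, by omega⟩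
      exact p3i hf I db (by omega) (by omega) (by omega)

/-- **no Y-cell of `6k+4` in the column `n - 1`** -/
theorem y4' (hf : Rule f) (I : XI f k c n) (db : su f (6 * k + 4) c (n - 1) (n - 5)) {i j : ℕ} (hi : i + 1 = n)
    (hj : n + 3 ≤ j + k) (hj1 : j + 5 ≤ n) : ¬ bY f (6 * k + 4) c i j := by
  intro hY
  have hk := I.T.hk
  have hN := I.T.hN2
  rcases beam4 hf I db hi hj hj1 with hX | hO
  · refine no_coll hf (L := 6 * k + 4) (by omega) I.T.hc ?_ (fun p x y hp a1 a2 a3 a4 => ?_) hX hY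
    · rw [show 2 * i + 2 = 2 * n by omega]
      exact p5k hf I (j := j + 1) (by omega) (by omega)
    · have := zr hf I (q := 4 + p) (x := x) (y := y) (by omega) (by omega) (by omega) (by omega)
      rwa [← add_assoc] at this
  · exact O_Y hf hY hO

/-- `P_(6k+5)` in the columns `2 n - 1 .. 2 n + 1` -/
theorem P5' (hf : Rule f) (I : XI f k c n) (db : su f (6 * k + 4) c (n - 1) (n - 5)) {x y : ℕ} (hx : 2 * n ≤ x + 1)
    (hx1 : x ≤ 2 * n + 1) (hy : 2 * n + 8 ≤ y + 2 * k) (hy1 : y + 9 ≤ 2 * n) : ¬ f (6 * k + 5) c x y := by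
  have hk := I.T.hk
  have hN := I.T.hN2
  by_cases h : 2 * n ≤ x
  · exact P5 hf I h hx1 hy (by omega)
  · refine no_kill (M := 6 * k + 3) hf (by omega)
      (fun x' y' a1 a2 a3 a4 => P3' hf I db (by omega) (by omega) (by omega) (by omega))
      (fun p x' y' hp a1 a2 a3 a4 => ?_)
    have := zr hf I (q := 3 + p) (x := x') (y := y') (by omega) (by omega) (by omega) (by omega)
    rwa [← add_assoc] at this

/-- `P_(6k+7)`, cells which are not of the type (even, even), columns `2 n`, `2 n + 1` -/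
theorem P7ne (hf : Rule f) (I : XI f k c n) (db : su f (6 * k + 4) c (n - 1) (n - 5)) {x y : ℕ}
    (hxy : x % 2 = 1 ∨ y % 2 = 1) (hx : 2 * n ≤ x)
    (hx1 : x ≤ 2 * n + 1) (hy : 2 * n + 9 ≤ y + 2 * k) (hy1 : y + 9 ≤ 2 * n) : ¬ f (6 * k + 7) c x y := by
  have hk := I.T.hk
  have hN := I.T.hN2
  refine no_kill (M := 6 * k + 5) hf hxy
    (fun x' y' a1 a2 a3 a4 => P5' hf I db (by omega) (by omega) (by omega) (by omega))
    (fun p x' y' hp a1 a2 a3 a4 => ?_)
  have := zr hf I (q := 5 + p) (x := x') (y := y') (by omega) (by omega) (by omega) (by omega)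
  rwa [← add_assoc] at this

/-- **no Y-cell of `6k+8` in the column `n`** -/
theorem y8 (hf : Rule f) (I : XI f k c n) (db : su f (6 * k + 4) c (n - 1) (n - 5)) (dc : su f (6 * k + 8) c n (n - 5))
    {j : ℕ} (hj : n + 4 ≤ j + k) (hj1 : j + 5 ≤ n) : ¬ bY f (6 * k + 8) c n j := by
  intro hY
  have hk := I.T.hk
  have hN := I.T.hN2
  have hu : ¬ su f (6 * k + 7 + 1) c n j := by
    rintro (hX | hO)
    · refine no_coll hf (L := 6 * k + 8) (by omega) I.T.hc ?_ (fun p x y hp a1 a2 a3 a4 => ?_) hX hY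
      · exact z2' hf I (s := 4) (q := 8 + 1) rfl (by omega) (by omega) rfl (by omega) (by omega)
      · have := zr hf I (q := 8 + p) (x := x) (y := y) (by omega) (by omega) (by omega) (by omega)
        rwa [← add_assoc] at this
    · exact O_Y hf hY hO
  refine beam (M := 6 * k + 7) (i := n) (jt := n - 5) hf (by omega) I.T.hc (by omega) (fun x y h4 a1 a2 a3 a4 => ?_)
    (fun j' a1 a2 => ?_) (fun p x y hp a1 a2 a3 a4 => ?_) (fun p x y hp hp1 a1 a2 a3 a4 => ?_) hu dc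
  · exact P7ne hf I db h4 (by omega) (by omega) (by omega) (by omega)
  · exact z2' hf I (s := 4) (q := 7 + 2) rfl (by omega) (by omega) rfl (by omega) (by omega)
  · have := zr hf I (q := 7 + p) (x := x) (y := y) (by omega) (by omega) (by omega) (by omega)
    rwa [← add_assoc] at this
  · have := zr hf I (q := 7 + p) (x := x) (y := y) (by omega) (by omega) (by omega) (by omega)
    rwa [← add_assoc] at this

end Pool.Agent.SNT.XB
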