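import Pool.Agent.SNT.E1da0
import Pool.Agent.SNT.LineIn
import Pool.Agent.SNT.K0L4

set_option autoImplicit false

/-! Window `da` of `E1(-4)`: `su f (6 k + 4) c n (n - 4)` at the leads `(1, -4, -7)`. -/

namespace Pool.Agent.SNT.E1da

open Pool.Agent.SNT Pool.Agent.SNT.Sig Pool.Agent.SNT.Loc Pool.Agent.SNT.LW Pool.Agent.SNT.NHZ Pool.Agent.SNT.D1E Pool.Agent.SNT.K0L4

variable {f : ℕ → ℕ → ℕ → ℕ → Prop} {k c n M : ℕ}

theorem da (hf : Rule f) (H : PL f k c n M) (hM : M + 4 = n)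
    (K2 : f (6 * k + 2) c (2 * n + 3) (2 * n + 8 - 2 * k) ∨ f (6 * k + 2) c (2 * n + 5) (2 * n + 10 - 2 * k)) :
    f (6 * k + 4) c (2 * n) (2 * n - 7) ∨ f (6 * k + 4) c (2 * n + 1) (2 * n - 7) := by
  have hk := H.T.hk
  have hc := H.T.hc
  have h4 := H.T.h4
  have hb := H.T.hb
  have hN := H.T.hN2
  obtain rfl : M = n - 4 := by omega
  by_contra hcon
  have h1 : ¬ f (6 * k + 4) c (2 * n) (2 * n - 7) := fun h => hcon (Or.inl h)
  have h2 : ¬ f (6 * k + 4) c (2 * n + 1) (2 * n - 7) := fun h => hcon (Or.inr h)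
  have F2 : ∀ y, y % 2 = 1 → 2 * n ≤ y + 7 → y + 2 ≤ 2 * n → ¬ f (6 * k + 2) c (2 * n + 2) y :=
    fun y hy a1 a2 => LineIn.f2 hf H.T K2 hy (by omega) a2
  rcases k0_L4 hf H.T H.U H.c4a H.c6a H.c6 H.c8a H.c8 (R := c - 2) (x := 2 * n - 3) (y := 2 * n + 2 - 2 * k) (by omega)
    (by omega) (by omega) (by omega) with h | h
  · exact h2 (E1da0.daA hf H h1
      (run4 hf H.T H.c4a H.c6 (by omega) (by omega) (by omega) (by omega) h _ (by omega) (by omega) (by omega))
      (F2 _ (by omega) (by omega) (by omega)) (F2 _ (by omega) (by omega) (by omega)) (F2 _ (by omega) (by omega) (by omega)))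
  · exact h2 (E1da0.daB hf H h1
      (mv (run4 hf H.T H.c4a H.c6 (x := 2 * n - 3 + 2) (by omega) (by omega) (by omega) (by omega) h (2 * n - 12)
        (by omega) (by omega) (by omega)) rfl rfl (by omega) rfl)
      (F2 _ (by omega) (by omega) (by omega)) (F2 _ (by omega) (by omega) (by omega)) (F2 _ (by omega) (by omega) (by omega)))

end Pool.Agent.SNT.E1da
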