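import Pool.Agent.SNT.E4A
import Pool.Agent.SNT.K0L4

set_option autoImplicit false

/-! No beam in the columns `2 n + 1`, `2 n + 5` of the layer `6 k + 4` in the row `c`. -/

namespace Pool.Agent.SNT.E4

open Pool.Agent.SNT Pool.Agent.SNT.Sig Pool.Agent.SNT.Loc Pool.Agent.SNT.LW Pool.Agent.SNT.NHZ Pool.Agent.SNT.D1E

variable {f : ℕ → ℕ → ℕ → ℕ → Prop} {k c n M : ℕ}

theorem pl_tip4 (hf : Rule f) (H : PL f k c n M) {x : ℕ} (hx : x % 2 = 1) (hX : 2 * n ≤ x + 3) :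
    f (6 * k + 4) (c - 2) x (x - 1) ∨ f (6 * k + 4) (c - 2) (x + 2) (x + 1) :=
  K0L4.tip4 hf H.T H.U H.c4a H.c6a H.c6 H.c8a H.c8 hx hX

/-- (6): no beam in the column `2 n + 1` of `6 k + 4` in the row `c` -/
theorem beam1 (hf : Rule f) (H : PL f k c n M) : ¬ f (6 * k + 4) c (2 * n + 1) (2 * n - 4) := by
  intro h
  have hN := H.T.hN2
  rcases pl_tip4 hf H (x := 2 * n - 3) (by omega) (by omega) with h1 | h1
  · exact n2 hf H h (by rwa [show 2 * n - 3 - 1 = 2 * n - 4 by omega] at h1)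
  · exact a1a hf H h (by rwa [show 2 * n - 3 + 2 = 2 * n - 1 by omega, show 2 * n - 3 + 1 = 2 * n - 2 by omega] at h1)

/-- (7): no beam in the column `2 n + 5` of `6 k + 4` in the row `c` -/
theorem beam5 (hf : Rule f) (H : PL f k c n M) : ¬ f (6 * k + 4) c (2 * n + 5) (2 * n) := by
  intro h
  rcases pl_tip4 hf H (x := 2 * n + 1) (by omega) (by omega) with h1 | h1
  · exact a1b1 hf H h (by rwa [show 2 * n + 1 - 1 = 2 * n by omega] at h1)
  · exact a1b3 hf H h h1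

end Pool.Agent.SNT.E4
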