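import Pool.Agent.SNT.E1XB
import Pool.Agent.SNT.E1P1
import Pool.Agent.SNT.E4B
import Pool.Agent.SNT.E1T1
import Pool.Agent.SNT.E1da
import Pool.Agent.SNT.E1m4Run
import Pool.Agent.SNT.K0L6
import Pool.Agent.SNT.K0L2d
import Pool.Agent.SNT.D1Birth
import Pool.Agent.SNT.E1Asm

set_option autoImplicit false

/-! The beams in the columns `2 n - 1`, `2 n + 1` of `6 k + 4` and `2 n + 1` of `6 k + 8` do not occur. -/

namespace Pool.Agent.SNT.XB

open Pool.Agent.SNT Pool.Agent.SNT.Sig Pool.Agent.SNT.Loc Pool.Agent.SNT.LW Pool.Agent.SNT.NHZ Pool.Agent.SNT.D1E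

variable {f : ℕ → ℕ → ℕ → ℕ → Prop} {k c n M : ℕ}

/-- the in-line `2 n - 3` of `6 k + 4` -/
def X3 (f : ℕ → ℕ → ℕ → ℕ → Prop) (k c n : ℕ) : Prop :=
  ∀ y : ℕ, y % 2 = 0 → 2 * n + 2 ≤ y + 2 * k → y + 6 ≤ 2 * n → f (6 * k + 4) (c - 2) (2 * n - 3) y

theorem X3.of (hf : Rule f) (H : PL f k c n M) (h : f (6 * k + 4) (c - 2) (2 * n - 3) (2 * n + 2 - 2 * k)) : X3 f k c n := by
  intro y hy h1 h2
  have hk := H.T.hk
  have hN := H.T.hN2
  exact E1m4.T_b hf H.T (by omega) (y0 := 2 * n + 2 - 2 * k) (by omega) hy (by omega) (by omega) (by omega) (by omega) h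

theorem su_of {L i j x x' y : ℕ} (h : f L c x y ∨ f L c x' y) (hx : x = 2 * i) (hx' : x' = 2 * i + 1) (hy : y = 2 * j + 1) :
    su f L c i j := by
  subst hx hx' hy
  exact h

theorem bY_of {L i j x y : ℕ} (h : f L c x y) (hx : x = 2 * i + 1) (hy : y = 2 * j) : Sig.bY f L c i j := by
  subst hx hy
  exact h

theorem xi (hf : Rule f) (H : PL f k c n M) (hM4 : M + 4 = n)
    (K6 : f (6 * k + 6) c (2 * n + 3) (2 * n + 6 - 2 * k) ∨ f (6 * k + 6) c (2 * n + 5) (2 * n + 8 - 2 * k))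
    (K2 : f (6 * k + 2) c (2 * n + 3) (2 * n + 8 - 2 * k) ∨ f (6 * k + 2) c (2 * n + 5) (2 * n + 10 - 2 * k)) :
    XI f k c n where
  T := H.T
  lw := H.lw
  K6 := K6
  K2 := K2
  q := by
    intro i j h1 h2 h3 h4
    have hk := H.T.hk
    have hN := H.T.hN2
    rcases (show i = n ∨ i + 1 = n by omega) with hi | hi <;> rcases (show j + k = n + 3 ∨ j + k = n + 4 by omega) with hj | hj
    · exact fun h => E1P1.p1a hf H hM4 (mv h rfl rfl (by omega) (by omega))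
    · exact fun h => E1P1.p1b hf H hM4 (mv h rfl rfl (by omega) (by omega))
    · exact fun h => E1P1.p1c hf H hM4 (mv h rfl rfl (by omega) (by omega))
    · exact fun h => E1P1.p1d hf H hM4 (mv h rfl rfl (by omega) (by omega))
  da := by
    have hN := H.T.hN2
    exact su_of (E1da.da hf H hM4 K2) (by omega) (by omega) (by omega)

/-- **T1**: no cell on `x = 2 n + 1` of `6 k + 4` -/
theorem t1 (hf : Rule f) (H : PL f k c n M) (hM4 : M + 4 = n) (I : XI f k c n) {y : ℕ} (hy : y % 2 = 0)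
    (h1 : 2 * n + 8 ≤ y + 2 * k) (h2 : y + 4 ≤ 2 * n) : ¬ f (6 * k + 4) c (2 * n + 1) y := by
  intro h
  have hk := H.T.hk
  rcases (show y + 4 = 2 * n ∨ y + 6 = 2 * n ∨ y + 8 ≤ 2 * n by omega) with h3 | h3 | h3
  · exact E4.beam1 hf H (mv h rfl rfl rfl (by omega))
  · exact E1T1.t1_7 hf H hM4 (fun z hz a1 a2 => f2 hf I hz (by omega) (by omega)) (mv h rfl rfl rfl (by omega))
  · exact y4 hf I (j := y / 2) (by omega) (by omega) (bY_of h (by omega) (by omega))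

/-- **T2**: no cell on `x = 2 n - 1` of `6 k + 4` -/
theorem t2 (hf : Rule f) (hM4 : M + 4 = n) (H : PL f k c n M) (I : XI f k c n)
    (db : f (6 * k + 4) c (2 * n - 2) (2 * n - 9) ∨ f (6 * k + 4) c (2 * n - 1) (2 * n - 9))
    (t5 : ¬ f (6 * k + 4) c (2 * n - 1) (2 * n - 6)) (t7 : ¬ f (6 * k + 4) c (2 * n - 1) (2 * n - 8)) {y : ℕ} (hy : y % 2 = 0)
    (h1 : 2 * n + 6 ≤ y + 2 * k) (h2 : y + 6 ≤ 2 * n) : ¬ f (6 * k + 4) c (2 * n - 1) y := by
  intro h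
  have hk := H.T.hk
  have hN := H.T.hN2
  rcases (show y + 6 = 2 * n ∨ y + 8 = 2 * n ∨ y + 10 ≤ 2 * n by omega) with h3 | h3 | h3
  · exact t5 (mv h rfl rfl rfl (by omega))
  · exact t7 (mv h rfl rfl rfl (by omega))
  · have db' : su f (6 * k + 4) c (n - 1) (n - 5) := su_of db (by omega) (by omega) (by omega)
    exact y4' hf I db' (i := n - 1) (j := y / 2) (by omega) (by omega) (by omega) (bY_of h (by omega) (by omega))

/-- **T3**: no cell on `x = 2 n + 1` of `6 k + 8` -/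
theorem t3 (hf : Rule f) (hM4 : M + 4 = n) (H : PL f k c n M) (I : XI f k c n)
    (db : f (6 * k + 4) c (2 * n - 2) (2 * n - 9) ∨ f (6 * k + 4) c (2 * n - 1) (2 * n - 9))
    (dc : 9 ≤ k → f (6 * k + 8) c (2 * n) (2 * n - 9) ∨ f (6 * k + 8) c (2 * n + 1) (2 * n - 9))
    (t5 : ¬ f (6 * k + 8) c (2 * n + 1) (2 * n - 4)) (t7 : ¬ f (6 * k + 8) c (2 * n + 1) (2 * n - 6))
    (t9 : ¬ f (6 * k + 8) c (2 * n + 1) (2 * n - 8)) {y : ℕ} (hy : y % 2 = 0)
    (h1 : 2 * n + 8 ≤ y + 2 * k) (h2 : y + 4 ≤ 2 * n) : ¬ f (6 * k + 8) c (2 * n + 1) y := by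
  intro h
  have hk := H.T.hk
  have hN := H.T.hN2
  rcases (show y + 4 = 2 * n ∨ y + 6 = 2 * n ∨ y + 8 = 2 * n ∨ y + 10 ≤ 2 * n by omega) with h3 | h3 | h3 | h3
  · exact t5 (mv h rfl rfl rfl (by omega))
  · exact t7 (mv h rfl rfl rfl (by omega))
  · exact t9 (mv h rfl rfl rfl (by omega))
  · have db' : su f (6 * k + 4) c (n - 1) (n - 5) := su_of db (by omega) (by omega) (by omega)
    have dc' : su f (6 * k + 8) c n (n - 5) := su_of (dc (by omega)) (by omega) (by omega) (by omega)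
    exact y8 hf I db' dc' (j := y / 2) (by omega) (by omega) (bY_of h (by omega) (by omega))

end Pool.Agent.SNT.XB
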