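import Pool.Agent.SNT.PL

set_option autoImplicit false
set_option synthInstance.maxSize 100000
set_option synthInstance.maxHeartbeats 4000000

/-! The wall windows of `E1`, `l = -4` (helper89, helper63). -/

namespace Pool.Agent.SNT.E1m4

open Pool.Agent.SNT Pool.Agent.SNT.Sig Pool.Agent.SNT.Loc Pool.Agent.SNT.LW Pool.Agent.SNT.NHZ Pool.Agent.SNT.DRun
open Pool.Agent.SNT.PB Pool.Agent.SNT.D1E

variable {f : ℕ → ℕ → ℕ → ℕ → Prop}

theorem w1a_chk : check 5 6 5 9 0 0 1 0 0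
    (fun j n p q => decide ((j = 4 ∧ n = 2 ∧ q ≤ p + 4 ∧ (((p + q + 1) % 2 = 1 ∧ p ≤ q + 2 ∧ p % 2 = 0) ∨ ((p + q + 1) % 2 = 1 ∧ q + 2 ≤ p ∧ (p + q + 0) % 4 = 2)))
      ∨ (j = 1 ∧ n = 4 ∧ p = 1 ∧ q = 2)))
    (fun j n p q => decide ((j = 2 ∧ n = 1 ∧ q ≤ p + 4 ∧ p ≤ q + 1 ∧ ¬ ((p + q + 1) % 2 = 0 ∧ q + 1 ≤ p ∧ (p + q + 1) % 4 = 0))
      ∨ (j = 4 ∧ n = 3 ∧ q ≤ p + 4 ∧ p ≤ q + 3 ∧ ¬ ((p + q + 1) % 2 = 0 ∧ q + 3 ≤ p ∧ (p + q + 1) % 4 = 2))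
      ∨ (j = 3 ∧ n = 2 ∧ q ≤ p + 4 ∧ p + 1 ≤ q)
      ∨ (j = 3 ∧ n = 4 ∧ q ≤ p + 4 ∧ p + 2 ≤ q)
      ∨ (j = 5 ∧ n = 4 ∧ q ≤ p + 4 ∧ p + 1 ≤ q)
      ∨ (j = 2 ∧ n = 3 ∧ q ≤ p + 4 ∧ p + 2 ≤ q)
      ∨ (j = 3 ∧ n = 3 ∧ q ≤ p + 4 ∧ p + 2 ≤ q)
      ∨ (j = 3 ∧ n = 1 ∧ q ≤ p + 4 ∧ p + 1 ≤ q)
      ∨ (j = 5 ∧ n = 3 ∧ q ≤ p + 4 ∧ p + 1 ≤ q)
      ∨ (j = 5 ∧ n = 4 ∧ 3 ≤ p ∧ q ≤ p + 4 ∧ p ≤ q + 1)
      ∨ (j = 5 ∧ n = 3 ∧ 3 ≤ p ∧ q ≤ p + 4 ∧ p ≤ q + 1)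
      ∨ (j = 2 ∧ n = 4 ∧ p = 2 ∧ q = 6)))
    64
    0x1cc8301e30001fa2a01ff8301730001730401cc83015c00015c04030c8301f98001f98402530000e680030c87030c0703080703078702f60702f58702f18702f107028587026f07026e87026a87026a0702530f01ff8701ff0701fb0701fa8701fa0701f58701f50701e90701e88701e48701e40701e38701df0701de8701cc8701c80701c78701b60701b18701b107017887017407016e87016207016187015d87015d07015c87015807015787014087012f07012e87012a87012a0700e68f = true := by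
  decide +kernel

/-- (W1a) `E1` forces the in-line `2 n - 3` of `6 k + 4`. -/
theorem w1a (hf : Rule f) {k c n M : ℕ} (H : PL f k c n M) (hM4 : M + 4 = n)
    (e1 : f (6 * k + 3) (c - 2) (2 * n - 4) (2 * n - 2 * k - 2)) :
    f (6 * k + 4) (c - 2) (2 * n - 3) (2 * n + 2 - 2 * k) := by
  by_contra g0
  have hk := H.T.hk
  have hc := H.T.hc
  have h4' := H.T.h4
  have hb := H.T.hb
  have hN := H.T.hN2
  obtain ⟨a0, ha0⟩ : ∃ z, z = 6 * k + 2 := ⟨_, rfl⟩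
  obtain ⟨b0, hb0⟩ : ∃ z, z + 6 = c := ⟨c - (6), by omega⟩
  obtain ⟨x0, hx0⟩ : ∃ z, z + 5 = 2 * n := ⟨2 * n - (5), by omega⟩
  obtain ⟨y0, hy0⟩ : ∃ z, z + 2 * k + 4 = 2 * n := ⟨2 * n - (2 * k + 4), by omega⟩
  refine check_sound hf (a0 := a0) (b0 := b0) (x0 := x0) (y0 := y0) w1a_chk
    ⟨fun h => absurd h (by decide), fun h => absurd h (by decide), fun h => absurd h (by decide), by omega, by omega,
      by omega, by omega⟩ ?_ ?_
  · intro j m p q hr h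
    obtain ⟨-, -, -, -, hp1, hp2, hq1, hq2⟩ := hr
    replace h := of_decide_eq_true h
    rcases h with h | h
    · obtain ⟨rfl, rfl, h⟩ := h
      exact (WrapC.v4 H.c6a (by omega) (by omega) (by omega) (by omega) (by omega) (by omega) (by omega)).mpr (by omega)
    · obtain ⟨rfl, rfl, rfl, rfl⟩ := h
      exact mv e1 (by omega) (by omega) (by omega) (by omega)
  · intro j m p q hr h
    obtain ⟨-, -, -, -, hp1, hp2, hq1, hq2⟩ := hr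
    replace h := of_decide_eq_true h
    rcases h with h | h | h | h | h | h | h | h | h | h | h | h
    · obtain ⟨rfl, rfl, h⟩ := h
      exact mt (WrapC.v1 H.c4a (by omega) (by omega) (by omega) (by omega) (by omega) (by omega) (by omega) (by omega)).mp (by omega)
    · obtain ⟨rfl, rfl, h⟩ := h
      exact mt (WrapC.v1 H.c6 (by omega) (by omega) (by omega) (by omega) (by omega) (by omega) (by omega) (by omega)).mp (by omega)
    · obtain ⟨rfl, rfl, h⟩ := h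
      exact NHT.pIn hf H.T (t := 3) (j := 0) (by omega) (by omega) (by omega) (by omega) (by omega) (by omega) (by omega)
    · obtain ⟨rfl, rfl, h⟩ := h
      exact NHT.pmi hf H.T (j := 1) (by omega) (by omega) (by omega) (by omega) (by omega) (by omega)
    · obtain ⟨rfl, rfl, h⟩ := h
      exact NHT.pmi hf H.T (j := 0) (by omega) (by omega) (by omega) (by omega) (by omega) (by omega)
    · obtain ⟨rfl, rfl, h⟩ := h
      exact NHT.rIn hf H.T (t := 3) (p := 0) (j := 1) (by omega) (by omega) (by omega) (by omega) (by omega) (by omega) (by omega) (by omega)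
    · obtain ⟨rfl, rfl, h⟩ := h
      exact NHT.rIn hf H.T (t := 3) (p := 1) (j := 1) (by omega) (by omega) (by omega) (by omega) (by omega) (by omega) (by omega) (by omega)
    · obtain ⟨rfl, rfl, h⟩ := h
      exact NHT.rIn hf H.T (t := 2) (p := 1) (j := 0) (by omega) (by omega) (by omega) (by omega) (by omega) (by omega) (by omega) (by omega)
    · obtain ⟨rfl, rfl, h⟩ := h
      exact NHT.rIn hf H.T (t := 3) (p := 1) (j := 0) (by omega) (by omega) (by omega) (by omega) (by omega) (by omega) (by omega) (by omega)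
    · obtain ⟨rfl, rfl, h⟩ := h
      exact NHU.pmi hf H.U (j := 0) (by omega) (by omega) (by omega) (by omega) (by omega) (by omega)
    · obtain ⟨rfl, rfl, h⟩ := h
      exact NHU.pmi hf H.U (j := 0) (by omega) (by omega) (by omega) (by omega) (by omega) (by omega)
    · obtain ⟨rfl, rfl, rfl, rfl⟩ := h
      exact fun t => g0 (mv t (by omega) (by omega) (by omega) (by omega))

theorem w1b_chk : check 6 6 15 27 0 0 1 0 0
    (fun j n p q => decide ((j = 2 ∧ n = 1 ∧ 3 ≤ p ∧ q ≤ p + 12 ∧ p + 3 ≤ q ∧ ((p + q + 1) % 2 = 0 ∧ q ≤ p + 3 ∧ (p + q + 1) % 4 = 0))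
      ∨ (j = 4 ∧ n = 3 ∧ 7 ≤ p ∧ q ≤ p + 12 ∧ p + 1 ≤ q ∧ ((p + q + 1) % 2 = 0 ∧ q ≤ p + 1 ∧ (p + q + 1) % 4 = 2))
      ∨ (j = 4 ∧ n = 2 ∧ 8 ≤ p ∧ q ≤ p + 12 ∧ (((p + q + 1) % 2 = 1 ∧ p + 2 ≤ q ∧ p % 2 = 0) ∨ ((p + q + 1) % 2 = 1 ∧ q ≤ p + 2 ∧ (p + q + 0) % 4 = 2)))
      ∨ (j = 6 ∧ n = 4 ∧ 10 ≤ p ∧ q ≤ p + 12 ∧ p + 4 ≤ q ∧ (((p + q + 1) % 2 = 1 ∧ p + 2 ≤ q ∧ p % 2 = 0) ∨ ((p + q + 1) % 2 = 1 ∧ q ≤ p + 2 ∧ (p + q + 0) % 4 = 2)))
      ∨ (j = 1 ∧ n = 4 ∧ p = 9 ∧ q = 14)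
      ∨ (j = 2 ∧ n = 2 ∧ p = 5 ∧ q = 13)))
    (fun j n p q => decide ((j = 2 ∧ n = 1 ∧ 3 ≤ p ∧ q ≤ p + 12 ∧ p + 3 ≤ q ∧ ¬ ((p + q + 1) % 2 = 0 ∧ q ≤ p + 3 ∧ (p + q + 1) % 4 = 0))
      ∨ (j = 4 ∧ n = 3 ∧ 7 ≤ p ∧ q ≤ p + 12 ∧ p + 1 ≤ q ∧ ¬ ((p + q + 1) % 2 = 0 ∧ q ≤ p + 1 ∧ (p + q + 1) % 4 = 2))
      ∨ (j = 3 ∧ n = 2 ∧ 5 ≤ p ∧ q ≤ p + 12 ∧ p + 5 ≤ q)
      ∨ (j = 3 ∧ n = 4 ∧ 9 ≤ p ∧ q ≤ p + 12 ∧ p + 6 ≤ q)
      ∨ (j = 5 ∧ n = 4 ∧ 9 ≤ p ∧ q ≤ p + 12 ∧ p + 5 ≤ q)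
      ∨ (j = 2 ∧ n = 3 ∧ 6 ≤ p ∧ q ≤ p + 12 ∧ p + 6 ≤ q)
      ∨ (j = 3 ∧ n = 3 ∧ 6 ≤ p ∧ q ≤ p + 12 ∧ p + 6 ≤ q)
      ∨ (j = 3 ∧ n = 1 ∧ 2 ≤ p ∧ q ≤ p + 12 ∧ p + 5 ≤ q)
      ∨ (j = 5 ∧ n = 3 ∧ 6 ≤ p ∧ q ≤ p + 12 ∧ p + 5 ≤ q)
      ∨ (j = 5 ∧ n = 4 ∧ 11 ≤ p ∧ q ≤ p + 12 ∧ p + 3 ≤ q)
      ∨ (j = 5 ∧ n = 3 ∧ 11 ≤ p ∧ q ≤ p + 12 ∧ p + 3 ≤ q)))
    106
    0x11f58316c2001b814211f58316b48016b4841060830c6c000c6c041b738311e78011e7841b64031b64801b729a16b40016b4040b93001052420b780020320015e80015cc00151f00151e001503001502001037ca0b5d000ad6000aba0008698020320f1b81071b80871b73871b66071b65871ab6871ab6071aa9071a9b871a9b0716c18716a68716a58716a48715f78715f70715ea0715e98715e90715e88715e80f15dc8715dc0715db8715db0715da8715da0715cd0715cc8715cc0f151f0f151e0f15030f15020f11e807111d87106087105307105287104487103787103707102a071029870f96070f88870f88070f7a070f6d070f6c870f5f870f5f070d28870c5e870b93870b92870b78870b5d0f0ad7070ad6870ad60f0ac9870ac9070ac8870ac8070abb070aba870aba0f0aae070aad870aa0870aa00708698f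 = true := by
  decide +kernel

/-- (W1b) `E1` excludes the out-line `y = 2 n - 2 k - 3` of `6 k + 4`. -/
theorem w1b (hf : Rule f) {k c n M : ℕ} (H : PL f k c n M) (hM4 : M + 4 = n)
    (e1 : f (6 * k + 3) (c - 2) (2 * n - 4) (2 * n - 2 * k - 2)) :
    ¬ f (6 * k + 4) (c - 4) (2 * n - 8) (2 * n - 2 * k - 3) := by
  intro h1
  have hk := H.T.hk
  have hc := H.T.hc
  have h4' := H.T.h4
  have hb := H.T.hb
  have hN := H.T.hN2
  obtain ⟨a0, ha0⟩ : ∃ z, z = 6 * k + 2 := ⟨_, rfl⟩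
  obtain ⟨b0, hb0⟩ : ∃ z, z + 6 = c := ⟨c - (6), by omega⟩
  obtain ⟨x0, hx0⟩ : ∃ z, z + 13 = 2 * n := ⟨2 * n - (13), by omega⟩
  obtain ⟨y0, hy0⟩ : ∃ z, z + 2 * k + 16 = 2 * n := ⟨2 * n - (2 * k + 16), by omega⟩
  refine check_sound hf (a0 := a0) (b0 := b0) (x0 := x0) (y0 := y0) w1b_chk
    ⟨fun h => absurd h (by decide), fun h => absurd h (by decide), fun h => absurd h (by decide), by omega, by omega,
      by omega, by omega⟩ ?_ ?_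
  · intro j m p q hr h
    obtain ⟨-, -, -, -, hp1, hp2, hq1, hq2⟩ := hr
    replace h := of_decide_eq_true h
    rcases h with h | h | h | h | h | h
    · obtain ⟨rfl, rfl, h⟩ := h
      exact (WrapC.v1 H.c4a (by omega) (by omega) (by omega) (by omega) (by omega) (by omega) (by omega) (by omega)).mpr (by omega)
    · obtain ⟨rfl, rfl, h⟩ := h
      exact (WrapC.v1 H.c6 (by omega) (by omega) (by omega) (by omega) (by omega) (by omega) (by omega) (by omega)).mpr (by omega)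
    · obtain ⟨rfl, rfl, h⟩ := h
      exact (WrapC.v4 H.c6a (by omega) (by omega) (by omega) (by omega) (by omega) (by omega) (by omega)).mpr (by omega)
    · obtain ⟨rfl, rfl, h⟩ := h
      exact (NW.w0v H.c8 (by omega) (by omega) (by omega) (by omega) (by omega) (by omega) (by omega)).mpr (by omega)
    · obtain ⟨rfl, rfl, rfl, rfl⟩ := h
      exact mv e1 (by omega) (by omega) (by omega) (by omega)
    · obtain ⟨rfl, rfl, rfl, rfl⟩ := h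
      exact mv h1 (by omega) (by omega) (by omega) (by omega)
  · intro j m p q hr h
    obtain ⟨-, -, -, -, hp1, hp2, hq1, hq2⟩ := hr
    replace h := of_decide_eq_true h
    rcases h with h | h | h | h | h | h | h | h | h | h | h
    · obtain ⟨rfl, rfl, h⟩ := h
      exact mt (WrapC.v1 H.c4a (by omega) (by omega) (by omega) (by omega) (by omega) (by omega) (by omega) (by omega)).mp (by omega)
    · obtain ⟨rfl, rfl, h⟩ := h
      exact mt (WrapC.v1 H.c6 (by omega) (by omega) (by omega) (by omega) (by omega) (by omega) (by omega) (by omega)).mp (by omega)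
    · obtain ⟨rfl, rfl, h⟩ := h
      exact NHT.pIn hf H.T (t := 3) (j := 0) (by omega) (by omega) (by omega) (by omega) (by omega) (by omega) (by omega)
    · obtain ⟨rfl, rfl, h⟩ := h
      exact NHT.pmi hf H.T (j := 1) (by omega) (by omega) (by omega) (by omega) (by omega) (by omega)
    · obtain ⟨rfl, rfl, h⟩ := h
      exact NHT.pmi hf H.T (j := 0) (by omega) (by omega) (by omega) (by omega) (by omega) (by omega)
    · obtain ⟨rfl, rfl, h⟩ := h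
      exact NHT.rIn hf H.T (t := 3) (p := 0) (j := 1) (by omega) (by omega) (by omega) (by omega) (by omega) (by omega) (by omega) (by omega)
    · obtain ⟨rfl, rfl, h⟩ := h
      exact NHT.rIn hf H.T (t := 3) (p := 1) (j := 1) (by omega) (by omega) (by omega) (by omega) (by omega) (by omega) (by omega) (by omega)
    · obtain ⟨rfl, rfl, h⟩ := h
      exact NHT.rIn hf H.T (t := 2) (p := 1) (j := 0) (by omega) (by omega) (by omega) (by omega) (by omega) (by omega) (by omega) (by omega)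
    · obtain ⟨rfl, rfl, h⟩ := h
      exact NHT.rIn hf H.T (t := 3) (p := 1) (j := 0) (by omega) (by omega) (by omega) (by omega) (by omega) (by omega) (by omega) (by omega)
    · obtain ⟨rfl, rfl, h⟩ := h
      exact NHU.pmi hf H.U (j := 0) (by omega) (by omega) (by omega) (by omega) (by omega) (by omega)
    · obtain ⟨rfl, rfl, h⟩ := h
      exact NHU.pmi hf H.U (j := 0) (by omega) (by omega) (by omega) (by omega) (by omega) (by omega)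

theorem w0_chk : check 3 6 12 20 1 0 1 0 0
    (fun j n p q => decide ((j = 1 ∧ n = 3 ∧ 4 ≤ p ∧ q ≤ p + 8 ∧ ((p + q + 1) % 2 = 0 ∧ q ≤ p + 3 ∧ (p + q + 1) % 4 = 0))
      ∨ (j = 1 ∧ n = 1 ∧ 4 ≤ p ∧ q ≤ p + 8 ∧ ((p + q + 1) % 2 = 0 ∧ q ≤ p + 3 ∧ (p + q + 3) % 4 = 0))
      ∨ (j = 1 ∧ n = 2 ∧ 6 ≤ p ∧ q ≤ p + 8 ∧ (((p + q + 1) % 2 = 1 ∧ p + 4 ≤ q ∧ p % 2 = 0) ∨ ((p + q + 1) % 2 = 1 ∧ q ≤ p + 4 ∧ (p + q + 0) % 4 = 0)))
      ∨ (j = 3 ∧ n = 1 ∧ q ≤ p + 8 ∧ p + 1 ≤ q ∧ ((p + q + 1) % 2 = 0 ∧ q ≤ p + 1 ∧ (p + q + 1) % 4 = 2))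
      ∨ (j = 3 ∧ n = 2 ∧ 8 ≤ p ∧ q ≤ p + 8 ∧ (((p + q + 1) % 2 = 1 ∧ p + 2 ≤ q ∧ p % 2 = 1) ∨ ((p + q + 1) % 2 = 1 ∧ q ≤ p + 2 ∧ (p + q + 2) % 4 = 2)))
      ∨ (j = 3 ∧ n = 4 ∧ 10 ≤ p ∧ q ≤ p + 8 ∧ (((p + q + 1) % 2 = 1 ∧ p + 2 ≤ q ∧ p % 2 = 0) ∨ ((p + q + 1) % 2 = 1 ∧ q ≤ p + 2 ∧ (p + q + 0) % 4 = 2)))))
    (fun j n p q => decide ((j = 3 ∧ n = 1 ∧ q ≤ p + 8 ∧ p + 1 ≤ q ∧ ¬ ((p + q + 1) % 2 = 0 ∧ q ≤ p + 1 ∧ (p + q + 1) % 4 = 2))
      ∨ (j = 3 ∧ n = 2 ∧ 8 ≤ p ∧ q ≤ p + 8 ∧ ¬ (((p + q + 1) % 2 = 1 ∧ p + 2 ≤ q ∧ p % 2 = 1) ∨ ((p + q + 1) % 2 = 1 ∧ q ≤ p + 2 ∧ (p + q + 2) % 4 = 2)))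
      ∨ (j = 3 ∧ n = 3 ∧ 10 ≤ p ∧ q ≤ p + 8 ∧ ¬ ((p + q + 1) % 2 = 0 ∧ q ≤ p + 1 ∧ (p + q + 3) % 4 = 2))
      ∨ (j = 3 ∧ n = 4 ∧ 10 ≤ p ∧ q ≤ p + 8 ∧ ¬ (((p + q + 1) % 2 = 1 ∧ p + 2 ≤ q ∧ p % 2 = 0) ∨ ((p + q + 1) % 2 = 1 ∧ q ≤ p + 2 ∧ (p + q + 0) % 4 = 2)))
      ∨ (j = 2 ∧ n = 2 ∧ 10 ≤ q ∧ q ≤ p + 8 ∧ p + 3 ≤ q)
      ∨ (j = 2 ∧ n = 2 ∧ q ≤ p + 8 ∧ p + 4 ≤ q)
      ∨ (j = 2 ∧ n = 1 ∧ q ≤ p + 8 ∧ p + 4 ≤ q)
      ∨ (j = 3 ∧ n = 2 ∧ p = 1 ∧ q = 9)))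
    79
    0xa2d0309a08009a081097883098280098c920996800996840a37000ab9ba0aba0009bf8009b400092780049700048d80042900041f80040a80040100039c80039300037e000aba0f0ab9870ab9070aaf070a41870a410709bf8f09b50709b48709b40f09ab07099607098207096e87096e0709288709280709278f091e87091e07091487091407090a87090a0709008709000708f68708f60706db0706c68706bc8706bc0706b28706b20706a88706a807069e87069e07064e87064487064407063a87063a0706308706300706268706260704970f048d8f04290f041f8f040a8f04010f039c8f03930f037e0f = true := by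
  decide +kernel

/-- (W0) the out-line `y = 2 n - 7` of `6 k + 6` is present at the wall. -/
theorem w0 (hf : Rule f) {k b m n : ℕ} (hs : Side k b m) (S : Stack6 f k b m 0 0 0 0 0 1)
    (hn : n = m + 9 + (k + 2) * 4) (d0 : Cyc f (6 * k) (b + 16) (2 * (n - 7) + 2))
    (d2 : Cyc f (6 * k + 2) (b + 18) (2 * (n - 4) + 2)) (d4 : Cyc f (6 * k + 4) (b + 20) (2 * (n + 1) + 2)) :
    f (6 * k + 6) (b + 20) (2 * n + 2 * k - 12) (2 * n - 7) := by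
  obtain ⟨c, hcb⟩ : ∃ c, c = b + 22 := ⟨_, rfl⟩
  obtain ⟨M, hM4⟩ : ∃ M, M + 4 = n := ⟨n - 4, by omega⟩
  have H : PL f k c n M := by
    subst hcb
    exact PL.of_stack hs S hn (by omega) (by omega) (cyc_mv d0 rfl rfl (by omega)) (cyc_mv d2 rfl rfl (by omega)) d4
  have C6b : Cyc f (6 * k + 6) c (2 * (n + k - 3) + 2) := cyc_mv (S.l6 5) rfl (by omega) (by omega)
  by_contra g0
  have hk := H.T.hk
  have hc := H.T.hc
  have h4' := H.T.h4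
  have hb := H.T.hb
  have hN := H.T.hN2
  obtain ⟨a0, ha0⟩ : ∃ z, z = 6 * k + 3 := ⟨_, rfl⟩
  obtain ⟨b0, hb0⟩ : ∃ z, z + 4 = c := ⟨c - (4), by omega⟩
  obtain ⟨x0, hx0⟩ : ∃ z, z + 13 = 2 * n + 2 * k := ⟨2 * n + 2 * k - (13), by omega⟩
  obtain ⟨y0, hy0⟩ : ∃ z, z + 16 = 2 * n := ⟨2 * n - (16), by omega⟩
  refine check_sound hf (a0 := a0) (b0 := b0) (x0 := x0) (y0 := y0) w0_chk
    ⟨fun h => absurd h (by decide), fun h => absurd h (by decide), fun h => absurd h (by decide), by omega, by omega,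
      by omega, by omega⟩ ?_ ?_
  · intro j m p q hr h
    obtain ⟨-, -, -, -, hp1, hp2, hq1, hq2⟩ := hr
    replace h := of_decide_eq_true h
    rcases h with h | h | h | h | h | h
    · obtain ⟨rfl, rfl, h⟩ := h
      exact (WrapC.v1 H.c4 (by omega) (by omega) (by omega) (by omega) (by omega) (by omega) (by omega) (by omega)).mpr (by omega)
    · obtain ⟨rfl, rfl, h⟩ := h
      exact (WrapC.v3 H.c4a (by omega) (by omega) (by omega) (by omega) (by omega) (by omega) (by omega) (by omega)).mpr (by omega)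
    · obtain ⟨rfl, rfl, h⟩ := h
      exact (WrapC.v4 H.c4a (by omega) (by omega) (by omega) (by omega) (by omega) (by omega) (by omega)).mpr (by omega)
    · obtain ⟨rfl, rfl, h⟩ := h
      exact (WrapC.v1 H.c6 (by omega) (by omega) (by omega) (by omega) (by omega) (by omega) (by omega) (by omega)).mpr (by omega)
    · obtain ⟨rfl, rfl, h⟩ := h
      exact (WrapC.v2 H.c6 (by omega) (by omega) (by omega) (by omega) (by omega) (by omega) (by omega)).mpr (by omega)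
    · obtain ⟨rfl, rfl, h⟩ := h
      exact (WrapC.v0 C6b (by omega) (by omega) (by omega) (by omega) (by omega) (by omega) (by omega)).mpr (by omega)
  · intro j m p q hr h
    obtain ⟨-, -, -, -, hp1, hp2, hq1, hq2⟩ := hr
    replace h := of_decide_eq_true h
    rcases h with h | h | h | h | h | h | h | h
    · obtain ⟨rfl, rfl, h⟩ := h
      exact mt (WrapC.v1 H.c6 (by omega) (by omega) (by omega) (by omega) (by omega) (by omega) (by omega) (by omega)).mp (by omega)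
    · obtain ⟨rfl, rfl, h⟩ := h
      exact mt (WrapC.v2 H.c6 (by omega) (by omega) (by omega) (by omega) (by omega) (by omega) (by omega)).mp (by omega)
    · obtain ⟨rfl, rfl, h⟩ := h
      exact mt (WrapC.v3 H.c6 (by omega) (by omega) (by omega) (by omega) (by omega) (by omega) (by omega) (by omega)).mp (by omega)
    · obtain ⟨rfl, rfl, h⟩ := h
      exact mt (WrapC.v0 C6b (by omega) (by omega) (by omega) (by omega) (by omega) (by omega) (by omega)).mp (by omega)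
    · obtain ⟨rfl, rfl, h⟩ := h
      exact fun t => NHU.pm hf H.U (by omega) (by omega) (by omega) (by omega) (mv t (by omega) rfl rfl rfl)
    · obtain ⟨rfl, rfl, h⟩ := h
      exact NHU.pmi hf H.U (j := 1) (by omega) (by omega) (by omega) (by omega) (by omega) (by omega)
    · obtain ⟨rfl, rfl, h⟩ := h
      exact NHU.pmi hf H.U (j := 1) (by omega) (by omega) (by omega) (by omega) (by omega) (by omega)
    · obtain ⟨rfl, rfl, rfl, rfl⟩ := h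
      exact fun t => g0 (mv t (by omega) (by omega) (by omega) (by omega))

end Pool.Agent.SNT.E1m4
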