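import Pool.Agent.SNT.E1XL
import Pool.Agent.SNT.E1m4W
import Pool.Agent.SNT.E1m4W3
import Pool.Agent.SNT.E1m4W4a
import Pool.Agent.SNT.E1m4W4b
import Pool.Agent.SNT.E1A3

set_option autoImplicit false

/-! `E1` does not occur for the lead `n - 4` of `6 k + 2` (helper89's chain): the skeleton. `c0 = b + 22`, `c = b + 26`. -/

namespace Pool.Agent.SNT.E1m4

open Pool.Agent.SNT Pool.Agent.SNT.Sig Pool.Agent.SNT.Loc Pool.Agent.SNT.LW Pool.Agent.SNT.NHZ Pool.Agent.SNT.DRun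
open Pool.Agent.SNT.D1E Pool.Agent.SNT.E1X

variable {f : ℕ → ℕ → ℕ → ℕ → Prop} {k c n M : ℕ}

/-- from the third cell of the in-line `2 n + 3` of `6 k + 6` to the wall of the row `c + 2` -/
theorem line6' (hf : Rule f) (H : PL f k c n M) (h0 : f (6 * k + 6) c (2 * n + 3) (2 * n + 8 - 2 * k)) {x : ℕ}
    (hx : x % 2 = 0) (h1 : 2 * n + 8 ≤ x) (h2 : x ≤ 2 * n + 2 + 2 * k) : f (6 * k + 6) (c + 2) x (2 * n + 5) := by
  have hk := H.T.hk
  have hc := H.T.hc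
  have hN := H.T.hN2
  have h3 := run6 hf H.T (x := 2 * n + 3) (y0 := 2 * n + 8 - 2 * k) (by omega) (by omega) (by omega) (by omega) h0
    (2 * n + 3 - 1) (by omega) (by omega) (by omega)
  have h4 := wr hf H le_rfl (by omega) h3
  have h5 := E1X.row_run hf (x1 := x) (by omega) (by omega) (by omega) (by omega)
    (fun z h5 h6 h7 => H.T.c2 hf (j := 2) (by omega) (by omega) (by omega) (by omega) (by omega) (by omega)) h4 x
    (by omega) le_rfl hx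
  exact mv h5 rfl rfl rfl (by omega)

/-- no cell on `x = 2 n + 5` of `6 k + 4` -/
theorem x5 (hf : Rule f) (H : PL f k c n M) {y : ℕ} (hy : y % 2 = 0) (h1 : 2 * n + 10 ≤ y + 2 * k) (h2 : y ≤ 2 * n) :
    ¬ f (6 * k + 4) c (2 * n + 5) y := by
  intro h
  have hk := H.T.hk
  have hc := H.T.hc
  have hN := H.T.hN2
  have h5 := DRun.col_run hf (y1 := 2 * n) (by omega) hc (by omega) hy
    (fun z a1 a2 a3 => H.T.c0i hf (j := 3) (by omega) (by omega) (by omega) (by omega) (by omega) (by omega)) h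
    (2 * n) h2 le_rfl (by omega)
  exact E4.beam5 hf H h5

/-- The lines of a window: `X3` and the three beams. -/
structure Ln (f : ℕ → ℕ → ℕ → ℕ → Prop) (k c n : ℕ) : Prop where
  t1 : ∀ y : ℕ, y % 2 = 0 → 2 * n + 8 ≤ y + 2 * k → y + 4 ≤ 2 * n → ¬ f (6 * k + 4) c (2 * n + 1) y
  t2 : XB.X3 f k c n → ∀ y : ℕ, y % 2 = 0 → 2 * n + 6 ≤ y + 2 * k → y + 6 ≤ 2 * n → ¬ f (6 * k + 4) c (2 * n - 1) y
  t3 : XB.X3 f k c n → ∀ y : ℕ, y % 2 = 0 → 2 * n + 8 ≤ y + 2 * k → y + 4 ≤ 2 * n → ¬ f (6 * k + 8) c (2 * n + 1) y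

/-- `W4c` (helper37) -/
def W4c (f : ℕ → ℕ → ℕ → ℕ → Prop) (k c n : ℕ) : Prop :=
  f (6 * k + 3) (c - 2) (2 * n - 4) (2 * n - 2 * k - 2) →
  (∀ x, x % 2 = 0 → 2 * n ≤ x + 12 → x + 4 ≤ 2 * n → f (6 * k + 6) (c - 2) x (2 * n + 1 - 2 * k)) →
  (∀ y, y % 2 = 0 → 2 * n + 6 ≤ y + 2 * k → y + 2 * k ≤ 2 * n + 10 → ¬ f (6 * k + 4) c (2 * n - 1) y) →
  (∀ y, y % 2 = 0 → 2 * n + 8 ≤ y + 2 * k → y + 2 * k ≤ 2 * n + 12 → ¬ f (6 * k + 4) c (2 * n + 1) y) →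
  (∀ y, y % 2 = 0 → 2 * n + 10 ≤ y + 2 * k → y + 2 * k ≤ 2 * n + 16 → ¬ f (6 * k + 4) c (2 * n + 5) y) →
  (∀ y, y % 2 = 0 → 2 * n + 8 ≤ y + 2 * k → y + 2 * k ≤ 2 * n + 12 → ¬ f (6 * k + 8) c (2 * n + 1) y) →
  f (6 * k) c (2 * n - 10) (2 * n - 2 * k - 3)

/-- **The skeleton.** -/
theorem core (hf : Rule f) {k b m n0 M0 n M : ℕ} (hs : Side k b m) (S : Stack6 f k b m 0 0 0 0 0 1)
    (hn0 : n0 = m + 9 + (k + 2) * 4) (H0 : PL f k (b + 22) n0 M0) (hM0 : M0 + 4 = n0) (hn : n = n0 + (k + 2))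
    (H : PL f k (b + 26) n M) (hM : M + 4 = n) (L0 : Ln f k (b + 22) n0) (L : Ln f k (b + 26) n)
    (w4c : W4c f k (b + 26) n)
    (rd : f (6 * k) (b + 26) (2 * n0 + 2 * k - 6) (2 * n0 + 1) → f (6 * k) (b + 26) (2 * n0 + 10) (2 * n0 + 1))
    (a8 : (∀ x : ℕ, x % 2 = 0 → 2 * n0 + 2 ≤ x → x ≤ 2 * n0 + 6 → f (6 * k) (b + 22) x (2 * n0 - 3)) →
      (∀ x : ℕ, x % 2 = 0 → 2 * n0 + 4 ≤ x → x ≤ 2 * n0 + 8 → ¬ f (6 * k) (b + 22) x (2 * n0 - 1)) →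
      f (6 * k) (b + 26) (2 * n0 + 10) (2 * n0 + 1) → False) :
    ¬ f (6 * k + 3) (b + 24) (2 * n - 4) (2 * n - 2 * k - 2) := by
  intro he
  have hk := H.T.hk
  have hc := H.T.hc
  have hN := H.T.hN2
  have hN0 := H0.T.hN2
  have he' : f (6 * k + 3) (b + 26 - 2) (2 * n - 4) (2 * n - 2 * k - 2) := mv he rfl (by omega) rfl rfl
  -- the cycle before: the in-line `- 1` is missing, the in-line `- 3` is present
  have a1 := w1b hf H hM he'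
  have a2 : ¬ f (6 * k + 4) (b + 22) (2 * n0 + 6) (2 * n0 + 1) :=
    run_a hf hs S hn0 (x0 := 2 * n0 + 2 * k - 4) (by omega) (by omega) (by omega) (by omega) (by omega)
      (fun h => a1 (mv h rfl (by omega) (by omega) (by omega)))
  have a3 : ¬ f (6 * k + 4) (b + 20) (2 * n0 - 1) (2 * n0 - 6) := by
    obtain rfl : M0 = n0 - 4 := by omega
    exact fun h => E1A3.a3 hf H0 a2 (mv h rfl (by omega) rfl rfl)
  have a4 : ∀ y : ℕ, y % 2 = 0 → 2 * n0 + 2 ≤ y + 2 * k → y + 6 ≤ 2 * n0 → ¬ f (6 * k + 4) (b + 20) (2 * n0 - 1) y :=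
    fun y hy h1 h2 => run_b hf hs S hn0 (y0 := 2 * n0 - 6) (by omega) hy h1 (by omega) (by omega) a3
  have x30 : XB.X3 f k (b + 22) n0 := by
    refine XB.X3.of hf H0 ?_
    rcases K0L4.k0_L4 hf H0.T H0.U H0.c4a H0.c6a H0.c6 H0.c8a H0.c8 (R := b + 22 - 2) (x := 2 * n0 - 3)
      (y := 2 * n0 + 2 - 2 * k) (by omega) (by omega) (by omega) (by omega) with h | h
    · exact h
    · exact absurd (mv h rfl (by omega) (by omega) rfl) (a4 (2 * n0 + 2 - 2 * k + 2) (by omega) (by omega) (by omega))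
  -- the in-line `2 n + 3` of `6 k + 6`
  have b1 := w3 hf H0 hM0 (fun y hy h1 h2 h => a4 y hy (by omega) (by omega) (mv h rfl (by omega) rfl rfl))
    (fun y hy h1 h2 => L0.t2 x30 y hy (by omega) (by omega)) (fun y hy h1 h2 => L0.t1 y hy (by omega) (by omega))
    (fun y hy h1 h2 => L0.t3 x30 y hy (by omega) (by omega))
  have b2 : ∀ x, x % 2 = 0 → 2 * n ≤ x + 12 → x + 4 ≤ 2 * n → f (6 * k + 6) (b + 26 - 2) x (2 * n + 1 - 2 * k) := by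
    intro x hx h1 h2
    exact mv (line6' hf H0 b1 (x := x) hx (by omega) (by omega)) rfl (by omega) rfl (by omega)
  -- the cycle itself
  have x3 : XB.X3 f k (b + 26) n := XB.X3.of hf H (w1a hf H hM he')
  have xa : ∀ y, y % 2 = 0 → 2 * n + 6 ≤ y + 2 * k → y + 2 * k ≤ 2 * n + 10 → ¬ f (6 * k + 4) (b + 26) (2 * n - 1) y :=
    fun y hy h1 h2 => L.t2 x3 y hy (by omega) (by omega)
  have xb : ∀ y, y % 2 = 0 → 2 * n + 8 ≤ y + 2 * k → y + 2 * k ≤ 2 * n + 12 → ¬ f (6 * k + 4) (b + 26) (2 * n + 1) y :=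
    fun y hy h1 h2 => L.t1 y hy (by omega) (by omega)
  have xc : ∀ y, y % 2 = 0 → 2 * n + 10 ≤ y + 2 * k → y + 2 * k ≤ 2 * n + 16 → ¬ f (6 * k + 4) (b + 26) (2 * n + 5) y :=
    fun y hy h1 h2 => x5 hf H hy (by omega) (by omega)
  have xd : ∀ y, y % 2 = 0 → 2 * n + 8 ≤ y + 2 * k → y + 2 * k ≤ 2 * n + 12 → ¬ f (6 * k + 8) (b + 26) (2 * n + 1) y :=
    fun y hy h1 h2 => L.t3 x3 y hy (by omega) (by omega)
  have c1 := w4a hf H hM (mv he' rfl rfl rfl (by omega)) (fun x hx h1 h2 => b2 x hx (by omega) h2)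
    (fun y hy h1 h2 => xa y hy h1 h2) (fun y hy h1 h2 => xb y hy h1 h2) (fun y hy h1 h2 => xc y hy (by omega) (by omega))
    (fun y hy h1 h2 => xd y hy h1 (by omega))
  have c2 := w4b hf H hM he' b2 xa xb (fun y hy h1 h2 => xc y hy (by omega) h2) xd
  have c3 := w4c he' b2 xa xb xc xd
  -- the three lines of `6 k`
  have d1 : ∀ x : ℕ, x % 2 = 0 → 2 * n0 + 2 ≤ x → x ≤ 2 * n0 + 6 → f (6 * k) (b + 22) x (2 * n0 - 3) :=
    fun x hx h1 h2 => run_c3 hf hs S hn0 (x0 := 2 * n0 + 2 * k - 8) (by omega) hx h1 (by omega) (by omega)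
      (mv c1 rfl (by omega) (by omega) (by omega))
  have d2 : ∀ x : ℕ, x % 2 = 0 → 2 * n0 + 4 ≤ x → x ≤ 2 * n0 + 8 → ¬ f (6 * k) (b + 22) x (2 * n0 - 1) :=
    fun x hx h1 h2 => run_c1 hf hs S hn0 (x0 := 2 * n0 + 2 * k - 6) (by omega) hx (by omega) (by omega) (by omega)
      (fun h => c2 (mv h rfl (by omega) (by omega) (by omega)))
  exact a8 d1 d2 (rd (mv c3 rfl (by omega) (by omega) (by omega)))

end Pool.Agent.SNT.E1m4
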