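import Pool.Agent.SNT.E1m4W4c1
import Pool.Agent.SNT.E1m4W4c2
import Pool.Agent.SNT.E1m4W4c3
import Pool.Agent.SNT.E1m4W4c4

set_option autoImplicit false
set_option synthInstance.maxSize 100000
set_option synthInstance.maxHeartbeats 4000000

/-! (W4c): the out-line `2 n - 2 k - 3` of `6 k` in the row `c` is present at the wall. -/

namespace Pool.Agent.SNT.E1m4

open Pool.Agent.SNT Pool.Agent.SNT.Sig Pool.Agent.SNT.Loc Pool.Agent.SNT.LW Pool.Agent.SNT.NHZ Pool.Agent.SNT.DRun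
open Pool.Agent.SNT.PB Pool.Agent.SNT.D1E

variable {f : ℕ → ℕ → ℕ → ℕ → Prop}

theorem w4c (hf : Rule f) {k c n M : ℕ} (H : PL f k c n M) (hM4 : M + 4 = n)
    (P0 : Cyc f (6 * k) (c - 10) (2 * (n - (k + 9)) + 2))
    (e1 : f (6 * k + 3) (c - 2) (2 * n - 4) (2 * n - 2 * k - 2))
    (l6 : ∀ x, x % 2 = 0 → 2 * n ≤ x + 12 → x + 4 ≤ 2 * n → f (6 * k + 6) (c - 2) x (2 * n + 1 - 2 * k))
    (zb : ∀ y, y % 2 = 0 → 2 * n + 6 ≤ y + 2 * k → y + 2 * k ≤ 2 * n + 10 → ¬ f (6 * k + 4) c (2 * n - 1) y)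
    (zc : ∀ y, y % 2 = 0 → 2 * n + 8 ≤ y + 2 * k → y + 2 * k ≤ 2 * n + 12 → ¬ f (6 * k + 4) c (2 * n + 1) y)
    (zc5 : ∀ y, y % 2 = 0 → 2 * n + 10 ≤ y + 2 * k → y + 2 * k ≤ 2 * n + 12 → ¬ f (6 * k + 4) c (2 * n + 5) y)
    (zd : ∀ y, y % 2 = 0 → 2 * n + 8 ≤ y + 2 * k → y + 2 * k ≤ 2 * n + 12 → ¬ f (6 * k + 8) c (2 * n + 1) y) :
    f (6 * k) c (2 * n - 10) (2 * n - 2 * k - 3) := by
  by_contra g0
  have r1 := w4f1 hf H hM4 P0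
  have r2 := w4f2 hf H hM4 P0
  have r3 := w4f3 hf H hM4 P0
  have r4 := w4f4 hf H hM4 P0
  have r5 := w4f5 hf H hM4 P0
  have r6 := w4f6 hf H hM4 P0
  have r7 := w4f7 hf H hM4 P0
  have r8 := w4f8 hf H hM4 P0
  have q1 := w4a1 hf H hM4 e1 l6 zb zc zc5 zd g0 r1 r2 r3
  have q3 := w4a3 hf H hM4 e1 l6 zb zc zc5 zd g0 r1 r2 r3 q1
  have q2 := w4a2 hf H hM4 e1 l6 zb zc zc5 zd g0 r1 r2 r3 r4 r5 r6 r7 r8 q1 q3
  exact w4fin hf H hM4 q1 q2 q3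

end Pool.Agent.SNT.E1m4
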