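import Pool.Agent.SNT.NWB
import Pool.Agent.SNT.PL

set_option autoImplicit false
set_option synthInstance.maxSize 100000
set_option synthInstance.maxHeartbeats 4000000

/-! Windows next to the diagonal for the layer `6 k` (rows `c - 3 .. c + 4`). -/

namespace Pool.Agent.SNT.E4

open Pool.Agent.SNT Pool.Agent.SNT.Loc Pool.Agent.SNT.LW Pool.Agent.SNT.NHZ Pool.Agent.SNT.NW Pool.Agent.SNT.D1E

variable {f : ℕ → ℕ → ℕ → ℕ → Prop}

theorem a8_S3_chk : check 10 10 21 15 0 0 1 1 2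
    (fun j n p q => decide ((j = 2 ∧ n = 1 ∧ q ≤ p + 0 ∧ p ≤ q + 14 ∧ (p = q ∧ p % 2 = 0))
      ∨ (j = 4 ∧ n = 1 ∧ 5 ≤ p ∧ q ≤ p + 0 ∧ p ≤ q + 14 ∧ (p = q ∧ p % 2 = 1))
      ∨ (j = 4 ∧ n = 2 ∧ 5 ≤ q ∧ q ≤ p + 0 ∧ p ≤ q + 14 ∧ ((p + q) % 2 = 1 ∧ p % 2 = 1))
      ∨ (j = 4 ∧ n = 3 ∧ 7 ≤ q ∧ q ≤ p + 0 ∧ p ≤ q + 14 ∧ (p = q ∧ p % 2 = 0))
      ∨ (j = 6 ∧ n = 2 ∧ 14 ≤ p ∧ q ≤ p + 0 ∧ p ≤ q + 14 ∧ ((p + q) % 2 = 1 ∧ p % 2 = 0))
      ∨ (j = 6 ∧ n = 3 ∧ 15 ≤ p ∧ q ≤ p + 0 ∧ p ≤ q + 14 ∧ (p = q ∧ p % 2 = 1))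
      ∨ (j = 6 ∧ n = 1 ∧ q ≤ p + 0 ∧ p ≤ q + 14 ∧ (p = q ∧ p % 2 = 0))
      ∨ (j = 8 ∧ n = 1 ∧ 3 ≤ p ∧ q ≤ p + 0 ∧ p ≤ q + 14 ∧ (p = q ∧ p % 2 = 1))
      ∨ (j = 8 ∧ n = 2 ∧ 3 ≤ q ∧ q ≤ p + 0 ∧ p ≤ q + 14 ∧ ((p + q) % 2 = 1 ∧ p % 2 = 1))
      ∨ (j = 8 ∧ n = 3 ∧ 5 ≤ q ∧ q ≤ p + 0 ∧ p ≤ q + 14 ∧ (p = q ∧ p % 2 = 0))
      ∨ (j = 10 ∧ n = 2 ∧ 6 ≤ p ∧ q ≤ p + 0 ∧ p ≤ q + 14 ∧ ((p + q) % 2 = 1 ∧ p % 2 = 0))
      ∨ (j = 10 ∧ n = 3 ∧ 7 ≤ p ∧ q ≤ p + 0 ∧ p ≤ q + 14 ∧ (p = q ∧ p % 2 = 1))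
      ∨ (j = 10 ∧ n = 4 ∧ 7 ≤ q ∧ q ≤ p + 0 ∧ p ≤ q + 14 ∧ ((p + q) % 2 = 1 ∧ p % 2 = 1))
      ∨ (j = 10 ∧ n = 5 ∧ 9 ≤ q ∧ q ≤ p + 0 ∧ p ≤ q + 14 ∧ (p = q ∧ p % 2 = 0))
      ∨ (j = 2 ∧ n = 4 ∧ p = 11 ∧ q = 6)
      ∨ (j = 2 ∧ n = 4 ∧ p = 13 ∧ q = 6)
      ∨ (j = 2 ∧ n = 4 ∧ p = 15 ∧ q = 6)
      ∨ (j = 2 ∧ n = 8 ∧ p = 19 ∧ q = 10)
      ∨ (j = 2 ∧ n = 2 ∧ p = 8 ∧ q = 3)
      ∨ (j = 2 ∧ n = 2 ∧ p = 8 ∧ q = 1)
      ∨ (j = 4 ∧ n = 4 ∧ p = 14 ∧ q = 9)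
      ∨ (j = 4 ∧ n = 4 ∧ p = 14 ∧ q = 7)))
    (fun j n p q => decide ((j = 2 ∧ n = 1 ∧ q ≤ p + 0 ∧ p ≤ q + 14 ∧ ¬ (p = q ∧ p % 2 = 0))
      ∨ (j = 4 ∧ n = 1 ∧ 5 ≤ p ∧ q ≤ p + 0 ∧ p ≤ q + 14 ∧ ¬ (p = q ∧ p % 2 = 1))
      ∨ (j = 4 ∧ n = 2 ∧ 5 ≤ q ∧ q ≤ p + 0 ∧ p ≤ q + 14 ∧ ¬ ((p + q) % 2 = 1 ∧ p % 2 = 1))
      ∨ (j = 4 ∧ n = 3 ∧ 7 ≤ q ∧ q ≤ p + 0 ∧ p ≤ q + 14 ∧ ¬ (p = q ∧ p % 2 = 0))
      ∨ (j = 6 ∧ n = 2 ∧ 14 ≤ p ∧ q ≤ p + 0 ∧ p ≤ q + 14 ∧ ¬ ((p + q) % 2 = 1 ∧ p % 2 = 0))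
      ∨ (j = 6 ∧ n = 3 ∧ 15 ≤ p ∧ q ≤ p + 0 ∧ p ≤ q + 14 ∧ ¬ (p = q ∧ p % 2 = 1))
      ∨ (j = 6 ∧ n = 1 ∧ q ≤ p + 0 ∧ p ≤ q + 14 ∧ ¬ (p = q ∧ p % 2 = 0))
      ∨ (j = 8 ∧ n = 1 ∧ 3 ≤ p ∧ q ≤ p + 0 ∧ p ≤ q + 14 ∧ ¬ (p = q ∧ p % 2 = 1))
      ∨ (j = 8 ∧ n = 2 ∧ 3 ≤ q ∧ q ≤ p + 0 ∧ p ≤ q + 14 ∧ ¬ ((p + q) % 2 = 1 ∧ p % 2 = 1))
      ∨ (j = 8 ∧ n = 3 ∧ 5 ≤ q ∧ q ≤ p + 0 ∧ p ≤ q + 14 ∧ ¬ (p = q ∧ p % 2 = 0))
      ∨ (j = 10 ∧ n = 2 ∧ 6 ≤ p ∧ q ≤ p + 0 ∧ p ≤ q + 14 ∧ ¬ ((p + q) % 2 = 1 ∧ p % 2 = 0))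
      ∨ (j = 10 ∧ n = 3 ∧ 7 ≤ p ∧ q ≤ p + 0 ∧ p ≤ q + 14 ∧ ¬ (p = q ∧ p % 2 = 1))
      ∨ (j = 10 ∧ n = 4 ∧ 7 ≤ q ∧ q ≤ p + 0 ∧ p ≤ q + 14 ∧ ¬ ((p + q) % 2 = 1 ∧ p % 2 = 1))
      ∨ (j = 10 ∧ n = 5 ∧ 9 ≤ q ∧ q ≤ p + 0 ∧ p ≤ q + 14 ∧ ¬ (p = q ∧ p % 2 = 0))
      ∨ (j = 1 ∧ n = 1 ∧ q ≤ p + 0)
      ∨ (j = 2 ∧ n = 1 ∧ 2 ≤ p ∧ p ≤ q + 11 ∧ q + 4 ≤ p)
      ∨ (j = 2 ∧ n = 1 ∧ p ≤ q + 12 ∧ q + 3 ≤ p)
      ∨ (j = 3 ∧ n = 1 ∧ 5 ≤ p ∧ p ≤ q + 11 ∧ q + 4 ≤ p)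
      ∨ (j = 3 ∧ n = 1 ∧ 3 ≤ q ∧ p ≤ q + 12 ∧ q + 3 ≤ p)
      ∨ (j = 3 ∧ n = 1 ∧ 2 ≤ p ∧ p ≤ q + 11 ∧ q + 4 ≤ p)
      ∨ (j = 3 ∧ n = 1 ∧ p ≤ q + 12 ∧ q + 3 ≤ p)
      ∨ (j = 4 ∧ n = 1 ∧ 2 ≤ p ∧ p ≤ q + 12 ∧ q + 3 ≤ p)
      ∨ (j = 4 ∧ n = 1 ∧ p ≤ q + 13 ∧ q + 2 ≤ p)
      ∨ (j = 5 ∧ n = 1 ∧ 5 ≤ p ∧ p ≤ q + 12 ∧ q + 3 ≤ p)
      ∨ (j = 5 ∧ n = 1 ∧ 3 ≤ q ∧ p ≤ q + 13 ∧ q + 2 ≤ p)
      ∨ (j = 5 ∧ n = 1 ∧ 2 ≤ p ∧ p ≤ q + 12 ∧ q + 3 ≤ p)
      ∨ (j = 5 ∧ n = 1 ∧ p ≤ q + 13 ∧ q + 2 ≤ p)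
      ∨ (j = 6 ∧ n = 1 ∧ 2 ≤ p ∧ p ≤ q + 13 ∧ q + 2 ≤ p)
      ∨ (j = 6 ∧ n = 1 ∧ p ≤ q + 14 ∧ q + 1 ≤ p)
      ∨ (j = 7 ∧ n = 1 ∧ 5 ≤ p ∧ p ≤ q + 13 ∧ q + 2 ≤ p)
      ∨ (j = 7 ∧ n = 1 ∧ 3 ≤ q ∧ p ≤ q + 14 ∧ q + 1 ≤ p)
      ∨ (j = 7 ∧ n = 1 ∧ 2 ≤ p ∧ p ≤ q + 13 ∧ q + 2 ≤ p)
      ∨ (j = 7 ∧ n = 1 ∧ p ≤ q + 14 ∧ q + 1 ≤ p)
      ∨ (j = 8 ∧ n = 1 ∧ 2 ≤ p ∧ p ≤ q + 14 ∧ q + 1 ≤ p)
      ∨ (j = 9 ∧ n = 1 ∧ 5 ≤ p ∧ p ≤ q + 14 ∧ q + 1 ≤ p)
      ∨ (j = 9 ∧ n = 1 ∧ 2 ≤ p ∧ p ≤ q + 14 ∧ q + 1 ≤ p)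
      ∨ (j = 1 ∧ n = 2 ∧ q ≤ p + 0)
      ∨ (j = 3 ∧ n = 2 ∧ 5 ≤ p ∧ p ≤ q + 11 ∧ q + 4 ≤ p)
      ∨ (j = 3 ∧ n = 2 ∧ 3 ≤ q ∧ p ≤ q + 12 ∧ q + 3 ≤ p)
      ∨ (j = 5 ∧ n = 2 ∧ 5 ≤ p ∧ p ≤ q + 12 ∧ q + 3 ≤ p)
      ∨ (j = 5 ∧ n = 2 ∧ 3 ≤ q ∧ p ≤ q + 13 ∧ q + 2 ≤ p)
      ∨ (j = 7 ∧ n = 2 ∧ 5 ≤ p ∧ p ≤ q + 13 ∧ q + 2 ≤ p)
      ∨ (j = 7 ∧ n = 2 ∧ 3 ≤ q ∧ p ≤ q + 14 ∧ q + 1 ≤ p)
      ∨ (j = 9 ∧ n = 2 ∧ 5 ≤ p ∧ p ≤ q + 14 ∧ q + 1 ≤ p)
      ∨ (j = 1 ∧ n = 3 ∧ q ≤ p + 0)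
      ∨ (j = 2 ∧ n = 3 ∧ 6 ≤ p ∧ p ≤ q + 10 ∧ q + 5 ≤ p)
      ∨ (j = 2 ∧ n = 3 ∧ 4 ≤ q ∧ p ≤ q + 11 ∧ q + 4 ≤ p)
      ∨ (j = 3 ∧ n = 3 ∧ 6 ≤ p ∧ p ≤ q + 10 ∧ q + 5 ≤ p)
      ∨ (j = 3 ∧ n = 3 ∧ 4 ≤ q ∧ p ≤ q + 11 ∧ q + 4 ≤ p)
      ∨ (j = 3 ∧ n = 3 ∧ 11 ≤ p ∧ p ≤ q + 10 ∧ q + 5 ≤ p)
      ∨ (j = 3 ∧ n = 3 ∧ 7 ≤ q ∧ p ≤ q + 11 ∧ q + 4 ≤ p)
      ∨ (j = 4 ∧ n = 3 ∧ 6 ≤ p ∧ p ≤ q + 11 ∧ q + 4 ≤ p)
      ∨ (j = 4 ∧ n = 3 ∧ 4 ≤ q ∧ p ≤ q + 12 ∧ q + 3 ≤ p)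
      ∨ (j = 5 ∧ n = 3 ∧ 6 ≤ p ∧ p ≤ q + 11 ∧ q + 4 ≤ p)
      ∨ (j = 5 ∧ n = 3 ∧ 4 ≤ q ∧ p ≤ q + 12 ∧ q + 3 ≤ p)
      ∨ (j = 5 ∧ n = 3 ∧ 11 ≤ p ∧ p ≤ q + 11 ∧ q + 4 ≤ p)
      ∨ (j = 5 ∧ n = 3 ∧ 7 ≤ q ∧ p ≤ q + 12 ∧ q + 3 ≤ p)
      ∨ (j = 6 ∧ n = 3 ∧ 6 ≤ p ∧ p ≤ q + 12 ∧ q + 3 ≤ p)
      ∨ (j = 6 ∧ n = 3 ∧ 4 ≤ q ∧ p ≤ q + 13 ∧ q + 2 ≤ p)
      ∨ (j = 7 ∧ n = 3 ∧ 6 ≤ p ∧ p ≤ q + 12 ∧ q + 3 ≤ p)
      ∨ (j = 7 ∧ n = 3 ∧ 4 ≤ q ∧ p ≤ q + 13 ∧ q + 2 ≤ p)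
      ∨ (j = 7 ∧ n = 3 ∧ 11 ≤ p ∧ p ≤ q + 12 ∧ q + 3 ≤ p)
      ∨ (j = 7 ∧ n = 3 ∧ 7 ≤ q ∧ p ≤ q + 13 ∧ q + 2 ≤ p)
      ∨ (j = 8 ∧ n = 3 ∧ 6 ≤ p ∧ p ≤ q + 13 ∧ q + 2 ≤ p)
      ∨ (j = 8 ∧ n = 3 ∧ 4 ≤ q ∧ p ≤ q + 14 ∧ q + 1 ≤ p)
      ∨ (j = 9 ∧ n = 3 ∧ 6 ≤ p ∧ p ≤ q + 13 ∧ q + 2 ≤ p)
      ∨ (j = 9 ∧ n = 3 ∧ 4 ≤ q ∧ p ≤ q + 14 ∧ q + 1 ≤ p)
      ∨ (j = 9 ∧ n = 3 ∧ 11 ≤ p ∧ p ≤ q + 13 ∧ q + 2 ≤ p)
      ∨ (j = 9 ∧ n = 3 ∧ 7 ≤ q ∧ p ≤ q + 14 ∧ q + 1 ≤ p)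
      ∨ (j = 10 ∧ n = 3 ∧ 6 ≤ p ∧ p ≤ q + 14 ∧ q + 1 ≤ p)
      ∨ (j = 1 ∧ n = 4 ∧ q ≤ p + 0)
      ∨ (j = 3 ∧ n = 4 ∧ 11 ≤ p ∧ p ≤ q + 10 ∧ q + 5 ≤ p)
      ∨ (j = 3 ∧ n = 4 ∧ 7 ≤ q ∧ p ≤ q + 11 ∧ q + 4 ≤ p)
      ∨ (j = 5 ∧ n = 4 ∧ 11 ≤ p ∧ p ≤ q + 11 ∧ q + 4 ≤ p)
      ∨ (j = 5 ∧ n = 4 ∧ 7 ≤ q ∧ p ≤ q + 12 ∧ q + 3 ≤ p)
      ∨ (j = 7 ∧ n = 4 ∧ 11 ≤ p ∧ p ≤ q + 12 ∧ q + 3 ≤ p)
      ∨ (j = 7 ∧ n = 4 ∧ 7 ≤ q ∧ p ≤ q + 13 ∧ q + 2 ≤ p)
      ∨ (j = 9 ∧ n = 4 ∧ 11 ≤ p ∧ p ≤ q + 13 ∧ q + 2 ≤ p)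
      ∨ (j = 9 ∧ n = 4 ∧ 7 ≤ q ∧ p ≤ q + 14 ∧ q + 1 ≤ p)
      ∨ (j = 1 ∧ n = 5 ∧ q ≤ p + 0)
      ∨ (j = 2 ∧ n = 5 ∧ 12 ≤ p ∧ p ≤ q + 9 ∧ q + 6 ≤ p)
      ∨ (j = 2 ∧ n = 5 ∧ 8 ≤ q ∧ p ≤ q + 10 ∧ q + 5 ≤ p)
      ∨ (j = 3 ∧ n = 5 ∧ 12 ≤ p ∧ p ≤ q + 9 ∧ q + 6 ≤ p)
      ∨ (j = 3 ∧ n = 5 ∧ 8 ≤ q ∧ p ≤ q + 10 ∧ q + 5 ≤ p)
      ∨ (j = 3 ∧ n = 5 ∧ 13 ≤ q ∧ p ≤ q + 10 ∧ q + 5 ≤ p)
      ∨ (j = 4 ∧ n = 5 ∧ 12 ≤ p ∧ p ≤ q + 10 ∧ q + 5 ≤ p)
      ∨ (j = 4 ∧ n = 5 ∧ 8 ≤ q ∧ p ≤ q + 11 ∧ q + 4 ≤ p)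
      ∨ (j = 5 ∧ n = 5 ∧ 12 ≤ p ∧ p ≤ q + 10 ∧ q + 5 ≤ p)
      ∨ (j = 5 ∧ n = 5 ∧ 8 ≤ q ∧ p ≤ q + 11 ∧ q + 4 ≤ p)
      ∨ (j = 5 ∧ n = 5 ∧ 13 ≤ q ∧ p ≤ q + 11 ∧ q + 4 ≤ p)
      ∨ (j = 6 ∧ n = 5 ∧ 12 ≤ p ∧ p ≤ q + 11 ∧ q + 4 ≤ p)
      ∨ (j = 6 ∧ n = 5 ∧ 8 ≤ q ∧ p ≤ q + 12 ∧ q + 3 ≤ p)
      ∨ (j = 7 ∧ n = 5 ∧ 12 ≤ p ∧ p ≤ q + 11 ∧ q + 4 ≤ p)
      ∨ (j = 7 ∧ n = 5 ∧ 8 ≤ q ∧ p ≤ q + 12 ∧ q + 3 ≤ p)
      ∨ (j = 7 ∧ n = 5 ∧ 13 ≤ q ∧ p ≤ q + 12 ∧ q + 3 ≤ p)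
      ∨ (j = 8 ∧ n = 5 ∧ 12 ≤ p ∧ p ≤ q + 12 ∧ q + 3 ≤ p)
      ∨ (j = 8 ∧ n = 5 ∧ 8 ≤ q ∧ p ≤ q + 13 ∧ q + 2 ≤ p)
      ∨ (j = 9 ∧ n = 5 ∧ 12 ≤ p ∧ p ≤ q + 12 ∧ q + 3 ≤ p)
      ∨ (j = 9 ∧ n = 5 ∧ 8 ≤ q ∧ p ≤ q + 13 ∧ q + 2 ≤ p)
      ∨ (j = 9 ∧ n = 5 ∧ 13 ≤ q ∧ p ≤ q + 13 ∧ q + 2 ≤ p)
      ∨ (j = 10 ∧ n = 5 ∧ 12 ≤ p ∧ p ≤ q + 13 ∧ q + 2 ≤ p)
      ∨ (j = 10 ∧ n = 5 ∧ 8 ≤ q ∧ p ≤ q + 14 ∧ q + 1 ≤ p)
      ∨ (j = 1 ∧ n = 6 ∧ q ≤ p + 0)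
      ∨ (j = 3 ∧ n = 6 ∧ 13 ≤ q ∧ p ≤ q + 10 ∧ q + 5 ≤ p)
      ∨ (j = 5 ∧ n = 6 ∧ 13 ≤ q ∧ p ≤ q + 11 ∧ q + 4 ≤ p)
      ∨ (j = 7 ∧ n = 6 ∧ 13 ≤ q ∧ p ≤ q + 12 ∧ q + 3 ≤ p)
      ∨ (j = 9 ∧ n = 6 ∧ 13 ≤ q ∧ p ≤ q + 13 ∧ q + 2 ≤ p)
      ∨ (j = 1 ∧ n = 7 ∧ q ≤ p + 0)
      ∨ (j = 1 ∧ n = 8 ∧ q ≤ p + 0)
      ∨ (j = 2 ∧ n = 4 ∧ p = 13 ∧ q = 8)
      ∨ (j = 2 ∧ n = 4 ∧ p = 15 ∧ q = 8)
      ∨ (j = 2 ∧ n = 4 ∧ p = 17 ∧ q = 8)))
    902
    0xdca030e67800f05aa0f04800f04810e5e800ef4800e5e810ef50a0db8800db1800db8810db1810db7800da28013e65213ca4a0d9b0e0ef4850e56800ef50a0e570a0e4e030da8000da8010fa083103e8010469a10e480118a3a119180118a80119912118b0a10ed0e0fa083103e8010469a10e48010ec9a10f40010ed0010ed0e10ed04118b8011a08011a08e11a8120fa083103e8010469a10e48010ec9a10ed0010f40010ed8a10fb9210ee0011030011030e11030410f38e103f03103f8010468010479a104e9a10e58010f38010f38e10f38410e60e104883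10e60010e604103f03103f8010468010400a104e1210408010558010489a105d9a10e68011028011028e11028411af8011b712103f03103f8010468010400a104e1210408010558010410a105d1210418010648010648e106c9a11118011118410748311120011120411be8011c612103f03103f8010468010400a104e1210408010558010410a105d1210418010648010648e106c12107380107b9a1120801120841083831121001121040f99030f99800f99840fa10e0fa0830fa1000fa1040ef3030f91000f91040efa830f98800f98841522030ef2800ef2840efa831521801521840f8b0e0ee6030f8b000f8b040f018e1531030f01800f0184150d8e0ee683150d80150d8415140e1b43831514001514042173031b43801b438415298e0f028315298015298415150e1b44831515001515040eee831515801515840f2a800f2a810f150e0f14830f15000f15040e778e0dda030e77800e77840dd1830e6f800e6f841b678e1c14831b67801b67840e700e0dd2830e70000e70040fb1800fb1810f05000f13000f05010f13010e758e0dd8030e75800e75840da8800da8810da7800da7840f04000e4e800f04010e569a0e5e000e570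00e570e0e57040db8000daa000db8010daa010db7000d9b000d9b0e0d9b040e600e0dc2830e60000e60040dca030dca800dca840e780e0dda030e78000e78040e6e800e6e810dc1800ef5800dc88013e8c20f06000f0a800ef60a0db2801a178013efc21a08801a07800f22000f220e0f12120ef6800dc7800dc78e0da380218f0e218e8e21878e20f18e20f10e20ea0e20e98e1b7e801aca8e1aca0e1ac98e1ac30e1ac28e1ac20e1abb0e1aba8e1ab4801ab30e1a1e801a1e8e1a1d801a1d8e1a0e8e15408e15400e14a30e14a28e149b8e149b0e14938e13e60e13e58e13de8e13de0e13488e13480e13410e13408e11cd800f29920f19800f198e0e7c8e0e748e0e740e0e738e0e6c8e0e6c0e0e6b8e0e648e0e640e13f6520dc6800dc68e0d4a8e0d4a0e0d498e0d428e0d420e0d3b800d3b0e0d3a8e0d3a0e0d398e0d328e0d320e0d2b800d2b0e0d2a8e0d218e0d210e0d1b800d1b0e0d1a8e0d1a0e0d198e0d128e0d0b800cfb800b720e0b718e0b6a8e0b6a0e0b628e0ad48e0ad40e0acd0e0acc8e0ac50e0a370e0a368e0a360e0a358e0a2f8e0a2f0e0a2e8e0a2e0e0a278e0a270e0a268e0a1f8e0a1f0e0a178e09990e0998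8e09980e09918e09910e09908e098a0e09898e09890e09820e09818e097a0e08f48e08f40e08f38e08f30e08ec8e08ec0e08eb8e08eb0e08ea8e08ea0e08e48e08e40e08e38e08e30e08e28e08e20e08dc8e08dc0e08db8e08db0e08da8e08d48e08d40e08d38e08d30e08570e08568e08560e08558e084f0e084e8e084e0e084d8e084d0e084c8e08470e08468e08460e08458e08450e08448e083f0e083e8e083e0e083d8e083d0e08370e08368e08360e08358e082f0e07c10e07c08e07c00e07b98e07b90e07b88e07b18e07b10e07b08e07b00e07a98e07a90e07a88e07998e07990e07918e07910e07908e07898e07890e07238e07230e07228e071c0e071b8e071b0e07140e07138e07130e07128e070c0e070b8e070b0e06f40e06f38e06f30e06ec0e06eb8e218f07218e8721878720f18720f10720ea0720e9871c14871c14071c0d071c0c871b7e8f1b77071b4c071b3d071b3c071aca871aca071ac9871ac3071ac2871ac2071abb071aba871ab48f1ab3071a1e8f1a1d8f1a0e8f15ed8715ed0715e587155007154f8715488715480715408715400714a30714a287149b87149b07149387149307148b8713f60713f58713e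e8713ee0713e60713e58713de8713de0713588713580713510713508713488713480713410713408711cd8f11be0711af0711a0071191071183071182071083071074071065071064071056071055071048071047071046071039071038071037070fe6070fe5870fde870fde070fdd870fd7070fd6870fd6070fcf070fce870fce070fc7070fc6870f2a070f29870f29070f198f0f0d070f0c070f0b070f0a070efe070efd070efc070efb070efa070eee070eed070eeb070edf070ede070e8c870e8c070e8b870e84870e84070e7c870e74870e74070e73870e6c870e6c070e6b870e64870e64070dd2070dd1070dd0070dcf070dc68f0dc2070dc1070dbf070db2070db1070db0070da3070da2070da1070da0070d4a870d4a070d49870d42870d42070d3b8f0d3b070d3a870d3a070d39870d33870d33070d32870d32070d31870d31070d2b8f0d2b070d2a870d2a070d29870d23870d23070d21870d21070d1b8f0d1b070d1a870d1a070d19870d13870d13070d12870d0b8f0d0b070d0a870d0a070d03870d03070d02870cfb8f0b9f070b9e870b97870b97070b90070b8f870b88870b88070b81070b80870b79870b79070b72070b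71870b6a870b6a070b63070b62870b5b070b01870b01070afa070af9870af2870af2070aeb070aea870ae3870ae3070adc070adb870ad4870ad4070acd070acc870ac5870ac5070abd870a5c870a5c070a55070a54870a54070a4d870a4d070a4c870a46070a45870a45070a44870a3e070a3d870a3d070a37070a36870a36070a35870a2f870a2f070a2e870a2e070a28070a27870a27070a26870a20070a1f870a1f070a18070a17870a100709bf0709be8709b78709b70709b68709b00709af8709af0709a88709a80709a78709a70709a08709a007099f87099907099887099807099187099107099087098a87098a07098987098907098287098207098187097a87097a07097987097907097287097207097187096a87096a0709038709030709028709020708fc0708fb8708fb0708fa8708f48708f40708f38708f30708ed0708ec8708ec0708eb8708eb0708ea8708ea0708e50708e48708e40708e38708e30708e28708e20708dd0708dc8708dc0708db8708db0708da8708d50708d48708d40708d38708d30708cd0708cc8708cc0708cb8708c48708c407086607086587086507086487085e87085e07085d87085d070857070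85687085607085587084f87084f07084e87084e07084d87084d07084c87084787084707084687084607084587084507084487083f87083f07083e87083e07083d87083d07083787083707083687083607083587082f87082f07082e87082e07082787082707082687081f87081f0707c10707c08707c00707b98707b90707b88707b18707b10707b08707b00707aa0707a98707a90707a88707a207079a07079987079907079207079187079107079087078a07078987078907078207078187078107078087077a07077987077907072387072307072287071c07071b87071b07071407071387071307071287070c87070c07070b87070b0706f40706f38706f30706ec8706ec0706eb8706e40706e38706e30706dc8706dc0706db87 = true := by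
  decide +kernel

theorem a8_S3 (hf : Rule f) {k c n : ℕ} (H : PL f k c n (n - 4))
    (g2 : f (6 * k) (c) (2 * n + 4) (2 * n - 3))
    (g3 : f (6 * k) (c) (2 * n + 6) (2 * n - 3))
    (g4 : ¬ f (6 * k) (c) (2 * n + 4) (2 * n - 1))
    (g5 : ¬ f (6 * k) (c) (2 * n + 6) (2 * n - 1))
    (g6 : ¬ f (6 * k) (c) (2 * n + 8) (2 * n - 1))
    (g7 : f (6 * k) (c + 4) (2 * n + 10) (2 * n + 1))
    (t2 : f (6 * k) (c - 2) (2 * n - 1) (2 * n - 6))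
    (t3 : f (6 * k) (c - 2) (2 * n - 1) (2 * n - 8))
    (u4 : f (6 * k + 2) (c) (2 * n + 5) (2 * n))
    (u5 : f (6 * k + 2) (c) (2 * n + 5) (2 * n - 2)) :
    ¬ f (6 * k) (c) (2 * n + 2) (2 * n - 3) := by
  intro hg
  have hk := H.T.hk
  have hc := H.T.hc
  have h4 := H.T.h4
  have hb := H.T.hb
  have hN := H.T.hN2
  have hg' : ∀ M R x y : ℕ, M = 6 * k → R = c → x = 2 * n + 2 → y = 2 * n - 3 → f M R x y := by
    intro M R x y e1 e2 e3 e4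
    rw [e1, e2, e3, e4]
    exact hg
  clear hg
  have g2' : ∀ M R x y : ℕ, M = 6 * k → R = c → x = 2 * n + 4 → y = 2 * n - 3 → f M R x y := by
    intro M R x y e1 e2 e3 e4
    rw [e1, e2, e3, e4]
    exact g2
  clear g2
  have g3' : ∀ M R x y : ℕ, M = 6 * k → R = c → x = 2 * n + 6 → y = 2 * n - 3 → f M R x y := by
    intro M R x y e1 e2 e3 e4
    rw [e1, e2, e3, e4]
    exact g3
  clear g3
  have g4' : ∀ M R x y : ℕ, M = 6 * k → R = c → x = 2 * n + 4 → y = 2 * n - 1 → ¬ f M R x y := by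
    intro M R x y e1 e2 e3 e4
    rw [e1, e2, e3, e4]
    exact g4
  clear g4
  have g5' : ∀ M R x y : ℕ, M = 6 * k → R = c → x = 2 * n + 6 → y = 2 * n - 1 → ¬ f M R x y := by
    intro M R x y e1 e2 e3 e4
    rw [e1, e2, e3, e4]
    exact g5
  clear g5
  have g6' : ∀ M R x y : ℕ, M = 6 * k → R = c → x = 2 * n + 8 → y = 2 * n - 1 → ¬ f M R x y := by
    intro M R x y e1 e2 e3 e4
    rw [e1, e2, e3, e4]
    exact g6
  clear g6
  have g7' : ∀ M R x y : ℕ, M = 6 * k → R = c + 4 → x = 2 * n + 10 → y = 2 * n + 1 → f M R x y := by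
    intro M R x y e1 e2 e3 e4
    rw [e1, e2, e3, e4]
    exact g7
  clear g7
  have t2' : ∀ M R x y : ℕ, M = 6 * k → R = c - 2 → x = 2 * n - 1 → y = 2 * n - 6 → f M R x y := by
    intro M R x y e1 e2 e3 e4
    rw [e1, e2, e3, e4]
    exact t2
  clear t2
  have t3' : ∀ M R x y : ℕ, M = 6 * k → R = c - 2 → x = 2 * n - 1 → y = 2 * n - 8 → f M R x y := by
    intro M R x y e1 e2 e3 e4
    rw [e1, e2, e3, e4]
    exact t3
  clear t3
  have u4' : ∀ M R x y : ℕ, M = 6 * k + 2 → R = c → x = 2 * n + 5 → y = 2 * n → f M R x y := by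
    intro M R x y e1 e2 e3 e4
    rw [e1, e2, e3, e4]
    exact u4
  clear u4
  have u5' : ∀ M R x y : ℕ, M = 6 * k + 2 → R = c → x = 2 * n + 5 → y = 2 * n - 2 → f M R x y := by
    intro M R x y e1 e2 e3 e4
    rw [e1, e2, e3, e4]
    exact u5
  clear u5
  obtain ⟨a0, ha0⟩ : ∃ z, z + 2 = 6 * k := ⟨6 * k - 2, by omega⟩
  obtain ⟨b0, hb0⟩ : ∃ z, z + 4 = c := ⟨c - 4, by omega⟩
  obtain ⟨x0, hx0⟩ : ∃ z, z + 9 = 2 * n := ⟨2 * n - 9, by omega⟩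
  obtain ⟨y0, hy0⟩ : ∃ z, z + 9 = 2 * n := ⟨2 * n - 9, by omega⟩
  refine check_sound hf (a0 := a0) (b0 := b0) (x0 := x0) (y0 := y0) a8_S3_chk
    ⟨fun _ => by omega, fun h => absurd h (by decide), fun h => absurd h (by decide), by omega, by omega,
      by omega, by omega⟩ ?_ ?_
  · intro j m p q hr h
    obtain ⟨-, -, -, -, hp1, hp2, hq1, hq2⟩ := hr
    replace h := of_decide_eq_true h
    rcases h with h | h | h | h | h | h | h | h | h | h | h | h | h | h | h | h | h | h | h | h | h | h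
    · obtain ⟨rfl, rfl, h⟩ := h
      exact (WrapC.v3 H.c0 (by omega) (by omega) (by omega) (by omega) (by omega) (by omega) (by omega) (by omega)).mpr (by omega)
    · obtain ⟨rfl, rfl, h⟩ := h
      exact (WrapC.v1 H.c2 (by omega) (by omega) (by omega) (by omega) (by omega) (by omega) (by omega) (by omega)).mpr (by omega)
    · obtain ⟨rfl, rfl, h⟩ := h
      exact (WrapC.v2 H.c2 (by omega) (by omega) (by omega) (by omega) (by omega) (by omega) (by omega)).mpr (by omega)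
    · obtain ⟨rfl, rfl, h⟩ := h
      exact (WrapC.v3 H.c2 (by omega) (by omega) (by omega) (by omega) (by omega) (by omega) (by omega) (by omega)).mpr (by omega)
    · obtain ⟨rfl, rfl, h⟩ := h
      exact (WrapC.v0 H.c4 (by omega) (by omega) (by omega) (by omega) (by omega) (by omega) (by omega)).mpr (by omega)
    · obtain ⟨rfl, rfl, h⟩ := h
      exact (WrapC.v1 H.c4 (by omega) (by omega) (by omega) (by omega) (by omega) (by omega) (by omega) (by omega)).mpr (by omega)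
    · obtain ⟨rfl, rfl, h⟩ := h
      exact (WrapC.v3 H.c4a (by omega) (by omega) (by omega) (by omega) (by omega) (by omega) (by omega) (by omega)).mpr (by omega)
    · obtain ⟨rfl, rfl, h⟩ := h
      exact (WrapC.v1 H.c6 (by omega) (by omega) (by omega) (by omega) (by omega) (by omega) (by omega) (by omega)).mpr (by omega)
    · obtain ⟨rfl, rfl, h⟩ := h
      exact (WrapC.v2 H.c6 (by omega) (by omega) (by omega) (by omega) (by omega) (by omega) (by omega)).mpr (by omega)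
    · obtain ⟨rfl, rfl, h⟩ := h
      exact (WrapC.v3 H.c6 (by omega) (by omega) (by omega) (by omega) (by omega) (by omega) (by omega) (by omega)).mpr (by omega)
    · obtain ⟨rfl, rfl, h⟩ := h
      exact (w0v H.c8 (by omega) (by omega) (by omega) (by omega) (by omega) (by omega) (by omega)).mpr (by omega)
    · obtain ⟨rfl, rfl, h⟩ := h
      exact (w1v H.c8 (by omega) (by omega) (by omega) (by omega) (by omega) (by omega) (by omega) (by omega)).mpr (by omega)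
    · obtain ⟨rfl, rfl, h⟩ := h
      exact (w2v H.c8 (by omega) (by omega) (by omega) (by omega) (by omega) (by omega) (by omega)).mpr (by omega)
    · obtain ⟨rfl, rfl, h⟩ := h
      exact (w3v H.c8 (by omega) (by omega) (by omega) (by omega) (by omega) (by omega) (by omega) (by omega)).mpr (by omega)
    · obtain ⟨rfl, rfl, rfl, rfl⟩ := h
      exact hg' _ _ _ _ (by omega) (by omega) (by omega) (by omega)
    · obtain ⟨rfl, rfl, rfl, rfl⟩ := h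
      exact g2' _ _ _ _ (by omega) (by omega) (by omega) (by omega)
    · obtain ⟨rfl, rfl, rfl, rfl⟩ := h
      exact g3' _ _ _ _ (by omega) (by omega) (by omega) (by omega)
    · obtain ⟨rfl, rfl, rfl, rfl⟩ := h
      exact g7' _ _ _ _ (by omega) (by omega) (by omega) (by omega)
    · obtain ⟨rfl, rfl, rfl, rfl⟩ := h
      exact t2' _ _ _ _ (by omega) (by omega) (by omega) (by omega)
    · obtain ⟨rfl, rfl, rfl, rfl⟩ := h
      exact t3' _ _ _ _ (by omega) (by omega) (by omega) (by omega)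
    · obtain ⟨rfl, rfl, rfl, rfl⟩ := h
      exact u4' _ _ _ _ (by omega) (by omega) (by omega) (by omega)
    · obtain ⟨rfl, rfl, rfl, rfl⟩ := h
      exact u5' _ _ _ _ (by omega) (by omega) (by omega) (by omega)
  · intro j m p q hr h
    obtain ⟨-, -, -, -, hp1, hp2, hq1, hq2⟩ := hr
    replace h := of_decide_eq_true h
    rcases h with h | h | h | h | h | h | h | h | h | h | h | h | h | h | h | h | h | h | h | h | h | h | h | h | h | h | h | h | h | h | h | h | h | h | h | h | h | h | h | h | h | h | h | h | h | h | h | h | h | h | h | h | h | h | h | h | h | h | h | h | h | h | h | h | h | h | h | h | h | h | h | h | h | h | h | h | h | h | h | h | h | h | h | h | h | h | h | h | h | h | h | h | h | h | h | h | h | h | h | h | h | h | h | h | h | h | h | h | h | h | h | h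
    · obtain ⟨rfl, rfl, h⟩ := h
      exact mt (WrapC.v3 H.c0 (by omega) (by omega) (by omega) (by omega) (by omega) (by omega) (by omega) (by omega)).mp (by omega)
    · obtain ⟨rfl, rfl, h⟩ := h
      exact mt (WrapC.v1 H.c2 (by omega) (by omega) (by omega) (by omega) (by omega) (by omega) (by omega) (by omega)).mp (by omega)
    · obtain ⟨rfl, rfl, h⟩ := h
      exact mt (WrapC.v2 H.c2 (by omega) (by omega) (by omega) (by omega) (by omega) (by omega) (by omega)).mp (by omega)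
    · obtain ⟨rfl, rfl, h⟩ := h
      exact mt (WrapC.v3 H.c2 (by omega) (by omega) (by omega) (by omega) (by omega) (by omega) (by omega) (by omega)).mp (by omega)
    · obtain ⟨rfl, rfl, h⟩ := h
      exact mt (WrapC.v0 H.c4 (by omega) (by omega) (by omega) (by omega) (by omega) (by omega) (by omega)).mp (by omega)
    · obtain ⟨rfl, rfl, h⟩ := h
      exact mt (WrapC.v1 H.c4 (by omega) (by omega) (by omega) (by omega) (by omega) (by omega) (by omega) (by omega)).mp (by omega)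
    · obtain ⟨rfl, rfl, h⟩ := h
      exact mt (WrapC.v3 H.c4a (by omega) (by omega) (by omega) (by omega) (by omega) (by omega) (by omega) (by omega)).mp (by omega)
    · obtain ⟨rfl, rfl, h⟩ := h
      exact mt (WrapC.v1 H.c6 (by omega) (by omega) (by omega) (by omega) (by omega) (by omega) (by omega) (by omega)).mp (by omega)
    · obtain ⟨rfl, rfl, h⟩ := h
      exact mt (WrapC.v2 H.c6 (by omega) (by omega) (by omega) (by omega) (by omega) (by omega) (by omega)).mp (by omega)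
    · obtain ⟨rfl, rfl, h⟩ := h
      exact mt (WrapC.v3 H.c6 (by omega) (by omega) (by omega) (by omega) (by omega) (by omega) (by omega) (by omega)).mp (by omega)
    · obtain ⟨rfl, rfl, h⟩ := h
      exact mt (w0v H.c8 (by omega) (by omega) (by omega) (by omega) (by omega) (by omega) (by omega)).mp (by omega)
    · obtain ⟨rfl, rfl, h⟩ := h
      exact mt (w1v H.c8 (by omega) (by omega) (by omega) (by omega) (by omega) (by omega) (by omega) (by omega)).mp (by omega)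
    · obtain ⟨rfl, rfl, h⟩ := h
      exact mt (w2v H.c8 (by omega) (by omega) (by omega) (by omega) (by omega) (by omega) (by omega)).mp (by omega)
    · obtain ⟨rfl, rfl, h⟩ := h
      exact mt (w3v H.c8 (by omega) (by omega) (by omega) (by omega) (by omega) (by omega) (by omega) (by omega)).mp (by omega)
    · obtain ⟨rfl, rfl, h⟩ := h
      exact H.lw _ _ _ _ (by omega) (by omega) (by omega) (by omega) (by omega) (by omega)
    · obtain ⟨rfl, rfl, h⟩ := h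
      exact NHT.rIn hf H.T (t := 3) (p := 0) (j := 3) (by omega) (by omega) (by omega) (by omega) (by omega) (by omega) (by omega) (by omega)
    · obtain ⟨rfl, rfl, h⟩ := h
      exact NHT.rOut hf H.T (t := 2) (p := 0) (j := 2) (by omega) (by omega) (by omega) (by omega) (by omega) (by omega) (by omega) (by omega)
    · obtain ⟨rfl, rfl, h⟩ := h
      exact NHT.pmi hf H.T (j := 3) (by omega) (by omega) (by omega) (by omega) (by omega) (by omega)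
    · obtain ⟨rfl, rfl, h⟩ := h
      exact NHT.pm hf H.T (j := 2) (by omega) (by omega) (by omega) (by omega) (by omega) (by omega)
    · obtain ⟨rfl, rfl, h⟩ := h
      exact NHT.rIn hf H.T (t := 3) (p := 1) (j := 3) (by omega) (by omega) (by omega) (by omega) (by omega) (by omega) (by omega) (by omega)
    · obtain ⟨rfl, rfl, h⟩ := h
      exact NHT.rOut hf H.T (t := 2) (p := 1) (j := 2) (by omega) (by omega) (by omega) (by omega) (by omega) (by omega) (by omega) (by omega)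
    · obtain ⟨rfl, rfl, h⟩ := h
      exact NHT.rIn hf H.T (t := 3) (p := 0) (j := 2) (by omega) (by omega) (by omega) (by omega) (by omega) (by omega) (by omega) (by omega)
    · obtain ⟨rfl, rfl, h⟩ := h
      exact NHT.rOut hf H.T (t := 2) (p := 0) (j := 1) (by omega) (by omega) (by omega) (by omega) (by omega) (by omega) (by omega) (by omega)
    · obtain ⟨rfl, rfl, h⟩ := h
      exact NHT.pmi hf H.T (j := 2) (by omega) (by omega) (by omega) (by omega) (by omega) (by omega)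
    · obtain ⟨rfl, rfl, h⟩ := h
      exact NHT.pm hf H.T (j := 1) (by omega) (by omega) (by omega) (by omega) (by omega) (by omega)
    · obtain ⟨rfl, rfl, h⟩ := h
      exact NHT.rIn hf H.T (t := 3) (p := 1) (j := 2) (by omega) (by omega) (by omega) (by omega) (by omega) (by omega) (by omega) (by omega)
    · obtain ⟨rfl, rfl, h⟩ := h
      exact NHT.rOut hf H.T (t := 2) (p := 1) (j := 1) (by omega) (by omega) (by omega) (by omega) (by omega) (by omega) (by omega) (by omega)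
    · obtain ⟨rfl, rfl, h⟩ := h
      exact NHT.rIn hf H.T (t := 3) (p := 0) (j := 1) (by omega) (by omega) (by omega) (by omega) (by omega) (by omega) (by omega) (by omega)
    · obtain ⟨rfl, rfl, h⟩ := h
      exact NHT.rOut hf H.T (t := 2) (p := 0) (j := 0) (by omega) (by omega) (by omega) (by omega) (by omega) (by omega) (by omega) (by omega)
    · obtain ⟨rfl, rfl, h⟩ := h
      exact NHT.pmi hf H.T (j := 1) (by omega) (by omega) (by omega) (by omega) (by omega) (by omega)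
    · obtain ⟨rfl, rfl, h⟩ := h
      exact NHT.pm hf H.T (j := 0) (by omega) (by omega) (by omega) (by omega) (by omega) (by omega)
    · obtain ⟨rfl, rfl, h⟩ := h
      exact NHT.rIn hf H.T (t := 3) (p := 1) (j := 1) (by omega) (by omega) (by omega) (by omega) (by omega) (by omega) (by omega) (by omega)
    · obtain ⟨rfl, rfl, h⟩ := h
      exact NHT.rOut hf H.T (t := 2) (p := 1) (j := 0) (by omega) (by omega) (by omega) (by omega) (by omega) (by omega) (by omega) (by omega)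
    · obtain ⟨rfl, rfl, h⟩ := h
      exact NHT.rIn hf H.T (t := 3) (p := 0) (j := 0) (by omega) (by omega) (by omega) (by omega) (by omega) (by omega) (by omega) (by omega)
    · obtain ⟨rfl, rfl, h⟩ := h
      exact NHT.pmi hf H.T (j := 0) (by omega) (by omega) (by omega) (by omega) (by omega) (by omega)
    · obtain ⟨rfl, rfl, h⟩ := h
      exact NHT.rIn hf H.T (t := 3) (p := 1) (j := 0) (by omega) (by omega) (by omega) (by omega) (by omega) (by omega) (by omega) (by omega)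
    · obtain ⟨rfl, rfl, h⟩ := h
      exact H.lw _ _ _ _ (by omega) (by omega) (by omega) (by omega) (by omega) (by omega)
    · obtain ⟨rfl, rfl, h⟩ := h
      exact NHT.pmi hf H.T (j := 3) (by omega) (by omega) (by omega) (by omega) (by omega) (by omega)
    · obtain ⟨rfl, rfl, h⟩ := h
      exact NHT.pm hf H.T (j := 2) (by omega) (by omega) (by omega) (by omega) (by omega) (by omega)
    · obtain ⟨rfl, rfl, h⟩ := h
      exact NHT.pmi hf H.T (j := 2) (by omega) (by omega) (by omega) (by omega) (by omega) (by omega)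
    · obtain ⟨rfl, rfl, h⟩ := h
      exact NHT.pm hf H.T (j := 1) (by omega) (by omega) (by omega) (by omega) (by omega) (by omega)
    · obtain ⟨rfl, rfl, h⟩ := h
      exact NHT.pmi hf H.T (j := 1) (by omega) (by omega) (by omega) (by omega) (by omega) (by omega)
    · obtain ⟨rfl, rfl, h⟩ := h
      exact NHT.pm hf H.T (j := 0) (by omega) (by omega) (by omega) (by omega) (by omega) (by omega)
    · obtain ⟨rfl, rfl, h⟩ := h
      exact NHT.pmi hf H.T (j := 0) (by omega) (by omega) (by omega) (by omega) (by omega) (by omega)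
    · obtain ⟨rfl, rfl, h⟩ := h
      exact H.lw _ _ _ _ (by omega) (by omega) (by omega) (by omega) (by omega) (by omega)
    · obtain ⟨rfl, rfl, h⟩ := h
      exact rm1i hf H.T (p := 0) (j := 4) (by omega) (by omega) (by omega) (by omega) (by omega) (by omega) (by omega)
    · obtain ⟨rfl, rfl, h⟩ := h
      exact rm1 hf H.T (p := 0) (j := 3) (by omega) (by omega) (by omega) (by omega) (by omega) (by omega) (by omega)
    · obtain ⟨rfl, rfl, h⟩ := h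
      exact rm1i hf H.T (p := 1) (j := 4) (by omega) (by omega) (by omega) (by omega) (by omega) (by omega) (by omega)
    · obtain ⟨rfl, rfl, h⟩ := h
      exact rm1 hf H.T (p := 1) (j := 3) (by omega) (by omega) (by omega) (by omega) (by omega) (by omega) (by omega)
    · obtain ⟨rfl, rfl, h⟩ := h
      exact NHT.p0i hf H.T (j := 4) (by omega) (by omega) (by omega) (by omega) (by omega) (by omega)
    · obtain ⟨rfl, rfl, h⟩ := h
      exact NHT.p0 hf H.T (j := 3) (by omega) (by omega) (by omega) (by omega) (by omega) (by omega)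
    · obtain ⟨rfl, rfl, h⟩ := h
      exact rm1i hf H.T (p := 0) (j := 3) (by omega) (by omega) (by omega) (by omega) (by omega) (by omega) (by omega)
    · obtain ⟨rfl, rfl, h⟩ := h
      exact rm1 hf H.T (p := 0) (j := 2) (by omega) (by omega) (by omega) (by omega) (by omega) (by omega) (by omega)
    · obtain ⟨rfl, rfl, h⟩ := h
      exact rm1i hf H.T (p := 1) (j := 3) (by omega) (by omega) (by omega) (by omega) (by omega) (by omega) (by omega)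
    · obtain ⟨rfl, rfl, h⟩ := h
      exact rm1 hf H.T (p := 1) (j := 2) (by omega) (by omega) (by omega) (by omega) (by omega) (by omega) (by omega)
    · obtain ⟨rfl, rfl, h⟩ := h
      exact NHT.p0i hf H.T (j := 3) (by omega) (by omega) (by omega) (by omega) (by omega) (by omega)
    · obtain ⟨rfl, rfl, h⟩ := h
      exact NHT.p0 hf H.T (j := 2) (by omega) (by omega) (by omega) (by omega) (by omega) (by omega)
    · obtain ⟨rfl, rfl, h⟩ := h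
      exact rm1i hf H.T (p := 0) (j := 2) (by omega) (by omega) (by omega) (by omega) (by omega) (by omega) (by omega)
    · obtain ⟨rfl, rfl, h⟩ := h
      exact rm1 hf H.T (p := 0) (j := 1) (by omega) (by omega) (by omega) (by omega) (by omega) (by omega) (by omega)
    · obtain ⟨rfl, rfl, h⟩ := h
      exact rm1i hf H.T (p := 1) (j := 2) (by omega) (by omega) (by omega) (by omega) (by omega) (by omega) (by omega)
    · obtain ⟨rfl, rfl, h⟩ := h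
      exact rm1 hf H.T (p := 1) (j := 1) (by omega) (by omega) (by omega) (by omega) (by omega) (by omega) (by omega)
    · obtain ⟨rfl, rfl, h⟩ := h
      exact NHT.p0i hf H.T (j := 2) (by omega) (by omega) (by omega) (by omega) (by omega) (by omega)
    · obtain ⟨rfl, rfl, h⟩ := h
      exact NHT.p0 hf H.T (j := 1) (by omega) (by omega) (by omega) (by omega) (by omega) (by omega)
    · obtain ⟨rfl, rfl, h⟩ := h
      exact rm1i hf H.T (p := 0) (j := 1) (by omega) (by omega) (by omega) (by omega) (by omega) (by omega) (by omega)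
    · obtain ⟨rfl, rfl, h⟩ := h
      exact rm1 hf H.T (p := 0) (j := 0) (by omega) (by omega) (by omega) (by omega) (by omega) (by omega) (by omega)
    · obtain ⟨rfl, rfl, h⟩ := h
      exact rm1i hf H.T (p := 1) (j := 1) (by omega) (by omega) (by omega) (by omega) (by omega) (by omega) (by omega)
    · obtain ⟨rfl, rfl, h⟩ := h
      exact rm1 hf H.T (p := 1) (j := 0) (by omega) (by omega) (by omega) (by omega) (by omega) (by omega) (by omega)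
    · obtain ⟨rfl, rfl, h⟩ := h
      exact NHT.p0i hf H.T (j := 1) (by omega) (by omega) (by omega) (by omega) (by omega) (by omega)
    · obtain ⟨rfl, rfl, h⟩ := h
      exact NHT.p0 hf H.T (j := 0) (by omega) (by omega) (by omega) (by omega) (by omega) (by omega)
    · obtain ⟨rfl, rfl, h⟩ := h
      exact rm1i hf H.T (p := 0) (j := 0) (by omega) (by omega) (by omega) (by omega) (by omega) (by omega) (by omega)
    · obtain ⟨rfl, rfl, h⟩ := h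
      exact H.lw _ _ _ _ (by omega) (by omega) (by omega) (by omega) (by omega) (by omega)
    · obtain ⟨rfl, rfl, h⟩ := h
      exact NHT.p0i hf H.T (j := 4) (by omega) (by omega) (by omega) (by omega) (by omega) (by omega)
    · obtain ⟨rfl, rfl, h⟩ := h
      exact NHT.p0 hf H.T (j := 3) (by omega) (by omega) (by omega) (by omega) (by omega) (by omega)
    · obtain ⟨rfl, rfl, h⟩ := h
      exact NHT.p0i hf H.T (j := 3) (by omega) (by omega) (by omega) (by omega) (by omega) (by omega)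
    · obtain ⟨rfl, rfl, h⟩ := h
      exact NHT.p0 hf H.T (j := 2) (by omega) (by omega) (by omega) (by omega) (by omega) (by omega)
    · obtain ⟨rfl, rfl, h⟩ := h
      exact NHT.p0i hf H.T (j := 2) (by omega) (by omega) (by omega) (by omega) (by omega) (by omega)
    · obtain ⟨rfl, rfl, h⟩ := h
      exact NHT.p0 hf H.T (j := 1) (by omega) (by omega) (by omega) (by omega) (by omega) (by omega)
    · obtain ⟨rfl, rfl, h⟩ := h
      exact NHT.p0i hf H.T (j := 1) (by omega) (by omega) (by omega) (by omega) (by omega) (by omega)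
    · obtain ⟨rfl, rfl, h⟩ := h
      exact NHT.p0 hf H.T (j := 0) (by omega) (by omega) (by omega) (by omega) (by omega) (by omega)
    · obtain ⟨rfl, rfl, h⟩ := h
      exact H.lw _ _ _ _ (by omega) (by omega) (by omega) (by omega) (by omega) (by omega)
    · obtain ⟨rfl, rfl, h⟩ := h
      exact r1i hf H.T (p := 0) (j := 5) (by omega) (by omega) (by omega) (by omega) (by omega) (by omega) (by omega)
    · obtain ⟨rfl, rfl, h⟩ := h
      exact r1 hf H.T (p := 0) (j := 4) (by omega) (by omega) (by omega) (by omega) (by omega) (by omega) (by omega)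
    · obtain ⟨rfl, rfl, h⟩ := h
      exact r1i hf H.T (p := 1) (j := 5) (by omega) (by omega) (by omega) (by omega) (by omega) (by omega) (by omega)
    · obtain ⟨rfl, rfl, h⟩ := h
      exact r1 hf H.T (p := 1) (j := 4) (by omega) (by omega) (by omega) (by omega) (by omega) (by omega) (by omega)
    · obtain ⟨rfl, rfl, h⟩ := h
      exact NHT.p2 hf H.T (j := 4) (by omega) (by omega) (by omega) (by omega) (by omega) (by omega)
    · obtain ⟨rfl, rfl, h⟩ := h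
      exact r1i hf H.T (p := 0) (j := 4) (by omega) (by omega) (by omega) (by omega) (by omega) (by omega) (by omega)
    · obtain ⟨rfl, rfl, h⟩ := h
      exact r1 hf H.T (p := 0) (j := 3) (by omega) (by omega) (by omega) (by omega) (by omega) (by omega) (by omega)
    · obtain ⟨rfl, rfl, h⟩ := h
      exact r1i hf H.T (p := 1) (j := 4) (by omega) (by omega) (by omega) (by omega) (by omega) (by omega) (by omega)
    · obtain ⟨rfl, rfl, h⟩ := h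
      exact r1 hf H.T (p := 1) (j := 3) (by omega) (by omega) (by omega) (by omega) (by omega) (by omega) (by omega)
    · obtain ⟨rfl, rfl, h⟩ := h
      exact NHT.p2 hf H.T (j := 3) (by omega) (by omega) (by omega) (by omega) (by omega) (by omega)
    · obtain ⟨rfl, rfl, h⟩ := h
      exact r1i hf H.T (p := 0) (j := 3) (by omega) (by omega) (by omega) (by omega) (by omega) (by omega) (by omega)
    · obtain ⟨rfl, rfl, h⟩ := h
      exact r1 hf H.T (p := 0) (j := 2) (by omega) (by omega) (by omega) (by omega) (by omega) (by omega) (by omega)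
    · obtain ⟨rfl, rfl, h⟩ := h
      exact r1i hf H.T (p := 1) (j := 3) (by omega) (by omega) (by omega) (by omega) (by omega) (by omega) (by omega)
    · obtain ⟨rfl, rfl, h⟩ := h
      exact r1 hf H.T (p := 1) (j := 2) (by omega) (by omega) (by omega) (by omega) (by omega) (by omega) (by omega)
    · obtain ⟨rfl, rfl, h⟩ := h
      exact NHT.p2 hf H.T (j := 2) (by omega) (by omega) (by omega) (by omega) (by omega) (by omega)
    · obtain ⟨rfl, rfl, h⟩ := h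
      exact r1i hf H.T (p := 0) (j := 2) (by omega) (by omega) (by omega) (by omega) (by omega) (by omega) (by omega)
    · obtain ⟨rfl, rfl, h⟩ := h
      exact r1 hf H.T (p := 0) (j := 1) (by omega) (by omega) (by omega) (by omega) (by omega) (by omega) (by omega)
    · obtain ⟨rfl, rfl, h⟩ := h
      exact r1i hf H.T (p := 1) (j := 2) (by omega) (by omega) (by omega) (by omega) (by omega) (by omega) (by omega)
    · obtain ⟨rfl, rfl, h⟩ := h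
      exact r1 hf H.T (p := 1) (j := 1) (by omega) (by omega) (by omega) (by omega) (by omega) (by omega) (by omega)
    · obtain ⟨rfl, rfl, h⟩ := h
      exact NHT.p2 hf H.T (j := 1) (by omega) (by omega) (by omega) (by omega) (by omega) (by omega)
    · obtain ⟨rfl, rfl, h⟩ := h
      exact r1i hf H.T (p := 0) (j := 1) (by omega) (by omega) (by omega) (by omega) (by omega) (by omega) (by omega)
    · obtain ⟨rfl, rfl, h⟩ := h
      exact r1 hf H.T (p := 0) (j := 0) (by omega) (by omega) (by omega) (by omega) (by omega) (by omega) (by omega)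
    · obtain ⟨rfl, rfl, h⟩ := h
      exact H.lw _ _ _ _ (by omega) (by omega) (by omega) (by omega) (by omega) (by omega)
    · obtain ⟨rfl, rfl, h⟩ := h
      exact NHT.p2 hf H.T (j := 4) (by omega) (by omega) (by omega) (by omega) (by omega) (by omega)
    · obtain ⟨rfl, rfl, h⟩ := h
      exact NHT.p2 hf H.T (j := 3) (by omega) (by omega) (by omega) (by omega) (by omega) (by omega)
    · obtain ⟨rfl, rfl, h⟩ := h
      exact NHT.p2 hf H.T (j := 2) (by omega) (by omega) (by omega) (by omega) (by omega) (by omega)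
    · obtain ⟨rfl, rfl, h⟩ := h
      exact NHT.p2 hf H.T (j := 1) (by omega) (by omega) (by omega) (by omega) (by omega) (by omega)
    · obtain ⟨rfl, rfl, h⟩ := h
      exact H.lw _ _ _ _ (by omega) (by omega) (by omega) (by omega) (by omega) (by omega)
    · obtain ⟨rfl, rfl, h⟩ := h
      exact H.lw _ _ _ _ (by omega) (by omega) (by omega) (by omega) (by omega) (by omega)
    · obtain ⟨rfl, rfl, rfl, rfl⟩ := h
      exact g4' _ _ _ _ (by omega) (by omega) (by omega) (by omega)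
    · obtain ⟨rfl, rfl, rfl, rfl⟩ := h
      exact g5' _ _ _ _ (by omega) (by omega) (by omega) (by omega)
    · obtain ⟨rfl, rfl, rfl, rfl⟩ := h
      exact g6' _ _ _ _ (by omega) (by omega) (by omega) (by omega)

end Pool.Agent.SNT.E4
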