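import Pool.Agent.SNT.E4C1
import Pool.Agent.SNT.E4C2
import Pool.Agent.SNT.E4C3
import Pool.Agent.SNT.K0L0c
import Pool.Agent.SNT.K0L2c
import Pool.Agent.SNT.DRun

set_option autoImplicit false

/-! The three lines of the layer `6 k` exclude each other (A8). -/

namespace Pool.Agent.SNT.E4

open Pool.Agent.SNT Pool.Agent.SNT.Sig Pool.Agent.SNT.Loc Pool.Agent.SNT.LW Pool.Agent.SNT.NHZ Pool.Agent.SNT.DRun
open Pool.Agent.SNT.D1E

variable {f : ℕ → ℕ → ℕ → ℕ → Prop} {k b m n : ℕ}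

theorem a8_stack (hf : Rule f) (hs : Side k b m) (S : Stack6 f k b m 0 0 0 0 0 1) (hn : n = m + 9 + (k + 2) * 4)
    (d0 : Cyc f (6 * k) (b + 16) (2 * (n - 7) + 2)) (d2 : Cyc f (6 * k + 2) (b + 18) (2 * (n - 4) + 2))
    (d4 : Cyc f (6 * k + 4) (b + 20) (2 * (n + 1) + 2))
    (g1 : f (6 * k) (b + 22) (2 * n + 2) (2 * n - 3)) (g2 : f (6 * k) (b + 22) (2 * n + 4) (2 * n - 3))
    (g3 : f (6 * k) (b + 22) (2 * n + 6) (2 * n - 3))
    (g4 : ¬ f (6 * k) (b + 22) (2 * n + 4) (2 * n - 1)) (g5 : ¬ f (6 * k) (b + 22) (2 * n + 6) (2 * n - 1))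
    (g6 : ¬ f (6 * k) (b + 22) (2 * n + 8) (2 * n - 1)) (g7 : f (6 * k) (b + 26) (2 * n + 10) (2 * n + 1)) : False := by
  have hk := hs.1
  have hN : 4 * k + 17 ≤ n := by omega
  have hb := hs.2.2.2.1
  have H : PL f k (b + 22) n (n - 4) := by
    refine PL.of_stack hs S hn (by omega) (by omega) ?_ d2 d4
    rwa [show n - 4 - 3 = n - 7 by omega]
  have hT := H.T
  have hc := hT.hc
  have hbb := hT.hb
  have h4 := hT.h4
  have hb2 : (b + 20) % 2 = 0 := by omega
  -- the column `2 n - 3` or `2 n - 1` of `6 k` in the row `c - 2`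
  have r0 : ∀ X y0 : ℕ, X % 2 = 1 → 2 * n ≤ X + 3 → X ≤ 2 * n → y0 + 2 * k = X + 5 → f (6 * k) (b + 20) X y0 →
      ∀ y, y0 ≤ y → y + 5 ≤ X → y % 2 = 0 → f (6 * k) (b + 20) X y := by
    intro X y0 h1 h2 h2' h3 h5 y h6 h7 h8
    exact col_run hf (y1 := X - 5) (by omega) hb2 h1 (by omega)
      (fun z a1 a2 a3 => hT.cIn hf (t := 4) (j := 4) (by omega) (by omega) (by omega) (by omega) (by omega)
        (by omega) (by omega) (by omega)) h5 y h6 (by omega) h8
  have r2 : ∀ X y0 : ℕ, X % 2 = 1 → 2 * n + 3 ≤ X → y0 + 2 * k = X + 5 → f (6 * k + 2) (b + 22) X y0 →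
      ∀ y, y0 ≤ y → y + 5 ≤ X → y % 2 = 0 → f (6 * k + 2) (b + 22) X y := by
    intro X y0 h1 h2 h3 h5 y h6 h7 h8
    exact col_run hf (y1 := X - 5) (by omega) (by omega) h1 (by omega)
      (fun z a1 a2 a3 => hT.c0i hf (j := 4) (by omega) (by omega) (by omega) (by omega) (by omega) (by omega)) h5 y h6
        (by omega) h8
  have e22 : b + 22 - 2 = b + 20 := by omega
  have e26 : b + 22 + 4 = b + 26 := by omega
  rcases K0D.k0d_stack hf hs S hn d0 d2 d4 (x := 2 * n - 3) (y := 2 * n - 3 + 5 - 2 * k) (by omega) (by omega)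
    (by omega) with h | h
  · refine a8_S1 hf H g2 g3 g4 g5 g6 ?_ ?_ g1
    · rwa [e26]
    · rw [e22]
      exact r0 (2 * n - 3) _ (by omega) (by omega) (by omega) (by omega) h (2 * n - 8) (by omega) (by omega) (by omega)
  · have t1 : ∀ y, 2 * n - 3 + 5 - 2 * k + 2 ≤ y → y + 5 ≤ 2 * n - 1 → y % 2 = 0 → f (6 * k) (b + 20) (2 * n - 1) y := by
      intro y h6 h7 h8
      refine r0 (2 * n - 1) (2 * n - 3 + 5 - 2 * k + 2) (by omega) (by omega) (by omega) (by omega) ?_ y h6 h7 h8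
      rwa [show 2 * n - 3 + 2 = 2 * n - 1 by omega] at h
    have hm : m + 9 + (k + 2) * 4 = n := hn.symm
    rcases K0L2c.k0_L2_stack hf hs S (R := b + 22) (x := 2 * n + 3) (y := 2 * n + 3 + 5 - 2 * k)
      (by rw [hm]; exact Z8.cyc_mono d2 (by omega)) (by rw [hm]; exact d4) rfl (by rw [hm]; omega) (by omega)
      (by omega) with h' | h'
    · refine a8_S2 hf H g2 g3 g4 g5 g6 ?_ ?_ ?_ ?_ ?_ g1
      · rwa [e26]
      · rw [e22]
        exact t1 (2 * n - 6) (by omega) (by omega) (by omega)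
      · rw [e22]
        exact t1 (2 * n - 8) (by omega) (by omega) (by omega)
      · exact r2 (2 * n + 3) _ (by omega) (by omega) (by omega) h' (2 * n - 2) (by omega) (by omega) (by omega)
      · exact r2 (2 * n + 3) _ (by omega) (by omega) (by omega) h' (2 * n - 4) (by omega) (by omega) (by omega)
    · have h'' : f (6 * k + 2) (b + 22) (2 * n + 5) (2 * n + 3 + 5 - 2 * k + 2) := by
        rwa [show 2 * n + 3 + 2 = 2 * n + 5 by omega] at h'
      refine a8_S3 hf H g2 g3 g4 g5 g6 ?_ ?_ ?_ ?_ ?_ g1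
      · rwa [e26]
      · rw [e22]
        exact t1 (2 * n - 6) (by omega) (by omega) (by omega)
      · rw [e22]
        exact t1 (2 * n - 8) (by omega) (by omega) (by omega)
      · exact r2 (2 * n + 5) _ (by omega) (by omega) (by omega) h'' (2 * n) (by omega) (by omega) (by omega)
      · exact r2 (2 * n + 5) _ (by omega) (by omega) (by omega) h'' (2 * n - 2) (by omega) (by omega) (by omega)

end Pool.Agent.SNT.E4
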