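import Pool.Agent.SNT.E1m4C
import Pool.Agent.SNT.E1m4RunD
import Pool.Agent.SNT.E1m4W4c
import Pool.Agent.SNT.E1T2
import Pool.Agent.SNT.E1T3
import Pool.Agent.SNT.E1T3b
import Pool.Agent.SNT.E4D
import Pool.Agent.SNT.TipK0
import Pool.Agent.SNT.D1BirthE

set_option autoImplicit false

/-! **`E1` does not occur for the lead `n - 4` of `6 k + 2`**: the assembly over `Ctx`. -/

namespace Pool.Agent.SNT.E1m4

open Pool.Agent.SNT Pool.Agent.SNT.Sig Pool.Agent.SNT.Loc Pool.Agent.SNT.LW Pool.Agent.SNT.NHZ Pool.Agent.SNT.DRun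
open Pool.Agent.SNT.D1E Pool.Agent.SNT.E1X Pool.Agent.SNT.D1

variable {f : ℕ → ℕ → ℕ → ℕ → Prop} {k b m : ℕ}

/-- The window of a cycle of `Ctx`. -/
structure CW (f : ℕ → ℕ → ℕ → ℕ → Prop) (k b m n : ℕ) : Prop where
  hs : Side k b m
  S : Stack6 f k b m 0 0 0 0 0 1
  hn : n = m + 9 + (k + 2) * 4
  d0 : Cyc f (6 * k) (b + 16) (2 * (n - 7) + 2)
  d2 : Cyc f (6 * k + 2) (b + 18) (2 * (n - 4) + 2)
  d4 : Cyc f (6 * k + 4) (b + 20) (2 * (n + 1) + 2)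
  H : PL f k (b + 22) n (n - 4)
  hM : n - 4 + 4 = n
  hN : 100 ≤ n

theorem CW.of (C : Ctx f k b m 0) {n : ℕ} (hn : n = m + 9 + (k + 2) * 4) : CW f k b m n := by
  obtain ⟨hs, S, d0, d2, d4, -⟩ := C.win hn
  have H := C.pl hn
  have hb := hs.2.2.2.1
  have hm := hs.2.2.2.2
  exact ⟨hs, S, hn, d0, d2, d4, H, by omega, by omega⟩

variable {n : ℕ}

theorem CW.e0 (C : CW f k b m n) : Cyc f (6 * k) (b + 16) (2 * (n - 5) + 2) := Z8.cyc_mono C.d0 (by omega)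

theorem CW.e0' (C : CW f k b m n) : Cyc f (6 * k) (b + 16) (2 * (n - 6) + 2) := Z8.cyc_mono C.d0 (by omega)

theorem CW.e2 (C : CW f k b m n) : Cyc f (6 * k + 2) (b + 18) (2 * (n - 2) + 2) := Z8.cyc_mono C.d2 (by omega)

theorem CW.e3 (C : CW f k b m n) : Cyc f (6 * k + 2) (b + 18) (2 * (n - 3) + 2) := Z8.cyc_mono C.d2 (by omega)

theorem CW.K6 (hf : Rule f) (C : CW f k b m n) :
    f (6 * k + 6) (b + 22) (2 * n + 3) (2 * n + 6 - 2 * k) ∨ f (6 * k + 6) (b + 22) (2 * n + 5) (2 * n + 8 - 2 * k) := by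
  have hN := C.H.T.hN2
  rcases k0_L6 hf C.hs C.S (R := b + 22) (x := 2 * n + 3) (y := 2 * n + 6 - 2 * k) rfl (by have := C.hn; omega) (by omega)
    (by omega) with h | h
  · exact Or.inl h
  · exact Or.inr (mv h rfl rfl rfl (by omega))

theorem CW.K2 (hf : Rule f) (C : CW f k b m n) :
    f (6 * k + 2) (b + 22) (2 * n + 3) (2 * n + 8 - 2 * k) ∨ f (6 * k + 2) (b + 22) (2 * n + 5) (2 * n + 10 - 2 * k) := by
  have hN := C.H.T.hN2
  rcases K0D.k2_stack hf C.hs C.S C.hn C.e0 C.e2 C.d4 (x := 2 * n + 3) (y := 2 * n + 8 - 2 * k) le_rfl (by omega)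
    (by omega) with h | h
  · exact Or.inl h
  · exact Or.inr (mv h rfl rfl rfl (by omega))

theorem CW.xi (hf : Rule f) (C : CW f k b m n) : XB.XI f k (b + 22) n := XB.xi hf C.H C.hM (C.K6 hf) (C.K2 hf)

/-- the pair `2 n + 3 | 2 n + 5` of `6 k + 2` near the diagonal -/
theorem CW.q2' (hf : Rule f) (C : CW f k b m n) :
    f (6 * k + 2) (b + 22) (2 * n + 3) (2 * n - 6) ∨ f (6 * k + 2) (b + 22) (2 * n + 5) (2 * n - 6) := by
  have T := C.H.T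
  have hk := T.hk
  have hN := T.hN2
  rcases C.K2 hf with h | h
  · exact Or.inl (run2' hf T (by omega) (by omega) (by omega) (by omega) h (2 * n - 6) (by omega) (by omega) (by omega))
  · exact Or.inr (run2' hf T (by omega) (by omega) (by omega) (by omega) h (2 * n - 6) (by omega) (by omega) (by omega))

/-- the beams in the column `2 n + 1` of `6 k + 8` -/
theorem t3 (hf : Rule f) {c M : ℕ} (H : PL f k c n M) (hM4 : M + 4 = n) (I : XB.XI f k c n)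
    (x3 : XB.X3 f k c n)
    (t1 : ∀ y : ℕ, y % 2 = 0 → 2 * n + 8 ≤ y + 2 * k → y + 4 ≤ 2 * n → ¬ f (6 * k + 4) c (2 * n + 1) y)
    (t2 : ∀ y : ℕ, y % 2 = 0 → 2 * n + 6 ≤ y + 2 * k → y + 6 ≤ 2 * n → ¬ f (6 * k + 4) c (2 * n - 1) y)
    (db : f (6 * k + 4) c (2 * n - 2) (2 * n - 9) ∨ f (6 * k + 4) c (2 * n - 1) (2 * n - 9))
    (q : ∀ y : ℕ, y % 2 = 0 → 2 * n + 6 ≤ y + 2 * k → y + 4 ≤ 2 * n →
      f (6 * k + 2) c (2 * n + 1) y ∨ f (6 * k + 2) c (2 * n + 3) (y + 2))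
    {y : ℕ} (hy : y % 2 = 0) (h1 : 2 * n + 8 ≤ y + 2 * k) (h2 : y + 4 ≤ 2 * n) : ¬ f (6 * k + 8) c (2 * n + 1) y := by
  have hk := H.T.hk
  have hN := H.T.hN2
  have f2 : ∀ y : ℕ, y % 2 = 1 → 2 * n + 9 ≤ y + 2 * k → y + 2 ≤ 2 * n → ¬ f (6 * k + 2) c (2 * n + 2) y :=
    fun y a1 a2 a3 => XB.f2 hf I a1 a2 a3
  have f6 : ∀ y : ℕ, y % 2 = 1 → 2 * n + 7 ≤ y + 2 * k → y ≤ 2 * n + 1 → ¬ f (6 * k + 6) c (2 * n + 2) y :=
    fun y a1 a2 a3 => XB.f6 hf I a1 a2 a3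
  have t5 : ¬ f (6 * k + 8) c (2 * n + 1) (2 * n - 4) :=
    E1T3.t3_5 hf H hM4 (x3 _ (by omega) (by omega) (by omega)) (t2 _ (by omega) (by omega) (by omega))
      (fun y a1 a2 a3 => f2 y a1 (by omega) a3)
  have t7 : ¬ f (6 * k + 8) c (2 * n + 1) (2 * n - 6) :=
    E1T3.t3_7 hf H hM4 x3 t1 (t2 _ (by omega) (by omega) (by omega)) (fun y a1 a2 a3 => f2 y a1 (by omega) a3)
      (fun y a1 a2 a3 => f6 y a1 (by omega) (by omega)) t5
  have t9 : ¬ f (6 * k + 8) c (2 * n + 1) (2 * n - 8) := by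
    refine E1T3.t3_9 hf H hM4 x3 t1 t2 f2 f6 t5 t7 ?_
    rcases q (2 * n - 10) (by omega) (by omega) (by omega) with h | h
    · exact Or.inl h
    · exact Or.inr (mv h rfl rfl rfl (by omega))
  intro h
  rcases (show y + 4 = 2 * n ∨ y + 6 = 2 * n ∨ y + 8 = 2 * n ∨ y + 10 ≤ 2 * n by omega) with h3 | h3 | h3 | h3
  · exact t5 (mv h rfl rfl rfl (by omega))
  · exact t7 (mv h rfl rfl rfl (by omega))
  · exact t9 (mv h rfl rfl rfl (by omega))
  · rcases (show k = 9 ∨ 10 ≤ k by omega) with hk9 | hk9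
    · refine E1T3.t3_11 hf H hM4 (by omega) x3 t1 t2 f2 f6 t5 t7 t9 ?_ (mv h rfl rfl rfl (by omega))
      rcases q (2 * n - 12) (by omega) (by omega) (by omega) with h | h
      · exact Or.inl h
      · exact Or.inr (mv h rfl rfl rfl (by omega))
    · have db' : su f (6 * k + 4) c (n - 1) (n - 5) := XB.su_of db (by omega) (by omega) (by omega)
      have dc' : su f (6 * k + 8) c n (n - 5) :=
        XB.su_of (E1T3.dc hf H hM4 hk9 x3 t1 t2 f2 f6 t5 t7 t9) (by omega) (by omega) (by omega)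
      exact XB.y8 hf I db' dc' (j := y / 2) (by omega) (by omega) (XB.bY_of h (by omega) (by omega))

/-- **The lines of a window.** -/
theorem ln (hf : Rule f) {n0 : ℕ} (C0 : CW f k b m n0) (C1 : CW f k (b + 4) (m + (k + 2)) n) (hnn : n = n0 + (k + 2)) :
    Ln f k (b + 26) n := by
  have H : PL f k (b + 26) n (n - 4) := C1.H
  have I : XB.XI f k (b + 26) n := C1.xi hf
  have hk := H.T.hk
  have hN := H.T.hN2
  have hN0 := C0.H.T.hN2
  have hM := C1.hM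
  have t1 : ∀ y : ℕ, y % 2 = 0 → 2 * n + 8 ≤ y + 2 * k → y + 4 ≤ 2 * n → ¬ f (6 * k + 4) (b + 26) (2 * n + 1) y :=
    fun y a1 a2 a3 => XB.t1 hf H hM I a1 a2 a3
  have f2 : ∀ y : ℕ, y % 2 = 1 → 2 * n ≤ y + 7 → y + 2 ≤ 2 * n → ¬ f (6 * k + 2) (b + 26) (2 * n + 2) y :=
    fun y a1 a2 a3 => XB.f2 hf I a1 (by omega) a3
  have f6 : ∀ y : ℕ, y % 2 = 1 → 2 * n ≤ y + 9 → y ≤ 2 * n + 1 → ¬ f (6 * k + 6) (b + 26) (2 * n + 2) y :=
    fun y a1 a2 a3 => XB.f6 hf I a1 (by omega) a3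
  have q0 : f (6 * k) (b + 26 - 6) (2 * n - 17) (2 * n - 18) ∨ f (6 * k) (b + 26 - 6) (2 * n - 15) (2 * n - 16) := by
    rcases TipK0.tip0 hf C0.hs C0.S C0.hn C0.d0 C0.d2 C0.d4 (x := 2 * n - 17) (by omega) (by omega) with h | h
    · exact Or.inl (mv h rfl (by omega) rfl (by omega))
    · exact Or.inr (mv h rfl (by omega) (by omega) (by omega))
  have q2 : f (6 * k + 2) (b + 26 - 4) (2 * n - 15) (2 * n - 16) ∨ f (6 * k + 2) (b + 26 - 4) (2 * n - 13) (2 * n - 14) := by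
    rcases PV.tips2_stack hf C0.hs C0.S C0.hn C0.e0' C0.e3 C0.d4 (2 * n - 15) (by omega) (by omega) with h | h
    · exact Or.inl (mv h rfl (by omega) rfl (by omega))
    · exact Or.inr (mv h rfl (by omega) (by omega) (by omega))
  have d4a : Cyc f (6 * k + 4) (b + 4 + 16) (2 * (n - k - 1) + 2) := cyc_of_eq C0.d4 (by omega) (by omega)
  have q : ∀ y : ℕ, y % 2 = 0 → 2 * n + 6 ≤ y + 2 * k → y + 4 ≤ 2 * n →
      f (6 * k + 2) (b + 26) (2 * n + 1) y ∨ f (6 * k + 2) (b + 26) (2 * n + 3) (y + 2) :=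
    fun y a1 a2 a3 => TipK0.k2_line1 hf C1.hs C1.S C1.hn C1.e0' C1.e3 C1.d4 d4a a1 a2 a3
  have da := E1da.da hf H hM (C1.K2 hf)
  have t15 : ¬ f (6 * k + 4) (b + 26) (2 * n + 1) (2 * n - 4) := t1 _ (by omega) (by omega) (by omega)
  have t17 : ¬ f (6 * k + 4) (b + 26) (2 * n + 1) (2 * n - 6) := t1 _ (by omega) (by omega) (by omega)
  have T : XB.X3 f k (b + 26) n → ¬ f (6 * k + 4) (b + 26) (2 * n - 1) (2 * n - 8) ∧
      ¬ f (6 * k + 4) (b + 26) (2 * n - 1) (2 * n - 6) ∧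
      (f (6 * k + 4) (b + 26) (2 * n - 2) (2 * n - 9) ∨ f (6 * k + 4) (b + 26) (2 * n - 1) (2 * n - 9)) := by
    intro x3
    have h11 := x3 (2 * n - 14) (by omega) (by omega) (by omega)
    have t27 := E1T2.t2_7 hf H hM h11 f2 f6 q0 q2
    have t25 := E1T2.t2_5 hf H hM h11 f2 f6 da t15 t17 t27
    exact ⟨t27, t25, E1T2.db hf H hM h11 f2 f6 da t15 t17 t27 t25 (C1.q2' hf)⟩
  have T2 : XB.X3 f k (b + 26) n → ∀ y : ℕ, y % 2 = 0 → 2 * n + 6 ≤ y + 2 * k → y + 6 ≤ 2 * n →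
      ¬ f (6 * k + 4) (b + 26) (2 * n - 1) y := by
    intro x3
    obtain ⟨t27, t25, db⟩ := T x3
    exact fun y a1 a2 a3 => XB.t2 hf hM H I db t25 t27 a1 a2 a3
  refine ⟨t1, T2, fun x3 y a1 a2 a3 => ?_⟩
  exact t3 hf H hM I x3 t1 (T2 x3) (T x3).2.2 q a1 a2 a3

/-- **`E1` does not occur for `t = 0`** (in the cycle `2`). -/
theorem noE1_m4 (hf : Rule f) : NoE1 f k 0 2 := by
  intro b m C hE
  obtain ⟨n0, hn0⟩ : ∃ z, z = m + 9 + (k + 2) * 4 := ⟨_, rfl⟩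
  obtain ⟨n1, hn1⟩ : ∃ z, z = n0 + (k + 2) := ⟨_, rfl⟩
  obtain ⟨n, hn⟩ : ∃ z, z = n1 + (k + 2) := ⟨_, rfl⟩
  have W0 : CW f k b m n0 := CW.of C hn0
  have W1 : CW f k (b + 4) (m + (k + 2)) n1 := by
    have h := CW.of (C.shift 1) (n := n1) (by rw [hn1, hn0]; ring)
    rwa [show b + 4 * 1 = b + 4 by ring, show m + (k + 2) * 1 = m + (k + 2) by ring] at h
  have W2 : CW f k (b + 4 + 4) (m + (k + 2) + (k + 2)) n := by
    have h := CW.of (C.shift 2) (n := n) (by rw [hn, hn1, hn0]; ring)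
    rwa [show b + 4 * 2 = b + 4 + 4 by ring, show m + (k + 2) * 2 = m + (k + 2) + (k + 2) by ring] at h
  have hk := W1.H.T.hk
  have hN1 := W1.H.T.hN2
  have hNa := W1.hN
  have L0 : Ln f k (b + 4 + 22) n1 := ln hf W0 W1 hn1
  have L : Ln f k (b + 4 + 26) n := ln hf W1 W2 hn
  have H0 : PL f k (b + 4 + 22) n1 (n1 - 4) := W1.H
  have H : PL f k (b + 4 + 26) n (n - 4) := W2.H
  have P0 : Cyc f (6 * k) (b + 4 + 26 - 10) (2 * (n - (k + 9)) + 2) := cyc_of_eq W1.d0 (by omega) (by omega)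
  refine core hf W1.hs W1.S W1.hn H0 W1.hM hn H W2.hM L0 L ?_ ?_ ?_ ?_
  · exact fun e1 l6 zb zc zc5 zd => w4c hf H W2.hM P0 e1 l6 zb zc
      (fun y a1 a2 a3 => zc5 y a1 a2 (by omega)) zd
  · exact fun h => run_d hf W1.hs W1.S W1.hn W1.e0 W1.e3 W1.d4 (x0 := 2 * n1 + 2 * k - 6) (by omega) (by omega) (by omega)
      (by omega) (by omega) h
  · intro g g' h
    exact E4.a8_stack hf W1.hs W1.S W1.hn W1.d0 W1.d2 W1.d4 (g _ (by omega) (by omega) (by omega))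
      (g _ (by omega) (by omega) (by omega)) (g _ (by omega) (by omega) (by omega)) (g' _ (by omega) (by omega) (by omega))
      (g' _ (by omega) (by omega) (by omega)) (g' _ (by omega) (by omega) (by omega)) h
  · have e : ml k m 0 2 + 4 = n := by
      unfold ml nn
      have : m + (k + 2) * 2 + 9 + (k + 2) * 4 = n := by rw [hn, hn1, hn0]; ring
      rw [this]
      omega
    have hE' : f (6 * k + 3) (b + 4 * 2 + 20) (2 * ml k m 0 2 + 4) (2 * ml k m 0 2 + 6 - 2 * k) := hE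
    exact mv hE' rfl (by omega) (by omega) (by omega)

end Pool.Agent.SNT.E1m4
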