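import Pool.Agent.SNT.PL

set_option autoImplicit false
set_option synthInstance.maxSize 100000
set_option synthInstance.maxHeartbeats 4000000

/-! The window (W4c) of `E1`, `l = -4`: the cells of the cycle before. -/

namespace Pool.Agent.SNT.E1m4

open Pool.Agent.SNT Pool.Agent.SNT.Sig Pool.Agent.SNT.Loc Pool.Agent.SNT.LW Pool.Agent.SNT.NHZ Pool.Agent.SNT.DRun
open Pool.Agent.SNT.PB Pool.Agent.SNT.D1E

variable {f : ℕ → ℕ → ℕ → ℕ → Prop}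

theorem w4f1_chk : check 10 8 26 48 0 0 1 0 0
    (fun j n p q => decide ((j = 4 ∧ n = 2 ∧ 6 ≤ p ∧ q ≤ p + 22 ∧ (((p + q + 1) % 2 = 1 ∧ p + 10 ≤ q ∧ p % 2 = 0) ∨ ((p + q + 1) % 2 = 1 ∧ q ≤ p + 10 ∧ (p + q + 2) % 4 = 0)))
      ∨ (j = 4 ∧ n = 3 ∧ 7 ≤ p ∧ q ≤ p + 22 ∧ p + 9 ≤ q ∧ ((p + q + 1) % 2 = 0 ∧ q ≤ p + 9 ∧ (p + q + 3) % 4 = 0))
      ∨ (j = 2 ∧ n = 2 ∧ 16 ≤ q ∧ q ≤ p + 22 ∧ p + 10 ≤ q ∧ (((p + q + 1) % 2 = 1 ∧ p + 10 ≤ q ∧ p % 2 = 1) ∨ ((p + q + 1) % 2 = 1 ∧ q ≤ p + 10 ∧ (p + q + 0) % 4 = 0)))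
      ∨ (j = 2 ∧ n = 3 ∧ 8 ≤ p ∧ q ≤ p + 22 ∧ ((p + q + 1) % 2 = 0 ∧ q ≤ p + 9 ∧ (p + q + 1) % 4 = 0))
      ∨ (j = 2 ∧ n = 5 ∧ p = 9 ∧ q = 19)))
    (fun j n p q => decide ((j = 4 ∧ n = 3 ∧ 7 ≤ p ∧ q ≤ p + 22 ∧ p + 9 ≤ q ∧ ¬ ((p + q + 1) % 2 = 0 ∧ q ≤ p + 9 ∧ (p + q + 3) % 4 = 0))
      ∨ (j = 2 ∧ n = 3 ∧ 18 ≤ q ∧ q ≤ p + 22 ∧ p + 10 ≤ q ∧ ¬ ((p + q + 1) % 2 = 0 ∧ q ≤ p + 9 ∧ (p + q + 1) % 4 = 0))
      ∨ (j = 1 ∧ n = 4 ∧ q ≤ p + 22 ∧ p + 0 ≤ q)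
      ∨ (j = 1 ∧ n = 3 ∧ q ≤ p + 22 ∧ p + 0 ≤ q)
      ∨ (j = 5 ∧ n = 4 ∧ 9 ≤ p ∧ q ≤ p + 22 ∧ p + 11 ≤ q)
      ∨ (j = 3 ∧ n = 3 ∧ 6 ≤ p ∧ q ≤ p + 22 ∧ p + 12 ≤ q)
      ∨ (j = 5 ∧ n = 3 ∧ 6 ≤ p ∧ q ≤ p + 22 ∧ p + 11 ≤ q)))
    46
    0x6c3a8345220045220131718031899256498053da003411802f31002cc1802c91806c3a876c22876c220769ca8769b28769b20758a207564a87564a0756498f56328756320753da0f429a0734118f31a2073171072f32072f31872f310f2f1a072f19872f19072f01872f01072cc18f2c918f1e09871e09071df1871df1071b99871b99071b81871b8107 = true := by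
  decide +kernel

theorem w4f1 (hf : Rule f) {k c n M : ℕ} (H : PL f k c n M) (hM4 : M + 4 = n)
    (P0 : Cyc f (6 * k) (c - 10) (2 * (n - (k + 9)) + 2)) :
    ¬ f (6 * k) (c - 5) (2 * n - 12) (2 * n - 2 * k - 11) := by
  intro g0
  have hk := H.T.hk
  have hc := H.T.hc
  have h4' := H.T.h4
  have hb := H.T.hb
  have hN := H.T.hN2
  obtain ⟨a0, ha0⟩ : ∃ z, z + 2 = 6 * k := ⟨6 * k - (2), by omega⟩
  obtain ⟨b0, hb0⟩ : ∃ z, z + 10 = c := ⟨c - (10), by omega⟩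
  obtain ⟨x0, hx0⟩ : ∃ z, z + 21 = 2 * n := ⟨2 * n - (21), by omega⟩
  obtain ⟨y0, hy0⟩ : ∃ z, z + 2 * k + 30 = 2 * n := ⟨2 * n - (2 * k + 30), by omega⟩
  refine check_sound hf (a0 := a0) (b0 := b0) (x0 := x0) (y0 := y0) w4f1_chk
    ⟨fun h => absurd h (by decide), fun h => absurd h (by decide), fun h => absurd h (by decide), by omega, by omega,
      by omega, by omega⟩ ?_ ?_
  · intro j m p q hr h
    obtain ⟨-, -, -, -, hp1, hp2, hq1, hq2⟩ := hr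
    replace h := of_decide_eq_true h
    rcases h with h | h | h | h | h
    · obtain ⟨rfl, rfl, h⟩ := h
      exact (WrapC.v0 H.c2a (by omega) (by omega) (by omega) (by omega) (by omega) (by omega) (by omega)).mpr (by omega)
    · obtain ⟨rfl, rfl, h⟩ := h
      exact (WrapC.v1 H.c2a (by omega) (by omega) (by omega) (by omega) (by omega) (by omega) (by omega) (by omega)).mpr (by omega)
    · obtain ⟨rfl, rfl, h⟩ := h
      exact (WrapC.v2 P0 (by omega) (by omega) (by omega) (by omega) (by omega) (by omega) (by omega)).mpr (by omega)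
    · obtain ⟨rfl, rfl, h⟩ := h
      exact (WrapC.v3 P0 (by omega) (by omega) (by omega) (by omega) (by omega) (by omega) (by omega) (by omega)).mpr (by omega)
    · obtain ⟨rfl, rfl, rfl, rfl⟩ := h
      exact mv g0 (by omega) (by omega) (by omega) (by omega)
  · intro j m p q hr h
    obtain ⟨-, -, -, -, hp1, hp2, hq1, hq2⟩ := hr
    replace h := of_decide_eq_true h
    rcases h with h | h | h | h | h | h | h
    · obtain ⟨rfl, rfl, h⟩ := h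
      exact mt (WrapC.v1 H.c2a (by omega) (by omega) (by omega) (by omega) (by omega) (by omega) (by omega) (by omega)).mp (by omega)
    · obtain ⟨rfl, rfl, h⟩ := h
      exact mt (WrapC.v3 P0 (by omega) (by omega) (by omega) (by omega) (by omega) (by omega) (by omega) (by omega)).mp (by omega)
    · obtain ⟨rfl, rfl, h⟩ := h
      exact H.lw _ _ _ _ (by omega) (by omega) (by omega) (by omega) (by omega) (by omega)
    · obtain ⟨rfl, rfl, h⟩ := h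
      exact H.lw _ _ _ _ (by omega) (by omega) (by omega) (by omega) (by omega) (by omega)
    · obtain ⟨rfl, rfl, h⟩ := h
      exact NHT.pIn hf H.T (t := 2) (j := 0) (by omega) (by omega) (by omega) (by omega) (by omega) (by omega) (by omega)
    · obtain ⟨rfl, rfl, h⟩ := h
      exact NHT.rIn hf H.T (t := 1) (p := 1) (j := 1) (by omega) (by omega) (by omega) (by omega) (by omega) (by omega) (by omega) (by omega)
    · obtain ⟨rfl, rfl, h⟩ := h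
      exact NHT.rIn hf H.T (t := 1) (p := 1) (j := 0) (by omega) (by omega) (by omega) (by omega) (by omega) (by omega) (by omega) (by omega)

theorem w4f2_chk : check 10 8 26 48 0 0 1 0 0
    (fun j n p q => decide ((j = 2 ∧ n = 5 ∧ 11 ≤ p ∧ q ≤ p + 22 ∧ p + 9 ≤ q ∧ ((p + q + 1) % 2 = 0 ∧ q ≤ p + 9 ∧ (p + q + 3) % 4 = 0))
      ∨ (j = 4 ∧ n = 6 ∧ 16 ≤ p ∧ q ≤ p + 22 ∧ (((p + q + 1) % 2 = 1 ∧ p + 10 ≤ q ∧ p % 2 = 0) ∨ ((p + q + 1) % 2 = 1 ∧ q ≤ p + 10 ∧ (p + q + 2) % 4 = 0)))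
      ∨ (j = 4 ∧ n = 3 ∧ 7 ≤ p ∧ q ≤ p + 22 ∧ p + 9 ≤ q ∧ ((p + q + 1) % 2 = 0 ∧ q ≤ p + 9 ∧ (p + q + 3) % 4 = 0))
      ∨ (j = 4 ∧ n = 4 ∧ 10 ≤ p ∧ q ≤ p + 9 ∧ (((p + q + 1) % 2 = 1 ∧ p + 10 ≤ q ∧ p % 2 = 1) ∨ ((p + q + 1) % 2 = 1 ∧ q ≤ p + 10 ∧ (p + q + 0) % 4 = 0)))
      ∨ (j = 2 ∧ n = 2 ∧ 16 ≤ q ∧ q ≤ p + 22 ∧ p + 10 ≤ q ∧ (((p + q + 1) % 2 = 1 ∧ p + 10 ≤ q ∧ p % 2 = 1) ∨ ((p + q + 1) % 2 = 1 ∧ q ≤ p + 10 ∧ (p + q + 0) % 4 = 0)))
      ∨ (j = 2 ∧ n = 3 ∧ 8 ≤ p ∧ q ≤ p + 22 ∧ ((p + q + 1) % 2 = 0 ∧ q ≤ p + 9 ∧ (p + q + 1) % 4 = 0))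
      ∨ (j = 2 ∧ n = 4 ∧ 10 ≤ p ∧ q ≤ p + 22 ∧ (((p + q + 1) % 2 = 1 ∧ p + 10 ≤ q ∧ p % 2 = 0) ∨ ((p + q + 1) % 2 = 1 ∧ q ≤ p + 10 ∧ (p + q + 2) % 4 = 0)))
      ∨ (j = 2 ∧ n = 5 ∧ p = 9 ∧ q = 26)))
    (fun j n p q => decide ((j = 4 ∧ n = 3 ∧ 7 ≤ p ∧ q ≤ p + 22 ∧ p + 9 ≤ q ∧ ¬ ((p + q + 1) % 2 = 0 ∧ q ≤ p + 9 ∧ (p + q + 3) % 4 = 0))
      ∨ (j = 4 ∧ n = 4 ∧ 10 ≤ p ∧ q ≤ p + 9 ∧ ¬ (((p + q + 1) % 2 = 1 ∧ p + 10 ≤ q ∧ p % 2 = 1) ∨ ((p + q + 1) % 2 = 1 ∧ q ≤ p + 10 ∧ (p + q + 0) % 4 = 0)))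
      ∨ (j = 2 ∧ n = 3 ∧ 18 ≤ q ∧ q ≤ p + 22 ∧ p + 10 ≤ q ∧ ¬ ((p + q + 1) % 2 = 0 ∧ q ≤ p + 9 ∧ (p + q + 1) % 4 = 0))
      ∨ (j = 3 ∧ n = 4 ∧ 9 ≤ p ∧ q ≤ p + 22 ∧ p + 12 ≤ q)
      ∨ (j = 3 ∧ n = 3 ∧ 6 ≤ p ∧ q ≤ p + 22 ∧ p + 12 ≤ q)))
    155
    0x450d0558a58045251258bd9258d58058a48058ed9258bc9259058058d480591d9258ec92593580590480594d92591c925965805934805bee3a5bbd3a5e5e005e2d00597d00594c00570d8056dc8056ab8034ed8034bc80341500327e00324e00324d00321d00321c0031ec0031bd002ff5002fc4002d55802d54802d24802d23805e5e0f5e2d0f597d87597d0f596607594c87594c0f59350759050759040758d50758d40758a50758a407570d8f56dd8756dd0756dc8f56c58756c50756ad8756ad0756ac8756ac0756ab8f569587569507569487569407567d87567d07567c87567c07566587566507566487566407564d87564d07564c87564c0756358756350756348756340745b587459d87459d07458587458507458487456d87456d07456c87456c07455587455507455487455407453d87453d07453c87453c07452587452507452487452407434587432d87432d0743158743150743148742fd8742fd0742fc8742fc0742e58742e50742e48742e40742cd8742cd0742cc8742cc0742b58742b50742b48742b407429d07429c8734ed8f34bc8f34150f327e0f324e0f324d0f321d0f321c0f31ec0f31bd0f31a5072ff50f2fc40f2f35072f34872f1d072f1c872d558f2d548f2d248f2d238f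 = true := by
  decide +kernel

theorem w4f2 (hf : Rule f) {k c n M : ℕ} (H : PL f k c n M) (hM4 : M + 4 = n)
    (P0 : Cyc f (6 * k) (c - 10) (2 * (n - (k + 9)) + 2)) :
    ¬ f (6 * k) (c - 5) (2 * n - 12) (2 * n - 2 * k - 4) := by
  intro g0
  have hk := H.T.hk
  have hc := H.T.hc
  have h4' := H.T.h4
  have hb := H.T.hb
  have hN := H.T.hN2
  obtain ⟨a0, ha0⟩ : ∃ z, z + 2 = 6 * k := ⟨6 * k - (2), by omega⟩
  obtain ⟨b0, hb0⟩ : ∃ z, z + 10 = c := ⟨c - (10), by omega⟩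
  obtain ⟨x0, hx0⟩ : ∃ z, z + 21 = 2 * n := ⟨2 * n - (21), by omega⟩
  obtain ⟨y0, hy0⟩ : ∃ z, z + 2 * k + 30 = 2 * n := ⟨2 * n - (2 * k + 30), by omega⟩
  refine check_sound hf (a0 := a0) (b0 := b0) (x0 := x0) (y0 := y0) w4f2_chk
    ⟨fun h => absurd h (by decide), fun h => absurd h (by decide), fun h => absurd h (by decide), by omega, by omega,
      by omega, by omega⟩ ?_ ?_
  · intro j m p q hr h
    obtain ⟨-, -, -, -, hp1, hp2, hq1, hq2⟩ := hr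
    replace h := of_decide_eq_true h
    rcases h with h | h | h | h | h | h | h | h
    · obtain ⟨rfl, rfl, h⟩ := h
      exact (WrapC.v1 H.c0 (by omega) (by omega) (by omega) (by omega) (by omega) (by omega) (by omega) (by omega)).mpr (by omega)
    · obtain ⟨rfl, rfl, h⟩ := h
      exact (WrapC.v0 H.c2 (by omega) (by omega) (by omega) (by omega) (by omega) (by omega) (by omega)).mpr (by omega)
    · obtain ⟨rfl, rfl, h⟩ := h
      exact (WrapC.v1 H.c2a (by omega) (by omega) (by omega) (by omega) (by omega) (by omega) (by omega) (by omega)).mpr (by omega)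
    · obtain ⟨rfl, rfl, h⟩ := h
      exact (WrapC.v2 H.c2a (by omega) (by omega) (by omega) (by omega) (by omega) (by omega) (by omega)).mpr (by omega)
    · obtain ⟨rfl, rfl, h⟩ := h
      exact (WrapC.v2 P0 (by omega) (by omega) (by omega) (by omega) (by omega) (by omega) (by omega)).mpr (by omega)
    · obtain ⟨rfl, rfl, h⟩ := h
      exact (WrapC.v3 P0 (by omega) (by omega) (by omega) (by omega) (by omega) (by omega) (by omega) (by omega)).mpr (by omega)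
    · obtain ⟨rfl, rfl, h⟩ := h
      exact (WrapC.v4 P0 (by omega) (by omega) (by omega) (by omega) (by omega) (by omega) (by omega)).mpr (by omega)
    · obtain ⟨rfl, rfl, rfl, rfl⟩ := h
      exact mv g0 (by omega) (by omega) (by omega) (by omega)
  · intro j m p q hr h
    obtain ⟨-, -, -, -, hp1, hp2, hq1, hq2⟩ := hr
    replace h := of_decide_eq_true h
    rcases h with h | h | h | h | h
    · obtain ⟨rfl, rfl, h⟩ := h
      exact mt (WrapC.v1 H.c2a (by omega) (by omega) (by omega) (by omega) (by omega) (by omega) (by omega) (by omega)).mp (by omega)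
    · obtain ⟨rfl, rfl, h⟩ := h
      exact mt (WrapC.v2 H.c2a (by omega) (by omega) (by omega) (by omega) (by omega) (by omega) (by omega)).mp (by omega)
    · obtain ⟨rfl, rfl, h⟩ := h
      exact mt (WrapC.v3 P0 (by omega) (by omega) (by omega) (by omega) (by omega) (by omega) (by omega) (by omega)).mp (by omega)
    · obtain ⟨rfl, rfl, h⟩ := h
      exact NHT.pIn hf H.T (t := 2) (j := 1) (by omega) (by omega) (by omega) (by omega) (by omega) (by omega) (by omega)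
    · obtain ⟨rfl, rfl, h⟩ := h
      exact NHT.rIn hf H.T (t := 1) (p := 1) (j := 1) (by omega) (by omega) (by omega) (by omega) (by omega) (by omega) (by omega) (by omega)

theorem w4f3_chk : check 10 8 26 48 0 0 1 0 0
    (fun j n p q => decide ((j = 2 ∧ n = 4 ∧ 10 ≤ p ∧ q ≤ p + 22 ∧ (((p + q + 1) % 2 = 1 ∧ p + 10 ≤ q ∧ p % 2 = 0) ∨ ((p + q + 1) % 2 = 1 ∧ q ≤ p + 10 ∧ (p + q + 2) % 4 = 0)))
      ∨ (j = 2 ∧ n = 5 ∧ p = 9 ∧ q = 27)))
    (fun j n p q => decide ((j = 2 ∧ n = 3 ∧ 18 ≤ q ∧ q ≤ p + 22 ∧ p + 10 ≤ q ∧ ¬ ((p + q + 1) % 2 = 0 ∧ q ≤ p + 9 ∧ (p + q + 1) % 4 = 0))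
      ∨ (j = 1 ∧ n = 4 ∧ q ≤ p + 22 ∧ p + 0 ≤ q)
      ∨ (j = 1 ∧ n = 3 ∧ q ≤ p + 22 ∧ p + 0 ≤ q)))
    18
    0x31a58334158031be0034158f31be0f31a5072f35872f35072f1d872f1d071e25871e25071e0d871e0d071bb5871bb5071b9d871b9d07 = true := by
  decide +kernel

theorem w4f3 (hf : Rule f) {k c n M : ℕ} (H : PL f k c n M) (hM4 : M + 4 = n)
    (P0 : Cyc f (6 * k) (c - 10) (2 * (n - (k + 9)) + 2)) :
    ¬ f (6 * k) (c - 5) (2 * n - 12) (2 * n - 2 * k - 3) := by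
  intro g0
  have hk := H.T.hk
  have hc := H.T.hc
  have h4' := H.T.h4
  have hb := H.T.hb
  have hN := H.T.hN2
  obtain ⟨a0, ha0⟩ : ∃ z, z + 2 = 6 * k := ⟨6 * k - (2), by omega⟩
  obtain ⟨b0, hb0⟩ : ∃ z, z + 10 = c := ⟨c - (10), by omega⟩
  obtain ⟨x0, hx0⟩ : ∃ z, z + 21 = 2 * n := ⟨2 * n - (21), by omega⟩
  obtain ⟨y0, hy0⟩ : ∃ z, z + 2 * k + 30 = 2 * n := ⟨2 * n - (2 * k + 30), by omega⟩
  refine check_sound hf (a0 := a0) (b0 := b0) (x0 := x0) (y0 := y0) w4f3_chk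
    ⟨fun h => absurd h (by decide), fun h => absurd h (by decide), fun h => absurd h (by decide), by omega, by omega,
      by omega, by omega⟩ ?_ ?_
  · intro j m p q hr h
    obtain ⟨-, -, -, -, hp1, hp2, hq1, hq2⟩ := hr
    replace h := of_decide_eq_true h
    rcases h with h | h
    · obtain ⟨rfl, rfl, h⟩ := h
      exact (WrapC.v4 P0 (by omega) (by omega) (by omega) (by omega) (by omega) (by omega) (by omega)).mpr (by omega)
    · obtain ⟨rfl, rfl, rfl, rfl⟩ := h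
      exact mv g0 (by omega) (by omega) (by omega) (by omega)
  · intro j m p q hr h
    obtain ⟨-, -, -, -, hp1, hp2, hq1, hq2⟩ := hr
    replace h := of_decide_eq_true h
    rcases h with h | h | h
    · obtain ⟨rfl, rfl, h⟩ := h
      exact mt (WrapC.v3 P0 (by omega) (by omega) (by omega) (by omega) (by omega) (by omega) (by omega) (by omega)).mp (by omega)
    · obtain ⟨rfl, rfl, h⟩ := h
      exact H.lw _ _ _ _ (by omega) (by omega) (by omega) (by omega) (by omega) (by omega)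
    · obtain ⟨rfl, rfl, h⟩ := h
      exact H.lw _ _ _ _ (by omega) (by omega) (by omega) (by omega) (by omega) (by omega)

theorem w4f4_chk : check 10 8 26 48 0 0 1 0 0
    (fun j n p q => decide ((j = 2 ∧ n = 3 ∧ 8 ≤ p ∧ q ≤ p + 22 ∧ ((p + q + 1) % 2 = 0 ∧ q ≤ p + 9 ∧ (p + q + 1) % 4 = 0))
      ∨ (j = 2 ∧ n = 4 ∧ p = 8 ∧ q = 16)))
    (fun j n p q => decide (False))
    4
    0x3188052f178031880f2f178f = true := by
  decide +kernel

theorem w4f4 (hf : Rule f) {k c n M : ℕ} (H : PL f k c n M) (hM4 : M + 4 = n)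
    (P0 : Cyc f (6 * k) (c - 10) (2 * (n - (k + 9)) + 2)) :
    ¬ f (6 * k) (c - 6) (2 * n - 13) (2 * n - 2 * k - 14) := by
  intro g0
  have hk := H.T.hk
  have hc := H.T.hc
  have h4' := H.T.h4
  have hb := H.T.hb
  have hN := H.T.hN2
  obtain ⟨a0, ha0⟩ : ∃ z, z + 2 = 6 * k := ⟨6 * k - (2), by omega⟩
  obtain ⟨b0, hb0⟩ : ∃ z, z + 10 = c := ⟨c - (10), by omega⟩
  obtain ⟨x0, hx0⟩ : ∃ z, z + 21 = 2 * n := ⟨2 * n - (21), by omega⟩
  obtain ⟨y0, hy0⟩ : ∃ z, z + 2 * k + 30 = 2 * n := ⟨2 * n - (2 * k + 30), by omega⟩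
  refine check_sound hf (a0 := a0) (b0 := b0) (x0 := x0) (y0 := y0) w4f4_chk
    ⟨fun h => absurd h (by decide), fun h => absurd h (by decide), fun h => absurd h (by decide), by omega, by omega,
      by omega, by omega⟩ ?_ ?_
  · intro j m p q hr h
    obtain ⟨-, -, -, -, hp1, hp2, hq1, hq2⟩ := hr
    replace h := of_decide_eq_true h
    rcases h with h | h
    · obtain ⟨rfl, rfl, h⟩ := h
      exact (WrapC.v3 P0 (by omega) (by omega) (by omega) (by omega) (by omega) (by omega) (by omega) (by omega)).mpr (by omega)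
    · obtain ⟨rfl, rfl, rfl, rfl⟩ := h
      exact mv g0 (by omega) (by omega) (by omega) (by omega)
  · intro j m p q hr h
    obtain ⟨-, -, -, -, hp1, hp2, hq1, hq2⟩ := hr
    replace h := of_decide_eq_true h
    exact h.elim

theorem w4f5_chk : check 10 8 26 48 0 0 1 0 0
    (fun j n p q => decide ((j = 4 ∧ n = 3 ∧ 8 ≤ p ∧ q ≤ p + 22 ∧ ((p + q + 1) % 2 = 0 ∧ q ≤ p + 9 ∧ (p + q + 3) % 4 = 0))
      ∨ (j = 2 ∧ n = 1 ∧ q ≤ p + 22 ∧ ((p + q + 1) % 2 = 0 ∧ q ≤ p + 9 ∧ (p + q + 3) % 4 = 0))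
      ∨ (j = 2 ∧ n = 2 ∧ q ≤ p + 9 ∧ (((p + q + 1) % 2 = 1 ∧ p + 10 ≤ q ∧ p % 2 = 1) ∨ ((p + q + 1) % 2 = 1 ∧ q ≤ p + 10 ∧ (p + q + 0) % 4 = 0)))))
    (fun j n p q => decide ((j = 2 ∧ n = 2 ∧ q ≤ p + 9 ∧ ¬ (((p + q + 1) % 2 = 1 ∧ p + 10 ≤ q ∧ p % 2 = 1) ∨ ((p + q + 1) % 2 = 1 ∧ q ≤ p + 10 ∧ (p + q + 0) % 4 = 0)))
      ∨ (j = 2 ∧ n = 3 ∧ 8 ≤ p ∧ q ≤ p + 22 ∧ ¬ ((p + q + 1) % 2 = 0 ∧ q ≤ p + 9 ∧ (p + q + 1) % 4 = 0))
      ∨ (j = 1 ∧ n = 4 ∧ q ≤ p + 22 ∧ p + 0 ≤ q)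
      ∨ (j = 1 ∧ n = 3 ∧ q ≤ p + 22 ∧ p + 0 ≤ q)
      ∨ (j = 2 ∧ n = 4 ∧ p = 8 ∧ q = 14)))
    33
    0x3187032efe00427e425616802c8e802c77002c75002c5d802a058029ee0056168f318707316f072f17072f16872c8e8f2c8e072c8d872c770f2c76072c75872c750f2c5d8f2a058f29ee0f1e07071e06871def071dee871b97071b96871b7f071b7e87 = true := by
  decide +kernel

theorem w4f5 (hf : Rule f) {k c n M : ℕ} (H : PL f k c n M) (hM4 : M + 4 = n)
    (P0 : Cyc f (6 * k) (c - 10) (2 * (n - (k + 9)) + 2)) :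
    f (6 * k) (c - 6) (2 * n - 13) (2 * n - 2 * k - 16) := by
  by_contra g0
  have hk := H.T.hk
  have hc := H.T.hc
  have h4' := H.T.h4
  have hb := H.T.hb
  have hN := H.T.hN2
  obtain ⟨a0, ha0⟩ : ∃ z, z + 2 = 6 * k := ⟨6 * k - (2), by omega⟩
  obtain ⟨b0, hb0⟩ : ∃ z, z + 10 = c := ⟨c - (10), by omega⟩
  obtain ⟨x0, hx0⟩ : ∃ z, z + 21 = 2 * n := ⟨2 * n - (21), by omega⟩
  obtain ⟨y0, hy0⟩ : ∃ z, z + 2 * k + 30 = 2 * n := ⟨2 * n - (2 * k + 30), by omega⟩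
  refine check_sound hf (a0 := a0) (b0 := b0) (x0 := x0) (y0 := y0) w4f5_chk
    ⟨fun h => absurd h (by decide), fun h => absurd h (by decide), fun h => absurd h (by decide), by omega, by omega,
      by omega, by omega⟩ ?_ ?_
  · intro j m p q hr h
    obtain ⟨-, -, -, -, hp1, hp2, hq1, hq2⟩ := hr
    replace h := of_decide_eq_true h
    rcases h with h | h | h
    · obtain ⟨rfl, rfl, h⟩ := h
      exact (WrapC.v1 H.c2a (by omega) (by omega) (by omega) (by omega) (by omega) (by omega) (by omega) (by omega)).mpr (by omega)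
    · obtain ⟨rfl, rfl, h⟩ := h
      exact (WrapC.v1 P0 (by omega) (by omega) (by omega) (by omega) (by omega) (by omega) (by omega) (by omega)).mpr (by omega)
    · obtain ⟨rfl, rfl, h⟩ := h
      exact (WrapC.v2 P0 (by omega) (by omega) (by omega) (by omega) (by omega) (by omega) (by omega)).mpr (by omega)
  · intro j m p q hr h
    obtain ⟨-, -, -, -, hp1, hp2, hq1, hq2⟩ := hr
    replace h := of_decide_eq_true h
    rcases h with h | h | h | h | h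
    · obtain ⟨rfl, rfl, h⟩ := h
      exact mt (WrapC.v2 P0 (by omega) (by omega) (by omega) (by omega) (by omega) (by omega) (by omega)).mp (by omega)
    · obtain ⟨rfl, rfl, h⟩ := h
      exact mt (WrapC.v3 P0 (by omega) (by omega) (by omega) (by omega) (by omega) (by omega) (by omega) (by omega)).mp (by omega)
    · obtain ⟨rfl, rfl, h⟩ := h
      exact H.lw _ _ _ _ (by omega) (by omega) (by omega) (by omega) (by omega) (by omega)
    · obtain ⟨rfl, rfl, h⟩ := h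
      exact H.lw _ _ _ _ (by omega) (by omega) (by omega) (by omega) (by omega) (by omega)
    · obtain ⟨rfl, rfl, rfl, rfl⟩ := h
      exact fun t => g0 (mv t (by omega) (by omega) (by omega) (by omega))

theorem w4f6_chk : check 10 8 26 48 0 0 1 0 0
    (fun j n p q => decide ((j = 2 ∧ n = 2 ∧ q ≤ p + 9 ∧ (((p + q + 1) % 2 = 1 ∧ p + 10 ≤ q ∧ p % 2 = 1) ∨ ((p + q + 1) % 2 = 1 ∧ q ≤ p + 10 ∧ (p + q + 0) % 4 = 0)))
      ∨ (j = 2 ∧ n = 5 ∧ p = 7 ∧ q = 15)))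
    (fun j n p q => decide ((j = 1 ∧ n = 4 ∧ q ≤ p + 22 ∧ p + 0 ≤ q)
      ∨ (j = 1 ∧ n = 3 ∧ q ≤ p + 22 ∧ p + 0 ≤ q)))
    14
    0x316f8333df802c770033df8f316f072c770f1def871def071dd7871dd7071b7f871b7f071b67871b6707 = true := by
  decide +kernel

theorem w4f6 (hf : Rule f) {k c n M : ℕ} (H : PL f k c n M) (hM4 : M + 4 = n)
    (P0 : Cyc f (6 * k) (c - 10) (2 * (n - (k + 9)) + 2)) :
    ¬ f (6 * k) (c - 5) (2 * n - 14) (2 * n - 2 * k - 15) := by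
  intro g0
  have hk := H.T.hk
  have hc := H.T.hc
  have h4' := H.T.h4
  have hb := H.T.hb
  have hN := H.T.hN2
  obtain ⟨a0, ha0⟩ : ∃ z, z + 2 = 6 * k := ⟨6 * k - (2), by omega⟩
  obtain ⟨b0, hb0⟩ : ∃ z, z + 10 = c := ⟨c - (10), by omega⟩
  obtain ⟨x0, hx0⟩ : ∃ z, z + 21 = 2 * n := ⟨2 * n - (21), by omega⟩
  obtain ⟨y0, hy0⟩ : ∃ z, z + 2 * k + 30 = 2 * n := ⟨2 * n - (2 * k + 30), by omega⟩
  refine check_sound hf (a0 := a0) (b0 := b0) (x0 := x0) (y0 := y0) w4f6_chk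
    ⟨fun h => absurd h (by decide), fun h => absurd h (by decide), fun h => absurd h (by decide), by omega, by omega,
      by omega, by omega⟩ ?_ ?_
  · intro j m p q hr h
    obtain ⟨-, -, -, -, hp1, hp2, hq1, hq2⟩ := hr
    replace h := of_decide_eq_true h
    rcases h with h | h
    · obtain ⟨rfl, rfl, h⟩ := h
      exact (WrapC.v2 P0 (by omega) (by omega) (by omega) (by omega) (by omega) (by omega) (by omega)).mpr (by omega)
    · obtain ⟨rfl, rfl, rfl, rfl⟩ := h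
      exact mv g0 (by omega) (by omega) (by omega) (by omega)
  · intro j m p q hr h
    obtain ⟨-, -, -, -, hp1, hp2, hq1, hq2⟩ := hr
    replace h := of_decide_eq_true h
    rcases h with h | h
    · obtain ⟨rfl, rfl, h⟩ := h
      exact H.lw _ _ _ _ (by omega) (by omega) (by omega) (by omega) (by omega) (by omega)
    · obtain ⟨rfl, rfl, h⟩ := h
      exact H.lw _ _ _ _ (by omega) (by omega) (by omega) (by omega) (by omega) (by omega)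

theorem w4f7_chk : check 10 8 26 48 0 0 1 0 0
    (fun j n p q => decide ((j = 2 ∧ n = 2 ∧ q ≤ p + 9 ∧ (((p + q + 1) % 2 = 1 ∧ p + 10 ≤ q ∧ p % 2 = 1) ∨ ((p + q + 1) % 2 = 1 ∧ q ≤ p + 10 ∧ (p + q + 0) % 4 = 0)))
      ∨ (j = 2 ∧ n = 3 ∧ 8 ≤ p ∧ q ≤ p + 22 ∧ ((p + q + 1) % 2 = 0 ∧ q ≤ p + 9 ∧ (p + q + 1) % 4 = 0))
      ∨ (j = 2 ∧ n = 4 ∧ 10 ≤ p ∧ q ≤ p + 22 ∧ (((p + q + 1) % 2 = 1 ∧ p + 10 ≤ q ∧ p % 2 = 0) ∨ ((p + q + 1) % 2 = 1 ∧ q ≤ p + 10 ∧ (p + q + 2) % 4 = 0)))))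
    (fun j n p q => decide ((j = 2 ∧ n = 2 ∧ q ≤ p + 9 ∧ ¬ (((p + q + 1) % 2 = 1 ∧ p + 10 ≤ q ∧ p % 2 = 1) ∨ ((p + q + 1) % 2 = 1 ∧ q ≤ p + 10 ∧ (p + q + 0) % 4 = 0)))
      ∨ (j = 2 ∧ n = 3 ∧ 8 ≤ p ∧ q ≤ p + 22 ∧ ¬ ((p + q + 1) % 2 = 0 ∧ q ≤ p + 9 ∧ (p + q + 1) % 4 = 0))
      ∨ (j = 1 ∧ n = 6 ∧ q ≤ p + 22 ∧ p + 0 ≤ q)
      ∨ (j = 1 ∧ n = 5 ∧ q ≤ p + 22 ∧ p + 0 ≤ q)
      ∨ (j = 1 ∧ n = 4 ∧ q ≤ p + 22 ∧ p + 0 ≤ q)
      ∨ (j = 1 ∧ n = 3 ∧ q ≤ p + 22 ∧ p + 0 ≤ q)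
      ∨ (j = 1 ∧ n = 2 ∧ q ≤ p + 22 ∧ p + 0 ≤ q)
      ∨ (j = 2 ∧ n = 6 ∧ p = 10 ∧ q = 14)))
    153
    0x369685340e0036970a33f680340e01319e8033f681318500316d80315600319e812efe003185012efc00316d812ee4803156012ecd002eb58031b6002f15802c8c802efe012c75002efc012c73002c5d802ee4812c5b802c46002ecd012c44002eb5812c2c802c1500369707367f0731b60f319e07316e07316d07313e072f2e872f2e072f16872f16072f158f2f15072f14872c8e072c8d872c8c8f2c8c072c8b872c76072c75872c750f2c74872c74072c73872c730f2c5d8f2c5d072c5c872c5c072c5b8f2c460f2c45872c45072c44872c440f2c2d872c2d072c2c8f2c150f23170723168722ff0722fe8720a70720a687208f07208e87208e07208d87207687207607207587205e87205e071e1e871e1e071e1d871e06871e06071e05871e05071e04871dee871dee071ded871ded071dec871dd6071dd5871dd5071dbe071dbd871bae871bae071b96871b96071b95071b94871b7e071b7d871b7d071b7c871b7c071b7b871b66071b65871b65071b64871b64071b63871b4e071b4d871b4d071b4c871b4c071b35871b35071b34871b1d871b1d07190e07190d87190c07190b8718f60718f58718f48718f40718f38718dd0718dc8718dc0718c58718c50718c48718ad8718ad07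 = true := by
  decide +kernel

theorem w4f7 (hf : Rule f) {k c n M : ℕ} (H : PL f k c n M) (hM4 : M + 4 = n)
    (P0 : Cyc f (6 * k) (c - 10) (2 * (n - (k + 9)) + 2)) :
    f (6 * k) (c - 4) (2 * n - 11) (2 * n - 2 * k - 16) := by
  by_contra g0
  have hk := H.T.hk
  have hc := H.T.hc
  have h4' := H.T.h4
  have hb := H.T.hb
  have hN := H.T.hN2
  obtain ⟨a0, ha0⟩ : ∃ z, z + 2 = 6 * k := ⟨6 * k - (2), by omega⟩
  obtain ⟨b0, hb0⟩ : ∃ z, z + 10 = c := ⟨c - (10), by omega⟩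
  obtain ⟨x0, hx0⟩ : ∃ z, z + 21 = 2 * n := ⟨2 * n - (21), by omega⟩
  obtain ⟨y0, hy0⟩ : ∃ z, z + 2 * k + 30 = 2 * n := ⟨2 * n - (2 * k + 30), by omega⟩
  refine check_sound hf (a0 := a0) (b0 := b0) (x0 := x0) (y0 := y0) w4f7_chk
    ⟨fun h => absurd h (by decide), fun h => absurd h (by decide), fun h => absurd h (by decide), by omega, by omega,
      by omega, by omega⟩ ?_ ?_
  · intro j m p q hr h
    obtain ⟨-, -, -, -, hp1, hp2, hq1, hq2⟩ := hr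
    replace h := of_decide_eq_true h
    rcases h with h | h | h
    · obtain ⟨rfl, rfl, h⟩ := h
      exact (WrapC.v2 P0 (by omega) (by omega) (by omega) (by omega) (by omega) (by omega) (by omega)).mpr (by omega)
    · obtain ⟨rfl, rfl, h⟩ := h
      exact (WrapC.v3 P0 (by omega) (by omega) (by omega) (by omega) (by omega) (by omega) (by omega) (by omega)).mpr (by omega)
    · obtain ⟨rfl, rfl, h⟩ := h
      exact (WrapC.v4 P0 (by omega) (by omega) (by omega) (by omega) (by omega) (by omega) (by omega)).mpr (by omega)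
  · intro j m p q hr h
    obtain ⟨-, -, -, -, hp1, hp2, hq1, hq2⟩ := hr
    replace h := of_decide_eq_true h
    rcases h with h | h | h | h | h | h | h | h
    · obtain ⟨rfl, rfl, h⟩ := h
      exact mt (WrapC.v2 P0 (by omega) (by omega) (by omega) (by omega) (by omega) (by omega) (by omega)).mp (by omega)
    · obtain ⟨rfl, rfl, h⟩ := h
      exact mt (WrapC.v3 P0 (by omega) (by omega) (by omega) (by omega) (by omega) (by omega) (by omega) (by omega)).mp (by omega)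
    · obtain ⟨rfl, rfl, h⟩ := h
      exact H.lw _ _ _ _ (by omega) (by omega) (by omega) (by omega) (by omega) (by omega)
    · obtain ⟨rfl, rfl, h⟩ := h
      exact H.lw _ _ _ _ (by omega) (by omega) (by omega) (by omega) (by omega) (by omega)
    · obtain ⟨rfl, rfl, h⟩ := h
      exact H.lw _ _ _ _ (by omega) (by omega) (by omega) (by omega) (by omega) (by omega)
    · obtain ⟨rfl, rfl, h⟩ := h
      exact H.lw _ _ _ _ (by omega) (by omega) (by omega) (by omega) (by omega) (by omega)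
    · obtain ⟨rfl, rfl, h⟩ := h
      exact H.lw _ _ _ _ (by omega) (by omega) (by omega) (by omega) (by omega) (by omega)
    · obtain ⟨rfl, rfl, rfl, rfl⟩ := h
      exact fun t => g0 (mv t (by omega) (by omega) (by omega) (by omega))

theorem w4f8_chk : check 10 8 26 48 0 0 1 0 0
    (fun j n p q => decide ((j = 2 ∧ n = 2 ∧ q ≤ p + 9 ∧ (((p + q + 1) % 2 = 1 ∧ p + 10 ≤ q ∧ p % 2 = 1) ∨ ((p + q + 1) % 2 = 1 ∧ q ≤ p + 10 ∧ (p + q + 0) % 4 = 0)))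
      ∨ (j = 2 ∧ n = 6 ∧ p = 7 ∧ q = 15)))
    (fun j n p q => decide ((j = 2 ∧ n = 2 ∧ q ≤ p + 9 ∧ ¬ (((p + q + 1) % 2 = 1 ∧ p + 10 ≤ q ∧ p % 2 = 1) ∨ ((p + q + 1) % 2 = 1 ∧ q ≤ p + 10 ∧ (p + q + 0) % 4 = 0)))
      ∨ (j = 1 ∧ n = 5 ∧ q ≤ p + 22 ∧ p + 0 ≤ q)
      ∨ (j = 1 ∧ n = 4 ∧ q ≤ p + 22 ∧ p + 0 ≤ q)
      ∨ (j = 1 ∧ n = 3 ∧ q ≤ p + 22 ∧ p + 0 ≤ q)
      ∨ (j = 1 ∧ n = 2 ∧ q ≤ p + 22 ∧ p + 0 ≤ q)))
    57
    0x33df033156002ee6803156012ecd00364f802ee6812c5d802c46002ecd012c44002c2c80364f8f316f07313e072c76872c76072c5e872c5e072c5d8f2c5d072c5c872c460f2c45072c44872c440f2c2c8f205f07205e872047072046871def071dee871dd7071dd6871dd6071dd5871dbe071dbd871b66871b66071b65871b4e871b4e071b4d871b4d071b4c871b35071b348718f68718f60718de8718de0718dd0718dc8718c50718c487 = true := by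
  decide +kernel

theorem w4f8 (hf : Rule f) {k c n M : ℕ} (H : PL f k c n M) (hM4 : M + 4 = n)
    (P0 : Cyc f (6 * k) (c - 10) (2 * (n - (k + 9)) + 2)) :
    ¬ f (6 * k) (c - 4) (2 * n - 14) (2 * n - 2 * k - 15) := by
  intro g0
  have hk := H.T.hk
  have hc := H.T.hc
  have h4' := H.T.h4
  have hb := H.T.hb
  have hN := H.T.hN2
  obtain ⟨a0, ha0⟩ : ∃ z, z + 2 = 6 * k := ⟨6 * k - (2), by omega⟩
  obtain ⟨b0, hb0⟩ : ∃ z, z + 10 = c := ⟨c - (10), by omega⟩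
  obtain ⟨x0, hx0⟩ : ∃ z, z + 21 = 2 * n := ⟨2 * n - (21), by omega⟩
  obtain ⟨y0, hy0⟩ : ∃ z, z + 2 * k + 30 = 2 * n := ⟨2 * n - (2 * k + 30), by omega⟩
  refine check_sound hf (a0 := a0) (b0 := b0) (x0 := x0) (y0 := y0) w4f8_chk
    ⟨fun h => absurd h (by decide), fun h => absurd h (by decide), fun h => absurd h (by decide), by omega, by omega,
      by omega, by omega⟩ ?_ ?_
  · intro j m p q hr h
    obtain ⟨-, -, -, -, hp1, hp2, hq1, hq2⟩ := hr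
    replace h := of_decide_eq_true h
    rcases h with h | h
    · obtain ⟨rfl, rfl, h⟩ := h
      exact (WrapC.v2 P0 (by omega) (by omega) (by omega) (by omega) (by omega) (by omega) (by omega)).mpr (by omega)
    · obtain ⟨rfl, rfl, rfl, rfl⟩ := h
      exact mv g0 (by omega) (by omega) (by omega) (by omega)
  · intro j m p q hr h
    obtain ⟨-, -, -, -, hp1, hp2, hq1, hq2⟩ := hr
    replace h := of_decide_eq_true h
    rcases h with h | h | h | h | h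
    · obtain ⟨rfl, rfl, h⟩ := h
      exact mt (WrapC.v2 P0 (by omega) (by omega) (by omega) (by omega) (by omega) (by omega) (by omega)).mp (by omega)
    · obtain ⟨rfl, rfl, h⟩ := h
      exact H.lw _ _ _ _ (by omega) (by omega) (by omega) (by omega) (by omega) (by omega)
    · obtain ⟨rfl, rfl, h⟩ := h
      exact H.lw _ _ _ _ (by omega) (by omega) (by omega) (by omega) (by omega) (by omega)
    · obtain ⟨rfl, rfl, h⟩ := h
      exact H.lw _ _ _ _ (by omega) (by omega) (by omega) (by omega) (by omega) (by omega)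
    · obtain ⟨rfl, rfl, h⟩ := h
      exact H.lw _ _ _ _ (by omega) (by omega) (by omega) (by omega) (by omega) (by omega)

theorem w4fin_chk : check 10 8 26 48 0 0 1 0 0
    (fun j n p q => decide ((j = 2 ∧ n = 4 ∧ 10 ≤ p ∧ q ≤ p + 22 ∧ (((p + q + 1) % 2 = 1 ∧ p + 10 ≤ q ∧ p % 2 = 0) ∨ ((p + q + 1) % 2 = 1 ∧ q ≤ p + 10 ∧ (p + q + 2) % 4 = 0)))
      ∨ (j = 2 ∧ n = 5 ∧ 12 ≤ p ∧ q ≤ p + 22 ∧ ((p + q + 1) % 2 = 0 ∧ q ≤ p + 9 ∧ (p + q + 3) % 4 = 0))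
      ∨ (j = 2 ∧ n = 1 ∧ 3 ≤ p ∧ q ≤ p + 22 ∧ p + 9 ≤ q ∧ ((p + q + 1) % 2 = 0 ∧ q ≤ p + 9 ∧ (p + q + 3) % 4 = 0))
      ∨ (j = 2 ∧ n = 2 ∧ 6 ≤ p ∧ q ≤ p + 9 ∧ (((p + q + 1) % 2 = 1 ∧ p + 10 ≤ q ∧ p % 2 = 1) ∨ ((p + q + 1) % 2 = 1 ∧ q ≤ p + 10 ∧ (p + q + 0) % 4 = 0)))
      ∨ (j = 4 ∧ n = 6 ∧ 16 ≤ p ∧ q ≤ p + 22 ∧ (((p + q + 1) % 2 = 1 ∧ p + 10 ≤ q ∧ p % 2 = 0) ∨ ((p + q + 1) % 2 = 1 ∧ q ≤ p + 10 ∧ (p + q + 2) % 4 = 0)))
      ∨ (j = 4 ∧ n = 2 ∧ 6 ≤ p ∧ q ≤ p + 22 ∧ (((p + q + 1) % 2 = 1 ∧ p + 10 ≤ q ∧ p % 2 = 0) ∨ ((p + q + 1) % 2 = 1 ∧ q ≤ p + 10 ∧ (p + q + 2) % 4 = 0)))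
      ∨ (j = 4 ∧ n = 3 ∧ 7 ≤ p ∧ q ≤ p + 22 ∧ p + 9 ≤ q ∧ ((p + q + 1) % 2 = 0 ∧ q ≤ p + 9 ∧ (p + q + 3) % 4 = 0))
      ∨ (j = 4 ∧ n = 4 ∧ 10 ≤ p ∧ q ≤ p + 9 ∧ (((p + q + 1) % 2 = 1 ∧ p + 10 ≤ q ∧ p % 2 = 1) ∨ ((p + q + 1) % 2 = 1 ∧ q ≤ p + 10 ∧ (p + q + 0) % 4 = 0)))
      ∨ (j = 6 ∧ n = 2 ∧ 16 ≤ q ∧ q ≤ p + 22 ∧ p + 10 ≤ q ∧ (((p + q + 1) % 2 = 1 ∧ p + 10 ≤ q ∧ p % 2 = 1) ∨ ((p + q + 1) % 2 = 1 ∧ q ≤ p + 10 ∧ (p + q + 0) % 4 = 0)))
      ∨ (j = 6 ∧ n = 4 ∧ 10 ≤ p ∧ q ≤ p + 22 ∧ (((p + q + 1) % 2 = 1 ∧ p + 10 ≤ q ∧ p % 2 = 0) ∨ ((p + q + 1) % 2 = 1 ∧ q ≤ p + 10 ∧ (p + q + 2) % 4 = 0)))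
      ∨ (j = 8 ∧ n = 4 ∧ 20 ≤ q ∧ q ≤ p + 22 ∧ p + 8 ≤ q ∧ (((p + q + 1) % 2 = 1 ∧ p + 8 ≤ q ∧ p % 2 = 1) ∨ ((p + q + 1) % 2 = 1 ∧ q ≤ p + 8 ∧ (p + q + 0) % 4 = 2)))
      ∨ (j = 2 ∧ n = 6 ∧ p = 9 ∧ q = 19)))
    (fun j n p q => decide ((j = 2 ∧ n = 4 ∧ 10 ≤ p ∧ q ≤ p + 22 ∧ ¬ (((p + q + 1) % 2 = 1 ∧ p + 10 ≤ q ∧ p % 2 = 0) ∨ ((p + q + 1) % 2 = 1 ∧ q ≤ p + 10 ∧ (p + q + 2) % 4 = 0)))
      ∨ (j = 2 ∧ n = 5 ∧ 12 ≤ p ∧ q ≤ p + 22 ∧ ¬ ((p + q + 1) % 2 = 0 ∧ q ≤ p + 9 ∧ (p + q + 3) % 4 = 0))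
      ∨ (j = 2 ∧ n = 1 ∧ 3 ≤ p ∧ q ≤ p + 22 ∧ p + 9 ≤ q ∧ ¬ ((p + q + 1) % 2 = 0 ∧ q ≤ p + 9 ∧ (p + q + 3) % 4 = 0))
      ∨ (j = 2 ∧ n = 2 ∧ 6 ≤ p ∧ q ≤ p + 9 ∧ ¬ (((p + q + 1) % 2 = 1 ∧ p + 10 ≤ q ∧ p % 2 = 1) ∨ ((p + q + 1) % 2 = 1 ∧ q ≤ p + 10 ∧ (p + q + 0) % 4 = 0)))
      ∨ (j = 4 ∧ n = 3 ∧ 7 ≤ p ∧ q ≤ p + 22 ∧ p + 9 ≤ q ∧ ¬ ((p + q + 1) % 2 = 0 ∧ q ≤ p + 9 ∧ (p + q + 3) % 4 = 0))
      ∨ (j = 4 ∧ n = 4 ∧ 10 ≤ p ∧ q ≤ p + 9 ∧ ¬ (((p + q + 1) % 2 = 1 ∧ p + 10 ≤ q ∧ p % 2 = 1) ∨ ((p + q + 1) % 2 = 1 ∧ q ≤ p + 10 ∧ (p + q + 0) % 4 = 0)))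
      ∨ (j = 6 ∧ n = 3 ∧ 18 ≤ q ∧ q ≤ p + 22 ∧ p + 10 ≤ q ∧ ¬ ((p + q + 1) % 2 = 0 ∧ q ≤ p + 9 ∧ (p + q + 1) % 4 = 0))
      ∨ (j = 1 ∧ n = 6 ∧ q ≤ p + 22 ∧ p + 0 ≤ q)
      ∨ (j = 1 ∧ n = 5 ∧ q ≤ p + 22 ∧ p + 0 ≤ q)
      ∨ (j = 1 ∧ n = 4 ∧ q ≤ p + 22 ∧ p + 0 ≤ q)
      ∨ (j = 1 ∧ n = 3 ∧ q ≤ p + 22 ∧ p + 0 ≤ q)
      ∨ (j = 1 ∧ n = 2 ∧ q ≤ p + 22 ∧ p + 0 ≤ q)
      ∨ (j = 1 ∧ n = 1 ∧ q ≤ p + 22 ∧ p + 0 ≤ q)
      ∨ (j = 3 ∧ n = 4 ∧ 9 ≤ p ∧ q ≤ p + 22 ∧ p + 12 ≤ q)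
      ∨ (j = 3 ∧ n = 2 ∧ 5 ≤ p ∧ q ≤ p + 22 ∧ p + 11 ≤ q)
      ∨ (j = 5 ∧ n = 4 ∧ 9 ≤ p ∧ q ≤ p + 22 ∧ p + 11 ≤ q)
      ∨ (j = 2 ∧ n = 3 ∧ 6 ≤ p ∧ q ≤ p + 22 ∧ p + 12 ≤ q)
      ∨ (j = 3 ∧ n = 3 ∧ 6 ≤ p ∧ q ≤ p + 22 ∧ p + 12 ≤ q)
      ∨ (j = 3 ∧ n = 1 ∧ 2 ≤ p ∧ q ≤ p + 22 ∧ p + 11 ≤ q)
      ∨ (j = 5 ∧ n = 3 ∧ 6 ≤ p ∧ q ≤ p + 22 ∧ p + 11 ≤ q)
      ∨ (j = 2 ∧ n = 6 ∧ p = 8 ∧ q = 17)
      ∨ (j = 2 ∧ n = 6 ∧ p = 13 ∧ q = 19)))
    416
    0x31288533b10031409236393233b00033c89a36690333c88033c88436690333c80033c80433c88336388036388436518036699231590031719a9323836c0b006c2312588a00588a0144f10044f10131598031598431590344d90044d9046c2403588b00588b0431408333b08033b08444f10344f18044f1849324836c0c006c0c042c30802c48922c60803ff8d258a4802c47802c90806c3cd22c5f922f193a58d4802ee80031898058ec922f00123411b25904803188806c9cd231a0925934802c91803429005bbd3a4029d23441122fc4002f31002cc18036c9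80324cba31b9ba2f17802f4a3aa6a480a6a3807fbd007fbc007ac4807ac3807ac2807a94807a93807a92805e2d00594c0056dc8056ab80561880543c0036818034bc8036e192345880324d00321d00321c0031ba0031b8002d6c002cd9002ca8002f17812c8e802c77002a69802a38802a078029d680a6a48fa6a38f7fbd0f7fbc0f7fa4077fa3077d34877d34077d33877d33077d1c877d1c077d1b877d1b077ac48f7ac38f7ac28f7a948f7a938f7a928f6c9c876c84876c84076c3c876c3c076c24876c24076c23876c23076c22876a2c876a14876a140769cc8769cc0769b48769b40769b38769b30769b287699c07699b87699b07699a875e2d0f594c87594c0f59350759040758d40758a40758a30758720756dc8f56ac8756ac0756ab8f569487569407567c87567c07566487566407564c87564c07563487563407563387563307563287561c07561b87561b07561a87561a0756198756188f560207560187543c0f456c87456c0745548745540742fc8742fc0742e48742e407429a074282074281874269074029874011874011073ff8873fe0873fe0073db9873da1873da1073d88873d70873d700736e18736e10736818f366887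36510736210734bc8f34718734710734598734590734588f324d0f324c87324c07323487323407321d0f321c0f31d10731d08731ba0f31b98731b90731b88731b80f31a10731a0073171073141073140072f01872ee9872ee9072d6c0f2cd9872cd90f2cc2072ca8872ca80f2ca7872ca7072c91072c90072c8f872c8f072c8e8f2c77872c770f2c60072c5f072c30072a698f2a39872a39072a388f2a21872a21072a08872a08072a078f29f08729f00729ef8729ef0729d88729d80729d78729d70729d68f29c08729c00723618723610723498723490722e98722e90722e88722d18722d10722d08722b90722b88722a10722a08720f18720f10720d98720d90720c10720c08720a90720a8872091872091072079872079072078872061872061072060872049072048872048072031072030872030071ecc871ecc071eb4871eb4071e51071e50871e39871e39071e38871e21871e21071e20871e20071e09871e09071e08871e08071df1871df1071dd9871dd9071dd8871dd8071dc1071dc0871dc0071da8871da8071c5c871c5c071c44871c44071bca071bc9871bc9071bb2071bb1871bb1071bb0871bb0071b99071b98871b98071b97871b97071b81871b81071b80871b80071b7f871b7f071b69871b69071b68871b68071b67871b51071b50871b50071b38871b3807195a07195987194207194187192907192887192787192707191107191087191007190f87190f0718f80718f78718df8718df0718c88718c80718c78718c70718b08718b007166f87166f07165887165807165787165707164087164007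 = true := by
  decide +kernel

theorem w4fin (hf : Rule f) {k c n M : ℕ} (H : PL f k c n M) (hM4 : M + 4 = n)
    (q1 : f (6 * k) (c - 4) (2 * n - 12) (2 * n - 2 * k - 11))
    (q2 : ¬ f (6 * k) (c - 4) (2 * n - 13) (2 * n - 2 * k - 13))
    (q3 : ¬ f (6 * k) (c - 4) (2 * n - 8) (2 * n - 2 * k - 11)) : False := by
  have hk := H.T.hk
  have hc := H.T.hc
  have h4' := H.T.h4
  have hb := H.T.hb
  have hN := H.T.hN2
  obtain ⟨a0, ha0⟩ : ∃ z, z + 2 = 6 * k := ⟨6 * k - (2), by omega⟩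
  obtain ⟨b0, hb0⟩ : ∃ z, z + 10 = c := ⟨c - (10), by omega⟩
  obtain ⟨x0, hx0⟩ : ∃ z, z + 21 = 2 * n := ⟨2 * n - (21), by omega⟩
  obtain ⟨y0, hy0⟩ : ∃ z, z + 2 * k + 30 = 2 * n := ⟨2 * n - (2 * k + 30), by omega⟩
  refine check_sound hf (a0 := a0) (b0 := b0) (x0 := x0) (y0 := y0) w4fin_chk
    ⟨fun h => absurd h (by decide), fun h => absurd h (by decide), fun h => absurd h (by decide), by omega, by omega,
      by omega, by omega⟩ ?_ ?_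
  · intro j m p q hr h
    obtain ⟨-, -, -, -, hp1, hp2, hq1, hq2⟩ := hr
    replace h := of_decide_eq_true h
    rcases h with h | h | h | h | h | h | h | h | h | h | h | h
    · obtain ⟨rfl, rfl, h⟩ := h
      exact (WrapC.v0 H.c0 (by omega) (by omega) (by omega) (by omega) (by omega) (by omega) (by omega)).mpr (by omega)
    · obtain ⟨rfl, rfl, h⟩ := h
      exact (WrapC.v1 H.c0 (by omega) (by omega) (by omega) (by omega) (by omega) (by omega) (by omega) (by omega)).mpr (by omega)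
    · obtain ⟨rfl, rfl, h⟩ := h
      exact (WrapC.v1 H.c0a (by omega) (by omega) (by omega) (by omega) (by omega) (by omega) (by omega) (by omega)).mpr (by omega)
    · obtain ⟨rfl, rfl, h⟩ := h
      exact (WrapC.v2 H.c0a (by omega) (by omega) (by omega) (by omega) (by omega) (by omega) (by omega)).mpr (by omega)
    · obtain ⟨rfl, rfl, h⟩ := h
      exact (WrapC.v0 H.c2 (by omega) (by omega) (by omega) (by omega) (by omega) (by omega) (by omega)).mpr (by omega)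
    · obtain ⟨rfl, rfl, h⟩ := h
      exact (WrapC.v0 H.c2a (by omega) (by omega) (by omega) (by omega) (by omega) (by omega) (by omega)).mpr (by omega)
    · obtain ⟨rfl, rfl, h⟩ := h
      exact (WrapC.v1 H.c2a (by omega) (by omega) (by omega) (by omega) (by omega) (by omega) (by omega) (by omega)).mpr (by omega)
    · obtain ⟨rfl, rfl, h⟩ := h
      exact (WrapC.v2 H.c2a (by omega) (by omega) (by omega) (by omega) (by omega) (by omega) (by omega)).mpr (by omega)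
    · obtain ⟨rfl, rfl, h⟩ := h
      exact (WrapC.v2 H.c4b (by omega) (by omega) (by omega) (by omega) (by omega) (by omega) (by omega)).mpr (by omega)
    · obtain ⟨rfl, rfl, h⟩ := h
      exact (WrapC.v4 H.c4b (by omega) (by omega) (by omega) (by omega) (by omega) (by omega) (by omega)).mpr (by omega)
    · obtain ⟨rfl, rfl, h⟩ := h
      exact (WrapC.v2 H.c6a (by omega) (by omega) (by omega) (by omega) (by omega) (by omega) (by omega)).mpr (by omega)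
    · obtain ⟨rfl, rfl, rfl, rfl⟩ := h
      exact mv q1 (by omega) (by omega) (by omega) (by omega)
  · intro j m p q hr h
    obtain ⟨-, -, -, -, hp1, hp2, hq1, hq2⟩ := hr
    replace h := of_decide_eq_true h
    rcases h with h | h | h | h | h | h | h | h | h | h | h | h | h | h | h | h | h | h | h | h | h | h
    · obtain ⟨rfl, rfl, h⟩ := h
      exact mt (WrapC.v0 H.c0 (by omega) (by omega) (by omega) (by omega) (by omega) (by omega) (by omega)).mp (by omega)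
    · obtain ⟨rfl, rfl, h⟩ := h
      exact mt (WrapC.v1 H.c0 (by omega) (by omega) (by omega) (by omega) (by omega) (by omega) (by omega) (by omega)).mp (by omega)
    · obtain ⟨rfl, rfl, h⟩ := h
      exact mt (WrapC.v1 H.c0a (by omega) (by omega) (by omega) (by omega) (by omega) (by omega) (by omega) (by omega)).mp (by omega)
    · obtain ⟨rfl, rfl, h⟩ := h
      exact mt (WrapC.v2 H.c0a (by omega) (by omega) (by omega) (by omega) (by omega) (by omega) (by omega)).mp (by omega)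
    · obtain ⟨rfl, rfl, h⟩ := h
      exact mt (WrapC.v1 H.c2a (by omega) (by omega) (by omega) (by omega) (by omega) (by omega) (by omega) (by omega)).mp (by omega)
    · obtain ⟨rfl, rfl, h⟩ := h
      exact mt (WrapC.v2 H.c2a (by omega) (by omega) (by omega) (by omega) (by omega) (by omega) (by omega)).mp (by omega)
    · obtain ⟨rfl, rfl, h⟩ := h
      exact mt (WrapC.v3 H.c4b (by omega) (by omega) (by omega) (by omega) (by omega) (by omega) (by omega) (by omega)).mp (by omega)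
    · obtain ⟨rfl, rfl, h⟩ := h
      exact H.lw _ _ _ _ (by omega) (by omega) (by omega) (by omega) (by omega) (by omega)
    · obtain ⟨rfl, rfl, h⟩ := h
      exact H.lw _ _ _ _ (by omega) (by omega) (by omega) (by omega) (by omega) (by omega)
    · obtain ⟨rfl, rfl, h⟩ := h
      exact H.lw _ _ _ _ (by omega) (by omega) (by omega) (by omega) (by omega) (by omega)
    · obtain ⟨rfl, rfl, h⟩ := h
      exact H.lw _ _ _ _ (by omega) (by omega) (by omega) (by omega) (by omega) (by omega)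
    · obtain ⟨rfl, rfl, h⟩ := h
      exact H.lw _ _ _ _ (by omega) (by omega) (by omega) (by omega) (by omega) (by omega)
    · obtain ⟨rfl, rfl, h⟩ := h
      exact H.lw _ _ _ _ (by omega) (by omega) (by omega) (by omega) (by omega) (by omega)
    · obtain ⟨rfl, rfl, h⟩ := h
      exact NHT.pIn hf H.T (t := 2) (j := 1) (by omega) (by omega) (by omega) (by omega) (by omega) (by omega) (by omega)
    · obtain ⟨rfl, rfl, h⟩ := h
      exact NHT.pIn hf H.T (t := 1) (j := 0) (by omega) (by omega) (by omega) (by omega) (by omega) (by omega) (by omega)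
    · obtain ⟨rfl, rfl, h⟩ := h
      exact NHT.pIn hf H.T (t := 2) (j := 0) (by omega) (by omega) (by omega) (by omega) (by omega) (by omega) (by omega)
    · obtain ⟨rfl, rfl, h⟩ := h
      exact NHT.rIn hf H.T (t := 1) (p := 0) (j := 1) (by omega) (by omega) (by omega) (by omega) (by omega) (by omega) (by omega) (by omega)
    · obtain ⟨rfl, rfl, h⟩ := h
      exact NHT.rIn hf H.T (t := 1) (p := 1) (j := 1) (by omega) (by omega) (by omega) (by omega) (by omega) (by omega) (by omega) (by omega)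
    · obtain ⟨rfl, rfl, h⟩ := h
      exact NHT.rIn hf H.T (t := 0) (p := 1) (j := 0) (by omega) (by omega) (by omega) (by omega) (by omega) (by omega) (by omega) (by omega)
    · obtain ⟨rfl, rfl, h⟩ := h
      exact NHT.rIn hf H.T (t := 1) (p := 1) (j := 0) (by omega) (by omega) (by omega) (by omega) (by omega) (by omega) (by omega) (by omega)
    · obtain ⟨rfl, rfl, rfl, rfl⟩ := h
      exact fun t => q2 (mv t (by omega) (by omega) (by omega) (by omega))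
    · obtain ⟨rfl, rfl, rfl, rfl⟩ := h
      exact fun t => q3 (mv t (by omega) (by omega) (by omega) (by omega))

end Pool.Agent.SNT.E1m4
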