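import Pool.Agent.SNT.NWB
import Pool.Agent.SNT.PL

set_option autoImplicit false
set_option synthInstance.maxSize 100000
set_option synthInstance.maxHeartbeats 4000000

/-! Windows next to the diagonal for the layer `6 k + 4`: a column of the row `c - 2` excludes beams of the row `c`. -/

namespace Pool.Agent.SNT.E4

open Pool.Agent.SNT Pool.Agent.SNT.Loc Pool.Agent.SNT.LW Pool.Agent.SNT.NHZ Pool.Agent.SNT.NW Pool.Agent.SNT.D1E

variable {f : ℕ → ℕ → ℕ → ℕ → Prop}

theorem n2_chk : check 8 7 12 12 0 1 1 1 2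
    (fun j n p q => decide ((j = 2 ∧ n = 2 ∧ q ≤ p + 0 ∧ (p = q ∧ p % 2 = 0))
      ∨ (j = 4 ∧ n = 3 ∧ q ≤ p + 0 ∧ ((p + q) % 2 = 1 ∧ p % 2 = 1))
      ∨ (j = 6 ∧ n = 5 ∧ 5 ≤ q ∧ q ≤ p + 0 ∧ ((p + q) % 2 = 1 ∧ p % 2 = 1))
      ∨ (j = 2 ∧ n = 3 ∧ p = 4 ∧ q = 3)
      ∨ (j = 2 ∧ n = 5 ∧ p = 8 ∧ q = 3)))
    (fun j n p q => decide ((j = 2 ∧ n = 2 ∧ q ≤ p + 0 ∧ ¬ (p = q ∧ p % 2 = 0))
      ∨ (j = 4 ∧ n = 3 ∧ q ≤ p + 0 ∧ ¬ ((p + q) % 2 = 1 ∧ p % 2 = 1))
      ∨ (j = 6 ∧ n = 5 ∧ 5 ≤ q ∧ q ≤ p + 0 ∧ ¬ ((p + q) % 2 = 1 ∧ p % 2 = 1))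
      ∨ (j = 3 ∧ n = 5 ∧ 5 ≤ q ∧ q + 2 ≤ p)))
    201
    0xb6e03072f80072f81058600077eca077d83078380077e00077e0e077e0404e30006e15204ee8e077e83053d800735c204e90004ee8004ee8e04ee84057a0004f6000772ca06ee4204ea0006e24204de0006d6420b6e03072f80072f81058600077eca077d83078380077e00077e0e077e0404e30006e15204ee8e077e83053d800735c204e90004ee8004ee8e04ee84057a0004f0000772ca06e84204e40006dc4204d80004d80404f40e06e60304f40004f40404f30e06e50304f30004f3040530800728c20934000927000b2c420b1f42089d8008908004e0800d6c800d60800d5f8008ec3a08ec8008e08008d48008c88008df3a08df8008d38008c78008d280056e0004dc0006d94a0d72000d720e0d710e0d65000d650e08f20008f20e08f10e08f00e08ef0e08eb8e08e50008e50e08e40008e40e08e30008e30e08de8e08d80008d80e08d70008cb0007898e07890e07888e07830e07828e05898e04e18004e18e04b40004b38e04b30e04b28e04b20e04b18e04b10e04ac8e04ac0e04ab8e04ab0e04a70004a68e04a60e049a00048d000d720f0d710f0d650f09758708f20f08f10f08f00f08ef0f08ec0708eb8708e58708e50f08e40f08e30f08df0708de8708d88708d80f08d70f08cb0f07898707890707888707830707828705898f058687058587057a8704f58704e98704e88704e78704e68704e18f04dd8704da8704b40f04b38704b30704b28704b20704b18704b10704ad8704ac8704ac0704ab8704ab0704a70f04a68704a60704a58704a50704a48704a08704a007049f87049f07049e87049a0f049907049887049307049287048d0f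 = true := by
  decide +kernel

theorem n2 (hf : Rule f) {k c n M : ℕ} (H : PL f k c n M)
    (h1 : f (6 * k + 4) (c) (2 * n + 1) (2 * n - 4)) :
    ¬ f (6 * k + 4) (c - 2) (2 * n - 3) (2 * n - 4) := by
  intro hg
  have hk := H.T.hk
  have hc := H.T.hc
  have h4 := H.T.h4
  have hb := H.T.hb
  have hN := H.T.hN2
  have hg' : ∀ M R x y : ℕ, M = 6 * k + 4 → R = c - 2 → x = 2 * n - 3 → y = 2 * n - 4 → f M R x y := by
    intro M R x y e1 e2 e3 e4
    rw [e1, e2, e3, e4]
    exact hg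
  clear hg
  have h1' : ∀ M R x y : ℕ, M = 6 * k + 4 → R = c → x = 2 * n + 1 → y = 2 * n - 4 → f M R x y := by
    intro M R x y e1 e2 e3 e4
    rw [e1, e2, e3, e4]
    exact h1
  clear h1
  obtain ⟨a0, ha0⟩ : ∃ z, z = 6 * k + 2 := ⟨_, rfl⟩
  obtain ⟨b0, hb0⟩ : ∃ z, z + 5 = c := ⟨c - 5, by omega⟩
  obtain ⟨x0, hx0⟩ : ∃ z, z + 7 = 2 * n := ⟨2 * n - 7, by omega⟩
  obtain ⟨y0, hy0⟩ : ∃ z, z + 7 = 2 * n := ⟨2 * n - 7, by omega⟩
  refine check_sound hf (a0 := a0) (b0 := b0) (x0 := x0) (y0 := y0) n2_chk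
    ⟨fun _ => by omega, fun h => absurd h (by decide), fun h => absurd h (by decide), by omega, by omega,
      by omega, by omega⟩ ?_ ?_
  · intro j m p q hr h
    obtain ⟨-, -, -, -, hp1, hp2, hq1, hq2⟩ := hr
    replace h := of_decide_eq_true h
    rcases h with h | h | h | h | h
    · obtain ⟨rfl, rfl, h⟩ := h
      exact (WrapC.v3 H.c4a (by omega) (by omega) (by omega) (by omega) (by omega) (by omega) (by omega) (by omega)).mpr (by omega)
    · obtain ⟨rfl, rfl, h⟩ := h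
      exact (WrapC.v2 H.c6 (by omega) (by omega) (by omega) (by omega) (by omega) (by omega) (by omega)).mpr (by omega)
    · obtain ⟨rfl, rfl, h⟩ := h
      exact (w2v H.c8 (by omega) (by omega) (by omega) (by omega) (by omega) (by omega) (by omega)).mpr (by omega)
    · obtain ⟨rfl, rfl, rfl, rfl⟩ := h
      exact hg' _ _ _ _ (by omega) (by omega) (by omega) (by omega)
    · obtain ⟨rfl, rfl, rfl, rfl⟩ := h
      exact h1' _ _ _ _ (by omega) (by omega) (by omega) (by omega)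
  · intro j m p q hr h
    obtain ⟨-, -, -, -, hp1, hp2, hq1, hq2⟩ := hr
    replace h := of_decide_eq_true h
    rcases h with h | h | h | h
    · obtain ⟨rfl, rfl, h⟩ := h
      exact mt (WrapC.v3 H.c4a (by omega) (by omega) (by omega) (by omega) (by omega) (by omega) (by omega) (by omega)).mp (by omega)
    · obtain ⟨rfl, rfl, h⟩ := h
      exact mt (WrapC.v2 H.c6 (by omega) (by omega) (by omega) (by omega) (by omega) (by omega) (by omega)).mp (by omega)
    · obtain ⟨rfl, rfl, h⟩ := h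
      exact mt (w2v H.c8 (by omega) (by omega) (by omega) (by omega) (by omega) (by omega) (by omega)).mp (by omega)
    · obtain ⟨rfl, rfl, h⟩ := h
      exact NHT.p0 hf H.T (j := 1) (by omega) (by omega) (by omega) (by omega) (by omega) (by omega)

theorem a1a_chk : check 6 6 11 11 0 0 1 1 2
    (fun j n p q => decide ((j = 4 ∧ n = 3 ∧ q ≤ p + 0 ∧ (p = q ∧ p % 2 = 0))
      ∨ (j = 2 ∧ n = 2 ∧ p = 4 ∧ q = 3)
      ∨ (j = 2 ∧ n = 4 ∧ p = 6 ∧ q = 1)))
    (fun j n p q => decide ((j = 4 ∧ n = 3 ∧ q ≤ p + 0 ∧ ¬ (p = q ∧ p % 2 = 0))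
      ∨ (j = 2 ∧ n = 3 ∧ q + 2 ≤ p)
      ∨ (j = 3 ∧ n = 3 ∧ q + 2 ≤ p)
      ∨ (j = 3 ∧ n = 4 ∧ 3 ≤ q ∧ q + 2 ≤ p)))
    35
    0x55c0303a98003ea800514c2036180068580055b5203e98003668003668e06858f055c07055b87055b07055607055587051f87051f07051e87051e0705198705190705188703f10703f00703e98f03b48703b40703b38703b30703ae8703ae0703ad87036d0703668f = true := by
  decide +kernel

theorem a1a (hf : Rule f) {k c n M : ℕ} (H : PL f k c n M)
    (h1 : f (6 * k + 4) (c) (2 * n + 1) (2 * n - 4)) :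
    ¬ f (6 * k + 4) (c - 2) (2 * n - 1) (2 * n - 2) := by
  intro hg
  have hk := H.T.hk
  have hc := H.T.hc
  have h4 := H.T.h4
  have hb := H.T.hb
  have hN := H.T.hN2
  have hg' : ∀ M R x y : ℕ, M = 6 * k + 4 → R = c - 2 → x = 2 * n - 1 → y = 2 * n - 2 → f M R x y := by
    intro M R x y e1 e2 e3 e4
    rw [e1, e2, e3, e4]
    exact hg
  clear hg
  have h1' : ∀ M R x y : ℕ, M = 6 * k + 4 → R = c → x = 2 * n + 1 → y = 2 * n - 4 → f M R x y := by
    intro M R x y e1 e2 e3 e4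
    rw [e1, e2, e3, e4]
    exact h1
  clear h1
  obtain ⟨a0, ha0⟩ : ∃ z, z = 6 * k + 2 := ⟨_, rfl⟩
  obtain ⟨b0, hb0⟩ : ∃ z, z + 4 = c := ⟨c - 4, by omega⟩
  obtain ⟨x0, hx0⟩ : ∃ z, z + 5 = 2 * n := ⟨2 * n - 5, by omega⟩
  obtain ⟨y0, hy0⟩ : ∃ z, z + 5 = 2 * n := ⟨2 * n - 5, by omega⟩
  refine check_sound hf (a0 := a0) (b0 := b0) (x0 := x0) (y0 := y0) a1a_chk
    ⟨fun _ => by omega, fun h => absurd h (by decide), fun h => absurd h (by decide), by omega, by omega,
      by omega, by omega⟩ ?_ ?_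
  · intro j m p q hr h
    obtain ⟨-, -, -, -, hp1, hp2, hq1, hq2⟩ := hr
    replace h := of_decide_eq_true h
    rcases h with h | h | h
    · obtain ⟨rfl, rfl, h⟩ := h
      exact (WrapC.v3 H.c6 (by omega) (by omega) (by omega) (by omega) (by omega) (by omega) (by omega) (by omega)).mpr (by omega)
    · obtain ⟨rfl, rfl, rfl, rfl⟩ := h
      exact hg' _ _ _ _ (by omega) (by omega) (by omega) (by omega)
    · obtain ⟨rfl, rfl, rfl, rfl⟩ := h
      exact h1' _ _ _ _ (by omega) (by omega) (by omega) (by omega)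
  · intro j m p q hr h
    obtain ⟨-, -, -, -, hp1, hp2, hq1, hq2⟩ := hr
    replace h := of_decide_eq_true h
    rcases h with h | h | h | h
    · obtain ⟨rfl, rfl, h⟩ := h
      exact mt (WrapC.v3 H.c6 (by omega) (by omega) (by omega) (by omega) (by omega) (by omega) (by omega) (by omega)).mp (by omega)
    · obtain ⟨rfl, rfl, h⟩ := h
      exact rm1 hf H.T (p := 0) (j := 1) (by omega) (by omega) (by omega) (by omega) (by omega) (by omega) (by omega)
    · obtain ⟨rfl, rfl, h⟩ := h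
      exact rm1 hf H.T (p := 1) (j := 1) (by omega) (by omega) (by omega) (by omega) (by omega) (by omega) (by omega)
    · obtain ⟨rfl, rfl, h⟩ := h
      exact NHT.p0 hf H.T (j := 1) (by omega) (by omega) (by omega) (by omega) (by omega) (by omega)

theorem a1b1_chk : check 6 6 11 9 0 0 1 1 2
    (fun j n p q => decide ((j = 4 ∧ n = 3 ∧ q ≤ p + 0 ∧ (p = q ∧ p % 2 = 0))
      ∨ (j = 2 ∧ n = 2 ∧ p = 2 ∧ q = 1)
      ∨ (j = 2 ∧ n = 4 ∧ p = 6 ∧ q = 1)))
    (fun j n p q => decide ((j = 4 ∧ n = 3 ∧ q ≤ p + 0 ∧ ¬ (p = q ∧ p % 2 = 0))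
      ∨ (j = 1 ∧ n = 1 ∧ q + 2 ≤ p)
      ∨ (j = 2 ∧ n = 1 ∧ q + 1 ≤ p)
      ∨ (j = 3 ∧ n = 1 ∧ q + 1 ≤ p)
      ∨ (j = 1 ∧ n = 2 ∧ q + 2 ≤ p)
      ∨ (j = 3 ∧ n = 2 ∧ q + 1 ≤ p)
      ∨ (j = 3 ∧ n = 3 ∧ q + 2 ≤ p)
      ∨ (j = 5 ∧ n = 3 ∧ q + 1 ≤ p)
      ∨ (j = 3 ∧ n = 4 ∧ q + 2 ≤ p)
      ∨ (j = 5 ∧ n = 4 ∧ q + 1 ≤ p)))
    239
    0x6b08304598004598106b083042800042804033580046352045a8e045a03045e80045a80045a8e045a8402d28003348004005204625202d18002d08002d18102d10a02c10e02ca83030080045b62032c800455c205838006acc202ca83030080045b62032c800455c2057f00057f0403040e03038303040003040403080e02d68303080003080402fb8e03f30302fb8002fb8402ff0e04630302d20003fb4202ff0002ff0404280e06b08304280004280403348003288004625204524a02d10002c10002c10e02c10402c08e03e90302c08002c08402f580031f80041ec202ba8006b08e06b00e067f0e067e8e05568005560e05558e054c8004630e04628e04620e04618e045e0e045d8e045d0e04590e04318e04310e04308e04300e042c8e042c0e042b8e04278e03fb0e03fa8e03f68e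03f60e03f10e03f08e03ec8e03ec0e03c98e03c90e03c50e03c48e03bf8e03bf0e03bb0e03ba8e03338003338e02be8002be8e02a50e02a48e02a08e02a00e029c0e029b8e02968e02960e02920e02918e01ad8e01ad0e01a90e01a88e017c0e017b8e01778e01770e06b08706b00706ab87067f07067e87067a0705830705568f055607055587055187055107054c8f046307046287046207046187045e07045d87045d07045907043187043107043087043007042c87042c07042b8704278704000703ff8703fb8703fb0703fa8703f68703f60703f10703f08703ec8703ec0703ce8703ce0703ca0703c98703c90703c50703c48703bf8703bf0703bb0703ba87033a0703390703338f03320703310703300703290703280702d70702d60702cd0702cc0702c60702c50702c40702be8f02bb0702a58702a50702a48702a10702a08702a007029f87029f07029c07029b87029b07029a8702968702960702920702918701ad8701ad0701a90701a88701a80701a78701a40701a38701a307017c07017b87017787017707017687017607017287017207017187 = true := by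
  decide +kernel

theorem a1b1 (hf : Rule f) {k c n M : ℕ} (H : PL f k c n M)
    (h1 : f (6 * k + 4) (c) (2 * n + 5) (2 * n)) :
    ¬ f (6 * k + 4) (c - 2) (2 * n + 1) (2 * n) := by
  intro hg
  have hk := H.T.hk
  have hc := H.T.hc
  have h4 := H.T.h4
  have hb := H.T.hb
  have hN := H.T.hN2
  have hg' : ∀ M R x y : ℕ, M = 6 * k + 4 → R = c - 2 → x = 2 * n + 1 → y = 2 * n → f M R x y := by
    intro M R x y e1 e2 e3 e4
    rw [e1, e2, e3, e4]
    exact hg
  clear hg
  have h1' : ∀ M R x y : ℕ, M = 6 * k + 4 → R = c → x = 2 * n + 5 → y = 2 * n → f M R x y := by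
    intro M R x y e1 e2 e3 e4
    rw [e1, e2, e3, e4]
    exact h1
  clear h1
  obtain ⟨a0, ha0⟩ : ∃ z, z = 6 * k + 2 := ⟨_, rfl⟩
  obtain ⟨b0, hb0⟩ : ∃ z, z + 4 = c := ⟨c - 4, by omega⟩
  obtain ⟨x0, hx0⟩ : ∃ z, z + 1 = 2 * n := ⟨2 * n - 1, by omega⟩
  obtain ⟨y0, hy0⟩ : ∃ z, z + 1 = 2 * n := ⟨2 * n - 1, by omega⟩
  refine check_sound hf (a0 := a0) (b0 := b0) (x0 := x0) (y0 := y0) a1b1_chk
    ⟨fun _ => by omega, fun h => absurd h (by decide), fun h => absurd h (by decide), by omega, by omega,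
      by omega, by omega⟩ ?_ ?_
  · intro j m p q hr h
    obtain ⟨-, -, -, -, hp1, hp2, hq1, hq2⟩ := hr
    replace h := of_decide_eq_true h
    rcases h with h | h | h
    · obtain ⟨rfl, rfl, h⟩ := h
      exact (WrapC.v3 H.c6 (by omega) (by omega) (by omega) (by omega) (by omega) (by omega) (by omega) (by omega)).mpr (by omega)
    · obtain ⟨rfl, rfl, rfl, rfl⟩ := h
      exact hg' _ _ _ _ (by omega) (by omega) (by omega) (by omega)
    · obtain ⟨rfl, rfl, rfl, rfl⟩ := h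
      exact h1' _ _ _ _ (by omega) (by omega) (by omega) (by omega)
  · intro j m p q hr h
    obtain ⟨-, -, -, -, hp1, hp2, hq1, hq2⟩ := hr
    replace h := of_decide_eq_true h
    rcases h with h | h | h | h | h | h | h | h | h | h
    · obtain ⟨rfl, rfl, h⟩ := h
      exact mt (WrapC.v3 H.c6 (by omega) (by omega) (by omega) (by omega) (by omega) (by omega) (by omega) (by omega)).mp (by omega)
    · obtain ⟨rfl, rfl, h⟩ := h
      exact NHT.pm hf H.T (j := 1) (by omega) (by omega) (by omega) (by omega) (by omega) (by omega)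
    · obtain ⟨rfl, rfl, h⟩ := h
      exact NHT.rOut hf H.T (t := 2) (p := 0) (j := 0) (by omega) (by omega) (by omega) (by omega) (by omega) (by omega) (by omega) (by omega)
    · obtain ⟨rfl, rfl, h⟩ := h
      exact NHT.pm hf H.T (j := 0) (by omega) (by omega) (by omega) (by omega) (by omega) (by omega)
    · obtain ⟨rfl, rfl, h⟩ := h
      exact NHT.pm hf H.T (j := 1) (by omega) (by omega) (by omega) (by omega) (by omega) (by omega)
    · obtain ⟨rfl, rfl, h⟩ := h
      exact NHT.pm hf H.T (j := 0) (by omega) (by omega) (by omega) (by omega) (by omega) (by omega)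
    · obtain ⟨rfl, rfl, h⟩ := h
      exact rm1 hf H.T (p := 1) (j := 1) (by omega) (by omega) (by omega) (by omega) (by omega) (by omega) (by omega)
    · obtain ⟨rfl, rfl, h⟩ := h
      exact rm1 hf H.T (p := 1) (j := 0) (by omega) (by omega) (by omega) (by omega) (by omega) (by omega) (by omega)
    · obtain ⟨rfl, rfl, h⟩ := h
      exact NHT.p0 hf H.T (j := 1) (by omega) (by omega) (by omega) (by omega) (by omega) (by omega)
    · obtain ⟨rfl, rfl, h⟩ := h
      exact NHT.p0 hf H.T (j := 0) (by omega) (by omega) (by omega) (by omega) (by omega) (by omega)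

theorem a1b3_chk : check 6 6 11 9 0 0 1 1 2
    (fun j n p q => decide ((j = 4 ∧ n = 3 ∧ q ≤ p + 0 ∧ (p = q ∧ p % 2 = 0))
      ∨ (j = 2 ∧ n = 2 ∧ p = 4 ∧ q = 3)
      ∨ (j = 2 ∧ n = 4 ∧ p = 6 ∧ q = 1)))
    (fun j n p q => decide ((j = 4 ∧ n = 3 ∧ q ≤ p + 0 ∧ ¬ (p = q ∧ p % 2 = 0))
      ∨ (j = 2 ∧ n = 3 ∧ q + 2 ≤ p)
      ∨ (j = 5 ∧ n = 3 ∧ q + 1 ≤ p)
      ∨ (j = 5 ∧ n = 4 ∧ q + 1 ≤ p)))
    153
    0x46303033480046252058f8006b94a05908006ba4a046303033480046252058f0006b8ca05900006b9ca05910005910405878006b0c205868006afc2046303033480046252058f8006b94a05908006ba4a046303033480046252058f0006b8ca05900006b9ca05910005910405870006b04205860005860406af03058a80058a8405758e069e0305758005758402ff800428c202c48006a60e06a58e06a10e06748e06740e066f8e055680054c80054b8e054b0e05468e05428003338002c88002c88e06ba0706b98706b90706b88706b80706b58706b50706b48706b40706b38706b08706b00706af8706af0706ae8706ab8706ab0706aa8706aa0706a60706a58706a107068887068807068787068707068687068407068387068307068287068207067f07067e87067e07067d87067d07067a07067987067907067887067487067407066f87058c07058b07058307058207058107057007055f87055f07055e87055e07055d87055b07055a87055a0705598705590705568f055607055587055507055487055407055187055107055087055007054f87054c8f054b87054b0705468705428f033a0703390703338f03088703080703078703070703038703030703028702ce0702c88f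 = true := by
  decide +kernel

theorem a1b3 (hf : Rule f) {k c n M : ℕ} (H : PL f k c n M)
    (h1 : f (6 * k + 4) (c) (2 * n + 5) (2 * n)) :
    ¬ f (6 * k + 4) (c - 2) (2 * n + 3) (2 * n + 2) := by
  intro hg
  have hk := H.T.hk
  have hc := H.T.hc
  have h4 := H.T.h4
  have hb := H.T.hb
  have hN := H.T.hN2
  have hg' : ∀ M R x y : ℕ, M = 6 * k + 4 → R = c - 2 → x = 2 * n + 3 → y = 2 * n + 2 → f M R x y := by
    intro M R x y e1 e2 e3 e4
    rw [e1, e2, e3, e4]
    exact hg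
  clear hg
  have h1' : ∀ M R x y : ℕ, M = 6 * k + 4 → R = c → x = 2 * n + 5 → y = 2 * n → f M R x y := by
    intro M R x y e1 e2 e3 e4
    rw [e1, e2, e3, e4]
    exact h1
  clear h1
  obtain ⟨a0, ha0⟩ : ∃ z, z = 6 * k + 2 := ⟨_, rfl⟩
  obtain ⟨b0, hb0⟩ : ∃ z, z + 4 = c := ⟨c - 4, by omega⟩
  obtain ⟨x0, hx0⟩ : ∃ z, z + 1 = 2 * n := ⟨2 * n - 1, by omega⟩
  obtain ⟨y0, hy0⟩ : ∃ z, z + 1 = 2 * n := ⟨2 * n - 1, by omega⟩
  refine check_sound hf (a0 := a0) (b0 := b0) (x0 := x0) (y0 := y0) a1b3_chk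
    ⟨fun _ => by omega, fun h => absurd h (by decide), fun h => absurd h (by decide), by omega, by omega,
      by omega, by omega⟩ ?_ ?_
  · intro j m p q hr h
    obtain ⟨-, -, -, -, hp1, hp2, hq1, hq2⟩ := hr
    replace h := of_decide_eq_true h
    rcases h with h | h | h
    · obtain ⟨rfl, rfl, h⟩ := h
      exact (WrapC.v3 H.c6 (by omega) (by omega) (by omega) (by omega) (by omega) (by omega) (by omega) (by omega)).mpr (by omega)
    · obtain ⟨rfl, rfl, rfl, rfl⟩ := h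
      exact hg' _ _ _ _ (by omega) (by omega) (by omega) (by omega)
    · obtain ⟨rfl, rfl, rfl, rfl⟩ := h
      exact h1' _ _ _ _ (by omega) (by omega) (by omega) (by omega)
  · intro j m p q hr h
    obtain ⟨-, -, -, -, hp1, hp2, hq1, hq2⟩ := hr
    replace h := of_decide_eq_true h
    rcases h with h | h | h | h
    · obtain ⟨rfl, rfl, h⟩ := h
      exact mt (WrapC.v3 H.c6 (by omega) (by omega) (by omega) (by omega) (by omega) (by omega) (by omega) (by omega)).mp (by omega)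
    · obtain ⟨rfl, rfl, h⟩ := h
      exact rm1 hf H.T (p := 0) (j := 1) (by omega) (by omega) (by omega) (by omega) (by omega) (by omega) (by omega)
    · obtain ⟨rfl, rfl, h⟩ := h
      exact rm1 hf H.T (p := 1) (j := 0) (by omega) (by omega) (by omega) (by omega) (by omega) (by omega) (by omega)
    · obtain ⟨rfl, rfl, h⟩ := h
      exact NHT.p0 hf H.T (j := 0) (by omega) (by omega) (by omega) (by omega) (by omega) (by omega)

theorem a3_chk : check 6 6 13 11 0 0 1 1 2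
    (fun j n p q => decide ((j = 2 ∧ n = 1 ∧ q ≤ p + 0 ∧ (p = q ∧ p % 2 = 0))
      ∨ (j = 4 ∧ n = 3 ∧ q ≤ p + 0 ∧ (p = q ∧ p % 2 = 0))
      ∨ (j = 6 ∧ n = 2 ∧ q ≤ p + 0 ∧ ((p + q) % 2 = 1 ∧ p % 2 = 0))
      ∨ (j = 2 ∧ n = 2 ∧ p = 2 ∧ q = 1)))
    (fun j n p q => decide ((j = 2 ∧ n = 1 ∧ q ≤ p + 0 ∧ ¬ (p = q ∧ p % 2 = 0))
      ∨ (j = 4 ∧ n = 3 ∧ q ≤ p + 0 ∧ ¬ (p = q ∧ p % 2 = 0))
      ∨ (j = 6 ∧ n = 2 ∧ q ≤ p + 0 ∧ ¬ ((p + q) % 2 = 1 ∧ p % 2 = 0))
      ∨ (j = 3 ∧ n = 1 ∧ q + 1 ≤ p)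
      ∨ (j = 4 ∧ n = 1 ∧ q + 1 ≤ p)
      ∨ (j = 1 ∧ n = 3 ∧ 5 ≤ p ∧ q + 4 ≤ p)
      ∨ (j = 2 ∧ n = 3 ∧ q + 2 ≤ p)
      ∨ (j = 3 ∧ n = 3 ∧ q + 2 ≤ p)
      ∨ (j = 5 ∧ n = 3 ∧ q + 1 ≤ p)
      ∨ (j = 3 ∧ n = 4 ∧ q + 2 ≤ p)
      ∨ (j = 5 ∧ n = 4 ∧ q + 1 ≤ p)
      ∨ (j = 2 ∧ n = 4 ∧ p = 7 ∧ q = 4)))
    215
    0x99d83063d80063d8104910006445a044e8005fbc204008003fb8005adc205a8c203f60e064e03044e0005fb4207f58009a2c2064e03044e0005fb4207f50007f50404000003f60e03f604075f80075080090d4a090352075480074f80075481074f81070d80075b3a076080075b80095b7a09567a075c0e099d83063d80063d8104910006445a044e8005fbc203fb8004008005a8c205adc204000e064e03044e0005fb4207f58009a2c2064e03044e0005fb4207f50007f504040000040004075080075f80090352090d4a075a0e099d83063d80063d8104910006445a044e8005fbc203fb8004008005a8c205adc204000e06440304490005f64207f080099dc206440304490005f64207eb0007eb0403f60004000e040004075000075a00075a0e075a04076600075c00075c0e075c040442800abb800ab0800aaf80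05efc203ef800ac0800ac08e0abf800abf8e0ab4800ab48e09a28e09a20e095b0e095a8e07ae8007ae0e07ad8e07a28007968007188e07180e07130e07128e070d0e070c8e07070e064e0e064d8e06480e06420e06068e06060e06008e05fa8e05660e05658e055f8e055a0e04a08e04598e04590e04538e044d8e03f48003f48e03b98003b90e03b88e03ad800ac08f0abf8f0ab48f09a28709a207099c87095b07095a8709550707f00707ae8f07ae0707ad8707a88707a80707a28f07968f076107076007075607075507075407074a07071887071807071307071287070d07070c87070707064e07064d8706480706420706068706060706008705fa87056607056587056007055f87055a0704a10704a087049707048b07045987045907045387044d8704070704060703fc0703fb0703f48f03b98f03b90703b88703b38703b30703ad8f = true := by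
  decide +kernel

theorem a3 (hf : Rule f) {k c n M : ℕ} (H : PL f k c n M)
    (h1 : ¬ f (6 * k + 4) (c) (2 * n + 4) (2 * n + 1)) :
    ¬ f (6 * k + 4) (c - 2) (2 * n - 1) (2 * n - 2) := by
  intro hg
  have hk := H.T.hk
  have hc := H.T.hc
  have h4 := H.T.h4
  have hb := H.T.hb
  have hN := H.T.hN2
  have hg' : ∀ M R x y : ℕ, M = 6 * k + 4 → R = c - 2 → x = 2 * n - 1 → y = 2 * n - 2 → f M R x y := by
    intro M R x y e1 e2 e3 e4
    rw [e1, e2, e3, e4]
    exact hg
  clear hg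
  have h1' : ∀ M R x y : ℕ, M = 6 * k + 4 → R = c → x = 2 * n + 4 → y = 2 * n + 1 → ¬ f M R x y := by
    intro M R x y e1 e2 e3 e4
    rw [e1, e2, e3, e4]
    exact h1
  clear h1
  obtain ⟨a0, ha0⟩ : ∃ z, z = 6 * k + 2 := ⟨_, rfl⟩
  obtain ⟨b0, hb0⟩ : ∃ z, z + 4 = c := ⟨c - 4, by omega⟩
  obtain ⟨x0, hx0⟩ : ∃ z, z + 3 = 2 * n := ⟨2 * n - 3, by omega⟩
  obtain ⟨y0, hy0⟩ : ∃ z, z + 3 = 2 * n := ⟨2 * n - 3, by omega⟩
  refine check_sound hf (a0 := a0) (b0 := b0) (x0 := x0) (y0 := y0) a3_chk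
    ⟨fun _ => by omega, fun h => absurd h (by decide), fun h => absurd h (by decide), by omega, by omega,
      by omega, by omega⟩ ?_ ?_
  · intro j m p q hr h
    obtain ⟨-, -, -, -, hp1, hp2, hq1, hq2⟩ := hr
    replace h := of_decide_eq_true h
    rcases h with h | h | h | h
    · obtain ⟨rfl, rfl, h⟩ := h
      exact (WrapC.v3 H.c4a (by omega) (by omega) (by omega) (by omega) (by omega) (by omega) (by omega) (by omega)).mpr (by omega)
    · obtain ⟨rfl, rfl, h⟩ := h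
      exact (WrapC.v3 H.c6 (by omega) (by omega) (by omega) (by omega) (by omega) (by omega) (by omega) (by omega)).mpr (by omega)
    · obtain ⟨rfl, rfl, h⟩ := h
      exact (w0v H.c8 (by omega) (by omega) (by omega) (by omega) (by omega) (by omega) (by omega)).mpr (by omega)
    · obtain ⟨rfl, rfl, rfl, rfl⟩ := h
      exact hg' _ _ _ _ (by omega) (by omega) (by omega) (by omega)
  · intro j m p q hr h
    obtain ⟨-, -, -, -, hp1, hp2, hq1, hq2⟩ := hr
    replace h := of_decide_eq_true h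
    rcases h with h | h | h | h | h | h | h | h | h | h | h | h
    · obtain ⟨rfl, rfl, h⟩ := h
      exact mt (WrapC.v3 H.c4a (by omega) (by omega) (by omega) (by omega) (by omega) (by omega) (by omega) (by omega)).mp (by omega)
    · obtain ⟨rfl, rfl, h⟩ := h
      exact mt (WrapC.v3 H.c6 (by omega) (by omega) (by omega) (by omega) (by omega) (by omega) (by omega) (by omega)).mp (by omega)
    · obtain ⟨rfl, rfl, h⟩ := h
      exact mt (w0v H.c8 (by omega) (by omega) (by omega) (by omega) (by omega) (by omega) (by omega)).mp (by omega)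
    · obtain ⟨rfl, rfl, h⟩ := h
      exact NHT.pm hf H.T (j := 0) (by omega) (by omega) (by omega) (by omega) (by omega) (by omega)
    · obtain ⟨rfl, rfl, h⟩ := h
      exact NHT.rIn hf H.T (t := 3) (p := 0) (j := 0) (by omega) (by omega) (by omega) (by omega) (by omega) (by omega) (by omega) (by omega)
    · obtain ⟨rfl, rfl, h⟩ := h
      exact NHT.p0i hf H.T (j := 3) (by omega) (by omega) (by omega) (by omega) (by omega) (by omega)
    · obtain ⟨rfl, rfl, h⟩ := h
      exact rm1 hf H.T (p := 0) (j := 1) (by omega) (by omega) (by omega) (by omega) (by omega) (by omega) (by omega)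
    · obtain ⟨rfl, rfl, h⟩ := h
      exact rm1 hf H.T (p := 1) (j := 1) (by omega) (by omega) (by omega) (by omega) (by omega) (by omega) (by omega)
    · obtain ⟨rfl, rfl, h⟩ := h
      exact rm1 hf H.T (p := 1) (j := 0) (by omega) (by omega) (by omega) (by omega) (by omega) (by omega) (by omega)
    · obtain ⟨rfl, rfl, h⟩ := h
      exact NHT.p0 hf H.T (j := 1) (by omega) (by omega) (by omega) (by omega) (by omega) (by omega)
    · obtain ⟨rfl, rfl, h⟩ := h
      exact NHT.p0 hf H.T (j := 0) (by omega) (by omega) (by omega) (by omega) (by omega) (by omega)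
    · obtain ⟨rfl, rfl, rfl, rfl⟩ := h
      exact h1' _ _ _ _ (by omega) (by omega) (by omega) (by omega)

end Pool.Agent.SNT.E4
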