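import Pool.Agent.SNT.NWB
import Pool.Agent.SNT.PL

set_option autoImplicit false
set_option synthInstance.maxSize 100000
set_option synthInstance.maxHeartbeats 4000000

/-! Windows next to the diagonal for the layer `6 k` (rows `c - 3 .. c + 4`). -/

namespace Pool.Agent.SNT.E4

open Pool.Agent.SNT Pool.Agent.SNT.Loc Pool.Agent.SNT.LW Pool.Agent.SNT.NHZ Pool.Agent.SNT.NW Pool.Agent.SNT.D1E

variable {f : ℕ → ℕ → ℕ → ℕ → Prop}

theorem a8_S1_chk : check 12 10 21 15 0 0 1 1 2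
    (fun j n p q => decide ((j = 2 ∧ n = 1 ∧ q ≤ p + 0 ∧ p ≤ q + 14 ∧ (p = q ∧ p % 2 = 0))
      ∨ (j = 4 ∧ n = 2 ∧ 5 ≤ q ∧ q ≤ p + 0 ∧ p ≤ q + 14 ∧ ((p + q) % 2 = 1 ∧ p % 2 = 1))
      ∨ (j = 6 ∧ n = 1 ∧ q ≤ p + 0 ∧ p ≤ q + 14 ∧ (p = q ∧ p % 2 = 0))
      ∨ (j = 8 ∧ n = 2 ∧ 3 ≤ q ∧ q ≤ p + 0 ∧ p ≤ q + 14 ∧ ((p + q) % 2 = 1 ∧ p % 2 = 1))
      ∨ (j = 10 ∧ n = 4 ∧ 7 ≤ q ∧ q ≤ p + 0 ∧ p ≤ q + 14 ∧ ((p + q) % 2 = 1 ∧ p % 2 = 1))
      ∨ (j = 12 ∧ n = 4 ∧ 12 ≤ p ∧ q ≤ p + 0 ∧ p ≤ q + 14 ∧ ((p + q) % 2 = 1 ∧ p % 2 = 0))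
      ∨ (j = 12 ∧ n = 6 ∧ 13 ≤ q ∧ q ≤ p + 0 ∧ p ≤ q + 14 ∧ ((p + q) % 2 = 1 ∧ p % 2 = 1))
      ∨ (j = 2 ∧ n = 4 ∧ p = 11 ∧ q = 6)
      ∨ (j = 2 ∧ n = 4 ∧ p = 13 ∧ q = 6)
      ∨ (j = 2 ∧ n = 4 ∧ p = 15 ∧ q = 6)
      ∨ (j = 2 ∧ n = 8 ∧ p = 19 ∧ q = 10)
      ∨ (j = 2 ∧ n = 2 ∧ p = 6 ∧ q = 1)))
    (fun j n p q => decide ((j = 2 ∧ n = 1 ∧ q ≤ p + 0 ∧ p ≤ q + 14 ∧ ¬ (p = q ∧ p % 2 = 0))
      ∨ (j = 4 ∧ n = 2 ∧ 5 ≤ q ∧ q ≤ p + 0 ∧ p ≤ q + 14 ∧ ¬ ((p + q) % 2 = 1 ∧ p % 2 = 1))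
      ∨ (j = 6 ∧ n = 1 ∧ q ≤ p + 0 ∧ p ≤ q + 14 ∧ ¬ (p = q ∧ p % 2 = 0))
      ∨ (j = 8 ∧ n = 2 ∧ 3 ≤ q ∧ q ≤ p + 0 ∧ p ≤ q + 14 ∧ ¬ ((p + q) % 2 = 1 ∧ p % 2 = 1))
      ∨ (j = 10 ∧ n = 4 ∧ 7 ≤ q ∧ q ≤ p + 0 ∧ p ≤ q + 14 ∧ ¬ ((p + q) % 2 = 1 ∧ p % 2 = 1))
      ∨ (j = 12 ∧ n = 4 ∧ 12 ≤ p ∧ q ≤ p + 0 ∧ p ≤ q + 14 ∧ ¬ ((p + q) % 2 = 1 ∧ p % 2 = 0))
      ∨ (j = 12 ∧ n = 6 ∧ 13 ≤ q ∧ q ≤ p + 0 ∧ p ≤ q + 14 ∧ ¬ ((p + q) % 2 = 1 ∧ p % 2 = 1))
      ∨ (j = 1 ∧ n = 1 ∧ q ≤ p + 0)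
      ∨ (j = 3 ∧ n = 1 ∧ p ≤ q + 12 ∧ q + 3 ≤ p)
      ∨ (j = 9 ∧ n = 1 ∧ 2 ≤ p ∧ p ≤ q + 14 ∧ q + 1 ≤ p)
      ∨ (j = 1 ∧ n = 2 ∧ q ≤ p + 0)
      ∨ (j = 3 ∧ n = 2 ∧ 3 ≤ q ∧ p ≤ q + 12 ∧ q + 3 ≤ p)
      ∨ (j = 1 ∧ n = 3 ∧ q ≤ p + 0)
      ∨ (j = 2 ∧ n = 3 ∧ 4 ≤ q ∧ p ≤ q + 11 ∧ q + 4 ≤ p)
      ∨ (j = 1 ∧ n = 4 ∧ q ≤ p + 0)
      ∨ (j = 1 ∧ n = 5 ∧ q ≤ p + 0)
      ∨ (j = 1 ∧ n = 6 ∧ q ≤ p + 0)
      ∨ (j = 1 ∧ n = 7 ∧ q ≤ p + 0)
      ∨ (j = 1 ∧ n = 8 ∧ q ≤ p + 0)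
      ∨ (j = 2 ∧ n = 4 ∧ p = 13 ∧ q = 8)
      ∨ (j = 2 ∧ n = 4 ∧ p = 15 ∧ q = 8)
      ∨ (j = 2 ∧ n = 4 ∧ p = 17 ∧ q = 8)))
    203
    0xf1a830dd7800dd7810dd6800dd6810e75850dd8000f1ab20dd8010dd7000dd7010dd6000dd6040f0b800f0b810f0a800dc8800f12120dc8810dc7800dc6800dc7810dc70a0dd7830e75000f1aba0f0a800e6e000f12120e6e010dc8000dc8010dc7000dc7040e5e800e5e810db1800db8800db1810db8810da2800f22000db7800db78e0f29920f198013e6520db6800d2b800d1b800d1b0e0d1a8e0d0b8008370e07998e07918e07910e07898e06f40e06f38e06ec0e13e60713de871348871348071341071340870f29870f29070f1a070f198f0f0b070f0a070e8c070e8b870e84870e84070e7c870e74870e74070e6c870dd0070dcf070dc1070dc0070dbf070db68f0db1070d3a870d3a070d39870d39070d38870d33070d32870d32070d31870d31070d2b8f0d2b070d2a870d2a070d29870d29070d23870d23070d22870d22070d21870d21070d1b8f0d1b070d1a870d1a070d19870d13870d13070d0b8f09028709020708fb0708fa8708f38708f30708ec0708eb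8708eb0708ea8708e48708e40708e38708e30708dd0708dc87086507086487085d87085d07085607085587084e87084e07084d87084d07084707084687084607084587083f87083f07083787083707082f8707b10707b08707b00707af8707af0707a98707a90707a88707a80707a78707a20707a18707a10707a08707a007079f87079a07079987079907079887079807079207079187079107078a07078987071387071307071287071207071187070c07070b87070b07070a87070a0707040707038707030707028707020706fc8706fc0706fb8706fb0706fa8706f40706f38706ec8706ec07 = true := by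
  decide +kernel

theorem a8_S1 (hf : Rule f) {k c n : ℕ} (H : PL f k c n (n - 4))
    (g2 : f (6 * k) (c) (2 * n + 4) (2 * n - 3))
    (g3 : f (6 * k) (c) (2 * n + 6) (2 * n - 3))
    (g4 : ¬ f (6 * k) (c) (2 * n + 4) (2 * n - 1))
    (g5 : ¬ f (6 * k) (c) (2 * n + 6) (2 * n - 1))
    (g6 : ¬ f (6 * k) (c) (2 * n + 8) (2 * n - 1))
    (g7 : f (6 * k) (c + 4) (2 * n + 10) (2 * n + 1))
    (t1 : f (6 * k) (c - 2) (2 * n - 3) (2 * n - 8)) :
    ¬ f (6 * k) (c) (2 * n + 2) (2 * n - 3) := by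
  intro hg
  have hk := H.T.hk
  have hc := H.T.hc
  have h4 := H.T.h4
  have hb := H.T.hb
  have hN := H.T.hN2
  have hg' : ∀ M R x y : ℕ, M = 6 * k → R = c → x = 2 * n + 2 → y = 2 * n - 3 → f M R x y := by
    intro M R x y e1 e2 e3 e4
    rw [e1, e2, e3, e4]
    exact hg
  clear hg
  have g2' : ∀ M R x y : ℕ, M = 6 * k → R = c → x = 2 * n + 4 → y = 2 * n - 3 → f M R x y := by
    intro M R x y e1 e2 e3 e4
    rw [e1, e2, e3, e4]
    exact g2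
  clear g2
  have g3' : ∀ M R x y : ℕ, M = 6 * k → R = c → x = 2 * n + 6 → y = 2 * n - 3 → f M R x y := by
    intro M R x y e1 e2 e3 e4
    rw [e1, e2, e3, e4]
    exact g3
  clear g3
  have g4' : ∀ M R x y : ℕ, M = 6 * k → R = c → x = 2 * n + 4 → y = 2 * n - 1 → ¬ f M R x y := by
    intro M R x y e1 e2 e3 e4
    rw [e1, e2, e3, e4]
    exact g4
  clear g4
  have g5' : ∀ M R x y : ℕ, M = 6 * k → R = c → x = 2 * n + 6 → y = 2 * n - 1 → ¬ f M R x y := by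
    intro M R x y e1 e2 e3 e4
    rw [e1, e2, e3, e4]
    exact g5
  clear g5
  have g6' : ∀ M R x y : ℕ, M = 6 * k → R = c → x = 2 * n + 8 → y = 2 * n - 1 → ¬ f M R x y := by
    intro M R x y e1 e2 e3 e4
    rw [e1, e2, e3, e4]
    exact g6
  clear g6
  have g7' : ∀ M R x y : ℕ, M = 6 * k → R = c + 4 → x = 2 * n + 10 → y = 2 * n + 1 → f M R x y := by
    intro M R x y e1 e2 e3 e4
    rw [e1, e2, e3, e4]
    exact g7
  clear g7
  have t1' : ∀ M R x y : ℕ, M = 6 * k → R = c - 2 → x = 2 * n - 3 → y = 2 * n - 8 → f M R x y := by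
    intro M R x y e1 e2 e3 e4
    rw [e1, e2, e3, e4]
    exact t1
  clear t1
  obtain ⟨a0, ha0⟩ : ∃ z, z + 2 = 6 * k := ⟨6 * k - 2, by omega⟩
  obtain ⟨b0, hb0⟩ : ∃ z, z + 4 = c := ⟨c - 4, by omega⟩
  obtain ⟨x0, hx0⟩ : ∃ z, z + 9 = 2 * n := ⟨2 * n - 9, by omega⟩
  obtain ⟨y0, hy0⟩ : ∃ z, z + 9 = 2 * n := ⟨2 * n - 9, by omega⟩
  refine check_sound hf (a0 := a0) (b0 := b0) (x0 := x0) (y0 := y0) a8_S1_chk
    ⟨fun _ => by omega, fun h => absurd h (by decide), fun h => absurd h (by decide), by omega, by omega,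
      by omega, by omega⟩ ?_ ?_
  · intro j m p q hr h
    obtain ⟨-, -, -, -, hp1, hp2, hq1, hq2⟩ := hr
    replace h := of_decide_eq_true h
    rcases h with h | h | h | h | h | h | h | h | h | h | h | h
    · obtain ⟨rfl, rfl, h⟩ := h
      exact (WrapC.v3 H.c0 (by omega) (by omega) (by omega) (by omega) (by omega) (by omega) (by omega) (by omega)).mpr (by omega)
    · obtain ⟨rfl, rfl, h⟩ := h
      exact (WrapC.v2 H.c2 (by omega) (by omega) (by omega) (by omega) (by omega) (by omega) (by omega)).mpr (by omega)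
    · obtain ⟨rfl, rfl, h⟩ := h
      exact (WrapC.v3 H.c4a (by omega) (by omega) (by omega) (by omega) (by omega) (by omega) (by omega) (by omega)).mpr (by omega)
    · obtain ⟨rfl, rfl, h⟩ := h
      exact (WrapC.v2 H.c6 (by omega) (by omega) (by omega) (by omega) (by omega) (by omega) (by omega)).mpr (by omega)
    · obtain ⟨rfl, rfl, h⟩ := h
      exact (w2v H.c8 (by omega) (by omega) (by omega) (by omega) (by omega) (by omega) (by omega)).mpr (by omega)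
    · obtain ⟨rfl, rfl, h⟩ := h
      exact (w0v H.c10 (by omega) (by omega) (by omega) (by omega) (by omega) (by omega) (by omega)).mpr (by omega)
    · obtain ⟨rfl, rfl, h⟩ := h
      exact (w2v H.c10 (by omega) (by omega) (by omega) (by omega) (by omega) (by omega) (by omega)).mpr (by omega)
    · obtain ⟨rfl, rfl, rfl, rfl⟩ := h
      exact hg' _ _ _ _ (by omega) (by omega) (by omega) (by omega)
    · obtain ⟨rfl, rfl, rfl, rfl⟩ := h
      exact g2' _ _ _ _ (by omega) (by omega) (by omega) (by omega)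
    · obtain ⟨rfl, rfl, rfl, rfl⟩ := h
      exact g3' _ _ _ _ (by omega) (by omega) (by omega) (by omega)
    · obtain ⟨rfl, rfl, rfl, rfl⟩ := h
      exact g7' _ _ _ _ (by omega) (by omega) (by omega) (by omega)
    · obtain ⟨rfl, rfl, rfl, rfl⟩ := h
      exact t1' _ _ _ _ (by omega) (by omega) (by omega) (by omega)
  · intro j m p q hr h
    obtain ⟨-, -, -, -, hp1, hp2, hq1, hq2⟩ := hr
    replace h := of_decide_eq_true h
    rcases h with h | h | h | h | h | h | h | h | h | h | h | h | h | h | h | h | h | h | h | h | h | h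
    · obtain ⟨rfl, rfl, h⟩ := h
      exact mt (WrapC.v3 H.c0 (by omega) (by omega) (by omega) (by omega) (by omega) (by omega) (by omega) (by omega)).mp (by omega)
    · obtain ⟨rfl, rfl, h⟩ := h
      exact mt (WrapC.v2 H.c2 (by omega) (by omega) (by omega) (by omega) (by omega) (by omega) (by omega)).mp (by omega)
    · obtain ⟨rfl, rfl, h⟩ := h
      exact mt (WrapC.v3 H.c4a (by omega) (by omega) (by omega) (by omega) (by omega) (by omega) (by omega) (by omega)).mp (by omega)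
    · obtain ⟨rfl, rfl, h⟩ := h
      exact mt (WrapC.v2 H.c6 (by omega) (by omega) (by omega) (by omega) (by omega) (by omega) (by omega)).mp (by omega)
    · obtain ⟨rfl, rfl, h⟩ := h
      exact mt (w2v H.c8 (by omega) (by omega) (by omega) (by omega) (by omega) (by omega) (by omega)).mp (by omega)
    · obtain ⟨rfl, rfl, h⟩ := h
      exact mt (w0v H.c10 (by omega) (by omega) (by omega) (by omega) (by omega) (by omega) (by omega)).mp (by omega)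
    · obtain ⟨rfl, rfl, h⟩ := h
      exact mt (w2v H.c10 (by omega) (by omega) (by omega) (by omega) (by omega) (by omega) (by omega)).mp (by omega)
    · obtain ⟨rfl, rfl, h⟩ := h
      exact H.lw _ _ _ _ (by omega) (by omega) (by omega) (by omega) (by omega) (by omega)
    · obtain ⟨rfl, rfl, h⟩ := h
      exact NHT.rOut hf H.T (t := 2) (p := 1) (j := 2) (by omega) (by omega) (by omega) (by omega) (by omega) (by omega) (by omega) (by omega)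
    · obtain ⟨rfl, rfl, h⟩ := h
      exact NHT.rIn hf H.T (t := 3) (p := 1) (j := 0) (by omega) (by omega) (by omega) (by omega) (by omega) (by omega) (by omega) (by omega)
    · obtain ⟨rfl, rfl, h⟩ := h
      exact H.lw _ _ _ _ (by omega) (by omega) (by omega) (by omega) (by omega) (by omega)
    · obtain ⟨rfl, rfl, h⟩ := h
      exact NHT.pm hf H.T (j := 2) (by omega) (by omega) (by omega) (by omega) (by omega) (by omega)
    · obtain ⟨rfl, rfl, h⟩ := h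
      exact H.lw _ _ _ _ (by omega) (by omega) (by omega) (by omega) (by omega) (by omega)
    · obtain ⟨rfl, rfl, h⟩ := h
      exact rm1 hf H.T (p := 0) (j := 3) (by omega) (by omega) (by omega) (by omega) (by omega) (by omega) (by omega)
    · obtain ⟨rfl, rfl, h⟩ := h
      exact H.lw _ _ _ _ (by omega) (by omega) (by omega) (by omega) (by omega) (by omega)
    · obtain ⟨rfl, rfl, h⟩ := h
      exact H.lw _ _ _ _ (by omega) (by omega) (by omega) (by omega) (by omega) (by omega)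
    · obtain ⟨rfl, rfl, h⟩ := h
      exact H.lw _ _ _ _ (by omega) (by omega) (by omega) (by omega) (by omega) (by omega)
    · obtain ⟨rfl, rfl, h⟩ := h
      exact H.lw _ _ _ _ (by omega) (by omega) (by omega) (by omega) (by omega) (by omega)
    · obtain ⟨rfl, rfl, h⟩ := h
      exact H.lw _ _ _ _ (by omega) (by omega) (by omega) (by omega) (by omega) (by omega)
    · obtain ⟨rfl, rfl, rfl, rfl⟩ := h
      exact g4' _ _ _ _ (by omega) (by omega) (by omega) (by omega)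
    · obtain ⟨rfl, rfl, rfl, rfl⟩ := h
      exact g5' _ _ _ _ (by omega) (by omega) (by omega) (by omega)
    · obtain ⟨rfl, rfl, rfl, rfl⟩ := h
      exact g6' _ _ _ _ (by omega) (by omega) (by omega) (by omega)

end Pool.Agent.SNT.E4
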