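import Pool.Agent.SNT.LocG

set_option autoImplicit false

/-! The exterior calculus: static even layers and zero odd layers at the distances from `D` on,
columns beyond `V`, up to the distance `E`. -/

namespace Pool.Agent.SNT.ExtC

open Pool.Agent.SNT.TipI Pool.Agent.SNT.LocZ Pool.Agent.SNT.LocG

variable {f : ℕ → ℕ → ℕ → ℕ → Prop}

/-- The layer `L` is static in the row `r` for `V < x`, `D ≤ x - y ≤ E`. -/
def Ex (f : ℕ → ℕ → ℕ → ℕ → Prop) (L r V D E : ℕ) : Prop :=
  ∀ x y : ℕ, V < x → y + D ≤ x → x ≤ y + E → (f L r x y ↔ Fst L r x y)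

/-- The layer `L` is zero in the row `r` for `V < x`, `D ≤ x - y ≤ E`. -/
def Ze (f : ℕ → ℕ → ℕ → ℕ → Prop) (L r V D E : ℕ) : Prop :=
  ∀ x y : ℕ, V < x → y + D ≤ x → x ≤ y + E → ¬ f L r x y

theorem Ex.mono {L r V D E V' D' E' : ℕ} (h : Ex f L r V D E) (hV : V ≤ V') (hD : D ≤ D')
    (hE : E' ≤ E) : Ex f L r V' D' E' :=
  fun x y h1 h2 h3 => h x y (by omega) (by omega) (by omega)

theorem Ze.mono {L r V D E V' D' E' : ℕ} (h : Ze f L r V D E) (hV : V ≤ V') (hD : D ≤ D')
    (hE : E' ≤ E) : Ze f L r V' D' E' :=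
  fun x y h1 h2 h3 => h x y (by omega) (by omega) (by omega)

/-- The next row of an even layer. -/
theorem Ex.step (hf : Rule f) {L P r V D DP E : ℕ} (hL : L % 2 = 0) (h6 : 6 ≤ L) (hP : P + 1 = L)
    (hD : 2 * (L / 6) ≤ D) (hE : E + L + 20 ≤ r) (hV : E + 8 ≤ V)
    (h : Ex f L r V D E) (h0 : Ze f P (r + 1) (V + 1) DP E) (h1 : Ze f P r (V + 1) DP E) {D' : ℕ}
    (hD' : D + 1 ≤ D') (hDP : DP + 1 ≤ D') (hD1 : 1 ≤ DP) : Ex f L (r + 1) (V + 2) D' (E - 1) := by
  intro x y hx hd he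
  refine ext_gen hf (D := D) hL h6 (by omega) (by omega) (by omega) (Or.inl hD) (by omega) ?_ ?_
  · intro u v h2 h3 h4 h5
    exact h u v (by omega) h4 (by omega)
  · intro _ q i s hq hi hs
    have e1 : L - 1 = P := by omega
    rw [e1]
    rcases Nat.eq_zero_or_pos q with hq0 | hq0
    · subst hq0
      exact h0 (x - i) (y - s) (by omega) (by omega) (by omega)
    · have e2 : r + 1 - q = r := by omega
      rw [e2]
      exact h1 (x - i) (y - s) (by omega) (by omega) (by omega)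

/-- The odd layer above in an odd row. -/
theorem Ze.odd (hf : Rule f) {L P Q r V D E : ℕ} (hL : L % 2 = 0) (hP : P + 1 = L) (hQ : Q = L + 1)
    (hr : r % 2 = 0) (h0 : Ze f P (r + 1) V D E) (h1 : Ze f P r V D E) (hE : E ≤ V) :
    Ze f Q (r + 1) (V + 1) (D + 1) (E - 1) := by
  intro x y hx hd he
  subst hQ
  refine eonly hf hL (by omega) ?_
  intro q i s hq hi hs
  have e1 : L - 1 = P := by omega
  rw [e1]
  rcases Nat.eq_zero_or_pos q with hq0 | hq0
  · subst hq0
    exact h0 (x - i) (y - s) (by omega) (by omega) (by omega)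
  · have e2 : r + 1 - q = r := by omega
    rw [e2]
    exact h1 (x - i) (y - s) (by omega) (by omega) (by omega)

/-- The odd layer above in an even row. -/
theorem Ze.even (hf : Rule f) {L P Q r V W D DP E : ℕ} (hL : L % 2 = 0) (h6 : 6 ≤ L)
    (hP : P + 1 = L) (hQ : Q = L + 1) (hr : r % 2 = 1) (hD : 2 * (L / 6) ≤ D)
    (hE : E + L + 20 ≤ r) (hV : E + 8 ≤ V) (h : Ex f L r V D E) (h0 : Ze f P (r + 1) W DP E)
    (h1 : Ze f P r W DP E) {V' D' : ℕ} (hW : W + 1 ≤ V') (hV' : V + 1 ≤ V' ∨ V ≤ V' ∧ V' % 2 = 0)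
    (hD' : D ≤ D') (hDP : DP + 1 ≤ D') : Ze f Q (r + 1) V' D' (E - 1) := by
  intro x y hx hd he
  subst hQ
  by_cases hne : x % 2 = 0 ∧ y % 2 = 0
  · obtain ⟨h2, h3⟩ := hne
    have h4 := h x y (by omega) (by omega) (by omega)
    have h5 := h (x - 1) (y - 1) (by omega) (by omega) (by omega)
    rw [fst_ext hL h6 (by omega) (by omega) (by omega)] at h4 h5
    obtain ⟨g, hg⟩ : ∃ g, g = L / 6 := ⟨_, rfl⟩
    rw [← hg] at h4 h5
    rcases (show (L + r + x + y) % 4 = (1 + 2 * g) % 4 ∨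
      (L + r + (x - 1) + (y - 1)) % 4 = (1 + 2 * g) % 4 by omega) with h7 | h7
    · exact kill hf (h4.2 h7) (by omega) (by omega) (by omega) (by omega) (by omega)
    · exact kill hf (h5.2 h7) (by omega) (by omega) (by omega) (by omega) (by omega)
  · refine eonly hf hL (by omega) ?_
    intro q i s hq hi hs
    have e1 : L - 1 = P := by omega
    rw [e1]
    rcases Nat.eq_zero_or_pos q with hq0 | hq0
    · subst hq0
      exact h0 (x - i) (y - s) (by omega) (by omega) (by omega)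
    · have e2 : r + 1 - q = r := by omega
      rw [e2]
      exact h1 (x - i) (y - s) (by omega) (by omega) (by omega)

/-- An odd layer which is static is zero in the near zone. -/
theorem Ze.of_st {L r V E X : ℕ} (hL : L % 2 = 1) (hE : E + L + 12 ≤ r) (h : St f L r X)
    (hX : X ≤ V) : Ze f L r V 0 E := by
  intro x y hx hd he
  rw [h x y (by rw [max_eq_left (by omega)]; omega)]
  exact Fst_near_odd hL (by rw [max_eq_left (by omega), min_eq_right (by omega)]; omega)

theorem Ex.of_st {L r V D E X : ℕ} (h : St f L r X) (hX : X ≤ V) : Ex f L r V D E :=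
  fun x y hx _ _ => h x y (by rw [max_eq_left (by omega)]; omega)

theorem Ex.of_r2x {L b r K V D E : ℕ} (h : Cyc f L b K) (hr : b + 2 = r) (hV : K + 4 ≤ V)
    (hD : 2 * (L / 6) ≤ D) : Ex f L r V D E := by
  intro x y hx hd _
  subst hr
  exact h.r2x x y (by rw [max_eq_left (by omega), min_eq_right (by omega)]; omega)
    (by rw [max_eq_left (by omega)]; omega)

end Pool.Agent.SNT.ExtC
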