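import Pool.Agent.SNT.PfDef
import Pool.Agent.SNT.TipI
import Pool.Agent.SNT.Near

set_option autoImplicit false

/-! The far field: far from the diagonal the rows of a window are static up to a fixed number of
columns behind the front. -/

namespace Pool.Agent.SNT

open TipI

variable {f : ℕ → ℕ → ℕ → ℕ → Prop}

/-- The exterior chain: from one row, static beyond `L0` in all the layers up to `A`. -/
theorem far_chain (hf : Rule f) {A b0 L0 : ℕ} (hAb : A + 4 ≤ b0) (hL : L0 % 2 = 0)
    (hbL : A + b0 + 6 ≤ L0) (h0 : ∀ a : ℕ, a ≤ A → St f a b0 L0) : ∀ t a : ℕ, a ≤ A →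
    ∀ x y : ℕ, y ≤ x → L0 + 2 * (a + t) < x → 3 * (a + t) + 2 * (A / 6) + 1 ≤ x - y →
      (f a (b0 + t) x y ↔ Fst a (b0 + t) x y) := by
  intro t
  induction t with
  | zero =>
    intro a ha x y hyx hx _
    exact h0 a ha x y (by omega)
  | succ t iht =>
    intro a
    induction a with
    | zero =>
      intro ha x y hyx hx hd
      rcases Nat.lt_or_ge y 6 with h6 | h6
      · rw [hf.far 0 (b0 + (t + 1)) x y (by omega), Fst_far (by omega) (by omega)]
      · refine QF_loc hf (L := L0 + 2 * (0 + t)) (D := 3 * (0 + t) + 2 * (A / 6) + 1) (by omega)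
          (by omega) hyx (by omega) h6 (by omega) (by omega) ?_
        intro u v hvu hu huv p q hp hq hpq hpa hqb
        have hp0 : p = 0 := by omega
        have hq1 : q = 1 := by omega
        subst hp0 hq1
        exact iht 0 (by omega) u v hvu (by omega) (by omega)
    | succ a iha =>
      intro ha x y hyx hx hd
      have h66 : (a + 1) / 6 ≤ A / 6 := Nat.div_le_div_right ha
      rcases Nat.lt_or_ge y 6 with h6 | h6
      · rw [hf.far (a + 1) (b0 + (t + 1)) x y (by omega), Fst_far (by omega) (by omega)]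
      · refine QF_loc hf (L := L0 + 2 * (a + 1 + t)) (D := 3 * (a + 1 + t) + 2 * (A / 6) + 1)
          (by omega) (by omega) hyx (by omega) h6 (by omega) (by omega) ?_
        intro u v hvu hu huv p q hp hq hpq hpa hqb
        rcases Nat.eq_zero_or_pos p with hp0 | hp0
        · have hq1 : q = 1 := by omega
          subst hp0 hq1
          exact iht (a + 1) ha u v hvu (by omega) (by omega)
        · have hp1 : p = 1 := by omega
          subst hp1
          rcases Nat.eq_zero_or_pos q with hq0 | hq0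
          · subst hq0
            exact iha (by omega) u v hvu (by omega) (by omega)
          · have hq1 : q = 1 := by omega
            subst hq1
            exact iht a (by omega) u v hvu (by omega) (by omega)

/-- One constant for the linear bounds of finitely many layers. -/
theorem lin_le (hf : Rule f) (N : ℕ) : ∃ C : ℕ, ∀ a : ℕ, a ≤ N → Lin f a C := by
  induction N with
  | zero =>
    obtain ⟨C, hC⟩ := lin hf 0
    exact ⟨C, fun a ha => by
      have : a = 0 := by omega
      subst this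
      exact hC⟩
  | succ N ih =>
    obtain ⟨C, hC⟩ := ih
    obtain ⟨D, hD⟩ := lin hf (N + 1)
    refine ⟨C + D, fun a ha => ?_⟩
    rcases Nat.lt_or_ge a (N + 1) with h | h
    · intro b K hK
      exact hC a (by omega) b K (by omega)
    · have : a = N + 1 := by omega
      subst this
      intro b K hK
      exact hD b K (by omega)

/-- The far field of a window. -/
def FarW (f : ℕ → ℕ → ℕ → ℕ → Prop) (k b m : ℕ) : Prop :=
  ∀ a i x y : ℕ, a ≤ 6 * k + 10 → i ≤ 100 → 2 * m - (100 * k + 1000) < max x y →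
    b ≤ 2 * (max x y - min x y) → (f a (b + i) x y ↔ Fst a (b + i) x y)

theorem exists_far (hf : Rule f) {k : ℕ} (hk : 8 ≤ k) (J : ℤ) : ∃ B : ℕ, ∀ b m : ℕ, B ≤ b →
    (6 * k + b) % 4 = 2 → (m : ℤ) + k = nuLead k (6 * k) b + (J - 1) → FarW f k b m := by
  obtain ⟨C, hC⟩ := lin_le hf (6 * k + 10)
  refine ⟨10 * C + 120 * k * k + 6000 * k + 80000 + 80 * J.natAbs, ?_⟩
  intro b m hB hb hm a i x y ha hi hx hd
  have hex := nuLead_exact (k := k) (a := 6 * k) (b := b) (by omega) hb
  push_cast at hex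
  have hJ : -(J.natAbs : ℤ) ≤ J := by omega
  have hB' : 10 * (C : ℤ) + 120 * k * k + 6000 * k + 80000 + 80 * J.natAbs ≤ b := by
    exact_mod_cast hB
  have hk' : (8 : ℤ) ≤ k := by exact_mod_cast hk
  have hkk0 : 0 ≤ 120 * k * k := Nat.zero_le _
  have hkB : 400 * k + 8000 ≤ b := by omega
  -- the starting row
  obtain ⟨δ, hδ1, hδ2⟩ : ∃ δ : ℕ, 20 * δ ≤ 3 * b ∧ 3 * b < 20 * δ + 20 :=
    ⟨3 * b / 20, by omega, by omega⟩
  obtain ⟨b0, hb0⟩ : ∃ b0 : ℕ, b = b0 + δ := ⟨b - δ, by omega⟩
  obtain ⟨L0, hL2, hL1, hL3⟩ : ∃ L0 : ℕ, L0 % 2 = 0 ∧ (2 * k + 6) * b0 + C ≤ 4 * L0 ∧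
      4 * L0 ≤ (2 * k + 6) * b0 + C + 8 := by
    refine ⟨2 * (((2 * k + 6) * b0 + C) / 8 + 1), by omega, by omega, by omega⟩
  have h22 : 22 * b0 ≤ (2 * k + 6) * b0 := Nat.mul_le_mul_right _ (by omega)
  have h0 : ∀ a : ℕ, a ≤ 6 * k + 10 → St f a b0 L0 := by
    intro a ha
    refine hC a ha b0 L0 (le_trans ?_ hL1)
    refine Nat.add_le_add_right (Nat.mul_le_mul_right _ ?_) _
    unfold cc
    omega
  have key : L0 + 2 * (6 * k + 10 + (δ + 100)) ≤ 2 * m - (100 * k + 1000) := by
    have hL3' : 4 * (L0 : ℤ) ≤ (2 * k + 6) * b0 + C + 8 := by exact_mod_cast hL3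
    have hbb : (b : ℤ) = b0 + δ := by exact_mod_cast hb0
    have hδ2' : 3 * (b : ℤ) < 20 * δ + 20 := by exact_mod_cast hδ2
    have hδ0 : (0 : ℤ) ≤ δ := Int.natCast_nonneg δ
    have hkd : (0 : ℤ) ≤ ((k : ℤ) - 8) * δ := mul_nonneg (by linarith) hδ0
    have hkk : (0 : ℤ) ≤ (k : ℤ) * k := mul_nonneg (by linarith) (by linarith)
    have hC0 : (0 : ℤ) ≤ C := Int.natCast_nonneg C
    have hJ0 : (0 : ℤ) ≤ J.natAbs := Int.natCast_nonneg _
    have e1 : (2 * (k : ℤ) + 6) * b0 = (2 * k + 6) * b - (2 * k + 6) * δ := by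
      rw [hbb]
      ring
    have hb0' : (b0 : ℤ) = b - δ := by linarith
    have key' : (L0 : ℤ) + 2 * (6 * k + 10 + (δ + 100)) + (100 * k + 1000) ≤ 2 * m := by
      have hm' : 8 * (m : ℤ) = 2 * ((k + 2) * b + 2 * k - (k - 2) * (6 * k)) + 8 * (J - 1) - 8 * k := by
        linear_combination 8 * hm + 2 * hex
      have h14 : 14 * (δ : ℤ) ≤ (2 * k - 2) * δ := by nlinarith
      have e2 : (2 * (k : ℤ) + 6) * δ = (2 * k - 2) * δ + 8 * δ := by ring
      have e3 : 2 * (((k : ℤ) + 2) * b + 2 * k - (k - 2) * (6 * k)) =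
        (2 * k + 4) * b + 28 * k - 12 * (k * k) := by ring
      have e4 : (2 * (k : ℤ) + 6) * b = (2 * k + 4) * b + 2 * b := by ring
      have e5 : 120 * (k : ℤ) * k = 120 * (k * k) := by ring
      rw [e5] at hB'
      rw [e1, e2, e4] at hL3'
      rw [e3] at hm'
      linarith
    omega
  have ht := far_chain hf (A := 6 * k + 10) (b0 := b0) (L0 := L0) (by omega) hL2 (by omega) h0
    (δ + i) a ha
  have e : b0 + (δ + i) = b + i := by omega
  rw [e] at ht
  rcases le_total y x with hyx | hyx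
  · rw [max_eq_left hyx, min_eq_right hyx] at *
    exact ht x y hyx (by omega) (by omega)
  · rw [max_eq_right hyx, min_eq_left hyx] at *
    rw [hf.swap_xy, Fst_swap]
    exact ht y x hyx (by omega) (by omega)

end Pool.Agent.SNT
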