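import Pool.Agent.SNT.Proj

set_option autoImplicit false

/-! Final assembly for `S10712`: a front of unbounded slope in `Qf r m`. -/

namespace Pool.Agent.SNT

open Finset Pointwise

/-- A front of unbounded slope in `Qf r m` (`2 r ≤ k`, `m ≤ k + 1 + r`) gives a set of P-positions
which is not semilinear. -/
theorem final {k r m : ℕ} (hk : 1 ≤ k) (hr : 2 * r ≤ k) (hm : m ≤ k + 1 + r)
    (w : Fin m → ℕ) (u : Fin 3 → Fin m → ℕ)
    (hfront : ∀ C : ℕ, ∃ a b t : ℕ, C * (a + b + 1) ≤ t ∧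
      ∀ j : ℕ, 1 ≤ j → ¬ (Qf r m (pos w u a b t) ↔ Qf r m (pos w u a b (t + 2 * j)))) :
    ¬ (∀ n k : ℕ, 1 ≤ k →
      ∀ P : Set (Fin n → ℕ),
        (∀ x : Fin n → ℕ, x ∈ P ↔
          ∀ S : Finset (Fin n), S.card = k → (∀ i ∈ S, 1 ≤ x i) →
            (fun i => if i ∈ S then x i - 1 else x i) ∉ P) →
        ∃ m r : ℕ, ∃ base : Fin m → Fin n → ℕ, ∃ per : Fin m → Fin r → Fin n → ℕ,
          ∀ x : Fin n → ℕ, x ∈ P ↔
            ∃ i : Fin m, ∃ c : Fin r → ℕ, x = base i + ∑ j, c j • per i j) := by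
  intro h
  have h1 : IsSemilinearSet {y | Qf r m y} :=
    semilinear_Qf_le hk hr hm (gameEq_isPpos hk) (h _ k hk _ (gameEq_isPpos hk))
  obtain ⟨N, C, hN, hp⟩ := semilinear_per (section_semilinear h1 w u)
  obtain ⟨a, b, t, ht, hf⟩ := hfront C
  have e1 : Qf r m (pos w u a b t) ↔ Qf r m (pos w u a b (t + N)) := hp a b t ht
  have e2 : Qf r m (pos w u a b (t + N)) ↔ Qf r m (pos w u a b (t + N + N)) :=
    hp a b (t + N) (by omega)
  refine hf N hN ?_
  rw [e1, e2]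
  have : t + N + N = t + 2 * N := by ring
  rw [this]

/-- Version for `f : ℕ → ℕ → ℕ → ℕ → Prop`, four piles, at most three even ones. -/
theorem final4
    (hfront : ∀ f : ℕ → ℕ → ℕ → ℕ → Prop, (∀ z : Fin 4 → ℕ, f (z 0) (z 1) (z 2) (z 3) ↔
        (¬ AllEven z ∧ ∀ K : Finset (Fin 4), K.Nonempty → (∀ i ∈ K, 1 ≤ z i) →
          ¬ f (sub1 z K 0) (sub1 z K 1) (sub1 z K 2) (sub1 z K 3))) →
      ∀ C : ℕ, ∃ a b t : ℕ, C * (a + b + 1) ≤ t ∧
        ∀ j : ℕ, 1 ≤ j → ¬ (f a b t t ↔ f a b (t + 2 * j) (t + 2 * j))) :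
    ¬ (∀ n k : ℕ, 1 ≤ k →
      ∀ P : Set (Fin n → ℕ),
        (∀ x : Fin n → ℕ, x ∈ P ↔
          ∀ S : Finset (Fin n), S.card = k → (∀ i ∈ S, 1 ≤ x i) →
            (fun i => if i ∈ S then x i - 1 else x i) ∉ P) →
        ∃ m r : ℕ, ∃ base : Fin m → Fin n → ℕ, ∃ per : Fin m → Fin r → Fin n → ℕ,
          ∀ x : Fin n → ℕ, x ∈ P ↔
            ∃ i : Fin m, ∃ c : Fin r → ℕ, x = base i + ∑ j, c j • per i j) := by
  have hvec : ∀ z : Fin 4 → ℕ, ![z 0, z 1, z 2, z 3] = z := by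
    intro z
    ext i
    fin_cases i <;> rfl
  have hposv : ∀ a b t : ℕ, pos (0 : Fin 4 → ℕ) ![![1, 0, 0, 0], ![0, 1, 0, 0], ![0, 0, 1, 1]]
      a b t = ![a, b, t, t] := by
    intro a b t
    ext i
    fin_cases i <;> simp [pos]
  refine final (k := 6) (r := 3) (m := 4) (by norm_num) (by norm_num) (by norm_num)
    (0 : Fin 4 → ℕ) ![![1, 0, 0, 0], ![0, 1, 0, 0], ![0, 0, 1, 1]] ?_
  intro C
  obtain ⟨a, b, t, ht, hf⟩ := hfront (fun a b x y => Qf 3 4 ![a, b, x, y]) (by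
    intro z
    show Qf 3 4 ![z 0, z 1, z 2, z 3] ↔ _
    rw [hvec, isQ_Qf 3 4 z]
    refine and_congr ?_ (forall_congr' fun K => forall_congr' fun _ => forall_congr' fun _ => ?_)
    · have h1 := evn_add_odn z
      constructor
      · intro h2 hall
        have h5 : (odn z).card = 0 := by
          rw [card_eq_zero]
          ext i
          simp only [odn, mem_filter, mem_univ, true_and, notMem_empty, iff_false]
          have := hall i
          omega
        omega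
      · intro hall
        by_contra h2
        refine hall fun i => ?_
        by_contra h3
        have : i ∈ odn z := by
          simp only [odn, mem_filter, mem_univ, true_and]
          omega
        have := card_pos.2 ⟨i, this⟩
        omega
    · show _ ↔ ¬ Qf 3 4 ![sub1 z K 0, sub1 z K 1, sub1 z K 2, sub1 z K 3]
      rw [hvec]) C
  refine ⟨a, b, t, ht, fun j hj => ?_⟩
  rw [hposv, hposv]
  exact hf j hj

end Pool.Agent.SNT
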