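import Pool.Agent.SNT.L6Q

set_option autoImplicit false
set_option linter.unusedVariables false
set_option synthInstance.maxSize 100000
set_option synthInstance.maxHeartbeats 4000000

/-! Small windows of the leader `6 k + 6`. -/

namespace Pool.Agent.SNT.LocR6

open Pool.Agent.SNT Pool.Agent.SNT.Loc Pool.Agent.SNT.LW

variable {f : ℕ → ℕ → ℕ → ℕ → Prop}

theorem z22_chk : check 6 8 10 10 0 1 0 0 2
    (fun j n p q => decide ((j = 2 ∧ n = 1 ∧ p = 5 ∧ q = 2) ∨ (j = 2 ∧ n = 1 ∧ p = 5 ∧ q = 4) ∨ (j = 2 ∧ n = 2 ∧ p = 4 ∧ q = 4) ∨ (j = 4 ∧ n = 1 ∧ p = 6 ∧ q = 3) ∨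
      (j = 4 ∧ n = 1 ∧ p = 6 ∧ q = 5) ∨ (j = 4 ∧ n = 2 ∧ p = 5 ∧ q = 5) ∨ (j = 6 ∧ n = 3 ∧ p = 6 ∧ q = 5) ∨ (j = 6 ∧ n = 3 ∧ p = 8 ∧ q = 5) ∨
      (j = 3 ∧ n = 5 ∧ p = 6 ∧ q = 6)))
    (fun j n p q => decide (((j = 1 ∧ n = 2 ∧ p = 4 ∧ q = 2) ∨ (j = 1 ∧ n = 2 ∧ p = 4 ∧ q = 3) ∨ (j = 1 ∧ n = 2 ∧ p = 5 ∧ q = 2) ∨ (j = 1 ∧ n = 2 ∧ p = 5 ∧ q = 3) ∨
      (j = 1 ∧ n = 2 ∧ p = 6 ∧ q = 2) ∨ (j = 1 ∧ n = 2 ∧ p = 6 ∧ q = 3) ∨ (j = 1 ∧ n = 3 ∧ p = 4 ∧ q = 2) ∨ (j = 1 ∧ n = 3 ∧ p = 4 ∧ q = 3) ∨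
      (j = 1 ∧ n = 3 ∧ p = 4 ∧ q = 4) ∨ (j = 1 ∧ n = 3 ∧ p = 5 ∧ q = 2) ∨ (j = 1 ∧ n = 3 ∧ p = 5 ∧ q = 3) ∨ (j = 1 ∧ n = 3 ∧ p = 5 ∧ q = 4)) ∨
      ((j = 1 ∧ n = 3 ∧ p = 5 ∧ q = 5) ∨ (j = 1 ∧ n = 3 ∧ p = 6 ∧ q = 2) ∨ (j = 1 ∧ n = 3 ∧ p = 6 ∧ q = 3) ∨ (j = 1 ∧ n = 4 ∧ p = 4 ∧ q = 4) ∨
      (j = 1 ∧ n = 4 ∧ p = 5 ∧ q = 4) ∨ (j = 1 ∧ n = 4 ∧ p = 5 ∧ q = 5) ∨ (j = 1 ∧ n = 4 ∧ p = 6 ∧ q = 4) ∨ (j = 1 ∧ n = 4 ∧ p = 6 ∧ q = 5) ∨
      (j = 1 ∧ n = 5 ∧ p = 5 ∧ q = 4) ∨ (j = 1 ∧ n = 5 ∧ p = 5 ∧ q = 5) ∨ (j = 1 ∧ n = 5 ∧ p = 6 ∧ q = 4) ∨ (j = 1 ∧ n = 5 ∧ p = 6 ∧ q = 5)) ∨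
      ((j = 2 ∧ n = 2 ∧ p = 4 ∧ q = 2) ∨ (j = 2 ∧ n = 2 ∧ p = 4 ∧ q = 3) ∨ (j = 2 ∧ n = 2 ∧ p = 5 ∧ q = 2) ∨ (j = 2 ∧ n = 2 ∧ p = 5 ∧ q = 3) ∨
      (j = 2 ∧ n = 2 ∧ p = 6 ∧ q = 2) ∨ (j = 2 ∧ n = 2 ∧ p = 6 ∧ q = 3) ∨ (j = 2 ∧ n = 2 ∧ p = 6 ∧ q = 4) ∨ (j = 2 ∧ n = 3 ∧ p = 4 ∧ q = 4) ∨
      (j = 2 ∧ n = 3 ∧ p = 5 ∧ q = 4) ∨ (j = 2 ∧ n = 3 ∧ p = 5 ∧ q = 5) ∨ (j = 4 ∧ n = 2 ∧ p = 6 ∧ q = 4) ∨ (j = 4 ∧ n = 2 ∧ p = 7 ∧ q = 4)) ∨
      ((j = 4 ∧ n = 2 ∧ p = 7 ∧ q = 5))))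
    112
    0x88283055d00055d0103c28003c81a03ff0004363203fe0004039a03fe8e088283055d00055d0103c28003c79203fe8003fe840a13000a1200068e00068400036880035e800a208e0a168e06c98e06c90e06c40e06bf8006928e06918e05cb0003a40e03a38e03a30e039e8e039e0e039a0003998e03990e036d0e036c0e02aa8e02aa0e02a50e02788e02780e02730e02458e02450e02410e02408e02400e023b8e023b0e02138e02130e020e8e020e0e02098e02090e0a208f0a168f06ed0706c98706c90706c40706bf8f06928f06918f05cb0f04310703d18703d10703cd0703cc0703c30703c20703a40703a38703a307039e87039e07039a0f039987039907036d0f036c0f02aa8702aa0702a58702a507027887027807027387027307026e07024587024507024187024107024087024007023c07023b87023b07021387021307020e87020e07020987020907 = true := by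
  decide +kernel

theorem z22 (hf : Rule f) {k b n : ℕ} (h : HZ f k b n) :
    ¬ f (6 * k + 1) (b + 2) (2 * n + 2) (2 * n + 2) := by
  intro hx
  have hk := h.hk
  have hb := h.hb
  have h4 := h.h4
  have hbig := h.hbig
  have hn := h.hn
  obtain ⟨a0, ha0⟩ : ∃ z, z + 2 = 6 * k := ⟨6 * k - 2, by omega⟩
  obtain ⟨b0, hb0⟩ : ∃ z, z + 3 = b := ⟨b - 3, by omega⟩
  obtain ⟨x0, hx0⟩ : ∃ z, z + 4 = 2 * n := ⟨2 * n - 4, by omega⟩
  refine check_sound hf (a0 := a0) (b0 := b0) (x0 := x0) (y0 := x0) z22_chk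
    ⟨fun _ => rfl, fun h => absurd h (by decide), fun h => absurd h (by decide), by omega, by omega,
      by omega, by omega⟩ ?_ ?_
  · intro j m p q hr h
    clear hr
    replace h := of_decide_eq_true h
    rcases h with ⟨rfl, rfl, rfl, rfl⟩ | ⟨rfl, rfl, rfl, rfl⟩ | ⟨rfl, rfl, rfl, rfl⟩ | ⟨rfl, rfl, rfl, rfl⟩ |
      ⟨rfl, rfl, rfl, rfl⟩ | ⟨rfl, rfl, rfl, rfl⟩ | ⟨rfl, rfl, rfl, rfl⟩ | ⟨rfl, rfl, rfl, rfl⟩ |
      ⟨rfl, rfl, rfl, rfl⟩
    · exact (h.q_c0_0 (by omega) (by omega) (by omega) (by omega) (by omega)).mpr (by omega)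
    · exact (h.q_c0_0 (by omega) (by omega) (by omega) (by omega) (by omega)).mpr (by omega)
    · exact (h.q_c0_1 (by omega) (by omega) (by omega) (by omega) (by omega)).mpr (by omega)
    · exact (h.q_c2m_2 (by omega) (by omega) (by omega) (by omega) (by omega)).mpr (by omega)
    · exact (h.q_c2m_2 (by omega) (by omega) (by omega) (by omega) (by omega)).mpr (by omega)
    · exact (h.q_c2m_3 (by omega) (by omega) (by omega) (by omega) (by omega)).mpr (by omega)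
    · exact (h.q_c4m_2 (by omega) (by omega) (by omega) (by omega) (by omega)).mpr (by omega)
    · exact (h.q_c4m_2 (by omega) (by omega) (by omega) (by omega) (by omega)).mpr (by omega)
    · exact mv hx (by omega) (by omega) (by omega) (by omega)
  · intro j m p q hr h
    clear hr
    replace h := of_decide_eq_true h
    rcases h with h | h | h | h
    · rcases h with ⟨rfl, rfl, rfl, rfl⟩ | ⟨rfl, rfl, rfl, rfl⟩ | ⟨rfl, rfl, rfl, rfl⟩ | ⟨rfl, rfl, rfl, rfl⟩ |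
        ⟨rfl, rfl, rfl, rfl⟩ | ⟨rfl, rfl, rfl, rfl⟩ | ⟨rfl, rfl, rfl, rfl⟩ | ⟨rfl, rfl, rfl, rfl⟩ |
        ⟨rfl, rfl, rfl, rfl⟩ | ⟨rfl, rfl, rfl, rfl⟩ | ⟨rfl, rfl, rfl, rfl⟩ | ⟨rfl, rfl, rfl, rfl⟩
      · exact h.lw _ _ _ _ (by omega) (by omega) (by omega) (by omega) (by omega) (by omega)
      · exact h.lw _ _ _ _ (by omega) (by omega) (by omega) (by omega) (by omega) (by omega)
      · exact h.lw _ _ _ _ (by omega) (by omega) (by omega) (by omega) (by omega) (by omega)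
      · exact h.lw _ _ _ _ (by omega) (by omega) (by omega) (by omega) (by omega) (by omega)
      · exact h.lw _ _ _ _ (by omega) (by omega) (by omega) (by omega) (by omega) (by omega)
      · exact h.lw _ _ _ _ (by omega) (by omega) (by omega) (by omega) (by omega) (by omega)
      · exact h.lw _ _ _ _ (by omega) (by omega) (by omega) (by omega) (by omega) (by omega)
      · exact h.lw _ _ _ _ (by omega) (by omega) (by omega) (by omega) (by omega) (by omega)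
      · exact h.lw _ _ _ _ (by omega) (by omega) (by omega) (by omega) (by omega) (by omega)
      · exact h.lw _ _ _ _ (by omega) (by omega) (by omega) (by omega) (by omega) (by omega)
      · exact h.lw _ _ _ _ (by omega) (by omega) (by omega) (by omega) (by omega) (by omega)
      · exact h.lw _ _ _ _ (by omega) (by omega) (by omega) (by omega) (by omega) (by omega)
    · rcases h with ⟨rfl, rfl, rfl, rfl⟩ | ⟨rfl, rfl, rfl, rfl⟩ | ⟨rfl, rfl, rfl, rfl⟩ | ⟨rfl, rfl, rfl, rfl⟩ |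
        ⟨rfl, rfl, rfl, rfl⟩ | ⟨rfl, rfl, rfl, rfl⟩ | ⟨rfl, rfl, rfl, rfl⟩ | ⟨rfl, rfl, rfl, rfl⟩ |
        ⟨rfl, rfl, rfl, rfl⟩ | ⟨rfl, rfl, rfl, rfl⟩ | ⟨rfl, rfl, rfl, rfl⟩ | ⟨rfl, rfl, rfl, rfl⟩
      · exact h.lw _ _ _ _ (by omega) (by omega) (by omega) (by omega) (by omega) (by omega)
      · exact h.lw _ _ _ _ (by omega) (by omega) (by omega) (by omega) (by omega) (by omega)
      · exact h.lw _ _ _ _ (by omega) (by omega) (by omega) (by omega) (by omega) (by omega)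
      · exact h.lw _ _ _ _ (by omega) (by omega) (by omega) (by omega) (by omega) (by omega)
      · exact h.lw _ _ _ _ (by omega) (by omega) (by omega) (by omega) (by omega) (by omega)
      · exact h.lw _ _ _ _ (by omega) (by omega) (by omega) (by omega) (by omega) (by omega)
      · exact h.lw _ _ _ _ (by omega) (by omega) (by omega) (by omega) (by omega) (by omega)
      · exact h.lw _ _ _ _ (by omega) (by omega) (by omega) (by omega) (by omega) (by omega)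
      · exact h.lw _ _ _ _ (by omega) (by omega) (by omega) (by omega) (by omega) (by omega)
      · exact h.lw _ _ _ _ (by omega) (by omega) (by omega) (by omega) (by omega) (by omega)
      · exact h.lw _ _ _ _ (by omega) (by omega) (by omega) (by omega) (by omega) (by omega)
      · exact h.lw _ _ _ _ (by omega) (by omega) (by omega) (by omega) (by omega) (by omega)
    · rcases h with ⟨rfl, rfl, rfl, rfl⟩ | ⟨rfl, rfl, rfl, rfl⟩ | ⟨rfl, rfl, rfl, rfl⟩ | ⟨rfl, rfl, rfl, rfl⟩ |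
        ⟨rfl, rfl, rfl, rfl⟩ | ⟨rfl, rfl, rfl, rfl⟩ | ⟨rfl, rfl, rfl, rfl⟩ | ⟨rfl, rfl, rfl, rfl⟩ |
        ⟨rfl, rfl, rfl, rfl⟩ | ⟨rfl, rfl, rfl, rfl⟩ | ⟨rfl, rfl, rfl, rfl⟩ | ⟨rfl, rfl, rfl, rfl⟩
      · exact mt (h.q_c0_1 (by omega) (by omega) (by omega) (by omega) (by omega)).mp (by omega)
      · exact mt (h.q_c0_1 (by omega) (by omega) (by omega) (by omega) (by omega)).mp (by omega)
      · exact mt (h.q_c0_1 (by omega) (by omega) (by omega) (by omega) (by omega)).mp (by omega)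
      · exact mt (h.q_c0_1 (by omega) (by omega) (by omega) (by omega) (by omega)).mp (by omega)
      · exact mt (h.q_c0_1 (by omega) (by omega) (by omega) (by omega) (by omega)).mp (by omega)
      · exact mt (h.q_c0_1 (by omega) (by omega) (by omega) (by omega) (by omega)).mp (by omega)
      · exact mt (h.q_c0_1 (by omega) (by omega) (by omega) (by omega) (by omega)).mp (by omega)
      · exact mt (h.q_c0_2 (by omega) (by omega) (by omega) (by omega) (by omega)).mp (by omega)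
      · exact mt (h.q_c0_2 (by omega) (by omega) (by omega) (by omega) (by omega)).mp (by omega)
      · exact mt (h.q_c0_2 (by omega) (by omega) (by omega) (by omega) (by omega)).mp (by omega)
      · exact mt (h.q_c2m_3 (by omega) (by omega) (by omega) (by omega) (by omega)).mp (by omega)
      · exact mt (h.q_c2m_3 (by omega) (by omega) (by omega) (by omega) (by omega)).mp (by omega)
    · obtain ⟨rfl, rfl, rfl, rfl⟩ := h
      exact mt (h.q_c2m_3 (by omega) (by omega) (by omega) (by omega) (by omega)).mp (by omega)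

theorem z44_chk : check 5 7 7 7 1 0 0 0 2
    (fun j n p q => decide ((j = 1 ∧ n = 1 ∧ p = 2 ∧ q = 2) ∨ (j = 1 ∧ n = 1 ∧ p = 4 ∧ q = 4) ∨ (j = 1 ∧ n = 2 ∧ p = 4 ∧ q = 3) ∨ (j = 1 ∧ n = 3 ∧ p = 3 ∧ q = 3) ∨
      (j = 3 ∧ n = 1 ∧ p = 3 ∧ q = 3) ∨ (j = 4 ∧ n = 4 ∧ p = 4 ∧ q = 4)))
    (fun j n p q => decide (False))
    17
    0x1948500e900025c7203200002270001010000ec0000ec0e00d40000cc0003200f02438702270f01010f00ec0f00d40f00cc0f = true := by
  decide +kernel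

theorem z44 (hf : Rule f) {k b n : ℕ} (h : HZ f k b n) :
    ¬ f (6 * k + 3) (b + 2) (2 * n + 4) (2 * n + 4) := by
  intro hx
  have hk := h.hk
  have hb := h.hb
  have h4 := h.h4
  have hbig := h.hbig
  have hn := h.hn
  obtain ⟨a0, ha0⟩ : ∃ z, z + 1 = 6 * k := ⟨6 * k - 1, by omega⟩
  obtain ⟨b0, hb0⟩ : ∃ z, z + 2 = b := ⟨b - 2, by omega⟩
  obtain ⟨x0, hx0⟩ : ∃ z, z = 2 * n := ⟨_, rfl⟩
  refine check_sound hf (a0 := a0) (b0 := b0) (x0 := x0) (y0 := x0) z44_chk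
    ⟨fun _ => rfl, fun h => absurd h (by decide), fun h => absurd h (by decide), by omega, by omega,
      by omega, by omega⟩ ?_ ?_
  · intro j m p q hr h
    clear hr
    replace h := of_decide_eq_true h
    rcases h with ⟨rfl, rfl, rfl, rfl⟩ | ⟨rfl, rfl, rfl, rfl⟩ | ⟨rfl, rfl, rfl, rfl⟩ | ⟨rfl, rfl, rfl, rfl⟩ |
      ⟨rfl, rfl, rfl, rfl⟩ | ⟨rfl, rfl, rfl, rfl⟩
    · exact (h.q_c0_1 (by omega) (by omega) (by omega) (by omega) (by omega)).mpr (by omega)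
    · exact (h.q_c0_1 (by omega) (by omega) (by omega) (by omega) (by omega)).mpr (by omega)
    · exact (h.q_c0_2 (by omega) (by omega) (by omega) (by omega) (by omega)).mpr (by omega)
    · exact (h.q_c0_3 (by omega) (by omega) (by omega) (by omega) (by omega)).mpr (by omega)
    · exact (h.q_c2m_3 (by omega) (by omega) (by omega) (by omega) (by omega)).mpr (by omega)
    · exact mv hx (by omega) (by omega) (by omega) (by omega)
  · intro j m p q hr h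
    clear hr
    replace h := of_decide_eq_true h
    exact h.elim

theorem p244_chk : check 9 7 10 10 0 0 0 0 2
    (fun j n p q => decide ((j = 6 ∧ n = 3 ∧ p = 5 ∧ q = 5) ∨ (j = 7 ∧ n = 4 ∧ p = 6 ∧ q = 6)))
    (fun j n p q => decide (False))
    4
    0xa7b0508e5800a7b0f08e58f = true := by
  decide +kernel

theorem p244 (hf : Rule f) {k b n : ℕ} (h : HZ f k b n) :
    ¬ f (6 * k + 5) (b + 2) (2 * n + 4) (2 * n + 4) := by
  intro hx
  have hk := h.hk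
  have hb := h.hb
  have h4 := h.h4
  have hbig := h.hbig
  have hn := h.hn
  obtain ⟨a0, ha0⟩ : ∃ z, z + 2 = 6 * k := ⟨6 * k - 2, by omega⟩
  obtain ⟨b0, hb0⟩ : ∃ z, z + 2 = b := ⟨b - 2, by omega⟩
  obtain ⟨x0, hx0⟩ : ∃ z, z + 2 = 2 * n := ⟨2 * n - 2, by omega⟩
  refine check_sound hf (a0 := a0) (b0 := b0) (x0 := x0) (y0 := x0) p244_chk
    ⟨fun _ => rfl, fun h => absurd h (by decide), fun h => absurd h (by decide), by omega, by omega,
      by omega, by omega⟩ ?_ ?_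
  · intro j m p q hr h
    clear hr
    replace h := of_decide_eq_true h
    rcases h with ⟨rfl, rfl, rfl, rfl⟩ | ⟨rfl, rfl, rfl, rfl⟩
    · exact (h.q_c4m_3 (by omega) (by omega) (by omega) (by omega) (by omega)).mpr (by omega)
    · exact mv hx (by omega) (by omega) (by omega) (by omega)
  · intro j m p q hr h
    clear hr
    replace h := of_decide_eq_true h
    exact h.elim

theorem p54_chk : check 9 9 10 10 0 1 0 0 2
    (fun j n p q => decide ((j = 6 ∧ n = 3 ∧ p = 6 ∧ q = 5) ∨ (j = 6 ∧ n = 4 ∧ p = 5 ∧ q = 5) ∨ (j = 7 ∧ n = 6 ∧ p = 7 ∧ q = 6)))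
    (fun j n p q => decide ((j = 6 ∧ n = 4 ∧ p = 6 ∧ q = 5) ∨ (j = 6 ∧ n = 4 ∧ p = 6 ∧ q = 6) ∨ (j = 6 ∧ n = 4 ∧ p = 7 ∧ q = 5) ∨ (j = 6 ∧ n = 4 ∧ p = 7 ∧ q = 6)))
    12
    0xd6e030da0000b6f800b42800da00f0ba7070b7a070b79870b75070b74870b6f8f0b428f = true := by
  decide +kernel

theorem p54 (hf : Rule f) {k b n : ℕ} (h : HZ f k b n) :
    ¬ f (6 * k + 5) (b + 3) (2 * n + 5) (2 * n + 4) := by
  intro hx
  have hk := h.hk
  have hb := h.hb
  have h4 := h.h4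
  have hbig := h.hbig
  have hn := h.hn
  obtain ⟨a0, ha0⟩ : ∃ z, z + 2 = 6 * k := ⟨6 * k - 2, by omega⟩
  obtain ⟨b0, hb0⟩ : ∃ z, z + 3 = b := ⟨b - 3, by omega⟩
  obtain ⟨x0, hx0⟩ : ∃ z, z + 2 = 2 * n := ⟨2 * n - 2, by omega⟩
  refine check_sound hf (a0 := a0) (b0 := b0) (x0 := x0) (y0 := x0) p54_chk
    ⟨fun _ => rfl, fun h => absurd h (by decide), fun h => absurd h (by decide), by omega, by omega,
      by omega, by omega⟩ ?_ ?_
  · intro j m p q hr h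
    clear hr
    replace h := of_decide_eq_true h
    rcases h with ⟨rfl, rfl, rfl, rfl⟩ | ⟨rfl, rfl, rfl, rfl⟩ | ⟨rfl, rfl, rfl, rfl⟩
    · exact (h.q_c4m_2 (by omega) (by omega) (by omega) (by omega) (by omega)).mpr (by omega)
    · exact (h.q_c4m_3 (by omega) (by omega) (by omega) (by omega) (by omega)).mpr (by omega)
    · exact mv hx (by omega) (by omega) (by omega) (by omega)
  · intro j m p q hr h
    clear hr
    replace h := of_decide_eq_true h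
    rcases h with ⟨rfl, rfl, rfl, rfl⟩ | ⟨rfl, rfl, rfl, rfl⟩ | ⟨rfl, rfl, rfl, rfl⟩ | ⟨rfl, rfl, rfl, rfl⟩
    · exact mt (h.q_c4m_3 (by omega) (by omega) (by omega) (by omega) (by omega)).mp (by omega)
    · exact mt (h.q_c4m_3 (by omega) (by omega) (by omega) (by omega) (by omega)).mp (by omega)
    · exact mt (h.q_c4m_3 (by omega) (by omega) (by omega) (by omega) (by omega)).mp (by omega)
    · exact mt (h.q_c4m_3 (by omega) (by omega) (by omega) (by omega) (by omega)).mp (by omega)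

end Pool.Agent.SNT.LocR6
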