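import Pool.Agent.SNT.L6Q

set_option autoImplicit false
set_option linter.unusedVariables false
set_option synthInstance.maxSize 100000
set_option synthInstance.maxHeartbeats 4000000

/-! The cell `(2 n + 4, 2 n + 4)` of `6 k + 5` in the row `b + 3`. -/

namespace Pool.Agent.SNT.LocR6

open Pool.Agent.SNT Pool.Agent.SNT.Loc Pool.Agent.SNT.LW

variable {f : ℕ → ℕ → ℕ → ℕ → Prop}

theorem p44_chk : check 9 9 11 11 0 1 1 1 2
    (fun j n p q => decide (((j = 2 ∧ n = 1 ∧ p = 4 ∧ q = 1) ∨ (j = 2 ∧ n = 1 ∧ p = 4 ∧ q = 3) ∨ (j = 2 ∧ n = 1 ∧ p = 6 ∧ q = 3) ∨ (j = 2 ∧ n = 1 ∧ p = 6 ∧ q = 5) ∨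
      (j = 2 ∧ n = 2 ∧ p = 3 ∧ q = 3) ∨ (j = 2 ∧ n = 2 ∧ p = 5 ∧ q = 5) ∨ (j = 2 ∧ n = 3 ∧ p = 5 ∧ q = 4) ∨ (j = 2 ∧ n = 3 ∧ p = 7 ∧ q = 4) ∨
      (j = 2 ∧ n = 3 ∧ p = 7 ∧ q = 6) ∨ (j = 2 ∧ n = 4 ∧ p = 6 ∧ q = 6) ∨ (j = 4 ∧ n = 1 ∧ p = 5 ∧ q = 2) ∨ (j = 4 ∧ n = 1 ∧ p = 5 ∧ q = 4)) ∨
      ((j = 4 ∧ n = 2 ∧ p = 4 ∧ q = 4) ∨ (j = 4 ∧ n = 2 ∧ p = 6 ∧ q = 6) ∨ (j = 6 ∧ n = 3 ∧ p = 5 ∧ q = 4) ∨ (j = 6 ∧ n = 3 ∧ p = 7 ∧ q = 4) ∨
      (j = 6 ∧ n = 4 ∧ p = 6 ∧ q = 6) ∨ (j = 7 ∧ n = 6 ∧ p = 7 ∧ q = 7))))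
    (fun j n p q => decide (((j = 1 ∧ n = 2 ∧ p = 4 ∧ q = 1) ∨ (j = 1 ∧ n = 2 ∧ p = 4 ∧ q = 2) ∨ (j = 1 ∧ n = 2 ∧ p = 4 ∧ q = 3) ∨ (j = 1 ∧ n = 2 ∧ p = 4 ∧ q = 4) ∨
      (j = 1 ∧ n = 2 ∧ p = 5 ∧ q = 1) ∨ (j = 1 ∧ n = 2 ∧ p = 5 ∧ q = 2) ∨ (j = 1 ∧ n = 2 ∧ p = 5 ∧ q = 3) ∨ (j = 1 ∧ n = 2 ∧ p = 5 ∧ q = 4) ∨
      (j = 1 ∧ n = 2 ∧ p = 6 ∧ q = 2) ∨ (j = 1 ∧ n = 3 ∧ p = 3 ∧ q = 3) ∨ (j = 1 ∧ n = 3 ∧ p = 4 ∧ q = 1) ∨ (j = 1 ∧ n = 3 ∧ p = 4 ∧ q = 2)) ∨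
      ((j = 1 ∧ n = 3 ∧ p = 4 ∧ q = 3) ∨ (j = 1 ∧ n = 3 ∧ p = 4 ∧ q = 4) ∨ (j = 1 ∧ n = 3 ∧ p = 5 ∧ q = 1) ∨ (j = 1 ∧ n = 3 ∧ p = 5 ∧ q = 2) ∨
      (j = 1 ∧ n = 3 ∧ p = 5 ∧ q = 3) ∨ (j = 1 ∧ n = 3 ∧ p = 5 ∧ q = 4) ∨ (j = 1 ∧ n = 3 ∧ p = 6 ∧ q = 2) ∨ (j = 1 ∧ n = 3 ∧ p = 6 ∧ q = 3) ∨
      (j = 1 ∧ n = 4 ∧ p = 3 ∧ q = 3) ∨ (j = 1 ∧ n = 4 ∧ p = 4 ∧ q = 3) ∨ (j = 1 ∧ n = 4 ∧ p = 4 ∧ q = 4) ∨ (j = 1 ∧ n = 4 ∧ p = 5 ∧ q = 3)) ∨
      ((j = 1 ∧ n = 4 ∧ p = 5 ∧ q = 4) ∨ (j = 1 ∧ n = 4 ∧ p = 5 ∧ q = 5) ∨ (j = 1 ∧ n = 4 ∧ p = 6 ∧ q = 3) ∨ (j = 1 ∧ n = 4 ∧ p = 6 ∧ q = 4) ∨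
      (j = 1 ∧ n = 4 ∧ p = 6 ∧ q = 5) ∨ (j = 1 ∧ n = 4 ∧ p = 7 ∧ q = 3) ∨ (j = 1 ∧ n = 4 ∧ p = 7 ∧ q = 4) ∨ (j = 1 ∧ n = 5 ∧ p = 4 ∧ q = 3) ∨
      (j = 1 ∧ n = 5 ∧ p = 4 ∧ q = 4) ∨ (j = 1 ∧ n = 5 ∧ p = 5 ∧ q = 3) ∨ (j = 1 ∧ n = 5 ∧ p = 5 ∧ q = 4) ∨ (j = 1 ∧ n = 5 ∧ p = 5 ∧ q = 5)) ∨
      ((j = 1 ∧ n = 5 ∧ p = 6 ∧ q = 3) ∨ (j = 1 ∧ n = 5 ∧ p = 6 ∧ q = 4) ∨ (j = 1 ∧ n = 5 ∧ p = 6 ∧ q = 5) ∨ (j = 1 ∧ n = 5 ∧ p = 6 ∧ q = 6) ∨
      (j = 1 ∧ n = 5 ∧ p = 7 ∧ q = 3) ∨ (j = 1 ∧ n = 5 ∧ p = 7 ∧ q = 4) ∨ (j = 1 ∧ n = 5 ∧ p = 7 ∧ q = 5) ∨ (j = 1 ∧ n = 5 ∧ p = 7 ∧ q = 6) ∨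
      (j = 1 ∧ n = 5 ∧ p = 7 ∧ q = 7) ∨ (j = 1 ∧ n = 6 ∧ p = 4 ∧ q = 4) ∨ (j = 1 ∧ n = 6 ∧ p = 5 ∧ q = 4) ∨ (j = 1 ∧ n = 6 ∧ p = 5 ∧ q = 5)) ∨
      ((j = 1 ∧ n = 6 ∧ p = 6 ∧ q = 5) ∨ (j = 1 ∧ n = 6 ∧ p = 6 ∧ q = 6) ∨ (j = 1 ∧ n = 6 ∧ p = 7 ∧ q = 5) ∨ (j = 1 ∧ n = 6 ∧ p = 7 ∧ q = 6) ∨
      (j = 1 ∧ n = 6 ∧ p = 7 ∧ q = 7) ∨ (j = 2 ∧ n = 2 ∧ p = 4 ∧ q = 1) ∨ (j = 2 ∧ n = 2 ∧ p = 4 ∧ q = 2) ∨ (j = 2 ∧ n = 2 ∧ p = 4 ∧ q = 4) ∨
      (j = 2 ∧ n = 2 ∧ p = 5 ∧ q = 1) ∨ (j = 2 ∧ n = 2 ∧ p = 5 ∧ q = 2) ∨ (j = 2 ∧ n = 2 ∧ p = 5 ∧ q = 3) ∨ (j = 2 ∧ n = 2 ∧ p = 5 ∧ q = 4)) ∨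
      ((j = 2 ∧ n = 2 ∧ p = 6 ∧ q = 2) ∨ (j = 2 ∧ n = 2 ∧ p = 6 ∧ q = 3) ∨ (j = 2 ∧ n = 3 ∧ p = 3 ∧ q = 3) ∨ (j = 2 ∧ n = 3 ∧ p = 4 ∧ q = 3) ∨
      (j = 2 ∧ n = 3 ∧ p = 4 ∧ q = 4) ∨ (j = 2 ∧ n = 3 ∧ p = 5 ∧ q = 3) ∨ (j = 2 ∧ n = 3 ∧ p = 6 ∧ q = 3) ∨ (j = 2 ∧ n = 4 ∧ p = 5 ∧ q = 5) ∨
      (j = 2 ∧ n = 4 ∧ p = 6 ∧ q = 5) ∨ (j = 2 ∧ n = 4 ∧ p = 7 ∧ q = 5) ∨ (j = 4 ∧ n = 2 ∧ p = 5 ∧ q = 3) ∨ (j = 4 ∧ n = 2 ∧ p = 5 ∧ q = 4)) ∨
      ((j = 4 ∧ n = 2 ∧ p = 5 ∧ q = 5) ∨ (j = 4 ∧ n = 2 ∧ p = 6 ∧ q = 3) ∨ (j = 4 ∧ n = 2 ∧ p = 6 ∧ q = 4) ∨ (j = 4 ∧ n = 2 ∧ p = 6 ∧ q = 5) ∨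
      (j = 3 ∧ n = 5 ∧ p = 5 ∧ q = 5) ∨ (j = 5 ∧ n = 5 ∧ p = 7 ∧ q = 7) ∨ (j = 3 ∧ n = 5 ∧ p = 7 ∧ q = 5))))
    470
    0x5d60307f6800a17420c37800e584209d40009da1a09da0e05ca0307ea800a115a0c31800e585a09d50009da0009da0e09da0405d00307f08007f0840a108e0c378509da000e584209da010a10800a108407eb0e058e0307eb0007eb0405ca8e058e0305ca8005ca8407f60e05d58307f60007f6040a118e09d5030a11800a11840c320e0bf5830c32000c3204095600095b00095601095b01095a8e05ca0307ea800a115a0c31800e585a0a17030c37800c37840c320e0a11830c32000c320409d40e0c37850a17000e58420a170109cf0009d40009d40e09d40405d60005d601058e00059300058e0105930105928e0a170305d58005d08005d58105d0810a170305d00005d0040c37800e58420c370e05d58307f6000a16c20c37000c370405d00307f08007f0840e58030a11000a110405d00307f0800a11420c31800c318405ca0307ea8007ea840a0b8e0a170305d00005d0010a170305d58005d08005d58105d08105ca0005ca040c37800e58420a10800a0b800a0b8e0a0b840a0c0e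0a170305d00005d0010a170305d58005d08005d58105d08105ca0005ca040c37800e584205d00307f0800a11420c31800c318405ca0307ea8007ea840a16000a0c000a0c0e0a0c0405888005928005928e059284054b00054b010a17030c37800e58420a11030c31800c31840c320e0a11830c32000c320409d40e0c37850a17000e58420a170109cf0009d40009d40e09d40405d00005890005d00107af52058d00058800058d0105880105450005450409da0e099d8309da0009da04095a80095a840e580309d48009d484054b0305878005878409d4830bf5000bf50407b88e05980307b88007b8840bf48e09d4030bf4800bf48407b30e05928307b30007b304058d0307ad8007ad8405190305558005558405460e050403054600054604054a8e07ae03054580054a80054a8e054a84098d0e095083098d00098d040bf58e09d5030bf5800bf58409930e0956030993000993040993030bb3800bb384072a0304fe0004fe0407338e0513030733800733840b7103072a00072a0407398e0b7b0307398007398409600e0b7b030960000960040bbe0e099d830bbe000bbe0409978e095b0309978009978407b38e05930307b38007b3840d92000d9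10008d70008cc00051000050f000491000490000485001078800dd9000da1000da10e0d96000d960e091f00091e8e091e0e091d8e09180e09130008dc0008dc0e08db0008db0e07b90e055c0e05570005568e052000051f00051f0e051400050f0104d80004d78e04d70e04d68e04d60e04d10e04d08e04cc0004a10004a00004a00e04950004950e04940e03b50e03b48e03af0e03a90e03788e03780e03728e03720e036c8e036c0e03668e03360e03358e03300e032f8e032a0e02f38e02f30e02f28e02f20e02ed8e02ed0e02ec8e02b70e02b68e02b60e02b58e02b10e02b08e02b00e10788f0e1b870dd90f0da10f0d960f0bfb0709da8709d98709cf8709ce87096087095687095587095487094a87091f0f091e87091e07091d8709190709188709180709130f08dc0f08db0f07b90707ae07059987059887059787058e87058d87058c87058287055c0705570f05568705510705200f051f0f05190705140f051387051287050e87050e0705098705088704fe8704dc8704dc0704d80f04d78704d70704d68704d60704d20704d10704d08704cc0f04a10f04a00f04950f04940f03b58703b50703b48703af8703af0703a98703a90703a387037907037887037807037787037707037307037287037207037187036d07036c87036c07036707036687033b07033a87033607033587033507033087033007032f87032a87032a0703248702f88702f80702f38702f30702f28702f20702ee0702ed8702ed0702ec8702e80702bb8702b70702b68702b60702b58702b18702b10702b08702b007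 = true := by
  decide +kernel

theorem p44 (hf : Rule f) {k b n : ℕ} (h : HZ f k b n) (h122 : ¬ f (6 * k + 1) (b + 2) (2 * n + 2) (2 * n + 2)) (h344 : ¬ f (6 * k + 3) (b + 2) (2 * n + 4) (2 * n + 4)) (h142 : ¬ f (6 * k + 1) (b + 2) (2 * n + 4) (2 * n + 2)) :
    ¬ f (6 * k + 5) (b + 3) (2 * n + 4) (2 * n + 4) := by
  intro hx
  have hk := h.hk
  have hb := h.hb
  have h4 := h.h4
  have hbig := h.hbig
  have hn := h.hn
  obtain ⟨a0, ha0⟩ : ∃ z, z + 2 = 6 * k := ⟨6 * k - 2, by omega⟩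
  obtain ⟨b0, hb0⟩ : ∃ z, z + 3 = b := ⟨b - 3, by omega⟩
  obtain ⟨x0, hx0⟩ : ∃ z, z + 3 = 2 * n := ⟨2 * n - 3, by omega⟩
  refine check_sound hf (a0 := a0) (b0 := b0) (x0 := x0) (y0 := x0) p44_chk
    ⟨fun _ => rfl, fun h => absurd h (by decide), fun h => absurd h (by decide), by omega, by omega,
      by omega, by omega⟩ ?_ ?_
  · intro j m p q hr h
    clear hr
    replace h := of_decide_eq_true h
    rcases h with h | h
    · rcases h with ⟨rfl, rfl, rfl, rfl⟩ | ⟨rfl, rfl, rfl, rfl⟩ | ⟨rfl, rfl, rfl, rfl⟩ | ⟨rfl, rfl, rfl, rfl⟩ |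
        ⟨rfl, rfl, rfl, rfl⟩ | ⟨rfl, rfl, rfl, rfl⟩ | ⟨rfl, rfl, rfl, rfl⟩ | ⟨rfl, rfl, rfl, rfl⟩ |
        ⟨rfl, rfl, rfl, rfl⟩ | ⟨rfl, rfl, rfl, rfl⟩ | ⟨rfl, rfl, rfl, rfl⟩ | ⟨rfl, rfl, rfl, rfl⟩
      · exact (h.q_c0_0 (by omega) (by omega) (by omega) (by omega) (by omega)).mpr (by omega)
      · exact (h.q_c0_0 (by omega) (by omega) (by omega) (by omega) (by omega)).mpr (by omega)
      · exact (h.q_c0_0 (by omega) (by omega) (by omega) (by omega) (by omega)).mpr (by omega)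
      · exact (h.q_c0_0 (by omega) (by omega) (by omega) (by omega) (by omega)).mpr (by omega)
      · exact (h.q_c0_1 (by omega) (by omega) (by omega) (by omega) (by omega)).mpr (by omega)
      · exact (h.q_c0_1 (by omega) (by omega) (by omega) (by omega) (by omega)).mpr (by omega)
      · exact (h.q_c0_2 (by omega) (by omega) (by omega) (by omega) (by omega)).mpr (by omega)
      · exact (h.q_c0_2 (by omega) (by omega) (by omega) (by omega) (by omega)).mpr (by omega)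
      · exact (h.q_c0_2 (by omega) (by omega) (by omega) (by omega) (by omega)).mpr (by omega)
      · exact (h.q_c0_3 (by omega) (by omega) (by omega) (by omega) (by omega)).mpr (by omega)
      · exact (h.q_c2m_2 (by omega) (by omega) (by omega) (by omega) (by omega)).mpr (by omega)
      · exact (h.q_c2m_2 (by omega) (by omega) (by omega) (by omega) (by omega)).mpr (by omega)
    · rcases h with ⟨rfl, rfl, rfl, rfl⟩ | ⟨rfl, rfl, rfl, rfl⟩ | ⟨rfl, rfl, rfl, rfl⟩ | ⟨rfl, rfl, rfl, rfl⟩ |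
        ⟨rfl, rfl, rfl, rfl⟩ | ⟨rfl, rfl, rfl, rfl⟩
      · exact (h.q_c2m_3 (by omega) (by omega) (by omega) (by omega) (by omega)).mpr (by omega)
      · exact (h.q_c2m_3 (by omega) (by omega) (by omega) (by omega) (by omega)).mpr (by omega)
      · exact (h.q_c4m_2 (by omega) (by omega) (by omega) (by omega) (by omega)).mpr (by omega)
      · exact (h.q_c4m_2 (by omega) (by omega) (by omega) (by omega) (by omega)).mpr (by omega)
      · exact (h.q_c4m_3 (by omega) (by omega) (by omega) (by omega) (by omega)).mpr (by omega)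
      · exact mv hx (by omega) (by omega) (by omega) (by omega)
  · intro j m p q hr h
    clear hr
    replace h := of_decide_eq_true h
    rcases h with h | h | h | h | h | h | h
    · rcases h with ⟨rfl, rfl, rfl, rfl⟩ | ⟨rfl, rfl, rfl, rfl⟩ | ⟨rfl, rfl, rfl, rfl⟩ | ⟨rfl, rfl, rfl, rfl⟩ |
        ⟨rfl, rfl, rfl, rfl⟩ | ⟨rfl, rfl, rfl, rfl⟩ | ⟨rfl, rfl, rfl, rfl⟩ | ⟨rfl, rfl, rfl, rfl⟩ |
        ⟨rfl, rfl, rfl, rfl⟩ | ⟨rfl, rfl, rfl, rfl⟩ | ⟨rfl, rfl, rfl, rfl⟩ | ⟨rfl, rfl, rfl, rfl⟩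
      · exact h.lw _ _ _ _ (by omega) (by omega) (by omega) (by omega) (by omega) (by omega)
      · exact h.lw _ _ _ _ (by omega) (by omega) (by omega) (by omega) (by omega) (by omega)
      · exact h.lw _ _ _ _ (by omega) (by omega) (by omega) (by omega) (by omega) (by omega)
      · exact h.lw _ _ _ _ (by omega) (by omega) (by omega) (by omega) (by omega) (by omega)
      · exact h.lw _ _ _ _ (by omega) (by omega) (by omega) (by omega) (by omega) (by omega)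
      · exact h.lw _ _ _ _ (by omega) (by omega) (by omega) (by omega) (by omega) (by omega)
      · exact h.lw _ _ _ _ (by omega) (by omega) (by omega) (by omega) (by omega) (by omega)
      · exact h.lw _ _ _ _ (by omega) (by omega) (by omega) (by omega) (by omega) (by omega)
      · exact h.lw _ _ _ _ (by omega) (by omega) (by omega) (by omega) (by omega) (by omega)
      · exact h.lw _ _ _ _ (by omega) (by omega) (by omega) (by omega) (by omega) (by omega)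
      · exact h.lw _ _ _ _ (by omega) (by omega) (by omega) (by omega) (by omega) (by omega)
      · exact h.lw _ _ _ _ (by omega) (by omega) (by omega) (by omega) (by omega) (by omega)
    · rcases h with ⟨rfl, rfl, rfl, rfl⟩ | ⟨rfl, rfl, rfl, rfl⟩ | ⟨rfl, rfl, rfl, rfl⟩ | ⟨rfl, rfl, rfl, rfl⟩ |
        ⟨rfl, rfl, rfl, rfl⟩ | ⟨rfl, rfl, rfl, rfl⟩ | ⟨rfl, rfl, rfl, rfl⟩ | ⟨rfl, rfl, rfl, rfl⟩ |
        ⟨rfl, rfl, rfl, rfl⟩ | ⟨rfl, rfl, rfl, rfl⟩ | ⟨rfl, rfl, rfl, rfl⟩ | ⟨rfl, rfl, rfl, rfl⟩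
      · exact h.lw _ _ _ _ (by omega) (by omega) (by omega) (by omega) (by omega) (by omega)
      · exact h.lw _ _ _ _ (by omega) (by omega) (by omega) (by omega) (by omega) (by omega)
      · exact h.lw _ _ _ _ (by omega) (by omega) (by omega) (by omega) (by omega) (by omega)
      · exact h.lw _ _ _ _ (by omega) (by omega) (by omega) (by omega) (by omega) (by omega)
      · exact h.lw _ _ _ _ (by omega) (by omega) (by omega) (by omega) (by omega) (by omega)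
      · exact h.lw _ _ _ _ (by omega) (by omega) (by omega) (by omega) (by omega) (by omega)
      · exact h.lw _ _ _ _ (by omega) (by omega) (by omega) (by omega) (by omega) (by omega)
      · exact h.lw _ _ _ _ (by omega) (by omega) (by omega) (by omega) (by omega) (by omega)
      · exact h.lw _ _ _ _ (by omega) (by omega) (by omega) (by omega) (by omega) (by omega)
      · exact h.lw _ _ _ _ (by omega) (by omega) (by omega) (by omega) (by omega) (by omega)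
      · exact h.lw _ _ _ _ (by omega) (by omega) (by omega) (by omega) (by omega) (by omega)
      · exact h.lw _ _ _ _ (by omega) (by omega) (by omega) (by omega) (by omega) (by omega)
    · rcases h with ⟨rfl, rfl, rfl, rfl⟩ | ⟨rfl, rfl, rfl, rfl⟩ | ⟨rfl, rfl, rfl, rfl⟩ | ⟨rfl, rfl, rfl, rfl⟩ |
        ⟨rfl, rfl, rfl, rfl⟩ | ⟨rfl, rfl, rfl, rfl⟩ | ⟨rfl, rfl, rfl, rfl⟩ | ⟨rfl, rfl, rfl, rfl⟩ |
        ⟨rfl, rfl, rfl, rfl⟩ | ⟨rfl, rfl, rfl, rfl⟩ | ⟨rfl, rfl, rfl, rfl⟩ | ⟨rfl, rfl, rfl, rfl⟩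
      · exact h.lw _ _ _ _ (by omega) (by omega) (by omega) (by omega) (by omega) (by omega)
      · exact h.lw _ _ _ _ (by omega) (by omega) (by omega) (by omega) (by omega) (by omega)
      · exact h.lw _ _ _ _ (by omega) (by omega) (by omega) (by omega) (by omega) (by omega)
      · exact h.lw _ _ _ _ (by omega) (by omega) (by omega) (by omega) (by omega) (by omega)
      · exact h.lw _ _ _ _ (by omega) (by omega) (by omega) (by omega) (by omega) (by omega)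
      · exact h.lw _ _ _ _ (by omega) (by omega) (by omega) (by omega) (by omega) (by omega)
      · exact h.lw _ _ _ _ (by omega) (by omega) (by omega) (by omega) (by omega) (by omega)
      · exact h.lw _ _ _ _ (by omega) (by omega) (by omega) (by omega) (by omega) (by omega)
      · exact h.lw _ _ _ _ (by omega) (by omega) (by omega) (by omega) (by omega) (by omega)
      · exact h.lw _ _ _ _ (by omega) (by omega) (by omega) (by omega) (by omega) (by omega)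
      · exact h.lw _ _ _ _ (by omega) (by omega) (by omega) (by omega) (by omega) (by omega)
      · exact h.lw _ _ _ _ (by omega) (by omega) (by omega) (by omega) (by omega) (by omega)
    · rcases h with ⟨rfl, rfl, rfl, rfl⟩ | ⟨rfl, rfl, rfl, rfl⟩ | ⟨rfl, rfl, rfl, rfl⟩ | ⟨rfl, rfl, rfl, rfl⟩ |
        ⟨rfl, rfl, rfl, rfl⟩ | ⟨rfl, rfl, rfl, rfl⟩ | ⟨rfl, rfl, rfl, rfl⟩ | ⟨rfl, rfl, rfl, rfl⟩ |
        ⟨rfl, rfl, rfl, rfl⟩ | ⟨rfl, rfl, rfl, rfl⟩ | ⟨rfl, rfl, rfl, rfl⟩ | ⟨rfl, rfl, rfl, rfl⟩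
      · exact h.lw _ _ _ _ (by omega) (by omega) (by omega) (by omega) (by omega) (by omega)
      · exact h.lw _ _ _ _ (by omega) (by omega) (by omega) (by omega) (by omega) (by omega)
      · exact h.lw _ _ _ _ (by omega) (by omega) (by omega) (by omega) (by omega) (by omega)
      · exact h.lw _ _ _ _ (by omega) (by omega) (by omega) (by omega) (by omega) (by omega)
      · exact h.lw _ _ _ _ (by omega) (by omega) (by omega) (by omega) (by omega) (by omega)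
      · exact h.lw _ _ _ _ (by omega) (by omega) (by omega) (by omega) (by omega) (by omega)
      · exact h.lw _ _ _ _ (by omega) (by omega) (by omega) (by omega) (by omega) (by omega)
      · exact h.lw _ _ _ _ (by omega) (by omega) (by omega) (by omega) (by omega) (by omega)
      · exact h.lw _ _ _ _ (by omega) (by omega) (by omega) (by omega) (by omega) (by omega)
      · exact h.lw _ _ _ _ (by omega) (by omega) (by omega) (by omega) (by omega) (by omega)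
      · exact h.lw _ _ _ _ (by omega) (by omega) (by omega) (by omega) (by omega) (by omega)
      · exact h.lw _ _ _ _ (by omega) (by omega) (by omega) (by omega) (by omega) (by omega)
    · rcases h with ⟨rfl, rfl, rfl, rfl⟩ | ⟨rfl, rfl, rfl, rfl⟩ | ⟨rfl, rfl, rfl, rfl⟩ | ⟨rfl, rfl, rfl, rfl⟩ |
        ⟨rfl, rfl, rfl, rfl⟩ | ⟨rfl, rfl, rfl, rfl⟩ | ⟨rfl, rfl, rfl, rfl⟩ | ⟨rfl, rfl, rfl, rfl⟩ |
        ⟨rfl, rfl, rfl, rfl⟩ | ⟨rfl, rfl, rfl, rfl⟩ | ⟨rfl, rfl, rfl, rfl⟩ | ⟨rfl, rfl, rfl, rfl⟩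
      · exact h.lw _ _ _ _ (by omega) (by omega) (by omega) (by omega) (by omega) (by omega)
      · exact h.lw _ _ _ _ (by omega) (by omega) (by omega) (by omega) (by omega) (by omega)
      · exact h.lw _ _ _ _ (by omega) (by omega) (by omega) (by omega) (by omega) (by omega)
      · exact h.lw _ _ _ _ (by omega) (by omega) (by omega) (by omega) (by omega) (by omega)
      · exact h.lw _ _ _ _ (by omega) (by omega) (by omega) (by omega) (by omega) (by omega)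
      · exact mt (h.q_c0_1 (by omega) (by omega) (by omega) (by omega) (by omega)).mp (by omega)
      · exact mt (h.q_c0_1 (by omega) (by omega) (by omega) (by omega) (by omega)).mp (by omega)
      · exact mt (h.q_c0_1 (by omega) (by omega) (by omega) (by omega) (by omega)).mp (by omega)
      · exact mt (h.q_c0_1 (by omega) (by omega) (by omega) (by omega) (by omega)).mp (by omega)
      · exact mt (h.q_c0_1 (by omega) (by omega) (by omega) (by omega) (by omega)).mp (by omega)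
      · exact mt (h.q_c0_1 (by omega) (by omega) (by omega) (by omega) (by omega)).mp (by omega)
      · exact mt (h.q_c0_1 (by omega) (by omega) (by omega) (by omega) (by omega)).mp (by omega)
    · rcases h with ⟨rfl, rfl, rfl, rfl⟩ | ⟨rfl, rfl, rfl, rfl⟩ | ⟨rfl, rfl, rfl, rfl⟩ | ⟨rfl, rfl, rfl, rfl⟩ |
        ⟨rfl, rfl, rfl, rfl⟩ | ⟨rfl, rfl, rfl, rfl⟩ | ⟨rfl, rfl, rfl, rfl⟩ | ⟨rfl, rfl, rfl, rfl⟩ |
        ⟨rfl, rfl, rfl, rfl⟩ | ⟨rfl, rfl, rfl, rfl⟩ | ⟨rfl, rfl, rfl, rfl⟩ | ⟨rfl, rfl, rfl, rfl⟩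
      · exact mt (h.q_c0_1 (by omega) (by omega) (by omega) (by omega) (by omega)).mp (by omega)
      · exact mt (h.q_c0_1 (by omega) (by omega) (by omega) (by omega) (by omega)).mp (by omega)
      · exact mt (h.q_c0_2 (by omega) (by omega) (by omega) (by omega) (by omega)).mp (by omega)
      · exact mt (h.q_c0_2 (by omega) (by omega) (by omega) (by omega) (by omega)).mp (by omega)
      · exact mt (h.q_c0_2 (by omega) (by omega) (by omega) (by omega) (by omega)).mp (by omega)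
      · exact mt (h.q_c0_2 (by omega) (by omega) (by omega) (by omega) (by omega)).mp (by omega)
      · exact mt (h.q_c0_2 (by omega) (by omega) (by omega) (by omega) (by omega)).mp (by omega)
      · exact mt (h.q_c0_3 (by omega) (by omega) (by omega) (by omega) (by omega)).mp (by omega)
      · exact mt (h.q_c0_3 (by omega) (by omega) (by omega) (by omega) (by omega)).mp (by omega)
      · exact mt (h.q_c0_3 (by omega) (by omega) (by omega) (by omega) (by omega)).mp (by omega)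
      · exact mt (h.q_c2m_3 (by omega) (by omega) (by omega) (by omega) (by omega)).mp (by omega)
      · exact mt (h.q_c2m_3 (by omega) (by omega) (by omega) (by omega) (by omega)).mp (by omega)
    · rcases h with ⟨rfl, rfl, rfl, rfl⟩ | ⟨rfl, rfl, rfl, rfl⟩ | ⟨rfl, rfl, rfl, rfl⟩ | ⟨rfl, rfl, rfl, rfl⟩ |
        ⟨rfl, rfl, rfl, rfl⟩ | ⟨rfl, rfl, rfl, rfl⟩ | ⟨rfl, rfl, rfl, rfl⟩
      · exact mt (h.q_c2m_3 (by omega) (by omega) (by omega) (by omega) (by omega)).mp (by omega)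
      · exact mt (h.q_c2m_3 (by omega) (by omega) (by omega) (by omega) (by omega)).mp (by omega)
      · exact mt (h.q_c2m_3 (by omega) (by omega) (by omega) (by omega) (by omega)).mp (by omega)
      · exact mt (h.q_c2m_3 (by omega) (by omega) (by omega) (by omega) (by omega)).mp (by omega)
      · exact fun t => h122 (mv t (by omega) (by omega) (by omega) (by omega))
      · exact fun t => h344 (mv t (by omega) (by omega) (by omega) (by omega))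
      · exact fun t => h142 (mv t (by omega) (by omega) (by omega) (by omega))

end Pool.Agent.SNT.LocR6
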