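import Pool.Agent.SNT.L6Q

set_option autoImplicit false
set_option linter.unusedVariables false
set_option synthInstance.maxSize 100000
set_option synthInstance.maxHeartbeats 4000000

/-! The cell `(2 n + 5, 2 n + 5)` of `6 k + 5` in the row `b + 3`. -/

namespace Pool.Agent.SNT.LocR6

open Pool.Agent.SNT Pool.Agent.SNT.Loc Pool.Agent.SNT.LW

variable {f : ℕ → ℕ → ℕ → ℕ → Prop}

theorem p55_chk : check 9 7 10 10 0 0 0 0 2
    (fun j n p q => decide (((j = 2 ∧ n = 1 ∧ p = 2 ∧ q = 2) ∨ (j = 2 ∧ n = 1 ∧ p = 4 ∧ q = 4) ∨ (j = 2 ∧ n = 1 ∧ p = 6 ∧ q = 6) ∨ (j = 2 ∧ n = 2 ∧ p = 4 ∧ q = 3) ∨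
      (j = 2 ∧ n = 2 ∧ p = 6 ∧ q = 3) ∨ (j = 2 ∧ n = 2 ∧ p = 6 ∧ q = 5) ∨ (j = 2 ∧ n = 3 ∧ p = 5 ∧ q = 5) ∨ (j = 2 ∧ n = 3 ∧ p = 7 ∧ q = 7) ∨
      (j = 4 ∧ n = 1 ∧ p = 1 ∧ q = 1) ∨ (j = 4 ∧ n = 1 ∧ p = 3 ∧ q = 3) ∨ (j = 4 ∧ n = 1 ∧ p = 5 ∧ q = 5) ∨ (j = 4 ∧ n = 1 ∧ p = 7 ∧ q = 7)) ∨
      ((j = 6 ∧ n = 2 ∧ p = 4 ∧ q = 1) ∨ (j = 6 ∧ n = 2 ∧ p = 4 ∧ q = 3) ∨ (j = 6 ∧ n = 2 ∧ p = 6 ∧ q = 1) ∨ (j = 6 ∧ n = 2 ∧ p = 6 ∧ q = 3) ∨
      (j = 6 ∧ n = 2 ∧ p = 6 ∧ q = 5) ∨ (j = 6 ∧ n = 2 ∧ p = 8 ∧ q = 1) ∨ (j = 6 ∧ n = 2 ∧ p = 8 ∧ q = 3) ∨ (j = 6 ∧ n = 2 ∧ p = 8 ∧ q = 5) ∨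
      (j = 6 ∧ n = 2 ∧ p = 8 ∧ q = 7) ∨ (j = 6 ∧ n = 3 ∧ p = 3 ∧ q = 3) ∨ (j = 6 ∧ n = 3 ∧ p = 5 ∧ q = 5) ∨ (j = 6 ∧ n = 3 ∧ p = 7 ∧ q = 7)) ∨
      ((j = 7 ∧ n = 5 ∧ p = 7 ∧ q = 7))))
    (fun j n p q => decide (((j = 1 ∧ n = 1 ∧ p = 3 ∧ q = 2) ∨ (j = 1 ∧ n = 1 ∧ p = 3 ∧ q = 3) ∨ (j = 1 ∧ n = 1 ∧ p = 4 ∧ q = 1) ∨ (j = 1 ∧ n = 1 ∧ p = 4 ∧ q = 2) ∨
      (j = 1 ∧ n = 1 ∧ p = 4 ∧ q = 3) ∨ (j = 1 ∧ n = 1 ∧ p = 5 ∧ q = 1) ∨ (j = 1 ∧ n = 1 ∧ p = 5 ∧ q = 2) ∨ (j = 1 ∧ n = 1 ∧ p = 5 ∧ q = 4) ∨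
      (j = 1 ∧ n = 1 ∧ p = 5 ∧ q = 5) ∨ (j = 1 ∧ n = 1 ∧ p = 6 ∧ q = 4) ∨ (j = 1 ∧ n = 1 ∧ p = 6 ∧ q = 5) ∨ (j = 1 ∧ n = 2 ∧ p = 3 ∧ q = 2)) ∨
      ((j = 1 ∧ n = 2 ∧ p = 3 ∧ q = 3) ∨ (j = 1 ∧ n = 2 ∧ p = 4 ∧ q = 1) ∨ (j = 1 ∧ n = 2 ∧ p = 4 ∧ q = 2) ∨ (j = 1 ∧ n = 2 ∧ p = 4 ∧ q = 3) ∨
      (j = 1 ∧ n = 2 ∧ p = 5 ∧ q = 1) ∨ (j = 1 ∧ n = 2 ∧ p = 5 ∧ q = 2) ∨ (j = 1 ∧ n = 2 ∧ p = 5 ∧ q = 4) ∨ (j = 1 ∧ n = 2 ∧ p = 5 ∧ q = 5) ∨
      (j = 1 ∧ n = 2 ∧ p = 6 ∧ q = 4) ∨ (j = 1 ∧ n = 2 ∧ p = 6 ∧ q = 5) ∨ (j = 1 ∧ n = 3 ∧ p = 4 ∧ q = 2) ∨ (j = 1 ∧ n = 3 ∧ p = 4 ∧ q = 3)) ∨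
      ((j = 1 ∧ n = 3 ∧ p = 4 ∧ q = 4) ∨ (j = 1 ∧ n = 3 ∧ p = 5 ∧ q = 2) ∨ (j = 1 ∧ n = 3 ∧ p = 5 ∧ q = 3) ∨ (j = 1 ∧ n = 3 ∧ p = 5 ∧ q = 4) ∨
      (j = 1 ∧ n = 3 ∧ p = 6 ∧ q = 2) ∨ (j = 1 ∧ n = 3 ∧ p = 6 ∧ q = 3) ∨ (j = 1 ∧ n = 3 ∧ p = 6 ∧ q = 4) ∨ (j = 1 ∧ n = 3 ∧ p = 6 ∧ q = 5) ∨
      (j = 1 ∧ n = 3 ∧ p = 6 ∧ q = 6) ∨ (j = 1 ∧ n = 3 ∧ p = 7 ∧ q = 4) ∨ (j = 1 ∧ n = 3 ∧ p = 7 ∧ q = 5) ∨ (j = 1 ∧ n = 3 ∧ p = 7 ∧ q = 6)) ∨
      ((j = 1 ∧ n = 4 ∧ p = 4 ∧ q = 2) ∨ (j = 1 ∧ n = 4 ∧ p = 4 ∧ q = 3) ∨ (j = 1 ∧ n = 4 ∧ p = 4 ∧ q = 4) ∨ (j = 1 ∧ n = 4 ∧ p = 5 ∧ q = 2) ∨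
      (j = 1 ∧ n = 4 ∧ p = 5 ∧ q = 3) ∨ (j = 1 ∧ n = 4 ∧ p = 5 ∧ q = 4) ∨ (j = 1 ∧ n = 4 ∧ p = 5 ∧ q = 5) ∨ (j = 1 ∧ n = 4 ∧ p = 6 ∧ q = 2) ∨
      (j = 1 ∧ n = 4 ∧ p = 6 ∧ q = 3) ∨ (j = 1 ∧ n = 4 ∧ p = 6 ∧ q = 4) ∨ (j = 1 ∧ n = 4 ∧ p = 6 ∧ q = 5) ∨ (j = 1 ∧ n = 4 ∧ p = 6 ∧ q = 6)) ∨
      ((j = 1 ∧ n = 4 ∧ p = 7 ∧ q = 4) ∨ (j = 1 ∧ n = 4 ∧ p = 7 ∧ q = 5) ∨ (j = 1 ∧ n = 4 ∧ p = 7 ∧ q = 6) ∨ (j = 1 ∧ n = 4 ∧ p = 7 ∧ q = 7) ∨
      (j = 1 ∧ n = 5 ∧ p = 4 ∧ q = 4) ∨ (j = 1 ∧ n = 5 ∧ p = 5 ∧ q = 3) ∨ (j = 1 ∧ n = 5 ∧ p = 5 ∧ q = 4) ∨ (j = 1 ∧ n = 5 ∧ p = 5 ∧ q = 5) ∨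
      (j = 1 ∧ n = 5 ∧ p = 6 ∧ q = 3) ∨ (j = 1 ∧ n = 5 ∧ p = 6 ∧ q = 4) ∨ (j = 1 ∧ n = 5 ∧ p = 6 ∧ q = 5) ∨ (j = 1 ∧ n = 5 ∧ p = 6 ∧ q = 6)) ∨
      ((j = 1 ∧ n = 5 ∧ p = 7 ∧ q = 6) ∨ (j = 1 ∧ n = 5 ∧ p = 7 ∧ q = 7) ∨ (j = 2 ∧ n = 1 ∧ p = 3 ∧ q = 1) ∨ (j = 2 ∧ n = 1 ∧ p = 3 ∧ q = 2) ∨
      (j = 2 ∧ n = 1 ∧ p = 3 ∧ q = 3) ∨ (j = 2 ∧ n = 1 ∧ p = 4 ∧ q = 1) ∨ (j = 2 ∧ n = 1 ∧ p = 4 ∧ q = 2) ∨ (j = 2 ∧ n = 1 ∧ p = 4 ∧ q = 3) ∨
      (j = 2 ∧ n = 1 ∧ p = 5 ∧ q = 1) ∨ (j = 2 ∧ n = 1 ∧ p = 5 ∧ q = 2) ∨ (j = 2 ∧ n = 1 ∧ p = 5 ∧ q = 5) ∨ (j = 2 ∧ n = 1 ∧ p = 6 ∧ q = 1)) ∨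
      ((j = 2 ∧ n = 1 ∧ p = 6 ∧ q = 2) ∨ (j = 2 ∧ n = 1 ∧ p = 6 ∧ q = 4) ∨ (j = 2 ∧ n = 1 ∧ p = 6 ∧ q = 5) ∨ (j = 2 ∧ n = 2 ∧ p = 3 ∧ q = 2) ∨
      (j = 2 ∧ n = 2 ∧ p = 3 ∧ q = 3) ∨ (j = 2 ∧ n = 2 ∧ p = 4 ∧ q = 2) ∨ (j = 2 ∧ n = 2 ∧ p = 5 ∧ q = 2) ∨ (j = 2 ∧ n = 2 ∧ p = 5 ∧ q = 5) ∨
      (j = 2 ∧ n = 2 ∧ p = 6 ∧ q = 2) ∨ (j = 2 ∧ n = 3 ∧ p = 4 ∧ q = 4) ∨ (j = 2 ∧ n = 3 ∧ p = 5 ∧ q = 4) ∨ (j = 2 ∧ n = 3 ∧ p = 6 ∧ q = 4)) ∨
      ((j = 2 ∧ n = 3 ∧ p = 6 ∧ q = 5) ∨ (j = 2 ∧ n = 3 ∧ p = 6 ∧ q = 6) ∨ (j = 2 ∧ n = 3 ∧ p = 7 ∧ q = 4) ∨ (j = 2 ∧ n = 3 ∧ p = 7 ∧ q = 5) ∨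
      (j = 2 ∧ n = 3 ∧ p = 7 ∧ q = 6) ∨ (j = 4 ∧ n = 1 ∧ p = 2 ∧ q = 1) ∨ (j = 4 ∧ n = 1 ∧ p = 2 ∧ q = 2) ∨ (j = 4 ∧ n = 1 ∧ p = 3 ∧ q = 1) ∨
      (j = 4 ∧ n = 1 ∧ p = 3 ∧ q = 2) ∨ (j = 4 ∧ n = 1 ∧ p = 4 ∧ q = 1) ∨ (j = 4 ∧ n = 1 ∧ p = 4 ∧ q = 2) ∨ (j = 4 ∧ n = 1 ∧ p = 4 ∧ q = 3)) ∨
      ((j = 4 ∧ n = 1 ∧ p = 4 ∧ q = 4) ∨ (j = 4 ∧ n = 1 ∧ p = 5 ∧ q = 1) ∨ (j = 4 ∧ n = 1 ∧ p = 5 ∧ q = 2) ∨ (j = 4 ∧ n = 1 ∧ p = 5 ∧ q = 3) ∨
      (j = 4 ∧ n = 1 ∧ p = 5 ∧ q = 4) ∨ (j = 4 ∧ n = 1 ∧ p = 6 ∧ q = 1) ∨ (j = 4 ∧ n = 1 ∧ p = 6 ∧ q = 2) ∨ (j = 4 ∧ n = 1 ∧ p = 6 ∧ q = 3) ∨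
      (j = 4 ∧ n = 1 ∧ p = 6 ∧ q = 4) ∨ (j = 4 ∧ n = 1 ∧ p = 6 ∧ q = 5) ∨ (j = 4 ∧ n = 1 ∧ p = 6 ∧ q = 6) ∨ (j = 4 ∧ n = 1 ∧ p = 7 ∧ q = 1)) ∨
      ((j = 4 ∧ n = 1 ∧ p = 7 ∧ q = 2) ∨ (j = 4 ∧ n = 1 ∧ p = 7 ∧ q = 3) ∨ (j = 4 ∧ n = 1 ∧ p = 7 ∧ q = 4) ∨ (j = 4 ∧ n = 1 ∧ p = 7 ∧ q = 5) ∨
      (j = 4 ∧ n = 1 ∧ p = 7 ∧ q = 6) ∨ (j = 5 ∧ n = 4 ∧ p = 6 ∧ q = 6) ∨ (j = 3 ∧ n = 4 ∧ p = 6 ∧ q = 4))))
    683
    0x3dc83053a800698c203d70305350005350407f6800954c203d70305350006934207f10007f10403d183052f80052f8406938e03d183052f8006935a07f1000954da06980006938006938e06938407f60e03d70305350006985207f60007f60405300e03d203053000053004068e0e066083062f000666ba07f6800954c2069280068e00068e0e068e0405fd80075bc205f3800625a206988307f6800954c206930307f10007f10407f18e06938307f18007f18403d70003d701039a80039f00039a81039f01039e8e06988307f6800954c206930307f10007f10407f18e06938307f18007f18403dc8003dc8103d18003d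18106988307f6800954c206930307f10007f10407f18e06938307f18007f18403dc8003dc8103d68003d20003d68103d20103cc0003cc04039580039e80039e8e039e84062983065b80065b84065c0e062a03065c00065c0405f70e062f0305f28005f70005f70e05f70403dc83053a800698c203d70305350005350407f6800954c203d70305350006934207f10007f10403d183052f80052f8406980e03d183052f8006935a07f1000954da06938006980006980e06980407f18e03d7030535000693ca07f18007f18405348e03d683053480053484068e0e065c03068e00068e04062f00062f0403950e03cd0303950003950403a38e06988307f6800954c206930307f10007f10407f60e06980307f60007f60403dc8003dc8103d18003d18103950003998003958a039e9203960003a38003a38e03a38406348306668006668406018005f880075fc20756c206008005ee8005ee8e05ee8406668307c48007c48407bf8e06618307bf8007bf8403a08003a98003a08103a98103a90e03d7030535000698da07f6800954c203d70305350006934203d183052f80052f8407f10007f10407f60e03d70305350006985207f60007f60405348e03d6830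53480053484068e0e03d7030535000698da07f6800954c2069280068e00068e0e068e0406668307c48007c48406608e03d7030535000698da07f6800954c2062f00062f01065c0006608006608e06608407c40e06660307c40007c40403a58003aa0003a58103aa01039b8003a90003a90e03a90403cd0e04f90303cd0003cd0403cc8e039a8303cc8003cc8403958303c78003c78403960303c80003c80405018e03a38305018005018404fc8e039e8304fc8004fc8403710e049d0303710003710403670e049303036700036704036c0e033a03036c00036c0405ee8306208006208405ee0306200006200406330e075f03063300063304062f8e075b83062f80062f84062a8e075683062a80062a84074a03048d80048d8407540304928004928404860e074783048600048604033a0304978004978404528e074583045280045284048a0e05ee03048a00048a0407540304608004608405fb83046100046104048a8e074b83048a80048a84074c83048b80048b84075903046580046584075e03046a80046a84048b0e074c83048b00048b0404700e075e8304700004700404708e075f03047080047084046b0e075e83046b00046b0404660e07548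3046600046604046b8e075f03046b80046b8404668e07550304668004668405ee0e074b8305ee0005ee0406250e07508306250006250404fd0e039f0304fd0004fd0406290e07550306290006290408bf0008b50008ab0008a10008b40008aa0008a00008a900089f00033200033c000331000ab28008f08008e58008da8008c38e08c28008c28e08c18008c18e08c08008c08e08b88008b88e08b78008b78e08b68008b68e08ad8008ad8e08ac8008ac8e05d08005d00e05cf8e05cf0e05ce8e05ce0e05cd8e05ca0e05c98e05c90e05c88e05c58005c50e05c48e05c40e05bf0e05ba8005ba0e05b98e05af8005020e03788003780e03778e03770e03720e036d80036d0e034080033f80033f8e033c01033580033101030f00030e8e030e0e03040003038e03030e02f900027e0e02788e02780e02778e02730e02728e024c0e024b8e024b0e02468e02460e02458e02450e02410e02408e02400e023b8e023b0e021a0e02198e02190e02148e02140e02138e02130e020f0e020e8e020e0e02098e02090e01e28e01e20e01dd0e01d78e01d70e01d20e01b08e01b00e01ab0e01a58e01a50e01a00e0ab28f091d0708f08f08e58f08da8f08c38f08c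28f08c18f08c08f08b88f08b78f08b68f08ad8f08ac8f07bf0706610706600706570705fd0705fc0705fb0705f30705f20705f10705e90705e80705e70705d08f05d00705cf8705cf0705ce8705ce0705cd8705cb0705ca8705ca0705c98705c90705c88705c58f05c50705c48705c40705c38705c00705bf8705bf0705be8705ba8f05ba0705b98705b50705b48705af8f05020703a50703a40703a307039b07039a0703990703910703900703788f037807037787037707037307037287037207036d8f036d0703680703408f033f8f033f07033b87033a0703370703358f033507033087033007032c07030f0f030e87030e07030d07030c8703098703080703078703040f03038703030703028702fe8702fe0702fd8702f90f027e87027e07027907027887027807027787027387027307027287026e07024c87024c07024b87024b07024707024687024607024587024507024187024107024087024007023c07023b87023b07021a07021987021907021507021487021407021387021307020f07020e87020e07020a0702098702090701e28701e20701dd8701dd0701dc0701db8701d78701d70701d68701d28701d20701b08701b00701ab8701ab0701aa0701a98701a58701a50701a48701a08701a007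 = true := by
  decide +kernel

theorem p55 (hf : Rule f) {k b n : ℕ} (h : HZ f k b n) (h344 : ¬ f (6 * k + 3) (b + 2) (2 * n + 4) (2 * n + 4)) (h142 : ¬ f (6 * k + 1) (b + 2) (2 * n + 4) (2 * n + 2)) :
    ¬ f (6 * k + 5) (b + 3) (2 * n + 5) (2 * n + 5) := by
  intro hx
  have hk := h.hk
  have hb := h.hb
  have h4 := h.h4
  have hbig := h.hbig
  have hn := h.hn
  obtain ⟨a0, ha0⟩ : ∃ z, z + 2 = 6 * k := ⟨6 * k - 2, by omega⟩
  obtain ⟨b0, hb0⟩ : ∃ z, z + 2 = b := ⟨b - 2, by omega⟩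
  obtain ⟨x0, hx0⟩ : ∃ z, z + 2 = 2 * n := ⟨2 * n - 2, by omega⟩
  refine check_sound hf (a0 := a0) (b0 := b0) (x0 := x0) (y0 := x0) p55_chk
    ⟨fun _ => rfl, fun h => absurd h (by decide), fun h => absurd h (by decide), by omega, by omega,
      by omega, by omega⟩ ?_ ?_
  · intro j m p q hr h
    clear hr
    replace h := of_decide_eq_true h
    rcases h with h | h | h
    · rcases h with ⟨rfl, rfl, rfl, rfl⟩ | ⟨rfl, rfl, rfl, rfl⟩ | ⟨rfl, rfl, rfl, rfl⟩ | ⟨rfl, rfl, rfl, rfl⟩ |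
        ⟨rfl, rfl, rfl, rfl⟩ | ⟨rfl, rfl, rfl, rfl⟩ | ⟨rfl, rfl, rfl, rfl⟩ | ⟨rfl, rfl, rfl, rfl⟩ |
        ⟨rfl, rfl, rfl, rfl⟩ | ⟨rfl, rfl, rfl, rfl⟩ | ⟨rfl, rfl, rfl, rfl⟩ | ⟨rfl, rfl, rfl, rfl⟩
      · exact (h.q_c0_1 (by omega) (by omega) (by omega) (by omega) (by omega)).mpr (by omega)
      · exact (h.q_c0_1 (by omega) (by omega) (by omega) (by omega) (by omega)).mpr (by omega)
      · exact (h.q_c0_1 (by omega) (by omega) (by omega) (by omega) (by omega)).mpr (by omega)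
      · exact (h.q_c0_2 (by omega) (by omega) (by omega) (by omega) (by omega)).mpr (by omega)
      · exact (h.q_c0_2 (by omega) (by omega) (by omega) (by omega) (by omega)).mpr (by omega)
      · exact (h.q_c0_2 (by omega) (by omega) (by omega) (by omega) (by omega)).mpr (by omega)
      · exact (h.q_c0_3 (by omega) (by omega) (by omega) (by omega) (by omega)).mpr (by omega)
      · exact (h.q_c0_3 (by omega) (by omega) (by omega) (by omega) (by omega)).mpr (by omega)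
      · exact (h.q_c2m_3 (by omega) (by omega) (by omega) (by omega) (by omega)).mpr (by omega)
      · exact (h.q_c2m_3 (by omega) (by omega) (by omega) (by omega) (by omega)).mpr (by omega)
      · exact (h.q_c2m_3 (by omega) (by omega) (by omega) (by omega) (by omega)).mpr (by omega)
      · exact (h.q_c2m_3 (by omega) (by omega) (by omega) (by omega) (by omega)).mpr (by omega)
    · rcases h with ⟨rfl, rfl, rfl, rfl⟩ | ⟨rfl, rfl, rfl, rfl⟩ | ⟨rfl, rfl, rfl, rfl⟩ | ⟨rfl, rfl, rfl, rfl⟩ |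
        ⟨rfl, rfl, rfl, rfl⟩ | ⟨rfl, rfl, rfl, rfl⟩ | ⟨rfl, rfl, rfl, rfl⟩ | ⟨rfl, rfl, rfl, rfl⟩ |
        ⟨rfl, rfl, rfl, rfl⟩ | ⟨rfl, rfl, rfl, rfl⟩ | ⟨rfl, rfl, rfl, rfl⟩ | ⟨rfl, rfl, rfl, rfl⟩
      · exact (h.q_c4m_2 (by omega) (by omega) (by omega) (by omega) (by omega)).mpr (by omega)
      · exact (h.q_c4m_2 (by omega) (by omega) (by omega) (by omega) (by omega)).mpr (by omega)
      · exact (h.q_c4m_2 (by omega) (by omega) (by omega) (by omega) (by omega)).mpr (by omega)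
      · exact (h.q_c4m_2 (by omega) (by omega) (by omega) (by omega) (by omega)).mpr (by omega)
      · exact (h.q_c4m_2 (by omega) (by omega) (by omega) (by omega) (by omega)).mpr (by omega)
      · exact (h.q_c4m_2 (by omega) (by omega) (by omega) (by omega) (by omega)).mpr (by omega)
      · exact (h.q_c4m_2 (by omega) (by omega) (by omega) (by omega) (by omega)).mpr (by omega)
      · exact (h.q_c4m_2 (by omega) (by omega) (by omega) (by omega) (by omega)).mpr (by omega)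
      · exact (h.q_c4m_2 (by omega) (by omega) (by omega) (by omega) (by omega)).mpr (by omega)
      · exact (h.q_c4m_3 (by omega) (by omega) (by omega) (by omega) (by omega)).mpr (by omega)
      · exact (h.q_c4m_3 (by omega) (by omega) (by omega) (by omega) (by omega)).mpr (by omega)
      · exact (h.q_c4m_3 (by omega) (by omega) (by omega) (by omega) (by omega)).mpr (by omega)
    · obtain ⟨rfl, rfl, rfl, rfl⟩ := h
      exact mv hx (by omega) (by omega) (by omega) (by omega)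
  · intro j m p q hr h
    clear hr
    replace h := of_decide_eq_true h
    rcases h with h | h | h | h | h | h | h | h | h | h
    · rcases h with ⟨rfl, rfl, rfl, rfl⟩ | ⟨rfl, rfl, rfl, rfl⟩ | ⟨rfl, rfl, rfl, rfl⟩ | ⟨rfl, rfl, rfl, rfl⟩ |
        ⟨rfl, rfl, rfl, rfl⟩ | ⟨rfl, rfl, rfl, rfl⟩ | ⟨rfl, rfl, rfl, rfl⟩ | ⟨rfl, rfl, rfl, rfl⟩ |
        ⟨rfl, rfl, rfl, rfl⟩ | ⟨rfl, rfl, rfl, rfl⟩ | ⟨rfl, rfl, rfl, rfl⟩ | ⟨rfl, rfl, rfl, rfl⟩
      · exact h.lw _ _ _ _ (by omega) (by omega) (by omega) (by omega) (by omega) (by omega)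
      · exact h.lw _ _ _ _ (by omega) (by omega) (by omega) (by omega) (by omega) (by omega)
      · exact h.lw _ _ _ _ (by omega) (by omega) (by omega) (by omega) (by omega) (by omega)
      · exact h.lw _ _ _ _ (by omega) (by omega) (by omega) (by omega) (by omega) (by omega)
      · exact h.lw _ _ _ _ (by omega) (by omega) (by omega) (by omega) (by omega) (by omega)
      · exact h.lw _ _ _ _ (by omega) (by omega) (by omega) (by omega) (by omega) (by omega)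
      · exact h.lw _ _ _ _ (by omega) (by omega) (by omega) (by omega) (by omega) (by omega)
      · exact h.lw _ _ _ _ (by omega) (by omega) (by omega) (by omega) (by omega) (by omega)
      · exact h.lw _ _ _ _ (by omega) (by omega) (by omega) (by omega) (by omega) (by omega)
      · exact h.lw _ _ _ _ (by omega) (by omega) (by omega) (by omega) (by omega) (by omega)
      · exact h.lw _ _ _ _ (by omega) (by omega) (by omega) (by omega) (by omega) (by omega)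
      · exact h.lw _ _ _ _ (by omega) (by omega) (by omega) (by omega) (by omega) (by omega)
    · rcases h with ⟨rfl, rfl, rfl, rfl⟩ | ⟨rfl, rfl, rfl, rfl⟩ | ⟨rfl, rfl, rfl, rfl⟩ | ⟨rfl, rfl, rfl, rfl⟩ |
        ⟨rfl, rfl, rfl, rfl⟩ | ⟨rfl, rfl, rfl, rfl⟩ | ⟨rfl, rfl, rfl, rfl⟩ | ⟨rfl, rfl, rfl, rfl⟩ |
        ⟨rfl, rfl, rfl, rfl⟩ | ⟨rfl, rfl, rfl, rfl⟩ | ⟨rfl, rfl, rfl, rfl⟩ | ⟨rfl, rfl, rfl, rfl⟩
      · exact h.lw _ _ _ _ (by omega) (by omega) (by omega) (by omega) (by omega) (by omega)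
      · exact h.lw _ _ _ _ (by omega) (by omega) (by omega) (by omega) (by omega) (by omega)
      · exact h.lw _ _ _ _ (by omega) (by omega) (by omega) (by omega) (by omega) (by omega)
      · exact h.lw _ _ _ _ (by omega) (by omega) (by omega) (by omega) (by omega) (by omega)
      · exact h.lw _ _ _ _ (by omega) (by omega) (by omega) (by omega) (by omega) (by omega)
      · exact h.lw _ _ _ _ (by omega) (by omega) (by omega) (by omega) (by omega) (by omega)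
      · exact h.lw _ _ _ _ (by omega) (by omega) (by omega) (by omega) (by omega) (by omega)
      · exact h.lw _ _ _ _ (by omega) (by omega) (by omega) (by omega) (by omega) (by omega)
      · exact h.lw _ _ _ _ (by omega) (by omega) (by omega) (by omega) (by omega) (by omega)
      · exact h.lw _ _ _ _ (by omega) (by omega) (by omega) (by omega) (by omega) (by omega)
      · exact h.lw _ _ _ _ (by omega) (by omega) (by omega) (by omega) (by omega) (by omega)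
      · exact h.lw _ _ _ _ (by omega) (by omega) (by omega) (by omega) (by omega) (by omega)
    · rcases h with ⟨rfl, rfl, rfl, rfl⟩ | ⟨rfl, rfl, rfl, rfl⟩ | ⟨rfl, rfl, rfl, rfl⟩ | ⟨rfl, rfl, rfl, rfl⟩ |
        ⟨rfl, rfl, rfl, rfl⟩ | ⟨rfl, rfl, rfl, rfl⟩ | ⟨rfl, rfl, rfl, rfl⟩ | ⟨rfl, rfl, rfl, rfl⟩ |
        ⟨rfl, rfl, rfl, rfl⟩ | ⟨rfl, rfl, rfl, rfl⟩ | ⟨rfl, rfl, rfl, rfl⟩ | ⟨rfl, rfl, rfl, rfl⟩
      · exact h.lw _ _ _ _ (by omega) (by omega) (by omega) (by omega) (by omega) (by omega)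
      · exact h.lw _ _ _ _ (by omega) (by omega) (by omega) (by omega) (by omega) (by omega)
      · exact h.lw _ _ _ _ (by omega) (by omega) (by omega) (by omega) (by omega) (by omega)
      · exact h.lw _ _ _ _ (by omega) (by omega) (by omega) (by omega) (by omega) (by omega)
      · exact h.lw _ _ _ _ (by omega) (by omega) (by omega) (by omega) (by omega) (by omega)
      · exact h.lw _ _ _ _ (by omega) (by omega) (by omega) (by omega) (by omega) (by omega)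
      · exact h.lw _ _ _ _ (by omega) (by omega) (by omega) (by omega) (by omega) (by omega)
      · exact h.lw _ _ _ _ (by omega) (by omega) (by omega) (by omega) (by omega) (by omega)
      · exact h.lw _ _ _ _ (by omega) (by omega) (by omega) (by omega) (by omega) (by omega)
      · exact h.lw _ _ _ _ (by omega) (by omega) (by omega) (by omega) (by omega) (by omega)
      · exact h.lw _ _ _ _ (by omega) (by omega) (by omega) (by omega) (by omega) (by omega)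
      · exact h.lw _ _ _ _ (by omega) (by omega) (by omega) (by omega) (by omega) (by omega)
    · rcases h with ⟨rfl, rfl, rfl, rfl⟩ | ⟨rfl, rfl, rfl, rfl⟩ | ⟨rfl, rfl, rfl, rfl⟩ | ⟨rfl, rfl, rfl, rfl⟩ |
        ⟨rfl, rfl, rfl, rfl⟩ | ⟨rfl, rfl, rfl, rfl⟩ | ⟨rfl, rfl, rfl, rfl⟩ | ⟨rfl, rfl, rfl, rfl⟩ |
        ⟨rfl, rfl, rfl, rfl⟩ | ⟨rfl, rfl, rfl, rfl⟩ | ⟨rfl, rfl, rfl, rfl⟩ | ⟨rfl, rfl, rfl, rfl⟩
      · exact h.lw _ _ _ _ (by omega) (by omega) (by omega) (by omega) (by omega) (by omega)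
      · exact h.lw _ _ _ _ (by omega) (by omega) (by omega) (by omega) (by omega) (by omega)
      · exact h.lw _ _ _ _ (by omega) (by omega) (by omega) (by omega) (by omega) (by omega)
      · exact h.lw _ _ _ _ (by omega) (by omega) (by omega) (by omega) (by omega) (by omega)
      · exact h.lw _ _ _ _ (by omega) (by omega) (by omega) (by omega) (by omega) (by omega)
      · exact h.lw _ _ _ _ (by omega) (by omega) (by omega) (by omega) (by omega) (by omega)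
      · exact h.lw _ _ _ _ (by omega) (by omega) (by omega) (by omega) (by omega) (by omega)
      · exact h.lw _ _ _ _ (by omega) (by omega) (by omega) (by omega) (by omega) (by omega)
      · exact h.lw _ _ _ _ (by omega) (by omega) (by omega) (by omega) (by omega) (by omega)
      · exact h.lw _ _ _ _ (by omega) (by omega) (by omega) (by omega) (by omega) (by omega)
      · exact h.lw _ _ _ _ (by omega) (by omega) (by omega) (by omega) (by omega) (by omega)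
      · exact h.lw _ _ _ _ (by omega) (by omega) (by omega) (by omega) (by omega) (by omega)
    · rcases h with ⟨rfl, rfl, rfl, rfl⟩ | ⟨rfl, rfl, rfl, rfl⟩ | ⟨rfl, rfl, rfl, rfl⟩ | ⟨rfl, rfl, rfl, rfl⟩ |
        ⟨rfl, rfl, rfl, rfl⟩ | ⟨rfl, rfl, rfl, rfl⟩ | ⟨rfl, rfl, rfl, rfl⟩ | ⟨rfl, rfl, rfl, rfl⟩ |
        ⟨rfl, rfl, rfl, rfl⟩ | ⟨rfl, rfl, rfl, rfl⟩ | ⟨rfl, rfl, rfl, rfl⟩ | ⟨rfl, rfl, rfl, rfl⟩
      · exact h.lw _ _ _ _ (by omega) (by omega) (by omega) (by omega) (by omega) (by omega)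
      · exact h.lw _ _ _ _ (by omega) (by omega) (by omega) (by omega) (by omega) (by omega)
      · exact h.lw _ _ _ _ (by omega) (by omega) (by omega) (by omega) (by omega) (by omega)
      · exact h.lw _ _ _ _ (by omega) (by omega) (by omega) (by omega) (by omega) (by omega)
      · exact h.lw _ _ _ _ (by omega) (by omega) (by omega) (by omega) (by omega) (by omega)
      · exact h.lw _ _ _ _ (by omega) (by omega) (by omega) (by omega) (by omega) (by omega)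
      · exact h.lw _ _ _ _ (by omega) (by omega) (by omega) (by omega) (by omega) (by omega)
      · exact h.lw _ _ _ _ (by omega) (by omega) (by omega) (by omega) (by omega) (by omega)
      · exact h.lw _ _ _ _ (by omega) (by omega) (by omega) (by omega) (by omega) (by omega)
      · exact h.lw _ _ _ _ (by omega) (by omega) (by omega) (by omega) (by omega) (by omega)
      · exact h.lw _ _ _ _ (by omega) (by omega) (by omega) (by omega) (by omega) (by omega)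
      · exact h.lw _ _ _ _ (by omega) (by omega) (by omega) (by omega) (by omega) (by omega)
    · rcases h with ⟨rfl, rfl, rfl, rfl⟩ | ⟨rfl, rfl, rfl, rfl⟩ | ⟨rfl, rfl, rfl, rfl⟩ | ⟨rfl, rfl, rfl, rfl⟩ |
        ⟨rfl, rfl, rfl, rfl⟩ | ⟨rfl, rfl, rfl, rfl⟩ | ⟨rfl, rfl, rfl, rfl⟩ | ⟨rfl, rfl, rfl, rfl⟩ |
        ⟨rfl, rfl, rfl, rfl⟩ | ⟨rfl, rfl, rfl, rfl⟩ | ⟨rfl, rfl, rfl, rfl⟩ | ⟨rfl, rfl, rfl, rfl⟩
      · exact h.lw _ _ _ _ (by omega) (by omega) (by omega) (by omega) (by omega) (by omega)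
      · exact h.lw _ _ _ _ (by omega) (by omega) (by omega) (by omega) (by omega) (by omega)
      · exact mt (h.q_c0_1 (by omega) (by omega) (by omega) (by omega) (by omega)).mp (by omega)
      · exact mt (h.q_c0_1 (by omega) (by omega) (by omega) (by omega) (by omega)).mp (by omega)
      · exact mt (h.q_c0_1 (by omega) (by omega) (by omega) (by omega) (by omega)).mp (by omega)
      · exact mt (h.q_c0_1 (by omega) (by omega) (by omega) (by omega) (by omega)).mp (by omega)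
      · exact mt (h.q_c0_1 (by omega) (by omega) (by omega) (by omega) (by omega)).mp (by omega)
      · exact mt (h.q_c0_1 (by omega) (by omega) (by omega) (by omega) (by omega)).mp (by omega)
      · exact mt (h.q_c0_1 (by omega) (by omega) (by omega) (by omega) (by omega)).mp (by omega)
      · exact mt (h.q_c0_1 (by omega) (by omega) (by omega) (by omega) (by omega)).mp (by omega)
      · exact mt (h.q_c0_1 (by omega) (by omega) (by omega) (by omega) (by omega)).mp (by omega)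
      · exact mt (h.q_c0_1 (by omega) (by omega) (by omega) (by omega) (by omega)).mp (by omega)
    · rcases h with ⟨rfl, rfl, rfl, rfl⟩ | ⟨rfl, rfl, rfl, rfl⟩ | ⟨rfl, rfl, rfl, rfl⟩ | ⟨rfl, rfl, rfl, rfl⟩ |
        ⟨rfl, rfl, rfl, rfl⟩ | ⟨rfl, rfl, rfl, rfl⟩ | ⟨rfl, rfl, rfl, rfl⟩ | ⟨rfl, rfl, rfl, rfl⟩ |
        ⟨rfl, rfl, rfl, rfl⟩ | ⟨rfl, rfl, rfl, rfl⟩ | ⟨rfl, rfl, rfl, rfl⟩ | ⟨rfl, rfl, rfl, rfl⟩
      · exact mt (h.q_c0_1 (by omega) (by omega) (by omega) (by omega) (by omega)).mp (by omega)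
      · exact mt (h.q_c0_1 (by omega) (by omega) (by omega) (by omega) (by omega)).mp (by omega)
      · exact mt (h.q_c0_1 (by omega) (by omega) (by omega) (by omega) (by omega)).mp (by omega)
      · exact mt (h.q_c0_2 (by omega) (by omega) (by omega) (by omega) (by omega)).mp (by omega)
      · exact mt (h.q_c0_2 (by omega) (by omega) (by omega) (by omega) (by omega)).mp (by omega)
      · exact mt (h.q_c0_2 (by omega) (by omega) (by omega) (by omega) (by omega)).mp (by omega)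
      · exact mt (h.q_c0_2 (by omega) (by omega) (by omega) (by omega) (by omega)).mp (by omega)
      · exact mt (h.q_c0_2 (by omega) (by omega) (by omega) (by omega) (by omega)).mp (by omega)
      · exact mt (h.q_c0_2 (by omega) (by omega) (by omega) (by omega) (by omega)).mp (by omega)
      · exact mt (h.q_c0_3 (by omega) (by omega) (by omega) (by omega) (by omega)).mp (by omega)
      · exact mt (h.q_c0_3 (by omega) (by omega) (by omega) (by omega) (by omega)).mp (by omega)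
      · exact mt (h.q_c0_3 (by omega) (by omega) (by omega) (by omega) (by omega)).mp (by omega)
    · rcases h with ⟨rfl, rfl, rfl, rfl⟩ | ⟨rfl, rfl, rfl, rfl⟩ | ⟨rfl, rfl, rfl, rfl⟩ | ⟨rfl, rfl, rfl, rfl⟩ |
        ⟨rfl, rfl, rfl, rfl⟩ | ⟨rfl, rfl, rfl, rfl⟩ | ⟨rfl, rfl, rfl, rfl⟩ | ⟨rfl, rfl, rfl, rfl⟩ |
        ⟨rfl, rfl, rfl, rfl⟩ | ⟨rfl, rfl, rfl, rfl⟩ | ⟨rfl, rfl, rfl, rfl⟩ | ⟨rfl, rfl, rfl, rfl⟩
      · exact mt (h.q_c0_3 (by omega) (by omega) (by omega) (by omega) (by omega)).mp (by omega)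
      · exact mt (h.q_c0_3 (by omega) (by omega) (by omega) (by omega) (by omega)).mp (by omega)
      · exact mt (h.q_c0_3 (by omega) (by omega) (by omega) (by omega) (by omega)).mp (by omega)
      · exact mt (h.q_c0_3 (by omega) (by omega) (by omega) (by omega) (by omega)).mp (by omega)
      · exact mt (h.q_c0_3 (by omega) (by omega) (by omega) (by omega) (by omega)).mp (by omega)
      · exact mt (h.q_c2m_3 (by omega) (by omega) (by omega) (by omega) (by omega)).mp (by omega)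
      · exact mt (h.q_c2m_3 (by omega) (by omega) (by omega) (by omega) (by omega)).mp (by omega)
      · exact mt (h.q_c2m_3 (by omega) (by omega) (by omega) (by omega) (by omega)).mp (by omega)
      · exact mt (h.q_c2m_3 (by omega) (by omega) (by omega) (by omega) (by omega)).mp (by omega)
      · exact mt (h.q_c2m_3 (by omega) (by omega) (by omega) (by omega) (by omega)).mp (by omega)
      · exact mt (h.q_c2m_3 (by omega) (by omega) (by omega) (by omega) (by omega)).mp (by omega)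
      · exact mt (h.q_c2m_3 (by omega) (by omega) (by omega) (by omega) (by omega)).mp (by omega)
    · rcases h with ⟨rfl, rfl, rfl, rfl⟩ | ⟨rfl, rfl, rfl, rfl⟩ | ⟨rfl, rfl, rfl, rfl⟩ | ⟨rfl, rfl, rfl, rfl⟩ |
        ⟨rfl, rfl, rfl, rfl⟩ | ⟨rfl, rfl, rfl, rfl⟩ | ⟨rfl, rfl, rfl, rfl⟩ | ⟨rfl, rfl, rfl, rfl⟩ |
        ⟨rfl, rfl, rfl, rfl⟩ | ⟨rfl, rfl, rfl, rfl⟩ | ⟨rfl, rfl, rfl, rfl⟩ | ⟨rfl, rfl, rfl, rfl⟩
      · exact mt (h.q_c2m_3 (by omega) (by omega) (by omega) (by omega) (by omega)).mp (by omega)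
      · exact mt (h.q_c2m_3 (by omega) (by omega) (by omega) (by omega) (by omega)).mp (by omega)
      · exact mt (h.q_c2m_3 (by omega) (by omega) (by omega) (by omega) (by omega)).mp (by omega)
      · exact mt (h.q_c2m_3 (by omega) (by omega) (by omega) (by omega) (by omega)).mp (by omega)
      · exact mt (h.q_c2m_3 (by omega) (by omega) (by omega) (by omega) (by omega)).mp (by omega)
      · exact mt (h.q_c2m_3 (by omega) (by omega) (by omega) (by omega) (by omega)).mp (by omega)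
      · exact mt (h.q_c2m_3 (by omega) (by omega) (by omega) (by omega) (by omega)).mp (by omega)
      · exact mt (h.q_c2m_3 (by omega) (by omega) (by omega) (by omega) (by omega)).mp (by omega)
      · exact mt (h.q_c2m_3 (by omega) (by omega) (by omega) (by omega) (by omega)).mp (by omega)
      · exact mt (h.q_c2m_3 (by omega) (by omega) (by omega) (by omega) (by omega)).mp (by omega)
      · exact mt (h.q_c2m_3 (by omega) (by omega) (by omega) (by omega) (by omega)).mp (by omega)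
      · exact mt (h.q_c2m_3 (by omega) (by omega) (by omega) (by omega) (by omega)).mp (by omega)
    · rcases h with ⟨rfl, rfl, rfl, rfl⟩ | ⟨rfl, rfl, rfl, rfl⟩ | ⟨rfl, rfl, rfl, rfl⟩ | ⟨rfl, rfl, rfl, rfl⟩ |
        ⟨rfl, rfl, rfl, rfl⟩ | ⟨rfl, rfl, rfl, rfl⟩ | ⟨rfl, rfl, rfl, rfl⟩
      · exact mt (h.q_c2m_3 (by omega) (by omega) (by omega) (by omega) (by omega)).mp (by omega)
      · exact mt (h.q_c2m_3 (by omega) (by omega) (by omega) (by omega) (by omega)).mp (by omega)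
      · exact mt (h.q_c2m_3 (by omega) (by omega) (by omega) (by omega) (by omega)).mp (by omega)
      · exact mt (h.q_c2m_3 (by omega) (by omega) (by omega) (by omega) (by omega)).mp (by omega)
      · exact mt (h.q_c2m_3 (by omega) (by omega) (by omega) (by omega) (by omega)).mp (by omega)
      · exact fun t => h344 (mv t (by omega) (by omega) (by omega) (by omega))
      · exact fun t => h142 (mv t (by omega) (by omega) (by omega) (by omega))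

end Pool.Agent.SNT.LocR6
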