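import Pool.Agent.SNT.L6Y0
import Pool.Agent.SNT.L6Y1
import Pool.Agent.SNT.L6Y2
import Pool.Agent.SNT.L6Y3

set_option autoImplicit false
set_option linter.unusedVariables false
set_option synthInstance.maxSize 100000
set_option synthInstance.maxHeartbeats 4000000

/-! The window of the leader `6 k + 6` with the tip present: the cell `(2 n + 5, 2 n + 5)` of the row `b + 3` of
`6 k + 6` is one. -/

namespace Pool.Agent.SNT.LocR6

open Pool.Agent.SNT Pool.Agent.SNT.Loc Pool.Agent.SNT.LW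

variable {f : ℕ → ℕ → ℕ → ℕ → Prop}

theorem a55_chk : check 5 6 8 8 1 0 1 1 2
    (fun j n p q => decide ((j = 1 ∧ n = 1 ∧ p = 4 ∧ q = 4) ∨ (j = 3 ∧ n = 1 ∧ p = 3 ∧ q = 3) ∨ (j = 3 ∧ n = 2 ∧ p = 5 ∧ q = 4) ∨ (j = 3 ∧ n = 2 ∧ p = 3 ∧ q = 2)))
    (fun j n p q => decide ((j = 3 ∧ n = 2 ∧ p = 3 ∧ q = 3) ∨ (j = 3 ∧ n = 2 ∧ p = 4 ∧ q = 3) ∨ (j = 3 ∧ n = 2 ∧ p = 4 ∧ q = 4) ∨ (j = 3 ∧ n = 3 ∧ p = 4 ∧ q = 4) ∨
      (j = 2 ∧ n = 3 ∧ p = 3 ∧ q = 3) ∨ (j = 2 ∧ n = 3 ∧ p = 4 ∧ q = 3) ∨ (j = 2 ∧ n = 3 ∧ p = 4 ∧ q = 4) ∨ (j = 2 ∧ n = 2 ∧ p = 3 ∧ q = 3)))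
    23
    0x1ce0502928002b27202898002960002960e028d00028d0e026d8001f18e00f20002b20702960f029207029187028d87028d0f026d8f01f20701f18701ed8701cd8700f20f = true := by
  decide +kernel

theorem a55 (hf : Rule f) {k b n : ℕ} (h : HY f k b n) (h643 : f (6 * k + 6) (b + 2) (2 * n + 4) (2 * n + 3)) (h544 : ¬ f (6 * k + 5) (b + 3) (2 * n + 4) (2 * n + 4)) (h554 : ¬ f (6 * k + 5) (b + 3) (2 * n + 5) (2 * n + 4)) (h555 : ¬ f (6 * k + 5) (b + 3) (2 * n + 5) (2 * n + 5)) (h244 : ¬ f (6 * k + 5) (b + 2) (2 * n + 4) (2 * n + 4)) :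
    f (6 * k + 6) (b + 3) (2 * n + 5) (2 * n + 5) := by
  by_contra hx
  have hk := h.hk
  have hb := h.hb
  have h4 := h.h4
  have hbig := h.hbig
  have hn := h.hn
  obtain ⟨a0, ha0⟩ : ∃ z, z = 6 * k + 3 := ⟨_, rfl⟩
  obtain ⟨b0, hb0⟩ : ∃ z, z = b := ⟨_, rfl⟩
  obtain ⟨x0, hx0⟩ : ∃ z, z = 2 * n + 1 := ⟨_, rfl⟩
  refine check_sound hf (a0 := a0) (b0 := b0) (x0 := x0) (y0 := x0) a55_chk
    ⟨fun _ => rfl, fun h => absurd h (by decide), fun h => absurd h (by decide), by omega, by omega,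
      by omega, by omega⟩ ?_ ?_
  · intro j m p q hr h
    clear hr
    replace h := of_decide_eq_true h
    rcases h with ⟨rfl, rfl, rfl, rfl⟩ | ⟨rfl, rfl, rfl, rfl⟩ | ⟨rfl, rfl, rfl, rfl⟩ | ⟨rfl, rfl, rfl, rfl⟩
    · exact (h.q_c4m_3 (by omega) (by omega) (by omega) (by omega) (by omega)).mpr (by omega)
    · exact (WrapC.v1 h.c6 (by omega) (by omega) (by omega) (by omega) (by omega) (by omega) (by omega) (by omega)).mpr (by omega)
    · exact (WrapC.v2 h.c6 (by omega) (by omega) (by omega) (by omega) (by omega) (by omega) (by omega)).mpr (by omega)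
    · exact mv h643 (by omega) (by omega) (by omega) (by omega)
  · intro j m p q hr h
    clear hr
    replace h := of_decide_eq_true h
    rcases h with ⟨rfl, rfl, rfl, rfl⟩ | ⟨rfl, rfl, rfl, rfl⟩ | ⟨rfl, rfl, rfl, rfl⟩ | ⟨rfl, rfl, rfl, rfl⟩ |
      ⟨rfl, rfl, rfl, rfl⟩ | ⟨rfl, rfl, rfl, rfl⟩ | ⟨rfl, rfl, rfl, rfl⟩ | ⟨rfl, rfl, rfl, rfl⟩
    · exact mt (WrapC.v2 h.c6 (by omega) (by omega) (by omega) (by omega) (by omega) (by omega) (by omega)).mp (by omega)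
    · exact mt (WrapC.v2 h.c6 (by omega) (by omega) (by omega) (by omega) (by omega) (by omega) (by omega)).mp (by omega)
    · exact mt (WrapC.v2 h.c6 (by omega) (by omega) (by omega) (by omega) (by omega) (by omega) (by omega)).mp (by omega)
    · exact fun t => hx (mv t (by omega) (by omega) (by omega) (by omega))
    · exact fun t => h544 (mv t (by omega) (by omega) (by omega) (by omega))
    · exact fun t => h554 (mv t (by omega) (by omega) (by omega) (by omega))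
    · exact fun t => h555 (mv t (by omega) (by omega) (by omega) (by omega))
    · exact fun t => h244 (mv t (by omega) (by omega) (by omega) (by omega))

theorem HY.a (hf : Rule f) {k b n : ℕ} (h : HY f k b n) (tip : f (6 * k + 6) b (2 * n + 1) (2 * n)) :
    f (6 * k + 6) (b + 3) (2 * n + 5) (2 * n + 5) := by
  have h142 := h.toHZ.z hf
  have h122 := z22 hf h.toHZ 
  have h344 := z44 hf h.toHZ 
  have h643 := r243 hf h tip
  have h244 := p244 hf h.toHZ 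
  have h554 := p54 hf h.toHZ 
  have h544 := p44 hf h.toHZ h122 h344 h142
  have h555 := p55 hf h.toHZ h344 h142
  exact a55 hf h h643 h544 h554 h555 h244

theorem HY.of_stack {k b m : ℕ} (hs : Side k b m) (S : Stack6 f k b m 0 0 0 1 1 1)
    (C0 : Cyc f (6 * k) (b + 16) (2 * (m + 5 + (k + 2) * 4 - 2) + 2)) :
    HY f k (b + 18) (m + 5 + (k + 2) * 4) := by
  have H := HZ.of_stack hs S C0
  obtain ⟨hk, hb2, hb, hkb, hbm⟩ := hs
  have hkk : (k + 2) * 4 = (k + 2) * 3 + (k + 2) := by ring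
  refine ⟨H, ?_, ?_, ?_, ?_⟩
  · have e : b + 18 = b + 2 + 4 * 4 := by omega
    have e2 : 2 * (m + 5 + (k + 2) * 4) + 2 = 2 * (m + 4 + 1 + (k + 2) * 4) + 2 := by omega
    rw [e, e2]
    exact S.l6 4
  · have e : b + 18 - 4 = b + 2 + 4 * 3 := by omega
    have e2 : 2 * (m + 5 + (k + 2) * 4 - k - 2) + 2 = 2 * (m + 4 + 1 + (k + 2) * 3) + 2 := by omega
    rw [e, e2]
    exact S.l6 3
  · have e : b + 18 - 2 = b + 4 + 4 * 3 := by omega
    have e2 : m + 5 + (k + 2) * 4 - k = m + 6 + 1 + (k + 2) * 3 := by omega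
    rw [e, e2]
    exact S.l8 3
  · have e : b + 18 = b + 6 + 4 * 3 := by omega
    have e2 : m + 5 + (k + 2) * 4 + 2 - k = m + 8 + 1 + (k + 2) * 3 := by omega
    rw [e, e2]
    exact S.l10 3

/-- **The cell `(2 n + 5, 2 n + 5)` of `6 k + 6` in the row `b + 3` is one.** -/
theorem hz5 (hf : Rule f) {k b m : ℕ} (hs : Side k b m) (S : Stack6 f k b m 0 0 0 1 1 1)
    (C0 : Cyc f (6 * k) (b + 16) (2 * (m + 5 + (k + 2) * 4 - 2) + 2))
    (tip : f (6 * k + 6) (b + 18) (2 * (m + 5 + (k + 2) * 4) + 1) (2 * (m + 5 + (k + 2) * 4))) :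
    f (6 * k + 6) (b + 18 + 3) (2 * (m + 5 + (k + 2) * 4) + 5) (2 * (m + 5 + (k + 2) * 4) + 5) :=
  (HY.of_stack hs S C0).a hf tip

end Pool.Agent.SNT.LocR6
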