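import Pool.Agent.SNT.LocR6f
import Pool.Agent.SNT.L6Y
import Pool.Agent.SNT.D1Ind
import Pool.Agent.SNT.StackShift

set_option autoImplicit false

/-! `L6` over `StackB`. -/

namespace Pool.Agent.SNT

variable {f : ℕ → ℕ → ℕ → ℕ → Prop}

namespace S6

/-- The windows of the leader `6 k + 6` are windows of the leader `6 k + 10` with `m + 1`. -/
theorem stackA_of6 {k b m : ℕ} (S : StackA f k b m 0 0 0 1 1 1) :
    StackA f k b (m + 1) 0 0 0 0 0 1 := by
  intro j
  have e : m + 1 + (k + 2) * j = m + (k + 2) * j + 1 := by ring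
  rw [e]
  exact ⟨(S j).1.succ, (S j).2.of6⟩

theorem stackB_of6 {k b m : ℕ} (S : StackB f k b m 0 0 0 1 1 1) :
    StackB f k b (m + 1) 0 0 0 0 0 1 := by
  obtain ⟨b0, m0, hb, hm, S0⟩ := S
  exact ⟨b0, m0 + 1, hb, by omega, stackA_of6 S0⟩

/-- LOCATION of the leader `6 k + 6` from the improved cycle of `6 k`. -/
theorem locR6_of_d1 (hf : Rule f) {k b m : ℕ} (hs : Side k b m) (S : Stack6 f k b m 0 0 0 1 1 1)
    (C0 : Cyc f (6 * k) (b + 16) (2 * (m + 5 + (k + 2) * 4 - 2) + 2))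
    (tip : f (6 * k + 6) (b + 18) (2 * (m + 5 + (k + 2) * 4) + 1)
      (2 * (m + 5 + (k + 2) * 4))) :
    Cy3 f (6 * k + 6) (b + 18) (2 * (m + 5 + (k + 2) * 4)) :=
  locR6_of hf hs S tip (LocR6.hz5 hf hs S C0 tip)

/-- **`L6` over `StackB`, from the steps of the improved leads.** -/
theorem locR6A_of_steps (hf : Rule f) {k : ℕ} (hk : 8 ≤ k) (D : D1.Steps f k 0 1) :
    LocR6A f k := by
  intro b m S hno tip
  refine hno (locR6_of_d1 hf S.side S.stack ?_ tip)
  have h := (D1.main D (stackB_of6 S) hk 0).1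
  refine D1.cyc_of_eq h (by omega) ?_
  unfold D1.nn
  omega

end S6

end Pool.Agent.SNT
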