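import Pool.Agent.SNT.LocR8F
import Pool.Agent.SNT.D1R8

set_option autoImplicit false

/-! `L8` over `StackB`. -/

namespace Pool.Agent.SNT.S6

variable {f : ℕ → ℕ → ℕ → ℕ → Prop}

/-- **`L8` over `StackB`, from the steps of the improved leads.** -/
theorem locR8A_of_steps (hf : Rule f) {k : ℕ} (hk : 8 ≤ k) (D : D1.Steps f k 0 1) :
    LocR8A f k := by
  intro b m S hno tip
  have h0 := D1.main8 hf D S hk 0
  refine hno (LocR8.locR8_of hf S.side S.stack tip ?_ ?_)
  · refine D1.cyc_of_eq h0.2.1 (by omega) ?_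
    unfold D1.nn
    omega
  · refine D1.cyc_of_eq h0.1 (by omega) ?_
    unfold D1.nn
    omega

end Pool.Agent.SNT.S6
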