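import Pool.Agent.SNT.LR10A
import Pool.Agent.SNT.LL6
import Pool.Agent.SNT.LL8
import Pool.Agent.SNT.LL10
import Pool.Agent.SNT.D1Fields
import Pool.Agent.SNT.AdaptA

set_option autoImplicit false

/-! Everything over the tips of `6 k + 2` and the ten single cells of the top leader. -/

namespace Pool.Agent.SNT.S6

/-- **The frozen statement from the tips of `6 k + 2` and the cells of the location of `6 k + 10`.** -/
theorem final_of_tips
    (hT : ∀ f : ℕ → ℕ → ℕ → ℕ → Prop, Rule f → ∀ k : ℕ, 8 ≤ k → D1.Tips2 f k)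
    (hC : ∀ f : ℕ → ℕ → ℕ → ℕ → Prop, Rule f → ∀ k : ℕ, 8 ≤ k → ∀ b m : ℕ, StackW f k b m →
      Cells10 f k (b + 4 * 25) (D1.nn k m 25)) :
    ¬ (∀ n k : ℕ, 1 ≤ k →
      ∀ P : Set (Fin n → ℕ),
        (∀ x : Fin n → ℕ, x ∈ P ↔
          ∀ S : Finset (Fin n), S.card = k → (∀ i ∈ S, 1 ≤ x i) →
            (fun i => if i ∈ S then x i - 1 else x i) ∉ P) →
        ∃ m r : ℕ, ∃ base : Fin m → Fin n → ℕ, ∃ per : Fin m → Fin r → Fin n → ℕ,
          ∀ x : Fin n → ℕ, x ∈ P ↔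
            ∃ i : Fin m, ∃ c : Fin r → ℕ, x = base i + ∑ j, c j • per i j) :=
  final_of_allA fun f hf k hk => by
    have H : D1.Steps f k 0 1 := D1.steps_of hf hk (hT f hf k hk)
    exact ⟨R10A_of_steps hf hk H, locR6A_of_steps hf hk H, locR8A_of_steps hf hk H,
      locR10A_of hf hk H (hC f hf k hk)⟩

end Pool.Agent.SNT.S6
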