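import Pool.Agent.SNT.NWW

set_option autoImplicit false
set_option synthInstance.maxSize 100000
set_option synthInstance.maxHeartbeats 4000000

/-! The ends of the lines `2 n + 2`, `2 n` of `P_(6k+1)` at the wall, row `c + 2`. -/

namespace Pool.Agent.SNT.NWW

open Pool.Agent.SNT Pool.Agent.SNT.Loc Pool.Agent.SNT.LW Pool.Agent.SNT.NHZ

variable {f : ℕ → ℕ → ℕ → ℕ → Prop}

theorem z1_m8_2_chk : check 4 5 5 5 0 1 0 1 0
    (fun j n p q => decide ((j = 3 ∧ n = 3 ∧ p = 2 ∧ q = 1)))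
    (fun j n p q => decide ((j = 1 ∧ n = 1)
      ∨ (j = 1 ∧ n = 2)
      ∨ (j = 3 ∧ n = 2 ∧ q ≤ p + 0)
      ∨ (j = 4 ∧ n = 2 ∧ q ≤ p + 1)
      ∨ (j = 1 ∧ n = 3)
      ∨ (j = 3 ∧ n = 3 ∧ 3 ≤ q ∧ q ≤ p + 0)
      ∨ (j = 4 ∧ n = 3 ∧ 3 ≤ p ∧ 3 ≤ q ∧ p % 2 = 1)))
    34
    0x9c8300db000128f200a88300e78000e78400e680012887012607011c07011b8701198701190700ea0700e68f00dd8700dd0700da8700a807009007006a07006987006787006707005e07005d87005d07005b87005b07005a87005187005107004f07004e87 = true := by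
  decide +kernel

theorem z1_m8_2 (hf : Rule f) {k c n : ℕ} (H : NWW f k c n) (U : PurW f k c n) : ¬ f (6 * k + 1) (c + 2) (2 * n + 2 * k - 8) (2 * n + 2) := by
  intro hg
  have hk := H.T.hk
  have hc := H.T.hc
  have h4 := H.T.h4
  have hb := H.T.hb
  have hN := H.T.hN2
  have hg' : ∀ M R x y : ℕ, M = 6 * k + 1 → R = c + 2 → x = 2 * n + 2 * k - 8 → y = 2 * n + 2 → f M R x y := by
    intro M R x y e1 e2 e3 e4
    rw [e1, e2, e3, e4]
    exact hg
  clear hg
  obtain ⟨a0, ha0⟩ : ∃ z, z + 2 = 6 * k := ⟨6 * k - 2, by omega⟩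
  obtain ⟨b0, hb0⟩ : ∃ z, z + 1 = c := ⟨c - 1, by omega⟩
  obtain ⟨x0, hx0⟩ : ∃ z, z + 10 = 2 * n + 2 * k := ⟨2 * n + 2 * k - 10, by omega⟩
  obtain ⟨y0, hy0⟩ : ∃ z, z = 2 * n + 1 := ⟨_, rfl⟩
  refine check_sound hf (a0 := a0) (b0 := b0) (x0 := x0) (y0 := y0) z1_m8_2_chk
    ⟨fun h => absurd h (by decide), fun h => absurd h (by decide), fun h => absurd h (by decide), by omega, by omega,
      by omega, by omega⟩ ?_ ?_
  · intro j m p q hr h
    obtain ⟨-, -, -, -, hp1, hp2, hq1, hq2⟩ := hr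
    replace h := of_decide_eq_true h
    obtain ⟨rfl, rfl, rfl, rfl⟩ := h
    exact hg' _ _ _ _ (by omega) (by omega) (by omega) (by omega)
  · intro j m p q hr h
    obtain ⟨-, -, -, -, hp1, hp2, hq1, hq2⟩ := hr
    replace h := of_decide_eq_true h
    rcases h with h | h | h | h | h | h | h
    · obtain ⟨rfl, rfl⟩ := h
      exact H.lw _ _ _ _ (by omega) (by omega) (by omega) (by omega) (by omega) (by omega)
    · obtain ⟨rfl, rfl⟩ := h
      exact H.lw _ _ _ _ (by omega) (by omega) (by omega) (by omega) (by omega) (by omega)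
    · obtain ⟨rfl, rfl, h⟩ := h
      exact NW.r1 hf H.T (p := 1) (j := 4) (by omega) (by omega) (by omega) (by omega) (by omega) (by omega) (by omega)
    · obtain ⟨rfl, rfl, h⟩ := h
      exact NW.r1 hf H.T (p := 0) (j := 3) (by omega) (by omega) (by omega) (by omega) (by omega) (by omega) (by omega)
    · obtain ⟨rfl, rfl⟩ := h
      exact H.lw _ _ _ _ (by omega) (by omega) (by omega) (by omega) (by omega) (by omega)
    · obtain ⟨rfl, rfl, h⟩ := h
      exact NHT.p2 hf H.T (j := 4) (by omega) (by omega) (by omega) (by omega) (by omega) (by omega)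
    · obtain ⟨rfl, rfl, h⟩ := h
      exact U.u2 _ _ _ _ (by omega) (by omega) (by omega) (by omega) (by omega) (by omega)

theorem z1_m6_2_chk : check 4 4 4 5 0 0 1 1 0
    (fun j n p q => decide ((j = 3 ∧ n = 2 ∧ p = 1 ∧ q = 1)))
    (fun j n p q => decide ((j = 1 ∧ n = 1)
      ∨ (j = 3 ∧ n = 1)
      ∨ (j = 4 ∧ n = 1)
      ∨ (j = 1 ∧ n = 2)
      ∨ (j = 3 ∧ n = 2 ∧ 3 ≤ q)
      ∨ (j = 4 ∧ n = 2 ∧ 3 ≤ q ∧ p % 2 = 0)))
    25
    0x6a8300928000bac2008f0000ba8700b80700b08700b00700ae0700ad87009007008f0f008887008807008607008587006807004287004207004007003f87003887003807003607003587 = true := by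
  decide +kernel

theorem z1_m6_2 (hf : Rule f) {k c n : ℕ} (H : NWW f k c n) (U : PurW f k c n) : ¬ f (6 * k + 1) (c + 2) (2 * n + 2 * k - 6) (2 * n + 2) := by
  intro hg
  have hk := H.T.hk
  have hc := H.T.hc
  have h4 := H.T.h4
  have hb := H.T.hb
  have hN := H.T.hN2
  have hg' : ∀ M R x y : ℕ, M = 6 * k + 1 → R = c + 2 → x = 2 * n + 2 * k - 6 → y = 2 * n + 2 → f M R x y := by
    intro M R x y e1 e2 e3 e4
    rw [e1, e2, e3, e4]
    exact hg
  clear hg
  obtain ⟨a0, ha0⟩ : ∃ z, z + 2 = 6 * k := ⟨6 * k - 2, by omega⟩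
  obtain ⟨b0, hb0⟩ : ∃ z, z = c + 0 := ⟨_, rfl⟩
  obtain ⟨x0, hx0⟩ : ∃ z, z + 7 = 2 * n + 2 * k := ⟨2 * n + 2 * k - 7, by omega⟩
  obtain ⟨y0, hy0⟩ : ∃ z, z = 2 * n + 1 := ⟨_, rfl⟩
  refine check_sound hf (a0 := a0) (b0 := b0) (x0 := x0) (y0 := y0) z1_m6_2_chk
    ⟨fun h => absurd h (by decide), fun h => absurd h (by decide), fun h => absurd h (by decide), by omega, by omega,
      by omega, by omega⟩ ?_ ?_
  · intro j m p q hr h
    obtain ⟨-, -, -, -, hp1, hp2, hq1, hq2⟩ := hr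
    replace h := of_decide_eq_true h
    obtain ⟨rfl, rfl, rfl, rfl⟩ := h
    exact hg' _ _ _ _ (by omega) (by omega) (by omega) (by omega)
  · intro j m p q hr h
    obtain ⟨-, -, -, -, hp1, hp2, hq1, hq2⟩ := hr
    replace h := of_decide_eq_true h
    rcases h with h | h | h | h | h | h
    · obtain ⟨rfl, rfl⟩ := h
      exact H.lw _ _ _ _ (by omega) (by omega) (by omega) (by omega) (by omega) (by omega)
    · obtain ⟨rfl, rfl⟩ := h
      exact NW.r1i hf H.T (p := 1) (j := 5) (by omega) (by omega) (by omega) (by omega) (by omega) (by omega) (by omega)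
    · obtain ⟨rfl, rfl⟩ := h
      exact NW.r1i hf H.T (p := 0) (j := 4) (by omega) (by omega) (by omega) (by omega) (by omega) (by omega) (by omega)
    · obtain ⟨rfl, rfl⟩ := h
      exact H.lw _ _ _ _ (by omega) (by omega) (by omega) (by omega) (by omega) (by omega)
    · obtain ⟨rfl, rfl, h⟩ := h
      exact NHT.p2 hf H.T (j := 4) (by omega) (by omega) (by omega) (by omega) (by omega) (by omega)
    · obtain ⟨rfl, rfl, h⟩ := h
      exact U.u2 _ _ _ _ (by omega) (by omega) (by omega) (by omega) (by omega) (by omega)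

theorem z1_m4_2_chk : check 3 7 4 5 1 1 1 1 0
    (fun j n p q => decide ((j = 1 ∧ n = 1 ∧ 2 ≤ p ∧ ((p + q) % 2 = 1 ∧ p % 2 = 0))
      ∨ (j = 2 ∧ n = 5 ∧ p = 1 ∧ q = 1)))
    (fun j n p q => decide ((j = 1 ∧ n = 2 ∧ p ≤ q + 0)
      ∨ (j = 2 ∧ n = 2 ∧ p ≤ q + 0)
      ∨ (j = 2 ∧ n = 4 ∧ p + 1 ≤ q)
      ∨ (j = 3 ∧ n = 4 ∧ p ≤ q + 0)
      ∨ (j = 2 ∧ n = 5 ∧ 3 ≤ q ∧ p ≤ q + 0)
      ∨ (j = 3 ∧ n = 5 ∧ 3 ≤ q ∧ p % 2 = 0)))
    23
    0xb00300ba00010aea00c100005580010a8701080701008701000700fe0700fd8700c48700c20700c10f00ba8700b80700b78700a38700a307006707005d87005d0700558f = true := by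
  decide +kernel

theorem z1_m4_2 (hf : Rule f) {k c n : ℕ} (H : NWW f k c n) (U : PurW f k c n) : ¬ f (6 * k + 1) (c + 2) (2 * n + 2 * k - 4) (2 * n + 2) := by
  intro hg
  have hk := H.T.hk
  have hc := H.T.hc
  have h4 := H.T.h4
  have hb := H.T.hb
  have hN := H.T.hN2
  have hg' : ∀ M R x y : ℕ, M = 6 * k + 1 → R = c + 2 → x = 2 * n + 2 * k - 4 → y = 2 * n + 2 → f M R x y := by
    intro M R x y e1 e2 e3 e4
    rw [e1, e2, e3, e4]
    exact hg
  clear hg
  obtain ⟨a0, ha0⟩ : ∃ z, z + 1 = 6 * k := ⟨6 * k - 1, by omega⟩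
  obtain ⟨b0, hb0⟩ : ∃ z, z + 3 = c := ⟨c - 3, by omega⟩
  obtain ⟨x0, hx0⟩ : ∃ z, z + 5 = 2 * n + 2 * k := ⟨2 * n + 2 * k - 5, by omega⟩
  obtain ⟨y0, hy0⟩ : ∃ z, z = 2 * n + 1 := ⟨_, rfl⟩
  refine check_sound hf (a0 := a0) (b0 := b0) (x0 := x0) (y0 := y0) z1_m4_2_chk
    ⟨fun h => absurd h (by decide), fun h => absurd h (by decide), fun h => absurd h (by decide), by omega, by omega,
      by omega, by omega⟩ ?_ ?_
  · intro j m p q hr h
    obtain ⟨-, -, -, -, hp1, hp2, hq1, hq2⟩ := hr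
    replace h := of_decide_eq_true h
    rcases h with h | h
    · obtain ⟨rfl, rfl, h⟩ := h
      exact (WrapC.v0 H.c0 (by omega) (by omega) (by omega) (by omega) (by omega) (by omega) (by omega)).mpr (by omega)
    · obtain ⟨rfl, rfl, rfl, rfl⟩ := h
      exact hg' _ _ _ _ (by omega) (by omega) (by omega) (by omega)
  · intro j m p q hr h
    obtain ⟨-, -, -, -, hp1, hp2, hq1, hq2⟩ := hr
    replace h := of_decide_eq_true h
    rcases h with h | h | h | h | h | h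
    · obtain ⟨rfl, rfl, h⟩ := h
      exact NW.rm1i hf H.T (p := 0) (j := 4) (by omega) (by omega) (by omega) (by omega) (by omega) (by omega) (by omega)
    · obtain ⟨rfl, rfl, h⟩ := h
      exact NW.rm1i hf H.T (p := 1) (j := 4) (by omega) (by omega) (by omega) (by omega) (by omega) (by omega) (by omega)
    · obtain ⟨rfl, rfl, h⟩ := h
      exact NW.r1i hf H.T (p := 1) (j := 5) (by omega) (by omega) (by omega) (by omega) (by omega) (by omega) (by omega)
    · obtain ⟨rfl, rfl, h⟩ := h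
      exact NW.r1i hf H.T (p := 0) (j := 4) (by omega) (by omega) (by omega) (by omega) (by omega) (by omega) (by omega)
    · obtain ⟨rfl, rfl, h⟩ := h
      exact NHT.p2 hf H.T (j := 4) (by omega) (by omega) (by omega) (by omega) (by omega) (by omega)
    · obtain ⟨rfl, rfl, h⟩ := h
      exact U.u2 _ _ _ _ (by omega) (by omega) (by omega) (by omega) (by omega) (by omega)

theorem z1_m2_2_chk : check 4 7 5 6 0 1 0 0 0
    (fun j n p q => decide ((j = 2 ∧ n = 1 ∧ ((p + q) % 2 = 1 ∧ p % 2 = 1))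
      ∨ (j = 4 ∧ n = 1 ∧ ((p + q) % 2 = 1 ∧ p % 2 = 0))
      ∨ (j = 3 ∧ n = 5 ∧ p = 2 ∧ q = 2)))
    (fun j n p q => decide ((j = 1 ∧ n = 2)
      ∨ (j = 1 ∧ n = 3)
      ∨ (j = 1 ∧ n = 4)
      ∨ (j = 3 ∧ n = 4 ∧ p + 2 ≤ q)
      ∨ (j = 4 ∧ n = 4 ∧ p + 1 ≤ q)
      ∨ (j = 1 ∧ n = 5)
      ∨ (j = 3 ∧ n = 5 ∧ 4 ≤ q ∧ p + 2 ≤ q)
      ∨ (j = 4 ∧ n = 5 ∧ 4 ≤ q ∧ p % 2 = 1)))
    56
    0x1730301820001fa62010983018180018184016f83017e80017e8401db8301ea8001ea8401280301910001910401ba8001b980018d0000ec0000eb0000e60000e50001fa0701f70701eb0701e80701e78701d80701ba8f01b98f018e07018d0f017f0701250701070701060700ec0f00eb0f00e60f00e50f00bf0700be8700bc0700bb8700b00700af8700ad0700ac8700a08700a007009d87009d07009187009107008e87008e07 = true := by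
  decide +kernel

theorem z1_m2_2 (hf : Rule f) {k c n : ℕ} (H : NWW f k c n) (U : PurW f k c n) : ¬ f (6 * k + 1) (c + 2) (2 * n + 2 * k - 2) (2 * n + 2) := by
  intro hg
  have hk := H.T.hk
  have hc := H.T.hc
  have h4 := H.T.h4
  have hb := H.T.hb
  have hN := H.T.hN2
  have hg' : ∀ M R x y : ℕ, M = 6 * k + 1 → R = c + 2 → x = 2 * n + 2 * k - 2 → y = 2 * n + 2 → f M R x y := by
    intro M R x y e1 e2 e3 e4
    rw [e1, e2, e3, e4]
    exact hg
  clear hg
  obtain ⟨a0, ha0⟩ : ∃ z, z + 2 = 6 * k := ⟨6 * k - 2, by omega⟩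
  obtain ⟨b0, hb0⟩ : ∃ z, z + 3 = c := ⟨c - 3, by omega⟩
  obtain ⟨x0, hx0⟩ : ∃ z, z + 4 = 2 * n + 2 * k := ⟨2 * n + 2 * k - 4, by omega⟩
  obtain ⟨y0, hy0⟩ : ∃ z, z = 2 * n + 0 := ⟨_, rfl⟩
  refine check_sound hf (a0 := a0) (b0 := b0) (x0 := x0) (y0 := y0) z1_m2_2_chk
    ⟨fun h => absurd h (by decide), fun h => absurd h (by decide), fun h => absurd h (by decide), by omega, by omega,
      by omega, by omega⟩ ?_ ?_
  · intro j m p q hr h
    obtain ⟨-, -, -, -, hp1, hp2, hq1, hq2⟩ := hr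
    replace h := of_decide_eq_true h
    rcases h with h | h | h
    · obtain ⟨rfl, rfl, h⟩ := h
      exact (WrapC.v0 H.c0 (by omega) (by omega) (by omega) (by omega) (by omega) (by omega) (by omega)).mpr (by omega)
    · obtain ⟨rfl, rfl, h⟩ := h
      exact (WrapC.v2 H.c2 (by omega) (by omega) (by omega) (by omega) (by omega) (by omega) (by omega)).mpr (by omega)
    · obtain ⟨rfl, rfl, rfl, rfl⟩ := h
      exact hg' _ _ _ _ (by omega) (by omega) (by omega) (by omega)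
  · intro j m p q hr h
    obtain ⟨-, -, -, -, hp1, hp2, hq1, hq2⟩ := hr
    replace h := of_decide_eq_true h
    rcases h with h | h | h | h | h | h | h | h
    · obtain ⟨rfl, rfl⟩ := h
      exact H.lw _ _ _ _ (by omega) (by omega) (by omega) (by omega) (by omega) (by omega)
    · obtain ⟨rfl, rfl⟩ := h
      exact H.lw _ _ _ _ (by omega) (by omega) (by omega) (by omega) (by omega) (by omega)
    · obtain ⟨rfl, rfl⟩ := h
      exact H.lw _ _ _ _ (by omega) (by omega) (by omega) (by omega) (by omega) (by omega)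
    · obtain ⟨rfl, rfl, h⟩ := h
      exact NW.r1 hf H.T (p := 1) (j := 4) (by omega) (by omega) (by omega) (by omega) (by omega) (by omega) (by omega)
    · obtain ⟨rfl, rfl, h⟩ := h
      exact NW.r1 hf H.T (p := 0) (j := 3) (by omega) (by omega) (by omega) (by omega) (by omega) (by omega) (by omega)
    · obtain ⟨rfl, rfl⟩ := h
      exact H.lw _ _ _ _ (by omega) (by omega) (by omega) (by omega) (by omega) (by omega)
    · obtain ⟨rfl, rfl, h⟩ := h
      exact NHT.p2 hf H.T (j := 4) (by omega) (by omega) (by omega) (by omega) (by omega) (by omega)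
    · obtain ⟨rfl, rfl, h⟩ := h
      exact U.u2 _ _ _ _ (by omega) (by omega) (by omega) (by omega) (by omega) (by omega)

theorem z1_2_2_chk : check 2 6 4 4 1 0 0 0 0
    (fun j n p q => decide ((j = 1 ∧ n = 1 ∧ ((p + q) % 2 = 0 ∧ q ≤ p + 0 ∧ (p + q + 2) % 4 = 0))
      ∨ (j = 2 ∧ n = 4 ∧ p = 2 ∧ q = 2)))
    (fun j n p q => decide (False))
    6
    0x7d03008500003a8000850f004507003a8f = true := by
  decide +kernel

theorem z1_2_2 (hf : Rule f) {k c n : ℕ} (H : NWW f k c n) : ¬ f (6 * k + 1) (c + 2) (2 * n + 2 * k + 2) (2 * n + 2) := by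
  intro hg
  have hk := H.T.hk
  have hc := H.T.hc
  have h4 := H.T.h4
  have hb := H.T.hb
  have hN := H.T.hN2
  have hg' : ∀ M R x y : ℕ, M = 6 * k + 1 → R = c + 2 → x = 2 * n + 2 * k + 2 → y = 2 * n + 2 → f M R x y := by
    intro M R x y e1 e2 e3 e4
    rw [e1, e2, e3, e4]
    exact hg
  clear hg
  obtain ⟨a0, ha0⟩ : ∃ z, z + 1 = 6 * k := ⟨6 * k - 1, by omega⟩
  obtain ⟨b0, hb0⟩ : ∃ z, z + 2 = c := ⟨c - 2, by omega⟩
  obtain ⟨x0, hx0⟩ : ∃ z, z = 2 * n + 2 * k + 0 := ⟨_, rfl⟩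
  obtain ⟨y0, hy0⟩ : ∃ z, z = 2 * n + 0 := ⟨_, rfl⟩
  refine check_sound hf (a0 := a0) (b0 := b0) (x0 := x0) (y0 := y0) z1_2_2_chk
    ⟨fun h => absurd h (by decide), fun h => absurd h (by decide), fun h => absurd h (by decide), by omega, by omega,
      by omega, by omega⟩ ?_ ?_
  · intro j m p q hr h
    obtain ⟨-, -, -, -, hp1, hp2, hq1, hq2⟩ := hr
    replace h := of_decide_eq_true h
    rcases h with h | h
    · obtain ⟨rfl, rfl, h⟩ := h
      exact (WrapC.v1 H.c0 (by omega) (by omega) (by omega) (by omega) (by omega) (by omega) (by omega) (by omega)).mpr (by omega)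
    · obtain ⟨rfl, rfl, rfl, rfl⟩ := h
      exact hg' _ _ _ _ (by omega) (by omega) (by omega) (by omega)
  · intro j m p q hr h
    obtain ⟨-, -, -, -, hp1, hp2, hq1, hq2⟩ := hr
    replace h := of_decide_eq_true h
    exact h.elim

theorem z1_4_2_chk : check 2 6 6 6 1 0 0 0 0
    (fun j n p q => decide ((j = 1 ∧ n = 1 ∧ ((p + q) % 2 = 0 ∧ q ≤ p + 2 ∧ (p + q) % 4 = 0))
      ∨ (j = 1 ∧ n = 2 ∧ q ≤ p + 2 ∧ (((p + q) % 2 = 1 ∧ p + 3 ≤ q ∧ p % 2 = 0) ∨ ((p + q) % 2 = 1 ∧ (p + q + 1) % 4 = 0)))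
      ∨ (j = 2 ∧ n = 4 ∧ p = 4 ∧ q = 4)))
    (fun j n p q => decide (False))
    10
    0x11883012e00009680009400008500012e0f00970700968f00940f00850f = true := by
  decide +kernel

theorem z1_4_2 (hf : Rule f) {k c n : ℕ} (H : NWW f k c n) : ¬ f (6 * k + 1) (c + 2) (2 * n + 2 * k + 4) (2 * n + 2) := by
  intro hg
  have hk := H.T.hk
  have hc := H.T.hc
  have h4 := H.T.h4
  have hb := H.T.hb
  have hN := H.T.hN2
  have hg' : ∀ M R x y : ℕ, M = 6 * k + 1 → R = c + 2 → x = 2 * n + 2 * k + 4 → y = 2 * n + 2 → f M R x y := by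
    intro M R x y e1 e2 e3 e4
    rw [e1, e2, e3, e4]
    exact hg
  clear hg
  obtain ⟨a0, ha0⟩ : ∃ z, z + 1 = 6 * k := ⟨6 * k - 1, by omega⟩
  obtain ⟨b0, hb0⟩ : ∃ z, z + 2 = c := ⟨c - 2, by omega⟩
  obtain ⟨x0, hx0⟩ : ∃ z, z = 2 * n + 2 * k + 0 := ⟨_, rfl⟩
  obtain ⟨y0, hy0⟩ : ∃ z, z + 2 = 2 * n := ⟨2 * n - 2, by omega⟩
  refine check_sound hf (a0 := a0) (b0 := b0) (x0 := x0) (y0 := y0) z1_4_2_chk
    ⟨fun h => absurd h (by decide), fun h => absurd h (by decide), fun h => absurd h (by decide), by omega, by omega,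
      by omega, by omega⟩ ?_ ?_
  · intro j m p q hr h
    obtain ⟨-, -, -, -, hp1, hp2, hq1, hq2⟩ := hr
    replace h := of_decide_eq_true h
    rcases h with h | h | h
    · obtain ⟨rfl, rfl, h⟩ := h
      exact (WrapC.v1 H.c0 (by omega) (by omega) (by omega) (by omega) (by omega) (by omega) (by omega) (by omega)).mpr (by omega)
    · obtain ⟨rfl, rfl, h⟩ := h
      exact (WrapC.v2 H.c0 (by omega) (by omega) (by omega) (by omega) (by omega) (by omega) (by omega)).mpr (by omega)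
    · obtain ⟨rfl, rfl, rfl, rfl⟩ := h
      exact hg' _ _ _ _ (by omega) (by omega) (by omega) (by omega)
  · intro j m p q hr h
    obtain ⟨-, -, -, -, hp1, hp2, hq1, hq2⟩ := hr
    replace h := of_decide_eq_true h
    exact h.elim

theorem z1_0_0_chk : check 2 6 4 4 1 0 0 0 0
    (fun j n p q => decide ((j = 1 ∧ n = 1 ∧ ((p + q) % 2 = 0 ∧ q ≤ p + 0 ∧ (p + q + 2) % 4 = 0))
      ∨ (j = 2 ∧ n = 4 ∧ p = 2 ∧ q = 2)))
    (fun j n p q => decide (False))
    6
    0x7d03008500003a8000850f004507003a8f = true := by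
  decide +kernel

theorem z1_0_0 (hf : Rule f) {k c n : ℕ} (H : NWW f k c n) : ¬ f (6 * k + 1) (c + 2) (2 * n + 2 * k) (2 * n) := by
  intro hg
  have hk := H.T.hk
  have hc := H.T.hc
  have h4 := H.T.h4
  have hb := H.T.hb
  have hN := H.T.hN2
  have hg' : ∀ M R x y : ℕ, M = 6 * k + 1 → R = c + 2 → x = 2 * n + 2 * k → y = 2 * n → f M R x y := by
    intro M R x y e1 e2 e3 e4
    rw [e1, e2, e3, e4]
    exact hg
  clear hg
  obtain ⟨a0, ha0⟩ : ∃ z, z + 1 = 6 * k := ⟨6 * k - 1, by omega⟩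
  obtain ⟨b0, hb0⟩ : ∃ z, z + 2 = c := ⟨c - 2, by omega⟩
  obtain ⟨x0, hx0⟩ : ∃ z, z + 2 = 2 * n + 2 * k := ⟨2 * n + 2 * k - 2, by omega⟩
  obtain ⟨y0, hy0⟩ : ∃ z, z + 2 = 2 * n := ⟨2 * n - 2, by omega⟩
  refine check_sound hf (a0 := a0) (b0 := b0) (x0 := x0) (y0 := y0) z1_0_0_chk
    ⟨fun h => absurd h (by decide), fun h => absurd h (by decide), fun h => absurd h (by decide), by omega, by omega,
      by omega, by omega⟩ ?_ ?_
  · intro j m p q hr h
    obtain ⟨-, -, -, -, hp1, hp2, hq1, hq2⟩ := hr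
    replace h := of_decide_eq_true h
    rcases h with h | h
    · obtain ⟨rfl, rfl, h⟩ := h
      exact (WrapC.v1 H.c0 (by omega) (by omega) (by omega) (by omega) (by omega) (by omega) (by omega) (by omega)).mpr (by omega)
    · obtain ⟨rfl, rfl, rfl, rfl⟩ := h
      exact hg' _ _ _ _ (by omega) (by omega) (by omega) (by omega)
  · intro j m p q hr h
    obtain ⟨-, -, -, -, hp1, hp2, hq1, hq2⟩ := hr
    replace h := of_decide_eq_true h
    exact h.elim

theorem z1_4_0_chk : check 2 6 4 4 1 0 0 0 0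
    (fun j n p q => decide ((j = 1 ∧ n = 1 ∧ ((p + q) % 2 = 0 ∧ (p + q + 2) % 4 = 0))
      ∨ (j = 2 ∧ n = 4 ∧ p = 2 ∧ q = 2)))
    (fun j n p q => decide (False))
    6
    0x7d03008500003a8000850f004507003a8f = true := by
  decide +kernel

theorem z1_4_0 (hf : Rule f) {k c n : ℕ} (H : NWW f k c n) : ¬ f (6 * k + 1) (c + 2) (2 * n + 2 * k + 4) (2 * n) := by
  intro hg
  have hk := H.T.hk
  have hc := H.T.hc
  have h4 := H.T.h4
  have hb := H.T.hb
  have hN := H.T.hN2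
  have hg' : ∀ M R x y : ℕ, M = 6 * k + 1 → R = c + 2 → x = 2 * n + 2 * k + 4 → y = 2 * n → f M R x y := by
    intro M R x y e1 e2 e3 e4
    rw [e1, e2, e3, e4]
    exact hg
  clear hg
  obtain ⟨a0, ha0⟩ : ∃ z, z + 1 = 6 * k := ⟨6 * k - 1, by omega⟩
  obtain ⟨b0, hb0⟩ : ∃ z, z + 2 = c := ⟨c - 2, by omega⟩
  obtain ⟨x0, hx0⟩ : ∃ z, z = 2 * n + 2 * k + 2 := ⟨_, rfl⟩
  obtain ⟨y0, hy0⟩ : ∃ z, z + 2 = 2 * n := ⟨2 * n - 2, by omega⟩
  refine check_sound hf (a0 := a0) (b0 := b0) (x0 := x0) (y0 := y0) z1_4_0_chk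
    ⟨fun h => absurd h (by decide), fun h => absurd h (by decide), fun h => absurd h (by decide), by omega, by omega,
      by omega, by omega⟩ ?_ ?_
  · intro j m p q hr h
    obtain ⟨-, -, -, -, hp1, hp2, hq1, hq2⟩ := hr
    replace h := of_decide_eq_true h
    rcases h with h | h
    · obtain ⟨rfl, rfl, h⟩ := h
      exact (WrapC.v1 H.c0 (by omega) (by omega) (by omega) (by omega) (by omega) (by omega) (by omega) (by omega)).mpr (by omega)
    · obtain ⟨rfl, rfl, rfl, rfl⟩ := h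
      exact hg' _ _ _ _ (by omega) (by omega) (by omega) (by omega)
  · intro j m p q hr h
    obtain ⟨-, -, -, -, hp1, hp2, hq1, hq2⟩ := hr
    replace h := of_decide_eq_true h
    exact h.elim

theorem z1_m8_0_chk : check 5 4 6 7 0 0 0 1 0
    (fun j n p q => decide ((j = 3 ∧ n = 2 ∧ p = 2 ∧ q = 1)))
    (fun j n p q => decide ((j = 1 ∧ n = 1)
      ∨ (j = 3 ∧ n = 1 ∧ p ≤ q + 2 ∧ q ≤ p + 1)
      ∨ (j = 4 ∧ n = 1 ∧ q ≤ p + 2)
      ∨ (j = 5 ∧ n = 1 ∧ q ≤ p + 2)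
      ∨ (j = 1 ∧ n = 2)
      ∨ (j = 5 ∧ n = 2 ∧ 5 ≤ q ∧ q ≤ p + 3)
      ∨ (j = 4 ∧ n = 2 ∧ 3 ≤ p ∧ 5 ≤ q ∧ p % 2 = 1)))
    50
    0xda03012e8001865200de0301320001320401de8301710001710401de83018600018604012d8001de8701db0701c98701c90701c60701c587018a87018707018287017587017507017207017187017087016d87016d07012d8f011d07011c8701198701190700da8700d987008a07008987008687008607008587008287008207007507007487007187007107007087006d87006d07 = true := by
  decide +kernel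

theorem z1_m8_0 (hf : Rule f) {k c n : ℕ} (H : NWW f k c n) (U : PurW f k c n) : ¬ f (6 * k + 1) (c + 2) (2 * n + 2 * k - 8) (2 * n) := by
  intro hg
  have hk := H.T.hk
  have hc := H.T.hc
  have h4 := H.T.h4
  have hb := H.T.hb
  have hN := H.T.hN2
  have hg' : ∀ M R x y : ℕ, M = 6 * k + 1 → R = c + 2 → x = 2 * n + 2 * k - 8 → y = 2 * n → f M R x y := by
    intro M R x y e1 e2 e3 e4
    rw [e1, e2, e3, e4]
    exact hg
  clear hg
  obtain ⟨a0, ha0⟩ : ∃ z, z + 2 = 6 * k := ⟨6 * k - 2, by omega⟩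
  obtain ⟨b0, hb0⟩ : ∃ z, z = c + 0 := ⟨_, rfl⟩
  obtain ⟨x0, hx0⟩ : ∃ z, z + 10 = 2 * n + 2 * k := ⟨2 * n + 2 * k - 10, by omega⟩
  obtain ⟨y0, hy0⟩ : ∃ z, z + 1 = 2 * n := ⟨2 * n - 1, by omega⟩
  refine check_sound hf (a0 := a0) (b0 := b0) (x0 := x0) (y0 := y0) z1_m8_0_chk
    ⟨fun h => absurd h (by decide), fun h => absurd h (by decide), fun h => absurd h (by decide), by omega, by omega,
      by omega, by omega⟩ ?_ ?_
  · intro j m p q hr h
    obtain ⟨-, -, -, -, hp1, hp2, hq1, hq2⟩ := hr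
    replace h := of_decide_eq_true h
    obtain ⟨rfl, rfl, rfl, rfl⟩ := h
    exact hg' _ _ _ _ (by omega) (by omega) (by omega) (by omega)
  · intro j m p q hr h
    obtain ⟨-, -, -, -, hp1, hp2, hq1, hq2⟩ := hr
    replace h := of_decide_eq_true h
    rcases h with h | h | h | h | h | h | h
    · obtain ⟨rfl, rfl⟩ := h
      exact H.lw _ _ _ _ (by omega) (by omega) (by omega) (by omega) (by omega) (by omega)
    · obtain ⟨rfl, rfl, h⟩ := h
      exact NW.r1i hf H.T (p := 1) (j := 5) (by omega) (by omega) (by omega) (by omega) (by omega) (by omega) (by omega)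
    · obtain ⟨rfl, rfl, h⟩ := h
      exact NW.r1i hf H.T (p := 0) (j := 4) (by omega) (by omega) (by omega) (by omega) (by omega) (by omega) (by omega)
    · obtain ⟨rfl, rfl, h⟩ := h
      exact NW.r1i hf H.T (p := 1) (j := 4) (by omega) (by omega) (by omega) (by omega) (by omega) (by omega) (by omega)
    · obtain ⟨rfl, rfl⟩ := h
      exact H.lw _ _ _ _ (by omega) (by omega) (by omega) (by omega) (by omega) (by omega)
    · obtain ⟨rfl, rfl, h⟩ := h
      exact NHT.p2 hf H.T (j := 3) (by omega) (by omega) (by omega) (by omega) (by omega) (by omega)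
    · obtain ⟨rfl, rfl, h⟩ := h
      exact U.u2 _ _ _ _ (by omega) (by omega) (by omega) (by omega) (by omega) (by omega)

theorem z1_m6_0_chk : check 5 4 6 7 0 0 0 1 0
    (fun j n p q => decide ((j = 3 ∧ n = 2 ∧ p = 2 ∧ q = 1)))
    (fun j n p q => decide ((j = 1 ∧ n = 1)
      ∨ (j = 3 ∧ n = 1 ∧ p ≤ q + 1)
      ∨ (j = 4 ∧ n = 1 ∧ p ≤ q + 1)
      ∨ (j = 5 ∧ n = 1 ∧ p ≤ q + 1)
      ∨ (j = 1 ∧ n = 2)
      ∨ (j = 5 ∧ n = 2 ∧ 5 ≤ q ∧ p ≤ q + 2)
      ∨ (j = 4 ∧ n = 2 ∧ 5 ≤ q ∧ p % 2 = 1)))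
    50
    0xda03012e8001865200de0301320001320401de8301710001710401de83018600018604012d8001de8701db0701c98701c90701c60701c587018a87018707018287017587017507017207017187017087016d87016d07012d8f011d07011c8701198701190700da8700d987008a07008987008687008607008587008287008207007507007487007187007107007087006d87006d07 = true := by
  decide +kernel

theorem z1_m6_0 (hf : Rule f) {k c n : ℕ} (H : NWW f k c n) (U : PurW f k c n) : ¬ f (6 * k + 1) (c + 2) (2 * n + 2 * k - 6) (2 * n) := by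
  intro hg
  have hk := H.T.hk
  have hc := H.T.hc
  have h4 := H.T.h4
  have hb := H.T.hb
  have hN := H.T.hN2
  have hg' : ∀ M R x y : ℕ, M = 6 * k + 1 → R = c + 2 → x = 2 * n + 2 * k - 6 → y = 2 * n → f M R x y := by
    intro M R x y e1 e2 e3 e4
    rw [e1, e2, e3, e4]
    exact hg
  clear hg
  obtain ⟨a0, ha0⟩ : ∃ z, z + 2 = 6 * k := ⟨6 * k - 2, by omega⟩
  obtain ⟨b0, hb0⟩ : ∃ z, z = c + 0 := ⟨_, rfl⟩
  obtain ⟨x0, hx0⟩ : ∃ z, z + 8 = 2 * n + 2 * k := ⟨2 * n + 2 * k - 8, by omega⟩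
  obtain ⟨y0, hy0⟩ : ∃ z, z + 1 = 2 * n := ⟨2 * n - 1, by omega⟩
  refine check_sound hf (a0 := a0) (b0 := b0) (x0 := x0) (y0 := y0) z1_m6_0_chk
    ⟨fun h => absurd h (by decide), fun h => absurd h (by decide), fun h => absurd h (by decide), by omega, by omega,
      by omega, by omega⟩ ?_ ?_
  · intro j m p q hr h
    obtain ⟨-, -, -, -, hp1, hp2, hq1, hq2⟩ := hr
    replace h := of_decide_eq_true h
    obtain ⟨rfl, rfl, rfl, rfl⟩ := h
    exact hg' _ _ _ _ (by omega) (by omega) (by omega) (by omega)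
  · intro j m p q hr h
    obtain ⟨-, -, -, -, hp1, hp2, hq1, hq2⟩ := hr
    replace h := of_decide_eq_true h
    rcases h with h | h | h | h | h | h | h
    · obtain ⟨rfl, rfl⟩ := h
      exact H.lw _ _ _ _ (by omega) (by omega) (by omega) (by omega) (by omega) (by omega)
    · obtain ⟨rfl, rfl, h⟩ := h
      exact NW.r1 hf H.T (p := 1) (j := 4) (by omega) (by omega) (by omega) (by omega) (by omega) (by omega) (by omega)
    · obtain ⟨rfl, rfl, h⟩ := h
      exact NW.r1i hf H.T (p := 0) (j := 4) (by omega) (by omega) (by omega) (by omega) (by omega) (by omega) (by omega)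
    · obtain ⟨rfl, rfl, h⟩ := h
      exact NW.r1i hf H.T (p := 1) (j := 4) (by omega) (by omega) (by omega) (by omega) (by omega) (by omega) (by omega)
    · obtain ⟨rfl, rfl⟩ := h
      exact H.lw _ _ _ _ (by omega) (by omega) (by omega) (by omega) (by omega) (by omega)
    · obtain ⟨rfl, rfl, h⟩ := h
      exact NHT.p2 hf H.T (j := 3) (by omega) (by omega) (by omega) (by omega) (by omega) (by omega)
    · obtain ⟨rfl, rfl, h⟩ := h
      exact U.u2 _ _ _ _ (by omega) (by omega) (by omega) (by omega) (by omega) (by omega)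

theorem z1_m4_0_chk : check 6 9 7 9 0 1 1 1 0
    (fun j n p q => decide ((j = 2 ∧ n = 3 ∧ 4 ≤ p ∧ (((p + q) % 2 = 1 ∧ p ≤ q + 3 ∧ p % 2 = 0) ∨ ((p + q) % 2 = 1 ∧ q + 3 ≤ p ∧ (p + q + 3) % 4 = 0)))
      ∨ (j = 2 ∧ n = 1 ∧ (((p + q) % 2 = 1 ∧ p ≤ q + 3 ∧ p % 2 = 1) ∨ ((p + q) % 2 = 1 ∧ q + 3 ≤ p ∧ (p + q + 1) % 4 = 0)))
      ∨ (j = 4 ∧ n = 1 ∧ (((p + q) % 2 = 1 ∧ p ≤ q + 3 ∧ p % 2 = 0) ∨ ((p + q) % 2 = 1 ∧ q + 3 ≤ p ∧ (p + q + 3) % 4 = 0)))
      ∨ (j = 4 ∧ n = 3 ∧ ((q + 4 ≤ p) ∨ (p ≤ q + 3 ∧ 3 ≤ q)) ∧ (((p + q) % 2 = 1 ∧ p ≤ q + 3 ∧ p % 2 = 1) ∨ ((p + q) % 2 = 1 ∧ q + 3 ≤ p ∧ (p + q + 1) % 4 = 0)))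
      ∨ (j = 6 ∧ n = 3 ∧ (((p + q) % 2 = 1 ∧ p ≤ q + 3 ∧ p % 2 = 0) ∨ ((p + q) % 2 = 1 ∧ q + 3 ≤ p ∧ (p + q + 3) % 4 = 0)))
      ∨ (j = 3 ∧ n = 7 ∧ p = 3 ∧ q = 3)))
    (fun j n p q => decide ((j = 3 ∧ n = 3 ∧ p ≤ q + 0)
      ∨ (j = 1 ∧ n = 4)
      ∨ (j = 2 ∧ n = 4 ∧ p + 1 ≤ q)
      ∨ (j = 3 ∧ n = 4 ∧ p + 1 ≤ q)
      ∨ (j = 4 ∧ n = 4 ∧ p ≤ q + 0)
      ∨ (j = 1 ∧ n = 5)
      ∨ (j = 1 ∧ n = 6)
      ∨ (j = 3 ∧ n = 6 ∧ 2 ≤ q ∧ p + 2 ≤ q)
      ∨ (j = 4 ∧ n = 6 ∧ 2 ≤ q ∧ p + 1 ≤ q)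
      ∨ (j = 5 ∧ n = 6 ∧ 2 ≤ q ∧ p + 1 ≤ q)
      ∨ (j = 1 ∧ n = 7)
      ∨ (j = 5 ∧ n = 7 ∧ 7 ≤ q ∧ p + 1 ≤ q)
      ∨ (j = 4 ∧ n = 7 ∧ 7 ≤ q ∧ p % 2 = 0)))
    113
    0x51f83053f00055f2a02e88304238004238402e903042400042404068003053f80053f8403c00302c40002c40405fb8304ff8004ff8403c00303df8003df8405fb8303bf8003bf84032303043f00043f04032803044380044384030383041f00041f04068003055f00055f0405fb8303a00003a00407170004e50004dc0004a000049700043e0002aa0002a900025c0007170f068007067b87066087066007065c07065b87056487056007055a87054507054487054087054007053b07053a87051a8704fb0704e50f04dc0f04db8704a00f04970f043e0f041f8703e00703bb0703238703228702e48702e38702c50702c48702aa0f02a90f02a487025c0f020c87020c0702080702078702070702030702028701ed0701ec8701e88701e80701e78701e38701e30701cd8701cd0701cc8701c90701c88701c80701c40701c38701ae0701ad8701ad0701a98701a90701a887 = true := by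
  decide +kernel

theorem z1_m4_0 (hf : Rule f) {k c n : ℕ} (H : NWW f k c n) (U : PurW f k c n) : ¬ f (6 * k + 1) (c + 2) (2 * n + 2 * k - 4) (2 * n) := by
  intro hg
  have hk := H.T.hk
  have hc := H.T.hc
  have h4 := H.T.h4
  have hb := H.T.hb
  have hN := H.T.hN2
  have hg' : ∀ M R x y : ℕ, M = 6 * k + 1 → R = c + 2 → x = 2 * n + 2 * k - 4 → y = 2 * n → f M R x y := by
    intro M R x y e1 e2 e3 e4
    rw [e1, e2, e3, e4]
    exact hg
  clear hg
  obtain ⟨a0, ha0⟩ : ∃ z, z + 2 = 6 * k := ⟨6 * k - 2, by omega⟩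
  obtain ⟨b0, hb0⟩ : ∃ z, z + 5 = c := ⟨c - 5, by omega⟩
  obtain ⟨x0, hx0⟩ : ∃ z, z + 7 = 2 * n + 2 * k := ⟨2 * n + 2 * k - 7, by omega⟩
  obtain ⟨y0, hy0⟩ : ∃ z, z + 3 = 2 * n := ⟨2 * n - 3, by omega⟩
  refine check_sound hf (a0 := a0) (b0 := b0) (x0 := x0) (y0 := y0) z1_m4_0_chk
    ⟨fun h => absurd h (by decide), fun h => absurd h (by decide), fun h => absurd h (by decide), by omega, by omega,
      by omega, by omega⟩ ?_ ?_
  · intro j m p q hr h
    obtain ⟨-, -, -, -, hp1, hp2, hq1, hq2⟩ := hr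
    replace h := of_decide_eq_true h
    rcases h with h | h | h | h | h | h
    · obtain ⟨rfl, rfl, h⟩ := h
      exact (WrapC.v0 H.c0 (by omega) (by omega) (by omega) (by omega) (by omega) (by omega) (by omega)).mpr (by omega)
    · obtain ⟨rfl, rfl, h⟩ := h
      exact (WrapC.v2 H.c0a (by omega) (by omega) (by omega) (by omega) (by omega) (by omega) (by omega)).mpr (by omega)
    · obtain ⟨rfl, rfl, h⟩ := h
      exact (WrapC.v0 H.c2 (by omega) (by omega) (by omega) (by omega) (by omega) (by omega) (by omega)).mpr (by omega)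
    · obtain ⟨rfl, rfl, h⟩ := h
      exact (WrapC.v2 H.c2 (by omega) (by omega) (by omega) (by omega) (by omega) (by omega) (by omega)).mpr (by omega)
    · obtain ⟨rfl, rfl, h⟩ := h
      exact (WrapC.v0 H.c4 (by omega) (by omega) (by omega) (by omega) (by omega) (by omega) (by omega)).mpr (by omega)
    · obtain ⟨rfl, rfl, rfl, rfl⟩ := h
      exact hg' _ _ _ _ (by omega) (by omega) (by omega) (by omega)
  · intro j m p q hr h
    obtain ⟨-, -, -, -, hp1, hp2, hq1, hq2⟩ := hr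
    replace h := of_decide_eq_true h
    rcases h with h | h | h | h | h | h | h | h | h | h | h | h | h
    · obtain ⟨rfl, rfl, h⟩ := h
      exact NHT.pm hf H.T (j := 2) (by omega) (by omega) (by omega) (by omega) (by omega) (by omega)
    · obtain ⟨rfl, rfl⟩ := h
      exact H.lw _ _ _ _ (by omega) (by omega) (by omega) (by omega) (by omega) (by omega)
    · obtain ⟨rfl, rfl, h⟩ := h
      exact NW.rm1 hf H.T (p := 0) (j := 3) (by omega) (by omega) (by omega) (by omega) (by omega) (by omega) (by omega)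
    · obtain ⟨rfl, rfl, h⟩ := h
      exact NW.rm1 hf H.T (p := 1) (j := 3) (by omega) (by omega) (by omega) (by omega) (by omega) (by omega) (by omega)
    · obtain ⟨rfl, rfl, h⟩ := h
      exact NW.rm1 hf H.T (p := 0) (j := 2) (by omega) (by omega) (by omega) (by omega) (by omega) (by omega) (by omega)
    · obtain ⟨rfl, rfl⟩ := h
      exact H.lw _ _ _ _ (by omega) (by omega) (by omega) (by omega) (by omega) (by omega)
    · obtain ⟨rfl, rfl⟩ := h
      exact H.lw _ _ _ _ (by omega) (by omega) (by omega) (by omega) (by omega) (by omega)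
    · obtain ⟨rfl, rfl, h⟩ := h
      exact NW.r1 hf H.T (p := 1) (j := 4) (by omega) (by omega) (by omega) (by omega) (by omega) (by omega) (by omega)
    · obtain ⟨rfl, rfl, h⟩ := h
      exact NW.r1 hf H.T (p := 0) (j := 3) (by omega) (by omega) (by omega) (by omega) (by omega) (by omega) (by omega)
    · obtain ⟨rfl, rfl, h⟩ := h
      exact NW.r1 hf H.T (p := 1) (j := 3) (by omega) (by omega) (by omega) (by omega) (by omega) (by omega) (by omega)
    · obtain ⟨rfl, rfl⟩ := h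
      exact H.lw _ _ _ _ (by omega) (by omega) (by omega) (by omega) (by omega) (by omega)
    · obtain ⟨rfl, rfl, h⟩ := h
      exact NHT.p2 hf H.T (j := 3) (by omega) (by omega) (by omega) (by omega) (by omega) (by omega)
    · obtain ⟨rfl, rfl, h⟩ := h
      exact U.u2 _ _ _ _ (by omega) (by omega) (by omega) (by omega) (by omega) (by omega)

theorem z1_m10_0_chk : check 9 7 6 10 0 1 0 1 0
    (fun j n p q => decide ((j = 4 ∧ n = 1 ∧ ((p + q + 1) % 2 = 1 ∧ p % 2 = 0))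
      ∨ (j = 6 ∧ n = 1 ∧ ((p + q + 1) % 2 = 1 ∧ p % 2 = 1))
      ∨ (j = 6 ∧ n = 3 ∧ 7 ≤ q ∧ ((p + q + 1) % 2 = 1 ∧ p % 2 = 0))
      ∨ (j = 3 ∧ n = 5 ∧ p = 2 ∧ q = 1)))
    (fun j n p q => decide ((j = 1 ∧ n = 3)
      ∨ (j = 5 ∧ n = 3 ∧ q ≤ p + 2)
      ∨ (j = 1 ∧ n = 4)
      ∨ (j = 3 ∧ n = 4 ∧ q ≤ p + 0)
      ∨ (j = 4 ∧ n = 4 ∧ q ≤ p + 1)
      ∨ (j = 5 ∧ n = 4 ∧ q ≤ p + 1)
      ∨ (j = 6 ∧ n = 4 ∧ q ≤ p + 2)
      ∨ (j = 7 ∧ n = 4 ∧ q ≤ p + 2)
      ∨ (j = 8 ∧ n = 4 ∧ q ≤ p + 3)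
      ∨ (j = 9 ∧ n = 4 ∧ q ≤ p + 3)
      ∨ (j = 1 ∧ n = 5)
      ∨ (j = 5 ∧ n = 5 ∧ 5 ≤ q ∧ q ≤ p + 1)
      ∨ (j = 7 ∧ n = 5 ∧ 5 ≤ q ∧ q ≤ p + 2)
      ∨ (j = 9 ∧ n = 5 ∧ 5 ≤ q ∧ q ≤ p + 3)
      ∨ (j = 4 ∧ n = 5 ∧ 3 ≤ p ∧ 5 ≤ q ∧ q ≤ 5 ∧ p % 2 = 1)
      ∨ (j = 8 ∧ n = 5 ∧ 3 ≤ p ∧ 5 ≤ q ∧ q ≤ 5 ∧ p % 2 = 1)))
    125
    0x4858303d18004c6f203d08003eea204858303d18004c6f203ee8003ee8402278302f98002f984066b0304c18004c184080f0306480006480405588305760005760405588304808004808404858304a38004a384080f03066600066604080f03064780064784080f0306658006658402450303178003178403ee8303ef0003ef04024a83031c80031c84055e00055400051b80051180037300037200031680080f07080e87080a0708098707f10707f08707ec0707eb87073c87073787071f07071e87071a07071987066b07066a87064d07064c87059887057b07057a87057587055e0f05540f055387051b8f05118f04c68704a88704a80704a30704858704850704800703f48703ef8703e98703d68703d60703d10703d00703cb8703cb0703ae8703730f03720f03168f02fe8702fe0702f907024587024487020987017887017807017387017307017287016e07016d87015a87015a07015587015507015487015087015007014f87013787013707013287013207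 = true := by
  decide +kernel

theorem z1_m10_0 (hf : Rule f) {k c n : ℕ} (H : NWW f k c n) (hk9 : 9 ≤ k) (U : PurW f k c n) : ¬ f (6 * k + 1) (c + 2) (2 * n + 2 * k - 10) (2 * n) := by
  intro hg
  have hk := H.T.hk
  have hc := H.T.hc
  have h4 := H.T.h4
  have hb := H.T.hb
  have hN := H.T.hN2
  have hg' : ∀ M R x y : ℕ, M = 6 * k + 1 → R = c + 2 → x = 2 * n + 2 * k - 10 → y = 2 * n → f M R x y := by
    intro M R x y e1 e2 e3 e4
    rw [e1, e2, e3, e4]
    exact hg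
  clear hg
  obtain ⟨a0, ha0⟩ : ∃ z, z + 2 = 6 * k := ⟨6 * k - 2, by omega⟩
  obtain ⟨b0, hb0⟩ : ∃ z, z + 3 = c := ⟨c - 3, by omega⟩
  obtain ⟨x0, hx0⟩ : ∃ z, z + 12 = 2 * n + 2 * k := ⟨2 * n + 2 * k - 12, by omega⟩
  obtain ⟨y0, hy0⟩ : ∃ z, z + 1 = 2 * n := ⟨2 * n - 1, by omega⟩
  refine check_sound hf (a0 := a0) (b0 := b0) (x0 := x0) (y0 := y0) z1_m10_0_chk
    ⟨fun h => absurd h (by decide), fun h => absurd h (by decide), fun h => absurd h (by decide), by omega, by omega,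
      by omega, by omega⟩ ?_ ?_
  · intro j m p q hr h
    obtain ⟨-, -, -, -, hp1, hp2, hq1, hq2⟩ := hr
    replace h := of_decide_eq_true h
    rcases h with h | h | h | h
    · obtain ⟨rfl, rfl, h⟩ := h
      exact (WrapC.v2 H.c2 (by omega) (by omega) (by omega) (by omega) (by omega) (by omega) (by omega)).mpr (by omega)
    · obtain ⟨rfl, rfl, h⟩ := h
      exact (WrapC.v0 H.c4 (by omega) (by omega) (by omega) (by omega) (by omega) (by omega) (by omega)).mpr (by omega)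
    · obtain ⟨rfl, rfl, h⟩ := h
      exact (WrapC.v2 H.c4 (by omega) (by omega) (by omega) (by omega) (by omega) (by omega) (by omega)).mpr (by omega)
    · obtain ⟨rfl, rfl, rfl, rfl⟩ := h
      exact hg' _ _ _ _ (by omega) (by omega) (by omega) (by omega)
  · intro j m p q hr h
    obtain ⟨-, -, -, -, hp1, hp2, hq1, hq2⟩ := hr
    replace h := of_decide_eq_true h
    rcases h with h | h | h | h | h | h | h | h | h | h | h | h | h | h | h | h
    · obtain ⟨rfl, rfl⟩ := h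
      exact H.lw _ _ _ _ (by omega) (by omega) (by omega) (by omega) (by omega) (by omega)
    · obtain ⟨rfl, rfl, h⟩ := h
      exact NHT.p0 hf H.T (j := 2) (by omega) (by omega) (by omega) (by omega) (by omega) (by omega)
    · obtain ⟨rfl, rfl⟩ := h
      exact H.lw _ _ _ _ (by omega) (by omega) (by omega) (by omega) (by omega) (by omega)
    · obtain ⟨rfl, rfl, h⟩ := h
      exact NW.r1 hf H.T (p := 1) (j := 4) (by omega) (by omega) (by omega) (by omega) (by omega) (by omega) (by omega)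
    · obtain ⟨rfl, rfl, h⟩ := h
      exact NW.r1 hf H.T (p := 0) (j := 3) (by omega) (by omega) (by omega) (by omega) (by omega) (by omega) (by omega)
    · obtain ⟨rfl, rfl, h⟩ := h
      exact NW.r1 hf H.T (p := 1) (j := 3) (by omega) (by omega) (by omega) (by omega) (by omega) (by omega) (by omega)
    · obtain ⟨rfl, rfl, h⟩ := h
      exact NW.r1 hf H.T (p := 0) (j := 2) (by omega) (by omega) (by omega) (by omega) (by omega) (by omega) (by omega)
    · obtain ⟨rfl, rfl, h⟩ := h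
      exact NW.r1 hf H.T (p := 1) (j := 2) (by omega) (by omega) (by omega) (by omega) (by omega) (by omega) (by omega)
    · obtain ⟨rfl, rfl, h⟩ := h
      exact NW.r1 hf H.T (p := 0) (j := 1) (by omega) (by omega) (by omega) (by omega) (by omega) (by omega) (by omega)
    · obtain ⟨rfl, rfl, h⟩ := h
      exact NW.r1 hf H.T (p := 1) (j := 1) (by omega) (by omega) (by omega) (by omega) (by omega) (by omega) (by omega)
    · obtain ⟨rfl, rfl⟩ := h
      exact H.lw _ _ _ _ (by omega) (by omega) (by omega) (by omega) (by omega) (by omega)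
    · obtain ⟨rfl, rfl, h⟩ := h
      exact NHT.p2 hf H.T (j := 3) (by omega) (by omega) (by omega) (by omega) (by omega) (by omega)
    · obtain ⟨rfl, rfl, h⟩ := h
      exact NHT.p2 hf H.T (j := 2) (by omega) (by omega) (by omega) (by omega) (by omega) (by omega)
    · obtain ⟨rfl, rfl, h⟩ := h
      exact NHT.p2 hf H.T (j := 1) (by omega) (by omega) (by omega) (by omega) (by omega) (by omega)
    · obtain ⟨rfl, rfl, h⟩ := h
      exact U.u2 _ _ _ _ (by omega) (by omega) (by omega) (by omega) (by omega) (by omega)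
    · obtain ⟨rfl, rfl, h⟩ := h
      exact U.u6 _ _ _ _ (by omega) (by omega) (by omega) (by omega) (by omega) (by omega)

end Pool.Agent.SNT.NWW
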