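import Pool.Agent.SNT.PW

set_option autoImplicit false
set_option synthInstance.maxSize 100000
set_option synthInstance.maxHeartbeats 4000000

/-! The cells `(2 n + 6, 2 n + 2)`, `(2 n + 6, 2 n)`, `(2 n + 10, 2 n)` of `P_(6k+1)` in the row `c + 2`, leads of `PW`. -/

namespace Pool.Agent.SNT.PW

open Pool.Agent.SNT Pool.Agent.SNT.Sig Pool.Agent.SNT.Loc Pool.Agent.SNT.LW Pool.Agent.SNT.NHZ Pool.Agent.SNT.DRun Pool.Agent.SNT.PB

variable {f : ℕ → ℕ → ℕ → ℕ → Prop}

theorem z1_6_2_chk : check 12 7 10 10 0 1 0 0 2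
    (fun j n p q => decide ((j = 4 ∧ n = 1 ∧ q ≤ p ∧ ((p + q) % 2 = 1 ∧ p % 2 = 0))
      ∨ (j = 4 ∧ n = 2 ∧ q ≤ p ∧ 2 ≤ q ∧ (p = q ∧ p % 2 = 1))
      ∨ (j = 6 ∧ n = 1 ∧ q ≤ p ∧ 5 ≤ p ∧ ((p + q) % 2 = 1 ∧ p % 2 = 1))
      ∨ (j = 10 ∧ n = 3 ∧ q ≤ p ∧ ((p + q) % 2 = 1 ∧ p % 2 = 0))
      ∨ (j = 10 ∧ n = 4 ∧ q ≤ p ∧ (p = q ∧ p % 2 = 1))
      ∨ (j = 12 ∧ n = 5 ∧ q ≤ p ∧ 4 ≤ q ∧ ((p + q) % 2 = 1 ∧ p % 2 = 0))
      ∨ (j = 3 ∧ n = 5 ∧ p = 6 ∧ q = 2)))
    (fun j n p q => decide ((j = 1 ∧ n = 3 ∧ q ≤ p)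
      ∨ (j = 1 ∧ n = 4 ∧ q ≤ p)
      ∨ (j = 1 ∧ n = 5 ∧ q ≤ p)
      ∨ (j = 5 ∧ n = 3 ∧ q + 3 ≤ p)
      ∨ (j = 7 ∧ n = 3 ∧ q + 2 ≤ p)
      ∨ (j = 4 ∧ n = 4 ∧ q + 4 ≤ p)
      ∨ (j = 9 ∧ n = 4 ∧ 4 ≤ q ∧ q + 2 ≤ p)
      ∨ (j = 4 ∧ n = 5 ∧ p = 7 ∧ q = 4)))
    277
    0x3a90305070006976206328007914a03a90305070006976206330006330404f90e039b0304f90004f90403a88305068005068403a383050180050184052b0e03c803052b00052b04052b8e03cd83052b80052b8403a38e07910306650006972203a38003a384062800078bda06200e03a90305070006976203a40305020005020403d58305340005340403db0305390005390403a38305018005018404f48e03968304f48004f48403a38e06970303a38003a384062d8006200e062004062900078742061f8e03a90305070006976203a40305020005020406578e07838306578006578403a88305068005068403a383050180050184052b0e03c803052b00052b04052b8e03cd83052b80052b8403a38e07910306650006972203a38003a384062880061f80061f8e061f840d37030a43800a4892078700078704102a030d3b800d3c0a0a48800a48840a48030786800786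840d36830a43000a43040a4783078600078604078c0e078703078c00078c040d368e102a030d36800d3684118d80118c800e9a800e8f800e6c800e62800e5e00088100088000087c8005ec8005c98005c88005bf8005be8005bc0005bb00053300052100118d8f118c8f0ec7070e9a8f0e8f8f0e6c8f0e628f0e628e0e628f0d36070ba7070ba6070a48070a47870a47070a42870a420708ea0708e90708810f08800f08810e08810f079107079087078b87078b0707910e07910707908e079087078b8e078b87069707069207066487062e07062d0706250706240705ec8f05c98f05c88f05bf8f05be8f05c98e05c98f05bf8e05bf8f05330f05330e05330f03d60703d50703cd0703c307037207037107036907035f07027d07027c87027807027787027707027287027207027d0e027d0702780e027807027c8e027c8702778e02778702728e02728702770e02770702720e027207024b07024a87024a07024607024587024507024107024087024007024b0e024b0702460e02460702410e024107024a8e024a8702458e02458702408e024087024a0e024a0702450e02450702400e024007021907021887021807021407021387021307020f07020e87020e0702140e021407020f0e020f0702188e02188702138e021387020e8e020e8702180e02180702130e021307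 = true := by
  decide +kernel

theorem z1_6_2 (hf : Rule f) {k c n : ℕ} (H : PW f k c n)
    (h0 : f (6 * k + 1) (c + 2) (2 * n + 6) (2 * n + 2))
    (z0 : ¬ f (6 * k + 2) (c + 2) (2 * n + 7) (2 * n + 4)) : False := by
  have hk := H.T.hk
  have hc := H.T.hc
  have h4' := H.T.h4
  have hb := H.T.hb
  have hN := H.T.hN2
  obtain ⟨a0, ha0⟩ : ∃ z, z + 2 = 6 * k := ⟨6 * k - 2, by omega⟩
  obtain ⟨b0, hb0⟩ : ∃ z, z + 3 = c := ⟨c - 3, by omega⟩
  obtain ⟨x0, hx0⟩ : ∃ z, z = 2 * n := ⟨_, rfl⟩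
  refine check_sound hf (a0 := a0) (b0 := b0) (x0 := x0) (y0 := x0) z1_6_2_chk
    ⟨fun _ => rfl, fun h => absurd h (by decide), fun h => absurd h (by decide), by omega, by omega,
      by omega, by omega⟩ ?_ ?_
  · intro j m p q hr h
    obtain ⟨-, -, -, -, hp1, hp2, hq1, hq2⟩ := hr
    replace h := of_decide_eq_true h
    rcases h with h | h | h | h | h | h | h
    · obtain ⟨rfl, rfl, h⟩ := h
      exact (WrapC.v2 H.c2 (by omega) (by omega) (by omega) (by omega) (by omega) (by omega) (by omega)).mpr (by omega)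
    · obtain ⟨rfl, rfl, h⟩ := h
      exact (WrapC.v3 H.c2 (by omega) (by omega) (by omega) (by omega) (by omega) (by omega) (by omega) (by omega)).mpr (by omega)
    · obtain ⟨rfl, rfl, h⟩ := h
      exact (WrapC.v0 H.c4 (by omega) (by omega) (by omega) (by omega) (by omega) (by omega) (by omega)).mpr (by omega)
    · obtain ⟨rfl, rfl, h⟩ := h
      exact (NW.w2v H.c8 (by omega) (by omega) (by omega) (by omega) (by omega) (by omega) (by omega)).mpr (by omega)
    · obtain ⟨rfl, rfl, h⟩ := h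
      exact (NW.w3v H.c8 (by omega) (by omega) (by omega) (by omega) (by omega) (by omega) (by omega) (by omega)).mpr (by omega)
    · obtain ⟨rfl, rfl, h⟩ := h
      exact (NW.w2v H.c10 (by omega) (by omega) (by omega) (by omega) (by omega) (by omega) (by omega)).mpr (by omega)
    · obtain ⟨rfl, rfl, rfl, rfl⟩ := h
      exact mv h0 (by omega) (by omega) (by omega) (by omega)
  · intro j m p q hr h
    obtain ⟨-, -, -, -, hp1, hp2, hq1, hq2⟩ := hr
    replace h := of_decide_eq_true h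
    rcases h with h | h | h | h | h | h | h | h
    · obtain ⟨rfl, rfl, h⟩ := h
      exact H.lw _ _ _ _ (by omega) (by omega) (by omega) (by omega) (by omega) (by omega)
    · obtain ⟨rfl, rfl, h⟩ := h
      exact H.lw _ _ _ _ (by omega) (by omega) (by omega) (by omega) (by omega) (by omega)
    · obtain ⟨rfl, rfl, h⟩ := h
      exact H.lw _ _ _ _ (by omega) (by omega) (by omega) (by omega) (by omega) (by omega)
    · obtain ⟨rfl, rfl, h⟩ := h
      exact NHT.p0 hf H.T (j := 2) (by omega) (by omega) (by omega) (by omega) (by omega) (by omega)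
    · obtain ⟨rfl, rfl, h⟩ := h
      exact NHT.p0 hf H.T (j := 1) (by omega) (by omega) (by omega) (by omega) (by omega) (by omega)
    · obtain ⟨rfl, rfl, h⟩ := h
      exact fun t => NHT.r1 hf H.T (p := 0) (j := 3) (by omega) (by omega) (by omega) (by omega) (by omega) (by omega) (mv t rfl (by omega) rfl rfl)
    · obtain ⟨rfl, rfl, h⟩ := h
      exact NHT.p2 hf H.T (j := 1) (by omega) (by omega) (by omega) (by omega) (by omega) (by omega)
    · obtain ⟨rfl, rfl, rfl, rfl⟩ := h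
      exact fun t => z0 (mv t (by omega) (by omega) (by omega) (by omega))

theorem z1_6_0_chk : check 9 7 11 11 0 1 1 1 2
    (fun j n p q => decide ((j = 4 ∧ n = 1 ∧ q ≤ p ∧ ((p + q) % 2 = 1 ∧ p % 2 = 1))
      ∨ (j = 6 ∧ n = 1 ∧ q ≤ p ∧ 6 ≤ p ∧ ((p + q) % 2 = 1 ∧ p % 2 = 0))
      ∨ (j = 3 ∧ n = 5 ∧ p = 7 ∧ q = 1)))
    (fun j n p q => decide ((j = 1 ∧ n = 3 ∧ q ≤ p)
      ∨ (j = 1 ∧ n = 4 ∧ q ≤ p)
      ∨ (j = 1 ∧ n = 5 ∧ q ≤ p)
      ∨ (j = 3 ∧ n = 3 ∧ q + 4 ≤ p)
      ∨ (j = 5 ∧ n = 3 ∧ q + 3 ≤ p)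
      ∨ (j = 3 ∧ n = 4 ∧ q + 5 ≤ p)
      ∨ (j = 4 ∧ n = 4 ∧ q + 4 ≤ p)
      ∨ (j = 5 ∧ n = 4 ∧ q + 4 ≤ p)
      ∨ (j = 6 ∧ n = 4 ∧ q + 3 ≤ p)
      ∨ (j = 7 ∧ n = 4 ∧ 5 ≤ q ∧ q + 3 ≤ p)
      ∨ (j = 8 ∧ n = 4 ∧ q + 2 ≤ p)
      ∨ (j = 9 ∧ n = 4 ∧ 5 ≤ q ∧ q + 2 ≤ p)
      ∨ (j = 5 ∧ n = 5 ∧ 5 ≤ q ∧ q + 4 ≤ p)
      ∨ (j = 7 ∧ n = 5 ∧ 5 ≤ q ∧ q + 3 ≤ p)
      ∨ (j = 9 ∧ n = 5 ∧ 5 ≤ q ∧ q + 2 ≤ p)
      ∨ (j = 4 ∧ n = 5 ∧ p = 8 ∧ q = 5)
      ∨ (j = 8 ∧ n = 5 ∧ p = 8 ∧ q = 5)))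
    194
    0x91b0307680007aa3207af8009946a0ac7830b04000ce8ea0993800993840ce8830957000957041037830cab800cab841037830ca6000ca6041037830ce8000ce8041037830ce2800ce284091b0309578009578407e10007e10106108e046903061080061084048c0306390006390404920306398006398407fa8e07fa0307fa8007fa840a49000a480006ff0006f50006f400064c00062e0010468e10468710410e10410710460e10460710408e104087100a0e100a0710048e10048710098e10098710040e1004070e8a870e990e0e99070e628e0e62870e5d0e0e5d070e620e0e62070e5c8e0e5c870cf78e0cf7870cf70e0cf7070cbb0e0cbb070cba8e0cba870b3b870b138e0b13870b130e0b13070b0d8e0b0d870ac1870a580e0a580f0a4d0e0a4d0f09a80e09a807096b0e096b0709658e096587092f0e092f0709298e09298707f48707ec8707fb0e07fb0707e08707bd8707bd0707b80707b78707c40e07c40707c38e07c38707be0e07be0707bd8e07bd8707b80e07b80707bd0e07bd0707b78e07b78707738707678707040e07040f070e0e070e0f07030e07030f064c0f064c0e064c0f06160706158706100706160e06160706158e06158706100e06100705d98e05d98705d40e05d407049187048687042c8703038e03038702fe0e02fe0703030e03030702fd8e02fd8702f80e02f80702fd0e02fd0702f78e02f78702c18702c10702bc0702bb8702c70e02c70702c18e02c18702c68e02c68702c10e02c10702bb8e02bb8702c08e02c08702bb0e02bb07028507028487027f87027f07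 = true := by
  decide +kernel

theorem z1_6_0 (hf : Rule f) {k c n : ℕ} (H : PW f k c n)
    (h0 : f (6 * k + 1) (c + 2) (2 * n + 6) (2 * n))
    (z0 : ¬ f (6 * k + 6) (c + 2) (2 * n + 7) (2 * n + 4))
    (z1 : ¬ f (6 * k + 2) (c + 2) (2 * n + 7) (2 * n + 4)) : False := by
  have hk := H.T.hk
  have hc := H.T.hc
  have h4' := H.T.h4
  have hb := H.T.hb
  have hN := H.T.hN2
  obtain ⟨a0, ha0⟩ : ∃ z, z + 2 = 6 * k := ⟨6 * k - 2, by omega⟩
  obtain ⟨b0, hb0⟩ : ∃ z, z + 3 = c := ⟨c - 3, by omega⟩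
  obtain ⟨x0, hx0⟩ : ∃ z, z + 1 = 2 * n := ⟨2 * n - 1, by omega⟩
  refine check_sound hf (a0 := a0) (b0 := b0) (x0 := x0) (y0 := x0) z1_6_0_chk
    ⟨fun _ => rfl, fun h => absurd h (by decide), fun h => absurd h (by decide), by omega, by omega,
      by omega, by omega⟩ ?_ ?_
  · intro j m p q hr h
    obtain ⟨-, -, -, -, hp1, hp2, hq1, hq2⟩ := hr
    replace h := of_decide_eq_true h
    rcases h with h | h | h
    · obtain ⟨rfl, rfl, h⟩ := h
      exact (WrapC.v2 H.c2 (by omega) (by omega) (by omega) (by omega) (by omega) (by omega) (by omega)).mpr (by omega)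
    · obtain ⟨rfl, rfl, h⟩ := h
      exact (WrapC.v0 H.c4 (by omega) (by omega) (by omega) (by omega) (by omega) (by omega) (by omega)).mpr (by omega)
    · obtain ⟨rfl, rfl, rfl, rfl⟩ := h
      exact mv h0 (by omega) (by omega) (by omega) (by omega)
  · intro j m p q hr h
    obtain ⟨-, -, -, -, hp1, hp2, hq1, hq2⟩ := hr
    replace h := of_decide_eq_true h
    rcases h with h | h | h | h | h | h | h | h | h | h | h | h | h | h | h | h | h
    · obtain ⟨rfl, rfl, h⟩ := h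
      exact H.lw _ _ _ _ (by omega) (by omega) (by omega) (by omega) (by omega) (by omega)
    · obtain ⟨rfl, rfl, h⟩ := h
      exact H.lw _ _ _ _ (by omega) (by omega) (by omega) (by omega) (by omega) (by omega)
    · obtain ⟨rfl, rfl, h⟩ := h
      exact H.lw _ _ _ _ (by omega) (by omega) (by omega) (by omega) (by omega) (by omega)
    · obtain ⟨rfl, rfl, h⟩ := h
      exact NHT.p0 hf H.T (j := 3) (by omega) (by omega) (by omega) (by omega) (by omega) (by omega)
    · obtain ⟨rfl, rfl, h⟩ := h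
      exact NHT.p0 hf H.T (j := 2) (by omega) (by omega) (by omega) (by omega) (by omega) (by omega)
    · obtain ⟨rfl, rfl, h⟩ := h
      exact fun t => NHT.r1 hf H.T (p := 1) (j := 4) (by omega) (by omega) (by omega) (by omega) (by omega) (by omega) (mv t rfl (by omega) rfl rfl)
    · obtain ⟨rfl, rfl, h⟩ := h
      exact fun t => NHT.r1 hf H.T (p := 0) (j := 3) (by omega) (by omega) (by omega) (by omega) (by omega) (by omega) (mv t rfl (by omega) rfl rfl)
    · obtain ⟨rfl, rfl, h⟩ := h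
      exact fun t => NHT.r1 hf H.T (p := 1) (j := 3) (by omega) (by omega) (by omega) (by omega) (by omega) (by omega) (mv t rfl (by omega) rfl rfl)
    · obtain ⟨rfl, rfl, h⟩ := h
      exact fun t => NHT.r1 hf H.T (p := 0) (j := 2) (by omega) (by omega) (by omega) (by omega) (by omega) (by omega) (mv t rfl (by omega) rfl rfl)
    · obtain ⟨rfl, rfl, h⟩ := h
      exact NHT.p2 hf H.T (j := 2) (by omega) (by omega) (by omega) (by omega) (by omega) (by omega)
    · obtain ⟨rfl, rfl, h⟩ := h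
      exact fun t => NHT.r1 hf H.T (p := 0) (j := 1) (by omega) (by omega) (by omega) (by omega) (by omega) (by omega) (mv t rfl (by omega) rfl rfl)
    · obtain ⟨rfl, rfl, h⟩ := h
      exact NHT.p2 hf H.T (j := 1) (by omega) (by omega) (by omega) (by omega) (by omega) (by omega)
    · obtain ⟨rfl, rfl, h⟩ := h
      exact NHT.p2 hf H.T (j := 3) (by omega) (by omega) (by omega) (by omega) (by omega) (by omega)
    · obtain ⟨rfl, rfl, h⟩ := h
      exact NHT.p2 hf H.T (j := 2) (by omega) (by omega) (by omega) (by omega) (by omega) (by omega)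
    · obtain ⟨rfl, rfl, h⟩ := h
      exact NHT.p2 hf H.T (j := 1) (by omega) (by omega) (by omega) (by omega) (by omega) (by omega)
    · obtain ⟨rfl, rfl, rfl, rfl⟩ := h
      exact fun t => z1 (mv t (by omega) (by omega) (by omega) (by omega))
    · obtain ⟨rfl, rfl, rfl, rfl⟩ := h
      exact fun t => z0 (mv t (by omega) (by omega) (by omega) (by omega))

theorem z1_10_0_chk : check 5 4 15 15 0 0 1 1 2
    (fun j n p q => decide ((j = 3 ∧ n = 2 ∧ p = 11 ∧ q = 1)))
    (fun j n p q => decide ((j = 1 ∧ n = 1 ∧ q ≤ p)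
      ∨ (j = 1 ∧ n = 2 ∧ q ≤ p)
      ∨ (j = 3 ∧ n = 1 ∧ q + 5 ≤ p ∧ p ≤ q + 10)
      ∨ (j = 4 ∧ n = 1 ∧ q + 4 ≤ p ∧ p ≤ q + 11)
      ∨ (j = 5 ∧ n = 1 ∧ q + 4 ≤ p ∧ p ≤ q + 11)
      ∨ (j = 5 ∧ n = 2 ∧ 5 ≤ q ∧ q + 4 ≤ p ∧ p ≤ q + 11)
      ∨ (j = 4 ∧ n = 2 ∧ p = 12 ∧ q = 5)))
    96
    0x479830643000805ca04818306438006438409d70307950007950408448e0a0f030844800844840634000a0f070a07870a0f0e0a0f070a078e0a0787099e87099e07099707099687099e8e099e8709970e099707099e0e099e0709968e099687084d0708458708150708458e08458708050707dc8707dc0707d50707d48707dc8e07dc8707d50e07d50707dc0e07dc0707d48e07d48707cc8e07cc8707d38e07d38707cc0e07cc07067a0e067a0f06120e061207060a8e060a8706118e061187060a0e060a0704810704720702fe8e02fe8702f70e02f70702fe0e02fe0702f68e02f68702ef0e02ef0702f60e02f60702ee8e02ee87028e0e028e0702868e028687028d8e028d8702860e028607027e8e027e8702858e028587027e0e027e07 = true := by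
  decide +kernel

theorem z1_10_0 (hf : Rule f) {k c n : ℕ} (H : PW f k c n)
    (h0 : f (6 * k + 1) (c + 2) (2 * n + 10) (2 * n))
    (z0 : ¬ f (6 * k + 2) (c + 2) (2 * n + 11) (2 * n + 4)) : False := by
  have hk := H.T.hk
  have hc := H.T.hc
  have h4' := H.T.h4
  have hb := H.T.hb
  have hN := H.T.hN2
  obtain ⟨a0, ha0⟩ : ∃ z, z + 2 = 6 * k := ⟨6 * k - 2, by omega⟩
  obtain ⟨b0, hb0⟩ : ∃ z, z = c := ⟨_, rfl⟩
  obtain ⟨x0, hx0⟩ : ∃ z, z + 1 = 2 * n := ⟨2 * n - 1, by omega⟩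
  refine check_sound hf (a0 := a0) (b0 := b0) (x0 := x0) (y0 := x0) z1_10_0_chk
    ⟨fun _ => rfl, fun h => absurd h (by decide), fun h => absurd h (by decide), by omega, by omega,
      by omega, by omega⟩ ?_ ?_
  · intro j m p q hr h
    obtain ⟨-, -, -, -, hp1, hp2, hq1, hq2⟩ := hr
    replace h := of_decide_eq_true h
    obtain ⟨rfl, rfl, rfl, rfl⟩ := h
    exact mv h0 (by omega) (by omega) (by omega) (by omega)
  · intro j m p q hr h
    obtain ⟨-, -, -, -, hp1, hp2, hq1, hq2⟩ := hr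
    replace h := of_decide_eq_true h
    rcases h with h | h | h | h | h | h | h
    · obtain ⟨rfl, rfl, h⟩ := h
      exact H.lw _ _ _ _ (by omega) (by omega) (by omega) (by omega) (by omega) (by omega)
    · obtain ⟨rfl, rfl, h⟩ := h
      exact H.lw _ _ _ _ (by omega) (by omega) (by omega) (by omega) (by omega) (by omega)
    · obtain ⟨rfl, rfl, h⟩ := h
      exact fun t => NHT.r1 hf H.T (p := 1) (j := 4) (by omega) (by omega) (by omega) (by omega) (by omega) (by omega) (mv t rfl (by omega) rfl rfl)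
    · obtain ⟨rfl, rfl, h⟩ := h
      exact fun t => NHT.r1 hf H.T (p := 0) (j := 3) (by omega) (by omega) (by omega) (by omega) (by omega) (by omega) (mv t rfl (by omega) rfl rfl)
    · obtain ⟨rfl, rfl, h⟩ := h
      exact fun t => NHT.r1 hf H.T (p := 1) (j := 3) (by omega) (by omega) (by omega) (by omega) (by omega) (by omega) (mv t rfl (by omega) rfl rfl)
    · obtain ⟨rfl, rfl, h⟩ := h
      exact NHT.p2 hf H.T (j := 3) (by omega) (by omega) (by omega) (by omega) (by omega) (by omega)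
    · obtain ⟨rfl, rfl, rfl, rfl⟩ := h
      exact fun t => z0 (mv t (by omega) (by omega) (by omega) (by omega))

end Pool.Agent.SNT.PW
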