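import Pool.Agent.SNT.PW

set_option autoImplicit false
set_option synthInstance.maxSize 100000
set_option synthInstance.maxHeartbeats 4000000

/-! The cells `(2 n + 8, 2 n + 2)`, `(2 n + 8, 2 n)` of `P_(6k+1)` in the row `c + 2`, leads of `PW`. -/

namespace Pool.Agent.SNT.PW

open Pool.Agent.SNT Pool.Agent.SNT.Sig Pool.Agent.SNT.Loc Pool.Agent.SNT.LW Pool.Agent.SNT.NHZ Pool.Agent.SNT.DRun Pool.Agent.SNT.PB

variable {f : ℕ → ℕ → ℕ → ℕ → Prop}

theorem z1_8_2_chk : check 4 5 10 10 0 1 1 1 2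
    (fun j n p q => decide ((j = 3 ∧ n = 3 ∧ p = 7 ∧ q = 1)))
    (fun j n p q => decide ((j = 1 ∧ n = 1 ∧ q ≤ p)
      ∨ (j = 1 ∧ n = 2 ∧ q ≤ p)
      ∨ (j = 1 ∧ n = 3 ∧ q ≤ p)
      ∨ (j = 3 ∧ n = 2 ∧ q + 5 ≤ p)
      ∨ (j = 4 ∧ n = 2 ∧ q + 4 ≤ p)
      ∨ (j = 3 ∧ n = 3 ∧ 3 ≤ q ∧ q + 5 ≤ p)
      ∨ (j = 4 ∧ n = 3 ∧ p = 8 ∧ q = 3)))
    34
    0x27c8303768004a7f202ae0303a88003a88403a78004a78704a28704758704750704708704700703ad8703a78f037b87037b0703760702ad87024a8701b40701b38701af0701ae87018287018207018187017d87017d07017c87015087015007014b87014b07 = true := by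
  decide +kernel

theorem z1_8_2 (hf : Rule f) {k c n : ℕ} (H : PW f k c n)
    (h0 : f (6 * k + 1) (c + 2) (2 * n + 8) (2 * n + 2))
    (z0 : ¬ f (6 * k + 2) (c + 2) (2 * n + 9) (2 * n + 4)) : False := by
  have hk := H.T.hk
  have hc := H.T.hc
  have h4' := H.T.h4
  have hb := H.T.hb
  have hN := H.T.hN2
  obtain ⟨a0, ha0⟩ : ∃ z, z + 2 = 6 * k := ⟨6 * k - 2, by omega⟩
  obtain ⟨b0, hb0⟩ : ∃ z, z + 1 = c := ⟨c - 1, by omega⟩
  obtain ⟨x0, hx0⟩ : ∃ z, z = 2 * n + 1 := ⟨_, rfl⟩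
  refine check_sound hf (a0 := a0) (b0 := b0) (x0 := x0) (y0 := x0) z1_8_2_chk
    ⟨fun _ => rfl, fun h => absurd h (by decide), fun h => absurd h (by decide), by omega, by omega,
      by omega, by omega⟩ ?_ ?_
  · intro j m p q hr h
    obtain ⟨-, -, -, -, hp1, hp2, hq1, hq2⟩ := hr
    replace h := of_decide_eq_true h
    obtain ⟨rfl, rfl, rfl, rfl⟩ := h
    exact mv h0 (by omega) (by omega) (by omega) (by omega)
  · intro j m p q hr h
    obtain ⟨-, -, -, -, hp1, hp2, hq1, hq2⟩ := hr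
    replace h := of_decide_eq_true h
    rcases h with h | h | h | h | h | h | h
    · obtain ⟨rfl, rfl, h⟩ := h
      exact H.lw _ _ _ _ (by omega) (by omega) (by omega) (by omega) (by omega) (by omega)
    · obtain ⟨rfl, rfl, h⟩ := h
      exact H.lw _ _ _ _ (by omega) (by omega) (by omega) (by omega) (by omega) (by omega)
    · obtain ⟨rfl, rfl, h⟩ := h
      exact H.lw _ _ _ _ (by omega) (by omega) (by omega) (by omega) (by omega) (by omega)
    · obtain ⟨rfl, rfl, h⟩ := h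
      exact fun t => NHT.r1 hf H.T (p := 1) (j := 4) (by omega) (by omega) (by omega) (by omega) (by omega) (by omega) (mv t rfl (by omega) rfl rfl)
    · obtain ⟨rfl, rfl, h⟩ := h
      exact fun t => NHT.r1 hf H.T (p := 0) (j := 3) (by omega) (by omega) (by omega) (by omega) (by omega) (by omega) (mv t rfl (by omega) rfl rfl)
    · obtain ⟨rfl, rfl, h⟩ := h
      exact NHT.p2 hf H.T (j := 4) (by omega) (by omega) (by omega) (by omega) (by omega) (by omega)
    · obtain ⟨rfl, rfl, rfl, rfl⟩ := h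
      exact fun t => z0 (mv t (by omega) (by omega) (by omega) (by omega))

theorem z1_8_0_chk : check 5 4 13 13 0 0 1 1 2
    (fun j n p q => decide ((j = 3 ∧ n = 2 ∧ p = 9 ∧ q = 1)))
    (fun j n p q => decide ((j = 1 ∧ n = 1 ∧ q ≤ p)
      ∨ (j = 1 ∧ n = 2 ∧ q ≤ p)
      ∨ (j = 3 ∧ n = 1 ∧ q + 5 ≤ p)
      ∨ (j = 4 ∧ n = 1 ∧ q + 4 ≤ p)
      ∨ (j = 5 ∧ n = 1 ∧ q + 4 ≤ p)
      ∨ (j = 5 ∧ n = 2 ∧ 5 ≤ q ∧ q + 4 ≤ p)
      ∨ (j = 4 ∧ n = 2 ∧ p = 10 ∧ q = 5)))
    96
    0x35e8304b7000609ca03658304b78004b78407690305b50005b50406338e078d0306338006338404aa00078d07078687078d0e078d0707868e07868707388707380707320707318707388e07388707320e07320707380e07380707318e073187063b0706348706170706348e06348706090705e68705e60705e00705df8705e68e05e68705e00e05e00705e60e05e60705df8e05df8705d88e05d88705de8e05de8705d80e05d80704da0e04da0f048d0e048d0704868e048687048c8e048c8704860e048607036507035807023d8e023d8702370e023707023d0e023d0702368e02368702300e02300702360e023607022f8e022f8701e90e01e90701e28e01e28701e88e01e88701e20e01e20701db8e01db8701e18e01e18701db0e01db07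 = true := by
  decide +kernel

theorem z1_8_0 (hf : Rule f) {k c n : ℕ} (H : PW f k c n)
    (h0 : f (6 * k + 1) (c + 2) (2 * n + 8) (2 * n))
    (z0 : ¬ f (6 * k + 2) (c + 2) (2 * n + 9) (2 * n + 4)) : False := by
  have hk := H.T.hk
  have hc := H.T.hc
  have h4' := H.T.h4
  have hb := H.T.hb
  have hN := H.T.hN2
  obtain ⟨a0, ha0⟩ : ∃ z, z + 2 = 6 * k := ⟨6 * k - 2, by omega⟩
  obtain ⟨b0, hb0⟩ : ∃ z, z = c := ⟨_, rfl⟩
  obtain ⟨x0, hx0⟩ : ∃ z, z + 1 = 2 * n := ⟨2 * n - 1, by omega⟩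
  refine check_sound hf (a0 := a0) (b0 := b0) (x0 := x0) (y0 := x0) z1_8_0_chk
    ⟨fun _ => rfl, fun h => absurd h (by decide), fun h => absurd h (by decide), by omega, by omega,
      by omega, by omega⟩ ?_ ?_
  · intro j m p q hr h
    obtain ⟨-, -, -, -, hp1, hp2, hq1, hq2⟩ := hr
    replace h := of_decide_eq_true h
    obtain ⟨rfl, rfl, rfl, rfl⟩ := h
    exact mv h0 (by omega) (by omega) (by omega) (by omega)
  · intro j m p q hr h
    obtain ⟨-, -, -, -, hp1, hp2, hq1, hq2⟩ := hr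
    replace h := of_decide_eq_true h
    rcases h with h | h | h | h | h | h | h
    · obtain ⟨rfl, rfl, h⟩ := h
      exact H.lw _ _ _ _ (by omega) (by omega) (by omega) (by omega) (by omega) (by omega)
    · obtain ⟨rfl, rfl, h⟩ := h
      exact H.lw _ _ _ _ (by omega) (by omega) (by omega) (by omega) (by omega) (by omega)
    · obtain ⟨rfl, rfl, h⟩ := h
      exact fun t => NHT.r1 hf H.T (p := 1) (j := 4) (by omega) (by omega) (by omega) (by omega) (by omega) (by omega) (mv t rfl (by omega) rfl rfl)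
    · obtain ⟨rfl, rfl, h⟩ := h
      exact fun t => NHT.r1 hf H.T (p := 0) (j := 3) (by omega) (by omega) (by omega) (by omega) (by omega) (by omega) (mv t rfl (by omega) rfl rfl)
    · obtain ⟨rfl, rfl, h⟩ := h
      exact fun t => NHT.r1 hf H.T (p := 1) (j := 3) (by omega) (by omega) (by omega) (by omega) (by omega) (by omega) (mv t rfl (by omega) rfl rfl)
    · obtain ⟨rfl, rfl, h⟩ := h
      exact NHT.p2 hf H.T (j := 3) (by omega) (by omega) (by omega) (by omega) (by omega) (by omega)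
    · obtain ⟨rfl, rfl, rfl, rfl⟩ := h
      exact fun t => z0 (mv t (by omega) (by omega) (by omega) (by omega))

end Pool.Agent.SNT.PW
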