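import Pool.Agent.SNT.PurW
import Pool.Agent.SNT.PWz
import Pool.Agent.SNT.PWy
import Pool.Agent.SNT.NWWz
import Pool.Agent.SNT.PurV

set_option autoImplicit false

/-! The lines `2 n + 2`, `2 n` of `P_(6k+1)` in the OUT row `c + 2`, over the leads `n - 5` of `6 k`, `n - 2` of `6 k + 2` and
`n + 1` of `6 k + 4` (in all cycles). -/

namespace Pool.Agent.SNT.Za

open Pool.Agent.SNT Pool.Agent.SNT.Sig Pool.Agent.SNT.NHZ

variable {f : ℕ → ℕ → ℕ → ℕ → Prop} {k b m n : ℕ}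

theorem purW_stack (hf : Rule f) (hs : Side k b m) (S : Stack6 f k b m 0 0 0 0 0 1) (hn : n = m + 9 + (k + 2) * 4)
    (d0 : Cyc f (6 * k) (b + 16) (2 * (n - 5) + 2)) (d2 : Cyc f (6 * k + 2) (b + 18) (2 * (n - 2) + 2))
    (d4 : Cyc f (6 * k + 4) (b + 20) (2 * (n + 1) + 2)) : NWW.PurW f k (b + 22) n where
  u2 := by
    intro M R x y hM hR hy hx h1 h2
    have h := (PW.purity_stack hf hs S hn d0 d2 d4 hx h2).1 h1
    rwa [hM, hR, hy, show b + 22 + 2 = b + 24 by omega]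
  u6 := by
    intro M R x y hM hR hy hx h1 h2
    have h := (PW.purity_stack hf hs S hn d0 d2 d4 hx h2).2 h1
    rwa [hM, hR, hy, show b + 22 + 2 = b + 24 by omega]

/-- **The line `2 n + 2` of `P_(6k+1)`** from `x = 2 n + 8` to the wall (without the cell `d = 2 k - 2`). -/
theorem line2 (hf : Rule f) (hs : Side k b m) (S : Stack6 f k b m 0 0 0 0 0 1) (hn : n = m + 9 + (k + 2) * 4)
    (d0 : Cyc f (6 * k) (b + 16) (2 * (n - 5) + 2)) (d2 : Cyc f (6 * k + 2) (b + 18) (2 * (n - 2) + 2))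
    (d4 : Cyc f (6 * k + 4) (b + 20) (2 * (n + 1) + 2)) (e0 : Cyc f (6 * k) (b + 20) (2 * (n + k - 3) + 2))
    {x : ℕ} (hx : x % 2 = 0) (h1 : 2 * n + 8 ≤ x)
    (h2 : x + 2 ≤ 2 * n + 2 * k ∨ x = 2 * n + 2 * k + 2 ∨ x = 2 * n + 2 * k + 4) :
    ¬ f (6 * k + 1) (b + 24) x (2 * n + 2) := by
  have hk : 8 ≤ k := hs.1
  have P := PW.PW.of_stack hs S hn d0 d2 d4
  have H := NWW.NWW.of_stack hs S hn d0 d2 d4 e0
  have U := purW_stack hf hs S hn d0 d2 d4
  have e : b + 22 + 2 = b + 24 := by omega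
  rcases h2 with h2 | rfl | rfl
  · rcases Nat.lt_or_ge x (2 * n + 10) with h3 | h3
    · obtain rfl : x = 2 * n + 8 := by omega
      intro h
      exact PW.z1_8_2 hf P (by rwa [e]) (U.u2 _ _ _ _ rfl rfl rfl (by omega) (by omega) (by omega))
    · rcases Nat.lt_or_ge (2 * n + 2 * k) (x + 10) with h4 | h4
      · obtain rfl | rfl | rfl | rfl : x = 2 * n + 2 * k - 8 ∨ x = 2 * n + 2 * k - 6 ∨ x = 2 * n + 2 * k - 4 ∨
            x = 2 * n + 2 * k - 2 := by omega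
        · have := NWW.z1_m8_2 hf H U
          rwa [e] at this
        · have := NWW.z1_m6_2 hf H U
          rwa [e] at this
        · have := NWW.z1_m4_2 hf H U
          rwa [e] at this
        · have := NWW.z1_m2_2 hf H U
          rwa [e] at this
      · exact PW.p1_2 hf hs S hn d0 d2 d4 h3 h4
  · have := NWW.z1_2_2 hf H
    rwa [e] at this
  · have := NWW.z1_4_2 hf H
    rwa [e] at this

/-- **The line `2 n` of `P_(6k+1)`** from `x = 2 n + 8` to `d = 2 k - 4`, and `d = 2 k`, `2 k + 4`. -/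
theorem line0 (hf : Rule f) (hs : Side k b m) (S : Stack6 f k b m 0 0 0 0 0 1) (hn : n = m + 9 + (k + 2) * 4)
    (d0 : Cyc f (6 * k) (b + 16) (2 * (n - 5) + 2)) (d2 : Cyc f (6 * k + 2) (b + 18) (2 * (n - 2) + 2))
    (d4 : Cyc f (6 * k + 4) (b + 20) (2 * (n + 1) + 2)) (e0 : Cyc f (6 * k) (b + 20) (2 * (n + k - 3) + 2))
    {x : ℕ} (hx : x % 2 = 0) (h1 : 2 * n + 8 ≤ x)
    (h2 : x + 4 ≤ 2 * n + 2 * k ∨ x = 2 * n + 2 * k ∨ x = 2 * n + 2 * k + 4) :
    ¬ f (6 * k + 1) (b + 24) x (2 * n) := by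
  have hk : 8 ≤ k := hs.1
  have P := PW.PW.of_stack hs S hn d0 d2 d4
  have H := NWW.NWW.of_stack hs S hn d0 d2 d4 e0
  have U := purW_stack hf hs S hn d0 d2 d4
  have e : b + 22 + 2 = b + 24 := by omega
  rcases h2 with h2 | rfl | rfl
  · rcases Nat.lt_or_ge x (2 * n + 10) with h3 | h3
    · obtain rfl : x = 2 * n + 8 := by omega
      intro h
      exact PW.z1_8_0 hf P (by rwa [e]) (U.u2 _ _ _ _ rfl rfl rfl (by omega) (by omega) (by omega))
    · rcases Nat.lt_or_ge (2 * n + 2 * k) (x + 12) with h4 | h4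
      · obtain rfl | rfl | rfl | rfl : x = 2 * n + 2 * k - 10 ∨ x = 2 * n + 2 * k - 8 ∨ x = 2 * n + 2 * k - 6 ∨
            x = 2 * n + 2 * k - 4 := by omega
        · have := NWW.z1_m10_0 hf H (by omega) U
          rwa [e] at this
        · have := NWW.z1_m8_0 hf H U
          rwa [e] at this
        · have := NWW.z1_m6_0 hf H U
          rwa [e] at this
        · have := NWW.z1_m4_0 hf H U
          rwa [e] at this
      · exact PW.p1_0 hf hs S hn d0 d2 d4 h3 h4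
  · have := NWW.z1_0_0 hf H
    rwa [e] at this
  · have := NWW.z1_4_0 hf H
    rwa [e] at this

/-- **The line `2 n` of `P_(6k+1)` over the leads `n - 6`, `n - 3`, `n + 1`**, from `x = 2 n + 6` to `d = 2 k - 4`. -/
theorem line0_3 (hf : Rule f) (hs : Side k b m) (S : Stack6 f k b m 0 0 0 0 0 1) (hn : n = m + 9 + (k + 2) * 4)
    (d0 : Cyc f (6 * k) (b + 16) (2 * (n - 6) + 2)) (d2 : Cyc f (6 * k + 2) (b + 18) (2 * (n - 3) + 2))
    (d4 : Cyc f (6 * k + 4) (b + 20) (2 * (n + 1) + 2)) (e0 : Cyc f (6 * k) (b + 20) (2 * (n + k - 3) + 2))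
    {x : ℕ} (hx : x % 2 = 0) (h1 : 2 * n + 6 ≤ x)
    (h2 : x + 4 ≤ 2 * n + 2 * k ∨ x = 2 * n + 2 * k ∨ x = 2 * n + 2 * k + 4) :
    ¬ f (6 * k + 1) (b + 24) x (2 * n) := by
  have hk : 8 ≤ k := hs.1
  have P := PV.PV.of_stack hs S hn d0 d2 d4
  rcases Nat.lt_or_ge x (2 * n + 8) with h | h
  · obtain rfl : x = 2 * n + 6 := by omega
    have U := PV.purity_stack hf hs S hn d0 d2 d4 (x := 2 * n + 7) (by omega) (by omega) (by omega)
    intro h3
    exact PW.z1_6_0 hf P.toPW h3 U.2 U.1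
  · exact line0 hf hs S hn (WrapC.cyc_mono d0 (by omega)) (WrapC.cyc_mono d2 (by omega)) d4 e0 hx h h2

/-- **The line `2 n + 2` of `P_(6k+1)` over the leads `n - 6`, `n - 3`, `n + 1`**, from `x = 2 n + 6` on. -/
theorem line2_3 (hf : Rule f) (hs : Side k b m) (S : Stack6 f k b m 0 0 0 0 0 1) (hn : n = m + 9 + (k + 2) * 4)
    (d0 : Cyc f (6 * k) (b + 16) (2 * (n - 6) + 2)) (d2 : Cyc f (6 * k + 2) (b + 18) (2 * (n - 3) + 2))
    (d4 : Cyc f (6 * k + 4) (b + 20) (2 * (n + 1) + 2)) (e0 : Cyc f (6 * k) (b + 20) (2 * (n + k - 3) + 2))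
    {x : ℕ} (hx : x % 2 = 0) (h1 : 2 * n + 6 ≤ x)
    (h2 : x + 2 ≤ 2 * n + 2 * k ∨ x = 2 * n + 2 * k + 2 ∨ x = 2 * n + 2 * k + 4) :
    ¬ f (6 * k + 1) (b + 24) x (2 * n + 2) := by
  have hk : 8 ≤ k := hs.1
  have P := PV.PV.of_stack hs S hn d0 d2 d4
  rcases Nat.lt_or_ge x (2 * n + 8) with h | h
  · obtain rfl : x = 2 * n + 6 := by omega
    have U := PV.purity_stack hf hs S hn d0 d2 d4 (x := 2 * n + 7) (by omega) (by omega) (by omega)
    intro h3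
    exact PW.z1_6_2 hf P.toPW h3 U.1
  · exact line2 hf hs S hn (WrapC.cyc_mono d0 (by omega)) (WrapC.cyc_mono d2 (by omega)) d4 e0 hx h h2

end Pool.Agent.SNT.Za
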