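import Pool.Agent.SNT.O4b
import Pool.Agent.SNT.O4c
import Pool.Agent.SNT.O4dA
import Pool.Agent.SNT.O4dB
import Pool.Agent.SNT.O4dC
import Pool.Agent.SNT.O4dD
import Pool.Agent.SNT.O4dE
import Pool.Agent.SNT.O4dG
import Pool.Agent.SNT.TipK0
import Pool.Agent.SNT.E1m4RunD
import Pool.Agent.SNT.ZaL
import Pool.Agent.SNT.LineIn
import Pool.Agent.SNT.K0L4

set_option autoImplicit false

/-! `OUT2(-4)` near the diagonal: the cells `(2 n + 4, 2 n - 2)`, `(2 n + 6, 2 n - 2)`, `(2 n + 8, 2 n - 2)` of `P_(6 k + 1)`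
in the row `b + 24`, leads `(n + 1, n - 4, n - 7)`. -/

namespace Pool.Agent.SNT.O4f

open Pool.Agent.SNT Pool.Agent.SNT.Sig Pool.Agent.SNT.Loc Pool.Agent.SNT.LW Pool.Agent.SNT.NHZ Pool.Agent.SNT.D1E
open Pool.Agent.SNT.Zb

variable {f : ℕ → ℕ → ℕ → ℕ → Prop} {k b m n : ℕ}

/-- the hypotheses over a stack -/
theorem pl_stack (hs : Side k b m) (S : Stack6 f k b m 0 0 0 0 0 1) (hn : n = m + 9 + (k + 2) * 4)
    (d0 : Cyc f (6 * k) (b + 16) (2 * (n - 7) + 2)) (d2 : Cyc f (6 * k + 2) (b + 18) (2 * (n - 4) + 2))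
    (d4 : Cyc f (6 * k + 4) (b + 20) (2 * (n + 1) + 2)) : PL f k (b + 22) n (n - 4) :=
  PL.of_stack hs S hn (by omega) (by omega) (by rwa [show n - 4 - 3 = n - 7 by omega]) d2 d4

theorem out6 (hf : Rule f) (hs : Side k b m) (S : Stack6 f k b m 0 0 0 0 0 1) (hn : n = m + 9 + (k + 2) * 4)
    (d0 : Cyc f (6 * k) (b + 16) (2 * (n - 7) + 2)) (d2 : Cyc f (6 * k + 2) (b + 18) (2 * (n - 4) + 2))
    (d4 : Cyc f (6 * k + 4) (b + 20) (2 * (n + 1) + 2)) (e0 : Cyc f (6 * k) (b + 20) (2 * (n + k - 3) + 2)) :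
    ¬ f (6 * k + 1) (b + 24) (2 * n + 6) (2 * n - 2) := by
  have hk : 8 ≤ k := hs.1
  have I := pl_stack hs S hn d0 d2 d4
  have d0' : Cyc f (6 * k) (b + 16) (2 * (n - 6) + 2) := WrapC.cyc_mono d0 (by omega)
  have d2' : Cyc f (6 * k + 2) (b + 18) (2 * (n - 3) + 2) := WrapC.cyc_mono d2 (by omega)
  have H := E1m4.zbh_stack hf hs S hn (WrapC.cyc_mono d0 (by omega)) d2' d4
  have U := PV.purity_stack hf hs S hn d0' d2' d4 (x := 2 * n + 7) (by omega) (by omega) (by omega)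
  exact O4b.c6 hf I H (Za.line2_3 hf hs S hn d0' d2' d4 e0 (by omega) (by omega) (by omega))
    (Za.line2_3 hf hs S hn d0' d2' d4 e0 (by omega) (by omega) (by omega))
    (Za.line0_3 hf hs S hn d0' d2' d4 e0 (by omega) (by omega) (by omega)) U.1 U.2

theorem out8 (hf : Rule f) (hs : Side k b m) (S : Stack6 f k b m 0 0 0 0 0 1) (hn : n = m + 9 + (k + 2) * 4)
    (d0 : Cyc f (6 * k) (b + 16) (2 * (n - 7) + 2)) (d2 : Cyc f (6 * k + 2) (b + 18) (2 * (n - 4) + 2))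
    (d4 : Cyc f (6 * k + 4) (b + 20) (2 * (n + 1) + 2)) (e0 : Cyc f (6 * k) (b + 20) (2 * (n + k - 3) + 2)) (hk9 : 9 ≤ k) :
    ¬ f (6 * k + 1) (b + 24) (2 * n + 8) (2 * n - 2) := by
  have I := pl_stack hs S hn d0 d2 d4
  have d0' : Cyc f (6 * k) (b + 16) (2 * (n - 6) + 2) := WrapC.cyc_mono d0 (by omega)
  have d2' : Cyc f (6 * k + 2) (b + 18) (2 * (n - 3) + 2) := WrapC.cyc_mono d2 (by omega)
  have H := E1m4.zbh_stack hf hs S hn (WrapC.cyc_mono d0 (by omega)) d2' d4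
  have U := PV.purity_stack hf hs S hn d0' d2' d4 (x := 2 * n + 9) (by omega) (by omega) (by omega)
  have a80 : ¬ f (6 * k + 1) (b + 22 + 2) (2 * n + 8) (2 * n) :=
    Za.line0_3 hf hs S hn d0' d2' d4 e0 (by omega) (by omega) (by omega)
  have a82 : ¬ f (6 * k + 1) (b + 22 + 2) (2 * n + 8) (2 * n + 2) :=
    Za.line2_3 hf hs S hn d0' d2' d4 e0 (by omega) (by omega) (by omega)
  exact O4c.c8 hf I a80 (O4c.p91 hf I a80) (O4a.p92 hf I a82) (H.p3_1 hf (by omega) (by omega))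
    (H.p3_2e hf (by omega) (by omega) (by omega)) U.1

theorem out4 (hf : Rule f) (hs : Side k b m) (S : Stack6 f k b m 0 0 0 0 0 1) (hn : n = m + 9 + (k + 2) * 4)
    (d0 : Cyc f (6 * k) (b + 16) (2 * (n - 7) + 2)) (d2 : Cyc f (6 * k + 2) (b + 18) (2 * (n - 4) + 2))
    (d4 : Cyc f (6 * k + 4) (b + 20) (2 * (n + 1) + 2)) (d4a : Cyc f (6 * k + 4) (b + 16) (2 * (n - k - 1) + 2))
    (e0 : Cyc f (6 * k) (b + 20) (2 * (n + k - 3) + 2)) :
    ¬ f (6 * k + 1) (b + 24) (2 * n + 4) (2 * n - 2) := by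
  have hk : 8 ≤ k := hs.1
  have I := pl_stack hs S hn d0 d2 d4
  have hN := I.T.hN2
  have d0' : Cyc f (6 * k) (b + 16) (2 * (n - 6) + 2) := WrapC.cyc_mono d0 (by omega)
  have d2' : Cyc f (6 * k + 2) (b + 18) (2 * (n - 3) + 2) := WrapC.cyc_mono d2 (by omega)
  have H := E1m4.zbh_stack hf hs S hn (WrapC.cyc_mono d0 (by omega)) d2' d4
  have U := PV.purity_stack hf hs S hn d0' d2' d4 (x := 2 * n + 7) (by omega) (by omega) (by omega)
  have a62 : ¬ f (6 * k + 1) (b + 22 + 2) (2 * n + 6) (2 * n + 2) :=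
    Za.line2_3 hf hs S hn d0' d2' d4 e0 (by omega) (by omega) (by omega)
  have a60 : ¬ f (6 * k + 1) (b + 22 + 2) (2 * n + 6) (2 * n) :=
    Za.line0_3 hf hs S hn d0' d2' d4 e0 (by omega) (by omega) (by omega)
  have a82 : ¬ f (6 * k + 1) (b + 22 + 2) (2 * n + 8) (2 * n + 2) :=
    Za.line2_3 hf hs S hn d0' d2' d4 e0 (by omega) (by omega) (by omega)
  have K2 : f (6 * k + 2) (b + 22) (2 * n + 3) (2 * n + 8 - 2 * k) ∨ f (6 * k + 2) (b + 22) (2 * n + 5) (2 * n + 10 - 2 * k) := by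
    have h := TipK0.k2_line hf hs S hn d2 d4 (x := 2 * n + 3) (y := 2 * n + 8 - 2 * k) (by omega) (by omega) (by omega)
      (by omega) (by omega)
    rwa [show 2 * n + 3 + 2 = 2 * n + 5 by omega, show 2 * n + 8 - 2 * k + 2 = 2 * n + 10 - 2 * k by omega] at h
  have f3 := LineIn.f2 hf I.T K2 (y := 2 * n - 3) (by omega) (by omega) (by omega)
  have pr := TipK0.k2_line1 hf hs S hn d0' d2' d4 d4a (y := 2 * n - 6) (by omega) (by omega) (by omega)
  rw [show 2 * n - 6 + 2 = 2 * n - 4 by omega] at pr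
  have t : ∀ x : ℕ, x % 2 = 1 → 2 * n ≤ x + 3 → f (6 * k + 4) (b + 22 - 2) x (x - 1) ∨ f (6 * k + 4) (b + 22 - 2) (x + 2) (x + 1) :=
    fun x h1 h2 => K0L4.tip4 hf I.T I.U I.c4a I.c6a I.c6 I.c8a I.c8 h1 h2
  have w := O4b.w4 hf I H a82
  by_cases h1 : f (6 * k + 4) (b + 22 - 2) (2 * n - 1) (2 * n - 2)
  · rcases w with w | w <;> rcases pr with pr | pr
    · exact O4dA.c4 hf I a62 a60 U.2 f3 w pr
    · exact O4dB.c4 hf I a60 U.2 f3 w pr
    · exact O4dC.c4 hf I a62 U.2 f3 w pr h1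
    · exact O4dD.c4 hf I U.2 f3 w pr h1
  · have q1 : f (6 * k + 4) (b + 22 - 2) (2 * n - 3) (2 * n - 4) := by
      rcases t (2 * n - 3) (by omega) (by omega) with h | h
      · exact mv h rfl rfl rfl (by omega)
      · exact absurd (mv h rfl rfl (by omega) (by omega)) h1
    have q2 : f (6 * k + 4) (b + 22 - 2) (2 * n + 1) (2 * n) := by
      rcases t (2 * n - 1) (by omega) (by omega) with h | h
      · exact absurd (mv h rfl rfl rfl (by omega)) h1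
      · exact mv h rfl rfl (by omega) (by omega)
    rcases w with w | w <;> rcases pr with pr | pr
    · exact O4dA.c4 hf I a62 a60 U.2 f3 w pr
    · exact O4dB.c4 hf I a60 U.2 f3 w pr
    · exact O4dE.c4 hf I U.2 f3 w pr q1 q2
    · exact O4dG.c4 hf I a60 U.2 f3 w pr q1 q2

end Pool.Agent.SNT.O4f
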