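import Pool.Agent.SNT.Loc
import Pool.Agent.SNT.NHZoneU

set_option autoImplicit false
set_option synthInstance.maxSize 100000
set_option maxRecDepth 100000
set_option linter.unusedVariables false

/-! Near wall: the cell `(2 n + 2 k - 4, 2 n - 2)` of the layer `6 k + 1` in the row `c + 2` is zero (leads `(1, -4, -7)`,
purity of `6 k + 2`, `6 k + 6` at `y = 2 n + 4`) (helper82). -/

namespace Pool.Agent.SNT.Loc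

theorem o2w4_cert_chk : check 10 6 11 9 0 0 0 1 0
    (fun j n p q => decide ((((((j = 3 ∧ n = 4 ∧ p = 2 ∧ q = 1) ∨ (j = 4 ∧ n = 1 ∧ p = 4 ∧ q = 1)) ∨ ((j = 4 ∧ n = 1 ∧ p = 6 ∧ q = 3) ∨ (j = 6 ∧ n = 1 ∧ p = 5 ∧ q = 2))) ∨ (((j = 6 ∧ n = 1 ∧ p = 7 ∧ q = 4) ∨ (j = 6 ∧ n = 2 ∧ p = 7 ∧ q = 3)) ∨ (j = 8 ∧ n = 2 ∧ p = 5 ∧ q = 1))) ∨ ((((j = 8 ∧ n = 2 ∧ p = 7 ∧ q = 5) ∨ (j = 8 ∧ n = 3 ∧ p = 9 ∧ q = 4)) ∨ (j = 10 ∧ n = 4 ∧ p = 7 ∧ q = 5)) ∨ (((j = 10 ∧ n = 4 ∧ p = 7 ∧ q = 7) ∨ (j = 10 ∧ n = 4 ∧ p = 9 ∧ q = 5)) ∨ (j = 10 ∧ n = 4 ∧ p = 9 ∧ q = 7))))))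
    (fun j n p q => decide (((((((((j = 1 ∨ (j = 2 ∧ n = 3 ∧ p = 1 ∧ q = 4)) ∨ (j = 2 ∧ n = 3 ∧ p = 2 ∧ q = 5)) ∨ ((j = 2 ∧ n = 3 ∧ p = 3 ∧ q = 6) ∨ (j = 2 ∧ n = 3 ∧ p = 4 ∧ q = 7))) ∨ ((((j = 3 ∧ n = 3 ∧ p = 2 ∧ q = 5) ∨ (j = 3 ∧ n = 3 ∧ p = 2 ∧ q = 6)) ∨ (j = 3 ∧ n = 3 ∧ p = 2 ∧ q = 7)) ∨ ((j = 3 ∧ n = 3 ∧ p = 3 ∧ q = 6) ∨ (j = 3 ∧ n = 3 ∧ p = 3 ∧ q = 7)))) ∨ (((((j = 3 ∧ n = 3 ∧ p = 4 ∧ q = 7) ∨ (j = 3 ∧ n = 4 ∧ p = 2 ∧ q = 7)) ∨ (j = 3 ∧ n = 4 ∧ p = 3 ∧ q = 7)) ∨ ((j = 3 ∧ n = 4 ∧ p = 4 ∧ q = 7) ∨ (j = 4 ∧ n = 1 ∧ p = 1 ∧ q = 1))) ∨ (((j = 4 ∧ n = 1 ∧ p = 1 ∧ q = 2) ∨ (j = 4 ∧ n = 1 ∧ p = 2 ∧ q = 1)) ∨ ((j = 4 ∧ n = 1 ∧ p = 2 ∧ q = 3) ∨ (j = 4 ∧ n = 1 ∧ p = 2 ∧ q = 4))))) ∨ ((((((j = 4 ∧ n = 1 ∧ p = 3 ∧ q = 1) ∨ (j = 4 ∧ n = 1 ∧ p = 3 ∧ q = 2)) ∨ (j = 4 ∧ n = 1 ∧ p = 3 ∧ q = 3)) ∨ ((j = 4 ∧ n = 1 ∧ p = 3 ∧ q =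 4) ∨ (j = 4 ∧ n = 1 ∧ p = 3 ∧ q = 5))) ∨ ((((j = 4 ∧ n = 1 ∧ p = 4 ∧ q = 2) ∨ (j = 4 ∧ n = 1 ∧ p = 4 ∧ q = 3)) ∨ (j = 4 ∧ n = 1 ∧ p = 4 ∧ q = 4)) ∨ ((j = 4 ∧ n = 1 ∧ p = 5 ∧ q = 2) ∨ (j = 4 ∧ n = 1 ∧ p = 5 ∧ q = 3)))) ∨ (((((j = 4 ∧ n = 1 ∧ p = 5 ∧ q = 4) ∨ (j = 4 ∧ n = 1 ∧ p = 5 ∧ q = 5)) ∨ (j = 4 ∧ n = 1 ∧ p = 6 ∧ q = 4)) ∨ ((j = 4 ∧ n = 1 ∧ p = 6 ∧ q = 5) ∨ (j = 4 ∧ n = 3 ∧ p = 2 ∧ q = 4))) ∨ (((j = 4 ∧ n = 3 ∧ p = 2 ∧ q = 5) ∨ (j = 4 ∧ n = 3 ∧ p = 2 ∧ q = 6)) ∨ ((j = 4 ∧ n = 3 ∧ p = 2 ∧ q = 7) ∨ (j = 4 ∧ n = 3 ∧ p = 3 ∧ q = 5)))))) ∨ (((((((j = 4 ∧ n = 3 ∧ p = 3 ∧ q = 6) ∨ (j = 4 ∧ n = 3 ∧ p = 3 ∧ q = 7)) ∨ (j = 4 ∧ n = 3 ∧ p = 4 ∧ q = 6)) ∨ ((j = 4 ∧ n = 3 ∧ p = 4 ∧ q = 7) ∨ (j = 4 ∧ n = 3 ∧ p = 5 ∧ q = 7))) ∨ ((((j = 4 ∧ n = 4 ∧ p = 3 ∧ q = 7) ∨ (j = 4 ∧ n = 4 ∧ p = 5 ∧ q = 7)) ∨ (j = 5 ∧ n = 1 ∧ p = 1 ∧ q =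 2)) ∨ ((j = 5 ∧ n = 1 ∧ p = 2 ∧ q = 3) ∨ (j = 5 ∧ n = 1 ∧ p = 2 ∧ q = 4)))) ∨ (((((j = 5 ∧ n = 1 ∧ p = 3 ∧ q = 4) ∨ (j = 5 ∧ n = 1 ∧ p = 3 ∧ q = 5)) ∨ (j = 5 ∧ n = 1 ∧ p = 4 ∧ q = 5)) ∨ ((j = 5 ∧ n = 2 ∧ p = 1 ∧ q = 2) ∨ (j = 5 ∧ n = 2 ∧ p = 2 ∧ q = 3))) ∨ (((j = 5 ∧ n = 2 ∧ p = 2 ∧ q = 4) ∨ (j = 5 ∧ n = 2 ∧ p = 3 ∧ q = 4)) ∨ ((j = 5 ∧ n = 2 ∧ p = 3 ∧ q = 5) ∨ (j = 5 ∧ n = 2 ∧ p = 4 ∧ q = 5))))) ∨ ((((((j = 5 ∧ n = 3 ∧ p = 3 ∧ q = 5) ∨ (j = 5 ∧ n = 3 ∧ p = 3 ∧ q = 6)) ∨ (j = 5 ∧ n = 3 ∧ p = 3 ∧ q = 7)) ∨ ((j = 5 ∧ n = 3 ∧ p = 4 ∧ q = 6) ∨ (j = 5 ∧ n = 3 ∧ p = 4 ∧ q = 7))) ∨ (((j = 5 ∧ n = 4 ∧ p = 3 ∧ q = 7) ∨ (j = 5 ∧ n = 4 ∧ p = 4 ∧ q = 7)) ∨ ((j = 6 ∧ n = 1 ∧ p = 1 ∧ q = 1) ∨ (j = 6 ∧ n = 1 ∧ p = 1 ∧ q = 2)))) ∨ (((((j = 6 ∧ n = 1 ∧ p = 2 ∧ q = 1) ∨ (j = 6 ∧ n = 1 ∧ p = 2 ∧ q = 2)) ∨ (j = 6 ∧ n = 1 ∧ p = 2 ∧ q =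 3)) ∨ ((j = 6 ∧ n = 1 ∧ p = 3 ∧ q = 1) ∨ (j = 6 ∧ n = 1 ∧ p = 3 ∧ q = 2))) ∨ (((j = 6 ∧ n = 1 ∧ p = 3 ∧ q = 3) ∨ (j = 6 ∧ n = 1 ∧ p = 3 ∧ q = 4)) ∨ ((j = 6 ∧ n = 1 ∧ p = 4 ∧ q = 1) ∨ (j = 6 ∧ n = 1 ∧ p = 4 ∧ q = 2))))))) ∨ ((((((((j = 6 ∧ n = 1 ∧ p = 4 ∧ q = 3) ∨ (j = 6 ∧ n = 1 ∧ p = 4 ∧ q = 4)) ∨ (j = 6 ∧ n = 1 ∧ p = 5 ∧ q = 3)) ∨ ((j = 6 ∧ n = 1 ∧ p = 5 ∧ q = 4) ∨ (j = 6 ∧ n = 1 ∧ p = 5 ∧ q = 5))) ∨ ((((j = 6 ∧ n = 1 ∧ p = 5 ∧ q = 6) ∨ (j = 6 ∧ n = 1 ∧ p = 6 ∧ q = 4)) ∨ (j = 6 ∧ n = 1 ∧ p = 6 ∧ q = 5)) ∨ ((j = 6 ∧ n = 1 ∧ p = 6 ∧ q = 6) ∨ (j = 6 ∧ n = 1 ∧ p = 7 ∧ q = 5)))) ∨ (((((j = 6 ∧ n = 1 ∧ p = 7 ∧ q = 6) ∨ (j = 6 ∧ n = 1 ∧ p = 8 ∧ q = 5)) ∨ (j = 6 ∧ n = 1 ∧ p = 8 ∧ q = 6)) ∨ ((j = 6 ∧ n = 2 ∧ p = 8 ∧ q = 4) ∨ (j = 6 ∧ n = 3 ∧ p = 5 ∧ q = 6))) ∨ (((j = 7 ∧ n = 1 ∧ p = 1 ∧ q = 1) ∨ (j = 7 ∧ n = 1 ∧ p = 1 ∧ q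 = 2)) ∨ ((j = 7 ∧ n = 1 ∧ p = 2 ∧ q = 1) ∨ (j = 7 ∧ n = 1 ∧ p = 2 ∧ q = 2))))) ∨ ((((((j = 7 ∧ n = 1 ∧ p = 2 ∧ q = 3) ∨ (j = 7 ∧ n = 1 ∧ p = 3 ∧ q = 1)) ∨ (j = 7 ∧ n = 1 ∧ p = 3 ∧ q = 2)) ∨ ((j = 7 ∧ n = 1 ∧ p = 3 ∧ q = 3) ∨ (j = 7 ∧ n = 1 ∧ p = 3 ∧ q = 4))) ∨ ((((j = 7 ∧ n = 1 ∧ p = 4 ∧ q = 2) ∨ (j = 7 ∧ n = 1 ∧ p = 4 ∧ q = 3)) ∨ (j = 7 ∧ n = 1 ∧ p = 4 ∧ q = 4)) ∨ ((j = 7 ∧ n = 1 ∧ p = 5 ∧ q = 4) ∨ (j = 7 ∧ n = 1 ∧ p = 5 ∧ q = 5)))) ∨ (((((j = 7 ∧ n = 1 ∧ p = 5 ∧ q = 6) ∨ (j = 7 ∧ n = 1 ∧ p = 6 ∧ q = 4)) ∨ (j = 7 ∧ n = 1 ∧ p = 6 ∧ q = 6)) ∨ ((j = 7 ∧ n = 1 ∧ p = 7 ∧ q = 5) ∨ (j = 7 ∧ n = 1 ∧ p = 7 ∧ q = 6))) ∨ (((j = 7 ∧ n = 1 ∧ p = 8 ∧ q = 6) ∨ (j = 7 ∧ n = 2 ∧ p = 1 ∧ q = 1)) ∨ ((j = 7 ∧ n = 2 ∧ p = 1 ∧ q = 2) ∨ (j = 7 ∧ n = 2 ∧ p = 2 ∧ q = 1)))))) ∨ (((((((j = 7 ∧ n = 2 ∧ p = 2 ∧ q = 2) ∨ (j = 7 ∧ n = 2 ∧ p =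 2 ∧ q = 3)) ∨ (j = 7 ∧ n = 2 ∧ p = 3 ∧ q = 1)) ∨ ((j = 7 ∧ n = 2 ∧ p = 3 ∧ q = 2) ∨ (j = 7 ∧ n = 2 ∧ p = 3 ∧ q = 3))) ∨ ((((j = 7 ∧ n = 2 ∧ p = 3 ∧ q = 4) ∨ (j = 7 ∧ n = 2 ∧ p = 4 ∧ q = 2)) ∨ (j = 7 ∧ n = 2 ∧ p = 4 ∧ q = 3)) ∨ ((j = 7 ∧ n = 2 ∧ p = 4 ∧ q = 4) ∨ (j = 7 ∧ n = 2 ∧ p = 5 ∧ q = 3)))) ∨ (((((j = 7 ∧ n = 2 ∧ p = 5 ∧ q = 4) ∨ (j = 7 ∧ n = 2 ∧ p = 5 ∧ q = 5)) ∨ (j = 7 ∧ n = 2 ∧ p = 5 ∧ q = 6)) ∨ ((j = 7 ∧ n = 2 ∧ p = 6 ∧ q = 4) ∨ (j = 7 ∧ n = 2 ∧ p = 6 ∧ q = 5))) ∨ (((j = 7 ∧ n = 2 ∧ p = 6 ∧ q = 6) ∨ (j = 7 ∧ n = 2 ∧ p = 7 ∧ q = 5)) ∨ ((j = 7 ∧ n = 2 ∧ p = 7 ∧ q = 6) ∨ (j = 7 ∧ n = 2 ∧ p = 8 ∧ q = 6))))) ∨ ((((((j = 7 ∧ n = 3 ∧ p = 8 ∧ q = 7) ∨ (j = 7 ∧ n = 4 ∧ p = 7 ∧ q = 7)) ∨ (j = 7 ∧ n = 4 ∧ p = 8 ∧ q = 7)) ∨ ((j = 8 ∧ n = 3 ∧ p = 7 ∧ q = 5) ∨ (j = 8 ∧ n = 3 ∧ p = 7 ∧ q = 6))) ∨ (((j = 8 ∧ n = 3 ∧ p =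 7 ∧ q = 7) ∨ (j = 8 ∧ n = 3 ∧ p = 8 ∧ q = 5)) ∨ ((j = 8 ∧ n = 3 ∧ p = 8 ∧ q = 6) ∨ (j = 8 ∧ n = 3 ∧ p = 8 ∧ q = 7)))) ∨ (((((j = 8 ∧ n = 3 ∧ p = 9 ∧ q = 5) ∨ (j = 8 ∧ n = 3 ∧ p = 9 ∧ q = 6)) ∨ (j = 9 ∧ n = 3 ∧ p = 7 ∧ q = 5)) ∨ ((j = 9 ∧ n = 3 ∧ p = 7 ∧ q = 6) ∨ (j = 9 ∧ n = 3 ∧ p = 7 ∧ q = 7))) ∨ (((j = 9 ∧ n = 3 ∧ p = 8 ∧ q = 6) ∨ (j = 9 ∧ n = 3 ∧ p = 8 ∧ q = 7)) ∨ ((j = 9 ∧ n = 4 ∧ p = 7 ∧ q = 7) ∨ (j = 9 ∧ n = 4 ∧ p = 8 ∧ q = 7))))))))))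
    589
    0x63a0305428005793a057e0006a7ca05830306b08007da4a06a78006a784054d03067600067604058403054d00054d04063f03054780054784090c8307da0007da04064383051100051104063a0305428005793a06a70006a704057500057a1a063a0305428005793a05798005798408da0307e30007e30405798306a28006a284063e83054700054704058403045580045584054c8306758006758405840304558005835206ac0006ac0402c50303ee0003ee04030083042980042984064403054c80054c84063f8305480005480408908306398006398402f103041a00041a04063f83067100067104033183045a80045a8408da0307e300090cca06b10006b104089583063e80063e84088c03063500063504030003042900042904052000064dd2051f00064842089a8306438006438406480306488006488406a883057a00057a04089a8306438006438104df8004df8402fb8304248004248408a90307b20007b20408a48308d68008d684089603060d80060d84089103063a00063a04057b03044c80044c84089a8306128006128402f6830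41f80041f840b5e0308d58008d58408a483064d80064d840b628308da0008da0403270304500004500402c90303f20003f20402fa0304230004230408a483064d80064d81051b00051b0402f603041f00041f0402ff83042880042884089a83061200061204032303044c00044c0402c40303ed0003ed0408a00307a88007a884089f03064800064804032d0304560004560408a483061c00061c0402f503041e00041e0408da03090c00090c04089a83064400064404089f0306170006170403278304508004508403288304518004518402f183041a80041a8408a90307b18007b184033203045b00045b04089f0307a80007a804089583060d00060d0408a00306178006178402ff0304280004280408a003064900064904032c0304550004550408a48307ad0007ad0403308304598004598402c48303ed8003ed84032803045100045104089083060800060804088c0306038006038408910306088006088402f583041e80041e84089503063e00063e0402fa8304238004238402fb03042400042404089f03061680061684089603063f00063f04033103045a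00045a04032203044b80044b8408a48308d60008d60402f08304198004198408da0308da8008da840b5e8309078009078408a48307ad8007ad84089a8307a38007a384089503060c80060c840c8c000c8b000c83000c82000a070009cd0009c200077a00074900073f0004f20004e800044a800c8c0f0c8b0f0c830f0c820f0b5e870b5a070b2d070b2c870b28870b28070b27870a35870a34870a08070a07870a070f0a04070a03870a030709ff8709ff0709fe8709cd0f09c20f090c8709080708db0708a90708a48708a40708a007089f87089f07089b87089b07089a87089a07089607089587089507089187089107089087089007088c87088c07088b87088787088707087787087307087287086e87086d87086a07086987086907086487086407086387086007085f87085f07085e87085b07085a87085a0708560708558707e38707d98707a407077f87077f07077a0f077687077587076c87076b87076387076287074e87074e07074a0707498707490f074587074507074487074107074087074007073f87073f0f073b87073b07073a87073a070737070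73687073607073587073207073187073107072d07072c8706a88706a407067707067687067287067207067187063f87063b07063a87063587060e07060987060907060407058407057f87057e87057b07057687057587057487055287054e07054d87054987054907054887054507054487054407054387052487051b87051a8705118705108704f30704f28704f20f04ee8704ee0704ed8704ed0704e98704e90704e88704e80f04e50704e48704e40704e38704e08704e00704df0704db0704da87045687045207044d87044a8f042507042087042007041c07041b87041b07032d87032c87032b8703238703228703218702fc0702f70702f20702ed0702ca8702c98702c88702c08702bf8702be8702090702088702080702078702070702048702040702038702030702028701ff8701ff0701fe8701fe0701fd8701fb0701fa8701fa0701f98701f90701f88701f58701f50701f48701f40701d78701d70701d68701d60701d58701d30701d28701d20701d18701d10701d08701ce0701cd8701cd0701cc8701cc0701cb8701c98701c90701c88701c80701c78701c70701c40701c38701c30701c28701a60701a58701a50701a48701a40701a18701a10701a08701a007019f87019f07019c87019c07019b87019b07019a87019a07019787019707019687019607019587019287019207019187019107016e87016e07016a87016a07016987016907016607016587016507016487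 = true := by
  decide +kernel

theorem o2w4_cert {f : ℕ → ℕ → ℕ → ℕ → Prop} (hf : Rule f) {a0 b0 x0 y0 : ℕ}
    (ha : a0 % 2 = 0) (hb : b0 % 2 = 0) (hx : x0 % 2 = 0) (hy : y0 % 2 = 1)
    (h1 : ∀ j n p q : ℕ, InR 10 6 11 9 1 j n p q →
      ((((((j = 3 ∧ n = 4 ∧ p = 2 ∧ q = 1) ∨ (j = 4 ∧ n = 1 ∧ p = 4 ∧ q = 1)) ∨ ((j = 4 ∧ n = 1 ∧ p = 6 ∧ q = 3) ∨ (j = 6 ∧ n = 1 ∧ p = 5 ∧ q = 2))) ∨ (((j = 6 ∧ n = 1 ∧ p = 7 ∧ q = 4) ∨ (j = 6 ∧ n = 2 ∧ p = 7 ∧ q = 3)) ∨ (j = 8 ∧ n = 2 ∧ p = 5 ∧ q = 1))) ∨ ((((j = 8 ∧ n = 2 ∧ p = 7 ∧ q = 5) ∨ (j = 8 ∧ n = 3 ∧ p = 9 ∧ q = 4)) ∨ (j = 10 ∧ n = 4 ∧ p = 7 ∧ q = 5)) ∨ (((j = 10 ∧ n = 4 ∧ p = 7 ∧ q = 7) ∨ (j = 10 ∧ n = 4 ∧ p = 9 ∧ q = 5)) ∨ (j = 10 ∧ n = 4 ∧ p = 9 ∧ q = 7))))) →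
      f (a0 + j) (b0 + n) (x0 + p) (y0 + q))
    (h0 : ∀ j n p q : ℕ, InR 10 6 11 9 1 j n p q →
      (((((((((j = 1 ∨ (j = 2 ∧ n = 3 ∧ p = 1 ∧ q = 4)) ∨ (j = 2 ∧ n = 3 ∧ p = 2 ∧ q = 5)) ∨ ((j = 2 ∧ n = 3 ∧ p = 3 ∧ q = 6) ∨ (j = 2 ∧ n = 3 ∧ p = 4 ∧ q = 7))) ∨ ((((j = 3 ∧ n = 3 ∧ p = 2 ∧ q = 5) ∨ (j = 3 ∧ n = 3 ∧ p = 2 ∧ q = 6)) ∨ (j = 3 ∧ n = 3 ∧ p = 2 ∧ q = 7)) ∨ ((j = 3 ∧ n = 3 ∧ p = 3 ∧ q = 6) ∨ (j = 3 ∧ n = 3 ∧ p = 3 ∧ q = 7)))) ∨ (((((j = 3 ∧ n = 3 ∧ p = 4 ∧ q = 7) ∨ (j = 3 ∧ n = 4 ∧ p = 2 ∧ q = 7)) ∨ (j = 3 ∧ n = 4 ∧ p = 3 ∧ q = 7)) ∨ ((j = 3 ∧ n = 4 ∧ p = 4 ∧ q = 7) ∨ (j = 4 ∧ n = 1 ∧ p = 1 ∧ q = 1))) ∨ (((j = 4 ∧ n = 1 ∧ p = 1 ∧ q = 2) ∨ (j = 4 ∧ n = 1 ∧ p = 2 ∧ q = 1)) ∨ ((j = 4 ∧ n = 1 ∧ p = 2 ∧ q = 3) ∨ (j = 4 ∧ n = 1 ∧ p = 2 ∧ q = 4))))) ∨ ((((((j = 4 ∧ n = 1 ∧ p = 3 ∧ q = 1) ∨ (j = 4 ∧ n = 1 ∧ p = 3 ∧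 q = 2)) ∨ (j = 4 ∧ n = 1 ∧ p = 3 ∧ q = 3)) ∨ ((j = 4 ∧ n = 1 ∧ p = 3 ∧ q = 4) ∨ (j = 4 ∧ n = 1 ∧ p = 3 ∧ q = 5))) ∨ ((((j = 4 ∧ n = 1 ∧ p = 4 ∧ q = 2) ∨ (j = 4 ∧ n = 1 ∧ p = 4 ∧ q = 3)) ∨ (j = 4 ∧ n = 1 ∧ p = 4 ∧ q = 4)) ∨ ((j = 4 ∧ n = 1 ∧ p = 5 ∧ q = 2) ∨ (j = 4 ∧ n = 1 ∧ p = 5 ∧ q = 3)))) ∨ (((((j = 4 ∧ n = 1 ∧ p = 5 ∧ q = 4) ∨ (j = 4 ∧ n = 1 ∧ p = 5 ∧ q = 5)) ∨ (j = 4 ∧ n = 1 ∧ p = 6 ∧ q = 4)) ∨ ((j = 4 ∧ n = 1 ∧ p = 6 ∧ q = 5) ∨ (j = 4 ∧ n = 3 ∧ p = 2 ∧ q = 4))) ∨ (((j = 4 ∧ n = 3 ∧ p = 2 ∧ q = 5) ∨ (j = 4 ∧ n = 3 ∧ p = 2 ∧ q = 6)) ∨ ((j = 4 ∧ n = 3 ∧ p = 2 ∧ q = 7) ∨ (j = 4 ∧ n = 3 ∧ p = 3 ∧ q = 5)))))) ∨ (((((((j = 4 ∧ n = 3 ∧ p = 3 ∧ q = 6) ∨ (j = 4 ∧ n = 3 ∧ p = 3 ∧ q = 7)) ∨ (j = 4 ∧ n = 3 ∧ p = 4 ∧ q = 6)) ∨ ((j = 4 ∧ n = 3 ∧ p = 4 ∧ q = 7) ∨ (j = 4 ∧ n = 3 ∧ p = 5 ∧ q = 7))) ∨ ((((j = 4 ∧ n = 4 ∧ p = 3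 ∧ q = 7) ∨ (j = 4 ∧ n = 4 ∧ p = 5 ∧ q = 7)) ∨ (j = 5 ∧ n = 1 ∧ p = 1 ∧ q = 2)) ∨ ((j = 5 ∧ n = 1 ∧ p = 2 ∧ q = 3) ∨ (j = 5 ∧ n = 1 ∧ p = 2 ∧ q = 4)))) ∨ (((((j = 5 ∧ n = 1 ∧ p = 3 ∧ q = 4) ∨ (j = 5 ∧ n = 1 ∧ p = 3 ∧ q = 5)) ∨ (j = 5 ∧ n = 1 ∧ p = 4 ∧ q = 5)) ∨ ((j = 5 ∧ n = 2 ∧ p = 1 ∧ q = 2) ∨ (j = 5 ∧ n = 2 ∧ p = 2 ∧ q = 3))) ∨ (((j = 5 ∧ n = 2 ∧ p = 2 ∧ q = 4) ∨ (j = 5 ∧ n = 2 ∧ p = 3 ∧ q = 4)) ∨ ((j = 5 ∧ n = 2 ∧ p = 3 ∧ q = 5) ∨ (j = 5 ∧ n = 2 ∧ p = 4 ∧ q = 5))))) ∨ ((((((j = 5 ∧ n = 3 ∧ p = 3 ∧ q = 5) ∨ (j = 5 ∧ n = 3 ∧ p = 3 ∧ q = 6)) ∨ (j = 5 ∧ n = 3 ∧ p = 3 ∧ q = 7)) ∨ ((j = 5 ∧ n = 3 ∧ p = 4 ∧ q = 6) ∨ (j = 5 ∧ n = 3 ∧ p = 4 ∧ q = 7))) ∨ (((j = 5 ∧ n = 4 ∧ p = 3 ∧ q = 7) ∨ (j = 5 ∧ n = 4 ∧ p = 4 ∧ q = 7)) ∨ ((j = 6 ∧ n = 1 ∧ p = 1 ∧ q = 1) ∨ (j = 6 ∧ n = 1 ∧ p = 1 ∧ q = 2)))) ∨ (((((j = 6 ∧ n = 1 ∧ p = 2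 ∧ q = 1) ∨ (j = 6 ∧ n = 1 ∧ p = 2 ∧ q = 2)) ∨ (j = 6 ∧ n = 1 ∧ p = 2 ∧ q = 3)) ∨ ((j = 6 ∧ n = 1 ∧ p = 3 ∧ q = 1) ∨ (j = 6 ∧ n = 1 ∧ p = 3 ∧ q = 2))) ∨ (((j = 6 ∧ n = 1 ∧ p = 3 ∧ q = 3) ∨ (j = 6 ∧ n = 1 ∧ p = 3 ∧ q = 4)) ∨ ((j = 6 ∧ n = 1 ∧ p = 4 ∧ q = 1) ∨ (j = 6 ∧ n = 1 ∧ p = 4 ∧ q = 2))))))) ∨ ((((((((j = 6 ∧ n = 1 ∧ p = 4 ∧ q = 3) ∨ (j = 6 ∧ n = 1 ∧ p = 4 ∧ q = 4)) ∨ (j = 6 ∧ n = 1 ∧ p = 5 ∧ q = 3)) ∨ ((j = 6 ∧ n = 1 ∧ p = 5 ∧ q = 4) ∨ (j = 6 ∧ n = 1 ∧ p = 5 ∧ q = 5))) ∨ ((((j = 6 ∧ n = 1 ∧ p = 5 ∧ q = 6) ∨ (j = 6 ∧ n = 1 ∧ p = 6 ∧ q = 4)) ∨ (j = 6 ∧ n = 1 ∧ p = 6 ∧ q = 5)) ∨ ((j = 6 ∧ n = 1 ∧ p = 6 ∧ q = 6) ∨ (j = 6 ∧ n = 1 ∧ p = 7 ∧ q = 5)))) ∨ (((((j = 6 ∧ n = 1 ∧ p = 7 ∧ q = 6) ∨ (j = 6 ∧ n = 1 ∧ p = 8 ∧ q = 5)) ∨ (j = 6 ∧ n = 1 ∧ p = 8 ∧ q = 6)) ∨ ((j = 6 ∧ n = 2 ∧ p = 8 ∧ q = 4) ∨ (j = 6 ∧ n = 3 ∧ p = 5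 ∧ q = 6))) ∨ (((j = 7 ∧ n = 1 ∧ p = 1 ∧ q = 1) ∨ (j = 7 ∧ n = 1 ∧ p = 1 ∧ q = 2)) ∨ ((j = 7 ∧ n = 1 ∧ p = 2 ∧ q = 1) ∨ (j = 7 ∧ n = 1 ∧ p = 2 ∧ q = 2))))) ∨ ((((((j = 7 ∧ n = 1 ∧ p = 2 ∧ q = 3) ∨ (j = 7 ∧ n = 1 ∧ p = 3 ∧ q = 1)) ∨ (j = 7 ∧ n = 1 ∧ p = 3 ∧ q = 2)) ∨ ((j = 7 ∧ n = 1 ∧ p = 3 ∧ q = 3) ∨ (j = 7 ∧ n = 1 ∧ p = 3 ∧ q = 4))) ∨ ((((j = 7 ∧ n = 1 ∧ p = 4 ∧ q = 2) ∨ (j = 7 ∧ n = 1 ∧ p = 4 ∧ q = 3)) ∨ (j = 7 ∧ n = 1 ∧ p = 4 ∧ q = 4)) ∨ ((j = 7 ∧ n = 1 ∧ p = 5 ∧ q = 4) ∨ (j = 7 ∧ n = 1 ∧ p = 5 ∧ q = 5)))) ∨ (((((j = 7 ∧ n = 1 ∧ p = 5 ∧ q = 6) ∨ (j = 7 ∧ n = 1 ∧ p = 6 ∧ q = 4)) ∨ (j = 7 ∧ n = 1 ∧ p = 6 ∧ q = 6)) ∨ ((j = 7 ∧ n = 1 ∧ p = 7 ∧ q = 5) ∨ (j = 7 ∧ n = 1 ∧ p = 7 ∧ q = 6))) ∨ (((j = 7 ∧ n = 1 ∧ p = 8 ∧ q = 6) ∨ (j = 7 ∧ n = 2 ∧ p = 1 ∧ q = 1)) ∨ ((j = 7 ∧ n = 2 ∧ p = 1 ∧ q = 2) ∨ (j = 7 ∧ n = 2 ∧ p = 2 ∧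 q = 1)))))) ∨ (((((((j = 7 ∧ n = 2 ∧ p = 2 ∧ q = 2) ∨ (j = 7 ∧ n = 2 ∧ p = 2 ∧ q = 3)) ∨ (j = 7 ∧ n = 2 ∧ p = 3 ∧ q = 1)) ∨ ((j = 7 ∧ n = 2 ∧ p = 3 ∧ q = 2) ∨ (j = 7 ∧ n = 2 ∧ p = 3 ∧ q = 3))) ∨ ((((j = 7 ∧ n = 2 ∧ p = 3 ∧ q = 4) ∨ (j = 7 ∧ n = 2 ∧ p = 4 ∧ q = 2)) ∨ (j = 7 ∧ n = 2 ∧ p = 4 ∧ q = 3)) ∨ ((j = 7 ∧ n = 2 ∧ p = 4 ∧ q = 4) ∨ (j = 7 ∧ n = 2 ∧ p = 5 ∧ q = 3)))) ∨ (((((j = 7 ∧ n = 2 ∧ p = 5 ∧ q = 4) ∨ (j = 7 ∧ n = 2 ∧ p = 5 ∧ q = 5)) ∨ (j = 7 ∧ n = 2 ∧ p = 5 ∧ q = 6)) ∨ ((j = 7 ∧ n = 2 ∧ p = 6 ∧ q = 4) ∨ (j = 7 ∧ n = 2 ∧ p = 6 ∧ q = 5))) ∨ (((j = 7 ∧ n = 2 ∧ p = 6 ∧ q = 6) ∨ (j = 7 ∧ n = 2 ∧ p = 7 ∧ q = 5)) ∨ ((j = 7 ∧ n = 2 ∧ p = 7 ∧ q = 6) ∨ (j = 7 ∧ n = 2 ∧ p = 8 ∧ q = 6))))) ∨ ((((((j = 7 ∧ n = 3 ∧ p = 8 ∧ q = 7) ∨ (j = 7 ∧ n = 4 ∧ p = 7 ∧ q = 7)) ∨ (j = 7 ∧ n = 4 ∧ p = 8 ∧ q = 7)) ∨ ((j = 8 ∧ n = 3 ∧ p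 = 7 ∧ q = 5) ∨ (j = 8 ∧ n = 3 ∧ p = 7 ∧ q = 6))) ∨ (((j = 8 ∧ n = 3 ∧ p = 7 ∧ q = 7) ∨ (j = 8 ∧ n = 3 ∧ p = 8 ∧ q = 5)) ∨ ((j = 8 ∧ n = 3 ∧ p = 8 ∧ q = 6) ∨ (j = 8 ∧ n = 3 ∧ p = 8 ∧ q = 7)))) ∨ (((((j = 8 ∧ n = 3 ∧ p = 9 ∧ q = 5) ∨ (j = 8 ∧ n = 3 ∧ p = 9 ∧ q = 6)) ∨ (j = 9 ∧ n = 3 ∧ p = 7 ∧ q = 5)) ∨ ((j = 9 ∧ n = 3 ∧ p = 7 ∧ q = 6) ∨ (j = 9 ∧ n = 3 ∧ p = 7 ∧ q = 7))) ∨ (((j = 9 ∧ n = 3 ∧ p = 8 ∧ q = 6) ∨ (j = 9 ∧ n = 3 ∧ p = 8 ∧ q = 7)) ∨ ((j = 9 ∧ n = 4 ∧ p = 7 ∧ q = 7) ∨ (j = 9 ∧ n = 4 ∧ p = 8 ∧ q = 7))))))))) →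
      ¬ f (a0 + j) (b0 + n) (x0 + p) (y0 + q)) : False :=
  check_sound hf o2w4_cert_chk
    ⟨fun h => absurd h (by decide), fun h => absurd h (by decide),
      fun h => absurd h (by decide), ha, hb, hx, hy⟩
    (fun j n p q hr h => h1 j n p q hr (of_decide_eq_true h))
    (fun j n p q hr h => h0 j n p q hr (of_decide_eq_true h))

end Pool.Agent.SNT.Loc

namespace Pool.Agent.SNT.O2W

open Pool.Agent.SNT Pool.Agent.SNT.Sig Pool.Agent.SNT.ZoneT Pool.Agent.SNT.ZoneI Pool.Agent.SNT.LW Pool.Agent.SNT.NHZ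

variable {f : ℕ → ℕ → ℕ → ℕ → Prop} {k b m : ℕ}

/-- the cell `d = 2 k - 2` of the line `y = 2 n - 2` of `6 k + 1` in the row `c + 2` -/
theorem out2_w4 (hf : Rule f) (hs : Side k b m) (S : Stack6 f k b m 0 0 0 0 0 1) {n : ℕ}
    (hn : n = m + 9 + (k + 2) * 4)
    (d0 : Cyc f (6 * k) (b + 16) (2 * (n - 7) + 2)) (d2 : Cyc f (6 * k + 2) (b + 18) (2 * (n - 4) + 2))
    (d4 : Cyc f (6 * k + 4) (b + 20) (2 * (n + 1) + 2))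
    (hp2 : ∀ x : ℕ, x % 2 = 1 → 2 * n + 9 ≤ x → x + 1 ≤ 2 * n + 2 * k → ¬ f (6 * k + 2) (b + 24) x (2 * n + 4))
    (hp6 : ∀ x : ℕ, x % 2 = 1 → 2 * n + 7 ≤ x → x + 1 ≤ 2 * n + 2 * k → ¬ f (6 * k + 6) (b + 24) x (2 * n + 4)) :
    ¬ f (6 * k + 1) (b + 24) (2 * n + 2 * k - 4) (2 * n - 2) := by
  intro h
  have Z := NHT.of_stack hs S
  have U := NHU.of_stack hs S
  obtain ⟨hk, hb, h4, hb2, hm⟩ := hs
  have hlw : ∀ L R x y : ℕ, L + 1 = 6 * k → b ≤ R → R ≤ b + 40 → 2 * m ≤ x → y ≤ x →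
      x ≤ y + 3 * k → ¬ f L R x y := by
    intro L R x y hM h2 h3 h4' h5 h6 h
    have e : L = 6 * k - 1 := by omega
    have e2 : R = b + (R - b) := by omega
    rw [e, e2] at h
    have h7 := (S.lw (R - b) (by omega) x y (by rw [max_eq_left h5]; omega)).1 h
    exact Fst_near_odd (by omega) (by rw [max_eq_left h5, min_eq_right h5]; omega) h7
  have y2_5 : Lay (6 * k + 2) (b + 18) k := ⟨by omega, by omega, by omega, by omega⟩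
  have y4_3 : Lay (6 * k + 4) (b + 4 * 5) k := ⟨by omega, by omega, by omega, by omega⟩
  have y6_3 : Lay (6 * k + 6) (b + 2 + 4 * 5) (k + 1) := ⟨by omega, by omega, by omega, by omega⟩
  have y8_3 : Lay (6 * k + 8) (b + 4 + 4 * 5) (k + 1) := ⟨by omega, by omega, by omega, by omega⟩
  obtain ⟨n1, rfl⟩ : ∃ n1, n = n1 + 7 := ⟨n - 7, by omega⟩
  rw [show n1 + 7 - 7 = n1 from rfl] at d0
  rw [show n1 + 7 - 4 = n1 + 3 from rfl] at d2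
  obtain ⟨x0, ex⟩ : ∃ x0, x0 + 6 = 2 * (n1 + 7) + 2 * k := ⟨2 * (n1 + 7) + 2 * k - 6, by omega⟩
  obtain ⟨y0, ey⟩ : ∃ y0, y0 + 3 = 2 * (n1 + 7) := ⟨2 * (n1 + 7) - 3, by omega⟩
  obtain ⟨a0, ea⟩ : ∃ a0, a0 + 2 = 6 * k := ⟨6 * k - 2, by omega⟩
  refine Loc.o2w4_cert hf (a0 := a0) (b0 := b + 20) (x0 := x0) (y0 := y0) (by omega) (by omega)
    (by omega) (by omega) ?_ ?_
  · intro j n p q _ hx
    rcases hx with ((((⟨rfl, rfl, rfl, rfl⟩ | ⟨rfl, rfl, rfl, rfl⟩) | (⟨rfl, rfl, rfl, rfl⟩ | ⟨rfl, rfl, rfl, rfl⟩)) | ((⟨rfl, rfl, rfl, rfl⟩ | ⟨rfl, rfl, rfl, rfl⟩) | 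
      ⟨rfl, rfl, rfl, rfl⟩)) | (((⟨rfl, rfl, rfl, rfl⟩ | ⟨rfl, rfl, rfl, rfl⟩) | ⟨rfl, rfl, rfl, rfl⟩) | ((⟨rfl, rfl, rfl, rfl⟩ | ⟨rfl, rfl, rfl, rfl⟩) | 
      ⟨rfl, rfl, rfl, rfl⟩)))
    · exact mv h (by omega) (by omega) (by omega) (by omega)
    · exact (v3x y2_5 d2 (by omega) (by omega) (by omega) (by omega) (by omega)).2 (by unfold V3; omega)
    · exact (v3x y2_5 d2 (by omega) (by omega) (by omega) (by omega) (by omega)).2 (by unfold V3; omega)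
    · exact (v1 y4_3 (S.l4 5) (by omega) (by omega) (by omega) (by omega) (by omega)).2 (by unfold V1; omega)
    · exact (v1 y4_3 (S.l4 5) (by omega) (by omega) (by omega) (by omega) (by omega)).2 (by unfold V1; omega)
    · exact (v2x y4_3 (S.l4 5) (by omega) (by omega) (by omega) (by omega) (by omega) (by omega)).2 (by unfold V2; omega)
    · exact (v0 y6_3 (S.l6 5) (by omega) (by omega) (by omega) (by omega) (by omega)).2 (by unfold V0; omega)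
    · exact (v0 y6_3 (S.l6 5) (by omega) (by omega) (by omega) (by omega) (by omega)).2 (by unfold V0; omega)
    · exact (v1 y6_3 (S.l6 5) (by omega) (by omega) (by omega) (by omega) (by omega)).2 (by unfold V1; omega)
    · exact (w0 y8_3 (S.l8 5) (by omega) (by omega) (by omega) (by omega) (by omega) (by omega)).2 (by unfold V0; omega)
    · exact (w0 y8_3 (S.l8 5) (by omega) (by omega) (by omega) (by omega) (by omega) (by omega)).2 (by unfold V0; omega)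
    · exact (w0 y8_3 (S.l8 5) (by omega) (by omega) (by omega) (by omega) (by omega) (by omega)).2 (by unfold V0; omega)
    · exact (w0 y8_3 (S.l8 5) (by omega) (by omega) (by omega) (by omega) (by omega) (by omega)).2 (by unfold V0; omega)
  · intro j n p q hr hx
    rcases hx with ((((((((rfl | ⟨rfl, rfl, rfl, rfl⟩) | ⟨rfl, rfl, rfl, rfl⟩) | (⟨rfl, rfl, rfl, rfl⟩ | ⟨rfl, rfl, rfl, rfl⟩)) | (((⟨rfl, rfl, rfl, rfl⟩ | 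
      ⟨rfl, rfl, rfl, rfl⟩) | ⟨rfl, rfl, rfl, rfl⟩) | (⟨rfl, rfl, rfl, rfl⟩ | ⟨rfl, rfl, rfl, rfl⟩))) | ((((⟨rfl, rfl, rfl, rfl⟩ | ⟨rfl, rfl, rfl, rfl⟩) | 
      ⟨rfl, rfl, rfl, rfl⟩) | (⟨rfl, rfl, rfl, rfl⟩ | ⟨rfl, rfl, rfl, rfl⟩)) | ((⟨rfl, rfl, rfl, rfl⟩ | ⟨rfl, rfl, rfl, rfl⟩) | (⟨rfl, rfl, rfl, rfl⟩ | 
      ⟨rfl, rfl, rfl, rfl⟩)))) | (((((⟨rfl, rfl, rfl, rfl⟩ | ⟨rfl, rfl, rfl, rfl⟩) | ⟨rfl, rfl, rfl, rfl⟩) | (⟨rfl, rfl, rfl, rfl⟩ | ⟨rfl, rfl, rfl, rfl⟩)) | 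
      (((⟨rfl, rfl, rfl, rfl⟩ | ⟨rfl, rfl, rfl, rfl⟩) | ⟨rfl, rfl, rfl, rfl⟩) | (⟨rfl, rfl, rfl, rfl⟩ | ⟨rfl, rfl, rfl, rfl⟩))) | ((((⟨rfl, rfl, rfl, rfl⟩ | 
      ⟨rfl, rfl, rfl, rfl⟩) | ⟨rfl, rfl, rfl, rfl⟩) | (⟨rfl, rfl, rfl, rfl⟩ | ⟨rfl, rfl, rfl, rfl⟩)) | ((⟨rfl, rfl, rfl, rfl⟩ | ⟨rfl, rfl, rfl, rfl⟩) | 
      (⟨rfl, rfl, rfl, rfl⟩ | ⟨rfl, rfl, rfl, rfl⟩))))) | ((((((⟨rfl, rfl, rfl, rfl⟩ | ⟨rfl, rfl, rfl, rfl⟩) | ⟨rfl, rfl, rfl, rfl⟩) | (⟨rfl, rfl, rfl, rfl⟩ | 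
      ⟨rfl, rfl, rfl, rfl⟩)) | (((⟨rfl, rfl, rfl, rfl⟩ | ⟨rfl, rfl, rfl, rfl⟩) | ⟨rfl, rfl, rfl, rfl⟩) | (⟨rfl, rfl, rfl, rfl⟩ | ⟨rfl, rfl, rfl, rfl⟩))) | 
      ((((⟨rfl, rfl, rfl, rfl⟩ | ⟨rfl, rfl, rfl, rfl⟩) | ⟨rfl, rfl, rfl, rfl⟩) | (⟨rfl, rfl, rfl, rfl⟩ | ⟨rfl, rfl, rfl, rfl⟩)) | ((⟨rfl, rfl, rfl, rfl⟩ | 
      ⟨rfl, rfl, rfl, rfl⟩) | (⟨rfl, rfl, rfl, rfl⟩ | ⟨rfl, rfl, rfl, rfl⟩)))) | (((((⟨rfl, rfl, rfl, rfl⟩ | ⟨rfl, rfl, rfl, rfl⟩) | ⟨rfl, rfl, rfl, rfl⟩) | 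
      (⟨rfl, rfl, rfl, rfl⟩ | ⟨rfl, rfl, rfl, rfl⟩)) | ((⟨rfl, rfl, rfl, rfl⟩ | ⟨rfl, rfl, rfl, rfl⟩) | (⟨rfl, rfl, rfl, rfl⟩ | ⟨rfl, rfl, rfl, rfl⟩))) | 
      ((((⟨rfl, rfl, rfl, rfl⟩ | ⟨rfl, rfl, rfl, rfl⟩) | ⟨rfl, rfl, rfl, rfl⟩) | (⟨rfl, rfl, rfl, rfl⟩ | ⟨rfl, rfl, rfl, rfl⟩)) | ((⟨rfl, rfl, rfl, rfl⟩ | 
      ⟨rfl, rfl, rfl, rfl⟩) | (⟨rfl, rfl, rfl, rfl⟩ | ⟨rfl, rfl, rfl, rfl⟩)))))) | (((((((⟨rfl, rfl, rfl, rfl⟩ | ⟨rfl, rfl, rfl, rfl⟩) | ⟨rfl, rfl, rfl, rfl⟩) | 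
      (⟨rfl, rfl, rfl, rfl⟩ | ⟨rfl, rfl, rfl, rfl⟩)) | (((⟨rfl, rfl, rfl, rfl⟩ | ⟨rfl, rfl, rfl, rfl⟩) | ⟨rfl, rfl, rfl, rfl⟩) | (⟨rfl, rfl, rfl, rfl⟩ | 
      ⟨rfl, rfl, rfl, rfl⟩))) | ((((⟨rfl, rfl, rfl, rfl⟩ | ⟨rfl, rfl, rfl, rfl⟩) | ⟨rfl, rfl, rfl, rfl⟩) | (⟨rfl, rfl, rfl, rfl⟩ | ⟨rfl, rfl, rfl, rfl⟩)) | 
      ((⟨rfl, rfl, rfl, rfl⟩ | ⟨rfl, rfl, rfl, rfl⟩) | (⟨rfl, rfl, rfl, rfl⟩ | ⟨rfl, rfl, rfl, rfl⟩)))) | (((((⟨rfl, rfl, rfl, rfl⟩ | ⟨rfl, rfl, rfl, rfl⟩) | 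
      ⟨rfl, rfl, rfl, rfl⟩) | (⟨rfl, rfl, rfl, rfl⟩ | ⟨rfl, rfl, rfl, rfl⟩)) | (((⟨rfl, rfl, rfl, rfl⟩ | ⟨rfl, rfl, rfl, rfl⟩) | ⟨rfl, rfl, rfl, rfl⟩) | 
      (⟨rfl, rfl, rfl, rfl⟩ | ⟨rfl, rfl, rfl, rfl⟩))) | ((((⟨rfl, rfl, rfl, rfl⟩ | ⟨rfl, rfl, rfl, rfl⟩) | ⟨rfl, rfl, rfl, rfl⟩) | (⟨rfl, rfl, rfl, rfl⟩ | 
      ⟨rfl, rfl, rfl, rfl⟩)) | ((⟨rfl, rfl, rfl, rfl⟩ | ⟨rfl, rfl, rfl, rfl⟩) | (⟨rfl, rfl, rfl, rfl⟩ | ⟨rfl, rfl, rfl, rfl⟩))))) | ((((((⟨rfl, rfl, rfl, rfl⟩ | 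
      ⟨rfl, rfl, rfl, rfl⟩) | ⟨rfl, rfl, rfl, rfl⟩) | (⟨rfl, rfl, rfl, rfl⟩ | ⟨rfl, rfl, rfl, rfl⟩)) | (((⟨rfl, rfl, rfl, rfl⟩ | ⟨rfl, rfl, rfl, rfl⟩) | 
      ⟨rfl, rfl, rfl, rfl⟩) | (⟨rfl, rfl, rfl, rfl⟩ | ⟨rfl, rfl, rfl, rfl⟩))) | ((((⟨rfl, rfl, rfl, rfl⟩ | ⟨rfl, rfl, rfl, rfl⟩) | ⟨rfl, rfl, rfl, rfl⟩) | 
      (⟨rfl, rfl, rfl, rfl⟩ | ⟨rfl, rfl, rfl, rfl⟩)) | ((⟨rfl, rfl, rfl, rfl⟩ | ⟨rfl, rfl, rfl, rfl⟩) | (⟨rfl, rfl, rfl, rfl⟩ | ⟨rfl, rfl, rfl, rfl⟩)))) | 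
      (((((⟨rfl, rfl, rfl, rfl⟩ | ⟨rfl, rfl, rfl, rfl⟩) | ⟨rfl, rfl, rfl, rfl⟩) | (⟨rfl, rfl, rfl, rfl⟩ | ⟨rfl, rfl, rfl, rfl⟩)) | ((⟨rfl, rfl, rfl, rfl⟩ | 
      ⟨rfl, rfl, rfl, rfl⟩) | (⟨rfl, rfl, rfl, rfl⟩ | ⟨rfl, rfl, rfl, rfl⟩))) | ((((⟨rfl, rfl, rfl, rfl⟩ | ⟨rfl, rfl, rfl, rfl⟩) | ⟨rfl, rfl, rfl, rfl⟩) | 
      (⟨rfl, rfl, rfl, rfl⟩ | ⟨rfl, rfl, rfl, rfl⟩)) | ((⟨rfl, rfl, rfl, rfl⟩ | ⟨rfl, rfl, rfl, rfl⟩) | (⟨rfl, rfl, rfl, rfl⟩ | ⟨rfl, rfl, rfl, rfl⟩)))))))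
    · obtain ⟨r1, r2, r3, r4, r5, r6, r7, r8⟩ := hr
      exact hlw _ _ _ _ (by omega) (by omega) (by omega) (by omega) (by omega) (by omega)
    · exact Z.rOut hf (t := 4) (p := 0) (j := 4) (by omega) (by omega) (by omega) (by omega) (by omega) (by omega) (by omega) (by omega)
    · exact Z.rOut hf (t := 4) (p := 0) (j := 4) (by omega) (by omega) (by omega) (by omega) (by omega) (by omega) (by omega) (by omega)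
    · exact Z.rOut hf (t := 4) (p := 0) (j := 4) (by omega) (by omega) (by omega) (by omega) (by omega) (by omega) (by omega) (by omega)
    · exact Z.rOut hf (t := 4) (p := 0) (j := 4) (by omega) (by omega) (by omega) (by omega) (by omega) (by omega) (by omega) (by omega)
    · exact Z.rOut hf (t := 4) (p := 1) (j := 4) (by omega) (by omega) (by omega) (by omega) (by omega) (by omega) (by omega) (by omega)
    · exact Z.rOut hf (t := 4) (p := 1) (j := 4) (by omega) (by omega) (by omega) (by omega) (by omega) (by omega) (by omega) (by omega)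
    · exact Z.p2 hf (j := 4) (by omega) (by omega) (by omega) (by omega) (by omega) (by omega)
    · exact Z.rOut hf (t := 4) (p := 1) (j := 4) (by omega) (by omega) (by omega) (by omega) (by omega) (by omega) (by omega) (by omega)
    · exact Z.p2 hf (j := 4) (by omega) (by omega) (by omega) (by omega) (by omega) (by omega)
    · exact Z.p2 hf (j := 4) (by omega) (by omega) (by omega) (by omega) (by omega) (by omega)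
    · exact Z.p2 hf (j := 4) (by omega) (by omega) (by omega) (by omega) (by omega) (by omega)
    · exact Z.p2 hf (j := 4) (by omega) (by omega) (by omega) (by omega) (by omega) (by omega)
    · exact Z.p2 hf (j := 4) (by omega) (by omega) (by omega) (by omega) (by omega) (by omega)
    · exact fun t => absurd ((v3s y2_5 d2 (by omega) (by omega) (by omega) (by omega) (by omega) (by omega)).1 t) (by unfold V3; omega)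
    · exact fun t => absurd ((v3s y2_5 d2 (by omega) (by omega) (by omega) (by omega) (by omega) (by omega)).1 t) (by unfold V3; omega)
    · exact fun t => absurd ((v3s y2_5 d2 (by omega) (by omega) (by omega) (by omega) (by omega) (by omega)).1 t) (by unfold V3; omega)
    · exact fun t => absurd ((v3s y2_5 d2 (by omega) (by omega) (by omega) (by omega) (by omega) (by omega)).1 t) (by unfold V3; omega)
    · exact fun t => absurd ((v3s y2_5 d2 (by omega) (by omega) (by omega) (by omega) (by omega) (by omega)).1 t) (by unfold V3; omega)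
    · exact fun t => absurd ((v3s y2_5 d2 (by omega) (by omega) (by omega) (by omega) (by omega) (by omega)).1 t) (by unfold V3; omega)
    · exact fun t => absurd ((v3s y2_5 d2 (by omega) (by omega) (by omega) (by omega) (by omega) (by omega)).1 t) (by unfold V3; omega)
    · exact fun t => absurd ((v3s y2_5 d2 (by omega) (by omega) (by omega) (by omega) (by omega) (by omega)).1 t) (by unfold V3; omega)
    · exact fun t => absurd ((v3s y2_5 d2 (by omega) (by omega) (by omega) (by omega) (by omega) (by omega)).1 t) (by unfold V3; omega)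
    · exact fun t => absurd ((v3s y2_5 d2 (by omega) (by omega) (by omega) (by omega) (by omega) (by omega)).1 t) (by unfold V3; omega)
    · exact fun t => absurd ((v3s y2_5 d2 (by omega) (by omega) (by omega) (by omega) (by omega) (by omega)).1 t) (by unfold V3; omega)
    · exact fun t => absurd ((v3s y2_5 d2 (by omega) (by omega) (by omega) (by omega) (by omega) (by omega)).1 t) (by unfold V3; omega)
    · exact fun t => absurd ((v3s y2_5 d2 (by omega) (by omega) (by omega) (by omega) (by omega) (by omega)).1 t) (by unfold V3; omega)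
    · exact fun t => absurd ((v3x y2_5 d2 (by omega) (by omega) (by omega) (by omega) (by omega)).1 t) (by unfold V3; omega)
    · exact fun t => absurd ((v3s y2_5 d2 (by omega) (by omega) (by omega) (by omega) (by omega) (by omega)).1 t) (by unfold V3; omega)
    · exact fun t => absurd ((v3s y2_5 d2 (by omega) (by omega) (by omega) (by omega) (by omega) (by omega)).1 t) (by unfold V3; omega)
    · exact fun t => absurd ((v3s y2_5 d2 (by omega) (by omega) (by omega) (by omega) (by omega) (by omega)).1 t) (by unfold V3; omega)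
    · exact fun t => absurd ((v3s y2_5 d2 (by omega) (by omega) (by omega) (by omega) (by omega) (by omega)).1 t) (by unfold V3; omega)
    · exact fun t => absurd ((v3s y2_5 d2 (by omega) (by omega) (by omega) (by omega) (by omega) (by omega)).1 t) (by unfold V3; omega)
    · exact Z.rOut hf (t := 4) (p := 0) (j := 3) (by omega) (by omega) (by omega) (by omega) (by omega) (by omega) (by omega) (by omega)
    · exact Z.rOut hf (t := 4) (p := 0) (j := 3) (by omega) (by omega) (by omega) (by omega) (by omega) (by omega) (by omega) (by omega)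
    · exact Z.rOut hf (t := 4) (p := 0) (j := 3) (by omega) (by omega) (by omega) (by omega) (by omega) (by omega) (by omega) (by omega)
    · exact Z.rOut hf (t := 4) (p := 0) (j := 3) (by omega) (by omega) (by omega) (by omega) (by omega) (by omega) (by omega) (by omega)
    · exact Z.rOut hf (t := 4) (p := 0) (j := 3) (by omega) (by omega) (by omega) (by omega) (by omega) (by omega) (by omega) (by omega)
    · exact Z.rOut hf (t := 4) (p := 0) (j := 3) (by omega) (by omega) (by omega) (by omega) (by omega) (by omega) (by omega) (by omega)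
    · exact Z.rOut hf (t := 4) (p := 0) (j := 3) (by omega) (by omega) (by omega) (by omega) (by omega) (by omega) (by omega) (by omega)
    · exact Z.rOut hf (t := 4) (p := 0) (j := 3) (by omega) (by omega) (by omega) (by omega) (by omega) (by omega) (by omega) (by omega)
    · exact Z.rOut hf (t := 4) (p := 0) (j := 3) (by omega) (by omega) (by omega) (by omega) (by omega) (by omega) (by omega) (by omega)
    · exact Z.rOut hf (t := 4) (p := 0) (j := 3) (by omega) (by omega) (by omega) (by omega) (by omega) (by omega) (by omega) (by omega)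
    · exact fun t => hp2 _ (by omega) (by omega) (by omega) (mv t (by omega) (by omega) rfl (by omega))
    · exact fun t => hp2 _ (by omega) (by omega) (by omega) (mv t (by omega) (by omega) rfl (by omega))
    · exact Z.p0 hf (j := 2) (by omega) (by omega) (by omega) (by omega) (by omega) (by omega)
    · exact Z.p0 hf (j := 2) (by omega) (by omega) (by omega) (by omega) (by omega) (by omega)
    · exact Z.p0 hf (j := 2) (by omega) (by omega) (by omega) (by omega) (by omega) (by omega)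
    · exact Z.p0 hf (j := 2) (by omega) (by omega) (by omega) (by omega) (by omega) (by omega)
    · exact Z.p0 hf (j := 2) (by omega) (by omega) (by omega) (by omega) (by omega) (by omega)
    · exact Z.p0 hf (j := 2) (by omega) (by omega) (by omega) (by omega) (by omega) (by omega)
    · exact Z.p0 hf (j := 2) (by omega) (by omega) (by omega) (by omega) (by omega) (by omega)
    · exact Z.p0 hf (j := 2) (by omega) (by omega) (by omega) (by omega) (by omega) (by omega)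
    · exact Z.p0 hf (j := 2) (by omega) (by omega) (by omega) (by omega) (by omega) (by omega)
    · exact Z.p0 hf (j := 2) (by omega) (by omega) (by omega) (by omega) (by omega) (by omega)
    · exact Z.p0 hf (j := 2) (by omega) (by omega) (by omega) (by omega) (by omega) (by omega)
    · exact Z.p0 hf (j := 2) (by omega) (by omega) (by omega) (by omega) (by omega) (by omega)
    · exact Z.rOut hf (t := 4) (p := 1) (j := 3) (by omega) (by omega) (by omega) (by omega) (by omega) (by omega) (by omega) (by omega)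
    · exact Z.rOut hf (t := 4) (p := 1) (j := 3) (by omega) (by omega) (by omega) (by omega) (by omega) (by omega) (by omega) (by omega)
    · exact Z.p2 hf (j := 3) (by omega) (by omega) (by omega) (by omega) (by omega) (by omega)
    · exact Z.rOut hf (t := 4) (p := 1) (j := 3) (by omega) (by omega) (by omega) (by omega) (by omega) (by omega) (by omega) (by omega)
    · exact Z.p2 hf (j := 3) (by omega) (by omega) (by omega) (by omega) (by omega) (by omega)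
    · exact Z.p2 hf (j := 3) (by omega) (by omega) (by omega) (by omega) (by omega) (by omega)
    · exact Z.p2 hf (j := 3) (by omega) (by omega) (by omega) (by omega) (by omega) (by omega)
    · exact fun t => absurd ((v1 y4_3 (S.l4 5) (by omega) (by omega) (by omega) (by omega) (by omega)).1 t) (by unfold V1; omega)
    · exact fun t => absurd ((v1 y4_3 (S.l4 5) (by omega) (by omega) (by omega) (by omega) (by omega)).1 t) (by unfold V1; omega)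
    · exact fun t => absurd ((v1 y4_3 (S.l4 5) (by omega) (by omega) (by omega) (by omega) (by omega)).1 t) (by unfold V1; omega)
    · exact fun t => absurd ((v1 y4_3 (S.l4 5) (by omega) (by omega) (by omega) (by omega) (by omega)).1 t) (by unfold V1; omega)
    · exact fun t => absurd ((v1 y4_3 (S.l4 5) (by omega) (by omega) (by omega) (by omega) (by omega)).1 t) (by unfold V1; omega)
    · exact fun t => absurd ((v1 y4_3 (S.l4 5) (by omega) (by omega) (by omega) (by omega) (by omega)).1 t) (by unfold V1; omega)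
    · exact fun t => absurd ((v1 y4_3 (S.l4 5) (by omega) (by omega) (by omega) (by omega) (by omega)).1 t) (by unfold V1; omega)
    · exact fun t => absurd ((v1 y4_3 (S.l4 5) (by omega) (by omega) (by omega) (by omega) (by omega)).1 t) (by unfold V1; omega)
    · exact fun t => absurd ((v1 y4_3 (S.l4 5) (by omega) (by omega) (by omega) (by omega) (by omega)).1 t) (by unfold V1; omega)
    · exact fun t => absurd ((v1 y4_3 (S.l4 5) (by omega) (by omega) (by omega) (by omega) (by omega)).1 t) (by unfold V1; omega)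
    · exact fun t => absurd ((v1 y4_3 (S.l4 5) (by omega) (by omega) (by omega) (by omega) (by omega)).1 t) (by unfold V1; omega)
    · exact fun t => absurd ((v1 y4_3 (S.l4 5) (by omega) (by omega) (by omega) (by omega) (by omega)).1 t) (by unfold V1; omega)
    · exact fun t => absurd ((v1 y4_3 (S.l4 5) (by omega) (by omega) (by omega) (by omega) (by omega)).1 t) (by unfold V1; omega)
    · exact fun t => absurd ((v1 y4_3 (S.l4 5) (by omega) (by omega) (by omega) (by omega) (by omega)).1 t) (by unfold V1; omega)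
    · exact fun t => absurd ((v1 y4_3 (S.l4 5) (by omega) (by omega) (by omega) (by omega) (by omega)).1 t) (by unfold V1; omega)
    · exact fun t => absurd ((v1 y4_3 (S.l4 5) (by omega) (by omega) (by omega) (by omega) (by omega)).1 t) (by unfold V1; omega)
    · exact fun t => absurd ((v1 y4_3 (S.l4 5) (by omega) (by omega) (by omega) (by omega) (by omega)).1 t) (by unfold V1; omega)
    · exact fun t => absurd ((v1 y4_3 (S.l4 5) (by omega) (by omega) (by omega) (by omega) (by omega)).1 t) (by unfold V1; omega)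
    · exact fun t => absurd ((v1 y4_3 (S.l4 5) (by omega) (by omega) (by omega) (by omega) (by omega)).1 t) (by unfold V1; omega)
    · exact fun t => absurd ((v1 y4_3 (S.l4 5) (by omega) (by omega) (by omega) (by omega) (by omega)).1 t) (by unfold V1; omega)
    · exact fun t => absurd ((v1 y4_3 (S.l4 5) (by omega) (by omega) (by omega) (by omega) (by omega)).1 t) (by unfold V1; omega)
    · exact fun t => absurd ((v1 y4_3 (S.l4 5) (by omega) (by omega) (by omega) (by omega) (by omega)).1 t) (by unfold V1; omega)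
    · exact fun t => absurd ((v1 y4_3 (S.l4 5) (by omega) (by omega) (by omega) (by omega) (by omega)).1 t) (by unfold V1; omega)
    · exact fun t => absurd ((v1 y4_3 (S.l4 5) (by omega) (by omega) (by omega) (by omega) (by omega)).1 t) (by unfold V1; omega)
    · exact fun t => absurd ((v2x y4_3 (S.l4 5) (by omega) (by omega) (by omega) (by omega) (by omega) (by omega)).1 t) (by unfold V2; omega)
    · exact Z.rOut hf (t := 4) (p := 0) (j := 2) (by omega) (by omega) (by omega) (by omega) (by omega) (by omega) (by omega) (by omega)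
    · exact Z.p0 hf (j := 1) (by omega) (by omega) (by omega) (by omega) (by omega) (by omega)
    · exact Z.p0 hf (j := 1) (by omega) (by omega) (by omega) (by omega) (by omega) (by omega)
    · exact U.p0 hf (j := 1) (by omega) (by omega) (by omega) (by omega) (by omega) (by omega)
    · exact Z.p0 hf (j := 1) (by omega) (by omega) (by omega) (by omega) (by omega) (by omega)
    · exact Z.p0 hf (j := 1) (by omega) (by omega) (by omega) (by omega) (by omega) (by omega)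
    · exact U.p0 hf (j := 1) (by omega) (by omega) (by omega) (by omega) (by omega) (by omega)
    · exact U.p0 hf (j := 1) (by omega) (by omega) (by omega) (by omega) (by omega) (by omega)
    · exact Z.p0 hf (j := 1) (by omega) (by omega) (by omega) (by omega) (by omega) (by omega)
    · exact Z.p0 hf (j := 1) (by omega) (by omega) (by omega) (by omega) (by omega) (by omega)
    · exact U.p0 hf (j := 1) (by omega) (by omega) (by omega) (by omega) (by omega) (by omega)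
    · exact U.p0 hf (j := 1) (by omega) (by omega) (by omega) (by omega) (by omega) (by omega)
    · exact Z.p0 hf (j := 1) (by omega) (by omega) (by omega) (by omega) (by omega) (by omega)
    · exact U.p0 hf (j := 1) (by omega) (by omega) (by omega) (by omega) (by omega) (by omega)
    · exact Z.p0 hf (j := 1) (by omega) (by omega) (by omega) (by omega) (by omega) (by omega)
    · exact Z.p0 hf (j := 1) (by omega) (by omega) (by omega) (by omega) (by omega) (by omega)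
    · exact U.p0 hf (j := 1) (by omega) (by omega) (by omega) (by omega) (by omega) (by omega)
    · exact Z.p0 hf (j := 1) (by omega) (by omega) (by omega) (by omega) (by omega) (by omega)
    · exact U.p0 hf (j := 1) (by omega) (by omega) (by omega) (by omega) (by omega) (by omega)
    · exact U.p0 hf (j := 1) (by omega) (by omega) (by omega) (by omega) (by omega) (by omega)
    · exact U.p0 hf (j := 1) (by omega) (by omega) (by omega) (by omega) (by omega) (by omega)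
    · exact Z.p0 hf (j := 1) (by omega) (by omega) (by omega) (by omega) (by omega) (by omega)
    · exact Z.p0 hf (j := 1) (by omega) (by omega) (by omega) (by omega) (by omega) (by omega)
    · exact U.p0 hf (j := 1) (by omega) (by omega) (by omega) (by omega) (by omega) (by omega)
    · exact Z.p0 hf (j := 1) (by omega) (by omega) (by omega) (by omega) (by omega) (by omega)
    · exact Z.p0 hf (j := 1) (by omega) (by omega) (by omega) (by omega) (by omega) (by omega)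
    · exact U.p0 hf (j := 1) (by omega) (by omega) (by omega) (by omega) (by omega) (by omega)
    · exact U.p0 hf (j := 1) (by omega) (by omega) (by omega) (by omega) (by omega) (by omega)
    · exact Z.p0 hf (j := 1) (by omega) (by omega) (by omega) (by omega) (by omega) (by omega)
    · exact Z.p0 hf (j := 1) (by omega) (by omega) (by omega) (by omega) (by omega) (by omega)
    · exact U.p0 hf (j := 1) (by omega) (by omega) (by omega) (by omega) (by omega) (by omega)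
    · exact U.p0 hf (j := 1) (by omega) (by omega) (by omega) (by omega) (by omega) (by omega)
    · exact Z.p0 hf (j := 1) (by omega) (by omega) (by omega) (by omega) (by omega) (by omega)
    · exact U.p0 hf (j := 1) (by omega) (by omega) (by omega) (by omega) (by omega) (by omega)
    · exact U.p0 hf (j := 1) (by omega) (by omega) (by omega) (by omega) (by omega) (by omega)
    · exact Z.p0 hf (j := 1) (by omega) (by omega) (by omega) (by omega) (by omega) (by omega)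
    · exact Z.p0 hf (j := 1) (by omega) (by omega) (by omega) (by omega) (by omega) (by omega)
    · exact U.p0 hf (j := 1) (by omega) (by omega) (by omega) (by omega) (by omega) (by omega)
    · exact U.p0 hf (j := 1) (by omega) (by omega) (by omega) (by omega) (by omega) (by omega)
    · exact Z.p0 hf (j := 1) (by omega) (by omega) (by omega) (by omega) (by omega) (by omega)
    · exact U.p0 hf (j := 1) (by omega) (by omega) (by omega) (by omega) (by omega) (by omega)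
    · exact U.p0 hf (j := 1) (by omega) (by omega) (by omega) (by omega) (by omega) (by omega)
    · exact U.p0 hf (j := 1) (by omega) (by omega) (by omega) (by omega) (by omega) (by omega)
    · exact U.p2 hf (j := 2) (by omega) (by omega) (by omega) (by omega) (by omega) (by omega)
    · exact U.p2 hf (j := 2) (by omega) (by omega) (by omega) (by omega) (by omega) (by omega)
    · exact U.p2 hf (j := 2) (by omega) (by omega) (by omega) (by omega) (by omega) (by omega)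
    · exact fun t => absurd ((v1 y6_3 (S.l6 5) (by omega) (by omega) (by omega) (by omega) (by omega)).1 t) (by unfold V1; omega)
    · exact fun t => absurd ((v1 y6_3 (S.l6 5) (by omega) (by omega) (by omega) (by omega) (by omega)).1 t) (by unfold V1; omega)
    · exact fun t => absurd ((v1 y6_3 (S.l6 5) (by omega) (by omega) (by omega) (by omega) (by omega)).1 t) (by unfold V1; omega)
    · exact fun t => absurd ((v1 y6_3 (S.l6 5) (by omega) (by omega) (by omega) (by omega) (by omega)).1 t) (by unfold V1; omega)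
    · exact fun t => absurd ((v1 y6_3 (S.l6 5) (by omega) (by omega) (by omega) (by omega) (by omega)).1 t) (by unfold V1; omega)
    · exact fun t => absurd ((v1 y6_3 (S.l6 5) (by omega) (by omega) (by omega) (by omega) (by omega)).1 t) (by unfold V1; omega)
    · exact fun t => absurd ((v1 y6_3 (S.l6 5) (by omega) (by omega) (by omega) (by omega) (by omega)).1 t) (by unfold V1; omega)
    · exact fun t => absurd ((v1 y6_3 (S.l6 5) (by omega) (by omega) (by omega) (by omega) (by omega)).1 t) (by unfold V1; omega)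
    · exact U.r1 hf (p := 1) (j := 1) (by omega) (by omega) (by omega) (by omega) (by omega) (by omega)
    · exact U.r1 hf (p := 1) (j := 1) (by omega) (by omega) (by omega) (by omega) (by omega) (by omega)
    · exact Z.p2 hf (j := 1) (by omega) (by omega) (by omega) (by omega) (by omega) (by omega)
    · exact U.r1 hf (p := 1) (j := 1) (by omega) (by omega) (by omega) (by omega) (by omega) (by omega)
    · exact U.p2 hf (j := 1) (by omega) (by omega) (by omega) (by omega) (by omega) (by omega)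
    · exact Z.p2 hf (j := 1) (by omega) (by omega) (by omega) (by omega) (by omega) (by omega)
    · exact U.p2 hf (j := 1) (by omega) (by omega) (by omega) (by omega) (by omega) (by omega)

end Pool.Agent.SNT.O2W
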