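import Pool.Agent.SNT.Loc
import Pool.Agent.SNT.NHZoneU

set_option autoImplicit false
set_option synthInstance.maxSize 100000
set_option maxRecDepth 100000
set_option linter.unusedVariables false

/-! Near wall: the cell `(2 n + 2 k - 6, 2 n - 2)` of the layer `6 k + 1` in the row `c + 2` is zero (leads `(1, -4, -7)`,
purity of `6 k + 2`, `6 k + 6` at `y = 2 n + 4`) (helper82). -/

namespace Pool.Agent.SNT.Loc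

theorem o2w6_cert_chk : check 10 6 13 9 0 0 0 1 0
    (fun j n p q => decide ((((((j = 3 ∧ n = 4 ∧ p = 2 ∧ q = 1) ∨ (j = 6 ∧ n = 1 ∧ p = 7 ∧ q = 2)) ∨ (j = 6 ∧ n = 1 ∧ p = 9 ∧ q = 4)) ∨ (((j = 6 ∧ n = 2 ∧ p = 9 ∧ q = 3) ∨ (j = 8 ∧ n = 2 ∧ p = 9 ∧ q = 5)) ∨ (j = 8 ∧ n = 2 ∧ p = 11 ∧ q = 5))) ∨ ((((j = 8 ∧ n = 3 ∧ p = 11 ∧ q = 4) ∨ (j = 10 ∧ n = 4 ∧ p = 9 ∧ q = 5)) ∨ (j = 10 ∧ n = 4 ∧ p = 9 ∧ q = 7)) ∨ ((j = 10 ∧ n = 4 ∧ p = 11 ∧ q = 5) ∨ (j = 10 ∧ n = 4 ∧ p = 11 ∧ q = 7))))))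
    (fun j n p q => decide (((((((((j = 1 ∨ (j = 2 ∧ n = 3 ∧ p = 1 ∧ q = 2)) ∨ (j = 2 ∧ n = 3 ∧ p = 1 ∧ q = 3)) ∨ (((j = 2 ∧ n = 3 ∧ p = 1 ∧ q = 4) ∨ (j = 2 ∧ n = 3 ∧ p = 2 ∧ q = 3)) ∨ (j = 2 ∧ n = 3 ∧ p = 2 ∧ q = 4))) ∨ ((((j = 2 ∧ n = 3 ∧ p = 2 ∧ q = 5) ∨ (j = 2 ∧ n = 3 ∧ p = 3 ∧ q = 5)) ∨ (j = 2 ∧ n = 3 ∧ p = 4 ∧ q = 5)) ∨ ((j = 2 ∧ n = 3 ∧ p = 4 ∧ q = 6) ∨ (j = 2 ∧ n = 3 ∧ p = 5 ∧ q = 6)))) ∨ (((((j = 2 ∧ n = 3 ∧ p = 6 ∧ q = 7) ∨ (j = 3 ∧ n = 3 ∧ p = 2 ∧ q = 3)) ∨ (j = 3 ∧ n = 3 ∧ p = 2 ∧ q = 4)) ∨ (((j = 3 ∧ n = 3 ∧ p = 2 ∧ q = 5) ∨ (j = 3 ∧ n = 3 ∧ p = 2 ∧ q = 6)) ∨ (j = 3 ∧ n = 3 ∧ p = 2 ∧ q = 7))) ∨ ((((j = 3 ∧ n = 3 ∧ p = 3 ∧ q = 4) ∨ (j = 3 ∧ n = 3 ∧ p = 3 ∧ q = 5)) ∨ (j = 3 ∧ n = 3 ∧ p = 3 ∧ q = 6)) ∨ ((j = 3 ∧ n = 3 ∧ p = 3 ∧ q = 7) ∨ (j = 3 ∧ n = 3 ∧ p = 4 ∧ q = 5))))) ∨ ((((((j = 3 ∧ n = 3 ∧ p =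 5 ∧ q = 6) ∨ (j = 3 ∧ n = 3 ∧ p = 6 ∧ q = 7)) ∨ (j = 3 ∧ n = 4 ∧ p = 2 ∧ q = 7)) ∨ (((j = 3 ∧ n = 4 ∧ p = 3 ∧ q = 7) ∨ (j = 3 ∧ n = 4 ∧ p = 6 ∧ q = 7)) ∨ (j = 4 ∧ n = 1 ∧ p = 2 ∧ q = 1))) ∨ ((((j = 4 ∧ n = 1 ∧ p = 2 ∧ q = 2) ∨ (j = 4 ∧ n = 1 ∧ p = 3 ∧ q = 1)) ∨ (j = 4 ∧ n = 1 ∧ p = 3 ∧ q = 2)) ∨ ((j = 4 ∧ n = 1 ∧ p = 5 ∧ q = 4) ∨ (j = 4 ∧ n = 1 ∧ p = 5 ∧ q = 5)))) ∨ (((((j = 4 ∧ n = 1 ∧ p = 6 ∧ q = 4) ∨ (j = 4 ∧ n = 1 ∧ p = 6 ∧ q = 5)) ∨ (j = 4 ∧ n = 1 ∧ p = 6 ∧ q = 6)) ∨ (((j = 4 ∧ n = 1 ∧ p = 7 ∧ q = 5) ∨ (j = 4 ∧ n = 1 ∧ p = 7 ∧ q = 6)) ∨ (j = 4 ∧ n = 3 ∧ p = 2 ∧ q = 2))) ∨ ((((j = 4 ∧ n = 3 ∧ p = 2 ∧ q = 3) ∨ (j = 4 ∧ n = 3 ∧ p = 2 ∧ q = 4)) ∨ (j = 4 ∧ n = 3 ∧ p = 2 ∧ q = 5)) ∨ ((j = 4 ∧ n = 3 ∧ p = 2 ∧ q = 6) ∨ (j = 4 ∧ n = 3 ∧ p = 2 ∧ q = 7)))))) ∨ (((((((j = 4 ∧ n = 3 ∧ p = 3 ∧ q = 3) ∨ (j = 4 ∧ n = 3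 ∧ p = 3 ∧ q = 4)) ∨ (j = 4 ∧ n = 3 ∧ p = 3 ∧ q = 5)) ∨ (((j = 4 ∧ n = 3 ∧ p = 3 ∧ q = 6) ∨ (j = 4 ∧ n = 3 ∧ p = 3 ∧ q = 7)) ∨ (j = 4 ∧ n = 3 ∧ p = 4 ∧ q = 4))) ∨ ((((j = 4 ∧ n = 3 ∧ p = 4 ∧ q = 5) ∨ (j = 4 ∧ n = 3 ∧ p = 4 ∧ q = 6)) ∨ (j = 4 ∧ n = 3 ∧ p = 4 ∧ q = 7)) ∨ ((j = 4 ∧ n = 3 ∧ p = 5 ∧ q = 5) ∨ (j = 4 ∧ n = 3 ∧ p = 5 ∧ q = 6)))) ∨ (((((j = 4 ∧ n = 3 ∧ p = 5 ∧ q = 7) ∨ (j = 4 ∧ n = 3 ∧ p = 6 ∧ q = 6)) ∨ (j = 4 ∧ n = 3 ∧ p = 6 ∧ q = 7)) ∨ (((j = 4 ∧ n = 3 ∧ p = 7 ∧ q = 7) ∨ (j = 4 ∧ n = 4 ∧ p = 3 ∧ q = 7)) ∨ (j = 4 ∧ n = 4 ∧ p = 5 ∧ q = 7))) ∨ ((((j = 4 ∧ n = 4 ∧ p = 7 ∧ q = 7) ∨ (j = 5 ∧ n = 1 ∧ p = 2 ∧ q = 1)) ∨ (j = 5 ∧ n = 1 ∧ p = 2 ∧ q = 2)) ∨ ((j = 5 ∧ n = 1 ∧ p = 3 ∧ q = 2) ∨ (j = 5 ∧ n = 1 ∧ p = 5 ∧ q = 4))))) ∨ ((((((j = 5 ∧ n = 1 ∧ p = 5 ∧ q = 5) ∨ (j = 5 ∧ n = 1 ∧ p = 6 ∧ q = 5)) ∨ (j = 5 ∧ n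 = 1 ∧ p = 6 ∧ q = 6)) ∨ (((j = 5 ∧ n = 1 ∧ p = 7 ∧ q = 6) ∨ (j = 5 ∧ n = 2 ∧ p = 2 ∧ q = 1)) ∨ (j = 5 ∧ n = 2 ∧ p = 2 ∧ q = 2))) ∨ ((((j = 5 ∧ n = 2 ∧ p = 3 ∧ q = 2) ∨ (j = 5 ∧ n = 2 ∧ p = 5 ∧ q = 4)) ∨ (j = 5 ∧ n = 2 ∧ p = 5 ∧ q = 5)) ∨ ((j = 5 ∧ n = 2 ∧ p = 6 ∧ q = 5) ∨ (j = 5 ∧ n = 2 ∧ p = 6 ∧ q = 6)))) ∨ (((((j = 5 ∧ n = 2 ∧ p = 7 ∧ q = 6) ∨ (j = 5 ∧ n = 3 ∧ p = 3 ∧ q = 4)) ∨ (j = 5 ∧ n = 3 ∧ p = 3 ∧ q = 5)) ∨ ((j = 5 ∧ n = 3 ∧ p = 3 ∧ q = 6) ∨ (j = 5 ∧ n = 3 ∧ p = 3 ∧ q = 7))) ∨ ((((j = 5 ∧ n = 3 ∧ p = 4 ∧ q = 4) ∨ (j = 5 ∧ n = 3 ∧ p = 4 ∧ q = 5)) ∨ (j = 5 ∧ n = 3 ∧ p = 4 ∧ q = 6)) ∨ ((j = 5 ∧ n = 3 ∧ p = 4 ∧ q = 7) ∨ (j = 5 ∧ n = 3 ∧ p = 5 ∧ q = 5))))))) ∨ ((((((((j = 5 ∧ n = 3 ∧ p = 5 ∧ q = 6) ∨ (j = 5 ∧ n = 3 ∧ p = 5 ∧ q = 7)) ∨ (j = 5 ∧ n = 3 ∧ p = 6 ∧ q = 6)) ∨ (((j = 5 ∧ n = 3 ∧ p = 6 ∧ q = 7) ∨ (j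 = 5 ∧ n = 4 ∧ p = 3 ∧ q = 7)) ∨ (j = 5 ∧ n = 4 ∧ p = 4 ∧ q = 7))) ∨ ((((j = 5 ∧ n = 4 ∧ p = 5 ∧ q = 7) ∨ (j = 5 ∧ n = 4 ∧ p = 6 ∧ q = 7)) ∨ (j = 6 ∧ n = 1 ∧ p = 3 ∧ q = 1)) ∨ ((j = 6 ∧ n = 1 ∧ p = 3 ∧ q = 2) ∨ (j = 6 ∧ n = 1 ∧ p = 4 ∧ q = 1)))) ∨ (((((j = 6 ∧ n = 1 ∧ p = 4 ∧ q = 2) ∨ (j = 6 ∧ n = 1 ∧ p = 6 ∧ q = 3)) ∨ (j = 6 ∧ n = 1 ∧ p = 6 ∧ q = 4)) ∨ (((j = 6 ∧ n = 1 ∧ p = 7 ∧ q = 3) ∨ (j = 6 ∧ n = 1 ∧ p = 7 ∧ q = 4)) ∨ (j = 6 ∧ n = 1 ∧ p = 7 ∧ q = 5))) ∨ ((((j = 6 ∧ n = 1 ∧ p = 7 ∧ q = 6) ∨ (j = 6 ∧ n = 1 ∧ p = 8 ∧ q = 5)) ∨ (j = 6 ∧ n = 1 ∧ p = 8 ∧ q = 6)) ∨ ((j = 6 ∧ n = 1 ∧ p = 9 ∧ q = 5) ∨ (j = 6 ∧ n = 1 ∧ p = 9 ∧ q = 6))))) ∨ ((((((j = 6 ∧ n = 1 ∧ p = 10 ∧ q = 5) ∨ (j = 6 ∧ n = 1 ∧ p = 10 ∧ q = 6)) ∨ (j = 6 ∧ n = 2 ∧ p = 9 ∧ q = 4)) ∨ (((j = 6 ∧ n = 2 ∧ p = 10 ∧ q = 4) ∨ (j = 6 ∧ n = 3 ∧ p = 5 ∧ q = 5))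 ∨ (j = 6 ∧ n = 3 ∧ p = 5 ∧ q = 6))) ∨ ((((j = 6 ∧ n = 3 ∧ p = 6 ∧ q = 5) ∨ (j = 6 ∧ n = 3 ∧ p = 6 ∧ q = 6)) ∨ (j = 6 ∧ n = 3 ∧ p = 7 ∧ q = 6)) ∨ ((j = 6 ∧ n = 3 ∧ p = 7 ∧ q = 7) ∨ (j = 7 ∧ n = 1 ∧ p = 3 ∧ q = 1)))) ∨ (((((j = 7 ∧ n = 1 ∧ p = 3 ∧ q = 2) ∨ (j = 7 ∧ n = 1 ∧ p = 4 ∧ q = 1)) ∨ (j = 7 ∧ n = 1 ∧ p = 4 ∧ q = 2)) ∨ (((j = 7 ∧ n = 1 ∧ p = 6 ∧ q = 3) ∨ (j = 7 ∧ n = 1 ∧ p = 6 ∧ q = 4)) ∨ (j = 7 ∧ n = 1 ∧ p = 7 ∧ q = 3))) ∨ ((((j = 7 ∧ n = 1 ∧ p = 7 ∧ q = 4) ∨ (j = 7 ∧ n = 1 ∧ p = 7 ∧ q = 5)) ∨ (j = 7 ∧ n = 1 ∧ p = 7 ∧ q = 6)) ∨ ((j = 7 ∧ n = 1 ∧ p = 8 ∧ q = 5) ∨ (j = 7 ∧ n = 1 ∧ p = 8 ∧ q = 6)))))) ∨ (((((((j = 7 ∧ n = 1 ∧ p = 9 ∧ q = 5) ∨ (j = 7 ∧ n = 1 ∧ p = 9 ∧ q = 6)) ∨ (j = 7 ∧ n = 1 ∧ p = 10 ∧ q = 6)) ∨ (((j = 7 ∧ n = 2 ∧ p = 3 ∧ q = 1) ∨ (j = 7 ∧ n = 2 ∧ p = 3 ∧ q = 2)) ∨ (j = 7 ∧ n = 2 ∧ p = 4 ∧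 q = 1))) ∨ ((((j = 7 ∧ n = 2 ∧ p = 4 ∧ q = 2) ∨ (j = 7 ∧ n = 2 ∧ p = 6 ∧ q = 3)) ∨ (j = 7 ∧ n = 2 ∧ p = 6 ∧ q = 4)) ∨ ((j = 7 ∧ n = 2 ∧ p = 7 ∧ q = 3) ∨ (j = 7 ∧ n = 2 ∧ p = 7 ∧ q = 4)))) ∨ (((((j = 7 ∧ n = 2 ∧ p = 7 ∧ q = 5) ∨ (j = 7 ∧ n = 2 ∧ p = 7 ∧ q = 6)) ∨ (j = 7 ∧ n = 2 ∧ p = 8 ∧ q = 5)) ∨ (((j = 7 ∧ n = 2 ∧ p = 8 ∧ q = 6) ∨ (j = 7 ∧ n = 2 ∧ p = 9 ∧ q = 5)) ∨ (j = 7 ∧ n = 2 ∧ p = 9 ∧ q = 6))) ∨ ((((j = 7 ∧ n = 2 ∧ p = 10 ∧ q = 6) ∨ (j = 7 ∧ n = 3 ∧ p = 7 ∧ q = 6)) ∨ (j = 7 ∧ n = 3 ∧ p = 7 ∧ q = 7)) ∨ ((j = 7 ∧ n = 3 ∧ p = 8 ∧ q = 7) ∨ (j = 7 ∧ n = 3 ∧ p = 9 ∧ q = 7))))) ∨ ((((((j = 7 ∧ n = 3 ∧ p = 10 ∧ q = 7) ∨ (j = 7 ∧ n = 4 ∧ p = 7 ∧ q = 7)) ∨ (j = 7 ∧ n = 4 ∧ p = 8 ∧ q = 7)) ∨ (((j = 7 ∧ n = 4 ∧ p = 9 ∧ q = 7) ∨ (j = 7 ∧ n = 4 ∧ p = 10 ∧ q = 7)) ∨ (j = 8 ∧ n = 3 ∧ p = 8 ∧ q = 6))) ∨ ((((j = 8 ∧ n =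 3 ∧ p = 8 ∧ q = 7) ∨ (j = 8 ∧ n = 3 ∧ p = 9 ∧ q = 5)) ∨ (j = 8 ∧ n = 3 ∧ p = 9 ∧ q = 6)) ∨ ((j = 8 ∧ n = 3 ∧ p = 9 ∧ q = 7) ∨ (j = 8 ∧ n = 3 ∧ p = 10 ∧ q = 5)))) ∨ (((((j = 8 ∧ n = 3 ∧ p = 10 ∧ q = 6) ∨ (j = 8 ∧ n = 3 ∧ p = 11 ∧ q = 5)) ∨ (j = 8 ∧ n = 3 ∧ p = 11 ∧ q = 6)) ∨ ((j = 9 ∧ n = 3 ∧ p = 8 ∧ q = 6) ∨ (j = 9 ∧ n = 3 ∧ p = 8 ∧ q = 7))) ∨ ((((j = 9 ∧ n = 3 ∧ p = 9 ∧ q = 5) ∨ (j = 9 ∧ n = 3 ∧ p = 9 ∧ q = 7)) ∨ (j = 9 ∧ n = 3 ∧ p = 10 ∧ q = 6)) ∨ ((j = 9 ∧ n = 4 ∧ p = 8 ∧ q = 7) ∨ (j = 9 ∧ n = 4 ∧ p = 9 ∧ q = 7))))))))))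
    485
    0x7df03051b80067f5207e28009424a0947000aaad207df03051b80067f5207e28009424a0aa5800aa58409420309468009468406888505248006890a06844a07e30007e30403860304e50004e50407d98007d98106710006761a067500067501037c0304db0004db040ab383094b00094b0403778304d68004d6840d6d030aaa000aaa0403c60305250005250403c18305208005208407e383067f00067f0403b7030516000516040a35030911000911040a78030ab3000ab3040d71830a74000a740403c10305200005200403818304e08004e0840677030512800512840a2f8308d10008d10403c083051f80051f8403b3030512000512040a35030910800910840a35030a6f800a6f840a35030737800772aa064e00064e040d71030a73800a78120954000954040a39830915800915840a2103075e00075e8a063a00063a040a350307720007720403b203051180051184076d8306490006490403868304e58004e5840d75830a78000a780403b78305168005168403bc03051b00051b0403908304ef8004ef8403cb03052a00052a0403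7c8304db8004db84076d8307a80007a8040a3e0309198009198403900304ef0004ef040a78030a78800a78840a39830915000915040a2f83073280073284038b8304ea8004ea840a3e03091a00091a0407da8306760006760403b8030517000517040a2f83076d00076d040a210307238007238403ca83052980052984038b0304ea0004ea040ed5000ed4000ecc000ecb000bdb000ba1000b980008d900089f000895000510800ed50f0ed40f0ecc0f0ecb0f0d6d070d68870d36870d32870d31870d2e070d2d870c12870c11870c09870bdc070bdb870bdb0f0bd7870bd7070bd3870bd3070bd2870bcf070bce870ba10f0b980f0ab3870aaf070aaa870aa6070a79070a74870a70070a6b870a6b070a3e070a39870a39070a35070a34870a30870a30070a2f870a2f070a2b070a2a870a21070a20870a1c870a1c070a038709ff0709fe8709fa8709fa0709f60709f58709f50709f48709f08709f00709e68709e60709e20709e187095487094b87094187090c87090c0709078709070709030709028708de8708de0708d98708d90f08d58708cb8708c187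08a48708a40708a007089f87089f0f089b87089b0708970708968708960708958708950f08918708910708878708870708830708828707e38707df0707da8707d60707a90707a88707a48707a40707a38707a007079f87079f07079e87079b87079b07079a87079a07077287076e07076d87076907076887075e87075a07075987073807073387073307072e87072e07072407071f87071f07068907068487068387068007067b87067a87067707067287067187067087064e87064a07064987064587064507064487064107064087064007063f87063c87063c07063b87063b07063a87063807063787063707063687063607063587060e8705fa8705d90705d88705d48705d40705d38705cf8705cf0705c50705c48705c08705c00705258705180705138705108f04eb0704e60704e10704dd8704dd0704dc8704dc0704d90704d88704d80704d78704d70703c68703c58703bc8703bb8703b38703b28703b187038c07038707038287038207037d87037907037887037807037407037387037307035187035087034787034687033d87033c87026c07026b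87026b07026787026707026687026287026207026187026107025e07025d87025d07025c87025907025887025807025787025487025407025387025307025287024f87024f07024e87024e07023187023107023087022d07022c87022c07022b87022807022787022707022687022387022307022287022207021e87021e07021d87021d07021c87021a0702198702190702188702180702150702148702140702138701f70701f68701f60701f28701f20701f18701f10701ed8701ed0701ec8701ec0701e88701e80701e78701e38701e30701e28701e20701de8701de0701dd8701d98701d907 = true := by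
  decide +kernel

theorem o2w6_cert {f : ℕ → ℕ → ℕ → ℕ → Prop} (hf : Rule f) {a0 b0 x0 y0 : ℕ}
    (ha : a0 % 2 = 0) (hb : b0 % 2 = 0) (hx : x0 % 2 = 0) (hy : y0 % 2 = 1)
    (h1 : ∀ j n p q : ℕ, InR 10 6 13 9 1 j n p q →
      ((((((j = 3 ∧ n = 4 ∧ p = 2 ∧ q = 1) ∨ (j = 6 ∧ n = 1 ∧ p = 7 ∧ q = 2)) ∨ (j = 6 ∧ n = 1 ∧ p = 9 ∧ q = 4)) ∨ (((j = 6 ∧ n = 2 ∧ p = 9 ∧ q = 3) ∨ (j = 8 ∧ n = 2 ∧ p = 9 ∧ q = 5)) ∨ (j = 8 ∧ n = 2 ∧ p = 11 ∧ q = 5))) ∨ ((((j = 8 ∧ n = 3 ∧ p = 11 ∧ q = 4) ∨ (j = 10 ∧ n = 4 ∧ p = 9 ∧ q = 5)) ∨ (j = 10 ∧ n = 4 ∧ p = 9 ∧ q = 7)) ∨ ((j = 10 ∧ n = 4 ∧ p = 11 ∧ q = 5) ∨ (j = 10 ∧ n = 4 ∧ p = 11 ∧ q = 7))))) →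
      f (a0 + j) (b0 + n) (x0 + p) (y0 + q))
    (h0 : ∀ j n p q : ℕ, InR 10 6 13 9 1 j n p q →
      (((((((((j = 1 ∨ (j = 2 ∧ n = 3 ∧ p = 1 ∧ q = 2)) ∨ (j = 2 ∧ n = 3 ∧ p = 1 ∧ q = 3)) ∨ (((j = 2 ∧ n = 3 ∧ p = 1 ∧ q = 4) ∨ (j = 2 ∧ n = 3 ∧ p = 2 ∧ q = 3)) ∨ (j = 2 ∧ n = 3 ∧ p = 2 ∧ q = 4))) ∨ ((((j = 2 ∧ n = 3 ∧ p = 2 ∧ q = 5) ∨ (j = 2 ∧ n = 3 ∧ p = 3 ∧ q = 5)) ∨ (j = 2 ∧ n = 3 ∧ p = 4 ∧ q = 5)) ∨ ((j = 2 ∧ n = 3 ∧ p = 4 ∧ q = 6) ∨ (j = 2 ∧ n = 3 ∧ p = 5 ∧ q = 6)))) ∨ (((((j = 2 ∧ n = 3 ∧ p = 6 ∧ q = 7) ∨ (j = 3 ∧ n = 3 ∧ p = 2 ∧ q = 3)) ∨ (j = 3 ∧ n = 3 ∧ p = 2 ∧ q = 4)) ∨ (((j = 3 ∧ n = 3 ∧ p = 2 ∧ q = 5) ∨ (j = 3 ∧ n = 3 ∧ p = 2 ∧ q = 6)) ∨ (j = 3 ∧ n = 3 ∧ p = 2 ∧ q = 7))) ∨ ((((j = 3 ∧ n = 3 ∧ p = 3 ∧ q = 4) ∨ (j = 3 ∧ n = 3 ∧ p = 3 ∧ q = 5)) ∨ (j = 3 ∧ n = 3 ∧ p = 3 ∧ q = 6)) ∨ ((j = 3 ∧ n = 3 ∧ p = 3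 ∧ q = 7) ∨ (j = 3 ∧ n = 3 ∧ p = 4 ∧ q = 5))))) ∨ ((((((j = 3 ∧ n = 3 ∧ p = 5 ∧ q = 6) ∨ (j = 3 ∧ n = 3 ∧ p = 6 ∧ q = 7)) ∨ (j = 3 ∧ n = 4 ∧ p = 2 ∧ q = 7)) ∨ (((j = 3 ∧ n = 4 ∧ p = 3 ∧ q = 7) ∨ (j = 3 ∧ n = 4 ∧ p = 6 ∧ q = 7)) ∨ (j = 4 ∧ n = 1 ∧ p = 2 ∧ q = 1))) ∨ ((((j = 4 ∧ n = 1 ∧ p = 2 ∧ q = 2) ∨ (j = 4 ∧ n = 1 ∧ p = 3 ∧ q = 1)) ∨ (j = 4 ∧ n = 1 ∧ p = 3 ∧ q = 2)) ∨ ((j = 4 ∧ n = 1 ∧ p = 5 ∧ q = 4) ∨ (j = 4 ∧ n = 1 ∧ p = 5 ∧ q = 5)))) ∨ (((((j = 4 ∧ n = 1 ∧ p = 6 ∧ q = 4) ∨ (j = 4 ∧ n = 1 ∧ p = 6 ∧ q = 5)) ∨ (j = 4 ∧ n = 1 ∧ p = 6 ∧ q = 6)) ∨ (((j = 4 ∧ n = 1 ∧ p = 7 ∧ q = 5) ∨ (j = 4 ∧ n = 1 ∧ p = 7 ∧ q = 6)) ∨ (j = 4 ∧ n = 3 ∧ p = 2 ∧ q = 2))) ∨ ((((j = 4 ∧ n = 3 ∧ p = 2 ∧ q = 3) ∨ (j = 4 ∧ n = 3 ∧ p = 2 ∧ q = 4)) ∨ (j = 4 ∧ n = 3 ∧ p = 2 ∧ q = 5)) ∨ ((j = 4 ∧ n = 3 ∧ p = 2 ∧ q = 6) ∨ (j = 4 ∧ n = 3 ∧ p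 = 2 ∧ q = 7)))))) ∨ (((((((j = 4 ∧ n = 3 ∧ p = 3 ∧ q = 3) ∨ (j = 4 ∧ n = 3 ∧ p = 3 ∧ q = 4)) ∨ (j = 4 ∧ n = 3 ∧ p = 3 ∧ q = 5)) ∨ (((j = 4 ∧ n = 3 ∧ p = 3 ∧ q = 6) ∨ (j = 4 ∧ n = 3 ∧ p = 3 ∧ q = 7)) ∨ (j = 4 ∧ n = 3 ∧ p = 4 ∧ q = 4))) ∨ ((((j = 4 ∧ n = 3 ∧ p = 4 ∧ q = 5) ∨ (j = 4 ∧ n = 3 ∧ p = 4 ∧ q = 6)) ∨ (j = 4 ∧ n = 3 ∧ p = 4 ∧ q = 7)) ∨ ((j = 4 ∧ n = 3 ∧ p = 5 ∧ q = 5) ∨ (j = 4 ∧ n = 3 ∧ p = 5 ∧ q = 6)))) ∨ (((((j = 4 ∧ n = 3 ∧ p = 5 ∧ q = 7) ∨ (j = 4 ∧ n = 3 ∧ p = 6 ∧ q = 6)) ∨ (j = 4 ∧ n = 3 ∧ p = 6 ∧ q = 7)) ∨ (((j = 4 ∧ n = 3 ∧ p = 7 ∧ q = 7) ∨ (j = 4 ∧ n = 4 ∧ p = 3 ∧ q = 7)) ∨ (j = 4 ∧ n = 4 ∧ p = 5 ∧ q = 7))) ∨ ((((j = 4 ∧ n = 4 ∧ p = 7 ∧ q = 7) ∨ (j = 5 ∧ n = 1 ∧ p = 2 ∧ q = 1)) ∨ (j = 5 ∧ n = 1 ∧ p = 2 ∧ q = 2)) ∨ ((j = 5 ∧ n = 1 ∧ p = 3 ∧ q = 2) ∨ (j = 5 ∧ n = 1 ∧ p = 5 ∧ q = 4))))) ∨ ((((((j =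 5 ∧ n = 1 ∧ p = 5 ∧ q = 5) ∨ (j = 5 ∧ n = 1 ∧ p = 6 ∧ q = 5)) ∨ (j = 5 ∧ n = 1 ∧ p = 6 ∧ q = 6)) ∨ (((j = 5 ∧ n = 1 ∧ p = 7 ∧ q = 6) ∨ (j = 5 ∧ n = 2 ∧ p = 2 ∧ q = 1)) ∨ (j = 5 ∧ n = 2 ∧ p = 2 ∧ q = 2))) ∨ ((((j = 5 ∧ n = 2 ∧ p = 3 ∧ q = 2) ∨ (j = 5 ∧ n = 2 ∧ p = 5 ∧ q = 4)) ∨ (j = 5 ∧ n = 2 ∧ p = 5 ∧ q = 5)) ∨ ((j = 5 ∧ n = 2 ∧ p = 6 ∧ q = 5) ∨ (j = 5 ∧ n = 2 ∧ p = 6 ∧ q = 6)))) ∨ (((((j = 5 ∧ n = 2 ∧ p = 7 ∧ q = 6) ∨ (j = 5 ∧ n = 3 ∧ p = 3 ∧ q = 4)) ∨ (j = 5 ∧ n = 3 ∧ p = 3 ∧ q = 5)) ∨ ((j = 5 ∧ n = 3 ∧ p = 3 ∧ q = 6) ∨ (j = 5 ∧ n = 3 ∧ p = 3 ∧ q = 7))) ∨ ((((j = 5 ∧ n = 3 ∧ p = 4 ∧ q = 4) ∨ (j = 5 ∧ n = 3 ∧ p = 4 ∧ q = 5)) ∨ (j = 5 ∧ n = 3 ∧ p = 4 ∧ q = 6)) ∨ ((j = 5 ∧ n = 3 ∧ p = 4 ∧ q = 7) ∨ (j = 5 ∧ n = 3 ∧ p = 5 ∧ q = 5))))))) ∨ ((((((((j = 5 ∧ n = 3 ∧ p = 5 ∧ q = 6) ∨ (j = 5 ∧ n = 3 ∧ p = 5 ∧ q = 7))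 ∨ (j = 5 ∧ n = 3 ∧ p = 6 ∧ q = 6)) ∨ (((j = 5 ∧ n = 3 ∧ p = 6 ∧ q = 7) ∨ (j = 5 ∧ n = 4 ∧ p = 3 ∧ q = 7)) ∨ (j = 5 ∧ n = 4 ∧ p = 4 ∧ q = 7))) ∨ ((((j = 5 ∧ n = 4 ∧ p = 5 ∧ q = 7) ∨ (j = 5 ∧ n = 4 ∧ p = 6 ∧ q = 7)) ∨ (j = 6 ∧ n = 1 ∧ p = 3 ∧ q = 1)) ∨ ((j = 6 ∧ n = 1 ∧ p = 3 ∧ q = 2) ∨ (j = 6 ∧ n = 1 ∧ p = 4 ∧ q = 1)))) ∨ (((((j = 6 ∧ n = 1 ∧ p = 4 ∧ q = 2) ∨ (j = 6 ∧ n = 1 ∧ p = 6 ∧ q = 3)) ∨ (j = 6 ∧ n = 1 ∧ p = 6 ∧ q = 4)) ∨ (((j = 6 ∧ n = 1 ∧ p = 7 ∧ q = 3) ∨ (j = 6 ∧ n = 1 ∧ p = 7 ∧ q = 4)) ∨ (j = 6 ∧ n = 1 ∧ p = 7 ∧ q = 5))) ∨ ((((j = 6 ∧ n = 1 ∧ p = 7 ∧ q = 6) ∨ (j = 6 ∧ n = 1 ∧ p = 8 ∧ q = 5)) ∨ (j = 6 ∧ n = 1 ∧ p = 8 ∧ q = 6)) ∨ ((j = 6 ∧ n = 1 ∧ p = 9 ∧ q = 5) ∨ (j = 6 ∧ n = 1 ∧ p = 9 ∧ q = 6))))) ∨ ((((((j = 6 ∧ n = 1 ∧ p = 10 ∧ q = 5) ∨ (j = 6 ∧ n = 1 ∧ p = 10 ∧ q = 6)) ∨ (j = 6 ∧ n = 2 ∧ p = 9 ∧ q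 = 4)) ∨ (((j = 6 ∧ n = 2 ∧ p = 10 ∧ q = 4) ∨ (j = 6 ∧ n = 3 ∧ p = 5 ∧ q = 5)) ∨ (j = 6 ∧ n = 3 ∧ p = 5 ∧ q = 6))) ∨ ((((j = 6 ∧ n = 3 ∧ p = 6 ∧ q = 5) ∨ (j = 6 ∧ n = 3 ∧ p = 6 ∧ q = 6)) ∨ (j = 6 ∧ n = 3 ∧ p = 7 ∧ q = 6)) ∨ ((j = 6 ∧ n = 3 ∧ p = 7 ∧ q = 7) ∨ (j = 7 ∧ n = 1 ∧ p = 3 ∧ q = 1)))) ∨ (((((j = 7 ∧ n = 1 ∧ p = 3 ∧ q = 2) ∨ (j = 7 ∧ n = 1 ∧ p = 4 ∧ q = 1)) ∨ (j = 7 ∧ n = 1 ∧ p = 4 ∧ q = 2)) ∨ (((j = 7 ∧ n = 1 ∧ p = 6 ∧ q = 3) ∨ (j = 7 ∧ n = 1 ∧ p = 6 ∧ q = 4)) ∨ (j = 7 ∧ n = 1 ∧ p = 7 ∧ q = 3))) ∨ ((((j = 7 ∧ n = 1 ∧ p = 7 ∧ q = 4) ∨ (j = 7 ∧ n = 1 ∧ p = 7 ∧ q = 5)) ∨ (j = 7 ∧ n = 1 ∧ p = 7 ∧ q = 6)) ∨ ((j = 7 ∧ n = 1 ∧ p = 8 ∧ q = 5) ∨ (j = 7 ∧ n = 1 ∧ p = 8 ∧ q = 6)))))) ∨ (((((((j = 7 ∧ n = 1 ∧ p = 9 ∧ q = 5) ∨ (j = 7 ∧ n = 1 ∧ p = 9 ∧ q = 6)) ∨ (j = 7 ∧ n = 1 ∧ p = 10 ∧ q = 6)) ∨ (((j = 7 ∧ n = 2 ∧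 p = 3 ∧ q = 1) ∨ (j = 7 ∧ n = 2 ∧ p = 3 ∧ q = 2)) ∨ (j = 7 ∧ n = 2 ∧ p = 4 ∧ q = 1))) ∨ ((((j = 7 ∧ n = 2 ∧ p = 4 ∧ q = 2) ∨ (j = 7 ∧ n = 2 ∧ p = 6 ∧ q = 3)) ∨ (j = 7 ∧ n = 2 ∧ p = 6 ∧ q = 4)) ∨ ((j = 7 ∧ n = 2 ∧ p = 7 ∧ q = 3) ∨ (j = 7 ∧ n = 2 ∧ p = 7 ∧ q = 4)))) ∨ (((((j = 7 ∧ n = 2 ∧ p = 7 ∧ q = 5) ∨ (j = 7 ∧ n = 2 ∧ p = 7 ∧ q = 6)) ∨ (j = 7 ∧ n = 2 ∧ p = 8 ∧ q = 5)) ∨ (((j = 7 ∧ n = 2 ∧ p = 8 ∧ q = 6) ∨ (j = 7 ∧ n = 2 ∧ p = 9 ∧ q = 5)) ∨ (j = 7 ∧ n = 2 ∧ p = 9 ∧ q = 6))) ∨ ((((j = 7 ∧ n = 2 ∧ p = 10 ∧ q = 6) ∨ (j = 7 ∧ n = 3 ∧ p = 7 ∧ q = 6)) ∨ (j = 7 ∧ n = 3 ∧ p = 7 ∧ q = 7)) ∨ ((j = 7 ∧ n = 3 ∧ p = 8 ∧ q = 7) ∨ (j = 7 ∧ n = 3 ∧ p = 9 ∧ q = 7))))) ∨ ((((((j = 7 ∧ n = 3 ∧ p = 10 ∧ q = 7) ∨ (j = 7 ∧ n = 4 ∧ p = 7 ∧ q = 7)) ∨ (j = 7 ∧ n = 4 ∧ p = 8 ∧ q = 7)) ∨ (((j = 7 ∧ n = 4 ∧ p = 9 ∧ q = 7) ∨ (j = 7 ∧ n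 = 4 ∧ p = 10 ∧ q = 7)) ∨ (j = 8 ∧ n = 3 ∧ p = 8 ∧ q = 6))) ∨ ((((j = 8 ∧ n = 3 ∧ p = 8 ∧ q = 7) ∨ (j = 8 ∧ n = 3 ∧ p = 9 ∧ q = 5)) ∨ (j = 8 ∧ n = 3 ∧ p = 9 ∧ q = 6)) ∨ ((j = 8 ∧ n = 3 ∧ p = 9 ∧ q = 7) ∨ (j = 8 ∧ n = 3 ∧ p = 10 ∧ q = 5)))) ∨ (((((j = 8 ∧ n = 3 ∧ p = 10 ∧ q = 6) ∨ (j = 8 ∧ n = 3 ∧ p = 11 ∧ q = 5)) ∨ (j = 8 ∧ n = 3 ∧ p = 11 ∧ q = 6)) ∨ ((j = 9 ∧ n = 3 ∧ p = 8 ∧ q = 6) ∨ (j = 9 ∧ n = 3 ∧ p = 8 ∧ q = 7))) ∨ ((((j = 9 ∧ n = 3 ∧ p = 9 ∧ q = 5) ∨ (j = 9 ∧ n = 3 ∧ p = 9 ∧ q = 7)) ∨ (j = 9 ∧ n = 3 ∧ p = 10 ∧ q = 6)) ∨ ((j = 9 ∧ n = 4 ∧ p = 8 ∧ q = 7) ∨ (j = 9 ∧ n = 4 ∧ p = 9 ∧ q = 7))))))))) →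
      ¬ f (a0 + j) (b0 + n) (x0 + p) (y0 + q)) : False :=
  check_sound hf o2w6_cert_chk
    ⟨fun h => absurd h (by decide), fun h => absurd h (by decide),
      fun h => absurd h (by decide), ha, hb, hx, hy⟩
    (fun j n p q hr h => h1 j n p q hr (of_decide_eq_true h))
    (fun j n p q hr h => h0 j n p q hr (of_decide_eq_true h))

end Pool.Agent.SNT.Loc

namespace Pool.Agent.SNT.O2W

open Pool.Agent.SNT Pool.Agent.SNT.Sig Pool.Agent.SNT.ZoneT Pool.Agent.SNT.ZoneI Pool.Agent.SNT.LW Pool.Agent.SNT.NHZ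

variable {f : ℕ → ℕ → ℕ → ℕ → Prop} {k b m : ℕ}

/-- the cell `d = 2 k - 4` of the line `y = 2 n - 2` of `6 k + 1` in the row `c + 2` -/
theorem out2_w6 (hf : Rule f) (hs : Side k b m) (S : Stack6 f k b m 0 0 0 0 0 1) {n : ℕ}
    (hn : n = m + 9 + (k + 2) * 4)
    (d0 : Cyc f (6 * k) (b + 16) (2 * (n - 7) + 2)) (d2 : Cyc f (6 * k + 2) (b + 18) (2 * (n - 4) + 2))
    (d4 : Cyc f (6 * k + 4) (b + 20) (2 * (n + 1) + 2))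
    (hp2 : ∀ x : ℕ, x % 2 = 1 → 2 * n + 9 ≤ x → x + 1 ≤ 2 * n + 2 * k → ¬ f (6 * k + 2) (b + 24) x (2 * n + 4))
    (hp6 : ∀ x : ℕ, x % 2 = 1 → 2 * n + 7 ≤ x → x + 1 ≤ 2 * n + 2 * k → ¬ f (6 * k + 6) (b + 24) x (2 * n + 4)) :
    ¬ f (6 * k + 1) (b + 24) (2 * n + 2 * k - 6) (2 * n - 2) := by
  intro h
  have Z := NHT.of_stack hs S
  have U := NHU.of_stack hs S
  obtain ⟨hk, hb, h4, hb2, hm⟩ := hs
  have hlw : ∀ L R x y : ℕ, L + 1 = 6 * k → b ≤ R → R ≤ b + 40 → 2 * m ≤ x → y ≤ x →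
      x ≤ y + 3 * k → ¬ f L R x y := by
    intro L R x y hM h2 h3 h4' h5 h6 h
    have e : L = 6 * k - 1 := by omega
    have e2 : R = b + (R - b) := by omega
    rw [e, e2] at h
    have h7 := (S.lw (R - b) (by omega) x y (by rw [max_eq_left h5]; omega)).1 h
    exact Fst_near_odd (by omega) (by rw [max_eq_left h5, min_eq_right h5]; omega) h7
  have y2_5 : Lay (6 * k + 2) (b + 18) k := ⟨by omega, by omega, by omega, by omega⟩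
  have y4_3 : Lay (6 * k + 4) (b + 4 * 5) k := ⟨by omega, by omega, by omega, by omega⟩
  have y6_3 : Lay (6 * k + 6) (b + 2 + 4 * 5) (k + 1) := ⟨by omega, by omega, by omega, by omega⟩
  have y8_3 : Lay (6 * k + 8) (b + 4 + 4 * 5) (k + 1) := ⟨by omega, by omega, by omega, by omega⟩
  obtain ⟨n1, rfl⟩ : ∃ n1, n = n1 + 7 := ⟨n - 7, by omega⟩
  rw [show n1 + 7 - 7 = n1 from rfl] at d0
  rw [show n1 + 7 - 4 = n1 + 3 from rfl] at d2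
  obtain ⟨x0, ex⟩ : ∃ x0, x0 + 8 = 2 * (n1 + 7) + 2 * k := ⟨2 * (n1 + 7) + 2 * k - 8, by omega⟩
  obtain ⟨y0, ey⟩ : ∃ y0, y0 + 3 = 2 * (n1 + 7) := ⟨2 * (n1 + 7) - 3, by omega⟩
  obtain ⟨a0, ea⟩ : ∃ a0, a0 + 2 = 6 * k := ⟨6 * k - 2, by omega⟩
  refine Loc.o2w6_cert hf (a0 := a0) (b0 := b + 20) (x0 := x0) (y0 := y0) (by omega) (by omega)
    (by omega) (by omega) ?_ ?_
  · intro j n p q _ hx
    rcases hx with ((((⟨rfl, rfl, rfl, rfl⟩ | ⟨rfl, rfl, rfl, rfl⟩) | ⟨rfl, rfl, rfl, rfl⟩) | ((⟨rfl, rfl, rfl, rfl⟩ | ⟨rfl, rfl, rfl, rfl⟩) | ⟨rfl, rfl, rfl, rfl⟩)) | 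
      (((⟨rfl, rfl, rfl, rfl⟩ | ⟨rfl, rfl, rfl, rfl⟩) | ⟨rfl, rfl, rfl, rfl⟩) | (⟨rfl, rfl, rfl, rfl⟩ | ⟨rfl, rfl, rfl, rfl⟩)))
    · exact mv h (by omega) (by omega) (by omega) (by omega)
    · exact (v1 y4_3 (S.l4 5) (by omega) (by omega) (by omega) (by omega) (by omega)).2 (by unfold V1; omega)
    · exact (v1 y4_3 (S.l4 5) (by omega) (by omega) (by omega) (by omega) (by omega)).2 (by unfold V1; omega)
    · exact (v2x y4_3 (S.l4 5) (by omega) (by omega) (by omega) (by omega) (by omega) (by omega)).2 (by unfold V2; omega)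
    · exact (v0 y6_3 (S.l6 5) (by omega) (by omega) (by omega) (by omega) (by omega)).2 (by unfold V0; omega)
    · exact (v0 y6_3 (S.l6 5) (by omega) (by omega) (by omega) (by omega) (by omega)).2 (by unfold V0; omega)
    · exact (v1 y6_3 (S.l6 5) (by omega) (by omega) (by omega) (by omega) (by omega)).2 (by unfold V1; omega)
    · exact (w0 y8_3 (S.l8 5) (by omega) (by omega) (by omega) (by omega) (by omega) (by omega)).2 (by unfold V0; omega)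
    · exact (w0 y8_3 (S.l8 5) (by omega) (by omega) (by omega) (by omega) (by omega) (by omega)).2 (by unfold V0; omega)
    · exact (w0 y8_3 (S.l8 5) (by omega) (by omega) (by omega) (by omega) (by omega) (by omega)).2 (by unfold V0; omega)
    · exact (w0 y8_3 (S.l8 5) (by omega) (by omega) (by omega) (by omega) (by omega) (by omega)).2 (by unfold V0; omega)
  · intro j n p q hr hx
    rcases hx with ((((((((rfl | ⟨rfl, rfl, rfl, rfl⟩) | ⟨rfl, rfl, rfl, rfl⟩) | ((⟨rfl, rfl, rfl, rfl⟩ | ⟨rfl, rfl, rfl, rfl⟩) | ⟨rfl, rfl, rfl, rfl⟩)) | 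
      (((⟨rfl, rfl, rfl, rfl⟩ | ⟨rfl, rfl, rfl, rfl⟩) | ⟨rfl, rfl, rfl, rfl⟩) | (⟨rfl, rfl, rfl, rfl⟩ | ⟨rfl, rfl, rfl, rfl⟩))) | ((((⟨rfl, rfl, rfl, rfl⟩ | 
      ⟨rfl, rfl, rfl, rfl⟩) | ⟨rfl, rfl, rfl, rfl⟩) | ((⟨rfl, rfl, rfl, rfl⟩ | ⟨rfl, rfl, rfl, rfl⟩) | ⟨rfl, rfl, rfl, rfl⟩)) | (((⟨rfl, rfl, rfl, rfl⟩ | 
      ⟨rfl, rfl, rfl, rfl⟩) | ⟨rfl, rfl, rfl, rfl⟩) | (⟨rfl, rfl, rfl, rfl⟩ | ⟨rfl, rfl, rfl, rfl⟩)))) | (((((⟨rfl, rfl, rfl, rfl⟩ | ⟨rfl, rfl, rfl, rfl⟩) | 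
      ⟨rfl, rfl, rfl, rfl⟩) | ((⟨rfl, rfl, rfl, rfl⟩ | ⟨rfl, rfl, rfl, rfl⟩) | ⟨rfl, rfl, rfl, rfl⟩)) | (((⟨rfl, rfl, rfl, rfl⟩ | ⟨rfl, rfl, rfl, rfl⟩) | 
      ⟨rfl, rfl, rfl, rfl⟩) | (⟨rfl, rfl, rfl, rfl⟩ | ⟨rfl, rfl, rfl, rfl⟩))) | ((((⟨rfl, rfl, rfl, rfl⟩ | ⟨rfl, rfl, rfl, rfl⟩) | ⟨rfl, rfl, rfl, rfl⟩) | 
      ((⟨rfl, rfl, rfl, rfl⟩ | ⟨rfl, rfl, rfl, rfl⟩) | ⟨rfl, rfl, rfl, rfl⟩)) | (((⟨rfl, rfl, rfl, rfl⟩ | ⟨rfl, rfl, rfl, rfl⟩) | ⟨rfl, rfl, rfl, rfl⟩) | 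
      (⟨rfl, rfl, rfl, rfl⟩ | ⟨rfl, rfl, rfl, rfl⟩))))) | ((((((⟨rfl, rfl, rfl, rfl⟩ | ⟨rfl, rfl, rfl, rfl⟩) | ⟨rfl, rfl, rfl, rfl⟩) | ((⟨rfl, rfl, rfl, rfl⟩ | 
      ⟨rfl, rfl, rfl, rfl⟩) | ⟨rfl, rfl, rfl, rfl⟩)) | (((⟨rfl, rfl, rfl, rfl⟩ | ⟨rfl, rfl, rfl, rfl⟩) | ⟨rfl, rfl, rfl, rfl⟩) | (⟨rfl, rfl, rfl, rfl⟩ | 
      ⟨rfl, rfl, rfl, rfl⟩))) | ((((⟨rfl, rfl, rfl, rfl⟩ | ⟨rfl, rfl, rfl, rfl⟩) | ⟨rfl, rfl, rfl, rfl⟩) | ((⟨rfl, rfl, rfl, rfl⟩ | ⟨rfl, rfl, rfl, rfl⟩) | 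
      ⟨rfl, rfl, rfl, rfl⟩)) | (((⟨rfl, rfl, rfl, rfl⟩ | ⟨rfl, rfl, rfl, rfl⟩) | ⟨rfl, rfl, rfl, rfl⟩) | (⟨rfl, rfl, rfl, rfl⟩ | ⟨rfl, rfl, rfl, rfl⟩)))) | 
      (((((⟨rfl, rfl, rfl, rfl⟩ | ⟨rfl, rfl, rfl, rfl⟩) | ⟨rfl, rfl, rfl, rfl⟩) | ((⟨rfl, rfl, rfl, rfl⟩ | ⟨rfl, rfl, rfl, rfl⟩) | ⟨rfl, rfl, rfl, rfl⟩)) | 
      (((⟨rfl, rfl, rfl, rfl⟩ | ⟨rfl, rfl, rfl, rfl⟩) | ⟨rfl, rfl, rfl, rfl⟩) | (⟨rfl, rfl, rfl, rfl⟩ | ⟨rfl, rfl, rfl, rfl⟩))) | ((((⟨rfl, rfl, rfl, rfl⟩ | 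
      ⟨rfl, rfl, rfl, rfl⟩) | ⟨rfl, rfl, rfl, rfl⟩) | (⟨rfl, rfl, rfl, rfl⟩ | ⟨rfl, rfl, rfl, rfl⟩)) | (((⟨rfl, rfl, rfl, rfl⟩ | ⟨rfl, rfl, rfl, rfl⟩) | 
      ⟨rfl, rfl, rfl, rfl⟩) | (⟨rfl, rfl, rfl, rfl⟩ | ⟨rfl, rfl, rfl, rfl⟩)))))) | (((((((⟨rfl, rfl, rfl, rfl⟩ | ⟨rfl, rfl, rfl, rfl⟩) | ⟨rfl, rfl, rfl, rfl⟩) | 
      ((⟨rfl, rfl, rfl, rfl⟩ | ⟨rfl, rfl, rfl, rfl⟩) | ⟨rfl, rfl, rfl, rfl⟩)) | (((⟨rfl, rfl, rfl, rfl⟩ | ⟨rfl, rfl, rfl, rfl⟩) | ⟨rfl, rfl, rfl, rfl⟩) | 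
      (⟨rfl, rfl, rfl, rfl⟩ | ⟨rfl, rfl, rfl, rfl⟩))) | ((((⟨rfl, rfl, rfl, rfl⟩ | ⟨rfl, rfl, rfl, rfl⟩) | ⟨rfl, rfl, rfl, rfl⟩) | ((⟨rfl, rfl, rfl, rfl⟩ | 
      ⟨rfl, rfl, rfl, rfl⟩) | ⟨rfl, rfl, rfl, rfl⟩)) | (((⟨rfl, rfl, rfl, rfl⟩ | ⟨rfl, rfl, rfl, rfl⟩) | ⟨rfl, rfl, rfl, rfl⟩) | (⟨rfl, rfl, rfl, rfl⟩ | 
      ⟨rfl, rfl, rfl, rfl⟩)))) | (((((⟨rfl, rfl, rfl, rfl⟩ | ⟨rfl, rfl, rfl, rfl⟩) | ⟨rfl, rfl, rfl, rfl⟩) | ((⟨rfl, rfl, rfl, rfl⟩ | ⟨rfl, rfl, rfl, rfl⟩) | 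
      ⟨rfl, rfl, rfl, rfl⟩)) | (((⟨rfl, rfl, rfl, rfl⟩ | ⟨rfl, rfl, rfl, rfl⟩) | ⟨rfl, rfl, rfl, rfl⟩) | (⟨rfl, rfl, rfl, rfl⟩ | ⟨rfl, rfl, rfl, rfl⟩))) | 
      ((((⟨rfl, rfl, rfl, rfl⟩ | ⟨rfl, rfl, rfl, rfl⟩) | ⟨rfl, rfl, rfl, rfl⟩) | ((⟨rfl, rfl, rfl, rfl⟩ | ⟨rfl, rfl, rfl, rfl⟩) | ⟨rfl, rfl, rfl, rfl⟩)) | 
      (((⟨rfl, rfl, rfl, rfl⟩ | ⟨rfl, rfl, rfl, rfl⟩) | ⟨rfl, rfl, rfl, rfl⟩) | (⟨rfl, rfl, rfl, rfl⟩ | ⟨rfl, rfl, rfl, rfl⟩))))) | ((((((⟨rfl, rfl, rfl, rfl⟩ | 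
      ⟨rfl, rfl, rfl, rfl⟩) | ⟨rfl, rfl, rfl, rfl⟩) | ((⟨rfl, rfl, rfl, rfl⟩ | ⟨rfl, rfl, rfl, rfl⟩) | ⟨rfl, rfl, rfl, rfl⟩)) | (((⟨rfl, rfl, rfl, rfl⟩ | 
      ⟨rfl, rfl, rfl, rfl⟩) | ⟨rfl, rfl, rfl, rfl⟩) | (⟨rfl, rfl, rfl, rfl⟩ | ⟨rfl, rfl, rfl, rfl⟩))) | ((((⟨rfl, rfl, rfl, rfl⟩ | ⟨rfl, rfl, rfl, rfl⟩) | 
      ⟨rfl, rfl, rfl, rfl⟩) | ((⟨rfl, rfl, rfl, rfl⟩ | ⟨rfl, rfl, rfl, rfl⟩) | ⟨rfl, rfl, rfl, rfl⟩)) | (((⟨rfl, rfl, rfl, rfl⟩ | ⟨rfl, rfl, rfl, rfl⟩) | 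
      ⟨rfl, rfl, rfl, rfl⟩) | (⟨rfl, rfl, rfl, rfl⟩ | ⟨rfl, rfl, rfl, rfl⟩)))) | (((((⟨rfl, rfl, rfl, rfl⟩ | ⟨rfl, rfl, rfl, rfl⟩) | ⟨rfl, rfl, rfl, rfl⟩) | 
      ((⟨rfl, rfl, rfl, rfl⟩ | ⟨rfl, rfl, rfl, rfl⟩) | ⟨rfl, rfl, rfl, rfl⟩)) | (((⟨rfl, rfl, rfl, rfl⟩ | ⟨rfl, rfl, rfl, rfl⟩) | ⟨rfl, rfl, rfl, rfl⟩) | 
      (⟨rfl, rfl, rfl, rfl⟩ | ⟨rfl, rfl, rfl, rfl⟩))) | ((((⟨rfl, rfl, rfl, rfl⟩ | ⟨rfl, rfl, rfl, rfl⟩) | ⟨rfl, rfl, rfl, rfl⟩) | (⟨rfl, rfl, rfl, rfl⟩ | 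
      ⟨rfl, rfl, rfl, rfl⟩)) | (((⟨rfl, rfl, rfl, rfl⟩ | ⟨rfl, rfl, rfl, rfl⟩) | ⟨rfl, rfl, rfl, rfl⟩) | (⟨rfl, rfl, rfl, rfl⟩ | ⟨rfl, rfl, rfl, rfl⟩)))))))
    · obtain ⟨r1, r2, r3, r4, r5, r6, r7, r8⟩ := hr
      exact hlw _ _ _ _ (by omega) (by omega) (by omega) (by omega) (by omega) (by omega)
    · exact Z.rOut hf (t := 4) (p := 0) (j := 4) (by omega) (by omega) (by omega) (by omega) (by omega) (by omega) (by omega) (by omega)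
    · exact Z.rOut hf (t := 4) (p := 0) (j := 4) (by omega) (by omega) (by omega) (by omega) (by omega) (by omega) (by omega) (by omega)
    · exact Z.rOut hf (t := 4) (p := 0) (j := 4) (by omega) (by omega) (by omega) (by omega) (by omega) (by omega) (by omega) (by omega)
    · exact Z.rOut hf (t := 4) (p := 0) (j := 4) (by omega) (by omega) (by omega) (by omega) (by omega) (by omega) (by omega) (by omega)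
    · exact Z.rOut hf (t := 4) (p := 0) (j := 4) (by omega) (by omega) (by omega) (by omega) (by omega) (by omega) (by omega) (by omega)
    · exact Z.rOut hf (t := 4) (p := 0) (j := 4) (by omega) (by omega) (by omega) (by omega) (by omega) (by omega) (by omega) (by omega)
    · exact Z.rOut hf (t := 4) (p := 0) (j := 4) (by omega) (by omega) (by omega) (by omega) (by omega) (by omega) (by omega) (by omega)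
    · exact Z.rOut hf (t := 4) (p := 0) (j := 4) (by omega) (by omega) (by omega) (by omega) (by omega) (by omega) (by omega) (by omega)
    · exact Z.rOut hf (t := 4) (p := 0) (j := 4) (by omega) (by omega) (by omega) (by omega) (by omega) (by omega) (by omega) (by omega)
    · exact Z.rOut hf (t := 4) (p := 0) (j := 4) (by omega) (by omega) (by omega) (by omega) (by omega) (by omega) (by omega) (by omega)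
    · exact Z.rOut hf (t := 4) (p := 0) (j := 4) (by omega) (by omega) (by omega) (by omega) (by omega) (by omega) (by omega) (by omega)
    · exact Z.rOut hf (t := 4) (p := 1) (j := 4) (by omega) (by omega) (by omega) (by omega) (by omega) (by omega) (by omega) (by omega)
    · exact Z.rOut hf (t := 4) (p := 1) (j := 4) (by omega) (by omega) (by omega) (by omega) (by omega) (by omega) (by omega) (by omega)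
    · exact Z.rOut hf (t := 4) (p := 1) (j := 4) (by omega) (by omega) (by omega) (by omega) (by omega) (by omega) (by omega) (by omega)
    · exact Z.rOut hf (t := 4) (p := 1) (j := 4) (by omega) (by omega) (by omega) (by omega) (by omega) (by omega) (by omega) (by omega)
    · exact Z.p2 hf (j := 4) (by omega) (by omega) (by omega) (by omega) (by omega) (by omega)
    · exact Z.rOut hf (t := 4) (p := 1) (j := 4) (by omega) (by omega) (by omega) (by omega) (by omega) (by omega) (by omega) (by omega)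
    · exact Z.rOut hf (t := 4) (p := 1) (j := 4) (by omega) (by omega) (by omega) (by omega) (by omega) (by omega) (by omega) (by omega)
    · exact Z.rOut hf (t := 4) (p := 1) (j := 4) (by omega) (by omega) (by omega) (by omega) (by omega) (by omega) (by omega) (by omega)
    · exact Z.p2 hf (j := 4) (by omega) (by omega) (by omega) (by omega) (by omega) (by omega)
    · exact Z.rOut hf (t := 4) (p := 1) (j := 4) (by omega) (by omega) (by omega) (by omega) (by omega) (by omega) (by omega) (by omega)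
    · exact Z.rOut hf (t := 4) (p := 1) (j := 4) (by omega) (by omega) (by omega) (by omega) (by omega) (by omega) (by omega) (by omega)
    · exact Z.p2 hf (j := 4) (by omega) (by omega) (by omega) (by omega) (by omega) (by omega)
    · exact Z.p2 hf (j := 4) (by omega) (by omega) (by omega) (by omega) (by omega) (by omega)
    · exact Z.p2 hf (j := 4) (by omega) (by omega) (by omega) (by omega) (by omega) (by omega)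
    · exact Z.p2 hf (j := 4) (by omega) (by omega) (by omega) (by omega) (by omega) (by omega)
    · exact fun t => absurd ((v3s y2_5 d2 (by omega) (by omega) (by omega) (by omega) (by omega) (by omega)).1 t) (by unfold V3; omega)
    · exact fun t => absurd ((v3s y2_5 d2 (by omega) (by omega) (by omega) (by omega) (by omega) (by omega)).1 t) (by unfold V3; omega)
    · exact fun t => absurd ((v3s y2_5 d2 (by omega) (by omega) (by omega) (by omega) (by omega) (by omega)).1 t) (by unfold V3; omega)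
    · exact fun t => absurd ((v3s y2_5 d2 (by omega) (by omega) (by omega) (by omega) (by omega) (by omega)).1 t) (by unfold V3; omega)
    · exact fun t => absurd ((v3s y2_5 d2 (by omega) (by omega) (by omega) (by omega) (by omega) (by omega)).1 t) (by unfold V3; omega)
    · exact fun t => absurd ((v3s y2_5 d2 (by omega) (by omega) (by omega) (by omega) (by omega) (by omega)).1 t) (by unfold V3; omega)
    · exact fun t => absurd ((v3s y2_5 d2 (by omega) (by omega) (by omega) (by omega) (by omega) (by omega)).1 t) (by unfold V3; omega)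
    · exact fun t => absurd ((v3s y2_5 d2 (by omega) (by omega) (by omega) (by omega) (by omega) (by omega)).1 t) (by unfold V3; omega)
    · exact fun t => absurd ((v3s y2_5 d2 (by omega) (by omega) (by omega) (by omega) (by omega) (by omega)).1 t) (by unfold V3; omega)
    · exact fun t => absurd ((v3s y2_5 d2 (by omega) (by omega) (by omega) (by omega) (by omega) (by omega)).1 t) (by unfold V3; omega)
    · exact fun t => absurd ((v3s y2_5 d2 (by omega) (by omega) (by omega) (by omega) (by omega) (by omega)).1 t) (by unfold V3; omega)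
    · exact Z.rOut hf (t := 4) (p := 0) (j := 3) (by omega) (by omega) (by omega) (by omega) (by omega) (by omega) (by omega) (by omega)
    · exact Z.rOut hf (t := 4) (p := 0) (j := 3) (by omega) (by omega) (by omega) (by omega) (by omega) (by omega) (by omega) (by omega)
    · exact Z.rOut hf (t := 4) (p := 0) (j := 3) (by omega) (by omega) (by omega) (by omega) (by omega) (by omega) (by omega) (by omega)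
    · exact Z.rOut hf (t := 4) (p := 0) (j := 3) (by omega) (by omega) (by omega) (by omega) (by omega) (by omega) (by omega) (by omega)
    · exact Z.rOut hf (t := 4) (p := 0) (j := 3) (by omega) (by omega) (by omega) (by omega) (by omega) (by omega) (by omega) (by omega)
    · exact Z.rOut hf (t := 4) (p := 0) (j := 3) (by omega) (by omega) (by omega) (by omega) (by omega) (by omega) (by omega) (by omega)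
    · exact Z.rOut hf (t := 4) (p := 0) (j := 3) (by omega) (by omega) (by omega) (by omega) (by omega) (by omega) (by omega) (by omega)
    · exact Z.rOut hf (t := 4) (p := 0) (j := 3) (by omega) (by omega) (by omega) (by omega) (by omega) (by omega) (by omega) (by omega)
    · exact Z.rOut hf (t := 4) (p := 0) (j := 3) (by omega) (by omega) (by omega) (by omega) (by omega) (by omega) (by omega) (by omega)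
    · exact Z.rOut hf (t := 4) (p := 0) (j := 3) (by omega) (by omega) (by omega) (by omega) (by omega) (by omega) (by omega) (by omega)
    · exact Z.rOut hf (t := 4) (p := 0) (j := 3) (by omega) (by omega) (by omega) (by omega) (by omega) (by omega) (by omega) (by omega)
    · exact Z.rOut hf (t := 4) (p := 0) (j := 3) (by omega) (by omega) (by omega) (by omega) (by omega) (by omega) (by omega) (by omega)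
    · exact Z.rOut hf (t := 4) (p := 0) (j := 3) (by omega) (by omega) (by omega) (by omega) (by omega) (by omega) (by omega) (by omega)
    · exact Z.rOut hf (t := 4) (p := 0) (j := 3) (by omega) (by omega) (by omega) (by omega) (by omega) (by omega) (by omega) (by omega)
    · exact Z.rOut hf (t := 4) (p := 0) (j := 3) (by omega) (by omega) (by omega) (by omega) (by omega) (by omega) (by omega) (by omega)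
    · exact Z.rOut hf (t := 4) (p := 0) (j := 3) (by omega) (by omega) (by omega) (by omega) (by omega) (by omega) (by omega) (by omega)
    · exact Z.rOut hf (t := 4) (p := 0) (j := 3) (by omega) (by omega) (by omega) (by omega) (by omega) (by omega) (by omega) (by omega)
    · exact Z.rOut hf (t := 4) (p := 0) (j := 3) (by omega) (by omega) (by omega) (by omega) (by omega) (by omega) (by omega) (by omega)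
    · exact Z.rOut hf (t := 4) (p := 0) (j := 3) (by omega) (by omega) (by omega) (by omega) (by omega) (by omega) (by omega) (by omega)
    · exact Z.rOut hf (t := 4) (p := 0) (j := 3) (by omega) (by omega) (by omega) (by omega) (by omega) (by omega) (by omega) (by omega)
    · exact Z.rOut hf (t := 4) (p := 0) (j := 3) (by omega) (by omega) (by omega) (by omega) (by omega) (by omega) (by omega) (by omega)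
    · exact fun t => hp2 _ (by omega) (by omega) (by omega) (mv t (by omega) (by omega) rfl (by omega))
    · exact fun t => hp2 _ (by omega) (by omega) (by omega) (mv t (by omega) (by omega) rfl (by omega))
    · exact fun t => hp2 _ (by omega) (by omega) (by omega) (mv t (by omega) (by omega) rfl (by omega))
    · exact Z.p0 hf (j := 2) (by omega) (by omega) (by omega) (by omega) (by omega) (by omega)
    · exact Z.p0 hf (j := 2) (by omega) (by omega) (by omega) (by omega) (by omega) (by omega)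
    · exact Z.p0 hf (j := 2) (by omega) (by omega) (by omega) (by omega) (by omega) (by omega)
    · exact Z.p0 hf (j := 2) (by omega) (by omega) (by omega) (by omega) (by omega) (by omega)
    · exact Z.p0 hf (j := 2) (by omega) (by omega) (by omega) (by omega) (by omega) (by omega)
    · exact Z.p0 hf (j := 2) (by omega) (by omega) (by omega) (by omega) (by omega) (by omega)
    · exact Z.p0 hf (j := 2) (by omega) (by omega) (by omega) (by omega) (by omega) (by omega)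
    · exact Z.p0 hf (j := 2) (by omega) (by omega) (by omega) (by omega) (by omega) (by omega)
    · exact Z.p0 hf (j := 2) (by omega) (by omega) (by omega) (by omega) (by omega) (by omega)
    · exact Z.p0 hf (j := 2) (by omega) (by omega) (by omega) (by omega) (by omega) (by omega)
    · exact Z.p0 hf (j := 2) (by omega) (by omega) (by omega) (by omega) (by omega) (by omega)
    · exact Z.p0 hf (j := 2) (by omega) (by omega) (by omega) (by omega) (by omega) (by omega)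
    · exact Z.p0 hf (j := 2) (by omega) (by omega) (by omega) (by omega) (by omega) (by omega)
    · exact Z.p0 hf (j := 2) (by omega) (by omega) (by omega) (by omega) (by omega) (by omega)
    · exact Z.p0 hf (j := 2) (by omega) (by omega) (by omega) (by omega) (by omega) (by omega)
    · exact Z.p0 hf (j := 2) (by omega) (by omega) (by omega) (by omega) (by omega) (by omega)
    · exact Z.rOut hf (t := 4) (p := 1) (j := 3) (by omega) (by omega) (by omega) (by omega) (by omega) (by omega) (by omega) (by omega)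
    · exact Z.rOut hf (t := 4) (p := 1) (j := 3) (by omega) (by omega) (by omega) (by omega) (by omega) (by omega) (by omega) (by omega)
    · exact Z.rOut hf (t := 4) (p := 1) (j := 3) (by omega) (by omega) (by omega) (by omega) (by omega) (by omega) (by omega) (by omega)
    · exact Z.p2 hf (j := 3) (by omega) (by omega) (by omega) (by omega) (by omega) (by omega)
    · exact Z.rOut hf (t := 4) (p := 1) (j := 3) (by omega) (by omega) (by omega) (by omega) (by omega) (by omega) (by omega) (by omega)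
    · exact Z.rOut hf (t := 4) (p := 1) (j := 3) (by omega) (by omega) (by omega) (by omega) (by omega) (by omega) (by omega) (by omega)
    · exact Z.rOut hf (t := 4) (p := 1) (j := 3) (by omega) (by omega) (by omega) (by omega) (by omega) (by omega) (by omega) (by omega)
    · exact Z.p2 hf (j := 3) (by omega) (by omega) (by omega) (by omega) (by omega) (by omega)
    · exact Z.rOut hf (t := 4) (p := 1) (j := 3) (by omega) (by omega) (by omega) (by omega) (by omega) (by omega) (by omega) (by omega)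
    · exact Z.rOut hf (t := 4) (p := 1) (j := 3) (by omega) (by omega) (by omega) (by omega) (by omega) (by omega) (by omega) (by omega)
    · exact Z.p2 hf (j := 3) (by omega) (by omega) (by omega) (by omega) (by omega) (by omega)
    · exact Z.rOut hf (t := 4) (p := 1) (j := 3) (by omega) (by omega) (by omega) (by omega) (by omega) (by omega) (by omega) (by omega)
    · exact Z.p2 hf (j := 3) (by omega) (by omega) (by omega) (by omega) (by omega) (by omega)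
    · exact Z.p2 hf (j := 3) (by omega) (by omega) (by omega) (by omega) (by omega) (by omega)
    · exact Z.p2 hf (j := 3) (by omega) (by omega) (by omega) (by omega) (by omega) (by omega)
    · exact Z.p2 hf (j := 3) (by omega) (by omega) (by omega) (by omega) (by omega) (by omega)
    · exact Z.p2 hf (j := 3) (by omega) (by omega) (by omega) (by omega) (by omega) (by omega)
    · exact fun t => absurd ((v1 y4_3 (S.l4 5) (by omega) (by omega) (by omega) (by omega) (by omega)).1 t) (by unfold V1; omega)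
    · exact fun t => absurd ((v1 y4_3 (S.l4 5) (by omega) (by omega) (by omega) (by omega) (by omega)).1 t) (by unfold V1; omega)
    · exact fun t => absurd ((v1 y4_3 (S.l4 5) (by omega) (by omega) (by omega) (by omega) (by omega)).1 t) (by unfold V1; omega)
    · exact fun t => absurd ((v1 y4_3 (S.l4 5) (by omega) (by omega) (by omega) (by omega) (by omega)).1 t) (by unfold V1; omega)
    · exact fun t => absurd ((v1 y4_3 (S.l4 5) (by omega) (by omega) (by omega) (by omega) (by omega)).1 t) (by unfold V1; omega)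
    · exact fun t => absurd ((v1 y4_3 (S.l4 5) (by omega) (by omega) (by omega) (by omega) (by omega)).1 t) (by unfold V1; omega)
    · exact fun t => absurd ((v1 y4_3 (S.l4 5) (by omega) (by omega) (by omega) (by omega) (by omega)).1 t) (by unfold V1; omega)
    · exact fun t => absurd ((v1 y4_3 (S.l4 5) (by omega) (by omega) (by omega) (by omega) (by omega)).1 t) (by unfold V1; omega)
    · exact fun t => absurd ((v1 y4_3 (S.l4 5) (by omega) (by omega) (by omega) (by omega) (by omega)).1 t) (by unfold V1; omega)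
    · exact fun t => absurd ((v1 y4_3 (S.l4 5) (by omega) (by omega) (by omega) (by omega) (by omega)).1 t) (by unfold V1; omega)
    · exact fun t => absurd ((v1 y4_3 (S.l4 5) (by omega) (by omega) (by omega) (by omega) (by omega)).1 t) (by unfold V1; omega)
    · exact fun t => absurd ((v1 y4_3 (S.l4 5) (by omega) (by omega) (by omega) (by omega) (by omega)).1 t) (by unfold V1; omega)
    · exact fun t => absurd ((v1 y4_3 (S.l4 5) (by omega) (by omega) (by omega) (by omega) (by omega)).1 t) (by unfold V1; omega)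
    · exact fun t => absurd ((v1 y4_3 (S.l4 5) (by omega) (by omega) (by omega) (by omega) (by omega)).1 t) (by unfold V1; omega)
    · exact fun t => absurd ((v1 y4_3 (S.l4 5) (by omega) (by omega) (by omega) (by omega) (by omega)).1 t) (by unfold V1; omega)
    · exact fun t => absurd ((v1 y4_3 (S.l4 5) (by omega) (by omega) (by omega) (by omega) (by omega)).1 t) (by unfold V1; omega)
    · exact fun t => absurd ((v2x y4_3 (S.l4 5) (by omega) (by omega) (by omega) (by omega) (by omega) (by omega)).1 t) (by unfold V2; omega)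
    · exact fun t => absurd ((v2x y4_3 (S.l4 5) (by omega) (by omega) (by omega) (by omega) (by omega) (by omega)).1 t) (by unfold V2; omega)
    · exact Z.rOut hf (t := 4) (p := 0) (j := 2) (by omega) (by omega) (by omega) (by omega) (by omega) (by omega) (by omega) (by omega)
    · exact Z.rOut hf (t := 4) (p := 0) (j := 2) (by omega) (by omega) (by omega) (by omega) (by omega) (by omega) (by omega) (by omega)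
    · exact Z.rOut hf (t := 4) (p := 0) (j := 2) (by omega) (by omega) (by omega) (by omega) (by omega) (by omega) (by omega) (by omega)
    · exact Z.rOut hf (t := 4) (p := 0) (j := 2) (by omega) (by omega) (by omega) (by omega) (by omega) (by omega) (by omega) (by omega)
    · exact Z.rOut hf (t := 4) (p := 0) (j := 2) (by omega) (by omega) (by omega) (by omega) (by omega) (by omega) (by omega) (by omega)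
    · exact Z.rOut hf (t := 4) (p := 0) (j := 2) (by omega) (by omega) (by omega) (by omega) (by omega) (by omega) (by omega) (by omega)
    · exact Z.p0 hf (j := 1) (by omega) (by omega) (by omega) (by omega) (by omega) (by omega)
    · exact Z.p0 hf (j := 1) (by omega) (by omega) (by omega) (by omega) (by omega) (by omega)
    · exact U.p0 hf (j := 1) (by omega) (by omega) (by omega) (by omega) (by omega) (by omega)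
    · exact Z.p0 hf (j := 1) (by omega) (by omega) (by omega) (by omega) (by omega) (by omega)
    · exact U.p0 hf (j := 1) (by omega) (by omega) (by omega) (by omega) (by omega) (by omega)
    · exact Z.p0 hf (j := 1) (by omega) (by omega) (by omega) (by omega) (by omega) (by omega)
    · exact U.p0 hf (j := 1) (by omega) (by omega) (by omega) (by omega) (by omega) (by omega)
    · exact U.p0 hf (j := 1) (by omega) (by omega) (by omega) (by omega) (by omega) (by omega)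
    · exact Z.p0 hf (j := 1) (by omega) (by omega) (by omega) (by omega) (by omega) (by omega)
    · exact Z.p0 hf (j := 1) (by omega) (by omega) (by omega) (by omega) (by omega) (by omega)
    · exact U.p0 hf (j := 1) (by omega) (by omega) (by omega) (by omega) (by omega) (by omega)
    · exact Z.p0 hf (j := 1) (by omega) (by omega) (by omega) (by omega) (by omega) (by omega)
    · exact U.p0 hf (j := 1) (by omega) (by omega) (by omega) (by omega) (by omega) (by omega)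
    · exact U.p0 hf (j := 1) (by omega) (by omega) (by omega) (by omega) (by omega) (by omega)
    · exact U.p0 hf (j := 1) (by omega) (by omega) (by omega) (by omega) (by omega) (by omega)
    · exact Z.p0 hf (j := 1) (by omega) (by omega) (by omega) (by omega) (by omega) (by omega)
    · exact Z.p0 hf (j := 1) (by omega) (by omega) (by omega) (by omega) (by omega) (by omega)
    · exact U.p0 hf (j := 1) (by omega) (by omega) (by omega) (by omega) (by omega) (by omega)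
    · exact Z.p0 hf (j := 1) (by omega) (by omega) (by omega) (by omega) (by omega) (by omega)
    · exact U.p0 hf (j := 1) (by omega) (by omega) (by omega) (by omega) (by omega) (by omega)
    · exact Z.p0 hf (j := 1) (by omega) (by omega) (by omega) (by omega) (by omega) (by omega)
    · exact U.p0 hf (j := 1) (by omega) (by omega) (by omega) (by omega) (by omega) (by omega)
    · exact U.p0 hf (j := 1) (by omega) (by omega) (by omega) (by omega) (by omega) (by omega)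
    · exact Z.p0 hf (j := 1) (by omega) (by omega) (by omega) (by omega) (by omega) (by omega)
    · exact Z.p0 hf (j := 1) (by omega) (by omega) (by omega) (by omega) (by omega) (by omega)
    · exact U.p0 hf (j := 1) (by omega) (by omega) (by omega) (by omega) (by omega) (by omega)
    · exact Z.p0 hf (j := 1) (by omega) (by omega) (by omega) (by omega) (by omega) (by omega)
    · exact U.p0 hf (j := 1) (by omega) (by omega) (by omega) (by omega) (by omega) (by omega)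
    · exact U.p0 hf (j := 1) (by omega) (by omega) (by omega) (by omega) (by omega) (by omega)
    · exact U.p0 hf (j := 1) (by omega) (by omega) (by omega) (by omega) (by omega) (by omega)
    · exact Z.rOut hf (t := 4) (p := 1) (j := 2) (by omega) (by omega) (by omega) (by omega) (by omega) (by omega) (by omega) (by omega)
    · exact Z.p2 hf (j := 2) (by omega) (by omega) (by omega) (by omega) (by omega) (by omega)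
    · exact Z.p2 hf (j := 2) (by omega) (by omega) (by omega) (by omega) (by omega) (by omega)
    · exact U.p2 hf (j := 2) (by omega) (by omega) (by omega) (by omega) (by omega) (by omega)
    · exact U.p2 hf (j := 2) (by omega) (by omega) (by omega) (by omega) (by omega) (by omega)
    · exact Z.p2 hf (j := 2) (by omega) (by omega) (by omega) (by omega) (by omega) (by omega)
    · exact Z.p2 hf (j := 2) (by omega) (by omega) (by omega) (by omega) (by omega) (by omega)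
    · exact U.p2 hf (j := 2) (by omega) (by omega) (by omega) (by omega) (by omega) (by omega)
    · exact U.p2 hf (j := 2) (by omega) (by omega) (by omega) (by omega) (by omega) (by omega)
    · exact fun t => absurd ((v1 y6_3 (S.l6 5) (by omega) (by omega) (by omega) (by omega) (by omega)).1 t) (by unfold V1; omega)
    · exact fun t => absurd ((v1 y6_3 (S.l6 5) (by omega) (by omega) (by omega) (by omega) (by omega)).1 t) (by unfold V1; omega)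
    · exact fun t => absurd ((v1 y6_3 (S.l6 5) (by omega) (by omega) (by omega) (by omega) (by omega)).1 t) (by unfold V1; omega)
    · exact fun t => absurd ((v1 y6_3 (S.l6 5) (by omega) (by omega) (by omega) (by omega) (by omega)).1 t) (by unfold V1; omega)
    · exact fun t => absurd ((v1 y6_3 (S.l6 5) (by omega) (by omega) (by omega) (by omega) (by omega)).1 t) (by unfold V1; omega)
    · exact fun t => absurd ((v1 y6_3 (S.l6 5) (by omega) (by omega) (by omega) (by omega) (by omega)).1 t) (by unfold V1; omega)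
    · exact fun t => absurd ((v1 y6_3 (S.l6 5) (by omega) (by omega) (by omega) (by omega) (by omega)).1 t) (by unfold V1; omega)
    · exact fun t => absurd ((v1 y6_3 (S.l6 5) (by omega) (by omega) (by omega) (by omega) (by omega)).1 t) (by unfold V1; omega)
    · exact fun t => absurd ((v1 y6_3 (S.l6 5) (by omega) (by omega) (by omega) (by omega) (by omega)).1 t) (by unfold V1; omega)
    · exact Z.rOut hf (t := 4) (p := 1) (j := 1) (by omega) (by omega) (by omega) (by omega) (by omega) (by omega) (by omega) (by omega)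
    · exact Z.p2 hf (j := 1) (by omega) (by omega) (by omega) (by omega) (by omega) (by omega)
    · exact U.r1 hf (p := 1) (j := 1) (by omega) (by omega) (by omega) (by omega) (by omega) (by omega)
    · exact Z.p2 hf (j := 1) (by omega) (by omega) (by omega) (by omega) (by omega) (by omega)
    · exact U.r1 hf (p := 1) (j := 1) (by omega) (by omega) (by omega) (by omega) (by omega) (by omega)
    · exact Z.p2 hf (j := 1) (by omega) (by omega) (by omega) (by omega) (by omega) (by omega)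
    · exact Z.p2 hf (j := 1) (by omega) (by omega) (by omega) (by omega) (by omega) (by omega)

end Pool.Agent.SNT.O2W
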