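import Pool.Agent.SNT.O2W8
import Pool.Agent.SNT.O2W6
import Pool.Agent.SNT.O2W4

set_option autoImplicit false

/-! The wall end of the line `y = 2 n - 2` of the layer `6 k + 1` in the row `c + 2` (helper82). -/

namespace Pool.Agent.SNT.O2W

open Pool.Agent.SNT Pool.Agent.SNT.Sig Pool.Agent.SNT.ZoneT Pool.Agent.SNT.LW

variable {f : ℕ → ℕ → ℕ → ℕ → Prop} {k b m : ℕ}

/-- `d = 2 k - 6, 2 k - 4, 2 k - 2` of the line `y = 2 n - 2`, leads `(1, -4, -7)` -/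
theorem out2_wall (hf : Rule f) (hs : Side k b m) (S : Stack6 f k b m 0 0 0 0 0 1) {n : ℕ}
    (hn : n = m + 9 + (k + 2) * 4)
    (d0 : Cyc f (6 * k) (b + 16) (2 * (n - 7) + 2)) (d2 : Cyc f (6 * k + 2) (b + 18) (2 * (n - 4) + 2))
    (d4 : Cyc f (6 * k + 4) (b + 20) (2 * (n + 1) + 2))
    (hp2 : ∀ x : ℕ, x % 2 = 1 → 2 * n + 9 ≤ x → x + 1 ≤ 2 * n + 2 * k → ¬ f (6 * k + 2) (b + 24) x (2 * n + 4))
    (hp6 : ∀ x : ℕ, x % 2 = 1 → 2 * n + 7 ≤ x → x + 1 ≤ 2 * n + 2 * k → ¬ f (6 * k + 6) (b + 24) x (2 * n + 4))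
    {x : ℕ} (hx : x % 2 = 0) (h1 : 2 * n + 2 * k ≤ x + 8) (h2 : x + 4 ≤ 2 * n + 2 * k) :
    ¬ f (6 * k + 1) (b + 24) x (2 * n - 2) := by
  have h3 : x = 2 * n + 2 * k - 8 ∨ x = 2 * n + 2 * k - 6 ∨ x = 2 * n + 2 * k - 4 := by omega
  rcases h3 with h | h | h
  · subst h; exact out2_w8 hf hs S hn d0 d2 d4 hp2 hp6
  · subst h; exact out2_w6 hf hs S hn d0 d2 d4 hp2 hp6
  · subst h; exact out2_w4 hf hs S hn d0 d2 d4 hp2 hp6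

end Pool.Agent.SNT.O2W
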