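import Pool.Agent.SNT.Sig

set_option autoImplicit false

/-! The line of a missing signal (`sr = 0`) in an even row above a clean row: it is only absorbed by cells of the odd layer
below which are not of the type (even, even), and it never collides if the odd layer above is zero. -/

namespace Pool.Agent.SNT.SLine

open Pool.Agent.SNT Pool.Agent.SNT.Sig

variable {f : ℕ → ℕ → ℕ → ℕ → Prop} {L b i j i0 i1 : ℕ}

/-- no collision below a zero cell of the odd layer above -/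
theorem coll_zero (hf : Rule f) (hL : L % 2 = 0) (hb : b % 2 = 0)
    (h0 : ¬ f (L + 1) b (2 * i + 2) (2 * j + 2))
    (h1 : ∀ p x y : ℕ, p ≤ 1 → 2 * i + 1 ≤ x → x ≤ 2 * i + 2 → 2 * j + 1 ≤ y → y ≤ 2 * j + 2 → ¬ f (L + p) (b - 1) x y) :
    ¬ Coll f L b i j := by
  intro h
  refine h0 (E_of_coll hf hL hb h (fun r s hr hs hrs => ?_) (fun p r s hp hr hs hb1 => ?_))
  · rcases Nat.eq_zero_or_pos s with hs0 | hs0
    · have er : r = 1 := by omega
      subst er hs0
      have := kill hf h.1 1 0 1 1 le_rfl (by omega) le_rfl le_rfl (by omega)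
      have e1 : 2 * i + 2 - 1 = 2 * i + 1 := by omega
      have e2 : 2 * j + 2 - 0 = 2 * j + 1 + 1 := by omega
      rw [e1, e2]
      exact this
    · have es : s = 1 := by omega
      subst es
      have := kill hf h.2 1 0 (1 - r) 1 le_rfl (by omega) (by omega) le_rfl (by omega)
      have e1 : 2 * i + 2 - r = 2 * i + 1 + (1 - r) := by omega
      have e2 : 2 * j + 2 - 1 = 2 * j + 1 := by omega
      rw [e1, e2]
      exact this
  · have := h1 (1 - p) (2 * i + 2 - r) (2 * j + 2 - s) (by omega) (by omega) (by omega) (by omega) (by omega)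
    have e1 : L + 1 - p = L + (1 - p) := by omega
    rwa [e1]

/-- a cell is not blocked: hypotheses as a region -/
theorem nb_of {x y : ℕ}
    (hP : ∀ x' y' : ℕ, x ≤ x' + 1 → x' ≤ x → y ≤ y' + 1 → y' ≤ y → ¬ f (L - 1) b x' y')
    (hr : ∀ p x' y' : ℕ, p ≤ 1 → x ≤ x' + 1 → x' ≤ x → y ≤ y' + 1 → y' ≤ y → ¬ f (L - p) (b - 1) x' y') :
    NB f L b x y := by
  intro p q r s hp hq hr' hs hpq _ _ _ _ h
  rcases Nat.eq_zero_or_pos q with hq0 | hq0
  · subst hq0
    have ep : p = 1 := by omega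
    subst ep
    exact hP (x - r) (y - s) (by omega) (by omega) (by omega) (by omega) h
  · have eq : q = 1 := by omega
    subst eq
    exact hr p (x - r) (y - s) hp (by omega) (by omega) (by omega) (by omega) h

/-- **The line of a missing signal.** -/
theorem s_line (hf : Rule f) (hL : L % 2 = 0) (hL1 : 1 ≤ L) (hb : b % 2 = 0)
    (hP : ∀ x y : ℕ, 2 * i0 + 1 ≤ x → x ≤ 2 * i1 → 2 * j ≤ y → y ≤ 2 * j + 1 → (x % 2 = 1 ∨ y % 2 = 1) →
      ¬ f (L - 1) b x y)
    (hU : ∀ i : ℕ, i0 < i → i ≤ i1 → ¬ f (L + 1) b (2 * i + 2) (2 * j + 2))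
    (hr0 : ∀ p x y : ℕ, p ≤ 1 → 2 * i0 + 1 ≤ x → x ≤ 2 * i1 → 2 * j ≤ y → y ≤ 2 * j + 1 → ¬ f (L - p) (b - 1) x y)
    (hr1 : ∀ p x y : ℕ, p ≤ 1 → 2 * i0 + 3 ≤ x → x ≤ 2 * i1 + 2 → 2 * j + 1 ≤ y → y ≤ 2 * j + 2 →
      ¬ f (L + p) (b - 1) x y)
    (h1 : ¬ sr f L b i0 j) {i : ℕ} (hi : i0 ≤ i) (hi1 : i ≤ i1) : ¬ sr f L b i j := by
  refine r0_line hf hL hb (fun i h2 h3 => ?_) (fun i h2 h3 => ?_) h1 i hi hi1
  · by_cases hE : f (L - 1) b (2 * i) (2 * j)
    · exact Or.inr ⟨hL1, hE⟩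
    · refine Or.inl (nb_of (fun x' y' a1 a2 a3 a4 => ?_) (fun p x' y' hp a1 a2 a3 a4 => ?_))
      · by_cases h4 : x' % 2 = 1 ∨ y' % 2 = 1
        · exact hP x' y' (by omega) (by omega) (by omega) (by omega) h4
        · have e1 : x' = 2 * i := by omega
          have e2 : y' = 2 * j := by omega
          rw [e1, e2]
          exact hE
      · exact hr0 p x' y' hp (by omega) (by omega) (by omega) (by omega)
  · exact coll_zero hf hL hb (hU i h2 h3) (fun p x y hp a1 a2 a3 a4 => hr1 p x y hp (by omega) (by omega) a3 a4)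

/-- at a block which is not under an E-cell the missing signal forces the X-cell -/
theorem x_of_line (hf : Rule f) (hL : L % 2 = 0) (hb : b % 2 = 0)
    (hP : ∀ x y : ℕ, 2 * i + 1 ≤ x → x ≤ 2 * i + 2 → 2 * j ≤ y → y ≤ 2 * j + 1 → ¬ f (L - 1) b x y)
    (hr0 : ∀ p x y : ℕ, p ≤ 1 → 2 * i + 1 ≤ x → x ≤ 2 * i + 2 → 2 * j ≤ y → y ≤ 2 * j + 1 → ¬ f (L - p) (b - 1) x y)
    (h1 : ¬ sr f L b i j) : bX f L b (i + 1) j := by
  rw [rX hf hL hb (nb_of (fun x' y' a1 a2 a3 a4 => hP x' y' (by omega) (by omega)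
    (by omega) (by omega)) (fun p x' y' hp a1 a2 a3 a4 => hr0 p x' y' hp (by omega) (by omega) (by omega) (by omega)))]
  exact h1

end Pool.Agent.SNT.SLine
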