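import Pool.Agent.SNT.NHP
import Pool.Agent.SNT.NHZone2
import Pool.Agent.SNT.SLine

set_option autoImplicit false

/-! The lines `y = 2 n + 2, 2 n, 2 n - 2` of `P_(6k+1)` in the row `c + 2`, middle part (helper51, after helper64's NHAsm2): from the
purity of `6 k + 2` at `y = 2 n + 4` and one wall signal of `6 k + 4`. -/

namespace Pool.Agent.SNT.Zb

open Pool.Agent.SNT Pool.Agent.SNT.Sig Pool.Agent.SNT.NHP Pool.Agent.SNT.NHZ Pool.Agent.SNT.SLine

variable {f : ℕ → ℕ → ℕ → ℕ → Prop}

/-- The facts. -/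
structure ZBH (f : ℕ → ℕ → ℕ → ℕ → Prop) (k c n : ℕ) : Prop where
  T : NHT f k c (2 * n)
  lw : ∀ M R x y : ℕ, M + 1 = 6 * k → c ≤ R + 12 → R ≤ c + 12 → 2 * n ≤ x → y ≤ x → x ≤ y + 4 * k → ¬ f M R x y
  /-- purity -/
  u2 : ∀ x : ℕ, 2 * n + 9 ≤ x → x + 5 ≤ 2 * n + 2 * k → x % 2 = 1 → ¬ f (6 * k + 2) (c + 2) x (2 * n + 4)
  /-- the wall -/
  w1 : sr f (6 * k + 4) (c + 2) (n + k - 4) (n + 1)

namespace ZBH

variable {k c n : ℕ}

/-- the row `c + 1` is zero -/
theorem r1 (hf : Rule f) (H : ZBH f k c n) (L x y : ℕ) (h1 : 6 * k + 1 ≤ L) (h2 : L ≤ 6 * k + 9) (h3 : 2 * n ≤ y + 1)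
    (h4 : y + 1 + (6 * k + 9 - L) / 2 ≤ x) (h5 : x + 2 + (6 * k + 9 - L) / 2 ≤ y + 2 * k) : ¬ f L (c + 1) x y := by
  rcases Nat.mod_two_eq_zero_or_one L with hL | hL
  · exact H.T.r1 hf (L := L) (p := 0) (j := (6 * k + 9 - L) / 2) (by omega) (by omega) (by omega) h3 h4 h5
  · exact H.T.r1 hf (L := L) (p := 1) (j := (6 * k + 9 - L) / 2) (by omega) (by omega) (by omega) h3 h4 h5

/-- the odd layers are zero at `y = N + 4` -/
theorem r2 (hf : Rule f) (H : ZBH f k c n) (L x : ℕ) (h1 : 6 * k + 1 ≤ L) (h2 : L ≤ 6 * k + 9) (h3 : L % 2 = 1)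
    (h4 : 2 * n + 5 + (6 * k + 9 - L) / 2 ≤ x) (h5 : x + (6 * k + 9 - L) / 2 ≤ 2 * n + 2 + 2 * k) :
    ¬ f L (c + 2) x (2 * n + 4) :=
  H.T.p2 hf (L := L) (j := (6 * k + 9 - L) / 2) (by omega) (by omega) (Or.inr rfl) le_rfl (by omega) (by omega)

/-- `P1` has only cells of the type (even, even) in the row `c + 2` -/
theorem e1 (hf : Rule f) (H : ZBH f k c n) (x y : ℕ) (h1 : 2 * n ≤ y) (h2 : y + 6 ≤ x) (h3 : x + 7 ≤ y + 2 * k)
    (hxy : ¬ (x % 2 = 0 ∧ y % 2 = 0)) : ¬ f (6 * k + 1) (c + 2) x y := by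
  have T := H.T
  have hk := T.hk
  refine e_only hf (L := 6 * k) (b := c + 2) (by omega) (fun p x' y' hp a1 a2 a3 a4 => ?_) (fun x' y' a1 a2 a3 a4 => ?_)
  · rw [show c + 2 - 1 = c + 1 by omega]
    rcases Nat.eq_zero_or_pos p with hp0 | hp0
    · subst hp0
      exact T.r1 hf (L := 6 * k) (p := 0) (j := 4) le_rfl (by omega) (by omega) (by omega) (by omega) (by omega)
    · have ep : p = 1 := by omega
      subst ep
      exact H.lw _ _ _ _ (by omega) (by omega) (by omega) (by omega) (by omega) (by omega)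
  · exact H.lw _ _ _ _ (by omega) (by omega) (by omega) (by omega) (by omega) (by omega)

theorem e0 (hf : Rule f) (H : ZBH f k c n) (x y : ℕ) (h1 : 2 * n + 4 ≤ x) (h2 : y + 7 ≤ x) (h3 : x + 8 ≤ y + 2 * k)
    (hxy : ¬ (x % 2 = 0 ∧ y % 2 = 0)) : ¬ f (6 * k + 1) (c + 2) x y := by
  have T := H.T
  have hk := T.hk
  refine e_only hf (L := 6 * k) (b := c + 2) (by omega) (fun p x' y' hp a1 a2 a3 a4 => ?_) (fun x' y' a1 a2 a3 a4 => ?_)
  · rw [show c + 2 - 1 = c + 1 by omega]
    rcases Nat.eq_zero_or_pos p with hp0 | hp0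
    · subst hp0
      exact T.r1i hf (L := 6 * k) (p := 0) (j := 5) le_rfl (by omega) (by omega) (by omega) (by omega) (by omega)
    · have ep : p = 1 := by omega
      subst ep
      exact H.lw _ _ _ _ (by omega) (by omega) (by omega) (by omega) (by omega) (by omega)
  · exact H.lw _ _ _ _ (by omega) (by omega) (by omega) (by omega) (by omega) (by omega)

/-- windows of the row `c + 1` -/
theorem wr (hf : Rule f) (H : ZBH f k c n) {L x y : ℕ} (h1 : 6 * k + 1 ≤ L) (h2 : L ≤ 6 * k + 9)
    (h4 : x + 3 + (6 * k + 9 - L) / 2 ≤ y + 2 * k) (h5 : 2 * n ≤ y + 1) (h6 : y + 2 + (6 * k + 9 - L) / 2 ≤ x) :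
    W0 f L (c + 1) x y :=
  ⟨H.r1 hf L _ _ h1 h2 h5 (by omega) (by omega), H.r1 hf L _ _ h1 h2 h5 (by omega) (by omega),
    H.r1 hf L _ _ h1 h2 (by omega) (by omega) (by omega), H.r1 hf L _ _ h1 h2 (by omega) (by omega) (by omega)⟩

/-- the predecessors of a cell of the layers `6 k + 2`, `6 k + 3` in the row `c + 2` -/
theorem pr (hf : Rule f) (H : ZBH f k c n) {L x y : ℕ} (hL : 6 * k + 2 ≤ L) (hL' : L ≤ 6 * k + 3)
    (hx : y + 2 + (6 * k + 10 - L) / 2 ≤ x) (hx' : x + 7 ≤ y + 2 * k) (hy : 2 * n ≤ y) (h0 : ¬ f L (c + 2) x y)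
    (hpar : ¬ (L % 2 = 0 ∧ x % 2 = 0 ∧ y % 2 = 0)) :
    f L (c + 2) (x - 1) y ∨ f L (c + 2) x (y - 1) ∨ f L (c + 2) (x - 1) (y - 1) ∨ f (L - 1) (c + 2) x y ∨
      f (L - 1) (c + 2) (x - 1) y ∨ f (L - 1) (c + 2) x (y - 1) ∨ f (L - 1) (c + 2) (x - 1) (y - 1) := by
  have hn := H.T.hN2
  refine predr hf h0 (fun h => hpar ⟨h.1, h.2.2.1, h.2.2.2⟩) fun p r s hp hr hs => ?_
  rw [show c + 2 - 1 = c + 1 by omega]
  exact H.r1 hf _ _ _ (by omega) (by omega) (by omega) (by omega) (by omega)

/-- a block of the row `T + 2`, `T + 3` of the OUT layer has a cell in the row `T + 3` -/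
theorem blk' (hf : Rule f) (H : ZBH f k c n) {x : ℕ} (hx : 2 * n + 9 ≤ x) (hx' : x + 6 ≤ 2 * n + 2 * k)
    (he : x % 2 = 0) : f (6 * k + 2) (c + 2) x (2 * n + 3) ∨ f (6 * k + 2) (c + 2) (x + 1) (2 * n + 3) := by
  have hc := H.T.hc
  have h0 := H.u2 (x + 1) (by omega) (by omega) (by omega)
  have := H.pr hf (L := 6 * k + 2) (by omega) (by omega) (by omega) (by omega) (by omega) h0 (by omega)
  rw [show 6 * k + 2 - 1 = 6 * k + 1 by omega, Nat.add_sub_cancel, show 2 * n + 4 - 1 = 2 * n + 3 by omega] at this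
  rcases this with h | h | h | h | h | h | h
  · exact absurd h (ev hf (by omega) (by omega) he (by omega))
  · exact Or.inr h
  · exact Or.inl h
  · exact absurd h (H.r2 hf _ _ (by omega) (by omega) (by omega) (by omega) (by omega))
  · exact absurd h (H.r2 hf _ _ (by omega) (by omega) (by omega) (by omega) (by omega))
  · exact absurd h (H.e1 hf _ _ (by omega) (by omega) (by omega) (by omega))
  · exact absurd h (H.e1 hf _ _ (by omega) (by omega) (by omega) (by omega))

/-- `P1(x,2) = 0` -/
theorem p1_2 (hf : Rule f) (H : ZBH f k c n) {x : ℕ} (hx : 2 * n + 9 ≤ x) (hx' : x + 6 ≤ 2 * n + 2 * k) :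
    ¬ f (6 * k + 1) (c + 2) x (2 * n + 2) := by
  intro h
  rcases Nat.mod_two_eq_zero_or_one x with he | he
  · rcases H.blk' hf hx hx' he with g | g
    · exact kl hf h (by omega) (by omega) le_rfl (by omega) le_rfl (by omega) (by omega)
        (by omega) (by omega) g
    · exact kl hf h (by omega) (by omega) le_rfl (by omega) (by omega) (by omega) (by omega)
        (by omega) (by omega) g
  · exact H.e1 hf x (2 * n + 2) (by omega) (by omega) (by omega) (by omega) h

/-- `P3(x,3) = 0`, away from the diagonal -/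
theorem p3_3' (hf : Rule f) (H : ZBH f k c n) {x : ℕ} (hx : 2 * n + 10 ≤ x) (hx' : x + 6 ≤ 2 * n + 2 * k) :
    ¬ f (6 * k + 3) (c + 2) x (2 * n + 3) := by
  have hc := H.T.hc
  intro h
  rcases Nat.mod_two_eq_zero_or_one x with he | he
  · have hz : ¬ f (6 * k + 2) (c + 2) x (2 * n + 3) := fun g => kl hf g (by omega) (by omega) le_rfl (by omega)
      le_rfl (by omega) le_rfl (by omega) (by omega) h
    have := H.pr hf (L := 6 * k + 2) (by omega) (by omega) (by omega) (by omega) (by omega) hz (by omega)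
    rw [show 6 * k + 2 - 1 = 6 * k + 1 by omega, show 2 * n + 3 - 1 = 2 * n + 2 by omega] at this
    rcases this with g | g | g | g | g | g | g
    · exact kl hf g (by omega) (by omega) le_rfl (by omega) (by omega) (by omega) le_rfl
        (by omega) (by omega) h
    · exact ev hf (by omega) (by omega) he (by omega) g
    · exact kl hf g (by omega) (by omega) le_rfl (by omega) (by omega) (by omega) (by omega)
        (by omega) (by omega) h
    · exact H.e1 hf _ _ (by omega) (by omega) (by omega) (by omega) g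
    · exact H.e1 hf _ _ (by omega) (by omega) (by omega) (by omega) g
    · exact H.p1_2 hf (by omega) (by omega) g
    · exact H.p1_2 hf (by omega) (by omega) g
  · rcases H.blk' hf (x := x - 1) (by omega) (by omega) (by omega) with g | g
    · exact kl hf g (by omega) (by omega) le_rfl (by omega) (by omega) (by omega) le_rfl
        (by omega) (by omega) h
    · rw [show x - 1 + 1 = x by omega] at g
      exact kl hf g (by omega) (by omega) le_rfl (by omega) (by omega) (by omega) le_rfl
        (by omega) (by omega) h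

/-- `P3(x,2) = 0` for odd `x` -/
theorem p3_2 (hf : Rule f) (H : ZBH f k c n) {x : ℕ} (hx : 2 * n + 10 ≤ x) (hx' : x + 7 ≤ 2 * n + 2 * k)
    (ho : x % 2 = 1) : ¬ f (6 * k + 3) (c + 2) x (2 * n + 2) := by
  have hc := H.T.hc
  intro h
  have hN := H.T.hN
  have hz : ¬ f (6 * k + 2) (c + 2) x (2 * n + 2) := fun g => kl hf g (by omega) (by omega) le_rfl (by omega)
    le_rfl (by omega) le_rfl (by omega) (by omega) h
  have := H.pr hf (L := 6 * k + 2) (by omega) (by omega) (by omega) (by omega) (by omega) hz (by omega)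
  rw [show 6 * k + 2 - 1 = 6 * k + 1 by omega, show 2 * n + 2 - 1 = 2 * n + 1 by omega] at this
  rcases this with g | g | g | g | g | g | g
  · exact ev hf (by omega) (by omega) (by omega) (by omega) g
  · exact kl hf g (by omega) (by omega) le_rfl (by omega) (by omega) (by omega) (by omega)
      (by omega) (by omega) h
  · exact kl hf g (by omega) (by omega) le_rfl (by omega) (by omega) (by omega) (by omega)
      (by omega) (by omega) h
  · exact H.e1 hf _ _ (by omega) (by omega) (by omega) (by omega) g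
  · exact H.p1_2 hf (by omega) (by omega) g
  · exact H.e1 hf _ _ (by omega) (by omega) (by omega) (by omega) g
  · exact H.e1 hf _ _ (by omega) (by omega) (by omega) (by omega) g

/-- `P1(x,0) = 0` -/
theorem p1_0 (hf : Rule f) (H : ZBH f k c n) {x : ℕ} (hx : 2 * n + 9 ≤ x) (hx' : x + 7 ≤ 2 * n + 2 * k) :
    ¬ f (6 * k + 1) (c + 2) x (2 * n) := by
  have hc := H.T.hc
  intro h
  rcases Nat.mod_two_eq_zero_or_one x with he | he
  · have k1 : ¬ f (6 * k + 2) (c + 2) x (2 * n + 1) := kl hf h (by omega) (by omega) le_rfl (by omega)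
      le_rfl (by omega) (by omega) (by omega) (by omega)
    have k2 : ¬ f (6 * k + 2) (c + 2) (x + 1) (2 * n + 1) := kl hf h (by omega) (by omega) le_rfl (by omega)
      (by omega) (by omega) (by omega) (by omega) (by omega)
    have g1 : f (6 * k + 2) (c + 2) (x + 1) (2 * n + 2) := by
      by_contra hz
      have := H.pr hf (L := 6 * k + 2) (by omega) (by omega) (by omega) (by omega) (by omega) hz
        (by omega)
      rw [show 6 * k + 2 - 1 = 6 * k + 1 by omega, show 2 * n + 2 - 1 = 2 * n + 1 by omega,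
        Nat.add_sub_cancel] at this
      rcases this with g | g | g | g | g | g | g
      · exact ev hf (by omega) (by omega) he (by omega) g
      · exact k2 g
      · exact k1 g
      · exact H.p1_2 hf (by omega) (by omega) g
      · exact H.p1_2 hf (by omega) (by omega) g
      · exact H.e1 hf _ _ (by omega) (by omega) (by omega) (by omega) g
      · exact H.e1 hf _ _ (by omega) (by omega) (by omega) (by omega) g
    have g2 : ¬ f (6 * k + 2) (c + 2) (x + 1) (2 * n + 3) := kl hf g1 (by omega) (by omega) le_rfl (by omega)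
      (by omega) (by omega) (by omega) (by omega) (by omega)
    have g4 : ¬ f (6 * k + 2) (c + 2) (x + 2) (2 * n + 3) := kl hf g1 (by omega) (by omega) le_rfl (by omega)
      (by omega) (by omega) (by omega) (by omega) (by omega)
    have := H.pr hf (L := 6 * k + 3) (by omega) (by omega) (by omega) (by omega) (by omega)
      (H.r2 hf _ (x + 2) (by omega) (by omega) (by omega) (by omega) (by omega)) (by omega)
    rw [show 6 * k + 3 - 1 = 6 * k + 2 by omega, show 2 * n + 4 - 1 = 2 * n + 3 by omega,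
      show x + 2 - 1 = x + 1 by omega] at this
    rcases this with g | g | g | g | g | g | g
    · exact H.r2 hf _ _ (by omega) (by omega) (by omega) (by omega) (by omega) g
    · exact H.p3_3' hf (by omega) (by omega) g
    · exact H.p3_3' hf (by omega) (by omega) g
    · exact ev hf (by omega) (by omega) (by omega) (by omega) g
    · exact H.u2 _ (by omega) (by omega) (by omega) g
    · exact g4 g
    · exact g2 g
  · exact H.e1 hf x (2 * n) (by omega) (by omega) (by omega) (by omega) h

/-- `P3(x,1) = 0` -/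
theorem p3_1 (hf : Rule f) (H : ZBH f k c n) {x : ℕ} (h1 : 2 * n + 10 ≤ x) (h2 : x + 7 ≤ 2 * n + 2 * k) :
    ¬ f (6 * k + 3) (c + 2) x (2 * n + 1) := by
  have hk := H.T.hk
  have hc := H.T.hc
  intro h
  have hz : ¬ f (6 * k + 2) (c + 2) x (2 * n + 1) := fun g => kl hf g (by omega) (by omega) le_rfl (by omega)
    le_rfl (by omega) le_rfl (by omega) (by omega) h
  have := H.pr hf (L := 6 * k + 2) (y := 2 * n + 1) (by omega) (by omega) (by omega) (by omega) (by omega) hz
    (by omega)
  rw [show 6 * k + 2 - 1 = 6 * k + 1 by omega, Nat.add_sub_cancel] at this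
  rcases this with g | g | g | g | g | g | g
  · exact kl hf g (by omega) (by omega) le_rfl (by omega) (by omega) (by omega) (by omega)
      (by omega) (by omega) h
  · exact kl hf g (by omega) (by omega) le_rfl (by omega) (by omega) (by omega) (by omega)
      (by omega) (by omega) h
  · exact kl hf g (by omega) (by omega) le_rfl (by omega) (by omega) (by omega) (by omega)
      (by omega) (by omega) h
  · exact H.e1 hf _ _ (by omega) (by omega) (by omega) (by omega) g
  · exact H.e1 hf _ _ (by omega) (by omega) (by omega) (by omega) g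
  · exact H.p1_0 hf (by omega) (by omega) g
  · exact H.p1_0 hf (by omega) (by omega) g

/-- the signals of `6 k + 4` in the block row `1` -/
theorem s1 (hf : Rule f) (H : ZBH f k c n) {i : ℕ} (h1 : 5 ≤ i) (h2 : i + 4 ≤ k) :
    sr f (6 * k + 4) (c + 2) (n + i) (n + 1) := by
  have hc := H.T.hc
  by_contra hn
  refine SLine.s_line hf (L := 6 * k + 4) (b := c + 2) (j := n + 1) (i0 := n + i) (i1 := n + k - 4) (by omega) (by omega)
    (by omega) (fun x y a1 a2 a3 a4 a5 => ?_) (fun i' a1 a2 => ?_) (fun p x y hp a1 a2 a3 a4 => ?_)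
    (fun p x y hp a1 a2 a3 a4 => ?_) hn (i := n + k - 4) (by omega) le_rfl H.w1
  · rw [show 6 * k + 4 - 1 = 6 * k + 3 by omega]
    obtain rfl | rfl : y = 2 * n + 3 ∨ y = 2 * n + 2 := by omega
    · exact H.p3_3' hf (by omega) (by omega)
    · exact H.p3_2 hf (by omega) (by omega) (by omega)
  · rw [show 2 * (n + 1) + 2 = 2 * n + 4 by omega]
    exact H.r2 hf _ _ (by omega) (by omega) (by omega) (by omega) (by omega)
  · exact H.r1 hf _ _ _ (by omega) (by omega) (by omega) (by omega) (by omega)
  · exact H.r1 hf _ _ _ (by omega) (by omega) (by omega) (by omega) (by omega)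

/-- `P3(2i,2) = 0` -/
theorem p3_2e (hf : Rule f) (H : ZBH f k c n) {x : ℕ} (h1 : 2 * n + 10 ≤ x) (h2 : x + 8 ≤ 2 * n + 2 * k)
    (h3 : x % 2 = 0) : ¬ f (6 * k + 3) (c + 2) x (2 * n + 2) := by
  intro h
  have h4 := H.s1 hf (i := x / 2 - n) (by omega) (by omega)
  rw [sr, bY, bO] at h4
  rcases h4 with h4 | h4
  · exact kl hf h (by omega) (by omega) le_rfl (by omega) (by omega) (by omega) (by omega) (by omega) (by omega) h4
  · exact kl hf h (by omega) (by omega) le_rfl (by omega) (by omega) (by omega) (by omega) (by omega) (by omega) h4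

/-- `P1(2i,-2) = 0` -/
theorem p1_m2 (hf : Rule f) (H : ZBH f k c n) {x : ℕ} (hx : 2 * n + 10 ≤ x) (hx' : x + 10 ≤ 2 * n + 2 * k)
    (he : x % 2 = 0) : ¬ f (6 * k + 1) (c + 2) x (2 * n - 2) := by
  have hc := H.T.hc
  have hn := H.T.hN2
  intro h
  have k1 : ¬ f (6 * k + 2) (c + 2) x (2 * n - 1) := kl hf h (by omega) (by omega) le_rfl (by omega)
    le_rfl (by omega) (by omega) (by omega) (by omega)
  have k2 : ¬ f (6 * k + 2) (c + 2) (x + 1) (2 * n - 1) := kl hf h (by omega) (by omega) le_rfl (by omega)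
    (by omega) (by omega) (by omega) (by omega) (by omega)
  have g0 : f (6 * k + 2) (c + 2) (x + 1) (2 * n) := by
    by_contra hz
    have := H.pr hf (L := 6 * k + 2) (by omega) (by omega) (by omega) (by omega) (by omega) hz (by omega)
    rw [show 6 * k + 2 - 1 = 6 * k + 1 by omega, Nat.add_sub_cancel] at this
    rcases this with g | g | g | g | g | g | g
    · exact ev hf (by omega) (by omega) he (by omega) g
    · exact k2 g
    · exact k1 g
    · exact H.e1 hf _ _ (by omega) (by omega) (by omega) (by omega) g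
    · exact H.p1_0 hf (by omega) (by omega) g
    · exact H.e0 hf _ _ (by omega) (by omega) (by omega) (by omega) g
    · exact H.e0 hf _ _ (by omega) (by omega) (by omega) (by omega) g
  have k3 : ¬ f (6 * k + 2) (c + 2) (x + 1) (2 * n + 1) := kl hf g0 (by omega) (by omega) le_rfl (by omega)
    (by omega) (by omega) (by omega) (by omega) (by omega)
  have k4 : ¬ f (6 * k + 2) (c + 2) (x + 2) (2 * n + 1) := kl hf g0 (by omega) (by omega) le_rfl (by omega)
    (by omega) (by omega) (by omega) (by omega) (by omega)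
  have k5 : ¬ f (6 * k + 2) (c + 2) x (2 * n + 1) := by
    intro hX
    have k6 : ¬ f (6 * k + 2) (c + 2) (x + 1) (2 * n + 2) := kl hf hX (by omega) (by omega) le_rfl (by omega)
      (by omega) (by omega) (by omega) (by omega) (by omega)
    have := H.pr hf (L := 6 * k + 3) (by omega) (by omega) (by omega) (by omega) (by omega)
      (H.p3_2e hf (x := x + 2) (by omega) (by omega) (by omega)) (by omega)
    rw [show 6 * k + 3 - 1 = 6 * k + 2 by omega, show 2 * n + 2 - 1 = 2 * n + 1 by omega,
      show x + 2 - 1 = x + 1 by omega] at this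
    rcases this with g | g | g | g | g | g | g
    · exact H.p3_2 hf (by omega) (by omega) (by omega) g
    · exact H.p3_1 hf (by omega) (by omega) g
    · exact H.p3_1 hf (by omega) (by omega) g
    · exact ev hf (by omega) (by omega) (by omega) (by omega) g
    · exact k6 g
    · exact k4 g
    · exact k3 g
  have g1 : f (6 * k + 2) (c + 2) (x + 1) (2 * n + 2) := by
    by_contra hz
    have := H.pr hf (L := 6 * k + 2) (by omega) (by omega) (by omega) (by omega) (by omega) hz (by omega)
    rw [show 6 * k + 2 - 1 = 6 * k + 1 by omega, show 2 * n + 2 - 1 = 2 * n + 1 by omega,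
      Nat.add_sub_cancel] at this
    rcases this with g | g | g | g | g | g | g
    · exact ev hf (by omega) (by omega) he (by omega) g
    · exact k3 g
    · exact k5 g
    · exact H.p1_2 hf (by omega) (by omega) g
    · exact H.p1_2 hf (by omega) (by omega) g
    · exact H.e1 hf _ _ (by omega) (by omega) (by omega) (by omega) g
    · exact H.e1 hf _ _ (by omega) (by omega) (by omega) (by omega) g
  have g2 : ¬ f (6 * k + 2) (c + 2) (x + 1) (2 * n + 3) := kl hf g1 (by omega) (by omega) le_rfl (by omega)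
    (by omega) (by omega) (by omega) (by omega) (by omega)
  have g4 : ¬ f (6 * k + 2) (c + 2) (x + 2) (2 * n + 3) := kl hf g1 (by omega) (by omega) le_rfl (by omega)
    (by omega) (by omega) (by omega) (by omega) (by omega)
  have := H.pr hf (L := 6 * k + 3) (by omega) (by omega) (by omega) (by omega) (by omega)
    (H.r2 hf _ (x + 2) (by omega) (by omega) (by omega) (by omega) (by omega)) (by omega)
  rw [show 6 * k + 3 - 1 = 6 * k + 2 by omega, show 2 * n + 4 - 1 = 2 * n + 3 by omega,
    show x + 2 - 1 = x + 1 by omega] at this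
  rcases this with g | g | g | g | g | g | g
  · exact H.r2 hf _ _ (by omega) (by omega) (by omega) (by omega) (by omega) g
  · exact H.p3_3' hf (by omega) (by omega) g
  · exact H.p3_3' hf (by omega) (by omega) g
  · exact ev hf (by omega) (by omega) (by omega) (by omega) g
  · exact H.u2 _ (by omega) (by omega) (by omega) g
  · exact g4 g
  · exact g2 g

end ZBH

end Pool.Agent.SNT.Zb
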