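import Pool.Agent.SNT.SBCells
import Pool.Agent.SNT.ZbL
import Pool.Agent.SNT.O2W
import Pool.Agent.SNT.O2Ws
import Pool.Agent.SNT.PurV

set_option autoImplicit false

/-! The OUT line `y = 2 M + 6` of `P_(6k+1)` (`PX.l1`) for the three leads `M = n - 2`, `n - 3`, `n - 4`: everything
except the end cells. -/

namespace Pool.Agent.SNT.SBC

open Pool.Agent.SNT Pool.Agent.SNT.D1 Pool.Agent.SNT.NHZ

variable {f : ℕ → ℕ → ℕ → ℕ → Prop} {k b m n M : ℕ}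

/-- `l = -2`: the end cells are `d = 0, 2, 4`. -/
theorem W.l1_two (hf : Rule f) (w : W f k b m n M) (e : M + 2 = n)
    (c0 : ¬ f (6 * k + 1) (b + 24) (2 * M + 6) (2 * M + 6)) (c2 : ¬ f (6 * k + 1) (b + 24) (2 * M + 8) (2 * M + 6))
    (c4 : ¬ f (6 * k + 1) (b + 24) (2 * M + 10) (2 * M + 6)) (x : ℕ) (hx : x % 2 = 0) (h1 : 2 * M + 6 ≤ x)
    (h2 : x ≤ 2 * M + 2 * k + 4) : ¬ f (6 * k + 1) (b + 24) x (2 * M + 6) := by
  have hM := w.hM
  have hn := w.hn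
  have d0 : Cyc f (6 * k) (b + 16) (2 * (n - 5) + 2) := Z8.cyc_mono w.d0 (by omega)
  have d2 : Cyc f (6 * k + 2) (b + 18) (2 * (n - 2) + 2) := Z8.cyc_mono w.d2 (by omega)
  have e0 : Cyc f (6 * k) (b + 20) (2 * (n + k - 3) + 2) := Z8.cyc_mono w.e0 (by omega)
  have h3 : x = 2 * M + 6 ∨ x = 2 * M + 8 ∨ x = 2 * M + 10 ∨ 2 * n + 8 ≤ x := by omega
  rcases h3 with rfl | rfl | rfl | h3
  · exact c0
  · exact c2
  · exact c4
  · by_cases h4 : x + 2 ≤ 2 * n + 2 * k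
    · have := Za.line2 hf w.hs w.S w.hn d0 d2 w.d4 e0 hx h3 (Or.inl h4)
      rwa [show 2 * n + 2 = 2 * M + 6 by omega] at this
    · have := ZaX.p1_2w hf w.hs w.S w.hn d0 d2 w.d4 w.hs' w.S' (Z8.cyc_mono w.e2 (by omega))
      rwa [show 2 * n + 2 * k = x by omega, show 2 * n + 2 = 2 * M + 6 by omega] at this

/-- `l = -3`: the end cells are `d = 0, 2, 4`. -/
theorem W.l1_one (hf : Rule f) (w : W f k b m n M) (e : M + 3 = n)
    (c0 : ¬ f (6 * k + 1) (b + 24) (2 * M + 6) (2 * M + 6)) (c2 : ¬ f (6 * k + 1) (b + 24) (2 * M + 8) (2 * M + 6))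
    (c4 : ¬ f (6 * k + 1) (b + 24) (2 * M + 10) (2 * M + 6)) (x : ℕ) (hx : x % 2 = 0) (h1 : 2 * M + 6 ≤ x)
    (h2 : x ≤ 2 * M + 2 * k + 4) : ¬ f (6 * k + 1) (b + 24) x (2 * M + 6) := by
  have hM := w.hM
  have hn := w.hn
  have d0 : Cyc f (6 * k) (b + 16) (2 * (n - 6) + 2) := Z8.cyc_mono w.d0 (by omega)
  have d2 : Cyc f (6 * k + 2) (b + 18) (2 * (n - 3) + 2) := Z8.cyc_mono w.d2 (by omega)
  have e0 : Cyc f (6 * k) (b + 20) (2 * (n + k - 3) + 2) := Z8.cyc_mono w.e0 (by omega)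
  have h3 : x = 2 * M + 6 ∨ x = 2 * M + 8 ∨ x = 2 * M + 10 ∨ x = 2 * M + 2 * k + 4 ∨
      (2 * n + 6 ≤ x ∧ x + 4 ≤ 2 * n + 2 * k) := by omega
  rcases h3 with rfl | rfl | rfl | rfl | h3
  · exact c0
  · exact c2
  · exact c4
  · have := Z2X.p1_0w hf w.hs w.S w.hn d0 d2 w.d4
    rwa [show 2 * n + 2 * k - 2 = 2 * M + 2 * k + 4 by omega, show 2 * n = 2 * M + 6 by omega] at this
  · have := Za.line0_3 hf w.hs w.S w.hn d0 d2 w.d4 e0 hx h3.1 (Or.inl h3.2)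
    rwa [show 2 * n = 2 * M + 6 by omega] at this

/-- the structure of the middle of `l = -4` -/
theorem W.zbh (hf : Rule f) (w : W f k b m n M) (e : M + 3 ≤ n) : Zb.ZBH f k (b + 22) n where
  T := w.T
  lw := by
    intro A R x y h1 h2 h3 h4 h5 h6
    obtain ⟨hk, hb2, hb4, hbl, hm⟩ := id w.hs
    have hn := w.hn
    have := lw_zero w.hs w.S (i := R - b) (R := R) (x := x) (y := y) (by omega) (by omega) (by omega) h5 (by omega)
    rwa [show A = 6 * k - 1 by omega]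
  u2 := by
    intro x h1 h2 h3
    have := (PV.purity_stack hf w.hs w.S w.hn (Z8.cyc_mono w.d0 (by omega)) (Z8.cyc_mono w.d2 (by omega)) w.d4 h3
      (by omega) (by omega)).1
    rwa [show b + 22 + 2 = b + 24 by ring]
  w1 := by
    have hk : 8 ≤ k := w.hs.1
    have hn := w.hn
    have := O2W.w1_wall hf w.hs w.S w.hn (Z8.cyc_mono w.d2 (by omega)) (fun x h1 h2 h3 =>
      (PV.purity_stack hf w.hs w.S w.hn (Z8.cyc_mono w.d0 (by omega)) (Z8.cyc_mono w.d2 (by omega)) w.d4 h1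
      (by omega) (by omega)).1)
    unfold Sig.sr Sig.bY Sig.bO
    rw [show b + 22 + 2 = b + 24 by ring, show 2 * (n + k - 4) + 1 = 2 * n + 2 * k - 7 by omega]
    rw [show 2 * (n + 1) = 2 * n + 2 by ring]
    exact this

/-- `l = -4`: the end cells are `d = 0, 2, .., 8`, and `d = 10` for `k ≥ 9`. -/
theorem W.l1_zero (hf : Rule f) (w : W f k b m n M) (e : M + 4 = n)
    (c : ∀ x : ℕ, x % 2 = 0 → 2 * M + 6 ≤ x → x ≤ 2 * M + 14 → ¬ f (6 * k + 1) (b + 24) x (2 * M + 6))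
    (c10 : 9 ≤ k → ¬ f (6 * k + 1) (b + 24) (2 * M + 16) (2 * M + 6))
    (x : ℕ) (hx : x % 2 = 0) (h1 : 2 * M + 6 ≤ x)
    (h2 : x ≤ 2 * M + 2 * k + 4) : ¬ f (6 * k + 1) (b + 24) x (2 * M + 6) := by
  have hM := w.hM
  have hn := w.hn
  have hk : 8 ≤ k := w.hs.1
  by_cases h3 : x ≤ 2 * M + 14
  · exact c x hx h1 h3
  by_cases h5 : x = 2 * M + 16 ∧ 9 ≤ k
  · obtain ⟨rfl, h6⟩ := h5
    exact c10 h6
  by_cases h4 : x + 10 ≤ 2 * n + 2 * k
  · have := (w.zbh hf (by omega)).p1_m2 hf (x := x) (by omega) h4 hx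
    rwa [show b + 22 + 2 = b + 24 by ring, show 2 * n - 2 = 2 * M + 6 by omega] at this
  · have := O2W.out2_wall hf w.hs w.S w.hn (Z8.cyc_mono w.d0 (by omega)) (Z8.cyc_mono w.d2 (by omega)) w.d4
      (fun x h1 h2 h3 => (PV.purity_stack hf w.hs w.S w.hn (Z8.cyc_mono w.d0 (by omega)) (Z8.cyc_mono w.d2 (by omega)) w.d4 h1
        (by omega) (by omega)).1)
      (fun x h1 h2 h3 => (PV.purity_stack hf w.hs w.S w.hn (Z8.cyc_mono w.d0 (by omega)) (Z8.cyc_mono w.d2 (by omega)) w.d4 h1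
        (by omega) (by omega)).2) hx (by omega) (by omega)
    rwa [show 2 * n - 2 = 2 * M + 6 by omega] at this

end Pool.Agent.SNT.SBC
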