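import Pool.Agent.SNT.SBPair
import Pool.Agent.SNT.SBLine
import Pool.Agent.SNT.D1L
import Pool.Agent.SNT.O4f

set_option autoImplicit false

/-! The cells of `PX` as zeros over the context, and all the steps from the cells `(2 M + 4, 2 M + 4)`, `(2 M + 6, 2 M + 4)`. -/

namespace Pool.Agent.SNT.D1

open Pool.Agent.SNT

variable {f : ℕ → ℕ → ℕ → ℕ → Prop} {k b m n M t : ℕ}

/-- The cell `(2 M + p, 2 M + q)` of `6 k + 1` in the OUT row of the cycle `R` is zero over the context. -/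
def Cell (f : ℕ → ℕ → ℕ → ℕ → Prop) (k t R p q : ℕ) : Prop :=
  ∀ b m : ℕ, CtxE f k b m t → ¬ f (6 * k + 1) (b + 4 * R + 24) (2 * ml k m t R + p) (2 * ml k m t R + q)

theorem Cell.up {R R' p q : ℕ} (h : Cell f k t R p q) (hR : R ≤ R') : Cell f k t R' p q := by
  intro b m C
  obtain ⟨j, rfl⟩ : ∃ j, R' = j + R := ⟨R' - R, by omega⟩
  have := h _ _ (C.shift j)
  rwa [ml_shift, show b + 4 * j + 4 * R + 24 = b + 4 * (j + R) + 24 by ring] at this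

theorem CtxE.ml2 (_C : CtxE f k b m 2) (i : ℕ) : ml k m 2 i + 2 = nn k m i := by
  unfold ml nn
  omega

theorem CtxE.ml1 (_C : CtxE f k b m 1) (i : ℕ) : ml k m 1 i + 3 = nn k m i := by
  unfold ml nn
  omega

theorem CtxE.ml0 (_C : CtxE f k b m 0) (i : ℕ) : ml k m 0 i + 4 = nn k m i := by
  unfold ml nn
  omega

/-- **`l = -2`** -/
theorem restX_two (hf : Rule f) {R : ℕ} (c0 : Cell f k 2 R 6 6) (c2 : Cell f k 2 R 8 6) (c4 : Cell f k 2 R 10 6)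
    (l2 : Cell f k 2 R 4 4) (l3 : Cell f k 2 R 6 4) : RestX f k 2 R := by
  intro b m C
  have w := C.w R
  have e := C.ml2 R
  exact ⟨w.l1_two hf e (c0 b m C) (c2 b m C) (c4 b m C), l2 b m C, l3 b m C⟩

/-- **`l = -3`** -/
theorem restX_one (hf : Rule f) {R : ℕ} (c0 : Cell f k 1 R 6 6) (c2 : Cell f k 1 R 8 6) (c4 : Cell f k 1 R 10 6)
    (l2 : Cell f k 1 R 4 4) (l3 : Cell f k 1 R 6 4) : RestX f k 1 R := by
  intro b m C
  have w := C.w R
  have e := C.ml1 R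
  exact ⟨w.l1_one hf e (c0 b m C) (c2 b m C) (c4 b m C), l2 b m C, l3 b m C⟩

/-- **`l = -4`** -/
theorem restX_zero (hf : Rule f) {R : ℕ} (c : ∀ d : ℕ, d % 2 = 0 → d ≤ 8 → Cell f k 0 R (6 + d) 6)
    (c10 : 9 ≤ k → Cell f k 0 R 16 6) (l2 : Cell f k 0 R 4 4) (l3 : Cell f k 0 R 6 4) : RestX f k 0 R := by
  intro b m C
  have w := C.w R
  have e := C.ml0 R
  refine ⟨w.l1_zero hf e ?_ (fun hk => c10 hk b m C), l2 b m C, l3 b m C⟩
  intro x hx h1 h2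
  obtain ⟨d, rfl⟩ : ∃ d, x = 2 * ml k m 0 R + (6 + d) := ⟨x - (2 * ml k m 0 R + 6), by omega⟩
  exact c d (by omega) (by omega) b m C

/-- The last cells of the three births. -/
structure Last (f : ℕ → ℕ → ℕ → ℕ → Prop) (k R : ℕ) : Prop where
  /-- all leads -/
  l2 : ∀ t : ℕ, t ≤ 2 → Cell f k t R 4 4
  l3 : ∀ t : ℕ, t ≤ 2 → Cell f k t R 6 4
  c0 : ∀ t : ℕ, t ≤ 2 → Cell f k t R 6 6
  c2 : ∀ t : ℕ, t ≤ 2 → Cell f k t R 8 6
  c4 : ∀ t : ℕ, t ≤ 2 → Cell f k t R 10 6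
  /-- `l = -4` -/
  c6 : Cell f k 0 R 12 6
  c8 : Cell f k 0 R 14 6
  c10 : 9 ≤ k → Cell f k 0 R 16 6

/-- **All the steps** from the last cells and from `E1 = 0` for `l = -4`. -/
theorem Last.steps (hf : Rule f) (hk : 8 ≤ k) {R R' : ℕ} (L : Last f k R) (N : NoE1 f k 0 R') : Steps f k 0 1 := by
  refine steps_of_rest hf hk
    (restX_two hf (L.c0 2 le_rfl) (L.c2 2 le_rfl) (L.c4 2 le_rfl) (L.l2 2 le_rfl) (L.l3 2 le_rfl))
    (restX_one hf (L.c0 1 (by omega)) (L.c2 1 (by omega)) (L.c4 1 (by omega)) (L.l2 1 (by omega)) (L.l3 1 (by omega))) N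
    (restX_zero hf ?_ L.c10 (L.l2 0 (by omega)) (L.l3 0 (by omega)))
  intro d h1 h2
  have h3 : d = 0 ∨ d = 2 ∨ d = 4 ∨ d = 6 ∨ d = 8 := by omega
  rcases h3 with rfl | rfl | rfl | rfl | rfl
  · exact L.c0 0 (by omega)
  · exact L.c2 0 (by omega)
  · exact L.c4 0 (by omega)
  · exact L.c6
  · exact L.c8

/-- `d = 0` -/
theorem cell_6 (hf : Rule f) {R : ℕ} (A : PairA f k t R) : Cell f k t R 6 6 := by
  intro b m C
  have w := C.w R
  exact D1L.t6 hf w.hs w.S w.hn w.hM w.hM' w.d0 w.d2 w.d4 (A b m C)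

/-- the cells of the OUT row of the cycle before, as cells of the row `b + 20` -/
theorem prev_out (hf : Rule f) (w : SBC.W f k b m n M) :
    ¬ f (6 * k + 1) (b + 24) (2 * (M + (k + 2))) (2 * (M + (k + 2)) - 4) ∧
      ¬ f (6 * k + 1) (b + 24) (2 * (M + (k + 2)) + 2) (2 * (M + (k + 2))) ∧
      ¬ f (6 * k + 1) (b + 24) (2 * (M + (k + 2)) + 2) (2 * (M + (k + 2)) - 2) := by
  have pz := w.pz hf
  have hk : 8 ≤ k := w.hs.1
  exact ⟨pz.o1 _ _ (by omega) (by omega) (by omega) (by omega) (by omega),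
    pz.o1 _ _ (by omega) (by omega) (by omega) (by omega) (by omega),
    pz.o1 _ _ (by omega) (by omega) (by omega) (by omega) (by omega)⟩

theorem CtxE.prev_out (hf : Rule f) (C : CtxE f k b m t) (i : ℕ) :
    ¬ f (6 * k + 1) (b + 4 * (i + 1) + 20) (2 * ml k m t (i + 1)) (2 * ml k m t (i + 1) - 4) ∧
      ¬ f (6 * k + 1) (b + 4 * (i + 1) + 20) (2 * ml k m t (i + 1) + 2) (2 * ml k m t (i + 1)) ∧
      ¬ f (6 * k + 1) (b + 4 * (i + 1) + 20) (2 * ml k m t (i + 1) + 2) (2 * ml k m t (i + 1) - 2) := by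
  have h := D1.prev_out hf (C.w i)
  rwa [← ml_succ1, show b + 4 * i + 24 = b + 4 * (i + 1) + 20 by ring] at h

/-- `d = 2` -/
theorem cell_8 (hf : Rule f) {R : ℕ} (A : PairA f k t (R + 1)) (B : PairB f k t (R + 1)) : Cell f k t (R + 1) 8 6 := by
  intro b m C
  have w := C.w (R + 1)
  obtain ⟨b1, b2, b3⟩ := C.prev_out hf R
  exact D1L.t8 hf w.hs w.S w.hn w.hM w.hM' w.d0 w.d2 w.d4 (A b m C) (B b m C) b1 b2 b3

/-- `d = 4` -/
theorem cell_10 (hf : Rule f) {R : ℕ} (A : PairA f k t (R + 1)) (B : PairB f k t (R + 1)) : Cell f k t (R + 1) 10 6 := by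
  intro b m C
  have w := C.w (R + 1)
  obtain ⟨b1, b2, b3⟩ := C.prev_out hf R
  exact D1L.t10 hf w.hs w.S w.hn w.hM w.hM' w.d0 w.d2 w.d4 (A b m C) (B b m C) b1 b2 b3

/-- the lead of `6 k + 4` one cycle before -/
theorem CtxE.d4a (C : CtxE f k b m t) (i : ℕ) :
    Cyc f (6 * k + 4) (b + 4 * (i + 1) + 16) (2 * (nn k m (i + 1) - k - 1) + 2) := by
  have v := C.w i
  refine cyc_of_eq v.d4 (by omega) ?_
  unfold nn
  have hm : (k + 2) * (i + 1) = (k + 2) * i + (k + 2) := by ring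
  omega

theorem l1_zero_6 (hf : Rule f) (w : SBC.W f k b m n M) (e : M + 4 = n)
    (d4a : Cyc f (6 * k + 4) (b + 16) (2 * (n - k - 1) + 2)) : ¬ f (6 * k + 1) (b + 24) (2 * M + 12) (2 * M + 6) := by
  have hn := w.hn
  have h := O4f.out4 hf w.hs w.S w.hn (Z8.cyc_mono w.d0 (by omega)) (Z8.cyc_mono w.d2 (by omega)) w.d4 d4a
    (Z8.cyc_mono w.e0 (by omega))
  rwa [show 2 * n + 4 = 2 * M + 12 by omega, show 2 * n - 2 = 2 * M + 6 by omega] at h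

theorem l1_zero_8 (hf : Rule f) (w : SBC.W f k b m n M) (e : M + 4 = n) :
    ¬ f (6 * k + 1) (b + 24) (2 * M + 14) (2 * M + 6) := by
  have hn := w.hn
  have h := O4f.out6 hf w.hs w.S w.hn (Z8.cyc_mono w.d0 (by omega)) (Z8.cyc_mono w.d2 (by omega)) w.d4
    (Z8.cyc_mono w.e0 (by omega))
  rwa [show 2 * n + 6 = 2 * M + 14 by omega, show 2 * n - 2 = 2 * M + 6 by omega] at h

theorem l1_zero_10 (hf : Rule f) (w : SBC.W f k b m n M) (e : M + 4 = n) (hk : 9 ≤ k) :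
    ¬ f (6 * k + 1) (b + 24) (2 * M + 16) (2 * M + 6) := by
  have hn := w.hn
  have h := O4f.out8 hf w.hs w.S w.hn (Z8.cyc_mono w.d0 (by omega)) (Z8.cyc_mono w.d2 (by omega)) w.d4
    (Z8.cyc_mono w.e0 (by omega)) hk
  rwa [show 2 * n + 8 = 2 * M + 16 by omega, show 2 * n - 2 = 2 * M + 6 by omega] at h

/-- `l = -4`, `d = 6` -/
theorem x0_6 (hf : Rule f) {R : ℕ} : Cell f k 0 (R + 1) 12 6 :=
  fun _ _ C => l1_zero_6 hf (C.w (R + 1)) (C.ml0 (R + 1)) (C.d4a R)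

/-- `l = -4`, `d = 8` -/
theorem x0_8 (hf : Rule f) {R : ℕ} : Cell f k 0 R 14 6 :=
  fun _ _ C => l1_zero_8 hf (C.w R) (C.ml0 R)

/-- `l = -4`, `d = 10` -/
theorem x0_10 (hf : Rule f) {R : ℕ} (hk : 9 ≤ k) : Cell f k 0 R 16 6 :=
  fun _ _ C => l1_zero_10 hf (C.w R) (C.ml0 R) hk

/-- **All the last cells** from the cells `(2 M + 4, 2 M + 4)` and `(2 M + 6, 2 M + 4)`. -/
theorem last_of (hf : Rule f) {R : ℕ} (l2 : ∀ t : ℕ, t ≤ 2 → Cell f k t R 4 4)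
    (l3 : ∀ t : ℕ, t ≤ 2 → Cell f k t R 6 4) : Last f k (R + 1) where
  l2 := fun t ht => (l2 t ht).up (by omega)
  l3 := fun t ht => (l3 t ht).up (by omega)
  c0 := fun _ _ => cell_6 hf (pairA hf)
  c2 := fun _ _ => cell_8 hf (pairA hf) (pairB hf)
  c4 := fun _ _ => cell_10 hf (pairA hf) (pairB hf)
  c6 := x0_6 hf
  c8 := x0_8 hf
  c10 := fun hk => x0_10 hf hk

end Pool.Agent.SNT.D1
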