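import Pool.Agent.SNT.L3C
import Pool.Agent.SNT.L3D1
import Pool.Agent.SNT.SBFin

set_option autoImplicit false

/-! **The cell `(2 M + 6, 2 M + 4)` of `P_(6 k + 1)` in the row `c + 2` vanishes** (the field `l3`), in every cycle `i + 1`. -/

namespace Pool.Agent.SNT.D1

open Pool.Agent.SNT

variable {f : ℕ → ℕ → ℕ → ℕ → Prop} {k b m n M t : ℕ}

/-- The wall cell of the line before the missing one. -/
theorem prev_wall (hf : Rule f) (w : SBC.W f k b m n M) (ht : ¬ f (6 * k + 2) (b + 18) (2 * M + 1) (2 * M)) :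
    f (6 * k + 2) (b + 18) (2 * M - 1) (2 * M + 4 - 2 * k) := by
  have hM := w.hM
  have hM' := w.hM'
  have H := D1E.PL.of_stack w.hs w.S w.hn hM (by omega) w.d0 w.d2 w.d4
  have hk := H.T.hk
  have hN := H.T.hN2
  have ht' : ¬ f (6 * k + 2) (b + 22 - 4) (2 * M + 1) (2 * M) := by rwa [show b + 22 - 4 = b + 18 by omega]
  have hX : ∀ y : ℕ, y % 2 = 0 → 2 * M + 2 ≤ y + 2 * k → y ≤ 2 * M → ¬ f (6 * k + 2) (b + 22 - 4) (2 * M + 1) y :=
    fun y h1 h2 h3 h4 => ht' (D1E.runX_tip hf H h1 h2 h3 h4)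
  obtain ⟨y, hy⟩ : ∃ y, y + 2 * k = 2 * M + 6 := ⟨2 * M + 6 - 2 * k, by omega⟩
  have h2 : f (6 * k + 2) (b + 22 - 4) (2 * M - 1) (y - 2) := by
    by_contra hg
    exact D1E.k0_pair_w hf H hy (hX y (by omega) (by omega) (by omega)) hg
  exact LW.mv h2 rfl (by omega) rfl (by omega)

/-- **the field `l3` of `RX`**, in the cycle `i + 1` -/
theorem CtxE.l3 (hf : Rule f) (C : CtxE f k b m t) (i : ℕ) :
    ¬ f (6 * k + 1) (b + 4 * (i + 1) + 24) (2 * ml k m t (i + 1) + 6) (2 * ml k m t (i + 1) + 4) := by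
  intro h
  have Q := C.q hf i
  have H0 := C.C.plw i
  have w := C.w i
  have w' := C.w (i + 1)
  have pw := prev_wall hf w' (C.C.miss (i + 1))
  have hE := C.e0 (i + 1)
  unfold E0 at hE
  have pA : f (6 * k) (b + 4 * (i + 1) + 20) (2 * ml k m t (i + 1) + 1) (2 * ml k m t (i + 1) - 6) ∨
    f (6 * k) (b + 4 * (i + 1) + 20) (2 * ml k m t (i + 1) + 3) (2 * ml k m t (i + 1) - 4) :=
    (pairA hf : PairA f k t (i + 1)) b m C
  have pB : f (6 * k) (b + 4 * (i + 1) + 20) (2 * ml k m t (i + 1) - 1) (2 * ml k m t (i + 1) - 8) ∨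
    f (6 * k) (b + 4 * (i + 1) + 20) (2 * ml k m t (i + 1) + 1) (2 * ml k m t (i + 1) - 6) :=
    (pairB hf : PairB f k t (i + 1)) b m C
  have p3 := C.p2 hf i
  have en : nn k m (i + 1) = nn k m i + (k + 2) := by
    unfold nn
    ring
  have em := ml_succ1 k m t i
  have hM2 := w'.hM'
  have hk : 8 ≤ k := w.hs.1
  have w2 : SBC.W f k (b + 4 * i + 4) (m + (k + 2) * i + (k + 2)) (nn k m i + (k + 2)) (ml k m t i + (k + 2)) := by
    rwa [show b + 4 * (i + 1) = b + 4 * i + 4 by ring, show m + (k + 2) * (i + 1) = m + (k + 2) * i + (k + 2) by ring,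
      en, em] at w'
  have h' : f (6 * k + 1) (b + 4 * i + 28) (2 * (ml k m t i + (k + 2)) + 6) (2 * (ml k m t i + (k + 2)) + 4) :=
    LW.mv h rfl (by omega) (by omega) (by omega)
  have pA' : f (6 * k) (b + 4 * i + 24) (2 * (ml k m t i + (k + 2)) + 1) (2 * (ml k m t i + (k + 2)) - 6) ∨
      f (6 * k) (b + 4 * i + 24) (2 * (ml k m t i + (k + 2)) + 3) (2 * (ml k m t i + (k + 2)) - 4) :=
    pA.imp (fun u => LW.mv u rfl (by omega) (by omega) (by omega)) (fun u => LW.mv u rfl (by omega) (by omega) (by omega))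
  have pB' : f (6 * k) (b + 4 * i + 24) (2 * (ml k m t i + (k + 2)) - 1) (2 * (ml k m t i + (k + 2)) - 8) ∨
      f (6 * k) (b + 4 * i + 24) (2 * (ml k m t i + (k + 2)) + 1) (2 * (ml k m t i + (k + 2)) - 6) :=
    pB.imp (fun u => LW.mv u rfl (by omega) (by omega) (by omega)) (fun u => LW.mv u rfl (by omega) (by omega) (by omega))
  have c1 := L3D1.d1c hf w w2 h' pA' pB'
  have c2 := L3D1.d1b hf w w2 h' pA' pB'
  exact L3C.core hf Q H0 (by omega) en hM2 (LW.mv hE rfl (by omega) rfl rfl)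
    (p3.imp (fun u => LW.mv u rfl (by omega) rfl rfl) (fun u => LW.mv u rfl (by omega) rfl rfl))
    (LW.mv pw rfl (by omega) rfl rfl)
    (LW.mv c1 rfl (by omega) (by omega) (by omega)) (LW.mv c2 rfl (by omega) (by omega) (by omega))
    (LW.mv h rfl (by omega) rfl rfl)

/-- **the field `l3` as a cell** -/
theorem cell_l3 (hf : Rule f) {R : ℕ} : Cell f k t (R + 1) 6 4 :=
  fun _ _ C => C.l3 hf R

end Pool.Agent.SNT.D1
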