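import Pool.Agent.SNT.PL
import Pool.Agent.SNT.WrapC

set_option autoImplicit false
set_option synthInstance.maxSize 100000
set_option synthInstance.maxHeartbeats 4000000

/-! The pair of columns `2 M - 1`, `2 M + 1` of `6 k` in the row `c - 2` near the wall (helper13, generator of helper37, miner of
helper57). -/

namespace Pool.Agent.SNT.P2M

open Pool.Agent.SNT Pool.Agent.SNT.Sig Pool.Agent.SNT.Loc Pool.Agent.SNT.LW Pool.Agent.SNT.NHZ Pool.Agent.SNT.DRun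
open Pool.Agent.SNT.PB Pool.Agent.SNT.D1E

variable {f : ℕ → ℕ → ℕ → ℕ → Prop}

theorem p2_chk : check 12 9 17 19 0 1 0 1 0
    (fun j n p q => decide ((j = 2 ∧ n = 4 ∧ q ≤ p + 15 ∧ 7 ≤ p ∧ ((p + q + 1) % 2 = 0 ∧ q ≤ p + 3 ∧ (p + q + 3) % 4 = 0))
      ∨ (j = 2 ∧ n = 5 ∧ q ≤ p + 3 ∧ 9 ≤ p ∧ (((p + q + 1) % 2 = 1 ∧ p + 4 ≤ q ∧ p % 2 = 0) ∨ ((p + q + 1) % 2 = 1 ∧ q ≤ p + 4 ∧ (p + q + 0) % 4 = 0)))
      ∨ (j = 2 ∧ n = 1 ∧ q ≤ p + 15 ∧ p + 4 ≤ q ∧ 5 ≤ q ∧ (((p + q + 1) % 2 = 1 ∧ p + 4 ≤ q ∧ p % 2 = 0) ∨ ((p + q + 1) % 2 = 1 ∧ q ≤ p + 4 ∧ (p + q + 0) % 4 = 0)))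
      ∨ (j = 2 ∧ n = 2 ∧ q ≤ p + 15 ∧ 3 ≤ p ∧ ((p + q + 1) % 2 = 0 ∧ q ≤ p + 3 ∧ (p + q + 1) % 4 = 0))
      ∨ (j = 2 ∧ n = 3 ∧ q ≤ p + 15 ∧ 5 ≤ p ∧ (((p + q + 1) % 2 = 1 ∧ p + 4 ≤ q ∧ p % 2 = 1) ∨ ((p + q + 1) % 2 = 1 ∧ q ≤ p + 4 ∧ (p + q + 2) % 4 = 0)))
      ∨ (j = 4 ∧ n = 2 ∧ q ≤ p + 15 ∧ ((p + q + 1) % 2 = 0 ∧ q ≤ p + 3 ∧ (p + q + 3) % 4 = 0))
      ∨ (j = 4 ∧ n = 3 ∧ q ≤ p + 15 ∧ ((q ≤ p + 3) ∨ (p + 4 ≤ q ∧ 11 ≤ q)) ∧ (((p + q + 1) % 2 = 1 ∧ p + 4 ≤ q ∧ p % 2 = 0) ∨ ((p + q + 1) % 2 = 1 ∧ q ≤ p + 4 ∧ (p + q + 0) % 4 = 0)))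
      ∨ (j = 4 ∧ n = 4 ∧ q ≤ p + 15 ∧ 9 ≤ p ∧ ((p + q + 1) % 2 = 0 ∧ q ≤ p + 3 ∧ (p + q + 1) % 4 = 0))
      ∨ (j = 4 ∧ n = 5 ∧ q ≤ p + 15 ∧ 11 ≤ p ∧ (((p + q + 1) % 2 = 1 ∧ p + 4 ≤ q ∧ p % 2 = 1) ∨ ((p + q + 1) % 2 = 1 ∧ q ≤ p + 4 ∧ (p + q + 2) % 4 = 0)))
      ∨ (j = 6 ∧ n = 3 ∧ q ≤ p + 15 ∧ (((p + q + 1) % 2 = 1 ∧ p + 4 ≤ q ∧ p % 2 = 1) ∨ ((p + q + 1) % 2 = 1 ∧ q ≤ p + 4 ∧ (p + q + 2) % 4 = 0)))
      ∨ (j = 6 ∧ n = 4 ∧ q ≤ p + 15 ∧ 3 ≤ p ∧ ((p + q + 1) % 2 = 0 ∧ q ≤ p + 3 ∧ (p + q + 3) % 4 = 0))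
      ∨ (j = 6 ∧ n = 5 ∧ q ≤ p + 3 ∧ 5 ≤ p ∧ (((p + q + 1) % 2 = 1 ∧ p + 4 ≤ q ∧ p % 2 = 0) ∨ ((p + q + 1) % 2 = 1 ∧ q ≤ p + 4 ∧ (p + q + 0) % 4 = 0)))
      ∨ (j = 8 ∧ n = 5 ∧ q ≤ p + 15 ∧ 9 ≤ p ∧ (((p + q + 1) % 2 = 1 ∧ p + 2 ≤ q ∧ p % 2 = 1) ∨ ((p + q + 1) % 2 = 1 ∧ q ≤ p + 2 ∧ (p + q + 2) % 4 = 2)))
      ∨ (j = 8 ∧ n = 6 ∧ q ≤ p + 15 ∧ p + 1 ≤ q ∧ 10 ≤ p ∧ ((p + q + 1) % 2 = 0 ∧ q ≤ p + 1 ∧ (p + q + 3) % 4 = 2))
      ∨ (j = 8 ∧ n = 3 ∧ q ≤ p + 15 ∧ p + 2 ≤ q ∧ 9 ≤ q ∧ (((p + q + 1) % 2 = 1 ∧ p + 2 ≤ q ∧ p % 2 = 0) ∨ ((p + q + 1) % 2 = 1 ∧ q ≤ p + 2 ∧ (p + q + 0) % 4 = 2)))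
      ∨ (j = 10 ∧ n = 7 ∧ q ≤ p + 15 ∧ ((13 ≤ p ∧ p + 4 ≤ q) ∨ (15 ≤ p)) ∧ (((p + q + 1) % 2 = 1 ∧ p + 2 ≤ q ∧ p % 2 = 1) ∨ ((p + q + 1) % 2 = 1 ∧ q ≤ p + 2 ∧ (p + q + 2) % 4 = 2)))
      ∨ (j = 10 ∧ n = 5 ∧ q ≤ p + 15 ∧ p + 2 ≤ q ∧ 13 ≤ q ∧ (((p + q + 1) % 2 = 1 ∧ p + 2 ≤ q ∧ p % 2 = 0) ∨ ((p + q + 1) % 2 = 1 ∧ q ≤ p + 2 ∧ (p + q + 0) % 4 = 2)))
      ∨ (j = 5 ∧ n = 7 ∧ p = 12 ∧ q = 15)))
    (fun j n p q => decide ((j = 2 ∧ n = 4 ∧ q ≤ p + 15 ∧ ((7 ≤ p) ∨ (p + 3 ≤ q ∧ 6 ≤ p)) ∧ ¬ ((p + q + 1) % 2 = 0 ∧ q ≤ p + 3 ∧ (p + q + 3) % 4 = 0))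
      ∨ (j = 2 ∧ n = 5 ∧ q ≤ p + 3 ∧ 9 ≤ p ∧ ¬ (((p + q + 1) % 2 = 1 ∧ p + 4 ≤ q ∧ p % 2 = 0) ∨ ((p + q + 1) % 2 = 1 ∧ q ≤ p + 4 ∧ (p + q + 0) % 4 = 0)))
      ∨ (j = 2 ∧ n = 2 ∧ q ≤ p + 15 ∧ ((3 ≤ p) ∨ (p + 4 ≤ q ∧ 7 ≤ q)) ∧ ¬ ((p + q + 1) % 2 = 0 ∧ q ≤ p + 3 ∧ (p + q + 1) % 4 = 0))
      ∨ (j = 2 ∧ n = 3 ∧ q ≤ p + 15 ∧ 5 ≤ p ∧ ¬ (((p + q + 1) % 2 = 1 ∧ p + 4 ≤ q ∧ p % 2 = 1) ∨ ((p + q + 1) % 2 = 1 ∧ q ≤ p + 4 ∧ (p + q + 2) % 4 = 0)))
      ∨ (j = 4 ∧ n = 2 ∧ q ≤ p + 15 ∧ ¬ ((p + q + 1) % 2 = 0 ∧ q ≤ p + 3 ∧ (p + q + 3) % 4 = 0))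
      ∨ (j = 4 ∧ n = 3 ∧ q ≤ p + 15 ∧ ((q ≤ p + 3) ∨ (p + 4 ≤ q ∧ 11 ≤ q)) ∧ ¬ (((p + q + 1) % 2 = 1 ∧ p + 4 ≤ q ∧ p % 2 = 0) ∨ ((p + q + 1) % 2 = 1 ∧ q ≤ p + 4 ∧ (p + q + 0) % 4 = 0)))
      ∨ (j = 4 ∧ n = 4 ∧ q ≤ p + 15 ∧ ((9 ≤ p) ∨ (p + 4 ≤ q ∧ 13 ≤ q)) ∧ ¬ ((p + q + 1) % 2 = 0 ∧ q ≤ p + 3 ∧ (p + q + 1) % 4 = 0))
      ∨ (j = 4 ∧ n = 5 ∧ q ≤ p + 15 ∧ 11 ≤ p ∧ ¬ (((p + q + 1) % 2 = 1 ∧ p + 4 ≤ q ∧ p % 2 = 1) ∨ ((p + q + 1) % 2 = 1 ∧ q ≤ p + 4 ∧ (p + q + 2) % 4 = 0)))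
      ∨ (j = 6 ∧ n = 4 ∧ q ≤ p + 15 ∧ 3 ≤ p ∧ ¬ ((p + q + 1) % 2 = 0 ∧ q ≤ p + 3 ∧ (p + q + 3) % 4 = 0))
      ∨ (j = 6 ∧ n = 5 ∧ q ≤ p + 3 ∧ 5 ≤ p ∧ ¬ (((p + q + 1) % 2 = 1 ∧ p + 4 ≤ q ∧ p % 2 = 0) ∨ ((p + q + 1) % 2 = 1 ∧ q ≤ p + 4 ∧ (p + q + 0) % 4 = 0)))
      ∨ (j = 8 ∧ n = 6 ∧ q ≤ p + 15 ∧ p + 1 ≤ q ∧ 10 ≤ p ∧ ¬ ((p + q + 1) % 2 = 0 ∧ q ≤ p + 1 ∧ (p + q + 3) % 4 = 2))
      ∨ (j = 8 ∧ n = 4 ∧ q ≤ p + 15 ∧ p + 2 ≤ q ∧ 11 ≤ q ∧ ¬ ((p + q + 1) % 2 = 0 ∧ q ≤ p + 1 ∧ (p + q + 1) % 4 = 2))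
      ∨ (j = 1 ∧ n = 7 ∧ q ≤ p + 15 ∧ p ≤ q + 13)
      ∨ (j = 1 ∧ n = 6 ∧ q ≤ p + 15 ∧ p ≤ q + 13)
      ∨ (j = 1 ∧ n = 5 ∧ q ≤ p + 15 ∧ p ≤ q + 13)
      ∨ (j = 1 ∧ n = 4 ∧ q ≤ p + 15 ∧ p ≤ q + 13)
      ∨ (j = 1 ∧ n = 3 ∧ q ≤ p + 15 ∧ p ≤ q + 13)
      ∨ (j = 1 ∧ n = 2 ∧ q ≤ p + 15 ∧ p ≤ q + 13)
      ∨ (j = 3 ∧ n = 5 ∧ 8 ≤ p ∧ q ≤ p + 15 ∧ p + 7 ≤ q)
      ∨ (j = 5 ∧ n = 5 ∧ 8 ≤ p ∧ q ≤ p + 15 ∧ p + 6 ≤ q)
      ∨ (j = 5 ∧ n = 3 ∧ 4 ≤ p ∧ q ≤ p + 15 ∧ p + 5 ≤ q)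
      ∨ (j = 7 ∧ n = 5 ∧ 8 ≤ p ∧ q ≤ p + 15 ∧ p + 5 ≤ q)
      ∨ (j = 2 ∧ n = 6 ∧ 9 ≤ p ∧ q ≤ p + 15 ∧ p + 8 ≤ q)
      ∨ (j = 2 ∧ n = 4 ∧ 5 ≤ p ∧ q ≤ p + 15 ∧ p + 7 ≤ q)
      ∨ (j = 3 ∧ n = 6 ∧ 9 ≤ p ∧ q ≤ p + 15 ∧ p + 8 ≤ q)
      ∨ (j = 3 ∧ n = 4 ∧ 5 ≤ p ∧ q ≤ p + 15 ∧ p + 7 ≤ q)
      ∨ (j = 3 ∧ n = 2 ∧ q ≤ p + 15 ∧ p + 6 ≤ q)
      ∨ (j = 4 ∧ n = 4 ∧ 5 ≤ p ∧ q ≤ p + 15 ∧ p + 6 ≤ q)
      ∨ (j = 5 ∧ n = 4 ∧ 5 ≤ p ∧ q ≤ p + 15 ∧ p + 6 ≤ q)
      ∨ (j = 5 ∧ n = 2 ∧ q ≤ p + 15 ∧ p + 5 ≤ q)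
      ∨ (j = 7 ∧ n = 4 ∧ 5 ≤ p ∧ q ≤ p + 15 ∧ p + 5 ≤ q)
      ∨ (j = 2 ∧ n = 7 ∧ p = 9 ∧ q = 17)
      ∨ (j = 2 ∧ n = 7 ∧ p = 7 ∧ q = 15)
      ∨ (j = 3 ∧ n = 7 ∧ p = 8 ∧ q = 13)
      ∨ (j = 3 ∧ n = 7 ∧ p = 8 ∧ q = 15)
      ∨ (j = 3 ∧ n = 7 ∧ p = 10 ∧ q = 15)
      ∨ (j = 3 ∧ n = 7 ∧ p = 10 ∧ q = 17)))
    1147
    0x2b39031fd4001fdd921a30801fe7d22cac83264a00264a0115c683100e80100e810f62800f62810ead800eb79a0eb680146dd215da8310228015d9d21021830f75800f75810ec9800ec9811476801acffa1b7c831ac7001ac7011a12801a1c9a1b7c831ac7001ac7011a12001a128a1b7c831ac7001ac7011b5f801b699a100480100e9a10178010219a1020801020810f6b800f6c0a0eb7000eb78a145b00145b041fc9831a08801a08841ac7031b69001b69041021830f75800f75841a13001a13041ac7031ac7801ac7841b7b801b7b811acf801acf841021830f75800f75810ec9800ec9811521801521841021830f75800f758115c40015c4040f7e000f7e011021830f75800f75810ec9800ec9810f74000f74041021830f75800f7581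0ec9800ec9810f74000f7e1a152c00152c041021830f75800f75810ec9800ec9810ed2800ed2841021830f75800f75810ec9800ec9811518001518040ec083146e80146e840ec0830f62800f6284100f0015c6da1022001022041a2e801a2e81146d80146d8415c683100e80100e810f62800f62810ead800eb6800eb79a0ec09a146e801a1cca1fca802581d21fc9801fc9840d61000d6a920d60000d60010d5f000d68920e14000e1d9215da8310228015d9d21021801021810f75800f75810ec9800ec9810e1d800e1d8415da8310228015d9d210218010218115ce8015ce8415c683100e80100e810f62800f6c1215190015190415da8310228015d9d21021801021810f75800f758115228015228415c683100e8015c5d20f6c000f6c0415da8310228015d9d21021801021810f75800f75810ec9800ec9810e1d800e1d810d68800d68810d5f800d600a0d60800d6a9a0ec0800e0c800ec0810eb7b214648014648415c683100e80100e8115bb8015bb840ec1800ecb120ed4800f803a15da8310228015d9d20f80000f800415d9831018801018810f63800f63840d6a8313b98013b9840f62831510001510040ecb030f6d000f6d041b73801b7d121b868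01b909a15da8310228015d9d20f80000f899215e28015e2840f75831523001523040edf030f81000f81040ec9830f74800f748410228315d00015d0041a26801fddd2258b802b42d2259e80259e840edf03152e80152e84148d83152f00152f041497030f8b800f8b840ecb030f6c800f6c840ed483152380152384100e8315bc0015bc040f758315c48015c4840e1d83146d00146d042b39031fd4001fdd921ad1801ad1841a3b001ff2521a3a001a3a040ed5830f77800f77840e1d830ebf800ebf841f27031fc9001fc9040ed5831525001525042b39031fd4001fdd921a30801fe7d21ff1801ff1842b39031fd4001fdd921a30801fe7d21ae5001ae50410358315e30015e3043811032cac802cac840ed4830f76800f76840ecc03151b80151b841317830d56800d56841fe7831adb801adb842b4c0326408026408410188315c60015c6040ecb030ecb800ecb841497031538801538840f8983102b80102b842b4c031fe7801fe7840f6c031519801519840d6a830e0c000e0c040edf03148d0014971a0f8b000f8b042b39031fd4001fdd921a30801fe7d220930020930418cf0018d892198400198d921a39001a398a209c031a42801a42811a39801a39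841e7383130e00130e040ec083146e00146e040ee8830f8a800f8a840ec083150f80150f840ee8831538001538040edf03148d0014971a1539001539040ed4831482801482840ed4830f76000f76040eb7831465001465040ec983147700147704198d831fdd001fdd040ecb03151a80151a840edf030f80800f80841a1c831abe001abe040ed6830f78801023b215d08015d0841a39831adb001adb0418d883197a80197a841a42831ae4801ae48410208315ce0015ce040e1d830ebf800ec99a1522001522040ec9831518801518840ec9831477001a2eda1ad0801ad0840f89831537801537840eb8031465801465841a2e831ad0001ad004198d831fdd001fdd8a1a1c801a1c84100f8315bd0015bd040edf03148d00148d8a0f81800f818410218315cf0015cf042b42831fdd801fdd8410238315d10015d1040ed5831524801524840edf03152e00152e043694032b2f002b2f0410178315c50015c5041e73831967001967040f8003152d80152d840ec0830f62000f62041e73831967801967840ed5830f77000f77040ecb030ecb800ecc0a0f6e000f6e040ecb03151a00151a040ecc030f6d800f6d841a42832092002092043694832b2f802b2f840ed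f030edf800edf840f898315d90015d9042b4c032640002640040f89830f8a000f8a040eb6831464001464040ecc03151b00151b040d6003130d80130d840ecb030ecb800ecc0a0ecc800ecc84198d831a2f801a2f840f94031541801541840ed4831524001524040ed4831482001482040ed6830f78000f78041a37801a23801fe5421fd142265c80198b80198280197780196e802c0a421f39421f30421f25421f1c423dc8803db5803c42803c418031b78031168031038030f0802fa3802fa2802f90802f8f8025bb8025b08025a780259c80258880257480250f8025068024f28024f08024e78024de8024dc8024d3802451802417802147801a4e801a4d8019a18019968019008018ed8018ec8018ea8018e18018df8018d98018d68018cd8018cb8018c28018b980183e80183580182c80182a801821801818800ef1800edd800edb800e50800e45800e3c800e31800e28800da4800d9c800d9b800d90800d88800d87800d7c800d74800d73800d71800cef800cdb800cc7800cbc800c3a800c27800c26800c13803dc88f3db58f3c428f3c418f32630731c20731c18731b88731b80731b78f31168f31038f30f08f30e70730e60730458730450730448730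3c07303b87303b072fa38f2fa28f2f908f2f8f8f2b42872b39072b38872aa1072a97872a97072a8e072a8d8726f50725bb8f25bb0725ba8725b18725b10725b08f25a80725a78f259f07259e07259c8f258b0725888f25780725748f250f8f25068f24fd0724fc8724f38724f30724f28f24f08f24ea0724e98724e78f24e08724e00724df8724de8f24dc8f24d68724d60724d38f24518f24178f21478f1ff2071fe8871fe8071fde071f50871f47071f46871f3c871f32871f29071f28871f1e871e73871e73071dd2071dd1871dc8871dc8071b87071b73071b72071b60071a4e8f1a4d8f1a4d071a4c871a44071a43071a42071a30071a2e071a1c071a1a071a090719a30719a28719a18f19a10719a08719998719990719988719980719978719970719968f199607199587198f07198e87198507197b0719718719710719008f18ed8f18ec8f18ec0718eb8718ea8f18ea0718e98718e28718e20718e18f18e10718e08718e00718df8f18d98f18d80718d78718d70718d68f18d60718d58718ce0718cd8f18cd0718cc8718cc0718cb8f18c60718c38718c30718c28f18bc8718b98f183e8f18370718368718358f182d87182d07182c8f182a8f1824871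8240718218f181b07181a8718188f15da8715d98715c68715c587152f87148d8714840714838713ec0713e28713e20713c407126c87102d07102c07102387101a07101907101807101707100f871006071005070f82070ef2070ef18f0ee9070ee8070ee7870ede070edd8f0edc870edc070edb8f0ed6070ed5070ed4070ed3070ec2070ec1070ec0070eae070ead070e508f0e48070e47870e47070e46870e458f0e3e870e3e070e3d870e3d070e3c8f0e35070e34870e34070e33870e33070e32870e318f0e2b870e2b070e2a870e2a070e29870e29070e288f0e28070e27870e21070e20870e20070e1f870e1f070e1e870e16870da48f0d9c8f0d9b8f0d908f0d888f0d878f0d7c8f0d7c070d7b870d748f0d738f0d72870d72070d718f0d6a070d68070d56070cef8f0cdb8f0cc9070cc8870cc8070cc78f0cc7070cc6870cbf870cbf070cbe870cbe070cbd870cbd070cbc8f0cb5070cb4870c3a8f0c278f0c268f0c138f0a88070a87870a7e870a7e070a76070a75870a75070a74870a74070a73870a73070a72870a6c870a6c070a6b870a6b070a6a870a6a070a69870a69070a62070a61870a61070a60870a60070a58870a58070a57870a570709e687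09e60709dd0709dc8709dc0709db8709d48709d40709d38709d30709d28709d20709d18709d10709d08709d00709cb0709ca8709ca0709c98709c90709c88709c80709c78709c70709c68709c08709c00709bf8709bf0709be8709be0709b70709b68709b60709b58709b50709b48709ab8709ab07094507094487093b87093b07093a87093a07093187093107093087092f07092e87092907092887092807092787092707092687092607092587092507091f87091f07091e87091e07091d87091d07091c87091c07091b87091507091487091407091387091307091287091207090a87090a0709098709090709088709010709008709000708ff8708ff07089987089907089007088f87088787088707088687088607088587088507087e07087d87087d07087c87087c07087b87087a87087a07087387087307087287087207087187087107087087087007086f87086907086887086807086787086707086687086607085f87085f07085e87085e07085d8707ce8707ce0707c50707c48707bd0707bc8707bb0707ba8707b38707b30707b28707b20707b18707b10707a90707a887071b87071b07071987071907071207071187071107071087071007070f87070787070707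 = true := by
  decide +kernel

/-- **P2**: the columns `2 M - 1`, `2 M + 1` of `6 k` in the row `c - 2` are not both missing near the wall, given `E0` and four
zero cells of `P_(6k+1)`; `n - M` may be 2, 3, 4. -/
theorem p2 (hf : Rule f) {k c n M : ℕ} (H : PL f k c n M) (hl : M + 2 ≤ n)
    (c0p : Cyc f (6 * k) (c - 10) (2 * (M - 3 - (k + 2)) + 2)) (c2p : Cyc f (6 * k + 2) (c - 8) (2 * (M - (k + 2)) + 2))
    (c4p : Cyc f (6 * k + 4) (c - 6) (2 * (n + 1 - (k + 2)) + 2))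
    (E0 : f (6 * k + 3) (c - 2) (2 * M + 4) (2 * M + 4 - 2 * k))
    (z1 : ¬ f (6 * k + 1) (c - 2) (2 * M) (2 * M + 2 - 2 * k)) (z2 : ¬ f (6 * k + 1) (c - 2) (2 * M) (2 * M + 4 - 2 * k))
    (z3 : ¬ f (6 * k + 1) (c - 2) (2 * M + 2) (2 * M + 4 - 2 * k)) (z4 : ¬ f (6 * k + 1) (c - 2) (2 * M + 2) (2 * M + 6 - 2 * k))
    (g1 : ¬ f (6 * k) (c - 2) (2 * M + 1) (2 * M + 6 - 2 * k)) (g2 : ¬ f (6 * k) (c - 2) (2 * M - 1) (2 * M + 4 - 2 * k)) :
    False := by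
  have hk := H.T.hk
  have hc := H.T.hc
  have h4' := H.T.h4
  have hb := H.T.hb
  have hN := H.T.hN2
  have hM := H.hM
  have hM' := H.hM'
  obtain ⟨a0, ha0⟩ : ∃ z, z + 2 = 6 * k := ⟨6 * k - 2, by omega⟩
  obtain ⟨b0, hb0⟩ : ∃ z, z + 9 = c := ⟨c - 9, by omega⟩
  obtain ⟨x0, hx0⟩ : ∃ z, z + 8 = 2 * M := ⟨2 * M - 8, by omega⟩
  obtain ⟨y0, hy0⟩ : ∃ z, z + 2 * k + 11 = 2 * M := ⟨2 * M - 2 * k - 11, by omega⟩
  refine check_sound hf (a0 := a0) (b0 := b0) (x0 := x0) (y0 := y0) p2_chk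
    ⟨fun h => absurd h (by decide), fun h => absurd h (by decide), fun h => absurd h (by decide), by omega, by omega,
      by omega, by omega⟩ ?_ ?_
  · intro j m p q hr h
    obtain ⟨-, -, -, -, hp1, hp2, hq1, hq2⟩ := hr
    replace h := of_decide_eq_true h
    rcases h with h | h | h | h | h | h | h | h | h | h | h | h | h | h | h | h | h | h
    · obtain ⟨rfl, rfl, h⟩ := h
      exact (WrapC.v1 H.c0 (by omega) (by omega) (by omega) (by omega) (by omega) (by omega) (by omega) (by omega)).mpr (by omega)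
    · obtain ⟨rfl, rfl, h⟩ := h
      exact (WrapC.v2 H.c0 (by omega) (by omega) (by omega) (by omega) (by omega) (by omega) (by omega)).mpr (by omega)
    · obtain ⟨rfl, rfl, h⟩ := h
      exact (WrapC.v2 c0p (by omega) (by omega) (by omega) (by omega) (by omega) (by omega) (by omega)).mpr (by omega)
    · obtain ⟨rfl, rfl, h⟩ := h
      exact (WrapC.v3 c0p (by omega) (by omega) (by omega) (by omega) (by omega) (by omega) (by omega) (by omega)).mpr (by omega)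
    · obtain ⟨rfl, rfl, h⟩ := h
      exact (WrapC.v4 c0p (by omega) (by omega) (by omega) (by omega) (by omega) (by omega) (by omega)).mpr (by omega)
    · obtain ⟨rfl, rfl, h⟩ := h
      exact (WrapC.v1 c2p (by omega) (by omega) (by omega) (by omega) (by omega) (by omega) (by omega) (by omega)).mpr (by omega)
    · obtain ⟨rfl, rfl, h⟩ := h
      exact (WrapC.v2 c2p (by omega) (by omega) (by omega) (by omega) (by omega) (by omega) (by omega)).mpr (by omega)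
    · obtain ⟨rfl, rfl, h⟩ := h
      exact (WrapC.v3 c2p (by omega) (by omega) (by omega) (by omega) (by omega) (by omega) (by omega) (by omega)).mpr (by omega)
    · obtain ⟨rfl, rfl, h⟩ := h
      exact (WrapC.v4 c2p (by omega) (by omega) (by omega) (by omega) (by omega) (by omega) (by omega)).mpr (by omega)
    · obtain ⟨rfl, rfl, h⟩ := h
      exact (WrapC.v0 c4p (by omega) (by omega) (by omega) (by omega) (by omega) (by omega) (by omega)).mpr (by omega)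
    · obtain ⟨rfl, rfl, h⟩ := h
      exact (WrapC.v1 c4p (by omega) (by omega) (by omega) (by omega) (by omega) (by omega) (by omega) (by omega)).mpr (by omega)
    · obtain ⟨rfl, rfl, h⟩ := h
      exact (WrapC.v2 c4p (by omega) (by omega) (by omega) (by omega) (by omega) (by omega) (by omega)).mpr (by omega)
    · obtain ⟨rfl, rfl, h⟩ := h
      exact (WrapC.v0 H.c6 (by omega) (by omega) (by omega) (by omega) (by omega) (by omega) (by omega)).mpr (by omega)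
    · obtain ⟨rfl, rfl, h⟩ := h
      exact (WrapC.v1 H.c6 (by omega) (by omega) (by omega) (by omega) (by omega) (by omega) (by omega) (by omega)).mpr (by omega)
    · obtain ⟨rfl, rfl, h⟩ := h
      exact (WrapC.v2 H.c6a (by omega) (by omega) (by omega) (by omega) (by omega) (by omega) (by omega)).mpr (by omega)
    · obtain ⟨rfl, rfl, h⟩ := h
      exact (NW.w0v H.c8 (by omega) (by omega) (by omega) (by omega) (by omega) (by omega) (by omega)).mpr (by omega)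
    · obtain ⟨rfl, rfl, h⟩ := h
      exact (NW.w2v H.c8a (by omega) (by omega) (by omega) (by omega) (by omega) (by omega) (by omega)).mpr (by omega)
    · obtain ⟨rfl, rfl, rfl, rfl⟩ := h
      exact mv E0 (by omega) (by omega) (by omega) (by omega)
  · intro j m p q hr h
    obtain ⟨-, -, -, -, hp1, hp2, hq1, hq2⟩ := hr
    replace h := of_decide_eq_true h
    rcases h with h | h | h | h | h | h | h | h | h | h | h | h | h | h | h | h | h | h | h | h | h | h | h | h | h | h | h | h | h | h | h | h | h | h | h | h | h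
    · obtain ⟨rfl, rfl, h⟩ := h
      exact mt (WrapC.v1 H.c0 (by omega) (by omega) (by omega) (by omega) (by omega) (by omega) (by omega) (by omega)).mp (by omega)
    · obtain ⟨rfl, rfl, h⟩ := h
      exact mt (WrapC.v2 H.c0 (by omega) (by omega) (by omega) (by omega) (by omega) (by omega) (by omega)).mp (by omega)
    · obtain ⟨rfl, rfl, h⟩ := h
      exact mt (WrapC.v3 c0p (by omega) (by omega) (by omega) (by omega) (by omega) (by omega) (by omega) (by omega)).mp (by omega)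
    · obtain ⟨rfl, rfl, h⟩ := h
      exact mt (WrapC.v4 c0p (by omega) (by omega) (by omega) (by omega) (by omega) (by omega) (by omega)).mp (by omega)
    · obtain ⟨rfl, rfl, h⟩ := h
      exact mt (WrapC.v1 c2p (by omega) (by omega) (by omega) (by omega) (by omega) (by omega) (by omega) (by omega)).mp (by omega)
    · obtain ⟨rfl, rfl, h⟩ := h
      exact mt (WrapC.v2 c2p (by omega) (by omega) (by omega) (by omega) (by omega) (by omega) (by omega)).mp (by omega)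
    · obtain ⟨rfl, rfl, h⟩ := h
      exact mt (WrapC.v3 c2p (by omega) (by omega) (by omega) (by omega) (by omega) (by omega) (by omega) (by omega)).mp (by omega)
    · obtain ⟨rfl, rfl, h⟩ := h
      exact mt (WrapC.v4 c2p (by omega) (by omega) (by omega) (by omega) (by omega) (by omega) (by omega)).mp (by omega)
    · obtain ⟨rfl, rfl, h⟩ := h
      exact mt (WrapC.v1 c4p (by omega) (by omega) (by omega) (by omega) (by omega) (by omega) (by omega) (by omega)).mp (by omega)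
    · obtain ⟨rfl, rfl, h⟩ := h
      exact mt (WrapC.v2 c4p (by omega) (by omega) (by omega) (by omega) (by omega) (by omega) (by omega)).mp (by omega)
    · obtain ⟨rfl, rfl, h⟩ := h
      exact mt (WrapC.v1 H.c6 (by omega) (by omega) (by omega) (by omega) (by omega) (by omega) (by omega) (by omega)).mp (by omega)
    · obtain ⟨rfl, rfl, h⟩ := h
      exact mt (WrapC.v3 H.c6a (by omega) (by omega) (by omega) (by omega) (by omega) (by omega) (by omega) (by omega)).mp (by omega)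
    · obtain ⟨rfl, rfl, h⟩ := h
      exact H.lw _ _ _ _ (by omega) (by omega) (by omega) (by omega) (by omega) (by omega)
    · obtain ⟨rfl, rfl, h⟩ := h
      exact H.lw _ _ _ _ (by omega) (by omega) (by omega) (by omega) (by omega) (by omega)
    · obtain ⟨rfl, rfl, h⟩ := h
      exact H.lw _ _ _ _ (by omega) (by omega) (by omega) (by omega) (by omega) (by omega)
    · obtain ⟨rfl, rfl, h⟩ := h
      exact H.lw _ _ _ _ (by omega) (by omega) (by omega) (by omega) (by omega) (by omega)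
    · obtain ⟨rfl, rfl, h⟩ := h
      exact H.lw _ _ _ _ (by omega) (by omega) (by omega) (by omega) (by omega) (by omega)
    · obtain ⟨rfl, rfl, h⟩ := h
      exact H.lw _ _ _ _ (by omega) (by omega) (by omega) (by omega) (by omega) (by omega)
    · obtain ⟨rfl, rfl, h⟩ := h
      exact NHT.pIn hf H.T (t := 3) (j := 2) (by omega) (by omega) (by omega) (by omega) (by omega) (by omega) (by omega)
    · obtain ⟨rfl, rfl, h⟩ := h
      exact NHT.pIn hf H.T (t := 3) (j := 1) (by omega) (by omega) (by omega) (by omega) (by omega) (by omega) (by omega)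
    · obtain ⟨rfl, rfl, h⟩ := h
      exact NHT.pIn hf H.T (t := 2) (j := 0) (by omega) (by omega) (by omega) (by omega) (by omega) (by omega) (by omega)
    · obtain ⟨rfl, rfl, h⟩ := h
      exact NHT.pIn hf H.T (t := 3) (j := 0) (by omega) (by omega) (by omega) (by omega) (by omega) (by omega) (by omega)
    · obtain ⟨rfl, rfl, h⟩ := h
      exact NHT.rIn hf H.T (t := 3) (p := 0) (j := 3) (by omega) (by omega) (by omega) (by omega) (by omega) (by omega) (by omega) (by omega)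
    · obtain ⟨rfl, rfl, h⟩ := h
      exact NHT.rIn hf H.T (t := 2) (p := 0) (j := 2) (by omega) (by omega) (by omega) (by omega) (by omega) (by omega) (by omega) (by omega)
    · obtain ⟨rfl, rfl, h⟩ := h
      exact NHT.rIn hf H.T (t := 3) (p := 1) (j := 3) (by omega) (by omega) (by omega) (by omega) (by omega) (by omega) (by omega) (by omega)
    · obtain ⟨rfl, rfl, h⟩ := h
      exact NHT.rIn hf H.T (t := 2) (p := 1) (j := 2) (by omega) (by omega) (by omega) (by omega) (by omega) (by omega) (by omega) (by omega)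
    · obtain ⟨rfl, rfl, h⟩ := h
      exact NHT.rIn hf H.T (t := 1) (p := 1) (j := 1) (by omega) (by omega) (by omega) (by omega) (by omega) (by omega) (by omega) (by omega)
    · obtain ⟨rfl, rfl, h⟩ := h
      exact NHT.rIn hf H.T (t := 2) (p := 0) (j := 1) (by omega) (by omega) (by omega) (by omega) (by omega) (by omega) (by omega) (by omega)
    · obtain ⟨rfl, rfl, h⟩ := h
      exact NHT.rIn hf H.T (t := 2) (p := 1) (j := 1) (by omega) (by omega) (by omega) (by omega) (by omega) (by omega) (by omega) (by omega)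
    · obtain ⟨rfl, rfl, h⟩ := h
      exact NHT.rIn hf H.T (t := 1) (p := 1) (j := 0) (by omega) (by omega) (by omega) (by omega) (by omega) (by omega) (by omega) (by omega)
    · obtain ⟨rfl, rfl, h⟩ := h
      exact NHT.rIn hf H.T (t := 2) (p := 1) (j := 0) (by omega) (by omega) (by omega) (by omega) (by omega) (by omega) (by omega) (by omega)
    · obtain ⟨rfl, rfl, rfl, rfl⟩ := h
      exact fun t => g1 (mv t (by omega) (by omega) (by omega) (by omega))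
    · obtain ⟨rfl, rfl, rfl, rfl⟩ := h
      exact fun t => g2 (mv t (by omega) (by omega) (by omega) (by omega))
    · obtain ⟨rfl, rfl, rfl, rfl⟩ := h
      exact fun t => z1 (mv t (by omega) (by omega) (by omega) (by omega))
    · obtain ⟨rfl, rfl, rfl, rfl⟩ := h
      exact fun t => z2 (mv t (by omega) (by omega) (by omega) (by omega))
    · obtain ⟨rfl, rfl, rfl, rfl⟩ := h
      exact fun t => z3 (mv t (by omega) (by omega) (by omega) (by omega))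
    · obtain ⟨rfl, rfl, rfl, rfl⟩ := h
      exact fun t => z4 (mv t (by omega) (by omega) (by omega) (by omega))

end Pool.Agent.SNT.P2M
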