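import Pool.Agent.SNT.SBCells
import Pool.Agent.SNT.A23
import Pool.Agent.SNT.D1Weak

set_option autoImplicit false

/-! The strict birth `SBirth f k t` from the remaining cells of `P_(6k+1)`; they may use the escape `E0` in all cycles. -/

namespace Pool.Agent.SNT.D1

open Pool.Agent.SNT

variable {f : ℕ → ℕ → ℕ → ℕ → Prop} {k b m t : ℕ}

/-- The context with the escape `E0` (and without `E1`) in all cycles. -/
structure CtxE (f : ℕ → ℕ → ℕ → ℕ → Prop) (k b m t : ℕ) : Prop where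
  C : Ctx f k b m t
  e0 : ∀ j : ℕ, E0 f k b m t j
  e1 : ∀ j : ℕ, ¬ E1 f k b m t j

theorem CtxE.of (hf : Rule f) (C : Ctx f k b m t) (e1 : ∀ j : ℕ, ¬ E1 f k b m t j) : CtxE f k b m t where
  C := C
  e0 := fun j => (C.esc hf j).resolve_right (e1 j)
  e1 := e1

theorem CtxE.shift (C : CtxE f k b m t) (i : ℕ) : CtxE f k (b + 4 * i) (m + (k + 2) * i) t where
  C := C.C.shift i
  e0 := fun j => (e0_shift i j).2 (C.e0 (i + j))
  e1 := fun j h => C.e1 (i + j) ((e1_shift i j).1 h)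

theorem CtxE.w (C : CtxE f k b m t) (i : ℕ) :
    SBC.W f k (b + 4 * i) (m + (k + 2) * i) (nn k m i) (ml k m t i) :=
  SBC.W.of_ctx (C.C.shift i) rfl

/-- The remaining cells of `PX`, in the cycle `R`. -/
def RestX (f : ℕ → ℕ → ℕ → ℕ → Prop) (k t R : ℕ) : Prop :=
  ∀ b m : ℕ, CtxE f k b m t → SBC.RX f k (b + 4 * R) (ml k m t R)

theorem RestX.at {R i : ℕ} (h : RestX f k t R) (C : CtxE f k b m t) (hi : R ≤ i) :
    SBC.RX f k (b + 4 * i) (ml k m t i) := by
  obtain ⟨j, rfl⟩ : ∃ j, i = j + R := ⟨i - R, by omega⟩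
  have := h _ _ (C.shift j)
  rwa [ml_shift, show b + 4 * j + 4 * R = b + 4 * (j + R) by ring] at this

theorem Ctx.a2x (hf : Rule f) (C : Ctx f k b m t) (i : ℕ) :
    ¬ f (6 * k + 1) (b + 4 * (i + 1) + 22) (2 * ml k m t (i + 1) + 2 * k) (2 * ml k m t (i + 1) + 2) :=
  C.a2 hf (fun j => (SBC.W.pz hf (SBC.W.of_ctx (C.shift j) rfl)).i1) i

/-- **The strict birth of `6 k + 2` from the remaining cells.** -/
theorem sbirth_of (hf : Rule f) {R : ℕ} (hX : RestX f k t R) : SBirth f k t := by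
  intro b m C e1
  have CE := CtxE.of hf C e1
  have C1 := C.shift R
  refine sb hf C1 (fun j _ => ?_) ?_ ?_
  · have h := SBC.W.pz hf (CE.w (R + j))
    rwa [ml_shift, show b + 4 * R + 4 * j = b + 4 * (R + j) by ring]
  · have h := SBC.W.px hf (CE.w (R + 3)) (C.a2x hf (R + 2)) (C.a3 hf (R + 2)) (hX.at CE (by omega))
    rwa [ml_shift, show b + 4 * R + 4 * 3 = b + 4 * (R + 3) by ring]
  · rw [e1_shift]
    exact e1 _

/-- **All the steps** from the remaining cells and from `E1 = 0` for `l = -4`. -/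
theorem steps_of_rest (hf : Rule f) (hk : 8 ≤ k) {R2 R1 R0 R : ℕ} (X2 : RestX f k 2 R2)
    (X1 : RestX f k 1 R1) (N : NoE1 f k 0 R) (X0 : RestX f k 0 R0) : Steps f k 0 1 :=
  steps_of_sb hf hk (sbirth_of hf X2) (sbirth_of hf X1) N (sbirth_of hf X0)

end Pool.Agent.SNT.D1
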