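import Pool.Agent.SNT.Z00C
import Pool.Agent.SNT.Z00W
import Pool.Agent.SNT.P2M
import Pool.Agent.SNT.D00c
import Pool.Agent.SNT.SBLine
import Pool.Agent.SNT.SBPlug

set_option autoImplicit false

/-! **The cell `(2 M + 4, 2 M + 4)` of `P_(6 k + 1)` in the row `c + 2` vanishes** if the escape `E0` occurs in the cycle
(`c = b + 26`; the cycle before is used, too). -/

namespace Pool.Agent.SNT.D1Z

open Pool.Agent.SNT Pool.Agent.SNT.NHZ Pool.Agent.SNT.Sig Pool.Agent.SNT.D1 Pool.Agent.SNT.SBC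

variable {f : ℕ → ℕ → ℕ → ℕ → Prop} {k b m n M : ℕ}

theorem l1_end (hf : Rule f) (w : W f k b m n M) : ¬ f (6 * k + 1) (b + 24) (2 * M + 2 * k + 4) (2 * M + 6) := by
  have hM := w.hM
  have hM' := w.hM'
  have hn := w.hn
  have hk : 8 ≤ k := w.hs.1
  rcases (show M + 2 = n ∨ M + 3 = n ∨ M + 4 = n by omega) with e | e | e
  · have := ZaX.p1_2w hf w.hs w.S w.hn (Z8.cyc_mono w.d0 (by omega)) (Z8.cyc_mono w.d2 (by omega)) w.d4 w.hs' w.S'
      (Z8.cyc_mono w.e2 (by omega))
    rwa [show 2 * n + 2 * k = 2 * M + 2 * k + 4 by omega, show 2 * n + 2 = 2 * M + 6 by omega] at this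
  · have := Z2X.p1_0w hf w.hs w.S w.hn (Z8.cyc_mono w.d0 (by omega)) (Z8.cyc_mono w.d2 (by omega)) w.d4
    rwa [show 2 * n + 2 * k - 2 = 2 * M + 2 * k + 4 by omega, show 2 * n = 2 * M + 6 by omega] at this
  · have := O2W.out2_wall hf w.hs w.S w.hn (Z8.cyc_mono w.d0 (by omega)) (Z8.cyc_mono w.d2 (by omega)) w.d4
      (fun x h1 h2 h3 => (PV.purity_stack hf w.hs w.S w.hn (Z8.cyc_mono w.d0 (by omega)) (Z8.cyc_mono w.d2 (by omega)) w.d4 h1
        (by omega) (by omega)).1)
      (fun x h1 h2 h3 => (PV.purity_stack hf w.hs w.S w.hn (Z8.cyc_mono w.d0 (by omega)) (Z8.cyc_mono w.d2 (by omega)) w.d4 h1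
        (by omega) (by omega)).2) (x := 2 * M + 2 * k + 4) (by omega) (by omega) (by omega)
    rwa [show 2 * n - 2 = 2 * M + 6 by omega] at this

/-- **P2**: one of the columns `2 M' - 1`, `2 M' + 1` of `6 k` in the row `c - 2` is present (`M' = M + k + 2`, `c = b + 26`). -/
theorem pair2 (hf : Rule f) (w : W f k b m n M) (w' : W f k (b + 4) (m + (k + 2)) (n + (k + 2)) (M + (k + 2)))
    (E : f (6 * k + 3) (b + 24) (2 * (M + (k + 2)) + 4) (2 * (M + (k + 2)) + 4 - 2 * k)) :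
    f (6 * k) (b + 24) (2 * (M + (k + 2)) - 1) (2 * (M + (k + 2)) + 4 - 2 * k) ∨
      f (6 * k) (b + 24) (2 * (M + (k + 2)) + 1) (2 * (M + (k + 2)) + 6 - 2 * k) := by
  have hM := w.hM
  have hM' := w.hM'
  have hn := w.hn
  obtain ⟨hk, hb2, hb4, hbl, hm⟩ := id w'.hs
  have H := D1E.PL.of_stack w'.hs w'.S w'.hn w'.hM (by omega) w'.d0 w'.d2 w'.d4
  by_contra hc
  rw [not_or] at hc
  refine P2M.p2 hf H w'.hM' (cyc_of_eq w.d0 (by omega) (by omega)) (cyc_of_eq w.d2 (by omega) (by omega))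
    (cyc_of_eq w.d4 (by omega) (by omega)) ?_ ?_ ?_ ?_ ?_ ?_ ?_
  · rwa [show b + 4 + 22 - 2 = b + 24 by omega]
  · rw [show b + 4 + 22 - 2 = b + 24 by omega]
    have := l1_end hf w
    rwa [show 2 * M + 2 * k + 4 = 2 * (M + (k + 2)) by ring, show 2 * M + 6 = 2 * (M + (k + 2)) + 2 - 2 * k by omega] at this
  · rw [show b + 4 + 22 - 2 = b + 24 by omega]
    exact w.out_slant hf (by omega) (by omega) (by omega) (by omega) (by omega)
  · rw [show b + 4 + 22 - 2 = b + 24 by omega]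
    exact (w.pz hf).o2 _ _ (by omega) (by omega) (by omega)
  · rw [show b + 4 + 22 - 2 = b + 24 by omega]
    exact w.out_slant hf (by omega) (by omega) (by omega) (by omega) (by omega)
  · rw [show b + 4 + 22 - 2 = b + 24 by omega]
    exact hc.2
  · rw [show b + 4 + 22 - 2 = b + 24 by omega]
    exact hc.1

/-- the beam cell at the distance `7` (used for `k = 8` only) -/
theorem d2x (hf : Rule f) (w : W f k b m n M) (h : f (6 * k + 1) (b + 24) (2 * M + 4) (2 * M + 4))
    (a : f (6 * k) (b + 20) (2 * M - 1) (2 * M - 8)) : f (6 * k) (b + 22) (2 * M + 1) (2 * M - 6) := by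
  have hM := w.hM
  have hM' := w.hM'
  have hN := w.T.hN2
  have I := D1E.PL.of_stack w.hs w.S w.hn w.hM (by omega) w.d0 w.d2 w.d4
  have ha := INdiag.in_diag hf w.hs w.S w.hn w.hM w.hM' w.d0 w.d2 w.d4 (x := 2 * M + 4) (y := 2 * M + 2) (by omega) (by omega)
  rcases (show M = n - 2 ∨ M = n - 3 ∨ M = n - 4 by omega) with e | e | e
  · subst e
    exact LW.mv (D00c.x2 hf I (LW.mv h (by omega) (by omega) (by omega) (by omega))
      (fun t => ha (LW.mv t (by omega) (by omega) (by omega) (by omega)))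
      (LW.mv a (by omega) (by omega) (by omega) (by omega))) (by omega) (by omega) (by omega) (by omega)
  · subst e
    exact LW.mv (D00c.x3 hf I (LW.mv h (by omega) (by omega) (by omega) (by omega))
      (fun t => ha (LW.mv t (by omega) (by omega) (by omega) (by omega)))
      (LW.mv a (by omega) (by omega) (by omega) (by omega))) (by omega) (by omega) (by omega) (by omega)
  · subst e
    exact LW.mv (D00c.x4 hf I (LW.mv h (by omega) (by omega) (by omega) (by omega))
      (fun t => ha (LW.mv t (by omega) (by omega) (by omega) (by omega)))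
      (LW.mv a (by omega) (by omega) (by omega) (by omega))) (by omega) (by omega) (by omega) (by omega)

/-- **the cell `(2 M' + 4, 2 M' + 4)`** in the row `b + 28` -/
theorem z00 (hf : Rule f) (w : W f k b m n M) (w' : W f k (b + 4) (m + (k + 2)) (n + (k + 2)) (M + (k + 2)))
    (E : f (6 * k + 3) (b + 24) (2 * (M + (k + 2)) + 4) (2 * (M + (k + 2)) + 4 - 2 * k)) :
    ¬ f (6 * k + 1) (b + 28) (2 * (M + (k + 2)) + 4) (2 * (M + (k + 2)) + 4) := by
  intro h
  have hM := w.hM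
  have hM' := w.hM'
  have hn := w.hn
  obtain ⟨hk, hb2, hb4, hbl, hm⟩ := id w'.hs
  have H := D1E.PL.of_stack w'.hs w'.S w'.hn w'.hM (by omega) w'.d0 w'.d2 w'.d4
  have H0 := D1E.PL.of_stack w.hs w.S w.hn w.hM (by omega) w.d0 w.d2 w.d4
  have h' : f (6 * k + 1) (b + 4 + 24) (2 * (M + (k + 2)) + 4) (2 * (M + (k + 2)) + 4) := h
  have h1 := D00.d1 hf w'.hs w'.S w'.hn w'.hM w'.hM' w'.d0 w'.d2 w'.d4 h'
  rw [show b + 4 + 20 = b + 24 by ring] at h1
  have g1 : ¬ f (6 * k) (b + 24) (2 * (M + (k + 2)) + 1) (2 * (M + (k + 2)) + 6 - 2 * k) := by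
    intro h2
    exact h1 (col_up hf w w' (x := 2 * (M + (k + 2)) + 1) (by omega) (by omega) (by omega) (by omega) (by omega)
      (by rwa [show 2 * (M + (k + 2)) + 1 + 5 - 2 * k = 2 * (M + (k + 2)) + 6 - 2 * k by omega]))
  have g2 := (pair2 hf w w' E).resolve_right g1
  have col : ∀ y : ℕ, y % 2 = 0 → 2 * (M + (k + 2)) + 4 ≤ y + 2 * k → y + 6 ≤ 2 * (M + (k + 2)) →
      f (6 * k) (b + 24) (2 * (M + (k + 2)) - 1) y := by
    intro y hy h2 h3
    exact col_up hf w w' (x := 2 * (M + (k + 2)) - 1) (by omega) (by omega) hy (by omega) (by omega)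
      (by rwa [show 2 * (M + (k + 2)) - 1 + 5 - 2 * k = 2 * (M + (k + 2)) + 4 - 2 * k by omega])
  have h3 := D00.d2 hf w'.hs w'.S w'.hn w'.hM w'.hM' w'.d0 w'.d2 w'.d4 h'
    (by rw [show b + 4 + 20 = b + 24 by ring]; exact col _ (by omega) (by omega) (by omega))
  have h3x : f (6 * k) (b + 4 + 22) (2 * (M + (k + 2)) + 1) (2 * (M + (k + 2)) - 6) :=
    d2x hf w' h' (by rw [show b + 4 + 20 = b + 24 by ring]; exact col _ (by omega) (by omega) (by omega))
  rw [show b + 4 + 22 = b + 26 by ring] at h3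
  refine Z00W.z00b hf (b := b + 4) (H0 := by rwa [show b + 4 + 18 = b + 22 by ring]) H rfl ?_ ?_ ?_ ?_ ?_ ?_
  · exact E
  · exact col _ (by omega) (by omega) (by omega)
  · exact col _ (by omega) (by omega) (by omega)
  · exact col _ (by omega) (by omega) (by omega)
  · by_cases hk9 : 9 ≤ k
    · exact beam_down hf w'.hs w'.S w.T hn w'.hM (by omega) (by omega) (by omega) h3.1
    · have h4 := h3x
      rwa [show b + 4 + 22 = b + 26 by ring, show 2 * (M + (k + 2)) - 6 = 2 * (M + (k + 2)) + 10 - 2 * k by omega] at h4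
  · exact odd_down hf w'.hs w'.S w.T hn w'.hM (by omega) (by omega) (by omega) h3.1 h3.2

end Pool.Agent.SNT.D1Z

namespace Pool.Agent.SNT.D1

open Pool.Agent.SNT

variable {f : ℕ → ℕ → ℕ → ℕ → Prop} {k b m t : ℕ}

/-- **the field `l2` of `RX`**, in the cycle `i + 1` -/
theorem CtxE.l2 (hf : Rule f) (C : CtxE f k b m t) (i : ℕ) :
    ¬ f (6 * k + 1) (b + 4 * (i + 1) + 24) (2 * ml k m t (i + 1) + 4) (2 * ml k m t (i + 1) + 4) := by
  have w := C.w i
  have w' := C.w (i + 1)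
  have en : nn k m (i + 1) = nn k m i + (k + 2) := by
    unfold nn
    ring
  have em : ml k m t (i + 1) = ml k m t i + (k + 2) := by
    unfold ml
    rw [en]
    have : 4 ≤ nn k m i := by
      unfold nn
      omega
    omega
  have hE := C.e0 (i + 1)
  unfold E0 at hE
  rw [show b + 4 * (i + 1) = b + 4 * i + 4 by ring, show m + (k + 2) * (i + 1) = m + (k + 2) * i + (k + 2) by ring, en, em] at w'
  rw [em] at hE ⊢
  rw [show b + 4 * (i + 1) + 20 = b + 4 * i + 24 by ring] at hE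
  rw [show b + 4 * (i + 1) + 24 = b + 4 * i + 28 by ring]
  exact D1Z.z00 hf w w' hE

end Pool.Agent.SNT.D1
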