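import Pool.Agent.SNT.SBFin
import Pool.Agent.SNT.Z00
import Pool.Agent.SNT.L3
import Pool.Agent.SNT.E1m4F

set_option autoImplicit false

/-! All the steps of the three leads of `6 k + 2`. -/

namespace Pool.Agent.SNT.D1

open Pool.Agent.SNT

variable {f : ℕ → ℕ → ℕ → ℕ → Prop} {k : ℕ}

/-- **All the steps.** -/
theorem steps (hf : Rule f) (hk : 8 ≤ k) : Steps f k 0 1 :=
  (last_of hf (R := 1) (fun _ _ _ _ C => C.l2 hf 0) (fun _ _ => cell_l3 hf)).steps hf hk (E1m4.noE1_m4 hf)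

end Pool.Agent.SNT.D1
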