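import Pool.Agent.SNT.Final0
import Pool.Agent.SNT.LLW
import Pool.Agent.SNT.SBSteps

set_option autoImplicit false

/-! The frozen statement from the columns of the deep lead `n - k - e` of `6 k` (`e ≤ 6`) and from the cells of the location of
`6 k + 10` over the deep lead. -/

namespace Pool.Agent.SNT.S6

open Pool.Agent.SNT.LRI

/-- everything for one `f`, `k` over the steps; the deep lead of `6 k` is `n - k - e` -/
theorem allA_of_steps {f : ℕ → ℕ → ℕ → ℕ → Prop} {k e : ℕ} (hf : Rule f) (hk : 8 ≤ k) (he : e ≤ 6)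
    (H : D1.Steps f k 0 1)
    (P : ∀ v : ℕ, v + 8 ≤ k + e → D1.ColD f k 1 v)
    (O : ∀ b m : ℕ, WL0 f k b m e →
      f (6 * k + 10) (b + 4 * 25 + 22) (2 * D1.nn k m 25 + 1) (2 * D1.nn k m 25) →
      Cells10 f k (b + 4 * 25) (D1.nn k m 25)) : AllA f k :=
  ⟨R10A_of_steps hf hk H, locR6A_of_steps hf hk H, locR8A_of_steps hf hk H,
    locR10A_ofD hf hk H (u := k + e - 7) (by omega) (by omega) (fun v hv => P v (by omega)) O⟩

/-- **The frozen statement from the columns of the deep lead and the cells of the location of `6 k + 10`.** -/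
theorem final_of_two {e : ℕ} (he : e ≤ 6)
    (P : ∀ f : ℕ → ℕ → ℕ → ℕ → Prop, Rule f → ∀ k : ℕ, 8 ≤ k → ∀ v : ℕ, v + 8 ≤ k + e → D1.ColD f k 1 v)
    (O : ∀ f : ℕ → ℕ → ℕ → ℕ → Prop, Rule f → ∀ k : ℕ, 8 ≤ k → ∀ b m : ℕ, WL0 f k b m e →
      f (6 * k + 10) (b + 4 * 25 + 22) (2 * D1.nn k m 25 + 1) (2 * D1.nn k m 25) →
      Cells10 f k (b + 4 * 25) (D1.nn k m 25)) :
    ¬ (∀ n k : ℕ, 1 ≤ k →
      ∀ P : Set (Fin n → ℕ),
        (∀ x : Fin n → ℕ, x ∈ P ↔
          ∀ S : Finset (Fin n), S.card = k → (∀ i ∈ S, 1 ≤ x i) →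
            (fun i => if i ∈ S then x i - 1 else x i) ∉ P) →
        ∃ m r : ℕ, ∃ base : Fin m → Fin n → ℕ, ∃ per : Fin m → Fin r → Fin n → ℕ,
          ∀ x : Fin n → ℕ, x ∈ P ↔
            ∃ i : Fin m, ∃ c : Fin r → ℕ, x = base i + ∑ j, c j • per i j) :=
  final_of_allA fun f hf k hk => allA_of_steps hf hk he (D1.steps hf hk) (P f hf k hk) (O f hf k hk)

end Pool.Agent.SNT.S6
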