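import Pool.Agent.SNT.L4TH

set_option autoImplicit false

/-! The window of the in-line `2 n + 3` of `6 k + 4` in the row `c - 2` (helper33). -/

namespace Pool.Agent.SNT.L4T

open Pool.Agent.SNT Pool.Agent.SNT.Loc Pool.Agent.SNT.LW Pool.Agent.SNT.NHZ

variable {f : ℕ → ℕ → ℕ → ℕ → Prop} {k c n : ℕ}

def t3T (j n p q : ℕ) : Bool :=
  ((((decide (j = 2 ∧ n = 2 ∧ q ≤ p + 17 ∧ ((p + 4 > 0) ∨ (q ≤ p + 3) ∨ (p + 4 ≤ q ∧ q > 0)) ∧ (((p + q + 1) % 2 = 1 ∧ p + 3 < q ∧ (p) % 2 = 0) ∨ (q ≤ p + 4 ∧ (p + q) % 4 = 0)))) ||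
    (decide (j = 2 ∧ n = 3 ∧ q ≤ p + 17 ∧ ((p + 2 > 0) ∨ (p + 4 ≤ q ∧ q > 2)) ∧ (q ≤ p + 3 ∧ (p + q + 1) % 4 = 0)))) ||
    ((decide (j = 2 ∧ n = 4 ∧ q ≤ p + 17 ∧ p > 0 ∧ (((p + q + 1) % 2 = 1 ∧ p + 3 < q ∧ (p) % 2 = 1) ∨ (q ≤ p + 4 ∧ (p + q + 2) % 4 = 0)))) ||
    (decide (j = 2 ∧ n = 5 ∧ q ≤ p + 17 ∧ ((p > 2) ∨ (p + 3 ≤ q ∧ p > 1)) ∧ (q ≤ p + 3 ∧ (p + q + 3) % 4 = 0))))) ||
    (((decide (j = 2 ∧ n = 6 ∧ q ≤ p + 17 ∧ q ≤ p + 3 ∧ p > 4 ∧ (((p + q + 1) % 2 = 1 ∧ p + 3 < q ∧ (p) % 2 = 0) ∨ (q ≤ p + 4 ∧ (p + q) % 4 = 0)))) ||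
    (decide (j = 4 ∧ n = 1 ∧ q ≤ p + 17 ∧ ((p + 6 > 0) ∨ (p + 4 ≤ q ∧ q + 2 > 0)) ∧ (q ≤ p + 3 ∧ (p + q + 1) % 4 = 0)))) ||
    (decide (j = 4 ∧ n = 2 ∧ q ≤ p + 17 ∧ p + 4 > 0 ∧ (((p + q + 1) % 2 = 1 ∧ p + 3 < q ∧ (p) % 2 = 1) ∨ (q ≤ p + 4 ∧ (p + q + 2) % 4 = 0)))))) ||
    ((((decide (j = 4 ∧ n = 3 ∧ q ≤ p + 17 ∧ ((p + 2 > 0) ∨ (p + 3 ≤ q ∧ p + 3 > 0)) ∧ (q ≤ p + 3 ∧ (p + q + 3) % 4 = 0))) ||
    (decide (j = 4 ∧ n = 4 ∧ q ≤ p + 17 ∧ q ≤ p + 3 ∧ p > 0 ∧ (((p + q + 1) % 2 = 1 ∧ p + 3 < q ∧ (p) % 2 = 0) ∨ (q ≤ p + 4 ∧ (p + q) % 4 = 0))))) ||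
    ((decide (j = 6 ∧ n = 1 ∧ q ≤ p + 17 ∧ (q ≤ p + 3 ∧ (p + q + 3) % 4 = 0))) ||
    (decide (j = 6 ∧ n = 2 ∧ q ≤ p + 17 ∧ ((p > 4) ∨ (q ≤ p + 3) ∨ (p + 4 ≤ q ∧ q > 8)) ∧ (((p + q + 1) % 2 = 1 ∧ p + 3 < q ∧ (p) % 2 = 0) ∨ (q ≤ p + 4 ∧ (p + q) % 4 = 0)))))) ||
    (((decide (j = 6 ∧ n = 3 ∧ q ≤ p + 17 ∧ ((p > 6) ∨ (p + 4 ≤ q ∧ q > 10)) ∧ (q ≤ p + 3 ∧ (p + q + 1) % 4 = 0))) ||
    (decide (j = 10 ∧ n = 4 ∧ q ≤ p + 17 ∧ ((p > 0 ∧ p + 4 ≤ q) ∨ (p > 2)) ∧ (((p + q + 1) % 2 = 1 ∧ p + 1 < q ∧ (p) % 2 = 1) ∨ (q ≤ p + 2 ∧ (p + q + 2) % 4 = 2))))) ||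
    (decide (j = 10 ∧ n = 5 ∧ q ≤ p + 17 ∧ ((p > 1 ∧ p + 4 ≤ q) ∨ (p > 4)) ∧ (q ≤ p + 1 ∧ (p + q + 3) % 4 = 2)))))

def t3F (j n p q : ℕ) : Bool :=
  ((((((decide (j = 2 ∧ n = 5 ∧ q ≤ p + 17 ∧ ((p > 2) ∨ (p + 3 ≤ q ∧ p > 1)) ∧ ¬ (q ≤ p + 3 ∧ (p + q + 3) % 4 = 0))) ||
    (decide (j = 4 ∧ n = 3 ∧ q ≤ p + 17 ∧ ((p + 2 > 0) ∨ (p + 3 ≤ q ∧ p + 3 > 0)) ∧ ¬ (q ≤ p + 3 ∧ (p + q + 3) % 4 = 0)))) ||
    (decide (j = 4 ∧ n = 4 ∧ q ≤ p + 17 ∧ q ≤ p + 3 ∧ p > 0 ∧ ¬ (((p + q + 1) % 2 = 1 ∧ p + 3 < q ∧ (p) % 2 = 0) ∨ (q ≤ p + 4 ∧ (p + q) % 4 = 0))))) ||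
    ((decide (j = 6 ∧ n = 1 ∧ q ≤ p + 17 ∧ ¬ (q ≤ p + 3 ∧ (p + q + 3) % 4 = 0))) ||
    (decide (j = 6 ∧ n = 2 ∧ q ≤ p + 17 ∧ ((p > 4) ∨ (q ≤ p + 3) ∨ (p + 4 ≤ q ∧ q > 8)) ∧ ¬ (((p + q + 1) % 2 = 1 ∧ p + 3 < q ∧ (p) % 2 = 0) ∨ (q ≤ p + 4 ∧ (p + q) % 4 = 0)))))) ||
    ((((decide (j = 6 ∧ n = 3 ∧ q ≤ p + 17 ∧ ((p > 6) ∨ (p + 4 ≤ q ∧ q > 10)) ∧ ¬ (q ≤ p + 3 ∧ (p + q + 1) % 4 = 0))) ||
    (decide (j = 8 ∧ n = 3 ∧ q ≤ p + 17 ∧ ((p + 2 > 0) ∨ (p + 1 ≤ q ∧ p + 3 > 0)) ∧ ¬ (q ≤ p + 1 ∧ (p + q + 3) % 4 = 2)))) ||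
    (decide (j = 10 ∧ n = 5 ∧ q ≤ p + 17 ∧ ((p > 1 ∧ p + 4 ≤ q) ∨ (p > 4)) ∧ ¬ (q ≤ p + 1 ∧ (p + q + 3) % 4 = 2)))) ||
    ((decide (j = 5 ∧ n = 3 ∧ p + 7 ≤ q ∧ q ≤ p + 16)) ||
    (decide (j = 5 ∧ n = 4 ∧ p + 7 ≤ q ∧ q ≤ p + 16))))) ||
    (((((decide (j = 6 ∧ n = 3 ∧ p + 6 ≤ q ∧ q ≤ p + 17)) ||
    (decide (j = 6 ∧ n = 5 ∧ p + 7 ≤ q ∧ q ≤ p + 16))) ||
    (decide (j = 7 ∧ n = 1 ∧ p + 3 ≤ q ∧ q ≤ p + 18))) ||
    ((decide (j = 7 ∧ n = 2 ∧ p + 3 ≤ q ∧ q ≤ p + 18)) ||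
    (decide (j = 7 ∧ n = 3 ∧ p ≥ 2 ∧ p + 4 ≤ q ∧ q ≤ p + 17)))) ||
    (((decide (j = 7 ∧ n = 4 ∧ p ≥ 2 ∧ p + 4 ≤ q ∧ q ≤ p + 17)) ||
    (decide (j = 7 ∧ n = 5 ∧ p + 7 ≤ q ∧ q ≤ p + 16))) ||
    ((decide (j = 7 ∧ n = 5 ∧ p ≥ 8 ∧ p + 5 ≤ q ∧ q ≤ p + 16)) ||
    (decide (j = 7 ∧ n = 6 ∧ p ≥ 6 ∧ p + 7 ≤ q ∧ q ≤ p + 16)))))) ||
    ((((((decide (j = 7 ∧ n = 6 ∧ p ≥ 8 ∧ p + 5 ≤ q ∧ q ≤ p + 16)) ||
    (decide (j = 8 ∧ n = 5 ∧ p + 6 ≤ q ∧ q ≤ p + 17))) ||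
    (decide (j = 9 ∧ n = 3 ∧ p ≥ 2 ∧ p + 3 ≤ q ∧ q ≤ p + 18))) ||
    ((decide (j = 9 ∧ n = 4 ∧ p ≥ 2 ∧ p + 3 ≤ q ∧ q ≤ p + 18)) ||
    (decide (j = 9 ∧ n = 5 ∧ p + 6 ≤ q ∧ q ≤ p + 17)))) ||
    ((((decide (j = 9 ∧ n = 5 ∧ p ≥ 8 ∧ p + 4 ≤ q ∧ q ≤ p + 17)) ||
    (decide (j = 9 ∧ n = 6 ∧ p ≥ 6 ∧ p + 6 ≤ q ∧ q ≤ p + 17))) ||
    (decide (j = 9 ∧ n = 6 ∧ p ≥ 8 ∧ p + 4 ≤ q ∧ q ≤ p + 17))) ||
    ((decide (j = 11 ∧ n = 5 ∧ p + 5 ≤ q ∧ q ≤ p + 18)) ||
    (decide (j = 11 ∧ n = 5 ∧ p ≥ 8 ∧ p + 3 ≤ q ∧ q ≤ p + 18))))) ||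
    (((((decide (j = 11 ∧ n = 6 ∧ p ≥ 6 ∧ p + 5 ≤ q ∧ q ≤ p + 18)) ||
    (decide (j = 11 ∧ n = 6 ∧ p ≥ 8 ∧ p + 3 ≤ q ∧ q ≤ p + 18))) ||
    (decide (j = 3 ∧ n = 6 ∧ p ≤ 5 ∧ q ≥ 10))) ||
    ((decide (j = 5 ∧ n = 6 ∧ p ≥ 3 ∧ p ≤ 5 ∧ q ≥ 11)) ||
    (decide (j = 7 ∧ n = 6 ∧ p ≥ 4 ∧ p ≤ 5 ∧ q ≥ 12)))) ||
    (((decide (j = 6 ∧ n = 6 ∧ p = 5 ∧ q ≥ 13 ∧ q ≤ 15 ∧ q % 2 = 1)) ||
    (decide (j = 6 ∧ n = 6 ∧ p = 7 ∧ q ≥ 12 ∧ q % 2 = 1))) ||
    ((decide (j = 1 ∧ q ≤ p + 17)) ||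
    (decide (j = 6 ∧ n = 4 ∧ p = 7 ∧ q = 15))))))

theorem t3_chk : check 11 8 10 17 0 0 0 1 0 t3T t3F
    742
    0x1437831186001436d2142d0311268011268114c60512150014ce92121e1a11c80011c8011161001409ca11620014135a14c60512150014ce92121e1a11c80011c8011161801412da1162801162841780051777001a30d21a27d214d70014d701122e00122e0111c88011cf8011c88111cf8111c78011c784117b00117b011114801114811780051777001a30d21a27d214d70014d70111c88011d90011c88111d901117280117281110c00110c040c1a030ec2000ec2040cc5030f6d000f6d040c1a030c6f800c6f8416d503172a00172a0416de031733001733040c1b030f18000f180411cf8311d00011d0040c11830c67000c67040774030a1c800a1c840c23830f21000f210416d503172a001a27ea14ce8014ce840c78030f20000f200414130311c00011c0040c23830f20800f2084117b0311d08011d08414cf83121e00121e041356831103801103840c80830f28800f28841412831159001159040c1b030f18800f188416d50319d20019d2040cd5030f7d000f7d0414128311bf8011bf840c1a030f1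7000f1704197483172180172184118480117400142d4a1424d2111e00111e04111483116a00116a0419748319c98019c9841f6d031f6d801f769a1f77001f801a1a27001a2704076b830a14000a140411850311da0011da040c11830c12000c12041781051778001a31d21a28d214d80014e092122f00122f04112685118480112681142d4a1173801173840cd5030f7d800f7d8416d583172a80172a841f6d031f6d801f769a1f77001f778a1a1e801a1e840c1b030ec3000ec30416d58319d28019d284142d031481801481841f80831a27801a278419868317338017338411858011858411cf831225001225040774030a1c800ccdda0f75800f75840c1a030f17800f17840c1a030c6f000c6f0410b780135fc21437831186001436d2118500142d4211268011268110c00013684210af0010af040c1b030c70000c70040c1a030ec2800ec2840c2c030ed40011855a1185801436da11868011870a1175001425d21174001424d2111e00112692142c80142c84118300117100118301112480111c80117101111280110a800c88800c76801c78801c66801c25001c24001c13001c1200113880112e8010d20010d00010c80011248110c60010c100111c8110be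0010b60011128110b400110a8110ac0010a4001061800c34000c88810c2a000c22000c76810c18000c10000bdf800bdd800bd5800bcd800bcb800bc3800bbb800bb9800bb1800b8b000b89000b81000b7f000b7a000b79000b77000b6f000b6d000b67000b65000b5d000b2c800b2a800b22800b1a800b18800b10800b08800b06800afe80077c00072f80072780071d8007158006e30006db0006d30006d10006c90006c20006c10006b000068e80068680067c80067480066a80063200062100062000061000060f00060e001f80871f80071f7f871f78071f77871f6f071f6e871f2b871f2b071f2a871f23071f22871f1a071f19871cd8871cd7871cc6871cc5871cc4871c83871c83071c82871c7b071c7a871c7a071c79871c79071c788f1c72071c71871c71071c70871c70071c6f871c67871c67071c668f1c250f1c240f1c130f1c120f1a31871a31071a30871a30071a29071a28871a28071a20071a1f871a1f0719dc8719dc0719db8719db0719d40719d38719d30719cb0719ca8719ca07198687198607197e07197d87197487197407196c07196b87193187193107192907192887191f87191f0719170719168717898717888717778717768717348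7173407172c07172b87172b0717230717228717220716de8716dd8716cc87168987168907168887168107168087168007167f87167807167787167707166f07166e8714e08714cf8714c70714c687148b87147a87147207147187143787143707143687143607142f07142e87142e07142d87142d07142587142507142487142407141d07141c87141c07141b87141307141287141207140a87140a0714098714090714010714008713e28713e20713e18713e10713da0713d98713d90713d88713d80713d08713d00713cf8713cf0713c80713c78713c70713c68713be0713bd8713bd0713b58713b50713b48713b40713ac0713ab87136807136787135f87135f07135707135687135607134e07134d87131307131287130a87130a0713020713018713010712f90712f887123887123007122787122687122587121f0712158711d28711ca0711c98711c087118f87118e87118707117e87117d87117c87117b87117a87116a87116987116887115887113a87113a0711398711390711388f113207113187113107113087113007112f87112e8f112e07112d87112987112907112887112807112787112007111f87111f07111607110d87110d0711040710d20f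10d18710d10710d00f10cf8710cf0710c90710c88710c80f10c78710c70710c68710c60f10c10f10bf8710bf0710be8710be0f10bd8710bd0710b68710b60f10b58710b50710b48710b40f10ae8710ad0710ac8710ac0f10a40f106b07106a8710628710620710618f105a071059871059071051071050870f76070f6d870edf070ede870ed6870ed6070e8a070e89870e81870e81070cd4870cc4870c340f0c33870c33070c2b870c2b070c2a870c2a0f0c22870c220f0c21870c21070c1a870c19870c19070c18870c180f0c100f0c08870bdf8f0bdd8f0bd7070bd6870bd58f0bce870bce070bcd8f0bcb8f0bc6070bc5870bc5070bc4870bc38f0bbd870bbd070bbc870bbc070bbb8f0bb98f0bb4070bb3870bb18f0b8b0f0b890f0b810f0b7f0f0b7a0f0b790f0b770f0b6f0f0b6d0f0b670f0b650f0b5d0f0b2c8f0b2a8f0b228f0b1a8f0b188f0b108f0b088f0b068f0afe8f0a25870a1d070a1487077c0f077387076287072f8f07278f071f07071e87071d8f07168707160707158f070e07070d8706e30f06db0f06d30f06d10f06c90f06c20f06c10f06b00f068e8f06868f067c8f06748f066a8f06320f06210f06200f06100f060f0f060e0f04cc0704cb8704c38704c30704bb0704ba87047707047687046e87046e07046607046587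 = true := by
  decide +kernel

/-- The in-line `2 n + 3` missing: impossible (lead `n - k - 5` of `6 k`, no beam in the column `2 n + 3` of the row `c`). -/
theorem t3 (hf : Rule f) (H : L4T.H f k c n)
    (r6 : Cyc f (6 * k) (c - 6) (2 * (n - k - 5) + 2)) (r2 : Cyc f (6 * k) (c - 2) (2 * (n - 3) + 2))
    (nb : ∀ y : ℕ, y % 2 = 0 → 2 * n + 4 ≤ y + 2 * k → y + 2 ≤ 2 * n → ¬ f (6 * k + 4) c (2 * n + 3) y)
    (g1 : ¬ f (6 * k + 4) (c - 2) (2 * n + 3) (2 * n - 2 * k + 8)) :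
    False := by
  have hk := H.T.hk
  have hc := H.T.hc
  have h4 := H.T.h4
  have hb := H.T.hb
  have hN2 := H.T.hN2
  obtain ⟨a0, ha0⟩ : ∃ a0, a0 + 2 = 6 * k := ⟨6 * k - 2, by omega⟩
  obtain ⟨b0, hb0⟩ : ∃ b0, b0 + 6 = c := ⟨c - 6, by omega⟩
  obtain ⟨x0, hx0⟩ : ∃ x0, x0 + 4 = 2 * n := ⟨2 * n - 4, by omega⟩
  obtain ⟨y0, hy0⟩ : ∃ y0, y0 + 7 = 2 * n - 2 * k := ⟨2 * n - 2 * k - 7, by omega⟩
  refine check_sound hf (a0 := a0) (b0 := b0) (x0 := x0) (y0 := y0) t3_chk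
    ⟨fun h => absurd h (by decide), fun h => absurd h (by decide), fun h => absurd h (by decide),
      by omega, by omega, by omega, by omega⟩ ?_ ?_
  · intro j m p q hr h
    obtain ⟨-, -, hn1, hn2, hp1, hp2, hq1, hq2⟩ := hr
    unfold t3T at h
    simp only [Bool.or_eq_true, decide_eq_true_eq] at h
    rcases h with (((h | h) | (h | h)) | ((h | h) | h)) | (((h | h) | (h | h)) | ((h | h) | h))
    · obtain ⟨⟨rfl, rfl, h1⟩, h2⟩ := h
      exact (WrapC.v2 r6 (by omega) (by omega) (by omega) (by omega) (by omega) (by omega) (by omega)).mpr (by omega)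
    · obtain ⟨⟨rfl, rfl, h1⟩, h2⟩ := h
      exact (WrapC.v3 r6 (by omega) (by omega) (by omega) (by omega) (by omega) (by omega) (by omega) (by omega)).mpr (by omega)
    · obtain ⟨⟨rfl, rfl, h1⟩, h2⟩ := h
      exact (WrapC.v0 r2 (by omega) (by omega) (by omega) (by omega) (by omega) (by omega) (by omega)).mpr (by omega)
    · obtain ⟨⟨rfl, rfl, h1⟩, h2⟩ := h
      exact (WrapC.v1 r2 (by omega) (by omega) (by omega) (by omega) (by omega) (by omega) (by omega) (by omega)).mpr (by omega)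
    · obtain ⟨⟨rfl, rfl, h1⟩, h2⟩ := h
      exact (WrapC.v2 r2 (by omega) (by omega) (by omega) (by omega) (by omega) (by omega) (by omega)).mpr (by omega)
    · obtain ⟨⟨rfl, rfl, h1⟩, h2⟩ := h
      exact (WrapC.v3 H.k2_m8 (by omega) (by omega) (by omega) (by omega) (by omega) (by omega) (by omega) (by omega)).mpr (by omega)
    · obtain ⟨⟨rfl, rfl, h1⟩, h2⟩ := h
      exact (WrapC.v0 H.k2_m4 (by omega) (by omega) (by omega) (by omega) (by omega) (by omega) (by omega)).mpr (by omega)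
    · obtain ⟨⟨rfl, rfl, h1⟩, h2⟩ := h
      exact (WrapC.v1 H.k2_m4 (by omega) (by omega) (by omega) (by omega) (by omega) (by omega) (by omega) (by omega)).mpr (by omega)
    · obtain ⟨⟨rfl, rfl, h1⟩, h2⟩ := h
      exact (WrapC.v2 H.k2_m4 (by omega) (by omega) (by omega) (by omega) (by omega) (by omega) (by omega)).mpr (by omega)
    · obtain ⟨⟨rfl, rfl, h1⟩, h2⟩ := h
      exact (WrapC.v1 H.k4_m6 (by omega) (by omega) (by omega) (by omega) (by omega) (by omega) (by omega) (by omega)).mpr (by omega)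
    · obtain ⟨⟨rfl, rfl, h1⟩, h2⟩ := h
      exact (WrapC.v2 H.k4_m6 (by omega) (by omega) (by omega) (by omega) (by omega) (by omega) (by omega)).mpr (by omega)
    · obtain ⟨⟨rfl, rfl, h1⟩, h2⟩ := h
      exact (WrapC.v3 H.k4_m6 (by omega) (by omega) (by omega) (by omega) (by omega) (by omega) (by omega) (by omega)).mpr (by omega)
    · obtain ⟨⟨rfl, rfl, h1⟩, h2⟩ := h
      exact (NW.w0v H.k8_m2 (by omega) (by omega) (by omega) (by omega) (by omega) (by omega) (by omega)).mpr (by omega)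
    · obtain ⟨⟨rfl, rfl, h1⟩, h2⟩ := h
      exact (NW.w1v H.k8_m2 (by omega) (by omega) (by omega) (by omega) (by omega) (by omega) (by omega) (by omega)).mpr (by omega)
  · intro j m p q hr h
    obtain ⟨-, -, hn1, hn2, hp1, hp2, hq1, hq2⟩ := hr
    unfold t3F at h
    simp only [Bool.or_eq_true, decide_eq_true_eq] at h
    rcases h with (((((h | h) | h) | (h | h)) | (((h | h) | h) | (h | h))) | ((((h | h) | h) | (h | h)) | ((h | h) | (h | h)))) | (((((h | h) | h) | (h | h)) | (((h | h) | h) | (h | h))) | ((((h | h) | h) | (h | h)) | ((h | h) | (h | h))))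
    · obtain ⟨⟨rfl, rfl, h1⟩, h2⟩ := h
      exact mt (WrapC.v1 r2 (by omega) (by omega) (by omega) (by omega) (by omega) (by omega) (by omega) (by omega)).mp (by omega)
    · obtain ⟨⟨rfl, rfl, h1⟩, h2⟩ := h
      exact mt (WrapC.v1 H.k2_m4 (by omega) (by omega) (by omega) (by omega) (by omega) (by omega) (by omega) (by omega)).mp (by omega)
    · obtain ⟨⟨rfl, rfl, h1⟩, h2⟩ := h
      exact mt (WrapC.v2 H.k2_m4 (by omega) (by omega) (by omega) (by omega) (by omega) (by omega) (by omega)).mp (by omega)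
    · obtain ⟨⟨rfl, rfl, h1⟩, h2⟩ := h
      exact mt (WrapC.v1 H.k4_m6 (by omega) (by omega) (by omega) (by omega) (by omega) (by omega) (by omega) (by omega)).mp (by omega)
    · obtain ⟨⟨rfl, rfl, h1⟩, h2⟩ := h
      exact mt (WrapC.v2 H.k4_m6 (by omega) (by omega) (by omega) (by omega) (by omega) (by omega) (by omega)).mp (by omega)
    · obtain ⟨⟨rfl, rfl, h1⟩, h2⟩ := h
      exact mt (WrapC.v3 H.k4_m6 (by omega) (by omega) (by omega) (by omega) (by omega) (by omega) (by omega) (by omega)).mp (by omega)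
    · obtain ⟨⟨rfl, rfl, h1⟩, h2⟩ := h
      exact mt (WrapC.v1 H.k6_m4 (by omega) (by omega) (by omega) (by omega) (by omega) (by omega) (by omega) (by omega)).mp (by omega)
    · obtain ⟨⟨rfl, rfl, h1⟩, h2⟩ := h
      exact mt (NW.w1v H.k8_m2 (by omega) (by omega) (by omega) (by omega) (by omega) (by omega) (by omega) (by omega)).mp (by omega)
    · obtain ⟨rfl, rfl, h1⟩ := h
      exact NHT.rIn hf H.T (t := 3) (j := 2) (p := 1) (by omega) (by omega) (by omega) (by omega) (by omega) (by omega) (by omega) (by omega)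
    · obtain ⟨rfl, rfl, h1⟩ := h
      exact NHT.pIn hf H.T (t := 4) (j := 2) (by omega) (by omega) (by omega) (by omega) (by omega) (by omega) (by omega)
    · obtain ⟨rfl, rfl, h1⟩ := h
      exact NHT.rIn hf H.T (t := 3) (j := 1) (p := 0) (by omega) (by omega) (by omega) (by omega) (by omega) (by omega) (by omega) (by omega)
    · obtain ⟨rfl, rfl, h1⟩ := h
      exact NHT.rIn hf H.T (t := 4) (j := 2) (p := 0) (by omega) (by omega) (by omega) (by omega) (by omega) (by omega) (by omega) (by omega)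
    · obtain ⟨rfl, rfl, h1⟩ := h
      exact K0D.nhu_pmmi hf H.U (by omega) (by omega) (by omega) (by omega) (by omega)
    · obtain ⟨rfl, rfl, h1⟩ := h
      exact K0D.nhu_pmmi hf H.U (by omega) (by omega) (by omega) (by omega) (by omega)
    · obtain ⟨rfl, rfl, h1⟩ := h
      exact NHU.pmi hf H.U (j := 1) (by omega) (by omega) (by omega) (by omega) (by omega) (by omega)
    · obtain ⟨rfl, rfl, h1⟩ := h
      exact NHU.pmi hf H.U (j := 1) (by omega) (by omega) (by omega) (by omega) (by omega) (by omega)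
    · obtain ⟨rfl, rfl, h1⟩ := h
      exact NHT.rIn hf H.T (t := 4) (j := 2) (p := 1) (by omega) (by omega) (by omega) (by omega) (by omega) (by omega) (by omega) (by omega)
    · obtain ⟨rfl, rfl, h1⟩ := h
      exact NHU.p0i hf H.U (j := 2) (by omega) (by omega) (by omega) (by omega) (by omega) (by omega)
    · obtain ⟨rfl, rfl, h1⟩ := h
      exact NHT.p0i hf H.T (j := 2) (by omega) (by omega) (by omega) (by omega) (by omega) (by omega)
    · obtain ⟨rfl, rfl, h1⟩ := h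
      exact NHU.p0i hf H.U (j := 2) (by omega) (by omega) (by omega) (by omega) (by omega) (by omega)
    · obtain ⟨rfl, rfl, h1⟩ := h
      exact NHT.rIn hf H.T (t := 4) (j := 1) (p := 0) (by omega) (by omega) (by omega) (by omega) (by omega) (by omega) (by omega) (by omega)
    · obtain ⟨rfl, rfl, h1⟩ := h
      exact NHU.pmi hf H.U (j := 0) (by omega) (by omega) (by omega) (by omega) (by omega) (by omega)
    · obtain ⟨rfl, rfl, h1⟩ := h
      exact NHU.pmi hf H.U (j := 0) (by omega) (by omega) (by omega) (by omega) (by omega) (by omega)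
    · obtain ⟨rfl, rfl, h1⟩ := h
      exact NHT.rIn hf H.T (t := 4) (j := 1) (p := 1) (by omega) (by omega) (by omega) (by omega) (by omega) (by omega) (by omega) (by omega)
    · obtain ⟨rfl, rfl, h1⟩ := h
      exact NHU.p0i hf H.U (j := 1) (by omega) (by omega) (by omega) (by omega) (by omega) (by omega)
    · obtain ⟨rfl, rfl, h1⟩ := h
      exact NHT.p0i hf H.T (j := 1) (by omega) (by omega) (by omega) (by omega) (by omega) (by omega)
    · obtain ⟨rfl, rfl, h1⟩ := h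
      exact NHU.p0i hf H.U (j := 1) (by omega) (by omega) (by omega) (by omega) (by omega) (by omega)
    · obtain ⟨rfl, rfl, h1⟩ := h
      exact NHT.rIn hf H.T (t := 4) (j := 0) (p := 1) (by omega) (by omega) (by omega) (by omega) (by omega) (by omega) (by omega) (by omega)
    · obtain ⟨rfl, rfl, h1⟩ := h
      exact NHU.p0i hf H.U (j := 0) (by omega) (by omega) (by omega) (by omega) (by omega) (by omega)
    · obtain ⟨rfl, rfl, h1⟩ := h
      exact NHT.p0i hf H.T (j := 0) (by omega) (by omega) (by omega) (by omega) (by omega) (by omega)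
    · obtain ⟨rfl, rfl, h1⟩ := h
      exact NHU.p0i hf H.U (j := 0) (by omega) (by omega) (by omega) (by omega) (by omega) (by omega)
    · obtain ⟨rfl, rfl, h1⟩ := h
      exact H.P1 hf (by omega) (by omega) (by omega) (by omega) (by omega) (by omega)
    · obtain ⟨rfl, rfl, h1⟩ := h
      exact H.P3 hf (by omega) (by omega) (by omega) (by omega) (by omega) (by omega)
    · obtain ⟨rfl, rfl, h1⟩ := h
      exact H.P5 hf (by omega) (by omega) (by omega) (by omega) (by omega) (by omega)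
    · obtain ⟨rfl, rfl, rfl, h1⟩ := h
      exact H.Y1 hf (by omega) (by omega) (by omega) (by omega) (by omega) (by omega)
    · obtain ⟨rfl, rfl, rfl, h1⟩ := h
      exact nbf nb (by omega) (by omega) (by omega) (by omega) (by omega) (by omega)
    · obtain ⟨rfl, h1⟩ := h
      exact H.lw _ _ _ _ (by omega) (by omega) (by omega) (by omega) (by omega) (by omega)
    · obtain ⟨rfl, rfl, rfl, rfl⟩ := h
      exact fun h2 => g1 (mv h2 (by omega) (by omega) (by omega) (by omega))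

end Pool.Agent.SNT.L4T
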