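import Pool.Agent.SNT.LL0

set_option autoImplicit false
set_option linter.unusedVariables false
set_option synthInstance.maxSize 100000
set_option synthInstance.maxHeartbeats 4000000

/-! The column `2 n + 3` of `6 k + 4` in the row `c`: no beam (windows). -/

namespace Pool.Agent.SNT.LRI

open Pool.Agent.SNT Pool.Agent.SNT.Loc Pool.Agent.SNT.LW Pool.Agent.SNT.NHZ

variable {f : ℕ → ℕ → ℕ → ℕ → Prop}

theorem nb_3_chk : check 5 7 14 14 1 1 0 0 2
    (fun j n p q => decide ((j = 3 ∧ n = 3 ∧ ((p = 6 ∧ ((q = 3) ∨ (q = 5))) ∨ (((p = 8) ∨ (p = 10)) ∧ ((q = 3) ∨ (q = 5) ∨ (q = 7)))))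
      ∨ (j = 5 ∧ n = 5 ∧ ((p = 6 ∧ q = 5) ∨ (((p = 8) ∨ (p = 10) ∨ (p = 12)) ∧ ((q = 5) ∨ (q = 7)))))
      ∨ (j = 1 ∧ n = 1 ∧ ((p = 6 ∧ ((q = 3) ∨ (q = 5))) ∨ (p = 8 ∧ ((q = 1) ∨ (q = 3) ∨ (q = 5))) ∨ (p = 10 ∧ q = 3)))
      ∨ (j = 3 ∧ n = 4 ∧ ((p = 5 ∧ q = 5) ∨ (p = 7 ∧ q = 7)))
      ∨ (j = 1 ∧ n = 2 ∧ (p = 5 ∧ q = 5))
      ∨ (j = 1 ∧ n = 3 ∧ (p = 11 ∧ q = 6))
      ∨ (j = 1 ∧ n = 3 ∧ (p = 3 ∧ q = 2))
      ∨ (j = 1 ∧ n = 5 ∧ (p = 9 ∧ q = 2))))
    (fun j n p q => decide (False))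
    271
    0xcea83078700078e1204140006c2ca04150006cada0cca0307668007670a03ed00069bca03ee0006a3520cca0307668007670a03ed8003ed8403fb8004158e04158407670e0cca8307670007670404b88e07750304b88004b884072c8e06ca83072c80072c8407878e0ce40307878007878407258e06ca8307258007258406aa03045e00045e0406b1030464800464840cd88307750007750404778e06ca8304778004778406b10307128007128406b103071300071304047f0e06cb03047f00047f040cd78307748007748404da0e07810304da0004da04070b0e06a883070b00070b0407120e0cd783071200071204076d0e0cd083076d00076d04045c8e06a883045c80045c84070a8e06a883070a80070a8407740e0cd783077400077404076c8e0ccf83076c80076c8404c58e07110304cc0004c58004c58e04c58404be8e076c0304be8004be8404638e071103046a0004638004638e04638404768e06c28304768004768407738e071103077a0007738007738e07738407100e0cd58307100007100407720e0cd5830772000772040a3d8e0ce4830a3d800a3d840a1b0e0cc8830a1b000a1b040ccf83076c00076c04070a0e0ccf83070a00070a040454000f87000f79000f86000f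78000f85000f77000f7600096600095800094a0009650009570009490009560009480004aa8004038007024203e380032a00033700032900031b000336000328000fa78e0fa68e0f99800f998e0f98800f988e0f8b800f8b8e0f8a800f8a8e0f7c800f7c8e09c68009b78009798009798e09788009788e09778009778e096b80096b8e096a80096a8e09698009698e095c80095c8e095b80095b8e04d80004d80e04240004240e03ea0003ea0e03978003578003578e034a80034a8e03498003498e03488003488e033c8e033b8e0fa78f0fa68f0f998f0f988f0f8b8f0f8a8f0f7c8f0a3c070a2f070a23070a22070a21070a20070a15070a130709c68f09b78f09798f09788f09778f096b8f096a8f09698f095c8f095b8f04e00704d80f04d30704c70704b90704b70704240f041d07041c07040d0704030704010703f50703f30703f20703ea0f03e60703978f03578f034a8f03498f03488f033c8f033b8f = true := by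
  decide +kernel

theorem nb_3 (hf : Rule f) {k c n : ℕ} (H : LI f k c n)
    (g1 : ∀ {M R x y : ℕ}, M = 6 * k + 4 → R + 2 = c → x + 3 = 2 * n → y + 4 = 2 * n → f M R x y)
    (g2 : ∀ {M R x y : ℕ}, M = 6 * k + 4 → R = c → x = 2 * n + 3 → y + 4 = 2 * n → f M R x y) : False := by
  have hk := H.T.hk
  have hc := H.T.hc
  have h4 := H.T.h4
  have hb := H.T.hb
  have hN := H.T.hN2
  obtain ⟨a0, ha0⟩ : ∃ z, z = 6 * k + 3 := ⟨_, rfl⟩
  obtain ⟨b0, hb0⟩ : ∃ z, z + 5 = c := ⟨c - 5, by omega⟩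
  obtain ⟨x0, hx0⟩ : ∃ z, z + 6 = 2 * n := ⟨2 * n - 6, by omega⟩
  obtain ⟨y0, hy0⟩ : ∃ z, z + 6 = 2 * n := ⟨2 * n - 6, by omega⟩
  refine check_sound hf (a0 := a0) (b0 := b0) (x0 := x0) (y0 := y0) nb_3_chk
    ⟨fun _ => by omega, fun h => absurd h (by decide), fun h => absurd h (by decide), by omega, by omega,
      by omega, by omega⟩ ?_ ?_
  · intro j m p q hr h
    obtain ⟨-, -, -, -, hp1, hp2, hq1, hq2⟩ := hr
    replace h := of_decide_eq_true h
    rcases h with h | h | h | h | h | h | h | h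
    · obtain ⟨rfl, rfl, h⟩ := h
      exact (WrapC.v2 H.a6 (by omega) (by omega) (by omega) (by omega) (by omega) (by omega) (by omega)).mpr (by omega)
    · obtain ⟨rfl, rfl, h⟩ := h
      exact (NW.w2v H.a8 (by omega) (by omega) (by omega) (by omega) (by omega) (by omega) (by omega)).mpr (by omega)
    · obtain ⟨rfl, rfl, h⟩ := h
      exact (WrapC.v2 H.b4 (by omega) (by omega) (by omega) (by omega) (by omega) (by omega) (by omega)).mpr (by omega)
    · obtain ⟨rfl, rfl, h⟩ := h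
      exact (WrapC.v3 H.a6 (by omega) (by omega) (by omega) (by omega) (by omega) (by omega) (by omega) (by omega)).mpr (by omega)
    · obtain ⟨rfl, rfl, h⟩ := h
      exact (WrapC.v3 H.b4 (by omega) (by omega) (by omega) (by omega) (by omega) (by omega) (by omega) (by omega)).mpr (by omega)
    · obtain ⟨rfl, rfl, h⟩ := h
      exact (WrapC.v0 H.a4 (by omega) (by omega) (by omega) (by omega) (by omega) (by omega) (by omega)).mpr (by omega)
    · obtain ⟨rfl, rfl, h⟩ := h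
      exact g1 (by omega) (by omega) (by omega) (by omega)
    · obtain ⟨rfl, rfl, h⟩ := h
      exact g2 (by omega) (by omega) (by omega) (by omega)
  · intro j m p q hr h
    obtain ⟨-, -, -, -, hp1, hp2, hq1, hq2⟩ := hr
    replace h := of_decide_eq_true h
    exact h.elim

theorem nb_1_chk : check 7 7 14 14 1 1 0 0 2
    (fun j n p q => decide ((j = 5 ∧ n = 3 ∧ ((p = 8 ∧ ((q = 3) ∨ (q = 5) ∨ (q = 7))) ∨ (p = 10 ∧ ((q = 3) ∨ (q = 5) ∨ (q = 7) ∨ (q = 9)))))
      ∨ (j = 7 ∧ n = 5 ∧ (((p = 10) ∨ (p = 12)) ∧ ((q = 5) ∨ (q = 7) ∨ (q = 9))))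
      ∨ (j = 3 ∧ n = 1 ∧ ((p = 8 ∧ ((q = 1) ∨ (q = 3) ∨ (q = 5) ∨ (q = 7))) ∨ (p = 10 ∧ q = 1)))
      ∨ (j = 3 ∧ n = 3 ∧ (p = 11 ∧ ((q = 4) ∨ (q = 6))))
      ∨ (j = 3 ∧ n = 2 ∧ (p = 7 ∧ q = 7))
      ∨ (j = 5 ∧ n = 4 ∧ (p = 7 ∧ q = 7))
      ∨ (j = 1 ∧ n = 4 ∧ (p = 7 ∧ q = 7))
      ∨ (j = 1 ∧ n = 3 ∧ (p = 8 ∧ q = 7))
      ∨ (j = 1 ∧ n = 2 ∧ (p = 6 ∧ q = 6))
      ∨ (j = 3 ∧ n = 3 ∧ (p = 5 ∧ q = 4))
      ∨ (j = 3 ∧ n = 5 ∧ (p = 9 ∧ q = 2))))
    (fun j n p q => decide (False))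
    210
    0xc260309d3000cea720cec030a36000973000ceb520c21420972000c27520cec030a36000972800ceb520c20c20971800971840cd08e1234030cd0800cd08409b98e0c060309b98009b9840c6f0e0c0d030c6f000c6f0409ba0e0c060309ba0009ba040cd10e1234830cd1000cd1040c678e0c06030c67800c67840a35000a35040c260309da0009da040cca0e0cc3030cca000cca0409ac0e0bf80309ac0009ac040c680e0c06030c68000c68040c810e0c26030c81000c81040cc28e1226030cc2800cc28409ab8e0bf80309ab8009ab840c610e0bff030c61000c61040c598e0bf8030c59800c59840c5a0e0bf8030c5a000c5a040cc30e1226830cc3000cc304124f830cec000cec0409ce030c7c800c83000c830e0c830409ce030cde800ce5000ce50e0ce50409ce0309ce8009d50009d50e09d50409ce030a30800a37000a370e0a370409bf0014e30014d50014e20014d4000ec2000eb4000ea6000ec1000eb3000ea5000a0680095f800951800c6d42094e8008780008930008850008770004090015048015038e15028e14f68014f58e14f48e0f22800ed6800ed5800ed58e0ed4800ed48e0ed3800ed38e0ec7800ec78e0ec68e0ec58e0a34000a340e09800009800e097f00097f0e09550009550e09028008b28e08a78008a68008a68e08a58008a58e08a48e046a80040f80040f8e039f0015048f15038f15028f14f68f14f58f14f48f0f9a070f7f070f71070f228f0ed68f0ed58f0ed48f0ed38f0ec78f0ec68f0ec58f0a3e070a3d070a3c070a340f0a150709800f097f0f097907097807096c07096b07095f07095d0709550f09510709430709028f08b28f08a78f08a68f08a58f08a48f046a8f040f8f039f0f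 = true := by
  decide +kernel

theorem nb_1 (hf : Rule f) {k c n : ℕ} (H : LI f k c n)
    (g1 : ∀ {M R x y : ℕ}, M = 6 * k + 4 → R + 2 = c → x + 1 = 2 * n → y + 2 = 2 * n → f M R x y)
    (g2 : ∀ {M R x y : ℕ}, M = 6 * k + 4 → R = c → x = 2 * n + 3 → y + 4 = 2 * n → f M R x y) : False := by
  have hk := H.T.hk
  have hc := H.T.hc
  have h4 := H.T.h4
  have hb := H.T.hb
  have hN := H.T.hN2
  obtain ⟨a0, ha0⟩ : ∃ z, z = 6 * k + 1 := ⟨_, rfl⟩
  obtain ⟨b0, hb0⟩ : ∃ z, z + 5 = c := ⟨c - 5, by omega⟩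
  obtain ⟨x0, hx0⟩ : ∃ z, z + 6 = 2 * n := ⟨2 * n - 6, by omega⟩
  obtain ⟨y0, hy0⟩ : ∃ z, z + 6 = 2 * n := ⟨2 * n - 6, by omega⟩
  refine check_sound hf (a0 := a0) (b0 := b0) (x0 := x0) (y0 := y0) nb_1_chk
    ⟨fun _ => by omega, fun h => absurd h (by decide), fun h => absurd h (by decide), by omega, by omega,
      by omega, by omega⟩ ?_ ?_
  · intro j m p q hr h
    obtain ⟨-, -, -, -, hp1, hp2, hq1, hq2⟩ := hr
    replace h := of_decide_eq_true h
    rcases h with h | h | h | h | h | h | h | h | h | h | h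
    · obtain ⟨rfl, rfl, h⟩ := h
      exact (WrapC.v2 H.a6 (by omega) (by omega) (by omega) (by omega) (by omega) (by omega) (by omega)).mpr (by omega)
    · obtain ⟨rfl, rfl, h⟩ := h
      exact (NW.w2v H.a8 (by omega) (by omega) (by omega) (by omega) (by omega) (by omega) (by omega)).mpr (by omega)
    · obtain ⟨rfl, rfl, h⟩ := h
      exact (WrapC.v2 H.b4 (by omega) (by omega) (by omega) (by omega) (by omega) (by omega) (by omega)).mpr (by omega)
    · obtain ⟨rfl, rfl, h⟩ := h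
      exact (WrapC.v0 H.a4 (by omega) (by omega) (by omega) (by omega) (by omega) (by omega) (by omega)).mpr (by omega)
    · obtain ⟨rfl, rfl, h⟩ := h
      exact (WrapC.v3 H.b4 (by omega) (by omega) (by omega) (by omega) (by omega) (by omega) (by omega) (by omega)).mpr (by omega)
    · obtain ⟨rfl, rfl, h⟩ := h
      exact (WrapC.v3 H.a6 (by omega) (by omega) (by omega) (by omega) (by omega) (by omega) (by omega) (by omega)).mpr (by omega)
    · obtain ⟨rfl, rfl, h⟩ := h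
      exact (WrapC.v3 H.a2 (by omega) (by omega) (by omega) (by omega) (by omega) (by omega) (by omega) (by omega)).mpr (by omega)
    · obtain ⟨rfl, rfl, h⟩ := h
      exact (WrapC.v2 H.a2 (by omega) (by omega) (by omega) (by omega) (by omega) (by omega) (by omega)).mpr (by omega)
    · obtain ⟨rfl, rfl, h⟩ := h
      exact (WrapC.v1 H.a2 (by omega) (by omega) (by omega) (by omega) (by omega) (by omega) (by omega) (by omega)).mpr (by omega)
    · obtain ⟨rfl, rfl, h⟩ := h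
      exact g1 (by omega) (by omega) (by omega) (by omega)
    · obtain ⟨rfl, rfl, h⟩ := h
      exact g2 (by omega) (by omega) (by omega) (by omega)
  · intro j m p q hr h
    obtain ⟨-, -, -, -, hp1, hp2, hq1, hq2⟩ := hr
    replace h := of_decide_eq_true h
    exact h.elim

theorem nb2_3_chk : check 7 7 13 13 1 1 1 1 2
    (fun j n p q => decide ((j = 7 ∧ n = 5 ∧ ((p = 5 ∧ q = 4) ∨ (((p = 7) ∨ (p = 9)) ∧ ((q = 4) ∨ (q = 6))) ∨ (p = 11 ∧ q = 6)))
      ∨ (j = 5 ∧ n = 3 ∧ ((p = 5 ∧ ((q = 2) ∨ (q = 4))) ∨ (((p = 7) ∨ (p = 9)) ∧ ((q = 4) ∨ (q = 6)))))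
      ∨ (j = 3 ∧ n = 1 ∧ ((((p = 5) ∨ (p = 7)) ∧ ((q = 2) ∨ (q = 4))) ∨ (p = 9 ∧ q = 2)))
      ∨ (j = 3 ∧ n = 2 ∧ (p = 4 ∧ q = 4))
      ∨ (j = 5 ∧ n = 4 ∧ (p = 4 ∧ q = 4))
      ∨ (j = 3 ∧ n = 3 ∧ (p = 10 ∧ q = 5))
      ∨ (j = 1 ∧ n = 4 ∧ (p = 4 ∧ q = 4))
      ∨ (j = 1 ∧ n = 3 ∧ (p = 5 ∧ q = 4))
      ∨ (j = 1 ∧ n = 2 ∧ (p = 3 ∧ q = 3))
      ∨ (j = 3 ∧ n = 3 ∧ (p = 2 ∧ q = 1))
      ∨ (j = 3 ∧ n = 5 ∧ (p = 8 ∧ q = 3))))
    (fun j n p q => decide (False))
    200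
    0xb148308cb800b21d20822800821800a78d20a785a0b148308cb800b21d20822000822040b098e0faf830b09800b09840b090e0b08830b09000b09040aae0e0a5a030aae000aae040ac00e0fba830ac0000ac004085d8e0a5883085d80085d840aad8e0a58830aad800aad840b020e0fa8030b02000b02040b148e0fba830b14800b14840aad0e0a58830aad000aad0408b20e0b010308b20008b2040b018e0fa7030b01800b01840ab38e0863830ab9800ab3800ab38e0ab3840b080e0863830b0e000b08000b080e0b080408640e086383086a0008640008640e0864040fa0830aa6000aa6040fa0830afa800afa840d638e0fac830d63800d638408b88e08638308be8008b88008b88e08b8840ab28e0fad030ab2800ab2840b070e0fad030b07000b070408558011ff8011fe8011f18011fd8011f08011ef800cb6800ca9800ca8800ca7800c9a800811800aa54207f380075480076080075380075f80075280036980121d8e12108012108e120f8e12038012038e12028012028e11f58011f58e0cfb800cc8800cc88e0cc7800cc78e0cbb800cba800cba8e0cad800cad8e0cac800cac8e08ca80082f80082f8e07f98007f98e07b380077e80077e8e07728007728e07718007718e07658e07648e03bd80036f80036f8e030d80121d8f12108f120f8f12038f12028f11f58f0d64070d59070d58070d57070d56070d4a070cfb8f0cc88f0cc78f0cbb8f0cba8f0cad8f0cac8f08d20708ca8f08c50708b90708ab07082f8f082907082807080f0708040708020708010707f98f07b38f077e8f07728f07718f07658f07648f03bd8f036f8f030d8f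 = true := by
  decide +kernel

theorem nb2_3 (hf : Rule f) {k c n : ℕ} (H : LI f k c n)
    (g1 : ∀ {M R x y : ℕ}, M = 6 * k + 4 → R + 2 = c → x + 3 = 2 * n → y + 4 = 2 * n → f M R x y)
    (g2 : ∀ {M R x y : ℕ}, M = 6 * k + 4 → R = c → x = 2 * n + 3 → y + 2 = 2 * n → f M R x y) : False := by
  have hk := H.T.hk
  have hc := H.T.hc
  have h4 := H.T.h4
  have hb := H.T.hb
  have hN := H.T.hN2
  obtain ⟨a0, ha0⟩ : ∃ z, z = 6 * k + 1 := ⟨_, rfl⟩
  obtain ⟨b0, hb0⟩ : ∃ z, z + 5 = c := ⟨c - 5, by omega⟩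
  obtain ⟨x0, hx0⟩ : ∃ z, z + 5 = 2 * n := ⟨2 * n - 5, by omega⟩
  obtain ⟨y0, hy0⟩ : ∃ z, z + 5 = 2 * n := ⟨2 * n - 5, by omega⟩
  refine check_sound hf (a0 := a0) (b0 := b0) (x0 := x0) (y0 := y0) nb2_3_chk
    ⟨fun _ => by omega, fun h => absurd h (by decide), fun h => absurd h (by decide), by omega, by omega,
      by omega, by omega⟩ ?_ ?_
  · intro j m p q hr h
    obtain ⟨-, -, -, -, hp1, hp2, hq1, hq2⟩ := hr
    replace h := of_decide_eq_true h
    rcases h with h | h | h | h | h | h | h | h | h | h | h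
    · obtain ⟨rfl, rfl, h⟩ := h
      exact (NW.w2v H.a8 (by omega) (by omega) (by omega) (by omega) (by omega) (by omega) (by omega)).mpr (by omega)
    · obtain ⟨rfl, rfl, h⟩ := h
      exact (WrapC.v2 H.a6 (by omega) (by omega) (by omega) (by omega) (by omega) (by omega) (by omega)).mpr (by omega)
    · obtain ⟨rfl, rfl, h⟩ := h
      exact (WrapC.v2 H.b4 (by omega) (by omega) (by omega) (by omega) (by omega) (by omega) (by omega)).mpr (by omega)
    · obtain ⟨rfl, rfl, h⟩ := h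
      exact (WrapC.v3 H.b4 (by omega) (by omega) (by omega) (by omega) (by omega) (by omega) (by omega) (by omega)).mpr (by omega)
    · obtain ⟨rfl, rfl, h⟩ := h
      exact (WrapC.v3 H.a6 (by omega) (by omega) (by omega) (by omega) (by omega) (by omega) (by omega) (by omega)).mpr (by omega)
    · obtain ⟨rfl, rfl, h⟩ := h
      exact (WrapC.v0 H.a4 (by omega) (by omega) (by omega) (by omega) (by omega) (by omega) (by omega)).mpr (by omega)
    · obtain ⟨rfl, rfl, h⟩ := h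
      exact (WrapC.v3 H.a2 (by omega) (by omega) (by omega) (by omega) (by omega) (by omega) (by omega) (by omega)).mpr (by omega)
    · obtain ⟨rfl, rfl, h⟩ := h
      exact (WrapC.v2 H.a2 (by omega) (by omega) (by omega) (by omega) (by omega) (by omega) (by omega)).mpr (by omega)
    · obtain ⟨rfl, rfl, h⟩ := h
      exact (WrapC.v1 H.a2 (by omega) (by omega) (by omega) (by omega) (by omega) (by omega) (by omega) (by omega)).mpr (by omega)
    · obtain ⟨rfl, rfl, h⟩ := h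
      exact g1 (by omega) (by omega) (by omega) (by omega)
    · obtain ⟨rfl, rfl, h⟩ := h
      exact g2 (by omega) (by omega) (by omega) (by omega)
  · intro j m p q hr h
    obtain ⟨-, -, -, -, hp1, hp2, hq1, hq2⟩ := hr
    replace h := of_decide_eq_true h
    exact h.elim

theorem nb2_1_chk : check 7 7 12 12 1 1 0 0 2
    (fun j n p q => decide ((j = 5 ∧ n = 3 ∧ ((p = 6 ∧ ((q = 3) ∨ (q = 5))) ∨ (p = 8 ∧ ((q = 3) ∨ (q = 5) ∨ (q = 7)))))
      ∨ (j = 7 ∧ n = 5 ∧ (((p = 8) ∨ (p = 10)) ∧ ((q = 5) ∨ (q = 7))))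
      ∨ (j = 3 ∧ n = 1 ∧ (p = 6 ∧ ((q = 1) ∨ (q = 3) ∨ (q = 5))))
      ∨ (j = 3 ∧ n = 3 ∧ (p = 9 ∧ ((q = 2) ∨ (q = 4))))
      ∨ (j = 3 ∧ n = 2 ∧ (p = 5 ∧ q = 5))
      ∨ (j = 5 ∧ n = 4 ∧ (p = 5 ∧ q = 5))
      ∨ (j = 1 ∧ n = 4 ∧ (p = 5 ∧ q = 5))
      ∨ (j = 1 ∧ n = 3 ∧ (p = 6 ∧ q = 5))
      ∨ (j = 1 ∧ n = 2 ∧ (p = 4 ∧ q = 4))
      ∨ (j = 3 ∧ n = 3 ∧ (p = 3 ∧ q = 2))
      ∨ (j = 3 ∧ n = 5 ∧ (p = 7 ∧ q = 2))))
    (fun j n p q => decide (False))
    137
    0xd6683097000097001076b8006e78009644a08dfc206db8008d44a0d6683097000097001076b8006e18009644a08d9c206d58006d584072f03097500096f80096f8e096f8407350e072f03072f8007350007350e07350408d403091b80091b8409740e0d6a8309740009740408ce03071d80071d8408ce03071e00071e0408d403091c00091c040d5a8309640009640408ce0309158009158408ce03091600091604077d0e072f03077780077d00077d0e077d040722000f5f000f53000f5e000f52000ade000ad2000ac6000ad100075f8006dc8006d080091a4206cd8006510006450006390002f1000f6f8e0f6e8e0f638e0f62800f628e0b18800ae38e0ae2800ae28e0ae1800ae18e0ad6800ad68e0ad580077b0e06f80e06f70e06d30006d30e06988006568006568e06558e06548e03388002f68002f68e02a2000f6f8f0f6e8f0f638f0f628f0b72070b68070b5c070b188f0ae38f0ae28f0ae18f0ad68f0ad58f077b0f077807076c0706f80f06f70f06e70706dc0706db0706da0706d30f06d00706988f06568f06558f06548f03388f02f68f02a20f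 = true := by
  decide +kernel

theorem nb2_1 (hf : Rule f) {k c n : ℕ} (H : LI f k c n)
    (g1 : ∀ {M R x y : ℕ}, M = 6 * k + 4 → R + 2 = c → x + 1 = 2 * n → y + 2 = 2 * n → f M R x y)
    (g2 : ∀ {M R x y : ℕ}, M = 6 * k + 4 → R = c → x = 2 * n + 3 → y + 2 = 2 * n → f M R x y) : False := by
  have hk := H.T.hk
  have hc := H.T.hc
  have h4 := H.T.h4
  have hb := H.T.hb
  have hN := H.T.hN2
  obtain ⟨a0, ha0⟩ : ∃ z, z = 6 * k + 1 := ⟨_, rfl⟩
  obtain ⟨b0, hb0⟩ : ∃ z, z + 5 = c := ⟨c - 5, by omega⟩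
  obtain ⟨x0, hx0⟩ : ∃ z, z + 4 = 2 * n := ⟨2 * n - 4, by omega⟩
  obtain ⟨y0, hy0⟩ : ∃ z, z + 4 = 2 * n := ⟨2 * n - 4, by omega⟩
  refine check_sound hf (a0 := a0) (b0 := b0) (x0 := x0) (y0 := y0) nb2_1_chk
    ⟨fun _ => by omega, fun h => absurd h (by decide), fun h => absurd h (by decide), by omega, by omega,
      by omega, by omega⟩ ?_ ?_
  · intro j m p q hr h
    obtain ⟨-, -, -, -, hp1, hp2, hq1, hq2⟩ := hr
    replace h := of_decide_eq_true h
    rcases h with h | h | h | h | h | h | h | h | h | h | h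
    · obtain ⟨rfl, rfl, h⟩ := h
      exact (WrapC.v2 H.a6 (by omega) (by omega) (by omega) (by omega) (by omega) (by omega) (by omega)).mpr (by omega)
    · obtain ⟨rfl, rfl, h⟩ := h
      exact (NW.w2v H.a8 (by omega) (by omega) (by omega) (by omega) (by omega) (by omega) (by omega)).mpr (by omega)
    · obtain ⟨rfl, rfl, h⟩ := h
      exact (WrapC.v2 H.b4 (by omega) (by omega) (by omega) (by omega) (by omega) (by omega) (by omega)).mpr (by omega)
    · obtain ⟨rfl, rfl, h⟩ := h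
      exact (WrapC.v0 H.a4 (by omega) (by omega) (by omega) (by omega) (by omega) (by omega) (by omega)).mpr (by omega)
    · obtain ⟨rfl, rfl, h⟩ := h
      exact (WrapC.v3 H.b4 (by omega) (by omega) (by omega) (by omega) (by omega) (by omega) (by omega) (by omega)).mpr (by omega)
    · obtain ⟨rfl, rfl, h⟩ := h
      exact (WrapC.v3 H.a6 (by omega) (by omega) (by omega) (by omega) (by omega) (by omega) (by omega) (by omega)).mpr (by omega)
    · obtain ⟨rfl, rfl, h⟩ := h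
      exact (WrapC.v3 H.a2 (by omega) (by omega) (by omega) (by omega) (by omega) (by omega) (by omega) (by omega)).mpr (by omega)
    · obtain ⟨rfl, rfl, h⟩ := h
      exact (WrapC.v2 H.a2 (by omega) (by omega) (by omega) (by omega) (by omega) (by omega) (by omega)).mpr (by omega)
    · obtain ⟨rfl, rfl, h⟩ := h
      exact (WrapC.v1 H.a2 (by omega) (by omega) (by omega) (by omega) (by omega) (by omega) (by omega) (by omega)).mpr (by omega)
    · obtain ⟨rfl, rfl, h⟩ := h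
      exact g1 (by omega) (by omega) (by omega) (by omega)
    · obtain ⟨rfl, rfl, h⟩ := h
      exact g2 (by omega) (by omega) (by omega) (by omega)
  · intro j m p q hr h
    obtain ⟨-, -, -, -, hp1, hp2, hq1, hq2⟩ := hr
    replace h := of_decide_eq_true h
    exact h.elim

theorem nbw6_chk : check 4 7 8 7 1 1 0 1 0
    (fun j n p q => decide ((j = 3 ∧ n = 3 ∧ ((p = 3 ∧ ((q = 3) ∨ (q = 5))) ∨ (p = 5 ∧ q = 5) ∨ (p = 6 ∧ q = 4)))
      ∨ (j = 1 ∧ n = 1 ∧ (p = 1 ∧ ((q = 1) ∨ (q = 3))))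
      ∨ (j = 1 ∧ n = 2 ∧ (p = 3 ∧ q = 2))
      ∨ (j = 3 ∧ n = 5 ∧ (p = 1 ∧ q = 3))))
    (fun j n p q => decide ((j = 4 ∧ n = 4 ∧ ((p = 1 ∧ 4 ≤ q ∧ q ≤ 5) ∨ (p = 2 ∧ q = 5)))
      ∨ (j = 4 ∧ n = 2 ∧ ((p = 1 ∧ 3 ≤ q ∧ q ≤ 4) ∨ (p = 2 ∧ q = 4)))
      ∨ (j = 3 ∧ n = 4 ∧ (1 ≤ p ∧ p ≤ 2 ∧ q = 5))
      ∨ (j = 3 ∧ n = 2 ∧ (p = 1 ∧ 3 ≤ q ∧ q ≤ 4))
      ∨ (j = 4 ∧ n = 5 ∧ (1 ≤ p ∧ p ≤ 2 ∧ q = 5))
      ∨ (j = 3 ∧ n = 5 ∧ (p = 1 ∧ q = 5))))
    46
    0x2a90302c50003a5ea036d0303890003890402a90302c18002c18402700002903a02938002b3ba02dd0002b70002b40002ad0002ac0001078000e50000e40003a58703a207038987038607038587035107034d87034d0702e18702de0702dd0f02c58702c20702b70f02b40f02af8702ad0f02ac0f02a88702898702890702708701078f00e50f00e40f = true := by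
  decide +kernel

theorem nbw6 (hf : Rule f) {k c n : ℕ} (H : LI f k c n)
    (g1 : ∀ {M R x y : ℕ}, M = 6 * k + 4 → R = c → x = 2 * n + 3 → y + 2 * k = 2 * n + 6 → f M R x y)
    (g2 : ∀ {M R x y : ℕ}, M = 6 * k + 4 → R = c → x = 2 * n + 3 → y + 2 * k = 2 * n + 8 → ¬ f M R x y) : False := by
  have hk := H.T.hk
  have hc := H.T.hc
  have h4 := H.T.h4
  have hb := H.T.hb
  have hN := H.T.hN2
  obtain ⟨a0, ha0⟩ : ∃ z, z = 6 * k + 1 := ⟨_, rfl⟩
  obtain ⟨b0, hb0⟩ : ∃ z, z + 5 = c := ⟨c - 5, by omega⟩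
  obtain ⟨x0, hx0⟩ : ∃ z, z = 2 * n + 2 := ⟨_, rfl⟩
  obtain ⟨y0, hy0⟩ : ∃ z, z + 2 * k = 2 * n + 3 := ⟨2 * n + 3 - 2 * k, by omega⟩
  refine check_sound hf (a0 := a0) (b0 := b0) (x0 := x0) (y0 := y0) nbw6_chk
    ⟨fun h => absurd h (by decide), fun h => absurd h (by decide), fun h => absurd h (by decide), by omega, by omega,
      by omega, by omega⟩ ?_ ?_
  · intro j m p q hr h
    obtain ⟨-, -, -, -, hp1, hp2, hq1, hq2⟩ := hr
    replace h := of_decide_eq_true h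
    rcases h with h | h | h | h
    · obtain ⟨rfl, rfl, h⟩ := h
      exact (WrapC.v0 H.a4 (by omega) (by omega) (by omega) (by omega) (by omega) (by omega) (by omega)).mpr (by omega)
    · obtain ⟨rfl, rfl, h⟩ := h
      exact (WrapC.v0 H.a2 (by omega) (by omega) (by omega) (by omega) (by omega) (by omega) (by omega)).mpr (by omega)
    · obtain ⟨rfl, rfl, h⟩ := h
      exact (WrapC.v1 H.a2 (by omega) (by omega) (by omega) (by omega) (by omega) (by omega) (by omega) (by omega)).mpr (by omega)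
    · obtain ⟨rfl, rfl, h⟩ := h
      exact g1 (by omega) (by omega) (by omega) (by omega)
  · intro j m p q hr h
    obtain ⟨-, -, -, -, hp1, hp2, hq1, hq2⟩ := hr
    replace h := of_decide_eq_true h
    rcases h with h | h | h | h | h | h
    · obtain ⟨rfl, rfl, h⟩ := h
      exact NW.rm1i hf H.T (p := 1) (j := 2) (by omega) (by omega) (by omega) (by omega) (by omega) (by omega) (by omega)
    · obtain ⟨rfl, rfl, h⟩ := h
      exact NHT.rIn hf H.T (t := 3) (p := 1) (j := 1) (by omega) (by omega) (by omega) (by omega) (by omega) (by omega) (by omega) (by omega)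
    · obtain ⟨rfl, rfl, h⟩ := h
      exact NW.rm1i hf H.T (p := 0) (j := 2) (by omega) (by omega) (by omega) (by omega) (by omega) (by omega) (by omega)
    · obtain ⟨rfl, rfl, h⟩ := h
      exact NHT.rIn hf H.T (t := 3) (p := 0) (j := 1) (by omega) (by omega) (by omega) (by omega) (by omega) (by omega) (by omega) (by omega)
    · obtain ⟨rfl, rfl, h⟩ := h
      exact NHT.p0i hf H.T (j := 2) (by omega) (by omega) (by omega) (by omega) (by omega) (by omega)
    · obtain ⟨rfl, rfl, h⟩ := h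
      exact g2 (by omega) (by omega) (by omega) (by omega)

theorem nbw4_chk : check 11 9 9 10 1 1 0 0 0
    (fun j n p q => decide ((j = 7 ∧ n = 3 ∧ ((p = 1 ∧ ((q = 2) ∨ (q = 4) ∨ (q = 6))) ∨ (((p = 3) ∨ (p = 5)) ∧ ((q = 4) ∨ (q = 6)))))
      ∨ (j = 9 ∧ n = 5 ∧ ((p = 3 ∧ ((q = 2) ∨ (q = 4) ∨ (q = 6) ∨ (q = 8))) ∨ (p = 5 ∧ ((q = 4) ∨ (q = 6) ∨ (q = 8)))))
      ∨ (j = 3 ∧ n = 3 ∧ ((((p = 3) ∨ (p = 5)) ∧ q = 6) ∨ (p = 6 ∧ q = 5)))
      ∨ (j = 11 ∧ n = 7 ∧ ((p = 5 ∧ ((q = 6) ∨ (q = 8))) ∨ (p = 7 ∧ q = 8)))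
      ∨ (j = 5 ∧ n = 1 ∧ (p = 1 ∧ ((q = 2) ∨ (q = 4))))
      ∨ (j = 5 ∧ n = 2 ∧ ((p = 1 ∧ q = 1) ∨ (p = 5 ∧ q = 5)))
      ∨ (j = 7 ∧ n = 4 ∧ ((p = 3 ∧ q = 1) ∨ (p = 5 ∧ q = 3)))
      ∨ (j = 5 ∧ n = 5 ∧ ((p = 5 ∧ q = 6) ∨ (p = 6 ∧ q = 5)))
      ∨ (j = 3 ∧ n = 4 ∧ (p = 3 ∧ q = 3))
      ∨ (j = 1 ∧ n = 2 ∧ (p = 3 ∧ q = 3))
      ∨ (j = 5 ∧ n = 7 ∧ (p = 3 ∧ q = 4))))
    (fun j n p q => decide ((j = 8 ∧ n = 7 ∧ ((2 ≤ p ∧ p ≤ 3 ∧ 6 ≤ q ∧ q ≤ 7) ∨ (p = 4 ∧ q = 8)))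
      ∨ (j = 8 ∧ n = 6 ∧ (p = 2 ∧ q = 6))
      ∨ (j = 7 ∧ n = 6 ∧ (p = 2 ∧ q = 6))
      ∨ (j = 5 ∧ n = 7 ∧ (p = 3 ∧ q = 6))))
    242
    0xa76030909000ad0720dfb030c2e800df5f20dfb030c5b800c5b840acb000acb0408dc0508d6800a76520a70d2090d80090d8408dc0508d6800a76520a70d20aa2800aa2840a70830908800908840d9a830a6b000a6b040d9f830a70000a70040a76030a9e000a9e040d9a830a6b800a6b840a70830a9d800a9d840a7603090e00090e040dff830aa3000aa3040dff830ad0000ad0040f95050f8f80112f521129d20dff000dff040da5830c3d800c3d840da4830c3d000c3d040d96830dc3800dc3840da0830c38800c38840d9f830c38000c38040da0830a71000a71040d9f830a70800a70840d9a830c33000c33040d9b830c33800c33840da0830c39000c39040d9b830c34000c34040d9b830dc9000dc9040da0830dce000dce040d9a830c06000c06040d9a830dc8000dc8040d99830c05000c05040a108308a90008a9040da4830dd2000dd2041129830dcd000dcd041129830dfa000dfa040f99850f9400112f4a1129ca0dfa800dfa84112f030dff800dff840da5830dd2800dd2840da0830dcd800dcd840a1083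0a3e000a3e040d9b830dc8800dc8840da4830c10000c10040da5830a76000a76040d9f830a43000a4304087c800a16d208868008b93a08b300052f0008e5ba0561ba12c90012bf0012be000f3b000f3a000f39000f31000f30000f2f000f2e000be1800bd6800bb6000bb5000bac000bab000ba2000ba1000ba00009350008ea8008e600085e80084880081d00081c0005838005668005620005580001ff8012c90f12bf0f12be0f0f9a070f8f070f3b0f0f3a0f0f390f0f310f0f300f0f2f0f0f2e0f0dfb070df5870df5070df0870df0070dc3070c66070c65070c5b070c2e070c0b070c0a070c01070c00070bff070be18f0bd68f0bb60f0bb50f0bac0f0bab0f0ba20f0ba10f0ba00f093b0709360709350f08ea8f08e60f08e10708e00708d607088707087c07087b07085e8f08488f081d0f081c0f05838f05668f05620f055c0705580f01ff8f = true := by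
  decide +kernel

theorem nbw4 (hf : Rule f) {k c n : ℕ} (H : LI f k c n)
    (g1 : ∀ {M R x y : ℕ}, M = 6 * k + 4 → R = c → x = 2 * n + 3 → y + 2 * k = 2 * n + 4 → f M R x y)
    (g2 : ∀ {M R x y : ℕ}, M = 6 * k + 4 → R = c → x = 2 * n + 3 → y + 2 * k = 2 * n + 6 → ¬ f M R x y) : False := by
  have hk := H.T.hk
  have hc := H.T.hc
  have h4 := H.T.h4
  have hb := H.T.hb
  have hN := H.T.hN2
  obtain ⟨a0, ha0⟩ : ∃ z, z + 1 = 6 * k := ⟨6 * k - 1, by omega⟩
  obtain ⟨b0, hb0⟩ : ∃ z, z + 7 = c := ⟨c - 7, by omega⟩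
  obtain ⟨x0, hx0⟩ : ∃ z, z = 2 * n + 0 := ⟨_, rfl⟩
  obtain ⟨y0, hy0⟩ : ∃ z, z + 2 * k = 2 * n + 0 := ⟨2 * n + 0 - 2 * k, by omega⟩
  refine check_sound hf (a0 := a0) (b0 := b0) (x0 := x0) (y0 := y0) nbw4_chk
    ⟨fun h => absurd h (by decide), fun h => absurd h (by decide), fun h => absurd h (by decide), by omega, by omega,
      by omega, by omega⟩ ?_ ?_
  · intro j m p q hr h
    obtain ⟨-, -, -, -, hp1, hp2, hq1, hq2⟩ := hr
    replace h := of_decide_eq_true h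
    rcases h with h | h | h | h | h | h | h | h | h | h | h
    · obtain ⟨rfl, rfl, h⟩ := h
      exact (WrapC.v4 H.b6 (by omega) (by omega) (by omega) (by omega) (by omega) (by omega) (by omega)).mpr (by omega)
    · obtain ⟨rfl, rfl, h⟩ := h
      exact (NW.w0v H.a8 (by omega) (by omega) (by omega) (by omega) (by omega) (by omega) (by omega)).mpr (by omega)
    · obtain ⟨rfl, rfl, h⟩ := h
      exact (WrapC.v0 H.a2 (by omega) (by omega) (by omega) (by omega) (by omega) (by omega) (by omega)).mpr (by omega)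
    · obtain ⟨rfl, rfl, h⟩ := h
      exact (NW.w0v H.a10 (by omega) (by omega) (by omega) (by omega) (by omega) (by omega) (by omega)).mpr (by omega)
    · obtain ⟨rfl, rfl, h⟩ := h
      exact (WrapC.v4 H.e4 (by omega) (by omega) (by omega) (by omega) (by omega) (by omega) (by omega)).mpr (by omega)
    · obtain ⟨rfl, rfl, h⟩ := h
      exact (WrapC.v1 H.b4 (by omega) (by omega) (by omega) (by omega) (by omega) (by omega) (by omega) (by omega)).mpr (by omega)
    · obtain ⟨rfl, rfl, h⟩ := h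
      exact (WrapC.v1 H.a6 (by omega) (by omega) (by omega) (by omega) (by omega) (by omega) (by omega) (by omega)).mpr (by omega)
    · obtain ⟨rfl, rfl, h⟩ := h
      exact (WrapC.v0 H.a4 (by omega) (by omega) (by omega) (by omega) (by omega) (by omega) (by omega)).mpr (by omega)
    · obtain ⟨rfl, rfl, h⟩ := h
      exact (WrapC.v1 H.a2 (by omega) (by omega) (by omega) (by omega) (by omega) (by omega) (by omega) (by omega)).mpr (by omega)
    · obtain ⟨rfl, rfl, h⟩ := h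
      exact (WrapC.v1 H.a0 (by omega) (by omega) (by omega) (by omega) (by omega) (by omega) (by omega) (by omega)).mpr (by omega)
    · obtain ⟨rfl, rfl, h⟩ := h
      exact g1 (by omega) (by omega) (by omega) (by omega)
  · intro j m p q hr h
    obtain ⟨-, -, -, -, hp1, hp2, hq1, hq2⟩ := hr
    replace h := of_decide_eq_true h
    rcases h with h | h | h | h
    · obtain ⟨rfl, rfl, h⟩ := h
      exact NHT.p0i hf H.T (j := 1) (by omega) (by omega) (by omega) (by omega) (by omega) (by omega)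
    · obtain ⟨rfl, rfl, h⟩ := h
      exact NW.rm1i hf H.T (p := 1) (j := 1) (by omega) (by omega) (by omega) (by omega) (by omega) (by omega) (by omega)
    · obtain ⟨rfl, rfl, h⟩ := h
      exact NW.rm1i hf H.T (p := 0) (j := 1) (by omega) (by omega) (by omega) (by omega) (by omega) (by omega) (by omega)
    · obtain ⟨rfl, rfl, h⟩ := h
      exact g2 (by omega) (by omega) (by omega) (by omega)

/-- one step of a beam of the column `2 n + 3` -/
theorem nb_step (hf : Rule f) {k c n y : ℕ} (H : LI f k c n) (hy : y % 2 = 0) (h1 : 2 * n + 8 ≤ y + 2 * k)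
    (h2 : y + 2 ≤ 2 * n) (h : f (6 * k + 4) c (2 * n + 3) y) : f (6 * k + 4) c (2 * n + 3) (y + 2) := by
  have hk := H.T.hk
  have hb := H.T.hb
  have hc := H.T.hc
  have e := NHT.c0i hf H.T (L := 6 * k + 4) (j := 3) (x := 2 * n + 3) (y := y + 1) (by omega) (by omega) (by omega)
    (by omega) (by omega) (by omega)
  have k1 : ¬ f (6 * k + 4) c (2 * n + 3) (y + 1) :=
    Sig.kill hf h 0 0 0 1 (by omega) (by omega) (by omega) (by omega) (by omega)
  have k2 : ¬ f (6 * k + 4) c (2 * n + 3 + 1) (y + 1) :=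
    Sig.kill hf h 0 0 1 1 (by omega) (by omega) (by omega) (by omega) (by omega)
  have k3 : ¬ f (6 * k + 4) c (2 * n + 3 + 1) (y + 1 + 1) :=
    Sig.even_zero hf (by omega) (by omega) (by omega) (by omega)
  rcases e with e | e | e | e
  · exact absurd e k1
  · exact absurd e k2
  · exact e
  · exact absurd e k3

/-- **No beam in the column `2 n + 3` of `6 k + 4`**, row `c`. -/
theorem nb_of (hf : Rule f) {k c n y : ℕ} (H : LI f k c n)
    (T4 : f (6 * k + 4) (c - 2) (2 * n - 3) (2 * n - 4) ∨ f (6 * k + 4) (c - 2) (2 * n - 1) (2 * n - 2))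
    (hy : y % 2 = 0) (h1 : 2 * n + 4 ≤ y + 2 * k) (h2 : y + 2 ≤ 2 * n) : ¬ f (6 * k + 4) c (2 * n + 3) y := by
  have hk := H.T.hk
  have hN := H.T.hN2
  have hc := H.T.hc
  have c4 : ¬ f (6 * k + 4) c (2 * n + 3) (2 * n - 4) := by
    intro h
    rcases T4 with g | g
    · exact nb_3 hf H (fun e1 e2 e3 e4 => flexP g (by omega) (by omega) (by omega) (by omega))
        (fun e1 e2 e3 e4 => flexP h (by omega) (by omega) (by omega) (by omega))
    · exact nb_1 hf H (fun e1 e2 e3 e4 => flexP g (by omega) (by omega) (by omega) (by omega))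
        (fun e1 e2 e3 e4 => flexP h (by omega) (by omega) (by omega) (by omega))
  have run : ∀ d y : ℕ, y + 2 * d + 4 = 2 * n → y % 2 = 0 → 2 * n + 8 ≤ y + 2 * k → ¬ f (6 * k + 4) c (2 * n + 3) y := by
    intro d
    induction d with
    | zero =>
      intro y e _ _ h
      exact c4 (by rwa [show 2 * n - 4 = y by omega])
    | succ d ih =>
      intro y e hy h3 h
      exact ih (y + 2) (by omega) (by omega) (by omega) (nb_step hf H hy h3 (by omega) h)
  have w8 : ∀ y : ℕ, y % 2 = 0 → 2 * n + 8 ≤ y + 2 * k → y + 4 ≤ 2 * n → ¬ f (6 * k + 4) c (2 * n + 3) y := by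
    intro y a1 a2 a3
    obtain ⟨d, hd⟩ : ∃ d, y + 2 * d + 4 = 2 * n := ⟨(2 * n - 4 - y) / 2, by omega⟩
    exact run d y hd a1 a2
  have w6 : ¬ f (6 * k + 4) c (2 * n + 3) (2 * n + 6 - 2 * k) := fun h =>
    nbw6 hf H (fun e1 e2 e3 e4 => flexP h (by omega) (by omega) (by omega) (by omega))
      (fun e1 e2 e3 e4 => flexN (w8 (2 * n + 8 - 2 * k) (by omega) (by omega) (by omega)) (by omega) (by omega)
        (by omega) (by omega))
  rcases (show y + 2 * k = 2 * n + 4 ∨ y + 2 * k = 2 * n + 6 ∨ (2 * n + 8 ≤ y + 2 * k ∧ y + 4 ≤ 2 * n) ∨ y + 2 = 2 * n by omega) with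
    e | e | ⟨e, e'⟩ | e
  · intro h
    exact nbw4 hf H (fun e1 e2 e3 e4 => flexP h (by omega) (by omega) (by omega) (by omega))
      (fun e1 e2 e3 e4 => flexN w6 (by omega) (by omega) (by omega) (by omega))
  · rwa [show y = 2 * n + 6 - 2 * k by omega]
  · exact w8 y hy e e'
  · intro h
    rcases T4 with g | g
    · exact nb2_3 hf H (fun e1 e2 e3 e4 => flexP g (by omega) (by omega) (by omega) (by omega))
        (fun e1 e2 e3 e4 => flexP h (by omega) (by omega) (by omega) (by omega))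
    · exact nb2_1 hf H (fun e1 e2 e3 e4 => flexP g (by omega) (by omega) (by omega) (by omega))
        (fun e1 e2 e3 e4 => flexP h (by omega) (by omega) (by omega) (by omega))

theorem Win.nb (hf : Rule f) {k b m n y : ℕ} (W : Win f k b m n) (hy : y % 2 = 0) (h1 : 2 * n + 4 ≤ y + 2 * k)
    (h2 : y + 2 ≤ 2 * n) : ¬ f (6 * k + 4) (b + 22) (2 * n + 3) y := by
  refine nb_of hf (W.li hf) ?_ hy h1 h2
  have h := W.T4 hf
  rwa [show b + 20 = b + 22 - 2 by omega] at h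

end Pool.Agent.SNT.LRI
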