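import Pool.Agent.SNT.L4TR
import Pool.Agent.SNT.LNb
import Pool.Agent.SNT.L4TT

set_option autoImplicit false

/-! **The tip `2 n + 3` of `6 k + 4` in the row `c - 2` is present**, with the lead `n - k - 5` of `6 k` (helper33). -/

namespace Pool.Agent.SNT.L4T

open Pool.Agent.SNT Pool.Agent.SNT.Sig Pool.Agent.SNT.Loc Pool.Agent.SNT.LW Pool.Agent.SNT.NHZ Pool.Agent.SNT.DRun
open Pool.Agent.SNT.D1E

variable {f : ℕ → ℕ → ℕ → ℕ → Prop} {k c n M : ℕ}

/-- **T3**: the cells of the in-line `2 n + 3` of `6 k + 4` in the row `c - 2`, from the third cell to the tip, in every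
cycle `j + 1`. -/
theorem line_3 {b m : ℕ} (hf : Rule f) (W : WL0 f k b m 5) (j : ℕ) {y : ℕ} (hy : y % 2 = 0)
    (h1 : 2 * D1.nn k m (j + 1) + 8 ≤ y + 2 * k) (h2 : y ≤ 2 * D1.nn k m (j + 1) + 2) :
    f (6 * k + 4) (b + 4 * (j + 1) + 20) (2 * D1.nn k m (j + 1) + 3) y := by
  have W1 := W.win (j + 1)
  have W0 := W.win j
  have H := H.of hf W1 W0 (by ring) (by ring)
  have P := pl_of_win W1
  have l2 := W.l0 (j + 2)
  have l1 := W.l0 (j + 1)
  have e2 : D1.nn k m (j + 2) = D1.nn k m (j + 1) + k + 2 := by unfold D1.nn; ring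
  have nb : ∀ y : ℕ, y % 2 = 0 → 2 * D1.nn k m (j + 1) + 4 ≤ y + 2 * k → y + 2 ≤ 2 * D1.nn k m (j + 1) →
      ¬ f (6 * k + 4) (b + 4 * (j + 1) + 22) (2 * D1.nn k m (j + 1) + 3) y := fun y a1 a2 a3 => W1.nb hf a1 a2 a3
  have hk := H.T.hk
  have hN := H.hn
  have hb := H.T.hb
  generalize D1.nn k m (j + 2) = n2 at *
  generalize D1.nn k m (j + 1) = n1 at *
  subst e2
  have h : f (6 * k + 4) (b + 4 * (j + 1) + 22 - 2) (2 * n1 + 3) (2 * n1 - 2 * k + 8) := by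
    by_contra g
    exact t3 hf H (NW.cyc_mv l1 rfl (by omega) (by omega)) (NW.cyc_mv l2 rfl (by omega) (by omega)) nb g
  have h3 := K0L4.run4 hf (x := 2 * n1 + 3) (y0 := 2 * n1 - 2 * k + 8) H.T P.c4a P.c6 (by omega) (by omega) (by omega)
    (by omega) h y (by omega) (by omega) hy
  exact mv h3 rfl (by omega) rfl rfl

/-- **T3, the tip.** -/
theorem tip_3 {b m : ℕ} (hf : Rule f) (W : WL0 f k b m 5) (j : ℕ) :
    f (6 * k + 4) (b + 4 * (j + 1) + 20) (2 * D1.nn k m (j + 1) + 3) (2 * D1.nn k m (j + 1) + 2) := by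
  have hk := (W.win (j + 1)).hs.1
  exact line_3 hf W j (by omega) (by omega) (by omega)

end Pool.Agent.SNT.L4T
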