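import Pool.Agent.SNT.LRD

set_option autoImplicit false
set_option linter.unusedVariables false
set_option synthInstance.maxSize 100000
set_option synthInstance.maxHeartbeats 4000000

/-! The cell `v = 2` of the wall. -/

namespace Pool.Agent.SNT.LRI

open Pool.Agent.SNT Pool.Agent.SNT.Loc Pool.Agent.SNT.LW Pool.Agent.SNT.NHZ

variable {f : ℕ → ℕ → ℕ → ℕ → Prop}

variable {k c n M R x y : ℕ}

theorem w9_2_chk : check 11 8 11 15 1 0 0 1 0
    (fun j n p q => decide ((j = 5 ∧ n = 2 ∧ ((p = 2 ∧ q = 2) ∨ (p = 3 ∧ ((q = 1) ∨ (q = 5))) ∨ (p = 4 ∧ q = 4) ∨ (p = 6 ∧ q = 6)))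
      ∨ (j = 1 ∧ n = 2 ∧ ((p = 1 ∧ q = 3) ∨ (p = 2 ∧ q = 2) ∨ (p = 3 ∧ ((q = 1) ∨ (q = 5))) ∨ (p = 4 ∧ q = 4)))
      ∨ (j = 9 ∧ n = 2 ∧ ((p = 3 ∧ q = 3) ∨ (p = 4 ∧ ((q = 2) ∨ (q = 6))) ∨ (p = 6 ∧ q = 4)))
      ∨ (j = 9 ∧ n = 4 ∧ ((p = 5 ∧ q = 9) ∨ (p = 7 ∧ ((q = 9) ∨ (q = 11)))))
      ∨ (j = 7 ∧ n = 3 ∧ ((p = 3 ∧ q = 4) ∨ (p = 4 ∧ q = 3) ∨ (p = 5 ∧ q = 6)))
      ∨ (j = 3 ∧ n = 4 ∧ ((p = 5 ∧ ((q = 3) ∨ (q = 7))) ∨ (p = 6 ∧ q = 6)))
      ∨ (j = 7 ∧ n = 2 ∧ ((p = 3 ∧ q = 7) ∨ (p = 4 ∧ q = 4)))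
      ∨ (j = 7 ∧ n = 4 ∧ ((p = 5 ∧ q = 5) ∨ (p = 7 ∧ q = 7)))
      ∨ (j = 3 ∧ n = 3 ∧ ((p = 3 ∧ q = 6) ∨ (p = 4 ∧ q = 5)))
      ∨ (j = 9 ∧ n = 3 ∧ (p = 7 ∧ q = 6))
      ∨ (j = 11 ∧ n = 3 ∧ (p = 6 ∧ q = 5))
      ∨ (j = 9 ∧ n = 5 ∧ (p = 9 ∧ q = 10))
      ∨ (j = 1 ∧ n = 1 ∧ (p = 3 ∧ q = 2))
      ∨ (j = 10 ∧ n = 6 ∧ (p = 9 ∧ q = 13))))
    (fun j n p q => decide ((j = 2 ∧ n = 5 ∧ ((p = 3 ∧ 5 ≤ q ∧ q ≤ 7) ∨ (p = 4 ∧ q = 5)))
      ∨ (j = 2 ∧ n = 4 ∧ (p = 3 ∧ 6 ≤ q ∧ q ≤ 7))))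
    147
    0x19090313d18013d91206930306e600097a420c0e000ea9d20979830c0d800c0d84113d80113d840eb1000eb10119090313d18013d9120ea9800ea9840981030c15000c150406930306e58006e58419090313d90013d9041bf80319090019090418ae0018ae0118a70018a78a160b03160b80160b840e560004060010ea42069a421bf8801853000e04000dfb0003a40003ab001c009a1ae742109842108f42063842063f421d83001c010019190018b80018b70018a80018630018080017fa0017f80017f100138e00137e00132c00132300131c0012d10012cb000db9000da9000da2000da0000d9900093600092f00092d0008d40008cd0003590003520003500003490003420002fe001d830f1c010f19648719638719190f18b80f18b70f18ae8718ad8718a80f189f8718630f18080f17fa0f17f88717f80f17f10f138e0f138687137e0f137687132c0f13230f131c0f12d10f12cb0f0e5e870e4f870e4e870db90f0da9870da90f0da8870da20f0da00f0d990f09360f092f0f092d0f09278709268708d40f08cd0f06e50706de8706de0706dd87068c07068b8703fe8703590f03588703520f03500f03498703490f03420f02fe0f = true := by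
  decide +kernel

theorem w9_2 (hf : Rule f) {k c n M R x y : ℕ} (H : LI f k c n)
    (eM : M = 6 * k + 9) (eR : R = c) (ex : x = 2 * n + 1) (ey : y + 2 * k = 2 * n + 2) : ¬ f M R x y := by
  intro hg
  have hk := H.T.hk
  have hc := H.T.hc
  have h4 := H.T.h4
  have hb := H.T.hb
  have hN := H.T.hN2
  have hg' : ∀ M' R' x' y' : ℕ, M' = M → R' = R → x' = x → y' = y → f M' R' x' y' := by
    rintro _ _ _ _ rfl rfl rfl rfl
    exact hg
  clear hg
  obtain ⟨a0, ha0⟩ : ∃ z, z + 1 = 6 * k := ⟨6 * k - 1, by omega⟩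
  obtain ⟨b0, hb0⟩ : ∃ z, z + 6 = c := ⟨c - 6, by omega⟩
  obtain ⟨x0, hx0⟩ : ∃ z, z + 8 = 2 * n := ⟨2 * n - 8, by omega⟩
  obtain ⟨y0, hy0⟩ : ∃ z, z + 2 * k + 11 = 2 * n := ⟨2 * n - 2 * k - 11, by omega⟩
  refine check_sound hf (a0 := a0) (b0 := b0) (x0 := x0) (y0 := y0) w9_2_chk
    ⟨fun h => absurd h (by decide), fun h => absurd h (by decide), fun h => absurd h (by decide), by omega, by omega,
      by omega, by omega⟩ ?_ ?_
  · intro j m p q hr h
    obtain ⟨-, -, -, -, hp1, hp2, hq1, hq2⟩ := hr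
    replace h := of_decide_eq_true h
    rcases h with h | h | h | h | h | h | h | h | h | h | h | h | h | h
    · obtain ⟨rfl, rfl, h⟩ := h
      exact (WrapC.v2 H.b4 (by omega) (by omega) (by omega) (by omega) (by omega) (by omega) (by omega)).mpr (by omega)
    · obtain ⟨rfl, rfl, h⟩ := h
      exact (WrapC.v2 H.a0 (by omega) (by omega) (by omega) (by omega) (by omega) (by omega) (by omega)).mpr (by omega)
    · obtain ⟨rfl, rfl, h⟩ := h
      exact (NW.w2v H.b8 (by omega) (by omega) (by omega) (by omega) (by omega) (by omega) (by omega)).mpr (by omega)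
    · obtain ⟨rfl, rfl, h⟩ := h
      exact (NW.w0v H.a8 (by omega) (by omega) (by omega) (by omega) (by omega) (by omega) (by omega)).mpr (by omega)
    · obtain ⟨rfl, rfl, h⟩ := h
      exact (WrapC.v1 H.a6 (by omega) (by omega) (by omega) (by omega) (by omega) (by omega) (by omega) (by omega)).mpr (by omega)
    · obtain ⟨rfl, rfl, h⟩ := h
      exact (WrapC.v2 H.a2 (by omega) (by omega) (by omega) (by omega) (by omega) (by omega) (by omega)).mpr (by omega)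
    · obtain ⟨rfl, rfl, h⟩ := h
      exact (WrapC.v4 H.b6 (by omega) (by omega) (by omega) (by omega) (by omega) (by omega) (by omega)).mpr (by omega)
    · obtain ⟨rfl, rfl, h⟩ := h
      exact (WrapC.v2 H.a6 (by omega) (by omega) (by omega) (by omega) (by omega) (by omega) (by omega)).mpr (by omega)
    · obtain ⟨rfl, rfl, h⟩ := h
      exact (WrapC.v1 H.a2 (by omega) (by omega) (by omega) (by omega) (by omega) (by omega) (by omega) (by omega)).mpr (by omega)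
    · obtain ⟨rfl, rfl, h⟩ := h
      exact (NW.w3v H.b8 (by omega) (by omega) (by omega) (by omega) (by omega) (by omega) (by omega) (by omega)).mpr (by omega)
    · obtain ⟨rfl, rfl, h⟩ := h
      exact (NW.w1v H.b10 (by omega) (by omega) (by omega) (by omega) (by omega) (by omega) (by omega) (by omega)).mpr (by omega)
    · obtain ⟨rfl, rfl, h⟩ := h
      exact (NW.w1v H.a8 (by omega) (by omega) (by omega) (by omega) (by omega) (by omega) (by omega) (by omega)).mpr (by omega)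
    · obtain ⟨rfl, rfl, h⟩ := h
      exact (WrapC.v1 H.a0 (by omega) (by omega) (by omega) (by omega) (by omega) (by omega) (by omega) (by omega)).mpr (by omega)
    · obtain ⟨rfl, rfl, h⟩ := h
      exact hg' _ _ _ _ (by omega) (by omega) (by omega) (by omega)
  · intro j m p q hr h
    obtain ⟨-, -, -, -, hp1, hp2, hq1, hq2⟩ := hr
    replace h := of_decide_eq_true h
    rcases h with h | h
    · obtain ⟨rfl, rfl, h⟩ := h
      exact H.eo _ _ _ _ (by omega) (by omega) (by omega) (by omega) (by omega) (by omega) (by omega)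
    · obtain ⟨rfl, rfl, h⟩ := h
      exact H.eo _ _ _ _ (by omega) (by omega) (by omega) (by omega) (by omega) (by omega) (by omega)

end Pool.Agent.SNT.LRI
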