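import Pool.Agent.SNT.NWD
import Pool.Agent.SNT.NHZoneU
import Pool.Agent.SNT.NHZone2

set_option autoImplicit false
set_option synthInstance.maxSize 100000
set_option synthInstance.maxHeartbeats 4000000

/-! Near-wall windows for the cell `P_(6k+9) (c + 1) (2 n + 4) (2 n + 2 - 2 k)` (`c` is the IN row of the top leader `6 k + 10`,
`n` its lead), over the lead `n - k - 5` of `6 k` and the lead `n - 5` of `6 k + 2`. -/

namespace Pool.Agent.SNT.Z1C1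

open Pool.Agent.SNT Pool.Agent.SNT.Loc Pool.Agent.SNT.LW Pool.Agent.SNT.NHZ

variable {f : ℕ → ℕ → ℕ → ℕ → Prop}

theorem zZ_r1i (hf : Rule f) {k c N M R x y p j : ℕ} (h : NHT f k c N) (hR : R = c + 1) (hj : j ≤ 5) (hp : p ≤ 1)
    (hL : M + 2 * j = 6 * k + 10 + p) (hx : N + 3 ≤ x) (h1 : y + 1 + j ≤ x) (h2 : x + 2 + j ≤ y + 2 * k) :
    ¬ f M R x y := by
  subst hR
  exact h.r1i hf hj hp hL hx h1 h2

theorem uP0 (hf : Rule f) {k c N M R x y j : ℕ} (h : NHU f k c N) (hj : j ≤ 0) (hL : M + 1 + 2 * j = 6 * k + 6)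
    (hR : R + 5 = c ∨ R + 4 = c) (hx : N ≤ x + 8) (h1 : y + 1 + j ≤ x) (h2 : x + j ≤ y + 2 * k) : ¬ f M R x y :=
  h.I.P hf (t := 0) (s := 0) (j := j) (q := c - 4 - R) (by omega) (by omega) (by omega) (by omega)
    (by have := h.hb; omega) (by unfold XU; rw [if_pos (by omega)]; have := h.hN2; omega) (by have := h.hN2; omega)
    (by omega) (by omega)

theorem uP1 (hf : Rule f) {k c N M R x y j : ℕ} (h : NHU f k c N) (hj : j ≤ 1) (hL : M + 1 + 2 * j = 6 * k + 8)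
    (hR : R + 3 = c ∨ R + 2 = c) (hx : N ≤ x + 2) (h1 : y + 1 + j ≤ x) (h2 : x + j ≤ y + 2 * k) : ¬ f M R x y :=
  h.pmi hf hj hL hR hx h1 h2

theorem uP2 (hf : Rule f) {k c N M R x y j : ℕ} (h : NHU f k c N) (hj : j ≤ 2) (hL : M + 1 + 2 * j = 6 * k + 10)
    (hR : R + 1 = c ∨ R = c) (hx : N + 4 ≤ x) (h1 : y + 1 + j ≤ x) (h2 : x + j ≤ y + 2 * k) : ¬ f M R x y :=
  h.p0i hf hj hL hR hx h1 h2

theorem uA0 (hf : Rule f) {k c N M R x y p j : ℕ} (h : NHU f k c N) (hR : R + 3 = c) (hj : j ≤ 0) (hp : p ≤ 1)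
    (hL : M + 2 * j = 6 * k + 6 + p) (hx : N ≤ x + 7) (h1 : y + 1 + j ≤ x) (h2 : x + j ≤ y + 2 * k) : ¬ f M R x y :=
  h.I.after hf (t := 0) (s := 0) (j := j) (p := p) (q := 1) (by omega) (by omega) hp le_rfl (by omega) (by omega)
    (by have := h.hb; omega) (by unfold XU; rw [if_pos (by omega)]; have := h.hN2; omega)
    (by have := h.hN2; omega) (by omega) (by omega)

theorem uA1 (hf : Rule f) {k c N M R x y p j : ℕ} (h : NHU f k c N) (hR : R + 1 = c) (hj : j ≤ 1) (hp : p ≤ 1)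
    (hL : M + 2 * j = 6 * k + 8 + p) (hx : N ≤ x + 1) (h1 : y + 1 + j ≤ x) (h2 : x + j ≤ y + 2 * k) : ¬ f M R x y := by
  have e : R = c - 1 := by omega
  subst e
  exact h.rm1i hf hj hp hL hx h1 h2

theorem uA2 (hf : Rule f) {k c N M R x y p j : ℕ} (h : NHU f k c N) (hR : R = c + 1) (hj : j ≤ 2) (hp : p ≤ 1)
    (hL : M + 2 * j = 6 * k + 10 + p) (hx : N + 5 ≤ x) (h1 : y + 1 + j ≤ x) (h2 : x + j ≤ y + 2 * k) : ¬ f M R x y := by
  subst hR
  exact h.r1i hf hj hp hL hx h1 h2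

theorem z1c1_chk : check 10 10 11 23 0 1 1 0 0
    (fun j n p q => decide ((j = 2 ∧ n = 2 ∧ ((p + q + 1) % 2 = 0 ∧ q ≤ p + 7 ∧ (p + q + 1) % 4 = 0))
      ∨ (j = 2 ∧ n = 3 ∧ (((p + q + 1) % 2 = 1 ∧ p + 8 ≤ q ∧ p % 2 = 1) ∨ ((p + q + 1) % 2 = 1 ∧ q ≤ p + 8 ∧ (p + q + 2) % 4 = 0)))
      ∨ (j = 2 ∧ n = 5 ∧ 4 ≤ p ∧ (((p + q + 1) % 2 = 1 ∧ p + 8 ≤ q ∧ p % 2 = 0) ∨ ((p + q + 1) % 2 = 1 ∧ q ≤ p + 8 ∧ (p + q) % 4 = 0)))
      ∨ (j = 4 ∧ n = 3 ∧ (((p + q + 1) % 2 = 1 ∧ p + 8 ≤ q ∧ p % 2 = 0) ∨ ((p + q + 1) % 2 = 1 ∧ q ≤ p + 8 ∧ (p + q) % 4 = 0)))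
      ∨ (j = 4 ∧ n = 4 ∧ ((2 ≤ p) ∨ (p + 7 ≤ q)) ∧ ((p + q + 1) % 2 = 0 ∧ q ≤ p + 7 ∧ (p + q + 1) % 4 = 0))
      ∨ (j = 4 ∧ n = 5 ∧ q ≤ p + 7 ∧ 4 ≤ p ∧ (((p + q + 1) % 2 = 1 ∧ p + 8 ≤ q ∧ p % 2 = 1) ∨ ((p + q + 1) % 2 = 1 ∧ q ≤ p + 8 ∧ (p + q + 2) % 4 = 0)))
      ∨ (j = 4 ∧ n = 1 ∧ q ≤ p + 7 ∧ (((p + q + 1) % 2 = 1 ∧ p + 8 ≤ q ∧ p % 2 = 1) ∨ ((p + q + 1) % 2 = 1 ∧ q ≤ p + 8 ∧ (p + q + 2) % 4 = 0)))
      ∨ (j = 6 ∧ n = 1 ∧ (((p + q + 1) % 2 = 1 ∧ p + 8 ≤ q ∧ p % 2 = 0) ∨ ((p + q + 1) % 2 = 1 ∧ q ≤ p + 8 ∧ (p + q) % 4 = 0)))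
      ∨ (j = 6 ∧ n = 2 ∧ ((p + q + 1) % 2 = 0 ∧ q ≤ p + 7 ∧ (p + q + 1) % 4 = 0))
      ∨ (j = 6 ∧ n = 3 ∧ q ≤ p + 7 ∧ (((p + q + 1) % 2 = 1 ∧ p + 8 ≤ q ∧ p % 2 = 1) ∨ ((p + q + 1) % 2 = 1 ∧ q ≤ p + 8 ∧ (p + q + 2) % 4 = 0)))
      ∨ (j = 10 ∧ n = 3 ∧ ((p + 6 ≤ q ∧ 8 ≤ q) ∨ (q ≤ p + 5)) ∧ (((p + q + 1) % 2 = 1 ∧ p + 6 ≤ q ∧ p % 2 = 1) ∨ ((p + q + 1) % 2 = 1 ∧ q ≤ p + 6 ∧ (p + q + 2) % 4 = 2)))
      ∨ (j = 10 ∧ n = 4 ∧ ((p + 6 ≤ q ∧ 10 ≤ q) ∨ (5 ≤ p)) ∧ ((p + q + 1) % 2 = 0 ∧ q ≤ p + 5 ∧ (p + q + 3) % 4 = 2))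
      ∨ (j = 7 ∧ n = 7 ∧ p = 9 ∧ q = 16)
      ∨ (j = 6 ∧ n = 3 ∧ p = 1 ∧ q = 11)))
    (fun j n p q => decide ((j = 2 ∧ n = 2 ∧ ¬ ((p + q + 1) % 2 = 0 ∧ q ≤ p + 7 ∧ (p + q + 1) % 4 = 0))
      ∨ (j = 2 ∧ n = 3 ∧ ¬ (((p + q + 1) % 2 = 1 ∧ p + 8 ≤ q ∧ p % 2 = 1) ∨ ((p + q + 1) % 2 = 1 ∧ q ≤ p + 8 ∧ (p + q + 2) % 4 = 0)))
      ∨ (j = 2 ∧ n = 5 ∧ 4 ≤ p ∧ ¬ (((p + q + 1) % 2 = 1 ∧ p + 8 ≤ q ∧ p % 2 = 0) ∨ ((p + q + 1) % 2 = 1 ∧ q ≤ p + 8 ∧ (p + q) % 4 = 0)))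
      ∨ (j = 4 ∧ n = 3 ∧ ¬ (((p + q + 1) % 2 = 1 ∧ p + 8 ≤ q ∧ p % 2 = 0) ∨ ((p + q + 1) % 2 = 1 ∧ q ≤ p + 8 ∧ (p + q) % 4 = 0)))
      ∨ (j = 4 ∧ n = 4 ∧ ((2 ≤ p) ∨ (p + 7 ≤ q)) ∧ ¬ ((p + q + 1) % 2 = 0 ∧ q ≤ p + 7 ∧ (p + q + 1) % 4 = 0))
      ∨ (j = 4 ∧ n = 5 ∧ q ≤ p + 7 ∧ 4 ≤ p ∧ ¬ (((p + q + 1) % 2 = 1 ∧ p + 8 ≤ q ∧ p % 2 = 1) ∨ ((p + q + 1) % 2 = 1 ∧ q ≤ p + 8 ∧ (p + q + 2) % 4 = 0)))
      ∨ (j = 4 ∧ n = 1 ∧ q ≤ p + 7 ∧ ¬ (((p + q + 1) % 2 = 1 ∧ p + 8 ≤ q ∧ p % 2 = 1) ∨ ((p + q + 1) % 2 = 1 ∧ q ≤ p + 8 ∧ (p + q + 2) % 4 = 0)))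
      ∨ (j = 6 ∧ n = 1 ∧ ¬ (((p + q + 1) % 2 = 1 ∧ p + 8 ≤ q ∧ p % 2 = 0) ∨ ((p + q + 1) % 2 = 1 ∧ q ≤ p + 8 ∧ (p + q) % 4 = 0)))
      ∨ (j = 6 ∧ n = 2 ∧ ¬ ((p + q + 1) % 2 = 0 ∧ q ≤ p + 7 ∧ (p + q + 1) % 4 = 0))
      ∨ (j = 6 ∧ n = 3 ∧ q ≤ p + 7 ∧ ¬ (((p + q + 1) % 2 = 1 ∧ p + 8 ≤ q ∧ p % 2 = 1) ∨ ((p + q + 1) % 2 = 1 ∧ q ≤ p + 8 ∧ (p + q + 2) % 4 = 0)))
      ∨ (j = 10 ∧ n = 3 ∧ ((p + 6 ≤ q ∧ 8 ≤ q) ∨ (q ≤ p + 5)) ∧ ¬ (((p + q + 1) % 2 = 1 ∧ p + 6 ≤ q ∧ p % 2 = 1) ∨ ((p + q + 1) % 2 = 1 ∧ q ≤ p + 6 ∧ (p + q + 2) % 4 = 2)))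
      ∨ (j = 10 ∧ n = 4 ∧ ((p + 6 ≤ q ∧ 10 ≤ q) ∨ (5 ≤ p)) ∧ ¬ ((p + q + 1) % 2 = 0 ∧ q ≤ p + 5 ∧ (p + q + 3) % 4 = 2))
      ∨ (j = 1)
      ∨ (j = 3 ∧ n = 1 ∧ p + 10 ≤ q)
      ∨ (j = 5 ∧ n = 1 ∧ p + 9 ≤ q)
      ∨ (j = 3 ∧ n = 2 ∧ p + 11 ≤ q)
      ∨ (j = 4 ∧ n = 2 ∧ p + 10 ≤ q)
      ∨ (j = 7 ∧ n = 2 ∧ p + 7 ≤ q)
      ∨ (j = 5 ∧ n = 3 ∧ p + 10 ≤ q)
      ∨ (j = 7 ∧ n = 3 ∧ p + 7 ≤ q)
      ∨ (j = 5 ∧ n = 4 ∧ p + 11 ≤ q)
      ∨ (j = 6 ∧ n = 4 ∧ p + 10 ≤ q)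
      ∨ (j = 7 ∧ n = 4 ∧ p + 10 ≤ q)
      ∨ (j = 7 ∧ n = 4 ∧ 5 ≤ p ∧ p + 8 ≤ q)
      ∨ (j = 8 ∧ n = 4 ∧ p + 7 ≤ q)
      ∨ (j = 9 ∧ n = 4 ∧ p + 7 ≤ q)
      ∨ (j = 3 ∧ n = 5 ∧ 3 ≤ p ∧ p + 12 ≤ q ∧ q ≤ p + 19)
      ∨ (j = 5 ∧ n = 5 ∧ 3 ≤ p ∧ p + 11 ≤ q)
      ∨ (j = 7 ∧ n = 5 ∧ 3 ≤ p ∧ p + 10 ≤ q)
      ∨ (j = 7 ∧ n = 5 ∧ 5 ≤ p ∧ p + 8 ≤ q)
      ∨ (j = 9 ∧ n = 5 ∧ 3 ≤ p ∧ p + 9 ≤ q)
      ∨ (j = 9 ∧ n = 5 ∧ 5 ≤ p ∧ p + 7 ≤ q)
      ∨ (j = 4 ∧ n = 6 ∧ 4 ≤ p ∧ p + 12 ≤ q ∧ q ≤ p + 19)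
      ∨ (j = 5 ∧ n = 6 ∧ 4 ≤ p ∧ p + 12 ≤ q ∧ q ≤ p + 19)
      ∨ (j = 6 ∧ n = 6 ∧ 4 ≤ p ∧ p + 11 ≤ q)
      ∨ (j = 7 ∧ n = 6 ∧ 4 ≤ p ∧ p + 11 ≤ q)
      ∨ (j = 8 ∧ n = 6 ∧ 4 ≤ p ∧ p + 10 ≤ q)
      ∨ (j = 9 ∧ n = 6 ∧ 4 ≤ p ∧ p + 10 ≤ q)
      ∨ (j = 10 ∧ n = 6 ∧ 4 ≤ p ∧ p + 9 ≤ q)
      ∨ (j = 5 ∧ n = 7 ∧ 9 ≤ p ∧ p + 12 ≤ q ∧ q ≤ p + 19)
      ∨ (j = 9 ∧ n = 7 ∧ 9 ≤ p ∧ p + 10 ≤ q)))
    667
    0xd17831208801705da0dad83129e80179bda1694831b858020825216fc031bed0020e9d2267003217e00217e01205d8320dc8020e89a20f38020f38420e90020e904167c831b6e001b6e0420538320dd8020dd841b620316718016718426708320e98020e9842544831b56801b56841712831c038020f54a25e60025e60420f3832172802172842544831b62001b6204167c8316fb8016fb842f32032544002544040da2831293801790da1c81801c81840d17830d96800d96842550032047802047841707031bf8001bf8041b7a031bf8801bf884208200208204167c831b6d801b6d84179b80179b84206b80256852246a831ff8801ff8842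5e603266480266484205f8320de0020de041b62031b62801b62841c03831c04001c04041b55831b56001b56041b6e031bec801bec841705801705840d0c8311fd8016fada1beb801beb8416718316f00016f0041fec001fec011f560024474225f1831ff780206a801ff781255bc21f61802452c21f4a801f4a8420fe8020fe812080802073802068802075802080812073812068812075812002801fea801fd2801ff5801fdd801fdf802002811fea811fd2811ff5811fdd811fdf81150b8014f38014db80171d8017108015008014fe8014e88014e6801f498019fcc219e4c219ccc2171d810d3a800d2f801710810d24800d22800c26800c1b800c19800c0e800c0380158b3a15893a15733a15713a267c001f84801f77801f6c801f6a801f5f801f54801f5280243ac21f47801f3c801f32801ef9801eee801ee1801ed6801ec9801ebe801e3380169f80169d80169280168780168580167a80166f80162180161f8016148016128016098016078015fc8015f18015ef8015e48015d98015a180159680159480158b80158980157e80157c80157480157380157180156680155c80155b80154e80148d80148b80148080147580147380146880145d801450800c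bc800cb1800d3a810caf800ca6800d2f810ca4800d24810c99800d22810c97800c8f800c8e800c8c800bb5800ba8800ba6800b9e800b9d800c26810b9b800c1b810b90800c19810b8e800b86800b85800c0e810b83800c03810b78800b6d800b2a800b28800b12800b10800afa800af8802f32072f31872f26872f26072eb3872eb3072ea8072ea7872a410729c28729c20729b70729b687267c0f256807256787255c87255c07255b87255007254f8725448725390725388724e98724e90724de0724dd8724dd0724d18724d10724c60724ba8724ba07246a87246a07245f07245e87245287245207244707244687243b87243b07243a87243a07242f07242e8723ec0723eb8723e08723e00723d40723d38723c88723c80723bd0723bc8723bc0723bb8723b08723b007217407217307217207207707207607207507207407207307205f07205e07205d072048071fed071fe1071fd5871fd5071fc9871fc9071f848f1f84071f83871f79071f78871f78071f778f1f77071f76871f6d071f6c8f1f6c071f6b871f6b071f6a8f1f62071f61071f60871f60071f5f8f1f5f071f5e871f55071f548f1f54071f53871f53071f528f1f4a071f49071f48871f48071f4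78f1f3c8f1f328f1efb071efa871ef98f1eef871eef071eee8f1ee3071ee2871ee18f1ed7871ed7071ed68f1ecc071ecb871ecb071eca871ec98f1ebf871ebf071ebe8f1e338f1b63071b57071ae4871ad887179007169f8f169f07169e87169d8f16940716938716930716928f16920716918716880716878f16870716868716860716858f167d07167c07167b87167b07167a8f167007166f8f16660716650716640716218f161f8f16160716158716148f16128f160a87160a0716098f16078f15ff0715fe8715fe0715fd8715fc8f15f30715f28715f20715f18f15ef8f15e78715e70715e68715e60715e58715e48f15da8715da0715d98f15a18f15968f15948f158b8f158b07158a8715898f158907158887157f87157f07157e8f157d87157d07157c8f15748f15738f15730715728715718f15710715708715678715670715668f156587156507155c8f155b8f154e8f148d8f148d07148c87148b8f14818714810714808f14758f14750714748714738f14698714690714688f145d8f145d07145c8714518714510714508f0dad070d97070cbc8f0cbc070cbb870cb18f0cb1070cb0870cb0070caf8f0ca68f0ca6070ca5870ca5070ca48f0ca4070ca3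870c9a870c9a070c998f0c99070c98870c98070c978f0c8f8f0c8e8f0c8e070c8d870c8d070c8c8f0c82070bb58f0ba88f0ba8070ba7870ba68f0b9e8f0b9d8f0b9d070b9c870b9c070b9b8f0b9b070b9a870b91870b91070b908f0b90070b8f870b8f070b8e8f0b868f0b858f0b85070b84870b84070b838f0b79870b79070b788f0b6d8f0b2a8f0b288f0b128f0b108f0afa8f0af88f08bc8708bc0708b18708b10708b08708a60708a587084987084907083e87083e07083d87083387083307083287083207083187083107082807082787082707082687082607082587081b87081b07081a87081007080f8707cb0707ca8707c00707bf8707bf0707b50707b48707b40707b30707b28707a98707a90707a80707a78707a707079d07079c87079c07079187079107073587073507072a87072a07072987072887072807071f07071e87071d87071d07071c8707128707120707118707070707068706b70706b68706ac0706ab8706ab0706aa0706a98706a08706a007069f07069e87069e07069407069387069307068887068807 = true := by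
  decide +kernel

theorem C1_aux (hf : Rule f) {k c n X : ℕ}
    (T : NHT f k c (2 * n))
    (U : NHU f k c (2 * n))
    (hL : ∀ {M R x y : ℕ}, M + 1 = 6 * k → c ≤ R + 12 → R ≤ c + 2 → 2 * n ≤ x + 12 → y ≤ x → x ≤ y + 4 * k → ¬ f M R x y)
    (C0 : Cyc f (6 * k) (c - 6) (2 * (n - k - 5) + 2))
    (C2 : Cyc f (6 * k + 2) (c - 4) (2 * (n - 5) + 2))
    (C2a : Cyc f (6 * k + 2) (c - 8) (2 * (n - 9) + 2))
    (C4a : Cyc f (6 * k + 4) (c - 6) (2 * (n - 7) + 2))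
    (C8a : Cw f (6 * k + 8) (c - 6) (n - (k + 5)))
    (hX : X = 2 * n + 1)
    (g0 : ∀ {M R x y : ℕ}, M = 6 * k + 5 → R = c → x = X + 1 → y + 2 * k = X + 1 → f M R x y)
    (g1 : ∀ {M R x y : ℕ}, M = 6 * k + 4 → R + 4 = c → x + 7 = X → y + 2 * k + 4 = X → f M R x y) : False := by
  have hk := T.hk
  have hc := T.hc
  have h4 := T.h4
  have hb := T.hb
  have hN := T.hN2
  have ho : X % 2 = 1 := by omega
  obtain ⟨a0, ha0⟩ : ∃ z, z + 2 = 6 * k := ⟨6 * k - 2, by omega⟩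
  obtain ⟨b0, hb0⟩ : ∃ z, z + 7 = c := ⟨c - 7, by omega⟩
  obtain ⟨x0, hx0⟩ : ∃ z, z + 8 = X := ⟨X - 8, by omega⟩
  obtain ⟨y0, hy0⟩ : ∃ z, z + 2 * k + 20 = X + 5 := ⟨X + 5 - 2 * k - 20, by omega⟩
  refine check_sound hf (a0 := a0) (b0 := b0) (x0 := x0) (y0 := y0) z1c1_chk
    ⟨fun h => absurd h (by decide), fun h => absurd h (by decide), fun h => absurd h (by decide), by omega, by omega,
      by omega, by omega⟩ ?_ ?_
  · intro j m p q hr h
    obtain ⟨-, -, hm1, hm2, hp1, hp2, hq1, hq2⟩ := hr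
    replace h := of_decide_eq_true h
    rcases h with h | h | h | h | h | h | h | h | h | h | h | h | h | h
    · obtain ⟨rfl, rfl, h⟩ := h
      exact (WrapC.v1 C0 (by omega) (by omega) (by omega) (by omega) (by omega) (by omega) (by omega) (by omega)).mpr (by omega)
    · obtain ⟨rfl, rfl, h⟩ := h
      exact (WrapC.v2 C0 (by omega) (by omega) (by omega) (by omega) (by omega) (by omega) (by omega)).mpr (by omega)
    · obtain ⟨rfl, rfl, h⟩ := h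
      exact (WrapC.v4 C0 (by omega) (by omega) (by omega) (by omega) (by omega) (by omega) (by omega)).mpr (by omega)
    · obtain ⟨rfl, rfl, h⟩ := h
      exact (WrapC.v0 C2 (by omega) (by omega) (by omega) (by omega) (by omega) (by omega) (by omega)).mpr (by omega)
    · obtain ⟨rfl, rfl, h⟩ := h
      exact (WrapC.v1 C2 (by omega) (by omega) (by omega) (by omega) (by omega) (by omega) (by omega) (by omega)).mpr (by omega)
    · obtain ⟨rfl, rfl, h⟩ := h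
      exact (WrapC.v2 C2 (by omega) (by omega) (by omega) (by omega) (by omega) (by omega) (by omega)).mpr (by omega)
    · obtain ⟨rfl, rfl, h⟩ := h
      exact (WrapC.v2 C2a (by omega) (by omega) (by omega) (by omega) (by omega) (by omega) (by omega)).mpr (by omega)
    · obtain ⟨rfl, rfl, h⟩ := h
      exact (WrapC.v0 C4a (by omega) (by omega) (by omega) (by omega) (by omega) (by omega) (by omega)).mpr (by omega)
    · obtain ⟨rfl, rfl, h⟩ := h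
      exact (WrapC.v1 C4a (by omega) (by omega) (by omega) (by omega) (by omega) (by omega) (by omega) (by omega)).mpr (by omega)
    · obtain ⟨rfl, rfl, h⟩ := h
      exact (WrapC.v2 C4a (by omega) (by omega) (by omega) (by omega) (by omega) (by omega) (by omega)).mpr (by omega)
    · obtain ⟨rfl, rfl, h⟩ := h
      exact (NW.w2v C8a (by omega) (by omega) (by omega) (by omega) (by omega) (by omega) (by omega)).mpr (by omega)
    · obtain ⟨rfl, rfl, h⟩ := h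
      exact (NW.w3v C8a (by omega) (by omega) (by omega) (by omega) (by omega) (by omega) (by omega) (by omega)).mpr (by omega)
    · obtain ⟨rfl, rfl, rfl, rfl⟩ := h
      exact g0 (by omega) (by omega) (by omega) (by omega)
    · obtain ⟨rfl, rfl, rfl, rfl⟩ := h
      exact g1 (by omega) (by omega) (by omega) (by omega)
  · intro j m p q hr h
    obtain ⟨-, -, hm1, hm2, hp1, hp2, hq1, hq2⟩ := hr
    replace h := of_decide_eq_true h
    rcases h with h | h | h | h | h | h | h | h | h | h | h | h | h | h | h | h | h | h | h | h | h | h | h | h | h | h | h | h | h | h | h | h | h | h | h | h | h | h | h | h | h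
    · obtain ⟨rfl, rfl, h⟩ := h
      exact mt (WrapC.v1 C0 (by omega) (by omega) (by omega) (by omega) (by omega) (by omega) (by omega) (by omega)).mp (by omega)
    · obtain ⟨rfl, rfl, h⟩ := h
      exact mt (WrapC.v2 C0 (by omega) (by omega) (by omega) (by omega) (by omega) (by omega) (by omega)).mp (by omega)
    · obtain ⟨rfl, rfl, h⟩ := h
      exact mt (WrapC.v4 C0 (by omega) (by omega) (by omega) (by omega) (by omega) (by omega) (by omega)).mp (by omega)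
    · obtain ⟨rfl, rfl, h⟩ := h
      exact mt (WrapC.v0 C2 (by omega) (by omega) (by omega) (by omega) (by omega) (by omega) (by omega)).mp (by omega)
    · obtain ⟨rfl, rfl, h⟩ := h
      exact mt (WrapC.v1 C2 (by omega) (by omega) (by omega) (by omega) (by omega) (by omega) (by omega) (by omega)).mp (by omega)
    · obtain ⟨rfl, rfl, h⟩ := h
      exact mt (WrapC.v2 C2 (by omega) (by omega) (by omega) (by omega) (by omega) (by omega) (by omega)).mp (by omega)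
    · obtain ⟨rfl, rfl, h⟩ := h
      exact mt (WrapC.v2 C2a (by omega) (by omega) (by omega) (by omega) (by omega) (by omega) (by omega)).mp (by omega)
    · obtain ⟨rfl, rfl, h⟩ := h
      exact mt (WrapC.v0 C4a (by omega) (by omega) (by omega) (by omega) (by omega) (by omega) (by omega)).mp (by omega)
    · obtain ⟨rfl, rfl, h⟩ := h
      exact mt (WrapC.v1 C4a (by omega) (by omega) (by omega) (by omega) (by omega) (by omega) (by omega) (by omega)).mp (by omega)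
    · obtain ⟨rfl, rfl, h⟩ := h
      exact mt (WrapC.v2 C4a (by omega) (by omega) (by omega) (by omega) (by omega) (by omega) (by omega)).mp (by omega)
    · obtain ⟨rfl, rfl, h⟩ := h
      exact mt (NW.w2v C8a (by omega) (by omega) (by omega) (by omega) (by omega) (by omega) (by omega)).mp (by omega)
    · obtain ⟨rfl, rfl, h⟩ := h
      exact mt (NW.w3v C8a (by omega) (by omega) (by omega) (by omega) (by omega) (by omega) (by omega) (by omega)).mp (by omega)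
    · obtain rfl := h
      exact hL (by omega) (by omega) (by omega) (by omega) (by omega) (by omega)
    · obtain ⟨rfl, rfl, h⟩ := h
      exact NHT.pIn hf T (t := 2) (j := 1) (by omega) (by omega) (by omega) (by omega) (by omega) (by omega) (by omega)
    · obtain ⟨rfl, rfl, h⟩ := h
      exact NHT.pIn hf T (t := 2) (j := 0) (by omega) (by omega) (by omega) (by omega) (by omega) (by omega) (by omega)
    · obtain ⟨rfl, rfl, h⟩ := h
      exact NHT.rIn hf T (t := 2) (p := 1) (j := 2) (by omega) (by omega) (by omega) (by omega) (by omega) (by omega) (by omega) (by omega)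
    · obtain ⟨rfl, rfl, h⟩ := h
      exact NHT.rIn hf T (t := 2) (p := 0) (j := 1) (by omega) (by omega) (by omega) (by omega) (by omega) (by omega) (by omega) (by omega)
    · obtain ⟨rfl, rfl, h⟩ := h
      exact uP0 hf U (j := 0) (by omega) (by omega) (by omega) (by omega) (by omega) (by omega)
    · obtain ⟨rfl, rfl, h⟩ := h
      exact NHT.pIn hf T (t := 3) (j := 1) (by omega) (by omega) (by omega) (by omega) (by omega) (by omega) (by omega)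
    · obtain ⟨rfl, rfl, h⟩ := h
      exact uP0 hf U (j := 0) (by omega) (by omega) (by omega) (by omega) (by omega) (by omega)
    · obtain ⟨rfl, rfl, h⟩ := h
      exact NHT.rIn hf T (t := 3) (p := 1) (j := 2) (by omega) (by omega) (by omega) (by omega) (by omega) (by omega) (by omega) (by omega)
    · obtain ⟨rfl, rfl, h⟩ := h
      exact NHT.rIn hf T (t := 3) (p := 0) (j := 1) (by omega) (by omega) (by omega) (by omega) (by omega) (by omega) (by omega) (by omega)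
    · obtain ⟨rfl, rfl, h⟩ := h
      exact NHT.rIn hf T (t := 3) (p := 1) (j := 1) (by omega) (by omega) (by omega) (by omega) (by omega) (by omega) (by omega) (by omega)
    · obtain ⟨rfl, rfl, h⟩ := h
      exact uP1 hf U (j := 1) (by omega) (by omega) (by omega) (by omega) (by omega) (by omega)
    · obtain ⟨rfl, rfl, h⟩ := h
      exact uA0 hf U (p := 0) (j := 0) (by omega) (by omega) (by omega) (by omega) (by omega) (by omega) (by omega)
    · obtain ⟨rfl, rfl, h⟩ := h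
      exact uA0 hf U (p := 1) (j := 0) (by omega) (by omega) (by omega) (by omega) (by omega) (by omega) (by omega)
    · obtain ⟨rfl, rfl, h⟩ := h
      exact NHT.pIn hf T (t := 4) (j := 3) (by omega) (by omega) (by omega) (by omega) (by omega) (by omega) (by omega)
    · obtain ⟨rfl, rfl, h⟩ := h
      exact NHT.pIn hf T (t := 4) (j := 2) (by omega) (by omega) (by omega) (by omega) (by omega) (by omega) (by omega)
    · obtain ⟨rfl, rfl, h⟩ := h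
      exact NHT.pIn hf T (t := 4) (j := 1) (by omega) (by omega) (by omega) (by omega) (by omega) (by omega) (by omega)
    · obtain ⟨rfl, rfl, h⟩ := h
      exact uP1 hf U (j := 1) (by omega) (by omega) (by omega) (by omega) (by omega) (by omega)
    · obtain ⟨rfl, rfl, h⟩ := h
      exact NHT.pIn hf T (t := 4) (j := 0) (by omega) (by omega) (by omega) (by omega) (by omega) (by omega) (by omega)
    · obtain ⟨rfl, rfl, h⟩ := h
      exact uP1 hf U (j := 0) (by omega) (by omega) (by omega) (by omega) (by omega) (by omega)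
    · obtain ⟨rfl, rfl, h⟩ := h
      exact NHT.rIn hf T (t := 4) (p := 0) (j := 3) (by omega) (by omega) (by omega) (by omega) (by omega) (by omega) (by omega) (by omega)
    · obtain ⟨rfl, rfl, h⟩ := h
      exact NHT.rIn hf T (t := 4) (p := 1) (j := 3) (by omega) (by omega) (by omega) (by omega) (by omega) (by omega) (by omega) (by omega)
    · obtain ⟨rfl, rfl, h⟩ := h
      exact NHT.rIn hf T (t := 4) (p := 0) (j := 2) (by omega) (by omega) (by omega) (by omega) (by omega) (by omega) (by omega) (by omega)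
    · obtain ⟨rfl, rfl, h⟩ := h
      exact NHT.rIn hf T (t := 4) (p := 1) (j := 2) (by omega) (by omega) (by omega) (by omega) (by omega) (by omega) (by omega) (by omega)
    · obtain ⟨rfl, rfl, h⟩ := h
      exact NHT.rIn hf T (t := 4) (p := 0) (j := 1) (by omega) (by omega) (by omega) (by omega) (by omega) (by omega) (by omega) (by omega)
    · obtain ⟨rfl, rfl, h⟩ := h
      exact NHT.rIn hf T (t := 4) (p := 1) (j := 1) (by omega) (by omega) (by omega) (by omega) (by omega) (by omega) (by omega) (by omega)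
    · obtain ⟨rfl, rfl, h⟩ := h
      exact NHT.rIn hf T (t := 4) (p := 0) (j := 0) (by omega) (by omega) (by omega) (by omega) (by omega) (by omega) (by omega) (by omega)
    · obtain ⟨rfl, rfl, h⟩ := h
      exact NHT.p0i hf T (j := 3) (by omega) (by omega) (by omega) (by omega) (by omega) (by omega)
    · obtain ⟨rfl, rfl, h⟩ := h
      exact NHT.p0i hf T (j := 1) (by omega) (by omega) (by omega) (by omega) (by omega) (by omega)

end Pool.Agent.SNT.Z1C1
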