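import Pool.Agent.SNT.Z1P
import Pool.Agent.SNT.Z1C1
import Pool.Agent.SNT.Z1C2

set_option autoImplicit false

/-! The three near-wall windows of the cell `P_(6k+9) (c + 1) (2 n + 4) (2 n + 2 - 2 k)`, `c = b + 22`, over the stack. -/

namespace Pool.Agent.SNT.Z10W

open Pool.Agent.SNT Pool.Agent.SNT.LW Pool.Agent.SNT.NHZ

variable {f : ℕ → ℕ → ℕ → ℕ → Prop} {k b m n : ℕ}

theorem lw0 (hs : Side k b m) (S : Stack6 f k b m 0 0 0 0 0 1) (hn : n = m + 9 + (k + 2) * 4) :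
    ∀ M R x y : ℕ, M + 1 = 6 * k → b + 22 ≤ R + 12 → R ≤ b + 22 + 2 → 2 * n ≤ x + 12 → y ≤ x → x ≤ y + 4 * k →
      ¬ f M R x y := by
  intro M R x y e1 e2 e3 e4 e5 e6
  have hb := hs.2.2.2.1
  have e : M = 6 * k - 1 := by omega
  subst e
  exact lw_zero hs S (i := R - b) (by omega) (by omega) (by omega) e5 (by omega)

/-- **(P)** the cell `P_(6k+9) (c + 1) (2 n + 4) (2 n + 2 - 2 k)` forces the cell `P_(6k+5) c (2 n + 2) (2 n + 2 - 2 k)`. -/
theorem winP (hf : Rule f) (hs : Side k b m) (S : Stack6 f k b m 0 0 0 0 0 1) (hn : n = m + 9 + (k + 2) * 4)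
    (d0 : Cyc f (6 * k) (b + 16) (2 * (n - k - 5) + 2)) (d2 : Cyc f (6 * k + 2) (b + 18) (2 * (n - 5) + 2))
    (h : f (6 * k + 9) (b + 23) (2 * n + 4) (2 * n + 2 - 2 * k)) :
    f (6 * k + 5) (b + 22) (2 * n + 2) (2 * n + 2 - 2 * k) := by
  by_contra h5
  have hL := lw0 hs S hn
  subst hn
  have T := NHT.of_stack hs S
  have U := NHU.of_stack hs S
  obtain ⟨hk, hb, h4, hb2, hm⟩ := hs
  have C4a : Cyc f (6 * k + 4) (b + 22 - 6) (2 * (m + 9 + (k + 2) * 4 - 7) + 2) := by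
    rw [show b + 22 - 6 = b + 4 * 4 by omega, show m + 9 + (k + 2) * 4 - 7 = m + 2 + 0 + (k + 2) * 4 by omega]
    exact S.l4 4
  have C6 : Cyc f (6 * k + 6) (b + 22 - 4) (2 * (m + 9 + (k + 2) * 4 - 5) + 2) := by
    rw [show b + 22 - 4 = b + 2 + 4 * 4 by omega, show m + 9 + (k + 2) * 4 - 5 = m + 4 + 0 + (k + 2) * 4 by omega]
    exact S.l6 4
  refine Z1P.P_aux hf T U (fun {M R x y} => hL M R x y) (by rwa [show b + 22 - 6 = b + 16 by omega])
    (by rwa [show b + 22 - 4 = b + 18 by omega]) C4a C6 (X := 2 * (m + 9 + (k + 2) * 4) + 1) rfl ?_ ?_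
  · intro M R x y e1 e2 e3 e4
    have e5 : R = b + 23 := by omega
    have e6 : x = 2 * (m + 9 + (k + 2) * 4) + 4 := by omega
    have e7 : y = 2 * (m + 9 + (k + 2) * 4) + 2 - 2 * k := by omega
    rw [e1, e5, e6, e7]
    exact h
  · intro M R x y e1 e2 e3 e4 h'
    have e6 : x = 2 * (m + 9 + (k + 2) * 4) + 2 := by omega
    have e7 : y = 2 * (m + 9 + (k + 2) * 4) + 2 - 2 * k := by omega
    rw [e1, e2, e6, e7] at h'
    exact h5 h'

/-- **(C1)** the cell `P_(6k+5) c (2 n + 2) (2 n + 2 - 2 k)` excludes the out-line `2 n - 2 k - 3` of `6 k + 4` in the row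
`c - 4`. -/
theorem winC1 (hf : Rule f) (hs : Side k b m) (S : Stack6 f k b m 0 0 0 0 0 1) (hn : n = m + 9 + (k + 2) * 4)
    (d0 : Cyc f (6 * k) (b + 16) (2 * (n - k - 5) + 2)) (d2 : Cyc f (6 * k + 2) (b + 18) (2 * (n - 5) + 2))
    (h : f (6 * k + 5) (b + 22) (2 * n + 2) (2 * n + 2 - 2 * k)) :
    ¬ f (6 * k + 4) (b + 18) (2 * n - 6) (2 * n - 2 * k - 3) := by
  intro h4'
  have hL := lw0 hs S hn
  subst hn
  have T := NHT.of_stack hs S
  have U := NHU.of_stack hs S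
  obtain ⟨hk, hb, h4, hb2, hm⟩ := hs
  have C2a : Cyc f (6 * k + 2) (b + 22 - 8) (2 * (m + 9 + (k + 2) * 4 - 9) + 2) := by
    rw [show b + 22 - 8 = b + 2 + 4 * 3 by omega,
      show m + 9 + (k + 2) * 4 - 9 = m + k + 2 + 0 + (k + 2) * 3 by omega]
    exact S.l2 3
  have C4a : Cyc f (6 * k + 4) (b + 22 - 6) (2 * (m + 9 + (k + 2) * 4 - 7) + 2) := by
    rw [show b + 22 - 6 = b + 4 * 4 by omega, show m + 9 + (k + 2) * 4 - 7 = m + 2 + 0 + (k + 2) * 4 by omega]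
    exact S.l4 4
  have C8a : Cw f (6 * k + 8) (b + 22 - 6) (m + 9 + (k + 2) * 4 - (k + 5)) := by
    rw [show b + 22 - 6 = b + 4 + 4 * 3 by omega,
      show m + 9 + (k + 2) * 4 - (k + 5) = m + 6 + 0 + (k + 2) * 3 by omega]
    exact S.l8 3
  refine Z1C1.C1_aux hf T U (fun {M R x y} => hL M R x y) (by rwa [show b + 22 - 6 = b + 16 by omega])
    (by rwa [show b + 22 - 4 = b + 18 by omega]) C2a C4a C8a (X := 2 * (m + 9 + (k + 2) * 4) + 1) rfl ?_ ?_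
  · intro M R x y e1 e2 e3 e4
    have e6 : x = 2 * (m + 9 + (k + 2) * 4) + 2 := by omega
    have e7 : y = 2 * (m + 9 + (k + 2) * 4) + 2 - 2 * k := by omega
    rw [e1, e2, e6, e7]
    exact h
  · intro M R x y e1 e2 e3 e4
    have e5 : R = b + 18 := by omega
    have e6 : x = 2 * (m + 9 + (k + 2) * 4) - 6 := by omega
    have e7 : y = 2 * (m + 9 + (k + 2) * 4) - 2 * k - 3 := by omega
    rw [e1, e5, e6, e7]
    exact h4'

/-- **(C2)** the cell `P_(6k+5) c (2 n + 2) (2 n + 2 - 2 k)` excludes the out-line `2 n + 1 - 2 k` of `6 k + 6` in the row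
`c - 2`. -/
theorem winC2 (hf : Rule f) (hs : Side k b m) (S : Stack6 f k b m 0 0 0 0 0 1) (hn : n = m + 9 + (k + 2) * 4)
    (h : f (6 * k + 5) (b + 22) (2 * n + 2) (2 * n + 2 - 2 * k)) :
    ¬ f (6 * k + 6) (b + 20) (2 * n - 2) (2 * n + 1 - 2 * k) := by
  intro h6
  subst hn
  have T := NHT.of_stack hs S
  have U := NHU.of_stack hs S
  obtain ⟨hk, hb, h4, hb2, hm⟩ := hs
  have C6 : Cyc f (6 * k + 6) (b + 22 - 4) (2 * (m + 9 + (k + 2) * 4 - 5) + 2) := by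
    rw [show b + 22 - 4 = b + 2 + 4 * 4 by omega, show m + 9 + (k + 2) * 4 - 5 = m + 4 + 0 + (k + 2) * 4 by omega]
    exact S.l6 4
  have C8 : Cw f (6 * k + 8) (b + 22 - 2) (m + 9 + (k + 2) * 4 - 3) := by
    rw [show b + 22 - 2 = b + 4 + 4 * 4 by omega, show m + 9 + (k + 2) * 4 - 3 = m + 6 + 0 + (k + 2) * 4 by omega]
    exact S.l8 4
  have C10 : Cw f (6 * k + 10) (b + 22) (m + 9 + (k + 2) * 4) := by
    have h := S.l10 4
    rwa [show b + 6 + 4 * 4 = b + 22 by omega, show m + 8 + 1 + (k + 2) * 4 = m + 9 + (k + 2) * 4 by omega] at h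
  refine Z1C2.C2_aux hf T U C10 C6 C8 (X := 2 * (m + 9 + (k + 2) * 4) + 1) rfl ?_ ?_
  · intro M R x y e1 e2 e3 e4
    have e6 : x = 2 * (m + 9 + (k + 2) * 4) + 2 := by omega
    have e7 : y = 2 * (m + 9 + (k + 2) * 4) + 2 - 2 * k := by omega
    rw [e1, e2, e6, e7]
    exact h
  · intro M R x y e1 e2 e3 e4
    have e5 : R = b + 20 := by omega
    have e6 : x = 2 * (m + 9 + (k + 2) * 4) - 2 := by omega
    have e7 : y = 2 * (m + 9 + (k + 2) * 4) + 1 - 2 * k := by omega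
    rw [e1, e5, e6, e7]
    exact h6

end Pool.Agent.SNT.Z10W
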