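import Pool.Agent.SNT.E1R
import Pool.Agent.SNT.K0L4
import Pool.Agent.SNT.DRunI

set_option autoImplicit false

/-! The cell `z1` of the location of the leader `6 k + 10`: the reflection of the in-lines of `6 k + 4` at the diagonal and
the runs of the two lines from the wall of the cycle before to the wall of the cycle. -/

namespace Pool.Agent.SNT.Z1G

open Pool.Agent.SNT Pool.Agent.SNT.Sig Pool.Agent.SNT.Loc Pool.Agent.SNT.LW Pool.Agent.SNT.NHZ Pool.Agent.SNT.DRun
open Pool.Agent.SNT.D1E

variable {f : ℕ → ℕ → ℕ → ℕ → Prop}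

/-- The reflection of an in-line of `6 k + 4` (row `c - 2`, column `X ≥ 2 n - 1`) at the diagonal. -/
theorem wr4 (hf : Rule f) {k c n M X : ℕ} (H : PL f k c n M) (hX : 2 * n ≤ X + 1) (ho : X % 2 = 1)
    (h0 : f (6 * k + 4) (c - 2) X (X - 1)) : f (6 * k + 4) c (X + 5) (X + 2) := by
  by_contra z0
  have hk := H.T.hk
  have hc := H.T.hc
  have h4' := H.T.h4
  have hb := H.T.hb
  have hN := H.T.hN2
  obtain ⟨a0, ha0⟩ : ∃ z, z = 6 * k + 3 := ⟨_, rfl⟩
  obtain ⟨b0, hb0⟩ : ∃ z, z + 4 = c := ⟨c - 4, by omega⟩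
  obtain ⟨x0, hx0⟩ : ∃ z, z + 2 = X := ⟨X - 2, by omega⟩
  refine check_sound hf (a0 := a0) (b0 := b0) (x0 := x0) (y0 := x0) E1X.wr_chk
    ⟨fun _ => rfl, fun h => absurd h (by decide), fun h => absurd h (by decide), by omega, by omega,
      by omega, by omega⟩ ?_ ?_
  · intro j m p q hr h
    obtain ⟨-, -, -, -, hp1, hp2, hq1, hq2⟩ := hr
    replace h := of_decide_eq_true h
    rcases h with h | h | h | h
    · obtain ⟨rfl, rfl, h⟩ := h
      exact (WrapC.v3 H.c4a (by omega) (by omega) (by omega) (by omega) (by omega) (by omega) (by omega) (by omega)).mpr (by omega)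
    · obtain ⟨rfl, rfl, h⟩ := h
      exact (WrapC.v3 H.c6 (by omega) (by omega) (by omega) (by omega) (by omega) (by omega) (by omega) (by omega)).mpr (by omega)
    · obtain ⟨rfl, rfl, h⟩ := h
      exact (NW.w3v H.c8a (by omega) (by omega) (by omega) (by omega) (by omega) (by omega) (by omega) (by omega)).mpr (by omega)
    · obtain ⟨rfl, rfl, rfl, rfl⟩ := h
      exact mv h0 (by omega) (by omega) (by omega) (by omega)
  · intro j m p q hr h
    obtain ⟨-, -, -, -, hp1, hp2, hq1, hq2⟩ := hr
    replace h := of_decide_eq_true h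
    rcases h with h | h | h | h | h | h | h | h | h | h | h | h | h
    · obtain ⟨rfl, rfl, h⟩ := h
      exact mt (WrapC.v3 H.c4a (by omega) (by omega) (by omega) (by omega) (by omega) (by omega) (by omega) (by omega)).mp (by omega)
    · obtain ⟨rfl, rfl, h⟩ := h
      exact mt (WrapC.v3 H.c6 (by omega) (by omega) (by omega) (by omega) (by omega) (by omega) (by omega) (by omega)).mp (by omega)
    · obtain ⟨rfl, rfl, h⟩ := h
      exact mt (NW.w3v H.c8a (by omega) (by omega) (by omega) (by omega) (by omega) (by omega) (by omega) (by omega)).mp (by omega)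
    · obtain ⟨rfl, rfl, h⟩ := h
      exact NHT.pmi hf H.T (j := 1) (by omega) (by omega) (by omega) (by omega) (by omega) (by omega)
    · obtain ⟨rfl, rfl, h⟩ := h
      exact NHT.pm hf H.T (j := 0) (by omega) (by omega) (by omega) (by omega) (by omega) (by omega)
    · obtain ⟨rfl, rfl, h⟩ := h
      exact NHT.pmi hf H.T (j := 0) (by omega) (by omega) (by omega) (by omega) (by omega) (by omega)
    · obtain ⟨rfl, rfl, h⟩ := h
      exact NHT.pm hf H.T (j := 0) (by omega) (by omega) (by omega) (by omega) (by omega) (by omega)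
    · obtain ⟨rfl, rfl, h⟩ := h
      exact fun t => NHT.rm1 hf H.T (p := 0) (j := 1) (by omega) (by omega) (by omega) (by omega) (by omega) (by omega) (mv t rfl (by omega) rfl rfl)
    · obtain ⟨rfl, rfl, h⟩ := h
      exact fun t => NHT.rm1 hf H.T (p := 1) (j := 1) (by omega) (by omega) (by omega) (by omega) (by omega) (by omega) (mv t rfl (by omega) rfl rfl)
    · obtain ⟨rfl, rfl, h⟩ := h
      exact fun t => NHT.rm1 hf H.T (p := 1) (j := 0) (by omega) (by omega) (by omega) (by omega) (by omega) (by omega) (mv t rfl (by omega) rfl rfl)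
    · obtain ⟨rfl, rfl, h⟩ := h
      exact NHT.p0 hf H.T (j := 1) (by omega) (by omega) (by omega) (by omega) (by omega) (by omega)
    · obtain ⟨rfl, rfl, h⟩ := h
      exact NHT.p0 hf H.T (j := 0) (by omega) (by omega) (by omega) (by omega) (by omega) (by omega)
    · obtain ⟨rfl, rfl, rfl, rfl⟩ := h
      exact fun t => z0 (mv t (by omega) (by omega) (by omega) (by omega))

/-- one step of the run along a row -/
theorem row_step (hf : Rule f) {L R x y : ℕ} (hL : L % 2 = 0) (hR : R % 2 = 0) (hx : x % 2 = 0) (hy : y % 2 = 1)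
    (hcov : Cov f L R (x + 1) y) (h0 : f L R x y) : f L R (x + 2) y := by
  rcases hcov with h | h | h | h
  · exact absurd h (kill hf h0 0 0 1 0 (by omega) (by omega) le_rfl (by omega) (by omega))
  · exact h
  · exact absurd h (kill hf h0 0 0 1 1 (by omega) (by omega) le_rfl le_rfl (by omega))
  · exact absurd h (even_zero hf hL hR (by omega) (by omega))

/-- the run along a row -/
theorem row_run (hf : Rule f) {L R x0 x1 y : ℕ} (hL : L % 2 = 0) (hR : R % 2 = 0) (hx : x0 % 2 = 0) (hy : y % 2 = 1)
    (hcov : ∀ x, x0 ≤ x → x < x1 → x % 2 = 1 → Cov f L R x y) (h0 : f L R x0 y) :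
    ∀ x, x0 ≤ x → x ≤ x1 → x % 2 = 0 → f L R x y := by
  have key : ∀ j, x0 + 2 * j ≤ x1 → f L R (x0 + 2 * j) y := by
    intro j
    induction j with
    | zero => exact fun _ => h0
    | succ j ih =>
      intro hj
      have e1 : x0 + 2 * (j + 1) = x0 + 2 * j + 2 := by ring
      rw [e1]
      exact row_step hf (x := x0 + 2 * j) hL hR (by omega) hy
        (hcov (x0 + 2 * j + 1) (by omega) (by omega) (by omega)) (ih (by omega))
  intro x h1 h2 h3
  have h4 := key ((x - x0) / 2) (by omega)
  have h5 : x0 + 2 * ((x - x0) / 2) = x := by omega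
  rwa [h5] at h4

/-- `6 k + 6`: from the wall of the row `c` (in-line `2 n + 3`) to the wall of the row `c + 2` -/
theorem line6 (hf : Rule f) {k c n M : ℕ} (H : PL f k c n M)
    (h0 : f (6 * k + 6) c (2 * n + 3) (2 * n + 6 - 2 * k)) :
    f (6 * k + 6) (c + 2) (2 * n + 2 * k + 2) (2 * n + 5) := by
  have hk := H.T.hk
  have hc := H.T.hc
  have hN := H.T.hN2
  have h3 := run6 hf H.T (x := 2 * n + 3) (y0 := 2 * n + 6 - 2 * k) (by omega) (by omega) (by omega) (by omega) h0
    (2 * n + 2) (by omega) (by omega) (by omega)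
  have h4 := E1X.wr hf H (X := 2 * n + 3) (by omega) (by omega) h3
  exact row_run hf (x1 := 2 * n + 2 * k + 2) (by omega) (by omega) (by omega) (by omega)
    (fun z h5 h6 h7 => H.T.c2 hf (j := 2) (by omega) (by omega) (by omega) (by omega) (by omega) (by omega)) h4 _
    (by omega) le_rfl (by omega)

/-- `6 k + 4`: from the wall of the row `c - 2` (in-line `2 n - 1`) to the wall of the row `c` -/
theorem line4 (hf : Rule f) {k c n M : ℕ} (H : PL f k c n M)
    (h0 : f (6 * k + 4) (c - 2) (2 * n - 1) (2 * n + 4 - 2 * k)) :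
    f (6 * k + 4) c (2 * n + 2 * k - 2) (2 * n + 1) := by
  have hk := H.T.hk
  have hc := H.T.hc
  have hN := H.T.hN2
  have h3 := K0L4.run4 hf (x := 2 * n - 1) (y0 := 2 * n + 4 - 2 * k) H.T H.c4a H.c6 (by omega) (by omega) (by omega)
    (by omega) h0 (2 * n - 2) (by omega) (by omega) (by omega)
  have h4 := wr4 hf H (X := 2 * n - 1) (by omega) (by omega) (mv h3 rfl rfl rfl (by omega))
  exact row_run hf (x0 := 2 * n + 4) (x1 := 2 * n + 2 * k - 2) (by omega) (by omega) (by omega) (by omega)
    (fun z h5 h6 h7 => H.T.c0 hf (j := 2) (by omega) (by omega) (by omega) (by omega) (by omega) (by omega))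
    (mv h4 rfl rfl (by omega) (by omega)) _ (by omega) le_rfl (by omega)

end Pool.Agent.SNT.Z1G
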