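import Pool.Agent.SNT.LL10

set_option autoImplicit false
set_option synthInstance.maxSize 100000
set_option synthInstance.maxHeartbeats 4000000

/-! z1: near the wall one of the in-lines `x = 2 n + 3` of `6 k + 6` and `x = 2 n - 1` of `6 k + 4` is present. -/

namespace Pool.Agent.SNT.Z1K

open Pool.Agent.SNT Pool.Agent.SNT.Loc Pool.Agent.SNT.LW

variable {f : ℕ → ℕ → ℕ → ℕ → Prop}

theorem cyc_of {a b K b' K' : ℕ} (C : Cyc f a b K) (hb : b' = b) (hK : K' = K) : Cyc f a b' K' := by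
  subst hb hK
  exact C

theorem cw_of {a b n b' n' : ℕ} (C : Cw f a b n) (hb : b' = b) (hn : n' = n) : Cw f a b' n' := by
  subst hb hn
  exact C

theorem k46_chk : check 12 8 11 19 0 0 0 1 0
    (fun j n p q => decide ((j = 12 ∧ n = 1 ∧ ((p + q + 1) % 2 = 0 ∧ q ≤ p + 1 ∧ (p + q + 1) % 4 = 2))
      ∨ (j = 4 ∧ n = 1 ∧ ((p + q + 1) % 2 = 0 ∧ q ≤ p + 3 ∧ (p + q + 1) % 4 = 0))
      ∨ (j = 6 ∧ n = 1 ∧ ((p + q + 1) % 2 = 0 ∧ q ≤ p + 3 ∧ (p + q + 3) % 4 = 0))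
      ∨ (j = 6 ∧ n = 2 ∧ ((5 ≤ p) ∨ (q ≤ p + 3) ∨ (p + 4 ≤ q ∧ 9 ≤ q)) ∧ (((p + q + 1) % 2 = 1 ∧ p + 4 ≤ q ∧ p % 2 = 0) ∨ ((p + q + 1) % 2 = 1 ∧ q ≤ p + 4 ∧ (p + q) % 4 = 0)))
      ∨ (j = 6 ∧ n = 3 ∧ ((7 ≤ p) ∨ (p + 4 ≤ q ∧ 11 ≤ q)) ∧ ((p + q + 1) % 2 = 0 ∧ q ≤ p + 3 ∧ (p + q + 1) % 4 = 0))
      ∨ (j = 6 ∧ n = 4 ∧ 9 ≤ p ∧ (((p + q + 1) % 2 = 1 ∧ p + 4 ≤ q ∧ p % 2 = 1) ∨ ((p + q + 1) % 2 = 1 ∧ q ≤ p + 4 ∧ (p + q + 2) % 4 = 0)))
      ∨ (j = 8 ∧ n = 1 ∧ ((p + q + 1) % 2 = 0 ∧ q ≤ p + 1 ∧ (p + q + 1) % 4 = 2))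
      ∨ (j = 10 ∧ n = 1 ∧ ((p + q + 1) % 2 = 0 ∧ q ≤ p + 1 ∧ (p + q + 3) % 4 = 2))
      ∨ (j = 12 ∧ n = 3 ∧ ((p + q + 1) % 2 = 0 ∧ q ≤ p + 1 ∧ (p + q + 3) % 4 = 2))
      ∨ (j = 12 ∧ n = 5 ∧ ((p + 2 ≤ q ∧ 9 ≤ q) ∨ (8 ≤ p)) ∧ ((p + q + 1) % 2 = 0 ∧ q ≤ p + 1 ∧ (p + q + 1) % 4 = 2))
      ∨ (j = 2 ∧ n = 1 ∧ ((p + q + 1) % 2 = 0 ∧ q ≤ p + 3 ∧ (p + q + 3) % 4 = 0))
      ∨ (j = 2 ∧ n = 2 ∧ (((p + q + 1) % 2 = 1 ∧ p + 4 ≤ q ∧ p % 2 = 0) ∨ ((p + q + 1) % 2 = 1 ∧ q ≤ p + 4 ∧ (p + q) % 4 = 0)))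
      ∨ (j = 2 ∧ n = 3 ∧ ((p + q + 1) % 2 = 0 ∧ q ≤ p + 3 ∧ (p + q + 1) % 4 = 0))
      ∨ (j = 4 ∧ n = 2 ∧ (((p + q + 1) % 2 = 1 ∧ p + 4 ≤ q ∧ p % 2 = 1) ∨ ((p + q + 1) % 2 = 1 ∧ q ≤ p + 4 ∧ (p + q + 2) % 4 = 0)))
      ∨ (j = 4 ∧ n = 3 ∧ ((p + q + 1) % 2 = 0 ∧ q ≤ p + 3 ∧ (p + q + 3) % 4 = 0))
      ∨ (j = 4 ∧ n = 4 ∧ q ≤ p + 3 ∧ (((p + q + 1) % 2 = 1 ∧ p + 4 ≤ q ∧ p % 2 = 0) ∨ ((p + q + 1) % 2 = 1 ∧ q ≤ p + 4 ∧ (p + q) % 4 = 0)))
      ∨ (j = 8 ∧ n = 2 ∧ (((p + q + 1) % 2 = 1 ∧ p + 2 ≤ q ∧ p % 2 = 1) ∨ ((p + q + 1) % 2 = 1 ∧ q ≤ p + 2 ∧ (p + q + 2) % 4 = 2)))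
      ∨ (j = 8 ∧ n = 4 ∧ q ≤ p + 1 ∧ (((p + q + 1) % 2 = 1 ∧ p + 2 ≤ q ∧ p % 2 = 0) ∨ ((p + q + 1) % 2 = 1 ∧ q ≤ p + 2 ∧ (p + q) % 4 = 2)))
      ∨ (j = 10 ∧ n = 4 ∧ ((p + 4 ≤ q) ∨ (3 ≤ p)) ∧ (((p + q + 1) % 2 = 1 ∧ p + 2 ≤ q ∧ p % 2 = 1) ∨ ((p + q + 1) % 2 = 1 ∧ q ≤ p + 2 ∧ (p + q + 2) % 4 = 2)))
      ∨ (j = 10 ∧ n = 5 ∧ ((2 ≤ p ∧ p + 4 ≤ q) ∨ (5 ≤ p)) ∧ ((p + q + 1) % 2 = 0 ∧ q ≤ p + 1 ∧ (p + q + 3) % 4 = 2))
      ∨ (j = 10 ∧ n = 6 ∧ q ≤ p + 1 ∧ 7 ≤ p ∧ (((p + q + 1) % 2 = 1 ∧ p + 2 ≤ q ∧ p % 2 = 0) ∨ ((p + q + 1) % 2 = 1 ∧ q ≤ p + 2 ∧ (p + q) % 4 = 2)))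
      ∨ (j = 12 ∧ n = 6 ∧ ((7 ≤ p ∧ p + 4 ≤ q) ∨ (9 ≤ p)) ∧ (((p + q + 1) % 2 = 1 ∧ p + 2 ≤ q ∧ p % 2 = 1) ∨ ((p + q + 1) % 2 = 1 ∧ q ≤ p + 2 ∧ (p + q + 2) % 4 = 2)))
      ∨ (j = 2 ∧ n = 4 ∧ (((p + q + 1) % 2 = 1 ∧ p + 4 ≤ q ∧ p % 2 = 1) ∨ ((p + q + 1) % 2 = 1 ∧ q ≤ p + 4 ∧ (p + q + 2) % 4 = 0)))
      ∨ (j = 2 ∧ n = 5 ∧ ((3 ≤ p) ∨ (p + 3 ≤ q ∧ 2 ≤ p)) ∧ ((p + q + 1) % 2 = 0 ∧ q ≤ p + 3 ∧ (p + q + 3) % 4 = 0))))
    (fun j n p q => decide ((j = 12 ∧ n = 1 ∧ ¬ ((p + q + 1) % 2 = 0 ∧ q ≤ p + 1 ∧ (p + q + 1) % 4 = 2))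
      ∨ (j = 4 ∧ n = 1 ∧ ¬ ((p + q + 1) % 2 = 0 ∧ q ≤ p + 3 ∧ (p + q + 1) % 4 = 0))
      ∨ (j = 6 ∧ n = 1 ∧ ¬ ((p + q + 1) % 2 = 0 ∧ q ≤ p + 3 ∧ (p + q + 3) % 4 = 0))
      ∨ (j = 6 ∧ n = 2 ∧ ((5 ≤ p) ∨ (q ≤ p + 3) ∨ (p + 4 ≤ q ∧ 9 ≤ q)) ∧ ¬ (((p + q + 1) % 2 = 1 ∧ p + 4 ≤ q ∧ p % 2 = 0) ∨ ((p + q + 1) % 2 = 1 ∧ q ≤ p + 4 ∧ (p + q) % 4 = 0)))
      ∨ (j = 6 ∧ n = 3 ∧ ((7 ≤ p) ∨ (p + 4 ≤ q ∧ 11 ≤ q)) ∧ ¬ ((p + q + 1) % 2 = 0 ∧ q ≤ p + 3 ∧ (p + q + 1) % 4 = 0))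
      ∨ (j = 6 ∧ n = 4 ∧ 9 ≤ p ∧ ¬ (((p + q + 1) % 2 = 1 ∧ p + 4 ≤ q ∧ p % 2 = 1) ∨ ((p + q + 1) % 2 = 1 ∧ q ≤ p + 4 ∧ (p + q + 2) % 4 = 0)))
      ∨ (j = 8 ∧ n = 1 ∧ ¬ ((p + q + 1) % 2 = 0 ∧ q ≤ p + 1 ∧ (p + q + 1) % 4 = 2))
      ∨ (j = 10 ∧ n = 1 ∧ ¬ ((p + q + 1) % 2 = 0 ∧ q ≤ p + 1 ∧ (p + q + 3) % 4 = 2))
      ∨ (j = 12 ∧ n = 3 ∧ ¬ ((p + q + 1) % 2 = 0 ∧ q ≤ p + 1 ∧ (p + q + 3) % 4 = 2))
      ∨ (j = 12 ∧ n = 5 ∧ ((p + 2 ≤ q ∧ 9 ≤ q) ∨ (8 ≤ p)) ∧ ¬ ((p + q + 1) % 2 = 0 ∧ q ≤ p + 1 ∧ (p + q + 1) % 4 = 2))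
      ∨ (j = 2 ∧ n = 1 ∧ ¬ ((p + q + 1) % 2 = 0 ∧ q ≤ p + 3 ∧ (p + q + 3) % 4 = 0))
      ∨ (j = 2 ∧ n = 2 ∧ ¬ (((p + q + 1) % 2 = 1 ∧ p + 4 ≤ q ∧ p % 2 = 0) ∨ ((p + q + 1) % 2 = 1 ∧ q ≤ p + 4 ∧ (p + q) % 4 = 0)))
      ∨ (j = 2 ∧ n = 3 ∧ ¬ ((p + q + 1) % 2 = 0 ∧ q ≤ p + 3 ∧ (p + q + 1) % 4 = 0))
      ∨ (j = 4 ∧ n = 2 ∧ ¬ (((p + q + 1) % 2 = 1 ∧ p + 4 ≤ q ∧ p % 2 = 1) ∨ ((p + q + 1) % 2 = 1 ∧ q ≤ p + 4 ∧ (p + q + 2) % 4 = 0)))
      ∨ (j = 4 ∧ n = 3 ∧ ¬ ((p + q + 1) % 2 = 0 ∧ q ≤ p + 3 ∧ (p + q + 3) % 4 = 0))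
      ∨ (j = 4 ∧ n = 4 ∧ q ≤ p + 3 ∧ ¬ (((p + q + 1) % 2 = 1 ∧ p + 4 ≤ q ∧ p % 2 = 0) ∨ ((p + q + 1) % 2 = 1 ∧ q ≤ p + 4 ∧ (p + q) % 4 = 0)))
      ∨ (j = 8 ∧ n = 2 ∧ ¬ (((p + q + 1) % 2 = 1 ∧ p + 2 ≤ q ∧ p % 2 = 1) ∨ ((p + q + 1) % 2 = 1 ∧ q ≤ p + 2 ∧ (p + q + 2) % 4 = 2)))
      ∨ (j = 8 ∧ n = 4 ∧ q ≤ p + 1 ∧ ¬ (((p + q + 1) % 2 = 1 ∧ p + 2 ≤ q ∧ p % 2 = 0) ∨ ((p + q + 1) % 2 = 1 ∧ q ≤ p + 2 ∧ (p + q) % 4 = 2)))
      ∨ (j = 10 ∧ n = 4 ∧ ((p + 4 ≤ q) ∨ (3 ≤ p)) ∧ ¬ (((p + q + 1) % 2 = 1 ∧ p + 2 ≤ q ∧ p % 2 = 1) ∨ ((p + q + 1) % 2 = 1 ∧ q ≤ p + 2 ∧ (p + q + 2) % 4 = 2)))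
      ∨ (j = 10 ∧ n = 5 ∧ ((2 ≤ p ∧ p + 4 ≤ q) ∨ (5 ≤ p)) ∧ ¬ ((p + q + 1) % 2 = 0 ∧ q ≤ p + 1 ∧ (p + q + 3) % 4 = 2))
      ∨ (j = 10 ∧ n = 6 ∧ q ≤ p + 1 ∧ 7 ≤ p ∧ ¬ (((p + q + 1) % 2 = 1 ∧ p + 2 ≤ q ∧ p % 2 = 0) ∨ ((p + q + 1) % 2 = 1 ∧ q ≤ p + 2 ∧ (p + q) % 4 = 2)))
      ∨ (j = 12 ∧ n = 6 ∧ ((7 ≤ p ∧ p + 4 ≤ q) ∨ (9 ≤ p)) ∧ ¬ (((p + q + 1) % 2 = 1 ∧ p + 2 ≤ q ∧ p % 2 = 1) ∨ ((p + q + 1) % 2 = 1 ∧ q ≤ p + 2 ∧ (p + q + 2) % 4 = 2)))
      ∨ (j = 2 ∧ n = 4 ∧ ¬ (((p + q + 1) % 2 = 1 ∧ p + 4 ≤ q ∧ p % 2 = 1) ∨ ((p + q + 1) % 2 = 1 ∧ q ≤ p + 4 ∧ (p + q + 2) % 4 = 0)))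
      ∨ (j = 2 ∧ n = 5 ∧ ((3 ≤ p) ∨ (p + 3 ≤ q ∧ 2 ≤ p)) ∧ ¬ ((p + q + 1) % 2 = 0 ∧ q ≤ p + 3 ∧ (p + q + 3) % 4 = 0))
      ∨ (j = 1)
      ∨ (j = 3 ∧ n = 6 ∧ p ≤ 5 ∧ 10 ≤ q ∧ q ≤ 16)
      ∨ (j = 5 ∧ n = 6 ∧ 3 ≤ p ∧ p ≤ 5 ∧ 11 ≤ q ∧ q ≤ 16)
      ∨ (j = 5 ∧ n = 6 ∧ 2 ≤ p ∧ p ≤ 2 ∧ 11 ≤ q ∧ q ≤ 14)
      ∨ (j = 5 ∧ n = 6 ∧ p ≤ 1 ∧ 13 ≤ q ∧ q ≤ 14)
      ∨ (j = 7 ∧ n = 6 ∧ 4 ≤ p ∧ p ≤ 5 ∧ 12 ≤ q ∧ q ≤ 16)
      ∨ (j = 7 ∧ n = 6 ∧ 3 ≤ p ∧ p ≤ 3 ∧ 12 ≤ q ∧ q ≤ 14)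
      ∨ (j = 7 ∧ n = 6 ∧ 2 ≤ p ∧ p ≤ 2 ∧ 14 ≤ q ∧ q ≤ 14)
      ∨ (j = 11 ∧ n = 6 ∧ 5 ≤ p ∧ p ≤ 5 ∧ 14 ≤ q ∧ q ≤ 14)
      ∨ (j = 5 ∧ n = 6 ∧ 6 ≤ p ∧ p ≤ 6 ∧ 13 ≤ q)
      ∨ (j = 7 ∧ n = 6 ∧ 6 ≤ p ∧ p ≤ 6 ∧ 13 ≤ q)
      ∨ (j = 9 ∧ n = 6 ∧ 6 ≤ p ∧ p ≤ 6 ∧ 13 ≤ q)
      ∨ (j = 6 ∧ n = 6 ∧ 5 ≤ p ∧ p ≤ 5 ∧ 13 ≤ q ∧ q ≤ 15 ∧ q % 2 = 1)
      ∨ (j = 6 ∧ n = 6 ∧ 3 ≤ p ∧ p ≤ 3 ∧ 13 ≤ q ∧ q ≤ 13 ∧ q % 2 = 1)
      ∨ (j = 4 ∧ n = 6 ∧ 6 ≤ p ∧ p ≤ 6 ∧ 12 ≤ q ∧ q ≤ 16 ∧ q % 2 = 0)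
      ∨ (j = 8 ∧ n = 6 ∧ 6 ≤ p ∧ p ≤ 6 ∧ 14 ≤ q ∧ q ≤ 16 ∧ q % 2 = 0)
      ∨ (j = 4 ∧ n = 5 ∧ p ≤ 6 ∧ 10 ≤ q ∧ p + 5 ≤ q)
      ∨ (j = 5 ∧ n = 5 ∧ p ≤ 6 ∧ 10 ≤ q ∧ p + 6 ≤ q)
      ∨ (j = 6 ∧ n = 5 ∧ p ≤ 6 ∧ 10 ≤ q ∧ p + 6 ≤ q)
      ∨ (j = 7 ∧ n = 5 ∧ 2 ≤ p ∧ p ≤ 6 ∧ 10 ≤ q ∧ p + 7 ≤ q)
      ∨ (j = 8 ∧ n = 5 ∧ 2 ≤ p ∧ p ≤ 6 ∧ 10 ≤ q ∧ p + 7 ≤ q)
      ∨ (j = 9 ∧ n = 5 ∧ 3 ≤ p ∧ p ≤ 6 ∧ 10 ≤ q ∧ p + 8 ≤ q)
      ∨ (j = 8 ∧ n = 6 ∧ p = 7 ∧ q = 13)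
      ∨ (j = 6 ∧ n = 4 ∧ p = 3 ∧ q = 11)))
    1029
    0x1f45831fae002020ba1c14031fc0802029aa1cdb002028d21c5f8318a88018a88114f18014f181198305163500198c92163f1a163f8016400a198d8316360016360416400312f18012f184163f03198300163600198c9216401a164900164904156e00156e01149300149301198d8315d68015d68115058015058114898014898415d58015d581155980189e4a155a8018a8da1c5f8318a88018a88416400312890012890414fb0014fb01147f00147f04156f0018bcd21bf70318a88018a88114f18014fb12156d80156e0a156e80156e8414fc0310dd0010dd041f4d8318bc0018bc041cda801cda841cdc03198d80198d841c14031c7c801c7c841c7b031c7b801c7b8414e70315500015500414fb03183f80183f841f4d8318bc0018bc8a15e10015e1041c0a831fb7001fb70416400315cd0015cd0414f203183600183604147f0314e80014e8040f4f031293001293040fb70312fb0012fb04198e831640001640041c09831c0a001c0a0417c40314e88014e8840f44031288001288040edc03122000122004150f0318530018530414f18318358018358417c30310c8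8010c8841f580318c60018c6041c01031c69801c698415ce03155b00155b041f4e031fb6801fb684182b03182b80182b840f44030f44800f448426b003201e80201e84122a8312930016406a19840019840415f30319370019370426bb832029802029841f4f0318bd0018bd041f4e8318bc8018bc8415630315cb8015cb8426ba832028802028841f58831fc1001fc1041f450318b38018b3841f3a831bf7001bf7041f26831894801894841cdc801cdc840ed3831217801217841f3a8318a90018a9041be303182c00182c041f4d831fb6001fb6041f278318958018958415e0031924001924041bf7031c5f801c5f8418c683192f00192f0415df031648001648041bed031c55801c558426b103201f80201f841f4f831fb8001fb80415630315cc0015cc041f270318950018950417c30310c90010c90426b2832020802020840edc030f45000f450418bd03192580192584150f031578001578041f3a831bf7001bf78a1bf8001bf8041f39831bf6001bf6041f3083189e80189e8418a9031911801911840f44030fad000fad041c0b031c73801c73841f58831c7d001c7d04091c030c60000fae5a12f20012f204269c03269c8026a69a2363002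3630414fc0310dc8010dc840ed4031218001218041f57031fc0001fc0041f3003189e00189e040f5803129c00129c041f1c03182180182b121130801130841f3a831c5f001c5f041f2583182b00182b0417cd8314f20014f2040ed2830f3b800f3b8418bb0318bb8018bb840c69030c69800c6984164803198c00198c0414fb0314fb8014fb8414fb031564001564041f25831be2001f26ca1be3001be30417d70314fc0014fc0418bc8319250019250414fc031840001840040925030c69000c69041f590318c70018c7041f448318b28018b2841fbf032028002028041c7b031ce4001ce40414f2831836801836841c13031c7c001c7c041f2f03189d80189d84182b0318940018940426ba8323770023770417c30314e78014e7841f3103189f00189f0415df0315df8015df8412880312f10012f1041f4f031fb7801fb7840925030c69000fb6d212fa8012fa8426b103201f00201f041f588318c68018c6840f3a83127e80127e8417c4831476001476041f430318b18018b184128803128880128884183f0318a80018a8041f450318b30018b30426ba832029002029040f4e8312928012928414e883182c80182c8417cd8314f28014f2841923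0319238019238412200312208012208429ea83269c00269c040fc0031304001304040ed2830ed3000ed3041c0a031c72801c728426b20320200020200414e903182d00182d041f4d831c72001c720415770315e00015e00426b0031fb5801fb5840ed2831216801216841c0a831c73001c73040c69030c69800fb7da12fb8012fb841f3b8318a98018a9840f5803129c0015e9d2192d80192d841c0b831c74001c74040f46031221801221840edd031221001221041b8c001b7800158000156c001ba0001ed0421ebc42158001150d00150400156c0114f90014f0000f61000f4d00092e002a000029ff0029fe0029ed0029ec0029eb00230d0022f90022e50022a70022a60022a500229400229300229200229100228000227f00227e00227d00226c00226b00226a002269002257002256001c08001b3a001b39001b38001ba0011b2d001b27001b26001b25001b24001b19001b13001b12001b11001b10001b05001aff001afe001afd001afc001ab1001a9d0015230015180014bb0014b00014a90014a80014a70014a500149c00150d01149a0014950014940015040114910014880014f90114860014810014f001147d00147400143d001434001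42000140c000f02000ef9000f61010eee000ee5000f4d010eda000ed1000e9a000e8f000e86000e7d000e7b000e72000e69000e67000e5e000e55000e27000e1e000e1c000e15000e13000e0a000e08000e02000e01000dff000df6000def000dee000ded000db6000db4000dab000da2000da0000d97000d8e000d8c000d830008cf0008c600092e0108bb0008b200087000086700085e00085c00085300084c00084b00084a0008390008380008370008360008080007ff0007f40007eb0007e00007d700078400078300077100077000076f002a000f29ff0f29fe0f29ed0f29ec0f29eb0f29e087298207298187297887297807236e87236d87236c87236b87235887235787230f07230e87230e07230d87230d0f23060723058723050723048723040723038723030722fc8722fc0722fb8722fb0722fa8722fa0722f98722f90f22f08722f00722ef8722ef0722e60722e58722e50f22a70f22a60f22a50f22940f22930f22920f22910f22800f227f0f227e0f227d0f226c0f226b0f226a0f22690f22570f22560f2017072016871fae871ce5871ce4871cdc071cd3071cd2871c6a871c6a071c56071c14871c13871c12871c12071c08871c08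0f1c01871c00871bff871bfe871bed871bec871beb871bea871bd9871bd8871bd7871b3a0f1b390f1b380f1b37871b37071b2e071b2d871b2d0f1b270f1b260f1b250f1b240f1b23871b23071b1a071b19871b190f1b130f1b120f1b110f1b100f1b0f871b0f071b06071b05871b050f1aff0f1afe0f1afd0f1afc0f1ab10f1a9d0f198e87198507198487192607191c87191c07191207164a8716498716488716478716410716368716358715e20715e18715d88715d80715d78715ce0715cd8715c48715c407158a87157887157787157687156587156487156387156287155c0715508715230f151a0715198715180f15178715170715108715100715070715068714bb0f14b00f14a90f14a80f14a70f14a68714a60714a50f14a48714a407149d07149c87149c0f149b87149b07149a87149a0f14950f14940f14938714928714920714918714910f149087149007148a0714888714880f14878714870714868714860f14810f148087147f87147e87147e07147d87147d0f14770714748714740f143d0f14340f142a87142a0714210714208714200f141807141787141707141687141607140e87140e07140d87140d07140c87140c0f12fc071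2f287129387128a071289871280871280070fbf870fad870fac870f4f070f46070f45870f3c870f3c070f020f0ef90f0ef8870ef8070eef870eef070eee870eee0f0ee5870ee50f0ee4870ee4070edd870edc870edb870edb070eda870eda0f0ed1870ed10f0eca870ec9870ec8870e9a0f0e8f0f0e860f0e7e070e7d870e7d0f0e7b0f0e74870e74070e73870e73070e720f0e6b870e6b070e6a870e6a070e69870e690f0e670f0e62070e61870e61070e60870e60070e5e0f0e550f0e270f0e1e0f0e1c0f0e150f0e130f0e0a0f0e080f0e020f0e010f0dff0f0df60f0def0f0dee0f0ded0f0db60f0db40f0dab0f0da20f0da00f0d970f0d8e0f0d8c0f0d830f0c73870c6a070c608709248709128708cf0f08c60f08c58708c50708bc8708bc0708bb8708bb0f08b38708b30708b28708b20f08aa0708a98708700f08670f085e0f085c0f08530f084c0f084b0f084a0f08390f08380f08370f08360f08080f07ff0f07f40f07eb0f07e00f07d70f07840f07830f07710f07700f076f0f05ea0705e98705e10705e08705e00705d80705d78705d70705ce8705ce07058187058107057887057807057787056f87056f07056e87056607056587 = true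 := by
  decide +kernel

theorem k46_aux (hf : Rule f) {k c n : ℕ} (hk : 8 ≤ k) (hc : 100 * k + 1000 ≤ c) (h4 : (6 * k + c) % 4 = 0)
    (hn : c ≤ n)
    (hL : ∀ {M R x y : ℕ}, M + 1 = 6 * k → c ≤ R + 10 → R ≤ c → 2 * n ≤ x + 20 → y ≤ x → x ≤ y + 4 * k → ¬ f M R x y)
    (C10b : Cw f (6 * k + 10) (c - 8) (n - (2 * k + 4)))
    (C2a : Cyc f (6 * k + 2) (c - 8) (2 * (n - (k + 7)) + 2))
    (C4a : Cyc f (6 * k + 4) (c - 6) (2 * (n - (k + 1)) + 2))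
    (C6a : Cyc f (6 * k + 6) (c - 8) (2 * (n - (k + 7)) + 2))
    (C8a : Cw f (6 * k + 8) (c - 6) (n - (k + 5)))
    (C10a : Cw f (6 * k + 10) (c - 4) (n - (k + 2)))
    (C0 : Cyc f (6 * k) (c - 6) (2 * (n - (k + 5)) + 2))
    (C2 : Cyc f (6 * k + 2) (c - 4) (2 * (n - 5) + 2))
    (C6 : Cyc f (6 * k + 6) (c - 4) (2 * (n - 5) + 2))
    (C8 : Cw f (6 * k + 8) (c - 2) (n - 3))
    (C10 : Cw f (6 * k + 10) c (n))
    (C0c : Cyc f (6 * k) (c - 2) (2 * (n - 3) + 2))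
    (I : LineR0.In f (6 * k) c n (n + 2 - k) (n - 5) (n - 4))
    (h1 : ∀ {M R x y : ℕ}, M = 6 * k + 6 → R = c → x = 2 * n + 3 → y + 2 * k = 2 * n + 6 → ¬ f M R x y)
    (h2 : ∀ {M R x y : ℕ}, M = 6 * k + 4 → R + 2 = c → x + 1 = 2 * n → y + 2 * k = 2 * n + 4 → ¬ f M R x y) : False := by
  obtain ⟨a0, ha0⟩ : ∃ z, z + 2 = 6 * k := ⟨6 * k - 2, by omega⟩
  obtain ⟨b0, hb0⟩ : ∃ z, z + 6 = c := ⟨c - 6, by omega⟩
  obtain ⟨x0, hx0⟩ : ∃ z, z + 4 = 2 * n := ⟨2 * n - 4, by omega⟩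
  obtain ⟨y0, hy0⟩ : ∃ z, z + 2 * k + 7 = 2 * n := ⟨2 * n - 2 * k - 7, by omega⟩
  refine check_sound hf (a0 := a0) (b0 := b0) (x0 := x0) (y0 := y0) k46_chk
    ⟨fun h => absurd h (by decide), fun h => absurd h (by decide), fun h => absurd h (by decide), by omega, by omega,
      by omega, by omega⟩ ?_ ?_
  · intro j m p q hr h
    obtain ⟨-, -, hm1, hm2, hp1, hp2, hq1, hq2⟩ := hr
    replace h := of_decide_eq_true h
    rcases h with h | h | h | h | h | h | h | h | h | h | h | h | h | h | h | h | h | h | h | h | h | h | h | h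
    · obtain ⟨rfl, rfl, h⟩ := h
      exact (NW.w3v C10b (by omega) (by omega) (by omega) (by omega) (by omega) (by omega) (by omega) (by omega)).mpr (by omega)
    · obtain ⟨rfl, rfl, h⟩ := h
      exact (WrapC.v3 C2a (by omega) (by omega) (by omega) (by omega) (by omega) (by omega) (by omega) (by omega)).mpr (by omega)
    · obtain ⟨rfl, rfl, h⟩ := h
      exact (WrapC.v1 C4a (by omega) (by omega) (by omega) (by omega) (by omega) (by omega) (by omega) (by omega)).mpr (by omega)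
    · obtain ⟨rfl, rfl, h⟩ := h
      exact (WrapC.v2 C4a (by omega) (by omega) (by omega) (by omega) (by omega) (by omega) (by omega)).mpr (by omega)
    · obtain ⟨rfl, rfl, h⟩ := h
      exact (WrapC.v3 C4a (by omega) (by omega) (by omega) (by omega) (by omega) (by omega) (by omega) (by omega)).mpr (by omega)
    · obtain ⟨rfl, rfl, h⟩ := h
      exact (WrapC.v4 C4a (by omega) (by omega) (by omega) (by omega) (by omega) (by omega) (by omega)).mpr (by omega)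
    · obtain ⟨rfl, rfl, h⟩ := h
      exact (WrapC.v3 C6a (by omega) (by omega) (by omega) (by omega) (by omega) (by omega) (by omega) (by omega)).mpr (by omega)
    · obtain ⟨rfl, rfl, h⟩ := h
      exact (NW.w1v C8a (by omega) (by omega) (by omega) (by omega) (by omega) (by omega) (by omega) (by omega)).mpr (by omega)
    · obtain ⟨rfl, rfl, h⟩ := h
      exact (NW.w1v C10a (by omega) (by omega) (by omega) (by omega) (by omega) (by omega) (by omega) (by omega)).mpr (by omega)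
    · obtain ⟨rfl, rfl, h⟩ := h
      exact (NW.w3v C10a (by omega) (by omega) (by omega) (by omega) (by omega) (by omega) (by omega) (by omega)).mpr (by omega)
    · obtain ⟨rfl, rfl, h⟩ := h
      exact (WrapC.v1 C0 (by omega) (by omega) (by omega) (by omega) (by omega) (by omega) (by omega) (by omega)).mpr (by omega)
    · obtain ⟨rfl, rfl, h⟩ := h
      exact (WrapC.v2 C0 (by omega) (by omega) (by omega) (by omega) (by omega) (by omega) (by omega)).mpr (by omega)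
    · obtain ⟨rfl, rfl, h⟩ := h
      exact (WrapC.v3 C0 (by omega) (by omega) (by omega) (by omega) (by omega) (by omega) (by omega) (by omega)).mpr (by omega)
    · obtain ⟨rfl, rfl, h⟩ := h
      exact (WrapC.v0 C2 (by omega) (by omega) (by omega) (by omega) (by omega) (by omega) (by omega)).mpr (by omega)
    · obtain ⟨rfl, rfl, h⟩ := h
      exact (WrapC.v1 C2 (by omega) (by omega) (by omega) (by omega) (by omega) (by omega) (by omega) (by omega)).mpr (by omega)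
    · obtain ⟨rfl, rfl, h⟩ := h
      exact (WrapC.v2 C2 (by omega) (by omega) (by omega) (by omega) (by omega) (by omega) (by omega)).mpr (by omega)
    · obtain ⟨rfl, rfl, h⟩ := h
      exact (WrapC.v0 C6 (by omega) (by omega) (by omega) (by omega) (by omega) (by omega) (by omega)).mpr (by omega)
    · obtain ⟨rfl, rfl, h⟩ := h
      exact (WrapC.v2 C6 (by omega) (by omega) (by omega) (by omega) (by omega) (by omega) (by omega)).mpr (by omega)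
    · obtain ⟨rfl, rfl, h⟩ := h
      exact (NW.w0v C8 (by omega) (by omega) (by omega) (by omega) (by omega) (by omega) (by omega)).mpr (by omega)
    · obtain ⟨rfl, rfl, h⟩ := h
      exact (NW.w1v C8 (by omega) (by omega) (by omega) (by omega) (by omega) (by omega) (by omega) (by omega)).mpr (by omega)
    · obtain ⟨rfl, rfl, h⟩ := h
      exact (NW.w2v C8 (by omega) (by omega) (by omega) (by omega) (by omega) (by omega) (by omega)).mpr (by omega)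
    · obtain ⟨rfl, rfl, h⟩ := h
      exact (NW.w0v C10 (by omega) (by omega) (by omega) (by omega) (by omega) (by omega) (by omega)).mpr (by omega)
    · obtain ⟨rfl, rfl, h⟩ := h
      exact (WrapC.v0 C0c (by omega) (by omega) (by omega) (by omega) (by omega) (by omega) (by omega)).mpr (by omega)
    · obtain ⟨rfl, rfl, h⟩ := h
      exact (WrapC.v1 C0c (by omega) (by omega) (by omega) (by omega) (by omega) (by omega) (by omega) (by omega)).mpr (by omega)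
  · intro j m p q hr h
    obtain ⟨-, -, hm1, hm2, hp1, hp2, hq1, hq2⟩ := hr
    replace h := of_decide_eq_true h
    rcases h with h | h | h | h | h | h | h | h | h | h | h | h | h | h | h | h | h | h | h | h | h | h | h | h | h | h | h | h | h | h | h | h | h | h | h | h | h | h | h | h | h | h | h | h | h | h | h | h
    · obtain ⟨rfl, rfl, h⟩ := h
      exact mt (NW.w3v C10b (by omega) (by omega) (by omega) (by omega) (by omega) (by omega) (by omega) (by omega)).mp (by omega)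
    · obtain ⟨rfl, rfl, h⟩ := h
      exact mt (WrapC.v3 C2a (by omega) (by omega) (by omega) (by omega) (by omega) (by omega) (by omega) (by omega)).mp (by omega)
    · obtain ⟨rfl, rfl, h⟩ := h
      exact mt (WrapC.v1 C4a (by omega) (by omega) (by omega) (by omega) (by omega) (by omega) (by omega) (by omega)).mp (by omega)
    · obtain ⟨rfl, rfl, h⟩ := h
      exact mt (WrapC.v2 C4a (by omega) (by omega) (by omega) (by omega) (by omega) (by omega) (by omega)).mp (by omega)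
    · obtain ⟨rfl, rfl, h⟩ := h
      exact mt (WrapC.v3 C4a (by omega) (by omega) (by omega) (by omega) (by omega) (by omega) (by omega) (by omega)).mp (by omega)
    · obtain ⟨rfl, rfl, h⟩ := h
      exact mt (WrapC.v4 C4a (by omega) (by omega) (by omega) (by omega) (by omega) (by omega) (by omega)).mp (by omega)
    · obtain ⟨rfl, rfl, h⟩ := h
      exact mt (WrapC.v3 C6a (by omega) (by omega) (by omega) (by omega) (by omega) (by omega) (by omega) (by omega)).mp (by omega)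
    · obtain ⟨rfl, rfl, h⟩ := h
      exact mt (NW.w1v C8a (by omega) (by omega) (by omega) (by omega) (by omega) (by omega) (by omega) (by omega)).mp (by omega)
    · obtain ⟨rfl, rfl, h⟩ := h
      exact mt (NW.w1v C10a (by omega) (by omega) (by omega) (by omega) (by omega) (by omega) (by omega) (by omega)).mp (by omega)
    · obtain ⟨rfl, rfl, h⟩ := h
      exact mt (NW.w3v C10a (by omega) (by omega) (by omega) (by omega) (by omega) (by omega) (by omega) (by omega)).mp (by omega)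
    · obtain ⟨rfl, rfl, h⟩ := h
      exact mt (WrapC.v1 C0 (by omega) (by omega) (by omega) (by omega) (by omega) (by omega) (by omega) (by omega)).mp (by omega)
    · obtain ⟨rfl, rfl, h⟩ := h
      exact mt (WrapC.v2 C0 (by omega) (by omega) (by omega) (by omega) (by omega) (by omega) (by omega)).mp (by omega)
    · obtain ⟨rfl, rfl, h⟩ := h
      exact mt (WrapC.v3 C0 (by omega) (by omega) (by omega) (by omega) (by omega) (by omega) (by omega) (by omega)).mp (by omega)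
    · obtain ⟨rfl, rfl, h⟩ := h
      exact mt (WrapC.v0 C2 (by omega) (by omega) (by omega) (by omega) (by omega) (by omega) (by omega)).mp (by omega)
    · obtain ⟨rfl, rfl, h⟩ := h
      exact mt (WrapC.v1 C2 (by omega) (by omega) (by omega) (by omega) (by omega) (by omega) (by omega) (by omega)).mp (by omega)
    · obtain ⟨rfl, rfl, h⟩ := h
      exact mt (WrapC.v2 C2 (by omega) (by omega) (by omega) (by omega) (by omega) (by omega) (by omega)).mp (by omega)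
    · obtain ⟨rfl, rfl, h⟩ := h
      exact mt (WrapC.v0 C6 (by omega) (by omega) (by omega) (by omega) (by omega) (by omega) (by omega)).mp (by omega)
    · obtain ⟨rfl, rfl, h⟩ := h
      exact mt (WrapC.v2 C6 (by omega) (by omega) (by omega) (by omega) (by omega) (by omega) (by omega)).mp (by omega)
    · obtain ⟨rfl, rfl, h⟩ := h
      exact mt (NW.w0v C8 (by omega) (by omega) (by omega) (by omega) (by omega) (by omega) (by omega)).mp (by omega)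
    · obtain ⟨rfl, rfl, h⟩ := h
      exact mt (NW.w1v C8 (by omega) (by omega) (by omega) (by omega) (by omega) (by omega) (by omega) (by omega)).mp (by omega)
    · obtain ⟨rfl, rfl, h⟩ := h
      exact mt (NW.w2v C8 (by omega) (by omega) (by omega) (by omega) (by omega) (by omega) (by omega)).mp (by omega)
    · obtain ⟨rfl, rfl, h⟩ := h
      exact mt (NW.w0v C10 (by omega) (by omega) (by omega) (by omega) (by omega) (by omega) (by omega)).mp (by omega)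
    · obtain ⟨rfl, rfl, h⟩ := h
      exact mt (WrapC.v0 C0c (by omega) (by omega) (by omega) (by omega) (by omega) (by omega) (by omega)).mp (by omega)
    · obtain ⟨rfl, rfl, h⟩ := h
      exact mt (WrapC.v1 C0c (by omega) (by omega) (by omega) (by omega) (by omega) (by omega) (by omega) (by omega)).mp (by omega)
    · obtain rfl := h
      exact hL (by omega) (by omega) (by omega) (by omega) (by omega) (by omega)
    · obtain ⟨rfl, rfl, h⟩ := h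
      exact fun z => I.P1 hf (x := x0 + p) (y := y0 + q) (by omega) (by omega) (by omega) (by omega) (mv z (by omega) (by omega) rfl rfl)
    · obtain ⟨rfl, rfl, h⟩ := h
      exact fun z => I.P3 hf (x := x0 + p) (y := y0 + q) (by omega) (by omega) (by omega) (by omega) (mv z (by omega) (by omega) rfl rfl)
    · obtain ⟨rfl, rfl, h⟩ := h
      exact fun z => I.P3' hf (x := x0 + p) (y := y0 + q) (by omega) (by omega) (by omega) (by omega) (by omega) (mv z (by omega) (by omega) rfl rfl)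
    · obtain ⟨rfl, rfl, h⟩ := h
      exact fun z => I.P3' hf (x := x0 + p) (y := y0 + q) (by omega) (by omega) (by omega) (by omega) (by omega) (mv z (by omega) (by omega) rfl rfl)
    · obtain ⟨rfl, rfl, h⟩ := h
      exact fun z => I.P5 hf (x := x0 + p) (y := y0 + q) (by omega) (by omega) (by omega) (by omega) (mv z (by omega) (by omega) rfl rfl)
    · obtain ⟨rfl, rfl, h⟩ := h
      exact fun z => I.P5' hf (x := x0 + p) (y := y0 + q) (by omega) (by omega) (by omega) (by omega) (by omega) (mv z (by omega) (by omega) rfl rfl)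
    · obtain ⟨rfl, rfl, h⟩ := h
      exact fun z => I.P5' hf (x := x0 + p) (y := y0 + q) (by omega) (by omega) (by omega) (by omega) (by omega) (mv z (by omega) (by omega) rfl rfl)
    · obtain ⟨rfl, rfl, h⟩ := h
      exact fun z => I.P9 hf (x := x0 + p) (y := y0 + q) (by omega) (by omega) (by omega) (by omega) (by omega) (mv z (by omega) (by omega) rfl rfl)
    · obtain ⟨rfl, rfl, h⟩ := h
      exact fun z => I.z2 1 (y0 + q) (by omega) (by omega) (by omega) (by omega) (mv (f := f) z (by omega) (by omega) (by omega) rfl)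
    · obtain ⟨rfl, rfl, h⟩ := h
      exact fun z => I.z2 2 (y0 + q) (by omega) (by omega) (by omega) (by omega) (mv (f := f) z (by omega) (by omega) (by omega) rfl)
    · obtain ⟨rfl, rfl, h⟩ := h
      exact fun z => I.z2 3 (y0 + q) (by omega) (by omega) (by omega) (by omega) (mv (f := f) z (by omega) (by omega) (by omega) rfl)
    · obtain ⟨rfl, rfl, h⟩ := h
      exact fun z => I.y4 hf (j := (y0 + q) / 2) (by omega) (by omega) (mv (f := f) z (by omega) (by omega) (by omega) (by omega))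
    · obtain ⟨rfl, rfl, h⟩ := h
      exact fun z => I.y4' hf (i := n - 1) (j := (y0 + q) / 2) (by omega) (by omega) (by omega) (mv (f := f) z (by omega) (by omega) (by omega) (by omega))
    · obtain ⟨rfl, rfl, h⟩ := h
      exact fun z => I.f2 ((y0 + q) / 2) (by omega) (by omega) (mv (f := f) z (by omega) (by omega) (by omega) (by omega))
    · obtain ⟨rfl, rfl, h⟩ := h
      exact fun z => I.f6 ((y0 + q) / 2) (by omega) (by omega) (mv (f := f) z (by omega) (by omega) (by omega) (by omega))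
    · obtain ⟨rfl, rfl, h⟩ := h
      exact fun z => I.zr 2 (x0 + p) (y0 + q) (by omega) (by omega) (by omega) (by omega) (by omega) (by omega) (by omega) (mv z (by omega) (by omega) rfl rfl)
    · obtain ⟨rfl, rfl, h⟩ := h
      exact fun z => I.zr 3 (x0 + p) (y0 + q) (by omega) (by omega) (by omega) (by omega) (by omega) (by omega) (by omega) (mv z (by omega) (by omega) rfl rfl)
    · obtain ⟨rfl, rfl, h⟩ := h
      exact fun z => I.zr 4 (x0 + p) (y0 + q) (by omega) (by omega) (by omega) (by omega) (by omega) (by omega) (by omega) (mv z (by omega) (by omega) rfl rfl)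
    · obtain ⟨rfl, rfl, h⟩ := h
      exact fun z => I.zr 5 (x0 + p) (y0 + q) (by omega) (by omega) (by omega) (by omega) (by omega) (by omega) (by omega) (mv z (by omega) (by omega) rfl rfl)
    · obtain ⟨rfl, rfl, h⟩ := h
      exact fun z => I.zr 6 (x0 + p) (y0 + q) (by omega) (by omega) (by omega) (by omega) (by omega) (by omega) (by omega) (mv z (by omega) (by omega) rfl rfl)
    · obtain ⟨rfl, rfl, h⟩ := h
      exact fun z => I.zr 7 (x0 + p) (y0 + q) (by omega) (by omega) (by omega) (by omega) (by omega) (by omega) (by omega) (mv z (by omega) (by omega) rfl rfl)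
    · obtain ⟨rfl, rfl, rfl, rfl⟩ := h
      exact h1 (by omega) (by omega) (by omega) (by omega)
    · obtain ⟨rfl, rfl, rfl, rfl⟩ := h
      exact h2 (by omega) (by omega) (by omega) (by omega)

/-- **(K46)**: near the wall the in-line `x = 2 n + 3` of `6 k + 6` in the row `c = b + 22` or the in-line `x = 2 n - 1` of
`6 k + 4` in the row `c - 2` is present. -/
theorem k46 (hf : Rule f) {k b m n : ℕ} (hs : Side k b m) (S : Stack6 f k b m 0 0 0 0 0 1) (hn : n = m + 9 + (k + 2) * 4)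
    (C0 : Cyc f (6 * k) (b + 16) (2 * (n - (k + 5)) + 2)) (C0c : Cyc f (6 * k) (b + 20) (2 * (n - 3) + 2))
    (C2 : Cyc f (6 * k + 2) (b + 18) (2 * (n - 5) + 2)) (C2a : Cyc f (6 * k + 2) (b + 14) (2 * (n - (k + 7)) + 2))
    (C4a : Cyc f (6 * k + 4) (b + 16) (2 * (n - (k + 1)) + 2))
    (I : LineR0.In f (6 * k) (b + 22) n (n + 2 - k) (n - 5) (n - 4)) :
    f (6 * k + 6) (b + 22) (2 * n + 3) (2 * n + 6 - 2 * k) ∨ f (6 * k + 4) (b + 20) (2 * n - 1) (2 * n + 4 - 2 * k) := by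
  by_contra hc
  have h1' : ¬ f (6 * k + 6) (b + 22) (2 * n + 3) (2 * n + 6 - 2 * k) := fun h => hc (Or.inl h)
  have h2' : ¬ f (6 * k + 4) (b + 20) (2 * n - 1) (2 * n + 4 - 2 * k) := fun h => hc (Or.inr h)
  have hlw : ∀ {M R x y : ℕ}, M + 1 = 6 * k → b + 22 ≤ R + 10 → R ≤ b + 22 → 2 * n ≤ x + 20 → y ≤ x → x ≤ y + 4 * k →
      ¬ f M R x y := by
    intro M R x y e1 e2 e3 e4 e5 e6
    have hb := hs.2.2.2.1
    have e : M = 6 * k - 1 := by omega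
    subst e
    exact NHZ.lw_zero hs S (i := R - b) (by omega) (by omega) (by omega) e5 (by omega)
  obtain ⟨hk, hb, h4, hb2, hm⟩ := hs
  have q (i : ℕ) : (k + 2) * (i + 1) = (k + 2) * i + k + 2 := by ring
  have q3 := q 3
  have q2 := q 2
  refine k46_aux hf (c := b + 22) (n := n) hk (by omega) (by omega) (by omega) hlw (cw_of (S.l10 2) (by omega) (by omega))
    (cyc_of C2a (by omega) (by omega))
    (cyc_of C4a (by omega) (by omega))
    (cyc_of (S.l6 3) (by omega) (by omega))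
    (cw_of (S.l8 3) (by omega) (by omega))
    (cw_of (S.l10 3) (by omega) (by omega))
    (cyc_of C0 (by omega) (by omega))
    (cyc_of C2 (by omega) (by omega))
    (cyc_of (S.l6 4) (by omega) (by omega))
    (cw_of (S.l8 4) (by omega) (by omega))
    (cw_of (S.l10 4) (by omega) (by omega))
    (cyc_of C0c (by omega) (by omega)) I ?_ ?_
  · intro M R x y e1 e2 e3 e4 h
    exact h1' (LW.mv h (by omega) (by omega) (by omega) (by omega))
  · intro M R x y e1 e2 e3 e4 h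
    exact h2' (LW.mv h (by omega) (by omega) (by omega) (by omega))

end Pool.Agent.SNT.Z1K
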