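import Pool.Agent.SNT.LL10
import Pool.Agent.SNT.Z10W
import Pool.Agent.SNT.Z1K
import Pool.Agent.SNT.Z1G

set_option autoImplicit false

/-! The cell `z1` of the location of the leader `6 k + 10`. -/

namespace Pool.Agent.SNT.Z1F

open Pool.Agent.SNT Pool.Agent.SNT.LW Pool.Agent.SNT.NHZ Pool.Agent.SNT.LRI Pool.Agent.SNT.D1E

variable {f : ℕ → ℕ → ℕ → ℕ → Prop} {k b m : ℕ}

/-- **The cell `z1`**, in the cycle of the window `W2`; `W1`, `W0` are the windows of the two cycles before, the leads of `6 k`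
of the last two cycles are `n - k - 5`. -/
theorem z1_win (hf : Rule f) {b0 m0 n0 b1 m1 n1 b2 m2 n2 : ℕ} (W0 : Win f k b0 m0 n0) (W1 : Win f k b1 m1 n1)
    (W2 : Win f k b2 m2 n2) (hb1 : b1 = b0 + 4) (hm1 : m1 = m0 + (k + 2)) (hb2 : b2 = b1 + 4) (hm2 : m2 = m1 + (k + 2))
    (L1 : Cyc f (6 * k) (b1 + 16) (2 * (n1 - (k + 5)) + 2)) (L2 : Cyc f (6 * k) (b2 + 16) (2 * (n2 - (k + 5)) + 2)) :
    ¬ f (6 * k + 9) (b2 + 23) (2 * n2 + 4) (2 * n2 + 2 - 2 * k) := by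
  intro h
  have hk := W1.hs.1
  have hb4 : 100 * k + 1000 ≤ b1 := W1.hs.2.2.2.1
  have hm : 2 * b1 ≤ m1 := W1.hs.2.2.2.2
  have I := W1.inp hf W0 hb1 hm1
  have e0 := W0.hn
  have e1 := W1.hn
  have e2 := W2.hn
  have q : (k + 2) * 4 = 4 * k + 8 := by ring
  have hP := Z10W.winP hf W2.hs W2.S W2.hn (D1.cyc_of_eq L2 rfl (by omega)) W2.d2 h
  have hC1 := Z10W.winC1 hf W2.hs W2.S W2.hn (D1.cyc_of_eq L2 rfl (by omega)) W2.d2 hP
  have hC2 := Z10W.winC2 hf W2.hs W2.S W2.hn hP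
  have H : PL f k (b1 + 22) n1 (n1 - 4) := PL.of_stack W1.hs W1.S W1.hn (by omega) (by omega)
    (D1.cyc_of_eq W1.d0 rfl (by omega)) (WrapC.cyc_mono W1.d2 (by omega)) W1.d4
  rcases Z1K.k46 hf W1.hs W1.S W1.hn L1 (D1.cyc_of_eq L2 (by omega) (by omega)) W1.d2
    (D1.cyc_of_eq W0.d2 (by omega) (by omega)) (D1.cyc_of_eq W0.d4 (by omega) (by omega)) I with h6 | h4
  · exact hC2 (mv (Z1G.line6 hf H h6) rfl (by omega) (by omega) (by omega))
  · exact hC1 (mv (Z1G.line4 hf H (mv h4 rfl (by omega) rfl rfl)) rfl (by omega) (by omega) (by omega))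

/-- **The cell `z1`** over the windows with the improved leads. -/
theorem z1_stack (hf : Rule f) (S : StackW f k b m) {j : ℕ} (hj : 2 ≤ j)
    (L : ∀ i : ℕ, i + 1 = j ∨ i = j → Cyc f (6 * k) (b + 4 * i + 16) (2 * (D1.nn k m i - (k + 5)) + 2)) :
    ¬ f (6 * k + 9) (b + 4 * j + 23) (2 * D1.nn k m j + 4) (2 * D1.nn k m j + 2 - 2 * k) := by
  obtain ⟨i, rfl⟩ := Nat.exists_eq_add_of_le hj
  have h := z1_win hf (S i) (S (1 + i)) (S (2 + i)) (by ring) (by ring) (by ring) (by ring) (L _ (by omega)) (L _ (by omega))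
  exact h

end Pool.Agent.SNT.Z1F
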