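import Pool.Agent.SNT.LL10
import Pool.Agent.SNT.NHZone
import Pool.Agent.SNT.NHZoneU
import Pool.Agent.SNT.NWD

set_option autoImplicit false
set_option synthInstance.maxSize 100000
set_option synthInstance.maxHeartbeats 4000000
set_option linter.unusedVariables false

/-! The near-diagonal windows of z3 (the cell `(2 n + 4, 2 n + 4)` of `6 k + 9` in the row `c + 3`). -/

namespace Pool.Agent.SNT.Z3N

open Pool.Agent.SNT Pool.Agent.SNT.Loc Pool.Agent.SNT.LW Pool.Agent.SNT.NHZ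

variable {f : ℕ → ℕ → ℕ → ℕ → Prop}

/-- The hypotheses of the windows. -/
structure ZS (f : ℕ → ℕ → ℕ → ℕ → Prop) (k c n : ℕ) : Prop where
  T : NHT f k c (2 * n)
  T' : NHT f k (c - 4) (2 * (n - (k + 2)))
  U : NHU f k c (2 * n)
  U' : NHU f k (c - 4) (2 * (n - (k + 2)))
  e0 : Cyc f (6 * k) (c - 2) (2 * (n - 3) + 2)
  e0a : Cyc f (6 * k) (c - 6) (2 * (n - (k + 2) - 3) + 2)
  d2 : Cyc f (6 * k + 2) (c - 4) (2 * (n - 5) + 2)
  d4a : Cyc f (6 * k + 4) (c - 6) (2 * (n - (k + 2) + 1) + 2)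
  c6 : Cyc f (6 * k + 6) (c - 4) (2 * (n - 5) + 2)
  c8 : Cw f (6 * k + 8) (c - 2) (n - 3)
  lw : ∀ M' R x y : ℕ, M' + 1 = 6 * k → c ≤ R + 12 → R ≤ c + 12 → 2 * n ≤ x + 20 → y ≤ x → x ≤ y + 4 * k → ¬ f M' R x y

theorem mv {a b x y a' b' x' y' : ℕ} (h : f a b x y) (h1 : a' = a) (h2 : b' = b) (h3 : x' = x) (h4 : y' = y) :
    f a' b' x' y' := by
  subst h1 h2 h3 h4
  exact h

theorem xb_chk : check 8 5 12 12 0 1 1 1 2
    (fun j n p q => decide ((j = 2 ∧ n = 2 ∧ q ≤ p ∧ 5 ≤ p ∧ (p = q ∧ (p + 1) % 2 = 0))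
      ∨ (j = 4 ∧ n = 2 ∧ q ≤ p ∧ (p = q ∧ (p + 1) % 2 = 1))
      ∨ (j = 4 ∧ n = 1 ∧ q ≤ p ∧ ((p + q) % 2 = 1 ∧ (p + 1) % 2 = 0))
      ∨ (j = 6 ∧ n = 2 ∧ q ≤ p ∧ 5 ≤ p ∧ (p = q ∧ (p + 1) % 2 = 0))
      ∨ (j = 2 ∧ n = 3 ∧ p = 6 ∧ q = 1)))
    (fun j n p q => decide ((j = 2 ∧ n = 2 ∧ q ≤ p ∧ 5 ≤ p ∧ ¬ (p = q ∧ (p + 1) % 2 = 0))
      ∨ (j = 4 ∧ n = 2 ∧ q ≤ p ∧ ¬ (p = q ∧ (p + 1) % 2 = 1))
      ∨ (j = 6 ∧ n = 3 ∧ q ≤ p ∧ 5 ≤ q ∧ ¬ ((p + q) % 2 = 1 ∧ (p + 1) % 2 = 0))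
      ∨ (j = 6 ∧ n = 2 ∧ q ≤ p ∧ 5 ≤ p ∧ ¬ (p = q ∧ (p + 1) % 2 = 0))
      ∨ (j = 3 ∧ n = 3 ∧ q + 4 ≤ p)
      ∨ (j = 3 ∧ n = 3 ∧ 5 ≤ q ∧ q + 2 ≤ p)
      ∨ (j = 3 ∧ n = 3 ∧ 7 ≤ p ∧ q + 3 ≤ p)
      ∨ (j = 7 ∧ n = 2 ∧ 4 ≤ p ∧ q + 1 ≤ p)
      ∨ (j = 3 ∧ n = 2 ∧ 2 ≤ q ∧ q + 2 ≤ p)
      ∨ (j = 5 ∧ n = 2 ∧ 2 ≤ q ∧ q + 1 ≤ p)
      ∨ (j = 5 ∧ n = 3 ∧ q + 3 ≤ p)
      ∨ (j = 7 ∧ n = 3 ∧ q + 2 ≤ p)))
    103
    0x5318303bd000525ca07fb0305250005250408060e0adc8308060008060407ff8e07f98307ff8007ff8403b10009208008058e07be0e07bd8e07b78e06560e06558e064f8e064a00063d0005fb00053c8e053c0e053b8e053b0e05350e04f48e04f40e04f38e04f30e04ee0e04ed8e04ed0e03cc8e038c8e038c0e038b8e038b0e03860e03858e03850e0380800adc870adc070ad6070a94870a94070a8e870a8e07097487096e87092c87092c0709268709260709208f08058707be0707bd8707b78707b18707b10707ab07068c87068b87065607065587064f87064a0f064987064907064387064307063d0f05fb0f053c87053c07053b87053b0705350704f48704f40704f38704f30704ee0704ed8704ed0703cc8f03c98703bd87038c87038c07038b87038b0703860703858703850703808f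 = true := by
  decide +kernel

theorem xb (hf : Rule f) {k c n : ℕ} (H : ZS f k c n)
    (_h1 : f (6 * k + 4) (c - 2) (2 * n - 1) (2 * n - 2))
    (h2 : f (6 * k + 2) (c - 2) (2 * n - 5) (2 * n - 10)) : False := by
  have hk := H.T.hk
  have hc := H.T.hc
  have h4' := H.T.h4
  have hb := H.T.hb
  have hN := H.T.hN2
  obtain ⟨a0, ha0⟩ : ∃ z, z = 6 * k := ⟨_, rfl⟩
  obtain ⟨b0, hb0⟩ : ∃ z, z + 5 = c := ⟨c - 5, by omega⟩
  obtain ⟨x0, hx0⟩ : ∃ z, z + 11 = 2 * n := ⟨2 * n - 11, by omega⟩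
  refine check_sound hf (a0 := a0) (b0 := b0) (x0 := x0) (y0 := x0) xb_chk
    ⟨fun _ => rfl, fun h => absurd h (by decide), fun h => absurd h (by decide), by omega, by omega,
      by omega, by omega⟩ ?_ ?_
  · intro j m p q hr h
    obtain ⟨-, -, -, -, hp1, hp2, hq1, hq2⟩ := hr
    replace h := of_decide_eq_true h
    rcases h with h | h | h | h | h
    · obtain ⟨rfl, rfl, h⟩ := h
      exact (WrapC.v1 H.d2 (by omega) (by omega) (by omega) (by omega) (by omega) (by omega) (by omega) (by omega)).mpr (by omega)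
    · obtain ⟨rfl, rfl, h⟩ := h
      exact (WrapC.v3 H.d4a (by omega) (by omega) (by omega) (by omega) (by omega) (by omega) (by omega) (by omega)).mpr (by omega)
    · obtain ⟨rfl, rfl, h⟩ := h
      exact (WrapC.v2 H.d4a (by omega) (by omega) (by omega) (by omega) (by omega) (by omega) (by omega)).mpr (by omega)
    · obtain ⟨rfl, rfl, h⟩ := h
      exact (WrapC.v1 H.c6 (by omega) (by omega) (by omega) (by omega) (by omega) (by omega) (by omega) (by omega)).mpr (by omega)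
    · obtain ⟨rfl, rfl, rfl, rfl⟩ := h
      exact mv h2 (by omega) (by omega) (by omega) (by omega)
  · intro j m p q hr h
    obtain ⟨-, -, -, -, hp1, hp2, hq1, hq2⟩ := hr
    replace h := of_decide_eq_true h
    rcases h with h | h | h | h | h | h | h | h | h | h | h | h
    · obtain ⟨rfl, rfl, h⟩ := h
      exact mt (WrapC.v1 H.d2 (by omega) (by omega) (by omega) (by omega) (by omega) (by omega) (by omega) (by omega)).mp (by omega)
    · obtain ⟨rfl, rfl, h⟩ := h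
      exact mt (WrapC.v3 H.d4a (by omega) (by omega) (by omega) (by omega) (by omega) (by omega) (by omega) (by omega)).mp (by omega)
    · obtain ⟨rfl, rfl, h⟩ := h
      exact mt (WrapC.v2 H.c6 (by omega) (by omega) (by omega) (by omega) (by omega) (by omega) (by omega)).mp (by omega)
    · obtain ⟨rfl, rfl, h⟩ := h
      exact mt (WrapC.v1 H.c6 (by omega) (by omega) (by omega) (by omega) (by omega) (by omega) (by omega) (by omega)).mp (by omega)
    · obtain ⟨rfl, rfl, h⟩ := h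
      exact NHT.p2 hf H.T' (j := 3) (by omega) (by omega) (by omega) (by omega) (by omega) (by omega)
    · obtain ⟨rfl, rfl, h⟩ := h
      exact NHT.pm hf H.T (j := 1) (by omega) (by omega) (by omega) (by omega) (by omega) (by omega)
    · obtain ⟨rfl, rfl, h⟩ := h
      exact NHT.pmi hf H.T (j := 2) (by omega) (by omega) (by omega) (by omega) (by omega) (by omega)
    · obtain ⟨rfl, rfl, h⟩ := h
      exact NHT.rIn hf H.T (t := 3) (p := 1) (j := 0) (by omega) (by omega) (by omega) (by omega) (by omega) (by omega) (by omega) (by omega)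
    · obtain ⟨rfl, rfl, h⟩ := h
      exact NHT.rOut hf H.T (t := 2) (p := 1) (j := 1) (by omega) (by omega) (by omega) (by omega) (by omega) (by omega) (by omega) (by omega)
    · obtain ⟨rfl, rfl, h⟩ := h
      exact NHT.rOut hf H.T (t := 2) (p := 1) (j := 0) (by omega) (by omega) (by omega) (by omega) (by omega) (by omega) (by omega) (by omega)
    · obtain ⟨rfl, rfl, h⟩ := h
      exact NHU.p2 hf H.U' (j := 2) (by omega) (by omega) (by omega) (by omega) (by omega) (by omega)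
    · obtain ⟨rfl, rfl, h⟩ := h
      exact NHU.p2 hf H.U' (j := 1) (by omega) (by omega) (by omega) (by omega) (by omega) (by omega)

end Pool.Agent.SNT.Z3N
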