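import Pool.Agent.SNT.Z34P
import Pool.Agent.SNT.Z3NA
import Pool.Agent.SNT.Z3NB
import Pool.Agent.SNT.Z3NC
import Pool.Agent.SNT.Z3ND
import Pool.Agent.SNT.Z3NE
import Pool.Agent.SNT.LLW
import Pool.Agent.SNT.DRunI

set_option autoImplicit false

/-! z3: the cell `(2 n + 4, 2 n + 4)` of `6 k + 9` in the row `c + 3`, from three single cells. -/

namespace Pool.Agent.SNT.Z3N

open Pool.Agent.SNT Pool.Agent.SNT.Loc Pool.Agent.SNT.LW Pool.Agent.SNT.NHZ Pool.Agent.SNT.Z34P Pool.Agent.SNT.DRun

variable {f : ℕ → ℕ → ℕ → ℕ → Prop}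

/-- the structure of the cycle `j + 1` -/
theorem ZS.of {k b m : ℕ} (W : WL0 f k b m 5) (j : ℕ) :
    ZS f k (b + 4 * (j + 1) + 22) (D1.nn k m (j + 1)) := by
  have W1 := W.w (j + 1)
  have W0 := W.w j
  have L1 := W.l0 (j + 1)
  have L2 := W.l0 (j + 2)
  have q (i : ℕ) : (k + 2) * (i + 1) = (k + 2) * i + k + 2 := by ring
  have e1 : D1.nn k m (j + 1) = D1.nn k m j + (k + 2) := by unfold D1.nn; ring
  have e2 : D1.nn k m (j + 2) = D1.nn k m (j + 1) + (k + 2) := by unfold D1.nn; ring
  obtain ⟨hs, S, hn, d0, d2, d4⟩ := W1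
  obtain ⟨hs', S', hn', d0', d2', d4'⟩ := W0
  have T := NHT.of_stack hs S
  have U := NHU.of_stack hs S
  have T' := NHT.of_stack hs' S'
  have U' := NHU.of_stack hs' S'
  obtain ⟨hk, hb, h4, hb2, hm⟩ := id hs
  obtain ⟨hk', hb', h4', hb2', hm'⟩ := id hs'
  have q4 := q 4
  have q3 := q 3
  have q2 := q 2
  have q1 := q 1
  have q0 := q 0
  generalize hN2 : D1.nn k m (j + 2) = n2 at *
  generalize hN : D1.nn k m (j + 1) = n at *
  generalize hN' : D1.nn k m j = n' at *
  generalize hM : m + (k + 2) * (j + 1) = mm at *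
  generalize hM' : m + (k + 2) * j = mm' at *
  exact {
    T := nht_mv T rfl (by omega)
    T' := nht_mv T' (by omega) (by omega)
    U := nhu_mv U rfl (by omega)
    U' := nhu_mv U' (by omega) (by omega)
    e0 := cyc_of L2 (by omega) (by omega)
    e0a := cyc_of L1 (by omega) (by omega)
    d2 := cyc_of d2 (by omega) rfl
    d4a := cyc_of d4' (by omega) (by omega)
    c6 := cyc_of (S.l6 4) (by omega) (by omega)
    c8 := cw_of (S.l8 4) (by omega) (by omega)
    lw := by
      intro M' R x y hM h1 h2 h3 h4 h5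
      have e : M' = 6 * k - 1 := by omega
      rw [e]
      exact lw_zero hs S (i := R - (b + 4 * (j + 1))) (by omega) (by omega) (by omega) h4 (by omega) }

/-- the run of a column of the row `c - 2` -/
theorem run (hf : Rule f) {k c n : ℕ} (H : ZS f k c n) {L i x y0 y : ℕ} (hj : 1 ≤ i) (hj5 : i ≤ 5)
    (hL : L + 2 * i = 6 * k + 10) (hx : x % 2 = 1) (hy : y0 % 2 = 0) (hN : 2 * n ≤ y0 + 2 * k)
    (hw : x + 1 + i ≤ y0 + 2 * k) (h0 : f L (c - 2) x y0) (h1 : y0 ≤ y) (h2 : y + i ≤ x) (h3 : y % 2 = 0) :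
    f L (c - 2) x y := by
  have T' := H.T'
  have hc := H.T.hc
  have hb := H.T.hb
  have hk := H.T.hk
  have hN2 := H.T.hN2
  have e : c - 4 + 2 = c - 2 := by omega
  have h := run_c2 hf T' (L := L) (j := i) (x := x) (y0 := y0) hj hj5 hL hx hy (by omega) hw (by rw [e]; exact h0) y h1 h2 h3
  rwa [e] at h

/-- **z3** over the structures: from the tips `2 n + 3`, `2 n - 1` of `6 k + 4` and the cell `ny`. -/
theorem z3_of (hf : Rule f) {k c n : ℕ} (P : PS f k c n) (H : ZS f k c n)
    (t3 : f (6 * k + 4) (c - 2) (2 * n + 3) (2 * n + 2)) (tm : f (6 * k + 4) (c - 2) (2 * n - 1) (2 * n - 2))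
    (ny : ¬ f (6 * k + 4) (c + 2) (2 * n + 8) (2 * n + 3)) :
    ¬ f (6 * k + 9) (c + 3) (2 * n + 4) (2 * n + 4) := by
  intro z
  have hc := H.T.hc
  have hb := H.T.hb
  have hk := H.T.hk
  have hN2 := H.T.hN2
  have X : ¬ f (6 * k + 2) (c - 2) (2 * n - 5) (2 * n - 2 * k) := by
    intro h
    exact xb hf H tm (run hf H (i := 4) (by omega) (by omega) (by omega) (by omega) (by omega) (by omega) (by omega) h
      (by omega) (by omega) (by omega))
  rcases p1b hf P with h1 | h1 | h1
  · have g := run hf H (i := 5) (y := 2 * n - 12) (by omega) (by omega) (by omega) (by omega) (by omega) (by omega) (by omega) h1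
      (by omega) (by omega) (by omega)
    rcases p2 hf P with h2 | h2 | h2
    · have g2 := run hf H (i := 3) (y := 2 * n - 10) (by omega) (by omega) (by omega) (by omega) (by omega) (by omega) (by omega) h2
        (by omega) (by omega) (by omega)
      exact b75 hf H z t3 tm ny g2 g
    · have g2 := run hf H (i := 3) (y := 2 * n - 8) (by omega) (by omega) (by omega) (by omega) (by omega) (by omega) (by omega) h2
        (by omega) (by omega) (by omega)
      exact b73 hf H z t3 tm ny g2 g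
    · exact X h2
  · have g := run hf H (i := 5) (y := 2 * n - 10) (by omega) (by omega) (by omega) (by omega) (by omega) (by omega) (by omega) h1
      (by omega) (by omega) (by omega)
    rcases p2 hf P with h2 | h2 | h2
    · have g2 := run hf H (i := 3) (y := 2 * n - 10) (by omega) (by omega) (by omega) (by omega) (by omega) (by omega) (by omega) h2
        (by omega) (by omega) (by omega)
      exact b55 hf H z t3 tm ny g2 g
    · have g2 := run hf H (i := 3) (y := 2 * n - 8) (by omega) (by omega) (by omega) (by omega) (by omega) (by omega) (by omega) h2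
        (by omega) (by omega) (by omega)
      exact b53 hf H z t3 tm ny g2 g
    · exact X h2
  · exact X h1

/-- **z3** in the cycle `j + 1`. -/
theorem z3 (hf : Rule f) {k b m : ℕ} (W : WL0 f k b m 5) (j : ℕ) {n c : ℕ} (hn : n = D1.nn k m (j + 1))
    (hc : c = b + 4 * (j + 1) + 22)
    (t3 : f (6 * k + 4) (c - 2) (2 * n + 3) (2 * n + 2)) (tm : f (6 * k + 4) (c - 2) (2 * n - 1) (2 * n - 2))
    (ny : ¬ f (6 * k + 4) (c + 2) (2 * n + 8) (2 * n + 3)) :
    ¬ f (6 * k + 9) (c + 3) (2 * n + 4) (2 * n + 4) := by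
  subst hn hc
  exact z3_of hf (PS.of W.w j) (ZS.of W j) t3 tm ny

end Pool.Agent.SNT.Z3N
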