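import Pool.Agent.SNT.LL10

set_option autoImplicit false
set_option synthInstance.maxSize 100000
set_option synthInstance.maxHeartbeats 4000000

/-! z3, z4: the two windows near the wall. -/

namespace Pool.Agent.SNT.Z34

open Pool.Agent.SNT Pool.Agent.SNT.Loc Pool.Agent.SNT.LW

variable {f : ℕ → ℕ → ℕ → ℕ → Prop}

theorem cyc_of {a b K b' K' : ℕ} (C : Cyc f a b K) (hb : b' = b) (hK : K' = K) : Cyc f a b' K' := by
  subst hb hK
  exact C

theorem cw_of {a b n b' n' : ℕ} (C : Cw f a b n) (hb : b' = b) (hn : n' = n) : Cw f a b' n' := by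
  subst hb hn
  exact C

theorem w1_chk : check 5 6 8 9 1 0 1 1 0
    (fun j n p q => decide ((j = 1 ∧ n = 1 ∧ ((p + q) % 2 = 0 ∧ q + 2 ≤ p ∧ (p + q + 2) % 4 = 0))
      ∨ (j = 1 ∧ n = 2 ∧ ((q + 2 ≤ p) ∨ (p ≤ q + 1 ∧ 7 ≤ q)) ∧ (((p + q) % 2 = 1 ∧ p ≤ q + 1 ∧ p % 2 = 1) ∨ ((p + q) % 2 = 1 ∧ q + 1 ≤ p ∧ (p + q + 3) % 4 = 0)))
      ∨ (j = 3 ∧ n = 2 ∧ (((p + q) % 2 = 1 ∧ p ≤ q + 3 ∧ p % 2 = 0) ∨ ((p + q) % 2 = 1 ∧ q + 3 ≤ p ∧ (p + q + 1) % 4 = 2)))
      ∨ (j = 5 ∧ n = 4 ∧ ((4 ≤ p ∧ p ≤ q + 1) ∨ (6 ≤ p)) ∧ (((p + q) % 2 = 1 ∧ p ≤ q + 3 ∧ p % 2 = 0) ∨ ((p + q) % 2 = 1 ∧ q + 3 ≤ p ∧ (p + q + 1) % 4 = 2)))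
      ∨ (j = 1 ∧ n = 4 ∧ p = 1 ∧ q = 4)))
    (fun j n p q => decide ((j = 1 ∧ n = 1 ∧ ¬ ((p + q) % 2 = 0 ∧ q + 2 ≤ p ∧ (p + q + 2) % 4 = 0))
      ∨ (j = 1 ∧ n = 2 ∧ ((q + 2 ≤ p) ∨ (p ≤ q + 1 ∧ 7 ≤ q)) ∧ ¬ (((p + q) % 2 = 1 ∧ p ≤ q + 1 ∧ p % 2 = 1) ∨ ((p + q) % 2 = 1 ∧ q + 1 ≤ p ∧ (p + q + 3) % 4 = 0)))
      ∨ (j = 3 ∧ n = 2 ∧ ¬ (((p + q) % 2 = 1 ∧ p ≤ q + 3 ∧ p % 2 = 0) ∨ ((p + q) % 2 = 1 ∧ q + 3 ≤ p ∧ (p + q + 1) % 4 = 2)))
      ∨ (j = 5 ∧ n = 4 ∧ ((4 ≤ p ∧ p ≤ q + 1) ∨ (6 ≤ p)) ∧ ¬ (((p + q) % 2 = 1 ∧ p ≤ q + 3 ∧ p % 2 = 0) ∨ ((p + q) % 2 = 1 ∧ q + 3 ≤ p ∧ (p + q + 1) % 4 = 2)))))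
    148
    0x21083023500025922023403018080018084040883022f80022f8401778002504a020783015380015384040e03025900025904020303014f00014f04020c03023000023004023403025880025884021083015c80015c84040903025400025404021083015d00015d04020783022c00022c04023403023480023484020783015400015404020c03015880015884040d03023400023404040503025000025004040483024f80024f84020903012b80020852012a80012a84020c83023080023084020c03015800015804020783022b80022b84020303022700022704020383014f80014f8402038302278002278404098302548002548404e68004e58004e48004dd8004dc8004db8002ed8002ec8002e58002e48002e38002dc8002db8002da80016e80013280010f0004e68f04e58f04e48f04dd8f04dc8f04db8f03310703300703280702ed8f02ec8f02e58f02e48f02e38f02dc8f02db8f02da8f018107017807016e8f01380701378701330701328f013107013007012f07012c87012707012607011487011407011087011007010f87010f0f010d07010c87010c07010b87010b07010887010807010787010707010687010307010287010207 = true := by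
  decide +kernel

theorem w1_aux (hf : Rule f) {k c n : ℕ} (hk : 8 ≤ k) (hc : 100 * k + 1000 ≤ c) (h4 : (6 * k + c) % 4 = 0) (hn : c ≤ n)
    (C4 : Cyc f (6 * k + 4) (c - 2) (2 * (n + 1) + 2)) (C6 : Cyc f (6 * k + 6) c (2 * (n + k - 3) + 2))
    (C8 : Cw f (6 * k + 8) (c + 2) (n + k - 1))
    (h1 : f (6 * k + 4) (c + 2) (2 * n + 2 * k - 2) (2 * n + 3)) : False := by
  obtain ⟨a0, ha0⟩ : ∃ z, z = 6 * k + 3 := ⟨_, rfl⟩
  obtain ⟨b0, hb0⟩ : ∃ z, z + 2 = c := ⟨c - 2, by omega⟩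
  obtain ⟨x0, hx0⟩ : ∃ z, z + 3 = 2 * n + 2 * k := ⟨2 * n + 2 * k - 3, by omega⟩
  obtain ⟨y0, hy0⟩ : ∃ z, z + 1 = 2 * n := ⟨2 * n - 1, by omega⟩
  refine check_sound hf (a0 := a0) (b0 := b0) (x0 := x0) (y0 := y0) w1_chk
    ⟨fun h => absurd h (by decide), fun h => absurd h (by decide), fun h => absurd h (by decide), by omega, by omega,
      by omega, by omega⟩ ?_ ?_
  · intro j m p q hr h
    obtain ⟨-, -, hm1, hm2, hp1, hp2, hq1, hq2⟩ := hr
    replace h := of_decide_eq_true h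
    rcases h with h | h | h | h | h
    · obtain ⟨rfl, rfl, h⟩ := h
      exact (WrapC.v1 C4 (by omega) (by omega) (by omega) (by omega) (by omega) (by omega) (by omega) (by omega)).mpr (by omega)
    · obtain ⟨rfl, rfl, h⟩ := h
      exact (WrapC.v2 C4 (by omega) (by omega) (by omega) (by omega) (by omega) (by omega) (by omega)).mpr (by omega)
    · obtain ⟨rfl, rfl, h⟩ := h
      exact (WrapC.v0 C6 (by omega) (by omega) (by omega) (by omega) (by omega) (by omega) (by omega)).mpr (by omega)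
    · obtain ⟨rfl, rfl, h⟩ := h
      exact (NW.w0v C8 (by omega) (by omega) (by omega) (by omega) (by omega) (by omega) (by omega)).mpr (by omega)
    · obtain ⟨rfl, rfl, rfl, rfl⟩ := h
      exact mv h1 (by omega) (by omega) (by omega) (by omega)
  · intro j m p q hr h
    obtain ⟨-, -, hm1, hm2, hp1, hp2, hq1, hq2⟩ := hr
    replace h := of_decide_eq_true h
    rcases h with h | h | h | h
    · obtain ⟨rfl, rfl, h⟩ := h
      exact mt (WrapC.v1 C4 (by omega) (by omega) (by omega) (by omega) (by omega) (by omega) (by omega) (by omega)).mp (by omega)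
    · obtain ⟨rfl, rfl, h⟩ := h
      exact mt (WrapC.v2 C4 (by omega) (by omega) (by omega) (by omega) (by omega) (by omega) (by omega)).mp (by omega)
    · obtain ⟨rfl, rfl, h⟩ := h
      exact mt (WrapC.v0 C6 (by omega) (by omega) (by omega) (by omega) (by omega) (by omega) (by omega)).mp (by omega)
    · obtain ⟨rfl, rfl, h⟩ := h
      exact mt (NW.w0v C8 (by omega) (by omega) (by omega) (by omega) (by omega) (by omega) (by omega)).mp (by omega)

/-- **(W1)**: no Y-beam in the line `y = 2 n + 3` of the OUT row `b + 24` of `6 k + 4`, near the wall. -/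
theorem w1 (hf : Rule f) {k b m n : ℕ} (hs : Side k b m) (S : Stack6 f k b m 0 0 0 0 0 1) (hn : n = m + 9 + (k + 2) * 4)
    (C4 : Cyc f (6 * k + 4) (b + 20) (2 * (n + 1) + 2)) :
    ¬ f (6 * k + 4) (b + 24) (2 * n + 2 * k - 2) (2 * n + 3) := by
  intro h
  obtain ⟨hk, hb, h4, hb2, hm⟩ := hs
  have q (i : ℕ) : (k + 2) * (i + 1) = (k + 2) * i + k + 2 := by ring
  have q4 := q 4
  exact w1_aux hf (c := b + 22) (n := n) hk (by omega) (by omega) (by omega) (cyc_of C4 (by omega) (by omega))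
    (cyc_of (S.l6 5) (by omega) (by omega)) (cw_of (S.l8 5) (by omega) (by omega)) h

theorem w2_chk : check 5 6 8 15 1 0 1 1 0
    (fun j n p q => decide ((j = 5 ∧ n = 2 ∧ ((p + 1 ≤ q ∧ 3 ≤ q) ∨ (q ≤ p + 0)) ∧ (((p + q) % 2 = 1 ∧ p + 1 ≤ q ∧ p % 2 = 1) ∨ ((p + q) % 2 = 1 ∧ q ≤ p + 1 ∧ (p + q + 3) % 4 = 2)))
      ∨ (j = 1 ∧ n = 1 ∧ ((p + q) % 2 = 0 ∧ q ≤ p + 0 ∧ (p + q + 2) % 4 = 2))
      ∨ (j = 1 ∧ n = 2 ∧ q ≤ p + 0 ∧ (((p + q) % 2 = 1 ∧ p + 1 ≤ q ∧ p % 2 = 1) ∨ ((p + q) % 2 = 1 ∧ q ≤ p + 1 ∧ (p + q + 3) % 4 = 2)))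
      ∨ (j = 3 ∧ n = 2 ∧ (((p + q) % 2 = 1 ∧ p + 1 ≤ q ∧ p % 2 = 0) ∨ ((p + q) % 2 = 1 ∧ q ≤ p + 1 ∧ (p + q + 1) % 4 = 2)))
      ∨ (j = 3 ∧ n = 3 ∧ ((p + 3 ≤ q) ∨ (2 ≤ p)) ∧ ((p + q) % 2 = 0 ∧ q ≤ p + 0 ∧ (p + q + 2) % 4 = 2))
      ∨ (j = 5 ∧ n = 4 ∧ ((4 ≤ p ∧ p + 3 ≤ q) ∨ (6 ≤ p)) ∧ (((p + q) % 2 = 1 ∧ p + 1 ≤ q ∧ p % 2 = 0) ∨ ((p + q) % 2 = 1 ∧ q ≤ p + 1 ∧ (p + q + 1) % 4 = 2)))
      ∨ (j = 5 ∧ n = 4 ∧ 2 ≤ p ∧ p ≤ 3 ∧ p + 3 ≤ q ∧ (((p + q) % 2 = 1 ∧ p + 1 ≤ q ∧ p % 2 = 0) ∨ ((p + q) % 2 = 1 ∧ q ≤ p + 1 ∧ (p + q + 1) % 4 = 2)))))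
    (fun j n p q => decide ((j = 5 ∧ n = 2 ∧ ((p + 1 ≤ q ∧ 3 ≤ q) ∨ (q ≤ p + 0)) ∧ ¬ (((p + q) % 2 = 1 ∧ p + 1 ≤ q ∧ p % 2 = 1) ∨ ((p + q) % 2 = 1 ∧ q ≤ p + 1 ∧ (p + q + 3) % 4 = 2)))
      ∨ (j = 1 ∧ n = 1 ∧ ¬ ((p + q) % 2 = 0 ∧ q ≤ p + 0 ∧ (p + q + 2) % 4 = 2))
      ∨ (j = 1 ∧ n = 2 ∧ q ≤ p + 0 ∧ ¬ (((p + q) % 2 = 1 ∧ p + 1 ≤ q ∧ p % 2 = 1) ∨ ((p + q) % 2 = 1 ∧ q ≤ p + 1 ∧ (p + q + 3) % 4 = 2)))
      ∨ (j = 3 ∧ n = 2 ∧ ¬ (((p + q) % 2 = 1 ∧ p + 1 ≤ q ∧ p % 2 = 0) ∨ ((p + q) % 2 = 1 ∧ q ≤ p + 1 ∧ (p + q + 1) % 4 = 2)))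
      ∨ (j = 3 ∧ n = 3 ∧ ((p + 3 ≤ q) ∨ (2 ≤ p)) ∧ ¬ ((p + q) % 2 = 0 ∧ q ≤ p + 0 ∧ (p + q + 2) % 4 = 2))
      ∨ (j = 5 ∧ n = 4 ∧ ((4 ≤ p ∧ p + 3 ≤ q) ∨ (6 ≤ p)) ∧ ¬ (((p + q) % 2 = 1 ∧ p + 1 ≤ q ∧ p % 2 = 0) ∨ ((p + q) % 2 = 1 ∧ q ≤ p + 1 ∧ (p + q + 1) % 4 = 2)))
      ∨ (j = 5 ∧ n = 4 ∧ 2 ≤ p ∧ p ≤ 3 ∧ p + 3 ≤ q ∧ ¬ (((p + q) % 2 = 1 ∧ p + 1 ≤ q ∧ p % 2 = 0) ∨ ((p + q) % 2 = 1 ∧ q ≤ p + 1 ∧ (p + q + 1) % 4 = 2)))
      ∨ (j = 1 ∧ n = 4 ∧ p = 2 ∧ q = 9)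
      ∨ (j = 1 ∧ n = 4 ∧ p = 4 ∧ q = 11)))
    462
    0x3eb03027a8003ea5202798003e95203e083023400039c4202690003d95a026a0003da5a02790002790406a98303d18003d18403eb03027a8003ea5202798003e95202788002788406aa8303d28003d284036b03023f80023f8406a88303948003948403728302470002470406b88303a48003a48405498303d90003d90406b10303d98003d984036b0303a70003a704035903022d00022d0408188008190a06a88306a90006a90403690303a50003a504036903023d00023d04036b03023f00023f0406bb8303e38003e38403a60303a68003a68403618302360002360406b20303da0003da0406c20303ea8003ea84036083039d00039d0406ba8303e28003e284039c0303d88003d88403db03022e80022e8403690303a58003a584036a03023e00023e0403718303ae0003ae0403608302348002348403628302368003db6a026a80026a8403718302460002460403708303ad0003ad0403728302468002468406b203054a80054a8403718303ad8003ad8406aa0303d20003d20406c10305598005598406b98303e20003e20403728303ae8003ae84035903039580039584035b03022f00022f0403690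3023d80023d8408190306a88006a88103d10003d10406b88303a48003ac12028080028084036b0303a78003a78403728303af0003af04036a0302028002028406aa83039680039684036183039e00039e04035a0301f28001f28403630302370002370406b203054a8006b34a054b80054b84036183039d80039d8406c10303e98003e984035903022d80022d8406bb0303e30003e30406a88306a90006b11a05498005498406b88303e08003e08406b28303da8003da8408190306a88006a881039480039c1202708002708406b88303e10003e10403590301f18001f18403690302018002018403590301f180035a4a01f280035b4a01f38001f384035a03022e00022e0406c30303eb0003eb04037083024480024484035b0303970003970406b30303db0003db0406c10303e90003e90403590303950003950403708302450002450406ab8303d38003d384036183023580023584035b83022f80022f84037183024580024584036083023500023504036a0303a60003a604036a83023e80023e84036283039e80039e8406c20303ea0003ea04035a03039600039604036303039f00039f04035b8303978003978406b98303e18003e18403ac0303e88003e884082b80082a800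82980082880081c80081b80081a80081980080c80080b80080a80080980079980079880051c00050c0004fc0004e28004e18004e08004d38004d28004d18004d08004c38004c28004c18004c08001ff8001ef8001c40001b400082b8f082a8f08298f08288f081c8f081b8f081a8f08198f081187081107080c8f080b8f080a8f08098f07998f07988f055307055207055107055007054307054207054107054007051f07051e87051e07051d87051d07051c87051c0f051787051707051687051607051587051507051487051407051007050f87050f07050e87050e07050d87050d07050c87050c0f05078705070705068705060705058705050705048705040705000704ff8704ff0704fe8704fe0704fd8704fd0704fc8704fc0f04e28f04e18f04e08f04d38f04d28f04d18f04d08f04c38f04c28f04c18f04c08f028307028207028107027b87027307027207027107026b87020a0702090702080702078702000701ff8f01fb0701fa0701f90701f80701f78701f00701ef8f01ec0701eb0701ea0701e90701ce8701ce0701cd8701cd0701cc8701cc0701c70701c68701c60701c58701c50701c48701c40f01bf8701bf0701be8701be0701bd8701bd0701bc8701bc0701b78701b70701b68701b60701b58701b50701b48701b40f01b00701af8701af0701ae8701ae0701ad8701ad07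 = true := by
  decide +kernel

theorem w2_aux (hf : Rule f) {k c n : ℕ} (hk : 8 ≤ k) (hc : 100 * k + 1000 ≤ c) (h4 : (6 * k + c) % 4 = 0) (hn : c ≤ n)
    (C10a : Cw f (6 * k + 10) (c - 4) (n - (k + 2))) (C6 : Cyc f (6 * k + 6) (c - 4) (2 * (n - 5) + 2))
    (C8 : Cw f (6 * k + 8) (c - 2) (n - 3)) (C10 : Cw f (6 * k + 10) c n)
    (top : ∀ {M R x y : ℕ}, M = 6 * k + 10 → R = c → 2 * n + 1 ≤ x → x ≤ 2 * n + 2 → y ≤ x → x + 1 ≤ y + 2 * k →
      (x + y) % 2 = (x + y) % 2 → (f M R x y ↔ ((x + y) % 2 = 1 ∧ x < y + 2 * (k + 1) ∧ x % 2 = 1) ∨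
        ((x + y) % 2 = 1 ∧ 2 * (k + 1) + y ≤ x + 1 ∧ (x + y + 1) % 4 = (2 * (k + 1)) % 4)))
    (h1 : ∀ {M R x y : ℕ}, M = 6 * k + 6 → R = c → x = 2 * n + 1 → y + 2 * k = 2 * n + 6 → ¬ f M R x y)
    (h2 : ∀ {M R x y : ℕ}, M = 6 * k + 6 → R = c → x = 2 * n + 3 → y + 2 * k = 2 * n + 8 → ¬ f M R x y) : False := by
  obtain ⟨a0, ha0⟩ : ∃ z, z = 6 * k + 5 := ⟨_, rfl⟩
  obtain ⟨b0, hb0⟩ : ∃ z, z + 4 = c := ⟨c - 4, by omega⟩
  obtain ⟨x0, hx0⟩ : ∃ z, z + 1 = 2 * n := ⟨2 * n - 1, by omega⟩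
  obtain ⟨y0, hy0⟩ : ∃ z, z + 2 * k + 3 = 2 * n := ⟨2 * n - 2 * k - 3, by omega⟩
  refine check_sound hf (a0 := a0) (b0 := b0) (x0 := x0) (y0 := y0) w2_chk
    ⟨fun h => absurd h (by decide), fun h => absurd h (by decide), fun h => absurd h (by decide), by omega, by omega,
      by omega, by omega⟩ ?_ ?_
  · intro j m p q hr h
    obtain ⟨-, -, hm1, hm2, hp1, hp2, hq1, hq2⟩ := hr
    replace h := of_decide_eq_true h
    rcases h with h | h | h | h | h | h | h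
    · obtain ⟨rfl, rfl, h⟩ := h
      exact (NW.w2v C10a (by omega) (by omega) (by omega) (by omega) (by omega) (by omega) (by omega)).mpr (by omega)
    · obtain ⟨rfl, rfl, h⟩ := h
      exact (WrapC.v1 C6 (by omega) (by omega) (by omega) (by omega) (by omega) (by omega) (by omega) (by omega)).mpr (by omega)
    · obtain ⟨rfl, rfl, h⟩ := h
      exact (WrapC.v2 C6 (by omega) (by omega) (by omega) (by omega) (by omega) (by omega) (by omega)).mpr (by omega)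
    · obtain ⟨rfl, rfl, h⟩ := h
      exact (NW.w0v C8 (by omega) (by omega) (by omega) (by omega) (by omega) (by omega) (by omega)).mpr (by omega)
    · obtain ⟨rfl, rfl, h⟩ := h
      exact (NW.w1v C8 (by omega) (by omega) (by omega) (by omega) (by omega) (by omega) (by omega) (by omega)).mpr (by omega)
    · obtain ⟨rfl, rfl, h⟩ := h
      exact (NW.w0v C10 (by omega) (by omega) (by omega) (by omega) (by omega) (by omega) (by omega)).mpr (by omega)
    · obtain ⟨rfl, rfl, h⟩ := h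
      exact (top (by omega) (by omega) (by omega) (by omega) (by omega) (by omega) (by omega)).mpr (by omega)
  · intro j m p q hr h
    obtain ⟨-, -, hm1, hm2, hp1, hp2, hq1, hq2⟩ := hr
    replace h := of_decide_eq_true h
    rcases h with h | h | h | h | h | h | h | h | h
    · obtain ⟨rfl, rfl, h⟩ := h
      exact mt (NW.w2v C10a (by omega) (by omega) (by omega) (by omega) (by omega) (by omega) (by omega)).mp (by omega)
    · obtain ⟨rfl, rfl, h⟩ := h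
      exact mt (WrapC.v1 C6 (by omega) (by omega) (by omega) (by omega) (by omega) (by omega) (by omega) (by omega)).mp (by omega)
    · obtain ⟨rfl, rfl, h⟩ := h
      exact mt (WrapC.v2 C6 (by omega) (by omega) (by omega) (by omega) (by omega) (by omega) (by omega)).mp (by omega)
    · obtain ⟨rfl, rfl, h⟩ := h
      exact mt (NW.w0v C8 (by omega) (by omega) (by omega) (by omega) (by omega) (by omega) (by omega)).mp (by omega)
    · obtain ⟨rfl, rfl, h⟩ := h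
      exact mt (NW.w1v C8 (by omega) (by omega) (by omega) (by omega) (by omega) (by omega) (by omega) (by omega)).mp (by omega)
    · obtain ⟨rfl, rfl, h⟩ := h
      exact mt (NW.w0v C10 (by omega) (by omega) (by omega) (by omega) (by omega) (by omega) (by omega)).mp (by omega)
    · obtain ⟨rfl, rfl, h⟩ := h
      exact mt (top (by omega) (by omega) (by omega) (by omega) (by omega) (by omega) (by omega)).mp (by omega)
    · obtain ⟨rfl, rfl, rfl, rfl⟩ := h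
      exact h1 (by omega) (by omega) (by omega) (by omega)
    · obtain ⟨rfl, rfl, rfl, rfl⟩ := h
      exact h2 (by omega) (by omega) (by omega) (by omega)

/-- **(W2)**: near the wall one of the in-lines `x = 2 n + 1`, `x = 2 n + 3` of `6 k + 6` in the row `b + 22` is present. -/
theorem w2 (hf : Rule f) {k b m n : ℕ} (hs : Side k b m) (S : Stack6 f k b m 0 0 0 0 0 1) (hn : n = m + 9 + (k + 2) * 4)
    (top : ∀ x y : ℕ, y ≤ x → x + 1 ≤ y + 2 * k → x = 2 * n + 1 ∨ x = 2 * n + 2 →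
      (f (6 * k + 10) (b + 22) x y ↔ Fst (6 * k + 10) (b + 22) x y)) :
    f (6 * k + 6) (b + 22) (2 * n + 1) (2 * n + 6 - 2 * k) ∨ f (6 * k + 6) (b + 22) (2 * n + 3) (2 * n + 8 - 2 * k) := by
  by_contra hc
  obtain ⟨hk, hb, h4, hb2, hm⟩ := hs
  have q (i : ℕ) : (k + 2) * (i + 1) = (k + 2) * i + k + 2 := by ring
  have q3 := q 3
  refine w2_aux hf (c := b + 22) (n := n) hk (by omega) (by omega) (by omega) (cw_of (S.l10 3) (by omega) (by omega))
    (cyc_of (S.l6 4) (by omega) (by omega)) (cw_of (S.l8 4) (by omega) (by omega)) (cw_of (S.l10 4) (by omega) (by omega))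
    ?_ ?_ ?_
  · intro M R x y e1 e2 e3 e4 e5 e6 _
    subst e1 e2
    rw [top x y e5 e6 (by omega)]
    have h := LocZ.fst_two (B := 6 * k + 10) (b := b + 22) (x := x) (y := y) (by omega) (by omega) e5 (by omega)
    rwa [show (6 * k + 10) / 6 = k + 1 by omega] at h
  · intro M R x y e1 e2 e3 e4 h
    exact hc (Or.inl (mv h (by omega) (by omega) (by omega) (by omega)))
  · intro M R x y e1 e2 e3 e4 h
    exact hc (Or.inr (mv h (by omega) (by omega) (by omega) (by omega)))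

end Pool.Agent.SNT.Z34
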