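import Pool.Agent.SNT.LL10
import Pool.Agent.SNT.Z34W

set_option autoImplicit false

/-! The line `y = 2 n + 3` of `6 k + 4` in the row `c + 2` has no beam, from the wall to the diagonal. -/

namespace Pool.Agent.SNT.Z34

open Pool.Agent.SNT Pool.Agent.SNT.Sig Pool.Agent.SNT.Loc Pool.Agent.SNT.LW Pool.Agent.SNT.LRI Pool.Agent.SNT.NHZ

variable {f : ℕ → ℕ → ℕ → ℕ → Prop} {k c n : ℕ}

/-- one step of the run along a row -/
theorem row_step (hf : Rule f) {L R x y : ℕ} (hL : L % 2 = 0) (hR : R % 2 = 0) (hx : x % 2 = 0) (hy : y % 2 = 1)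
    (hcov : Cov f L R (x + 1) y) (h0 : f L R x y) : f L R (x + 2) y := by
  rcases hcov with h | h | h | h
  · exact absurd h (kill hf h0 0 0 1 0 (by omega) (by omega) le_rfl (by omega) (by omega))
  · exact h
  · exact absurd h (kill hf h0 0 0 1 1 (by omega) (by omega) le_rfl le_rfl (by omega))
  · exact absurd h (even_zero hf hL hR (by omega) (by omega))

/-- the run along a row -/
theorem row_run (hf : Rule f) {L R x0 x1 y : ℕ} (hL : L % 2 = 0) (hR : R % 2 = 0) (hx : x0 % 2 = 0) (hy : y % 2 = 1)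
    (hcov : ∀ x, x0 ≤ x → x < x1 → x % 2 = 1 → Cov f L R x y) (h0 : f L R x0 y) :
    ∀ x, x0 ≤ x → x ≤ x1 → x % 2 = 0 → f L R x y := by
  have key : ∀ j, x0 + 2 * j ≤ x1 → f L R (x0 + 2 * j) y := by
    intro j
    induction j with
    | zero => exact fun _ => h0
    | succ j ih =>
      intro hj
      have e1 : x0 + 2 * (j + 1) = x0 + 2 * j + 2 := by ring
      rw [e1]
      exact row_step hf (x := x0 + 2 * j) hL hR (by omega) hy
        (hcov (x0 + 2 * j + 1) (by omega) (by omega) (by omega)) (ih (by omega))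
  intro x h1 h2 h3
  have h4 := key ((x - x0) / 2) (by omega)
  have h5 : x0 + 2 * ((x - x0) / 2) = x := by omega
  rwa [h5] at h4

/-- the bounds of the OUT rows with the two new lines -/
def Yg (N t : ℕ) : ℕ := if t < 5 then N - 18 + 4 * t else N + 2

/-- the OUT tower with the two new lines of the leader -/
theorem towerG (T : NHT f k c (2 * n))
    (top2 : ∀ x y : ℕ, y ≤ x → x ≤ y + 2 * k + 1 → y = 2 * n + 2 ∨ y = 2 * n + 3 →
      (f (6 * k + 10) (c + 2) x y ↔ Fst (6 * k + 10) (c + 2) x y)) :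
    ZoneT.Tower f (6 * k) (c - 8) 5 (2 * k) (Yg (2 * n)) := by
  have hk := T.hk
  have hb := T.hb
  have hN := T.hN2
  have h4 := T.h4
  have O := T.O
  refine ⟨O.ha, O.ha1, O.hr1, O.hD, fun t ht => ?_, fun t x y ht hy h1 h2 h3 h5 => ?_⟩
  · unfold Yg
    rw [if_pos (by omega)]
    split_ifs <;> omega
  · rcases Nat.lt_or_ge t 5 with h | h
    · refine O.out t x y ht ?_ h1 h2 h3 h5
      unfold Yg at hy
      unfold Yf
      rw [if_pos h] at hy ⊢
      exact hy
    · have e : t = 5 := by omega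
      subst e
      unfold Yg at hy
      rw [if_neg (by omega)] at hy
      rcases Nat.lt_or_ge y (2 * n + 4) with h6 | h6
      · have e1 : y = 2 * n + 3 := by omega
        have e2 : c - 8 + 2 * 5 = c + 2 := by omega
        have e3 : 6 * k + 2 * 5 = 6 * k + 10 := by omega
        rw [e2, e3, top2 x y (by omega) (by omega) (by omega)]
        rw [LocZ.fst_zero (B := 6 * k + 10) (b := c + 2) (x := x) (y := y) (by omega) (by omega) (by omega) (by omega)]
        omega
      · refine O.out 5 x y ht ?_ h1 h2 h3 h5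
        unfold Yf
        rw [if_neg (by omega)]
        exact h6

/-- **no beam in the line `y = 2 n + 3`** -/
theorem noY3 (hf : Rule f) (T : NHT f k c (2 * n))
    (top2 : ∀ x y : ℕ, y ≤ x → x ≤ y + 2 * k + 1 → y = 2 * n + 2 ∨ y = 2 * n + 3 →
      (f (6 * k + 10) (c + 2) x y ↔ Fst (6 * k + 10) (c + 2) x y))
    (w : ¬ f (6 * k + 4) (c + 2) (2 * n + 2 * k - 2) (2 * n + 3)) {x : ℕ} (hx : x % 2 = 0) (h1 : 2 * n + 6 ≤ x)
    (h2 : x + 2 ≤ 2 * n + 2 * k) : ¬ f (6 * k + 4) (c + 2) x (2 * n + 3) := by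
  intro h
  have hk := T.hk
  have hb := T.hb
  have hc := T.hc
  have S := towerG T top2
  exact w (row_run hf (L := 6 * k + 4) (R := c + 2) (x0 := x) (x1 := 2 * n + 2 * k - 2) (y := 2 * n + 3) (by omega)
    (by omega) hx (by omega)
    (fun u h3 h4 h5 => S.cov hf (t := 5) (s := 2) (j := 3) le_rfl (by omega) (by omega) (by omega) (by omega)
      (by unfold Yg; rw [if_neg (by omega)]; omega) (by omega) (by omega)) h _ (by omega) le_rfl (by omega))

/-- over the window with the improved leads -/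
theorem noY3_win {b m : ℕ} (hf : Rule f) (W : Win f k b m n)
    (top2 : ∀ x y : ℕ, y ≤ x → x ≤ y + 2 * k + 1 → y = 2 * n + 2 ∨ y = 2 * n + 3 →
      (f (6 * k + 10) (b + 24) x y ↔ Fst (6 * k + 10) (b + 24) x y)) {x : ℕ} (hx : x % 2 = 0) (h1 : 2 * n + 6 ≤ x)
    (h2 : x + 2 ≤ 2 * n + 2 * k) : ¬ f (6 * k + 4) (b + 24) x (2 * n + 3) :=
  noY3 (c := b + 22) hf (W.li hf).T top2 (w1 hf W.hs W.S W.hn W.d4) hx h1 h2

end Pool.Agent.SNT.Z34
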