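import Pool.Agent.SNT.LL10
import Pool.Agent.SNT.Z34W

set_option autoImplicit false
set_option synthInstance.maxSize 100000
set_option synthInstance.maxHeartbeats 4000000

/-! z4: the window near the diagonal. -/

namespace Pool.Agent.SNT.Z4N

open Pool.Agent.SNT Pool.Agent.SNT.Loc Pool.Agent.SNT.LW Pool.Agent.SNT.LRI

variable {f : ℕ → ℕ → ℕ → ℕ → Prop}

theorem z4_chk : check 12 9 15 15 0 0 1 1 2
    (fun j n p q => decide ((j = 6 ∧ n = 1 ∧ q ≤ p ∧ (p = q ∧ p % 2 = 0))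
      ∨ (j = 6 ∧ n = 2 ∧ 8 ≤ p ∧ q ≤ p ∧ (p % 2 = 0 ∧ q % 2 = 1))
      ∨ (j = 10 ∧ n = 1 ∧ q ≤ p ∧ (p = q ∧ p % 2 = 0))
      ∨ (j = 12 ∧ n = 1 ∧ q ≤ p ∧ (p = q ∧ p % 2 = 1))
      ∨ (j = 12 ∧ n = 2 ∧ q ≤ p ∧ (p % 2 = 1 ∧ q % 2 = 0))
      ∨ (j = 12 ∧ n = 3 ∧ q ≤ p ∧ (p = q ∧ p % 2 = 0))
      ∨ (j = 4 ∧ n = 2 ∧ q ≤ p ∧ (p % 2 = 1 ∧ q % 2 = 0))
      ∨ (j = 4 ∧ n = 3 ∧ q ≤ p ∧ (p = q ∧ p % 2 = 0))
      ∨ (j = 6 ∧ n = 5 ∧ 11 ≤ q ∧ q ≤ p ∧ (p = q ∧ p % 2 = 0))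
      ∨ (j = 8 ∧ n = 2 ∧ q ≤ p ∧ (p % 2 = 1 ∧ q % 2 = 0))
      ∨ (j = 10 ∧ n = 4 ∧ q ≤ p ∧ (p % 2 = 1 ∧ q % 2 = 0))
      ∨ (j = 12 ∧ n = 4 ∧ ((6 ≤ p) ∨ (8 ≤ p)) ∧ q ≤ p ∧ (p % 2 = 0 ∧ q % 2 = 1))
      ∨ (j = 12 ∧ n = 5 ∧ ((7 ≤ p) ∨ (10 ≤ p)) ∧ q ≤ p ∧ (p = q ∧ p % 2 = 1))
      ∨ (j = 12 ∧ n = 6 ∧ 7 ≤ q ∧ q ≤ p ∧ (p % 2 = 1 ∧ q % 2 = 0))
      ∨ (j = 2 ∧ n = 2 ∧ q ≤ p ∧ (p % 2 = 0 ∧ q % 2 = 1))
      ∨ (j = 2 ∧ n = 3 ∧ q ≤ p ∧ (p = q ∧ p % 2 = 1))
      ∨ (j = 2 ∧ n = 4 ∧ q ≤ p ∧ (p % 2 = 1 ∧ q % 2 = 0))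
      ∨ (j = 6 ∧ n = 2 ∧ 6 ≤ p ∧ p ≤ 6 ∧ 5 ≤ q ∧ q ≤ 5 ∧ q % 2 = 1 ∧ q ≤ p)
      ∨ (j = 6 ∧ n = 2 ∧ 2 ≤ p ∧ p ≤ 2 ∧ q ≤ 1 ∧ q % 2 = 1 ∧ q ≤ p)
      ∨ (j = 12 ∧ n = 4 ∧ 4 ≤ p ∧ p ≤ 5 ∧ q ≤ p + 0 ∧ q ≤ p ∧ (p % 2 = 0 ∧ q % 2 = 1))
      ∨ (j = 12 ∧ n = 6 ∧ 5 ≤ q ∧ q ≤ 6 ∧ q ≤ p + 0 ∧ q ≤ p ∧ (p % 2 = 1 ∧ q % 2 = 0))
      ∨ (j = 11 ∧ n = 7 ∧ p = 8 ∧ q = 8)))
    (fun j n p q => decide ((j = 6 ∧ n = 1 ∧ q ≤ p ∧ ¬ (p = q ∧ p % 2 = 0))
      ∨ (j = 6 ∧ n = 2 ∧ 8 ≤ p ∧ q ≤ p ∧ ¬ (p % 2 = 0 ∧ q % 2 = 1))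
      ∨ (j = 10 ∧ n = 1 ∧ q ≤ p ∧ ¬ (p = q ∧ p % 2 = 0))
      ∨ (j = 12 ∧ n = 1 ∧ q ≤ p ∧ ¬ (p = q ∧ p % 2 = 1))
      ∨ (j = 12 ∧ n = 2 ∧ q ≤ p ∧ ¬ (p % 2 = 1 ∧ q % 2 = 0))
      ∨ (j = 12 ∧ n = 3 ∧ q ≤ p ∧ ¬ (p = q ∧ p % 2 = 0))
      ∨ (j = 4 ∧ n = 2 ∧ q ≤ p ∧ ¬ (p % 2 = 1 ∧ q % 2 = 0))
      ∨ (j = 4 ∧ n = 3 ∧ q ≤ p ∧ ¬ (p = q ∧ p % 2 = 0))
      ∨ (j = 6 ∧ n = 5 ∧ 11 ≤ q ∧ q ≤ p ∧ ¬ (p = q ∧ p % 2 = 0))
      ∨ (j = 8 ∧ n = 2 ∧ q ≤ p ∧ ¬ (p % 2 = 1 ∧ q % 2 = 0))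
      ∨ (j = 10 ∧ n = 4 ∧ q ≤ p ∧ ¬ (p % 2 = 1 ∧ q % 2 = 0))
      ∨ (j = 12 ∧ n = 4 ∧ ((6 ≤ p) ∨ (8 ≤ p)) ∧ q ≤ p ∧ ¬ (p % 2 = 0 ∧ q % 2 = 1))
      ∨ (j = 12 ∧ n = 5 ∧ ((7 ≤ p) ∨ (10 ≤ p)) ∧ q ≤ p ∧ ¬ (p = q ∧ p % 2 = 1))
      ∨ (j = 12 ∧ n = 6 ∧ 7 ≤ q ∧ q ≤ p ∧ ¬ (p % 2 = 1 ∧ q % 2 = 0))
      ∨ (j = 2 ∧ n = 2 ∧ q ≤ p ∧ ¬ (p % 2 = 0 ∧ q % 2 = 1))
      ∨ (j = 2 ∧ n = 3 ∧ q ≤ p ∧ ¬ (p = q ∧ p % 2 = 1))
      ∨ (j = 2 ∧ n = 4 ∧ q ≤ p ∧ ¬ (p % 2 = 1 ∧ q % 2 = 0))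
      ∨ (j = 1 ∧ q ≤ p)
      ∨ (j = 6 ∧ n = 6 ∧ 6 ≤ q ∧ q ≤ 6 ∧ 11 ≤ p ∧ p ≤ 11 ∧ p % 2 = 1 ∧ q ≤ p)
      ∨ (j = 12 ∧ n = 4 ∧ 4 ≤ p ∧ p ≤ 5 ∧ q ≤ p + 0 ∧ q ≤ p ∧ ¬ (p % 2 = 0 ∧ q % 2 = 1))
      ∨ (j = 12 ∧ n = 6 ∧ 5 ≤ q ∧ q ≤ 6 ∧ q ≤ p + 0 ∧ q ≤ p ∧ ¬ (p % 2 = 1 ∧ q % 2 = 0))))
    923
    0x2ae083267b0e26eb8e228683267b00267b041b0e8316a90e17198e0acb830f30801325421719801719841f030022f7c21e920e1f028e26ec0026ec0422ef831e8a0e1efa8e26e40026e4042287031e218e1e920e267b80267b8422f70326eb8026eb8419348314cf0e19340e19ad0019a4801a1da215b80e16288e19ac8e1a1d0e1a1cb21a8d801a959a1e8a801e8a841325830ec00e0f308e0acb830f30800f3084171a00171a040abb030f2780131cca1711001b064a1efa801efa841a9d031e91801e91841a95831e8a001e8a041b068316a10e17118e1efb001efb041a1c831a1d001a1d041afe8316990e17098e1ef3001ef3041a9d831f02801f028412b38316af801aa4ca16a08016a0842699831ea8801ea8811aa4801aa4841a8e0316288e16990e1e82801e8284131d031711801711841caf83192b801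d98fa1a14801a14841a2d801a2d8115c80e16388e1a2d0e19bc031a2d001a2d041315830eb00e0f208e170a00170a0419ab831a1c001a1c0413150317098017098425b8031dc7001dc7011a43801a4384130d830f188e1702001702041a9d831e92001e920412bb8316b00016b004131d830f288e17120017120412b38316a80016a80412a48316990016990412b40316a88016a8841e91831f02001f020412ac8316a10016a10419b4831a25801a25840b34030f28800f288419b4831a25001a25041dc7031e38001e38040abb030eaf800eaf8411b3831620001620042699031ea8001ea80421c4032234802234840abb030eb7000eb70419b4831e1a001e1a0425a98326218026218412b48316a90016a9040acb030ebf800ebf8425b00326208026208411d303163f80163f842e828326918026918411d28315c70015c7040aca830ebf000ebf0419cb831a3c001a3c0421c383223400223404122c830dc70e16918016918419d2831a43001a430425b8832629002629041244830e4f8e16390016390412b5030e4f8e0ec00e16a98016a98421bb83222c00222c041caf8319330019330425b083222c80222c8411c303123b00123b0411c38315bf8015bf841cb0031933801933840abb830f208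00f208419c2801db7ca19b3801da8ca19348314cf0e19340e1da1001da10411c28316278016278419bc031a2c801a2c842599831da8801da88425b7831dc6801dc6840b1c8306b70e07278e0f11000f11040abb030ac2800aca9a0ec6800ec6840abb830f28000f28040aca030ebe800ebe840b24030f18800f188411d2831243001243040b248306bf0e072f8e0f19000f19041a2d031e21801e218411c3831630001630041caf831d27801d27840abb830eb7800eb78412a5030e3f8e0eb00e16998016998421a58322160022160419348314cf0e19340e19ac8019ac842589031d98001d98041db0831e21001e21041dc0031e30801e30840acb030ec7000ec704123c0316308016308419cb031a3b801a3b841d99031da0801da0840acb830ec0000ec0041da9031e19801e19840b348306cf0e073f8e0f29000f290425b08326210026210425b0831dbf801dbf842e8a8326998026998411d3031638001638041cb0031d28001d280411c38315b80015b8041caf831d20001d2004123c830dd70e16a18016a1842599031da8001da80411d2831637801637840b2c8306c70e07378e0f21000f210425b80326288026288421bc83222d00222d041dbf831e30001e3004122c830dc70e162100162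1040b3c8306d70e07478e0f31000f310411c383123b80123b840abb830eb0000eb00411d20312428012428411b38315af8015af8425a8031db7001db7040abb030f20000f200421c3032233802233841234830e3f8e16290016290411c3031628001628042589831d98801d98842581831d90801d90842e82032691002691042e830326920026920411b38315a80019a4da19ac0019ac0419c3831a34001a34041dc7031e37801e378421a50322158022158411c38316288016288411d38316388016388411d38315c80015c80425a8831db7801db7842e8a032699002699042e8983269880269884260303267380267384124a83163f00163f040acb030f30000f30041d29031d288e258a031d28801d288414c78014c784123c830dd70e16310016310411d30315c78015c78425b7832628002628041944801924801d394219440e1d388e1d194219240e1d188e2a6f0021358021258018c9802115802e644a252a4221350e25298e251a4221250e25198e1cbeca250a4221150e25098e29ef8029ff80204c80203c8018ca80202c800a5b800a4b800a3b802de442297e8e29ef0e2d730e2de38e2e64e229ff0e2df38e20c53a1c5f8e1cd00e20540e20c48e20b53a1c4f8e1cc00e20440e20b48e1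cbfca20a53a1c3f8e1cb00e20340e20a48e0a5b8105f60e06668e0a5b0e0a4b8105e60e06568e0a4b0e0a3b8105d60e06468e0a3b0e327f80327080327e80326f80327d80326e80325f8032508031f08031e0802ed50029b48029a58029968029b38029a48029958029868029a38029948029858029768029848029758020db8020cc8020da8020cb8020bc8020d98020ca8020bb8020ac8020ba8020ab80209c8018f98018ea8018db8018f88018e98018da8018cb8018d98018ab80186b80185b80184b80183b8011638011538011438011338011088010f98010ea8011078010f88010e98010da8010d98010ca8009f18009e28009f08009e18009d28009e08009d18009c28009728009628009528009098009088008f98009078008f88008e98008f78008e88008d980327f8f32708f327e8f326f8f327d8f326e8f325f8f32508f31f08f31e08f2ed50f2a96072a87072a95072a86072a680729b48f29a58f29968f29b38f29a48f29958f29868f297f07297e8729770729a38f29948f29858f29768f29848f29758f229d07227f0721bc0721ad07219e0721bb0721ac07219d07218e07218d0720db8f20cc8f20c50720c48720bd0720da8f20cb8f20bc8f20b50720b48720ad0720d98f20ca8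f20bb8f20ac8f20a50720a487209d0720ba8f20ab8f209c8f1ab4071a96071ab3871aa4071a95071a860719c40719b50719d20719c30719b40719a50719a40718f98f18ea8f18db8f18d40718f88f18e98f18da8f18cb8f18c40718d98f18c30718b40718c20718b30718ab8f186b8f185b8f185a87185307184b8f185a07185287184b07184387185987185207184a87184307183b8f185907185187184a0718428712ad0712bb0712ac07129d0711cc0711da0711cb0711bc0711ca0711bb0711ac0711638f116307115b87116287115b0711538f116207115a87115307114b87116187115a07115287114b0711438f116107115987115207114a87114307113b87115187114a07114287113b0711338f11088f10f98f10ea8f11078f10f88f10e98f10da8f10d98f10ca8f0ac4070ac3070ab4070ac2070ab3070aa40709eb0709ea8709e30709f18f09e28f09db0709da8709d30709f08f09e18f09d28f09cb0709ca8709c30709e08f09d18f09c28f09728f09628f09528f09098f09088f08f98f09078f08f88f08e98f08f78f08e88f08d98f074807074787074007073f87073807073f07073787073007072f87072807072f0707278707200706d78706d70706cf8706d68706cf0706c78706d60706ce8706c70706bf8706d58706ce0706c68706bf0706b78706d50706cd8706c60706be8706b70706af87066707066687065f07066607065e87065707066587065e07065687064f07066507065d87065607064e87064707066487065d07065587064e07064687063f0705f68705f60705ee8705e68705e60705de8705d68705d60705ce87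 = true := by
  decide +kernel

theorem z4_aux (hf : Rule f) {k c n : ℕ} (hk : 8 ≤ k) (hc : 12 * k + 100 ≤ c) (h4 : (6 * k + 10 + c) % 4 = 2)
    (hn : 2 * k + 100 ≤ 2 * n)
    (hL : ∀ {M R x y : ℕ}, M + 1 = 6 * k → c ≤ R + 10 → R ≤ c + 3 → 2 * n ≤ x + 20 → y ≤ x → x ≤ y + 4 * k → ¬ f M R x y)
    (C4a : Cyc f (6 * k + 4) (c - 6) (2 * (n - (k + 1)) + 2)) (C8a : Cw f (6 * k + 8) (c - 6) (n - (k + 5)))
    (C10a : Cw f (6 * k + 10) (c - 4) (n - (k + 2))) (C2 : Cyc f (6 * k + 2) (c - 4) (2 * (n - 5) + 2))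
    (C4 : Cyc f (6 * k + 4) (c - 2) (2 * (n + 1) + 2)) (C6 : Cyc f (6 * k + 6) (c - 4) (2 * (n - 5) + 2))
    (C8 : Cw f (6 * k + 8) (c - 2) (n - 3)) (C10 : Cw f (6 * k + 10) c n)
    (C0b : Cyc f (6 * k) (c - 2) (2 * (n - 3) + 2))
    (top : ∀ {M R x y : ℕ}, M = 6 * k + 10 → R = c → 2 * n + 1 ≤ x → x ≤ 2 * n + 2 → y ≤ x → x + 1 ≤ y + 2 * k →
      (x + y) % 2 = (x + y) % 2 → (f M R x y ↔ ((x + y) % 2 = 1 ∧ x < y + 2 * (k + 1) ∧ x % 2 = 1) ∨
        ((x + y) % 2 = 1 ∧ 2 * (k + 1) + y ≤ x + 1 ∧ (x + y + 1) % 4 = (2 * (k + 1)) % 4)))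
    (top2 : ∀ {M R x y : ℕ}, M = 6 * k + 10 → R = c + 2 → 2 * n + 2 ≤ y → y ≤ 2 * n + 3 → y ≤ x → x ≤ y + 2 * k + 1 →
      (x + y) % 2 = (x + y) % 2 → (f M R x y ↔ ((x + y) % 2 = 1 ∧ x < y + 2 * (k + 1) ∧ x % 2 = 0) ∨
        ((x + y) % 2 = 1 ∧ 2 * (k + 1) + y ≤ x + 1 ∧ (x + y + 3) % 4 = (2 * (k + 1)) % 4)))
    (t3 : f (6 * k + 4) (c - 2) (2 * n + 3) (2 * n + 2)) (tm : f (6 * k + 4) (c - 2) (2 * n - 1) (2 * n - 2))
    (ny : ¬ f (6 * k + 4) (c + 2) (2 * n + 8) (2 * n + 3))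
    (hz : f (6 * k + 9) (c + 3) (2 * n + 5) (2 * n + 5)) : False := by
  obtain ⟨a0, ha0⟩ : ∃ z, z + 2 = 6 * k := ⟨6 * k - 2, by omega⟩
  obtain ⟨b0, hb0⟩ : ∃ z, z + 4 = c := ⟨c - 4, by omega⟩
  obtain ⟨x0, hx0⟩ : ∃ z, z + 3 = 2 * n := ⟨2 * n - 3, by omega⟩
  refine check_sound hf (a0 := a0) (b0 := b0) (x0 := x0) (y0 := x0) z4_chk
    ⟨fun _ => rfl, fun h => absurd h (by decide), fun h => absurd h (by decide), by omega, by omega,
      by omega, by omega⟩ ?_ ?_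
  · intro j m p q hr h
    obtain ⟨-, -, hm1, hm2, hp1, hp2, hq1, hq2⟩ := hr
    replace h := of_decide_eq_true h
    rcases h with h | h | h | h | h | h | h | h | h | h | h | h | h | h | h | h | h | h | h | h | h | h
    · obtain ⟨rfl, rfl, h⟩ := h
      exact (WrapC.v3 C4a (by omega) (by omega) (by omega) (by omega) (by omega) (by omega) (by omega) (by omega)).mpr (by omega)
    · obtain ⟨rfl, rfl, h⟩ := h
      exact (WrapC.v4 C4a (by omega) (by omega) (by omega) (by omega) (by omega) (by omega) (by omega)).mpr (by omega)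
    · obtain ⟨rfl, rfl, h⟩ := h
      exact (NW.w3v C8a (by omega) (by omega) (by omega) (by omega) (by omega) (by omega) (by omega) (by omega)).mpr (by omega)
    · obtain ⟨rfl, rfl, h⟩ := h
      exact (NW.w1v C10a (by omega) (by omega) (by omega) (by omega) (by omega) (by omega) (by omega) (by omega)).mpr (by omega)
    · obtain ⟨rfl, rfl, h⟩ := h
      exact (NW.w2v C10a (by omega) (by omega) (by omega) (by omega) (by omega) (by omega) (by omega)).mpr (by omega)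
    · obtain ⟨rfl, rfl, h⟩ := h
      exact (NW.w3v C10a (by omega) (by omega) (by omega) (by omega) (by omega) (by omega) (by omega) (by omega)).mpr (by omega)
    · obtain ⟨rfl, rfl, h⟩ := h
      exact (WrapC.v2 C2 (by omega) (by omega) (by omega) (by omega) (by omega) (by omega) (by omega)).mpr (by omega)
    · obtain ⟨rfl, rfl, h⟩ := h
      exact (WrapC.v3 C2 (by omega) (by omega) (by omega) (by omega) (by omega) (by omega) (by omega) (by omega)).mpr (by omega)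
    · obtain ⟨rfl, rfl, h⟩ := h
      exact (WrapC.v3 C4 (by omega) (by omega) (by omega) (by omega) (by omega) (by omega) (by omega) (by omega)).mpr (by omega)
    · obtain ⟨rfl, rfl, h⟩ := h
      exact (WrapC.v2 C6 (by omega) (by omega) (by omega) (by omega) (by omega) (by omega) (by omega)).mpr (by omega)
    · obtain ⟨rfl, rfl, h⟩ := h
      exact (NW.w2v C8 (by omega) (by omega) (by omega) (by omega) (by omega) (by omega) (by omega)).mpr (by omega)
    · obtain ⟨rfl, rfl, h⟩ := h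
      exact (NW.w0v C10 (by omega) (by omega) (by omega) (by omega) (by omega) (by omega) (by omega)).mpr (by omega)
    · obtain ⟨rfl, rfl, h⟩ := h
      exact (NW.w1v C10 (by omega) (by omega) (by omega) (by omega) (by omega) (by omega) (by omega) (by omega)).mpr (by omega)
    · obtain ⟨rfl, rfl, h⟩ := h
      exact (NW.w2v C10 (by omega) (by omega) (by omega) (by omega) (by omega) (by omega) (by omega)).mpr (by omega)
    · obtain ⟨rfl, rfl, h⟩ := h
      exact (WrapC.v0 C0b (by omega) (by omega) (by omega) (by omega) (by omega) (by omega) (by omega)).mpr (by omega)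
    · obtain ⟨rfl, rfl, h⟩ := h
      exact (WrapC.v1 C0b (by omega) (by omega) (by omega) (by omega) (by omega) (by omega) (by omega) (by omega)).mpr (by omega)
    · obtain ⟨rfl, rfl, h⟩ := h
      exact (WrapC.v2 C0b (by omega) (by omega) (by omega) (by omega) (by omega) (by omega) (by omega)).mpr (by omega)
    · obtain ⟨rfl, rfl, h⟩ := h
      exact mv t3 (by omega) (by omega) (by omega) (by omega)
    · obtain ⟨rfl, rfl, h⟩ := h
      exact mv tm (by omega) (by omega) (by omega) (by omega)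
    · obtain ⟨rfl, rfl, h⟩ := h
      exact (top (by omega) (by omega) (by omega) (by omega) (by omega) (by omega) (by omega)).mpr (by omega)
    · obtain ⟨rfl, rfl, h⟩ := h
      exact (top2 (by omega) (by omega) (by omega) (by omega) (by omega) (by omega) (by omega)).mpr (by omega)
    · obtain ⟨rfl, rfl, rfl, rfl⟩ := h
      exact mv hz (by omega) (by omega) (by omega) (by omega)
  · intro j m p q hr h
    obtain ⟨-, -, hm1, hm2, hp1, hp2, hq1, hq2⟩ := hr
    replace h := of_decide_eq_true h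
    rcases h with h | h | h | h | h | h | h | h | h | h | h | h | h | h | h | h | h | h | h | h | h
    · obtain ⟨rfl, rfl, h⟩ := h
      exact mt (WrapC.v3 C4a (by omega) (by omega) (by omega) (by omega) (by omega) (by omega) (by omega) (by omega)).mp (by omega)
    · obtain ⟨rfl, rfl, h⟩ := h
      exact mt (WrapC.v4 C4a (by omega) (by omega) (by omega) (by omega) (by omega) (by omega) (by omega)).mp (by omega)
    · obtain ⟨rfl, rfl, h⟩ := h
      exact mt (NW.w3v C8a (by omega) (by omega) (by omega) (by omega) (by omega) (by omega) (by omega) (by omega)).mp (by omega)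
    · obtain ⟨rfl, rfl, h⟩ := h
      exact mt (NW.w1v C10a (by omega) (by omega) (by omega) (by omega) (by omega) (by omega) (by omega) (by omega)).mp (by omega)
    · obtain ⟨rfl, rfl, h⟩ := h
      exact mt (NW.w2v C10a (by omega) (by omega) (by omega) (by omega) (by omega) (by omega) (by omega)).mp (by omega)
    · obtain ⟨rfl, rfl, h⟩ := h
      exact mt (NW.w3v C10a (by omega) (by omega) (by omega) (by omega) (by omega) (by omega) (by omega) (by omega)).mp (by omega)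
    · obtain ⟨rfl, rfl, h⟩ := h
      exact mt (WrapC.v2 C2 (by omega) (by omega) (by omega) (by omega) (by omega) (by omega) (by omega)).mp (by omega)
    · obtain ⟨rfl, rfl, h⟩ := h
      exact mt (WrapC.v3 C2 (by omega) (by omega) (by omega) (by omega) (by omega) (by omega) (by omega) (by omega)).mp (by omega)
    · obtain ⟨rfl, rfl, h⟩ := h
      exact mt (WrapC.v3 C4 (by omega) (by omega) (by omega) (by omega) (by omega) (by omega) (by omega) (by omega)).mp (by omega)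
    · obtain ⟨rfl, rfl, h⟩ := h
      exact mt (WrapC.v2 C6 (by omega) (by omega) (by omega) (by omega) (by omega) (by omega) (by omega)).mp (by omega)
    · obtain ⟨rfl, rfl, h⟩ := h
      exact mt (NW.w2v C8 (by omega) (by omega) (by omega) (by omega) (by omega) (by omega) (by omega)).mp (by omega)
    · obtain ⟨rfl, rfl, h⟩ := h
      exact mt (NW.w0v C10 (by omega) (by omega) (by omega) (by omega) (by omega) (by omega) (by omega)).mp (by omega)
    · obtain ⟨rfl, rfl, h⟩ := h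
      exact mt (NW.w1v C10 (by omega) (by omega) (by omega) (by omega) (by omega) (by omega) (by omega) (by omega)).mp (by omega)
    · obtain ⟨rfl, rfl, h⟩ := h
      exact mt (NW.w2v C10 (by omega) (by omega) (by omega) (by omega) (by omega) (by omega) (by omega)).mp (by omega)
    · obtain ⟨rfl, rfl, h⟩ := h
      exact mt (WrapC.v0 C0b (by omega) (by omega) (by omega) (by omega) (by omega) (by omega) (by omega)).mp (by omega)
    · obtain ⟨rfl, rfl, h⟩ := h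
      exact mt (WrapC.v1 C0b (by omega) (by omega) (by omega) (by omega) (by omega) (by omega) (by omega) (by omega)).mp (by omega)
    · obtain ⟨rfl, rfl, h⟩ := h
      exact mt (WrapC.v2 C0b (by omega) (by omega) (by omega) (by omega) (by omega) (by omega) (by omega)).mp (by omega)
    · obtain ⟨rfl, h⟩ := h
      exact hL (by omega) (by omega) (by omega) (by omega) (by omega) (by omega)
    · obtain ⟨rfl, rfl, h⟩ := h
      exact fun z => ny (mv z (by omega) (by omega) (by omega) (by omega))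
    · obtain ⟨rfl, rfl, h⟩ := h
      exact mt (top (by omega) (by omega) (by omega) (by omega) (by omega) (by omega) (by omega)).mp (by omega)
    · obtain ⟨rfl, rfl, h⟩ := h
      exact mt (top2 (by omega) (by omega) (by omega) (by omega) (by omega) (by omega) (by omega)).mp (by omega)

end Pool.Agent.SNT.Z4N
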