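import Pool.Agent.SNT.LLW
import Pool.Agent.SNT.NoY3
import Pool.Agent.SNT.Z4N

set_option autoImplicit false

/-! z4: the cell `(2 n + 5, 2 n + 5)` of `P_(6k+9)` in the row `b + 25`. -/

namespace Pool.Agent.SNT.Z4N

open Pool.Agent.SNT Pool.Agent.SNT.Loc Pool.Agent.SNT.LW Pool.Agent.SNT.LRI

variable {f : ℕ → ℕ → ℕ → ℕ → Prop} {k b m c n : ℕ}

/-- z4 over the window -/
theorem z4_li (hf : Rule f) (H : LI f k c n) (C4a : Cyc f (6 * k + 4) (c - 6) (2 * (n - (k + 1)) + 2))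
    (C0b : Cyc f (6 * k) (c - 2) (2 * (n - 3) + 2))
    (top : ∀ x y : ℕ, y ≤ x → x + 1 ≤ y + 2 * k → x = 2 * n + 1 ∨ x = 2 * n + 2 →
      (f (6 * k + 10) c x y ↔ Fst (6 * k + 10) c x y))
    (top2 : ∀ x y : ℕ, y ≤ x → x ≤ y + 2 * k + 1 → y = 2 * n + 2 ∨ y = 2 * n + 3 →
      (f (6 * k + 10) (c + 2) x y ↔ Fst (6 * k + 10) (c + 2) x y))
    (t3 : f (6 * k + 4) (c - 2) (2 * n + 3) (2 * n + 2)) (tm : f (6 * k + 4) (c - 2) (2 * n - 1) (2 * n - 2))
    (ny : ¬ f (6 * k + 4) (c + 2) (2 * n + 8) (2 * n + 3)) : ¬ f (6 * k + 9) (c + 3) (2 * n + 5) (2 * n + 5) := by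
  intro hz
  have hk := H.T.hk
  have hc := H.T.hb
  have h4 := H.T.h4
  have hn := H.T.hN2
  refine z4_aux hf hk hc h4 hn (fun {M R x y} h1 h2 h3 h5 h6 h7 => H.lw M R x y h1 (by omega) (by omega) (by omega) h6 h7)
    C4a (NW.cw_mv H.b8 rfl rfl (by omega)) (NW.cw_mv H.b10 rfl rfl (by omega)) H.a2 H.a4 H.a6 H.a8 H.a10 C0b ?_ ?_ t3 tm
    ny hz
  · intro M R x y e1 e2 e3 e4 e5 e6 _
    subst e1 e2
    rw [top x y e5 e6 (by omega)]
    have h := LocZ.fst_two (B := 6 * k + 10) (b := R) (x := x) (y := y) (by omega) (by omega) e5 (by omega)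
    rwa [show (6 * k + 10) / 6 = k + 1 by omega] at h
  · intro M R x y e1 e2 e3 e4 e5 e6 _
    subst e1 e2
    rw [top2 x y e5 e6 (by omega)]
    have h := LocZ.fst_zero (B := 6 * k + 10) (b := c + 2) (x := x) (y := y) (by omega) (by omega) e5 (by omega)
    rwa [show (6 * k + 10) / 6 = k + 1 by omega] at h

/-- the profile lines `y = 2 n + 2, 2 n + 3` of the OUT row, in every cycle `j` with the tip -/
theorem topL2_of (hf : Rule f) (S : StackW f k b m) (j : ℕ)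
    (tip : f (6 * k + 10) (b + 4 * j + 22) (2 * D1.nn k m j + 1) (2 * D1.nn k m j)) (x y : ℕ) (h1 : y ≤ x)
    (h2 : x ≤ y + 2 * k + 1) (h3 : y = 2 * D1.nn k m j + 2 ∨ y = 2 * D1.nn k m j + 3) :
    f (6 * k + 10) (b + 4 * j + 24) x y ↔ Fst (6 * k + 10) (b + 4 * j + 24) x y := by
  have W := S j
  have I := (S.shift j).imp
  have e0 : D1.nn k (m + (k + 2) * j) 0 = D1.nn k m j := by
    have := D1.nn_shift k m j 0
    rwa [Nat.add_zero] at this
  rw [e0] at I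
  have hn : D1.nn k m j = m + (k + 2) * j + 9 + (k + 2) * 4 := rfl
  rw [hn] at tip h3
  exact S6.topL2 hf W.hs W.S (fun i h1 h2 => NDB.noheal_stack hf W.hs W.S rfl I h1 h2) tip x y h1 h2 h3

/-- no beam in the line `y = 2 n + 3` of `6 k + 4` in the row `b + 24`, in every cycle with the tip -/
theorem noY3_of (hf : Rule f) (S : StackW f k b m) (j : ℕ)
    (tip : f (6 * k + 10) (b + 4 * j + 22) (2 * D1.nn k m j + 1) (2 * D1.nn k m j)) {x : ℕ} (hx : x % 2 = 0)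
    (h1 : 2 * D1.nn k m j + 6 ≤ x) (h2 : x + 2 ≤ 2 * D1.nn k m j + 2 * k) :
    ¬ f (6 * k + 4) (b + 4 * j + 24) x (2 * D1.nn k m j + 3) :=
  Z34.noY3_win hf (S j) (topL2_of hf S j tip) hx h1 h2

/-- **z4** over the windows with the deep lead, in the cycle `j + 1` -/
theorem z4 (hf : Rule f) (W : WL0 f k b m 5) (j : ℕ)
    (D : Wall9 f k (b + 4 * (j + 1) + 22) (D1.nn k m (j + 1)))
    (tip : f (6 * k + 10) (b + 4 * (j + 1) + 22) (2 * D1.nn k m (j + 1) + 1) (2 * D1.nn k m (j + 1)))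
    (t3 : f (6 * k + 4) (b + 4 * (j + 1) + 20) (2 * D1.nn k m (j + 1) + 3) (2 * D1.nn k m (j + 1) + 2))
    (tm : f (6 * k + 4) (b + 4 * (j + 1) + 20) (2 * D1.nn k m (j + 1) - 1) (2 * D1.nn k m (j + 1) - 2)) :
    ¬ f (6 * k + 9) (b + 4 * (j + 1) + 25) (2 * D1.nn k m (j + 1) + 5) (2 * D1.nn k m (j + 1) + 5) := by
  have e1 : D1.nn k m (j + 1) = D1.nn k m j + k + 2 := by unfold D1.nn; ring
  have e2 : D1.nn k m (j + 2) = D1.nn k m (j + 1) + k + 2 := by unfold D1.nn; ring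
  have Wj := W.w j
  have Wj1 := W.w (j + 1)
  have hk := Wj.hs.1
  have H := Wj1.li hf
  have hb : b + 4 * (j + 1) + 22 - 2 = b + 4 * (j + 1) + 20 := by omega
  have hnn : k + 2 ≤ D1.nn k m (j + 1) := by omega
  refine z4_li (c := b + 4 * (j + 1) + 22) hf H ?_ ?_ ?_ ?_ ?_ ?_ ?_
  · exact D1.cyc_of_eq Wj.d4 (by omega) (by omega)
  · exact D1.cyc_of_eq (W.l0 (j + 2)) (by omega) (by omega)
  · exact Wj1.topL0 hf Wj (by ring) (by ring) D tip
  · exact topL2_of hf W.w (j + 1) tip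
  · rw [hb]
    exact t3
  · rw [hb]
    exact tm
  · exact noY3_of hf W.w (j + 1) tip (by omega) (by omega) (by omega)

end Pool.Agent.SNT.Z4N
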