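import Pool.Agent.SNT.LLW
import Pool.Agent.SNT.LW9a
import Pool.Agent.SNT.W9W
import Pool.Agent.SNT.Z1F
import Pool.Agent.SNT.Z3N
import Pool.Agent.SNT.Z4F
import Pool.Agent.SNT.L4TS
import Pool.Agent.SNT.LR10

set_option autoImplicit false

/-! The cells of `LocR10A` over the windows with the deep lead of `6 k`. -/

namespace Pool.Agent.SNT

open Pool.Agent.SNT.LRI Pool.Agent.SNT.LW

variable {f : ℕ → ℕ → ℕ → ℕ → Prop} {k b m : ℕ}

/-- the tip of the top leader, in every cycle -/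
theorem StackW.tip (hf : Rule f) (S : StackW f k b m) (j : ℕ) :
    f (6 * k + 10) (b + 4 * j + 22) (2 * D1.nn k m j + 1) (2 * D1.nn k m j) := by
  by_contra ht
  have W := S j
  have I := (S.shift j).imp
  have e0 : D1.nn k (m + (k + 2) * j) 0 = D1.nn k m j := by
    have := D1.nn_shift k m j 0
    rwa [Nat.add_zero] at this
  rw [e0] at I
  have hn : D1.nn k m j = m + (k + 2) * j + 9 + (k + 2) * 4 := rfl
  rw [hn] at ht I
  exact NDB.leadR10_imp hf W.hs W.S I ht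

namespace WL0

/-- **The cells `Wall9`**, from `v = 1` and `v = 4` -/
theorem wall (hf : Rule f) (W : WL0 f k b m 5) (j : ℕ)
    (w1 : ¬ f (6 * k + 9) (b + 4 * (j + 1) + 22) (2 * D1.nn k m (j + 1) + 1) (2 * D1.nn k m (j + 1) - 2 * k + 1))
    (w4 : ¬ f (6 * k + 9) (b + 4 * (j + 1) + 22) (2 * D1.nn k m (j + 1) + 1) (2 * D1.nn k m (j + 1) - 2 * k + 4)) :
    Wall9 f k (b + 4 * (j + 1) + 22) (D1.nn k m (j + 1)) := by
  intro y h1 h2
  have hN := (W.win (j + 1)).hs.2.2.2.2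
  have hN4 := (W.win (j + 1)).hs.2.2.2.1
  have hn := (W.win (j + 1)).hn
  have h3 : y + 2 * k = 2 * D1.nn k m (j + 1) + 1 ∨ y + 2 * k = 2 * D1.nn k m (j + 1) + 2 ∨
      y + 2 * k = 2 * D1.nn k m (j + 1) + 3 ∨ y + 2 * k = 2 * D1.nn k m (j + 1) + 4 ∨
      (y + 2 * k = 2 * D1.nn k m (j + 1) + 5 ∨ y + 2 * k = 2 * D1.nn k m (j + 1) + 6) := by omega
  rcases h3 with h | h | h | h | h
  · rwa [show y = 2 * D1.nn k m (j + 1) - 2 * k + 1 by omega]
  · exact w9_2 hf ((W.win (j + 1)).li hf) rfl rfl rfl h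
  · exact W.wall3 hf j (W.w.tip hf (j + 1)) h
  · rwa [show y = 2 * D1.nn k m (j + 1) - 2 * k + 4 by omega]
  · exact W.wall56 hf j h

/-- **The cells of `LocR10A`** in the cycle `j + 2`, from the cells `v = 1`, `v = 4` of `Wall9` and the cell `z2`. -/
theorem cells (hf : Rule f) (W : WL0 f k b m 5) (j : ℕ)
    (w1 : ¬ f (6 * k + 9) (b + 4 * (j + 2) + 22) (2 * D1.nn k m (j + 2) + 1) (2 * D1.nn k m (j + 2) - 2 * k + 1))
    (w4 : ¬ f (6 * k + 9) (b + 4 * (j + 2) + 22) (2 * D1.nn k m (j + 2) + 1) (2 * D1.nn k m (j + 2) - 2 * k + 4))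
    (z2 : ¬ f (6 * k + 9) (b + 4 * (j + 2) + 24) (2 * D1.nn k m (j + 2) + 6) (2 * D1.nn k m (j + 2) + 3 - 2 * k)) :
    Cells10 f k (b + 4 * (j + 2)) (D1.nn k m (j + 2)) := by
  have D := W.wall hf (j + 1) w1 w4
  have T := W.w.tip hf (j + 2)
  have t3 := L4T.tip_3 hf W (j + 1)
  have tm := L4T.tip_m1 hf W j
  have hk := (W.win (j + 2)).hs.1
  refine ⟨D, Z1F.z1_stack hf W.w (by omega) (fun i _ => W.l0 i), z2, ?_, Z4N.z4 hf W (j + 1) D T t3 tm⟩
  exact Z3N.z3 hf W (j + 1) (c := b + 4 * (j + 1 + 1) + 22) rfl rfl t3 tm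
    (Z4N.noY3_of hf W.w (j + 2) T (by omega) (by omega) (by omega))

end WL0

end Pool.Agent.SNT
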