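import Pool.Agent.SNT.LLW
import Pool.Agent.SNT.NbL
import Pool.Agent.SNT.Z2N

set_option autoImplicit false

/-! z2: the cell `(2 n + 6, 2 n + 3 - 2 k)` of `P_(6k+9)` in the row `b + 24`. -/

namespace Pool.Agent.SNT.Z2N

open Pool.Agent.SNT Pool.Agent.SNT.Loc Pool.Agent.SNT.LW Pool.Agent.SNT.LRI

variable {f : ℕ → ℕ → ℕ → ℕ → Prop} {k b m : ℕ}

/-- **z2** over the windows with the deep lead, in the cycle `j + 2` -/
theorem z2 (hf : Rule f) (W : WL0 f k b m 5) (j : ℕ)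
    (D : Wall9 f k (b + 4 * (j + 2) + 22) (D1.nn k m (j + 2)))
    (tip : f (6 * k + 10) (b + 4 * (j + 2) + 22) (2 * D1.nn k m (j + 2) + 1) (2 * D1.nn k m (j + 2))) :
    ¬ f (6 * k + 9) (b + 4 * (j + 2) + 24) (2 * D1.nn k m (j + 2) + 6) (2 * D1.nn k m (j + 2) + 3 - 2 * k) := by
  intro hz
  have e1 : D1.nn k m (j + 1) = D1.nn k m j + k + 2 := by unfold D1.nn; ring
  have e2 : D1.nn k m (j + 2) = D1.nn k m (j + 1) + k + 2 := by unfold D1.nn; ring
  have e3 : D1.nn k m (j + 3) = D1.nn k m (j + 2) + k + 2 := by unfold D1.nn; ring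
  have W0 := W.w j
  have W1 := W.w (j + 1)
  have W2 := W.w (j + 2)
  obtain ⟨hk, hb, h4, hb2, hm⟩ := W2.hs
  have H0 := W0.li hf
  have H := W2.li hf
  have hn := W2.hn
  have top := W2.topL0 hf W1 (by ring) (by ring) D tip
  have I := W.inp hf (j + 1)
  rw [show j + 1 + 1 = j + 2 by ring] at I
  have nb := fun y (h1 : y % 2 = 0) (h2 : 2 * D1.nn k m (j + 2) + 5 ≤ y + 2 * k) (h3 : y + 8 ≤ 2 * D1.nn k m (j + 2)) =>
    NbL.nb_stack hf W.w (j + 1) (y := y) h1 (by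
      have : D1.nn k m (j + 1 + 1) = D1.nn k m (j + 2) := rfl
      omega) (by
      have : D1.nn k m (j + 1 + 1) = D1.nn k m (j + 2) := rfl
      omega)
  refine z2_aux hf (c := b + 4 * (j + 2) + 22) (n := D1.nn k m (j + 2)) hk H.T.hb H.T.h4 H.T.hc (by omega)
    (fun {M R x y} a1 a2 a3 a5 a6 a7 => H.lw M R x y a1 (by omega) (by omega) (by omega) a6 a7)
    ?_ ?_ ?_ ?_ ?_ ?_ ?_ ?_ ?_ H.a2 H.a4 H.a6 H.a8 H.a10 ?_ I ?_ nb hz
  · exact D1.cyc_of_eq W0.d4 (by omega) (by omega)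
  · exact NW.cw_mv H0.a10 rfl (by omega) (by omega)
  · exact D1.cyc_of_eq (W.l0 (j + 1)) (by omega) (by omega)
  · exact D1.cyc_of_eq W1.d2 (by omega) (by omega)
  · exact D1.cyc_of_eq W1.d4 (by omega) (by omega)
  · exact D1.cyc_of_eq H.b6 rfl (by omega)
  · exact NW.cw_mv H.b8 rfl rfl (by omega)
  · exact NW.cw_mv H.b10 rfl rfl (by omega)
  · exact D1.cyc_of_eq (W.l0 (j + 2)) (by omega) rfl
  · exact D1.cyc_of_eq (W.l0 (j + 3)) (by omega) (by omega)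
  · intro M R x y a1 a2 a3 a4 a5 a6 _
    subst a1 a2
    rw [top x y a5 a6 (by omega)]
    have h := LocZ.fst_two (B := 6 * k + 10) (b := b + 4 * (j + 2) + 22) (x := x) (y := y) (by omega) (by omega) a5
      (by omega)
    rwa [show (6 * k + 10) / 6 = k + 1 by omega] at h

end Pool.Agent.SNT.Z2N
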