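import Pool.Agent.SNT.FinalG
import Pool.Agent.SNT.L0P5
import Pool.Agent.SNT.LLF
import Pool.Agent.SNT.Z2F

set_option autoImplicit false

/-! The frozen statement from the E-cell `v + 3 = k` of the deep lead of `6 k` and from the two cells `v = 1`, `v = 4` of
`Wall9`. -/

namespace Pool.Agent.SNT.S6

/-- **The frozen statement from the last three pieces.** -/
theorem final_of_x0
    (X0 : ∀ f : ℕ → ℕ → ℕ → ℕ → Prop, Rule f → ∀ k : ℕ, 8 ≤ k → D1.ECell3 f k)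
    (w1 : ∀ f : ℕ → ℕ → ℕ → ℕ → Prop, Rule f → ∀ k : ℕ, 8 ≤ k → ∀ b m : ℕ, WL0 f k b m 5 →
      f (6 * k + 10) (b + 4 * 25 + 22) (2 * D1.nn k m 25 + 1) (2 * D1.nn k m 25) →
      ¬ f (6 * k + 9) (b + 4 * 25 + 22) (2 * D1.nn k m 25 + 1) (2 * D1.nn k m 25 - 2 * k + 1))
    (w4 : ∀ f : ℕ → ℕ → ℕ → ℕ → Prop, Rule f → ∀ k : ℕ, 8 ≤ k → ∀ b m : ℕ, WL0 f k b m 5 →
      f (6 * k + 10) (b + 4 * 25 + 22) (2 * D1.nn k m 25 + 1) (2 * D1.nn k m 25) →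
      ¬ f (6 * k + 9) (b + 4 * 25 + 22) (2 * D1.nn k m 25 + 1) (2 * D1.nn k m 25 - 2 * k + 4)) :
    ¬ (∀ n k : ℕ, 1 ≤ k →
      ∀ P : Set (Fin n → ℕ),
        (∀ x : Fin n → ℕ, x ∈ P ↔
          ∀ S : Finset (Fin n), S.card = k → (∀ i ∈ S, 1 ≤ x i) →
            (fun i => if i ∈ S then x i - 1 else x i) ∉ P) →
        ∃ m r : ℕ, ∃ base : Fin m → Fin n → ℕ, ∃ per : Fin m → Fin r → Fin n → ℕ,
          ∀ x : Fin n → ℕ, x ∈ P ↔
            ∃ i : Fin m, ∃ c : Fin r → ℕ, x = base i + ∑ j, c j • per i j) :=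
  final_of_two (e := 5) (by norm_num) (fun f hf k hk => D1.P5 hf (X0 f hf k hk))
    (fun f hf k hk b m W tip => WL0.cells hf W 23 (w1 f hf k hk b m W tip) (w4 f hf k hk b m W tip)
      (Z2N.z2 hf W 23 (WL0.wall hf W 24 (w1 f hf k hk b m W tip) (w4 f hf k hk b m W tip)) tip))

end Pool.Agent.SNT.S6
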