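import Pool.Agent.SNT.Fst

/-! Independence half of the rule for the static field: a one cell has no one cell among its
predecessors (part 3b). -/

namespace Pool.Agent.SNT

set_option linter.unusedVariables false

theorem ind_b_y_11 (a b d e : ℕ) (hab : a ≤ b) (he : e ≤ 1) (hb : a < b)
    (h1 : FF1 a b d e) (h2 : FF1 a (b-1) (d+1) e) : False := by
  unfold FF1 at h1
  unfold FF1 at h2
  omega

theorem ind_b_y_12 (a b d e : ℕ) (hab : a ≤ b) (he : e ≤ 1) (hb : a < b)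
    (h1 : FF1 a b d e) (h2 : FF2 a (b-1) (d+1) e) : False := by
  unfold FF1 at h1
  unfold FF2 FU at h2
  omega

theorem ind_b_y_13 (a b d e : ℕ) (hab : a ≤ b) (he : e ≤ 1) (hb : a < b)
    (h1 : FF1 a b d e) (h2 : FF3 a (b-1) (d+1) e) : False := by
  unfold FF1 at h1
  unfold FF3 FT at h2
  omega

theorem ind_b_y_14 (a b d e : ℕ) (hab : a ≤ b) (he : e ≤ 1) (hb : a < b)
    (h1 : FF1 a b d e) (h2 : FF4 a (b-1) (d+1) e) : False := by
  unfold FF1 at h1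
  unfold FF4 at h2
  omega

theorem ind_b_y_21 (a b d e : ℕ) (hab : a ≤ b) (he : e ≤ 1) (hb : a < b)
    (h1 : FF2 a b d e) (h2 : FF1 a (b-1) (d+1) e) : False := by
  unfold FF2 FU at h1
  unfold FF1 at h2
  omega

theorem ind_b_y_22 (a b d e : ℕ) (hab : a ≤ b) (he : e ≤ 1) (hb : a < b)
    (h1 : FF2 a b d e) (h2 : FF2 a (b-1) (d+1) e) : False := by
  unfold FF2 FU at h1
  unfold FF2 FU at h2
  omega

theorem ind_b_y_23 (a b d e : ℕ) (hab : a ≤ b) (he : e ≤ 1) (hb : a < b)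
    (h1 : FF2 a b d e) (h2 : FF3 a (b-1) (d+1) e) : False := by
  unfold FF2 FU at h1
  unfold FF3 FT at h2
  omega

theorem ind_b_y_24 (a b d e : ℕ) (hab : a ≤ b) (he : e ≤ 1) (hb : a < b)
    (h1 : FF2 a b d e) (h2 : FF4 a (b-1) (d+1) e) : False := by
  unfold FF2 FU at h1
  unfold FF4 at h2
  omega

theorem ind_b_y_31 (a b d e : ℕ) (hab : a ≤ b) (he : e ≤ 1) (hb : a < b)
    (h1 : FF3 a b d e) (h2 : FF1 a (b-1) (d+1) e) : False := by
  unfold FF3 FT at h1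
  unfold FF1 at h2
  omega

theorem ind_b_y_32 (a b d e : ℕ) (hab : a ≤ b) (he : e ≤ 1) (hb : a < b)
    (h1 : FF3 a b d e) (h2 : FF2 a (b-1) (d+1) e) : False := by
  unfold FF3 FT at h1
  unfold FF2 FU at h2
  omega

theorem ind_b_y_33 (a b d e : ℕ) (hab : a ≤ b) (he : e ≤ 1) (hb : a < b)
    (h1 : FF3 a b d e) (h2 : FF3 a (b-1) (d+1) e) : False := by
  unfold FF3 FT at h1
  unfold FF3 FT at h2
  omega

theorem ind_b_y_34 (a b d e : ℕ) (hab : a ≤ b) (he : e ≤ 1) (hb : a < b)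
    (h1 : FF3 a b d e) (h2 : FF4 a (b-1) (d+1) e) : False := by
  unfold FF3 FT at h1
  unfold FF4 at h2
  omega

theorem ind_b_y_41 (a b d e : ℕ) (hab : a ≤ b) (he : e ≤ 1) (hb : a < b)
    (h1 : FF4 a b d e) (h2 : FF1 a (b-1) (d+1) e) : False := by
  unfold FF4 at h1
  unfold FF1 at h2
  omega

theorem ind_b_y_42 (a b d e : ℕ) (hab : a ≤ b) (he : e ≤ 1) (hb : a < b)
    (h1 : FF4 a b d e) (h2 : FF2 a (b-1) (d+1) e) : False := by
  unfold FF4 at h1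
  unfold FF2 FU at h2
  omega

theorem ind_b_y_43 (a b d e : ℕ) (hab : a ≤ b) (he : e ≤ 1) (hb : a < b)
    (h1 : FF4 a b d e) (h2 : FF3 a (b-1) (d+1) e) : False := by
  unfold FF4 at h1
  unfold FF3 FT at h2
  omega

theorem ind_b_y_44 (a b d e : ℕ) (hab : a ≤ b) (he : e ≤ 1) (hb : a < b)
    (h1 : FF4 a b d e) (h2 : FF4 a (b-1) (d+1) e) : False := by
  unfold FF4 at h1
  unfold FF4 at h2
  omega

theorem ind_b_xy_11 (a b d e : ℕ) (hab : a ≤ b) (he : e ≤ 1) (hb : a < b)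
    (h1 : FF1 a b d e) (h2 : FF1 a (b-1) d (1-e)) : False := by
  unfold FF1 at h1
  unfold FF1 at h2
  omega

theorem ind_b_xy_12 (a b d e : ℕ) (hab : a ≤ b) (he : e ≤ 1) (hb : a < b)
    (h1 : FF1 a b d e) (h2 : FF2 a (b-1) d (1-e)) : False := by
  unfold FF1 at h1
  unfold FF2 FU at h2
  omega

theorem ind_b_xy_13 (a b d e : ℕ) (hab : a ≤ b) (he : e ≤ 1) (hb : a < b)
    (h1 : FF1 a b d e) (h2 : FF3 a (b-1) d (1-e)) : False := by
  unfold FF1 at h1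
  unfold FF3 FT at h2
  omega

theorem ind_b_xy_14 (a b d e : ℕ) (hab : a ≤ b) (he : e ≤ 1) (hb : a < b)
    (h1 : FF1 a b d e) (h2 : FF4 a (b-1) d (1-e)) : False := by
  unfold FF1 at h1
  unfold FF4 at h2
  omega

theorem ind_b_xy_21 (a b d e : ℕ) (hab : a ≤ b) (he : e ≤ 1) (hb : a < b)
    (h1 : FF2 a b d e) (h2 : FF1 a (b-1) d (1-e)) : False := by
  unfold FF2 FU at h1
  unfold FF1 at h2
  omega

theorem ind_b_xy_22 (a b d e : ℕ) (hab : a ≤ b) (he : e ≤ 1) (hb : a < b)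
    (h1 : FF2 a b d e) (h2 : FF2 a (b-1) d (1-e)) : False := by
  unfold FF2 FU at h1
  unfold FF2 FU at h2
  omega

theorem ind_b_xy_23 (a b d e : ℕ) (hab : a ≤ b) (he : e ≤ 1) (hb : a < b)
    (h1 : FF2 a b d e) (h2 : FF3 a (b-1) d (1-e)) : False := by
  unfold FF2 FU at h1
  unfold FF3 FT at h2
  omega

theorem ind_b_xy_24 (a b d e : ℕ) (hab : a ≤ b) (he : e ≤ 1) (hb : a < b)
    (h1 : FF2 a b d e) (h2 : FF4 a (b-1) d (1-e)) : False := by
  unfold FF2 FU at h1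
  unfold FF4 at h2
  omega

theorem ind_b_xy_31 (a b d e : ℕ) (hab : a ≤ b) (he : e ≤ 1) (hb : a < b)
    (h1 : FF3 a b d e) (h2 : FF1 a (b-1) d (1-e)) : False := by
  unfold FF3 FT at h1
  unfold FF1 at h2
  omega

theorem ind_b_xy_32 (a b d e : ℕ) (hab : a ≤ b) (he : e ≤ 1) (hb : a < b)
    (h1 : FF3 a b d e) (h2 : FF2 a (b-1) d (1-e)) : False := by
  unfold FF3 FT at h1
  unfold FF2 FU at h2
  omega

theorem ind_b_xy_33 (a b d e : ℕ) (hab : a ≤ b) (he : e ≤ 1) (hb : a < b)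
    (h1 : FF3 a b d e) (h2 : FF3 a (b-1) d (1-e)) : False := by
  unfold FF3 FT at h1
  unfold FF3 FT at h2
  omega

theorem ind_b_xy_34 (a b d e : ℕ) (hab : a ≤ b) (he : e ≤ 1) (hb : a < b)
    (h1 : FF3 a b d e) (h2 : FF4 a (b-1) d (1-e)) : False := by
  unfold FF3 FT at h1
  unfold FF4 at h2
  omega

theorem ind_b_xy_41 (a b d e : ℕ) (hab : a ≤ b) (he : e ≤ 1) (hb : a < b)
    (h1 : FF4 a b d e) (h2 : FF1 a (b-1) d (1-e)) : False := by
  unfold FF4 at h1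
  unfold FF1 at h2
  omega

theorem ind_b_xy_42 (a b d e : ℕ) (hab : a ≤ b) (he : e ≤ 1) (hb : a < b)
    (h1 : FF4 a b d e) (h2 : FF2 a (b-1) d (1-e)) : False := by
  unfold FF4 at h1
  unfold FF2 FU at h2
  omega

theorem ind_b_xy_43 (a b d e : ℕ) (hab : a ≤ b) (he : e ≤ 1) (hb : a < b)
    (h1 : FF4 a b d e) (h2 : FF3 a (b-1) d (1-e)) : False := by
  unfold FF4 at h1
  unfold FF3 FT at h2
  omega

theorem ind_b_xy_44 (a b d e : ℕ) (hab : a ≤ b) (he : e ≤ 1) (hb : a < b)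
    (h1 : FF4 a b d e) (h2 : FF4 a (b-1) d (1-e)) : False := by
  unfold FF4 at h1
  unfold FF4 at h2
  omega

end Pool.Agent.SNT
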