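import Pool.Agent.SNT.FstInd1
import Pool.Agent.SNT.FstInd2
import Pool.Agent.SNT.FstInd3
import Pool.Agent.SNT.FstInd4

/-! Independence half of the rule for the static field: assembly. -/

namespace Pool.Agent.SNT

set_option linter.unusedVariables false

theorem ind_x (a b d e : ℕ) (hab : a ≤ b) (he : e ≤ 1) (hd : 1 ≤ d)
    (h1 : FF a b d e) (h2 : FF a b (d-1) (1-e)) : False := by
  rcases h1 with h1 | h1 | h1 | h1 <;> rcases h2 with h2 | h2 | h2 | h2
  · exact ind_x_11 a b d e hab he hd h1 h2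
  · exact ind_x_12 a b d e hab he hd h1 h2
  · exact ind_x_13 a b d e hab he hd h1 h2
  · exact ind_x_14 a b d e hab he hd h1 h2
  · exact ind_x_21 a b d e hab he hd h1 h2
  · exact ind_x_22 a b d e hab he hd h1 h2
  · exact ind_x_23 a b d e hab he hd h1 h2
  · exact ind_x_24 a b d e hab he hd h1 h2
  · exact ind_x_31 a b d e hab he hd h1 h2
  · exact ind_x_32 a b d e hab he hd h1 h2
  · exact ind_x_33 a b d e hab he hd h1 h2
  · exact ind_x_34 a b d e hab he hd h1 h2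
  · exact ind_x_41 a b d e hab he hd h1 h2
  · exact ind_x_42 a b d e hab he hd h1 h2
  · exact ind_x_43 a b d e hab he hd h1 h2
  · exact ind_x_44 a b d e hab he hd h1 h2

theorem ind_y (a b d e : ℕ) (hab : a ≤ b) (he : e ≤ 1) 
    (h1 : FF a b d e) (h2 : FF a b (d+1) e) : False := by
  rcases h1 with h1 | h1 | h1 | h1 <;> rcases h2 with h2 | h2 | h2 | h2
  · exact ind_y_11 a b d e hab he  h1 h2
  · exact ind_y_12 a b d e hab he  h1 h2
  · exact ind_y_13 a b d e hab he  h1 h2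
  · exact ind_y_14 a b d e hab he  h1 h2
  · exact ind_y_21 a b d e hab he  h1 h2
  · exact ind_y_22 a b d e hab he  h1 h2
  · exact ind_y_23 a b d e hab he  h1 h2
  · exact ind_y_24 a b d e hab he  h1 h2
  · exact ind_y_31 a b d e hab he  h1 h2
  · exact ind_y_32 a b d e hab he  h1 h2
  · exact ind_y_33 a b d e hab he  h1 h2
  · exact ind_y_34 a b d e hab he  h1 h2
  · exact ind_y_41 a b d e hab he  h1 h2
  · exact ind_y_42 a b d e hab he  h1 h2
  · exact ind_y_43 a b d e hab he  h1 h2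
  · exact ind_y_44 a b d e hab he  h1 h2

theorem ind_xy (a b d e : ℕ) (hab : a ≤ b) (he : e ≤ 1) 
    (h1 : FF a b d e) (h2 : FF a b d (1-e)) : False := by
  rcases h1 with h1 | h1 | h1 | h1 <;> rcases h2 with h2 | h2 | h2 | h2
  · exact ind_xy_11 a b d e hab he  h1 h2
  · exact ind_xy_12 a b d e hab he  h1 h2
  · exact ind_xy_13 a b d e hab he  h1 h2
  · exact ind_xy_14 a b d e hab he  h1 h2
  · exact ind_xy_21 a b d e hab he  h1 h2
  · exact ind_xy_22 a b d e hab he  h1 h2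
  · exact ind_xy_23 a b d e hab he  h1 h2
  · exact ind_xy_24 a b d e hab he  h1 h2
  · exact ind_xy_31 a b d e hab he  h1 h2
  · exact ind_xy_32 a b d e hab he  h1 h2
  · exact ind_xy_33 a b d e hab he  h1 h2
  · exact ind_xy_34 a b d e hab he  h1 h2
  · exact ind_xy_41 a b d e hab he  h1 h2
  · exact ind_xy_42 a b d e hab he  h1 h2
  · exact ind_xy_43 a b d e hab he  h1 h2
  · exact ind_xy_44 a b d e hab he  h1 h2

theorem ind_a_0 (a b d e : ℕ) (hab : a ≤ b) (he : e ≤ 1) (ha : 1 ≤ a)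
    (h1 : FF a b d e) (h2 : FF (a-1) b d e) : False := by
  rcases h1 with h1 | h1 | h1 | h1 <;> rcases h2 with h2 | h2 | h2 | h2
  · exact ind_a_0_11 a b d e hab he ha h1 h2
  · exact ind_a_0_12 a b d e hab he ha h1 h2
  · exact ind_a_0_13 a b d e hab he ha h1 h2
  · exact ind_a_0_14 a b d e hab he ha h1 h2
  · exact ind_a_0_21 a b d e hab he ha h1 h2
  · exact ind_a_0_22 a b d e hab he ha h1 h2
  · exact ind_a_0_23 a b d e hab he ha h1 h2
  · exact ind_a_0_24 a b d e hab he ha h1 h2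
  · exact ind_a_0_31 a b d e hab he ha h1 h2
  · exact ind_a_0_32 a b d e hab he ha h1 h2
  · exact ind_a_0_33 a b d e hab he ha h1 h2
  · exact ind_a_0_34 a b d e hab he ha h1 h2
  · exact ind_a_0_41 a b d e hab he ha h1 h2
  · exact ind_a_0_42 a b d e hab he ha h1 h2
  · exact ind_a_0_43 a b d e hab he ha h1 h2
  · exact ind_a_0_44 a b d e hab he ha h1 h2

theorem ind_a_x (a b d e : ℕ) (hab : a ≤ b) (he : e ≤ 1) (ha : 1 ≤ a) (hd : 1 ≤ d)
    (h1 : FF a b d e) (h2 : FF (a-1) b (d-1) (1-e)) : False := by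
  rcases h1 with h1 | h1 | h1 | h1 <;> rcases h2 with h2 | h2 | h2 | h2
  · exact ind_a_x_11 a b d e hab he ha hd h1 h2
  · exact ind_a_x_12 a b d e hab he ha hd h1 h2
  · exact ind_a_x_13 a b d e hab he ha hd h1 h2
  · exact ind_a_x_14 a b d e hab he ha hd h1 h2
  · exact ind_a_x_21 a b d e hab he ha hd h1 h2
  · exact ind_a_x_22 a b d e hab he ha hd h1 h2
  · exact ind_a_x_23 a b d e hab he ha hd h1 h2
  · exact ind_a_x_24 a b d e hab he ha hd h1 h2
  · exact ind_a_x_31 a b d e hab he ha hd h1 h2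
  · exact ind_a_x_32 a b d e hab he ha hd h1 h2
  · exact ind_a_x_33 a b d e hab he ha hd h1 h2
  · exact ind_a_x_34 a b d e hab he ha hd h1 h2
  · exact ind_a_x_41 a b d e hab he ha hd h1 h2
  · exact ind_a_x_42 a b d e hab he ha hd h1 h2
  · exact ind_a_x_43 a b d e hab he ha hd h1 h2
  · exact ind_a_x_44 a b d e hab he ha hd h1 h2

theorem ind_a_y (a b d e : ℕ) (hab : a ≤ b) (he : e ≤ 1) (ha : 1 ≤ a)
    (h1 : FF a b d e) (h2 : FF (a-1) b (d+1) e) : False := by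
  rcases h1 with h1 | h1 | h1 | h1 <;> rcases h2 with h2 | h2 | h2 | h2
  · exact ind_a_y_11 a b d e hab he ha h1 h2
  · exact ind_a_y_12 a b d e hab he ha h1 h2
  · exact ind_a_y_13 a b d e hab he ha h1 h2
  · exact ind_a_y_14 a b d e hab he ha h1 h2
  · exact ind_a_y_21 a b d e hab he ha h1 h2
  · exact ind_a_y_22 a b d e hab he ha h1 h2
  · exact ind_a_y_23 a b d e hab he ha h1 h2
  · exact ind_a_y_24 a b d e hab he ha h1 h2
  · exact ind_a_y_31 a b d e hab he ha h1 h2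
  · exact ind_a_y_32 a b d e hab he ha h1 h2
  · exact ind_a_y_33 a b d e hab he ha h1 h2
  · exact ind_a_y_34 a b d e hab he ha h1 h2
  · exact ind_a_y_41 a b d e hab he ha h1 h2
  · exact ind_a_y_42 a b d e hab he ha h1 h2
  · exact ind_a_y_43 a b d e hab he ha h1 h2
  · exact ind_a_y_44 a b d e hab he ha h1 h2

theorem ind_a_xy (a b d e : ℕ) (hab : a ≤ b) (he : e ≤ 1) (ha : 1 ≤ a)
    (h1 : FF a b d e) (h2 : FF (a-1) b d (1-e)) : False := by
  rcases h1 with h1 | h1 | h1 | h1 <;> rcases h2 with h2 | h2 | h2 | h2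
  · exact ind_a_xy_11 a b d e hab he ha h1 h2
  · exact ind_a_xy_12 a b d e hab he ha h1 h2
  · exact ind_a_xy_13 a b d e hab he ha h1 h2
  · exact ind_a_xy_14 a b d e hab he ha h1 h2
  · exact ind_a_xy_21 a b d e hab he ha h1 h2
  · exact ind_a_xy_22 a b d e hab he ha h1 h2
  · exact ind_a_xy_23 a b d e hab he ha h1 h2
  · exact ind_a_xy_24 a b d e hab he ha h1 h2
  · exact ind_a_xy_31 a b d e hab he ha h1 h2
  · exact ind_a_xy_32 a b d e hab he ha h1 h2
  · exact ind_a_xy_33 a b d e hab he ha h1 h2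
  · exact ind_a_xy_34 a b d e hab he ha h1 h2
  · exact ind_a_xy_41 a b d e hab he ha h1 h2
  · exact ind_a_xy_42 a b d e hab he ha h1 h2
  · exact ind_a_xy_43 a b d e hab he ha h1 h2
  · exact ind_a_xy_44 a b d e hab he ha h1 h2

theorem ind_b_0 (a b d e : ℕ) (hab : a ≤ b) (he : e ≤ 1) (hb : a < b)
    (h1 : FF a b d e) (h2 : FF a (b-1) d e) : False := by
  rcases h1 with h1 | h1 | h1 | h1 <;> rcases h2 with h2 | h2 | h2 | h2
  · exact ind_b_0_11 a b d e hab he hb h1 h2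
  · exact ind_b_0_12 a b d e hab he hb h1 h2
  · exact ind_b_0_13 a b d e hab he hb h1 h2
  · exact ind_b_0_14 a b d e hab he hb h1 h2
  · exact ind_b_0_21 a b d e hab he hb h1 h2
  · exact ind_b_0_22 a b d e hab he hb h1 h2
  · exact ind_b_0_23 a b d e hab he hb h1 h2
  · exact ind_b_0_24 a b d e hab he hb h1 h2
  · exact ind_b_0_31 a b d e hab he hb h1 h2
  · exact ind_b_0_32 a b d e hab he hb h1 h2
  · exact ind_b_0_33 a b d e hab he hb h1 h2
  · exact ind_b_0_34 a b d e hab he hb h1 h2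
  · exact ind_b_0_41 a b d e hab he hb h1 h2
  · exact ind_b_0_42 a b d e hab he hb h1 h2
  · exact ind_b_0_43 a b d e hab he hb h1 h2
  · exact ind_b_0_44 a b d e hab he hb h1 h2

theorem ind_b_x (a b d e : ℕ) (hab : a ≤ b) (he : e ≤ 1) (hb : a < b) (hd : 1 ≤ d)
    (h1 : FF a b d e) (h2 : FF a (b-1) (d-1) (1-e)) : False := by
  rcases h1 with h1 | h1 | h1 | h1 <;> rcases h2 with h2 | h2 | h2 | h2
  · exact ind_b_x_11 a b d e hab he hb hd h1 h2
  · exact ind_b_x_12 a b d e hab he hb hd h1 h2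
  · exact ind_b_x_13 a b d e hab he hb hd h1 h2
  · exact ind_b_x_14 a b d e hab he hb hd h1 h2
  · exact ind_b_x_21 a b d e hab he hb hd h1 h2
  · exact ind_b_x_22 a b d e hab he hb hd h1 h2
  · exact ind_b_x_23 a b d e hab he hb hd h1 h2
  · exact ind_b_x_24 a b d e hab he hb hd h1 h2
  · exact ind_b_x_31 a b d e hab he hb hd h1 h2
  · exact ind_b_x_32 a b d e hab he hb hd h1 h2
  · exact ind_b_x_33 a b d e hab he hb hd h1 h2
  · exact ind_b_x_34 a b d e hab he hb hd h1 h2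
  · exact ind_b_x_41 a b d e hab he hb hd h1 h2
  · exact ind_b_x_42 a b d e hab he hb hd h1 h2
  · exact ind_b_x_43 a b d e hab he hb hd h1 h2
  · exact ind_b_x_44 a b d e hab he hb hd h1 h2

theorem ind_b_y (a b d e : ℕ) (hab : a ≤ b) (he : e ≤ 1) (hb : a < b)
    (h1 : FF a b d e) (h2 : FF a (b-1) (d+1) e) : False := by
  rcases h1 with h1 | h1 | h1 | h1 <;> rcases h2 with h2 | h2 | h2 | h2
  · exact ind_b_y_11 a b d e hab he hb h1 h2
  · exact ind_b_y_12 a b d e hab he hb h1 h2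
  · exact ind_b_y_13 a b d e hab he hb h1 h2
  · exact ind_b_y_14 a b d e hab he hb h1 h2
  · exact ind_b_y_21 a b d e hab he hb h1 h2
  · exact ind_b_y_22 a b d e hab he hb h1 h2
  · exact ind_b_y_23 a b d e hab he hb h1 h2
  · exact ind_b_y_24 a b d e hab he hb h1 h2
  · exact ind_b_y_31 a b d e hab he hb h1 h2
  · exact ind_b_y_32 a b d e hab he hb h1 h2
  · exact ind_b_y_33 a b d e hab he hb h1 h2
  · exact ind_b_y_34 a b d e hab he hb h1 h2
  · exact ind_b_y_41 a b d e hab he hb h1 h2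
  · exact ind_b_y_42 a b d e hab he hb h1 h2
  · exact ind_b_y_43 a b d e hab he hb h1 h2
  · exact ind_b_y_44 a b d e hab he hb h1 h2

theorem ind_b_xy (a b d e : ℕ) (hab : a ≤ b) (he : e ≤ 1) (hb : a < b)
    (h1 : FF a b d e) (h2 : FF a (b-1) d (1-e)) : False := by
  rcases h1 with h1 | h1 | h1 | h1 <;> rcases h2 with h2 | h2 | h2 | h2
  · exact ind_b_xy_11 a b d e hab he hb h1 h2
  · exact ind_b_xy_12 a b d e hab he hb h1 h2
  · exact ind_b_xy_13 a b d e hab he hb h1 h2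
  · exact ind_b_xy_14 a b d e hab he hb h1 h2
  · exact ind_b_xy_21 a b d e hab he hb h1 h2
  · exact ind_b_xy_22 a b d e hab he hb h1 h2
  · exact ind_b_xy_23 a b d e hab he hb h1 h2
  · exact ind_b_xy_24 a b d e hab he hb h1 h2
  · exact ind_b_xy_31 a b d e hab he hb h1 h2
  · exact ind_b_xy_32 a b d e hab he hb h1 h2
  · exact ind_b_xy_33 a b d e hab he hb h1 h2
  · exact ind_b_xy_34 a b d e hab he hb h1 h2
  · exact ind_b_xy_41 a b d e hab he hb h1 h2
  · exact ind_b_xy_42 a b d e hab he hb h1 h2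
  · exact ind_b_xy_43 a b d e hab he hb h1 h2
  · exact ind_b_xy_44 a b d e hab he hb h1 h2

theorem ind_ab_0 (a b d e : ℕ) (hab : a ≤ b) (he : e ≤ 1) (ha : 1 ≤ a)
    (h1 : FF a b d e) (h2 : FF (a-1) (b-1) d e) : False := by
  rcases h1 with h1 | h1 | h1 | h1 <;> rcases h2 with h2 | h2 | h2 | h2
  · exact ind_ab_0_11 a b d e hab he ha h1 h2
  · exact ind_ab_0_12 a b d e hab he ha h1 h2
  · exact ind_ab_0_13 a b d e hab he ha h1 h2
  · exact ind_ab_0_14 a b d e hab he ha h1 h2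
  · exact ind_ab_0_21 a b d e hab he ha h1 h2
  · exact ind_ab_0_22 a b d e hab he ha h1 h2
  · exact ind_ab_0_23 a b d e hab he ha h1 h2
  · exact ind_ab_0_24 a b d e hab he ha h1 h2
  · exact ind_ab_0_31 a b d e hab he ha h1 h2
  · exact ind_ab_0_32 a b d e hab he ha h1 h2
  · exact ind_ab_0_33 a b d e hab he ha h1 h2
  · exact ind_ab_0_34 a b d e hab he ha h1 h2
  · exact ind_ab_0_41 a b d e hab he ha h1 h2
  · exact ind_ab_0_42 a b d e hab he ha h1 h2
  · exact ind_ab_0_43 a b d e hab he ha h1 h2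
  · exact ind_ab_0_44 a b d e hab he ha h1 h2

theorem ind_ab_x (a b d e : ℕ) (hab : a ≤ b) (he : e ≤ 1) (ha : 1 ≤ a) (hd : 1 ≤ d)
    (h1 : FF a b d e) (h2 : FF (a-1) (b-1) (d-1) (1-e)) : False := by
  rcases h1 with h1 | h1 | h1 | h1 <;> rcases h2 with h2 | h2 | h2 | h2
  · exact ind_ab_x_11 a b d e hab he ha hd h1 h2
  · exact ind_ab_x_12 a b d e hab he ha hd h1 h2
  · exact ind_ab_x_13 a b d e hab he ha hd h1 h2
  · exact ind_ab_x_14 a b d e hab he ha hd h1 h2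
  · exact ind_ab_x_21 a b d e hab he ha hd h1 h2
  · exact ind_ab_x_22 a b d e hab he ha hd h1 h2
  · exact ind_ab_x_23 a b d e hab he ha hd h1 h2
  · exact ind_ab_x_24 a b d e hab he ha hd h1 h2
  · exact ind_ab_x_31 a b d e hab he ha hd h1 h2
  · exact ind_ab_x_32 a b d e hab he ha hd h1 h2
  · exact ind_ab_x_33 a b d e hab he ha hd h1 h2
  · exact ind_ab_x_34 a b d e hab he ha hd h1 h2
  · exact ind_ab_x_41 a b d e hab he ha hd h1 h2
  · exact ind_ab_x_42 a b d e hab he ha hd h1 h2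
  · exact ind_ab_x_43 a b d e hab he ha hd h1 h2
  · exact ind_ab_x_44 a b d e hab he ha hd h1 h2

theorem ind_ab_y (a b d e : ℕ) (hab : a ≤ b) (he : e ≤ 1) (ha : 1 ≤ a)
    (h1 : FF a b d e) (h2 : FF (a-1) (b-1) (d+1) e) : False := by
  rcases h1 with h1 | h1 | h1 | h1 <;> rcases h2 with h2 | h2 | h2 | h2
  · exact ind_ab_y_11 a b d e hab he ha h1 h2
  · exact ind_ab_y_12 a b d e hab he ha h1 h2
  · exact ind_ab_y_13 a b d e hab he ha h1 h2
  · exact ind_ab_y_14 a b d e hab he ha h1 h2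
  · exact ind_ab_y_21 a b d e hab he ha h1 h2
  · exact ind_ab_y_22 a b d e hab he ha h1 h2
  · exact ind_ab_y_23 a b d e hab he ha h1 h2
  · exact ind_ab_y_24 a b d e hab he ha h1 h2
  · exact ind_ab_y_31 a b d e hab he ha h1 h2
  · exact ind_ab_y_32 a b d e hab he ha h1 h2
  · exact ind_ab_y_33 a b d e hab he ha h1 h2
  · exact ind_ab_y_34 a b d e hab he ha h1 h2
  · exact ind_ab_y_41 a b d e hab he ha h1 h2
  · exact ind_ab_y_42 a b d e hab he ha h1 h2
  · exact ind_ab_y_43 a b d e hab he ha h1 h2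
  · exact ind_ab_y_44 a b d e hab he ha h1 h2

theorem ind_ab_xy (a b d e : ℕ) (hab : a ≤ b) (he : e ≤ 1) (ha : 1 ≤ a)
    (h1 : FF a b d e) (h2 : FF (a-1) (b-1) d (1-e)) : False := by
  rcases h1 with h1 | h1 | h1 | h1 <;> rcases h2 with h2 | h2 | h2 | h2
  · exact ind_ab_xy_11 a b d e hab he ha h1 h2
  · exact ind_ab_xy_12 a b d e hab he ha h1 h2
  · exact ind_ab_xy_13 a b d e hab he ha h1 h2
  · exact ind_ab_xy_14 a b d e hab he ha h1 h2
  · exact ind_ab_xy_21 a b d e hab he ha h1 h2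
  · exact ind_ab_xy_22 a b d e hab he ha h1 h2
  · exact ind_ab_xy_23 a b d e hab he ha h1 h2
  · exact ind_ab_xy_24 a b d e hab he ha h1 h2
  · exact ind_ab_xy_31 a b d e hab he ha h1 h2
  · exact ind_ab_xy_32 a b d e hab he ha h1 h2
  · exact ind_ab_xy_33 a b d e hab he ha h1 h2
  · exact ind_ab_xy_34 a b d e hab he ha h1 h2
  · exact ind_ab_xy_41 a b d e hab he ha h1 h2
  · exact ind_ab_xy_42 a b d e hab he ha h1 h2
  · exact ind_ab_xy_43 a b d e hab he ha h1 h2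
  · exact ind_ab_xy_44 a b d e hab he ha h1 h2

/-- The row part of a predecessor move (`a ≤ b` kept). -/
def RowMv (a b a' b' : ℕ) : Prop :=
  (a' + 1 = a ∧ b' = b) ∨ (a' = a ∧ b' + 1 = b ∧ a < b) ∨ (a' + 1 = a ∧ b' + 1 = b)

/-- The cell part of a predecessor move. -/
def CellMv (d e d' e' : ℕ) : Prop :=
  (d' + 1 = d ∧ e' = 1 - e) ∨ (d' = d + 1 ∧ e' = e) ∨ (d' = d ∧ e' = 1 - e)

/-- Independence of the static field. -/
theorem FF_indep (a b d e a' b' d' e' : ℕ) (hab : a ≤ b) (he : e ≤ 1)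
    (hm : (RowMv a b a' b' ∧ (CellMv d e d' e' ∨ (d' = d ∧ e' = e))) ∨
      (a' = a ∧ b' = b ∧ CellMv d e d' e'))
    (h1 : FF a b d e) : ¬ FF a' b' d' e' := by
  intro h2
  unfold RowMv CellMv at hm
  rcases hm with ⟨hr, hc⟩ | ⟨rfl, rfl, hc⟩
  · rcases hr with ⟨h, rfl⟩ | ⟨rfl, h, hb⟩ | ⟨h, h'⟩
    · have ha : 1 ≤ a := by omega
      obtain rfl : a' = a - 1 := by omega
      rcases hc with (⟨h3, rfl⟩ | ⟨rfl, rfl⟩ | ⟨rfl, rfl⟩) | ⟨rfl, rfl⟩
      · obtain rfl : d' = d - 1 := by omega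
        exact ind_a_x _ _ _ _ hab he ha (by omega) h1 h2
      · exact ind_a_y _ _ _ _ hab he ha h1 h2
      · exact ind_a_xy _ _ _ _ hab he ha h1 h2
      · exact ind_a_0 _ _ _ _ hab he ha h1 h2
    · obtain rfl : b' = b - 1 := by omega
      rcases hc with (⟨h3, rfl⟩ | ⟨rfl, rfl⟩ | ⟨rfl, rfl⟩) | ⟨rfl, rfl⟩
      · obtain rfl : d' = d - 1 := by omega
        exact ind_b_x _ _ _ _ hab he hb (by omega) h1 h2
      · exact ind_b_y _ _ _ _ hab he hb h1 h2
      · exact ind_b_xy _ _ _ _ hab he hb h1 h2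
      · exact ind_b_0 _ _ _ _ hab he hb h1 h2
    · have ha : 1 ≤ a := by omega
      obtain rfl : a' = a - 1 := by omega
      obtain rfl : b' = b - 1 := by omega
      rcases hc with (⟨h3, rfl⟩ | ⟨rfl, rfl⟩ | ⟨rfl, rfl⟩) | ⟨rfl, rfl⟩
      · obtain rfl : d' = d - 1 := by omega
        exact ind_ab_x _ _ _ _ hab he ha (by omega) h1 h2
      · exact ind_ab_y _ _ _ _ hab he ha h1 h2
      · exact ind_ab_xy _ _ _ _ hab he ha h1 h2
      · exact ind_ab_0 _ _ _ _ hab he ha h1 h2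
  · rcases hc with ⟨h3, rfl⟩ | ⟨rfl, rfl⟩ | ⟨rfl, rfl⟩
    · obtain rfl : d' = d - 1 := by omega
      exact ind_x _ _ _ _ hab he (by omega) h1 h2
    · exact ind_y _ _ _ _ hab he h1 h2
    · exact ind_xy _ _ _ _ hab he h1 h2

/-- A one cell is not all even. -/
theorem FF_not_even (a b d e : ℕ) (hab : a ≤ b) (h : FF a b d e) :
    ¬ (a % 2 = 0 ∧ b % 2 = 0 ∧ d % 2 = 0 ∧ e = 0) := by
  unfold FF FF1 FF2 FU FF3 FT FF4 at h
  omega

theorem Fst_swap_ab (a b x y : ℕ) : Fst a b x y ↔ Fst b a x y := by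
  unfold Fst
  rw [min_comm a b, max_comm a b]

theorem Fst_swap_xy (a b x y : ℕ) : Fst a b x y ↔ Fst a b y x := by
  unfold Fst
  rw [min_comm x y, max_comm x y]

theorem Fst_of_le {a b x y : ℕ} (h1 : a ≤ b) (h2 : y ≤ x) :
    Fst a b x y ↔ FF a b (x - y) (x % 2) := by
  unfold Fst
  rw [min_eq_left h1, max_eq_right h1, min_eq_right h2, max_eq_left h2]

theorem Fst_not_even (a b x y : ℕ) (h : Fst a b x y) :
    ¬ (a % 2 = 0 ∧ b % 2 = 0 ∧ x % 2 = 0 ∧ y % 2 = 0) := by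
  intro h'
  refine FF_not_even _ _ _ _ (min_le_max) h ⟨?_, ?_, ?_, ?_⟩ <;>
    rcases le_total a b with h1 | h1 <;> rcases le_total x y with h2 | h2 <;>
    simp only [min_eq_left, min_eq_right, max_eq_left, max_eq_right, h1, h2] <;> omega

theorem row_mv {a b p q : ℕ} (hp : p ≤ 1) (hq : q ≤ 1) (hpa : p ≤ a) (hqb : q ≤ b)
    (hab : a ≤ b) : (min (a - p) (b - q) = a ∧ max (a - p) (b - q) = b ∧ p + q = 0) ∨
      RowMv a b (min (a - p) (b - q)) (max (a - p) (b - q)) := by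
  unfold RowMv
  rcases le_total (a - p) (b - q) with h | h <;>
    simp only [min_eq_left, min_eq_right, max_eq_left, max_eq_right, h] <;> omega

theorem cell_mv {x y r s : ℕ} (hr : r ≤ 1) (hs : s ≤ 1) (hrx : r ≤ x) (hsy : s ≤ y)
    (hxy : y ≤ x) :
    (max (x - r) (y - s) - min (x - r) (y - s) = x - y ∧
      max (x - r) (y - s) % 2 = x % 2 ∧ r + s = 0) ∨
    CellMv (x - y) (x % 2) (max (x - r) (y - s) - min (x - r) (y - s))
      (max (x - r) (y - s) % 2) := by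
  unfold CellMv
  rcases le_total (x - r) (y - s) with h | h <;>
    simp only [min_eq_left, min_eq_right, max_eq_left, max_eq_right, h] <;> omega

theorem Fst_indep_aux (a b x y p q r s : ℕ) (hp : p ≤ 1) (hq : q ≤ 1) (hr : r ≤ 1) (hs : s ≤ 1)
    (hK : 1 ≤ p + q + r + s) (hpa : p ≤ a) (hqb : q ≤ b) (hrx : r ≤ x) (hsy : s ≤ y)
    (hab : a ≤ b) (hxy : y ≤ x) (h : Fst a b x y) :
    ¬ Fst (a - p) (b - q) (x - r) (y - s) := by
  rw [Fst_of_le hab hxy] at h
  unfold Fst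
  refine FF_indep a b (x - y) (x % 2) _ _ _ _ hab (by omega) ?_ h
  rcases row_mv hp hq hpa hqb hab with ⟨h1, h2, h3⟩ | h1
  · rcases cell_mv hr hs hrx hsy hxy with ⟨h4, h5, h6⟩ | h4
    · omega
    · exact Or.inr ⟨h1, h2, h4⟩
  · rcases cell_mv hr hs hrx hsy hxy with ⟨h4, h5, h6⟩ | h4
    · exact Or.inl ⟨h1, Or.inr ⟨h4, h5⟩⟩
    · exact Or.inl ⟨h1, Or.inl h4⟩

/-- Independence of the static field, in the form of the rule. -/
theorem Fst_indep (a b x y p q r s : ℕ) (hp : p ≤ 1) (hq : q ≤ 1) (hr : r ≤ 1) (hs : s ≤ 1)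
    (hK : 1 ≤ p + q + r + s) (hpa : p ≤ a) (hqb : q ≤ b) (hrx : r ≤ x) (hsy : s ≤ y)
    (h : Fst a b x y) : ¬ Fst (a - p) (b - q) (x - r) (y - s) := by
  rcases le_total a b with h1 | h1 <;> rcases le_total y x with h2 | h2
  · exact Fst_indep_aux a b x y p q r s hp hq hr hs hK hpa hqb hrx hsy h1 h2 h
  · rw [Fst_swap_xy] at h ⊢
    exact Fst_indep_aux a b y x p q s r hp hq hs hr (by omega) hpa hqb hsy hrx h1 h2 h
  · rw [Fst_swap_ab] at h ⊢
    exact Fst_indep_aux b a x y q p r s hq hp hr hs (by omega) hqb hpa hrx hsy h1 h2 h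
  · rw [Fst_swap_ab, Fst_swap_xy] at h ⊢
    exact Fst_indep_aux b a y x q p s r hq hp hs hr (by omega) hqb hpa hsy hrx h1 h2 h

end Pool.Agent.SNT
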