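import Pool.Agent.SNT.Fst

/-! Independence half of the rule for the static field: a one cell has no one cell among its
predecessors (part 3a). -/

namespace Pool.Agent.SNT

set_option linter.unusedVariables false

theorem ind_b_0_11 (a b d e : ℕ) (hab : a ≤ b) (he : e ≤ 1) (hb : a < b)
    (h1 : FF1 a b d e) (h2 : FF1 a (b-1) d e) : False := by
  unfold FF1 at h1
  unfold FF1 at h2
  omega

theorem ind_b_0_12 (a b d e : ℕ) (hab : a ≤ b) (he : e ≤ 1) (hb : a < b)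
    (h1 : FF1 a b d e) (h2 : FF2 a (b-1) d e) : False := by
  unfold FF1 at h1
  unfold FF2 FU at h2
  omega

theorem ind_b_0_13 (a b d e : ℕ) (hab : a ≤ b) (he : e ≤ 1) (hb : a < b)
    (h1 : FF1 a b d e) (h2 : FF3 a (b-1) d e) : False := by
  unfold FF1 at h1
  unfold FF3 FT at h2
  omega

theorem ind_b_0_14 (a b d e : ℕ) (hab : a ≤ b) (he : e ≤ 1) (hb : a < b)
    (h1 : FF1 a b d e) (h2 : FF4 a (b-1) d e) : False := by
  unfold FF1 at h1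
  unfold FF4 at h2
  omega

theorem ind_b_0_21 (a b d e : ℕ) (hab : a ≤ b) (he : e ≤ 1) (hb : a < b)
    (h1 : FF2 a b d e) (h2 : FF1 a (b-1) d e) : False := by
  unfold FF2 FU at h1
  unfold FF1 at h2
  omega

theorem ind_b_0_22 (a b d e : ℕ) (hab : a ≤ b) (he : e ≤ 1) (hb : a < b)
    (h1 : FF2 a b d e) (h2 : FF2 a (b-1) d e) : False := by
  unfold FF2 FU at h1
  unfold FF2 FU at h2
  omega

theorem ind_b_0_23 (a b d e : ℕ) (hab : a ≤ b) (he : e ≤ 1) (hb : a < b)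
    (h1 : FF2 a b d e) (h2 : FF3 a (b-1) d e) : False := by
  unfold FF2 FU at h1
  unfold FF3 FT at h2
  omega

theorem ind_b_0_24 (a b d e : ℕ) (hab : a ≤ b) (he : e ≤ 1) (hb : a < b)
    (h1 : FF2 a b d e) (h2 : FF4 a (b-1) d e) : False := by
  unfold FF2 FU at h1
  unfold FF4 at h2
  omega

theorem ind_b_0_31 (a b d e : ℕ) (hab : a ≤ b) (he : e ≤ 1) (hb : a < b)
    (h1 : FF3 a b d e) (h2 : FF1 a (b-1) d e) : False := by
  unfold FF3 FT at h1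
  unfold FF1 at h2
  omega

theorem ind_b_0_32 (a b d e : ℕ) (hab : a ≤ b) (he : e ≤ 1) (hb : a < b)
    (h1 : FF3 a b d e) (h2 : FF2 a (b-1) d e) : False := by
  unfold FF3 FT at h1
  unfold FF2 FU at h2
  omega

theorem ind_b_0_33 (a b d e : ℕ) (hab : a ≤ b) (he : e ≤ 1) (hb : a < b)
    (h1 : FF3 a b d e) (h2 : FF3 a (b-1) d e) : False := by
  unfold FF3 FT at h1
  unfold FF3 FT at h2
  omega

theorem ind_b_0_34 (a b d e : ℕ) (hab : a ≤ b) (he : e ≤ 1) (hb : a < b)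
    (h1 : FF3 a b d e) (h2 : FF4 a (b-1) d e) : False := by
  unfold FF3 FT at h1
  unfold FF4 at h2
  omega

theorem ind_b_0_41 (a b d e : ℕ) (hab : a ≤ b) (he : e ≤ 1) (hb : a < b)
    (h1 : FF4 a b d e) (h2 : FF1 a (b-1) d e) : False := by
  unfold FF4 at h1
  unfold FF1 at h2
  omega

theorem ind_b_0_42 (a b d e : ℕ) (hab : a ≤ b) (he : e ≤ 1) (hb : a < b)
    (h1 : FF4 a b d e) (h2 : FF2 a (b-1) d e) : False := by
  unfold FF4 at h1
  unfold FF2 FU at h2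
  omega

theorem ind_b_0_43 (a b d e : ℕ) (hab : a ≤ b) (he : e ≤ 1) (hb : a < b)
    (h1 : FF4 a b d e) (h2 : FF3 a (b-1) d e) : False := by
  unfold FF4 at h1
  unfold FF3 FT at h2
  omega

theorem ind_b_0_44 (a b d e : ℕ) (hab : a ≤ b) (he : e ≤ 1) (hb : a < b)
    (h1 : FF4 a b d e) (h2 : FF4 a (b-1) d e) : False := by
  unfold FF4 at h1
  unfold FF4 at h2
  omega

theorem ind_b_x_11 (a b d e : ℕ) (hab : a ≤ b) (he : e ≤ 1) (hb : a < b) (hd : 1 ≤ d)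
    (h1 : FF1 a b d e) (h2 : FF1 a (b-1) (d-1) (1-e)) : False := by
  unfold FF1 at h1
  unfold FF1 at h2
  omega

theorem ind_b_x_12 (a b d e : ℕ) (hab : a ≤ b) (he : e ≤ 1) (hb : a < b) (hd : 1 ≤ d)
    (h1 : FF1 a b d e) (h2 : FF2 a (b-1) (d-1) (1-e)) : False := by
  unfold FF1 at h1
  unfold FF2 FU at h2
  omega

theorem ind_b_x_13 (a b d e : ℕ) (hab : a ≤ b) (he : e ≤ 1) (hb : a < b) (hd : 1 ≤ d)
    (h1 : FF1 a b d e) (h2 : FF3 a (b-1) (d-1) (1-e)) : False := by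
  unfold FF1 at h1
  unfold FF3 FT at h2
  omega

theorem ind_b_x_14 (a b d e : ℕ) (hab : a ≤ b) (he : e ≤ 1) (hb : a < b) (hd : 1 ≤ d)
    (h1 : FF1 a b d e) (h2 : FF4 a (b-1) (d-1) (1-e)) : False := by
  unfold FF1 at h1
  unfold FF4 at h2
  omega

theorem ind_b_x_21 (a b d e : ℕ) (hab : a ≤ b) (he : e ≤ 1) (hb : a < b) (hd : 1 ≤ d)
    (h1 : FF2 a b d e) (h2 : FF1 a (b-1) (d-1) (1-e)) : False := by
  unfold FF2 FU at h1
  unfold FF1 at h2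
  omega

theorem ind_b_x_22 (a b d e : ℕ) (hab : a ≤ b) (he : e ≤ 1) (hb : a < b) (hd : 1 ≤ d)
    (h1 : FF2 a b d e) (h2 : FF2 a (b-1) (d-1) (1-e)) : False := by
  unfold FF2 FU at h1
  unfold FF2 FU at h2
  omega

theorem ind_b_x_23 (a b d e : ℕ) (hab : a ≤ b) (he : e ≤ 1) (hb : a < b) (hd : 1 ≤ d)
    (h1 : FF2 a b d e) (h2 : FF3 a (b-1) (d-1) (1-e)) : False := by
  unfold FF2 FU at h1
  unfold FF3 FT at h2
  omega

theorem ind_b_x_24 (a b d e : ℕ) (hab : a ≤ b) (he : e ≤ 1) (hb : a < b) (hd : 1 ≤ d)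
    (h1 : FF2 a b d e) (h2 : FF4 a (b-1) (d-1) (1-e)) : False := by
  unfold FF2 FU at h1
  unfold FF4 at h2
  omega

theorem ind_b_x_31 (a b d e : ℕ) (hab : a ≤ b) (he : e ≤ 1) (hb : a < b) (hd : 1 ≤ d)
    (h1 : FF3 a b d e) (h2 : FF1 a (b-1) (d-1) (1-e)) : False := by
  unfold FF3 FT at h1
  unfold FF1 at h2
  omega

theorem ind_b_x_32 (a b d e : ℕ) (hab : a ≤ b) (he : e ≤ 1) (hb : a < b) (hd : 1 ≤ d)
    (h1 : FF3 a b d e) (h2 : FF2 a (b-1) (d-1) (1-e)) : False := by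
  unfold FF3 FT at h1
  unfold FF2 FU at h2
  omega

theorem ind_b_x_33 (a b d e : ℕ) (hab : a ≤ b) (he : e ≤ 1) (hb : a < b) (hd : 1 ≤ d)
    (h1 : FF3 a b d e) (h2 : FF3 a (b-1) (d-1) (1-e)) : False := by
  unfold FF3 FT at h1
  unfold FF3 FT at h2
  omega

theorem ind_b_x_34 (a b d e : ℕ) (hab : a ≤ b) (he : e ≤ 1) (hb : a < b) (hd : 1 ≤ d)
    (h1 : FF3 a b d e) (h2 : FF4 a (b-1) (d-1) (1-e)) : False := by
  unfold FF3 FT at h1
  unfold FF4 at h2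
  omega

theorem ind_b_x_41 (a b d e : ℕ) (hab : a ≤ b) (he : e ≤ 1) (hb : a < b) (hd : 1 ≤ d)
    (h1 : FF4 a b d e) (h2 : FF1 a (b-1) (d-1) (1-e)) : False := by
  unfold FF4 at h1
  unfold FF1 at h2
  omega

theorem ind_b_x_42 (a b d e : ℕ) (hab : a ≤ b) (he : e ≤ 1) (hb : a < b) (hd : 1 ≤ d)
    (h1 : FF4 a b d e) (h2 : FF2 a (b-1) (d-1) (1-e)) : False := by
  unfold FF4 at h1
  unfold FF2 FU at h2
  omega

theorem ind_b_x_43 (a b d e : ℕ) (hab : a ≤ b) (he : e ≤ 1) (hb : a < b) (hd : 1 ≤ d)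
    (h1 : FF4 a b d e) (h2 : FF3 a (b-1) (d-1) (1-e)) : False := by
  unfold FF4 at h1
  unfold FF3 FT at h2
  omega

theorem ind_b_x_44 (a b d e : ℕ) (hab : a ≤ b) (he : e ≤ 1) (hb : a < b) (hd : 1 ≤ d)
    (h1 : FF4 a b d e) (h2 : FF4 a (b-1) (d-1) (1-e)) : False := by
  unfold FF4 at h1
  unfold FF4 at h2
  omega

end Pool.Agent.SNT
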