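import Mathlib

set_option autoImplicit false

/-! The hole in front of an isolated tip (abstract form, one even layer `g` and the layer `gp`
above it; rows are numbered from `0` = four rows below the row of the missing cell). -/

namespace Pool.Agent.SNT.Hole

/-- The static field in row `k` for `y ≤ x` (strip of half width `h`), `(a + b₀) % 4 = 2`. -/
def Fx (h k x y : ℕ) : Prop :=
  (k % 2 = 0 ∧ (x - y) % 2 = 1 ∧ x - y + 1 ≤ 2 * h ∧ (2 + k + 2 * x) % 4 = 0) ∨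
  (k % 2 = 0 ∧ (x - y) % 2 = 1 ∧ 2 * h ≤ x - y + 1 ∧ (2 + k + x + y) % 4 = (1 + 2 * h) % 4) ∨
  (k % 2 = 1 ∧ (x - y) % 2 = 0 ∧ 2 * h ≤ x - y ∧ (2 + k + x + y) % 4 = (1 + 2 * h) % 4) ∨
  (k % 2 = 1 ∧ x = y ∧ (2 + k + x + y) % 4 = 3)

/-- What is used about the layer `g` alone (levels are measured by `x + y`; the surface in
row `k` is `4 m + 4 h + 1 + (h + 2) (k - 4)`). -/
structure Tip0 (g : ℕ → ℕ → ℕ → Prop) (h m : ℕ) : Prop where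
  hh : 2 ≤ h
  hm : 4 ≤ m
  kill : ∀ {k x y k' x' y' : ℕ}, g k x y →
    (k ≤ k' ∧ k' ≤ k + 1 ∧ x ≤ x' ∧ x' ≤ x + 1 ∧ y ≤ y' ∧ y' ≤ y + 1 ∧ k + x + y < k' + x' + y') →
    ¬ g k' x' y'
  ev : ∀ {k x y : ℕ}, (k % 2 = 0 ∧ x % 2 = 0 ∧ y % 2 = 0) → ¬ g k x y
  sym : ∀ {k x y : ℕ}, g k x y → g k y x
  rule : ∀ {k x y k1 x1 y1 : ℕ}, (k = k1 + 1 ∧ x = x1 + 1 ∧ y = y1 + 1) →
    (k ≤ 6 ∧ (k % 2 = 1 ∨ x % 2 = 1 ∨ y % 2 = 1) ∧ y ≤ x ∧ x ≤ y + 2 * h + 6 ∧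
      4 * m + 1 + (h + 2) * k ≤ x + y + 4 * (h + 2)) →
    ¬ g k x y1 → ¬ g k x1 y → ¬ g k x1 y1 → ¬ g k1 x y → ¬ g k1 x y1 → ¬ g k1 x1 y →
    ¬ g k1 x1 y1 → g k x y
  st : ∀ {k x y : ℕ}, (k ≤ 6 ∧ y + (1 - k) ≤ x ∧ x ≤ y + 2 * h + 8 ∧
      4 * m + 4 * h + 1 + (h + 2) * k < x + y + 4 * (h + 2)) → (g k x y ↔ Fx h k x y)

/-- What is used about the layer `g`, the layer `gp` above it, and the record. -/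
structure Tip (g gp : ℕ → ℕ → ℕ → Prop) (h m : ℕ) : Prop extends Tip0 g h m where
  up : ∀ {k x y k1 x1 y1 : ℕ}, (k = k1 + 1 ∧ x = x1 + 1 ∧ y = y1 + 1) →
    ¬ g k x y → ¬ g k x y1 → ¬ g k x1 y → ¬ g k x1 y1 → ¬ g k1 x y → ¬ g k1 x y1 → ¬ g k1 x1 y →
    ¬ g k1 x1 y1 →
    ¬ gp k x y1 → ¬ gp k x1 y → ¬ gp k x1 y1 → ¬ gp k1 x y → ¬ gp k1 x y1 → ¬ gp k1 x1 y →
    ¬ gp k1 x1 y1 → gp k x y
  dom : ∀ {k x y k' x' y' : ℕ}, g k x y →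
    (k ≤ k' ∧ k' ≤ k + 1 ∧ x ≤ x' ∧ x' ≤ x + 1 ∧ y ≤ y' ∧ y' ≤ y + 1) → ¬ gp k' x' y'
  pp : ∀ {k x y : ℕ}, (1 ≤ k ∧ k ≤ 6 ∧ y ≤ x ∧ x ≤ y + 2 * h + 6 ∧
      4 * m + 1 + (h + 2) * k + 3 ≤ x + y + 4 * (h + 2)) → ¬ gp k x y

variable {g gp : ℕ → ℕ → ℕ → Prop} {h m : ℕ}

theorem Tip0.st1 (T : Tip0 g h m) {k x y : ℕ} (hc : k ≤ 6 ∧ y + (1 - k) ≤ x ∧ x ≤ y + 2 * h + 8 ∧
      4 * m + 4 * h + 1 + (h + 2) * k < x + y + 4 * (h + 2)) (hF : Fx h k x y) : g k x y :=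
  (T.st hc).2 hF

theorem Tip0.st0 (T : Tip0 g h m) {k x y : ℕ} (hc : k ≤ 6 ∧ y + (1 - k) ≤ x ∧ x ≤ y + 2 * h + 8 ∧
      4 * m + 4 * h + 1 + (h + 2) * k < x + y + 4 * (h + 2)) (hF : ¬ Fx h k x y) : ¬ g k x y :=
  fun h' => hF ((T.st hc).1 h')

/-- An all even cell in the zone is dominated. -/
theorem Tip.hole (T : Tip g gp h m) {k x y k1 x1 y1 : ℕ} (e : k = k1 + 1 ∧ x = x1 + 1 ∧ y = y1 + 1)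
    (hev : k % 2 = 0 ∧ x % 2 = 0 ∧ y % 2 = 0)
    (hc : 2 ≤ k ∧ k ≤ 6 ∧ y < x ∧ x ≤ y + 2 * h + 4 ∧
      4 * m + 1 + (h + 2) * k + 5 ≤ x + y + 4 * (h + 2))
    (h1 : ¬ g k x y1) (h2 : ¬ g k x1 y) (h3 : ¬ g k x1 y1) (h4 : ¬ g k1 x y) (h5 : ¬ g k1 x y1)
    (h6 : ¬ g k1 x1 y) (h7 : ¬ g k1 x1 y1) : False := by
  obtain ⟨rfl, rfl, rfl⟩ := e
  obtain ⟨c1, c2, c3, c4, c5⟩ := hc
  have hk : (h + 2) * (k1 + 1) = (h + 2) * k1 + (h + 2) := by ring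
  refine T.pp ?_ (T.up ⟨rfl, rfl, rfl⟩ (T.ev hev) h1 h2 h3 h4 h5 h6 h7 (T.pp ?_) (T.pp ?_)
    (T.pp ?_) (T.pp ?_) (T.pp ?_) (T.pp ?_) (T.pp ?_)) <;>
  exact ⟨by omega, by omega, by omega, by omega, by omega⟩

end Pool.Agent.SNT.Hole
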