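import Pool.Agent.SNT.HoleA

set_option autoImplicit false

/-! The hole in front of an isolated tip: rows `-4 … -1` and the edge. -/

namespace Pool.Agent.SNT.Hole

variable {g : ℕ → ℕ → ℕ → Prop} {h m : ℕ}

/-- Complete lines in row `2`. -/
theorem Tip0.line2 (T : Tip0 g h m) {j : ℕ} (hj : m ≤ j) :
    ∀ t : ℕ, t + 1 ≤ h → g 2 (2 * (j + h - t)) (2 * j + 1) := by
  have h2 := T.hh
  have h3 := T.hm
  intro t
  induction t with
  | zero =>
    intro _
    refine T.st1 ⟨by omega, by omega, by omega, by omega⟩ ?_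
    unfold Fx; omega
  | succ t ih =>
    intro ht
    have h4 := ih (by omega)
    by_contra hcon
    have hY : g 0 (2 * (j + h - (t + 1)) - 1) (2 * j) := by
      refine T.st1 ⟨by omega, by omega, by omega, by omega⟩ ?_
      unfold Fx; omega
    have hO : g 2 (2 * (j + h - t) - 1) (2 * j + 1) :=
      T.rule (k1 := 1) (x1 := 2 * (j + h - (t + 1))) (y1 := 2 * j)
        ⟨by omega, by omega, by omega⟩
        ⟨by omega, by omega, by omega, by omega, by omega⟩
        (fun h' => T.kill h' (by omega) h4) hcon (T.ev (by omega))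
        (fun h' => T.kill h' (by omega) h4) (fun h' => T.kill h' (by omega) h4)
        (T.kill hY (by omega)) (T.kill hY (by omega))
    exact T.kill hO (by omega) h4

theorem Tip0.X2 (T : Tip0 g h m) {i j : ℕ} (hj : m ≤ j) (h1 : j + 1 ≤ i) (h2 : i ≤ j + h) :
    g 2 (2 * i) (2 * j + 1) := by
  have h3 := T.line2 hj (j + h - i) (by omega)
  have e : j + h - (j + h - i) = i := by omega
  rwa [e] at h3

/-- Row `3` is zero inside the strip. -/
theorem Tip0.z3 (T : Tip0 g h m) {x y j : ℕ} (hj : m ≤ j) (hy : y = 2 * j + 1 ∨ y = 2 * j + 2)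
    (h1 : 2 * (j + 1) ≤ x) (h2 : x ≤ 2 * (j + h) + 1) : ¬ g 3 x y := by
  have h3 := T.X2 (i := x / 2) (j := j) hj (by omega) (by omega)
  exact T.kill h3 (by omega)

/-- The static cells just behind the surface in row `2`. -/
theorem Tip0.Ya2 (T : Tip0 g h m) : g 2 (2 * m + 2 * h - 1) (2 * m - 2) := by
  have h2 := T.hh
  have h3 := T.hm
  have k1 : g 1 (2 * m + 2 * h - 2) (2 * m - 4) := by
    refine T.st1 ⟨by omega, by omega, by omega, by omega⟩ ?_
    unfold Fx; omega
  have k2 : g 1 (2 * m + 2 * h - 3) (2 * m - 3) := by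
    refine T.st1 ⟨by omega, by omega, by omega, by omega⟩ ?_
    unfold Fx; omega
  refine T.rule (k1 := 1) (x1 := 2 * m + 2 * h - 2) (y1 := 2 * m - 3)
    ⟨by omega, by omega, by omega⟩ ⟨by omega, by omega, by omega, by omega, by omega⟩
    (T.kill k1 (by omega)) (T.ev (by omega)) (T.kill k2 (by omega)) ?_ ?_ ?_ ?_ <;>
  · refine T.st0 ⟨by omega, by omega, by omega, by omega⟩ ?_
    unfold Fx; omega

theorem Tip0.Xb2 (T : Tip0 g h m) : g 2 (2 * m + 2 * h) (2 * m - 3) := by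
  have h2 := T.hh
  have h3 := T.hm
  have k1 : g 1 (2 * m + 2 * h - 2) (2 * m - 4) := by
    refine T.st1 ⟨by omega, by omega, by omega, by omega⟩ ?_
    unfold Fx; omega
  refine T.rule (k1 := 1) (x1 := 2 * m + 2 * h - 1) (y1 := 2 * m - 4)
    ⟨by omega, by omega, by omega⟩ ⟨by omega, by omega, by omega, by omega, by omega⟩
    (T.ev (by omega)) (T.kill k1 (by omega)) (T.kill k1 (by omega)) ?_ ?_ ?_ ?_ <;>
  · refine T.st0 ⟨by omega, by omega, by omega, by omega⟩ ?_
    unfold Fx; omega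

theorem Tip0.Yb2 (T : Tip0 g h m) : g 2 (2 * m + 2 * h + 1) (2 * m - 4) := by
  have h2 := T.hh
  have h3 := T.hm
  have k1 : g 1 (2 * m + 2 * h) (2 * m - 6) := by
    refine T.st1 ⟨by omega, by omega, by omega, by omega⟩ ?_
    unfold Fx; omega
  have k2 : g 1 (2 * m + 2 * h - 1) (2 * m - 5) := by
    refine T.st1 ⟨by omega, by omega, by omega, by omega⟩ ?_
    unfold Fx; omega
  refine T.rule (k1 := 1) (x1 := 2 * m + 2 * h) (y1 := 2 * m - 5)
    ⟨by omega, by omega, by omega⟩ ⟨by omega, by omega, by omega, by omega, by omega⟩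
    (T.kill k1 (by omega)) (T.ev (by omega)) (T.kill k2 (by omega)) ?_ ?_ ?_ ?_ <;>
  · refine T.st0 ⟨by omega, by omega, by omega, by omega⟩ ?_
    unfold Fx; omega

theorem Tip0.Ym2 (T : Tip0 g h m) : g 2 (2 * m + 2 * h + 1) (2 * m) := by
  have h2 := T.hh
  have h3 := T.hm
  refine T.st1 ⟨by omega, by omega, by omega, by omega⟩ ?_
  unfold Fx; omega

theorem Tip0.Xm2 (T : Tip0 g h m) : g 2 (2 * m + 2 * h + 2) (2 * m - 1) := by
  have h2 := T.hh
  have h3 := T.hm
  refine T.st1 ⟨by omega, by omega, by omega, by omega⟩ ?_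
  unfold Fx; omega

/-! Row `3`. -/

theorem Tip0.E3a (T : Tip0 g h m) : g 3 (2 * m + 2 * h + 2) (2 * m + 2) := by
  have h2 := T.hh
  have h3 := T.hm
  refine T.rule (k1 := 2) (x1 := 2 * m + 2 * h + 1) (y1 := 2 * m + 1)
    ⟨by omega, by omega, by omega⟩ ⟨by omega, by omega, by omega, by omega, by omega⟩
    (T.kill T.Ym2 (by omega)) (T.z3 (j := m) (by omega) (by omega) (by omega) (by omega))
    (T.kill T.Ym2 (by omega)) (T.ev (by omega)) ?_ ?_ ?_ <;>
  · refine T.st0 ⟨by omega, by omega, by omega, by omega⟩ ?_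
    unfold Fx; omega

theorem Tip0.O3a (T : Tip0 g h m) : g 3 (2 * m + 2 * h + 3) (2 * m + 1) := by
  have h2 := T.hh
  have h3 := T.hm
  refine T.rule (k1 := 2) (x1 := 2 * m + 2 * h + 2) (y1 := 2 * m)
    ⟨by omega, by omega, by omega⟩ ⟨by omega, by omega, by omega, by omega, by omega⟩
    (T.kill T.Xm2 (by omega)) (T.kill T.Ym2 (by omega)) (T.kill T.Ym2 (by omega)) ?_ ?_ ?_
    (T.ev (by omega)) <;>
  · refine T.st0 ⟨by omega, by omega, by omega, by omega⟩ ?_
    unfold Fx; omega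

theorem Tip0.O3b (T : Tip0 g h m) : g 3 (2 * m + 2 * h + 1) (2 * m - 1) := by
  have h2 := T.hh
  have h3 := T.hm
  refine T.rule (k1 := 2) (x1 := 2 * m + 2 * h) (y1 := 2 * m - 2)
    ⟨by omega, by omega, by omega⟩ ⟨by omega, by omega, by omega, by omega, by omega⟩
    (T.kill T.Xb2 (by omega)) (T.kill T.Ya2 (by omega)) (T.kill T.Ya2 (by omega)) ?_ ?_ ?_
    (T.ev (by omega)) <;>
  · refine T.st0 ⟨by omega, by omega, by omega, by omega⟩ ?_
    unfold Fx; omega

theorem Tip0.E3b (T : Tip0 g h m) : g 3 (2 * m + 2 * h + 2) (2 * m - 2) := by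
  have h2 := T.hh
  have h3 := T.hm
  refine T.rule (k1 := 2) (x1 := 2 * m + 2 * h + 1) (y1 := 2 * m - 3)
    ⟨by omega, by omega, by omega⟩ ⟨by omega, by omega, by omega, by omega, by omega⟩
    (T.kill T.Yb2 (by omega)) (T.kill T.Xb2 (by omega)) (T.kill T.Xb2 (by omega))
    (T.ev (by omega)) ?_ ?_ ?_ <;>
  · refine T.st0 ⟨by omega, by omega, by omega, by omega⟩ ?_
    unfold Fx; omega

/-- The diagonal ones of row `3`. -/
theorem Tip0.D3 (T : Tip0 g h m) {j : ℕ} (hj : m + h ≤ j + 1) : g 3 (2 * j + 1) (2 * j + 1) := by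
  have h2 := T.hh
  have h3 := T.hm
  refine T.st1 ⟨by omega, by omega, by omega, by omega⟩ ?_
  unfold Fx; omega

/-- The edge alternative in row `3`. -/
theorem Tip0.edge3 (T : Tip0 g h m) :
    g 3 (2 * m + 2 * h) (2 * m) ∨ g 3 (2 * m + 2 * h - 1) (2 * m) := by
  have h2 := T.hh
  have h3 := T.hm
  by_contra hcon
  push Not at hcon
  obtain ⟨c1, c2⟩ := hcon
  apply c1
  refine T.rule (k1 := 2) (x1 := 2 * m + 2 * h - 1) (y1 := 2 * m - 1)
    ⟨by omega, by omega, by omega⟩ ⟨by omega, by omega, by omega, by omega, by omega⟩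
    (T.kill T.Ya2 (by omega)) c2 (T.kill T.Ya2 (by omega))
    (T.ev (by omega)) ?_ ?_ ?_ <;>
  · refine T.st0 ⟨by omega, by omega, by omega, by omega⟩ ?_
    unfold Fx; omega

end Pool.Agent.SNT.Hole
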