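import Pool.Agent.SNT.HoleB

set_option autoImplicit false

/-! The hole in front of an isolated tip: rows `0 … 2` and the contradiction (leader in an
IN row). The missing cell is `(2 n + 1, 2 n)` in row `4`, `n = m + h`. -/

namespace Pool.Agent.SNT.Hole

variable {g gp : ℕ → ℕ → ℕ → Prop} {h m : ℕ}

/-! Row `4` beyond the edge. -/

theorem Tip.Y4a (T : Tip g gp h m) : ¬ g 4 (2 * m + 2 * h + 3) (2 * m + 2) :=
  T.kill T.E3a (by omega)

theorem Tip.O4a (T : Tip g gp h m) : ¬ g 4 (2 * m + 2 * h + 3) (2 * m + 1) :=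
  T.kill T.O3a (by omega)

theorem Tip.Y4b (T : Tip g gp h m) : g 4 (2 * m + 2 * h + 3) (2 * m) := by
  have h2 := T.hh
  have h3 := T.hm
  refine T.rule (k1 := 3) (x1 := 2 * m + 2 * h + 2) (y1 := 2 * m - 1)
    ⟨by omega, by omega, by omega⟩ ⟨by omega, by omega, by omega, by omega, by omega⟩
    (T.kill T.E3b (by omega)) (T.ev (by omega)) (T.kill T.O3b (by omega))
    (T.kill T.Xm2 (by omega)) (T.kill T.Xm2 (by omega)) (T.kill T.Xm2 (by omega))
    (T.kill T.Xm2 (by omega))

/-- The column `n + 1` of row `4`. -/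
theorem Tip.col1 (T : Tip g gp h m) :
    ∀ t : ℕ, t + 1 ≤ h → g 4 (2 * m + 2 * h + 3) (2 * (m + h + 1 - t)) := by
  have h2 := T.hh
  have h3 := T.hm
  intro t
  induction t with
  | zero =>
    intro _
    refine T.st1 ⟨by omega, by omega, by omega, by omega⟩ ?_
    unfold Fx; omega
  | succ t ih =>
    intro ht
    have h4 := ih (by omega)
    by_contra hcon
    have hO : g 4 (2 * m + 2 * h + 3) (2 * (m + h + 1 - (t + 1)) + 1) :=
      T.rule (k1 := 3) (x1 := 2 * m + 2 * h + 2) (y1 := 2 * (m + h + 1 - (t + 1)))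
        ⟨by omega, by omega, by omega⟩
        ⟨by omega, by omega, by omega, by omega, by omega⟩
        hcon (fun h' => T.kill h' (by omega) h4) (T.ev (by omega))
        (fun h' => T.kill h' (by omega) h4)
        (T.z3 (j := m + h - (t + 1)) (by omega) (by omega) (by omega) (by omega))
        (fun h' => T.kill h' (by omega) h4)
        (T.z3 (j := m + h - (t + 1)) (by omega) (by omega) (by omega) (by omega))
    exact T.kill hO (by omega) h4

theorem Tip.C1 (T : Tip g gp h m) {j : ℕ} (h1 : m + 2 ≤ j) (h2 : j ≤ m + h + 1) :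
    g 4 (2 * m + 2 * h + 3) (2 * j) := by
  have h3 := T.col1 (m + h + 1 - j) (by omega)
  have e : m + h + 1 - (m + h + 1 - j) = j := by omega
  rwa [e] at h3

/-- The column `n` of row `4` has no `Y`. -/
theorem Tip.col0Y (T : Tip g gp h m) (hL : ¬ g 4 (2 * m + 2 * h + 1) (2 * m + 2 * h)) :
    ∀ t : ℕ, t + 1 ≤ h → ¬ g 4 (2 * m + 2 * h + 1) (2 * (m + h - t)) := by
  have h2 := T.hh
  have h3 := T.hm
  intro t
  induction t with
  | zero =>
    intro _
    have e : 2 * (m + h - 0) = 2 * m + 2 * h := by omega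
    rw [e]; exact hL
  | succ t ih =>
    intro ht hY
    have h4 := ih (by omega)
    refine T.hole (k := 4) (x := 2 * m + 2 * h + 2) (y := 2 * (m + h - t)) (k1 := 3)
      (x1 := 2 * m + 2 * h + 1) (y1 := 2 * (m + h - (t + 1)) + 1)
      ⟨by omega, by omega, by omega⟩ ⟨by omega, by omega, by omega⟩
      ⟨by omega, by omega, by omega, by omega, by omega⟩ (T.kill hY (by omega)) h4
      (T.kill hY (by omega))
      (T.z3 (j := m + h - (t + 1)) (by omega) (by omega) (by omega) (by omega))
      (T.z3 (j := m + h - (t + 1)) (by omega) (by omega) (by omega) (by omega))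
      (T.z3 (j := m + h - (t + 1)) (by omega) (by omega) (by omega) (by omega))
      (T.z3 (j := m + h - (t + 1)) (by omega) (by omega) (by omega) (by omega))

theorem Tip.Y0 (T : Tip g gp h m) (hL : ¬ g 4 (2 * m + 2 * h + 1) (2 * m + 2 * h)) {j : ℕ}
    (h1 : m + 1 ≤ j) (h2 : j ≤ m + h) : ¬ g 4 (2 * m + 2 * h + 1) (2 * j) := by
  have h3 := T.col0Y hL (m + h - j) (by omega)
  have e : m + h - (m + h - j) = j := by omega
  rwa [e] at h3

theorem Tip.X0 (T : Tip g gp h m) (hL : ¬ g 4 (2 * m + 2 * h + 1) (2 * m + 2 * h)) {j : ℕ}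
    (h1 : m + 1 ≤ j) (h2 : j + 1 ≤ m + h) : ¬ g 4 (2 * m + 2 * h) (2 * j + 1) := by
  have h3 := T.hh
  intro hX
  have c1 := T.C1 (j := j + 1) (by omega) (by omega)
  refine T.hole (k := 4) (x := 2 * m + 2 * h + 2) (y := 2 * (j + 1)) (k1 := 3)
    (x1 := 2 * m + 2 * h + 1) (y1 := 2 * j + 1)
    ⟨by omega, by omega, by omega⟩ ⟨by omega, by omega, by omega⟩
    ⟨by omega, by omega, by omega, by omega, by omega⟩
    (fun h' => T.kill h' (by omega) c1) (T.Y0 hL (j := j + 1) (by omega) (by omega))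
    (T.kill hX (by omega))
    (T.z3 (j := j) (by omega) (by omega) (by omega) (by omega))
    (T.z3 (j := j) (by omega) (by omega) (by omega) (by omega))
    (T.z3 (j := j) (by omega) (by omega) (by omega) (by omega))
    (T.z3 (j := j) (by omega) (by omega) (by omega) (by omega))

theorem Tip.O0 (T : Tip g gp h m) (hL : ¬ g 4 (2 * m + 2 * h + 1) (2 * m + 2 * h)) {j : ℕ}
    (h1 : m + 1 ≤ j) (h2 : j + 1 ≤ m + h) : g 4 (2 * m + 2 * h + 1) (2 * j + 1) := by
  have h3 := T.hh
  have h4 := T.hm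
  refine T.rule (k1 := 3) (x1 := 2 * m + 2 * h) (y1 := 2 * j)
    ⟨by omega, by omega, by omega⟩ ⟨by omega, by omega, by omega, by omega, by omega⟩
    (T.Y0 hL (by omega) (by omega)) (T.X0 hL (by omega) (by omega)) (T.ev (by omega))
    (T.z3 (j := j) (by omega) (by omega) (by omega) (by omega))
    (T.z3 (j := j - 1) (by omega) (by omega) (by omega) (by omega))
    (T.z3 (j := j) (by omega) (by omega) (by omega) (by omega))
    (T.z3 (j := j - 1) (by omega) (by omega) (by omega) (by omega))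

/-! The edge. -/

theorem Tip.Xe (T : Tip g gp h m) : ¬ g 4 (2 * m + 2 * h) (2 * m + 1) := by
  rcases T.edge3 with h1 | h1
  · exact T.kill h1 (by omega)
  · exact T.kill h1 (by omega)

theorem Tip.Oe (T : Tip g gp h m) (hL : ¬ g 4 (2 * m + 2 * h + 1) (2 * m + 2 * h)) :
    g 4 (2 * m + 2 * h + 1) (2 * m + 1) := by
  have h3 := T.hh
  have h4 := T.hm
  by_contra hcon
  have h5 := T.Y0 hL (j := m + 1) (by omega) (by omega)
  apply h5
  refine T.rule (k1 := 3) (x1 := 2 * m + 2 * h) (y1 := 2 * m + 1)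
    ⟨by omega, by omega, by omega⟩ ⟨by omega, by omega, by omega, by omega, by omega⟩
    hcon (T.ev (by omega)) T.Xe
    (T.z3 (j := m) (by omega) (by omega) (by omega) (by omega))
    (T.z3 (j := m) (by omega) (by omega) (by omega) (by omega))
    (T.z3 (j := m) (by omega) (by omega) (by omega) (by omega))
    (T.z3 (j := m) (by omega) (by omega) (by omega) (by omega))

theorem Tip.Ye3 (T : Tip g gp h m) (hL : ¬ g 4 (2 * m + 2 * h + 1) (2 * m + 2 * h)) :
    g 3 (2 * m + 2 * h - 1) (2 * m) := by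
  rcases T.edge3 with h1 | h1
  · exact absurd (T.Oe hL) (T.kill h1 (by omega))
  · exact h1

/-- The column `n - 1` of row `4` is present. -/
theorem Tip.colm (T : Tip g gp h m) (hL : ¬ g 4 (2 * m + 2 * h + 1) (2 * m + 2 * h)) :
    ∀ t : ℕ, t + 2 ≤ h → g 4 (2 * m + 2 * h - 1) (2 * (m + 1 + t)) := by
  have h2 := T.hh
  have h3 := T.hm
  intro t
  induction t with
  | zero =>
    intro _
    have e := T.Ye3 hL
    by_contra hcon
    refine T.hole (k := 4) (x := 2 * m + 2 * h) (y := 2 * (m + 1 + 0)) (k1 := 3)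
      (x1 := 2 * m + 2 * h - 1) (y1 := 2 * m + 1)
      ⟨by omega, by omega, by omega⟩ ⟨by omega, by omega, by omega⟩
      ⟨by omega, by omega, by omega, by omega, by omega⟩ T.Xe hcon
      (T.kill e (by omega))
      (T.z3 (j := m) (by omega) (by omega) (by omega) (by omega))
      (T.z3 (j := m) (by omega) (by omega) (by omega) (by omega))
      (T.z3 (j := m) (by omega) (by omega) (by omega) (by omega))
      (T.z3 (j := m) (by omega) (by omega) (by omega) (by omega))
  | succ t ih =>
    intro ht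
    have h4 := ih (by omega)
    by_contra hcon
    refine T.hole (k := 4) (x := 2 * m + 2 * h) (y := 2 * (m + 1 + (t + 1))) (k1 := 3)
      (x1 := 2 * m + 2 * h - 1) (y1 := 2 * (m + 1 + t) + 1)
      ⟨by omega, by omega, by omega⟩ ⟨by omega, by omega, by omega⟩
      ⟨by omega, by omega, by omega, by omega, by omega⟩ (T.kill h4 (by omega)) hcon
      (T.kill h4 (by omega))
      (T.z3 (j := m + 1 + t) (by omega) (by omega) (by omega) (by omega))
      (T.z3 (j := m + 1 + t) (by omega) (by omega) (by omega) (by omega))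
      (T.z3 (j := m + 1 + t) (by omega) (by omega) (by omega) (by omega))
      (T.z3 (j := m + 1 + t) (by omega) (by omega) (by omega) (by omega))

/-- The cell `w`. -/
theorem Tip.w5 (T : Tip g gp h m) (hL : ¬ g 4 (2 * m + 2 * h + 1) (2 * m + 2 * h)) :
    g 5 (2 * m + 2 * h + 3) (2 * m + 2) := by
  have h3 := T.hh
  have h4 := T.hm
  have e := T.Oe hL
  refine T.rule (k1 := 4) (x1 := 2 * m + 2 * h + 2) (y1 := 2 * m + 1)
    ⟨by omega, by omega, by omega⟩ ⟨by omega, by omega, by omega, by omega, by omega⟩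
    (T.kill T.Y4b (by omega)) (T.kill e (by omega)) (T.kill e (by omega)) T.Y4a T.O4a
    (T.ev (by omega)) (T.kill e (by omega))

/-- The first cell of the beam. -/
theorem Tip.beam0 (T : Tip g gp h m) (hL : ¬ g 4 (2 * m + 2 * h + 1) (2 * m + 2 * h)) :
    g 6 (2 * m + 2 * h + 3) (2 * m + 4) := by
  have h3 := T.hh
  have h4 := T.hm
  have w := T.w5 hL
  have o := T.O0 hL (j := m + 1) (by omega) (by omega)
  have c2 := T.C1 (j := m + 2) (by omega) (by omega)
  by_contra hcon
  have hX : g 6 (2 * m + 2 * h + 2) (2 * m + 3) := by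
    by_contra hX
    apply hcon
    refine T.rule (k1 := 5) (x1 := 2 * m + 2 * h + 2) (y1 := 2 * m + 3)
      ⟨by omega, by omega, by omega⟩ ⟨by omega, by omega, by omega, by omega, by omega⟩
      (T.kill w (by omega)) (T.ev (by omega)) hX (T.kill c2 (by omega)) (T.kill w (by omega))
      (T.kill o (by omega)) (T.kill o (by omega))
  refine T.pp (k := 6) (x := 2 * m + 2 * h + 4) (y := 2 * m + 4)
    ⟨by omega, by omega, by omega, by omega, by omega⟩ ?_
  refine T.up (k1 := 5) (x1 := 2 * m + 2 * h + 3) (y1 := 2 * m + 3)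
    ⟨by omega, by omega, by omega⟩ (T.ev (by omega)) (T.kill w (by omega)) hcon
    (T.kill w (by omega)) (T.kill c2 (by omega)) (T.kill w (by omega)) (T.kill c2 (by omega))
    (T.kill w (by omega)) (T.dom w (by omega)) (T.dom hX (by omega)) (T.dom hX (by omega))
    ?_ ?_ ?_ ?_ <;>
  exact T.pp ⟨by omega, by omega, by omega, by omega, by omega⟩

theorem Tip.beam (T : Tip g gp h m) (hL : ¬ g 4 (2 * m + 2 * h + 1) (2 * m + 2 * h)) :
    ∀ t : ℕ, t + 1 ≤ h → g 6 (2 * m + 2 * h + 3) (2 * (m + 2 + t)) := by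
  have h2 := T.hh
  have h3 := T.hm
  intro t
  induction t with
  | zero =>
    intro _
    exact T.beam0 hL
  | succ t ih =>
    intro ht
    have h4 := ih (by omega)
    have c1 := T.C1 (j := m + 2 + t) (by omega) (by omega)
    have c2 := T.C1 (j := m + 2 + (t + 1)) (by omega) (by omega)
    by_contra hcon
    exact T.hole (k := 6) (x := 2 * m + 2 * h + 4) (y := 2 * (m + 2 + (t + 1))) (k1 := 5)
      (x1 := 2 * m + 2 * h + 3) (y1 := 2 * (m + 2 + t) + 1)
      ⟨by omega, by omega, by omega⟩ ⟨by omega, by omega, by omega⟩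
      ⟨by omega, by omega, by omega, by omega, by omega⟩ (T.kill h4 (by omega)) hcon
      (T.kill h4 (by omega)) (T.kill c2 (by omega)) (T.kill c1 (by omega))
      (T.kill c2 (by omega)) (T.kill c1 (by omega))

/-- **The hole at an isolated tip, leader in an IN row.** -/
theorem Tip.main (T : Tip g gp h m) : g 4 (2 * m + 2 * h + 1) (2 * m + 2 * h) := by
  have h2 := T.hh
  have h3 := T.hm
  by_contra hL
  have hb := T.beam hL (h - 1) (by omega)
  have o1 := T.O0 hL (j := m + h - 1) (by omega) (by omega)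
  have x1 := T.X0 hL (j := m + h - 1) (by omega) (by omega)
  have d3 := T.D3 (j := m + h) (by omega)
  have y1 : g 4 (2 * m + 2 * h - 1) (2 * m + 2 * h - 2) := by
    have := T.colm hL (h - 2) (by omega)
    have e : 2 * (m + 1 + (h - 2)) = 2 * m + 2 * h - 2 := by omega
    rwa [e] at this
  have hx : ¬ g 5 (2 * m + 2 * h + 2) (2 * m + 2 * h + 1) :=
    fun h' => T.kill h' (by omega) hb
  have ho : g 5 (2 * m + 2 * h + 1) (2 * m + 2 * h + 1) := by
    by_contra ho
    apply hx
    refine T.rule (k1 := 4) (x1 := 2 * m + 2 * h + 1) (y1 := 2 * m + 2 * h)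
      ⟨by omega, by omega, by omega⟩ ⟨by omega, by omega, by omega, by omega, by omega⟩
      (T.kill o1 (by omega)) ho (T.kill o1 (by omega)) (T.kill d3 (by omega))
      (T.ev (by omega)) (T.kill d3 (by omega)) hL
  have he : ¬ g 5 (2 * m + 2 * h) (2 * m + 2 * h) := fun h' => T.kill h' (by omega) ho
  apply he
  have x2 : ¬ g 4 (2 * m + 2 * h) (2 * m + 2 * h - 1) := by
    have e : 2 * (m + h - 1) + 1 = 2 * m + 2 * h - 1 := by omega
    rwa [e] at x1
  have y2 : ¬ g 5 (2 * m + 2 * h) (2 * m + 2 * h - 1) := T.kill y1 (by omega)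
  refine T.rule (k1 := 4) (x1 := 2 * m + 2 * h - 1) (y1 := 2 * m + 2 * h - 1)
    ⟨by omega, by omega, by omega⟩ ⟨by omega, by omega, by omega, by omega, by omega⟩
    y2 (fun h' => y2 (T.sym h')) (T.kill y1 (by omega)) (T.ev (by omega)) x2
    (fun h' => x2 (T.sym h')) (T.kill y1 (by omega))

end Pool.Agent.SNT.Hole
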