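import Pool.Agent.SNT.HoleC

set_option autoImplicit false

/-! The hole in front of an isolated tip, leader in an OUT row (one forward step to the IN row). -/

namespace Pool.Agent.SNT.Hole

variable {g gp : ℕ → ℕ → ℕ → Prop} {h m : ℕ}

/-- **The hole at an isolated tip, leader in an OUT row.** -/
theorem Tip.main2 (T : Tip g gp h m) : g 2 (2 * m + 2 * h - 2) (2 * m - 1) := by
  have h2 := T.hh
  have h3 := T.hm
  by_contra hL
  have s1 : ¬ g 1 (2 * m + 2 * h - 2) (2 * m - 2) := by
    refine T.st0 ⟨by omega, by omega, by omega, by omega⟩ ?_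
    unfold Fx; omega
  have s2 : ¬ g 1 (2 * m + 2 * h - 2) (2 * m - 1) := by
    refine T.st0 ⟨by omega, by omega, by omega, by omega⟩ ?_
    unfold Fx; omega
  have s3 : ¬ g 1 (2 * m + 2 * h - 3) (2 * m - 2) := by
    refine T.st0 ⟨by omega, by omega, by omega, by omega⟩ ?_
    unfold Fx; omega
  have s4 : ¬ g 1 (2 * m + 2 * h - 3) (2 * m - 1) := by
    refine T.st0 ⟨by omega, by omega, by omega, by omega⟩ ?_
    unfold Fx; omega
  have s5 : ¬ g 1 (2 * m + 2 * h - 2) (2 * m) := by
    refine T.st0 ⟨by omega, by omega, by omega, by omega⟩ ?_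
    unfold Fx; omega
  have s6 : ¬ g 1 (2 * m + 2 * h - 3) (2 * m) := by
    refine T.st0 ⟨by omega, by omega, by omega, by omega⟩ ?_
    unfold Fx; omega
  have lm : g 2 (2 * m + 2 * h - 2) (2 * m + 1) := by
    have := T.X2 (i := m + h - 1) (j := m) (by omega) (by omega) (by omega)
    have e : 2 * (m + h - 1) = 2 * m + 2 * h - 2 := by omega
    rwa [e] at this
  -- the block before the missing cell is empty
  have y0 : ¬ g 2 (2 * m + 2 * h - 3) (2 * m - 2) := by
    intro hY
    refine T.hole (k := 2) (x := 2 * m + 2 * h - 2) (y := 2 * m) (k1 := 1)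
      (x1 := 2 * m + 2 * h - 3) (y1 := 2 * m - 1)
      ⟨by omega, by omega, by omega⟩ ⟨by omega, by omega, by omega⟩
      ⟨by omega, by omega, by omega, by omega, by omega⟩ hL (fun h' => T.kill h' (by omega) lm)
      (T.kill hY (by omega)) s5 s2 s6 s4
  have o0 : g 2 (2 * m + 2 * h - 3) (2 * m - 1) := by
    by_contra ho
    apply hL
    refine T.rule (k1 := 1) (x1 := 2 * m + 2 * h - 3) (y1 := 2 * m - 2)
      ⟨by omega, by omega, by omega⟩ ⟨by omega, by omega, by omega, by omega, by omega⟩
      (T.ev (by omega)) ho y0 s2 s1 s4 s3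
  have y3 : g 3 (2 * m + 2 * h - 1) (2 * m) := by
    refine T.rule (k1 := 2) (x1 := 2 * m + 2 * h - 2) (y1 := 2 * m - 1)
      ⟨by omega, by omega, by omega⟩ ⟨by omega, by omega, by omega, by omega, by omega⟩
      (T.kill T.Ya2 (by omega)) (T.kill o0 (by omega)) (T.kill o0 (by omega)) ?_
      (T.kill T.Ya2 (by omega)) (T.ev (by omega)) hL
    refine T.st0 ⟨by omega, by omega, by omega, by omega⟩ ?_
    unfold Fx; omega
  have o4 : g 4 (2 * m + 2 * h + 1) (2 * m + 1) := by
    refine T.rule (k1 := 3) (x1 := 2 * m + 2 * h) (y1 := 2 * m)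
      ⟨by omega, by omega, by omega⟩ ⟨by omega, by omega, by omega, by omega, by omega⟩
      (T.kill T.O3b (by omega)) (T.kill y3 (by omega)) (T.ev (by omega))
      (T.z3 (j := m) (by omega) (by omega) (by omega) (by omega))
      (T.kill T.O3b (by omega))
      (T.z3 (j := m) (by omega) (by omega) (by omega) (by omega)) (T.kill y3 (by omega))
  have col : ∀ t : ℕ, t + 1 ≤ h → ¬ g 4 (2 * m + 2 * h + 1) (2 * (m + 1 + t)) := by
    intro t
    induction t with
    | zero =>
      intro _
      exact T.kill o4 (by omega)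
    | succ t ih =>
      intro ht hY
      have h4 := ih (by omega)
      refine T.kill (k := 4) (x := 2 * m + 2 * h + 1) (y := 2 * (m + 1 + t) + 1) ?_
        (by omega) hY
      refine T.rule (k1 := 3) (x1 := 2 * m + 2 * h) (y1 := 2 * (m + 1 + t))
        ⟨by omega, by omega, by omega⟩ ⟨by omega, by omega, by omega, by omega, by omega⟩
        h4 (fun h' => T.kill h' (by omega) hY) (T.ev (by omega))
        (T.z3 (j := m + 1 + t) (by omega) (by omega) (by omega) (by omega))
        (T.z3 (j := m + t) (by omega) (by omega) (by omega) (by omega))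
        (T.z3 (j := m + 1 + t) (by omega) (by omega) (by omega) (by omega))
        (T.z3 (j := m + t) (by omega) (by omega) (by omega) (by omega))
  have hc := col (h - 1) (by omega)
  have e : 2 * (m + 1 + (h - 1)) = 2 * m + 2 * h := by omega
  rw [e] at hc
  exact hc T.main

end Pool.Agent.SNT.Hole
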