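import Pool.Agent.SNT.Core
import Pool.Agent.SNT.Fst
import Pool.Agent.SNT.HoleD

set_option autoImplicit false

/-! The hole in front of an isolated tip: the four counter rule. -/

namespace Pool.Agent.SNT

variable {f : ℕ → ℕ → ℕ → ℕ → Prop}

namespace Hole

/-- The static field near the strip of an even layer, below the diagonal. -/
theorem fst_iff_Fx {a c k x y : ℕ} (ha : a % 2 = 0) (hc : c % 2 = 0) (hac : (a + c) % 4 = 2)
    (h12 : 12 ≤ a) (hb : a + 20 ≤ c) (hyx : y ≤ x) (hd : x ≤ y + 2 * (a / 6) + 8) :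
    Fst a (c + k) x y ↔ Fx (a / 6) k x y := by
  unfold Fst
  have e1 : min a (c + k) = a := by omega
  have e2 : max a (c + k) = c + k := by omega
  have e3 : max x y = x := by omega
  have e4 : min x y = y := by omega
  rw [e1, e2, e3, e4]
  constructor
  · intro hF
    rcases hF with h1 | h2 | h3 | h4
    · exfalso
      unfold FF1 at h1
      rcases h1 with h1 | h1 | h1 | h1 | h1 | h1 <;> omega
    · exfalso
      unfold FF2 FU at h2
      obtain ⟨q1, q2, q3, q4⟩ := h2
      rcases q3 with q3 | q3 | q3 | q3 | q3 | q3 <;> omega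
    · unfold FF3 at h3
      unfold Fx
      rcases h3 with h3 | h3 | h3 | h3
      · left
        obtain ⟨r1, r2, r3, r4, r5, r6⟩ := h3
        refine ⟨by omega, by omega, by omega, by omega⟩
      · right; left
        obtain ⟨r1, r2, r3, r4, r5, r6, r7⟩ := h3
        refine ⟨by omega, by omega, by omega, by omega⟩
      · right; right; left
        obtain ⟨r1, r2, r3, r4, r5, r6⟩ := h3
        refine ⟨by omega, by omega, by omega, by omega⟩
      · right; right; right
        obtain ⟨r1, r2, r3, r4, r5, r6⟩ := h3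
        refine ⟨by omega, by omega, by omega⟩
    · exfalso
      unfold FF4 at h4
      rcases h4 with h4 | h4 | h4 | h4 <;> omega
  · intro hF
    right; right; left
    unfold Fx at hF
    unfold FF3
    rcases hF with h3 | h3 | h3 | h3
    · left
      obtain ⟨r1, r2, r3, r4⟩ := h3
      refine ⟨by omega, by omega, by omega, by omega, by omega, by omega⟩
    · right; left
      obtain ⟨r1, r2, r3, r4⟩ := h3
      refine ⟨by omega, by omega, by omega, by omega, by omega, ?_, by omega⟩
      unfold FT; omega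
    · right; right; left
      obtain ⟨r1, r2, r3, r4⟩ := h3
      refine ⟨by omega, by omega, by omega, by omega, ?_, by omega⟩
      unfold FT; omega
    · right; right; right
      obtain ⟨r1, r2, r3⟩ := h3
      refine ⟨by omega, by omega, by omega, by omega, by omega, by omega⟩

/-- The hypotheses on the record, in natural numbers: `h = a / 6 ≥ 2`, `b₀ = c + 4` the row of
the leader `(2 n + 1, 2 n)`, `n = m + h`, surface `4 n + 1 + (h + 2) (b - b₀)`. -/
structure RecN (f : ℕ → ℕ → ℕ → ℕ → Prop) (a c h m : ℕ) : Prop where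
  st : ∀ k x y : ℕ, k ≤ 6 → y ≤ x → x ≤ y + 2 * h + 8 →
      4 * m + 4 * h + 1 + (h + 2) * k < x + y + 4 * (h + 2) →
      (f a (c + k) x y ↔ Fst a (c + k) x y)
  pm : ∀ k x y : ℕ, k ≤ 6 → y ≤ x + 2 * h + 8 → x ≤ y + 2 * h + 8 →
      4 * m + (h + 2) * k ≤ x + y + 1 + 4 * (h + 2) → ¬ f (a - 1) (c + k) x y
  pp : ∀ k x y : ℕ, k ≤ 6 → y ≤ x → x ≤ y + 2 * h + 8 →
      4 * m + 4 + (h + 2) * k ≤ x + y + 4 * (h + 2) → ¬ f (a + 1) (c + k) x y

theorem tip_of_recN (hf : Rule f) {a c h m : ℕ} (ha : a % 2 = 0) (hh : h = a / 6) (h2 : 2 ≤ h)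
    (hm : 4 ≤ m) (hc : c % 2 = 0) (hac : (a + c) % 4 = 2) (hb : a + 20 ≤ c)
    (R : RecN f a c h m) : Tip (fun k x y => f a (c + k) x y) (fun k x y => f (a + 1) (c + k) x y)
      h m where
  hh := h2
  hm := hm
  kill := by
    intro k x y k' x' y' hg hn hg'
    have h1 := hf.up hg (p := 0) (q := k' - k) (r := x' - x) (s := y' - y) (by omega) (by omega)
      (by omega) (by omega) (by omega)
    have e1 : c + k + (k' - k) = c + k' := by omega
    have e2 : x + (x' - x) = x' := by omega
    have e3 : y + (y' - y) = y' := by omega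
    rw [e1, e2, e3] at h1
    exact h1 hg'
  ev := by
    intro k x y he hg
    exact hf.not_allEven hg ⟨ha, by omega, he.2.1, he.2.2⟩
  sym := by
    intro k x y hg
    exact (hf.swap_xy _ _ _ _).1 hg
  rule := by
    intro k x y k1 x1 y1 e hz g1 g2 g3 g4 g5 g6 g7
    obtain ⟨rfl, rfl, rfl⟩ := e
    obtain ⟨z1, z2, z3, z4, z5⟩ := hz
    have hk : (h + 2) * (k1 + 1) = (h + 2) * k1 + (h + 2) := by ring
    have P : ∀ q r s : ℕ, q ≤ 1 → r ≤ 1 → s ≤ 1 →
        ¬ f (a - 1) (c + (k1 + 1 - q)) (x1 + 1 - r) (y1 + 1 - s) := by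
      intro q r s hq hr hs
      have hq2 : q = 0 ∨ q = 1 := by omega
      rcases hq2 with rfl | rfl
      · have e0 : k1 + 1 - 0 = k1 + 1 := by omega
        rw [e0]
        exact R.pm _ _ _ (by omega) (by omega) (by omega) (by omega)
      · have e0 : k1 + 1 - 1 = k1 := by omega
        rw [e0]
        exact R.pm _ _ _ (by omega) (by omega) (by omega) (by omega)
    show f a (c + (k1 + 1)) (x1 + 1) (y1 + 1)
    rw [hf]
    refine ⟨by omega, ?_⟩
    intro p q r s hp hq hr hs hsum hpa hqb hrx hsy
    have ep : p = 0 ∨ p = 1 := by omega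
    rcases ep with rfl | rfl
    · have e0 : a - 0 = a := by omega
      rw [e0]
      have eq : q = 0 ∨ q = 1 := by omega
      have er : r = 0 ∨ r = 1 := by omega
      have es : s = 0 ∨ s = 1 := by omega
      rcases eq with rfl | rfl <;> rcases er with rfl | rfl <;> rcases es with rfl | rfl
      · exact absurd hsum (by omega)
      · exact g1
      · exact g2
      · exact g3
      · exact g4
      · exact g5
      · exact g6
      · exact g7
    · have e0 : c + (k1 + 1) - q = c + (k1 + 1 - q) := by omega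
      rw [e0]
      exact P q r s hq hr hs
  st := by
    intro k x y hz
    obtain ⟨z1, z2, z3, z4⟩ := hz
    subst hh
    rw [← fst_iff_Fx ha hc hac (by omega) hb (by omega) z3]
    exact R.st k x y z1 (by omega) z3 z4
  up := by
    intro k x y k1 x1 y1 e g0 g1 g2 g3 g4 g5 g6 g7 p1 p2 p3 p4 p5 p6 p7
    obtain ⟨rfl, rfl, rfl⟩ := e
    show f (a + 1) (c + (k1 + 1)) (x1 + 1) (y1 + 1)
    rw [hf]
    refine ⟨by omega, ?_⟩
    intro p q r s hp hq hr hs hsum hpa hqb hrx hsy
    have ep : p = 0 ∨ p = 1 := by omega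
    have eq : q = 0 ∨ q = 1 := by omega
    have er : r = 0 ∨ r = 1 := by omega
    have es : s = 0 ∨ s = 1 := by omega
    rcases ep with rfl | rfl <;> rcases eq with rfl | rfl <;> rcases er with rfl | rfl <;>
      rcases es with rfl | rfl
    · exact absurd hsum (by omega)
    · exact p1
    · exact p2
    · exact p3
    · exact p4
    · exact p5
    · exact p6
    · exact p7
    · exact g0
    · exact g1
    · exact g2
    · exact g3
    · exact g4
    · exact g5
    · exact g6
    · exact g7
  dom := by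
    intro k x y k' x' y' hg hn hg'
    have h1 := hf.up hg (p := 1) (q := k' - k) (r := x' - x) (s := y' - y) (by omega) (by omega)
      (by omega) (by omega) (by omega)
    have e1 : c + k + (k' - k) = c + k' := by omega
    have e2 : x + (x' - x) = x' := by omega
    have e3 : y + (y' - y) = y' := by omega
    rw [e1, e2, e3] at h1
    exact h1 hg'
  pp := by
    intro k x y hz
    obtain ⟨z1, z2, z3, z4, z5⟩ := hz
    exact R.pp k x y (by omega) z3 (by omega) (by omega)

end Hole

/-- **L5, leader in an IN row.** -/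
theorem hole_in (hf : Rule f) {a c h m : ℕ} (ha : a % 2 = 0) (hh : h = a / 6) (h2 : 2 ≤ h)
    (hm : 4 ≤ m) (hc : c % 2 = 0) (hac : (a + c) % 4 = 2) (hb : a + 20 ≤ c)
    (R : Hole.RecN f a c h m) : f a (c + 4) (2 * m + 2 * h + 1) (2 * m + 2 * h) :=
  (Hole.tip_of_recN hf ha hh h2 hm hc hac hb R).main

/-- **L5, leader in an OUT row.** -/
theorem hole_out (hf : Rule f) {a c h m : ℕ} (ha : a % 2 = 0) (hh : h = a / 6) (h2 : 2 ≤ h)
    (hm : 4 ≤ m) (hc : c % 2 = 0) (hac : (a + c) % 4 = 2) (hb : a + 20 ≤ c)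
    (R : Hole.RecN f a c h m) : f a (c + 2) (2 * m + 2 * h - 2) (2 * m - 1) :=
  (Hole.tip_of_recN hf ha hh h2 hm hc hac hb R).main2

end Pool.Agent.SNT
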