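import Pool.Agent.SNT.PL

set_option autoImplicit false
set_option synthInstance.maxSize 100000
set_option synthInstance.maxHeartbeats 4000000

/-! The K0 pair `2 n - 5`, `2 n - 3` of `6 k`, row `c - 2` (leads `n - 7`, `n - 5`, `n + 1`). -/

namespace Pool.Agent.SNT.K0L0e

open Pool.Agent.SNT Pool.Agent.SNT.Sig Pool.Agent.SNT.Loc Pool.Agent.SNT.LW Pool.Agent.SNT.NHZ Pool.Agent.SNT.DRun
open Pool.Agent.SNT.PB Pool.Agent.SNT.D1E

variable {f : ℕ → ℕ → ℕ → ℕ → Prop}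

theorem k0e_chk : check 9 6 10 17 0 0 1 0 0
    (fun j n p q => decide ((j = 2 ∧ n = 1 ∧ q ≤ p + 7 ∧ p + 1 ≤ q ∧ ((p + q + 1) % 2 = 0 ∧ q ≤ p + 1 ∧ (p + q + 3) % 4 = 0))
      ∨ (j = 2 ∧ n = 2 ∧ q ≤ p + 1 ∧ (((p + q + 1) % 2 = 1 ∧ p + 2 ≤ q ∧ p % 2 = 1) ∨ ((p + q + 1) % 2 = 1 ∧ q ≤ p + 2 ∧ (p + q + 0) % 4 = 0)))
      ∨ (j = 4 ∧ n = 2 ∧ q ≤ p + 7 ∧ (((p + q + 1) % 2 = 1 ∧ p + 2 ≤ q ∧ p % 2 = 0) ∨ ((p + q + 1) % 2 = 1 ∧ q ≤ p + 2 ∧ (p + q + 2) % 4 = 0)))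
      ∨ (j = 4 ∧ n = 3 ∧ q ≤ p + 7 ∧ p + 1 ≤ q ∧ ((p + q + 1) % 2 = 0 ∧ q ≤ p + 1 ∧ (p + q + 3) % 4 = 0))
      ∨ (j = 4 ∧ n = 4 ∧ 4 ≤ p ∧ q ≤ p + 1 ∧ (((p + q + 1) % 2 = 1 ∧ p + 2 ≤ q ∧ p % 2 = 1) ∨ ((p + q + 1) % 2 = 1 ∧ q ≤ p + 2 ∧ (p + q + 0) % 4 = 0)))
      ∨ (j = 6 ∧ n = 1 ∧ q ≤ p + 7 ∧ p + 1 ≤ q ∧ ((p + q + 1) % 2 = 0 ∧ q ≤ p + 1 ∧ (p + q + 3) % 4 = 0))
      ∨ (j = 6 ∧ n = 2 ∧ q ≤ p + 1 ∧ (((p + q + 1) % 2 = 1 ∧ p + 2 ≤ q ∧ p % 2 = 1) ∨ ((p + q + 1) % 2 = 1 ∧ q ≤ p + 2 ∧ (p + q + 0) % 4 = 0)))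
      ∨ (j = 8 ∧ n = 2 ∧ 2 ≤ p ∧ q ≤ p + 7 ∧ (((p + q + 1) % 2 = 1 ∧ p + 0 ≤ q ∧ p % 2 = 0) ∨ ((p + q + 1) % 2 = 1 ∧ q ≤ p + 0 ∧ (p + q + 2) % 4 = 2)))))
    (fun j n p q => decide ((j = 2 ∧ n = 1 ∧ q ≤ p + 7 ∧ p + 1 ≤ q ∧ ¬ ((p + q + 1) % 2 = 0 ∧ q ≤ p + 1 ∧ (p + q + 3) % 4 = 0))
      ∨ (j = 2 ∧ n = 2 ∧ q ≤ p + 1 ∧ ¬ (((p + q + 1) % 2 = 1 ∧ p + 2 ≤ q ∧ p % 2 = 1) ∨ ((p + q + 1) % 2 = 1 ∧ q ≤ p + 2 ∧ (p + q + 0) % 4 = 0)))
      ∨ (j = 4 ∧ n = 2 ∧ q ≤ p + 7 ∧ ¬ (((p + q + 1) % 2 = 1 ∧ p + 2 ≤ q ∧ p % 2 = 0) ∨ ((p + q + 1) % 2 = 1 ∧ q ≤ p + 2 ∧ (p + q + 2) % 4 = 0)))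
      ∨ (j = 4 ∧ n = 3 ∧ q ≤ p + 7 ∧ p + 1 ≤ q ∧ ¬ ((p + q + 1) % 2 = 0 ∧ q ≤ p + 1 ∧ (p + q + 3) % 4 = 0))
      ∨ (j = 6 ∧ n = 1 ∧ q ≤ p + 7 ∧ p + 1 ≤ q ∧ ¬ ((p + q + 1) % 2 = 0 ∧ q ≤ p + 1 ∧ (p + q + 3) % 4 = 0))
      ∨ (j = 6 ∧ n = 2 ∧ q ≤ p + 1 ∧ ¬ (((p + q + 1) % 2 = 1 ∧ p + 2 ≤ q ∧ p % 2 = 1) ∨ ((p + q + 1) % 2 = 1 ∧ q ≤ p + 2 ∧ (p + q + 0) % 4 = 0)))
      ∨ (j = 8 ∧ n = 3 ∧ q ≤ p + 7 ∧ p ≤ q + 1 ∧ ¬ ((p + q + 1) % 2 = 0 ∧ q + 1 ≤ p ∧ (p + q + 3) % 4 = 2))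
      ∨ (j = 1 ∧ n = 4 ∧ q ≤ p + 7 ∧ p + 0 ≤ q)
      ∨ (j = 1 ∧ n = 3 ∧ q ≤ p + 7 ∧ p + 0 ≤ q)
      ∨ (j = 1 ∧ n = 2 ∧ q ≤ p + 7 ∧ p + 0 ≤ q)
      ∨ (j = 1 ∧ n = 1 ∧ q ≤ p + 7 ∧ p + 0 ≤ q)
      ∨ (j = 3 ∧ n = 2 ∧ q ≤ p + 7 ∧ p + 5 ≤ q)
      ∨ (j = 7 ∧ n = 2 ∧ q ≤ p + 7 ∧ p + 3 ≤ q)
      ∨ (j = 3 ∧ n = 4 ∧ 3 ≤ p ∧ q ≤ p + 7 ∧ p + 6 ≤ q)
      ∨ (j = 5 ∧ n = 4 ∧ 3 ≤ p ∧ q ≤ p + 7 ∧ p + 5 ≤ q)
      ∨ (j = 7 ∧ n = 4 ∧ 3 ≤ p ∧ q ≤ p + 7 ∧ p + 4 ≤ q)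
      ∨ (j = 9 ∧ n = 4 ∧ 3 ≤ p ∧ q ≤ p + 7 ∧ p + 3 ≤ q)
      ∨ (j = 2 ∧ n = 3 ∧ q ≤ p + 7 ∧ p + 6 ≤ q)
      ∨ (j = 3 ∧ n = 3 ∧ q ≤ p + 7 ∧ p + 6 ≤ q)
      ∨ (j = 3 ∧ n = 1 ∧ q ≤ p + 7 ∧ p + 5 ≤ q)
      ∨ (j = 5 ∧ n = 3 ∧ q ≤ p + 7 ∧ p + 5 ≤ q)
      ∨ (j = 6 ∧ n = 3 ∧ q ≤ p + 7 ∧ p + 4 ≤ q)
      ∨ (j = 7 ∧ n = 3 ∧ q ≤ p + 7 ∧ p + 4 ≤ q)
      ∨ (j = 7 ∧ n = 1 ∧ q ≤ p + 7 ∧ p + 3 ≤ q)
      ∨ (j = 9 ∧ n = 3 ∧ q ≤ p + 7 ∧ p + 3 ≤ q)
      ∨ (j = 7 ∧ n = 4 ∧ 5 ≤ p ∧ q ≤ p + 7 ∧ p + 2 ≤ q)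
      ∨ (j = 7 ∧ n = 3 ∧ 5 ≤ p ∧ q ≤ p + 7 ∧ p + 2 ≤ q)
      ∨ (j = 9 ∧ n = 4 ∧ 5 ≤ p ∧ q ≤ p + 7 ∧ p + 1 ≤ q)
      ∨ (j = 9 ∧ n = 3 ∧ 5 ≤ p ∧ q ≤ p + 7 ∧ p + 1 ≤ q)
      ∨ (j = 2 ∧ n = 4 ∧ p = 2 ∧ q = 8)
      ∨ (j = 2 ∧ n = 4 ∧ p = 4 ∧ q = 10)))
    499
    0xb6f830d6e000f74d20b6f830d6d800d6d840968030b66800b6684076a80076a810b7083076b80076b8105640005640404b100050e0004b99205169204c20005748005203a05750a057580077cda05288305290005290404ba83070d80070d840516830517000517040b8183077c80077c840565030762800762840ec1830d18800d18840d20830d76000d760404d403052980052984052883077c00077c04056403076200076204057603077400077404050e03070c00070c0405760307738007738404ba83050f80050f8404cb830521000521040565030763000763040ec1830f16800f168404b983050f00050f0404b983050e80050e840edc030d33000f86ea0b81800b81840eca030d21800d218404cc83071f80077dba0576000576040b78030b78800b788404d40307278007278404cb8304cc0004cc04050e03070c000968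7a0b66800b6f9a0b70000b700404c20307158007158404b983070c80070c8404cc8305218005218404cb8304cc0004d51a07288007288404cb83071f00071f0404c30307160007160404cb8304cc0004d51a052a80052a840f7e030b79000b79040edc030d33800d3384056303076100076104051683056c00056c041370830f6b800f6b8404cb830520800520840ed3830d2a800d2a8404cb83071e80071e8406c18307168007168406c18305188005188404c30305180005180404c2030517800517840d20830d21000d21040b78030b78800b819a0b82000b828a077d80077d84052883057e00057e04051683076a00076a0405638307618007618404d503052a00052a0404d50307280007280408688008c6ba10e30010d1000cc2000c7f800c6d80097000092d80091b8009098008da0008d90008cf0008c80008c70008b60004ca0004b800047580046380137087137007136807136787131b87131b07131307131287117287111d87111d0711150711148710e30f10d10f0f86870f86070f7e070f7d870f75870f75070f74870f74070f6c070f31870f31070f29070f28870f20870f20070f1f870f1f070f17070ed3870ecb070eca870ec1870eb9070eb8870e7e870e7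6070e75870e6c870e64070e63870d88870d77870d76870d2b070d22870d22070d19070cdd870ccc870ccb870ccb070cc2870cc20f0cba870c89070c88870c80870c80070c7f8f0c78070c77870c77070c76870c6e870c6e070c6d8f0c66070c65870b82870b7a070b79870b70870b68070b67870b2d870b25070b24870b1b870b13070b1287097b87097a8709798709700f096987096887096787092f87092f07092e87092e07092d8f092707092687092607092587092507092487091d87091d07091c87091c07091b8f091507091487091407091387091307091287090a87090a0709098f08da0f08d90f08cf0f08c80f08c70f08c68708c60708be0708bd8708b60f077507072007070e0706c18706b90706b887066c87066407066387057f87057e87057707056d87056c87056507055c87055b87055a8705220705100705078705070704d48704d38704d30704ca8704ca0f04c38704c28704c18704c10704b88704b80f04b18704b087048007047f87047f07047e8704778704770704768704760704758f046f07046e87046e07046d87046d07046c8704660704658704650704648704640704638f045d07045c87045c07045b87037807037787037707037687036f8703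6f07036e87036e07036707036687036607036587036507036487035e87035e07035d87035d07035c87035c07032a87032a07032307032287032207032187031a87031a07031987031907031887031807031207031187031107031087031007030f8703098703090703088703080703078703070702d70702d68702d60702d58702d50702ce8702ce0702cd8702cd0702cc8702c60702c58702c50702c48702c40702c38702c30702bc8702bc0702bb8702bb0702ba8702b40702b38702b30702b28702b207028207028187028107028087027987027907027887027807027107027087027007026f87026f07026e87026787026707026687026607025f07025e87025e07025d87 = true := by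
  decide +kernel

/-- The third cells of the in-lines `2 n - 5`, `2 n - 3` of `6 k` are not both missing. -/
theorem k0e (hf : Rule f) {k c n M : ℕ} (H : PL f k c n M) (hM4 : M + 4 = n) (C2 : Cyc f (6 * k + 2) (c - 4) (2 * (n - 5) + 2)) :
    f (6 * k) (c - 2) (2 * n - 5) (2 * n - 2 * k) ∨ f (6 * k) (c - 2) (2 * n - 3) (2 * n + 2 - 2 * k) := by
  by_contra gg
  have g1 : ¬ f (6 * k) (c - 2) (2 * n - 5) (2 * n - 2 * k) := fun h => gg (Or.inl h)
  have g2 : ¬ f (6 * k) (c - 2) (2 * n - 3) (2 * n + 2 - 2 * k) := fun h => gg (Or.inr h)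
  clear gg
  have hk := H.T.hk
  have hc := H.T.hc
  have h4' := H.T.h4
  have hb := H.T.hb
  have hN := H.T.hN2
  obtain ⟨a0, ha0⟩ : ∃ z, z + 2 = 6 * k := ⟨6 * k - (2), by omega⟩
  obtain ⟨b0, hb0⟩ : ∃ z, z + 6 = c := ⟨c - (6), by omega⟩
  obtain ⟨x0, hx0⟩ : ∃ z, z + 7 = 2 * n := ⟨2 * n - (7), by omega⟩
  obtain ⟨y0, hy0⟩ : ∃ z, z + 2 * k + 8 = 2 * n := ⟨2 * n - (2 * k + 8), by omega⟩
  refine check_sound hf (a0 := a0) (b0 := b0) (x0 := x0) (y0 := y0) k0e_chk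
    ⟨fun h => absurd h (by decide), fun h => absurd h (by decide), fun h => absurd h (by decide), by omega, by omega,
      by omega, by omega⟩ ?_ ?_
  · intro j m p q hr h
    obtain ⟨-, -, -, -, hp1, hp2, hq1, hq2⟩ := hr
    replace h := of_decide_eq_true h
    rcases h with h | h | h | h | h | h | h | h
    · obtain ⟨rfl, rfl, h⟩ := h
      exact (WrapC.v1 H.c0 (by omega) (by omega) (by omega) (by omega) (by omega) (by omega) (by omega) (by omega)).mpr (by omega)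
    · obtain ⟨rfl, rfl, h⟩ := h
      exact (WrapC.v2 H.c0 (by omega) (by omega) (by omega) (by omega) (by omega) (by omega) (by omega)).mpr (by omega)
    · obtain ⟨rfl, rfl, h⟩ := h
      exact (WrapC.v0 C2 (by omega) (by omega) (by omega) (by omega) (by omega) (by omega) (by omega)).mpr (by omega)
    · obtain ⟨rfl, rfl, h⟩ := h
      exact (WrapC.v1 C2 (by omega) (by omega) (by omega) (by omega) (by omega) (by omega) (by omega) (by omega)).mpr (by omega)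
    · obtain ⟨rfl, rfl, h⟩ := h
      exact (WrapC.v2 C2 (by omega) (by omega) (by omega) (by omega) (by omega) (by omega) (by omega)).mpr (by omega)
    · obtain ⟨rfl, rfl, h⟩ := h
      exact (WrapC.v1 H.c4a (by omega) (by omega) (by omega) (by omega) (by omega) (by omega) (by omega) (by omega)).mpr (by omega)
    · obtain ⟨rfl, rfl, h⟩ := h
      exact (WrapC.v2 H.c4a (by omega) (by omega) (by omega) (by omega) (by omega) (by omega) (by omega)).mpr (by omega)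
    · obtain ⟨rfl, rfl, h⟩ := h
      exact (WrapC.v4 H.c6a (by omega) (by omega) (by omega) (by omega) (by omega) (by omega) (by omega)).mpr (by omega)
  · intro j m p q hr h
    obtain ⟨-, -, -, -, hp1, hp2, hq1, hq2⟩ := hr
    replace h := of_decide_eq_true h
    rcases h with h | h | h | h | h | h | h | h | h | h | h | h | h | h | h | h | h | h | h | h | h | h | h | h | h | h | h | h | h | h | h
    · obtain ⟨rfl, rfl, h⟩ := h
      exact mt (WrapC.v1 H.c0 (by omega) (by omega) (by omega) (by omega) (by omega) (by omega) (by omega) (by omega)).mp (by omega)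
    · obtain ⟨rfl, rfl, h⟩ := h
      exact mt (WrapC.v2 H.c0 (by omega) (by omega) (by omega) (by omega) (by omega) (by omega) (by omega)).mp (by omega)
    · obtain ⟨rfl, rfl, h⟩ := h
      exact mt (WrapC.v0 C2 (by omega) (by omega) (by omega) (by omega) (by omega) (by omega) (by omega)).mp (by omega)
    · obtain ⟨rfl, rfl, h⟩ := h
      exact mt (WrapC.v1 C2 (by omega) (by omega) (by omega) (by omega) (by omega) (by omega) (by omega) (by omega)).mp (by omega)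
    · obtain ⟨rfl, rfl, h⟩ := h
      exact mt (WrapC.v1 H.c4a (by omega) (by omega) (by omega) (by omega) (by omega) (by omega) (by omega) (by omega)).mp (by omega)
    · obtain ⟨rfl, rfl, h⟩ := h
      exact mt (WrapC.v2 H.c4a (by omega) (by omega) (by omega) (by omega) (by omega) (by omega) (by omega)).mp (by omega)
    · obtain ⟨rfl, rfl, h⟩ := h
      exact mt (WrapC.v1 H.c6 (by omega) (by omega) (by omega) (by omega) (by omega) (by omega) (by omega) (by omega)).mp (by omega)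
    · obtain ⟨rfl, rfl, h⟩ := h
      exact H.lw _ _ _ _ (by omega) (by omega) (by omega) (by omega) (by omega) (by omega)
    · obtain ⟨rfl, rfl, h⟩ := h
      exact H.lw _ _ _ _ (by omega) (by omega) (by omega) (by omega) (by omega) (by omega)
    · obtain ⟨rfl, rfl, h⟩ := h
      exact H.lw _ _ _ _ (by omega) (by omega) (by omega) (by omega) (by omega) (by omega)
    · obtain ⟨rfl, rfl, h⟩ := h
      exact H.lw _ _ _ _ (by omega) (by omega) (by omega) (by omega) (by omega) (by omega)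
    · obtain ⟨rfl, rfl, h⟩ := h
      exact NHT.pIn hf H.T (t := 3) (j := 2) (by omega) (by omega) (by omega) (by omega) (by omega) (by omega) (by omega)
    · obtain ⟨rfl, rfl, h⟩ := h
      exact NHT.pIn hf H.T (t := 3) (j := 0) (by omega) (by omega) (by omega) (by omega) (by omega) (by omega) (by omega)
    · obtain ⟨rfl, rfl, h⟩ := h
      exact NHT.pmi hf H.T (j := 3) (by omega) (by omega) (by omega) (by omega) (by omega) (by omega)
    · obtain ⟨rfl, rfl, h⟩ := h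
      exact NHT.pmi hf H.T (j := 2) (by omega) (by omega) (by omega) (by omega) (by omega) (by omega)
    · obtain ⟨rfl, rfl, h⟩ := h
      exact NHT.pmi hf H.T (j := 1) (by omega) (by omega) (by omega) (by omega) (by omega) (by omega)
    · obtain ⟨rfl, rfl, h⟩ := h
      exact NHT.pmi hf H.T (j := 0) (by omega) (by omega) (by omega) (by omega) (by omega) (by omega)
    · obtain ⟨rfl, rfl, h⟩ := h
      exact NHT.rIn hf H.T (t := 3) (p := 0) (j := 3) (by omega) (by omega) (by omega) (by omega) (by omega) (by omega) (by omega) (by omega)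
    · obtain ⟨rfl, rfl, h⟩ := h
      exact NHT.rIn hf H.T (t := 3) (p := 1) (j := 3) (by omega) (by omega) (by omega) (by omega) (by omega) (by omega) (by omega) (by omega)
    · obtain ⟨rfl, rfl, h⟩ := h
      exact NHT.rIn hf H.T (t := 2) (p := 1) (j := 2) (by omega) (by omega) (by omega) (by omega) (by omega) (by omega) (by omega) (by omega)
    · obtain ⟨rfl, rfl, h⟩ := h
      exact NHT.rIn hf H.T (t := 3) (p := 1) (j := 2) (by omega) (by omega) (by omega) (by omega) (by omega) (by omega) (by omega) (by omega)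
    · obtain ⟨rfl, rfl, h⟩ := h
      exact NHT.rIn hf H.T (t := 3) (p := 0) (j := 1) (by omega) (by omega) (by omega) (by omega) (by omega) (by omega) (by omega) (by omega)
    · obtain ⟨rfl, rfl, h⟩ := h
      exact NHT.rIn hf H.T (t := 3) (p := 1) (j := 1) (by omega) (by omega) (by omega) (by omega) (by omega) (by omega) (by omega) (by omega)
    · obtain ⟨rfl, rfl, h⟩ := h
      exact NHT.rIn hf H.T (t := 2) (p := 1) (j := 0) (by omega) (by omega) (by omega) (by omega) (by omega) (by omega) (by omega) (by omega)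
    · obtain ⟨rfl, rfl, h⟩ := h
      exact NHT.rIn hf H.T (t := 3) (p := 1) (j := 0) (by omega) (by omega) (by omega) (by omega) (by omega) (by omega) (by omega) (by omega)
    · obtain ⟨rfl, rfl, h⟩ := h
      exact NHU.pmi hf H.U (j := 1) (by omega) (by omega) (by omega) (by omega) (by omega) (by omega)
    · obtain ⟨rfl, rfl, h⟩ := h
      exact NHU.pmi hf H.U (j := 1) (by omega) (by omega) (by omega) (by omega) (by omega) (by omega)
    · obtain ⟨rfl, rfl, h⟩ := h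
      exact NHU.pmi hf H.U (j := 0) (by omega) (by omega) (by omega) (by omega) (by omega) (by omega)
    · obtain ⟨rfl, rfl, h⟩ := h
      exact NHU.pmi hf H.U (j := 0) (by omega) (by omega) (by omega) (by omega) (by omega) (by omega)
    · obtain ⟨rfl, rfl, rfl, rfl⟩ := h
      exact fun t => g1 (mv t (by omega) (by omega) (by omega) (by omega))
    · obtain ⟨rfl, rfl, rfl, rfl⟩ := h
      exact fun t => g2 (mv t (by omega) (by omega) (by omega) (by omega))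

end Pool.Agent.SNT.K0L0e
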