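import Pool.Agent.SNT.NHZoneU
import Pool.Agent.SNT.NWD

set_option autoImplicit false
set_option synthInstance.maxSize 100000
set_option synthInstance.maxHeartbeats 4000000

/-! K0 of the layer `6 k + 2` in the IN row `c` of the top leader `6 k + 10`: near the wall (third cell above it) two
adjacent columns are not both empty. `n` is the lead of the top leader; of the layer `6 k + 2` in row `c - 4` only the weak lead
`n - 2` is used. -/

namespace Pool.Agent.SNT.K0L2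

open Pool.Agent.SNT Pool.Agent.SNT.Loc Pool.Agent.SNT.LW Pool.Agent.SNT.NHZ

variable {f : ℕ → ℕ → ℕ → ℕ → Prop}

theorem zZ_rm1i (hf : Rule f) {k c N M R x y p j : ℕ} (h : NHT f k c N) (hR : R + 1 = c) (hj : j ≤ 4) (hp : p ≤ 1)
    (hL : M + 2 * j = 6 * k + 8 + p) (hx : N ≤ x + 3) (h1 : y + 1 + j ≤ x) (h2 : x + 2 + j ≤ y + 2 * k) : ¬ f M R x y := by
  have e : R = c - 1 := by omega
  subst e
  exact h.rm1i hf hj hp hL hx h1 h2

theorem zU_rm1i (hf : Rule f) {k c N M R x y p j : ℕ} (h : NHU f k c N) (hR : R + 1 = c) (hj : j ≤ 1) (hp : p ≤ 1)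
    (hL : M + 2 * j = 6 * k + 8 + p) (hx : N ≤ x + 1) (h1 : y + 1 + j ≤ x) (h2 : x + j ≤ y + 2 * k) : ¬ f M R x y := by
  have e : R = c - 1 := by omega
  subst e
  exact h.rm1i hf hj hp hL hx h1 h2

theorem p3w_m1_chk : check 9 7 8 6 1 1 1 0 0
    (fun j n p q => decide ((j = 3 ∧ n = 4 ∧ ((p + q + 1) % 2 = 0 ∧ q + 1 ≤ p ∧ (p + q + 1) % 4 = 0))
      ∨ (j = 5 ∧ n = 2 ∧ ((p + q + 1) % 2 = 0 ∧ q + 3 ≤ p ∧ (p + q + 1) % 4 = 2))
      ∨ (j = 7 ∧ n = 4 ∧ ((p + q + 1) % 2 = 0 ∧ q + 3 ≤ p ∧ (p + q + 1) % 4 = 2))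
      ∨ (j = 9 ∧ n = 5 ∧ ((2 ≤ p ∧ p ≤ q + 0) ∨ (4 ≤ p)) ∧ (((p + q + 1) % 2 = 1 ∧ p ≤ q + 2 ∧ p % 2 = 0) ∨ ((p + q + 1) % 2 = 1 ∧ q + 2 ≤ p ∧ (p + q) % 4 = 2)))
      ∨ (j = 2 ∧ n = 4 ∧ p = 2 ∧ q = 2)))
    (fun j n p q => decide ((j = 3 ∧ n = 4 ∧ ¬ ((p + q + 1) % 2 = 0 ∧ q + 1 ≤ p ∧ (p + q + 1) % 4 = 0))
      ∨ (j = 5 ∧ n = 2 ∧ ¬ ((p + q + 1) % 2 = 0 ∧ q + 3 ≤ p ∧ (p + q + 1) % 4 = 2))
      ∨ (j = 7 ∧ n = 4 ∧ ¬ ((p + q + 1) % 2 = 0 ∧ q + 3 ≤ p ∧ (p + q + 1) % 4 = 2))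
      ∨ (j = 9 ∧ n = 5 ∧ ((2 ≤ p ∧ p ≤ q + 0) ∨ (4 ≤ p)) ∧ ¬ (((p + q + 1) % 2 = 1 ∧ p ≤ q + 2 ∧ p % 2 = 0) ∨ ((p + q + 1) % 2 = 1 ∧ q + 2 ≤ p ∧ (p + q) % 4 = 2)))
      ∨ (j = 6 ∧ n = 3 ∧ p ≤ q + 1)
      ∨ (j = 5 ∧ n = 4 ∧ p ≤ q + 0)
      ∨ (j = 6 ∧ n = 4 ∧ p ≤ q + 0)
      ∨ (j = 6 ∧ n = 5 ∧ p + 2 ≤ q)
      ∨ (j = 6 ∧ n = 5 ∧ 3 ≤ p ∧ p ≤ q + 0)))
    116
    0x5c883045d000505ca042a000445ba04ee0005093204458304ed8004ed8403b58004766a05c883045d80045d8405c883047580047584051e03045a00045a0403228303cd8003cd8403228303ce0003ce04047003030780030784047003031f80031f8404730303c48003c48403228303ca8003ca8405c303046f80046f8405c583051e00051e04067400066e00066d00066800050b80050480038480025e8001b70006740f066e0f066d0f06680f052007051b07051a07050b8f05090705088705080705060705058705050705048f05030705028705020705000704ff8704f10704ea07047607047307047287047007046d07046c87045e07045b07045a8704580704578704550704548704490704460704458704428704420703cb0703c50703b60703b30703b28703b00703af8703ad0703ac87039a0703858703850703848f038287038207027a07026287026207025f87025f07025e8f01b70f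 = true := by
  decide +kernel

theorem p3_wall_m1 (hf : Rule f) {k c n X : ℕ}
    (T : NHT f k c (2 * n)) (U : NHU f k c (2 * n)) (C4 : Cyc f (6 * k + 4) (c - 2) (2 * (n - 2) + 2))
    (C6 : Cyc f (6 * k + 6) (c - 4) (2 * (n - 5) + 2)) (C8 : Cw f (6 * k + 8) (c - 2) (n - 3)) (C10 : Cw f (6 * k + 10) c n)
    (hX : 2 * n + 3 ≤ X) (ho : X % 2 = 1)
    (hg : ∀ {M R x y : ℕ}, M = 6 * k + 3 → R + 1 = c → x = X → y + 2 * k = X + 1 → f M R x y) : False := by
  have hk := T.hk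
  have hc := T.hc
  have h4 := T.h4
  have hb := T.hb
  have hN := T.hN2
  obtain ⟨a0, ha0⟩ : ∃ z, z = 6 * k + 1 := ⟨_, rfl⟩
  obtain ⟨b0, hb0⟩ : ∃ z, z + 5 = c := ⟨c - 5, by omega⟩
  obtain ⟨x0, hx0⟩ : ∃ z, z + 2 = X := ⟨X - 2, by omega⟩
  obtain ⟨y0, hy0⟩ : ∃ z, z + 2 * k + 20 = X + 19 := ⟨X + 19 - 2 * k - 20, by omega⟩
  refine check_sound hf (a0 := a0) (b0 := b0) (x0 := x0) (y0 := y0) p3w_m1_chk
    ⟨fun h => absurd h (by decide), fun h => absurd h (by decide), fun h => absurd h (by decide), by omega, by omega,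
      by omega, by omega⟩ ?_ ?_
  · intro j m p q hr h
    obtain ⟨-, -, -, -, hp1, hp2, hq1, hq2⟩ := hr
    replace h := of_decide_eq_true h
    rcases h with h | h | h | h | h
    · obtain ⟨rfl, rfl, h⟩ := h
      exact (WrapC.v1 C4 (by omega) (by omega) (by omega) (by omega) (by omega) (by omega) (by omega) (by omega)).mpr (by omega)
    · obtain ⟨rfl, rfl, h⟩ := h
      exact (WrapC.v1 C6 (by omega) (by omega) (by omega) (by omega) (by omega) (by omega) (by omega) (by omega)).mpr (by omega)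
    · obtain ⟨rfl, rfl, h⟩ := h
      exact (NW.w1v C8 (by omega) (by omega) (by omega) (by omega) (by omega) (by omega) (by omega) (by omega)).mpr (by omega)
    · obtain ⟨rfl, rfl, h⟩ := h
      exact (NW.w0v C10 (by omega) (by omega) (by omega) (by omega) (by omega) (by omega) (by omega)).mpr (by omega)
    · obtain ⟨rfl, rfl, rfl, rfl⟩ := h
      exact hg (by omega) (by omega) (by omega) (by omega)
  · intro j m p q hr h
    obtain ⟨-, -, -, -, hp1, hp2, hq1, hq2⟩ := hr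
    replace h := of_decide_eq_true h
    rcases h with h | h | h | h | h | h | h | h | h
    · obtain ⟨rfl, rfl, h⟩ := h
      exact mt (WrapC.v1 C4 (by omega) (by omega) (by omega) (by omega) (by omega) (by omega) (by omega) (by omega)).mp (by omega)
    · obtain ⟨rfl, rfl, h⟩ := h
      exact mt (WrapC.v1 C6 (by omega) (by omega) (by omega) (by omega) (by omega) (by omega) (by omega) (by omega)).mp (by omega)
    · obtain ⟨rfl, rfl, h⟩ := h
      exact mt (NW.w1v C8 (by omega) (by omega) (by omega) (by omega) (by omega) (by omega) (by omega) (by omega)).mp (by omega)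
    · obtain ⟨rfl, rfl, h⟩ := h
      exact mt (NW.w0v C10 (by omega) (by omega) (by omega) (by omega) (by omega) (by omega) (by omega)).mp (by omega)
    · obtain ⟨rfl, rfl, h⟩ := h
      exact NHU.pmi hf U (j := 0) (by omega) (by omega) (by omega) (by omega) (by omega) (by omega)
    · obtain ⟨rfl, rfl, h⟩ := h
      exact zU_rm1i hf U (p := 0) (j := 1) (by omega) (by omega) (by omega) (by omega) (by omega) (by omega) (by omega)
    · obtain ⟨rfl, rfl, h⟩ := h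
      exact zU_rm1i hf U (p := 1) (j := 1) (by omega) (by omega) (by omega) (by omega) (by omega) (by omega) (by omega)
    · obtain ⟨rfl, rfl, h⟩ := h
      exact NHT.p0i hf T (j := 1) (by omega) (by omega) (by omega) (by omega) (by omega) (by omega)
    · obtain ⟨rfl, rfl, h⟩ := h
      exact NHU.p0i hf U (j := 1) (by omega) (by omega) (by omega) (by omega) (by omega) (by omega)

theorem p3w_0_chk : check 9 7 8 6 1 1 1 0 0
    (fun j n p q => decide ((j = 3 ∧ n = 4 ∧ ((p + q + 1) % 2 = 0 ∧ q + 1 ≤ p ∧ (p + q + 1) % 4 = 0))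
      ∨ (j = 5 ∧ n = 2 ∧ ((p + q + 1) % 2 = 0 ∧ q + 3 ≤ p ∧ (p + q + 1) % 4 = 2))
      ∨ (j = 7 ∧ n = 4 ∧ ((p + q + 1) % 2 = 0 ∧ q + 3 ≤ p ∧ (p + q + 1) % 4 = 2))
      ∨ (j = 9 ∧ n = 5 ∧ ((2 ≤ p ∧ p ≤ q + 0) ∨ (4 ≤ p)) ∧ (((p + q + 1) % 2 = 1 ∧ p ≤ q + 2 ∧ p % 2 = 0) ∨ ((p + q + 1) % 2 = 1 ∧ q + 2 ≤ p ∧ (p + q) % 4 = 2)))
      ∨ (j = 2 ∧ n = 5 ∧ p = 2 ∧ q = 2)))
    (fun j n p q => decide ((j = 3 ∧ n = 4 ∧ ¬ ((p + q + 1) % 2 = 0 ∧ q + 1 ≤ p ∧ (p + q + 1) % 4 = 0))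
      ∨ (j = 5 ∧ n = 2 ∧ ¬ ((p + q + 1) % 2 = 0 ∧ q + 3 ≤ p ∧ (p + q + 1) % 4 = 2))
      ∨ (j = 7 ∧ n = 4 ∧ ¬ ((p + q + 1) % 2 = 0 ∧ q + 3 ≤ p ∧ (p + q + 1) % 4 = 2))
      ∨ (j = 9 ∧ n = 5 ∧ ((2 ≤ p ∧ p ≤ q + 0) ∨ (4 ≤ p)) ∧ ¬ (((p + q + 1) % 2 = 1 ∧ p ≤ q + 2 ∧ p % 2 = 0) ∨ ((p + q + 1) % 2 = 1 ∧ q + 2 ≤ p ∧ (p + q) % 4 = 2)))
      ∨ (j = 6 ∧ n = 3 ∧ p ≤ q + 1)
      ∨ (j = 5 ∧ n = 4 ∧ p ≤ q + 0)
      ∨ (j = 6 ∧ n = 4 ∧ p ≤ q + 0)
      ∨ (j = 6 ∧ n = 5 ∧ p + 2 ≤ q)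
      ∨ (j = 6 ∧ n = 5 ∧ 3 ≤ p ∧ p ≤ q + 0)))
    116
    0x5c883045d000505ca042a000445ba04ee0005093204458304ed8004ed8403b58004766a05c883045d80045d8405c883047580047584051e03045a00045a0403228303cd8003cd8403228303ce0003ce04047003030780030784047003031f80031f8404730303c48003c48403228303ca8003ca8405c303046f80046f8405c583051e00051e04067400066e00066d00066800050b80050480038480025e8001cf0006740f066e0f066d0f06680f052007051b07051a07050b8f05090705088705080705060705058705050705048f05030705028705020705000704ff8704f10704ea07047607047307047287047007046d07046c87045e07045b07045a8704580704578704550704548704490704460704458704428704420703cb0703c50703b60703b30703b28703b00703af8703ad0703ac87039a0703858703850703848f038287038207027a07026287026207025f87025f07025e8f01cf0f = true := by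
  decide +kernel

theorem p3_wall_0 (hf : Rule f) {k c n X : ℕ}
    (T : NHT f k c (2 * n)) (U : NHU f k c (2 * n)) (C4 : Cyc f (6 * k + 4) (c - 2) (2 * (n - 2) + 2))
    (C6 : Cyc f (6 * k + 6) (c - 4) (2 * (n - 5) + 2)) (C8 : Cw f (6 * k + 8) (c - 2) (n - 3)) (C10 : Cw f (6 * k + 10) c n)
    (hX : 2 * n + 3 ≤ X) (ho : X % 2 = 1)
    (hg : ∀ {M R x y : ℕ}, M = 6 * k + 3 → R = c → x = X → y + 2 * k = X + 1 → f M R x y) : False := by
  have hk := T.hk
  have hc := T.hc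
  have h4 := T.h4
  have hb := T.hb
  have hN := T.hN2
  obtain ⟨a0, ha0⟩ : ∃ z, z = 6 * k + 1 := ⟨_, rfl⟩
  obtain ⟨b0, hb0⟩ : ∃ z, z + 5 = c := ⟨c - 5, by omega⟩
  obtain ⟨x0, hx0⟩ : ∃ z, z + 2 = X := ⟨X - 2, by omega⟩
  obtain ⟨y0, hy0⟩ : ∃ z, z + 2 * k + 20 = X + 19 := ⟨X + 19 - 2 * k - 20, by omega⟩
  refine check_sound hf (a0 := a0) (b0 := b0) (x0 := x0) (y0 := y0) p3w_0_chk
    ⟨fun h => absurd h (by decide), fun h => absurd h (by decide), fun h => absurd h (by decide), by omega, by omega,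
      by omega, by omega⟩ ?_ ?_
  · intro j m p q hr h
    obtain ⟨-, -, -, -, hp1, hp2, hq1, hq2⟩ := hr
    replace h := of_decide_eq_true h
    rcases h with h | h | h | h | h
    · obtain ⟨rfl, rfl, h⟩ := h
      exact (WrapC.v1 C4 (by omega) (by omega) (by omega) (by omega) (by omega) (by omega) (by omega) (by omega)).mpr (by omega)
    · obtain ⟨rfl, rfl, h⟩ := h
      exact (WrapC.v1 C6 (by omega) (by omega) (by omega) (by omega) (by omega) (by omega) (by omega) (by omega)).mpr (by omega)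
    · obtain ⟨rfl, rfl, h⟩ := h
      exact (NW.w1v C8 (by omega) (by omega) (by omega) (by omega) (by omega) (by omega) (by omega) (by omega)).mpr (by omega)
    · obtain ⟨rfl, rfl, h⟩ := h
      exact (NW.w0v C10 (by omega) (by omega) (by omega) (by omega) (by omega) (by omega) (by omega)).mpr (by omega)
    · obtain ⟨rfl, rfl, rfl, rfl⟩ := h
      exact hg (by omega) (by omega) (by omega) (by omega)
  · intro j m p q hr h
    obtain ⟨-, -, -, -, hp1, hp2, hq1, hq2⟩ := hr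
    replace h := of_decide_eq_true h
    rcases h with h | h | h | h | h | h | h | h | h
    · obtain ⟨rfl, rfl, h⟩ := h
      exact mt (WrapC.v1 C4 (by omega) (by omega) (by omega) (by omega) (by omega) (by omega) (by omega) (by omega)).mp (by omega)
    · obtain ⟨rfl, rfl, h⟩ := h
      exact mt (WrapC.v1 C6 (by omega) (by omega) (by omega) (by omega) (by omega) (by omega) (by omega) (by omega)).mp (by omega)
    · obtain ⟨rfl, rfl, h⟩ := h
      exact mt (NW.w1v C8 (by omega) (by omega) (by omega) (by omega) (by omega) (by omega) (by omega) (by omega)).mp (by omega)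
    · obtain ⟨rfl, rfl, h⟩ := h
      exact mt (NW.w0v C10 (by omega) (by omega) (by omega) (by omega) (by omega) (by omega) (by omega)).mp (by omega)
    · obtain ⟨rfl, rfl, h⟩ := h
      exact NHU.pmi hf U (j := 0) (by omega) (by omega) (by omega) (by omega) (by omega) (by omega)
    · obtain ⟨rfl, rfl, h⟩ := h
      exact zU_rm1i hf U (p := 0) (j := 1) (by omega) (by omega) (by omega) (by omega) (by omega) (by omega) (by omega)
    · obtain ⟨rfl, rfl, h⟩ := h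
      exact zU_rm1i hf U (p := 1) (j := 1) (by omega) (by omega) (by omega) (by omega) (by omega) (by omega) (by omega)
    · obtain ⟨rfl, rfl, h⟩ := h
      exact NHT.p0i hf T (j := 1) (by omega) (by omega) (by omega) (by omega) (by omega) (by omega)
    · obtain ⟨rfl, rfl, h⟩ := h
      exact NHU.p0i hf U (j := 1) (by omega) (by omega) (by omega) (by omega) (by omega) (by omega)

/-- `P_(6k+3)` is zero in the last odd column before the wall, rows `c - 1` and `c` -/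
theorem p3_wall (hf : Rule f) {k c n M R x y : ℕ}
    (T : NHT f k c (2 * n)) (U : NHU f k c (2 * n)) (C4 : Cyc f (6 * k + 4) (c - 2) (2 * (n - 2) + 2))
    (C6 : Cyc f (6 * k + 6) (c - 4) (2 * (n - 5) + 2)) (C8 : Cw f (6 * k + 8) (c - 2) (n - 3)) (C10 : Cw f (6 * k + 10) c n)
    (hM : M = 6 * k + 3) (hR : R + 1 = c ∨ R = c) (hx : 2 * n + 3 ≤ x) (ho : x % 2 = 1) (hy : y + 2 * k = x + 1) :
    ¬ f M R x y := by
  intro h
  rcases hR with hR | hR
  · refine p3_wall_m1 hf T U C4 C6 C8 C10 hx ho ?_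
    intro M' R' x' y' e1 e2 e3 e4
    exact mv h (by omega) (by omega) (by omega) (by omega)
  · refine p3_wall_0 hf T U C4 C6 C8 C10 hx ho ?_
    intro M' R' x' y' e1 e2 e3 e4
    exact mv h (by omega) (by omega) (by omega) (by omega)

theorem k0w_chk : check 5 7 12 16 0 1 1 0 0
    (fun j n p q => decide ((j = 2 ∧ n = 1 ∧ (((p + q + 1) % 2 = 1 ∧ p ≤ q + 0 ∧ p % 2 = 0) ∨ ((p + q + 1) % 2 = 1 ∧ q ≤ p + 0 ∧ (p + q) % 4 = 0)))
      ∨ (j = 2 ∧ n = 3 ∧ q + 1 ≤ p ∧ 4 ≤ p ∧ (((p + q + 1) % 2 = 1 ∧ p ≤ q + 0 ∧ p % 2 = 1) ∨ ((p + q + 1) % 2 = 1 ∧ q ≤ p + 0 ∧ (p + q + 2) % 4 = 0)))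
      ∨ (j = 4 ∧ n = 3 ∧ (((p + q + 1) % 2 = 1 ∧ p ≤ q + 0 ∧ p % 2 = 0) ∨ ((p + q + 1) % 2 = 1 ∧ q ≤ p + 0 ∧ (p + q) % 4 = 0)))
      ∨ (j = 4 ∧ n = 4 ∧ ((2 ≤ p) ∨ (p ≤ q + 1)) ∧ ((p + q + 1) % 2 = 0 ∧ q + 1 ≤ p ∧ (p + q + 1) % 4 = 0))))
    (fun j n p q => decide ((j = 2 ∧ n = 1 ∧ ¬ (((p + q + 1) % 2 = 1 ∧ p ≤ q + 0 ∧ p % 2 = 0) ∨ ((p + q + 1) % 2 = 1 ∧ q ≤ p + 0 ∧ (p + q) % 4 = 0)))
      ∨ (j = 2 ∧ n = 3 ∧ q + 1 ≤ p ∧ 4 ≤ p ∧ ¬ (((p + q + 1) % 2 = 1 ∧ p ≤ q + 0 ∧ p % 2 = 1) ∨ ((p + q + 1) % 2 = 1 ∧ q ≤ p + 0 ∧ (p + q + 2) % 4 = 0)))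
      ∨ (j = 4 ∧ n = 3 ∧ ¬ (((p + q + 1) % 2 = 1 ∧ p ≤ q + 0 ∧ p % 2 = 0) ∨ ((p + q + 1) % 2 = 1 ∧ q ≤ p + 0 ∧ (p + q) % 4 = 0)))
      ∨ (j = 4 ∧ n = 4 ∧ ((2 ≤ p) ∨ (p ≤ q + 1)) ∧ ¬ ((p + q + 1) % 2 = 0 ∧ q + 1 ≤ p ∧ (p + q + 1) % 4 = 0))
      ∨ (j = 3 ∧ n = 5 ∧ 3 ≤ p ∧ p + 4 ≤ q ∧ q ≤ p + 11)
      ∨ (j = 5 ∧ n = 5 ∧ 3 ≤ p ∧ p + 3 ≤ q ∧ q ≤ p + 12)
      ∨ (j = 5 ∧ n = 5 ∧ 5 ≤ p ∧ p + 1 ≤ q ∧ q ≤ p + 12)
      ∨ (j = 3 ∧ n = 4 ∧ q ≤ p + 0 ∧ p ≤ q + 0 ∧ 4 ≤ p ∧ p % 2 = 0)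
      ∨ (j = 3 ∧ n = 5 ∧ q ≤ p + 0 ∧ p ≤ q + 0 ∧ 4 ≤ p ∧ p % 2 = 0)
      ∨ (j = 2 ∧ n = 5 ∧ p = 4 ∧ q = 8)
      ∨ (j = 2 ∧ n = 5 ∧ p = 6 ∧ q = 10)))
    391
    0x93b8306fc0009fc6209338306f38006f38407530009f34206ea00098a42067980091a4a09ec0307430009eb5206e20009824206718006718406fb00099b42068a80067a80092ac20922d2093b8306fc0009fc6206f30009934206828006828409fd03075400075404093c8306fc8006fc8409fd0306f40006f404092b8306eb8006eb8409238306e38006e384092b8306ec0006ec0409238306e40006e40409348306f48006f484093c8306fd0006fd0409348306f50006f504091a03097a00097a040f2b8309e30009e304092283098280098284098a0309ea8009ea840c940309eb0009eb04099b0309fb8009fb840ca50309fc0009fc040922830683000683040f2c0309e38009e3840923030983000983040933830694000694040f338309eb8009eb840c9403098b00098b040f3c8309f40009f404093383099380099384092b83098b80098b840934030994000994040f448309fc8009fc840ca503099c00099c0409448309a48009a4840f4d830a05000a050409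3c83099c80099c8409450309a50009a504092383098380098384092c03098c00098c040c950309ec0009ec040f3c8309f48009f4840934830994800994840ca60309fd0009fd040f4d830a05800a05840ca603099d00099d0409458309a58009a584092403098400098404092c83098c80098c84093503099500099504092d03098d00098d04093d83099d80099d8409460309a60009a604093e03099e00099e040f19830f1a000f229a0f23000f23040f45830ca6000ca6040f44830ca5000ca5040f34830c95000c95040f33830c94000c940406328006218008d2c208c1c20b7b000b6a000be3ba0bd2ba0c43800c32800c21800c10800beb800be6000be5000be4000bda800bd6000bd5000bd4000bd3000bc5000bc4000bc3000bc2000bb2000bb10006a30006920006810005e60005e50005e40005da8005d60005d50005d40005d30005c98005c50005c40005c30005c20005b88005b40005b30005b20005b1000f4d870f4d070f45870f45070f44870f3d870f3d070f3c870f3c070f34870f34070f33870f2c870f2c070f2b870f2b070f24070f23870cad070c9e070c9d070c9c070c8d070c8c070c8b070c7a070c79070c4d870c4d070c46070c45870c45070c44870c44070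c438f0c3e070c3d870c3d070c3c870c3c070c35070c34870c34070c33870c33070c328f0c2d070c2c870c2c070c2b870c2b070c24070c23870c23070c22870c22070c218f0c1a870c1a070c19870c19070c11870c11070c108f0beb8f0be60f0be50f0be40f0be3870be3070bdb870bdb070bda8f0bd60f0bd50f0bd40f0bd30f0bd2870bd2070bca870bca070bc50f0bc40f0bc30f0bc20f0bb20f0bb10f0a060709fe0709fd8709f50709f30709ed0709ec8709e407099307098207075d07075c07075507074c07074b0707440706a30f069e07069d07069c07069b07069a8706928706920f068d07068c07068b07068a0706898706818706810f067c07067b07067a0705e60f05e50f05e40f05da8f05d60f05d50f05d40f05d30f05d28705d20705ca8705ca0705c98f05c50f05c40f05c30f05c20f05c18705c10705b98705b90705b88f05b40f05b30f05b20f05b10f = true := by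
  decide +kernel

theorem k0_aux (hf : Rule f) {k c n X : ℕ}
    (T : NHT f k c (2 * n)) (U : NHU f k c (2 * n)) (C2 : Cyc f (6 * k + 2) (c - 4) (2 * (n - 2) + 2))
    (C4 : Cyc f (6 * k + 4) (c - 2) (2 * (n - 2) + 2))
    (C6 : Cyc f (6 * k + 6) (c - 4) (2 * (n - 5) + 2)) (C8 : Cw f (6 * k + 8) (c - 2) (n - 3)) (C10 : Cw f (6 * k + 10) c n)
    (hX : 2 * n + 3 ≤ X) (ho : X % 2 = 1)
    (h1 : ∀ {M R x y : ℕ}, M = 6 * k + 2 → R = c → x = X → y + 2 * k = X + 5 → ¬ f M R x y)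
    (h2 : ∀ {M R x y : ℕ}, M = 6 * k + 2 → R = c → x = X + 2 → y + 2 * k = X + 7 → ¬ f M R x y) : False := by
  have hk := T.hk
  have hc := T.hc
  have h4 := T.h4
  have hb := T.hb
  have hN := T.hN2
  obtain ⟨a0, ha0⟩ : ∃ z, z = 6 * k + 0 := ⟨_, rfl⟩
  obtain ⟨b0, hb0⟩ : ∃ z, z + 5 = c := ⟨c - 5, by omega⟩
  obtain ⟨x0, hx0⟩ : ∃ z, z + 4 = X := ⟨X - 4, by omega⟩
  obtain ⟨y0, hy0⟩ : ∃ z, z + 2 * k + 20 = X + 17 := ⟨X + 17 - 2 * k - 20, by omega⟩
  refine check_sound hf (a0 := a0) (b0 := b0) (x0 := x0) (y0 := y0) k0w_chk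
    ⟨fun h => absurd h (by decide), fun h => absurd h (by decide), fun h => absurd h (by decide), by omega, by omega,
      by omega, by omega⟩ ?_ ?_
  · intro j m p q hr h
    obtain ⟨-, -, -, -, hp1, hp2, hq1, hq2⟩ := hr
    replace h := of_decide_eq_true h
    rcases h with h | h | h | h
    · obtain ⟨rfl, rfl, h⟩ := h
      exact (WrapC.v0 C2 (by omega) (by omega) (by omega) (by omega) (by omega) (by omega) (by omega)).mpr (by omega)
    · obtain ⟨rfl, rfl, h⟩ := h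
      exact (WrapC.v2 C2 (by omega) (by omega) (by omega) (by omega) (by omega) (by omega) (by omega)).mpr (by omega)
    · obtain ⟨rfl, rfl, h⟩ := h
      exact (WrapC.v0 C4 (by omega) (by omega) (by omega) (by omega) (by omega) (by omega) (by omega)).mpr (by omega)
    · obtain ⟨rfl, rfl, h⟩ := h
      exact (WrapC.v1 C4 (by omega) (by omega) (by omega) (by omega) (by omega) (by omega) (by omega) (by omega)).mpr (by omega)
  · intro j m p q hr h
    obtain ⟨-, -, -, -, hp1, hp2, hq1, hq2⟩ := hr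
    replace h := of_decide_eq_true h
    rcases h with h | h | h | h | h | h | h | h | h | h | h
    · obtain ⟨rfl, rfl, h⟩ := h
      exact mt (WrapC.v0 C2 (by omega) (by omega) (by omega) (by omega) (by omega) (by omega) (by omega)).mp (by omega)
    · obtain ⟨rfl, rfl, h⟩ := h
      exact mt (WrapC.v2 C2 (by omega) (by omega) (by omega) (by omega) (by omega) (by omega) (by omega)).mp (by omega)
    · obtain ⟨rfl, rfl, h⟩ := h
      exact mt (WrapC.v0 C4 (by omega) (by omega) (by omega) (by omega) (by omega) (by omega) (by omega)).mp (by omega)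
    · obtain ⟨rfl, rfl, h⟩ := h
      exact mt (WrapC.v1 C4 (by omega) (by omega) (by omega) (by omega) (by omega) (by omega) (by omega) (by omega)).mp (by omega)
    · obtain ⟨rfl, rfl, h⟩ := h
      exact NHT.p0i hf T (j := 3) (by omega) (by omega) (by omega) (by omega) (by omega) (by omega)
    · obtain ⟨rfl, rfl, h⟩ := h
      exact NHT.p0i hf T (j := 2) (by omega) (by omega) (by omega) (by omega) (by omega) (by omega)
    · obtain ⟨rfl, rfl, h⟩ := h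
      exact NHU.p0i hf U (j := 2) (by omega) (by omega) (by omega) (by omega) (by omega) (by omega)
    · obtain ⟨rfl, rfl, h⟩ := h
      exact p3_wall hf T U C4 C6 C8 C10 (by omega) (by omega) (by omega) (by omega) (by omega)
    · obtain ⟨rfl, rfl, h⟩ := h
      exact p3_wall hf T U C4 C6 C8 C10 (by omega) (by omega) (by omega) (by omega) (by omega)
    · obtain ⟨rfl, rfl, rfl, rfl⟩ := h
      exact h1 (by omega) (by omega) (by omega) (by omega)
    · obtain ⟨rfl, rfl, rfl, rfl⟩ := h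
      exact h2 (by omega) (by omega) (by omega) (by omega)

/-- **K0 of the layer `6 k + 2`** in the IN row `c` of the top leader: the third cells above the wall of two adjacent
columns are not both zero. -/
theorem k0_L2 (hf : Rule f) {k c n R x y : ℕ}
    (T : NHT f k c (2 * n)) (U : NHU f k c (2 * n)) (C2 : Cyc f (6 * k + 2) (c - 4) (2 * (n - 2) + 2))
    (C4 : Cyc f (6 * k + 4) (c - 2) (2 * (n - 2) + 2))
    (C6 : Cyc f (6 * k + 6) (c - 4) (2 * (n - 5) + 2)) (C8 : Cw f (6 * k + 8) (c - 2) (n - 3)) (C10 : Cw f (6 * k + 10) c n)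
    (hR : R = c) (hx : 2 * n + 3 ≤ x) (ho : x % 2 = 1) (hy : y + 2 * k = x + 5) :
    f (6 * k + 2) R x y ∨ f (6 * k + 2) R (x + 2) (y + 2) := by
  by_contra hc
  have h1' : ¬ f (6 * k + 2) R x y := fun h => hc (Or.inl h)
  have h2' : ¬ f (6 * k + 2) R (x + 2) (y + 2) := fun h => hc (Or.inr h)
  refine k0_aux hf T U C2 C4 C6 C8 C10 hx ho ?_ ?_
  · intro M' R' x' y' e1 e2 e3 e4 h
    exact h1' (mv h (by omega) (by omega) (by omega) (by omega))
  · intro M' R' x' y' e1 e2 e3 e4 h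
    exact h2' (mv h (by omega) (by omega) (by omega) (by omega))

/-- The same over the window of the leader `6 k + 10`. -/
theorem k0_L2_stack (hf : Rule f) {k b m R x y : ℕ} (hs : Side k b m) (S : Stack6 f k b m 0 0 0 0 0 1)
    (C2 : Cyc f (6 * k + 2) (b + 18) (2 * (m + 9 + (k + 2) * 4 - 2) + 2))
    (C4 : Cyc f (6 * k + 4) (b + 20) (2 * (m + 9 + (k + 2) * 4 - 2) + 2))
    (hR : R = b + 22) (hx : 2 * (m + 9 + (k + 2) * 4) + 3 ≤ x) (ho : x % 2 = 1) (hy : y + 2 * k = x + 5) :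
    f (6 * k + 2) R x y ∨ f (6 * k + 2) R (x + 2) (y + 2) := by
  have T := NHT.of_stack hs S
  have U := NHU.of_stack hs S
  obtain ⟨hk, hb, h4, hb2, hm⟩ := hs
  refine k0_L2 hf (c := b + 22) (n := m + 9 + (k + 2) * 4) T U ?_ ?_ ?_ ?_ ?_ hR hx ho hy
  · have e : b + 22 - 4 = b + 18 := by omega
    rw [e]
    exact C2
  · have e : b + 22 - 2 = b + 20 := by omega
    rw [e]
    exact C4
  · have e : b + 22 - 4 = b + 2 + 4 * 4 := by omega
    have e2 : m + 9 + (k + 2) * 4 - 5 = m + 4 + 0 + (k + 2) * 4 := by omega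
    rw [e, e2]
    exact S.l6 4
  · have e : b + 22 - 2 = b + 4 + 4 * 4 := by omega
    have e2 : m + 9 + (k + 2) * 4 - 3 = m + 6 + 0 + (k + 2) * 4 := by omega
    rw [e, e2]
    exact S.l8 4
  · have e : b + 22 = b + 6 + 4 * 4 := by omega
    have e2 : m + 9 + (k + 2) * 4 = m + 8 + 1 + (k + 2) * 4 := by omega
    rw [e, e2]
    exact S.l10 4

end Pool.Agent.SNT.K0L2
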