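import Pool.Agent.SNT.K3W

set_option autoImplicit false

/-! Location of the top leader (`c` is the IN row of `6 k + 10`, `n` its lead): the two tips `2 n - 3`, `2 n - 5` of
`6 k + 4` in the row `c - 2` are not both missing. -/

namespace Pool.Agent.SNT.K3

open Pool.Agent.SNT Pool.Agent.SNT.Loc Pool.Agent.SNT.LW Pool.Agent.SNT.NHZ
open Pool.Agent.SNT.Sig Pool.Agent.SNT.DRun Pool.Agent.SNT.ZoneT

/-- one step down a column without the covering of the window -/
theorem step_down {f : ℕ → ℕ → ℕ → ℕ → Prop} (hf : Rule f) {L R x y : ℕ} (hL : L % 2 = 0) (hR : (R + 1) % 2 = 0)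
    (hx : x % 2 = 1) (hy : y % 2 = 0) (h0 : ¬ f L (R + 1) x (y + 2)) (hP : ¬ f (L + 1) (R + 1) x (y + 2))
    (hP' : ¬ f (L + 1) (R + 1) (x + 1) (y + 2)) (hm : W0 f (L + 1) R x (y + 1)) (hm' : W0 f L R x (y + 1)) :
    ¬ f L (R + 1) x y := by
  intro h1
  obtain ⟨p, q, r, s, hp, hq, hr, hs, h5, -, -, -, -, h6⟩ := pred hf hP' (by omega)
  have e1 : x + 1 - r = x + (1 - r) := by omega
  have e2 : y + 2 - s = y + 1 + (1 - s) := by omega
  rw [e1, e2] at h6
  interval_cases p <;> interval_cases q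
  · rw [Nat.sub_zero, Nat.sub_zero] at h6
    interval_cases r <;> interval_cases s
    · exact absurd h5 (by omega)
    · exact kill hf h1 1 0 1 1 le_rfl (by omega) le_rfl le_rfl (by omega) h6
    · exact hP h6
    · exact kill hf h1 1 0 0 1 le_rfl (by omega) (by omega) le_rfl (by omega) h6
  · rw [Nat.sub_zero, Nat.add_sub_cancel] at h6
    exact hm.get (by omega) (by omega) h6
  · rw [Nat.add_sub_cancel, Nat.sub_zero] at h6
    interval_cases r <;> interval_cases s
    · exact (hf _ _ _ _).1 h6 |>.1 ⟨hL, hR, by omega, by omega⟩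
    · exact kill hf h1 0 0 1 1 (by omega) (by omega) le_rfl le_rfl (by omega) h6
    · exact h0 h6
    · exact kill hf h1 0 0 0 1 (by omega) (by omega) (by omega) le_rfl (by omega) h6
  · rw [Nat.add_sub_cancel, Nat.add_sub_cancel] at h6
    exact hm'.get (by omega) (by omega) h6

/-- the tower of the OUT rows of the previous cycle -/
theorem tower {f : ℕ → ℕ → ℕ → ℕ → Prop} {k c n : ℕ} (h : NHT f k c (2 * n))
    (C10a : Cw f (6 * k + 10) (c - 4) (n - (k + 2))) (C8a : Cw f (6 * k + 8) (c - 6) (n - 3 - (k + 2)))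
    (C6a : Cyc f (6 * k + 6) (c - 8) (2 * (n - 5 - (k + 2)) + 2))
    (C4b : Cyc f (6 * k + 4) (c - 10) (2 * (n - 7 - (k + 2)) + 2)) :
    Tower f (6 * k + 4) (c - 8) 3 (2 * k) (fun t => 2 * n - 2 * k - 12 + 4 * t) := by
  have hk := h.hk
  have hc := h.hc
  have h4 := h.h4
  have hb := h.hb
  have hN := h.hN2
  refine ⟨by omega, by omega, by omega, by omega, fun t _ => by show _ + 4 * t + 2 ≤ _ + 4 * (t + 1); omega, ?_⟩
  intro t x y ht hy h1 h2 hx1 hy1
  have hy' : 2 * n - 2 * k - 12 + 4 * t ≤ y := hy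
  interval_cases t
  · exact (out_cyc C4b (by omega) (by omega) (by omega) (by omega) (by omega) h1 (by omega)).2 ⟨hx1, hy1⟩
  · exact (out_cyc C6a (by omega) (by omega) (by omega) (by omega) (by omega) h1 (by omega)).2 ⟨hx1, hy1⟩
  · exact (out_cw C8a (by omega) (by omega) (by omega) (by omega) (by omega) h1 (by omega)).2 ⟨hx1, hy1⟩
  · exact (out_cw C10a (by omega) (by omega) (by omega) (by omega) (by omega) h1 (by omega)).2 ⟨hx1, hy1⟩

/-- **the pair of tips `2 n - 5`, `2 n - 3` of `6 k + 4` in the row `c - 2`** -/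
theorem pair {f : ℕ → ℕ → ℕ → ℕ → Prop} (hf : Rule f) {k c n : ℕ} (h : NHT f k c (2 * n))
    (lw : ∀ R x y : ℕ, c ≤ R + 4 → R + 2 ≤ c → 2 * n ≤ x + 9 → x + 5 ≤ 2 * n → y ≤ x → x ≤ y + 2 * k → ¬ f (6 * k - 1) R x y)
    (C10a : Cw f (6 * k + 10) (c - 4) (n - (k + 2))) (C8 : Cw f (6 * k + 8) (c - 2) (n - 3))
    (C8a : Cw f (6 * k + 8) (c - 6) (n - 3 - (k + 2)))
    (C6 : Cyc f (6 * k + 6) (c - 4) (2 * (n - 5) + 2))
    (C6a : Cyc f (6 * k + 6) (c - 8) (2 * (n - 5 - (k + 2)) + 2))
    (C4a : Cyc f (6 * k + 4) (c - 6) (2 * (n - 7) + 2))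
    (C4b : Cyc f (6 * k + 4) (c - 10) (2 * (n - 7 - (k + 2)) + 2))
    (C2 : Cyc f (6 * k + 2) (c - 4) (2 * (n - 5) + 2))
    (C0 : Cyc f (6 * k) (c - 6) (2 * (n - 7) + 2)) :
    f (6 * k + 4) (c - 2) (2 * n - 5) (2 * n - 6) ∨ f (6 * k + 4) (c - 2) (2 * n - 3) (2 * n - 4) := by
  have hk := h.hk
  have hc := h.hc
  have h4 := h.h4
  have hb := h.hb
  have hN := h.hN2
  have l8 : Lay (6 * k + 8) (c - 2) (k + 1) := ⟨by omega, by omega, by omega, by omega⟩
  have l6 : Lay (6 * k + 6) (c - 4) (k + 1) := ⟨by omega, by omega, by omega, by omega⟩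
  have l4a : Lay (6 * k + 4) (c - 6) k := ⟨by omega, by omega, by omega, by omega⟩
  have T := tower h C10a C8a C6a C4b
  by_contra hno
  obtain ⟨t5, t3⟩ := not_or.1 hno
  -- the column `2 n - 3`
  have a3 : ¬ f (6 * k + 4) (c - 2) (2 * n - 3) (2 * n + 2 - 2 * k) := by
    refine col_run_down hf (y0 := 2 * n + 2 - 2 * k) (y1 := 2 * n - 4) (by omega) (by omega) (by omega) ?_ (by omega) t3 _
      le_rfl (by omega) (by omega)
    intro y h1 h2 h3
    rcases Nat.lt_or_ge y (2 * n - 6) with h5 | h5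
    · exact h.cIn hf (t := 4) (j := 2) (by omega) (by omega) (by omega) (by omega) (by omega) (by omega) (by omega) (by omega)
    · exact h.cOut hf (t := 3) (j := 1) (by omega) (by omega) (by omega) (by omega) (by omega) (by omega) (by omega) (by omega)
  -- the column `2 n - 5`
  have e1 : c - 2 = c - 3 + 1 := by omega
  have b5 : ¬ f (6 * k + 4) (c - 2) (2 * n - 5) (2 * n - 8) := by
    rw [e1]
    refine step_down hf (by omega) (by omega) (by omega) (by omega) ?_ ?_ ?_ ?_ ?_
    · exact fun t => t5 (mv t (by omega) (by omega) (by omega) (by omega))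
    · exact h.pOut hf (t := 3) (j := 0) (by omega) (by omega) (by omega) (by omega) (by omega) (by omega) (by omega)
    · exact h.pOut hf (t := 3) (j := 0) (by omega) (by omega) (by omega) (by omega) (by omega) (by omega) (by omega)
    · refine W0.mk' fun u v hu hv => ?_
      exact h.rOut hf (t := 2) (j := 0) (p := 1) (by omega) (by omega) (by omega) (by omega) (by omega) (by omega) (by omega) (by omega)
    · refine W0.mk' fun u v hu hv => ?_
      exact h.rOut hf (t := 2) (j := 0) (p := 0) (by omega) (by omega) (by omega) (by omega) (by omega) (by omega) (by omega) (by omega)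
  have a5 : ¬ f (6 * k + 4) (c - 2) (2 * n - 5) (2 * n - 2 * k) := by
    refine col_run_down hf (y0 := 2 * n - 2 * k) (y1 := 2 * n - 8) (by omega) (by omega) (by omega) ?_ (by omega) b5 _
      le_rfl (by omega) (by omega)
    intro y h1 h2 h3
    exact T.cov hf (t := 3) (s := 0) (j := 3) le_rfl rfl (by omega) (by omega) (by omega)
      (show 2 * n - 2 * k - 12 + 4 * 3 ≤ y by omega) (by omega) (by omega)
  -- the cell of `6 k + 6`
  have g0 := wall hf h lw C10a C8 C8a C6 C4a C2 C0 a3 a5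
  have g8 : f (6 * k + 6) (c - 2) (2 * n - 5) (2 * n - 8) := by
    refine col_run hf (y0 := 2 * n + 4 - 2 * k) (y1 := 2 * n - 8) (by omega) (by omega) (by omega) (by omega) ?_ g0 _
      (by omega) le_rfl (by omega)
    intro y h1 h2 h3
    exact T.cov hf (t := 3) (s := 1) (j := 2) le_rfl rfl (by omega) (by omega) (by omega)
      (show 2 * n - 2 * k - 12 + 4 * 3 ≤ y by omega) (by omega) (by omega)
  have i0 : ∀ x y : ℕ, 2 * n ≤ x + 5 → y + 1 ≤ x → x ≤ y + 4 → x % 2 = 1 → y % 2 = 0 → f (6 * k + 6) (c - 4) x y := by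
    intro x y h1 h2 h3 h5 h6
    exact (v0 l6 C6 (by omega) (by omega) (by omega) (by omega) (by omega)).2 (by unfold V0; omega)
  have z1 : ∀ p x y : ℕ, p ≤ 1 → 2 * n ≤ x + 5 → x + 4 ≤ 2 * n → 2 * n ≤ y + 7 → y + 6 ≤ 2 * n →
      ¬ f (6 * k + 6 + p) (c - 3) x y := by
    intro p x y hp h1 h2 h3 h5
    have h6 : f (6 * k + 6) (c - 4) (2 * n - 5) (y - (2 * n - 6 - y)) := by
      refine i0 _ _ (by omega) (by omega) (by omega) (by omega) (by omega)
    have h7 := kill hf h6 p 1 (x - (2 * n - 5)) (2 * n - 6 - y) hp le_rfl (by omega) (by omega) (by omega)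
    exact fun t => h7 (mv t rfl (by omega) (by omega) (by omega))
  have d1 : f (6 * k + 6) (c - 3) (2 * n - 6) (2 * n - 6) :=
    (v1s l6 C6 (by omega) (by omega) (by omega) (by omega) (by omega) (by omega)).2 (by unfold V1; omega)
  have g9 : ¬ f (6 * k + 6) (c - 3 + 1) (2 * n - 5) (2 * n - 8) := by
    refine step_down hf (by omega) (by omega) (by omega) (by omega) ?_ ?_ ?_ ?_ ?_
    · intro t
      exact kill hf d1 0 1 1 0 (by omega) le_rfl le_rfl (by omega) (by omega) (mv t (by omega) (by omega) (by omega) (by omega))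
    · intro t
      exact kill hf d1 1 1 1 0 le_rfl le_rfl le_rfl (by omega) (by omega) (mv t (by omega) (by omega) (by omega) (by omega))
    · exact h.pmi hf (j := 0) (by omega) (by omega) (by omega) (by omega) (by omega) (by omega)
    · refine W0.mk' fun u v hu hv => ?_
      exact fun t => z1 1 (2 * n - 5 + u) (2 * n - 7 + v) le_rfl (by omega) (by omega) (by omega) (by omega)
        (mv t rfl rfl rfl (by omega))
    · refine W0.mk' fun u v hu hv => ?_
      exact fun t => z1 0 (2 * n - 5 + u) (2 * n - 7 + v) (by omega) (by omega) (by omega) (by omega) (by omega)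
        (mv t rfl rfl rfl (by omega))
  rw [← e1] at g9
  exact g9 g8

end Pool.Agent.SNT.K3
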