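import Pool.Agent.SNT.DRunI
import Pool.Agent.SNT.LW2

set_option autoImplicit false
set_option synthInstance.maxSize 1000
set_option linter.unusedVariables false

/-! Location of the top leader (`c` is the IN row of `6 k + 10`, `n` its lead): the two lowest cells of the
columns `2 n - 3`, `2 n - 5` of `6 k + 4` in the row `c - 2`: the known ones. -/

namespace Pool.Agent.SNT.K3

open Pool.Agent.SNT Pool.Agent.SNT.Loc Pool.Agent.SNT.LW Pool.Agent.SNT.NHZ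

variable {f : ℕ → ℕ → ℕ → ℕ → Prop} {k c n : ℕ}

theorem ones (h : NHT f k c (2 * n))
    (C10a : Cw f (6 * k + 10) (c - 4) (n - (k + 2))) (C8 : Cw f (6 * k + 8) (c - 2) (n - 3))
    (C8a : Cw f (6 * k + 8) (c - 6) (n - 3 - (k + 2)))
    (C6 : Cyc f (6 * k + 6) (c - 4) (2 * (n - 5) + 2))
    (C4a : Cyc f (6 * k + 4) (c - 6) (2 * (n - 7) + 2)) (C2 : Cyc f (6 * k + 2) (c - 4) (2 * (n - 5) + 2))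
    (C0 : Cyc f (6 * k) (c - 6) (2 * (n - 7) + 2)) :
    ∀ j n' p q : ℕ, InR 12 7 11 16 1 j n' p q → (
      (j = 2 ∧ n' = 1 ∧ p = 3 ∧ q = 4) ∨ (j = 2 ∧ n' = 1 ∧ p = 4 ∧ q = 1) ∨ (j = 2 ∧ n' = 1 ∧ p = 5 ∧ q = 4) ∨ (j = 4
      ∧ n' = 3 ∧ p = 3 ∧ q = 4) ∨ (j = 4 ∧ n' = 3 ∧ p = 3 ∧ q = 6) ∨ (j = 4 ∧ n' = 3 ∧ p = 5 ∧ q = 4) ∨ (j = 4 ∧ n' =
      3 ∧ p = 5 ∧ q = 6) ∨ (j = 4 ∧ n' = 3 ∧ p = 5 ∧ q = 8) ∨ (j = 4 ∧ n' = 3 ∧ p = 8 ∧ q = 5) ∨ (j = 4 ∧ n' = 4 ∧ p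
      = 5 ∧ q = 3) ∨ (j = 4 ∧ n' = 4 ∧ p = 7 ∧ q = 5) ∨ (j = 6 ∧ n' = 1 ∧ p = 5 ∧ q = 6) ∨ (j = 6 ∧ n' = 1 ∧ p = 7 ∧
      q = 6) ∨ (j = 6 ∧ n' = 2 ∧ p = 5 ∧ q = 3) ∨ (j = 6 ∧ n' = 2 ∧ p = 7 ∧ q = 5) ∨ (j = 6 ∧ n' = 3 ∧ p = 5 ∧ q = 2)
      ∨ (j = 6 ∧ n' = 3 ∧ p = 7 ∧ q = 4) ∨ (j = 8 ∧ n' = 3 ∧ p = 3 ∧ q = 8) ∨ (j = 8 ∧ n' = 3 ∧ p = 5 ∧ q = 6) ∨ (j =
      8 ∧ n' = 3 ∧ p = 5 ∧ q = 8) ∨ (j = 8 ∧ n' = 3 ∧ p = 5 ∧ q = 10) ∨ (j = 8 ∧ n' = 3 ∧ p = 5 ∧ q = 12) ∨ (j = 8 ∧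
      n' = 3 ∧ p = 7 ∧ q = 6) ∨ (j = 8 ∧ n' = 3 ∧ p = 7 ∧ q = 8) ∨ (j = 8 ∧ n' = 3 ∧ p = 9 ∧ q = 8) ∨ (j = 10 ∧ n' =
      3 ∧ p = 4 ∧ q = 7) ∨ (j = 10 ∧ n' = 3 ∧ p = 4 ∧ q = 9) ∨ (j = 10 ∧ n' = 3 ∧ p = 4 ∧ q = 11) ∨ (j = 10 ∧ n' = 5
      ∧ p = 7 ∧ q = 6) ∨ (j = 10 ∧ n' = 5 ∧ p = 7 ∧ q = 8) ∨ (j = 10 ∧ n' = 5 ∧ p = 7 ∧ q = 10) ∨ (j = 10 ∧ n' = 5 ∧
      p = 7 ∧ q = 12) ∨ (j = 10 ∧ n' = 5 ∧ p = 7 ∧ q = 14) ∨ (j = 10 ∧ n' = 5 ∧ p = 9 ∧ q = 8) ∨ (j = 10 ∧ n' = 5 ∧ p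
      = 9 ∧ q = 10) ∨ (j = 12 ∧ n' = 5 ∧ p = 6 ∧ q = 9) ∨ (j = 12 ∧ n' = 5 ∧ p = 6 ∧ q = 11) ∨ (j = 12 ∧ n' = 5 ∧ p =
      6 ∧ q = 13)) →
      f ((6 * k - 2) + j) ((c - 7) + n') ((2 * n - 10) + p) ((2 * n - 8 - 2 * k) + q) := by
  have hk := h.hk
  have hc := h.hc
  have h4 := h.h4
  have hb := h.hb
  have hN := h.hN2
  have l10a : Lay (6 * k + 10) (c - 4) (k + 1) := ⟨by omega, by omega, by omega, by omega⟩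
  have l8 : Lay (6 * k + 8) (c - 2) (k + 1) := ⟨by omega, by omega, by omega, by omega⟩
  have l8a : Lay (6 * k + 8) (c - 6) (k + 1) := ⟨by omega, by omega, by omega, by omega⟩
  have l6 : Lay (6 * k + 6) (c - 4) (k + 1) := ⟨by omega, by omega, by omega, by omega⟩
  have l4a : Lay (6 * k + 4) (c - 6) k := ⟨by omega, by omega, by omega, by omega⟩
  have l2 : Lay (6 * k + 2) (c - 4) k := ⟨by omega, by omega, by omega, by omega⟩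
  have l0 : Lay (6 * k) (c - 6) k := ⟨by omega, by omega, by omega, by omega⟩
  have F0 : ∀ p q : ℕ, (3 ≤ p ∧ p ≤ 5 ∧ 4 ≤ q ∧ q ≤ 4 ∧ q + 19 ≤ p + 20 ∧ p + 20 ≤ q + 21 ∧ p % 2 = 1 ∧ q % 2 = 0) →
      f ((6 * k - 2) + 2) ((c - 7) + 1) ((2 * n - 10) + p) ((2 * n - 8 - 2 * k) + q) := by
    intro p q hh
    exact (v0 l0 C0 (by omega) (by omega) (by omega) (by omega) (by omega)).2 (by unfold V0; omega)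
  have F1 : ∀ p q : ℕ, (4 ≤ p ∧ p ≤ 4 ∧ 1 ≤ q ∧ q ≤ 1 ∧ q + 23 ≤ p + 20 ∧ p + 20 ≤ q + 23 ∧ p % 2 = 0 ∧ q % 2 = 1) →
      f ((6 * k - 2) + 2) ((c - 7) + 1) ((2 * n - 10) + p) ((2 * n - 8 - 2 * k) + q) := by
    intro p q hh
    exact (v0 l0 C0 (by omega) (by omega) (by omega) (by omega) (by omega)).2 (by unfold V0; omega)
  have F2 : ∀ p q : ℕ, (3 ≤ p ∧ p ≤ 5 ∧ 4 ≤ q ∧ q ≤ 8 ∧ q + 17 ≤ p + 20 ∧ p + 20 ≤ q + 21 ∧ p % 2 = 1 ∧ q % 2 = 0) →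
      f ((6 * k - 2) + 4) ((c - 7) + 3) ((2 * n - 10) + p) ((2 * n - 8 - 2 * k) + q) := by
    intro p q hh
    exact (v0 l2 C2 (by omega) (by omega) (by omega) (by omega) (by omega)).2 (by unfold V0; omega)
  have F3 : ∀ p q : ℕ, (8 ≤ p ∧ p ≤ 8 ∧ 5 ≤ q ∧ q ≤ 5 ∧ q + 23 ≤ p + 20 ∧ p + 20 ≤ q + 23 ∧ p % 2 = 0 ∧ q % 2 = 1) →
      f ((6 * k - 2) + 4) ((c - 7) + 3) ((2 * n - 10) + p) ((2 * n - 8 - 2 * k) + q) := by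
    intro p q hh
    exact (v0 l2 C2 (by omega) (by omega) (by omega) (by omega) (by omega)).2 (by unfold V0; omega)
  have F4 : ∀ p q : ℕ, (5 ≤ p ∧ p ≤ 7 ∧ 3 ≤ q ∧ q ≤ 5 ∧ q + 22 ≤ p + 20 ∧ p + 20 ≤ q + 22 ∧ p % 2 = 1 ∧ q % 2 = 1) →
      f ((6 * k - 2) + 4) ((c - 7) + 4) ((2 * n - 10) + p) ((2 * n - 8 - 2 * k) + q) := by
    intro p q hh
    exact (v1 l2 C2 (by omega) (by omega) (by omega) (by omega) (by omega)).2 (by unfold V1; omega)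
  have F5 : ∀ p q : ℕ, (5 ≤ p ∧ p ≤ 7 ∧ 6 ≤ q ∧ q ≤ 6 ∧ q + 19 ≤ p + 20 ∧ p + 20 ≤ q + 21 ∧ p % 2 = 1 ∧ q % 2 = 0) →
      f ((6 * k - 2) + 6) ((c - 7) + 1) ((2 * n - 10) + p) ((2 * n - 8 - 2 * k) + q) := by
    intro p q hh
    exact (v0 l4a C4a (by omega) (by omega) (by omega) (by omega) (by omega)).2 (by unfold V0; omega)
  have F6 : ∀ p q : ℕ, (5 ≤ p ∧ p ≤ 7 ∧ 3 ≤ q ∧ q ≤ 5 ∧ q + 22 ≤ p + 20 ∧ p + 20 ≤ q + 22 ∧ p % 2 = 1 ∧ q % 2 = 1) →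
      f ((6 * k - 2) + 6) ((c - 7) + 2) ((2 * n - 10) + p) ((2 * n - 8 - 2 * k) + q) := by
    intro p q hh
    exact (v1 l4a C4a (by omega) (by omega) (by omega) (by omega) (by omega)).2 (by unfold V1; omega)
  have F7 : ∀ p q : ℕ, (5 ≤ p ∧ p ≤ 7 ∧ 2 ≤ q ∧ q ≤ 4 ∧ q + 23 ≤ p + 20 ∧ p + 20 ≤ q + 23 ∧ p % 2 = 1 ∧ q % 2 = 0) →
      f ((6 * k - 2) + 6) ((c - 7) + 3) ((2 * n - 10) + p) ((2 * n - 8 - 2 * k) + q) := by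
    intro p q hh
    exact (v2x l4a C4a (by omega) (by omega) (by omega) (by omega) (by omega) (by omega)).2 (by unfold V2; omega)
  have F8 : ∀ p q : ℕ, (3 ≤ p ∧ p ≤ 9 ∧ 6 ≤ q ∧ q ≤ 12 ∧ q + 13 ≤ p + 20 ∧ p + 20 ≤ q + 21 ∧ p % 2 = 1 ∧ q % 2 = 0) →
      f ((6 * k - 2) + 8) ((c - 7) + 3) ((2 * n - 10) + p) ((2 * n - 8 - 2 * k) + q) := by
    intro p q hh
    exact (v0 l6 C6 (by omega) (by omega) (by omega) (by omega) (by omega)).2 (by unfold V0; omega)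
  have F9 : ∀ p q : ℕ, (4 ≤ p ∧ p ≤ 4 ∧ 7 ≤ q ∧ q ≤ 11 ∧ q + 13 ≤ p + 20 ∧ p + 20 ≤ q + 17 ∧ p % 2 = 0 ∧ q % 2 = 1) →
      f ((6 * k - 2) + 10) ((c - 7) + 3) ((2 * n - 10) + p) ((2 * n - 8 - 2 * k) + q) := by
    intro p q hh
    exact (w2s l8a C8a (by omega) (by omega) (by omega) (by omega) (by omega) (by omega)).2 (by unfold V2; omega)
  have F10 : ∀ p q : ℕ, (7 ≤ p ∧ p ≤ 9 ∧ 6 ≤ q ∧ q ≤ 14 ∧ q + 13 ≤ p + 20 ∧ p + 20 ≤ q + 21 ∧ p % 2 = 1 ∧ q % 2 = 0) →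
      f ((6 * k - 2) + 10) ((c - 7) + 5) ((2 * n - 10) + p) ((2 * n - 8 - 2 * k) + q) := by
    intro p q hh
    exact (w0 l8 C8 (by omega) (by omega) (by omega) (by omega) (by omega) (by omega)).2 (by unfold V0; omega)
  have F11 : ∀ p q : ℕ, (6 ≤ p ∧ p ≤ 6 ∧ 9 ≤ q ∧ q ≤ 13 ∧ q + 13 ≤ p + 20 ∧ p + 20 ≤ q + 17 ∧ p % 2 = 0 ∧ q % 2 = 1) →
      f ((6 * k - 2) + 12) ((c - 7) + 5) ((2 * n - 10) + p) ((2 * n - 8 - 2 * k) + q) := by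
    intro p q hh
    exact (w2s l10a C10a (by omega) (by omega) (by omega) (by omega) (by omega) (by omega)).2 (by unfold V2; omega)
  intro j n' p q _ hx
  rcases hx with
      ⟨rfl, rfl, rfl, rfl⟩ | ⟨rfl, rfl, rfl, rfl⟩ | ⟨rfl, rfl, rfl, rfl⟩ | ⟨rfl, rfl, rfl, rfl⟩ | ⟨rfl, rfl, rfl,
      rfl⟩ | ⟨rfl, rfl, rfl, rfl⟩ | ⟨rfl, rfl, rfl, rfl⟩ | ⟨rfl, rfl, rfl, rfl⟩ | ⟨rfl, rfl, rfl, rfl⟩ | ⟨rfl, rfl,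
      rfl, rfl⟩ | ⟨rfl, rfl, rfl, rfl⟩ | ⟨rfl, rfl, rfl, rfl⟩ | ⟨rfl, rfl, rfl, rfl⟩ | ⟨rfl, rfl, rfl, rfl⟩ | ⟨rfl,
      rfl, rfl, rfl⟩ | ⟨rfl, rfl, rfl, rfl⟩ | ⟨rfl, rfl, rfl, rfl⟩ | ⟨rfl, rfl, rfl, rfl⟩ | ⟨rfl, rfl, rfl, rfl⟩ |
      ⟨rfl, rfl, rfl, rfl⟩ | ⟨rfl, rfl, rfl, rfl⟩ | ⟨rfl, rfl, rfl, rfl⟩ | ⟨rfl, rfl, rfl, rfl⟩ | ⟨rfl, rfl, rfl,
      rfl⟩ | ⟨rfl, rfl, rfl, rfl⟩ | ⟨rfl, rfl, rfl, rfl⟩ | ⟨rfl, rfl, rfl, rfl⟩ | ⟨rfl, rfl, rfl, rfl⟩ | ⟨rfl, rfl,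
      rfl, rfl⟩ | ⟨rfl, rfl, rfl, rfl⟩ | ⟨rfl, rfl, rfl, rfl⟩ | ⟨rfl, rfl, rfl, rfl⟩ | ⟨rfl, rfl, rfl, rfl⟩ | ⟨rfl,
      rfl, rfl, rfl⟩ | ⟨rfl, rfl, rfl, rfl⟩ | ⟨rfl, rfl, rfl, rfl⟩ | ⟨rfl, rfl, rfl, rfl⟩ | ⟨rfl, rfl, rfl, rfl⟩
  · exact F0 3 4 (by decide)
  · exact F1 4 1 (by decide)
  · exact F0 5 4 (by decide)
  · exact F2 3 4 (by decide)
  · exact F2 3 6 (by decide)
  · exact F2 5 4 (by decide)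
  · exact F2 5 6 (by decide)
  · exact F2 5 8 (by decide)
  · exact F3 8 5 (by decide)
  · exact F4 5 3 (by decide)
  · exact F4 7 5 (by decide)
  · exact F5 5 6 (by decide)
  · exact F5 7 6 (by decide)
  · exact F6 5 3 (by decide)
  · exact F6 7 5 (by decide)
  · exact F7 5 2 (by decide)
  · exact F7 7 4 (by decide)
  · exact F8 3 8 (by decide)
  · exact F8 5 6 (by decide)
  · exact F8 5 8 (by decide)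
  · exact F8 5 10 (by decide)
  · exact F8 5 12 (by decide)
  · exact F8 7 6 (by decide)
  · exact F8 7 8 (by decide)
  · exact F8 9 8 (by decide)
  · exact F9 4 7 (by decide)
  · exact F9 4 9 (by decide)
  · exact F9 4 11 (by decide)
  · exact F10 7 6 (by decide)
  · exact F10 7 8 (by decide)
  · exact F10 7 10 (by decide)
  · exact F10 7 12 (by decide)
  · exact F10 7 14 (by decide)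
  · exact F10 9 8 (by decide)
  · exact F10 9 10 (by decide)
  · exact F11 6 9 (by decide)
  · exact F11 6 11 (by decide)
  · exact F11 6 13 (by decide)

end Pool.Agent.SNT.K3
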