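import Pool.Agent.SNT.DRunI
import Pool.Agent.SNT.LW2

set_option autoImplicit false
set_option synthInstance.maxSize 1000
set_option linter.unusedVariables false

/-! Location of the top leader (`c` is the IN row of `6 k + 10`, `n` its lead): the two lowest cells of the
columns `2 n - 3`, `2 n - 5` of `6 k + 4` in the row `c - 2`: the known zeros. -/

namespace Pool.Agent.SNT.K3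

open Pool.Agent.SNT Pool.Agent.SNT.Loc Pool.Agent.SNT.LW Pool.Agent.SNT.NHZ

variable {f : ℕ → ℕ → ℕ → ℕ → Prop} {k c n : ℕ}

theorem zeros (hf : Rule f) (h : NHT f k c (2 * n))
    (lw : ∀ R x y : ℕ, c ≤ R + 4 → R + 2 ≤ c → 2 * n ≤ x + 9 → x + 5 ≤ 2 * n → y ≤ x → x ≤ y + 2 * k → ¬ f (6 * k - 1) R x y)
    (C10a : Cw f (6 * k + 10) (c - 4) (n - (k + 2))) (C8 : Cw f (6 * k + 8) (c - 2) (n - 3))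
    (C8a : Cw f (6 * k + 8) (c - 6) (n - 3 - (k + 2)))
    (C6 : Cyc f (6 * k + 6) (c - 4) (2 * (n - 5) + 2))
    (C4a : Cyc f (6 * k + 4) (c - 6) (2 * (n - 7) + 2)) (C2 : Cyc f (6 * k + 2) (c - 4) (2 * (n - 5) + 2))
    (C0 : Cyc f (6 * k) (c - 6) (2 * (n - 7) + 2))
    (h3 : ¬ f (6 * k + 4) (c - 2) (2 * n - 3) (2 * n + 2 - 2 * k)) (h5 : ¬ f (6 * k + 4) (c - 2) (2 * n - 5) (2 * n - 2 * k))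
    (hX : ¬ f (6 * k + 6) (c - 2) (2 * n - 5) (2 * n + 4 - 2 * k)) :
    ∀ j n' p q : ℕ, InR 12 7 11 16 1 j n' p q → (
      (j = 1 ∧ n' = 3 ∧ p = 1 ∧ q = 4) ∨ (j = 1 ∧ n' = 3 ∧ p = 1 ∧ q = 5) ∨ (j = 1 ∧ n' = 3 ∧ p = 2 ∧ q = 3) ∨ (j = 1
      ∧ n' = 3 ∧ p = 2 ∧ q = 5) ∨ (j = 1 ∧ n' = 3 ∧ p = 3 ∧ q = 3) ∨ (j = 1 ∧ n' = 4 ∧ p = 1 ∧ q = 4) ∨ (j = 1 ∧ n' =
      4 ∧ p = 1 ∧ q = 5) ∨ (j = 1 ∧ n' = 4 ∧ p = 2 ∧ q = 3) ∨ (j = 1 ∧ n' = 4 ∧ p = 2 ∧ q = 4) ∨ (j = 1 ∧ n' = 4 ∧ p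
      = 2 ∧ q = 5) ∨ (j = 1 ∧ n' = 4 ∧ p = 2 ∧ q = 6) ∨ (j = 1 ∧ n' = 4 ∧ p = 2 ∧ q = 7) ∨ (j = 1 ∧ n' = 4 ∧ p = 3 ∧
      q = 3) ∨ (j = 1 ∧ n' = 4 ∧ p = 3 ∧ q = 4) ∨ (j = 1 ∧ n' = 4 ∧ p = 3 ∧ q = 5) ∨ (j = 1 ∧ n' = 4 ∧ p = 3 ∧ q = 6)
      ∨ (j = 1 ∧ n' = 4 ∧ p = 3 ∧ q = 7) ∨ (j = 1 ∧ n' = 4 ∧ p = 4 ∧ q = 4) ∨ (j = 1 ∧ n' = 4 ∧ p = 4 ∧ q = 5) ∨ (j =
      1 ∧ n' = 4 ∧ p = 4 ∧ q = 6) ∨ (j = 1 ∧ n' = 4 ∧ p = 4 ∧ q = 7) ∨ (j = 1 ∧ n' = 4 ∧ p = 5 ∧ q = 4) ∨ (j = 1 ∧ n'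
      = 4 ∧ p = 5 ∧ q = 5) ∨ (j = 1 ∧ n' = 5 ∧ p = 1 ∧ q = 4) ∨ (j = 1 ∧ n' = 5 ∧ p = 1 ∧ q = 5) ∨ (j = 1 ∧ n' = 5 ∧
      p = 2 ∧ q = 3) ∨ (j = 1 ∧ n' = 5 ∧ p = 2 ∧ q = 4) ∨ (j = 1 ∧ n' = 5 ∧ p = 2 ∧ q = 5) ∨ (j = 1 ∧ n' = 5 ∧ p = 2
      ∧ q = 6) ∨ (j = 1 ∧ n' = 5 ∧ p = 2 ∧ q = 7) ∨ (j = 1 ∧ n' = 5 ∧ p = 3 ∧ q = 3) ∨ (j = 1 ∧ n' = 5 ∧ p = 3 ∧ q =
      4) ∨ (j = 1 ∧ n' = 5 ∧ p = 3 ∧ q = 5) ∨ (j = 1 ∧ n' = 5 ∧ p = 3 ∧ q = 6) ∨ (j = 1 ∧ n' = 5 ∧ p = 3 ∧ q = 7) ∨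
      (j = 1 ∧ n' = 5 ∧ p = 4 ∧ q = 4) ∨ (j = 1 ∧ n' = 5 ∧ p = 4 ∧ q = 5) ∨ (j = 1 ∧ n' = 5 ∧ p = 4 ∧ q = 6) ∨ (j = 1
      ∧ n' = 5 ∧ p = 4 ∧ q = 7) ∨ (j = 1 ∧ n' = 5 ∧ p = 5 ∧ q = 4) ∨ (j = 1 ∧ n' = 5 ∧ p = 5 ∧ q = 5) ∨ (j = 2 ∧ n' =
      2 ∧ p = 2 ∧ q = 4) ∨ (j = 2 ∧ n' = 2 ∧ p = 2 ∧ q = 5) ∨ (j = 3 ∧ n' = 4 ∧ p = 3 ∧ q = 6) ∨ (j = 3 ∧ n' = 4 ∧ p
      = 3 ∧ q = 7) ∨ (j = 3 ∧ n' = 4 ∧ p = 4 ∧ q = 7) ∨ (j = 5 ∧ n' = 5 ∧ p = 6 ∧ q = 8) ∨ (j = 6 ∧ n' = 4 ∧ p = 5 ∧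
      q = 7) ∨ (j = 6 ∧ n' = 4 ∧ p = 5 ∧ q = 8) ∨ (j = 6 ∧ n' = 4 ∧ p = 6 ∧ q = 8) ∨ (j = 6 ∧ n' = 4 ∧ p = 7 ∧ q = 9)
      ∨ (j = 6 ∧ n' = 4 ∧ p = 7 ∧ q = 10) ∨ (j = 6 ∧ n' = 4 ∧ p = 8 ∧ q = 9) ∨ (j = 6 ∧ n' = 4 ∧ p = 8 ∧ q = 10) ∨ (j
      = 6 ∧ n' = 5 ∧ p = 5 ∧ q = 8) ∨ (j = 6 ∧ n' = 5 ∧ p = 7 ∧ q = 10) ∨ (j = 7 ∧ n' = 4 ∧ p = 4 ∧ q = 7) ∨ (j = 7 ∧
      n' = 4 ∧ p = 5 ∧ q = 6) ∨ (j = 7 ∧ n' = 4 ∧ p = 5 ∧ q = 7) ∨ (j = 7 ∧ n' = 4 ∧ p = 6 ∧ q = 8) ∨ (j = 7 ∧ n' = 4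
      ∧ p = 7 ∧ q = 9) ∨ (j = 7 ∧ n' = 4 ∧ p = 7 ∧ q = 10) ∨ (j = 7 ∧ n' = 4 ∧ p = 8 ∧ q = 9) ∨ (j = 7 ∧ n' = 4 ∧ p =
      8 ∧ q = 10) ∨ (j = 7 ∧ n' = 5 ∧ p = 6 ∧ q = 8) ∨ (j = 7 ∧ n' = 5 ∧ p = 7 ∧ q = 8) ∨ (j = 7 ∧ n' = 5 ∧ p = 7 ∧ q
      = 10) ∨ (j = 7 ∧ n' = 5 ∧ p = 8 ∧ q = 10) ∨ (j = 8 ∧ n' = 5 ∧ p = 5 ∧ q = 12) ∨ (j = 10 ∧ n' = 4 ∧ p = 5 ∧ q =
      13)) →
      ¬ f ((6 * k - 2) + j) ((c - 7) + n') ((2 * n - 10) + p) ((2 * n - 8 - 2 * k) + q) := by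
  have hk := h.hk
  have hc := h.hc
  have h4 := h.h4
  have hb := h.hb
  have hN := h.hN2
  have l8a : Lay (6 * k + 8) (c - 6) (k + 1) := ⟨by omega, by omega, by omega, by omega⟩
  have Z0 : ∀ p q : ℕ, (1 ≤ p ∧ p ≤ 3 ∧ 3 ≤ q ∧ q ≤ 5 ∧ q + 16 ≤ p + 20 ∧ p + 20 ≤ q + 20) →
      ¬ f ((6 * k - 2) + 1) ((c - 7) + 3) ((2 * n - 10) + p) ((2 * n - 8 - 2 * k) + q) := by
    intro p q hh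
    exact fun t => lw (c - 4) (2 * n - 10 + p) (2 * n - 8 - 2 * k + q) (by omega) (by omega) (by omega) (by omega) (by omega) (by omega) (mv t (by omega) (by omega) (by omega) (by omega))
  have Z1 : ∀ p q : ℕ, (1 ≤ p ∧ p ≤ 5 ∧ 3 ≤ q ∧ q ≤ 7 ∧ q + 15 ≤ p + 20 ∧ p + 20 ≤ q + 21) →
      ¬ f ((6 * k - 2) + 1) ((c - 7) + 4) ((2 * n - 10) + p) ((2 * n - 8 - 2 * k) + q) := by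
    intro p q hh
    exact fun t => lw (c - 3) (2 * n - 10 + p) (2 * n - 8 - 2 * k + q) (by omega) (by omega) (by omega) (by omega) (by omega) (by omega) (mv t (by omega) (by omega) (by omega) (by omega))
  have Z2 : ∀ p q : ℕ, (1 ≤ p ∧ p ≤ 5 ∧ 3 ≤ q ∧ q ≤ 7 ∧ q + 15 ≤ p + 20 ∧ p + 20 ≤ q + 21) →
      ¬ f ((6 * k - 2) + 1) ((c - 7) + 5) ((2 * n - 10) + p) ((2 * n - 8 - 2 * k) + q) := by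
    intro p q hh
    exact fun t => lw (c - 2) (2 * n - 10 + p) (2 * n - 8 - 2 * k + q) (by omega) (by omega) (by omega) (by omega) (by omega) (by omega) (mv t (by omega) (by omega) (by omega) (by omega))
  have Z3 : ∀ p q : ℕ, (2 ≤ p ∧ p ≤ 2 ∧ 4 ≤ q ∧ q ≤ 5 ∧ q + 17 ≤ p + 20 ∧ p + 20 ≤ q + 18) →
      ¬ f ((6 * k - 2) + 2) ((c - 7) + 2) ((2 * n - 10) + p) ((2 * n - 8 - 2 * k) + q) := by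
    intro p q hh
    exact h.rIn hf (t := 2) (j := 2) (p := 0) (by omega) (by omega) (by omega) (by omega) (by omega) (by omega) (by omega) (by omega)
  have Z4 : ∀ p q : ℕ, (3 ≤ p ∧ p ≤ 4 ∧ 6 ≤ q ∧ q ≤ 7 ∧ q + 16 ≤ p + 20 ∧ p + 20 ≤ q + 17) →
      ¬ f ((6 * k - 2) + 3) ((c - 7) + 4) ((2 * n - 10) + p) ((2 * n - 8 - 2 * k) + q) := by
    intro p q hh
    exact h.rIn hf (t := 3) (j := 3) (p := 1) (by omega) (by omega) (by omega) (by omega) (by omega) (by omega) (by omega) (by omega)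
  have Z5 : ∀ p q : ℕ, (6 ≤ p ∧ p ≤ 6 ∧ 8 ≤ q ∧ q ≤ 8 ∧ q + 18 ≤ p + 20 ∧ p + 20 ≤ q + 18 ∧ p % 2 = 0 ∧ q % 2 = 0) →
      ¬ f ((6 * k - 2) + 5) ((c - 7) + 5) ((2 * n - 10) + p) ((2 * n - 8 - 2 * k) + q) := by
    intro p q hh
    exact h.pmi hf (j := 2) (by omega) (by omega) (by omega) (by omega) (by omega) (by omega)
  have Z6 : ∀ p q : ℕ, (5 ≤ p ∧ p ≤ 8 ∧ 7 ≤ q ∧ q ≤ 10 ∧ q + 17 ≤ p + 20 ∧ p + 20 ≤ q + 19) →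
      ¬ f ((6 * k - 2) + 6) ((c - 7) + 4) ((2 * n - 10) + p) ((2 * n - 8 - 2 * k) + q) := by
    intro p q hh
    exact h.rIn hf (t := 3) (j := 1) (p := 0) (by omega) (by omega) (by omega) (by omega) (by omega) (by omega) (by omega) (by omega)
  have Z7 : ∀ p q : ℕ, (4 ≤ p ∧ p ≤ 8 ∧ 6 ≤ q ∧ q ≤ 10 ∧ q + 17 ≤ p + 20 ∧ p + 20 ≤ q + 19) →
      ¬ f ((6 * k - 2) + 7) ((c - 7) + 4) ((2 * n - 10) + p) ((2 * n - 8 - 2 * k) + q) := by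
    intro p q hh
    exact h.rIn hf (t := 3) (j := 1) (p := 1) (by omega) (by omega) (by omega) (by omega) (by omega) (by omega) (by omega) (by omega)
  have Z8 : ∀ p q : ℕ, (6 ≤ p ∧ p ≤ 8 ∧ 8 ≤ q ∧ q ≤ 10 ∧ q + 17 ≤ p + 20 ∧ p + 20 ≤ q + 19) →
      ¬ f ((6 * k - 2) + 7) ((c - 7) + 5) ((2 * n - 10) + p) ((2 * n - 8 - 2 * k) + q) := by
    intro p q hh
    exact h.pmi hf (j := 1) (by omega) (by omega) (by omega) (by omega) (by omega) (by omega)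
  have Z9 : ∀ p q : ℕ, (5 ≤ p ∧ p ≤ 5 ∧ 13 ≤ q ∧ q ≤ 13 ∧ q + 12 ≤ p + 20 ∧ p + 20 ≤ q + 12 ∧ p % 2 = 1 ∧ q % 2 = 1) →
      ¬ f ((6 * k - 2) + 10) ((c - 7) + 4) ((2 * n - 10) + p) ((2 * n - 8 - 2 * k) + q) := by
    intro p q hh
    exact fun t => absurd ((w3s l8a C8a (by omega) (by omega) (by omega) (by omega) (by omega) (by omega)).1 t) (by unfold V3; omega)
  intro j n' p q _ hx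
  rcases hx with
      ⟨rfl, rfl, rfl, rfl⟩ | ⟨rfl, rfl, rfl, rfl⟩ | ⟨rfl, rfl, rfl, rfl⟩ | ⟨rfl, rfl, rfl, rfl⟩ | ⟨rfl, rfl, rfl,
      rfl⟩ | ⟨rfl, rfl, rfl, rfl⟩ | ⟨rfl, rfl, rfl, rfl⟩ | ⟨rfl, rfl, rfl, rfl⟩ | ⟨rfl, rfl, rfl, rfl⟩ | ⟨rfl, rfl,
      rfl, rfl⟩ | ⟨rfl, rfl, rfl, rfl⟩ | ⟨rfl, rfl, rfl, rfl⟩ | ⟨rfl, rfl, rfl, rfl⟩ | ⟨rfl, rfl, rfl, rfl⟩ | ⟨rfl,
      rfl, rfl, rfl⟩ | ⟨rfl, rfl, rfl, rfl⟩ | ⟨rfl, rfl, rfl, rfl⟩ | ⟨rfl, rfl, rfl, rfl⟩ | ⟨rfl, rfl, rfl, rfl⟩ |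
      ⟨rfl, rfl, rfl, rfl⟩ | ⟨rfl, rfl, rfl, rfl⟩ | ⟨rfl, rfl, rfl, rfl⟩ | ⟨rfl, rfl, rfl, rfl⟩ | ⟨rfl, rfl, rfl,
      rfl⟩ | ⟨rfl, rfl, rfl, rfl⟩ | ⟨rfl, rfl, rfl, rfl⟩ | ⟨rfl, rfl, rfl, rfl⟩ | ⟨rfl, rfl, rfl, rfl⟩ | ⟨rfl, rfl,
      rfl, rfl⟩ | ⟨rfl, rfl, rfl, rfl⟩ | ⟨rfl, rfl, rfl, rfl⟩ | ⟨rfl, rfl, rfl, rfl⟩ | ⟨rfl, rfl, rfl, rfl⟩ | ⟨rfl,
      rfl, rfl, rfl⟩ | ⟨rfl, rfl, rfl, rfl⟩ | ⟨rfl, rfl, rfl, rfl⟩ | ⟨rfl, rfl, rfl, rfl⟩ | ⟨rfl, rfl, rfl, rfl⟩ |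
      ⟨rfl, rfl, rfl, rfl⟩ | ⟨rfl, rfl, rfl, rfl⟩ | ⟨rfl, rfl, rfl, rfl⟩ | ⟨rfl, rfl, rfl, rfl⟩ | ⟨rfl, rfl, rfl,
      rfl⟩ | ⟨rfl, rfl, rfl, rfl⟩ | ⟨rfl, rfl, rfl, rfl⟩ | ⟨rfl, rfl, rfl, rfl⟩ | ⟨rfl, rfl, rfl, rfl⟩ | ⟨rfl, rfl,
      rfl, rfl⟩ | ⟨rfl, rfl, rfl, rfl⟩ | ⟨rfl, rfl, rfl, rfl⟩ | ⟨rfl, rfl, rfl, rfl⟩ | ⟨rfl, rfl, rfl, rfl⟩ | ⟨rfl,
      rfl, rfl, rfl⟩ | ⟨rfl, rfl, rfl, rfl⟩ | ⟨rfl, rfl, rfl, rfl⟩ | ⟨rfl, rfl, rfl, rfl⟩ | ⟨rfl, rfl, rfl, rfl⟩ |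
      ⟨rfl, rfl, rfl, rfl⟩ | ⟨rfl, rfl, rfl, rfl⟩ | ⟨rfl, rfl, rfl, rfl⟩ | ⟨rfl, rfl, rfl, rfl⟩ | ⟨rfl, rfl, rfl,
      rfl⟩ | ⟨rfl, rfl, rfl, rfl⟩ | ⟨rfl, rfl, rfl, rfl⟩ | ⟨rfl, rfl, rfl, rfl⟩ | ⟨rfl, rfl, rfl, rfl⟩ | ⟨rfl, rfl,
      rfl, rfl⟩ | ⟨rfl, rfl, rfl, rfl⟩ | ⟨rfl, rfl, rfl, rfl⟩ | ⟨rfl, rfl, rfl, rfl⟩
  · exact Z0 1 4 (by decide)
  · exact Z0 1 5 (by decide)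
  · exact Z0 2 3 (by decide)
  · exact Z0 2 5 (by decide)
  · exact Z0 3 3 (by decide)
  · exact Z1 1 4 (by decide)
  · exact Z1 1 5 (by decide)
  · exact Z1 2 3 (by decide)
  · exact Z1 2 4 (by decide)
  · exact Z1 2 5 (by decide)
  · exact Z1 2 6 (by decide)
  · exact Z1 2 7 (by decide)
  · exact Z1 3 3 (by decide)
  · exact Z1 3 4 (by decide)
  · exact Z1 3 5 (by decide)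
  · exact Z1 3 6 (by decide)
  · exact Z1 3 7 (by decide)
  · exact Z1 4 4 (by decide)
  · exact Z1 4 5 (by decide)
  · exact Z1 4 6 (by decide)
  · exact Z1 4 7 (by decide)
  · exact Z1 5 4 (by decide)
  · exact Z1 5 5 (by decide)
  · exact Z2 1 4 (by decide)
  · exact Z2 1 5 (by decide)
  · exact Z2 2 3 (by decide)
  · exact Z2 2 4 (by decide)
  · exact Z2 2 5 (by decide)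
  · exact Z2 2 6 (by decide)
  · exact Z2 2 7 (by decide)
  · exact Z2 3 3 (by decide)
  · exact Z2 3 4 (by decide)
  · exact Z2 3 5 (by decide)
  · exact Z2 3 6 (by decide)
  · exact Z2 3 7 (by decide)
  · exact Z2 4 4 (by decide)
  · exact Z2 4 5 (by decide)
  · exact Z2 4 6 (by decide)
  · exact Z2 4 7 (by decide)
  · exact Z2 5 4 (by decide)
  · exact Z2 5 5 (by decide)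
  · exact Z3 2 4 (by decide)
  · exact Z3 2 5 (by decide)
  · exact Z4 3 6 (by decide)
  · exact Z4 3 7 (by decide)
  · exact Z4 4 7 (by decide)
  · exact Z5 6 8 (by decide)
  · exact Z6 5 7 (by decide)
  · exact Z6 5 8 (by decide)
  · exact Z6 6 8 (by decide)
  · exact Z6 7 9 (by decide)
  · exact Z6 7 10 (by decide)
  · exact Z6 8 9 (by decide)
  · exact Z6 8 10 (by decide)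
  · exact fun t => h5 (mv t (by omega) (by omega) (by omega) (by omega))
  · exact fun t => h3 (mv t (by omega) (by omega) (by omega) (by omega))
  · exact Z7 4 7 (by decide)
  · exact Z7 5 6 (by decide)
  · exact Z7 5 7 (by decide)
  · exact Z7 6 8 (by decide)
  · exact Z7 7 9 (by decide)
  · exact Z7 7 10 (by decide)
  · exact Z7 8 9 (by decide)
  · exact Z7 8 10 (by decide)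
  · exact Z8 6 8 (by decide)
  · exact Z8 7 8 (by decide)
  · exact Z8 7 10 (by decide)
  · exact Z8 8 10 (by decide)
  · exact fun t => hX (mv t (by omega) (by omega) (by omega) (by omega))
  · exact Z9 5 13 (by decide)

end Pool.Agent.SNT.K3
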