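import Pool.Agent.SNT.NWHof

set_option autoImplicit false

/-! Location of the top leader: the facts used by the local certificates of the rows `c - 1`, `c` (`c` is the IN row of
`6 k + 10`, `n` its lead), with the improved leads of the layers `6 k`, `6 k + 2`, `6 k + 4`. -/

namespace Pool.Agent.SNT.LRI

open Pool.Agent.SNT Pool.Agent.SNT.LW Pool.Agent.SNT.NHZ

variable {f : ℕ → ℕ → ℕ → ℕ → Prop} {k b m c n : ℕ}

structure LI (f : ℕ → ℕ → ℕ → ℕ → Prop) (k c n : ℕ) : Prop where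
  T : NHT f k c (2 * n)
  a0 : Cyc f (6 * k) (c - 6) (2 * (n - 7) + 2)
  a2 : Cyc f (6 * k + 2) (c - 4) (2 * (n - 5) + 2)
  a4 : Cyc f (6 * k + 4) (c - 2) (2 * (n + 1) + 2)
  a6 : Cyc f (6 * k + 6) (c - 4) (2 * (n - 5) + 2)
  a8 : Cw f (6 * k + 8) (c - 2) (n - 3)
  a10 : Cw f (6 * k + 10) c n
  b0 : Cyc f (6 * k) (c - 10) (2 * (n - 11) + 2)
  b2 : Cyc f (6 * k + 2) (c - 8) (2 * (n - 9) + 2)
  b4 : Cyc f (6 * k + 4) (c - 6) (2 * (n - 7) + 2)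
  b6 : Cyc f (6 * k + 6) (c - 8) (2 * (n - k - 7) + 2)
  b8 : Cw f (6 * k + 8) (c - 6) (n - k - 5)
  b10 : Cw f (6 * k + 10) (c - 4) (n - k - 2)
  e0 : Cyc f (6 * k) (c - 14) (2 * (n - k - 13) + 2)
  e2 : Cyc f (6 * k + 2) (c - 12) (2 * (n - k - 11) + 2)
  e4 : Cyc f (6 * k + 4) (c - 10) (2 * (n - k - 9) + 2)
  lw : ∀ M R x y : ℕ, M + 1 = 6 * k → c ≤ R + 14 → R ≤ c + 12 → 2 * n ≤ x + 60 → y ≤ x → x ≤ y + 4 * k → ¬ f M R x y
  eo : ∀ M R x y : ℕ, M = 6 * k + 1 → c ≤ R + 12 → R ≤ c + 12 → (R % 2 = 1 ∨ x % 2 = 1 ∨ y % 2 = 1) →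
    2 * n ≤ x + 58 → y + 1 ≤ x → x + 1 ≤ y + 4 * k → ¬ f M R x y

/-- `P_(6k+1)` has only cells of the type (even, even, even) -/
theorem eo_of_lw (hf : Rule f) (hk : 1 ≤ k)
    (lw : ∀ M R x y : ℕ, M + 1 = 6 * k → c ≤ R + 14 → R ≤ c + 12 → 2 * n ≤ x + 60 → y ≤ x → x ≤ y + 4 * k → ¬ f M R x y)
    {M R x y : ℕ} (hM : M = 6 * k + 1) (h1 : c ≤ R + 12) (h2 : R ≤ c + 12) (hne : R % 2 = 1 ∨ x % 2 = 1 ∨ y % 2 = 1)
    (h3 : 2 * n ≤ x + 58) (h4 : y + 1 ≤ x) (h5 : x + 1 ≤ y + 4 * k) : ¬ f M R x y := by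
  subst hM
  refine LocZ.eonly hf (A := 6 * k) (by omega) (by omega) (fun q r s hq hr hs => ?_)
  exact lw _ _ _ _ (by omega) (by omega) (by omega) (by omega) (by omega) (by omega)

theorem LI.of_stack (hf : Rule f) (hs : Side k b m) (S : Stack6 f k b m 0 0 0 0 0 1) {n : ℕ}
    (hn : n = m + 9 + (k + 2) * 4)
    (d0 : Cyc f (6 * k) (b + 16) (2 * (n - 7) + 2))
    (d2 : Cyc f (6 * k + 2) (b + 18) (2 * (n - 5) + 2))
    (d4 : Cyc f (6 * k + 4) (b + 20) (2 * (n + 1) + 2)) : LI f k (b + 22) n := by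
  have T : NHT f k (b + 22) (2 * n) := by
    subst hn
    exact NHT.of_stack hs S
  have hk := hs.1
  have hb4 : 100 * k + 1000 ≤ b := hs.2.2.2.1
  have hm : 2 * b ≤ m := hs.2.2.2.2
  have lw : ∀ M R x y : ℕ, M + 1 = 6 * k → b + 22 ≤ R + 14 → R ≤ b + 22 + 12 → 2 * n ≤ x + 60 → y ≤ x →
      x ≤ y + 4 * k → ¬ f M R x y := by
    intro M R x y hM h1 h2 h3 h4 h5
    have e : M = 6 * k - 1 := by omega
    rw [e]
    exact lw_zero hs S (i := R - b) (by omega) (by omega) (by omega) h4 (by omega)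
  exact {
    T := T
    a0 := NW.cyc_mv d0 rfl (by omega) rfl
    a2 := NW.cyc_mv d2 rfl (by omega) rfl
    a4 := NW.cyc_mv d4 rfl (by omega) rfl
    a6 := NW.cyc_mv (S.l6 4) rfl (by omega) (by omega)
    a8 := NW.cw_mv (S.l8 4) rfl (by omega) (by omega)
    a10 := NW.cw_mv (S.l10 4) rfl (by omega) (by omega)
    b0 := NW.cyc_mv (S.l0 3) rfl (by omega) (by omega)
    b2 := NW.cyc_mv (S.l2 3) rfl (by omega) (by omega)
    b4 := NW.cyc_mv (S.l4 4) rfl (by omega) (by omega)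
    b6 := NW.cyc_mv (S.l6 3) rfl (by omega) (by omega)
    b8 := NW.cw_mv (S.l8 3) rfl (by omega) (by omega)
    b10 := NW.cw_mv (S.l10 3) rfl (by omega) (by omega)
    e0 := NW.cyc_mv (S.l0 2) rfl (by omega) (by omega)
    e2 := NW.cyc_mv (S.l2 2) rfl (by omega) (by omega)
    e4 := NW.cyc_mv (S.l4 3) rfl (by omega) (by omega)
    lw := lw
    eo := fun M R x y h1 h2 h3 h4 h5 h6 h7 => eo_of_lw hf (by omega) lw h1 h2 h3 h4 h5 h6 h7 }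

end Pool.Agent.SNT.LRI
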