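import Pool.Agent.SNT.K3
import Pool.Agent.SNT.LRD

set_option autoImplicit false

/-! The pair of tips `2 n - 5`, `2 n - 3` of `6 k + 4` in the row `c - 2`, from the facts `LRI.LI`. -/

namespace Pool.Agent.SNT.LRI

open Pool.Agent.SNT Pool.Agent.SNT.LW Pool.Agent.SNT.NHZ

theorem LI.K3 {f : ℕ → ℕ → ℕ → ℕ → Prop} (hf : Rule f) {k c n : ℕ} (H : LI f k c n) :
    f (6 * k + 4) (c - 2) (2 * n - 5) (2 * n - 6) ∨ f (6 * k + 4) (c - 2) (2 * n - 3) (2 * n - 4) := by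
  have hk := H.T.hk
  have hN := H.T.hN2
  refine Pool.Agent.SNT.K3.pair hf H.T ?_ (NW.cw_mv H.b10 rfl rfl (by omega)) H.a8 (NW.cw_mv H.b8 rfl rfl (by omega)) H.a6
    (NW.cyc_mv H.b6 rfl rfl (by omega)) H.b4 (NW.cyc_mv H.e4 rfl rfl (by omega)) H.a2 H.a0
  intro R x y h1 h2 h3 h4 h5 h6
  exact H.lw (6 * k - 1) R x y (by omega) (by omega) (by omega) (by omega) h5 (by omega)

end Pool.Agent.SNT.LRI
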