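import Pool.Agent.SNT.PL

set_option autoImplicit false
set_option synthInstance.maxSize 100000
set_option synthInstance.maxHeartbeats 4000000

/-! Near the wall: an E-cell and the line `X - 1 - 2 k` of `6 k + 2` (helper85). -/

namespace Pool.Agent.SNT.L0X

open Pool.Agent.SNT Pool.Agent.SNT.Sig Pool.Agent.SNT.Loc Pool.Agent.SNT.LW Pool.Agent.SNT.NHZ Pool.Agent.SNT.DRun
open Pool.Agent.SNT.D1E Pool.Agent.SNT.PB

variable {f : ℕ → ℕ → ℕ → ℕ → Prop}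

theorem a5b_chk : check 12 8 18 18 0 0 1 1 0
    (fun j n p q => decide (((((((j = 2 ∧ n = 1 ∧ ((p + q + 0) % 2 = 0 ∧ q + 0 ≤ p ∧ (p + q + 0) % 4 = 0)))
      ∨ ((j = 2 ∧ n = 2 ∧ ((8 ≤ p) ∨ (q + 0 ≤ p) ∨ (p + 1 ≤ q ∧ 9 ≤ q)) ∧ ((((p + q + 0) % 2 = 1 ∧ p + 1 ≤ q ∧ p % 2 = 1) ∨ ((p + q + 0) % 2 = 1 ∧ q ≤ p + 1 ∧ (p + q + 1) % 4 = 0))))))
      ∨ ((j = 2 ∧ n = 3 ∧ ((10 ≤ p) ∨ (p + 1 ≤ q ∧ 11 ≤ q)) ∧ ((p + q + 0) % 2 = 0 ∧ q + 0 ≤ p ∧ (p + q + 2) % 4 = 0))))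
      ∨ (((j = 2 ∧ n = 4 ∧ 12 ≤ p ∧ ((((p + q + 0) % 2 = 1 ∧ p + 1 ≤ q ∧ p % 2 = 0) ∨ ((p + q + 0) % 2 = 1 ∧ q ≤ p + 1 ∧ (p + q + 3) % 4 = 0)))))
      ∨ ((j = 4 ∧ n = 2 ∧ 2 ≤ p ∧ ((((p + q + 0) % 2 = 1 ∧ p + 1 ≤ q ∧ p % 2 = 0) ∨ ((p + q + 0) % 2 = 1 ∧ q ≤ p + 1 ∧ (p + q + 3) % 4 = 0)))))))
      ∨ ((((j = 4 ∧ n = 3 ∧ ((4 ≤ p) ∨ (p ≤ q + 0 ∧ 3 ≤ p)) ∧ ((p + q + 0) % 2 = 0 ∧ q + 0 ≤ p ∧ (p + q + 0) % 4 = 0)))
      ∨ ((j = 4 ∧ n = 4 ∧ ((q + 0 ≤ p ∧ 6 ≤ p)) ∧ ((((p + q + 0) % 2 = 1 ∧ p + 1 ≤ q ∧ p % 2 = 1) ∨ ((p + q + 0) % 2 = 1 ∧ q ≤ p + 1 ∧ (p + q + 1) % 4 = 0))))))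
      ∨ (((j = 6 ∧ n = 5 ∧ ((14 ≤ p) ∨ (p ≤ q + 0 ∧ 13 ≤ p)) ∧ ((p + q + 0) % 2 = 0 ∧ q + 0 ≤ p ∧ (p + q + 0) % 4 = 0)))
      ∨ ((j = 6 ∧ n = 2 ∧ ((8 ≤ p) ∨ (q + 0 ≤ p) ∨ (p + 1 ≤ q ∧ 9 ≤ q)) ∧ ((((p + q + 0) % 2 = 1 ∧ p + 1 ≤ q ∧ p % 2 = 1) ∨ ((p + q + 0) % 2 = 1 ∧ q ≤ p + 1 ∧ (p + q + 1) % 4 = 0))))))))
      ∨ (((((j = 6 ∧ n = 3 ∧ ((10 ≤ p) ∨ (p + 1 ≤ q ∧ 11 ≤ q)) ∧ ((p + q + 0) % 2 = 0 ∧ q + 0 ≤ p ∧ (p + q + 2) % 4 = 0)))
      ∨ ((j = 6 ∧ n = 4 ∧ 12 ≤ p ∧ ((((p + q + 0) % 2 = 1 ∧ p + 1 ≤ q ∧ p % 2 = 0) ∨ ((p + q + 0) % 2 = 1 ∧ q ≤ p + 1 ∧ (p + q + 3) % 4 = 0))))))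
      ∨ (((j = 8 ∧ n = 3 ∧ ((2 ≤ p) ∨ (p ≤ q + 2)) ∧ ((p + q + 0) % 2 = 0 ∧ q + 2 ≤ p ∧ (p + q + 2) % 4 = 0)))
      ∨ ((j = 10 ∧ n = 4 ∧ 4 ≤ p ∧ ((p + 1 ≤ q) ∨ (6 ≤ p)) ∧ ((((p + q + 0) % 2 = 1 ∧ p ≤ q + 1 ∧ p % 2 = 0) ∨ ((p + q + 0) % 2 = 1 ∧ q + 1 ≤ p ∧ (p + q + 1) % 4 = 0)))))))
      ∨ ((((j = 10 ∧ n = 5 ∧ 5 ≤ p ∧ ((p + 1 ≤ q) ∨ (8 ≤ p)) ∧ ((p + q + 0) % 2 = 0 ∧ q + 2 ≤ p ∧ (p + q + 2) % 4 = 0)))
      ∨ ((j = 12 ∧ n = 6 ∧ 10 ≤ p ∧ ((p + 1 ≤ q) ∨ (12 ≤ p)) ∧ ((((p + q + 0) % 2 = 1 ∧ p ≤ q + 1 ∧ p % 2 = 0) ∨ ((p + q + 0) % 2 = 1 ∧ q + 1 ≤ p ∧ (p + q + 1) % 4 = 0))))))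
      ∨ (((j = 3 ∧ n = 6 ∧ p = 13 ∧ q = 15))
      ∨ ((j = 4 ∧ n = 4 ∧ p = 7 ∧ q = 12)))))))
    (fun j n p q => decide ((((((((j = 2 ∧ n = 5 ∧ ((14 ≤ p) ∨ (p ≤ q + 0 ∧ 13 ≤ p)) ∧ ¬ ((p + q + 0) % 2 = 0 ∧ q + 0 ≤ p ∧ (p + q + 0) % 4 = 0)))
      ∨ ((j = 2 ∧ n = 1 ∧ ¬ ((p + q + 0) % 2 = 0 ∧ q + 0 ≤ p ∧ (p + q + 0) % 4 = 0))))
      ∨ ((j = 2 ∧ n = 2 ∧ ((8 ≤ p) ∨ (q + 0 ≤ p) ∨ (p + 1 ≤ q ∧ 9 ≤ q)) ∧ ¬ ((((p + q + 0) % 2 = 1 ∧ p + 1 ≤ q ∧ p % 2 = 1) ∨ ((p + q + 0) % 2 = 1 ∧ q ≤ p + 1 ∧ (p + q + 1) % 4 = 0))))))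
      ∨ (((j = 2 ∧ n = 3 ∧ ((10 ≤ p) ∨ (p + 1 ≤ q ∧ 11 ≤ q)) ∧ ¬ ((p + q + 0) % 2 = 0 ∧ q + 0 ≤ p ∧ (p + q + 2) % 4 = 0)))
      ∨ ((j = 2 ∧ n = 4 ∧ 12 ≤ p ∧ ¬ ((((p + q + 0) % 2 = 1 ∧ p + 1 ≤ q ∧ p % 2 = 0) ∨ ((p + q + 0) % 2 = 1 ∧ q ≤ p + 1 ∧ (p + q + 3) % 4 = 0)))))))
      ∨ (((((j = 4 ∧ n = 3 ∧ ((4 ≤ p) ∨ (p ≤ q + 0 ∧ 3 ≤ p)) ∧ ¬ ((p + q + 0) % 2 = 0 ∧ q + 0 ≤ p ∧ (p + q + 0) % 4 = 0)))
      ∨ ((j = 4 ∧ n = 4 ∧ ((q + 0 ≤ p ∧ 6 ≤ p)) ∧ ¬ ((((p + q + 0) % 2 = 1 ∧ p + 1 ≤ q ∧ p % 2 = 1) ∨ ((p + q + 0) % 2 = 1 ∧ q ≤ p + 1 ∧ (p + q + 1) % 4 = 0))))))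
      ∨ ((j = 6 ∧ n = 5 ∧ ((14 ≤ p) ∨ (p ≤ q + 0 ∧ 13 ≤ p)) ∧ ¬ ((p + q + 0) % 2 = 0 ∧ q + 0 ≤ p ∧ (p + q + 0) % 4 = 0))))
      ∨ (((j = 6 ∧ n = 3 ∧ ((10 ≤ p) ∨ (p + 1 ≤ q ∧ 11 ≤ q)) ∧ ¬ ((p + q + 0) % 2 = 0 ∧ q + 0 ≤ p ∧ (p + q + 2) % 4 = 0)))
      ∨ ((j = 8 ∧ n = 3 ∧ ((2 ≤ p) ∨ (p ≤ q + 2)) ∧ ¬ ((p + q + 0) % 2 = 0 ∧ q + 2 ≤ p ∧ (p + q + 2) % 4 = 0))))))
      ∨ ((((((j = 10 ∧ n = 5 ∧ 5 ≤ p ∧ ((p + 1 ≤ q) ∨ (8 ≤ p)) ∧ ¬ ((p + q + 0) % 2 = 0 ∧ q + 2 ≤ p ∧ (p + q + 2) % 4 = 0)))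
      ∨ ((j = 10 ∧ n = 6 ∧ ((q + 2 ≤ p ∧ 10 ≤ p)) ∧ ¬ ((((p + q + 0) % 2 = 1 ∧ p ≤ q + 1 ∧ p % 2 = 1) ∨ ((p + q + 0) % 2 = 1 ∧ q + 1 ≤ p ∧ (p + q + 3) % 4 = 0))))))
      ∨ ((j = 1 ∧ n = 1)))
      ∨ (((j = 1 ∧ n = 2))
      ∨ ((j = 1 ∧ n = 3))))
      ∨ ((((j = 1 ∧ n = 4))
      ∨ ((j = 1 ∧ n = 5)))
      ∨ (((j = 1 ∧ n = 6))
      ∨ ((j = 3 ∧ n = 1 ∧ p + 4 ≤ q ∧ q ≤ p + 13))))))
      ∨ (((((((j = 3 ∧ n = 2 ∧ p + 4 ≤ q ∧ q ≤ p + 13))
      ∨ ((j = 2 ∧ n = 3 ∧ p + 5 ≤ q ∧ q ≤ p + 12)))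
      ∨ ((j = 3 ∧ n = 3 ∧ p + 5 ≤ q ∧ q ≤ p + 12)))
      ∨ (((j = 5 ∧ n = 3 ∧ p + 4 ≤ q ∧ q ≤ p + 13))
      ∨ ((j = 7 ∧ n = 3 ∧ 5 ≤ p ∧ p + 1 ≤ q ∧ q ≤ p + 14))))
      ∨ (((((j = 3 ∧ n = 4 ∧ 3 ≤ p ∧ p + 5 ≤ q ∧ q ≤ p + 12))
      ∨ ((j = 5 ∧ n = 4 ∧ 3 ≤ p ∧ p + 4 ≤ q ∧ q ≤ p + 13)))
      ∨ ((j = 7 ∧ n = 4 ∧ 5 ≤ p ∧ p + 1 ≤ q ∧ q ≤ p + 14)))
      ∨ (((j = 2 ∧ n = 5 ∧ 4 ≤ p ∧ p + 6 ≤ q ∧ q ≤ p + 11))
      ∨ ((j = 4 ∧ n = 5 ∧ 4 ≤ p ∧ p + 5 ≤ q ∧ q ≤ p + 12)))))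
      ∨ ((((((j = 6 ∧ n = 5 ∧ 4 ≤ p ∧ p + 4 ≤ q ∧ q ≤ p + 13))
      ∨ ((j = 7 ∧ n = 5 ∧ 11 ≤ p ∧ p + 2 ≤ q ∧ q ≤ p + 13)))
      ∨ ((j = 8 ∧ n = 5 ∧ 6 ≤ p ∧ p + 1 ≤ q ∧ q ≤ p + 14)))
      ∨ (((j = 9 ∧ n = 5 ∧ 6 ≤ p ∧ p + 1 ≤ q ∧ q ≤ p + 14))
      ∨ ((j = 11 ∧ n = 5 ∧ 6 ≤ p ∧ p ≤ q + 0))))
      ∨ ((((j = 7 ∧ n = 6 ∧ 11 ≤ p ∧ p + 2 ≤ q ∧ q ≤ p + 13))
      ∨ ((j = 9 ∧ n = 6 ∧ 11 ≤ p ∧ p + 1 ≤ q ∧ q ≤ p + 14)))
      ∨ (((j = 11 ∧ n = 6 ∧ 11 ≤ p ∧ p ≤ q + 0))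
      ∨ ((j = 2 ∧ n = 6 ∧ p = 3 ∧ q = 10))))))))
    985
    0x1205850cec00120e920cf59a1d8f03229f80229e8027afc227af4a1d8f03229f00229f041d8f0322a80027b8ca2296002296041365801365810e43001353ca0ce2030d8d000d969a0c48800d95800cf43a0d9e920cfd000e4a000da8ba0e4a8a0e4b000e4b8a0e4c000d97000e4c8a0e39aa0e3a000e3a040d9e830e41000e41040e3a830d8e800d8e8427af831d86001d860421488321f38021f384173b031ced001ced040d9e830d9f000d9f04173b031ced001d98ba1876001876010e4c000e4c8a1353801353841ced031ced801ced8411fb830cd9000cd9042cbf852cb60031d8d231cf5227ae8027ae840cfd030d9f800d9f840e15030e1e000e27120e30000e3004173b0317dd8017dd840e3a03134a00134a0417038311e98011e9810d7b800d7b8411588311fb0011fb0417158311fb8011fb840da0030e42000e4204187f831d8f801d8f840ce3030d8e000d8e0421520321f40021f4041d988317d40017d4040e55031365001365040c48830ceb000ceb0411fc050ce28011fc8a0cec1a0cda000cda0417e6831cf6801cf684173b0317dd0017dd040ce2830d84800d8484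0ce30311f30011f3040ce20311f20011f204266183213f00213f040d86030d8f000d8f040b94030c36800c36843c0a0331e10031e18a27b80027b8040e43031353001353040e4c83135c80135c840cd90311e90011e9042b8d032c2f002c2f0417e58017e581173100173101171f000e440017c1aa0e4d120cf6800da1b20e4d030d98800d988427c2031d98801d98840cda030d7c000d7c041c42031ce4001ce4040e4d03135d00135d040ce4030ced000cf69a0da1800da1840cf5800cf5841c2f831c38801c390a120f80120f810cf5800cff1a0ced0011fdca0cdb000cdb040cd00311e00011e0040cc8030d6a000d6a04171f0317c10017c10417440317e68017e6842c2f03313f00313f040cff030da1000da1040e3a83134a80134a840e4c03135c00135c0417290317cb0017cb040ce28311f28011f2840e56000e5f9a0d09000d12120d08000db3320d08030daa000daa04120e830cec000d97320e39000e390411d7830cb5000cbe9a0d69800d698417310317d38017d3842658831c2f001c2f8a17c18017c1840dbb800dbb810d07000d07010c52800c52810b9e000b9e010b8c000b8c8a0dbc030d10000d07800d10010d07810c5b800c5b810ba7000ba7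010b950010a5ca0b83000b83042658831c2f001c2f8a120e80120e840e5e800d05800cf2800e681a0d05810c59800c51000cf2810c46800c3e00412380364e0035ac802aea00220f00216d80216300215b80215a8020c18020ae80202880202000173980170d0016980016850016720015e48015e38015d18015be801378800d23000d1b800d1a800d18800c81800c6e800c64000be0000bce000bcd000bbc000bbb000bba000bb8000baf800c59810bad800ba9000ba8000c51010ba5000b9c800c46810b9a800b96000c3e010b92000b89800afb000ae80041238f3c01073b5f0736f987365807365787364f07364e87364e0f35ac8f31e18731d88731d80731cf8731cf0731ce8731c60731c587313f87313687313607312d87312d07312c873124073123872cc8872cb5872c2f872c26872c26072c1d872c1d072c1c872c14072c13872b83872aeb072aea872aea0f2ae2072ae18727c20727b90727b88727af8727af0727a68727a60727a587272007271707271687270d87270d07270487270407270387267407266187266107265887265807264f87264f0725d20725bf8725bf0725b68725b60725ad8725ad0722a887229687229587221007220f87220f0f22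070722068722060721f487216d8f21630f215b8f215a8f215187213f8720c18f20b00720af8720af0720ae8f20a70720a68720a607209d87209d0720288f20200f1c39071c30071c2f871c26871c26071b97071b8e071b8d871b84871b840718888718768718758717b887174487174387174307173a0717398f173187173087171f87171e87170d0f170c8716fa8716a20716a18716990716988716980f169007168f87168f07168e8716870716868716860716858716850f167e07167d87167d07167c8716748716740716738716730716720f166a87166a0716618716610716588716580715e48f15e38f15d18f15be8f13788f12100712068711fd8711fd0711f48711f40711f38711ea8711ea0711e08711d78711d707116e07116487115b87115b07115287115207115187114887114807113e87113587113507112c87112c0710a587109c87109c071003870ffa870ffa070e67870e56870e55870e54870e43870e42870e41870e31870e30870e1d870e0c070e0b870dc6070dc5870d8f870d86070d7d070d7c870d73070d230f0d1b8f0d1a8f0d1a070d19870d19070d188f0d11870d10870d0f870cff870cfe870cfd870cfc870ced870cec870ceb870cea87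0ce9870cda870cd9870cd8870cc7870cc6870cb5870c818f0c70070c6f870c6e8f0c6e070c6d870c67070c66870c66070c65870c65070c64870c640f0c63870c63070c5d870c5d070c5c870c54870c54070c53870c4b870c4b070c4a870c42870c42070c41870c39070c38870c38070c2f070c2e870c26070c25870c25070c1d070c1c870c1c070c13870c13070be00f0bce0f0bcd0f0bbc0f0bbb0f0bba0f0bb9870bb9070bb80f0bb7870bb7070bb0870bb0070baf8f0baf070bae870bae070bad8f0ba90f0ba80f0ba7870ba6870ba6070ba5870ba50f0ba4870ba4070b9d070b9c8f0b9c070b9b870b9b070b9a8f0b960f0b95870b94870b93870b93070b92870b920f0b8c870b898f0b83870b05070b04870afc070afb870afb0f0af3870af3070af2870af2070af1870aea870aea070ae9070ae8870ae80f0ae1870ae107095807095787094f87094f07094e87094687094607094507094487093d07093c87093c07093b87093b07093a87093a07093407093387093307093287093207093187093107092a87092a07092987092907092187092107092087092007091707091687090e07090d8709050709048708fc0708fb8708b60708b58708ad8708ad0708ac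8708ac0708ab8708ab0708a48708a40708a30708a28708a207089b07089a87089a07089987089907089887089807089207089187089107089087089007088f87088f07088e87088e07088887088807088787088707088687088607088587088507087f87087f07087e87087e07087d87087d07087607087587087507087487086d07086c87086c07086b87086307086287085a07085987080a0708098708090708020708018708010708008708000707ff8707f90707f88707f80707f78707f70707f68707f60707f58707f50707ef8707ef0707ee8707ee0707ed8707ed0707ec8707ec0707e68707e60707e58707e50707e48707e40707e38707e30707e28707e20707dd8707dd0707dc8707dc0707db8707db0707da8707d98707d90707d40707d38707d30707d28707d20707d18707cb0707ca8707ca0707c98707c90707c88707c10707c08707c00707bf8707b80707b78707b70707b68707af0707ae8707ae0707a58707a507076007075f87075e07075d87075707075687075607075587075507075487075387075307074d07074c87074c07074b87074b07074a87074a0707498707490707448707440707438707430707428707420707418707410707408707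4007073b87073b07073a87073a07073987073907073887073807073787073707073687073607073207073187073107073087073007072f87072f07072e07072d87072d07072907072887072807072787072707072687072507072487071f07071e87071e07071d87071607071587071507071487070d07070c87070c0707038707030706a98706a90706a78706a70706a08706a007069f07069e87069e07069787069707069687069607069587069487069407068e07068d87068d07068c07068b87068b07068507068487068407068387068307068287067c87067c07067b07067a8706738706730705f50705f48705ec0705eb8705e30705e28705e20705e18705da8705da0705d90705d88705d18705d107 = true := by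
  decide +kernel

/-- the line `X - 3 - 2 k` of `6 k` in the row `c` is present -/
theorem a5b (hf : Rule f) {k c n X : ℕ} (H : PL f k c n (n - 4)) (hX : 2 * n + 6 ≤ X)
    (hX2 : X % 2 = 0) (D0 : Cyc f (6 * k) (c - 2) (X - 2)) (D0a : Cyc f (6 * k) (c - 6) (X - 6 - 2 * k))
    (C4a : Cyc f (6 * k + 4) (c - 6) (2 * (n - (k + 1)) + 2))
    (h0 : f (6 * k + 1) (c) (X) (X + 2 - 2 * k))
    (h1 : f (6 * k + 2) (c - 2) (X - 6) (X - 1 - 2 * k))
    (h2 : ¬ f (6 * k) (c) (X - 10) (X - 3 - 2 * k)) : False := by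
  have hk := H.T.hk
  have hc := H.T.hc
  have h4' := H.T.h4
  have hb := H.T.hb
  have hN := H.T.hN2
  obtain ⟨a0, ha0⟩ : ∃ z, z + 2 = 6 * k := ⟨6 * k - 2, by omega⟩
  obtain ⟨b0, hb0⟩ : ∃ z, z + 6 = c := ⟨c - 6, by omega⟩
  obtain ⟨x0, hx0⟩ : ∃ z, z + 13 = X := ⟨X - 13, by omega⟩
  obtain ⟨y0, hy0⟩ : ∃ z, z + 2 * k + 13 = X := ⟨X - 2 * k - 13, by omega⟩
  refine check_sound hf (a0 := a0) (b0 := b0) (x0 := x0) (y0 := y0) a5b_chk
    ⟨fun h => absurd h (by decide), fun h => absurd h (by decide), fun h => absurd h (by decide), by omega, by omega,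
      by omega, by omega⟩ ?_ ?_
  · intro j m p q hr h
    obtain ⟨-, -, -, -, hp1, hp2, hq1, hq2⟩ := hr
    replace h := of_decide_eq_true h
    rcases h with ((((h | h) | (h)) | (h | h)) | ((h | h) | (h | h))) | (((h | h) | (h | h)) | ((h | h) | (h | h)))
    · obtain ⟨rfl, rfl, h⟩ := h
      exact (WrapC.v1 D0a (by omega) (by omega) (by omega) (by omega) (by omega) (by omega) (by omega) (by omega)).mpr (by omega)
    · obtain ⟨rfl, rfl, h⟩ := h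
      exact (WrapC.v2 D0a (by omega) (by omega) (by omega) (by omega) (by omega) (by omega) (by omega)).mpr (by omega)
    · obtain ⟨rfl, rfl, h⟩ := h
      exact (WrapC.v3 D0a (by omega) (by omega) (by omega) (by omega) (by omega) (by omega) (by omega) (by omega)).mpr (by omega)
    · obtain ⟨rfl, rfl, h⟩ := h
      exact (WrapC.v4 D0a (by omega) (by omega) (by omega) (by omega) (by omega) (by omega) (by omega)).mpr (by omega)
    · obtain ⟨rfl, rfl, h⟩ := h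
      exact (WrapC.v0 H.c2 (by omega) (by omega) (by omega) (by omega) (by omega) (by omega) (by omega)).mpr (by omega)
    · obtain ⟨rfl, rfl, h⟩ := h
      exact (WrapC.v1 H.c2 (by omega) (by omega) (by omega) (by omega) (by omega) (by omega) (by omega) (by omega)).mpr (by omega)
    · obtain ⟨rfl, rfl, h⟩ := h
      exact (WrapC.v2 H.c2 (by omega) (by omega) (by omega) (by omega) (by omega) (by omega) (by omega)).mpr (by omega)
    · obtain ⟨rfl, rfl, h⟩ := h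
      exact (WrapC.v1 H.c4 (by omega) (by omega) (by omega) (by omega) (by omega) (by omega) (by omega) (by omega)).mpr (by omega)
    · obtain ⟨rfl, rfl, h⟩ := h
      exact (WrapC.v2 C4a (by omega) (by omega) (by omega) (by omega) (by omega) (by omega) (by omega)).mpr (by omega)
    · obtain ⟨rfl, rfl, h⟩ := h
      exact (WrapC.v3 C4a (by omega) (by omega) (by omega) (by omega) (by omega) (by omega) (by omega) (by omega)).mpr (by omega)
    · obtain ⟨rfl, rfl, h⟩ := h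
      exact (WrapC.v4 C4a (by omega) (by omega) (by omega) (by omega) (by omega) (by omega) (by omega)).mpr (by omega)
    · obtain ⟨rfl, rfl, h⟩ := h
      exact (WrapC.v1 H.c6 (by omega) (by omega) (by omega) (by omega) (by omega) (by omega) (by omega) (by omega)).mpr (by omega)
    · obtain ⟨rfl, rfl, h⟩ := h
      exact (NW.w0v H.c8 (by omega) (by omega) (by omega) (by omega) (by omega) (by omega) (by omega)).mpr (by omega)
    · obtain ⟨rfl, rfl, h⟩ := h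
      exact (NW.w1v H.c8 (by omega) (by omega) (by omega) (by omega) (by omega) (by omega) (by omega) (by omega)).mpr (by omega)
    · obtain ⟨rfl, rfl, h⟩ := h
      exact (NW.w0v H.c10 (by omega) (by omega) (by omega) (by omega) (by omega) (by omega) (by omega)).mpr (by omega)
    · obtain ⟨rfl, rfl, rfl, rfl⟩ := h
      exact mv h0 (by omega) (by omega) (by omega) (by omega)
    · obtain ⟨rfl, rfl, rfl, rfl⟩ := h
      exact mv h1 (by omega) (by omega) (by omega) (by omega)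
  · intro j m p q hr h
    obtain ⟨-, -, -, -, hp1, hp2, hq1, hq2⟩ := hr
    replace h := of_decide_eq_true h
    rcases h with (((((h | h) | (h)) | (h | h)) | (((h | h) | (h)) | (h | h))) | ((((h | h) | (h)) | (h | h)) | ((h | h) | (h | h)))) | (((((h | h) | (h)) | (h | h)) | (((h | h) | (h)) | (h | h))) | ((((h | h) | (h)) | (h | h)) | ((h | h) | (h | h))))
    · obtain ⟨rfl, rfl, h⟩ := h
      exact mt (WrapC.v1 D0 (by omega) (by omega) (by omega) (by omega) (by omega) (by omega) (by omega) (by omega)).mp (by omega)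
    · obtain ⟨rfl, rfl, h⟩ := h
      exact mt (WrapC.v1 D0a (by omega) (by omega) (by omega) (by omega) (by omega) (by omega) (by omega) (by omega)).mp (by omega)
    · obtain ⟨rfl, rfl, h⟩ := h
      exact mt (WrapC.v2 D0a (by omega) (by omega) (by omega) (by omega) (by omega) (by omega) (by omega)).mp (by omega)
    · obtain ⟨rfl, rfl, h⟩ := h
      exact mt (WrapC.v3 D0a (by omega) (by omega) (by omega) (by omega) (by omega) (by omega) (by omega) (by omega)).mp (by omega)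
    · obtain ⟨rfl, rfl, h⟩ := h
      exact mt (WrapC.v4 D0a (by omega) (by omega) (by omega) (by omega) (by omega) (by omega) (by omega)).mp (by omega)
    · obtain ⟨rfl, rfl, h⟩ := h
      exact mt (WrapC.v1 H.c2 (by omega) (by omega) (by omega) (by omega) (by omega) (by omega) (by omega) (by omega)).mp (by omega)
    · obtain ⟨rfl, rfl, h⟩ := h
      exact mt (WrapC.v2 H.c2 (by omega) (by omega) (by omega) (by omega) (by omega) (by omega) (by omega)).mp (by omega)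
    · obtain ⟨rfl, rfl, h⟩ := h
      exact mt (WrapC.v1 H.c4 (by omega) (by omega) (by omega) (by omega) (by omega) (by omega) (by omega) (by omega)).mp (by omega)
    · obtain ⟨rfl, rfl, h⟩ := h
      exact mt (WrapC.v3 C4a (by omega) (by omega) (by omega) (by omega) (by omega) (by omega) (by omega) (by omega)).mp (by omega)
    · obtain ⟨rfl, rfl, h⟩ := h
      exact mt (WrapC.v1 H.c6 (by omega) (by omega) (by omega) (by omega) (by omega) (by omega) (by omega) (by omega)).mp (by omega)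
    · obtain ⟨rfl, rfl, h⟩ := h
      exact mt (NW.w1v H.c8 (by omega) (by omega) (by omega) (by omega) (by omega) (by omega) (by omega) (by omega)).mp (by omega)
    · obtain ⟨rfl, rfl, h⟩ := h
      exact mt (NW.w2v H.c8 (by omega) (by omega) (by omega) (by omega) (by omega) (by omega) (by omega)).mp (by omega)
    · obtain ⟨rfl, rfl⟩ := h
      exact H.lw _ _ _ _ (by omega) (by omega) (by omega) (by omega) (by omega) (by omega)
    · obtain ⟨rfl, rfl⟩ := h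
      exact H.lw _ _ _ _ (by omega) (by omega) (by omega) (by omega) (by omega) (by omega)
    · obtain ⟨rfl, rfl⟩ := h
      exact H.lw _ _ _ _ (by omega) (by omega) (by omega) (by omega) (by omega) (by omega)
    · obtain ⟨rfl, rfl⟩ := h
      exact H.lw _ _ _ _ (by omega) (by omega) (by omega) (by omega) (by omega) (by omega)
    · obtain ⟨rfl, rfl⟩ := h
      exact H.lw _ _ _ _ (by omega) (by omega) (by omega) (by omega) (by omega) (by omega)
    · obtain ⟨rfl, rfl⟩ := h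
      exact H.lw _ _ _ _ (by omega) (by omega) (by omega) (by omega) (by omega) (by omega)
    · obtain ⟨rfl, rfl, h⟩ := h
      exact NHT.rIn hf H.T (t := 2) (p := 1) (j := 2) (by omega) (by omega) (by omega) (by omega) (by omega) (by omega) (by omega) (by omega)
    · obtain ⟨rfl, rfl, h⟩ := h
      exact NHT.pIn hf H.T (t := 3) (j := 2) (by omega) (by omega) (by omega) (by omega) (by omega) (by omega) (by omega)
    · obtain ⟨rfl, rfl, h⟩ := h
      exact NHT.rIn hf H.T (t := 3) (p := 0) (j := 3) (by omega) (by omega) (by omega) (by omega) (by omega) (by omega) (by omega) (by omega)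
    · obtain ⟨rfl, rfl, h⟩ := h
      exact NHT.rIn hf H.T (t := 3) (p := 1) (j := 3) (by omega) (by omega) (by omega) (by omega) (by omega) (by omega) (by omega) (by omega)
    · obtain ⟨rfl, rfl, h⟩ := h
      exact NHT.rIn hf H.T (t := 3) (p := 1) (j := 2) (by omega) (by omega) (by omega) (by omega) (by omega) (by omega) (by omega) (by omega)
    · obtain ⟨rfl, rfl, h⟩ := h
      exact NHU.pmi hf H.U (j := 1) (by omega) (by omega) (by omega) (by omega) (by omega) (by omega)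
    · obtain ⟨rfl, rfl, h⟩ := h
      exact NHT.pmi hf H.T (j := 3) (by omega) (by omega) (by omega) (by omega) (by omega) (by omega)
    · obtain ⟨rfl, rfl, h⟩ := h
      exact NHT.pmi hf H.T (j := 2) (by omega) (by omega) (by omega) (by omega) (by omega) (by omega)
    · obtain ⟨rfl, rfl, h⟩ := h
      exact NHU.pmi hf H.U (j := 1) (by omega) (by omega) (by omega) (by omega) (by omega) (by omega)
    · obtain ⟨rfl, rfl, h⟩ := h
      exact NHT.rIn hf H.T (t := 4) (p := 0) (j := 4) (by omega) (by omega) (by omega) (by omega) (by omega) (by omega) (by omega) (by omega)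
    · obtain ⟨rfl, rfl, h⟩ := h
      exact NHT.rIn hf H.T (t := 4) (p := 0) (j := 3) (by omega) (by omega) (by omega) (by omega) (by omega) (by omega) (by omega) (by omega)
    · obtain ⟨rfl, rfl, h⟩ := h
      exact NHT.rIn hf H.T (t := 4) (p := 0) (j := 2) (by omega) (by omega) (by omega) (by omega) (by omega) (by omega) (by omega) (by omega)
    · obtain ⟨rfl, rfl, h⟩ := h
      exact NHU.p0i hf H.U (j := 2) (by omega) (by omega) (by omega) (by omega) (by omega) (by omega)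
    · obtain ⟨rfl, rfl, h⟩ := h
      exact fun t => NHU.rm1i hf H.U (p := 0) (j := 1) (by omega) (by omega) (by omega) (by omega) (by omega) (by omega) (mv t rfl (by omega) rfl rfl)
    · obtain ⟨rfl, rfl, h⟩ := h
      exact fun t => NHU.rm1i hf H.U (p := 1) (j := 1) (by omega) (by omega) (by omega) (by omega) (by omega) (by omega) (mv t rfl (by omega) rfl rfl)
    · obtain ⟨rfl, rfl, h⟩ := h
      exact fun t => NHU.rm1i hf H.U (p := 1) (j := 0) (by omega) (by omega) (by omega) (by omega) (by omega) (by omega) (mv t rfl (by omega) rfl rfl)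
    · obtain ⟨rfl, rfl, h⟩ := h
      exact NHU.p0i hf H.U (j := 2) (by omega) (by omega) (by omega) (by omega) (by omega) (by omega)
    · obtain ⟨rfl, rfl, h⟩ := h
      exact NHU.p0i hf H.U (j := 1) (by omega) (by omega) (by omega) (by omega) (by omega) (by omega)
    · obtain ⟨rfl, rfl, h⟩ := h
      exact NHU.p0i hf H.U (j := 0) (by omega) (by omega) (by omega) (by omega) (by omega) (by omega)
    · obtain ⟨rfl, rfl, rfl, rfl⟩ := h
      exact fun t => h2 (mv t (by omega) (by omega) (by omega) (by omega))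

end Pool.Agent.SNT.L0X
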