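import Pool.Agent.SNT.PL

set_option autoImplicit false
set_option synthInstance.maxSize 100000
set_option synthInstance.maxHeartbeats 4000000

/-! Near the diagonal: reflections (helper85). -/

namespace Pool.Agent.SNT.L0X

open Pool.Agent.SNT Pool.Agent.SNT.Sig Pool.Agent.SNT.Loc Pool.Agent.SNT.LW Pool.Agent.SNT.NHZ Pool.Agent.SNT.DRun
open Pool.Agent.SNT.D1E Pool.Agent.SNT.PB

variable {f : ℕ → ℕ → ℕ → ℕ → Prop}

theorem D1b_chk : check 7 7 17 17 0 1 1 1 2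
    (fun j n p q => decide (((((j = 2 ∧ n = 2 ∧ q ≤ p ∧ 3 ≤ p ∧ p ≤ q + 13 ∧ (p = q ∧ p % 2 = 1)))
      ∨ ((j = 2 ∧ n = 3 ∧ q ≤ p ∧ 3 ≤ q ∧ p ≤ q + 13 ∧ ((p + q) % 2 = 1 ∧ p % 2 = 1))))
      ∨ (((j = 2 ∧ n = 4 ∧ q ≤ p ∧ 5 ≤ q ∧ p ≤ q + 13 ∧ (p = q ∧ p % 2 = 0)))
      ∨ ((j = 4 ∧ n = 1 ∧ q ≤ p ∧ p ≤ q + 13 ∧ ((p + q) % 2 = 1 ∧ p % 2 = 1)))))
      ∨ ((((j = 4 ∧ n = 2 ∧ q ≤ p ∧ p ≤ q + 13 ∧ (p = q ∧ p % 2 = 0)))
      ∨ ((j = 6 ∧ n = 3 ∧ q ≤ p ∧ 5 ≤ q ∧ p ≤ q + 13 ∧ ((p + q) % 2 = 1 ∧ p % 2 = 1))))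
      ∨ (((j = 6 ∧ n = 4 ∧ q ≤ p ∧ 7 ≤ q ∧ p ≤ q + 13 ∧ (p = q ∧ p % 2 = 0)))
      ∨ ((j = 4 ∧ n = 3 ∧ p = 6 ∧ q = 1))))))
    (fun j n p q => decide (((((j = 1 ∧ n = 4 ∧ q ≤ p))
      ∨ ((j = 1 ∧ n = 5 ∧ q ≤ p)))
      ∨ (((j = 5 ∧ n = 3 ∧ q + 3 ≤ p ∧ p ≤ q + 12))
      ∨ ((j = 5 ∧ n = 5 ∧ 3 ≤ q ∧ q + 4 ≤ p ∧ p ≤ q + 11))))
      ∨ ((((j = 7 ∧ n = 5 ∧ 3 ≤ q ∧ q + 3 ≤ p ∧ p ≤ q + 12))
      ∨ ((j = 4 ∧ n = 5 ∧ p = 13 ∧ q = 8)))
      ∨ ((j = 6 ∧ n = 5 ∧ p = 15 ∧ q = 10)))))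
    268
    0x17070313020016f64a11d90011d80015ccc215cc4a17070313020016f64a11d88011d88412e98e12e90312e98012e98416e60e1ae30316e60016e60416e58e12610316ed8016e58016e58e16e58416dd8e1ecd8316dd8016dd8416dd0e16dc8316dd0016dd0415dd8312830012830415dd0312828012828415ce03165e80165e841ee003165f00165f0415dd83127a80127a8415dd03127a00127a0416558e15c4831655801655841ee00316ef8016ef84164d0e1ecd83164d00164d040af9030eec800eec8415cc0312690012690415cc03165c80165c8415dd0316760016760416568e15c58316568016568415dd03166d80166d84126103165500165d00165d0e165d0411c90e15bc0311c90011c90412610312f20012fa0012fa0e12fa04166e0e15dd83166e00166e041ee0031ae3001ae30412610312618012698012698e1269841ecc831ecd001ecd04124f001642c211b50011ad0015a8c215a0c211b400119c001a3f0019da0019d90019c90019c80019c30019c20019c10019b70019b10019b00019af0019a500199d0015b05211b30015904a118b0011370011130010c00010bf0010b90010af0010ae0010a80010a700109b00109600108b00108a001083001073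001072000a710009e90009e10009cf000947001f000e1f00071ef78e1ef7871eff8e1eff871ef70e1ef7071ee58e1ee5871ee50e1ee5071edc8e1edc871aec871b0c0e1b0c071ada871ad9871ad8871a3f0f19da0f19d90f19c90f19c80f19eb0e19eb0f19da0e19da0f19c90e19c90f19b70f19d90e19d90f19c80e19c80f19b70e19b70f19a50f19a50e19a50f17070717068717070e17070715b00715a78715b00e15b00715a78e15a78713138713130713028712e08711e18711e08711d18711d08711cf8711bf8711be8711bc8711b30f11ac87119c8711b30e11b30f11370f11130f10c00f10bf0f10c10e10c10f10af0f10ae0f10c00e10c00f10af0e10af0f109b0f10ae0e10ae0f108b0f108a0f108b0e108b0f109b0e109b0f108a0e108a0f0af8870a710f09e90f09e90e09e90f09d70e09d70f09470f070d8e070d87070507070d0e070d0707048e070487067c8e067c8706740e067407 = true := by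
  decide +kernel

/-- reflection of the in-line `D - 1` of `6 k + 2` -/
theorem D1b (hf : Rule f) {k c n D : ℕ} (H : PL f k c n (n - 4)) (hX : 2 * n + 8 ≤ D)
    (hX2 : D % 2 = 0) (D0 : Cyc f (6 * k) (c - 2) (D - 6))
    (h0 : f (6 * k + 2) (c) (D - 1) (D - 6))
    (h1 : ¬ f (6 * k + 2) (c + 2) (D + 6) (D + 1))
    (h2 : ¬ f (6 * k + 4) (c + 2) (D + 8) (D + 3)) : False := by
  have hk := H.T.hk
  have hc := H.T.hc
  have h4' := H.T.h4
  have hb := H.T.hb
  have hN := H.T.hN2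
  obtain ⟨a0, ha0⟩ : ∃ z, z + 2 = 6 * k := ⟨6 * k - 2, by omega⟩
  obtain ⟨b0, hb0⟩ : ∃ z, z + 3 = c := ⟨c - 3, by omega⟩
  obtain ⟨x0, hx0⟩ : ∃ z, z + 7 = D := ⟨D - 7, by omega⟩
  refine check_sound hf (a0 := a0) (b0 := b0) (x0 := x0) (y0 := x0) D1b_chk
    ⟨fun _ => rfl, fun h => absurd h (by decide), fun h => absurd h (by decide), by omega, by omega,
      by omega, by omega⟩ ?_ ?_
  · intro j m p q hr h
    obtain ⟨-, -, -, -, hp1, hp2, hq1, hq2⟩ := hr
    replace h := of_decide_eq_true h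
    rcases h with ((h | h) | (h | h)) | ((h | h) | (h | h))
    · obtain ⟨rfl, rfl, h⟩ := h
      exact (WrapC.v1 D0 (by omega) (by omega) (by omega) (by omega) (by omega) (by omega) (by omega) (by omega)).mpr (by omega)
    · obtain ⟨rfl, rfl, h⟩ := h
      exact (WrapC.v2 D0 (by omega) (by omega) (by omega) (by omega) (by omega) (by omega) (by omega)).mpr (by omega)
    · obtain ⟨rfl, rfl, h⟩ := h
      exact (WrapC.v3 D0 (by omega) (by omega) (by omega) (by omega) (by omega) (by omega) (by omega) (by omega)).mpr (by omega)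
    · obtain ⟨rfl, rfl, h⟩ := h
      exact (WrapC.v2 H.c2 (by omega) (by omega) (by omega) (by omega) (by omega) (by omega) (by omega)).mpr (by omega)
    · obtain ⟨rfl, rfl, h⟩ := h
      exact (WrapC.v3 H.c2 (by omega) (by omega) (by omega) (by omega) (by omega) (by omega) (by omega) (by omega)).mpr (by omega)
    · obtain ⟨rfl, rfl, h⟩ := h
      exact (WrapC.v2 H.c4 (by omega) (by omega) (by omega) (by omega) (by omega) (by omega) (by omega)).mpr (by omega)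
    · obtain ⟨rfl, rfl, h⟩ := h
      exact (WrapC.v3 H.c4 (by omega) (by omega) (by omega) (by omega) (by omega) (by omega) (by omega) (by omega)).mpr (by omega)
    · obtain ⟨rfl, rfl, rfl, rfl⟩ := h
      exact mv h0 (by omega) (by omega) (by omega) (by omega)
  · intro j m p q hr h
    obtain ⟨-, -, -, -, hp1, hp2, hq1, hq2⟩ := hr
    replace h := of_decide_eq_true h
    rcases h with ((h | h) | (h | h)) | ((h | h) | (h))
    · obtain ⟨rfl, rfl, h⟩ := h
      exact H.lw _ _ _ _ (by omega) (by omega) (by omega) (by omega) (by omega) (by omega)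
    · obtain ⟨rfl, rfl, h⟩ := h
      exact H.lw _ _ _ _ (by omega) (by omega) (by omega) (by omega) (by omega) (by omega)
    · obtain ⟨rfl, rfl, h⟩ := h
      exact NHT.p0 hf H.T (j := 2) (by omega) (by omega) (by omega) (by omega) (by omega) (by omega)
    · obtain ⟨rfl, rfl, h⟩ := h
      exact NHT.p2 hf H.T (j := 3) (by omega) (by omega) (by omega) (by omega) (by omega) (by omega)
    · obtain ⟨rfl, rfl, h⟩ := h
      exact NHT.p2 hf H.T (j := 2) (by omega) (by omega) (by omega) (by omega) (by omega) (by omega)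
    · obtain ⟨rfl, rfl, rfl, rfl⟩ := h
      exact fun t => h1 (mv t (by omega) (by omega) (by omega) (by omega))
    · obtain ⟨rfl, rfl, rfl, rfl⟩ := h
      exact fun t => h2 (mv t (by omega) (by omega) (by omega) (by omega))

theorem D2b_chk : check 7 7 17 17 0 1 1 1 2
    (fun j n p q => decide (((((j = 2 ∧ n = 1 ∧ q ≤ p ∧ 4 ≤ p ∧ p ≤ q + 13 ∧ ((p + q) % 2 = 1 ∧ p % 2 = 0)))
      ∨ ((j = 2 ∧ n = 2 ∧ q ≤ p ∧ 5 ≤ p ∧ p ≤ q + 13 ∧ (p = q ∧ p % 2 = 1))))
      ∨ (((j = 2 ∧ n = 3 ∧ q ≤ p ∧ 5 ≤ q ∧ p ≤ q + 13 ∧ ((p + q) % 2 = 1 ∧ p % 2 = 1)))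
      ∨ ((j = 2 ∧ n = 4 ∧ q ≤ p ∧ 7 ≤ q ∧ p ≤ q + 13 ∧ (p = q ∧ p % 2 = 0)))))
      ∨ ((((j = 4 ∧ n = 1 ∧ q ≤ p ∧ p ≤ q + 13 ∧ ((p + q) % 2 = 1 ∧ p % 2 = 1)))
      ∨ ((j = 4 ∧ n = 2 ∧ q ≤ p ∧ p ≤ q + 13 ∧ (p = q ∧ p % 2 = 0))))
      ∨ (((j = 6 ∧ n = 3 ∧ q ≤ p ∧ 7 ≤ q ∧ p ≤ q + 13 ∧ ((p + q) % 2 = 1 ∧ p % 2 = 1)))
      ∨ ((j = 4 ∧ n = 3 ∧ p = 6 ∧ q = 1))))))
    (fun j n p q => decide ((((((j = 2 ∧ n = 3 ∧ q ≤ p ∧ 5 ≤ q ∧ p ≤ q + 13 ∧ ¬ ((p + q) % 2 = 1 ∧ p % 2 = 1)))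
      ∨ ((j = 1 ∧ n = 2 ∧ q ≤ p)))
      ∨ ((j = 1 ∧ n = 3 ∧ q ≤ p)))
      ∨ ((((j = 1 ∧ n = 4 ∧ q ≤ p))
      ∨ ((j = 1 ∧ n = 5 ∧ q ≤ p)))
      ∨ ((j = 5 ∧ n = 3 ∧ q + 3 ≤ p ∧ p ≤ q + 12))))
      ∨ (((((j = 4 ∧ n = 4 ∧ q + 4 ≤ p ∧ p ≤ q + 11))
      ∨ ((j = 5 ∧ n = 4 ∧ q + 4 ≤ p ∧ p ≤ q + 11)))
      ∨ ((j = 5 ∧ n = 5 ∧ 5 ≤ q ∧ q + 4 ≤ p ∧ p ≤ q + 11)))
      ∨ ((((j = 7 ∧ n = 5 ∧ 5 ≤ q ∧ q + 3 ≤ p ∧ p ≤ q + 12))
      ∨ ((j = 4 ∧ n = 5 ∧ p = 13 ∧ q = 8)))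
      ∨ ((j = 6 ∧ n = 5 ∧ p = 15 ∧ q = 10))))))
    508
    0x9bd830db10011ad520a5f030e5280124f5a12e90316dd0016e61a1ae3031aec001ee04a1ae3031ae3801ae38416e60016e60412610312fa0012f20012f20e12f20412610316ed8016e58016e58e16e58416f58e1706830f0e0013024a16f58016f5840efd0e0b12030f0e0013024a0efd000efd040b12830f0e800f0e840b12030f05800f05840ef60e0b02830ef6000ef60412ea0e16e70312ea0012ea0415c583126300126304127a8e15dd83127a80127a8415ce03165e80165e8415c58316568016568412f98e12f10312f98012f98415c58316560016560411d80011d10011c00015cc4a15c4c215bc5211c88e16de8312510012ea320b02800af1800b02810afa1216de8312510012ea320afa000afa040eed0012e95216dd0016e61a0b02830ef60012ea4a12f30012e20016e74a16deda0b02830ef60012ea4a12ea8012ea8416dd8016dd841ae30316e60016e6041ee003165f00165f04166e8e15de03166e80166e841ee00316ef8016ef840afa030eed800eed8416fe8e0b12830f0e801302420efd0012f14a16ed00130a0016f61a1706da16fe8016fe8412ea0e16e70312ea0012ea0416ed8e12610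316e58016ed8016ed8e16ed8412fa0e12610312f20012fa0012fa0e12fa041ee0031ae3001ae30411c98015c5d211ea0e0b12030f0e0013024a0efd0012f14a16ed0016f61a0b02830ef60012ea4a12e20016deda0b02830ef60012ea4a12ea8012ea8416dd8016f58e16f5840ef68e0b02830ef6800ef6840f058e0b12030f05800f058416e58e12610316ed8016e58016e58e16e5841afb0316f60016f60412610312f20012fa0012fa0e12fa0412ea0e16e70312ea0012ea0412510e16de8312510012510416ef8e1ee00316ef8016ef841ae30e1ee0031ae3001ae30411d20011ea0011ea0e11ea0412e98e12e90312e98012e98416768e15dd83167680167684166e0e15dd83166e00166e0411d88011c88011c88e11c88411c90e15bc0311c90011c9040eec8e0af9030eec800eec84124f00124f0411b50011ad0011ad0e11ad0409bd030db0800db084119c0019da0019d90019c90019c80019c30019c20019c10019b70019b10019b00019af0015904a118b0011370011130010c10010c00010b90010af0010ae0010a80010a7001096001083001073001072000a710009fa0009f90009e90009e80009e20009e10009d70009d10009d00009cf000947000935000894000893001f000e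1f00071ef78e1ef7871eff8e1eff871ef70e1ef7071afa871aec871b0c0e1b0c071ada8719da0f19d90f19c90f19c80f19eb0e19eb0f19da0e19da0f19c90e19c90f19b70f19d90e19d90f19c80e19c80f19b70e19b70f17070717068717060716fd8717070e17070717068e17068717060e17060716fd8e16fd87167607167587166d87166d0716760e167607166d8e166d8716758e167587166d0e166d0715b00e15b00715a78e15a78713130713128713028713018712f38712f28712f08713130e13130712e28712e18712e087128287128207127a0712798712828e128287127a0e127a0712820e12820712798e12798711e18711d18711d08711cf8711bf8711be8711ac87119c8711b30e11b30f11370f11130f10c10f10c00f10c10e10c10f10af0f10ae0f10c00e10c00f10af0e10af0f10ae0e10ae0f108b0e108b0f109b0e109b0f108a0e108a0f0b09870af9870af8870a710f09fa0f09f90f09e90f09e80f09fa0e09fa0f09e90e09e90f09d70f09f90e09f90f09e80e09e80f09d70e09d70f09c58709b48709470f09350f08ac0e08ac0f089b0e089b0f071f07071e87071e07071687071607071587071f0e071f0707168e071687071e8e071e8707160e071607070d8e070d87070507071e0e071e0707158e071587070d0e070d0707048e070487068e87068e07068d87068607068587068507068e8e068e8706860e068607068e0e068e0706858e068587068d8e068d8706850e068507067c8e067c8706740e067407066b87066b07066b0e066b0706628705d20705da0e05da0705d18e05d18705c90705d98e05d98705d10e05d10705c88e05c88705498e05498705490e05490705408e05408705380e053807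 = true := by
  decide +kernel

/-- reflection of the in-line `D - 3` of `6 k + 2` -/
theorem D2b (hf : Rule f) {k c n D : ℕ} (H : PL f k c n (n - 4)) (hX : 2 * n + 8 ≤ D)
    (hX2 : D % 2 = 0) (D0 : Cyc f (6 * k) (c - 2) (D - 6))
    (h0 : f (6 * k + 2) (c) (D - 3) (D - 8))
    (h1 : ¬ f (6 * k + 2) (c + 2) (D + 4) (D - 1))
    (h2 : ¬ f (6 * k + 4) (c + 2) (D + 6) (D + 1)) : False := by
  have hk := H.T.hk
  have hc := H.T.hc
  have h4' := H.T.h4
  have hb := H.T.hb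
  have hN := H.T.hN2
  obtain ⟨a0, ha0⟩ : ∃ z, z + 2 = 6 * k := ⟨6 * k - 2, by omega⟩
  obtain ⟨b0, hb0⟩ : ∃ z, z + 3 = c := ⟨c - 3, by omega⟩
  obtain ⟨x0, hx0⟩ : ∃ z, z + 9 = D := ⟨D - 9, by omega⟩
  refine check_sound hf (a0 := a0) (b0 := b0) (x0 := x0) (y0 := x0) D2b_chk
    ⟨fun _ => rfl, fun h => absurd h (by decide), fun h => absurd h (by decide), by omega, by omega,
      by omega, by omega⟩ ?_ ?_
  · intro j m p q hr h
    obtain ⟨-, -, -, -, hp1, hp2, hq1, hq2⟩ := hr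
    replace h := of_decide_eq_true h
    rcases h with ((h | h) | (h | h)) | ((h | h) | (h | h))
    · obtain ⟨rfl, rfl, h⟩ := h
      exact (WrapC.v0 D0 (by omega) (by omega) (by omega) (by omega) (by omega) (by omega) (by omega)).mpr (by omega)
    · obtain ⟨rfl, rfl, h⟩ := h
      exact (WrapC.v1 D0 (by omega) (by omega) (by omega) (by omega) (by omega) (by omega) (by omega) (by omega)).mpr (by omega)
    · obtain ⟨rfl, rfl, h⟩ := h
      exact (WrapC.v2 D0 (by omega) (by omega) (by omega) (by omega) (by omega) (by omega) (by omega)).mpr (by omega)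
    · obtain ⟨rfl, rfl, h⟩ := h
      exact (WrapC.v3 D0 (by omega) (by omega) (by omega) (by omega) (by omega) (by omega) (by omega) (by omega)).mpr (by omega)
    · obtain ⟨rfl, rfl, h⟩ := h
      exact (WrapC.v2 H.c2 (by omega) (by omega) (by omega) (by omega) (by omega) (by omega) (by omega)).mpr (by omega)
    · obtain ⟨rfl, rfl, h⟩ := h
      exact (WrapC.v3 H.c2 (by omega) (by omega) (by omega) (by omega) (by omega) (by omega) (by omega) (by omega)).mpr (by omega)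
    · obtain ⟨rfl, rfl, h⟩ := h
      exact (WrapC.v2 H.c4 (by omega) (by omega) (by omega) (by omega) (by omega) (by omega) (by omega)).mpr (by omega)
    · obtain ⟨rfl, rfl, rfl, rfl⟩ := h
      exact mv h0 (by omega) (by omega) (by omega) (by omega)
  · intro j m p q hr h
    obtain ⟨-, -, -, -, hp1, hp2, hq1, hq2⟩ := hr
    replace h := of_decide_eq_true h
    rcases h with (((h | h) | (h)) | ((h | h) | (h))) | (((h | h) | (h)) | ((h | h) | (h)))
    · obtain ⟨rfl, rfl, h⟩ := h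
      exact mt (WrapC.v2 D0 (by omega) (by omega) (by omega) (by omega) (by omega) (by omega) (by omega)).mp (by omega)
    · obtain ⟨rfl, rfl, h⟩ := h
      exact H.lw _ _ _ _ (by omega) (by omega) (by omega) (by omega) (by omega) (by omega)
    · obtain ⟨rfl, rfl, h⟩ := h
      exact H.lw _ _ _ _ (by omega) (by omega) (by omega) (by omega) (by omega) (by omega)
    · obtain ⟨rfl, rfl, h⟩ := h
      exact H.lw _ _ _ _ (by omega) (by omega) (by omega) (by omega) (by omega) (by omega)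
    · obtain ⟨rfl, rfl, h⟩ := h
      exact H.lw _ _ _ _ (by omega) (by omega) (by omega) (by omega) (by omega) (by omega)
    · obtain ⟨rfl, rfl, h⟩ := h
      exact NHT.p0 hf H.T (j := 2) (by omega) (by omega) (by omega) (by omega) (by omega) (by omega)
    · obtain ⟨rfl, rfl, h⟩ := h
      exact fun t => NHT.r1 hf H.T (p := 0) (j := 3) (by omega) (by omega) (by omega) (by omega) (by omega) (by omega) (mv t rfl (by omega) rfl rfl)
    · obtain ⟨rfl, rfl, h⟩ := h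
      exact fun t => NHT.r1 hf H.T (p := 1) (j := 3) (by omega) (by omega) (by omega) (by omega) (by omega) (by omega) (mv t rfl (by omega) rfl rfl)
    · obtain ⟨rfl, rfl, h⟩ := h
      exact NHT.p2 hf H.T (j := 3) (by omega) (by omega) (by omega) (by omega) (by omega) (by omega)
    · obtain ⟨rfl, rfl, h⟩ := h
      exact NHT.p2 hf H.T (j := 2) (by omega) (by omega) (by omega) (by omega) (by omega) (by omega)
    · obtain ⟨rfl, rfl, rfl, rfl⟩ := h
      exact fun t => h1 (mv t (by omega) (by omega) (by omega) (by omega))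
    · obtain ⟨rfl, rfl, rfl, rfl⟩ := h
      exact fun t => h2 (mv t (by omega) (by omega) (by omega) (by omega))

theorem F2b_chk : check 7 7 15 15 0 1 1 1 2
    (fun j n p q => decide ((((((j = 2 ∧ n = 3 ∧ q ≤ p ∧ 8 ≤ p ∧ ((p + q) % 2 = 1 ∧ p % 2 = 0)))
      ∨ ((j = 2 ∧ n = 4 ∧ q ≤ p ∧ 9 ≤ p ∧ (p = q ∧ p % 2 = 1))))
      ∨ ((j = 2 ∧ n = 1 ∧ q ≤ p ∧ ((p + q) % 2 = 1 ∧ p % 2 = 1))))
      ∨ (((j = 2 ∧ n = 2 ∧ q ≤ p ∧ (p = q ∧ p % 2 = 0)))
      ∨ ((j = 4 ∧ n = 3 ∧ q ≤ p ∧ ((p + q) % 2 = 1 ∧ p % 2 = 1)))))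
      ∨ ((((j = 4 ∧ n = 4 ∧ q ≤ p ∧ 3 ≤ q ∧ (p = q ∧ p % 2 = 0)))
      ∨ ((j = 6 ∧ n = 3 ∧ q ≤ p ∧ 10 ≤ p ∧ ((p + q) % 2 = 1 ∧ p % 2 = 0))))
      ∨ (((j = 6 ∧ n = 4 ∧ q ≤ p ∧ 11 ≤ p ∧ (p = q ∧ p % 2 = 1)))
      ∨ ((j = 2 ∧ n = 3 ∧ p = 6 ∧ q = 1))))))
    (fun j n p q => decide (((((j = 2 ∧ n = 5 ∧ q ≤ p ∧ 9 ≤ q ∧ ¬ ((p + q) % 2 = 1 ∧ p % 2 = 1)))
      ∨ ((j = 6 ∧ n = 5 ∧ q ≤ p ∧ 11 ≤ q ∧ ¬ ((p + q) % 2 = 1 ∧ p % 2 = 1))))
      ∨ (((j = 1 ∧ n = 4 ∧ q ≤ p))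
      ∨ ((j = 1 ∧ n = 5 ∧ q ≤ p))))
      ∨ ((((j = 3 ∧ n = 5 ∧ 3 ≤ q ∧ q + 4 ≤ p ∧ p ≤ q + 11))
      ∨ ((j = 7 ∧ n = 5 ∧ 3 ≤ q ∧ q + 2 ≤ p)))
      ∨ ((j = 2 ∧ n = 5 ∧ p = 13 ∧ q = 8)))))
    142
    0x8b00308b8000bd35208b00308b78008b7840bc3800bc40a08a1030bbc000bbc040edf8011f34208a1030bbc000bc41a0edf000edf0411e38311eb0011eb0418220311f28011f28418220311f30011f3040bd30308b00008b004089a8e089a03089a80089a840821000b34c207a80007a1000abbc20ab4c207a7000792000ac2520aa64a148f001426001425000e60000e50000e40000df7000df6000dd6000dd5000dc1000db20008310007d70007d60007c80007c70007b60007a60007930007830007280006bf0006be0006b80006a900182207182187181a07150e87148f0f14260f14250f0ed7870ec8870e600f0e500f0e400f0df70f0df60f0dd60f0dd50f0dd60e0dd60f0dd50e0dd50f0bd3070bd28708bf8708bf0708b08708af8708a08708928708310f07d70f07d60f07c80f07c70f07b60f07b08707ae8707a60f07a08707b60e07b60f07928707a60e07a60f07280f06bf0f06be0f06bf0e06bf0f06be0e06be0f059c07059507059487058d87058d07058d8e058d87058607058587058d0e058d0705858e058587052b87052487052407051c87051507051c8e051c8705150e051507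 = true := by
  decide +kernel

/-- reflection of the in-line `D - 7` of `6 k` in the row `c - 2` -/
theorem F2b (hf : Rule f) {k c n D : ℕ} (H : PL f k c n (n - 4)) (hX : 2 * n + 8 ≤ D)
    (hX2 : D % 2 = 0) (D0 : Cyc f (6 * k) (c - 2) (D - 6))
    (h0 : f (6 * k) (c - 2) (D - 7) (D - 12))
    (h1 : ¬ f (6 * k) (c) (D) (D - 5)) : False := by
  have hk := H.T.hk
  have hc := H.T.hc
  have h4' := H.T.h4
  have hb := H.T.hb
  have hN := H.T.hN2
  obtain ⟨a0, ha0⟩ : ∃ z, z + 2 = 6 * k := ⟨6 * k - 2, by omega⟩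
  obtain ⟨b0, hb0⟩ : ∃ z, z + 5 = c := ⟨c - 5, by omega⟩
  obtain ⟨x0, hx0⟩ : ∃ z, z + 13 = D := ⟨D - 13, by omega⟩
  refine check_sound hf (a0 := a0) (b0 := b0) (x0 := x0) (y0 := x0) F2b_chk
    ⟨fun _ => rfl, fun h => absurd h (by decide), fun h => absurd h (by decide), by omega, by omega,
      by omega, by omega⟩ ?_ ?_
  · intro j m p q hr h
    obtain ⟨-, -, -, -, hp1, hp2, hq1, hq2⟩ := hr
    replace h := of_decide_eq_true h
    rcases h with (((h | h) | (h)) | (h | h)) | ((h | h) | (h | h))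
    · obtain ⟨rfl, rfl, h⟩ := h
      exact (WrapC.v0 D0 (by omega) (by omega) (by omega) (by omega) (by omega) (by omega) (by omega)).mpr (by omega)
    · obtain ⟨rfl, rfl, h⟩ := h
      exact (WrapC.v1 D0 (by omega) (by omega) (by omega) (by omega) (by omega) (by omega) (by omega) (by omega)).mpr (by omega)
    · obtain ⟨rfl, rfl, h⟩ := h
      exact (WrapC.v2 H.c0 (by omega) (by omega) (by omega) (by omega) (by omega) (by omega) (by omega)).mpr (by omega)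
    · obtain ⟨rfl, rfl, h⟩ := h
      exact (WrapC.v3 H.c0 (by omega) (by omega) (by omega) (by omega) (by omega) (by omega) (by omega) (by omega)).mpr (by omega)
    · obtain ⟨rfl, rfl, h⟩ := h
      exact (WrapC.v2 H.c2 (by omega) (by omega) (by omega) (by omega) (by omega) (by omega) (by omega)).mpr (by omega)
    · obtain ⟨rfl, rfl, h⟩ := h
      exact (WrapC.v3 H.c2 (by omega) (by omega) (by omega) (by omega) (by omega) (by omega) (by omega) (by omega)).mpr (by omega)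
    · obtain ⟨rfl, rfl, h⟩ := h
      exact (WrapC.v0 H.c4 (by omega) (by omega) (by omega) (by omega) (by omega) (by omega) (by omega)).mpr (by omega)
    · obtain ⟨rfl, rfl, h⟩ := h
      exact (WrapC.v1 H.c4 (by omega) (by omega) (by omega) (by omega) (by omega) (by omega) (by omega) (by omega)).mpr (by omega)
    · obtain ⟨rfl, rfl, rfl, rfl⟩ := h
      exact mv h0 (by omega) (by omega) (by omega) (by omega)
  · intro j m p q hr h
    obtain ⟨-, -, -, -, hp1, hp2, hq1, hq2⟩ := hr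
    replace h := of_decide_eq_true h
    rcases h with ((h | h) | (h | h)) | ((h | h) | (h))
    · obtain ⟨rfl, rfl, h⟩ := h
      exact mt (WrapC.v2 D0 (by omega) (by omega) (by omega) (by omega) (by omega) (by omega) (by omega)).mp (by omega)
    · obtain ⟨rfl, rfl, h⟩ := h
      exact mt (WrapC.v2 H.c4 (by omega) (by omega) (by omega) (by omega) (by omega) (by omega) (by omega)).mp (by omega)
    · obtain ⟨rfl, rfl, h⟩ := h
      exact H.lw _ _ _ _ (by omega) (by omega) (by omega) (by omega) (by omega) (by omega)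
    · obtain ⟨rfl, rfl, h⟩ := h
      exact H.lw _ _ _ _ (by omega) (by omega) (by omega) (by omega) (by omega) (by omega)
    · obtain ⟨rfl, rfl, h⟩ := h
      exact NHT.p0 hf H.T (j := 3) (by omega) (by omega) (by omega) (by omega) (by omega) (by omega)
    · obtain ⟨rfl, rfl, h⟩ := h
      exact NHT.p0 hf H.T (j := 1) (by omega) (by omega) (by omega) (by omega) (by omega) (by omega)
    · obtain ⟨rfl, rfl, rfl, rfl⟩ := h
      exact fun t => h1 (mv t (by omega) (by omega) (by omega) (by omega))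

end Pool.Agent.SNT.L0X
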