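import Pool.Agent.SNT.L0X1
import Pool.Agent.SNT.L0X2
import Pool.Agent.SNT.L0X3
import Pool.Agent.SNT.L0X4
import Pool.Agent.SNT.L0EAsm
import Pool.Agent.SNT.K0L0b

set_option autoImplicit false
set_option linter.unusedVariables false

/-! The E-cell of the road L0 for `X ≥ 2 n' + 6` (helper85): the special position `v = k - 6`.

`c` and `n` are the row and the lead of the cycle two before, `c + 4`, `n + (k + 2)` of the cycle before; `D = X - 2 k`. -/

namespace Pool.Agent.SNT.L0X

open Pool.Agent.SNT Pool.Agent.SNT.Sig Pool.Agent.SNT.Loc Pool.Agent.SNT.LW Pool.Agent.SNT.NHZ Pool.Agent.SNT.DRun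
open Pool.Agent.SNT.D1E Pool.Agent.SNT.E1X Pool.Agent.SNT.PB Pool.Agent.SNT.L0E

variable {f : ℕ → ℕ → ℕ → ℕ → Prop}

/-- the run in the layer `6 k`, row `c - 2`, from the third cell above the wall to `d = 5` -/
theorem run0 (hf : Rule f) {k c n x y0 : ℕ} (T : NHT f k c (2 * n)) (hx : x % 2 = 1) (hy : y0 % 2 = 0)
    (hX : 2 * n ≤ x + 4) (hw : x + 5 ≤ y0 + 2 * k) (h0 : f (6 * k) (c - 2) x y0) :
    ∀ y, y0 ≤ y → y + 5 ≤ x → y % 2 = 0 → f (6 * k) (c - 2) x y := by
  have hc := T.hc
  have hb := T.hb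
  intro y h1 h2 h3
  exact col_run hf (y1 := x - 5) (by omega) (by omega) hx hy
    (fun z h4 h5 h6 => T.cIn hf (t := 4) (j := 4) (by omega) (by omega) (by omega) (by omega) (by omega) (by omega) (by omega)
      (by omega)) h0 y h1 (by omega) h3

/-- **The E-cell** for `X ≥ 2 n' + 6` (`c + 4`, `n' = n + (k + 2)` the cycle before). -/
theorem ecell6_aux (hf : Rule f) {k c n n1 X : ℕ} (H2 : PL f k c n (n - 4)) (hn1 : n1 = n + (k + 2))
    (H1 : PL f k (c + 4) n1 (n1 - 4)) (hX : 2 * n1 + 6 ≤ X) (hX2 : X % 2 = 0)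
    (D0 : Cyc f (6 * k) (c + 2) (X - 2)) (D0a : Cyc f (6 * k) (c - 2) (X - 6 - 2 * k))
    (K0 : ∀ x y : ℕ, 2 * n ≤ x + 1 → x % 2 = 1 → y + 2 * k = x + 5 →
      f (6 * k) (c - 2) x y ∨ f (6 * k) (c - 2) (x + 2) (y + 2)) :
    ¬ f (6 * k + 1) (c + 4) X (X + 2 - 2 * k) := by
  intro he
  have hk := H2.T.hk
  have hc := H2.T.hc
  have h4 := H2.T.h4
  have hb := H2.T.hb
  have hN := H2.T.hN2
  have hN1 := H1.T.hN2
  obtain ⟨D, hD⟩ : ∃ D, D + 2 * k = X := ⟨X - 2 * k, by omega⟩
  have D0' : Cyc f (6 * k) (c + 4 - 2) (X - 2) := cyc_mv D0 rfl (by omega) rfl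
  have D0a' : Cyc f (6 * k) (c + 4 - 6) (X - 6 - 2 * k) := cyc_mv D0a rfl (by omega) rfl
  have C4a : Cyc f (6 * k + 4) (c + 4 - 6) (2 * (n1 - (k + 1)) + 2) := cyc_mv H2.c4 rfl (by omega) (by omega)
  have d0 : Cyc f (6 * k) (c - 2) (D - 6) := cyc_mv D0a rfl rfl (by omega)
  -- the line of `6 k` in the row `c` below `D - 5` is missing
  have z5w : ¬ f (6 * k) c (X - 10) (D - 5) := by
    intro h
    exact a1 hf H1 (by omega) hX2 D0' D0a' C4a (mv he rfl rfl rfl (by omega)) (mv h rfl (by omega) rfl (by omega))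
  have z5 : ∀ x, x % 2 = 0 → D ≤ x → x + 10 ≤ X → ¬ f (6 * k) c x (D - 5) := by
    intro x g1 g2 g3 h
    exact z5w (row_run hf (x1 := X - 10) (by omega) hc (by omega) (by omega)
      (fun z h5 h6 h7 => H2.T.c0 hf (j := 4) (by omega) (by omega) (by omega) (by omega) (by omega) (by omega)) h
      (X - 10) (by omega) le_rfl (by omega))
  -- the run of a line of `6 k + 2` of the row `c + 2`
  have r2 : ∀ y : ℕ, y % 2 = 1 → 2 * n + 4 ≤ y → f (6 * k + 2) (c + 2) (y + 5) y →
      ∀ x, x % 2 = 0 → y + 5 ≤ x → x + 5 ≤ y + 2 * k → f (6 * k + 2) (c + 2) x y := by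
    intro y h1 h2 h3 x g1 g2 g3
    exact row_run hf (x1 := x) (by omega) (by omega) (by omega) h1
      (fun z h5 h6 h7 => H2.T.c2 hf (j := 4) (by omega) (by omega) (by omega) (by omega) (by omega) (by omega)) h3
      x (by omega) le_rfl (by omega)
  -- the beams of `6 k + 4` in the row `c + 2` do not exist
  have r4 : ∀ y : ℕ, y = D + 1 ∨ y = D + 3 → ¬ f (6 * k + 4) (c + 2) (y + 5) y := by
    intro y h1 h3
    have h5 := row_run hf (x1 := y + 2 * k - 5) (by omega) (by omega) (by omega) (by omega)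
      (fun z h5 h6 h7 => H2.T.c2 hf (j := 3) (by omega) (by omega) (by omega) (by omega) (by omega) (by omega)) h3
      (y + 2 * k - 5) (by omega) le_rfl (by omega)
    rcases h1 with h1 | h1
    · exact a4 hf H1 (by omega) hX2 D0' D0a' C4a (mv he rfl rfl rfl (by omega)) (mv h5 rfl (by omega) (by omega) (by omega))
    · exact a3 hf H1 (by omega) hX2 D0' D0a' C4a (mv he rfl rfl rfl (by omega)) (mv h5 rfl (by omega) (by omega) (by omega))
  -- one of two in-lines of `6 k + 2` is reflected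
  have l2 : f (6 * k + 2) (c + 2) (D + 4) (D - 1) := by
    by_contra hg
    rcases k0_pair hf H2 (x := D - 3) (y := D + 2 - 2 * k) (by omega) (by omega) (by omega) with h | h
    · have h1 := run2' hf H2.T (x := D - 3) (y0 := D + 2 - 2 * k) (by omega) (by omega) (by omega) (by omega) h
        (D - 8) (by omega) (by omega) (by omega)
      exact D2b hf H2 (by omega) (by omega) d0 h1 hg (fun t => r4 (D + 1) (Or.inl rfl) (mv t rfl rfl (by omega) rfl))
    · have h1 := run2' hf H2.T (x := D - 3 + 2) (y0 := D + 2 - 2 * k + 2) (by omega) (by omega) (by omega) (by omega) h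
        (D - 6) (by omega) (by omega) (by omega)
      refine D1b hf H2 (by omega) (by omega) d0 (mv h1 rfl rfl (by omega) rfl) ?_
        (fun t => r4 (D + 3) (Or.inr rfl) (mv t rfl rfl (by omega) rfl))
      intro t
      have h2 := r2 (D + 1) (by omega) (by omega) (mv t rfl rfl (by omega) rfl) (D + 1 + 2 * k - 5) (by omega) (by omega)
        (by omega)
      exact a2 hf H1 (by omega) hX2 D0' D0a' C4a (mv he rfl rfl rfl (by omega)) (mv h2 rfl (by omega) (by omega) (by omega))
  have l2w := r2 (D - 1) (by omega) (by omega) (mv l2 rfl rfl (by omega) rfl) (D - 1 + 2 * k - 5) (by omega) (by omega)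
    (by omega)
  -- the line of `6 k` in the row `c + 4`
  have y3w : f (6 * k) (c + 4) (X - 10) (D - 3) := by
    by_contra hg
    exact a5b hf H1 (by omega) hX2 D0' D0a' C4a (mv he rfl rfl rfl (by omega)) (mv l2w rfl (by omega) (by omega) (by omega))
      (fun t => hg (mv t rfl rfl rfl (by omega)))
  have y3 : ∀ x, x % 2 = 0 → D + 4 ≤ x → x + 10 ≤ X → f (6 * k) (c + 4) x (D - 3) := by
    intro x g1 g2 g3
    refine left_run hf (x0 := x) (x1 := X - 10) (by omega) (by omega) (by omega) (by omega)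
      (fun L' R' x' y' a1 a2 a3 a4 a5 a6 a7 => H2.lw _ _ _ _ (by omega) (by omega) (by omega) (by omega) (by omega)
        (by omega)) ?_ y3w x le_rfl (by omega) (by omega)
    intro R' x' y' a1 a2 a3 a4 a5 a6 t
    exact H2.T.O.after hf (t := 5) (s := 0) (j := 5) (p := 0) (q := 1) (L := 6 * k) (R := R') (x := x') (y := y')
      (by omega) (by omega) (by omega) (by omega) (by omega) (by omega) (by omega)
      (by unfold Yf; rw [if_neg (by omega)]; omega) (by omega) (by omega) t
  -- the pair of `6 k` in the row `c - 2`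
  rcases K0 (D - 9) (D - 4 - 2 * k) (by omega) (by omega) (by omega) with h | h
  · have h1 := run0 hf H2.T (x := D - 9) (y0 := D - 4 - 2 * k) (by omega) (by omega) (by omega) (by omega) h
      (D - 14) (by omega) (by omega) (by omega)
    exact F1c hf H2 (by omega) (by omega) d0 h1 (z5 D (by omega) (by omega) (by omega))
      (z5 (D + 2) (by omega) (by omega) (by omega)) (z5 (D + 4) (by omega) (by omega) (by omega))
      (y3 (D + 4) (by omega) (by omega) (by omega)) l2
  · have h1 := run0 hf H2.T (x := D - 9 + 2) (y0 := D - 4 - 2 * k + 2) (by omega) (by omega) (by omega) (by omega) h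
      (D - 12) (by omega) (by omega) (by omega)
    exact F2b hf H2 (by omega) (by omega) d0 (mv h1 rfl rfl (by omega) rfl) (z5 D (by omega) (by omega) (by omega))

end Pool.Agent.SNT.L0X

namespace Pool.Agent.SNT.D1

open Pool.Agent.SNT.D1E Pool.Agent.SNT.L0E Pool.Agent.SNT.L0X

variable {f : ℕ → ℕ → ℕ → ℕ → Prop} {k b m v : ℕ}

/-- **The E-cell** (`d = 2 k - 2`) of the column of the step `v` of the road L0, for `v + 6 ≤ k`. -/
theorem ecell6 (hf : Rule f) (S : StackA f k b m 0 0 0 0 0 1) (q4 : Q4 f k b m 0 0) (q2 : Q2 f k b m 0 0)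
    (qd : QD f k b m 0 v) (hv : v + 6 ≤ k) {x y : ℕ} (hx : x + 10 + 2 * v = 2 * nn k m 4) (hy : y + 2 * k = x + 2) :
    ¬ f (6 * k + 1) (b + 4 * 4 + 18) x y := by
  have H2 := pl_of S q4 q2 qd 2 (c := b + 30) (n := nn k m 2) (by omega) rfl
  have H1 := pl_of S q4 q2 qd 3 (c := b + 34) (n := nn k m 3) (by omega) rfl
  have e3 : nn k m 3 = nn k m 2 + (k + 2) := by
    unfold nn
    ring
  have e4 : nn k m 4 = nn k m 2 + (k + 2) + (k + 2) := by
    unfold nn
    ring
  have hN := H2.T.hN2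
  have D0 := qd 4 (by omega)
  have D0a := qd 3 (by omega)
  have S1 := S.shift 2
  have hs := S1.side
  have K0 : ∀ x y : ℕ, 2 * nn k m 2 ≤ x + 1 → x % 2 = 1 → y + 2 * k = x + 5 →
      f (6 * k) (b + 30 - 2) x y ∨ f (6 * k) (b + 30 - 2) (x + 2) (y + 2) := by
    intro x y h1 h2 h3
    have e : nn k m 2 = m + (k + 2) * 2 + 9 + (k + 2) * 4 := rfl
    have h := K0D.k0b_stack hf hs S1.stack e (cyc_of_eq ((qd 2 (by omega)).mono' (K' := 2 * (nn k m 2 - 6) + 2) (by omega)) (by omega) (by omega))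
      (cyc_of_eq ((q2 2 (by omega)).mono' (K' := 2 * (nn k m 2 - 3) + 2) (by omega)) (by omega) (by omega))
      (cyc_of_eq (q4 2 (by omega)) (by omega) (by omega)) h1 h2 h3
    have e5 : b + 4 * 2 + 20 = b + 30 - 2 := by omega
    rwa [e5] at h
  intro h
  refine ecell6_aux hf (c := b + 30) (n := nn k m 2) (n1 := nn k m 3) (X := x) H2 e3 H1 (by omega) (by omega)
    (cyc_of_eq D0 (by omega) (by omega)) (cyc_of_eq D0a (by omega) (by omega)) K0 ?_
  have e : y = x + 2 - 2 * k := by omega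
  rw [← e]
  exact h

end Pool.Agent.SNT.D1
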