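import Pool.Agent.SNT.PL

set_option autoImplicit false
set_option synthInstance.maxSize 100000
set_option synthInstance.maxHeartbeats 4000000

/-! The cells `(2 n + 2, 2 n)`, `(2 n, 2 n - 2)`, `(2 n, 2 n - 4)`, `(2 n, 2 n - 6)` of `6 k + 1` in the row `c`. -/

namespace Pool.Agent.SNT.L0E

open Pool.Agent.SNT Pool.Agent.SNT.Sig Pool.Agent.SNT.Loc Pool.Agent.SNT.LW Pool.Agent.SNT.NHZ Pool.Agent.SNT.DRun Pool.Agent.SNT.D1E

variable {f : ℕ → ℕ → ℕ → ℕ → Prop}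

theorem wp20_3_chk : check 3 4 9 9 0 0 1 1 2
    (fun j n p q => decide ((j = 1 ∧ n = 2 ∧ p = 5 ∧ q = 3)
      ∨ (j = 2 ∧ n = 2 ∧ p = 6 ∧ q = 1)))
    (fun j n p q => decide ((j = 1 ∧ n = 1 ∧ q + 4 ≤ p)
      ∨ (j = 2 ∧ n = 1 ∧ q + 3 ≤ p)
      ∨ (j = 3 ∧ n = 1 ∧ q + 3 ≤ p)
      ∨ (j = 3 ∧ n = 2 ∧ q + 3 ≤ p)))
    18
    0x2580301b080010b00025807025787025387025307022f87022f07022b07022a8701b60701b08f018d87018d07018907018887010b0f = true := by
  decide +kernel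

theorem wp20_3 (hf : Rule f) {k c n : ℕ} (H : PL f k c n (n - 4))
    (D0 : Cyc f (6 * k) (c - 2) (2 * n))
    (h0 : f (6 * k + 1) c (2 * n + 2) (2 * n)) (h1 : f (6 * k + 2) c (2 * n + 3) (2 * n - 2)) : False := by
  have hk := H.T.hk
  have hc := H.T.hc
  have h4' := H.T.h4
  have hb := H.T.hb
  have hN := H.T.hN2
  obtain ⟨a0, ha0⟩ : ∃ z, z = 6 * k + 0 := ⟨_, rfl⟩
  obtain ⟨b0, hb0⟩ : ∃ z, z + 2 = c := ⟨c - 2, by omega⟩
  obtain ⟨x0, hx0⟩ : ∃ z, z + 3 = 2 * n := ⟨2 * n - 3, by omega⟩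
  refine check_sound hf (a0 := a0) (b0 := b0) (x0 := x0) (y0 := x0) wp20_3_chk
    ⟨fun _ => rfl, fun h => absurd h (by decide), fun h => absurd h (by decide), by omega, by omega,
      by omega, by omega⟩ ?_ ?_
  · intro j m p q hr h
    obtain ⟨-, -, -, -, hp1, hp2, hq1, hq2⟩ := hr
    replace h := of_decide_eq_true h
    rcases h with h | h
    · obtain ⟨rfl, rfl, rfl, rfl⟩ := h
      exact mv h0 (by omega) (by omega) (by omega) (by omega)
    · obtain ⟨rfl, rfl, rfl, rfl⟩ := h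
      exact mv h1 (by omega) (by omega) (by omega) (by omega)
  · intro j m p q hr h
    obtain ⟨-, -, -, -, hp1, hp2, hq1, hq2⟩ := hr
    replace h := of_decide_eq_true h
    rcases h with h | h | h | h
    · obtain ⟨rfl, rfl, h⟩ := h
      exact fun t => NHT.rm1 hf H.T (p := 1) (j := 3) (by omega) (by omega) (by omega) (by omega) (by omega) (by omega) (mv t rfl (by omega) rfl rfl)
    · obtain ⟨rfl, rfl, h⟩ := h
      exact fun t => NHT.rm1 hf H.T (p := 0) (j := 2) (by omega) (by omega) (by omega) (by omega) (by omega) (by omega) (mv t rfl (by omega) rfl rfl)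
    · obtain ⟨rfl, rfl, h⟩ := h
      exact fun t => NHT.rm1 hf H.T (p := 1) (j := 2) (by omega) (by omega) (by omega) (by omega) (by omega) (by omega) (mv t rfl (by omega) rfl rfl)
    · obtain ⟨rfl, rfl, h⟩ := h
      exact NHT.p0 hf H.T (j := 2) (by omega) (by omega) (by omega) (by omega) (by omega) (by omega)

theorem wp20_5_chk : check 4 5 9 9 1 1 1 1 2
    (fun j n p q => decide ((j = 1 ∧ n = 1 ∧ q ≤ p ∧ 2 ≤ p ∧ ((p + q) % 2 = 1 ∧ p % 2 = 0))
      ∨ (j = 3 ∧ n = 2 ∧ q ≤ p ∧ (p = q ∧ p % 2 = 0))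
      ∨ (j = 2 ∧ n = 3 ∧ p = 3 ∧ q = 1)
      ∨ (j = 3 ∧ n = 3 ∧ p = 6 ∧ q = 1)))
    (fun j n p q => decide ((j = 1 ∧ n = 1 ∧ q ≤ p ∧ 2 ≤ p ∧ ¬ ((p + q) % 2 = 1 ∧ p % 2 = 0))
      ∨ (j = 3 ∧ n = 2 ∧ q ≤ p ∧ ¬ (p = q ∧ p % 2 = 0))
      ∨ (j = 2 ∧ n = 2 ∧ q + 4 ≤ p)
      ∨ (j = 4 ∧ n = 2 ∧ q + 3 ≤ p)
      ∨ (j = 4 ∧ n = 3 ∧ q + 3 ≤ p)))
    28
    0x2f08302f58003c4d202f480021c8001058003c48703c40703c00703bf87039c07039b8703978703970702fa0702f48f02f00702d18702d10702cd0702cc8702c80702c78702c38702c307021c8f01fd0701058f = true := by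
  decide +kernel

theorem wp20_5 (hf : Rule f) {k c n : ℕ} (H : PL f k c n (n - 4))
    (D0 : Cyc f (6 * k) (c - 2) (2 * n))
    (h0 : f (6 * k + 1) c (2 * n + 2) (2 * n)) (h1 : f (6 * k + 2) c (2 * n + 5) (2 * n)) : False := by
  have hk := H.T.hk
  have hc := H.T.hc
  have h4' := H.T.h4
  have hb := H.T.hb
  have hN := H.T.hN2
  obtain ⟨a0, ha0⟩ : ∃ z, z + 1 = 6 * k := ⟨6 * k - 1, by omega⟩
  obtain ⟨b0, hb0⟩ : ∃ z, z + 3 = c := ⟨c - 3, by omega⟩
  obtain ⟨x0, hx0⟩ : ∃ z, z + 1 = 2 * n := ⟨2 * n - 1, by omega⟩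
  refine check_sound hf (a0 := a0) (b0 := b0) (x0 := x0) (y0 := x0) wp20_5_chk
    ⟨fun _ => rfl, fun h => absurd h (by decide), fun h => absurd h (by decide), by omega, by omega,
      by omega, by omega⟩ ?_ ?_
  · intro j m p q hr h
    obtain ⟨-, -, -, -, hp1, hp2, hq1, hq2⟩ := hr
    replace h := of_decide_eq_true h
    rcases h with h | h | h | h
    · obtain ⟨rfl, rfl, h⟩ := h
      exact (WrapC.v0 D0 (by omega) (by omega) (by omega) (by omega) (by omega) (by omega) (by omega)).mpr (by omega)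
    · obtain ⟨rfl, rfl, h⟩ := h
      exact (WrapC.v3 H.c2 (by omega) (by omega) (by omega) (by omega) (by omega) (by omega) (by omega) (by omega)).mpr (by omega)
    · obtain ⟨rfl, rfl, rfl, rfl⟩ := h
      exact mv h0 (by omega) (by omega) (by omega) (by omega)
    · obtain ⟨rfl, rfl, rfl, rfl⟩ := h
      exact mv h1 (by omega) (by omega) (by omega) (by omega)
  · intro j m p q hr h
    obtain ⟨-, -, -, -, hp1, hp2, hq1, hq2⟩ := hr
    replace h := of_decide_eq_true h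
    rcases h with h | h | h | h | h
    · obtain ⟨rfl, rfl, h⟩ := h
      exact mt (WrapC.v0 D0 (by omega) (by omega) (by omega) (by omega) (by omega) (by omega) (by omega)).mp (by omega)
    · obtain ⟨rfl, rfl, h⟩ := h
      exact mt (WrapC.v3 H.c2 (by omega) (by omega) (by omega) (by omega) (by omega) (by omega) (by omega) (by omega)).mp (by omega)
    · obtain ⟨rfl, rfl, h⟩ := h
      exact fun t => NHT.rm1 hf H.T (p := 1) (j := 3) (by omega) (by omega) (by omega) (by omega) (by omega) (by omega) (mv t rfl (by omega) rfl rfl)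
    · obtain ⟨rfl, rfl, h⟩ := h
      exact fun t => NHT.rm1 hf H.T (p := 1) (j := 2) (by omega) (by omega) (by omega) (by omega) (by omega) (by omega) (mv t rfl (by omega) rfl rfl)
    · obtain ⟨rfl, rfl, h⟩ := h
      exact NHT.p0 hf H.T (j := 2) (by omega) (by omega) (by omega) (by omega) (by omega) (by omega)

theorem wp02_3_chk : check 4 5 9 9 1 1 1 1 2
    (fun j n p q => decide ((j = 1 ∧ n = 1 ∧ q ≤ p ∧ 2 ≤ p ∧ ((p + q) % 2 = 1 ∧ p % 2 = 0))
      ∨ (j = 3 ∧ n = 2 ∧ q ≤ p ∧ (p = q ∧ p % 2 = 0))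
      ∨ (j = 2 ∧ n = 3 ∧ p = 3 ∧ q = 1)
      ∨ (j = 3 ∧ n = 3 ∧ p = 6 ∧ q = 1)))
    (fun j n p q => decide ((j = 1 ∧ n = 1 ∧ q ≤ p ∧ 2 ≤ p ∧ ¬ ((p + q) % 2 = 1 ∧ p % 2 = 0))
      ∨ (j = 3 ∧ n = 2 ∧ q ≤ p ∧ ¬ (p = q ∧ p % 2 = 0))
      ∨ (j = 2 ∧ n = 2 ∧ q + 4 ≤ p)
      ∨ (j = 4 ∧ n = 2 ∧ q + 3 ≤ p)
      ∨ (j = 4 ∧ n = 3 ∧ q + 3 ≤ p)))
    28
    0x2f08302f58003c4d202f480021c8001058003c48703c40703c00703bf87039c07039b8703978703970702fa0702f48f02f00702d18702d10702cd0702cc8702c80702c78702c38702c307021c8f01fd0701058f = true := by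
  decide +kernel

theorem wp02_3 (hf : Rule f) {k c n : ℕ} (H : PL f k c n (n - 4))
    (D0 : Cyc f (6 * k) (c - 2) (2 * n - 2))
    (h0 : f (6 * k + 1) c (2 * n) (2 * n - 2)) (h1 : f (6 * k + 2) c (2 * n + 3) (2 * n - 2)) : False := by
  have hk := H.T.hk
  have hc := H.T.hc
  have h4' := H.T.h4
  have hb := H.T.hb
  have hN := H.T.hN2
  obtain ⟨a0, ha0⟩ : ∃ z, z + 1 = 6 * k := ⟨6 * k - 1, by omega⟩
  obtain ⟨b0, hb0⟩ : ∃ z, z + 3 = c := ⟨c - 3, by omega⟩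
  obtain ⟨x0, hx0⟩ : ∃ z, z + 3 = 2 * n := ⟨2 * n - 3, by omega⟩
  refine check_sound hf (a0 := a0) (b0 := b0) (x0 := x0) (y0 := x0) wp02_3_chk
    ⟨fun _ => rfl, fun h => absurd h (by decide), fun h => absurd h (by decide), by omega, by omega,
      by omega, by omega⟩ ?_ ?_
  · intro j m p q hr h
    obtain ⟨-, -, -, -, hp1, hp2, hq1, hq2⟩ := hr
    replace h := of_decide_eq_true h
    rcases h with h | h | h | h
    · obtain ⟨rfl, rfl, h⟩ := h
      exact (WrapC.v0 D0 (by omega) (by omega) (by omega) (by omega) (by omega) (by omega) (by omega)).mpr (by omega)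
    · obtain ⟨rfl, rfl, h⟩ := h
      exact (WrapC.v3 H.c2 (by omega) (by omega) (by omega) (by omega) (by omega) (by omega) (by omega) (by omega)).mpr (by omega)
    · obtain ⟨rfl, rfl, rfl, rfl⟩ := h
      exact mv h0 (by omega) (by omega) (by omega) (by omega)
    · obtain ⟨rfl, rfl, rfl, rfl⟩ := h
      exact mv h1 (by omega) (by omega) (by omega) (by omega)
  · intro j m p q hr h
    obtain ⟨-, -, -, -, hp1, hp2, hq1, hq2⟩ := hr
    replace h := of_decide_eq_true h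
    rcases h with h | h | h | h | h
    · obtain ⟨rfl, rfl, h⟩ := h
      exact mt (WrapC.v0 D0 (by omega) (by omega) (by omega) (by omega) (by omega) (by omega) (by omega)).mp (by omega)
    · obtain ⟨rfl, rfl, h⟩ := h
      exact mt (WrapC.v3 H.c2 (by omega) (by omega) (by omega) (by omega) (by omega) (by omega) (by omega) (by omega)).mp (by omega)
    · obtain ⟨rfl, rfl, h⟩ := h
      exact fun t => NHT.rm1 hf H.T (p := 1) (j := 3) (by omega) (by omega) (by omega) (by omega) (by omega) (by omega) (mv t rfl (by omega) rfl rfl)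
    · obtain ⟨rfl, rfl, h⟩ := h
      exact fun t => NHT.rm1 hf H.T (p := 1) (j := 2) (by omega) (by omega) (by omega) (by omega) (by omega) (by omega) (mv t rfl (by omega) rfl rfl)
    · obtain ⟨rfl, rfl, h⟩ := h
      exact NHT.p0 hf H.T (j := 2) (by omega) (by omega) (by omega) (by omega) (by omega) (by omega)

theorem wp02_5_chk : check 4 5 10 10 1 1 1 1 2
    (fun j n p q => decide ((j = 1 ∧ n = 1 ∧ q ≤ p ∧ 2 ≤ p ∧ ((p + q) % 2 = 1 ∧ p % 2 = 0))
      ∨ (j = 1 ∧ n = 3 ∧ q ≤ p ∧ 3 ≤ q ∧ ((p + q) % 2 = 1 ∧ p % 2 = 1))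
      ∨ (j = 3 ∧ n = 2 ∧ q ≤ p ∧ (p = q ∧ p % 2 = 0))
      ∨ (j = 2 ∧ n = 3 ∧ p = 3 ∧ q = 1)
      ∨ (j = 3 ∧ n = 3 ∧ p = 8 ∧ q = 3)))
    (fun j n p q => decide ((j = 1 ∧ n = 1 ∧ q ≤ p ∧ 2 ≤ p ∧ ¬ ((p + q) % 2 = 1 ∧ p % 2 = 0))
      ∨ (j = 1 ∧ n = 3 ∧ q ≤ p ∧ 3 ≤ q ∧ ¬ ((p + q) % 2 = 1 ∧ p % 2 = 1))
      ∨ (j = 3 ∧ n = 2 ∧ q ≤ p ∧ ¬ (p = q ∧ p % 2 = 0))
      ∨ (j = 2 ∧ n = 2 ∧ q + 4 ≤ p)
      ∨ (j = 4 ∧ n = 2 ∧ q + 3 ≤ p)
      ∨ (j = 2 ∧ n = 3 ∧ q + 4 ≤ p)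
      ∨ (j = 4 ∧ n = 3 ∧ q + 3 ≤ p)))
    32
    0x4a28302a400039e4204a283039e00039e0403ad8002998001408004a28704a207049d87049d07047087047007046b87046b0703ad8f03a887039d87037687037607037187037107036c07036b8703670703668702a38702998f02718701408f = true := by
  decide +kernel

theorem wp02_5 (hf : Rule f) {k c n : ℕ} (H : PL f k c n (n - 4))
    (D0 : Cyc f (6 * k) (c - 2) (2 * n - 2))
    (h0 : f (6 * k + 1) c (2 * n) (2 * n - 2)) (h1 : f (6 * k + 2) c (2 * n + 5) (2 * n)) : False := by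
  have hk := H.T.hk
  have hc := H.T.hc
  have h4' := H.T.h4
  have hb := H.T.hb
  have hN := H.T.hN2
  obtain ⟨a0, ha0⟩ : ∃ z, z + 1 = 6 * k := ⟨6 * k - 1, by omega⟩
  obtain ⟨b0, hb0⟩ : ∃ z, z + 3 = c := ⟨c - 3, by omega⟩
  obtain ⟨x0, hx0⟩ : ∃ z, z + 3 = 2 * n := ⟨2 * n - 3, by omega⟩
  refine check_sound hf (a0 := a0) (b0 := b0) (x0 := x0) (y0 := x0) wp02_5_chk
    ⟨fun _ => rfl, fun h => absurd h (by decide), fun h => absurd h (by decide), by omega, by omega,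
      by omega, by omega⟩ ?_ ?_
  · intro j m p q hr h
    obtain ⟨-, -, -, -, hp1, hp2, hq1, hq2⟩ := hr
    replace h := of_decide_eq_true h
    rcases h with h | h | h | h | h
    · obtain ⟨rfl, rfl, h⟩ := h
      exact (WrapC.v0 D0 (by omega) (by omega) (by omega) (by omega) (by omega) (by omega) (by omega)).mpr (by omega)
    · obtain ⟨rfl, rfl, h⟩ := h
      exact (WrapC.v2 D0 (by omega) (by omega) (by omega) (by omega) (by omega) (by omega) (by omega)).mpr (by omega)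
    · obtain ⟨rfl, rfl, h⟩ := h
      exact (WrapC.v3 H.c2 (by omega) (by omega) (by omega) (by omega) (by omega) (by omega) (by omega) (by omega)).mpr (by omega)
    · obtain ⟨rfl, rfl, rfl, rfl⟩ := h
      exact mv h0 (by omega) (by omega) (by omega) (by omega)
    · obtain ⟨rfl, rfl, rfl, rfl⟩ := h
      exact mv h1 (by omega) (by omega) (by omega) (by omega)
  · intro j m p q hr h
    obtain ⟨-, -, -, -, hp1, hp2, hq1, hq2⟩ := hr
    replace h := of_decide_eq_true h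
    rcases h with h | h | h | h | h | h | h
    · obtain ⟨rfl, rfl, h⟩ := h
      exact mt (WrapC.v0 D0 (by omega) (by omega) (by omega) (by omega) (by omega) (by omega) (by omega)).mp (by omega)
    · obtain ⟨rfl, rfl, h⟩ := h
      exact mt (WrapC.v2 D0 (by omega) (by omega) (by omega) (by omega) (by omega) (by omega) (by omega)).mp (by omega)
    · obtain ⟨rfl, rfl, h⟩ := h
      exact mt (WrapC.v3 H.c2 (by omega) (by omega) (by omega) (by omega) (by omega) (by omega) (by omega) (by omega)).mp (by omega)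
    · obtain ⟨rfl, rfl, h⟩ := h
      exact fun t => NHT.rm1 hf H.T (p := 1) (j := 3) (by omega) (by omega) (by omega) (by omega) (by omega) (by omega) (mv t rfl (by omega) rfl rfl)
    · obtain ⟨rfl, rfl, h⟩ := h
      exact fun t => NHT.rm1 hf H.T (p := 1) (j := 2) (by omega) (by omega) (by omega) (by omega) (by omega) (by omega) (mv t rfl (by omega) rfl rfl)
    · obtain ⟨rfl, rfl, h⟩ := h
      exact NHT.p0 hf H.T (j := 3) (by omega) (by omega) (by omega) (by omega) (by omega) (by omega)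
    · obtain ⟨rfl, rfl, h⟩ := h
      exact NHT.p0 hf H.T (j := 2) (by omega) (by omega) (by omega) (by omega) (by omega) (by omega)

theorem wp04_3_chk : check 2 4 10 10 0 0 1 1 2
    (fun j n p q => decide ((j = 1 ∧ n = 2 ∧ p = 5 ∧ q = 1)
      ∨ (j = 2 ∧ n = 2 ∧ p = 8 ∧ q = 3)))
    (fun j n p q => decide ((j = 1 ∧ n = 1 ∧ q + 4 ≤ p)
      ∨ (j = 2 ∧ n = 1 ∧ q + 3 ≤ p)
      ∨ (j = 1 ∧ n = 2 ∧ 7 ≤ p ∧ q + 5 ≤ p)))
    17
    0x21805021d80021801014580021d8f02178701e60701e58701e10701e087015007014f8701458f011e07011d87011907011887 = true := by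
  decide +kernel

theorem wp04_3 (hf : Rule f) {k c n : ℕ} (H : PL f k c n (n - 4))
    (D0 : Cyc f (6 * k) (c - 2) (2 * n - 2))
    (h0 : f (6 * k + 1) c (2 * n) (2 * n - 4)) (h1 : f (6 * k + 2) c (2 * n + 3) (2 * n - 2)) : False := by
  have hk := H.T.hk
  have hc := H.T.hc
  have h4' := H.T.h4
  have hb := H.T.hb
  have hN := H.T.hN2
  obtain ⟨a0, ha0⟩ : ∃ z, z = 6 * k + 0 := ⟨_, rfl⟩
  obtain ⟨b0, hb0⟩ : ∃ z, z + 2 = c := ⟨c - 2, by omega⟩
  obtain ⟨x0, hx0⟩ : ∃ z, z + 5 = 2 * n := ⟨2 * n - 5, by omega⟩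
  refine check_sound hf (a0 := a0) (b0 := b0) (x0 := x0) (y0 := x0) wp04_3_chk
    ⟨fun _ => rfl, fun h => absurd h (by decide), fun h => absurd h (by decide), by omega, by omega,
      by omega, by omega⟩ ?_ ?_
  · intro j m p q hr h
    obtain ⟨-, -, -, -, hp1, hp2, hq1, hq2⟩ := hr
    replace h := of_decide_eq_true h
    rcases h with h | h
    · obtain ⟨rfl, rfl, rfl, rfl⟩ := h
      exact mv h0 (by omega) (by omega) (by omega) (by omega)
    · obtain ⟨rfl, rfl, rfl, rfl⟩ := h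
      exact mv h1 (by omega) (by omega) (by omega) (by omega)
  · intro j m p q hr h
    obtain ⟨-, -, -, -, hp1, hp2, hq1, hq2⟩ := hr
    replace h := of_decide_eq_true h
    rcases h with h | h | h
    · obtain ⟨rfl, rfl, h⟩ := h
      exact fun t => NHT.rm1 hf H.T (p := 1) (j := 3) (by omega) (by omega) (by omega) (by omega) (by omega) (by omega) (mv t rfl (by omega) rfl rfl)
    · obtain ⟨rfl, rfl, h⟩ := h
      exact fun t => NHT.rm1 hf H.T (p := 0) (j := 2) (by omega) (by omega) (by omega) (by omega) (by omega) (by omega) (mv t rfl (by omega) rfl rfl)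
    · obtain ⟨rfl, rfl, h⟩ := h
      exact NHT.p0i hf H.T (j := 4) (by omega) (by omega) (by omega) (by omega) (by omega) (by omega)

theorem wp04_5_chk : check 3 4 12 12 0 0 1 1 2
    (fun j n p q => decide ((j = 1 ∧ n = 2 ∧ p = 5 ∧ q = 1)
      ∨ (j = 2 ∧ n = 2 ∧ p = 10 ∧ q = 5)))
    (fun j n p q => decide ((j = 1 ∧ n = 1 ∧ q + 4 ≤ p)
      ∨ (j = 2 ∧ n = 1 ∧ q + 3 ≤ p)
      ∨ (j = 3 ∧ n = 1 ∧ q + 3 ≤ p)
      ∨ (j = 1 ∧ n = 2 ∧ 7 ≤ p ∧ q + 5 ≤ p)
      ∨ (j = 3 ∧ n = 2 ∧ 7 ≤ p ∧ q + 4 ≤ p)))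
    42
    0x42783030d8002fb00042e4a030e8002fb0101ce80042e07042d8704280704278704270704218704210703e60703e58703e00703df8703df0703d98703d907030e8f03078702fa8702c60702c58702c00702bf8702bf0702b98702b90702b30702b28702ad0702ac8701db0701da8701ce8f019307019287018d07018c87 = true := by
  decide +kernel

theorem wp04_5 (hf : Rule f) {k c n : ℕ} (H : PL f k c n (n - 4))
    (D0 : Cyc f (6 * k) (c - 2) (2 * n - 2))
    (h0 : f (6 * k + 1) c (2 * n) (2 * n - 4)) (h1 : f (6 * k + 2) c (2 * n + 5) (2 * n)) : False := by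
  have hk := H.T.hk
  have hc := H.T.hc
  have h4' := H.T.h4
  have hb := H.T.hb
  have hN := H.T.hN2
  obtain ⟨a0, ha0⟩ : ∃ z, z = 6 * k + 0 := ⟨_, rfl⟩
  obtain ⟨b0, hb0⟩ : ∃ z, z + 2 = c := ⟨c - 2, by omega⟩
  obtain ⟨x0, hx0⟩ : ∃ z, z + 5 = 2 * n := ⟨2 * n - 5, by omega⟩
  refine check_sound hf (a0 := a0) (b0 := b0) (x0 := x0) (y0 := x0) wp04_5_chk
    ⟨fun _ => rfl, fun h => absurd h (by decide), fun h => absurd h (by decide), by omega, by omega,
      by omega, by omega⟩ ?_ ?_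
  · intro j m p q hr h
    obtain ⟨-, -, -, -, hp1, hp2, hq1, hq2⟩ := hr
    replace h := of_decide_eq_true h
    rcases h with h | h
    · obtain ⟨rfl, rfl, rfl, rfl⟩ := h
      exact mv h0 (by omega) (by omega) (by omega) (by omega)
    · obtain ⟨rfl, rfl, rfl, rfl⟩ := h
      exact mv h1 (by omega) (by omega) (by omega) (by omega)
  · intro j m p q hr h
    obtain ⟨-, -, -, -, hp1, hp2, hq1, hq2⟩ := hr
    replace h := of_decide_eq_true h
    rcases h with h | h | h | h | h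
    · obtain ⟨rfl, rfl, h⟩ := h
      exact fun t => NHT.rm1 hf H.T (p := 1) (j := 3) (by omega) (by omega) (by omega) (by omega) (by omega) (by omega) (mv t rfl (by omega) rfl rfl)
    · obtain ⟨rfl, rfl, h⟩ := h
      exact fun t => NHT.rm1 hf H.T (p := 0) (j := 2) (by omega) (by omega) (by omega) (by omega) (by omega) (by omega) (mv t rfl (by omega) rfl rfl)
    · obtain ⟨rfl, rfl, h⟩ := h
      exact fun t => NHT.rm1 hf H.T (p := 1) (j := 2) (by omega) (by omega) (by omega) (by omega) (by omega) (by omega) (mv t rfl (by omega) rfl rfl)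
    · obtain ⟨rfl, rfl, h⟩ := h
      exact NHT.p0i hf H.T (j := 4) (by omega) (by omega) (by omega) (by omega) (by omega) (by omega)
    · obtain ⟨rfl, rfl, h⟩ := h
      exact NHT.p0i hf H.T (j := 3) (by omega) (by omega) (by omega) (by omega) (by omega) (by omega)

theorem wp06_3_chk : check 2 4 12 12 0 0 1 1 2
    (fun j n p q => decide ((j = 1 ∧ n = 2 ∧ p = 7 ∧ q = 1)
      ∨ (j = 2 ∧ n = 2 ∧ p = 10 ∧ q = 5)))
    (fun j n p q => decide ((j = 1 ∧ n = 1 ∧ 4 ≤ p ∧ q + 5 ≤ p)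
      ∨ (j = 2 ∧ n = 1 ∧ 4 ≤ p ∧ q + 4 ≤ p)
      ∨ (j = 1 ∧ n = 2 ∧ 9 ≤ p ∧ q + 5 ≤ p)))
    31
    0x30e03030700030e8003070101da80030e8f03078703068702c60702c58702c00702bf8702bf0702be8702b90702b88701ee0701ed8701e80701e78701e70701e68701da8f01a60701a58701a007019f87019f07019e87019907019887 = true := by
  decide +kernel

theorem wp06_3 (hf : Rule f) {k c n : ℕ} (H : PL f k c n (n - 4))
    (D0 : Cyc f (6 * k) (c - 2) (2 * n - 2))
    (h0 : f (6 * k + 1) c (2 * n) (2 * n - 6)) (h1 : f (6 * k + 2) c (2 * n + 3) (2 * n - 2)) : False := by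
  have hk := H.T.hk
  have hc := H.T.hc
  have h4' := H.T.h4
  have hb := H.T.hb
  have hN := H.T.hN2
  obtain ⟨a0, ha0⟩ : ∃ z, z = 6 * k + 0 := ⟨_, rfl⟩
  obtain ⟨b0, hb0⟩ : ∃ z, z + 2 = c := ⟨c - 2, by omega⟩
  obtain ⟨x0, hx0⟩ : ∃ z, z + 7 = 2 * n := ⟨2 * n - 7, by omega⟩
  refine check_sound hf (a0 := a0) (b0 := b0) (x0 := x0) (y0 := x0) wp06_3_chk
    ⟨fun _ => rfl, fun h => absurd h (by decide), fun h => absurd h (by decide), by omega, by omega,
      by omega, by omega⟩ ?_ ?_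
  · intro j m p q hr h
    obtain ⟨-, -, -, -, hp1, hp2, hq1, hq2⟩ := hr
    replace h := of_decide_eq_true h
    rcases h with h | h
    · obtain ⟨rfl, rfl, rfl, rfl⟩ := h
      exact mv h0 (by omega) (by omega) (by omega) (by omega)
    · obtain ⟨rfl, rfl, rfl, rfl⟩ := h
      exact mv h1 (by omega) (by omega) (by omega) (by omega)
  · intro j m p q hr h
    obtain ⟨-, -, -, -, hp1, hp2, hq1, hq2⟩ := hr
    replace h := of_decide_eq_true h
    rcases h with h | h | h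
    · obtain ⟨rfl, rfl, h⟩ := h
      exact fun t => NHT.rm1i hf H.T (p := 1) (j := 4) (by omega) (by omega) (by omega) (by omega) (by omega) (by omega) (mv t rfl (by omega) rfl rfl)
    · obtain ⟨rfl, rfl, h⟩ := h
      exact fun t => NHT.rm1i hf H.T (p := 0) (j := 3) (by omega) (by omega) (by omega) (by omega) (by omega) (by omega) (mv t rfl (by omega) rfl rfl)
    · obtain ⟨rfl, rfl, h⟩ := h
      exact NHT.p0i hf H.T (j := 4) (by omega) (by omega) (by omega) (by omega) (by omega) (by omega)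

theorem wp06_5_chk : check 3 4 14 14 0 0 1 1 2
    (fun j n p q => decide ((j = 1 ∧ n = 2 ∧ p = 7 ∧ q = 1)
      ∨ (j = 2 ∧ n = 2 ∧ p = 12 ∧ q = 7)))
    (fun j n p q => decide ((j = 1 ∧ n = 1 ∧ 4 ≤ p ∧ q + 5 ≤ p ∧ p ≤ q + 10)
      ∨ (j = 2 ∧ n = 1 ∧ 4 ≤ p ∧ q + 4 ≤ p)
      ∨ (j = 3 ∧ n = 1 ∧ 2 ≤ q ∧ q + 3 ≤ p)
      ∨ (j = 1 ∧ n = 2 ∧ 9 ≤ p ∧ q + 5 ≤ p ∧ p ≤ q + 10)
      ∨ (j = 3 ∧ n = 2 ∧ 9 ≤ p ∧ q + 4 ≤ p)))
    60
    0x42985042200042a0a05aaca042a8004140005b34a042b80041401027d8005b30705b28705ac0705ab8705aa8705aa0705a38705a307055107055087054a07054987054887054807054187054107042b8f04238704228704138703c90703c88703c80703c78703c20703c18703c10703c08703c00703b98703b90703b20703b18703ab0703aa8702a20702a187029b07029a87028c07028b87027d8f024007023f87023907023887022a07022987022307022287 = true := by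
  decide +kernel

theorem wp06_5 (hf : Rule f) {k c n : ℕ} (H : PL f k c n (n - 4))
    (D0 : Cyc f (6 * k) (c - 2) (2 * n - 2))
    (h0 : f (6 * k + 1) c (2 * n) (2 * n - 6)) (h1 : f (6 * k + 2) c (2 * n + 5) (2 * n)) : False := by
  have hk := H.T.hk
  have hc := H.T.hc
  have h4' := H.T.h4
  have hb := H.T.hb
  have hN := H.T.hN2
  obtain ⟨a0, ha0⟩ : ∃ z, z = 6 * k + 0 := ⟨_, rfl⟩
  obtain ⟨b0, hb0⟩ : ∃ z, z + 2 = c := ⟨c - 2, by omega⟩
  obtain ⟨x0, hx0⟩ : ∃ z, z + 7 = 2 * n := ⟨2 * n - 7, by omega⟩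
  refine check_sound hf (a0 := a0) (b0 := b0) (x0 := x0) (y0 := x0) wp06_5_chk
    ⟨fun _ => rfl, fun h => absurd h (by decide), fun h => absurd h (by decide), by omega, by omega,
      by omega, by omega⟩ ?_ ?_
  · intro j m p q hr h
    obtain ⟨-, -, -, -, hp1, hp2, hq1, hq2⟩ := hr
    replace h := of_decide_eq_true h
    rcases h with h | h
    · obtain ⟨rfl, rfl, rfl, rfl⟩ := h
      exact mv h0 (by omega) (by omega) (by omega) (by omega)
    · obtain ⟨rfl, rfl, rfl, rfl⟩ := h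
      exact mv h1 (by omega) (by omega) (by omega) (by omega)
  · intro j m p q hr h
    obtain ⟨-, -, -, -, hp1, hp2, hq1, hq2⟩ := hr
    replace h := of_decide_eq_true h
    rcases h with h | h | h | h | h
    · obtain ⟨rfl, rfl, h⟩ := h
      exact fun t => NHT.rm1i hf H.T (p := 1) (j := 4) (by omega) (by omega) (by omega) (by omega) (by omega) (by omega) (mv t rfl (by omega) rfl rfl)
    · obtain ⟨rfl, rfl, h⟩ := h
      exact fun t => NHT.rm1i hf H.T (p := 0) (j := 3) (by omega) (by omega) (by omega) (by omega) (by omega) (by omega) (mv t rfl (by omega) rfl rfl)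
    · obtain ⟨rfl, rfl, h⟩ := h
      exact fun t => NHT.rm1 hf H.T (p := 1) (j := 2) (by omega) (by omega) (by omega) (by omega) (by omega) (by omega) (mv t rfl (by omega) rfl rfl)
    · obtain ⟨rfl, rfl, h⟩ := h
      exact NHT.p0i hf H.T (j := 4) (by omega) (by omega) (by omega) (by omega) (by omega) (by omega)
    · obtain ⟨rfl, rfl, h⟩ := h
      exact NHT.p0i hf H.T (j := 3) (by omega) (by omega) (by omega) (by omega) (by omega) (by omega)


end Pool.Agent.SNT.L0E
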