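import Pool.Agent.SNT.PL

set_option autoImplicit false
set_option synthInstance.maxSize 100000
set_option synthInstance.maxHeartbeats 4000000

/-! The cell `d = 2` of the columns of the road L0. -/

namespace Pool.Agent.SNT.L0E

open Pool.Agent.SNT Pool.Agent.SNT.Sig Pool.Agent.SNT.Loc Pool.Agent.SNT.LW Pool.Agent.SNT.NHZ Pool.Agent.SNT.DRun Pool.Agent.SNT.D1E

variable {f : ℕ → ℕ → ℕ → ℕ → Prop}

theorem wq2_chk : check 9 7 10 10 0 1 1 1 2
    (fun j n p q => decide ((j = 2 ∧ n = 1 ∧ q ≤ p ∧ ((p + q) % 2 = 1 ∧ p % 2 = 1))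
      ∨ (j = 2 ∧ n = 2 ∧ q ≤ p ∧ (p = q ∧ p % 2 = 0))
      ∨ (j = 4 ∧ n = 1 ∧ q ≤ p ∧ 6 ≤ p ∧ ((p + q) % 2 = 1 ∧ p % 2 = 0))
      ∨ (j = 6 ∧ n = 2 ∧ q ≤ p ∧ (p = q ∧ p % 2 = 0))
      ∨ (j = 8 ∧ n = 3 ∧ q ≤ p ∧ ((p + q) % 2 = 1 ∧ p % 2 = 1))
      ∨ (j = 8 ∧ n = 4 ∧ q ≤ p ∧ (p = q ∧ p % 2 = 0))
      ∨ (j = 1 ∧ n = 3 ∧ p = 5 ∧ q = 3)))
    (fun j n p q => decide ((j = 2 ∧ n = 1 ∧ q ≤ p ∧ ¬ ((p + q) % 2 = 1 ∧ p % 2 = 1))
      ∨ (j = 2 ∧ n = 2 ∧ q ≤ p ∧ ¬ (p = q ∧ p % 2 = 0))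
      ∨ (j = 4 ∧ n = 1 ∧ q ≤ p ∧ 6 ≤ p ∧ ¬ ((p + q) % 2 = 1 ∧ p % 2 = 0))
      ∨ (j = 6 ∧ n = 2 ∧ q ≤ p ∧ ¬ (p = q ∧ p % 2 = 0))
      ∨ (j = 8 ∧ n = 3 ∧ q ≤ p ∧ ¬ ((p + q) % 2 = 1 ∧ p % 2 = 1))
      ∨ (j = 8 ∧ n = 4 ∧ q ≤ p ∧ ¬ (p = q ∧ p % 2 = 0))
      ∨ (j = 3 ∧ n = 1 ∧ q + 2 ≤ p)
      ∨ (j = 5 ∧ n = 1 ∧ q + 1 ≤ p)
      ∨ (j = 1 ∧ n = 2 ∧ q + 4 ≤ p)
      ∨ (j = 3 ∧ n = 2 ∧ q + 3 ≤ p)
      ∨ (j = 5 ∧ n = 2 ∧ q + 2 ≤ p)
      ∨ (j = 7 ∧ n = 2 ∧ q + 1 ≤ p)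
      ∨ (j = 8 ∧ n = 2 ∧ q + 1 ≤ p)
      ∨ (j = 9 ∧ n = 2 ∧ q + 1 ≤ p)
      ∨ (j = 1 ∧ n = 3 ∧ q + 4 ≤ p)
      ∨ (j = 5 ∧ n = 3 ∧ q + 2 ≤ p)
      ∨ (j = 7 ∧ n = 3 ∧ q + 1 ≤ p)
      ∨ (j = 1 ∧ n = 4 ∧ q + 5 ≤ p)
      ∨ (j = 2 ∧ n = 4 ∧ 4 ≤ p ∧ q + 5 ≤ p)
      ∨ (j = 3 ∧ n = 4 ∧ 4 ≤ p ∧ q + 5 ≤ p)
      ∨ (j = 4 ∧ n = 4 ∧ q + 3 ≤ p)
      ∨ (j = 5 ∧ n = 4 ∧ q + 3 ≤ p)
      ∨ (j = 6 ∧ n = 4 ∧ q + 2 ≤ p)
      ∨ (j = 7 ∧ n = 4 ∧ q + 2 ≤ p)
      ∨ (j = 5 ∧ n = 5 ∧ 5 ≤ q ∧ q + 3 ≤ p)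
      ∨ (j = 9 ∧ n = 5 ∧ 5 ≤ q ∧ q + 1 ≤ p)))
    84
    0xa8003078c8007919204d00004d00104c58304ca8004ca8404c20e07838304c20004c2040d73830a80000a800405bc000bd9000bac0008b90007910e07908e078c0e078b8e075f0e075e8e075a0e07598e05ca8005c98005c98e033600032b0003090003080002fe00020e800d73870d73070d6e070c10870be3870be3070bde870bde070bd90f0bac0f0a7f870a4e070a4d870a488709218708ef8708b90f079187079107079087078c07078b87075f87075f07075e87075a0707598706338706208705ca8f05c98f049d87036c87036287034007033f87033b07033a8703360f033587033507033087033007032b0f03090f03080f02fe0f020e8f = true := by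
  decide +kernel

theorem wq2 (hf : Rule f) {k c n X : ℕ} (H : PL f k c n (n - 4)) (hX : 2 * n + 4 ≤ X) (ho : X % 2 = 0)
    (D0 : Cyc f (6 * k) (c - 2) (X - 2)) (D0a : Cyc f (6 * k) (c - 6) (X - 6 - 2 * k)) :
    ¬ f (6 * k + 1) c X (X - 2) := by
  intro h0
  have hk := H.T.hk
  have hc := H.T.hc
  have h4' := H.T.h4
  have hb := H.T.hb
  have hN := H.T.hN2
  obtain ⟨a0, ha0⟩ : ∃ z, z = 6 * k + 0 := ⟨_, rfl⟩
  obtain ⟨b0, hb0⟩ : ∃ z, z + 3 = c := ⟨c - 3, by omega⟩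
  obtain ⟨x0, hx0⟩ : ∃ z, z + 5 = X := ⟨X - 5, by omega⟩
  refine check_sound hf (a0 := a0) (b0 := b0) (x0 := x0) (y0 := x0) wq2_chk
    ⟨fun _ => rfl, fun h => absurd h (by decide), fun h => absurd h (by decide), by omega, by omega,
      by omega, by omega⟩ ?_ ?_
  · intro j m p q hr h
    obtain ⟨-, -, -, -, hp1, hp2, hq1, hq2⟩ := hr
    replace h := of_decide_eq_true h
    rcases h with h | h | h | h | h | h | h
    · obtain ⟨rfl, rfl, h⟩ := h
      exact (WrapC.v2 H.c2 (by omega) (by omega) (by omega) (by omega) (by omega) (by omega) (by omega)).mpr (by omega)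
    · obtain ⟨rfl, rfl, h⟩ := h
      exact (WrapC.v3 H.c2 (by omega) (by omega) (by omega) (by omega) (by omega) (by omega) (by omega) (by omega)).mpr (by omega)
    · obtain ⟨rfl, rfl, h⟩ := h
      exact (WrapC.v0 H.c4 (by omega) (by omega) (by omega) (by omega) (by omega) (by omega) (by omega)).mpr (by omega)
    · obtain ⟨rfl, rfl, h⟩ := h
      exact (WrapC.v3 H.c6 (by omega) (by omega) (by omega) (by omega) (by omega) (by omega) (by omega) (by omega)).mpr (by omega)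
    · obtain ⟨rfl, rfl, h⟩ := h
      exact (NW.w2v H.c8 (by omega) (by omega) (by omega) (by omega) (by omega) (by omega) (by omega)).mpr (by omega)
    · obtain ⟨rfl, rfl, h⟩ := h
      exact (NW.w3v H.c8 (by omega) (by omega) (by omega) (by omega) (by omega) (by omega) (by omega) (by omega)).mpr (by omega)
    · obtain ⟨rfl, rfl, rfl, rfl⟩ := h
      exact mv h0 (by omega) (by omega) (by omega) (by omega)
  · intro j m p q hr h
    obtain ⟨-, -, -, -, hp1, hp2, hq1, hq2⟩ := hr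
    replace h := of_decide_eq_true h
    rcases h with h | h | h | h | h | h | h | h | h | h | h | h | h | h | h | h | h | h | h | h | h | h | h | h | h | h
    · obtain ⟨rfl, rfl, h⟩ := h
      exact mt (WrapC.v2 H.c2 (by omega) (by omega) (by omega) (by omega) (by omega) (by omega) (by omega)).mp (by omega)
    · obtain ⟨rfl, rfl, h⟩ := h
      exact mt (WrapC.v3 H.c2 (by omega) (by omega) (by omega) (by omega) (by omega) (by omega) (by omega) (by omega)).mp (by omega)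
    · obtain ⟨rfl, rfl, h⟩ := h
      exact mt (WrapC.v0 H.c4 (by omega) (by omega) (by omega) (by omega) (by omega) (by omega) (by omega)).mp (by omega)
    · obtain ⟨rfl, rfl, h⟩ := h
      exact mt (WrapC.v3 H.c6 (by omega) (by omega) (by omega) (by omega) (by omega) (by omega) (by omega) (by omega)).mp (by omega)
    · obtain ⟨rfl, rfl, h⟩ := h
      exact mt (NW.w2v H.c8 (by omega) (by omega) (by omega) (by omega) (by omega) (by omega) (by omega)).mp (by omega)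
    · obtain ⟨rfl, rfl, h⟩ := h
      exact mt (NW.w3v H.c8 (by omega) (by omega) (by omega) (by omega) (by omega) (by omega) (by omega) (by omega)).mp (by omega)
    · obtain ⟨rfl, rfl, h⟩ := h
      exact NHT.pm hf H.T (j := 1) (by omega) (by omega) (by omega) (by omega) (by omega) (by omega)
    · obtain ⟨rfl, rfl, h⟩ := h
      exact NHT.pm hf H.T (j := 0) (by omega) (by omega) (by omega) (by omega) (by omega) (by omega)
    · obtain ⟨rfl, rfl, h⟩ := h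
      exact fun t => NHT.rm1 hf H.T (p := 1) (j := 3) (by omega) (by omega) (by omega) (by omega) (by omega) (by omega) (mv t rfl (by omega) rfl rfl)
    · obtain ⟨rfl, rfl, h⟩ := h
      exact fun t => NHT.rm1 hf H.T (p := 1) (j := 2) (by omega) (by omega) (by omega) (by omega) (by omega) (by omega) (mv t rfl (by omega) rfl rfl)
    · obtain ⟨rfl, rfl, h⟩ := h
      exact fun t => NHT.rm1 hf H.T (p := 1) (j := 1) (by omega) (by omega) (by omega) (by omega) (by omega) (by omega) (mv t rfl (by omega) rfl rfl)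
    · obtain ⟨rfl, rfl, h⟩ := h
      exact fun t => NHT.rm1 hf H.T (p := 1) (j := 0) (by omega) (by omega) (by omega) (by omega) (by omega) (by omega) (mv t rfl (by omega) rfl rfl)
    · obtain ⟨rfl, rfl, h⟩ := h
      exact fun t => NHT.rm1i hf H.T (p := 0) (j := 0) (by omega) (by omega) (by omega) (by omega) (by omega) (by omega) (mv t rfl (by omega) rfl rfl)
    · obtain ⟨rfl, rfl, h⟩ := h
      exact fun t => NHT.rm1i hf H.T (p := 1) (j := 0) (by omega) (by omega) (by omega) (by omega) (by omega) (by omega) (mv t rfl (by omega) rfl rfl)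
    · obtain ⟨rfl, rfl, h⟩ := h
      exact NHT.p0 hf H.T (j := 3) (by omega) (by omega) (by omega) (by omega) (by omega) (by omega)
    · obtain ⟨rfl, rfl, h⟩ := h
      exact NHT.p0 hf H.T (j := 1) (by omega) (by omega) (by omega) (by omega) (by omega) (by omega)
    · obtain ⟨rfl, rfl, h⟩ := h
      exact NHT.p0 hf H.T (j := 0) (by omega) (by omega) (by omega) (by omega) (by omega) (by omega)
    · obtain ⟨rfl, rfl, h⟩ := h
      exact fun t => NHT.r1 hf H.T (p := 1) (j := 4) (by omega) (by omega) (by omega) (by omega) (by omega) (by omega) (mv t rfl (by omega) rfl rfl)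
    · obtain ⟨rfl, rfl, h⟩ := h
      exact fun t => NHT.r1i hf H.T (p := 0) (j := 4) (by omega) (by omega) (by omega) (by omega) (by omega) (by omega) (mv t rfl (by omega) rfl rfl)
    · obtain ⟨rfl, rfl, h⟩ := h
      exact fun t => NHT.r1i hf H.T (p := 1) (j := 4) (by omega) (by omega) (by omega) (by omega) (by omega) (by omega) (mv t rfl (by omega) rfl rfl)
    · obtain ⟨rfl, rfl, h⟩ := h
      exact fun t => NHT.r1 hf H.T (p := 0) (j := 2) (by omega) (by omega) (by omega) (by omega) (by omega) (by omega) (mv t rfl (by omega) rfl rfl)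
    · obtain ⟨rfl, rfl, h⟩ := h
      exact fun t => NHT.r1 hf H.T (p := 1) (j := 2) (by omega) (by omega) (by omega) (by omega) (by omega) (by omega) (mv t rfl (by omega) rfl rfl)
    · obtain ⟨rfl, rfl, h⟩ := h
      exact fun t => NHT.r1 hf H.T (p := 0) (j := 1) (by omega) (by omega) (by omega) (by omega) (by omega) (by omega) (mv t rfl (by omega) rfl rfl)
    · obtain ⟨rfl, rfl, h⟩ := h
      exact fun t => NHT.r1 hf H.T (p := 1) (j := 1) (by omega) (by omega) (by omega) (by omega) (by omega) (by omega) (mv t rfl (by omega) rfl rfl)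
    · obtain ⟨rfl, rfl, h⟩ := h
      exact NHT.p2 hf H.T (j := 2) (by omega) (by omega) (by omega) (by omega) (by omega) (by omega)
    · obtain ⟨rfl, rfl, h⟩ := h
      exact NHT.p2 hf H.T (j := 0) (by omega) (by omega) (by omega) (by omega) (by omega) (by omega)

end Pool.Agent.SNT.L0E
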