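import Pool.Agent.SNT.PL

set_option autoImplicit false
set_option synthInstance.maxSize 100000
set_option synthInstance.maxHeartbeats 4000000

/-! The cell `d = 2 k - 4` of the columns of the road L0. -/

namespace Pool.Agent.SNT.L0E

open Pool.Agent.SNT Pool.Agent.SNT.Loc Pool.Agent.SNT.LW Pool.Agent.SNT.NHZ Pool.Agent.SNT.D1E Pool.Agent.SNT.K0L2c

variable {f : ℕ → ℕ → ℕ → ℕ → Prop}

theorem z4_chk : check 9 7 10 10 0 1 0 0 0
    (fun j n p q => decide ((j = 2 ∧ n = 4 ∧ ((3 ≤ p) ∨ (p ≤ q + 2 ∧ 2 ≤ p)) ∧ ((p + q) % 2 = 0 ∧ q + 2 ≤ p ∧ (p + q) % 4 = 0))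
      ∨ (j = 2 ∧ n = 1 ∧ (((p + q) % 2 = 1 ∧ p ≤ q + 1 ∧ p % 2 = 0) ∨ ((p + q) % 2 = 1 ∧ q + 1 ≤ p ∧ (p + q + 1) % 4 = 0)))
      ∨ (j = 2 ∧ n = 3 ∧ (((p + q) % 2 = 1 ∧ p ≤ q + 1 ∧ p % 2 = 1) ∨ ((p + q) % 2 = 1 ∧ q + 1 ≤ p ∧ (p + q + 3) % 4 = 0)))
      ∨ (j = 4 ∧ n = 1 ∧ (((p + q) % 2 = 1 ∧ p ≤ q + 1 ∧ p % 2 = 1) ∨ ((p + q) % 2 = 1 ∧ q + 1 ≤ p ∧ (p + q + 3) % 4 = 0)))
      ∨ (j = 4 ∧ n = 2 ∧ ((p + q) % 2 = 0 ∧ q + 2 ≤ p ∧ (p + q) % 4 = 0))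
      ∨ (j = 4 ∧ n = 3 ∧ q + 2 ≤ p ∧ (((p + q) % 2 = 1 ∧ p ≤ q + 1 ∧ p % 2 = 0) ∨ ((p + q) % 2 = 1 ∧ q + 1 ≤ p ∧ (p + q + 1) % 4 = 0)))
      ∨ (j = 6 ∧ n = 1 ∧ ((3 ≤ p) ∨ (q + 2 ≤ p) ∨ (p ≤ q + 1 ∧ 2 ≤ q)) ∧ (((p + q) % 2 = 1 ∧ p ≤ q + 1 ∧ p % 2 = 0) ∨ ((p + q) % 2 = 1 ∧ q + 1 ≤ p ∧ (p + q + 1) % 4 = 0)))
      ∨ (j = 6 ∧ n = 2 ∧ ((5 ≤ p) ∨ (p ≤ q + 1 ∧ 4 ≤ q)) ∧ ((p + q) % 2 = 0 ∧ q + 2 ≤ p ∧ (p + q + 2) % 4 = 0))
      ∨ (j = 8 ∧ n = 2 ∧ ((p + q) % 2 = 0 ∧ q + 4 ≤ p ∧ (p + q) % 4 = 2))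
      ∨ (j = 8 ∧ n = 3 ∧ q + 4 ≤ p ∧ (((p + q) % 2 = 1 ∧ p ≤ q + 3 ∧ p % 2 = 0) ∨ ((p + q) % 2 = 1 ∧ q + 3 ≤ p ∧ (p + q + 1) % 4 = 2)))
      ∨ (j = 3 ∧ n = 5 ∧ p = 2 ∧ q = 4)))
    (fun j n p q => decide ((j = 2 ∧ n = 4 ∧ ((3 ≤ p) ∨ (p ≤ q + 2 ∧ 2 ≤ p)) ∧ ¬ ((p + q) % 2 = 0 ∧ q + 2 ≤ p ∧ (p + q) % 4 = 0))
      ∨ (j = 2 ∧ n = 1 ∧ ¬ (((p + q) % 2 = 1 ∧ p ≤ q + 1 ∧ p % 2 = 0) ∨ ((p + q) % 2 = 1 ∧ q + 1 ≤ p ∧ (p + q + 1) % 4 = 0)))
      ∨ (j = 2 ∧ n = 3 ∧ ¬ (((p + q) % 2 = 1 ∧ p ≤ q + 1 ∧ p % 2 = 1) ∨ ((p + q) % 2 = 1 ∧ q + 1 ≤ p ∧ (p + q + 3) % 4 = 0)))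
      ∨ (j = 4 ∧ n = 1 ∧ ¬ (((p + q) % 2 = 1 ∧ p ≤ q + 1 ∧ p % 2 = 1) ∨ ((p + q) % 2 = 1 ∧ q + 1 ≤ p ∧ (p + q + 3) % 4 = 0)))
      ∨ (j = 4 ∧ n = 2 ∧ ¬ ((p + q) % 2 = 0 ∧ q + 2 ≤ p ∧ (p + q) % 4 = 0))
      ∨ (j = 4 ∧ n = 3 ∧ q + 2 ≤ p ∧ ¬ (((p + q) % 2 = 1 ∧ p ≤ q + 1 ∧ p % 2 = 0) ∨ ((p + q) % 2 = 1 ∧ q + 1 ≤ p ∧ (p + q + 1) % 4 = 0)))
      ∨ (j = 6 ∧ n = 1 ∧ ((3 ≤ p) ∨ (q + 2 ≤ p) ∨ (p ≤ q + 1 ∧ 2 ≤ q)) ∧ ¬ (((p + q) % 2 = 1 ∧ p ≤ q + 1 ∧ p % 2 = 0) ∨ ((p + q) % 2 = 1 ∧ q + 1 ≤ p ∧ (p + q + 1) % 4 = 0)))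
      ∨ (j = 6 ∧ n = 2 ∧ ((5 ≤ p) ∨ (p ≤ q + 1 ∧ 4 ≤ q)) ∧ ¬ ((p + q) % 2 = 0 ∧ q + 2 ≤ p ∧ (p + q + 2) % 4 = 0))
      ∨ (j = 8 ∧ n = 2 ∧ ¬ ((p + q) % 2 = 0 ∧ q + 4 ≤ p ∧ (p + q) % 4 = 2))
      ∨ (j = 8 ∧ n = 3 ∧ q + 4 ≤ p ∧ ¬ (((p + q) % 2 = 1 ∧ p ≤ q + 3 ∧ p % 2 = 0) ∨ ((p + q) % 2 = 1 ∧ q + 3 ≤ p ∧ (p + q + 1) % 4 = 2)))
      ∨ (j = 1)
      ∨ (j = 3 ∧ n = 2 ∧ p + 3 ≤ q)
      ∨ (j = 6 ∧ n = 2 ∧ p + 1 ≤ q)
      ∨ (j = 9 ∧ n = 2 ∧ p ≤ q + 2)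
      ∨ (j = 7 ∧ n = 3 ∧ p ≤ q + 1)
      ∨ (j = 9 ∧ n = 3 ∧ p ≤ q + 2)
      ∨ (j = 5 ∧ n = 4 ∧ p + 3 ≤ q)
      ∨ (j = 7 ∧ n = 4 ∧ p + 2 ≤ q)
      ∨ (j = 7 ∧ n = 4 ∧ 6 ≤ p ∧ p ≤ q + 0)
      ∨ (j = 8 ∧ n = 4 ∧ p ≤ q + 1)
      ∨ (j = 9 ∧ n = 4 ∧ p ≤ q + 1)
      ∨ (j = 5 ∧ n = 5 ∧ 4 ≤ p ∧ p + 3 ≤ q)
      ∨ (j = 7 ∧ n = 5 ∧ 4 ≤ p ∧ p + 2 ≤ q)
      ∨ (j = 7 ∧ n = 5 ∧ 6 ≤ p ∧ p ≤ q + 0)
      ∨ (j = 9 ∧ n = 5 ∧ 4 ≤ p ∧ p + 1 ≤ q)
      ∨ (j = 9 ∧ n = 5 ∧ 6 ≤ p ∧ p ≤ q + 1)))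
    270
    0x7878307b98007f13a068880068881061f83065180065184078d0307bf0007bf04062983065c00065c0406238306560006560408e603091d000ab2fa07f10007f104061f0306510006510403cc83052a80052a8408eb83078300078304062983062a00062a04062e8306610006610407be0307be8007be840a490308e08008e08407880307ba0007ba04062983065b80065b8407be0307f08007f08408eb83091d80091d840660030660800660840629830787800787840c11050c0b800d74520d6ed20ab2000ab204066003069280069284062483065680065684065b0307b90007b90406248307828007828408f10003c6800a545208f00003c68103350008c3000a4e4208b800089180088780088680087c8006280006018005f68005eb8005c60005c50005bc0005bb00052000039e80039380037180036d00036cba036300036200035900035800030e8003080003048003038002fa8002f98002f8800d74070d73870d6f070d6e870d6e070d69870d69070d42070d41870d3d070d3c870d3c070d37870d37070c16070c0b070be4070be3870bdf070bde870bde070bd9870bd9070ab2870aad870aad070a80870a7b870a7b070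a54070a53870a4f070a4e870a4e070a49070a48870a44070a4387094f0708f60708eb0708e10708c40708c38708c30f08bf0708be8708be0708bd8708b98708b90708b88708b80f08b48708b40708b38708af0708ae8708918f08878f08868f087c8f069307068807062f07062e07062d8706288706280f062507062407062307061a0706018f05fd0705fc8705fc0705f80705f78705f70705f68f05f30705f28705f20705f18705f10705ed8705ed0705ec8705ec0705eb8f05e88705e80705e78705c60f05c50f05bc0f05bb0f05200f048a8703cc0703c107039e8f039a87039a0703958703950703948703940703938f038f87038f0703718f036d0f036c87036c0703678703670703630f03620f03590f03580f030e8f03080f03048f03038f02fa8f02f98f02f88f026e87026e07026987026907026887026807026387026307023c87023c07023787023707023687023607023187023107020e87020e0702098702090701dc8701dc0701d78701d707 = true := by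
  decide +kernel

theorem z4_aux (hf : Rule f) {k c n X : ℕ} (H : PL f k c n (n - 4)) (hX : 2 * n ≤ X) (hX2 : X % 2 = 0)
    (D0 : Cyc f (6 * k) (c - 2) (X - 2)) (D0a : Cyc f (6 * k) (c - 6) (X - 6 - 2 * k))
    (C4a : Cyc f (6 * k + 4) (c - 6) (2 * (n - (k + 1)) + 2))
    (p0 : ∀ {L R x y : ℕ}, L = 6 * k + 1 → R = c → x = X → y + 2 * k = X + 4 → f L R x y) : False := by
  have hk := H.T.hk
  have hc := H.T.hc
  have h4 := H.T.h4
  have hb := H.T.hb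
  have hN := H.T.hN2
  have T := H.T
  have U := H.U
  have C2 := H.c2
  have C4 := H.c4
  have C6a := H.c6a
  have C6 := H.c6
  have C8a := H.c8a
  have C8 := H.c8
  have C10a := H.c10a
  have C10 := H.c10
  have hL : ∀ {M' R x y : ℕ}, M' + 1 = 6 * k → c ≤ R + 12 → R ≤ c + 12 → 2 * n ≤ x + 20 → y ≤ x → x ≤ y + 4 * k →
      ¬ f M' R x y := fun {a b c d} => H.lw a b c d
  obtain ⟨a0, ha0⟩ : ∃ z, z + 2 = 6 * k := ⟨6 * k - 2, by omega⟩
  obtain ⟨b0, hb0⟩ : ∃ z, z + 5 = c := ⟨c - 5, by omega⟩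
  obtain ⟨x0, hx0⟩ : ∃ z, z + 2 = X := ⟨X - 2, by omega⟩
  obtain ⟨y0, hy0⟩ : ∃ z, z + 2 * k + 20 = X + 20 := ⟨X + 20 - 2 * k - 20, by omega⟩
  refine check_sound hf (a0 := a0) (b0 := b0) (x0 := x0) (y0 := y0) z4_chk
    ⟨fun h => absurd h (by decide), fun h => absurd h (by decide), fun h => absurd h (by decide), by omega, by omega,
      by omega, by omega⟩ ?_ ?_
  · intro j m p q hr h
    obtain ⟨-, -, hm1, hm2, hp1, hp2, hq1, hq2⟩ := hr
    replace h := of_decide_eq_true h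
    rcases h with h | h | h | h | h | h | h | h | h | h | h
    · obtain ⟨rfl, rfl, h⟩ := h
      exact (WrapC.v1 D0 (by omega) (by omega) (by omega) (by omega) (by omega) (by omega) (by omega) (by omega)).mpr (by omega)
    · obtain ⟨rfl, rfl, h⟩ := h
      exact (WrapC.v2 D0a (by omega) (by omega) (by omega) (by omega) (by omega) (by omega) (by omega)).mpr (by omega)
    · obtain ⟨rfl, rfl, h⟩ := h
      exact (WrapC.v4 D0a (by omega) (by omega) (by omega) (by omega) (by omega) (by omega) (by omega)).mpr (by omega)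
    · obtain ⟨rfl, rfl, h⟩ := h
      exact (WrapC.v0 C2 (by omega) (by omega) (by omega) (by omega) (by omega) (by omega) (by omega)).mpr (by omega)
    · obtain ⟨rfl, rfl, h⟩ := h
      exact (WrapC.v1 C2 (by omega) (by omega) (by omega) (by omega) (by omega) (by omega) (by omega) (by omega)).mpr (by omega)
    · obtain ⟨rfl, rfl, h⟩ := h
      exact (WrapC.v2 C2 (by omega) (by omega) (by omega) (by omega) (by omega) (by omega) (by omega)).mpr (by omega)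
    · obtain ⟨rfl, rfl, h⟩ := h
      exact (WrapC.v2 C4a (by omega) (by omega) (by omega) (by omega) (by omega) (by omega) (by omega)).mpr (by omega)
    · obtain ⟨rfl, rfl, h⟩ := h
      exact (WrapC.v3 C4a (by omega) (by omega) (by omega) (by omega) (by omega) (by omega) (by omega) (by omega)).mpr (by omega)
    · obtain ⟨rfl, rfl, h⟩ := h
      exact (WrapC.v1 C6 (by omega) (by omega) (by omega) (by omega) (by omega) (by omega) (by omega) (by omega)).mpr (by omega)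
    · obtain ⟨rfl, rfl, h⟩ := h
      exact (WrapC.v2 C6 (by omega) (by omega) (by omega) (by omega) (by omega) (by omega) (by omega)).mpr (by omega)
    · obtain ⟨rfl, rfl, rfl, rfl⟩ := h
      exact p0 (by omega) (by omega) (by omega) (by omega)
  · intro j m p q hr h
    obtain ⟨-, -, hm1, hm2, hp1, hp2, hq1, hq2⟩ := hr
    replace h := of_decide_eq_true h
    rcases h with h | h | h | h | h | h | h | h | h | h | h | h | h | h | h | h | h | h | h | h | h | h | h | h | h | h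
    · obtain ⟨rfl, rfl, h⟩ := h
      exact mt (WrapC.v1 D0 (by omega) (by omega) (by omega) (by omega) (by omega) (by omega) (by omega) (by omega)).mp (by omega)
    · obtain ⟨rfl, rfl, h⟩ := h
      exact mt (WrapC.v2 D0a (by omega) (by omega) (by omega) (by omega) (by omega) (by omega) (by omega)).mp (by omega)
    · obtain ⟨rfl, rfl, h⟩ := h
      exact mt (WrapC.v4 D0a (by omega) (by omega) (by omega) (by omega) (by omega) (by omega) (by omega)).mp (by omega)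
    · obtain ⟨rfl, rfl, h⟩ := h
      exact mt (WrapC.v0 C2 (by omega) (by omega) (by omega) (by omega) (by omega) (by omega) (by omega)).mp (by omega)
    · obtain ⟨rfl, rfl, h⟩ := h
      exact mt (WrapC.v1 C2 (by omega) (by omega) (by omega) (by omega) (by omega) (by omega) (by omega) (by omega)).mp (by omega)
    · obtain ⟨rfl, rfl, h⟩ := h
      exact mt (WrapC.v2 C2 (by omega) (by omega) (by omega) (by omega) (by omega) (by omega) (by omega)).mp (by omega)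
    · obtain ⟨rfl, rfl, h⟩ := h
      exact mt (WrapC.v2 C4a (by omega) (by omega) (by omega) (by omega) (by omega) (by omega) (by omega)).mp (by omega)
    · obtain ⟨rfl, rfl, h⟩ := h
      exact mt (WrapC.v3 C4a (by omega) (by omega) (by omega) (by omega) (by omega) (by omega) (by omega) (by omega)).mp (by omega)
    · obtain ⟨rfl, rfl, h⟩ := h
      exact mt (WrapC.v1 C6 (by omega) (by omega) (by omega) (by omega) (by omega) (by omega) (by omega) (by omega)).mp (by omega)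
    · obtain ⟨rfl, rfl, h⟩ := h
      exact mt (WrapC.v2 C6 (by omega) (by omega) (by omega) (by omega) (by omega) (by omega) (by omega)).mp (by omega)
    · obtain rfl := h
      exact hL (by omega) (by omega) (by omega) (by omega) (by omega) (by omega)
    · obtain ⟨rfl, rfl, h⟩ := h
      exact NHT.rIn hf T (t := 3) (p := 1) (j := 3) (by omega) (by omega) (by omega) (by omega) (by omega) (by omega) (by omega) (by omega)
    · obtain ⟨rfl, rfl, h⟩ := h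
      exact NHT.rIn hf T (t := 3) (p := 0) (j := 1) (by omega) (by omega) (by omega) (by omega) (by omega) (by omega) (by omega) (by omega)
    · obtain ⟨rfl, rfl, h⟩ := h
      exact uA0 hf U (p := 1) (j := 0) (by omega) (by omega) (by omega) (by omega) (by omega) (by omega) (by omega)
    · obtain ⟨rfl, rfl, h⟩ := h
      exact uP1 hf U (j := 1) (by omega) (by omega) (by omega) (by omega) (by omega) (by omega)
    · obtain ⟨rfl, rfl, h⟩ := h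
      exact uP1 hf U (j := 0) (by omega) (by omega) (by omega) (by omega) (by omega) (by omega)
    · obtain ⟨rfl, rfl, h⟩ := h
      exact NHT.rIn hf T (t := 4) (p := 1) (j := 3) (by omega) (by omega) (by omega) (by omega) (by omega) (by omega) (by omega) (by omega)
    · obtain ⟨rfl, rfl, h⟩ := h
      exact NHT.rIn hf T (t := 4) (p := 1) (j := 2) (by omega) (by omega) (by omega) (by omega) (by omega) (by omega) (by omega) (by omega)
    · obtain ⟨rfl, rfl, h⟩ := h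
      exact uP2 hf U (j := 2) (by omega) (by omega) (by omega) (by omega) (by omega) (by omega)
    · obtain ⟨rfl, rfl, h⟩ := h
      exact uA1 hf U (p := 0) (j := 1) (by omega) (by omega) (by omega) (by omega) (by omega) (by omega) (by omega)
    · obtain ⟨rfl, rfl, h⟩ := h
      exact uA1 hf U (p := 1) (j := 1) (by omega) (by omega) (by omega) (by omega) (by omega) (by omega) (by omega)
    · obtain ⟨rfl, rfl, h⟩ := h
      exact NHT.p0i hf T (j := 3) (by omega) (by omega) (by omega) (by omega) (by omega) (by omega)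
    · obtain ⟨rfl, rfl, h⟩ := h
      exact NHT.p0i hf T (j := 2) (by omega) (by omega) (by omega) (by omega) (by omega) (by omega)
    · obtain ⟨rfl, rfl, h⟩ := h
      exact uP2 hf U (j := 2) (by omega) (by omega) (by omega) (by omega) (by omega) (by omega)
    · obtain ⟨rfl, rfl, h⟩ := h
      exact NHT.p0i hf T (j := 1) (by omega) (by omega) (by omega) (by omega) (by omega) (by omega)
    · obtain ⟨rfl, rfl, h⟩ := h
      exact uP2 hf U (j := 1) (by omega) (by omega) (by omega) (by omega) (by omega) (by omega)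

end Pool.Agent.SNT.L0E
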