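import Pool.Agent.SNT.LocTop

set_option autoImplicit false

/-! The strip cells `x = 2 n + 1, 2 n + 2` of the IN row from the tip and the zeros of the odd layer
in two rows. -/

namespace Pool.Agent.SNT.LW

open TipI

variable {f : ℕ → ℕ → ℕ → ℕ → Prop}

/-- Top-down: the line `x = 2 n + 1` of the IN row `c + 1 + 1`, from the tip. `Z0` and `Zm` are the
zeros of the odd layer in the rows `c + 1 + 1` and `c + 1`, `P3` the row `c + 1` of the layer. -/
theorem l0_line (hf : Rule f) {A c n E : ℕ}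
    (w0 : ∀ y : ℕ, y % 2 = 0 → E ≤ y → y ≤ 2 * n → f A (c + 1) (2 * n + 3) (y + 2))
    (P3 : ∀ x y : ℕ, x = 2 * n + 1 ∨ x = 2 * n + 2 → E ≤ y → y < 2 * n → ¬ f A c x y)
    (Z0 : ∀ x y : ℕ, x = 2 * n + 1 ∨ x = 2 * n + 2 → E ≤ y → y < 2 * n →
      ¬ f (A - 1) (c + 1) x y)
    (Zm : ∀ x y : ℕ, x = 2 * n + 1 ∨ x = 2 * n + 2 → E ≤ y → y < 2 * n → ¬ f (A - 1) c x y)
    (hA : A % 2 = 0) (hc : (c + 1) % 2 = 0)
    (tip : f A (c + 1) (2 * n + 1) (2 * n)) :
    ∀ t : ℕ, E + 2 * t ≤ 2 * n → f A (c + 1) (2 * n + 1) (2 * n - 2 * t) := by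
  intro t
  induction t with
  | zero => intro _; exact tip
  | succ t ih =>
    intro ht
    have h1 := ih (by omega)
    by_contra hno
    have hz : f A (c + 1) (2 * n + 2) (2 * n - 2 * t - 1) := by
      refine (hf A (c + 1) (2 * n + 2) (2 * n - 2 * t - 1)).2 ⟨by omega, ?_⟩
      intro p q r s hp hq hr hs h1' hpa hqb hrx hsy hpr
      rcases (show p = 0 ∨ p = 1 by omega) with rfl | rfl
      · rcases (show q = 0 ∨ q = 1 by omega) with rfl | rfl
        · rcases (show r = 0 ∨ r = 1 by omega) with rfl | rfl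
          · -- an all even cell
            have hs1 : s = 1 := by omega
            subst hs1
            exact ((hf _ _ _ _).1 hpr).1 ⟨by omega, by omega, by omega, by omega⟩
          · rcases (show s = 0 ∨ s = 1 by omega) with rfl | rfl
            · exact kill hf hpr (a' := A) (b' := c + 1) (x' := 2 * n + 1) (y' := 2 * n - 2 * t)
                (by omega) (by omega) (by omega) (by omega) (by omega) h1
            · exact hno (mv hpr (by omega) (by omega) (by omega) (by omega))
        · exact P3 (2 * n + 2 - r) (2 * n - 2 * t - 1 - s) (by omega) (by omega) (by omega)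
            (mv hpr (by omega) (by omega) (by omega) (by omega))
      · rcases (show q = 0 ∨ q = 1 by omega) with rfl | rfl
        · exact Z0 (2 * n + 2 - r) (2 * n - 2 * t - 1 - s) (by omega) (by omega) (by omega)
            (mv hpr (by omega) (by omega) (by omega) (by omega))
        · exact Zm (2 * n + 2 - r) (2 * n - 2 * t - 1 - s) (by omega) (by omega) (by omega)
            (mv hpr (by omega) (by omega) (by omega) (by omega))
    have hs := w0 (2 * n - 2 * t - 2) (by omega) (by omega) (by omega)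
    exact kill hf hz (a' := A) (b' := c + 1) (x' := 2 * n + 3) (y' := 2 * n - 2 * t - 2 + 2)
      (by omega) (by omega) (by omega) (by omega) (by omega) hs

/-- **L0 from Z.** The strip cells `x = 2 n + 1, 2 n + 2` of the IN row `c + 4` of the layer `A`,
from the tip and the zeros of the odd layer `A - 1` at `x = 2 n + 1, 2 n + 2` in the rows `c + 3`,
`c + 4`. `c` is the previous IN row, with the (weak) profile `m'`. -/
theorem l0_strip (hf : Rule f) {A c n m' : ℕ} (hA : A % 2 = 0) (h24 : 24 ≤ A)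
    (ph : (A + c) % 4 = 2) (big : 2 * A + 40 ≤ c) (hn : A + c + 60 ≤ 2 * n)
    (hm : m' + A / 6 + 1 = n) (C' : Cw f A c m') (C : Cw f A (c + 4) n)
    (tip : f A (c + 4) (2 * n + 1) (2 * n))
    (Z0 : ∀ x y : ℕ, y + 2 ≤ x → x + 2 ≤ y + 2 * (A / 6) → x = 2 * n + 1 ∨ x = 2 * n + 2 →
      ¬ f (A - 1) (c + 4) x y)
    (Zm : ∀ x y : ℕ, y + 2 ≤ x → x + 2 ≤ y + 2 * (A / 6) → x = 2 * n + 1 ∨ x = 2 * n + 2 →
      ¬ f (A - 1) (c + 3) x y)
    (x y : ℕ) (hyx : y ≤ x) (hd : x + 3 ≤ y + 2 * (A / 6)) (hx : x = 2 * n + 1 ∨ x = 2 * n + 2) :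
    f A (c + 4) x y ↔ Fst A (c + 4) x y := by
  have line := l0_line hf (A := A) (c := c + 3) (n := n) (E := 2 * n + 4 - 2 * (A / 6))
    (by
      intro y h1 h2 h3
      exact (w0 (a := A) (b := c + 4) (h := A / 6) ⟨hA, by omega, rfl, by omega⟩ C rfl rfl
        (by omega) (by omega) (by omega) (by omega)).2 (by unfold V0; omega))
    (by
      intro x y h1 h2 h3 h4
      have := (w3s (a := A) (b := c) (h := A / 6) ⟨hA, by omega, rfl, by omega⟩ C' rfl rfl
        (by omega) (by omega) (by omega) (by omega)).1 h4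
      unfold V3 at this
      omega)
    (fun x y h1 h2 h3 => Z0 x y (by omega) (by omega) h1)
    (fun x y h1 h2 h3 => Zm x y (by omega) (by omega) h1) hA (by omega) tip
  have one : ∀ y : ℕ, y % 2 = 0 → 2 * n + 4 ≤ y + 2 * (A / 6) → y ≤ 2 * n →
      f A (c + 4) (2 * n + 1) y := by
    intro y h1 h2 h3
    exact mv (line (n - y / 2) (by omega)) (by omega) (by omega) (by omega) (by omega)
  rw [fst0 hA (by omega) hyx (by omega)]
  rcases hx with rfl | rfl
  · rcases (show y % 2 = 0 ∨ y % 2 = 1 by omega) with h1 | h1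
    · refine iff_of_true (one y h1 (by omega) (by omega)) (by omega)
    · refine iff_of_false (fun h => ?_) (by omega)
      rcases Nat.lt_or_ge (2 * n) y with h2 | h2
      · exact kill hf tip (a' := A) (b' := c + 4) (x' := 2 * n + 1) (y' := y)
          (by omega) (by omega) (by omega) (by omega) (by omega) h
      · exact kill hf h (a' := A) (b' := c + 4) (x' := 2 * n + 1) (y' := y + 1)
          (by omega) (by omega) (by omega) (by omega) (by omega)
          (one (y + 1) (by omega) (by omega) (by omega))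
  · rcases (show y % 2 = 0 ∨ y % 2 = 1 by omega) with h1 | h1
    · refine iff_of_false (fun h => ?_) (by omega)
      exact ((hf _ _ _ _).1 h).1 ⟨by omega, by omega, by omega, by omega⟩
    · refine iff_of_false (fun h => ?_) (by omega)
      have hs : f A (c + 4) (2 * n + 3) (y + 1) :=
        (w0 (a := A) (b := c + 4) (h := A / 6) ⟨hA, by omega, rfl, by omega⟩ C rfl rfl
          (by omega) (by omega) (by omega) (by omega)).2 (by unfold V0; omega)
      exact kill hf h (a' := A) (b' := c + 4) (x' := 2 * n + 3) (y' := y + 1)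
        (by omega) (by omega) (by omega) (by omega) (by omega) hs

end Pool.Agent.SNT.LW

namespace Pool.Agent.SNT.S6

open Pool.Agent.SNT.LW

/-- The field `L0` of `TopIn` from the zeros of the odd layer at `x = 2 n + 1, 2 n + 2`. -/
theorem topL0 {f : ℕ → ℕ → ℕ → ℕ → Prop} (hf : Rule f) {k b m : ℕ} (hs : Side k b m)
    (S : Stack6 f k b m 0 0 0 0 0 1)
    (tip : f (6 * k + 10) (b + 22) (2 * (m + 9 + (k + 2) * 4) + 1) (2 * (m + 9 + (k + 2) * 4)))
    (Z0 : ∀ x y : ℕ, y + 2 ≤ x → x ≤ y + 2 * k → x = 2 * (m + 9 + (k + 2) * 4) + 1 ∨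
      x = 2 * (m + 9 + (k + 2) * 4) + 2 → ¬ f (6 * k + 9) (b + 22) x y)
    (Zm : ∀ x y : ℕ, y + 2 ≤ x → x ≤ y + 2 * k → x = 2 * (m + 9 + (k + 2) * 4) + 1 ∨
      x = 2 * (m + 9 + (k + 2) * 4) + 2 → ¬ f (6 * k + 9) (b + 21) x y) :
    ∀ x y : ℕ, y ≤ x → x + 1 ≤ y + 2 * k → x = 2 * (m + 9 + (k + 2) * 4) + 1 ∨
      x = 2 * (m + 9 + (k + 2) * 4) + 2 →
      (f (6 * k + 10) (b + 22) x y ↔ Fst (6 * k + 10) (b + 22) x y) := by
  obtain ⟨hk, hb2, hb4, hbl, hm⟩ := hs
  have hdiv : (6 * k + 10) / 6 = k + 1 := by omega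
  have e3 : (k + 2) * 3 = 3 * k + 6 := by ring
  have e4 : (k + 2) * 4 = 4 * k + 8 := by ring
  have C' := S.l10 3
  have C := S.l10 4
  rw [e3] at C'
  rw [e4] at C Z0 Zm tip ⊢
  intro x y hyx hd hx
  refine l0_strip hf (A := 6 * k + 10) (c := b + 18) (n := m + 9 + (4 * k + 8))
    (m' := m + 8 + 0 + (3 * k + 6) + 1) (by omega) (by omega)
    (by omega) (by omega) (by omega) (by omega) ?_ ?_ ?_ ?_ ?_ x y hyx (by omega) hx
  · have e : b + 6 + 4 * 3 = b + 18 := by ring
    rw [e] at C'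
    have e' : m + 8 + 1 + (3 * k + 6) = m + 8 + 0 + (3 * k + 6) + 1 := by ring
    rw [e'] at C'
    exact C'
  · have e : b + 6 + 4 * 4 = b + 18 + 4 := by ring
    rw [e] at C
    exact C
  · exact tip
  · intro u v h1 h2 h3
    exact Z0 u v h1 (by omega) h3
  · intro u v h1 h2 h3
    exact Zm u v h1 (by omega) h3

end Pool.Agent.SNT.S6
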