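import Pool.Agent.SNT.LRE
import Pool.Agent.SNT.LineD
import Pool.Agent.SNT.L0Z
import Pool.Agent.SNT.K0L2c
import Pool.Agent.SNT.K0L4
import Pool.Agent.SNT.K0L6

set_option autoImplicit false

/-! The field `L0` of the location of the top leader: `P_(6k+9)` in the columns `2 n + 1`, `2 n + 2`. -/

namespace Pool.Agent.SNT.LRI

open Pool.Agent.SNT Pool.Agent.SNT.Loc Pool.Agent.SNT.LW Pool.Agent.SNT.NHZ Pool.Agent.SNT.DRun

variable {f : ℕ → ℕ → ℕ → ℕ → Prop} {k c n : ℕ}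

theorem LI.lineD (hf : Rule f) (H : LI f k c n) (hF2 : F2 f k c n) (hF6 : F6 f k c n)
    (I : LineR0.In f (6 * k) c n (n + 2 - k) (n - 5) (n - 4)) : LineD.In f k c n := by
  have hk := H.T.hk
  have hN := H.T.hN2
  have hb := H.T.hb
  exact {
    T := H.T
    lw := fun R x y h1 h2 h3 h4 h5 h6 => H.lw _ _ _ _ (by omega) (by omega) (by omega) (by omega) h5 (by omega)
    C10 := H.a10
    C10a := NW.cw_mv H.b10 rfl rfl (by omega)
    C8 := H.a8
    C8a := NW.cw_mv H.b8 rfl rfl (by omega)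
    C6 := H.a6
    C4a := H.b4
    C2 := H.a2
    C0 := H.a0
    K3 := H.K3 hf
    f2 := fun y h1 h2 h3 => hF2 _ _ _ _ rfl rfl rfl h1 (by omega) (by omega)
    f6 := fun y h1 h2 h3 => hF6 _ _ _ _ rfl rfl rfl h1 (by omega) (by omega)
    p1 := fun x y h1 h2 h3 h4 => I.P1 hf h1 h2 (by omega) (by omega)
    p3 := fun x y h1 h2 h3 h4 => I.P3 hf h1 h2 (by omega) (by omega)
    p3' := fun x y h1 h2 h3 => I.P3' hf (by omega) (by omega) (by omega) (by omega) (by omega)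
    p5 := fun x y h1 h2 h3 h4 => I.P5 hf h1 h2 (by omega) (by omega)
    p5' := fun x y h1 h2 h3 => I.P5' hf h1 (by omega) (by omega) (by omega) (by omega)
    p7 := fun x y h1 h2 h3 => I.P7 hf (by omega) h2 (by omega) (by omega) (by omega)
    x6 := by
      have h := I.x6 hf (j := n - 4) (by omega) (by omega)
      unfold Sig.bX at h
      rwa [show 2 * (n - 4) + 1 = 2 * n - 7 by omega] at h
    x6' := by
      have h := I.x6 hf (j := n - 5) (by omega) (by omega)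
      unfold Sig.bX at h
      rwa [show 2 * (n - 5) + 1 = 2 * n - 9 by omega] at h
    y4 := by
      have h := I.y4 hf (j := n - 4) (by omega) (by omega)
      unfold Sig.bY at h
      rwa [show 2 * (n - 4) = 2 * n - 8 by omega] at h
    y4' := by
      have h := I.y4' hf (i := n - 1) (j := n - 5) (by omega) (by omega) (by omega)
      unfold Sig.bY at h
      rwa [show 2 * (n - 1) + 1 = 2 * n - 1 by omega, show 2 * (n - 5) = 2 * n - 10 by omega] at h }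

/-- `P_(6k+9)` in the column `2 n + 1` of the row `c`, except the six cells at the wall -/
theorem LI.p9_1 (hf : Rule f) (H : LI f k c n) (hF2 : F2 f k c n) (hF6 : F6 f k c n)
    (I : LineR0.In f (6 * k) c n (n + 2 - k) (n - 5) (n - 4)) {y : ℕ} (h1 : 2 * n + 7 ≤ y + 2 * k) (h2 : y + 1 ≤ 2 * n) :
    ¬ f (6 * k + 9) c (2 * n + 1) y := by
  have hk := H.T.hk
  have hN := H.T.hN2
  rcases Nat.lt_or_ge (y + 8) (2 * n) with h | h
  · exact I.P9 hf (by omega) le_rfl (by omega) (Or.inl le_rfl) (by omega)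
  · exact LineD.P9 hf (H.lineD hf hF2 hF6 I) h h2

/-- the pair of the period before, `b' + 22 = c - 4` -/
theorem pairQ (hf : Rule f) {b m : ℕ} (hs : Side k b m) (S : Stack6 f k b m 0 0 0 0 0 1)
    (hn : n = m + 9 + (k + 2) * 4 + (k + 2)) (hc : c = b + 26)
    (C2 : Cyc f (6 * k + 2) (b + 18) (2 * (m + 9 + (k + 2) * 4 - 3) + 2))
    (C4 : Cyc f (6 * k + 4) (b + 20) (2 * (m + 9 + (k + 2) * 4 + 1) + 2)) :
    f (6 * k + 2) (c - 4) (2 * n - 11) (2 * n - 16) ∨ f (6 * k + 2) (c - 4) (2 * n - 9) (2 * n - 14) := by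
  have T := NHT.of_stack hs S
  have hk := hs.1
  have hm : 2 * b ≤ m := hs.2.2.2.2
  have hb4 : 100 * k + 1000 ≤ b := hs.2.2.2.1
  subst hn hc
  obtain ⟨N, hN⟩ : ∃ N, N = 2 * (m + 9 + (k + 2) * 4) := ⟨_, rfl⟩
  obtain ⟨x, hx⟩ : ∃ x, x = 2 * (m + 9 + (k + 2) * 4 + (k + 2)) - 11 := ⟨_, rfl⟩
  obtain ⟨y, hy⟩ : ∃ y, y + 2 * k = x + 5 := ⟨x + 5 - 2 * k, by omega⟩
  rw [← hN] at T
  have e : b + 26 - 4 = b + 22 := by omega
  rw [e]
  rcases K0L2c.k0_L2_stack hf hs S C2 C4 (R := b + 22) rfl (x := x) (y := y) (by omega) (by omega) hy with h | h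
  · left
    have := run2' hf T (x := x) (y0 := y) (by omega) (by omega) (by omega) (by omega) h (x - 5) (by omega) (by omega) (by omega)
    rwa [hx, show 2 * (m + 9 + (k + 2) * 4 + (k + 2)) - 11 - 5 = 2 * (m + 9 + (k + 2) * 4 + (k + 2)) - 16 by omega] at this
  · right
    have := run2' hf T (x := x + 2) (y0 := y + 2) (by omega) (by omega) (by omega) (by omega) h (x - 3) (by omega) (by omega)
      (by omega)
    rwa [hx, show 2 * (m + 9 + (k + 2) * 4 + (k + 2)) - 11 - 3 = 2 * (m + 9 + (k + 2) * 4 + (k + 2)) - 14 by omega,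
      show 2 * (m + 9 + (k + 2) * 4 + (k + 2)) - 11 + 2 = 2 * (m + 9 + (k + 2) * 4 + (k + 2)) - 9 by omega] at this

/-- the window with the improved leads -/
structure Win (f : ℕ → ℕ → ℕ → ℕ → Prop) (k b m n : ℕ) : Prop where
  hs : Side k b m
  S : Stack6 f k b m 0 0 0 0 0 1
  hn : n = m + 9 + (k + 2) * 4
  d0 : Cyc f (6 * k) (b + 16) (2 * (n - 7) + 2)
  d2 : Cyc f (6 * k + 2) (b + 18) (2 * (n - 5) + 2)
  d4 : Cyc f (6 * k + 4) (b + 20) (2 * (n + 1) + 2)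

theorem Win.li {b m : ℕ} (hf : Rule f) (W : Win f k b m n) : LI f k (b + 22) n := LI.of_stack hf W.hs W.S W.hn W.d0 W.d2 W.d4

theorem Win.K2 {b m : ℕ} (hf : Rule f) (W : Win f k b m n) :
    f (6 * k + 2) (b + 22) (2 * n + 3) (2 * n + 8 - 2 * k) ∨ f (6 * k + 2) (b + 22) (2 * n + 5) (2 * n + 10 - 2 * k) := by
  obtain ⟨hs, S, hn, d0, d2, d4⟩ := W
  have hk := hs.1
  have hm : 2 * b ≤ m := hs.2.2.2.2
  have hb4 : 100 * k + 1000 ≤ b := hs.2.2.2.1
  subst hn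
  have h := K0L2c.k0_L2_stack hf hs S (WrapC.cyc_mono d2 (by omega)) d4 (R := b + 22) rfl
    (x := 2 * (m + 9 + (k + 2) * 4) + 3) (y := 2 * (m + 9 + (k + 2) * 4) + 8 - 2 * k) (by omega) (by omega) (by omega)
  rwa [show 2 * (m + 9 + (k + 2) * 4) + 8 - 2 * k + 2 = 2 * (m + 9 + (k + 2) * 4) + 10 - 2 * k by omega] at h

theorem Win.K6 {b m : ℕ} (hf : Rule f) (W : Win f k b m n) :
    f (6 * k + 6) (b + 22) (2 * n + 3) (2 * n + 6 - 2 * k) ∨ f (6 * k + 6) (b + 22) (2 * n + 5) (2 * n + 8 - 2 * k) := by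
  obtain ⟨hs, S, hn, d0, d2, d4⟩ := W
  have hk := hs.1
  have hm : 2 * b ≤ m := hs.2.2.2.2
  have hb4 : 100 * k + 1000 ≤ b := hs.2.2.2.1
  subst hn
  have h := NHZ.k0_L6 hf hs S (R := b + 22) rfl
    (x := 2 * (m + 9 + (k + 2) * 4) + 3) (y := 2 * (m + 9 + (k + 2) * 4) + 6 - 2 * k) (by omega) (by omega) (by omega)
  rwa [show 2 * (m + 9 + (k + 2) * 4) + 6 - 2 * k + 2 = 2 * (m + 9 + (k + 2) * 4) + 8 - 2 * k by omega] at h

theorem Win.T4 {b m : ℕ} (hf : Rule f) (W : Win f k b m n) :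
    f (6 * k + 4) (b + 20) (2 * n - 3) (2 * n - 4) ∨ f (6 * k + 4) (b + 20) (2 * n - 1) (2 * n - 2) := by
  obtain ⟨hs, S, hn, d0, d2, d4⟩ := W
  have hk := hs.1
  have hm : 2 * b ≤ m := hs.2.2.2.2
  have hb4 : 100 * k + 1000 ≤ b := hs.2.2.2.1
  subst hn
  have h := K0L4.tip4_stack hf hs S (x := 2 * (m + 9 + (k + 2) * 4) - 3) (by omega) (by omega)
  rwa [show 2 * (m + 9 + (k + 2) * 4) - 3 - 1 = 2 * (m + 9 + (k + 2) * 4) - 4 by omega,
    show 2 * (m + 9 + (k + 2) * 4) - 3 + 2 = 2 * (m + 9 + (k + 2) * 4) - 1 by omega,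
    show 2 * (m + 9 + (k + 2) * 4) - 3 + 1 = 2 * (m + 9 + (k + 2) * 4) - 2 by omega] at h

/-- the chain, from the window and the window before -/
theorem Win.inp {b m b' m' n' : ℕ} (hf : Rule f) (W : Win f k b m n) (W' : Win f k b' m' n') (hb : b = b' + 4)
    (hm : m = m' + (k + 2)) : LineR0.In f (6 * k) (b + 22) n (n + 2 - k) (n - 5) (n - 4) := by
  have hk := W.hs.1
  have h1 := W.hn
  have h2 := W'.hn
  refine (W.li hf).mkIn' hf (W.K6 hf) (W.K2 hf) ?_ ?_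
  · have h := W.T4 hf
    rwa [show b + 20 = b + 22 - 2 by omega] at h
  · refine pairQ hf W'.hs W'.S (by omega) (by omega) ?_ ?_
    · have := W'.d2
      rw [h2] at this
      exact WrapC.cyc_mono this (by omega)
    · have := W'.d4
      rw [h2] at this
      exact this

/-- the cells at the wall which are not local -/
def Wall9 (f : ℕ → ℕ → ℕ → ℕ → Prop) (k c n : ℕ) : Prop :=
  ∀ y : ℕ, 2 * n + 1 ≤ y + 2 * k → y + 2 * k ≤ 2 * n + 6 → ¬ f (6 * k + 9) c (2 * n + 1) y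

/-- **The field `L0`.** -/
theorem Win.topL0 {b m b' m' n' : ℕ} (hf : Rule f) (W : Win f k b m n) (W' : Win f k b' m' n') (hb : b = b' + 4)
    (hm : m = m' + (k + 2)) (D : Wall9 f k (b + 22) n)
    (tip : f (6 * k + 10) (b + 22) (2 * n + 1) (2 * n)) (x y : ℕ) (h1 : y ≤ x) (h2 : x + 1 ≤ y + 2 * k)
    (h3 : x = 2 * n + 1 ∨ x = 2 * n + 2) :
    f (6 * k + 10) (b + 22) x y ↔ Fst (6 * k + 10) (b + 22) x y := by
  have H := W.li hf
  have I := W.inp hf W' hb hm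
  have hF2 := F2.of hf H (W.K2 hf)
  have hF6 := F6.of hf H (W.K6 hf)
  obtain ⟨hs, S, hn, d0, d2, d4⟩ := W
  have hk := hs.1
  have hN := H.T.hN2
  have hN' := hs.2.2.2.2
  have hN4 := hs.2.2.2.1
  clear d0 d2 d4
  subst hn
  refine S6.topL0 hf hs S tip ?_ ?_ x y h1 h2 h3
  · intro u v a1 a2 a3
    rcases a3 with rfl | rfl
    · rcases Nat.lt_or_ge (v + 2 * k) (2 * (m + 9 + (k + 2) * 4) + 7) with h | h
      · exact D v (by omega) (by omega)
      · exact H.p9_1 hf hF2 hF6 I h (by omega)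
    · exact p9_2 hf H rfl rfl a1 a2
  · intro u v a1 a2 a3
    exact p9m hf H (by omega) a3 a1 a2

end Pool.Agent.SNT.LRI
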