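import Pool.Agent.SNT.L0EAsm
import Pool.Agent.SNT.L0Z4
import Pool.Agent.SNT.L0Q2
import Pool.Agent.SNT.L0P
import Pool.Agent.SNT.LL0

set_option autoImplicit false

/-! The columns of the road L0, all cells except the E-cell (helper26): the column `X = 2 n - 10 - 2 v` of `6 k + 1` in the
row `c - 4`, `d = 2 .. 2 k - 4`, for every `v + 3 ≤ k`. -/

namespace Pool.Agent.SNT.L0E

open Pool.Agent.SNT Pool.Agent.SNT.Sig Pool.Agent.SNT.Loc Pool.Agent.SNT.LW Pool.Agent.SNT.NHZ Pool.Agent.SNT.DRun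
open Pool.Agent.SNT.D1E Pool.Agent.SNT.K0L2c Pool.Agent.SNT.PB

variable {f : ℕ → ℕ → ℕ → ℕ → Prop}

/-- one of the two in-lines `2 n + 3`, `2 n + 5` of `6 k + 2` in the row `c`, near the diagonal -/
theorem pair35 (hf : Rule f) {k c n : ℕ} (H : PL f k c n (n - 4)) :
    f (6 * k + 2) c (2 * n + 3) (2 * n - 2) ∨ f (6 * k + 2) c (2 * n + 5) (2 * n) := by
  have hk := H.T.hk
  have hN := H.T.hN2
  rcases k0_pair hf H (x := 2 * n + 3) (y := 2 * n + 8 - 2 * k) (by omega) (by omega) (by omega) with h | h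
  · exact Or.inl (run2' hf H.T (by omega) (by omega) (by omega) (by omega) h (2 * n - 2) (by omega) (by omega) (by omega))
  · exact Or.inr (run2' hf H.T (y0 := 2 * n + 8 - 2 * k + 2) (by omega) (by omega) (by omega) (by omega) h (2 * n)
      (by omega) (by omega) (by omega))

/-- all cells of the column except the E-cell, `X ≥ 2 n + 2` -/
theorem col_aux (hf : Rule f) {k c n X y : ℕ} (H : PL f k c n (n - 4)) (hX : 2 * n + 2 ≤ X) (hX2 : X % 2 = 0)
    (D0 : Cyc f (6 * k) (c - 2) (X - 2)) (D0a : Cyc f (6 * k) (c - 6) (X - 6 - 2 * k))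
    (C4a : Cyc f (6 * k + 4) (c - 6) (2 * (n - (k + 1)) + 2)) (hy : y % 2 = 0) (h1 : y + 2 ≤ X)
    (h2 : X + 4 ≤ y + 2 * k) : ¬ f (6 * k + 1) c X y := by
  have hk := H.T.hk
  have hN := H.T.hN2
  rcases (show y + 2 = X ∨ y + 4 = X ∨ (y + 6 ≤ X ∧ X + 6 ≤ y + 2 * k) ∨ X + 4 = y + 2 * k by omega) with h | h | h | h
  · rcases (show X = 2 * n + 2 ∨ 2 * n + 4 ≤ X by omega) with h3 | h3
    · subst h3
      intro h0
      have e : y = 2 * n := by omega
      subst e
      have D0' : Cyc f (6 * k) (c - 2) (2 * n) := cyc_mv D0 rfl rfl (by omega)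
      rcases pair35 hf H with h4 | h4
      · exact wp20_3 hf H D0' h0 h4
      · exact wp20_5 hf H D0' h0 h4
    · have e : y = X - 2 := by omega
      rw [e]
      exact wq2 hf H h3 hX2 D0 D0a
  · exact H.T.p0 hf (j := 3) (by omega) (by omega) (by omega) (by omega) (by omega) (by omega)
  · exact H.T.p0i hf (j := 4) (by omega) (by omega) (by omega) (by omega) (by omega) (by omega)
  · intro h0
    exact z4_aux hf H (by omega) hX2 D0 D0a C4a
      (fun e1 e2 e3 e4 => mv h0 (by omega) (by omega) (by omega) (by omega))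

/-- all cells of the column `X = 2 n` except the E-cell -/
theorem col0_aux (hf : Rule f) {k c n y : ℕ} (H : PL f k c n (n - 4))
    (I : LineR0.In f (6 * k) c n (n + 2 - k) (n - 5) (n - 4)) (D0 : Cyc f (6 * k) (c - 2) (2 * n - 2)) (hy : y % 2 = 0)
    (h1 : y + 2 ≤ 2 * n) (h2 : 2 * n + 4 ≤ y + 2 * k) : ¬ f (6 * k + 1) c (2 * n) y := by
  have hk := H.T.hk
  have hN := H.T.hN2
  intro h0
  rcases (show y + 2 = 2 * n ∨ y + 4 = 2 * n ∨ y + 6 = 2 * n ∨ y + 8 ≤ 2 * n by omega) with h | h | h | h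
  · have e : y = 2 * n - 2 := by omega
    subst e
    rcases pair35 hf H with h4 | h4
    · exact wp02_3 hf H D0 h0 h4
    · exact wp02_5 hf H D0 h0 h4
  · have e : y = 2 * n - 4 := by omega
    subst e
    rcases pair35 hf H with h4 | h4
    · exact wp04_3 hf H D0 h0 h4
    · exact wp04_5 hf H D0 h0 h4
  · have e : y = 2 * n - 6 := by omega
    subst e
    rcases pair35 hf H with h4 | h4
    · exact wp06_3 hf H D0 h0 h4
    · exact wp06_5 hf H D0 h0 h4
  · exact I.P1 hf (by omega) (by omega) (by omega) (by omega) h0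

end Pool.Agent.SNT.L0E

namespace Pool.Agent.SNT.D1

open Pool.Agent.SNT.D1E Pool.Agent.SNT.L0E Pool.Agent.SNT.LRI

variable {f : ℕ → ℕ → ℕ → ℕ → Prop} {k b m v : ℕ}

/-- the window of the cycle `j` -/
theorem win_of (S : StackA f k b m 0 0 0 0 0 1) (q4 : Q4 f k b m 0 0) (q2 : Q2 f k b m 0 0) (qd : QD f k b m 0 v)
    (j : ℕ) : Win f k (b + 4 * j) (m + (k + 2) * j) (nn k m j) where
  hs := (S.shift j).side
  S := (S.shift j).stack
  hn := rfl
  d0 := (qd j (by omega)).mono' (by omega)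
  d2 := cyc_of_eq (q2 j (by omega)) (by omega) (by omega)
  d4 := cyc_of_eq (q4 j (by omega)) (by omega) (by omega)

/-- **All cells of the column except the E-cell**, for `v + 3 ≤ k`. -/
theorem col_rest (hf : Rule f) (S : StackA f k b m 0 0 0 0 0 1) (q4 : Q4 f k b m 0 0) (q2 : Q2 f k b m 0 0)
    (qd : QD f k b m 0 v) (hv : v + 3 ≤ k) {x y : ℕ} (hx : x + 10 + 2 * v = 2 * nn k m 4) (hy : y % 2 = 0)
    (h1 : y + 2 ≤ x) (h2 : x + 4 ≤ y + 2 * k) : ¬ f (6 * k + 1) (b + 4 * 4 + 18) x y := by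
  have H1 := pl_of S q4 q2 qd 3 (c := b + 4 * 4 + 18) (n := nn k m 3) (by omega) rfl
  have e3 : nn k m 3 = nn k m 2 + (k + 2) := by
    unfold nn
    ring
  have e4 : nn k m 4 = nn k m 3 + (k + 2) := by
    unfold nn
    ring
  have hN := H1.T.hN2
  have D0 := qd 4 (by omega)
  have D0a := qd 3 (by omega)
  have C4 := q4 2 (by omega)
  rcases Nat.lt_or_ge x (2 * nn k m 3 + 2) with h3 | h3
  · have e : x = 2 * nn k m 3 := by omega
    subst e
    have I := (win_of S q4 q2 qd 3).inp hf (win_of S q4 q2 qd 2) (by ring) (by ring)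
    have e5 : b + 4 * 3 + 22 = b + 4 * 4 + 18 := by ring
    rw [e5] at I
    exact col0_aux hf H1 I (cyc_of_eq D0 (by omega) (by omega)) hy h1 h2
  · exact col_aux hf H1 h3 (by omega) (cyc_of_eq D0 (by omega) (by omega)) (cyc_of_eq D0a (by omega) (by omega))
      (cyc_of_eq C4 (by omega) (by omega)) hy h1 h2

/-- **`ColD` from the E-cell**, for `v + 3 ≤ k`. -/
theorem colD_of_ecell (hf : Rule f) (hv : v + 3 ≤ k)
    (E : ∀ b m : ℕ, StackA f k b m 0 0 0 0 0 1 → Q4 f k b m 0 0 → Q2 f k b m 0 0 → QD f k b m 0 v → ∀ x y : ℕ,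
      x + 10 + 2 * v = 2 * nn k m 4 → y + 2 * k = x + 2 → ¬ f (6 * k + 1) (b + 4 * 4 + 18) x y) : ColD f k 1 v := by
  intro b m S q4 q2 qd x y hx hy h1 h2
  rcases (show y + 2 * k = x + 2 ∨ x + 4 ≤ y + 2 * k by omega) with h | h
  · exact E b m S q4 q2 qd x y hx h
  · exact col_rest hf S q4 q2 qd hv hx hy h1 h

/-- **`ColD` for `v + 7 ≤ k`.** -/
theorem colD7 (hf : Rule f) (hv : v + 7 ≤ k) : ColD f k 1 v :=
  colD_of_ecell hf (by omega) (fun _ _ S q4 q2 qd _ _ hx hy => ecell hf S q4 q2 qd hv hx hy)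

end Pool.Agent.SNT.D1
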