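import Pool.Agent.SNT.L0XE
import Pool.Agent.SNT.L0AsmX

set_option autoImplicit false

/-! The columns of the road L0 for `v + 4 ≤ k`. -/

namespace Pool.Agent.SNT.D1

variable {f : ℕ → ℕ → ℕ → ℕ → Prop} {k v : ℕ}

/-- **`ColD` for `v + 4 ≤ k`.** -/
theorem colD4 (hf : Rule f) (hv : v + 4 ≤ k) : ColD f k 1 v := by
  refine colD_of_ecell hf (by omega) (fun _ _ S q4 q2 qd _ _ hx hy => ?_)
  rcases (show v + 6 ≤ k ∨ k ≤ v + 5 by omega) with h | h
  · exact ecell6 hf S q4 q2 qd h hx hy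
  · exact ecell_24 hf S q4 q2 qd hv h hx hy

end Pool.Agent.SNT.D1
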