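import Pool.Agent.SNT.PL

set_option autoImplicit false
set_option synthInstance.maxSize 100000
set_option synthInstance.maxHeartbeats 4000000

/-! The E-cell of the road L0: window A1. -/

namespace Pool.Agent.SNT.L0E

open Pool.Agent.SNT Pool.Agent.SNT.Loc Pool.Agent.SNT.LW Pool.Agent.SNT.NHZ Pool.Agent.SNT.D1E Pool.Agent.SNT.K0L2c

variable {f : ℕ → ℕ → ℕ → ℕ → Prop}

theorem a1_chk : check 3 8 13 14 0 0 1 0 0
    (fun j n p q => decide ((j = 2 ∧ n = 1 ∧ ((p + q + 1) % 2 = 0 ∧ q + 1 ≤ p ∧ (p + q + 1) % 4 = 0))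
      ∨ (j = 2 ∧ n = 2 ∧ ((6 ≤ p) ∨ (q + 1 ≤ p) ∨ (p ≤ q + 0 ∧ 6 ≤ q)) ∧ (((p + q + 1) % 2 = 1 ∧ p ≤ q + 0 ∧ p % 2 = 1) ∨ ((p + q + 1) % 2 = 1 ∧ q ≤ p + 0 ∧ (p + q + 2) % 4 = 0)))
      ∨ (j = 2 ∧ n = 3 ∧ ((8 ≤ p) ∨ (p ≤ q + 0 ∧ 8 ≤ q)) ∧ ((p + q + 1) % 2 = 0 ∧ q + 1 ≤ p ∧ (p + q + 3) % 4 = 0))
      ∨ (j = 3 ∧ n = 6 ∧ p = 11 ∧ q = 12)
      ∨ (j = 2 ∧ n = 2 ∧ p = 1 ∧ q = 5)))
    (fun j n p q => decide ((j = 2 ∧ n = 1 ∧ ¬ ((p + q + 1) % 2 = 0 ∧ q + 1 ≤ p ∧ (p + q + 1) % 4 = 0))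
      ∨ (j = 2 ∧ n = 2 ∧ ((6 ≤ p) ∨ (q + 1 ≤ p) ∨ (p ≤ q + 0 ∧ 6 ≤ q)) ∧ ¬ (((p + q + 1) % 2 = 1 ∧ p ≤ q + 0 ∧ p % 2 = 1) ∨ ((p + q + 1) % 2 = 1 ∧ q ≤ p + 0 ∧ (p + q + 2) % 4 = 0)))
      ∨ (j = 2 ∧ n = 3 ∧ ((8 ≤ p) ∨ (p ≤ q + 0 ∧ 8 ≤ q)) ∧ ¬ ((p + q + 1) % 2 = 0 ∧ q + 1 ≤ p ∧ (p + q + 3) % 4 = 0))
      ∨ (j = 1)
      ∨ (j = 3 ∧ n = 1 ∧ p + 3 ≤ q)
      ∨ (j = 2 ∧ n = 5 ∧ p + 5 ≤ q ∧ q ≤ p + 10)
      ∨ (j = 3 ∧ n = 5 ∧ p + 5 ≤ q ∧ q ≤ p + 10)))
    123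
    0x7c183075e80075e81067583067600067d9a068480068b9206ee0006f512075780075784081d0008249a0767000afd0007670107040006fb80069200066f800628800619800afd0f082407076007075f07075e07070c07070b8707050707048707040f07038707030706fc8706fc0706fb8f069a0706998706930706928706920f068b07067d07066f8f066e0706308706300706298706290706288f062287062207061b87061b07061a87061a0706198f061387061307054c87054c0705458705450704f18704f10704ea8704ea0704e98704e90704e28704e207048f07048e87048e07048807048787048707048687048607047f87047f07043407043387042d07042c87042b87042b07042487042407041d07041c8704160704158703c20703c18703bb0703ba8703b38703b30703ac8703ac0703a58703a507039e87039e07039d87039d07039687039607035887035807035187035107034a87034a07034387034307034287034207033b87033b07 = true := by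
  decide +kernel

theorem a1_aux (hf : Rule f) {k c n M X : ℕ} (H : PL f k c n M) (hX : 2 * M + 16 ≤ X) (hX2 : X % 2 = 0)
    (D0 : Cyc f (6 * k) (c - 2) (X - 2)) (D0a : Cyc f (6 * k) (c - 6) (X - 6 - 2 * k))
    (C4a : Cyc f (6 * k + 4) (c - 6) (2 * (n - (k + 1)) + 2))
    (p0 : ∀ {L R x y : ℕ}, L = 6 * k + 1 → R = c → x = X → y + 2 * k = X + 2 → f L R x y)
    (p1 : ∀ {L R x y : ℕ}, L = 6 * k → R + 4 = c → x + 10 = X → y + 2 * k + 5 = X → f L R x y) : False := by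
  have hk := H.T.hk
  have hc := H.T.hc
  have h4 := H.T.h4
  have hb := H.T.hb
  have hN := H.T.hN2
  have hM := H.hM
  have hM' := H.hM'
  have T := H.T
  have U := H.U
  have C2 := H.c2
  have C4 := H.c4
  have C6a := H.c6a
  have C6 := H.c6
  have C8a := H.c8a
  have C8 := H.c8
  have C10a := H.c10a
  have C10 := H.c10
  have hL : ∀ {M' R x y : ℕ}, M' + 1 = 6 * k → c ≤ R + 12 → R ≤ c + 12 → 2 * n ≤ x + 20 → y ≤ x → x ≤ y + 4 * k →
      ¬ f M' R x y := fun {a b c d} => H.lw a b c d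
  obtain ⟨a0, ha0⟩ : ∃ z, z + 2 = 6 * k := ⟨6 * k - 2, by omega⟩
  obtain ⟨b0, hb0⟩ : ∃ z, z + 6 = c := ⟨c - 6, by omega⟩
  obtain ⟨x0, hx0⟩ : ∃ z, z + 11 = X := ⟨X - 11, by omega⟩
  obtain ⟨y0, hy0⟩ : ∃ z, z + 2 * k + 20 = X + 10 := ⟨X + 10 - 2 * k - 20, by omega⟩
  refine check_sound hf (a0 := a0) (b0 := b0) (x0 := x0) (y0 := y0) a1_chk
    ⟨fun h => absurd h (by decide), fun h => absurd h (by decide), fun h => absurd h (by decide), by omega, by omega,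
      by omega, by omega⟩ ?_ ?_
  · intro j m p q hr h
    obtain ⟨-, -, hm1, hm2, hp1, hp2, hq1, hq2⟩ := hr
    replace h := of_decide_eq_true h
    rcases h with h | h | h | h | h
    · obtain ⟨rfl, rfl, h⟩ := h
      exact (WrapC.v1 D0a (by omega) (by omega) (by omega) (by omega) (by omega) (by omega) (by omega) (by omega)).mpr (by omega)
    · obtain ⟨rfl, rfl, h⟩ := h
      exact (WrapC.v2 D0a (by omega) (by omega) (by omega) (by omega) (by omega) (by omega) (by omega)).mpr (by omega)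
    · obtain ⟨rfl, rfl, h⟩ := h
      exact (WrapC.v3 D0a (by omega) (by omega) (by omega) (by omega) (by omega) (by omega) (by omega) (by omega)).mpr (by omega)
    · obtain ⟨rfl, rfl, rfl, rfl⟩ := h
      exact p0 (by omega) (by omega) (by omega) (by omega)
    · obtain ⟨rfl, rfl, rfl, rfl⟩ := h
      exact p1 (by omega) (by omega) (by omega) (by omega)
  · intro j m p q hr h
    obtain ⟨-, -, hm1, hm2, hp1, hp2, hq1, hq2⟩ := hr
    replace h := of_decide_eq_true h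
    rcases h with h | h | h | h | h | h | h
    · obtain ⟨rfl, rfl, h⟩ := h
      exact mt (WrapC.v1 D0a (by omega) (by omega) (by omega) (by omega) (by omega) (by omega) (by omega) (by omega)).mp (by omega)
    · obtain ⟨rfl, rfl, h⟩ := h
      exact mt (WrapC.v2 D0a (by omega) (by omega) (by omega) (by omega) (by omega) (by omega) (by omega)).mp (by omega)
    · obtain ⟨rfl, rfl, h⟩ := h
      exact mt (WrapC.v3 D0a (by omega) (by omega) (by omega) (by omega) (by omega) (by omega) (by omega) (by omega)).mp (by omega)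
    · obtain rfl := h
      exact hL (by omega) (by omega) (by omega) (by omega) (by omega) (by omega)
    · obtain ⟨rfl, rfl, h⟩ := h
      exact NHT.rIn hf T (t := 2) (p := 1) (j := 2) (by omega) (by omega) (by omega) (by omega) (by omega) (by omega) (by omega) (by omega)
    · obtain ⟨rfl, rfl, h⟩ := h
      exact NHT.rIn hf T (t := 4) (p := 0) (j := 4) (by omega) (by omega) (by omega) (by omega) (by omega) (by omega) (by omega) (by omega)
    · obtain ⟨rfl, rfl, h⟩ := h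
      exact NHT.rIn hf T (t := 4) (p := 1) (j := 4) (by omega) (by omega) (by omega) (by omega) (by omega) (by omega) (by omega) (by omega)

end Pool.Agent.SNT.L0E
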