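import Pool.Agent.SNT.Loc

set_option autoImplicit false

/-! Region tables (helper32) -/

namespace Pool.Agent.SNT.L0N2

open Pool.Agent.SNT Pool.Agent.SNT.Loc

/-- The region predicate of the fact tables. -/
def rg (r1 r2 u1 u2 v1 v2 d1 d2 n p q : ℕ) : Bool :=
  Nat.ble r1 n && (Nat.ble n r2 && (Nat.ble u1 p && (Nat.ble p u2 && (Nat.ble v1 q && (Nat.ble q v2 &&
    (Nat.ble (q + d1) p && Nat.ble p (q + d2)))))))

theorem rg_iff {r1 r2 u1 u2 v1 v2 d1 d2 n p q : ℕ} (h : rg r1 r2 u1 u2 v1 v2 d1 d2 n p q = true) :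
    r1 ≤ n ∧ n ≤ r2 ∧ u1 ≤ p ∧ p ≤ u2 ∧ v1 ≤ q ∧ q ≤ v2 ∧ q + d1 ≤ p ∧ p ≤ q + d2 := by
  simpa only [rg, Bool.and_eq_true, Nat.ble_eq] using h

/-- A residue modulo `2`. -/
def pr (a r : ℕ) : Bool := Nat.beq (a % 2) r

theorem pr_iff {a r : ℕ} (h : pr a r = true) : a % 2 = r := by
  simpa only [pr, Nat.beq_eq] using h

/-- A single cell. -/
def tg (J N P Q j n p q : ℕ) : Bool := Nat.beq j J && (Nat.beq n N && (Nat.beq p P && Nat.beq q Q))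

theorem tg_iff {J N P Q j n p q : ℕ} (h : tg J N P Q j n p q = true) : j = J ∧ n = N ∧ p = P ∧ q = Q := by
  simpa only [tg, Bool.and_eq_true, Nat.beq_eq] using h

theorem or_l {a b : Bool} (h : (a || b) = true) : a = true ∨ b = true := by
  simpa only [Bool.or_eq_true] using h

theorem and_l {a b : Bool} (h : (a && b) = true) : a = true ∧ b = true := by
  simpa only [Bool.and_eq_true] using h

def g_on2 (n p q : ℕ) : Bool :=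
    (pr p 0 && rg 1 1 4 4 4 4 0 0 n p q) || (
    (pr q 1 && (pr p 0 && rg 2 2 4 10 1 9 1 5 n p q)) || (
    (pr p 1 && rg 3 3 5 9 5 9 0 0 n p q) || (
    (pr q 0 && (pr p 1 && rg 4 4 5 9 2 8 1 7 n p q)) || (
    (pr p 0 && rg 5 5 4 8 4 8 0 0 n p q)))))

def g_on4 (n p q : ℕ) : Bool :=
    (pr p 1 && rg 1 1 5 5 5 5 0 0 n p q) || (
    (pr q 0 && (pr p 1 && rg 2 2 7 7 6 6 1 1 n p q)) || (
    (pr p 0 && rg 3 3 8 8 8 8 0 0 n p q) || (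
    (pr q 1 && (pr p 0 && rg 4 4 12 12 5 7 5 7 n p q)))))

def g_on6 (n p q : ℕ) : Bool :=
    (pr p 0 && rg 1 1 4 4 4 4 0 0 n p q) || (
    (pr q 1 && (pr p 0 && rg 2 2 4 6 1 5 1 5 n p q)) || (
    (pr p 1 && rg 3 3 5 11 5 11 0 0 n p q) || (
    (pr q 0 && (pr p 1 && rg 4 4 7 11 6 10 1 5 n p q)) || (
    (pr p 0 && rg 5 5 8 10 8 10 0 0 n p q)))))

def g_on8 (n p q : ℕ) : Bool :=
    (pr q 0 && (pr p 1 && rg 2 2 5 11 2 8 1 7 n p q)) || (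
    (pr p 0 && rg 3 3 4 10 4 10 0 0 n p q) || (
    (pr q 1 && (pr p 0 && rg 4 4 12 12 7 7 5 5 n p q))))

def g_on10 (n p q : ℕ) : Bool :=
    (pr q 0 && (pr p 1 && rg 4 4 7 13 4 12 1 9 n p q)) || (
    (pr p 0 && rg 5 5 6 12 6 12 0 0 n p q))

def g_on12 (n p q : ℕ) : Bool :=
    (pr q 0 && (pr p 1 && rg 6 6 7 15 6 12 1 9 n p q))

def g_on (j n p q : ℕ) : Bool :=
  (Nat.beq j 2 && g_on2 n p q) || (
  (Nat.beq j 4 && g_on4 n p q) || (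
  (Nat.beq j 6 && g_on6 n p q) || (
  (Nat.beq j 8 && g_on8 n p q) || (
  (Nat.beq j 10 && g_on10 n p q) || (
  (Nat.beq j 12 && g_on12 n p q))))))

def g_zr1 (n p q : ℕ) : Bool :=
    rg 5 6 5 10 2 7 0 7 n p q

def g_zr2 (n p q : ℕ) : Bool :=
    rg 5 5 5 10 2 7 1 7 n p q || (
    (pr p 1 && rg 5 5 7 7 7 7 0 0 n p q))

def g_zr3 (n p q : ℕ) : Bool :=
    rg 1 1 5 6 2 4 1 4 n p q || (
    rg 3 3 8 11 3 5 3 8 n p q || (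
    rg 3 3 8 11 6 8 2 5 n p q || (
    rg 4 4 11 11 3 6 5 8 n p q)))

def g_zr4 (n p q : ℕ) : Bool :=
    rg 1 1 4 4 1 3 1 3 n p q || (
    rg 1 1 5 7 1 5 1 6 n p q || (
    (pr (p + q) 0 && rg 2 2 5 7 5 6 0 2 n p q) || (
    (pr p 0 && rg 2 2 6 6 5 5 1 1 n p q) || (
    rg 3 3 7 11 6 6 1 5 n p q || (
    (pr p 1 && rg 3 3 7 9 7 9 0 0 n p q) || (
    rg 3 3 8 11 3 5 3 8 n p q || (
    rg 3 3 8 11 7 9 1 4 n p q)))))))

def g_zr5 (n p q : ℕ) : Bool :=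
    rg 1 1 4 7 1 5 1 6 n p q || (
    rg 2 2 7 7 1 5 2 6 n p q || (
    rg 3 3 7 11 6 8 1 5 n p q || (
    rg 3 3 8 11 4 5 3 7 n p q || (
    rg 4 4 11 11 4 7 4 7 n p q))))

def g_zr6 (n p q : ℕ) : Bool :=
    rg 3 3 6 11 4 5 1 7 n p q || (
    (pr p 0 && rg 4 4 6 10 5 5 1 5 n p q) || (
    (pr (p + q) 0 && rg 4 4 7 11 5 5 2 6 n p q) || (
    rg 5 5 9 12 7 10 1 5 n p q || (
    (pr p 1 && rg 5 5 9 9 9 9 0 0 n p q) || (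
    rg 5 5 12 12 5 6 6 7 n p q)))))

def g_zr7 (n p q : ℕ) : Bool :=
    rg 3 3 8 11 4 9 1 7 n p q || (
    rg 4 4 11 11 4 10 1 7 n p q || (
    rg 5 5 11 12 10 10 1 2 n p q || (
    rg 5 5 12 12 5 9 3 7 n p q)))

def g_zr8 (n p q : ℕ) : Bool :=
    rg 3 3 5 11 2 9 1 7 n p q || (
    (pr p 1 && rg 3 3 5 9 5 9 0 0 n p q) || (
    rg 5 5 12 12 5 11 1 7 n p q || (
    rg 5 5 13 13 6 11 2 7 n p q)))

def g_zr9 (n p q : ℕ) : Bool :=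
    rg 5 5 12 13 5 11 1 7 n p q

def g_zr10 (n p q : ℕ) : Bool :=
    rg 5 5 7 14 5 12 1 8 n p q || (
    (pr p 1 && rg 5 5 9 11 9 11 0 0 n p q))

def g_zr (j n p q : ℕ) : Bool :=
  (Nat.beq j 1 && g_zr1 n p q) || (
  (Nat.beq j 2 && g_zr2 n p q) || (
  (Nat.beq j 3 && g_zr3 n p q) || (
  (Nat.beq j 4 && g_zr4 n p q) || (
  (Nat.beq j 5 && g_zr5 n p q) || (
  (Nat.beq j 6 && g_zr6 n p q) || (
  (Nat.beq j 7 && g_zr7 n p q) || (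
  (Nat.beq j 8 && g_zr8 n p q) || (
  (Nat.beq j 9 && g_zr9 n p q) || (
  (Nat.beq j 10 && g_zr10 n p q))))))))))

end Pool.Agent.SNT.L0N2
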