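import Pool.Agent.SNT.L0N2F1
import Pool.Agent.SNT.L0N2F2
import Pool.Agent.SNT.L0N2F3
import Pool.Agent.SNT.L0N2C1
import Pool.Agent.SNT.L0N2C2

set_option autoImplicit false
set_option synthInstance.maxSize 100000
set_option synthInstance.maxHeartbeats 4000000

/-! Assembly (helper32) -/

namespace Pool.Agent.SNT.L0N2

open Pool.Agent.SNT Pool.Agent.SNT.Sig Pool.Agent.SNT.Loc Pool.Agent.SNT.LW Pool.Agent.SNT.NHZ Pool.Agent.SNT.D1E

variable {f : ℕ → ℕ → ℕ → ℕ → Prop}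

theorem g_on_s (hf : Rule f) {k b n M a0 b0 x0 : ℕ} (h : PL f k b n M) (D0 : Cyc f (6 * k) (b - 6) (2 * n - 2 * k - 6))
    (C2 : Cyc f (6 * k + 2) (b - 4) (2 * (n - 5) + 2)) (C4 : Cyc f (6 * k + 4) (b - 6) (2 * (n - (k + 1)) + 2))
    (ha0 : a0 + 2 = 6 * k) (hb0 : b0 + 8 = b) (hx0 : x0 + 19 = 2 * n) {j m p q : ℕ} (hx : g_on j m p q = true) :
    f (a0 + j) (b0 + m) (x0 + p) (x0 + q) := by
  unfold g_on at hx
  rcases or_l hx with hx | hx
  · obtain ⟨e, hx⟩ := and_l hx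
    rw [Nat.beq_eq] at e
    subst e
    exact g_on2_s hf h D0 C2 C4 ha0 hb0 hx0 hx
  rcases or_l hx with hx | hx
  · obtain ⟨e, hx⟩ := and_l hx
    rw [Nat.beq_eq] at e
    subst e
    exact g_on4_s hf h D0 C2 C4 ha0 hb0 hx0 hx
  rcases or_l hx with hx | hx
  · obtain ⟨e, hx⟩ := and_l hx
    rw [Nat.beq_eq] at e
    subst e
    exact g_on6_s hf h D0 C2 C4 ha0 hb0 hx0 hx
  rcases or_l hx with hx | hx
  · obtain ⟨e, hx⟩ := and_l hx
    rw [Nat.beq_eq] at e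
    subst e
    exact g_on8_s hf h D0 C2 C4 ha0 hb0 hx0 hx
  rcases or_l hx with hx | hx
  · obtain ⟨e, hx⟩ := and_l hx
    rw [Nat.beq_eq] at e
    subst e
    exact g_on10_s hf h D0 C2 C4 ha0 hb0 hx0 hx
  obtain ⟨e, hx⟩ := and_l hx
  rw [Nat.beq_eq] at e
  subst e
  exact g_on12_s hf h D0 C2 C4 ha0 hb0 hx0 hx

theorem g_zr_s (hf : Rule f) {k b n M a0 b0 x0 : ℕ} (h : PL f k b n M) (D0 : Cyc f (6 * k) (b - 6) (2 * n - 2 * k - 6))
    (C2 : Cyc f (6 * k + 2) (b - 4) (2 * (n - 5) + 2)) (C4 : Cyc f (6 * k + 4) (b - 6) (2 * (n - (k + 1)) + 2))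
    (ha0 : a0 + 2 = 6 * k) (hb0 : b0 + 8 = b) (hx0 : x0 + 19 = 2 * n) {j m p q : ℕ} (hx : g_zr j m p q = true) :
    ¬ f (a0 + j) (b0 + m) (x0 + p) (x0 + q) := by
  unfold g_zr at hx
  rcases or_l hx with hx | hx
  · obtain ⟨e, hx⟩ := and_l hx
    rw [Nat.beq_eq] at e
    subst e
    exact g_zr1_s hf h D0 C2 C4 ha0 hb0 hx0 hx
  rcases or_l hx with hx | hx
  · obtain ⟨e, hx⟩ := and_l hx
    rw [Nat.beq_eq] at e
    subst e
    exact g_zr2_s hf h D0 C2 C4 ha0 hb0 hx0 hx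
  rcases or_l hx with hx | hx
  · obtain ⟨e, hx⟩ := and_l hx
    rw [Nat.beq_eq] at e
    subst e
    exact g_zr3_s hf h D0 C2 C4 ha0 hb0 hx0 hx
  rcases or_l hx with hx | hx
  · obtain ⟨e, hx⟩ := and_l hx
    rw [Nat.beq_eq] at e
    subst e
    exact g_zr4_s hf h D0 C2 C4 ha0 hb0 hx0 hx
  rcases or_l hx with hx | hx
  · obtain ⟨e, hx⟩ := and_l hx
    rw [Nat.beq_eq] at e
    subst e
    exact g_zr5_s hf h D0 C2 C4 ha0 hb0 hx0 hx
  rcases or_l hx with hx | hx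
  · obtain ⟨e, hx⟩ := and_l hx
    rw [Nat.beq_eq] at e
    subst e
    exact g_zr6_s hf h D0 C2 C4 ha0 hb0 hx0 hx
  rcases or_l hx with hx | hx
  · obtain ⟨e, hx⟩ := and_l hx
    rw [Nat.beq_eq] at e
    subst e
    exact g_zr7_s hf h D0 C2 C4 ha0 hb0 hx0 hx
  rcases or_l hx with hx | hx
  · obtain ⟨e, hx⟩ := and_l hx
    rw [Nat.beq_eq] at e
    subst e
    exact g_zr8_s hf h D0 C2 C4 ha0 hb0 hx0 hx
  rcases or_l hx with hx | hx
  · obtain ⟨e, hx⟩ := and_l hx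
    rw [Nat.beq_eq] at e
    subst e
    exact g_zr9_s hf h D0 C2 C4 ha0 hb0 hx0 hx
  obtain ⟨e, hx⟩ := and_l hx
  rw [Nat.beq_eq] at e
  subst e
  exact g_zr10_s hf h D0 C2 C4 ha0 hb0 hx0 hx

theorem n2_5_00 (hf : Rule f) {k b n M : ℕ} (h : PL f k b n M) (D0 : Cyc f (6 * k) (b - 6) (2 * n - 2 * k - 6))
    (C2 : Cyc f (6 * k + 2) (b - 4) (2 * (n - 5) + 2)) (C4 : Cyc f (6 * k + 4) (b - 6) (2 * (n - (k + 1)) + 2))
    (t_2_18_31_26 : f (6 * k + 2) (b - 2) (2 * n - 9) (2 * n - 14))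
    (t_2_16_27_22 : f (6 * k + 2) (b - 4) (2 * n - 13) (2 * n - 18))
    (t_6_16_29_22 : f (6 * k + 6) (b - 4) (2 * n - 11) (2 * n - 18)) : False := by
  have hk := h.T.hk
  have hb := h.T.hc
  have h4 := h.T.h4
  have hbig := h.T.hb
  have hn := h.T.hN2
  obtain ⟨a0, ha0⟩ : ∃ z, z + 2 = 6 * k := ⟨6 * k - 2, by omega⟩
  obtain ⟨b0, hb0⟩ : ∃ z, z + 8 = b := ⟨b - 8, by omega⟩
  obtain ⟨x0, hx0⟩ : ∃ z, z + 19 = 2 * n := ⟨2 * n - 19, by omega⟩
  refine check_sound hf (a0 := a0) (b0 := b0) (x0 := x0) (y0 := x0) n2_5_00_chk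
    ⟨fun _ => rfl, fun h => absurd h (by decide), fun h => absurd h (by decide), by omega, by omega,
      by omega, by omega⟩ ?_ ?_
  · intro j m p q hr hx
    clear hr
    rcases or_l hx with hx | hx
    · obtain ⟨rfl, rfl, rfl, rfl⟩ := tg_iff hx
      rwa [show a0 + 4 = 6 * k + 2 by omega, show b0 + 6 = b - 2 by omega, show x0 + 10 = 2 * n - 9 by omega, show x0 + 5 = 2 * n - 14 by omega]
    rcases or_l hx with hx | hx
    · obtain ⟨rfl, rfl, rfl, rfl⟩ := tg_iff hx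
      rwa [show a0 + 4 = 6 * k + 2 by omega, show b0 + 4 = b - 4 by omega, show x0 + 6 = 2 * n - 13 by omega, show x0 + 1 = 2 * n - 18 by omega]
    rcases or_l hx with hx | hx
    · obtain ⟨rfl, rfl, rfl, rfl⟩ := tg_iff hx
      rwa [show a0 + 8 = 6 * k + 6 by omega, show b0 + 4 = b - 4 by omega, show x0 + 8 = 2 * n - 11 by omega, show x0 + 1 = 2 * n - 18 by omega]
    exact g_on_s hf h D0 C2 C4 ha0 hb0 hx0 hx
  · intro j m p q hr hx
    clear hr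
    exact g_zr_s hf h D0 C2 C4 ha0 hb0 hx0 hx

theorem n2_5_01 (hf : Rule f) {k b n M : ℕ} (h : PL f k b n M) (D0 : Cyc f (6 * k) (b - 6) (2 * n - 2 * k - 6))
    (C2 : Cyc f (6 * k + 2) (b - 4) (2 * (n - 5) + 2)) (C4 : Cyc f (6 * k + 4) (b - 6) (2 * (n - (k + 1)) + 2))
    (t_2_18_31_26 : f (6 * k + 2) (b - 2) (2 * n - 9) (2 * n - 14))
    (t_2_16_27_22 : f (6 * k + 2) (b - 4) (2 * n - 13) (2 * n - 18))
    (t_6_16_31_24 : f (6 * k + 6) (b - 4) (2 * n - 9) (2 * n - 16)) : False := by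
  have hk := h.T.hk
  have hb := h.T.hc
  have h4 := h.T.h4
  have hbig := h.T.hb
  have hn := h.T.hN2
  obtain ⟨a0, ha0⟩ : ∃ z, z + 2 = 6 * k := ⟨6 * k - 2, by omega⟩
  obtain ⟨b0, hb0⟩ : ∃ z, z + 8 = b := ⟨b - 8, by omega⟩
  obtain ⟨x0, hx0⟩ : ∃ z, z + 19 = 2 * n := ⟨2 * n - 19, by omega⟩
  refine check_sound hf (a0 := a0) (b0 := b0) (x0 := x0) (y0 := x0) n2_5_01_chk
    ⟨fun _ => rfl, fun h => absurd h (by decide), fun h => absurd h (by decide), by omega, by omega,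
      by omega, by omega⟩ ?_ ?_
  · intro j m p q hr hx
    clear hr
    rcases or_l hx with hx | hx
    · obtain ⟨rfl, rfl, rfl, rfl⟩ := tg_iff hx
      rwa [show a0 + 4 = 6 * k + 2 by omega, show b0 + 6 = b - 2 by omega, show x0 + 10 = 2 * n - 9 by omega, show x0 + 5 = 2 * n - 14 by omega]
    rcases or_l hx with hx | hx
    · obtain ⟨rfl, rfl, rfl, rfl⟩ := tg_iff hx
      rwa [show a0 + 4 = 6 * k + 2 by omega, show b0 + 4 = b - 4 by omega, show x0 + 6 = 2 * n - 13 by omega, show x0 + 1 = 2 * n - 18 by omega]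
    rcases or_l hx with hx | hx
    · obtain ⟨rfl, rfl, rfl, rfl⟩ := tg_iff hx
      rwa [show a0 + 8 = 6 * k + 6 by omega, show b0 + 4 = b - 4 by omega, show x0 + 10 = 2 * n - 9 by omega, show x0 + 3 = 2 * n - 16 by omega]
    exact g_on_s hf h D0 C2 C4 ha0 hb0 hx0 hx
  · intro j m p q hr hx
    clear hr
    exact g_zr_s hf h D0 C2 C4 ha0 hb0 hx0 hx

theorem n2_5_10 (hf : Rule f) {k b n M : ℕ} (h : PL f k b n M) (D0 : Cyc f (6 * k) (b - 6) (2 * n - 2 * k - 6))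
    (C2 : Cyc f (6 * k + 2) (b - 4) (2 * (n - 5) + 2)) (C4 : Cyc f (6 * k + 4) (b - 6) (2 * (n - (k + 1)) + 2))
    (t_2_18_31_26 : f (6 * k + 2) (b - 2) (2 * n - 9) (2 * n - 14))
    (t_2_16_29_24 : f (6 * k + 2) (b - 4) (2 * n - 11) (2 * n - 16))
    (t_6_16_29_22 : f (6 * k + 6) (b - 4) (2 * n - 11) (2 * n - 18)) : False := by
  have hk := h.T.hk
  have hb := h.T.hc
  have h4 := h.T.h4
  have hbig := h.T.hb
  have hn := h.T.hN2
  obtain ⟨a0, ha0⟩ : ∃ z, z + 2 = 6 * k := ⟨6 * k - 2, by omega⟩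
  obtain ⟨b0, hb0⟩ : ∃ z, z + 8 = b := ⟨b - 8, by omega⟩
  obtain ⟨x0, hx0⟩ : ∃ z, z + 19 = 2 * n := ⟨2 * n - 19, by omega⟩
  refine check_sound hf (a0 := a0) (b0 := b0) (x0 := x0) (y0 := x0) n2_5_10_chk
    ⟨fun _ => rfl, fun h => absurd h (by decide), fun h => absurd h (by decide), by omega, by omega,
      by omega, by omega⟩ ?_ ?_
  · intro j m p q hr hx
    clear hr
    rcases or_l hx with hx | hx
    · obtain ⟨rfl, rfl, rfl, rfl⟩ := tg_iff hx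
      rwa [show a0 + 4 = 6 * k + 2 by omega, show b0 + 6 = b - 2 by omega, show x0 + 10 = 2 * n - 9 by omega, show x0 + 5 = 2 * n - 14 by omega]
    rcases or_l hx with hx | hx
    · obtain ⟨rfl, rfl, rfl, rfl⟩ := tg_iff hx
      rwa [show a0 + 4 = 6 * k + 2 by omega, show b0 + 4 = b - 4 by omega, show x0 + 8 = 2 * n - 11 by omega, show x0 + 3 = 2 * n - 16 by omega]
    rcases or_l hx with hx | hx
    · obtain ⟨rfl, rfl, rfl, rfl⟩ := tg_iff hx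
      rwa [show a0 + 8 = 6 * k + 6 by omega, show b0 + 4 = b - 4 by omega, show x0 + 8 = 2 * n - 11 by omega, show x0 + 1 = 2 * n - 18 by omega]
    exact g_on_s hf h D0 C2 C4 ha0 hb0 hx0 hx
  · intro j m p q hr hx
    clear hr
    exact g_zr_s hf h D0 C2 C4 ha0 hb0 hx0 hx

theorem n2_5_11 (hf : Rule f) {k b n M : ℕ} (h : PL f k b n M) (D0 : Cyc f (6 * k) (b - 6) (2 * n - 2 * k - 6))
    (C2 : Cyc f (6 * k + 2) (b - 4) (2 * (n - 5) + 2)) (C4 : Cyc f (6 * k + 4) (b - 6) (2 * (n - (k + 1)) + 2))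
    (t_2_18_31_26 : f (6 * k + 2) (b - 2) (2 * n - 9) (2 * n - 14))
    (t_2_16_29_24 : f (6 * k + 2) (b - 4) (2 * n - 11) (2 * n - 16))
    (t_6_16_31_24 : f (6 * k + 6) (b - 4) (2 * n - 9) (2 * n - 16)) : False := by
  have hk := h.T.hk
  have hb := h.T.hc
  have h4 := h.T.h4
  have hbig := h.T.hb
  have hn := h.T.hN2
  obtain ⟨a0, ha0⟩ : ∃ z, z + 2 = 6 * k := ⟨6 * k - 2, by omega⟩
  obtain ⟨b0, hb0⟩ : ∃ z, z + 8 = b := ⟨b - 8, by omega⟩
  obtain ⟨x0, hx0⟩ : ∃ z, z + 19 = 2 * n := ⟨2 * n - 19, by omega⟩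
  refine check_sound hf (a0 := a0) (b0 := b0) (x0 := x0) (y0 := x0) n2_5_11_chk
    ⟨fun _ => rfl, fun h => absurd h (by decide), fun h => absurd h (by decide), by omega, by omega,
      by omega, by omega⟩ ?_ ?_
  · intro j m p q hr hx
    clear hr
    rcases or_l hx with hx | hx
    · obtain ⟨rfl, rfl, rfl, rfl⟩ := tg_iff hx
      rwa [show a0 + 4 = 6 * k + 2 by omega, show b0 + 6 = b - 2 by omega, show x0 + 10 = 2 * n - 9 by omega, show x0 + 5 = 2 * n - 14 by omega]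
    rcases or_l hx with hx | hx
    · obtain ⟨rfl, rfl, rfl, rfl⟩ := tg_iff hx
      rwa [show a0 + 4 = 6 * k + 2 by omega, show b0 + 4 = b - 4 by omega, show x0 + 8 = 2 * n - 11 by omega, show x0 + 3 = 2 * n - 16 by omega]
    rcases or_l hx with hx | hx
    · obtain ⟨rfl, rfl, rfl, rfl⟩ := tg_iff hx
      rwa [show a0 + 8 = 6 * k + 6 by omega, show b0 + 4 = b - 4 by omega, show x0 + 10 = 2 * n - 9 by omega, show x0 + 3 = 2 * n - 16 by omega]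
    exact g_on_s hf h D0 C2 C4 ha0 hb0 hx0 hx
  · intro j m p q hr hx
    clear hr
    exact g_zr_s hf h D0 C2 C4 ha0 hb0 hx0 hx

theorem n2_7_00 (hf : Rule f) {k b n M : ℕ} (h : PL f k b n M) (D0 : Cyc f (6 * k) (b - 6) (2 * n - 2 * k - 6))
    (C2 : Cyc f (6 * k + 2) (b - 4) (2 * (n - 5) + 2)) (C4 : Cyc f (6 * k + 4) (b - 6) (2 * (n - (k + 1)) + 2))
    (t_2_18_31_24 : f (6 * k + 2) (b - 2) (2 * n - 9) (2 * n - 16))
    (t_2_16_27_22 : f (6 * k + 2) (b - 4) (2 * n - 13) (2 * n - 18))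
    (t_6_16_29_22 : f (6 * k + 6) (b - 4) (2 * n - 11) (2 * n - 18)) : False := by
  have hk := h.T.hk
  have hb := h.T.hc
  have h4 := h.T.h4
  have hbig := h.T.hb
  have hn := h.T.hN2
  obtain ⟨a0, ha0⟩ : ∃ z, z + 2 = 6 * k := ⟨6 * k - 2, by omega⟩
  obtain ⟨b0, hb0⟩ : ∃ z, z + 8 = b := ⟨b - 8, by omega⟩
  obtain ⟨x0, hx0⟩ : ∃ z, z + 19 = 2 * n := ⟨2 * n - 19, by omega⟩
  refine check_sound hf (a0 := a0) (b0 := b0) (x0 := x0) (y0 := x0) n2_7_00_chk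
    ⟨fun _ => rfl, fun h => absurd h (by decide), fun h => absurd h (by decide), by omega, by omega,
      by omega, by omega⟩ ?_ ?_
  · intro j m p q hr hx
    clear hr
    rcases or_l hx with hx | hx
    · obtain ⟨rfl, rfl, rfl, rfl⟩ := tg_iff hx
      rwa [show a0 + 4 = 6 * k + 2 by omega, show b0 + 6 = b - 2 by omega, show x0 + 10 = 2 * n - 9 by omega, show x0 + 3 = 2 * n - 16 by omega]
    rcases or_l hx with hx | hx
    · obtain ⟨rfl, rfl, rfl, rfl⟩ := tg_iff hx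
      rwa [show a0 + 4 = 6 * k + 2 by omega, show b0 + 4 = b - 4 by omega, show x0 + 6 = 2 * n - 13 by omega, show x0 + 1 = 2 * n - 18 by omega]
    rcases or_l hx with hx | hx
    · obtain ⟨rfl, rfl, rfl, rfl⟩ := tg_iff hx
      rwa [show a0 + 8 = 6 * k + 6 by omega, show b0 + 4 = b - 4 by omega, show x0 + 8 = 2 * n - 11 by omega, show x0 + 1 = 2 * n - 18 by omega]
    exact g_on_s hf h D0 C2 C4 ha0 hb0 hx0 hx
  · intro j m p q hr hx
    clear hr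
    exact g_zr_s hf h D0 C2 C4 ha0 hb0 hx0 hx

theorem n2_7_01 (hf : Rule f) {k b n M : ℕ} (h : PL f k b n M) (D0 : Cyc f (6 * k) (b - 6) (2 * n - 2 * k - 6))
    (C2 : Cyc f (6 * k + 2) (b - 4) (2 * (n - 5) + 2)) (C4 : Cyc f (6 * k + 4) (b - 6) (2 * (n - (k + 1)) + 2))
    (t_2_18_31_24 : f (6 * k + 2) (b - 2) (2 * n - 9) (2 * n - 16))
    (t_2_16_27_22 : f (6 * k + 2) (b - 4) (2 * n - 13) (2 * n - 18))
    (t_6_16_31_24 : f (6 * k + 6) (b - 4) (2 * n - 9) (2 * n - 16)) : False := by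
  have hk := h.T.hk
  have hb := h.T.hc
  have h4 := h.T.h4
  have hbig := h.T.hb
  have hn := h.T.hN2
  obtain ⟨a0, ha0⟩ : ∃ z, z + 2 = 6 * k := ⟨6 * k - 2, by omega⟩
  obtain ⟨b0, hb0⟩ : ∃ z, z + 8 = b := ⟨b - 8, by omega⟩
  obtain ⟨x0, hx0⟩ : ∃ z, z + 19 = 2 * n := ⟨2 * n - 19, by omega⟩
  refine check_sound hf (a0 := a0) (b0 := b0) (x0 := x0) (y0 := x0) n2_7_01_chk
    ⟨fun _ => rfl, fun h => absurd h (by decide), fun h => absurd h (by decide), by omega, by omega,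
      by omega, by omega⟩ ?_ ?_
  · intro j m p q hr hx
    clear hr
    rcases or_l hx with hx | hx
    · obtain ⟨rfl, rfl, rfl, rfl⟩ := tg_iff hx
      rwa [show a0 + 4 = 6 * k + 2 by omega, show b0 + 6 = b - 2 by omega, show x0 + 10 = 2 * n - 9 by omega, show x0 + 3 = 2 * n - 16 by omega]
    rcases or_l hx with hx | hx
    · obtain ⟨rfl, rfl, rfl, rfl⟩ := tg_iff hx
      rwa [show a0 + 4 = 6 * k + 2 by omega, show b0 + 4 = b - 4 by omega, show x0 + 6 = 2 * n - 13 by omega, show x0 + 1 = 2 * n - 18 by omega]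
    rcases or_l hx with hx | hx
    · obtain ⟨rfl, rfl, rfl, rfl⟩ := tg_iff hx
      rwa [show a0 + 8 = 6 * k + 6 by omega, show b0 + 4 = b - 4 by omega, show x0 + 10 = 2 * n - 9 by omega, show x0 + 3 = 2 * n - 16 by omega]
    exact g_on_s hf h D0 C2 C4 ha0 hb0 hx0 hx
  · intro j m p q hr hx
    clear hr
    exact g_zr_s hf h D0 C2 C4 ha0 hb0 hx0 hx

theorem n2_7_10 (hf : Rule f) {k b n M : ℕ} (h : PL f k b n M) (D0 : Cyc f (6 * k) (b - 6) (2 * n - 2 * k - 6))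
    (C2 : Cyc f (6 * k + 2) (b - 4) (2 * (n - 5) + 2)) (C4 : Cyc f (6 * k + 4) (b - 6) (2 * (n - (k + 1)) + 2))
    (t_2_18_31_24 : f (6 * k + 2) (b - 2) (2 * n - 9) (2 * n - 16))
    (t_2_16_29_24 : f (6 * k + 2) (b - 4) (2 * n - 11) (2 * n - 16))
    (t_6_16_29_22 : f (6 * k + 6) (b - 4) (2 * n - 11) (2 * n - 18)) : False := by
  have hk := h.T.hk
  have hb := h.T.hc
  have h4 := h.T.h4
  have hbig := h.T.hb
  have hn := h.T.hN2
  obtain ⟨a0, ha0⟩ : ∃ z, z + 2 = 6 * k := ⟨6 * k - 2, by omega⟩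
  obtain ⟨b0, hb0⟩ : ∃ z, z + 8 = b := ⟨b - 8, by omega⟩
  obtain ⟨x0, hx0⟩ : ∃ z, z + 19 = 2 * n := ⟨2 * n - 19, by omega⟩
  refine check_sound hf (a0 := a0) (b0 := b0) (x0 := x0) (y0 := x0) n2_7_10_chk
    ⟨fun _ => rfl, fun h => absurd h (by decide), fun h => absurd h (by decide), by omega, by omega,
      by omega, by omega⟩ ?_ ?_
  · intro j m p q hr hx
    clear hr
    rcases or_l hx with hx | hx
    · obtain ⟨rfl, rfl, rfl, rfl⟩ := tg_iff hx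
      rwa [show a0 + 4 = 6 * k + 2 by omega, show b0 + 6 = b - 2 by omega, show x0 + 10 = 2 * n - 9 by omega, show x0 + 3 = 2 * n - 16 by omega]
    rcases or_l hx with hx | hx
    · obtain ⟨rfl, rfl, rfl, rfl⟩ := tg_iff hx
      rwa [show a0 + 4 = 6 * k + 2 by omega, show b0 + 4 = b - 4 by omega, show x0 + 8 = 2 * n - 11 by omega, show x0 + 3 = 2 * n - 16 by omega]
    rcases or_l hx with hx | hx
    · obtain ⟨rfl, rfl, rfl, rfl⟩ := tg_iff hx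
      rwa [show a0 + 8 = 6 * k + 6 by omega, show b0 + 4 = b - 4 by omega, show x0 + 8 = 2 * n - 11 by omega, show x0 + 1 = 2 * n - 18 by omega]
    exact g_on_s hf h D0 C2 C4 ha0 hb0 hx0 hx
  · intro j m p q hr hx
    clear hr
    exact g_zr_s hf h D0 C2 C4 ha0 hb0 hx0 hx

theorem n2_7_11 (hf : Rule f) {k b n M : ℕ} (h : PL f k b n M) (D0 : Cyc f (6 * k) (b - 6) (2 * n - 2 * k - 6))
    (C2 : Cyc f (6 * k + 2) (b - 4) (2 * (n - 5) + 2)) (C4 : Cyc f (6 * k + 4) (b - 6) (2 * (n - (k + 1)) + 2))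
    (t_2_18_31_24 : f (6 * k + 2) (b - 2) (2 * n - 9) (2 * n - 16))
    (t_2_16_29_24 : f (6 * k + 2) (b - 4) (2 * n - 11) (2 * n - 16))
    (t_6_16_31_24 : f (6 * k + 6) (b - 4) (2 * n - 9) (2 * n - 16)) : False := by
  have hk := h.T.hk
  have hb := h.T.hc
  have h4 := h.T.h4
  have hbig := h.T.hb
  have hn := h.T.hN2
  obtain ⟨a0, ha0⟩ : ∃ z, z + 2 = 6 * k := ⟨6 * k - 2, by omega⟩
  obtain ⟨b0, hb0⟩ : ∃ z, z + 8 = b := ⟨b - 8, by omega⟩
  obtain ⟨x0, hx0⟩ : ∃ z, z + 19 = 2 * n := ⟨2 * n - 19, by omega⟩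
  refine check_sound hf (a0 := a0) (b0 := b0) (x0 := x0) (y0 := x0) n2_7_11_chk
    ⟨fun _ => rfl, fun h => absurd h (by decide), fun h => absurd h (by decide), by omega, by omega,
      by omega, by omega⟩ ?_ ?_
  · intro j m p q hr hx
    clear hr
    rcases or_l hx with hx | hx
    · obtain ⟨rfl, rfl, rfl, rfl⟩ := tg_iff hx
      rwa [show a0 + 4 = 6 * k + 2 by omega, show b0 + 6 = b - 2 by omega, show x0 + 10 = 2 * n - 9 by omega, show x0 + 3 = 2 * n - 16 by omega]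
    rcases or_l hx with hx | hx
    · obtain ⟨rfl, rfl, rfl, rfl⟩ := tg_iff hx
      rwa [show a0 + 4 = 6 * k + 2 by omega, show b0 + 4 = b - 4 by omega, show x0 + 8 = 2 * n - 11 by omega, show x0 + 3 = 2 * n - 16 by omega]
    rcases or_l hx with hx | hx
    · obtain ⟨rfl, rfl, rfl, rfl⟩ := tg_iff hx
      rwa [show a0 + 8 = 6 * k + 6 by omega, show b0 + 4 = b - 4 by omega, show x0 + 10 = 2 * n - 9 by omega, show x0 + 3 = 2 * n - 16 by omega]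
    exact g_on_s hf h D0 C2 C4 ha0 hb0 hx0 hx
  · intro j m p q hr hx
    clear hr
    exact g_zr_s hf h D0 C2 C4 ha0 hb0 hx0 hx

/-- **`N2`**, at the distance `5`. -/
theorem n2_5 (hf : Rule f) {k c n M : ℕ} (H : PL f k c n M) (D0 : Cyc f (6 * k) (c - 6) (2 * n - 2 * k - 6))
    (C2 : Cyc f (6 * k + 2) (c - 4) (2 * (n - 5) + 2)) (C4 : Cyc f (6 * k + 4) (c - 6) (2 * (n - (k + 1)) + 2))
    (p2 : f (6 * k + 2) (c - 4) (2 * n - 13) (2 * n - 18) ∨ f (6 * k + 2) (c - 4) (2 * n - 11) (2 * n - 16))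
    (p6 : f (6 * k + 6) (c - 4) (2 * n - 11) (2 * n - 18) ∨ f (6 * k + 6) (c - 4) (2 * n - 9) (2 * n - 16)) :
    ¬ f (6 * k + 2) (c - 2) (2 * n - 9) (2 * n - 14) := by
  intro h
  rcases p2 with p | p <;> rcases p6 with q | q
  · exact n2_5_00 hf H D0 C2 C4 h p q
  · exact n2_5_01 hf H D0 C2 C4 h p q
  · exact n2_5_10 hf H D0 C2 C4 h p q
  · exact n2_5_11 hf H D0 C2 C4 h p q

/-- **`N2`**, at the distance `7`. -/
theorem n2_7 (hf : Rule f) {k c n M : ℕ} (H : PL f k c n M) (D0 : Cyc f (6 * k) (c - 6) (2 * n - 2 * k - 6))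
    (C2 : Cyc f (6 * k + 2) (c - 4) (2 * (n - 5) + 2)) (C4 : Cyc f (6 * k + 4) (c - 6) (2 * (n - (k + 1)) + 2))
    (p2 : f (6 * k + 2) (c - 4) (2 * n - 13) (2 * n - 18) ∨ f (6 * k + 2) (c - 4) (2 * n - 11) (2 * n - 16))
    (p6 : f (6 * k + 6) (c - 4) (2 * n - 11) (2 * n - 18) ∨ f (6 * k + 6) (c - 4) (2 * n - 9) (2 * n - 16)) :
    ¬ f (6 * k + 2) (c - 2) (2 * n - 9) (2 * n - 16) := by
  intro h
  rcases p2 with p | p <;> rcases p6 with q | q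
  · exact n2_7_00 hf H D0 C2 C4 h p q
  · exact n2_7_01 hf H D0 C2 C4 h p q
  · exact n2_7_10 hf H D0 C2 C4 h p q
  · exact n2_7_11 hf H D0 C2 C4 h p q

end Pool.Agent.SNT.L0N2
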