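import Pool.Agent.SNT.L0W2a
import Pool.Agent.SNT.L0W2b
import Pool.Agent.SNT.L0W2c

set_option autoImplicit false

namespace Pool.Agent.SNT.L0W2

open Pool.Agent.SNT Pool.Agent.SNT.Sig Pool.Agent.SNT.Loc Pool.Agent.SNT.LW Pool.Agent.SNT.NHZ Pool.Agent.SNT.DRun
open Pool.Agent.SNT.PB Pool.Agent.SNT.D1E

variable {f : ℕ → ℕ → ℕ → ℕ → Prop}

/-- the hypothesis `z1` of `w2a`, `w2b` from the window of the cycle before -/
theorem z1_of (hf : Rule f) {k c n n' : ℕ} (T1 : NHT f k (c - 4) (2 * n')) (hc : 4 ≤ c) (hn : n = n' + (k + 2)) :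
    ¬ f (6 * k + 1) (c - 2) (2 * n - 6) (2 * n - 2 * k) := by
  have hk := T1.hk
  have hN := T1.hN2
  exact NHT.p2 hf T1 (L := 6 * k + 1) (j := 4) (by omega) (by omega) (Or.inr (by omega)) (by omega) (by omega) (by omega)

end Pool.Agent.SNT.L0W2

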