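import Pool.Agent.SNT.PL

set_option autoImplicit false
set_option synthInstance.maxSize 100000
set_option synthInstance.maxHeartbeats 4000000

/-! The E-cell of the road L0 at `X' = 4`: the wall window of the next cycle. -/

namespace Pool.Agent.SNT.L0X

open Pool.Agent.SNT Pool.Agent.SNT.Loc Pool.Agent.SNT.LW Pool.Agent.SNT.NHZ Pool.Agent.SNT.D1E Pool.Agent.SNT.K0L2c

variable {f : ℕ → ℕ → ℕ → ℕ → Prop}

theorem w4_chk : check 12 8 17 20 0 0 0 1 0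
    (fun j n p q => decide ((j = 2 ∧ n = 4 ∧ 11 ≤ p ∧ q ≤ p + 16 ∧ (((p + q + 1) % 2 = 1 ∧ p + 2 ≤ q ∧ p % 2 = 1) ∨ ((p + q + 1) % 2 = 1 ∧ q ≤ p + 2 ∧ (p + q) % 4 = 0)))
      ∨ (j = 2 ∧ n = 1 ∧ q ≤ p + 16 ∧ ((p + q + 1) % 2 = 0 ∧ q ≤ p + 1 ∧ (p + q + 1) % 4 = 0))
      ∨ (j = 2 ∧ n = 2 ∧ ((7 ≤ p) ∨ (q ≤ p + 1) ∨ (p + 2 ≤ q ∧ 9 ≤ q)) ∧ q ≤ p + 16 ∧ (((p + q + 1) % 2 = 1 ∧ p + 2 ≤ q ∧ p % 2 = 0) ∨ ((p + q + 1) % 2 = 1 ∧ q ≤ p + 2 ∧ (p + q + 2) % 4 = 0)))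
      ∨ (j = 4 ∧ n = 2 ∧ 3 ≤ p ∧ q ≤ p + 16 ∧ (((p + q + 1) % 2 = 1 ∧ p + 2 ≤ q ∧ p % 2 = 1) ∨ ((p + q + 1) % 2 = 1 ∧ q ≤ p + 2 ∧ (p + q) % 4 = 0)))
      ∨ (j = 4 ∧ n = 3 ∧ ((5 ≤ p) ∨ (p + 1 ≤ q ∧ 4 ≤ p)) ∧ q ≤ p + 16 ∧ ((p + q + 1) % 2 = 0 ∧ q ≤ p + 1 ∧ (p + q + 1) % 4 = 0))
      ∨ (j = 4 ∧ n = 4 ∧ q ≤ p + 1 ∧ 7 ≤ p ∧ q ≤ p + 16 ∧ (((p + q + 1) % 2 = 1 ∧ p + 2 ≤ q ∧ p % 2 = 0) ∨ ((p + q + 1) % 2 = 1 ∧ q ≤ p + 2 ∧ (p + q + 2) % 4 = 0)))
      ∨ (j = 6 ∧ n = 1 ∧ q ≤ p + 16 ∧ ((p + q + 1) % 2 = 0 ∧ q ≤ p + 1 ∧ (p + q + 1) % 4 = 0))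
      ∨ (j = 6 ∧ n = 2 ∧ ((9 ≤ p) ∨ (q ≤ p + 1) ∨ (p + 2 ≤ q ∧ 11 ≤ q)) ∧ q ≤ p + 16 ∧ (((p + q + 1) % 2 = 1 ∧ p + 2 ≤ q ∧ p % 2 = 0) ∨ ((p + q + 1) % 2 = 1 ∧ q ≤ p + 2 ∧ (p + q + 2) % 4 = 0)))
      ∨ (j = 6 ∧ n = 3 ∧ ((11 ≤ p) ∨ (p + 2 ≤ q ∧ 13 ≤ q)) ∧ q ≤ p + 16 ∧ ((p + q + 1) % 2 = 0 ∧ q ≤ p + 1 ∧ (p + q + 3) % 4 = 0))
      ∨ (j = 6 ∧ n = 4 ∧ 13 ≤ p ∧ q ≤ p + 16 ∧ (((p + q + 1) % 2 = 1 ∧ p + 2 ≤ q ∧ p % 2 = 1) ∨ ((p + q + 1) % 2 = 1 ∧ q ≤ p + 2 ∧ (p + q) % 4 = 0)))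
      ∨ (j = 6 ∧ n = 5 ∧ ((15 ≤ p) ∨ (p + 1 ≤ q ∧ 14 ≤ p)) ∧ q ≤ p + 16 ∧ ((p + q + 1) % 2 = 0 ∧ q ≤ p + 1 ∧ (p + q + 1) % 4 = 0))
      ∨ (j = 8 ∧ n = 2 ∧ q ≤ p + 16 ∧ (((p + q + 1) % 2 = 1 ∧ p ≤ q + 0 ∧ p % 2 = 1) ∨ ((p + q + 1) % 2 = 1 ∧ q ≤ p + 0 ∧ (p + q) % 4 = 2)))
      ∨ (j = 8 ∧ n = 3 ∧ ((3 ≤ p) ∨ (p ≤ q + 1 ∧ 2 ≤ p)) ∧ q ≤ p + 16 ∧ ((p + q + 1) % 2 = 0 ∧ q + 1 ≤ p ∧ (p + q + 1) % 4 = 2))
      ∨ (j = 10 ∧ n = 2 ∧ ((p ≤ q + 0 ∧ 3 ≤ q) ∨ (q + 1 ≤ p)) ∧ q ≤ p + 16 ∧ (((p + q + 1) % 2 = 1 ∧ p ≤ q + 0 ∧ p % 2 = 0) ∨ ((p + q + 1) % 2 = 1 ∧ q ≤ p + 0 ∧ (p + q + 2) % 4 = 2)))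
      ∨ (j = 10 ∧ n = 3 ∧ ((p ≤ q + 0 ∧ 5 ≤ q) ∨ (6 ≤ p)) ∧ q ≤ p + 16 ∧ ((p + q + 1) % 2 = 0 ∧ q + 1 ≤ p ∧ (p + q + 3) % 4 = 2))
      ∨ (j = 10 ∧ n = 4 ∧ ((5 ≤ p ∧ p + 2 ≤ q) ∨ (7 ≤ p)) ∧ q ≤ p + 16 ∧ (((p + q + 1) % 2 = 1 ∧ p ≤ q + 0 ∧ p % 2 = 1) ∨ ((p + q + 1) % 2 = 1 ∧ q ≤ p + 0 ∧ (p + q) % 4 = 2)))
      ∨ (j = 10 ∧ n = 5 ∧ ((6 ≤ p ∧ p + 2 ≤ q) ∨ (9 ≤ p)) ∧ q ≤ p + 16 ∧ ((p + q + 1) % 2 = 0 ∧ q + 1 ≤ p ∧ (p + q + 1) % 4 = 2))
      ∨ (j = 12 ∧ n = 4 ∧ ((p ≤ q + 0 ∧ 9 ≤ q) ∨ (q + 1 ≤ p)) ∧ q ≤ p + 16 ∧ (((p + q + 1) % 2 = 1 ∧ p ≤ q + 0 ∧ p % 2 = 0) ∨ ((p + q + 1) % 2 = 1 ∧ q ≤ p + 0 ∧ (p + q + 2) % 4 = 2)))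
      ∨ (j = 12 ∧ n = 6 ∧ ((11 ≤ p ∧ p + 2 ≤ q) ∨ (13 ≤ p)) ∧ q ≤ p + 16 ∧ (((p + q + 1) % 2 = 1 ∧ p ≤ q + 0 ∧ p % 2 = 1) ∨ ((p + q + 1) % 2 = 1 ∧ q ≤ p + 0 ∧ (p + q) % 4 = 2)))
      ∨ (j = 4 ∧ n = 4 ∧ p = 6 ∧ q = 12)))
    (fun j n p q => decide ((j = 2 ∧ n = 4 ∧ 11 ≤ p ∧ q ≤ p + 16 ∧ ¬ (((p + q + 1) % 2 = 1 ∧ p + 2 ≤ q ∧ p % 2 = 1) ∨ ((p + q + 1) % 2 = 1 ∧ q ≤ p + 2 ∧ (p + q) % 4 = 0)))
      ∨ (j = 2 ∧ n = 1 ∧ q ≤ p + 16 ∧ ¬ ((p + q + 1) % 2 = 0 ∧ q ≤ p + 1 ∧ (p + q + 1) % 4 = 0))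
      ∨ (j = 2 ∧ n = 2 ∧ ((7 ≤ p) ∨ (q ≤ p + 1) ∨ (p + 2 ≤ q ∧ 9 ≤ q)) ∧ q ≤ p + 16 ∧ ¬ (((p + q + 1) % 2 = 1 ∧ p + 2 ≤ q ∧ p % 2 = 0) ∨ ((p + q + 1) % 2 = 1 ∧ q ≤ p + 2 ∧ (p + q + 2) % 4 = 0)))
      ∨ (j = 4 ∧ n = 2 ∧ 3 ≤ p ∧ q ≤ p + 16 ∧ ¬ (((p + q + 1) % 2 = 1 ∧ p + 2 ≤ q ∧ p % 2 = 1) ∨ ((p + q + 1) % 2 = 1 ∧ q ≤ p + 2 ∧ (p + q) % 4 = 0)))
      ∨ (j = 4 ∧ n = 3 ∧ ((5 ≤ p) ∨ (p + 1 ≤ q ∧ 4 ≤ p)) ∧ q ≤ p + 16 ∧ ¬ ((p + q + 1) % 2 = 0 ∧ q ≤ p + 1 ∧ (p + q + 1) % 4 = 0))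
      ∨ (j = 4 ∧ n = 4 ∧ q ≤ p + 1 ∧ 7 ≤ p ∧ q ≤ p + 16 ∧ ¬ (((p + q + 1) % 2 = 1 ∧ p + 2 ≤ q ∧ p % 2 = 0) ∨ ((p + q + 1) % 2 = 1 ∧ q ≤ p + 2 ∧ (p + q + 2) % 4 = 0)))
      ∨ (j = 6 ∧ n = 1 ∧ q ≤ p + 16 ∧ ¬ ((p + q + 1) % 2 = 0 ∧ q ≤ p + 1 ∧ (p + q + 1) % 4 = 0))
      ∨ (j = 6 ∧ n = 2 ∧ ((9 ≤ p) ∨ (q ≤ p + 1) ∨ (p + 2 ≤ q ∧ 11 ≤ q)) ∧ q ≤ p + 16 ∧ ¬ (((p + q + 1) % 2 = 1 ∧ p + 2 ≤ q ∧ p % 2 = 0) ∨ ((p + q + 1) % 2 = 1 ∧ q ≤ p + 2 ∧ (p + q + 2) % 4 = 0)))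
      ∨ (j = 6 ∧ n = 3 ∧ ((11 ≤ p) ∨ (p + 2 ≤ q ∧ 13 ≤ q)) ∧ q ≤ p + 16 ∧ ¬ ((p + q + 1) % 2 = 0 ∧ q ≤ p + 1 ∧ (p + q + 3) % 4 = 0))
      ∨ (j = 6 ∧ n = 4 ∧ 13 ≤ p ∧ q ≤ p + 16 ∧ ¬ (((p + q + 1) % 2 = 1 ∧ p + 2 ≤ q ∧ p % 2 = 1) ∨ ((p + q + 1) % 2 = 1 ∧ q ≤ p + 2 ∧ (p + q) % 4 = 0)))
      ∨ (j = 6 ∧ n = 5 ∧ ((15 ≤ p) ∨ (p + 1 ≤ q ∧ 14 ≤ p)) ∧ q ≤ p + 16 ∧ ¬ ((p + q + 1) % 2 = 0 ∧ q ≤ p + 1 ∧ (p + q + 1) % 4 = 0))
      ∨ (j = 8 ∧ n = 2 ∧ q ≤ p + 16 ∧ ¬ (((p + q + 1) % 2 = 1 ∧ p ≤ q + 0 ∧ p % 2 = 1) ∨ ((p + q + 1) % 2 = 1 ∧ q ≤ p + 0 ∧ (p + q) % 4 = 2)))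
      ∨ (j = 8 ∧ n = 3 ∧ ((3 ≤ p) ∨ (p ≤ q + 1 ∧ 2 ≤ p)) ∧ q ≤ p + 16 ∧ ¬ ((p + q + 1) % 2 = 0 ∧ q + 1 ≤ p ∧ (p + q + 1) % 4 = 2))
      ∨ (j = 10 ∧ n = 2 ∧ ((p ≤ q + 0 ∧ 3 ≤ q) ∨ (q + 1 ≤ p)) ∧ q ≤ p + 16 ∧ ¬ (((p + q + 1) % 2 = 1 ∧ p ≤ q + 0 ∧ p % 2 = 0) ∨ ((p + q + 1) % 2 = 1 ∧ q ≤ p + 0 ∧ (p + q + 2) % 4 = 2)))
      ∨ (j = 10 ∧ n = 3 ∧ ((p ≤ q + 0 ∧ 5 ≤ q) ∨ (6 ≤ p)) ∧ q ≤ p + 16 ∧ ¬ ((p + q + 1) % 2 = 0 ∧ q + 1 ≤ p ∧ (p + q + 3) % 4 = 2))
      ∨ (j = 10 ∧ n = 4 ∧ ((5 ≤ p ∧ p + 2 ≤ q) ∨ (7 ≤ p)) ∧ q ≤ p + 16 ∧ ¬ (((p + q + 1) % 2 = 1 ∧ p ≤ q + 0 ∧ p % 2 = 1) ∨ ((p + q + 1) % 2 = 1 ∧ q ≤ p + 0 ∧ (p + q) % 4 = 2)))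
      ∨ (j = 10 ∧ n = 5 ∧ ((6 ≤ p ∧ p + 2 ≤ q) ∨ (9 ≤ p)) ∧ q ≤ p + 16 ∧ ¬ ((p + q + 1) % 2 = 0 ∧ q + 1 ≤ p ∧ (p + q + 1) % 4 = 2))
      ∨ (j = 12 ∧ n = 4 ∧ ((p ≤ q + 0 ∧ 9 ≤ q) ∨ (q + 1 ≤ p)) ∧ q ≤ p + 16 ∧ ¬ (((p + q + 1) % 2 = 1 ∧ p ≤ q + 0 ∧ p % 2 = 0) ∨ ((p + q + 1) % 2 = 1 ∧ q ≤ p + 0 ∧ (p + q + 2) % 4 = 2)))
      ∨ (j = 12 ∧ n = 6 ∧ ((11 ≤ p ∧ p + 2 ≤ q) ∨ (13 ≤ p)) ∧ q ≤ p + 16 ∧ ¬ (((p + q + 1) % 2 = 1 ∧ p ≤ q + 0 ∧ p % 2 = 1) ∨ ((p + q + 1) % 2 = 1 ∧ q ≤ p + 0 ∧ (p + q) % 4 = 2)))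
      ∨ (j = 1 ∧ q ≤ p + 16)
      ∨ (j = 3 ∧ n = 1 ∧ p + 5 ≤ q ∧ q ≤ p + 14)
      ∨ (j = 4 ∧ n = 1 ∧ p + 4 ≤ q ∧ q ≤ p + 15)
      ∨ (j = 5 ∧ n = 1 ∧ p + 4 ≤ q ∧ q ≤ p + 15)
      ∨ (j = 7 ∧ n = 1 ∧ p + 1 ≤ q ∧ q ≤ p + 16)
      ∨ (j = 5 ∧ n = 2 ∧ p + 4 ≤ q ∧ q ≤ p + 15)
      ∨ (j = 7 ∧ n = 2 ∧ p + 1 ≤ q ∧ q ≤ p + 16)
      ∨ (j = 2 ∧ n = 3 ∧ p + 6 ≤ q ∧ q ≤ p + 13)
      ∨ (j = 4 ∧ n = 3 ∧ p + 5 ≤ q ∧ q ≤ p + 14)
      ∨ (j = 5 ∧ n = 3 ∧ p + 5 ≤ q ∧ q ≤ p + 14)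
      ∨ (j = 6 ∧ n = 3 ∧ p + 4 ≤ q ∧ q ≤ p + 15)
      ∨ (j = 7 ∧ n = 3 ∧ p + 4 ≤ q ∧ q ≤ p + 15)
      ∨ (j = 7 ∧ n = 3 ∧ 6 ≤ p ∧ p + 2 ≤ q ∧ q ≤ p + 15)
      ∨ (j = 3 ∧ n = 4 ∧ 4 ≤ p ∧ p + 6 ≤ q ∧ q ≤ p + 13)
      ∨ (j = 5 ∧ n = 4 ∧ 4 ≤ p ∧ p + 5 ≤ q ∧ q ≤ p + 14)
      ∨ (j = 7 ∧ n = 4 ∧ 4 ≤ p ∧ p + 4 ≤ q ∧ q ≤ p + 15)
      ∨ (j = 7 ∧ n = 4 ∧ 6 ≤ p ∧ p + 2 ≤ q ∧ q ≤ p + 15)
      ∨ (j = 9 ∧ n = 4 ∧ 4 ≤ p ∧ p + 3 ≤ q ∧ q ≤ p + 16)
      ∨ (j = 9 ∧ n = 4 ∧ 6 ≤ p ∧ p + 1 ≤ q ∧ q ≤ p + 16)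
      ∨ (j = 2 ∧ n = 5 ∧ 5 ≤ p ∧ p + 7 ≤ q ∧ q ≤ p + 12)
      ∨ (j = 7 ∧ n = 5 ∧ 12 ≤ p ∧ p + 3 ≤ q ∧ q ≤ p + 14)
      ∨ (j = 8 ∧ n = 5 ∧ 7 ≤ p ∧ p + 2 ≤ q ∧ q ≤ p + 15)
      ∨ (j = 9 ∧ n = 5 ∧ 7 ≤ p ∧ p + 2 ≤ q ∧ q ≤ p + 15)
      ∨ (j = 7 ∧ n = 6 ∧ 12 ≤ p ∧ p + 3 ≤ q ∧ q ≤ p + 14)
      ∨ (j = 9 ∧ n = 6 ∧ 10 ≤ p ∧ p + 4 ≤ q ∧ q ≤ p + 15)
      ∨ (j = 9 ∧ n = 6 ∧ 12 ≤ p ∧ p + 2 ≤ q ∧ q ≤ p + 15)
      ∨ (j = 11 ∧ n = 6 ∧ 10 ≤ p ∧ p + 3 ≤ q ∧ q ≤ p + 16)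
      ∨ (j = 11 ∧ n = 6 ∧ 12 ≤ p ∧ p + 1 ≤ q ∧ q ≤ p + 16)
      ∨ (j = 2 ∧ n = 2 ∧ p = 2 ∧ q = 8)
      ∨ (j = 2 ∧ n = 6 ∧ p = 2 ∧ q = 10)
      ∨ (j = 2 ∧ n = 6 ∧ p = 11 ∧ q = 17)))
    1566
    0x22478322f2002842ca1d8e001d8e8a1d990312ee8012ee810f11830f10800efd000f10810efd010efc000ee8800efc011442d20ee7800ee78127f1831d47801d46801d51921d511a22ab8028065a27f1831d47801d46801d51921d511a22ab0027fbca22ac0022ac0427f1831d47001d47041d510322a10022a104329c0327f18027f18427fb031d50801d508432a60327fb8027fb8412a68012b0920d55800d601a0e0a800ebf3a0ec9000ed3120edd000edd04146c830f11800f1184146c830f11800f11811457000f108019a7420f10810efc000efc011442801442840d6a8012c4d20d69800d7f000d69810d89120cbe800d7e000cc8920d7e010d7d000d87120e3b800e45920efa000efa8a0efb000efb8a1f01031456801456810efb800efb841f01031456801456810efb800efb810efa800efa810e45800e45810e3c000e3c8a0e3d000e3d040e3d030ef1000ef10432a58327fb0027fb04329b0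327f08027f0840d7e030e32000e32040c0b001165520c1f000cd3ba0d9c000cdd800d9c010d923a1f01031456801456810efb800efb810e3d000e50800e3d010e50810d92000d9204181e8312c38012c3810d5f000d5f0429ab831f01001f010429a1031ef6801ef684185d031e57801f0bb219a70019a7042d4b852d410032a5d2329b5227fa8027fa84245b0524508029abca29a14a1ef7001ef70432918327e70027e7040d7e830e32800e328434558329ab0029ab0432920327e78027e78434558329ab0029ab8a24470029a1521f00801f0084146c830f11800f11810f10800f10810efb800efc0a0efc800efc8419c6801f20d21f15831f16001f160412d8830d74000d740432a70327fc802806921d5c001d5c0117f78017f7843441032996802996843d46833292003292040d7e8312ce8012ce8434410328ec8028ec8419258319d00019d00422fc8323a68023a68422f303239d00239d043eff03345500345504284d0329010029010432a60327fb8028061a1d51801d518429b6031f0b801f0b84344b0329a08029a0843441832997002997041dcc0319268019268428578328f78028f78422478322f20022f2041d6f8312c48012c4843d4603329180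32918418338312d88012d8840d600312b00012b0040cc8830d73000d730432a60327fb8028061a1d5b801d5b843d45033290803290840f12831462801462840d61030e0b000e0b043d4603329180329b9227f10027f1043d4703329c80329c841dcc031e76801e7684185d031907001907043d4583329b00329b040efc83144c80144c840f12831462001462041853031e4d001e4d0428580323b20023b20418338312d88012d8810d7f000d74000d89120d7e9a0e32800e3d1a0e47000e4704284d0323b10023b1040d9c030e46800e46840d6a8312ba8012ba84344b8329a10029a1043eeb0334408034408429cb031f20801f20843d31833287003287043d4503329a80329a84116503120f00120f041872031e6c001e6c040cdd8312d80012d8043d4603329b80329b84116503120f80120f843d4703329c8032a69227fc0027fc04187203191c00191c0418670319118019118433010333ab0033ab040d94800d94840d610312b180180bd212b08012b0841925831f20001f2004281a8322b60022b6043d4683329c00329c0429b6031e61801e61841d990312ee8012ee810e3e800e3e840d89030e33000e33040d89030e29000e29043d4783329d00329d041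91b831e6b801e6b8428578323a78023a784146a83146b0019c5da19c60019c6040ee88314388014388428578323b18023b1841d990318f30018f3041d7983181e80181e8422fc8328f68028f684185d031e57001e5704116f0312198012198434418328ed0028ed042f06852efc003460d234565229b58029b5840d698312b98012b9843eeb833441003441040f0603145600145604185d031907801907840e45830ef0000ef004284d0328f70028f7041853031da3001da3040e3d030ee7000ee7043ee103343680343684116f030cc9800cc98432f60333a08033a08432f6032e50802e50843d32033287803287840d6a830e14800e148428578322f30022f3041925831926001926043d45833291003291040efc03144c00144c043d328332880032880429c1031e6c801e6c8429c1031f16801f168418530318fd0018fd041910801910811852000da9001852010db3120da8000da8010d938012edd2183e00183e040d7e0312ce0012ce043ef503344a80344a840cdd830d88000d88040cc88312c30012c3040e45830e46000e460422478322f2002842ca22de00282eca22ca0022ca041910831911001911040efd03144d00144d040cc8830cc9000cc90411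65030cbf800cbf84187203191c80191c843301032e5b002e5b040d7e830e28800e28840d610312b10012b1041165030cbf000cbf040db303130300130304284283239c80239c840db4030e5e000e5e04344c0329a18029a184284d0323a70023a7040e65800e65810da7000da7010da5800ce8800d908012f5c20ce88112e0c20d1c800cfc00163e800cf0800ce7000c2a000cdb800cd2001816000e7b000d0780126cc2124c4216f33a1240c21237420c2a01122bc21222420c02000c160044598044308042980042970042960042950042830042820042810038fa00385080383d80383c8038288038018038008037ff8036a30036a20036a10036a000368f00368e00368d00368c002d06002cf1002c5c802c48802c47802bf8802bf7802bf6802be3802be28023d000232680231280231180225c80219e00219280218a001d7052187080185b80185000183b00182a0017c70017b20017a680179d00179b00179180178800178600177c80177300171d8017088016fd0016f48016f38016df8016ca8016c98016b58016b4800ddb000dd1800e7b010dc6000dbe800dbd800dbc800dba800c74000c73000c67800c5f000c5e000d07810c52800c4b000c4a000c4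9000c47000c3d800c3b800c36000c35000c32000c28800c26800c21000c1d000c13800c0d000bbe000ba9000b9d800b94000b92000b88800b7f000b7d000b73800b6a000cb6ba0c168a44598f44308f42980f42970f42960f42950f42830f42820f42810f3ef5073eeb873eeb073eea873ee1873ee1073ed7073ed68739ae87399b87399a8739868739050739048738fb0738fa8738fa0f38f18738f10738f08738e78738e70738e68738dd0738dc8738508f383d8f383c8f38288f38018f38008f37ff8f37f78737f68737f58737f48737e28737e187374d87374d07374c87374c07374b87374b07374a87374387374307374287374207374187374107374087373887373807373787373707372e87372e07372d87372d0736a30f36a20f36a10f36a00f368f0f368e0f368d0f368c0f346087346007345687345607345587344c07344b87344b0734420734418734378734370733b68733b60733ac8733ac0733ab8733a20733a18733a107339807339787339707339687338d87338d07338c8733010732f70732f68732ec0732a70732a68732a60732a58732a5072f10872efb872efa872ee7872ee6872e66872e66072e5c872e5c072e5b872e52072e51872e51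072e48072e47872e47072e46872e3d872e3d072e3c872da6872da5872d56872d55872d41872d40872d07072d06872d060f2cfd072cfc872cfc072cfb872cf2072cf1872cf10f2cad072cac872cac072cab872cab072ca3072ca2872ca2072ca1872ca1072ca0872c98072c97872c97072c96872c5c8f2c488f2c478f2bf88f2bf78f2bf68f2be38f2be28f29cb0729c10729c08729b70729b68729b60729ac0729ab87292107291707291687290d07290c87290c07290207290187285807285787285707284e07284d87284d07284c87284307284287284207283887283807282e87282e07282487282407281a87281a0728108728100728068728060728058727ae0727ad8727ad0727a40727a38727a30727a287279907279887279807278e87278e07278487278407277a87277a07277087277007276687276607275c87275c07275b87275287275207275187275107275087274787274707274687273d87273d07247087245b8724468723d10723d08723d00f23c70723c68723268f23128f23118f23078722f28722de8722ca8722b68722b58722a18722a087225e07225d87225d07225c8f225407225387225307225287225207224907224887223f07223e8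7223487223407222a87222a07222087222007221687221607220c87220c07220b8722028722020722018722010722008721f78721f70721f68721ed8721ed07219e0f219d87219d0721938721930721928f218a0f1d99071d8f071d8e871d84871d84071d79871d70071d6f871d6f071d66071d65871d65071cef071ce5071ce4871cda871cda071ccf871cc6071cc5871cc5071cbc071cbb871cbb071cb2071cb1871ca8071ca7871ca7071ca6871c9d871c9d071c9c8719d08719bb8719a687187b87187b0718710718708f186787186687186607185c07185b8f18528718518718500f183e87183b0f182a0f18298718158718148718018718008717d20717d18717c80717c78717c70f17be0717bd8717bd0717bc8717b30717b28717b20f17a90717a88717a80717a78717a68f179f07179e87179e07179d87179d0f179b0f17950717948717940717918f178a87178a0717898717890717880f17860f177f87177f07177c8f17760717758717750717748717740717730f176c07176b87176b07176a87176a07176207176187176107175807175787175707175687174d87174d07174c87171d8f17088f16fd0f16f48f16f38f16f30716f28716e90716e887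16df8f16ca8f16c98f16b58f16b48f12e4870f1c870f1a870f12870f08870f07870f06870f05870ef2870ef1870ef0870ede870edd870ec8870eb5070eb4870e5e870e34870ddb0f0dd18f0dd1070dd0870dc7070dc6870dc60f0dbe8f0dbd8f0dbc8f0dbb870dbb070dba8f0db3870db2870db1870d9e870d9d870d9c870d9b870d88870d87870d86870d74870d73870d60870d5f870d0a070d00070cff870cea870cc0870cb7070cb6870cb6070cad070cac870cac070cab870c740f0c730f0c72870c72070c68870c68070c678f0c5f0f0c5e0f0c5d870c5d070c53870c53070c528f0c52070c51870c4b0f0c4a0f0c490f0c48070c47870c470f0c46870c46070c3e870c3e070c3d8f0c3d070c3c870c3c070c3b8f0c360f0c350f0c34870c33870c33070c32870c320f0c31870c31070c29070c288f0c28070c27870c27070c268f0c210f0c1f870c1e870c1e070c1d870c1d0f0c16870c14070c138f0c0d0f0c0c870c0c070c0a870c02870bbe0f0ba90f0b9d8f0b940f0b920f0b888f0b80070b7f870b7f0f0b7d0f0b76070b75870b75070b74870b738f0b6c870b6c070b6b070b6a870b6a0f0b62870b62070b61070b608709c28709c20709c18709c1070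9c08709c00709b88709b80709b78709b70709b68709b60709b58709ad0709ac8709ac0709ab8709ab0709aa8709aa0709a30709a28709a20709a18709a10709a08709a007099887099807099787099707098e87098e07098d87098d07098307098287097907097887096f07096e87096507096487092b07092a87092107092087091887091807091787091707091687091607091587091507090e87090e07090d87090d07090c87090c07090b87090b0709030709028709020709018709010709008709000708f90708f88708f80708f78708f70708f68708f60708f58708f50708ee8708ee0708ed8708ed0708ec8708ec0708eb8708eb0708e48708e40708e38708e30708e28708e20708d90708d88708cf0708ce8708c50708c48708bb0708ba87088107088087087707087687086b87086b07086407086387086307086287086187086107085a07085987085907085887085807085787085707085687085607084e07084d87084d07084c87084c07084b87084b07084307084287084207084187084107083907083887083807083787083707083687082f07082e87082e07082d87082d07082c87082487082407082387081a87081a0708198708190708110708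1087081007080f87080f0708070708068708060708058707ba0707b98707b90707b88707b78707b70707b00707af8707af0707ae8707ae0707ad8707ad0707ac8707a40707a38707a30707a28707a20707a187079887079807079787078f07078e87078e07078d87078d07078c87078507078487078407078387078307078287077a87077a07077987077907077887077807077087077007076f87076f07076e87076e07076707076687076607076587076507075d07075c87075c07075b87070d87070d0707038707030706ee8706ee0706e48706e40706e38706e30706da0706d98706d90706d00706cf8706cf0706ce8706ce0706c68706c60706c48706c40706bc8706bc0706b28706b207063007062f87062607062587061c87061c07061287061207 = true := by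
  decide +kernel

theorem w4_aux (hf : Rule f) {k c n X : ℕ} (H : PL f k c n (n - 4)) (hX : 2 * n ≤ X) (hX1 : X ≤ 2 * n) (hX2 : X % 2 = 0)
    (D0 : Cyc f (6 * k) (c - 2) (X + 2)) (D0a : Cyc f (6 * k) (c - 6) (X - 2 - 2 * k))
    (C4a : Cyc f (6 * k + 4) (c - 6) (2 * (n - (k + 1)) + 2))
    (p0 : ∀ {L R x y : ℕ}, L = 6 * k + 2 → R + 2 = c → x + 2 = X → y + 2 * k = X + 3 → f L R x y)
    (z0 : ∀ {L R x y : ℕ}, L = 6 * k → R + 4 = c → x + 6 = X → y + 2 * k + 1 = X → ¬ f L R x y)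
    (z1 : ∀ {L R x y : ℕ}, L = 6 * k → R = c → x + 6 = X → y + 2 * k = X + 1 → ¬ f L R x y)
    (z2 : ∀ {L R x y : ℕ}, L = 6 * k → R = c → x = X + 3 → y + 2 * k = X + 8 → ¬ f L R x y) : False := by
  have hk := H.T.hk
  have hc := H.T.hc
  have h4 := H.T.h4
  have hb := H.T.hb
  have hN := H.T.hN2
  have hM := H.hM
  have hM' := H.hM'
  have T := H.T
  have U := H.U
  have C2 := H.c2
  have C4 := H.c4
  have C6a := H.c6a
  have C6 := H.c6
  have C8a := H.c8a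
  have C8 := H.c8
  have C10a := H.c10a
  have C10 := H.c10
  have hL : ∀ {M' R x y : ℕ}, M' + 1 = 6 * k → c ≤ R + 12 → R ≤ c + 12 → 2 * n ≤ x + 20 → y ≤ x → x ≤ y + 4 * k →
      ¬ f M' R x y := fun {a b c d} => H.lw a b c d
  obtain ⟨a0, ha0⟩ : ∃ z, z + 2 = 6 * k := ⟨6 * k - 2, by omega⟩
  obtain ⟨b0, hb0⟩ : ∃ z, z + 6 = c := ⟨c - 6, by omega⟩
  obtain ⟨x0, hx0⟩ : ∃ z, z + 8 = X := ⟨X - 8, by omega⟩
  obtain ⟨y0, hy0⟩ : ∃ z, z + 2 * k + 20 = X + 11 := ⟨X + 11 - 2 * k - 20, by omega⟩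
  refine check_sound hf (a0 := a0) (b0 := b0) (x0 := x0) (y0 := y0) w4_chk
    ⟨fun h => absurd h (by decide), fun h => absurd h (by decide), fun h => absurd h (by decide), by omega, by omega,
      by omega, by omega⟩ ?_ ?_
  · intro j m p q hr h
    obtain ⟨-, -, hm1, hm2, hp1, hp2, hq1, hq2⟩ := hr
    replace h := of_decide_eq_true h
    rcases h with h | h | h | h | h | h | h | h | h | h | h | h | h | h | h | h | h | h | h | h
    · obtain ⟨rfl, rfl, h⟩ := h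
      exact (WrapC.v0 D0 (by omega) (by omega) (by omega) (by omega) (by omega) (by omega) (by omega)).mpr (by omega)
    · obtain ⟨rfl, rfl, h⟩ := h
      exact (WrapC.v1 D0a (by omega) (by omega) (by omega) (by omega) (by omega) (by omega) (by omega) (by omega)).mpr (by omega)
    · obtain ⟨rfl, rfl, h⟩ := h
      exact (WrapC.v2 D0a (by omega) (by omega) (by omega) (by omega) (by omega) (by omega) (by omega)).mpr (by omega)
    · obtain ⟨rfl, rfl, h⟩ := h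
      exact (WrapC.v0 C2 (by omega) (by omega) (by omega) (by omega) (by omega) (by omega) (by omega)).mpr (by omega)
    · obtain ⟨rfl, rfl, h⟩ := h
      exact (WrapC.v1 C2 (by omega) (by omega) (by omega) (by omega) (by omega) (by omega) (by omega) (by omega)).mpr (by omega)
    · obtain ⟨rfl, rfl, h⟩ := h
      exact (WrapC.v2 C2 (by omega) (by omega) (by omega) (by omega) (by omega) (by omega) (by omega)).mpr (by omega)
    · obtain ⟨rfl, rfl, h⟩ := h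
      exact (WrapC.v1 C4a (by omega) (by omega) (by omega) (by omega) (by omega) (by omega) (by omega) (by omega)).mpr (by omega)
    · obtain ⟨rfl, rfl, h⟩ := h
      exact (WrapC.v2 C4a (by omega) (by omega) (by omega) (by omega) (by omega) (by omega) (by omega)).mpr (by omega)
    · obtain ⟨rfl, rfl, h⟩ := h
      exact (WrapC.v3 C4a (by omega) (by omega) (by omega) (by omega) (by omega) (by omega) (by omega) (by omega)).mpr (by omega)
    · obtain ⟨rfl, rfl, h⟩ := h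
      exact (WrapC.v4 C4a (by omega) (by omega) (by omega) (by omega) (by omega) (by omega) (by omega)).mpr (by omega)
    · obtain ⟨rfl, rfl, h⟩ := h
      exact (WrapC.v1 C4 (by omega) (by omega) (by omega) (by omega) (by omega) (by omega) (by omega) (by omega)).mpr (by omega)
    · obtain ⟨rfl, rfl, h⟩ := h
      exact (WrapC.v0 C6 (by omega) (by omega) (by omega) (by omega) (by omega) (by omega) (by omega)).mpr (by omega)
    · obtain ⟨rfl, rfl, h⟩ := h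
      exact (WrapC.v1 C6 (by omega) (by omega) (by omega) (by omega) (by omega) (by omega) (by omega) (by omega)).mpr (by omega)
    · obtain ⟨rfl, rfl, h⟩ := h
      exact (NW.w2v C8a (by omega) (by omega) (by omega) (by omega) (by omega) (by omega) (by omega)).mpr (by omega)
    · obtain ⟨rfl, rfl, h⟩ := h
      exact (NW.w3v C8a (by omega) (by omega) (by omega) (by omega) (by omega) (by omega) (by omega) (by omega)).mpr (by omega)
    · obtain ⟨rfl, rfl, h⟩ := h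
      exact (NW.w0v C8 (by omega) (by omega) (by omega) (by omega) (by omega) (by omega) (by omega)).mpr (by omega)
    · obtain ⟨rfl, rfl, h⟩ := h
      exact (NW.w1v C8 (by omega) (by omega) (by omega) (by omega) (by omega) (by omega) (by omega) (by omega)).mpr (by omega)
    · obtain ⟨rfl, rfl, h⟩ := h
      exact (NW.w2v C10a (by omega) (by omega) (by omega) (by omega) (by omega) (by omega) (by omega)).mpr (by omega)
    · obtain ⟨rfl, rfl, h⟩ := h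
      exact (NW.w0v C10 (by omega) (by omega) (by omega) (by omega) (by omega) (by omega) (by omega)).mpr (by omega)
    · obtain ⟨rfl, rfl, rfl, rfl⟩ := h
      exact p0 (by omega) (by omega) (by omega) (by omega)
  · intro j m p q hr h
    obtain ⟨-, -, hm1, hm2, hp1, hp2, hq1, hq2⟩ := hr
    replace h := of_decide_eq_true h
    rcases h with h | h | h | h | h | h | h | h | h | h | h | h | h | h | h | h | h | h | h | h | h | h | h | h | h | h | h | h | h | h | h | h | h | h | h | h | h | h | h | h | h | h | h | h | h | h | h | h | h | h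
    · obtain ⟨rfl, rfl, h⟩ := h
      exact mt (WrapC.v0 D0 (by omega) (by omega) (by omega) (by omega) (by omega) (by omega) (by omega)).mp (by omega)
    · obtain ⟨rfl, rfl, h⟩ := h
      exact mt (WrapC.v1 D0a (by omega) (by omega) (by omega) (by omega) (by omega) (by omega) (by omega) (by omega)).mp (by omega)
    · obtain ⟨rfl, rfl, h⟩ := h
      exact mt (WrapC.v2 D0a (by omega) (by omega) (by omega) (by omega) (by omega) (by omega) (by omega)).mp (by omega)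
    · obtain ⟨rfl, rfl, h⟩ := h
      exact mt (WrapC.v0 C2 (by omega) (by omega) (by omega) (by omega) (by omega) (by omega) (by omega)).mp (by omega)
    · obtain ⟨rfl, rfl, h⟩ := h
      exact mt (WrapC.v1 C2 (by omega) (by omega) (by omega) (by omega) (by omega) (by omega) (by omega) (by omega)).mp (by omega)
    · obtain ⟨rfl, rfl, h⟩ := h
      exact mt (WrapC.v2 C2 (by omega) (by omega) (by omega) (by omega) (by omega) (by omega) (by omega)).mp (by omega)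
    · obtain ⟨rfl, rfl, h⟩ := h
      exact mt (WrapC.v1 C4a (by omega) (by omega) (by omega) (by omega) (by omega) (by omega) (by omega) (by omega)).mp (by omega)
    · obtain ⟨rfl, rfl, h⟩ := h
      exact mt (WrapC.v2 C4a (by omega) (by omega) (by omega) (by omega) (by omega) (by omega) (by omega)).mp (by omega)
    · obtain ⟨rfl, rfl, h⟩ := h
      exact mt (WrapC.v3 C4a (by omega) (by omega) (by omega) (by omega) (by omega) (by omega) (by omega) (by omega)).mp (by omega)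
    · obtain ⟨rfl, rfl, h⟩ := h
      exact mt (WrapC.v4 C4a (by omega) (by omega) (by omega) (by omega) (by omega) (by omega) (by omega)).mp (by omega)
    · obtain ⟨rfl, rfl, h⟩ := h
      exact mt (WrapC.v1 C4 (by omega) (by omega) (by omega) (by omega) (by omega) (by omega) (by omega) (by omega)).mp (by omega)
    · obtain ⟨rfl, rfl, h⟩ := h
      exact mt (WrapC.v0 C6 (by omega) (by omega) (by omega) (by omega) (by omega) (by omega) (by omega)).mp (by omega)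
    · obtain ⟨rfl, rfl, h⟩ := h
      exact mt (WrapC.v1 C6 (by omega) (by omega) (by omega) (by omega) (by omega) (by omega) (by omega) (by omega)).mp (by omega)
    · obtain ⟨rfl, rfl, h⟩ := h
      exact mt (NW.w2v C8a (by omega) (by omega) (by omega) (by omega) (by omega) (by omega) (by omega)).mp (by omega)
    · obtain ⟨rfl, rfl, h⟩ := h
      exact mt (NW.w3v C8a (by omega) (by omega) (by omega) (by omega) (by omega) (by omega) (by omega) (by omega)).mp (by omega)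
    · obtain ⟨rfl, rfl, h⟩ := h
      exact mt (NW.w0v C8 (by omega) (by omega) (by omega) (by omega) (by omega) (by omega) (by omega)).mp (by omega)
    · obtain ⟨rfl, rfl, h⟩ := h
      exact mt (NW.w1v C8 (by omega) (by omega) (by omega) (by omega) (by omega) (by omega) (by omega) (by omega)).mp (by omega)
    · obtain ⟨rfl, rfl, h⟩ := h
      exact mt (NW.w2v C10a (by omega) (by omega) (by omega) (by omega) (by omega) (by omega) (by omega)).mp (by omega)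
    · obtain ⟨rfl, rfl, h⟩ := h
      exact mt (NW.w0v C10 (by omega) (by omega) (by omega) (by omega) (by omega) (by omega) (by omega)).mp (by omega)
    · obtain ⟨rfl, h⟩ := h
      exact hL (by omega) (by omega) (by omega) (by omega) (by omega) (by omega)
    · obtain ⟨rfl, rfl, h⟩ := h
      exact NHT.rIn hf T (t := 2) (p := 1) (j := 2) (by omega) (by omega) (by omega) (by omega) (by omega) (by omega) (by omega) (by omega)
    · obtain ⟨rfl, rfl, h⟩ := h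
      exact NHT.rIn hf T (t := 2) (p := 0) (j := 1) (by omega) (by omega) (by omega) (by omega) (by omega) (by omega) (by omega) (by omega)
    · obtain ⟨rfl, rfl, h⟩ := h
      exact NHT.rIn hf T (t := 2) (p := 1) (j := 1) (by omega) (by omega) (by omega) (by omega) (by omega) (by omega) (by omega) (by omega)
    · obtain ⟨rfl, rfl, h⟩ := h
      exact uP0 hf U (j := 0) (by omega) (by omega) (by omega) (by omega) (by omega) (by omega)
    · obtain ⟨rfl, rfl, h⟩ := h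
      exact NHT.pIn hf T (t := 3) (j := 1) (by omega) (by omega) (by omega) (by omega) (by omega) (by omega) (by omega)
    · obtain ⟨rfl, rfl, h⟩ := h
      exact uP0 hf U (j := 0) (by omega) (by omega) (by omega) (by omega) (by omega) (by omega)
    · obtain ⟨rfl, rfl, h⟩ := h
      exact NHT.rIn hf T (t := 3) (p := 0) (j := 3) (by omega) (by omega) (by omega) (by omega) (by omega) (by omega) (by omega) (by omega)
    · obtain ⟨rfl, rfl, h⟩ := h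
      exact NHT.rIn hf T (t := 3) (p := 0) (j := 2) (by omega) (by omega) (by omega) (by omega) (by omega) (by omega) (by omega) (by omega)
    · obtain ⟨rfl, rfl, h⟩ := h
      exact NHT.rIn hf T (t := 3) (p := 1) (j := 2) (by omega) (by omega) (by omega) (by omega) (by omega) (by omega) (by omega) (by omega)
    · obtain ⟨rfl, rfl, h⟩ := h
      exact NHT.rIn hf T (t := 3) (p := 0) (j := 1) (by omega) (by omega) (by omega) (by omega) (by omega) (by omega) (by omega) (by omega)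
    · obtain ⟨rfl, rfl, h⟩ := h
      exact NHT.rIn hf T (t := 3) (p := 1) (j := 1) (by omega) (by omega) (by omega) (by omega) (by omega) (by omega) (by omega) (by omega)
    · obtain ⟨rfl, rfl, h⟩ := h
      exact uP1 hf U (j := 1) (by omega) (by omega) (by omega) (by omega) (by omega) (by omega)
    · obtain ⟨rfl, rfl, h⟩ := h
      exact NHT.pIn hf T (t := 4) (j := 3) (by omega) (by omega) (by omega) (by omega) (by omega) (by omega) (by omega)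
    · obtain ⟨rfl, rfl, h⟩ := h
      exact NHT.pIn hf T (t := 4) (j := 2) (by omega) (by omega) (by omega) (by omega) (by omega) (by omega) (by omega)
    · obtain ⟨rfl, rfl, h⟩ := h
      exact NHT.pIn hf T (t := 4) (j := 1) (by omega) (by omega) (by omega) (by omega) (by omega) (by omega) (by omega)
    · obtain ⟨rfl, rfl, h⟩ := h
      exact uP1 hf U (j := 1) (by omega) (by omega) (by omega) (by omega) (by omega) (by omega)
    · obtain ⟨rfl, rfl, h⟩ := h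
      exact NHT.pIn hf T (t := 4) (j := 0) (by omega) (by omega) (by omega) (by omega) (by omega) (by omega) (by omega)
    · obtain ⟨rfl, rfl, h⟩ := h
      exact uP1 hf U (j := 0) (by omega) (by omega) (by omega) (by omega) (by omega) (by omega)
    · obtain ⟨rfl, rfl, h⟩ := h
      exact NHT.rIn hf T (t := 4) (p := 0) (j := 4) (by omega) (by omega) (by omega) (by omega) (by omega) (by omega) (by omega) (by omega)
    · obtain ⟨rfl, rfl, h⟩ := h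
      exact uP2 hf U (j := 2) (by omega) (by omega) (by omega) (by omega) (by omega) (by omega)
    · obtain ⟨rfl, rfl, h⟩ := h
      exact uA1 hf U (p := 0) (j := 1) (by omega) (by omega) (by omega) (by omega) (by omega) (by omega) (by omega)
    · obtain ⟨rfl, rfl, h⟩ := h
      exact uA1 hf U (p := 1) (j := 1) (by omega) (by omega) (by omega) (by omega) (by omega) (by omega) (by omega)
    · obtain ⟨rfl, rfl, h⟩ := h
      exact uP2 hf U (j := 2) (by omega) (by omega) (by omega) (by omega) (by omega) (by omega)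
    · obtain ⟨rfl, rfl, h⟩ := h
      exact NHT.p0i hf T (j := 1) (by omega) (by omega) (by omega) (by omega) (by omega) (by omega)
    · obtain ⟨rfl, rfl, h⟩ := h
      exact uP2 hf U (j := 1) (by omega) (by omega) (by omega) (by omega) (by omega) (by omega)
    · obtain ⟨rfl, rfl, h⟩ := h
      exact NHT.p0i hf T (j := 0) (by omega) (by omega) (by omega) (by omega) (by omega) (by omega)
    · obtain ⟨rfl, rfl, h⟩ := h
      exact uP2 hf U (j := 0) (by omega) (by omega) (by omega) (by omega) (by omega) (by omega)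
    · obtain ⟨rfl, rfl, rfl, rfl⟩ := h
      exact z0 (by omega) (by omega) (by omega) (by omega)
    · obtain ⟨rfl, rfl, rfl, rfl⟩ := h
      exact z1 (by omega) (by omega) (by omega) (by omega)
    · obtain ⟨rfl, rfl, rfl, rfl⟩ := h
      exact z2 (by omega) (by omega) (by omega) (by omega)

end Pool.Agent.SNT.L0X
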