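import Pool.Agent.SNT.PL

set_option autoImplicit false
set_option synthInstance.maxSize 100000
set_option synthInstance.maxHeartbeats 4000000

/-! Near the wall: an E-cell of `6 k + 1` in the row `c` (helper85). -/

namespace Pool.Agent.SNT.L0X

open Pool.Agent.SNT Pool.Agent.SNT.Sig Pool.Agent.SNT.Loc Pool.Agent.SNT.LW Pool.Agent.SNT.NHZ Pool.Agent.SNT.DRun
open Pool.Agent.SNT.D1E Pool.Agent.SNT.PB

variable {f : ℕ → ℕ → ℕ → ℕ → Prop}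

theorem a1_chk : check 4 9 14 11 0 1 1 1 0
    (fun j n p q => decide ((((((j = 2 ∧ n = 6 ∧ ((12 ≤ p) ∨ (p ≤ q + 4 ∧ 11 ≤ p)) ∧ ((p + q + 0) % 2 = 0 ∧ q + 4 ≤ p ∧ (p + q + 0) % 4 = 0)))
      ∨ ((j = 2 ∧ n = 1 ∧ ((((p + q + 0) % 2 = 1 ∧ p ≤ q + 3 ∧ p % 2 = 0) ∨ ((p + q + 0) % 2 = 1 ∧ q + 3 ≤ p ∧ (p + q + 3) % 4 = 0))))))
      ∨ ((j = 2 ∧ n = 2 ∧ ((p + q + 0) % 2 = 0 ∧ q + 4 ≤ p ∧ (p + q + 0) % 4 = 0))))
      ∨ (((j = 2 ∧ n = 4 ∧ ((8 ≤ p) ∨ (p ≤ q + 3 ∧ 5 ≤ q)) ∧ ((p + q + 0) % 2 = 0 ∧ q + 4 ≤ p ∧ (p + q + 2) % 4 = 0)))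
      ∨ ((j = 2 ∧ n = 5 ∧ 10 ≤ p ∧ ((((p + q + 0) % 2 = 1 ∧ p ≤ q + 3 ∧ p % 2 = 0) ∨ ((p + q + 0) % 2 = 1 ∧ q + 3 ≤ p ∧ (p + q + 3) % 4 = 0)))))))
      ∨ ((((j = 4 ∧ n = 3 ∧ 2 ≤ p ∧ ((((p + q + 0) % 2 = 1 ∧ p ≤ q + 3 ∧ p % 2 = 0) ∨ ((p + q + 0) % 2 = 1 ∧ q + 3 ≤ p ∧ (p + q + 3) % 4 = 0)))))
      ∨ ((j = 4 ∧ n = 5 ∧ ((q + 4 ≤ p ∧ 6 ≤ p)) ∧ ((((p + q + 0) % 2 = 1 ∧ p ≤ q + 3 ∧ p % 2 = 1) ∨ ((p + q + 0) % 2 = 1 ∧ q + 3 ≤ p ∧ (p + q + 1) % 4 = 0))))))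
      ∨ (((j = 3 ∧ n = 7 ∧ p = 11 ∧ q = 9))
      ∨ ((j = 2 ∧ n = 3 ∧ p = 1 ∧ q = 2))))))
    (fun j n p q => decide ((((j = 2 ∧ n = 3 ∧ ((6 ≤ p) ∨ (q + 4 ≤ p) ∨ (p ≤ q + 3 ∧ 3 ≤ q)) ∧ ¬ ((((p + q + 0) % 2 = 1 ∧ p ≤ q + 3 ∧ p % 2 = 1) ∨ ((p + q + 0) % 2 = 1 ∧ q + 3 ≤ p ∧ (p + q + 1) % 4 = 0)))))
      ∨ ((j = 1 ∧ n = 5)))
      ∨ (((j = 1 ∧ n = 6))
      ∨ ((j = 1 ∧ n = 7)))))
    58
    0x77203071e8009d3c206c600097b42066d8009234a07bf8006628007c59a09184a0c8e800c82800bdd800bd2800a7b00077e00072a8007258006d20006cb0006578006260005ce8005cd8005c38005c2800c8e8f0c828f0bdd8f0bd28f0a7b0f07c507077e0f072a8f07258f071f07071e0706d20f06cb0f067907066e0706630706578f06260f05ce8f05cd8f05c38f05c28f051087051007050b07050a8704be0704bd8704bc8704b707046a07 = true := by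
  decide +kernel

/-- the line `X - 5 - 2 k` of `6 k` in the row `c - 4` is missing -/
theorem a1 (hf : Rule f) {k c n X : ℕ} (H : PL f k c n (n - 4)) (hX : 2 * n + 4 ≤ X)
    (hX2 : X % 2 = 0) (D0 : Cyc f (6 * k) (c - 2) (X - 2)) (D0a : Cyc f (6 * k) (c - 6) (X - 6 - 2 * k))
    (C4a : Cyc f (6 * k + 4) (c - 6) (2 * (n - (k + 1)) + 2))
    (h0 : f (6 * k + 1) (c) (X) (X + 2 - 2 * k))
    (h1 : f (6 * k) (c - 4) (X - 10) (X - 5 - 2 * k)) : False := by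
  have hk := H.T.hk
  have hc := H.T.hc
  have h4' := H.T.h4
  have hb := H.T.hb
  have hN := H.T.hN2
  obtain ⟨a0, ha0⟩ : ∃ z, z + 2 = 6 * k := ⟨6 * k - 2, by omega⟩
  obtain ⟨b0, hb0⟩ : ∃ z, z + 7 = c := ⟨c - 7, by omega⟩
  obtain ⟨x0, hx0⟩ : ∃ z, z + 11 = X := ⟨X - 11, by omega⟩
  obtain ⟨y0, hy0⟩ : ∃ z, z + 2 * k + 7 = X := ⟨X - 2 * k - 7, by omega⟩
  refine check_sound hf (a0 := a0) (b0 := b0) (x0 := x0) (y0 := y0) a1_chk
    ⟨fun h => absurd h (by decide), fun h => absurd h (by decide), fun h => absurd h (by decide), by omega, by omega,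
      by omega, by omega⟩ ?_ ?_
  · intro j m p q hr h
    obtain ⟨-, -, -, -, hp1, hp2, hq1, hq2⟩ := hr
    replace h := of_decide_eq_true h
    rcases h with (((h | h) | (h)) | (h | h)) | ((h | h) | (h | h))
    · obtain ⟨rfl, rfl, h⟩ := h
      exact (WrapC.v1 D0 (by omega) (by omega) (by omega) (by omega) (by omega) (by omega) (by omega) (by omega)).mpr (by omega)
    · obtain ⟨rfl, rfl, h⟩ := h
      exact (WrapC.v0 D0a (by omega) (by omega) (by omega) (by omega) (by omega) (by omega) (by omega)).mpr (by omega)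
    · obtain ⟨rfl, rfl, h⟩ := h
      exact (WrapC.v1 D0a (by omega) (by omega) (by omega) (by omega) (by omega) (by omega) (by omega) (by omega)).mpr (by omega)
    · obtain ⟨rfl, rfl, h⟩ := h
      exact (WrapC.v3 D0a (by omega) (by omega) (by omega) (by omega) (by omega) (by omega) (by omega) (by omega)).mpr (by omega)
    · obtain ⟨rfl, rfl, h⟩ := h
      exact (WrapC.v4 D0a (by omega) (by omega) (by omega) (by omega) (by omega) (by omega) (by omega)).mpr (by omega)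
    · obtain ⟨rfl, rfl, h⟩ := h
      exact (WrapC.v0 H.c2 (by omega) (by omega) (by omega) (by omega) (by omega) (by omega) (by omega)).mpr (by omega)
    · obtain ⟨rfl, rfl, h⟩ := h
      exact (WrapC.v2 H.c2 (by omega) (by omega) (by omega) (by omega) (by omega) (by omega) (by omega)).mpr (by omega)
    · obtain ⟨rfl, rfl, rfl, rfl⟩ := h
      exact mv h0 (by omega) (by omega) (by omega) (by omega)
    · obtain ⟨rfl, rfl, rfl, rfl⟩ := h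
      exact mv h1 (by omega) (by omega) (by omega) (by omega)
  · intro j m p q hr h
    obtain ⟨-, -, -, -, hp1, hp2, hq1, hq2⟩ := hr
    replace h := of_decide_eq_true h
    rcases h with (h | h) | (h | h)
    · obtain ⟨rfl, rfl, h⟩ := h
      exact mt (WrapC.v2 D0a (by omega) (by omega) (by omega) (by omega) (by omega) (by omega) (by omega)).mp (by omega)
    · obtain ⟨rfl, rfl⟩ := h
      exact H.lw _ _ _ _ (by omega) (by omega) (by omega) (by omega) (by omega) (by omega)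
    · obtain ⟨rfl, rfl⟩ := h
      exact H.lw _ _ _ _ (by omega) (by omega) (by omega) (by omega) (by omega) (by omega)
    · obtain ⟨rfl, rfl⟩ := h
      exact H.lw _ _ _ _ (by omega) (by omega) (by omega) (by omega) (by omega) (by omega)

theorem a2_chk : check 11 7 12 8 1 1 1 0 0
    (fun j n p q => decide ((((((j = 1 ∧ n = 1 ∧ ((((p + q + 1) % 2 = 1 ∧ p ≤ q + 2 ∧ p % 2 = 1) ∨ ((p + q + 1) % 2 = 1 ∧ q + 2 ≤ p ∧ (p + q + 0) % 4 = 0)))))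
      ∨ ((j = 1 ∧ n = 3 ∧ 4 ≤ p ∧ ((((p + q + 1) % 2 = 1 ∧ p ≤ q + 2 ∧ p % 2 = 0) ∨ ((p + q + 1) % 2 = 1 ∧ q + 2 ≤ p ∧ (p + q + 2) % 4 = 0))))))
      ∨ (((j = 3 ∧ n = 1 ∧ ((((p + q + 1) % 2 = 1 ∧ p ≤ q + 2 ∧ p % 2 = 0) ∨ ((p + q + 1) % 2 = 1 ∧ q + 2 ≤ p ∧ (p + q + 2) % 4 = 0)))))
      ∨ ((j = 3 ∧ n = 2 ∧ ((p + q + 1) % 2 = 0 ∧ q + 3 ≤ p ∧ (p + q + 3) % 4 = 0)))))
      ∨ ((((j = 5 ∧ n = 1 ∧ ((2 ≤ p) ∨ (q + 3 ≤ p) ∨ (p ≤ q + 2)) ∧ ((((p + q + 1) % 2 = 1 ∧ p ≤ q + 2 ∧ p % 2 = 1) ∨ ((p + q + 1) % 2 = 1 ∧ q + 2 ≤ p ∧ (p + q + 0) % 4 = 0)))))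
      ∨ ((j = 5 ∧ n = 2 ∧ ((4 ≤ p) ∨ (p ≤ q + 2 ∧ 2 ≤ q)) ∧ ((p + q + 1) % 2 = 0 ∧ q + 3 ≤ p ∧ (p + q + 1) % 4 = 0))))
      ∨ ((j = 5 ∧ n = 3 ∧ 6 ≤ p ∧ ((((p + q + 1) % 2 = 1 ∧ p ≤ q + 2 ∧ p % 2 = 0) ∨ ((p + q + 1) % 2 = 1 ∧ q + 2 ≤ p ∧ (p + q + 2) % 4 = 0)))))))
      ∨ (((((j = 7 ∧ n = 2 ∧ ((p + q + 1) % 2 = 0 ∧ q + 5 ≤ p ∧ (p + q + 1) % 4 = 0)))
      ∨ ((j = 7 ∧ n = 1 ∧ ((((p + q + 1) % 2 = 1 ∧ p ≤ q + 4 ∧ p % 2 = 0) ∨ ((p + q + 1) % 2 = 1 ∧ q + 4 ≤ p ∧ (p + q + 0) % 4 = 0))))))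
      ∨ ((j = 9 ∧ n = 3 ∧ ((((p + q + 1) % 2 = 1 ∧ p ≤ q + 4 ∧ p % 2 = 0) ∨ ((p + q + 1) % 2 = 1 ∧ q + 4 ≤ p ∧ (p + q + 0) % 4 = 0))))))
      ∨ ((((j = 11 ∧ n = 5 ∧ 4 ≤ p ∧ ((p ≤ q + 2) ∨ (6 ≤ p)) ∧ ((((p + q + 1) % 2 = 1 ∧ p ≤ q + 4 ∧ p % 2 = 0) ∨ ((p + q + 1) % 2 = 1 ∧ q + 4 ≤ p ∧ (p + q + 0) % 4 = 0)))))
      ∨ ((j = 2 ∧ n = 5 ∧ p = 5 ∧ q = 4)))
      ∨ ((j = 3 ∧ n = 3 ∧ p = 1 ∧ q = 3))))))
    (fun j n p q => decide (((((j = 3 ∧ n = 3 ∧ ((q + 3 ≤ p)) ∧ ¬ ((((p + q + 1) % 2 = 1 ∧ p ≤ q + 2 ∧ p % 2 = 1) ∨ ((p + q + 1) % 2 = 1 ∧ q + 2 ≤ p ∧ (p + q + 0) % 4 = 0)))))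
      ∨ ((j = 4 ∧ n = 3 ∧ p + 1 ≤ q)))
      ∨ (((j = 6 ∧ n = 3 ∧ p ≤ q + 2))
      ∨ ((j = 7 ∧ n = 4 ∧ p ≤ q + 2))))
      ∨ ((((j = 8 ∧ n = 4 ∧ p ≤ q + 2))
      ∨ ((j = 6 ∧ n = 5 ∧ 5 ≤ p ∧ p ≤ q + 1)))
      ∨ ((j = 8 ∧ n = 5 ∧ 5 ≤ p ∧ p ≤ q + 2)))))
    209
    0x79e85079a0008ef4a08eaca064680064a92049a8004928005eac205e6d2079e85079a0008ef4a08eaca064680064a92049680049684079b0507968008ef5208ead2064a00064a0408ea830646000646040a3b050a36800b8f520b8ad208ea0008ea040a3e850a3a000b8f4a0b8aca08e68008e6840b8a8308e60008e60407368308b68008b6840b26830a06800a06840b8a8308b60008b6040886030766000766040b268308820008820408ef03064a80064a840b930308ee8008ee840b32830a12800a128405e6830616800616840736830766800766840e37030b92800b92840b32830b62800b628405ea83061a80061a84049580049581048d8005de4a0b268308820008861205dd8005dd8407368305de0005de040b8f0308ea8008ea840b26830b56800b56840b32830a13000a130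40b32830b63000b63040b2f030a0f000a0f040b2f030b5f000b5f040f8b000f83000c83000c82000c7b000c7a000c73000c720009b180098200097b00097a00097200073b00073a0007050006d58006ce8006cd80048580046980046080043a00043200043100042a0004290003a60001f100018d80018c800f8b0f0f830f0ce7070c830f0c820f0c7b0f0c7a0f0c730f0c720f0b93070b8f070b8e870b8b070b8a870b8a070b86870b86070b5e870b5b070b5a870b5a070b56070a3f070a36070a0e870a0b070a0a870a0a070a060709df0709de0709d60709b18f09820f097b0f097a0f09720f08ef0708eb07088607088187079f07079607073b0f073a0f07360707050f06d58f06ce8f06cd8f05e28704f607049607049507048e0704858f04698f04608f043a0f04320f04310f042a0f04290f03a60f01f10f018d8f018c8f = true := by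
  decide +kernel

/-- the line `X + 1 - 2 k` of `6 k + 2` in the row `c - 2` is missing -/
theorem a2 (hf : Rule f) {k c n X : ℕ} (H : PL f k c n (n - 4)) (hX : 2 * n + 4 ≤ X)
    (hX2 : X % 2 = 0) (D0 : Cyc f (6 * k) (c - 2) (X - 2)) (D0a : Cyc f (6 * k) (c - 6) (X - 6 - 2 * k))
    (C4a : Cyc f (6 * k + 4) (c - 6) (2 * (n - (k + 1)) + 2))
    (h0 : f (6 * k + 1) (c) (X) (X + 2 - 2 * k))
    (h1 : f (6 * k + 2) (c - 2) (X - 4) (X + 1 - 2 * k)) : False := by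
  have hk := H.T.hk
  have hc := H.T.hc
  have h4' := H.T.h4
  have hb := H.T.hb
  have hN := H.T.hN2
  obtain ⟨a0, ha0⟩ : ∃ z, z + 1 = 6 * k := ⟨6 * k - 1, by omega⟩
  obtain ⟨b0, hb0⟩ : ∃ z, z + 5 = c := ⟨c - 5, by omega⟩
  obtain ⟨x0, hx0⟩ : ∃ z, z + 5 = X := ⟨X - 5, by omega⟩
  obtain ⟨y0, hy0⟩ : ∃ z, z + 2 * k + 2 = X := ⟨X - 2 * k - 2, by omega⟩
  refine check_sound hf (a0 := a0) (b0 := b0) (x0 := x0) (y0 := y0) a2_chk
    ⟨fun h => absurd h (by decide), fun h => absurd h (by decide), fun h => absurd h (by decide), by omega, by omega,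
      by omega, by omega⟩ ?_ ?_
  · intro j m p q hr h
    obtain ⟨-, -, -, -, hp1, hp2, hq1, hq2⟩ := hr
    replace h := of_decide_eq_true h
    rcases h with (((h | h) | (h | h)) | ((h | h) | (h))) | (((h | h) | (h)) | ((h | h) | (h)))
    · obtain ⟨rfl, rfl, h⟩ := h
      exact (WrapC.v2 D0a (by omega) (by omega) (by omega) (by omega) (by omega) (by omega) (by omega)).mpr (by omega)
    · obtain ⟨rfl, rfl, h⟩ := h
      exact (WrapC.v4 D0a (by omega) (by omega) (by omega) (by omega) (by omega) (by omega) (by omega)).mpr (by omega)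
    · obtain ⟨rfl, rfl, h⟩ := h
      exact (WrapC.v0 H.c2 (by omega) (by omega) (by omega) (by omega) (by omega) (by omega) (by omega)).mpr (by omega)
    · obtain ⟨rfl, rfl, h⟩ := h
      exact (WrapC.v1 H.c2 (by omega) (by omega) (by omega) (by omega) (by omega) (by omega) (by omega) (by omega)).mpr (by omega)
    · obtain ⟨rfl, rfl, h⟩ := h
      exact (WrapC.v2 C4a (by omega) (by omega) (by omega) (by omega) (by omega) (by omega) (by omega)).mpr (by omega)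
    · obtain ⟨rfl, rfl, h⟩ := h
      exact (WrapC.v3 C4a (by omega) (by omega) (by omega) (by omega) (by omega) (by omega) (by omega) (by omega)).mpr (by omega)
    · obtain ⟨rfl, rfl, h⟩ := h
      exact (WrapC.v4 C4a (by omega) (by omega) (by omega) (by omega) (by omega) (by omega) (by omega)).mpr (by omega)
    · obtain ⟨rfl, rfl, h⟩ := h
      exact (WrapC.v1 H.c6 (by omega) (by omega) (by omega) (by omega) (by omega) (by omega) (by omega) (by omega)).mpr (by omega)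
    · obtain ⟨rfl, rfl, h⟩ := h
      exact (WrapC.v4 H.c6a (by omega) (by omega) (by omega) (by omega) (by omega) (by omega) (by omega)).mpr (by omega)
    · obtain ⟨rfl, rfl, h⟩ := h
      exact (NW.w0v H.c8 (by omega) (by omega) (by omega) (by omega) (by omega) (by omega) (by omega)).mpr (by omega)
    · obtain ⟨rfl, rfl, h⟩ := h
      exact (NW.w0v H.c10 (by omega) (by omega) (by omega) (by omega) (by omega) (by omega) (by omega)).mpr (by omega)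
    · obtain ⟨rfl, rfl, rfl, rfl⟩ := h
      exact mv h0 (by omega) (by omega) (by omega) (by omega)
    · obtain ⟨rfl, rfl, rfl, rfl⟩ := h
      exact mv h1 (by omega) (by omega) (by omega) (by omega)
  · intro j m p q hr h
    obtain ⟨-, -, -, -, hp1, hp2, hq1, hq2⟩ := hr
    replace h := of_decide_eq_true h
    rcases h with ((h | h) | (h | h)) | ((h | h) | (h))
    · obtain ⟨rfl, rfl, h⟩ := h
      exact mt (WrapC.v2 H.c2 (by omega) (by omega) (by omega) (by omega) (by omega) (by omega) (by omega)).mp (by omega)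
    · obtain ⟨rfl, rfl, h⟩ := h
      exact NHT.pmi hf H.T (j := 2) (by omega) (by omega) (by omega) (by omega) (by omega) (by omega)
    · obtain ⟨rfl, rfl, h⟩ := h
      exact NHU.pmi hf H.U (j := 1) (by omega) (by omega) (by omega) (by omega) (by omega) (by omega)
    · obtain ⟨rfl, rfl, h⟩ := h
      exact fun t => NHU.rm1i hf H.U (p := 0) (j := 1) (by omega) (by omega) (by omega) (by omega) (by omega) (by omega) (mv t rfl (by omega) rfl rfl)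
    · obtain ⟨rfl, rfl, h⟩ := h
      exact fun t => NHU.rm1i hf H.U (p := 1) (j := 1) (by omega) (by omega) (by omega) (by omega) (by omega) (by omega) (mv t rfl (by omega) rfl rfl)
    · obtain ⟨rfl, rfl, h⟩ := h
      exact NHU.p0i hf H.U (j := 2) (by omega) (by omega) (by omega) (by omega) (by omega) (by omega)
    · obtain ⟨rfl, rfl, h⟩ := h
      exact NHU.p0i hf H.U (j := 1) (by omega) (by omega) (by omega) (by omega) (by omega) (by omega)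

theorem a3_chk : check 5 5 6 7 1 1 1 1 0
    (fun j n p q => decide (((((j = 1 ∧ n = 1 ∧ ((((p + q + 0) % 2 = 1 ∧ p % 2 = 1) ∨ ((p + q + 0) % 2 = 1 ∧ q + 3 ≤ p ∧ (p + q + 1) % 4 = 0)))))
      ∨ ((j = 1 ∧ n = 3 ∧ 4 ≤ p ∧ ((((p + q + 0) % 2 = 1 ∧ p % 2 = 0) ∨ ((p + q + 0) % 2 = 1 ∧ q + 3 ≤ p ∧ (p + q + 3) % 4 = 0))))))
      ∨ ((j = 3 ∧ n = 1 ∧ ((((p + q + 0) % 2 = 1 ∧ p % 2 = 0) ∨ ((p + q + 0) % 2 = 1 ∧ q + 5 ≤ p ∧ (p + q + 1) % 4 = 0))))))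
      ∨ (((j = 5 ∧ n = 3 ∧ ((((p + q + 0) % 2 = 1 ∧ p % 2 = 0) ∨ ((p + q + 0) % 2 = 1 ∧ q + 5 ≤ p ∧ (p + q + 1) % 4 = 0)))))
      ∨ ((j = 1 ∧ n = 3 ∧ p = 1 ∧ q = 2)))))
    (fun j n p q => decide (False))
    36
    0x1f303010800011d2201890001f2ca01f303010800011d22018580018584011d0301898001898401f303011d00011d04025c80025b80015f80015e8001588001578000b78000ac80008280025c8f025b8f018607015f8f015e8f01588f01578f00b78f00b40700ac8f00828f = true := by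
  decide +kernel

/-- no beam of `6 k + 4` in the row `c - 2` -/
theorem a3 (hf : Rule f) {k c n X : ℕ} (H : PL f k c n (n - 4)) (hX : 2 * n + 4 ≤ X)
    (hX2 : X % 2 = 0) (D0 : Cyc f (6 * k) (c - 2) (X - 2)) (D0a : Cyc f (6 * k) (c - 6) (X - 6 - 2 * k))
    (C4a : Cyc f (6 * k + 4) (c - 6) (2 * (n - (k + 1)) + 2))
    (h0 : f (6 * k + 1) (c) (X) (X + 2 - 2 * k))
    (h1 : f (6 * k + 4) (c - 2) (X - 2) (X + 3 - 2 * k)) : False := by
  have hk := H.T.hk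
  have hc := H.T.hc
  have h4' := H.T.h4
  have hb := H.T.hb
  have hN := H.T.hN2
  obtain ⟨a0, ha0⟩ : ∃ z, z = 6 * k + 3 := ⟨_, rfl⟩
  obtain ⟨b0, hb0⟩ : ∃ z, z + 5 = c := ⟨c - 5, by omega⟩
  obtain ⟨x0, hx0⟩ : ∃ z, z + 3 = X := ⟨X - 3, by omega⟩
  obtain ⟨y0, hy0⟩ : ∃ z, z + 2 * k = X + 1 := ⟨X + 1 - 2 * k, by omega⟩
  refine check_sound hf (a0 := a0) (b0 := b0) (x0 := x0) (y0 := y0) a3_chk
    ⟨fun h => absurd h (by decide), fun h => absurd h (by decide), fun h => absurd h (by decide), by omega, by omega,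
      by omega, by omega⟩ ?_ ?_
  · intro j m p q hr h
    obtain ⟨-, -, -, -, hp1, hp2, hq1, hq2⟩ := hr
    replace h := of_decide_eq_true h
    rcases h with ((h | h) | (h)) | (h | h)
    · obtain ⟨rfl, rfl, h⟩ := h
      exact (WrapC.v2 C4a (by omega) (by omega) (by omega) (by omega) (by omega) (by omega) (by omega)).mpr (by omega)
    · obtain ⟨rfl, rfl, h⟩ := h
      exact (WrapC.v4 C4a (by omega) (by omega) (by omega) (by omega) (by omega) (by omega) (by omega)).mpr (by omega)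
    · obtain ⟨rfl, rfl, h⟩ := h
      exact (WrapC.v4 H.c6a (by omega) (by omega) (by omega) (by omega) (by omega) (by omega) (by omega)).mpr (by omega)
    · obtain ⟨rfl, rfl, h⟩ := h
      exact (NW.w0v H.c8 (by omega) (by omega) (by omega) (by omega) (by omega) (by omega) (by omega)).mpr (by omega)
    · obtain ⟨rfl, rfl, rfl, rfl⟩ := h
      exact mv h1 (by omega) (by omega) (by omega) (by omega)
  · intro j m p q hr h
    obtain ⟨-, -, -, -, hp1, hp2, hq1, hq2⟩ := hr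
    replace h := of_decide_eq_true h
    exact h.elim

theorem a4_chk : check 5 5 8 7 1 1 1 1 0
    (fun j n p q => decide (((((j = 1 ∧ n = 1 ∧ ((2 ≤ p) ∨ (q + 4 ≤ p) ∨ (p ≤ q + 3)) ∧ ((((p + q + 0) % 2 = 1 ∧ p ≤ q + 3 ∧ p % 2 = 1) ∨ ((p + q + 0) % 2 = 1 ∧ q + 3 ≤ p ∧ (p + q + 1) % 4 = 0)))))
      ∨ ((j = 1 ∧ n = 2 ∧ ((4 ≤ p) ∨ (p ≤ q + 3)) ∧ ((p + q + 0) % 2 = 0 ∧ q + 4 ≤ p ∧ (p + q + 2) % 4 = 0))))
      ∨ ((j = 3 ∧ n = 1 ∧ ((((p + q + 0) % 2 = 1 ∧ p % 2 = 0) ∨ ((p + q + 0) % 2 = 1 ∧ q + 5 ≤ p ∧ (p + q + 1) % 4 = 0))))))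
      ∨ (((j = 5 ∧ n = 3 ∧ ((((p + q + 0) % 2 = 1 ∧ p % 2 = 0) ∨ ((p + q + 0) % 2 = 1 ∧ q + 5 ≤ p ∧ (p + q + 1) % 4 = 0)))))
      ∨ ((j = 1 ∧ n = 3 ∧ p = 1 ∧ q = 2)))))
    (fun j n p q => decide (False))
    43
    0x29b03017f00017f0100eb8001784a029383017780017784029403017800017804032780032680032080031f8001d68001cf8001ce8001c88001c78000e48000d60000ba8000b38000ac8003278f03268f03208f031f8f020b0702040701d68f01cf8f01ce8f01c88f01c78f00f30700ec0700e48f00d60f00ba8f00b38f00ac8f = true := by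
  decide +kernel

/-- no beam of `6 k + 4` in the row `c - 2` -/
theorem a4 (hf : Rule f) {k c n X : ℕ} (H : PL f k c n (n - 4)) (hX : 2 * n + 4 ≤ X)
    (hX2 : X % 2 = 0) (D0 : Cyc f (6 * k) (c - 2) (X - 2)) (D0a : Cyc f (6 * k) (c - 6) (X - 6 - 2 * k))
    (C4a : Cyc f (6 * k + 4) (c - 6) (2 * (n - (k + 1)) + 2))
    (h0 : f (6 * k + 1) (c) (X) (X + 2 - 2 * k))
    (h1 : f (6 * k + 4) (c - 2) (X - 4) (X + 1 - 2 * k)) : False := by
  have hk := H.T.hk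
  have hc := H.T.hc
  have h4' := H.T.h4
  have hb := H.T.hb
  have hN := H.T.hN2
  obtain ⟨a0, ha0⟩ : ∃ z, z = 6 * k + 3 := ⟨_, rfl⟩
  obtain ⟨b0, hb0⟩ : ∃ z, z + 5 = c := ⟨c - 5, by omega⟩
  obtain ⟨x0, hx0⟩ : ∃ z, z + 5 = X := ⟨X - 5, by omega⟩
  obtain ⟨y0, hy0⟩ : ∃ z, z + 2 * k + 1 = X := ⟨X - 2 * k - 1, by omega⟩
  refine check_sound hf (a0 := a0) (b0 := b0) (x0 := x0) (y0 := y0) a4_chk
    ⟨fun h => absurd h (by decide), fun h => absurd h (by decide), fun h => absurd h (by decide), by omega, by omega,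
      by omega, by omega⟩ ?_ ?_
  · intro j m p q hr h
    obtain ⟨-, -, -, -, hp1, hp2, hq1, hq2⟩ := hr
    replace h := of_decide_eq_true h
    rcases h with ((h | h) | (h)) | (h | h)
    · obtain ⟨rfl, rfl, h⟩ := h
      exact (WrapC.v2 C4a (by omega) (by omega) (by omega) (by omega) (by omega) (by omega) (by omega)).mpr (by omega)
    · obtain ⟨rfl, rfl, h⟩ := h
      exact (WrapC.v3 C4a (by omega) (by omega) (by omega) (by omega) (by omega) (by omega) (by omega) (by omega)).mpr (by omega)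
    · obtain ⟨rfl, rfl, h⟩ := h
      exact (WrapC.v4 H.c6a (by omega) (by omega) (by omega) (by omega) (by omega) (by omega) (by omega)).mpr (by omega)
    · obtain ⟨rfl, rfl, h⟩ := h
      exact (NW.w0v H.c8 (by omega) (by omega) (by omega) (by omega) (by omega) (by omega) (by omega)).mpr (by omega)
    · obtain ⟨rfl, rfl, rfl, rfl⟩ := h
      exact mv h1 (by omega) (by omega) (by omega) (by omega)
  · intro j m p q hr h
    obtain ⟨-, -, -, -, hp1, hp2, hq1, hq2⟩ := hr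
    replace h := of_decide_eq_true h
    exact h.elim

end Pool.Agent.SNT.L0X
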