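import Pool.Agent.SNT.PL

set_option autoImplicit false
set_option synthInstance.maxSize 100000
set_option synthInstance.maxHeartbeats 4000000

/-! The E-cell of the road L0 (`2 n + 2 ≤ X`, `c` and `n` of the cycle before), the wall windows at `X` (helper89, helper26, helper82). -/

namespace Pool.Agent.SNT.L0E

open Pool.Agent.SNT Pool.Agent.SNT.Sig Pool.Agent.SNT.Loc Pool.Agent.SNT.LW Pool.Agent.SNT.NHZ Pool.Agent.SNT.DRun
open Pool.Agent.SNT.PB Pool.Agent.SNT.D1E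

variable {f : ℕ → ℕ → ℕ → ℕ → Prop}

theorem x2_w1a_chk : check 3 6 7 14 0 0 1 1 0
    (fun j n p q => decide ((j = 2 ∧ n = 1 ∧ 2 ≤ p ∧ q ≤ p + 7 ∧ ((p + q + 0) % 2 = 0 ∧ q ≤ p + 2 ∧ (p + q + 0) % 4 = 0))
      ∨ (j = 2 ∧ n = 2 ∧ 4 ≤ p ∧ q ≤ p + 7 ∧ (((p + q + 0) % 2 = 1 ∧ p + 3 ≤ q ∧ p % 2 = 0) ∨ ((p + q + 0) % 2 = 1 ∧ q ≤ p + 3 ∧ (p + q + 1) % 4 = 0)))
      ∨ (j = 3 ∧ n = 4 ∧ p = 5 ∧ q = 9)
      ∨ (j = 2 ∧ n = 2 ∧ p = 2 ∧ q = 9)))
    (fun j n p q => decide ((j = 2 ∧ n = 3 ∧ 5 ≤ p ∧ q ≤ p + 7 ∧ p + 2 ≤ q ∧ ¬ ((p + q + 0) % 2 = 0 ∧ q ≤ p + 2 ∧ (p + q + 2) % 4 = 0))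
      ∨ (j = 2 ∧ n = 1 ∧ ((2 ≤ p ∧ q ≤ p + 7) ∨ (5 ≤ q ∧ q ≤ p + 7 ∧ p + 3 ≤ q)) ∧ ¬ ((p + q + 0) % 2 = 0 ∧ q ≤ p + 2 ∧ (p + q + 0) % 4 = 0))
      ∨ (j = 2 ∧ n = 2 ∧ 4 ≤ p ∧ q ≤ p + 7 ∧ ¬ (((p + q + 0) % 2 = 1 ∧ p + 3 ≤ q ∧ p % 2 = 0) ∨ ((p + q + 0) % 2 = 1 ∧ q ≤ p + 3 ∧ (p + q + 1) % 4 = 0)))
      ∨ (j = 1 ∧ n = 3 ∧ q ≤ p + 7 ∧ p + 0 ≤ q)
      ∨ (j = 1 ∧ n = 2 ∧ q ≤ p + 7 ∧ p + 0 ≤ q)
      ∨ (j = 1 ∧ n = 1 ∧ q ≤ p + 7 ∧ p + 0 ≤ q)
      ∨ (j = 1 ∧ n = 4 ∧ q ≤ p + 7 ∧ p + 0 ≤ q)))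
    81
    0x2fd8502c50002fe0a02c50102be8002bf0a032f8002bf8003371a02c00a045d8002cd8002c080029480028c00045d8f03368703060703058702cd8f02cd0702cc8702c58702c48702c08f02b88702b78702948f029407029387028f07028e87028e07028d87028d07028c87028c0f028807028787028707028687021107021087020a0702098701e00701df8701d90701d88701d80701d78701d10701d08701a70701a68701a007019f87019f07019e87019a07019987019907019887019807019787019307019287019207019187016e07016d87016907016887016807016787016707016687016207016187016107016087 = true := by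
  decide +kernel

/-- `E` => the in-line `x = X - 3` of `6 k` in the row `c - 2` is missing. -/
theorem x2_w1a (hf : Rule f) {k c n X : ℕ} (H : PL f k c n (n - 4)) (hX : 2 * n + 2 ≤ X) (hX2 : X % 2 = 0)
    (D0 : Cyc f (6 * k) (c - 2) (X - 2)) (D0a : Cyc f (6 * k) (c - 6) (X - 6 - 2 * k))
    (e : f (6 * k + 1) c X (X + 2 - 2 * k)) : ¬ f (6 * k) (c - 2) (X - 3) (X + 2 - 2 * k) := by
  intro g0
  have hk := H.T.hk
  have hc := H.T.hc
  have h4' := H.T.h4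
  have hb := H.T.hb
  have hN := H.T.hN2
  obtain ⟨a0, ha0⟩ : ∃ z, z + 2 = 6 * k := ⟨6 * k - (2), by omega⟩
  obtain ⟨b0, hb0⟩ : ∃ z, z + 4 = c := ⟨c - (4), by omega⟩
  obtain ⟨x0, hx0⟩ : ∃ z, z + 5 = X := ⟨X - (5), by omega⟩
  obtain ⟨y0, hy0⟩ : ∃ z, z + 2 * k + 7 = X := ⟨X - (2 * k + 7), by omega⟩
  refine check_sound hf (a0 := a0) (b0 := b0) (x0 := x0) (y0 := y0) x2_w1a_chk
    ⟨fun h => absurd h (by decide), fun h => absurd h (by decide), fun h => absurd h (by decide), by omega, by omega,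
      by omega, by omega⟩ ?_ ?_
  · intro j m p q hr h
    obtain ⟨-, -, -, -, hp1, hp2, hq1, hq2⟩ := hr
    replace h := of_decide_eq_true h
    rcases h with h | h | h | h
    · obtain ⟨rfl, rfl, h⟩ := h
      exact (WrapC.v3 D0a (by omega) (by omega) (by omega) (by omega) (by omega) (by omega) (by omega) (by omega)).mpr (by omega)
    · obtain ⟨rfl, rfl, h⟩ := h
      exact (WrapC.v4 D0a (by omega) (by omega) (by omega) (by omega) (by omega) (by omega) (by omega)).mpr (by omega)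
    · obtain ⟨rfl, rfl, rfl, rfl⟩ := h
      exact mv e (by omega) (by omega) (by omega) (by omega)
    · obtain ⟨rfl, rfl, rfl, rfl⟩ := h
      exact mv g0 (by omega) (by omega) (by omega) (by omega)
  · intro j m p q hr h
    obtain ⟨-, -, -, -, hp1, hp2, hq1, hq2⟩ := hr
    replace h := of_decide_eq_true h
    rcases h with h | h | h | h | h | h | h
    · obtain ⟨rfl, rfl, h⟩ := h
      exact mt (WrapC.v1 D0 (by omega) (by omega) (by omega) (by omega) (by omega) (by omega) (by omega) (by omega)).mp (by omega)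
    · obtain ⟨rfl, rfl, h⟩ := h
      exact mt (WrapC.v3 D0a (by omega) (by omega) (by omega) (by omega) (by omega) (by omega) (by omega) (by omega)).mp (by omega)
    · obtain ⟨rfl, rfl, h⟩ := h
      exact mt (WrapC.v4 D0a (by omega) (by omega) (by omega) (by omega) (by omega) (by omega) (by omega)).mp (by omega)
    · obtain ⟨rfl, rfl, h⟩ := h
      exact H.lw _ _ _ _ (by omega) (by omega) (by omega) (by omega) (by omega) (by omega)
    · obtain ⟨rfl, rfl, h⟩ := h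
      exact H.lw _ _ _ _ (by omega) (by omega) (by omega) (by omega) (by omega) (by omega)
    · obtain ⟨rfl, rfl, h⟩ := h
      exact H.lw _ _ _ _ (by omega) (by omega) (by omega) (by omega) (by omega) (by omega)
    · obtain ⟨rfl, rfl, h⟩ := h
      exact H.lw _ _ _ _ (by omega) (by omega) (by omega) (by omega) (by omega) (by omega)

theorem x2_w1b_chk : check 6 7 9 18 1 1 1 0 0
    (fun j n p q => decide ((j = 1 ∧ n = 1 ∧ q ≤ p + 9 ∧ p + 2 ≤ q ∧ (((p + q + 1) % 2 = 1 ∧ p + 2 ≤ q ∧ p % 2 = 1) ∨ ((p + q + 1) % 2 = 1 ∧ q ≤ p + 2 ∧ (p + q + 0) % 4 = 0)))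
      ∨ (j = 1 ∧ n = 3 ∧ 2 ≤ p ∧ q ≤ p + 9 ∧ (((p + q + 1) % 2 = 1 ∧ p + 2 ≤ q ∧ p % 2 = 0) ∨ ((p + q + 1) % 2 = 1 ∧ q ≤ p + 2 ∧ (p + q + 2) % 4 = 0)))
      ∨ (j = 3 ∧ n = 1 ∧ q ≤ p + 9 ∧ (((p + q + 1) % 2 = 1 ∧ p + 2 ≤ q ∧ p % 2 = 0) ∨ ((p + q + 1) % 2 = 1 ∧ q ≤ p + 2 ∧ (p + q + 2) % 4 = 0)))
      ∨ (j = 3 ∧ n = 2 ∧ q ≤ p + 9 ∧ p + 1 ≤ q ∧ ((p + q + 1) % 2 = 0 ∧ q ≤ p + 1 ∧ (p + q + 3) % 4 = 0))
      ∨ (j = 5 ∧ n = 3 ∧ 6 ≤ p ∧ q ≤ p + 9 ∧ (((p + q + 1) % 2 = 1 ∧ p + 2 ≤ q ∧ p % 2 = 0) ∨ ((p + q + 1) % 2 = 1 ∧ q ≤ p + 2 ∧ (p + q + 2) % 4 = 0)))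
      ∨ (j = 2 ∧ n = 5 ∧ p = 3 ∧ q = 6)))
    (fun j n p q => decide ((j = 5 ∧ n = 2 ∧ 6 ≤ q ∧ q ≤ p + 9 ∧ p + 2 ≤ q ∧ ¬ ((p + q + 1) % 2 = 0 ∧ q ≤ p + 1 ∧ (p + q + 1) % 4 = 0))
      ∨ (j = 3 ∧ n = 2 ∧ q ≤ p + 9 ∧ p + 1 ≤ q ∧ ¬ ((p + q + 1) % 2 = 0 ∧ q ≤ p + 1 ∧ (p + q + 3) % 4 = 0))
      ∨ (j = 4 ∧ n = 5 ∧ 3 ≤ p ∧ q ≤ p + 9 ∧ p + 6 ≤ q)
      ∨ (j = 6 ∧ n = 5 ∧ 3 ≤ p ∧ q ≤ p + 9 ∧ p + 5 ≤ q)
      ∨ (j = 2 ∧ n = 3 ∧ q ≤ p + 9 ∧ p + 6 ≤ q)
      ∨ (j = 4 ∧ n = 3 ∧ q ≤ p + 9 ∧ p + 5 ≤ q)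
      ∨ (j = 2 ∧ n = 2 ∧ q ≤ p + 9 ∧ p + 6 ≤ q)
      ∨ (j = 4 ∧ n = 2 ∧ q ≤ p + 9 ∧ p + 5 ≤ q)
      ∨ (j = 3 ∧ n = 4 ∧ q ≤ p + 9 ∧ p + 6 ≤ q)
      ∨ (j = 4 ∧ n = 4 ∧ q ≤ p + 9 ∧ p + 6 ≤ q)
      ∨ (j = 5 ∧ n = 4 ∧ q ≤ p + 9 ∧ p + 5 ≤ q)
      ∨ (j = 6 ∧ n = 4 ∧ q ≤ p + 9 ∧ p + 5 ≤ q)
      ∨ (j = 6 ∧ n = 4 ∧ 5 ≤ p ∧ q ≤ p + 9 ∧ p + 3 ≤ q)
      ∨ (j = 6 ∧ n = 5 ∧ 5 ≤ p ∧ q ≤ p + 9 ∧ p + 3 ≤ q)
      ∨ (j = 3 ∧ n = 5 ∧ p = 4 ∧ q = 10)))
    146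
    0x862030862800aa35a07c98007b78007c98107c0920862030862800aa35a07c08007c0840a9a030808000808040f1a830aa3000aa30407bf8307c00007c0040862030859800a9a5a086b80086b8407c983081a80081a8407bf8308108008108407c0030811000811040c37830c88800f1a7a0aa2800aa28409f7830a48800a48840c37830c88800f116a0a99800a998407b6830807800807840c41000c4000076d80071e00062100035200035100034000033f0002b98002b88002a78002a68002a5800294800293800f1a870f1a070f19870f11870f11070f10870f08070f07870ec9870ec9070ec8870ec0870ec0070ebf870eb7070eb6870cda070c92870c89870c89070c80070c7f870c410f0c400f0c37070be6870be6070bdd870bdd070a9a070a91070a90870a49070a40070a3f8709f78709ee8709ee0709a687099d87099d07086c07086307085a0708590708120708090708088707c90707b70707b607077887077807076f87076f07076e87076e07076d8f076687076607076587076507075c87075c07071e0f06210f058087052f8703520f03510f03400f033f0f02b98f02b88f02a78f02a68f02a58f02948f02938f = true := by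
  decide +kernel

/-- `E` => the in-line `x = X + 1` of `6 k + 2` in the row `c` is present. -/
theorem x2_w1b (hf : Rule f) {k c n X : ℕ} (H : PL f k c n (n - 4)) (hX : 2 * n + 2 ≤ X) (hX2 : X % 2 = 0)
    (D0 : Cyc f (6 * k) (c - 2) (X - 2)) (D0a : Cyc f (6 * k) (c - 6) (X - 6 - 2 * k))
    (C4a : Cyc f (6 * k + 4) (c - 6) (2 * (n - (k + 1)) + 2))
    (e : f (6 * k + 1) c X (X + 2 - 2 * k)) : f (6 * k + 2) c (X + 1) (X + 6 - 2 * k) := by
  by_contra g0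
  have hk := H.T.hk
  have hc := H.T.hc
  have h4' := H.T.h4
  have hb := H.T.hb
  have hN := H.T.hN2
  obtain ⟨a0, ha0⟩ : ∃ z, z + 1 = 6 * k := ⟨6 * k - (1), by omega⟩
  obtain ⟨b0, hb0⟩ : ∃ z, z + 5 = c := ⟨c - (5), by omega⟩
  obtain ⟨x0, hx0⟩ : ∃ z, z + 3 = X := ⟨X - (3), by omega⟩
  obtain ⟨y0, hy0⟩ : ∃ z, z + 2 * k + 4 = X := ⟨X - (2 * k + 4), by omega⟩
  refine check_sound hf (a0 := a0) (b0 := b0) (x0 := x0) (y0 := y0) x2_w1b_chk
    ⟨fun h => absurd h (by decide), fun h => absurd h (by decide), fun h => absurd h (by decide), by omega, by omega,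
      by omega, by omega⟩ ?_ ?_
  · intro j m p q hr h
    obtain ⟨-, -, -, -, hp1, hp2, hq1, hq2⟩ := hr
    replace h := of_decide_eq_true h
    rcases h with h | h | h | h | h | h
    · obtain ⟨rfl, rfl, h⟩ := h
      exact (WrapC.v2 D0a (by omega) (by omega) (by omega) (by omega) (by omega) (by omega) (by omega)).mpr (by omega)
    · obtain ⟨rfl, rfl, h⟩ := h
      exact (WrapC.v4 D0a (by omega) (by omega) (by omega) (by omega) (by omega) (by omega) (by omega)).mpr (by omega)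
    · obtain ⟨rfl, rfl, h⟩ := h
      exact (WrapC.v0 H.c2 (by omega) (by omega) (by omega) (by omega) (by omega) (by omega) (by omega)).mpr (by omega)
    · obtain ⟨rfl, rfl, h⟩ := h
      exact (WrapC.v1 H.c2 (by omega) (by omega) (by omega) (by omega) (by omega) (by omega) (by omega) (by omega)).mpr (by omega)
    · obtain ⟨rfl, rfl, h⟩ := h
      exact (WrapC.v0 H.c4 (by omega) (by omega) (by omega) (by omega) (by omega) (by omega) (by omega)).mpr (by omega)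
    · obtain ⟨rfl, rfl, rfl, rfl⟩ := h
      exact mv e (by omega) (by omega) (by omega) (by omega)
  · intro j m p q hr h
    obtain ⟨-, -, -, -, hp1, hp2, hq1, hq2⟩ := hr
    replace h := of_decide_eq_true h
    rcases h with h | h | h | h | h | h | h | h | h | h | h | h | h | h | h
    · obtain ⟨rfl, rfl, h⟩ := h
      exact mt (WrapC.v3 C4a (by omega) (by omega) (by omega) (by omega) (by omega) (by omega) (by omega) (by omega)).mp (by omega)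
    · obtain ⟨rfl, rfl, h⟩ := h
      exact mt (WrapC.v1 H.c2 (by omega) (by omega) (by omega) (by omega) (by omega) (by omega) (by omega) (by omega)).mp (by omega)
    · obtain ⟨rfl, rfl, h⟩ := h
      exact NHT.p0i hf H.T (j := 3) (by omega) (by omega) (by omega) (by omega) (by omega) (by omega)
    · obtain ⟨rfl, rfl, h⟩ := h
      exact NHT.p0i hf H.T (j := 2) (by omega) (by omega) (by omega) (by omega) (by omega) (by omega)
    · obtain ⟨rfl, rfl, h⟩ := h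
      exact NHT.pmi hf H.T (j := 3) (by omega) (by omega) (by omega) (by omega) (by omega) (by omega)
    · obtain ⟨rfl, rfl, h⟩ := h
      exact NHT.pmi hf H.T (j := 2) (by omega) (by omega) (by omega) (by omega) (by omega) (by omega)
    · obtain ⟨rfl, rfl, h⟩ := h
      exact NHT.rIn hf H.T (t := 3) (p := 1) (j := 3) (by omega) (by omega) (by omega) (by omega) (by omega) (by omega) (by omega) (by omega)
    · obtain ⟨rfl, rfl, h⟩ := h
      exact NHT.rIn hf H.T (t := 3) (p := 1) (j := 2) (by omega) (by omega) (by omega) (by omega) (by omega) (by omega) (by omega) (by omega)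
    · obtain ⟨rfl, rfl, h⟩ := h
      exact fun t => NHT.rm1i hf H.T (p := 0) (j := 3) (by omega) (by omega) (by omega) (by omega) (by omega) (by omega) (mv t rfl (by omega) rfl rfl)
    · obtain ⟨rfl, rfl, h⟩ := h
      exact fun t => NHT.rm1i hf H.T (p := 1) (j := 3) (by omega) (by omega) (by omega) (by omega) (by omega) (by omega) (mv t rfl (by omega) rfl rfl)
    · obtain ⟨rfl, rfl, h⟩ := h
      exact fun t => NHT.rm1i hf H.T (p := 0) (j := 2) (by omega) (by omega) (by omega) (by omega) (by omega) (by omega) (mv t rfl (by omega) rfl rfl)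
    · obtain ⟨rfl, rfl, h⟩ := h
      exact fun t => NHT.rm1i hf H.T (p := 1) (j := 2) (by omega) (by omega) (by omega) (by omega) (by omega) (by omega) (mv t rfl (by omega) rfl rfl)
    · obtain ⟨rfl, rfl, h⟩ := h
      exact NHU.p0i hf H.U (j := 2) (by omega) (by omega) (by omega) (by omega) (by omega) (by omega)
    · obtain ⟨rfl, rfl, h⟩ := h
      exact NHU.p0i hf H.U (j := 2) (by omega) (by omega) (by omega) (by omega) (by omega) (by omega)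
    · obtain ⟨rfl, rfl, rfl, rfl⟩ := h
      exact fun t => g0 (mv t (by omega) (by omega) (by omega) (by omega))

theorem x2_w3_chk : check 9 8 14 25 0 0 0 1 0
    (fun j n p q => decide ((j = 6 ∧ n = 3 ∧ 11 ≤ p ∧ q ≤ p + 11 ∧ ((p + q + 1) % 2 = 0 ∧ q ≤ p + 5 ∧ (p + q + 3) % 4 = 0))
      ∨ (j = 2 ∧ n = 1 ∧ q ≤ p + 11 ∧ p + 5 ≤ q ∧ ((p + q + 1) % 2 = 0 ∧ q ≤ p + 5 ∧ (p + q + 1) % 4 = 0))
      ∨ (j = 2 ∧ n = 2 ∧ ((5 ≤ p ∧ q ≤ p + 11) ∨ (q ≤ p + 5) ∨ (11 ≤ q ∧ q ≤ p + 11 ∧ p + 6 ≤ q)) ∧ (((p + q + 1) % 2 = 1 ∧ p + 6 ≤ q ∧ p % 2 = 0) ∨ ((p + q + 1) % 2 = 1 ∧ q ≤ p + 6 ∧ (p + q + 2) % 4 = 0)))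
      ∨ (j = 2 ∧ n = 3 ∧ 7 ≤ p ∧ q ≤ p + 11 ∧ ((p + q + 1) % 2 = 0 ∧ q ≤ p + 5 ∧ (p + q + 3) % 4 = 0))
      ∨ (j = 2 ∧ n = 4 ∧ 9 ≤ p ∧ q ≤ p + 11 ∧ (((p + q + 1) % 2 = 1 ∧ p + 6 ≤ q ∧ p % 2 = 1) ∨ ((p + q + 1) % 2 = 1 ∧ q ≤ p + 6 ∧ (p + q + 0) % 4 = 0)))
      ∨ (j = 4 ∧ n = 2 ∧ 3 ≤ p ∧ q ≤ p + 11 ∧ (((p + q + 1) % 2 = 1 ∧ p + 6 ≤ q ∧ p % 2 = 1) ∨ ((p + q + 1) % 2 = 1 ∧ q ≤ p + 6 ∧ (p + q + 0) % 4 = 0)))
      ∨ (j = 4 ∧ n = 3 ∧ 4 ≤ p ∧ q ≤ p + 11 ∧ p + 5 ≤ q ∧ ((p + q + 1) % 2 = 0 ∧ q ≤ p + 5 ∧ (p + q + 1) % 4 = 0))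
      ∨ (j = 3 ∧ n = 6 ∧ p = 10 ∧ q = 17)
      ∨ (j = 2 ∧ n = 4 ∧ p = 3 ∧ q = 13)))
    (fun j n p q => decide ((j = 6 ∧ n = 3 ∧ 17 ≤ q ∧ q ≤ p + 11 ∧ p + 6 ≤ q ∧ ¬ ((p + q + 1) % 2 = 0 ∧ q ≤ p + 5 ∧ (p + q + 3) % 4 = 0))
      ∨ (j = 2 ∧ n = 5 ∧ 10 ≤ p ∧ q ≤ p + 11 ∧ p + 5 ≤ q ∧ ¬ ((p + q + 1) % 2 = 0 ∧ q ≤ p + 5 ∧ (p + q + 1) % 4 = 0))
      ∨ (j = 2 ∧ n = 1 ∧ q ≤ p + 11 ∧ p + 5 ≤ q ∧ ¬ ((p + q + 1) % 2 = 0 ∧ q ≤ p + 5 ∧ (p + q + 1) % 4 = 0))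
      ∨ (j = 2 ∧ n = 2 ∧ ((q ≤ p + 5) ∨ (11 ≤ q ∧ q ≤ p + 11 ∧ p + 6 ≤ q)) ∧ ¬ (((p + q + 1) % 2 = 1 ∧ p + 6 ≤ q ∧ p % 2 = 0) ∨ ((p + q + 1) % 2 = 1 ∧ q ≤ p + 6 ∧ (p + q + 2) % 4 = 0)))
      ∨ (j = 2 ∧ n = 3 ∧ ((7 ≤ p ∧ q ≤ p + 11) ∨ (13 ≤ q ∧ q ≤ p + 11 ∧ p + 6 ≤ q)) ∧ ¬ ((p + q + 1) % 2 = 0 ∧ q ≤ p + 5 ∧ (p + q + 3) % 4 = 0))
      ∨ (j = 2 ∧ n = 4 ∧ 9 ≤ p ∧ q ≤ p + 11 ∧ ¬ (((p + q + 1) % 2 = 1 ∧ p + 6 ≤ q ∧ p % 2 = 1) ∨ ((p + q + 1) % 2 = 1 ∧ q ≤ p + 6 ∧ (p + q + 0) % 4 = 0)))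
      ∨ (j = 4 ∧ n = 3 ∧ 4 ≤ p ∧ q ≤ p + 11 ∧ p + 5 ≤ q ∧ ¬ ((p + q + 1) % 2 = 0 ∧ q ≤ p + 5 ∧ (p + q + 1) % 4 = 0))
      ∨ (j = 1 ∧ n = 5 ∧ q ≤ p + 11 ∧ p + 0 ≤ q)
      ∨ (j = 1 ∧ n = 4 ∧ q ≤ p + 11 ∧ p + 0 ≤ q)
      ∨ (j = 1 ∧ n = 3 ∧ q ≤ p + 11 ∧ p + 0 ≤ q)
      ∨ (j = 1 ∧ n = 2 ∧ q ≤ p + 11 ∧ p + 0 ≤ q)
      ∨ (j = 1 ∧ n = 1 ∧ q ≤ p + 11 ∧ p + 0 ≤ q)
      ∨ (j = 1 ∧ n = 6 ∧ q ≤ p + 11 ∧ p + 0 ≤ q)
      ∨ (j = 7 ∧ n = 6 ∧ 10 ≤ p ∧ q ≤ p + 11 ∧ p + 9 ≤ q)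
      ∨ (j = 9 ∧ n = 6 ∧ 10 ≤ p ∧ q ≤ p + 11 ∧ p + 8 ≤ q)
      ∨ (j = 3 ∧ n = 2 ∧ q ≤ p + 11 ∧ p + 9 ≤ q)
      ∨ (j = 3 ∧ n = 4 ∧ 4 ≤ p ∧ q ≤ p + 11 ∧ p + 10 ≤ q)
      ∨ (j = 5 ∧ n = 4 ∧ 4 ≤ p ∧ q ≤ p + 11 ∧ p + 9 ≤ q)
      ∨ (j = 2 ∧ n = 3 ∧ q ≤ p + 11 ∧ p + 10 ≤ q)
      ∨ (j = 3 ∧ n = 3 ∧ q ≤ p + 11 ∧ p + 10 ≤ q)
      ∨ (j = 3 ∧ n = 1 ∧ q ≤ p + 11 ∧ p + 9 ≤ q)
      ∨ (j = 5 ∧ n = 3 ∧ q ≤ p + 11 ∧ p + 9 ≤ q)
      ∨ (j = 2 ∧ n = 5 ∧ 5 ≤ p ∧ q ≤ p + 11 ∧ p + 11 ≤ q)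
      ∨ (j = 3 ∧ n = 5 ∧ 5 ≤ p ∧ q ≤ p + 11 ∧ p + 11 ≤ q)
      ∨ (j = 4 ∧ n = 5 ∧ 5 ≤ p ∧ q ≤ p + 11 ∧ p + 10 ≤ q)
      ∨ (j = 5 ∧ n = 5 ∧ 5 ≤ p ∧ q ≤ p + 11 ∧ p + 10 ≤ q)
      ∨ (j = 6 ∧ n = 5 ∧ 5 ≤ p ∧ q ≤ p + 11 ∧ p + 9 ≤ q)
      ∨ (j = 7 ∧ n = 5 ∧ 5 ≤ p ∧ q ≤ p + 11 ∧ p + 9 ≤ q)
      ∨ (j = 9 ∧ n = 6 ∧ 12 ≤ p ∧ q ≤ p + 11 ∧ p + 6 ≤ q)
      ∨ (j = 7 ∧ n = 4 ∧ 6 ≤ p ∧ q ≤ p + 11 ∧ p + 6 ≤ q)
      ∨ (j = 7 ∧ n = 3 ∧ 6 ≤ p ∧ q ≤ p + 11 ∧ p + 6 ≤ q)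
      ∨ (j = 8 ∧ n = 5 ∧ 7 ≤ p ∧ q ≤ p + 11 ∧ p + 6 ≤ q)
      ∨ (j = 9 ∧ n = 5 ∧ 7 ≤ p ∧ q ≤ p + 11 ∧ p + 6 ≤ q)
      ∨ (j = 4 ∧ n = 6 ∧ p = 9 ∧ q = 19)))
    648
    0xe16030ec5800ed29a0e9e050de2000e9e8a0de2010dd6000dd68a0d33800defba0e9f000e9f8a1fec051a67001ff8921a741a1a73001a730114ed8014ed810f68000f68010eb8000eb8010def800def811fec051a67001ff8921a741a1a73001a730114ed8014ed810f68000f68010f67000f67010eaa800eaa810de2000de2010dfc000dd6000dfc010dd68a0d33800d338419158319c48019c4840f688314e08014e0840dd6830de3000de3040eaa830f5a000f5a042af5831f49801f498414ef0314ef8014ef840f770314ef0014ef040f838314fb8014fb84241f0324ce002af5ea1ff8801ff88414fb8314fc0014fc040f690314e10014e10419080319b78019b78419150319c40019c40418fa8318fb0018fb041e9a031f49001f490419220319d10019d10419080319b70019b7042405832412002412041e9a051915001e9a8a19221a19d18019d18435f2032af5002af50419c4831f3c801f3c8429a383241200298aca23f90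023f9040e9f800e9f8419148319c38019c3842997032a46002a46041915031e8d001e8d040c6b030d1a800d1a840f5d000f69920f76000e0c800f831a0e19120e0b800e0b810e0a800df2000e0a810df2010df1000df1010dd7000dd78a0c5f8011e4da0c78800c85120d41000d4d920e09800e16120ed2000ed2040f82000e08000dee000f8f1a0e08010d4b800d3f800dee010d31800d2580237b80186480184a8017d10017d00017b7001769001507800e26000e25000e24000dd8000d67800d59800cd4000cd3000cbb000cba000cb9000ca1000ca0000c9f000c9d000c91000d4b810c8f000c86000d3f810c83000c77000d31810c75000c6d000d25810c69000c5d000bc8800bae8035f20735f18735e58735e5073543073542873536873536073079872fcb072fca872fbe872fbe072af5872ae9072ae8872a46872a3a072a398729a38729a307299707299687298a87298a07297e07297d8728f48728f40728e80728e78728db8728db0728cf0728ce8725708724ce8724c20724c187242b8724128723f887237c87237c07237b8f237007236f87236387236307235707235687235607234a072349871f3d071e9a871e8e071e8d871e81071e80871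deb871ddf071dde871dd2071dd1871a80871a74071a67871a668719c50719b88719b80719228719218719088719078718ed8718738718730718728718670718668718660718658718650718648f185a07185987185907185887184c87184c07184b87184b07184a8f183f07183e8717d10f17d00f17b70f17690f15078f14408714338713910712e20711e48711d80711d7871135871129071128870f8e870f76870f75870f5c870f5b870f5a870ee0070edf870ebb870e260f0e250f0e240f0e23870e23070e18870e16870e15870dfe870dfd870dfc870dfb870de5870de4870de3870de2870de1870dd80f0dca870dc9870d6a070d69870d678f0d67070d66870d5d870d5d070d5c870d5c070d5b870d5b070d5a870d5a070d598f0d59070d58870d50070d4f870d4f070d4e870d43070d42870d42070d36870d36070d35870d1c070cd40f0cd30f0cbb0f0cba0f0cb90f0ca10f0ca00f0c9f0f0c9e870c9e070c9d0f0c9c870c9c070c92070c91870c910f0c90870c90070c8f870c8f0f0c860f0c84870c84070c83870c830f0c82870c82070c770f0c76870c76070c75870c750f0c6d0f0c6c870c6a870c6a070c69870c690f0c60070c5d0f0bd6070bd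5870bc9870bc9070bc88f0bbd870bbd070bbc070bbb870bb1070bb0870baf870baf070bae8f0a17070a16870a0b870a0b070a0a870a0a0709ff0709fe8709fe0709f28709f20709f18709f10709f08709f00709ef8709ef0709ee8709e50709e48709e40709e38709e30709e28709e207096807096787095c87095c07095b87095b07095a87095a07095007094f87094f07094e07094d87094387094307094287094207094187094107094087094007093f87093607093587093507093487093407093387093307093287093207092787092707092687092607092587091b07091a87091a0709198708ab8708ab0708a10708a087089f07089e87089e07089d87089487089407089387089307089287089207089187089107089087089007088f87088707088687088607088587088487088407088387088307087a07087987087907087887087807087787087707087687087607087587086d87086d07086c87086c07086b87086b07086a87086a07086987086907085f87085f07085e87085e07085d87085d0708530708528708520708518707f20707f18707ef0707ee8707e58707e50707e48707e40707e38707e30707e28707e20707e10707e08707d80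707d78707d70707d68707d58707d50707d48707d40707d38707d30707cb0707ca8707ca0707c98707c90707c88707c80707c78707c70707c68707be8707be0707bd8707bd0707bc0707bb8707bb0707ba8707ba0707b98707b90707b08707b00707af8707af0707ae8707ae0707ad8707ad0707ac8707a40707a38707a30707a28707a10707a087072687072607072487072407071a07071987071887071807071787070d07070c87070c07070b87070a87070a0707008707000706fe8706fe0706fd8706f30706f28706f20706f18706e68706e607065e07065d87065187065107064407064387063787063707 = true := by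
  decide +kernel

/-- `E`, the in-line `x = X - 7` of `6 k` in the row `c - 2` present and the in-line `x = X - 1` of `6 k + 2` in the row `c` missing => contradiction. -/
theorem x2_w3 (hf : Rule f) {k c n X : ℕ} (H : PL f k c n (n - 4)) (hX : 2 * n + 2 ≤ X) (hX2 : X % 2 = 0)
    (D0 : Cyc f (6 * k) (c - 2) (X - 2)) (D0a : Cyc f (6 * k) (c - 6) (X - 6 - 2 * k))
    (e : f (6 * k + 1) c X (X + 2 - 2 * k))
    (C4a : Cyc f (6 * k + 4) (c - 6) (2 * (n - (k + 1)) + 2))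
    (g1 : f (6 * k) (c - 2) (X - 7) (X - 2 - 2 * k))
    (g2 : ¬ f (6 * k + 2) c (X - 1) (X + 4 - 2 * k)) : False := by
  have hk := H.T.hk
  have hc := H.T.hc
  have h4' := H.T.h4
  have hb := H.T.hb
  have hN := H.T.hN2
  obtain ⟨a0, ha0⟩ : ∃ z, z + 2 = 6 * k := ⟨6 * k - (2), by omega⟩
  obtain ⟨b0, hb0⟩ : ∃ z, z + 6 = c := ⟨c - (6), by omega⟩
  obtain ⟨x0, hx0⟩ : ∃ z, z + 10 = X := ⟨X - (10), by omega⟩
  obtain ⟨y0, hy0⟩ : ∃ z, z + 2 * k + 15 = X := ⟨X - (2 * k + 15), by omega⟩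
  refine check_sound hf (a0 := a0) (b0 := b0) (x0 := x0) (y0 := y0) x2_w3_chk
    ⟨fun h => absurd h (by decide), fun h => absurd h (by decide), fun h => absurd h (by decide), by omega, by omega,
      by omega, by omega⟩ ?_ ?_
  · intro j m p q hr h
    obtain ⟨-, -, -, -, hp1, hp2, hq1, hq2⟩ := hr
    replace h := of_decide_eq_true h
    rcases h with h | h | h | h | h | h | h | h | h
    · obtain ⟨rfl, rfl, h⟩ := h
      exact (WrapC.v3 C4a (by omega) (by omega) (by omega) (by omega) (by omega) (by omega) (by omega) (by omega)).mpr (by omega)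
    · obtain ⟨rfl, rfl, h⟩ := h
      exact (WrapC.v1 D0a (by omega) (by omega) (by omega) (by omega) (by omega) (by omega) (by omega) (by omega)).mpr (by omega)
    · obtain ⟨rfl, rfl, h⟩ := h
      exact (WrapC.v2 D0a (by omega) (by omega) (by omega) (by omega) (by omega) (by omega) (by omega)).mpr (by omega)
    · obtain ⟨rfl, rfl, h⟩ := h
      exact (WrapC.v3 D0a (by omega) (by omega) (by omega) (by omega) (by omega) (by omega) (by omega) (by omega)).mpr (by omega)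
    · obtain ⟨rfl, rfl, h⟩ := h
      exact (WrapC.v4 D0a (by omega) (by omega) (by omega) (by omega) (by omega) (by omega) (by omega)).mpr (by omega)
    · obtain ⟨rfl, rfl, h⟩ := h
      exact (WrapC.v0 H.c2 (by omega) (by omega) (by omega) (by omega) (by omega) (by omega) (by omega)).mpr (by omega)
    · obtain ⟨rfl, rfl, h⟩ := h
      exact (WrapC.v1 H.c2 (by omega) (by omega) (by omega) (by omega) (by omega) (by omega) (by omega) (by omega)).mpr (by omega)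
    · obtain ⟨rfl, rfl, rfl, rfl⟩ := h
      exact mv e (by omega) (by omega) (by omega) (by omega)
    · obtain ⟨rfl, rfl, rfl, rfl⟩ := h
      exact mv g1 (by omega) (by omega) (by omega) (by omega)
  · intro j m p q hr h
    obtain ⟨-, -, -, -, hp1, hp2, hq1, hq2⟩ := hr
    replace h := of_decide_eq_true h
    rcases h with h | h | h | h | h | h | h | h | h | h | h | h | h | h | h | h | h | h | h | h | h | h | h | h | h | h | h | h | h | h | h | h | h | h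
    · obtain ⟨rfl, rfl, h⟩ := h
      exact mt (WrapC.v3 C4a (by omega) (by omega) (by omega) (by omega) (by omega) (by omega) (by omega) (by omega)).mp (by omega)
    · obtain ⟨rfl, rfl, h⟩ := h
      exact mt (WrapC.v1 D0 (by omega) (by omega) (by omega) (by omega) (by omega) (by omega) (by omega) (by omega)).mp (by omega)
    · obtain ⟨rfl, rfl, h⟩ := h
      exact mt (WrapC.v1 D0a (by omega) (by omega) (by omega) (by omega) (by omega) (by omega) (by omega) (by omega)).mp (by omega)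
    · obtain ⟨rfl, rfl, h⟩ := h
      exact mt (WrapC.v2 D0a (by omega) (by omega) (by omega) (by omega) (by omega) (by omega) (by omega)).mp (by omega)
    · obtain ⟨rfl, rfl, h⟩ := h
      exact mt (WrapC.v3 D0a (by omega) (by omega) (by omega) (by omega) (by omega) (by omega) (by omega) (by omega)).mp (by omega)
    · obtain ⟨rfl, rfl, h⟩ := h
      exact mt (WrapC.v4 D0a (by omega) (by omega) (by omega) (by omega) (by omega) (by omega) (by omega)).mp (by omega)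
    · obtain ⟨rfl, rfl, h⟩ := h
      exact mt (WrapC.v1 H.c2 (by omega) (by omega) (by omega) (by omega) (by omega) (by omega) (by omega) (by omega)).mp (by omega)
    · obtain ⟨rfl, rfl, h⟩ := h
      exact H.lw _ _ _ _ (by omega) (by omega) (by omega) (by omega) (by omega) (by omega)
    · obtain ⟨rfl, rfl, h⟩ := h
      exact H.lw _ _ _ _ (by omega) (by omega) (by omega) (by omega) (by omega) (by omega)
    · obtain ⟨rfl, rfl, h⟩ := h
      exact H.lw _ _ _ _ (by omega) (by omega) (by omega) (by omega) (by omega) (by omega)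
    · obtain ⟨rfl, rfl, h⟩ := h
      exact H.lw _ _ _ _ (by omega) (by omega) (by omega) (by omega) (by omega) (by omega)
    · obtain ⟨rfl, rfl, h⟩ := h
      exact H.lw _ _ _ _ (by omega) (by omega) (by omega) (by omega) (by omega) (by omega)
    · obtain ⟨rfl, rfl, h⟩ := h
      exact H.lw _ _ _ _ (by omega) (by omega) (by omega) (by omega) (by omega) (by omega)
    · obtain ⟨rfl, rfl, h⟩ := h
      exact NHT.p0i hf H.T (j := 2) (by omega) (by omega) (by omega) (by omega) (by omega) (by omega)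
    · obtain ⟨rfl, rfl, h⟩ := h
      exact NHT.p0i hf H.T (j := 1) (by omega) (by omega) (by omega) (by omega) (by omega) (by omega)
    · obtain ⟨rfl, rfl, h⟩ := h
      exact NHT.pIn hf H.T (t := 3) (j := 2) (by omega) (by omega) (by omega) (by omega) (by omega) (by omega) (by omega)
    · obtain ⟨rfl, rfl, h⟩ := h
      exact NHT.pmi hf H.T (j := 3) (by omega) (by omega) (by omega) (by omega) (by omega) (by omega)
    · obtain ⟨rfl, rfl, h⟩ := h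
      exact NHT.pmi hf H.T (j := 2) (by omega) (by omega) (by omega) (by omega) (by omega) (by omega)
    · obtain ⟨rfl, rfl, h⟩ := h
      exact NHT.rIn hf H.T (t := 3) (p := 0) (j := 3) (by omega) (by omega) (by omega) (by omega) (by omega) (by omega) (by omega) (by omega)
    · obtain ⟨rfl, rfl, h⟩ := h
      exact NHT.rIn hf H.T (t := 3) (p := 1) (j := 3) (by omega) (by omega) (by omega) (by omega) (by omega) (by omega) (by omega) (by omega)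
    · obtain ⟨rfl, rfl, h⟩ := h
      exact NHT.rIn hf H.T (t := 2) (p := 1) (j := 2) (by omega) (by omega) (by omega) (by omega) (by omega) (by omega) (by omega) (by omega)
    · obtain ⟨rfl, rfl, h⟩ := h
      exact NHT.rIn hf H.T (t := 3) (p := 1) (j := 2) (by omega) (by omega) (by omega) (by omega) (by omega) (by omega) (by omega) (by omega)
    · obtain ⟨rfl, rfl, h⟩ := h
      exact fun t => NHT.rm1i hf H.T (p := 0) (j := 4) (by omega) (by omega) (by omega) (by omega) (by omega) (by omega) (mv t rfl (by omega) rfl rfl)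
    · obtain ⟨rfl, rfl, h⟩ := h
      exact fun t => NHT.rm1i hf H.T (p := 1) (j := 4) (by omega) (by omega) (by omega) (by omega) (by omega) (by omega) (mv t rfl (by omega) rfl rfl)
    · obtain ⟨rfl, rfl, h⟩ := h
      exact fun t => NHT.rm1i hf H.T (p := 0) (j := 3) (by omega) (by omega) (by omega) (by omega) (by omega) (by omega) (mv t rfl (by omega) rfl rfl)
    · obtain ⟨rfl, rfl, h⟩ := h
      exact fun t => NHT.rm1i hf H.T (p := 1) (j := 3) (by omega) (by omega) (by omega) (by omega) (by omega) (by omega) (mv t rfl (by omega) rfl rfl)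
    · obtain ⟨rfl, rfl, h⟩ := h
      exact fun t => NHT.rm1i hf H.T (p := 0) (j := 2) (by omega) (by omega) (by omega) (by omega) (by omega) (by omega) (mv t rfl (by omega) rfl rfl)
    · obtain ⟨rfl, rfl, h⟩ := h
      exact fun t => NHT.rm1i hf H.T (p := 1) (j := 2) (by omega) (by omega) (by omega) (by omega) (by omega) (by omega) (mv t rfl (by omega) rfl rfl)
    · obtain ⟨rfl, rfl, h⟩ := h
      exact NHU.p0i hf H.U (j := 1) (by omega) (by omega) (by omega) (by omega) (by omega) (by omega)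
    · obtain ⟨rfl, rfl, h⟩ := h
      exact NHU.pmi hf H.U (j := 1) (by omega) (by omega) (by omega) (by omega) (by omega) (by omega)
    · obtain ⟨rfl, rfl, h⟩ := h
      exact NHU.pmi hf H.U (j := 1) (by omega) (by omega) (by omega) (by omega) (by omega) (by omega)
    · obtain ⟨rfl, rfl, h⟩ := h
      exact fun t => NHU.rm1i hf H.U (p := 0) (j := 1) (by omega) (by omega) (by omega) (by omega) (by omega) (by omega) (mv t rfl (by omega) rfl rfl)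
    · obtain ⟨rfl, rfl, h⟩ := h
      exact fun t => NHU.rm1i hf H.U (p := 1) (j := 1) (by omega) (by omega) (by omega) (by omega) (by omega) (by omega) (mv t rfl (by omega) rfl rfl)
    · obtain ⟨rfl, rfl, rfl, rfl⟩ := h
      exact fun t => g2 (mv t (by omega) (by omega) (by omega) (by omega))

end Pool.Agent.SNT.L0E
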