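import Pool.Agent.SNT.PL

set_option autoImplicit false
set_option synthInstance.maxSize 100000
set_option synthInstance.maxHeartbeats 4000000

/-! The E-cell of the road L0 at the special position `X' = 2`: near-diagonal windows of the layer `6 k`. -/

namespace Pool.Agent.SNT.L0X

open Pool.Agent.SNT Pool.Agent.SNT.Sig Pool.Agent.SNT.Loc Pool.Agent.SNT.LW Pool.Agent.SNT.NHZ Pool.Agent.SNT.DRun Pool.Agent.SNT.D1E

variable {f : ℕ → ℕ → ℕ → ℕ → Prop}

theorem d1a_chk : check 12 7 21 21 0 1 1 1 2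
    (fun j n p q => decide ((j = 2 ∧ n = 3 ∧ q ≤ p ∧ 12 ≤ p ∧ p ≤ q + 14 ∧ ((p + q) % 2 = 1 ∧ p % 2 = 0))
      ∨ (j = 2 ∧ n = 1 ∧ q ≤ p ∧ p ≤ q + 14 ∧ ((p + q) % 2 = 1 ∧ p % 2 = 1))
      ∨ (j = 2 ∧ n = 2 ∧ q ≤ p ∧ p ≤ q + 14 ∧ (p = q ∧ p % 2 = 0))
      ∨ (j = 4 ∧ n = 1 ∧ q ≤ p ∧ 6 ≤ p ∧ p ≤ q + 14 ∧ ((p + q) % 2 = 1 ∧ p % 2 = 0))
      ∨ (j = 4 ∧ n = 2 ∧ q ≤ p ∧ 7 ≤ p ∧ p ≤ q + 14 ∧ (p = q ∧ p % 2 = 1))
      ∨ (j = 4 ∧ n = 3 ∧ q ≤ p ∧ 7 ≤ q ∧ p ≤ q + 14 ∧ ((p + q) % 2 = 1 ∧ p % 2 = 1))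
      ∨ (j = 2 ∧ n = 3 ∧ p = 8 ∧ q = 3)
      ∨ (j = 4 ∧ n = 5 ∧ p = 14 ∧ q = 9)))
    (fun j n p q => decide ((j = 2 ∧ n = 3 ∧ q ≤ p ∧ 12 ≤ p ∧ p ≤ q + 14 ∧ ¬ ((p + q) % 2 = 1 ∧ p % 2 = 0))
      ∨ (j = 2 ∧ n = 1 ∧ q ≤ p ∧ p ≤ q + 14 ∧ ¬ ((p + q) % 2 = 1 ∧ p % 2 = 1))
      ∨ (j = 2 ∧ n = 2 ∧ q ≤ p ∧ p ≤ q + 14 ∧ ¬ (p = q ∧ p % 2 = 0))
      ∨ (j = 4 ∧ n = 1 ∧ q ≤ p ∧ 6 ≤ p ∧ p ≤ q + 14 ∧ ¬ ((p + q) % 2 = 1 ∧ p % 2 = 0))
      ∨ (j = 4 ∧ n = 2 ∧ q ≤ p ∧ 7 ≤ p ∧ p ≤ q + 14 ∧ ¬ (p = q ∧ p % 2 = 1))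
      ∨ (j = 4 ∧ n = 3 ∧ q ≤ p ∧ 7 ≤ q ∧ p ≤ q + 14 ∧ ¬ ((p + q) % 2 = 1 ∧ p % 2 = 1))
      ∨ (j = 1 ∧ n = 1 ∧ q ≤ p)
      ∨ (j = 1 ∧ n = 2 ∧ q ≤ p)
      ∨ (j = 1 ∧ n = 3 ∧ q ≤ p)
      ∨ (j = 1 ∧ n = 4 ∧ q ≤ p)
      ∨ (j = 3 ∧ n = 3 ∧ 5 ≤ q ∧ q + 3 ≤ p ∧ p ≤ q + 12)
      ∨ (j = 3 ∧ n = 5 ∧ 9 ≤ q ∧ q + 4 ≤ p ∧ p ≤ q + 11)
      ∨ (j = 5 ∧ n = 5 ∧ 9 ≤ q ∧ q + 3 ≤ p ∧ p ≤ q + 12)
      ∨ (j = 2 ∧ n = 3 ∧ p = 10 ∧ q = 5)
      ∨ (j = 2 ∧ n = 5 ∧ p = 15 ∧ q = 10)))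
    132
    0x17080310eb0016f34a0ff9800ff9810fe4000f11800fe4010ef2000f11810efc000ef2010f10800efc010edd001d05000f1b120efb000efb0e2317521d04001b56001b41000f3d000f3c000f28000f27000f2600150d520efa000e36000e20000e1f8e0e1f0e0e0a000d4c000d370009dc0e08ff8e08f48e08f40e08e98e08180e08178e080d0e231707231687230c87230c071d0f871d040f1b560f1b410f17080717078716fd07150d0715028711008711000710eb870f3d0f0f3c0f0f280f0f270f0f260f0f1c870f1a870f10070f07870f06870f05870efa0f0ef1870e3e870e3e070e360f0e35070e34870e34070e33870e2a870e2a070e29070e28870e200f0e1f870e1f070e1e870e1e070e15070e14870e0a0f0d4c0f0d370f09f20709f18709e78709e70709dc8709dc0709d187091587091507091387091307090b07090a87090a0709098709090709088709000708ff8708ff0708f50708f48708f40708ea0708e987083707083687082d87082d07082c87082c07082307082287081807081787080d87080d07 = true := by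
  decide +kernel

theorem d1a (hf : Rule f) {k c n : ℕ} (H : PL f k c n (n - 4))
    (D0 : Cyc f (6 * k) (c - 2) (2 * n))
    (D0a : Cyc f (6 * k) (c - 6) (2 * n - 4 - 2 * k))
    (h0 : f (6 * k) (c - 2) (2 * n - 3) (2 * n - 8))
    (h1 : f (6 * k + 2) c (2 * n + 3) (2 * n - 2))
    (z0 : ¬ f (6 * k) (c - 2) (2 * n - 1) (2 * n - 6))
    (z1 : ¬ f (6 * k) c (2 * n + 4) (2 * n - 1)) : False := by
  have hk := H.T.hk
  have hc := H.T.hc
  have h4' := H.T.h4
  have hb := H.T.hb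
  have hN := H.T.hN2
  obtain ⟨a0, ha0⟩ : ∃ z, z + 2 = 6 * k := ⟨6 * k - 2, by omega⟩
  obtain ⟨b0, hb0⟩ : ∃ z, z + 5 = c := ⟨c - 5, by omega⟩
  obtain ⟨x0, hx0⟩ : ∃ z, z + 11 = 2 * n := ⟨2 * n - 11, by omega⟩
  refine check_sound hf (a0 := a0) (b0 := b0) (x0 := x0) (y0 := x0) d1a_chk
    ⟨fun _ => rfl, fun h => absurd h (by decide), fun h => absurd h (by decide), by omega, by omega,
      by omega, by omega⟩ ?_ ?_
  · intro j m p q hr h
    obtain ⟨-, -, -, -, hp1, hp2, hq1, hq2⟩ := hr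
    replace h := of_decide_eq_true h
    rcases h with h | h | h | h | h | h | h | h
    · obtain ⟨rfl, rfl, h⟩ := h
      exact (WrapC.v0 D0 (by omega) (by omega) (by omega) (by omega) (by omega) (by omega) (by omega)).mpr (by omega)
    · obtain ⟨rfl, rfl, h⟩ := h
      exact (WrapC.v2 D0a (by omega) (by omega) (by omega) (by omega) (by omega) (by omega) (by omega)).mpr (by omega)
    · obtain ⟨rfl, rfl, h⟩ := h
      exact (WrapC.v3 D0a (by omega) (by omega) (by omega) (by omega) (by omega) (by omega) (by omega) (by omega)).mpr (by omega)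
    · obtain ⟨rfl, rfl, h⟩ := h
      exact (WrapC.v0 H.c2 (by omega) (by omega) (by omega) (by omega) (by omega) (by omega) (by omega)).mpr (by omega)
    · obtain ⟨rfl, rfl, h⟩ := h
      exact (WrapC.v1 H.c2 (by omega) (by omega) (by omega) (by omega) (by omega) (by omega) (by omega) (by omega)).mpr (by omega)
    · obtain ⟨rfl, rfl, h⟩ := h
      exact (WrapC.v2 H.c2 (by omega) (by omega) (by omega) (by omega) (by omega) (by omega) (by omega)).mpr (by omega)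
    · obtain ⟨rfl, rfl, rfl, rfl⟩ := h
      exact mv h0 (by omega) (by omega) (by omega) (by omega)
    · obtain ⟨rfl, rfl, rfl, rfl⟩ := h
      exact mv h1 (by omega) (by omega) (by omega) (by omega)
  · intro j m p q hr h
    obtain ⟨-, -, -, -, hp1, hp2, hq1, hq2⟩ := hr
    replace h := of_decide_eq_true h
    rcases h with h | h | h | h | h | h | h | h | h | h | h | h | h | h | h
    · obtain ⟨rfl, rfl, h⟩ := h
      exact mt (WrapC.v0 D0 (by omega) (by omega) (by omega) (by omega) (by omega) (by omega) (by omega)).mp (by omega)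
    · obtain ⟨rfl, rfl, h⟩ := h
      exact mt (WrapC.v2 D0a (by omega) (by omega) (by omega) (by omega) (by omega) (by omega) (by omega)).mp (by omega)
    · obtain ⟨rfl, rfl, h⟩ := h
      exact mt (WrapC.v3 D0a (by omega) (by omega) (by omega) (by omega) (by omega) (by omega) (by omega) (by omega)).mp (by omega)
    · obtain ⟨rfl, rfl, h⟩ := h
      exact mt (WrapC.v0 H.c2 (by omega) (by omega) (by omega) (by omega) (by omega) (by omega) (by omega)).mp (by omega)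
    · obtain ⟨rfl, rfl, h⟩ := h
      exact mt (WrapC.v1 H.c2 (by omega) (by omega) (by omega) (by omega) (by omega) (by omega) (by omega) (by omega)).mp (by omega)
    · obtain ⟨rfl, rfl, h⟩ := h
      exact mt (WrapC.v2 H.c2 (by omega) (by omega) (by omega) (by omega) (by omega) (by omega) (by omega)).mp (by omega)
    · obtain ⟨rfl, rfl, h⟩ := h
      exact H.lw _ _ _ _ (by omega) (by omega) (by omega) (by omega) (by omega) (by omega)
    · obtain ⟨rfl, rfl, h⟩ := h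
      exact H.lw _ _ _ _ (by omega) (by omega) (by omega) (by omega) (by omega) (by omega)
    · obtain ⟨rfl, rfl, h⟩ := h
      exact H.lw _ _ _ _ (by omega) (by omega) (by omega) (by omega) (by omega) (by omega)
    · obtain ⟨rfl, rfl, h⟩ := h
      exact H.lw _ _ _ _ (by omega) (by omega) (by omega) (by omega) (by omega) (by omega)
    · obtain ⟨rfl, rfl, h⟩ := h
      exact NHT.pm hf H.T (j := 2) (by omega) (by omega) (by omega) (by omega) (by omega) (by omega)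
    · obtain ⟨rfl, rfl, h⟩ := h
      exact NHT.p0 hf H.T (j := 3) (by omega) (by omega) (by omega) (by omega) (by omega) (by omega)
    · obtain ⟨rfl, rfl, h⟩ := h
      exact NHT.p0 hf H.T (j := 2) (by omega) (by omega) (by omega) (by omega) (by omega) (by omega)
    · obtain ⟨rfl, rfl, rfl, rfl⟩ := h
      exact fun t => z0 (mv t (by omega) (by omega) (by omega) (by omega))
    · obtain ⟨rfl, rfl, rfl, rfl⟩ := h
      exact fun t => z1 (mv t (by omega) (by omega) (by omega) (by omega))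

theorem d1b_chk : check 12 7 21 21 0 1 1 1 2
    (fun j n p q => decide ((j = 2 ∧ n = 3 ∧ q ≤ p ∧ 12 ≤ p ∧ p ≤ q + 14 ∧ ((p + q) % 2 = 1 ∧ p % 2 = 0))
      ∨ (j = 2 ∧ n = 1 ∧ q ≤ p ∧ p ≤ q + 14 ∧ ((p + q) % 2 = 1 ∧ p % 2 = 1))
      ∨ (j = 2 ∧ n = 2 ∧ q ≤ p ∧ p ≤ q + 14 ∧ (p = q ∧ p % 2 = 0))
      ∨ (j = 2 ∧ n = 3 ∧ p = 8 ∧ q = 3)
      ∨ (j = 4 ∧ n = 5 ∧ p = 14 ∧ q = 9)
      ∨ (j = 2 ∧ n = 5 ∧ p = 17 ∧ q = 12)))
    (fun j n p q => decide ((j = 2 ∧ n = 3 ∧ q ≤ p ∧ 12 ≤ p ∧ p ≤ q + 14 ∧ ¬ ((p + q) % 2 = 1 ∧ p % 2 = 0))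
      ∨ (j = 2 ∧ n = 1 ∧ q ≤ p ∧ p ≤ q + 14 ∧ ¬ ((p + q) % 2 = 1 ∧ p % 2 = 1))
      ∨ (j = 2 ∧ n = 2 ∧ q ≤ p ∧ p ≤ q + 14 ∧ ¬ (p = q ∧ p % 2 = 0))
      ∨ (j = 1 ∧ n = 1 ∧ q ≤ p)
      ∨ (j = 1 ∧ n = 2 ∧ q ≤ p)
      ∨ (j = 1 ∧ n = 3 ∧ q ≤ p)
      ∨ (j = 1 ∧ n = 4 ∧ q ≤ p)
      ∨ (j = 1 ∧ n = 5 ∧ q ≤ p)
      ∨ (j = 2 ∧ n = 3 ∧ p = 10 ∧ q = 5)))
    118
    0xff9830ffa0010e1ba10e20010ec0010e28a0f118010f69210e3000f118111010010e38a0f108010e4000f2000110b920f1f000f1e000f1b1211160011160e0f52000f520e0f3d000f3d0e0f28000f280e0f26000e36000e20000b040e0b038e0af98e0af90e0aef0e0aee8e0ae48e0ae40e0ad98e0a278e0a270e0a1d0e0a1c8e0a128e0a120e0a080e0a078e09fd0e11160f11008710eb8710d88710d78710d6870f520f0f3d0f0f280f0f260f0f1c870f1a870f10070f06870e3e870e3e070e360f0e35070e34870e34070e33870e2a870e2a070e200f0b04070b03870af9870af9070aef070aee870ae4870ae4070ada070ad9870acf070a27870a27070a1d070a1c870a12870a12070a08070a078709fd8709fd0709f28709f20709f18709e78709e707091587091507091387091307090b07090a87090a0709098709090709088708ff8708ff07083707083687082d87082d07082c87082c07082307082287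 = true := by
  decide +kernel

theorem d1b (hf : Rule f) {k c n : ℕ} (H : PL f k c n (n - 4))
    (D0 : Cyc f (6 * k) (c - 2) (2 * n))
    (D0a : Cyc f (6 * k) (c - 6) (2 * n - 4 - 2 * k))
    (h0 : f (6 * k) (c - 2) (2 * n - 3) (2 * n - 8))
    (h1 : f (6 * k + 2) c (2 * n + 3) (2 * n - 2))
    (h2 : f (6 * k) c (2 * n + 6) (2 * n + 1))
    (z0 : ¬ f (6 * k) (c - 2) (2 * n - 1) (2 * n - 6)) : False := by
  have hk := H.T.hk
  have hc := H.T.hc
  have h4' := H.T.h4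
  have hb := H.T.hb
  have hN := H.T.hN2
  obtain ⟨a0, ha0⟩ : ∃ z, z + 2 = 6 * k := ⟨6 * k - 2, by omega⟩
  obtain ⟨b0, hb0⟩ : ∃ z, z + 5 = c := ⟨c - 5, by omega⟩
  obtain ⟨x0, hx0⟩ : ∃ z, z + 11 = 2 * n := ⟨2 * n - 11, by omega⟩
  refine check_sound hf (a0 := a0) (b0 := b0) (x0 := x0) (y0 := x0) d1b_chk
    ⟨fun _ => rfl, fun h => absurd h (by decide), fun h => absurd h (by decide), by omega, by omega,
      by omega, by omega⟩ ?_ ?_
  · intro j m p q hr h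
    obtain ⟨-, -, -, -, hp1, hp2, hq1, hq2⟩ := hr
    replace h := of_decide_eq_true h
    rcases h with h | h | h | h | h | h
    · obtain ⟨rfl, rfl, h⟩ := h
      exact (WrapC.v0 D0 (by omega) (by omega) (by omega) (by omega) (by omega) (by omega) (by omega)).mpr (by omega)
    · obtain ⟨rfl, rfl, h⟩ := h
      exact (WrapC.v2 D0a (by omega) (by omega) (by omega) (by omega) (by omega) (by omega) (by omega)).mpr (by omega)
    · obtain ⟨rfl, rfl, h⟩ := h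
      exact (WrapC.v3 D0a (by omega) (by omega) (by omega) (by omega) (by omega) (by omega) (by omega) (by omega)).mpr (by omega)
    · obtain ⟨rfl, rfl, rfl, rfl⟩ := h
      exact mv h0 (by omega) (by omega) (by omega) (by omega)
    · obtain ⟨rfl, rfl, rfl, rfl⟩ := h
      exact mv h1 (by omega) (by omega) (by omega) (by omega)
    · obtain ⟨rfl, rfl, rfl, rfl⟩ := h
      exact mv h2 (by omega) (by omega) (by omega) (by omega)
  · intro j m p q hr h
    obtain ⟨-, -, -, -, hp1, hp2, hq1, hq2⟩ := hr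
    replace h := of_decide_eq_true h
    rcases h with h | h | h | h | h | h | h | h | h
    · obtain ⟨rfl, rfl, h⟩ := h
      exact mt (WrapC.v0 D0 (by omega) (by omega) (by omega) (by omega) (by omega) (by omega) (by omega)).mp (by omega)
    · obtain ⟨rfl, rfl, h⟩ := h
      exact mt (WrapC.v2 D0a (by omega) (by omega) (by omega) (by omega) (by omega) (by omega) (by omega)).mp (by omega)
    · obtain ⟨rfl, rfl, h⟩ := h
      exact mt (WrapC.v3 D0a (by omega) (by omega) (by omega) (by omega) (by omega) (by omega) (by omega) (by omega)).mp (by omega)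
    · obtain ⟨rfl, rfl, h⟩ := h
      exact H.lw _ _ _ _ (by omega) (by omega) (by omega) (by omega) (by omega) (by omega)
    · obtain ⟨rfl, rfl, h⟩ := h
      exact H.lw _ _ _ _ (by omega) (by omega) (by omega) (by omega) (by omega) (by omega)
    · obtain ⟨rfl, rfl, h⟩ := h
      exact H.lw _ _ _ _ (by omega) (by omega) (by omega) (by omega) (by omega) (by omega)
    · obtain ⟨rfl, rfl, h⟩ := h
      exact H.lw _ _ _ _ (by omega) (by omega) (by omega) (by omega) (by omega) (by omega)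
    · obtain ⟨rfl, rfl, h⟩ := h
      exact H.lw _ _ _ _ (by omega) (by omega) (by omega) (by omega) (by omega) (by omega)
    · obtain ⟨rfl, rfl, rfl, rfl⟩ := h
      exact fun t => z0 (mv t (by omega) (by omega) (by omega) (by omega))

theorem d1c_chk : check 12 11 25 25 0 1 1 1 2
    (fun j n p q => decide ((j = 2 ∧ n = 3 ∧ q ≤ p ∧ 12 ≤ p ∧ p ≤ q + 14 ∧ ((p + q) % 2 = 1 ∧ p % 2 = 0))
      ∨ (j = 2 ∧ n = 5 ∧ q ≤ p ∧ 13 ≤ q ∧ p ≤ q + 14 ∧ ((p + q) % 2 = 1 ∧ p % 2 = 1))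
      ∨ (j = 2 ∧ n = 1 ∧ q ≤ p ∧ p ≤ q + 14 ∧ ((p + q) % 2 = 1 ∧ p % 2 = 1))
      ∨ (j = 2 ∧ n = 2 ∧ q ≤ p ∧ p ≤ q + 14 ∧ (p = q ∧ p % 2 = 0))
      ∨ (j = 4 ∧ n = 1 ∧ q ≤ p ∧ 6 ≤ p ∧ p ≤ q + 14 ∧ ((p + q) % 2 = 1 ∧ p % 2 = 0))
      ∨ (j = 4 ∧ n = 2 ∧ q ≤ p ∧ 7 ≤ p ∧ p ≤ q + 14 ∧ (p = q ∧ p % 2 = 1))
      ∨ (j = 4 ∧ n = 3 ∧ q ≤ p ∧ 7 ≤ q ∧ p ≤ q + 14 ∧ ((p + q) % 2 = 1 ∧ p % 2 = 1))
      ∨ (j = 2 ∧ n = 3 ∧ p = 8 ∧ q = 3)
      ∨ (j = 4 ∧ n = 5 ∧ p = 14 ∧ q = 9)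
      ∨ (j = 2 ∧ n = 9 ∧ p = 21 ∧ q = 14)))
    (fun j n p q => decide ((j = 2 ∧ n = 3 ∧ q ≤ p ∧ 12 ≤ p ∧ p ≤ q + 14 ∧ ¬ ((p + q) % 2 = 1 ∧ p % 2 = 0))
      ∨ (j = 2 ∧ n = 5 ∧ q ≤ p ∧ 13 ≤ q ∧ p ≤ q + 14 ∧ ¬ ((p + q) % 2 = 1 ∧ p % 2 = 1))
      ∨ (j = 2 ∧ n = 1 ∧ q ≤ p ∧ p ≤ q + 14 ∧ ¬ ((p + q) % 2 = 1 ∧ p % 2 = 1))
      ∨ (j = 2 ∧ n = 2 ∧ q ≤ p ∧ p ≤ q + 14 ∧ ¬ (p = q ∧ p % 2 = 0))
      ∨ (j = 4 ∧ n = 1 ∧ q ≤ p ∧ 6 ≤ p ∧ p ≤ q + 14 ∧ ¬ ((p + q) % 2 = 1 ∧ p % 2 = 0))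
      ∨ (j = 4 ∧ n = 2 ∧ q ≤ p ∧ 7 ≤ p ∧ p ≤ q + 14 ∧ ¬ (p = q ∧ p % 2 = 1))
      ∨ (j = 4 ∧ n = 3 ∧ q ≤ p ∧ 7 ≤ q ∧ p ≤ q + 14 ∧ ¬ ((p + q) % 2 = 1 ∧ p % 2 = 1))
      ∨ (j = 1 ∧ n = 1 ∧ q ≤ p)
      ∨ (j = 1 ∧ n = 2 ∧ q ≤ p)
      ∨ (j = 1 ∧ n = 3 ∧ q ≤ p)
      ∨ (j = 1 ∧ n = 4 ∧ q ≤ p)
      ∨ (j = 1 ∧ n = 5 ∧ q ≤ p)
      ∨ (j = 1 ∧ n = 6 ∧ q ≤ p)
      ∨ (j = 1 ∧ n = 7 ∧ q ≤ p)
      ∨ (j = 1 ∧ n = 8 ∧ q ≤ p)
      ∨ (j = 1 ∧ n = 9 ∧ q ≤ p)
      ∨ (j = 3 ∧ n = 3 ∧ 5 ≤ q ∧ q + 3 ≤ p ∧ p ≤ q + 12)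
      ∨ (j = 3 ∧ n = 5 ∧ 9 ≤ q ∧ q + 4 ≤ p ∧ p ≤ q + 11)
      ∨ (j = 5 ∧ n = 5 ∧ 9 ≤ q ∧ q + 3 ≤ p ∧ p ≤ q + 12)
      ∨ (j = 2 ∧ n = 6 ∧ 10 ≤ q ∧ q + 5 ≤ p ∧ p ≤ q + 10)
      ∨ (j = 2 ∧ n = 3 ∧ p = 10 ∧ q = 5)))
    629
    0x241203254b002690ba241103254a00268fba255585255500268eaa255501240380241b80240381241b81241b0e26a683241c00241c01241b00241b04268e0e268d83269a00268e00268e0e268e0425548e26a68325548025548426b300268f00268f0e268f0424028024028122bd8e216c0322a48022b11222bd8022bd84240283240f00240300241b9224038a24280024040024040e24040423f60e216c0322a48022b11223f60023f604269000269004241e8325578025578425560e241d8325560025560425870e244e83258700258704257a8e243583257a80257a8421768322af8022bc9a22bd0022bd0425868e26d883258680258684241e0e241d83241e00241e0424410e21768322af8022bc9a22bd002402ba240300240f0024038a241b9224040024280024048a24349224050024410024410e244104256d8e243503256d80256d843c78032ef1002ef10121760021760422a40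e3c54032ed9002ed901215200215f1a22a40022a4042ed98e216c032ed9802ed98421c38022e40021938021c38122e401219381217a0021b60021aa802192802ef4522f244a21aa81219281217900219d002191802ef3522f0b4a219181203f80204b80203f81204b811eed802032001f05801eed812032011ee0001f05811ed4801eec001ee0013c61001f04801ed50a1eec011ec7003c85003c850e39e30039ca0039e20039c90026910021ad0021ac001f16001f15001efc001f14001efb001f11121ee2001eeb001eeb0e49ff523c84003a20003a07003a070e3a06003a060e39ee0039ee0e39ed0039ed0e2f240e2f238e2f170e2f0a0e26e50026e50e23158e23150e23088e22fb8e21d10021d10e21b80021b80e21ab0e1f52001f520e1f39001f390e1f38001f380e1f20001f200e1f1f001f1f0e1f1e001f1e0e1f040e2c65521eea001dd88e1dd80e1dce001dcd0e1dcc8e1dcc0e1dcb8e1dc00e1db4001db38e1db30e1d9a001c86001c6d00196b0e196a8e195e8e195e0e19520e19518e19458e19450e19390e19388e192c8e192c0e191f8e18328e18320e18260e18258e18198e18190e180d0e180c8e18008e18000e17f40e17f38e17e70e16e10e16e08e16e00e16d48e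16d40e16d38e16c80e16c78e16c70e16c68e16bb8e16bb0e16ba8e16ba0e16ae8e16ae0e16ad8e16a18e16a10e16948e15a88e15a80e15a78e159c0e159b8e159b0e158f8e158f0e158e8e158e0e15830e15828e15820e15818e15760e15758e15750e15690e15688e155c0e155b8e155b0e154f0e154e8e14560e14558e14498e14490e143d8e143d0e143c8e14308e14300e14238e14230e14228e14220e14168e14160e14158e14150e14090e14088e131d8e131d0e13110e13108e13048e13040e12f80e12f78e12eb0e12ea0e12e98e12de0e12dd8e12dd0e12dc8e12d10e12d08e12d00e12c40e11a58e11a50e11a38e11a30e11988e11980e11978e11970e11968e118b8e118b0e117e8e117e0e11718e106b0e106a8e105f8e105f0e105e8e105e0e10530e10528e10460e10458e10390e49ff0749fe8749f28749f2073c91873c840f3c77873c47873a200f3a070f3a060f39ee0f39ed0f2f24072f23872f17072f0a072c65072c588726e50f26cb87269987268387268287268187268087244187242887242787241187241087240f87240e8723f78723f68723f58723158723150723088722fb8721d10f21b80f21b68721ab8721ab07219e87219d872186872185872184872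18387216b872169872152871f520f1f390f1f380f1f200f1f1f0f1f1e0f1f12871f10871f04071efa871ef9871ef8871ef7871eea0f1ee0871edf871ec8871dd8871dd8071dce0f1dcd071dcc871dcc071dcb871dc0871dc0071dbf071dbe871db40f1db3871db3071db2871db2071da7071da6871d9a0f1c860f1c6d0f196b07196a87195e87195e07195207195187194587194507193907193887192c87192c07192007191f87191307183287183207182607182587181987181907180d07180c8718008718000717f40717f38717e78717e70717da8716e10716e08716e00716d48716d40716d38716c80716c78716c70716c68716bb8716bb0716ba8716ba0716af0716ae8716ae0716ad8716a20716a18716a10716950716948716880715a88715a80715a787159c07159b87159b07158f87158f07158e87158e07158307158287158207158187157687157607157587157507156987156907156887155c87155c07155b87155b07154f87154f07154e87154287154207145607145587144987144907143e07143d87143d07143c87143107143087143007142407142387142307142287142207141707141687141607141587141507140a0714098714090714088713fc8713fc07131d87131d0713110713108713048713040712f80712f78712eb8712eb0712ea0712e98712de8712de0712dd8712dd0712dc8712d18712d10712d08712d00712c48712c40712c38712b78711a58711a50711a38711a307119907119887119807119787119707119687118c07118b87118b07117f07117e87117e07117207117187106b07106a87105f87105f07105e87105e07105307105287104607104587103987103907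 = true := by
  decide +kernel

theorem d1c (hf : Rule f) {k c n : ℕ} (H : PL f k c n (n - 4))
    (D0 : Cyc f (6 * k) (c - 2) (2 * n))
    (D0a : Cyc f (6 * k) (c - 6) (2 * n - 4 - 2 * k))
    (h0 : f (6 * k) (c - 2) (2 * n - 3) (2 * n - 8))
    (h1 : f (6 * k + 2) c (2 * n + 3) (2 * n - 2))
    (h2 : f (6 * k) (c + 4) (2 * n + 10) (2 * n + 3))
    (z0 : ¬ f (6 * k) (c - 2) (2 * n - 1) (2 * n - 6)) : False := by
  have hk := H.T.hk
  have hc := H.T.hc
  have h4' := H.T.h4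
  have hb := H.T.hb
  have hN := H.T.hN2
  obtain ⟨a0, ha0⟩ : ∃ z, z + 2 = 6 * k := ⟨6 * k - 2, by omega⟩
  obtain ⟨b0, hb0⟩ : ∃ z, z + 5 = c := ⟨c - 5, by omega⟩
  obtain ⟨x0, hx0⟩ : ∃ z, z + 11 = 2 * n := ⟨2 * n - 11, by omega⟩
  refine check_sound hf (a0 := a0) (b0 := b0) (x0 := x0) (y0 := x0) d1c_chk
    ⟨fun _ => rfl, fun h => absurd h (by decide), fun h => absurd h (by decide), by omega, by omega,
      by omega, by omega⟩ ?_ ?_
  · intro j m p q hr h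
    obtain ⟨-, -, -, -, hp1, hp2, hq1, hq2⟩ := hr
    replace h := of_decide_eq_true h
    rcases h with h | h | h | h | h | h | h | h | h | h
    · obtain ⟨rfl, rfl, h⟩ := h
      exact (WrapC.v0 D0 (by omega) (by omega) (by omega) (by omega) (by omega) (by omega) (by omega)).mpr (by omega)
    · obtain ⟨rfl, rfl, h⟩ := h
      exact (WrapC.v2 D0 (by omega) (by omega) (by omega) (by omega) (by omega) (by omega) (by omega)).mpr (by omega)
    · obtain ⟨rfl, rfl, h⟩ := h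
      exact (WrapC.v2 D0a (by omega) (by omega) (by omega) (by omega) (by omega) (by omega) (by omega)).mpr (by omega)
    · obtain ⟨rfl, rfl, h⟩ := h
      exact (WrapC.v3 D0a (by omega) (by omega) (by omega) (by omega) (by omega) (by omega) (by omega) (by omega)).mpr (by omega)
    · obtain ⟨rfl, rfl, h⟩ := h
      exact (WrapC.v0 H.c2 (by omega) (by omega) (by omega) (by omega) (by omega) (by omega) (by omega)).mpr (by omega)
    · obtain ⟨rfl, rfl, h⟩ := h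
      exact (WrapC.v1 H.c2 (by omega) (by omega) (by omega) (by omega) (by omega) (by omega) (by omega) (by omega)).mpr (by omega)
    · obtain ⟨rfl, rfl, h⟩ := h
      exact (WrapC.v2 H.c2 (by omega) (by omega) (by omega) (by omega) (by omega) (by omega) (by omega)).mpr (by omega)
    · obtain ⟨rfl, rfl, rfl, rfl⟩ := h
      exact mv h0 (by omega) (by omega) (by omega) (by omega)
    · obtain ⟨rfl, rfl, rfl, rfl⟩ := h
      exact mv h1 (by omega) (by omega) (by omega) (by omega)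
    · obtain ⟨rfl, rfl, rfl, rfl⟩ := h
      exact mv h2 (by omega) (by omega) (by omega) (by omega)
  · intro j m p q hr h
    obtain ⟨-, -, -, -, hp1, hp2, hq1, hq2⟩ := hr
    replace h := of_decide_eq_true h
    rcases h with h | h | h | h | h | h | h | h | h | h | h | h | h | h | h | h | h | h | h | h | h
    · obtain ⟨rfl, rfl, h⟩ := h
      exact mt (WrapC.v0 D0 (by omega) (by omega) (by omega) (by omega) (by omega) (by omega) (by omega)).mp (by omega)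
    · obtain ⟨rfl, rfl, h⟩ := h
      exact mt (WrapC.v2 D0 (by omega) (by omega) (by omega) (by omega) (by omega) (by omega) (by omega)).mp (by omega)
    · obtain ⟨rfl, rfl, h⟩ := h
      exact mt (WrapC.v2 D0a (by omega) (by omega) (by omega) (by omega) (by omega) (by omega) (by omega)).mp (by omega)
    · obtain ⟨rfl, rfl, h⟩ := h
      exact mt (WrapC.v3 D0a (by omega) (by omega) (by omega) (by omega) (by omega) (by omega) (by omega) (by omega)).mp (by omega)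
    · obtain ⟨rfl, rfl, h⟩ := h
      exact mt (WrapC.v0 H.c2 (by omega) (by omega) (by omega) (by omega) (by omega) (by omega) (by omega)).mp (by omega)
    · obtain ⟨rfl, rfl, h⟩ := h
      exact mt (WrapC.v1 H.c2 (by omega) (by omega) (by omega) (by omega) (by omega) (by omega) (by omega) (by omega)).mp (by omega)
    · obtain ⟨rfl, rfl, h⟩ := h
      exact mt (WrapC.v2 H.c2 (by omega) (by omega) (by omega) (by omega) (by omega) (by omega) (by omega)).mp (by omega)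
    · obtain ⟨rfl, rfl, h⟩ := h
      exact H.lw _ _ _ _ (by omega) (by omega) (by omega) (by omega) (by omega) (by omega)
    · obtain ⟨rfl, rfl, h⟩ := h
      exact H.lw _ _ _ _ (by omega) (by omega) (by omega) (by omega) (by omega) (by omega)
    · obtain ⟨rfl, rfl, h⟩ := h
      exact H.lw _ _ _ _ (by omega) (by omega) (by omega) (by omega) (by omega) (by omega)
    · obtain ⟨rfl, rfl, h⟩ := h
      exact H.lw _ _ _ _ (by omega) (by omega) (by omega) (by omega) (by omega) (by omega)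
    · obtain ⟨rfl, rfl, h⟩ := h
      exact H.lw _ _ _ _ (by omega) (by omega) (by omega) (by omega) (by omega) (by omega)
    · obtain ⟨rfl, rfl, h⟩ := h
      exact H.lw _ _ _ _ (by omega) (by omega) (by omega) (by omega) (by omega) (by omega)
    · obtain ⟨rfl, rfl, h⟩ := h
      exact H.lw _ _ _ _ (by omega) (by omega) (by omega) (by omega) (by omega) (by omega)
    · obtain ⟨rfl, rfl, h⟩ := h
      exact H.lw _ _ _ _ (by omega) (by omega) (by omega) (by omega) (by omega) (by omega)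
    · obtain ⟨rfl, rfl, h⟩ := h
      exact H.lw _ _ _ _ (by omega) (by omega) (by omega) (by omega) (by omega) (by omega)
    · obtain ⟨rfl, rfl, h⟩ := h
      exact NHT.pm hf H.T (j := 2) (by omega) (by omega) (by omega) (by omega) (by omega) (by omega)
    · obtain ⟨rfl, rfl, h⟩ := h
      exact NHT.p0 hf H.T (j := 3) (by omega) (by omega) (by omega) (by omega) (by omega) (by omega)
    · obtain ⟨rfl, rfl, h⟩ := h
      exact NHT.p0 hf H.T (j := 2) (by omega) (by omega) (by omega) (by omega) (by omega) (by omega)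
    · obtain ⟨rfl, rfl, h⟩ := h
      exact fun t => NHT.r1 hf H.T (p := 0) (j := 4) (by omega) (by omega) (by omega) (by omega) (by omega) (by omega) (mv t rfl (by omega) rfl rfl)
    · obtain ⟨rfl, rfl, rfl, rfl⟩ := h
      exact fun t => z0 (mv t (by omega) (by omega) (by omega) (by omega))

theorem d3_chk : check 12 7 21 21 0 1 1 1 2
    (fun j n p q => decide ((j = 2 ∧ n = 3 ∧ q ≤ p ∧ 14 ≤ p ∧ p ≤ q + 14 ∧ ((p + q) % 2 = 1 ∧ p % 2 = 0))
      ∨ (j = 2 ∧ n = 1 ∧ q ≤ p ∧ p ≤ q + 14 ∧ ((p + q) % 2 = 1 ∧ p % 2 = 1))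
      ∨ (j = 2 ∧ n = 5 ∧ p = 15 ∧ q = 10)))
    (fun j n p q => decide ((j = 2 ∧ n = 3 ∧ q ≤ p ∧ 14 ≤ p ∧ p ≤ q + 14 ∧ ¬ ((p + q) % 2 = 1 ∧ p % 2 = 0))
      ∨ (j = 2 ∧ n = 1 ∧ q ≤ p ∧ p ≤ q + 14 ∧ ¬ ((p + q) % 2 = 1 ∧ p % 2 = 1))
      ∨ (j = 1 ∧ n = 1 ∧ q ≤ p)
      ∨ (j = 1 ∧ n = 2 ∧ q ≤ p)
      ∨ (j = 1 ∧ n = 3 ∧ q ≤ p)
      ∨ (j = 1 ∧ n = 4 ∧ q ≤ p)
      ∨ (j = 1 ∧ n = 5 ∧ q ≤ p)
      ∨ (j = 3 ∧ n = 3 ∧ 7 ≤ q ∧ q + 3 ≤ p ∧ p ≤ q + 12)
      ∨ (j = 2 ∧ n = 4 ∧ 8 ≤ q ∧ q + 4 ≤ p ∧ p ≤ q + 11)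
      ∨ (j = 2 ∧ n = 3 ∧ p = 8 ∧ q = 3)))
    227
    0xfe3830fe40010cbba10cc0010d60010cc8a10e0920f08000f12000f08010f12010f118e0fe3830fe40010cbba10cc0010d60010cc8a10e0920ff98e0fe3830fe4000fef1a0ff9800ff9840efd800f11800f118e0f11840efb800efb810efa830efb000efb0410eb0010cd0010f59210cd8a0ff08e0f13830ff0800ff0840ff90e0f12030ff9000ff9040efa830efb000efb8a0fe3000fe3040e36000e20000e0a0010ce000d5a000d45000e36010d44000e20010d2e000e0a010d180011000011000e10190e10188e100e0e0d640e0d630e0d590e0d4e000d4e0e0d430e0d38000d380e0d37000d36000d2d0e0d22000d220e0aee0e0aed8e0ae38e0ae30e0ad90e0ad88e0ace8e0ace0e0ac38e0a118e0a110e0a070e0a068e09fc8e09fc0e09f20e09f18e09e70e09200e091f8e09158e09150e090a8e090a0e08ff8e08438e08430e08390e08388e082e0e082d8e08230e08180e08020e07518e073b8e07258e11000f10ea8710d58710c28710c18710c087101907101887100e070f08870f07870f06870efa070ef0870eef870d640f0d630f0d59870d59070d4e870d4e0f0d43870d43070d38870d380f0d370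f0d360f0d2d870d2d070d22870d220f0aee070aed870ae3870ae3070ad9070ad8870ace870ace070ac4070ac3870ab9070a11870a11070a07070a068709fc8709fc0709f20709f18709e78709e70709dc8709dc0709db8709d18709d107092007091f87091587091507090b07090a87090a0709000708ff8708ff0708f50708f48708f40708f38708f30708f28708e98708e90708e88708e807084387084307083907083887082e87082e07082d87082387082307081887081807081787081707081687081607080d87080d07080c87080c07080b8708028708020707f787075207075187074707073c07073b87073107072607072587071b07 = true := by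
  decide +kernel

theorem d3 (hf : Rule f) {k c n : ℕ} (H : PL f k c n (n - 4))
    (D0 : Cyc f (6 * k) (c - 2) (2 * n))
    (D0a : Cyc f (6 * k) (c - 6) (2 * n - 4 - 2 * k))
    (h0 : f (6 * k) c (2 * n + 2) (2 * n - 3))
    (z0 : ¬ f (6 * k) (c - 2) (2 * n - 5) (2 * n - 10)) : False := by
  have hk := H.T.hk
  have hc := H.T.hc
  have h4' := H.T.h4
  have hb := H.T.hb
  have hN := H.T.hN2
  obtain ⟨a0, ha0⟩ : ∃ z, z + 2 = 6 * k := ⟨6 * k - 2, by omega⟩
  obtain ⟨b0, hb0⟩ : ∃ z, z + 5 = c := ⟨c - 5, by omega⟩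
  obtain ⟨x0, hx0⟩ : ∃ z, z + 13 = 2 * n := ⟨2 * n - 13, by omega⟩
  refine check_sound hf (a0 := a0) (b0 := b0) (x0 := x0) (y0 := x0) d3_chk
    ⟨fun _ => rfl, fun h => absurd h (by decide), fun h => absurd h (by decide), by omega, by omega,
      by omega, by omega⟩ ?_ ?_
  · intro j m p q hr h
    obtain ⟨-, -, -, -, hp1, hp2, hq1, hq2⟩ := hr
    replace h := of_decide_eq_true h
    rcases h with h | h | h
    · obtain ⟨rfl, rfl, h⟩ := h
      exact (WrapC.v0 D0 (by omega) (by omega) (by omega) (by omega) (by omega) (by omega) (by omega)).mpr (by omega)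
    · obtain ⟨rfl, rfl, h⟩ := h
      exact (WrapC.v2 D0a (by omega) (by omega) (by omega) (by omega) (by omega) (by omega) (by omega)).mpr (by omega)
    · obtain ⟨rfl, rfl, rfl, rfl⟩ := h
      exact mv h0 (by omega) (by omega) (by omega) (by omega)
  · intro j m p q hr h
    obtain ⟨-, -, -, -, hp1, hp2, hq1, hq2⟩ := hr
    replace h := of_decide_eq_true h
    rcases h with h | h | h | h | h | h | h | h | h | h
    · obtain ⟨rfl, rfl, h⟩ := h
      exact mt (WrapC.v0 D0 (by omega) (by omega) (by omega) (by omega) (by omega) (by omega) (by omega)).mp (by omega)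
    · obtain ⟨rfl, rfl, h⟩ := h
      exact mt (WrapC.v2 D0a (by omega) (by omega) (by omega) (by omega) (by omega) (by omega) (by omega)).mp (by omega)
    · obtain ⟨rfl, rfl, h⟩ := h
      exact H.lw _ _ _ _ (by omega) (by omega) (by omega) (by omega) (by omega) (by omega)
    · obtain ⟨rfl, rfl, h⟩ := h
      exact H.lw _ _ _ _ (by omega) (by omega) (by omega) (by omega) (by omega) (by omega)
    · obtain ⟨rfl, rfl, h⟩ := h
      exact H.lw _ _ _ _ (by omega) (by omega) (by omega) (by omega) (by omega) (by omega)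
    · obtain ⟨rfl, rfl, h⟩ := h
      exact H.lw _ _ _ _ (by omega) (by omega) (by omega) (by omega) (by omega) (by omega)
    · obtain ⟨rfl, rfl, h⟩ := h
      exact H.lw _ _ _ _ (by omega) (by omega) (by omega) (by omega) (by omega) (by omega)
    · obtain ⟨rfl, rfl, h⟩ := h
      exact NHT.pm hf H.T (j := 2) (by omega) (by omega) (by omega) (by omega) (by omega) (by omega)
    · obtain ⟨rfl, rfl, h⟩ := h
      exact fun t => NHT.rm1 hf H.T (p := 0) (j := 3) (by omega) (by omega) (by omega) (by omega) (by omega) (by omega) (mv t rfl (by omega) rfl rfl)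
    · obtain ⟨rfl, rfl, rfl, rfl⟩ := h
      exact fun t => z0 (mv t (by omega) (by omega) (by omega) (by omega))


end Pool.Agent.SNT.L0X
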