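import Pool.Agent.SNT.PL

set_option autoImplicit false
set_option synthInstance.maxSize 100000
set_option synthInstance.maxHeartbeats 4000000

/-! The E-cell of the road L0 at the special position `X' = 2`: no beam `2 n + 1` of `6 k` in the row `c`, near the diagonal. -/

namespace Pool.Agent.SNT.L0X

open Pool.Agent.SNT Pool.Agent.SNT.Sig Pool.Agent.SNT.Loc Pool.Agent.SNT.LW Pool.Agent.SNT.NHZ Pool.Agent.SNT.DRun Pool.Agent.SNT.D1E

variable {f : ℕ → ℕ → ℕ → ℕ → Prop}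

theorem n1_00_chk : check 12 7 23 23 0 1 1 1 2
    (fun j n p q => decide ((j = 2 ∧ n = 3 ∧ q ≤ p ∧ 14 ≤ p ∧ p ≤ q + 14 ∧ ((p + q) % 2 = 1 ∧ p % 2 = 0))
      ∨ (j = 2 ∧ n = 1 ∧ q ≤ p ∧ p ≤ q + 14 ∧ ((p + q) % 2 = 1 ∧ p % 2 = 1))
      ∨ (j = 4 ∧ n = 1 ∧ q ≤ p ∧ 8 ≤ p ∧ p ≤ q + 14 ∧ ((p + q) % 2 = 1 ∧ p % 2 = 0))
      ∨ (j = 4 ∧ n = 3 ∧ q ≤ p ∧ 9 ≤ q ∧ p ≤ q + 14 ∧ ((p + q) % 2 = 1 ∧ p % 2 = 1))
      ∨ (j = 2 ∧ n = 5 ∧ p = 14 ∧ q = 7)
      ∨ (j = 2 ∧ n = 5 ∧ p = 14 ∧ q = 9)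
      ∨ (j = 2 ∧ n = 3 ∧ p = 10 ∧ q = 5)
      ∨ (j = 2 ∧ n = 3 ∧ p = 10 ∧ q = 3)
      ∨ (j = 4 ∧ n = 5 ∧ p = 16 ∧ q = 11)
      ∨ (j = 4 ∧ n = 5 ∧ p = 16 ∧ q = 9)))
    (fun j n p q => decide ((j = 2 ∧ n = 3 ∧ q ≤ p ∧ 14 ≤ p ∧ p ≤ q + 14 ∧ ¬ ((p + q) % 2 = 1 ∧ p % 2 = 0))
      ∨ (j = 2 ∧ n = 1 ∧ q ≤ p ∧ p ≤ q + 14 ∧ ¬ ((p + q) % 2 = 1 ∧ p % 2 = 1))
      ∨ (j = 4 ∧ n = 1 ∧ q ≤ p ∧ 8 ≤ p ∧ p ≤ q + 14 ∧ ¬ ((p + q) % 2 = 1 ∧ p % 2 = 0))
      ∨ (j = 4 ∧ n = 3 ∧ q ≤ p ∧ 9 ≤ q ∧ p ≤ q + 14 ∧ ¬ ((p + q) % 2 = 1 ∧ p % 2 = 1))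
      ∨ (j = 1 ∧ n = 1 ∧ q ≤ p)
      ∨ (j = 1 ∧ n = 2 ∧ q ≤ p)
      ∨ (j = 1 ∧ n = 3 ∧ q ≤ p)
      ∨ (j = 1 ∧ n = 4 ∧ q ≤ p)
      ∨ (j = 1 ∧ n = 5 ∧ q ≤ p)
      ∨ (j = 3 ∧ n = 3 ∧ 7 ≤ q ∧ q + 3 ≤ p ∧ p ≤ q + 12)
      ∨ (j = 3 ∧ n = 5 ∧ 11 ≤ q ∧ q + 4 ≤ p ∧ p ≤ q + 11)
      ∨ (j = 5 ∧ n = 5 ∧ 11 ≤ q ∧ q + 3 ≤ p ∧ p ≤ q + 12)))
    186
    0x1b63031b6e001b7a1a1427031b62801b630a14330014330413340e1b8f0313340013340414488e1448031b83801b8f1214488014488413350013350113348e1448031b83801b8f121454001b904a133480133484131d00131d0111fd0012080011fd0122b60012080111e60011180011000010e80022d70022d70e141000122d0012160011ff0012070012070e1118010ff8001100010fe00010e8010fc8002a1e5222d60020d10020ba001b8f0e14470014470e12380012380e12370012370e12360012360e194e52120600100f0e10030010030e1001000ff70e0feb000feb0e0fea000fdf0e0fd3000fd30e0d0c8e0d0c0e0d010e0d008e0c040e0c038e0bf90e0bf88e0bf80e0be10e0af08e0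ad88e0acc8e0acc0e0ac08e09dc0e09c40e09c38e09b80e09ac0e08d38e08bb8e08a38e2a1e072a1d872a12872a120722e28722d60f20d10f20ba0f1b8f07194e0719428714548714538714470f143e87143c8714278714268712380f12370f12360f122c8712148712128712060f11fc87100f87100f0710038710030f10010f0ff7870ff7070feb870feb0f0fea0f0fdf870fdf070fd3870fd30f0d0c870d0c070d01070d00870c04070c03870bf9870bf9070bf8870bf8070bed870be1870be1070bd5870af1070af0870ae5070ad9070ad8870acd070acc870acc070ac1070ac08709dc8709dc0709d08709c48709c40709c38709b88709b80709ac8709ac0709a08708d40708d38708c80708bc0708bb8708b00708a40708a387089807 = true := by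
  decide +kernel

theorem n1_00 (hf : Rule f) {k c n : ℕ} (H : PL f k c n (n - 4))
    (D0 : Cyc f (6 * k) (c - 2) (2 * n))
    (D0a : Cyc f (6 * k) (c - 6) (2 * n - 4 - 2 * k))
    (h0 : f (6 * k) c (2 * n + 1) (2 * n - 6))
    (h1 : f (6 * k) c (2 * n + 1) (2 * n - 4))
    (h2 : f (6 * k) (c - 2) (2 * n - 3) (2 * n - 8))
    (h3 : f (6 * k) (c - 2) (2 * n - 3) (2 * n - 10))
    (h4 : f (6 * k + 2) c (2 * n + 3) (2 * n - 2))
    (h5 : f (6 * k + 2) c (2 * n + 3) (2 * n - 4)) : False := by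
  have hk := H.T.hk
  have hc := H.T.hc
  have h4' := H.T.h4
  have hb := H.T.hb
  have hN := H.T.hN2
  obtain ⟨a0, ha0⟩ : ∃ z, z + 2 = 6 * k := ⟨6 * k - 2, by omega⟩
  obtain ⟨b0, hb0⟩ : ∃ z, z + 5 = c := ⟨c - 5, by omega⟩
  obtain ⟨x0, hx0⟩ : ∃ z, z + 13 = 2 * n := ⟨2 * n - 13, by omega⟩
  refine check_sound hf (a0 := a0) (b0 := b0) (x0 := x0) (y0 := x0) n1_00_chk
    ⟨fun _ => rfl, fun h => absurd h (by decide), fun h => absurd h (by decide), by omega, by omega,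
      by omega, by omega⟩ ?_ ?_
  · intro j m p q hr h
    obtain ⟨-, -, -, -, hp1, hp2, hq1, hq2⟩ := hr
    replace h := of_decide_eq_true h
    rcases h with h | h | h | h | h | h | h | h | h | h
    · obtain ⟨rfl, rfl, h⟩ := h
      exact (WrapC.v0 D0 (by omega) (by omega) (by omega) (by omega) (by omega) (by omega) (by omega)).mpr (by omega)
    · obtain ⟨rfl, rfl, h⟩ := h
      exact (WrapC.v2 D0a (by omega) (by omega) (by omega) (by omega) (by omega) (by omega) (by omega)).mpr (by omega)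
    · obtain ⟨rfl, rfl, h⟩ := h
      exact (WrapC.v0 H.c2 (by omega) (by omega) (by omega) (by omega) (by omega) (by omega) (by omega)).mpr (by omega)
    · obtain ⟨rfl, rfl, h⟩ := h
      exact (WrapC.v2 H.c2 (by omega) (by omega) (by omega) (by omega) (by omega) (by omega) (by omega)).mpr (by omega)
    · obtain ⟨rfl, rfl, rfl, rfl⟩ := h
      exact mv h0 (by omega) (by omega) (by omega) (by omega)
    · obtain ⟨rfl, rfl, rfl, rfl⟩ := h
      exact mv h1 (by omega) (by omega) (by omega) (by omega)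
    · obtain ⟨rfl, rfl, rfl, rfl⟩ := h
      exact mv h2 (by omega) (by omega) (by omega) (by omega)
    · obtain ⟨rfl, rfl, rfl, rfl⟩ := h
      exact mv h3 (by omega) (by omega) (by omega) (by omega)
    · obtain ⟨rfl, rfl, rfl, rfl⟩ := h
      exact mv h4 (by omega) (by omega) (by omega) (by omega)
    · obtain ⟨rfl, rfl, rfl, rfl⟩ := h
      exact mv h5 (by omega) (by omega) (by omega) (by omega)
  · intro j m p q hr h
    obtain ⟨-, -, -, -, hp1, hp2, hq1, hq2⟩ := hr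
    replace h := of_decide_eq_true h
    rcases h with h | h | h | h | h | h | h | h | h | h | h | h
    · obtain ⟨rfl, rfl, h⟩ := h
      exact mt (WrapC.v0 D0 (by omega) (by omega) (by omega) (by omega) (by omega) (by omega) (by omega)).mp (by omega)
    · obtain ⟨rfl, rfl, h⟩ := h
      exact mt (WrapC.v2 D0a (by omega) (by omega) (by omega) (by omega) (by omega) (by omega) (by omega)).mp (by omega)
    · obtain ⟨rfl, rfl, h⟩ := h
      exact mt (WrapC.v0 H.c2 (by omega) (by omega) (by omega) (by omega) (by omega) (by omega) (by omega)).mp (by omega)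
    · obtain ⟨rfl, rfl, h⟩ := h
      exact mt (WrapC.v2 H.c2 (by omega) (by omega) (by omega) (by omega) (by omega) (by omega) (by omega)).mp (by omega)
    · obtain ⟨rfl, rfl, h⟩ := h
      exact H.lw _ _ _ _ (by omega) (by omega) (by omega) (by omega) (by omega) (by omega)
    · obtain ⟨rfl, rfl, h⟩ := h
      exact H.lw _ _ _ _ (by omega) (by omega) (by omega) (by omega) (by omega) (by omega)
    · obtain ⟨rfl, rfl, h⟩ := h
      exact H.lw _ _ _ _ (by omega) (by omega) (by omega) (by omega) (by omega) (by omega)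
    · obtain ⟨rfl, rfl, h⟩ := h
      exact H.lw _ _ _ _ (by omega) (by omega) (by omega) (by omega) (by omega) (by omega)
    · obtain ⟨rfl, rfl, h⟩ := h
      exact H.lw _ _ _ _ (by omega) (by omega) (by omega) (by omega) (by omega) (by omega)
    · obtain ⟨rfl, rfl, h⟩ := h
      exact NHT.pm hf H.T (j := 2) (by omega) (by omega) (by omega) (by omega) (by omega) (by omega)
    · obtain ⟨rfl, rfl, h⟩ := h
      exact NHT.p0 hf H.T (j := 3) (by omega) (by omega) (by omega) (by omega) (by omega) (by omega)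
    · obtain ⟨rfl, rfl, h⟩ := h
      exact NHT.p0 hf H.T (j := 2) (by omega) (by omega) (by omega) (by omega) (by omega) (by omega)

theorem n1_01_chk : check 12 7 23 23 0 1 1 1 2
    (fun j n p q => decide ((j = 2 ∧ n = 3 ∧ q ≤ p ∧ 14 ≤ p ∧ p ≤ q + 14 ∧ ((p + q) % 2 = 1 ∧ p % 2 = 0))
      ∨ (j = 2 ∧ n = 1 ∧ q ≤ p ∧ p ≤ q + 14 ∧ ((p + q) % 2 = 1 ∧ p % 2 = 1))
      ∨ (j = 4 ∧ n = 1 ∧ q ≤ p ∧ 8 ≤ p ∧ p ≤ q + 14 ∧ ((p + q) % 2 = 1 ∧ p % 2 = 0))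
      ∨ (j = 4 ∧ n = 2 ∧ q ≤ p ∧ 9 ≤ p ∧ p ≤ q + 14 ∧ (p = q ∧ p % 2 = 1))
      ∨ (j = 4 ∧ n = 3 ∧ q ≤ p ∧ 9 ≤ q ∧ p ≤ q + 14 ∧ ((p + q) % 2 = 1 ∧ p % 2 = 1))
      ∨ (j = 2 ∧ n = 5 ∧ p = 14 ∧ q = 7)
      ∨ (j = 2 ∧ n = 5 ∧ p = 14 ∧ q = 9)
      ∨ (j = 2 ∧ n = 3 ∧ p = 10 ∧ q = 5)
      ∨ (j = 2 ∧ n = 3 ∧ p = 10 ∧ q = 3)
      ∨ (j = 4 ∧ n = 5 ∧ p = 18 ∧ q = 13)
      ∨ (j = 4 ∧ n = 5 ∧ p = 18 ∧ q = 11)))
    (fun j n p q => decide ((j = 2 ∧ n = 3 ∧ q ≤ p ∧ 14 ≤ p ∧ p ≤ q + 14 ∧ ¬ ((p + q) % 2 = 1 ∧ p % 2 = 0))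
      ∨ (j = 2 ∧ n = 1 ∧ q ≤ p ∧ p ≤ q + 14 ∧ ¬ ((p + q) % 2 = 1 ∧ p % 2 = 1))
      ∨ (j = 4 ∧ n = 1 ∧ q ≤ p ∧ 8 ≤ p ∧ p ≤ q + 14 ∧ ¬ ((p + q) % 2 = 1 ∧ p % 2 = 0))
      ∨ (j = 4 ∧ n = 2 ∧ q ≤ p ∧ 9 ≤ p ∧ p ≤ q + 14 ∧ ¬ (p = q ∧ p % 2 = 1))
      ∨ (j = 4 ∧ n = 3 ∧ q ≤ p ∧ 9 ≤ q ∧ p ≤ q + 14 ∧ ¬ ((p + q) % 2 = 1 ∧ p % 2 = 1))
      ∨ (j = 1 ∧ n = 1 ∧ q ≤ p)
      ∨ (j = 1 ∧ n = 2 ∧ q ≤ p)
      ∨ (j = 1 ∧ n = 3 ∧ q ≤ p)
      ∨ (j = 1 ∧ n = 4 ∧ q ≤ p)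
      ∨ (j = 1 ∧ n = 5 ∧ q ≤ p)
      ∨ (j = 3 ∧ n = 3 ∧ 7 ≤ q ∧ q + 3 ≤ p ∧ p ≤ q + 12)
      ∨ (j = 3 ∧ n = 5 ∧ 11 ≤ q ∧ q + 4 ≤ p ∧ p ≤ q + 11)
      ∨ (j = 5 ∧ n = 5 ∧ 11 ≤ q ∧ q + 3 ≤ p ∧ p ≤ q + 12)))
    176
    0x1b7a0313350013350113348e1b90031334801334841b900e22e3031b90001b90041427001448001b634a1b8f521b838e1448031b83801b8384131d00131d0111fd0012080011fd0112080111e60011180011000010e80022ef00141000122d0012160011ff0012070012070e1118010ff8001100010fe00010e8010fc8002a365222ee0020e90020d20020d10020bb0020ba001b8f0e14470014470e124f0012380012380e12370012370e12360012360e194e52120600100f0e10030010030e1001000ff70e0feb000feb0e0fea000fdf0e0fd3000fd30e0bf90e0be10e0af08e0ad88e0acc8e0acc0e0ac08e09dc0e09c40e09c38e09b80e09ac0e08d38e08bb8e08a38e2a36072a35872a2a872a2a0722fa8722ee0f22e28720e90f20d20f20d10f20bb0f20ba0f1ba7071b8f07194e0719428714548714538714470f143e87143c87142787124f0f12380f12370f12360f122c8712148712128712060f11fc87100f87100f0710038710030f10010f0ff7870ff7070feb870feb0f0fea0f0fdf870fdf070fd3870fd30f0d0c870d0c070d01070d00870c04070c03870bf9870bf9070bf8870bf8070bed870be1870be1070bd5870af1070af0870ae5070ad9070ad8870acd070acc870acc070ac1070ac08709dc8709dc0709d08709c48709c40709c38709b88709b80709ac8709ac0709a08708d40708d38708c80708bc0708bb8708b00708a40708a387089807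 = true := by
  decide +kernel

theorem n1_01 (hf : Rule f) {k c n : ℕ} (H : PL f k c n (n - 4))
    (D0 : Cyc f (6 * k) (c - 2) (2 * n))
    (D0a : Cyc f (6 * k) (c - 6) (2 * n - 4 - 2 * k))
    (h0 : f (6 * k) c (2 * n + 1) (2 * n - 6))
    (h1 : f (6 * k) c (2 * n + 1) (2 * n - 4))
    (h2 : f (6 * k) (c - 2) (2 * n - 3) (2 * n - 8))
    (h3 : f (6 * k) (c - 2) (2 * n - 3) (2 * n - 10))
    (h4 : f (6 * k + 2) c (2 * n + 5) (2 * n))
    (h5 : f (6 * k + 2) c (2 * n + 5) (2 * n - 2)) : False := by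
  have hk := H.T.hk
  have hc := H.T.hc
  have h4' := H.T.h4
  have hb := H.T.hb
  have hN := H.T.hN2
  obtain ⟨a0, ha0⟩ : ∃ z, z + 2 = 6 * k := ⟨6 * k - 2, by omega⟩
  obtain ⟨b0, hb0⟩ : ∃ z, z + 5 = c := ⟨c - 5, by omega⟩
  obtain ⟨x0, hx0⟩ : ∃ z, z + 13 = 2 * n := ⟨2 * n - 13, by omega⟩
  refine check_sound hf (a0 := a0) (b0 := b0) (x0 := x0) (y0 := x0) n1_01_chk
    ⟨fun _ => rfl, fun h => absurd h (by decide), fun h => absurd h (by decide), by omega, by omega,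
      by omega, by omega⟩ ?_ ?_
  · intro j m p q hr h
    obtain ⟨-, -, -, -, hp1, hp2, hq1, hq2⟩ := hr
    replace h := of_decide_eq_true h
    rcases h with h | h | h | h | h | h | h | h | h | h | h
    · obtain ⟨rfl, rfl, h⟩ := h
      exact (WrapC.v0 D0 (by omega) (by omega) (by omega) (by omega) (by omega) (by omega) (by omega)).mpr (by omega)
    · obtain ⟨rfl, rfl, h⟩ := h
      exact (WrapC.v2 D0a (by omega) (by omega) (by omega) (by omega) (by omega) (by omega) (by omega)).mpr (by omega)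
    · obtain ⟨rfl, rfl, h⟩ := h
      exact (WrapC.v0 H.c2 (by omega) (by omega) (by omega) (by omega) (by omega) (by omega) (by omega)).mpr (by omega)
    · obtain ⟨rfl, rfl, h⟩ := h
      exact (WrapC.v1 H.c2 (by omega) (by omega) (by omega) (by omega) (by omega) (by omega) (by omega) (by omega)).mpr (by omega)
    · obtain ⟨rfl, rfl, h⟩ := h
      exact (WrapC.v2 H.c2 (by omega) (by omega) (by omega) (by omega) (by omega) (by omega) (by omega)).mpr (by omega)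
    · obtain ⟨rfl, rfl, rfl, rfl⟩ := h
      exact mv h0 (by omega) (by omega) (by omega) (by omega)
    · obtain ⟨rfl, rfl, rfl, rfl⟩ := h
      exact mv h1 (by omega) (by omega) (by omega) (by omega)
    · obtain ⟨rfl, rfl, rfl, rfl⟩ := h
      exact mv h2 (by omega) (by omega) (by omega) (by omega)
    · obtain ⟨rfl, rfl, rfl, rfl⟩ := h
      exact mv h3 (by omega) (by omega) (by omega) (by omega)
    · obtain ⟨rfl, rfl, rfl, rfl⟩ := h
      exact mv h4 (by omega) (by omega) (by omega) (by omega)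
    · obtain ⟨rfl, rfl, rfl, rfl⟩ := h
      exact mv h5 (by omega) (by omega) (by omega) (by omega)
  · intro j m p q hr h
    obtain ⟨-, -, -, -, hp1, hp2, hq1, hq2⟩ := hr
    replace h := of_decide_eq_true h
    rcases h with h | h | h | h | h | h | h | h | h | h | h | h | h
    · obtain ⟨rfl, rfl, h⟩ := h
      exact mt (WrapC.v0 D0 (by omega) (by omega) (by omega) (by omega) (by omega) (by omega) (by omega)).mp (by omega)
    · obtain ⟨rfl, rfl, h⟩ := h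
      exact mt (WrapC.v2 D0a (by omega) (by omega) (by omega) (by omega) (by omega) (by omega) (by omega)).mp (by omega)
    · obtain ⟨rfl, rfl, h⟩ := h
      exact mt (WrapC.v0 H.c2 (by omega) (by omega) (by omega) (by omega) (by omega) (by omega) (by omega)).mp (by omega)
    · obtain ⟨rfl, rfl, h⟩ := h
      exact mt (WrapC.v1 H.c2 (by omega) (by omega) (by omega) (by omega) (by omega) (by omega) (by omega) (by omega)).mp (by omega)
    · obtain ⟨rfl, rfl, h⟩ := h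
      exact mt (WrapC.v2 H.c2 (by omega) (by omega) (by omega) (by omega) (by omega) (by omega) (by omega)).mp (by omega)
    · obtain ⟨rfl, rfl, h⟩ := h
      exact H.lw _ _ _ _ (by omega) (by omega) (by omega) (by omega) (by omega) (by omega)
    · obtain ⟨rfl, rfl, h⟩ := h
      exact H.lw _ _ _ _ (by omega) (by omega) (by omega) (by omega) (by omega) (by omega)
    · obtain ⟨rfl, rfl, h⟩ := h
      exact H.lw _ _ _ _ (by omega) (by omega) (by omega) (by omega) (by omega) (by omega)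
    · obtain ⟨rfl, rfl, h⟩ := h
      exact H.lw _ _ _ _ (by omega) (by omega) (by omega) (by omega) (by omega) (by omega)
    · obtain ⟨rfl, rfl, h⟩ := h
      exact H.lw _ _ _ _ (by omega) (by omega) (by omega) (by omega) (by omega) (by omega)
    · obtain ⟨rfl, rfl, h⟩ := h
      exact NHT.pm hf H.T (j := 2) (by omega) (by omega) (by omega) (by omega) (by omega) (by omega)
    · obtain ⟨rfl, rfl, h⟩ := h
      exact NHT.p0 hf H.T (j := 3) (by omega) (by omega) (by omega) (by omega) (by omega) (by omega)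
    · obtain ⟨rfl, rfl, h⟩ := h
      exact NHT.p0 hf H.T (j := 2) (by omega) (by omega) (by omega) (by omega) (by omega) (by omega)

theorem n1_10_chk : check 12 7 23 23 0 1 1 1 2
    (fun j n p q => decide ((j = 2 ∧ n = 3 ∧ q ≤ p ∧ 14 ≤ p ∧ p ≤ q + 14 ∧ ((p + q) % 2 = 1 ∧ p % 2 = 0))
      ∨ (j = 2 ∧ n = 1 ∧ q ≤ p ∧ p ≤ q + 14 ∧ ((p + q) % 2 = 1 ∧ p % 2 = 1))
      ∨ (j = 2 ∧ n = 2 ∧ q ≤ p ∧ p ≤ q + 14 ∧ (p = q ∧ p % 2 = 0))
      ∨ (j = 4 ∧ n = 1 ∧ q ≤ p ∧ 8 ≤ p ∧ p ≤ q + 14 ∧ ((p + q) % 2 = 1 ∧ p % 2 = 0))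
      ∨ (j = 4 ∧ n = 2 ∧ q ≤ p ∧ 9 ≤ p ∧ p ≤ q + 14 ∧ (p = q ∧ p % 2 = 1))
      ∨ (j = 4 ∧ n = 3 ∧ q ≤ p ∧ 9 ≤ q ∧ p ≤ q + 14 ∧ ((p + q) % 2 = 1 ∧ p % 2 = 1))
      ∨ (j = 2 ∧ n = 5 ∧ p = 14 ∧ q = 7)
      ∨ (j = 2 ∧ n = 5 ∧ p = 14 ∧ q = 9)
      ∨ (j = 2 ∧ n = 3 ∧ p = 12 ∧ q = 7)
      ∨ (j = 2 ∧ n = 3 ∧ p = 12 ∧ q = 5)
      ∨ (j = 4 ∧ n = 5 ∧ p = 16 ∧ q = 11)
      ∨ (j = 4 ∧ n = 5 ∧ p = 16 ∧ q = 9)))
    (fun j n p q => decide ((j = 2 ∧ n = 3 ∧ q ≤ p ∧ 14 ≤ p ∧ p ≤ q + 14 ∧ ¬ ((p + q) % 2 = 1 ∧ p % 2 = 0))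
      ∨ (j = 2 ∧ n = 1 ∧ q ≤ p ∧ p ≤ q + 14 ∧ ¬ ((p + q) % 2 = 1 ∧ p % 2 = 1))
      ∨ (j = 2 ∧ n = 2 ∧ q ≤ p ∧ p ≤ q + 14 ∧ ¬ (p = q ∧ p % 2 = 0))
      ∨ (j = 4 ∧ n = 1 ∧ q ≤ p ∧ 8 ≤ p ∧ p ≤ q + 14 ∧ ¬ ((p + q) % 2 = 1 ∧ p % 2 = 0))
      ∨ (j = 4 ∧ n = 2 ∧ q ≤ p ∧ 9 ≤ p ∧ p ≤ q + 14 ∧ ¬ (p = q ∧ p % 2 = 1))
      ∨ (j = 4 ∧ n = 3 ∧ q ≤ p ∧ 9 ≤ q ∧ p ≤ q + 14 ∧ ¬ ((p + q) % 2 = 1 ∧ p % 2 = 1))
      ∨ (j = 1 ∧ n = 1 ∧ q ≤ p)
      ∨ (j = 1 ∧ n = 2 ∧ q ≤ p)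
      ∨ (j = 1 ∧ n = 3 ∧ q ≤ p)
      ∨ (j = 1 ∧ n = 4 ∧ q ≤ p)
      ∨ (j = 1 ∧ n = 5 ∧ q ≤ p)
      ∨ (j = 3 ∧ n = 3 ∧ 7 ≤ q ∧ q + 3 ≤ p ∧ p ≤ q + 12)
      ∨ (j = 3 ∧ n = 5 ∧ 11 ≤ q ∧ q + 4 ≤ p ∧ p ≤ q + 11)
      ∨ (j = 5 ∧ n = 5 ∧ 11 ≤ q ∧ q + 3 ≤ p ∧ p ≤ q + 12)))
    99
    0x1b8385143c001b8f1214481a1b900314480014480413350013350112150012200012150112200111fe0022d700121f00121f0e2a1e5222d60020d10020ba00144700123800123700123600196652121e0011180011178e11170e1100001019001002000bf90e0af08e0ae48e0ae40e0ad88e09dc0e09db8e09d00e2a1e072a1d872a12872a120722e28722d60f20d10f20ba0f1b8f07196607196587195a87195a0714548714538714470f143c8712380f12370f12360f122c87122a87121e0f12148711220711218711180f111787111707111687111607110c07110b8711000f10190f10020f0d0c870d0c070d01070d00870c04070c03870bf9870bf9070bf8870bf8070bed870af1070af0870ae5070ae4870ae4070ad9070ad88709dc0709db8709d08709d007 = true := by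
  decide +kernel

theorem n1_10 (hf : Rule f) {k c n : ℕ} (H : PL f k c n (n - 4))
    (D0 : Cyc f (6 * k) (c - 2) (2 * n))
    (D0a : Cyc f (6 * k) (c - 6) (2 * n - 4 - 2 * k))
    (h0 : f (6 * k) c (2 * n + 1) (2 * n - 6))
    (h1 : f (6 * k) c (2 * n + 1) (2 * n - 4))
    (h2 : f (6 * k) (c - 2) (2 * n - 1) (2 * n - 6))
    (h3 : f (6 * k) (c - 2) (2 * n - 1) (2 * n - 8))
    (h4 : f (6 * k + 2) c (2 * n + 3) (2 * n - 2))
    (h5 : f (6 * k + 2) c (2 * n + 3) (2 * n - 4)) : False := by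
  have hk := H.T.hk
  have hc := H.T.hc
  have h4' := H.T.h4
  have hb := H.T.hb
  have hN := H.T.hN2
  obtain ⟨a0, ha0⟩ : ∃ z, z + 2 = 6 * k := ⟨6 * k - 2, by omega⟩
  obtain ⟨b0, hb0⟩ : ∃ z, z + 5 = c := ⟨c - 5, by omega⟩
  obtain ⟨x0, hx0⟩ : ∃ z, z + 13 = 2 * n := ⟨2 * n - 13, by omega⟩
  refine check_sound hf (a0 := a0) (b0 := b0) (x0 := x0) (y0 := x0) n1_10_chk
    ⟨fun _ => rfl, fun h => absurd h (by decide), fun h => absurd h (by decide), by omega, by omega,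
      by omega, by omega⟩ ?_ ?_
  · intro j m p q hr h
    obtain ⟨-, -, -, -, hp1, hp2, hq1, hq2⟩ := hr
    replace h := of_decide_eq_true h
    rcases h with h | h | h | h | h | h | h | h | h | h | h | h
    · obtain ⟨rfl, rfl, h⟩ := h
      exact (WrapC.v0 D0 (by omega) (by omega) (by omega) (by omega) (by omega) (by omega) (by omega)).mpr (by omega)
    · obtain ⟨rfl, rfl, h⟩ := h
      exact (WrapC.v2 D0a (by omega) (by omega) (by omega) (by omega) (by omega) (by omega) (by omega)).mpr (by omega)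
    · obtain ⟨rfl, rfl, h⟩ := h
      exact (WrapC.v3 D0a (by omega) (by omega) (by omega) (by omega) (by omega) (by omega) (by omega) (by omega)).mpr (by omega)
    · obtain ⟨rfl, rfl, h⟩ := h
      exact (WrapC.v0 H.c2 (by omega) (by omega) (by omega) (by omega) (by omega) (by omega) (by omega)).mpr (by omega)
    · obtain ⟨rfl, rfl, h⟩ := h
      exact (WrapC.v1 H.c2 (by omega) (by omega) (by omega) (by omega) (by omega) (by omega) (by omega) (by omega)).mpr (by omega)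
    · obtain ⟨rfl, rfl, h⟩ := h
      exact (WrapC.v2 H.c2 (by omega) (by omega) (by omega) (by omega) (by omega) (by omega) (by omega)).mpr (by omega)
    · obtain ⟨rfl, rfl, rfl, rfl⟩ := h
      exact mv h0 (by omega) (by omega) (by omega) (by omega)
    · obtain ⟨rfl, rfl, rfl, rfl⟩ := h
      exact mv h1 (by omega) (by omega) (by omega) (by omega)
    · obtain ⟨rfl, rfl, rfl, rfl⟩ := h
      exact mv h2 (by omega) (by omega) (by omega) (by omega)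
    · obtain ⟨rfl, rfl, rfl, rfl⟩ := h
      exact mv h3 (by omega) (by omega) (by omega) (by omega)
    · obtain ⟨rfl, rfl, rfl, rfl⟩ := h
      exact mv h4 (by omega) (by omega) (by omega) (by omega)
    · obtain ⟨rfl, rfl, rfl, rfl⟩ := h
      exact mv h5 (by omega) (by omega) (by omega) (by omega)
  · intro j m p q hr h
    obtain ⟨-, -, -, -, hp1, hp2, hq1, hq2⟩ := hr
    replace h := of_decide_eq_true h
    rcases h with h | h | h | h | h | h | h | h | h | h | h | h | h | h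
    · obtain ⟨rfl, rfl, h⟩ := h
      exact mt (WrapC.v0 D0 (by omega) (by omega) (by omega) (by omega) (by omega) (by omega) (by omega)).mp (by omega)
    · obtain ⟨rfl, rfl, h⟩ := h
      exact mt (WrapC.v2 D0a (by omega) (by omega) (by omega) (by omega) (by omega) (by omega) (by omega)).mp (by omega)
    · obtain ⟨rfl, rfl, h⟩ := h
      exact mt (WrapC.v3 D0a (by omega) (by omega) (by omega) (by omega) (by omega) (by omega) (by omega) (by omega)).mp (by omega)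
    · obtain ⟨rfl, rfl, h⟩ := h
      exact mt (WrapC.v0 H.c2 (by omega) (by omega) (by omega) (by omega) (by omega) (by omega) (by omega)).mp (by omega)
    · obtain ⟨rfl, rfl, h⟩ := h
      exact mt (WrapC.v1 H.c2 (by omega) (by omega) (by omega) (by omega) (by omega) (by omega) (by omega) (by omega)).mp (by omega)
    · obtain ⟨rfl, rfl, h⟩ := h
      exact mt (WrapC.v2 H.c2 (by omega) (by omega) (by omega) (by omega) (by omega) (by omega) (by omega)).mp (by omega)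
    · obtain ⟨rfl, rfl, h⟩ := h
      exact H.lw _ _ _ _ (by omega) (by omega) (by omega) (by omega) (by omega) (by omega)
    · obtain ⟨rfl, rfl, h⟩ := h
      exact H.lw _ _ _ _ (by omega) (by omega) (by omega) (by omega) (by omega) (by omega)
    · obtain ⟨rfl, rfl, h⟩ := h
      exact H.lw _ _ _ _ (by omega) (by omega) (by omega) (by omega) (by omega) (by omega)
    · obtain ⟨rfl, rfl, h⟩ := h
      exact H.lw _ _ _ _ (by omega) (by omega) (by omega) (by omega) (by omega) (by omega)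
    · obtain ⟨rfl, rfl, h⟩ := h
      exact H.lw _ _ _ _ (by omega) (by omega) (by omega) (by omega) (by omega) (by omega)
    · obtain ⟨rfl, rfl, h⟩ := h
      exact NHT.pm hf H.T (j := 2) (by omega) (by omega) (by omega) (by omega) (by omega) (by omega)
    · obtain ⟨rfl, rfl, h⟩ := h
      exact NHT.p0 hf H.T (j := 3) (by omega) (by omega) (by omega) (by omega) (by omega) (by omega)
    · obtain ⟨rfl, rfl, h⟩ := h
      exact NHT.p0 hf H.T (j := 2) (by omega) (by omega) (by omega) (by omega) (by omega) (by omega)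

theorem n1_11_chk : check 12 7 23 23 0 1 1 1 2
    (fun j n p q => decide ((j = 2 ∧ n = 3 ∧ q ≤ p ∧ 14 ≤ p ∧ p ≤ q + 14 ∧ ((p + q) % 2 = 1 ∧ p % 2 = 0))
      ∨ (j = 2 ∧ n = 1 ∧ q ≤ p ∧ p ≤ q + 14 ∧ ((p + q) % 2 = 1 ∧ p % 2 = 1))
      ∨ (j = 2 ∧ n = 2 ∧ q ≤ p ∧ p ≤ q + 14 ∧ (p = q ∧ p % 2 = 0))
      ∨ (j = 4 ∧ n = 1 ∧ q ≤ p ∧ 8 ≤ p ∧ p ≤ q + 14 ∧ ((p + q) % 2 = 1 ∧ p % 2 = 0))
      ∨ (j = 4 ∧ n = 2 ∧ q ≤ p ∧ 9 ≤ p ∧ p ≤ q + 14 ∧ (p = q ∧ p % 2 = 1))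
      ∨ (j = 4 ∧ n = 3 ∧ q ≤ p ∧ 9 ≤ q ∧ p ≤ q + 14 ∧ ((p + q) % 2 = 1 ∧ p % 2 = 1))
      ∨ (j = 2 ∧ n = 5 ∧ p = 14 ∧ q = 7)
      ∨ (j = 2 ∧ n = 5 ∧ p = 14 ∧ q = 9)
      ∨ (j = 2 ∧ n = 3 ∧ p = 12 ∧ q = 7)
      ∨ (j = 2 ∧ n = 3 ∧ p = 12 ∧ q = 5)
      ∨ (j = 4 ∧ n = 5 ∧ p = 18 ∧ q = 13)
      ∨ (j = 4 ∧ n = 5 ∧ p = 18 ∧ q = 11)))
    (fun j n p q => decide ((j = 2 ∧ n = 3 ∧ q ≤ p ∧ 14 ≤ p ∧ p ≤ q + 14 ∧ ¬ ((p + q) % 2 = 1 ∧ p % 2 = 0))
      ∨ (j = 2 ∧ n = 1 ∧ q ≤ p ∧ p ≤ q + 14 ∧ ¬ ((p + q) % 2 = 1 ∧ p % 2 = 1))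
      ∨ (j = 2 ∧ n = 2 ∧ q ≤ p ∧ p ≤ q + 14 ∧ ¬ (p = q ∧ p % 2 = 0))
      ∨ (j = 4 ∧ n = 1 ∧ q ≤ p ∧ 8 ≤ p ∧ p ≤ q + 14 ∧ ¬ ((p + q) % 2 = 1 ∧ p % 2 = 0))
      ∨ (j = 4 ∧ n = 2 ∧ q ≤ p ∧ 9 ≤ p ∧ p ≤ q + 14 ∧ ¬ (p = q ∧ p % 2 = 1))
      ∨ (j = 4 ∧ n = 3 ∧ q ≤ p ∧ 9 ≤ q ∧ p ≤ q + 14 ∧ ¬ ((p + q) % 2 = 1 ∧ p % 2 = 1))
      ∨ (j = 1 ∧ n = 1 ∧ q ≤ p)
      ∨ (j = 1 ∧ n = 2 ∧ q ≤ p)
      ∨ (j = 1 ∧ n = 3 ∧ q ≤ p)
      ∨ (j = 1 ∧ n = 4 ∧ q ≤ p)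
      ∨ (j = 1 ∧ n = 5 ∧ q ≤ p)
      ∨ (j = 3 ∧ n = 3 ∧ 7 ≤ q ∧ q + 3 ≤ p ∧ p ≤ q + 12)
      ∨ (j = 3 ∧ n = 5 ∧ 11 ≤ q ∧ q + 4 ≤ p ∧ p ≤ q + 11)
      ∨ (j = 5 ∧ n = 5 ∧ 11 ≤ q ∧ q + 3 ≤ p ∧ p ≤ q + 12)))
    120
    0x22e3031b90001b90011448001448011b8f03143c00143c0414550014550113350013350112150012200012150112200111fe0022ef00121f00121f0e2a365222ee0020e90020d20020d10020bb0020ba00144700124f00123800123700123600196652121e0011180011178e11170e1100001019001002000bf90e0af08e0ae48e0ae40e0ad88e09dc0e09db8e09d00e2a36072a35872a2a872a2a0722fa8722ee0f22e28720e90f20d20f20d10f20bb0f20ba0f1ba7071b8f07196607196587195a87195a0714548714538714470f143c87124f0f12380f12370f12360f122c87122a87121e0f12148711220711218711180f111787111707111687111607110c07110b8711000f10190f10020f0d19870d19070d0e070d0d870d0c870d0c070d01070d00870c11070c10870c05870c05070c04070c03870bf9870bf9070bf8870bf8070bed870af1070af0870ae5070ae4870ae4070ad9070ad88709dc0709db8709d08709d007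 = true := by
  decide +kernel

theorem n1_11 (hf : Rule f) {k c n : ℕ} (H : PL f k c n (n - 4))
    (D0 : Cyc f (6 * k) (c - 2) (2 * n))
    (D0a : Cyc f (6 * k) (c - 6) (2 * n - 4 - 2 * k))
    (h0 : f (6 * k) c (2 * n + 1) (2 * n - 6))
    (h1 : f (6 * k) c (2 * n + 1) (2 * n - 4))
    (h2 : f (6 * k) (c - 2) (2 * n - 1) (2 * n - 6))
    (h3 : f (6 * k) (c - 2) (2 * n - 1) (2 * n - 8))
    (h4 : f (6 * k + 2) c (2 * n + 5) (2 * n))
    (h5 : f (6 * k + 2) c (2 * n + 5) (2 * n - 2)) : False := by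
  have hk := H.T.hk
  have hc := H.T.hc
  have h4' := H.T.h4
  have hb := H.T.hb
  have hN := H.T.hN2
  obtain ⟨a0, ha0⟩ : ∃ z, z + 2 = 6 * k := ⟨6 * k - 2, by omega⟩
  obtain ⟨b0, hb0⟩ : ∃ z, z + 5 = c := ⟨c - 5, by omega⟩
  obtain ⟨x0, hx0⟩ : ∃ z, z + 13 = 2 * n := ⟨2 * n - 13, by omega⟩
  refine check_sound hf (a0 := a0) (b0 := b0) (x0 := x0) (y0 := x0) n1_11_chk
    ⟨fun _ => rfl, fun h => absurd h (by decide), fun h => absurd h (by decide), by omega, by omega,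
      by omega, by omega⟩ ?_ ?_
  · intro j m p q hr h
    obtain ⟨-, -, -, -, hp1, hp2, hq1, hq2⟩ := hr
    replace h := of_decide_eq_true h
    rcases h with h | h | h | h | h | h | h | h | h | h | h | h
    · obtain ⟨rfl, rfl, h⟩ := h
      exact (WrapC.v0 D0 (by omega) (by omega) (by omega) (by omega) (by omega) (by omega) (by omega)).mpr (by omega)
    · obtain ⟨rfl, rfl, h⟩ := h
      exact (WrapC.v2 D0a (by omega) (by omega) (by omega) (by omega) (by omega) (by omega) (by omega)).mpr (by omega)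
    · obtain ⟨rfl, rfl, h⟩ := h
      exact (WrapC.v3 D0a (by omega) (by omega) (by omega) (by omega) (by omega) (by omega) (by omega) (by omega)).mpr (by omega)
    · obtain ⟨rfl, rfl, h⟩ := h
      exact (WrapC.v0 H.c2 (by omega) (by omega) (by omega) (by omega) (by omega) (by omega) (by omega)).mpr (by omega)
    · obtain ⟨rfl, rfl, h⟩ := h
      exact (WrapC.v1 H.c2 (by omega) (by omega) (by omega) (by omega) (by omega) (by omega) (by omega) (by omega)).mpr (by omega)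
    · obtain ⟨rfl, rfl, h⟩ := h
      exact (WrapC.v2 H.c2 (by omega) (by omega) (by omega) (by omega) (by omega) (by omega) (by omega)).mpr (by omega)
    · obtain ⟨rfl, rfl, rfl, rfl⟩ := h
      exact mv h0 (by omega) (by omega) (by omega) (by omega)
    · obtain ⟨rfl, rfl, rfl, rfl⟩ := h
      exact mv h1 (by omega) (by omega) (by omega) (by omega)
    · obtain ⟨rfl, rfl, rfl, rfl⟩ := h
      exact mv h2 (by omega) (by omega) (by omega) (by omega)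
    · obtain ⟨rfl, rfl, rfl, rfl⟩ := h
      exact mv h3 (by omega) (by omega) (by omega) (by omega)
    · obtain ⟨rfl, rfl, rfl, rfl⟩ := h
      exact mv h4 (by omega) (by omega) (by omega) (by omega)
    · obtain ⟨rfl, rfl, rfl, rfl⟩ := h
      exact mv h5 (by omega) (by omega) (by omega) (by omega)
  · intro j m p q hr h
    obtain ⟨-, -, -, -, hp1, hp2, hq1, hq2⟩ := hr
    replace h := of_decide_eq_true h
    rcases h with h | h | h | h | h | h | h | h | h | h | h | h | h | h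
    · obtain ⟨rfl, rfl, h⟩ := h
      exact mt (WrapC.v0 D0 (by omega) (by omega) (by omega) (by omega) (by omega) (by omega) (by omega)).mp (by omega)
    · obtain ⟨rfl, rfl, h⟩ := h
      exact mt (WrapC.v2 D0a (by omega) (by omega) (by omega) (by omega) (by omega) (by omega) (by omega)).mp (by omega)
    · obtain ⟨rfl, rfl, h⟩ := h
      exact mt (WrapC.v3 D0a (by omega) (by omega) (by omega) (by omega) (by omega) (by omega) (by omega) (by omega)).mp (by omega)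
    · obtain ⟨rfl, rfl, h⟩ := h
      exact mt (WrapC.v0 H.c2 (by omega) (by omega) (by omega) (by omega) (by omega) (by omega) (by omega)).mp (by omega)
    · obtain ⟨rfl, rfl, h⟩ := h
      exact mt (WrapC.v1 H.c2 (by omega) (by omega) (by omega) (by omega) (by omega) (by omega) (by omega) (by omega)).mp (by omega)
    · obtain ⟨rfl, rfl, h⟩ := h
      exact mt (WrapC.v2 H.c2 (by omega) (by omega) (by omega) (by omega) (by omega) (by omega) (by omega)).mp (by omega)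
    · obtain ⟨rfl, rfl, h⟩ := h
      exact H.lw _ _ _ _ (by omega) (by omega) (by omega) (by omega) (by omega) (by omega)
    · obtain ⟨rfl, rfl, h⟩ := h
      exact H.lw _ _ _ _ (by omega) (by omega) (by omega) (by omega) (by omega) (by omega)
    · obtain ⟨rfl, rfl, h⟩ := h
      exact H.lw _ _ _ _ (by omega) (by omega) (by omega) (by omega) (by omega) (by omega)
    · obtain ⟨rfl, rfl, h⟩ := h
      exact H.lw _ _ _ _ (by omega) (by omega) (by omega) (by omega) (by omega) (by omega)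
    · obtain ⟨rfl, rfl, h⟩ := h
      exact H.lw _ _ _ _ (by omega) (by omega) (by omega) (by omega) (by omega) (by omega)
    · obtain ⟨rfl, rfl, h⟩ := h
      exact NHT.pm hf H.T (j := 2) (by omega) (by omega) (by omega) (by omega) (by omega) (by omega)
    · obtain ⟨rfl, rfl, h⟩ := h
      exact NHT.p0 hf H.T (j := 3) (by omega) (by omega) (by omega) (by omega) (by omega) (by omega)
    · obtain ⟨rfl, rfl, h⟩ := h
      exact NHT.p0 hf H.T (j := 2) (by omega) (by omega) (by omega) (by omega) (by omega) (by omega)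


end Pool.Agent.SNT.L0X
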