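import Pool.Agent.SNT.PL

set_option autoImplicit false
set_option synthInstance.maxSize 100000
set_option synthInstance.maxHeartbeats 4000000

/-! The E-cell of the road L0 at the special position `X' = 2`: near-diagonal turns of the layer `6 k + 2`. -/

namespace Pool.Agent.SNT.L0X

open Pool.Agent.SNT Pool.Agent.SNT.Sig Pool.Agent.SNT.Loc Pool.Agent.SNT.LW Pool.Agent.SNT.NHZ Pool.Agent.SNT.DRun Pool.Agent.SNT.D1E

variable {f : ℕ → ℕ → ℕ → ℕ → Prop}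

theorem d4_00_chk : check 12 9 27 27 0 1 1 1 2
    (fun j n p q => decide ((j = 2 ∧ n = 3 ∧ q ≤ p ∧ 14 ≤ p ∧ p ≤ q + 14 ∧ ((p + q) % 2 = 1 ∧ p % 2 = 0))
      ∨ (j = 2 ∧ n = 5 ∧ q ≤ p ∧ 15 ≤ q ∧ p ≤ q + 14 ∧ ((p + q) % 2 = 1 ∧ p % 2 = 1))
      ∨ (j = 2 ∧ n = 1 ∧ q ≤ p ∧ p ≤ q + 14 ∧ ((p + q) % 2 = 1 ∧ p % 2 = 1))
      ∨ (j = 2 ∧ n = 2 ∧ q ≤ p ∧ p ≤ q + 14 ∧ (p = q ∧ p % 2 = 0))
      ∨ (j = 4 ∧ n = 1 ∧ q ≤ p ∧ 6 ≤ p ∧ p ≤ q + 14 ∧ ((p + q) % 2 = 1 ∧ p % 2 = 0))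
      ∨ (j = 4 ∧ n = 2 ∧ q ≤ p ∧ 7 ≤ p ∧ p ≤ q + 14 ∧ (p = q ∧ p % 2 = 1))
      ∨ (j = 4 ∧ n = 3 ∧ q ≤ p ∧ 7 ≤ q ∧ p ≤ q + 14 ∧ ((p + q) % 2 = 1 ∧ p % 2 = 1))
      ∨ (j = 4 ∧ n = 4 ∧ q ≤ p ∧ 9 ≤ q ∧ p ≤ q + 14 ∧ (p = q ∧ p % 2 = 0))
      ∨ (j = 6 ∧ n = 3 ∧ q ≤ p ∧ 18 ≤ p ∧ p ≤ q + 14 ∧ ((p + q) % 2 = 1 ∧ p % 2 = 0))
      ∨ (j = 6 ∧ n = 1 ∧ q ≤ p ∧ 3 ≤ q ∧ p ≤ q + 14 ∧ ((p + q) % 2 = 1 ∧ p % 2 = 1))
      ∨ (j = 6 ∧ n = 2 ∧ q ≤ p ∧ 5 ≤ q ∧ p ≤ q + 14 ∧ (p = q ∧ p % 2 = 0))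
      ∨ (j = 8 ∧ n = 1 ∧ q ≤ p ∧ 6 ≤ p ∧ p ≤ q + 14 ∧ ((p + q) % 2 = 1 ∧ p % 2 = 0))
      ∨ (j = 8 ∧ n = 2 ∧ q ≤ p ∧ 7 ≤ p ∧ p ≤ q + 14 ∧ (p = q ∧ p % 2 = 1))
      ∨ (j = 8 ∧ n = 3 ∧ q ≤ p ∧ 7 ≤ q ∧ p ≤ q + 14 ∧ ((p + q) % 2 = 1 ∧ p % 2 = 1))
      ∨ (j = 8 ∧ n = 4 ∧ q ≤ p ∧ 9 ≤ q ∧ p ≤ q + 14 ∧ (p = q ∧ p % 2 = 0))
      ∨ (j = 10 ∧ n = 6 ∧ q ≤ p ∧ 13 ≤ q ∧ p ≤ q + 14 ∧ (p = q ∧ p % 2 = 0))
      ∨ (j = 2 ∧ n = 3 ∧ p = 10 ∧ q = 5)
      ∨ (j = 4 ∧ n = 5 ∧ p = 16 ∧ q = 11)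
      ∨ (j = 4 ∧ n = 5 ∧ p = 14 ∧ q = 9)
      ∨ (j = 6 ∧ n = 3 ∧ p = 10 ∧ q = 5)
      ∨ (j = 8 ∧ n = 5 ∧ p = 16 ∧ q = 11)))
    (fun j n p q => decide ((j = 2 ∧ n = 3 ∧ q ≤ p ∧ 14 ≤ p ∧ p ≤ q + 14 ∧ ¬ ((p + q) % 2 = 1 ∧ p % 2 = 0))
      ∨ (j = 2 ∧ n = 5 ∧ q ≤ p ∧ 15 ≤ q ∧ p ≤ q + 14 ∧ ¬ ((p + q) % 2 = 1 ∧ p % 2 = 1))
      ∨ (j = 2 ∧ n = 1 ∧ q ≤ p ∧ p ≤ q + 14 ∧ ¬ ((p + q) % 2 = 1 ∧ p % 2 = 1))
      ∨ (j = 2 ∧ n = 2 ∧ q ≤ p ∧ p ≤ q + 14 ∧ ¬ (p = q ∧ p % 2 = 0))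
      ∨ (j = 4 ∧ n = 1 ∧ q ≤ p ∧ 6 ≤ p ∧ p ≤ q + 14 ∧ ¬ ((p + q) % 2 = 1 ∧ p % 2 = 0))
      ∨ (j = 4 ∧ n = 2 ∧ q ≤ p ∧ 7 ≤ p ∧ p ≤ q + 14 ∧ ¬ (p = q ∧ p % 2 = 1))
      ∨ (j = 4 ∧ n = 3 ∧ q ≤ p ∧ 7 ≤ q ∧ p ≤ q + 14 ∧ ¬ ((p + q) % 2 = 1 ∧ p % 2 = 1))
      ∨ (j = 4 ∧ n = 4 ∧ q ≤ p ∧ 9 ≤ q ∧ p ≤ q + 14 ∧ ¬ (p = q ∧ p % 2 = 0))
      ∨ (j = 6 ∧ n = 3 ∧ q ≤ p ∧ 18 ≤ p ∧ p ≤ q + 14 ∧ ¬ ((p + q) % 2 = 1 ∧ p % 2 = 0))
      ∨ (j = 6 ∧ n = 1 ∧ q ≤ p ∧ 3 ≤ q ∧ p ≤ q + 14 ∧ ¬ ((p + q) % 2 = 1 ∧ p % 2 = 1))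
      ∨ (j = 6 ∧ n = 2 ∧ q ≤ p ∧ 5 ≤ q ∧ p ≤ q + 14 ∧ ¬ (p = q ∧ p % 2 = 0))
      ∨ (j = 8 ∧ n = 1 ∧ q ≤ p ∧ 6 ≤ p ∧ p ≤ q + 14 ∧ ¬ ((p + q) % 2 = 1 ∧ p % 2 = 0))
      ∨ (j = 8 ∧ n = 2 ∧ q ≤ p ∧ 7 ≤ p ∧ p ≤ q + 14 ∧ ¬ (p = q ∧ p % 2 = 1))
      ∨ (j = 8 ∧ n = 3 ∧ q ≤ p ∧ 7 ≤ q ∧ p ≤ q + 14 ∧ ¬ ((p + q) % 2 = 1 ∧ p % 2 = 1))
      ∨ (j = 8 ∧ n = 4 ∧ q ≤ p ∧ 9 ≤ q ∧ p ≤ q + 14 ∧ ¬ (p = q ∧ p % 2 = 0))
      ∨ (j = 10 ∧ n = 6 ∧ q ≤ p ∧ 13 ≤ q ∧ p ≤ q + 14 ∧ ¬ (p = q ∧ p % 2 = 0))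
      ∨ (j = 1 ∧ n = 1 ∧ q ≤ p)
      ∨ (j = 1 ∧ n = 2 ∧ q ≤ p)
      ∨ (j = 1 ∧ n = 3 ∧ q ≤ p)
      ∨ (j = 1 ∧ n = 4 ∧ q ≤ p)
      ∨ (j = 1 ∧ n = 5 ∧ q ≤ p)
      ∨ (j = 1 ∧ n = 6 ∧ q ≤ p)
      ∨ (j = 1 ∧ n = 7 ∧ q ≤ p)
      ∨ (j = 3 ∧ n = 3 ∧ 7 ≤ q ∧ q + 3 ≤ p ∧ p ≤ q + 12)
      ∨ (j = 7 ∧ n = 3 ∧ 7 ≤ q ∧ q + 1 ≤ p ∧ p ≤ q + 14)
      ∨ (j = 6 ∧ n = 4 ∧ 8 ≤ q ∧ q + 2 ≤ p ∧ p ≤ q + 13)
      ∨ (j = 7 ∧ n = 4 ∧ 8 ≤ q ∧ q + 2 ≤ p ∧ p ≤ q + 13)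
      ∨ (j = 3 ∧ n = 5 ∧ 11 ≤ q ∧ q + 4 ≤ p ∧ p ≤ q + 11)
      ∨ (j = 5 ∧ n = 5 ∧ 11 ≤ q ∧ q + 3 ≤ p ∧ p ≤ q + 12)
      ∨ (j = 7 ∧ n = 5 ∧ 11 ≤ q ∧ q + 2 ≤ p ∧ p ≤ q + 13)
      ∨ (j = 9 ∧ n = 5 ∧ 11 ≤ q ∧ q + 1 ≤ p ∧ p ≤ q + 14)
      ∨ (j = 2 ∧ n = 6 ∧ 12 ≤ q ∧ q + 5 ≤ p ∧ p ≤ q + 10)
      ∨ (j = 3 ∧ n = 6 ∧ 12 ≤ q ∧ q + 5 ≤ p ∧ p ≤ q + 10)
      ∨ (j = 4 ∧ n = 6 ∧ 12 ≤ q ∧ q + 4 ≤ p ∧ p ≤ q + 11)
      ∨ (j = 5 ∧ n = 6 ∧ 12 ≤ q ∧ q + 4 ≤ p ∧ p ≤ q + 11)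
      ∨ (j = 6 ∧ n = 6 ∧ 12 ≤ q ∧ q + 3 ≤ p ∧ p ≤ q + 12)
      ∨ (j = 7 ∧ n = 6 ∧ 12 ≤ q ∧ q + 3 ≤ p ∧ p ≤ q + 12)
      ∨ (j = 8 ∧ n = 6 ∧ 12 ≤ q ∧ q + 2 ≤ p ∧ p ≤ q + 13)
      ∨ (j = 9 ∧ n = 6 ∧ 17 ≤ q ∧ q + 2 ≤ p ∧ p ≤ q + 13)
      ∨ (j = 5 ∧ n = 7 ∧ 17 ≤ q ∧ q + 4 ≤ p ∧ p ≤ q + 11)
      ∨ (j = 7 ∧ n = 7 ∧ 17 ≤ q ∧ q + 3 ≤ p ∧ p ≤ q + 12)
      ∨ (j = 9 ∧ n = 7 ∧ 17 ≤ q ∧ q + 2 ≤ p ∧ p ≤ q + 13)
      ∨ (j = 2 ∧ n = 3 ∧ p = 12 ∧ q = 7)
      ∨ (j = 4 ∧ n = 7 ∧ p = 23 ∧ q = 16)))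
    1544
    0x24928324a00024ad9224bb0024c91a31a7003e784a4b48804b490a3e5d004b2e4a3e42003e42013156003e274a64a8034af9004af9013e36033e36803e370a3e37804b08ca3e46004b174a3e2b003e2b013e36033e36803e370a3e37804b08ca3e46004b174a315a80315a84247980247981247a80245e00247a81245e8a245f00245f8a247b80246000247b81246e1a313f003e1d524aed804afb123e1c004afa523e1b003e1b0464a8034af9004af9013e29003e29043e4f8e64c2034b13004b13013e4f803e4f8464b40e57d60364b40064b40464c20e7e710364c20064c20470190371860071930071930e7193043e1a003e27003e270e3e27044b2d8e3e5d034b2d804b2d84566a036348807019427e56807e63807e638e7e6384566a03633a80633a8461ce8e54fe0361ce8061ce84566a03633a8070195a70198070268070268e7026844b128e3e42034b12804b128424bc0e24ae8324bc0024bc04483a0e3b5c03483a00483a0454fd8361ce0061ce0463480e566a03634800634804565c8e564f03565c80565c843cbc8e3b50033cbc803cbc8424ad8324bb0024c91a31a7003e784a4b48804b490a3e5d003e5d013171003171042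49383316400316404482c8e3b5c03482c80482c84313d8e246d03313d80313d8457bb0e563f8356400057baba57c80057bb0057bb0e57bb0464b48e57d68364a78064b48064b48e64b48431998e24c90331998031998424c90331a7003e784a318c00318c0454c78354d50054d50456770e54fb8354fc0054fc8a61cd8061db12567700567704319a0e24c983319a00319a042165832e36003b074a47d78054b65a54c38054c40a56230056311a5631805631844b208e2493033171003e424a3156003e274a4b05004b131a4b20804b208454f00e54c78354d50054e29254f00054f004566b0e3b4f03481f8054fe5a61ce8061cf0a566b00566b0457d70e57d68357e40057d70057d70e57d7043cf18e3b77833cf1803cf1843b5d833cca003cca043b5b033cc7803cc7842165832e36003b074a47d78054b65a54c38054c40a56230056311a563180563f9a564000564e1a565c00565c0454d40e54c68354d40054d40449980e3b5b034998004998043b690e3b5b833b69003b6904566a8e54fe03566a80566a8449a68e3b5c0349a68049a684249583316600316604565b8e2165832e36003b074a47d78054b65a54c38054c40a56230056311a563180563f9a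564000564e1a564e80565b80565b8e565b8454ac0054ed00562632565a2a54ab0054d20061895261a34a54c48e7b440361878061878151d000534aba54c48054c48454b80e534b0354c50054b80054b80e54b804314b0e247a83314b00314b0449388e47cb83493880493884565b0e61bf03565b00565b0456408e54c70554b90061a552563332564080564084314b8e247a83314b80314b8449a60e3b5b8349a60049a604247a0e247983247a00247a0461888e617a8361888061888447d88347e60047e6043e348e3e27033e34803e34843cd58e3b5b833cd5803cd584247803314880314884497e8e3b4183497e80497e8463558e61e9036355806355842e018e2131032e01802e01842166032e36802e368463478e61db0363478063478461870354a80054a8043cbc0e3b4f033cbc003cbc043cc80e3b5b833cc8003cc80454f10e61dd0354f10054f10431a78e24938324a10024ae9224bc0024c99231a78031a78424958331668031668453678e51fb03536780536784498d0e3b5003498d00498d042e0f0e3aee032e0f002e0f04314a8e247983314a80314a84249303316380316384563f0e61878361958061a312563f00563f0453588e534b03534b8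053588053588e53588454c4035630805630843cbb003cbb013b33002185803b4000230c0021b9803b33012185813b4001230c0121b981218480216a00219e8021ab002184812e4852219e812e7c4a2169002190002e47522e614a3b18003b3f003c9f0047e8c2480fc23c9f013b17003b24002183803b17013b24012183811ffb802008801ffb816ffd00532f002008811e73801fed007ccdc26e7500532f0151a7001e8d801e73811fed011e65006e82007b45c251b40051a7011e8d811e58801e72001e65017b52c26e5a00539f0051b401518c003afc002328002025001e8c801e590a1e72011e4a006e81006e810e6b8e00523300539f0152170051b30051b30e3afd003b23003b230e3ae100388400386900386800384d00383200384c0038310038300038140037f80035660035650035120035110021bd0021a20021bc0021a10023280121a0001ed6001ebb001ed5001eba001e9f001eb9001e9e001e83002025011e9d001e82001e9a121e67001e71001e710e1e8b8089c80089ac008990007b528e7b520e6ffb326e80006d4e006d32006d16006d158e6d150e6cfa006cde006b9b006b9b0e6b9a006b7f0064c18e63550e61f70e61f68e61e90e61e8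8e61db0e61bf0e61be8e61b10e61a30e61a28e61950e61870e608a8e608a0e607c8e607c0e606e8e60528e60520e60448e60368e60360e60288e601a8e56848e56688e565a0e56598e564c8e564c0e53ba0e53b98e53ac0e53ab8e539e0e53900e538f8e538f0e538e8e53820e53818e53810e53740e53738e53660e53658e53580e534a0e52400e52240052240e5e915251b20050b800509b8e509b0e50800050640050480050478e50470e502c004ee7004ecc004b650e4b648e4b578e4b570e4b498e4b490e4b3c0e4b3b8e4b2e0e49f88e49f80e49eb0e49ea8e49dd0e49dc8e49dc0e49cf8e49cf0e49ce8e49c18e49c10e49b38e49898e49890e497b8e482b8e482b0e482a8e481d8e481d0e481c8e480f8e480f0e48018e3e780e3d280e3d278e3d1a8e3d1a0e3d198e3d190e3d0c8e3d0c0e3d0b8e3d0b0e3cff0e3cfe8e3cfe0e3cfd8e3cf10e3cf08e3ce30e3b3e003b3e0e4801523b22003b220e3a0b0e3a0a8e3a0a0e39fd0e39fc8e39f00039ef8e39ef0e39ee8e39e10e39d40039d38e39d30e39d28e39d20e39c50e39c48e39b80039b78e39b70e39a88e39a80e399c00399b8e399b0e399a8e39800038910038910e38900e38750038750e387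40038740e38730038730e38590e38580038580e385700383d00383d0e383c00383b0038210038210e38200038050038050e37250037090036ed0036d10036b500369900358d0e35720e353a0035390035390e351e00351e0e30490e30488e303b8e303b0e303a8e302d8e302d0e2ea60e2e7c0e2e7b8e2e6e0e235d0e235c8e235c0e234f8e234f0e234e8e23418e23410e23408e23338e23330e23258e21e40e21e30e21c90021c90e21c80021c80e21bb0e21ad0021ad0e219f0e1efd001efd0e1efc0e1ee2001ee20e1ee1001ee10e1ee0001ee00e1ec6001ec60e1ec5001ec50e1ec4001ec40e1eaa001eaa0e1ea9001ea90e1ea8001ea80e1e8c0e2b4f521e8c0a1e70001d3e001d2d8e1d2d0e1d22001d210e1d208e1d200e1d1f8e1d130e1d06001d058e1d050e1cea001ba5001b8a0017f90e17f88e17f80e17eb8e17eb0e17ea8e17df0e17de8e17de0e17dd8e17dd0e17dc8e17d18e17d10e17d08e17d00e17cf8e17cf0e17c30e17c28e17c20e17c18e17b58e17b50e17b48e17b40e168c8e168c0e168b8e167f0e167e8e167e0e16728e16720e16718e16710e16708e16700e16650e16648e16640e16638e16630e16628e16570e16568e16560e16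558e16550e16490e16488e16480e16478e163b0e14ea8e14e90e14e88e14db8e14db0e14ce8e14ce0e14cd8e14c08e14c00e14b28e14878e14870e147a0e14798e137c8e137c0e136f0e136e8e13618e13610e13540e13538e13460e13380e13378e132a0e131c0e131b0e131a8e130d8e130d0e11e78e11cb8e11cb0e11c98e11c90e11bd8e11bd0e11bc8e11bc0e11bb8e11af8e11af0e11a18e11a10e11938e105d0e105c8e10508e10500e104f8e104f0e10430e10428e10350e10348e10270e89c80f89ac0f89900f7e71077e70877e63077d04877d04077cf6877b60877b52877b52077b44877b44077b43877b36877b360771a0877034077033877026076ffb076ffa876fed876fed076eac876e90876e8e876e800f6e74876e73876d4e0f6d320f6d160f6d15876d15076d08076d07876d07076d06876cfa0f6cf9876cf9076cde0f6b9b0f6b9a0f6b7f0f64c187635507632a87632a07631d07631c8761f70761f68761e90761e88761db0761da8761cd0761bf0761be8761be0761bd8761b10761b08761b00761a30761a287619507618707608a87608a07607c87607c07606e87606e07606087605287605207604487603687603607602887601a876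01a07600c875e91075e838757e38757c98757c88757ac87568487566887565a07565987564c87564c07550c87550a8754f08754ef8754ee8754ed8754d48754d38754d28754b98754b88754b68754b587549c8753ba0753b98753ac0753ab87539e07539d87539007538f87538f07538e87538207538187538107537407537387536607536587535807535787535707534a07534987534907533c07533b8752400f52328752320752248752240f51fa8751de8751dd8751c28751c08751b20f51a68750b80f509b87509b07508e0750800f50640f50540750538750480f504787504707504687504607503a07503987502c0f4ee70f4ecc0f4b65074b64874b57874b57074b49874b49074b3c074b3b874b2e0749f88749f80749eb0749ea8749dd0749dc8749dc0749cf8749cf0749ce8749c18749c10749b387498987498907497b87482b87482b07482a87481d87481d07481c87480f87480f0748018748010747f3873e78873e78073e77873e5d873e5c873e46873e42873e41873e2a873e29873e28873e26873e0f873d28073d27873d1a873d1a073d19873d19073d0c873d0c073d0b873d0b073cff073cfe873cfe073cfd873cf1073cf0873cf0073ce307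3ce2873cd5073b69873b4f873b4e873b4d873b3e0f3b33873b32873b31873b30873b220f3b17873b16873afa873af9873ae0873a0b073a0a873a0a0739fd8739fd0739fc8739f00f39ef8739ef0739ee8739ee0739e20739e18739e10739e08739d40f39d38739d30739d28739d20739c60739c58739c50739c48739c40739c38739b80f39b78739b70739b68739b60739aa0739a98739a88739a807399c0f399b87399b07399a87398e07398d87398d0739800f38910f38900f38750f38740f38730f38590f38580f38570f383d0f383c0f383b0f38210f38200f38050f37250f37090f36ed0f36d10f36b50f36990f358d0f35720f353a0f35390f351e0f304907304887303b87303b07303a87302d87302d07302007301f873012072ea6072e8a072e7c072e7b872e6e072b4f072b418724bb8724a087249f87248787248587248487246d87246c87246b87246a87245187245087235d07235c87235c07234f87234f07234e8723418723410723408723338723330723258721e40f21e30f21c90f21c80f21bb8721bb0721ad8721ad0f21ab87219f87219f072191872190872177872176872175872158872157872123871efd0f1efc0f1ee20f1ee10f1ee00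f1ec60f1ec50f1ec40f1eb8871eb8071eaa871eaa0f1ea90f1ea80f1e9b871e99871e8c071e81871e80871e7f871e7e871e700f1e65871e64871e4b871d3e0f1d2d871d2d071d220f1d21071d20871d20071d1f871d1f071d13871d13071d12071d11871d060f1d05871d05071d04871d04071cf8071cf7871cea0f1ba50f1b8a0f17f90717f88717f80717eb8717eb0717ea8717df0717de8717de0717dd8717dd0717dc8717d18717d10717d08717d00717cf8717cf0717c30717c28717c20717c18717b58717b50717b48717b40717a78717a707179a07179987168c87168c07168b87167f07167e87167e07167287167207167187167107167087167007166507166487166407166387166307166287165787165707165687165607165587165507164987164907164887164807164787163b87163b07163a87162d87162d0714eb0714ea8714e90714e88714dd0714db8714db0714cf0714ce8714ce0714cd8714c10714c08714c00714b30714b28714a507149587149507149487148807148787148707147a07147987137c87137c07136f07136e87136187136107135487135407135387134687134607133887133807133787132a87132a07132907132887132807131c87131c07131b87131b07131a87130e87130d87130d0711e80711e78711da0711cb8711cb0711c98711c90711be0711bd8711bd0711bc8711bc0711bb8711bb0711b00711af8711af0711ae0711ad8711a20711a18711a107119407119387105d07105c87105087105007104f87104f07104e87104307104287104187104107103507103487102787102707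 = true := by
  decide +kernel

theorem d4_00 (hf : Rule f) {k c n : ℕ} (H : PL f k c n (n - 4))
    (D0 : Cyc f (6 * k) (c - 2) (2 * n))
    (D0a : Cyc f (6 * k) (c - 6) (2 * n - 4 - 2 * k))
    (C2 : Cyc f (6 * k + 2) (c - 4) (2 * (n - 5) + 2))
    (h0 : f (6 * k) (c - 2) (2 * n - 3) (2 * n - 8))
    (h1 : f (6 * k + 2) c (2 * n + 3) (2 * n - 2))
    (h2 : f (6 * k + 2) c (2 * n + 1) (2 * n - 4))
    (h3 : f (6 * k + 4) (c - 2) (2 * n - 3) (2 * n - 8))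
    (h4 : f (6 * k + 6) c (2 * n + 3) (2 * n - 2))
    (z0 : ¬ f (6 * k) (c - 2) (2 * n - 1) (2 * n - 6))
    (z1 : ¬ f (6 * k + 2) (c + 2) (2 * n + 10) (2 * n + 3)) : False := by
  have hk := H.T.hk
  have hc := H.T.hc
  have h4' := H.T.h4
  have hb := H.T.hb
  have hN := H.T.hN2
  obtain ⟨a0, ha0⟩ : ∃ z, z + 2 = 6 * k := ⟨6 * k - 2, by omega⟩
  obtain ⟨b0, hb0⟩ : ∃ z, z + 5 = c := ⟨c - 5, by omega⟩
  obtain ⟨x0, hx0⟩ : ∃ z, z + 13 = 2 * n := ⟨2 * n - 13, by omega⟩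
  refine check_sound hf (a0 := a0) (b0 := b0) (x0 := x0) (y0 := x0) d4_00_chk
    ⟨fun _ => rfl, fun h => absurd h (by decide), fun h => absurd h (by decide), by omega, by omega,
      by omega, by omega⟩ ?_ ?_
  · intro j m p q hr h
    obtain ⟨-, -, -, -, hp1, hp2, hq1, hq2⟩ := hr
    replace h := of_decide_eq_true h
    rcases h with h | h | h | h | h | h | h | h | h | h | h | h | h | h | h | h | h | h | h | h | h
    · obtain ⟨rfl, rfl, h⟩ := h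
      exact (WrapC.v0 D0 (by omega) (by omega) (by omega) (by omega) (by omega) (by omega) (by omega)).mpr (by omega)
    · obtain ⟨rfl, rfl, h⟩ := h
      exact (WrapC.v2 D0 (by omega) (by omega) (by omega) (by omega) (by omega) (by omega) (by omega)).mpr (by omega)
    · obtain ⟨rfl, rfl, h⟩ := h
      exact (WrapC.v2 D0a (by omega) (by omega) (by omega) (by omega) (by omega) (by omega) (by omega)).mpr (by omega)
    · obtain ⟨rfl, rfl, h⟩ := h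
      exact (WrapC.v3 D0a (by omega) (by omega) (by omega) (by omega) (by omega) (by omega) (by omega) (by omega)).mpr (by omega)
    · obtain ⟨rfl, rfl, h⟩ := h
      exact (WrapC.v0 C2 (by omega) (by omega) (by omega) (by omega) (by omega) (by omega) (by omega)).mpr (by omega)
    · obtain ⟨rfl, rfl, h⟩ := h
      exact (WrapC.v1 C2 (by omega) (by omega) (by omega) (by omega) (by omega) (by omega) (by omega) (by omega)).mpr (by omega)
    · obtain ⟨rfl, rfl, h⟩ := h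
      exact (WrapC.v2 C2 (by omega) (by omega) (by omega) (by omega) (by omega) (by omega) (by omega)).mpr (by omega)
    · obtain ⟨rfl, rfl, h⟩ := h
      exact (WrapC.v3 C2 (by omega) (by omega) (by omega) (by omega) (by omega) (by omega) (by omega) (by omega)).mpr (by omega)
    · obtain ⟨rfl, rfl, h⟩ := h
      exact (WrapC.v0 H.c4 (by omega) (by omega) (by omega) (by omega) (by omega) (by omega) (by omega)).mpr (by omega)
    · obtain ⟨rfl, rfl, h⟩ := h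
      exact (WrapC.v2 H.c4a (by omega) (by omega) (by omega) (by omega) (by omega) (by omega) (by omega)).mpr (by omega)
    · obtain ⟨rfl, rfl, h⟩ := h
      exact (WrapC.v3 H.c4a (by omega) (by omega) (by omega) (by omega) (by omega) (by omega) (by omega) (by omega)).mpr (by omega)
    · obtain ⟨rfl, rfl, h⟩ := h
      exact (WrapC.v0 H.c6 (by omega) (by omega) (by omega) (by omega) (by omega) (by omega) (by omega)).mpr (by omega)
    · obtain ⟨rfl, rfl, h⟩ := h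
      exact (WrapC.v1 H.c6 (by omega) (by omega) (by omega) (by omega) (by omega) (by omega) (by omega) (by omega)).mpr (by omega)
    · obtain ⟨rfl, rfl, h⟩ := h
      exact (WrapC.v2 H.c6 (by omega) (by omega) (by omega) (by omega) (by omega) (by omega) (by omega)).mpr (by omega)
    · obtain ⟨rfl, rfl, h⟩ := h
      exact (WrapC.v3 H.c6 (by omega) (by omega) (by omega) (by omega) (by omega) (by omega) (by omega) (by omega)).mpr (by omega)
    · obtain ⟨rfl, rfl, h⟩ := h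
      exact (NW.w3v H.c8 (by omega) (by omega) (by omega) (by omega) (by omega) (by omega) (by omega) (by omega)).mpr (by omega)
    · obtain ⟨rfl, rfl, rfl, rfl⟩ := h
      exact mv h0 (by omega) (by omega) (by omega) (by omega)
    · obtain ⟨rfl, rfl, rfl, rfl⟩ := h
      exact mv h1 (by omega) (by omega) (by omega) (by omega)
    · obtain ⟨rfl, rfl, rfl, rfl⟩ := h
      exact mv h2 (by omega) (by omega) (by omega) (by omega)
    · obtain ⟨rfl, rfl, rfl, rfl⟩ := h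
      exact mv h3 (by omega) (by omega) (by omega) (by omega)
    · obtain ⟨rfl, rfl, rfl, rfl⟩ := h
      exact mv h4 (by omega) (by omega) (by omega) (by omega)
  · intro j m p q hr h
    obtain ⟨-, -, -, -, hp1, hp2, hq1, hq2⟩ := hr
    replace h := of_decide_eq_true h
    rcases h with h | h | h | h | h | h | h | h | h | h | h | h | h | h | h | h | h | h | h | h | h | h | h | h | h | h | h | h | h | h | h | h | h | h | h | h | h | h | h | h | h | h | h | h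
    · obtain ⟨rfl, rfl, h⟩ := h
      exact mt (WrapC.v0 D0 (by omega) (by omega) (by omega) (by omega) (by omega) (by omega) (by omega)).mp (by omega)
    · obtain ⟨rfl, rfl, h⟩ := h
      exact mt (WrapC.v2 D0 (by omega) (by omega) (by omega) (by omega) (by omega) (by omega) (by omega)).mp (by omega)
    · obtain ⟨rfl, rfl, h⟩ := h
      exact mt (WrapC.v2 D0a (by omega) (by omega) (by omega) (by omega) (by omega) (by omega) (by omega)).mp (by omega)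
    · obtain ⟨rfl, rfl, h⟩ := h
      exact mt (WrapC.v3 D0a (by omega) (by omega) (by omega) (by omega) (by omega) (by omega) (by omega) (by omega)).mp (by omega)
    · obtain ⟨rfl, rfl, h⟩ := h
      exact mt (WrapC.v0 C2 (by omega) (by omega) (by omega) (by omega) (by omega) (by omega) (by omega)).mp (by omega)
    · obtain ⟨rfl, rfl, h⟩ := h
      exact mt (WrapC.v1 C2 (by omega) (by omega) (by omega) (by omega) (by omega) (by omega) (by omega) (by omega)).mp (by omega)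
    · obtain ⟨rfl, rfl, h⟩ := h
      exact mt (WrapC.v2 C2 (by omega) (by omega) (by omega) (by omega) (by omega) (by omega) (by omega)).mp (by omega)
    · obtain ⟨rfl, rfl, h⟩ := h
      exact mt (WrapC.v3 C2 (by omega) (by omega) (by omega) (by omega) (by omega) (by omega) (by omega) (by omega)).mp (by omega)
    · obtain ⟨rfl, rfl, h⟩ := h
      exact mt (WrapC.v0 H.c4 (by omega) (by omega) (by omega) (by omega) (by omega) (by omega) (by omega)).mp (by omega)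
    · obtain ⟨rfl, rfl, h⟩ := h
      exact mt (WrapC.v2 H.c4a (by omega) (by omega) (by omega) (by omega) (by omega) (by omega) (by omega)).mp (by omega)
    · obtain ⟨rfl, rfl, h⟩ := h
      exact mt (WrapC.v3 H.c4a (by omega) (by omega) (by omega) (by omega) (by omega) (by omega) (by omega) (by omega)).mp (by omega)
    · obtain ⟨rfl, rfl, h⟩ := h
      exact mt (WrapC.v0 H.c6 (by omega) (by omega) (by omega) (by omega) (by omega) (by omega) (by omega)).mp (by omega)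
    · obtain ⟨rfl, rfl, h⟩ := h
      exact mt (WrapC.v1 H.c6 (by omega) (by omega) (by omega) (by omega) (by omega) (by omega) (by omega) (by omega)).mp (by omega)
    · obtain ⟨rfl, rfl, h⟩ := h
      exact mt (WrapC.v2 H.c6 (by omega) (by omega) (by omega) (by omega) (by omega) (by omega) (by omega)).mp (by omega)
    · obtain ⟨rfl, rfl, h⟩ := h
      exact mt (WrapC.v3 H.c6 (by omega) (by omega) (by omega) (by omega) (by omega) (by omega) (by omega) (by omega)).mp (by omega)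
    · obtain ⟨rfl, rfl, h⟩ := h
      exact mt (NW.w3v H.c8 (by omega) (by omega) (by omega) (by omega) (by omega) (by omega) (by omega) (by omega)).mp (by omega)
    · obtain ⟨rfl, rfl, h⟩ := h
      exact H.lw _ _ _ _ (by omega) (by omega) (by omega) (by omega) (by omega) (by omega)
    · obtain ⟨rfl, rfl, h⟩ := h
      exact H.lw _ _ _ _ (by omega) (by omega) (by omega) (by omega) (by omega) (by omega)
    · obtain ⟨rfl, rfl, h⟩ := h
      exact H.lw _ _ _ _ (by omega) (by omega) (by omega) (by omega) (by omega) (by omega)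
    · obtain ⟨rfl, rfl, h⟩ := h
      exact H.lw _ _ _ _ (by omega) (by omega) (by omega) (by omega) (by omega) (by omega)
    · obtain ⟨rfl, rfl, h⟩ := h
      exact H.lw _ _ _ _ (by omega) (by omega) (by omega) (by omega) (by omega) (by omega)
    · obtain ⟨rfl, rfl, h⟩ := h
      exact H.lw _ _ _ _ (by omega) (by omega) (by omega) (by omega) (by omega) (by omega)
    · obtain ⟨rfl, rfl, h⟩ := h
      exact H.lw _ _ _ _ (by omega) (by omega) (by omega) (by omega) (by omega) (by omega)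
    · obtain ⟨rfl, rfl, h⟩ := h
      exact NHT.pm hf H.T (j := 2) (by omega) (by omega) (by omega) (by omega) (by omega) (by omega)
    · obtain ⟨rfl, rfl, h⟩ := h
      exact NHT.pm hf H.T (j := 0) (by omega) (by omega) (by omega) (by omega) (by omega) (by omega)
    · obtain ⟨rfl, rfl, h⟩ := h
      exact fun t => NHT.rm1 hf H.T (p := 0) (j := 1) (by omega) (by omega) (by omega) (by omega) (by omega) (by omega) (mv t rfl (by omega) rfl rfl)
    · obtain ⟨rfl, rfl, h⟩ := h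
      exact fun t => NHT.rm1 hf H.T (p := 1) (j := 1) (by omega) (by omega) (by omega) (by omega) (by omega) (by omega) (mv t rfl (by omega) rfl rfl)
    · obtain ⟨rfl, rfl, h⟩ := h
      exact NHT.p0 hf H.T (j := 3) (by omega) (by omega) (by omega) (by omega) (by omega) (by omega)
    · obtain ⟨rfl, rfl, h⟩ := h
      exact NHT.p0 hf H.T (j := 2) (by omega) (by omega) (by omega) (by omega) (by omega) (by omega)
    · obtain ⟨rfl, rfl, h⟩ := h
      exact NHT.p0 hf H.T (j := 1) (by omega) (by omega) (by omega) (by omega) (by omega) (by omega)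
    · obtain ⟨rfl, rfl, h⟩ := h
      exact NHT.p0 hf H.T (j := 0) (by omega) (by omega) (by omega) (by omega) (by omega) (by omega)
    · obtain ⟨rfl, rfl, h⟩ := h
      exact fun t => NHT.r1 hf H.T (p := 0) (j := 4) (by omega) (by omega) (by omega) (by omega) (by omega) (by omega) (mv t rfl (by omega) rfl rfl)
    · obtain ⟨rfl, rfl, h⟩ := h
      exact fun t => NHT.r1 hf H.T (p := 1) (j := 4) (by omega) (by omega) (by omega) (by omega) (by omega) (by omega) (mv t rfl (by omega) rfl rfl)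
    · obtain ⟨rfl, rfl, h⟩ := h
      exact fun t => NHT.r1 hf H.T (p := 0) (j := 3) (by omega) (by omega) (by omega) (by omega) (by omega) (by omega) (mv t rfl (by omega) rfl rfl)
    · obtain ⟨rfl, rfl, h⟩ := h
      exact fun t => NHT.r1 hf H.T (p := 1) (j := 3) (by omega) (by omega) (by omega) (by omega) (by omega) (by omega) (mv t rfl (by omega) rfl rfl)
    · obtain ⟨rfl, rfl, h⟩ := h
      exact fun t => NHT.r1 hf H.T (p := 0) (j := 2) (by omega) (by omega) (by omega) (by omega) (by omega) (by omega) (mv t rfl (by omega) rfl rfl)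
    · obtain ⟨rfl, rfl, h⟩ := h
      exact fun t => NHT.r1 hf H.T (p := 1) (j := 2) (by omega) (by omega) (by omega) (by omega) (by omega) (by omega) (mv t rfl (by omega) rfl rfl)
    · obtain ⟨rfl, rfl, h⟩ := h
      exact fun t => NHT.r1 hf H.T (p := 0) (j := 1) (by omega) (by omega) (by omega) (by omega) (by omega) (by omega) (mv t rfl (by omega) rfl rfl)
    · obtain ⟨rfl, rfl, h⟩ := h
      exact NHT.p2 hf H.T (j := 1) (by omega) (by omega) (by omega) (by omega) (by omega) (by omega)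
    · obtain ⟨rfl, rfl, h⟩ := h
      exact NHT.p2 hf H.T (j := 3) (by omega) (by omega) (by omega) (by omega) (by omega) (by omega)
    · obtain ⟨rfl, rfl, h⟩ := h
      exact NHT.p2 hf H.T (j := 2) (by omega) (by omega) (by omega) (by omega) (by omega) (by omega)
    · obtain ⟨rfl, rfl, h⟩ := h
      exact NHT.p2 hf H.T (j := 1) (by omega) (by omega) (by omega) (by omega) (by omega) (by omega)
    · obtain ⟨rfl, rfl, rfl, rfl⟩ := h
      exact fun t => z0 (mv t (by omega) (by omega) (by omega) (by omega))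
    · obtain ⟨rfl, rfl, rfl, rfl⟩ := h
      exact fun t => z1 (mv t (by omega) (by omega) (by omega) (by omega))

theorem d4_01_chk : check 12 9 27 27 0 1 1 1 2
    (fun j n p q => decide ((j = 2 ∧ n = 3 ∧ q ≤ p ∧ 14 ≤ p ∧ p ≤ q + 14 ∧ ((p + q) % 2 = 1 ∧ p % 2 = 0))
      ∨ (j = 2 ∧ n = 5 ∧ q ≤ p ∧ 15 ≤ q ∧ p ≤ q + 14 ∧ ((p + q) % 2 = 1 ∧ p % 2 = 1))
      ∨ (j = 2 ∧ n = 1 ∧ q ≤ p ∧ p ≤ q + 14 ∧ ((p + q) % 2 = 1 ∧ p % 2 = 1))
      ∨ (j = 2 ∧ n = 2 ∧ q ≤ p ∧ p ≤ q + 14 ∧ (p = q ∧ p % 2 = 0))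
      ∨ (j = 4 ∧ n = 1 ∧ q ≤ p ∧ 6 ≤ p ∧ p ≤ q + 14 ∧ ((p + q) % 2 = 1 ∧ p % 2 = 0))
      ∨ (j = 4 ∧ n = 2 ∧ q ≤ p ∧ 7 ≤ p ∧ p ≤ q + 14 ∧ (p = q ∧ p % 2 = 1))
      ∨ (j = 4 ∧ n = 3 ∧ q ≤ p ∧ 7 ≤ q ∧ p ≤ q + 14 ∧ ((p + q) % 2 = 1 ∧ p % 2 = 1))
      ∨ (j = 4 ∧ n = 4 ∧ q ≤ p ∧ 9 ≤ q ∧ p ≤ q + 14 ∧ (p = q ∧ p % 2 = 0))
      ∨ (j = 6 ∧ n = 3 ∧ q ≤ p ∧ 18 ≤ p ∧ p ≤ q + 14 ∧ ((p + q) % 2 = 1 ∧ p % 2 = 0))
      ∨ (j = 6 ∧ n = 1 ∧ q ≤ p ∧ 3 ≤ q ∧ p ≤ q + 14 ∧ ((p + q) % 2 = 1 ∧ p % 2 = 1))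
      ∨ (j = 6 ∧ n = 2 ∧ q ≤ p ∧ 5 ≤ q ∧ p ≤ q + 14 ∧ (p = q ∧ p % 2 = 0))
      ∨ (j = 8 ∧ n = 1 ∧ q ≤ p ∧ 6 ≤ p ∧ p ≤ q + 14 ∧ ((p + q) % 2 = 1 ∧ p % 2 = 0))
      ∨ (j = 8 ∧ n = 2 ∧ q ≤ p ∧ 7 ≤ p ∧ p ≤ q + 14 ∧ (p = q ∧ p % 2 = 1))
      ∨ (j = 8 ∧ n = 3 ∧ q ≤ p ∧ 7 ≤ q ∧ p ≤ q + 14 ∧ ((p + q) % 2 = 1 ∧ p % 2 = 1))
      ∨ (j = 8 ∧ n = 4 ∧ q ≤ p ∧ 9 ≤ q ∧ p ≤ q + 14 ∧ (p = q ∧ p % 2 = 0))
      ∨ (j = 10 ∧ n = 3 ∧ q ≤ p ∧ 10 ≤ p ∧ p ≤ q + 13 ∧ ((p + q) % 2 = 1 ∧ p % 2 = 0))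
      ∨ (j = 10 ∧ n = 6 ∧ q ≤ p ∧ 13 ≤ q ∧ p ≤ q + 14 ∧ (p = q ∧ p % 2 = 0))
      ∨ (j = 10 ∧ n = 1 ∧ q ≤ p ∧ p ≤ q + 14 ∧ ((p + q) % 2 = 1 ∧ p % 2 = 1))
      ∨ (j = 10 ∧ n = 2 ∧ q ≤ p ∧ p ≤ q + 14 ∧ (p = q ∧ p % 2 = 0))
      ∨ (j = 2 ∧ n = 3 ∧ p = 10 ∧ q = 5)
      ∨ (j = 4 ∧ n = 5 ∧ p = 16 ∧ q = 11)
      ∨ (j = 4 ∧ n = 5 ∧ p = 14 ∧ q = 9)
      ∨ (j = 6 ∧ n = 3 ∧ p = 10 ∧ q = 5)
      ∨ (j = 8 ∧ n = 5 ∧ p = 18 ∧ q = 13)))
    (fun j n p q => decide ((j = 2 ∧ n = 3 ∧ q ≤ p ∧ 14 ≤ p ∧ p ≤ q + 14 ∧ ¬ ((p + q) % 2 = 1 ∧ p % 2 = 0))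
      ∨ (j = 2 ∧ n = 5 ∧ q ≤ p ∧ 15 ≤ q ∧ p ≤ q + 14 ∧ ¬ ((p + q) % 2 = 1 ∧ p % 2 = 1))
      ∨ (j = 2 ∧ n = 1 ∧ q ≤ p ∧ p ≤ q + 14 ∧ ¬ ((p + q) % 2 = 1 ∧ p % 2 = 1))
      ∨ (j = 2 ∧ n = 2 ∧ q ≤ p ∧ p ≤ q + 14 ∧ ¬ (p = q ∧ p % 2 = 0))
      ∨ (j = 4 ∧ n = 1 ∧ q ≤ p ∧ 6 ≤ p ∧ p ≤ q + 14 ∧ ¬ ((p + q) % 2 = 1 ∧ p % 2 = 0))
      ∨ (j = 4 ∧ n = 2 ∧ q ≤ p ∧ 7 ≤ p ∧ p ≤ q + 14 ∧ ¬ (p = q ∧ p % 2 = 1))
      ∨ (j = 4 ∧ n = 3 ∧ q ≤ p ∧ 7 ≤ q ∧ p ≤ q + 14 ∧ ¬ ((p + q) % 2 = 1 ∧ p % 2 = 1))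
      ∨ (j = 4 ∧ n = 4 ∧ q ≤ p ∧ 9 ≤ q ∧ p ≤ q + 14 ∧ ¬ (p = q ∧ p % 2 = 0))
      ∨ (j = 6 ∧ n = 3 ∧ q ≤ p ∧ 18 ≤ p ∧ p ≤ q + 14 ∧ ¬ ((p + q) % 2 = 1 ∧ p % 2 = 0))
      ∨ (j = 6 ∧ n = 1 ∧ q ≤ p ∧ 3 ≤ q ∧ p ≤ q + 14 ∧ ¬ ((p + q) % 2 = 1 ∧ p % 2 = 1))
      ∨ (j = 6 ∧ n = 2 ∧ q ≤ p ∧ 5 ≤ q ∧ p ≤ q + 14 ∧ ¬ (p = q ∧ p % 2 = 0))
      ∨ (j = 8 ∧ n = 1 ∧ q ≤ p ∧ 6 ≤ p ∧ p ≤ q + 14 ∧ ¬ ((p + q) % 2 = 1 ∧ p % 2 = 0))
      ∨ (j = 8 ∧ n = 2 ∧ q ≤ p ∧ 7 ≤ p ∧ p ≤ q + 14 ∧ ¬ (p = q ∧ p % 2 = 1))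
      ∨ (j = 8 ∧ n = 3 ∧ q ≤ p ∧ 7 ≤ q ∧ p ≤ q + 14 ∧ ¬ ((p + q) % 2 = 1 ∧ p % 2 = 1))
      ∨ (j = 8 ∧ n = 4 ∧ q ≤ p ∧ 9 ≤ q ∧ p ≤ q + 14 ∧ ¬ (p = q ∧ p % 2 = 0))
      ∨ (j = 10 ∧ n = 3 ∧ q ≤ p ∧ 10 ≤ p ∧ p ≤ q + 13 ∧ ¬ ((p + q) % 2 = 1 ∧ p % 2 = 0))
      ∨ (j = 10 ∧ n = 6 ∧ q ≤ p ∧ 13 ≤ q ∧ p ≤ q + 14 ∧ ¬ (p = q ∧ p % 2 = 0))
      ∨ (j = 10 ∧ n = 1 ∧ q ≤ p ∧ p ≤ q + 14 ∧ ¬ ((p + q) % 2 = 1 ∧ p % 2 = 1))
      ∨ (j = 10 ∧ n = 2 ∧ q ≤ p ∧ p ≤ q + 14 ∧ ¬ (p = q ∧ p % 2 = 0))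
      ∨ (j = 1 ∧ n = 1 ∧ q ≤ p)
      ∨ (j = 1 ∧ n = 2 ∧ q ≤ p)
      ∨ (j = 1 ∧ n = 3 ∧ q ≤ p)
      ∨ (j = 1 ∧ n = 4 ∧ q ≤ p)
      ∨ (j = 1 ∧ n = 5 ∧ q ≤ p)
      ∨ (j = 1 ∧ n = 6 ∧ q ≤ p)
      ∨ (j = 1 ∧ n = 7 ∧ q ≤ p)
      ∨ (j = 3 ∧ n = 3 ∧ 7 ≤ q ∧ q + 3 ≤ p ∧ p ≤ q + 12)
      ∨ (j = 7 ∧ n = 3 ∧ 7 ≤ q ∧ q + 1 ≤ p ∧ p ≤ q + 14)
      ∨ (j = 9 ∧ n = 3 ∧ 9 ≤ p ∧ q + 1 ≤ p ∧ p ≤ q + 14)
      ∨ (j = 3 ∧ n = 5 ∧ 11 ≤ q ∧ q + 4 ≤ p ∧ p ≤ q + 11)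
      ∨ (j = 5 ∧ n = 5 ∧ 11 ≤ q ∧ q + 3 ≤ p ∧ p ≤ q + 12)
      ∨ (j = 7 ∧ n = 5 ∧ 11 ≤ q ∧ q + 2 ≤ p ∧ p ≤ q + 13)
      ∨ (j = 9 ∧ n = 5 ∧ 11 ≤ q ∧ q + 1 ≤ p ∧ p ≤ q + 14)
      ∨ (j = 2 ∧ n = 6 ∧ 12 ≤ q ∧ q + 5 ≤ p ∧ p ≤ q + 10)
      ∨ (j = 3 ∧ n = 6 ∧ 12 ≤ q ∧ q + 5 ≤ p ∧ p ≤ q + 10)
      ∨ (j = 4 ∧ n = 6 ∧ 12 ≤ q ∧ q + 4 ≤ p ∧ p ≤ q + 11)
      ∨ (j = 5 ∧ n = 6 ∧ 12 ≤ q ∧ q + 4 ≤ p ∧ p ≤ q + 11)
      ∨ (j = 6 ∧ n = 6 ∧ 12 ≤ q ∧ q + 3 ≤ p ∧ p ≤ q + 12)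
      ∨ (j = 7 ∧ n = 6 ∧ 12 ≤ q ∧ q + 3 ≤ p ∧ p ≤ q + 12)
      ∨ (j = 8 ∧ n = 6 ∧ 12 ≤ q ∧ q + 2 ≤ p ∧ p ≤ q + 13)
      ∨ (j = 9 ∧ n = 6 ∧ 17 ≤ q ∧ q + 2 ≤ p ∧ p ≤ q + 13)
      ∨ (j = 5 ∧ n = 7 ∧ 17 ≤ q ∧ q + 4 ≤ p ∧ p ≤ q + 11)
      ∨ (j = 7 ∧ n = 7 ∧ 17 ≤ q ∧ q + 3 ≤ p ∧ p ≤ q + 12)
      ∨ (j = 9 ∧ n = 7 ∧ 17 ≤ q ∧ q + 2 ≤ p ∧ p ≤ q + 13)
      ∨ (j = 11 ∧ n = 7 ∧ 17 ≤ q ∧ q + 1 ≤ p ∧ p ≤ q + 14)
      ∨ (j = 2 ∧ n = 3 ∧ p = 12 ∧ q = 7)
      ∨ (j = 4 ∧ n = 7 ∧ p = 23 ∧ q = 16)))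
    900
    0x4af9033b41803b4181498c853b4f004af9223b4f013b34003b34043e420e4b2d853e4f004b2e0a3e5d1a3e42003e42043e7803318c00318c043b77033ce3803ce38449988e3b5b834998804998844b130e7e630364b48064c2124b13004b1304313f0e246e03313f00313f044b128e2493033163803e425a4b12804b12843cd60e3b5c033cd6003cd604633b8e61cf03633b80633b84649a0e7e4903649a00649a04565d0e61c103565d00565d0424bb0e24928324a00024ad9224bb0024bb04314a8e247983314a80314a8461db036347806347843b770349b40049b4043cd58e3b5b833cd5803cd5843e27003e1a003e27013e1a01313b8e246b03313b80313b8424ae03317e80317e8461db83567780567784314a0e247983314a00314a04313c0e246b03313c00313c0449a60e3b5b8349a60049a60464a80e7e570364a80064a804246a0e21668322d38022e19a22e200245cba245d00246a00246a0e246a0424928324a00024ad9224bb0024c91a31a7003e784a4b48804b490a3e5d003e5d04566b0e61cf03566b00566b042e45032166002166047e558e9804837e55807e558424928324a00024ad9224bb0024c91a31a7003e784a4b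3b004b3b04249303317100317104314b8e247a83314b80314b8424c9033199803199844b050e4af7834b05004b0504245e0e2e450321660021668a22d38022e19a22e200245cba246a00245d00247792245d8a248500245e00245e0e245e0471920e7e710371920071920424ae8324bc0024c99231a78031a7843b420e3b41833b42003b4204314c0e247b83314c00314c0424ae83317f00317f04247a0e247983247a00247a042166832e37002e451a22e10022e1043cbb003cbb013b33002185803b4000230c0021b9803b33012185813b4001230c0121b981218480216a00219e8021ab002184812e4852219e812e7c4a2169002190002e47522e614a3b18003b3f003c9f0047e8c2480fc23c9f013b17003b24002183803b17013b24012183811ffb802008801ffb817019002008811e73801fed007ce9c26e91001e8d801e73811fed011e65006e9e007b61c21e8d811e58801e72001e65017b6ec26e7600884d003afc002025001e8c801e590a1e72011e4a006e9d006e9d0e884d016baa0052180052170051fc003afd003b23003b230e38310021a10021a0001eba001e9f001eb9001e9e001e83002025011e9d001e82001e9a121e67001e71001e710e8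9c80089ac008566007e710e7e708e7e630e7e628e7e550e7d048e7d040e7cf68e7cf60e7ce88e7b6e8e7b6e0e70340e70338e70260e70258e70180e7017326e9c006d32006d318e6d310e6d16006bd3006bd2006bb7006bb70e61e90e61e88e61db0e61da8e61cd0e523f0e52240052240e52230052230e480f8e480f0e48018e3b3e003b3e0e4801523b220039f00039ef8e39ef0e39ee8e39e10e39d40039d38e39d30e39d28e39d20e39c50e39c48e39b80039b78e39b70e399c0038580038580e385700383c002e7c0e2e7b8e2e6e0e235d0e235c8e235c0e234f8e234f0e234e8e23418e21c80021c80e21ad0021ad0e219f0e1efd001efc001ee2001ee1001ee10e1ee0001ee00e1ec6001ec60e1ec5001ec50e1ec4001ec40e1eaa001eaa0e1ea9001ea90e1ea8001ea80e1e8c0e2b4f521e70001d3e001d2d8e1d2d0e1d22001d210e1d208e1d200e1d1f8e1d130e1d06001d058e1d050e1cea001ba5001b8a0017f90e17f88e17f80e17eb8e17eb0e17ea8e17de0e17dd8e17d08e17d00e17c30e17c28e17b58e17b50e17a78e17a70e17a68e17998e17990e178b8e168c8e168c0e168b8e167f0e167e8e167e0e16718e16710e16640e16638e16568e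16560e16490e16488e163b0e163a8e163a0e162d0e162c8e161f0e14e90e14e88e14db8e14db0e14ce8e14ce0e14cd8e14c08e14c00e14b28e137c8e137c0e136f0e136e8e13618e13610e13540e13538e13460e13380e13378e132a0e131c0e11e78e11cb8e11cb0e11c98e11c90e11bd8e11bd0e11bc8e11bc0e11bb8e11af8e11af0e11a18e11a10e11938e105d0e105c8e10508e10500e104f8e104f0e10430e10428e10350e10348e10270e98048798040797f6878b268789c80f89c78789c70789ba0789b98789ac0f884c8785660f7e71077e70877e63077e62877e55077d04877d04077cf6877cf6077ce8877b7c877b7c077b6e877b6e077b608771a087718687718487716a877034077033877026077025877018077017077016877009877009076eac876eaa876e9c0f6e90876d320f6d31876d31076d24076d23876d160f6bd30f6bd20f6bb70f64c18763550763468763460763390763388761e90761e88761db0761da8761da0761d98761cd0761cc8761cc0757e387568487550a8754f087523f0f52240f52230f4b49074b3b874b2e0749dc8749dc0749cf0749ce8749c18749c10749b387480f87480f0748018748010747f3873e78873e780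73e77873e5d873e5c873e41873e28873e26873e0c873d0c073d0b873d0b073cfe873cfe073cfd873cf1073cf0873cf0073ce3073ce2873cd5073b69873b4e873b4d873b3e0f3b33873b32873b31873b30873b220f3b17873b16873a0a873a0a0739fd0739fc8739f00f39ef8739ef0739ee8739e20739e18739e10739d40f39d38739d30739d28739d20739c60739c58739c50739c48739c40739c38739b80f39b78739b70739b68739b60739aa0739a987399c0f38580f38570f383c0f303b07303a87302d87302d07302007301f873012072ea6072e7c072e7b872e6e072b4f072b418724bb8724a087249f87248587248487246d87246c87246b87246a87246987244f87244e87235d07235c87235c07234f87234f07234e8723418723410723408723338723330723258721c80f21ad0f21ab87219f87219f072191872190872177872176872175872174872158871efd0f1efc0f1ee20f1ee10f1ee00f1ec60f1ec50f1ec40f1eb8871eb8071eaa871eaa0f1ea90f1ea80f1e9b871e99871e8c071e81871e80871e7f871e7e871e700f1e65871e64871e4b871d3e0f1d2d871d2d071d220f1d21071d20871d20071d1f871d13871d13071d12071d11871d06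0f1d05871d05071d04871d04071cf8071cf7871cea0f1ba50f1b8a0f17f90717f88717f80717eb8717eb0717ea8717de0717dd8717dd0717dc8717d08717d00717cf8717cf0717c30717c28717c20717c18717b58717b50717b48717b40717a78717a70717a687179a07179987179907178c07178b87177e07168c87168c07168b87167f07167e87167e07167187167107167087167007166407166387166307166287165687165607165587165507164907164887164807164787163b87163b07163a87163a07162d87162d07162c87161f87161f0716118716110716108716038716030714e90714e88714db8714db0714cf0714ce8714ce0714cd8714c10714c08714c00714b30714b28714a50714a48714a407149707149687149607149587148887148807137c87137c07136f07136e87136187136107135487135407135387134687134607133887133807133787132a87132a07132987132907131c87131c07131b87130e8711e80711e78711da0711cb8711cb0711c98711c90711be0711bd8711bd0711bc8711bc0711bb8711b00711af8711af0711a20711a18711a107119407119387105d07105c87105087105007104f87104f07104307104287103507103487102787102707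 = true := by
  decide +kernel

theorem d4_01 (hf : Rule f) {k c n : ℕ} (H : PL f k c n (n - 4))
    (D0 : Cyc f (6 * k) (c - 2) (2 * n))
    (D0a : Cyc f (6 * k) (c - 6) (2 * n - 4 - 2 * k))
    (C2 : Cyc f (6 * k + 2) (c - 4) (2 * (n - 5) + 2))
    (h0 : f (6 * k) (c - 2) (2 * n - 3) (2 * n - 8))
    (h1 : f (6 * k + 2) c (2 * n + 3) (2 * n - 2))
    (h2 : f (6 * k + 2) c (2 * n + 1) (2 * n - 4))
    (h3 : f (6 * k + 4) (c - 2) (2 * n - 3) (2 * n - 8))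
    (h4 : f (6 * k + 6) c (2 * n + 5) (2 * n))
    (z0 : ¬ f (6 * k) (c - 2) (2 * n - 1) (2 * n - 6))
    (z1 : ¬ f (6 * k + 2) (c + 2) (2 * n + 10) (2 * n + 3)) : False := by
  have hk := H.T.hk
  have hc := H.T.hc
  have h4' := H.T.h4
  have hb := H.T.hb
  have hN := H.T.hN2
  obtain ⟨a0, ha0⟩ : ∃ z, z + 2 = 6 * k := ⟨6 * k - 2, by omega⟩
  obtain ⟨b0, hb0⟩ : ∃ z, z + 5 = c := ⟨c - 5, by omega⟩
  obtain ⟨x0, hx0⟩ : ∃ z, z + 13 = 2 * n := ⟨2 * n - 13, by omega⟩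
  refine check_sound hf (a0 := a0) (b0 := b0) (x0 := x0) (y0 := x0) d4_01_chk
    ⟨fun _ => rfl, fun h => absurd h (by decide), fun h => absurd h (by decide), by omega, by omega,
      by omega, by omega⟩ ?_ ?_
  · intro j m p q hr h
    obtain ⟨-, -, -, -, hp1, hp2, hq1, hq2⟩ := hr
    replace h := of_decide_eq_true h
    rcases h with h | h | h | h | h | h | h | h | h | h | h | h | h | h | h | h | h | h | h | h | h | h | h | h
    · obtain ⟨rfl, rfl, h⟩ := h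
      exact (WrapC.v0 D0 (by omega) (by omega) (by omega) (by omega) (by omega) (by omega) (by omega)).mpr (by omega)
    · obtain ⟨rfl, rfl, h⟩ := h
      exact (WrapC.v2 D0 (by omega) (by omega) (by omega) (by omega) (by omega) (by omega) (by omega)).mpr (by omega)
    · obtain ⟨rfl, rfl, h⟩ := h
      exact (WrapC.v2 D0a (by omega) (by omega) (by omega) (by omega) (by omega) (by omega) (by omega)).mpr (by omega)
    · obtain ⟨rfl, rfl, h⟩ := h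
      exact (WrapC.v3 D0a (by omega) (by omega) (by omega) (by omega) (by omega) (by omega) (by omega) (by omega)).mpr (by omega)
    · obtain ⟨rfl, rfl, h⟩ := h
      exact (WrapC.v0 C2 (by omega) (by omega) (by omega) (by omega) (by omega) (by omega) (by omega)).mpr (by omega)
    · obtain ⟨rfl, rfl, h⟩ := h
      exact (WrapC.v1 C2 (by omega) (by omega) (by omega) (by omega) (by omega) (by omega) (by omega) (by omega)).mpr (by omega)
    · obtain ⟨rfl, rfl, h⟩ := h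
      exact (WrapC.v2 C2 (by omega) (by omega) (by omega) (by omega) (by omega) (by omega) (by omega)).mpr (by omega)
    · obtain ⟨rfl, rfl, h⟩ := h
      exact (WrapC.v3 C2 (by omega) (by omega) (by omega) (by omega) (by omega) (by omega) (by omega) (by omega)).mpr (by omega)
    · obtain ⟨rfl, rfl, h⟩ := h
      exact (WrapC.v0 H.c4 (by omega) (by omega) (by omega) (by omega) (by omega) (by omega) (by omega)).mpr (by omega)
    · obtain ⟨rfl, rfl, h⟩ := h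
      exact (WrapC.v2 H.c4a (by omega) (by omega) (by omega) (by omega) (by omega) (by omega) (by omega)).mpr (by omega)
    · obtain ⟨rfl, rfl, h⟩ := h
      exact (WrapC.v3 H.c4a (by omega) (by omega) (by omega) (by omega) (by omega) (by omega) (by omega) (by omega)).mpr (by omega)
    · obtain ⟨rfl, rfl, h⟩ := h
      exact (WrapC.v0 H.c6 (by omega) (by omega) (by omega) (by omega) (by omega) (by omega) (by omega)).mpr (by omega)
    · obtain ⟨rfl, rfl, h⟩ := h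
      exact (WrapC.v1 H.c6 (by omega) (by omega) (by omega) (by omega) (by omega) (by omega) (by omega) (by omega)).mpr (by omega)
    · obtain ⟨rfl, rfl, h⟩ := h
      exact (WrapC.v2 H.c6 (by omega) (by omega) (by omega) (by omega) (by omega) (by omega) (by omega)).mpr (by omega)
    · obtain ⟨rfl, rfl, h⟩ := h
      exact (WrapC.v3 H.c6 (by omega) (by omega) (by omega) (by omega) (by omega) (by omega) (by omega) (by omega)).mpr (by omega)
    · obtain ⟨rfl, rfl, h⟩ := h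
      exact (NW.w0v H.c8 (by omega) (by omega) (by omega) (by omega) (by omega) (by omega) (by omega)).mpr (by omega)
    · obtain ⟨rfl, rfl, h⟩ := h
      exact (NW.w3v H.c8 (by omega) (by omega) (by omega) (by omega) (by omega) (by omega) (by omega) (by omega)).mpr (by omega)
    · obtain ⟨rfl, rfl, h⟩ := h
      exact (NW.w2v H.c8a (by omega) (by omega) (by omega) (by omega) (by omega) (by omega) (by omega)).mpr (by omega)
    · obtain ⟨rfl, rfl, h⟩ := h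
      exact (NW.w3v H.c8a (by omega) (by omega) (by omega) (by omega) (by omega) (by omega) (by omega) (by omega)).mpr (by omega)
    · obtain ⟨rfl, rfl, rfl, rfl⟩ := h
      exact mv h0 (by omega) (by omega) (by omega) (by omega)
    · obtain ⟨rfl, rfl, rfl, rfl⟩ := h
      exact mv h1 (by omega) (by omega) (by omega) (by omega)
    · obtain ⟨rfl, rfl, rfl, rfl⟩ := h
      exact mv h2 (by omega) (by omega) (by omega) (by omega)
    · obtain ⟨rfl, rfl, rfl, rfl⟩ := h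
      exact mv h3 (by omega) (by omega) (by omega) (by omega)
    · obtain ⟨rfl, rfl, rfl, rfl⟩ := h
      exact mv h4 (by omega) (by omega) (by omega) (by omega)
  · intro j m p q hr h
    obtain ⟨-, -, -, -, hp1, hp2, hq1, hq2⟩ := hr
    replace h := of_decide_eq_true h
    rcases h with h | h | h | h | h | h | h | h | h | h | h | h | h | h | h | h | h | h | h | h | h | h | h | h | h | h | h | h | h | h | h | h | h | h | h | h | h | h | h | h | h | h | h | h | h | h | h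
    · obtain ⟨rfl, rfl, h⟩ := h
      exact mt (WrapC.v0 D0 (by omega) (by omega) (by omega) (by omega) (by omega) (by omega) (by omega)).mp (by omega)
    · obtain ⟨rfl, rfl, h⟩ := h
      exact mt (WrapC.v2 D0 (by omega) (by omega) (by omega) (by omega) (by omega) (by omega) (by omega)).mp (by omega)
    · obtain ⟨rfl, rfl, h⟩ := h
      exact mt (WrapC.v2 D0a (by omega) (by omega) (by omega) (by omega) (by omega) (by omega) (by omega)).mp (by omega)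
    · obtain ⟨rfl, rfl, h⟩ := h
      exact mt (WrapC.v3 D0a (by omega) (by omega) (by omega) (by omega) (by omega) (by omega) (by omega) (by omega)).mp (by omega)
    · obtain ⟨rfl, rfl, h⟩ := h
      exact mt (WrapC.v0 C2 (by omega) (by omega) (by omega) (by omega) (by omega) (by omega) (by omega)).mp (by omega)
    · obtain ⟨rfl, rfl, h⟩ := h
      exact mt (WrapC.v1 C2 (by omega) (by omega) (by omega) (by omega) (by omega) (by omega) (by omega) (by omega)).mp (by omega)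
    · obtain ⟨rfl, rfl, h⟩ := h
      exact mt (WrapC.v2 C2 (by omega) (by omega) (by omega) (by omega) (by omega) (by omega) (by omega)).mp (by omega)
    · obtain ⟨rfl, rfl, h⟩ := h
      exact mt (WrapC.v3 C2 (by omega) (by omega) (by omega) (by omega) (by omega) (by omega) (by omega) (by omega)).mp (by omega)
    · obtain ⟨rfl, rfl, h⟩ := h
      exact mt (WrapC.v0 H.c4 (by omega) (by omega) (by omega) (by omega) (by omega) (by omega) (by omega)).mp (by omega)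
    · obtain ⟨rfl, rfl, h⟩ := h
      exact mt (WrapC.v2 H.c4a (by omega) (by omega) (by omega) (by omega) (by omega) (by omega) (by omega)).mp (by omega)
    · obtain ⟨rfl, rfl, h⟩ := h
      exact mt (WrapC.v3 H.c4a (by omega) (by omega) (by omega) (by omega) (by omega) (by omega) (by omega) (by omega)).mp (by omega)
    · obtain ⟨rfl, rfl, h⟩ := h
      exact mt (WrapC.v0 H.c6 (by omega) (by omega) (by omega) (by omega) (by omega) (by omega) (by omega)).mp (by omega)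
    · obtain ⟨rfl, rfl, h⟩ := h
      exact mt (WrapC.v1 H.c6 (by omega) (by omega) (by omega) (by omega) (by omega) (by omega) (by omega) (by omega)).mp (by omega)
    · obtain ⟨rfl, rfl, h⟩ := h
      exact mt (WrapC.v2 H.c6 (by omega) (by omega) (by omega) (by omega) (by omega) (by omega) (by omega)).mp (by omega)
    · obtain ⟨rfl, rfl, h⟩ := h
      exact mt (WrapC.v3 H.c6 (by omega) (by omega) (by omega) (by omega) (by omega) (by omega) (by omega) (by omega)).mp (by omega)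
    · obtain ⟨rfl, rfl, h⟩ := h
      exact mt (NW.w0v H.c8 (by omega) (by omega) (by omega) (by omega) (by omega) (by omega) (by omega)).mp (by omega)
    · obtain ⟨rfl, rfl, h⟩ := h
      exact mt (NW.w3v H.c8 (by omega) (by omega) (by omega) (by omega) (by omega) (by omega) (by omega) (by omega)).mp (by omega)
    · obtain ⟨rfl, rfl, h⟩ := h
      exact mt (NW.w2v H.c8a (by omega) (by omega) (by omega) (by omega) (by omega) (by omega) (by omega)).mp (by omega)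
    · obtain ⟨rfl, rfl, h⟩ := h
      exact mt (NW.w3v H.c8a (by omega) (by omega) (by omega) (by omega) (by omega) (by omega) (by omega) (by omega)).mp (by omega)
    · obtain ⟨rfl, rfl, h⟩ := h
      exact H.lw _ _ _ _ (by omega) (by omega) (by omega) (by omega) (by omega) (by omega)
    · obtain ⟨rfl, rfl, h⟩ := h
      exact H.lw _ _ _ _ (by omega) (by omega) (by omega) (by omega) (by omega) (by omega)
    · obtain ⟨rfl, rfl, h⟩ := h
      exact H.lw _ _ _ _ (by omega) (by omega) (by omega) (by omega) (by omega) (by omega)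
    · obtain ⟨rfl, rfl, h⟩ := h
      exact H.lw _ _ _ _ (by omega) (by omega) (by omega) (by omega) (by omega) (by omega)
    · obtain ⟨rfl, rfl, h⟩ := h
      exact H.lw _ _ _ _ (by omega) (by omega) (by omega) (by omega) (by omega) (by omega)
    · obtain ⟨rfl, rfl, h⟩ := h
      exact H.lw _ _ _ _ (by omega) (by omega) (by omega) (by omega) (by omega) (by omega)
    · obtain ⟨rfl, rfl, h⟩ := h
      exact H.lw _ _ _ _ (by omega) (by omega) (by omega) (by omega) (by omega) (by omega)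
    · obtain ⟨rfl, rfl, h⟩ := h
      exact NHT.pm hf H.T (j := 2) (by omega) (by omega) (by omega) (by omega) (by omega) (by omega)
    · obtain ⟨rfl, rfl, h⟩ := h
      exact NHT.pm hf H.T (j := 0) (by omega) (by omega) (by omega) (by omega) (by omega) (by omega)
    · obtain ⟨rfl, rfl, h⟩ := h
      exact NHT.pmi hf H.T (j := 0) (by omega) (by omega) (by omega) (by omega) (by omega) (by omega)
    · obtain ⟨rfl, rfl, h⟩ := h
      exact NHT.p0 hf H.T (j := 3) (by omega) (by omega) (by omega) (by omega) (by omega) (by omega)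
    · obtain ⟨rfl, rfl, h⟩ := h
      exact NHT.p0 hf H.T (j := 2) (by omega) (by omega) (by omega) (by omega) (by omega) (by omega)
    · obtain ⟨rfl, rfl, h⟩ := h
      exact NHT.p0 hf H.T (j := 1) (by omega) (by omega) (by omega) (by omega) (by omega) (by omega)
    · obtain ⟨rfl, rfl, h⟩ := h
      exact NHT.p0 hf H.T (j := 0) (by omega) (by omega) (by omega) (by omega) (by omega) (by omega)
    · obtain ⟨rfl, rfl, h⟩ := h
      exact fun t => NHT.r1 hf H.T (p := 0) (j := 4) (by omega) (by omega) (by omega) (by omega) (by omega) (by omega) (mv t rfl (by omega) rfl rfl)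
    · obtain ⟨rfl, rfl, h⟩ := h
      exact fun t => NHT.r1 hf H.T (p := 1) (j := 4) (by omega) (by omega) (by omega) (by omega) (by omega) (by omega) (mv t rfl (by omega) rfl rfl)
    · obtain ⟨rfl, rfl, h⟩ := h
      exact fun t => NHT.r1 hf H.T (p := 0) (j := 3) (by omega) (by omega) (by omega) (by omega) (by omega) (by omega) (mv t rfl (by omega) rfl rfl)
    · obtain ⟨rfl, rfl, h⟩ := h
      exact fun t => NHT.r1 hf H.T (p := 1) (j := 3) (by omega) (by omega) (by omega) (by omega) (by omega) (by omega) (mv t rfl (by omega) rfl rfl)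
    · obtain ⟨rfl, rfl, h⟩ := h
      exact fun t => NHT.r1 hf H.T (p := 0) (j := 2) (by omega) (by omega) (by omega) (by omega) (by omega) (by omega) (mv t rfl (by omega) rfl rfl)
    · obtain ⟨rfl, rfl, h⟩ := h
      exact fun t => NHT.r1 hf H.T (p := 1) (j := 2) (by omega) (by omega) (by omega) (by omega) (by omega) (by omega) (mv t rfl (by omega) rfl rfl)
    · obtain ⟨rfl, rfl, h⟩ := h
      exact fun t => NHT.r1 hf H.T (p := 0) (j := 1) (by omega) (by omega) (by omega) (by omega) (by omega) (by omega) (mv t rfl (by omega) rfl rfl)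
    · obtain ⟨rfl, rfl, h⟩ := h
      exact NHT.p2 hf H.T (j := 1) (by omega) (by omega) (by omega) (by omega) (by omega) (by omega)
    · obtain ⟨rfl, rfl, h⟩ := h
      exact NHT.p2 hf H.T (j := 3) (by omega) (by omega) (by omega) (by omega) (by omega) (by omega)
    · obtain ⟨rfl, rfl, h⟩ := h
      exact NHT.p2 hf H.T (j := 2) (by omega) (by omega) (by omega) (by omega) (by omega) (by omega)
    · obtain ⟨rfl, rfl, h⟩ := h
      exact NHT.p2 hf H.T (j := 1) (by omega) (by omega) (by omega) (by omega) (by omega) (by omega)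
    · obtain ⟨rfl, rfl, h⟩ := h
      exact NHT.p2 hf H.T (j := 0) (by omega) (by omega) (by omega) (by omega) (by omega) (by omega)
    · obtain ⟨rfl, rfl, rfl, rfl⟩ := h
      exact fun t => z0 (mv t (by omega) (by omega) (by omega) (by omega))
    · obtain ⟨rfl, rfl, rfl, rfl⟩ := h
      exact fun t => z1 (mv t (by omega) (by omega) (by omega) (by omega))

theorem d4_10_chk : check 12 9 27 27 0 1 1 1 2
    (fun j n p q => decide ((j = 2 ∧ n = 3 ∧ q ≤ p ∧ 14 ≤ p ∧ p ≤ q + 14 ∧ ((p + q) % 2 = 1 ∧ p % 2 = 0))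
      ∨ (j = 2 ∧ n = 5 ∧ q ≤ p ∧ 15 ≤ q ∧ p ≤ q + 14 ∧ ((p + q) % 2 = 1 ∧ p % 2 = 1))
      ∨ (j = 2 ∧ n = 1 ∧ q ≤ p ∧ p ≤ q + 14 ∧ ((p + q) % 2 = 1 ∧ p % 2 = 1))
      ∨ (j = 2 ∧ n = 2 ∧ q ≤ p ∧ p ≤ q + 14 ∧ (p = q ∧ p % 2 = 0))
      ∨ (j = 4 ∧ n = 1 ∧ q ≤ p ∧ 6 ≤ p ∧ p ≤ q + 14 ∧ ((p + q) % 2 = 1 ∧ p % 2 = 0))
      ∨ (j = 4 ∧ n = 2 ∧ q ≤ p ∧ 7 ≤ p ∧ p ≤ q + 14 ∧ (p = q ∧ p % 2 = 1))
      ∨ (j = 4 ∧ n = 3 ∧ q ≤ p ∧ 7 ≤ q ∧ p ≤ q + 14 ∧ ((p + q) % 2 = 1 ∧ p % 2 = 1))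
      ∨ (j = 6 ∧ n = 3 ∧ q ≤ p ∧ 18 ≤ p ∧ p ≤ q + 14 ∧ ((p + q) % 2 = 1 ∧ p % 2 = 0))
      ∨ (j = 6 ∧ n = 1 ∧ q ≤ p ∧ 3 ≤ q ∧ p ≤ q + 14 ∧ ((p + q) % 2 = 1 ∧ p % 2 = 1))
      ∨ (j = 6 ∧ n = 2 ∧ q ≤ p ∧ 5 ≤ q ∧ p ≤ q + 14 ∧ (p = q ∧ p % 2 = 0))
      ∨ (j = 8 ∧ n = 1 ∧ q ≤ p ∧ 6 ≤ p ∧ p ≤ q + 14 ∧ ((p + q) % 2 = 1 ∧ p % 2 = 0))
      ∨ (j = 8 ∧ n = 2 ∧ q ≤ p ∧ 7 ≤ p ∧ p ≤ q + 14 ∧ (p = q ∧ p % 2 = 1))
      ∨ (j = 8 ∧ n = 4 ∧ q ≤ p ∧ 9 ≤ q ∧ p ≤ q + 14 ∧ (p = q ∧ p % 2 = 0))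
      ∨ (j = 10 ∧ n = 6 ∧ q ≤ p ∧ 13 ≤ q ∧ p ≤ q + 14 ∧ (p = q ∧ p % 2 = 0))
      ∨ (j = 2 ∧ n = 3 ∧ p = 10 ∧ q = 5)
      ∨ (j = 4 ∧ n = 5 ∧ p = 16 ∧ q = 11)
      ∨ (j = 4 ∧ n = 5 ∧ p = 14 ∧ q = 9)
      ∨ (j = 6 ∧ n = 3 ∧ p = 12 ∧ q = 7)
      ∨ (j = 8 ∧ n = 5 ∧ p = 16 ∧ q = 11)))
    (fun j n p q => decide ((j = 2 ∧ n = 3 ∧ q ≤ p ∧ 14 ≤ p ∧ p ≤ q + 14 ∧ ¬ ((p + q) % 2 = 1 ∧ p % 2 = 0))
      ∨ (j = 2 ∧ n = 5 ∧ q ≤ p ∧ 15 ≤ q ∧ p ≤ q + 14 ∧ ¬ ((p + q) % 2 = 1 ∧ p % 2 = 1))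
      ∨ (j = 2 ∧ n = 1 ∧ q ≤ p ∧ p ≤ q + 14 ∧ ¬ ((p + q) % 2 = 1 ∧ p % 2 = 1))
      ∨ (j = 2 ∧ n = 2 ∧ q ≤ p ∧ p ≤ q + 14 ∧ ¬ (p = q ∧ p % 2 = 0))
      ∨ (j = 4 ∧ n = 1 ∧ q ≤ p ∧ 6 ≤ p ∧ p ≤ q + 14 ∧ ¬ ((p + q) % 2 = 1 ∧ p % 2 = 0))
      ∨ (j = 4 ∧ n = 2 ∧ q ≤ p ∧ 7 ≤ p ∧ p ≤ q + 14 ∧ ¬ (p = q ∧ p % 2 = 1))
      ∨ (j = 4 ∧ n = 3 ∧ q ≤ p ∧ 7 ≤ q ∧ p ≤ q + 14 ∧ ¬ ((p + q) % 2 = 1 ∧ p % 2 = 1))
      ∨ (j = 6 ∧ n = 3 ∧ q ≤ p ∧ 18 ≤ p ∧ p ≤ q + 14 ∧ ¬ ((p + q) % 2 = 1 ∧ p % 2 = 0))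
      ∨ (j = 6 ∧ n = 1 ∧ q ≤ p ∧ 3 ≤ q ∧ p ≤ q + 14 ∧ ¬ ((p + q) % 2 = 1 ∧ p % 2 = 1))
      ∨ (j = 6 ∧ n = 2 ∧ q ≤ p ∧ 5 ≤ q ∧ p ≤ q + 14 ∧ ¬ (p = q ∧ p % 2 = 0))
      ∨ (j = 8 ∧ n = 1 ∧ q ≤ p ∧ 6 ≤ p ∧ p ≤ q + 14 ∧ ¬ ((p + q) % 2 = 1 ∧ p % 2 = 0))
      ∨ (j = 8 ∧ n = 2 ∧ q ≤ p ∧ 7 ≤ p ∧ p ≤ q + 14 ∧ ¬ (p = q ∧ p % 2 = 1))
      ∨ (j = 8 ∧ n = 4 ∧ q ≤ p ∧ 9 ≤ q ∧ p ≤ q + 14 ∧ ¬ (p = q ∧ p % 2 = 0))
      ∨ (j = 10 ∧ n = 6 ∧ q ≤ p ∧ 13 ≤ q ∧ p ≤ q + 14 ∧ ¬ (p = q ∧ p % 2 = 0))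
      ∨ (j = 1 ∧ n = 1 ∧ q ≤ p)
      ∨ (j = 1 ∧ n = 2 ∧ q ≤ p)
      ∨ (j = 1 ∧ n = 3 ∧ q ≤ p)
      ∨ (j = 1 ∧ n = 4 ∧ q ≤ p)
      ∨ (j = 1 ∧ n = 5 ∧ q ≤ p)
      ∨ (j = 1 ∧ n = 6 ∧ q ≤ p)
      ∨ (j = 1 ∧ n = 7 ∧ q ≤ p)
      ∨ (j = 3 ∧ n = 3 ∧ 7 ≤ q ∧ q + 3 ≤ p ∧ p ≤ q + 12)
      ∨ (j = 7 ∧ n = 3 ∧ 7 ≤ q ∧ q + 1 ≤ p ∧ p ≤ q + 14)
      ∨ (j = 6 ∧ n = 4 ∧ 8 ≤ q ∧ q + 2 ≤ p ∧ p ≤ q + 13)
      ∨ (j = 7 ∧ n = 4 ∧ 11 ≤ q ∧ q + 2 ≤ p ∧ p ≤ q + 13)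
      ∨ (j = 3 ∧ n = 5 ∧ 11 ≤ q ∧ q + 4 ≤ p ∧ p ≤ q + 11)
      ∨ (j = 5 ∧ n = 5 ∧ 11 ≤ q ∧ q + 3 ≤ p ∧ p ≤ q + 12)
      ∨ (j = 7 ∧ n = 5 ∧ 11 ≤ q ∧ q + 2 ≤ p ∧ p ≤ q + 13)
      ∨ (j = 9 ∧ n = 5 ∧ 11 ≤ q ∧ q + 1 ≤ p ∧ p ≤ q + 14)
      ∨ (j = 2 ∧ n = 6 ∧ 12 ≤ q ∧ q + 5 ≤ p ∧ p ≤ q + 10)
      ∨ (j = 3 ∧ n = 6 ∧ 12 ≤ q ∧ q + 5 ≤ p ∧ p ≤ q + 10)
      ∨ (j = 4 ∧ n = 6 ∧ 12 ≤ q ∧ q + 4 ≤ p ∧ p ≤ q + 11)
      ∨ (j = 5 ∧ n = 6 ∧ 12 ≤ q ∧ q + 4 ≤ p ∧ p ≤ q + 11)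
      ∨ (j = 6 ∧ n = 6 ∧ 12 ≤ q ∧ q + 3 ≤ p ∧ p ≤ q + 12)
      ∨ (j = 7 ∧ n = 6 ∧ 12 ≤ q ∧ q + 3 ≤ p ∧ p ≤ q + 12)
      ∨ (j = 8 ∧ n = 6 ∧ 12 ≤ q ∧ q + 2 ≤ p ∧ p ≤ q + 13)
      ∨ (j = 9 ∧ n = 6 ∧ 17 ≤ q ∧ q + 2 ≤ p ∧ p ≤ q + 13)
      ∨ (j = 5 ∧ n = 7 ∧ 17 ≤ q ∧ q + 4 ≤ p ∧ p ≤ q + 11)
      ∨ (j = 7 ∧ n = 7 ∧ 17 ≤ q ∧ q + 3 ≤ p ∧ p ≤ q + 12)
      ∨ (j = 9 ∧ n = 7 ∧ 17 ≤ q ∧ q + 2 ≤ p ∧ p ≤ q + 13)
      ∨ (j = 2 ∧ n = 3 ∧ p = 12 ∧ q = 7)
      ∨ (j = 4 ∧ n = 7 ∧ p = 23 ∧ q = 16)))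
    1368
    0x2478033148803e275a53670353748053678061bf7261a56a54c70e57d68364a78064a80a7e570364a80064a80457d60e7e710364c20064c20157d60057d60463478e61da836347806347847e568e7019037e63807e56807e568e7e568471928e64c203719280719284566a03634880634884564e03565c00565c0470268e70190370198070268070268e70268454fd8361ce0061ce04566a8e54fe03566a80566a844b13004af9004b13014af901497f0e3b4183497f00497f04565c8e564f03565c80565c8463558e55188363558063558461ce8e54fe0361ce8061ce8457f18e3b5b8349a6004b132a57f18057f18454ee0054c70054c70e54c70464b40e564e03565c0057d63264b40064b404482e0e3b5d83482e00482e043e34003e0d003e421a3e1b1a313d0e4afb033e1c003e1c01313d00313d043b340349710049710457bb0e57ba8357c80057bb0057bb0e57bb0456408e61a50353598054b90054c62256333256408056408456770e53670353678053748061a56a61bf7254d50054fc0061b3da61dada565d0056770056770e567704563f83564000564004565b0e53670353678053748061a56a61bf72564100565b00565b0e5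65b0454fd0e53670353678053748061a56a61bf7254d50054fc0054e29254fc8a54f00054fd0054fd0e54fd04314a0e247983314a00314a04247b83314c803e1d424aed004aed04483a0e3b5c03483a00483a04498c8e3b4f03498c80498c843e420e4b49033e5d004b2e4a3e42003e42043cd60e3b5c033cd6003cd6044b488e24c98331a7803e78424b48804b4884317f0e24ae83317f00317f04314c0e247b83314c00314c043cc78e3b5b033cc7803cc78424938324a10024a1044aec8e247a83314b003e1c4a4aec804aec84246d03313e00313e04566a03633a80633a84566b0e54fe83566b00566b04564e8e563f83564000564e1a565b80564e80564e8e564e8454c68e54c60354c68054c6843cd58e3b5b833cd5803cd58424a00e245c83245d00246a00245d8a247792245e00248500245e8a249292245f0024a00024a00e24a00448478349b40049b4047b440361878061951254d20061a34a5631805631844b13034b20804b20843cbc8e3b4f0348200048208a3cbc803cbc843e1a003e27003e270e3e270431998e24c903319980319984246d03313d80313d84313c0e245c83246a00245d0024781a246b1a315600313c00313c0e313c043b690e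3b5b833b69003b6904247983247a00247a8a314b80314b84314a8e247983314a80314a8424bc0e24938324a10024ae9224bc0024bc0431a70e245c83245d00246a00245d8a247792245e00248500245e8a249292245f0024a000245f8a24ad9224600024bb00246e1a24c91a313f0031a70031a70e31a704482c0e3b5b83482c00482c0431638e2493033163803163843cae0e3b41833cae003cae042166052e370021668a2e451a22c60022e10022d41a22e18a22e20022e20454d40e54c60354d40054d40422c68e2e2b03213f00214c9222c68022c68463480e3b5c03483a00550b4a63480063480449988e3b5b83499880499884563f0e61a303563f00563f04481f8e3b4f03481f80481f843cbb003cbb013b33002185803b4000230c0021b9803b33012185813b4001230c0121b981218480216a00219e8021ab002184812e4852219e812e7c4a2169002190002e47522e614a3b18003b3f003c9f0047e8c2480fc23c9f01534b003b170039b8003b2400218380534b013b170139b8013b24012183811ffb80399c002008801ffb816ffd00539f00399c012008811e73801fed007ccdc251c3006e7500539f011e8d801e73811fed011e65006e82006b9a0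051d00051c3017b45c239f00039d4001e8d811e58801e72001e65016e5a007b52c26b9a016b7e0051d00151a8006b8e003afc0039f00120410039d4012025001e8c801e590a1e72011e4a006e81006e810e6b9b006b7f006ceb2a6b630052170051cf0051cf0e6b8e014ef9004ef8003afd003b23003b230e388400386900386800384d00384c00383100383000381400352e00352d0021bc0021a10021a0001ed6001ed5001eba001e9f002041011eb9001e9e001e83002025011e9d001e82001e9a121e67001e71001e710e89c80089ac008990007e710e7e708e7e630e7d048e7d040e7cf68e7b528e7b520e70340e70338e70260e6ffb326e80006d32006d16006d158e6d150e6cfa006cde006a2e8e6a2e0e6b9b016a13006b7f0169f7006b630169db0064c18e63550e61da8e61da0e61cd0e61cc8e61bf0e61be8e61b10e606e0e606d8e60608e60600e60528e60520e60448e5eca0e5ebc8e56848e56688e564c8e53ac0e53ab8e539e0e539d8e539d0e53900e538f8e53820e53818e53740e53660e52240052240e53493251ce0050b80050800050640050638e50630e5048004f21004f20004f200e4f1f004f05004f050e4f04004ee9004ee8004ecd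004b490e4b3b8e49dc8e49dc0e49cf0e49ce8e48478e48470e48398e482b8e480f8e480f0e48018e3e780e3d0c0e3d0b8e3d0b0e3cfe8e3cfe0e3cfd8e3cf08e3cf00e3ce30e3ce28e3cd50e3b3e003b3e0e4801523b220038910038910e38900038900e38750038750e38740038740e38590038590e38580038580e385700383d00383d0e383c00383b0038210038210e38200037250037090036ed0036d10036b50035560035550035550e353a00353a0e303b0e303a8e302d8e302d0e30200e301f8e30120e2e8a0e2e7c0e2e7b8e2e6e0e235d0e235c8e235c0e234f8e234f0e234e8e23418e23410e23408e23338e23330e23258e21c90e21c80021c80e21ad0021ad0e219f0e1efd0e1ee2001ee20e1ee1001ee10e1ee0001ee00e1ec6001ec60e1ec5001ec50e1ec4001ec40e1eaa001eaa0e1ea9001ea90e1ea8001ea80e1e8c0e2b4f521e70001d76001d5a001d3e001d2d8e1d2d0e1d22001d210e1d208e1d200e1d1f8e1d130e1d06001d058e1d050e1cea001ba5001b8a0017f90e17f88e17f80e17eb8e17eb0e17ea8e17de0e17dd8e17dd0e17dc8e17d08e17d00e17cf8e17cf0e17c30e17c28e17c20e17c18e17b58e17b50e17b48e17b40e17a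78e17a70e17a68e17998e17990e178b8e168c8e168c0e168b8e167f0e167e8e167e0e16718e16710e16708e16700e16640e16638e16630e16628e16568e16560e16558e16550e16490e16488e16480e16478e163b0e163a8e163a0e162d0e162c8e161f0e16030e14e90e14e88e14db8e14db0e14ce8e14ce0e14cd8e14c08e14c00e14b28e14968e14960e14958e14888e14880e137c8e137c0e13700e136f0e136e8e13618e13610e13540e13538e13460e13380e13378e132a0e13298e13290e131c0e131b8e12038e11e78e11cb8e11cb0e11c98e11c90e11bd8e11bd0e11bc8e11bc0e11bb8e11af8e11af0e11a18e11a10e11938e105d0e105c8e10508e10500e104f8e104f0e10430e10428e10350e10348e10270e89c80f89ac0f89900f7e71077e70877e63077d04877d04077cf6877b60877b52877b52077b44877b44077b43877b36877b360771a0877186877034077033877026076ffb076ffa876fed876fed076eac876e90876e8e876e800f6e74876e73876d320f6d160f6d15876d15076d08076d07876d07076d06876cfa0f6cf9876cf9076ceb076cea876cde0f6cdd876cdd076b9a876b99876b80876b7e876b62876a2e876a2e076a2d876a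2d076a21076a20876a20076a1f876a130f6a12876a12076a05076a048769f70f69f68769f60769e90769e88769db0f64c187635507632a87632a07631d07631c8761da8761da0761cd0761cc8761bf0761be8761be0761bd8761b10761b08761b00761a30761a287619507619487618707606e07606d87606087606007605287605207604487603687603607602887602807601a875eca875eca075ec9875ec9075ebc875ebc075ebb875eae875eae075ead875ea0875ea0075e92875e92075e848757e38757c98757c88757ac87568487566887564c87550a8755098754f08754ef8754ee8754d58754d48754d38754d28754b88754b68753ac0753ab87539e07539d87539d07539007538f87538207538187537407536607536587535807535787534a07534907534887533b87533b0752328752320752248752240f51fa8751de8751dc8751ce0f51c28750b80f50800f50640f50638750630750560750558750480f4f210f4f200f4f1f0f4f050f4f040f4ee90f4ee80f4ecd0f4b49074b3b874b2e0749dc8749dc0749cf0749ce8749c18749c10749b387484787484707483987482b87480f87480f0748018748010747f3873e78873e78073e77873e5d873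e42873e41873e2a873e28873e26873e0f873e0e873e0d873d0c073d0b873d0b073cfe873cfe073cfd873cf1073cf0873cf0073ce3073ce2873cd5073b69873b4f873b4e873b4d873b3e0f3b33873b32873b31873b30873b220f3b17873b168738910f38900f38838738830738758738750f38740f38678738670738598738590f38580f38570f384b87384b07383d87383d0f383c0f383b0f382f87382f0738218738210f38200f37250f37090f36ed0f36d10f36b50f35560f35550f353a0f303b07303a87302d87302d07302007301f873012072e8a072e7c072e7b872e6e072b4f072b418724bb8724a087249f87248587248487246d87246c87246b87246a87246987245187245087244f87244e87235d07235c87235c07234f87234f07234e8723418723410723408723338723330723258721c90f21c80f21ad0f21ab87219f87219f07219187219087217787217687217587217487215a87215987215887213e871efd0f1ee20f1ee10f1ee00f1ed4871ed4071ec6871ec60f1ec50f1ec40f1eb8871eb8071eaa871eaa0f1ea90f1ea80f1e9b871e99871e8c071e81871e80871e7f871e7e871e700f1e65871e64871e4b871d760f1d5a0f1d3e0f1d2d87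1d2d071d220f1d21071d20871d20071d1f871d13871d13071d12071d11871d060f1d05871d05071d04871d04071cf8071cf7871cea0f1ba50f1b8a0f17f90717f88717f80717eb8717eb0717ea8717de0717dd8717dd0717dc8717d08717d00717cf8717cf0717c30717c28717c20717c18717b58717b50717b48717b40717a78717a70717a687179a07179987179907178c07178b87177e07168c87168c07168b87167f07167e87167e07167187167107167087167007166407166387166307166287165687165607165587165507164907164887164807164787163b87163b07163a87163a07162d87162d07162c87161f87161f0716118716110716108716038716030715f58714e90714e88714db8714db0714cf0714ce8714ce0714cd8714c10714c08714c00714b30714b28714a50714a48714a407149707149687149607149587148907148887148807137c87137c07137087137007136f07136e87136287136187136107135487135407135387134687134607133887133807133787132a87132a07132987132907131c87131c07131b87130e8712040712038711f60711e80711e78711da0711cb8711cb0711c98711c90711be0711bd8711bd0711bc8711bc0711bb8711b00711af8711af0711a20711a18711a107119407119387105d07105c87105087105007104f87104f07104307104287103507103487102787102707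 = true := by
  decide +kernel

theorem d4_10 (hf : Rule f) {k c n : ℕ} (H : PL f k c n (n - 4))
    (D0 : Cyc f (6 * k) (c - 2) (2 * n))
    (D0a : Cyc f (6 * k) (c - 6) (2 * n - 4 - 2 * k))
    (C2 : Cyc f (6 * k + 2) (c - 4) (2 * (n - 5) + 2))
    (h0 : f (6 * k) (c - 2) (2 * n - 3) (2 * n - 8))
    (h1 : f (6 * k + 2) c (2 * n + 3) (2 * n - 2))
    (h2 : f (6 * k + 2) c (2 * n + 1) (2 * n - 4))
    (h3 : f (6 * k + 4) (c - 2) (2 * n - 1) (2 * n - 6))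
    (h4 : f (6 * k + 6) c (2 * n + 3) (2 * n - 2))
    (z0 : ¬ f (6 * k) (c - 2) (2 * n - 1) (2 * n - 6))
    (z1 : ¬ f (6 * k + 2) (c + 2) (2 * n + 10) (2 * n + 3)) : False := by
  have hk := H.T.hk
  have hc := H.T.hc
  have h4' := H.T.h4
  have hb := H.T.hb
  have hN := H.T.hN2
  obtain ⟨a0, ha0⟩ : ∃ z, z + 2 = 6 * k := ⟨6 * k - 2, by omega⟩
  obtain ⟨b0, hb0⟩ : ∃ z, z + 5 = c := ⟨c - 5, by omega⟩
  obtain ⟨x0, hx0⟩ : ∃ z, z + 13 = 2 * n := ⟨2 * n - 13, by omega⟩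
  refine check_sound hf (a0 := a0) (b0 := b0) (x0 := x0) (y0 := x0) d4_10_chk
    ⟨fun _ => rfl, fun h => absurd h (by decide), fun h => absurd h (by decide), by omega, by omega,
      by omega, by omega⟩ ?_ ?_
  · intro j m p q hr h
    obtain ⟨-, -, -, -, hp1, hp2, hq1, hq2⟩ := hr
    replace h := of_decide_eq_true h
    rcases h with h | h | h | h | h | h | h | h | h | h | h | h | h | h | h | h | h | h | h
    · obtain ⟨rfl, rfl, h⟩ := h
      exact (WrapC.v0 D0 (by omega) (by omega) (by omega) (by omega) (by omega) (by omega) (by omega)).mpr (by omega)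
    · obtain ⟨rfl, rfl, h⟩ := h
      exact (WrapC.v2 D0 (by omega) (by omega) (by omega) (by omega) (by omega) (by omega) (by omega)).mpr (by omega)
    · obtain ⟨rfl, rfl, h⟩ := h
      exact (WrapC.v2 D0a (by omega) (by omega) (by omega) (by omega) (by omega) (by omega) (by omega)).mpr (by omega)
    · obtain ⟨rfl, rfl, h⟩ := h
      exact (WrapC.v3 D0a (by omega) (by omega) (by omega) (by omega) (by omega) (by omega) (by omega) (by omega)).mpr (by omega)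
    · obtain ⟨rfl, rfl, h⟩ := h
      exact (WrapC.v0 C2 (by omega) (by omega) (by omega) (by omega) (by omega) (by omega) (by omega)).mpr (by omega)
    · obtain ⟨rfl, rfl, h⟩ := h
      exact (WrapC.v1 C2 (by omega) (by omega) (by omega) (by omega) (by omega) (by omega) (by omega) (by omega)).mpr (by omega)
    · obtain ⟨rfl, rfl, h⟩ := h
      exact (WrapC.v2 C2 (by omega) (by omega) (by omega) (by omega) (by omega) (by omega) (by omega)).mpr (by omega)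
    · obtain ⟨rfl, rfl, h⟩ := h
      exact (WrapC.v0 H.c4 (by omega) (by omega) (by omega) (by omega) (by omega) (by omega) (by omega)).mpr (by omega)
    · obtain ⟨rfl, rfl, h⟩ := h
      exact (WrapC.v2 H.c4a (by omega) (by omega) (by omega) (by omega) (by omega) (by omega) (by omega)).mpr (by omega)
    · obtain ⟨rfl, rfl, h⟩ := h
      exact (WrapC.v3 H.c4a (by omega) (by omega) (by omega) (by omega) (by omega) (by omega) (by omega) (by omega)).mpr (by omega)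
    · obtain ⟨rfl, rfl, h⟩ := h
      exact (WrapC.v0 H.c6 (by omega) (by omega) (by omega) (by omega) (by omega) (by omega) (by omega)).mpr (by omega)
    · obtain ⟨rfl, rfl, h⟩ := h
      exact (WrapC.v1 H.c6 (by omega) (by omega) (by omega) (by omega) (by omega) (by omega) (by omega) (by omega)).mpr (by omega)
    · obtain ⟨rfl, rfl, h⟩ := h
      exact (WrapC.v3 H.c6 (by omega) (by omega) (by omega) (by omega) (by omega) (by omega) (by omega) (by omega)).mpr (by omega)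
    · obtain ⟨rfl, rfl, h⟩ := h
      exact (NW.w3v H.c8 (by omega) (by omega) (by omega) (by omega) (by omega) (by omega) (by omega) (by omega)).mpr (by omega)
    · obtain ⟨rfl, rfl, rfl, rfl⟩ := h
      exact mv h0 (by omega) (by omega) (by omega) (by omega)
    · obtain ⟨rfl, rfl, rfl, rfl⟩ := h
      exact mv h1 (by omega) (by omega) (by omega) (by omega)
    · obtain ⟨rfl, rfl, rfl, rfl⟩ := h
      exact mv h2 (by omega) (by omega) (by omega) (by omega)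
    · obtain ⟨rfl, rfl, rfl, rfl⟩ := h
      exact mv h3 (by omega) (by omega) (by omega) (by omega)
    · obtain ⟨rfl, rfl, rfl, rfl⟩ := h
      exact mv h4 (by omega) (by omega) (by omega) (by omega)
  · intro j m p q hr h
    obtain ⟨-, -, -, -, hp1, hp2, hq1, hq2⟩ := hr
    replace h := of_decide_eq_true h
    rcases h with h | h | h | h | h | h | h | h | h | h | h | h | h | h | h | h | h | h | h | h | h | h | h | h | h | h | h | h | h | h | h | h | h | h | h | h | h | h | h | h | h | h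
    · obtain ⟨rfl, rfl, h⟩ := h
      exact mt (WrapC.v0 D0 (by omega) (by omega) (by omega) (by omega) (by omega) (by omega) (by omega)).mp (by omega)
    · obtain ⟨rfl, rfl, h⟩ := h
      exact mt (WrapC.v2 D0 (by omega) (by omega) (by omega) (by omega) (by omega) (by omega) (by omega)).mp (by omega)
    · obtain ⟨rfl, rfl, h⟩ := h
      exact mt (WrapC.v2 D0a (by omega) (by omega) (by omega) (by omega) (by omega) (by omega) (by omega)).mp (by omega)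
    · obtain ⟨rfl, rfl, h⟩ := h
      exact mt (WrapC.v3 D0a (by omega) (by omega) (by omega) (by omega) (by omega) (by omega) (by omega) (by omega)).mp (by omega)
    · obtain ⟨rfl, rfl, h⟩ := h
      exact mt (WrapC.v0 C2 (by omega) (by omega) (by omega) (by omega) (by omega) (by omega) (by omega)).mp (by omega)
    · obtain ⟨rfl, rfl, h⟩ := h
      exact mt (WrapC.v1 C2 (by omega) (by omega) (by omega) (by omega) (by omega) (by omega) (by omega) (by omega)).mp (by omega)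
    · obtain ⟨rfl, rfl, h⟩ := h
      exact mt (WrapC.v2 C2 (by omega) (by omega) (by omega) (by omega) (by omega) (by omega) (by omega)).mp (by omega)
    · obtain ⟨rfl, rfl, h⟩ := h
      exact mt (WrapC.v0 H.c4 (by omega) (by omega) (by omega) (by omega) (by omega) (by omega) (by omega)).mp (by omega)
    · obtain ⟨rfl, rfl, h⟩ := h
      exact mt (WrapC.v2 H.c4a (by omega) (by omega) (by omega) (by omega) (by omega) (by omega) (by omega)).mp (by omega)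
    · obtain ⟨rfl, rfl, h⟩ := h
      exact mt (WrapC.v3 H.c4a (by omega) (by omega) (by omega) (by omega) (by omega) (by omega) (by omega) (by omega)).mp (by omega)
    · obtain ⟨rfl, rfl, h⟩ := h
      exact mt (WrapC.v0 H.c6 (by omega) (by omega) (by omega) (by omega) (by omega) (by omega) (by omega)).mp (by omega)
    · obtain ⟨rfl, rfl, h⟩ := h
      exact mt (WrapC.v1 H.c6 (by omega) (by omega) (by omega) (by omega) (by omega) (by omega) (by omega) (by omega)).mp (by omega)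
    · obtain ⟨rfl, rfl, h⟩ := h
      exact mt (WrapC.v3 H.c6 (by omega) (by omega) (by omega) (by omega) (by omega) (by omega) (by omega) (by omega)).mp (by omega)
    · obtain ⟨rfl, rfl, h⟩ := h
      exact mt (NW.w3v H.c8 (by omega) (by omega) (by omega) (by omega) (by omega) (by omega) (by omega) (by omega)).mp (by omega)
    · obtain ⟨rfl, rfl, h⟩ := h
      exact H.lw _ _ _ _ (by omega) (by omega) (by omega) (by omega) (by omega) (by omega)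
    · obtain ⟨rfl, rfl, h⟩ := h
      exact H.lw _ _ _ _ (by omega) (by omega) (by omega) (by omega) (by omega) (by omega)
    · obtain ⟨rfl, rfl, h⟩ := h
      exact H.lw _ _ _ _ (by omega) (by omega) (by omega) (by omega) (by omega) (by omega)
    · obtain ⟨rfl, rfl, h⟩ := h
      exact H.lw _ _ _ _ (by omega) (by omega) (by omega) (by omega) (by omega) (by omega)
    · obtain ⟨rfl, rfl, h⟩ := h
      exact H.lw _ _ _ _ (by omega) (by omega) (by omega) (by omega) (by omega) (by omega)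
    · obtain ⟨rfl, rfl, h⟩ := h
      exact H.lw _ _ _ _ (by omega) (by omega) (by omega) (by omega) (by omega) (by omega)
    · obtain ⟨rfl, rfl, h⟩ := h
      exact H.lw _ _ _ _ (by omega) (by omega) (by omega) (by omega) (by omega) (by omega)
    · obtain ⟨rfl, rfl, h⟩ := h
      exact NHT.pm hf H.T (j := 2) (by omega) (by omega) (by omega) (by omega) (by omega) (by omega)
    · obtain ⟨rfl, rfl, h⟩ := h
      exact NHT.pm hf H.T (j := 0) (by omega) (by omega) (by omega) (by omega) (by omega) (by omega)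
    · obtain ⟨rfl, rfl, h⟩ := h
      exact fun t => NHT.rm1 hf H.T (p := 0) (j := 1) (by omega) (by omega) (by omega) (by omega) (by omega) (by omega) (mv t rfl (by omega) rfl rfl)
    · obtain ⟨rfl, rfl, h⟩ := h
      exact NHT.p0 hf H.T (j := 1) (by omega) (by omega) (by omega) (by omega) (by omega) (by omega)
    · obtain ⟨rfl, rfl, h⟩ := h
      exact NHT.p0 hf H.T (j := 3) (by omega) (by omega) (by omega) (by omega) (by omega) (by omega)
    · obtain ⟨rfl, rfl, h⟩ := h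
      exact NHT.p0 hf H.T (j := 2) (by omega) (by omega) (by omega) (by omega) (by omega) (by omega)
    · obtain ⟨rfl, rfl, h⟩ := h
      exact NHT.p0 hf H.T (j := 1) (by omega) (by omega) (by omega) (by omega) (by omega) (by omega)
    · obtain ⟨rfl, rfl, h⟩ := h
      exact NHT.p0 hf H.T (j := 0) (by omega) (by omega) (by omega) (by omega) (by omega) (by omega)
    · obtain ⟨rfl, rfl, h⟩ := h
      exact fun t => NHT.r1 hf H.T (p := 0) (j := 4) (by omega) (by omega) (by omega) (by omega) (by omega) (by omega) (mv t rfl (by omega) rfl rfl)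
    · obtain ⟨rfl, rfl, h⟩ := h
      exact fun t => NHT.r1 hf H.T (p := 1) (j := 4) (by omega) (by omega) (by omega) (by omega) (by omega) (by omega) (mv t rfl (by omega) rfl rfl)
    · obtain ⟨rfl, rfl, h⟩ := h
      exact fun t => NHT.r1 hf H.T (p := 0) (j := 3) (by omega) (by omega) (by omega) (by omega) (by omega) (by omega) (mv t rfl (by omega) rfl rfl)
    · obtain ⟨rfl, rfl, h⟩ := h
      exact fun t => NHT.r1 hf H.T (p := 1) (j := 3) (by omega) (by omega) (by omega) (by omega) (by omega) (by omega) (mv t rfl (by omega) rfl rfl)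
    · obtain ⟨rfl, rfl, h⟩ := h
      exact fun t => NHT.r1 hf H.T (p := 0) (j := 2) (by omega) (by omega) (by omega) (by omega) (by omega) (by omega) (mv t rfl (by omega) rfl rfl)
    · obtain ⟨rfl, rfl, h⟩ := h
      exact fun t => NHT.r1 hf H.T (p := 1) (j := 2) (by omega) (by omega) (by omega) (by omega) (by omega) (by omega) (mv t rfl (by omega) rfl rfl)
    · obtain ⟨rfl, rfl, h⟩ := h
      exact fun t => NHT.r1 hf H.T (p := 0) (j := 1) (by omega) (by omega) (by omega) (by omega) (by omega) (by omega) (mv t rfl (by omega) rfl rfl)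
    · obtain ⟨rfl, rfl, h⟩ := h
      exact NHT.p2 hf H.T (j := 1) (by omega) (by omega) (by omega) (by omega) (by omega) (by omega)
    · obtain ⟨rfl, rfl, h⟩ := h
      exact NHT.p2 hf H.T (j := 3) (by omega) (by omega) (by omega) (by omega) (by omega) (by omega)
    · obtain ⟨rfl, rfl, h⟩ := h
      exact NHT.p2 hf H.T (j := 2) (by omega) (by omega) (by omega) (by omega) (by omega) (by omega)
    · obtain ⟨rfl, rfl, h⟩ := h
      exact NHT.p2 hf H.T (j := 1) (by omega) (by omega) (by omega) (by omega) (by omega) (by omega)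
    · obtain ⟨rfl, rfl, rfl, rfl⟩ := h
      exact fun t => z0 (mv t (by omega) (by omega) (by omega) (by omega))
    · obtain ⟨rfl, rfl, rfl, rfl⟩ := h
      exact fun t => z1 (mv t (by omega) (by omega) (by omega) (by omega))

theorem d4_11_chk : check 12 9 27 27 0 1 1 1 2
    (fun j n p q => decide ((j = 2 ∧ n = 3 ∧ q ≤ p ∧ 14 ≤ p ∧ p ≤ q + 14 ∧ ((p + q) % 2 = 1 ∧ p % 2 = 0))
      ∨ (j = 2 ∧ n = 5 ∧ q ≤ p ∧ 15 ≤ q ∧ p ≤ q + 14 ∧ ((p + q) % 2 = 1 ∧ p % 2 = 1))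
      ∨ (j = 2 ∧ n = 1 ∧ q ≤ p ∧ p ≤ q + 14 ∧ ((p + q) % 2 = 1 ∧ p % 2 = 1))
      ∨ (j = 2 ∧ n = 2 ∧ q ≤ p ∧ p ≤ q + 14 ∧ (p = q ∧ p % 2 = 0))
      ∨ (j = 4 ∧ n = 1 ∧ q ≤ p ∧ 6 ≤ p ∧ p ≤ q + 14 ∧ ((p + q) % 2 = 1 ∧ p % 2 = 0))
      ∨ (j = 4 ∧ n = 2 ∧ q ≤ p ∧ 7 ≤ p ∧ p ≤ q + 14 ∧ (p = q ∧ p % 2 = 1))
      ∨ (j = 4 ∧ n = 3 ∧ q ≤ p ∧ 7 ≤ q ∧ p ≤ q + 14 ∧ ((p + q) % 2 = 1 ∧ p % 2 = 1))
      ∨ (j = 6 ∧ n = 3 ∧ q ≤ p ∧ 18 ≤ p ∧ p ≤ q + 14 ∧ ((p + q) % 2 = 1 ∧ p % 2 = 0))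
      ∨ (j = 6 ∧ n = 1 ∧ q ≤ p ∧ 3 ≤ q ∧ p ≤ q + 14 ∧ ((p + q) % 2 = 1 ∧ p % 2 = 1))
      ∨ (j = 6 ∧ n = 2 ∧ q ≤ p ∧ 5 ≤ q ∧ p ≤ q + 14 ∧ (p = q ∧ p % 2 = 0))
      ∨ (j = 8 ∧ n = 1 ∧ q ≤ p ∧ 6 ≤ p ∧ p ≤ q + 14 ∧ ((p + q) % 2 = 1 ∧ p % 2 = 0))
      ∨ (j = 8 ∧ n = 2 ∧ q ≤ p ∧ 7 ≤ p ∧ p ≤ q + 14 ∧ (p = q ∧ p % 2 = 1))
      ∨ (j = 8 ∧ n = 3 ∧ q ≤ p ∧ 7 ≤ q ∧ p ≤ q + 14 ∧ ((p + q) % 2 = 1 ∧ p % 2 = 1))
      ∨ (j = 8 ∧ n = 4 ∧ q ≤ p ∧ 9 ≤ q ∧ p ≤ q + 14 ∧ (p = q ∧ p % 2 = 0))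
      ∨ (j = 10 ∧ n = 3 ∧ q ≤ p ∧ 10 ≤ p ∧ p ≤ q + 13 ∧ ((p + q) % 2 = 1 ∧ p % 2 = 0))
      ∨ (j = 10 ∧ n = 6 ∧ q ≤ p ∧ 13 ≤ q ∧ p ≤ q + 14 ∧ (p = q ∧ p % 2 = 0))
      ∨ (j = 10 ∧ n = 1 ∧ q ≤ p ∧ p ≤ q + 14 ∧ ((p + q) % 2 = 1 ∧ p % 2 = 1))
      ∨ (j = 10 ∧ n = 2 ∧ q ≤ p ∧ p ≤ q + 14 ∧ (p = q ∧ p % 2 = 0))
      ∨ (j = 2 ∧ n = 3 ∧ p = 10 ∧ q = 5)
      ∨ (j = 4 ∧ n = 5 ∧ p = 16 ∧ q = 11)
      ∨ (j = 4 ∧ n = 5 ∧ p = 14 ∧ q = 9)
      ∨ (j = 6 ∧ n = 3 ∧ p = 12 ∧ q = 7)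
      ∨ (j = 8 ∧ n = 5 ∧ p = 18 ∧ q = 13)))
    (fun j n p q => decide ((j = 2 ∧ n = 3 ∧ q ≤ p ∧ 14 ≤ p ∧ p ≤ q + 14 ∧ ¬ ((p + q) % 2 = 1 ∧ p % 2 = 0))
      ∨ (j = 2 ∧ n = 5 ∧ q ≤ p ∧ 15 ≤ q ∧ p ≤ q + 14 ∧ ¬ ((p + q) % 2 = 1 ∧ p % 2 = 1))
      ∨ (j = 2 ∧ n = 1 ∧ q ≤ p ∧ p ≤ q + 14 ∧ ¬ ((p + q) % 2 = 1 ∧ p % 2 = 1))
      ∨ (j = 2 ∧ n = 2 ∧ q ≤ p ∧ p ≤ q + 14 ∧ ¬ (p = q ∧ p % 2 = 0))
      ∨ (j = 4 ∧ n = 1 ∧ q ≤ p ∧ 6 ≤ p ∧ p ≤ q + 14 ∧ ¬ ((p + q) % 2 = 1 ∧ p % 2 = 0))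
      ∨ (j = 4 ∧ n = 2 ∧ q ≤ p ∧ 7 ≤ p ∧ p ≤ q + 14 ∧ ¬ (p = q ∧ p % 2 = 1))
      ∨ (j = 4 ∧ n = 3 ∧ q ≤ p ∧ 7 ≤ q ∧ p ≤ q + 14 ∧ ¬ ((p + q) % 2 = 1 ∧ p % 2 = 1))
      ∨ (j = 6 ∧ n = 3 ∧ q ≤ p ∧ 18 ≤ p ∧ p ≤ q + 14 ∧ ¬ ((p + q) % 2 = 1 ∧ p % 2 = 0))
      ∨ (j = 6 ∧ n = 1 ∧ q ≤ p ∧ 3 ≤ q ∧ p ≤ q + 14 ∧ ¬ ((p + q) % 2 = 1 ∧ p % 2 = 1))
      ∨ (j = 6 ∧ n = 2 ∧ q ≤ p ∧ 5 ≤ q ∧ p ≤ q + 14 ∧ ¬ (p = q ∧ p % 2 = 0))
      ∨ (j = 8 ∧ n = 1 ∧ q ≤ p ∧ 6 ≤ p ∧ p ≤ q + 14 ∧ ¬ ((p + q) % 2 = 1 ∧ p % 2 = 0))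
      ∨ (j = 8 ∧ n = 2 ∧ q ≤ p ∧ 7 ≤ p ∧ p ≤ q + 14 ∧ ¬ (p = q ∧ p % 2 = 1))
      ∨ (j = 8 ∧ n = 3 ∧ q ≤ p ∧ 7 ≤ q ∧ p ≤ q + 14 ∧ ¬ ((p + q) % 2 = 1 ∧ p % 2 = 1))
      ∨ (j = 8 ∧ n = 4 ∧ q ≤ p ∧ 9 ≤ q ∧ p ≤ q + 14 ∧ ¬ (p = q ∧ p % 2 = 0))
      ∨ (j = 10 ∧ n = 3 ∧ q ≤ p ∧ 10 ≤ p ∧ p ≤ q + 13 ∧ ¬ ((p + q) % 2 = 1 ∧ p % 2 = 0))
      ∨ (j = 10 ∧ n = 6 ∧ q ≤ p ∧ 13 ≤ q ∧ p ≤ q + 14 ∧ ¬ (p = q ∧ p % 2 = 0))
      ∨ (j = 10 ∧ n = 1 ∧ q ≤ p ∧ p ≤ q + 14 ∧ ¬ ((p + q) % 2 = 1 ∧ p % 2 = 1))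
      ∨ (j = 10 ∧ n = 2 ∧ q ≤ p ∧ p ≤ q + 14 ∧ ¬ (p = q ∧ p % 2 = 0))
      ∨ (j = 1 ∧ n = 1 ∧ q ≤ p)
      ∨ (j = 1 ∧ n = 2 ∧ q ≤ p)
      ∨ (j = 1 ∧ n = 3 ∧ q ≤ p)
      ∨ (j = 1 ∧ n = 4 ∧ q ≤ p)
      ∨ (j = 1 ∧ n = 5 ∧ q ≤ p)
      ∨ (j = 1 ∧ n = 6 ∧ q ≤ p)
      ∨ (j = 1 ∧ n = 7 ∧ q ≤ p)
      ∨ (j = 3 ∧ n = 3 ∧ 7 ≤ q ∧ q + 3 ≤ p ∧ p ≤ q + 12)
      ∨ (j = 7 ∧ n = 3 ∧ 7 ≤ q ∧ q + 1 ≤ p ∧ p ≤ q + 14)
      ∨ (j = 9 ∧ n = 3 ∧ 9 ≤ p ∧ q + 1 ≤ p ∧ p ≤ q + 14)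
      ∨ (j = 6 ∧ n = 4 ∧ 8 ≤ q ∧ q + 2 ≤ p ∧ p ≤ q + 13)
      ∨ (j = 7 ∧ n = 4 ∧ 11 ≤ q ∧ q + 2 ≤ p ∧ p ≤ q + 13)
      ∨ (j = 3 ∧ n = 5 ∧ 11 ≤ q ∧ q + 4 ≤ p ∧ p ≤ q + 11)
      ∨ (j = 5 ∧ n = 5 ∧ 11 ≤ q ∧ q + 3 ≤ p ∧ p ≤ q + 12)
      ∨ (j = 7 ∧ n = 5 ∧ 11 ≤ q ∧ q + 2 ≤ p ∧ p ≤ q + 13)
      ∨ (j = 9 ∧ n = 5 ∧ 11 ≤ q ∧ q + 1 ≤ p ∧ p ≤ q + 14)
      ∨ (j = 2 ∧ n = 6 ∧ 12 ≤ q ∧ q + 5 ≤ p ∧ p ≤ q + 10)
      ∨ (j = 3 ∧ n = 6 ∧ 12 ≤ q ∧ q + 5 ≤ p ∧ p ≤ q + 10)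
      ∨ (j = 4 ∧ n = 6 ∧ 12 ≤ q ∧ q + 4 ≤ p ∧ p ≤ q + 11)
      ∨ (j = 5 ∧ n = 6 ∧ 12 ≤ q ∧ q + 4 ≤ p ∧ p ≤ q + 11)
      ∨ (j = 6 ∧ n = 6 ∧ 12 ≤ q ∧ q + 3 ≤ p ∧ p ≤ q + 12)
      ∨ (j = 7 ∧ n = 6 ∧ 12 ≤ q ∧ q + 3 ≤ p ∧ p ≤ q + 12)
      ∨ (j = 8 ∧ n = 6 ∧ 12 ≤ q ∧ q + 2 ≤ p ∧ p ≤ q + 13)
      ∨ (j = 9 ∧ n = 6 ∧ 17 ≤ q ∧ q + 2 ≤ p ∧ p ≤ q + 13)
      ∨ (j = 3 ∧ n = 7 ∧ 17 ≤ q ∧ q + 5 ≤ p ∧ p ≤ q + 10)
      ∨ (j = 5 ∧ n = 7 ∧ 17 ≤ q ∧ q + 4 ≤ p ∧ p ≤ q + 11)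
      ∨ (j = 7 ∧ n = 7 ∧ 17 ≤ q ∧ q + 3 ≤ p ∧ p ≤ q + 12)
      ∨ (j = 9 ∧ n = 7 ∧ 17 ≤ q ∧ q + 2 ≤ p ∧ p ≤ q + 13)
      ∨ (j = 11 ∧ n = 7 ∧ 17 ≤ q ∧ q + 1 ≤ p ∧ p ≤ q + 14)
      ∨ (j = 2 ∧ n = 3 ∧ p = 12 ∧ q = 7)
      ∨ (j = 4 ∧ n = 7 ∧ p = 23 ∧ q = 16)))
    1109
    0x3e36033e36803e370a3e1b004af9523e1a002479803e1a01247981247a80245e003e3780247a81245e8a4b08ca245f003e4600245f8a4b174a2460003e2b00246e1a3e2b01313f003e1d524aed804afb123e1c003e1c014aeb053e0d004af91a3e1b1a3e29004afa4a3e0e003e0e044aeb053e0d004af91a3e1b1a3e1b803e1b8464a8034af9004af9043e0d054aeb003e1b1a4af91a4af9804af9843cc78e3b5b033cc7803cc7844b128e3e42034b12804b1284313d0e245f83246000246e1a313f003e1d524aed804afb123e1c003e1c01313d00313d044b200e64c2034b13004b13013e27003e270124850024929224a00024ad9224bb0024c91a31a7003e784a4b48804b490a3e5d003e5d014b20004b20043e348e3e27033e34803e3484497e8e3b4183497e80497e8463478e61db0363478063478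4313d8e246d03313d80313d8431998e24c90331998031998424a10e24938324a10024a104566b0e61cf03566b00566b043b5003498d00498d04498c8e3b4f03498c80498c84565d0e61c103565d00565d0431718e24938331718031718431638e2493033163803163843cbc0e3b4f033cbc003cbc04313e0e246e03313f003e1d52313e00313e04318d8e24af83318d80318d843b50033cbc803cbc84314c8e247c03314c80314c84314b0e247a83314b00314b0449a60e3b5b8349a60049a60463558e61e903635580635584313b8e246b03313b80313b84649a0e97f7837e48807e490a649a00649a0464b48e9804837e55807e631264b48064b48464c20e7e710364c20064c2043b5d833cca803cca84314c0e247b83314c00314c043b5d833cca003cca04314a0e247983314a00314a04716b0e7e5703716b00716b0431800e24af8331800031800456778e61db83567780567784247983247a00247a8a247b00247b8a247c00247c043cae8e3b41833cae803cae843cc80e3b5b833cc8003cc804314b8e247983247a00247a8a314b80314b843cbb003cbb013b33002185803b4000230c0021b9803b33012185813b4001230c0121b981218480216a00219e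8021ab002184812e4852219e812e7c4a2169002190002e47522e614a3b18003b3f003c9f0047e8c2480fc23c9f013b170039b8003b24002183803b170139b8013b24012183811ffb80399c002008801ffb81701900399c012008811e73801fed007ce9c26e91001e8d801e73811fed011e65006e9e007b61c239f00039d4001e8d811e58801e72001e65018840007b6ec26e7600884d003afc0023280039f00120410039d4012025001e8c801e590a1e72011e4a008840018559006e9d006e9d0e6bab00884d016baa005217003afd003b23003b230e388400386900386800384d00384c0038310038300038140021bd0021a20021bc0021a10023280121a0001ed6001ebb001ed5001eba001e9f002041011eb9001e9e001e83002025011e9d001e82001e9a121e67001e71001e710e98048e98040e89c80089c78e89c70e89ac0085660085660e7e710e7e708e7e630e7e628e7e550e7d048e7d040e7cf68e7cf60e7ce88e7b7c0e7b6e8e7b6e0e70340e70338e70260e70258e70180e7017326e9c006d32006d318e6d310e6d16006bd3006bd2006bd20e6bb7006bb70e64c18e63550e61e90e61e88e61db0e61da8e61cd0e607c8e607c0e606e8e606e0e606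08e56848e53ac0e53ab8e539e0e539d8e53900e52240052240e4b650e4b648e4b578e4b570e4b498e4b490e4b3c0e4b3b8e4b2e0e49f88e49f80e49eb0e49ea8e49dd0e49dc8e49dc0e49cf8e49cf0e49ce8e49c18e49c10e49b38e480f8e480f0e48018e3e780e3d280e3d278e3d1a8e3d1a0e3d198e3d190e3d0c8e3d0c0e3d0b8e3d0b0e3cff0e3cfe8e3cfe0e3cfd8e3cf10e3cf08e3cf00e3ce30e3ce28e3cd50e3b3e003b3e0e4801523b220038910e38900e38750038750e38740038740e38590038590e38580038580e385700383d00383d0e383c0038210038210e37090036ed0036d10036b50031b58e31a80e30490e30488e303b8e303b0e303a8e302d8e302d0e30200e301f8e30120e2ea60e2e7c0e2e7b8e2e6e0e236a8e236a0e235d0e235c8e235c0e234f8e234f0e234e8e23418e23410e23408e23338e23330e23258e21e40e21e30e21c90021c90e21c80021c80e21bb0e21ad0021ad0e219f0e1efd0e1efc0e1ee2001ee20e1ee1001ee10e1ee0001ee00e1ec6001ec60e1ec5001ec50e1ec4001ec40e1eaa001eaa0e1ea9001ea90e1ea8001ea80e1e8c0e2b4f521e70001d76001d5a001d3e001d2d8e1d2d0e1d22001d210e1d208e1d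200e1d1f8e1d130e1d06001d058e1d050e1cea001ba5001b8a0018068e18060e17f90e17f88e17f80e17eb8e17eb0e17ea8e17de0e17dd8e17dd0e17dc8e17d08e17d00e17cf8e17cf0e17c30e17c28e17c20e17c18e17b58e17b50e17b48e17b40e17a78e17a70e17998e169a0e16998e168c8e168c0e168b8e167f0e167e8e167e0e16718e16710e16708e16700e16640e16638e16630e16628e16570e16568e16560e16558e16550e16490e16488e16480e16478e163b0e163a8e162d0e14ea8e14e90e14e88e14db8e14db0e14ce8e14ce0e14cd8e14c08e14c00e14b28e137c8e137c0e13700e136f0e136e8e13618e13610e13540e13538e13460e13380e13378e132a0e131c0e12038e11e78e11cb8e11cb0e11c98e11c90e11bd8e11bd0e11bc8e11bc0e11bb8e11af8e11af0e11a18e11a10e11938e105d0e105c8e10508e10500e104f8e104f0e10430e10428e10350e10348e10270e98048798040797f6878b268789c80f89c78789c70789ba0789b98789ac0f884c8788328785660f7e71077e70877e63077e62877e55077d04877d04077cf6877cf6077ce8877b7c877b7c077b6e877b6e077b608771a087718687718487716a877034077033877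026077025877018077017077016877009877009076eac876eaa876e9c0f6e90876d320f6d31876d31076d24076d23876d160f6bd30f6bd20f6bb70f64c18763550763468763460763390763388761e90761e88761db0761da8761da0761d98761cd0761cc8761cc07607c87607c07606e87606e0760608757e38757c987568487550a8754f08753ac0753ab87539e07539d8753900752240f4b65074b64874b57874b57074b49874b49074b3c074b3b874b2e0749f88749f80749eb0749ea8749dd0749dc8749dc0749cf8749cf0749ce8749c18749c10749b387480f87480f0748018748010747f3873e78873e78073e77873e5c873e46873e42873e41873e2a873e29873e28873e26873e0f873e0e873e0d873e0c873d28073d27873d1a873d1a073d19873d19073d0c873d0c073d0b873d0b073cff073cfe873cfe073cfd873cf1073cf0873cf0073ce3073ce2873cd5073b4f873b4e873b4d873b3e0f3b33873b32873b31873b30873b220f3b17873b168738910f38900f38838738830738758738750f38740f38678738670738598738590f38580f38570f384b87384b07383d87383d0f383c0f382f87382f0738218738210f37090f36ed0f36d10f36b50f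31b58731a807304907304887303b87303b07303a87302d87302d07302007301f873012072ea6072e8a072e7c072e7b872e6e072b4f072b418724bb8724a187249f87248587248487246e87246d87246c87246b87246a87245187245087236a87236a07235d07235c87235c07234f87234f07234e8723418723410723408723338723330723258721e40f21e30f21c90f21c80f21bb8721bb0721ad8721ad0f21ab87219f87219f072191872190872177872176872175871efd0f1efc0f1ee20f1ee10f1ee00f1ed4871ed4071ec6871ec60f1ec50f1ec40f1eb8871eb8071eaa871eaa0f1ea90f1ea80f1e9b871e99871e8c071e81871e80871e7f871e7e871e700f1e65871e64871e4b871d760f1d5a0f1d3e0f1d2d871d2d071d220f1d21071d20871d20071d1f871d13871d13071d12071d11871d060f1d05871d05071d04871d04071cf8071cf7871cea0f1ba50f1b8a0f18068718060717f90717f88717f80717eb8717eb0717ea8717df0717de8717de0717dd8717dd0717dc8717d18717d10717d08717d00717cf8717cf0717c30717c28717c20717c18717b58717b50717b48717b40717a78717a707179a07179987169a07169987168c87168c07168b8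7167f07167e87167e07167287167207167187167107167087167007166507166487166407166387166307166287165787165707165687165607165587165507164987164907164887164807164787163b87163b07163a87162d87162d0714eb0714ea8714e90714e88714dd0714db8714db0714cf0714ce8714ce0714cd8714c10714c08714c00714b30714b28714a507137c87137c07137087137007136f07136e87136287136187136107135487135407135387134687134607133887133807133787132a87132a07131c87131c07130e8712040712038711f60711e80711e78711da0711cb8711cb0711c98711c90711be0711bd8711bd0711bc8711bc0711bb8711b00711af8711af0711a20711a18711a107119407119387105d07105c87105087105007104f87104f07104307104287103507103487102787102707 = true := by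
  decide +kernel

theorem d4_11 (hf : Rule f) {k c n : ℕ} (H : PL f k c n (n - 4))
    (D0 : Cyc f (6 * k) (c - 2) (2 * n))
    (D0a : Cyc f (6 * k) (c - 6) (2 * n - 4 - 2 * k))
    (C2 : Cyc f (6 * k + 2) (c - 4) (2 * (n - 5) + 2))
    (h0 : f (6 * k) (c - 2) (2 * n - 3) (2 * n - 8))
    (h1 : f (6 * k + 2) c (2 * n + 3) (2 * n - 2))
    (h2 : f (6 * k + 2) c (2 * n + 1) (2 * n - 4))
    (h3 : f (6 * k + 4) (c - 2) (2 * n - 1) (2 * n - 6))
    (h4 : f (6 * k + 6) c (2 * n + 5) (2 * n))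
    (z0 : ¬ f (6 * k) (c - 2) (2 * n - 1) (2 * n - 6))
    (z1 : ¬ f (6 * k + 2) (c + 2) (2 * n + 10) (2 * n + 3)) : False := by
  have hk := H.T.hk
  have hc := H.T.hc
  have h4' := H.T.h4
  have hb := H.T.hb
  have hN := H.T.hN2
  obtain ⟨a0, ha0⟩ : ∃ z, z + 2 = 6 * k := ⟨6 * k - 2, by omega⟩
  obtain ⟨b0, hb0⟩ : ∃ z, z + 5 = c := ⟨c - 5, by omega⟩
  obtain ⟨x0, hx0⟩ : ∃ z, z + 13 = 2 * n := ⟨2 * n - 13, by omega⟩
  refine check_sound hf (a0 := a0) (b0 := b0) (x0 := x0) (y0 := x0) d4_11_chk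
    ⟨fun _ => rfl, fun h => absurd h (by decide), fun h => absurd h (by decide), by omega, by omega,
      by omega, by omega⟩ ?_ ?_
  · intro j m p q hr h
    obtain ⟨-, -, -, -, hp1, hp2, hq1, hq2⟩ := hr
    replace h := of_decide_eq_true h
    rcases h with h | h | h | h | h | h | h | h | h | h | h | h | h | h | h | h | h | h | h | h | h | h | h
    · obtain ⟨rfl, rfl, h⟩ := h
      exact (WrapC.v0 D0 (by omega) (by omega) (by omega) (by omega) (by omega) (by omega) (by omega)).mpr (by omega)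
    · obtain ⟨rfl, rfl, h⟩ := h
      exact (WrapC.v2 D0 (by omega) (by omega) (by omega) (by omega) (by omega) (by omega) (by omega)).mpr (by omega)
    · obtain ⟨rfl, rfl, h⟩ := h
      exact (WrapC.v2 D0a (by omega) (by omega) (by omega) (by omega) (by omega) (by omega) (by omega)).mpr (by omega)
    · obtain ⟨rfl, rfl, h⟩ := h
      exact (WrapC.v3 D0a (by omega) (by omega) (by omega) (by omega) (by omega) (by omega) (by omega) (by omega)).mpr (by omega)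
    · obtain ⟨rfl, rfl, h⟩ := h
      exact (WrapC.v0 C2 (by omega) (by omega) (by omega) (by omega) (by omega) (by omega) (by omega)).mpr (by omega)
    · obtain ⟨rfl, rfl, h⟩ := h
      exact (WrapC.v1 C2 (by omega) (by omega) (by omega) (by omega) (by omega) (by omega) (by omega) (by omega)).mpr (by omega)
    · obtain ⟨rfl, rfl, h⟩ := h
      exact (WrapC.v2 C2 (by omega) (by omega) (by omega) (by omega) (by omega) (by omega) (by omega)).mpr (by omega)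
    · obtain ⟨rfl, rfl, h⟩ := h
      exact (WrapC.v0 H.c4 (by omega) (by omega) (by omega) (by omega) (by omega) (by omega) (by omega)).mpr (by omega)
    · obtain ⟨rfl, rfl, h⟩ := h
      exact (WrapC.v2 H.c4a (by omega) (by omega) (by omega) (by omega) (by omega) (by omega) (by omega)).mpr (by omega)
    · obtain ⟨rfl, rfl, h⟩ := h
      exact (WrapC.v3 H.c4a (by omega) (by omega) (by omega) (by omega) (by omega) (by omega) (by omega) (by omega)).mpr (by omega)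
    · obtain ⟨rfl, rfl, h⟩ := h
      exact (WrapC.v0 H.c6 (by omega) (by omega) (by omega) (by omega) (by omega) (by omega) (by omega)).mpr (by omega)
    · obtain ⟨rfl, rfl, h⟩ := h
      exact (WrapC.v1 H.c6 (by omega) (by omega) (by omega) (by omega) (by omega) (by omega) (by omega) (by omega)).mpr (by omega)
    · obtain ⟨rfl, rfl, h⟩ := h
      exact (WrapC.v2 H.c6 (by omega) (by omega) (by omega) (by omega) (by omega) (by omega) (by omega)).mpr (by omega)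
    · obtain ⟨rfl, rfl, h⟩ := h
      exact (WrapC.v3 H.c6 (by omega) (by omega) (by omega) (by omega) (by omega) (by omega) (by omega) (by omega)).mpr (by omega)
    · obtain ⟨rfl, rfl, h⟩ := h
      exact (NW.w0v H.c8 (by omega) (by omega) (by omega) (by omega) (by omega) (by omega) (by omega)).mpr (by omega)
    · obtain ⟨rfl, rfl, h⟩ := h
      exact (NW.w3v H.c8 (by omega) (by omega) (by omega) (by omega) (by omega) (by omega) (by omega) (by omega)).mpr (by omega)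
    · obtain ⟨rfl, rfl, h⟩ := h
      exact (NW.w2v H.c8a (by omega) (by omega) (by omega) (by omega) (by omega) (by omega) (by omega)).mpr (by omega)
    · obtain ⟨rfl, rfl, h⟩ := h
      exact (NW.w3v H.c8a (by omega) (by omega) (by omega) (by omega) (by omega) (by omega) (by omega) (by omega)).mpr (by omega)
    · obtain ⟨rfl, rfl, rfl, rfl⟩ := h
      exact mv h0 (by omega) (by omega) (by omega) (by omega)
    · obtain ⟨rfl, rfl, rfl, rfl⟩ := h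
      exact mv h1 (by omega) (by omega) (by omega) (by omega)
    · obtain ⟨rfl, rfl, rfl, rfl⟩ := h
      exact mv h2 (by omega) (by omega) (by omega) (by omega)
    · obtain ⟨rfl, rfl, rfl, rfl⟩ := h
      exact mv h3 (by omega) (by omega) (by omega) (by omega)
    · obtain ⟨rfl, rfl, rfl, rfl⟩ := h
      exact mv h4 (by omega) (by omega) (by omega) (by omega)
  · intro j m p q hr h
    obtain ⟨-, -, -, -, hp1, hp2, hq1, hq2⟩ := hr
    replace h := of_decide_eq_true h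
    rcases h with h | h | h | h | h | h | h | h | h | h | h | h | h | h | h | h | h | h | h | h | h | h | h | h | h | h | h | h | h | h | h | h | h | h | h | h | h | h | h | h | h | h | h | h | h | h | h | h | h
    · obtain ⟨rfl, rfl, h⟩ := h
      exact mt (WrapC.v0 D0 (by omega) (by omega) (by omega) (by omega) (by omega) (by omega) (by omega)).mp (by omega)
    · obtain ⟨rfl, rfl, h⟩ := h
      exact mt (WrapC.v2 D0 (by omega) (by omega) (by omega) (by omega) (by omega) (by omega) (by omega)).mp (by omega)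
    · obtain ⟨rfl, rfl, h⟩ := h
      exact mt (WrapC.v2 D0a (by omega) (by omega) (by omega) (by omega) (by omega) (by omega) (by omega)).mp (by omega)
    · obtain ⟨rfl, rfl, h⟩ := h
      exact mt (WrapC.v3 D0a (by omega) (by omega) (by omega) (by omega) (by omega) (by omega) (by omega) (by omega)).mp (by omega)
    · obtain ⟨rfl, rfl, h⟩ := h
      exact mt (WrapC.v0 C2 (by omega) (by omega) (by omega) (by omega) (by omega) (by omega) (by omega)).mp (by omega)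
    · obtain ⟨rfl, rfl, h⟩ := h
      exact mt (WrapC.v1 C2 (by omega) (by omega) (by omega) (by omega) (by omega) (by omega) (by omega) (by omega)).mp (by omega)
    · obtain ⟨rfl, rfl, h⟩ := h
      exact mt (WrapC.v2 C2 (by omega) (by omega) (by omega) (by omega) (by omega) (by omega) (by omega)).mp (by omega)
    · obtain ⟨rfl, rfl, h⟩ := h
      exact mt (WrapC.v0 H.c4 (by omega) (by omega) (by omega) (by omega) (by omega) (by omega) (by omega)).mp (by omega)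
    · obtain ⟨rfl, rfl, h⟩ := h
      exact mt (WrapC.v2 H.c4a (by omega) (by omega) (by omega) (by omega) (by omega) (by omega) (by omega)).mp (by omega)
    · obtain ⟨rfl, rfl, h⟩ := h
      exact mt (WrapC.v3 H.c4a (by omega) (by omega) (by omega) (by omega) (by omega) (by omega) (by omega) (by omega)).mp (by omega)
    · obtain ⟨rfl, rfl, h⟩ := h
      exact mt (WrapC.v0 H.c6 (by omega) (by omega) (by omega) (by omega) (by omega) (by omega) (by omega)).mp (by omega)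
    · obtain ⟨rfl, rfl, h⟩ := h
      exact mt (WrapC.v1 H.c6 (by omega) (by omega) (by omega) (by omega) (by omega) (by omega) (by omega) (by omega)).mp (by omega)
    · obtain ⟨rfl, rfl, h⟩ := h
      exact mt (WrapC.v2 H.c6 (by omega) (by omega) (by omega) (by omega) (by omega) (by omega) (by omega)).mp (by omega)
    · obtain ⟨rfl, rfl, h⟩ := h
      exact mt (WrapC.v3 H.c6 (by omega) (by omega) (by omega) (by omega) (by omega) (by omega) (by omega) (by omega)).mp (by omega)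
    · obtain ⟨rfl, rfl, h⟩ := h
      exact mt (NW.w0v H.c8 (by omega) (by omega) (by omega) (by omega) (by omega) (by omega) (by omega)).mp (by omega)
    · obtain ⟨rfl, rfl, h⟩ := h
      exact mt (NW.w3v H.c8 (by omega) (by omega) (by omega) (by omega) (by omega) (by omega) (by omega) (by omega)).mp (by omega)
    · obtain ⟨rfl, rfl, h⟩ := h
      exact mt (NW.w2v H.c8a (by omega) (by omega) (by omega) (by omega) (by omega) (by omega) (by omega)).mp (by omega)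
    · obtain ⟨rfl, rfl, h⟩ := h
      exact mt (NW.w3v H.c8a (by omega) (by omega) (by omega) (by omega) (by omega) (by omega) (by omega) (by omega)).mp (by omega)
    · obtain ⟨rfl, rfl, h⟩ := h
      exact H.lw _ _ _ _ (by omega) (by omega) (by omega) (by omega) (by omega) (by omega)
    · obtain ⟨rfl, rfl, h⟩ := h
      exact H.lw _ _ _ _ (by omega) (by omega) (by omega) (by omega) (by omega) (by omega)
    · obtain ⟨rfl, rfl, h⟩ := h
      exact H.lw _ _ _ _ (by omega) (by omega) (by omega) (by omega) (by omega) (by omega)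
    · obtain ⟨rfl, rfl, h⟩ := h
      exact H.lw _ _ _ _ (by omega) (by omega) (by omega) (by omega) (by omega) (by omega)
    · obtain ⟨rfl, rfl, h⟩ := h
      exact H.lw _ _ _ _ (by omega) (by omega) (by omega) (by omega) (by omega) (by omega)
    · obtain ⟨rfl, rfl, h⟩ := h
      exact H.lw _ _ _ _ (by omega) (by omega) (by omega) (by omega) (by omega) (by omega)
    · obtain ⟨rfl, rfl, h⟩ := h
      exact H.lw _ _ _ _ (by omega) (by omega) (by omega) (by omega) (by omega) (by omega)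
    · obtain ⟨rfl, rfl, h⟩ := h
      exact NHT.pm hf H.T (j := 2) (by omega) (by omega) (by omega) (by omega) (by omega) (by omega)
    · obtain ⟨rfl, rfl, h⟩ := h
      exact NHT.pm hf H.T (j := 0) (by omega) (by omega) (by omega) (by omega) (by omega) (by omega)
    · obtain ⟨rfl, rfl, h⟩ := h
      exact NHT.pmi hf H.T (j := 0) (by omega) (by omega) (by omega) (by omega) (by omega) (by omega)
    · obtain ⟨rfl, rfl, h⟩ := h
      exact fun t => NHT.rm1 hf H.T (p := 0) (j := 1) (by omega) (by omega) (by omega) (by omega) (by omega) (by omega) (mv t rfl (by omega) rfl rfl)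
    · obtain ⟨rfl, rfl, h⟩ := h
      exact NHT.p0 hf H.T (j := 1) (by omega) (by omega) (by omega) (by omega) (by omega) (by omega)
    · obtain ⟨rfl, rfl, h⟩ := h
      exact NHT.p0 hf H.T (j := 3) (by omega) (by omega) (by omega) (by omega) (by omega) (by omega)
    · obtain ⟨rfl, rfl, h⟩ := h
      exact NHT.p0 hf H.T (j := 2) (by omega) (by omega) (by omega) (by omega) (by omega) (by omega)
    · obtain ⟨rfl, rfl, h⟩ := h
      exact NHT.p0 hf H.T (j := 1) (by omega) (by omega) (by omega) (by omega) (by omega) (by omega)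
    · obtain ⟨rfl, rfl, h⟩ := h
      exact NHT.p0 hf H.T (j := 0) (by omega) (by omega) (by omega) (by omega) (by omega) (by omega)
    · obtain ⟨rfl, rfl, h⟩ := h
      exact fun t => NHT.r1 hf H.T (p := 0) (j := 4) (by omega) (by omega) (by omega) (by omega) (by omega) (by omega) (mv t rfl (by omega) rfl rfl)
    · obtain ⟨rfl, rfl, h⟩ := h
      exact fun t => NHT.r1 hf H.T (p := 1) (j := 4) (by omega) (by omega) (by omega) (by omega) (by omega) (by omega) (mv t rfl (by omega) rfl rfl)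
    · obtain ⟨rfl, rfl, h⟩ := h
      exact fun t => NHT.r1 hf H.T (p := 0) (j := 3) (by omega) (by omega) (by omega) (by omega) (by omega) (by omega) (mv t rfl (by omega) rfl rfl)
    · obtain ⟨rfl, rfl, h⟩ := h
      exact fun t => NHT.r1 hf H.T (p := 1) (j := 3) (by omega) (by omega) (by omega) (by omega) (by omega) (by omega) (mv t rfl (by omega) rfl rfl)
    · obtain ⟨rfl, rfl, h⟩ := h
      exact fun t => NHT.r1 hf H.T (p := 0) (j := 2) (by omega) (by omega) (by omega) (by omega) (by omega) (by omega) (mv t rfl (by omega) rfl rfl)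
    · obtain ⟨rfl, rfl, h⟩ := h
      exact fun t => NHT.r1 hf H.T (p := 1) (j := 2) (by omega) (by omega) (by omega) (by omega) (by omega) (by omega) (mv t rfl (by omega) rfl rfl)
    · obtain ⟨rfl, rfl, h⟩ := h
      exact fun t => NHT.r1 hf H.T (p := 0) (j := 1) (by omega) (by omega) (by omega) (by omega) (by omega) (by omega) (mv t rfl (by omega) rfl rfl)
    · obtain ⟨rfl, rfl, h⟩ := h
      exact NHT.p2 hf H.T (j := 1) (by omega) (by omega) (by omega) (by omega) (by omega) (by omega)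
    · obtain ⟨rfl, rfl, h⟩ := h
      exact NHT.p2 hf H.T (j := 4) (by omega) (by omega) (by omega) (by omega) (by omega) (by omega)
    · obtain ⟨rfl, rfl, h⟩ := h
      exact NHT.p2 hf H.T (j := 3) (by omega) (by omega) (by omega) (by omega) (by omega) (by omega)
    · obtain ⟨rfl, rfl, h⟩ := h
      exact NHT.p2 hf H.T (j := 2) (by omega) (by omega) (by omega) (by omega) (by omega) (by omega)
    · obtain ⟨rfl, rfl, h⟩ := h
      exact NHT.p2 hf H.T (j := 1) (by omega) (by omega) (by omega) (by omega) (by omega) (by omega)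
    · obtain ⟨rfl, rfl, h⟩ := h
      exact NHT.p2 hf H.T (j := 0) (by omega) (by omega) (by omega) (by omega) (by omega) (by omega)
    · obtain ⟨rfl, rfl, rfl, rfl⟩ := h
      exact fun t => z0 (mv t (by omega) (by omega) (by omega) (by omega))
    · obtain ⟨rfl, rfl, rfl, rfl⟩ := h
      exact fun t => z1 (mv t (by omega) (by omega) (by omega) (by omega))

theorem d2_00_chk : check 12 9 27 27 0 1 1 1 2
    (fun j n p q => decide ((j = 2 ∧ n = 3 ∧ q ≤ p ∧ 14 ≤ p ∧ p ≤ q + 14 ∧ ((p + q) % 2 = 1 ∧ p % 2 = 0))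
      ∨ (j = 2 ∧ n = 5 ∧ q ≤ p ∧ 15 ≤ q ∧ p ≤ q + 14 ∧ ((p + q) % 2 = 1 ∧ p % 2 = 1))
      ∨ (j = 2 ∧ n = 1 ∧ q ≤ p ∧ p ≤ q + 14 ∧ ((p + q) % 2 = 1 ∧ p % 2 = 1))
      ∨ (j = 4 ∧ n = 1 ∧ q ≤ p ∧ 8 ≤ p ∧ p ≤ q + 14 ∧ ((p + q) % 2 = 1 ∧ p % 2 = 0))
      ∨ (j = 4 ∧ n = 2 ∧ q ≤ p ∧ 9 ≤ p ∧ p ≤ q + 14 ∧ (p = q ∧ p % 2 = 1))
      ∨ (j = 4 ∧ n = 3 ∧ q ≤ p ∧ 9 ≤ q ∧ p ≤ q + 14 ∧ ((p + q) % 2 = 1 ∧ p % 2 = 1))
      ∨ (j = 4 ∧ n = 4 ∧ q ≤ p ∧ 11 ≤ q ∧ p ≤ q + 14 ∧ (p = q ∧ p % 2 = 0))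
      ∨ (j = 6 ∧ n = 3 ∧ q ≤ p ∧ 18 ≤ p ∧ p ≤ q + 14 ∧ ((p + q) % 2 = 1 ∧ p % 2 = 0))
      ∨ (j = 6 ∧ n = 5 ∧ q ≤ p ∧ 19 ≤ q ∧ p ≤ q + 14 ∧ ((p + q) % 2 = 1 ∧ p % 2 = 1))
      ∨ (j = 6 ∧ n = 1 ∧ q ≤ p ∧ 3 ≤ q ∧ p ≤ q + 14 ∧ ((p + q) % 2 = 1 ∧ p % 2 = 1))
      ∨ (j = 6 ∧ n = 2 ∧ q ≤ p ∧ 5 ≤ q ∧ p ≤ q + 14 ∧ (p = q ∧ p % 2 = 0))
      ∨ (j = 8 ∧ n = 1 ∧ q ≤ p ∧ 6 ≤ p ∧ p ≤ q + 14 ∧ ((p + q) % 2 = 1 ∧ p % 2 = 0))
      ∨ (j = 8 ∧ n = 2 ∧ q ≤ p ∧ 7 ≤ p ∧ p ≤ q + 14 ∧ (p = q ∧ p % 2 = 1))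
      ∨ (j = 8 ∧ n = 4 ∧ q ≤ p ∧ 9 ≤ q ∧ p ≤ q + 14 ∧ (p = q ∧ p % 2 = 0))
      ∨ (j = 10 ∧ n = 6 ∧ q ≤ p ∧ 13 ≤ q ∧ p ≤ q + 14 ∧ (p = q ∧ p % 2 = 0))
      ∨ (j = 4 ∧ n = 5 ∧ p = 16 ∧ q = 11)
      ∨ (j = 6 ∧ n = 3 ∧ p = 12 ∧ q = 7)
      ∨ (j = 8 ∧ n = 5 ∧ p = 18 ∧ q = 13)))
    (fun j n p q => decide ((j = 2 ∧ n = 3 ∧ q ≤ p ∧ 14 ≤ p ∧ p ≤ q + 14 ∧ ¬ ((p + q) % 2 = 1 ∧ p % 2 = 0))
      ∨ (j = 2 ∧ n = 5 ∧ q ≤ p ∧ 15 ≤ q ∧ p ≤ q + 14 ∧ ¬ ((p + q) % 2 = 1 ∧ p % 2 = 1))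
      ∨ (j = 2 ∧ n = 1 ∧ q ≤ p ∧ p ≤ q + 14 ∧ ¬ ((p + q) % 2 = 1 ∧ p % 2 = 1))
      ∨ (j = 4 ∧ n = 1 ∧ q ≤ p ∧ 8 ≤ p ∧ p ≤ q + 14 ∧ ¬ ((p + q) % 2 = 1 ∧ p % 2 = 0))
      ∨ (j = 4 ∧ n = 2 ∧ q ≤ p ∧ 9 ≤ p ∧ p ≤ q + 14 ∧ ¬ (p = q ∧ p % 2 = 1))
      ∨ (j = 4 ∧ n = 3 ∧ q ≤ p ∧ 9 ≤ q ∧ p ≤ q + 14 ∧ ¬ ((p + q) % 2 = 1 ∧ p % 2 = 1))
      ∨ (j = 4 ∧ n = 4 ∧ q ≤ p ∧ 11 ≤ q ∧ p ≤ q + 14 ∧ ¬ (p = q ∧ p % 2 = 0))
      ∨ (j = 6 ∧ n = 3 ∧ q ≤ p ∧ 18 ≤ p ∧ p ≤ q + 14 ∧ ¬ ((p + q) % 2 = 1 ∧ p % 2 = 0))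
      ∨ (j = 6 ∧ n = 5 ∧ q ≤ p ∧ 19 ≤ q ∧ p ≤ q + 14 ∧ ¬ ((p + q) % 2 = 1 ∧ p % 2 = 1))
      ∨ (j = 6 ∧ n = 1 ∧ q ≤ p ∧ 3 ≤ q ∧ p ≤ q + 14 ∧ ¬ ((p + q) % 2 = 1 ∧ p % 2 = 1))
      ∨ (j = 6 ∧ n = 2 ∧ q ≤ p ∧ 5 ≤ q ∧ p ≤ q + 14 ∧ ¬ (p = q ∧ p % 2 = 0))
      ∨ (j = 8 ∧ n = 1 ∧ q ≤ p ∧ 6 ≤ p ∧ p ≤ q + 14 ∧ ¬ ((p + q) % 2 = 1 ∧ p % 2 = 0))
      ∨ (j = 8 ∧ n = 2 ∧ q ≤ p ∧ 7 ≤ p ∧ p ≤ q + 14 ∧ ¬ (p = q ∧ p % 2 = 1))
      ∨ (j = 8 ∧ n = 4 ∧ q ≤ p ∧ 9 ≤ q ∧ p ≤ q + 14 ∧ ¬ (p = q ∧ p % 2 = 0))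
      ∨ (j = 10 ∧ n = 6 ∧ q ≤ p ∧ 13 ≤ q ∧ p ≤ q + 14 ∧ ¬ (p = q ∧ p % 2 = 0))
      ∨ (j = 1 ∧ n = 1 ∧ q ≤ p)
      ∨ (j = 1 ∧ n = 2 ∧ q ≤ p)
      ∨ (j = 1 ∧ n = 3 ∧ q ≤ p)
      ∨ (j = 1 ∧ n = 4 ∧ q ≤ p)
      ∨ (j = 1 ∧ n = 5 ∧ q ≤ p)
      ∨ (j = 1 ∧ n = 6 ∧ q ≤ p)
      ∨ (j = 1 ∧ n = 7 ∧ q ≤ p)
      ∨ (j = 5 ∧ n = 3 ∧ 9 ≤ p ∧ q + 3 ≤ p ∧ p ≤ q + 12)
      ∨ (j = 7 ∧ n = 3 ∧ 7 ≤ q ∧ q + 1 ≤ p ∧ p ≤ q + 14)
      ∨ (j = 5 ∧ n = 4 ∧ 8 ≤ q ∧ q + 3 ≤ p ∧ p ≤ q + 12)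
      ∨ (j = 6 ∧ n = 4 ∧ 8 ≤ q ∧ q + 2 ≤ p ∧ p ≤ q + 13)
      ∨ (j = 7 ∧ n = 4 ∧ 11 ≤ q ∧ q + 2 ≤ p ∧ p ≤ q + 13)
      ∨ (j = 5 ∧ n = 5 ∧ 11 ≤ q ∧ q + 3 ≤ p ∧ p ≤ q + 12)
      ∨ (j = 7 ∧ n = 5 ∧ 11 ≤ q ∧ q + 2 ≤ p ∧ p ≤ q + 13)
      ∨ (j = 9 ∧ n = 5 ∧ 11 ≤ q ∧ q + 1 ≤ p ∧ p ≤ q + 14)
      ∨ (j = 4 ∧ n = 6 ∧ 12 ≤ q ∧ q + 4 ≤ p ∧ p ≤ q + 11)
      ∨ (j = 5 ∧ n = 6 ∧ 17 ≤ q ∧ q + 4 ≤ p ∧ p ≤ q + 11)
      ∨ (j = 6 ∧ n = 6 ∧ 12 ≤ q ∧ q + 3 ≤ p ∧ p ≤ q + 12)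
      ∨ (j = 7 ∧ n = 6 ∧ 12 ≤ q ∧ q + 3 ≤ p ∧ p ≤ q + 12)
      ∨ (j = 8 ∧ n = 6 ∧ 12 ≤ q ∧ q + 2 ≤ p ∧ p ≤ q + 13)
      ∨ (j = 9 ∧ n = 6 ∧ 17 ≤ q ∧ q + 2 ≤ p ∧ p ≤ q + 13)
      ∨ (j = 5 ∧ n = 7 ∧ 17 ≤ q ∧ q + 4 ≤ p ∧ p ≤ q + 11)
      ∨ (j = 7 ∧ n = 7 ∧ 17 ≤ q ∧ q + 3 ≤ p ∧ p ≤ q + 12)
      ∨ (j = 9 ∧ n = 7 ∧ 17 ≤ q ∧ q + 2 ≤ p ∧ p ≤ q + 13)
      ∨ (j = 4 ∧ n = 7 ∧ p = 23 ∧ q = 18)))
    890
    0x57d90557cb0064b75264a9524b07804b151264c40357e50057e50163568364c38064c40a57d78057d78464de0e7e8d0364de0064de04564d03564d80565b9a565c0057d6ba57e40057d70057d70e57d70447e80e47e78347e80047e8043e36034b06804b06843cd70349a78049a7847d05837e72807e7f807e7f8e7e7f843e29004b07da4b15004b15044b150357e60057e60464a8834af9804af98456788e61cf03567880567884580d8e581a05580c0064eb4a64dd4a4b2e804b2f0a580d80580d844b148e3cd7034b21804b14804b148e4b148455180e61f70355180055180470358e7b998370358070358461890347da0047da04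3e440e3cd7033e51003e44003e440e3e44044b210e4b13834b21004b21043e368e3e36033e36803e368461cd0354fd0061dbda56780056780449b48e3b778349b48049b48454d50e53670553750053670153831a54e08054fd0054c68054f00061bf5a61db5261a55a61c14a54fc0054d50054d50e54d5043cf18e3b77833cf1803cf18456850e61e9035685005685043e5e0e4b4a033e5e003e5e0461cf03633b80633b8461bf03565b00565b0454d40e53670354e10054d40054d40e54d40449a88e3b6b0349a88049a88453670354d40054e10061a54a61bf5254b90054e00054e00e54e00456930e61f7035693005693043cd78e3cd7033ce4803cd7803cd78e3cd784499a0e3cc983499a00499a043cbb003cbb013b40003b33003b40013b33012e550e2184832e55002e5504219e832e6f003b404a3cad003cbb1a3cc9003cc90453678e53670353748053678053678e5367843cba8e219e832e6f003b404a3cba803cba842e548e2184032e54802e54843cd7034b14004b14043b50033cbc803cbc843cbb03498b80498b84230c032fdc802fdc8449b50e3b780349b50049b50449a90e3b6c0349a90049a90456250e61890356250056250463560e55260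555180061f74a61e94a63560063560456778e61db835677805677843cbb8e3b4f033cbb803cbb8431648e2494033164803164843ce40e3b77833ce4003ce4043cf20e3b78033cf2003cf20449548e47e78349548049548449c20e3b778349c20049c2043cd88e3b6c033cd8803cd8843b5003498d00498d0463638e61f70363638063638461b18e53670361a48061b18061b18e61b18464c20e7e710364c20064c204701900534b007ce9c2534b0151c3006e91006e9e0051d00051c3017b61c26e76007b6ec2539f0051d00151a8006be2006baa003b18002328002041002025006e9d006e9d0e6bb700551a00539f0152170051cf0051cf0e6be2016baa014f4d004f4c004f15004f14003b3f003b3f0e388400386800384c00383000381400352e00352d0021bd0021bc0021a10023280121a0001ef2001ed7001ef1001ed6001ebb001ed5001eba002041011eb9001e9e002025011e9d0089e40089c80089ac007ba68e7ba60e7b6e8e7b6e0e7017326e9c006d698e6d690e6d4e006d32006d318e6d310e6d16006cfa006a828e6a820e6a67006a4a8e6a4a0e6bb7016a2f0064eb0e64ea8e64dd8e64dd0e64dc8e64cf8e64cf0e64c18e637e8e637e0e6371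0e63708e63700e63630e63628e63550e61e90e61e88e61db0e61da8e61cd0e61bf0e61be8e61b10e61a30e61a28e61950e607c8e607c0e606e8e606e0e60608e60528e60520e60448e60368e60360e60288e5f1e0e5f108e5ee60e5ed88e56ae0e56ad8e56a08e56a00e569f8e56928e56920e56848e55270e55190e53ac0e53ab8e539e0e539d8e53900e53820e53818e53740e53660e53658e53580e52400052240052240e53493251ce0050d40050b800509c0050800050640050638e50630e5048004f740e4f590e4f3d004f3c004f3c0e4f21004f210e4b2e0e49c18e3cf10e481d523b3e003a268e3a260e3a190e3a188e3a0c003a0b8e3a0b0e3a0a8e3a0a0e39fd0e39fc8e39f00039ef8e39ef0e39d40039d38e39d30e39b80039b78e39b70e399c0038910038910e38750038750e38590038590e383d00383d0e38210038210e37250037090036ed0036d10036b50035560035550035550e353a00353a0e21e40e21c90021c90e21c80021c80e21bb0e21ad0021ad0e219f0e1f190e1f180e1efe001efe0e1efd001efd0e1efc0e1ee2001ee20e1ee10e1ed40e1ec6001ec60e1ec5001ec50e1eb80e1eaa001eaa0e16570e163b0e14ea8e14ce8e14c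e0e14cd8e14c08e14c00e14b28e13700e13618e13610e13540e13538e13460e12038e11e78e89e40f89c80f89ac0f7e8d077e8c877e7f077e71077e70877e63077d20877d20077d12877d04877d04077cf6877ba6877ba6077b98877b7c877b6e877b6e077b608771bc8771a087705007704f877042077034077033877026077017077016877009877009076ec8876eac876eaa876e9c0f6e90876d69876d69076d5c076d4e0f6d320f6d31876d31076d24076d23876d160f6cfa0f6bd4876bb6876b9c876a82876a82076a75076a670f6a4a876a4a076a3d076a3c876a2f0f64eb0764ea8764dd8764dd0764dc8764cf8764cf0764c187637e87637e0763710763708763700763630763628763550763468763460763390763388761f70761f68761e90761e88761db0761da8761da0761d98761cd0761cc8761cc0761bf0761be8761b10761a30761a287619507608a87608a07607c87607c07606e87606e076060876060076052876052076044876036876036076028875f1e075f10875ee6875ee6075ed887581a8757fe8757e68757e58757e48757ca8757c88756ae0756ad8756a08756a007569f87569287569207568487564c8755270f55268755198755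1907550b87550a8754f08754ee8754d48754d28754b88753ba0753b98753ac0753ab87539e07539d87539007538f87538207538187537407536607536587535807534907534887533b87533b0752400f52328752320752248752240f52168751fa8751de8751dc8751ce0f51c28750d40f50b80f509c0f50800f50640f50638750630750560750558750480f4f740f4f590f4f3d0f4f3c0f4f210f4b4a074b49874b3c074b2e0749dd8749dd0749cf8749c187481d07481c87480f87480f0746b08746b00746a30746a287467887467807466b07466a87450c07450b8744fe8744fe073e79873e79073e5e873e44873e42873e29873e28873d0d073d0c873cff073cf1073b6b873b6a873b69873b4f873b4e873b4c873b3e0f3b32873b16873a26873a26073a19073a18873a0c0f3a0b873a0b073a0a873a0a0739fe0739fd8739fd0739fc8739f00f39ef8739ef0739e20739e00739df8739d40f39d38739d30739d28739d20739c60739c58739b80f39b78739b70739aa07399c0f38910f38750f38590f383d0f38210f37250f37090f36ed0f36d10f36b50f35560f35550f353a0f24868721e40f21c90f21c80f21bb8721bb0721ad8721ad0f219f87219f072191872190872176871f190f1f180f1efe0f1efd0f1efc0f1ee20f1ee10f1ed4871ed4071ec6871ec60f1ec50f1eb8871eb8071eaa871eaa0f17c38717c30717b60717b587165787165707165687164987164907163b87163b07162d8714eb0714ea8714dd0714cf0714ce8714ce0714cd8714c10714c08714c00714b30714b28713708713700713628713618713610713548713540713538713468713460712040712038711f60711e80711e78711da07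 = true := by
  decide +kernel

theorem d2_00 (hf : Rule f) {k c n : ℕ} (H : PL f k c n (n - 4))
    (D0 : Cyc f (6 * k) (c - 2) (2 * n))
    (D0a : Cyc f (6 * k) (c - 6) (2 * n - 4 - 2 * k))
    (h0 : f (6 * k + 2) c (2 * n + 3) (2 * n - 2))
    (h1 : f (6 * k + 4) (c - 2) (2 * n - 1) (2 * n - 6))
    (h2 : f (6 * k + 6) c (2 * n + 5) (2 * n))
    (z0 : ¬ f (6 * k + 2) (c + 2) (2 * n + 10) (2 * n + 5)) : False := by
  have hk := H.T.hk
  have hc := H.T.hc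
  have h4' := H.T.h4
  have hb := H.T.hb
  have hN := H.T.hN2
  obtain ⟨a0, ha0⟩ : ∃ z, z + 2 = 6 * k := ⟨6 * k - 2, by omega⟩
  obtain ⟨b0, hb0⟩ : ∃ z, z + 5 = c := ⟨c - 5, by omega⟩
  obtain ⟨x0, hx0⟩ : ∃ z, z + 13 = 2 * n := ⟨2 * n - 13, by omega⟩
  refine check_sound hf (a0 := a0) (b0 := b0) (x0 := x0) (y0 := x0) d2_00_chk
    ⟨fun _ => rfl, fun h => absurd h (by decide), fun h => absurd h (by decide), by omega, by omega,
      by omega, by omega⟩ ?_ ?_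
  · intro j m p q hr h
    obtain ⟨-, -, -, -, hp1, hp2, hq1, hq2⟩ := hr
    replace h := of_decide_eq_true h
    rcases h with h | h | h | h | h | h | h | h | h | h | h | h | h | h | h | h | h | h
    · obtain ⟨rfl, rfl, h⟩ := h
      exact (WrapC.v0 D0 (by omega) (by omega) (by omega) (by omega) (by omega) (by omega) (by omega)).mpr (by omega)
    · obtain ⟨rfl, rfl, h⟩ := h
      exact (WrapC.v2 D0 (by omega) (by omega) (by omega) (by omega) (by omega) (by omega) (by omega)).mpr (by omega)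
    · obtain ⟨rfl, rfl, h⟩ := h
      exact (WrapC.v2 D0a (by omega) (by omega) (by omega) (by omega) (by omega) (by omega) (by omega)).mpr (by omega)
    · obtain ⟨rfl, rfl, h⟩ := h
      exact (WrapC.v0 H.c2 (by omega) (by omega) (by omega) (by omega) (by omega) (by omega) (by omega)).mpr (by omega)
    · obtain ⟨rfl, rfl, h⟩ := h
      exact (WrapC.v1 H.c2 (by omega) (by omega) (by omega) (by omega) (by omega) (by omega) (by omega) (by omega)).mpr (by omega)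
    · obtain ⟨rfl, rfl, h⟩ := h
      exact (WrapC.v2 H.c2 (by omega) (by omega) (by omega) (by omega) (by omega) (by omega) (by omega)).mpr (by omega)
    · obtain ⟨rfl, rfl, h⟩ := h
      exact (WrapC.v3 H.c2 (by omega) (by omega) (by omega) (by omega) (by omega) (by omega) (by omega) (by omega)).mpr (by omega)
    · obtain ⟨rfl, rfl, h⟩ := h
      exact (WrapC.v0 H.c4 (by omega) (by omega) (by omega) (by omega) (by omega) (by omega) (by omega)).mpr (by omega)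
    · obtain ⟨rfl, rfl, h⟩ := h
      exact (WrapC.v2 H.c4 (by omega) (by omega) (by omega) (by omega) (by omega) (by omega) (by omega)).mpr (by omega)
    · obtain ⟨rfl, rfl, h⟩ := h
      exact (WrapC.v2 H.c4a (by omega) (by omega) (by omega) (by omega) (by omega) (by omega) (by omega)).mpr (by omega)
    · obtain ⟨rfl, rfl, h⟩ := h
      exact (WrapC.v3 H.c4a (by omega) (by omega) (by omega) (by omega) (by omega) (by omega) (by omega) (by omega)).mpr (by omega)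
    · obtain ⟨rfl, rfl, h⟩ := h
      exact (WrapC.v0 H.c6 (by omega) (by omega) (by omega) (by omega) (by omega) (by omega) (by omega)).mpr (by omega)
    · obtain ⟨rfl, rfl, h⟩ := h
      exact (WrapC.v1 H.c6 (by omega) (by omega) (by omega) (by omega) (by omega) (by omega) (by omega) (by omega)).mpr (by omega)
    · obtain ⟨rfl, rfl, h⟩ := h
      exact (WrapC.v3 H.c6 (by omega) (by omega) (by omega) (by omega) (by omega) (by omega) (by omega) (by omega)).mpr (by omega)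
    · obtain ⟨rfl, rfl, h⟩ := h
      exact (NW.w3v H.c8 (by omega) (by omega) (by omega) (by omega) (by omega) (by omega) (by omega) (by omega)).mpr (by omega)
    · obtain ⟨rfl, rfl, rfl, rfl⟩ := h
      exact mv h0 (by omega) (by omega) (by omega) (by omega)
    · obtain ⟨rfl, rfl, rfl, rfl⟩ := h
      exact mv h1 (by omega) (by omega) (by omega) (by omega)
    · obtain ⟨rfl, rfl, rfl, rfl⟩ := h
      exact mv h2 (by omega) (by omega) (by omega) (by omega)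
  · intro j m p q hr h
    obtain ⟨-, -, -, -, hp1, hp2, hq1, hq2⟩ := hr
    replace h := of_decide_eq_true h
    rcases h with h | h | h | h | h | h | h | h | h | h | h | h | h | h | h | h | h | h | h | h | h | h | h | h | h | h | h | h | h | h | h | h | h | h | h | h | h | h | h | h
    · obtain ⟨rfl, rfl, h⟩ := h
      exact mt (WrapC.v0 D0 (by omega) (by omega) (by omega) (by omega) (by omega) (by omega) (by omega)).mp (by omega)
    · obtain ⟨rfl, rfl, h⟩ := h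
      exact mt (WrapC.v2 D0 (by omega) (by omega) (by omega) (by omega) (by omega) (by omega) (by omega)).mp (by omega)
    · obtain ⟨rfl, rfl, h⟩ := h
      exact mt (WrapC.v2 D0a (by omega) (by omega) (by omega) (by omega) (by omega) (by omega) (by omega)).mp (by omega)
    · obtain ⟨rfl, rfl, h⟩ := h
      exact mt (WrapC.v0 H.c2 (by omega) (by omega) (by omega) (by omega) (by omega) (by omega) (by omega)).mp (by omega)
    · obtain ⟨rfl, rfl, h⟩ := h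
      exact mt (WrapC.v1 H.c2 (by omega) (by omega) (by omega) (by omega) (by omega) (by omega) (by omega) (by omega)).mp (by omega)
    · obtain ⟨rfl, rfl, h⟩ := h
      exact mt (WrapC.v2 H.c2 (by omega) (by omega) (by omega) (by omega) (by omega) (by omega) (by omega)).mp (by omega)
    · obtain ⟨rfl, rfl, h⟩ := h
      exact mt (WrapC.v3 H.c2 (by omega) (by omega) (by omega) (by omega) (by omega) (by omega) (by omega) (by omega)).mp (by omega)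
    · obtain ⟨rfl, rfl, h⟩ := h
      exact mt (WrapC.v0 H.c4 (by omega) (by omega) (by omega) (by omega) (by omega) (by omega) (by omega)).mp (by omega)
    · obtain ⟨rfl, rfl, h⟩ := h
      exact mt (WrapC.v2 H.c4 (by omega) (by omega) (by omega) (by omega) (by omega) (by omega) (by omega)).mp (by omega)
    · obtain ⟨rfl, rfl, h⟩ := h
      exact mt (WrapC.v2 H.c4a (by omega) (by omega) (by omega) (by omega) (by omega) (by omega) (by omega)).mp (by omega)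
    · obtain ⟨rfl, rfl, h⟩ := h
      exact mt (WrapC.v3 H.c4a (by omega) (by omega) (by omega) (by omega) (by omega) (by omega) (by omega) (by omega)).mp (by omega)
    · obtain ⟨rfl, rfl, h⟩ := h
      exact mt (WrapC.v0 H.c6 (by omega) (by omega) (by omega) (by omega) (by omega) (by omega) (by omega)).mp (by omega)
    · obtain ⟨rfl, rfl, h⟩ := h
      exact mt (WrapC.v1 H.c6 (by omega) (by omega) (by omega) (by omega) (by omega) (by omega) (by omega) (by omega)).mp (by omega)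
    · obtain ⟨rfl, rfl, h⟩ := h
      exact mt (WrapC.v3 H.c6 (by omega) (by omega) (by omega) (by omega) (by omega) (by omega) (by omega) (by omega)).mp (by omega)
    · obtain ⟨rfl, rfl, h⟩ := h
      exact mt (NW.w3v H.c8 (by omega) (by omega) (by omega) (by omega) (by omega) (by omega) (by omega) (by omega)).mp (by omega)
    · obtain ⟨rfl, rfl, h⟩ := h
      exact H.lw _ _ _ _ (by omega) (by omega) (by omega) (by omega) (by omega) (by omega)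
    · obtain ⟨rfl, rfl, h⟩ := h
      exact H.lw _ _ _ _ (by omega) (by omega) (by omega) (by omega) (by omega) (by omega)
    · obtain ⟨rfl, rfl, h⟩ := h
      exact H.lw _ _ _ _ (by omega) (by omega) (by omega) (by omega) (by omega) (by omega)
    · obtain ⟨rfl, rfl, h⟩ := h
      exact H.lw _ _ _ _ (by omega) (by omega) (by omega) (by omega) (by omega) (by omega)
    · obtain ⟨rfl, rfl, h⟩ := h
      exact H.lw _ _ _ _ (by omega) (by omega) (by omega) (by omega) (by omega) (by omega)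
    · obtain ⟨rfl, rfl, h⟩ := h
      exact H.lw _ _ _ _ (by omega) (by omega) (by omega) (by omega) (by omega) (by omega)
    · obtain ⟨rfl, rfl, h⟩ := h
      exact H.lw _ _ _ _ (by omega) (by omega) (by omega) (by omega) (by omega) (by omega)
    · obtain ⟨rfl, rfl, h⟩ := h
      exact NHT.pmi hf H.T (j := 2) (by omega) (by omega) (by omega) (by omega) (by omega) (by omega)
    · obtain ⟨rfl, rfl, h⟩ := h
      exact NHT.pm hf H.T (j := 0) (by omega) (by omega) (by omega) (by omega) (by omega) (by omega)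
    · obtain ⟨rfl, rfl, h⟩ := h
      exact fun t => NHT.rm1 hf H.T (p := 1) (j := 2) (by omega) (by omega) (by omega) (by omega) (by omega) (by omega) (mv t rfl (by omega) rfl rfl)
    · obtain ⟨rfl, rfl, h⟩ := h
      exact fun t => NHT.rm1 hf H.T (p := 0) (j := 1) (by omega) (by omega) (by omega) (by omega) (by omega) (by omega) (mv t rfl (by omega) rfl rfl)
    · obtain ⟨rfl, rfl, h⟩ := h
      exact NHT.p0 hf H.T (j := 1) (by omega) (by omega) (by omega) (by omega) (by omega) (by omega)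
    · obtain ⟨rfl, rfl, h⟩ := h
      exact NHT.p0 hf H.T (j := 2) (by omega) (by omega) (by omega) (by omega) (by omega) (by omega)
    · obtain ⟨rfl, rfl, h⟩ := h
      exact NHT.p0 hf H.T (j := 1) (by omega) (by omega) (by omega) (by omega) (by omega) (by omega)
    · obtain ⟨rfl, rfl, h⟩ := h
      exact NHT.p0 hf H.T (j := 0) (by omega) (by omega) (by omega) (by omega) (by omega) (by omega)
    · obtain ⟨rfl, rfl, h⟩ := h
      exact fun t => NHT.r1 hf H.T (p := 0) (j := 3) (by omega) (by omega) (by omega) (by omega) (by omega) (by omega) (mv t rfl (by omega) rfl rfl)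
    · obtain ⟨rfl, rfl, h⟩ := h
      exact NHT.p2 hf H.T (j := 3) (by omega) (by omega) (by omega) (by omega) (by omega) (by omega)
    · obtain ⟨rfl, rfl, h⟩ := h
      exact fun t => NHT.r1 hf H.T (p := 0) (j := 2) (by omega) (by omega) (by omega) (by omega) (by omega) (by omega) (mv t rfl (by omega) rfl rfl)
    · obtain ⟨rfl, rfl, h⟩ := h
      exact fun t => NHT.r1 hf H.T (p := 1) (j := 2) (by omega) (by omega) (by omega) (by omega) (by omega) (by omega) (mv t rfl (by omega) rfl rfl)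
    · obtain ⟨rfl, rfl, h⟩ := h
      exact fun t => NHT.r1 hf H.T (p := 0) (j := 1) (by omega) (by omega) (by omega) (by omega) (by omega) (by omega) (mv t rfl (by omega) rfl rfl)
    · obtain ⟨rfl, rfl, h⟩ := h
      exact NHT.p2 hf H.T (j := 1) (by omega) (by omega) (by omega) (by omega) (by omega) (by omega)
    · obtain ⟨rfl, rfl, h⟩ := h
      exact NHT.p2 hf H.T (j := 3) (by omega) (by omega) (by omega) (by omega) (by omega) (by omega)
    · obtain ⟨rfl, rfl, h⟩ := h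
      exact NHT.p2 hf H.T (j := 2) (by omega) (by omega) (by omega) (by omega) (by omega) (by omega)
    · obtain ⟨rfl, rfl, h⟩ := h
      exact NHT.p2 hf H.T (j := 1) (by omega) (by omega) (by omega) (by omega) (by omega) (by omega)
    · obtain ⟨rfl, rfl, rfl, rfl⟩ := h
      exact fun t => z0 (mv t (by omega) (by omega) (by omega) (by omega))

theorem d2_01_chk : check 12 9 27 27 0 1 1 1 2
    (fun j n p q => decide ((j = 2 ∧ n = 3 ∧ q ≤ p ∧ 14 ≤ p ∧ p ≤ q + 14 ∧ ((p + q) % 2 = 1 ∧ p % 2 = 0))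
      ∨ (j = 2 ∧ n = 5 ∧ q ≤ p ∧ 15 ≤ q ∧ p ≤ q + 14 ∧ ((p + q) % 2 = 1 ∧ p % 2 = 1))
      ∨ (j = 2 ∧ n = 1 ∧ q ≤ p ∧ p ≤ q + 14 ∧ ((p + q) % 2 = 1 ∧ p % 2 = 1))
      ∨ (j = 4 ∧ n = 1 ∧ q ≤ p ∧ 8 ≤ p ∧ p ≤ q + 14 ∧ ((p + q) % 2 = 1 ∧ p % 2 = 0))
      ∨ (j = 4 ∧ n = 2 ∧ q ≤ p ∧ 9 ≤ p ∧ p ≤ q + 14 ∧ (p = q ∧ p % 2 = 1))
      ∨ (j = 4 ∧ n = 3 ∧ q ≤ p ∧ 9 ≤ q ∧ p ≤ q + 14 ∧ ((p + q) % 2 = 1 ∧ p % 2 = 1))
      ∨ (j = 4 ∧ n = 4 ∧ q ≤ p ∧ 11 ≤ q ∧ p ≤ q + 14 ∧ (p = q ∧ p % 2 = 0))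
      ∨ (j = 6 ∧ n = 3 ∧ q ≤ p ∧ 18 ≤ p ∧ p ≤ q + 14 ∧ ((p + q) % 2 = 1 ∧ p % 2 = 0))
      ∨ (j = 6 ∧ n = 5 ∧ q ≤ p ∧ 19 ≤ q ∧ p ≤ q + 14 ∧ ((p + q) % 2 = 1 ∧ p % 2 = 1))
      ∨ (j = 6 ∧ n = 1 ∧ q ≤ p ∧ 3 ≤ q ∧ p ≤ q + 14 ∧ ((p + q) % 2 = 1 ∧ p % 2 = 1))
      ∨ (j = 6 ∧ n = 2 ∧ q ≤ p ∧ 5 ≤ q ∧ p ≤ q + 14 ∧ (p = q ∧ p % 2 = 0))
      ∨ (j = 8 ∧ n = 1 ∧ q ≤ p ∧ 6 ≤ p ∧ p ≤ q + 14 ∧ ((p + q) % 2 = 1 ∧ p % 2 = 0))
      ∨ (j = 8 ∧ n = 2 ∧ q ≤ p ∧ 7 ≤ p ∧ p ≤ q + 14 ∧ (p = q ∧ p % 2 = 1))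
      ∨ (j = 8 ∧ n = 3 ∧ q ≤ p ∧ 7 ≤ q ∧ p ≤ q + 14 ∧ ((p + q) % 2 = 1 ∧ p % 2 = 1))
      ∨ (j = 8 ∧ n = 4 ∧ q ≤ p ∧ 9 ≤ q ∧ p ≤ q + 14 ∧ (p = q ∧ p % 2 = 0))
      ∨ (j = 10 ∧ n = 3 ∧ q ≤ p ∧ 10 ≤ p ∧ p ≤ q + 13 ∧ ((p + q) % 2 = 1 ∧ p % 2 = 0))
      ∨ (j = 10 ∧ n = 6 ∧ q ≤ p ∧ 13 ≤ q ∧ p ≤ q + 14 ∧ (p = q ∧ p % 2 = 0))
      ∨ (j = 10 ∧ n = 1 ∧ q ≤ p ∧ p ≤ q + 14 ∧ ((p + q) % 2 = 1 ∧ p % 2 = 1))
      ∨ (j = 10 ∧ n = 2 ∧ q ≤ p ∧ p ≤ q + 14 ∧ (p = q ∧ p % 2 = 0))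
      ∨ (j = 4 ∧ n = 5 ∧ p = 16 ∧ q = 11)
      ∨ (j = 6 ∧ n = 3 ∧ p = 12 ∧ q = 7)
      ∨ (j = 8 ∧ n = 5 ∧ p = 20 ∧ q = 15)))
    (fun j n p q => decide ((j = 2 ∧ n = 3 ∧ q ≤ p ∧ 14 ≤ p ∧ p ≤ q + 14 ∧ ¬ ((p + q) % 2 = 1 ∧ p % 2 = 0))
      ∨ (j = 2 ∧ n = 5 ∧ q ≤ p ∧ 15 ≤ q ∧ p ≤ q + 14 ∧ ¬ ((p + q) % 2 = 1 ∧ p % 2 = 1))
      ∨ (j = 2 ∧ n = 1 ∧ q ≤ p ∧ p ≤ q + 14 ∧ ¬ ((p + q) % 2 = 1 ∧ p % 2 = 1))
      ∨ (j = 4 ∧ n = 1 ∧ q ≤ p ∧ 8 ≤ p ∧ p ≤ q + 14 ∧ ¬ ((p + q) % 2 = 1 ∧ p % 2 = 0))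
      ∨ (j = 4 ∧ n = 2 ∧ q ≤ p ∧ 9 ≤ p ∧ p ≤ q + 14 ∧ ¬ (p = q ∧ p % 2 = 1))
      ∨ (j = 4 ∧ n = 3 ∧ q ≤ p ∧ 9 ≤ q ∧ p ≤ q + 14 ∧ ¬ ((p + q) % 2 = 1 ∧ p % 2 = 1))
      ∨ (j = 4 ∧ n = 4 ∧ q ≤ p ∧ 11 ≤ q ∧ p ≤ q + 14 ∧ ¬ (p = q ∧ p % 2 = 0))
      ∨ (j = 6 ∧ n = 3 ∧ q ≤ p ∧ 18 ≤ p ∧ p ≤ q + 14 ∧ ¬ ((p + q) % 2 = 1 ∧ p % 2 = 0))
      ∨ (j = 6 ∧ n = 5 ∧ q ≤ p ∧ 19 ≤ q ∧ p ≤ q + 14 ∧ ¬ ((p + q) % 2 = 1 ∧ p % 2 = 1))
      ∨ (j = 6 ∧ n = 1 ∧ q ≤ p ∧ 3 ≤ q ∧ p ≤ q + 14 ∧ ¬ ((p + q) % 2 = 1 ∧ p % 2 = 1))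
      ∨ (j = 6 ∧ n = 2 ∧ q ≤ p ∧ 5 ≤ q ∧ p ≤ q + 14 ∧ ¬ (p = q ∧ p % 2 = 0))
      ∨ (j = 8 ∧ n = 1 ∧ q ≤ p ∧ 6 ≤ p ∧ p ≤ q + 14 ∧ ¬ ((p + q) % 2 = 1 ∧ p % 2 = 0))
      ∨ (j = 8 ∧ n = 2 ∧ q ≤ p ∧ 7 ≤ p ∧ p ≤ q + 14 ∧ ¬ (p = q ∧ p % 2 = 1))
      ∨ (j = 8 ∧ n = 3 ∧ q ≤ p ∧ 7 ≤ q ∧ p ≤ q + 14 ∧ ¬ ((p + q) % 2 = 1 ∧ p % 2 = 1))
      ∨ (j = 8 ∧ n = 4 ∧ q ≤ p ∧ 9 ≤ q ∧ p ≤ q + 14 ∧ ¬ (p = q ∧ p % 2 = 0))
      ∨ (j = 10 ∧ n = 3 ∧ q ≤ p ∧ 10 ≤ p ∧ p ≤ q + 13 ∧ ¬ ((p + q) % 2 = 1 ∧ p % 2 = 0))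
      ∨ (j = 10 ∧ n = 6 ∧ q ≤ p ∧ 13 ≤ q ∧ p ≤ q + 14 ∧ ¬ (p = q ∧ p % 2 = 0))
      ∨ (j = 10 ∧ n = 1 ∧ q ≤ p ∧ p ≤ q + 14 ∧ ¬ ((p + q) % 2 = 1 ∧ p % 2 = 1))
      ∨ (j = 10 ∧ n = 2 ∧ q ≤ p ∧ p ≤ q + 14 ∧ ¬ (p = q ∧ p % 2 = 0))
      ∨ (j = 1 ∧ n = 1 ∧ q ≤ p)
      ∨ (j = 1 ∧ n = 2 ∧ q ≤ p)
      ∨ (j = 1 ∧ n = 3 ∧ q ≤ p)
      ∨ (j = 1 ∧ n = 4 ∧ q ≤ p)
      ∨ (j = 1 ∧ n = 5 ∧ q ≤ p)
      ∨ (j = 1 ∧ n = 6 ∧ q ≤ p)
      ∨ (j = 1 ∧ n = 7 ∧ q ≤ p)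
      ∨ (j = 5 ∧ n = 3 ∧ 9 ≤ p ∧ q + 3 ≤ p ∧ p ≤ q + 12)
      ∨ (j = 7 ∧ n = 3 ∧ 7 ≤ q ∧ q + 1 ≤ p ∧ p ≤ q + 14)
      ∨ (j = 9 ∧ n = 3 ∧ 9 ≤ p ∧ q + 1 ≤ p ∧ p ≤ q + 14)
      ∨ (j = 5 ∧ n = 4 ∧ 8 ≤ q ∧ q + 3 ≤ p ∧ p ≤ q + 12)
      ∨ (j = 6 ∧ n = 4 ∧ 10 ≤ p ∧ q + 3 ≤ p ∧ p ≤ q + 12)
      ∨ (j = 5 ∧ n = 5 ∧ 11 ≤ q ∧ q + 3 ≤ p ∧ p ≤ q + 12)
      ∨ (j = 7 ∧ n = 5 ∧ 11 ≤ q ∧ q + 2 ≤ p ∧ p ≤ q + 13)
      ∨ (j = 9 ∧ n = 5 ∧ 11 ≤ q ∧ q + 1 ≤ p ∧ p ≤ q + 14)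
      ∨ (j = 4 ∧ n = 6 ∧ 12 ≤ q ∧ q + 4 ≤ p ∧ p ≤ q + 11)
      ∨ (j = 5 ∧ n = 6 ∧ 17 ≤ q ∧ q + 4 ≤ p ∧ p ≤ q + 11)
      ∨ (j = 6 ∧ n = 6 ∧ 12 ≤ q ∧ q + 3 ≤ p ∧ p ≤ q + 12)
      ∨ (j = 7 ∧ n = 6 ∧ 12 ≤ q ∧ q + 3 ≤ p ∧ p ≤ q + 12)
      ∨ (j = 8 ∧ n = 6 ∧ 12 ≤ q ∧ q + 2 ≤ p ∧ p ≤ q + 13)
      ∨ (j = 9 ∧ n = 6 ∧ 17 ≤ q ∧ q + 2 ≤ p ∧ p ≤ q + 13)
      ∨ (j = 5 ∧ n = 7 ∧ 17 ≤ q ∧ q + 4 ≤ p ∧ p ≤ q + 11)
      ∨ (j = 7 ∧ n = 7 ∧ 17 ≤ q ∧ q + 3 ≤ p ∧ p ≤ q + 12)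
      ∨ (j = 9 ∧ n = 7 ∧ 17 ≤ q ∧ q + 2 ≤ p ∧ p ≤ q + 13)
      ∨ (j = 11 ∧ n = 7 ∧ 17 ≤ q ∧ q + 1 ≤ p ∧ p ≤ q + 14)
      ∨ (j = 4 ∧ n = 7 ∧ p = 23 ∧ q = 18)))
    506
    0x3e36033e36804b155a3b5d803b6b123e36033e36804b155a3b6b003b6b043cd7003cd7013cd68e64de0349c2804b2f223cd6803cd6843e5e0e4b4a033e5e003e5e044b2f0e61f70356930064de7a4b2f004b2f044b210e4b13834b21004b21043cbb003cbb013b33003b33012184832e55002e55043cba8e219e832e6f003b404a3cba803cba843e280e219e832e6f003b404a3cad003cbb1a3e35003e28003e280e3e28043cd88e3b6c033cd8803cd8842e548e2184032e54802e54843cca0e3b5d833cca003cca043cf20e3b78033cf2003cf204230c032fdc802fdc8464c40e7e730364c40064c4044b2e8e581a05580c0064eb4a64dd4a4b2e804b2e8461f7036363806363843b930349d00049d00464c38e9813837e64807e650a7195007e735264c38064c3843ce48e3b78033ce4803ce48431648e24940331648031648449b48e3b778349b48049b4849820837e71807e7f1264d00064d00449c20e3b778349c20049c2043cc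a8e4b16033cca803cca847035007d05c26ead006eba007b7dc2885c007b8ac26e9200886900539f003b1800232800204100202500885c018575006eb9006eb90e6bc7008869016bc600539f015217003b3f003b3f0e38840021bd0021bc0021a10023280121a0001ef2001ed7001ef1001ed6001ed5002041011eb9001e9e002025011e9d0098208e98200e89e40089e38e89e30e89c80085820085820e7e8d0e7e8c8e7e7f0e7e7e8e7e710e7d208e7d200e7d128e7d120e7d048e7b980e7b8a8e7b8a0e70500e704f8e70420e70418e70340e7033326eb8006d4e006d4d8e6d4d0e6d32006bef006bee006bee0e6bd3006bd30e552700524000523f0052240052240e50b8004b4a0e4b498e4b3c0e49dd8e49dd0e49cf8e3e790e3d0d0e3d0c8e3cff0e481d523b3e003a268e3a260e3a190e3a188e3a0c003a0b8e3a0b0e3a0a8e39fd0e39f00039d40039d38e39d30e39b80038910038910e37250037090021e40021e40e21c90021c90e21c80021c80e21bb0e21ad0021ad0e219f0e1f19001f190e1f18001f180e1efe001efe0e1efd001efd0e1ee2001ee20e1ed40e1ec6001ec60e1ec5001ec50e1eb80e1eaa001eaa0e16570e163b0e14ea8e14ce8e14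ce0e14cd8e14c08e14c00e14b28e13700e13618e13610e13540e13538e13460e12038e11e78e9820879820079812878b428789e40f89e38789e30789d60789d58789c80f886887884e8785820f7e8d077e8c877e7f077e7e877e71077d20877d20077d12877d12077d04877b98877b98077b8a877b8a077b7c8771a28771a087718687705007704f877042077041877034077033077032877025877025076ec8876ec6876eb80f6eac876d4e0f6d4d876d4d076d40076d3f876d320f6bef0f6bee0f6bd30f64eb0764ea8764dd8764dd0764dc8764cf8764cf07637e87637e0763710763708763700763630763628763620763550763548761f70761f68761f60761f58761e90761e88761e807581a8757ff8757fe8756ae0756ad8756a08756a007569f8756928756920755270f55268755190753b98752400f523f0f52328752320752248752240f50b80f4b4a074b49874b3c0749dd8749dd0749cf87481d07481c87480f87480f0746b08746b00746a30746a2873e79873e79073e5e873e45873e44873e42873e28873d0d073d0c873cff073b85873b6b873b6a873b69873b4f873b4e873b4c873b3e0f3b32873a26873a26073a19073a18873a0c0f3a0b873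a0b073a0a8739fe0739fd8739fd0739f00f39e00739df8739d40f39d38739d30739d28739d20739c60739c58739b80f38910f37250f37090f24868721e40f21c90f21c80f21bb8721bb0721ad8721ad0f219f87219f072191872190872176871f190f1f180f1efe0f1efd0f1ee20f1ed4871ed4071ec6871ec60f1ec50f1eb8871eb8071eaa871eaa0f17c38717c30717b60717b587165787165707165687164987164907163b87163b07162d8714eb0714ea8714dd0714cf0714ce8714ce0714cd8714c10714c08714c00714b30714b28713708713700713628713618713610713548713540713538713468713460712040712038711f60711e80711e78711da07 = true := by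
  decide +kernel

theorem d2_01 (hf : Rule f) {k c n : ℕ} (H : PL f k c n (n - 4))
    (D0 : Cyc f (6 * k) (c - 2) (2 * n))
    (D0a : Cyc f (6 * k) (c - 6) (2 * n - 4 - 2 * k))
    (h0 : f (6 * k + 2) c (2 * n + 3) (2 * n - 2))
    (h1 : f (6 * k + 4) (c - 2) (2 * n - 1) (2 * n - 6))
    (h2 : f (6 * k + 6) c (2 * n + 7) (2 * n + 2))
    (z0 : ¬ f (6 * k + 2) (c + 2) (2 * n + 10) (2 * n + 5)) : False := by
  have hk := H.T.hk
  have hc := H.T.hc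
  have h4' := H.T.h4
  have hb := H.T.hb
  have hN := H.T.hN2
  obtain ⟨a0, ha0⟩ : ∃ z, z + 2 = 6 * k := ⟨6 * k - 2, by omega⟩
  obtain ⟨b0, hb0⟩ : ∃ z, z + 5 = c := ⟨c - 5, by omega⟩
  obtain ⟨x0, hx0⟩ : ∃ z, z + 13 = 2 * n := ⟨2 * n - 13, by omega⟩
  refine check_sound hf (a0 := a0) (b0 := b0) (x0 := x0) (y0 := x0) d2_01_chk
    ⟨fun _ => rfl, fun h => absurd h (by decide), fun h => absurd h (by decide), by omega, by omega,
      by omega, by omega⟩ ?_ ?_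
  · intro j m p q hr h
    obtain ⟨-, -, -, -, hp1, hp2, hq1, hq2⟩ := hr
    replace h := of_decide_eq_true h
    rcases h with h | h | h | h | h | h | h | h | h | h | h | h | h | h | h | h | h | h | h | h | h | h
    · obtain ⟨rfl, rfl, h⟩ := h
      exact (WrapC.v0 D0 (by omega) (by omega) (by omega) (by omega) (by omega) (by omega) (by omega)).mpr (by omega)
    · obtain ⟨rfl, rfl, h⟩ := h
      exact (WrapC.v2 D0 (by omega) (by omega) (by omega) (by omega) (by omega) (by omega) (by omega)).mpr (by omega)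
    · obtain ⟨rfl, rfl, h⟩ := h
      exact (WrapC.v2 D0a (by omega) (by omega) (by omega) (by omega) (by omega) (by omega) (by omega)).mpr (by omega)
    · obtain ⟨rfl, rfl, h⟩ := h
      exact (WrapC.v0 H.c2 (by omega) (by omega) (by omega) (by omega) (by omega) (by omega) (by omega)).mpr (by omega)
    · obtain ⟨rfl, rfl, h⟩ := h
      exact (WrapC.v1 H.c2 (by omega) (by omega) (by omega) (by omega) (by omega) (by omega) (by omega) (by omega)).mpr (by omega)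
    · obtain ⟨rfl, rfl, h⟩ := h
      exact (WrapC.v2 H.c2 (by omega) (by omega) (by omega) (by omega) (by omega) (by omega) (by omega)).mpr (by omega)
    · obtain ⟨rfl, rfl, h⟩ := h
      exact (WrapC.v3 H.c2 (by omega) (by omega) (by omega) (by omega) (by omega) (by omega) (by omega) (by omega)).mpr (by omega)
    · obtain ⟨rfl, rfl, h⟩ := h
      exact (WrapC.v0 H.c4 (by omega) (by omega) (by omega) (by omega) (by omega) (by omega) (by omega)).mpr (by omega)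
    · obtain ⟨rfl, rfl, h⟩ := h
      exact (WrapC.v2 H.c4 (by omega) (by omega) (by omega) (by omega) (by omega) (by omega) (by omega)).mpr (by omega)
    · obtain ⟨rfl, rfl, h⟩ := h
      exact (WrapC.v2 H.c4a (by omega) (by omega) (by omega) (by omega) (by omega) (by omega) (by omega)).mpr (by omega)
    · obtain ⟨rfl, rfl, h⟩ := h
      exact (WrapC.v3 H.c4a (by omega) (by omega) (by omega) (by omega) (by omega) (by omega) (by omega) (by omega)).mpr (by omega)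
    · obtain ⟨rfl, rfl, h⟩ := h
      exact (WrapC.v0 H.c6 (by omega) (by omega) (by omega) (by omega) (by omega) (by omega) (by omega)).mpr (by omega)
    · obtain ⟨rfl, rfl, h⟩ := h
      exact (WrapC.v1 H.c6 (by omega) (by omega) (by omega) (by omega) (by omega) (by omega) (by omega) (by omega)).mpr (by omega)
    · obtain ⟨rfl, rfl, h⟩ := h
      exact (WrapC.v2 H.c6 (by omega) (by omega) (by omega) (by omega) (by omega) (by omega) (by omega)).mpr (by omega)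
    · obtain ⟨rfl, rfl, h⟩ := h
      exact (WrapC.v3 H.c6 (by omega) (by omega) (by omega) (by omega) (by omega) (by omega) (by omega) (by omega)).mpr (by omega)
    · obtain ⟨rfl, rfl, h⟩ := h
      exact (NW.w0v H.c8 (by omega) (by omega) (by omega) (by omega) (by omega) (by omega) (by omega)).mpr (by omega)
    · obtain ⟨rfl, rfl, h⟩ := h
      exact (NW.w3v H.c8 (by omega) (by omega) (by omega) (by omega) (by omega) (by omega) (by omega) (by omega)).mpr (by omega)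
    · obtain ⟨rfl, rfl, h⟩ := h
      exact (NW.w2v H.c8a (by omega) (by omega) (by omega) (by omega) (by omega) (by omega) (by omega)).mpr (by omega)
    · obtain ⟨rfl, rfl, h⟩ := h
      exact (NW.w3v H.c8a (by omega) (by omega) (by omega) (by omega) (by omega) (by omega) (by omega) (by omega)).mpr (by omega)
    · obtain ⟨rfl, rfl, rfl, rfl⟩ := h
      exact mv h0 (by omega) (by omega) (by omega) (by omega)
    · obtain ⟨rfl, rfl, rfl, rfl⟩ := h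
      exact mv h1 (by omega) (by omega) (by omega) (by omega)
    · obtain ⟨rfl, rfl, rfl, rfl⟩ := h
      exact mv h2 (by omega) (by omega) (by omega) (by omega)
  · intro j m p q hr h
    obtain ⟨-, -, -, -, hp1, hp2, hq1, hq2⟩ := hr
    replace h := of_decide_eq_true h
    rcases h with h | h | h | h | h | h | h | h | h | h | h | h | h | h | h | h | h | h | h | h | h | h | h | h | h | h | h | h | h | h | h | h | h | h | h | h | h | h | h | h | h | h | h | h | h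
    · obtain ⟨rfl, rfl, h⟩ := h
      exact mt (WrapC.v0 D0 (by omega) (by omega) (by omega) (by omega) (by omega) (by omega) (by omega)).mp (by omega)
    · obtain ⟨rfl, rfl, h⟩ := h
      exact mt (WrapC.v2 D0 (by omega) (by omega) (by omega) (by omega) (by omega) (by omega) (by omega)).mp (by omega)
    · obtain ⟨rfl, rfl, h⟩ := h
      exact mt (WrapC.v2 D0a (by omega) (by omega) (by omega) (by omega) (by omega) (by omega) (by omega)).mp (by omega)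
    · obtain ⟨rfl, rfl, h⟩ := h
      exact mt (WrapC.v0 H.c2 (by omega) (by omega) (by omega) (by omega) (by omega) (by omega) (by omega)).mp (by omega)
    · obtain ⟨rfl, rfl, h⟩ := h
      exact mt (WrapC.v1 H.c2 (by omega) (by omega) (by omega) (by omega) (by omega) (by omega) (by omega) (by omega)).mp (by omega)
    · obtain ⟨rfl, rfl, h⟩ := h
      exact mt (WrapC.v2 H.c2 (by omega) (by omega) (by omega) (by omega) (by omega) (by omega) (by omega)).mp (by omega)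
    · obtain ⟨rfl, rfl, h⟩ := h
      exact mt (WrapC.v3 H.c2 (by omega) (by omega) (by omega) (by omega) (by omega) (by omega) (by omega) (by omega)).mp (by omega)
    · obtain ⟨rfl, rfl, h⟩ := h
      exact mt (WrapC.v0 H.c4 (by omega) (by omega) (by omega) (by omega) (by omega) (by omega) (by omega)).mp (by omega)
    · obtain ⟨rfl, rfl, h⟩ := h
      exact mt (WrapC.v2 H.c4 (by omega) (by omega) (by omega) (by omega) (by omega) (by omega) (by omega)).mp (by omega)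
    · obtain ⟨rfl, rfl, h⟩ := h
      exact mt (WrapC.v2 H.c4a (by omega) (by omega) (by omega) (by omega) (by omega) (by omega) (by omega)).mp (by omega)
    · obtain ⟨rfl, rfl, h⟩ := h
      exact mt (WrapC.v3 H.c4a (by omega) (by omega) (by omega) (by omega) (by omega) (by omega) (by omega) (by omega)).mp (by omega)
    · obtain ⟨rfl, rfl, h⟩ := h
      exact mt (WrapC.v0 H.c6 (by omega) (by omega) (by omega) (by omega) (by omega) (by omega) (by omega)).mp (by omega)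
    · obtain ⟨rfl, rfl, h⟩ := h
      exact mt (WrapC.v1 H.c6 (by omega) (by omega) (by omega) (by omega) (by omega) (by omega) (by omega) (by omega)).mp (by omega)
    · obtain ⟨rfl, rfl, h⟩ := h
      exact mt (WrapC.v2 H.c6 (by omega) (by omega) (by omega) (by omega) (by omega) (by omega) (by omega)).mp (by omega)
    · obtain ⟨rfl, rfl, h⟩ := h
      exact mt (WrapC.v3 H.c6 (by omega) (by omega) (by omega) (by omega) (by omega) (by omega) (by omega) (by omega)).mp (by omega)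
    · obtain ⟨rfl, rfl, h⟩ := h
      exact mt (NW.w0v H.c8 (by omega) (by omega) (by omega) (by omega) (by omega) (by omega) (by omega)).mp (by omega)
    · obtain ⟨rfl, rfl, h⟩ := h
      exact mt (NW.w3v H.c8 (by omega) (by omega) (by omega) (by omega) (by omega) (by omega) (by omega) (by omega)).mp (by omega)
    · obtain ⟨rfl, rfl, h⟩ := h
      exact mt (NW.w2v H.c8a (by omega) (by omega) (by omega) (by omega) (by omega) (by omega) (by omega)).mp (by omega)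
    · obtain ⟨rfl, rfl, h⟩ := h
      exact mt (NW.w3v H.c8a (by omega) (by omega) (by omega) (by omega) (by omega) (by omega) (by omega) (by omega)).mp (by omega)
    · obtain ⟨rfl, rfl, h⟩ := h
      exact H.lw _ _ _ _ (by omega) (by omega) (by omega) (by omega) (by omega) (by omega)
    · obtain ⟨rfl, rfl, h⟩ := h
      exact H.lw _ _ _ _ (by omega) (by omega) (by omega) (by omega) (by omega) (by omega)
    · obtain ⟨rfl, rfl, h⟩ := h
      exact H.lw _ _ _ _ (by omega) (by omega) (by omega) (by omega) (by omega) (by omega)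
    · obtain ⟨rfl, rfl, h⟩ := h
      exact H.lw _ _ _ _ (by omega) (by omega) (by omega) (by omega) (by omega) (by omega)
    · obtain ⟨rfl, rfl, h⟩ := h
      exact H.lw _ _ _ _ (by omega) (by omega) (by omega) (by omega) (by omega) (by omega)
    · obtain ⟨rfl, rfl, h⟩ := h
      exact H.lw _ _ _ _ (by omega) (by omega) (by omega) (by omega) (by omega) (by omega)
    · obtain ⟨rfl, rfl, h⟩ := h
      exact H.lw _ _ _ _ (by omega) (by omega) (by omega) (by omega) (by omega) (by omega)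
    · obtain ⟨rfl, rfl, h⟩ := h
      exact NHT.pmi hf H.T (j := 2) (by omega) (by omega) (by omega) (by omega) (by omega) (by omega)
    · obtain ⟨rfl, rfl, h⟩ := h
      exact NHT.pm hf H.T (j := 0) (by omega) (by omega) (by omega) (by omega) (by omega) (by omega)
    · obtain ⟨rfl, rfl, h⟩ := h
      exact NHT.pmi hf H.T (j := 0) (by omega) (by omega) (by omega) (by omega) (by omega) (by omega)
    · obtain ⟨rfl, rfl, h⟩ := h
      exact fun t => NHT.rm1 hf H.T (p := 1) (j := 2) (by omega) (by omega) (by omega) (by omega) (by omega) (by omega) (mv t rfl (by omega) rfl rfl)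
    · obtain ⟨rfl, rfl, h⟩ := h
      exact fun t => NHT.rm1i hf H.T (p := 0) (j := 2) (by omega) (by omega) (by omega) (by omega) (by omega) (by omega) (mv t rfl (by omega) rfl rfl)
    · obtain ⟨rfl, rfl, h⟩ := h
      exact NHT.p0 hf H.T (j := 2) (by omega) (by omega) (by omega) (by omega) (by omega) (by omega)
    · obtain ⟨rfl, rfl, h⟩ := h
      exact NHT.p0 hf H.T (j := 1) (by omega) (by omega) (by omega) (by omega) (by omega) (by omega)
    · obtain ⟨rfl, rfl, h⟩ := h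
      exact NHT.p0 hf H.T (j := 0) (by omega) (by omega) (by omega) (by omega) (by omega) (by omega)
    · obtain ⟨rfl, rfl, h⟩ := h
      exact fun t => NHT.r1 hf H.T (p := 0) (j := 3) (by omega) (by omega) (by omega) (by omega) (by omega) (by omega) (mv t rfl (by omega) rfl rfl)
    · obtain ⟨rfl, rfl, h⟩ := h
      exact NHT.p2 hf H.T (j := 3) (by omega) (by omega) (by omega) (by omega) (by omega) (by omega)
    · obtain ⟨rfl, rfl, h⟩ := h
      exact fun t => NHT.r1 hf H.T (p := 0) (j := 2) (by omega) (by omega) (by omega) (by omega) (by omega) (by omega) (mv t rfl (by omega) rfl rfl)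
    · obtain ⟨rfl, rfl, h⟩ := h
      exact fun t => NHT.r1 hf H.T (p := 1) (j := 2) (by omega) (by omega) (by omega) (by omega) (by omega) (by omega) (mv t rfl (by omega) rfl rfl)
    · obtain ⟨rfl, rfl, h⟩ := h
      exact fun t => NHT.r1 hf H.T (p := 0) (j := 1) (by omega) (by omega) (by omega) (by omega) (by omega) (by omega) (mv t rfl (by omega) rfl rfl)
    · obtain ⟨rfl, rfl, h⟩ := h
      exact NHT.p2 hf H.T (j := 1) (by omega) (by omega) (by omega) (by omega) (by omega) (by omega)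
    · obtain ⟨rfl, rfl, h⟩ := h
      exact NHT.p2 hf H.T (j := 3) (by omega) (by omega) (by omega) (by omega) (by omega) (by omega)
    · obtain ⟨rfl, rfl, h⟩ := h
      exact NHT.p2 hf H.T (j := 2) (by omega) (by omega) (by omega) (by omega) (by omega) (by omega)
    · obtain ⟨rfl, rfl, h⟩ := h
      exact NHT.p2 hf H.T (j := 1) (by omega) (by omega) (by omega) (by omega) (by omega) (by omega)
    · obtain ⟨rfl, rfl, h⟩ := h
      exact NHT.p2 hf H.T (j := 0) (by omega) (by omega) (by omega) (by omega) (by omega) (by omega)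
    · obtain ⟨rfl, rfl, rfl, rfl⟩ := h
      exact fun t => z0 (mv t (by omega) (by omega) (by omega) (by omega))

theorem d2_10_chk : check 12 9 27 27 0 1 1 1 2
    (fun j n p q => decide ((j = 2 ∧ n = 3 ∧ q ≤ p ∧ 14 ≤ p ∧ p ≤ q + 14 ∧ ((p + q) % 2 = 1 ∧ p % 2 = 0))
      ∨ (j = 2 ∧ n = 5 ∧ q ≤ p ∧ 15 ≤ q ∧ p ≤ q + 14 ∧ ((p + q) % 2 = 1 ∧ p % 2 = 1))
      ∨ (j = 2 ∧ n = 1 ∧ q ≤ p ∧ p ≤ q + 14 ∧ ((p + q) % 2 = 1 ∧ p % 2 = 1))
      ∨ (j = 4 ∧ n = 1 ∧ q ≤ p ∧ 8 ≤ p ∧ p ≤ q + 14 ∧ ((p + q) % 2 = 1 ∧ p % 2 = 0))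
      ∨ (j = 4 ∧ n = 2 ∧ q ≤ p ∧ 9 ≤ p ∧ p ≤ q + 14 ∧ (p = q ∧ p % 2 = 1))
      ∨ (j = 4 ∧ n = 3 ∧ q ≤ p ∧ 9 ≤ q ∧ p ≤ q + 14 ∧ ((p + q) % 2 = 1 ∧ p % 2 = 1))
      ∨ (j = 4 ∧ n = 4 ∧ q ≤ p ∧ 11 ≤ q ∧ p ≤ q + 14 ∧ (p = q ∧ p % 2 = 0))
      ∨ (j = 6 ∧ n = 3 ∧ q ≤ p ∧ 18 ≤ p ∧ p ≤ q + 14 ∧ ((p + q) % 2 = 1 ∧ p % 2 = 0))
      ∨ (j = 6 ∧ n = 5 ∧ q ≤ p ∧ 19 ≤ q ∧ p ≤ q + 14 ∧ ((p + q) % 2 = 1 ∧ p % 2 = 1))
      ∨ (j = 6 ∧ n = 1 ∧ q ≤ p ∧ 3 ≤ q ∧ p ≤ q + 14 ∧ ((p + q) % 2 = 1 ∧ p % 2 = 1))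
      ∨ (j = 6 ∧ n = 2 ∧ q ≤ p ∧ 5 ≤ q ∧ p ≤ q + 14 ∧ (p = q ∧ p % 2 = 0))
      ∨ (j = 8 ∧ n = 1 ∧ q ≤ p ∧ 6 ≤ p ∧ p ≤ q + 14 ∧ ((p + q) % 2 = 1 ∧ p % 2 = 0))
      ∨ (j = 8 ∧ n = 2 ∧ q ≤ p ∧ 7 ≤ p ∧ p ≤ q + 14 ∧ (p = q ∧ p % 2 = 1))
      ∨ (j = 8 ∧ n = 4 ∧ q ≤ p ∧ 9 ≤ q ∧ p ≤ q + 14 ∧ (p = q ∧ p % 2 = 0))
      ∨ (j = 10 ∧ n = 6 ∧ q ≤ p ∧ 13 ≤ q ∧ p ≤ q + 14 ∧ (p = q ∧ p % 2 = 0))
      ∨ (j = 4 ∧ n = 5 ∧ p = 16 ∧ q = 11)
      ∨ (j = 6 ∧ n = 3 ∧ p = 14 ∧ q = 9)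
      ∨ (j = 8 ∧ n = 5 ∧ p = 18 ∧ q = 13)))
    (fun j n p q => decide ((j = 2 ∧ n = 3 ∧ q ≤ p ∧ 14 ≤ p ∧ p ≤ q + 14 ∧ ¬ ((p + q) % 2 = 1 ∧ p % 2 = 0))
      ∨ (j = 2 ∧ n = 5 ∧ q ≤ p ∧ 15 ≤ q ∧ p ≤ q + 14 ∧ ¬ ((p + q) % 2 = 1 ∧ p % 2 = 1))
      ∨ (j = 2 ∧ n = 1 ∧ q ≤ p ∧ p ≤ q + 14 ∧ ¬ ((p + q) % 2 = 1 ∧ p % 2 = 1))
      ∨ (j = 4 ∧ n = 1 ∧ q ≤ p ∧ 8 ≤ p ∧ p ≤ q + 14 ∧ ¬ ((p + q) % 2 = 1 ∧ p % 2 = 0))
      ∨ (j = 4 ∧ n = 2 ∧ q ≤ p ∧ 9 ≤ p ∧ p ≤ q + 14 ∧ ¬ (p = q ∧ p % 2 = 1))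
      ∨ (j = 4 ∧ n = 3 ∧ q ≤ p ∧ 9 ≤ q ∧ p ≤ q + 14 ∧ ¬ ((p + q) % 2 = 1 ∧ p % 2 = 1))
      ∨ (j = 4 ∧ n = 4 ∧ q ≤ p ∧ 11 ≤ q ∧ p ≤ q + 14 ∧ ¬ (p = q ∧ p % 2 = 0))
      ∨ (j = 6 ∧ n = 3 ∧ q ≤ p ∧ 18 ≤ p ∧ p ≤ q + 14 ∧ ¬ ((p + q) % 2 = 1 ∧ p % 2 = 0))
      ∨ (j = 6 ∧ n = 5 ∧ q ≤ p ∧ 19 ≤ q ∧ p ≤ q + 14 ∧ ¬ ((p + q) % 2 = 1 ∧ p % 2 = 1))
      ∨ (j = 6 ∧ n = 1 ∧ q ≤ p ∧ 3 ≤ q ∧ p ≤ q + 14 ∧ ¬ ((p + q) % 2 = 1 ∧ p % 2 = 1))
      ∨ (j = 6 ∧ n = 2 ∧ q ≤ p ∧ 5 ≤ q ∧ p ≤ q + 14 ∧ ¬ (p = q ∧ p % 2 = 0))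
      ∨ (j = 8 ∧ n = 1 ∧ q ≤ p ∧ 6 ≤ p ∧ p ≤ q + 14 ∧ ¬ ((p + q) % 2 = 1 ∧ p % 2 = 0))
      ∨ (j = 8 ∧ n = 2 ∧ q ≤ p ∧ 7 ≤ p ∧ p ≤ q + 14 ∧ ¬ (p = q ∧ p % 2 = 1))
      ∨ (j = 8 ∧ n = 4 ∧ q ≤ p ∧ 9 ≤ q ∧ p ≤ q + 14 ∧ ¬ (p = q ∧ p % 2 = 0))
      ∨ (j = 10 ∧ n = 6 ∧ q ≤ p ∧ 13 ≤ q ∧ p ≤ q + 14 ∧ ¬ (p = q ∧ p % 2 = 0))
      ∨ (j = 1 ∧ n = 1 ∧ q ≤ p)
      ∨ (j = 1 ∧ n = 2 ∧ q ≤ p)
      ∨ (j = 1 ∧ n = 3 ∧ q ≤ p)
      ∨ (j = 1 ∧ n = 4 ∧ q ≤ p)
      ∨ (j = 1 ∧ n = 5 ∧ q ≤ p)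
      ∨ (j = 1 ∧ n = 6 ∧ q ≤ p)
      ∨ (j = 1 ∧ n = 7 ∧ q ≤ p)
      ∨ (j = 5 ∧ n = 3 ∧ 9 ≤ p ∧ q + 3 ≤ p ∧ p ≤ q + 12)
      ∨ (j = 7 ∧ n = 3 ∧ 7 ≤ q ∧ q + 1 ≤ p ∧ p ≤ q + 14)
      ∨ (j = 6 ∧ n = 4 ∧ 8 ≤ q ∧ q + 2 ≤ p ∧ p ≤ q + 13)
      ∨ (j = 7 ∧ n = 4 ∧ 11 ≤ q ∧ q + 2 ≤ p ∧ p ≤ q + 13)
      ∨ (j = 5 ∧ n = 5 ∧ 11 ≤ q ∧ q + 3 ≤ p ∧ p ≤ q + 12)
      ∨ (j = 7 ∧ n = 5 ∧ 11 ≤ q ∧ q + 2 ≤ p ∧ p ≤ q + 13)
      ∨ (j = 9 ∧ n = 5 ∧ 11 ≤ q ∧ q + 1 ≤ p ∧ p ≤ q + 14)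
      ∨ (j = 4 ∧ n = 6 ∧ 12 ≤ q ∧ q + 4 ≤ p ∧ p ≤ q + 11)
      ∨ (j = 5 ∧ n = 6 ∧ 17 ≤ q ∧ q + 4 ≤ p ∧ p ≤ q + 11)
      ∨ (j = 6 ∧ n = 6 ∧ 12 ≤ q ∧ q + 3 ≤ p ∧ p ≤ q + 12)
      ∨ (j = 7 ∧ n = 6 ∧ 12 ≤ q ∧ q + 3 ≤ p ∧ p ≤ q + 12)
      ∨ (j = 8 ∧ n = 6 ∧ 12 ≤ q ∧ q + 2 ≤ p ∧ p ≤ q + 13)
      ∨ (j = 9 ∧ n = 6 ∧ 17 ≤ q ∧ q + 2 ≤ p ∧ p ≤ q + 13)
      ∨ (j = 5 ∧ n = 7 ∧ 17 ≤ q ∧ q + 4 ≤ p ∧ p ≤ q + 11)
      ∨ (j = 7 ∧ n = 7 ∧ 17 ≤ q ∧ q + 3 ≤ p ∧ p ≤ q + 12)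
      ∨ (j = 9 ∧ n = 7 ∧ 17 ≤ q ∧ q + 2 ≤ p ∧ p ≤ q + 13)
      ∨ (j = 4 ∧ n = 7 ∧ p = 23 ∧ q = 18)))
    820
    0x3e43033e50804b2ed261db8356778057f23a64d00064de1a4b2f004b2f013e50003e50044af98e64a8834af9804af98461db835678005678044b13834b21004b210464eb0357ff0064cfc24b13004b13044b068e64a8834af9804b079a3158003e36524b06804b06844b2e8e64eb034b2e804b2e843e43033e50804b2f5a580d8064de4257ff0064dd52581a00581a0457f30e61db8356780056861a57f30057f30449c20e3b778349c20049c2043cd7033e44003e51003e510e3e510461db8356780056861a64d08064d0843cd7034b14004b140456858e55260555180061f74a61e94a56858056858447f48348020054e0da54ee0061bf4a564d80565b9a565c0057d6ba57d70057e40057e40e57e4043cd7034b14804b21804b218e4b21843cd78e3cd7033ce4803cd7803cd78e3cd78463498e61dd0363498063498464a80e7e570364a80064a804499a8e3b5d83499a80499a843cbb003cbb013b40003b33003b40013b33012e550e2184832e55002e55047e8d0364de0064de043cd70349a78049a78421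9e832e6f003b404a3cad003cbb1a3cc9003cc904633b8e61cf03633b80633b843cba8e219e832e6f003b404a3cba803cba842e548e2184032e54802e54843cbc8e3b50033cbc803cbc84498d0e3b5003498d00498d04230c032fdc802fdc843ce50349b58049b58461bf03565b00565b043b780349c28049c28449b50e3b780349b50049b5043e5e0e4b4a033e5e003e5e0454f00e61b28354f00054f0043cbb8e3b4f033cbb803cbb8456790e61dd0356790056790431648e2494033164803164843ce40e3b77833ce4003ce4043cf18e3b77833cf1803cf1843b930349d00049d0043cd88e3b6c033cd8803cd884499a0e3cc983499a00499a0470358e7b9983703580703584566b0e61cf03566b00566b043cd80e3b6b033cd8003cd8047e728e7d05837e7f807e72807e728e7e7284498c8e3b4f03498c80498c847019005367007ce9c253670151df006e91006e9e0051ec0051df017b61c26e76007b6ec2539f0051ec0151c4006be2006baa003b1800234400232800205d002041002025006e9d006e9d0e6bb700551a00523300539f0152170051eb0051eb0e6be2016baa014f4d004f4c004f15004f14003b3f003b3f0e388400384c00383000354a003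5490021bd0023440121bc0021a10023280121a0001ef2001ed7001ef1001ed6001ebb00205d011ed5001eba002041011eb9001e9e002025011e9d0089e40089c80089ac007e710e7e708e7e630e7d048e7d040e7cf68e7ba68e7ba60e7b6e8e7b6e0e70340e70338e70260e7017326e9c006d698e6d690e6d4e006d32006d318e6d310e6d16006a828e6a820e6a67006a4a8e6a4a0e6bb7016a2f0064cf8e64cf0e64c18e63630e63628e63550e61f70e61f68e61e90e61e88e61db0e61bf0e608a8e608a0e607c8e607c0e606e8e60528e5f1e0e5f108e5ee60e5ed88e56928e56920e56848e55270055270e55190e53ba0e53b98e53ac0e53ab8e539e0e53820e52400052400e52240052240e53653251ea0050d40050b800509c00508000507f8e507f0e5064004f740e4f590e4f3d004f3c004f3c0e4f21004f210e4b2e0e49c18e3cf10e481d523b3e003a268e3a260e3a190e3a188e3a0c003a0b8e3a0b0e3a0a8e3a0a0e39fd0e39fc8e39f00039ef8e39ef0e39d40039d38e39d30e39b800399c0038910038910e38730038590038590e385800385700383d00383d0e383c0037250037090036ed0036d10035720035710035710e35560035560e21e400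21e40e21d70e21c90021c90e21c80021c80e21bb0e21ad0021ad0e219f0e1f19001f190e1f18001f180e1efe001efe0e1efd001efd0e1efc0e1ef00e1ee2001ee20e1ee10e1ed40e1ec6001ec60e1ec5001ec50e1eb80e1eaa001eaa0e16730e16570e163b0e15068e14ea8e14ce8e14ce0e14cd8e14c08e14c00e14b28e138c0e13700e13618e13610e13540e13538e13460e121f8e12038e11e78e89e40f89c80f89ac0f7e8d077e8c877e7f077e71077e70877e63077d20877d20077d12877d04877d04077cf6877ba6877ba6077b98877b7c877b6e877b6e077b608771bc87718687705007704f877042077034077033877026077017077016877009877009076ec8876eac876eaa876e9c0f6e90876d69876d69076d5c076d4e0f6d320f6d31876d31076d24076d23876d160f6bd4876bb6876b9c876a82876a82076a75076a670f6a4a876a4a076a3d076a3c876a2f0f64eb0764ea8764dd8764dd0764dc8764cf8764cf0764c187637e87637e0763710763708763700763630763628763550763468763460763390763388761f70761f68761e90761e88761db0761da0761d98761cc8761cc0761bf0761be8761b107608a87608a07607c87607c07606e8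76052876052076044875f1e075f10875ee6875ee6075ed887581a8757ff8757fe8757e48757ca8757c88756ae0756ad8756a08756a007569f8756928756920756848755270f552687551987551907550c87550b87550a8754f08754ee8754d48754d28753ba0753b98753ac0753ab87539e0753820753818753740753738753660753650753648753578753570752400f52328752320752248752240f51fa8751f88751ea0f51de8750d40f50b80f509c0f50800f507f87507f0750720750718750640f4f740f4f590f4f3d0f4f3c0f4f210f4b4a074b49874b3c074b2e0749dd8749dd0749cf8749c187481d07481c87480f87480f07452807452787451a87451a073e79873e79073e5e873e5d873e42873e29873e28873d0d073d0c873cff073cf1073b85873b6b873b6a873b69873b4f873b4e873b4c873b3e0f3b32873b16873a26873a26073a19073a18873a0c0f3a0b873a0b073a0a873a0a0739fe0739fd8739fd0739fc8739f00f39ef8739ef0739e20739e00739df8739d40f39d38739d30739d28739d20739c60739c58739b80f39b78739b70739aa0739a987399c0f38910f38730f38590f38580f38570f383d0f383c0f37250f37090f36ed0f36d1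0f35720f35710f35560f24868721e40f21d78721d70721c98721c90f21c80f21bb8721bb0721ad8721ad0f219f87219f072191872190872176871f190f1f180f1efe0f1efd0f1efc0f1ef0871ef0071ee2871ee20f1ee10f1ed4871ed4071ec6871ec60f1ec50f1eb8871eb8071eaa871eaa0f17c38717c30717b60717b587167387167307166587165787165707165687164987164907163b87163b07162d8715070715068714f90714eb0714ea8714dd0714cf0714ce8714ce0714cd8714c10714c08714c00714b30714b287138c87138c07137e87137087137007136287136187136107135487135407135387134687134607122007121f8712120712040712038711f60711e80711e78711da07 = true := by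
  decide +kernel

theorem d2_10 (hf : Rule f) {k c n : ℕ} (H : PL f k c n (n - 4))
    (D0 : Cyc f (6 * k) (c - 2) (2 * n))
    (D0a : Cyc f (6 * k) (c - 6) (2 * n - 4 - 2 * k))
    (h0 : f (6 * k + 2) c (2 * n + 3) (2 * n - 2))
    (h1 : f (6 * k + 4) (c - 2) (2 * n + 1) (2 * n - 4))
    (h2 : f (6 * k + 6) c (2 * n + 5) (2 * n))
    (z0 : ¬ f (6 * k + 2) (c + 2) (2 * n + 10) (2 * n + 5)) : False := by
  have hk := H.T.hk
  have hc := H.T.hc
  have h4' := H.T.h4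
  have hb := H.T.hb
  have hN := H.T.hN2
  obtain ⟨a0, ha0⟩ : ∃ z, z + 2 = 6 * k := ⟨6 * k - 2, by omega⟩
  obtain ⟨b0, hb0⟩ : ∃ z, z + 5 = c := ⟨c - 5, by omega⟩
  obtain ⟨x0, hx0⟩ : ∃ z, z + 13 = 2 * n := ⟨2 * n - 13, by omega⟩
  refine check_sound hf (a0 := a0) (b0 := b0) (x0 := x0) (y0 := x0) d2_10_chk
    ⟨fun _ => rfl, fun h => absurd h (by decide), fun h => absurd h (by decide), by omega, by omega,
      by omega, by omega⟩ ?_ ?_
  · intro j m p q hr h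
    obtain ⟨-, -, -, -, hp1, hp2, hq1, hq2⟩ := hr
    replace h := of_decide_eq_true h
    rcases h with h | h | h | h | h | h | h | h | h | h | h | h | h | h | h | h | h | h
    · obtain ⟨rfl, rfl, h⟩ := h
      exact (WrapC.v0 D0 (by omega) (by omega) (by omega) (by omega) (by omega) (by omega) (by omega)).mpr (by omega)
    · obtain ⟨rfl, rfl, h⟩ := h
      exact (WrapC.v2 D0 (by omega) (by omega) (by omega) (by omega) (by omega) (by omega) (by omega)).mpr (by omega)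
    · obtain ⟨rfl, rfl, h⟩ := h
      exact (WrapC.v2 D0a (by omega) (by omega) (by omega) (by omega) (by omega) (by omega) (by omega)).mpr (by omega)
    · obtain ⟨rfl, rfl, h⟩ := h
      exact (WrapC.v0 H.c2 (by omega) (by omega) (by omega) (by omega) (by omega) (by omega) (by omega)).mpr (by omega)
    · obtain ⟨rfl, rfl, h⟩ := h
      exact (WrapC.v1 H.c2 (by omega) (by omega) (by omega) (by omega) (by omega) (by omega) (by omega) (by omega)).mpr (by omega)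
    · obtain ⟨rfl, rfl, h⟩ := h
      exact (WrapC.v2 H.c2 (by omega) (by omega) (by omega) (by omega) (by omega) (by omega) (by omega)).mpr (by omega)
    · obtain ⟨rfl, rfl, h⟩ := h
      exact (WrapC.v3 H.c2 (by omega) (by omega) (by omega) (by omega) (by omega) (by omega) (by omega) (by omega)).mpr (by omega)
    · obtain ⟨rfl, rfl, h⟩ := h
      exact (WrapC.v0 H.c4 (by omega) (by omega) (by omega) (by omega) (by omega) (by omega) (by omega)).mpr (by omega)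
    · obtain ⟨rfl, rfl, h⟩ := h
      exact (WrapC.v2 H.c4 (by omega) (by omega) (by omega) (by omega) (by omega) (by omega) (by omega)).mpr (by omega)
    · obtain ⟨rfl, rfl, h⟩ := h
      exact (WrapC.v2 H.c4a (by omega) (by omega) (by omega) (by omega) (by omega) (by omega) (by omega)).mpr (by omega)
    · obtain ⟨rfl, rfl, h⟩ := h
      exact (WrapC.v3 H.c4a (by omega) (by omega) (by omega) (by omega) (by omega) (by omega) (by omega) (by omega)).mpr (by omega)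
    · obtain ⟨rfl, rfl, h⟩ := h
      exact (WrapC.v0 H.c6 (by omega) (by omega) (by omega) (by omega) (by omega) (by omega) (by omega)).mpr (by omega)
    · obtain ⟨rfl, rfl, h⟩ := h
      exact (WrapC.v1 H.c6 (by omega) (by omega) (by omega) (by omega) (by omega) (by omega) (by omega) (by omega)).mpr (by omega)
    · obtain ⟨rfl, rfl, h⟩ := h
      exact (WrapC.v3 H.c6 (by omega) (by omega) (by omega) (by omega) (by omega) (by omega) (by omega) (by omega)).mpr (by omega)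
    · obtain ⟨rfl, rfl, h⟩ := h
      exact (NW.w3v H.c8 (by omega) (by omega) (by omega) (by omega) (by omega) (by omega) (by omega) (by omega)).mpr (by omega)
    · obtain ⟨rfl, rfl, rfl, rfl⟩ := h
      exact mv h0 (by omega) (by omega) (by omega) (by omega)
    · obtain ⟨rfl, rfl, rfl, rfl⟩ := h
      exact mv h1 (by omega) (by omega) (by omega) (by omega)
    · obtain ⟨rfl, rfl, rfl, rfl⟩ := h
      exact mv h2 (by omega) (by omega) (by omega) (by omega)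
  · intro j m p q hr h
    obtain ⟨-, -, -, -, hp1, hp2, hq1, hq2⟩ := hr
    replace h := of_decide_eq_true h
    rcases h with h | h | h | h | h | h | h | h | h | h | h | h | h | h | h | h | h | h | h | h | h | h | h | h | h | h | h | h | h | h | h | h | h | h | h | h | h | h | h
    · obtain ⟨rfl, rfl, h⟩ := h
      exact mt (WrapC.v0 D0 (by omega) (by omega) (by omega) (by omega) (by omega) (by omega) (by omega)).mp (by omega)
    · obtain ⟨rfl, rfl, h⟩ := h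
      exact mt (WrapC.v2 D0 (by omega) (by omega) (by omega) (by omega) (by omega) (by omega) (by omega)).mp (by omega)
    · obtain ⟨rfl, rfl, h⟩ := h
      exact mt (WrapC.v2 D0a (by omega) (by omega) (by omega) (by omega) (by omega) (by omega) (by omega)).mp (by omega)
    · obtain ⟨rfl, rfl, h⟩ := h
      exact mt (WrapC.v0 H.c2 (by omega) (by omega) (by omega) (by omega) (by omega) (by omega) (by omega)).mp (by omega)
    · obtain ⟨rfl, rfl, h⟩ := h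
      exact mt (WrapC.v1 H.c2 (by omega) (by omega) (by omega) (by omega) (by omega) (by omega) (by omega) (by omega)).mp (by omega)
    · obtain ⟨rfl, rfl, h⟩ := h
      exact mt (WrapC.v2 H.c2 (by omega) (by omega) (by omega) (by omega) (by omega) (by omega) (by omega)).mp (by omega)
    · obtain ⟨rfl, rfl, h⟩ := h
      exact mt (WrapC.v3 H.c2 (by omega) (by omega) (by omega) (by omega) (by omega) (by omega) (by omega) (by omega)).mp (by omega)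
    · obtain ⟨rfl, rfl, h⟩ := h
      exact mt (WrapC.v0 H.c4 (by omega) (by omega) (by omega) (by omega) (by omega) (by omega) (by omega)).mp (by omega)
    · obtain ⟨rfl, rfl, h⟩ := h
      exact mt (WrapC.v2 H.c4 (by omega) (by omega) (by omega) (by omega) (by omega) (by omega) (by omega)).mp (by omega)
    · obtain ⟨rfl, rfl, h⟩ := h
      exact mt (WrapC.v2 H.c4a (by omega) (by omega) (by omega) (by omega) (by omega) (by omega) (by omega)).mp (by omega)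
    · obtain ⟨rfl, rfl, h⟩ := h
      exact mt (WrapC.v3 H.c4a (by omega) (by omega) (by omega) (by omega) (by omega) (by omega) (by omega) (by omega)).mp (by omega)
    · obtain ⟨rfl, rfl, h⟩ := h
      exact mt (WrapC.v0 H.c6 (by omega) (by omega) (by omega) (by omega) (by omega) (by omega) (by omega)).mp (by omega)
    · obtain ⟨rfl, rfl, h⟩ := h
      exact mt (WrapC.v1 H.c6 (by omega) (by omega) (by omega) (by omega) (by omega) (by omega) (by omega) (by omega)).mp (by omega)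
    · obtain ⟨rfl, rfl, h⟩ := h
      exact mt (WrapC.v3 H.c6 (by omega) (by omega) (by omega) (by omega) (by omega) (by omega) (by omega) (by omega)).mp (by omega)
    · obtain ⟨rfl, rfl, h⟩ := h
      exact mt (NW.w3v H.c8 (by omega) (by omega) (by omega) (by omega) (by omega) (by omega) (by omega) (by omega)).mp (by omega)
    · obtain ⟨rfl, rfl, h⟩ := h
      exact H.lw _ _ _ _ (by omega) (by omega) (by omega) (by omega) (by omega) (by omega)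
    · obtain ⟨rfl, rfl, h⟩ := h
      exact H.lw _ _ _ _ (by omega) (by omega) (by omega) (by omega) (by omega) (by omega)
    · obtain ⟨rfl, rfl, h⟩ := h
      exact H.lw _ _ _ _ (by omega) (by omega) (by omega) (by omega) (by omega) (by omega)
    · obtain ⟨rfl, rfl, h⟩ := h
      exact H.lw _ _ _ _ (by omega) (by omega) (by omega) (by omega) (by omega) (by omega)
    · obtain ⟨rfl, rfl, h⟩ := h
      exact H.lw _ _ _ _ (by omega) (by omega) (by omega) (by omega) (by omega) (by omega)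
    · obtain ⟨rfl, rfl, h⟩ := h
      exact H.lw _ _ _ _ (by omega) (by omega) (by omega) (by omega) (by omega) (by omega)
    · obtain ⟨rfl, rfl, h⟩ := h
      exact H.lw _ _ _ _ (by omega) (by omega) (by omega) (by omega) (by omega) (by omega)
    · obtain ⟨rfl, rfl, h⟩ := h
      exact NHT.pmi hf H.T (j := 2) (by omega) (by omega) (by omega) (by omega) (by omega) (by omega)
    · obtain ⟨rfl, rfl, h⟩ := h
      exact NHT.pm hf H.T (j := 0) (by omega) (by omega) (by omega) (by omega) (by omega) (by omega)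
    · obtain ⟨rfl, rfl, h⟩ := h
      exact fun t => NHT.rm1 hf H.T (p := 0) (j := 1) (by omega) (by omega) (by omega) (by omega) (by omega) (by omega) (mv t rfl (by omega) rfl rfl)
    · obtain ⟨rfl, rfl, h⟩ := h
      exact NHT.p0 hf H.T (j := 1) (by omega) (by omega) (by omega) (by omega) (by omega) (by omega)
    · obtain ⟨rfl, rfl, h⟩ := h
      exact NHT.p0 hf H.T (j := 2) (by omega) (by omega) (by omega) (by omega) (by omega) (by omega)
    · obtain ⟨rfl, rfl, h⟩ := h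
      exact NHT.p0 hf H.T (j := 1) (by omega) (by omega) (by omega) (by omega) (by omega) (by omega)
    · obtain ⟨rfl, rfl, h⟩ := h
      exact NHT.p0 hf H.T (j := 0) (by omega) (by omega) (by omega) (by omega) (by omega) (by omega)
    · obtain ⟨rfl, rfl, h⟩ := h
      exact fun t => NHT.r1 hf H.T (p := 0) (j := 3) (by omega) (by omega) (by omega) (by omega) (by omega) (by omega) (mv t rfl (by omega) rfl rfl)
    · obtain ⟨rfl, rfl, h⟩ := h
      exact NHT.p2 hf H.T (j := 3) (by omega) (by omega) (by omega) (by omega) (by omega) (by omega)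
    · obtain ⟨rfl, rfl, h⟩ := h
      exact fun t => NHT.r1 hf H.T (p := 0) (j := 2) (by omega) (by omega) (by omega) (by omega) (by omega) (by omega) (mv t rfl (by omega) rfl rfl)
    · obtain ⟨rfl, rfl, h⟩ := h
      exact fun t => NHT.r1 hf H.T (p := 1) (j := 2) (by omega) (by omega) (by omega) (by omega) (by omega) (by omega) (mv t rfl (by omega) rfl rfl)
    · obtain ⟨rfl, rfl, h⟩ := h
      exact fun t => NHT.r1 hf H.T (p := 0) (j := 1) (by omega) (by omega) (by omega) (by omega) (by omega) (by omega) (mv t rfl (by omega) rfl rfl)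
    · obtain ⟨rfl, rfl, h⟩ := h
      exact NHT.p2 hf H.T (j := 1) (by omega) (by omega) (by omega) (by omega) (by omega) (by omega)
    · obtain ⟨rfl, rfl, h⟩ := h
      exact NHT.p2 hf H.T (j := 3) (by omega) (by omega) (by omega) (by omega) (by omega) (by omega)
    · obtain ⟨rfl, rfl, h⟩ := h
      exact NHT.p2 hf H.T (j := 2) (by omega) (by omega) (by omega) (by omega) (by omega) (by omega)
    · obtain ⟨rfl, rfl, h⟩ := h
      exact NHT.p2 hf H.T (j := 1) (by omega) (by omega) (by omega) (by omega) (by omega) (by omega)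
    · obtain ⟨rfl, rfl, rfl, rfl⟩ := h
      exact fun t => z0 (mv t (by omega) (by omega) (by omega) (by omega))

theorem d2_11_chk : check 12 9 27 27 0 1 1 1 2
    (fun j n p q => decide ((j = 2 ∧ n = 3 ∧ q ≤ p ∧ 14 ≤ p ∧ p ≤ q + 14 ∧ ((p + q) % 2 = 1 ∧ p % 2 = 0))
      ∨ (j = 2 ∧ n = 5 ∧ q ≤ p ∧ 15 ≤ q ∧ p ≤ q + 14 ∧ ((p + q) % 2 = 1 ∧ p % 2 = 1))
      ∨ (j = 2 ∧ n = 1 ∧ q ≤ p ∧ p ≤ q + 14 ∧ ((p + q) % 2 = 1 ∧ p % 2 = 1))
      ∨ (j = 4 ∧ n = 1 ∧ q ≤ p ∧ 8 ≤ p ∧ p ≤ q + 14 ∧ ((p + q) % 2 = 1 ∧ p % 2 = 0))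
      ∨ (j = 4 ∧ n = 2 ∧ q ≤ p ∧ 9 ≤ p ∧ p ≤ q + 14 ∧ (p = q ∧ p % 2 = 1))
      ∨ (j = 4 ∧ n = 3 ∧ q ≤ p ∧ 9 ≤ q ∧ p ≤ q + 14 ∧ ((p + q) % 2 = 1 ∧ p % 2 = 1))
      ∨ (j = 4 ∧ n = 4 ∧ q ≤ p ∧ 11 ≤ q ∧ p ≤ q + 14 ∧ (p = q ∧ p % 2 = 0))
      ∨ (j = 6 ∧ n = 3 ∧ q ≤ p ∧ 18 ≤ p ∧ p ≤ q + 14 ∧ ((p + q) % 2 = 1 ∧ p % 2 = 0))
      ∨ (j = 6 ∧ n = 5 ∧ q ≤ p ∧ 19 ≤ q ∧ p ≤ q + 14 ∧ ((p + q) % 2 = 1 ∧ p % 2 = 1))
      ∨ (j = 6 ∧ n = 1 ∧ q ≤ p ∧ 3 ≤ q ∧ p ≤ q + 14 ∧ ((p + q) % 2 = 1 ∧ p % 2 = 1))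
      ∨ (j = 6 ∧ n = 2 ∧ q ≤ p ∧ 5 ≤ q ∧ p ≤ q + 14 ∧ (p = q ∧ p % 2 = 0))
      ∨ (j = 8 ∧ n = 1 ∧ q ≤ p ∧ 6 ≤ p ∧ p ≤ q + 14 ∧ ((p + q) % 2 = 1 ∧ p % 2 = 0))
      ∨ (j = 8 ∧ n = 2 ∧ q ≤ p ∧ 7 ≤ p ∧ p ≤ q + 14 ∧ (p = q ∧ p % 2 = 1))
      ∨ (j = 8 ∧ n = 3 ∧ q ≤ p ∧ 7 ≤ q ∧ p ≤ q + 14 ∧ ((p + q) % 2 = 1 ∧ p % 2 = 1))
      ∨ (j = 8 ∧ n = 4 ∧ q ≤ p ∧ 9 ≤ q ∧ p ≤ q + 14 ∧ (p = q ∧ p % 2 = 0))
      ∨ (j = 10 ∧ n = 3 ∧ q ≤ p ∧ 10 ≤ p ∧ p ≤ q + 13 ∧ ((p + q) % 2 = 1 ∧ p % 2 = 0))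
      ∨ (j = 10 ∧ n = 6 ∧ q ≤ p ∧ 13 ≤ q ∧ p ≤ q + 14 ∧ (p = q ∧ p % 2 = 0))
      ∨ (j = 10 ∧ n = 1 ∧ q ≤ p ∧ p ≤ q + 14 ∧ ((p + q) % 2 = 1 ∧ p % 2 = 1))
      ∨ (j = 10 ∧ n = 2 ∧ q ≤ p ∧ p ≤ q + 14 ∧ (p = q ∧ p % 2 = 0))
      ∨ (j = 4 ∧ n = 5 ∧ p = 16 ∧ q = 11)
      ∨ (j = 6 ∧ n = 3 ∧ p = 14 ∧ q = 9)
      ∨ (j = 8 ∧ n = 5 ∧ p = 20 ∧ q = 15)))
    (fun j n p q => decide ((j = 2 ∧ n = 3 ∧ q ≤ p ∧ 14 ≤ p ∧ p ≤ q + 14 ∧ ¬ ((p + q) % 2 = 1 ∧ p % 2 = 0))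
      ∨ (j = 2 ∧ n = 5 ∧ q ≤ p ∧ 15 ≤ q ∧ p ≤ q + 14 ∧ ¬ ((p + q) % 2 = 1 ∧ p % 2 = 1))
      ∨ (j = 2 ∧ n = 1 ∧ q ≤ p ∧ p ≤ q + 14 ∧ ¬ ((p + q) % 2 = 1 ∧ p % 2 = 1))
      ∨ (j = 4 ∧ n = 1 ∧ q ≤ p ∧ 8 ≤ p ∧ p ≤ q + 14 ∧ ¬ ((p + q) % 2 = 1 ∧ p % 2 = 0))
      ∨ (j = 4 ∧ n = 2 ∧ q ≤ p ∧ 9 ≤ p ∧ p ≤ q + 14 ∧ ¬ (p = q ∧ p % 2 = 1))
      ∨ (j = 4 ∧ n = 3 ∧ q ≤ p ∧ 9 ≤ q ∧ p ≤ q + 14 ∧ ¬ ((p + q) % 2 = 1 ∧ p % 2 = 1))
      ∨ (j = 4 ∧ n = 4 ∧ q ≤ p ∧ 11 ≤ q ∧ p ≤ q + 14 ∧ ¬ (p = q ∧ p % 2 = 0))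
      ∨ (j = 6 ∧ n = 3 ∧ q ≤ p ∧ 18 ≤ p ∧ p ≤ q + 14 ∧ ¬ ((p + q) % 2 = 1 ∧ p % 2 = 0))
      ∨ (j = 6 ∧ n = 5 ∧ q ≤ p ∧ 19 ≤ q ∧ p ≤ q + 14 ∧ ¬ ((p + q) % 2 = 1 ∧ p % 2 = 1))
      ∨ (j = 6 ∧ n = 1 ∧ q ≤ p ∧ 3 ≤ q ∧ p ≤ q + 14 ∧ ¬ ((p + q) % 2 = 1 ∧ p % 2 = 1))
      ∨ (j = 6 ∧ n = 2 ∧ q ≤ p ∧ 5 ≤ q ∧ p ≤ q + 14 ∧ ¬ (p = q ∧ p % 2 = 0))
      ∨ (j = 8 ∧ n = 1 ∧ q ≤ p ∧ 6 ≤ p ∧ p ≤ q + 14 ∧ ¬ ((p + q) % 2 = 1 ∧ p % 2 = 0))
      ∨ (j = 8 ∧ n = 2 ∧ q ≤ p ∧ 7 ≤ p ∧ p ≤ q + 14 ∧ ¬ (p = q ∧ p % 2 = 1))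
      ∨ (j = 8 ∧ n = 3 ∧ q ≤ p ∧ 7 ≤ q ∧ p ≤ q + 14 ∧ ¬ ((p + q) % 2 = 1 ∧ p % 2 = 1))
      ∨ (j = 8 ∧ n = 4 ∧ q ≤ p ∧ 9 ≤ q ∧ p ≤ q + 14 ∧ ¬ (p = q ∧ p % 2 = 0))
      ∨ (j = 10 ∧ n = 3 ∧ q ≤ p ∧ 10 ≤ p ∧ p ≤ q + 13 ∧ ¬ ((p + q) % 2 = 1 ∧ p % 2 = 0))
      ∨ (j = 10 ∧ n = 6 ∧ q ≤ p ∧ 13 ≤ q ∧ p ≤ q + 14 ∧ ¬ (p = q ∧ p % 2 = 0))
      ∨ (j = 10 ∧ n = 1 ∧ q ≤ p ∧ p ≤ q + 14 ∧ ¬ ((p + q) % 2 = 1 ∧ p % 2 = 1))
      ∨ (j = 10 ∧ n = 2 ∧ q ≤ p ∧ p ≤ q + 14 ∧ ¬ (p = q ∧ p % 2 = 0))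
      ∨ (j = 1 ∧ n = 1 ∧ q ≤ p)
      ∨ (j = 1 ∧ n = 2 ∧ q ≤ p)
      ∨ (j = 1 ∧ n = 3 ∧ q ≤ p)
      ∨ (j = 1 ∧ n = 4 ∧ q ≤ p)
      ∨ (j = 1 ∧ n = 5 ∧ q ≤ p)
      ∨ (j = 1 ∧ n = 6 ∧ q ≤ p)
      ∨ (j = 1 ∧ n = 7 ∧ q ≤ p)
      ∨ (j = 5 ∧ n = 3 ∧ 9 ≤ p ∧ q + 3 ≤ p ∧ p ≤ q + 12)
      ∨ (j = 7 ∧ n = 3 ∧ 7 ≤ q ∧ q + 1 ≤ p ∧ p ≤ q + 14)
      ∨ (j = 9 ∧ n = 3 ∧ 9 ≤ p ∧ q + 1 ≤ p ∧ p ≤ q + 14)
      ∨ (j = 6 ∧ n = 4 ∧ 10 ≤ p ∧ q + 3 ≤ p ∧ p ≤ q + 12)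
      ∨ (j = 5 ∧ n = 5 ∧ 11 ≤ q ∧ q + 3 ≤ p ∧ p ≤ q + 12)
      ∨ (j = 7 ∧ n = 5 ∧ 11 ≤ q ∧ q + 2 ≤ p ∧ p ≤ q + 13)
      ∨ (j = 9 ∧ n = 5 ∧ 11 ≤ q ∧ q + 1 ≤ p ∧ p ≤ q + 14)
      ∨ (j = 4 ∧ n = 6 ∧ 12 ≤ q ∧ q + 4 ≤ p ∧ p ≤ q + 11)
      ∨ (j = 5 ∧ n = 6 ∧ 17 ≤ q ∧ q + 4 ≤ p ∧ p ≤ q + 11)
      ∨ (j = 6 ∧ n = 6 ∧ 12 ≤ q ∧ q + 3 ≤ p ∧ p ≤ q + 12)
      ∨ (j = 7 ∧ n = 6 ∧ 12 ≤ q ∧ q + 3 ≤ p ∧ p ≤ q + 12)
      ∨ (j = 8 ∧ n = 6 ∧ 12 ≤ q ∧ q + 2 ≤ p ∧ p ≤ q + 13)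
      ∨ (j = 9 ∧ n = 6 ∧ 17 ≤ q ∧ q + 2 ≤ p ∧ p ≤ q + 13)
      ∨ (j = 5 ∧ n = 7 ∧ 17 ≤ q ∧ q + 4 ≤ p ∧ p ≤ q + 11)
      ∨ (j = 7 ∧ n = 7 ∧ 17 ≤ q ∧ q + 3 ≤ p ∧ p ≤ q + 12)
      ∨ (j = 9 ∧ n = 7 ∧ 17 ≤ q ∧ q + 2 ≤ p ∧ p ≤ q + 13)
      ∨ (j = 11 ∧ n = 7 ∧ 17 ≤ q ∧ q + 1 ≤ p ∧ p ≤ q + 14)
      ∨ (j = 4 ∧ n = 7 ∧ p = 23 ∧ q = 18)))
    515
    0x3e43033e50804b2f5a64de034b2f004b2f0464c40e7e730364c40064c4043cd7003cd7013b4f003b5c003b4f013b5c013b5b8e7e8d0364de0064de014b2f004b2f013cd6803cd6813b5b803b5b844b4a033e5e003e5e044b13834b21004b21043e440e3cd7033e51003e44003e440e3e4404498c8e3b4f03498c80498c843b77833ce4003ce4043cbb003cbb013b40003b33003b40013b33012e550e2184832e55002e55044af88e219e832e6f003b404a3cad003cbb1a4b05804af8804af88e4af8843b930349d00049d0042e548e2184032e54802e54843cbc0e3b4f033cbc003cbc043cd88e3b6c033cd8803cd8843b780349b50049b50471bc0571ae007e8d4a7e7f4a64d08064d084230c032fdc802fd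c847e648e9813837e64807e64843b778349c20049c2043b778349b48049b4843cd80e3b6b033cd8003cd8043cd78e3b6b033cd7803cd784249403316480316484581a05580c0064eb4a64dd4a4b2e804b2e843cd68349a70049a70461f70363638063638449a88e3b6b0349a88049a8849820837e71807e7f1264d00064d0043b5c033cc8803cc88461f7035693005693043b850e3b77833b85003b85044b4a033cf1803cf1847035007d05c26ead006eba007b7dc2885c007b8ac26e9200886900539f003b1800232800204100202500885c018575006eb9006eb90e6bc7008869016bc600539f015217003b3f003b3f0e38840021bd0021bc0023280121a0001ef2001ed7001ef1001ed6001ed5001eba002041011eb9001e9e002025011e9d0098208e98200e89e40089e38e89e30e89c80085820085820e7e8d0e7e8c8e7e7f0e7d208e7d200e7d128e7b980e7b8a8e7b8a0e70500e704f8e70420e7033326eb8006d4e006d4d8e6d4d0e6d32006bef006bee006bee0e6bd3006bd30e552700524000523f0052240052240e50b800481d523b3e003a268e3a260e3a190e3a188e3a0c003a0b8e3a0b0e39f00039ef8e39ef0e39d40039d38e39d30e39b80038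910038910e38730038580037250037090021e40021e40e21c90021c90e21c80021bb0e21ad0021ad0e219f0e1f19001f190e1f18001f180e1efe001efe0e1efd001efd0e1ee2001ee20e1ee1001ee10e1ed40e1ec6001ec60e1ec5001ec50e1eb80e1eaa001eaa0e16570e163b0e14ea8e14ce8e14ce0e14cd8e14c08e14c00e14b28e13700e13618e13610e13540e13538e13460e12038e11e78e9820879820079812878b428789e40f89e38789e30789d60789d58789c80f886887884e8785820f7e8d077e8c877e7f077e7e877e71077d20877d20077d12877d12077d04877b98877b98077b8a877b8a077b7c8771bc8771a28771a087705007704f877042077041877034077033077032877025877025076ec8876ec6876eb80f6eac876d4e0f6d4d876d4d076d40076d3f876d320f6bef0f6bee0f6bd30f64eb0764ea8764dd8764dd0764dc8764cf8764cf07637e87637e0763710763708763700763630763628763620763550763548761f70761f68761f60761f58761e90761e88761e807581a8757ff8757fe8756ae0756ad8756a08756a007569f8756928756920755270f55268755190753b98752400f523f0f52328752320752248752240f50b80f4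b4a074b49874b3c0749dd8749dd0749cf87481d07481c87480f87480f073e79873e79073e5e873e42873d0d073d0c873cff073b85873b6b873b6a873b69873b4e873b4c873b3e0f3b32873a26873a26073a19073a18873a0c0f3a0b873a0b073a0a8739fe0739fd8739fd0739f00f39ef8739ef0739e20739e18739e00739df8739d40f39d38739d30739d28739d20739c60739c58739b80f38910f38730f38580f37250f37090f24868721e40f21c90f21c80f21bb8721bb0721ad8721ad0f219f87219f072191872190872176871f190f1f180f1efe0f1efd0f1ee20f1ee10f1ed4871ed4071ec6871ec60f1ec50f1eb8871eb8071eaa871eaa0f17c38717c30717b60717b587165787165707165687164987164907163b87163b07162d8714eb0714ea8714dd0714cf0714ce8714ce0714cd8714c10714c08714c00714b30714b28713708713700713628713618713610713548713540713538713468713460712040712038711f60711e80711e78711da07 = true := by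
  decide +kernel

theorem d2_11 (hf : Rule f) {k c n : ℕ} (H : PL f k c n (n - 4))
    (D0 : Cyc f (6 * k) (c - 2) (2 * n))
    (D0a : Cyc f (6 * k) (c - 6) (2 * n - 4 - 2 * k))
    (h0 : f (6 * k + 2) c (2 * n + 3) (2 * n - 2))
    (h1 : f (6 * k + 4) (c - 2) (2 * n + 1) (2 * n - 4))
    (h2 : f (6 * k + 6) c (2 * n + 7) (2 * n + 2))
    (z0 : ¬ f (6 * k + 2) (c + 2) (2 * n + 10) (2 * n + 5)) : False := by
  have hk := H.T.hk
  have hc := H.T.hc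
  have h4' := H.T.h4
  have hb := H.T.hb
  have hN := H.T.hN2
  obtain ⟨a0, ha0⟩ : ∃ z, z + 2 = 6 * k := ⟨6 * k - 2, by omega⟩
  obtain ⟨b0, hb0⟩ : ∃ z, z + 5 = c := ⟨c - 5, by omega⟩
  obtain ⟨x0, hx0⟩ : ∃ z, z + 13 = 2 * n := ⟨2 * n - 13, by omega⟩
  refine check_sound hf (a0 := a0) (b0 := b0) (x0 := x0) (y0 := x0) d2_11_chk
    ⟨fun _ => rfl, fun h => absurd h (by decide), fun h => absurd h (by decide), by omega, by omega,
      by omega, by omega⟩ ?_ ?_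
  · intro j m p q hr h
    obtain ⟨-, -, -, -, hp1, hp2, hq1, hq2⟩ := hr
    replace h := of_decide_eq_true h
    rcases h with h | h | h | h | h | h | h | h | h | h | h | h | h | h | h | h | h | h | h | h | h | h
    · obtain ⟨rfl, rfl, h⟩ := h
      exact (WrapC.v0 D0 (by omega) (by omega) (by omega) (by omega) (by omega) (by omega) (by omega)).mpr (by omega)
    · obtain ⟨rfl, rfl, h⟩ := h
      exact (WrapC.v2 D0 (by omega) (by omega) (by omega) (by omega) (by omega) (by omega) (by omega)).mpr (by omega)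
    · obtain ⟨rfl, rfl, h⟩ := h
      exact (WrapC.v2 D0a (by omega) (by omega) (by omega) (by omega) (by omega) (by omega) (by omega)).mpr (by omega)
    · obtain ⟨rfl, rfl, h⟩ := h
      exact (WrapC.v0 H.c2 (by omega) (by omega) (by omega) (by omega) (by omega) (by omega) (by omega)).mpr (by omega)
    · obtain ⟨rfl, rfl, h⟩ := h
      exact (WrapC.v1 H.c2 (by omega) (by omega) (by omega) (by omega) (by omega) (by omega) (by omega) (by omega)).mpr (by omega)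
    · obtain ⟨rfl, rfl, h⟩ := h
      exact (WrapC.v2 H.c2 (by omega) (by omega) (by omega) (by omega) (by omega) (by omega) (by omega)).mpr (by omega)
    · obtain ⟨rfl, rfl, h⟩ := h
      exact (WrapC.v3 H.c2 (by omega) (by omega) (by omega) (by omega) (by omega) (by omega) (by omega) (by omega)).mpr (by omega)
    · obtain ⟨rfl, rfl, h⟩ := h
      exact (WrapC.v0 H.c4 (by omega) (by omega) (by omega) (by omega) (by omega) (by omega) (by omega)).mpr (by omega)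
    · obtain ⟨rfl, rfl, h⟩ := h
      exact (WrapC.v2 H.c4 (by omega) (by omega) (by omega) (by omega) (by omega) (by omega) (by omega)).mpr (by omega)
    · obtain ⟨rfl, rfl, h⟩ := h
      exact (WrapC.v2 H.c4a (by omega) (by omega) (by omega) (by omega) (by omega) (by omega) (by omega)).mpr (by omega)
    · obtain ⟨rfl, rfl, h⟩ := h
      exact (WrapC.v3 H.c4a (by omega) (by omega) (by omega) (by omega) (by omega) (by omega) (by omega) (by omega)).mpr (by omega)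
    · obtain ⟨rfl, rfl, h⟩ := h
      exact (WrapC.v0 H.c6 (by omega) (by omega) (by omega) (by omega) (by omega) (by omega) (by omega)).mpr (by omega)
    · obtain ⟨rfl, rfl, h⟩ := h
      exact (WrapC.v1 H.c6 (by omega) (by omega) (by omega) (by omega) (by omega) (by omega) (by omega) (by omega)).mpr (by omega)
    · obtain ⟨rfl, rfl, h⟩ := h
      exact (WrapC.v2 H.c6 (by omega) (by omega) (by omega) (by omega) (by omega) (by omega) (by omega)).mpr (by omega)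
    · obtain ⟨rfl, rfl, h⟩ := h
      exact (WrapC.v3 H.c6 (by omega) (by omega) (by omega) (by omega) (by omega) (by omega) (by omega) (by omega)).mpr (by omega)
    · obtain ⟨rfl, rfl, h⟩ := h
      exact (NW.w0v H.c8 (by omega) (by omega) (by omega) (by omega) (by omega) (by omega) (by omega)).mpr (by omega)
    · obtain ⟨rfl, rfl, h⟩ := h
      exact (NW.w3v H.c8 (by omega) (by omega) (by omega) (by omega) (by omega) (by omega) (by omega) (by omega)).mpr (by omega)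
    · obtain ⟨rfl, rfl, h⟩ := h
      exact (NW.w2v H.c8a (by omega) (by omega) (by omega) (by omega) (by omega) (by omega) (by omega)).mpr (by omega)
    · obtain ⟨rfl, rfl, h⟩ := h
      exact (NW.w3v H.c8a (by omega) (by omega) (by omega) (by omega) (by omega) (by omega) (by omega) (by omega)).mpr (by omega)
    · obtain ⟨rfl, rfl, rfl, rfl⟩ := h
      exact mv h0 (by omega) (by omega) (by omega) (by omega)
    · obtain ⟨rfl, rfl, rfl, rfl⟩ := h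
      exact mv h1 (by omega) (by omega) (by omega) (by omega)
    · obtain ⟨rfl, rfl, rfl, rfl⟩ := h
      exact mv h2 (by omega) (by omega) (by omega) (by omega)
  · intro j m p q hr h
    obtain ⟨-, -, -, -, hp1, hp2, hq1, hq2⟩ := hr
    replace h := of_decide_eq_true h
    rcases h with h | h | h | h | h | h | h | h | h | h | h | h | h | h | h | h | h | h | h | h | h | h | h | h | h | h | h | h | h | h | h | h | h | h | h | h | h | h | h | h | h | h | h | h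
    · obtain ⟨rfl, rfl, h⟩ := h
      exact mt (WrapC.v0 D0 (by omega) (by omega) (by omega) (by omega) (by omega) (by omega) (by omega)).mp (by omega)
    · obtain ⟨rfl, rfl, h⟩ := h
      exact mt (WrapC.v2 D0 (by omega) (by omega) (by omega) (by omega) (by omega) (by omega) (by omega)).mp (by omega)
    · obtain ⟨rfl, rfl, h⟩ := h
      exact mt (WrapC.v2 D0a (by omega) (by omega) (by omega) (by omega) (by omega) (by omega) (by omega)).mp (by omega)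
    · obtain ⟨rfl, rfl, h⟩ := h
      exact mt (WrapC.v0 H.c2 (by omega) (by omega) (by omega) (by omega) (by omega) (by omega) (by omega)).mp (by omega)
    · obtain ⟨rfl, rfl, h⟩ := h
      exact mt (WrapC.v1 H.c2 (by omega) (by omega) (by omega) (by omega) (by omega) (by omega) (by omega) (by omega)).mp (by omega)
    · obtain ⟨rfl, rfl, h⟩ := h
      exact mt (WrapC.v2 H.c2 (by omega) (by omega) (by omega) (by omega) (by omega) (by omega) (by omega)).mp (by omega)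
    · obtain ⟨rfl, rfl, h⟩ := h
      exact mt (WrapC.v3 H.c2 (by omega) (by omega) (by omega) (by omega) (by omega) (by omega) (by omega) (by omega)).mp (by omega)
    · obtain ⟨rfl, rfl, h⟩ := h
      exact mt (WrapC.v0 H.c4 (by omega) (by omega) (by omega) (by omega) (by omega) (by omega) (by omega)).mp (by omega)
    · obtain ⟨rfl, rfl, h⟩ := h
      exact mt (WrapC.v2 H.c4 (by omega) (by omega) (by omega) (by omega) (by omega) (by omega) (by omega)).mp (by omega)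
    · obtain ⟨rfl, rfl, h⟩ := h
      exact mt (WrapC.v2 H.c4a (by omega) (by omega) (by omega) (by omega) (by omega) (by omega) (by omega)).mp (by omega)
    · obtain ⟨rfl, rfl, h⟩ := h
      exact mt (WrapC.v3 H.c4a (by omega) (by omega) (by omega) (by omega) (by omega) (by omega) (by omega) (by omega)).mp (by omega)
    · obtain ⟨rfl, rfl, h⟩ := h
      exact mt (WrapC.v0 H.c6 (by omega) (by omega) (by omega) (by omega) (by omega) (by omega) (by omega)).mp (by omega)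
    · obtain ⟨rfl, rfl, h⟩ := h
      exact mt (WrapC.v1 H.c6 (by omega) (by omega) (by omega) (by omega) (by omega) (by omega) (by omega) (by omega)).mp (by omega)
    · obtain ⟨rfl, rfl, h⟩ := h
      exact mt (WrapC.v2 H.c6 (by omega) (by omega) (by omega) (by omega) (by omega) (by omega) (by omega)).mp (by omega)
    · obtain ⟨rfl, rfl, h⟩ := h
      exact mt (WrapC.v3 H.c6 (by omega) (by omega) (by omega) (by omega) (by omega) (by omega) (by omega) (by omega)).mp (by omega)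
    · obtain ⟨rfl, rfl, h⟩ := h
      exact mt (NW.w0v H.c8 (by omega) (by omega) (by omega) (by omega) (by omega) (by omega) (by omega)).mp (by omega)
    · obtain ⟨rfl, rfl, h⟩ := h
      exact mt (NW.w3v H.c8 (by omega) (by omega) (by omega) (by omega) (by omega) (by omega) (by omega) (by omega)).mp (by omega)
    · obtain ⟨rfl, rfl, h⟩ := h
      exact mt (NW.w2v H.c8a (by omega) (by omega) (by omega) (by omega) (by omega) (by omega) (by omega)).mp (by omega)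
    · obtain ⟨rfl, rfl, h⟩ := h
      exact mt (NW.w3v H.c8a (by omega) (by omega) (by omega) (by omega) (by omega) (by omega) (by omega) (by omega)).mp (by omega)
    · obtain ⟨rfl, rfl, h⟩ := h
      exact H.lw _ _ _ _ (by omega) (by omega) (by omega) (by omega) (by omega) (by omega)
    · obtain ⟨rfl, rfl, h⟩ := h
      exact H.lw _ _ _ _ (by omega) (by omega) (by omega) (by omega) (by omega) (by omega)
    · obtain ⟨rfl, rfl, h⟩ := h
      exact H.lw _ _ _ _ (by omega) (by omega) (by omega) (by omega) (by omega) (by omega)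
    · obtain ⟨rfl, rfl, h⟩ := h
      exact H.lw _ _ _ _ (by omega) (by omega) (by omega) (by omega) (by omega) (by omega)
    · obtain ⟨rfl, rfl, h⟩ := h
      exact H.lw _ _ _ _ (by omega) (by omega) (by omega) (by omega) (by omega) (by omega)
    · obtain ⟨rfl, rfl, h⟩ := h
      exact H.lw _ _ _ _ (by omega) (by omega) (by omega) (by omega) (by omega) (by omega)
    · obtain ⟨rfl, rfl, h⟩ := h
      exact H.lw _ _ _ _ (by omega) (by omega) (by omega) (by omega) (by omega) (by omega)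
    · obtain ⟨rfl, rfl, h⟩ := h
      exact NHT.pmi hf H.T (j := 2) (by omega) (by omega) (by omega) (by omega) (by omega) (by omega)
    · obtain ⟨rfl, rfl, h⟩ := h
      exact NHT.pm hf H.T (j := 0) (by omega) (by omega) (by omega) (by omega) (by omega) (by omega)
    · obtain ⟨rfl, rfl, h⟩ := h
      exact NHT.pmi hf H.T (j := 0) (by omega) (by omega) (by omega) (by omega) (by omega) (by omega)
    · obtain ⟨rfl, rfl, h⟩ := h
      exact fun t => NHT.rm1i hf H.T (p := 0) (j := 2) (by omega) (by omega) (by omega) (by omega) (by omega) (by omega) (mv t rfl (by omega) rfl rfl)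
    · obtain ⟨rfl, rfl, h⟩ := h
      exact NHT.p0 hf H.T (j := 2) (by omega) (by omega) (by omega) (by omega) (by omega) (by omega)
    · obtain ⟨rfl, rfl, h⟩ := h
      exact NHT.p0 hf H.T (j := 1) (by omega) (by omega) (by omega) (by omega) (by omega) (by omega)
    · obtain ⟨rfl, rfl, h⟩ := h
      exact NHT.p0 hf H.T (j := 0) (by omega) (by omega) (by omega) (by omega) (by omega) (by omega)
    · obtain ⟨rfl, rfl, h⟩ := h
      exact fun t => NHT.r1 hf H.T (p := 0) (j := 3) (by omega) (by omega) (by omega) (by omega) (by omega) (by omega) (mv t rfl (by omega) rfl rfl)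
    · obtain ⟨rfl, rfl, h⟩ := h
      exact NHT.p2 hf H.T (j := 3) (by omega) (by omega) (by omega) (by omega) (by omega) (by omega)
    · obtain ⟨rfl, rfl, h⟩ := h
      exact fun t => NHT.r1 hf H.T (p := 0) (j := 2) (by omega) (by omega) (by omega) (by omega) (by omega) (by omega) (mv t rfl (by omega) rfl rfl)
    · obtain ⟨rfl, rfl, h⟩ := h
      exact fun t => NHT.r1 hf H.T (p := 1) (j := 2) (by omega) (by omega) (by omega) (by omega) (by omega) (by omega) (mv t rfl (by omega) rfl rfl)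
    · obtain ⟨rfl, rfl, h⟩ := h
      exact fun t => NHT.r1 hf H.T (p := 0) (j := 1) (by omega) (by omega) (by omega) (by omega) (by omega) (by omega) (mv t rfl (by omega) rfl rfl)
    · obtain ⟨rfl, rfl, h⟩ := h
      exact NHT.p2 hf H.T (j := 1) (by omega) (by omega) (by omega) (by omega) (by omega) (by omega)
    · obtain ⟨rfl, rfl, h⟩ := h
      exact NHT.p2 hf H.T (j := 3) (by omega) (by omega) (by omega) (by omega) (by omega) (by omega)
    · obtain ⟨rfl, rfl, h⟩ := h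
      exact NHT.p2 hf H.T (j := 2) (by omega) (by omega) (by omega) (by omega) (by omega) (by omega)
    · obtain ⟨rfl, rfl, h⟩ := h
      exact NHT.p2 hf H.T (j := 1) (by omega) (by omega) (by omega) (by omega) (by omega) (by omega)
    · obtain ⟨rfl, rfl, h⟩ := h
      exact NHT.p2 hf H.T (j := 0) (by omega) (by omega) (by omega) (by omega) (by omega) (by omega)
    · obtain ⟨rfl, rfl, rfl, rfl⟩ := h
      exact fun t => z0 (mv t (by omega) (by omega) (by omega) (by omega))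


end Pool.Agent.SNT.L0X
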