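import Pool.Agent.SNT.L0XR
import Pool.Agent.SNT.L0XD
import Pool.Agent.SNT.L0XN
import Pool.Agent.SNT.L0XT
import Pool.Agent.SNT.L0X2a
import Pool.Agent.SNT.L0Col

set_option autoImplicit false
set_option linter.unusedVariables false

/-! The E-cell of the road L0 at the special positions `X' = 2` and `X' = 4` (helper26): the chain.

`CX f k c n` = the facts of one cycle with `X = 2 n + 2` (`n = nn` for `v = k - 4`, `n = nn + 1` for `v = k - 5`). -/

namespace Pool.Agent.SNT.L0X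

open Pool.Agent.SNT Pool.Agent.SNT.Sig Pool.Agent.SNT.Loc Pool.Agent.SNT.LW Pool.Agent.SNT.NHZ Pool.Agent.SNT.DRun
open Pool.Agent.SNT.D1E Pool.Agent.SNT.L0E Pool.Agent.SNT.PB

variable {f : ℕ → ℕ → ℕ → ℕ → Prop}

/-- the facts of one cycle, `X = 2 n + 2` -/
structure CX (f : ℕ → ℕ → ℕ → ℕ → Prop) (k c n : ℕ) : Prop where
  H : PL f k c n (n - 4)
  D0 : Cyc f (6 * k) (c - 2) (2 * n)
  D0a : Cyc f (6 * k) (c - 6) (2 * n - 4 - 2 * k)
  C2 : Cyc f (6 * k + 2) (c - 4) (2 * (n - 5) + 2)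
  C4a : Cyc f (6 * k + 4) (c - 6) (2 * (n - (k + 1)) + 2)
  K0 : ∀ x y : ℕ, 2 * n ≤ x + 3 → x % 2 = 1 → y % 2 = 0 → x + 5 ≤ y + 2 * k → y + 5 ≤ x →
    f (6 * k) (c - 2) x y ∨ f (6 * k) (c - 2) (x + 2) (y + 2)
  K6 : ∀ x y : ℕ, 2 * n + 3 ≤ x → x % 2 = 1 → y % 2 = 0 → x + 3 ≤ y + 2 * k → y + 1 ≤ x →
    f (6 * k + 6) c x y ∨ f (6 * k + 6) c (x + 2) (y + 2)
  p1 : ∀ x : ℕ, 2 * n + 9 ≤ x → x + 6 ≤ 2 * n + 2 * k → ¬ f (6 * k + 1) (c + 2) x (2 * n + 2)
  p3 : ∀ x : ℕ, 2 * n + 10 ≤ x → x + 6 ≤ 2 * n + 2 * k → ¬ f (6 * k + 3) (c + 2) x (2 * n + 3)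
  r1 : f (6 * k + 2) c (2 * n + 1) (2 * n + 6 - 2 * k) → f (6 * k + 2) c (2 * n + 1) (2 * n - 4)

namespace CX

variable {k c n : ℕ}

/-- the pairs of `6 k + 2` in the row `c` -/
theorem K2 (hf : Rule f) (A : CX f k c n) {x y : ℕ} (hx : 2 * n + 3 ≤ x) (ho : x % 2 = 1) (hy : y % 2 = 0)
    (h1 : x + 5 ≤ y + 2 * k) (h2 : y + 4 ≤ x) : f (6 * k + 2) c x y ∨ f (6 * k + 2) c (x + 2) (y + 2) := by
  have H := A.H
  have hk := H.T.hk
  have hN := H.T.hN2
  obtain ⟨y0, hy0⟩ : ∃ y0, y0 + 2 * k = x + 5 := ⟨x + 5 - 2 * k, by omega⟩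
  rcases k0_pair hf H (by omega) ho hy0 with h | h
  · exact Or.inl (run2' hf H.T ho (by omega) (by omega) (by omega) h y (by omega) h2 hy)
  · exact Or.inr (run2' hf H.T (by omega) (by omega) (by omega) (by omega) h (y + 2) (by omega) (by omega) (by omega))

/-- the pairs of `6 k + 4` in the row `c - 2` -/
theorem K4 (hf : Rule f) (A : CX f k c n) {x y : ℕ} (hx : 2 * n ≤ x + 3) (ho : x % 2 = 1) (hy : y % 2 = 0)
    (h1 : x + 5 ≤ y + 2 * k) (h2 : y + 1 ≤ x) :
    f (6 * k + 4) (c - 2) x y ∨ f (6 * k + 4) (c - 2) (x + 2) (y + 2) := by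
  have H := A.H
  have hk := H.T.hk
  have hN := H.T.hN2
  have hb := H.T.hb
  obtain ⟨y0, hy0⟩ : ∃ y0, y0 + 2 * k = x + 5 := ⟨x + 5 - 2 * k, by omega⟩
  rcases K0L4.k0_L4 hf H.T H.U H.c4a H.c6a H.c6 H.c8a H.c8 (R := c - 2) (by omega) hx ho hy0 with h | h
  · exact Or.inl (K0L4.run4 hf H.T H.c4a H.c6 ho (by omega) (by omega) (by omega) h y (by omega) h2 hy)
  · exact Or.inr (K0L4.run4 hf H.T H.c4a H.c6 (by omega) (by omega) (by omega) (by omega) h (y + 2) (by omega) (by omega)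
      (by omega))

/-- no beam `2 n + 1` of `6 k` in the row `c` -/
theorem nb0 (hf : Rule f) (A : CX f k c n) : ¬ f (6 * k) c (2 * n + 1) (2 * n + 6 - 2 * k) := by
  intro h
  have H := A.H
  have hk := H.T.hk
  have hN := H.T.hN2
  have hr := n1_run hf H A.D0 h
  have h6 := hr (2 * n - 6) (by omega) (by omega) (by omega)
  have h4 := hr (2 * n - 4) (by omega) (by omega) (by omega)
  rcases A.K0 (2 * n - 3) (2 * n - 10) (by omega) (by omega) (by omega) (by omega) (by omega) with a | a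
  · have a' := TipK0.run0 hf H.T (by omega) (by omega) (by omega) (by omega) a (2 * n - 8) (by omega) (by omega) (by omega)
    rcases A.K2 hf (x := 2 * n + 3) (y := 2 * n - 4) le_rfl (by omega) (by omega) (by omega) (by omega) with g | g
    · have g' := run2' hf H.T (by omega) (by omega) (by omega) (by omega) g (2 * n - 2) (by omega) (by omega) (by omega)
      exact n1_00 hf H A.D0 A.D0a h6 h4 a' a g' g
    · have g' := run2' hf H.T (by omega) (by omega) (by omega) (by omega) g (2 * n) (by omega) (by omega) (by omega)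
      exact n1_01 hf H A.D0 A.D0a h6 h4 a' a (mv g' rfl rfl (by omega) rfl) (mv g rfl rfl (by omega) (by omega))
  · have a' := TipK0.run0 hf H.T (by omega) (by omega) (by omega) (by omega) a (2 * n - 6) (by omega) (by omega) (by omega)
    have b' : f (6 * k) (c - 2) (2 * n - 1) (2 * n - 6) := mv a' rfl rfl (by omega) rfl
    have b : f (6 * k) (c - 2) (2 * n - 1) (2 * n - 8) := mv a rfl rfl (by omega) (by omega)
    rcases A.K2 hf (x := 2 * n + 3) (y := 2 * n - 4) le_rfl (by omega) (by omega) (by omega) (by omega) with g | g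
    · have g' := run2' hf H.T (by omega) (by omega) (by omega) (by omega) g (2 * n - 2) (by omega) (by omega) (by omega)
      exact n1_10 hf H A.D0 A.D0a h6 h4 b' b g' g
    · have g' := run2' hf H.T (by omega) (by omega) (by omega) (by omega) g (2 * n) (by omega) (by omega) (by omega)
      exact n1_11 hf H A.D0 A.D0a h6 h4 b' b (mv g' rfl rfl (by omega) rfl) (mv g rfl rfl (by omega) (by omega))

end CX

/-- **The E-cell** for `X = 2 n + 2` (`c`, `n` the cycle of the cell, `c + 4`, `n' = n + (k + 2)` the next one), from the two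
wall windows of the next cycle. -/
theorem ecell2_aux (hf : Rule f) {k c n n' : ℕ} (A : CX f k c n) (hn : n' = n + (k + 2)) (B : CX f k (c + 4) n')
    (w2 : f (6 * k) (c + 4 - 4) (2 * n' - 10) (2 * n' - 2 * k - 5) → ¬ f (6 * k) (c + 4 - 4) (2 * n' - 8) (2 * n' - 2 * k - 3) →
      ¬ f (6 * k) (c + 4) (2 * n' - 8) (2 * n' - 2 * k - 1) → ¬ f (6 * k) (c + 4) (2 * n' + 1) (2 * n' + 6 - 2 * k) →
      f (6 * k + 2) (c + 4 - 2) (2 * n' - 4) (2 * n' - 2 * k + 1) →
      f (6 * k) (c + 4 - 4) (2 * n' - 12) (2 * n' - 2 * k - 7) ∧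
        ¬ f (6 * k + 2) (c + 4 - 2) (2 * n' - 10) (2 * n' - 2 * k - 1)) :
    ¬ f (6 * k + 1) c (2 * n + 2) (2 * n + 4 - 2 * k) := by
  intro he
  have H := A.H
  have T := H.T
  have hk := T.hk
  have hc := T.hc
  have h4 := T.h4
  have hb := T.hb
  have hN := T.hN2
  have D0 : Cyc f (6 * k) (c - 2) (2 * n + 2 - 2) := cyc_mv A.D0 rfl rfl (by omega)
  have D0a : Cyc f (6 * k) (c - 6) (2 * n + 2 - 6 - 2 * k) := cyc_mv A.D0a rfl rfl (by omega)
  have e : f (6 * k + 1) c (2 * n + 2) (2 * n + 2 + 2 - 2 * k) := mv he rfl rfl rfl (by omega)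
  have lw : ∀ M R x y : ℕ, M + 1 = 6 * k → c ≤ R + 12 → R ≤ c + 12 → 2 * n ≤ x → y ≤ x → x ≤ y + 4 * k → ¬ f M R x y :=
    fun M R x y a1 a2 a3 a4 a5 a6 => H.lw M R x y a1 a2 a3 (by omega) a5 a6
  -- the wall at `X`
  have w1a := x2_w1a hf H (X := 2 * n + 2) le_rfl (by omega) D0 D0a e
  have w1b := x2_w1b hf H (X := 2 * n + 2) le_rfl (by omega) D0 D0a A.C4a e
  -- near the diagonal
  have z1 : ¬ f (6 * k) (c - 2) (2 * n - 1) (2 * n - 6) := fun t =>
    w1a (mv (down0 hf H (x := 2 * n - 1) (y0 := 2 * n + 4 - 2 * k) (by omega) (by omega) (by omega) (by omega) (by omega)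
      (by omega) (by omega) t) rfl rfl (by omega) (by omega))
  have l3 : f (6 * k) (c - 2) (2 * n - 3) (2 * n - 8) := by
    rcases A.K0 (2 * n - 3) (2 * n - 8) (by omega) (by omega) (by omega) (by omega) (by omega) with h | h
    · exact h
    · exact absurd (mv h rfl rfl (by omega) (by omega)) z1
  have l2 : f (6 * k + 2) c (2 * n + 3) (2 * n - 2) :=
    run2' hf T (x := 2 * n + 3) (y0 := 2 * n + 8 - 2 * k) (by omega) (by omega) (by omega) (by omega)
      (mv w1b rfl rfl (by omega) (by omega)) (2 * n - 2) (by omega) (by omega) (by omega)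
  -- D1a
  have y1 : f (6 * k) c (2 * n + 4) (2 * n - 1) := by
    by_contra hg
    exact d1a hf H A.D0 A.D0a l3 l2 z1 hg
  have g1 : f (6 * k) (c + 4 - 4) (2 * n' - 10) (2 * n' - 2 * k - 5) :=
    mv (E1m4.T_c hf T (x0 := 2 * n + 4) (x := 2 * n + 2 * k - 6) (y := 2 * n - 1) (by omega) (by omega) (by omega) (by omega)
      (by omega) (by omega) (by omega) y1) rfl (by omega) (by omega) (by omega)
  -- D1b
  have g2 : ¬ f (6 * k) (c + 4 - 4) (2 * n' - 8) (2 * n' - 2 * k - 3) := fun t =>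
    d1b hf H A.D0 A.D0a l3 l2 (left0 hf H (x0 := 2 * n + 2 * k - 4) (x := 2 * n + 6) (y := 2 * n + 1) (by omega) (by omega)
      (by omega) (by omega) (by omega) (by omega) (by omega) (mv t rfl (by omega) (by omega) (by omega))) z1
  -- D1c
  have g3 : ¬ f (6 * k) (c + 4) (2 * n' - 8) (2 * n' - 2 * k - 1) := fun t =>
    d1c hf H A.D0 A.D0a l3 l2 (left4 hf T lw A.p1 (x0 := 2 * n + 2 * k - 4) (x := 2 * n + 10) (by omega) (by omega)
      (by omega) (by omega) (by omega) (mv t rfl rfl (by omega) (by omega))) z1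
  -- N1
  have g4 := B.nb0 hf
  -- D2
  have y5 : f (6 * k + 2) (c + 2) (2 * n + 10) (2 * n + 5) := by
    by_contra hg
    rcases A.K4 hf (x := 2 * n - 1) (y := 2 * n - 6) (by omega) (by omega) (by omega) (by omega) (by omega) with h | h <;>
    rcases A.K6 (2 * n + 5) (2 * n) (by omega) (by omega) (by omega) (by omega) (by omega) with g | g
    · exact d2_00 hf H A.D0 A.D0a l2 h g hg
    · exact d2_01 hf H A.D0 A.D0a l2 h (mv g rfl rfl (by omega) rfl) hg
    · exact d2_10 hf H A.D0 A.D0a l2 (mv h rfl rfl (by omega) (by omega)) g hg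
    · exact d2_11 hf H A.D0 A.D0a l2 (mv h rfl rfl (by omega) (by omega)) (mv g rfl rfl (by omega) rfl) hg
  have g5 : f (6 * k + 2) (c + 4 - 2) (2 * n' - 4) (2 * n' - 2 * k + 1) := by
    have h := E1m4.row_run hf (x1 := 2 * n + 2 * k) (by omega) (by omega) (by omega) (by omega)
      (fun z h5 h6 h7 => T.c2 hf (L := 6 * k + 2) (j := 4) (y := 2 * n + 5) (by omega) (by omega) (by omega) (by omega)
        (by omega) (by omega)) y5 (2 * n + 2 * k) (by omega) le_rfl (by omega)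
    exact mv h rfl (by omega) (by omega) (by omega)
  -- the wall of the next cycle
  obtain ⟨v1, v2⟩ := w2 g1 g2 g3 g4 g5
  -- D3
  have y3 : f (6 * k) c (2 * n + 2) (2 * n - 3) :=
    left0 hf H (x0 := 2 * n + 2 * k - 8) (x := 2 * n + 2) (y := 2 * n - 3) (by omega) (by omega)
      (by omega) (by omega) (by omega) (by omega) (by omega) (mv v1 rfl (by omega) (by omega) (by omega))
  have x5 : f (6 * k) (c - 2) (2 * n - 5) (2 * n - 10) := by
    by_contra hg
    exact d3 hf H A.D0 A.D0a y3 hg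
  have x5' : f (6 * k) (c - 2) (2 * n - 5) (2 * n - 2 * k) :=
    down0 hf H (x := 2 * n - 5) (y0 := 2 * n - 2 * k) (y := 2 * n - 10) (by omega) (by omega) (by omega) (by omega) (by omega)
      (by omega) (by omega) x5
  -- D4
  have y3' : ¬ f (6 * k + 2) (c + 2) (2 * n + 10) (2 * n + 3) := fun t =>
    v2 (mv (right2 hf T A.p3 (x0 := 2 * n + 10) (x := 2 * n + 2 * k - 6) (by omega) (by omega) (by omega) (by omega) (by omega)
      t) rfl (by omega) (by omega) (by omega))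
  have x1 : ¬ f (6 * k + 2) c (2 * n + 1) (2 * n - 4) := by
    intro t
    rcases A.K4 hf (x := 2 * n - 3) (y := 2 * n - 8) (by omega) (by omega) (by omega) (by omega) (by omega) with h | h <;>
    rcases A.K6 (2 * n + 3) (2 * n - 2) (by omega) (by omega) (by omega) (by omega) (by omega) with g | g
    · exact d4_00 hf H A.D0 A.D0a A.C2 l3 l2 t h g z1 y3'
    · exact d4_01 hf H A.D0 A.D0a A.C2 l3 l2 t h (mv g rfl rfl (by omega) (by omega)) z1 y3'
    · exact d4_10 hf H A.D0 A.D0a A.C2 l3 l2 t (mv h rfl rfl (by omega) (by omega)) g z1 y3'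
    · exact d4_11 hf H A.D0 A.D0a A.C2 l3 l2 t (mv h rfl rfl (by omega) (by omega)) (mv g rfl rfl (by omega) (by omega)) z1 y3'
  -- the wall at `X` again
  exact x2_w3 hf H (X := 2 * n + 2) le_rfl (by omega) D0 D0a e A.C4a (mv x5' rfl rfl (by omega) (by omega))
    (fun t => x1 (A.r1 (mv t rfl rfl (by omega) (by omega))))

end Pool.Agent.SNT.L0X

namespace Pool.Agent.SNT.L0X

open Pool.Agent.SNT Pool.Agent.SNT.Sig Pool.Agent.SNT.Loc Pool.Agent.SNT.LW Pool.Agent.SNT.NHZ Pool.Agent.SNT.DRun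
open Pool.Agent.SNT.D1E Pool.Agent.SNT.L0E Pool.Agent.SNT.PB Pool.Agent.SNT.D1

variable {f : ℕ → ℕ → ℕ → ℕ → Prop}

/-- the facts of a cycle with the lead `n` are the facts with the lead `n + 1` -/
theorem pl_succ {k c n : ℕ} (H : PL f k c n (n - 4)) : PL f k c (n + 1) (n + 1 - 4) where
  T := W4.nht_mono H.T (by omega) (by omega)
  U := K0D.nhu_mono H.U (by omega) (by omega)
  hM := by have := H.T.hN2; omega
  hM' := by omega
  c0 := H.c0.mono' (by omega)
  c0a := H.c0a.mono' (by omega)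
  c2 := H.c2.mono' (by omega)
  c2a := H.c2a.mono' (by omega)
  c4 := H.c4.mono' (by omega)
  c4a := H.c4a.mono' (by omega)
  c4b := H.c4b.mono' (by omega)
  c6 := H.c6.mono' (by omega)
  c6a := H.c6a.mono' (by omega)
  c8 := H.c8.mono (by omega)
  c8a := H.c8a.mono (by omega)
  c10 := H.c10.mono (by omega)
  c10a := H.c10a.mono (by omega)
  lw := fun M' R x y a1 a2 a3 a4 a5 a6 => H.lw M' R x y a1 a2 a3 (by omega) a5 a6

/-- the facts of the cycle `j + 1`, for `v = k - 4 - u`, `u ≤ 1` -/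
theorem CX.of (hf : Rule f) {k b m v u : ℕ} (S : StackA f k b m 0 0 0 0 0 1) (q4 : Q4 f k b m 0 0)
    (q2 : Q2 f k b m 0 0) (qd : QD f k b m 0 v) (hv : v + 4 + u = k) (hu : u ≤ 1) (j : ℕ) {c n : ℕ}
    (hc : c = b + 4 * j + 26) (hn : n = nn k m (j + 1) + u) : CX f k c n := by
  have S1 := S.shift (j + 1)
  have hs := S1.side
  have e0 : nn k m (j + 1) = m + (k + 2) * (j + 1) + 9 + (k + 2) * 4 := rfl
  have e1 : nn k m (j + 1) = nn k m j + (k + 2) := by
    unfold nn
    ring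
  have e2 : nn k m (j + 2) = nn k m j + (k + 2) + (k + 2) := by
    unfold nn
    ring
  have H0 := pl_of S q4 q2 qd (j + 1) (c := c) (n := nn k m (j + 1)) (by omega) rfl
  have hk := H0.T.hk
  have hc' := H0.T.hc
  have hb := H0.T.hb
  have hN := H0.T.hN2
  have H : PL f k c n (n - 4) := by
    rcases Nat.eq_zero_or_pos u with hu0 | hu0
    · subst hu0 hn
      exact H0
    · have e : n = nn k m (j + 1) + 1 := by omega
      subst e
      exact pl_succ H0
  have d0 : Cyc f (6 * k) (b + 4 * (j + 1) + 16) (2 * (nn k m (j + 1) - 7) + 2) := (qd (j + 1) (by omega)).mono' (by omega)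
  have d2 : Cyc f (6 * k + 2) (b + 4 * (j + 1) + 18) (2 * (nn k m (j + 1) - 5) + 2) :=
    cyc_of_eq (q2 (j + 1) (by omega)) (by omega) (by omega)
  have d4 : Cyc f (6 * k + 4) (b + 4 * (j + 1) + 20) (2 * (nn k m (j + 1) + 1) + 2) :=
    cyc_of_eq (q4 (j + 1) (by omega)) (by omega) (by omega)
  have hK0 : ∀ x y : ℕ, 2 * n ≤ x + 3 → x % 2 = 1 → y % 2 = 0 → x + 5 ≤ y + 2 * k → y + 5 ≤ x →
      f (6 * k) (c - 2) x y ∨ f (6 * k) (c - 2) (x + 2) (y + 2) := by
    intro x y h1 h2 h3 h4 h5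
    have h := TipK0.k0_line hf hs S1.stack e0 d0 (d2.mono' (by omega)) d4 (x := x) (y := y) (by omega) h2 h3 h4 h5
    have e5 : b + 4 * (j + 1) + 20 = c - 2 := by omega
    rwa [e5] at h
  have hK6 : ∀ x y : ℕ, 2 * n + 3 ≤ x → x % 2 = 1 → y % 2 = 0 → x + 3 ≤ y + 2 * k → y + 1 ≤ x →
      f (6 * k + 6) c x y ∨ f (6 * k + 6) c (x + 2) (y + 2) := by
    intro x y h1 h2 h3 h4 h5
    have h := TipK0.k6_line hf hs S1.stack e0 (x := x) (y := y) (by omega) h2 h3 h4 h5
    have e5 : b + 4 * (j + 1) + 22 = c := by omega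
    rwa [e5] at h
  have Z : Zb.ZBH f k c (nn k m (j + 1)) := by
    have h := E1m4.zbh_stack hf hs S1.stack e0 (d0.mono' (by omega)) (d2.mono' (by omega)) d4
    have e5 : b + 4 * (j + 1) + 22 = c := by omega
    rwa [e5] at h
  have D4a : Cyc f (6 * k + 4) (c - 6) (2 * (nn k m (j + 1) - (k + 1)) + 2) :=
    cyc_of_eq (q4 j (by omega)) (by omega) (by omega)
  refine ⟨H, cyc_of_eq (qd (j + 2) (by omega)) (by omega) (by omega), cyc_of_eq (qd (j + 1) (by omega)) (by omega) (by omega),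
    (cyc_of_eq d2 (by omega) rfl : Cyc f (6 * k + 2) (c - 4) _).mono' (by omega), D4a.mono' (by omega), hK0, hK6, ?_, ?_, ?_⟩
  · intro x h1 h2
    rcases Nat.eq_zero_or_pos u with hu0 | hu0
    · subst hu0 hn
      exact Z.p1_2 hf h1 h2
    · exact H0.T.p2 hf (j := 4) (by omega) (by omega) (Or.inr rfl) (by omega) (by omega) (by omega)
  · intro x h1 h2
    rcases Nat.eq_zero_or_pos u with hu0 | hu0
    · subst hu0 hn
      exact Z.p3_3' hf h1 h2
    · exact H0.T.p2 hf (j := 3) (by omega) (by omega) (Or.inr rfl) (by omega) (by omega) (by omega)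
  · intro h
    rcases Nat.eq_zero_or_pos u with hu0 | hu0
    · subst hu0 hn
      have hp := TipK0.p1_2n hf hs S1.stack e0 (d2.mono' (by omega)) d4 (cyc_of_eq (q4 j (by omega)) (by omega) (by omega))
      have P := PV.PV.of_stack hs S1.stack e0 (d0.mono' (by omega)) (d2.mono' (by omega)) d4
      have e5 : b + 4 * (j + 1) + 22 = c := by omega
      rw [e5] at hp P
      exact TipK0.run1_all hf P hp (y0 := 2 * nn k m (j + 1) + 6 - 2 * k) (by omega) h _ (by omega) (by omega) (by omega)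
    · have h' := run2' hf H0.T (x := 2 * n + 1) (y0 := 2 * n + 6 - 2 * k) (by omega) (by omega) (by omega) (by omega) h
        (2 * n - 4) (by omega) (by omega) (by omega)
      exact h'

end Pool.Agent.SNT.L0X
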