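import Pool.Agent.SNT.L0XC
import Pool.Agent.SNT.L0W2z
import Pool.Agent.SNT.L0WX4
import Pool.Agent.SNT.NbL

set_option autoImplicit false
set_option linter.unusedVariables false

/-! The E-cell of the road L0 at the special positions `X' = 2` (`v = k - 4`) and `X' = 4` (`v = k - 5`) (helper26, helper28,
helper82, helper89). -/

namespace Pool.Agent.SNT.D1

open Pool.Agent.SNT Pool.Agent.SNT.Sig Pool.Agent.SNT.Loc Pool.Agent.SNT.LW Pool.Agent.SNT.NHZ Pool.Agent.SNT.DRun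
open Pool.Agent.SNT.D1E Pool.Agent.SNT.L0E Pool.Agent.SNT.PB Pool.Agent.SNT.L0X

variable {f : ℕ → ℕ → ℕ → ℕ → Prop} {k b m v : ℕ}

/-- the windows of all cycles -/
theorem stackW_of (S : StackA f k b m 0 0 0 0 0 1) (q4 : Q4 f k b m 0 0) (q2 : Q2 f k b m 0 0) (qd : QD f k b m 0 v) :
    StackW f k b m := fun j => win_of S q4 q2 qd j

/-- **The E-cell** (`d = 2 k - 2`) of the column of the step `v = k - 4` of the road L0. -/
theorem ecell2 (hf : Rule f) (S : StackA f k b m 0 0 0 0 0 1) (q4 : Q4 f k b m 0 0) (q2 : Q2 f k b m 0 0)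
    (qd : QD f k b m 0 v) (hv : v + 4 = k) {x y : ℕ} (hx : x + 10 + 2 * v = 2 * nn k m 4) (hy : y + 2 * k = x + 2) :
    ¬ f (6 * k + 1) (b + 4 * 4 + 18) x y := by
  have A := CX.of hf S q4 q2 qd (u := 0) (by omega) (by omega) 2 (c := b + 4 * 2 + 26) (n := nn k m 3) rfl rfl
  have B := CX.of hf S q4 q2 qd (u := 0) (by omega) (by omega) 3 (c := b + 4 * 2 + 26 + 4) (n := nn k m 4) (by omega) rfl
  have e4 : nn k m 4 = nn k m 3 + (k + 2) := by
    unfold nn
    ring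
  have hk := A.H.T.hk
  have hb := A.H.T.hb
  have hN := A.H.T.hN2
  have hN' := B.H.T.hN2
  have W := stackW_of S q4 q2 qd
  have I : LineR0.In f (6 * k) (b + 4 * 2 + 26 + 4) (nn k m 4) (nn k m 4 + 2 - k) (nn k m 4 - 5) (nn k m 4 - 4) := by
    have h := W.inp hf 3
    have e : b + 4 * (3 + 1) + 22 = b + 4 * 2 + 26 + 4 := by omega
    rwa [e] at h
  have xc : ¬ f (6 * k + 4) (b + 4 * 2 + 26 + 4) (2 * nn k m 4 + 3) (2 * nn k m 4 + 8 - 2 * k) := by
    have h := NbL.nb_stack hf W 3 (y := 2 * nn k m (3 + 1) + 8 - 2 * k) (by omega) (by omega) (by omega)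
    have e : b + 4 * (3 + 1) + 22 = b + 4 * 2 + 26 + 4 := by omega
    rwa [e] at h
  have z1 := L0W2.z1_of hf (c := b + 4 * 2 + 26 + 4) (T1 := A.H.T) (by omega) e4
  have C0 : Cyc f (6 * k) (b + 4 * 2 + 26 + 4 - 6) (2 * nn k m 3) := cyc_mv A.D0 rfl (by omega) rfl
  intro h
  refine ecell2_aux hf A e4 B (fun g1 g2 g3 g4 g5 => ⟨?_, ?_⟩) (mv h rfl (by omega) (by omega) (by omega))
  · exact L0W2.w2a hf B.H e4 C0 I g1 g2 g3 g4 z1
  · exact L0W2.w2b hf B.H e4 C0 B.C2 I g1 g2 g3 g4 g5 xc z1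

/-- **The E-cell** (`d = 2 k - 2`) of the column of the step `v = k - 5` of the road L0. -/
theorem ecell4 (hf : Rule f) (S : StackA f k b m 0 0 0 0 0 1) (q4 : Q4 f k b m 0 0) (q2 : Q2 f k b m 0 0)
    (qd : QD f k b m 0 v) (hv : v + 5 = k) {x y : ℕ} (hx : x + 10 + 2 * v = 2 * nn k m 4) (hy : y + 2 * k = x + 2) :
    ¬ f (6 * k + 1) (b + 4 * 4 + 18) x y := by
  have A := CX.of hf S q4 q2 qd (u := 1) (by omega) (by omega) 2 (c := b + 4 * 2 + 26) (n := nn k m 3 + 1) rfl rfl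
  have B := CX.of hf S q4 q2 qd (u := 1) (by omega) (by omega) 3 (c := b + 4 * 2 + 26 + 4) (n := nn k m 4 + 1) (by omega) rfl
  have H := pl_of S q4 q2 qd 4 (c := b + 4 * 2 + 26 + 4) (n := nn k m 4) (by omega) rfl
  have e4 : nn k m 4 = nn k m 3 + (k + 2) := by
    unfold nn
    ring
  have hk := A.H.T.hk
  have hb := A.H.T.hb
  have hN := A.H.T.hN2
  have hN' := H.T.hN2
  have D4a : Cyc f (6 * k + 4) (b + 4 * 2 + 26 + 4 - 6) (2 * (nn k m 4 - (k + 1)) + 2) :=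
    cyc_of_eq (q4 3 (by omega)) (by omega) (by omega)
  intro h
  refine ecell2_aux hf A (by omega) B (fun g1 g2 g3 g4 g5 => ?_) (mv h rfl (by omega) (by omega) (by omega))
  exfalso
  refine w4_aux hf (X := 2 * nn k m 4) H le_rfl le_rfl (by omega) (cyc_mv B.D0 rfl (by omega) (by omega))
    (cyc_mv B.D0a rfl (by omega) (by omega)) D4a ?_ ?_ ?_ ?_
  · intro L R x' y' a1 a2 a3 a4
    exact mv g5 (by omega) (by omega) (by omega) (by omega)
  · intro L R x' y' a1 a2 a3 a4 t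
    exact g2 (mv t (by omega) (by omega) (by omega) (by omega))
  · intro L R x' y' a1 a2 a3 a4 t
    exact g3 (mv t (by omega) (by omega) (by omega) (by omega))
  · intro L R x' y' a1 a2 a3 a4 t
    exact g4 (mv t (by omega) (by omega) (by omega) (by omega))

/-- **The column of the road L0** for `v + 4 ≤ k` needs no hypothesis but the cells of `ecell6`. -/
theorem ecell_24 (hf : Rule f) (S : StackA f k b m 0 0 0 0 0 1) (q4 : Q4 f k b m 0 0) (q2 : Q2 f k b m 0 0)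
    (qd : QD f k b m 0 v) (h1 : v + 4 ≤ k) (h2 : k ≤ v + 5) {x y : ℕ} (hx : x + 10 + 2 * v = 2 * nn k m 4)
    (hy : y + 2 * k = x + 2) : ¬ f (6 * k + 1) (b + 4 * 4 + 18) x y := by
  rcases Nat.eq_or_lt_of_le h1 with h | h
  · exact ecell2 hf S q4 q2 qd h hx hy
  · exact ecell4 hf S q4 q2 qd (by omega) hx hy

end Pool.Agent.SNT.D1
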