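import Pool.Agent.SNT.L0EAsm
import Pool.Agent.SNT.TipK0
import Pool.Agent.SNT.E1m4RunD

set_option autoImplicit false
set_option linter.unusedVariables false

/-! The E-cell of the road L0 at the special positions `X' = 2` and `X' = 4`: the runs. -/

namespace Pool.Agent.SNT.L0X

open Pool.Agent.SNT Pool.Agent.SNT.Sig Pool.Agent.SNT.Loc Pool.Agent.SNT.LW Pool.Agent.SNT.NHZ Pool.Agent.SNT.DRun Pool.Agent.SNT.D1E

variable {f : ℕ → ℕ → ℕ → ℕ → Prop}

/-- one step down in a column -/
theorem down_step (hf : Rule f) {L R x y : ℕ} (hx : x % 2 = 1) (h0 : f L R x (y + 2))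
    (hlow : ∀ L' R' x' y' : ℕ, L' + 1 = L → R' ≤ R → R ≤ R' + 1 → x' ≤ x → x ≤ x' + 1 → y ≤ y' → y' ≤ y + 1 →
      ¬ f L' R' x' y')
    (hz : ∀ R' x' : ℕ, R' + 1 = R → x' ≤ x → x ≤ x' + 1 → ¬ f L R' x' y)
    (hm : ¬ f L R (x - 1) y) : f L R x y := by
  by_contra hn
  have k1 : ¬ f L R x (y + 1) := fun h => kill hf h 0 0 0 1 (by omega) (by omega) (by omega) le_rfl (by omega) h0
  obtain ⟨p, q, r, s, hp, hq, hr, hs, h5, hpa, hqb, hrx, hsy, h6⟩ := pred hf k1 (by omega)
  rcases Nat.eq_zero_or_pos p with hp0 | hp0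
  · subst hp0
    rcases Nat.eq_zero_or_pos s with hs0 | hs0
    · subst hs0
      refine kill hf h6 0 q r 1 (by omega) hq hr le_rfl (by omega) ?_
      have e1 : L - 0 + 0 = L := by omega
      have e2 : R - q + q = R := by omega
      have e3 : x - r + r = x := by omega
      have e4 : y + 1 - 0 + 1 = y + 2 := by omega
      rw [e1, e2, e3, e4]
      exact h0
    · have es : s = 1 := by omega
      subst es
      have e4 : y + 1 - 1 = y := by omega
      rw [e4, Nat.sub_zero] at h6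
      rcases Nat.eq_zero_or_pos q with hq0 | hq0
      · subst hq0
        rw [Nat.sub_zero] at h6
        rcases Nat.eq_zero_or_pos r with hr0 | hr0
        · subst hr0
          exact hn h6
        · have er : r = 1 := by omega
          subst er
          exact hm h6
      · exact hz (R - q) (x - r) (by omega) (by omega) (by omega) h6
  · exact hlow (L - p) (R - q) (x - r) (y + 1 - s) (by omega) (by omega) (by omega) (by omega) (by omega) (by omega)
      (by omega) h6

/-- the run downwards in a column: a one at the top gives ones below -/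
theorem down_run (hf : Rule f) {L R x y0 y1 : ℕ} (hL : L % 2 = 0) (hR : R % 2 = 0) (hx : x % 2 = 1) (hy : y1 % 2 = 0)
    (hlow : ∀ L' R' x' y' : ℕ, L' + 1 = L → R' ≤ R → R ≤ R' + 1 → x' ≤ x → x ≤ x' + 1 → y0 ≤ y' → y' + 1 ≤ y1 →
      ¬ f L' R' x' y')
    (hz : ∀ R' x' y' : ℕ, R' + 1 = R → x' ≤ x → x ≤ x' + 1 → y0 ≤ y' → y' + 2 ≤ y1 → y' % 2 = 0 → ¬ f L R' x' y')
    (h0 : f L R x y1) : ∀ y, y0 ≤ y → y ≤ y1 → y % 2 = 0 → f L R x y := by
  have key : ∀ j y, y + 2 * j = y1 → y0 ≤ y → f L R x y := by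
    intro j
    induction j with
    | zero =>
      intro y h1 h2
      have e : y = y1 := by omega
      subst e
      exact h0
    | succ j ih =>
      intro y h1 h2
      exact down_step hf hx (ih (y + 2) (by omega) (by omega))
        (fun L' R' x' y' a1 a2 a3 a4 a5 a6 a7 => hlow L' R' x' y' a1 a2 a3 a4 a5 (by omega) (by omega))
        (fun R' x' a1 a2 a3 => hz R' x' y a1 a2 a3 h2 (by omega) (by omega))
        (even_zero hf hL hR (by omega) (by omega))
  intro y h1 h2 h3
  exact key ((y1 - y) / 2) y (by omega) h1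

/-- the run downwards in the IN row `c - 2` of `6 k` -/
theorem down0 (hf : Rule f) {k c n M x y0 y : ℕ} (H : PL f k c n M) (hx : x % 2 = 1) (hX : 2 * n ≤ x + 6)
    (hy0 : y0 % 2 = 0) (hy : y % 2 = 0) (hw : x + 5 ≤ y0 + 2 * k) (hle : y0 ≤ y) (h5 : y + 5 ≤ x)
    (h : f (6 * k) (c - 2) x y) : f (6 * k) (c - 2) x y0 := by
  have T := H.T
  have hk := T.hk
  have hc := T.hc
  have hb := T.hb
  have hN := T.hN2
  refine down_run hf (y0 := y0) (y1 := y) (by omega) (by omega) hx hy ?_ ?_ h y0 le_rfl hle hy0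
  · intro L' R' x' y' a1 a2 a3 a4 a5 a6 a7
    exact H.lw _ _ _ _ a1 (by omega) (by omega) (by omega) (by omega) (by omega)
  · intro R' x' y' a1 a2 a3 a4 a5 a6
    exact T.rIn hf (t := 3) (j := 3) (p := 0) (by omega) (by omega) (by omega) (by omega) (by omega) (by omega) (by omega)
      (by omega)

/-- the run to the left in the OUT row `c` of `6 k`, `2 n ≤ x + 3` -/
theorem left0 (hf : Rule f) {k c n M x0 x y : ℕ} (H : PL f k c n M) (hy : y % 2 = 1) (hX : 2 * n ≤ x + 3)
    (hx0 : x0 % 2 = 0) (hx : x % 2 = 0) (hw : x0 + 5 ≤ y + 2 * k) (hle : x ≤ x0) (h5 : y + 5 ≤ x)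
    (h : f (6 * k) c x0 y) : f (6 * k) c x y := by
  have T := H.T
  have hk := T.hk
  have hc := T.hc
  have hb := T.hb
  have hN := T.hN2
  refine L0E.left_run hf (x0 := x) (x1 := x0) (by omega) hc hx0 hy ?_ ?_ h x le_rfl hle hx
  · intro L' R' x' y' a1 a2 a3 a4 a5 a6 a7
    exact H.lw _ _ _ _ a1 (by omega) (by omega) (by omega) (by omega) (by omega)
  · intro R' x' y' a1 a2 a3 a4 a5 a6
    have e : R' = c - 1 := by omega
    subst e
    exact T.rm1i hf (j := 4) (p := 0) (by omega) (by omega) (by omega) (by omega) (by omega) (by omega)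

/-- the row `c + 3` of the layer `6 k` at the lines `2 n + 2`, `2 n + 3` -/
theorem z33 (hf : Rule f) {k c n : ℕ} (T : NHT f k c (2 * n))
    (lw : ∀ M R x y : ℕ, M + 1 = 6 * k → c ≤ R + 12 → R ≤ c + 12 → 2 * n ≤ x → y ≤ x → x ≤ y + 4 * k → ¬ f M R x y)
    (p1 : ∀ x : ℕ, 2 * n + 9 ≤ x → x + 6 ≤ 2 * n + 2 * k → ¬ f (6 * k + 1) (c + 2) x (2 * n + 2)) {x y : ℕ}
    (hy : y = 2 * n + 2 ∨ y = 2 * n + 3) (h1 : 2 * n + 9 ≤ x) (h2 : x + 6 ≤ 2 * n + 2 * k) :
    ¬ f (6 * k) (c + 3) x y := by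
  have hc := T.hc
  have hk := T.hk
  have hN := T.hN2
  have hr : ∀ p x' y' : ℕ, p ≤ 1 → 2 * n ≤ y' + 1 → y' + 5 ≤ x' → x' + 6 ≤ y' + 2 * k →
      ¬ f (6 * k - p) (c + 1) x' y' := by
    intro p x' y' hp a1 a2 a3
    rcases Nat.eq_zero_or_pos p with hp0 | hp0
    · subst hp0
      exact T.r1 hf (L := 6 * k) (p := 0) (j := 4) le_rfl (by omega) (by omega) (by omega) (by omega) (by omega)
    · have ep : p = 1 := by omega
      subst ep
      exact lw _ _ _ _ (by omega) (by omega) (by omega) (by omega) (by omega) (by omega)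
  have hlw : ∀ R x' y' : ℕ, c + 1 ≤ R → R ≤ c + 2 → 2 * n ≤ x' → y' ≤ x' → x' ≤ y' + 4 * k →
      ¬ f (6 * k - 1) R x' y' :=
    fun R x' y' a0 a0' a1 a2 a3 => lw _ _ _ _ (by omega) (by omega) (by omega) a1 a2 a3
  by_cases hxy : x % 2 = 0 ∧ y % 2 = 0
  · have ey : y = 2 * n + 2 := by omega
    subst ey
    intro h
    have h0 := p1 x h1 h2
    have := NHP.predr hf (L := 6 * k + 1) (R := c + 2) h0 (by omega) (fun p r s hp hr' hs' => by
      rw [show c + 2 - 1 = c + 1 by omega]
      rcases Nat.eq_zero_or_pos p with hp0 | hp0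
      · subst hp0
        exact T.r1 hf (L := 6 * k + 1) (p := 1) (j := 4) (by omega) (by omega) (by omega) (by omega) (by omega)
          (by omega)
      · have ep : p = 1 := by omega
        subst ep
        rw [Nat.add_sub_cancel]
        exact hr 0 _ _ (by omega) (by omega) (by omega) (by omega))
    rw [show 6 * k + 1 - 1 = 6 * k by omega] at this
    rcases this with g | g | g | g | g | g | g
    · exact E1m4.e_only' hf (by omega) (fun q r s a1 a2 a3 => hlw _ _ _ (by omega) (by omega) (by omega) (by omega)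
        (by omega)) g
    · exact E1m4.e_only' hf (by omega) (fun q r s a1 a2 a3 => hlw _ _ _ (by omega) (by omega) (by omega) (by omega)
        (by omega)) g
    · exact E1m4.e_only' hf (by omega) (fun q r s a1 a2 a3 => hlw _ _ _ (by omega) (by omega) (by omega) (by omega)
        (by omega)) g
    · exact NHP.ev hf (by omega) (by omega) hxy.1 hxy.2 g
    · exact NHP.kl hf g le_rfl (by omega) (by omega) (by omega) (by omega) (by omega) le_rfl (by omega) (by omega) h
    · exact NHP.kl hf g le_rfl (by omega) (by omega) (by omega) le_rfl (by omega) (by omega) (by omega) (by omega) h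
    · exact NHP.kl hf g le_rfl (by omega) (by omega) (by omega) (by omega) (by omega) (by omega) (by omega) (by omega) h
  · intro h
    have k0 : ∀ r s : ℕ, r ≤ 1 → s ≤ 1 → ¬ f (6 * k) (c + 2) (x - r) (y - s) := fun r s hr' hs' g =>
      NHP.kl hf g le_rfl (by omega) (by omega) (by omega) (by omega) (by omega) (by omega) (by omega) (by omega) h
    have h0 := k0 0 0 (by omega) (by omega)
    rw [Nat.sub_zero, Nat.sub_zero] at h0
    have := NHP.predr hf (L := 6 * k) (R := c + 2) h0 (fun hh => hxy ⟨hh.2.2.1, hh.2.2.2⟩) (fun p r s hp hr' hs' => by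
      rw [show c + 2 - 1 = c + 1 by omega]
      exact hr p _ _ hp (by omega) (by omega) (by omega))
    have hl : ∀ x' y' : ℕ, 2 * n ≤ x' → y' ≤ x' → x' ≤ y' + 4 * k → ¬ f (6 * k - 1) (c + 2) x' y' :=
      fun x' y' a1 a2 a3 => lw _ _ _ _ (by omega) (by omega) (by omega) a1 a2 a3
    rcases this with g | g | g | g | g | g | g
    · have := k0 1 0 (by omega) (by omega)
      rw [Nat.sub_zero] at this
      exact this g
    · have := k0 0 1 (by omega) (by omega)
      rw [Nat.sub_zero] at this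
      exact this g
    · exact k0 1 1 (by omega) (by omega) g
    · exact hl _ _ (by omega) (by omega) (by omega) g
    · exact hl _ _ (by omega) (by omega) (by omega) g
    · exact hl _ _ (by omega) (by omega) (by omega) g
    · exact hl _ _ (by omega) (by omega) (by omega) g

/-- the run to the left in the line `2 n + 3` of `6 k`, row `c + 4`, from `d = 2 k - 7` on -/
theorem left4 (hf : Rule f) {k c n : ℕ} (T : NHT f k c (2 * n))
    (lw : ∀ M R x y : ℕ, M + 1 = 6 * k → c ≤ R + 12 → R ≤ c + 12 → 2 * n ≤ x → y ≤ x → x ≤ y + 4 * k → ¬ f M R x y)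
    (p1 : ∀ x : ℕ, 2 * n + 9 ≤ x → x + 6 ≤ 2 * n + 2 * k → ¬ f (6 * k + 1) (c + 2) x (2 * n + 2)) {x0 x : ℕ}
    (hx0 : x0 % 2 = 0) (hx : x % 2 = 0) (h1 : 2 * n + 10 ≤ x) (hle : x ≤ x0) (h2 : x0 + 4 ≤ 2 * n + 2 * k)
    (h : f (6 * k) (c + 4) x0 (2 * n + 3)) : f (6 * k) (c + 4) x (2 * n + 3) := by
  have hc := T.hc
  have hk := T.hk
  have hN := T.hN2
  refine L0E.left_run hf (x0 := x) (x1 := x0) (by omega) (by omega) hx0 (by omega) ?_ ?_ h x le_rfl hle hx
  · intro L' R' x' y' a1 a2 a3 a4 a5 a6 a7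
    exact lw _ _ _ _ a1 (by omega) (by omega) (by omega) (by omega) (by omega)
  · intro R' x' y' a1 a2 a3 a4 a5 a6
    have e : R' = c + 3 := by omega
    subst e
    exact z33 hf T lw p1 (by omega) (by omega) (by omega)

/-- the run to the right in the line `2 n + 3` of `6 k + 2`, row `c + 2`, up to `d = 2 k - 9` -/
theorem right2 (hf : Rule f) {k c n : ℕ} (T : NHT f k c (2 * n))
    (p3 : ∀ x : ℕ, 2 * n + 10 ≤ x → x + 6 ≤ 2 * n + 2 * k → ¬ f (6 * k + 3) (c + 2) x (2 * n + 3)) {x0 x : ℕ}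
    (hx0 : x0 % 2 = 0) (hx : x % 2 = 0) (h1 : 2 * n + 10 ≤ x0) (hle : x0 ≤ x) (h2 : x + 6 ≤ 2 * n + 2 * k)
    (h : f (6 * k + 2) (c + 2) x0 (2 * n + 3)) : f (6 * k + 2) (c + 2) x (2 * n + 3) := by
  have hc := T.hc
  have hk := T.hk
  have hN := T.hN2
  refine E1m4.row_run hf (x0 := x0) (x1 := x) (by omega) (by omega) (by omega) hx0 ?_ h x hle le_rfl hx
  intro z a1 a2 a3
  by_contra hcov
  unfold Cov at hcov
  push_neg at hcov
  obtain ⟨w1, w2, w3, w4⟩ := hcov
  have h0 : ¬ f (6 * k + 3) (c + 2) (z + 1) (2 * n + 4) :=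
    T.p2 hf (j := 3) (by omega) (by omega) (Or.inr rfl) (by omega) (by omega) (by omega)
  have := NHP.predr hf (L := 6 * k + 3) (R := c + 2) h0 (by omega) (fun p r s hp hr' hs' => by
    rw [show c + 2 - 1 = c + 1 by omega]
    rcases Nat.eq_zero_or_pos p with hp0 | hp0
    · subst hp0
      exact T.r1 hf (p := 1) (j := 3) (by omega) (by omega) (by omega) (by omega) (by omega) (by omega)
    · have ep : p = 1 := by omega
      subst ep
      exact T.r1 hf (p := 0) (j := 3) (by omega) (by omega) (by omega) (by omega) (by omega) (by omega))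
  rw [show 6 * k + 3 - 1 = 6 * k + 2 by omega, show z + 1 - 1 = z by omega, show 2 * n + 4 - 1 = 2 * n + 3 by omega] at this
  rcases this with g | g | g | g | g | g | g
  · exact T.p2 hf (j := 3) (by omega) (by omega) (Or.inr rfl) (by omega) (by omega) (by omega) g
  · exact p3 _ (by omega) (by omega) g
  · exact p3 _ (by omega) (by omega) g
  · exact w4 (by rwa [show 2 * n + 3 + 1 = 2 * n + 4 by omega])
  · exact w3 (by rwa [show 2 * n + 3 + 1 = 2 * n + 4 by omega])
  · exact w2 g
  · exact w1 g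

/-- the coverings in the beam column `2 n + 1` of `6 k`, row `c` -/
theorem n1_cov (hf : Rule f) {k c n M z : ℕ} (H : PL f k c n M) (D0 : Cyc f (6 * k) (c - 2) (2 * n)) (ho : z % 2 = 1)
    (h1 : 2 * n + 7 ≤ z + 2 * k) (h2 : z + 5 ≤ 2 * n) : Cov f (6 * k) c (2 * n + 1) z := by
  have T := H.T
  have hc := T.hc
  have hk := T.hk
  have hb := T.hb
  have h4 := T.h4
  have hN := T.hN2
  by_contra hcov
  unfold Cov at hcov
  push_neg at hcov
  obtain ⟨w1, w2, w3, w4⟩ := hcov
  have h0 : ¬ f (6 * k + 1) c (2 * n + 2) (z + 1) :=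
    T.p0i hf (j := 4) (by omega) (by omega) (Or.inr rfl) (by omega) (by omega) (by omega)
  have eo : ∀ R x y : ℕ, c ≤ R + 1 → R ≤ c → (R % 2 = 1 ∨ x % 2 = 1 ∨ y % 2 = 1) → 2 * n + 1 ≤ x → x ≤ 2 * n + 2 → z ≤ y →
      y ≤ z + 1 → ¬ f (6 * k + 1) R x y := by
    intro R x y a1 a2 a3 a4 a5 a6 a7
    refine LocZ.eonly hf (A := 6 * k) (by omega) (by omega) (fun q r s hq hr hs => ?_)
    exact H.lw _ _ _ _ (by omega) (by omega) (by omega) (by omega) (by omega) (by omega)
  have rz : ∀ x y : ℕ, 2 * n + 1 ≤ x → x ≤ 2 * n + 2 → z ≤ y → y ≤ z + 1 → ¬ f (6 * k) (c - 1) x y := by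
    intro x y a1 a2 a3 a4
    by_cases h : x + 6 ≤ y + 2 * k
    · exact T.rm1i hf (j := 4) (p := 0) (by omega) (by omega) (by omega) (by omega) (by omega) h
    · have e1 : x = 2 * n + 2 := by omega
      have e2 : y = z := by omega
      subst e1 e2
      rw [WrapC.v1 D0 (M := 6 * k) rfl (by omega) (by omega) (by omega) (by omega) (by omega) (by omega) (by omega)]
      omega
  obtain ⟨p, q, r, s, hp, hq, hr, hs, h5, hpa, hqb, hrx, hsy, h6⟩ := pred hf h0 (by omega)
  rcases Nat.eq_zero_or_pos p with hp0 | hp0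
  · subst hp0
    exact eo (c - q) (2 * n + 2 - r) (z + 1 - s) (by omega) (by omega) (by omega) (by omega) (by omega) (by omega)
      (by omega) h6
  · have ep : p = 1 := by omega
    subst ep
    rw [Nat.add_sub_cancel] at h6
    rcases Nat.eq_zero_or_pos q with hq0 | hq0
    · subst hq0
      rw [Nat.sub_zero] at h6
      rcases Nat.eq_zero_or_pos r with hr0 | hr0 <;> rcases Nat.eq_zero_or_pos s with hs0 | hs0
      · subst hr0 hs0
        exact w4 h6
      · have es : s = 1 := by omega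
        subst hr0 es
        exact w2 h6
      · have er : r = 1 := by omega
        subst er hs0
        exact w3 h6
      · have er : r = 1 := by omega
        have es : s = 1 := by omega
        subst er es
        exact w1 h6
    · have eq : q = 1 := by omega
      subst eq
      exact rz _ _ (by omega) (by omega) (by omega) (by omega) h6

/-- the run up in the beam column `2 n + 1` of `6 k`, row `c` -/
theorem n1_run (hf : Rule f) {k c n M : ℕ} (H : PL f k c n M) (D0 : Cyc f (6 * k) (c - 2) (2 * n))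
    (h : f (6 * k) c (2 * n + 1) (2 * n + 6 - 2 * k)) :
    ∀ y, 2 * n + 6 ≤ y + 2 * k → y + 4 ≤ 2 * n → y % 2 = 0 → f (6 * k) c (2 * n + 1) y := by
  have hc := H.T.hc
  have hk := H.T.hk
  have hN := H.T.hN2
  intro y h1 h2 h3
  exact col_run hf (y0 := 2 * n + 6 - 2 * k) (y1 := 2 * n - 4) (by omega) hc (by omega) (by omega)
    (fun z a1 a2 a3 => n1_cov hf H D0 a3 (by omega) (by omega)) h y (by omega) (by omega) h3

end Pool.Agent.SNT.L0X
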