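import Pool.Agent.SNT.LocChain

set_option autoImplicit false

/-! Chains of local certificates with known ones as the result. -/

namespace Pool.Agent.SNT.Loc

section
variable (A B X Y pa pb px py sw : ℕ) (K1 K0 : ℕ → ℕ → ℕ → ℕ → Bool) (O PM NM : ℕ)

/-- The chain. The entry `(v, i, len, c)`: the cell with the index `i` has the value `v`; `c` refutes the other value. At the
end the cells of the mask `G1` have to be known ones and the cells of the mask `G0` known zeros. -/
def chain2 (G1 G0 : ℕ) : List (ℕ × ℕ × ℕ × ℕ) → (T F : ℕ) → Bool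
  | [], T, F => and (Nat.beq (Nat.land T G1) G1) (Nat.beq (Nat.land F G0) G0)
  | e :: l, T, F =>
    and (inR A B X Y 1 e.2.1) <| force (Nat.shiftLeft 1 e.2.1) fun b =>
    force (Nat.lor T b) fun T' => force (Nat.lor F b) fun F' =>
    match e.1 with
    | 0 => and (run A B X Y pa pb px py sw K1 K0 O PM NM e.2.2.1 e.2.2.2 T' F []) (chain2 G1 G0 l T F')
    | _ + 1 => and (run A B X Y pa pb px py sw K1 K0 O PM NM e.2.2.1 e.2.2.2 T F' []) (chain2 G1 G0 l T' F)

end

theorem chain2_inv {f : ℕ → ℕ → ℕ → ℕ → Prop} (hf : Rule f)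
    {a0 b0 x0 y0 A B X Y pa pb px py sw : ℕ} (hsw : SwOK a0 b0 x0 y0 pa pb px py sw)
    {K1 K0 : ℕ → ℕ → ℕ → ℕ → Bool}
    (hK1 : ∀ j n p q, InR A B X Y 1 j n p q → K1 j n p q = true →
      f (a0 + j) (b0 + n) (x0 + p) (y0 + q))
    (hK0 : ∀ j n p q, InR A B X Y 1 j n p q → K0 j n p q = true →
      ¬ f (a0 + j) (b0 + n) (x0 + p) (y0 + q)) (G1 G0 : ℕ) :
    ∀ (l : List (ℕ × ℕ × ℕ × ℕ)) (T F : ℕ), chain2 A B X Y pa pb px py sw K1 K0 (off B X Y 15) (pmask B X Y 15)
      (Nat.lor (pmask B X Y 15) (smask B X Y 15)) G1 G0 l T F = true → Inv f a0 b0 x0 y0 A B X Y T F →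
    ∃ T' F', Inv f a0 b0 x0 y0 A B X Y T' F' ∧ Nat.land T' G1 = G1 ∧ Nat.land F' G0 = G0 := by
  intro l
  induction l with
  | nil =>
    intro T F h hI
    unfold chain2 at h
    rw [Bool.and_eq_true, Nat.beq_eq, Nat.beq_eq] at h
    exact ⟨T, F, hI, h.1, h.2⟩
  | cons e l ih =>
    intro T F h hI
    unfold chain2 at h
    simp only [force_eq, Bool.and_eq_true] at h
    obtain ⟨h1, h2⟩ := h
    obtain ⟨j, n, p, q, hr, hie, -⟩ := inR_spec h1
    obtain ⟨r1, r2, r3, r4, r5, r6, r7, r8⟩ := hr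
    split at h2
    · rw [Bool.and_eq_true] at h2
      obtain ⟨h3, h4⟩ := h2
      have h5 := (run_sound hf hsw hK1 hK0 _ _ _ _ _ h3).1
      refine ih _ _ h4 ?_
      by_cases hcase : f (a0 + j) (b0 + n) (x0 + p) (y0 + q)
      · exfalso
        apply h5
        have h6 := hI.setOne (by omega) (by omega) (by omega) hcase
        rw [← hie] at h6
        exact h6
      · have h6 := hI.setZero (by omega) (by omega) (by omega) hcase
        rw [← hie] at h6
        exact h6
    · rw [Bool.and_eq_true] at h2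
      obtain ⟨h3, h4⟩ := h2
      have h5 := (run_sound hf hsw hK1 hK0 _ _ _ _ _ h3).1
      refine ih _ _ h4 ?_
      by_cases hcase : f (a0 + j) (b0 + n) (x0 + p) (y0 + q)
      · have h6 := hI.setOne (by omega) (by omega) (by omega) hcase
        rw [← hie] at h6
        exact h6
      · exfalso
        apply h5
        have h6 := hI.setZero (by omega) (by omega) (by omega) hcase
        rw [← hie] at h6
        exact h6

/-- The complete check of a chain. -/
def checkC2 (A B X Y pa pb px py sw : ℕ) (K1 K0 : ℕ → ℕ → ℕ → ℕ → Bool) (G1 G0 : ℕ) (l : List (ℕ × ℕ × ℕ × ℕ)) : Bool :=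
  force (off B X Y 15) fun O => force (pmask B X Y 15) fun PM =>
  force (Nat.lor PM (smask B X Y 15)) fun NM =>
  chain2 A B X Y pa pb px py sw K1 K0 O PM NM G1 G0 l 0 0

/-- Soundness of the chain: the cells of the mask `G1` are ones, the cells of the mask `G0` are zeros. -/
theorem chain2_sound {f : ℕ → ℕ → ℕ → ℕ → Prop} (hf : Rule f) {a0 b0 x0 y0 : ℕ}
    {A B X Y pa pb px py sw : ℕ} {K1 K0 : ℕ → ℕ → ℕ → ℕ → Bool} {G1 G0 : ℕ} {l : List (ℕ × ℕ × ℕ × ℕ)}
    (hc : checkC2 A B X Y pa pb px py sw K1 K0 G1 G0 l = true)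
    (hsw : SwOK a0 b0 x0 y0 pa pb px py sw)
    (h1 : ∀ j n p q, InR A B X Y 1 j n p q → K1 j n p q = true →
      f (a0 + j) (b0 + n) (x0 + p) (y0 + q))
    (h0 : ∀ j n p q, InR A B X Y 1 j n p q → K0 j n p q = true →
      ¬ f (a0 + j) (b0 + n) (x0 + p) (y0 + q)) :
    (∀ j n p q : ℕ, inC A B X Y 1 j n p q = true → tb G1 (enc B X Y j n p q) = true →
      f (a0 + j) (b0 + n) (x0 + p) (y0 + q)) ∧
    (∀ j n p q : ℕ, inC A B X Y 1 j n p q = true → tb G0 (enc B X Y j n p q) = true →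
      ¬ f (a0 + j) (b0 + n) (x0 + p) (y0 + q)) := by
  unfold checkC2 at hc
  simp only [force_eq] at hc
  obtain ⟨T', F', hI, hT, hF⟩ := chain2_inv hf hsw h1 h0 G1 G0 l 0 0 hc
    ⟨fun j n p q hr ht => by rw [Nat.zero_testBit] at ht; exact absurd ht (by decide),
      fun j n p q hr ht => by rw [Nat.zero_testBit] at ht; exact absurd ht (by decide)⟩
  refine ⟨fun j n p q hr hG => hI.one _ _ _ _ (inC_spec hr) ?_, fun j n p q hr hG => hI.zero _ _ _ _ (inC_spec hr) ?_⟩
  · rw [tb_eq, ← hT, show ∀ a b, Nat.land a b = a &&& b from fun _ _ => rfl, Nat.testBit_and, Bool.and_eq_true] at hG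
    exact hG.1
  · rw [tb_eq, ← hF, show ∀ a b, Nat.land a b = a &&& b from fun _ _ => rfl, Nat.testBit_and, Bool.and_eq_true] at hG
    exact hG.1

end Pool.Agent.SNT.Loc
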