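import Pool.Agent.SNT.L0Yb
import Pool.Agent.SNT.LocChain2
import Pool.Agent.SNT.LW2

set_option autoImplicit false
set_option synthInstance.maxSize 1000
set_option linter.unusedVariables false

/-! Near-diagonal windows of the road L0 (X' = 0): D11, D13, D1f. -/

namespace Pool.Agent.SNT.L0Y

open Pool.Agent.SNT Pool.Agent.SNT.Loc Pool.Agent.SNT.LW Pool.Agent.SNT.NHZ Pool.Agent.SNT.D1E

variable {f : ℕ → ℕ → ℕ → ℕ → Prop} {k c n : ℕ}

def D11_0_K1 (j n p q : ℕ) : Prop :=
    (j = 2 ∧ n = 3 ∧ 8 ≤ p ∧ p ≤ q + 13 ∧ p % 2 = 0 ∧ q % 2 = 1 ∧ q < p) ∨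
    (j = 2 ∧ n = 4 ∧ 9 ≤ p ∧ p ≤ q + 13 ∧ p = q ∧ p % 2 = 1) ∨
    (j = 2 ∧ n = 5 ∧ 9 ≤ q ∧ p ≤ q + 13 ∧ p % 2 = 1 ∧ q % 2 = 0 ∧ q < p) ∨
    (j = 2 ∧ n = 1 ∧ p ≤ q + 13 ∧ p % 2 = 1 ∧ q % 2 = 0 ∧ q < p) ∨
    (j = 2 ∧ n = 2 ∧ p ≤ q + 13 ∧ p = q ∧ p % 2 = 0) ∨
    (j = 4 ∧ n = 3 ∧ 3 ≤ q ∧ p ≤ q + 13 ∧ p % 2 = 1 ∧ q % 2 = 0 ∧ q < p) ∨
    (j = 4 ∧ n = 4 ∧ 5 ≤ q ∧ p ≤ q + 13 ∧ p = q ∧ p % 2 = 0)

def D11_0_K0 (j n p q : ℕ) : Prop :=
    ((n = 5 ∨ n = 4) ∧ j % 2 = 1 ∧ 3 ≤ j ∧ j ≤ 11 ∧ 11 ≤ p ∧ 2 * q + 13 ≤ 2 * p + j ∧ 2 * p ≤ 2 * q + 17 + j) ∨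
    ((n = 3 ∨ n = 2) ∧ j % 2 = 1 ∧ 1 ≤ j ∧ j ≤ 9 ∧ 5 ≤ p ∧ 2 * q + 11 ≤ 2 * p + j ∧ 2 * p ≤ 2 * q + 19 + j) ∨
    (n = 4 ∧ j % 2 = 0 ∧ 2 ≤ j ∧ j ≤ 10 ∧ 6 ≤ p ∧ 2 * q + 12 ≤ 2 * p + j ∧ 2 * p ≤ 2 * q + 18 + j) ∨
    (n = 2 ∧ j % 2 = 0 ∧ 2 ≤ j ∧ j ≤ 8 ∧ 2 ≤ p ∧ 2 * q + 10 ≤ 2 * p + j ∧ 2 * p ≤ 2 * q + 20 + j) ∨
    (n = 4 ∧ j % 2 = 0 ∧ 2 ≤ j ∧ j ≤ 8 ∧ 4 ≤ q ∧ 2 * q + 10 ≤ 2 * p + j ∧ 2 * p ≤ 2 * q + 20 + j) ∨
    (n = 4 ∧ j % 2 = 1 ∧ 3 ≤ j ∧ j ≤ 9 ∧ 4 ≤ q ∧ 2 * q + 11 ≤ 2 * p + j ∧ 2 * p ≤ 2 * q + 19 + j) ∨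
    (n = 2 ∧ j % 2 = 0 ∧ 2 ≤ j ∧ j ≤ 6 ∧ 2 * q + 8 ≤ 2 * p + j ∧ 2 * p ≤ 2 * q + 22 + j) ∨
    (n = 2 ∧ j % 2 = 1 ∧ 3 ≤ j ∧ j ≤ 7 ∧ 2 * q + 9 ≤ 2 * p + j ∧ 2 * p ≤ 2 * q + 21 + j) ∨
    ((n = 5 ∨ n = 4) ∧ j % 2 = 1 ∧ 1 ≤ j ∧ j ≤ 9 ∧ 7 ≤ q ∧ 2 * q + 11 ≤ 2 * p + j ∧ 2 * p ≤ 2 * q + 19 + j) ∨
    ((n = 3 ∨ n = 2) ∧ j % 2 = 1 ∧ 1 ≤ j ∧ j ≤ 7 ∧ 3 ≤ q ∧ 2 * q + 9 ≤ 2 * p + j ∧ 2 * p ≤ 2 * q + 21 + j) ∨
    (j = 2 ∧ n = 4 ∧ 9 ≤ p ∧ q ≤ p ∧ p ≤ q + 13 ∧ (q < p ∨ p % 2 = 0)) ∨
    (j = 2 ∧ n = 5 ∧ 9 ≤ q ∧ q ≤ p ∧ p ≤ q + 13 ∧ (p % 2 = 0 ∨ q % 2 = 1 ∨ p = q)) ∨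
    (j = 2 ∧ n = 2 ∧ q ≤ p ∧ p ≤ q + 13 ∧ (q < p ∨ p % 2 = 1)) ∨
    (j = 4 ∧ n = 4 ∧ 5 ≤ q ∧ q ≤ p ∧ p ≤ q + 13 ∧ (q < p ∨ p % 2 = 1)) ∨
    (j = 4 ∧ n = 5 ∧ p % 2 = 1 ∧ q % 2 = 0 ∧ q + 5 ≤ p ∧ p ≤ q + 9 ∧ 11 ≤ p) ∨
    (j = 1 ∧ q ≤ p) ∨
    (j = 2 ∧ n = 5 ∧ p = 13 ∧ q = 8)

instance (j n p q : ℕ) : Decidable (D11_0_K1 j n p q) := by unfold D11_0_K1; infer_instance

instance (j n p q : ℕ) : Decidable (D11_0_K0 j n p q) := by unfold D11_0_K0; infer_instance

def D11_0_l : List (ℕ × ℕ × ℕ × ℕ) := [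
  (0, 6265, 243, 0x1ce48317ca8017ca8112b08012b0810d98000d8e000da1120d979a12b1830d97800d97840d96800d96810cea800cea810c3e800c36001157d21146ca0c3d800c24001156d21134ca168780166800166700165f80164d800daa800da9800cfd800c5d000c5c000c51800c50800c4b000c4a000c49000c3c800c37000c12000b9d000b02000af1000af0000ae8800ad7800ad6801d068e1d06871cfd8e1cfd871d060e1d06071cfd0e1cfd071c5b8e1c5b871c640e1c64071c5b0e1c5b0717d48717f60e17f60717c18717548e175487174b8e174b8717540e175407174b0e174b0717420e17420717390e17390717418e17418717388e17388716b20e16b20f16680f16670f16680e16680f16670e16670f12d38e12d38712d30e12d30712ca0e12ca0712280e122807115707115687115607114d0711570e11570711568e11568711560e115607114d0e114d0710b50710b40710b50e10b50710b40e10b4070dc40e0dc40f0db20e0db20f0da1870dba8e0dba870da0870da88e0da8870dc30e0dc3070d8e870d8d870d188e0d18870d0f8e0d0f870d068e0d06870cfd8f0d210e0d21070d180e0d18070d060e0d06070cfd0e0cfd070cfc8e0cfc870c768e0c768f0c648e0c648f0c518f0c508f0c758e0c758f0c638e0c638f0c518e0c518f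0c48870c47870c46870c508e0c508f0c36870c24870c3c8e0ba5870ba5070b9d0f0b9c870b9c070b9b870b9b070ba58e0ba5870b9c8e0b9c870ba50e0ba5070b9c0e0b9c070b9b8e0b9b870b9b0e0b9b070b020f0af10f0af00f0af10e0af10f0b020e0b020f0af00e0af00f08a18e08a18708aa0e08aa0708a10e08a10708980e089807088f0e088f0708860708a08e08a08708978e089787088e8e088e8708858e08858708088e08088707ff8e07ff8708080e08080707ff0e07ff0707f60e07f60707ed0e07ed0707e40707fe8e07fe8707f58e07f58707ec8e07ec8707e38e07e38707da8707da0707da0e07da0707d107073887072f07)]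

theorem D11_0_chk : checkC2 7 8 18 18 0 1 1 1 2 (fun j n p q => decide (D11_0_K1 j n p q)) (fun j n p q => decide (D11_0_K0 j n p q))
    0x0 0x200000000000000000000000000000000000000000000000000000000000000000000000000000000000000000000000000000000000000000000000000000000000000000000000000000000000000000000000000000000000000000000000000000000000000000000000000000000000000000000000000000000000000000000000000000000000000000000000000000000000000000000000000000000000000000000000000000000000000000000000000000000000000000000000000000000000000000000000000000000000000000000000000000000000000000000000000000000000000000000000000000000000000000000000000000000000000000000000000000000000000000000000000000000000000000000000000000000000000000000000000000000000000000000000000000000000000000000000000000000000000000000000000000000000000000000000000000000000000000000000000000000000000000000000000000000000000000000000000000000000000000000000000000000000000000000000000000000000000000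0000000000000000000000000000000000000000000000000000000000000000000000000000000000000000000000000000000000000000000000000000000000000000000000000000000000000000000000000000000000000000000000000000000000000000000000000000000000000000000000000000000000000000000000000000000000000000000000000000000000000000000000000000000000000000000000000000000000000000000000000000000000000000000000000000000000000000000000000000000000000000000000000000000000000000000000000000000000000000000000000000000000000000000000000000000000000000000000000000000000000000000000000000000000000000000000000000000000000000000000000000000000000000000000000000000000000000000000000000000000000000000000000000000000000000000000000000000000000000000000000000000000000 D11_0_l = true := by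
  decide +kernel

theorem D11_0 (hf : Rule f) (H : YH f k c n) (z0_0_4_m1 : ¬ f (6 * k) (c) (2 * n + 4) (2 * n - 1)) :
    ¬ f (6 * k) (c - 2) (2 * n - 3) (2 * n - 8) := by
  have I := H.P
  have hk := I.T.hk
  have hc := I.T.hc
  have h4 := I.T.h4
  have hb := I.T.hb
  have hN := I.T.hN2
  have sw : SwOK (6 * k - 2) (c - 5) (2 * n - 9) (2 * n - 9) 0 1 1 1 2 :=
    ⟨fun _ => rfl, fun h => absurd h (by decide), fun h => absurd h (by decide), by omega, by omega, by omega, by omega⟩
  have key := chain2_sound hf D11_0_chk sw (fun j n' p q hr h => ?_) (fun j n' p q hr h => ?_)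
  · exact fun t => key.2 2 3 6 1 (by decide +kernel) (by decide +kernel) (mv t (by omega) (by omega) (by omega) (by omega))
  · have hx := of_decide_eq_true h
    obtain ⟨r1, r2, r3, r4, r5, r6, r7, r8⟩ := hr
    have l0 : Lay (6 * k) (c - 6) k := ⟨by omega, by omega, by omega, by omega⟩
    have l2 : Lay (6 * k + 2) (c - 4) k := ⟨by omega, by omega, by omega, by omega⟩
    have l0b : Lay (6 * k) (c - 2) k := ⟨by omega, by omega, by omega, by omega⟩
    unfold D11_0_K1 at hx
    rcases hx with hx | hx | hx | hx | hx | hx | hx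
    · exact (v0 l0b H.D0a (by omega) (by omega) (by omega) (by omega) (by omega)).2 (by unfold V0; omega)
    · exact (v1s l0b H.D0a (by omega) (by omega) (by omega) (by omega) (by omega) (by omega)).2 (by unfold V1; omega)
    · exact (v2s l0b H.D0a (by omega) (by omega) (by omega) (by omega) (by omega) (by omega)).2 (by unfold V2; omega)
    · exact (v2s l0 H.D0b (by omega) (by omega) (by omega) (by omega) (by omega) (by omega)).2 (by unfold V2; omega)
    · exact (v3s l0 H.D0b (by omega) (by omega) (by omega) (by omega) (by omega) (by omega)).2 (by unfold V3; omega)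
    · exact (v2s l2 H.D2 (by omega) (by omega) (by omega) (by omega) (by omega) (by omega)).2 (by unfold V2; omega)
    · exact (v3s l2 H.D2 (by omega) (by omega) (by omega) (by omega) (by omega) (by omega)).2 (by unfold V3; omega)
  · have hx := of_decide_eq_true h
    obtain ⟨r1, r2, r3, r4, r5, r6, r7, r8⟩ := hr
    have l0 : Lay (6 * k) (c - 6) k := ⟨by omega, by omega, by omega, by omega⟩
    have l2 : Lay (6 * k + 2) (c - 4) k := ⟨by omega, by omega, by omega, by omega⟩
    have l0b : Lay (6 * k) (c - 2) k := ⟨by omega, by omega, by omega, by omega⟩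
    unfold D11_0_K0 at hx
    rcases hx with hx | hx | hx | hx | hx | hx | hx | hx | hx | hx | hx | hx | hx | hx | hx | hx | hx
    · exact I.T.p0i hf (j := (11 - j) / 2) (by omega) (by omega) (by omega) (by omega) (by omega) (by omega)
    · exact I.T.pmi hf (j := (9 - j) / 2) (by omega) (by omega) (by omega) (by omega) (by omega) (by omega)
    · exact fun t => I.T.rm1i hf (j := (10 - j) / 2) (p := 0) (by omega) (by omega) (by omega) (by omega) (by omega) (by omega) (mv t rfl (by omega) rfl rfl)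
    · exact I.T.rIn hf (t := 3) (j := (8 - j) / 2) (p := 0) (by omega) (by omega) (by omega) (by omega) (by omega) (by omega) (by omega) (by omega)
    · exact fun t => I.T.rm1 hf (j := (8 - j) / 2) (p := 0) (by omega) (by omega) (by omega) (by omega) (by omega) (by omega) (mv t rfl (by omega) rfl rfl)
    · exact fun t => I.T.rm1 hf (j := (9 - j) / 2) (p := 1) (by omega) (by omega) (by omega) (by omega) (by omega) (by omega) (mv t rfl (by omega) rfl rfl)
    · exact I.T.rOut hf (t := 2) (j := (6 - j) / 2) (p := 0) (by omega) (by omega) (by omega) (by omega) (by omega) (by omega) (by omega) (by omega)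
    · exact I.T.rOut hf (t := 2) (j := (7 - j) / 2) (p := 1) (by omega) (by omega) (by omega) (by omega) (by omega) (by omega) (by omega) (by omega)
    · exact I.T.p0 hf (j := (9 - j) / 2) (by omega) (by omega) (by omega) (by omega) (by omega) (by omega)
    · exact I.T.pm hf (j := (7 - j) / 2) (by omega) (by omega) (by omega) (by omega) (by omega) (by omega)
    · exact fun t => absurd ((v1s l0b H.D0a (by omega) (by omega) (by omega) (by omega) (by omega) (by omega)).1 t) (by unfold V1; omega)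
    · exact fun t => absurd ((v2s l0b H.D0a (by omega) (by omega) (by omega) (by omega) (by omega) (by omega)).1 t) (by unfold V2; omega)
    · exact fun t => absurd ((v3s l0 H.D0b (by omega) (by omega) (by omega) (by omega) (by omega) (by omega)).1 t) (by unfold V3; omega)
    · exact fun t => absurd ((v3s l2 H.D2 (by omega) (by omega) (by omega) (by omega) (by omega) (by omega)).1 t) (by unfold V3; omega)
    · exact fun t => H.z2 (2 * n - 9 + p) (2 * n - 9 + q) (by omega) (by omega) (by omega) (by omega) (by omega) (mv t (by omega) (by omega) rfl rfl)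
    · exact fun t => I.lw (6 * k - 1) (c - 5 + n') (2 * n - 9 + p) (2 * n - 9 + q) (by omega) (by omega) (by omega) (by omega) (by omega) (by omega) (mv t (by omega) rfl rfl rfl)
    · exact fun t => z0_0_4_m1 (mv t (by omega) (by omega) (by omega) (by omega))

def D13_0_K1 (j n p q : ℕ) : Prop :=
    (j = 2 ∧ n = 3 ∧ 10 ≤ p ∧ p ≤ q + 13 ∧ p % 2 = 0 ∧ q % 2 = 1 ∧ q < p) ∨
    (j = 2 ∧ n = 4 ∧ 11 ≤ p ∧ p ≤ q + 13 ∧ p = q ∧ p % 2 = 1) ∨
    (j = 2 ∧ n = 5 ∧ 11 ≤ q ∧ p ≤ q + 13 ∧ p % 2 = 1 ∧ q % 2 = 0 ∧ q < p) ∨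
    (j = 2 ∧ n = 1 ∧ p ≤ q + 13 ∧ p % 2 = 1 ∧ q % 2 = 0 ∧ q < p) ∨
    (j = 2 ∧ n = 2 ∧ p ≤ q + 13 ∧ p = q ∧ p % 2 = 0) ∨
    (j = 4 ∧ n = 3 ∧ 5 ≤ q ∧ p ≤ q + 13 ∧ p % 2 = 1 ∧ q % 2 = 0 ∧ q < p) ∨
    (j = 2 ∧ n = 3 ∧ p = 6 ∧ q = 1)

def D13_0_K0 (j n p q : ℕ) : Prop :=
    ((n = 5 ∨ n = 4) ∧ j % 2 = 1 ∧ 3 ≤ j ∧ j ≤ 11 ∧ 13 ≤ p ∧ 2 * q + 13 ≤ 2 * p + j ∧ 2 * p ≤ 2 * q + 17 + j) ∨
    ((n = 3 ∨ n = 2) ∧ j % 2 = 1 ∧ 1 ≤ j ∧ j ≤ 9 ∧ 7 ≤ p ∧ 2 * q + 11 ≤ 2 * p + j ∧ 2 * p ≤ 2 * q + 19 + j) ∨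
    (n = 4 ∧ j % 2 = 0 ∧ 2 ≤ j ∧ j ≤ 10 ∧ 8 ≤ p ∧ 2 * q + 12 ≤ 2 * p + j ∧ 2 * p ≤ 2 * q + 18 + j) ∨
    (n = 2 ∧ j % 2 = 0 ∧ 2 ≤ j ∧ j ≤ 8 ∧ 4 ≤ p ∧ 2 * q + 10 ≤ 2 * p + j ∧ 2 * p ≤ 2 * q + 20 + j) ∨
    (n = 2 ∧ j % 2 = 1 ∧ 3 ≤ j ∧ j ≤ 9 ∧ 4 ≤ p ∧ 2 * q + 11 ≤ 2 * p + j ∧ 2 * p ≤ 2 * q + 19 + j) ∨
    (n = 4 ∧ j % 2 = 0 ∧ 2 ≤ j ∧ j ≤ 8 ∧ 6 ≤ q ∧ 2 * q + 10 ≤ 2 * p + j ∧ 2 * p ≤ 2 * q + 20 + j) ∨
    (n = 4 ∧ j % 2 = 1 ∧ 3 ≤ j ∧ j ≤ 9 ∧ 6 ≤ q ∧ 2 * q + 11 ≤ 2 * p + j ∧ 2 * p ≤ 2 * q + 19 + j) ∨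
    (n = 2 ∧ j % 2 = 0 ∧ 2 ≤ j ∧ j ≤ 6 ∧ 2 ≤ q ∧ 2 * q + 8 ≤ 2 * p + j ∧ 2 * p ≤ 2 * q + 22 + j) ∨
    (n = 2 ∧ j % 2 = 1 ∧ 3 ≤ j ∧ j ≤ 7 ∧ 2 ≤ q ∧ 2 * q + 9 ≤ 2 * p + j ∧ 2 * p ≤ 2 * q + 21 + j) ∨
    ((n = 5 ∨ n = 4) ∧ j % 2 = 1 ∧ 1 ≤ j ∧ j ≤ 9 ∧ 9 ≤ q ∧ 2 * q + 11 ≤ 2 * p + j ∧ 2 * p ≤ 2 * q + 19 + j) ∨
    (j = 2 ∧ n = 4 ∧ 11 ≤ p ∧ q ≤ p ∧ p ≤ q + 13 ∧ (q < p ∨ p % 2 = 0)) ∨
    (j = 2 ∧ n = 5 ∧ 11 ≤ q ∧ q ≤ p ∧ p ≤ q + 13 ∧ (p % 2 = 0 ∨ q % 2 = 1 ∨ p = q)) ∨
    (j = 2 ∧ n = 2 ∧ q ≤ p ∧ p ≤ q + 13 ∧ (q < p ∨ p % 2 = 1)) ∨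
    (j = 4 ∧ n = 4 ∧ 7 ≤ q ∧ q ≤ p ∧ p ≤ q + 13 ∧ (q < p ∨ p % 2 = 1)) ∨
    (j = 4 ∧ n = 5 ∧ p % 2 = 1 ∧ q % 2 = 0 ∧ q + 5 ≤ p ∧ p ≤ q + 9 ∧ 13 ≤ p) ∨
    (j = 1 ∧ q ≤ p) ∨
    (j = 2 ∧ n = 5 ∧ p = 15 ∧ q = 10)

instance (j n p q : ℕ) : Decidable (D13_0_K1 j n p q) := by unfold D13_0_K1; infer_instance

instance (j n p q : ℕ) : Decidable (D13_0_K0 j n p q) := by unfold D13_0_K0; infer_instance

def D13_0_l : List (ℕ × ℕ × ℕ × ℕ) := [
  (1, 8668, 345, 0x1539050eee8015398a0ef91a17398510ef0017439210f99a23b2831d67801d6781171c80171c8110c80010d29a10d18010d1810ffe800ffe810ffe0e239d831d5280171c801d5281171c8110c80010d29a239d831d52801d528110d20010d20417078017078110b30010bd9a17088310bd8010bd840ff4800ffe0e0ffe0410d30010f90e10f9040fe9800fe9810f16800f0d001560d2154dca0f15800ef9000ef90e0ef9041bd8801bc2801ba1001b978010f00010e78010e6801013800f69800f55800f54800f4d000f4c000f40800f38000f37000f24000f23000ee5000e64000e4f000d90000d7c000d73800d72800d5e8023d88e23d88723ce8e23ce8723d80e23d80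723ce0e23ce0723c38e23c38723b98e23b98723c30e23c30723b90e23b90723108e23108723068e23068723060e23060722fb8e22fb8722f18e22f18722fb0e22fb071d72871d980e1d98071d5d871d830e1d83071d48871cd08e1cd0871cc68e1cc6871cd00e1cd0071cc60e1cc6071cbc0e1cbc071cb20e1cb2071cbb8e1cbb871cbb0e1cbb071cb10e1cb1071ca70e1ca7071c9d0e1c9d071ca68e1ca6871c9c8e1c9c871c080e1c080f1bdf0e1bdf0f1ba10f1ba10e1ba10f17438717430717390717438e174387172e8e172e87172e0e172e07167b87167b07167107167b8e167b8716668e16668716660e166607165c0e165c07155f8e155f87155f0e155f0714980714980e14980714978e14978714970e149707148d0e148d0711038711030710f98710f00f10ef8711040e11040f10f00e10f00f10dc8710c88710c78710ee0e10b387103b0710310710138f101d0e101d0710268e102687101c8e101c8710128e101287101c0e101c070f698f0f558f0f548f0f698e0f698f0f558e0f558f0f408f0f548e0f548f0f408e0f408f0f36870f538e0f538f0f3f8e0f3f8f0f21870f20870f0d870ef9870ef8870f148e0f148f0e640f0e58870e4f0f0e4e870e4e070e588e0e58870e4e8e0e4e870e4e0e0e4e070e578e0e57870e4d8e0e4d870e438e0e43870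e570e0e57070e4d0e0e4d070d900f0d7c0f0d900e0d900f0d7c0e0d7c0f0d7b0e0d7b0f0ab9870ab9070aaf070aaf0e0aaf070aa50e0aa5070a9b0e0a9b070a91070aae8e0aae870aa48e0aa4870a9a8e0a9a870a908e0a90870a9a0e0a9a070a900e0a90070a998e0a99870a8f8e0a8f8709f18709f10709e78709e70709e70e09e70709dd0e09dd0709c90709e68e09e68709dc8e09dc8709d28e09d28709c88e09c88709be8709be0709d20e09d20709c80e09c80709be0e09be0709b40709d18e09d18709c78e09c78709a98709a90709a90e09a907099f0708ec0708e18708e10708e10e08e10708d70708d58e08d58708cb8e08cb8708d50e08d50708cb0e08cb07080d8e080d8708038e080387080d0e080d0708030e080307)]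

theorem D13_0_chk : checkC2 7 8 20 20 0 1 1 1 2 (fun j n p q => decide (D13_0_K1 j n p q)) (fun j n p q => decide (D13_0_K0 j n p q))
    0x1000000000000000000000000000000000000000000000000000000000000000000000000000000000000000000000000000000000000000000000000000000000000000000000000000000000000000000000000000000000000000000000000000000000000000000000000000000000000000000000000000000000000000000000000000000000000000000000000000000000000000000000000000000000000000000000000000000000000000000000000000000000000000000000000000000000000000000000000000000000000000000000000000000000000000000000000000000000000000000000000000000000000000000000000000000000000000000000000000000000000000000000000000000000000000000000000000000000000000000000000000000000000000000000000000000000000000000000000000000000000000000000000000000000000000000000000000000000000000000000000000000000000000000000000000000000000000000000000000000000000000000000000000000000000000000000000000000000000000000000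0000000000000000000000000000000000000000000000000000000000000000000000000000000000000000000000000000000000000000000000000000000000000000000000000000000000000000000000000000000000000000000000000000000000000000000000000000000000000000000000000000000000000000000000000000000000000000000000000000000000000000000000000000000000000000000000000000000000000000000000000000000000000000000000000000000000000000000000000000000000000000000000000000000000000000000000000000000000000000000000000000000000000000000000000000000000000000000000000000000000000000000000000000000000000000000000000000000000000000000000000000000000000000000000000000000000000000000000000000000000000000000000000000000000000000000000000000000000000000000000000000000000000000000000000000000000000000000000000000000000000000000000000000000000000000000000000000000000000000000000000000000000000000000000000000000000000000000000000000000000000000000000000000000000000000000000000000000000000000000000000000000000000000000000000000000000000000000000000000000000000000000000000000000000000000000000000000000000000000000000000000000000000000000000000000000000000000000000000000000000000000000000000000000000000000000000000000000000000000000000000000000000000000000000000000000000000000000000000000000000000000000000000000000000000000000000000000000000000000000000000000000000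 0x0 D13_0_l = true := by
  decide +kernel

theorem D13_0 (hf : Rule f) (H : YH f k c n) (z0_0_4_m1 : ¬ f (6 * k) (c) (2 * n + 4) (2 * n - 1)) (p0_m2_m5_m10 : f (6 * k) (c - 2) (2 * n - 5) (2 * n - 10)) :
    f (6 * k) (c) (2 * n + 2) (2 * n - 3) := by
  have I := H.P
  have hk := I.T.hk
  have hc := I.T.hc
  have h4 := I.T.h4
  have hb := I.T.hb
  have hN := I.T.hN2
  have sw : SwOK (6 * k - 2) (c - 5) (2 * n - 11) (2 * n - 11) 0 1 1 1 2 :=
    ⟨fun _ => rfl, fun h => absurd h (by decide), fun h => absurd h (by decide), by omega, by omega, by omega, by omega⟩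
  have key := chain2_sound hf D13_0_chk sw (fun j n' p q hr h => ?_) (fun j n' p q hr h => ?_)
  · exact mv (key.1 2 5 13 8 (by decide +kernel) (by decide +kernel)) (by omega) (by omega) (by omega) (by omega)
  · have hx := of_decide_eq_true h
    obtain ⟨r1, r2, r3, r4, r5, r6, r7, r8⟩ := hr
    have l0 : Lay (6 * k) (c - 6) k := ⟨by omega, by omega, by omega, by omega⟩
    have l2 : Lay (6 * k + 2) (c - 4) k := ⟨by omega, by omega, by omega, by omega⟩
    have l0b : Lay (6 * k) (c - 2) k := ⟨by omega, by omega, by omega, by omega⟩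
    unfold D13_0_K1 at hx
    rcases hx with hx | hx | hx | hx | hx | hx | hx
    · exact (v0 l0b H.D0a (by omega) (by omega) (by omega) (by omega) (by omega)).2 (by unfold V0; omega)
    · exact (v1s l0b H.D0a (by omega) (by omega) (by omega) (by omega) (by omega) (by omega)).2 (by unfold V1; omega)
    · exact (v2s l0b H.D0a (by omega) (by omega) (by omega) (by omega) (by omega) (by omega)).2 (by unfold V2; omega)
    · exact (v2s l0 H.D0b (by omega) (by omega) (by omega) (by omega) (by omega) (by omega)).2 (by unfold V2; omega)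
    · exact (v3s l0 H.D0b (by omega) (by omega) (by omega) (by omega) (by omega) (by omega)).2 (by unfold V3; omega)
    · exact (v2s l2 H.D2 (by omega) (by omega) (by omega) (by omega) (by omega) (by omega)).2 (by unfold V2; omega)
    · exact mv p0_m2_m5_m10 (by omega) (by omega) (by omega) (by omega)
  · have hx := of_decide_eq_true h
    obtain ⟨r1, r2, r3, r4, r5, r6, r7, r8⟩ := hr
    have l0 : Lay (6 * k) (c - 6) k := ⟨by omega, by omega, by omega, by omega⟩
    have l2 : Lay (6 * k + 2) (c - 4) k := ⟨by omega, by omega, by omega, by omega⟩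
    have l0b : Lay (6 * k) (c - 2) k := ⟨by omega, by omega, by omega, by omega⟩
    unfold D13_0_K0 at hx
    rcases hx with hx | hx | hx | hx | hx | hx | hx | hx | hx | hx | hx | hx | hx | hx | hx | hx | hx
    · exact I.T.p0i hf (j := (11 - j) / 2) (by omega) (by omega) (by omega) (by omega) (by omega) (by omega)
    · exact I.T.pmi hf (j := (9 - j) / 2) (by omega) (by omega) (by omega) (by omega) (by omega) (by omega)
    · exact fun t => I.T.rm1i hf (j := (10 - j) / 2) (p := 0) (by omega) (by omega) (by omega) (by omega) (by omega) (by omega) (mv t rfl (by omega) rfl rfl)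
    · exact I.T.rIn hf (t := 3) (j := (8 - j) / 2) (p := 0) (by omega) (by omega) (by omega) (by omega) (by omega) (by omega) (by omega) (by omega)
    · exact I.T.rIn hf (t := 3) (j := (9 - j) / 2) (p := 1) (by omega) (by omega) (by omega) (by omega) (by omega) (by omega) (by omega) (by omega)
    · exact fun t => I.T.rm1 hf (j := (8 - j) / 2) (p := 0) (by omega) (by omega) (by omega) (by omega) (by omega) (by omega) (mv t rfl (by omega) rfl rfl)
    · exact fun t => I.T.rm1 hf (j := (9 - j) / 2) (p := 1) (by omega) (by omega) (by omega) (by omega) (by omega) (by omega) (mv t rfl (by omega) rfl rfl)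
    · exact I.T.rOut hf (t := 2) (j := (6 - j) / 2) (p := 0) (by omega) (by omega) (by omega) (by omega) (by omega) (by omega) (by omega) (by omega)
    · exact I.T.rOut hf (t := 2) (j := (7 - j) / 2) (p := 1) (by omega) (by omega) (by omega) (by omega) (by omega) (by omega) (by omega) (by omega)
    · exact I.T.p0 hf (j := (9 - j) / 2) (by omega) (by omega) (by omega) (by omega) (by omega) (by omega)
    · exact fun t => absurd ((v1s l0b H.D0a (by omega) (by omega) (by omega) (by omega) (by omega) (by omega)).1 t) (by unfold V1; omega)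
    · exact fun t => absurd ((v2s l0b H.D0a (by omega) (by omega) (by omega) (by omega) (by omega) (by omega)).1 t) (by unfold V2; omega)
    · exact fun t => absurd ((v3s l0 H.D0b (by omega) (by omega) (by omega) (by omega) (by omega) (by omega)).1 t) (by unfold V3; omega)
    · exact fun t => absurd ((v3s l2 H.D2 (by omega) (by omega) (by omega) (by omega) (by omega) (by omega)).1 t) (by unfold V3; omega)
    · exact fun t => H.z2 (2 * n - 11 + p) (2 * n - 11 + q) (by omega) (by omega) (by omega) (by omega) (by omega) (mv t (by omega) (by omega) rfl rfl)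
    · exact fun t => I.lw (6 * k - 1) (c - 5 + n') (2 * n - 11 + p) (2 * n - 11 + q) (by omega) (by omega) (by omega) (by omega) (by omega) (by omega) (mv t (by omega) rfl rfl rfl)
    · exact fun t => z0_0_4_m1 (mv t (by omega) (by omega) (by omega) (by omega))

def D13_1_K1 (j n p q : ℕ) : Prop :=
    (j = 2 ∧ n = 3 ∧ 8 ≤ p ∧ p ≤ q + 13 ∧ p % 2 = 0 ∧ q % 2 = 1 ∧ q < p) ∨
    (j = 2 ∧ n = 4 ∧ 9 ≤ p ∧ p ≤ q + 13 ∧ p = q ∧ p % 2 = 1) ∨
    (j = 2 ∧ n = 5 ∧ 9 ≤ q ∧ p ≤ q + 13 ∧ p % 2 = 1 ∧ q % 2 = 0 ∧ q < p) ∨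
    (j = 2 ∧ n = 1 ∧ p ≤ q + 13 ∧ p % 2 = 1 ∧ q % 2 = 0 ∧ q < p) ∨
    (j = 2 ∧ n = 2 ∧ p ≤ q + 13 ∧ p = q ∧ p % 2 = 0) ∨
    (j = 4 ∧ n = 3 ∧ 3 ≤ q ∧ p ≤ q + 13 ∧ p % 2 = 1 ∧ q % 2 = 0 ∧ q < p) ∨
    (j = 2 ∧ n = 3 ∧ p = 6 ∧ q = 1)

def D13_1_K0 (j n p q : ℕ) : Prop :=
    ((n = 5 ∨ n = 4) ∧ j % 2 = 1 ∧ 3 ≤ j ∧ j ≤ 11 ∧ 11 ≤ p ∧ 2 * q + 13 ≤ 2 * p + j ∧ 2 * p ≤ 2 * q + 17 + j) ∨
    ((n = 3 ∨ n = 2) ∧ j % 2 = 1 ∧ 1 ≤ j ∧ j ≤ 9 ∧ 5 ≤ p ∧ 2 * q + 11 ≤ 2 * p + j ∧ 2 * p ≤ 2 * q + 19 + j) ∨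
    (n = 4 ∧ j % 2 = 0 ∧ 2 ≤ j ∧ j ≤ 10 ∧ 6 ≤ p ∧ 2 * q + 12 ≤ 2 * p + j ∧ 2 * p ≤ 2 * q + 18 + j) ∨
    (n = 4 ∧ j % 2 = 0 ∧ 2 ≤ j ∧ j ≤ 8 ∧ 4 ≤ q ∧ 2 * q + 10 ≤ 2 * p + j ∧ 2 * p ≤ 2 * q + 20 + j) ∨
    (n = 4 ∧ j % 2 = 1 ∧ 3 ≤ j ∧ j ≤ 9 ∧ 4 ≤ q ∧ 2 * q + 11 ≤ 2 * p + j ∧ 2 * p ≤ 2 * q + 19 + j) ∨
    (n = 2 ∧ j % 2 = 0 ∧ 2 ≤ j ∧ j ≤ 6 ∧ 2 * q + 8 ≤ 2 * p + j ∧ 2 * p ≤ 2 * q + 22 + j) ∨
    (n = 2 ∧ j % 2 = 1 ∧ 3 ≤ j ∧ j ≤ 7 ∧ 2 * q + 9 ≤ 2 * p + j ∧ 2 * p ≤ 2 * q + 21 + j) ∨
    ((n = 5 ∨ n = 4) ∧ j % 2 = 1 ∧ 1 ≤ j ∧ j ≤ 9 ∧ 7 ≤ q ∧ 2 * q + 11 ≤ 2 * p + j ∧ 2 * p ≤ 2 * q + 19 + j) ∨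
    (j = 2 ∧ n = 4 ∧ 9 ≤ p ∧ q ≤ p ∧ p ≤ q + 13 ∧ (q < p ∨ p % 2 = 0)) ∨
    (j = 2 ∧ n = 5 ∧ 9 ≤ q ∧ q ≤ p ∧ p ≤ q + 13 ∧ (p % 2 = 0 ∨ q % 2 = 1 ∨ p = q)) ∨
    (j = 2 ∧ n = 2 ∧ q ≤ p ∧ p ≤ q + 13 ∧ (q < p ∨ p % 2 = 1)) ∨
    (j = 4 ∧ n = 4 ∧ 5 ≤ q ∧ q ≤ p ∧ p ≤ q + 13 ∧ (q < p ∨ p % 2 = 1)) ∨
    (j = 4 ∧ n = 5 ∧ p % 2 = 1 ∧ q % 2 = 0 ∧ q + 5 ≤ p ∧ p ≤ q + 9 ∧ 11 ≤ p) ∨
    (j = 1 ∧ q ≤ p) ∨
    (j = 2 ∧ n = 5 ∧ p = 13 ∧ q = 8)

instance (j n p q : ℕ) : Decidable (D13_1_K1 j n p q) := by unfold D13_1_K1; infer_instance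

instance (j n p q : ℕ) : Decidable (D13_1_K0 j n p q) := by unfold D13_1_K0; infer_instance

def D13_1_l : List (ℕ × ℕ × ℕ × ℕ) := [
  (1, 7008, 230, 0x1ce48317ca8017ca8112b08012b0810d98000d8e000da1120d979a12b1830d97800d97840d96800d96810cea800cea810c3e800c36000c3e810c36010c3d800c24001156d21134ca168780167380166700164d800daa800da9800cfd800c5d000c5c000c51800c4a000c49000c3c800c12000b9d000b8a000b02000af1000af0000ae8800ad7800ad6801d068e1d06871cfd8e1cfd871d060e1d06071cfd0e1cfd071c648e1c64871c5b8e1c5b871c5b0e1c5b0717d48717f60e17f60717c18717548e175487174b8e174b8717540e175407174b0e174b0717420e17420717390e17390717418e17418716b20e16b20f168d0e168d0f16670f16670e16670f12d38e12d38712d30e12d30712ca0e12ca0712318e12318712310e12310712280e122807115687115607114d0711568e11568711560e115607114d0e114d0710b48710ab8710b48e10b48710ab8e10ab870dc40e0dc40f0db20e0db20f0da1870dba8e0dba870da0870dc30e0dc3070d8e870d8d870cfd8f0d210e0d21070d180e0d18070d060e0d06070d0e8e0d0e870d058e0d05870cfc8e0cfc870c76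8e0c768f0c648e0c648f0c518f0c638e0c638f0c518e0c518f0c48870c46870c3c8f0c35870c24870c3c8e0c3c8f0b9d0f0b9b870b93070b930e0b93070b8a0f0b9b8e0b9b870b020f0af10f0af00f0af10e0af10f0b020e0b020f0af00e0af00f08aa8e08aa8708aa0e08aa0708a10e08a10708980e089807088f0e088f0708860708a08e08a08708978e089787088e8e088e8708858e08858708088e08088707ff8e07ff8708080e08080707ff0e07ff0707f60e07f60707e40707fe8e07fe8707f58e07f58707ec8e07ec8707e38e07e38707da8707da0707da0e07da0707d107072f07072e87072e07072e8e072e87072587072507072e0e072e0707250e072507068c07068307068c0e068c0706830e068307)]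

theorem D13_1_chk : checkC2 7 8 18 18 0 1 1 1 2 (fun j n p q => decide (D13_1_K1 j n p q)) (fun j n p q => decide (D13_1_K0 j n p q))
    0x1000000000000000000000000000000000000000000000000000000000000000000000000000000000000000000000000000000000000000000000000000000000000000000000000000000000000000000000000000000000000000000000000000000000000000000000000000000000000000000000000000000000000000000000000000000000000000000000000000000000000000000000000000000000000000000000000000000000000000000000000000000000000000000000000000000000000000000000000000000000000000000000000000000000000000000000000000000000000000000000000000000000000000000000000000000000000000000000000000000000000000000000000000000000000000000000000000000000000000000000000000000000000000000000000000000000000000000000000000000000000000000000000000000000000000000000000000000000000000000000000000000000000000000000000000000000000000000000000000000000000000000000000000000000000000000000000000000000000000000000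000000000000000000000000000000000000000000000000000000000000000000000000000000000000000000000000000000000000000000000000000000000000000000000000000000000000000000000000000000000000000000000000000000000000000000000000000000000000000000000000000000000000000000000000000000000000000000000000000000000000000000000000000000000000000000000000000000000000000000000000000000000000000000000000000000000000000000000000000000000000000000000000000000000000000000000000000000000000000000000000000000000000000000000000000000000000000000000000000000000000000000000000000000000000000000000000000000000000000000000000000000000000000000000000000000000000000000000000000000000000000000000000000000000000000000000000000000000000000000000000000000000000000000000000000000000000000000000000000000000000000000000000000000000000000000000000000000000000000000000000000000000000000000000000000000000000000000000000000000000000000000000000000 0x0 D13_1_l = true := by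
  decide +kernel

theorem D13_1 (hf : Rule f) (H : YH f k c n) (z0_0_4_m1 : ¬ f (6 * k) (c) (2 * n + 4) (2 * n - 1)) (p0_m2_m3_m8 : f (6 * k) (c - 2) (2 * n - 3) (2 * n - 8)) :
    f (6 * k) (c) (2 * n + 2) (2 * n - 3) := by
  have I := H.P
  have hk := I.T.hk
  have hc := I.T.hc
  have h4 := I.T.h4
  have hb := I.T.hb
  have hN := I.T.hN2
  have sw : SwOK (6 * k - 2) (c - 5) (2 * n - 9) (2 * n - 9) 0 1 1 1 2 :=
    ⟨fun _ => rfl, fun h => absurd h (by decide), fun h => absurd h (by decide), by omega, by omega, by omega, by omega⟩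
  have key := chain2_sound hf D13_1_chk sw (fun j n' p q hr h => ?_) (fun j n' p q hr h => ?_)
  · exact mv (key.1 2 5 11 6 (by decide +kernel) (by decide +kernel)) (by omega) (by omega) (by omega) (by omega)
  · have hx := of_decide_eq_true h
    obtain ⟨r1, r2, r3, r4, r5, r6, r7, r8⟩ := hr
    have l0 : Lay (6 * k) (c - 6) k := ⟨by omega, by omega, by omega, by omega⟩
    have l2 : Lay (6 * k + 2) (c - 4) k := ⟨by omega, by omega, by omega, by omega⟩
    have l0b : Lay (6 * k) (c - 2) k := ⟨by omega, by omega, by omega, by omega⟩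
    unfold D13_1_K1 at hx
    rcases hx with hx | hx | hx | hx | hx | hx | hx
    · exact (v0 l0b H.D0a (by omega) (by omega) (by omega) (by omega) (by omega)).2 (by unfold V0; omega)
    · exact (v1s l0b H.D0a (by omega) (by omega) (by omega) (by omega) (by omega) (by omega)).2 (by unfold V1; omega)
    · exact (v2s l0b H.D0a (by omega) (by omega) (by omega) (by omega) (by omega) (by omega)).2 (by unfold V2; omega)
    · exact (v2s l0 H.D0b (by omega) (by omega) (by omega) (by omega) (by omega) (by omega)).2 (by unfold V2; omega)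
    · exact (v3s l0 H.D0b (by omega) (by omega) (by omega) (by omega) (by omega) (by omega)).2 (by unfold V3; omega)
    · exact (v2s l2 H.D2 (by omega) (by omega) (by omega) (by omega) (by omega) (by omega)).2 (by unfold V2; omega)
    · exact mv p0_m2_m3_m8 (by omega) (by omega) (by omega) (by omega)
  · have hx := of_decide_eq_true h
    obtain ⟨r1, r2, r3, r4, r5, r6, r7, r8⟩ := hr
    have l0 : Lay (6 * k) (c - 6) k := ⟨by omega, by omega, by omega, by omega⟩
    have l2 : Lay (6 * k + 2) (c - 4) k := ⟨by omega, by omega, by omega, by omega⟩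
    have l0b : Lay (6 * k) (c - 2) k := ⟨by omega, by omega, by omega, by omega⟩
    unfold D13_1_K0 at hx
    rcases hx with hx | hx | hx | hx | hx | hx | hx | hx | hx | hx | hx | hx | hx | hx | hx
    · exact I.T.p0i hf (j := (11 - j) / 2) (by omega) (by omega) (by omega) (by omega) (by omega) (by omega)
    · exact I.T.pmi hf (j := (9 - j) / 2) (by omega) (by omega) (by omega) (by omega) (by omega) (by omega)
    · exact fun t => I.T.rm1i hf (j := (10 - j) / 2) (p := 0) (by omega) (by omega) (by omega) (by omega) (by omega) (by omega) (mv t rfl (by omega) rfl rfl)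
    · exact fun t => I.T.rm1 hf (j := (8 - j) / 2) (p := 0) (by omega) (by omega) (by omega) (by omega) (by omega) (by omega) (mv t rfl (by omega) rfl rfl)
    · exact fun t => I.T.rm1 hf (j := (9 - j) / 2) (p := 1) (by omega) (by omega) (by omega) (by omega) (by omega) (by omega) (mv t rfl (by omega) rfl rfl)
    · exact I.T.rOut hf (t := 2) (j := (6 - j) / 2) (p := 0) (by omega) (by omega) (by omega) (by omega) (by omega) (by omega) (by omega) (by omega)
    · exact I.T.rOut hf (t := 2) (j := (7 - j) / 2) (p := 1) (by omega) (by omega) (by omega) (by omega) (by omega) (by omega) (by omega) (by omega)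
    · exact I.T.p0 hf (j := (9 - j) / 2) (by omega) (by omega) (by omega) (by omega) (by omega) (by omega)
    · exact fun t => absurd ((v1s l0b H.D0a (by omega) (by omega) (by omega) (by omega) (by omega) (by omega)).1 t) (by unfold V1; omega)
    · exact fun t => absurd ((v2s l0b H.D0a (by omega) (by omega) (by omega) (by omega) (by omega) (by omega)).1 t) (by unfold V2; omega)
    · exact fun t => absurd ((v3s l0 H.D0b (by omega) (by omega) (by omega) (by omega) (by omega) (by omega)).1 t) (by unfold V3; omega)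
    · exact fun t => absurd ((v3s l2 H.D2 (by omega) (by omega) (by omega) (by omega) (by omega) (by omega)).1 t) (by unfold V3; omega)
    · exact fun t => H.z2 (2 * n - 9 + p) (2 * n - 9 + q) (by omega) (by omega) (by omega) (by omega) (by omega) (mv t (by omega) (by omega) rfl rfl)
    · exact fun t => I.lw (6 * k - 1) (c - 5 + n') (2 * n - 9 + p) (2 * n - 9 + q) (by omega) (by omega) (by omega) (by omega) (by omega) (by omega) (mv t (by omega) rfl rfl rfl)
    · exact fun t => z0_0_4_m1 (mv t (by omega) (by omega) (by omega) (by omega))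

def D1f_0_K1 (j n p q : ℕ) : Prop :=
    (j = 2 ∧ n = 3 ∧ 5 ≤ p ∧ p ≤ q + 13 ∧ p % 2 = 1 ∧ q % 2 = 0 ∧ q < p) ∨
    (j = 2 ∧ n = 4 ∧ 6 ≤ p ∧ p ≤ q + 13 ∧ p = q ∧ p % 2 = 0) ∨
    (j = 2 ∧ n = 5 ∧ 6 ≤ q ∧ p ≤ q + 13 ∧ p % 2 = 0 ∧ q % 2 = 1 ∧ q < p) ∨
    (j = 2 ∧ n = 6 ∧ 8 ≤ q ∧ p ≤ q + 13 ∧ p = q ∧ p % 2 = 1) ∨
    (j = 2 ∧ n = 1 ∧ p ≤ q + 13 ∧ p % 2 = 0 ∧ q % 2 = 1 ∧ q < p) ∨
    (j = 4 ∧ n = 3 ∧ p ≤ q + 13 ∧ p % 2 = 0 ∧ q % 2 = 1 ∧ q < p) ∨
    (j = 4 ∧ n = 4 ∧ 2 ≤ q ∧ p ≤ q + 13 ∧ p = q ∧ p % 2 = 1) ∨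
    (j = 2 ∧ n = 9 ∧ p = 16 ∧ q = 11)

def D1f_0_K0 (j n p q : ℕ) : Prop :=
    ((n = 5 ∨ n = 4) ∧ j % 2 = 1 ∧ 3 ≤ j ∧ j ≤ 11 ∧ 8 ≤ p ∧ 2 * q + 13 ≤ 2 * p + j ∧ 2 * p ≤ 2 * q + 17 + j) ∨
    (n = 4 ∧ j % 2 = 0 ∧ 2 ≤ j ∧ j ≤ 10 ∧ 3 ≤ p ∧ 2 * q + 12 ≤ 2 * p + j ∧ 2 * p ≤ 2 * q + 18 + j) ∨
    (n = 4 ∧ j % 2 = 0 ∧ 2 ≤ j ∧ j ≤ 8 ∧ 2 * q + 10 ≤ 2 * p + j ∧ 2 * p ≤ 2 * q + 20 + j) ∨
    (n = 4 ∧ j % 2 = 1 ∧ 3 ≤ j ∧ j ≤ 9 ∧ 2 * q + 11 ≤ 2 * p + j ∧ 2 * p ≤ 2 * q + 19 + j) ∨
    (n = 2 ∧ j % 2 = 0 ∧ 2 ≤ j ∧ j ≤ 6 ∧ 2 * q + 8 ≤ 2 * p + j ∧ 2 * p ≤ 2 * q + 22 + j) ∨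
    (n = 2 ∧ j % 2 = 1 ∧ 3 ≤ j ∧ j ≤ 7 ∧ 2 * q + 9 ≤ 2 * p + j ∧ 2 * p ≤ 2 * q + 21 + j) ∨
    ((n = 5 ∨ n = 4) ∧ j % 2 = 1 ∧ 1 ≤ j ∧ j ≤ 9 ∧ 4 ≤ q ∧ 2 * q + 11 ≤ 2 * p + j ∧ 2 * p ≤ 2 * q + 19 + j) ∨
    ((n = 3 ∨ n = 2) ∧ j % 2 = 1 ∧ 1 ≤ j ∧ j ≤ 7 ∧ 2 * q + 9 ≤ 2 * p + j ∧ 2 * p ≤ 2 * q + 21 + j) ∨
    (j = 2 ∧ n = 4 ∧ 6 ≤ p ∧ q ≤ p ∧ p ≤ q + 13 ∧ (q < p ∨ p % 2 = 1)) ∨
    (j = 2 ∧ n = 5 ∧ 6 ≤ q ∧ q ≤ p ∧ p ≤ q + 13 ∧ (p % 2 = 1 ∨ q % 2 = 0 ∨ p = q)) ∨
    (j = 2 ∧ n = 6 ∧ 8 ≤ q ∧ q ≤ p ∧ p ≤ q + 13 ∧ (q < p ∨ p % 2 = 0)) ∨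
    (j = 2 ∧ n = 2 ∧ q ≤ p ∧ p ≤ q + 13 ∧ (q < p ∨ p % 2 = 0)) ∨
    (j = 4 ∧ n = 4 ∧ 2 ≤ q ∧ q ≤ p ∧ p ≤ q + 13 ∧ (q < p ∨ p % 2 = 0)) ∨
    (n = 6 ∧ j % 2 = 0 ∧ 2 ≤ j ∧ j ≤ 10 ∧ 5 ≤ q ∧ 2 * q + 12 ≤ 2 * p + j ∧ 2 * p ≤ 2 * q + 18 + j) ∨
    (j = 4 ∧ n = 5 ∧ p % 2 = 0 ∧ q % 2 = 1 ∧ q + 5 ≤ p ∧ p ≤ q + 9 ∧ 8 ≤ p) ∨
    (j = 1 ∧ q ≤ p)

instance (j n p q : ℕ) : Decidable (D1f_0_K1 j n p q) := by unfold D1f_0_K1; infer_instance

instance (j n p q : ℕ) : Decidable (D1f_0_K0 j n p q) := by unfold D1f_0_K0; infer_instance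

def D1f_0_l : List (ℕ × ℕ × ℕ × ℕ) := [
  (0, 9581, 565, 0x11470518468011509a18470a11f300129eba12a78012b09214078314080014088a12c38012b18012c38112ba9214078314080014088a12ba8012ba8413648013648113518013518113510e12ae83135100135104133e80133e8111fa83129c80129c84129280128a00129b92128a8a11df0e113c8318328018330a112a8011341a11df0011df041f330318330018330411e80e11460311e80011e804113d831833801833842633031f33001f3304184d8e115783184d80184d84114703183d00183d0412af0e12ae8312af0012af0412a480128b0012ad92128b8a11e00e183403113400113d9a11e00011e00412028e11608312028012028411f18e11468311f18011f18411608312030012030411570e18570311570011570418460e1f46031846001846041f5f8e2668031f5f801f5f84116a03120c00120c0411508318468018468412c18012b08012b08e12b0841e2d801df0001def001ddc0014090012b680128c00122080120d80117f00117380116d00116c00116180115a0011590010ad00101400101300100c800ffa800ff9800ff8800fe7800fe680266807266787265f07265e8726550e265507264c0e264c0726548e265487264b8e264b8725c58725bd0725bc8725aa0e2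5aa0725b28e25b2871f72071f71871f3d071f5e8e1f5e871f2a071ed0071ecf871ec7071ec6871ebd8e1ebd871eb48e1eb4871ebd0e1ebd071eb40e1eb4071ebc8e1ebc871eaa8e1eaa871ea18e1ea1871eaa0e1eaa071e2d8f1e1a8e1e1a8f1e088e1e088f1df58e1df58f18690e18690718688e186887185f8e185f8718560e18560718558e18558717bd8e17bd8717b40e17b40717b38e17b38717aa8e17aa8714338e14338f13ff0713fe0712ba0712b90712a70712a60712a50712a40712950712930712920712b68e12820712810712328e12328712208f12290e12290712318e12318712288e122887121f8e121f87120d8f12160e121607121e0e121e0711878e11878f11738f11868e11868f11748e11748f116a0711618f11610711600711738e11738f11618e11618f115887115807115107116a0e116a0711500711580e115807114f07114e07113e07113d07113c07112b0710c80710c78710bf0710b60710b58710c80e10c80710bf0e10bf0710ad0f10ac8710ac0710d08e10d08710c78e10c78710b58e10b58710ac8e10ac8710ac0e10ac0710b48e10b48710140f10130f10260e10260f10250e10250f10130e10130f10010e10010f10120e10120f10000e10000f0d348e0d34870d2b8e0d2b870d228e0d22870d198e0d19870d340e0d34070d2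b0e0d2b070d220e0d22070d190e0d19070c898e0c89870c808e0c80870c778e0c77870c6e870c6e070c920e0c92070c890e0c89070c800e0c80070c770e0c77070c6e0e0c6e070c65070c5b870c5b070c5b0e0c5b070c52070c48870c48070c480e0c48070c3f070bde8e0bde870bd58e0bd5870bcc870bcc070bde0e0bde070bd50e0bd5070bcc0e0bcc070bc3070bdd8e0bdd870bd48e0bd4870bcb8e0bcb870bc28e0bc2870bb9870bb9070bb8870bb8070bb7870bcb0e0bcb070bc20e0bc2070bb90e0bb9070bb0070baf870baf070bae870bae070bca8e0bca870bc18e0bc1870ba6870ba6070ba5870ba5070bca0e0bca070bc10e0bc1070ba60e0ba6070b9d070b9c870b9c070bb78e0bb7870bae8e0bae870ba58e0ba5870b9c8e0b9c870bae0e0bae070ba50e0ba5070b9c0e0b9c070b3c8e0b3c870b338e0b33870b3c0e0b3c070b330e0b33070b3b8e0b3b870b328e0b32870b298e0b29870b208e0b20870b16870b16070b15070b290e0b29070b200e0b20070b0d870b0d070b0c870b0c070b288e0b28870b1f8e0b1f870b04870b04070b03870b03070b280e0b28070b1f0e0b1f070b040e0b04070afb070afa870afa070b0c8e0b0c870b038e0b03870afa8e0afa870b150e0b15070b0c0e0b0c070b030e0b03070afa0e0afa070a73870a6b070a6a8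70a6a070a62870a62070a61870a61070a6b0e0a6b070a620e0a62070a59070a58870a58070a738e0a73870a6a8e0a6a870a618e0a61870a588e0a58870a4f870a6a0e0a6a070a610e0a61070a580e0a58070a4f0e0a4f070a46070a608e0a60870a578e0a57870a4e8e0a4e870a458e0a45870a570e0a57070a4e0e0a4e0709d20709d18709c90709c88709c80709bf8709bf0709d20e09d20709c90e09c90709b68709b60709d18e09d18709c88e09c88709bf8e09bf8709b68e09b68709ad8709c80e09c80709bf0e09bf0709b60e09b60709ad0e09ad0709a40709be8e09be8709b58e09b58709ac8e09ac8709a38e09a38709b50e09b50709ac0e09ac07)]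

theorem D1f_0_chk : checkC2 7 11 18 18 0 1 0 0 2 (fun j n p q => decide (D1f_0_K1 j n p q)) (fun j n p q => decide (D1f_0_K0 j n p q))
    0x0 0x20000000000000000000000000000000000000000000000000000000000000000000000000000000000000000000000000000000000000000000000000000000000000000000000000000000000000000000000000000000000000000000000000000000000000000000000000000000000000000000000000000000000000000000000000000000000000000000000000000000000000000000000000000000000000000000000000000000000000000000000000000000000000000000000000000000000000000000000000000000000000000000000000000000000000000000000000000000000000000000000000000000000000000000000000000000000000000000000000000000000000000000000000000000000000000000000000000000000000000000000000000000000000000000000000000000000000000000000000000000000000000000000000000000000000000000000000000000000000000000000000000000000000000000000000000000000000000000000000000000000000000000000000000000000000000000000000000000000000000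00000000000000000000000000000000000000000000000000000000000000000000000000000000000000000000000000000000000000000000000000000000000000000000000000000000000000000000000000000000000000000000000000000000000000000000000000000000000000000000000000000000000000000000000000000000000000000000000000000000000000000000000000000000000000000000000000000000000000000000000000000000000000000000000000000000000000000000000000000000000000000000000000000000000000000000000000000000000000000000000000000000000000000000000000000000000000000000000000000000000000000000000000000000000000000000000000000000000000000000000000000000000000000000000000000000000000000000000000000000000000000000000000000000000000000000000000000000000000000000000000000000000000000000000000000000000000000000000000000000000000000000000000000000000000000000000000000000000000000000000000000000000000000000000000000000000000000000000000000000000000000000000000000000000000000000000000000000000000000000000000000000000000000000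0000000000000000000000000000000000000000000000000000000000000000000000000000000000000000000000000000000000000000000000000000000000000000000000000000000000000000000000000000000000000000000000000000000000000000000000000000000000000000000000000000000000000000000000000000000000000000000000000000000000000000000000000000000000000000000000000000000000000000000000000000000000000000000000000000000000000000000000000000000000000000000000000000000000000000000000000000000000000000000000000000000000000000000000000000000000000000000000000000000000000000000000000000000000000000000000000000000 D1f_0_l = true := by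
  decide +kernel

theorem D1f_0 (hf : Rule f) (H : YH f k c n) (p0_4_10_5 : f (6 * k) (c + 4) (2 * n + 10) (2 * n + 5)) :
    ¬ f (6 * k) (c + 2) (2 * n + 4) (2 * n - 1) := by
  have I := H.P
  have hk := I.T.hk
  have hc := I.T.hc
  have h4 := I.T.h4
  have hb := I.T.hb
  have hN := I.T.hN2
  have sw : SwOK (6 * k - 2) (c - 5) (2 * n - 6) (2 * n - 6) 0 1 0 0 2 :=
    ⟨fun _ => rfl, fun h => absurd h (by decide), fun h => absurd h (by decide), by omega, by omega, by omega, by omega⟩
  have key := chain2_sound hf D1f_0_chk sw (fun j n' p q hr h => ?_) (fun j n' p q hr h => ?_)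
  · exact fun t => key.2 2 7 10 5 (by decide +kernel) (by decide +kernel) (mv t (by omega) (by omega) (by omega) (by omega))
  · have hx := of_decide_eq_true h
    obtain ⟨r1, r2, r3, r4, r5, r6, r7, r8⟩ := hr
    have l0 : Lay (6 * k) (c - 6) k := ⟨by omega, by omega, by omega, by omega⟩
    have l2 : Lay (6 * k + 2) (c - 4) k := ⟨by omega, by omega, by omega, by omega⟩
    have l0b : Lay (6 * k) (c - 2) k := ⟨by omega, by omega, by omega, by omega⟩
    unfold D1f_0_K1 at hx
    rcases hx with hx | hx | hx | hx | hx | hx | hx | hx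
    · exact (v0 l0b H.D0a (by omega) (by omega) (by omega) (by omega) (by omega)).2 (by unfold V0; omega)
    · exact (v1s l0b H.D0a (by omega) (by omega) (by omega) (by omega) (by omega) (by omega)).2 (by unfold V1; omega)
    · exact (v2s l0b H.D0a (by omega) (by omega) (by omega) (by omega) (by omega) (by omega)).2 (by unfold V2; omega)
    · exact (v3s l0b H.D0a (by omega) (by omega) (by omega) (by omega) (by omega) (by omega)).2 (by unfold V3; omega)
    · exact (v2s l0 H.D0b (by omega) (by omega) (by omega) (by omega) (by omega) (by omega)).2 (by unfold V2; omega)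
    · exact (v2s l2 H.D2 (by omega) (by omega) (by omega) (by omega) (by omega) (by omega)).2 (by unfold V2; omega)
    · exact (v3s l2 H.D2 (by omega) (by omega) (by omega) (by omega) (by omega) (by omega)).2 (by unfold V3; omega)
    · exact mv p0_4_10_5 (by omega) (by omega) (by omega) (by omega)
  · have hx := of_decide_eq_true h
    obtain ⟨r1, r2, r3, r4, r5, r6, r7, r8⟩ := hr
    have l0 : Lay (6 * k) (c - 6) k := ⟨by omega, by omega, by omega, by omega⟩
    have l2 : Lay (6 * k + 2) (c - 4) k := ⟨by omega, by omega, by omega, by omega⟩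
    have l0b : Lay (6 * k) (c - 2) k := ⟨by omega, by omega, by omega, by omega⟩
    unfold D1f_0_K0 at hx
    rcases hx with hx | hx | hx | hx | hx | hx | hx | hx | hx | hx | hx | hx | hx | hx | hx | hx
    · exact I.T.p0i hf (j := (11 - j) / 2) (by omega) (by omega) (by omega) (by omega) (by omega) (by omega)
    · exact fun t => I.T.rm1i hf (j := (10 - j) / 2) (p := 0) (by omega) (by omega) (by omega) (by omega) (by omega) (by omega) (mv t rfl (by omega) rfl rfl)
    · exact fun t => I.T.rm1 hf (j := (8 - j) / 2) (p := 0) (by omega) (by omega) (by omega) (by omega) (by omega) (by omega) (mv t rfl (by omega) rfl rfl)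
    · exact fun t => I.T.rm1 hf (j := (9 - j) / 2) (p := 1) (by omega) (by omega) (by omega) (by omega) (by omega) (by omega) (mv t rfl (by omega) rfl rfl)
    · exact I.T.rOut hf (t := 2) (j := (6 - j) / 2) (p := 0) (by omega) (by omega) (by omega) (by omega) (by omega) (by omega) (by omega) (by omega)
    · exact I.T.rOut hf (t := 2) (j := (7 - j) / 2) (p := 1) (by omega) (by omega) (by omega) (by omega) (by omega) (by omega) (by omega) (by omega)
    · exact I.T.p0 hf (j := (9 - j) / 2) (by omega) (by omega) (by omega) (by omega) (by omega) (by omega)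
    · exact I.T.pm hf (j := (7 - j) / 2) (by omega) (by omega) (by omega) (by omega) (by omega) (by omega)
    · exact fun t => absurd ((v1s l0b H.D0a (by omega) (by omega) (by omega) (by omega) (by omega) (by omega)).1 t) (by unfold V1; omega)
    · exact fun t => absurd ((v2s l0b H.D0a (by omega) (by omega) (by omega) (by omega) (by omega) (by omega)).1 t) (by unfold V2; omega)
    · exact fun t => absurd ((v3s l0b H.D0a (by omega) (by omega) (by omega) (by omega) (by omega) (by omega)).1 t) (by unfold V3; omega)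
    · exact fun t => absurd ((v3s l0 H.D0b (by omega) (by omega) (by omega) (by omega) (by omega) (by omega)).1 t) (by unfold V3; omega)
    · exact fun t => absurd ((v3s l2 H.D2 (by omega) (by omega) (by omega) (by omega) (by omega) (by omega)).1 t) (by unfold V3; omega)
    · exact fun t => I.T.r1 hf (j := (10 - j) / 2) (p := 0) (by omega) (by omega) (by omega) (by omega) (by omega) (by omega) (mv t rfl (by omega) rfl rfl)
    · exact fun t => H.z2 (2 * n - 6 + p) (2 * n - 6 + q) (by omega) (by omega) (by omega) (by omega) (by omega) (mv t (by omega) (by omega) rfl rfl)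
    · exact fun t => I.lw (6 * k - 1) (c - 5 + n') (2 * n - 6 + p) (2 * n - 6 + q) (by omega) (by omega) (by omega) (by omega) (by omega) (by omega) (mv t (by omega) rfl rfl rfl)

end Pool.Agent.SNT.L0Y
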