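import Pool.Agent.SNT.L0Yb
import Pool.Agent.SNT.LocChain2
import Pool.Agent.SNT.LW2

set_option autoImplicit false
set_option synthInstance.maxSize 1000
set_option linter.unusedVariables false

/-! Near-diagonal windows of the road L0 (X' = 0): D22. -/

namespace Pool.Agent.SNT.L0Y

open Pool.Agent.SNT Pool.Agent.SNT.Loc Pool.Agent.SNT.LW Pool.Agent.SNT.NHZ Pool.Agent.SNT.D1E

variable {f : ℕ → ℕ → ℕ → ℕ → Prop} {k c n : ℕ}

def D22_0_K1 (j n p q : ℕ) : Prop :=
    (j = 2 ∧ n = 3 ∧ 12 ≤ p ∧ p % 2 = 0 ∧ q % 2 = 1 ∧ q < p) ∨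
    (j = 2 ∧ n = 1 ∧ p % 2 = 1 ∧ q % 2 = 0 ∧ q < p) ∨
    (j = 2 ∧ n = 2 ∧ p = q ∧ p % 2 = 0) ∨
    (j = 4 ∧ n = 3 ∧ 7 ≤ q ∧ p % 2 = 1 ∧ q % 2 = 0 ∧ q < p) ∨
    (j = 2 ∧ n = 5 ∧ p = 13 ∧ q = 8)

def D22_0_K0 (j n p q : ℕ) : Prop :=
    ((n = 3 ∨ n = 2) ∧ j % 2 = 1 ∧ 1 ≤ j ∧ j ≤ 9 ∧ 9 ≤ p ∧ 2 * q + 11 ≤ 2 * p + j ∧ 2 * p ≤ 2 * q + 19 + j) ∨
    (n = 2 ∧ j % 2 = 0 ∧ 2 ≤ j ∧ j ≤ 8 ∧ 6 ≤ p ∧ 2 * q + 10 ≤ 2 * p + j ∧ 2 * p ≤ 2 * q + 20 + j) ∨
    ((n = 3 ∨ n = 2) ∧ j % 2 = 1 ∧ 1 ≤ j ∧ j ≤ 7 ∧ 7 ≤ q ∧ 2 * q + 9 ≤ 2 * p + j ∧ 2 * p ≤ 2 * q + 21 + j) ∨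
    (j = 2 ∧ n = 2 ∧ q ≤ p ∧ p ≤ q + 13 ∧ (q < p ∨ p % 2 = 1)) ∨
    (j = 1 ∧ q ≤ p)

instance (j n p q : ℕ) : Decidable (D22_0_K1 j n p q) := by unfold D22_0_K1; infer_instance

instance (j n p q : ℕ) : Decidable (D22_0_K0 j n p q) := by unfold D22_0_K0; infer_instance

def D22_0_l : List (ℕ × ℕ × ℕ × ℕ) := [
  (1, 4366, 212, 0x90183090200097aba097b00098200097b8a09899209118e090183090200090a1a091180091184089880088a8008990a08921208920e090183090200097aba098200097b00098992097b8a08990008920008920e089204097c00099100097c8a09989209208e0c2c8309208009208409040e0c17830904000904040888800888810887830888000888040fb8000fa90009a000097d0008b70008940008290008190008090007c00007bf0007ab0007aa000fb80f0fa90f0c2c070c338e0c33870c2c0e0c2c070c330e0c33070c2b8e0c2b870bc28e0bc28709a00f09908709818709a00e09a00f09748709738709728708b70f08a08708b70e08b70f089387089187089087088087087f8708308708290f08288708280708288e08288708210708370e08370708280e08280708190f081807081787081707081687081087081007080f87080f0708090f07c00f07bf0f07ce0e07ce0f07bf0e07bf0f061487060d07060c8706058706050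705fe0705fd8706148e061487060d0e060d0706058e06058705fe0e05fe0705f68705f607060c8e060c8706050e06050705fd8e05fd8705f60e05f60705ee8705a387059c87059c07059507059487058d87058d07059c8e059c8705950e059507058d8e058d8705860705858705a38e05a387059c0e059c0705948e059487058d0e058d0705858e058587057e07057d87057d0705760705758705158705150705148705150e051507050d87050d07050c8705148e051487050d0e050d0705058705050705048705040705038705030704fd0704fc8704fc0704fb8704a48704a40704a48e04a487049d07049c8704a40e04a407049c8e049c87049407049387049307049287048c87048c07048b87048b07)]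

theorem D22_0_chk : checkC2 5 8 15 15 0 1 1 1 2 (fun j n p q => decide (D22_0_K1 j n p q)) (fun j n p q => decide (D22_0_K0 j n p q))
    0x400000000000000000000000000000000000000000000000000000000000000000000000000000000000000000000000000000000000000000000000000000000000000000000000000000000000000000000000000000000000000000000000000000000000000000000000000000000000000000000000000000000000000000000000000000000000000000000000000000000000000000000000000000000000000000000000000000000000000000000000000000000000000000000000000000000000000000000000000000000000000000000000000000000000000000000000000000000000000000000000000000000000000000000000000000000000000000000000000000000000000000000000000000000000000000000000000000000000000000000000000000000000000000000000000000000000000000000000000000000000000000000000000000000000000000000000000000000000000000000000000000000000000000000000000000000000000000000000000000000000000000000000000000000000000000000000000000000000000000000000000000000000000000000000000000000000000000000000000000000000000000000000000000000000000000000000000000000000000000000000000000000000000000000000000000000000000000000000000000000000000000000000000000000000000000000000000000000000000000000000000000000000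 0x0 D22_0_l = true := by
  decide +kernel

theorem D22_0 (hf : Rule f) (H : YH f k c n) (p0_0_0_m5 : f (6 * k) (c) (2 * n) (2 * n - 5)) :
    f (6 * k) (c - 2) (2 * n - 7) (2 * n - 12) := by
  have I := H.P
  have hk := I.T.hk
  have hc := I.T.hc
  have h4 := I.T.h4
  have hb := I.T.hb
  have hN := I.T.hN2
  have sw : SwOK (6 * k - 2) (c - 5) (2 * n - 13) (2 * n - 13) 0 1 1 1 2 :=
    ⟨fun _ => rfl, fun h => absurd h (by decide), fun h => absurd h (by decide), by omega, by omega, by omega, by omega⟩
  have key := chain2_sound hf D22_0_chk sw (fun j n' p q hr h => ?_) (fun j n' p q hr h => ?_)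
  · exact mv (key.1 2 3 6 1 (by decide +kernel) (by decide +kernel)) (by omega) (by omega) (by omega) (by omega)
  · have hx := of_decide_eq_true h
    obtain ⟨r1, r2, r3, r4, r5, r6, r7, r8⟩ := hr
    have l0 : Lay (6 * k) (c - 6) k := ⟨by omega, by omega, by omega, by omega⟩
    have l2 : Lay (6 * k + 2) (c - 4) k := ⟨by omega, by omega, by omega, by omega⟩
    have l0b : Lay (6 * k) (c - 2) k := ⟨by omega, by omega, by omega, by omega⟩
    unfold D22_0_K1 at hx
    rcases hx with hx | hx | hx | hx | hx
    · exact (v0 l0b H.D0a (by omega) (by omega) (by omega) (by omega) (by omega)).2 (by unfold V0; omega)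
    · exact (v2s l0 H.D0b (by omega) (by omega) (by omega) (by omega) (by omega) (by omega)).2 (by unfold V2; omega)
    · exact (v3s l0 H.D0b (by omega) (by omega) (by omega) (by omega) (by omega) (by omega)).2 (by unfold V3; omega)
    · exact (v2s l2 H.D2 (by omega) (by omega) (by omega) (by omega) (by omega) (by omega)).2 (by unfold V2; omega)
    · exact mv p0_0_0_m5 (by omega) (by omega) (by omega) (by omega)
  · have hx := of_decide_eq_true h
    obtain ⟨r1, r2, r3, r4, r5, r6, r7, r8⟩ := hr
    have l0 : Lay (6 * k) (c - 6) k := ⟨by omega, by omega, by omega, by omega⟩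
    unfold D22_0_K0 at hx
    rcases hx with hx | hx | hx | hx | hx
    · exact I.T.pmi hf (j := (9 - j) / 2) (by omega) (by omega) (by omega) (by omega) (by omega) (by omega)
    · exact I.T.rIn hf (t := 3) (j := (8 - j) / 2) (p := 0) (by omega) (by omega) (by omega) (by omega) (by omega) (by omega) (by omega) (by omega)
    · exact I.T.pm hf (j := (7 - j) / 2) (by omega) (by omega) (by omega) (by omega) (by omega) (by omega)
    · exact fun t => absurd ((v3s l0 H.D0b (by omega) (by omega) (by omega) (by omega) (by omega) (by omega)).1 t) (by unfold V3; omega)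
    · exact fun t => I.lw (6 * k - 1) (c - 5 + n') (2 * n - 13 + p) (2 * n - 13 + q) (by omega) (by omega) (by omega) (by omega) (by omega) (by omega) (mv t (by omega) rfl rfl rfl)

end Pool.Agent.SNT.L0Y
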