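import Pool.Agent.SNT.PL

set_option autoImplicit false
set_option synthInstance.maxSize 100000
set_option synthInstance.maxHeartbeats 4000000

/-! The up-run of the column `2 n - 9` of `6 k + 2`, row `c - 2` (leads `n - 7`, `n - 5`, `n + 1`). -/

namespace Pool.Agent.SNT.N2U

open Pool.Agent.SNT Pool.Agent.SNT.Sig Pool.Agent.SNT.Loc Pool.Agent.SNT.LW Pool.Agent.SNT.NHZ Pool.Agent.SNT.DRun
open Pool.Agent.SNT.PB Pool.Agent.SNT.D1E

variable {f : ℕ → ℕ → ℕ → ℕ → Prop}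

theorem n2_up_chk : check 12 6 13 28 0 0 0 1 0
    (fun j n p q => decide ((j = 2 ∧ n = 1 ∧ 2 ≤ p ∧ q ≤ p + 15 ∧ p + 1 ≤ q ∧ ((p + q + 1) % 2 = 0 ∧ q ≤ p + 1 ∧ (p + q + 1) % 4 = 0))
      ∨ (j = 2 ∧ n = 2 ∧ 5 ≤ p ∧ q ≤ p + 1 ∧ (((p + q + 1) % 2 = 1 ∧ p + 2 ≤ q ∧ p % 2 = 0) ∨ ((p + q + 1) % 2 = 1 ∧ q ≤ p + 2 ∧ (p + q + 2) % 4 = 0)))
      ∨ (j = 12 ∧ n = 4 ∧ 13 ≤ q ∧ q ≤ p + 15 ∧ p + 0 ≤ q ∧ (((p + q + 1) % 2 = 1 ∧ p + 0 ≤ q ∧ p % 2 = 0) ∨ ((p + q + 1) % 2 = 1 ∧ q ≤ p + 0 ∧ (p + q + 2) % 4 = 2)))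
      ∨ (j = 4 ∧ n = 2 ∧ 5 ≤ p ∧ q ≤ p + 15 ∧ (((p + q + 1) % 2 = 1 ∧ p + 2 ≤ q ∧ p % 2 = 1) ∨ ((p + q + 1) % 2 = 1 ∧ q ≤ p + 2 ∧ (p + q + 0) % 4 = 0)))
      ∨ (j = 4 ∧ n = 3 ∧ 6 ≤ p ∧ q ≤ p + 15 ∧ p + 1 ≤ q ∧ ((p + q + 1) % 2 = 0 ∧ q ≤ p + 1 ∧ (p + q + 1) % 4 = 0))
      ∨ (j = 6 ∧ n = 1 ∧ 2 ≤ p ∧ q ≤ p + 15 ∧ p + 1 ≤ q ∧ ((p + q + 1) % 2 = 0 ∧ q ≤ p + 1 ∧ (p + q + 1) % 4 = 0))
      ∨ (j = 6 ∧ n = 2 ∧ 5 ≤ p ∧ q ≤ p + 1 ∧ (((p + q + 1) % 2 = 1 ∧ p + 2 ≤ q ∧ p % 2 = 0) ∨ ((p + q + 1) % 2 = 1 ∧ q ≤ p + 2 ∧ (p + q + 2) % 4 = 0)))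
      ∨ (j = 8 ∧ n = 2 ∧ 5 ≤ p ∧ q ≤ p + 15 ∧ (((p + q + 1) % 2 = 1 ∧ p + 0 ≤ q ∧ p % 2 = 1) ∨ ((p + q + 1) % 2 = 1 ∧ q ≤ p + 0 ∧ (p + q + 0) % 4 = 2)))
      ∨ (j = 10 ∧ n = 4 ∧ 9 ≤ p ∧ q ≤ p + 15 ∧ p + 2 ≤ q ∧ (((p + q + 1) % 2 = 1 ∧ p + 0 ≤ q ∧ p % 2 = 1) ∨ ((p + q + 1) % 2 = 1 ∧ q ≤ p + 0 ∧ (p + q + 0) % 4 = 2)))
      ∨ (j = 10 ∧ n = 2 ∧ 7 ≤ q ∧ q ≤ p + 15 ∧ p + 0 ≤ q ∧ (((p + q + 1) % 2 = 1 ∧ p + 0 ≤ q ∧ p % 2 = 0) ∨ ((p + q + 1) % 2 = 1 ∧ q ≤ p + 0 ∧ (p + q + 2) % 4 = 2)))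
      ∨ (j = 4 ∧ n = 4 ∧ p = 3 ∧ q = 9)))
    (fun j n p q => decide ((j = 2 ∧ n = 1 ∧ 2 ≤ p ∧ q ≤ p + 15 ∧ p + 1 ≤ q ∧ ¬ ((p + q + 1) % 2 = 0 ∧ q ≤ p + 1 ∧ (p + q + 1) % 4 = 0))
      ∨ (j = 2 ∧ n = 2 ∧ 5 ≤ p ∧ q ≤ p + 1 ∧ ¬ (((p + q + 1) % 2 = 1 ∧ p + 2 ≤ q ∧ p % 2 = 0) ∨ ((p + q + 1) % 2 = 1 ∧ q ≤ p + 2 ∧ (p + q + 2) % 4 = 0)))
      ∨ (j = 4 ∧ n = 2 ∧ 5 ≤ p ∧ q ≤ p + 15 ∧ ¬ (((p + q + 1) % 2 = 1 ∧ p + 2 ≤ q ∧ p % 2 = 1) ∨ ((p + q + 1) % 2 = 1 ∧ q ≤ p + 2 ∧ (p + q + 0) % 4 = 0)))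
      ∨ (j = 4 ∧ n = 3 ∧ 6 ≤ p ∧ q ≤ p + 15 ∧ p + 1 ≤ q ∧ ¬ ((p + q + 1) % 2 = 0 ∧ q ≤ p + 1 ∧ (p + q + 1) % 4 = 0))
      ∨ (j = 6 ∧ n = 1 ∧ 2 ≤ p ∧ q ≤ p + 15 ∧ p + 1 ≤ q ∧ ¬ ((p + q + 1) % 2 = 0 ∧ q ≤ p + 1 ∧ (p + q + 1) % 4 = 0))
      ∨ (j = 6 ∧ n = 2 ∧ 5 ≤ p ∧ q ≤ p + 1 ∧ ¬ (((p + q + 1) % 2 = 1 ∧ p + 2 ≤ q ∧ p % 2 = 0) ∨ ((p + q + 1) % 2 = 1 ∧ q ≤ p + 2 ∧ (p + q + 2) % 4 = 0)))
      ∨ (j = 8 ∧ n = 3 ∧ 6 ≤ p ∧ q ≤ p + 15 ∧ p ≤ q + 1 ∧ ¬ ((p + q + 1) % 2 = 0 ∧ q + 1 ≤ p ∧ (p + q + 1) % 4 = 2))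
      ∨ (j = 8 ∧ n = 1 ∧ 5 ≤ q ∧ q ≤ p + 15 ∧ p + 0 ≤ q ∧ ¬ ((p + q + 1) % 2 = 0 ∧ q + 1 ≤ p ∧ (p + q + 3) % 4 = 2))
      ∨ (j = 10 ∧ n = 3 ∧ 9 ≤ q ∧ q ≤ p + 15 ∧ p + 0 ≤ q ∧ ¬ ((p + q + 1) % 2 = 0 ∧ q + 1 ≤ p ∧ (p + q + 3) % 4 = 2))
      ∨ (j = 1 ∧ n = 4 ∧ q ≤ p + 15 ∧ p + 0 ≤ q)
      ∨ (j = 1 ∧ n = 3 ∧ q ≤ p + 15 ∧ p + 0 ≤ q)
      ∨ (j = 1 ∧ n = 2 ∧ q ≤ p + 15 ∧ p + 0 ≤ q)
      ∨ (j = 1 ∧ n = 1 ∧ q ≤ p + 15 ∧ p + 0 ≤ q)
      ∨ (j = 3 ∧ n = 2 ∧ 4 ≤ p ∧ q ≤ p + 14 ∧ p + 5 ≤ q)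
      ∨ (j = 5 ∧ n = 2 ∧ 4 ≤ p ∧ q ≤ p + 15 ∧ p + 4 ≤ q)
      ∨ (j = 7 ∧ n = 2 ∧ 4 ≤ p ∧ q ≤ p + 15 ∧ p + 3 ≤ q)
      ∨ (j = 7 ∧ n = 4 ∧ 8 ≤ p ∧ q ≤ p + 15 ∧ p + 4 ≤ q)
      ∨ (j = 9 ∧ n = 4 ∧ 8 ≤ p ∧ q ≤ p + 15 ∧ p + 3 ≤ q)
      ∨ (j = 2 ∧ n = 3 ∧ 5 ≤ p ∧ q ≤ p + 13 ∧ p + 6 ≤ q)
      ∨ (j = 2 ∧ n = 1 ∧ q ≤ p + 14 ∧ p + 5 ≤ q)
      ∨ (j = 3 ∧ n = 3 ∧ 5 ≤ p ∧ q ≤ p + 13 ∧ p + 6 ≤ q)
      ∨ (j = 3 ∧ n = 1 ∧ q ≤ p + 14 ∧ p + 5 ≤ q)
      ∨ (j = 4 ∧ n = 3 ∧ 5 ≤ p ∧ q ≤ p + 14 ∧ p + 5 ≤ q)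
      ∨ (j = 4 ∧ n = 1 ∧ q ≤ p + 15 ∧ p + 4 ≤ q)
      ∨ (j = 5 ∧ n = 3 ∧ 5 ≤ p ∧ q ≤ p + 14 ∧ p + 5 ≤ q)
      ∨ (j = 5 ∧ n = 1 ∧ q ≤ p + 15 ∧ p + 4 ≤ q)
      ∨ (j = 6 ∧ n = 3 ∧ 5 ≤ p ∧ q ≤ p + 15 ∧ p + 4 ≤ q)
      ∨ (j = 6 ∧ n = 1 ∧ q ≤ p + 15 ∧ p + 3 ≤ q)
      ∨ (j = 7 ∧ n = 3 ∧ 5 ≤ p ∧ q ≤ p + 15 ∧ p + 4 ≤ q)
      ∨ (j = 7 ∧ n = 1 ∧ q ≤ p + 15 ∧ p + 3 ≤ q)
      ∨ (j = 8 ∧ n = 3 ∧ 5 ≤ p ∧ q ≤ p + 15 ∧ p + 3 ≤ q)
      ∨ (j = 9 ∧ n = 3 ∧ 5 ≤ p ∧ q ≤ p + 15 ∧ p + 3 ≤ q)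
      ∨ (j = 7 ∧ n = 4 ∧ 10 ≤ p ∧ q ≤ p + 15 ∧ p + 2 ≤ q)
      ∨ (j = 7 ∧ n = 3 ∧ 10 ≤ p ∧ q ≤ p + 15 ∧ p + 2 ≤ q)
      ∨ (j = 9 ∧ n = 4 ∧ 10 ≤ p ∧ q ≤ p + 15 ∧ p + 1 ≤ q)
      ∨ (j = 9 ∧ n = 3 ∧ 10 ≤ p ∧ q ≤ p + 15 ∧ p + 1 ≤ q)
      ∨ (j = 4 ∧ n = 4 ∧ p = 3 ∧ q = 15)))
    1256
    0x14178314180014188a0b82030fc5801417d2185b801869921cca031869801869840fc6800fc684141783140a00140a04210103186a80186a811417801417841cca0318698018698114090014090420f403185d80186b9214188014188420f303185c80185c84144f031893800baa801ce65a0bb91a211c000ffd80212a9a14424a1886001886041ce603188580188584210203186b80186b8429890320f28020f284297b0320e48020e4842554052545802998ca298a4a20f40020f40416ff0313630013630412b90317a50017a50412b90317a5001869ba186a00186a0412b90317b30017b3042997832101002101042546852538002998d2298a52210180210184297c0320e58020e5842146831ce6001ce604297b8320e50020e504298a0320f38020f38421388318a20018a20429898320f30020f304297c8320e60020e6041f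79031beb001beb0416ff031371001371042997032100802100842146831ce600212aca1cca001cca0416e28313548013548412ba03137000137004280f0328b70028b70428108328c68028c6840a22030e66800e66840a16030f10000f10041f6b0316d48016d48416fe831370801370841f8803203e00203e04280f8328b78028b78412ba031362001362041f87831bf9801bf9841f7903202f00202f040b81030fc5000fc504321103298880298884280f032481002481040a23030e67000e670416ff0317b50017b5041f6a8316d40016d404323b8329970029970416ff8317a78017a78429b303211c80211c841fcc032082002082040b90830fd4800fd484281003247400247404322003297b80297b840b90030fd4000fd404322e032997802997840a4c030b02800b028416ff831371801371840e91030b03000b03042810832482802482841b36031bec001bec0416ff831363801363840a21030a21800a21840a23030f1d000f1d040a21030a21800a220a0a22800a22843211832989002989040e91030f47800f47841f7a0316e38016e384323b8329a50029a5041f7983202f80202f841fda031c4c801c4c84322103297c80297c840a24030f1e000f1e04323b0329a48029a484323c832ddc002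ddc0416fd8317a58017a5842998832102002102040a15030f0f000f0f0416ff0317a70017a7041f788316e20016e2041f78831bea801bea841f7a03203000203004323c832998002998040e9f030f55000f5504323b032996802996841f870316f08016f0841fcc031c3e001c3e0416fe0317a60017a60412ba0316f00016f0040bab830fef800fef840b8f030fd3000fd30416ff8317b58017b584323d832ddd002ddd04322103298a80298a84320303296c80296c840bba030ffe000ffe040a3e030af4800af484129e0313540013540416fd8317b38017b3840bac030ff0000ff004280e8328b68028b68428100324820024820428108324748024748418a10318a18018a184322083298a00298a04323b832ddb00321fca2dbf002dbf0412ab83136f80136f840a21030a21800a220a0a22800a230a0ad9800ad9841c4b831c4c001c4c040b10830f54800f548412b903136f00136f0432110328c48028c4840e5a830f10800f1084320383296d00296d040b8f830fd3800fd384129d03135300135304321183297b00297b041f790316e28016e284323d032998802998840a21030a21800a220a0a22800a230a0a23800a23841f88031bfa001bfa042810831f6c001f6c04280f831f6b001f6b040a2403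0e68000e6804280e831f6a001f6a04280f831f6b001f799a1beb801beb841f870316f08016fe9212ab8012ba1a13628013628416fe8317b48017b4843220032989802989841f87031bf9001bf9040a4c030f46800f4684321103297a80297a841f7883202e80202e8428100328c60028c60429ce8321380021380427f3831f5d001f5d040bc683100a80100a8412ba030e59800e59841f880316f18016f184280f832473802473840a21030a21800a220a0ad8800ad884320503296e80296e841c4b831d02001d0204280f8328c58028c5840a16030e5a000e5a0416fe83129e00129e0416fe0317b40017b4041f86831bf8801bf884280f031f6a801f6a840a23030ad9000ad90412b90313610013610428100328b80028b8041fbd031c2f801c2f84280f031f78801f78840a21030a21800a220a0a22800a230a0e67800e6784320483296e00296e041f8703203d00203d04280f0324730024730427f2831f5c001f5c04280f831f79001f79040b82030fc6000fc6040a16030acc000acc040a3e030a3e800a3e842810831f7a001f7a040a24030ada000ada04280e832472802472841f8683203c80203c8416fd83129d00129d04280e832480802480840e59830f0f800f0f841f8783203d80203d84280f8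32481802481840bb9030ffd000ffd04280f831f79001f879a16f10016f10412ab831361801361840e91030f47000f47040a15030acb000acb042810031f6b801f6b8416fe8317a68017a684320403296d80296d840a15030e59000e59040bc703100b00100b040a21030a21800a220a0a22800a230a0f1d800f1d84323c832ddc003220ca297c00297c0428108328b88028b884280e831f78001f780427f3031f5c801f5c840a24830f1e800f1e8432118328c50028c5040a4c030b02000b02042810031f79801f7984123a8012ff3a368200368100368000367f003665003664003663003649003648003647002e07802e06802e05802c8d002c8c002c8b002c8a002c71002c70002c6f002c6e002c55002c54002c53002c52002c38002c37002c3600242c80240f8023da8023d98023d8801b86801ad1001ab40014168013b500139800130d0012ff8012e38012e28012c98012c88012c78012c6800a76800a598009c10009a400098700096a0036820f36810f36800f367f0f36650f36640f36630f36490f36480f36470f2e078f2e068f2e058f2df9872df8872df7872df6872ddc872ddb872dc0872dbf872dbe872d43872d43072d42872d42072d41872d41072d40872d35872d35072d34872d34072d33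872d33072d32872d27072d26872d26072d25872d25072d19072d18872d18072d17872d17072d16872d0b072d0a872d0a072d09872d09072d08872cfd072cfc872cfc072cfb872cfb072cfa872c8d0f2c8c0f2c8b0f2c8a0f2c710f2c700f2c6f0f2c6e0f2c550f2c540f2c530f2c520f2c380f2c370f2c360f29ce8729ce0729c08729c00729b30729b287291887291807290a87290a0728fd0728fc8728ef0728ee8728e28728e20728e18728e10728e08728d48728d40728d38728d30728d287258a87256e8725548725538725528725388725378725368724d48724d40724c68724c60724b90724b88724ab0724aa87249e87249e07249d87249d07249c87249087249007248f87248f07248e87242c8f240f8f23da8f23d98f23d88f23cc8723cb8723ca8723af8723ae8723168723160723158723150723148723140723088723080723078723070723068723060722f98722f90722f88722f80722eb8722eb0722ea8722ea07214687214607213887212a87212a07209087209007208287207487207407206687206607204c07204b87204b07204a871fcc071fbe071fbd871faf071f88071f87871f87071f86871f86071f16071f08071f07871ef9071ed2071ed1871ed1071ed0871ed0071ec4071ec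3871ec3071ec2871ec2071eb6071eb5871eb5071eb4871eb4071ea7071ea6871ea6071d02871ce6871ce5871cc9871caf871cae871c3e871c30871c30071c22871c22071c21871c14071c13871c08071c07871c07071c06871c06071c05871b95871b95071b87071b868f1b79871b78871b43871b42871b27871b26871ae0071adf871ad2071ad1871ad10f1ac4071ac3871ac3071ac2871ab5071ab4871ab40f1a8e071a8d871a8d071a8c871a8c071a80071a7f871a7f071a7e871a7e071a72071a71871a71071a70871a70071a63071a62871a620717de0717d00717cf8717c20717c18716ff8716ff0716fe8716fe0716fd8716fd07164987164907164887164807164787164707163c07163b87163b07163a87163a07163987163907162e07162d87162c87162c07161e87161e07145c8714418714408714278714268714258714198714168f140a8714098713b50f13a70713a68713990713988713980f138c07138b87138b07138a87137e07137d87130d0f12ff8f12ff0712fe8712f10712f08712e38f12e28f12c98f12c88f12c78f12c68f12bb8712ba8712b98712b887129e87129d87129c8712058712050712048712040712038712030712028711f78711f70711f68711f60711f58711f50711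f48711e88711e80711e78711e70711e68711da8711da0711d98711d90711d8870f48070f3a070f39870e83070e76070e75870e75070e74870dcd070dc0070dbf870dbf070dbe870db2070db1870db1070db0870da4870da4070da3870da3070da2870d96870d96070d95870d95070d94870bb9870bb8870b9d870b82870b81870b80870b04070af6070af5870a768f0a5a070a598f0a4c870a4b870a2f870a16870a15870a14870a13870a128709c10f09a50709a48709a40f09970709968709960709958709890709888709880709878709870f097a07097987096e87096e07096d87096d07096c87096c07096b87096b07096a87096a0f096087096007095f87095f07095e87095e07095d87095d07095c87095287095207095187095107095087078307078287078207077607077587077507077487077407076807076787076707076687075a07075987075907074c87074c07074b87074b07074a87073e87073e07073d87073d07073c87073007072f87072f07072e8706cd0706cc8706cc0706c00706bf8706bf0706be8706be0706b20706b18706b10706b08706a40706a38706a307069687069607069587069507069487068887068807068787068707068687067a0706798706790706788706168706160706088706080706078705fa0705f98705ec0705eb8705e08705e00705df8705df0705de8705de0705dd8705dd0705dc8705d28705d20705d18705d10705d08705d00705cf8705cf0705ce8705c40705c38705c30705c287055207055187054407054387053607053587052a87052a07052987052907052887052807052787052707052687051c87051c07051b87051b07051a87051a07051987051907051887050e07050d87050d07050c87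 = true := by
  decide +kernel

/-- The in-line `n - 5` of `6 k + 2` is present at the 4th cell if it is at the first. -/
theorem n2_up (hf : Rule f) {k c n M : ℕ} (H : PL f k c n M) (hM4 : M + 4 = n) (C2 : Cyc f (6 * k + 2) (c - 4) (2 * (n - 5) + 2))
    (h0 : f (6 * k + 2) (c - 2) (2 * n - 9) (2 * n - 4 - 2 * k)) : f (6 * k + 2) (c - 2) (2 * n - 9) (2 * n + 2 - 2 * k) := by
  by_contra z0
  have hk := H.T.hk
  have hc := H.T.hc
  have h4' := H.T.h4
  have hb := H.T.hb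
  have hN := H.T.hN2
  obtain ⟨a0, ha0⟩ : ∃ z, z + 2 = 6 * k := ⟨6 * k - (2), by omega⟩
  obtain ⟨b0, hb0⟩ : ∃ z, z + 6 = c := ⟨c - (6), by omega⟩
  obtain ⟨x0, hx0⟩ : ∃ z, z + 12 = 2 * n := ⟨2 * n - (12), by omega⟩
  obtain ⟨y0, hy0⟩ : ∃ z, z + 2 * k + 13 = 2 * n := ⟨2 * n - (2 * k + 13), by omega⟩
  refine check_sound hf (a0 := a0) (b0 := b0) (x0 := x0) (y0 := y0) n2_up_chk
    ⟨fun h => absurd h (by decide), fun h => absurd h (by decide), fun h => absurd h (by decide), by omega, by omega,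
      by omega, by omega⟩ ?_ ?_
  · intro j m p q hr h
    obtain ⟨-, -, -, -, hp1, hp2, hq1, hq2⟩ := hr
    replace h := of_decide_eq_true h
    rcases h with h | h | h | h | h | h | h | h | h | h | h
    · obtain ⟨rfl, rfl, h⟩ := h
      exact (WrapC.v1 H.c0 (by omega) (by omega) (by omega) (by omega) (by omega) (by omega) (by omega) (by omega)).mpr (by omega)
    · obtain ⟨rfl, rfl, h⟩ := h
      exact (WrapC.v2 H.c0 (by omega) (by omega) (by omega) (by omega) (by omega) (by omega) (by omega)).mpr (by omega)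
    · obtain ⟨rfl, rfl, h⟩ := h
      exact (NW.w2v H.c10a (by omega) (by omega) (by omega) (by omega) (by omega) (by omega) (by omega)).mpr (by omega)
    · obtain ⟨rfl, rfl, h⟩ := h
      exact (WrapC.v0 C2 (by omega) (by omega) (by omega) (by omega) (by omega) (by omega) (by omega)).mpr (by omega)
    · obtain ⟨rfl, rfl, h⟩ := h
      exact (WrapC.v1 C2 (by omega) (by omega) (by omega) (by omega) (by omega) (by omega) (by omega) (by omega)).mpr (by omega)
    · obtain ⟨rfl, rfl, h⟩ := h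
      exact (WrapC.v1 H.c4a (by omega) (by omega) (by omega) (by omega) (by omega) (by omega) (by omega) (by omega)).mpr (by omega)
    · obtain ⟨rfl, rfl, h⟩ := h
      exact (WrapC.v2 H.c4a (by omega) (by omega) (by omega) (by omega) (by omega) (by omega) (by omega)).mpr (by omega)
    · obtain ⟨rfl, rfl, h⟩ := h
      exact (WrapC.v0 H.c6 (by omega) (by omega) (by omega) (by omega) (by omega) (by omega) (by omega)).mpr (by omega)
    · obtain ⟨rfl, rfl, h⟩ := h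
      exact (NW.w0v H.c8 (by omega) (by omega) (by omega) (by omega) (by omega) (by omega) (by omega)).mpr (by omega)
    · obtain ⟨rfl, rfl, h⟩ := h
      exact (NW.w2v H.c8a (by omega) (by omega) (by omega) (by omega) (by omega) (by omega) (by omega)).mpr (by omega)
    · obtain ⟨rfl, rfl, rfl, rfl⟩ := h
      exact mv h0 (by omega) (by omega) (by omega) (by omega)
  · intro j m p q hr h
    obtain ⟨-, -, -, -, hp1, hp2, hq1, hq2⟩ := hr
    replace h := of_decide_eq_true h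
    rcases h with h | h | h | h | h | h | h | h | h | h | h | h | h | h | h | h | h | h | h | h | h | h | h | h | h | h | h | h | h | h | h | h | h | h | h | h | h
    · obtain ⟨rfl, rfl, h⟩ := h
      exact mt (WrapC.v1 H.c0 (by omega) (by omega) (by omega) (by omega) (by omega) (by omega) (by omega) (by omega)).mp (by omega)
    · obtain ⟨rfl, rfl, h⟩ := h
      exact mt (WrapC.v2 H.c0 (by omega) (by omega) (by omega) (by omega) (by omega) (by omega) (by omega)).mp (by omega)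
    · obtain ⟨rfl, rfl, h⟩ := h
      exact mt (WrapC.v0 C2 (by omega) (by omega) (by omega) (by omega) (by omega) (by omega) (by omega)).mp (by omega)
    · obtain ⟨rfl, rfl, h⟩ := h
      exact mt (WrapC.v1 C2 (by omega) (by omega) (by omega) (by omega) (by omega) (by omega) (by omega) (by omega)).mp (by omega)
    · obtain ⟨rfl, rfl, h⟩ := h
      exact mt (WrapC.v1 H.c4a (by omega) (by omega) (by omega) (by omega) (by omega) (by omega) (by omega) (by omega)).mp (by omega)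
    · obtain ⟨rfl, rfl, h⟩ := h
      exact mt (WrapC.v2 H.c4a (by omega) (by omega) (by omega) (by omega) (by omega) (by omega) (by omega)).mp (by omega)
    · obtain ⟨rfl, rfl, h⟩ := h
      exact mt (WrapC.v1 H.c6 (by omega) (by omega) (by omega) (by omega) (by omega) (by omega) (by omega) (by omega)).mp (by omega)
    · obtain ⟨rfl, rfl, h⟩ := h
      exact mt (WrapC.v3 H.c6a (by omega) (by omega) (by omega) (by omega) (by omega) (by omega) (by omega) (by omega)).mp (by omega)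
    · obtain ⟨rfl, rfl, h⟩ := h
      exact mt (NW.w3v H.c8a (by omega) (by omega) (by omega) (by omega) (by omega) (by omega) (by omega) (by omega)).mp (by omega)
    · obtain ⟨rfl, rfl, h⟩ := h
      exact H.lw _ _ _ _ (by omega) (by omega) (by omega) (by omega) (by omega) (by omega)
    · obtain ⟨rfl, rfl, h⟩ := h
      exact H.lw _ _ _ _ (by omega) (by omega) (by omega) (by omega) (by omega) (by omega)
    · obtain ⟨rfl, rfl, h⟩ := h
      exact H.lw _ _ _ _ (by omega) (by omega) (by omega) (by omega) (by omega) (by omega)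
    · obtain ⟨rfl, rfl, h⟩ := h
      exact H.lw _ _ _ _ (by omega) (by omega) (by omega) (by omega) (by omega) (by omega)
    · obtain ⟨rfl, rfl, h⟩ := h
      exact NHT.pIn hf H.T (t := 3) (j := 2) (by omega) (by omega) (by omega) (by omega) (by omega) (by omega) (by omega)
    · obtain ⟨rfl, rfl, h⟩ := h
      exact NHT.pIn hf H.T (t := 3) (j := 1) (by omega) (by omega) (by omega) (by omega) (by omega) (by omega) (by omega)
    · obtain ⟨rfl, rfl, h⟩ := h
      exact NHT.pIn hf H.T (t := 3) (j := 0) (by omega) (by omega) (by omega) (by omega) (by omega) (by omega) (by omega)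
    · obtain ⟨rfl, rfl, h⟩ := h
      exact NHT.pmi hf H.T (j := 1) (by omega) (by omega) (by omega) (by omega) (by omega) (by omega)
    · obtain ⟨rfl, rfl, h⟩ := h
      exact NHT.pmi hf H.T (j := 0) (by omega) (by omega) (by omega) (by omega) (by omega) (by omega)
    · obtain ⟨rfl, rfl, h⟩ := h
      exact NHT.rIn hf H.T (t := 3) (p := 0) (j := 3) (by omega) (by omega) (by omega) (by omega) (by omega) (by omega) (by omega) (by omega)
    · obtain ⟨rfl, rfl, h⟩ := h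
      exact NHT.rIn hf H.T (t := 2) (p := 0) (j := 2) (by omega) (by omega) (by omega) (by omega) (by omega) (by omega) (by omega) (by omega)
    · obtain ⟨rfl, rfl, h⟩ := h
      exact NHT.rIn hf H.T (t := 3) (p := 1) (j := 3) (by omega) (by omega) (by omega) (by omega) (by omega) (by omega) (by omega) (by omega)
    · obtain ⟨rfl, rfl, h⟩ := h
      exact NHT.rIn hf H.T (t := 2) (p := 1) (j := 2) (by omega) (by omega) (by omega) (by omega) (by omega) (by omega) (by omega) (by omega)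
    · obtain ⟨rfl, rfl, h⟩ := h
      exact NHT.rIn hf H.T (t := 3) (p := 0) (j := 2) (by omega) (by omega) (by omega) (by omega) (by omega) (by omega) (by omega) (by omega)
    · obtain ⟨rfl, rfl, h⟩ := h
      exact NHT.rIn hf H.T (t := 2) (p := 0) (j := 1) (by omega) (by omega) (by omega) (by omega) (by omega) (by omega) (by omega) (by omega)
    · obtain ⟨rfl, rfl, h⟩ := h
      exact NHT.rIn hf H.T (t := 3) (p := 1) (j := 2) (by omega) (by omega) (by omega) (by omega) (by omega) (by omega) (by omega) (by omega)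
    · obtain ⟨rfl, rfl, h⟩ := h
      exact NHT.rIn hf H.T (t := 2) (p := 1) (j := 1) (by omega) (by omega) (by omega) (by omega) (by omega) (by omega) (by omega) (by omega)
    · obtain ⟨rfl, rfl, h⟩ := h
      exact NHT.rIn hf H.T (t := 3) (p := 0) (j := 1) (by omega) (by omega) (by omega) (by omega) (by omega) (by omega) (by omega) (by omega)
    · obtain ⟨rfl, rfl, h⟩ := h
      exact NHT.rIn hf H.T (t := 2) (p := 0) (j := 0) (by omega) (by omega) (by omega) (by omega) (by omega) (by omega) (by omega) (by omega)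
    · obtain ⟨rfl, rfl, h⟩ := h
      exact NHT.rIn hf H.T (t := 3) (p := 1) (j := 1) (by omega) (by omega) (by omega) (by omega) (by omega) (by omega) (by omega) (by omega)
    · obtain ⟨rfl, rfl, h⟩ := h
      exact NHT.rIn hf H.T (t := 2) (p := 1) (j := 0) (by omega) (by omega) (by omega) (by omega) (by omega) (by omega) (by omega) (by omega)
    · obtain ⟨rfl, rfl, h⟩ := h
      exact NHT.rIn hf H.T (t := 3) (p := 0) (j := 0) (by omega) (by omega) (by omega) (by omega) (by omega) (by omega) (by omega) (by omega)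
    · obtain ⟨rfl, rfl, h⟩ := h
      exact NHT.rIn hf H.T (t := 3) (p := 1) (j := 0) (by omega) (by omega) (by omega) (by omega) (by omega) (by omega) (by omega) (by omega)
    · obtain ⟨rfl, rfl, h⟩ := h
      exact NHU.pmi hf H.U (j := 1) (by omega) (by omega) (by omega) (by omega) (by omega) (by omega)
    · obtain ⟨rfl, rfl, h⟩ := h
      exact NHU.pmi hf H.U (j := 1) (by omega) (by omega) (by omega) (by omega) (by omega) (by omega)
    · obtain ⟨rfl, rfl, h⟩ := h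
      exact NHU.pmi hf H.U (j := 0) (by omega) (by omega) (by omega) (by omega) (by omega) (by omega)
    · obtain ⟨rfl, rfl, h⟩ := h
      exact NHU.pmi hf H.U (j := 0) (by omega) (by omega) (by omega) (by omega) (by omega) (by omega)
    · obtain ⟨rfl, rfl, rfl, rfl⟩ := h
      exact fun t => z0 (mv t (by omega) (by omega) (by omega) (by omega))

end Pool.Agent.SNT.N2U
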