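import Pool.Agent.SNT.TrR
import Pool.Agent.SNT.TrC
import Pool.Agent.SNT.TipK0
import Pool.Agent.SNT.L0XR
import Pool.Agent.SNT.L0N2
import Pool.Agent.SNT.N2U

set_option autoImplicit false
set_option linter.unusedVariables false

/-! The E-cell of the road L0 at the special position `X' = 0` (`v = k - 3`): the chain (helper38's chain, helper85).

Frame: `c`, `n` the cycle before the cycle of the cell, `n' = n + (k + 2)` the lead of the cycle of the cell (row `c + 4`).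
All cells are written over `n`; the wall of the cycle `c + 4` is at `x = 2 n + 2 k + 4 - ...`. -/

namespace Pool.Agent.SNT.L0Y

open Pool.Agent.SNT Pool.Agent.SNT.Sig Pool.Agent.SNT.Loc Pool.Agent.SNT.LW Pool.Agent.SNT.NHZ Pool.Agent.SNT.DRun
open Pool.Agent.SNT.D1E Pool.Agent.SNT.L0E Pool.Agent.SNT.PB Pool.Agent.SNT.L0X

variable {f : ℕ → ℕ → ℕ → ℕ → Prop}

/-- to the left along `y = 2 n - 1` in the row `c + 2` of `6 k` -/
theorem run_m1 (hf : Rule f) {k c n M : ℕ} (H : PL f k c n M) (h : f (6 * k) (c + 2) (2 * n + 2 * k - 8) (2 * n - 1)) :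
    f (6 * k) (c + 2) (2 * n + 4) (2 * n - 1) := by
  have T := H.T
  have hk := T.hk
  have hc := T.hc
  have hN := T.hN2
  refine left_run hf (x0 := 2 * n + 4) (x1 := 2 * n + 2 * k - 8) (by omega) (by omega) (by omega) (by omega) ?_ ?_ h
    (2 * n + 4) le_rfl (by omega) (by omega)
  · intro L' R' x' y' h1 h2 h3 h4 h5 h6 h7
    exact H.lw L' R' x' y' h1 (by omega) (by omega) (by omega) (by omega) (by omega)
  · intro R' x' y' h1 h2 h3 h4 h5 h6 t
    have e : R' = c + 1 := by omega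
    subst e
    rcases Nat.lt_or_ge y' (2 * n - 1) with h7 | h7
    · exact T.r1i hf (p := 0) (j := 5) (by omega) (by omega) (by omega) (by omega) (by omega) (by omega) t
    · exact T.r1 hf (p := 0) (j := 4) (by omega) (by omega) (by omega) (by omega) (by omega) (by omega) t

/-- to the right along `y = 2 n - 3` in the row `c` of `6 k` -/
theorem run_m3 (hf : Rule f) {k c n : ℕ} (T : NHT f k c (2 * n)) {x0 : ℕ} (hx : x0 % 2 = 0) (h1 : 2 * n + 2 ≤ x0)
    (h2 : x0 + 10 ≤ 2 * n + 2 * k) (h : f (6 * k) c x0 (2 * n - 3)) : f (6 * k) c (2 * n + 2 * k - 10) (2 * n - 3) := by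
  have hk := T.hk
  have hc := T.hc
  have hN := T.hN2
  exact E1m4.row_run hf (x1 := 2 * n + 2 * k - 10) (by omega) hc (by omega) hx
    (fun z a1 a2 a3 => T.c0i hf (j := 5) (by omega) (by omega) (by omega) (by omega) (by omega) (by omega)) h
    (2 * n + 2 * k - 10) (by omega) le_rfl (by omega)

/-- down along `x = 2 n - 7` in the row `c - 2` of `6 k` -/
theorem run_m7 (hf : Rule f) {k c n M : ℕ} (H : PL f k c n M) (T0 : NHT f k (c - 4) (2 * (n - (k + 2))))
    (h : f (6 * k) (c - 2) (2 * n - 7) (2 * n - 12)) : f (6 * k) (c - 2) (2 * n - 7) (2 * n - 2 - 2 * k) := by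
  have T := H.T
  have hk := T.hk
  have hc := T.hc
  have hb := T.hb
  have hN := T.hN2
  refine down_run hf (y0 := 2 * n - 2 - 2 * k) (y1 := 2 * n - 12) (by omega) (by omega) (by omega) (by omega) ?_ ?_ h
    (2 * n - 2 - 2 * k) le_rfl (by omega) (by omega)
  · intro L' R' x' y' h1 h2 h3 h4 h5 h6 h7
    exact H.lw L' R' x' y' h1 (by omega) (by omega) (by omega) (by omega) (by omega)
  · intro R' x' y' h1 h2 h3 h4 h5 h6 t
    rcases Nat.lt_or_ge x' (2 * n - 7) with h7 | h7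
    · have e : R' = c - 4 + 1 := by omega
      subst e
      exact T0.r1 hf (p := 0) (j := 4) (by omega) (by omega) (by omega) (by omega) (by omega) (by omega) t
    · exact T.rIn hf (t := 3) (p := 0) (j := 3) (by omega) (by omega) (by omega) (by omega) (by omega) (by omega) (by omega)
        (by omega) t

/-- to the left along `y = 2 n + 5` in the row `c` of `6 k + 4` -/
theorem run_45 (hf : Rule f) {k c n M : ℕ} (H : PL f k c n M) (h : f (6 * k + 4) c (2 * n + 2 * k) (2 * n + 5)) :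
    f (6 * k + 4) c (2 * n + 10) (2 * n + 5) := by
  have T := H.T
  have hk := T.hk
  have hc := T.hc
  have hb := T.hb
  have hN := T.hN2
  refine left_run hf (x0 := 2 * n + 10) (x1 := 2 * n + 2 * k) (by omega) (by omega) (by omega) (by omega) ?_ ?_ h
    (2 * n + 10) le_rfl (by omega) (by omega)
  · intro L' R' x' y' h1 h2 h3 h4 h5 h6 h7
    exact T.p0i hf (j := 3) (by omega) (by omega) (by omega) (by omega) (by omega) (by omega)
  · intro R' x' y' h1 h2 h3 h4 h5 h6 t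
    have e : R' = c - 1 := by omega
    subst e
    exact T.rm1 hf (p := 0) (j := 1) (by omega) (by omega) (by omega) (by omega) (by omega) (by omega) t

/-- **The chain of the E-cell at `X' = 0`.** -/
theorem chain0 (hf : Rule f) {k c n : ℕ} (H : PL f k c n (n - 4)) (Z : Zb.ZBH f k c n) (C : TrC.CI f k c n)
    (V : PV.PV f k c n)
    (p2n : ∀ y : ℕ, y % 2 = 0 → 2 * n + 4 ≤ y + 2 * k → y + 4 ≤ 2 * n → ¬ f (6 * k + 1) c (2 * n) y)
    (T0 : NHT f k (c - 4) (2 * (n - (k + 2))))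
    -- the wall, part 1
    (w1a : ¬ f (6 * k + 4) (c + 2) (2 * n + 2 * k - 8) (2 * n + 3))
    (w1a' : ¬ f (6 * k + 4) (c + 2) (2 * n + 2 * k - 6) (2 * n + 3))
    (w1b : f (6 * k) (c + 4) (2 * n + 2 * k) (2 * n + 5))
    (w1c : ¬ f (6 * k) c (2 * n + 2 * k - 6) (2 * n - 1))
    -- the diagonal, part 1
    (d1a : ¬ f (6 * k) c (2 * n + 4) (2 * n - 1) → ¬ f (6 * k) (c - 2) (2 * n - 3) (2 * n - 8))
    (d1b : ¬ f (6 * k) c (2 * n + 4) (2 * n - 1) → ¬ f (6 * k) (c + 4) (2 * n + 8) (2 * n + 1))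
    (d1c : ¬ f (6 * k) c (2 * n + 4) (2 * n - 1) → f (6 * k) c (2 * n + 2) (2 * n - 3))
    (d1f : f (6 * k) (c + 4) (2 * n + 10) (2 * n + 5) → ¬ f (6 * k) (c + 2) (2 * n + 4) (2 * n - 1))
    (n4 : ¬ f (6 * k) c (2 * n - 1) (2 * n - 8))
    -- the wall, part 2
    (w2a : ¬ f (6 * k) (c + 4) (2 * n + 2 * k - 4) (2 * n + 1) → f (6 * k) (c + 4) (2 * n + 2 * k - 4) (2 * n + 3))
    (w2b : ¬ f (6 * k) (c + 2) (2 * n + 2 * k - 8) (2 * n - 1) → ¬ f (6 * k) (c + 4) (2 * n + 2 * k - 4) (2 * n + 1) →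
      f (6 * k) c (2 * n + 2 * k - 10) (2 * n - 3) → f (6 * k) c (2 * n + 2 * k - 10) (2 * n - 5))
    (w2c : ¬ f (6 * k) (c - 2) (2 * n - 3) (2 * n + 2 - 2 * k) → ¬ f (6 * k) c (2 * n - 1) (2 * n + 4 - 2 * k) →
      f (6 * k + 2) c (2 * n + 1) (2 * n + 6 - 2 * k))
    -- the diagonal, part 2
    (d2a : f (6 * k) (c + 4) (2 * n + 10) (2 * n + 3) → f (6 * k) (c + 2) (2 * n + 1) (2 * n - 6))
    (d2b : f (6 * k) c (2 * n) (2 * n - 5) → f (6 * k) (c - 2) (2 * n - 7) (2 * n - 12))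
    (d2c : f (6 * k + 2) c (2 * n + 1) (2 * n - 4) → f (6 * k + 2) (c + 2) (2 * n + 8) (2 * n + 3))
    (n1 : f (6 * k + 2) (c + 2) (2 * n + 2 * k - 6) (2 * n + 3) → f (6 * k + 4) c (2 * n + 2 * k) (2 * n + 5))
    (d2d : f (6 * k + 2) c (2 * n + 1) (2 * n - 4) → f (6 * k) (c + 4) (2 * n + 10) (2 * n + 3) →
      f (6 * k) (c + 4) (2 * n + 12) (2 * n + 3) → f (6 * k + 4) c (2 * n + 10) (2 * n + 5) →
      ¬ f (6 * k + 4) (c + 2) (2 * n + 10) (2 * n + 3) → ¬ f (6 * k + 2) (c + 4) (2 * n + 12) (2 * n + 5))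
    -- the wall, part 3
    (w3a : f (6 * k) (c + 2) (2 * n + 1) (2 * n + 6 - 2 * k) → f (6 * k) (c - 2) (2 * n - 7) (2 * n - 2 - 2 * k) →
      ¬ f (6 * k) (c - 2) (2 * n - 3) (2 * n + 2 - 2 * k) → f (6 * k + 2) c (2 * n - 1) (2 * n + 4 - 2 * k))
    (w3b : ¬ f (6 * k + 2) (c + 4) (2 * n + 2 * k - 4) (2 * n + 5) → f (6 * k + 2) (c + 2) (2 * n + 2 * k - 6) (2 * n + 3) →
      ¬ f (6 * k) (c + 4) (2 * n + 2 * k - 4) (2 * n + 1) → ¬ f (6 * k + 2) (c + 2) (2 * n + 2 * k - 8) (2 * n + 1))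
    -- the end
    (fin : f (6 * k + 2) c (2 * n - 1) (2 * n - 10) → ¬ f (6 * k + 2) (c + 2) (2 * n + 8) (2 * n + 1) →
      f (6 * k + 4) c (2 * n + 10) (2 * n + 5) → ¬ f (6 * k + 4) (c + 2) (2 * n + 10) (2 * n + 3) → False) :
    False := by
  have T := H.T
  have hk := T.hk
  have hc := T.hc
  have hb := T.hb
  have hN := T.hN2
  -- the line `2 n - 1` of `6 k`, row `c`, is missing near the diagonal
  have z1 : ¬ f (6 * k) c (2 * n + 4) (2 * n - 1) := fun t =>
    w1c (E1m4.T_c hf T (x0 := 2 * n + 4) (x := 2 * n + 2 * k - 6) (y := 2 * n - 1) (by omega) (by omega) (by omega) (by omega)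
      (by omega) (by omega) (by omega) t)
  have a1 := d1a z1
  have a2 := d1b z1
  have a3 := d1c z1
  have a4 := d1f (TrR.run_a5 hf Z C.D0 (x0 := 2 * n + 10) (x1 := 2 * n + 2 * k) (by omega) (by omega) (by omega) (by omega)
    (by omega) w1b)
  -- the wall of `c + 4`
  have b2 : ¬ f (6 * k) (c + 4) (2 * n + 2 * k - 4) (2 * n + 1) := fun t =>
    a2 (TrR.run_a1 hf Z (x0 := 2 * n + 8) (x1 := 2 * n + 2 * k - 4) (by omega) (by omega) (by omega) (by omega) (by omega) t)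
  have b3 := w2a b2
  have b4 := w2b (fun t => a4 (run_m1 hf H t)) b2 (run_m3 hf T (x0 := 2 * n + 2) (by omega) (by omega) (by omega) a3)
  -- the wall of `c`
  have b1 : ¬ f (6 * k) (c - 2) (2 * n - 3) (2 * n + 2 - 2 * k) := fun t =>
    a1 (TipK0.run0 hf T (x := 2 * n - 3) (y0 := 2 * n + 2 - 2 * k) (by omega) (by omega) (by omega) (by omega) t (2 * n - 8)
      (by omega) (by omega) (by omega))
  have b5 : ¬ f (6 * k) c (2 * n - 1) (2 * n + 4 - 2 * k) := fun t =>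
    n4 (TrC.run_b1u hf C (y0 := 2 * n + 4 - 2 * k) (y1 := 2 * n - 8) (by omega) (by omega) (by omega) (by omega) (by omega) t)
  have b6 := w2c b1 b5
  -- the lines near the diagonal
  have c1 : f (6 * k + 2) c (2 * n + 1) (2 * n - 4) :=
    TipK0.run1_all hf V p2n (y0 := 2 * n + 6 - 2 * k) (by omega) b6 (2 * n - 4) (by omega) (by omega) (by omega)
  have g3 : ∀ x, x % 2 = 0 → 2 * n + 10 ≤ x → x + 4 ≤ 2 * n + 2 * k → f (6 * k) (c + 4) x (2 * n + 3) := by
    intro x h1 h2 h3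
    exact TrR.run_a3 hf Z (x0 := x) (x1 := 2 * n + 2 * k - 4) (by omega) (by omega) (by omega) (by omega) (by omega) b3
  have c2 := g3 (2 * n + 10) (by omega) (by omega) (by omega)
  have c2' := g3 (2 * n + 12) (by omega) (by omega) (by omega)
  have c3 := d2c c1
  have b7 : f (6 * k + 2) (c + 2) (2 * n + 2 * k - 6) (2 * n + 3) :=
    TrR.run_gr hf Z (x0 := 2 * n + 8) (x1 := 2 * n + 2 * k - 6) (by omega) (by omega) (by omega) (by omega) (by omega) c3
  have c4 := run_45 hf H (n1 b7)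
  have c5 : ¬ f (6 * k + 4) (c + 2) (2 * n + 10) (2 * n + 3) := by
    intro t
    rcases Nat.lt_or_ge k 9 with h | h
    · exact w1a' (mv t rfl rfl (by omega) rfl)
    · exact w1a (TrR.run_jr hf Z (x0 := 2 * n + 10) (x1 := 2 * n + 2 * k - 8) (by omega) (by omega) (by omega) (by omega)
        (by omega) t)
  have c6 := d2d c1 c2 c2' c4 c5
  -- the walls again
  have e1 := w3a (TrC.run_cd hf C (y0 := 2 * n + 6 - 2 * k) (y1 := 2 * n - 6) (by omega) (by omega) (by omega) (by omega)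
    (by omega) (d2a c2)) (run_m7 hf H T0 (d2b (left0 hf H (x0 := 2 * n + 2 * k - 10) (x := 2 * n) (y := 2 * n - 5) (by omega)
      (by omega) (by omega) (by omega) (by omega) (by omega) (by omega) b4))) b1
  have e2 : ¬ f (6 * k + 2) (c + 4) (2 * n + 2 * k - 4) (2 * n + 5) := fun t =>
    c6 (TrR.run_h hf Z (x0 := 2 * n + 12) (x1 := 2 * n + 2 * k - 4) (fun x h1 h2 h3 => g3 x h1 (by omega) (by omega)) (by omega)
      (by omega) (by omega) (by omega) (by omega) t)
  have e3 := w3b e2 b7 b2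
  have e4 : ¬ f (6 * k + 2) (c + 2) (2 * n + 8) (2 * n + 1) := fun t =>
    e3 (TrR.run_ir hf Z (x0 := 2 * n + 8) (x1 := 2 * n + 2 * k - 8) (by omega) (by omega) (by omega) (by omega) (by omega) t)
  exact fin (TrC.run_du hf C (y0 := 2 * n + 4 - 2 * k) (y1 := 2 * n - 10) (by omega) (by omega) (by omega) (by omega) (by omega)
    e1) e4 c4 c5

/-- **`N2`** at the wall: the line `2 n' - 9` of `6 k + 2` in the row `c' - 2` is missing. -/
theorem n2_wall (hf : Rule f) {k c n n' : ℕ} (H : PL f k c n (n - 4)) (hn : n' = n + (k + 2)) (B : PL f k (c + 4) n' (n' - 4))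
    (D0a : Cyc f (6 * k) (c + 4 - 6) (2 * n' - 6 - 2 * k)) (C2 : Cyc f (6 * k + 2) (c + 4 - 4) (2 * (n' - 5) + 2))
    (C4a : Cyc f (6 * k + 4) (c + 4 - 6) (2 * (n' - (k + 1)) + 2))
    (p2 : f (6 * k + 2) c (2 * n + 2 * k - 9) (2 * n + 2 * k - 14) ∨ f (6 * k + 2) c (2 * n + 2 * k - 7) (2 * n + 2 * k - 12))
    (p6 : f (6 * k + 6) c (2 * n + 2 * k - 7) (2 * n + 2 * k - 14) ∨ f (6 * k + 6) c (2 * n + 2 * k - 5) (2 * n + 2 * k - 12)) :
    ¬ f (6 * k + 2) (c + 4 - 2) (2 * n' - 9) (2 * n' - 4 - 2 * k) := by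
  intro h
  have T := H.T
  have hk := T.hk
  have hc := T.hc
  have hN := T.hN2
  have h1 := N2U.n2_up hf B (by omega) C2 h
  have h2 : f (6 * k + 2) (c + 2) (2 * n' - 9) (2 * n' + 2 - 2 * k) := mv h1 rfl (by omega) rfl rfl
  have h3 := col_run hf (y1 := 2 * n' - 14) (by omega) (by omega) (by omega) (by omega)
    (fun z a1 a2 a3 => T.c2 hf (j := 4) (by omega) (by omega) (by omega) (by omega) (by omega) (by omega)) h2
    (2 * n' - 14) (by omega) le_rfl (by omega)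
  refine L0N2.n2_5 hf B (cyc_mv D0a rfl rfl (by omega)) C2 C4a ?_ ?_ (mv h3 rfl (by omega) rfl rfl)
  · rcases p2 with h | h
    · exact Or.inl (mv h rfl (by omega) (by omega) (by omega))
    · exact Or.inr (mv h rfl (by omega) (by omega) (by omega))
  · rcases p6 with h | h
    · exact Or.inl (mv h rfl (by omega) (by omega) (by omega))
    · exact Or.inr (mv h rfl (by omega) (by omega) (by omega))

end Pool.Agent.SNT.L0Y
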