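import Pool.Agent.SNT.L0Yk
import Pool.Agent.SNT.L0Y11a
import Pool.Agent.SNT.L0Y11c
import Pool.Agent.SNT.L0Y23a
import Pool.Agent.SNT.L0Y23b
import Pool.Agent.SNT.L0Y23c
import Pool.Agent.SNT.L0Y23d
import Pool.Agent.SNT.L0Y23e
import Pool.Agent.SNT.L0Y23f
import Pool.Agent.SNT.L0Y23g
import Pool.Agent.SNT.L0Y23h

set_option autoImplicit false
set_option linter.unusedVariables false

/-! The near-diagonal windows of the road L0 at `X' = 0` (frame `c2 = c - 4`, base `2 n`). -/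

namespace Pool.Agent.SNT.L0Y

open Pool.Agent.SNT Pool.Agent.SNT.Loc Pool.Agent.SNT.LW Pool.Agent.SNT.NHZ Pool.Agent.SNT.D1E

variable {f : ℕ → ℕ → ℕ → ℕ → Prop} {k c n : ℕ}

/-- L0, no `Y(-1)` at the diagonal: no `X(-3)` in the row `c - 2` -/
theorem d1a (hf : Rule f) (H : YK f k c n) (z0_0_4_m1 : ¬ f (6 * k) (c) (2 * n + 4) (2 * n - 1)) :
    ¬ f (6 * k) (c - 2) (2 * n - 3) (2 * n - 8) := by
  exact D11_0 hf H.H z0_0_4_m1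

/-- `Y(-3)` in the row `c` -/
theorem d1c (hf : Rule f) (H : YK f k c n) (q0 : f (6 * k) (c - 2) (2 * n - 5) (2 * n - 10) ∨ f (6 * k) (c - 2) (2 * n - 3) (2 * n - 8)) (z0_0_4_m1 : ¬ f (6 * k) (c) (2 * n + 4) (2 * n - 1)) :
    f (6 * k) (c) (2 * n + 2) (2 * n - 3) := by
  rcases q0 with p0_m2_m5_m10 | p0_m2_m3_m8
  · exact D13_0 hf H.H z0_0_4_m1 p0_m2_m5_m10
  · exact D13_1 hf H.H z0_0_4_m1 p0_m2_m3_m8

/-- `Y(5)` in the row `c + 4`: no `Y(-1)` in the row `c + 2` -/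
theorem d1f (hf : Rule f) (H : YK f k c n) (p0_4_10_5 : f (6 * k) (c + 4) (2 * n + 10) (2 * n + 5)) :
    ¬ f (6 * k) (c + 2) (2 * n + 4) (2 * n - 1) := by
  exact D1f_0 hf H.H p0_4_10_5

/-- `Y(-5)` in the row `c`: `X(-7)` in the row `c - 2` -/
theorem d2b (hf : Rule f) (H : YK f k c n) (p0_0_0_m5 : f (6 * k) (c) (2 * n) (2 * n - 5)) :
    f (6 * k) (c - 2) (2 * n - 7) (2 * n - 12) := by
  exact D22_0 hf H.H p0_0_0_m5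

/-- `X(1)` of `6k+2`: `Y(3)` in the row `c + 2` -/
theorem d2c (hf : Rule f) (H : YK f k c n) (p2_0_1_m4 : f (6 * k + 2) (c) (2 * n + 1) (2 * n - 4)) :
    f (6 * k + 2) (c + 2) (2 * n + 8) (2 * n + 3) := by
  rcases H.k2 with p2_0_3_m4 | p2_0_5_m2
  · rcases H.k4a with p4_m2_m3_m12 | p4_m2_m1_m10
    · rcases H.k6a with p6_0_3_m4 | p6_0_5_m2
      · exact D23_0 hf H.H p2_0_1_m4 p2_0_3_m4 p4_m2_m3_m12 p6_0_3_m4
      · exact D23_1 hf H.H p2_0_1_m4 p2_0_3_m4 p4_m2_m3_m12 p6_0_5_m2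
    · rcases H.k6a with p6_0_3_m4 | p6_0_5_m2
      · exact D23_2 hf H.H p2_0_1_m4 p2_0_3_m4 p4_m2_m1_m10 p6_0_3_m4
      · exact D23_3 hf H.H p2_0_1_m4 p2_0_3_m4 p4_m2_m1_m10 p6_0_5_m2
  · rcases H.k4a with p4_m2_m3_m12 | p4_m2_m1_m10
    · rcases H.k6a with p6_0_3_m4 | p6_0_5_m2
      · exact D23_4 hf H.H p2_0_1_m4 p2_0_5_m2 p4_m2_m3_m12 p6_0_3_m4
      · exact D23_5 hf H.H p2_0_1_m4 p2_0_5_m2 p4_m2_m3_m12 p6_0_5_m2
    · rcases H.k6a with p6_0_3_m4 | p6_0_5_m2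
      · exact D23_6 hf H.H p2_0_1_m4 p2_0_5_m2 p4_m2_m1_m10 p6_0_3_m4
      · exact D23_7 hf H.H p2_0_1_m4 p2_0_5_m2 p4_m2_m1_m10 p6_0_5_m2

end Pool.Agent.SNT.L0Y
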