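import Pool.Agent.SNT.PL

set_option autoImplicit false

/-! Hypotheses of the near-diagonal windows of the road L0 at `X' = 0` (frame `c2 = c - 4`). -/

namespace Pool.Agent.SNT.L0Y

open Pool.Agent.SNT Pool.Agent.SNT.Loc Pool.Agent.SNT.LW Pool.Agent.SNT.NHZ Pool.Agent.SNT.D1E

structure YH (f : ℕ → ℕ → ℕ → ℕ → Prop) (k c n : ℕ) : Prop where
  P : PL f k c n (n - 4)
  D0a : Cyc f (6 * k) (c - 2) (2 * (n - 2) + 2)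
  D0b : Cyc f (6 * k) (c - 6) (2 * (n - 12) + 2)
  D2 : Cyc f (6 * k + 2) (c - 4) (2 * (n - 5) + 2)
  z2 : ∀ x y : ℕ, x % 2 = 0 → 2 * n + 2 ≤ x → y % 2 = 1 → y + 5 ≤ x → x ≤ y + 9 → ¬ f (6 * k + 2) c x y
  z4 : ∀ x y : ℕ, x % 2 = 0 → 2 * n ≤ x + 4 → y % 2 = 1 → y + 1 ≤ x → x ≤ y + 9 → ¬ f (6 * k + 4) (c - 2) x y
  z6 : ∀ x y : ℕ, x % 2 = 0 → 2 * n + 2 ≤ x → y % 2 = 1 → y + 1 ≤ x → x ≤ y + 11 → ¬ f (6 * k + 6) c x y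

end Pool.Agent.SNT.L0Y
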