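import Pool.Agent.SNT.L0Yb

set_option autoImplicit false

/-! The row `c + 3`: the layers `6 k .. 6 k + 11`, `y` from `N + 5` on. -/

namespace Pool.Agent.SNT.NHZ

open Pool.Agent.SNT

variable {f : ℕ → ℕ → ℕ → ℕ → Prop} {k c N : ℕ}

theorem NHT.rY3 (hf : Rule f) (h : NHT f k c N) {L p j x y : ℕ} (hj : j ≤ 5) (hp : p ≤ 1)
    (hL : L + 2 * j = 6 * k + 10 + p) (hy : N + 5 ≤ y) (h1 : y + 1 + j ≤ x) (h2 : x + 2 + j ≤ y + 2 * k) :
    ¬ f L (c + 3) x y :=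
  h.O.after hf (t := 5) (s := 5 - j) (j := j) (p := p) (q := 1) le_rfl (by omega) hp le_rfl (by omega) (by omega)
    (by have := h.hb; omega) (by unfold Yf; rw [if_neg (by omega)]; omega) h1 h2

end Pool.Agent.SNT.NHZ
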