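import Pool.Agent.SNT.PL
import Pool.Agent.SNT.NWD
import Pool.Agent.SNT.WrapC
import Pool.Agent.SNT.LocChain2

set_option autoImplicit false
set_option synthInstance.maxSize 1000
set_option linter.unusedVariables false

/-! The cell `l3`: the tips b2, b3 near the diagonal, uniform in the lead (helper41, for helper51). `Tp` is the tower of
the cycle before. -/

namespace Pool.Agent.SNT.L3B

open Pool.Agent.SNT Pool.Agent.SNT.Loc Pool.Agent.SNT.LW Pool.Agent.SNT.NHZ Pool.Agent.SNT.D1E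

variable {f : ℕ → ℕ → ℕ → ℕ → Prop} {k c n M : ℕ}

def b2T (j n p q : ℕ) : Bool :=
  (((decide (j = 4 ∧ n = 2 ∧ 5 ≤ q ∧ q + 0 ≤ p ∧ p ≤ q + 15 ∧ p ≤ q + 0 ∧ p % 2 = 0) ||
    decide (j = 4 ∧ n = 1 ∧ 3 ≤ q ∧ q + 0 ≤ p ∧ p ≤ q + 15 ∧ p % 2 = 1 ∧ q % 2 = 0)) ||
    (decide (j = 6 ∧ n = 4 ∧ 9 ≤ q ∧ q + 0 ≤ p ∧ p ≤ q + 15 ∧ p ≤ q + 0 ∧ p % 2 = 0) ||
    decide (j = 8 ∧ n = 4 ∧ 11 ≤ p ∧ q + 0 ≤ p ∧ p ≤ q + 17 ∧ p ≤ q + 0 ∧ p % 2 = 1))) ||
    ((decide (j = 10 ∧ n = 3 ∧ q + 0 ≤ p ∧ p ≤ q + 17 ∧ p % 2 = 1 ∧ q % 2 = 0) ||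
    decide (j = 10 ∧ n = 4 ∧ q + 0 ≤ p ∧ p ≤ q + 17 ∧ p ≤ q + 0 ∧ p % 2 = 0)) ||
    (decide (j = 4 ∧ n = 3 ∧ p = 8 ∧ q = 3) ||
    decide (j = 4 ∧ n = 5 ∧ p = 10 ∧ q = 5))))

def b2F (j n p q : ℕ) : Bool :=
  ((((decide (j = 1 ∧ q + 0 ≤ p ∧ p ≤ q + 16) ||
    (decide (j = 8 ∧ n = 4 ∧ 11 ≤ p ∧ q + 0 ≤ p ∧ p ≤ q + 17 ∧ (q + 1 ≤ p ∨ p % 2 = 0)) ||
    decide (j = 4 ∧ n = 2 ∧ 4 ≤ q ∧ q + 1 ≤ p ∧ p ≤ q + 14))) ||
    (decide (j = 5 ∧ n = 2 ∧ 4 ≤ q ∧ q + 1 ≤ p ∧ p ≤ q + 14) ||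
    (decide (j = 9 ∧ n = 4 ∧ 10 ≤ p ∧ q + 1 ≤ p ∧ p ≤ q + 14) ||
    decide (j = 4 ∧ n = 4 ∧ 10 ≤ p ∧ q + 3 ≤ p ∧ p ≤ q + 12)))) ||
    ((decide (j = 5 ∧ n = 4 ∧ 10 ≤ p ∧ q + 3 ≤ p ∧ p ≤ q + 12) ||
    (decide (j = 9 ∧ n = 5 ∧ q + 2 ≤ p ∧ p ≤ q + 13) ||
    decide (j = 2 ∧ n = 2 ∧ 7 ≤ p ∧ q + 0 ≤ p ∧ p ≤ q + 15 ∧ (q + 1 ≤ p ∨ p % 2 = 0)))) ||
    ((decide (j = 6 ∧ n = 4 ∧ 9 ≤ q ∧ q + 0 ≤ p ∧ p ≤ q + 15 ∧ (q + 1 ≤ p ∨ p % 2 = 1)) ||
    decide (j = 10 ∧ n = 4 ∧ q + 0 ≤ p ∧ p ≤ q + 17 ∧ (q + 1 ≤ p ∨ p % 2 = 1))) ||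
    (decide (j = 7 ∧ n = 4 ∧ 8 ≤ q ∧ q + 1 ≤ p ∧ p ≤ q + 14) ||
    decide (j = 5 ∧ n = 3 ∧ q + 3 ≤ p ∧ p ≤ q + 12))))) ||
    (((decide (j = 5 ∧ n = 5 ∧ q + 4 ≤ p ∧ p ≤ q + 11) ||
    (decide (j = 11 ∧ n = 4 ∧ q + 1 ≤ p ∧ p ≤ q + 14) ||
    decide (j = 11 ∧ n = 5 ∧ q + 1 ≤ p ∧ p ≤ q + 14))) ||
    (decide (j = 2 ∧ n = 4 ∧ 10 ≤ p ∧ q + 4 ≤ p ∧ p ≤ q + 11) ||
    (decide (j = 4 ∧ n = 4 ∧ 8 ≤ q ∧ q + 2 ≤ p ∧ p ≤ q + 13) ||
    decide (j = 5 ∧ n = 3 ∧ 7 ≤ q ∧ q + 1 ≤ p ∧ p ≤ q + 14)))) ||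
    ((decide (j = 5 ∧ n = 4 ∧ 8 ≤ q ∧ q + 2 ≤ p ∧ p ≤ q + 13) ||
    (decide (j = 2 ∧ n = 3 ∧ 7 ≤ q ∧ q + 0 ≤ p ∧ p ≤ q + 14 ∧ (p % 2 = 0 ∨ q % 2 = 1)) ||
    decide (j = 4 ∧ n = 2 ∧ 5 ≤ q ∧ q + 0 ≤ p ∧ p ≤ q + 15 ∧ (q + 1 ≤ p ∨ p % 2 = 1)))) ||
    ((decide (j = 8 ∧ n = 5 ∧ 11 ≤ q ∧ q + 0 ≤ p ∧ p ≤ q + 16 ∧ (p % 2 = 0 ∨ q % 2 = 1)) ||
    decide (j = 3 ∧ n = 4 ∧ 10 ≤ p ∧ q + 4 ≤ p ∧ p ≤ q + 11)) ||
    (decide (j = 7 ∧ n = 5 ∧ q + 3 ≤ p ∧ p ≤ q + 12) ||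
    decide (j = 3 ∧ n = 5 ∧ p = 9 ∧ q = 7))))))

theorem b2_chk : check 11 7 15 15 0 1 1 1 2 b2T b2F
    194
    0x181a0311eb0011eb010ecf0011ea5208a0030bb3800ecf5a0830030b43800b4384181a0311eb0011eb010b4b000b4b0411e28011e28407bf030b43000b430408a7830bbb000bbb042468831e39801e41121812001812041e4903181a00181a0407bf03082f80082f8408a8030bbb800bbb8411ea030ec7000ec7040e5800116bc20dd8000ddf000ddf0e10f2c20dde0020d500206c001ab6001487000ece0010f9520ddd000d6f000d5f000cf60024688724680724608723f80723f78723f007214d8720e48720e40720dd0720dc8720d50f206c0f1e49071e48871e41071e40871e39071dd8871dd8071dd1071dd0871dd0071dc9071dc8871b35871b2e071b25871ac5071ac4871abd871abd071abc871ab60f1ab5871ab50718198717a98717a90717a20717a18714fe87149607149587148e87148e0714870f11ea0711e98711e207117a87117a0711798711790711728711720711718710fa8710f90710f88710f28710f18710f107108887108807108207108187108107108087107a070ed7870ed6870ece0f0ec7870e67070e66870e66070e65870e5f070e5e870e5e070de7870de5870ddd0f0dd7870d75070d74870d6f0f0d6e870d6e070d6d870d6d070d67070d66870d5f0f0cf60f0bb4070b4a8708a087089f8708370708368707bf8707be8707b807074e87074e07074707074687059487059407059387058d07058c87058c07058507058487052407052387052307051c87051c07051b8705150705148705140704ac0704ab8704ab0704a48704a40704a387043b07043a87043387043307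 = true := by
  decide +kernel

/-- the beam `2 M + 1` of `6 k + 2` kills the in-line `2 M - 1` one row pair before -/
theorem b2 (hf : Rule f) (H : PL f k c n M) (Tp : NHT f k (c - 4) (2 * (n - (k + 2)))) (hM2 : M + 2 ≤ n)
    (hh : f (6 * k + 2) (c - 2) (2 * M + 1) (2 * M - 4)) (pp : f (6 * k + 2) (c - 4) (2 * M - 1) (2 * M - 6))
    (zz : ¬ f (6 * k + 1) (c - 2) (2 * M) (2 * M - 2)) :
    False := by
  have hk := H.T.hk
  have hc := H.T.hc
  have h4 := H.T.h4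
  have hb := H.T.hb
  have hN2 := H.T.hN2
  have hM := H.hM
  obtain ⟨a0, ha0⟩ : ∃ a0, a0 + 2 = 6 * k := ⟨6 * k - 2, by omega⟩
  obtain ⟨b0, hb0⟩ : ∃ b0, b0 + 7 = c := ⟨c - 7, by omega⟩
  obtain ⟨x0, hx0⟩ : ∃ x0, x0 + 9 = 2 * M := ⟨2 * M - 9, by omega⟩
  refine check_sound hf (a0 := a0) (b0 := b0) (x0 := x0) (y0 := x0) b2_chk
    ⟨fun _ => rfl, fun h => absurd h (by decide), fun h => absurd h (by decide),
      by omega, by omega, by omega, by omega⟩ ?_ ?_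
  · intro j m p q hr h
    obtain ⟨-, -, hn1, hn2, hp1, hp2, hq1, hq2⟩ := hr
    unfold b2T at h
    simp only [Bool.or_eq_true, decide_eq_true_eq] at h
    rcases h with (((h | h) | (h | h)) | ((h | h) | (h | h)))
    · obtain ⟨rfl, rfl, h1⟩ := h
      exact (WrapC.v3 H.c2a (by omega) (by omega) (by omega) (by omega) (by omega) (by omega) (by omega) (by omega)).mpr (by omega)
    · obtain ⟨rfl, rfl, h1⟩ := h
      exact (WrapC.v2 H.c2a (by omega) (by omega) (by omega) (by omega) (by omega) (by omega) (by omega)).mpr (by omega)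
    · obtain ⟨rfl, rfl, h1⟩ := h
      exact (WrapC.v3 H.c4a (by omega) (by omega) (by omega) (by omega) (by omega) (by omega) (by omega) (by omega)).mpr (by omega)
    · obtain ⟨rfl, rfl, h1⟩ := h
      exact (WrapC.v1 H.c6 (by omega) (by omega) (by omega) (by omega) (by omega) (by omega) (by omega) (by omega)).mpr (by omega)
    · obtain ⟨rfl, rfl, h1⟩ := h
      exact (NW.w2v H.c8a (by omega) (by omega) (by omega) (by omega) (by omega) (by omega) (by omega)).mpr (by omega)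
    · obtain ⟨rfl, rfl, h1⟩ := h
      exact (NW.w3v H.c8a (by omega) (by omega) (by omega) (by omega) (by omega) (by omega) (by omega) (by omega)).mpr (by omega)
    · obtain ⟨rfl, rfl, rfl, rfl⟩ := h
      exact mv pp (by omega) (by omega) (by omega) (by omega)
    · obtain ⟨rfl, rfl, rfl, rfl⟩ := h
      exact mv hh (by omega) (by omega) (by omega) (by omega)
  · intro j m p q hr h
    obtain ⟨-, -, hn1, hn2, hp1, hp2, hq1, hq2⟩ := hr
    unfold b2F at h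
    simp only [Bool.or_eq_true, decide_eq_true_eq] at h
    rcases h with ((((h | (h | h)) | (h | (h | h))) | ((h | (h | h)) | ((h | h) | (h | h)))) | (((h | (h | h)) | (h | (h | h))) | ((h | (h | h)) | ((h | h) | (h | h)))))
    · obtain ⟨rfl, h1⟩ := h
      exact H.lw _ _ _ _ (by omega) (by omega) (by omega) (by omega) (by omega) (by omega)
    · obtain ⟨rfl, rfl, h1⟩ := h
      exact mt (WrapC.v1 H.c6 (by omega) (by omega) (by omega) (by omega) (by omega) (by omega) (by omega) (by omega)).mp (by omega)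
    · obtain ⟨rfl, rfl, h1⟩ := h
      exact H.T.rOut hf (t := 1) (p := 0) (j := 0) (by omega) (by omega) (by omega) (by omega) (by omega) (by omega) (by omega) (by omega)
    · obtain ⟨rfl, rfl, h1⟩ := h
      exact H.T.rOut hf (t := 1) (p := 1) (j := 0) (by omega) (by omega) (by omega) (by omega) (by omega) (by omega) (by omega) (by omega)
    · obtain ⟨rfl, rfl, h1⟩ := h
      exact H.T.rIn hf (t := 3) (p := 1) (j := 0) (by omega) (by omega) (by omega) (by omega) (by omega) (by omega) (by omega) (by omega)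
    · obtain ⟨rfl, rfl, h1⟩ := h
      exact H.T.rIn hf (t := 3) (p := 0) (j := 2) (by omega) (by omega) (by omega) (by omega) (by omega) (by omega) (by omega) (by omega)
    · obtain ⟨rfl, rfl, h1⟩ := h
      exact H.T.rIn hf (t := 3) (p := 1) (j := 2) (by omega) (by omega) (by omega) (by omega) (by omega) (by omega) (by omega) (by omega)
    · obtain ⟨rfl, rfl, h1⟩ := h
      exact Tp.p2 hf (j := 1) (by omega) (by omega) (by omega) (by omega) (by omega) (by omega)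
    · obtain ⟨rfl, rfl, h1⟩ := h
      exact mt (WrapC.v1 H.c0 (by omega) (by omega) (by omega) (by omega) (by omega) (by omega) (by omega) (by omega)).mp (by omega)
    · obtain ⟨rfl, rfl, h1⟩ := h
      exact mt (WrapC.v3 H.c4a (by omega) (by omega) (by omega) (by omega) (by omega) (by omega) (by omega) (by omega)).mp (by omega)
    · obtain ⟨rfl, rfl, h1⟩ := h
      exact mt (NW.w3v H.c8a (by omega) (by omega) (by omega) (by omega) (by omega) (by omega) (by omega) (by omega)).mp (by omega)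
    · obtain ⟨rfl, rfl, h1⟩ := h
      exact H.T.rOut hf (t := 2) (p := 1) (j := 0) (by omega) (by omega) (by omega) (by omega) (by omega) (by omega) (by omega) (by omega)
    · obtain ⟨rfl, rfl, h1⟩ := h
      exact Tp.p0 hf (j := 2) (by omega) (by omega) (by omega) (by omega) (by omega) (by omega)
    · obtain ⟨rfl, rfl, h1⟩ := h
      exact Tp.p2 hf (j := 3) (by omega) (by omega) (by omega) (by omega) (by omega) (by omega)
    · obtain ⟨rfl, rfl, h1⟩ := h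
      exact Tp.p2 hf (j := 0) (by omega) (by omega) (by omega) (by omega) (by omega) (by omega)
    · obtain ⟨rfl, rfl, h1⟩ := h
      exact Tp.p2 hf (j := 0) (by omega) (by omega) (by omega) (by omega) (by omega) (by omega)
    · obtain ⟨rfl, rfl, h1⟩ := h
      exact H.T.rIn hf (t := 3) (p := 0) (j := 3) (by omega) (by omega) (by omega) (by omega) (by omega) (by omega) (by omega) (by omega)
    · obtain ⟨rfl, rfl, h1⟩ := h
      exact H.T.rOut hf (t := 2) (p := 0) (j := 1) (by omega) (by omega) (by omega) (by omega) (by omega) (by omega) (by omega) (by omega)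
    · obtain ⟨rfl, rfl, h1⟩ := h
      exact H.T.pOut hf (t := 2) (j := 0) (by omega) (by omega) (by omega) (by omega) (by omega) (by omega) (by omega)
    · obtain ⟨rfl, rfl, h1⟩ := h
      exact H.T.rOut hf (t := 2) (p := 1) (j := 1) (by omega) (by omega) (by omega) (by omega) (by omega) (by omega) (by omega) (by omega)
    · obtain ⟨rfl, rfl, h1⟩ := h
      exact mt (WrapC.v2 H.c0 (by omega) (by omega) (by omega) (by omega) (by omega) (by omega) (by omega)).mp (by omega)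
    · obtain ⟨rfl, rfl, h1⟩ := h
      exact mt (WrapC.v3 H.c2a (by omega) (by omega) (by omega) (by omega) (by omega) (by omega) (by omega) (by omega)).mp (by omega)
    · obtain ⟨rfl, rfl, h1⟩ := h
      exact mt (WrapC.v2 H.c6 (by omega) (by omega) (by omega) (by omega) (by omega) (by omega) (by omega)).mp (by omega)
    · obtain ⟨rfl, rfl, h1⟩ := h
      exact H.T.rIn hf (t := 3) (p := 1) (j := 3) (by omega) (by omega) (by omega) (by omega) (by omega) (by omega) (by omega) (by omega)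
    · obtain ⟨rfl, rfl, h1⟩ := h
      exact Tp.p2 hf (j := 2) (by omega) (by omega) (by omega) (by omega) (by omega) (by omega)
    · obtain ⟨rfl, rfl, rfl, rfl⟩ := h
      exact fun t => zz (mv t (by omega) (by omega) (by omega) (by omega))

def b3aT (j n p q : ℕ) : Bool :=
  ((decide (j = 2 ∧ n = 1 ∧ 7 ≤ p ∧ q + 0 ≤ p ∧ p ≤ q + 15 ∧ p ≤ q + 0 ∧ p % 2 = 1) ||
    decide (j = 4 ∧ n = 1 ∧ 5 ≤ q ∧ q + 0 ≤ p ∧ p ≤ q + 15 ∧ p ≤ q + 0 ∧ p % 2 = 0)) ||
    (decide (j = 2 ∧ n = 2 ∧ p = 6 ∧ q = 1) ||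
    decide (j = 2 ∧ n = 4 ∧ p = 8 ∧ q = 1)))

def b3aF (j n p q : ℕ) : Bool :=
  ((((decide (j = 1 ∧ q + 0 ≤ p ∧ p ≤ q + 16) ||
    decide (j = 2 ∧ n = 1 ∧ 7 ≤ p ∧ q + 0 ≤ p ∧ p ≤ q + 15 ∧ (q + 1 ≤ p ∨ p % 2 = 0))) ||
    (decide (j = 3 ∧ n = 1 ∧ 4 ≤ q ∧ q + 2 ≤ p ∧ p ≤ q + 13) ||
    decide (j = 2 ∧ n = 3 ∧ q + 5 ≤ p ∧ p ≤ q + 10))) ||
    ((decide (j = 3 ∧ n = 3 ∧ q + 5 ≤ p ∧ p ≤ q + 10) ||
    decide (j = 3 ∧ n = 4 ∧ q + 5 ≤ p ∧ p ≤ q + 10)) ||
    (decide (j = 3 ∧ n = 1 ∧ 6 ≤ p ∧ q + 3 ≤ p ∧ p ≤ q + 12) ||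
    decide (j = 3 ∧ n = 2 ∧ q + 4 ≤ p ∧ p ≤ q + 11)))) ||
    (((decide (j = 2 ∧ n = 1 ∧ 6 ≤ p ∧ q + 3 ≤ p ∧ p ≤ q + 12) ||
    decide (j = 2 ∧ n = 2 ∧ 7 ≤ q ∧ q + 0 ≤ p ∧ p ≤ q + 14 ∧ (p % 2 = 0 ∨ q % 2 = 1))) ||
    (decide (j = 2 ∧ n = 1 ∧ 4 ≤ q ∧ q + 2 ≤ p ∧ p ≤ q + 13) ||
    decide (j = 3 ∧ n = 2 ∧ 7 ≤ q ∧ q + 2 ≤ p ∧ p ≤ q + 13))) ||
    ((decide (j = 3 ∧ n = 2 ∧ 9 ≤ p ∧ q + 3 ≤ p ∧ p ≤ q + 12) ||
    decide (j = 3 ∧ n = 2 ∧ p = 7 ∧ q = 5)) ||
    (decide (j = 3 ∧ n = 4 ∧ p = 9 ∧ q = 5) ||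
    decide (j = 3 ∧ n = 4 ∧ p = 9 ∧ q = 7)))))

theorem b3a_chk : check 4 6 11 11 0 0 1 1 2 b3aT b3aF
    184
    0x3718304dc8003ae0004e21203b39204ef03037d80037d8104e303037880037e1203b58303f28003f78003f78e05685203b583055d8005628005628e05628403b48303af8003af8405680303b58003b584037400037e00037e0e037e0403f68005675203f68305618005618404e30303730003730403728304dd8004dd8404e303033000033004037d00037d04037e0304e90004e90403718003718404ef03052b00052b0403b38303b40003b40404e20304e28004e28404ef03052b80052b8403f580060c8005665203f480037080033c80024a0e020d8e060c8f056807056707056687056607056587056087056007052a0705298705290705240705238704ef0704ee8704e30704e20704e18704dc0704b28704b20704ac8704a68704a60704a58704a50704a08704a007049f8703fd0703fc0703fb0703f48f03f10703bf0703be8703be0703b90703b88703b307038407037e8703790703780703770703708f036d07036c07034787034707034207034187034107034087033c8f033c07033b87033b07033a87033a07033587033507033487028b87028b07028607028587024f07024e87024a87024a07024987024907024887024807024487024407024387024307024287021307021287021207020e07020d87020d07020c87020c07020b8702080702078702070702068702060702020702018702010702008701d68701d60701d58701d10701d08701d00701cb0701ca8701ca0701c98701c58701c50701c48701c407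 = true := by
  decide +kernel

theorem b3a (hf : Rule f) (H : PL f k c n M) (Tp : NHT f k (c - 4) (2 * (n - (k + 2)))) (hM2 : M + 2 ≤ n)
    (hh : f (6 * k) (c - 4) (2 * M - 3) (2 * M - 8)) (h2 : f (6 * k) (c - 2) (2 * M - 1) (2 * M - 8))
    (z1 : ¬ f (6 * k + 1) (c - 4) (2 * M - 2) (2 * M - 4)) (z2 : ¬ f (6 * k + 1) (c - 2) (2 * M) (2 * M - 2))
    (z3 : ¬ f (6 * k + 1) (c - 2) (2 * M) (2 * M - 4)) (z4 : ¬ f (6 * k + 1) (c - 2) (2 * M + 2) (2 * M))
    (z5 : ¬ f (6 * k + 1) (c - 2) (2 * M + 2) (2 * M - 2)) :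
    False := by
  have hk := H.T.hk
  have hc := H.T.hc
  have h4 := H.T.h4
  have hb := H.T.hb
  have hN2 := H.T.hN2
  have hM := H.hM
  obtain ⟨a0, ha0⟩ : ∃ a0, a0 + 2 = 6 * k := ⟨6 * k - 2, by omega⟩
  obtain ⟨b0, hb0⟩ : ∃ b0, b0 + 6 = c := ⟨c - 6, by omega⟩
  obtain ⟨x0, hx0⟩ : ∃ x0, x0 + 9 = 2 * M := ⟨2 * M - 9, by omega⟩
  refine check_sound hf (a0 := a0) (b0 := b0) (x0 := x0) (y0 := x0) b3a_chk
    ⟨fun _ => rfl, fun h => absurd h (by decide), fun h => absurd h (by decide),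
      by omega, by omega, by omega, by omega⟩ ?_ ?_
  · intro j m p q hr h
    obtain ⟨-, -, hn1, hn2, hp1, hp2, hq1, hq2⟩ := hr
    unfold b3aT at h
    simp only [Bool.or_eq_true, decide_eq_true_eq] at h
    rcases h with ((h | h) | (h | h))
    · obtain ⟨rfl, rfl, h1⟩ := h
      exact (WrapC.v1 H.c0 (by omega) (by omega) (by omega) (by omega) (by omega) (by omega) (by omega) (by omega)).mpr (by omega)
    · obtain ⟨rfl, rfl, h1⟩ := h
      exact (WrapC.v3 H.c2a (by omega) (by omega) (by omega) (by omega) (by omega) (by omega) (by omega) (by omega)).mpr (by omega)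
    · obtain ⟨rfl, rfl, rfl, rfl⟩ := h
      exact mv hh (by omega) (by omega) (by omega) (by omega)
    · obtain ⟨rfl, rfl, rfl, rfl⟩ := h
      exact mv h2 (by omega) (by omega) (by omega) (by omega)
  · intro j m p q hr h
    obtain ⟨-, -, hn1, hn2, hp1, hp2, hq1, hq2⟩ := hr
    unfold b3aF at h
    simp only [Bool.or_eq_true, decide_eq_true_eq] at h
    rcases h with ((((h | h) | (h | h)) | ((h | h) | (h | h))) | (((h | h) | (h | h)) | ((h | h) | (h | h))))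
    · obtain ⟨rfl, h1⟩ := h
      exact H.lw _ _ _ _ (by omega) (by omega) (by omega) (by omega) (by omega) (by omega)
    · obtain ⟨rfl, rfl, h1⟩ := h
      exact mt (WrapC.v1 H.c0 (by omega) (by omega) (by omega) (by omega) (by omega) (by omega) (by omega) (by omega)).mp (by omega)
    · obtain ⟨rfl, rfl, h1⟩ := h
      exact H.T.rOut hf (t := 1) (p := 1) (j := 1) (by omega) (by omega) (by omega) (by omega) (by omega) (by omega) (by omega) (by omega)
    · obtain ⟨rfl, rfl, h1⟩ := h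
      exact fun t => Tp.r1 hf (p := 0) (j := 4) (by omega) (by omega) (by omega) (by omega) (by omega) (by omega) (mv (b' := c - 4 + 1) t rfl (by omega) rfl rfl)
    · obtain ⟨rfl, rfl, h1⟩ := h
      exact Tp.p2 hf (j := 4) (by omega) (by omega) (by omega) (by omega) (by omega) (by omega)
    · obtain ⟨rfl, rfl, h1⟩ := h
      exact Tp.p2 hf (j := 4) (by omega) (by omega) (by omega) (by omega) (by omega) (by omega)
    · obtain ⟨rfl, rfl, h1⟩ := h
      exact H.T.rIn hf (t := 2) (p := 1) (j := 2) (by omega) (by omega) (by omega) (by omega) (by omega) (by omega) (by omega) (by omega)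
    · obtain ⟨rfl, rfl, h1⟩ := h
      exact Tp.p0 hf (j := 3) (by omega) (by omega) (by omega) (by omega) (by omega) (by omega)
    · obtain ⟨rfl, rfl, h1⟩ := h
      exact H.T.rIn hf (t := 2) (p := 0) (j := 2) (by omega) (by omega) (by omega) (by omega) (by omega) (by omega) (by omega) (by omega)
    · obtain ⟨rfl, rfl, h1⟩ := h
      exact mt (WrapC.v2 H.c0 (by omega) (by omega) (by omega) (by omega) (by omega) (by omega) (by omega)).mp (by omega)
    · obtain ⟨rfl, rfl, h1⟩ := h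
      exact H.T.rOut hf (t := 1) (p := 0) (j := 1) (by omega) (by omega) (by omega) (by omega) (by omega) (by omega) (by omega) (by omega)
    · obtain ⟨rfl, rfl, h1⟩ := h
      exact H.T.pOut hf (t := 2) (j := 1) (by omega) (by omega) (by omega) (by omega) (by omega) (by omega) (by omega)
    · obtain ⟨rfl, rfl, h1⟩ := h
      exact H.T.pIn hf (t := 3) (j := 2) (by omega) (by omega) (by omega) (by omega) (by omega) (by omega) (by omega)
    · obtain ⟨rfl, rfl, rfl, rfl⟩ := h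
      exact fun t => z1 (mv t (by omega) (by omega) (by omega) (by omega))
    · obtain ⟨rfl, rfl, rfl, rfl⟩ := h
      exact fun t => z3 (mv t (by omega) (by omega) (by omega) (by omega))
    · obtain ⟨rfl, rfl, rfl, rfl⟩ := h
      exact fun t => z2 (mv t (by omega) (by omega) (by omega) (by omega))

def b3bT (j n p q : ℕ) : Bool :=
  ((decide (j = 2 ∧ n = 2 ∧ 7 ≤ q ∧ q + 0 ≤ p ∧ p ≤ q + 15 ∧ p % 2 = 1 ∧ q % 2 = 0) ||
    decide (j = 2 ∧ n = 1 ∧ 7 ≤ p ∧ q + 0 ≤ p ∧ p ≤ q + 15 ∧ p ≤ q + 0 ∧ p % 2 = 1)) ||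
    (decide (j = 4 ∧ n = 1 ∧ 5 ≤ q ∧ q + 0 ≤ p ∧ p ≤ q + 15 ∧ p ≤ q + 0 ∧ p % 2 = 0) ||
    (decide (j = 2 ∧ n = 2 ∧ p = 6 ∧ q = 1) ||
    decide (j = 2 ∧ n = 4 ∧ p = 10 ∧ q = 3))))

def b3bF (j n p q : ℕ) : Bool :=
  ((((decide (j = 1 ∧ q + 0 ≤ p ∧ p ≤ q + 16) ||
    decide (j = 2 ∧ n = 1 ∧ 7 ≤ p ∧ q + 0 ≤ p ∧ p ≤ q + 15 ∧ (q + 1 ≤ p ∨ p % 2 = 0))) ||
    (decide (j = 2 ∧ n = 3 ∧ 10 ≤ p ∧ q + 4 ≤ p ∧ p ≤ q + 11) ||
    decide (j = 3 ∧ n = 3 ∧ 10 ≤ p ∧ q + 4 ≤ p ∧ p ≤ q + 11))) ||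
    ((decide (j = 3 ∧ n = 1 ∧ 4 ≤ q ∧ q + 2 ≤ p ∧ p ≤ q + 13) ||
    decide (j = 3 ∧ n = 4 ∧ q + 5 ≤ p ∧ p ≤ q + 10)) ||
    (decide (j = 3 ∧ n = 1 ∧ 6 ≤ p ∧ q + 3 ≤ p ∧ p ≤ q + 12) ||
    (decide (j = 3 ∧ n = 2 ∧ q + 4 ≤ p ∧ p ≤ q + 11) ||
    decide (j = 2 ∧ n = 2 ∧ 7 ≤ q ∧ q + 0 ≤ p ∧ p ≤ q + 14 ∧ (p % 2 = 0 ∨ q % 2 = 1)))))) ||
    (((decide (j = 2 ∧ n = 3 ∧ 9 ≤ q ∧ q + 0 ≤ p ∧ p ≤ q + 15 ∧ (q + 1 ≤ p ∨ p % 2 = 1)) ||
    decide (j = 2 ∧ n = 1 ∧ 6 ≤ p ∧ q + 3 ≤ p ∧ p ≤ q + 12)) ||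
    (decide (j = 2 ∧ n = 1 ∧ 4 ≤ q ∧ q + 2 ≤ p ∧ p ≤ q + 13) ||
    (decide (j = 2 ∧ n = 3 ∧ 8 ≤ q ∧ q + 3 ≤ p ∧ p ≤ q + 12) ||
    decide (j = 3 ∧ n = 2 ∧ 7 ≤ q ∧ q + 2 ≤ p ∧ p ≤ q + 13)))) ||
    ((decide (j = 3 ∧ n = 2 ∧ 9 ≤ p ∧ q + 3 ≤ p ∧ p ≤ q + 12) ||
    decide (j = 3 ∧ n = 3 ∧ 8 ≤ q ∧ q + 3 ≤ p ∧ p ≤ q + 12)) ||
    (decide (j = 3 ∧ n = 2 ∧ p = 7 ∧ q = 5) ||
    (decide (j = 3 ∧ n = 4 ∧ p = 11 ∧ q = 7) ||
    decide (j = 3 ∧ n = 4 ∧ p = 11 ∧ q = 9))))))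

theorem b3b_chk : check 4 6 13 13 0 0 1 1 2 b3bT b3bF
    217
    0x4c78306c28006c91206ca0304cf8004d61204dc8004e39a058c83078780078e12058583052380052381078f03058680058681052480052481051700051d00051d0e051d04046e0004740004740e06ca72078f0305868005868105248005248104c28004c88004c88e04c88404d603052b00052b04058c80058c8406d80304d58004d584058c83078780078e12058d00058d0404e30004e30404c88306c38006c384078e03078e80078e84078e0307880007880404c78004c78404d603052a80052a8404c78306c28006c91204ce8004ce84058b80086a80078d52058a8004ea8004dd8004c680047b8003290e02d48e086a8f078f07078e07078d87078d07078c87078687078607073a0707398707390707388707380707328707320707318706d80706d78706ca0706c90706c88706c207068387068307067c87067587067507067487067407066e87066e07066d87059407059307059207058a8f058607058507053f87053f07053e87053e07053d87053d0705390705378705370705368704ea8f04e38704dd8f04dd0704d68704d00704cf0704ce0704c68f04c20704c107048f07048e87048887048807048207048187048107047b8f047b07047a87047a07047987047907047387047307047287039187039107038b87038b07038a87038a07038507038487038407038387033d07033c87033707033687033607033587033087033007032f87032f0703298703290703288703280703228703220703218702e88702e80702e20702e18702db0702da8702d50702d48702d40702d38702ce0702cd8702cd0702cc8702cc0702c70702c68702c60702c587029407029387028d87028d07028687028607028007027f87027907027887027807027787027287027207027187027107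 = true := by
  decide +kernel

theorem b3b (hf : Rule f) (H : PL f k c n M) (Tp : NHT f k (c - 4) (2 * (n - (k + 2)))) (hM2 : M + 2 ≤ n)
    (hh : f (6 * k) (c - 4) (2 * M - 3) (2 * M - 8)) (h2 : f (6 * k) (c - 2) (2 * M + 1) (2 * M - 6))
    (z1 : ¬ f (6 * k + 1) (c - 4) (2 * M - 2) (2 * M - 4)) (z2 : ¬ f (6 * k + 1) (c - 2) (2 * M) (2 * M - 2))
    (z3 : ¬ f (6 * k + 1) (c - 2) (2 * M) (2 * M - 4)) (z4 : ¬ f (6 * k + 1) (c - 2) (2 * M + 2) (2 * M))
    (z5 : ¬ f (6 * k + 1) (c - 2) (2 * M + 2) (2 * M - 2)) :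
    False := by
  have hk := H.T.hk
  have hc := H.T.hc
  have h4 := H.T.h4
  have hb := H.T.hb
  have hN2 := H.T.hN2
  have hM := H.hM
  obtain ⟨a0, ha0⟩ : ∃ a0, a0 + 2 = 6 * k := ⟨6 * k - 2, by omega⟩
  obtain ⟨b0, hb0⟩ : ∃ b0, b0 + 6 = c := ⟨c - 6, by omega⟩
  obtain ⟨x0, hx0⟩ : ∃ x0, x0 + 9 = 2 * M := ⟨2 * M - 9, by omega⟩
  refine check_sound hf (a0 := a0) (b0 := b0) (x0 := x0) (y0 := x0) b3b_chk
    ⟨fun _ => rfl, fun h => absurd h (by decide), fun h => absurd h (by decide),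
      by omega, by omega, by omega, by omega⟩ ?_ ?_
  · intro j m p q hr h
    obtain ⟨-, -, hn1, hn2, hp1, hp2, hq1, hq2⟩ := hr
    unfold b3bT at h
    simp only [Bool.or_eq_true, decide_eq_true_eq] at h
    rcases h with ((h | h) | (h | (h | h)))
    · obtain ⟨rfl, rfl, h1⟩ := h
      exact (WrapC.v2 H.c0 (by omega) (by omega) (by omega) (by omega) (by omega) (by omega) (by omega)).mpr (by omega)
    · obtain ⟨rfl, rfl, h1⟩ := h
      exact (WrapC.v1 H.c0 (by omega) (by omega) (by omega) (by omega) (by omega) (by omega) (by omega) (by omega)).mpr (by omega)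
    · obtain ⟨rfl, rfl, h1⟩ := h
      exact (WrapC.v3 H.c2a (by omega) (by omega) (by omega) (by omega) (by omega) (by omega) (by omega) (by omega)).mpr (by omega)
    · obtain ⟨rfl, rfl, rfl, rfl⟩ := h
      exact mv hh (by omega) (by omega) (by omega) (by omega)
    · obtain ⟨rfl, rfl, rfl, rfl⟩ := h
      exact mv h2 (by omega) (by omega) (by omega) (by omega)
  · intro j m p q hr h
    obtain ⟨-, -, hn1, hn2, hp1, hp2, hq1, hq2⟩ := hr
    unfold b3bF at h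
    simp only [Bool.or_eq_true, decide_eq_true_eq] at h
    rcases h with ((((h | h) | (h | h)) | ((h | h) | (h | (h | h)))) | (((h | h) | (h | (h | h))) | ((h | h) | (h | (h | h)))))
    · obtain ⟨rfl, h1⟩ := h
      exact H.lw _ _ _ _ (by omega) (by omega) (by omega) (by omega) (by omega) (by omega)
    · obtain ⟨rfl, rfl, h1⟩ := h
      exact mt (WrapC.v1 H.c0 (by omega) (by omega) (by omega) (by omega) (by omega) (by omega) (by omega) (by omega)).mp (by omega)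
    · obtain ⟨rfl, rfl, h1⟩ := h
      exact H.T.rIn hf (t := 3) (p := 0) (j := 3) (by omega) (by omega) (by omega) (by omega) (by omega) (by omega) (by omega) (by omega)
    · obtain ⟨rfl, rfl, h1⟩ := h
      exact H.T.rIn hf (t := 3) (p := 1) (j := 3) (by omega) (by omega) (by omega) (by omega) (by omega) (by omega) (by omega) (by omega)
    · obtain ⟨rfl, rfl, h1⟩ := h
      exact H.T.rOut hf (t := 1) (p := 1) (j := 1) (by omega) (by omega) (by omega) (by omega) (by omega) (by omega) (by omega) (by omega)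
    · obtain ⟨rfl, rfl, h1⟩ := h
      exact Tp.p2 hf (j := 4) (by omega) (by omega) (by omega) (by omega) (by omega) (by omega)
    · obtain ⟨rfl, rfl, h1⟩ := h
      exact H.T.rIn hf (t := 2) (p := 1) (j := 2) (by omega) (by omega) (by omega) (by omega) (by omega) (by omega) (by omega) (by omega)
    · obtain ⟨rfl, rfl, h1⟩ := h
      exact Tp.p0 hf (j := 3) (by omega) (by omega) (by omega) (by omega) (by omega) (by omega)
    · obtain ⟨rfl, rfl, h1⟩ := h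
      exact mt (WrapC.v2 H.c0 (by omega) (by omega) (by omega) (by omega) (by omega) (by omega) (by omega)).mp (by omega)
    · obtain ⟨rfl, rfl, h1⟩ := h
      exact mt (WrapC.v3 H.c0 (by omega) (by omega) (by omega) (by omega) (by omega) (by omega) (by omega) (by omega)).mp (by omega)
    · obtain ⟨rfl, rfl, h1⟩ := h
      exact H.T.rIn hf (t := 2) (p := 0) (j := 2) (by omega) (by omega) (by omega) (by omega) (by omega) (by omega) (by omega) (by omega)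
    · obtain ⟨rfl, rfl, h1⟩ := h
      exact H.T.rOut hf (t := 1) (p := 0) (j := 1) (by omega) (by omega) (by omega) (by omega) (by omega) (by omega) (by omega) (by omega)
    · obtain ⟨rfl, rfl, h1⟩ := h
      exact H.T.rOut hf (t := 2) (p := 0) (j := 2) (by omega) (by omega) (by omega) (by omega) (by omega) (by omega) (by omega) (by omega)
    · obtain ⟨rfl, rfl, h1⟩ := h
      exact H.T.pOut hf (t := 2) (j := 1) (by omega) (by omega) (by omega) (by omega) (by omega) (by omega) (by omega)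
    · obtain ⟨rfl, rfl, h1⟩ := h
      exact H.T.pIn hf (t := 3) (j := 2) (by omega) (by omega) (by omega) (by omega) (by omega) (by omega) (by omega)
    · obtain ⟨rfl, rfl, h1⟩ := h
      exact H.T.rOut hf (t := 2) (p := 1) (j := 2) (by omega) (by omega) (by omega) (by omega) (by omega) (by omega) (by omega) (by omega)
    · obtain ⟨rfl, rfl, rfl, rfl⟩ := h
      exact fun t => z1 (mv t (by omega) (by omega) (by omega) (by omega))
    · obtain ⟨rfl, rfl, rfl, rfl⟩ := h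
      exact fun t => z5 (mv t (by omega) (by omega) (by omega) (by omega))
    · obtain ⟨rfl, rfl, rfl, rfl⟩ := h
      exact fun t => z4 (mv t (by omega) (by omega) (by omega) (by omega))

/-- b3 -/
theorem b3 (hf : Rule f) (H : PL f k c n M) (Tp : NHT f k (c - 4) (2 * (n - (k + 2)))) (hM2 : M + 2 ≤ n)
    (hh : f (6 * k) (c - 4) (2 * M - 3) (2 * M - 8)) (h2 : f (6 * k) (c - 2) (2 * M - 1) (2 * M - 8) ∨ f (6 * k) (c - 2) (2 * M + 1) (2 * M - 6))
    (z1 : ¬ f (6 * k + 1) (c - 4) (2 * M - 2) (2 * M - 4)) (z2 : ¬ f (6 * k + 1) (c - 2) (2 * M) (2 * M - 2))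
    (z3 : ¬ f (6 * k + 1) (c - 2) (2 * M) (2 * M - 4)) (z4 : ¬ f (6 * k + 1) (c - 2) (2 * M + 2) (2 * M))
    (z5 : ¬ f (6 * k + 1) (c - 2) (2 * M + 2) (2 * M - 2)) :
    False := by
  rcases h2 with h2 | h2
  · exact b3a hf H Tp hM2 hh h2 z1 z2 z3 z4 z5
  · exact b3b hf H Tp hM2 hh h2 z1 z2 z3 z4 z5

end Pool.Agent.SNT.L3B
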