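import Pool.Agent.SNT.Loc

set_option autoImplicit false

/-! Region tables (helper32) -/

namespace Pool.Agent.SNT.L3D

open Pool.Agent.SNT Pool.Agent.SNT.Loc

/-- The region predicate of the fact tables. -/
def rg (r1 r2 u1 u2 v1 v2 d1 d2 n p q : ℕ) : Bool :=
  Nat.ble r1 n && (Nat.ble n r2 && (Nat.ble u1 p && (Nat.ble p u2 && (Nat.ble v1 q && (Nat.ble q v2 &&
    (Nat.ble (q + d1) p && Nat.ble p (q + d2)))))))

theorem rg_iff {r1 r2 u1 u2 v1 v2 d1 d2 n p q : ℕ} (h : rg r1 r2 u1 u2 v1 v2 d1 d2 n p q = true) :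
    r1 ≤ n ∧ n ≤ r2 ∧ u1 ≤ p ∧ p ≤ u2 ∧ v1 ≤ q ∧ q ≤ v2 ∧ q + d1 ≤ p ∧ p ≤ q + d2 := by
  simpa only [rg, Bool.and_eq_true, Nat.ble_eq] using h

/-- A residue modulo `2`. -/
def pr (a r : ℕ) : Bool := Nat.beq (a % 2) r

theorem pr_iff {a r : ℕ} (h : pr a r = true) : a % 2 = r := by
  simpa only [pr, Nat.beq_eq] using h

/-- A single cell. -/
def tg (J N P Q j n p q : ℕ) : Bool := Nat.beq j J && (Nat.beq n N && (Nat.beq p P && Nat.beq q Q))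

theorem tg_iff {J N P Q j n p q : ℕ} (h : tg J N P Q j n p q = true) : j = J ∧ n = N ∧ p = P ∧ q = Q := by
  simpa only [tg, Bool.and_eq_true, Nat.beq_eq] using h

theorem or_l {a b : Bool} (h : (a || b) = true) : a = true ∨ b = true := by
  simpa only [Bool.or_eq_true] using h

theorem and_l {a b : Bool} (h : (a && b) = true) : a = true ∧ b = true := by
  simpa only [Bool.and_eq_true] using h

def d2_on2 (n p q : ℕ) : Bool :=
    (pr p 0 && rg 1 1 8 10 8 10 0 0 n p q) || (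
    (pr q 1 && (pr p 0 && rg 2 2 12 14 11 13 1 1 n p q)) || (
    (pr p 1 && rg 3 3 13 13 13 13 0 0 n p q) || (
    (pr q 0 && (pr p 1 && rg 4 4 15 15 14 14 1 1 n p q)) || (
    (pr p 0 && rg 5 5 16 16 16 16 0 0 n p q)))))

def d2_on (j n p q : ℕ) : Bool :=
  (Nat.beq j 2 && d2_on2 n p q)

def d2_zr1 (n p q : ℕ) : Bool :=
    rg 1 10 9 21 6 19 0 8 n p q

def d2_zr2 (n p q : ℕ) : Bool :=
    rg 1 1 9 11 6 6 3 5 n p q || (
    rg 1 1 9 11 7 9 1 4 n p q || (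
    (pr p 1 && rg 1 1 9 9 9 9 0 0 n p q) || (
    rg 3 3 12 12 7 9 3 5 n p q || (
    rg 3 3 12 12 10 10 2 2 n p q || (
    rg 3 3 13 15 7 13 1 8 n p q || (
    (pr (p + q) 0 && rg 4 4 13 15 13 14 0 2 n p q) || (
    (pr p 0 && rg 4 4 14 14 13 13 1 1 n p q) || (
    (pr p 1 && rg 5 5 15 17 15 17 0 0 n p q) || (
    rg 5 5 16 17 12 13 4 5 n p q || (
    rg 5 5 16 20 15 17 1 5 n p q))))))))))

def d2_zr3 (n p q : ℕ) : Bool :=
    rg 1 1 10 11 6 7 3 5 n p q || (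
    rg 2 2 11 11 6 7 4 5 n p q || (
    rg 3 3 14 15 8 9 5 7 n p q || (
    rg 3 3 14 15 12 13 2 3 n p q || (
    rg 4 4 15 15 8 12 3 7 n p q || (
    rg 4 4 15 15 13 13 2 2 n p q || (
    rg 5 5 16 17 12 13 4 5 n p q))))))

def d2_zr (j n p q : ℕ) : Bool :=
  (Nat.beq j 1 && d2_zr1 n p q) || (
  (Nat.beq j 2 && d2_zr2 n p q) || (
  (Nat.beq j 3 && d2_zr3 n p q)))

end Pool.Agent.SNT.L3D
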