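import Pool.Agent.SNT.L3D2F1
import Pool.Agent.SNT.L3D2F2
import Pool.Agent.SNT.L3D2C1

set_option autoImplicit false
set_option synthInstance.maxSize 100000
set_option synthInstance.maxHeartbeats 4000000

/-! Assembly (helper32) -/

namespace Pool.Agent.SNT.L3D

open Pool.Agent.SNT Pool.Agent.SNT.Sig Pool.Agent.SNT.Loc Pool.Agent.SNT.LW Pool.Agent.SNT.NHZ Pool.Agent.SNT.D1E

variable {f : ℕ → ℕ → ℕ → ℕ → Prop}

theorem d2_on_s (hf : Rule f) {k b n M a0 b0 x0 : ℕ} (h : PL f k b n M) (hM : M + 2 ≤ n)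
    (ha0 : a0 + 2 = 6 * k) (hb0 : b0 + 8 = b) (hx0 : x0 + 15 = 2 * M) {j m p q : ℕ} (hx : d2_on j m p q = true) :
    f (a0 + j) (b0 + m) (x0 + p) (x0 + q) := by
  unfold d2_on at hx
  obtain ⟨e, hx⟩ := and_l hx
  rw [Nat.beq_eq] at e
  subst e
  exact d2_on2_s hf h hM ha0 hb0 hx0  hx

theorem d2_zr_s (hf : Rule f) {k b n M a0 b0 x0 : ℕ} (h : PL f k b n M) (hM : M + 2 ≤ n)
    (ha0 : a0 + 2 = 6 * k) (hb0 : b0 + 8 = b) (hx0 : x0 + 15 = 2 * M) {j m p q : ℕ} (hx : d2_zr j m p q = true) :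
    ¬ f (a0 + j) (b0 + m) (x0 + p) (x0 + q) := by
  unfold d2_zr at hx
  rcases or_l hx with hx | hx
  · obtain ⟨e, hx⟩ := and_l hx
    rw [Nat.beq_eq] at e
    subst e
    exact d2_zr1_s hf h hM ha0 hb0 hx0  hx
  rcases or_l hx with hx | hx
  · obtain ⟨e, hx⟩ := and_l hx
    rw [Nat.beq_eq] at e
    subst e
    exact d2_zr2_s hf h hM ha0 hb0 hx0  hx
  obtain ⟨e, hx⟩ := and_l hx
  rw [Nat.beq_eq] at e
  subst e
  exact d2_zr3_s hf h hM ha0 hb0 hx0  hx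

theorem l3_D2w (hf : Rule f) {k b n M : ℕ} (h : PL f k b n M) (hM : M + 2 ≤ n)
    (t_1_22_38_36 : f (6 * k + 1) (b + 2) (2 * M + 6) (2 * M + 4))
    (t_0_14_27_22 : f (6 * k) (b - 6) (2 * M - 5) (2 * M - 10))
    (t_0_18_29_24 : f (6 * k) (b - 2) (2 * M - 3) (2 * M - 8))
    (t_0_18_33_28 : f (6 * k) (b - 2) (2 * M + 1) (2 * M - 4))
    (t_0_18_31_26 : ¬ f (6 * k) (b - 2) (2 * M - 1) (2 * M - 6))
    (t_1_18_30_26 : ¬ f (6 * k + 1) (b - 2) (2 * M - 2) (2 * M - 6))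
    (t_1_18_34_30 : ¬ f (6 * k + 1) (b - 2) (2 * M + 2) (2 * M - 2)) : False := by
  have hk := h.T.hk
  have hb := h.T.hc
  have h4 := h.T.h4
  have hbig := h.T.hb
  have hn := h.T.hN2
  have hn4 := h.hM
  obtain ⟨a0, ha0⟩ : ∃ z, z + 2 = 6 * k := ⟨6 * k - 2, by omega⟩
  obtain ⟨b0, hb0⟩ : ∃ z, z + 8 = b := ⟨b - 8, by omega⟩
  obtain ⟨x0, hx0⟩ : ∃ z, z + 15 = 2 * M := ⟨2 * M - 15, by omega⟩
  refine check_sound hf (a0 := a0) (b0 := b0) (x0 := x0) (y0 := x0) l3_D2w_chk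
    ⟨fun _ => rfl, fun h => absurd h (by decide), fun h => absurd h (by decide), by omega, by omega,
      by omega, by omega⟩ ?_ ?_
  · intro j m p q hr hx
    clear hr
    rcases or_l hx with hx | hx
    · obtain ⟨rfl, rfl, rfl, rfl⟩ := tg_iff hx
      rwa [show a0 + 3 = 6 * k + 1 by omega, show b0 + 10 = b + 2 by omega, show x0 + 21 = 2 * M + 6 by omega, show x0 + 19 = 2 * M + 4 by omega]
    rcases or_l hx with hx | hx
    · obtain ⟨rfl, rfl, rfl, rfl⟩ := tg_iff hx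
      rwa [show a0 + 2 = 6 * k by omega, show b0 + 2 = b - 6 by omega, show x0 + 10 = 2 * M - 5 by omega, show x0 + 5 = 2 * M - 10 by omega]
    rcases or_l hx with hx | hx
    · obtain ⟨rfl, rfl, rfl, rfl⟩ := tg_iff hx
      rwa [show a0 + 2 = 6 * k by omega, show b0 + 6 = b - 2 by omega, show x0 + 12 = 2 * M - 3 by omega, show x0 + 7 = 2 * M - 8 by omega]
    rcases or_l hx with hx | hx
    · obtain ⟨rfl, rfl, rfl, rfl⟩ := tg_iff hx
      rwa [show a0 + 2 = 6 * k by omega, show b0 + 6 = b - 2 by omega, show x0 + 16 = 2 * M + 1 by omega, show x0 + 11 = 2 * M - 4 by omega]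
    exact d2_on_s hf h hM ha0 hb0 hx0 hx
  · intro j m p q hr hx
    clear hr
    rcases or_l hx with hx | hx
    · obtain ⟨rfl, rfl, rfl, rfl⟩ := tg_iff hx
      rwa [show a0 + 2 = 6 * k by omega, show b0 + 6 = b - 2 by omega, show x0 + 14 = 2 * M - 1 by omega, show x0 + 9 = 2 * M - 6 by omega]
    rcases or_l hx with hx | hx
    · obtain ⟨rfl, rfl, rfl, rfl⟩ := tg_iff hx
      rwa [show a0 + 3 = 6 * k + 1 by omega, show b0 + 6 = b - 2 by omega, show x0 + 13 = 2 * M - 2 by omega, show x0 + 9 = 2 * M - 6 by omega]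
    rcases or_l hx with hx | hx
    · obtain ⟨rfl, rfl, rfl, rfl⟩ := tg_iff hx
      rwa [show a0 + 3 = 6 * k + 1 by omega, show b0 + 6 = b - 2 by omega, show x0 + 17 = 2 * M + 2 by omega, show x0 + 13 = 2 * M - 2 by omega]
    exact d2_zr_s hf h hM ha0 hb0 hx0 hx

/-- **`D2` of `l3`**. -/
theorem D2 (hf : Rule f) {k c n M : ℕ} (H : PL f k c n M) (hM2 : M + 2 ≤ n)
    (h : f (6 * k + 1) (c + 2) (2 * M + 6) (2 * M + 4))
    (a : f (6 * k) (c - 6) (2 * M - 5) (2 * M - 10)) (b' : f (6 * k) (c - 2) (2 * M - 3) (2 * M - 8))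
    (m : ¬ f (6 * k) (c - 2) (2 * M - 1) (2 * M - 6)) (p : f (6 * k) (c - 2) (2 * M + 1) (2 * M - 4))
    (z1 : ¬ f (6 * k + 1) (c - 2) (2 * M - 2) (2 * M - 6)) (z2 : ¬ f (6 * k + 1) (c - 2) (2 * M + 2) (2 * M - 2)) :
    False :=
  l3_D2w hf H hM2 h a b' p m z1 z2

end Pool.Agent.SNT.L3D
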