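import Pool.Agent.SNT.PL
import Pool.Agent.SNT.NHZone2

set_option autoImplicit false
set_option synthInstance.maxSize 100000
set_option synthInstance.maxHeartbeats 4000000
set_option linter.unusedVariables false

/-! The near-wall window `Wa` of the cell `(2 M + 6, 2 M + 4)` of `P_(6k+1)` in the row `c + 2`. -/

namespace Pool.Agent.SNT.WaL3

open Pool.Agent.SNT Pool.Agent.SNT.Loc Pool.Agent.SNT.LW Pool.Agent.SNT.NHZ Pool.Agent.SNT.D1E

variable {f : ℕ → ℕ → ℕ → ℕ → Prop}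

theorem zZ_r1i (hf : Rule f) {k c N M R x y p j : ℕ} (h : NHT f k c N) (hR : R = c + 1) (hj : j ≤ 5) (hp : p ≤ 1)
    (hL : M + 2 * j = 6 * k + 10 + p) (hx : N + 3 ≤ x) (h1 : y + 1 + j ≤ x) (h2 : x + 2 + j ≤ y + 2 * k) :
    ¬ f M R x y := by
  subst hR
  exact h.r1i hf hj hp hL hx h1 h2

theorem uP0 (hf : Rule f) {k c N M R x y j : ℕ} (h : NHU f k c N) (hj : j ≤ 0) (hL : M + 1 + 2 * j = 6 * k + 6)
    (hR : R + 5 = c ∨ R + 4 = c) (hx : N ≤ x + 8) (h1 : y + 1 + j ≤ x) (h2 : x + j ≤ y + 2 * k) : ¬ f M R x y :=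
  h.I.P hf (t := 0) (s := 0) (j := j) (q := c - 4 - R) (by omega) (by omega) (by omega) (by omega)
    (by have := h.hb; omega) (by unfold XU; rw [if_pos (by omega)]; have := h.hN2; omega) (by have := h.hN2; omega)
    (by omega) (by omega)

theorem uP1 (hf : Rule f) {k c N M R x y j : ℕ} (h : NHU f k c N) (hj : j ≤ 1) (hL : M + 1 + 2 * j = 6 * k + 8)
    (hR : R + 3 = c ∨ R + 2 = c) (hx : N ≤ x + 2) (h1 : y + 1 + j ≤ x) (h2 : x + j ≤ y + 2 * k) : ¬ f M R x y :=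
  h.pmi hf hj hL hR hx h1 h2

theorem uP2 (hf : Rule f) {k c N M R x y j : ℕ} (h : NHU f k c N) (hj : j ≤ 2) (hL : M + 1 + 2 * j = 6 * k + 10)
    (hR : R + 1 = c ∨ R = c) (hx : N + 4 ≤ x) (h1 : y + 1 + j ≤ x) (h2 : x + j ≤ y + 2 * k) : ¬ f M R x y :=
  h.p0i hf hj hL hR hx h1 h2

theorem uA0 (hf : Rule f) {k c N M R x y p j : ℕ} (h : NHU f k c N) (hR : R + 3 = c) (hj : j ≤ 0) (hp : p ≤ 1)
    (hL : M + 2 * j = 6 * k + 6 + p) (hx : N ≤ x + 7) (h1 : y + 1 + j ≤ x) (h2 : x + j ≤ y + 2 * k) : ¬ f M R x y :=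
  h.I.after hf (t := 0) (s := 0) (j := j) (p := p) (q := 1) (by omega) (by omega) hp le_rfl (by omega) (by omega)
    (by have := h.hb; omega) (by unfold XU; rw [if_pos (by omega)]; have := h.hN2; omega)
    (by have := h.hN2; omega) (by omega) (by omega)

theorem uA1 (hf : Rule f) {k c N M R x y p j : ℕ} (h : NHU f k c N) (hR : R + 1 = c) (hj : j ≤ 1) (hp : p ≤ 1)
    (hL : M + 2 * j = 6 * k + 8 + p) (hx : N ≤ x + 1) (h1 : y + 1 + j ≤ x) (h2 : x + j ≤ y + 2 * k) : ¬ f M R x y := by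
  have e : R = c - 1 := by omega
  subst e
  exact h.rm1i hf hj hp hL hx h1 h2

theorem uA2 (hf : Rule f) {k c N M R x y p j : ℕ} (h : NHU f k c N) (hR : R = c + 1) (hj : j ≤ 2) (hp : p ≤ 1)
    (hL : M + 2 * j = 6 * k + 10 + p) (hx : N + 5 ≤ x) (h1 : y + 1 + j ≤ x) (h2 : x + j ≤ y + 2 * k) : ¬ f M R x y := by
  subst hR
  exact h.r1i hf hj hp hL hx h1 h2

theorem wa_chk : check 10 9 18 25 0 1 1 1 0
    (fun j n p q => decide ((j = 2 ∧ n = 3 ∧ 6 ≤ p ∧ q ≤ p + 17 ∧ (((p + q) % 2 = 1 ∧ p + 3 ≤ q ∧ p % 2 = 0) ∨ ((p + q) % 2 = 1 ∧ q ≤ p + 3 ∧ (p + q + 1) % 4 = 0)))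
      ∨ (j = 2 ∧ n = 5 ∧ q ≤ p + 2 ∧ 10 ≤ p ∧ q ≤ p + 17 ∧ (((p + q) % 2 = 1 ∧ p + 3 ≤ q ∧ p % 2 = 1) ∨ ((p + q) % 2 = 1 ∧ q ≤ p + 3 ∧ (p + q + 3) % 4 = 0)))
      ∨ (j = 2 ∧ n = 1 ∧ q ≤ p + 2 ∧ 2 ≤ p ∧ q ≤ p + 17 ∧ (((p + q) % 2 = 1 ∧ p + 3 ≤ q ∧ p % 2 = 1) ∨ ((p + q) % 2 = 1 ∧ q ≤ p + 3 ∧ (p + q + 3) % 4 = 0)))
      ∨ (j = 4 ∧ n = 6 ∧ ((14 ≤ p) ∨ (p + 2 ≤ q ∧ 13 ≤ p)) ∧ q ≤ p + 17 ∧ ((p + q) % 2 = 0 ∧ q ≤ p + 2 ∧ (p + q + 2) % 4 = 0))
      ∨ (j = 4 ∧ n = 2 ∧ ((4 ≤ p) ∨ (p + 2 ≤ q ∧ 3 ≤ p)) ∧ q ≤ p + 17 ∧ ((p + q) % 2 = 0 ∧ q ≤ p + 2 ∧ (p + q + 2) % 4 = 0))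
      ∨ (j = 4 ∧ n = 3 ∧ q ≤ p + 2 ∧ 6 ≤ p ∧ q ≤ p + 17 ∧ (((p + q) % 2 = 1 ∧ p + 3 ≤ q ∧ p % 2 = 1) ∨ ((p + q) % 2 = 1 ∧ q ≤ p + 3 ∧ (p + q + 3) % 4 = 0)))
      ∨ (j = 6 ∧ n = 4 ∧ ((8 ≤ p) ∨ (p + 2 ≤ q ∧ 7 ≤ p)) ∧ q ≤ p + 17 ∧ ((p + q) % 2 = 0 ∧ q ≤ p + 2 ∧ (p + q + 2) % 4 = 0))
      ∨ (j = 6 ∧ n = 5 ∧ q ≤ p + 2 ∧ 10 ≤ p ∧ q ≤ p + 17 ∧ (((p + q) % 2 = 1 ∧ p + 3 ≤ q ∧ p % 2 = 1) ∨ ((p + q) % 2 = 1 ∧ q ≤ p + 3 ∧ (p + q + 3) % 4 = 0)))
      ∨ (j = 8 ∧ n = 6 ∧ ((12 ≤ p) ∨ (p ≤ q + 0 ∧ 11 ≤ p)) ∧ q ≤ p + 17 ∧ ((p + q) % 2 = 0 ∧ q ≤ p + 0 ∧ (p + q + 2) % 4 = 2))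
      ∨ (j = 10 ∧ n = 7 ∧ ((14 ≤ p ∧ p + 3 ≤ q) ∨ (16 ≤ p)) ∧ q ≤ p + 17 ∧ (((p + q) % 2 = 1 ∧ p + 1 ≤ q ∧ p % 2 = 0) ∨ ((p + q) % 2 = 1 ∧ q ≤ p + 1 ∧ (p + q + 1) % 4 = 2)))
      ∨ (j = 5 ∧ n = 7 ∧ p = 13 ∧ q = 15)
      ∨ (j = 2 ∧ n = 7 ∧ p = 10 ∧ q = 17)))
    (fun j n p q => decide ((j = 2 ∧ n = 3 ∧ 6 ≤ p ∧ q ≤ p + 17 ∧ ¬ (((p + q) % 2 = 1 ∧ p + 3 ≤ q ∧ p % 2 = 0) ∨ ((p + q) % 2 = 1 ∧ q ≤ p + 3 ∧ (p + q + 1) % 4 = 0)))
      ∨ (j = 2 ∧ n = 5 ∧ q ≤ p + 2 ∧ 10 ≤ p ∧ q ≤ p + 17 ∧ ¬ (((p + q) % 2 = 1 ∧ p + 3 ≤ q ∧ p % 2 = 1) ∨ ((p + q) % 2 = 1 ∧ q ≤ p + 3 ∧ (p + q + 3) % 4 = 0)))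
      ∨ (j = 2 ∧ n = 1 ∧ q ≤ p + 2 ∧ 2 ≤ p ∧ q ≤ p + 17 ∧ ¬ (((p + q) % 2 = 1 ∧ p + 3 ≤ q ∧ p % 2 = 1) ∨ ((p + q) % 2 = 1 ∧ q ≤ p + 3 ∧ (p + q + 3) % 4 = 0)))
      ∨ (j = 4 ∧ n = 6 ∧ ((14 ≤ p) ∨ (p + 2 ≤ q ∧ 13 ≤ p)) ∧ q ≤ p + 17 ∧ ¬ ((p + q) % 2 = 0 ∧ q ≤ p + 2 ∧ (p + q + 2) % 4 = 0))
      ∨ (j = 4 ∧ n = 2 ∧ ((4 ≤ p) ∨ (p + 2 ≤ q ∧ 3 ≤ p)) ∧ q ≤ p + 17 ∧ ¬ ((p + q) % 2 = 0 ∧ q ≤ p + 2 ∧ (p + q + 2) % 4 = 0))
      ∨ (j = 4 ∧ n = 3 ∧ q ≤ p + 2 ∧ 6 ≤ p ∧ q ≤ p + 17 ∧ ¬ (((p + q) % 2 = 1 ∧ p + 3 ≤ q ∧ p % 2 = 1) ∨ ((p + q) % 2 = 1 ∧ q ≤ p + 3 ∧ (p + q + 3) % 4 = 0)))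
      ∨ (j = 6 ∧ n = 4 ∧ ((8 ≤ p) ∨ (p + 2 ≤ q ∧ 7 ≤ p)) ∧ q ≤ p + 17 ∧ ¬ ((p + q) % 2 = 0 ∧ q ≤ p + 2 ∧ (p + q + 2) % 4 = 0))
      ∨ (j = 6 ∧ n = 5 ∧ q ≤ p + 2 ∧ 10 ≤ p ∧ q ≤ p + 17 ∧ ¬ (((p + q) % 2 = 1 ∧ p + 3 ≤ q ∧ p % 2 = 1) ∨ ((p + q) % 2 = 1 ∧ q ≤ p + 3 ∧ (p + q + 3) % 4 = 0)))
      ∨ (j = 8 ∧ n = 6 ∧ ((12 ≤ p) ∨ (p ≤ q + 0 ∧ 11 ≤ p)) ∧ q ≤ p + 17 ∧ ¬ ((p + q) % 2 = 0 ∧ q ≤ p + 0 ∧ (p + q + 2) % 4 = 2))
      ∨ (j = 10 ∧ n = 7 ∧ ((14 ≤ p ∧ p + 3 ≤ q) ∨ (16 ≤ p)) ∧ q ≤ p + 17 ∧ ¬ (((p + q) % 2 = 1 ∧ p + 1 ≤ q ∧ p % 2 = 0) ∨ ((p + q) % 2 = 1 ∧ q ≤ p + 1 ∧ (p + q + 1) % 4 = 2)))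
      ∨ (j = 1 ∧ q ≤ p + 17 ∧ p ≤ q + 14)
      ∨ (j = 2 ∧ n = 2 ∧ 2 ≤ p ∧ p + 5 ≤ q ∧ q ≤ p + 16)
      ∨ (j = 4 ∧ n = 4 ∧ 6 ≤ p ∧ p + 5 ≤ q ∧ q ≤ p + 16)
      ∨ (j = 5 ∧ n = 5 ∧ 9 ≤ p ∧ p + 5 ≤ q ∧ q ≤ p + 16)
      ∨ (j = 7 ∧ n = 5 ∧ 9 ≤ p ∧ p + 2 ≤ q ∧ q ≤ p + 17)
      ∨ (j = 3 ∧ n = 6 ∧ 10 ≤ p ∧ p + 7 ≤ q ∧ q ≤ p + 14)
      ∨ (j = 4 ∧ n = 6 ∧ 10 ≤ p ∧ p + 6 ≤ q ∧ q ≤ p + 15)
      ∨ (j = 6 ∧ n = 6 ∧ 10 ≤ p ∧ p + 5 ≤ q ∧ q ≤ p + 16)
      ∨ (j = 7 ∧ n = 6 ∧ 10 ≤ p ∧ p + 5 ≤ q ∧ q ≤ p + 16)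
      ∨ (j = 7 ∧ n = 6 ∧ 15 ≤ p ∧ p + 3 ≤ q ∧ q ≤ p + 16)
      ∨ (j = 9 ∧ n = 6 ∧ 10 ≤ p ∧ p + 2 ≤ q ∧ q ≤ p + 17)
      ∨ (j = 7 ∧ n = 7 ∧ 13 ≤ p ∧ p + 5 ≤ q ∧ q ≤ p + 16)
      ∨ (j = 7 ∧ n = 7 ∧ 15 ≤ p ∧ p + 3 ≤ q ∧ q ≤ p + 16)
      ∨ (j = 2 ∧ n = 5 ∧ p = 6 ∧ q = 13)
      ∨ (j = 4 ∧ n = 7 ∧ p = 10 ∧ q = 17)
      ∨ (j = 2 ∧ n = 7 ∧ p = 8 ∧ q = 15)
      ∨ (j = 2 ∧ n = 3 ∧ p = 4 ∧ q = 11)))
    1973
    0x148883139a00139a0112ab80129f8012b89a12ac9a23ec8523df8024da3223ec1223df8322e50022e50114c7831cb08024a65223ab8023ab8122b10022bd922d700324988024988116638315750015750114868014939a1c7d002466ca236c00236c01227d80228a9a1663831575001575011486801c7c52247200247e922384032c4e802c4f0a244c8024599a2547002553921e5903166280166281157400157401264d83255f00255f012470802470811c7a001c7a0113a28013af12149d00149d8a264d831e57001e5701158c00158c01264d831e57001e5701157f80157f84158c031e56801e5684149d80149d8415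7303148480148484157380157384158d831e57801e5784264e00264e8a2553802553842384032c4e802c4f0a244c8024599a25470025539226418026418414798014869a227d831a87001a870111af8011bc1212aa00137f0012aa8a138c1a1398801398841c7c001c7c01157503148680148684227d831a87001a870111af8011bc1212aa0012aa8a13988013990a129e80129e842466831c64001c6404166383157500157504247e80247e8412aa83138b80138b841663831575001575011c7d001c7d041c7d051487002466ca14878a1c64002459d22c42802c42841c7e03157580157584149f00149f0113a48013a48115818314870014878a138c80149f80139912149f8112aa8013b10012aa8113b1011397801397841663831575001575011c7d002466ca2c50003445d22c4f002c4f041487831c70001c700415818314870014878a149f80138c80149f8113991213b10012aa8013b10112aa8112b68012b6841e59031581801581841487831399001399041c7e031487801487841663831e4c001e4c041c7e03148780148781156800156804227e00227e041664001670922c5e852468802c6b1224759a2563002650b21e5a001e5a0116638016638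43648832669002e46002669012e4601264f80264f811664001670921e59001e5904228a831a88001a880424a7802c90c2248e002c77422474802474812473802c69523452803c48523371833b5a803b5a8422970022a392239180239e12248c00248c042c6a03246780246784346b80265b803559ba26689a248d00248d01338b833b74803c62322c83002c8301248080248084349f833581003e4b622e5f802e5f84349f833581003e4b62364880364884167d031e65801e65843371833b5a803c48322c69002c69012466802466842650832e39802e3984338a833b67003b6704147a831c63801c638414af831d79801d798414a20314a28014a28433a4833b81003b81041696031e7f001e7f04166f831e58801e58841496831c80001c80041664831e4d801e4d841484831c6d801c6d8422a3832385002385042c90832d71802d7184158d831d76801d7684227e83235f80235f84349f833581003e4b622d7e802d7e841581831d6a801d6a84167c031e65001e65044e1d033e3e003e3e042d7003249880249881256d80256d84167d031e72801e72842c77032d58002d580414a20314a28014af9a1d7a001d7a04247e832560002560041493831c7c801c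7c843e3d0335598035598411b08319998019998414bc031d86001d8604129e83137f80137f8414938315748015748423d3832bbc803493723574003574043566033e30003e30041496831c7f801c7f8414ad831d78001d7804249883257a00257a0414958315768015768414ae831d78801d7884159a031d83001d83042d7003249880249881248c80248c84149f83158080158084167b831e64801e64842d7003249880249881248c80248d0a256e80256e8414ad83158f00158f044e1b833e3d003e3d0414a2031c8b001c8b0414c8831d92801d928414a2031d6c001d6c04149f031c88001c8804167d80166500167e0a16719214ae83159000159004349f8335808035808414ab83158c80158c843566033d4f803d4f8424c08024c08114e1831ccb001ccb0415a80315a88015a88411be0319a70019a704159b831d84801d848413af0314908014908412aa831398001398044e1d033d5d003d5d0414a103158280158284338a833b67003c54b2354c80354c84149f831c88801c888414a203158380158384239e032c68802c688422a38323848023848414a2031583801664a21e4d001e4d0433a50332aa8032aa8410db8011c9ba11bc0311bc8011bc8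41493831d5d801d5d843371033b5a003b5a0411be0310cf8010cf8423e0032bc9002bc90414ae831d79001d7904338a833b67003c54b2354d00354d04159a031e64001e640414a10315820015820414ae831c97801c9784338b033b74003b740412ab831a94001a940414ad831d77801d77843654833655003655041495831c7e801c7e8410ce8510db8011bc3211c9ba129d80129d84338b033290803290841488831c71001c710414958315770015770412ab8311bd0011bd0414ab831d76001d7604248d03256e00256e042498832d63002d630414ad831c97001c9704129e831a87801a87841487831c70801c708414a1031d6b801d6b84149f831d69801d69841697031e80001e80041488831c71801c7184247e83255f80255f8411ca8319b38019b3841486831c6f801c6f844e29033d69003d690136618036618414a3031c8c001c8c0434858335670035670415a80316898016898414a30315840015840415a8031d91801d918424a68024a68114c7831cb1001cb1041575031d5e001d5e04338a833b73803b738422d78022be8022d78122cb1223c58322cb0022cb0414c7831d92001d920413b1031c7b801c7b8413af031c79801c79841291831a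7a801a7a8414a2031d6c801d6c8413b10314928014928435660335668035668414c7831cb0801cb08414a2031c8b801c8b8414a20314a28014a30a1c8c801c8c8412ab831a94801a948414878315688015688422cb032ab4802ab4841671831e5a801e5a8414bb03159c80159c84167d031e66001e66041663831e4c801e4c8411ca8319b380228afa236b80236b8414ad83158e80158e8415b5831d9e801d9e8414bb031d85001d850414ab831d75801d758414ae83159000167e3a1e73001e730411be0319a68019a684239e03247f80247f8414d50315b60015b6041696831e7f801e7f8422a58022b21223c58322cb0022cb0122b20022b20414d5031d9f001d9f0414bb031d85801d858423c5832bae802bae8413b1031c7b001c7b0422b2032b7c002b7c04159a03167b00167b0414a20315830015830422a3832b6e002b6e044e1c833d5c803d5c8412ab8311bd0011c99210ce8011bc321a86801a868411ca8319b30019b30414a1031d6b001d6b0414ab83158d00158d04228b8022981223b80022a48023b80122b11222bd8022bd8423d20022a68024c03a22b31222f18022bf8022f18122cc1222d88022d884167e031e67001e670411c98310cf0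010cf0423ec0023ec041489031489801489841495831c7f001c7f0414bb031ca4001ca40424c00323c58023c58122cb0022cb012b89002b890414bb0314bb8014bb8412ac0012ac0414a10314a18014a18412ac831a95801a958423b8032c82802c828422cb032b95802b95841670831e59801e598414a10314a18014ae9a159000167e3a1e73801e738410dd8011cbba11128010f78012003211e5ba112b8011108011118012193211feba11ff32114480112a8010f68012323212183211e432248a8012ae00115d80114380112980110f8010f5802c73c212ba92124bba1231ba1217ba11fdba11e3ba35720023c40023aa00239c0023900024b28013cb0012ad00125800123e00122400120a0011f00011d6003d5b422bad422b93422b85422b794225a0ba15b400142700140d0013f30013d90014b93a13bf0013bd0012b99213463a132c3a13123a12f83a12de3a12c43a56128056118055f98055f880455e0045440034ab8034918034838034778034698033cb0033b10033a300339700338900337d00337b00336f003363002e5e0025bb0025ad0025a10023178022fd8022e38022d58022c98022bb8022af8022ad8022a180229580221d0022030021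f50021e90021db0021cf0021cd0021c10021b500219b00167e8015078014ed8014d38015b40114c58014b98014b780134680142701133880132c80140d01131e8013138013128013f30113048012f98012f88012f68013d90112ea8012e18012e08012df8012de8012dc8013bf0112d08013bd0112ce8012c88012c78012c68012c58012c48012c28012c080118380116980114f80113580111b8011018010e78010cd8056128f56118f55f98f55f88f4d48074d3c074d3b874d3b074d2f874d2f074d2e874d2e07463407463307463207455f07455e87455e0f45530745528745520745518745510745468745460745458745450745448745440f3e4b073e4a873e3e873d6a073d69873d5d873c88073c7b873c7b073c62073c61873c55873c55073c54873c54073c48073c47873c3b873c3b07366207364807364707357487356787355b07355a8734ab8f349f07349e8734920734918f34910734908734860734850734848734840734838f34780734778f346c07346b0734698f34520734390733cb0f33be8733be0733b20733b18733b10f33a58733a50733a48733a40733a30f33988733980733978733970f338b87338b07338a87338a0733890f337f0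7337e87337e07337d87337d0f337b0f337187337107337087336f0f33650733648733640733630f33580733578732c40732c30732aa0732a9073290072e5e0f2c9d872c90872c84072c83872c77072c76872c6b072c6a872c6a072c6987265d07265c0726508726440726430726420726410725bb0f25ad0f25a10f25a08725a007259407257c07256f87256f0724cd0724b40724b307249b07249a07249907249807248207248107248007247e07246907246807246607246407244d0723d38723c70723c68723ba0723b98723ad0723ac8723a10723a08723a007239f8723948723940723938723930723928723880723878723870723868723858723790723788723178f230b07230a8722fe0722fd8f22f20722f10722e40722e38f22e30722e28722d80722d70722d68722d60722d58f22ca0722c98f22c90722c88722bf0722be0722bd0722bc8722bc0722bb8f22bb0722ba8722b00722af8f22af0722ae8722ae0722ad8f22a60722a50722a40722a30722a28722a20722a18f22960722958f228b07228a07227207227107221d0f22108722100722040722038722030f21f78721f70721f68721f60721f50f21eb0721ea8721ea0721e98721e90f21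de8721de0721dd8721dd0721dc8721dc0721db0f21d20721d18721d10721d08721d00721cf8721cf0f21cd0f21c58721c50721c48721c40721c38721c30721c28721c20721c10f21b70721b68721b60721b58721b50f21aa8721aa0721a98721a907219d87219d07219c87219c07219b0f219107219087219007218f871d8687168a07168907167e8f167107167007166f07166e0716648716580716570716560715078f14ed8f14e10714d40714d38f14d30714d28714c80714c70714c68714c60714c58f14ba0714b98f14b90714b88714b78f14af0714ae0714ad0714ac0714ab07149607149507149407149307149207149107148887147c07147b07147a0714780713468f13460713458713398713390713388f132c8f132c07132b87131f87131f07131e8f13138f13128f13120713118713058713050713048f12f98f12f88f12f80712f78712f68f12eb8712eb0712ea8f12e18f12e08f12df8f12de8f12de0712dd8712dc8f12dc0712db8712d18712d10712d08f12d00712cf8712cf0712ce8f12ce0712cd8712c88f12c78f12c68f12c58f12c48f12c40712c38712c30712c28f12c18712c10712c08f12ba0712b90712b80712b70712ac8712a00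7129f07129e07128507122587121907121887120c87120c07120b8712000711ff8711ff0711fe8711f38711f30711f28711f20711f18711e58711e50711d98711d90711d88711d80711d78711cd0711cc8711cc0711cb8711cb0711ca8711bf0711be8711be0711bd8711b18711b10711b08711838f116a0711698f115e07115007114f8f11440711360711358f112b07112a07111c07111b8f11120711110711100711020711018f10f80710f60710e80710e78f10de0710dd0710dc0710db0710da8710ce0710cd8f10c3070eae070ead870ead070eac870ea1870ea1070ea0870ea0070e95070e94870e94070e93870e93070e92870e92070e88870e88070e87870e87070e86870e86070e85870e7c070e7b870e7b070e7a870e7a070e79870e79070e6f070e6e870e6e070e6d870e6d070e6c870dcd070dcc870dcc070dcb870dcb070dca870dc0870dc0070dbf870dbf070dbe870dbe070db4070db3870db3070db2870db2070db1870db1070db0870da7870da7070da6870da6070da5870da5070da4870da4070da3070da2870d9b070d9a870d9a070d99870d99070d98870d98070d97870d96870d96070d8e070d8d870d8d070d8c870d8c070d8b870d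8b070d8a870d8a070d89870d7f870d7f070d7e870d7e070d7d870d7d070cf8870cf8070cec070ceb870ceb070cea070ce9870cdf870cdf070cde870cde070cdd870cdd070cd3070cd2870cd2070cd1870cd1070cd0070ccf870cc6870cc6070cc5870cc5070cc4870cc4070cc3870cc3070cc2870cc2070cc1870cba070cb9870cb9070cb8870cb8070cb7870cb7070cb6870cb6070cb5870cb5070cb4870cb4070cad870cad070cac870cac070cab870cab070caa870caa070ca9870ca9070ca8870ca8070ca7870ca1070ca0870ca0070c9f870c9f070c9e870c9e070c9d870c9d070c9c870c9c070c9b870c9b070c93870c93070c92870c92070c91870c91070c90870c8f070c8e870c85070c84870c3e070c3d870c31870c31070c24070c23870c17870c17070c0b070c0a870c0a070c09870bfe870bfe070bfd870bfd070bf2070bf1870bf1070bf0870bf0070bef870bef070bee870be5870be5070be4870be4070be3870be3070be2870be2070be1870be1070bd9070bd8870bd8070bd7870bd7070bd6870bd6070bd5870bd5070bd4870bd4070bd3870bd3070bcc870bcc070bcb870bcb070bca870bca070bc9870bc9070bc8870bc8070bc7870bc70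70bc6870bc6070bc5870bc0070bbf870bbf070bbe870bbe070bbd870bbd070bbc870bbc070bbb870bbb070bba870bba070bb9870bb9070bb2870bb2070bb1870bb1070bb0870bb0070baf870baf070bae870bae070bad870ba4870ba4070ba3870ba3070ba2870b96870b96070b5d070b5c870b50870b50070b43070b42870b36870b36070b29070b28870b1c870b1c070b0f070b0e870b02870b02070af5070af4870af3070af2870ae8870ae8070ae7070ae6870ae6070ae5070ae4870adb070ada870ada070ad8870ad8070ad1870ad1070ad0870ad0070acf870acf070ace870ace070acd870ac5070ac4870ac4070ac3870ac3070ac2870ac2070ac1870ac1070ab7070ab6870ab6070ab5870ab5070ab4870aa9070aa8870aa8070a9c070a9b870a7c070a7b870a6f870a6f070a62870a62070a61870a56070a55870a55070a49070a48870a48070a47870a3c870a3c070a3b870a3b070a30070a2f870a2f070a2e870a2e070a2d870a23870a23070a22870a22070a21870a21070a17070a16870a16070a15870a15070a14870a14070a13870a0a870a0a070a09870a09070a08870a08070a07870a070709fc8709fc0709fb0709fa8709fa0709f98709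f08709f00709ef8709ef0709ee8709ee0709ed8709ed0709e40709e38709e30709e28709e20709e18709e10709e08709e00709d60709d58709d50709d48709d40709d38709d30709d28709c88709c80709c78709c70709c68709c60709bb0709ba87098187098107097507097487096807096787096707095b87095b07095a87094f07094e87094e07094d87094d07094287094207094187094107094087093607093587093507093487093407093387093307092987092907092887092807092787092707092687091b87091b07091a07091987091907090f07090e87090d87090d07090c8709018709010709008709000708ff8708ff0708f50708f48708f40708f38708f30708f28708f20708f18708e78708e70708e68708e60708e58708e50708da0708d987 = true := by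
  decide +kernel

structure Hwa (f : ℕ → ℕ → ℕ → ℕ → Prop) (k c n M X a0 b0 x0 y0 : ℕ) : Prop where
  H : PL f k c n M
  hM2 : M + 2 ≤ n
  hMn : n ≤ M + 4
  hX : X = 2 * M + 1
  ea : a0 + 2 = 6 * k
  eb : b0 + 9 = c
  ex : x0 + 10 = X
  ey : y0 + 2 * k + 20 = X + 8
  e0 : ∀ {L R x y : ℕ}, L = 6 * k + 3 → R + 2 = c → x = X + 3 → y + 2 * k = X + 3 → f L R x y
  p1 : ∀ {L R x y : ℕ}, L = 6 * k → R + 2 = c → x = X → y + 2 * k = X + 5 → f L R x y
  z3 : ∀ {L R x y : ℕ}, L = 6 * k → R + 4 = c → x + 4 = X → y + 2 * k = X + 1 → ¬ f L R x y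
  z2 : ∀ {L R x y : ℕ}, L = 6 * k + 2 → R + 2 = c → x = X → y + 2 * k = X + 5 → ¬ f L R x y
  zc : ∀ {L R x y : ℕ}, L = 6 * k → R + 2 = c → x + 2 = X → y + 2 * k = X + 3 → ¬ f L R x y
  g : ∀ {L R x y : ℕ}, L = 6 * k → R + 6 = c → x + 6 = X → y + 2 * k + 1 = X → ¬ f L R x y

theorem wa_o0 (hf : Rule f) {k c n M X a0 b0 x0 y0 p q : ℕ} (W : Hwa f k c n M X a0 b0 x0 y0)
    (hp1 : 1 ≤ p) (hp2 : p ≤ 16) (hq1 : 1 ≤ q) (hq2 : q ≤ 23)
    (h : 6 ≤ p ∧ q ≤ p + 17) (hpt : (((p + q) % 2 = 1 ∧ p + 3 ≤ q ∧ p % 2 = 0) ∨ ((p + q) % 2 = 1 ∧ q ≤ p + 3 ∧ (p + q + 1) % 4 = 0))) : f (a0 + 2) (b0 + 3) (x0 + p) (y0 + q) := by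
  have hk := W.H.T.hk; have hc := W.H.T.hc; have h4 := W.H.T.h4; have hb := W.H.T.hb; have hN := W.H.T.hN2
  have ea := W.ea; have eb := W.eb; have ex := W.ex; have ey := W.ey; have _ := hf
  have hM2 := W.hM2; have hMn := W.hMn; have hX := W.hX
  exact ((WrapC.v0 W.H.c0 (by clear hpt; omega) (by clear hpt; omega) (by clear hpt; omega) (by clear hpt; omega) (by clear hpt; omega) (by clear hpt; omega) (by clear hpt; omega)).mpr (hpt.imp (fun u => ⟨by omega, by omega, by omega⟩) (fun u => ⟨by omega, by omega, by omega⟩)))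

theorem wa_o1 (hf : Rule f) {k c n M X a0 b0 x0 y0 p q : ℕ} (W : Hwa f k c n M X a0 b0 x0 y0)
    (hp1 : 1 ≤ p) (hp2 : p ≤ 16) (hq1 : 1 ≤ q) (hq2 : q ≤ 23)
    (h : q ≤ p + 2 ∧ 10 ≤ p ∧ q ≤ p + 17) (hpt : (((p + q) % 2 = 1 ∧ p + 3 ≤ q ∧ p % 2 = 1) ∨ ((p + q) % 2 = 1 ∧ q ≤ p + 3 ∧ (p + q + 3) % 4 = 0))) : f (a0 + 2) (b0 + 5) (x0 + p) (y0 + q) := by
  have hk := W.H.T.hk; have hc := W.H.T.hc; have h4 := W.H.T.h4; have hb := W.H.T.hb; have hN := W.H.T.hN2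
  have ea := W.ea; have eb := W.eb; have ex := W.ex; have ey := W.ey; have _ := hf
  have hM2 := W.hM2; have hMn := W.hMn; have hX := W.hX
  exact ((WrapC.v2 W.H.c0 (by clear hpt; omega) (by clear hpt; omega) (by clear hpt; omega) (by clear hpt; omega) (by clear hpt; omega) (by clear hpt; omega) (by clear hpt; omega)).mpr (hpt.imp (fun u => ⟨by omega, by omega, by omega⟩) (fun u => ⟨by omega, by omega, by omega⟩)))

theorem wa_o2 (hf : Rule f) {k c n M X a0 b0 x0 y0 p q : ℕ} (W : Hwa f k c n M X a0 b0 x0 y0)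
    (hp1 : 1 ≤ p) (hp2 : p ≤ 16) (hq1 : 1 ≤ q) (hq2 : q ≤ 23)
    (h : q ≤ p + 2 ∧ 2 ≤ p ∧ q ≤ p + 17) (hpt : (((p + q) % 2 = 1 ∧ p + 3 ≤ q ∧ p % 2 = 1) ∨ ((p + q) % 2 = 1 ∧ q ≤ p + 3 ∧ (p + q + 3) % 4 = 0))) : f (a0 + 2) (b0 + 1) (x0 + p) (y0 + q) := by
  have hk := W.H.T.hk; have hc := W.H.T.hc; have h4 := W.H.T.h4; have hb := W.H.T.hb; have hN := W.H.T.hN2
  have ea := W.ea; have eb := W.eb; have ex := W.ex; have ey := W.ey; have _ := hf
  have hM2 := W.hM2; have hMn := W.hMn; have hX := W.hX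
  exact ((WrapC.v2 W.H.c0a (by clear hpt; omega) (by clear hpt; omega) (by clear hpt; omega) (by clear hpt; omega) (by clear hpt; omega) (by clear hpt; omega) (by clear hpt; omega)).mpr (hpt.imp (fun u => ⟨by omega, by omega, by omega⟩) (fun u => ⟨by omega, by omega, by omega⟩)))

theorem wa_o3 (hf : Rule f) {k c n M X a0 b0 x0 y0 p q : ℕ} (W : Hwa f k c n M X a0 b0 x0 y0)
    (hp1 : 1 ≤ p) (hp2 : p ≤ 16) (hq1 : 1 ≤ q) (hq2 : q ≤ 23)
    (h : ((14 ≤ p) ∨ (p + 2 ≤ q ∧ 13 ≤ p)) ∧ q ≤ p + 17) (hpt : ((p + q) % 2 = 0 ∧ q ≤ p + 2 ∧ (p + q + 2) % 4 = 0)) : f (a0 + 4) (b0 + 6) (x0 + p) (y0 + q) := by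
  have hk := W.H.T.hk; have hc := W.H.T.hc; have h4 := W.H.T.h4; have hb := W.H.T.hb; have hN := W.H.T.hN2
  have ea := W.ea; have eb := W.eb; have ex := W.ex; have ey := W.ey; have _ := hf
  have hM2 := W.hM2; have hMn := W.hMn; have hX := W.hX
  exact ((WrapC.v1 W.H.c2 (by clear hpt; omega) (by clear hpt; omega) (by clear hpt; omega) (by clear hpt; omega) (by clear hpt; omega) (by clear hpt; omega) (by clear hpt; omega) (by clear hpt; omega)).mpr (Or.inl ⟨by omega, by omega, by omega⟩))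

theorem wa_o4 (hf : Rule f) {k c n M X a0 b0 x0 y0 p q : ℕ} (W : Hwa f k c n M X a0 b0 x0 y0)
    (hp1 : 1 ≤ p) (hp2 : p ≤ 16) (hq1 : 1 ≤ q) (hq2 : q ≤ 23)
    (h : ((4 ≤ p) ∨ (p + 2 ≤ q ∧ 3 ≤ p)) ∧ q ≤ p + 17) (hpt : ((p + q) % 2 = 0 ∧ q ≤ p + 2 ∧ (p + q + 2) % 4 = 0)) : f (a0 + 4) (b0 + 2) (x0 + p) (y0 + q) := by
  have hk := W.H.T.hk; have hc := W.H.T.hc; have h4 := W.H.T.h4; have hb := W.H.T.hb; have hN := W.H.T.hN2
  have ea := W.ea; have eb := W.eb; have ex := W.ex; have ey := W.ey; have _ := hf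
  have hM2 := W.hM2; have hMn := W.hMn; have hX := W.hX
  exact ((WrapC.v1 W.H.c2a (by clear hpt; omega) (by clear hpt; omega) (by clear hpt; omega) (by clear hpt; omega) (by clear hpt; omega) (by clear hpt; omega) (by clear hpt; omega) (by clear hpt; omega)).mpr (Or.inl ⟨by omega, by omega, by omega⟩))

theorem wa_o5 (hf : Rule f) {k c n M X a0 b0 x0 y0 p q : ℕ} (W : Hwa f k c n M X a0 b0 x0 y0)
    (hp1 : 1 ≤ p) (hp2 : p ≤ 16) (hq1 : 1 ≤ q) (hq2 : q ≤ 23)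
    (h : q ≤ p + 2 ∧ 6 ≤ p ∧ q ≤ p + 17) (hpt : (((p + q) % 2 = 1 ∧ p + 3 ≤ q ∧ p % 2 = 1) ∨ ((p + q) % 2 = 1 ∧ q ≤ p + 3 ∧ (p + q + 3) % 4 = 0))) : f (a0 + 4) (b0 + 3) (x0 + p) (y0 + q) := by
  have hk := W.H.T.hk; have hc := W.H.T.hc; have h4 := W.H.T.h4; have hb := W.H.T.hb; have hN := W.H.T.hN2
  have ea := W.ea; have eb := W.eb; have ex := W.ex; have ey := W.ey; have _ := hf
  have hM2 := W.hM2; have hMn := W.hMn; have hX := W.hX
  exact ((WrapC.v2 W.H.c2a (by clear hpt; omega) (by clear hpt; omega) (by clear hpt; omega) (by clear hpt; omega) (by clear hpt; omega) (by clear hpt; omega) (by clear hpt; omega)).mpr (hpt.imp (fun u => ⟨by omega, by omega, by omega⟩) (fun u => ⟨by omega, by omega, by omega⟩)))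

theorem wa_o6 (hf : Rule f) {k c n M X a0 b0 x0 y0 p q : ℕ} (W : Hwa f k c n M X a0 b0 x0 y0)
    (hp1 : 1 ≤ p) (hp2 : p ≤ 16) (hq1 : 1 ≤ q) (hq2 : q ≤ 23)
    (h : ((8 ≤ p) ∨ (p + 2 ≤ q ∧ 7 ≤ p)) ∧ q ≤ p + 17) (hpt : ((p + q) % 2 = 0 ∧ q ≤ p + 2 ∧ (p + q + 2) % 4 = 0)) : f (a0 + 6) (b0 + 4) (x0 + p) (y0 + q) := by
  have hk := W.H.T.hk; have hc := W.H.T.hc; have h4 := W.H.T.h4; have hb := W.H.T.hb; have hN := W.H.T.hN2
  have ea := W.ea; have eb := W.eb; have ex := W.ex; have ey := W.ey; have _ := hf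
  have hM2 := W.hM2; have hMn := W.hMn; have hX := W.hX
  exact ((WrapC.v1 W.H.c4a (by clear hpt; omega) (by clear hpt; omega) (by clear hpt; omega) (by clear hpt; omega) (by clear hpt; omega) (by clear hpt; omega) (by clear hpt; omega) (by clear hpt; omega)).mpr (Or.inl ⟨by omega, by omega, by omega⟩))

theorem wa_o7 (hf : Rule f) {k c n M X a0 b0 x0 y0 p q : ℕ} (W : Hwa f k c n M X a0 b0 x0 y0)
    (hp1 : 1 ≤ p) (hp2 : p ≤ 16) (hq1 : 1 ≤ q) (hq2 : q ≤ 23)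
    (h : q ≤ p + 2 ∧ 10 ≤ p ∧ q ≤ p + 17) (hpt : (((p + q) % 2 = 1 ∧ p + 3 ≤ q ∧ p % 2 = 1) ∨ ((p + q) % 2 = 1 ∧ q ≤ p + 3 ∧ (p + q + 3) % 4 = 0))) : f (a0 + 6) (b0 + 5) (x0 + p) (y0 + q) := by
  have hk := W.H.T.hk; have hc := W.H.T.hc; have h4 := W.H.T.h4; have hb := W.H.T.hb; have hN := W.H.T.hN2
  have ea := W.ea; have eb := W.eb; have ex := W.ex; have ey := W.ey; have _ := hf
  have hM2 := W.hM2; have hMn := W.hMn; have hX := W.hX
  exact ((WrapC.v2 W.H.c4a (by clear hpt; omega) (by clear hpt; omega) (by clear hpt; omega) (by clear hpt; omega) (by clear hpt; omega) (by clear hpt; omega) (by clear hpt; omega)).mpr (hpt.imp (fun u => ⟨by omega, by omega, by omega⟩) (fun u => ⟨by omega, by omega, by omega⟩)))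

theorem wa_o8 (hf : Rule f) {k c n M X a0 b0 x0 y0 p q : ℕ} (W : Hwa f k c n M X a0 b0 x0 y0)
    (hp1 : 1 ≤ p) (hp2 : p ≤ 16) (hq1 : 1 ≤ q) (hq2 : q ≤ 23)
    (h : ((12 ≤ p) ∨ (p ≤ q + 0 ∧ 11 ≤ p)) ∧ q ≤ p + 17) (hpt : ((p + q) % 2 = 0 ∧ q ≤ p + 0 ∧ (p + q + 2) % 4 = 2)) : f (a0 + 8) (b0 + 6) (x0 + p) (y0 + q) := by
  have hk := W.H.T.hk; have hc := W.H.T.hc; have h4 := W.H.T.h4; have hb := W.H.T.hb; have hN := W.H.T.hN2
  have ea := W.ea; have eb := W.eb; have ex := W.ex; have ey := W.ey; have _ := hf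
  have hM2 := W.hM2; have hMn := W.hMn; have hX := W.hX
  exact ((WrapC.v1 W.H.c6 (by clear hpt; omega) (by clear hpt; omega) (by clear hpt; omega) (by clear hpt; omega) (by clear hpt; omega) (by clear hpt; omega) (by clear hpt; omega) (by clear hpt; omega)).mpr (Or.inl ⟨by omega, by omega, by omega⟩))

theorem wa_o9 (hf : Rule f) {k c n M X a0 b0 x0 y0 p q : ℕ} (W : Hwa f k c n M X a0 b0 x0 y0)
    (hp1 : 1 ≤ p) (hp2 : p ≤ 16) (hq1 : 1 ≤ q) (hq2 : q ≤ 23)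
    (h : ((14 ≤ p ∧ p + 3 ≤ q) ∨ (16 ≤ p)) ∧ q ≤ p + 17) (hpt : (((p + q) % 2 = 1 ∧ p + 1 ≤ q ∧ p % 2 = 0) ∨ ((p + q) % 2 = 1 ∧ q ≤ p + 1 ∧ (p + q + 1) % 4 = 2))) : f (a0 + 10) (b0 + 7) (x0 + p) (y0 + q) := by
  have hk := W.H.T.hk; have hc := W.H.T.hc; have h4 := W.H.T.h4; have hb := W.H.T.hb; have hN := W.H.T.hN2
  have ea := W.ea; have eb := W.eb; have ex := W.ex; have ey := W.ey; have _ := hf
  have hM2 := W.hM2; have hMn := W.hMn; have hX := W.hX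
  exact ((NW.w0v W.H.c8 (by clear hpt; omega) (by clear hpt; omega) (by clear hpt; omega) (by clear hpt; omega) (by clear hpt; omega) (by clear hpt; omega) (by clear hpt; omega)).mpr (hpt.imp (fun u => ⟨by omega, by omega, by omega⟩) (fun u => ⟨by omega, by omega, by omega⟩)))

theorem wa_z0 (hf : Rule f) {k c n M X a0 b0 x0 y0 p q : ℕ} (W : Hwa f k c n M X a0 b0 x0 y0)
    (hp1 : 1 ≤ p) (hp2 : p ≤ 16) (hq1 : 1 ≤ q) (hq2 : q ≤ 23)
    (h : 6 ≤ p ∧ q ≤ p + 17) (hpt : ¬ (((p + q) % 2 = 1 ∧ p + 3 ≤ q ∧ p % 2 = 0) ∨ ((p + q) % 2 = 1 ∧ q ≤ p + 3 ∧ (p + q + 1) % 4 = 0))) : ¬ f (a0 + 2) (b0 + 3) (x0 + p) (y0 + q) := by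
  have hk := W.H.T.hk; have hc := W.H.T.hc; have h4 := W.H.T.h4; have hb := W.H.T.hb; have hN := W.H.T.hN2
  have ea := W.ea; have eb := W.eb; have ex := W.ex; have ey := W.ey; have _ := hf
  have hM2 := W.hM2; have hMn := W.hMn; have hX := W.hX
  exact (fun hq => by
    exact hpt ((((WrapC.v0 W.H.c0 (by clear hpt; omega) (by clear hpt; omega) (by clear hpt; omega) (by clear hpt; omega) (by clear hpt; omega) (by clear hpt; omega) (by clear hpt; omega)).mp hq)).imp (fun ⟨u1, u2, u3⟩ => ⟨by omega, by omega, by omega⟩) (fun ⟨u1, u2, u3⟩ => ⟨by omega, by omega, by omega⟩)))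

theorem wa_z1 (hf : Rule f) {k c n M X a0 b0 x0 y0 p q : ℕ} (W : Hwa f k c n M X a0 b0 x0 y0)
    (hp1 : 1 ≤ p) (hp2 : p ≤ 16) (hq1 : 1 ≤ q) (hq2 : q ≤ 23)
    (h : q ≤ p + 2 ∧ 10 ≤ p ∧ q ≤ p + 17) (hpt : ¬ (((p + q) % 2 = 1 ∧ p + 3 ≤ q ∧ p % 2 = 1) ∨ ((p + q) % 2 = 1 ∧ q ≤ p + 3 ∧ (p + q + 3) % 4 = 0))) : ¬ f (a0 + 2) (b0 + 5) (x0 + p) (y0 + q) := by
  have hk := W.H.T.hk; have hc := W.H.T.hc; have h4 := W.H.T.h4; have hb := W.H.T.hb; have hN := W.H.T.hN2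
  have ea := W.ea; have eb := W.eb; have ex := W.ex; have ey := W.ey; have _ := hf
  have hM2 := W.hM2; have hMn := W.hMn; have hX := W.hX
  exact (fun hq => by
    exact hpt ((((WrapC.v2 W.H.c0 (by clear hpt; omega) (by clear hpt; omega) (by clear hpt; omega) (by clear hpt; omega) (by clear hpt; omega) (by clear hpt; omega) (by clear hpt; omega)).mp hq)).imp (fun ⟨u1, u2, u3⟩ => ⟨by omega, by omega, by omega⟩) (fun ⟨u1, u2, u3⟩ => ⟨by omega, by omega, by omega⟩)))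

theorem wa_z2 (hf : Rule f) {k c n M X a0 b0 x0 y0 p q : ℕ} (W : Hwa f k c n M X a0 b0 x0 y0)
    (hp1 : 1 ≤ p) (hp2 : p ≤ 16) (hq1 : 1 ≤ q) (hq2 : q ≤ 23)
    (h : q ≤ p + 2 ∧ 2 ≤ p ∧ q ≤ p + 17) (hpt : ¬ (((p + q) % 2 = 1 ∧ p + 3 ≤ q ∧ p % 2 = 1) ∨ ((p + q) % 2 = 1 ∧ q ≤ p + 3 ∧ (p + q + 3) % 4 = 0))) : ¬ f (a0 + 2) (b0 + 1) (x0 + p) (y0 + q) := by
  have hk := W.H.T.hk; have hc := W.H.T.hc; have h4 := W.H.T.h4; have hb := W.H.T.hb; have hN := W.H.T.hN2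
  have ea := W.ea; have eb := W.eb; have ex := W.ex; have ey := W.ey; have _ := hf
  have hM2 := W.hM2; have hMn := W.hMn; have hX := W.hX
  exact (fun hq => by
    exact hpt ((((WrapC.v2 W.H.c0a (by clear hpt; omega) (by clear hpt; omega) (by clear hpt; omega) (by clear hpt; omega) (by clear hpt; omega) (by clear hpt; omega) (by clear hpt; omega)).mp hq)).imp (fun ⟨u1, u2, u3⟩ => ⟨by omega, by omega, by omega⟩) (fun ⟨u1, u2, u3⟩ => ⟨by omega, by omega, by omega⟩)))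

theorem wa_z3 (hf : Rule f) {k c n M X a0 b0 x0 y0 p q : ℕ} (W : Hwa f k c n M X a0 b0 x0 y0)
    (hp1 : 1 ≤ p) (hp2 : p ≤ 16) (hq1 : 1 ≤ q) (hq2 : q ≤ 23)
    (h : ((14 ≤ p) ∨ (p + 2 ≤ q ∧ 13 ≤ p)) ∧ q ≤ p + 17) (hpt : ¬ ((p + q) % 2 = 0 ∧ q ≤ p + 2 ∧ (p + q + 2) % 4 = 0)) : ¬ f (a0 + 4) (b0 + 6) (x0 + p) (y0 + q) := by
  have hk := W.H.T.hk; have hc := W.H.T.hc; have h4 := W.H.T.h4; have hb := W.H.T.hb; have hN := W.H.T.hN2
  have ea := W.ea; have eb := W.eb; have ex := W.ex; have ey := W.ey; have _ := hf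
  have hM2 := W.hM2; have hMn := W.hMn; have hX := W.hX
  exact (fun hq => by
    rcases (WrapC.v1 W.H.c2 (by clear hpt; omega) (by clear hpt; omega) (by clear hpt; omega) (by clear hpt; omega) (by clear hpt; omega) (by clear hpt; omega) (by clear hpt; omega) (by clear hpt; omega)).mp hq with ⟨u1, u2, u3⟩ | ⟨u1, u2⟩
    · exact hpt ⟨by omega, by omega, by omega⟩
    · omega)

theorem wa_z4 (hf : Rule f) {k c n M X a0 b0 x0 y0 p q : ℕ} (W : Hwa f k c n M X a0 b0 x0 y0)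
    (hp1 : 1 ≤ p) (hp2 : p ≤ 16) (hq1 : 1 ≤ q) (hq2 : q ≤ 23)
    (h : ((4 ≤ p) ∨ (p + 2 ≤ q ∧ 3 ≤ p)) ∧ q ≤ p + 17) (hpt : ¬ ((p + q) % 2 = 0 ∧ q ≤ p + 2 ∧ (p + q + 2) % 4 = 0)) : ¬ f (a0 + 4) (b0 + 2) (x0 + p) (y0 + q) := by
  have hk := W.H.T.hk; have hc := W.H.T.hc; have h4 := W.H.T.h4; have hb := W.H.T.hb; have hN := W.H.T.hN2
  have ea := W.ea; have eb := W.eb; have ex := W.ex; have ey := W.ey; have _ := hf
  have hM2 := W.hM2; have hMn := W.hMn; have hX := W.hX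
  exact (fun hq => by
    rcases (WrapC.v1 W.H.c2a (by clear hpt; omega) (by clear hpt; omega) (by clear hpt; omega) (by clear hpt; omega) (by clear hpt; omega) (by clear hpt; omega) (by clear hpt; omega) (by clear hpt; omega)).mp hq with ⟨u1, u2, u3⟩ | ⟨u1, u2⟩
    · exact hpt ⟨by omega, by omega, by omega⟩
    · omega)

theorem wa_z5 (hf : Rule f) {k c n M X a0 b0 x0 y0 p q : ℕ} (W : Hwa f k c n M X a0 b0 x0 y0)
    (hp1 : 1 ≤ p) (hp2 : p ≤ 16) (hq1 : 1 ≤ q) (hq2 : q ≤ 23)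
    (h : q ≤ p + 2 ∧ 6 ≤ p ∧ q ≤ p + 17) (hpt : ¬ (((p + q) % 2 = 1 ∧ p + 3 ≤ q ∧ p % 2 = 1) ∨ ((p + q) % 2 = 1 ∧ q ≤ p + 3 ∧ (p + q + 3) % 4 = 0))) : ¬ f (a0 + 4) (b0 + 3) (x0 + p) (y0 + q) := by
  have hk := W.H.T.hk; have hc := W.H.T.hc; have h4 := W.H.T.h4; have hb := W.H.T.hb; have hN := W.H.T.hN2
  have ea := W.ea; have eb := W.eb; have ex := W.ex; have ey := W.ey; have _ := hf
  have hM2 := W.hM2; have hMn := W.hMn; have hX := W.hX
  exact (fun hq => by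
    exact hpt ((((WrapC.v2 W.H.c2a (by clear hpt; omega) (by clear hpt; omega) (by clear hpt; omega) (by clear hpt; omega) (by clear hpt; omega) (by clear hpt; omega) (by clear hpt; omega)).mp hq)).imp (fun ⟨u1, u2, u3⟩ => ⟨by omega, by omega, by omega⟩) (fun ⟨u1, u2, u3⟩ => ⟨by omega, by omega, by omega⟩)))

theorem wa_z6 (hf : Rule f) {k c n M X a0 b0 x0 y0 p q : ℕ} (W : Hwa f k c n M X a0 b0 x0 y0)
    (hp1 : 1 ≤ p) (hp2 : p ≤ 16) (hq1 : 1 ≤ q) (hq2 : q ≤ 23)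
    (h : ((8 ≤ p) ∨ (p + 2 ≤ q ∧ 7 ≤ p)) ∧ q ≤ p + 17) (hpt : ¬ ((p + q) % 2 = 0 ∧ q ≤ p + 2 ∧ (p + q + 2) % 4 = 0)) : ¬ f (a0 + 6) (b0 + 4) (x0 + p) (y0 + q) := by
  have hk := W.H.T.hk; have hc := W.H.T.hc; have h4 := W.H.T.h4; have hb := W.H.T.hb; have hN := W.H.T.hN2
  have ea := W.ea; have eb := W.eb; have ex := W.ex; have ey := W.ey; have _ := hf
  have hM2 := W.hM2; have hMn := W.hMn; have hX := W.hX
  exact (fun hq => by
    rcases (WrapC.v1 W.H.c4a (by clear hpt; omega) (by clear hpt; omega) (by clear hpt; omega) (by clear hpt; omega) (by clear hpt; omega) (by clear hpt; omega) (by clear hpt; omega) (by clear hpt; omega)).mp hq with ⟨u1, u2, u3⟩ | ⟨u1, u2⟩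
    · exact hpt ⟨by omega, by omega, by omega⟩
    · omega)

theorem wa_z7 (hf : Rule f) {k c n M X a0 b0 x0 y0 p q : ℕ} (W : Hwa f k c n M X a0 b0 x0 y0)
    (hp1 : 1 ≤ p) (hp2 : p ≤ 16) (hq1 : 1 ≤ q) (hq2 : q ≤ 23)
    (h : q ≤ p + 2 ∧ 10 ≤ p ∧ q ≤ p + 17) (hpt : ¬ (((p + q) % 2 = 1 ∧ p + 3 ≤ q ∧ p % 2 = 1) ∨ ((p + q) % 2 = 1 ∧ q ≤ p + 3 ∧ (p + q + 3) % 4 = 0))) : ¬ f (a0 + 6) (b0 + 5) (x0 + p) (y0 + q) := by
  have hk := W.H.T.hk; have hc := W.H.T.hc; have h4 := W.H.T.h4; have hb := W.H.T.hb; have hN := W.H.T.hN2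
  have ea := W.ea; have eb := W.eb; have ex := W.ex; have ey := W.ey; have _ := hf
  have hM2 := W.hM2; have hMn := W.hMn; have hX := W.hX
  exact (fun hq => by
    exact hpt ((((WrapC.v2 W.H.c4a (by clear hpt; omega) (by clear hpt; omega) (by clear hpt; omega) (by clear hpt; omega) (by clear hpt; omega) (by clear hpt; omega) (by clear hpt; omega)).mp hq)).imp (fun ⟨u1, u2, u3⟩ => ⟨by omega, by omega, by omega⟩) (fun ⟨u1, u2, u3⟩ => ⟨by omega, by omega, by omega⟩)))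

theorem wa_z8 (hf : Rule f) {k c n M X a0 b0 x0 y0 p q : ℕ} (W : Hwa f k c n M X a0 b0 x0 y0)
    (hp1 : 1 ≤ p) (hp2 : p ≤ 16) (hq1 : 1 ≤ q) (hq2 : q ≤ 23)
    (h : ((12 ≤ p) ∨ (p ≤ q + 0 ∧ 11 ≤ p)) ∧ q ≤ p + 17) (hpt : ¬ ((p + q) % 2 = 0 ∧ q ≤ p + 0 ∧ (p + q + 2) % 4 = 2)) : ¬ f (a0 + 8) (b0 + 6) (x0 + p) (y0 + q) := by
  have hk := W.H.T.hk; have hc := W.H.T.hc; have h4 := W.H.T.h4; have hb := W.H.T.hb; have hN := W.H.T.hN2
  have ea := W.ea; have eb := W.eb; have ex := W.ex; have ey := W.ey; have _ := hf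
  have hM2 := W.hM2; have hMn := W.hMn; have hX := W.hX
  exact (fun hq => by
    rcases (WrapC.v1 W.H.c6 (by clear hpt; omega) (by clear hpt; omega) (by clear hpt; omega) (by clear hpt; omega) (by clear hpt; omega) (by clear hpt; omega) (by clear hpt; omega) (by clear hpt; omega)).mp hq with ⟨u1, u2, u3⟩ | ⟨u1, u2⟩
    · exact hpt ⟨by omega, by omega, by omega⟩
    · omega)

theorem wa_z9 (hf : Rule f) {k c n M X a0 b0 x0 y0 p q : ℕ} (W : Hwa f k c n M X a0 b0 x0 y0)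
    (hp1 : 1 ≤ p) (hp2 : p ≤ 16) (hq1 : 1 ≤ q) (hq2 : q ≤ 23)
    (h : ((14 ≤ p ∧ p + 3 ≤ q) ∨ (16 ≤ p)) ∧ q ≤ p + 17) (hpt : ¬ (((p + q) % 2 = 1 ∧ p + 1 ≤ q ∧ p % 2 = 0) ∨ ((p + q) % 2 = 1 ∧ q ≤ p + 1 ∧ (p + q + 1) % 4 = 2))) : ¬ f (a0 + 10) (b0 + 7) (x0 + p) (y0 + q) := by
  have hk := W.H.T.hk; have hc := W.H.T.hc; have h4 := W.H.T.h4; have hb := W.H.T.hb; have hN := W.H.T.hN2
  have ea := W.ea; have eb := W.eb; have ex := W.ex; have ey := W.ey; have _ := hf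
  have hM2 := W.hM2; have hMn := W.hMn; have hX := W.hX
  exact (fun hq => by
    exact hpt ((((NW.w0v W.H.c8 (by clear hpt; omega) (by clear hpt; omega) (by clear hpt; omega) (by clear hpt; omega) (by clear hpt; omega) (by clear hpt; omega) (by clear hpt; omega)).mp hq)).imp (fun ⟨u1, u2, u3⟩ => ⟨by omega, by omega, by omega⟩) (fun ⟨u1, u2, u3⟩ => ⟨by omega, by omega, by omega⟩)))

theorem wa_z10 (hf : Rule f) {k c n M X a0 b0 x0 y0 m p q : ℕ} (W : Hwa f k c n M X a0 b0 x0 y0)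
    (hm1 : 1 ≤ m) (hm2 : m ≤ 7) (hp1 : 1 ≤ p) (hp2 : p ≤ 16) (hq1 : 1 ≤ q) (hq2 : q ≤ 23)
    (h : q ≤ p + 17 ∧ p ≤ q + 14) : ¬ f (a0 + 1) (b0 + m) (x0 + p) (y0 + q) := by
  have hk := W.H.T.hk; have hc := W.H.T.hc; have h4 := W.H.T.h4; have hb := W.H.T.hb; have hN := W.H.T.hN2
  have ea := W.ea; have eb := W.eb; have ex := W.ex; have ey := W.ey; have _ := hf
  have hM2 := W.hM2; have hMn := W.hMn; have hX := W.hX
  exact W.H.lw _ _ _ _ (by omega) (by omega) (by omega) (by omega) (by omega) (by omega)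

theorem wa_z11 (hf : Rule f) {k c n M X a0 b0 x0 y0 p q : ℕ} (W : Hwa f k c n M X a0 b0 x0 y0)
    (hp1 : 1 ≤ p) (hp2 : p ≤ 16) (hq1 : 1 ≤ q) (hq2 : q ≤ 23)
    (h : 2 ≤ p ∧ p + 5 ≤ q ∧ q ≤ p + 16) : ¬ f (a0 + 2) (b0 + 2) (x0 + p) (y0 + q) := by
  have hk := W.H.T.hk; have hc := W.H.T.hc; have h4 := W.H.T.h4; have hb := W.H.T.hb; have hN := W.H.T.hN2
  have ea := W.ea; have eb := W.eb; have ex := W.ex; have ey := W.ey; have _ := hf
  have hM2 := W.hM2; have hMn := W.hMn; have hX := W.hX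
  exact NHT.rIn hf W.H.T (t := 1) (p := 0) (j := 1) (by omega) (by omega) (by omega) (by omega) (by omega) (by omega) (by omega) (by omega)

theorem wa_z12 (hf : Rule f) {k c n M X a0 b0 x0 y0 p q : ℕ} (W : Hwa f k c n M X a0 b0 x0 y0)
    (hp1 : 1 ≤ p) (hp2 : p ≤ 16) (hq1 : 1 ≤ q) (hq2 : q ≤ 23)
    (h : 6 ≤ p ∧ p + 5 ≤ q ∧ q ≤ p + 16) : ¬ f (a0 + 4) (b0 + 4) (x0 + p) (y0 + q) := by
  have hk := W.H.T.hk; have hc := W.H.T.hc; have h4 := W.H.T.h4; have hb := W.H.T.hb; have hN := W.H.T.hN2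
  have ea := W.ea; have eb := W.eb; have ex := W.ex; have ey := W.ey; have _ := hf
  have hM2 := W.hM2; have hMn := W.hMn; have hX := W.hX
  exact NHT.rIn hf W.H.T (t := 2) (p := 0) (j := 1) (by omega) (by omega) (by omega) (by omega) (by omega) (by omega) (by omega) (by omega)

theorem wa_z13 (hf : Rule f) {k c n M X a0 b0 x0 y0 p q : ℕ} (W : Hwa f k c n M X a0 b0 x0 y0)
    (hp1 : 1 ≤ p) (hp2 : p ≤ 16) (hq1 : 1 ≤ q) (hq2 : q ≤ 23)
    (h : 9 ≤ p ∧ p + 5 ≤ q ∧ q ≤ p + 16) : ¬ f (a0 + 5) (b0 + 5) (x0 + p) (y0 + q) := by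
  have hk := W.H.T.hk; have hc := W.H.T.hc; have h4 := W.H.T.h4; have hb := W.H.T.hb; have hN := W.H.T.hN2
  have ea := W.ea; have eb := W.eb; have ex := W.ex; have ey := W.ey; have _ := hf
  have hM2 := W.hM2; have hMn := W.hMn; have hX := W.hX
  exact NHT.pIn hf W.H.T (t := 3) (j := 1) (by omega) (by omega) (by omega) (by omega) (by omega) (by omega) (by omega)

theorem wa_z14 (hf : Rule f) {k c n M X a0 b0 x0 y0 p q : ℕ} (W : Hwa f k c n M X a0 b0 x0 y0)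
    (hp1 : 1 ≤ p) (hp2 : p ≤ 16) (hq1 : 1 ≤ q) (hq2 : q ≤ 23)
    (h : 9 ≤ p ∧ p + 2 ≤ q ∧ q ≤ p + 17) : ¬ f (a0 + 7) (b0 + 5) (x0 + p) (y0 + q) := by
  have hk := W.H.T.hk; have hc := W.H.T.hc; have h4 := W.H.T.h4; have hb := W.H.T.hb; have hN := W.H.T.hN2
  have ea := W.ea; have eb := W.eb; have ex := W.ex; have ey := W.ey; have _ := hf
  have hM2 := W.hM2; have hMn := W.hMn; have hX := W.hX
  exact uP0 hf W.H.U (j := 0) (by omega) (by omega) (by omega) (by omega) (by omega) (by omega)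

theorem wa_z15 (hf : Rule f) {k c n M X a0 b0 x0 y0 p q : ℕ} (W : Hwa f k c n M X a0 b0 x0 y0)
    (hp1 : 1 ≤ p) (hp2 : p ≤ 16) (hq1 : 1 ≤ q) (hq2 : q ≤ 23)
    (h : 10 ≤ p ∧ p + 7 ≤ q ∧ q ≤ p + 14) : ¬ f (a0 + 3) (b0 + 6) (x0 + p) (y0 + q) := by
  have hk := W.H.T.hk; have hc := W.H.T.hc; have h4 := W.H.T.h4; have hb := W.H.T.hb; have hN := W.H.T.hN2
  have ea := W.ea; have eb := W.eb; have ex := W.ex; have ey := W.ey; have _ := hf
  have hM2 := W.hM2; have hMn := W.hMn; have hX := W.hX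
  exact NHT.rIn hf W.H.T (t := 3) (p := 1) (j := 3) (by omega) (by omega) (by omega) (by omega) (by omega) (by omega) (by omega) (by omega)

theorem wa_z16 (hf : Rule f) {k c n M X a0 b0 x0 y0 p q : ℕ} (W : Hwa f k c n M X a0 b0 x0 y0)
    (hp1 : 1 ≤ p) (hp2 : p ≤ 16) (hq1 : 1 ≤ q) (hq2 : q ≤ 23)
    (h : 10 ≤ p ∧ p + 6 ≤ q ∧ q ≤ p + 15) : ¬ f (a0 + 4) (b0 + 6) (x0 + p) (y0 + q) := by
  have hk := W.H.T.hk; have hc := W.H.T.hc; have h4 := W.H.T.h4; have hb := W.H.T.hb; have hN := W.H.T.hN2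
  have ea := W.ea; have eb := W.eb; have ex := W.ex; have ey := W.ey; have _ := hf
  have hM2 := W.hM2; have hMn := W.hMn; have hX := W.hX
  exact NHT.rIn hf W.H.T (t := 3) (p := 0) (j := 2) (by omega) (by omega) (by omega) (by omega) (by omega) (by omega) (by omega) (by omega)

theorem wa_z17 (hf : Rule f) {k c n M X a0 b0 x0 y0 p q : ℕ} (W : Hwa f k c n M X a0 b0 x0 y0)
    (hp1 : 1 ≤ p) (hp2 : p ≤ 16) (hq1 : 1 ≤ q) (hq2 : q ≤ 23)
    (h : 10 ≤ p ∧ p + 5 ≤ q ∧ q ≤ p + 16) : ¬ f (a0 + 6) (b0 + 6) (x0 + p) (y0 + q) := by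
  have hk := W.H.T.hk; have hc := W.H.T.hc; have h4 := W.H.T.h4; have hb := W.H.T.hb; have hN := W.H.T.hN2
  have ea := W.ea; have eb := W.eb; have ex := W.ex; have ey := W.ey; have _ := hf
  have hM2 := W.hM2; have hMn := W.hMn; have hX := W.hX
  exact NHT.rIn hf W.H.T (t := 3) (p := 0) (j := 1) (by omega) (by omega) (by omega) (by omega) (by omega) (by omega) (by omega) (by omega)

theorem wa_z18 (hf : Rule f) {k c n M X a0 b0 x0 y0 p q : ℕ} (W : Hwa f k c n M X a0 b0 x0 y0)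
    (hp1 : 1 ≤ p) (hp2 : p ≤ 16) (hq1 : 1 ≤ q) (hq2 : q ≤ 23)
    (h : 10 ≤ p ∧ p + 5 ≤ q ∧ q ≤ p + 16) : ¬ f (a0 + 7) (b0 + 6) (x0 + p) (y0 + q) := by
  have hk := W.H.T.hk; have hc := W.H.T.hc; have h4 := W.H.T.h4; have hb := W.H.T.hb; have hN := W.H.T.hN2
  have ea := W.ea; have eb := W.eb; have ex := W.ex; have ey := W.ey; have _ := hf
  have hM2 := W.hM2; have hMn := W.hMn; have hX := W.hX
  exact NHT.rIn hf W.H.T (t := 3) (p := 1) (j := 1) (by omega) (by omega) (by omega) (by omega) (by omega) (by omega) (by omega) (by omega)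

theorem wa_z19 (hf : Rule f) {k c n M X a0 b0 x0 y0 p q : ℕ} (W : Hwa f k c n M X a0 b0 x0 y0)
    (hp1 : 1 ≤ p) (hp2 : p ≤ 16) (hq1 : 1 ≤ q) (hq2 : q ≤ 23)
    (h : 15 ≤ p ∧ p + 3 ≤ q ∧ q ≤ p + 16) : ¬ f (a0 + 7) (b0 + 6) (x0 + p) (y0 + q) := by
  have hk := W.H.T.hk; have hc := W.H.T.hc; have h4 := W.H.T.h4; have hb := W.H.T.hb; have hN := W.H.T.hN2
  have ea := W.ea; have eb := W.eb; have ex := W.ex; have ey := W.ey; have _ := hf
  have hM2 := W.hM2; have hMn := W.hMn; have hX := W.hX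
  exact uP1 hf W.H.U (j := 1) (by omega) (by omega) (by omega) (by omega) (by omega) (by omega)

theorem wa_z20 (hf : Rule f) {k c n M X a0 b0 x0 y0 p q : ℕ} (W : Hwa f k c n M X a0 b0 x0 y0)
    (hp1 : 1 ≤ p) (hp2 : p ≤ 16) (hq1 : 1 ≤ q) (hq2 : q ≤ 23)
    (h : 10 ≤ p ∧ p + 2 ≤ q ∧ q ≤ p + 17) : ¬ f (a0 + 9) (b0 + 6) (x0 + p) (y0 + q) := by
  have hk := W.H.T.hk; have hc := W.H.T.hc; have h4 := W.H.T.h4; have hb := W.H.T.hb; have hN := W.H.T.hN2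
  have ea := W.ea; have eb := W.eb; have ex := W.ex; have ey := W.ey; have _ := hf
  have hM2 := W.hM2; have hMn := W.hMn; have hX := W.hX
  exact uA0 hf W.H.U (p := 1) (j := 0) (by omega) (by omega) (by omega) (by omega) (by omega) (by omega) (by omega)

theorem wa_z21 (hf : Rule f) {k c n M X a0 b0 x0 y0 p q : ℕ} (W : Hwa f k c n M X a0 b0 x0 y0)
    (hp1 : 1 ≤ p) (hp2 : p ≤ 16) (hq1 : 1 ≤ q) (hq2 : q ≤ 23)
    (h : 13 ≤ p ∧ p + 5 ≤ q ∧ q ≤ p + 16) : ¬ f (a0 + 7) (b0 + 7) (x0 + p) (y0 + q) := by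
  have hk := W.H.T.hk; have hc := W.H.T.hc; have h4 := W.H.T.h4; have hb := W.H.T.hb; have hN := W.H.T.hN2
  have ea := W.ea; have eb := W.eb; have ex := W.ex; have ey := W.ey; have _ := hf
  have hM2 := W.hM2; have hMn := W.hMn; have hX := W.hX
  exact NHT.pIn hf W.H.T (t := 4) (j := 1) (by omega) (by omega) (by omega) (by omega) (by omega) (by omega) (by omega)

theorem wa_z22 (hf : Rule f) {k c n M X a0 b0 x0 y0 p q : ℕ} (W : Hwa f k c n M X a0 b0 x0 y0)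
    (hp1 : 1 ≤ p) (hp2 : p ≤ 16) (hq1 : 1 ≤ q) (hq2 : q ≤ 23)
    (h : 15 ≤ p ∧ p + 3 ≤ q ∧ q ≤ p + 16) : ¬ f (a0 + 7) (b0 + 7) (x0 + p) (y0 + q) := by
  have hk := W.H.T.hk; have hc := W.H.T.hc; have h4 := W.H.T.h4; have hb := W.H.T.hb; have hN := W.H.T.hN2
  have ea := W.ea; have eb := W.eb; have ex := W.ex; have ey := W.ey; have _ := hf
  have hM2 := W.hM2; have hMn := W.hMn; have hX := W.hX
  exact uP1 hf W.H.U (j := 1) (by omega) (by omega) (by omega) (by omega) (by omega) (by omega)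

theorem wa (hf : Rule f) {k c n M X a0 b0 x0 y0 : ℕ} (W : Hwa f k c n M X a0 b0 x0 y0) : False := by
  have hk := W.H.T.hk; have hc := W.H.T.hc; have h4 := W.H.T.h4; have hb := W.H.T.hb; have hN := W.H.T.hN2
  have ea := W.ea; have eb := W.eb; have ex := W.ex; have ey := W.ey; have _ := hf
  have hM2 := W.hM2; have hMn := W.hMn; have hX := W.hX
  refine check_sound hf (a0 := a0) (b0 := b0) (x0 := x0) (y0 := y0) wa_chk
    ⟨fun h => absurd h (by decide), fun h => absurd h (by decide), fun h => absurd h (by decide), by omega, by omega,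
      by omega, by omega⟩ ?_ ?_
  · intro j m p q hr h
    obtain ⟨-, -, hm1, hm2, hp1, hp2, hq1, hq2⟩ := hr
    replace h := of_decide_eq_true h
    rcases h with h | h | h | h | h | h | h | h | h | h | h | h
    · obtain ⟨rfl, rfl, g0, g1, hpt⟩ := h
      exact wa_o0 hf W (by omega) (by omega) (by omega) (by omega) ⟨g0, g1⟩ hpt
    · obtain ⟨rfl, rfl, g0, g1, g2, hpt⟩ := h
      exact wa_o1 hf W (by omega) (by omega) (by omega) (by omega) ⟨g0, g1, g2⟩ hpt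
    · obtain ⟨rfl, rfl, g0, g1, g2, hpt⟩ := h
      exact wa_o2 hf W (by omega) (by omega) (by omega) (by omega) ⟨g0, g1, g2⟩ hpt
    · obtain ⟨rfl, rfl, g0, g1, hpt⟩ := h
      exact wa_o3 hf W (by omega) (by omega) (by omega) (by omega) ⟨g0, g1⟩ hpt
    · obtain ⟨rfl, rfl, g0, g1, hpt⟩ := h
      exact wa_o4 hf W (by omega) (by omega) (by omega) (by omega) ⟨g0, g1⟩ hpt
    · obtain ⟨rfl, rfl, g0, g1, g2, hpt⟩ := h
      exact wa_o5 hf W (by omega) (by omega) (by omega) (by omega) ⟨g0, g1, g2⟩ hpt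
    · obtain ⟨rfl, rfl, g0, g1, hpt⟩ := h
      exact wa_o6 hf W (by omega) (by omega) (by omega) (by omega) ⟨g0, g1⟩ hpt
    · obtain ⟨rfl, rfl, g0, g1, g2, hpt⟩ := h
      exact wa_o7 hf W (by omega) (by omega) (by omega) (by omega) ⟨g0, g1, g2⟩ hpt
    · obtain ⟨rfl, rfl, g0, g1, hpt⟩ := h
      exact wa_o8 hf W (by omega) (by omega) (by omega) (by omega) ⟨g0, g1⟩ hpt
    · obtain ⟨rfl, rfl, g0, g1, hpt⟩ := h
      exact wa_o9 hf W (by omega) (by omega) (by omega) (by omega) ⟨g0, g1⟩ hpt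
    · obtain ⟨rfl, rfl, rfl, rfl⟩ := h
      exact W.e0 (by omega) (by omega) (by omega) (by omega)
    · obtain ⟨rfl, rfl, rfl, rfl⟩ := h
      exact W.p1 (by omega) (by omega) (by omega) (by omega)
  · intro j m p q hr h
    obtain ⟨-, -, hm1, hm2, hp1, hp2, hq1, hq2⟩ := hr
    replace h := of_decide_eq_true h
    rcases h with h | h | h | h | h | h | h | h | h | h | h | h | h | h | h | h | h | h | h | h | h | h | h | h | h | h | h
    · obtain ⟨rfl, rfl, g0, g1, hpt⟩ := h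
      exact wa_z0 hf W (by omega) (by omega) (by omega) (by omega) ⟨g0, g1⟩ hpt
    · obtain ⟨rfl, rfl, g0, g1, g2, hpt⟩ := h
      exact wa_z1 hf W (by omega) (by omega) (by omega) (by omega) ⟨g0, g1, g2⟩ hpt
    · obtain ⟨rfl, rfl, g0, g1, g2, hpt⟩ := h
      exact wa_z2 hf W (by omega) (by omega) (by omega) (by omega) ⟨g0, g1, g2⟩ hpt
    · obtain ⟨rfl, rfl, g0, g1, hpt⟩ := h
      exact wa_z3 hf W (by omega) (by omega) (by omega) (by omega) ⟨g0, g1⟩ hpt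
    · obtain ⟨rfl, rfl, g0, g1, hpt⟩ := h
      exact wa_z4 hf W (by omega) (by omega) (by omega) (by omega) ⟨g0, g1⟩ hpt
    · obtain ⟨rfl, rfl, g0, g1, g2, hpt⟩ := h
      exact wa_z5 hf W (by omega) (by omega) (by omega) (by omega) ⟨g0, g1, g2⟩ hpt
    · obtain ⟨rfl, rfl, g0, g1, hpt⟩ := h
      exact wa_z6 hf W (by omega) (by omega) (by omega) (by omega) ⟨g0, g1⟩ hpt
    · obtain ⟨rfl, rfl, g0, g1, g2, hpt⟩ := h
      exact wa_z7 hf W (by omega) (by omega) (by omega) (by omega) ⟨g0, g1, g2⟩ hpt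
    · obtain ⟨rfl, rfl, g0, g1, hpt⟩ := h
      exact wa_z8 hf W (by omega) (by omega) (by omega) (by omega) ⟨g0, g1⟩ hpt
    · obtain ⟨rfl, rfl, g0, g1, hpt⟩ := h
      exact wa_z9 hf W (by omega) (by omega) (by omega) (by omega) ⟨g0, g1⟩ hpt
    · obtain ⟨rfl, g0, g1⟩ := h
      exact wa_z10 hf W (by omega) (by omega) (by omega) (by omega) (by omega) (by omega) ⟨g0, g1⟩
    · obtain ⟨rfl, rfl, g0, g1, g2⟩ := h
      exact wa_z11 hf W (by omega) (by omega) (by omega) (by omega) ⟨g0, g1, g2⟩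
    · obtain ⟨rfl, rfl, g0, g1, g2⟩ := h
      exact wa_z12 hf W (by omega) (by omega) (by omega) (by omega) ⟨g0, g1, g2⟩
    · obtain ⟨rfl, rfl, g0, g1, g2⟩ := h
      exact wa_z13 hf W (by omega) (by omega) (by omega) (by omega) ⟨g0, g1, g2⟩
    · obtain ⟨rfl, rfl, g0, g1, g2⟩ := h
      exact wa_z14 hf W (by omega) (by omega) (by omega) (by omega) ⟨g0, g1, g2⟩
    · obtain ⟨rfl, rfl, g0, g1, g2⟩ := h
      exact wa_z15 hf W (by omega) (by omega) (by omega) (by omega) ⟨g0, g1, g2⟩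
    · obtain ⟨rfl, rfl, g0, g1, g2⟩ := h
      exact wa_z16 hf W (by omega) (by omega) (by omega) (by omega) ⟨g0, g1, g2⟩
    · obtain ⟨rfl, rfl, g0, g1, g2⟩ := h
      exact wa_z17 hf W (by omega) (by omega) (by omega) (by omega) ⟨g0, g1, g2⟩
    · obtain ⟨rfl, rfl, g0, g1, g2⟩ := h
      exact wa_z18 hf W (by omega) (by omega) (by omega) (by omega) ⟨g0, g1, g2⟩
    · obtain ⟨rfl, rfl, g0, g1, g2⟩ := h
      exact wa_z19 hf W (by omega) (by omega) (by omega) (by omega) ⟨g0, g1, g2⟩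
    · obtain ⟨rfl, rfl, g0, g1, g2⟩ := h
      exact wa_z20 hf W (by omega) (by omega) (by omega) (by omega) ⟨g0, g1, g2⟩
    · obtain ⟨rfl, rfl, g0, g1, g2⟩ := h
      exact wa_z21 hf W (by omega) (by omega) (by omega) (by omega) ⟨g0, g1, g2⟩
    · obtain ⟨rfl, rfl, g0, g1, g2⟩ := h
      exact wa_z22 hf W (by omega) (by omega) (by omega) (by omega) ⟨g0, g1, g2⟩
    · obtain ⟨rfl, rfl, rfl, rfl⟩ := h
      exact W.z3 (by omega) (by omega) (by omega) (by omega)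
    · obtain ⟨rfl, rfl, rfl, rfl⟩ := h
      exact W.z2 (by omega) (by omega) (by omega) (by omega)
    · obtain ⟨rfl, rfl, rfl, rfl⟩ := h
      exact W.zc (by omega) (by omega) (by omega) (by omega)
    · obtain ⟨rfl, rfl, rfl, rfl⟩ := h
      exact W.g (by omega) (by omega) (by omega) (by omega)

/-- **The window `Wa`** (helper51's chain for `(2 M + 6, 2 M + 4)`). -/
theorem Wa (hf : Rule f) {k c n M : ℕ} (H : PL f k c n M) (hM2 : M + 2 ≤ n)
    (E0 : f (6 * k + 3) (c - 2) (2 * M + 4) (2 * M + 4 - 2 * k))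
    (z3 : ¬ f (6 * k) (c - 4) (2 * M - 3) (2 * M + 2 - 2 * k))
    (z2 : ¬ f (6 * k + 2) (c - 2) (2 * M + 1) (2 * M + 6 - 2 * k))
    (p1 : f (6 * k) (c - 2) (2 * M + 1) (2 * M + 6 - 2 * k))
    (zc : ¬ f (6 * k) (c - 2) (2 * M - 1) (2 * M + 4 - 2 * k)) :
    f (6 * k) (c - 6) (2 * M - 5) (2 * M - 2 * k) := by
  have hk := H.T.hk
  have hc := H.T.hc
  have hb := H.T.hb
  have hN := H.T.hN2
  have hMn := H.hM
  by_contra g
  refine wa hf (X := 2 * M + 1) (a0 := 6 * k - 2) (b0 := c - 9) (x0 := 2 * M - 9) (y0 := 2 * M + 9 - 2 * k - 20)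
    ⟨H, hM2, hMn, rfl, by omega, by omega, by omega, by omega, ?_, ?_, ?_, ?_, ?_, ?_⟩
  · intro L R x y h1 h2 h3 h4
    obtain rfl : L = 6 * k + 3 := h1
    obtain rfl : R = c - 2 := by omega
    obtain rfl : x = 2 * M + 4 := by omega
    obtain rfl : y = 2 * M + 4 - 2 * k := by omega
    exact E0
  · intro L R x y h1 h2 h3 h4
    obtain rfl : L = 6 * k := h1
    obtain rfl : R = c - 2 := by omega
    obtain rfl : x = 2 * M + 1 := by omega
    obtain rfl : y = 2 * M + 6 - 2 * k := by omega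
    exact p1
  · intro L R x y h1 h2 h3 h4
    obtain rfl : L = 6 * k := h1
    obtain rfl : R = c - 4 := by omega
    obtain rfl : x = 2 * M - 3 := by omega
    obtain rfl : y = 2 * M + 2 - 2 * k := by omega
    exact z3
  · intro L R x y h1 h2 h3 h4
    obtain rfl : L = 6 * k + 2 := h1
    obtain rfl : R = c - 2 := by omega
    obtain rfl : x = 2 * M + 1 := by omega
    obtain rfl : y = 2 * M + 6 - 2 * k := by omega
    exact z2
  · intro L R x y h1 h2 h3 h4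
    obtain rfl : L = 6 * k := h1
    obtain rfl : R = c - 2 := by omega
    obtain rfl : x = 2 * M - 1 := by omega
    obtain rfl : y = 2 * M + 4 - 2 * k := by omega
    exact zc
  · intro L R x y h1 h2 h3 h4
    obtain rfl : L = 6 * k := h1
    obtain rfl : R = c - 6 := by omega
    obtain rfl : x = 2 * M - 5 := by omega
    obtain rfl : y = 2 * M - 2 * k := by omega
    exact g

end Pool.Agent.SNT.WaL3
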