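import Pool.Agent.SNT.L3S
import Pool.Agent.SNT.L3B
import Pool.Agent.SNT.L3D2
import Pool.Agent.SNT.WaL3
import Pool.Agent.SNT.WbL3
import Pool.Agent.SNT.Z00W

set_option autoImplicit false

/-! The cell `(2 M + 6, 2 M + 4)` of `6 k + 1` in the row `c + 2`: the chain of windows (helper51). -/

namespace Pool.Agent.SNT.L3C

open Pool.Agent.SNT Pool.Agent.SNT.LW Pool.Agent.SNT.NHZ Pool.Agent.SNT.PB Pool.Agent.SNT.D1E Pool.Agent.SNT.OutE

variable {f : ℕ → ℕ → ℕ → ℕ → Prop}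

theorem up_run {P : ℕ → Prop} {y0 : ℕ} (h0 : P y0) :
    ∀ j : ℕ, (∀ i, i < j → P (y0 + 2 * i) → P (y0 + 2 * i + 2)) → P (y0 + 2 * j) := by
  intro j
  induction j with
  | zero => exact fun _ => by simpa using h0
  | succ j ih =>
    intro step
    have := step j (by omega) (ih fun i hi => step i (by omega))
    rwa [show y0 + 2 * (j + 1) = y0 + 2 * j + 2 by ring]

theorem down_run {P : ℕ → Prop} {y0 : ℕ} :
    ∀ j : ℕ, P (y0 + 2 * j) → (∀ i, i < j → P (y0 + 2 * i + 2) → P (y0 + 2 * i)) → P y0 := by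
  intro j
  induction j with
  | zero => exact fun h _ => by simpa using h
  | succ j ih =>
    intro h step
    exact ih (step j (by omega) (by rwa [show y0 + 2 * (j + 1) = y0 + 2 * j + 2 by ring] at h))
      fun i hi => step i (by omega)

/-- **the chain** -/
theorem core (hf : Rule f) {k c n M c0 n0 M0 : ℕ} (H : Q f k c n M) (H0 : PL f k c0 n0 M0) (hc0 : c = c0 + 4)
    (hn0 : n = n0 + (k + 2)) (hM2 : M + 2 ≤ n)
    (E0 : f (6 * k + 3) (c - 2) (2 * M + 4) (2 * M + 4 - 2 * k))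
    (pB : f (6 * k) (c - 2) (2 * M - 1) (2 * M + 4 - 2 * k) ∨ f (6 * k) (c - 2) (2 * M + 1) (2 * M + 6 - 2 * k))
    (pw : f (6 * k + 2) (c - 4) (2 * M - 1) (2 * M + 4 - 2 * k))
    (d1c : f (6 * k) c (2 * M + 1) (2 * M - 6)) (d1b : f (6 * k) c (2 * M + 3) (2 * M - 5))
    (h : f (6 * k + 1) (c + 2) (2 * M + 6) (2 * M + 4)) : False := by
  have hk := H.T.hk
  have hN := H.T.hN2
  have hM := H.hM
  have hM' := H.hM'
  have T0 := H0.T
  have Tp : NHT f k (c - 4) (2 * (n - (k + 2))) := by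
    rw [show c - 4 = c0 by omega, show n - (k + 2) = n0 by omega]
    exact T0
  -- the beam of `6 k` in the row `c` goes down to the wall
  have bm : ∀ y, y % 2 = 0 → 2 * M + 6 ≤ y + 2 * k → y + 6 ≤ 2 * M → f (6 * k) c (2 * M + 1) y := by
    intro y hy h1 h2
    obtain ⟨j, hj⟩ : ∃ j, y + 2 * j = 2 * M - 6 := ⟨(2 * M - 6 - y) / 2, by omega⟩
    refine down_run (P := fun z => f (6 * k) c (2 * M + 1) z) j (by rw [hj]; exact d1c) ?_
    intro i hi g1
    by_contra g2
    exact L3S.s5 hf H (s := y + 2 * i) (by omega) (by omega) (by omega) g1 g2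
  have od : f (6 * k) c (2 * M + 3) (2 * M + 11 - 2 * k) := by
    obtain ⟨j, hj⟩ : ∃ j, 2 * M + 11 - 2 * k + 2 * j = 2 * M - 5 := ⟨k - 8, by omega⟩
    refine down_run (P := fun z => f (6 * k) c (2 * M + 3) z) j (by rw [hj]; exact d1b) ?_
    intro i hi g1
    by_contra g3
    exact L3S.s5o hf H (s := 2 * M + 10 - 2 * k + 2 * i) (by omega) (by omega) (by omega)
      (mv g1 rfl rfl rfl (by omega)) (bm _ (by omega) (by omega) (by omega)) (fun t => g3 (mv t rfl rfl rfl (by omega)))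
  -- the column `2 M - 1` is missing
  have zc : ¬ f (6 * k) (c - 2) (2 * M - 1) (2 * M + 4 - 2 * k) := by
    intro a5
    have r := run_m1 hf H (y0 := 2 * M + 4 - 2 * k) (by omega) (by omega) a5
    exact Z00W.z00w hf H0 H.toPL hc0 hn0 E0 a5 (r _ (by omega) (by omega) (by omega)) (r _ (by omega) (by omega) (by omega))
      (bm _ (by omega) (by omega) (by omega)) od
  have p1 := pB.resolve_left zc
  have p1r := run_p1 hf H (y0 := 2 * M + 6 - 2 * k) (by omega) (by omega) p1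
  -- `6 k + 2` in the rows `c - 4`, `c - 2`
  have z2 : ¬ f (6 * k + 2) (c - 2) (2 * M + 1) (2 * M + 6 - 2 * k) := by
    intro g
    obtain ⟨i, hi⟩ : ∃ i, 2 * M + 4 - 2 * k + 2 * i = 2 * M - 6 := ⟨k - 5, by omega⟩
    have pp : f (6 * k + 2) (c - 4) (2 * M - 1) (2 * M + 4 - 2 * k + 2 * i) := by
      refine up_run (P := fun z => f (6 * k + 2) (c - 4) (2 * M - 1) z) pw i ?_
      intro i hi g1
      by_contra g2
      exact L3S.s8 hf H T0 hc0 hn0 (s := 2 * M + 4 - 2 * k + 2 * i) (by omega) (by omega) (by omega) g1 g2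
    rw [hi] at pp
    obtain ⟨j, hj⟩ : ∃ j, 2 * M + 6 - 2 * k + 2 * j = 2 * M - 4 := ⟨k - 5, by omega⟩
    have g' : f (6 * k + 2) (c - 2) (2 * M + 1) (2 * M + 6 - 2 * k + 2 * j) := by
      refine up_run (P := fun z => f (6 * k + 2) (c - 2) (2 * M + 1) z) g j ?_
      intro i hi g1
      by_contra g2
      exact L3S.s2 hf H T0 hc0 hn0 (s := 2 * M + 6 - 2 * k + 2 * i) (by omega) (by omega) (by omega) g1 g2
    rw [hj] at g'
    exact L3B.b2 hf H.toPL Tp hM2 g' pp (H.PO _ _ (by omega) (by omega) (by omega) (by omega) (by omega))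
  -- `6 k` in the row `c - 4`
  have z3 : ¬ f (6 * k) (c - 4) (2 * M - 3) (2 * M + 2 - 2 * k) := by
    intro g
    obtain ⟨j, hj⟩ : ∃ j, 2 * M + 2 - 2 * k + 2 * j = 2 * M - 8 := ⟨k - 5, by omega⟩
    have g' : f (6 * k) (c - 4) (2 * M - 3) (2 * M + 2 - 2 * k + 2 * j) := by
      refine up_run (P := fun z => f (6 * k) (c - 4) (2 * M - 3) z) g j ?_
      intro i hi g1
      by_contra g2
      exact L3S.s3 hf H T0 hc0 hn0 (s := 2 * M + 2 - 2 * k + 2 * i) (by omega) (by omega) (by omega) g1 g2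
    rw [hj] at g'
    exact L3B.b3 hf H.toPL Tp hM2 g' (Or.inr (p1r _ (by omega) (by omega) (by omega)))
      (H.PI _ _ (by omega) (by omega) (by omega) (by omega) (by omega) (by omega))
      (H.PO _ _ (by omega) (by omega) (by omega) (by omega) (by omega))
      (H.PO _ _ (by omega) (by omega) (by omega) (by omega) (by omega))
      (H.PO _ _ (by omega) (by omega) (by omega) (by omega) (by omega))
      (H.PO _ _ (by omega) (by omega) (by omega) (by omega) (by omega))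
  -- the two near-wall windows
  have wa := WaL3.Wa hf H.toPL hM2 E0 z3 z2 p1 zc
  have wb := L3W.wb_l3 hf H.toPL (cyc_mv H.c0p rfl rfl (by omega)) (cyc_mv H.c2p rfl rfl (by omega))
    (cyc_mv H.c4p rfl rfl (by omega)) E0 z3 z2 p1 (bm _ (by omega) (by omega) (by omega))
  have a : f (6 * k) (c - 6) (2 * M - 5) (2 * M - 10) := by
    obtain ⟨j, hj⟩ : ∃ j, 2 * M - 2 * k + 2 * j = 2 * M - 10 := ⟨k - 5, by omega⟩
    have g' : f (6 * k) (c - 6) (2 * M - 5) (2 * M - 2 * k + 2 * j) := by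
      refine up_run (P := fun z => f (6 * k) (c - 6) (2 * M - 5) z) wa j ?_
      intro i hi g1
      by_contra g2
      exact L3S.s7 hf H T0 hc0 hn0 (s := 2 * M - 2 * k + 2 * i) (by omega) (by omega) (by omega) g1 g2
    rwa [hj] at g'
  have b' : f (6 * k) (c - 2) (2 * M - 3) (2 * M - 8) := by
    have w4 : f (6 * k) (c - 2) (2 * M - 3) (2 * M + 4 - 2 * k) := by
      by_contra g2
      exact L3S.s6b hf H T0 hc0 hn0 (s := 2 * M + 2 - 2 * k) (by omega) wb
        (fun t => g2 (mv t rfl rfl rfl (by omega))) (bm _ (by omega) (by omega) (by omega))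
    obtain ⟨j, hj⟩ : ∃ j, 2 * M + 4 - 2 * k + 2 * j = 2 * M - 8 := ⟨k - 6, by omega⟩
    have g' : f (6 * k) (c - 2) (2 * M - 3) (2 * M + 4 - 2 * k + 2 * j) := by
      refine up_run (P := fun z => f (6 * k) (c - 2) (2 * M - 3) z) w4 j ?_
      intro i hi g1
      by_contra g2
      exact L3S.s6 hf H T0 hc0 hn0 (s := 2 * M + 4 - 2 * k + 2 * i) (by omega) (by omega) (by omega) g1 g2
    rwa [hj] at g'
  have m : ¬ f (6 * k) (c - 2) (2 * M - 1) (2 * M - 6) := by
    intro g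
    obtain ⟨j, hj⟩ : ∃ j, 2 * M + 6 - 2 * k + 2 * j = 2 * M - 6 := ⟨k - 6, by omega⟩
    have g' : f (6 * k) (c - 2) (2 * M - 1) (2 * M + 6 - 2 * k) := by
      refine down_run (P := fun z => f (6 * k) (c - 2) (2 * M - 1) z) j (by rw [hj]; exact g) ?_
      intro i hi g1
      by_contra g2
      exact L3S.s4 hf H T0 hc0 hn0 (s := 2 * M + 6 - 2 * k + 2 * i) (by omega) (by omega) (by omega) g1 g2
    exact L3S.s4b hf H T0 hc0 hn0 (s := 2 * M + 4 - 2 * k) (by omega) (mv g' rfl rfl rfl (by omega)) zc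
  exact L3D.D2 hf H.toPL hM2 h a b' m (p1r _ (by omega) (by omega) (by omega))
    (H.PO _ _ (by omega) (by omega) (by omega) (by omega) (by omega))
    (H.PO _ _ (by omega) (by omega) (by omega) (by omega) (by omega))

end Pool.Agent.SNT.L3C
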