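import Pool.Agent.SNT.OutE0

set_option autoImplicit false
set_option synthInstance.maxSize 100000
set_option synthInstance.maxHeartbeats 4000000

/-! The steps of the straight columns used by the cell `l3` (`(2 M + 6, 2 M + 4)` of `6 k + 1` in the row `c + 2`) (helper51). -/

namespace Pool.Agent.SNT.L3S

open Pool.Agent.SNT Pool.Agent.SNT.Sig Pool.Agent.SNT.Loc Pool.Agent.SNT.LW Pool.Agent.SNT.NHZ Pool.Agent.SNT.DRun
open Pool.Agent.SNT.PB Pool.Agent.SNT.D1E Pool.Agent.SNT.OutE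

variable {f : ℕ → ℕ → ℕ → ℕ → Prop}

theorem s2_chk : check 5 4 4 5 0 0 0 1 0
    (fun j n p q => decide ((j = 4 ∧ n = 2 ∧ p = 1 ∧ q = 1)))
    (fun j n p q => decide ((j = 4 ∧ n = 1 ∧ q ≤ p + 4 ∧ p ≤ q + 1)
      ∨ (j = 5 ∧ n = 1 ∧ q ≤ p + 4 ∧ p ≤ q + 1)
      ∨ (j = 5 ∧ n = 2 ∧ 3 ≤ q ∧ q ≤ p + 3 ∧ p ≤ q + 0)
      ∨ (j = 4 ∧ n = 2 ∧ p = 1 ∧ q = 3)))
    15
    0xe28300b70000e28700e00700d88700d80700d60700d58700ba8700b80700b70f00b08700b00700ae0700ad87 = true := by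
  decide +kernel

theorem s2 (hf : Rule f) {k c n M s : ℕ} (H : Q f k c n M)
    {c0 n0 : ℕ} (T0 : NHT f k c0 (2 * n0)) (hc0 : c = c0 + 4) (hn0 : n = n0 + (k + 2)) (hs : s % 2 = 0) (h1 : s + 6 ≤ 2 * M) (h2 : 2 * M + 6 ≤ s + 2 * k)
    (g1 : f (6 * k + 2) (c - 2) (2 * M + 1) s) (g2 : ¬ f (6 * k + 2) (c - 2) (2 * M + 1) (s + 2)) : False := by
  have hk := H.T.hk
  have hc := H.T.hc
  have h4' := H.T.h4
  have hb := H.T.hb
  have hN := H.T.hN2
  have hM := H.hM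
  have hM' := H.hM'
  have PO := H.PO
  have PI := H.PI
  obtain ⟨a0, ha0⟩ : ∃ z, z + 2 = 6 * k := ⟨6 * k - 2, by omega⟩
  obtain ⟨b0, hb0⟩ : ∃ z, z + 4 = c := ⟨c - 4, by omega⟩
  obtain ⟨x0, hx0⟩ : ∃ z, z = 2 * M := ⟨_, rfl⟩
  obtain ⟨y0, hy0⟩ : ∃ z, z + 1 = s := ⟨s - 1, by omega⟩
  refine check_sound hf (a0 := a0) (b0 := b0) (x0 := x0) (y0 := y0) s2_chk
    ⟨fun h => absurd h (by decide), fun h => absurd h (by decide), fun h => absurd h (by decide), by omega, by omega,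
      by omega, by omega⟩ ?_ ?_
  · intro j m p q hr h
    obtain ⟨-, -, -, -, hp1, hp2, hq1, hq2⟩ := hr
    replace h := of_decide_eq_true h
    obtain ⟨rfl, rfl, rfl, rfl⟩ := h
    exact mv g1 (by omega) (by omega) (by omega) (by omega)
  · intro j m p q hr h
    obtain ⟨-, -, -, -, hp1, hp2, hq1, hq2⟩ := hr
    replace h := of_decide_eq_true h
    rcases h with h | h | h | h
    · obtain ⟨rfl, rfl, h⟩ := h
      exact NHT.rIn hf H.T (t := 3) (p := 0) (j := 2) (by omega) (by omega) (by omega) (by omega) (by omega) (by omega) (by omega) (by omega)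
    · obtain ⟨rfl, rfl, h⟩ := h
      exact NHT.rIn hf H.T (t := 3) (p := 1) (j := 2) (by omega) (by omega) (by omega) (by omega) (by omega) (by omega) (by omega) (by omega)
    · obtain ⟨rfl, rfl, h⟩ := h
      exact NHT.p2 hf T0 (j := 3) (by omega) (by omega) (by omega) (by omega) (by omega) (by omega)
    · obtain ⟨rfl, rfl, rfl, rfl⟩ := h
      exact fun t => g2 (mv t (by omega) (by omega) (by omega) (by omega))

theorem s3_chk : check 2 4 4 5 0 1 0 1 0
    (fun j n p q => decide ((j = 2 ∧ n = 1 ∧ p = 1 ∧ q = 1)))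
    (fun j n p q => decide ((j = 1 ∧ n = 2 ∧ q ≤ p + 2)
      ∨ (j = 1 ∧ n = 1 ∧ q ≤ p + 2)
      ∨ (j = 2 ∧ n = 2 ∧ 2 ≤ q ∧ q ≤ p + 2 ∧ p + 1 ≤ q)
      ∨ (j = 2 ∧ n = 1 ∧ p = 1 ∧ q = 3)))
    16
    0x6a83005d00006a87006807006787006087005e07005d0f004287004207004007003f87003887003807003607003587 = true := by
  decide +kernel

theorem s3 (hf : Rule f) {k c n M s : ℕ} (H : Q f k c n M)
    {c0 n0 : ℕ} (T0 : NHT f k c0 (2 * n0)) (hc0 : c = c0 + 4) (hn0 : n = n0 + (k + 2)) (hs : s % 2 = 0) (h1 : s + 10 ≤ 2 * M) (h2 : 2 * M + 2 ≤ s + 2 * k)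
    (g1 : f (6 * k) (c - 4) (2 * M - 3) s) (g2 : ¬ f (6 * k) (c - 4) (2 * M - 3) (s + 2)) : False := by
  have hk := H.T.hk
  have hc := H.T.hc
  have h4' := H.T.h4
  have hb := H.T.hb
  have hN := H.T.hN2
  have hM := H.hM
  have hM' := H.hM'
  have PO := H.PO
  have PI := H.PI
  obtain ⟨a0, ha0⟩ : ∃ z, z + 2 = 6 * k := ⟨6 * k - 2, by omega⟩
  obtain ⟨b0, hb0⟩ : ∃ z, z + 5 = c := ⟨c - 5, by omega⟩
  obtain ⟨x0, hx0⟩ : ∃ z, z + 4 = 2 * M := ⟨2 * M - 4, by omega⟩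
  obtain ⟨y0, hy0⟩ : ∃ z, z + 1 = s := ⟨s - 1, by omega⟩
  refine check_sound hf (a0 := a0) (b0 := b0) (x0 := x0) (y0 := y0) s3_chk
    ⟨fun h => absurd h (by decide), fun h => absurd h (by decide), fun h => absurd h (by decide), by omega, by omega,
      by omega, by omega⟩ ?_ ?_
  · intro j m p q hr h
    obtain ⟨-, -, -, -, hp1, hp2, hq1, hq2⟩ := hr
    replace h := of_decide_eq_true h
    obtain ⟨rfl, rfl, rfl, rfl⟩ := h
    exact mv g1 (by omega) (by omega) (by omega) (by omega)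
  · intro j m p q hr h
    obtain ⟨-, -, -, -, hp1, hp2, hq1, hq2⟩ := hr
    replace h := of_decide_eq_true h
    rcases h with h | h | h | h
    · obtain ⟨rfl, rfl, h⟩ := h
      exact H.lw _ _ _ _ (by omega) (by omega) (by omega) (by omega) (by omega) (by omega)
    · obtain ⟨rfl, rfl, h⟩ := h
      exact H.lw _ _ _ _ (by omega) (by omega) (by omega) (by omega) (by omega) (by omega)
    · obtain ⟨rfl, rfl, h⟩ := h
      exact NHT.rOut hf T0 (t := 4) (p := 0) (j := 4) (by omega) (by omega) (by omega) (by omega) (by omega) (by omega) (by omega) (by omega)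
    · obtain ⟨rfl, rfl, rfl, rfl⟩ := h
      exact fun t => g2 (mv t (by omega) (by omega) (by omega) (by omega))

theorem s4_chk : check 2 4 4 5 0 0 1 1 0
    (fun j n p q => decide ((j = 2 ∧ n = 2 ∧ p = 2 ∧ q = 3)))
    (fun j n p q => decide ((j = 1 ∧ n = 2 ∧ q ≤ p + 1)
      ∨ (j = 1 ∧ n = 1 ∧ q ≤ p + 1)
      ∨ (j = 2 ∧ n = 1 ∧ q ≤ p + 1 ∧ p ≤ q + 2)
      ∨ (j = 2 ∧ n = 2 ∧ p = 2 ∧ q = 1)))
    17
    0x6a03006a80006a8f006987006707006007005f87005d87005d07004207004187003f87003f07003807003787003587003507 = true := by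
  decide +kernel

theorem s4 (hf : Rule f) {k c n M s : ℕ} (H : Q f k c n M)
    {c0 n0 : ℕ} (T0 : NHT f k c0 (2 * n0)) (hc0 : c = c0 + 4) (hn0 : n = n0 + (k + 2)) (hs : s % 2 = 0) (h1 : s + 8 ≤ 2 * M) (h2 : 2 * M + 6 ≤ s + 2 * k)
    (g1 : f (6 * k) (c - 2) (2 * M - 1) (s + 2)) (g2 : ¬ f (6 * k) (c - 2) (2 * M - 1) s) : False := by
  have hk := H.T.hk
  have hc := H.T.hc
  have h4' := H.T.h4
  have hb := H.T.hb
  have hN := H.T.hN2
  have hM := H.hM
  have hM' := H.hM'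
  have PO := H.PO
  have PI := H.PI
  obtain ⟨a0, ha0⟩ : ∃ z, z + 2 = 6 * k := ⟨6 * k - 2, by omega⟩
  obtain ⟨b0, hb0⟩ : ∃ z, z + 4 = c := ⟨c - 4, by omega⟩
  obtain ⟨x0, hx0⟩ : ∃ z, z + 3 = 2 * M := ⟨2 * M - 3, by omega⟩
  obtain ⟨y0, hy0⟩ : ∃ z, z + 1 = s := ⟨s - 1, by omega⟩
  refine check_sound hf (a0 := a0) (b0 := b0) (x0 := x0) (y0 := y0) s4_chk
    ⟨fun h => absurd h (by decide), fun h => absurd h (by decide), fun h => absurd h (by decide), by omega, by omega,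
      by omega, by omega⟩ ?_ ?_
  · intro j m p q hr h
    obtain ⟨-, -, -, -, hp1, hp2, hq1, hq2⟩ := hr
    replace h := of_decide_eq_true h
    obtain ⟨rfl, rfl, rfl, rfl⟩ := h
    exact mv g1 (by omega) (by omega) (by omega) (by omega)
  · intro j m p q hr h
    obtain ⟨-, -, -, -, hp1, hp2, hq1, hq2⟩ := hr
    replace h := of_decide_eq_true h
    rcases h with h | h | h | h
    · obtain ⟨rfl, rfl, h⟩ := h
      exact H.lw _ _ _ _ (by omega) (by omega) (by omega) (by omega) (by omega) (by omega)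
    · obtain ⟨rfl, rfl, h⟩ := h
      exact H.lw _ _ _ _ (by omega) (by omega) (by omega) (by omega) (by omega) (by omega)
    · obtain ⟨rfl, rfl, h⟩ := h
      exact NHT.rOut hf T0 (t := 4) (p := 0) (j := 4) (by omega) (by omega) (by omega) (by omega) (by omega) (by omega) (by omega) (by omega)
    · obtain ⟨rfl, rfl, rfl, rfl⟩ := h
      exact fun t => g2 (mv t (by omega) (by omega) (by omega) (by omega))

theorem s4b_chk : check 2 6 4 6 0 0 1 0 0
    (fun j n p q => decide ((j = 2 ∧ n = 4 ∧ p = 2 ∧ q = 4)))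
    (fun j n p q => decide ((j = 1 ∧ n = 4 ∧ q ≤ p + 2)
      ∨ (j = 1 ∧ n = 3 ∧ q ≤ p + 2)
      ∨ (j = 1 ∧ n = 2 ∧ q ≤ p + 1)
      ∨ (j = 1 ∧ n = 1 ∧ q ≤ p + 1)
      ∨ (j = 2 ∧ n = 1 ∧ q ≤ p + 1 ∧ p ≤ q + 3)
      ∨ (j = 2 ∧ n = 3 ∧ q ≤ p + 2 ∧ p + 1 ≤ q)
      ∨ (j = 2 ∧ n = 4 ∧ p = 2 ∧ q = 2)))
    31
    0xaf0300bb0000c7aa00c80000c80f00c70700c40700bb8700b88700b80700ac0700a30700a28700a007009f87007f87007f07007c87007c07007387007307007087007007006707006687006407006387005b07005a87005807005787 = true := by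
  decide +kernel

theorem s4b (hf : Rule f) {k c n M s : ℕ} (H : Q f k c n M)
    {c0 n0 : ℕ} (T0 : NHT f k c0 (2 * n0)) (hc0 : c = c0 + 4) (hn0 : n = n0 + (k + 2)) (he : s + 2 * k = 2 * M + 4)
    (g1 : f (6 * k) (c - 2) (2 * M - 1) (s + 2)) (g2 : ¬ f (6 * k) (c - 2) (2 * M - 1) s) : False := by
  have hk := H.T.hk
  have hc := H.T.hc
  have h4' := H.T.h4
  have hb := H.T.hb
  have hN := H.T.hN2
  have hM := H.hM
  have hM' := H.hM'
  have PO := H.PO
  have PI := H.PI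
  obtain ⟨a0, ha0⟩ : ∃ z, z + 2 = 6 * k := ⟨6 * k - 2, by omega⟩
  obtain ⟨b0, hb0⟩ : ∃ z, z + 6 = c := ⟨c - 6, by omega⟩
  obtain ⟨x0, hx0⟩ : ∃ z, z + 3 = 2 * M := ⟨2 * M - 3, by omega⟩
  obtain ⟨y0, hy0⟩ : ∃ z, z + 2 = s := ⟨s - 2, by omega⟩
  refine check_sound hf (a0 := a0) (b0 := b0) (x0 := x0) (y0 := y0) s4b_chk
    ⟨fun h => absurd h (by decide), fun h => absurd h (by decide), fun h => absurd h (by decide), by omega, by omega,
      by omega, by omega⟩ ?_ ?_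
  · intro j m p q hr h
    obtain ⟨-, -, -, -, hp1, hp2, hq1, hq2⟩ := hr
    replace h := of_decide_eq_true h
    obtain ⟨rfl, rfl, rfl, rfl⟩ := h
    exact mv g1 (by omega) (by omega) (by omega) (by omega)
  · intro j m p q hr h
    obtain ⟨-, -, -, -, hp1, hp2, hq1, hq2⟩ := hr
    replace h := of_decide_eq_true h
    rcases h with h | h | h | h | h | h | h
    · obtain ⟨rfl, rfl, h⟩ := h
      exact H.lw _ _ _ _ (by omega) (by omega) (by omega) (by omega) (by omega) (by omega)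
    · obtain ⟨rfl, rfl, h⟩ := h
      exact H.lw _ _ _ _ (by omega) (by omega) (by omega) (by omega) (by omega) (by omega)
    · obtain ⟨rfl, rfl, h⟩ := h
      exact H.lw _ _ _ _ (by omega) (by omega) (by omega) (by omega) (by omega) (by omega)
    · obtain ⟨rfl, rfl, h⟩ := h
      exact H.lw _ _ _ _ (by omega) (by omega) (by omega) (by omega) (by omega) (by omega)
    · obtain ⟨rfl, rfl, h⟩ := h
      exact mt (WrapC.v1 H.c0 (by omega) (by omega) (by omega) (by omega) (by omega) (by omega) (by omega) (by omega)).mp (by omega)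
    · obtain ⟨rfl, rfl, h⟩ := h
      exact NHT.rOut hf T0 (t := 4) (p := 0) (j := 4) (by omega) (by omega) (by omega) (by omega) (by omega) (by omega) (by omega) (by omega)
    · obtain ⟨rfl, rfl, rfl, rfl⟩ := h
      exact fun t => g2 (mv t (by omega) (by omega) (by omega) (by omega))

theorem s6_chk : check 3 4 5 5 0 0 1 1 0
    (fun j n p q => decide ((j = 2 ∧ n = 2 ∧ p = 2 ∧ q = 1)))
    (fun j n p q => decide ((j = 3 ∧ n = 2 ∧ p % 2 = 1 ∧ q % 2 = 1 ∧ q ≤ p + 6 ∧ p ≤ q + 4 ∧ 6 ≤ p + q)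
      ∨ (j = 1 ∧ n = 2 ∧ q ≤ p + 2)
      ∨ (j = 1 ∧ n = 1 ∧ q ≤ p + 2)
      ∨ (j = 2 ∧ n = 1 ∧ q ≤ p + 1 ∧ p ≤ q + 2)
      ∨ (j = 3 ∧ n = 1 ∧ q ≤ p + 1 ∧ p ≤ q + 2)
      ∨ (j = 2 ∧ n = 2 ∧ p = 2 ∧ q = 3)))
    26
    0x838300b58000b81200828000b80700ab8700ab0700a90700a88700860700838700828f008107007987007907007707007687007407005187005107004f07004e87004507004487004287004207 = true := by
  decide +kernel

theorem s6 (hf : Rule f) {k c n M s : ℕ} (H : Q f k c n M)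
    {c0 n0 : ℕ} (T0 : NHT f k c0 (2 * n0)) (hc0 : c = c0 + 4) (hn0 : n = n0 + (k + 2)) (hs : s % 2 = 0) (h1 : s + 10 ≤ 2 * M) (h2 : 2 * M + 4 ≤ s + 2 * k)
    (g1 : f (6 * k) (c - 2) (2 * M - 3) s) (g2 : ¬ f (6 * k) (c - 2) (2 * M - 3) (s + 2)) : False := by
  have hk := H.T.hk
  have hc := H.T.hc
  have h4' := H.T.h4
  have hb := H.T.hb
  have hN := H.T.hN2
  have hM := H.hM
  have hM' := H.hM'
  have PO := H.PO
  have PI := H.PI
  obtain ⟨a0, ha0⟩ : ∃ z, z + 2 = 6 * k := ⟨6 * k - 2, by omega⟩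
  obtain ⟨b0, hb0⟩ : ∃ z, z + 4 = c := ⟨c - 4, by omega⟩
  obtain ⟨x0, hx0⟩ : ∃ z, z + 5 = 2 * M := ⟨2 * M - 5, by omega⟩
  obtain ⟨y0, hy0⟩ : ∃ z, z + 1 = s := ⟨s - 1, by omega⟩
  refine check_sound hf (a0 := a0) (b0 := b0) (x0 := x0) (y0 := y0) s6_chk
    ⟨fun h => absurd h (by decide), fun h => absurd h (by decide), fun h => absurd h (by decide), by omega, by omega,
      by omega, by omega⟩ ?_ ?_
  · intro j m p q hr h
    obtain ⟨-, -, -, -, hp1, hp2, hq1, hq2⟩ := hr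
    replace h := of_decide_eq_true h
    obtain ⟨rfl, rfl, rfl, rfl⟩ := h
    exact mv g1 (by omega) (by omega) (by omega) (by omega)
  · intro j m p q hr h
    obtain ⟨-, -, -, -, hp1, hp2, hq1, hq2⟩ := hr
    replace h := of_decide_eq_true h
    rcases h with h | h | h | h | h | h
    · obtain ⟨rfl, rfl, h⟩ := h
      exact fun t => PO (x0 + p) (y0 + q) (by omega) (by omega) (by omega) (by omega) (by omega) (mv t (by omega) (by omega) rfl rfl)
    · obtain ⟨rfl, rfl, h⟩ := h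
      exact H.lw _ _ _ _ (by omega) (by omega) (by omega) (by omega) (by omega) (by omega)
    · obtain ⟨rfl, rfl, h⟩ := h
      exact H.lw _ _ _ _ (by omega) (by omega) (by omega) (by omega) (by omega) (by omega)
    · obtain ⟨rfl, rfl, h⟩ := h
      exact NHT.rOut hf T0 (t := 4) (p := 0) (j := 4) (by omega) (by omega) (by omega) (by omega) (by omega) (by omega) (by omega) (by omega)
    · obtain ⟨rfl, rfl, h⟩ := h
      exact NHT.rOut hf T0 (t := 4) (p := 1) (j := 4) (by omega) (by omega) (by omega) (by omega) (by omega) (by omega) (by omega) (by omega)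
    · obtain ⟨rfl, rfl, rfl, rfl⟩ := h
      exact fun t => g2 (mv t (by omega) (by omega) (by omega) (by omega))

theorem s6b_chk : check 2 8 8 7 0 0 1 1 0
    (fun j n p q => decide ((j = 2 ∧ n = 4 ∧ p = 2 ∧ q = 1)
      ∨ (j = 2 ∧ n = 6 ∧ p = 6 ∧ q = 5)))
    (fun j n p q => decide ((j = 1 ∧ n = 5 ∧ q ≤ p + 1)
      ∨ (j = 1 ∧ n = 4 ∧ q ≤ p + 2)
      ∨ (j = 1 ∧ n = 3 ∧ q ≤ p + 2)
      ∨ (j = 1 ∧ n = 2 ∧ q + 0 ≤ p)
      ∨ (j = 1 ∧ n = 1 ∧ q + 0 ≤ p)
      ∨ (j = 1 ∧ n = 6 ∧ q + 0 ≤ p)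
      ∨ (j = 2 ∧ n = 1 ∧ 4 ≤ p ∧ q + 3 ≤ p ∧ p ≤ q + 4)
      ∨ (j = 2 ∧ n = 1 ∧ 2 ≤ p ∧ q + 0 ≤ p ∧ p ≤ q + 2)
      ∨ (j = 2 ∧ n = 3 ∧ 2 ≤ q ∧ q ≤ p + 2 ∧ p ≤ q + 0)
      ∨ (j = 2 ∧ n = 4 ∧ p = 2 ∧ q = 3)))
    87
    0x20703022300023faa020783022380022384020783022380023fa2020680020684020383021f80021f84025f00027baa025800025801023480027f8002389a023780027f8f027b07023c0702388702378f023507022007021c87021c0702190702188702040702030701eb8701eb0701ea8701e80701e78701e70701e40701e387019b87019b07019807019787017f87017f07017c07017b87017807017787017487017407015f87015f07015c07015b87015887015807015507015487014387014307014007013f87013c87013c07013907013887012787012707012687012407012387012307012007011f87010b87010b07010a87010807010787010707010407010387 = true := by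
  decide +kernel

theorem s6b (hf : Rule f) {k c n M s : ℕ} (H : Q f k c n M)
    {c0 n0 : ℕ} (T0 : NHT f k c0 (2 * n0)) (hc0 : c = c0 + 4) (hn0 : n = n0 + (k + 2)) (he : s + 2 * k = 2 * M + 2)
    (g1 : f (6 * k) (c - 2) (2 * M - 3) s) (g2 : ¬ f (6 * k) (c - 2) (2 * M - 3) (s + 2)) (g3 : f (6 * k) c (2 * M + 1) (s + 4)) : False := by
  have hk := H.T.hk
  have hc := H.T.hc
  have h4' := H.T.h4
  have hb := H.T.hb
  have hN := H.T.hN2
  have hM := H.hM
  have hM' := H.hM'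
  have PO := H.PO
  have PI := H.PI
  obtain ⟨a0, ha0⟩ : ∃ z, z + 2 = 6 * k := ⟨6 * k - 2, by omega⟩
  obtain ⟨b0, hb0⟩ : ∃ z, z + 6 = c := ⟨c - 6, by omega⟩
  obtain ⟨x0, hx0⟩ : ∃ z, z + 5 = 2 * M := ⟨2 * M - 5, by omega⟩
  obtain ⟨y0, hy0⟩ : ∃ z, z + 1 = s := ⟨s - 1, by omega⟩
  refine check_sound hf (a0 := a0) (b0 := b0) (x0 := x0) (y0 := y0) s6b_chk
    ⟨fun h => absurd h (by decide), fun h => absurd h (by decide), fun h => absurd h (by decide), by omega, by omega,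
      by omega, by omega⟩ ?_ ?_
  · intro j m p q hr h
    obtain ⟨-, -, -, -, hp1, hp2, hq1, hq2⟩ := hr
    replace h := of_decide_eq_true h
    rcases h with h | h
    · obtain ⟨rfl, rfl, rfl, rfl⟩ := h
      exact mv g1 (by omega) (by omega) (by omega) (by omega)
    · obtain ⟨rfl, rfl, rfl, rfl⟩ := h
      exact mv g3 (by omega) (by omega) (by omega) (by omega)
  · intro j m p q hr h
    obtain ⟨-, -, -, -, hp1, hp2, hq1, hq2⟩ := hr
    replace h := of_decide_eq_true h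
    rcases h with h | h | h | h | h | h | h | h | h | h
    · obtain ⟨rfl, rfl, h⟩ := h
      exact H.lw _ _ _ _ (by omega) (by omega) (by omega) (by omega) (by omega) (by omega)
    · obtain ⟨rfl, rfl, h⟩ := h
      exact H.lw _ _ _ _ (by omega) (by omega) (by omega) (by omega) (by omega) (by omega)
    · obtain ⟨rfl, rfl, h⟩ := h
      exact H.lw _ _ _ _ (by omega) (by omega) (by omega) (by omega) (by omega) (by omega)
    · obtain ⟨rfl, rfl, h⟩ := h
      exact H.lw _ _ _ _ (by omega) (by omega) (by omega) (by omega) (by omega) (by omega)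
    · obtain ⟨rfl, rfl, h⟩ := h
      exact H.lw _ _ _ _ (by omega) (by omega) (by omega) (by omega) (by omega) (by omega)
    · obtain ⟨rfl, rfl, h⟩ := h
      exact H.lw _ _ _ _ (by omega) (by omega) (by omega) (by omega) (by omega) (by omega)
    · obtain ⟨rfl, rfl, h⟩ := h
      exact mt (WrapC.v1 H.c0 (by omega) (by omega) (by omega) (by omega) (by omega) (by omega) (by omega) (by omega)).mp (by omega)
    · obtain ⟨rfl, rfl, h⟩ := h
      exact NHT.rIn hf H.T (t := 2) (p := 0) (j := 2) (by omega) (by omega) (by omega) (by omega) (by omega) (by omega) (by omega) (by omega)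
    · obtain ⟨rfl, rfl, h⟩ := h
      exact NHT.rOut hf T0 (t := 4) (p := 0) (j := 4) (by omega) (by omega) (by omega) (by omega) (by omega) (by omega) (by omega) (by omega)
    · obtain ⟨rfl, rfl, rfl, rfl⟩ := h
      exact fun t => g2 (mv t (by omega) (by omega) (by omega) (by omega))

theorem s7_chk : check 2 4 4 5 0 1 0 1 0
    (fun j n p q => decide ((j = 2 ∧ n = 1 ∧ p = 1 ∧ q = 1)))
    (fun j n p q => decide ((j = 1 ∧ n = 2 ∧ q ≤ p + 2)
      ∨ (j = 1 ∧ n = 1 ∧ q ≤ p + 2)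
      ∨ (j = 2 ∧ n = 2 ∧ q ≤ p + 3 ∧ p ≤ q + 0)
      ∨ (j = 2 ∧ n = 1 ∧ p = 1 ∧ q = 3)))
    17
    0x6a83005d00006a87006a07006807006787006087005e07005d0f004287004207004007003f87003887003807003607003587 = true := by
  decide +kernel

theorem s7 (hf : Rule f) {k c n M s : ℕ} (H : Q f k c n M)
    {c0 n0 : ℕ} (T0 : NHT f k c0 (2 * n0)) (hc0 : c = c0 + 4) (hn0 : n = n0 + (k + 2)) (hs : s % 2 = 0) (h1 : s + 12 ≤ 2 * M) (h2 : 2 * M ≤ s + 2 * k)
    (g1 : f (6 * k) (c - 6) (2 * M - 5) s) (g2 : ¬ f (6 * k) (c - 6) (2 * M - 5) (s + 2)) : False := by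
  have hk := H.T.hk
  have hc := H.T.hc
  have h4' := H.T.h4
  have hb := H.T.hb
  have hN := H.T.hN2
  have hM := H.hM
  have hM' := H.hM'
  have PO := H.PO
  have PI := H.PI
  obtain ⟨a0, ha0⟩ : ∃ z, z + 2 = 6 * k := ⟨6 * k - 2, by omega⟩
  obtain ⟨b0, hb0⟩ : ∃ z, z + 7 = c := ⟨c - 7, by omega⟩
  obtain ⟨x0, hx0⟩ : ∃ z, z + 6 = 2 * M := ⟨2 * M - 6, by omega⟩
  obtain ⟨y0, hy0⟩ : ∃ z, z + 1 = s := ⟨s - 1, by omega⟩
  refine check_sound hf (a0 := a0) (b0 := b0) (x0 := x0) (y0 := y0) s7_chk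
    ⟨fun h => absurd h (by decide), fun h => absurd h (by decide), fun h => absurd h (by decide), by omega, by omega,
      by omega, by omega⟩ ?_ ?_
  · intro j m p q hr h
    obtain ⟨-, -, -, -, hp1, hp2, hq1, hq2⟩ := hr
    replace h := of_decide_eq_true h
    obtain ⟨rfl, rfl, rfl, rfl⟩ := h
    exact mv g1 (by omega) (by omega) (by omega) (by omega)
  · intro j m p q hr h
    obtain ⟨-, -, -, -, hp1, hp2, hq1, hq2⟩ := hr
    replace h := of_decide_eq_true h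
    rcases h with h | h | h | h
    · obtain ⟨rfl, rfl, h⟩ := h
      exact H.lw _ _ _ _ (by omega) (by omega) (by omega) (by omega) (by omega) (by omega)
    · obtain ⟨rfl, rfl, h⟩ := h
      exact H.lw _ _ _ _ (by omega) (by omega) (by omega) (by omega) (by omega) (by omega)
    · obtain ⟨rfl, rfl, h⟩ := h
      exact NHT.rOut hf T0 (t := 3) (p := 0) (j := 3) (by omega) (by omega) (by omega) (by omega) (by omega) (by omega) (by omega) (by omega)
    · obtain ⟨rfl, rfl, rfl, rfl⟩ := h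
      exact fun t => g2 (mv t (by omega) (by omega) (by omega) (by omega))

theorem s5_chk : check 3 8 6 7 0 0 1 1 0
    (fun j n p q => decide ((j = 2 ∧ n = 6 ∧ p = 4 ∧ q = 5)))
    (fun j n p q => decide ((j = 3 ∧ n = 4 ∧ p % 2 = 1 ∧ q % 2 = 1 ∧ q ≤ p + 8 ∧ p ≤ q + 2 ∧ 4 ≤ p + q)
      ∨ (j = 1 ∧ n = 5 ∧ q ≤ p + 1)
      ∨ (j = 1 ∧ n = 4 ∧ q ≤ p + 2)
      ∨ (j = 1 ∧ n = 3 ∧ q ≤ p + 2)
      ∨ (j = 1 ∧ n = 2 ∧ q ≤ p + 2)
      ∨ (j = 1 ∧ n = 1 ∧ q ≤ p + 2)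
      ∨ (j = 1 ∧ n = 6 ∧ q ≤ p + 1)
      ∨ (j = 2 ∧ n = 1 ∧ q ≤ p + 7 ∧ p ≤ q + 4)
      ∨ (j = 3 ∧ n = 2 ∧ 3 ≤ p ∧ q ≤ p + 5 ∧ p ≤ q + 2)
      ∨ (j = 2 ∧ n = 3 ∧ 4 ≤ p ∧ q ≤ p + 4 ∧ p ≤ q + 1)
      ∨ (j = 3 ∧ n = 1 ∧ q ≤ p + 5 ∧ p ≤ q + 2)
      ∨ (j = 2 ∧ n = 6 ∧ p = 4 ∧ q = 3)))
    134
    0x1b38301c88001de2a01ac8002585201b38301c88001de2a01ac0001ac04018203023f00023f04022e03024300024304022e03017e8001818001829a01859a019b00019b0401af83025780025784018903019e00019e0401ac0302540002540401ac83025480025484018583024280024284018283023f80023f84018283019780019784018583019a80019a8401de0301af8001af8401820301970001970401de80025807022e07022d8702190702188702158702150701de8f01dd8701da0701b00701af0701a90701a807019e87018607018507017f07017e07017407017387017107017087017007016d87016d07016c87016a07016987016907013607013587013287013207012107012087011d87011d07010b87010b0701080701078701070701048701040701038701010701008701000700f68700f60700f30700f28700f20700ef8700ef0700ee8700ec0700eb8700eb0700e10700e08700dd8700dd0700da8700da0700d98700d70700d68700d60700cc0700cb8700c88700c80700c58700c50700c48700c20700c18700c107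 = true := by
  decide +kernel

theorem s5 (hf : Rule f) {k c n M s : ℕ} (H : Q f k c n M) (hs : s % 2 = 0) (h1 : s + 8 ≤ 2 * M) (h2 : 2 * M + 6 ≤ s + 2 * k)
    (g1 : f (6 * k) c (2 * M + 1) (s + 2)) (g2 : ¬ f (6 * k) c (2 * M + 1) s) : False := by
  have hk := H.T.hk
  have hc := H.T.hc
  have h4' := H.T.h4
  have hb := H.T.hb
  have hN := H.T.hN2
  have hM := H.hM
  have hM' := H.hM'
  have PO := H.PO
  have PI := H.PI
  obtain ⟨a0, ha0⟩ : ∃ z, z + 2 = 6 * k := ⟨6 * k - 2, by omega⟩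
  obtain ⟨b0, hb0⟩ : ∃ z, z + 6 = c := ⟨c - 6, by omega⟩
  obtain ⟨x0, hx0⟩ : ∃ z, z + 3 = 2 * M := ⟨2 * M - 3, by omega⟩
  obtain ⟨y0, hy0⟩ : ∃ z, z + 3 = s := ⟨s - 3, by omega⟩
  refine check_sound hf (a0 := a0) (b0 := b0) (x0 := x0) (y0 := y0) s5_chk
    ⟨fun h => absurd h (by decide), fun h => absurd h (by decide), fun h => absurd h (by decide), by omega, by omega,
      by omega, by omega⟩ ?_ ?_
  · intro j m p q hr h
    obtain ⟨-, -, -, -, hp1, hp2, hq1, hq2⟩ := hr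
    replace h := of_decide_eq_true h
    obtain ⟨rfl, rfl, rfl, rfl⟩ := h
    exact mv g1 (by omega) (by omega) (by omega) (by omega)
  · intro j m p q hr h
    obtain ⟨-, -, -, -, hp1, hp2, hq1, hq2⟩ := hr
    replace h := of_decide_eq_true h
    rcases h with h | h | h | h | h | h | h | h | h | h | h | h
    · obtain ⟨rfl, rfl, h⟩ := h
      exact fun t => PO (x0 + p) (y0 + q) (by omega) (by omega) (by omega) (by omega) (by omega) (mv t (by omega) (by omega) rfl rfl)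
    · obtain ⟨rfl, rfl, h⟩ := h
      exact H.lw _ _ _ _ (by omega) (by omega) (by omega) (by omega) (by omega) (by omega)
    · obtain ⟨rfl, rfl, h⟩ := h
      exact H.lw _ _ _ _ (by omega) (by omega) (by omega) (by omega) (by omega) (by omega)
    · obtain ⟨rfl, rfl, h⟩ := h
      exact H.lw _ _ _ _ (by omega) (by omega) (by omega) (by omega) (by omega) (by omega)
    · obtain ⟨rfl, rfl, h⟩ := h
      exact H.lw _ _ _ _ (by omega) (by omega) (by omega) (by omega) (by omega) (by omega)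
    · obtain ⟨rfl, rfl, h⟩ := h
      exact H.lw _ _ _ _ (by omega) (by omega) (by omega) (by omega) (by omega) (by omega)
    · obtain ⟨rfl, rfl, h⟩ := h
      exact H.lw _ _ _ _ (by omega) (by omega) (by omega) (by omega) (by omega) (by omega)
    · obtain ⟨rfl, rfl, h⟩ := h
      exact mt (WrapC.v1 H.c0 (by omega) (by omega) (by omega) (by omega) (by omega) (by omega) (by omega) (by omega)).mp (by omega)
    · obtain ⟨rfl, rfl, h⟩ := h
      exact NHT.pIn hf H.T (t := 3) (j := 2) (by omega) (by omega) (by omega) (by omega) (by omega) (by omega) (by omega)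
    · obtain ⟨rfl, rfl, h⟩ := h
      exact NHT.rIn hf H.T (t := 3) (p := 0) (j := 3) (by omega) (by omega) (by omega) (by omega) (by omega) (by omega) (by omega) (by omega)
    · obtain ⟨rfl, rfl, h⟩ := h
      exact NHT.rIn hf H.T (t := 2) (p := 1) (j := 2) (by omega) (by omega) (by omega) (by omega) (by omega) (by omega) (by omega) (by omega)
    · obtain ⟨rfl, rfl, rfl, rfl⟩ := h
      exact fun t => g2 (mv t (by omega) (by omega) (by omega) (by omega))

theorem s5o_chk : check 2 6 5 6 0 0 0 1 0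
    (fun j n p q => decide ((j = 2 ∧ n = 4 ∧ p = 3 ∧ q = 4)
      ∨ (j = 2 ∧ n = 4 ∧ p = 1 ∧ q = 1)))
    (fun j n p q => decide ((j = 1 ∧ n = 3 ∧ q ≤ p + 1)
      ∨ (j = 1 ∧ n = 2 ∧ q ≤ p + 1)
      ∨ (j = 1 ∧ n = 1 ∧ q ≤ p + 1)
      ∨ (j = 1 ∧ n = 4 ∧ q ≤ p + 1)
      ∨ (j = 2 ∧ n = 1 ∧ q ≤ p + 5 ∧ p ≤ q + 4)
      ∨ (j = 2 ∧ n = 4 ∧ p = 3 ∧ q = 2)))
    39
    0xdc0300eb0000faaa00d90300e80000e80400fb0000f38000fb0f00fa0700f78700f38f00d88700cd0700cc8700ca0700c98700c70700c68700a08700a007009d87009d07009187009107008e87008e07008207008187007f07007e87007c07007b87007307007287007007006f87006d07006c87 = true := by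
  decide +kernel

theorem s5o (hf : Rule f) {k c n M s : ℕ} (H : Q f k c n M) (hs : s % 2 = 0) (h1 : s + 8 ≤ 2 * M) (h2 : 2 * M + 10 ≤ s + 2 * k)
    (g1 : f (6 * k) c (2 * M + 3) (s + 3)) (g2 : f (6 * k) c (2 * M + 1) s) (g3 : ¬ f (6 * k) c (2 * M + 3) (s + 1)) : False := by
  have hk := H.T.hk
  have hc := H.T.hc
  have h4' := H.T.h4
  have hb := H.T.hb
  have hN := H.T.hN2
  have hM := H.hM
  have hM' := H.hM'
  have PO := H.PO
  have PI := H.PI
  obtain ⟨a0, ha0⟩ : ∃ z, z + 2 = 6 * k := ⟨6 * k - 2, by omega⟩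
  obtain ⟨b0, hb0⟩ : ∃ z, z + 4 = c := ⟨c - 4, by omega⟩
  obtain ⟨x0, hx0⟩ : ∃ z, z = 2 * M := ⟨_, rfl⟩
  obtain ⟨y0, hy0⟩ : ∃ z, z + 1 = s := ⟨s - 1, by omega⟩
  refine check_sound hf (a0 := a0) (b0 := b0) (x0 := x0) (y0 := y0) s5o_chk
    ⟨fun h => absurd h (by decide), fun h => absurd h (by decide), fun h => absurd h (by decide), by omega, by omega,
      by omega, by omega⟩ ?_ ?_
  · intro j m p q hr h
    obtain ⟨-, -, -, -, hp1, hp2, hq1, hq2⟩ := hr
    replace h := of_decide_eq_true h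
    rcases h with h | h
    · obtain ⟨rfl, rfl, rfl, rfl⟩ := h
      exact mv g1 (by omega) (by omega) (by omega) (by omega)
    · obtain ⟨rfl, rfl, rfl, rfl⟩ := h
      exact mv g2 (by omega) (by omega) (by omega) (by omega)
  · intro j m p q hr h
    obtain ⟨-, -, -, -, hp1, hp2, hq1, hq2⟩ := hr
    replace h := of_decide_eq_true h
    rcases h with h | h | h | h | h | h
    · obtain ⟨rfl, rfl, h⟩ := h
      exact H.lw _ _ _ _ (by omega) (by omega) (by omega) (by omega) (by omega) (by omega)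
    · obtain ⟨rfl, rfl, h⟩ := h
      exact H.lw _ _ _ _ (by omega) (by omega) (by omega) (by omega) (by omega) (by omega)
    · obtain ⟨rfl, rfl, h⟩ := h
      exact H.lw _ _ _ _ (by omega) (by omega) (by omega) (by omega) (by omega) (by omega)
    · obtain ⟨rfl, rfl, h⟩ := h
      exact H.lw _ _ _ _ (by omega) (by omega) (by omega) (by omega) (by omega) (by omega)
    · obtain ⟨rfl, rfl, h⟩ := h
      exact NHT.rIn hf H.T (t := 3) (p := 0) (j := 3) (by omega) (by omega) (by omega) (by omega) (by omega) (by omega) (by omega) (by omega)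
    · obtain ⟨rfl, rfl, rfl, rfl⟩ := h
      exact fun t => g3 (mv t (by omega) (by omega) (by omega) (by omega))

theorem s8_chk : check 4 4 4 5 0 1 0 1 0
    (fun j n p q => decide ((j = 4 ∧ n = 1 ∧ p = 1 ∧ q = 1)))
    (fun j n p q => decide ((j = 1 ∧ n = 2 ∧ q ≤ p + 1)
      ∨ (j = 1 ∧ n = 1 ∧ q ≤ p + 1)
      ∨ (j = 3 ∧ n = 1 ∧ q ≤ p + 3 ∧ p ≤ q + 0)
      ∨ (j = 2 ∧ n = 2 ∧ q ≤ p + 2 ∧ p + 1 ≤ q)
      ∨ (j = 3 ∧ n = 2 ∧ q ≤ p + 2 ∧ p + 1 ≤ q)
      ∨ (j = 4 ∧ n = 2 ∧ q ≤ p + 3 ∧ p ≤ q + 0)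
      ∨ (j = 4 ∧ n = 1 ∧ p = 1 ∧ q = 3)))
    28
    0x6a0300920000baca00ad0000ba8700ba0700b80700b78700b08700ae0700ad0f009287009007008f87008887008807008607008587006787005f87004207004187003f87003f07003807003787003587003507 = true := by
  decide +kernel

theorem s8 (hf : Rule f) {k c n M s : ℕ} (H : Q f k c n M)
    {c0 n0 : ℕ} (T0 : NHT f k c0 (2 * n0)) (hc0 : c = c0 + 4) (hn0 : n = n0 + (k + 2)) (hs : s % 2 = 0) (h1 : s + 8 ≤ 2 * M) (h2 : 2 * M + 4 ≤ s + 2 * k)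
    (g1 : f (6 * k + 2) (c - 4) (2 * M - 1) s) (g2 : ¬ f (6 * k + 2) (c - 4) (2 * M - 1) (s + 2)) : False := by
  have hk := H.T.hk
  have hc := H.T.hc
  have h4' := H.T.h4
  have hb := H.T.hb
  have hN := H.T.hN2
  have hM := H.hM
  have hM' := H.hM'
  have PO := H.PO
  have PI := H.PI
  obtain ⟨a0, ha0⟩ : ∃ z, z + 2 = 6 * k := ⟨6 * k - 2, by omega⟩
  obtain ⟨b0, hb0⟩ : ∃ z, z + 5 = c := ⟨c - 5, by omega⟩
  obtain ⟨x0, hx0⟩ : ∃ z, z + 2 = 2 * M := ⟨2 * M - 2, by omega⟩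
  obtain ⟨y0, hy0⟩ : ∃ z, z + 1 = s := ⟨s - 1, by omega⟩
  refine check_sound hf (a0 := a0) (b0 := b0) (x0 := x0) (y0 := y0) s8_chk
    ⟨fun h => absurd h (by decide), fun h => absurd h (by decide), fun h => absurd h (by decide), by omega, by omega,
      by omega, by omega⟩ ?_ ?_
  · intro j m p q hr h
    obtain ⟨-, -, -, -, hp1, hp2, hq1, hq2⟩ := hr
    replace h := of_decide_eq_true h
    obtain ⟨rfl, rfl, rfl, rfl⟩ := h
    exact mv g1 (by omega) (by omega) (by omega) (by omega)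
  · intro j m p q hr h
    obtain ⟨-, -, -, -, hp1, hp2, hq1, hq2⟩ := hr
    replace h := of_decide_eq_true h
    rcases h with h | h | h | h | h | h | h
    · obtain ⟨rfl, rfl, h⟩ := h
      exact H.lw _ _ _ _ (by omega) (by omega) (by omega) (by omega) (by omega) (by omega)
    · obtain ⟨rfl, rfl, h⟩ := h
      exact H.lw _ _ _ _ (by omega) (by omega) (by omega) (by omega) (by omega) (by omega)
    · obtain ⟨rfl, rfl, h⟩ := h
      exact NHT.pOut hf T0 (t := 4) (j := 3) (by omega) (by omega) (by omega) (by omega) (by omega) (by omega) (by omega)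
    · obtain ⟨rfl, rfl, h⟩ := h
      exact NHT.rOut hf T0 (t := 4) (p := 0) (j := 4) (by omega) (by omega) (by omega) (by omega) (by omega) (by omega) (by omega) (by omega)
    · obtain ⟨rfl, rfl, h⟩ := h
      exact NHT.rOut hf T0 (t := 4) (p := 1) (j := 4) (by omega) (by omega) (by omega) (by omega) (by omega) (by omega) (by omega) (by omega)
    · obtain ⟨rfl, rfl, h⟩ := h
      exact NHT.rOut hf T0 (t := 4) (p := 0) (j := 3) (by omega) (by omega) (by omega) (by omega) (by omega) (by omega) (by omega) (by omega)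
    · obtain ⟨rfl, rfl, rfl, rfl⟩ := h
      exact fun t => g2 (mv t (by omega) (by omega) (by omega) (by omega))

end Pool.Agent.SNT.L3S
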