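import Pool.Agent.SNT.LL0
import Pool.Agent.SNT.K0D

set_option autoImplicit false

/-! The in-lines `2 n + 1`, `2 n - 1` of `6 k + 4` in the row `c - 2`: the hypotheses of the near-wall windows (helper33). -/

namespace Pool.Agent.SNT.L4T

open Pool.Agent.SNT Pool.Agent.SNT.Loc Pool.Agent.SNT.LW Pool.Agent.SNT.NHZ

variable {f : ℕ → ℕ → ℕ → ℕ → Prop} {k c n : ℕ}

/-- The hypotheses of the windows: leads `(n + 1, n - 5, n - 7)`, and the inner facts of the row `c`. -/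
structure H (f : ℕ → ℕ → ℕ → ℕ → Prop) (k c n : ℕ) : Prop where
  T : NHT f k c (2 * n)
  U : NHU f k c (2 * n)
  hn : 12 * k + 100 ≤ n
  I : LineR0.In f (6 * k) c n (n + 2 - k) (n - 5) (n - 4)
  k10_0 : Cw f (6 * k + 10) c n
  k8_m2 : Cw f (6 * k + 8) (c - 2) (n - 3)
  k6_m4 : Cyc f (6 * k + 6) (c - 4) (2 * (n - 5) + 2)
  k4_m2 : Cyc f (6 * k + 4) (c - 2) (2 * (n + 1) + 2)
  k4_m6 : Cyc f (6 * k + 4) (c - 6) (2 * (n - k - 1) + 2)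
  k2_m4 : Cyc f (6 * k + 2) (c - 4) (2 * (n - 5) + 2)
  k2_m8 : Cyc f (6 * k + 2) (c - 8) (2 * (n - k - 7) + 2)
  k0_m6 : Cyc f (6 * k) (c - 6) (2 * (n - 7) + 2)
  lw : ∀ M R x y : ℕ, M + 1 = 6 * k → c ≤ R + 14 → R ≤ c + 12 → 2 * n ≤ x + 60 → y ≤ x → x ≤ y + 4 * k → ¬ f M R x y

theorem H.P1 (H : H f k c n) (hf : Rule f) {L R x y : ℕ} (hL : L = 6 * k + 1) (hR : R = c) (h1 : 2 * n ≤ x + 3)
    (h2 : x ≤ 2 * n + 1) (h3 : 2 * n + 3 ≤ y + 2 * k) (h4 : y + 7 ≤ 2 * n) : ¬ f L R x y := by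
  have hk := H.T.hk
  have hN := H.hn
  subst hL hR
  exact H.I.P1 hf h1 h2 (by omega) (by omega)

theorem H.P3 (H : L4T.H f k c n) (hf : Rule f) {L R x y : ℕ} (hL : L = 6 * k + 3) (hR : R = c) (h1 : 2 * n ≤ x + 1)
    (h2 : x ≤ 2 * n + 1) (h3 : 2 * n + 4 ≤ y + 2 * k) (h4 : y + 7 ≤ 2 * n) : ¬ f L R x y := by
  have hk := H.T.hk
  have hN := H.hn
  subst hL hR
  exact H.I.P3 hf h1 h2 (by omega) (by omega)

theorem H.P3' (H : L4T.H f k c n) (hf : Rule f) {L R x y : ℕ} (hL : L = 6 * k + 3) (hR : R = c) (h1 : 2 * n ≤ x + 3)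
    (h2 : x ≤ 2 * n + 1) (h3 : 2 * n + 4 ≤ y + 2 * k) (h5 : 2 * n ≤ x + 2 ∨ 2 * n + 6 ≤ y + 2 * k) (h4 : y + 9 ≤ 2 * n) :
    ¬ f L R x y := by
  have hk := H.T.hk
  have hN := H.hn
  subst hL hR
  exact H.I.P3' hf h1 h2 (by omega) (by omega) (by omega)

theorem H.P5 (H : L4T.H f k c n) (hf : Rule f) {L R x y : ℕ} (hL : L = 6 * k + 5) (hR : R = c) (h1 : 2 * n ≤ x)
    (h2 : x ≤ 2 * n + 1) (h3 : 2 * n + 5 ≤ y + 2 * k) (h4 : y + 7 ≤ 2 * n) : ¬ f L R x y := by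
  have hk := H.T.hk
  have hN := H.hn
  subst hL hR
  exact H.I.P5 hf h1 h2 (by omega) (by omega)

theorem H.P5' (H : L4T.H f k c n) (hf : Rule f) {L R x y : ℕ} (hL : L = 6 * k + 5) (hR : R = c) (h1 : 2 * n ≤ x + 2)
    (h2 : x ≤ 2 * n + 1) (h3 : 2 * n + 5 ≤ y + 2 * k) (h5 : 2 * n ≤ x + 1 ∨ 2 * n + 7 ≤ y + 2 * k) (h4 : y + 9 ≤ 2 * n) :
    ¬ f L R x y := by
  have hk := H.T.hk
  have hN := H.hn
  subst hL hR
  exact H.I.P5' hf h1 h2 (by omega) (by omega) (by omega)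

theorem H.P7 (H : L4T.H f k c n) (hf : Rule f) {L R x y : ℕ} (hL : L = 6 * k + 7) (hR : R = c) (h1 : 2 * n ≤ x + 1)
    (h2 : x ≤ 2 * n + 1) (h3 : 2 * n + 6 ≤ y + 2 * k) (h5 : 2 * n ≤ x ∨ 2 * n + 8 ≤ y + 2 * k) (h4 : y + 9 ≤ 2 * n) :
    ¬ f L R x y := by
  have hk := H.T.hk
  have hN := H.hn
  subst hL hR
  exact H.I.P7 hf h1 h2 (by omega) (by omega) (by omega)

theorem H.P9 (H : L4T.H f k c n) (hf : Rule f) {L R x y : ℕ} (hL : L = 6 * k + 9) (hR : R = c) (h1 : 2 * n ≤ x)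
    (h2 : x ≤ 2 * n + 1) (h3 : 2 * n + 7 ≤ y + 2 * k) (h5 : 2 * n + 1 ≤ x ∨ 2 * n + 9 ≤ y + 2 * k) (h4 : y + 9 ≤ 2 * n) :
    ¬ f L R x y := by
  have hk := H.T.hk
  have hN := H.hn
  subst hL hR
  exact H.I.P9 hf h1 h2 (by omega) (by omega) (by omega)

/-- no X-beam in the column `2 n + 1` of `6 k + 4` -/
theorem H.Y1 (H : L4T.H f k c n) (hf : Rule f) {L R x y : ℕ} (hL : L = 6 * k + 4) (hR : R = c) (hx : x = 2 * n + 1)
    (hy : y % 2 = 0) (h3 : 2 * n + 6 ≤ y + 2 * k) (h4 : y + 8 ≤ 2 * n) : ¬ f L R x y := by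
  have hk := H.T.hk
  have hN := H.hn
  have h := H.I.y4 hf (j := y / 2) (by omega) (by omega)
  unfold Sig.bY at h
  rw [show 2 * (y / 2) = y by omega] at h
  subst hL hR hx
  exact h

/-- no X-beam in the column `2 n - 1` of `6 k + 4` -/
theorem H.Y2 (H : L4T.H f k c n) (hf : Rule f) {L R x y : ℕ} (hL : L = 6 * k + 4) (hR : R = c) (hx : x + 1 = 2 * n)
    (hy : y % 2 = 0) (h3 : 2 * n + 6 ≤ y + 2 * k) (h4 : y + 10 ≤ 2 * n) : ¬ f L R x y := by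
  have hk := H.T.hk
  have hN := H.hn
  have h := H.I.y4' hf (i := n - 1) (j := y / 2) (by omega) (by omega) (by omega)
  unfold Sig.bY at h
  rw [show 2 * (y / 2) = y by omega, show 2 * (n - 1) + 1 = x by omega] at h
  subst hL hR
  exact h

/-- The hypotheses from a window and the window before. -/
theorem H.of {b m b' m' n' : ℕ} (hf : Rule f) (W : LRI.Win f k b m n) (W' : LRI.Win f k b' m' n') (hb : b = b' + 4)
    (hm : m = m' + (k + 2)) : L4T.H f k (b + 22) n := by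
  have I := W.inp hf W' hb hm
  have L := W.li hf
  obtain ⟨hs, S, hn, d0, d2, d4⟩ := W
  have hn' := W'.hn
  have hk := hs.1
  have hb4 : 100 * k + 1000 ≤ b := hs.2.2.2.1
  have hm2 : 2 * b ≤ m := hs.2.2.2.2
  exact {
    T := L.T
    U := by
      subst hn
      exact NHU.of_stack hs S
    hn := by omega
    I := I
    k10_0 := L.a10
    k8_m2 := L.a8
    k6_m4 := L.a6
    k4_m2 := L.a4
    k4_m6 := NW.cyc_mv W'.d4 rfl (by omega) (by omega)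
    k2_m4 := L.a2
    k2_m8 := NW.cyc_mv W'.d2 rfl (by omega) (by omega)
    k0_m6 := L.a0
    lw := L.lw }

/-- the beam hypothesis, in the flexible form -/
theorem nbf (nb : ∀ y : ℕ, y % 2 = 0 → 2 * n + 4 ≤ y + 2 * k → y + 2 ≤ 2 * n → ¬ f (6 * k + 4) c (2 * n + 3) y)
    {L R x y : ℕ} (hL : L = 6 * k + 4) (hR : R = c) (hx : x = 2 * n + 3) (hy : y % 2 = 0) (h1 : 2 * n + 4 ≤ y + 2 * k)
    (h2 : y + 2 ≤ 2 * n) : ¬ f L R x y := by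
  subst hL hR hx
  exact nb y hy h1 h2

end Pool.Agent.SNT.L4T
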