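import Pool.Agent.SNT.L4TH

set_option autoImplicit false

/-! The last window of the in-line `2 n - 1` of `6 k + 4` in the row `c - 2` (helper33). -/

namespace Pool.Agent.SNT.L4T

open Pool.Agent.SNT Pool.Agent.SNT.Loc Pool.Agent.SNT.LW Pool.Agent.SNT.NHZ

variable {f : ℕ → ℕ → ℕ → ℕ → Prop} {k c n : ℕ}

def w2mT (j n p q : ℕ) : Bool :=
  (((((decide (j = 2 ∧ n = 2 ∧ q ≤ p + 17 ∧ ((p + 4 > 0) ∨ (q ≤ p + 3) ∨ (p + 4 ≤ q ∧ q > 0)) ∧ (((p + q + 1) % 2 = 1 ∧ p + 3 < q ∧ (p) % 2 = 0) ∨ (q ≤ p + 4 ∧ (p + q) % 4 = 0)))) ||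
    (decide (j = 2 ∧ n = 3 ∧ q ≤ p + 17 ∧ ((p + 2 > 0) ∨ (p + 4 ≤ q ∧ q > 2)) ∧ (q ≤ p + 3 ∧ (p + q + 1) % 4 = 0)))) ||
    (decide (j = 2 ∧ n = 4 ∧ q ≤ p + 17 ∧ p > 0 ∧ (((p + q + 1) % 2 = 1 ∧ p + 3 < q ∧ (p) % 2 = 1) ∨ (q ≤ p + 4 ∧ (p + q + 2) % 4 = 0))))) ||
    ((decide (j = 2 ∧ n = 5 ∧ q ≤ p + 17 ∧ ((p > 2) ∨ (p + 3 ≤ q ∧ p > 1)) ∧ (q ≤ p + 3 ∧ (p + q + 3) % 4 = 0))) ||
    (decide (j = 2 ∧ n = 6 ∧ q ≤ p + 17 ∧ q ≤ p + 3 ∧ p > 4 ∧ (((p + q + 1) % 2 = 1 ∧ p + 3 < q ∧ (p) % 2 = 0) ∨ (q ≤ p + 4 ∧ (p + q) % 4 = 0)))))) ||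
    (((decide (j = 4 ∧ n = 1 ∧ q ≤ p + 17 ∧ ((p + 6 > 0) ∨ (p + 4 ≤ q ∧ q + 2 > 0)) ∧ (q ≤ p + 3 ∧ (p + q + 1) % 4 = 0))) ||
    (decide (j = 4 ∧ n = 2 ∧ q ≤ p + 17 ∧ p + 4 > 0 ∧ (((p + q + 1) % 2 = 1 ∧ p + 3 < q ∧ (p) % 2 = 1) ∨ (q ≤ p + 4 ∧ (p + q + 2) % 4 = 0))))) ||
    ((decide (j = 4 ∧ n = 3 ∧ q ≤ p + 17 ∧ ((p + 2 > 0) ∨ (p + 3 ≤ q ∧ p + 3 > 0)) ∧ (q ≤ p + 3 ∧ (p + q + 3) % 4 = 0))) ||
    (decide (j = 4 ∧ n = 4 ∧ q ≤ p + 17 ∧ q ≤ p + 3 ∧ p > 0 ∧ (((p + q + 1) % 2 = 1 ∧ p + 3 < q ∧ (p) % 2 = 0) ∨ (q ≤ p + 4 ∧ (p + q) % 4 = 0))))))) ||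
    ((((decide (j = 6 ∧ n = 1 ∧ q ≤ p + 17 ∧ (q ≤ p + 3 ∧ (p + q + 3) % 4 = 0))) ||
    (decide (j = 6 ∧ n = 2 ∧ q ≤ p + 17 ∧ ((p > 4) ∨ (q ≤ p + 3) ∨ (p + 4 ≤ q ∧ q > 8)) ∧ (((p + q + 1) % 2 = 1 ∧ p + 3 < q ∧ (p) % 2 = 0) ∨ (q ≤ p + 4 ∧ (p + q) % 4 = 0))))) ||
    ((decide (j = 8 ∧ n = 2 ∧ q ≤ p + 17 ∧ p + 4 > 0 ∧ (((p + q + 1) % 2 = 1 ∧ p + 1 < q ∧ (p) % 2 = 1) ∨ (q ≤ p + 2 ∧ (p + q + 2) % 4 = 2)))) ||
    (decide (j = 8 ∧ n = 3 ∧ q ≤ p + 17 ∧ ((p + 2 > 0) ∨ (p + 1 ≤ q ∧ p + 3 > 0)) ∧ (q ≤ p + 1 ∧ (p + q + 3) % 4 = 2))))) ||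
    (((decide (j = 10 ∧ n = 4 ∧ q ≤ p + 17 ∧ ((p > 0 ∧ p + 4 ≤ q) ∨ (p > 2)) ∧ (((p + q + 1) % 2 = 1 ∧ p + 1 < q ∧ (p) % 2 = 1) ∨ (q ≤ p + 2 ∧ (p + q + 2) % 4 = 2)))) ||
    (decide (j = 10 ∧ n = 5 ∧ q ≤ p + 17 ∧ ((p > 1 ∧ p + 4 ≤ q) ∨ (p > 4)) ∧ (q ≤ p + 1 ∧ (p + q + 3) % 4 = 2)))) ||
    ((decide (j = 12 ∧ n = 6 ∧ q ≤ p + 17 ∧ ((p > 6 ∧ p + 4 ≤ q) ∨ (p > 8)) ∧ (((p + q + 1) % 2 = 1 ∧ p + 1 < q ∧ (p) % 2 = 1) ∨ (q ≤ p + 2 ∧ (p + q + 2) % 4 = 2)))) ||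
    (decide (j = 8 ∧ n = 4 ∧ p = 2 ∧ q = 8)))))

def w2mF (j n p q : ℕ) : Bool :=
  ((((((decide (j = 2 ∧ n = 5 ∧ q ≤ p + 17 ∧ ((p > 2) ∨ (p + 3 ≤ q ∧ p > 1)) ∧ ¬ (q ≤ p + 3 ∧ (p + q + 3) % 4 = 0))) ||
    (decide (j = 4 ∧ n = 3 ∧ q ≤ p + 17 ∧ ((p + 2 > 0) ∨ (p + 3 ≤ q ∧ p + 3 > 0)) ∧ ¬ (q ≤ p + 3 ∧ (p + q + 3) % 4 = 0)))) ||
    (decide (j = 4 ∧ n = 4 ∧ q ≤ p + 17 ∧ q ≤ p + 3 ∧ p > 0 ∧ ¬ (((p + q + 1) % 2 = 1 ∧ p + 3 < q ∧ (p) % 2 = 0) ∨ (q ≤ p + 4 ∧ (p + q) % 4 = 0))))) ||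
    ((decide (j = 6 ∧ n = 1 ∧ q ≤ p + 17 ∧ ¬ (q ≤ p + 3 ∧ (p + q + 3) % 4 = 0))) ||
    (decide (j = 6 ∧ n = 2 ∧ q ≤ p + 17 ∧ ((p > 4) ∨ (q ≤ p + 3) ∨ (p + 4 ≤ q ∧ q > 8)) ∧ ¬ (((p + q + 1) % 2 = 1 ∧ p + 3 < q ∧ (p) % 2 = 0) ∨ (q ≤ p + 4 ∧ (p + q) % 4 = 0)))))) ||
    (((decide (j = 6 ∧ n = 3 ∧ q ≤ p + 17 ∧ ((p > 6) ∨ (p + 4 ≤ q ∧ q > 10)) ∧ ¬ (q ≤ p + 3 ∧ (p + q + 1) % 4 = 0))) ||
    (decide (j = 8 ∧ n = 3 ∧ q ≤ p + 17 ∧ ((p + 2 > 0) ∨ (p + 1 ≤ q ∧ p + 3 > 0)) ∧ ¬ (q ≤ p + 1 ∧ (p + q + 3) % 4 = 2)))) ||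
    ((decide (j = 10 ∧ n = 5 ∧ q ≤ p + 17 ∧ ((p > 1 ∧ p + 4 ≤ q) ∨ (p > 4)) ∧ ¬ (q ≤ p + 1 ∧ (p + q + 3) % 4 = 2))) ||
    (decide (j = 3 ∧ n = 4 ∧ p + 8 ≤ q ∧ q ≤ p + 15))))) ||
    (((((decide (j = 4 ∧ n = 5 ∧ p + 8 ≤ q ∧ q ≤ p + 15)) ||
    (decide (j = 6 ∧ n = 3 ∧ p + 6 ≤ q ∧ q ≤ p + 17))) ||
    (decide (j = 6 ∧ n = 5 ∧ p + 7 ≤ q ∧ q ≤ p + 16))) ||
    ((decide (j = 7 ∧ n = 1 ∧ p + 3 ≤ q ∧ q ≤ p + 18)) ||
    (decide (j = 7 ∧ n = 2 ∧ p + 3 ≤ q ∧ q ≤ p + 18)))) ||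
    (((decide (j = 7 ∧ n = 3 ∧ p ≥ 2 ∧ p + 4 ≤ q ∧ q ≤ p + 17)) ||
    (decide (j = 7 ∧ n = 4 ∧ p ≥ 2 ∧ p + 4 ≤ q ∧ q ≤ p + 17))) ||
    ((decide (j = 7 ∧ n = 5 ∧ p + 7 ≤ q ∧ q ≤ p + 16)) ||
    (decide (j = 7 ∧ n = 6 ∧ p ≥ 6 ∧ p + 7 ≤ q ∧ q ≤ p + 16)))))) ||
    ((((((decide (j = 8 ∧ n = 5 ∧ p + 6 ≤ q ∧ q ≤ p + 17)) ||
    (decide (j = 9 ∧ n = 3 ∧ p + 5 ≤ q ∧ q ≤ p + 18))) ||
    (decide (j = 9 ∧ n = 3 ∧ p ≥ 2 ∧ p + 3 ≤ q ∧ q ≤ p + 18))) ||
    ((decide (j = 9 ∧ n = 4 ∧ p + 5 ≤ q ∧ q ≤ p + 18)) ||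
    (decide (j = 9 ∧ n = 4 ∧ p ≥ 2 ∧ p + 3 ≤ q ∧ q ≤ p + 18)))) ||
    (((decide (j = 9 ∧ n = 5 ∧ p + 6 ≤ q ∧ q ≤ p + 17)) ||
    (decide (j = 9 ∧ n = 6 ∧ p ≥ 6 ∧ p + 6 ≤ q ∧ q ≤ p + 17))) ||
    ((decide (j = 11 ∧ n = 5 ∧ p + 5 ≤ q ∧ q ≤ p + 18)) ||
    (decide (j = 11 ∧ n = 5 ∧ p ≥ 8 ∧ p + 3 ≤ q ∧ q ≤ p + 18))))) ||
    ((((decide (j = 11 ∧ n = 6 ∧ p ≥ 6 ∧ p + 5 ≤ q ∧ q ≤ p + 18)) ||
    (decide (j = 11 ∧ n = 6 ∧ p ≥ 8 ∧ p + 3 ≤ q ∧ q ≤ p + 18))) ||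
    ((decide (j = 3 ∧ n = 6 ∧ p ≤ 5 ∧ q ≥ 10)) ||
    (decide (j = 5 ∧ n = 6 ∧ p ≥ 3 ∧ p ≤ 5 ∧ q ≥ 11)))) ||
    (((decide (j = 7 ∧ n = 6 ∧ p ≥ 4 ∧ p ≤ 5 ∧ q ≥ 12)) ||
    (decide (j = 6 ∧ n = 6 ∧ p = 5 ∧ q ≥ 13 ∧ q ≤ 15 ∧ q % 2 = 1))) ||
    ((decide (j = 1 ∧ q ≤ p + 17)) ||
    (decide (j = 6 ∧ n = 4 ∧ p = 3 ∧ q = 11))))))

theorem w2m_chk : check 12 8 11 15 0 0 0 1 0 w2mT w2mF
    674
    0x13798310dd001378d210898010911210eb8010f31213798310dd001378d210898010911212cb83108a001378fa10dc0013704210810013154213800310ec801388da142d8310ec00138042142d83113e80113e81109980109984142c83142d00142d04113e8313d28013d284142c83142580142584142c8311890010ec0011911a113ea2119900119904113e83113f0011922a0ef5800ef584142c8311890010ec0011911a113ea2119180119184195d83142d80142d84195d83142d80142d8110ec00113ea2119100119104142e83119200119204113e8313d30013d30411920314260014260418b783190a80190a841e8d03195d80195d840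bc4830eab800eab84113e831146801146840c16830eaa800eaa841e8d03195d00195d040c62030ef6000ef60407318309c60009c60410ed0010ed040c69830efd800efd840c10030ea4000ea40418b003190280195cb2142c80142c8407390309cd8009cd840bbc030e50800e50841e8583195580195584113d80113d8110db8013704a10dc801378da12cb83108a00108a0413890313db8013db841e8c03195c80195c841079801079840bc4830c17000c170418b003166e80166e840bbc030e50000e50040bc4830eab000eab04189f03136f80136f841378831082001082041e8c03195c00195c0418b78316768016768413798310dd0010dd040c0f830ea3800ea38418b003166f00166f040c0e030ef5000ef50418b783190a00190a040bbc030ea3000ea30412cb83108a001378fa1137001137041e84831955001955040c0e030c0e800c0e841624831677001677040c0e030ea2800ea28418b78316760016760413800310f40010f40410910010910410a10310f4001388ca13d38013d38418b003190300190304142e83113f80113f841e84831bf1001bf1041e7c031e7c801e7c8410f30010f3040c0e030ea2000ea20407390309cd000c68d20efc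800efc84137983113780113784189083130d80130d8410f30311460011460413888313db0013db041e7c031e7c801e849a19548019548412d303109200109204162483190b00190b04189783131500131504161b0010ea0018af42160c0010980010ea01108f001088000c15002128002119001b9d001b8d001b4c001b4b001b3c001b3b0018a0ca15fd0015d00015c00015b000157e00156e00155e00104f00104600104000109801103d00103600108f01103400108801102d001026000fe4000fd4000bc3000c15010bba000bb3000b78000b71000b6f000b68000b61000b5f000b58000b26000b1f000b1d000b16000b14000b0f000b0d000b06000ad4000acb000ac4000ac2000abb000ab4000ab2000aab0007400006ee0006e50006de00069c00069a00069300068e00068d00068c0006480006410006380006310005f00005ef0005e00005df0021280f21190f1e8d071e8c871e85871e7e071e7d871e3a871e3a071e33071e2b871e2b071bf8871bf7871be9871be8871be7871ba6871ba6071ba5871ba5071b9f071b9e871b9e071b9d871b9d0f1b97871b97071b96871b96071b95871b95071b8e071b8d871b8d0f1b4c0f1b4b0f1b3c0f1b3b0f1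9560719038718b78718b00718af8718a88718a80718a78718a08718a007189907189887189787189087189007188f87188907188887186507185d87185d07185607185587185507184e07184d87184687184607184507183e07183d87183d0718368718360716c18716c087166f87161c87161b87161a87160c87160a8715fd0f15fc8715fb8715d20715d18715d10715d08715d00f15ca8715ca0715c98715c90715c88715c80715c20715c18715c10715c08715c00f15ba0715b98715b88715b80715b28715b20715b10715b08715b00f15aa0715a98715a90715a28715a207157e0f156e0f155e0f142e8714270714268713dc0713d48713d407139087139007138907138887138807138187138107138087138007137987137907137887137807137207137187137107137087137007136887136807133e07133d87133687133607133587132f07132e87132e07132d87132707132687132607132587131f87131f07131e87131e07131d8713160713158712d30712d28712cb8712cb0712c40712c38712c28712bb0712ba87128087128007127907127887127187127107119a87119987119887119307118a8711898711480711408711400711380710f4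8710f28710e58710e48710e38710e28710de0710d48710a28710a207109b07109a87109307109287108b87108b07108a87104f0f104e87104e0710470710468710460f10458710450710400f103e87103e07103d87103d0f103c87103c0710368710360f10358710350710348710340f102f87102e87102e07102d87102d0f10268710260f0fec870fec070fe5070fe4870fe40f0fdd870fdd070fd40f0efe070ef6870c61870c60870c08870bc3870bc30f0bc2870bc2070bbd870bbc870bbb870bbb070bba870bba0f0bb3870bb30f0b780f0b72070b71870b710f0b6f0f0b6a870b6a070b69870b69070b680f0b62070b61870b610f0b5f0f0b580f0b260f0b1f0f0b1d0f0b160f0b140f0b0f0f0b0d0f0b060f0ad40f0acb0f0ac40f0ac20f0abb0f0ab40f0ab20f0aab0f09d58709ce0709c68709220707400f07388707298706ee0f06e68706e60706e50f06df0706de8706de0f06d78706d707069c0f069a0f06930f068e0f068d0f068c0f06480f06410f06380f06310f05f00f05ef0f05e00f05df0f04a50704a487049d87049d07049607049587045287045207044b07044a87044387044307 = true := by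
  decide +kernel

/-- The in-line `2 n - 1` of `6 k + 4` missing, the OUT-line `2 n - 2 k + 1` of `6 k + 6` in the row `c - 2` present: impossible (lead `n - k - 5` of `6 k`). -/
theorem w2m (hf : Rule f) (H : L4T.H f k c n)
    (r6 : Cyc f (6 * k) (c - 6) (2 * (n - k - 5) + 2)) (r2 : Cyc f (6 * k) (c - 2) (2 * (n - 3) + 2))
    (g1 : ¬ f (6 * k + 4) (c - 2) (2 * n - 1) (2 * n - 2 * k + 4))
    (g2 : f (6 * k + 6) (c - 2) (2 * n - 2) (2 * n - 2 * k + 1)) :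
    False := by
  have hk := H.T.hk
  have hc := H.T.hc
  have h4 := H.T.h4
  have hb := H.T.hb
  have hN2 := H.T.hN2
  obtain ⟨a0, ha0⟩ : ∃ a0, a0 + 2 = 6 * k := ⟨6 * k - 2, by omega⟩
  obtain ⟨b0, hb0⟩ : ∃ b0, b0 + 6 = c := ⟨c - 6, by omega⟩
  obtain ⟨x0, hx0⟩ : ∃ x0, x0 + 4 = 2 * n := ⟨2 * n - 4, by omega⟩
  obtain ⟨y0, hy0⟩ : ∃ y0, y0 + 7 = 2 * n - 2 * k := ⟨2 * n - 2 * k - 7, by omega⟩
  refine check_sound hf (a0 := a0) (b0 := b0) (x0 := x0) (y0 := y0) w2m_chk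
    ⟨fun h => absurd h (by decide), fun h => absurd h (by decide), fun h => absurd h (by decide),
      by omega, by omega, by omega, by omega⟩ ?_ ?_
  · intro j m p q hr h
    obtain ⟨-, -, hn1, hn2, hp1, hp2, hq1, hq2⟩ := hr
    unfold w2mT at h
    simp only [Bool.or_eq_true, decide_eq_true_eq] at h
    rcases h with ((((h | h) | h) | (h | h)) | ((h | h) | (h | h))) | (((h | h) | (h | h)) | ((h | h) | (h | h)))
    · obtain ⟨⟨rfl, rfl, h1⟩, h2⟩ := h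
      exact (WrapC.v2 r6 (by omega) (by omega) (by omega) (by omega) (by omega) (by omega) (by omega)).mpr (by omega)
    · obtain ⟨⟨rfl, rfl, h1⟩, h2⟩ := h
      exact (WrapC.v3 r6 (by omega) (by omega) (by omega) (by omega) (by omega) (by omega) (by omega) (by omega)).mpr (by omega)
    · obtain ⟨⟨rfl, rfl, h1⟩, h2⟩ := h
      exact (WrapC.v0 r2 (by omega) (by omega) (by omega) (by omega) (by omega) (by omega) (by omega)).mpr (by omega)
    · obtain ⟨⟨rfl, rfl, h1⟩, h2⟩ := h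
      exact (WrapC.v1 r2 (by omega) (by omega) (by omega) (by omega) (by omega) (by omega) (by omega) (by omega)).mpr (by omega)
    · obtain ⟨⟨rfl, rfl, h1⟩, h2⟩ := h
      exact (WrapC.v2 r2 (by omega) (by omega) (by omega) (by omega) (by omega) (by omega) (by omega)).mpr (by omega)
    · obtain ⟨⟨rfl, rfl, h1⟩, h2⟩ := h
      exact (WrapC.v3 H.k2_m8 (by omega) (by omega) (by omega) (by omega) (by omega) (by omega) (by omega) (by omega)).mpr (by omega)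
    · obtain ⟨⟨rfl, rfl, h1⟩, h2⟩ := h
      exact (WrapC.v0 H.k2_m4 (by omega) (by omega) (by omega) (by omega) (by omega) (by omega) (by omega)).mpr (by omega)
    · obtain ⟨⟨rfl, rfl, h1⟩, h2⟩ := h
      exact (WrapC.v1 H.k2_m4 (by omega) (by omega) (by omega) (by omega) (by omega) (by omega) (by omega) (by omega)).mpr (by omega)
    · obtain ⟨⟨rfl, rfl, h1⟩, h2⟩ := h
      exact (WrapC.v2 H.k2_m4 (by omega) (by omega) (by omega) (by omega) (by omega) (by omega) (by omega)).mpr (by omega)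
    · obtain ⟨⟨rfl, rfl, h1⟩, h2⟩ := h
      exact (WrapC.v1 H.k4_m6 (by omega) (by omega) (by omega) (by omega) (by omega) (by omega) (by omega) (by omega)).mpr (by omega)
    · obtain ⟨⟨rfl, rfl, h1⟩, h2⟩ := h
      exact (WrapC.v2 H.k4_m6 (by omega) (by omega) (by omega) (by omega) (by omega) (by omega) (by omega)).mpr (by omega)
    · obtain ⟨⟨rfl, rfl, h1⟩, h2⟩ := h
      exact (WrapC.v0 H.k6_m4 (by omega) (by omega) (by omega) (by omega) (by omega) (by omega) (by omega)).mpr (by omega)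
    · obtain ⟨⟨rfl, rfl, h1⟩, h2⟩ := h
      exact (WrapC.v1 H.k6_m4 (by omega) (by omega) (by omega) (by omega) (by omega) (by omega) (by omega) (by omega)).mpr (by omega)
    · obtain ⟨⟨rfl, rfl, h1⟩, h2⟩ := h
      exact (NW.w0v H.k8_m2 (by omega) (by omega) (by omega) (by omega) (by omega) (by omega) (by omega)).mpr (by omega)
    · obtain ⟨⟨rfl, rfl, h1⟩, h2⟩ := h
      exact (NW.w1v H.k8_m2 (by omega) (by omega) (by omega) (by omega) (by omega) (by omega) (by omega) (by omega)).mpr (by omega)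
    · obtain ⟨⟨rfl, rfl, h1⟩, h2⟩ := h
      exact (NW.w0v H.k10_0 (by omega) (by omega) (by omega) (by omega) (by omega) (by omega) (by omega)).mpr (by omega)
    · obtain ⟨rfl, rfl, rfl, rfl⟩ := h
      exact mv g2 (by omega) (by omega) (by omega) (by omega)
  · intro j m p q hr h
    obtain ⟨-, -, hn1, hn2, hp1, hp2, hq1, hq2⟩ := hr
    unfold w2mF at h
    simp only [Bool.or_eq_true, decide_eq_true_eq] at h
    rcases h with (((((h | h) | h) | (h | h)) | ((h | h) | (h | h))) | ((((h | h) | h) | (h | h)) | ((h | h) | (h | h)))) | (((((h | h) | h) | (h | h)) | ((h | h) | (h | h))) | (((h | h) | (h | h)) | ((h | h) | (h | h))))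
    · obtain ⟨⟨rfl, rfl, h1⟩, h2⟩ := h
      exact mt (WrapC.v1 r2 (by omega) (by omega) (by omega) (by omega) (by omega) (by omega) (by omega) (by omega)).mp (by omega)
    · obtain ⟨⟨rfl, rfl, h1⟩, h2⟩ := h
      exact mt (WrapC.v1 H.k2_m4 (by omega) (by omega) (by omega) (by omega) (by omega) (by omega) (by omega) (by omega)).mp (by omega)
    · obtain ⟨⟨rfl, rfl, h1⟩, h2⟩ := h
      exact mt (WrapC.v2 H.k2_m4 (by omega) (by omega) (by omega) (by omega) (by omega) (by omega) (by omega)).mp (by omega)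
    · obtain ⟨⟨rfl, rfl, h1⟩, h2⟩ := h
      exact mt (WrapC.v1 H.k4_m6 (by omega) (by omega) (by omega) (by omega) (by omega) (by omega) (by omega) (by omega)).mp (by omega)
    · obtain ⟨⟨rfl, rfl, h1⟩, h2⟩ := h
      exact mt (WrapC.v2 H.k4_m6 (by omega) (by omega) (by omega) (by omega) (by omega) (by omega) (by omega)).mp (by omega)
    · obtain ⟨⟨rfl, rfl, h1⟩, h2⟩ := h
      exact mt (WrapC.v3 H.k4_m6 (by omega) (by omega) (by omega) (by omega) (by omega) (by omega) (by omega) (by omega)).mp (by omega)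
    · obtain ⟨⟨rfl, rfl, h1⟩, h2⟩ := h
      exact mt (WrapC.v1 H.k6_m4 (by omega) (by omega) (by omega) (by omega) (by omega) (by omega) (by omega) (by omega)).mp (by omega)
    · obtain ⟨⟨rfl, rfl, h1⟩, h2⟩ := h
      exact mt (NW.w1v H.k8_m2 (by omega) (by omega) (by omega) (by omega) (by omega) (by omega) (by omega) (by omega)).mp (by omega)
    · obtain ⟨rfl, rfl, h1⟩ := h
      exact NHT.pIn hf H.T (t := 4) (j := 3) (by omega) (by omega) (by omega) (by omega) (by omega) (by omega) (by omega)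
    · obtain ⟨rfl, rfl, h1⟩ := h
      exact NHT.rIn hf H.T (t := 4) (j := 3) (p := 0) (by omega) (by omega) (by omega) (by omega) (by omega) (by omega) (by omega) (by omega)
    · obtain ⟨rfl, rfl, h1⟩ := h
      exact NHT.rIn hf H.T (t := 3) (j := 1) (p := 0) (by omega) (by omega) (by omega) (by omega) (by omega) (by omega) (by omega) (by omega)
    · obtain ⟨rfl, rfl, h1⟩ := h
      exact NHT.rIn hf H.T (t := 4) (j := 2) (p := 0) (by omega) (by omega) (by omega) (by omega) (by omega) (by omega) (by omega) (by omega)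
    · obtain ⟨rfl, rfl, h1⟩ := h
      exact K0D.nhu_pmmi hf H.U (by omega) (by omega) (by omega) (by omega) (by omega)
    · obtain ⟨rfl, rfl, h1⟩ := h
      exact K0D.nhu_pmmi hf H.U (by omega) (by omega) (by omega) (by omega) (by omega)
    · obtain ⟨rfl, rfl, h1⟩ := h
      exact NHU.pmi hf H.U (j := 1) (by omega) (by omega) (by omega) (by omega) (by omega) (by omega)
    · obtain ⟨rfl, rfl, h1⟩ := h
      exact NHU.pmi hf H.U (j := 1) (by omega) (by omega) (by omega) (by omega) (by omega) (by omega)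
    · obtain ⟨rfl, rfl, h1⟩ := h
      exact NHT.rIn hf H.T (t := 4) (j := 2) (p := 1) (by omega) (by omega) (by omega) (by omega) (by omega) (by omega) (by omega) (by omega)
    · obtain ⟨rfl, rfl, h1⟩ := h
      exact NHT.p0i hf H.T (j := 2) (by omega) (by omega) (by omega) (by omega) (by omega) (by omega)
    · obtain ⟨rfl, rfl, h1⟩ := h
      exact NHT.rIn hf H.T (t := 4) (j := 1) (p := 0) (by omega) (by omega) (by omega) (by omega) (by omega) (by omega) (by omega) (by omega)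
    · obtain ⟨rfl, rfl, h1⟩ := h
      exact NHT.rIn hf H.T (t := 3) (j := 0) (p := 1) (by omega) (by omega) (by omega) (by omega) (by omega) (by omega) (by omega) (by omega)
    · obtain ⟨rfl, rfl, h1⟩ := h
      exact NHU.pmi hf H.U (j := 0) (by omega) (by omega) (by omega) (by omega) (by omega) (by omega)
    · obtain ⟨rfl, rfl, h1⟩ := h
      exact NHT.pIn hf H.T (t := 4) (j := 0) (by omega) (by omega) (by omega) (by omega) (by omega) (by omega) (by omega)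
    · obtain ⟨rfl, rfl, h1⟩ := h
      exact NHU.pmi hf H.U (j := 0) (by omega) (by omega) (by omega) (by omega) (by omega) (by omega)
    · obtain ⟨rfl, rfl, h1⟩ := h
      exact NHT.rIn hf H.T (t := 4) (j := 1) (p := 1) (by omega) (by omega) (by omega) (by omega) (by omega) (by omega) (by omega) (by omega)
    · obtain ⟨rfl, rfl, h1⟩ := h
      exact NHT.p0i hf H.T (j := 1) (by omega) (by omega) (by omega) (by omega) (by omega) (by omega)
    · obtain ⟨rfl, rfl, h1⟩ := h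
      exact NHT.rIn hf H.T (t := 4) (j := 0) (p := 1) (by omega) (by omega) (by omega) (by omega) (by omega) (by omega) (by omega) (by omega)
    · obtain ⟨rfl, rfl, h1⟩ := h
      exact NHU.p0i hf H.U (j := 0) (by omega) (by omega) (by omega) (by omega) (by omega) (by omega)
    · obtain ⟨rfl, rfl, h1⟩ := h
      exact NHT.p0i hf H.T (j := 0) (by omega) (by omega) (by omega) (by omega) (by omega) (by omega)
    · obtain ⟨rfl, rfl, h1⟩ := h
      exact NHU.p0i hf H.U (j := 0) (by omega) (by omega) (by omega) (by omega) (by omega) (by omega)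
    · obtain ⟨rfl, rfl, h1⟩ := h
      exact H.P1 hf (by omega) (by omega) (by omega) (by omega) (by omega) (by omega)
    · obtain ⟨rfl, rfl, h1⟩ := h
      exact H.P3 hf (by omega) (by omega) (by omega) (by omega) (by omega) (by omega)
    · obtain ⟨rfl, rfl, h1⟩ := h
      exact H.P5 hf (by omega) (by omega) (by omega) (by omega) (by omega) (by omega)
    · obtain ⟨rfl, rfl, rfl, h1⟩ := h
      exact H.Y1 hf (by omega) (by omega) (by omega) (by omega) (by omega) (by omega)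
    · obtain ⟨rfl, h1⟩ := h
      exact H.lw _ _ _ _ (by omega) (by omega) (by omega) (by omega) (by omega) (by omega)
    · obtain ⟨rfl, rfl, rfl, rfl⟩ := h
      exact fun h2 => g1 (mv h2 (by omega) (by omega) (by omega) (by omega))

end Pool.Agent.SNT.L4T
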