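import Pool.Agent.SNT.L4TH

set_option autoImplicit false

/-! The third window of the in-line `2 n - 1` of `6 k + 4` in the row `c - 2` (helper33). -/

namespace Pool.Agent.SNT.L4T

open Pool.Agent.SNT Pool.Agent.SNT.Loc Pool.Agent.SNT.LW Pool.Agent.SNT.NHZ

variable {f : ℕ → ℕ → ℕ → ℕ → Prop} {k c n : ℕ}

def w3mT (j n p q : ℕ) : Bool :=
  ((((decide (j = 2 ∧ n = 2 ∧ q ≤ p + 17 ∧ ((p + 4 > 0) ∨ (q ≤ p + 3) ∨ (p + 4 ≤ q ∧ q > 0)) ∧ (((p + q + 1) % 2 = 1 ∧ p + 3 < q ∧ (p) % 2 = 0) ∨ (q ≤ p + 4 ∧ (p + q) % 4 = 0)))) ||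
    (decide (j = 2 ∧ n = 3 ∧ q ≤ p + 17 ∧ ((p + 2 > 0) ∨ (p + 4 ≤ q ∧ q > 2)) ∧ (q ≤ p + 3 ∧ (p + q + 1) % 4 = 0)))) ||
    ((decide (j = 2 ∧ n = 4 ∧ q ≤ p + 17 ∧ p > 0 ∧ (((p + q + 1) % 2 = 1 ∧ p + 3 < q ∧ (p) % 2 = 1) ∨ (q ≤ p + 4 ∧ (p + q + 2) % 4 = 0)))) ||
    (decide (j = 2 ∧ n = 5 ∧ q ≤ p + 17 ∧ ((p > 2) ∨ (p + 3 ≤ q ∧ p > 1)) ∧ (q ≤ p + 3 ∧ (p + q + 3) % 4 = 0))))) ||
    (((decide (j = 2 ∧ n = 6 ∧ q ≤ p + 17 ∧ q ≤ p + 3 ∧ p > 4 ∧ (((p + q + 1) % 2 = 1 ∧ p + 3 < q ∧ (p) % 2 = 0) ∨ (q ≤ p + 4 ∧ (p + q) % 4 = 0)))) ||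
    (decide (j = 4 ∧ n = 1 ∧ q ≤ p + 17 ∧ ((p + 6 > 0) ∨ (p + 4 ≤ q ∧ q + 2 > 0)) ∧ (q ≤ p + 3 ∧ (p + q + 1) % 4 = 0)))) ||
    ((decide (j = 4 ∧ n = 2 ∧ q ≤ p + 17 ∧ p + 4 > 0 ∧ (((p + q + 1) % 2 = 1 ∧ p + 3 < q ∧ (p) % 2 = 1) ∨ (q ≤ p + 4 ∧ (p + q + 2) % 4 = 0)))) ||
    (decide (j = 4 ∧ n = 3 ∧ q ≤ p + 17 ∧ ((p + 2 > 0) ∨ (p + 3 ≤ q ∧ p + 3 > 0)) ∧ (q ≤ p + 3 ∧ (p + q + 3) % 4 = 0)))))) ||
    ((((decide (j = 4 ∧ n = 4 ∧ q ≤ p + 17 ∧ q ≤ p + 3 ∧ p > 0 ∧ (((p + q + 1) % 2 = 1 ∧ p + 3 < q ∧ (p) % 2 = 0) ∨ (q ≤ p + 4 ∧ (p + q) % 4 = 0)))) ||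
    (decide (j = 6 ∧ n = 1 ∧ q ≤ p + 17 ∧ (q ≤ p + 3 ∧ (p + q + 3) % 4 = 0)))) ||
    ((decide (j = 6 ∧ n = 2 ∧ q ≤ p + 17 ∧ ((p > 4) ∨ (q ≤ p + 3) ∨ (p + 4 ≤ q ∧ q > 8)) ∧ (((p + q + 1) % 2 = 1 ∧ p + 3 < q ∧ (p) % 2 = 0) ∨ (q ≤ p + 4 ∧ (p + q) % 4 = 0)))) ||
    (decide (j = 6 ∧ n = 3 ∧ q ≤ p + 17 ∧ ((p > 6) ∨ (p + 4 ≤ q ∧ q > 10)) ∧ (q ≤ p + 3 ∧ (p + q + 1) % 4 = 0))))) ||
    (((decide (j = 8 ∧ n = 2 ∧ q ≤ p + 17 ∧ p + 4 > 0 ∧ (((p + q + 1) % 2 = 1 ∧ p + 1 < q ∧ (p) % 2 = 1) ∨ (q ≤ p + 2 ∧ (p + q + 2) % 4 = 2)))) ||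
    (decide (j = 8 ∧ n = 3 ∧ q ≤ p + 17 ∧ ((p + 2 > 0) ∨ (p + 1 ≤ q ∧ p + 3 > 0)) ∧ (q ≤ p + 1 ∧ (p + q + 3) % 4 = 2)))) ||
    (decide (j = 10 ∧ n = 4 ∧ q ≤ p + 17 ∧ ((p > 0 ∧ p + 4 ≤ q) ∨ (p > 2)) ∧ (((p + q + 1) % 2 = 1 ∧ p + 1 < q ∧ (p) % 2 = 1) ∨ (q ≤ p + 2 ∧ (p + q + 2) % 4 = 2))))))

def w3mF (j n p q : ℕ) : Bool :=
  ((((((decide (j = 2 ∧ n = 5 ∧ q ≤ p + 17 ∧ ((p > 2) ∨ (p + 3 ≤ q ∧ p > 1)) ∧ ¬ (q ≤ p + 3 ∧ (p + q + 3) % 4 = 0))) ||
    (decide (j = 4 ∧ n = 3 ∧ q ≤ p + 17 ∧ ((p + 2 > 0) ∨ (p + 3 ≤ q ∧ p + 3 > 0)) ∧ ¬ (q ≤ p + 3 ∧ (p + q + 3) % 4 = 0)))) ||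
    (decide (j = 4 ∧ n = 4 ∧ q ≤ p + 17 ∧ q ≤ p + 3 ∧ p > 0 ∧ ¬ (((p + q + 1) % 2 = 1 ∧ p + 3 < q ∧ (p) % 2 = 0) ∨ (q ≤ p + 4 ∧ (p + q) % 4 = 0))))) ||
    ((decide (j = 6 ∧ n = 1 ∧ q ≤ p + 17 ∧ ¬ (q ≤ p + 3 ∧ (p + q + 3) % 4 = 0))) ||
    (decide (j = 6 ∧ n = 2 ∧ q ≤ p + 17 ∧ ((p > 4) ∨ (q ≤ p + 3) ∨ (p + 4 ≤ q ∧ q > 8)) ∧ ¬ (((p + q + 1) % 2 = 1 ∧ p + 3 < q ∧ (p) % 2 = 0) ∨ (q ≤ p + 4 ∧ (p + q) % 4 = 0)))))) ||
    (((decide (j = 6 ∧ n = 3 ∧ q ≤ p + 17 ∧ ((p > 6) ∨ (p + 4 ≤ q ∧ q > 10)) ∧ ¬ (q ≤ p + 3 ∧ (p + q + 1) % 4 = 0))) ||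
    (decide (j = 8 ∧ n = 3 ∧ q ≤ p + 17 ∧ ((p + 2 > 0) ∨ (p + 1 ≤ q ∧ p + 3 > 0)) ∧ ¬ (q ≤ p + 1 ∧ (p + q + 3) % 4 = 2)))) ||
    ((decide (j = 3 ∧ n = 3 ∧ p + 8 ≤ q ∧ q ≤ p + 15)) ||
    (decide (j = 3 ∧ n = 4 ∧ p + 8 ≤ q ∧ q ≤ p + 15))))) ||
    (((((decide (j = 5 ∧ n = 3 ∧ p + 7 ≤ q ∧ q ≤ p + 16)) ||
    (decide (j = 5 ∧ n = 4 ∧ p + 7 ≤ q ∧ q ≤ p + 16))) ||
    (decide (j = 6 ∧ n = 3 ∧ p + 6 ≤ q ∧ q ≤ p + 17))) ||
    ((decide (j = 6 ∧ n = 5 ∧ p + 7 ≤ q ∧ q ≤ p + 16)) ||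
    (decide (j = 7 ∧ n = 1 ∧ p + 3 ≤ q ∧ q ≤ p + 18)))) ||
    (((decide (j = 7 ∧ n = 2 ∧ p + 3 ≤ q ∧ q ≤ p + 18)) ||
    (decide (j = 7 ∧ n = 3 ∧ p ≥ 2 ∧ p + 4 ≤ q ∧ q ≤ p + 17))) ||
    ((decide (j = 7 ∧ n = 4 ∧ p ≥ 2 ∧ p + 4 ≤ q ∧ q ≤ p + 17)) ||
    (decide (j = 7 ∧ n = 5 ∧ p + 7 ≤ q ∧ q ≤ p + 16)))))) ||
    ((((((decide (j = 7 ∧ n = 6 ∧ p ≥ 6 ∧ p + 7 ≤ q ∧ q ≤ p + 16)) ||
    (decide (j = 8 ∧ n = 5 ∧ p + 6 ≤ q ∧ q ≤ p + 17))) ||
    (decide (j = 9 ∧ n = 3 ∧ p + 5 ≤ q ∧ q ≤ p + 18))) ||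
    ((decide (j = 9 ∧ n = 3 ∧ p ≥ 2 ∧ p + 3 ≤ q ∧ q ≤ p + 18)) ||
    (decide (j = 9 ∧ n = 4 ∧ p + 5 ≤ q ∧ q ≤ p + 18)))) ||
    (((decide (j = 9 ∧ n = 4 ∧ p ≥ 2 ∧ p + 3 ≤ q ∧ q ≤ p + 18)) ||
    (decide (j = 9 ∧ n = 5 ∧ p + 6 ≤ q ∧ q ≤ p + 17))) ||
    ((decide (j = 9 ∧ n = 5 ∧ p ≥ 8 ∧ p + 4 ≤ q ∧ q ≤ p + 17)) ||
    (decide (j = 9 ∧ n = 6 ∧ p ≥ 6 ∧ p + 6 ≤ q ∧ q ≤ p + 17))))) ||
    ((((decide (j = 9 ∧ n = 6 ∧ p ≥ 8 ∧ p + 4 ≤ q ∧ q ≤ p + 17)) ||
    (decide (j = 3 ∧ n = 6 ∧ p ≤ 5 ∧ q ≥ 10))) ||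
    ((decide (j = 5 ∧ n = 6 ∧ p ≥ 3 ∧ p ≤ 5 ∧ q ≥ 11)) ||
    (decide (j = 7 ∧ n = 6 ∧ p ≥ 4 ∧ p ≤ 5 ∧ q ≥ 12)))) ||
    (((decide (j = 6 ∧ n = 6 ∧ p = 5 ∧ q ≥ 13 ∧ q ≤ 15 ∧ q % 2 = 1)) ||
    (decide (j = 1 ∧ q ≤ p + 17))) ||
    ((decide (j = 6 ∧ n = 4 ∧ p = 3 ∧ q = 11)) ||
    (decide (j = 8 ∧ n = 6 ∧ p = 7 ∧ q = 13))))))

theorem w3m_chk : check 10 8 10 15 0 0 0 1 0 w3mT w3mF
    957
    0x1110030f030011ae7a14bc03125b80125b810ff4000ffc1a0ff5001004000ffd1a125cca125d00125d8a14bc03125b80125b810ff4000ffc1a100400125cca0ff5000ffd1a10050010050414bc03125b80125b810ff4000ffc1a100400125cca0ff5000ffd1a0ffd800ffd840fb1031209801209840fb1031209001209040b45030d9d000d9d040fb1030fb9000fb9040fb103121100121104100b83100c00100c8a0b4d000b551a0dad80100d5212650014bd42125c80125c8414bc030f6600125b800fb122125b811254801254841676031469801469840abe030d61800d61840b55030dad000dad04100b831264001264040fb1030fb1800fb1840abe03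0b09800b09841426831471801471840ab6830d59800d598417150314698014bc320fc0800fc0810f2280125b800f2281125b810f66000ff4000fb1220ffc1a0ffc800ffc840ab6830d5a000d5a040b01030d59000d59040b4b830da3800da384125b83125c00125c04142683147180171cfa14bc0014bc040aae030d06800d06840aaf030d52000d52040fc0831218801218840b11030d69000d69040ab6830b02000b02040abf030b0a000b0a0406ac830905000b5d420db5000db5040ac6830d6a000d6a040ac6830b11800b118406a50308fd0008fd0406a50308fd8008fd840abe030d16000d1604142e03147980147984167603146900146904167d831470801470840b5c030db4000db40414268316c98016c984100a80100a810fb0000fb0010f55800f55840af8830d50800d508411d683121a00121a040ac6830d69800d69840b53030dab800dab840b53030dab000dab040b08830d60800d60840b4c830da4800da4840aae030af9800af9840b08830b54000b5404167d831471001471040ab7830b02800b02841256030d52800d52840af8830b44000b44040d17830d62000d620406940308ec8008ec84167d831426001426040ac6830b12000b1204069c8306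9d00069d0411ce030fc1000fc1040b5b830db3800db3840abf030b0a800b0a8406a40308fc0008fc040f6d000f6d010f12800f12810f568011b6da1120030f13800f138411d6830fc2000fc20406a50308fd000b5cd20db4800db4840aaf030afa000afa0406940308ec0008ec0411ce0312190012190411ce830fc1800fc1840abe030d16000f75d211cd8011cd84165603115300115a920f4e000f4e040b08830b09000b09040aae030d06000d06040f578011b7da0f670011c6d20f22830f6e000f6e040af8830d9c000d9c0411be030f12800f12810f568011b6da0f578011b7da0f66800f6684165d83115a80115a84166d831416001416040ab6830b01800b01840d17830d62800d628411d6830f6f000f6f0411ce8312198012198406a40308fc8008fc840b08830dac000dac040ab7830ab8000ab80406ac83090480090484068c8308e50008e504142e031479001479041110030f03800f03840f6d030fb8000fb8040ab6830ab7000ab7040b08830d61000d610411b7830faa000faa041118830f0b800f0b840f6d0312108012108416650311ad8011ad840aae030d51800d51840f12830f5e000f5e040f12830f13000f130411c6830fb9800fb9840af8830d51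000d51040fbe800f74000fbe810f6b000f64000b5a000f74010f20800f19800f6b010f64010f10800f09800b0f800b5a010b06800aff8018c50018a60013d98013c98013b980138f00137f00136f001360000f32800f29800f27800ed8000ed6000ecf000f20810ecd000ec9000f19810ec6000ebf000f10810ebd000f09810eb6000eaf000e74800e64800ac5000ac3000b0f810abc000ab5000b06810ab3000aff810aac000aa5000a7a800a78800a71800a6f800a6a800a68800a61800a5a800a58800a51800a2e000a27000a25000a21000a20000a1e000a17000a15000a10000a0e000a070009dc8009da8009d38009cc8009ca8009c38009bc8009ba8009b38006ab0006a200069b00066080065e80065780065080064e80064780064080061700061600061400060d00060b0006080006070006060006040005fd0005f80005f70005f60005c98005c28005c08005b98005b28005b08005a98005a280057900057800056a00056900056800055a0005590005580018c50f18a60f171c87171c07171507170d87170d0716d18716d10716ca0716c28716c207167d87167607167587166e87166e07166d87166607166587165d87165607165587164e87163287162b07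162a87162387162307162287161b07161a87161287160b07160a8716038714c48714bd0714b58714b487147207146a87146a07142d87141e87141d87140d87140c8713fd8713e30713e28713db8713db0713da8713da0713d98f13d40713d38713d30713d28713cb8713cb0713ca8713ca0713c98f13c30713c28713c20713c18713ba8713ba0713b98f13b30713b28713ab8713ab07138f0f137f0f136f0f13600f125d87125607125587124e87124e07121287120b07120a8712038712030711d68711d60711cf0711ce8711ce0711c70711c68711c60711bf0711be8711be0711b78711b70711b68711b60711b00711af8711af0711ae8711ae0711a68711a607118b87118b07118407118387118307117c07117b87117b07117407117387117307116c87116c07116b87116b07116507116487116407116387116307115b87115b07112007111f87111887111807111107111087111007110f8711088711080711078710d50710d48710cd8710cd0710c60710c58710c50710c48710bd8710bd071005871004871003871002870ffe070ff6870ff5870ff4870fba870fb3070fb2870fab870fab070faa870f7e870f6e870f6d870f6c870f6b870f6a870f5f870f5e870f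5d870f5c870f58070f4e870f33870f33070f328f0f2c070f2b870f2b070f2a870f2a070f298f0f29070f28870f278f0f24070f23870f1c070f14870f14070f0d070f0c870f0c070ed80f0ed7870ed7070ed60f0ed5870ed5070ed0070ecf870ecf0f0ece870ece070ecd870ecd0f0ec90f0ec7870ec7070ec6870ec60f0ec5870ec5070ebf870ebf0f0ebe870ebe070ebd870ebd0f0eb8870eb7870eb7070eb6870eb60f0eaf870eaf0f0e7d070e7c870e75870e75070e748f0e6e070e6d870e6d070e6c870e65870e65070e648f0da5070d9d870d17870d10070d0f870ccc870cc5070cc4870b55870b54870b53870b52870b44870b43870ac5870ac50f0ac4870ac4070ac30f0abf870abe870abd870abd070abc870abc0f0abb870abb070ab5870ab50f0ab4870ab4070ab3870ab30f0aaf870aae870aad870aad070aac870aac0f0aa5870aa50f0a7b870a7b070a7a8f0a788f0a74870a74070a73870a73070a72870a718f0a6f8f0a6d070a6c870a6c070a6b870a6b070a6a8f0a688f0a65070a64870a64070a63870a63070a62870a618f0a5c870a5c070a5b870a5b070a5a8f0a588f0a518f0a2e0f0a270f0a250f0a210f0a200f0a1e0f0a170f0a150f0a100f0a0e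0f0a070f09dc8f09da8f09d38f09cc8f09ca8f09c38f09bc8f09ba8f09b38f08f58708f50708f48708ed0708e587085807080d0706ab0f06a48706a38706a20f069b0f06948706938706848706618706610706608f065e8f065a0706598706590706588706578f06528706520706518706510706508f064e8f064a0706498706490706488706478f06418706410706408f063a0706398706170f06160f06140f060d0f060b0f06080f06070f06060f06040f05fd0f05f80f05f70f05f60f05c98f05c28f05c08f05b98f05b28f05b08f05a98f05a28f05790f05780f056a0f05690f05680f055a0f05590f05580f045487045407044d07044c87044c07044b87044587044507044487044407043d07043c87043c07043b87043487043407042d07042c8704098704090704020704018704010704008703fa8703fa0703f98703f90703f20703f18703f10703f08703e98703e90703e20703e187 = true := by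
  decide +kernel

/-- The in-lines `2 n - 1` of `6 k + 4` in the row `c - 2` and `2 n + 3` of `6 k + 6` in the row `c` both missing: impossible (lead `n - k - 5` of `6 k`). -/
theorem w3m (hf : Rule f) (H : L4T.H f k c n)
    (r6 : Cyc f (6 * k) (c - 6) (2 * (n - k - 5) + 2)) (r2 : Cyc f (6 * k) (c - 2) (2 * (n - 3) + 2))
    (g1 : ¬ f (6 * k + 4) (c - 2) (2 * n - 1) (2 * n - 2 * k + 4))
    (g2 : ¬ f (6 * k + 6) c (2 * n + 3) (2 * n - 2 * k + 6)) :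
    False := by
  have hk := H.T.hk
  have hc := H.T.hc
  have h4 := H.T.h4
  have hb := H.T.hb
  have hN2 := H.T.hN2
  obtain ⟨a0, ha0⟩ : ∃ a0, a0 + 2 = 6 * k := ⟨6 * k - 2, by omega⟩
  obtain ⟨b0, hb0⟩ : ∃ b0, b0 + 6 = c := ⟨c - 6, by omega⟩
  obtain ⟨x0, hx0⟩ : ∃ x0, x0 + 4 = 2 * n := ⟨2 * n - 4, by omega⟩
  obtain ⟨y0, hy0⟩ : ∃ y0, y0 + 7 = 2 * n - 2 * k := ⟨2 * n - 2 * k - 7, by omega⟩
  refine check_sound hf (a0 := a0) (b0 := b0) (x0 := x0) (y0 := y0) w3m_chk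
    ⟨fun h => absurd h (by decide), fun h => absurd h (by decide), fun h => absurd h (by decide),
      by omega, by omega, by omega, by omega⟩ ?_ ?_
  · intro j m p q hr h
    obtain ⟨-, -, hn1, hn2, hp1, hp2, hq1, hq2⟩ := hr
    unfold w3mT at h
    simp only [Bool.or_eq_true, decide_eq_true_eq] at h
    rcases h with (((h | h) | (h | h)) | ((h | h) | (h | h))) | (((h | h) | (h | h)) | ((h | h) | h))
    · obtain ⟨⟨rfl, rfl, h1⟩, h2⟩ := h
      exact (WrapC.v2 r6 (by omega) (by omega) (by omega) (by omega) (by omega) (by omega) (by omega)).mpr (by omega)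
    · obtain ⟨⟨rfl, rfl, h1⟩, h2⟩ := h
      exact (WrapC.v3 r6 (by omega) (by omega) (by omega) (by omega) (by omega) (by omega) (by omega) (by omega)).mpr (by omega)
    · obtain ⟨⟨rfl, rfl, h1⟩, h2⟩ := h
      exact (WrapC.v0 r2 (by omega) (by omega) (by omega) (by omega) (by omega) (by omega) (by omega)).mpr (by omega)
    · obtain ⟨⟨rfl, rfl, h1⟩, h2⟩ := h
      exact (WrapC.v1 r2 (by omega) (by omega) (by omega) (by omega) (by omega) (by omega) (by omega) (by omega)).mpr (by omega)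
    · obtain ⟨⟨rfl, rfl, h1⟩, h2⟩ := h
      exact (WrapC.v2 r2 (by omega) (by omega) (by omega) (by omega) (by omega) (by omega) (by omega)).mpr (by omega)
    · obtain ⟨⟨rfl, rfl, h1⟩, h2⟩ := h
      exact (WrapC.v3 H.k2_m8 (by omega) (by omega) (by omega) (by omega) (by omega) (by omega) (by omega) (by omega)).mpr (by omega)
    · obtain ⟨⟨rfl, rfl, h1⟩, h2⟩ := h
      exact (WrapC.v0 H.k2_m4 (by omega) (by omega) (by omega) (by omega) (by omega) (by omega) (by omega)).mpr (by omega)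
    · obtain ⟨⟨rfl, rfl, h1⟩, h2⟩ := h
      exact (WrapC.v1 H.k2_m4 (by omega) (by omega) (by omega) (by omega) (by omega) (by omega) (by omega) (by omega)).mpr (by omega)
    · obtain ⟨⟨rfl, rfl, h1⟩, h2⟩ := h
      exact (WrapC.v2 H.k2_m4 (by omega) (by omega) (by omega) (by omega) (by omega) (by omega) (by omega)).mpr (by omega)
    · obtain ⟨⟨rfl, rfl, h1⟩, h2⟩ := h
      exact (WrapC.v1 H.k4_m6 (by omega) (by omega) (by omega) (by omega) (by omega) (by omega) (by omega) (by omega)).mpr (by omega)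
    · obtain ⟨⟨rfl, rfl, h1⟩, h2⟩ := h
      exact (WrapC.v2 H.k4_m6 (by omega) (by omega) (by omega) (by omega) (by omega) (by omega) (by omega)).mpr (by omega)
    · obtain ⟨⟨rfl, rfl, h1⟩, h2⟩ := h
      exact (WrapC.v3 H.k4_m6 (by omega) (by omega) (by omega) (by omega) (by omega) (by omega) (by omega) (by omega)).mpr (by omega)
    · obtain ⟨⟨rfl, rfl, h1⟩, h2⟩ := h
      exact (WrapC.v0 H.k6_m4 (by omega) (by omega) (by omega) (by omega) (by omega) (by omega) (by omega)).mpr (by omega)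
    · obtain ⟨⟨rfl, rfl, h1⟩, h2⟩ := h
      exact (WrapC.v1 H.k6_m4 (by omega) (by omega) (by omega) (by omega) (by omega) (by omega) (by omega) (by omega)).mpr (by omega)
    · obtain ⟨⟨rfl, rfl, h1⟩, h2⟩ := h
      exact (NW.w0v H.k8_m2 (by omega) (by omega) (by omega) (by omega) (by omega) (by omega) (by omega)).mpr (by omega)
  · intro j m p q hr h
    obtain ⟨-, -, hn1, hn2, hp1, hp2, hq1, hq2⟩ := hr
    unfold w3mF at h
    simp only [Bool.or_eq_true, decide_eq_true_eq] at h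
    rcases h with (((((h | h) | h) | (h | h)) | ((h | h) | (h | h))) | ((((h | h) | h) | (h | h)) | ((h | h) | (h | h)))) | (((((h | h) | h) | (h | h)) | ((h | h) | (h | h))) | (((h | h) | (h | h)) | ((h | h) | (h | h))))
    · obtain ⟨⟨rfl, rfl, h1⟩, h2⟩ := h
      exact mt (WrapC.v1 r2 (by omega) (by omega) (by omega) (by omega) (by omega) (by omega) (by omega) (by omega)).mp (by omega)
    · obtain ⟨⟨rfl, rfl, h1⟩, h2⟩ := h
      exact mt (WrapC.v1 H.k2_m4 (by omega) (by omega) (by omega) (by omega) (by omega) (by omega) (by omega) (by omega)).mp (by omega)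
    · obtain ⟨⟨rfl, rfl, h1⟩, h2⟩ := h
      exact mt (WrapC.v2 H.k2_m4 (by omega) (by omega) (by omega) (by omega) (by omega) (by omega) (by omega)).mp (by omega)
    · obtain ⟨⟨rfl, rfl, h1⟩, h2⟩ := h
      exact mt (WrapC.v1 H.k4_m6 (by omega) (by omega) (by omega) (by omega) (by omega) (by omega) (by omega) (by omega)).mp (by omega)
    · obtain ⟨⟨rfl, rfl, h1⟩, h2⟩ := h
      exact mt (WrapC.v2 H.k4_m6 (by omega) (by omega) (by omega) (by omega) (by omega) (by omega) (by omega)).mp (by omega)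
    · obtain ⟨⟨rfl, rfl, h1⟩, h2⟩ := h
      exact mt (WrapC.v3 H.k4_m6 (by omega) (by omega) (by omega) (by omega) (by omega) (by omega) (by omega) (by omega)).mp (by omega)
    · obtain ⟨⟨rfl, rfl, h1⟩, h2⟩ := h
      exact mt (WrapC.v1 H.k6_m4 (by omega) (by omega) (by omega) (by omega) (by omega) (by omega) (by omega) (by omega)).mp (by omega)
    · obtain ⟨rfl, rfl, h1⟩ := h
      exact NHT.rIn hf H.T (t := 3) (j := 3) (p := 1) (by omega) (by omega) (by omega) (by omega) (by omega) (by omega) (by omega) (by omega)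
    · obtain ⟨rfl, rfl, h1⟩ := h
      exact NHT.pIn hf H.T (t := 4) (j := 3) (by omega) (by omega) (by omega) (by omega) (by omega) (by omega) (by omega)
    · obtain ⟨rfl, rfl, h1⟩ := h
      exact NHT.rIn hf H.T (t := 3) (j := 2) (p := 1) (by omega) (by omega) (by omega) (by omega) (by omega) (by omega) (by omega) (by omega)
    · obtain ⟨rfl, rfl, h1⟩ := h
      exact NHT.pIn hf H.T (t := 4) (j := 2) (by omega) (by omega) (by omega) (by omega) (by omega) (by omega) (by omega)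
    · obtain ⟨rfl, rfl, h1⟩ := h
      exact NHT.rIn hf H.T (t := 3) (j := 1) (p := 0) (by omega) (by omega) (by omega) (by omega) (by omega) (by omega) (by omega) (by omega)
    · obtain ⟨rfl, rfl, h1⟩ := h
      exact NHT.rIn hf H.T (t := 4) (j := 2) (p := 0) (by omega) (by omega) (by omega) (by omega) (by omega) (by omega) (by omega) (by omega)
    · obtain ⟨rfl, rfl, h1⟩ := h
      exact K0D.nhu_pmmi hf H.U (by omega) (by omega) (by omega) (by omega) (by omega)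
    · obtain ⟨rfl, rfl, h1⟩ := h
      exact K0D.nhu_pmmi hf H.U (by omega) (by omega) (by omega) (by omega) (by omega)
    · obtain ⟨rfl, rfl, h1⟩ := h
      exact NHU.pmi hf H.U (j := 1) (by omega) (by omega) (by omega) (by omega) (by omega) (by omega)
    · obtain ⟨rfl, rfl, h1⟩ := h
      exact NHU.pmi hf H.U (j := 1) (by omega) (by omega) (by omega) (by omega) (by omega) (by omega)
    · obtain ⟨rfl, rfl, h1⟩ := h
      exact NHT.rIn hf H.T (t := 4) (j := 2) (p := 1) (by omega) (by omega) (by omega) (by omega) (by omega) (by omega) (by omega) (by omega)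
    · obtain ⟨rfl, rfl, h1⟩ := h
      exact NHT.p0i hf H.T (j := 2) (by omega) (by omega) (by omega) (by omega) (by omega) (by omega)
    · obtain ⟨rfl, rfl, h1⟩ := h
      exact NHT.rIn hf H.T (t := 4) (j := 1) (p := 0) (by omega) (by omega) (by omega) (by omega) (by omega) (by omega) (by omega) (by omega)
    · obtain ⟨rfl, rfl, h1⟩ := h
      exact NHT.rIn hf H.T (t := 3) (j := 0) (p := 1) (by omega) (by omega) (by omega) (by omega) (by omega) (by omega) (by omega) (by omega)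
    · obtain ⟨rfl, rfl, h1⟩ := h
      exact NHU.pmi hf H.U (j := 0) (by omega) (by omega) (by omega) (by omega) (by omega) (by omega)
    · obtain ⟨rfl, rfl, h1⟩ := h
      exact NHT.pIn hf H.T (t := 4) (j := 0) (by omega) (by omega) (by omega) (by omega) (by omega) (by omega) (by omega)
    · obtain ⟨rfl, rfl, h1⟩ := h
      exact NHU.pmi hf H.U (j := 0) (by omega) (by omega) (by omega) (by omega) (by omega) (by omega)
    · obtain ⟨rfl, rfl, h1⟩ := h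
      exact NHT.rIn hf H.T (t := 4) (j := 1) (p := 1) (by omega) (by omega) (by omega) (by omega) (by omega) (by omega) (by omega) (by omega)
    · obtain ⟨rfl, rfl, h1⟩ := h
      exact NHU.p0i hf H.U (j := 1) (by omega) (by omega) (by omega) (by omega) (by omega) (by omega)
    · obtain ⟨rfl, rfl, h1⟩ := h
      exact NHT.p0i hf H.T (j := 1) (by omega) (by omega) (by omega) (by omega) (by omega) (by omega)
    · obtain ⟨rfl, rfl, h1⟩ := h
      exact NHU.p0i hf H.U (j := 1) (by omega) (by omega) (by omega) (by omega) (by omega) (by omega)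
    · obtain ⟨rfl, rfl, h1⟩ := h
      exact H.P1 hf (by omega) (by omega) (by omega) (by omega) (by omega) (by omega)
    · obtain ⟨rfl, rfl, h1⟩ := h
      exact H.P3 hf (by omega) (by omega) (by omega) (by omega) (by omega) (by omega)
    · obtain ⟨rfl, rfl, h1⟩ := h
      exact H.P5 hf (by omega) (by omega) (by omega) (by omega) (by omega) (by omega)
    · obtain ⟨rfl, rfl, rfl, h1⟩ := h
      exact H.Y1 hf (by omega) (by omega) (by omega) (by omega) (by omega) (by omega)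
    · obtain ⟨rfl, h1⟩ := h
      exact H.lw _ _ _ _ (by omega) (by omega) (by omega) (by omega) (by omega) (by omega)
    · obtain ⟨rfl, rfl, rfl, rfl⟩ := h
      exact fun h2 => g1 (mv h2 (by omega) (by omega) (by omega) (by omega))
    · obtain ⟨rfl, rfl, rfl, rfl⟩ := h
      exact fun h2 => g2 (mv h2 (by omega) (by omega) (by omega) (by omega))

end Pool.Agent.SNT.L4T
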