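import Pool.Agent.SNT.L4TH

set_option autoImplicit false

/-! The first window of the in-line `2 n - 1` of `6 k + 4` in the row `c - 2` (helper33). -/

namespace Pool.Agent.SNT.L4T

open Pool.Agent.SNT Pool.Agent.SNT.Loc Pool.Agent.SNT.LW Pool.Agent.SNT.NHZ

variable {f : ℕ → ℕ → ℕ → ℕ → Prop} {k c n : ℕ}

def w1mT (j n p q : ℕ) : Bool :=
  (((decide (j = 1 ∧ n = 1 ∧ q ≤ p + 12 ∧ ((p + 3 > 0) ∨ (p ≤ q + 1 ∧ q + 4 > 0)) ∧ (q + 2 ≤ p ∧ (p + q) % 4 = 0))) ||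
    (decide (j = 1 ∧ n = 2 ∧ q ≤ p + 12 ∧ p + 1 > 0 ∧ (((p + q) % 2 = 1 ∧ p < q + 2 ∧ (p + 1) % 2 = 1) ∨ (q + 1 ≤ p ∧ (p + q + 1) % 4 = 0))))) ||
    (decide (j = 1 ∧ n = 3 ∧ q ≤ p + 12 ∧ ((p > 1) ∨ (p ≤ q + 2 ∧ p > 0)) ∧ (q + 2 ≤ p ∧ (p + q + 2) % 4 = 0)))) ||
    (((decide (j = 3 ∧ n = 1 ∧ q ≤ p + 12 ∧ (q + 2 ≤ p ∧ (p + q + 2) % 4 = 0))) ||
    (decide (j = 3 ∧ n = 2 ∧ q ≤ p + 12 ∧ ((p > 7) ∨ (q + 2 ≤ p) ∨ (p ≤ q + 1 ∧ q > 6)) ∧ (((p + q) % 2 = 1 ∧ p < q + 2 ∧ (p + 1) % 2 = 0) ∨ (q + 1 ≤ p ∧ (p + q + 3) % 4 = 0))))) ||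
    (decide (j = 3 ∧ n = 2 ∧ p = 1 ∧ q = 2)))

def w1mF (j n p q : ℕ) : Bool :=
  (((decide (j = 3 ∧ n = 1 ∧ q ≤ p + 12 ∧ ¬ (q + 2 ≤ p ∧ (p + q + 2) % 4 = 0))) ||
    (decide (j = 3 ∧ n = 2 ∧ q ≤ p + 12 ∧ ((p > 7) ∨ (q + 2 ≤ p) ∨ (p ≤ q + 1 ∧ q > 6)) ∧ ¬ (((p + q) % 2 = 1 ∧ p < q + 2 ∧ (p + 1) % 2 = 0) ∨ (q + 1 ≤ p ∧ (p + q + 3) % 4 = 0))))) ||
    ((decide (j = 3 ∧ n = 3 ∧ p + 1 ≤ q ∧ q ≤ p + 12)) ||
    (decide (j = 4 ∧ n = 1 ∧ p ≤ q + 2 ∧ q ≤ p + 13)))) ||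
    (((decide (j = 4 ∧ n = 2 ∧ p ≤ q + 2 ∧ q ≤ p + 13)) ||
    (decide (j = 4 ∧ n = 3 ∧ p ≥ 5 ∧ p ≤ q + 1 ∧ q ≤ p + 12))) ||
    ((decide (j = 4 ∧ n = 4 ∧ p ≥ 5 ∧ p ≤ q + 1 ∧ q ≤ p + 12)) ||
    (decide (j = 3 ∧ n = 4 ∧ p = 6 ∧ q = 9))))

theorem w1m_chk : check 4 6 9 11 1 0 1 1 0 w1mT w1mF
    119
    0x58d8304650005945a043883043900043904043883046a80046a84053083043980043984052b03043380043384059503046580046584042c80042c8103ef8004008003f48005194a03e48003cf8003c38001e08001d48001b48001af8001a88001a380018380017780016b80059507059487059407059387058f87058f07058e87058e07058d87058807058787056387056307056287056207055e07055d87055d07055c87055c07055687055607053087053007052b07052a8705258705250705190705188705138705130704ff0704fe8704f98704f90704f40704f38704e78704e70704e20704e187046c07046b07046687045f07043a87043a0704350704348704340704070704068704010704008f03fc0703fb0703fa8703f50703f48f03f00703e48f03d60703d58703d08703d00703cf8f03cb0703ca8703c38f03be8703be0703b90703b88701e08f01d48f01b48f01af8f01a88f01a38f01838f01778f016b8f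 = true := by
  decide +kernel

/-- The in-line `2 n - 1` missing, the OUT-line `2 n - 2 k - 3` of the row `c - 4` present: impossible. -/
theorem w1m (hf : Rule f) (H : L4T.H f k c n)
    (g1 : ¬ f (6 * k + 4) (c - 2) (2 * n - 1) (2 * n - 2 * k + 4))
    (g2 : f (6 * k + 4) (c - 4) (2 * n - 6) (2 * n - 2 * k - 3)) :
    False := by
  have hk := H.T.hk
  have hc := H.T.hc
  have h4 := H.T.h4
  have hb := H.T.hb
  have hN2 := H.T.hN2
  obtain ⟨a0, ha0⟩ : ∃ a0, a0 = 6 * k + 1 := ⟨6 * k + 1, by omega⟩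
  obtain ⟨b0, hb0⟩ : ∃ b0, b0 + 6 = c := ⟨c - 6, by omega⟩
  obtain ⟨x0, hx0⟩ : ∃ x0, x0 + 7 = 2 * n := ⟨2 * n - 7, by omega⟩
  obtain ⟨y0, hy0⟩ : ∃ y0, y0 + 5 = 2 * n - 2 * k := ⟨2 * n - 2 * k - 5, by omega⟩
  refine check_sound hf (a0 := a0) (b0 := b0) (x0 := x0) (y0 := y0) w1m_chk
    ⟨fun h => absurd h (by decide), fun h => absurd h (by decide), fun h => absurd h (by decide),
      by omega, by omega, by omega, by omega⟩ ?_ ?_
  · intro j m p q hr h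
    obtain ⟨-, -, hn1, hn2, hp1, hp2, hq1, hq2⟩ := hr
    unfold w1mT at h
    simp only [Bool.or_eq_true, decide_eq_true_eq] at h
    rcases h with ((h | h) | h) | ((h | h) | h)
    · obtain ⟨⟨rfl, rfl, h1⟩, h2⟩ := h
      exact (WrapC.v3 H.k2_m8 (by omega) (by omega) (by omega) (by omega) (by omega) (by omega) (by omega) (by omega)).mpr (by omega)
    · obtain ⟨⟨rfl, rfl, h1⟩, h2⟩ := h
      exact (WrapC.v0 H.k2_m4 (by omega) (by omega) (by omega) (by omega) (by omega) (by omega) (by omega)).mpr (by omega)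
    · obtain ⟨⟨rfl, rfl, h1⟩, h2⟩ := h
      exact (WrapC.v1 H.k2_m4 (by omega) (by omega) (by omega) (by omega) (by omega) (by omega) (by omega) (by omega)).mpr (by omega)
    · obtain ⟨⟨rfl, rfl, h1⟩, h2⟩ := h
      exact (WrapC.v1 H.k4_m6 (by omega) (by omega) (by omega) (by omega) (by omega) (by omega) (by omega) (by omega)).mpr (by omega)
    · obtain ⟨⟨rfl, rfl, h1⟩, h2⟩ := h
      exact (WrapC.v2 H.k4_m6 (by omega) (by omega) (by omega) (by omega) (by omega) (by omega) (by omega)).mpr (by omega)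
    · obtain ⟨rfl, rfl, rfl, rfl⟩ := h
      exact mv g2 (by omega) (by omega) (by omega) (by omega)
  · intro j m p q hr h
    obtain ⟨-, -, hn1, hn2, hp1, hp2, hq1, hq2⟩ := hr
    unfold w1mF at h
    simp only [Bool.or_eq_true, decide_eq_true_eq] at h
    rcases h with ((h | h) | (h | h)) | ((h | h) | (h | h))
    · obtain ⟨⟨rfl, rfl, h1⟩, h2⟩ := h
      exact mt (WrapC.v1 H.k4_m6 (by omega) (by omega) (by omega) (by omega) (by omega) (by omega) (by omega) (by omega)).mp (by omega)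
    · obtain ⟨⟨rfl, rfl, h1⟩, h2⟩ := h
      exact mt (WrapC.v2 H.k4_m6 (by omega) (by omega) (by omega) (by omega) (by omega) (by omega) (by omega)).mp (by omega)
    · obtain ⟨rfl, rfl, h1⟩ := h
      exact NHT.rIn hf H.T (t := 3) (j := 1) (p := 0) (by omega) (by omega) (by omega) (by omega) (by omega) (by omega) (by omega) (by omega)
    · obtain ⟨rfl, rfl, h1⟩ := h
      exact K0D.nhu_pmmi hf H.U (by omega) (by omega) (by omega) (by omega) (by omega)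
    · obtain ⟨rfl, rfl, h1⟩ := h
      exact K0D.nhu_pmmi hf H.U (by omega) (by omega) (by omega) (by omega) (by omega)
    · obtain ⟨rfl, rfl, h1⟩ := h
      exact NHU.pmi hf H.U (j := 1) (by omega) (by omega) (by omega) (by omega) (by omega) (by omega)
    · obtain ⟨rfl, rfl, h1⟩ := h
      exact NHU.pmi hf H.U (j := 1) (by omega) (by omega) (by omega) (by omega) (by omega) (by omega)
    · obtain ⟨rfl, rfl, rfl, rfl⟩ := h
      exact fun h2 => g1 (mv h2 (by omega) (by omega) (by omega) (by omega))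

end Pool.Agent.SNT.L4T
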