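import Pool.Agent.SNT.Z1G
import Pool.Agent.SNT.LLW
import Pool.Agent.SNT.L4TWa
import Pool.Agent.SNT.L4TWb
import Pool.Agent.SNT.L4TWc

set_option autoImplicit false

/-! **The tip `2 n - 1` of `6 k + 4` in the row `c - 2` is present**, with the lead `n - k - 5` of `6 k` (helper33). -/

namespace Pool.Agent.SNT.L4T

open Pool.Agent.SNT Pool.Agent.SNT.Sig Pool.Agent.SNT.Loc Pool.Agent.SNT.LW Pool.Agent.SNT.NHZ Pool.Agent.SNT.DRun
open Pool.Agent.SNT.D1E

variable {f : ℕ → ℕ → ℕ → ℕ → Prop} {k c n M : ℕ}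

/-- **The third cell of the in-line `2 n - 1`**, from two cycles `c`, `c' = c - 4`. -/
theorem third_m1 {c' n' : ℕ} (hf : Rule f) (H : L4T.H f k c n) (H' : L4T.H f k c' n') (P' : PL f k c' n' M)
    (ec : c = c' + 4) (en : n = n' + k + 2)
    (r6 : Cyc f (6 * k) (c - 6) (2 * (n - k - 5) + 2)) (r2 : Cyc f (6 * k) (c - 2) (2 * (n - 3) + 2))
    (r6' : Cyc f (6 * k) (c' - 6) (2 * (n' - k - 5) + 2)) (r2' : Cyc f (6 * k) (c' - 2) (2 * (n' - 3) + 2)) :
    f (6 * k + 4) (c - 2) (2 * n - 1) (2 * n - 2 * k + 4) := by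
  have hk := H.T.hk
  have hN := H.T.hN2
  have hN' := H'.T.hN2
  have hb := H.T.hb
  by_contra g
  have a : ¬ f (6 * k + 4) (c - 4) (2 * n - 6) (2 * n - 2 * k - 3) := fun h => w1m hf H g h
  have b : ¬ f (6 * k + 4) (c' - 2) (2 * n' - 1) (2 * n' - 2 * k + 4) := fun h =>
    a (mv (Z1G.line4 hf P' (mv h rfl rfl rfl (by omega))) rfl (by omega) (by omega) (by omega))
  have d : f (6 * k + 6) c' (2 * n' + 3) (2 * n' - 2 * k + 6) := by
    by_contra h
    exact w3m hf H' r6' r2' b h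
  have e := Z1G.line6 hf P' (mv d rfl rfl rfl (by omega))
  exact w2m hf H r6 r2 g (mv e rfl (by omega) (by omega) (by omega))

/-- the window in the form `PL` -/
theorem pl_of_win {b m : ℕ} (W : LRI.Win f k b m n) : PL f k (b + 22) n (n - 4) := by
  obtain ⟨hs, S, hn, d0, d2, d4⟩ := W
  have hk := hs.1
  have hb4 : 100 * k + 1000 ≤ b := hs.2.2.2.1
  have hm2 : 2 * b ≤ m := hs.2.2.2.2
  refine PL.of_stack hs S hn (by omega) (by omega) ?_ ?_ d4
  · exact WrapC.cyc_mono d0 (by omega)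
  · exact WrapC.cyc_mono d2 (by omega)

/-- **T-1**: the cells of the in-line `2 n - 1` of `6 k + 4` in the row `c - 2`, from the third cell to the tip, in every
cycle `j + 2`. -/
theorem line_m1 {b m : ℕ} (hf : Rule f) (W : WL0 f k b m 5) (j : ℕ) {y : ℕ} (hy : y % 2 = 0)
    (h1 : 2 * D1.nn k m (j + 2) + 4 ≤ y + 2 * k) (h2 : y + 2 ≤ 2 * D1.nn k m (j + 2)) :
    f (6 * k + 4) (b + 4 * (j + 2) + 20) (2 * D1.nn k m (j + 2) - 1) y := by
  have W2 := W.win (j + 2)
  have W1 := W.win (j + 1)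
  have W0 := W.win j
  have H := H.of hf W2 W1 (by ring) (by ring)
  have H' := L4T.H.of hf W1 W0 (by ring) (by ring)
  have P := pl_of_win W2
  have P' := pl_of_win W1
  have l3 := W.l0 (j + 3)
  have l2 := W.l0 (j + 2)
  have l1 := W.l0 (j + 1)
  have e1 : D1.nn k m (j + 2) = D1.nn k m (j + 1) + k + 2 := by unfold D1.nn; ring
  have e2 : D1.nn k m (j + 3) = D1.nn k m (j + 2) + k + 2 := by unfold D1.nn; ring
  have hk := H.T.hk
  have hN := H'.hn
  have hb := H'.T.hb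
  generalize D1.nn k m (j + 3) = n3 at *
  generalize D1.nn k m (j + 2) = n2 at *
  generalize D1.nn k m (j + 1) = n1 at *
  subst e2
  have h := third_m1 hf H H' P' (by omega) e1 (NW.cyc_mv l2 rfl (by omega) (by omega)) (NW.cyc_mv l3 rfl (by omega) (by omega))
    (NW.cyc_mv l1 rfl (by omega) (by omega)) (NW.cyc_mv l2 rfl (by omega) (by omega))
  have h3 := K0L4.run4 hf (x := 2 * n2 - 1) (y0 := 2 * n2 - 2 * k + 4) H.T P.c4a P.c6 (by omega) (by omega) (by omega)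
    (by omega) h y (by omega) (by omega) hy
  exact mv h3 rfl (by omega) rfl rfl

/-- **T-1, the tip.** -/
theorem tip_m1 {b m : ℕ} (hf : Rule f) (W : WL0 f k b m 5) (j : ℕ) :
    f (6 * k + 4) (b + 4 * (j + 2) + 20) (2 * D1.nn k m (j + 2) - 1) (2 * D1.nn k m (j + 2) - 2) := by
  have hk := (W.win (j + 2)).hs.1
  have hb4 : 100 * k + 1000 ≤ b + 4 * (j + 2) := (W.win (j + 2)).hs.2.2.2.1
  have hm2 : 2 * (b + 4 * (j + 2)) ≤ m + (k + 2) * (j + 2) := (W.win (j + 2)).hs.2.2.2.2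
  have hn := (W.win (j + 2)).hn
  exact line_m1 hf W j (by omega) (by omega) (by omega)

end Pool.Agent.SNT.L4T
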