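import Pool.Agent.SNT.L6Z

set_option autoImplicit false
set_option linter.unusedVariables false

/-! The known rows of the windows of the leader `6 k + 6`, in the strip. -/

namespace Pool.Agent.SNT.LocR6

open Pool.Agent.SNT Pool.Agent.SNT.Loc Pool.Agent.SNT.LW

variable {f : ℕ → ℕ → ℕ → ℕ → Prop} {k b n M R x y : ℕ}

theorem HZ.q_c0_0 (h : HZ f k b n) (hM : M = 6 * k) (hR : R + 2 = b) (hyx : y ≤ x) (hd : x ≤ y + 15)
    (hK : 2 * n ≤ x + 1) : f M R x y ↔ (x % 2 = 1 ∧ y % 2 = 0) := by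
  have hk := h.hk
  have hb := h.hb
  have h4 := h.h4
  have hbig := h.hbig
  have hn := h.hn
  rw [WrapC.v0 h.c0 hM (by omega) (by omega) (by omega) hyx (by omega) (by omega)]
  omega

theorem HZ.q_c0_1 (h : HZ f k b n) (hM : M = 6 * k) (hR : R + 1 = b) (hyx : y ≤ x) (hd : x ≤ y + 15)
    (hK : 2 * n ≤ x) : f M R x y ↔ (x = y ∧ x % 2 = 0) := by
  have hk := h.hk
  have hb := h.hb
  have h4 := h.h4
  have hbig := h.hbig
  have hn := h.hn
  rw [WrapC.v1 h.c0 hM (by omega) (by omega) (by omega) (by omega) hyx (by omega) (by omega)]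
  omega

theorem HZ.q_c0_2 (h : HZ f k b n) (hM : M = 6 * k) (hR : R = b) (hyx : y ≤ x) (hd : x ≤ y + 15)
    (hK : 2 * n ≤ y) : f M R x y ↔ (x % 2 = 0 ∧ y % 2 = 1) := by
  have hk := h.hk
  have hb := h.hb
  have h4 := h.h4
  have hbig := h.hbig
  have hn := h.hn
  rw [WrapC.v2 h.c0 hM (by omega) (by omega) (by omega) hyx (by omega) (by omega)]
  omega

theorem HZ.q_c0_3 (h : HZ f k b n) (hM : M = 6 * k) (hR : R = b + 1) (hyx : y ≤ x) (hd : x ≤ y + 15)
    (hK : 2 * n + 2 ≤ y) : f M R x y ↔ (x = y ∧ x % 2 = 1) := by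
  have hk := h.hk
  have hb := h.hb
  have h4 := h.h4
  have hbig := h.hbig
  have hn := h.hn
  rw [WrapC.v3 h.c0 hM (by omega) (by omega) (by omega) (by omega) hyx (by omega) (by omega)]
  omega

theorem HZ.q_c2m_2 (h : HZ f k b n) (hM : M = 6 * k + 2) (hR : R + 2 = b) (hyx : y ≤ x) (hd : x ≤ y + 15)
    (hK : 2 * n ≤ y + 6) : f M R x y ↔ (x % 2 = 0 ∧ y % 2 = 1) := by
  have hk := h.hk
  have hb := h.hb
  have h4 := h.h4
  have hbig := h.hbig
  have hn := h.hn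
  rw [WrapC.v2 h.c2m hM (by omega) (by omega) (by omega) hyx (by omega) (by omega)]
  omega

theorem HZ.q_c2m_3 (h : HZ f k b n) (hM : M = 6 * k + 2) (hR : R + 1 = b) (hyx : y ≤ x) (hd : x ≤ y + 15)
    (hK : 2 * n ≤ y + 4) : f M R x y ↔ (x = y ∧ x % 2 = 1) := by
  have hk := h.hk
  have hb := h.hb
  have h4 := h.h4
  have hbig := h.hbig
  have hn := h.hn
  rw [WrapC.v3 h.c2m hM (by omega) (by omega) (by omega) (by omega) hyx (by omega) (by omega)]
  omega

theorem HZ.q_c4m_2 (h : HZ f k b n) (hM : M = 6 * k + 4) (hR : R = b) (hyx : y ≤ x) (hd : x ≤ y + 15)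
    (hK : 2 * n ≤ y + 2) : f M R x y ↔ (x % 2 = 0 ∧ y % 2 = 1) := by
  have hk := h.hk
  have hb := h.hb
  have h4 := h.h4
  have hbig := h.hbig
  have hn := h.hn
  rw [WrapC.v2 h.c4m hM (by omega) (by omega) (by omega) hyx (by omega) (by omega)]
  omega

theorem HZ.q_c4m_3 (h : HZ f k b n) (hM : M = 6 * k + 4) (hR : R = b + 1) (hyx : y ≤ x) (hd : x ≤ y + 15)
    (hK : 2 * n ≤ y) : f M R x y ↔ (x = y ∧ x % 2 = 1) := by
  have hk := h.hk
  have hb := h.hb
  have h4 := h.h4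
  have hbig := h.hbig
  have hn := h.hn
  rw [WrapC.v3 h.c4m hM (by omega) (by omega) (by omega) (by omega) hyx (by omega) (by omega)]
  omega

end Pool.Agent.SNT.LocR6
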