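import Pool.Agent.SNT.L6Q

set_option autoImplicit false
set_option linter.unusedVariables false
set_option synthInstance.maxSize 100000
set_option synthInstance.maxHeartbeats 4000000

/-! The hypotheses of the windows of the leader `6 k + 6` with the tip present, and the small windows. -/

namespace Pool.Agent.SNT.LocR6

open Pool.Agent.SNT Pool.Agent.SNT.Loc Pool.Agent.SNT.LW

variable {f : ℕ → ℕ → ℕ → ℕ → Prop}

/-- The hypotheses of the windows. -/
structure HY (f : ℕ → ℕ → ℕ → ℕ → Prop) (k b n : ℕ) : Prop extends HZ f k b n where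
  c6 : Cyc f (6 * k + 6) b (2 * n + 2)
  c6m : Cyc f (6 * k + 6) (b - 4) (2 * (n - k - 2) + 2)
  c8m : Cw f (6 * k + 8) (b - 2) (n - k)
  c10m : Cw f (6 * k + 10) b (n + 2 - k)

/-! The rows of a weak cycle. -/

namespace NW

variable {M L B K R x y n : ℕ}

theorem w2v (C : Cw f L B n) (hM : M = L) (hL : L % 2 = 0) (hB : (L + B) % 4 = 2)
    (hR : R = B + 2) (hyx : y ≤ x) (hn : x + L + 12 ≤ R + y)
    (hK : (x + 1 ≤ y + 2 * (L / 6) ∧ 2 * n + 4 ≤ y) ∨ (y + 2 * (L / 6) ≤ x ∧ 2 * n + 9 ≤ x)) : f M R x y ↔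
      ((x + y) % 2 = 1 ∧ x < y + 2 * (L / 6) ∧ x % 2 = 0) ∨
      ((x + y) % 2 = 1 ∧ 2 * (L / 6) + y ≤ x + 1 ∧ (x + y + 3) % 4 = (2 * (L / 6)) % 4) := by
  subst hR hM
  have h : f M (B + 2) x y ↔ Fst M (B + 2) x y := by
    rcases hK with hK | hK
    · exact C.w2s x y hyx hK.1 hK.2
    · exact C.w2x x y hK.1 hK.2
  rw [h]
  exact LocZ.fst_zero hL (by omega) hyx hn

theorem w3v (C : Cw f L B n) (hM : M = L) (hL : L % 2 = 0) (h6 : 6 ≤ L) (hB : (L + B) % 4 = 2)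
    (hR : R = B + 3) (hyx : y ≤ x) (hn : x + L + 12 ≤ R + y)
    (hK : (x + 1 ≤ y + 2 * (L / 6) ∧ 2 * n + 6 ≤ y) ∨ 2 * n + 2 * (L / 6) + 6 ≤ x) : f M R x y ↔
      ((x + y) % 2 = 0 ∧ 2 * (L / 6) + y ≤ x ∧ (x + y) % 4 = (2 * (L / 6)) % 4) ∨
      (x = y ∧ x % 2 = 1) := by
  subst hR hM
  have h : f M (B + 3) x y ↔ Fst M (B + 3) x y := by
    rcases hK with hK | hK
    · exact C.w3s x y hyx hK.1 hK.2
    · exact C.w3x x y hyx hK
  rw [h]
  exact LocZ.fst_one hL h6 (by omega) hyx hn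

end NW

theorem r243_chk : check 6 7 10 10 0 0 0 0 2
    (fun j n p q => decide ((j = 2 ∧ n = 1 ∧ p = 3 ∧ q = 3) ∨ (j = 2 ∧ n = 2 ∧ p = 5 ∧ q = 4) ∨ (j = 4 ∧ n = 2 ∧ p = 6 ∧ q = 3) ∨ (j = 4 ∧ n = 2 ∧ p = 6 ∧ q = 5) ∨
      (j = 4 ∧ n = 3 ∧ p = 5 ∧ q = 5) ∨ (j = 6 ∧ n = 4 ∧ p = 6 ∧ q = 5) ∨ (j = 6 ∧ n = 4 ∧ p = 8 ∧ q = 5) ∨ (j = 6 ∧ n = 5 ∧ p = 7 ∧ q = 7) ∨
      (j = 2 ∧ n = 2 ∧ p = 3 ∧ q = 2)))
    (fun j n p q => decide ((j = 2 ∧ n = 3 ∧ p = 6 ∧ q = 4) ∨ (j = 2 ∧ n = 3 ∧ p = 6 ∧ q = 5) ∨ (j = 4 ∧ n = 3 ∧ p = 6 ∧ q = 4) ∨ (j = 4 ∧ n = 3 ∧ p = 6 ∧ q = 6) ∨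
      (j = 4 ∧ n = 3 ∧ p = 7 ∧ q = 4) ∨ (j = 4 ∧ n = 3 ∧ p = 7 ∧ q = 5) ∨ (j = 4 ∧ n = 3 ∧ p = 7 ∧ q = 6) ∨ (j = 2 ∧ n = 4 ∧ p = 6 ∧ q = 5)))
    56
    0x4fe0306618006578007bfc207bad204fe03065c80065c8403680009190009180005f80005ee0003368004c642032b8009548009268e091c8e06340e06338e06330e062e0e06298005fc8005fc8e05fb8e03a48e03728e03720e033b00033b0e03300003300e02fe8009548f09268f091c8f066107065707063407063387063307062f07062e0706298f05fc8f05fb8f03a487039b07037287037207033b0f03360703300f02fe8f = true := by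
  decide +kernel

theorem r243 (hf : Rule f) {k b n : ℕ} (h : HY f k b n) (tip : f (6 * k + 6) b (2 * n + 1) (2 * n)) :
    f (6 * k + 6) (b + 2) (2 * n + 4) (2 * n + 3) := by
  by_contra hx
  have hk := h.hk
  have hb := h.hb
  have h4 := h.h4
  have hbig := h.hbig
  have hn := h.hn
  obtain ⟨a0, ha0⟩ : ∃ z, z = 6 * k + 4 := ⟨_, rfl⟩
  obtain ⟨b0, hb0⟩ : ∃ z, z + 2 = b := ⟨b - 2, by omega⟩
  obtain ⟨x0, hx0⟩ : ∃ z, z + 2 = 2 * n := ⟨2 * n - 2, by omega⟩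
  refine check_sound hf (a0 := a0) (b0 := b0) (x0 := x0) (y0 := x0) r243_chk
    ⟨fun _ => rfl, fun h => absurd h (by decide), fun h => absurd h (by decide), by omega, by omega,
      by omega, by omega⟩ ?_ ?_
  · intro j m p q hr h
    clear hr
    replace h := of_decide_eq_true h
    rcases h with ⟨rfl, rfl, rfl, rfl⟩ | ⟨rfl, rfl, rfl, rfl⟩ | ⟨rfl, rfl, rfl, rfl⟩ | ⟨rfl, rfl, rfl, rfl⟩ |
      ⟨rfl, rfl, rfl, rfl⟩ | ⟨rfl, rfl, rfl, rfl⟩ | ⟨rfl, rfl, rfl, rfl⟩ | ⟨rfl, rfl, rfl, rfl⟩ |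
      ⟨rfl, rfl, rfl, rfl⟩
    · exact (WrapC.v3 h.c6m (by omega) (by omega) (by omega) (by omega) (by omega) (by omega) (by omega) (by omega)).mpr (by omega)
    · exact (WrapC.v0 h.c6 (by omega) (by omega) (by omega) (by omega) (by omega) (by omega) (by omega)).mpr (by omega)
    · exact (NW.w2v h.c8m (by omega) (by omega) (by omega) (by omega) (by omega) (by omega) (by omega)).mpr (by omega)
    · exact (NW.w2v h.c8m (by omega) (by omega) (by omega) (by omega) (by omega) (by omega) (by omega)).mpr (by omega)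
    · exact (NW.w3v h.c8m (by omega) (by omega) (by omega) (by omega) (by omega) (by omega) (by omega) (by omega)).mpr (by omega)
    · exact (NW.w2v h.c10m (by omega) (by omega) (by omega) (by omega) (by omega) (by omega) (by omega)).mpr (by omega)
    · exact (NW.w2v h.c10m (by omega) (by omega) (by omega) (by omega) (by omega) (by omega) (by omega)).mpr (by omega)
    · exact (NW.w3v h.c10m (by omega) (by omega) (by omega) (by omega) (by omega) (by omega) (by omega) (by omega)).mpr (by omega)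
    · exact mv tip (by omega) (by omega) (by omega) (by omega)
  · intro j m p q hr h
    clear hr
    replace h := of_decide_eq_true h
    rcases h with ⟨rfl, rfl, rfl, rfl⟩ | ⟨rfl, rfl, rfl, rfl⟩ | ⟨rfl, rfl, rfl, rfl⟩ | ⟨rfl, rfl, rfl, rfl⟩ |
      ⟨rfl, rfl, rfl, rfl⟩ | ⟨rfl, rfl, rfl, rfl⟩ | ⟨rfl, rfl, rfl, rfl⟩ | ⟨rfl, rfl, rfl, rfl⟩
    · exact mt (WrapC.v1 h.c6 (by omega) (by omega) (by omega) (by omega) (by omega) (by omega) (by omega) (by omega)).mp (by omega)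
    · exact mt (WrapC.v1 h.c6 (by omega) (by omega) (by omega) (by omega) (by omega) (by omega) (by omega) (by omega)).mp (by omega)
    · exact mt (NW.w3v h.c8m (by omega) (by omega) (by omega) (by omega) (by omega) (by omega) (by omega) (by omega)).mp (by omega)
    · exact mt (NW.w3v h.c8m (by omega) (by omega) (by omega) (by omega) (by omega) (by omega) (by omega) (by omega)).mp (by omega)
    · exact mt (NW.w3v h.c8m (by omega) (by omega) (by omega) (by omega) (by omega) (by omega) (by omega) (by omega)).mp (by omega)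
    · exact mt (NW.w3v h.c8m (by omega) (by omega) (by omega) (by omega) (by omega) (by omega) (by omega) (by omega)).mp (by omega)
    · exact mt (NW.w3v h.c8m (by omega) (by omega) (by omega) (by omega) (by omega) (by omega) (by omega) (by omega)).mp (by omega)
    · exact fun t => hx (mv t (by omega) (by omega) (by omega) (by omega))

end Pool.Agent.SNT.LocR6
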