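import Pool.Agent.SNT.WrapC
import Pool.Agent.SNT.Stack6

set_option autoImplicit false
set_option synthInstance.maxSize 100000
set_option synthInstance.maxHeartbeats 4000000

/-! The window of the leader `6 k + 6`: the cell `(2 n + 4, 2 n + 2)` of the odd layer `6 k + 1` in the row `b + 2` is
zero. `b` is the IN row of `6 k + 6`, `n` its lead. If it were one, the two columns `2 n - 3`, `2 n - 5` of the IN row
`b - 2` of `6 k` would be empty near the diagonal, hence down to the wall; near the wall this is impossible. -/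

namespace Pool.Agent.SNT.LocR6

open Pool.Agent.SNT Pool.Agent.SNT.Loc Pool.Agent.SNT.LW

variable {f : ℕ → ℕ → ℕ → ℕ → Prop}

/-- The hypotheses of the windows. -/
structure HZ (f : ℕ → ℕ → ℕ → ℕ → Prop) (k b n : ℕ) : Prop where
  hk : 8 ≤ k
  hb : b % 2 = 0
  h4 : (6 * k + b) % 4 = 0
  hbig : 20 * k + 200 ≤ b
  hn : b + 60 ≤ n
  c0m : Cyc f (6 * k) (b - 6) (2 * (n - 7) + 2)
  c0 : Cyc f (6 * k) (b - 2) (2 * (n - 2) + 2)
  c2m : Cyc f (6 * k + 2) (b - 4) (2 * (n - 5) + 2)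
  c4m : Cyc f (6 * k + 4) (b - 2) (2 * (n - 3) + 2)
  lw : ∀ M R x y : ℕ, M + 1 = 6 * k → b ≤ R + 12 → R ≤ b + 12 → 2 * n ≤ x + 40 → y ≤ x → x ≤ y + 4 * k → ¬ f M R x y

theorem d3_chk : check 4 9 15 15 0 0 0 0 2
    (fun j n p q => decide ((j = 2 ∧ n = 1 ∧ p = 3 ∧ q = 3) ∨ (j = 2 ∧ n = 1 ∧ p = 5 ∧ q = 5) ∨ (j = 2 ∧ n = 1 ∧ p = 7 ∧ q = 7) ∨ (j = 2 ∧ n = 2 ∧ p = 7 ∧ q = 6) ∨
      (j = 2 ∧ n = 4 ∧ p = 10 ∧ q = 9) ∨ (j = 4 ∧ n = 2 ∧ p = 6 ∧ q = 3) ∨ (j = 4 ∧ n = 2 ∧ p = 6 ∧ q = 5) ∨ (j = 4 ∧ n = 3 ∧ p = 7 ∧ q = 7) ∨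
      (j = 3 ∧ n = 6 ∧ p = 12 ∧ q = 10) ∨ (j = 2 ∧ n = 2 ∧ p = 5 ∧ q = 2)))
    (fun j n p q => decide ((j = 1 ∧ n = 3 ∧ p = 7 ∧ q = 6) ∨ (j = 1 ∧ n = 3 ∧ p = 8 ∧ q = 6) ∨ (j = 1 ∧ n = 4 ∧ p = 7 ∧ q = 6) ∨ (j = 1 ∧ n = 4 ∧ p = 7 ∧ q = 7) ∨
      (j = 1 ∧ n = 4 ∧ p = 8 ∧ q = 6) ∨ (j = 1 ∧ n = 4 ∧ p = 8 ∧ q = 7) ∨ (j = 1 ∧ n = 5 ∧ p = 8 ∧ q = 8) ∨ (j = 1 ∧ n = 6 ∧ p = 8 ∧ q = 8) ∨
      (j = 2 ∧ n = 1 ∧ p = 5 ∧ q = 3)))
    103
    0xad4030adb800ad4800ed85a0ed15a0e58000e580109e38009ea8009e38109ea8105f68009f35a0e58030ec9000ed11a0e58030ed0800ed0840ad4030adb800ad4800ad48e0ad48409e38009ea8009e38109ea810586000586040d6f000d6f010e58030ec9000ed11a0e58030ed0800ed0840ad4030adb800ad4800ad48e0ad48409e38009ea8009e38109ea81097a80097a84096a800d5f4208ea8008f18008f18e0ed18009f38008fa800ce642115b8010e28010e1800edf800edf8e09fa8009fa8e09018009018e08f08008918008818008718005f60e05f58e05ee0e05850e057d8e115b8f10e28f10e18f0edf8f0adc070acc0709fa8f09eb0709ea0709dc07090a0709018f08fa0708f08f08ea0708918f08818f08808708718f06d78706670705f60705f58705ee8705ee07058507057d87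 = true := by
  decide +kernel

theorem d3 (hf : Rule f) {k b n : ℕ} (h : HZ f k b n) (h1 : f (6 * k + 1) (b + 2) (2 * n + 4) (2 * n + 2)) :
    ¬ f (6 * k) (b - 2) (2 * n - 3) (2 * n - 6) := by
  intro h2
  have hk := h.hk
  have hb := h.hb
  have h4 := h.h4
  have hbig := h.hbig
  have hn := h.hn
  obtain ⟨a0, ha0⟩ : ∃ z, z + 2 = 6 * k := ⟨6 * k - 2, by omega⟩
  obtain ⟨b0, hb0⟩ : ∃ z, z + 4 = b := ⟨b - 4, by omega⟩
  obtain ⟨x0, hx0⟩ : ∃ z, z + 8 = 2 * n := ⟨2 * n - 8, by omega⟩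
  refine check_sound hf (a0 := a0) (b0 := b0) (x0 := x0) (y0 := x0) d3_chk
    ⟨fun _ => rfl, fun h => absurd h (by decide), fun h => absurd h (by decide), by omega, by omega,
      by omega, by omega⟩ ?_ ?_
  · intro j m p q hr h
    clear hr
    replace h := of_decide_eq_true h
    rcases h with ⟨rfl, rfl, rfl, rfl⟩ | ⟨rfl, rfl, rfl, rfl⟩ | ⟨rfl, rfl, rfl, rfl⟩ | ⟨rfl, rfl, rfl, rfl⟩ |
      ⟨rfl, rfl, rfl, rfl⟩ | ⟨rfl, rfl, rfl, rfl⟩ | ⟨rfl, rfl, rfl, rfl⟩ | ⟨rfl, rfl, rfl, rfl⟩ |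
      ⟨rfl, rfl, rfl, rfl⟩ | ⟨rfl, rfl, rfl, rfl⟩
    · exact (WrapC.v3 h.c0m (by omega) (by omega) (by omega) (by omega) (by omega) (by omega) (by omega) (by omega)).mpr (by omega)
    · exact (WrapC.v3 h.c0m (by omega) (by omega) (by omega) (by omega) (by omega) (by omega) (by omega) (by omega)).mpr (by omega)
    · exact (WrapC.v3 h.c0m (by omega) (by omega) (by omega) (by omega) (by omega) (by omega) (by omega) (by omega)).mpr (by omega)
    · exact (WrapC.v0 h.c0 (by omega) (by omega) (by omega) (by omega) (by omega) (by omega) (by omega)).mpr (by omega)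
    · exact (WrapC.v2 h.c0 (by omega) (by omega) (by omega) (by omega) (by omega) (by omega) (by omega)).mpr (by omega)
    · exact (WrapC.v2 h.c2m (by omega) (by omega) (by omega) (by omega) (by omega) (by omega) (by omega)).mpr (by omega)
    · exact (WrapC.v2 h.c2m (by omega) (by omega) (by omega) (by omega) (by omega) (by omega) (by omega)).mpr (by omega)
    · exact (WrapC.v3 h.c2m (by omega) (by omega) (by omega) (by omega) (by omega) (by omega) (by omega) (by omega)).mpr (by omega)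
    · exact mv h1 (by omega) (by omega) (by omega) (by omega)
    · exact mv h2 (by omega) (by omega) (by omega) (by omega)
  · intro j m p q hr h
    clear hr
    replace h := of_decide_eq_true h
    rcases h with ⟨rfl, rfl, rfl, rfl⟩ | ⟨rfl, rfl, rfl, rfl⟩ | ⟨rfl, rfl, rfl, rfl⟩ | ⟨rfl, rfl, rfl, rfl⟩ |
      ⟨rfl, rfl, rfl, rfl⟩ | ⟨rfl, rfl, rfl, rfl⟩ | ⟨rfl, rfl, rfl, rfl⟩ | ⟨rfl, rfl, rfl, rfl⟩ |
      ⟨rfl, rfl, rfl, rfl⟩
    · exact h.lw _ _ _ _ (by omega) (by omega) (by omega) (by omega) (by omega) (by omega)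
    · exact h.lw _ _ _ _ (by omega) (by omega) (by omega) (by omega) (by omega) (by omega)
    · exact h.lw _ _ _ _ (by omega) (by omega) (by omega) (by omega) (by omega) (by omega)
    · exact h.lw _ _ _ _ (by omega) (by omega) (by omega) (by omega) (by omega) (by omega)
    · exact h.lw _ _ _ _ (by omega) (by omega) (by omega) (by omega) (by omega) (by omega)
    · exact h.lw _ _ _ _ (by omega) (by omega) (by omega) (by omega) (by omega) (by omega)
    · exact h.lw _ _ _ _ (by omega) (by omega) (by omega) (by omega) (by omega) (by omega)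
    · exact h.lw _ _ _ _ (by omega) (by omega) (by omega) (by omega) (by omega) (by omega)
    · exact mt (WrapC.v3 h.c0m (by omega) (by omega) (by omega) (by omega) (by omega) (by omega) (by omega) (by omega)).mp (by omega)

theorem d5_chk : check 4 9 17 17 0 0 0 0 2
    (fun j n p q => decide ((j = 2 ∧ n = 1 ∧ p = 3 ∧ q = 3) ∨ (j = 2 ∧ n = 1 ∧ p = 7 ∧ q = 7) ∨ (j = 2 ∧ n = 2 ∧ p = 9 ∧ q = 8) ∨ (j = 2 ∧ n = 4 ∧ p = 12 ∧ q = 11) ∨
      (j = 2 ∧ n = 5 ∧ p = 13 ∧ q = 13) ∨ (j = 4 ∧ n = 1 ∧ p = 6 ∧ q = 6) ∨ (j = 4 ∧ n = 2 ∧ p = 8 ∧ q = 5) ∨ (j = 4 ∧ n = 3 ∧ p = 7 ∧ q = 7) ∨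
      (j = 3 ∧ n = 6 ∧ p = 14 ∧ q = 12) ∨ (j = 2 ∧ n = 2 ∧ p = 5 ∧ q = 2)))
    (fun j n p q => decide ((j = 1 ∧ n = 1 ∧ p = 4 ∧ q = 3) ∨ (j = 1 ∧ n = 1 ∧ p = 5 ∧ q = 3) ∨ (j = 1 ∧ n = 2 ∧ p = 4 ∧ q = 3) ∨ (j = 1 ∧ n = 2 ∧ p = 4 ∧ q = 4) ∨
      (j = 1 ∧ n = 2 ∧ p = 5 ∧ q = 3) ∨ (j = 1 ∧ n = 2 ∧ p = 7 ∧ q = 7) ∨ (j = 1 ∧ n = 3 ∧ p = 7 ∧ q = 7) ∨ (j = 1 ∧ n = 3 ∧ p = 9 ∧ q = 8) ∨
      (j = 1 ∧ n = 3 ∧ p = 10 ∧ q = 8) ∨ (j = 1 ∧ n = 4 ∧ p = 9 ∧ q = 8) ∨ (j = 1 ∧ n = 4 ∧ p = 10 ∧ q = 8) ∨ (j = 1 ∧ n = 4 ∧ p = 10 ∧ q = 10) ∨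
      (j = 1 ∧ n = 5 ∧ p = 10 ∧ q = 10) ∨ (j = 1 ∧ n = 5 ∧ p = 12 ∧ q = 11) ∨ (j = 1 ∧ n = 5 ∧ p = 13 ∧ q = 11) ∨ (j = 1 ∧ n = 6 ∧ p = 12 ∧ q = 11) ∨
      (j = 1 ∧ n = 6 ∧ p = 12 ∧ q = 12) ∨ (j = 1 ∧ n = 6 ∧ p = 13 ∧ q = 11) ∨ (j = 1 ∧ n = 6 ∧ p = 13 ∧ q = 12) ∨ (j = 2 ∧ n = 1 ∧ p = 5 ∧ q = 3)))
    140
    0xc1083065a000662000b6ec20b76c20ae680108be20b76830b77000b770415a88015b1120ffa00108b2a0ffa8e15b1030ffa800ffa84108b0e163983108300108b00108b0e108b040ade0e1094830ae6000ade000ade0e0ade040b768e1125030b6e800b76800b768e0b768411248e112403112480112484108b03109380109384108c0e108b83109400108c00108c0e108c040c19800c229a0cbb800cb3800cc49a0cbc9a0cce0307170007170407178e0cce030717800717840d55800d5e9a0def800df7800df89a130d800e009a0cce800b92800b5d8016428015b980151880131d80131d8e0d70800cd6800cd68e0b9a800b9a8e0b75800b758e0af8800ae58e0ad48008ec0e08eb8e08e30e085b0e08528e07af8e07a70e071f0e07168e06618e06590e05d10e05c88e16428f15b98f15a90715a80715188f131d8f0df8070d708f0cd68f0cc5070cc4070cb4070b9a8f0b92070b80070b7f070b758f0b6e070af88f0ae5870ad48f08ec0708eb8708e38708e307085b0708528708410707b08707af8707a707071f0707168707050706748706618706598706590705d10705c887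 = true := by
  decide +kernel

theorem d5 (hf : Rule f) {k b n : ℕ} (h : HZ f k b n) (h1 : f (6 * k + 1) (b + 2) (2 * n + 4) (2 * n + 2)) :
    ¬ f (6 * k) (b - 2) (2 * n - 5) (2 * n - 8) := by
  intro h2
  have hk := h.hk
  have hb := h.hb
  have h4 := h.h4
  have hbig := h.hbig
  have hn := h.hn
  obtain ⟨a0, ha0⟩ : ∃ z, z + 2 = 6 * k := ⟨6 * k - 2, by omega⟩
  obtain ⟨b0, hb0⟩ : ∃ z, z + 4 = b := ⟨b - 4, by omega⟩
  obtain ⟨x0, hx0⟩ : ∃ z, z + 10 = 2 * n := ⟨2 * n - 10, by omega⟩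
  refine check_sound hf (a0 := a0) (b0 := b0) (x0 := x0) (y0 := x0) d5_chk
    ⟨fun _ => rfl, fun h => absurd h (by decide), fun h => absurd h (by decide), by omega, by omega,
      by omega, by omega⟩ ?_ ?_
  · intro j m p q hr h
    clear hr
    replace h := of_decide_eq_true h
    rcases h with ⟨rfl, rfl, rfl, rfl⟩ | ⟨rfl, rfl, rfl, rfl⟩ | ⟨rfl, rfl, rfl, rfl⟩ | ⟨rfl, rfl, rfl, rfl⟩ |
      ⟨rfl, rfl, rfl, rfl⟩ | ⟨rfl, rfl, rfl, rfl⟩ | ⟨rfl, rfl, rfl, rfl⟩ | ⟨rfl, rfl, rfl, rfl⟩ |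
      ⟨rfl, rfl, rfl, rfl⟩ | ⟨rfl, rfl, rfl, rfl⟩
    · exact (WrapC.v3 h.c0m (by omega) (by omega) (by omega) (by omega) (by omega) (by omega) (by omega) (by omega)).mpr (by omega)
    · exact (WrapC.v3 h.c0m (by omega) (by omega) (by omega) (by omega) (by omega) (by omega) (by omega) (by omega)).mpr (by omega)
    · exact (WrapC.v0 h.c0 (by omega) (by omega) (by omega) (by omega) (by omega) (by omega) (by omega)).mpr (by omega)
    · exact (WrapC.v2 h.c0 (by omega) (by omega) (by omega) (by omega) (by omega) (by omega) (by omega)).mpr (by omega)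
    · exact (WrapC.v3 h.c0 (by omega) (by omega) (by omega) (by omega) (by omega) (by omega) (by omega) (by omega)).mpr (by omega)
    · exact (WrapC.v1 h.c2m (by omega) (by omega) (by omega) (by omega) (by omega) (by omega) (by omega) (by omega)).mpr (by omega)
    · exact (WrapC.v2 h.c2m (by omega) (by omega) (by omega) (by omega) (by omega) (by omega) (by omega)).mpr (by omega)
    · exact (WrapC.v3 h.c2m (by omega) (by omega) (by omega) (by omega) (by omega) (by omega) (by omega) (by omega)).mpr (by omega)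
    · exact mv h1 (by omega) (by omega) (by omega) (by omega)
    · exact mv h2 (by omega) (by omega) (by omega) (by omega)
  · intro j m p q hr h
    clear hr
    replace h := of_decide_eq_true h
    rcases h with ⟨rfl, rfl, rfl, rfl⟩ | ⟨rfl, rfl, rfl, rfl⟩ | ⟨rfl, rfl, rfl, rfl⟩ | ⟨rfl, rfl, rfl, rfl⟩ |
      ⟨rfl, rfl, rfl, rfl⟩ | ⟨rfl, rfl, rfl, rfl⟩ | ⟨rfl, rfl, rfl, rfl⟩ | ⟨rfl, rfl, rfl, rfl⟩ |
      ⟨rfl, rfl, rfl, rfl⟩ | ⟨rfl, rfl, rfl, rfl⟩ | ⟨rfl, rfl, rfl, rfl⟩ | ⟨rfl, rfl, rfl, rfl⟩ |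
      ⟨rfl, rfl, rfl, rfl⟩ | ⟨rfl, rfl, rfl, rfl⟩ | ⟨rfl, rfl, rfl, rfl⟩ | ⟨rfl, rfl, rfl, rfl⟩ |
      ⟨rfl, rfl, rfl, rfl⟩ | ⟨rfl, rfl, rfl, rfl⟩ | ⟨rfl, rfl, rfl, rfl⟩ | ⟨rfl, rfl, rfl, rfl⟩
    · exact h.lw _ _ _ _ (by omega) (by omega) (by omega) (by omega) (by omega) (by omega)
    · exact h.lw _ _ _ _ (by omega) (by omega) (by omega) (by omega) (by omega) (by omega)
    · exact h.lw _ _ _ _ (by omega) (by omega) (by omega) (by omega) (by omega) (by omega)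
    · exact h.lw _ _ _ _ (by omega) (by omega) (by omega) (by omega) (by omega) (by omega)
    · exact h.lw _ _ _ _ (by omega) (by omega) (by omega) (by omega) (by omega) (by omega)
    · exact h.lw _ _ _ _ (by omega) (by omega) (by omega) (by omega) (by omega) (by omega)
    · exact h.lw _ _ _ _ (by omega) (by omega) (by omega) (by omega) (by omega) (by omega)
    · exact h.lw _ _ _ _ (by omega) (by omega) (by omega) (by omega) (by omega) (by omega)
    · exact h.lw _ _ _ _ (by omega) (by omega) (by omega) (by omega) (by omega) (by omega)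
    · exact h.lw _ _ _ _ (by omega) (by omega) (by omega) (by omega) (by omega) (by omega)
    · exact h.lw _ _ _ _ (by omega) (by omega) (by omega) (by omega) (by omega) (by omega)
    · exact h.lw _ _ _ _ (by omega) (by omega) (by omega) (by omega) (by omega) (by omega)
    · exact h.lw _ _ _ _ (by omega) (by omega) (by omega) (by omega) (by omega) (by omega)
    · exact h.lw _ _ _ _ (by omega) (by omega) (by omega) (by omega) (by omega) (by omega)
    · exact h.lw _ _ _ _ (by omega) (by omega) (by omega) (by omega) (by omega) (by omega)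
    · exact h.lw _ _ _ _ (by omega) (by omega) (by omega) (by omega) (by omega) (by omega)
    · exact h.lw _ _ _ _ (by omega) (by omega) (by omega) (by omega) (by omega) (by omega)
    · exact h.lw _ _ _ _ (by omega) (by omega) (by omega) (by omega) (by omega) (by omega)
    · exact h.lw _ _ _ _ (by omega) (by omega) (by omega) (by omega) (by omega) (by omega)
    · exact mt (WrapC.v3 h.c0m (by omega) (by omega) (by omega) (by omega) (by omega) (by omega) (by omega) (by omega)).mp (by omega)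

theorem tr3_chk : check 6 7 8 8 0 0 0 0 0
    (fun j n p q => decide ((j = 4 ∧ n = 2 ∧ p = 3 ∧ q = 2) ∨ (j = 4 ∧ n = 2 ∧ p = 3 ∧ q = 4) ∨ (j = 4 ∧ n = 2 ∧ p = 5 ∧ q = 4) ∨ (j = 6 ∧ n = 4 ∧ p = 3 ∧ q = 4) ∨
      (j = 6 ∧ n = 4 ∧ p = 3 ∧ q = 6) ∨ (j = 6 ∧ n = 4 ∧ p = 5 ∧ q = 4) ∨ (j = 6 ∧ n = 4 ∧ p = 5 ∧ q = 6) ∨ (j = 2 ∧ n = 4 ∧ p = 3 ∧ q = 2)))
    (fun j n p q => decide ((j = 2 ∧ n = 1 ∧ p = 2 ∧ q = 2) ∨ (j = 2 ∧ n = 1 ∧ p = 2 ∧ q = 3) ∨ (j = 2 ∧ n = 1 ∧ p = 3 ∧ q = 2) ∨ (j = 2 ∧ n = 1 ∧ p = 3 ∧ q = 3) ∨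
      (j = 2 ∧ n = 1 ∧ p = 3 ∧ q = 4) ∨ (j = 2 ∧ n = 1 ∧ p = 4 ∧ q = 3) ∨ (j = 2 ∧ n = 1 ∧ p = 4 ∧ q = 4) ∨ (j = 2 ∧ n = 4 ∧ p = 3 ∧ q = 4)))
    80
    0x4f683033200033201040e0004f2da04f683033200033201040e80040e8403320304128004128402118002098002f24a02edd204f283032e0003321204160004f6ca04f283032e00033212041680041684033203041280041284020d80020d8402f203020d00020d0404f283032e0003321204160004f6ca04f283032e00033212041680041684033203041280041284020d0002edca020e00020e0405d70005d60005cf0005ce0003d60003ce0003cd00024d0005d70f05d60f05cf0f05ce0f04120703d60f03ce0f03cd0f025207024e07024d0f02120702090701f20701f18701ee0701ed8701ed0701e98701e907 = true := by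
  decide +kernel

theorem tr3 (hf : Rule f) {k b n Y : ℕ} (h : HZ f k b n) (hY : Y % 2 = 0) (hY1 : 2 * n + 2 ≤ Y + 2 * k)
    (hY2 : Y + 6 ≤ 2 * n) (h1 : ¬ f (6 * k) (b - 2) (2 * n - 3) Y) : ¬ f (6 * k) (b - 2) (2 * n - 3) (Y - 2) := by
  intro h2
  have hk := h.hk
  have hb := h.hb
  have h4 := h.h4
  have hbig := h.hbig
  have hn := h.hn
  obtain ⟨a0, ha0⟩ : ∃ z, z + 2 = 6 * k := ⟨6 * k - 2, by omega⟩
  obtain ⟨b0, hb0⟩ : ∃ z, z + 6 = b := ⟨b - 6, by omega⟩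
  obtain ⟨x0, hx0⟩ : ∃ z, z + 6 = 2 * n := ⟨2 * n - 6, by omega⟩
  obtain ⟨y0, hy0⟩ : ∃ z, z + 4 = Y := ⟨Y - 4, by omega⟩
  refine check_sound hf (a0 := a0) (b0 := b0) (x0 := x0) (y0 := y0) tr3_chk
    ⟨fun h => absurd h (by decide), fun h => absurd h (by decide), fun h => absurd h (by decide), by omega, by omega,
      by omega, by omega⟩ ?_ ?_
  · intro j m p q hr h
    clear hr
    replace h := of_decide_eq_true h
    rcases h with ⟨rfl, rfl, rfl, rfl⟩ | ⟨rfl, rfl, rfl, rfl⟩ | ⟨rfl, rfl, rfl, rfl⟩ | ⟨rfl, rfl, rfl, rfl⟩ |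
      ⟨rfl, rfl, rfl, rfl⟩ | ⟨rfl, rfl, rfl, rfl⟩ | ⟨rfl, rfl, rfl, rfl⟩ | ⟨rfl, rfl, rfl, rfl⟩
    · exact (WrapC.v0 h.c2m (by omega) (by omega) (by omega) (by omega) (by omega) (by omega) (by omega)).mpr (by omega)
    · exact (WrapC.v0 h.c2m (by omega) (by omega) (by omega) (by omega) (by omega) (by omega) (by omega)).mpr (by omega)
    · exact (WrapC.v0 h.c2m (by omega) (by omega) (by omega) (by omega) (by omega) (by omega) (by omega)).mpr (by omega)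
    · exact (WrapC.v0 h.c4m (by omega) (by omega) (by omega) (by omega) (by omega) (by omega) (by omega)).mpr (by omega)
    · exact (WrapC.v0 h.c4m (by omega) (by omega) (by omega) (by omega) (by omega) (by omega) (by omega)).mpr (by omega)
    · exact (WrapC.v0 h.c4m (by omega) (by omega) (by omega) (by omega) (by omega) (by omega) (by omega)).mpr (by omega)
    · exact (WrapC.v0 h.c4m (by omega) (by omega) (by omega) (by omega) (by omega) (by omega) (by omega)).mpr (by omega)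
    · exact mv h2 (by omega) (by omega) (by omega) (by omega)
  · intro j m p q hr h
    clear hr
    replace h := of_decide_eq_true h
    rcases h with ⟨rfl, rfl, rfl, rfl⟩ | ⟨rfl, rfl, rfl, rfl⟩ | ⟨rfl, rfl, rfl, rfl⟩ | ⟨rfl, rfl, rfl, rfl⟩ |
      ⟨rfl, rfl, rfl, rfl⟩ | ⟨rfl, rfl, rfl, rfl⟩ | ⟨rfl, rfl, rfl, rfl⟩ | ⟨rfl, rfl, rfl, rfl⟩
    · exact mt (WrapC.v1 h.c0m (by omega) (by omega) (by omega) (by omega) (by omega) (by omega) (by omega) (by omega)).mp (by omega)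
    · exact mt (WrapC.v1 h.c0m (by omega) (by omega) (by omega) (by omega) (by omega) (by omega) (by omega) (by omega)).mp (by omega)
    · exact mt (WrapC.v1 h.c0m (by omega) (by omega) (by omega) (by omega) (by omega) (by omega) (by omega) (by omega)).mp (by omega)
    · exact mt (WrapC.v1 h.c0m (by omega) (by omega) (by omega) (by omega) (by omega) (by omega) (by omega) (by omega)).mp (by omega)
    · exact mt (WrapC.v1 h.c0m (by omega) (by omega) (by omega) (by omega) (by omega) (by omega) (by omega) (by omega)).mp (by omega)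
    · exact mt (WrapC.v1 h.c0m (by omega) (by omega) (by omega) (by omega) (by omega) (by omega) (by omega) (by omega)).mp (by omega)
    · exact mt (WrapC.v1 h.c0m (by omega) (by omega) (by omega) (by omega) (by omega) (by omega) (by omega) (by omega)).mp (by omega)
    · exact fun t => h1 (mv t (by omega) (by omega) (by omega) (by omega))

theorem tr5_chk : check 6 7 9 8 0 0 0 0 0
    (fun j n p q => decide ((j = 4 ∧ n = 2 ∧ p = 3 ∧ q = 2) ∨ (j = 4 ∧ n = 2 ∧ p = 3 ∧ q = 4) ∨ (j = 4 ∧ n = 2 ∧ p = 5 ∧ q = 4) ∨ (j = 6 ∧ n = 4 ∧ p = 5 ∧ q = 4) ∨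
      (j = 6 ∧ n = 4 ∧ p = 5 ∧ q = 6) ∨ (j = 2 ∧ n = 4 ∧ p = 3 ∧ q = 2)))
    (fun j n p q => decide ((j = 1 ∧ n = 3 ∧ p = 2 ∧ q = 3) ∨ (j = 1 ∧ n = 3 ∧ p = 2 ∧ q = 4) ∨ (j = 1 ∧ n = 3 ∧ p = 3 ∧ q = 3) ∨ (j = 1 ∧ n = 3 ∧ p = 3 ∧ q = 4) ∨
      (j = 1 ∧ n = 4 ∧ p = 2 ∧ q = 3) ∨ (j = 1 ∧ n = 4 ∧ p = 2 ∧ q = 4) ∨ (j = 1 ∧ n = 4 ∧ p = 3 ∧ q = 3) ∨ (j = 1 ∧ n = 4 ∧ p = 3 ∧ q = 4) ∨
      (j = 2 ∧ n = 1 ∧ p = 2 ∧ q = 2) ∨ (j = 2 ∧ n = 1 ∧ p = 2 ∧ q = 3) ∨ (j = 2 ∧ n = 1 ∧ p = 3 ∧ q = 2) ∨ (j = 2 ∧ n = 1 ∧ p = 3 ∧ q = 3) ∨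
      (j = 2 ∧ n = 1 ∧ p = 3 ∧ q = 4) ∨ (j = 2 ∧ n = 1 ∧ p = 4 ∧ q = 3) ∨ (j = 2 ∧ n = 1 ∧ p = 4 ∧ q = 4) ∨ (j = 2 ∧ n = 4 ∧ p = 3 ∧ q = 4)))
    77
    0x296030392000396120496000592ca029603039200039612049680049684039603049280049284024e00024d00034e520349ca0296030392000396120496000592ca029603039200039612049680049684039603049280049284024d80024d8403498302518002518405928303960003960102918002518002961a034e4a024980024984068f00068e00044e00044600044500029500068f0f068e0f049207044e0f04460f04450f029a0702960702950f029207025207024907022e07022d87022a07022987022907022587022507019a07019987019607019587017607017587017207017187 = true := by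
  decide +kernel

theorem tr5 (hf : Rule f) {k b n Y : ℕ} (h : HZ f k b n) (hY : Y % 2 = 0) (hY1 : 2 * n ≤ Y + 2 * k)
    (hY2 : Y + 8 ≤ 2 * n) (h1 : ¬ f (6 * k) (b - 2) (2 * n - 5) Y) : ¬ f (6 * k) (b - 2) (2 * n - 5) (Y - 2) := by
  intro h2
  have hk := h.hk
  have hb := h.hb
  have h4 := h.h4
  have hbig := h.hbig
  have hn := h.hn
  obtain ⟨a0, ha0⟩ : ∃ z, z + 2 = 6 * k := ⟨6 * k - 2, by omega⟩
  obtain ⟨b0, hb0⟩ : ∃ z, z + 6 = b := ⟨b - 6, by omega⟩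
  obtain ⟨x0, hx0⟩ : ∃ z, z + 8 = 2 * n := ⟨2 * n - 8, by omega⟩
  obtain ⟨y0, hy0⟩ : ∃ z, z + 4 = Y := ⟨Y - 4, by omega⟩
  refine check_sound hf (a0 := a0) (b0 := b0) (x0 := x0) (y0 := y0) tr5_chk
    ⟨fun h => absurd h (by decide), fun h => absurd h (by decide), fun h => absurd h (by decide), by omega, by omega,
      by omega, by omega⟩ ?_ ?_
  · intro j m p q hr h
    clear hr
    replace h := of_decide_eq_true h
    rcases h with ⟨rfl, rfl, rfl, rfl⟩ | ⟨rfl, rfl, rfl, rfl⟩ | ⟨rfl, rfl, rfl, rfl⟩ | ⟨rfl, rfl, rfl, rfl⟩ |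
      ⟨rfl, rfl, rfl, rfl⟩ | ⟨rfl, rfl, rfl, rfl⟩
    · exact (WrapC.v0 h.c2m (by omega) (by omega) (by omega) (by omega) (by omega) (by omega) (by omega)).mpr (by omega)
    · exact (WrapC.v0 h.c2m (by omega) (by omega) (by omega) (by omega) (by omega) (by omega) (by omega)).mpr (by omega)
    · exact (WrapC.v0 h.c2m (by omega) (by omega) (by omega) (by omega) (by omega) (by omega) (by omega)).mpr (by omega)
    · exact (WrapC.v0 h.c4m (by omega) (by omega) (by omega) (by omega) (by omega) (by omega) (by omega)).mpr (by omega)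
    · exact (WrapC.v0 h.c4m (by omega) (by omega) (by omega) (by omega) (by omega) (by omega) (by omega)).mpr (by omega)
    · exact mv h2 (by omega) (by omega) (by omega) (by omega)
  · intro j m p q hr h
    clear hr
    replace h := of_decide_eq_true h
    rcases h with ⟨rfl, rfl, rfl, rfl⟩ | ⟨rfl, rfl, rfl, rfl⟩ | ⟨rfl, rfl, rfl, rfl⟩ | ⟨rfl, rfl, rfl, rfl⟩ |
      ⟨rfl, rfl, rfl, rfl⟩ | ⟨rfl, rfl, rfl, rfl⟩ | ⟨rfl, rfl, rfl, rfl⟩ | ⟨rfl, rfl, rfl, rfl⟩ |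
      ⟨rfl, rfl, rfl, rfl⟩ | ⟨rfl, rfl, rfl, rfl⟩ | ⟨rfl, rfl, rfl, rfl⟩ | ⟨rfl, rfl, rfl, rfl⟩ |
      ⟨rfl, rfl, rfl, rfl⟩ | ⟨rfl, rfl, rfl, rfl⟩ | ⟨rfl, rfl, rfl, rfl⟩ | ⟨rfl, rfl, rfl, rfl⟩
    · exact h.lw _ _ _ _ (by omega) (by omega) (by omega) (by omega) (by omega) (by omega)
    · exact h.lw _ _ _ _ (by omega) (by omega) (by omega) (by omega) (by omega) (by omega)
    · exact h.lw _ _ _ _ (by omega) (by omega) (by omega) (by omega) (by omega) (by omega)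
    · exact h.lw _ _ _ _ (by omega) (by omega) (by omega) (by omega) (by omega) (by omega)
    · exact h.lw _ _ _ _ (by omega) (by omega) (by omega) (by omega) (by omega) (by omega)
    · exact h.lw _ _ _ _ (by omega) (by omega) (by omega) (by omega) (by omega) (by omega)
    · exact h.lw _ _ _ _ (by omega) (by omega) (by omega) (by omega) (by omega) (by omega)
    · exact h.lw _ _ _ _ (by omega) (by omega) (by omega) (by omega) (by omega) (by omega)
    · exact mt (WrapC.v1 h.c0m (by omega) (by omega) (by omega) (by omega) (by omega) (by omega) (by omega) (by omega)).mp (by omega)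
    · exact mt (WrapC.v1 h.c0m (by omega) (by omega) (by omega) (by omega) (by omega) (by omega) (by omega) (by omega)).mp (by omega)
    · exact mt (WrapC.v1 h.c0m (by omega) (by omega) (by omega) (by omega) (by omega) (by omega) (by omega) (by omega)).mp (by omega)
    · exact mt (WrapC.v1 h.c0m (by omega) (by omega) (by omega) (by omega) (by omega) (by omega) (by omega) (by omega)).mp (by omega)
    · exact mt (WrapC.v1 h.c0m (by omega) (by omega) (by omega) (by omega) (by omega) (by omega) (by omega) (by omega)).mp (by omega)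
    · exact mt (WrapC.v1 h.c0m (by omega) (by omega) (by omega) (by omega) (by omega) (by omega) (by omega) (by omega)).mp (by omega)
    · exact mt (WrapC.v1 h.c0m (by omega) (by omega) (by omega) (by omega) (by omega) (by omega) (by omega) (by omega)).mp (by omega)
    · exact fun t => h1 (mv t (by omega) (by omega) (by omega) (by omega))

theorem k0w_chk : check 6 7 10 11 0 0 0 1 0
    (fun j n p q => decide ((j = 2 ∧ n = 1 ∧ p = 5 ∧ q = 4) ∨ (j = 2 ∧ n = 2 ∧ p = 3 ∧ q = 1) ∨ (j = 2 ∧ n = 2 ∧ p = 5 ∧ q = 3) ∨ (j = 2 ∧ n = 4 ∧ p = 7 ∧ q = 7) ∨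
      (j = 4 ∧ n = 2 ∧ p = 3 ∧ q = 3) ∨ (j = 4 ∧ n = 2 ∧ p = 3 ∧ q = 5) ∨ (j = 4 ∧ n = 2 ∧ p = 5 ∧ q = 5) ∨ (j = 4 ∧ n = 2 ∧ p = 5 ∧ q = 7) ∨
      (j = 4 ∧ n = 2 ∧ p = 7 ∧ q = 7) ∨ (j = 4 ∧ n = 3 ∧ p = 5 ∧ q = 4) ∨ (j = 4 ∧ n = 3 ∧ p = 7 ∧ q = 6) ∨ (j = 4 ∧ n = 4 ∧ p = 5 ∧ q = 3) ∨
      (j = 6 ∧ n = 4 ∧ p = 5 ∧ q = 7) ∨ (j = 6 ∧ n = 4 ∧ p = 5 ∧ q = 9) ∨ (j = 6 ∧ n = 4 ∧ p = 7 ∧ q = 9) ∨ (j = 6 ∧ n = 5 ∧ p = 7 ∧ q = 6)))
    (fun j n p q => decide ((j = 1 ∧ n = 2 ∧ p = 3 ∧ q = 2) ∨ (j = 1 ∧ n = 3 ∧ p = 2 ∧ q = 4) ∨ (j = 1 ∧ n = 3 ∧ p = 3 ∧ q = 2) ∨ (j = 1 ∧ n = 3 ∧ p = 3 ∧ q = 4) ∨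
      (j = 1 ∧ n = 3 ∧ p = 3 ∧ q = 5) ∨ (j = 1 ∧ n = 4 ∧ p = 2 ∧ q = 4) ∨ (j = 1 ∧ n = 4 ∧ p = 2 ∧ q = 5) ∨ (j = 1 ∧ n = 4 ∧ p = 3 ∧ q = 4) ∨
      (j = 1 ∧ n = 4 ∧ p = 3 ∧ q = 5) ∨ (j = 2 ∧ n = 1 ∧ p = 2 ∧ q = 3) ∨ (j = 2 ∧ n = 1 ∧ p = 2 ∧ q = 4) ∨ (j = 2 ∧ n = 1 ∧ p = 4 ∧ q = 5) ∨
      (j = 2 ∧ n = 1 ∧ p = 4 ∧ q = 6) ∨ (j = 2 ∧ n = 1 ∧ p = 5 ∧ q = 6) ∨ (j = 2 ∧ n = 4 ∧ p = 5 ∧ q = 7) ∨ (j = 2 ∧ n = 4 ∧ p = 3 ∧ q = 5)))
    240
    0x50f8303c6000583f203c500054bd2057c03023d0003beca03bf0005465a057c03023d0003beca03f6000577ca06f90006ff1a057c03023d0003beca03f6000577ca06fe8006fe84053a00053f9206ff0305778005778103be8003be8403eb0003f11a057c03023d0003beca03fc03023d80023d84088503057d00057d0103be8003be8403f08003f08406ff0305778005778103eb0003f11a03b90003b904087f8305780005780403f703023380023384037d000503d203880003880403fc800583da088503057d80057d84050f8303c60003c60406ff03054080054084087f83054100054104050f83054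68005468403ca8003ca84070a8006ff80088bc2088652050f8303c6000583f203c500054bd2057c03023d0003beca03bf0005465a057c03023d0003beca03fc03023d80023d84088503057d00057d0103be8003be8403f08003f10a057c03023d0003beca03f6000577ca06f900087fd2057c03023d0003beca03f6000577ca06fe8006fe84053a00053f92087f8305778005778103be8003be8403eb0003eb04087f8305778005778103eb0003f11a03b90003b90403f703023380023384037d000503d2038800038804087f8305408005408403fc800583da088503057d80057d84050f8303c60003c604050f8305468005468403ca8003ca84070500070504050f8303c58003c584087f8306ff0006ff040a3d030879800879840885030546000546040885030885800885840a42800a0d000a02000a010006fd0006d28006c680069c00069100069000068500068400040800038d000381000356800a428f0a0d0f0a05870a020f0a010f07048707038706fd0f06f98706f88706d28f06c68f069c0f06910f06900f06850f06840f04080f04028703fd0703f68703f58703f10703eb87039387038d0f03888703878703810f037c8703578703568f035207035187034607034587027007026f87026a87026a07023907023887023787023307020087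 = true := by
  decide +kernel

theorem k0w (hf : Rule f) {k b n : ℕ} (h : HZ f k b n) (h1 : ¬ f (6 * k) (b - 2) (2 * n - 3) (2 * n - 2 * k))
    (h2 : ¬ f (6 * k) (b - 2) (2 * n - 5) (2 * n - 2 * k - 2)) : False := by
  have hk := h.hk
  have hb := h.hb
  have h4 := h.h4
  have hbig := h.hbig
  have hn := h.hn
  obtain ⟨a0, ha0⟩ : ∃ z, z + 2 = 6 * k := ⟨6 * k - 2, by omega⟩
  obtain ⟨b0, hb0⟩ : ∃ z, z + 6 = b := ⟨b - 6, by omega⟩
  obtain ⟨x0, hx0⟩ : ∃ z, z + 8 = 2 * n := ⟨2 * n - 8, by omega⟩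
  obtain ⟨y0, hy0⟩ : ∃ z, z + 2 * k + 7 = 2 * n := ⟨2 * n - 2 * k - 7, by omega⟩
  refine check_sound hf (a0 := a0) (b0 := b0) (x0 := x0) (y0 := y0) k0w_chk
    ⟨fun h => absurd h (by decide), fun h => absurd h (by decide), fun h => absurd h (by decide), by omega, by omega,
      by omega, by omega⟩ ?_ ?_
  · intro j m p q hr h
    clear hr
    replace h := of_decide_eq_true h
    rcases h with ⟨rfl, rfl, rfl, rfl⟩ | ⟨rfl, rfl, rfl, rfl⟩ | ⟨rfl, rfl, rfl, rfl⟩ | ⟨rfl, rfl, rfl, rfl⟩ |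
      ⟨rfl, rfl, rfl, rfl⟩ | ⟨rfl, rfl, rfl, rfl⟩ | ⟨rfl, rfl, rfl, rfl⟩ | ⟨rfl, rfl, rfl, rfl⟩ |
      ⟨rfl, rfl, rfl, rfl⟩ | ⟨rfl, rfl, rfl, rfl⟩ | ⟨rfl, rfl, rfl, rfl⟩ | ⟨rfl, rfl, rfl, rfl⟩ |
      ⟨rfl, rfl, rfl, rfl⟩ | ⟨rfl, rfl, rfl, rfl⟩ | ⟨rfl, rfl, rfl, rfl⟩ | ⟨rfl, rfl, rfl, rfl⟩
    · exact (WrapC.v1 h.c0m (by omega) (by omega) (by omega) (by omega) (by omega) (by omega) (by omega) (by omega)).mpr (by omega)
    · exact (WrapC.v2 h.c0m (by omega) (by omega) (by omega) (by omega) (by omega) (by omega) (by omega)).mpr (by omega)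
    · exact (WrapC.v2 h.c0m (by omega) (by omega) (by omega) (by omega) (by omega) (by omega) (by omega)).mpr (by omega)
    · exact (WrapC.v0 h.c0 (by omega) (by omega) (by omega) (by omega) (by omega) (by omega) (by omega)).mpr (by omega)
    · exact (WrapC.v0 h.c2m (by omega) (by omega) (by omega) (by omega) (by omega) (by omega) (by omega)).mpr (by omega)
    · exact (WrapC.v0 h.c2m (by omega) (by omega) (by omega) (by omega) (by omega) (by omega) (by omega)).mpr (by omega)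
    · exact (WrapC.v0 h.c2m (by omega) (by omega) (by omega) (by omega) (by omega) (by omega) (by omega)).mpr (by omega)
    · exact (WrapC.v0 h.c2m (by omega) (by omega) (by omega) (by omega) (by omega) (by omega) (by omega)).mpr (by omega)
    · exact (WrapC.v0 h.c2m (by omega) (by omega) (by omega) (by omega) (by omega) (by omega) (by omega)).mpr (by omega)
    · exact (WrapC.v1 h.c2m (by omega) (by omega) (by omega) (by omega) (by omega) (by omega) (by omega) (by omega)).mpr (by omega)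
    · exact (WrapC.v1 h.c2m (by omega) (by omega) (by omega) (by omega) (by omega) (by omega) (by omega) (by omega)).mpr (by omega)
    · exact (WrapC.v2 h.c2m (by omega) (by omega) (by omega) (by omega) (by omega) (by omega) (by omega)).mpr (by omega)
    · exact (WrapC.v0 h.c4m (by omega) (by omega) (by omega) (by omega) (by omega) (by omega) (by omega)).mpr (by omega)
    · exact (WrapC.v0 h.c4m (by omega) (by omega) (by omega) (by omega) (by omega) (by omega) (by omega)).mpr (by omega)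
    · exact (WrapC.v0 h.c4m (by omega) (by omega) (by omega) (by omega) (by omega) (by omega) (by omega)).mpr (by omega)
    · exact (WrapC.v1 h.c4m (by omega) (by omega) (by omega) (by omega) (by omega) (by omega) (by omega) (by omega)).mpr (by omega)
  · intro j m p q hr h
    clear hr
    replace h := of_decide_eq_true h
    rcases h with ⟨rfl, rfl, rfl, rfl⟩ | ⟨rfl, rfl, rfl, rfl⟩ | ⟨rfl, rfl, rfl, rfl⟩ | ⟨rfl, rfl, rfl, rfl⟩ |
      ⟨rfl, rfl, rfl, rfl⟩ | ⟨rfl, rfl, rfl, rfl⟩ | ⟨rfl, rfl, rfl, rfl⟩ | ⟨rfl, rfl, rfl, rfl⟩ |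
      ⟨rfl, rfl, rfl, rfl⟩ | ⟨rfl, rfl, rfl, rfl⟩ | ⟨rfl, rfl, rfl, rfl⟩ | ⟨rfl, rfl, rfl, rfl⟩ |
      ⟨rfl, rfl, rfl, rfl⟩ | ⟨rfl, rfl, rfl, rfl⟩ | ⟨rfl, rfl, rfl, rfl⟩ | ⟨rfl, rfl, rfl, rfl⟩
    · exact h.lw _ _ _ _ (by omega) (by omega) (by omega) (by omega) (by omega) (by omega)
    · exact h.lw _ _ _ _ (by omega) (by omega) (by omega) (by omega) (by omega) (by omega)
    · exact h.lw _ _ _ _ (by omega) (by omega) (by omega) (by omega) (by omega) (by omega)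
    · exact h.lw _ _ _ _ (by omega) (by omega) (by omega) (by omega) (by omega) (by omega)
    · exact h.lw _ _ _ _ (by omega) (by omega) (by omega) (by omega) (by omega) (by omega)
    · exact h.lw _ _ _ _ (by omega) (by omega) (by omega) (by omega) (by omega) (by omega)
    · exact h.lw _ _ _ _ (by omega) (by omega) (by omega) (by omega) (by omega) (by omega)
    · exact h.lw _ _ _ _ (by omega) (by omega) (by omega) (by omega) (by omega) (by omega)
    · exact h.lw _ _ _ _ (by omega) (by omega) (by omega) (by omega) (by omega) (by omega)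
    · exact mt (WrapC.v1 h.c0m (by omega) (by omega) (by omega) (by omega) (by omega) (by omega) (by omega) (by omega)).mp (by omega)
    · exact mt (WrapC.v1 h.c0m (by omega) (by omega) (by omega) (by omega) (by omega) (by omega) (by omega) (by omega)).mp (by omega)
    · exact mt (WrapC.v1 h.c0m (by omega) (by omega) (by omega) (by omega) (by omega) (by omega) (by omega) (by omega)).mp (by omega)
    · exact mt (WrapC.v1 h.c0m (by omega) (by omega) (by omega) (by omega) (by omega) (by omega) (by omega) (by omega)).mp (by omega)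
    · exact mt (WrapC.v1 h.c0m (by omega) (by omega) (by omega) (by omega) (by omega) (by omega) (by omega) (by omega)).mp (by omega)
    · exact fun t => h1 (mv t (by omega) (by omega) (by omega) (by omega))
    · exact fun t => h2 (mv t (by omega) (by omega) (by omega) (by omega))

/-- **The fact.** -/
theorem HZ.z (hf : Rule f) {k b n : ℕ} (h : HZ f k b n) : ¬ f (6 * k + 1) (b + 2) (2 * n + 4) (2 * n + 2) := by
  intro h0
  have hk := h.hk
  have hbig := h.hbig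
  have hn := h.hn
  have l3 : ∀ t : ℕ, 2 * t + 6 ≤ 2 * k → ¬ f (6 * k) (b - 2) (2 * n - 3) (2 * n - 6 - 2 * t) := by
    intro t
    induction t with
    | zero => intro _; exact d3 hf h h0
    | succ t ih =>
      intro ht
      have h1 := tr3 hf h (Y := 2 * n - 6 - 2 * t) (by omega) (by omega) (by omega) (ih (by omega))
      have e : 2 * n - 6 - 2 * t - 2 = 2 * n - 6 - 2 * (t + 1) := by omega
      rwa [e] at h1
  have l5 : ∀ t : ℕ, 2 * t + 6 ≤ 2 * k → ¬ f (6 * k) (b - 2) (2 * n - 5) (2 * n - 8 - 2 * t) := by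
    intro t
    induction t with
    | zero => intro _; exact d5 hf h h0
    | succ t ih =>
      intro ht
      have h1 := tr5 hf h (Y := 2 * n - 8 - 2 * t) (by omega) (by omega) (by omega) (ih (by omega))
      have e : 2 * n - 8 - 2 * t - 2 = 2 * n - 8 - 2 * (t + 1) := by omega
      rwa [e] at h1
  have h3 := l3 (k - 3) (by omega)
  have h5 := l5 (k - 3) (by omega)
  have e3 : 2 * n - 6 - 2 * (k - 3) = 2 * n - 2 * k := by omega
  have e5 : 2 * n - 8 - 2 * (k - 3) = 2 * n - 2 * k - 2 := by omega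
  rw [e3] at h3
  rw [e5] at h5
  exact k0w hf h h3 h5

theorem HZ.of_stack {k b m : ℕ} (hs : Side k b m) (S : Stack6 f k b m 0 0 0 1 1 1)
    (C0 : Cyc f (6 * k) (b + 16) (2 * (m + 5 + (k + 2) * 4 - 2) + 2)) :
    HZ f k (b + 18) (m + 5 + (k + 2) * 4) := by
  obtain ⟨hk, hb2, hb, hkb, hbm⟩ := hs
  have hkk : (k + 2) * 4 = (k + 2) * 3 + (k + 2) := by ring
  refine ⟨hk, by omega, by omega, by omega, by omega, ?_, ?_, ?_, ?_, ?_⟩
  · have e : b + 18 - 6 = b + 4 * 3 := by omega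
    have e2 : 2 * (m + 5 + (k + 2) * 4 - 7) + 2 = 2 * (m + k + 0 + (k + 2) * 3) + 2 := by omega
    rw [e, e2]
    exact S.l0 3
  · have e : b + 18 - 2 = b + 16 := by omega
    rw [e]
    exact C0
  · have e : b + 18 - 4 = b + 2 + 4 * 3 := by omega
    have e2 : 2 * (m + 5 + (k + 2) * 4 - 5) + 2 = 2 * (m + k + 2 + 0 + (k + 2) * 3) + 2 := by omega
    rw [e, e2]
    exact S.l2 3
  · have e : b + 18 - 2 = b + 4 * 4 := by omega
    have e2 : 2 * (m + 5 + (k + 2) * 4 - 3) + 2 = 2 * (m + 2 + 0 + (k + 2) * 4) + 2 := by omega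
    rw [e, e2]
    exact S.l4 4
  · intro M R x y hM h1 h2 h3 h4 h5
    have h6 := S.lw (R - b) (by omega)
    have e : b + (R - b) = R := by omega
    have e2 : 6 * k - 1 = M := by omega
    rw [e, e2] at h6
    rw [h6 x y (by rw [max_eq_left h4]; omega)]
    exact Fst_near_odd (by omega) (by rw [max_eq_left h4, min_eq_right h4]; omega)

/-- **The cell `(2 n + 4, 2 n + 2)` of `6 k + 1` in the OUT row of `6 k + 6` is zero.** -/
theorem hz1 (hf : Rule f) {k b m : ℕ} (hs : Side k b m) (S : Stack6 f k b m 0 0 0 1 1 1)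
    (C0 : Cyc f (6 * k) (b + 16) (2 * (m + 5 + (k + 2) * 4 - 2) + 2)) :
    ¬ f (6 * k + 1) (b + 20) (2 * (m + 5 + (k + 2) * 4) + 4) (2 * (m + 5 + (k + 2) * 4) + 2) :=
  (HZ.of_stack hs S C0).z hf

end Pool.Agent.SNT.LocR6
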