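import Pool.Agent.SNT.LND

set_option autoImplicit false
set_option synthInstance.maxSize 100000
set_option synthInstance.maxHeartbeats 4000000

/-! near-diagonal windows (LN1) -/

namespace Pool.Agent.SNT.LN

open Pool.Agent.SNT Pool.Agent.SNT.Loc Pool.Agent.SNT.LW Pool.Agent.SNT.NHZ Pool.Agent.SNT.NW

variable {f : ℕ → ℕ → ℕ → ℕ → Prop}

theorem d4_2_11_chk : check 12 7 13 13 0 1 1 1 2
    (fun j n p q => decide ((j = 12 ∧ n = 3 ∧ q ≤ p ∧ (p + q) % 2 = 1 ∧ p % 2 = 0)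
      ∨ (j = 12 ∧ n = 4 ∧ q ≤ p ∧ p = q ∧ p % 2 = 1)
      ∨ (j = 12 ∧ n = 5 ∧ q ≤ p ∧ (p + q) % 2 = 1 ∧ p % 2 = 1)
      ∨ (j = 10 ∧ n = 1 ∧ q ≤ p ∧ (p + q) % 2 = 1 ∧ p % 2 = 0)
      ∨ (j = 8 ∧ n = 2 ∧ q ≤ p ∧ p = q ∧ p % 2 = 0)
      ∨ (j = 6 ∧ n = 1 ∧ q ≤ p ∧ (p + q) % 2 = 1 ∧ p % 2 = 0)
      ∨ (j = 6 ∧ n = 2 ∧ q ≤ p ∧ p = q ∧ p % 2 = 1)
      ∨ (j = 6 ∧ n = 3 ∧ q ≤ p ∧ (p + q) % 2 = 1 ∧ p % 2 = 1)
      ∨ (j = 4 ∧ n = 1 ∧ q ≤ p ∧ (p + q) % 2 = 1 ∧ p % 2 = 1)
      ∨ (j = 4 ∧ n = 2 ∧ q ≤ p ∧ p = q ∧ p % 2 = 0)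
      ∨ (j = 4 ∧ n = 5 ∧ p = 8 ∧ q = 1)
      ∨ (j = 4 ∧ n = 3 ∧ p = 4 ∧ q = 3)
      ∨ (j = 8 ∧ n = 3 ∧ p = 4 ∧ q = 3)))
    (fun j n p q => decide ((j = 12 ∧ n = 3 ∧ q ≤ p ∧ ¬ ((p + q) % 2 = 1 ∧ p % 2 = 0))
      ∨ (j = 12 ∧ n = 4 ∧ q ≤ p ∧ ¬ (p = q ∧ p % 2 = 1))
      ∨ (j = 12 ∧ n = 5 ∧ q ≤ p ∧ ¬ ((p + q) % 2 = 1 ∧ p % 2 = 1))
      ∨ (j = 10 ∧ n = 1 ∧ q ≤ p ∧ ¬ ((p + q) % 2 = 1 ∧ p % 2 = 0))
      ∨ (j = 8 ∧ n = 2 ∧ q ≤ p ∧ ¬ (p = q ∧ p % 2 = 0))
      ∨ (j = 6 ∧ n = 1 ∧ q ≤ p ∧ ¬ ((p + q) % 2 = 1 ∧ p % 2 = 0))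
      ∨ (j = 6 ∧ n = 2 ∧ q ≤ p ∧ ¬ (p = q ∧ p % 2 = 1))
      ∨ (j = 6 ∧ n = 3 ∧ q ≤ p ∧ ¬ ((p + q) % 2 = 1 ∧ p % 2 = 1))
      ∨ (j = 4 ∧ n = 1 ∧ q ≤ p ∧ ¬ ((p + q) % 2 = 1 ∧ p % 2 = 1))
      ∨ (j = 4 ∧ n = 2 ∧ q ≤ p ∧ ¬ (p = q ∧ p % 2 = 0))
      ∨ (j = 1 ∧ n = 1 ∧ q ≤ p)
      ∨ (j = 1 ∧ n = 2 ∧ q ≤ p)
      ∨ (j = 1 ∧ n = 3 ∧ q ≤ p)
      ∨ (j = 1 ∧ n = 4 ∧ q ≤ p)
      ∨ (j = 1 ∧ n = 5 ∧ q ≤ p)
      ∨ (j = 2 ∧ n = 2 ∧ q + 4 ≤ p)
      ∨ (j = 4 ∧ n = 2 ∧ q + 4 ≤ p)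
      ∨ (j = 4 ∧ n = 4 ∧ q + 4 ≤ p)
      ∨ (j = 4 ∧ n = 4 ∧ q + 5 ≤ p)
      ∨ (j = 5 ∧ n = 1 ∧ q + 3 ≤ p)
      ∨ (j = 5 ∧ n = 4 ∧ q + 4 ≤ p)
      ∨ (j = 5 ∧ n = 4 ∧ q + 5 ≤ p)
      ∨ (j = 5 ∧ n = 5 ∧ q + 4 ≤ p)
      ∨ (j = 6 ∧ n = 2 ∧ q + 2 ≤ p)
      ∨ (j = 8 ∧ n = 2 ∧ q + 2 ≤ p)
      ∨ (j = 8 ∧ n = 4 ∧ q + 2 ≤ p)
      ∨ (j = 8 ∧ n = 4 ∧ q + 3 ≤ p)
      ∨ (j = 9 ∧ n = 1 ∧ q + 1 ≤ p)
      ∨ (j = 9 ∧ n = 2 ∧ q + 2 ≤ p)
      ∨ (j = 9 ∧ n = 2 ∧ q + 1 ≤ p)
      ∨ (j = 9 ∧ n = 2 ∧ q + 1 ≤ p)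
      ∨ (j = 9 ∧ n = 2 ∧ q + 2 ≤ p)
      ∨ (j = 9 ∧ n = 3 ∧ q + 2 ≤ p)
      ∨ (j = 9 ∧ n = 3 ∧ q + 1 ≤ p)
      ∨ (j = 9 ∧ n = 4 ∧ q + 2 ≤ p)
      ∨ (j = 9 ∧ n = 4 ∧ q + 2 ≤ p)
      ∨ (j = 9 ∧ n = 4 ∧ q + 3 ≤ p)
      ∨ (j = 9 ∧ n = 5 ∧ q + 2 ≤ p)
      ∨ (j = 10 ∧ n = 2 ∧ q + 1 ≤ p)
      ∨ (j = 10 ∧ n = 4 ∧ q + 1 ≤ p)))
    726
    0x18ed0518e6001b43521b3c52169c80169c8113f1001640c218eb001b41da1b42001b491a164e80164e8111a88011a8810d02800d028105ff03084e800aa55a0cf4800f4b5a119a8013f15a18ed0518e6001b43521b3c52169c80169c81144d8016a45a120a8312110012181a146e0016bdc21218031467801467840d72000d72010b160e066f8308bf000b0f4a0b16000b16040d65030d65800d6b800d6b8e0d6b840fbc0e066f8308bf000b15520b1c000d10800d72520f675a0fc2000fbc000fbc0e0fbc0408be8e066f0308be8008be84120b8e120b03121180120b80120b8e120b84061b03086a80086a840b09000b1b000d594a0d71520d6a8e1210830d6a800d6a84146000144e0e144e0413ff03145a0014540014540e14540416a30316a98016a38016a38e16a3841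3f10013f10406060308558008558405aa8307fa0007fa0413ff03164e80164e840d100e061b03086a800ac0d20d10000d100405c6830816000816040f59000f59010ab3000ab304164083164780164784164e0e18ff0518f8001b4f4a1b484a164e00164e04086b0e061b83086b00086b040a73030ac7800ac78408168e05c7030816800816840d110e0cbc830d11000d11040ac20e0cbc830ac2000ac20405d38308230008230408708e0621030870800870840abb0e0a66830abb000abb04086a0e061a83086a00086a0405c60308158008158408100e0a67030810000810040ab98e0a65030ab9800ab9840d030e0d02830d03000d03040ac00e0cb4830ac0000ac0040d118e0cbc830d11800d118405c583081500081504084f0e05ff83084f00084f0405c8030817800817840cc2030d16800d16840d5f8e0d59030d5f800d5f840a79030acd800acd8408108e05c1030810800810840ac68e0a72030ac6800ac68408098e05ba030809800809840cc2030d1d000d1d0407c28e05730307c28007c28407c30e05738307c30007c3040a670e0cb6030a67000a670407c78e05780307c78007c78407ce0e057e8307ce0007ce0405710307c08007c0840d040e0caf830d04000d040407b50e05658307b50007b5040a6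b0e0cb4030a6b000a6b0408110e0cb703081100081104080a0e05ba83080a00080a0407bc8e056d0307bc8007bc84057e0307cd8007cd8407c80e05788307c80007c804056a8307ba0007ba0413ff83164f00164f0414058e13b103140580140584169b8e164083169b80169b8413f78e13a30313f78013f78416470e1640831647001647040afc001d99001d8c001d8b00138f000f07000f13000f06000ef9000f05000ef8000ef7000ee9000b1a000b1a0e0a510009be0009b10009bd0009b0001d9f001d9f0e1d9e001d9e0e1d91001d910e1d4b001d3d0018ab0e18aa8e18a48e18a40e18a38e189d8e189d0e16b00e16af8e16a90e16a20e165b8e165b0e16548e164d8e140c0e140b8e14050e13fe0e13950013950e134f001341000f250e0f19000f190e0f18000f180e0f17000f170e0f0b000f0b0e0f0a000f0a0e0efd000efd0e0eef000eef0e0eb7000ea9000e9b000e69000e68000e5b000e5a000e4d000d710e0d708e0d6a0e0d1c8e0d1c0e0d158e0d70520b19000acd0e0acc8e0ac60e0a57000a570e0a2b0e0a2a8e0a248e0a240e0a1f000a1e8e0a1e0e0a1d8e0a1d0e0a170e0a168e0a11000a030009f50009d00e09cf0e09c30009c30e09c20009c20e09b50009b40005850e05848e057e0e057d8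e05770e041f8e03d20e03d18e03cb0e03b60e03b58e03af0e038a8e038a0e03840e03838e03830e03828e037d8e037d0e037c8e037c0e03768e03760e03758e03618e03610e035a8e03360e03358e03350e032f8e032f0e032e8e032e0e03290e03288e03280e03278e03220e03218e03210e03060e02e18e02e10e02e08e02db0e02da8e02da0e02d48e02d40e02d38e02d30e02cd0e02cc8e1d9f0f1d9e0f1d910f1d4b0f1d3d0f18ff8718f38718f28718f18718e58718ab0718aa8718a48718a40718a387189d87189d0718968716bd8716bd0716b70716b68716b00716af8716a90716a207166907166887166287166207165b87165b07165487164d8715f98715eb87146d87145487145387144687141987141907141307141287140c07140b8714050713fe0713aa87139c8713950f135c87135c07135607135587134f0f134e87134e0713480713478713410f0fc1870fc0870fb4870f250f0f190f0f180f0f170f0f12870f12070f0b870f0b0f0f0a0f0f04870f04070efd870efd0f0ef6870ef6070eef870eef0f0eb70f0ea90f0e9b0f0e690f0e680f0e5b0f0e5a0f0e4d0f0d71070d70870d70070d6f870d6a070d69870d69070d1c870d1c070d1b870d1b070d15870d15070d14870b22870b21870b20870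b190f0b15870b14870b09870b08870acd070acc870acc070acb870ac6070ac5870ac5070a78870a6c870a6b870a60870a5f870a5e870a5d870a570f0a50870a2b070a2a870a24870a24070a1f0f0a1e870a1e070a1d870a1d070a18070a17870a17070a16870a110f0a10870a10070a0f870a0a070a09870a09070a030f09f50f09d00f09cf0f09c30f09c20f09b50f09b40f06688705cc8705c18705c08705bf8705be8705b38705b18705a48705a387058507058487057e07057d87057707052387052287051887051787051587050a87042007041f87041f0704190704188703d20703d18703d10703cb8703cb0703ca8703c48703c40703b68703b60703b58703af8703af0703a887038a87038a07038407038387038307038287037d87037d07037c87037c07037707037687037607037587037007036f87036f07036207036187036107035b07035a87035407033607033587033507032f87032f07032e87032e07032907032887032807032787032287032207032187032107031b87031b07031a8703148703140703068703060702ff8702e18702e10702e08702db0702da8702da0702d98702d48702d40702d38702d30702ce0702cd8702cd0702cc8702c68702c60702c00702bf87 = true := by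
  decide +kernel

theorem d4_2_11 (hf : Rule f) {k c n s : ℕ} (H : DH f k c n) (hs : s % 2 = 0) (hs4 : 2 * n + 6 ≤ s)
    (h1 : f (6 * k + 2) (c) (s + 3) (s + 2)) (h2 : f (6 * k + 6) (c) (s + 3) (s + 2)) : ¬ f (6 * k + 2) (c + 2) (s + 7) (s) := by
  intro h0
  have hk := H.T.hk
  have hc := H.T.hc
  have h4 := H.T.h4
  have hb := H.T.hb
  have hN := H.T.hN2
  have g0 : ∀ M R x y : ℕ, M = 6 * k + 2 → R = c + 2 → x = s + 7 → y = s → f M R x y := by
    intro M R x y e1 e2 e3 e4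
    rw [e1, e2, e3, e4]
    exact h0
  clear h0
  have g1 : ∀ M R x y : ℕ, M = 6 * k + 2 → R = c → x = s + 3 → y = s + 2 → f M R x y := by
    intro M R x y e1 e2 e3 e4
    rw [e1, e2, e3, e4]
    exact h1
  clear h1
  have g2 : ∀ M R x y : ℕ, M = 6 * k + 6 → R = c → x = s + 3 → y = s + 2 → f M R x y := by
    intro M R x y e1 e2 e3 e4
    rw [e1, e2, e3, e4]
    exact h2
  clear h2
  obtain ⟨a0, ha0⟩ : ∃ z, z + 2 = 6 * k := ⟨6 * k - 2, by omega⟩
  obtain ⟨b0, hb0⟩ : ∃ z, z + 3 = c := ⟨c - 3, by omega⟩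
  obtain ⟨x0, hx0⟩ : ∃ z, z + 1 = s := ⟨s - 1, by omega⟩
  refine check_sound hf (a0 := a0) (b0 := b0) (x0 := x0) (y0 := x0) d4_2_11_chk
    ⟨fun _ => rfl, fun h => absurd h (by decide), fun h => absurd h (by decide), by omega, by omega,
      by omega, by omega⟩ ?_ ?_
  · intro j m p q hr h
    obtain ⟨-, -, -, -, hp1, hp2, hq1, hq2⟩ := hr
    replace h := of_decide_eq_true h
    rcases h with h | h | h | h | h | h | h | h | h | h | h | h | h
    · obtain ⟨rfl, rfl, h⟩ := h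
      exact (w0v H.c10 (by omega) (by omega) (by omega) (by omega) (by omega) (by omega) (by omega)).mpr (by omega)
    · obtain ⟨rfl, rfl, h⟩ := h
      exact (w1v H.c10 (by omega) (by omega) (by omega) (by omega) (by omega) (by omega) (by omega) (by omega)).mpr (by omega)
    · obtain ⟨rfl, rfl, h⟩ := h
      exact (w2v H.c10 (by omega) (by omega) (by omega) (by omega) (by omega) (by omega) (by omega)).mpr (by omega)
    · obtain ⟨rfl, rfl, h⟩ := h
      exact (w0v H.c8 (by omega) (by omega) (by omega) (by omega) (by omega) (by omega) (by omega)).mpr (by omega)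
    · obtain ⟨rfl, rfl, h⟩ := h
      exact (WrapC.v3 H.c6 (by omega) (by omega) (by omega) (by omega) (by omega) (by omega) (by omega) (by omega)).mpr (by omega)
    · obtain ⟨rfl, rfl, h⟩ := h
      exact (WrapC.v0 H.c4 (by omega) (by omega) (by omega) (by omega) (by omega) (by omega) (by omega)).mpr (by omega)
    · obtain ⟨rfl, rfl, h⟩ := h
      exact (WrapC.v1 H.c4 (by omega) (by omega) (by omega) (by omega) (by omega) (by omega) (by omega) (by omega)).mpr (by omega)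
    · obtain ⟨rfl, rfl, h⟩ := h
      exact (WrapC.v2 H.c4 (by omega) (by omega) (by omega) (by omega) (by omega) (by omega) (by omega)).mpr (by omega)
    · obtain ⟨rfl, rfl, h⟩ := h
      exact (WrapC.v2 H.c2 (by omega) (by omega) (by omega) (by omega) (by omega) (by omega) (by omega)).mpr (by omega)
    · obtain ⟨rfl, rfl, h⟩ := h
      exact (WrapC.v3 H.c2 (by omega) (by omega) (by omega) (by omega) (by omega) (by omega) (by omega) (by omega)).mpr (by omega)
    · obtain ⟨rfl, rfl, rfl, rfl⟩ := h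
      exact g0 _ _ _ _ (by omega) (by omega) (by omega) (by omega)
    · obtain ⟨rfl, rfl, rfl, rfl⟩ := h
      exact g1 _ _ _ _ (by omega) (by omega) (by omega) (by omega)
    · obtain ⟨rfl, rfl, rfl, rfl⟩ := h
      exact g2 _ _ _ _ (by omega) (by omega) (by omega) (by omega)
  · intro j m p q hr h
    obtain ⟨-, -, -, -, hp1, hp2, hq1, hq2⟩ := hr
    replace h := of_decide_eq_true h
    rcases h with h | h | h | h | h | h | h | h | h | h | h | h | h | h | h | h | h | h | h | h | h | h | h | h | h | h | h | h | h | h | h | h | h | h | h | h | h | h | h | h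
    · obtain ⟨rfl, rfl, h⟩ := h
      exact mt (w0v H.c10 (by omega) (by omega) (by omega) (by omega) (by omega) (by omega) (by omega)).mp (by omega)
    · obtain ⟨rfl, rfl, h⟩ := h
      exact mt (w1v H.c10 (by omega) (by omega) (by omega) (by omega) (by omega) (by omega) (by omega) (by omega)).mp (by omega)
    · obtain ⟨rfl, rfl, h⟩ := h
      exact mt (w2v H.c10 (by omega) (by omega) (by omega) (by omega) (by omega) (by omega) (by omega)).mp (by omega)
    · obtain ⟨rfl, rfl, h⟩ := h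
      exact mt (w0v H.c8 (by omega) (by omega) (by omega) (by omega) (by omega) (by omega) (by omega)).mp (by omega)
    · obtain ⟨rfl, rfl, h⟩ := h
      exact mt (WrapC.v3 H.c6 (by omega) (by omega) (by omega) (by omega) (by omega) (by omega) (by omega) (by omega)).mp (by omega)
    · obtain ⟨rfl, rfl, h⟩ := h
      exact mt (WrapC.v0 H.c4 (by omega) (by omega) (by omega) (by omega) (by omega) (by omega) (by omega)).mp (by omega)
    · obtain ⟨rfl, rfl, h⟩ := h
      exact mt (WrapC.v1 H.c4 (by omega) (by omega) (by omega) (by omega) (by omega) (by omega) (by omega) (by omega)).mp (by omega)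
    · obtain ⟨rfl, rfl, h⟩ := h
      exact mt (WrapC.v2 H.c4 (by omega) (by omega) (by omega) (by omega) (by omega) (by omega) (by omega)).mp (by omega)
    · obtain ⟨rfl, rfl, h⟩ := h
      exact mt (WrapC.v2 H.c2 (by omega) (by omega) (by omega) (by omega) (by omega) (by omega) (by omega)).mp (by omega)
    · obtain ⟨rfl, rfl, h⟩ := h
      exact mt (WrapC.v3 H.c2 (by omega) (by omega) (by omega) (by omega) (by omega) (by omega) (by omega) (by omega)).mp (by omega)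
    · obtain ⟨rfl, rfl, h⟩ := h
      exact H.lw _ _ _ _ (by omega) (by omega) (by omega) (by omega) (by omega) (by omega)
    · obtain ⟨rfl, rfl, h⟩ := h
      exact H.lw _ _ _ _ (by omega) (by omega) (by omega) (by omega) (by omega) (by omega)
    · obtain ⟨rfl, rfl, h⟩ := h
      exact H.lw _ _ _ _ (by omega) (by omega) (by omega) (by omega) (by omega) (by omega)
    · obtain ⟨rfl, rfl, h⟩ := h
      exact H.lw _ _ _ _ (by omega) (by omega) (by omega) (by omega) (by omega) (by omega)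
    · obtain ⟨rfl, rfl, h⟩ := h
      exact H.lw _ _ _ _ (by omega) (by omega) (by omega) (by omega) (by omega) (by omega)
    · obtain ⟨rfl, rfl, h⟩ := h
      exact rm1 hf H.T (p := 0) (j := 3) (by omega) (by omega) (by omega) (by omega) (by omega) (by omega) (by omega)
    · obtain ⟨rfl, rfl, h⟩ := h
      exact rm1i hf H.T (p := 0) (j := 3) (by omega) (by omega) (by omega) (by omega) (by omega) (by omega) (by omega)
    · obtain ⟨rfl, rfl, h⟩ := h
      exact r1 hf H.T (p := 0) (j := 3) (by omega) (by omega) (by omega) (by omega) (by omega) (by omega) (by omega)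
    · obtain ⟨rfl, rfl, h⟩ := h
      exact r1i hf H.T (p := 0) (j := 4) (by omega) (by omega) (by omega) (by omega) (by omega) (by omega) (by omega)
    · obtain ⟨rfl, rfl, h⟩ := h
      exact NHT.pmi hf H.T (j := 2) (by omega) (by omega) (by omega) (by omega) (by omega) (by omega)
    · obtain ⟨rfl, rfl, h⟩ := h
      exact r1 hf H.T (p := 1) (j := 3) (by omega) (by omega) (by omega) (by omega) (by omega) (by omega) (by omega)
    · obtain ⟨rfl, rfl, h⟩ := h
      exact r1i hf H.T (p := 1) (j := 4) (by omega) (by omega) (by omega) (by omega) (by omega) (by omega) (by omega)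
    · obtain ⟨rfl, rfl, h⟩ := h
      exact NHT.p2 hf H.T (j := 3) (by omega) (by omega) (by omega) (by omega) (by omega) (by omega)
    · obtain ⟨rfl, rfl, h⟩ := h
      exact rm1 hf H.T (p := 0) (j := 1) (by omega) (by omega) (by omega) (by omega) (by omega) (by omega) (by omega)
    · obtain ⟨rfl, rfl, h⟩ := h
      exact rm1i hf H.T (p := 0) (j := 1) (by omega) (by omega) (by omega) (by omega) (by omega) (by omega) (by omega)
    · obtain ⟨rfl, rfl, h⟩ := h
      exact r1 hf H.T (p := 0) (j := 1) (by omega) (by omega) (by omega) (by omega) (by omega) (by omega) (by omega)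
    · obtain ⟨rfl, rfl, h⟩ := h
      exact r1i hf H.T (p := 0) (j := 2) (by omega) (by omega) (by omega) (by omega) (by omega) (by omega) (by omega)
    · obtain ⟨rfl, rfl, h⟩ := h
      exact NHT.pmi hf H.T (j := 0) (by omega) (by omega) (by omega) (by omega) (by omega) (by omega)
    · obtain ⟨rfl, rfl, h⟩ := h
      exact NHT.p0i hf H.T (j := 1) (by omega) (by omega) (by omega) (by omega) (by omega) (by omega)
    · obtain ⟨rfl, rfl, h⟩ := h
      exact NHT.p0 hf H.T (j := 0) (by omega) (by omega) (by omega) (by omega) (by omega) (by omega)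
    · obtain ⟨rfl, rfl, h⟩ := h
      exact rm1 hf H.T (p := 1) (j := 0) (by omega) (by omega) (by omega) (by omega) (by omega) (by omega) (by omega)
    · obtain ⟨rfl, rfl, h⟩ := h
      exact rm1i hf H.T (p := 1) (j := 1) (by omega) (by omega) (by omega) (by omega) (by omega) (by omega) (by omega)
    · obtain ⟨rfl, rfl, h⟩ := h
      exact NHT.p0i hf H.T (j := 1) (by omega) (by omega) (by omega) (by omega) (by omega) (by omega)
    · obtain ⟨rfl, rfl, h⟩ := h
      exact NHT.p0 hf H.T (j := 0) (by omega) (by omega) (by omega) (by omega) (by omega) (by omega)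
    · obtain ⟨rfl, rfl, h⟩ := h
      exact NHT.p2 hf H.T (j := 1) (by omega) (by omega) (by omega) (by omega) (by omega) (by omega)
    · obtain ⟨rfl, rfl, h⟩ := h
      exact r1 hf H.T (p := 1) (j := 1) (by omega) (by omega) (by omega) (by omega) (by omega) (by omega) (by omega)
    · obtain ⟨rfl, rfl, h⟩ := h
      exact r1i hf H.T (p := 1) (j := 2) (by omega) (by omega) (by omega) (by omega) (by omega) (by omega) (by omega)
    · obtain ⟨rfl, rfl, h⟩ := h
      exact NHT.p2 hf H.T (j := 1) (by omega) (by omega) (by omega) (by omega) (by omega) (by omega)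
    · obtain ⟨rfl, rfl, h⟩ := h
      exact rm1i hf H.T (p := 0) (j := 0) (by omega) (by omega) (by omega) (by omega) (by omega) (by omega) (by omega)
    · obtain ⟨rfl, rfl, h⟩ := h
      exact r1 hf H.T (p := 0) (j := 0) (by omega) (by omega) (by omega) (by omega) (by omega) (by omega) (by omega)

end Pool.Agent.SNT.LN
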