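import Pool.Agent.SNT.NWD

set_option autoImplicit false

/-! The near-diagonal windows of the top leader `6 k + 10` (`c` is its IN row, `n` its lead): the hypotheses. -/

namespace Pool.Agent.SNT.LN

open Pool.Agent.SNT Pool.Agent.SNT.Loc Pool.Agent.SNT.LW Pool.Agent.SNT.NHZ Pool.Agent.SNT.NW

variable {f : ℕ → ℕ → ℕ → ℕ → Prop}

/-- The hypotheses of the near-diagonal windows. -/
structure DH (f : ℕ → ℕ → ℕ → ℕ → Prop) (k c n : ℕ) : Prop where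
  T : NHT f k c (2 * n)
  c2 : Cyc f (6 * k + 2) (c - 4) (2 * (n - 1) + 2)
  c4 : Cyc f (6 * k + 4) (c - 2) (2 * (n + 1) + 2)
  c6 : Cyc f (6 * k + 6) (c - 4) (2 * (n - 5) + 2)
  c8 : Cw f (6 * k + 8) (c - 2) (n - 3)
  c10 : Cw f (6 * k + 10) c n
  lw : ∀ M R x y : ℕ, M + 1 = 6 * k → c ≤ R + 12 → R ≤ c + 12 → 2 * n ≤ x → y ≤ x → x ≤ y + 4 * k → ¬ f M R x y

theorem DH.of_nwh {k c n : ℕ} (H : NWH f k c n) : DH f k c n :=
  ⟨H.T, WrapC.cyc_mono H.c2 (by omega), WrapC.cyc_mono H.c4 (by omega), H.c6, H.c8, H.c10, H.lw⟩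

end Pool.Agent.SNT.LN
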