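import Pool.Agent.SNT.LRDef

set_option autoImplicit false
set_option linter.unusedVariables false
set_option synthInstance.maxSize 100000
set_option synthInstance.maxHeartbeats 4000000

/-! Windows near the diagonal. -/

namespace Pool.Agent.SNT.LRI

open Pool.Agent.SNT Pool.Agent.SNT.Loc Pool.Agent.SNT.LW Pool.Agent.SNT.NHZ

variable {f : ℕ → ℕ → ℕ → ℕ → Prop}

theorem dDC_3_chk : check 9 6 15 15 0 0 1 1 2
    (fun j n p q => decide ((j = 8 ∧ n = 2 ∧ ((p = 10 ∧ ((q = 1) ∨ (q = 3) ∨ (q = 5) ∨ (q = 7))) ∨ (p = 12 ∧ ((q = 1) ∨ (q = 3) ∨ (q = 5) ∨ (q = 7) ∨ (q = 9)))))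
      ∨ (j = 6 ∧ n = 2 ∧ ((p = 7 ∧ q = 6) ∨ (((p = 9) ∨ (p = 11)) ∧ ((q = 6) ∨ (q = 8))) ∨ (p = 13 ∧ ((q = 6) ∨ (q = 8) ∨ (q = 10) ∨ (q = 12)))))
      ∨ (j = 2 ∧ n = 2 ∧ (((p = 9) ∨ (p = 11) ∨ (p = 13)) ∧ ((q = 6) ∨ (q = 8))))
      ∨ (j = 4 ∧ n = 1 ∧ ((p = 10 ∧ q = 10) ∨ (p = 12 ∧ q = 12)))
      ∨ (j = 8 ∧ n = 4 ∧ (((p = 11) ∨ (p = 13)) ∧ q = 10))
      ∨ (j = 6 ∧ n = 3 ∧ ((p = 8 ∧ q = 8) ∨ (p = 12 ∧ q = 12)))
      ∨ (j = 2 ∧ n = 3 ∧ ((p = 8 ∧ q = 8) ∨ (p = 10 ∧ q = 10)))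
      ∨ (j = 2 ∧ n = 1 ∧ ((p = 7 ∧ q = 7) ∨ (p = 9 ∧ q = 9)))
      ∨ (j = 4 ∧ n = 2 ∧ (p = 8 ∧ q = 7))))
    (fun j n p q => decide ((j = 5 ∧ n = 3 ∧ ((p = 10 ∧ 1 ≤ q ∧ q ≤ 7) ∨ (p = 11 ∧ ((1 ≤ q ∧ q ≤ 2) ∨ (q = 4))) ∨ (p = 12 ∧ 3 ≤ q ∧ q ≤ 9) ∨ (p = 13 ∧ 3 ≤ q ∧ q ≤ 10)))
      ∨ (j = 1 ∧ n = 3 ∧ ((p = 8 ∧ 3 ≤ q ∧ q ≤ 6) ∨ (p = 9 ∧ ((3 ≤ q ∧ q ≤ 4) ∨ (q = 6))) ∨ (p = 10 ∧ 4 ≤ q ∧ q ≤ 8) ∨ (p = 11 ∧ q = 6) ∨ (12 ≤ p ∧ p ≤ 13 ∧ 5 ≤ q ∧ q ≤ 8)))
      ∨ (j = 1 ∧ n = 4 ∧ ((p = 8 ∧ 3 ≤ q ∧ q ≤ 6) ∨ (p = 9 ∧ ((q = 4) ∨ (q = 6))) ∨ (p = 10 ∧ 4 ≤ q ∧ q ≤ 8) ∨ (p = 11 ∧ q = 6) ∨ (p = 12 ∧ 5 ≤ q ∧ q ≤ 8) ∨ (p = 13 ∧ ((q = 6) ∨ (q = 8)))))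
      ∨ (j = 4 ∧ n = 3 ∧ ((p = 10 ∧ ((q = 1) ∨ (q = 3) ∨ (5 ≤ q ∧ q ≤ 6))) ∨ (p = 11 ∧ ((q = 3) ∨ (6 ≤ q ∧ q ≤ 8))) ∨ (p = 12 ∧ ((q = 3) ∨ (q = 6) ∨ (q = 8))) ∨ (p = 13 ∧ 8 ≤ q ∧ q ≤ 10)))
      ∨ (j = 3 ∧ n = 3 ∧ ((9 ≤ p ∧ p ≤ 10 ∧ 3 ≤ q ∧ q ≤ 5) ∨ (p = 12 ∧ q = 4) ∨ (p = 13 ∧ 4 ≤ q ∧ q ≤ 5)))
      ∨ (j = 6 ∧ n = 3 ∧ ((10 ≤ p ∧ p ≤ 11 ∧ 1 ≤ q ∧ q ≤ 2) ∨ (p = 13 ∧ 3 ≤ q ∧ q ≤ 5)))
      ∨ (j = 4 ∧ n = 1 ∧ ((7 ≤ p ∧ p ≤ 8 ∧ ((q = 1) ∨ (q = 3) ∨ (q = 5))) ∨ (p = 12 ∧ q = 10)))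
      ∨ (j = 5 ∧ n = 4 ∧ (p = 13 ∧ 3 ≤ q ∧ q ≤ 9))
      ∨ (j = 2 ∧ n = 3 ∧ ((p = 8 ∧ q = 5) ∨ (((p = 10) ∨ (12 ≤ p ∧ p ≤ 13)) ∧ 4 ≤ q ∧ q ≤ 5)))
      ∨ (j = 9 ∧ n = 4 ∧ (p = 13 ∧ 4 ≤ q ∧ q ≤ 9))
      ∨ (j = 5 ∧ n = 4 ∧ ((p = 11 ∧ 1 ≤ q ∧ q ≤ 4) ∨ (p = 12 ∧ 3 ≤ q ∧ q ≤ 4)))
      ∨ (j = 7 ∧ n = 3 ∧ (11 ≤ p ∧ p ≤ 12 ∧ ((q = 2) ∨ (q = 4))))
      ∨ (j = 3 ∧ n = 1 ∧ (7 ≤ p ∧ p ≤ 8 ∧ ((q = 1) ∨ (q = 3))))
      ∨ (j = 3 ∧ n = 2 ∧ (7 ≤ p ∧ p ≤ 8 ∧ ((q = 1) ∨ (q = 3))))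
      ∨ (j = 3 ∧ n = 4 ∧ (p = 13 ∧ ((4 ≤ q ∧ q ≤ 5) ∨ (q = 7) ∨ (q = 9))))
      ∨ (j = 3 ∧ n = 4 ∧ (10 ≤ p ∧ p ≤ 11 ∧ 3 ≤ q ∧ q ≤ 4))
      ∨ (j = 5 ∧ n = 3 ∧ ((p = 10 ∧ q = 8) ∨ (p = 11 ∧ q = 9) ∨ (p = 12 ∧ q = 10)))
      ∨ (j = 4 ∧ n = 3 ∧ ((p = 10 ∧ q = 8) ∨ (p = 11 ∧ q = 9) ∨ (p = 12 ∧ q = 10)))
      ∨ (j = 5 ∧ n = 4 ∧ ((11 ≤ p ∧ p ≤ 12 ∧ q = 9) ∨ (p = 13 ∧ q = 11)))
      ∨ (j = 6 ∧ n = 4 ∧ (p = 13 ∧ ((q = 4) ∨ (q = 6) ∨ (q = 8))))
      ∨ (j = 2 ∧ n = 4 ∧ (p = 13 ∧ ((q = 4) ∨ (q = 6) ∨ (q = 8))))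
      ∨ (j = 5 ∧ n = 4 ∧ ((p = 9 ∧ q = 2) ∨ (p = 10 ∧ 1 ≤ q ∧ q ≤ 2)))
      ∨ (j = 1 ∧ n = 4 ∧ (p = 13 ∧ ((q = 5) ∨ (q = 7))))
      ∨ (j = 3 ∧ n = 4 ∧ (p = 12 ∧ q = 9))
      ∨ (j = 7 ∧ n = 4 ∧ (p = 13 ∧ q = 7))
      ∨ (j = 4 ∧ n = 4 ∧ (p = 10 ∧ q = 1))
      ∨ (j = 7 ∧ n = 4 ∧ (p = 12 ∧ q = 2))
      ∨ (j = 4 ∧ n = 4 ∧ (p = 12 ∧ q = 3))
      ∨ (j = 6 ∧ n = 4 ∧ (p = 11 ∧ q = 2))
      ∨ (j = 1 ∧ n = 4 ∧ (p = 9 ∧ q = 3))
      ∨ (j = 8 ∧ n = 4 ∧ (p = 11 ∧ q = 2))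
      ∨ (j = 8 ∧ n = 4 ∧ (p = 12 ∧ q = 2))))
    959
    0x11e883148b801736da173e8019e24a172f8017379a11e883148b801736da17370017370414698e11c6831469801469840f140e0c78830f14000f140417148e19c7031714801714840c80000f2b5a1472030eb3000eb3041472030f23800f238414948e19e30314948014948419bf0e17238319bf0019bf0419db8e17388319db8019db84148d8e0f400511e38011ead21486c2148d80148d840f3f8e074d8307468009f000074e9a0c9b5a09f2000c9b800c9cd20c9c0a0f3f800f3f8406ba0e09d60306ba0006ba040a0003074d80074d84075c8e0a0f03075c80075c840cab000cab8a0c808e11b783145a801705da170d8019b852170c8017149a11b783145a801705da170d00170d04148c8e11e983148c80148c8417378e19e303173780173784149c030ed6000ed60414718e19c70314718014718419bf0e17238319bf0019bf0419db8e17388319db8019db8414788e0f320511dc8011d5ca147fc21478801478840c78830f14000f14040c7f800c800a0ca3800c80800c808e0c80840f1b8e0c78830f1b800f1b840f230e0c80030f23000f230409d50e07398309e4000c87ca09d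50009d50416fd8e16f68316fe8019a95216fd8016fd840f460e0ca2830f46000f460409568e0f1503095680095684095e0e0f1503095e00095e04113f8e11b883113f80113f8406ec0e0a0f0306ec0006ec0414930e11f783149300149304114e8e11c783114e80114e840eab8e11c7830eab800eab8411c68e14720311c68011c684146a0e11c783146a00146a04146a8e11c783146a80146a840f15030f1c800f1c840e9c8e11b8830e9c800e9c8409f08e074d8309f08009f08409658e0c88830965800965840f4e0e0cab830f4e000f4e040a000e0cab830a00000a000411ea8e149d0311ea8011ea840f478e149d030f47800f47840c9c8e0f48030c9c800c9c840ec20e1481030ec2000ec20414950e11f983149500149504149c8e11f983149c80149c840cab830f4e800f4e840cac030f4f000f4f040a010e0757050a0200075e920cacd20a01000a01040c180e0f3b030c18000c18040cab8e0f57030cab800cab840c978e0f4a030c97800c97840c3c0e0f58030c3c000c3c040c448e0e6f830c44800c44840c360e0ed8830c3d000c36000c360e0c36040ca68e0ed8830cad800ca6800ca68e0ca6840ed80e0c35030ed8000ed804091a8e0e6883091a80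091a840f470e11f9830f47000f470409dc8e07398309dc8009dc8414710e1723831471001471040eba8e11d6830eba800eba8417360e17358317360017360406c18e073a8306c18006c18409f88e07558309f88009f88409dd0e073a8309dd0009dd04041e8e073a83041e80041e84048f0e073a83048f00048f0406ec8e076c8306ec8006ec840f508e0ed8830f49800f50800f508e0f50840a008e075d830a00800a008409e48e07418309e48009e484144b8e11a883144b80144b840c170e0f3a030c17000c17040c698e0f05030c69800c698409de0e073b8309de0009de040f0c8e0f05030f0c800f0c8409ec8e07498309ec8009ec840ee78e0e6f830ee7800ee784075d8e0a1003075d80075d840a088e0765830a08800a088404ac0e075e8304ac0004ac04043b8e075e83043b80043b84044b0e0a1103044b00044b0407498e09f50307498007498404bb8e0a110304bb8004bb840a090e076d830a09000a0904041f8e073b83041f80041f8404900e073b83049000049004076c830a0f800a0f84044a8e076d83044a80044a8404bb0e076d8304bb0004bb040a108e076d830a10800a10840f350e11e7830f35000f35040b78800b80120b87800baa800b8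f120bab0a0b96800c25800bab800e4152172b80172a8016428016338016248016158016068016328016238016148016058011138011048010f58010e68010f48010e58010f38010e48010e3800c25810e4f4a0ba580066980065a8006688006598006678006588019e30e19e28e19e20e19e18e19e10e19e08e17408017408e17350e17318017318e172d8e16578016578e16568016568e16558016558e16548016548e16538016538e16478016478e16468016468e16458016458e16448016448e149c0e14920e14228e14218e141b0e141a0e11f98e11f88e11f78e11e78e11878e11870e11868e11838011770e11768e116f8e116f0e116380111a80111a8e11198011198e11188011188e11178011178e11098011098e11088011088e10fa8010fa8e10f98010f98e10ea8010ea8e0f580e0f570e0f568e0f560e0f558e0f550e0f548e0f540e0f4f8e0f4d0e0f4c8e0f480e0f458e0f450e0f448e0f440e0f3d0e0f3c8e0f358e0ee70e0ee68e0ee60e0ee58e0ee50e0ee48e0ee40e0ee38e0edf8e0edf0e0ede8e0ede0e0edd8e0edd0e0edc8e0edc0e0ed78e0ed50e0ed40e0ed38e0ecf8e0ecf0e0ece8e0ece0e0ecd8e0ecd0e0ecc8e0ecc0e0ca98e0c998e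0c440e0c438e0c430e0c3c8e0c3b8e0c3a8e0c390e0c348e0c340e0c338e0c330e0c318e0c2c8e0c2b8e0c2b0e0c290e0bac800bac8e0b5c800b5b8e0b4c800b3b0e0b3a0e0b390e0b338e0b328e0b318e0a110e0a098e09ff8e09f80e09880e09878e09808e09800e09078e09068e09000e08ff0e08970e08960e088f8e088e8e076d8e076c8e06fb8e06f40e06e78006e50e06e48e06d78006d60e068c80068c8e068b80068b8e067d80067d8e067c80067c8e066e80066e8e066d80066d8e05fe8005ee8004c98e04c90e04c20e04c18e04ba8e04b40e04b38e04b30e04b28e04ab8e04a40e04a38e04590e04588e04518e04510e044a0e04438e04430e04428e04420e043b0e04338e04330e19e30719e28719e20719e18719e10719e08717408f174007173f0717350717318f173107173007172f07172e07172d8717240717230717150717140717060717050716f60716578f16568f16558f16548f16538f16478f16468f16458f16448f149c07149207142287142187141b07141a0711fa0711f98711f90711f88711f78711f70711ea0711e90711e80711e78711e70711de0711dc0711cf0711ce0711c00711bf0711b10711b00711a107118787118707118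68711838f117707117687116f87116f0711638f111a8f11198f11188f11178f11098f11088f10fa8f10f98f10ea8f0f58070f57070f56870f56070f55870f55070f54870f54070f4f870f4d070f4c870f48070f45870f45070f44870f44070f3d070f3c870f35870ee7070ee6870ee6070ee5870ee5070ee4870ee4070ee3870edf870edf070ede870ede070edd870edd070edc870edc070ed7870ed5070ed4070ed3870ecf870ecf070ece870ece070ecd870ecd070ecc870ecc070cb5070cb4070ca9870ca7070ca5070ca4070ca2070c99870c98070c97070c95070c94070c93070c88070c87070c78070c6a070c5a070c44070c43870c43070c3c870c3b870c3a870c39070c34870c34070c33870c33070c31870c2c870c2b870c2b070c2a070c29070bc5070bc4070bb5070bac8f0ba4070ba3070b96070b87070b78070b5c8f0b5b870b4c8f0b3b070b3a070b39070b33870b32870b31870a11070a10070a0f070a0e870a098709ff8709ff0709f80709f787099e87099e07099687098807098787098707098087098007097f8709078709068709000708ff07089707089607088f87088e87076e07076d87076d07076c87076c07076b87075e07075d07075207074e07074d0707420707410707340707330707320706fb8706fb0706f40706f38706e78f06e50706e48706d78f06d607068c8f068b8f067d8f067c8f066e8f066d8f05fe8f05ee8f04ca8704ca0704c98704c90704c30704c28704c20704c18704ba8704b40704b38704b30704b28704b20704ab8704aa8704aa0704a40704a38704a30704a287045a07045987045907045887045287045207045187045107044a07044387044307044287044207044187043b07043a07043987043387043307043287043207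 = true := by
  decide +kernel

theorem dDC_3 (hf : Rule f) {k c n : ℕ} (H : LI f k c n) (hF2 : F2 f k c n) (hF6 : F6 f k c n)
    (hB : FB f k c n) (hC : FC f k c n)
    (g1 : ∀ {M R x y : ℕ}, M = 6 * k + 4 → R + 2 = c → x + 3 = 2 * n → y + 4 = 2 * n → f M R x y)
    (g2 : ∀ {M R x y : ℕ}, M = 6 * k + 8 → R = c → x = 2 * n → y + 9 = 2 * n → ¬ f M R x y)
    (g3 : ∀ {M R x y : ℕ}, M = 6 * k + 8 → R = c → x = 2 * n + 1 → y + 9 = 2 * n → ¬ f M R x y) : False := by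
  have hk := H.T.hk
  have hc := H.T.hc
  have h4 := H.T.h4
  have hb := H.T.hb
  have hN := H.T.hN2
  obtain ⟨a0, ha0⟩ : ∃ z, z = 6 * k + 0 := ⟨_, rfl⟩
  obtain ⟨b0, hb0⟩ : ∃ z, z + 4 = c := ⟨c - 4, by omega⟩
  obtain ⟨x0, hx0⟩ : ∃ z, z + 11 = 2 * n := ⟨2 * n - 11, by omega⟩
  obtain ⟨y0, hy0⟩ : ∃ z, z + 11 = 2 * n := ⟨2 * n - 11, by omega⟩
  refine check_sound hf (a0 := a0) (b0 := b0) (x0 := x0) (y0 := y0) dDC_3_chk
    ⟨fun _ => by omega, fun h => absurd h (by decide), fun h => absurd h (by decide), by omega, by omega,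
      by omega, by omega⟩ ?_ ?_
  · intro j m p q hr h
    obtain ⟨-, -, -, -, hp1, hp2, hq1, hq2⟩ := hr
    replace h := of_decide_eq_true h
    rcases h with h | h | h | h | h | h | h | h | h
    · obtain ⟨rfl, rfl, h⟩ := h
      exact (NW.w0v H.a8 (by omega) (by omega) (by omega) (by omega) (by omega) (by omega) (by omega)).mpr (by omega)
    · obtain ⟨rfl, rfl, h⟩ := h
      exact (WrapC.v2 H.a6 (by omega) (by omega) (by omega) (by omega) (by omega) (by omega) (by omega)).mpr (by omega)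
    · obtain ⟨rfl, rfl, h⟩ := h
      exact (WrapC.v2 H.a2 (by omega) (by omega) (by omega) (by omega) (by omega) (by omega) (by omega)).mpr (by omega)
    · obtain ⟨rfl, rfl, h⟩ := h
      exact (WrapC.v3 H.b4 (by omega) (by omega) (by omega) (by omega) (by omega) (by omega) (by omega) (by omega)).mpr (by omega)
    · obtain ⟨rfl, rfl, h⟩ := h
      exact (NW.w2v H.a8 (by omega) (by omega) (by omega) (by omega) (by omega) (by omega) (by omega)).mpr (by omega)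
    · obtain ⟨rfl, rfl, h⟩ := h
      exact (WrapC.v3 H.a6 (by omega) (by omega) (by omega) (by omega) (by omega) (by omega) (by omega) (by omega)).mpr (by omega)
    · obtain ⟨rfl, rfl, h⟩ := h
      exact (WrapC.v3 H.a2 (by omega) (by omega) (by omega) (by omega) (by omega) (by omega) (by omega) (by omega)).mpr (by omega)
    · obtain ⟨rfl, rfl, h⟩ := h
      exact (WrapC.v1 H.a2 (by omega) (by omega) (by omega) (by omega) (by omega) (by omega) (by omega) (by omega)).mpr (by omega)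
    · obtain ⟨rfl, rfl, h⟩ := h
      exact g1 (by omega) (by omega) (by omega) (by omega)
  · intro j m p q hr h
    obtain ⟨-, -, -, -, hp1, hp2, hq1, hq2⟩ := hr
    replace h := of_decide_eq_true h
    rcases h with h | h | h | h | h | h | h | h | h | h | h | h | h | h | h | h | h | h | h | h | h | h | h | h | h | h | h | h | h | h | h | h
    · obtain ⟨rfl, rfl, h⟩ := h
      exact NW.rm1i hf H.T (p := 1) (j := 2) (by omega) (by omega) (by omega) (by omega) (by omega) (by omega) (by omega)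
    · obtain ⟨rfl, rfl, h⟩ := h
      exact H.eo _ _ _ _ (by omega) (by omega) (by omega) (by omega) (by omega) (by omega) (by omega)
    · obtain ⟨rfl, rfl, h⟩ := h
      exact H.eo _ _ _ _ (by omega) (by omega) (by omega) (by omega) (by omega) (by omega) (by omega)
    · obtain ⟨rfl, rfl, h⟩ := h
      exact NW.rm1i hf H.T (p := 0) (j := 2) (by omega) (by omega) (by omega) (by omega) (by omega) (by omega) (by omega)
    · obtain ⟨rfl, rfl, h⟩ := h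
      exact NW.rm1i hf H.T (p := 1) (j := 3) (by omega) (by omega) (by omega) (by omega) (by omega) (by omega) (by omega)
    · obtain ⟨rfl, rfl, h⟩ := h
      exact NW.rm1i hf H.T (p := 0) (j := 1) (by omega) (by omega) (by omega) (by omega) (by omega) (by omega) (by omega)
    · obtain ⟨rfl, rfl, h⟩ := h
      exact NHT.rIn hf H.T (t := 3) (p := 0) (j := 1) (by omega) (by omega) (by omega) (by omega) (by omega) (by omega) (by omega) (by omega)
    · obtain ⟨rfl, rfl, h⟩ := h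
      exact NHT.p0i hf H.T (j := 2) (by omega) (by omega) (by omega) (by omega) (by omega) (by omega)
    · obtain ⟨rfl, rfl, h⟩ := h
      exact zrx hf H (p := 2) (by omega) (by omega) (by omega) (by omega) (by omega) (by omega) (by omega) (by omega) (by omega)
    · obtain ⟨rfl, rfl, h⟩ := h
      exact NHT.p0i hf H.T (j := 0) (by omega) (by omega) (by omega) (by omega) (by omega) (by omega)
    · obtain ⟨rfl, rfl, h⟩ := h
      exact hB.p5 _ _ _ _ (by omega) (by omega) (by omega) (by omega) (by omega) (by omega)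
    · obtain ⟨rfl, rfl, h⟩ := h
      exact NW.rm1i hf H.T (p := 1) (j := 1) (by omega) (by omega) (by omega) (by omega) (by omega) (by omega) (by omega)
    · obtain ⟨rfl, rfl, h⟩ := h
      exact NHT.rIn hf H.T (t := 3) (p := 1) (j := 2) (by omega) (by omega) (by omega) (by omega) (by omega) (by omega) (by omega) (by omega)
    · obtain ⟨rfl, rfl, h⟩ := h
      exact NHT.pmi hf H.T (j := 2) (by omega) (by omega) (by omega) (by omega) (by omega) (by omega)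
    · obtain ⟨rfl, rfl, h⟩ := h
      exact NHT.p0i hf H.T (j := 3) (by omega) (by omega) (by omega) (by omega) (by omega) (by omega)
    · obtain ⟨rfl, rfl, h⟩ := h
      exact hB.p3 _ _ _ _ (by omega) (by omega) (by omega) (by omega) (by omega) (by omega)
    · obtain ⟨rfl, rfl, h⟩ := h
      exact NW.rm1 hf H.T (p := 1) (j := 1) (by omega) (by omega) (by omega) (by omega) (by omega) (by omega) (by omega)
    · obtain ⟨rfl, rfl, h⟩ := h
      exact NW.rm1 hf H.T (p := 0) (j := 1) (by omega) (by omega) (by omega) (by omega) (by omega) (by omega) (by omega)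
    · obtain ⟨rfl, rfl, h⟩ := h
      exact NHT.pOut hf H.T (t := 4) (j := 1) (by omega) (by omega) (by omega) (by omega) (by omega) (by omega) (by omega)
    · obtain ⟨rfl, rfl, h⟩ := h
      exact hF6 _ _ _ _ (by omega) (by omega) (by omega) (by omega) (by omega) (by omega)
    · obtain ⟨rfl, rfl, h⟩ := h
      exact hF2 _ _ _ _ (by omega) (by omega) (by omega) (by omega) (by omega) (by omega)
    · obtain ⟨rfl, rfl, h⟩ := h
      exact hC.p5 _ _ _ _ (by omega) (by omega) (by omega) (by omega) (by omega) (by omega) (by omega)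
    · obtain ⟨rfl, rfl, h⟩ := h
      exact NHT.p0i hf H.T (j := 4) (by omega) (by omega) (by omega) (by omega) (by omega) (by omega)
    · obtain ⟨rfl, rfl, h⟩ := h
      exact NHT.pOut hf H.T (t := 4) (j := 2) (by omega) (by omega) (by omega) (by omega) (by omega) (by omega) (by omega)
    · obtain ⟨rfl, rfl, h⟩ := h
      exact NHT.p0i hf H.T (j := 1) (by omega) (by omega) (by omega) (by omega) (by omega) (by omega)
    · obtain ⟨rfl, rfl, h⟩ := h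
      exact hC.y4 _ _ _ _ (by omega) (by omega) (by omega) (by omega)
    · obtain ⟨rfl, rfl, h⟩ := h
      exact hC.p7 _ _ _ _ (by omega) (by omega) (by omega) (by omega) (by omega)
    · obtain ⟨rfl, rfl, h⟩ := h
      exact hB.y4 _ _ _ _ (by omega) (by omega) (by omega) (by omega)
    · obtain ⟨rfl, rfl, h⟩ := h
      exact hB.x6 _ _ _ _ (by omega) (by omega) (by omega) (by omega)
    · obtain ⟨rfl, rfl, h⟩ := h
      exact hB.p1 _ _ _ _ (by omega) (by omega) (by omega) (by omega) (by omega) (by omega)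
    · obtain ⟨rfl, rfl, h⟩ := h
      exact g2 (by omega) (by omega) (by omega) (by omega)
    · obtain ⟨rfl, rfl, h⟩ := h
      exact g3 (by omega) (by omega) (by omega) (by omega)

theorem dDB_3_9_chk : check 8 8 19 19 0 0 1 1 2
    (fun j n p q => decide ((j = 4 ∧ n = 4 ∧ ((p = 11 ∧ q = 10) ∨ (((p = 13) ∨ (p = 15) ∨ (p = 17)) ∧ ((q = 10) ∨ (q = 12)))))
      ∨ (j = 8 ∧ n = 4 ∧ ((((p = 11) ∨ (p = 13)) ∧ q = 10) ∨ (((p = 15) ∨ (p = 17)) ∧ ((q = 10) ∨ (q = 12)))))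
      ∨ (j = 6 ∧ n = 2 ∧ (((p = 9) ∨ (p = 11)) ∧ ((q = 6) ∨ (q = 8))))
      ∨ (j = 4 ∧ n = 2 ∧ ((p = 8 ∧ ((q = 3) ∨ (q = 7))) ∨ (((p = 10) ∨ (p = 12)) ∧ q = 7)))
      ∨ (j = 4 ∧ n = 1 ∧ ((p = 4 ∧ q = 4) ∨ (p = 6 ∧ q = 6)))
      ∨ (j = 2 ∧ n = 3 ∧ ((p = 8 ∧ q = 8) ∨ (p = 10 ∧ q = 10)))
      ∨ (j = 6 ∧ n = 3 ∧ (p = 8 ∧ q = 8))
      ∨ (j = 4 ∧ n = 5 ∧ (p = 12 ∧ q = 12))
      ∨ (j = 4 ∧ n = 3 ∧ (p = 11 ∧ q = 11))
      ∨ (j = 2 ∧ n = 1 ∧ (p = 5 ∧ q = 5))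
      ∨ (j = 4 ∧ n = 2 ∧ (p = 6 ∧ q = 1))
      ∨ (j = 6 ∧ n = 4 ∧ (p = 12 ∧ q = 11))))
    (fun j n p q => decide ((j = 3 ∧ n = 5 ∧ ((p = 11 ∧ q = 10) ∨ (p = 12 ∧ 5 ≤ q ∧ q ≤ 10) ∨ (p = 13 ∧ ((5 ≤ q ∧ q ≤ 8) ∨ (q = 10))) ∨ (p = 14 ∧ 8 ≤ q ∧ q ≤ 12) ∨ (p = 15 ∧ ((q = 10) ∨ (q = 12))) ∨ (16 ≤ p ∧ p ≤ 17 ∧ 9 ≤ q ∧ q ≤ 12)))
      ∨ (j = 3 ∧ n = 6 ∧ ((p = 11 ∧ q = 10) ∨ (p = 12 ∧ 5 ≤ q ∧ q ≤ 11) ∨ (p = 13 ∧ ((q = 6) ∨ (q = 8) ∨ (q = 10))) ∨ (p = 14 ∧ 8 ≤ q ∧ q ≤ 11) ∨ (((p = 15) ∨ (p = 17)) ∧ ((q = 10) ∨ (q = 12))) ∨ (p = 16 ∧ 9 ≤ q ∧ q ≤ 10)))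
      ∨ (j = 7 ∧ n = 5 ∧ ((p = 14 ∧ 8 ≤ q ∧ q ≤ 11) ∨ (p = 15 ∧ ((q = 8) ∨ (q = 10) ∨ (q = 12))) ∨ (16 ≤ p ∧ p ≤ 17 ∧ 9 ≤ q ∧ q ≤ 12)))
      ∨ (j = 6 ∧ n = 5 ∧ ((p = 13 ∧ q = 6) ∨ (p = 14 ∧ ((q = 6) ∨ (q = 8) ∨ (q = 10))) ∨ (p = 15 ∧ 8 ≤ q ∧ q ≤ 12)))
      ∨ (j = 5 ∧ n = 5 ∧ ((p = 12 ∧ q = 9) ∨ (p = 13 ∧ ((q = 6) ∨ (8 ≤ q ∧ q ≤ 9))) ∨ (p = 14 ∧ 6 ≤ q ∧ q ≤ 9)))
      ∨ (j = 5 ∧ n = 1 ∧ (6 ≤ p ∧ p ≤ 7 ∧ 2 ≤ q ∧ q ≤ 3))
      ∨ (j = 7 ∧ n = 6 ∧ (p = 17 ∧ 9 ≤ q ∧ q ≤ 12))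
      ∨ (j = 3 ∧ n = 1 ∧ (5 ≤ p ∧ p ≤ 6 ∧ ((q = 2) ∨ (q = 4))))
      ∨ (j = 3 ∧ n = 2 ∧ (5 ≤ p ∧ p ≤ 6 ∧ ((q = 2) ∨ (q = 4))))
      ∨ (j = 4 ∧ n = 5 ∧ (((p = 14) ∨ (16 ≤ p ∧ p ≤ 17)) ∧ q = 9))
      ∨ (j = 5 ∧ n = 6 ∧ (p = 17 ∧ 11 ≤ q ∧ q ≤ 13))
      ∨ (j = 5 ∧ n = 6 ∧ (p = 14 ∧ 6 ≤ q ∧ q ≤ 8))
      ∨ (j = 1 ∧ n = 4 ∧ ((p = 8 ∧ q = 8) ∨ (p = 9 ∧ 8 ≤ q ∧ q ≤ 9)))
      ∨ (j = 1 ∧ n = 5 ∧ ((p = 8 ∧ q = 8) ∨ (p = 9 ∧ 8 ≤ q ∧ q ≤ 9)))
      ∨ (j = 8 ∧ n = 5 ∧ (16 ≤ p ∧ p ≤ 17 ∧ q = 9))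
      ∨ (j = 7 ∧ n = 5 ∧ ((p = 14 ∧ q = 12) ∨ (p = 15 ∧ q = 13)))
      ∨ (j = 6 ∧ n = 5 ∧ ((p = 14 ∧ q = 12) ∨ (p = 15 ∧ q = 13)))
      ∨ (j = 4 ∧ n = 1 ∧ (p = 6 ∧ ((q = 2) ∨ (q = 4))))
      ∨ (j = 3 ∧ n = 6 ∧ (p = 17 ∧ ((q = 9) ∨ (q = 11))))
      ∨ (j = 8 ∧ n = 6 ∧ (p = 17 ∧ ((q = 10) ∨ (q = 12))))
      ∨ (j = 4 ∧ n = 6 ∧ (p = 17 ∧ ((q = 10) ∨ (q = 12))))
      ∨ (j = 3 ∧ n = 6 ∧ (p = 13 ∧ ((q = 5) ∨ (q = 7))))
      ∨ (j = 5 ∧ n = 4 ∧ (p = 11 ∧ q = 7))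
      ∨ (j = 7 ∧ n = 6 ∧ (p = 15 ∧ q = 13))
      ∨ (j = 5 ∧ n = 2 ∧ (p = 7 ∧ q = 3))
      ∨ (j = 6 ∧ n = 6 ∧ (p = 13 ∧ q = 6))
      ∨ (j = 6 ∧ n = 6 ∧ (p = 14 ∧ q = 6))))
    622
    0x1818831dbc801dbd0a182200182b922c140325a800265ca22c1403265c80265c84266580266f9a25e80e2c4b0325e80025e8042c2703266f80266f842c418e269d832c41802c418420de0e1b398320de0020de041b388e1a7a831b2f801b38801b388e1b388419bb8019b2801f5fc21f56c21f568e2c140325a800265ca22c1403265c80265c84266580266f9a2c270325bb0025bb042c2703266f80266f841b308320ca802678da20de002682ca2c26802c268425b983266e80266e84268a0e25cb83268a00268a041f68801f4d802516da24fbda2ab1002a9f002ab18a2aa8921f5f801f56801f568e1f56840f288314cc8014cc8414e08315950015950425af8e24fb8325af8025af84200b8e1f5683200b80200b8425cb0e25168325cb0025cb0425dd8e25200325dd8025dd842c408e269c832c40802c408420ef0e1b4b8320f000269dd220ef0020ef04201e0e1f5f83201e00201e041f608e1f56831f60801f6084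1f4d0e24fb831f4d001f4d0425b10e24fc0325b10025b1041f690e1f5f831f69001f690420ee8e1b4a8320ee8020ee8426660e265c8326660026660420ed8e1b498320ed8020ed8431c2832c14002c14042b958e3201832b95802b958420f88e1b548320f88020f8841a728e1b31831a72801a728420d48e1b308320d48020d48414ce8e1b318314ce8014ce8415830e1b318315830015830420d50e1b318320d50020d5041b32831a73801a738415058e1b71831505801505842c270e31d5832c27002c270420f98e1b558320f98020f98426828e2c3a032682802682841b5f8314f38014f38415960e1b448315960015960415ba0e1b718315ba0015ba0415068e1b728315068015068415bb0e1b728315bb0015bb0420e0031b31801b31841b5f8e2117031b5f801b5f842b968e3202832b96802b968425e90e2c4c0325e90025e9041b328320d68020d68418f3801e97c2183480182b80182b8e182b8425058025e0802520802ab352306c80305980306b8030588030578030568025e0812518802ac54a239280237f80239180237e8019c98019db8019c88019da8019c78019c680184180184080183f8018198018058032028e32018e314c8e31430e309980309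98e30988030988e30868030868e30858030858e30728030728e305f80305f8e2c5e8e2c5e0e2c5d8e2c5d0e2c4c0e2baa0e2ba98e2ba90e2ba88e2ba08e2ba00e2b9f8e2b9f0e2b978e2b970e2b960e2b950e2b8d8e2b8d0e2b8c8e2b8c0e2b8b8e269b0e26918e25f38e25f30e25f28e25f20e25f18e25f10e25e98e25e88e25e78e25e68e25dd0e25218025218e24458023ad8023ad8e23ac8023ac8e239a80239a8e23998023998e21160e20f80e20f78e20f70e20440e20438e20430e20428e203a8e203a0e20390e20310e1f720e1de10e1d2c8e1d2c0e1d230e1d228e1b718e1abc8e1ab30e1aa00e1a8e801a09801a08801a088e19f68019f68e19f58019f58e19e38019e38e19e28019e28e19cf8019cf8e191b80186e80186e8e185b80185b8e18488018488e18468e18328e178080177f8e177e8e176c8015cd8e15cd0e15c40e15c38e15bb8e15ba8e15b18e15b10e15b08e15a78e159e8e159e0e159d8e15948e15190e15188e150f8e150f0e15070e15060e14fd8e14fd0e14fc8e14fc0e14f30e14e98e14e90e14e00e12900e128f0e12868e12858e11db8e11da8e11d20e11d10e0dc9800db5800c2e8009840e08cf8e320287320207320187320107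31cc0731b907314c8731430730998f30988f30868f30858f30728f305f8f2c5e872c5e072c5d872c5d072c4c072baa072ba9872ba9072ba8872ba0872ba0072b9f872b9f072b97872b97072b96072b95072b8d872b8d072b8c872b8c072b8b8726a80726a707269b07269607269407269307269187268307268207267007266f07265c0725f38725f30725f28725f20725f18725f10725e98725e88725e78725e68725dd07252c0725218f25170725160725050725040724f20724458f23ad8f23ac8f239a8f23998f21170721168721160720f80720f78720f707204407204387204307204287203a87203a072039072031071f72071de1071d2c871d2c071d23071d22871b73071b72871b72071b71871b71071b5f071b4c071b4b071b4a071b49071b3c071b3b071b39071b29071b28071b27071abc871ab3071aa0071a8e8f1a098f1a088f19f68f19f58f19e38f19e28f19cf8f19bc0719bb0719a907191b8f186e8f185b8f18488f18468f183f0718328f182b0718190718180717808f177f87177e87176c8f15ce8715ce0715cd8715cd0715c40715c38715bb8715ba8715b18715b10715b08715b00715a78715a68715a60715a58715a507159e87159e07159d87159d07159c87159c07159b87159487151a07151987151907151887151087151007150f87150f0715070715060714fd8714fd0714fc8714fc0714fb8714f30714f20714f18714f10714f08714e98714e90714e88714e80714e78714e70714e007129007128f0712868712858711db8711da8711d20711d1070e88070e74070dc98f0db58f0c2e8f098487098407097a8708d00708cf8708c607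 = true := by
  decide +kernel

theorem dDB_3_9 (hf : Rule f) {k c n : ℕ} (H : LI f k c n) (hF2 : F2 f k c n) (hF6 : F6 f k c n) (hB : FB f k c n)
    (g1 : ∀ {M R x y : ℕ}, M = 6 * k + 2 → R + 4 = c → x + 9 = 2 * n → y + 14 = 2 * n → f M R x y)
    (g2 : ∀ {M R x y : ℕ}, M = 6 * k + 4 → R + 2 = c → x + 3 = 2 * n → y + 4 = 2 * n → f M R x y)
    (g3 : ∀ {M R x y : ℕ}, M = 6 * k + 4 → R = c → x + 2 = 2 * n → y + 9 = 2 * n → ¬ f M R x y)
    (g4 : ∀ {M R x y : ℕ}, M = 6 * k + 4 → R = c → x + 1 = 2 * n → y + 9 = 2 * n → ¬ f M R x y) : False := by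
  have hk := H.T.hk
  have hc := H.T.hc
  have h4 := H.T.h4
  have hb := H.T.hb
  have hN := H.T.hN2
  obtain ⟨a0, ha0⟩ : ∃ z, z + 2 = 6 * k := ⟨6 * k - 2, by omega⟩
  obtain ⟨b0, hb0⟩ : ∃ z, z + 6 = c := ⟨c - 6, by omega⟩
  obtain ⟨x0, hx0⟩ : ∃ z, z + 15 = 2 * n := ⟨2 * n - 15, by omega⟩
  obtain ⟨y0, hy0⟩ : ∃ z, z + 15 = 2 * n := ⟨2 * n - 15, by omega⟩
  refine check_sound hf (a0 := a0) (b0 := b0) (x0 := x0) (y0 := y0) dDB_3_9_chk
    ⟨fun _ => by omega, fun h => absurd h (by decide), fun h => absurd h (by decide), by omega, by omega,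
      by omega, by omega⟩ ?_ ?_
  · intro j m p q hr h
    obtain ⟨-, -, -, -, hp1, hp2, hq1, hq2⟩ := hr
    replace h := of_decide_eq_true h
    rcases h with h | h | h | h | h | h | h | h | h | h | h | h
    · obtain ⟨rfl, rfl, h⟩ := h
      exact (WrapC.v2 H.a2 (by omega) (by omega) (by omega) (by omega) (by omega) (by omega) (by omega)).mpr (by omega)
    · obtain ⟨rfl, rfl, h⟩ := h
      exact (WrapC.v2 H.a6 (by omega) (by omega) (by omega) (by omega) (by omega) (by omega) (by omega)).mpr (by omega)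
    · obtain ⟨rfl, rfl, h⟩ := h
      exact (WrapC.v2 H.b4 (by omega) (by omega) (by omega) (by omega) (by omega) (by omega) (by omega)).mpr (by omega)
    · obtain ⟨rfl, rfl, h⟩ := h
      exact (WrapC.v0 H.a2 (by omega) (by omega) (by omega) (by omega) (by omega) (by omega) (by omega)).mpr (by omega)
    · obtain ⟨rfl, rfl, h⟩ := h
      exact (WrapC.v3 H.b2 (by omega) (by omega) (by omega) (by omega) (by omega) (by omega) (by omega) (by omega)).mpr (by omega)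
    · obtain ⟨rfl, rfl, h⟩ := h
      exact (WrapC.v3 H.a0 (by omega) (by omega) (by omega) (by omega) (by omega) (by omega) (by omega) (by omega)).mpr (by omega)
    · obtain ⟨rfl, rfl, h⟩ := h
      exact (WrapC.v3 H.b4 (by omega) (by omega) (by omega) (by omega) (by omega) (by omega) (by omega) (by omega)).mpr (by omega)
    · obtain ⟨rfl, rfl, h⟩ := h
      exact (WrapC.v3 H.a2 (by omega) (by omega) (by omega) (by omega) (by omega) (by omega) (by omega) (by omega)).mpr (by omega)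
    · obtain ⟨rfl, rfl, h⟩ := h
      exact (WrapC.v1 H.a2 (by omega) (by omega) (by omega) (by omega) (by omega) (by omega) (by omega) (by omega)).mpr (by omega)
    · obtain ⟨rfl, rfl, h⟩ := h
      exact (WrapC.v1 H.a0 (by omega) (by omega) (by omega) (by omega) (by omega) (by omega) (by omega) (by omega)).mpr (by omega)
    · obtain ⟨rfl, rfl, h⟩ := h
      exact g1 (by omega) (by omega) (by omega) (by omega)
    · obtain ⟨rfl, rfl, h⟩ := h
      exact g2 (by omega) (by omega) (by omega) (by omega)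
  · intro j m p q hr h
    obtain ⟨-, -, -, -, hp1, hp2, hq1, hq2⟩ := hr
    replace h := of_decide_eq_true h
    rcases h with h | h | h | h | h | h | h | h | h | h | h | h | h | h | h | h | h | h | h | h | h | h | h | h | h | h | h
    · obtain ⟨rfl, rfl, h⟩ := h
      exact H.eo _ _ _ _ (by omega) (by omega) (by omega) (by omega) (by omega) (by omega) (by omega)
    · obtain ⟨rfl, rfl, h⟩ := h
      exact H.eo _ _ _ _ (by omega) (by omega) (by omega) (by omega) (by omega) (by omega) (by omega)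
    · obtain ⟨rfl, rfl, h⟩ := h
      exact NW.rm1i hf H.T (p := 1) (j := 2) (by omega) (by omega) (by omega) (by omega) (by omega) (by omega) (by omega)
    · obtain ⟨rfl, rfl, h⟩ := h
      exact NW.rm1i hf H.T (p := 0) (j := 2) (by omega) (by omega) (by omega) (by omega) (by omega) (by omega) (by omega)
    · obtain ⟨rfl, rfl, h⟩ := h
      exact zrx hf H (p := 3) (by omega) (by omega) (by omega) (by omega) (by omega) (by omega) (by omega) (by omega) (by omega)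
    · obtain ⟨rfl, rfl, h⟩ := h
      exact NHT.rOut hf H.T (t := 1) (p := 1) (j := 0) (by omega) (by omega) (by omega) (by omega) (by omega) (by omega) (by omega) (by omega)
    · obtain ⟨rfl, rfl, h⟩ := h
      exact NHT.p0i hf H.T (j := 2) (by omega) (by omega) (by omega) (by omega) (by omega) (by omega)
    · obtain ⟨rfl, rfl, h⟩ := h
      exact H.eo _ _ _ _ (by omega) (by omega) (by omega) (by omega) (by omega) (by omega) (by omega)
    · obtain ⟨rfl, rfl, h⟩ := h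
      exact H.eo _ _ _ _ (by omega) (by omega) (by omega) (by omega) (by omega) (by omega) (by omega)
    · obtain ⟨rfl, rfl, h⟩ := h
      exact NW.rm1i hf H.T (p := 0) (j := 3) (by omega) (by omega) (by omega) (by omega) (by omega) (by omega) (by omega)
    · obtain ⟨rfl, rfl, h⟩ := h
      exact NHT.p0i hf H.T (j := 3) (by omega) (by omega) (by omega) (by omega) (by omega) (by omega)
    · obtain ⟨rfl, rfl, h⟩ := h
      exact hB.p3 _ _ _ _ (by omega) (by omega) (by omega) (by omega) (by omega) (by omega)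
    · obtain ⟨rfl, rfl, h⟩ := h
      exact H.lw _ _ _ _ (by omega) (by omega) (by omega) (by omega) (by omega) (by omega)
    · obtain ⟨rfl, rfl, h⟩ := h
      exact H.lw _ _ _ _ (by omega) (by omega) (by omega) (by omega) (by omega) (by omega)
    · obtain ⟨rfl, rfl, h⟩ := h
      exact NW.rm1i hf H.T (p := 0) (j := 1) (by omega) (by omega) (by omega) (by omega) (by omega) (by omega) (by omega)
    · obtain ⟨rfl, rfl, h⟩ := h
      exact NW.rm1 hf H.T (p := 1) (j := 1) (by omega) (by omega) (by omega) (by omega) (by omega) (by omega) (by omega)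
    · obtain ⟨rfl, rfl, h⟩ := h
      exact NW.rm1 hf H.T (p := 0) (j := 1) (by omega) (by omega) (by omega) (by omega) (by omega) (by omega) (by omega)
    · obtain ⟨rfl, rfl, h⟩ := h
      exact NHT.rOut hf H.T (t := 1) (p := 0) (j := 0) (by omega) (by omega) (by omega) (by omega) (by omega) (by omega) (by omega) (by omega)
    · obtain ⟨rfl, rfl, h⟩ := h
      exact NHT.p0i hf H.T (j := 4) (by omega) (by omega) (by omega) (by omega) (by omega) (by omega)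
    · obtain ⟨rfl, rfl, h⟩ := h
      exact hF6 _ _ _ _ (by omega) (by omega) (by omega) (by omega) (by omega) (by omega)
    · obtain ⟨rfl, rfl, h⟩ := h
      exact hF2 _ _ _ _ (by omega) (by omega) (by omega) (by omega) (by omega) (by omega)
    · obtain ⟨rfl, rfl, h⟩ := h
      exact hB.p1 _ _ _ _ (by omega) (by omega) (by omega) (by omega) (by omega) (by omega)
    · obtain ⟨rfl, rfl, h⟩ := h
      exact NHT.pmi hf H.T (j := 2) (by omega) (by omega) (by omega) (by omega) (by omega) (by omega)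
    · obtain ⟨rfl, rfl, h⟩ := h
      exact NHT.pOut hf H.T (t := 4) (j := 1) (by omega) (by omega) (by omega) (by omega) (by omega) (by omega) (by omega)
    · obtain ⟨rfl, rfl, h⟩ := h
      exact NHT.pIn hf H.T (t := 3) (j := 1) (by omega) (by omega) (by omega) (by omega) (by omega) (by omega) (by omega)
    · obtain ⟨rfl, rfl, h⟩ := h
      exact g3 (by omega) (by omega) (by omega) (by omega)
    · obtain ⟨rfl, rfl, h⟩ := h
      exact g4 (by omega) (by omega) (by omega) (by omega)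

end Pool.Agent.SNT.LRI
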