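import Pool.Agent.SNT.LRDef

set_option autoImplicit false
set_option linter.unusedVariables false
set_option synthInstance.maxSize 100000
set_option synthInstance.maxHeartbeats 4000000

/-! Windows near the diagonal. -/

namespace Pool.Agent.SNT.LRI

open Pool.Agent.SNT Pool.Agent.SNT.Loc Pool.Agent.SNT.LW Pool.Agent.SNT.NHZ

variable {f : ℕ → ℕ → ℕ → ℕ → Prop}

theorem dDB_5_9_chk : check 9 9 22 22 1 1 1 1 2
    (fun j n p q => decide ((j = 5 ∧ n = 3 ∧ ((((p = 7) ∨ (p = 9)) ∧ q = 6) ∨ (p = 11 ∧ ((q = 6) ∨ (q = 8))) ∨ (((p = 13) ∨ (p = 15)) ∧ ((q = 8) ∨ (q = 10)))))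
      ∨ (j = 7 ∧ n = 5 ∧ ((((p = 13) ∨ (p = 15) ∨ (p = 17)) ∧ ((q = 10) ∨ (q = 12))) ∨ (p = 19 ∧ q = 10)))
      ∨ (j = 3 ∧ n = 5 ∧ ((p = 11 ∧ q = 10) ∨ (((p = 13) ∨ (p = 15) ∨ (p = 17)) ∧ ((q = 10) ∨ (q = 12)))))
      ∨ (j = 3 ∧ n = 1 ∧ (((p = 5) ∨ (p = 7)) ∧ ((q = 2) ∨ (q = 4))))
      ∨ (j = 9 ∧ n = 7 ∧ (((p = 15) ∨ (p = 17) ∨ (p = 19)) ∧ q = 14))
      ∨ (j = 3 ∧ n = 3 ∧ ((p = 8 ∧ ((q = 5) ∨ (q = 7))) ∨ (p = 10 ∧ q = 7)))
      ∨ (j = 5 ∧ n = 4 ∧ ((p = 8 ∧ q = 8) ∨ (p = 12 ∧ q = 12)))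
      ∨ (j = 7 ∧ n = 6 ∧ ((p = 12 ∧ q = 12) ∨ (p = 14 ∧ q = 14)))
      ∨ (j = 1 ∧ n = 3 ∧ (p = 15 ∧ ((q = 8) ∨ (q = 10))))
      ∨ (j = 1 ∧ n = 1 ∧ (((p = 4) ∨ (p = 6)) ∧ q = 1))
      ∨ (j = 5 ∧ n = 5 ∧ (p = 20 ∧ q = 9))
      ∨ (j = 3 ∧ n = 6 ∧ (p = 12 ∧ q = 12))
      ∨ (j = 1 ∧ n = 4 ∧ (p = 10 ∧ q = 10))
      ∨ (j = 3 ∧ n = 3 ∧ (p = 6 ∧ q = 1))
      ∨ (j = 5 ∧ n = 5 ∧ (p = 10 ∧ q = 9))))
    (fun j n p q => decide ((j = 2 ∧ n = 6 ∧ ((p = 11 ∧ q = 10) ∨ (p = 12 ∧ 5 ≤ q ∧ q ≤ 10) ∨ (p = 13 ∧ ((5 ≤ q ∧ q ≤ 8) ∨ (q = 10))) ∨ (p = 14 ∧ 8 ≤ q ∧ q ≤ 12) ∨ (p = 15 ∧ ((q = 10) ∨ (q = 12))) ∨ (p = 16 ∧ ((q = 9) ∨ (11 ≤ q ∧ q ≤ 12))) ∨ (p = 17 ∧ 9 ≤ q ∧ q ≤ 12)))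
      ∨ (j = 2 ∧ n = 7 ∧ ((p = 11 ∧ q = 10) ∨ (p = 12 ∧ 5 ≤ q ∧ q ≤ 11) ∨ (p = 13 ∧ ((q = 6) ∨ (q = 8) ∨ (q = 10))) ∨ (p = 14 ∧ 8 ≤ q ∧ q ≤ 11) ∨ (((p = 15) ∨ (p = 17)) ∧ ((q = 10) ∨ (q = 12))) ∨ (p = 16 ∧ 9 ≤ q ∧ q ≤ 10)))
      ∨ (j = 6 ∧ n = 6 ∧ ((((p = 13) ∨ (p = 19)) ∧ 8 ≤ q ∧ q ≤ 9) ∨ (p = 14 ∧ 8 ≤ q ∧ q ≤ 10) ∨ (p = 15 ∧ ((q = 8) ∨ (q = 12))) ∨ (p = 16 ∧ 9 ≤ q ∧ q ≤ 12) ∨ (p = 17 ∧ 8 ≤ q ∧ q ≤ 11)))
      ∨ (j = 5 ∧ n = 6 ∧ ((p = 13 ∧ ((q = 6) ∨ (8 ≤ q ∧ q ≤ 10))) ∨ (p = 14 ∧ ((q = 6) ∨ (q = 8) ∨ (q = 10))) ∨ (p = 15 ∧ ((8 ≤ q ∧ q ≤ 9) ∨ (q = 12))) ∨ (((p = 17) ∨ (p = 19)) ∧ 8 ≤ q ∧ q ≤ 9)))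
      ∨ (j = 4 ∧ n = 6 ∧ ((p = 13 ∧ ((q = 6) ∨ (q = 8))) ∨ (p = 14 ∧ 6 ≤ q ∧ q ≤ 9)))
      ∨ (j = 6 ∧ n = 5 ∧ (((p = 13) ∨ (p = 15) ∨ (p = 17) ∨ (p = 19)) ∧ q = 8))
      ∨ (j = 3 ∧ n = 6 ∧ (((p = 14) ∨ (16 ≤ p ∧ p ≤ 17)) ∧ q = 9))
      ∨ (j = 5 ∧ n = 6 ∧ ((p = 13 ∧ q = 11) ∨ (p = 14 ∧ q = 12) ∨ (p = 15 ∧ q = 13)))
      ∨ (j = 4 ∧ n = 7 ∧ (p = 17 ∧ 11 ≤ q ∧ q ≤ 13))
      ∨ (j = 6 ∧ n = 7 ∧ (p = 17 ∧ 9 ≤ q ∧ q ≤ 11))
      ∨ (j = 4 ∧ n = 7 ∧ (p = 14 ∧ 6 ≤ q ∧ q ≤ 8))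
      ∨ (j = 7 ∧ n = 6 ∧ (16 ≤ p ∧ p ≤ 17 ∧ q = 9))
      ∨ (j = 6 ∧ n = 6 ∧ ((p = 14 ∧ q = 12) ∨ (p = 15 ∧ q = 13)))
      ∨ (j = 4 ∧ n = 5 ∧ (p = 11 ∧ 7 ≤ q ∧ q ≤ 8))
      ∨ (j = 2 ∧ n = 7 ∧ (p = 17 ∧ ((q = 9) ∨ (q = 11))))
      ∨ (j = 8 ∧ n = 7 ∧ (17 ≤ p ∧ p ≤ 18 ∧ q = 12))
      ∨ (j = 7 ∧ n = 7 ∧ (p = 17 ∧ ((q = 10) ∨ (q = 12))))
      ∨ (j = 3 ∧ n = 7 ∧ (p = 17 ∧ ((q = 10) ∨ (q = 12))))
      ∨ (j = 2 ∧ n = 7 ∧ (p = 13 ∧ ((q = 5) ∨ (q = 7))))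
      ∨ (j = 2 ∧ n = 3 ∧ (5 ≤ p ∧ p ≤ 6 ∧ q = 2))
      ∨ (j = 6 ∧ n = 7 ∧ (p = 15 ∧ q = 13))
      ∨ (j = 4 ∧ n = 3 ∧ (p = 7 ∧ q = 3))
      ∨ (j = 5 ∧ n = 7 ∧ (p = 13 ∧ q = 6))
      ∨ (j = 5 ∧ n = 7 ∧ (p = 14 ∧ q = 6))))
    691
    0x3a538330d38031c5a23a538331c58031c58431bb0031c69a30a00e3a2a8330a00030a00431920e3a2a8331920031920430e08e3a558330e08030e08442d703394c803a3f2a31c80031c80431c6833a48803a488431c78328478028478431c7832939802939843a490e31c7833a49003a490431a80e3a408331a80031a80430cc0e394d8330d68030cc0030cc0e30cc0431c88e394d8331be0031c88031c88e31c884394d0e3a1f05319c803a2a9a31a81a3a538330d38031c5a23a538331c58031c58431bb0031c69a31c700319d0e319d043a2b0042b8da4b3a004b459a3a358042b7c24b39004b4412394280394d0e394d043a1f05319c803a2a9a31a81a3a538330d38031c5a23a538331c58031c58431bb0031c69a31c700319d0e319d043a2b0042b8da4b3a004b459a3a358042b7c24b39004b44123a34803a3f0e3a3f043a538330d38031c5a23a538331c5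8031c58431bb0031c69a31c70031c78a3a550042d7423a3e803a3e8429048e20828329048029048430e00e38700330e00030e0043a2a0e31a8033a2a003a2a0429258e172e8318208020a34a2925802925841fa5002827421e9c801ea700271ec227294227288e398d833003003977ea2fed003961ea2fd700394bea2fc1002fc1012728802728841d9e802620c21c96001ca0802518ca252dd21ca00e2521851c9400252c921c9f9a1ca0001ca004250d0e250283250d00250d0431c58331c60031c60428ee8e206c8328ee8028ee843a2a8e42b8833a2a803a2a8439628e42ed0339628039628439790e4b7a833979003979043a6b0e4b7a833a6b003a6b04383b83392d80392d8442ec033a53803a538442ec0339618039618420c283294480294484291a8e209883291a80291a841f9b8e2099831f9b801f9b84250d8e250283250d80250d84291b0e209983291b00291b0417198e209983171980171984180b8e209983180b80180b841fdb8e20e4031fdb801fdb843a350e3a34833a35003a350439380e38460339380039380430b60e38460330b60030b60417598e20e40317598017598429260e20a40329260029260442d70e4b6f8342d70042d70417448e20cf031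7448017448420af83182180182184209a83180c80180c8429278320998020998429660e20e403296600296604175a8e20e503175a80175a84184c8e20e503184c80184c843a400e394d833a4a803a40003a400e3a400420af8e293d8320af8020af8417650e16730317650017650430b48053d28053d18040d48040be8040d38040bd8040d28040bc803936c22fac002dd5802dbf802dd4802dbe802da5801ecc801eb6801ecb801eb5801eca801eb4801eb3801cad001c97001c6a001aa7801a91801aa6801a908054080053f20053f20e53dc0e4b6f0e42ed0e41db0041c400411e0041090041090e41080041080e40f30040f30e40f20040f20e40dd0040dd0e40dc0040dc0e3a6a8e3a558e39788e396e0e396d8e39638e39630e39580e39570e30e18e30e10e30d60e30d50e30ca8e30ca0e3024802fb6802fb68e2edc002eae002e0a002e0a0e2e09002e090e2df4002df40e2df3002df30e2ddd002ddc002dc6002db0002db00e29678e29670e29668e252c8e20e50e20e40e1ff18e1fe68e1fd08e1fbc001f01001f010e1f00001f000e1eeb001eeb0e1eea001eea0e1ed5001ed50e1ed4001ed40e1ebe001ebe0e1ccd801cb7801cb78e1cb6801cb68e1c9e801c9e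8e1ac7001ac70e1ac6001ac60e1ab1001ab10e1ab0001ab00e18620e18618e18570e18568e184d0e184c0e18418e18410e18408e18360e18350e18348e18340e18338e182b8e182b0e182a8e182a0e18298e18290e18288e18200e17700e176f8e17648e175b0e175a0e17500e174f8e174f0e174e8e17440e17430e17428e17420e17418e17390e17388e17380e17378e17370e17368e172e0e0cbd000c02000c010009b68009a08054080f53f20f53dc0f4b7a074b6f0742ed8742ed0742ec8742ec0742eb8742d68742c38742c18742ad8742ac8741f98741ee8741db0f41c40f411e0f41090f41080f40f30f40f20f40dd0f40dc0f3a6a873a6a073a69873a5587398d87398d07397887397807397787397707396e07396d87396d07396c87396387396307396107395807395707395687395607394b87394b07389b07388507386f0738590731d38731d18731c50731be8731bc8731bb8731ba8731ba0731a88731a787310b87310b0730f58730f50730e18730e10730df8730df0730d60730d50730d40730d30730ca8730ca0730c98730c90730c80730248f3019873003872fed872fd9872fd7872fc3872fc2872fc0872fb68f2fae872edc0f2eae0f2e0a0f2e090f2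df40f2df30f2ddd0f2ddc0f2dc60f2db00f296787296707296687294407294387294307285287285207285187285107284707284607273f07273e87252c8720e50720e48720e40720e38720ce8720bb8720b78720a58720a48720a38720a287208f87208e87208d872077872061871ff1871fe6871fd0871fbc0f1f010f1f000f1eeb0f1eea0f1ed50f1ed40f1ebe0f1ea7871ea6871e91871ccd8f1cb78f1cb68f1cac871cab871caa871c9e8f1c96871c94871c80871ac70f1ac60f1ab10f1ab00f186307186287186207186187185707185687184d07184c07184187184107184087184007183607183507183487183407183387182b87182b07182a87182a07182987182907182887182007177107177087177007176f87176607176587176487175b07175a07175007174f87174f07174e87174e07174407174307174287174207174187173907173887173807173787173707173687172e07141d071412070de5870dba870cbd0f0c020f0c010f09b68f09a08f = true := by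
  decide +kernel

theorem dDB_5_9 (hf : Rule f) {k c n : ℕ} (H : LI f k c n) (hF2 : F2 f k c n) (hF6 : F6 f k c n) (hB : FB f k c n)
    (g1 : ∀ {M R x y : ℕ}, M = 6 * k + 2 → R + 4 = c → x + 9 = 2 * n → y + 14 = 2 * n → f M R x y)
    (g2 : ∀ {M R x y : ℕ}, M = 6 * k + 4 → R + 2 = c → x + 5 = 2 * n → y + 6 = 2 * n → f M R x y)
    (g3 : ∀ {M R x y : ℕ}, M = 6 * k + 4 → R = c → x + 2 = 2 * n → y + 9 = 2 * n → ¬ f M R x y)
    (g4 : ∀ {M R x y : ℕ}, M = 6 * k + 4 → R = c → x + 1 = 2 * n → y + 9 = 2 * n → ¬ f M R x y) : False := by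
  have hk := H.T.hk
  have hc := H.T.hc
  have h4 := H.T.h4
  have hb := H.T.hb
  have hN := H.T.hN2
  obtain ⟨a0, ha0⟩ : ∃ z, z + 1 = 6 * k := ⟨6 * k - 1, by omega⟩
  obtain ⟨b0, hb0⟩ : ∃ z, z + 7 = c := ⟨c - 7, by omega⟩
  obtain ⟨x0, hx0⟩ : ∃ z, z + 15 = 2 * n := ⟨2 * n - 15, by omega⟩
  obtain ⟨y0, hy0⟩ : ∃ z, z + 15 = 2 * n := ⟨2 * n - 15, by omega⟩
  refine check_sound hf (a0 := a0) (b0 := b0) (x0 := x0) (y0 := y0) dDB_5_9_chk
    ⟨fun _ => by omega, fun h => absurd h (by decide), fun h => absurd h (by decide), by omega, by omega,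
      by omega, by omega⟩ ?_ ?_
  · intro j m p q hr h
    obtain ⟨-, -, -, -, hp1, hp2, hq1, hq2⟩ := hr
    replace h := of_decide_eq_true h
    rcases h with h | h | h | h | h | h | h | h | h | h | h | h | h | h | h
    · obtain ⟨rfl, rfl, h⟩ := h
      exact (WrapC.v2 H.b4 (by omega) (by omega) (by omega) (by omega) (by omega) (by omega) (by omega)).mpr (by omega)
    · obtain ⟨rfl, rfl, h⟩ := h
      exact (WrapC.v2 H.a6 (by omega) (by omega) (by omega) (by omega) (by omega) (by omega) (by omega)).mpr (by omega)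
    · obtain ⟨rfl, rfl, h⟩ := h
      exact (WrapC.v2 H.a2 (by omega) (by omega) (by omega) (by omega) (by omega) (by omega) (by omega)).mpr (by omega)
    · obtain ⟨rfl, rfl, h⟩ := h
      exact (WrapC.v2 H.b2 (by omega) (by omega) (by omega) (by omega) (by omega) (by omega) (by omega)).mpr (by omega)
    · obtain ⟨rfl, rfl, h⟩ := h
      exact (NW.w2v H.a8 (by omega) (by omega) (by omega) (by omega) (by omega) (by omega) (by omega)).mpr (by omega)
    · obtain ⟨rfl, rfl, h⟩ := h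
      exact (WrapC.v0 H.a2 (by omega) (by omega) (by omega) (by omega) (by omega) (by omega) (by omega)).mpr (by omega)
    · obtain ⟨rfl, rfl, h⟩ := h
      exact (WrapC.v3 H.b4 (by omega) (by omega) (by omega) (by omega) (by omega) (by omega) (by omega) (by omega)).mpr (by omega)
    · obtain ⟨rfl, rfl, h⟩ := h
      exact (WrapC.v3 H.a6 (by omega) (by omega) (by omega) (by omega) (by omega) (by omega) (by omega) (by omega)).mpr (by omega)
    · obtain ⟨rfl, rfl, h⟩ := h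
      exact (WrapC.v2 H.a0 (by omega) (by omega) (by omega) (by omega) (by omega) (by omega) (by omega)).mpr (by omega)
    · obtain ⟨rfl, rfl, h⟩ := h
      exact (WrapC.v0 H.a0 (by omega) (by omega) (by omega) (by omega) (by omega) (by omega) (by omega)).mpr (by omega)
    · obtain ⟨rfl, rfl, h⟩ := h
      exact (WrapC.v0 H.a4 (by omega) (by omega) (by omega) (by omega) (by omega) (by omega) (by omega)).mpr (by omega)
    · obtain ⟨rfl, rfl, h⟩ := h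
      exact (WrapC.v3 H.a2 (by omega) (by omega) (by omega) (by omega) (by omega) (by omega) (by omega) (by omega)).mpr (by omega)
    · obtain ⟨rfl, rfl, h⟩ := h
      exact (WrapC.v3 H.a0 (by omega) (by omega) (by omega) (by omega) (by omega) (by omega) (by omega) (by omega)).mpr (by omega)
    · obtain ⟨rfl, rfl, h⟩ := h
      exact g1 (by omega) (by omega) (by omega) (by omega)
    · obtain ⟨rfl, rfl, h⟩ := h
      exact g2 (by omega) (by omega) (by omega) (by omega)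
  · intro j m p q hr h
    obtain ⟨-, -, -, -, hp1, hp2, hq1, hq2⟩ := hr
    replace h := of_decide_eq_true h
    rcases h with h | h | h | h | h | h | h | h | h | h | h | h | h | h | h | h | h | h | h | h | h | h | h | h
    · obtain ⟨rfl, rfl, h⟩ := h
      exact H.eo _ _ _ _ (by omega) (by omega) (by omega) (by omega) (by omega) (by omega) (by omega)
    · obtain ⟨rfl, rfl, h⟩ := h
      exact H.eo _ _ _ _ (by omega) (by omega) (by omega) (by omega) (by omega) (by omega) (by omega)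
    · obtain ⟨rfl, rfl, h⟩ := h
      exact NW.rm1i hf H.T (p := 1) (j := 2) (by omega) (by omega) (by omega) (by omega) (by omega) (by omega) (by omega)
    · obtain ⟨rfl, rfl, h⟩ := h
      exact NW.rm1i hf H.T (p := 0) (j := 2) (by omega) (by omega) (by omega) (by omega) (by omega) (by omega) (by omega)
    · obtain ⟨rfl, rfl, h⟩ := h
      exact NW.rm1i hf H.T (p := 1) (j := 3) (by omega) (by omega) (by omega) (by omega) (by omega) (by omega) (by omega)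
    · obtain ⟨rfl, rfl, h⟩ := h
      exact NHT.pmi hf H.T (j := 1) (by omega) (by omega) (by omega) (by omega) (by omega) (by omega)
    · obtain ⟨rfl, rfl, h⟩ := h
      exact NW.rm1i hf H.T (p := 0) (j := 3) (by omega) (by omega) (by omega) (by omega) (by omega) (by omega) (by omega)
    · obtain ⟨rfl, rfl, h⟩ := h
      exact NW.rm1 hf H.T (p := 0) (j := 1) (by omega) (by omega) (by omega) (by omega) (by omega) (by omega) (by omega)
    · obtain ⟨rfl, rfl, h⟩ := h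
      exact NHT.p0i hf H.T (j := 3) (by omega) (by omega) (by omega) (by omega) (by omega) (by omega)
    · obtain ⟨rfl, rfl, h⟩ := h
      exact NHT.p0i hf H.T (j := 2) (by omega) (by omega) (by omega) (by omega) (by omega) (by omega)
    · obtain ⟨rfl, rfl, h⟩ := h
      exact hB.p3 _ _ _ _ (by omega) (by omega) (by omega) (by omega) (by omega) (by omega)
    · obtain ⟨rfl, rfl, h⟩ := h
      exact NW.rm1i hf H.T (p := 0) (j := 1) (by omega) (by omega) (by omega) (by omega) (by omega) (by omega) (by omega)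
    · obtain ⟨rfl, rfl, h⟩ := h
      exact NW.rm1 hf H.T (p := 1) (j := 1) (by omega) (by omega) (by omega) (by omega) (by omega) (by omega) (by omega)
    · obtain ⟨rfl, rfl, h⟩ := h
      exact NHT.pmi hf H.T (j := 2) (by omega) (by omega) (by omega) (by omega) (by omega) (by omega)
    · obtain ⟨rfl, rfl, h⟩ := h
      exact NHT.p0i hf H.T (j := 4) (by omega) (by omega) (by omega) (by omega) (by omega) (by omega)
    · obtain ⟨rfl, rfl, h⟩ := h
      exact NHT.p0i hf H.T (j := 1) (by omega) (by omega) (by omega) (by omega) (by omega) (by omega)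
    · obtain ⟨rfl, rfl, h⟩ := h
      exact hF6 _ _ _ _ (by omega) (by omega) (by omega) (by omega) (by omega) (by omega)
    · obtain ⟨rfl, rfl, h⟩ := h
      exact hF2 _ _ _ _ (by omega) (by omega) (by omega) (by omega) (by omega) (by omega)
    · obtain ⟨rfl, rfl, h⟩ := h
      exact hB.p1 _ _ _ _ (by omega) (by omega) (by omega) (by omega) (by omega) (by omega)
    · obtain ⟨rfl, rfl, h⟩ := h
      exact H.eo _ _ _ _ (by omega) (by omega) (by omega) (by omega) (by omega) (by omega) (by omega)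
    · obtain ⟨rfl, rfl, h⟩ := h
      exact NHT.pOut hf H.T (t := 4) (j := 1) (by omega) (by omega) (by omega) (by omega) (by omega) (by omega) (by omega)
    · obtain ⟨rfl, rfl, h⟩ := h
      exact NHT.pIn hf H.T (t := 3) (j := 1) (by omega) (by omega) (by omega) (by omega) (by omega) (by omega) (by omega)
    · obtain ⟨rfl, rfl, h⟩ := h
      exact g3 (by omega) (by omega) (by omega) (by omega)
    · obtain ⟨rfl, rfl, h⟩ := h
      exact g4 (by omega) (by omega) (by omega) (by omega)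

end Pool.Agent.SNT.LRI
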