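import Pool.Agent.SNT.LRDef

set_option autoImplicit false
set_option linter.unusedVariables false
set_option synthInstance.maxSize 100000
set_option synthInstance.maxHeartbeats 4000000

/-! Windows near the diagonal. -/

namespace Pool.Agent.SNT.LRI

open Pool.Agent.SNT Pool.Agent.SNT.Loc Pool.Agent.SNT.LW Pool.Agent.SNT.NHZ

variable {f : ℕ → ℕ → ℕ → ℕ → Prop}

theorem dDB_3_11_chk : check 10 9 21 21 0 1 1 1 2
    (fun j n p q => decide ((j = 4 ∧ n = 5 ∧ ((p = 13 ∧ q = 12) ∨ (((p = 15) ∨ (p = 17) ∨ (p = 19)) ∧ ((q = 12) ∨ (q = 14)))))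
      ∨ (j = 8 ∧ n = 5 ∧ ((((p = 13) ∨ (p = 15)) ∧ q = 12) ∨ (((p = 17) ∨ (p = 19)) ∧ ((q = 12) ∨ (q = 14)))))
      ∨ (j = 6 ∧ n = 1 ∧ ((p = 6 ∧ ((q = 3) ∨ (q = 5))) ∨ (p = 8 ∧ ((q = 3) ∨ (q = 5) ∨ (q = 7)))))
      ∨ (j = 4 ∧ n = 1 ∧ ((((p = 5) ∨ (p = 9)) ∧ q = 4) ∨ (p = 7 ∧ ((q = 4) ∨ (q = 6)))))
      ∨ (j = 4 ∧ n = 3 ∧ ((p = 10 ∧ ((q = 5) ∨ (q = 7) ∨ (q = 9))) ∨ (p = 12 ∧ q = 9)))
      ∨ (j = 2 ∧ n = 1 ∧ ((p = 6 ∧ ((q = 1) ∨ (q = 3) ∨ (q = 5))) ∨ (p = 8 ∧ q = 5)))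
      ∨ (j = 8 ∧ n = 1 ∧ ((p = 7 ∧ ((q = 4) ∨ (q = 6))) ∨ (p = 9 ∧ q = 4)))
      ∨ (j = 6 ∧ n = 3 ∧ ((p = 11 ∧ q = 10) ∨ (p = 13 ∧ ((q = 8) ∨ (q = 10)))))
      ∨ (j = 10 ∧ n = 3 ∧ (p = 9 ∧ ((q = 6) ∨ (q = 8))))
      ∨ (j = 4 ∧ n = 2 ∧ ((p = 6 ∧ q = 6) ∨ (p = 8 ∧ q = 8)))
      ∨ (j = 2 ∧ n = 4 ∧ ((p = 10 ∧ q = 10) ∨ (p = 12 ∧ q = 12)))
      ∨ (j = 2 ∧ n = 3 ∧ (((p = 9) ∨ (p = 11)) ∧ q = 8))
      ∨ (j = 6 ∧ n = 4 ∧ (p = 10 ∧ q = 10))
      ∨ (j = 6 ∧ n = 2 ∧ (p = 7 ∧ q = 7))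
      ∨ (j = 8 ∧ n = 6 ∧ (p = 16 ∧ q = 16))
      ∨ (j = 8 ∧ n = 3 ∧ (p = 10 ∧ q = 7))
      ∨ (j = 4 ∧ n = 6 ∧ (p = 14 ∧ q = 14))
      ∨ (j = 2 ∧ n = 2 ∧ (p = 7 ∧ q = 7))
      ∨ (j = 4 ∧ n = 3 ∧ (p = 6 ∧ q = 1))
      ∨ (j = 6 ∧ n = 5 ∧ (p = 14 ∧ q = 13))))
    (fun j n p q => decide ((j = 3 ∧ n = 6 ∧ ((((p = 13) ∨ (p = 17)) ∧ q = 12) ∨ (p = 14 ∧ 7 ≤ q ∧ q ≤ 12) ∨ (p = 15 ∧ ((7 ≤ q ∧ q ≤ 10) ∨ (q = 12))) ∨ (p = 16 ∧ 10 ≤ q ∧ q ≤ 14) ∨ (18 ≤ p ∧ p ≤ 19 ∧ 11 ≤ q ∧ q ≤ 14)))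
      ∨ (j = 3 ∧ n = 7 ∧ ((((p = 13) ∨ (p = 17)) ∧ q = 12) ∨ (p = 14 ∧ 7 ≤ q ∧ q ≤ 13) ∨ (p = 15 ∧ ((q = 8) ∨ (q = 10) ∨ (q = 12))) ∨ (p = 16 ∧ 10 ≤ q ∧ q ≤ 13) ∨ (p = 18 ∧ q = 13) ∨ (p = 19 ∧ ((q = 12) ∨ (q = 14)))))
      ∨ (j = 7 ∧ n = 6 ∧ ((p = 16 ∧ 10 ≤ q ∧ q ≤ 13) ∨ (p = 17 ∧ ((q = 10) ∨ (q = 12) ∨ (q = 14))) ∨ (18 ≤ p ∧ p ≤ 19 ∧ 11 ≤ q ∧ q ≤ 14)))
      ∨ (j = 1 ∧ n = 4 ∧ ((p = 5 ∧ q = 5) ∨ (p = 6 ∧ 5 ≤ q ∧ q ≤ 6) ∨ (p = 7 ∧ q = 7) ∨ (((p = 8) ∨ (10 ≤ p ∧ p ≤ 11)) ∧ 7 ≤ q ∧ q ≤ 8) ∨ (p = 9 ∧ q = 8)))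
      ∨ (j = 1 ∧ n = 5 ∧ ((p = 9 ∧ 8 ≤ q ∧ q ≤ 9) ∨ (p = 10 ∧ 7 ≤ q ∧ q ≤ 10) ∨ (p = 11 ∧ ((7 ≤ q ∧ q ≤ 8) ∨ (10 ≤ q ∧ q ≤ 11)))))
      ∨ (j = 6 ∧ n = 6 ∧ ((p = 15 ∧ q = 8) ∨ (p = 16 ∧ ((q = 8) ∨ (q = 10) ∨ (q = 12))) ∨ (p = 17 ∧ 10 ≤ q ∧ q ≤ 14)))
      ∨ (j = 3 ∧ n = 3 ∧ ((5 ≤ p ∧ p ≤ 6 ∧ ((q = 2) ∨ (q = 4))) ∨ (p = 7 ∧ ((q = 4) ∨ (q = 6)))))
      ∨ (j = 5 ∧ n = 6 ∧ ((p = 15 ∧ ((q = 8) ∨ (q = 10))) ∨ (p = 16 ∧ ((q = 8) ∨ (10 ≤ q ∧ q ≤ 11)))))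
      ∨ (j = 3 ∧ n = 4 ∧ ((p = 6 ∧ q = 4) ∨ (p = 7 ∧ ((q = 4) ∨ (q = 6))) ∨ (10 ≤ p ∧ p ≤ 11 ∧ q = 7)))
      ∨ (j = 4 ∧ n = 6 ∧ (16 ≤ p ∧ p ≤ 19 ∧ q = 11))
      ∨ (j = 4 ∧ n = 2 ∧ (6 ≤ p ∧ p ≤ 7 ∧ 2 ≤ q ∧ q ≤ 3))
      ∨ (j = 7 ∧ n = 5 ∧ (13 ≤ p ∧ p ≤ 14 ∧ 9 ≤ q ∧ q ≤ 10))
      ∨ (j = 5 ∧ n = 7 ∧ (p = 19 ∧ 12 ≤ q ∧ q ≤ 15))
      ∨ (j = 7 ∧ n = 7 ∧ (p = 19 ∧ 11 ≤ q ∧ q ≤ 14))
      ∨ (j = 1 ∧ n = 3 ∧ ((p = 5 ∧ q = 5) ∨ (p = 6 ∧ 5 ≤ q ∧ q ≤ 6) ∨ (p = 7 ∧ q = 7)))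
      ∨ (j = 5 ∧ n = 2 ∧ ((p = 6 ∧ 2 ≤ q ∧ q ≤ 3) ∨ (p = 7 ∧ q = 2)))
      ∨ (j = 1 ∧ n = 6 ∧ ((p = 10 ∧ q = 10) ∨ (p = 11 ∧ 10 ≤ q ∧ q ≤ 11)))
      ∨ (j = 3 ∧ n = 2 ∧ (p = 5 ∧ 2 ≤ q ∧ q ≤ 4))
      ∨ (j = 8 ∧ n = 6 ∧ (18 ≤ p ∧ p ≤ 19 ∧ q = 11))
      ∨ (j = 7 ∧ n = 6 ∧ ((p = 16 ∧ q = 14) ∨ (p = 17 ∧ q = 15)))
      ∨ (j = 6 ∧ n = 6 ∧ ((p = 16 ∧ q = 14) ∨ (p = 17 ∧ q = 15)))
      ∨ (j = 5 ∧ n = 3 ∧ (p = 9 ∧ 4 ≤ q ∧ q ≤ 5))
      ∨ (j = 3 ∧ n = 7 ∧ (p = 19 ∧ ((q = 11) ∨ (q = 13))))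
      ∨ (j = 8 ∧ n = 7 ∧ (p = 19 ∧ ((q = 12) ∨ (q = 14))))
      ∨ (j = 4 ∧ n = 7 ∧ (p = 19 ∧ ((q = 12) ∨ (q = 14))))
      ∨ (j = 5 ∧ n = 7 ∧ (p = 16 ∧ ((q = 8) ∨ (q = 10))))
      ∨ (j = 3 ∧ n = 7 ∧ (p = 15 ∧ ((q = 7) ∨ (q = 9))))
      ∨ (j = 1 ∧ n = 2 ∧ (5 ≤ p ∧ p ≤ 6 ∧ q = 5))
      ∨ (j = 5 ∧ n = 7 ∧ (p = 18 ∧ q = 15))
      ∨ (j = 7 ∧ n = 7 ∧ (p = 17 ∧ q = 15))
      ∨ (j = 7 ∧ n = 7 ∧ (p = 17 ∧ q = 10))
      ∨ (j = 6 ∧ n = 7 ∧ (p = 15 ∧ q = 8))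
      ∨ (j = 6 ∧ n = 7 ∧ (p = 16 ∧ q = 8))))
    879
    0x34f10334fc003cc75234fb0035061a3511003cdc5234f10334fc003cc75234fb0035061a3cd1803cd184351000351b1a1447031c070023c84a2b9380335f5a3b15003b158a2b89802b89811447031c070023c84a2b89002b8904239f0e23a903239f00239f0423b3031bfc801bfc8433408e2b7f8333408033408423a98e23a90323a98023a9842b89832b94002b940423b30e249b0323a90023b30023b30e23b30422d70013400023beba134b1a14280014320014331a143d1a1bf4001c080023bf5223c94a24a60024b11a259800258e0025a31a25991a2d6e002d5a002d5a0e2d5a04134b031be8001be80422c10323a88023a88422c10322cc0022cc041335031af5801af58423b40e1335031af58022c15a22cc0022d71a23be0023b40023b40e23b4042b7e8e1335031af58022c15a22cc0022d71a2b74802b7e802b7e8e2b7e84239e0e1335031af58022c15a239e00239e0421d90322b60022b6041525031ce5801ce584134b031b0b801b0b841258831a19001a19041cfb831dd8001dd80435388e3537033542003d034a352d0035381a3538803538841cda0e143d03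1cda001cda042d450e258f032d5a00351b4a2d45002d450422b68e22ac0322b68022b68422bf8e21e30322bf8022bf8422b50e21d80322b50022b5041be98e1429031be9801be98422cb8e21ef0322cb8022cb8422d60e21ef0322d60022d60422b58e21d90322b58022b58429a40321ce0021ce0429a30329990029990421c48e21ba0321c48021c48421af0e297b0321af0021af0420f08e29a30320f08020f08420dd0e297b0320dd0020dd0429858e297b03298580298584297b0e315103297b00297b0428c68e316f0328c68028c68429ae8e393b0329ae8029ae8429a40e39300329a40029a40421e30e29b90321e30021e304259a032d5a802d5a841d108e25c3031d10801d10841ded0e25c3031ded001ded042d8e0525cd002d991a25d81a1d26001d26042d8e0525cd002d991a25d81a1e02801e028439110e489d83391100391104316f0e393b03316f00316f0448bb83392f80392f8448bc0339258039258448bc033930003930042d3a8e257a032d3a802d3a8434fb8e34f10334fb8034fb842d6b8e25ab032d6b802d6b841bf38e1433031bf3801bf3842d778e25b7032d77802d77842d6d8e25ad032d6d802d6d8424a80e25900324a800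24a8042590032d50002d50041d0f8e25c2031d0f801d0f841dec0e25c2031dec001dec041ce88e2591031ce8801ce8841dc50e2591031dc5001dc5043bea8e4493033bea803bea843cc70e4493033cc7003cc7041cfd8e25a6031cfd801cfd841dda0e25a6031dda001dda0425a50e2d710325a50025a50444a8033cdc003cdc043cf103351b00351b0444a8033bff803bff84345c8e3d0503345c80345c8425900e2d5c032590002590043337003369003b02523b2a4a334c00345300336a003b1752505e0042ef0042da0042ee0042d90042d80042d70040e8003f0f003f23003f0e003c13c23361003b2b4a3188003173002f98002f83002f97002f820023ed0023d80023ec0023d70023d60023d50021fb0021a500200c00127000126f00109500108000106b00507d00507c00507c0e44da0e44d90e43fc0e43f18e43df0043210e43200e430c0e430b0e42f60042f60e42e10042e10e41060041060e3f41003f410e3f2d003f2d0e3f2c003f2c0e3d198e3d190e3d188e3d180e3d050e3d028e3c3d0e3c3c8e3c3c0e3c3b8e3c328e3c320e3c318e3c310e3c288e3c280e3c270e3c260e3c1d8e3c1d0e3c1c8e3c1c0e3c1b8e3b2a0e3b298e3b1f8e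3b1f0e35368e352c0e34680e34678e34670e34668e34660e34658e345d0e345c0e345b0e345a0e344f8e336b00336b0e32630031a60031a60e31a50031a50e3191003089002fb7002fb6002fb60e2fb5002fb50e2fa1002fa10e2fa0002fa00e2d990e2d988e2d980e2d978e2d8e8e2d770e2d760e2c9b0e2c9a8e2c998e2c900e2c8f0e28c60e28bc0e28bb8e25d80e25d70e24fa0e24ef8e24e50e24da8e24c700241f00241f0e241e00241e0e240a00240a0e24090024090e23f50023f40023f40e23df0023df0e221a0022050022050e22040022030021d70021d70e21130021060e21058e20fd0020fb8e20fb0e203f00202b00202a00202a0e2015001e178e1e170e1e168e1e160e1e0c8e1e018e1df78e1df70e1df68e1dec8e1deb8e1deb0e1de28e1de20e1de18e1de10e1de08e1dd78e1d3b0e1d3a8e1d3a0e1d398e1d308e1d300e1d2f8e1d2f0e1d250e1d1b0e1d1a8e1d1a0e1d100e1d0f0e1d0e8e1d058e1d050e1d048e1d040e1cfb0e1b000e1aff0e1af48e1a238e1a228e1a180e1a170e1a0c8e19308e19300e137700136100128e00128e0e12790012790e11870010b400109f00109f0e109e00109e0e109d00109d0e0d640e0c878e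0c868e0c860e0c7c8e0c7c0e0c7b8e0c718e0baa0e0ba98e0b9f8e0b9f0e0b950e0b8a0e0b740e0a978e09bb0e507d0f507c0f44da0744d907449d8744888743fc0743f18743df0f43210f43200f430c0f430b0f42f60f42e10f41060f40fb8740fa8740d2873f410f3f2d0f3f2c0f3d19873d19073d18873d18073d05073d02873c3d073c3c873c3c073c3b873c32873c32073c31873c31073c28873c28073c27073c26073c1d873c1d073c1c873c1c073c1b873b2a073b29873b1f873b1f07354487354287353687353087352d87352c87352c07351b87351a8735068735058734f087346807346787346707346687346607346587345d07345c07345b07345a07344f87337687336b0f335f87335e87334b87334a8733368732630f31a60f31a50f31910f317a8731648731508730890f2fb70f2fb60f2fb50f2fa10f2fa00f2d99072d98872d98072d97872d8e872d77072d76072c9b072c9a872c99872c90072c8f0729b90729b88728c60728bc0728bb8725d88725d80725d78725d70725c28725c18725b08725ac8725aa87259b87259987259887258687258587258487256f8724fa0724ef8724e50724da8724c70f241f0f241e0f240a0f24090f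23f50f23f40f23df0f23c98723c88723c78723b48723b38723b287239e87221a0f22050f22040f22030f21fa8721f88721e48721e38721e28721d70f21cf8721ce8721cd8721ba8721b98721130f21060721058720fd0f20fb8720fb07203f0f202b0f202a0f20150f1e17871e17071e16871e16071e0c871e01871df7871df7071df6871df6071dec871deb871deb071dea871dea071de2871de2071de1871de1071de0871de0071ddf871dd7871d3b071d3a871d3a071d39871d30871d30071d2f871d2f071d25071d1b871d1b071d1a871d1a071d19871d10071d0f071d0e871d0e071d0d871d05871d05071d04871d04071d03871d03071cfb071b2a871b20071b00071aff071af4871a23871a22871a18071a17071a0d871a0c87193107193087193007145e87144887144687143287141e8713770f13610f128e0f12790f126387124d8711870f10b40f109f0f109e0f109d0f0d64870d64070d59870c88070c87870c86870c86070c7d070c7c870c7c070c7b870c72070c71870baa070ba9870b9f870b9f070b95070b8a870b8a070b7f870b74870b74070b69870aa3070a98070a97870a8d0709bb0709b087 = true := by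
  decide +kernel

theorem dDB_3_11 (hf : Rule f) {k c n : ℕ} (H : LI f k c n) (hF2 : F2 f k c n) (hF6 : F6 f k c n) (hB : FB f k c n)
    (g1 : ∀ {M R x y : ℕ}, M = 6 * k + 2 → R + 4 = c → x + 11 = 2 * n → y + 16 = 2 * n → f M R x y)
    (g2 : ∀ {M R x y : ℕ}, M = 6 * k + 4 → R + 2 = c → x + 3 = 2 * n → y + 4 = 2 * n → f M R x y)
    (g3 : ∀ {M R x y : ℕ}, M = 6 * k + 4 → R = c → x + 2 = 2 * n → y + 9 = 2 * n → ¬ f M R x y)
    (g4 : ∀ {M R x y : ℕ}, M = 6 * k + 4 → R = c → x + 1 = 2 * n → y + 9 = 2 * n → ¬ f M R x y) : False := by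
  have hk := H.T.hk
  have hc := H.T.hc
  have h4 := H.T.h4
  have hb := H.T.hb
  have hN := H.T.hN2
  obtain ⟨a0, ha0⟩ : ∃ z, z + 2 = 6 * k := ⟨6 * k - 2, by omega⟩
  obtain ⟨b0, hb0⟩ : ∃ z, z + 7 = c := ⟨c - 7, by omega⟩
  obtain ⟨x0, hx0⟩ : ∃ z, z + 17 = 2 * n := ⟨2 * n - 17, by omega⟩
  obtain ⟨y0, hy0⟩ : ∃ z, z + 17 = 2 * n := ⟨2 * n - 17, by omega⟩
  refine check_sound hf (a0 := a0) (b0 := b0) (x0 := x0) (y0 := y0) dDB_3_11_chk
    ⟨fun _ => by omega, fun h => absurd h (by decide), fun h => absurd h (by decide), by omega, by omega,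
      by omega, by omega⟩ ?_ ?_
  · intro j m p q hr h
    obtain ⟨-, -, -, -, hp1, hp2, hq1, hq2⟩ := hr
    replace h := of_decide_eq_true h
    rcases h with h | h | h | h | h | h | h | h | h | h | h | h | h | h | h | h | h | h | h | h
    · obtain ⟨rfl, rfl, h⟩ := h
      exact (WrapC.v2 H.a2 (by omega) (by omega) (by omega) (by omega) (by omega) (by omega) (by omega)).mpr (by omega)
    · obtain ⟨rfl, rfl, h⟩ := h
      exact (WrapC.v2 H.a6 (by omega) (by omega) (by omega) (by omega) (by omega) (by omega) (by omega)).mpr (by omega)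
    · obtain ⟨rfl, rfl, h⟩ := h
      exact (WrapC.v4 H.e4 (by omega) (by omega) (by omega) (by omega) (by omega) (by omega) (by omega)).mpr (by omega)
    · obtain ⟨rfl, rfl, h⟩ := h
      exact (WrapC.v2 H.b2 (by omega) (by omega) (by omega) (by omega) (by omega) (by omega) (by omega)).mpr (by omega)
    · obtain ⟨rfl, rfl, h⟩ := h
      exact (WrapC.v0 H.a2 (by omega) (by omega) (by omega) (by omega) (by omega) (by omega) (by omega)).mpr (by omega)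
    · obtain ⟨rfl, rfl, h⟩ := h
      exact (WrapC.v0 H.a0 (by omega) (by omega) (by omega) (by omega) (by omega) (by omega) (by omega)).mpr (by omega)
    · obtain ⟨rfl, rfl, h⟩ := h
      exact (WrapC.v2 H.b6 (by omega) (by omega) (by omega) (by omega) (by omega) (by omega) (by omega)).mpr (by omega)
    · obtain ⟨rfl, rfl, h⟩ := h
      exact (WrapC.v2 H.b4 (by omega) (by omega) (by omega) (by omega) (by omega) (by omega) (by omega)).mpr (by omega)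
    · obtain ⟨rfl, rfl, h⟩ := h
      exact (NW.w2v H.b8 (by omega) (by omega) (by omega) (by omega) (by omega) (by omega) (by omega)).mpr (by omega)
    · obtain ⟨rfl, rfl, h⟩ := h
      exact (WrapC.v3 H.b2 (by omega) (by omega) (by omega) (by omega) (by omega) (by omega) (by omega) (by omega)).mpr (by omega)
    · obtain ⟨rfl, rfl, h⟩ := h
      exact (WrapC.v3 H.a0 (by omega) (by omega) (by omega) (by omega) (by omega) (by omega) (by omega) (by omega)).mpr (by omega)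
    · obtain ⟨rfl, rfl, h⟩ := h
      exact (WrapC.v2 H.a0 (by omega) (by omega) (by omega) (by omega) (by omega) (by omega) (by omega)).mpr (by omega)
    · obtain ⟨rfl, rfl, h⟩ := h
      exact (WrapC.v3 H.b4 (by omega) (by omega) (by omega) (by omega) (by omega) (by omega) (by omega) (by omega)).mpr (by omega)
    · obtain ⟨rfl, rfl, h⟩ := h
      exact (WrapC.v1 H.b4 (by omega) (by omega) (by omega) (by omega) (by omega) (by omega) (by omega) (by omega)).mpr (by omega)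
    · obtain ⟨rfl, rfl, h⟩ := h
      exact (WrapC.v3 H.a6 (by omega) (by omega) (by omega) (by omega) (by omega) (by omega) (by omega) (by omega)).mpr (by omega)
    · obtain ⟨rfl, rfl, h⟩ := h
      exact (WrapC.v0 H.a6 (by omega) (by omega) (by omega) (by omega) (by omega) (by omega) (by omega)).mpr (by omega)
    · obtain ⟨rfl, rfl, h⟩ := h
      exact (WrapC.v3 H.a2 (by omega) (by omega) (by omega) (by omega) (by omega) (by omega) (by omega) (by omega)).mpr (by omega)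
    · obtain ⟨rfl, rfl, h⟩ := h
      exact (WrapC.v1 H.a0 (by omega) (by omega) (by omega) (by omega) (by omega) (by omega) (by omega) (by omega)).mpr (by omega)
    · obtain ⟨rfl, rfl, h⟩ := h
      exact g1 (by omega) (by omega) (by omega) (by omega)
    · obtain ⟨rfl, rfl, h⟩ := h
      exact g2 (by omega) (by omega) (by omega) (by omega)
  · intro j m p q hr h
    obtain ⟨-, -, -, -, hp1, hp2, hq1, hq2⟩ := hr
    replace h := of_decide_eq_true h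
    rcases h with h | h | h | h | h | h | h | h | h | h | h | h | h | h | h | h | h | h | h | h | h | h | h | h | h | h | h | h | h | h | h | h | h
    · obtain ⟨rfl, rfl, h⟩ := h
      exact H.eo _ _ _ _ (by omega) (by omega) (by omega) (by omega) (by omega) (by omega) (by omega)
    · obtain ⟨rfl, rfl, h⟩ := h
      exact H.eo _ _ _ _ (by omega) (by omega) (by omega) (by omega) (by omega) (by omega) (by omega)
    · obtain ⟨rfl, rfl, h⟩ := h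
      exact NW.rm1i hf H.T (p := 1) (j := 2) (by omega) (by omega) (by omega) (by omega) (by omega) (by omega) (by omega)
    · obtain ⟨rfl, rfl, h⟩ := h
      exact H.lw _ _ _ _ (by omega) (by omega) (by omega) (by omega) (by omega) (by omega)
    · obtain ⟨rfl, rfl, h⟩ := h
      exact H.lw _ _ _ _ (by omega) (by omega) (by omega) (by omega) (by omega) (by omega)
    · obtain ⟨rfl, rfl, h⟩ := h
      exact NW.rm1i hf H.T (p := 0) (j := 2) (by omega) (by omega) (by omega) (by omega) (by omega) (by omega) (by omega)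
    · obtain ⟨rfl, rfl, h⟩ := h
      exact H.eo _ _ _ _ (by omega) (by omega) (by omega) (by omega) (by omega) (by omega) (by omega)
    · obtain ⟨rfl, rfl, h⟩ := h
      exact NW.rm1i hf H.T (p := 1) (j := 3) (by omega) (by omega) (by omega) (by omega) (by omega) (by omega) (by omega)
    · obtain ⟨rfl, rfl, h⟩ := h
      exact H.eo _ _ _ _ (by omega) (by omega) (by omega) (by omega) (by omega) (by omega) (by omega)
    · obtain ⟨rfl, rfl, h⟩ := h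
      exact NW.rm1i hf H.T (p := 0) (j := 3) (by omega) (by omega) (by omega) (by omega) (by omega) (by omega) (by omega)
    · obtain ⟨rfl, rfl, h⟩ := h
      exact NHT.rIn hf H.T (t := 2) (p := 0) (j := 1) (by omega) (by omega) (by omega) (by omega) (by omega) (by omega) (by omega) (by omega)
    · obtain ⟨rfl, rfl, h⟩ := h
      exact NHT.pmi hf H.T (j := 1) (by omega) (by omega) (by omega) (by omega) (by omega) (by omega)
    · obtain ⟨rfl, rfl, h⟩ := h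
      exact NHT.p0i hf H.T (j := 3) (by omega) (by omega) (by omega) (by omega) (by omega) (by omega)
    · obtain ⟨rfl, rfl, h⟩ := h
      exact NHT.p0i hf H.T (j := 2) (by omega) (by omega) (by omega) (by omega) (by omega) (by omega)
    · obtain ⟨rfl, rfl, h⟩ := h
      exact H.lw _ _ _ _ (by omega) (by omega) (by omega) (by omega) (by omega) (by omega)
    · obtain ⟨rfl, rfl, h⟩ := h
      exact NHT.rIn hf H.T (t := 2) (p := 1) (j := 1) (by omega) (by omega) (by omega) (by omega) (by omega) (by omega) (by omega) (by omega)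
    · obtain ⟨rfl, rfl, h⟩ := h
      exact H.lw _ _ _ _ (by omega) (by omega) (by omega) (by omega) (by omega) (by omega)
    · obtain ⟨rfl, rfl, h⟩ := h
      exact H.eo _ _ _ _ (by omega) (by omega) (by omega) (by omega) (by omega) (by omega) (by omega)
    · obtain ⟨rfl, rfl, h⟩ := h
      exact NW.rm1i hf H.T (p := 0) (j := 1) (by omega) (by omega) (by omega) (by omega) (by omega) (by omega) (by omega)
    · obtain ⟨rfl, rfl, h⟩ := h
      exact NW.rm1 hf H.T (p := 1) (j := 1) (by omega) (by omega) (by omega) (by omega) (by omega) (by omega) (by omega)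
    · obtain ⟨rfl, rfl, h⟩ := h
      exact NW.rm1 hf H.T (p := 0) (j := 1) (by omega) (by omega) (by omega) (by omega) (by omega) (by omega) (by omega)
    · obtain ⟨rfl, rfl, h⟩ := h
      exact NHT.pIn hf H.T (t := 3) (j := 1) (by omega) (by omega) (by omega) (by omega) (by omega) (by omega) (by omega)
    · obtain ⟨rfl, rfl, h⟩ := h
      exact NHT.p0i hf H.T (j := 4) (by omega) (by omega) (by omega) (by omega) (by omega) (by omega)
    · obtain ⟨rfl, rfl, h⟩ := h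
      exact hF6 _ _ _ _ (by omega) (by omega) (by omega) (by omega) (by omega) (by omega)
    · obtain ⟨rfl, rfl, h⟩ := h
      exact hF2 _ _ _ _ (by omega) (by omega) (by omega) (by omega) (by omega) (by omega)
    · obtain ⟨rfl, rfl, h⟩ := h
      exact hB.p3 _ _ _ _ (by omega) (by omega) (by omega) (by omega) (by omega) (by omega)
    · obtain ⟨rfl, rfl, h⟩ := h
      exact hB.p1 _ _ _ _ (by omega) (by omega) (by omega) (by omega) (by omega) (by omega)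
    · obtain ⟨rfl, rfl, h⟩ := h
      exact H.lw _ _ _ _ (by omega) (by omega) (by omega) (by omega) (by omega) (by omega)
    · obtain ⟨rfl, rfl, h⟩ := h
      exact NHT.pOut hf H.T (t := 4) (j := 2) (by omega) (by omega) (by omega) (by omega) (by omega) (by omega) (by omega)
    · obtain ⟨rfl, rfl, h⟩ := h
      exact NHT.pOut hf H.T (t := 4) (j := 1) (by omega) (by omega) (by omega) (by omega) (by omega) (by omega) (by omega)
    · obtain ⟨rfl, rfl, h⟩ := h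
      exact hB.p5 _ _ _ _ (by omega) (by omega) (by omega) (by omega) (by omega) (by omega)
    · obtain ⟨rfl, rfl, h⟩ := h
      exact g3 (by omega) (by omega) (by omega) (by omega)
    · obtain ⟨rfl, rfl, h⟩ := h
      exact g4 (by omega) (by omega) (by omega) (by omega)

end Pool.Agent.SNT.LRI
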