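import Pool.Agent.SNT.LRDef

set_option autoImplicit false
set_option linter.unusedVariables false
set_option synthInstance.maxSize 100000
set_option synthInstance.maxHeartbeats 4000000

/-! Windows near the diagonal. -/

namespace Pool.Agent.SNT.LRI

open Pool.Agent.SNT Pool.Agent.SNT.Loc Pool.Agent.SNT.LW Pool.Agent.SNT.NHZ

variable {f : ℕ → ℕ → ℕ → ℕ → Prop}

theorem dDB_5_11_chk : check 10 9 24 24 0 1 1 1 2
    (fun j n p q => decide ((j = 8 ∧ n = 5 ∧ ((((p = 15) ∨ (p = 21)) ∧ q = 12) ∨ (((p = 17) ∨ (p = 19)) ∧ ((q = 12) ∨ (q = 14)))))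
      ∨ (j = 6 ∧ n = 1 ∧ ((p = 6 ∧ ((q = 3) ∨ (q = 5))) ∨ (p = 8 ∧ ((q = 3) ∨ (q = 5) ∨ (q = 7)))))
      ∨ (j = 4 ∧ n = 5 ∧ ((((p = 13) ∨ (p = 17) ∨ (p = 19)) ∧ q = 12) ∨ (p = 15 ∧ ((q = 12) ∨ (q = 14)))))
      ∨ (j = 4 ∧ n = 3 ∧ ((p = 10 ∧ ((q = 3) ∨ (q = 5) ∨ (q = 7) ∨ (q = 9))) ∨ (p = 12 ∧ q = 9)))
      ∨ (j = 2 ∧ n = 1 ∧ ((p = 6 ∧ ((q = 1) ∨ (q = 3) ∨ (q = 5))) ∨ (p = 8 ∧ ((q = 3) ∨ (q = 5)))))
      ∨ (j = 4 ∧ n = 1 ∧ ((((p = 5) ∨ (p = 9)) ∧ q = 4) ∨ (p = 7 ∧ ((q = 4) ∨ (q = 6)))))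
      ∨ (j = 8 ∧ n = 1 ∧ ((p = 7 ∧ ((q = 4) ∨ (q = 6))) ∨ (p = 9 ∧ q = 4)))
      ∨ (j = 6 ∧ n = 3 ∧ ((p = 11 ∧ q = 8) ∨ (p = 13 ∧ ((q = 8) ∨ (q = 10)))))
      ∨ (j = 10 ∧ n = 3 ∧ (p = 9 ∧ ((q = 6) ∨ (q = 8))))
      ∨ (j = 6 ∧ n = 4 ∧ ((p = 10 ∧ q = 10) ∨ (p = 14 ∧ q = 14)))
      ∨ (j = 4 ∧ n = 2 ∧ ((p = 6 ∧ q = 6) ∨ (p = 8 ∧ q = 8)))
      ∨ (j = 2 ∧ n = 4 ∧ ((p = 10 ∧ q = 10) ∨ (p = 12 ∧ q = 12)))
      ∨ (j = 2 ∧ n = 3 ∧ (((p = 9) ∨ (p = 11)) ∧ q = 8))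
      ∨ (j = 6 ∧ n = 2 ∧ (p = 7 ∧ q = 7))
      ∨ (j = 10 ∧ n = 7 ∧ (p = 19 ∧ q = 16))
      ∨ (j = 8 ∧ n = 6 ∧ (p = 14 ∧ q = 14))
      ∨ (j = 8 ∧ n = 3 ∧ (p = 10 ∧ q = 7))
      ∨ (j = 6 ∧ n = 5 ∧ (p = 22 ∧ q = 11))
      ∨ (j = 4 ∧ n = 6 ∧ (p = 14 ∧ q = 14))
      ∨ (j = 4 ∧ n = 4 ∧ (p = 13 ∧ q = 13))
      ∨ (j = 2 ∧ n = 2 ∧ (p = 7 ∧ q = 7))
      ∨ (j = 4 ∧ n = 3 ∧ (p = 6 ∧ q = 1))
      ∨ (j = 6 ∧ n = 5 ∧ (p = 12 ∧ q = 11))))
    (fun j n p q => decide ((j = 7 ∧ n = 6 ∧ ((((p = 15) ∨ (p = 21)) ∧ 10 ≤ q ∧ q ≤ 11) ∨ (p = 16 ∧ 10 ≤ q ∧ q ≤ 13) ∨ (p = 17 ∧ ((q = 10) ∨ (q = 12) ∨ (q = 14))) ∨ (p = 18 ∧ 11 ≤ q ∧ q ≤ 14) ∨ (p = 19 ∧ 10 ≤ q ∧ q ≤ 14)))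
      ∨ (j = 3 ∧ n = 6 ∧ ((((p = 13) ∨ (p = 17)) ∧ q = 12) ∨ (p = 14 ∧ 7 ≤ q ∧ q ≤ 12) ∨ (p = 15 ∧ ((7 ≤ q ∧ q ≤ 10) ∨ (q = 12))) ∨ (p = 16 ∧ 10 ≤ q ∧ q ≤ 12) ∨ (18 ≤ p ∧ p ≤ 19 ∧ 11 ≤ q ∧ q ≤ 12)))
      ∨ (j = 3 ∧ n = 7 ∧ ((((p = 13) ∨ (p = 17) ∨ (p = 19)) ∧ q = 12) ∨ (p = 14 ∧ 7 ≤ q ∧ q ≤ 13) ∨ (p = 15 ∧ ((q = 8) ∨ (q = 10) ∨ (q = 12))) ∨ (p = 16 ∧ 10 ≤ q ∧ q ≤ 12) ∨ (p = 18 ∧ 11 ≤ q ∧ q ≤ 12)))
      ∨ (j = 6 ∧ n = 6 ∧ ((p = 15 ∧ ((q = 8) ∨ (10 ≤ q ∧ q ≤ 12))) ∨ (p = 16 ∧ ((q = 8) ∨ (q = 10) ∨ (q = 12))) ∨ (p = 17 ∧ ((10 ≤ q ∧ q ≤ 12) ∨ (q = 14))) ∨ (((p = 19) ∨ (p = 21)) ∧ 10 ≤ q ∧ q ≤ 11)))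
      ∨ (j = 1 ∧ n = 4 ∧ ((p = 5 ∧ q = 5) ∨ (p = 6 ∧ 5 ≤ q ∧ q ≤ 6) ∨ (p = 7 ∧ q = 7) ∨ (p = 8 ∧ 7 ≤ q ∧ q ≤ 8) ∨ (9 ≤ p ∧ p ≤ 10 ∧ q = 8)))
      ∨ (j = 5 ∧ n = 6 ∧ ((p = 15 ∧ ((q = 8) ∨ (q = 10))) ∨ (p = 16 ∧ 8 ≤ q ∧ q ≤ 11) ∨ (p = 17 ∧ q = 11)))
      ∨ (j = 1 ∧ n = 5 ∧ ((p = 9 ∧ 8 ≤ q ∧ q ≤ 9) ∨ (p = 10 ∧ 8 ≤ q ∧ q ≤ 10) ∨ (p = 11 ∧ 10 ≤ q ∧ q ≤ 11)))
      ∨ (j = 3 ∧ n = 3 ∧ ((5 ≤ p ∧ p ≤ 6 ∧ ((q = 2) ∨ (q = 4))) ∨ (p = 7 ∧ q = 6) ∨ (p = 8 ∧ q = 3)))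
      ∨ (j = 7 ∧ n = 5 ∧ (((p = 15) ∨ (p = 17) ∨ (p = 19) ∨ (p = 21)) ∧ q = 10))
      ∨ (j = 7 ∧ n = 7 ∧ (p = 19 ∧ 11 ≤ q ∧ q ≤ 14))
      ∨ (j = 1 ∧ n = 3 ∧ ((p = 5 ∧ q = 5) ∨ (p = 6 ∧ 5 ≤ q ∧ q ≤ 6) ∨ (p = 7 ∧ q = 7)))
      ∨ (j = 4 ∧ n = 6 ∧ (((p = 16) ∨ (18 ≤ p ∧ p ≤ 19)) ∧ q = 11))
      ∨ (j = 6 ∧ n = 6 ∧ ((p = 15 ∧ q = 13) ∨ (p = 16 ∧ q = 14) ∨ (p = 17 ∧ q = 15)))
      ∨ (j = 5 ∧ n = 2 ∧ ((p = 6 ∧ 2 ≤ q ∧ q ≤ 3) ∨ (p = 7 ∧ q = 2)))
      ∨ (j = 4 ∧ n = 2 ∧ ((p = 6 ∧ 2 ≤ q ∧ q ≤ 3) ∨ (p = 7 ∧ q = 2)))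
      ∨ (j = 5 ∧ n = 7 ∧ (p = 16 ∧ 8 ≤ q ∧ q ≤ 10))
      ∨ (j = 1 ∧ n = 6 ∧ ((p = 10 ∧ q = 10) ∨ (p = 11 ∧ 10 ≤ q ∧ q ≤ 11)))
      ∨ (j = 3 ∧ n = 2 ∧ (p = 5 ∧ 2 ≤ q ∧ q ≤ 4))
      ∨ (j = 3 ∧ n = 4 ∧ ((p = 6 ∧ q = 4) ∨ (p = 7 ∧ ((q = 4) ∨ (q = 6)))))
      ∨ (j = 8 ∧ n = 6 ∧ (18 ≤ p ∧ p ≤ 19 ∧ q = 11))
      ∨ (j = 7 ∧ n = 6 ∧ ((p = 16 ∧ q = 14) ∨ (p = 17 ∧ q = 15)))
      ∨ (j = 5 ∧ n = 5 ∧ (p = 13 ∧ 9 ≤ q ∧ q ≤ 10))
      ∨ (j = 5 ∧ n = 3 ∧ (p = 9 ∧ 4 ≤ q ∧ q ≤ 5))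
      ∨ (j = 8 ∧ n = 7 ∧ (p = 19 ∧ ((q = 12) ∨ (q = 14))))
      ∨ (j = 3 ∧ n = 7 ∧ (p = 15 ∧ ((q = 7) ∨ (q = 9))))
      ∨ (j = 1 ∧ n = 2 ∧ (5 ≤ p ∧ p ≤ 6 ∧ q = 5))
      ∨ (j = 7 ∧ n = 7 ∧ (p = 17 ∧ q = 15))
      ∨ (j = 3 ∧ n = 7 ∧ (p = 19 ∧ q = 11))
      ∨ (j = 5 ∧ n = 7 ∧ (p = 19 ∧ q = 13))
      ∨ (j = 4 ∧ n = 7 ∧ (p = 19 ∧ q = 12))
      ∨ (j = 6 ∧ n = 7 ∧ (p = 15 ∧ q = 8))
      ∨ (j = 6 ∧ n = 7 ∧ (p = 16 ∧ q = 8))))
    886
    0x4f4c8343f4004514224f4c83451400451404451f80452c1a3b398e63eb8359be8059cb1a4572004572014f93003125804f938a31321a3b46804566c23b39803b398463bd8359850059919a4538804538814f708030ec004f7c9230f89a3b240045444239eb8039eb84440c0e4f6483440c00440c0445658e4f92834565804565844f640e3b24054550804544424f7cd24f64004f64044f9f0e4f93834f9f004f9f0444248e4f7c834424804424844f870e455b034f87004f87043b3a8e310e833b3a803b3a8430f68e2470851a50002e9d5a1a5c9a38bd0024888038c9122ea94a2fc9802f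d61a31020030f68030f68e30f6842e910e2338052337802d64da2d57c237840037909a2e9c802e91002e910e2e910438b10e2338052337802d64da2d57c237840037909a38bc8038b10038b10e38b1042d57832d64002d6404190b03232b00232b042c2a832d4b002d4b041b898325a98025a98437848e220c032c2c002c38122338002d64da37848037848419240323440023440417eb03220b00220b0425c28326e28026e2842d4b8e2d3f832d4b802d4b842c148336340036409a21f38021f3842c13832d33802d338438b18e42de8338b18038b1844e2b8342de8042de844e2c8342df8042df8422188317e00017e0042c07032d33002d330443310e4e89834331004331044ea1834349004349042d638e2c43832d63802d63842d6f8e2c43832d6f802d6f842218832338802338842c1f032d3f002d3f042c128e363f832c12802c12842c130e2c07032c13002c13042c1d0e3655832c1d002c1d043627832ada802ada842afd8e3655832afd802afd8430df833aff803aff843627833633003633042c360e366e832c36002c36043627833633803633842b158e2c4285222200366ed22c4e522b15802b158436558e40828336558036558435358e40828335358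035358436628e4aaf8336628036628436568e4aa3033656803656845eef034a96804a96844a800e5ecc834a80004a80045eef834a97004a970445650e4564834565004565043ae78e30c7833ae7803ae7844aaf834082804082845eef834aa3004aa304247c8e1a5c83247c80247c843b3a0e311a033b3a003b3a044f648e5991834f64804f648445440e4f7c8345440045440444240e4f7c834424004424044e678e443b834e5c004e67804e678e4e67842fcb8e30f8832fcb802fcb843b458e3125833b45803b45843b460e3132033b46003b460425ab8e30f88325ab8025ab8426cb8e30f88326cb8026cb843b520e3132033b52003b52042fcc8e30f9832fcc802fcc8425f18e314a0325f18025f18427118e314a0327118027118430f88e3b258330f88030f8845979834f4c804f4c845979834e2c804e2c8445500e454f834550004550043b2e8e25c28326e280310ed23b2e803b2e844f878e443b834f7c004f87804f878e4f87844e728e59cb034e72804e72843b5e0e314a033b5e003b5e0430f9833b19803b198444478e443b83443c0044478044478e44478445678e443b83455c0045678045678e4567844422806de98068ec8057518057398057508057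388057378054b900525480526b805253804e42c242ea00409e804086804085802eb9802eb8802ecf802eb7802eb6802c52002c51002c39002c21002c09002bef0029d48029eb8029d38029d28018048015a000158800159f00158700156f006e0c006e0c0e691000690f00690f0e59cb0e59ca0e58a98e589d8e586f0057a200578b00578b0e578a00578a0e57730057730e57720057720e575a0e54db8054db8e528e00528e0e52770052770e52760052760e4fab0e4faa8e4faa0e4fa98e4f938e4e8b0e4e8a8e4e8a0e4e898e4e7f0e4e7e8e4e7e0e4e7d8e4e738e4e730e4e720e4e710e4e670e4e668e4e660e4e658e4e650e4e598e4e590e4d510e4d390e45640e45580e44538e44530e44520e44518e44510e44470e44460e44450e44440e443a8e443a0e44398e44390e44380e436d8042f58042f58e41ef0041bd0040c10e40c00e40a80e3f57803e43803e42803e41803e2a803e29803b6a8e3b450e3b448e3b440e3a318e3a258e3a250e3a248e3a240e3a190e3a180e38e10e38e08e366e8e366e0e35350e35298e35290e314a0e30298e301d8e30058e2fef002f0a002f0a0e2ef2002ef20e2edb002edb0e2eda002eda0e2ec2002ec20e2da2802c748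e2c5c802c5c8e2c5b8e2c5a802c5a8e2c59802c598e2c28802c288e2b24002b150e2b0b002b098e2b090e2a0e002a0e0e29f70029f70e29f60029f60e29de0029de0e272a0e27298e271e0e271d8e27120e27060e27058e26f90e26f88e26f80e26f78e26ed0e26ec8e26ec0e26eb8e260a0e26098e25fe0e25fd8e25f20e25e60e25e58e25d90e25d88e25d80e25d78e25cd0e25cc8e25cc0e25cb8e25c20e23370e23360e232a0e22218e22170e220a0e22090e21fe0e21fd0e20de0e20dd8e20dd0e195600193d0018280018100018100e16d78015c28015c28e15c18015c18e15aa8015aa8e15a98015a98e15a88e11690e10490e0f038e0eea8e0dca8e0caa8e6e0c0f69100f690f0f59cb8759cb0759ca8759ca07599d87598587596d8758a987589d87586f0f57a20f578b0f578a0f57730f57720f575a0f54db8f54cf8754ce8754a087528e0f52770f52760f4fab074faa874faa074fa9874f93874ea1874ea1074e8b074e8a874e8a074e89874e89074e7f074e7e874e7e074e7d874e73874e73074e72074e71074e67074e66874e66074e65874e65074e59874e59074d81074d69074d51074d3907457387457287457187456407455c87455a8745588745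5807454487454387452c87452b87451387448187448107446987446907445387445307445207445187445107444707444607444507444407443a87443a07443987443907443807436d8f436187434987431b8743028742f58f42ec8742eb8742d28741ef0f41bd0f40c10f40c00f40a80f408f874076873f578f3e438f3e428f3e418f3e2a8f3e298f3b6a873b45073b44873b44073a31873a25873a25073a24873a24073a19073a180738e10738e087366e87366e07353507352987352907314a0731498731318731198731058731028730ed8730ec8730d38730bb87302987301d873005872fef0f2f0a0f2ef20f2edb0f2eda0f2ec20f2ea9872ea8872e90872da28f2c748f2c5c8f2c5b8f2c5a8f2c598f2c50872c4e872c4d872c38872c37872c35872c288f2c20872c1f872c1e872c08872c07872c06872b240f2b15072b0b0f2b09872b09072a0e0f29f70f29f60f29de0f272a07272987271e07271d8727120727060727058727050726fa0726f90726f88726f80726f78726ee8726ee0726ed8726ed0726ec8726ec0726eb8726e207260a0726098725fe0725fd8725f20725e60725e58725e50725da0725d90725d88725d80725d78725ce0725cd8725cd0725cc8725cc0725cb8725c207233707233607232a07222187221707220a0722090721fe0721fd0720de0720dd8720dd071a82871a69871a508719560f193d0f18280f18100f17f88717f78717df8717de8716d78f15c28f15c18f15aa8f15a98f15a88f116987116907115d07104987104907103d07103c87103c071030871030070f1c070f10070f04070f03870ef7870eeb070eea870ede870dd7870dcb070dca870dbe870caa870c9e87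 = true := by
  decide +kernel

theorem dDB_5_11 (hf : Rule f) {k c n : ℕ} (H : LI f k c n) (hF2 : F2 f k c n) (hF6 : F6 f k c n) (hB : FB f k c n)
    (g1 : ∀ {M R x y : ℕ}, M = 6 * k + 2 → R + 4 = c → x + 11 = 2 * n → y + 16 = 2 * n → f M R x y)
    (g2 : ∀ {M R x y : ℕ}, M = 6 * k + 4 → R + 2 = c → x + 5 = 2 * n → y + 6 = 2 * n → f M R x y)
    (g3 : ∀ {M R x y : ℕ}, M = 6 * k + 4 → R = c → x + 2 = 2 * n → y + 9 = 2 * n → ¬ f M R x y)
    (g4 : ∀ {M R x y : ℕ}, M = 6 * k + 4 → R = c → x + 1 = 2 * n → y + 9 = 2 * n → ¬ f M R x y) : False := by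
  have hk := H.T.hk
  have hc := H.T.hc
  have h4 := H.T.h4
  have hb := H.T.hb
  have hN := H.T.hN2
  obtain ⟨a0, ha0⟩ : ∃ z, z + 2 = 6 * k := ⟨6 * k - 2, by omega⟩
  obtain ⟨b0, hb0⟩ : ∃ z, z + 7 = c := ⟨c - 7, by omega⟩
  obtain ⟨x0, hx0⟩ : ∃ z, z + 17 = 2 * n := ⟨2 * n - 17, by omega⟩
  obtain ⟨y0, hy0⟩ : ∃ z, z + 17 = 2 * n := ⟨2 * n - 17, by omega⟩
  refine check_sound hf (a0 := a0) (b0 := b0) (x0 := x0) (y0 := y0) dDB_5_11_chk
    ⟨fun _ => by omega, fun h => absurd h (by decide), fun h => absurd h (by decide), by omega, by omega,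
      by omega, by omega⟩ ?_ ?_
  · intro j m p q hr h
    obtain ⟨-, -, -, -, hp1, hp2, hq1, hq2⟩ := hr
    replace h := of_decide_eq_true h
    rcases h with h | h | h | h | h | h | h | h | h | h | h | h | h | h | h | h | h | h | h | h | h | h | h
    · obtain ⟨rfl, rfl, h⟩ := h
      exact (WrapC.v2 H.a6 (by omega) (by omega) (by omega) (by omega) (by omega) (by omega) (by omega)).mpr (by omega)
    · obtain ⟨rfl, rfl, h⟩ := h
      exact (WrapC.v4 H.e4 (by omega) (by omega) (by omega) (by omega) (by omega) (by omega) (by omega)).mpr (by omega)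
    · obtain ⟨rfl, rfl, h⟩ := h
      exact (WrapC.v2 H.a2 (by omega) (by omega) (by omega) (by omega) (by omega) (by omega) (by omega)).mpr (by omega)
    · obtain ⟨rfl, rfl, h⟩ := h
      exact (WrapC.v0 H.a2 (by omega) (by omega) (by omega) (by omega) (by omega) (by omega) (by omega)).mpr (by omega)
    · obtain ⟨rfl, rfl, h⟩ := h
      exact (WrapC.v0 H.a0 (by omega) (by omega) (by omega) (by omega) (by omega) (by omega) (by omega)).mpr (by omega)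
    · obtain ⟨rfl, rfl, h⟩ := h
      exact (WrapC.v2 H.b2 (by omega) (by omega) (by omega) (by omega) (by omega) (by omega) (by omega)).mpr (by omega)
    · obtain ⟨rfl, rfl, h⟩ := h
      exact (WrapC.v2 H.b6 (by omega) (by omega) (by omega) (by omega) (by omega) (by omega) (by omega)).mpr (by omega)
    · obtain ⟨rfl, rfl, h⟩ := h
      exact (WrapC.v2 H.b4 (by omega) (by omega) (by omega) (by omega) (by omega) (by omega) (by omega)).mpr (by omega)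
    · obtain ⟨rfl, rfl, h⟩ := h
      exact (NW.w2v H.b8 (by omega) (by omega) (by omega) (by omega) (by omega) (by omega) (by omega)).mpr (by omega)
    · obtain ⟨rfl, rfl, h⟩ := h
      exact (WrapC.v3 H.b4 (by omega) (by omega) (by omega) (by omega) (by omega) (by omega) (by omega) (by omega)).mpr (by omega)
    · obtain ⟨rfl, rfl, h⟩ := h
      exact (WrapC.v3 H.b2 (by omega) (by omega) (by omega) (by omega) (by omega) (by omega) (by omega) (by omega)).mpr (by omega)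
    · obtain ⟨rfl, rfl, h⟩ := h
      exact (WrapC.v3 H.a0 (by omega) (by omega) (by omega) (by omega) (by omega) (by omega) (by omega) (by omega)).mpr (by omega)
    · obtain ⟨rfl, rfl, h⟩ := h
      exact (WrapC.v2 H.a0 (by omega) (by omega) (by omega) (by omega) (by omega) (by omega) (by omega)).mpr (by omega)
    · obtain ⟨rfl, rfl, h⟩ := h
      exact (WrapC.v1 H.b4 (by omega) (by omega) (by omega) (by omega) (by omega) (by omega) (by omega) (by omega)).mpr (by omega)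
    · obtain ⟨rfl, rfl, h⟩ := h
      exact (NW.w2v H.a8 (by omega) (by omega) (by omega) (by omega) (by omega) (by omega) (by omega)).mpr (by omega)
    · obtain ⟨rfl, rfl, h⟩ := h
      exact (WrapC.v3 H.a6 (by omega) (by omega) (by omega) (by omega) (by omega) (by omega) (by omega) (by omega)).mpr (by omega)
    · obtain ⟨rfl, rfl, h⟩ := h
      exact (WrapC.v0 H.a6 (by omega) (by omega) (by omega) (by omega) (by omega) (by omega) (by omega)).mpr (by omega)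
    · obtain ⟨rfl, rfl, h⟩ := h
      exact (WrapC.v0 H.a4 (by omega) (by omega) (by omega) (by omega) (by omega) (by omega) (by omega)).mpr (by omega)
    · obtain ⟨rfl, rfl, h⟩ := h
      exact (WrapC.v3 H.a2 (by omega) (by omega) (by omega) (by omega) (by omega) (by omega) (by omega) (by omega)).mpr (by omega)
    · obtain ⟨rfl, rfl, h⟩ := h
      exact (WrapC.v1 H.a2 (by omega) (by omega) (by omega) (by omega) (by omega) (by omega) (by omega) (by omega)).mpr (by omega)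
    · obtain ⟨rfl, rfl, h⟩ := h
      exact (WrapC.v1 H.a0 (by omega) (by omega) (by omega) (by omega) (by omega) (by omega) (by omega) (by omega)).mpr (by omega)
    · obtain ⟨rfl, rfl, h⟩ := h
      exact g1 (by omega) (by omega) (by omega) (by omega)
    · obtain ⟨rfl, rfl, h⟩ := h
      exact g2 (by omega) (by omega) (by omega) (by omega)
  · intro j m p q hr h
    obtain ⟨-, -, -, -, hp1, hp2, hq1, hq2⟩ := hr
    replace h := of_decide_eq_true h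
    rcases h with h | h | h | h | h | h | h | h | h | h | h | h | h | h | h | h | h | h | h | h | h | h | h | h | h | h | h | h | h | h | h | h
    · obtain ⟨rfl, rfl, h⟩ := h
      exact NW.rm1i hf H.T (p := 1) (j := 2) (by omega) (by omega) (by omega) (by omega) (by omega) (by omega) (by omega)
    · obtain ⟨rfl, rfl, h⟩ := h
      exact H.eo _ _ _ _ (by omega) (by omega) (by omega) (by omega) (by omega) (by omega) (by omega)
    · obtain ⟨rfl, rfl, h⟩ := h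
      exact H.eo _ _ _ _ (by omega) (by omega) (by omega) (by omega) (by omega) (by omega) (by omega)
    · obtain ⟨rfl, rfl, h⟩ := h
      exact NW.rm1i hf H.T (p := 0) (j := 2) (by omega) (by omega) (by omega) (by omega) (by omega) (by omega) (by omega)
    · obtain ⟨rfl, rfl, h⟩ := h
      exact H.lw _ _ _ _ (by omega) (by omega) (by omega) (by omega) (by omega) (by omega)
    · obtain ⟨rfl, rfl, h⟩ := h
      exact NW.rm1i hf H.T (p := 1) (j := 3) (by omega) (by omega) (by omega) (by omega) (by omega) (by omega) (by omega)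
    · obtain ⟨rfl, rfl, h⟩ := h
      exact H.lw _ _ _ _ (by omega) (by omega) (by omega) (by omega) (by omega) (by omega)
    · obtain ⟨rfl, rfl, h⟩ := h
      exact H.eo _ _ _ _ (by omega) (by omega) (by omega) (by omega) (by omega) (by omega) (by omega)
    · obtain ⟨rfl, rfl, h⟩ := h
      exact NHT.pmi hf H.T (j := 1) (by omega) (by omega) (by omega) (by omega) (by omega) (by omega)
    · obtain ⟨rfl, rfl, h⟩ := h
      exact NHT.p0i hf H.T (j := 2) (by omega) (by omega) (by omega) (by omega) (by omega) (by omega)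
    · obtain ⟨rfl, rfl, h⟩ := h
      exact H.lw _ _ _ _ (by omega) (by omega) (by omega) (by omega) (by omega) (by omega)
    · obtain ⟨rfl, rfl, h⟩ := h
      exact NW.rm1i hf H.T (p := 0) (j := 3) (by omega) (by omega) (by omega) (by omega) (by omega) (by omega) (by omega)
    · obtain ⟨rfl, rfl, h⟩ := h
      exact NW.rm1 hf H.T (p := 0) (j := 1) (by omega) (by omega) (by omega) (by omega) (by omega) (by omega) (by omega)
    · obtain ⟨rfl, rfl, h⟩ := h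
      exact NHT.rIn hf H.T (t := 2) (p := 1) (j := 1) (by omega) (by omega) (by omega) (by omega) (by omega) (by omega) (by omega) (by omega)
    · obtain ⟨rfl, rfl, h⟩ := h
      exact NHT.rIn hf H.T (t := 2) (p := 0) (j := 1) (by omega) (by omega) (by omega) (by omega) (by omega) (by omega) (by omega) (by omega)
    · obtain ⟨rfl, rfl, h⟩ := h
      exact hB.p3 _ _ _ _ (by omega) (by omega) (by omega) (by omega) (by omega) (by omega)
    · obtain ⟨rfl, rfl, h⟩ := h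
      exact H.lw _ _ _ _ (by omega) (by omega) (by omega) (by omega) (by omega) (by omega)
    · obtain ⟨rfl, rfl, h⟩ := h
      exact H.eo _ _ _ _ (by omega) (by omega) (by omega) (by omega) (by omega) (by omega) (by omega)
    · obtain ⟨rfl, rfl, h⟩ := h
      exact H.eo _ _ _ _ (by omega) (by omega) (by omega) (by omega) (by omega) (by omega) (by omega)
    · obtain ⟨rfl, rfl, h⟩ := h
      exact NW.rm1i hf H.T (p := 0) (j := 1) (by omega) (by omega) (by omega) (by omega) (by omega) (by omega) (by omega)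
    · obtain ⟨rfl, rfl, h⟩ := h
      exact NW.rm1 hf H.T (p := 1) (j := 1) (by omega) (by omega) (by omega) (by omega) (by omega) (by omega) (by omega)
    · obtain ⟨rfl, rfl, h⟩ := h
      exact NHT.pmi hf H.T (j := 2) (by omega) (by omega) (by omega) (by omega) (by omega) (by omega)
    · obtain ⟨rfl, rfl, h⟩ := h
      exact NHT.pIn hf H.T (t := 3) (j := 1) (by omega) (by omega) (by omega) (by omega) (by omega) (by omega) (by omega)
    · obtain ⟨rfl, rfl, h⟩ := h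
      exact hF6 _ _ _ _ (by omega) (by omega) (by omega) (by omega) (by omega) (by omega)
    · obtain ⟨rfl, rfl, h⟩ := h
      exact hB.p1 _ _ _ _ (by omega) (by omega) (by omega) (by omega) (by omega) (by omega)
    · obtain ⟨rfl, rfl, h⟩ := h
      exact H.lw _ _ _ _ (by omega) (by omega) (by omega) (by omega) (by omega) (by omega)
    · obtain ⟨rfl, rfl, h⟩ := h
      exact NHT.pOut hf H.T (t := 4) (j := 1) (by omega) (by omega) (by omega) (by omega) (by omega) (by omega) (by omega)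
    · obtain ⟨rfl, rfl, h⟩ := h
      exact NHT.p0i hf H.T (j := 4) (by omega) (by omega) (by omega) (by omega) (by omega) (by omega)
    · obtain ⟨rfl, rfl, h⟩ := h
      exact NHT.p0i hf H.T (j := 3) (by omega) (by omega) (by omega) (by omega) (by omega) (by omega)
    · obtain ⟨rfl, rfl, h⟩ := h
      exact hF2 _ _ _ _ (by omega) (by omega) (by omega) (by omega) (by omega) (by omega)
    · obtain ⟨rfl, rfl, h⟩ := h
      exact g3 (by omega) (by omega) (by omega) (by omega)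
    · obtain ⟨rfl, rfl, h⟩ := h
      exact g4 (by omega) (by omega) (by omega) (by omega)

end Pool.Agent.SNT.LRI
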