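import Pool.Agent.SNT.LRE1
import Pool.Agent.SNT.LRE2
import Pool.Agent.SNT.LRE3
import Pool.Agent.SNT.LRE4
import Pool.Agent.SNT.LRE5
import Pool.Agent.SNT.K3I

set_option autoImplicit false

/-! The three beams near the diagonal. -/

namespace Pool.Agent.SNT.LRI

open Pool.Agent.SNT Pool.Agent.SNT.Loc Pool.Agent.SNT.LW Pool.Agent.SNT.NHZ

variable {f : ℕ → ℕ → ℕ → ℕ → Prop} {k c n : ℕ}

/-- from a cell to the flexible form -/
theorem flexP {M0 R0 x0 y0 : ℕ} (h : f M0 R0 x0 y0) {M R x y : ℕ} (e1 : M = M0) (e2 : R = R0) (e3 : x = x0) (e4 : y = y0) :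
    f M R x y := by
  subst e1 e2 e3 e4
  exact h

theorem flexN {M0 R0 x0 y0 : ℕ} (h : ¬ f M0 R0 x0 y0) {M R x y : ℕ} (e1 : M = M0) (e2 : R = R0) (e3 : x = x0) (e4 : y = y0) :
    ¬ f M R x y := by
  subst e1 e2 e3 e4
  exact h

/-- the beam of the column `n` of `6 k + 4` -/
theorem LI.da (hf : Rule f) (H : LI f k c n) (hF2 : F2 f k c n) (hF6 : F6 f k c n)
    (T : f (6 * k + 4) (c - 2) (2 * n - 3) (2 * n - 4) ∨ f (6 * k + 4) (c - 2) (2 * n - 1) (2 * n - 2)) :
    Sig.su f (6 * k + 4) c n (n - 4) := by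
  have hN := H.T.hN2
  have hb := H.T.hb
  by_contra h
  have h1 : ¬ f (6 * k + 4) c (2 * n) (2 * (n - 4) + 1) := fun h' => h (Or.inl h')
  have h2 : ¬ f (6 * k + 4) c (2 * n + 1) (2 * (n - 4) + 1) := fun h' => h (Or.inr h')
  rcases T with T | T
  · exact dDA_3 hf H hF2 hF6
      (fun {M R x y} e1 e2 e3 e4 => flexP T (by omega) (by omega) (by omega) (by omega))
      (fun {M R x y} e1 e2 e3 e4 => flexN h1 (by omega) (by omega) (by omega) (by omega))
      (fun {M R x y} e1 e2 e3 e4 => flexN h2 (by omega) (by omega) (by omega) (by omega))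
  · exact dDA_1 hf H hF2 hF6
      (fun {M R x y} e1 e2 e3 e4 => flexP T (by omega) (by omega) (by omega) (by omega))
      (fun {M R x y} e1 e2 e3 e4 => flexN h1 (by omega) (by omega) (by omega) (by omega))
      (fun {M R x y} e1 e2 e3 e4 => flexN h2 (by omega) (by omega) (by omega) (by omega))

/-- the beam of the column `n - 1` of `6 k + 4` -/
theorem LI.db (hf : Rule f) (H : LI f k c n) (hF2 : F2 f k c n) (hF6 : F6 f k c n)
    (Q : f (6 * k + 2) (c - 4) (2 * n - 11) (2 * n - 16) ∨ f (6 * k + 2) (c - 4) (2 * n - 9) (2 * n - 14))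
    (hB : LineR0.HB f (6 * k) c n (n - 5) (n - 4)) : Sig.su f (6 * k + 4) c (n - 1) (n - 5) := by
  have hN := H.T.hN2
  have hb := H.T.hb
  have B := FB.of (by omega) hB
  by_contra h
  have h1 : ¬ f (6 * k + 4) c (2 * (n - 1)) (2 * (n - 5) + 1) := fun h' => h (Or.inl h')
  have h2 : ¬ f (6 * k + 4) c (2 * (n - 1) + 1) (2 * (n - 5) + 1) := fun h' => h (Or.inr h')
  rcases H.K3 hf with T | T <;> rcases Q with Q | Q
  · exact dDB_5_11 hf H hF2 hF6 B
      (fun {M R x y} e1 e2 e3 e4 => flexP Q (by omega) (by omega) (by omega) (by omega))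
      (fun {M R x y} e1 e2 e3 e4 => flexP T (by omega) (by omega) (by omega) (by omega))
      (fun {M R x y} e1 e2 e3 e4 => flexN h1 (by omega) (by omega) (by omega) (by omega))
      (fun {M R x y} e1 e2 e3 e4 => flexN h2 (by omega) (by omega) (by omega) (by omega))
  · exact dDB_5_9 hf H hF2 hF6 B
      (fun {M R x y} e1 e2 e3 e4 => flexP Q (by omega) (by omega) (by omega) (by omega))
      (fun {M R x y} e1 e2 e3 e4 => flexP T (by omega) (by omega) (by omega) (by omega))
      (fun {M R x y} e1 e2 e3 e4 => flexN h1 (by omega) (by omega) (by omega) (by omega))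
      (fun {M R x y} e1 e2 e3 e4 => flexN h2 (by omega) (by omega) (by omega) (by omega))
  · exact dDB_3_11 hf H hF2 hF6 B
      (fun {M R x y} e1 e2 e3 e4 => flexP Q (by omega) (by omega) (by omega) (by omega))
      (fun {M R x y} e1 e2 e3 e4 => flexP T (by omega) (by omega) (by omega) (by omega))
      (fun {M R x y} e1 e2 e3 e4 => flexN h1 (by omega) (by omega) (by omega) (by omega))
      (fun {M R x y} e1 e2 e3 e4 => flexN h2 (by omega) (by omega) (by omega) (by omega))
  · exact dDB_3_9 hf H hF2 hF6 B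
      (fun {M R x y} e1 e2 e3 e4 => flexP Q (by omega) (by omega) (by omega) (by omega))
      (fun {M R x y} e1 e2 e3 e4 => flexP T (by omega) (by omega) (by omega) (by omega))
      (fun {M R x y} e1 e2 e3 e4 => flexN h1 (by omega) (by omega) (by omega) (by omega))
      (fun {M R x y} e1 e2 e3 e4 => flexN h2 (by omega) (by omega) (by omega) (by omega))

/-- the beam of the column `n` of `6 k + 8` -/
theorem LI.dc (hf : Rule f) (H : LI f k c n) (hF2 : F2 f k c n) (hF6 : F6 f k c n)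
    (hC : LineR0.HC f (6 * k) c n (n - 5) (n - 4)) : Sig.su f (6 * k + 8) c n (n - 5) := by
  have hN := H.T.hN2
  have hb := H.T.hb
  have B := FB.of (by omega) hC.1
  have C := FC.of (by omega) hC
  by_contra h
  have h1 : ¬ f (6 * k + 8) c (2 * n) (2 * (n - 5) + 1) := fun h' => h (Or.inl h')
  have h2 : ¬ f (6 * k + 8) c (2 * n + 1) (2 * (n - 5) + 1) := fun h' => h (Or.inr h')
  rcases H.K3 hf with T | T
  · exact dDC_5 hf H hF2 hF6 B C
      (fun {M R x y} e1 e2 e3 e4 => flexP T (by omega) (by omega) (by omega) (by omega))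
      (fun {M R x y} e1 e2 e3 e4 => flexN h1 (by omega) (by omega) (by omega) (by omega))
      (fun {M R x y} e1 e2 e3 e4 => flexN h2 (by omega) (by omega) (by omega) (by omega))
  · exact dDC_3 hf H hF2 hF6 B C
      (fun {M R x y} e1 e2 e3 e4 => flexP T (by omega) (by omega) (by omega) (by omega))
      (fun {M R x y} e1 e2 e3 e4 => flexN h1 (by omega) (by omega) (by omega) (by omega))
      (fun {M R x y} e1 e2 e3 e4 => flexN h2 (by omega) (by omega) (by omega) (by omega))

/-- **All inputs of the line proof.** -/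
theorem LI.mkIn' (hf : Rule f) (H : LI f k c n)
    (K6 : f (6 * k + 6) c (2 * n + 3) (2 * n + 6 - 2 * k) ∨ f (6 * k + 6) c (2 * n + 5) (2 * n + 8 - 2 * k))
    (K2 : f (6 * k + 2) c (2 * n + 3) (2 * n + 8 - 2 * k) ∨ f (6 * k + 2) c (2 * n + 5) (2 * n + 10 - 2 * k))
    (T : f (6 * k + 4) (c - 2) (2 * n - 3) (2 * n - 4) ∨ f (6 * k + 4) (c - 2) (2 * n - 1) (2 * n - 2))
    (Q : f (6 * k + 2) (c - 4) (2 * n - 11) (2 * n - 16) ∨ f (6 * k + 2) (c - 4) (2 * n - 9) (2 * n - 14)) :
    LineR0.In f (6 * k) c n (n + 2 - k) (n - 5) (n - 4) := by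
  have hk := H.T.hk
  have hN := H.T.hN2
  have hF2 := F2.of hf H K2
  have hF6 := F6.of hf H K6
  exact H.mkIn hf (by omega) (by omega) (by omega) (by omega) K6 K2 (H.da hf hF2 hF6 T)
    (fun h => by rw [show n - 4 - 1 = n - 5 by omega]; exact H.db hf hF2 hF6 Q h)
    (fun h => by rw [show n - 4 - 1 = n - 5 by omega]; exact H.dc hf hF2 hF6 h)

end Pool.Agent.SNT.LRI
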