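import Pool.Agent.SNT.LRDef

set_option autoImplicit false
set_option linter.unusedVariables false
set_option synthInstance.maxSize 100000
set_option synthInstance.maxHeartbeats 4000000

/-! Windows near the diagonal. -/

namespace Pool.Agent.SNT.LRI

open Pool.Agent.SNT Pool.Agent.SNT.Loc Pool.Agent.SNT.LW Pool.Agent.SNT.NHZ

variable {f : ℕ → ℕ → ℕ → ℕ → Prop}

theorem vD3a_chk : check 5 9 19 19 0 1 1 1 2
    (fun j n p q => decide ((j = 4 ∧ n = 3 ∧ ((p = 8 ∧ ((q = 3) ∨ (q = 5) ∨ (q = 7))) ∨ (p = 10 ∧ ((q = 3) ∨ (q = 5) ∨ (q = 7) ∨ (q = 9)))))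
      ∨ (j = 4 ∧ n = 5 ∧ (((p = 13) ∨ (p = 15) ∨ (p = 17)) ∧ ((q = 10) ∨ (q = 12))))
      ∨ (j = 2 ∧ n = 3 ∧ ((p = 9 ∧ q = 6) ∨ (p = 11 ∧ ((q = 6) ∨ (q = 8) ∨ (q = 10)))))
      ∨ (j = 2 ∧ n = 1 ∧ ((p = 6 ∧ ((q = 3) ∨ (q = 5))) ∨ (p = 8 ∧ q = 3)))
      ∨ (j = 2 ∧ n = 4 ∧ ((p = 8 ∧ q = 8) ∨ (p = 10 ∧ q = 10)))
      ∨ (j = 4 ∧ n = 4 ∧ (p = 9 ∧ q = 9))
      ∨ (j = 2 ∧ n = 5 ∧ (p = 8 ∧ q = 1))
      ∨ (j = 2 ∧ n = 7 ∧ (p = 12 ∧ q = 5))))
    (fun j n p q => decide ((j = 3 ∧ n = 6 ∧ ((p = 10 ∧ q = 7) ∨ (11 ≤ p ∧ p ≤ 12 ∧ 6 ≤ q ∧ q ≤ 7) ∨ (p = 13 ∧ q = 6) ∨ (p = 14 ∧ 7 ≤ q ∧ q ≤ 12) ∨ (p = 15 ∧ 8 ≤ q ∧ q ≤ 10) ∨ (16 ≤ p ∧ p ≤ 17 ∧ ((7 ≤ q ∧ q ≤ 8) ∨ (11 ≤ q ∧ q ≤ 12)))))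
      ∨ (j = 1 ∧ n = 5 ∧ ((p = 8 ∧ ((5 ≤ q ∧ q ≤ 6) ∨ (q = 8))) ∨ (p = 9 ∧ ((q = 3) ∨ (5 ≤ q ∧ q ≤ 8))) ∨ (p = 10 ∧ ((q = 3) ∨ (7 ≤ q ∧ q ≤ 10)))))
      ∨ (j = 4 ∧ n = 6 ∧ ((p = 11 ∧ q = 7) ∨ (((p = 14) ∨ (16 ≤ p ∧ p ≤ 17)) ∧ 7 ≤ q ∧ q ≤ 9) ∨ (p = 15 ∧ ((q = 7) ∨ (q = 9)))))
      ∨ (j = 1 ∧ n = 6 ∧ ((8 ≤ p ∧ p ≤ 9 ∧ ((q = 6) ∨ (q = 8))) ∨ (p = 10 ∧ 7 ≤ q ∧ q ≤ 10) ∨ (13 ≤ p ∧ p ≤ 14 ∧ 8 ≤ q ∧ q ≤ 9)))
      ∨ (j = 1 ∧ n = 4 ∧ ((p = 8 ∧ 5 ≤ q ∧ q ≤ 6) ∨ (p = 9 ∧ ((q = 3) ∨ (5 ≤ q ∧ q ≤ 8))) ∨ (p = 10 ∧ ((q = 3) ∨ (7 ≤ q ∧ q ≤ 8)))))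
      ∨ (j = 3 ∧ n = 7 ∧ ((p = 12 ∧ ((q = 7) ∨ (q = 9) ∨ (q = 11))) ∨ (p = 15 ∧ ((q = 8) ∨ (q = 10))) ∨ (p = 16 ∧ 11 ≤ q ∧ q ≤ 12) ∨ (p = 17 ∧ ((q = 8) ∨ (q = 12)))))
      ∨ (j = 3 ∧ n = 4 ∧ ((p = 8 ∧ 2 ≤ q ∧ q ≤ 3) ∨ (p = 9 ∧ ((q = 2) ∨ (4 ≤ q ∧ q ≤ 5))) ∨ (p = 10 ∧ 4 ≤ q ∧ q ≤ 5)))
      ∨ (j = 2 ∧ n = 4 ∧ ((p = 8 ∧ q = 2) ∨ (p = 9 ∧ 2 ≤ q ∧ q ≤ 5) ∨ (p = 10 ∧ ((q = 3) ∨ (q = 5)))))
      ∨ (j = 3 ∧ n = 5 ∧ ((p = 8 ∧ ((q = 3) ∨ (q = 5))) ∨ (p = 10 ∧ 6 ≤ q ∧ q ≤ 7) ∨ (p = 11 ∧ q = 6) ∨ (p = 12 ∧ 7 ≤ q ∧ q ≤ 8)))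
      ∨ (j = 1 ∧ n = 7 ∧ ((p = 10 ∧ 7 ≤ q ∧ q ≤ 8) ∨ (13 ≤ p ∧ p ≤ 14 ∧ 8 ≤ q ∧ q ≤ 9)))
      ∨ (j = 5 ∧ n = 7 ∧ (p = 17 ∧ ((8 ≤ q ∧ q ≤ 11) ∨ (q = 13))))
      ∨ (j = 2 ∧ n = 6 ∧ (12 ≤ p ∧ p ≤ 13 ∧ 6 ≤ q ∧ q ≤ 7))
      ∨ (j = 5 ∧ n = 6 ∧ (16 ≤ p ∧ p ≤ 17 ∧ 8 ≤ q ∧ q ≤ 9))
      ∨ (j = 4 ∧ n = 7 ∧ (p = 17 ∧ ((q = 8) ∨ (q = 10) ∨ (q = 12))))
      ∨ (j = 3 ∧ n = 7 ∧ (p = 17 ∧ ((q = 7) ∨ (q = 11))))
      ∨ (j = 3 ∧ n = 5 ∧ (p = 11 ∧ q = 7))
      ∨ (j = 5 ∧ n = 5 ∧ (p = 11 ∧ q = 9))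
      ∨ (j = 5 ∧ n = 7 ∧ (p = 16 ∧ q = 13))
      ∨ (j = 2 ∧ n = 5 ∧ (p = 10 ∧ q = 3))))
    625
    0x16eb8311478018556a16b10310618016c45a114503113c0011461a114f8011468011599a11509a114503113c0011461a11458e114503114580114584115000115004108600106b0e106b0416b10316ba0016ba04120d0311450011450416b10310620010620411338e16ce03113380113384120d030aec800aec84121800120f00187a5218684a11518e16f50311518011518412170011fc0011fc0e11fc0416eb8311480011480411510e16f50311510011510412060e1855031206001206040a4c0e1707030a4c000a4c041d1d0316b10016b10417c50e17070317c50017c50417c48e17068317c48017c48416eb0e10888316eb0016eb0410920e10888310920010920416328e1d4a0316328016328416ce03107f00107f0416c40e10750316d7001d304a16c40016c404116d0e170783116d00116d041d4a0e1e09031d4a001d4a0416c48e1de50316c48016c4841dff8e1d4b031dff801dff8417a68e16f20317a68017a68416ba8e16b10316ba8016ba8411fd031856001eb852185500185504155a830fad000fad0411638e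17078311638011638416eb8317a00017a00417a98e16f50317a98017a984185e8e185503185e80185e8410990e109883109900109904155a830fb6800fb68416e88e10900316e88016e88416e203113e80113e8411620e17060311620011620416e20317970017970410a40e109a8310a40010a40416e20317968017968412160011e90018785218424a178d8e1ea503178d80178d8418780e1ee40318780018780417d68e1ef70317d68017d684188b0e1ef703188b00188b04187a0e1ee603187a00187a0417c58e1ee60317c58017c58417bc0e17078317bc0017bc041d4b0e23ae031d4b001d4b0416fc8e109a8316fc8016fc84155a83160580160584162a0e157583162a00162a041df08e2508031df0801df084184203184b80184b8418828e122a031882801882840a4c8e1707830a4c800a4c8425520317d90017d90418728e252e031872801872841ea50e2508031ea5001ea5041ef903188d00188d041ef90317d88017d8841ecb0e252e031ecb001ecb04251b031eb8001eb80425480e1ef90325480025480425248e1ecc032524802524841d63001d50001d62001d4f001d4e001bc7001bb4001ba1001bc6001bb3001ba00011d6001045000f33000f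20000f0d000f0c000d86000d98000d850025520e25510e25508e25500e254f8e25488e249b8e249b0e24920e24918e1ef90e1ef80e1ef70e1e430e1e428e1e398e1e390e1e300e1e2f0e1e268e1e260e1e258e1e090e1d90001d900e1d8f001d8f0e1d7d001d7d0e1d7c001d7c0e1d6a001d69001d690e1c8e001be3001be2001be20e1be1001be10e1be0001be00e1bcf001bcf0e1bce001bce0e1bcd001bcd0e18a08e18a00e18970e18968e188c8e188b8e18708e186f8e186e8e17ec0e17eb8e17e28e17e20e17d80e17d78e17d70e17ce8e17ce0e17cd8e17cd0e17c30e17ba0e17b98e17b08e17b00e17a70e17060e17058e16fc0e16fb8e16f28e16f20e16de8e16dd8e163d0e163c8e16338e16330e16320e16290e16288e12150012150e116b0e116a8e11618e11610e10840e0fe7000fe48e0fdb0e0fda8e0fda0e0fd98e0fd3000fd00e0f3c000f3c0e0f3b000f3b0e0f3a000f3a0e0f27000f270e0db3000db30e0da1000da10e0da0000da00e0bd18e0bd10e0bc80e0bc78e0b1d0e0b1c8e0b138e0b130e0af70e0aed0e0a428e0a420e0a418e0a388e0a380e0a378e0a370e0a2e0e0a2d8e098d8e098d0e09840e09838e09830e09828e09798e0979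0e255207255107255087255007254f87254887249b87249b0724920724918723ae071ef9871ef9071ef8871ef8071ef7071ef6871ee5871ee3871ed5871ec2871eaf871eae871e9b871e43071e42871e42071e39871e39071e38871e30071e2f071e26871e26071e25871e09071d900f1d8f0f1d7d0f1d7c0f1d6a0f1d690f1d55871d54871d41871d40871d30871d2f871d1c871c8e0f1be30f1be20f1be10f1be00f1bcf0f1bce0f1bcd0f18a08718a007189e87189e07189707189687188c87188b87187087186f87186e8717ec0717eb8717ea0717e98717e28717e20717e08717e00717d80717d78717d70717cf8717cf0717ce8717ce0717cd8717cd0717c30717ba0717b98717b08717b00717a70717060717058716fc0716fb8716f28716f20716de8716dd87163d07163c87163387163307163207162907162887122187122087121f8712150f120f87120c8711fc8711e987116b07116a8711618711610710a58710a48710a387109807109287109187109087108f87108e8710840f107f87107e87106b871058870fe70f0fe4870fe3870fdb070fda870fda070fd9870fd30f0fd0070f3c0f0f3b0f0f3a0f0f270f0f13870f01870db30f0da10f0da00f0bd1870bd1070bc8070bc7870bab070baa870b1d070b1c870b13870b13070af7870af7070af6870af6070aed070aec070ae3870ae2870a43070a42870a42070a41870a3f870a38870a38070a37870a37070a36070a2f070a2e070a2d87098d87098d07098b07098407098387098307098287098187097987097907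 = true := by
  decide +kernel

theorem vD3a (hf : Rule f) {k c n : ℕ} (H : LI f k c n) (hF2 : F2 f k c n) (hF6 : F6 f k c n)
    (g1 : ∀ {M R x y : ℕ}, M = 6 * k + 0 → R + 2 = c → x + 7 = 2 * n → y + 14 = 2 * n → f M R x y)
    (g2 : ∀ {M R x y : ℕ}, M = 6 * k + 0 → R + 2 = c → x + 5 = 2 * n → y + 12 = 2 * n → ¬ f M R x y)
    (g3 : ∀ {M R x y : ℕ}, M = 6 * k + 0 → R = c → x + 3 = 2 * n → y + 10 = 2 * n → f M R x y) : False := by
  have hk := H.T.hk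
  have hc := H.T.hc
  have h4 := H.T.h4
  have hb := H.T.hb
  have hN := H.T.hN2
  obtain ⟨a0, ha0⟩ : ∃ z, z + 2 = 6 * k := ⟨6 * k - 2, by omega⟩
  obtain ⟨b0, hb0⟩ : ∃ z, z + 7 = c := ⟨c - 7, by omega⟩
  obtain ⟨x0, hx0⟩ : ∃ z, z + 15 = 2 * n := ⟨2 * n - 15, by omega⟩
  obtain ⟨y0, hy0⟩ : ∃ z, z + 15 = 2 * n := ⟨2 * n - 15, by omega⟩
  refine check_sound hf (a0 := a0) (b0 := b0) (x0 := x0) (y0 := y0) vD3a_chk
    ⟨fun _ => by omega, fun h => absurd h (by decide), fun h => absurd h (by decide), by omega, by omega,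
      by omega, by omega⟩ ?_ ?_
  · intro j m p q hr h
    obtain ⟨-, -, -, -, hp1, hp2, hq1, hq2⟩ := hr
    replace h := of_decide_eq_true h
    rcases h with h | h | h | h | h | h | h | h
    · obtain ⟨rfl, rfl, h⟩ := h
      exact (WrapC.v0 H.a2 (by omega) (by omega) (by omega) (by omega) (by omega) (by omega) (by omega)).mpr (by omega)
    · obtain ⟨rfl, rfl, h⟩ := h
      exact (WrapC.v2 H.a2 (by omega) (by omega) (by omega) (by omega) (by omega) (by omega) (by omega)).mpr (by omega)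
    · obtain ⟨rfl, rfl, h⟩ := h
      exact (WrapC.v2 H.a0 (by omega) (by omega) (by omega) (by omega) (by omega) (by omega) (by omega)).mpr (by omega)
    · obtain ⟨rfl, rfl, h⟩ := h
      exact (WrapC.v0 H.a0 (by omega) (by omega) (by omega) (by omega) (by omega) (by omega) (by omega)).mpr (by omega)
    · obtain ⟨rfl, rfl, h⟩ := h
      exact (WrapC.v3 H.a0 (by omega) (by omega) (by omega) (by omega) (by omega) (by omega) (by omega) (by omega)).mpr (by omega)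
    · obtain ⟨rfl, rfl, h⟩ := h
      exact (WrapC.v1 H.a2 (by omega) (by omega) (by omega) (by omega) (by omega) (by omega) (by omega) (by omega)).mpr (by omega)
    · obtain ⟨rfl, rfl, h⟩ := h
      exact g1 (by omega) (by omega) (by omega) (by omega)
    · obtain ⟨rfl, rfl, h⟩ := h
      exact g3 (by omega) (by omega) (by omega) (by omega)
  · intro j m p q hr h
    obtain ⟨-, -, -, -, hp1, hp2, hq1, hq2⟩ := hr
    replace h := of_decide_eq_true h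
    rcases h with h | h | h | h | h | h | h | h | h | h | h | h | h | h | h | h | h | h | h
    · obtain ⟨rfl, rfl, h⟩ := h
      exact H.eo _ _ _ _ (by omega) (by omega) (by omega) (by omega) (by omega) (by omega) (by omega)
    · obtain ⟨rfl, rfl, h⟩ := h
      exact H.lw _ _ _ _ (by omega) (by omega) (by omega) (by omega) (by omega) (by omega)
    · obtain ⟨rfl, rfl, h⟩ := h
      exact zrx hf H (p := 2) (by omega) (by omega) (by omega) (by omega) (by omega) (by omega) (by omega) (by omega) (by omega)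
    · obtain ⟨rfl, rfl, h⟩ := h
      exact H.lw _ _ _ _ (by omega) (by omega) (by omega) (by omega) (by omega) (by omega)
    · obtain ⟨rfl, rfl, h⟩ := h
      exact H.lw _ _ _ _ (by omega) (by omega) (by omega) (by omega) (by omega) (by omega)
    · obtain ⟨rfl, rfl, h⟩ := h
      exact H.eo _ _ _ _ (by omega) (by omega) (by omega) (by omega) (by omega) (by omega) (by omega)
    · obtain ⟨rfl, rfl, h⟩ := h
      exact NHT.rIn hf H.T (t := 3) (p := 1) (j := 3) (by omega) (by omega) (by omega) (by omega) (by omega) (by omega) (by omega) (by omega)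
    · obtain ⟨rfl, rfl, h⟩ := h
      exact NHT.rIn hf H.T (t := 3) (p := 0) (j := 3) (by omega) (by omega) (by omega) (by omega) (by omega) (by omega) (by omega) (by omega)
    · obtain ⟨rfl, rfl, h⟩ := h
      exact H.eo _ _ _ _ (by omega) (by omega) (by omega) (by omega) (by omega) (by omega) (by omega)
    · obtain ⟨rfl, rfl, h⟩ := h
      exact H.lw _ _ _ _ (by omega) (by omega) (by omega) (by omega) (by omega) (by omega)
    · obtain ⟨rfl, rfl, h⟩ := h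
      exact NHT.p0i hf H.T (j := 3) (by omega) (by omega) (by omega) (by omega) (by omega) (by omega)
    · obtain ⟨rfl, rfl, h⟩ := h
      exact NW.rm1i hf H.T (p := 0) (j := 4) (by omega) (by omega) (by omega) (by omega) (by omega) (by omega) (by omega)
    · obtain ⟨rfl, rfl, h⟩ := h
      exact NW.rm1i hf H.T (p := 1) (j := 3) (by omega) (by omega) (by omega) (by omega) (by omega) (by omega) (by omega)
    · obtain ⟨rfl, rfl, h⟩ := h
      exact hF2 _ _ _ _ (by omega) (by omega) (by omega) (by omega) (by omega) (by omega)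
    · obtain ⟨rfl, rfl, h⟩ := h
      exact NHT.p0i hf H.T (j := 4) (by omega) (by omega) (by omega) (by omega) (by omega) (by omega)
    · obtain ⟨rfl, rfl, h⟩ := h
      exact NHT.pmi hf H.T (j := 3) (by omega) (by omega) (by omega) (by omega) (by omega) (by omega)
    · obtain ⟨rfl, rfl, h⟩ := h
      exact NHT.pm hf H.T (j := 1) (by omega) (by omega) (by omega) (by omega) (by omega) (by omega)
    · obtain ⟨rfl, rfl, h⟩ := h
      exact NHT.pOut hf H.T (t := 4) (j := 2) (by omega) (by omega) (by omega) (by omega) (by omega) (by omega) (by omega)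
    · obtain ⟨rfl, rfl, h⟩ := h
      exact g2 (by omega) (by omega) (by omega) (by omega)

theorem vD3b_chk : check 12 9 22 22 0 1 1 1 2
    (fun j n p q => decide ((j = 4 ∧ n = 5 ∧ ((p = 11 ∧ q = 10) ∨ (((p = 13) ∨ (p = 15) ∨ (p = 17)) ∧ ((q = 10) ∨ (q = 12)))))
      ∨ (j = 4 ∧ n = 3 ∧ ((p = 8 ∧ ((q = 3) ∨ (q = 5) ∨ (q = 7))) ∨ (p = 10 ∧ ((q = 3) ∨ (q = 5) ∨ (q = 7) ∨ (q = 9)))))
      ∨ (j = 8 ∧ n = 5 ∧ (((p = 11) ∨ (p = 13) ∨ (p = 15) ∨ (p = 17) ∨ (p = 19)) ∧ q = 10))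
      ∨ (j = 2 ∧ n = 3 ∧ ((((p = 7) ∨ (p = 9)) ∧ q = 6) ∨ (p = 11 ∧ ((q = 8) ∨ (q = 10))) ∨ (p = 13 ∧ q = 10)))
      ∨ (j = 6 ∧ n = 3 ∧ (((p = 9) ∨ (p = 11)) ∧ ((q = 6) ∨ (q = 8))))
      ∨ (j = 12 ∧ n = 5 ∧ (p = 11 ∧ ((q = 8) ∨ (q = 10))))
      ∨ (j = 2 ∧ n = 1 ∧ (((p = 6) ∨ (p = 8)) ∧ q = 3))
      ∨ (j = 10 ∧ n = 4 ∧ (p = 8 ∧ q = 8))
      ∨ (j = 10 ∧ n = 3 ∧ (p = 9 ∧ q = 8))
      ∨ (j = 8 ∧ n = 3 ∧ (p = 10 ∧ q = 7))
      ∨ (j = 6 ∧ n = 4 ∧ (p = 8 ∧ q = 8))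
      ∨ (j = 10 ∧ n = 5 ∧ (p = 12 ∧ q = 9))
      ∨ (j = 8 ∧ n = 4 ∧ (p = 9 ∧ q = 9))
      ∨ (j = 6 ∧ n = 5 ∧ (p = 20 ∧ q = 9))
      ∨ (j = 4 ∧ n = 4 ∧ (p = 9 ∧ q = 9))
      ∨ (j = 2 ∧ n = 4 ∧ (p = 10 ∧ q = 10))
      ∨ (j = 2 ∧ n = 5 ∧ (p = 8 ∧ q = 1))))
    (fun j n p q => decide ((j = 3 ∧ n = 6 ∧ ((10 ≤ p ∧ p ≤ 11 ∧ 6 ≤ q ∧ q ≤ 7) ∨ (p = 14 ∧ ((q = 10) ∨ (q = 12))) ∨ (p = 15 ∧ q = 10) ∨ (16 ≤ p ∧ p ≤ 17 ∧ 10 ≤ q ∧ q ≤ 12)))
      ∨ (j = 7 ∧ n = 6 ∧ (((p = 13) ∨ (p = 15) ∨ (p = 17) ∨ (p = 19)) ∧ 8 ≤ q ∧ q ≤ 9))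
      ∨ (j = 6 ∧ n = 6 ∧ (((p = 13) ∨ (p = 15) ∨ (p = 17) ∨ (p = 19)) ∧ 8 ≤ q ∧ q ≤ 9))
      ∨ (j = 1 ∧ n = 6 ∧ ((8 ≤ p ∧ p ≤ 9 ∧ q = 8) ∨ (((p = 10) ∨ (p = 13)) ∧ 9 ≤ q ∧ q ≤ 10) ∨ (11 ≤ p ∧ p ≤ 12 ∧ q = 9)))
      ∨ (j = 3 ∧ n = 4 ∧ ((p = 8 ∧ 2 ≤ q ∧ q ≤ 3) ∨ (p = 9 ∧ ((q = 2) ∨ (4 ≤ q ∧ q ≤ 5))) ∨ (p = 10 ∧ 4 ≤ q ∧ q ≤ 5)))
      ∨ (j = 1 ∧ n = 5 ∧ ((p = 8 ∧ ((5 ≤ q ∧ q ≤ 6) ∨ (q = 8))) ∨ (p = 9 ∧ ((5 ≤ q ∧ q ≤ 6) ∨ (8 ≤ q ∧ q ≤ 9)))))
      ∨ (j = 3 ∧ n = 7 ∧ ((p = 12 ∧ 10 ≤ q ∧ q ≤ 11) ∨ (((p = 13) ∨ (p = 15)) ∧ q = 10) ∨ (p = 16 ∧ q = 11) ∨ (p = 17 ∧ ((q = 10) ∨ (q = 12)))))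
      ∨ (j = 3 ∧ n = 5 ∧ ((p = 8 ∧ ((q = 3) ∨ (q = 5) ∨ (q = 7))) ∨ (p = 10 ∧ q = 6) ∨ (p = 11 ∧ ((q = 6) ∨ (q = 8))) ∨ (p = 12 ∧ q = 8)))
      ∨ (j = 1 ∧ n = 7 ∧ ((((p = 10) ∨ (p = 13)) ∧ 9 ≤ q ∧ q ≤ 10) ∨ (11 ≤ p ∧ p ≤ 12 ∧ q = 9)))
      ∨ (j = 2 ∧ n = 6 ∧ ((p = 14 ∧ q = 10) ∨ (16 ≤ p ∧ p ≤ 17 ∧ 10 ≤ q ∧ q ≤ 11)))
      ∨ (j = 2 ∧ n = 4 ∧ ((p = 8 ∧ q = 2) ∨ (p = 9 ∧ 2 ≤ q ∧ q ≤ 5)))
      ∨ (j = 7 ∧ n = 5 ∧ (((p = 13) ∨ (p = 15) ∨ (p = 17) ∨ (p = 19)) ∧ q = 8))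
      ∨ (j = 1 ∧ n = 4 ∧ (8 ≤ p ∧ p ≤ 9 ∧ 5 ≤ q ∧ q ≤ 6))
      ∨ (j = 5 ∧ n = 7 ∧ (16 ≤ p ∧ p ≤ 17 ∧ q = 13))
      ∨ (j = 3 ∧ n = 5 ∧ (p = 11 ∧ q = 7))
      ∨ (j = 5 ∧ n = 5 ∧ (p = 11 ∧ q = 8))
      ∨ (j = 5 ∧ n = 5 ∧ (p = 11 ∧ q = 9))
      ∨ (j = 3 ∧ n = 7 ∧ (p = 17 ∧ q = 11))
      ∨ (j = 5 ∧ n = 7 ∧ (p = 17 ∧ q = 12))
      ∨ (j = 4 ∧ n = 6 ∧ (p = 11 ∧ q = 7))
      ∨ (j = 4 ∧ n = 7 ∧ (p = 17 ∧ q = 12))
      ∨ (j = 2 ∧ n = 7 ∧ (p = 17 ∧ q = 10))))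
    576
    0x1e658315ee001e7bda1ea9031719801816b21718801815b21717801717811ea9031719801816b21718801815b20e95800e9584161980160f001ea6d21e91ca16188015f90015f90e15f90416230e1ea4831623001623041e9a0e1ea4831e9a001e9a041ea68e2fb6031ea6801ea6842fc08527330038434a2733012faa802faa842733032fb5802fb5841e658e26fe031e65801e65841db28e2732831db2801db2841e7b8e1604831e918027144a1e7b801e7b8438238e41a38338238038238438590e41e38338590038590441f983386f00386f04420f833885003885041ea50e1ea4831ea5001ea50427328e2830832732802732841eb08e2830831eb0801eb08428060e27140328060028060415260e1cb6831526001526041ea90317190017190420a38317238017238420a3830ea1800ea18418200e20b8831820001820040f9e0e20b8830f9e000f9e0418360e20ce831836001836041edf83175a80175a841edf83174f80174f840fa90e20b8830fa9000fa90417448e1ec98317448017448417398e1ec9831739801739840eb70e20b8830eb7000eb70420b88e29510320b88020b88431de05295b8031e99a29671a1fdd001fdd0431de0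5295b8031e99a29671a20cf0020cf041e920e2fac831e92001e92042fa10e40b0032fa1002fa1042fa08e40b0032fa0802fa08440ba0e51c98340ba0040ba0462c28351be0051be0417440e1ec90317440017440417390e1ec90317390017390417258e20a58317258017258418178e20a58318178018178416328e1eb4031632801632841fc60e1ec9031fc6001fc6041fc68e1ec9831fc6801fc6841fb10e1ebf031fb1001fb1041fa60e1eb4031fa6001fa60427338e2fc1832733802733841ea60e1624031ea6001ea60415268e1cb6831526801526841c97031d7e001d7e041c97031d89001d89041fb20e1ec0031fb2001fb20420a48e29328320a48020a48431e9832951002951041fb28e2932831fb2801fb284493e80493d80363e80274e80273880274d80273780274c80273680273580254600253000251a00250400252f0025190025030015cd00144e80144d80143780142080141f80121b00121a006b50006b4f005a568059380058510049a000498a00497400495e0e49480049480e483f8047578041cd8e41cd0e40db0e394b8e394b0e38a680373000365f00365e0036490036490e3648002fc18e2fc10e29670e27830027830e27820027820e2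76d00276d0e276c00276c0e27570027570e27560027560e27400027400e26378025508025508e254f80254f8e254e80254e8e254d80254d8e25398025398e25388025388e25378025378e20e50e20e48e20e40e20d98e20b80e20ad8e20ad0e1ff30e1ff28e1ff20e1fe80e1fe78e1fe70e1ec80e1ebd0e1eb10e1e9b8e1e9a8e1e998e1dbe8e1dbe0e1db38e1db30e1db20e1da78e1da70e18620e17708e17700e17658e17650e16168016168e153f0015318e15310e15308e15300e15250e146e00146e0e14580014580e14570014570e14400014400e142a00142a0e124f80124f8e12398012398e0fb40e0fb38e0fa88e0f9d8e0f928e0ec20e0ec18e0eb68e0eab8e0ea08e0e950e0da30e0da20e0da18e0d970e0d968e0cb00e0caf8e0ca50e0ca48e6b500f6b4f0f5a568f5a358759380f58510f49a00f498a0f49740f495e0f49480f494787483f8f47578f420f87420f0741f98741f90741e38741e30741cd8741cd07411d0741070740f10740db07398d87398d07397787397707396187396107394b87394b0738a68f389b87388587386f87384287382f87382d8737300f365f0f365e0f36490f36480f31e98731e90731de872fc1872fc107296787296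70729668729508729278728308727830f27820f276d0f276c0f27570f27560f27400f273f87273e87272a8727288727278727138726fd8726378f25508f254f8f254e8f254d8f25398f25388f25378f20e50720e48720e40720d98720ce0720b80720ad8720ad071ff3071ff2871ff2071fe8071fe7871fe7071fdc071fd2071fd1071fae871fae071fa3871fa3071ec8071ebd071ebc871ebc071eb1071e9b871e9a871e99871dbe871dbe071db3871db3071db2071da7871da707186207184c87183687182387182187180b87180a87177087177007176587176507174f07165287163d87163c87163b8716268716258716248716238716228716168f160f8715f98715e387153f0f153187153107153087153007152507146e0f14580f14570f14400f142a0f142987141487124f8f12398f0fb4070fb3870fa8870f9d870f93070f92870ec2070ec1870eb6870eab870ea1070ea0870e95070e8a070da3870da3070da2070da1870d98070d97070d96870cb0070caf870ca5070ca487 = true := by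
  decide +kernel

theorem vD3b (hf : Rule f) {k c n : ℕ} (H : LI f k c n) (hF2 : F2 f k c n) (hF6 : F6 f k c n)
    (g1 : ∀ {M R x y : ℕ}, M = 6 * k + 0 → R + 2 = c → x + 7 = 2 * n → y + 14 = 2 * n → f M R x y)
    (g2 : ∀ {M R x y : ℕ}, M = 6 * k + 0 → R = c → x = 2 * n + 2 → y + 5 = 2 * n → ¬ f M R x y) : False := by
  have hk := H.T.hk
  have hc := H.T.hc
  have h4 := H.T.h4
  have hb := H.T.hb
  have hN := H.T.hN2
  obtain ⟨a0, ha0⟩ : ∃ z, z + 2 = 6 * k := ⟨6 * k - 2, by omega⟩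
  obtain ⟨b0, hb0⟩ : ∃ z, z + 7 = c := ⟨c - 7, by omega⟩
  obtain ⟨x0, hx0⟩ : ∃ z, z + 15 = 2 * n := ⟨2 * n - 15, by omega⟩
  obtain ⟨y0, hy0⟩ : ∃ z, z + 15 = 2 * n := ⟨2 * n - 15, by omega⟩
  refine check_sound hf (a0 := a0) (b0 := b0) (x0 := x0) (y0 := y0) vD3b_chk
    ⟨fun _ => by omega, fun h => absurd h (by decide), fun h => absurd h (by decide), by omega, by omega,
      by omega, by omega⟩ ?_ ?_
  · intro j m p q hr h
    obtain ⟨-, -, -, -, hp1, hp2, hq1, hq2⟩ := hr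
    replace h := of_decide_eq_true h
    rcases h with h | h | h | h | h | h | h | h | h | h | h | h | h | h | h | h | h
    · obtain ⟨rfl, rfl, h⟩ := h
      exact (WrapC.v2 H.a2 (by omega) (by omega) (by omega) (by omega) (by omega) (by omega) (by omega)).mpr (by omega)
    · obtain ⟨rfl, rfl, h⟩ := h
      exact (WrapC.v0 H.a2 (by omega) (by omega) (by omega) (by omega) (by omega) (by omega) (by omega)).mpr (by omega)
    · obtain ⟨rfl, rfl, h⟩ := h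
      exact (WrapC.v2 H.a6 (by omega) (by omega) (by omega) (by omega) (by omega) (by omega) (by omega)).mpr (by omega)
    · obtain ⟨rfl, rfl, h⟩ := h
      exact (WrapC.v2 H.a0 (by omega) (by omega) (by omega) (by omega) (by omega) (by omega) (by omega)).mpr (by omega)
    · obtain ⟨rfl, rfl, h⟩ := h
      exact (WrapC.v2 H.b4 (by omega) (by omega) (by omega) (by omega) (by omega) (by omega) (by omega)).mpr (by omega)
    · obtain ⟨rfl, rfl, h⟩ := h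
      exact (NW.w2v H.b10 (by omega) (by omega) (by omega) (by omega) (by omega) (by omega) (by omega)).mpr (by omega)
    · obtain ⟨rfl, rfl, h⟩ := h
      exact (WrapC.v0 H.a0 (by omega) (by omega) (by omega) (by omega) (by omega) (by omega) (by omega)).mpr (by omega)
    · obtain ⟨rfl, rfl, h⟩ := h
      exact (NW.w3v H.b8 (by omega) (by omega) (by omega) (by omega) (by omega) (by omega) (by omega) (by omega)).mpr (by omega)
    · obtain ⟨rfl, rfl, h⟩ := h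
      exact (NW.w2v H.b8 (by omega) (by omega) (by omega) (by omega) (by omega) (by omega) (by omega)).mpr (by omega)
    · obtain ⟨rfl, rfl, h⟩ := h
      exact (WrapC.v4 H.b6 (by omega) (by omega) (by omega) (by omega) (by omega) (by omega) (by omega)).mpr (by omega)
    · obtain ⟨rfl, rfl, h⟩ := h
      exact (WrapC.v3 H.b4 (by omega) (by omega) (by omega) (by omega) (by omega) (by omega) (by omega) (by omega)).mpr (by omega)
    · obtain ⟨rfl, rfl, h⟩ := h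
      exact (NW.w0v H.a8 (by omega) (by omega) (by omega) (by omega) (by omega) (by omega) (by omega)).mpr (by omega)
    · obtain ⟨rfl, rfl, h⟩ := h
      exact (WrapC.v1 H.a6 (by omega) (by omega) (by omega) (by omega) (by omega) (by omega) (by omega) (by omega)).mpr (by omega)
    · obtain ⟨rfl, rfl, h⟩ := h
      exact (WrapC.v0 H.a4 (by omega) (by omega) (by omega) (by omega) (by omega) (by omega) (by omega)).mpr (by omega)
    · obtain ⟨rfl, rfl, h⟩ := h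
      exact (WrapC.v1 H.a2 (by omega) (by omega) (by omega) (by omega) (by omega) (by omega) (by omega) (by omega)).mpr (by omega)
    · obtain ⟨rfl, rfl, h⟩ := h
      exact (WrapC.v3 H.a0 (by omega) (by omega) (by omega) (by omega) (by omega) (by omega) (by omega) (by omega)).mpr (by omega)
    · obtain ⟨rfl, rfl, h⟩ := h
      exact g1 (by omega) (by omega) (by omega) (by omega)
  · intro j m p q hr h
    obtain ⟨-, -, -, -, hp1, hp2, hq1, hq2⟩ := hr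
    replace h := of_decide_eq_true h
    rcases h with h | h | h | h | h | h | h | h | h | h | h | h | h | h | h | h | h | h | h | h | h | h
    · obtain ⟨rfl, rfl, h⟩ := h
      exact H.eo _ _ _ _ (by omega) (by omega) (by omega) (by omega) (by omega) (by omega) (by omega)
    · obtain ⟨rfl, rfl, h⟩ := h
      exact NW.rm1i hf H.T (p := 1) (j := 2) (by omega) (by omega) (by omega) (by omega) (by omega) (by omega) (by omega)
    · obtain ⟨rfl, rfl, h⟩ := h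
      exact NW.rm1i hf H.T (p := 0) (j := 2) (by omega) (by omega) (by omega) (by omega) (by omega) (by omega) (by omega)
    · obtain ⟨rfl, rfl, h⟩ := h
      exact H.lw _ _ _ _ (by omega) (by omega) (by omega) (by omega) (by omega) (by omega)
    · obtain ⟨rfl, rfl, h⟩ := h
      exact NHT.rIn hf H.T (t := 3) (p := 1) (j := 3) (by omega) (by omega) (by omega) (by omega) (by omega) (by omega) (by omega) (by omega)
    · obtain ⟨rfl, rfl, h⟩ := h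
      exact H.lw _ _ _ _ (by omega) (by omega) (by omega) (by omega) (by omega) (by omega)
    · obtain ⟨rfl, rfl, h⟩ := h
      exact H.eo _ _ _ _ (by omega) (by omega) (by omega) (by omega) (by omega) (by omega) (by omega)
    · obtain ⟨rfl, rfl, h⟩ := h
      exact H.eo _ _ _ _ (by omega) (by omega) (by omega) (by omega) (by omega) (by omega) (by omega)
    · obtain ⟨rfl, rfl, h⟩ := h
      exact H.lw _ _ _ _ (by omega) (by omega) (by omega) (by omega) (by omega) (by omega)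
    · obtain ⟨rfl, rfl, h⟩ := h
      exact NW.rm1 hf H.T (p := 0) (j := 3) (by omega) (by omega) (by omega) (by omega) (by omega) (by omega) (by omega)
    · obtain ⟨rfl, rfl, h⟩ := h
      exact NHT.rIn hf H.T (t := 3) (p := 0) (j := 3) (by omega) (by omega) (by omega) (by omega) (by omega) (by omega) (by omega) (by omega)
    · obtain ⟨rfl, rfl, h⟩ := h
      exact NHT.pmi hf H.T (j := 1) (by omega) (by omega) (by omega) (by omega) (by omega) (by omega)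
    · obtain ⟨rfl, rfl, h⟩ := h
      exact H.lw _ _ _ _ (by omega) (by omega) (by omega) (by omega) (by omega) (by omega)
    · obtain ⟨rfl, rfl, h⟩ := h
      exact NHT.pOut hf H.T (t := 4) (j := 2) (by omega) (by omega) (by omega) (by omega) (by omega) (by omega) (by omega)
    · obtain ⟨rfl, rfl, h⟩ := h
      exact NHT.pmi hf H.T (j := 3) (by omega) (by omega) (by omega) (by omega) (by omega) (by omega)
    · obtain ⟨rfl, rfl, h⟩ := h
      exact NHT.pmi hf H.T (j := 2) (by omega) (by omega) (by omega) (by omega) (by omega) (by omega)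
    · obtain ⟨rfl, rfl, h⟩ := h
      exact NHT.pm hf H.T (j := 1) (by omega) (by omega) (by omega) (by omega) (by omega) (by omega)
    · obtain ⟨rfl, rfl, h⟩ := h
      exact NHT.p0i hf H.T (j := 4) (by omega) (by omega) (by omega) (by omega) (by omega) (by omega)
    · obtain ⟨rfl, rfl, h⟩ := h
      exact NHT.p0i hf H.T (j := 3) (by omega) (by omega) (by omega) (by omega) (by omega) (by omega)
    · obtain ⟨rfl, rfl, h⟩ := h
      exact zrx hf H (p := 2) (by omega) (by omega) (by omega) (by omega) (by omega) (by omega) (by omega) (by omega) (by omega)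
    · obtain ⟨rfl, rfl, h⟩ := h
      exact hF2 _ _ _ _ (by omega) (by omega) (by omega) (by omega) (by omega) (by omega)
    · obtain ⟨rfl, rfl, h⟩ := h
      exact g2 (by omega) (by omega) (by omega) (by omega)

end Pool.Agent.SNT.LRI
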