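import Pool.Agent.SNT.LRDef

set_option autoImplicit false
set_option linter.unusedVariables false
set_option synthInstance.maxSize 100000
set_option synthInstance.maxHeartbeats 4000000

/-! Windows near the diagonal. -/

namespace Pool.Agent.SNT.LRI

open Pool.Agent.SNT Pool.Agent.SNT.Loc Pool.Agent.SNT.LW Pool.Agent.SNT.NHZ

variable {f : ℕ → ℕ → ℕ → ℕ → Prop}

theorem vD3c_1_chk : check 12 11 23 23 0 1 1 1 2
    (fun j n p q => decide ((j = 2 ∧ n = 3 ∧ ((p = 12 ∧ ((q = 3) ∨ (q = 5) ∨ (q = 7) ∨ (q = 9) ∨ (q = 11))) ∨ (p = 14 ∧ ((q = 9) ∨ (q = 11))) ∨ (((p = 16) ∨ (p = 18)) ∧ ((q = 11) ∨ (q = 13)))))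
      ∨ (j = 4 ∧ n = 3 ∧ ((p = 11 ∧ q = 10) ∨ (((p = 13) ∨ (p = 17)) ∧ ((q = 10) ∨ (q = 12))) ∨ (p = 15 ∧ ((q = 10) ∨ (q = 12) ∨ (q = 14)))))
      ∨ (j = 6 ∧ n = 1 ∧ ((((p = 9) ∨ (p = 13)) ∧ ((q = 6) ∨ (q = 8))) ∨ (p = 11 ∧ ((q = 6) ∨ (q = 8) ∨ (q = 10)))))
      ∨ (j = 4 ∧ n = 1 ∧ (((p = 8) ∨ (p = 10)) ∧ ((q = 3) ∨ (q = 5) ∨ (q = 7))))
      ∨ (j = 2 ∧ n = 1 ∧ ((p = 7 ∧ q = 6) ∨ (((p = 9) ∨ (p = 11)) ∧ ((q = 6) ∨ (q = 8)))))
      ∨ (j = 2 ∧ n = 5 ∧ (((p = 15) ∨ (p = 17) ∨ (p = 19)) ∧ q = 14))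
      ∨ (j = 6 ∧ n = 2 ∧ ((p = 8 ∧ q = 8) ∨ (p = 10 ∧ q = 10) ∨ (p = 14 ∧ q = 14)))
      ∨ (j = 8 ∧ n = 3 ∧ ((p = 11 ∧ q = 10) ∨ (p = 13 ∧ ((q = 10) ∨ (q = 12)))))
      ∨ (j = 12 ∧ n = 3 ∧ (p = 11 ∧ ((q = 8) ∨ (q = 10))))
      ∨ (j = 4 ∧ n = 2 ∧ ((p = 9 ∧ q = 9) ∨ (p = 13 ∧ q = 13)))
      ∨ (j = 2 ∧ n = 4 ∧ (p = 13 ∧ q = 13))
      ∨ (j = 10 ∧ n = 1 ∧ (p = 9 ∧ q = 8))
      ∨ (j = 8 ∧ n = 1 ∧ (p = 10 ∧ q = 7))
      ∨ (j = 10 ∧ n = 3 ∧ (p = 12 ∧ q = 9))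
      ∨ (j = 8 ∧ n = 4 ∧ (p = 14 ∧ q = 14))
      ∨ (j = 8 ∧ n = 2 ∧ (p = 9 ∧ q = 9))
      ∨ (j = 4 ∧ n = 4 ∧ (p = 14 ∧ q = 14))
      ∨ (j = 2 ∧ n = 2 ∧ (p = 10 ∧ q = 10))
      ∨ (j = 2 ∧ n = 3 ∧ (p = 8 ∧ q = 1))
      ∨ (j = 2 ∧ n = 9 ∧ (p = 21 ∧ q = 14))
      ∨ (j = 6 ∧ n = 3 ∧ (p = 12 ∧ q = 5))))
    (fun j n p q => decide ((j = 1 ∧ n = 4 ∧ ((p = 8 ∧ q = 8) ∨ (p = 9 ∧ 7 ≤ q ∧ q ≤ 8) ∨ (p = 10 ∧ 7 ≤ q ∧ q ≤ 10) ∨ (p = 11 ∧ 8 ≤ q ∧ q ≤ 11) ∨ (p = 12 ∧ ((q = 8) ∨ (q = 11))) ∨ (15 ≤ p ∧ p ≤ 16 ∧ q = 12)))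
      ∨ (j = 1 ∧ n = 5 ∧ ((p = 9 ∧ 7 ≤ q ∧ q ≤ 8) ∨ (p = 10 ∧ ((q = 7) ∨ (q = 9))) ∨ (p = 11 ∧ 8 ≤ q ∧ q ≤ 11) ∨ (p = 12 ∧ ((q = 8) ∨ (11 ≤ q ∧ q ≤ 12))) ∨ (p = 13 ∧ q = 13) ∨ (15 ≤ p ∧ p ≤ 16 ∧ q = 12)))
      ∨ (j = 1 ∧ n = 6 ∧ ((p = 10 ∧ q = 9) ∨ (p = 11 ∧ ((q = 9) ∨ (q = 11))) ∨ (p = 12 ∧ ((q = 9) ∨ (11 ≤ q ∧ q ≤ 12))) ∨ (p = 13 ∧ ((q = 11) ∨ (q = 13))) ∨ (p = 14 ∧ ((q = 11) ∨ (13 ≤ q ∧ q ≤ 14))) ∨ (p = 15 ∧ q = 11)))
      ∨ (j = 3 ∧ n = 5 ∧ ((p = 10 ∧ q = 9) ∨ (p = 11 ∧ q = 8) ∨ (((p = 13) ∨ (p = 15)) ∧ q = 10) ∨ (p = 14 ∧ ((q = 9) ∨ (q = 12))) ∨ (p = 16 ∧ q = 11) ∨ (p = 17 ∧ q = 12) ∨ (p = 18 ∧ 12 ≤ q ∧ q ≤ 13)))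
      ∨ (j = 3 ∧ n = 2 ∧ ((p = 8 ∧ 2 ≤ q ∧ q ≤ 5) ∨ (p = 9 ∧ ((q = 2) ∨ (4 ≤ q ∧ q ≤ 5))) ∨ (p = 10 ∧ 4 ≤ q ∧ q ≤ 5) ∨ (p = 11 ∧ q = 5)))
      ∨ (j = 3 ∧ n = 7 ∧ ((p = 14 ∧ 12 ≤ q ∧ q ≤ 13) ∨ (((p = 16) ∨ (p = 18)) ∧ 12 ≤ q ∧ q ≤ 14) ∨ (p = 17 ∧ q = 12)))
      ∨ (j = 1 ∧ n = 3 ∧ ((p = 8 ∧ ((5 ≤ q ∧ q ≤ 6) ∨ (q = 8))) ∨ (p = 9 ∧ q = 9) ∨ (p = 10 ∧ ((3 ≤ q ∧ q ≤ 4) ∨ (9 ≤ q ∧ q ≤ 10)))))
      ∨ (j = 1 ∧ n = 9 ∧ ((p = 13 ∧ q = 13) ∨ (((p = 15) ∨ (p = 17) ∨ (p = 19)) ∧ 13 ≤ q ∧ q ≤ 14)))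
      ∨ (j = 1 ∧ n = 8 ∧ ((p = 13 ∧ q = 13) ∨ (((p = 15) ∨ (p = 17) ∨ (p = 19)) ∧ 13 ≤ q ∧ q ≤ 14)))
      ∨ (j = 1 ∧ n = 7 ∧ ((((p = 11) ∨ (14 ≤ p ∧ p ≤ 15)) ∧ q = 11) ∨ (p = 12 ∧ 11 ≤ q ∧ q ≤ 12) ∨ (p = 13 ∧ ((q = 11) ∨ (q = 13)))))
      ∨ (j = 6 ∧ n = 4 ∧ ((p = 15 ∧ 12 ≤ q ∧ q ≤ 13) ∨ (p = 16 ∧ ((q = 12) ∨ (q = 14))) ∨ (p = 17 ∧ 14 ≤ q ∧ q ≤ 15)))
      ∨ (j = 3 ∧ n = 3 ∧ ((p = 8 ∧ ((q = 3) ∨ (q = 5) ∨ (q = 7))) ∨ (p = 10 ∧ q = 6) ∨ (p = 11 ∧ ((q = 6) ∨ (q = 8)))))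
      ∨ (j = 2 ∧ n = 2 ∧ ((p = 8 ∧ ((q = 2) ∨ (q = 4))) ∨ (p = 9 ∧ q = 2) ∨ (p = 10 ∧ ((q = 3) ∨ (q = 5)))))
      ∨ (j = 1 ∧ n = 2 ∧ ((p = 8 ∧ 5 ≤ q ∧ q ≤ 6) ∨ (p = 10 ∧ 3 ≤ q ∧ q ≤ 4)))
      ∨ (j = 7 ∧ n = 4 ∧ ((p = 16 ∧ q = 14) ∨ (p = 17 ∧ 14 ≤ q ∧ q ≤ 15)))
      ∨ (j = 5 ∧ n = 5 ∧ (p = 17 ∧ ((10 ≤ q ∧ q ≤ 11) ∨ (q = 13))))
      ∨ (j = 4 ∧ n = 4 ∧ ((p = 11 ∧ q = 7) ∨ (12 ≤ p ∧ p ≤ 13 ∧ q = 9)))
      ∨ (j = 7 ∧ n = 3 ∧ (12 ≤ p ∧ p ≤ 13 ∧ q = 7))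
      ∨ (j = 4 ∧ n = 5 ∧ (p = 17 ∧ ((q = 10) ∨ (q = 12))))
      ∨ (j = 5 ∧ n = 5 ∧ (p = 16 ∧ q = 13))
      ∨ (j = 7 ∧ n = 5 ∧ (p = 17 ∧ q = 15))
      ∨ (j = 3 ∧ n = 5 ∧ (p = 17 ∧ q = 11))
      ∨ (j = 2 ∧ n = 3 ∧ (p = 10 ∧ q = 3))))
    926
    0x1a08031a1300257cda29fb831fb20020c6ba20d20020dd921eb5801eb4802a13422a12ca29fb831fb20020c6ba20d20020dd921eb5001eb50420e90020f4922a13031ec1002a2a521fe0801fe0842a29831fe0001fe0041fa7031fa7801fb2801fb28e1fb2841fa68e29fb831fa6801fa6841e890e1e88831e89001e890429fd8e29fd0329fd8029fd8429f183132b00132b0429f20e29f18329f20029f20429f183132a80132a8429f18312228012228412430e2a128312430012430429e58e1e878329e58029e5841e880e1e87831e88001e88042a070e29fb832a07002a070420b00e20af8320bb0020b00020b00e20b00413400e29fb8313400013400429f08312218012218429f083132980132984122c0e29fb83122c00122c041e86801e86811d71831d72001d72041e7b0e1d67031e7b001e7b041d7d8e1d7d031d7d801d7d841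d5b0e1c460527a4001c468a27b01a1d5b001d5b041d5a8e1c46831d5a801d5a8427b0031c3b001c3b0427b18327b200331b523e78803e8412331a00331a011c47801c531227b00027b00420f4831fd4801fd4843e9b0533318049f94a33320a3e84003e84041d5b8e1c53031d5b801d5b843332033e8f803e8f841c530327b08027b0841c5d0e1b49031c5d001c5d041cba802818ca1ca3801d96001ca40a1d96011c60001c8c801c768027c95227ea4227d4421c80001c5f001c758027de4a27c8521c75811b60801b55801b60811b55811b49031b55001b55041a34001a2900259d5225874a1a1d8e2559031a068025705a1a1d801a1d8425900e259b032590002590041a3e0e259b031a3e001a3e0419358e1a550319358019358414400e20b2831440001440041b480e259d031b48001b480419350e1a5503193500193504259b8e259b03259b80259b84259b0e310503259b00259b04259d0e3c6403259d00259d043105833c63803c638424508e30ce03245080245084259c0e1a3385259d001a3f12310652259c00259c0431050e321a0331050031050431ed8e30e50331ed8031ed8425910e1a3f0325910025910428ea0e27e18328ea0028ea0433520e3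ec70333520033520428dd8e1c830328dd8028dd841d800e1c83031d80001d800428e90e1c830328e90028e90447cd033c58003c58043c4d8e5314833c4d803c4d84531f833c64003c6404531f0e69e603531f00531f0480a10369da0069da04556e0349f90049f90427d38e1b60831b61001c75ba27de8027d38027d38e27d3841c690e1b60831c69001c6904257b8e1a1e03257b80257b84556e0348f08048f0841a4b801a358025b4d22593ca25930e808b0369c40069d01a5309005314923c4e003c5a1a2593002593041a4a801a1e801a1e8e1a1e8425708e1a0803257080257084490703557880556d80556d8e556d8427c80e33320327c80027c80449070354700054650054650e5465043e9c0327d48027d48433530e3ec80333530033530433330327c90027c9041d8b8e1c83031d8b801d8b843ebc0e336a033ebc003ebc043e908e3333033e90803e90844a1b0e4907034a10004a1b004a1b0e4a1b0428010e1ca40328010028010430e50e3c5a0330e50030e50449070349128049078049078e49078419360e25b38319360019360425b30e1a550325b30025b30448ef00544cc247cf0047da00532cc25337c247b80047d90053164a47a1008bf4008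bdd00752e007310005e96005342525e7f005e7e005c4a0047d80047d80e459c0045b200459b00459a00312200310b00313800312100310a003120003109003108002ed4002ebd002ea6002ed3002ebc002ea50020b3001c90001c8f001c8e001a73001a5c001a72001a5b001a5a001a43001a59001a42001a2b001a140019fd0019e400182500180e00182400180d00180c008bff008bff0e8bfe008bfe0e754f00754f0e731b00731b0e5fb6005ea1005ea10e5ea0005ea00e5e89005e890e5d69005c6b005c6b0e55840e547b8e547b0e546f8e491e0e491d8e49120e49110e49060e49058e53415247d70046ea0046ba0046a20045d30045d30e45d20045bd0045bd0e45bc0045bc0e45bb0045a50045a50e45a4003ec80e3ebc8e336a0e32400032320e32268e31590031590e31580031580e31430031430e31420031420e31410031410e312b0e312a0e31130e3023002ff3002ef5002ef50e2ef4002ef40e2ef3002ef30e2ede002ede0e2edd002edd0e2edc002edc0e2a130e2a128e2a120e29fb8e29fb0e28188e28180e280c8e280c0e28008e27f48e27ea0e27e88e27dd8e27c58e27ba8e25b48e25b38e25a80e25918e25908e258f8e24aa8e249f0e2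49e8e24938e24930e24920e24880e24878e24870e24868e21000021000e1cc7001cc70e1cb0001cb00e1c99001c990e1b79001aaa001aaa0e1aa9001aa90e1a93001a930e1a92001a920e1a7b001a7b0e1a7a0e1a64001a640e1a63001a630e1a62001a620e1a61001a610e1a60001a600e1a490e1a31001a310e19440019418e19408e19348e192a0e19290e18460018460e18450018450e182f00182f0e182e00182e0e18170018170e158b8e158b0e14830e14828e134b0e133f8e13340e13288e12428e12380e12370e122b8e12200e121f0e12138e11460e113a8e11178e11160e110b8e110b0e110a8e10fe8e10f38e10f30e103d8e10320e100f0e100d8e10030e10028e10020e0ff70e0ff68e0ff60e0feb0e0fea8e0eee8e0eec0e0eeb8e0ed60e0ed58e0de38e0de30e0dcd8e0dcd0e8bff0f8bfe0f754f0f754387752d87731b0f5fb60f5ea10f5ea00f5e890f5e88875e72875d690f5c6b0f558407547b87547b07546f875341075335874a108749f887491e07491d8749120749110749060749058747fe8747e68747e48747e38747d70f47ce8747cc8747b88747b68746ea0f46ba0f46a20f45d30f45d20f45bd0f45bc0f45bb0f45a50f45a40f3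ec8073ec7073ec6873ebc87336a87336a07336987336907333e87332787332687330f87330e8732400f323207322687321a0731590f31580f31430f31420f31410f312b0f312a0f31130f31118730fc8730fa8730f98730e48730cd8730230f2ff30f2ef50f2ef40f2ef30f2ede0f2edd0f2edc0f2a2a072a29872a29072a1d872a13072a12872a120729fb8729fb07281887281807280c87280c0728008727f48727ea0727e88727dd8727c58727ba8725b48725b38725a807259187259087258f8724aa87249f07249e8724938724930724920724880724878724870724868721000f20e88720d18720ba8720a68720a3871ec0871ea9871e93871e92871e7c871e7b871e7a871cc70f1cb00f1caf871c990f1c98871c83871c82871c81871c80871c6b871c6a871c69871c68871c53871c52871c3a871b790f1aaa0f1aa90f1a930f1a920f1a7b0f1a7a0f1a640f1a630f1a620f1a610f1a600f1a57871a56871a55871a54871a49071a41871a40871a3f871a3e871a3d871a310f1a2a871a29871a13871a128719fc8719fb8719440f194187194087193487192a0719290718460f18450f182f0f182e0f18170f158b87158b07157487157407155d87155d07154607148307148287146c07146b87145507145487143d87134b07133f87133507133407132907132887131d07124287123887123807123707122c87122b87122087122007121f07121487121387120807114607113a87112407111807111787111607110c07110b87110b07110a8710ff8710fe8710f38710f307103d87103207100f07100d871003871003071002871002070ff7870ff7070ff6870ff6070feb070fea870fdf870eef070eee870eec070eeb870ee3070ed7070ed6070ed5870de3870de3070dcd870dcd07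 = true := by
  decide +kernel

theorem vD3c_1 (hf : Rule f) {k c n : ℕ} (H : LI f k c n) (hF2 : F2 f k c n) (hF6 : F6 f k c n) (hZ : Cyc f (6 * k) (c - 2) (2 * (n - 3) + 2))
    (g1 : ∀ {M R x y : ℕ}, M = 6 * k + 0 → R + 2 = c → x + 7 = 2 * n → y + 14 = 2 * n → f M R x y)
    (g2 : ∀ {M R x y : ℕ}, M = 6 * k + 0 → R + 2 = c → x + 5 = 2 * n → y + 12 = 2 * n → ¬ f M R x y)
    (g3 : ∀ {M R x y : ℕ}, M = 6 * k + 0 → R = c + 4 → x = 2 * n + 6 → y + 1 = 2 * n → f M R x y)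
    (g4 : ∀ {M R x y : ℕ}, M = 6 * k + 4 → R + 2 = c → x + 3 = 2 * n → y + 10 = 2 * n → f M R x y) : False := by
  have hk := H.T.hk
  have hc := H.T.hc
  have h4 := H.T.h4
  have hb := H.T.hb
  have hN := H.T.hN2
  obtain ⟨a0, ha0⟩ : ∃ z, z + 2 = 6 * k := ⟨6 * k - 2, by omega⟩
  obtain ⟨b0, hb0⟩ : ∃ z, z + 5 = c := ⟨c - 5, by omega⟩
  obtain ⟨x0, hx0⟩ : ∃ z, z + 15 = 2 * n := ⟨2 * n - 15, by omega⟩
  obtain ⟨y0, hy0⟩ : ∃ z, z + 15 = 2 * n := ⟨2 * n - 15, by omega⟩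
  refine check_sound hf (a0 := a0) (b0 := b0) (x0 := x0) (y0 := y0) vD3c_1_chk
    ⟨fun _ => by omega, fun h => absurd h (by decide), fun h => absurd h (by decide), by omega, by omega,
      by omega, by omega⟩ ?_ ?_
  · intro j m p q hr h
    obtain ⟨-, -, -, -, hp1, hp2, hq1, hq2⟩ := hr
    replace h := of_decide_eq_true h
    rcases h with h | h | h | h | h | h | h | h | h | h | h | h | h | h | h | h | h | h | h | h | h
    · obtain ⟨rfl, rfl, h⟩ := h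
      exact (WrapC.v0 hZ (by omega) (by omega) (by omega) (by omega) (by omega) (by omega) (by omega)).mpr (by omega)
    · obtain ⟨rfl, rfl, h⟩ := h
      exact (WrapC.v2 H.a2 (by omega) (by omega) (by omega) (by omega) (by omega) (by omega) (by omega)).mpr (by omega)
    · obtain ⟨rfl, rfl, h⟩ := h
      exact (WrapC.v2 H.b4 (by omega) (by omega) (by omega) (by omega) (by omega) (by omega) (by omega)).mpr (by omega)
    · obtain ⟨rfl, rfl, h⟩ := h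
      exact (WrapC.v0 H.a2 (by omega) (by omega) (by omega) (by omega) (by omega) (by omega) (by omega)).mpr (by omega)
    · obtain ⟨rfl, rfl, h⟩ := h
      exact (WrapC.v2 H.a0 (by omega) (by omega) (by omega) (by omega) (by omega) (by omega) (by omega)).mpr (by omega)
    · obtain ⟨rfl, rfl, h⟩ := h
      exact (WrapC.v2 hZ (by omega) (by omega) (by omega) (by omega) (by omega) (by omega) (by omega)).mpr (by omega)
    · obtain ⟨rfl, rfl, h⟩ := h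
      exact (WrapC.v3 H.b4 (by omega) (by omega) (by omega) (by omega) (by omega) (by omega) (by omega) (by omega)).mpr (by omega)
    · obtain ⟨rfl, rfl, h⟩ := h
      exact (WrapC.v2 H.a6 (by omega) (by omega) (by omega) (by omega) (by omega) (by omega) (by omega)).mpr (by omega)
    · obtain ⟨rfl, rfl, h⟩ := h
      exact (NW.w2v H.b10 (by omega) (by omega) (by omega) (by omega) (by omega) (by omega) (by omega)).mpr (by omega)
    · obtain ⟨rfl, rfl, h⟩ := h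
      exact (WrapC.v1 H.a2 (by omega) (by omega) (by omega) (by omega) (by omega) (by omega) (by omega) (by omega)).mpr (by omega)
    · obtain ⟨rfl, rfl, h⟩ := h
      exact (WrapC.v1 hZ (by omega) (by omega) (by omega) (by omega) (by omega) (by omega) (by omega) (by omega)).mpr (by omega)
    · obtain ⟨rfl, rfl, h⟩ := h
      exact (NW.w2v H.b8 (by omega) (by omega) (by omega) (by omega) (by omega) (by omega) (by omega)).mpr (by omega)
    · obtain ⟨rfl, rfl, h⟩ := h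
      exact (WrapC.v4 H.b6 (by omega) (by omega) (by omega) (by omega) (by omega) (by omega) (by omega)).mpr (by omega)
    · obtain ⟨rfl, rfl, h⟩ := h
      exact (NW.w0v H.a8 (by omega) (by omega) (by omega) (by omega) (by omega) (by omega) (by omega)).mpr (by omega)
    · obtain ⟨rfl, rfl, h⟩ := h
      exact (WrapC.v3 H.a6 (by omega) (by omega) (by omega) (by omega) (by omega) (by omega) (by omega) (by omega)).mpr (by omega)
    · obtain ⟨rfl, rfl, h⟩ := h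
      exact (WrapC.v1 H.a6 (by omega) (by omega) (by omega) (by omega) (by omega) (by omega) (by omega) (by omega)).mpr (by omega)
    · obtain ⟨rfl, rfl, h⟩ := h
      exact (WrapC.v3 H.a2 (by omega) (by omega) (by omega) (by omega) (by omega) (by omega) (by omega) (by omega)).mpr (by omega)
    · obtain ⟨rfl, rfl, h⟩ := h
      exact (WrapC.v3 H.a0 (by omega) (by omega) (by omega) (by omega) (by omega) (by omega) (by omega) (by omega)).mpr (by omega)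
    · obtain ⟨rfl, rfl, h⟩ := h
      exact g1 (by omega) (by omega) (by omega) (by omega)
    · obtain ⟨rfl, rfl, h⟩ := h
      exact g3 (by omega) (by omega) (by omega) (by omega)
    · obtain ⟨rfl, rfl, h⟩ := h
      exact g4 (by omega) (by omega) (by omega) (by omega)
  · intro j m p q hr h
    obtain ⟨-, -, -, -, hp1, hp2, hq1, hq2⟩ := hr
    replace h := of_decide_eq_true h
    rcases h with h | h | h | h | h | h | h | h | h | h | h | h | h | h | h | h | h | h | h | h | h | h | h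
    · obtain ⟨rfl, rfl, h⟩ := h
      exact H.lw _ _ _ _ (by omega) (by omega) (by omega) (by omega) (by omega) (by omega)
    · obtain ⟨rfl, rfl, h⟩ := h
      exact H.lw _ _ _ _ (by omega) (by omega) (by omega) (by omega) (by omega) (by omega)
    · obtain ⟨rfl, rfl, h⟩ := h
      exact H.lw _ _ _ _ (by omega) (by omega) (by omega) (by omega) (by omega) (by omega)
    · obtain ⟨rfl, rfl, h⟩ := h
      exact H.eo _ _ _ _ (by omega) (by omega) (by omega) (by omega) (by omega) (by omega) (by omega)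
    · obtain ⟨rfl, rfl, h⟩ := h
      exact H.eo _ _ _ _ (by omega) (by omega) (by omega) (by omega) (by omega) (by omega) (by omega)
    · obtain ⟨rfl, rfl, h⟩ := h
      exact H.eo _ _ _ _ (by omega) (by omega) (by omega) (by omega) (by omega) (by omega) (by omega)
    · obtain ⟨rfl, rfl, h⟩ := h
      exact H.lw _ _ _ _ (by omega) (by omega) (by omega) (by omega) (by omega) (by omega)
    · obtain ⟨rfl, rfl, h⟩ := h
      exact H.lw _ _ _ _ (by omega) (by omega) (by omega) (by omega) (by omega) (by omega)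
    · obtain ⟨rfl, rfl, h⟩ := h
      exact H.lw _ _ _ _ (by omega) (by omega) (by omega) (by omega) (by omega) (by omega)
    · obtain ⟨rfl, rfl, h⟩ := h
      exact H.lw _ _ _ _ (by omega) (by omega) (by omega) (by omega) (by omega) (by omega)
    · obtain ⟨rfl, rfl, h⟩ := h
      exact NW.rm1 hf H.T (p := 0) (j := 1) (by omega) (by omega) (by omega) (by omega) (by omega) (by omega) (by omega)
    · obtain ⟨rfl, rfl, h⟩ := h
      exact H.eo _ _ _ _ (by omega) (by omega) (by omega) (by omega) (by omega) (by omega) (by omega)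
    · obtain ⟨rfl, rfl, h⟩ := h
      exact NHT.rIn hf H.T (t := 3) (p := 0) (j := 3) (by omega) (by omega) (by omega) (by omega) (by omega) (by omega) (by omega) (by omega)
    · obtain ⟨rfl, rfl, h⟩ := h
      exact H.lw _ _ _ _ (by omega) (by omega) (by omega) (by omega) (by omega) (by omega)
    · obtain ⟨rfl, rfl, h⟩ := h
      exact NW.rm1 hf H.T (p := 1) (j := 1) (by omega) (by omega) (by omega) (by omega) (by omega) (by omega) (by omega)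
    · obtain ⟨rfl, rfl, h⟩ := h
      exact NHT.p0i hf H.T (j := 3) (by omega) (by omega) (by omega) (by omega) (by omega) (by omega)
    · obtain ⟨rfl, rfl, h⟩ := h
      exact zrx hf H (p := 2) (by omega) (by omega) (by omega) (by omega) (by omega) (by omega) (by omega) (by omega) (by omega)
    · obtain ⟨rfl, rfl, h⟩ := h
      exact NHT.pmi hf H.T (j := 1) (by omega) (by omega) (by omega) (by omega) (by omega) (by omega)
    · obtain ⟨rfl, rfl, h⟩ := h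
      exact hF2 _ _ _ _ (by omega) (by omega) (by omega) (by omega) (by omega) (by omega)
    · obtain ⟨rfl, rfl, h⟩ := h
      exact NHT.pOut hf H.T (t := 4) (j := 2) (by omega) (by omega) (by omega) (by omega) (by omega) (by omega) (by omega)
    · obtain ⟨rfl, rfl, h⟩ := h
      exact NHT.pOut hf H.T (t := 4) (j := 1) (by omega) (by omega) (by omega) (by omega) (by omega) (by omega) (by omega)
    · obtain ⟨rfl, rfl, h⟩ := h
      exact NHT.p0i hf H.T (j := 4) (by omega) (by omega) (by omega) (by omega) (by omega) (by omega)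
    · obtain ⟨rfl, rfl, h⟩ := h
      exact g2 (by omega) (by omega) (by omega) (by omega)

end Pool.Agent.SNT.LRI
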