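import Pool.Agent.SNT.LRDef

set_option autoImplicit false
set_option linter.unusedVariables false
set_option synthInstance.maxSize 100000
set_option synthInstance.maxHeartbeats 4000000

/-! Windows near the diagonal. -/

namespace Pool.Agent.SNT.LRI

open Pool.Agent.SNT Pool.Agent.SNT.Loc Pool.Agent.SNT.LW Pool.Agent.SNT.NHZ

variable {f : ℕ → ℕ → ℕ → ℕ → Prop}

theorem vD3c_2_chk : check 12 13 23 23 0 1 1 1 2
    (fun j n p q => decide ((j = 2 ∧ n = 5 ∧ ((p = 12 ∧ ((q = 3) ∨ (q = 5) ∨ (q = 7) ∨ (q = 9) ∨ (q = 11))) ∨ (p = 14 ∧ ((q = 9) ∨ (q = 11))) ∨ (((p = 16) ∨ (p = 18)) ∧ ((q = 11) ∨ (q = 13)))))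
      ∨ (j = 6 ∧ n = 3 ∧ ((((p = 9) ∨ (p = 11)) ∧ ((q = 6) ∨ (q = 8))) ∨ (((p = 13) ∨ (p = 15)) ∧ ((q = 8) ∨ (q = 10) ∨ (q = 12)))))
      ∨ (j = 4 ∧ n = 5 ∧ ((p = 11 ∧ q = 10) ∨ (((p = 13) ∨ (p = 15) ∨ (p = 17)) ∧ ((q = 10) ∨ (q = 12)))))
      ∨ (j = 4 ∧ n = 3 ∧ ((p = 8 ∧ ((q = 3) ∨ (q = 5) ∨ (q = 7))) ∨ (p = 10 ∧ ((q = 3) ∨ (q = 5) ∨ (q = 7) ∨ (q = 9)))))
      ∨ (j = 8 ∧ n = 5 ∧ ((((p = 11) ∨ (p = 13)) ∧ q = 10) ∨ (p = 15 ∧ ((q = 10) ∨ (q = 12) ∨ (q = 14)))))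
      ∨ (j = 2 ∧ n = 3 ∧ ((((p = 7) ∨ (p = 11)) ∧ q = 6) ∨ (p = 9 ∧ ((q = 6) ∨ (q = 8)))))
      ∨ (j = 2 ∧ n = 7 ∧ (((p = 15) ∨ (p = 17) ∨ (p = 19)) ∧ q = 14))
      ∨ (j = 2 ∧ n = 1 ∧ (((p = 6) ∨ (p = 8)) ∧ q = 3))
      ∨ (j = 2 ∧ n = 6 ∧ (p = 13 ∧ q = 13))
      ∨ (j = 10 ∧ n = 4 ∧ (p = 8 ∧ q = 8))
      ∨ (j = 10 ∧ n = 3 ∧ (p = 9 ∧ q = 8))
      ∨ (j = 8 ∧ n = 3 ∧ (p = 10 ∧ q = 7))
      ∨ (j = 12 ∧ n = 6 ∧ (p = 10 ∧ q = 10))
      ∨ (j = 12 ∧ n = 5 ∧ (p = 11 ∧ q = 8))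
      ∨ (j = 10 ∧ n = 5 ∧ (p = 12 ∧ q = 9))
      ∨ (j = 8 ∧ n = 6 ∧ (p = 16 ∧ q = 16))
      ∨ (j = 8 ∧ n = 4 ∧ (p = 9 ∧ q = 9))
      ∨ (j = 4 ∧ n = 4 ∧ (p = 9 ∧ q = 9))
      ∨ (j = 2 ∧ n = 4 ∧ (p = 10 ∧ q = 10))
      ∨ (j = 2 ∧ n = 5 ∧ (p = 8 ∧ q = 1))
      ∨ (j = 2 ∧ n = 11 ∧ (p = 21 ∧ q = 14))
      ∨ (j = 6 ∧ n = 5 ∧ (p = 14 ∧ q = 7))))
    (fun j n p q => decide ((j = 1 ∧ n = 8 ∧ ((p = 10 ∧ q = 9) ∨ (p = 11 ∧ ((q = 9) ∨ (q = 11))) ∨ (p = 12 ∧ ((q = 9) ∨ (11 ≤ q ∧ q ≤ 12))) ∨ (p = 13 ∧ 11 ≤ q ∧ q ≤ 13) ∨ (p = 14 ∧ 12 ≤ q ∧ q ≤ 13) ∨ (15 ≤ p ∧ p ≤ 16 ∧ q = 11)))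
      ∨ (j = 3 ∧ n = 4 ∧ ((p = 8 ∧ 2 ≤ q ∧ q ≤ 3) ∨ (p = 9 ∧ ((q = 2) ∨ (4 ≤ q ∧ q ≤ 5))) ∨ (10 ≤ p ∧ p ≤ 11 ∧ 3 ≤ q ∧ q ≤ 5)))
      ∨ (j = 1 ∧ n = 7 ∧ ((p = 9 ∧ 7 ≤ q ∧ q ≤ 8) ∨ (p = 10 ∧ ((q = 7) ∨ (q = 9))) ∨ (p = 11 ∧ 8 ≤ q ∧ q ≤ 11) ∨ (p = 12 ∧ ((q = 8) ∨ (q = 11))) ∨ (p = 13 ∧ q = 13)))
      ∨ (j = 3 ∧ n = 7 ∧ ((p = 11 ∧ q = 8) ∨ (((p = 13) ∨ (p = 15)) ∧ ((q = 10) ∨ (q = 12))) ∨ (p = 14 ∧ ((q = 9) ∨ (q = 12))) ∨ (16 ≤ p ∧ p ≤ 17 ∧ q = 12) ∨ (p = 18 ∧ 12 ≤ q ∧ q ≤ 13)))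
      ∨ (j = 1 ∧ n = 5 ∧ ((p = 8 ∧ ((5 ≤ q ∧ q ≤ 6) ∨ (q = 8))) ∨ (p = 9 ∧ ((2 ≤ q ∧ q ≤ 3) ∨ (q = 9))) ∨ (p = 10 ∧ ((2 ≤ q ∧ q ≤ 3) ∨ (7 ≤ q ∧ q ≤ 8)))))
      ∨ (j = 1 ∧ n = 6 ∧ ((p = 8 ∧ q = 8) ∨ (p = 9 ∧ 7 ≤ q ∧ q ≤ 9) ∨ (p = 10 ∧ 7 ≤ q ∧ q ≤ 8) ∨ (11 ≤ p ∧ p ≤ 12 ∧ ((q = 8) ∨ (q = 11)))))
      ∨ (j = 1 ∧ n = 9 ∧ ((((11 ≤ p ∧ p ≤ 12) ∨ (15 ≤ p ∧ p ≤ 16)) ∧ q = 11) ∨ (p = 13 ∧ 11 ≤ q ∧ q ≤ 13) ∨ (p = 14 ∧ 12 ≤ q ∧ q ≤ 13)))
      ∨ (j = 1 ∧ n = 4 ∧ ((p = 8 ∧ 5 ≤ q ∧ q ≤ 6) ∨ (p = 9 ∧ 2 ≤ q ∧ q ≤ 3) ∨ (p = 10 ∧ ((2 ≤ q ∧ q ≤ 3) ∨ (7 ≤ q ∧ q ≤ 8)))))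
      ∨ (j = 3 ∧ n = 9 ∧ ((p = 15 ∧ ((q = 12) ∨ (q = 14))) ∨ (((p = 16) ∨ (p = 18)) ∧ 12 ≤ q ∧ q ≤ 14)))
      ∨ (j = 1 ∧ n = 11 ∧ ((p = 13 ∧ q = 13) ∨ (((p = 15) ∨ (p = 17) ∨ (p = 19)) ∧ 13 ≤ q ∧ q ≤ 14)))
      ∨ (j = 1 ∧ n = 10 ∧ ((p = 13 ∧ q = 13) ∨ (((p = 15) ∨ (p = 17) ∨ (p = 19)) ∧ 13 ≤ q ∧ q ≤ 14)))
      ∨ (j = 3 ∧ n = 5 ∧ ((p = 8 ∧ ((q = 3) ∨ (q = 5) ∨ (q = 7))) ∨ (10 ≤ p ∧ p ≤ 11 ∧ ((q = 4) ∨ (q = 6)))))
      ∨ (j = 7 ∧ n = 6 ∧ ((12 ≤ p ∧ p ≤ 13 ∧ 8 ≤ q ∧ q ≤ 9) ∨ (p = 17 ∧ q = 14)))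
      ∨ (j = 2 ∧ n = 4 ∧ ((p = 8 ∧ q = 2) ∨ (p = 9 ∧ 2 ≤ q ∧ q ≤ 3) ∨ (p = 10 ∧ ((q = 3) ∨ (q = 5)))))
      ∨ (j = 6 ∧ n = 6 ∧ ((p = 13 ∧ 8 ≤ q ∧ q ≤ 9) ∨ (p = 16 ∧ q = 12) ∨ (p = 17 ∧ q = 14)))
      ∨ (j = 5 ∧ n = 7 ∧ (p = 17 ∧ 10 ≤ q ∧ q ≤ 13))
      ∨ (j = 7 ∧ n = 5 ∧ (11 ≤ p ∧ p ≤ 13 ∧ q = 8))
      ∨ (j = 4 ∧ n = 6 ∧ ((p = 11 ∧ q = 7) ∨ (12 ≤ p ∧ p ≤ 13 ∧ q = 9)))
      ∨ (j = 7 ∧ n = 6 ∧ ((p = 16 ∧ q = 14) ∨ (p = 17 ∧ q = 15)))
      ∨ (j = 6 ∧ n = 6 ∧ ((p = 16 ∧ q = 14) ∨ (p = 17 ∧ q = 15)))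
      ∨ (j = 4 ∧ n = 7 ∧ (p = 17 ∧ ((q = 10) ∨ (q = 12))))
      ∨ (j = 5 ∧ n = 5 ∧ (p = 11 ∧ q = 9))
      ∨ (j = 5 ∧ n = 7 ∧ (p = 16 ∧ q = 13))
      ∨ (j = 7 ∧ n = 7 ∧ (p = 17 ∧ q = 15))
      ∨ (j = 3 ∧ n = 7 ∧ (p = 17 ∧ q = 11))
      ∨ (j = 3 ∧ n = 6 ∧ (p = 11 ∧ q = 10))
      ∨ (j = 2 ∧ n = 5 ∧ (p = 10 ∧ q = 3))))
    977
    0x22a88322a90030184a32410324d30032424a25dc8026e5aa32410325db8026e4aa23a48323a50024b9ba25ce0025da1a25e58025da8026f9b226e3aa26e30e23a48323a50024b9ba25ce0026e2ba26ee0026e30026e30e26e30422a88323b10023b10426e383186b80186b8426d70e25da0325e58025da8026f9b226e3aa26e20026d70026d70e26d70425e50e22a88323bd0024d13225e50025e504186b0e26f983186b00186b0427050026e40026e40e26e40432358325d00025d00418820e271083188200188204271c0026e50026e50e26e50426130e326d8326130026130424e78332618032618424bc0e24bb8324bc0024bc0432410332418032418432620e32568332620032620417790e325683177900177904176d8e325683176d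80176d8416708e32568316708016708416440e323583164400164404324b0e22a88323bd0024d132324b00324b0424bb0e24ba8324bb0024bb0424ba0e23a48323a50024b9ba24ba0024ba0424ae0e239a0324ae0024ae0423a58e239a0323a58023a584238e0e2279052fe80022798a2ff41a238e00238e04228f83239880239884226e0e2ff403226e00226e042ff5832ff6003d70524ade804aea123d6f003d6f01227a802286122ff4002ff40425d98e22a88323bd0024d13225d98025d98425d08e26e58325d08025d0844b01053d868058704a3d870a4aea004aea0422a88323bd0023c91a24d20024d204228603238e80238e8418620e26e5831862001862043d87034af5804af58430158e22a7033015803015844b220e3dbf034b22004b220423bc8e22a88323bc8023bc8422ed8022ab80305cca3025d222d68022aa8030454230194222bf8022a98022a98e22a98422ca0022930030394a300d5222b30022920030224a300c522193802188802f02422ef742217c00217c01206700205c002de1522dcb4a20508e2bc3832ccc002de0321f5c802ddf722df6831f68802de06a1e49002bc3da2de0031e54801e548420650020650420668020508e205084217b0e2de1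03217b00217b042dcb0e48b4032dcb002dcb0448be0e48d5053b5a8056444a3b5a8148be0048be0448a88e3b2e8348a88048a8842d9d0e3b23032d9d002d9d043b5a032cd6802cd6842de00e2066852de1002072123b5b522de0002de0042ddf8e2ddf032ddf802ddf843b5a0e3c6f033b5a003b5a043b5b033c63803c63842dbf0e2051032dbf002dbf044aeb033d70003d7004312e0e302583312e00312e0465f60358700058700448be8e63b30348be8048be8448b40e639d0348b40048b40463a70e7e900363a70063a7047e6e0e9956837e6e007e6e0448b48e64a68348b48048b4843b5b0e48d6033b5b003b5b042de08e2072032de0802de084207e80206880208a1220690a207d802051802df7d22dc0ca20460e2da9832046002046042db48e2da9832db4802db4841f3c8e2ba2831f3c801f3c8430220e3da8033022003022043d870e4b02033d87003d8704300d0e3d8803300d00300d041f690e2df7831f69001f69042df70e2df6832df7002df70457888e660c035788805788842d9d8e202f032d9d802d9d842d9e0e202f032d9e002d9e0421718e20690321718021718456440e64d283564400564404577e0064ecc2565e0056690063cd4a63e3525647005668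0063b64a63e252563000566700639f4aa6ba0089cb00714700713000711900711800711700561900544200542b00541400544100542a0063e1525413005412005411003b77003b60003b76003b5f003b75003b5e003b5d0039290039120038fb0039280039110038fa0026e60022c30022c20022c10020a600208f0020a500208e00208d00207600208c00207500205e002047002030002017001e41001e57001e40001e3f001c0c001c0b00a7d900a6db0e8c0a008ad30089d60089d60e72670071520071520e71510071510e71500071500e71390071390e71220071220e7002006f0400660c0e65038e65030e64f78e64d28e64d20e64c70e64c68e63c98e63be0e63b28e57950e57948e57890e57880e57640e57638e56660056660e54630054630e54620054620e54610054610e544c00544c0e544b00544b0e544a00544a0e54330054330e543200541c00541c0e541b004b2e0e4b2d8e4b2d0e4b2c8e4b228e3dbf0e3dbe0e3c870e3c7b8e3bae003bae0e3bad003bad0e3b97003b970e3b96003b960e3b80003b800e3b7f003b7f0e3b68003b680e3a4800394b00394a00394a0e39490039490e39480039480e39330039330e39320039320e39310039310e326e0e326d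8e32570e32568e32560e324b8e324a8e305c8e305c0e30508e30500e30450e30398e30388e302e0e302c8e30228e30218e30098e2f020e2df78e2df68e2dec0e2deb0e2dd58e2cee8e2cee0e2ced8e2ce30e2ce28e2ce20e2cd78e2cd70e27330e22fa0022fa0e22e30e22cc0022cc0e21ac0020dd0020dd0e20dc0020dc0e20c60020c60e20c50020c50e20ae0020ae0e20ad0020ad0e20970020970e20960020960e20950020950e20940020940e20930020930e207c0e20640020640e1f77001f748e1f738e1f680e1f678e1e78001e780e1e62001e620e1e61001e610e1e4a001e4a0e1c43001c430e1c2c001c2c0e19ad8e19ad0e19968e19960e197f8e197f0e18a50e18a48e188e0e188d8e18770e18768e17788e176d0e17628e17620e17568e17560e174a8e16700e16648e165a0e16598e164e0e164d8e16420e16410e16358e15398e15380e152d8e152d0e152c8e15208e15158e15150e14310e142f8e14240e14188e14180e140d0e140c8e13100e130f8e130d8e130d0e13020e13018e12f80e12f78e12078e12070e12050e12048e11f98e11f90e11ef8e11ef0ea7d90fa6db0f8c0a0f8be7878ad30f89d60f72670f71520f71510f71500f71390f71220f7121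8770020f6f040f660c0765038765030764f78764d28764d20764c70764c68763c98763be0763b287589d87588787586f8757950757948757890757880757640757638756758756748756738756728756660f565e87565b87564787564487564387563087562f87562e8754630f54620f54610f544c0f544b0f544a0f54330f54320f541c0f541b0f4b2e074b2d874b2d074b2c874b228748d6073dbf073dbe873dbe073da7873d93873d7c873d7b873d64873d63873c87073c7b873c6f073bae0f3bad0f3b970f3b960f3b800f3b7f0f3b680f3b67873b66873b4f873b4e873b39873b22873a480f394b0f394a0f39490f39480f39330f39320f39310f326e07326d87326d07325707325687325607324b87324a87305c87305c07305087305007304507303987303887302e07302c873022873021873009872f02072df7872df6872dec072deb072dd5872dd4872dd3872cee872cee072ced872ce3072ce2872ce2072cd7872cd7072cd6072ccb072cca8727330f27048726ed8726d98726d88726d78726d68724f38724dc8724db8724c78724c68724c58724af8724ae8724ad8722fa0f22e30f22e28722cc0f22ca8722b68722b48722b387229e87229d87229c87229b872286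87228587228387226d8721ac0f20dd0f20dc0f20c60f20c50f20ae0f20ad0f20970f20960f20950f20940f20930f208a87208987208887208787207c0720748720738720728720718720708720640f205d87205c87204687204587202f87202e871f770f1f74871f73871f68071f67871f5c071e780f1e620f1e610f1e4a0f1e49871e33871c430f1c2c0f19ad8719ad07199687199607197f87197f0719680718a50718a487188e07188d87187707187687185f87177887176d07176287176207175707175687175607174a87173f07167007166487165a07165987164e87164e07164d87164287164207164107163687163587162a07154607153987153807152e07152d87152d07152c87152187152087151587151507143107142f87142587142407141887141807140d87140d07140c87140187131007130f87130d87130d0713050713020713018712f90712f80712f78712078712070712050712048711f98711f90711ef8711ef07 = true := by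
  decide +kernel

theorem vD3c_2 (hf : Rule f) {k c n : ℕ} (H : LI f k c n) (hF2 : F2 f k c n) (hF6 : F6 f k c n) (hZ : Cyc f (6 * k) (c - 2) (2 * (n - 3) + 2))
    (g1 : ∀ {M R x y : ℕ}, M = 6 * k + 0 → R + 2 = c → x + 7 = 2 * n → y + 14 = 2 * n → f M R x y)
    (g2 : ∀ {M R x y : ℕ}, M = 6 * k + 0 → R + 2 = c → x + 5 = 2 * n → y + 12 = 2 * n → ¬ f M R x y)
    (g3 : ∀ {M R x y : ℕ}, M = 6 * k + 0 → R = c + 4 → x = 2 * n + 6 → y + 1 = 2 * n → f M R x y)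
    (g4 : ∀ {M R x y : ℕ}, M = 6 * k + 4 → R + 2 = c → x + 1 = 2 * n → y + 8 = 2 * n → f M R x y) : False := by
  have hk := H.T.hk
  have hc := H.T.hc
  have h4 := H.T.h4
  have hb := H.T.hb
  have hN := H.T.hN2
  obtain ⟨a0, ha0⟩ : ∃ z, z + 2 = 6 * k := ⟨6 * k - 2, by omega⟩
  obtain ⟨b0, hb0⟩ : ∃ z, z + 7 = c := ⟨c - 7, by omega⟩
  obtain ⟨x0, hx0⟩ : ∃ z, z + 15 = 2 * n := ⟨2 * n - 15, by omega⟩
  obtain ⟨y0, hy0⟩ : ∃ z, z + 15 = 2 * n := ⟨2 * n - 15, by omega⟩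
  refine check_sound hf (a0 := a0) (b0 := b0) (x0 := x0) (y0 := y0) vD3c_2_chk
    ⟨fun _ => by omega, fun h => absurd h (by decide), fun h => absurd h (by decide), by omega, by omega,
      by omega, by omega⟩ ?_ ?_
  · intro j m p q hr h
    obtain ⟨-, -, -, -, hp1, hp2, hq1, hq2⟩ := hr
    replace h := of_decide_eq_true h
    rcases h with h | h | h | h | h | h | h | h | h | h | h | h | h | h | h | h | h | h | h | h | h | h
    · obtain ⟨rfl, rfl, h⟩ := h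
      exact (WrapC.v0 hZ (by omega) (by omega) (by omega) (by omega) (by omega) (by omega) (by omega)).mpr (by omega)
    · obtain ⟨rfl, rfl, h⟩ := h
      exact (WrapC.v2 H.b4 (by omega) (by omega) (by omega) (by omega) (by omega) (by omega) (by omega)).mpr (by omega)
    · obtain ⟨rfl, rfl, h⟩ := h
      exact (WrapC.v2 H.a2 (by omega) (by omega) (by omega) (by omega) (by omega) (by omega) (by omega)).mpr (by omega)
    · obtain ⟨rfl, rfl, h⟩ := h
      exact (WrapC.v0 H.a2 (by omega) (by omega) (by omega) (by omega) (by omega) (by omega) (by omega)).mpr (by omega)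
    · obtain ⟨rfl, rfl, h⟩ := h
      exact (WrapC.v2 H.a6 (by omega) (by omega) (by omega) (by omega) (by omega) (by omega) (by omega)).mpr (by omega)
    · obtain ⟨rfl, rfl, h⟩ := h
      exact (WrapC.v2 H.a0 (by omega) (by omega) (by omega) (by omega) (by omega) (by omega) (by omega)).mpr (by omega)
    · obtain ⟨rfl, rfl, h⟩ := h
      exact (WrapC.v2 hZ (by omega) (by omega) (by omega) (by omega) (by omega) (by omega) (by omega)).mpr (by omega)
    · obtain ⟨rfl, rfl, h⟩ := h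
      exact (WrapC.v0 H.a0 (by omega) (by omega) (by omega) (by omega) (by omega) (by omega) (by omega)).mpr (by omega)
    · obtain ⟨rfl, rfl, h⟩ := h
      exact (WrapC.v1 hZ (by omega) (by omega) (by omega) (by omega) (by omega) (by omega) (by omega) (by omega)).mpr (by omega)
    · obtain ⟨rfl, rfl, h⟩ := h
      exact (NW.w3v H.b8 (by omega) (by omega) (by omega) (by omega) (by omega) (by omega) (by omega) (by omega)).mpr (by omega)
    · obtain ⟨rfl, rfl, h⟩ := h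
      exact (NW.w2v H.b8 (by omega) (by omega) (by omega) (by omega) (by omega) (by omega) (by omega)).mpr (by omega)
    · obtain ⟨rfl, rfl, h⟩ := h
      exact (WrapC.v4 H.b6 (by omega) (by omega) (by omega) (by omega) (by omega) (by omega) (by omega)).mpr (by omega)
    · obtain ⟨rfl, rfl, h⟩ := h
      exact (NW.w3v H.b10 (by omega) (by omega) (by omega) (by omega) (by omega) (by omega) (by omega) (by omega)).mpr (by omega)
    · obtain ⟨rfl, rfl, h⟩ := h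
      exact (NW.w2v H.b10 (by omega) (by omega) (by omega) (by omega) (by omega) (by omega) (by omega)).mpr (by omega)
    · obtain ⟨rfl, rfl, h⟩ := h
      exact (NW.w0v H.a8 (by omega) (by omega) (by omega) (by omega) (by omega) (by omega) (by omega)).mpr (by omega)
    · obtain ⟨rfl, rfl, h⟩ := h
      exact (WrapC.v3 H.a6 (by omega) (by omega) (by omega) (by omega) (by omega) (by omega) (by omega) (by omega)).mpr (by omega)
    · obtain ⟨rfl, rfl, h⟩ := h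
      exact (WrapC.v1 H.a6 (by omega) (by omega) (by omega) (by omega) (by omega) (by omega) (by omega) (by omega)).mpr (by omega)
    · obtain ⟨rfl, rfl, h⟩ := h
      exact (WrapC.v1 H.a2 (by omega) (by omega) (by omega) (by omega) (by omega) (by omega) (by omega) (by omega)).mpr (by omega)
    · obtain ⟨rfl, rfl, h⟩ := h
      exact (WrapC.v3 H.a0 (by omega) (by omega) (by omega) (by omega) (by omega) (by omega) (by omega) (by omega)).mpr (by omega)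
    · obtain ⟨rfl, rfl, h⟩ := h
      exact g1 (by omega) (by omega) (by omega) (by omega)
    · obtain ⟨rfl, rfl, h⟩ := h
      exact g3 (by omega) (by omega) (by omega) (by omega)
    · obtain ⟨rfl, rfl, h⟩ := h
      exact g4 (by omega) (by omega) (by omega) (by omega)
  · intro j m p q hr h
    obtain ⟨-, -, -, -, hp1, hp2, hq1, hq2⟩ := hr
    replace h := of_decide_eq_true h
    rcases h with h | h | h | h | h | h | h | h | h | h | h | h | h | h | h | h | h | h | h | h | h | h | h | h | h | h | h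
    · obtain ⟨rfl, rfl, h⟩ := h
      exact H.lw _ _ _ _ (by omega) (by omega) (by omega) (by omega) (by omega) (by omega)
    · obtain ⟨rfl, rfl, h⟩ := h
      exact NHT.rIn hf H.T (t := 3) (p := 1) (j := 3) (by omega) (by omega) (by omega) (by omega) (by omega) (by omega) (by omega) (by omega)
    · obtain ⟨rfl, rfl, h⟩ := h
      exact H.lw _ _ _ _ (by omega) (by omega) (by omega) (by omega) (by omega) (by omega)
    · obtain ⟨rfl, rfl, h⟩ := h
      exact H.eo _ _ _ _ (by omega) (by omega) (by omega) (by omega) (by omega) (by omega) (by omega)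
    · obtain ⟨rfl, rfl, h⟩ := h
      exact H.lw _ _ _ _ (by omega) (by omega) (by omega) (by omega) (by omega) (by omega)
    · obtain ⟨rfl, rfl, h⟩ := h
      exact H.lw _ _ _ _ (by omega) (by omega) (by omega) (by omega) (by omega) (by omega)
    · obtain ⟨rfl, rfl, h⟩ := h
      exact H.lw _ _ _ _ (by omega) (by omega) (by omega) (by omega) (by omega) (by omega)
    · obtain ⟨rfl, rfl, h⟩ := h
      exact H.lw _ _ _ _ (by omega) (by omega) (by omega) (by omega) (by omega) (by omega)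
    · obtain ⟨rfl, rfl, h⟩ := h
      exact H.eo _ _ _ _ (by omega) (by omega) (by omega) (by omega) (by omega) (by omega) (by omega)
    · obtain ⟨rfl, rfl, h⟩ := h
      exact H.lw _ _ _ _ (by omega) (by omega) (by omega) (by omega) (by omega) (by omega)
    · obtain ⟨rfl, rfl, h⟩ := h
      exact H.lw _ _ _ _ (by omega) (by omega) (by omega) (by omega) (by omega) (by omega)
    · obtain ⟨rfl, rfl, h⟩ := h
      exact H.eo _ _ _ _ (by omega) (by omega) (by omega) (by omega) (by omega) (by omega) (by omega)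
    · obtain ⟨rfl, rfl, h⟩ := h
      exact NW.rm1i hf H.T (p := 1) (j := 2) (by omega) (by omega) (by omega) (by omega) (by omega) (by omega) (by omega)
    · obtain ⟨rfl, rfl, h⟩ := h
      exact NHT.rIn hf H.T (t := 3) (p := 0) (j := 3) (by omega) (by omega) (by omega) (by omega) (by omega) (by omega) (by omega) (by omega)
    · obtain ⟨rfl, rfl, h⟩ := h
      exact NW.rm1i hf H.T (p := 0) (j := 2) (by omega) (by omega) (by omega) (by omega) (by omega) (by omega) (by omega)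
    · obtain ⟨rfl, rfl, h⟩ := h
      exact NHT.p0i hf H.T (j := 3) (by omega) (by omega) (by omega) (by omega) (by omega) (by omega)
    · obtain ⟨rfl, rfl, h⟩ := h
      exact NHT.pmi hf H.T (j := 1) (by omega) (by omega) (by omega) (by omega) (by omega) (by omega)
    · obtain ⟨rfl, rfl, h⟩ := h
      exact zrx hf H (p := 2) (by omega) (by omega) (by omega) (by omega) (by omega) (by omega) (by omega) (by omega) (by omega)
    · obtain ⟨rfl, rfl, h⟩ := h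
      exact NW.rm1 hf H.T (p := 1) (j := 1) (by omega) (by omega) (by omega) (by omega) (by omega) (by omega) (by omega)
    · obtain ⟨rfl, rfl, h⟩ := h
      exact NW.rm1 hf H.T (p := 0) (j := 1) (by omega) (by omega) (by omega) (by omega) (by omega) (by omega) (by omega)
    · obtain ⟨rfl, rfl, h⟩ := h
      exact hF2 _ _ _ _ (by omega) (by omega) (by omega) (by omega) (by omega) (by omega)
    · obtain ⟨rfl, rfl, h⟩ := h
      exact NHT.pm hf H.T (j := 1) (by omega) (by omega) (by omega) (by omega) (by omega) (by omega)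
    · obtain ⟨rfl, rfl, h⟩ := h
      exact NHT.pOut hf H.T (t := 4) (j := 2) (by omega) (by omega) (by omega) (by omega) (by omega) (by omega) (by omega)
    · obtain ⟨rfl, rfl, h⟩ := h
      exact NHT.pOut hf H.T (t := 4) (j := 1) (by omega) (by omega) (by omega) (by omega) (by omega) (by omega) (by omega)
    · obtain ⟨rfl, rfl, h⟩ := h
      exact NHT.p0i hf H.T (j := 4) (by omega) (by omega) (by omega) (by omega) (by omega) (by omega)
    · obtain ⟨rfl, rfl, h⟩ := h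
      exact H.eo _ _ _ _ (by omega) (by omega) (by omega) (by omega) (by omega) (by omega) (by omega)
    · obtain ⟨rfl, rfl, h⟩ := h
      exact g2 (by omega) (by omega) (by omega) (by omega)

end Pool.Agent.SNT.LRI
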