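import Pool.Agent.SNT.LRDef

set_option autoImplicit false
set_option linter.unusedVariables false
set_option synthInstance.maxSize 100000
set_option synthInstance.maxHeartbeats 4000000

/-! Windows near the diagonal. -/

namespace Pool.Agent.SNT.LRI

open Pool.Agent.SNT Pool.Agent.SNT.Loc Pool.Agent.SNT.LW Pool.Agent.SNT.NHZ

variable {f : ℕ → ℕ → ℕ → ℕ → Prop}

theorem vD4a_chk : check 12 9 26 26 0 1 1 1 2
    (fun j n p q => decide ((j = 2 ∧ n = 1 ∧ (((p = 8) ∨ (p = 10)) ∧ ((q = 1) ∨ (q = 3) ∨ (q = 5) ∨ (q = 7))))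
      ∨ (j = 4 ∧ n = 3 ∧ ((p = 12 ∧ ((q = 3) ∨ (q = 5) ∨ (q = 7) ∨ (q = 9) ∨ (q = 11))) ∨ (p = 14 ∧ q = 11)))
      ∨ (j = 8 ∧ n = 5 ∧ (((p = 15) ∨ (p = 17) ∨ (p = 19) ∨ (p = 21) ∨ (p = 23)) ∧ q = 14))
      ∨ (j = 6 ∧ n = 3 ∧ (((p = 13) ∨ (p = 15)) ∧ ((q = 10) ∨ (q = 12))))
      ∨ (j = 2 ∧ n = 3 ∧ ((((p = 11) ∨ (p = 15)) ∧ q = 10) ∨ (p = 13 ∧ ((q = 10) ∨ (q = 12)))))
      ∨ (j = 4 ∧ n = 1 ∧ (p = 9 ∧ ((q = 6) ∨ (q = 8))))
      ∨ (j = 10 ∧ n = 4 ∧ (p = 12 ∧ q = 12))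
      ∨ (j = 10 ∧ n = 3 ∧ (p = 13 ∧ q = 12))
      ∨ (j = 8 ∧ n = 3 ∧ (p = 14 ∧ q = 11))
      ∨ (j = 6 ∧ n = 4 ∧ (p = 12 ∧ q = 12))
      ∨ (j = 12 ∧ n = 6 ∧ (p = 14 ∧ q = 14))
      ∨ (j = 12 ∧ n = 5 ∧ (p = 15 ∧ q = 12))
      ∨ (j = 10 ∧ n = 5 ∧ (p = 16 ∧ q = 13))
      ∨ (j = 8 ∧ n = 4 ∧ (p = 13 ∧ q = 13))
      ∨ (j = 6 ∧ n = 5 ∧ (p = 24 ∧ q = 13))
      ∨ (j = 2 ∧ n = 4 ∧ (p = 12 ∧ q = 12))
      ∨ (j = 2 ∧ n = 2 ∧ (p = 9 ∧ q = 9))
      ∨ (j = 2 ∧ n = 7 ∧ (p = 19 ∧ q = 12))))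
    (fun j n p q => decide ((j = 1 ∧ n = 2 ∧ ((p = 8 ∧ q = 7) ∨ (p = 9 ∧ ((2 ≤ q ∧ q ≤ 4) ∨ (6 ≤ q ∧ q ≤ 7))) ∨ (p = 10 ∧ 2 ≤ q ∧ q ≤ 6)))
      ∨ (j = 1 ∧ n = 5 ∧ ((9 ≤ p ∧ p ≤ 10 ∧ ((q = 3) ∨ (q = 5) ∨ (q = 7) ∨ (q = 9))) ∨ (p = 11 ∧ ((q = 9) ∨ (q = 11)))))
      ∨ (j = 1 ∧ n = 6 ∧ ((9 ≤ p ∧ p ≤ 10 ∧ q = 9) ∨ (p = 11 ∧ ((q = 9) ∨ (q = 11))) ∨ (((p = 13) ∨ (p = 15) ∨ (p = 17)) ∧ 11 ≤ q ∧ q ≤ 12)))
      ∨ (j = 3 ∧ n = 3 ∧ ((p = 8 ∧ 2 ≤ q ∧ q ≤ 7) ∨ (p = 9 ∧ ((q = 2) ∨ (q = 4) ∨ (q = 6))) ∨ (p = 10 ∧ q = 8)))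
      ∨ (j = 7 ∧ n = 6 ∧ (((p = 17) ∨ (p = 19) ∨ (p = 21) ∨ (p = 23)) ∧ 12 ≤ q ∧ q ≤ 13))
      ∨ (j = 6 ∧ n = 6 ∧ (((p = 17) ∨ (p = 19) ∨ (p = 21) ∨ (p = 23)) ∧ 12 ≤ q ∧ q ≤ 13))
      ∨ (j = 1 ∧ n = 4 ∧ (9 ≤ p ∧ p ≤ 10 ∧ ((q = 3) ∨ (q = 5) ∨ (7 ≤ q ∧ q ≤ 8))))
      ∨ (j = 1 ∧ n = 7 ∧ ((p = 11 ∧ q = 11) ∨ (((p = 13) ∨ (p = 15) ∨ (p = 17)) ∧ 11 ≤ q ∧ q ≤ 12)))
      ∨ (j = 3 ∧ n = 5 ∧ ((p = 12 ∧ 10 ≤ q ∧ q ≤ 11) ∨ (((p = 13) ∨ (p = 15)) ∧ q = 10) ∨ (p = 14 ∧ 10 ≤ q ∧ q ≤ 12)))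
      ∨ (j = 7 ∧ n = 5 ∧ ((p = 15 ∧ 11 ≤ q ∧ q ≤ 12) ∨ (((p = 17) ∨ (p = 19) ∨ (p = 21) ∨ (p = 23)) ∧ q = 12)))
      ∨ (j = 4 ∧ n = 2 ∧ (p = 10 ∧ 3 ≤ q ∧ q ≤ 5))
      ∨ (j = 2 ∧ n = 6 ∧ (p = 17 ∧ 11 ≤ q ∧ q ≤ 12))
      ∨ (j = 3 ∧ n = 5 ∧ (p = 15 ∧ q = 11))
      ∨ (j = 1 ∧ n = 3 ∧ (p = 9 ∧ q = 7))
      ∨ (j = 2 ∧ n = 5 ∧ (p = 10 ∧ q = 3))))
    456
    0x2ae30320538021a62a1ee40320298020438020371a20440a20448020521a205280205f0021a52a21be3221b10e1ee40320298020438020371a20440a20448021a43a21a48021b10021b10e21b10420368e1ee4032036802036841ee48e1ee4031ee4801ee4841ebe0e1eb1031ebe001ebe041e97031ea4001ea40427c7831d37801d37841be6031d38001d380427e1831d51801d51841c00031d52001d52041c1a031d5f001d5f041d6b8e27fb831d6b801d6b841d6c0e1c1a031d6c001d6c0420518e21be03205180205184205e8e2aee83205e80205e8414630e21a50314630014630421cb0021a58021a58e21a58420788e2b08832078802078842ad58e42a7032ad5802ad58442b28e5a910342b28042b2845b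fd834eaf004eaf045c17834ec9004ec9045c31834ee3004ee3045c4b834efd004efd0442bf8e5a910342bf8042bf841c33031d85001d85041d790e1c27031d79001d790442c00e5a848342c00042c0045a5e0e723c835a5e005a5e0442b30e5a848342b30042b3047255835a84005a840472480e8a0c837248007248041c1a03101d80101d8414640e21a60314640014640428128e340f0328128028128428138e34100328138028138428148e3411032814802814841c1a030ecb800ecb841c3f8e282f831c3f801c3f84105d8e282f83105d80105d84105e0e282f83105e00105e040f0b8e282f830f0b800f0b840f0c0e282f830f0c000f0c0421a68021a70a7e1f00666780639c0034140034130021a7801c5c801c4280197600195c00194200192800197500195b0019410019270097410095fb007e44807e448e7cbe007b790066dc0066c20066a800668e0066740066740e65078063c18063c18e4f24804d36004c0b004c0a004bf1004bf00034398e341f8e341e80341d80341c80341b803153003152002afc0e2afb8e28140e28130e28120e28078e28070e28068e28060e28058e28050e21ff0e20930e20928e1ee18e1dae001c82001c690e1c68001c680e1c4e001ae180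199b80199b8e199a80199a8e19998019998e19988e19818019818e19808e197f8e197e8e16030e16028e15e90e15e88e15cf0e15ce8e14b10e14b08e14970e14968e147d0e147c8e14548e13028e13008e12ff8e12f38e12f28e11ae8e11ad8e11a18e11a08e10508e0f0b0e0f0a8e0f0a0e0f098e0f090e0efe8e0efe0e0efd0e0efc8e0efc0e97410f95fb0f7e448f7e1d877cbe0f7b790f66dc0f66c20f66a80f668e0f66740f667387665a8765078f63c18f5c4b875c4b075c31875c31075c17875c17075bfd875bfd075af9075adf075ac5075aab075a91075a9087506987506907504f87504f07503587503507501b87501b074f248f4f17874efd874ee3874ec9874eae874e95874d360f4c0b0f4c0a0f4bf10f4bf00f36b78734398f341f8f341e8f341d8f341c8f341b8f341087340f87340e8732b08732b00732af8731530f31520f2b08872b08072afc072afb872afb072aee072ae1872ae10728220728140728130728120728078728070728068728060728058728050721ff0f21b0872199872198872197872196872093072092871f26871f0c871ef3871ef2871ef1871ee1871ed7871ed6871ea3871e89871dae0f1c820f1c690f1c680f1c4e0f1c4d871c32871c19871bff871be5871ae18f199b8f199a8f19998f19988f19818f19808f197f8f197e8f16030716028715e90715e88715cf0715ce8715b48714b10714b087149707149687147d07147c87146287146187145487144787131087130f8713028713018713008712ff8712f58712f48712f38712f28711b00711af8711ae8711ad8711a30711a28711a18711a0871050870f0b070f0a870f0a070f09870f09070efe870efe070efd070efc870efc070ef187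 = true := by
  decide +kernel

theorem vD4a (hf : Rule f) {k c n : ℕ} (H : LI f k c n)
    (g1 : ∀ {M R x y : ℕ}, M = 6 * k + 0 → R + 2 = c → x + 9 = 2 * n → y + 16 = 2 * n → ¬ f M R x y)
    (g2 : ∀ {M R x y : ℕ}, M = 6 * k + 0 → R = c → x = 2 * n → y + 7 = 2 * n → f M R x y) : False := by
  have hk := H.T.hk
  have hc := H.T.hc
  have h4 := H.T.h4
  have hb := H.T.hb
  have hN := H.T.hN2
  obtain ⟨a0, ha0⟩ : ∃ z, z + 2 = 6 * k := ⟨6 * k - 2, by omega⟩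
  obtain ⟨b0, hb0⟩ : ∃ z, z + 7 = c := ⟨c - 7, by omega⟩
  obtain ⟨x0, hx0⟩ : ∃ z, z + 19 = 2 * n := ⟨2 * n - 19, by omega⟩
  obtain ⟨y0, hy0⟩ : ∃ z, z + 19 = 2 * n := ⟨2 * n - 19, by omega⟩
  refine check_sound hf (a0 := a0) (b0 := b0) (x0 := x0) (y0 := y0) vD4a_chk
    ⟨fun _ => by omega, fun h => absurd h (by decide), fun h => absurd h (by decide), by omega, by omega,
      by omega, by omega⟩ ?_ ?_
  · intro j m p q hr h
    obtain ⟨-, -, -, -, hp1, hp2, hq1, hq2⟩ := hr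
    replace h := of_decide_eq_true h
    rcases h with h | h | h | h | h | h | h | h | h | h | h | h | h | h | h | h | h | h
    · obtain ⟨rfl, rfl, h⟩ := h
      exact (WrapC.v0 H.a0 (by omega) (by omega) (by omega) (by omega) (by omega) (by omega) (by omega)).mpr (by omega)
    · obtain ⟨rfl, rfl, h⟩ := h
      exact (WrapC.v0 H.a2 (by omega) (by omega) (by omega) (by omega) (by omega) (by omega) (by omega)).mpr (by omega)
    · obtain ⟨rfl, rfl, h⟩ := h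
      exact (WrapC.v2 H.a6 (by omega) (by omega) (by omega) (by omega) (by omega) (by omega) (by omega)).mpr (by omega)
    · obtain ⟨rfl, rfl, h⟩ := h
      exact (WrapC.v2 H.b4 (by omega) (by omega) (by omega) (by omega) (by omega) (by omega) (by omega)).mpr (by omega)
    · obtain ⟨rfl, rfl, h⟩ := h
      exact (WrapC.v2 H.a0 (by omega) (by omega) (by omega) (by omega) (by omega) (by omega) (by omega)).mpr (by omega)
    · obtain ⟨rfl, rfl, h⟩ := h
      exact (WrapC.v2 H.b2 (by omega) (by omega) (by omega) (by omega) (by omega) (by omega) (by omega)).mpr (by omega)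
    · obtain ⟨rfl, rfl, h⟩ := h
      exact (NW.w3v H.b8 (by omega) (by omega) (by omega) (by omega) (by omega) (by omega) (by omega) (by omega)).mpr (by omega)
    · obtain ⟨rfl, rfl, h⟩ := h
      exact (NW.w2v H.b8 (by omega) (by omega) (by omega) (by omega) (by omega) (by omega) (by omega)).mpr (by omega)
    · obtain ⟨rfl, rfl, h⟩ := h
      exact (WrapC.v4 H.b6 (by omega) (by omega) (by omega) (by omega) (by omega) (by omega) (by omega)).mpr (by omega)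
    · obtain ⟨rfl, rfl, h⟩ := h
      exact (WrapC.v3 H.b4 (by omega) (by omega) (by omega) (by omega) (by omega) (by omega) (by omega) (by omega)).mpr (by omega)
    · obtain ⟨rfl, rfl, h⟩ := h
      exact (NW.w3v H.b10 (by omega) (by omega) (by omega) (by omega) (by omega) (by omega) (by omega) (by omega)).mpr (by omega)
    · obtain ⟨rfl, rfl, h⟩ := h
      exact (NW.w2v H.b10 (by omega) (by omega) (by omega) (by omega) (by omega) (by omega) (by omega)).mpr (by omega)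
    · obtain ⟨rfl, rfl, h⟩ := h
      exact (NW.w0v H.a8 (by omega) (by omega) (by omega) (by omega) (by omega) (by omega) (by omega)).mpr (by omega)
    · obtain ⟨rfl, rfl, h⟩ := h
      exact (WrapC.v1 H.a6 (by omega) (by omega) (by omega) (by omega) (by omega) (by omega) (by omega) (by omega)).mpr (by omega)
    · obtain ⟨rfl, rfl, h⟩ := h
      exact (WrapC.v0 H.a4 (by omega) (by omega) (by omega) (by omega) (by omega) (by omega) (by omega)).mpr (by omega)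
    · obtain ⟨rfl, rfl, h⟩ := h
      exact (WrapC.v3 H.a0 (by omega) (by omega) (by omega) (by omega) (by omega) (by omega) (by omega) (by omega)).mpr (by omega)
    · obtain ⟨rfl, rfl, h⟩ := h
      exact (WrapC.v1 H.a0 (by omega) (by omega) (by omega) (by omega) (by omega) (by omega) (by omega) (by omega)).mpr (by omega)
    · obtain ⟨rfl, rfl, h⟩ := h
      exact g2 (by omega) (by omega) (by omega) (by omega)
  · intro j m p q hr h
    obtain ⟨-, -, -, -, hp1, hp2, hq1, hq2⟩ := hr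
    replace h := of_decide_eq_true h
    rcases h with h | h | h | h | h | h | h | h | h | h | h | h | h | h | h
    · obtain ⟨rfl, rfl, h⟩ := h
      exact H.lw _ _ _ _ (by omega) (by omega) (by omega) (by omega) (by omega) (by omega)
    · obtain ⟨rfl, rfl, h⟩ := h
      exact H.lw _ _ _ _ (by omega) (by omega) (by omega) (by omega) (by omega) (by omega)
    · obtain ⟨rfl, rfl, h⟩ := h
      exact H.lw _ _ _ _ (by omega) (by omega) (by omega) (by omega) (by omega) (by omega)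
    · obtain ⟨rfl, rfl, h⟩ := h
      exact H.eo _ _ _ _ (by omega) (by omega) (by omega) (by omega) (by omega) (by omega) (by omega)
    · obtain ⟨rfl, rfl, h⟩ := h
      exact NW.rm1i hf H.T (p := 1) (j := 2) (by omega) (by omega) (by omega) (by omega) (by omega) (by omega) (by omega)
    · obtain ⟨rfl, rfl, h⟩ := h
      exact NW.rm1i hf H.T (p := 0) (j := 2) (by omega) (by omega) (by omega) (by omega) (by omega) (by omega) (by omega)
    · obtain ⟨rfl, rfl, h⟩ := h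
      exact H.lw _ _ _ _ (by omega) (by omega) (by omega) (by omega) (by omega) (by omega)
    · obtain ⟨rfl, rfl, h⟩ := h
      exact H.lw _ _ _ _ (by omega) (by omega) (by omega) (by omega) (by omega) (by omega)
    · obtain ⟨rfl, rfl, h⟩ := h
      exact H.eo _ _ _ _ (by omega) (by omega) (by omega) (by omega) (by omega) (by omega) (by omega)
    · obtain ⟨rfl, rfl, h⟩ := h
      exact NHT.pmi hf H.T (j := 1) (by omega) (by omega) (by omega) (by omega) (by omega) (by omega)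
    · obtain ⟨rfl, rfl, h⟩ := h
      exact NHT.rIn hf H.T (t := 2) (p := 0) (j := 1) (by omega) (by omega) (by omega) (by omega) (by omega) (by omega) (by omega) (by omega)
    · obtain ⟨rfl, rfl, h⟩ := h
      exact NW.rm1i hf H.T (p := 0) (j := 4) (by omega) (by omega) (by omega) (by omega) (by omega) (by omega) (by omega)
    · obtain ⟨rfl, rfl, h⟩ := h
      exact NHT.pmi hf H.T (j := 3) (by omega) (by omega) (by omega) (by omega) (by omega) (by omega)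
    · obtain ⟨rfl, rfl, h⟩ := h
      exact H.lw _ _ _ _ (by omega) (by omega) (by omega) (by omega) (by omega) (by omega)
    · obtain ⟨rfl, rfl, h⟩ := h
      exact g1 (by omega) (by omega) (by omega) (by omega)

end Pool.Agent.SNT.LRI
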