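import Pool.Agent.SNT.LVa
import Pool.Agent.SNT.LVb
import Pool.Agent.SNT.LVc
import Pool.Agent.SNT.LVd
import Pool.Agent.SNT.LVe
import Pool.Agent.SNT.LRE

set_option autoImplicit false

/-! The windows near the diagonal for the cells `v = 1` and `v = 4` of the wall (`c`, `n` of the period before). -/

namespace Pool.Agent.SNT.LRI

open Pool.Agent.SNT Pool.Agent.SNT.LW

variable {f : ℕ → ℕ → ℕ → ℕ → Prop} {k c n : ℕ}

/-- `D2`: the in-line `2 n - 5` of `6 k` in the row `c - 2` gives the out-line `2 n - 3` in the row `c` -/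
theorem winD2 (hf : Rule f) (H : LI f k c n)
    (P : f (6 * k + 4) (c - 2) (2 * n - 3) (2 * n - 10) ∨ f (6 * k + 4) (c - 2) (2 * n - 1) (2 * n - 8))
    (h : f (6 * k) (c - 2) (2 * n - 5) (2 * n - 12)) : f (6 * k) c (2 * n + 4) (2 * n - 3) := by
  have hN := H.T.hN2
  have hc := H.T.hc
  by_contra h0
  rcases P with g | g
  · exact vD2_1 hf H (fun e1 e2 e3 e4 => flexP h (by omega) (by omega) (by omega) (by omega))
      (fun e1 e2 e3 e4 => flexN h0 (by omega) (by omega) (by omega) (by omega))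
      (fun e1 e2 e3 e4 => flexP g (by omega) (by omega) (by omega) (by omega))
  · exact vD2_2 hf H (fun e1 e2 e3 e4 => flexP h (by omega) (by omega) (by omega) (by omega))
      (fun e1 e2 e3 e4 => flexN h0 (by omega) (by omega) (by omega) (by omega))
      (fun e1 e2 e3 e4 => flexP g (by omega) (by omega) (by omega) (by omega))

/-- `D3a`: no beam of the column `2 n - 3` in the row `c` -/
theorem winD3a (hf : Rule f) (H : LI f k c n) (hF2 : F2 f k c n) (hF6 : F6 f k c n)
    (h5 : ¬ f (6 * k) (c - 2) (2 * n - 5) (2 * n - 12)) (h7 : f (6 * k) (c - 2) (2 * n - 7) (2 * n - 14)) :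
    ¬ f (6 * k) c (2 * n - 3) (2 * n - 10) := by
  have hN := H.T.hN2
  have hc := H.T.hc
  intro h
  exact vD3a hf H hF2 hF6 (fun e1 e2 e3 e4 => flexP h7 (by omega) (by omega) (by omega) (by omega))
    (fun e1 e2 e3 e4 => flexN h5 (by omega) (by omega) (by omega) (by omega))
    (fun e1 e2 e3 e4 => flexP h (by omega) (by omega) (by omega) (by omega))

/-- `D3b`: the in-line `2 n - 7` gives the out-line `2 n - 5` -/
theorem winD3b (hf : Rule f) (H : LI f k c n) (hF2 : F2 f k c n) (hF6 : F6 f k c n)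
    (h7 : f (6 * k) (c - 2) (2 * n - 7) (2 * n - 14)) : f (6 * k) c (2 * n + 2) (2 * n - 5) := by
  have hN := H.T.hN2
  have hc := H.T.hc
  by_contra h
  exact vD3b hf H hF2 hF6 (fun e1 e2 e3 e4 => flexP h7 (by omega) (by omega) (by omega) (by omega))
    (fun e1 e2 e3 e4 => flexN h (by omega) (by omega) (by omega) (by omega))

/-- `D3c`: the out-line `2 n - 1` of `6 k` in the row `c + 4` is missing -/
theorem winD3c (hf : Rule f) (H : LI f k c n) (hF2 : F2 f k c n) (hF6 : F6 f k c n)
    (hZ : Cyc f (6 * k) (c - 2) (2 * (n - 3) + 2))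
    (P : f (6 * k + 4) (c - 2) (2 * n - 3) (2 * n - 10) ∨ f (6 * k + 4) (c - 2) (2 * n - 1) (2 * n - 8))
    (h5 : ¬ f (6 * k) (c - 2) (2 * n - 5) (2 * n - 12)) (h7 : f (6 * k) (c - 2) (2 * n - 7) (2 * n - 14)) :
    ¬ f (6 * k) (c + 4) (2 * n + 6) (2 * n - 1) := by
  have hN := H.T.hN2
  have hc := H.T.hc
  intro h
  rcases P with g | g
  · exact vD3c_1 hf H hF2 hF6 hZ (fun e1 e2 e3 e4 => flexP h7 (by omega) (by omega) (by omega) (by omega))
      (fun e1 e2 e3 e4 => flexN h5 (by omega) (by omega) (by omega) (by omega))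
      (fun e1 e2 e3 e4 => flexP h (by omega) (by omega) (by omega) (by omega))
      (fun e1 e2 e3 e4 => flexP g (by omega) (by omega) (by omega) (by omega))
  · exact vD3c_2 hf H hF2 hF6 hZ (fun e1 e2 e3 e4 => flexP h7 (by omega) (by omega) (by omega) (by omega))
      (fun e1 e2 e3 e4 => flexN h5 (by omega) (by omega) (by omega) (by omega))
      (fun e1 e2 e3 e4 => flexP h (by omega) (by omega) (by omega) (by omega))
      (fun e1 e2 e3 e4 => flexP g (by omega) (by omega) (by omega) (by omega))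

/-- `D4a`: the out-line `2 n - 7` of the row `c` gives the in-line `2 n - 9` of the row `c - 2` -/
theorem winD4a (hf : Rule f) (H : LI f k c n) (h : f (6 * k) c (2 * n) (2 * n - 7)) :
    f (6 * k) (c - 2) (2 * n - 9) (2 * n - 16) := by
  have hN := H.T.hN2
  have hc := H.T.hc
  by_contra h0
  exact vD4a hf H (fun e1 e2 e3 e4 => flexN h0 (by omega) (by omega) (by omega) (by omega))
    (fun e1 e2 e3 e4 => flexP h (by omega) (by omega) (by omega) (by omega))

end Pool.Agent.SNT.LRI
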