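import Pool.Agent.SNT.LRDef

set_option autoImplicit false
set_option linter.unusedVariables false
set_option synthInstance.maxSize 100000
set_option synthInstance.maxHeartbeats 4000000

/-! Windows near the diagonal. -/

namespace Pool.Agent.SNT.LRI

open Pool.Agent.SNT Pool.Agent.SNT.Loc Pool.Agent.SNT.LW Pool.Agent.SNT.NHZ

variable {f : ℕ → ℕ → ℕ → ℕ → Prop}

theorem vD3c8_chk : check 12 11 25 25 0 1 1 1 2
    (fun j n p q => decide ((j = 6 ∧ n = 1 ∧ ((((p = 9) ∨ (p = 11)) ∧ ((q = 6) ∨ (q = 8))) ∨ (((p = 13) ∨ (p = 15)) ∧ ((q = 8) ∨ (q = 10) ∨ (q = 12)))))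
      ∨ (j = 2 ∧ n = 3 ∧ ((p = 12 ∧ ((q = 3) ∨ (q = 5) ∨ (q = 7) ∨ (q = 9) ∨ (q = 11))) ∨ (((p = 14) ∨ (p = 16)) ∧ ((q = 9) ∨ (q = 11)))))
      ∨ (j = 4 ∧ n = 3 ∧ ((p = 11 ∧ q = 10) ∨ (((p = 13) ∨ (p = 15) ∨ (p = 17)) ∧ ((q = 10) ∨ (q = 12)))))
      ∨ (j = 4 ∧ n = 1 ∧ ((p = 8 ∧ ((q = 3) ∨ (q = 5) ∨ (q = 7))) ∨ (p = 10 ∧ ((q = 3) ∨ (q = 5) ∨ (q = 7) ∨ (q = 9)))))
      ∨ (j = 8 ∧ n = 3 ∧ ((((p = 11) ∨ (p = 13)) ∧ q = 10) ∨ (p = 15 ∧ ((q = 10) ∨ (q = 12) ∨ (q = 14)))))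
      ∨ (j = 2 ∧ n = 1 ∧ ((p = 7 ∧ q = 6) ∨ (((p = 9) ∨ (p = 11)) ∧ ((q = 6) ∨ (q = 8)))))
      ∨ (j = 2 ∧ n = 5 ∧ (((p = 15) ∨ (p = 17) ∨ (p = 19)) ∧ q = 14))
      ∨ (j = 2 ∧ n = 4 ∧ (p = 13 ∧ q = 13))
      ∨ (j = 10 ∧ n = 2 ∧ (p = 8 ∧ q = 8))
      ∨ (j = 10 ∧ n = 1 ∧ (p = 9 ∧ q = 8))
      ∨ (j = 8 ∧ n = 1 ∧ (p = 10 ∧ q = 7))
      ∨ (j = 6 ∧ n = 2 ∧ (p = 8 ∧ q = 8))
      ∨ (j = 12 ∧ n = 4 ∧ (p = 10 ∧ q = 10))
      ∨ (j = 12 ∧ n = 3 ∧ (p = 11 ∧ q = 8))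
      ∨ (j = 10 ∧ n = 3 ∧ (p = 12 ∧ q = 9))
      ∨ (j = 8 ∧ n = 4 ∧ (p = 16 ∧ q = 16))
      ∨ (j = 8 ∧ n = 2 ∧ (p = 9 ∧ q = 9))
      ∨ (j = 4 ∧ n = 2 ∧ (p = 9 ∧ q = 9))
      ∨ (j = 2 ∧ n = 2 ∧ (p = 10 ∧ q = 10))
      ∨ (j = 2 ∧ n = 3 ∧ (p = 8 ∧ q = 1))
      ∨ (j = 2 ∧ n = 9 ∧ (p = 23 ∧ q = 14))
      ∨ (j = 6 ∧ n = 3 ∧ (p = 14 ∧ q = 7))))
    (fun j n p q => decide ((j = 1 ∧ n = 6 ∧ ((p = 10 ∧ q = 9) ∨ (((p = 11) ∨ (p = 15)) ∧ q = 11) ∨ (p = 12 ∧ 11 ≤ q ∧ q ≤ 12) ∨ (((p = 13) ∨ (p = 17)) ∧ 11 ≤ q ∧ q ≤ 13) ∨ (p = 14 ∧ 12 ≤ q ∧ q ≤ 14) ∨ (p = 18 ∧ 12 ≤ q ∧ q ≤ 13)))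
      ∨ (j = 1 ∧ n = 4 ∧ ((((p = 8) ∨ (13 ≤ p ∧ p ≤ 14)) ∧ q = 8) ∨ (p = 9 ∧ 7 ≤ q ∧ q ≤ 9) ∨ (p = 10 ∧ 9 ≤ q ∧ q ≤ 10) ∨ (p = 11 ∧ 8 ≤ q ∧ q ≤ 11) ∨ (p = 12 ∧ ((q = 8) ∨ (q = 11))) ∨ (15 ≤ p ∧ p ≤ 16 ∧ q = 12)))
      ∨ (j = 1 ∧ n = 7 ∧ ((((11 ≤ p ∧ p ≤ 12) ∨ (p = 15)) ∧ q = 11) ∨ (((p = 13) ∨ (p = 17)) ∧ 11 ≤ q ∧ q ≤ 13) ∨ (p = 14 ∧ 12 ≤ q ∧ q ≤ 13) ∨ (p = 18 ∧ q = 12)))
      ∨ (j = 1 ∧ n = 5 ∧ ((p = 9 ∧ q = 7) ∨ (p = 10 ∧ q = 9) ∨ (p = 11 ∧ ((8 ≤ q ∧ q ≤ 9) ∨ (q = 11))) ∨ (p = 12 ∧ ((q = 8) ∨ (q = 11))) ∨ (p = 13 ∧ ((q = 8) ∨ (q = 13))) ∨ (p = 14 ∧ q = 8) ∨ (15 ≤ p ∧ p ≤ 16 ∧ q = 12)))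
      ∨ (j = 3 ∧ n = 5 ∧ ((10 ≤ p ∧ p ≤ 11 ∧ q = 8) ∨ (((p = 13) ∨ (p = 17)) ∧ ((q = 10) ∨ (q = 12))) ∨ (((p = 14) ∨ (p = 18)) ∧ q = 12) ∨ (p = 15 ∧ q = 10) ∨ (p = 16 ∧ q = 11)))
      ∨ (j = 3 ∧ n = 2 ∧ ((p = 8 ∧ 2 ≤ q ∧ q ≤ 5) ∨ (p = 9 ∧ ((q = 2) ∨ (4 ≤ q ∧ q ≤ 5))) ∨ (p = 10 ∧ 4 ≤ q ∧ q ≤ 5) ∨ (p = 11 ∧ q = 5)))
      ∨ (j = 1 ∧ n = 9 ∧ ((p = 13 ∧ q = 13) ∨ (((p = 15) ∨ (p = 17) ∨ (p = 19) ∨ (p = 21)) ∧ 13 ≤ q ∧ q ≤ 14)))
      ∨ (j = 1 ∧ n = 8 ∧ ((p = 13 ∧ q = 13) ∨ (((p = 15) ∨ (p = 17) ∨ (p = 19) ∨ (p = 21)) ∧ 13 ≤ q ∧ q ≤ 14)))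
      ∨ (j = 3 ∧ n = 7 ∧ ((((p = 15) ∨ (p = 19)) ∧ q = 12) ∨ (((p = 16) ∨ (p = 20)) ∧ 12 ≤ q ∧ q ≤ 14) ∨ (p = 18 ∧ q = 14)))
      ∨ (j = 1 ∧ n = 3 ∧ ((p = 8 ∧ ((5 ≤ q ∧ q ≤ 6) ∨ (q = 8))) ∨ (p = 9 ∧ q = 9) ∨ (p = 10 ∧ ((3 ≤ q ∧ q ≤ 4) ∨ (9 ≤ q ∧ q ≤ 10)))))
      ∨ (j = 3 ∧ n = 3 ∧ ((p = 8 ∧ ((q = 3) ∨ (q = 5) ∨ (q = 7))) ∨ (p = 10 ∧ q = 6) ∨ (p = 11 ∧ ((q = 6) ∨ (q = 8)))))
      ∨ (j = 2 ∧ n = 2 ∧ ((p = 8 ∧ ((q = 2) ∨ (q = 4))) ∨ (p = 9 ∧ q = 2) ∨ (p = 10 ∧ ((q = 3) ∨ (q = 5)))))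
      ∨ (j = 3 ∧ n = 6 ∧ ((11 ≤ p ∧ p ≤ 12 ∧ q = 10) ∨ (p = 18 ∧ q = 12) ∨ (p = 20 ∧ 12 ≤ q ∧ q ≤ 13)))
      ∨ (j = 6 ∧ n = 4 ∧ ((p = 13 ∧ 8 ≤ q ∧ q ≤ 9) ∨ (p = 16 ∧ q = 12) ∨ (p = 17 ∧ q = 14)))
      ∨ (j = 1 ∧ n = 2 ∧ ((p = 8 ∧ 5 ≤ q ∧ q ≤ 6) ∨ (p = 10 ∧ 3 ≤ q ∧ q ≤ 4)))
      ∨ (j = 7 ∧ n = 4 ∧ ((p = 13 ∧ 8 ≤ q ∧ q ≤ 9) ∨ (p = 17 ∧ q = 14)))
      ∨ (j = 2 ∧ n = 6 ∧ ((p = 18 ∧ q = 12) ∨ (p = 20 ∧ 12 ≤ q ∧ q ≤ 13)))
      ∨ (j = 7 ∧ n = 5 ∧ ((p = 16 ∧ q = 14) ∨ (p = 17 ∧ 14 ≤ q ∧ q ≤ 15)))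
      ∨ (j = 5 ∧ n = 5 ∧ (p = 17 ∧ ((10 ≤ q ∧ q ≤ 11) ∨ (q = 13))))
      ∨ (j = 4 ∧ n = 4 ∧ ((p = 11 ∧ q = 7) ∨ (12 ≤ p ∧ p ≤ 13 ∧ q = 9)))
      ∨ (j = 7 ∧ n = 4 ∧ ((p = 16 ∧ q = 14) ∨ (p = 17 ∧ q = 15)))
      ∨ (j = 6 ∧ n = 4 ∧ ((p = 16 ∧ q = 14) ∨ (p = 17 ∧ q = 15)))
      ∨ (j = 4 ∧ n = 5 ∧ (p = 17 ∧ ((q = 10) ∨ (q = 12))))
      ∨ (j = 5 ∧ n = 3 ∧ (p = 11 ∧ q = 8))
      ∨ (j = 7 ∧ n = 3 ∧ (p = 13 ∧ q = 8))
      ∨ (j = 5 ∧ n = 3 ∧ (p = 11 ∧ q = 9))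
      ∨ (j = 3 ∧ n = 5 ∧ (p = 17 ∧ q = 11))
      ∨ (j = 2 ∧ n = 3 ∧ (p = 10 ∧ q = 3))))
    1067
    0x1ebc031ec8002c42da240585317f80241212318c12241f00318d4a2558802691aa240585317f80241212318c122557802690aa318b03255680268faa22bc8322bd002402ba25480025551a255580256180268eaa26a6b2269a0e22bc8322bd002402ba254800268dba268e00269a00269a0e269a0421918322ca0022ca04268e8317e78017e784268d0e255503255580256180268eaa26a6b2268100268d00268d0e268d0425610e241c0325610025610417db0e268e8317db0017db0426b300268f00268f0e268f04317e83254a00254a0418000e26bf8318000018000426cc0026900026900e26900425930e244e0325930025930418190e26d88318190018190426e50026910026910e26910425ac0e31d48325ac0025ac0431c80e16e085244e80244e4231bc4231c80031c80431c88e31bc0331c88031c884241e0e318b03241e00241e04244d83245a00245a04318b8e318b03318b80318b84317f0e317e83317f00317f0424050e240483240500240504317e8316970016970416ba8e31a28316ba8016ba84158e8e31a283158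e80158e8424040e24038324040024040415820e31a28315820015820431960e241c0331960031960424030e22bc8322bd002402ba24030024030423f60e301e8323f60023f60421768322af8022af842ef10321760021760422c98e30368322c98022c98415430e301e8315430015430430368314168014168422bc0e2ef10322bc0022bc0413e48e2ed90313e48013e48415368e301e8315368015368413f10e2ed90313f10013f1042ef10312d00012d00412b88e2ed90312b88012b8842ef10e21a9032f23003c914a49fe8049ff0a3c78003c7801218f8021900a2ef1002ef104259f8e26f183259f80259f84254a8e241203254a80254a8449cf0e49e8053c6d8057564a3c6e0a49cf0049cf0430360e21900330360030360430118e2ed90330118030118425488e24100325488025488422c88e21900322c88022c8843c550e49d0033c55003c55042eda8e216d032eda802eda8417de0e26918317de0017de0449ff8e3c920349ff8049ff842ed98e216c032ed9802ed98422ca8e21918322ca8022ca8422e40022e40121918322d70022d70421948021dc80303ae23082e221938021c38021a01221c40a21928021aa802f00422f1842219e0e219183219e00219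e0421cf00217b002f3d4a2ef55221b600217a002f244a2ef452219d002179002f0b4a2ef352204b80203f80204b81203f812032002032011eec001ee0002c66522c4e4a1ed38e2c1c031eba802c355a1ed3801ed3842c580e2c64032c58002c58042ef18e204b832ef1802ef18420190e2c4e032019002019042c660e474e032c66002c6604475a0539df8054c84a39df814741004741041ef70e2c64031ef7001ef7041dbe8e1f10031dbe801dbe841dbe0e1f10031dbe001dbe042c1c032c28802c28842c640e39df032c64002c640439df83474d80474d842b2b8e39df032b2b802b2b842c650e1eeb852c66001ef81239e0522c65002c65043b250339df0039df043af48e39bc033af4803af4842c590e1ef8032c59002c590430460e21a00330460030460463878354c80054c804622983474180474184622983474e00474e047d110362290062290497df837d04007d040421780e203f832178002178042c658e1ef8032c65802c65841f05801eed802c7fd22c5bca2c5b0e97d3837cec007cf91a621100621d9247360047431a2c5b002c5b041f04801ed4801ed48e1ed4842c358e1ebc032c35802c35842f0b0e3c92032f0b002f0b042f248e4a19032f24802f2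48464dd0357560057560449e88e64dd0349e88049e8843c920e4a19033c92003c92044a0c0e3cab034a0c004a0c042ef40e3c6f032ef4002ef40422fc8e21c40322fc8022fc8439e00e475b0339e00039e0043cab034a18804a188464dd03561d80561d842f010e21a0032f01002f01041dbf0e2c7e831dbf001dbf042c7e0e1f10032c7e002c7e0456360063a3c254e40054f00062524a626a5254cb0054ef0062394a62695254b20054ee0062204aa535008a670087e8006fcc006fb3006f9a006f98006d0100549900526700524e00523500526600524d0062685252340052320039fe0039e50039fd0039e40039fc0039e300376400374b00373200374a0037310026920021ae0021ad0021ac001f16001efd001f15001efc001f14001efb001ee2001ec9001eb0001e95001c7d001c64001c7c001c63001c6200a68600a55900a5590e8a8b008a8b0e89200087f40087f40e711e006fd8006fd80e6fd7006fd70e6fd6006fd60e6fbd006fa4006fa40e6e52006d25006d250e64f50e64f48e64e80e63bc8e63bc0e63af8e564f0e564e8e56420e56410e54ed0054ed0e536a00528b00528b0e528a00528a0e52890052890e52720052720e52710052710e527000527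00e525700525600523e00523e0e523d004a180e4a178e475b0e475a8e3cab0e3caa0e3a3a003a3a0e3a39003a390e3a21003a210e3a20003a200e3a08003a080e3a07003a070e39ee00389c0037700037700e376f00376f0e376e00376e0e376d0037560037560e37550037550e37540031d50e31d48e31bc0e31a30e31a28e31a20e31958e309c0e30828e30368e302a0e2f4a0e2f3d8e2f3d0e2f3c8e2f308e2f238e2f180e2f0b8e2f0a8e2ef08e2ee40e2c7f8e2c7e8e2c720e2c598e2c588e2c578e2b458e2b390e2b2c8e2b2c0e2b2b0e2b200e2b1f8e2b1f0e2b1e8e26fe0026fe0e232e8e23150e21ea0e21d10021d10e21b80021b80e2066001f52001f520e1f51001f510e1f39001f390e1f38001f380e1f20001f200e1f1f001f1f0e1f1e001f1e0e1f1d001f1d0e1f1c001f1c0e1f030e1ee9001ee90e1dce001dcb8e1dca8e1dbd8e1db20e1db10e1ca1001ca10e1ca0001ca00e1c88001c880e1c87001c870e1c6e001c6e0e19778e19770e195e8e195e0e19458e19450e192c8e192c0e183f0e183e8e18260e18258e180d0e180c8e17f40e17f38e16e00e16d40e16d38e16ba0e16ae8e16ae0e16a18e16a10e16948e15a80e15a78e159b8e159b0e158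18e15760e15758e15690e15688e155c0e14560e14498e143b0e142e8e14238e14220e14160e14158e131d8e13110e13028e12f60e12eb0e12e98e12de0e12dd8e12dd0e12d10e12c40e11988e11960e11958e105d8e105d0ea6860fa5590f8a8b0f8a658789200f87f40f711e0f6fd80f6fd70f6fd60f6fbd0f6fa40f6fa3876f8b876e520f6d250f64f50764f48764e80763bc8763bc0763af87638787638707624e87576f87575587564f07564e87564207564107561a0756198754fd8754fc8754fb8754fa8754ed0f54e48754e18754cb8754c78754b28754af87536a0f528b0f528a0f52890f52720f52710f52700f52570f52560f523e0f523d0f4a19074a18074a1787475b07475a873cab873cab073caa873caa073c91873c90873c77873c62873c61873b3f073b32873b25073a3a0f3a390f3a210f3a200f3a080f3a070f39ee0f39ed8739ec8739d58739d38739d28739bb87389c0f37700f376f0f376e0f376d0f37560f37550f37540f31d50731d48731d40731c78731bc0731a30731a28731a207319587309c07309b87308287303687302a072f4a072f3d872f3d072f3c872f30872f23872f18072f0b872f0a872ef0872ee4072c7f872c7e872c72072c5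9872c58872c57872b45872b39072b38872b2c872b2c072b2b072b20072b1f872b1f072b1e8726fe0f26e48726cb8726b287269987268487268387268287268187268087245a87244187244087242887241287241187241087240f8723f78723f68723f587232e87232e0723150721ea0f21d10f21cf8721b80f21b78721b687219f87219e87219d87219c87218787218687218587218487218387216c87216b8721698720660f1f520f1f510f1f390f1f380f1f200f1f1f0f1f1e0f1f1d0f1f1c0f1f12871f11871f10871f0f871f03071efa871ef9871ef8871ef7871ef6871ee90f1ee1871ee0871ec8871ec7871eaf871eae871dce0f1dcb871dca871dbd871db2071db1071ca10f1ca00f1c880f1c870f1c6e0f197787197707195e87195e07194587194507192c87192c07191307183f07183e87182607182587180d07180c8717f40717f38717da8716e00716d40716d38716d30716ba0716ae8716ae0716a20716a18716a10716948716880715a80715a787159b87159b07159a87158187157687157607157587156987156907156887155c87155c07154f87154207145607144987143b07143107142e8714238714220714170714160714158714098713fc07131d8713110713028712f60712eb0712e98712de8712de0712dd8712dd0712d18712d10712c48712c40712c38712b787119907119887119607119587118c07117f07117e07117d87105d87105d07104587104507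 = true := by
  decide +kernel

theorem vD3c8 (hf : Rule f) {k c n : ℕ} (H : LI f k c n) (hF2 : F2 f k c n) (hF6 : F6 f k c n) (hZ : Cyc f (6 * k) (c - 2) (2 * (n - 3) + 2))
    (g1 : ∀ {M R x y : ℕ}, M = 6 * k + 0 → R + 2 = c → x + 7 = 2 * n → y + 14 = 2 * n → f M R x y)
    (g2 : ∀ {M R x y : ℕ}, M = 6 * k + 0 → R + 2 = c → x + 5 = 2 * n → y + 12 = 2 * n → ¬ f M R x y)
    (g3 : ∀ {M R x y : ℕ}, M = 6 * k + 0 → R = c + 4 → x = 2 * n + 8 → y + 1 = 2 * n → f M R x y)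
    (g4 : ∀ {M R x y : ℕ}, M = 6 * k + 4 → R + 2 = c → x + 1 = 2 * n → y + 8 = 2 * n → f M R x y) : False := by
  have hk := H.T.hk
  have hc := H.T.hc
  have h4 := H.T.h4
  have hb := H.T.hb
  have hN := H.T.hN2
  obtain ⟨a0, ha0⟩ : ∃ z, z + 2 = 6 * k := ⟨6 * k - 2, by omega⟩
  obtain ⟨b0, hb0⟩ : ∃ z, z + 5 = c := ⟨c - 5, by omega⟩
  obtain ⟨x0, hx0⟩ : ∃ z, z + 15 = 2 * n := ⟨2 * n - 15, by omega⟩
  obtain ⟨y0, hy0⟩ : ∃ z, z + 15 = 2 * n := ⟨2 * n - 15, by omega⟩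
  refine check_sound hf (a0 := a0) (b0 := b0) (x0 := x0) (y0 := y0) vD3c8_chk
    ⟨fun _ => by omega, fun h => absurd h (by decide), fun h => absurd h (by decide), by omega, by omega,
      by omega, by omega⟩ ?_ ?_
  · intro j m p q hr h
    obtain ⟨-, -, -, -, hp1, hp2, hq1, hq2⟩ := hr
    replace h := of_decide_eq_true h
    rcases h with h | h | h | h | h | h | h | h | h | h | h | h | h | h | h | h | h | h | h | h | h | h
    · obtain ⟨rfl, rfl, h⟩ := h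
      exact (WrapC.v2 H.b4 (by omega) (by omega) (by omega) (by omega) (by omega) (by omega) (by omega)).mpr (by omega)
    · obtain ⟨rfl, rfl, h⟩ := h
      exact (WrapC.v0 hZ (by omega) (by omega) (by omega) (by omega) (by omega) (by omega) (by omega)).mpr (by omega)
    · obtain ⟨rfl, rfl, h⟩ := h
      exact (WrapC.v2 H.a2 (by omega) (by omega) (by omega) (by omega) (by omega) (by omega) (by omega)).mpr (by omega)
    · obtain ⟨rfl, rfl, h⟩ := h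
      exact (WrapC.v0 H.a2 (by omega) (by omega) (by omega) (by omega) (by omega) (by omega) (by omega)).mpr (by omega)
    · obtain ⟨rfl, rfl, h⟩ := h
      exact (WrapC.v2 H.a6 (by omega) (by omega) (by omega) (by omega) (by omega) (by omega) (by omega)).mpr (by omega)
    · obtain ⟨rfl, rfl, h⟩ := h
      exact (WrapC.v2 H.a0 (by omega) (by omega) (by omega) (by omega) (by omega) (by omega) (by omega)).mpr (by omega)
    · obtain ⟨rfl, rfl, h⟩ := h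
      exact (WrapC.v2 hZ (by omega) (by omega) (by omega) (by omega) (by omega) (by omega) (by omega)).mpr (by omega)
    · obtain ⟨rfl, rfl, h⟩ := h
      exact (WrapC.v1 hZ (by omega) (by omega) (by omega) (by omega) (by omega) (by omega) (by omega) (by omega)).mpr (by omega)
    · obtain ⟨rfl, rfl, h⟩ := h
      exact (NW.w3v H.b8 (by omega) (by omega) (by omega) (by omega) (by omega) (by omega) (by omega) (by omega)).mpr (by omega)
    · obtain ⟨rfl, rfl, h⟩ := h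
      exact (NW.w2v H.b8 (by omega) (by omega) (by omega) (by omega) (by omega) (by omega) (by omega)).mpr (by omega)
    · obtain ⟨rfl, rfl, h⟩ := h
      exact (WrapC.v4 H.b6 (by omega) (by omega) (by omega) (by omega) (by omega) (by omega) (by omega)).mpr (by omega)
    · obtain ⟨rfl, rfl, h⟩ := h
      exact (WrapC.v3 H.b4 (by omega) (by omega) (by omega) (by omega) (by omega) (by omega) (by omega) (by omega)).mpr (by omega)
    · obtain ⟨rfl, rfl, h⟩ := h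
      exact (NW.w3v H.b10 (by omega) (by omega) (by omega) (by omega) (by omega) (by omega) (by omega) (by omega)).mpr (by omega)
    · obtain ⟨rfl, rfl, h⟩ := h
      exact (NW.w2v H.b10 (by omega) (by omega) (by omega) (by omega) (by omega) (by omega) (by omega)).mpr (by omega)
    · obtain ⟨rfl, rfl, h⟩ := h
      exact (NW.w0v H.a8 (by omega) (by omega) (by omega) (by omega) (by omega) (by omega) (by omega)).mpr (by omega)
    · obtain ⟨rfl, rfl, h⟩ := h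
      exact (WrapC.v3 H.a6 (by omega) (by omega) (by omega) (by omega) (by omega) (by omega) (by omega) (by omega)).mpr (by omega)
    · obtain ⟨rfl, rfl, h⟩ := h
      exact (WrapC.v1 H.a6 (by omega) (by omega) (by omega) (by omega) (by omega) (by omega) (by omega) (by omega)).mpr (by omega)
    · obtain ⟨rfl, rfl, h⟩ := h
      exact (WrapC.v1 H.a2 (by omega) (by omega) (by omega) (by omega) (by omega) (by omega) (by omega) (by omega)).mpr (by omega)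
    · obtain ⟨rfl, rfl, h⟩ := h
      exact (WrapC.v3 H.a0 (by omega) (by omega) (by omega) (by omega) (by omega) (by omega) (by omega) (by omega)).mpr (by omega)
    · obtain ⟨rfl, rfl, h⟩ := h
      exact g1 (by omega) (by omega) (by omega) (by omega)
    · obtain ⟨rfl, rfl, h⟩ := h
      exact g3 (by omega) (by omega) (by omega) (by omega)
    · obtain ⟨rfl, rfl, h⟩ := h
      exact g4 (by omega) (by omega) (by omega) (by omega)
  · intro j m p q hr h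
    obtain ⟨-, -, -, -, hp1, hp2, hq1, hq2⟩ := hr
    replace h := of_decide_eq_true h
    rcases h with h | h | h | h | h | h | h | h | h | h | h | h | h | h | h | h | h | h | h | h | h | h | h | h | h | h | h | h
    · obtain ⟨rfl, rfl, h⟩ := h
      exact H.lw _ _ _ _ (by omega) (by omega) (by omega) (by omega) (by omega) (by omega)
    · obtain ⟨rfl, rfl, h⟩ := h
      exact H.lw _ _ _ _ (by omega) (by omega) (by omega) (by omega) (by omega) (by omega)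
    · obtain ⟨rfl, rfl, h⟩ := h
      exact H.lw _ _ _ _ (by omega) (by omega) (by omega) (by omega) (by omega) (by omega)
    · obtain ⟨rfl, rfl, h⟩ := h
      exact H.lw _ _ _ _ (by omega) (by omega) (by omega) (by omega) (by omega) (by omega)
    · obtain ⟨rfl, rfl, h⟩ := h
      exact H.eo _ _ _ _ (by omega) (by omega) (by omega) (by omega) (by omega) (by omega) (by omega)
    · obtain ⟨rfl, rfl, h⟩ := h
      exact H.eo _ _ _ _ (by omega) (by omega) (by omega) (by omega) (by omega) (by omega) (by omega)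
    · obtain ⟨rfl, rfl, h⟩ := h
      exact H.lw _ _ _ _ (by omega) (by omega) (by omega) (by omega) (by omega) (by omega)
    · obtain ⟨rfl, rfl, h⟩ := h
      exact H.lw _ _ _ _ (by omega) (by omega) (by omega) (by omega) (by omega) (by omega)
    · obtain ⟨rfl, rfl, h⟩ := h
      exact H.eo _ _ _ _ (by omega) (by omega) (by omega) (by omega) (by omega) (by omega) (by omega)
    · obtain ⟨rfl, rfl, h⟩ := h
      exact H.lw _ _ _ _ (by omega) (by omega) (by omega) (by omega) (by omega) (by omega)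
    · obtain ⟨rfl, rfl, h⟩ := h
      exact H.eo _ _ _ _ (by omega) (by omega) (by omega) (by omega) (by omega) (by omega) (by omega)
    · obtain ⟨rfl, rfl, h⟩ := h
      exact NHT.rIn hf H.T (t := 3) (p := 0) (j := 3) (by omega) (by omega) (by omega) (by omega) (by omega) (by omega) (by omega) (by omega)
    · obtain ⟨rfl, rfl, h⟩ := h
      exact H.eo _ _ _ _ (by omega) (by omega) (by omega) (by omega) (by omega) (by omega) (by omega)
    · obtain ⟨rfl, rfl, h⟩ := h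
      exact NW.rm1i hf H.T (p := 0) (j := 2) (by omega) (by omega) (by omega) (by omega) (by omega) (by omega) (by omega)
    · obtain ⟨rfl, rfl, h⟩ := h
      exact H.lw _ _ _ _ (by omega) (by omega) (by omega) (by omega) (by omega) (by omega)
    · obtain ⟨rfl, rfl, h⟩ := h
      exact NW.rm1i hf H.T (p := 1) (j := 2) (by omega) (by omega) (by omega) (by omega) (by omega) (by omega) (by omega)
    · obtain ⟨rfl, rfl, h⟩ := h
      exact NW.r1i hf H.T (p := 0) (j := 5) (by omega) (by omega) (by omega) (by omega) (by omega) (by omega) (by omega)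
    · obtain ⟨rfl, rfl, h⟩ := h
      exact NHT.pOut hf H.T (t := 4) (j := 1) (by omega) (by omega) (by omega) (by omega) (by omega) (by omega) (by omega)
    · obtain ⟨rfl, rfl, h⟩ := h
      exact NHT.p0i hf H.T (j := 3) (by omega) (by omega) (by omega) (by omega) (by omega) (by omega)
    · obtain ⟨rfl, rfl, h⟩ := h
      exact zrx hf H (p := 2) (by omega) (by omega) (by omega) (by omega) (by omega) (by omega) (by omega) (by omega) (by omega)
    · obtain ⟨rfl, rfl, h⟩ := h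
      exact NW.rm1 hf H.T (p := 1) (j := 1) (by omega) (by omega) (by omega) (by omega) (by omega) (by omega) (by omega)
    · obtain ⟨rfl, rfl, h⟩ := h
      exact NW.rm1 hf H.T (p := 0) (j := 1) (by omega) (by omega) (by omega) (by omega) (by omega) (by omega) (by omega)
    · obtain ⟨rfl, rfl, h⟩ := h
      exact hF2 _ _ _ _ (by omega) (by omega) (by omega) (by omega) (by omega) (by omega)
    · obtain ⟨rfl, rfl, h⟩ := h
      exact NHT.pmi hf H.T (j := 2) (by omega) (by omega) (by omega) (by omega) (by omega) (by omega)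
    · obtain ⟨rfl, rfl, h⟩ := h
      exact NHT.pmi hf H.T (j := 1) (by omega) (by omega) (by omega) (by omega) (by omega) (by omega)
    · obtain ⟨rfl, rfl, h⟩ := h
      exact NHT.pm hf H.T (j := 1) (by omega) (by omega) (by omega) (by omega) (by omega) (by omega)
    · obtain ⟨rfl, rfl, h⟩ := h
      exact NHT.p0i hf H.T (j := 4) (by omega) (by omega) (by omega) (by omega) (by omega) (by omega)
    · obtain ⟨rfl, rfl, h⟩ := h
      exact g2 (by omega) (by omega) (by omega) (by omega)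

end Pool.Agent.SNT.LRI
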