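import Pool.Agent.SNT.ZbL
import Pool.Agent.SNT.PL
import Pool.Agent.SNT.WrapC

set_option autoImplicit false
set_option synthInstance.maxSize 100000
set_option synthInstance.maxHeartbeats 4000000

/-! Transports along the row lines `y = 2 n + 1, 2 n + 3, 2 n + 5` of the rows `c + 2`, `c + 4` in the middle of the strip
(helper13, core miner of helper57). -/

namespace Pool.Agent.SNT.TrR

open Pool.Agent.SNT Pool.Agent.SNT.Sig Pool.Agent.SNT.Loc Pool.Agent.SNT.LW Pool.Agent.SNT.NHZ Pool.Agent.SNT.DRun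
open Pool.Agent.SNT.PB Pool.Agent.SNT.Zb

variable {f : ℕ → ℕ → ℕ → ℕ → Prop}

/-- the row `c + 3` -/
theorem r3 (hf : Rule f) {k c N : ℕ} (h : NHT f k c N) {L R p j x y : ℕ} (hj : j ≤ 5) (hp : p ≤ 1)
    (hL : L + 2 * j = 6 * k + 10 + p) (hR : R = c + 3) (hy : N + 5 ≤ y) (h1 : y + 1 + j ≤ x) (h2 : x + 2 + j ≤ y + 2 * k) :
    ¬ f L R x y :=
  h.O.after hf (t := 5) (s := 5 - j) (j := j) (p := p) (q := 1) le_rfl (by omega) hp le_rfl (by omega) (by omega)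
    (by have := h.hb; omega) (by unfold Yf; rw [if_neg (by omega)]; omega) h1 h2

theorem st_jr_chk : check 12 9 13 13 0 1 1 0 0
    (fun j n p q => decide ((j = 6 ∧ n = 5 ∧ p = 5 ∧ q = 7)))
    (fun j n p q => decide ((j = 5 ∧ n = 5 ∧ 5 ≤ p ∧ p ≤ 8 ∧ q = 6 ∧ p % 2 = 0)
      ∨ (j = 5 ∧ n = 5 ∧ 5 ≤ p ∧ p ≤ 7 ∧ q = 6 ∧ p % 2 = 1)
      ∨ (j = 5 ∧ n = 5 ∧ 5 ≤ p ∧ p ≤ 9 ∧ q = 7)
      ∨ (j = 7 ∧ n = 5 ∧ 8 ≤ q ∧ q ≤ p + 6 ∧ p ≤ q + 7)
      ∨ (j = 5 ∧ n = 4 ∧ 3 ≤ q ∧ q ≤ p + 5 ∧ p ≤ q + 6)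
      ∨ (j = 6 ∧ n = 4 ∧ 3 ≤ q ∧ q ≤ p + 6 ∧ p ≤ q + 7)
      ∨ (j = 7 ∧ n = 4 ∧ 3 ≤ q ∧ q ≤ p + 6 ∧ p ≤ q + 7)
      ∨ (j = 6 ∧ n = 5 ∧ p = 7 ∧ q = 7)))
    29
    0x16a30513a38016a38a13aa9a139d8016a387169d07164f07164e8716488716480713ab0713aa8713aa07139d8f135687135607135587135007134f87134f0710b20710b18710ab8710ab07105d87105d07105707105687 = true := by
  decide +kernel

/-- (j) `6 k + 4`, row `c + 2`, line `2 n + 3`, to the right, one step -/
theorem st_jr (hf : Rule f) {k c n s : ℕ} (H : ZBH f k c n) (hs : s % 2 = 0) (h1 : 2 * n + 10 ≤ s) (h2 : s + 10 ≤ 2 * n + 2 * k)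
    (g1 : f (6 * k + 4) (c + 2) s (2 * n + 3)) (g2 : ¬ f (6 * k + 4) (c + 2) (s + 2) (2 * n + 3)) : False := by
  have hk := H.T.hk
  have hc := H.T.hc
  have h4' := H.T.h4
  have hb := H.T.hb
  have hN := H.T.hN2
  obtain ⟨a0, ha0⟩ : ∃ z, z + 2 = 6 * k := ⟨6 * k - 2, by omega⟩
  obtain ⟨b0, hb0⟩ : ∃ z, z + 3 = c := ⟨c - 3, by omega⟩
  obtain ⟨x0, hx0⟩ : ∃ z, z + 5 = s := ⟨s - 5, by omega⟩
  obtain ⟨y0, hy0⟩ : ∃ z, z + 4 = 2 * n := ⟨2 * n - 4, by omega⟩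
  refine check_sound hf (a0 := a0) (b0 := b0) (x0 := x0) (y0 := y0) st_jr_chk
    ⟨fun h => absurd h (by decide), fun h => absurd h (by decide), fun h => absurd h (by decide), by omega, by omega,
      by omega, by omega⟩ ?_ ?_
  · intro j m p q hr h
    obtain ⟨-, -, -, -, hp1, hp2, hq1, hq2⟩ := hr
    replace h := of_decide_eq_true h
    obtain ⟨rfl, rfl, rfl, rfl⟩ := h
    exact mv g1 (by omega) (by omega) (by omega) (by omega)
  · intro j m p q hr h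
    obtain ⟨-, -, -, -, hp1, hp2, hq1, hq2⟩ := hr
    replace h := of_decide_eq_true h
    rcases h with h | h | h | h | h | h | h | h
    · obtain ⟨rfl, rfl, h⟩ := h
      exact fun t => H.p3_2 hf (x := x0 + p) (by omega) (by omega) (by omega) (mv t (by omega) (by omega) rfl (by omega))
    · obtain ⟨rfl, rfl, h⟩ := h
      exact fun t => H.p3_2e hf (x := x0 + p) (by omega) (by omega) (by omega) (mv t (by omega) (by omega) rfl (by omega))
    · obtain ⟨rfl, rfl, h⟩ := h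
      exact fun t => H.p3_3' hf (x := x0 + p) (by omega) (by omega) (mv t (by omega) (by omega) rfl (by omega))
    · obtain ⟨rfl, rfl, h⟩ := h
      exact NHT.p2 hf H.T (j := 2) (by omega) (by omega) (by omega) (by omega) (by omega) (by omega)
    · obtain ⟨rfl, rfl, h⟩ := h
      exact NHT.rOut hf H.T (t := 4) (p := 1) (j := 3) (by omega) (by omega) (by omega) (by omega) (by omega) (by omega) (by omega) (by omega)
    · obtain ⟨rfl, rfl, h⟩ := h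
      exact NHT.rOut hf H.T (t := 4) (p := 0) (j := 2) (by omega) (by omega) (by omega) (by omega) (by omega) (by omega) (by omega) (by omega)
    · obtain ⟨rfl, rfl, h⟩ := h
      exact NHT.rOut hf H.T (t := 4) (p := 1) (j := 2) (by omega) (by omega) (by omega) (by omega) (by omega) (by omega) (by omega) (by omega)
    · obtain ⟨rfl, rfl, rfl, rfl⟩ := h
      exact fun t => g2 (mv t (by omega) (by omega) (by omega) (by omega))

theorem st_jl_chk : check 12 9 13 13 0 1 1 0 0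
    (fun j n p q => decide ((j = 6 ∧ n = 5 ∧ p = 7 ∧ q = 7)))
    (fun j n p q => decide ((j = 5 ∧ n = 5 ∧ 5 ≤ p ∧ p ≤ 6 ∧ q = 6 ∧ p % 2 = 0)
      ∨ (j = 5 ∧ n = 5 ∧ 5 ≤ p ∧ p ≤ 5 ∧ q = 6 ∧ p % 2 = 1)
      ∨ (j = 5 ∧ n = 5 ∧ 5 ≤ p ∧ p ≤ 7 ∧ q = 7)
      ∨ (j = 5 ∧ n = 4 ∧ 3 ≤ q ∧ q ≤ p + 5 ∧ p ≤ q + 4)
      ∨ (j = 6 ∧ n = 4 ∧ 3 ≤ q ∧ q ≤ p + 6 ∧ p ≤ q + 5)
      ∨ (j = 6 ∧ n = 5 ∧ p = 5 ∧ q = 7)))
    17
    0x13a40313aa8013aa8f139d87139d07134f87134f0713490713488710ab8710ab0710a50710a487105707105687105087105007 = true := by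
  decide +kernel

/-- (j) `6 k + 4`, row `c + 2`, line `2 n + 3`, to the left, one step -/
theorem st_jl (hf : Rule f) {k c n s : ℕ} (H : ZBH f k c n) (hs : s % 2 = 0) (h1 : 2 * n + 10 ≤ s) (h2 : s + 8 ≤ 2 * n + 2 * k)
    (g1 : f (6 * k + 4) (c + 2) (s + 2) (2 * n + 3)) (g2 : ¬ f (6 * k + 4) (c + 2) s (2 * n + 3)) : False := by
  have hk := H.T.hk
  have hc := H.T.hc
  have h4' := H.T.h4
  have hb := H.T.hb
  have hN := H.T.hN2
  obtain ⟨a0, ha0⟩ : ∃ z, z + 2 = 6 * k := ⟨6 * k - 2, by omega⟩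
  obtain ⟨b0, hb0⟩ : ∃ z, z + 3 = c := ⟨c - 3, by omega⟩
  obtain ⟨x0, hx0⟩ : ∃ z, z + 5 = s := ⟨s - 5, by omega⟩
  obtain ⟨y0, hy0⟩ : ∃ z, z + 4 = 2 * n := ⟨2 * n - 4, by omega⟩
  refine check_sound hf (a0 := a0) (b0 := b0) (x0 := x0) (y0 := y0) st_jl_chk
    ⟨fun h => absurd h (by decide), fun h => absurd h (by decide), fun h => absurd h (by decide), by omega, by omega,
      by omega, by omega⟩ ?_ ?_
  · intro j m p q hr h
    obtain ⟨-, -, -, -, hp1, hp2, hq1, hq2⟩ := hr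
    replace h := of_decide_eq_true h
    obtain ⟨rfl, rfl, rfl, rfl⟩ := h
    exact mv g1 (by omega) (by omega) (by omega) (by omega)
  · intro j m p q hr h
    obtain ⟨-, -, -, -, hp1, hp2, hq1, hq2⟩ := hr
    replace h := of_decide_eq_true h
    rcases h with h | h | h | h | h | h
    · obtain ⟨rfl, rfl, h⟩ := h
      exact fun t => H.p3_2 hf (x := x0 + p) (by omega) (by omega) (by omega) (mv t (by omega) (by omega) rfl (by omega))
    · obtain ⟨rfl, rfl, h⟩ := h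
      exact fun t => H.p3_2e hf (x := x0 + p) (by omega) (by omega) (by omega) (mv t (by omega) (by omega) rfl (by omega))
    · obtain ⟨rfl, rfl, h⟩ := h
      exact fun t => H.p3_3' hf (x := x0 + p) (by omega) (by omega) (mv t (by omega) (by omega) rfl (by omega))
    · obtain ⟨rfl, rfl, h⟩ := h
      exact NHT.rOut hf H.T (t := 4) (p := 1) (j := 3) (by omega) (by omega) (by omega) (by omega) (by omega) (by omega) (by omega) (by omega)
    · obtain ⟨rfl, rfl, h⟩ := h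
      exact NHT.rOut hf H.T (t := 4) (p := 0) (j := 2) (by omega) (by omega) (by omega) (by omega) (by omega) (by omega) (by omega) (by omega)
    · obtain ⟨rfl, rfl, rfl, rfl⟩ := h
      exact fun t => g2 (mv t (by omega) (by omega) (by omega) (by omega))

theorem st_ir_chk : check 12 9 13 13 0 1 1 0 0
    (fun j n p q => decide ((j = 4 ∧ n = 5 ∧ p = 5 ∧ q = 7)))
    (fun j n p q => decide ((j = 5 ∧ n = 5 ∧ 7 ≤ p ∧ p ≤ 8 ∧ q = 7)
      ∨ (j = 5 ∧ n = 5 ∧ 7 ≤ p ∧ p ≤ 7 ∧ q = 8 ∧ p % 2 = 1)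
      ∨ (j = 4 ∧ n = 4 ∧ 5 ≤ q ∧ q ≤ p + 5 ∧ p ≤ q + 4)
      ∨ (j = 5 ∧ n = 4 ∧ 5 ≤ q ∧ q ≤ p + 5 ∧ p ≤ q + 4)
      ∨ (j = 4 ∧ n = 5 ∧ p = 7 ∧ q = 7)))
    15
    0x10b2830dac8010b28710b207105e07105d871057871057070dba070db9870dac8f0d65870d65070d5f070d5e87 = true := by
  decide +kernel

/-- (i) `6 k + 2`, row `c + 2`, line `2 n + 1`, to the right, one step -/
theorem st_ir (hf : Rule f) {k c n s : ℕ} (H : ZBH f k c n) (hs : s % 2 = 0) (h1 : 2 * n + 8 ≤ s) (h2 : s + 10 ≤ 2 * n + 2 * k)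
    (g1 : f (6 * k + 2) (c + 2) s (2 * n + 1)) (g2 : ¬ f (6 * k + 2) (c + 2) (s + 2) (2 * n + 1)) : False := by
  have hk := H.T.hk
  have hc := H.T.hc
  have h4' := H.T.h4
  have hb := H.T.hb
  have hN := H.T.hN2
  obtain ⟨a0, ha0⟩ : ∃ z, z + 2 = 6 * k := ⟨6 * k - 2, by omega⟩
  obtain ⟨b0, hb0⟩ : ∃ z, z + 3 = c := ⟨c - 3, by omega⟩
  obtain ⟨x0, hx0⟩ : ∃ z, z + 5 = s := ⟨s - 5, by omega⟩
  obtain ⟨y0, hy0⟩ : ∃ z, z + 6 = 2 * n := ⟨2 * n - 6, by omega⟩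
  refine check_sound hf (a0 := a0) (b0 := b0) (x0 := x0) (y0 := y0) st_ir_chk
    ⟨fun h => absurd h (by decide), fun h => absurd h (by decide), fun h => absurd h (by decide), by omega, by omega,
      by omega, by omega⟩ ?_ ?_
  · intro j m p q hr h
    obtain ⟨-, -, -, -, hp1, hp2, hq1, hq2⟩ := hr
    replace h := of_decide_eq_true h
    obtain ⟨rfl, rfl, rfl, rfl⟩ := h
    exact mv g1 (by omega) (by omega) (by omega) (by omega)
  · intro j m p q hr h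
    obtain ⟨-, -, -, -, hp1, hp2, hq1, hq2⟩ := hr
    replace h := of_decide_eq_true h
    rcases h with h | h | h | h | h
    · obtain ⟨rfl, rfl, h⟩ := h
      exact fun t => H.p3_1 hf (x := x0 + p) (by omega) (by omega) (mv t (by omega) (by omega) rfl (by omega))
    · obtain ⟨rfl, rfl, h⟩ := h
      exact fun t => H.p3_2e hf (x := x0 + p) (by omega) (by omega) (by omega) (mv t (by omega) (by omega) rfl (by omega))
    · obtain ⟨rfl, rfl, h⟩ := h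
      exact NHT.rOut hf H.T (t := 4) (p := 0) (j := 3) (by omega) (by omega) (by omega) (by omega) (by omega) (by omega) (by omega) (by omega)
    · obtain ⟨rfl, rfl, h⟩ := h
      exact NHT.rOut hf H.T (t := 4) (p := 1) (j := 3) (by omega) (by omega) (by omega) (by omega) (by omega) (by omega) (by omega) (by omega)
    · obtain ⟨rfl, rfl, rfl, rfl⟩ := h
      exact fun t => g2 (mv t (by omega) (by omega) (by omega) (by omega))

theorem st_il_chk : check 12 9 13 13 0 1 1 0 0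
    (fun j n p q => decide ((j = 4 ∧ n = 5 ∧ p = 7 ∧ q = 7)))
    (fun j n p q => decide ((j = 3 ∧ n = 5 ∧ 6 ≤ q ∧ q ≤ p + 3 ∧ p + 2 ≤ q ∧ ¬ (p % 2 = 1 ∧ q % 2 = 0))
      ∨ (j = 1 ∧ n = 4 ∧ q ≤ p + 9 ∧ p ≤ q + 5)
      ∨ (j = 1 ∧ n = 5 ∧ q ≤ p + 9 ∧ p ≤ q + 5)
      ∨ (j = 4 ∧ n = 5 ∧ 6 ≤ p ∧ p ≤ 6 ∧ q = 10 ∧ p % 2 = 0)
      ∨ (j = 5 ∧ n = 5 ∧ 10 ≤ q ∧ q ≤ p + 5 ∧ p ≤ q + 0)
      ∨ (j = 2 ∧ n = 4 ∧ 5 ≤ q ∧ q ≤ p + 4 ∧ p + 1 ≤ q)
      ∨ (j = 3 ∧ n = 4 ∧ 5 ≤ q ∧ q ≤ p + 4 ∧ p + 1 ≤ q)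
      ∨ (j = 4 ∧ n = 4 ∧ 5 ≤ q ∧ q ≤ p + 5 ∧ p ≤ q + 0)
      ∨ (j = 5 ∧ n = 4 ∧ 5 ≤ q ∧ q ≤ p + 5 ∧ p ≤ q + 0)
      ∨ (j = 4 ∧ n = 5 ∧ p = 5 ∧ q = 7)))
    51
    0x7bb830ab4800db3d210b3830db3800db3840ab3800db35a0db98010b38710ad07105f07105e871058871058070dbb070db98f0db4870dad070dac870dac070d66870d66070d60070d5f870d5f070d5e870d5e070d58870d58070d57870abb070ab4070a66870a66070a60070a5f870a5f0707bb0707670707668707608707600704c30704c28704bc8704bc07046e87046e07046807046787 = true := by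
  decide +kernel

/-- (i) `6 k + 2`, row `c + 2`, line `2 n + 1`, to the left, one step -/
theorem st_il (hf : Rule f) {k c n s : ℕ} (H : ZBH f k c n) (hs : s % 2 = 0) (h1 : 2 * n + 8 ≤ s) (h2 : s + 6 ≤ 2 * n + 2 * k)
    (g1 : f (6 * k + 2) (c + 2) (s + 2) (2 * n + 1)) (g2 : ¬ f (6 * k + 2) (c + 2) s (2 * n + 1)) : False := by
  have hk := H.T.hk
  have hc := H.T.hc
  have h4' := H.T.h4
  have hb := H.T.hb
  have hN := H.T.hN2
  obtain ⟨a0, ha0⟩ : ∃ z, z + 2 = 6 * k := ⟨6 * k - 2, by omega⟩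
  obtain ⟨b0, hb0⟩ : ∃ z, z + 3 = c := ⟨c - 3, by omega⟩
  obtain ⟨x0, hx0⟩ : ∃ z, z + 5 = s := ⟨s - 5, by omega⟩
  obtain ⟨y0, hy0⟩ : ∃ z, z + 6 = 2 * n := ⟨2 * n - 6, by omega⟩
  refine check_sound hf (a0 := a0) (b0 := b0) (x0 := x0) (y0 := y0) st_il_chk
    ⟨fun h => absurd h (by decide), fun h => absurd h (by decide), fun h => absurd h (by decide), by omega, by omega,
      by omega, by omega⟩ ?_ ?_
  · intro j m p q hr h
    obtain ⟨-, -, -, -, hp1, hp2, hq1, hq2⟩ := hr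
    replace h := of_decide_eq_true h
    obtain ⟨rfl, rfl, rfl, rfl⟩ := h
    exact mv g1 (by omega) (by omega) (by omega) (by omega)
  · intro j m p q hr h
    obtain ⟨-, -, -, -, hp1, hp2, hq1, hq2⟩ := hr
    replace h := of_decide_eq_true h
    rcases h with h | h | h | h | h | h | h | h | h | h
    · obtain ⟨rfl, rfl, h⟩ := h
      exact fun t => H.e1 hf (x0 + p) (y0 + q) (by omega) (by omega) (by omega) (by omega) (mv t (by omega) (by omega) rfl rfl)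
    · obtain ⟨rfl, rfl, h⟩ := h
      exact H.lw _ _ _ _ (by omega) (by omega) (by omega) (by omega) (by omega) (by omega)
    · obtain ⟨rfl, rfl, h⟩ := h
      exact H.lw _ _ _ _ (by omega) (by omega) (by omega) (by omega) (by omega) (by omega)
    · obtain ⟨rfl, rfl, h⟩ := h
      exact fun t => H.u2 (x0 + p) (by omega) (by omega) (by omega) (mv t (by omega) (by omega) rfl (by omega))
    · obtain ⟨rfl, rfl, h⟩ := h
      exact NHT.p2 hf H.T (j := 3) (by omega) (by omega) (by omega) (by omega) (by omega) (by omega)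
    · obtain ⟨rfl, rfl, h⟩ := h
      exact NHT.rOut hf H.T (t := 4) (p := 0) (j := 4) (by omega) (by omega) (by omega) (by omega) (by omega) (by omega) (by omega) (by omega)
    · obtain ⟨rfl, rfl, h⟩ := h
      exact NHT.rOut hf H.T (t := 4) (p := 1) (j := 4) (by omega) (by omega) (by omega) (by omega) (by omega) (by omega) (by omega) (by omega)
    · obtain ⟨rfl, rfl, h⟩ := h
      exact NHT.rOut hf H.T (t := 4) (p := 0) (j := 3) (by omega) (by omega) (by omega) (by omega) (by omega) (by omega) (by omega) (by omega)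
    · obtain ⟨rfl, rfl, h⟩ := h
      exact NHT.rOut hf H.T (t := 4) (p := 1) (j := 3) (by omega) (by omega) (by omega) (by omega) (by omega) (by omega) (by omega) (by omega)
    · obtain ⟨rfl, rfl, rfl, rfl⟩ := h
      exact fun t => g2 (mv t (by omega) (by omega) (by omega) (by omega))

theorem st_gr_chk : check 12 9 13 13 0 1 1 0 0
    (fun j n p q => decide ((j = 4 ∧ n = 5 ∧ p = 5 ∧ q = 7)))
    (fun j n p q => decide ((j = 5 ∧ n = 5 ∧ 7 ≤ p ∧ p ≤ 7 ∧ q = 7)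
      ∨ (j = 4 ∧ n = 5 ∧ 6 ≤ p ∧ p ≤ 8 ∧ q = 8 ∧ p % 2 = 0)
      ∨ (j = 5 ∧ n = 5 ∧ 8 ≤ q ∧ q ≤ p + 3 ∧ p ≤ q + 4)
      ∨ (j = 4 ∧ n = 4 ∧ 3 ≤ q ∧ q ≤ p + 3 ∧ p ≤ q + 4)
      ∨ (j = 5 ∧ n = 4 ∧ 3 ≤ q ∧ q ≤ p + 3 ∧ p ≤ q + 4)
      ∨ (j = 4 ∧ n = 5 ∧ p = 7 ∧ q = 7)))
    17
    0x10b2830dac8010b28710b20710ac07105e07105d871057871057070dba070db9870db3870dac8f0d65870d65070d5f070d5e87 = true := by
  decide +kernel

/-- (g) `6 k + 2`, row `c + 2`, line `2 n + 3`, to the right, one step -/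
theorem st_gr (hf : Rule f) {k c n s : ℕ} (H : ZBH f k c n) (hs : s % 2 = 0) (h1 : 2 * n + 8 ≤ s) (h2 : s + 8 ≤ 2 * n + 2 * k)
    (g1 : f (6 * k + 2) (c + 2) s (2 * n + 3)) (g2 : ¬ f (6 * k + 2) (c + 2) (s + 2) (2 * n + 3)) : False := by
  have hk := H.T.hk
  have hc := H.T.hc
  have h4' := H.T.h4
  have hb := H.T.hb
  have hN := H.T.hN2
  obtain ⟨a0, ha0⟩ : ∃ z, z + 2 = 6 * k := ⟨6 * k - 2, by omega⟩
  obtain ⟨b0, hb0⟩ : ∃ z, z + 3 = c := ⟨c - 3, by omega⟩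
  obtain ⟨x0, hx0⟩ : ∃ z, z + 5 = s := ⟨s - 5, by omega⟩
  obtain ⟨y0, hy0⟩ : ∃ z, z + 4 = 2 * n := ⟨2 * n - 4, by omega⟩
  refine check_sound hf (a0 := a0) (b0 := b0) (x0 := x0) (y0 := y0) st_gr_chk
    ⟨fun h => absurd h (by decide), fun h => absurd h (by decide), fun h => absurd h (by decide), by omega, by omega,
      by omega, by omega⟩ ?_ ?_
  · intro j m p q hr h
    obtain ⟨-, -, -, -, hp1, hp2, hq1, hq2⟩ := hr
    replace h := of_decide_eq_true h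
    obtain ⟨rfl, rfl, rfl, rfl⟩ := h
    exact mv g1 (by omega) (by omega) (by omega) (by omega)
  · intro j m p q hr h
    obtain ⟨-, -, -, -, hp1, hp2, hq1, hq2⟩ := hr
    replace h := of_decide_eq_true h
    rcases h with h | h | h | h | h | h
    · obtain ⟨rfl, rfl, h⟩ := h
      exact fun t => H.p3_3' hf (x := x0 + p) (by omega) (by omega) (mv t (by omega) (by omega) rfl (by omega))
    · obtain ⟨rfl, rfl, h⟩ := h
      exact fun t => H.u2 (x0 + p) (by omega) (by omega) (by omega) (mv t (by omega) (by omega) rfl (by omega))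
    · obtain ⟨rfl, rfl, h⟩ := h
      exact NHT.p2 hf H.T (j := 3) (by omega) (by omega) (by omega) (by omega) (by omega) (by omega)
    · obtain ⟨rfl, rfl, h⟩ := h
      exact NHT.rOut hf H.T (t := 4) (p := 0) (j := 3) (by omega) (by omega) (by omega) (by omega) (by omega) (by omega) (by omega) (by omega)
    · obtain ⟨rfl, rfl, h⟩ := h
      exact NHT.rOut hf H.T (t := 4) (p := 1) (j := 3) (by omega) (by omega) (by omega) (by omega) (by omega) (by omega) (by omega) (by omega)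
    · obtain ⟨rfl, rfl, rfl, rfl⟩ := h
      exact fun t => g2 (mv t (by omega) (by omega) (by omega) (by omega))

theorem st_gl_chk : check 12 9 13 13 0 1 1 0 0
    (fun j n p q => decide ((j = 4 ∧ n = 5 ∧ p = 7 ∧ q = 7)))
    (fun j n p q => decide ((j = 3 ∧ n = 5 ∧ 4 ≤ q ∧ q ≤ p + 1 ∧ p ≤ q + 0 ∧ ¬ (p % 2 = 1 ∧ q % 2 = 0))
      ∨ (j = 1 ∧ n = 3 ∧ q ≤ p + 7 ∧ p ≤ q + 7)
      ∨ (j = 1 ∧ n = 4 ∧ q ≤ p + 7 ∧ p ≤ q + 7)
      ∨ (j = 1 ∧ n = 5 ∧ q ≤ p + 7 ∧ p ≤ q + 7)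
      ∨ (j = 4 ∧ n = 5 ∧ 6 ≤ p ∧ p ≤ 6 ∧ q = 8 ∧ p % 2 = 0)
      ∨ (j = 3 ∧ n = 5 ∧ 8 ≤ q ∧ q ≤ p + 2 ∧ p ≤ q + 1)
      ∨ (j = 2 ∧ n = 4 ∧ 3 ≤ q ∧ q ≤ p + 2 ∧ p ≤ q + 1)
      ∨ (j = 3 ∧ n = 4 ∧ 3 ≤ q ∧ q ≤ p + 2 ∧ p ≤ q + 1)
      ∨ (j = 4 ∧ n = 4 ∧ 3 ≤ q ∧ q ≤ p + 3 ∧ p ≤ q + 2)
      ∨ (j = 4 ∧ n = 5 ∧ p = 5 ∧ q = 7)))
    50
    0x7bb830ab4000db35207bb830ab4800db3d20767830a60000a60040ab3800ab3840db9800db98f0db3870dad070dac870dac070d5f070d5e870d5e070d58870d58070d57870abb070aba870aba070a66870a66070a65870a5f870a5f0707bb0707670707668707600707130704c30704c28704bc8704bc07046f07046e87046e07046887046807046787041a87041a07041407041387 = true := by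
  decide +kernel

/-- (g) `6 k + 2`, row `c + 2`, line `2 n + 3`, to the left, one step -/
theorem st_gl (hf : Rule f) {k c n s : ℕ} (H : ZBH f k c n) (hs : s % 2 = 0) (h1 : 2 * n + 8 ≤ s) (h2 : s + 6 ≤ 2 * n + 2 * k)
    (g1 : f (6 * k + 2) (c + 2) (s + 2) (2 * n + 3)) (g2 : ¬ f (6 * k + 2) (c + 2) s (2 * n + 3)) : False := by
  have hk := H.T.hk
  have hc := H.T.hc
  have h4' := H.T.h4
  have hb := H.T.hb
  have hN := H.T.hN2
  obtain ⟨a0, ha0⟩ : ∃ z, z + 2 = 6 * k := ⟨6 * k - 2, by omega⟩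
  obtain ⟨b0, hb0⟩ : ∃ z, z + 3 = c := ⟨c - 3, by omega⟩
  obtain ⟨x0, hx0⟩ : ∃ z, z + 5 = s := ⟨s - 5, by omega⟩
  obtain ⟨y0, hy0⟩ : ∃ z, z + 4 = 2 * n := ⟨2 * n - 4, by omega⟩
  refine check_sound hf (a0 := a0) (b0 := b0) (x0 := x0) (y0 := y0) st_gl_chk
    ⟨fun h => absurd h (by decide), fun h => absurd h (by decide), fun h => absurd h (by decide), by omega, by omega,
      by omega, by omega⟩ ?_ ?_
  · intro j m p q hr h
    obtain ⟨-, -, -, -, hp1, hp2, hq1, hq2⟩ := hr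
    replace h := of_decide_eq_true h
    obtain ⟨rfl, rfl, rfl, rfl⟩ := h
    exact mv g1 (by omega) (by omega) (by omega) (by omega)
  · intro j m p q hr h
    obtain ⟨-, -, -, -, hp1, hp2, hq1, hq2⟩ := hr
    replace h := of_decide_eq_true h
    rcases h with h | h | h | h | h | h | h | h | h | h
    · obtain ⟨rfl, rfl, h⟩ := h
      exact fun t => H.e1 hf (x0 + p) (y0 + q) (by omega) (by omega) (by omega) (by omega) (mv t (by omega) (by omega) rfl rfl)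
    · obtain ⟨rfl, rfl, h⟩ := h
      exact H.lw _ _ _ _ (by omega) (by omega) (by omega) (by omega) (by omega) (by omega)
    · obtain ⟨rfl, rfl, h⟩ := h
      exact H.lw _ _ _ _ (by omega) (by omega) (by omega) (by omega) (by omega) (by omega)
    · obtain ⟨rfl, rfl, h⟩ := h
      exact H.lw _ _ _ _ (by omega) (by omega) (by omega) (by omega) (by omega) (by omega)
    · obtain ⟨rfl, rfl, h⟩ := h
      exact fun t => H.u2 (x0 + p) (by omega) (by omega) (by omega) (mv t (by omega) (by omega) rfl (by omega))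
    · obtain ⟨rfl, rfl, h⟩ := h
      exact NHT.p2 hf H.T (j := 4) (by omega) (by omega) (by omega) (by omega) (by omega) (by omega)
    · obtain ⟨rfl, rfl, h⟩ := h
      exact NHT.rOut hf H.T (t := 4) (p := 0) (j := 4) (by omega) (by omega) (by omega) (by omega) (by omega) (by omega) (by omega) (by omega)
    · obtain ⟨rfl, rfl, h⟩ := h
      exact NHT.rOut hf H.T (t := 4) (p := 1) (j := 4) (by omega) (by omega) (by omega) (by omega) (by omega) (by omega) (by omega) (by omega)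
    · obtain ⟨rfl, rfl, h⟩ := h
      exact NHT.rOut hf H.T (t := 4) (p := 0) (j := 3) (by omega) (by omega) (by omega) (by omega) (by omega) (by omega) (by omega) (by omega)
    · obtain ⟨rfl, rfl, rfl, rfl⟩ := h
      exact fun t => g2 (mv t (by omega) (by omega) (by omega) (by omega))

theorem st_a1_chk : check 12 11 13 13 0 1 1 0 0
    (fun j n p q => decide ((j = 2 ∧ n = 7 ∧ p = 7 ∧ q = 7)))
    (fun j n p q => decide ((j = 3 ∧ n = 5 ∧ 6 ≤ q ∧ q ≤ p + 3 ∧ p + 2 ≤ q ∧ ¬ (p % 2 = 1 ∧ q % 2 = 0))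
      ∨ (j = 1 ∧ n = 2 ∧ q ≤ p + 9 ∧ p ≤ q + 5)
      ∨ (j = 1 ∧ n = 3 ∧ q ≤ p + 9 ∧ p ≤ q + 5)
      ∨ (j = 1 ∧ n = 4 ∧ q ≤ p + 9 ∧ p ≤ q + 5)
      ∨ (j = 1 ∧ n = 5 ∧ q ≤ p + 9 ∧ p ≤ q + 5)
      ∨ (j = 1 ∧ n = 6 ∧ q ≤ p + 9 ∧ p ≤ q + 5)
      ∨ (j = 1 ∧ n = 7 ∧ q ≤ p + 9 ∧ p ≤ q + 5)
      ∨ (j = 4 ∧ n = 5 ∧ 6 ≤ p ∧ p ≤ 6 ∧ q = 10 ∧ p % 2 = 0)
      ∨ (j = 5 ∧ n = 5 ∧ 10 ≤ q ∧ q ≤ p + 5 ∧ p ≤ q + 0)
      ∨ (j = 3 ∧ n = 3 ∧ 4 ≤ q ∧ q ≤ p + 5 ∧ p ≤ q + 0)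
      ∨ (j = 2 ∧ n = 2 ∧ q ≤ p + 5 ∧ p ≤ q + 0)
      ∨ (j = 2 ∧ n = 4 ∧ 5 ≤ q ∧ q ≤ p + 4 ∧ p + 1 ≤ q)
      ∨ (j = 3 ∧ n = 2 ∧ q ≤ p + 5 ∧ p ≤ q + 0)
      ∨ (j = 3 ∧ n = 4 ∧ 5 ≤ q ∧ q ≤ p + 4 ∧ p + 1 ≤ q)
      ∨ (j = 4 ∧ n = 4 ∧ 5 ≤ q ∧ q ≤ p + 5 ∧ p ≤ q + 0)
      ∨ (j = 5 ∧ n = 4 ∧ 5 ≤ q ∧ q ≤ p + 5 ∧ p ≤ q + 0)
      ∨ (j = 2 ∧ n = 7 ∧ p = 5 ∧ q = 7)))
    125
    0x90d8309620009bd321057830cae800cae81090c830cae000cae04090d830caf800caf8414008310578010578408ff8009069a096180096184085685085d80085d120c05d208b80008b80408b8030c59800c598409c38014008713fa0713ac0713ab8713a58713a507105f07105887105107100a87100a071004071003871003071002870ffc870ffc070cb6070caf070ca8070c61870c61070c5b070c5a870c5a070c53870c53070c05870c05070bff070bfe870bb1070bb0870baa870baa0709c38f09b68709b607090d07090c0709000708b90708b88708b28708b20708b18708ab8708ab07086407086307085607080f87080f07080907080887080807080207080187061b87061b0706150706148705c70705c68705c08705c007056c07056b87056b07056a87056587056507056487056407055e87055e07051787051707051687051607051107051087051007050f87050a0705098704c20704c18704bb8704bb0704b50704b487046707046687046087046007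 = true := by
  decide +kernel

/-- (e) `6 k`, row `c + 4`, line `2 n + 1`, to the left, one step -/
theorem st_a1 (hf : Rule f) {k c n s : ℕ} (H : ZBH f k c n) (hs : s % 2 = 0) (h1 : 2 * n + 8 ≤ s) (h2 : s + 6 ≤ 2 * n + 2 * k)
    (g1 : f (6 * k) (c + 4) (s + 2) (2 * n + 1)) (g2 : ¬ f (6 * k) (c + 4) s (2 * n + 1)) : False := by
  have hk := H.T.hk
  have hc := H.T.hc
  have h4' := H.T.h4
  have hb := H.T.hb
  have hN := H.T.hN2
  obtain ⟨a0, ha0⟩ : ∃ z, z + 2 = 6 * k := ⟨6 * k - 2, by omega⟩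
  obtain ⟨b0, hb0⟩ : ∃ z, z + 3 = c := ⟨c - 3, by omega⟩
  obtain ⟨x0, hx0⟩ : ∃ z, z + 5 = s := ⟨s - 5, by omega⟩
  obtain ⟨y0, hy0⟩ : ∃ z, z + 6 = 2 * n := ⟨2 * n - 6, by omega⟩
  refine check_sound hf (a0 := a0) (b0 := b0) (x0 := x0) (y0 := y0) st_a1_chk
    ⟨fun h => absurd h (by decide), fun h => absurd h (by decide), fun h => absurd h (by decide), by omega, by omega,
      by omega, by omega⟩ ?_ ?_
  · intro j m p q hr h
    obtain ⟨-, -, -, -, hp1, hp2, hq1, hq2⟩ := hr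
    replace h := of_decide_eq_true h
    obtain ⟨rfl, rfl, rfl, rfl⟩ := h
    exact mv g1 (by omega) (by omega) (by omega) (by omega)
  · intro j m p q hr h
    obtain ⟨-, -, -, -, hp1, hp2, hq1, hq2⟩ := hr
    replace h := of_decide_eq_true h
    rcases h with h | h | h | h | h | h | h | h | h | h | h | h | h | h | h | h | h
    · obtain ⟨rfl, rfl, h⟩ := h
      exact fun t => H.e1 hf (x0 + p) (y0 + q) (by omega) (by omega) (by omega) (by omega) (mv t (by omega) (by omega) rfl rfl)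
    · obtain ⟨rfl, rfl, h⟩ := h
      exact H.lw _ _ _ _ (by omega) (by omega) (by omega) (by omega) (by omega) (by omega)
    · obtain ⟨rfl, rfl, h⟩ := h
      exact H.lw _ _ _ _ (by omega) (by omega) (by omega) (by omega) (by omega) (by omega)
    · obtain ⟨rfl, rfl, h⟩ := h
      exact H.lw _ _ _ _ (by omega) (by omega) (by omega) (by omega) (by omega) (by omega)
    · obtain ⟨rfl, rfl, h⟩ := h
      exact H.lw _ _ _ _ (by omega) (by omega) (by omega) (by omega) (by omega) (by omega)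
    · obtain ⟨rfl, rfl, h⟩ := h
      exact H.lw _ _ _ _ (by omega) (by omega) (by omega) (by omega) (by omega) (by omega)
    · obtain ⟨rfl, rfl, h⟩ := h
      exact H.lw _ _ _ _ (by omega) (by omega) (by omega) (by omega) (by omega) (by omega)
    · obtain ⟨rfl, rfl, h⟩ := h
      exact fun t => H.u2 (x0 + p) (by omega) (by omega) (by omega) (mv t (by omega) (by omega) rfl (by omega))
    · obtain ⟨rfl, rfl, h⟩ := h
      exact NHT.p2 hf H.T (j := 3) (by omega) (by omega) (by omega) (by omega) (by omega) (by omega)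
    · obtain ⟨rfl, rfl, h⟩ := h
      exact NHT.pOut hf H.T (t := 4) (j := 3) (by omega) (by omega) (by omega) (by omega) (by omega) (by omega) (by omega)
    · obtain ⟨rfl, rfl, h⟩ := h
      exact NHT.rOut hf H.T (t := 3) (p := 0) (j := 3) (by omega) (by omega) (by omega) (by omega) (by omega) (by omega) (by omega) (by omega)
    · obtain ⟨rfl, rfl, h⟩ := h
      exact NHT.rOut hf H.T (t := 4) (p := 0) (j := 4) (by omega) (by omega) (by omega) (by omega) (by omega) (by omega) (by omega) (by omega)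
    · obtain ⟨rfl, rfl, h⟩ := h
      exact NHT.rOut hf H.T (t := 3) (p := 1) (j := 3) (by omega) (by omega) (by omega) (by omega) (by omega) (by omega) (by omega) (by omega)
    · obtain ⟨rfl, rfl, h⟩ := h
      exact NHT.rOut hf H.T (t := 4) (p := 1) (j := 4) (by omega) (by omega) (by omega) (by omega) (by omega) (by omega) (by omega) (by omega)
    · obtain ⟨rfl, rfl, h⟩ := h
      exact NHT.rOut hf H.T (t := 4) (p := 0) (j := 3) (by omega) (by omega) (by omega) (by omega) (by omega) (by omega) (by omega) (by omega)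
    · obtain ⟨rfl, rfl, h⟩ := h
      exact NHT.rOut hf H.T (t := 4) (p := 1) (j := 3) (by omega) (by omega) (by omega) (by omega) (by omega) (by omega) (by omega) (by omega)
    · obtain ⟨rfl, rfl, rfl, rfl⟩ := h
      exact fun t => g2 (mv t (by omega) (by omega) (by omega) (by omega))

theorem st_a3_chk : check 12 11 13 13 0 1 1 0 0
    (fun j n p q => decide ((j = 2 ∧ n = 7 ∧ p = 7 ∧ q = 7)))
    (fun j n p q => decide ((j = 3 ∧ n = 5 ∧ 4 ≤ q ∧ q ≤ p + 3 ∧ p ≤ q + 0 ∧ ¬ (p % 2 = 1 ∧ q % 2 = 0))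
      ∨ (j = 1 ∧ n = 4 ∧ q ≤ p + 9 ∧ p ≤ q + 7)
      ∨ (j = 1 ∧ n = 5 ∧ q ≤ p + 9 ∧ p ≤ q + 7)
      ∨ (j = 1 ∧ n = 6 ∧ q ≤ p + 9 ∧ p ≤ q + 7)
      ∨ (j = 1 ∧ n = 7 ∧ q ≤ p + 9 ∧ p ≤ q + 7)
      ∨ (j = 3 ∧ n = 5 ∧ 4 ≤ p ∧ p ≤ 5 ∧ q = 6)
      ∨ (j = 2 ∧ n = 4 ∧ 3 ≤ q ∧ q ≤ p + 4 ∧ p ≤ q + 1)
      ∨ (j = 3 ∧ n = 4 ∧ 3 ≤ q ∧ q ≤ p + 4 ∧ p ≤ q + 1)
      ∨ (j = 2 ∧ n = 7 ∧ p = 5 ∧ q = 7)))
    41
    0x90d8309620009bd320cae8309618009618409c3800cae870cae070ca8070ca7870c5a070c59870c53870c530709c38f09b68709b607090d0708b90708b88708b80708b28708b20708b187061b87061b0706150706148705c70705c68705c08705c007056c07056b87056587056507051787051707051107051087 = true := by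
  decide +kernel

/-- (f) `6 k`, row `c + 4`, line `2 n + 3`, to the left, one step -/
theorem st_a3 (hf : Rule f) {k c n s : ℕ} (H : ZBH f k c n) (hs : s % 2 = 0) (h1 : 2 * n + 10 ≤ s) (h2 : s + 6 ≤ 2 * n + 2 * k)
    (g1 : f (6 * k) (c + 4) (s + 2) (2 * n + 3)) (g2 : ¬ f (6 * k) (c + 4) s (2 * n + 3)) : False := by
  have hk := H.T.hk
  have hc := H.T.hc
  have h4' := H.T.h4
  have hb := H.T.hb
  have hN := H.T.hN2
  obtain ⟨a0, ha0⟩ : ∃ z, z + 2 = 6 * k := ⟨6 * k - 2, by omega⟩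
  obtain ⟨b0, hb0⟩ : ∃ z, z + 3 = c := ⟨c - 3, by omega⟩
  obtain ⟨x0, hx0⟩ : ∃ z, z + 5 = s := ⟨s - 5, by omega⟩
  obtain ⟨y0, hy0⟩ : ∃ z, z + 4 = 2 * n := ⟨2 * n - 4, by omega⟩
  refine check_sound hf (a0 := a0) (b0 := b0) (x0 := x0) (y0 := y0) st_a3_chk
    ⟨fun h => absurd h (by decide), fun h => absurd h (by decide), fun h => absurd h (by decide), by omega, by omega,
      by omega, by omega⟩ ?_ ?_
  · intro j m p q hr h
    obtain ⟨-, -, -, -, hp1, hp2, hq1, hq2⟩ := hr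
    replace h := of_decide_eq_true h
    obtain ⟨rfl, rfl, rfl, rfl⟩ := h
    exact mv g1 (by omega) (by omega) (by omega) (by omega)
  · intro j m p q hr h
    obtain ⟨-, -, -, -, hp1, hp2, hq1, hq2⟩ := hr
    replace h := of_decide_eq_true h
    rcases h with h | h | h | h | h | h | h | h | h
    · obtain ⟨rfl, rfl, h⟩ := h
      exact fun t => H.e1 hf (x0 + p) (y0 + q) (by omega) (by omega) (by omega) (by omega) (mv t (by omega) (by omega) rfl rfl)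
    · obtain ⟨rfl, rfl, h⟩ := h
      exact H.lw _ _ _ _ (by omega) (by omega) (by omega) (by omega) (by omega) (by omega)
    · obtain ⟨rfl, rfl, h⟩ := h
      exact H.lw _ _ _ _ (by omega) (by omega) (by omega) (by omega) (by omega) (by omega)
    · obtain ⟨rfl, rfl, h⟩ := h
      exact H.lw _ _ _ _ (by omega) (by omega) (by omega) (by omega) (by omega) (by omega)
    · obtain ⟨rfl, rfl, h⟩ := h
      exact H.lw _ _ _ _ (by omega) (by omega) (by omega) (by omega) (by omega) (by omega)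
    · obtain ⟨rfl, rfl, h⟩ := h
      exact fun t => H.p1_2 hf (x := x0 + p) (by omega) (by omega) (mv t (by omega) (by omega) rfl (by omega))
    · obtain ⟨rfl, rfl, h⟩ := h
      exact NHT.rOut hf H.T (t := 4) (p := 0) (j := 4) (by omega) (by omega) (by omega) (by omega) (by omega) (by omega) (by omega) (by omega)
    · obtain ⟨rfl, rfl, h⟩ := h
      exact NHT.rOut hf H.T (t := 4) (p := 1) (j := 4) (by omega) (by omega) (by omega) (by omega) (by omega) (by omega) (by omega) (by omega)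
    · obtain ⟨rfl, rfl, rfl, rfl⟩ := h
      exact fun t => g2 (mv t (by omega) (by omega) (by omega) (by omega))

theorem st_a5_chk : check 12 11 13 13 0 1 1 0 0
    (fun j n p q => decide ((j = 2 ∧ n = 3 ∧ q ≤ p + 6 ∧ p ≤ q + 4 ∧ 2 ≤ q ∧ (p % 2 = 1 ∧ q % 2 = 1))
      ∨ (j = 2 ∧ n = 7 ∧ p = 7 ∧ q = 7)))
    (fun j n p q => decide ((j = 1 ∧ n = 4 ∧ q ≤ p + 7 ∧ p ≤ q + 5)
      ∨ (j = 1 ∧ n = 5 ∧ q ≤ p + 7 ∧ p ≤ q + 5)
      ∨ (j = 1 ∧ n = 6 ∧ q ≤ p + 7 ∧ p ≤ q + 5)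
      ∨ (j = 1 ∧ n = 7 ∧ q ≤ p + 7 ∧ p ≤ q + 5)
      ∨ (j = 2 ∧ n = 4 ∧ q ≤ p + 6 ∧ p ≤ q + 4 ∧ 4 ≤ q)
      ∨ (j = 3 ∧ n = 5 ∧ 6 ≤ q ∧ q ≤ p + 2 ∧ p + 1 ≤ q)
      ∨ (j = 3 ∧ n = 4 ∧ q ≤ p + 2 ∧ p + 1 ≤ q)
      ∨ (j = 2 ∧ n = 7 ∧ p = 5 ∧ q = 7)))
    53
    0x90d8309620009bd320cae83090580090c9a09618009618409c3800863800cae870ca8070c5a070c53870c530709c38f09b68709b607090d07090c0708b90708b88708b80708b78708b28708b20708b18708b10708638f061b87061b0706150706148705c70705c68705c08705c007056c07056b87056b07056a87056587056507056487056407051787051707051687051607051107051087051007050f87 = true := by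
  decide +kernel

/-- `6 k`, row `c + 4`, line `2 n + 5`, to the left, one step -/
theorem st_a5 (hf : Rule f) {k c n s : ℕ} (H : ZBH f k c n)
    (D0 : Cyc f (6 * k) (c - 2) (2 * (n - 2) + 2)) (hs : s % 2 = 0) (h1 : 2 * n + 10 ≤ s) (h2 : s + 2 ≤ 2 * n + 2 * k)
    (g1 : f (6 * k) (c + 4) (s + 2) (2 * n + 5)) (g2 : ¬ f (6 * k) (c + 4) s (2 * n + 5)) : False := by
  have hk := H.T.hk
  have hc := H.T.hc
  have h4' := H.T.h4
  have hb := H.T.hb
  have hN := H.T.hN2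
  obtain ⟨a0, ha0⟩ : ∃ z, z + 2 = 6 * k := ⟨6 * k - 2, by omega⟩
  obtain ⟨b0, hb0⟩ : ∃ z, z + 3 = c := ⟨c - 3, by omega⟩
  obtain ⟨x0, hx0⟩ : ∃ z, z + 5 = s := ⟨s - 5, by omega⟩
  obtain ⟨y0, hy0⟩ : ∃ z, z + 2 = 2 * n := ⟨2 * n - 2, by omega⟩
  refine check_sound hf (a0 := a0) (b0 := b0) (x0 := x0) (y0 := y0) st_a5_chk
    ⟨fun h => absurd h (by decide), fun h => absurd h (by decide), fun h => absurd h (by decide), by omega, by omega,
      by omega, by omega⟩ ?_ ?_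
  · intro j m p q hr h
    obtain ⟨-, -, -, -, hp1, hp2, hq1, hq2⟩ := hr
    replace h := of_decide_eq_true h
    rcases h with h | h
    · obtain ⟨rfl, rfl, h⟩ := h
      exact (WrapC.v2 D0 (by omega) (by omega) (by omega) (by omega) (by omega) (by omega) (by omega)).mpr (by omega)
    · obtain ⟨rfl, rfl, rfl, rfl⟩ := h
      exact mv g1 (by omega) (by omega) (by omega) (by omega)
  · intro j m p q hr h
    obtain ⟨-, -, -, -, hp1, hp2, hq1, hq2⟩ := hr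
    replace h := of_decide_eq_true h
    rcases h with h | h | h | h | h | h | h | h
    · obtain ⟨rfl, rfl, h⟩ := h
      exact H.lw _ _ _ _ (by omega) (by omega) (by omega) (by omega) (by omega) (by omega)
    · obtain ⟨rfl, rfl, h⟩ := h
      exact H.lw _ _ _ _ (by omega) (by omega) (by omega) (by omega) (by omega) (by omega)
    · obtain ⟨rfl, rfl, h⟩ := h
      exact H.lw _ _ _ _ (by omega) (by omega) (by omega) (by omega) (by omega) (by omega)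
    · obtain ⟨rfl, rfl, h⟩ := h
      exact H.lw _ _ _ _ (by omega) (by omega) (by omega) (by omega) (by omega) (by omega)
    · obtain ⟨rfl, rfl, h⟩ := h
      exact mt (WrapC.v3 D0 (by omega) (by omega) (by omega) (by omega) (by omega) (by omega) (by omega) (by omega)).mp (by omega)
    · obtain ⟨rfl, rfl, h⟩ := h
      exact NHT.p2 hf H.T (j := 4) (by omega) (by omega) (by omega) (by omega) (by omega) (by omega)
    · obtain ⟨rfl, rfl, h⟩ := h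
      exact NHT.rOut hf H.T (t := 4) (p := 1) (j := 4) (by omega) (by omega) (by omega) (by omega) (by omega) (by omega) (by omega) (by omega)
    · obtain ⟨rfl, rfl, rfl, rfl⟩ := h
      exact fun t => g2 (mv t (by omega) (by omega) (by omega) (by omega))

theorem st_h_chk : check 12 10 13 13 0 0 1 0 0
    (fun j n p q => decide ((j = 2 ∧ n = 6 ∧ 3 ≤ p ∧ p ≤ 5 ∧ q = 5 ∧ p % 2 = 1)
      ∨ (j = 4 ∧ n = 6 ∧ p = 7 ∧ q = 7)))
    (fun j n p q => decide ((j = 3 ∧ n = 4 ∧ 2 ≤ q ∧ q ≤ p + 1 ∧ p ≤ q + 2 ∧ ¬ (p % 2 = 1 ∧ q % 2 = 0))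
      ∨ (j = 1 ∧ n = 4 ∧ q ≤ p + 7 ∧ p ≤ q + 9)
      ∨ (j = 1 ∧ n = 5 ∧ q ≤ p + 7 ∧ p ≤ q + 9)
      ∨ (j = 1 ∧ n = 6 ∧ q ≤ p + 7 ∧ p ≤ q + 9)
      ∨ (j = 3 ∧ n = 4 ∧ 4 ≤ p ∧ p ≤ 5 ∧ q = 4)
      ∨ (j = 5 ∧ n = 4 ∧ 5 ≤ p ∧ p ≤ 5 ∧ q = 5)
      ∨ (j = 4 ∧ n = 4 ∧ 4 ≤ p ∧ p ≤ 6 ∧ q = 6 ∧ p % 2 = 0)
      ∨ (j = 3 ∧ n = 4 ∧ 6 ≤ q ∧ q ≤ p + 2 ∧ p ≤ q + 3)
      ∨ (j = 5 ∧ n = 4 ∧ 6 ≤ q ∧ q ≤ p + 3 ∧ p ≤ q + 4)
      ∨ (j = 3 ∧ n = 5 ∧ 7 ≤ q ∧ q ≤ p + 1 ∧ p ≤ q + 2)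
      ∨ (j = 4 ∧ n = 5 ∧ 7 ≤ q ∧ q ≤ p + 2 ∧ p ≤ q + 3)
      ∨ (j = 2 ∧ n = 3 ∧ q ≤ p + 2 ∧ p ≤ q + 3)
      ∨ (j = 3 ∧ n = 3 ∧ q ≤ p + 2 ∧ p ≤ q + 3)
      ∨ (j = 4 ∧ n = 3 ∧ q ≤ p + 3 ∧ p ≤ q + 4)
      ∨ (j = 5 ∧ n = 3 ∧ q ≤ p + 3 ∧ p ≤ q + 4)
      ∨ (j = 4 ∧ n = 6 ∧ p = 5 ∧ q = 7)))
    72
    0x8b9030c06000f59d211ef850ea20011f69a0ea91a0efe000efe040b5c830bb1000bb1040864830bb1800bb1840f600008b80008ab0011f68711f60711f00711a20711a187119b87119b070f600f0f53070f52870f05070efe870ea9870ea8870ea3070e55070e54870e54070e4e870e4e070e4d870bb8070b5c870b5c070b5b870b56070b55870b55070b08070b07870b07070b01870b01070b008708b88708b80f08ab0f080f8707bb0707ba8707b48707b407056c07056b8705658705650705178705170705110705108704c30704c28704bc8704bc07 = true := by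
  decide +kernel

/-- (h) `6 k + 2`, row `c + 4`, line `2 n + 5`, to the left, given the line `2 n + 3` of `6 k`, row `c + 4`, one step -/
theorem st_h (hf : Rule f) {k c n s : ℕ} (H : ZBH f k c n)
    (o3 : ∀ x : ℕ, x % 2 = 0 → s ≤ x + 2 → x ≤ s → f (6 * k) (c + 4) x (2 * n + 3)) (hs : s % 2 = 0) (h1 : 2 * n + 10 ≤ s) (h2 : s + 6 ≤ 2 * n + 2 * k)
    (g1 : f (6 * k + 2) (c + 4) (s + 2) (2 * n + 5)) (g2 : ¬ f (6 * k + 2) (c + 4) s (2 * n + 5)) : False := by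
  have hk := H.T.hk
  have hc := H.T.hc
  have h4' := H.T.h4
  have hb := H.T.hb
  have hN := H.T.hN2
  obtain ⟨a0, ha0⟩ : ∃ z, z + 2 = 6 * k := ⟨6 * k - 2, by omega⟩
  obtain ⟨b0, hb0⟩ : ∃ z, z + 2 = c := ⟨c - 2, by omega⟩
  obtain ⟨x0, hx0⟩ : ∃ z, z + 5 = s := ⟨s - 5, by omega⟩
  obtain ⟨y0, hy0⟩ : ∃ z, z + 2 = 2 * n := ⟨2 * n - 2, by omega⟩
  refine check_sound hf (a0 := a0) (b0 := b0) (x0 := x0) (y0 := y0) st_h_chk
    ⟨fun h => absurd h (by decide), fun h => absurd h (by decide), fun h => absurd h (by decide), by omega, by omega,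
      by omega, by omega⟩ ?_ ?_
  · intro j m p q hr h
    obtain ⟨-, -, -, -, hp1, hp2, hq1, hq2⟩ := hr
    replace h := of_decide_eq_true h
    rcases h with h | h
    · obtain ⟨rfl, rfl, h⟩ := h
      exact mv (o3 (x0 + p) (by omega) (by omega) (by omega)) (by omega) (by omega) rfl (by omega)
    · obtain ⟨rfl, rfl, rfl, rfl⟩ := h
      exact mv g1 (by omega) (by omega) (by omega) (by omega)
  · intro j m p q hr h
    obtain ⟨-, -, -, -, hp1, hp2, hq1, hq2⟩ := hr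
    replace h := of_decide_eq_true h
    rcases h with h | h | h | h | h | h | h | h | h | h | h | h | h | h | h | h
    · obtain ⟨rfl, rfl, h⟩ := h
      exact fun t => H.e1 hf (x0 + p) (y0 + q) (by omega) (by omega) (by omega) (by omega) (mv t (by omega) (by omega) rfl rfl)
    · obtain ⟨rfl, rfl, h⟩ := h
      exact H.lw _ _ _ _ (by omega) (by omega) (by omega) (by omega) (by omega) (by omega)
    · obtain ⟨rfl, rfl, h⟩ := h
      exact H.lw _ _ _ _ (by omega) (by omega) (by omega) (by omega) (by omega) (by omega)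
    · obtain ⟨rfl, rfl, h⟩ := h
      exact H.lw _ _ _ _ (by omega) (by omega) (by omega) (by omega) (by omega) (by omega)
    · obtain ⟨rfl, rfl, h⟩ := h
      exact fun t => H.p1_2 hf (x := x0 + p) (by omega) (by omega) (mv t (by omega) (by omega) rfl (by omega))
    · obtain ⟨rfl, rfl, h⟩ := h
      exact fun t => H.p3_3' hf (x := x0 + p) (by omega) (by omega) (mv t (by omega) (by omega) rfl (by omega))
    · obtain ⟨rfl, rfl, h⟩ := h
      exact fun t => H.u2 (x0 + p) (by omega) (by omega) (by omega) (mv t (by omega) (by omega) rfl (by omega))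
    · obtain ⟨rfl, rfl, h⟩ := h
      exact NHT.p2 hf H.T (j := 4) (by omega) (by omega) (by omega) (by omega) (by omega) (by omega)
    · obtain ⟨rfl, rfl, h⟩ := h
      exact NHT.p2 hf H.T (j := 3) (by omega) (by omega) (by omega) (by omega) (by omega) (by omega)
    · obtain ⟨rfl, rfl, h⟩ := h
      exact r3 hf H.T (p := 1) (j := 5) (by omega) (by omega) (by omega) (by omega) (by omega) (by omega) (by omega)
    · obtain ⟨rfl, rfl, h⟩ := h
      exact r3 hf H.T (p := 0) (j := 4) (by omega) (by omega) (by omega) (by omega) (by omega) (by omega) (by omega)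
    · obtain ⟨rfl, rfl, h⟩ := h
      exact NHT.rOut hf H.T (t := 4) (p := 0) (j := 4) (by omega) (by omega) (by omega) (by omega) (by omega) (by omega) (by omega) (by omega)
    · obtain ⟨rfl, rfl, h⟩ := h
      exact NHT.rOut hf H.T (t := 4) (p := 1) (j := 4) (by omega) (by omega) (by omega) (by omega) (by omega) (by omega) (by omega) (by omega)
    · obtain ⟨rfl, rfl, h⟩ := h
      exact NHT.rOut hf H.T (t := 4) (p := 0) (j := 3) (by omega) (by omega) (by omega) (by omega) (by omega) (by omega) (by omega) (by omega)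
    · obtain ⟨rfl, rfl, h⟩ := h
      exact NHT.rOut hf H.T (t := 4) (p := 1) (j := 3) (by omega) (by omega) (by omega) (by omega) (by omega) (by omega) (by omega) (by omega)
    · obtain ⟨rfl, rfl, rfl, rfl⟩ := h
      exact fun t => g2 (mv t (by omega) (by omega) (by omega) (by omega))

/-- (j) `6 k + 4`, row `c + 2`, line `2 n + 3`, to the right: `d` from `7` to `2 k - 11` -/
theorem run_jr (hf : Rule f) {k c n x0 x1 : ℕ} (H : ZBH f k c n) (he : x0 % 2 = 0) (he1 : x1 % 2 = 0) (h1 : 2 * n + 10 ≤ x0) (h2 : x1 + 8 ≤ 2 * n + 2 * k)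
    (hle : x0 ≤ x1) (h : f (6 * k + 4) (c + 2) x0 (2 * n + 3)) : f (6 * k + 4) (c + 2) x1 (2 * n + 3) := by
  obtain ⟨i, rfl⟩ : ∃ i, x1 = x0 + 2 * i := ⟨(x1 - x0) / 2, by omega⟩
  induction i with
  | zero => exact h
  | succ i ih =>
    have := ih (by omega) (by omega) (by omega)
    by_contra hn
    exact st_jr hf H (s := x0 + 2 * i) (by omega) (by omega) (by omega) this (fun t => hn (mv t rfl rfl (by omega) rfl))

/-- (j) `6 k + 4`, row `c + 2`, line `2 n + 3`, to the left: `d` from `2 k - 9` to `7` -/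
theorem run_jl (hf : Rule f) {k c n x0 x1 : ℕ} (H : ZBH f k c n) (he : x0 % 2 = 0) (he1 : x1 % 2 = 0) (h1 : 2 * n + 10 ≤ x0) (h2 : x1 + 6 ≤ 2 * n + 2 * k)
    (hle : x0 ≤ x1) (h : f (6 * k + 4) (c + 2) x1 (2 * n + 3)) : f (6 * k + 4) (c + 2) x0 (2 * n + 3) := by
  obtain ⟨i, rfl⟩ : ∃ i, x1 = x0 + 2 * i := ⟨(x1 - x0) / 2, by omega⟩
  induction i with
  | zero => exact h
  | succ i ih =>
    refine ih (by omega) (by omega) (by omega) ?_
    by_contra hn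
    exact st_jl hf H (s := x0 + 2 * i) (by omega) (by omega) (by omega) (mv h rfl rfl (by omega) rfl) hn

/-- (i) `6 k + 2`, row `c + 2`, line `2 n + 1`, to the right: `d` from `7` to `2 k - 9` -/
theorem run_ir (hf : Rule f) {k c n x0 x1 : ℕ} (H : ZBH f k c n) (he : x0 % 2 = 0) (he1 : x1 % 2 = 0) (h1 : 2 * n + 8 ≤ x0) (h2 : x1 + 8 ≤ 2 * n + 2 * k)
    (hle : x0 ≤ x1) (h : f (6 * k + 2) (c + 2) x0 (2 * n + 1)) : f (6 * k + 2) (c + 2) x1 (2 * n + 1) := by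
  obtain ⟨i, rfl⟩ : ∃ i, x1 = x0 + 2 * i := ⟨(x1 - x0) / 2, by omega⟩
  induction i with
  | zero => exact h
  | succ i ih =>
    have := ih (by omega) (by omega) (by omega)
    by_contra hn
    exact st_ir hf H (s := x0 + 2 * i) (by omega) (by omega) (by omega) this (fun t => hn (mv t rfl rfl (by omega) rfl))

/-- (i) `6 k + 2`, row `c + 2`, line `2 n + 1`, to the left: `d` from `2 k - 5` to `7` -/
theorem run_il (hf : Rule f) {k c n x0 x1 : ℕ} (H : ZBH f k c n) (he : x0 % 2 = 0) (he1 : x1 % 2 = 0) (h1 : 2 * n + 8 ≤ x0) (h2 : x1 + 4 ≤ 2 * n + 2 * k)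
    (hle : x0 ≤ x1) (h : f (6 * k + 2) (c + 2) x1 (2 * n + 1)) : f (6 * k + 2) (c + 2) x0 (2 * n + 1) := by
  obtain ⟨i, rfl⟩ : ∃ i, x1 = x0 + 2 * i := ⟨(x1 - x0) / 2, by omega⟩
  induction i with
  | zero => exact h
  | succ i ih =>
    refine ih (by omega) (by omega) (by omega) ?_
    by_contra hn
    exact st_il hf H (s := x0 + 2 * i) (by omega) (by omega) (by omega) (mv h rfl rfl (by omega) rfl) hn

/-- (g) `6 k + 2`, row `c + 2`, line `2 n + 3`, to the right: `d` from `5` to `2 k - 9` -/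
theorem run_gr (hf : Rule f) {k c n x0 x1 : ℕ} (H : ZBH f k c n) (he : x0 % 2 = 0) (he1 : x1 % 2 = 0) (h1 : 2 * n + 8 ≤ x0) (h2 : x1 + 6 ≤ 2 * n + 2 * k)
    (hle : x0 ≤ x1) (h : f (6 * k + 2) (c + 2) x0 (2 * n + 3)) : f (6 * k + 2) (c + 2) x1 (2 * n + 3) := by
  obtain ⟨i, rfl⟩ : ∃ i, x1 = x0 + 2 * i := ⟨(x1 - x0) / 2, by omega⟩
  induction i with
  | zero => exact h
  | succ i ih =>
    have := ih (by omega) (by omega) (by omega)
    by_contra hn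
    exact st_gr hf H (s := x0 + 2 * i) (by omega) (by omega) (by omega) this (fun t => hn (mv t rfl rfl (by omega) rfl))

/-- (g) `6 k + 2`, row `c + 2`, line `2 n + 3`, to the left: `d` from `2 k - 7` to `5` -/
theorem run_gl (hf : Rule f) {k c n x0 x1 : ℕ} (H : ZBH f k c n) (he : x0 % 2 = 0) (he1 : x1 % 2 = 0) (h1 : 2 * n + 8 ≤ x0) (h2 : x1 + 4 ≤ 2 * n + 2 * k)
    (hle : x0 ≤ x1) (h : f (6 * k + 2) (c + 2) x1 (2 * n + 3)) : f (6 * k + 2) (c + 2) x0 (2 * n + 3) := by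
  obtain ⟨i, rfl⟩ : ∃ i, x1 = x0 + 2 * i := ⟨(x1 - x0) / 2, by omega⟩
  induction i with
  | zero => exact h
  | succ i ih =>
    refine ih (by omega) (by omega) (by omega) ?_
    by_contra hn
    exact st_gl hf H (s := x0 + 2 * i) (by omega) (by omega) (by omega) (mv h rfl rfl (by omega) rfl) hn

/-- (e) `6 k`, row `c + 4`, line `2 n + 1`, to the left: `d` from `2 k - 5` to `7` -/
theorem run_a1 (hf : Rule f) {k c n x0 x1 : ℕ} (H : ZBH f k c n) (he : x0 % 2 = 0) (he1 : x1 % 2 = 0) (h1 : 2 * n + 8 ≤ x0) (h2 : x1 + 4 ≤ 2 * n + 2 * k)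
    (hle : x0 ≤ x1) (h : f (6 * k) (c + 4) x1 (2 * n + 1)) : f (6 * k) (c + 4) x0 (2 * n + 1) := by
  obtain ⟨i, rfl⟩ : ∃ i, x1 = x0 + 2 * i := ⟨(x1 - x0) / 2, by omega⟩
  induction i with
  | zero => exact h
  | succ i ih =>
    refine ih (by omega) (by omega) (by omega) ?_
    by_contra hn
    exact st_a1 hf H (s := x0 + 2 * i) (by omega) (by omega) (by omega) (mv h rfl rfl (by omega) rfl) hn

/-- (f) `6 k`, row `c + 4`, line `2 n + 3`, to the left: `d` from `2 k - 7` to `7` -/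
theorem run_a3 (hf : Rule f) {k c n x0 x1 : ℕ} (H : ZBH f k c n) (he : x0 % 2 = 0) (he1 : x1 % 2 = 0) (h1 : 2 * n + 10 ≤ x0) (h2 : x1 + 4 ≤ 2 * n + 2 * k)
    (hle : x0 ≤ x1) (h : f (6 * k) (c + 4) x1 (2 * n + 3)) : f (6 * k) (c + 4) x0 (2 * n + 3) := by
  obtain ⟨i, rfl⟩ : ∃ i, x1 = x0 + 2 * i := ⟨(x1 - x0) / 2, by omega⟩
  induction i with
  | zero => exact h
  | succ i ih =>
    refine ih (by omega) (by omega) (by omega) ?_
    by_contra hn
    exact st_a3 hf H (s := x0 + 2 * i) (by omega) (by omega) (by omega) (mv h rfl rfl (by omega) rfl) hn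

/-- `6 k`, row `c + 4`, line `2 n + 5`, to the left: `d` from `2 k - 5` to `5` -/
theorem run_a5 (hf : Rule f) {k c n x0 x1 : ℕ} (H : ZBH f k c n) (D0 : Cyc f (6 * k) (c - 2) (2 * (n - 2) + 2)) (he : x0 % 2 = 0) (he1 : x1 % 2 = 0) (h1 : 2 * n + 10 ≤ x0) (h2 : x1 + 0 ≤ 2 * n + 2 * k)
    (hle : x0 ≤ x1) (h : f (6 * k) (c + 4) x1 (2 * n + 5)) : f (6 * k) (c + 4) x0 (2 * n + 5) := by
  obtain ⟨i, rfl⟩ : ∃ i, x1 = x0 + 2 * i := ⟨(x1 - x0) / 2, by omega⟩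
  induction i with
  | zero => exact h
  | succ i ih =>
    refine ih (by omega) (by omega) (by omega) ?_
    by_contra hn
    exact st_a5 hf H D0 (s := x0 + 2 * i) (by omega) (by omega) (by omega) (mv h rfl rfl (by omega) rfl) hn

/-- (h) `6 k + 2`, row `c + 4`, line `2 n + 5`, to the left, given the line `2 n + 3` of `6 k`, row `c + 4`: `d` from `2 k - 9` to `5` -/
theorem run_h (hf : Rule f) {k c n x0 x1 : ℕ} (H : ZBH f k c n)
    (o3 : ∀ x : ℕ, x % 2 = 0 → x0 ≤ x + 2 → x ≤ x1 → f (6 * k) (c + 4) x (2 * n + 3)) (he : x0 % 2 = 0) (he1 : x1 % 2 = 0) (h1 : 2 * n + 10 ≤ x0) (h2 : x1 + 4 ≤ 2 * n + 2 * k)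
    (hle : x0 ≤ x1) (h : f (6 * k + 2) (c + 4) x1 (2 * n + 5)) : f (6 * k + 2) (c + 4) x0 (2 * n + 5) := by
  obtain ⟨i, rfl⟩ : ∃ i, x1 = x0 + 2 * i := ⟨(x1 - x0) / 2, by omega⟩
  induction i with
  | zero => exact h
  | succ i ih =>
    refine ih (fun x a1 a2 a3 => o3 x a1 a2 (by omega)) (by omega) (by omega) (by omega) ?_
    by_contra hn
    exact st_h hf H (s := x0 + 2 * i) (fun x a1 a2 a3 => o3 x a1 (by omega) (by omega)) (by omega) (by omega) (by omega) (mv h rfl rfl (by omega) rfl) hn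

end Pool.Agent.SNT.TrR
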