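import Pool.Agent.SNT.ZbL
import Pool.Agent.SNT.PL
import Pool.Agent.SNT.TrR

set_option autoImplicit false
set_option synthInstance.maxSize 100000
set_option synthInstance.maxHeartbeats 4000000

/-! Transports along the row lines `y = 2 n + 1, 2 n + 3, 2 n + 5` of the rows `c + 2`, `c + 4` in the middle of the strip
(helper13, core miner of helper57). -/

namespace Pool.Agent.SNT.TrR

open Pool.Agent.SNT Pool.Agent.SNT.Sig Pool.Agent.SNT.Loc Pool.Agent.SNT.LW Pool.Agent.SNT.NHZ Pool.Agent.SNT.DRun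
open Pool.Agent.SNT.PB Pool.Agent.SNT.Zb

variable {f : ℕ → ℕ → ℕ → ℕ → Prop}

theorem st_am_chk : check 12 11 21 17 0 1 1 0 0
    (fun j n p q => decide ((j = 2 ∧ n = 7 ∧ p = 11 ∧ q = 9)))
    (fun j n p q => decide ((j = 3 ∧ n = 5 ∧ 5 ≤ p ∧ q ≤ p + 2 ∧ p ≤ q + 1 ∧ ¬ (p % 2 = 1 ∧ q % 2 = 0))
      ∨ (j = 1 ∧ n = 4 ∧ q ≤ p + 9 ∧ p ≤ q + 9)
      ∨ (j = 1 ∧ n = 5 ∧ q ≤ p + 9 ∧ p ≤ q + 9)
      ∨ (j = 1 ∧ n = 6 ∧ q ≤ p + 9 ∧ p ≤ q + 9)
      ∨ (j = 1 ∧ n = 7 ∧ q ≤ p + 9 ∧ p ≤ q + 9)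
      ∨ (j = 5 ∧ n = 5 ∧ 11 ≤ p ∧ p ≤ 12 ∧ q = 11)
      ∨ (j = 5 ∧ n = 5 ∧ 11 ≤ p ∧ p ≤ 11 ∧ q = 12 ∧ p % 2 = 1)
      ∨ (j = 5 ∧ n = 5 ∧ 11 ≤ p ∧ p ≤ 13 ∧ q = 13)
      ∨ (j = 4 ∧ n = 5 ∧ 10 ≤ p ∧ p ≤ 14 ∧ q = 14 ∧ p % 2 = 0)
      ∨ (j = 5 ∧ n = 5 ∧ 14 ≤ q ∧ q ≤ p + 5 ∧ p ≤ q + 4)
      ∨ (j = 2 ∧ n = 4 ∧ 4 ≤ p ∧ q ≤ p + 3 ∧ p ≤ q + 2)
      ∨ (j = 3 ∧ n = 4 ∧ 4 ≤ p ∧ q ≤ p + 3 ∧ p ≤ q + 2)
      ∨ (j = 4 ∧ n = 4 ∧ 9 ≤ q ∧ q ≤ p + 5 ∧ p ≤ q + 4)
      ∨ (j = 5 ∧ n = 4 ∧ 9 ≤ q ∧ q ≤ p + 5 ∧ p ≤ q + 4)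
      ∨ (j = 2 ∧ n = 7 ∧ p = 9 ∧ q = 9)))
    138
    0x13248313d7001492321324831ad0802284d22a39832284802284841acf801acf811323831acf001acf042a3a8322858022858413d68013d684131c03131c8013259a1ad1802285d22a31002a3104149203131b80131b84149a802a3a872a3a072a39872a39072a3207298807298787298707298687297f87297f07297e87297e07228f07228e07228687227d07227c0721dc8721dc0721db8721db0721d40721d38721d30721d28721d20721d18721ca8721ca0721c98721c9071ada071ad9871ad9071ad8871ad1071ad0071ac7071ac6871a27871a27071a26871a26071a1f071a1e871a1e071a1d871a1d071a1c871a14871a1407149a8f148987148907132507132407132307131307127307127287127207127187127107126a87126a071269871269071268871268071261071260870ce6870ce6070cde070cdd870c34070c33870c2b870c2b070b7a070b79870b79070b78870b78070b77870b71870b71070b70870b70070b6f870b6f070b68070b67870ac7870ac7070ac6870ac6070ac5870ac5070abf070abe870abe070abd870abd070abc870ab5870ab507 = true := by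
  decide +kernel

/-- `6 k`, row `c + 4`, line `2 n - 1`, to the left, one step -/
theorem st_am (hf : Rule f) {k c n s : ℕ} (H : ZBH f k c n) (hs : s % 2 = 0) (h1 : 2 * n + 8 ≤ s) (h2 : s + 10 ≤ 2 * n + 2 * k)
    (g1 : f (6 * k) (c + 4) (s + 2) (2 * n - 1)) (g2 : ¬ f (6 * k) (c + 4) s (2 * n - 1)) : False := by
  have hk := H.T.hk
  have hc := H.T.hc
  have h4' := H.T.h4
  have hb := H.T.hb
  have hN := H.T.hN2
  obtain ⟨a0, ha0⟩ : ∃ z, z + 2 = 6 * k := ⟨6 * k - 2, by omega⟩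
  obtain ⟨b0, hb0⟩ : ∃ z, z + 3 = c := ⟨c - 3, by omega⟩
  obtain ⟨x0, hx0⟩ : ∃ z, z + 9 = s := ⟨s - 9, by omega⟩
  obtain ⟨y0, hy0⟩ : ∃ z, z + 10 = 2 * n := ⟨2 * n - 10, by omega⟩
  refine check_sound hf (a0 := a0) (b0 := b0) (x0 := x0) (y0 := y0) st_am_chk
    ⟨fun h => absurd h (by decide), fun h => absurd h (by decide), fun h => absurd h (by decide), by omega, by omega,
      by omega, by omega⟩ ?_ ?_
  · intro j m p q hr h
    obtain ⟨-, -, -, -, hp1, hp2, hq1, hq2⟩ := hr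
    replace h := of_decide_eq_true h
    obtain ⟨rfl, rfl, rfl, rfl⟩ := h
    exact mv g1 (by omega) (by omega) (by omega) (by omega)
  · intro j m p q hr h
    obtain ⟨-, -, -, -, hp1, hp2, hq1, hq2⟩ := hr
    replace h := of_decide_eq_true h
    rcases h with h | h | h | h | h | h | h | h | h | h | h | h | h | h | h
    · obtain ⟨rfl, rfl, h⟩ := h
      exact fun t => H.e0 hf (x0 + p) (y0 + q) (by omega) (by omega) (by omega) (by omega) (mv t (by omega) (by omega) rfl rfl)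
    · obtain ⟨rfl, rfl, h⟩ := h
      exact H.lw _ _ _ _ (by omega) (by omega) (by omega) (by omega) (by omega) (by omega)
    · obtain ⟨rfl, rfl, h⟩ := h
      exact H.lw _ _ _ _ (by omega) (by omega) (by omega) (by omega) (by omega) (by omega)
    · obtain ⟨rfl, rfl, h⟩ := h
      exact H.lw _ _ _ _ (by omega) (by omega) (by omega) (by omega) (by omega) (by omega)
    · obtain ⟨rfl, rfl, h⟩ := h
      exact H.lw _ _ _ _ (by omega) (by omega) (by omega) (by omega) (by omega) (by omega)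
    · obtain ⟨rfl, rfl, h⟩ := h
      exact fun t => H.p3_1 hf (x := x0 + p) (by omega) (by omega) (mv t (by omega) (by omega) rfl (by omega))
    · obtain ⟨rfl, rfl, h⟩ := h
      exact fun t => H.p3_2e hf (x := x0 + p) (by omega) (by omega) (by omega) (mv t (by omega) (by omega) rfl (by omega))
    · obtain ⟨rfl, rfl, h⟩ := h
      exact fun t => H.p3_3' hf (x := x0 + p) (by omega) (by omega) (mv t (by omega) (by omega) rfl (by omega))
    · obtain ⟨rfl, rfl, h⟩ := h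
      exact fun t => H.u2 (x0 + p) (by omega) (by omega) (by omega) (mv t (by omega) (by omega) rfl (by omega))
    · obtain ⟨rfl, rfl, h⟩ := h
      exact NHT.p2 hf H.T (j := 3) (by omega) (by omega) (by omega) (by omega) (by omega) (by omega)
    · obtain ⟨rfl, rfl, h⟩ := h
      exact fun t => NHT.r1i hf H.T (p := 0) (j := 5) (by omega) (by omega) (by omega) (by omega) (by omega) (by omega) (mv t rfl (by omega) rfl rfl)
    · obtain ⟨rfl, rfl, h⟩ := h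
      exact fun t => NHT.r1i hf H.T (p := 1) (j := 5) (by omega) (by omega) (by omega) (by omega) (by omega) (by omega) (mv t rfl (by omega) rfl rfl)
    · obtain ⟨rfl, rfl, h⟩ := h
      exact NHT.rOut hf H.T (t := 4) (p := 0) (j := 3) (by omega) (by omega) (by omega) (by omega) (by omega) (by omega) (by omega) (by omega)
    · obtain ⟨rfl, rfl, h⟩ := h
      exact NHT.rOut hf H.T (t := 4) (p := 1) (j := 3) (by omega) (by omega) (by omega) (by omega) (by omega) (by omega) (by omega) (by omega)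
    · obtain ⟨rfl, rfl, rfl, rfl⟩ := h
      exact fun t => g2 (mv t (by omega) (by omega) (by omega) (by omega))

/-- `6 k`, row `c + 4`, line `2 n - 1`, to the left: `d` from `2 k - 7` to `9` -/
theorem run_am (hf : Rule f) {k c n x0 x1 : ℕ} (H : ZBH f k c n) (he : x0 % 2 = 0) (he1 : x1 % 2 = 0) (h1 : 2 * n + 8 ≤ x0) (h2 : x1 + 8 ≤ 2 * n + 2 * k)
    (hle : x0 ≤ x1) (h : f (6 * k) (c + 4) x1 (2 * n - 1)) : f (6 * k) (c + 4) x0 (2 * n - 1) := by
  obtain ⟨i, rfl⟩ : ∃ i, x1 = x0 + 2 * i := ⟨(x1 - x0) / 2, by omega⟩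
  induction i with
  | zero => exact h
  | succ i ih =>
    refine ih (by omega) (by omega) (by omega) ?_
    by_contra hn
    exact st_am hf H (s := x0 + 2 * i) (by omega) (by omega) (by omega) (mv h rfl rfl (by omega) rfl) hn

theorem st_im_chk : check 12 11 21 17 0 1 1 0 0
    (fun j n p q => decide ((j = 4 ∧ n = 5 ∧ p = 11 ∧ q = 9)))
    (fun j n p q => decide ((j = 3 ∧ n = 5 ∧ 5 ≤ p ∧ q ≤ p + 2 ∧ p ≤ q + 1 ∧ ¬ (p % 2 = 1 ∧ q % 2 = 0))
      ∨ (j = 1 ∧ n = 4 ∧ q ≤ p + 9 ∧ p ≤ q + 9)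
      ∨ (j = 1 ∧ n = 5 ∧ q ≤ p + 9 ∧ p ≤ q + 9)
      ∨ (j = 5 ∧ n = 5 ∧ 11 ≤ p ∧ p ≤ 12 ∧ q = 11)
      ∨ (j = 5 ∧ n = 5 ∧ 11 ≤ p ∧ p ≤ 11 ∧ q = 12 ∧ p % 2 = 1)
      ∨ (j = 5 ∧ n = 5 ∧ 11 ≤ p ∧ p ≤ 13 ∧ q = 13)
      ∨ (j = 4 ∧ n = 5 ∧ 10 ≤ p ∧ p ≤ 14 ∧ q = 14 ∧ p % 2 = 0)
      ∨ (j = 5 ∧ n = 5 ∧ 14 ≤ q ∧ q ≤ p + 5 ∧ p ≤ q + 4)
      ∨ (j = 2 ∧ n = 4 ∧ 4 ≤ p ∧ q ≤ p + 3 ∧ p ≤ q + 2)
      ∨ (j = 3 ∧ n = 4 ∧ 4 ≤ p ∧ q ≤ p + 3 ∧ p ≤ q + 2)
      ∨ (j = 4 ∧ n = 4 ∧ 4 ≤ p ∧ q ≤ p + 4 ∧ p ≤ q + 3)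
      ∨ (j = 5 ∧ n = 4 ∧ 9 ≤ q ∧ q ≤ p + 5 ∧ p ≤ q + 4)
      ∨ (j = 4 ∧ n = 5 ∧ p = 9 ∧ q = 9)))
    104
    0x1324831ad0802284d22a3a832285802a39d2131c03131c8013259a1ad1802285d22a31002a31042284802284841acf8022845a228c802a3a872a3a072a39872a39072a3207298807298787298707298687297f87297f07297e87297e07228f07228e07228c8f228687227d07227c07227b87227b0721dc8721dc0721db8721db0721d40721d38721d30721d28721d20721d18721d10721ca8721ca0721c98721c90721c8871ada071ad9871ad9071ad8871ad1071ad0071a27871a27071a26871a26071a25871a1f071a1e871a1e071a1d871a1d07132507132407131307127307127287127207127187126a87126a071269871269071261071260870b7a070b79870b79070b78870b71870b71070b70870b70070b68070b67870ac7870ac7070ac6870ac6070abf070abe870abe070abd870ab5870ab507 = true := by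
  decide +kernel

/-- `6 k + 2`, row `c + 2`, line `2 n - 1`, to the left, one step -/
theorem st_im (hf : Rule f) {k c n s : ℕ} (H : ZBH f k c n) (hs : s % 2 = 0) (h1 : 2 * n + 8 ≤ s) (h2 : s + 10 ≤ 2 * n + 2 * k)
    (g1 : f (6 * k + 2) (c + 2) (s + 2) (2 * n - 1)) (g2 : ¬ f (6 * k + 2) (c + 2) s (2 * n - 1)) : False := by
  have hk := H.T.hk
  have hc := H.T.hc
  have h4' := H.T.h4
  have hb := H.T.hb
  have hN := H.T.hN2
  obtain ⟨a0, ha0⟩ : ∃ z, z + 2 = 6 * k := ⟨6 * k - 2, by omega⟩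
  obtain ⟨b0, hb0⟩ : ∃ z, z + 3 = c := ⟨c - 3, by omega⟩
  obtain ⟨x0, hx0⟩ : ∃ z, z + 9 = s := ⟨s - 9, by omega⟩
  obtain ⟨y0, hy0⟩ : ∃ z, z + 10 = 2 * n := ⟨2 * n - 10, by omega⟩
  refine check_sound hf (a0 := a0) (b0 := b0) (x0 := x0) (y0 := y0) st_im_chk
    ⟨fun h => absurd h (by decide), fun h => absurd h (by decide), fun h => absurd h (by decide), by omega, by omega,
      by omega, by omega⟩ ?_ ?_
  · intro j m p q hr h
    obtain ⟨-, -, -, -, hp1, hp2, hq1, hq2⟩ := hr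
    replace h := of_decide_eq_true h
    obtain ⟨rfl, rfl, rfl, rfl⟩ := h
    exact mv g1 (by omega) (by omega) (by omega) (by omega)
  · intro j m p q hr h
    obtain ⟨-, -, -, -, hp1, hp2, hq1, hq2⟩ := hr
    replace h := of_decide_eq_true h
    rcases h with h | h | h | h | h | h | h | h | h | h | h | h | h
    · obtain ⟨rfl, rfl, h⟩ := h
      exact fun t => H.e0 hf (x0 + p) (y0 + q) (by omega) (by omega) (by omega) (by omega) (mv t (by omega) (by omega) rfl rfl)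
    · obtain ⟨rfl, rfl, h⟩ := h
      exact H.lw _ _ _ _ (by omega) (by omega) (by omega) (by omega) (by omega) (by omega)
    · obtain ⟨rfl, rfl, h⟩ := h
      exact H.lw _ _ _ _ (by omega) (by omega) (by omega) (by omega) (by omega) (by omega)
    · obtain ⟨rfl, rfl, h⟩ := h
      exact fun t => H.p3_1 hf (x := x0 + p) (by omega) (by omega) (mv t (by omega) (by omega) rfl (by omega))
    · obtain ⟨rfl, rfl, h⟩ := h
      exact fun t => H.p3_2e hf (x := x0 + p) (by omega) (by omega) (by omega) (mv t (by omega) (by omega) rfl (by omega))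
    · obtain ⟨rfl, rfl, h⟩ := h
      exact fun t => H.p3_3' hf (x := x0 + p) (by omega) (by omega) (mv t (by omega) (by omega) rfl (by omega))
    · obtain ⟨rfl, rfl, h⟩ := h
      exact fun t => H.u2 (x0 + p) (by omega) (by omega) (by omega) (mv t (by omega) (by omega) rfl (by omega))
    · obtain ⟨rfl, rfl, h⟩ := h
      exact NHT.p2 hf H.T (j := 3) (by omega) (by omega) (by omega) (by omega) (by omega) (by omega)
    · obtain ⟨rfl, rfl, h⟩ := h
      exact fun t => NHT.r1i hf H.T (p := 0) (j := 5) (by omega) (by omega) (by omega) (by omega) (by omega) (by omega) (mv t rfl (by omega) rfl rfl)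
    · obtain ⟨rfl, rfl, h⟩ := h
      exact fun t => NHT.r1i hf H.T (p := 1) (j := 5) (by omega) (by omega) (by omega) (by omega) (by omega) (by omega) (mv t rfl (by omega) rfl rfl)
    · obtain ⟨rfl, rfl, h⟩ := h
      exact fun t => NHT.r1i hf H.T (p := 0) (j := 4) (by omega) (by omega) (by omega) (by omega) (by omega) (by omega) (mv t rfl (by omega) rfl rfl)
    · obtain ⟨rfl, rfl, h⟩ := h
      exact NHT.rOut hf H.T (t := 4) (p := 1) (j := 3) (by omega) (by omega) (by omega) (by omega) (by omega) (by omega) (by omega) (by omega)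
    · obtain ⟨rfl, rfl, rfl, rfl⟩ := h
      exact fun t => g2 (mv t (by omega) (by omega) (by omega) (by omega))

/-- `6 k + 2`, row `c + 2`, line `2 n - 1`, to the left: `d` from `2 k - 7` to `9` -/
theorem run_im (hf : Rule f) {k c n x0 x1 : ℕ} (H : ZBH f k c n) (he : x0 % 2 = 0) (he1 : x1 % 2 = 0) (h1 : 2 * n + 8 ≤ x0) (h2 : x1 + 8 ≤ 2 * n + 2 * k)
    (hle : x0 ≤ x1) (h : f (6 * k + 2) (c + 2) x1 (2 * n - 1)) : f (6 * k + 2) (c + 2) x0 (2 * n - 1) := by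
  obtain ⟨i, rfl⟩ : ∃ i, x1 = x0 + 2 * i := ⟨(x1 - x0) / 2, by omega⟩
  induction i with
  | zero => exact h
  | succ i ih =>
    refine ih (by omega) (by omega) (by omega) ?_
    by_contra hn
    exact st_im hf H (s := x0 + 2 * i) (by omega) (by omega) (by omega) (mv h rfl rfl (by omega) rfl) hn

end Pool.Agent.SNT.TrR
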