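import Pool.Agent.SNT.LLF
import Pool.Agent.SNT.LV
import Pool.Agent.SNT.LVf
import Pool.Agent.SNT.TrR2
import Pool.Agent.SNT.O2Ws
import Pool.Agent.SNT.PurV

set_option autoImplicit false

/-! The cells `v = 1` and `v = 4` of `Wall9`: the chain of lines in the cycle before. -/

namespace Pool.Agent.SNT.LPA

open Pool.Agent.SNT Pool.Agent.SNT.LRI Pool.Agent.SNT.LW Pool.Agent.SNT.NHZ Pool.Agent.SNT.DRun Pool.Agent.SNT.D1E

variable {f : ℕ → ℕ → ℕ → ℕ → Prop} {k b m c n : ℕ}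

/-- the structure of the middle of the strip -/
theorem zbh_of_win (hf : Rule f) (W : Win f k b m n) : Zb.ZBH f k (b + 22) n where
  T := (W.li hf).T
  lw := by
    intro A R x y h1 h2 h3 h4 h5 h6
    obtain ⟨hk, hb2, hb4, hbl, hm⟩ := id W.hs
    have hn := W.hn
    have := lw_zero W.hs W.S (i := R - b) (R := R) (x := x) (y := y) (by omega) (by omega) (by omega) h5 (by omega)
    rwa [show A = 6 * k - 1 by omega]
  u2 := by
    intro x h1 h2 h3
    have := (PV.purity_stack hf W.hs W.S W.hn (WrapC.cyc_mono W.d0 (by omega)) (WrapC.cyc_mono W.d2 (by omega)) W.d4 h3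
      (by omega) (by omega)).1
    rwa [show b + 22 + 2 = b + 24 by ring]
  w1 := by
    have hk : 8 ≤ k := W.hs.1
    have hn := W.hn
    have := O2W.w1_wall hf W.hs W.S W.hn (WrapC.cyc_mono W.d2 (by omega)) (fun x h1 h2 h3 =>
      (PV.purity_stack hf W.hs W.S W.hn (WrapC.cyc_mono W.d0 (by omega)) (WrapC.cyc_mono W.d2 (by omega)) W.d4 h1
      (by omega) (by omega)).1)
    unfold Sig.sr Sig.bY Sig.bO
    rw [show b + 22 + 2 = b + 24 by ring, show 2 * (n + k - 4) + 1 = 2 * n + 2 * k - 7 by omega]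
    rw [show 2 * (n + 1) = 2 * n + 2 by ring]
    exact this

/-- The facts of one cycle over the windows with the deep lead. -/
structure PA (f : ℕ → ℕ → ℕ → ℕ → Prop) (k c n : ℕ) : Prop where
  H : LI f k c n
  hF2 : F2 f k c n
  hF6 : F6 f k c n
  I : LineR0.In f (6 * k) c n (n + 2 - k) (n - 5) (n - 4)
  Z : Cyc f (6 * k) (c - 2) (2 * (n - 3) + 2)
  C4 : Cyc f (6 * k + 4) (c - 6) (2 * (n - (k + 1)) + 2)
  C0 : Cyc f (6 * k) (c - 6) (2 * (n - (k + 5)) + 2)
  Ps : Z34P.PS f k c n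
  Zs : Z3N.ZS f k c n
  Zb : Zb.ZBH f k c n
  Pl : PL f k c n (n - 4)
  h4 : L4T.H f k c n
  /-- the in-line `2 n - 1` of `6 k + 4` -/
  t1 : ∀ y : ℕ, y % 2 = 0 → 2 * n + 4 ≤ y + 2 * k → y + 2 ≤ 2 * n → f (6 * k + 4) (c - 2) (2 * n - 1) y
  /-- the in-line `2 n + 3` of `6 k + 4` -/
  t3 : ∀ y : ℕ, y % 2 = 0 → 2 * n + 8 ≤ y + 2 * k → y ≤ 2 * n + 2 → f (6 * k + 4) (c - 2) (2 * n + 3) y
  /-- the tip of the leader -/
  tip : f (6 * k + 10) c (2 * n + 1) (2 * n)
  /-- no beam in the line `2 n + 3` of `6 k + 4` in the row `c + 2` -/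
  ny : ∀ x : ℕ, x % 2 = 0 → 2 * n + 6 ≤ x → x + 2 ≤ 2 * n + 2 * k → ¬ f (6 * k + 4) (c + 2) x (2 * n + 3)
  nb : ∀ y : ℕ, y % 2 = 0 → 2 * n + 4 ≤ y + 2 * k → y + 2 ≤ 2 * n → ¬ f (6 * k + 4) c (2 * n + 3) y

/-- the facts of the cycle `j + 2` -/
theorem PA.of (hf : Rule f) (W : WL0 f k b m 5) (j : ℕ) : PA f k (b + 4 * (j + 2) + 22) (D1.nn k m (j + 2)) := by
  have W2 := W.win (j + 2)
  have H := W2.li hf
  have e1 : D1.nn k m (j + 2) = D1.nn k m (j + 1) + k + 2 := by unfold D1.nn; ring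
  have e3 : D1.nn k m (j + 3) = D1.nn k m (j + 2) + k + 2 := by unfold D1.nn; ring
  have hk := H.T.hk
  have hN := H.T.hN2
  exact {
    H := H
    hF2 := F2.of hf H (W2.K2 hf)
    hF6 := F6.of hf H (W2.K6 hf)
    I := W.inp hf (j + 1)
    Z := D1.cyc_of_eq (W.l0 (j + 3)) (by omega) (by omega)
    C4 := D1.cyc_of_eq (W.win (j + 1)).d4 (by omega) (by omega)
    C0 := D1.cyc_of_eq (W.l0 (j + 2)) (by omega) (by omega)
    Ps := Z34P.PS.of W.w (j + 1)
    Zs := Z3N.ZS.of W (j + 1)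
    Zb := zbh_of_win hf W2
    Pl := L4T.pl_of_win W2
    h4 := L4T.H.of hf W2 (W.win (j + 1)) (by ring) (by ring)
    t1 := fun y h1 h2 h3 => L4T.line_m1 hf W j h1 h2 h3
    t3 := fun y h1 h2 h3 => L4T.line_3 hf W (j + 1) h1 h2 h3
    tip := W.w.tip hf (j + 2)
    ny := fun x h1 h2 h3 => Z4N.noY3_of hf W.w (j + 2) (W.w.tip hf (j + 2)) h1 h2 h3
    nb := fun y h1 h2 h3 => W2.nb hf h1 h2 h3 }

namespace PA

/-- the out-line `2 n - 3` of `6 k` missing near the wall: the in-line `2 n - 5` is missing -/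
theorem x5 (hf : Rule f) (a : PA f k c n) (h : ¬ f (6 * k) c (2 * n + 2 * k - 10) (2 * n - 3)) :
    ¬ f (6 * k) (c - 2) (2 * n - 5) (2 * n - 12) := by
  intro g
  have hk := a.H.T.hk
  have hN := a.H.T.hN2
  have hc := a.H.T.hc
  have h1 := winD2 hf a.H (Or.inr (a.t1 (2 * n - 8) (by omega) (by omega) (by omega))) g
  exact h (Z1G.row_run hf (x1 := 2 * n + 2 * k - 10) (by omega) hc (by omega) (by omega) (fun x a1 a2 a3 =>
    a.H.T.c0i hf (j := 5) (by omega) (by omega) (by omega) (by omega) (by omega) (by omega)) h1 _ (by omega) le_rfl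
    (by omega))

theorem x5w (hf : Rule f) (a : PA f k c n) (h : ¬ f (6 * k) (c - 2) (2 * n - 5) (2 * n - 12)) {y : ℕ} (hy : y % 2 = 0)
    (h1 : 2 * n + 2 ≤ y + 2 * k) (h2 : y + 12 ≤ 2 * n) : ¬ f (6 * k) (c - 2) (2 * n - 5) y := by
  intro g
  have hk := a.H.T.hk
  have hN := a.H.T.hN2
  exact h (Z3N.run hf a.Zs (i := 5) (by omega) (by omega) (by omega) (by omega) hy (by omega) (by omega) g
    (by omega) (by omega) (by omega))

/-- the in-line `2 n - 7` of `6 k` is present -/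
theorem x7 (hf : Rule f) (a : PA f k c n) (h : ¬ f (6 * k) (c - 2) (2 * n - 5) (2 * n - 12)) :
    f (6 * k) (c - 2) (2 * n - 7) (2 * n - 14) := by
  have hk := a.H.T.hk
  have hN := a.H.T.hN2
  rcases Z34P.p1b hf a.Ps with h1 | h1 | h1
  · exact Z3N.run hf a.Zs (i := 5) (by omega) (by omega) (by omega) (by omega) (by omega) (by omega) (by omega) h1
      (by omega) (by omega) (by omega)
  · exact absurd h1 (a.x5w hf h (by omega) (by omega) (by omega))
  · exact (Z3N.xb hf a.Zs (a.t1 (2 * n - 2) (by omega) (by omega) (by omega)) (Z3N.run hf a.Zs (i := 4) (by omega)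
      (by omega) (by omega) (by omega) (by omega) (by omega) (by omega) h1 (by omega) (by omega) (by omega))).elim

/-- no beam of the column `2 n - 3` of `6 k` in the row `c` -/
theorem xm3 (hf : Rule f) (a : PA f k c n) (h : ¬ f (6 * k) (c - 2) (2 * n - 5) (2 * n - 12)) :
    ¬ f (6 * k) c (2 * n - 3) (2 * n - 10) := winD3a hf a.H a.hF2 a.hF6 h (a.x7 hf h)

/-- the out-line `2 n - 1` of `6 k` in the row `c + 4` is missing near the wall -/
theorem om1 (hf : Rule f) (a : PA f k c n) (h : ¬ f (6 * k) (c - 2) (2 * n - 5) (2 * n - 12)) :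
    ¬ f (6 * k) (c + 4) (2 * n + 2 * k - 8) (2 * n - 1) := by
  intro g
  have hk := a.H.T.hk
  have hN := a.H.T.hN2
  have g1 := TrR.run_am hf a.Zb (x0 := 2 * n + 8) (by omega) (by omega) (by omega) (by omega) (by omega) g
  have h7 := a.x7 hf h
  exact vD3c8 hf a.H a.hF2 a.hF6 a.Z (fun e1 e2 e3 e4 => flexP h7 (by omega) (by omega) (by omega) (by omega))
    (fun e1 e2 e3 e4 => flexN h (by omega) (by omega) (by omega) (by omega))
    (fun e1 e2 e3 e4 => flexP g1 (by omega) (by omega) (by omega) (by omega))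
    (fun e1 e2 e3 e4 => flexP (a.t1 (2 * n - 8) (by omega) (by omega) (by omega)) (by omega) (by omega) (by omega) (by omega))

/-- the out-line `2 n + 5` of `6 k + 4` is present -/
theorem o5 (hf : Rule f) (a : PA f k c n) {x : ℕ} (hx : x % 2 = 0) (h1 : 2 * n + 8 ≤ x) (h2 : x ≤ 2 * n + 2 * k) :
    f (6 * k + 4) c x (2 * n + 5) := by
  have hk := a.H.T.hk
  have hN := a.H.T.hN2
  have hc := a.H.T.hc
  have h3 := Z1G.wr4 hf a.Pl (X := 2 * n + 3) (by omega) (by omega) (by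
    have := a.t3 (2 * n + 2) (by omega) (by omega) (by omega)
    rwa [show 2 * n + 3 - 1 = 2 * n + 2 by omega])
  exact Z1G.row_run hf (x0 := 2 * n + 8) (x1 := x) (by omega) hc (by omega) (by omega) (fun x a1 a2 a3 =>
    a.H.T.c0i hf (j := 3) (by omega) (by omega) (by omega) (by omega) (by omega) (by omega)) h3 _ (by omega) le_rfl hx

end PA

end Pool.Agent.SNT.LPA
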