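import Pool.Agent.SNT.L4TH

set_option autoImplicit false

/-! The window W5 of the wall cells v = 1, 4 (helper33). -/

namespace Pool.Agent.SNT.L4T

open Pool.Agent.SNT Pool.Agent.SNT.Loc Pool.Agent.SNT.LW Pool.Agent.SNT.NHZ

variable {f : ℕ → ℕ → ℕ → ℕ → Prop} {k c n : ℕ}

def w5T (j n p q : ℕ) : Bool :=
  ((((decide (j = 2 ∧ n = 2 ∧ q ≤ p + 15 ∧ ((p > 0) ∨ (q ≤ p + 1) ∨ (p + 2 ≤ q ∧ q > 2)) ∧ (((p + q + 1) % 2 = 1 ∧ p + 1 < q ∧ (p) % 2 = 0) ∨ (q ≤ p + 2 ∧ (p + q + 2) % 4 = 0)))) ||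
    (decide (j = 2 ∧ n = 3 ∧ q ≤ p + 15 ∧ ((p > 2) ∨ (p + 2 ≤ q ∧ q > 4)) ∧ (q ≤ p + 1 ∧ (p + q + 3) % 4 = 0)))) ||
    (decide (j = 2 ∧ n = 4 ∧ q ≤ p + 15 ∧ p > 4 ∧ (((p + q + 1) % 2 = 1 ∧ p + 1 < q ∧ (p) % 2 = 1) ∨ (q ≤ p + 2 ∧ (p + q) % 4 = 0))))) ||
    (((decide (j = 2 ∧ n = 5 ∧ q ≤ p + 15 ∧ ((p > 6) ∨ (p + 1 ≤ q ∧ p > 5)) ∧ (q ≤ p + 1 ∧ (p + q + 1) % 4 = 0))) ||
    (decide (j = 2 ∧ n = 6 ∧ q ≤ p + 15 ∧ q ≤ p + 1 ∧ p > 8 ∧ (((p + q + 1) % 2 = 1 ∧ p + 1 < q ∧ (p) % 2 = 0) ∨ (q ≤ p + 2 ∧ (p + q + 2) % 4 = 0))))) ||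
    (decide (j = 4 ∧ n = 1 ∧ q ≤ p + 15 ∧ ((p + 2 > 0) ∨ (p + 2 ≤ q ∧ q > 0)) ∧ (q ≤ p + 1 ∧ (p + q + 3) % 4 = 0))))) ||
    ((((decide (j = 4 ∧ n = 2 ∧ q ≤ p + 15 ∧ p > 0 ∧ (((p + q + 1) % 2 = 1 ∧ p + 1 < q ∧ (p) % 2 = 1) ∨ (q ≤ p + 2 ∧ (p + q) % 4 = 0)))) ||
    (decide (j = 4 ∧ n = 3 ∧ q ≤ p + 15 ∧ ((p > 2) ∨ (p + 1 ≤ q ∧ p > 1)) ∧ (q ≤ p + 1 ∧ (p + q + 1) % 4 = 0)))) ||
    (decide (j = 4 ∧ n = 4 ∧ q ≤ p + 15 ∧ q ≤ p + 1 ∧ p > 4 ∧ (((p + q + 1) % 2 = 1 ∧ p + 1 < q ∧ (p) % 2 = 0) ∨ (q ≤ p + 2 ∧ (p + q + 2) % 4 = 0))))) ||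
    (((decide (j = 6 ∧ n = 1 ∧ q ≤ p + 15 ∧ (q ≤ p + 1 ∧ (p + q + 1) % 4 = 0))) ||
    (decide (j = 6 ∧ n = 2 ∧ q ≤ p + 15 ∧ ((p > 8) ∨ (q ≤ p + 1) ∨ (p + 2 ≤ q ∧ q > 10)) ∧ (((p + q + 1) % 2 = 1 ∧ p + 1 < q ∧ (p) % 2 = 0) ∨ (q ≤ p + 2 ∧ (p + q + 2) % 4 = 0))))) ||
    (decide (j = 6 ∧ n = 3 ∧ q ≤ p + 15 ∧ ((p > 10) ∨ (p + 2 ≤ q ∧ q > 12)) ∧ (q ≤ p + 1 ∧ (p + q + 3) % 4 = 0)))))

def w5F (j n p q : ℕ) : Bool :=
  ((((((decide (j = 2 ∧ n = 2 ∧ q ≤ p + 15 ∧ ((p > 0) ∨ (q ≤ p + 1) ∨ (p + 2 ≤ q ∧ q > 2)) ∧ ¬ (((p + q + 1) % 2 = 1 ∧ p + 1 < q ∧ (p) % 2 = 0) ∨ (q ≤ p + 2 ∧ (p + q + 2) % 4 = 0)))) ||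
    (decide (j = 2 ∧ n = 3 ∧ q ≤ p + 15 ∧ ((p > 2) ∨ (p + 2 ≤ q ∧ q > 4)) ∧ ¬ (q ≤ p + 1 ∧ (p + q + 3) % 4 = 0)))) ||
    (decide (j = 2 ∧ n = 4 ∧ q ≤ p + 15 ∧ p > 4 ∧ ¬ (((p + q + 1) % 2 = 1 ∧ p + 1 < q ∧ (p) % 2 = 1) ∨ (q ≤ p + 2 ∧ (p + q) % 4 = 0))))) ||
    ((decide (j = 2 ∧ n = 5 ∧ q ≤ p + 15 ∧ ((p > 6) ∨ (p + 1 ≤ q ∧ p > 5)) ∧ ¬ (q ≤ p + 1 ∧ (p + q + 1) % 4 = 0))) ||
    (decide (j = 4 ∧ n = 3 ∧ q ≤ p + 15 ∧ ((p > 2) ∨ (p + 1 ≤ q ∧ p > 1)) ∧ ¬ (q ≤ p + 1 ∧ (p + q + 1) % 4 = 0))))) ||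
    (((decide (j = 4 ∧ n = 4 ∧ q ≤ p + 15 ∧ q ≤ p + 1 ∧ p > 4 ∧ ¬ (((p + q + 1) % 2 = 1 ∧ p + 1 < q ∧ (p) % 2 = 0) ∨ (q ≤ p + 2 ∧ (p + q + 2) % 4 = 0)))) ||
    (decide (j = 6 ∧ n = 1 ∧ q ≤ p + 15 ∧ ¬ (q ≤ p + 1 ∧ (p + q + 1) % 4 = 0)))) ||
    ((decide (j = 6 ∧ n = 2 ∧ q ≤ p + 15 ∧ ((p > 8) ∨ (q ≤ p + 1) ∨ (p + 2 ≤ q ∧ q > 10)) ∧ ¬ (((p + q + 1) % 2 = 1 ∧ p + 1 < q ∧ (p) % 2 = 0) ∨ (q ≤ p + 2 ∧ (p + q + 2) % 4 = 0)))) ||
    (decide (j = 6 ∧ n = 3 ∧ q ≤ p + 15 ∧ ((p > 10) ∨ (p + 2 ≤ q ∧ q > 12)) ∧ ¬ (q ≤ p + 1 ∧ (p + q + 3) % 4 = 0)))))) ||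
    (((((decide (j = 2 ∧ n = 5 ∧ p ≥ 5 ∧ p + 7 ≤ q ∧ q ≤ p + 12)) ||
    (decide (j = 3 ∧ n = 3 ∧ p + 6 ≤ q ∧ q ≤ p + 13))) ||
    (decide (j = 3 ∧ n = 4 ∧ p ≥ 4 ∧ p + 6 ≤ q ∧ q ≤ p + 13))) ||
    ((decide (j = 3 ∧ n = 5 ∧ p ≥ 5 ∧ p + 7 ≤ q ∧ q ≤ p + 12)) ||
    (decide (j = 4 ∧ n = 5 ∧ p ≥ 5 ∧ p + 6 ≤ q ∧ q ≤ p + 13)))) ||
    (((decide (j = 5 ∧ n = 3 ∧ p + 5 ≤ q ∧ q ≤ p + 14)) ||
    (decide (j = 5 ∧ n = 4 ∧ p ≥ 4 ∧ p + 5 ≤ q ∧ q ≤ p + 14))) ||
    ((decide (j = 5 ∧ n = 5 ∧ p ≥ 5 ∧ p + 6 ≤ q ∧ q ≤ p + 13)) ||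
    (decide (j = 6 ∧ n = 3 ∧ p + 4 ≤ q ∧ q ≤ p + 15)))))) ||
    ((((((decide (j = 6 ∧ n = 5 ∧ p ≥ 5 ∧ p + 5 ≤ q ∧ q ≤ p + 14)) ||
    (decide (j = 7 ∧ n = 1 ∧ p ≥ 2 ∧ p + 1 ≤ q ∧ q ≤ p + 16))) ||
    (decide (j = 7 ∧ n = 2 ∧ p ≥ 2 ∧ p + 1 ≤ q ∧ q ≤ p + 16))) ||
    ((decide (j = 7 ∧ n = 3 ∧ p ≥ 6 ∧ p + 2 ≤ q ∧ q ≤ p + 15)) ||
    (decide (j = 7 ∧ n = 4 ∧ p ≥ 6 ∧ p + 2 ≤ q ∧ q ≤ p + 15)))) ||
    (((decide (j = 7 ∧ n = 5 ∧ p ≥ 5 ∧ p + 5 ≤ q ∧ q ≤ p + 14)) ||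
    (decide (j = 7 ∧ n = 5 ∧ p ≥ 12 ∧ p + 3 ≤ q ∧ q ≤ p + 14))) ||
    ((decide (j = 7 ∧ n = 6 ∧ p ≥ 10 ∧ p + 5 ≤ q ∧ q ≤ p + 14)) ||
    (decide (j = 7 ∧ n = 6 ∧ p ≥ 12 ∧ p + 3 ≤ q ∧ q ≤ p + 14))))) ||
    (((((decide (j = 3 ∧ n = 6 ∧ p ≥ 5 ∧ p ≤ 9 ∧ q ≥ 12)) ||
    (decide (j = 5 ∧ n = 6 ∧ p ≥ 7 ∧ p ≤ 9 ∧ q ≥ 13))) ||
    (decide (j = 7 ∧ n = 6 ∧ p ≥ 8 ∧ p ≤ 9 ∧ q ≥ 14))) ||
    ((decide (j = 6 ∧ n = 6 ∧ p = 9 ∧ q ≥ 15 ∧ q ≤ 17 ∧ q % 2 = 1)) ||
    (decide (j = 6 ∧ n = 6 ∧ p = 11 ∧ q ≥ 14 ∧ q % 2 = 1)))) ||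
    (((decide (j = 1 ∧ q ≤ p + 15)) ||
    (decide (j = 2 ∧ n = 4 ∧ p = 3 ∧ q = 13))) ||
    ((decide (j = 4 ∧ n = 6 ∧ p = 7 ∧ q = 17)) ||
    (decide (j = 2 ∧ n = 6 ∧ p = 5 ∧ q = 15))))))

theorem w5_chk : check 7 8 14 19 0 0 0 1 0 w5T w5F
    1187
    0x184b831410001838ca1c6a031837801837811380001389920bab030fd3801405520fd2830b1b000b1b010a82800a830a0a83800eb5da136c001375921404801404841389801389841c6a031837801837811405001405041b4c051b42001f7dd21f73d21bda001be41a1acf801be3001b5eba1bec921b68001c7b801bf73a1c7c0a1c7c801c7d0a1a41801b72801e73521b72811ada001f87ea1be4801be4841406030fd3800fd3810ba1000ba10420af831c7d001c7d040fd4830ba2000ba204140680140684142d831855801c7e4a20a60020a6041c7e03184b80184b84209c831c6a001c6a0412fb83138080138084140603182e00182e0412fc831381801381840bd4030ffc000ffc040bac030fd4000fd4041f91831bee801bee841f74831bdb001bdb041f9203201700201704130603138b00138b041c7e0317c68017c6840a8c030b11800b118412fc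8313818014072a0fd4800fd484140703182e80182e8418388313810013810413940317bc0017bc04130f8317bd0017bd040ba2030fca000fca041e73031ad0801ad084130f831394801394840b1b830f43800f438412fb8312fc0012fc041fa5831c02801c028412fb8317a88017a884138983138a00138a041acf831ad0001ad0041fa58320210020210412f1031376801376841f91831be5001be50413a80317d00017d004142203184a80184a8412f1031376001376041fa6031c030020b0ea185600185604131903139e80139e8420b0831bf9001bf9040b1b830fc8800fc88409f3830a79000a790412fb8312fc0013061a138b80138b841f92031bef001bef04139d83139e00139e041bec831bed001bed04130f8317bc8017bc841e5f831abc801abc84130503172d80172d841f9b83202a00202a041fa58317420017428a139f00139f04131903174100174104183983140700140704130f8313950013950412fb8312fc0013061a17b38017b384141003183800183804139d83184b00184b041b68031bed801bed840bdd831005801005841ae3831b69001b6904130503172d00172d041f7e831b43001b430412f203137700137704139d831423001423040baa030fd2000fd2041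f9b831bf8801bf8840bb5830fde000fde041ae3851f9a801b72ba1f9b0a1bf8001bf8040a84800a8e120ba3030b13800b13810a7b000a851a0a84000a84040ba3030fca800fca840bbf030fe7800fe7841f9b832020802020840ba3030b13800b13810a7b000a851a0a84000a84010eab800eab8420a703184c80184c8417428317c78017c7840fd6830ba4000fd5d20ba3000ba3040bb5830fdd800fdd841fa5831b6a001b6a04138983140f00140f040b1b830f43801375da13fb0013fb041bec831c72001c720413238313a88013a88413898317b20017b20412fc8317a98017a984183a831408001408040a8e030b13000b13040bd3030ffb00142cd21854801854840bd4030ffc00142442184c00184c040b1b830ba0800ba0840ba3030fcb000fcb04139d8317c58017c584130f8313100013108a13110013110420b08317d10017d1040bd3030ffb00142d5a1855001855041ae3831b69001f91ca1b56001b560413060317b30017b30413238317d08017d0841b74051b6a001fa5d21f9bd21c02001c020413050317b28017b2841acf831b55001b55040ba1030fc9000fc904139f0317c70017c7040a84030eac000eac040a85800a860a0a86800a870a0eb8830a7d000a7d041422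03184a00184a04183a831408001839d21407001407011377801377840bab030fd3000fd304130503138a80138a84139d8317c60017c60413898318370018370412fb8317a90017a9040bd3030ffb800ffb840a8c030b11000b11040eb7830a7c000a7c041b71001b5d001b71011ae1801ad8801b5d011acd801ac48013a6801392801af7801aec801a5f001a5d001a54001ae1811a52001a4c001ad8811a49001a40001acd811a3e001ac4811a35001a2c0019bb8013220013a681131700130e0013928113030012fa0012e600129d80129b80129280128980128780127e80127580127380126a80126180121700120e00120c0012060012050012030011fa0011f80011f10011ef0011e600118980118780117e80117580117380116a80116180115f801156800bdc000bc8000b57800b4c800b43800b38800b2f800ad3000ad1000ac8000ac0000abf000abd000ab4000aad000aac000aab000aa0000a9a000a99000a98000a97000a95000a4c800a43800a38800a2f800a24800a1b800a078009fc8009c00009bf0009ad0009ac0009ab00099900099800099700098500098400098300097000096f0009640020b08720b00720af8720a70720a687209d87209d07209c872093072092872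02b87202b07202a87202207202187201887201807201787200e07200d871fa6071fa5871fa5071f9c871f9c071f9b871f9b071f92071f91871f91071f88871f88071f87871f87071f7e871f7e071f7d871f7d071f75071f74871f74071f73871f73071f6b071f6a871f6a071f69871f21071f20871f20071f17871f17071f16871f16071f0d071f0c871f0c071f03871f03071f02871f02071ef9871ef9071ef8871ef8071ef0071eef871eef071eee871eee071ee6071ee5871ee5071ee4871e73071e72871e69871e69071e5f871e5f071e56071e55871dee071ded871de4871de4071dda871dda071dd1071dd0871c88871c87871c7f071c7e071c75871c74871c73871c72871c6b071c60871c03871bfa071bf9871bf0871bf0071bef871be6071be5871bdb871b7d871b69871b68871b67871b56871b55871b54871b53871b42871b41871af9071af8871af8071af78f1aef871aef071aee871aee071aed871aed071aec8f1aec071aeb871ae5071ae4871adb871adb071ad1871ad1071ac8071ac7871ac7071abe071abd871abd071a5f0f1a5e871a5e071a5d0f1a5c871a5c071a55071a54871a540f1a53871a53071a52871a520f1a4c0f1a4a871a4a071a49871a490f1a48871a48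071a40871a400f1a3f871a3f071a3e871a3e0f1a37871a36071a35871a350f1a2c0f19c60719c58719bc8719bc0719bb8f19b28719b20719a90719a887184207183a87183a07183987183907183887183107183087183007182f87182f0717b58717b50717b48717b40717ac0717ab8717ab0717aa8717aa0717428717390717388716bd8716b40716b387142387142287142187141287141187141087140f8714090713fd8713fc8713fb87138d87138d07138c87138c0713840713838713830713828713820713788713780713228713220f132187132107131a8713198713188713180713178713170f130e87130e0f130d87130d0713068713058713048713040713038713030f12fa8712fa0f12f28712f18712f08712f00712e68712e60f129e87129e07129d8f129b8f12958712950712948712940712938712928f128c07128b87128b07128a87128a0712898f12878f128207128187128107128087128007127f87127e8f12778712770712768712760712758f12738f126e07126d87126d07126c87126c07126b87126a8f12638712630712628712620712618f12170f120e0f120c0f12060f12050f12030f11fa0f11f80f11f10f11ef0f11e60f11898f11878f117e8f11758f1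1738f116a8f11618f115f8f11568f0ff2870ff2070fe8070fdf070fde870fd6870fd6070fd5870fd5070fcd070fcc870fcc070fcb870f51870f51070f50870f48070f47870f47070f46870edf070ecb070eb8870eb8070eb7870eb7070e5a070e46070e33870e33070e32870e32070e2a070e29870e29070e28870bdc0f0bd3870bd2870bc80f0bbe870bae870bad870bac870bab870baa870ba9870ba5070b99870b98870b97870b58870b58070b578f0b4f070b4e870b4e070b4d870b4c8f0b45870b45070b44870b44070b438f0b3a070b39870b388f0b30870b30070b2f8f0b29870b29070b28870b28070b27870b27070b26870b26070b25870b20070b1f870b1f070b1e870ad30f0ad10f0ac80f0ac00f0abf0f0abd0f0ab40f0aad0f0aac0f0aab0f0aa00f0a9a0f0a990f0a980f0a970f0a96870a96070a95870a950f0a90870a8f870a8e870a8d870a8c870a8b870a87070a7d870a7c870a7b870a7a870a79870a4c8f0a438f0a388f0a2f8f0a248f0a1b8f0a0b870a0b070a0a870a0a070a09070a08870a08070a078f0a07070a06870a02070a01870a01070a00870a000709ff8709ff0709fe8709fe0709fd8709fd0709fc8f09f88709f80709f78709f70709f68709f60709f5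8709f50709f48709c00f09bf0f09ad0f09ac0f09ab0f09990f09980f09970f09850f09840f09830f09700f096f0f096e87096e0709650709648709640f07b58707b50707ac0707ab8707ab0707aa8707a28707a20707a18707a107079707079687078d87078d07078407078387078307078287078207078187077b07077a87077a07077987077907077887077807077187077107077087077007076f87076f07073087073007072707072687072607072587071d87071d07071c87071c0707120707118707088707080706ff0706fe8706fe0706fd8706fd0706fc8706f60706f58706f50706f48706f40706f38706f30706f28706ec8706ec0706eb8706eb0706ea8706ea0706e98706e90706e20706e187066e87066e07066d87066687066607066587066507066487066407066387065f07065e87065e07065d87065d07065c87065c07065b87065b07065a87065a0706558706550706548706540706538706530706528706520706518706510705e10705e08705df0705de8705da0705d98705d90705d88705d80705d78705d70705d68705d60705d58705d50705d08705d00705cf8705cf0705ce8705ce0705cd8705cd0705cc8705cc0705cb8705cb0705c20705c187054687054607053d07053c87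 = true := by
  decide +kernel

/-- W5: the in-lines `2 n - 5` of `6 k` in the row `c - 2`, `2 n - 1` of `6 k + 2` in the row `c` and the beam in the column `2 n - 3` of `6 k` in the row `c` cannot all be missing (lead `n - k - 5` of `6 k`). -/
theorem w5 (hf : Rule f) (H : L4T.H f k c n)
    (r6 : Cyc f (6 * k) (c - 6) (2 * (n - k - 5) + 2)) (r2 : Cyc f (6 * k) (c - 2) (2 * (n - 3) + 2))
    (nb : ∀ y : ℕ, y % 2 = 0 → 2 * n + 4 ≤ y + 2 * k → y + 2 ≤ 2 * n → ¬ f (6 * k + 4) c (2 * n + 3) y)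
    (g1 : ¬ f (6 * k + 0) (c - 2) (2 * n - 5) (2 * n - 2 * k + 4))
    (g2 : ¬ f (6 * k + 2) c (2 * n - 1) (2 * n - 2 * k + 8))
    (g3 : ¬ f (6 * k + 0) c (2 * n - 3) (2 * n - 2 * k + 6)) :
    False := by
  have hk := H.T.hk
  have hc := H.T.hc
  have h4 := H.T.h4
  have hb := H.T.hb
  have hN2 := H.T.hN2
  obtain ⟨a0, ha0⟩ : ∃ a0, a0 + 2 = 6 * k := ⟨6 * k - 2, by omega⟩
  obtain ⟨b0, hb0⟩ : ∃ b0, b0 + 6 = c := ⟨c - 6, by omega⟩
  obtain ⟨x0, hx0⟩ : ∃ x0, x0 + 8 = 2 * n := ⟨2 * n - 8, by omega⟩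
  obtain ⟨y0, hy0⟩ : ∃ y0, y0 + 9 = 2 * n - 2 * k := ⟨2 * n - 2 * k - 9, by omega⟩
  refine check_sound hf (a0 := a0) (b0 := b0) (x0 := x0) (y0 := y0) w5_chk
    ⟨fun h => absurd h (by decide), fun h => absurd h (by decide), fun h => absurd h (by decide),
      by omega, by omega, by omega, by omega⟩ ?_ ?_
  · intro j m p q hr h
    obtain ⟨-, -, hn1, hn2, hp1, hp2, hq1, hq2⟩ := hr
    unfold w5T at h
    simp only [Bool.or_eq_true, decide_eq_true_eq] at h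
    rcases h with (((h | h) | h) | ((h | h) | h)) | (((h | h) | h) | ((h | h) | h))
    · obtain ⟨⟨rfl, rfl, h1⟩, h2⟩ := h
      exact (WrapC.v2 r6 (by omega) (by omega) (by omega) (by omega) (by omega) (by omega) (by omega)).mpr (by omega)
    · obtain ⟨⟨rfl, rfl, h1⟩, h2⟩ := h
      exact (WrapC.v3 r6 (by omega) (by omega) (by omega) (by omega) (by omega) (by omega) (by omega) (by omega)).mpr (by omega)
    · obtain ⟨⟨rfl, rfl, h1⟩, h2⟩ := h
      exact (WrapC.v0 r2 (by omega) (by omega) (by omega) (by omega) (by omega) (by omega) (by omega)).mpr (by omega)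
    · obtain ⟨⟨rfl, rfl, h1⟩, h2⟩ := h
      exact (WrapC.v1 r2 (by omega) (by omega) (by omega) (by omega) (by omega) (by omega) (by omega) (by omega)).mpr (by omega)
    · obtain ⟨⟨rfl, rfl, h1⟩, h2⟩ := h
      exact (WrapC.v2 r2 (by omega) (by omega) (by omega) (by omega) (by omega) (by omega) (by omega)).mpr (by omega)
    · obtain ⟨⟨rfl, rfl, h1⟩, h2⟩ := h
      exact (WrapC.v3 H.k2_m8 (by omega) (by omega) (by omega) (by omega) (by omega) (by omega) (by omega) (by omega)).mpr (by omega)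
    · obtain ⟨⟨rfl, rfl, h1⟩, h2⟩ := h
      exact (WrapC.v0 H.k2_m4 (by omega) (by omega) (by omega) (by omega) (by omega) (by omega) (by omega)).mpr (by omega)
    · obtain ⟨⟨rfl, rfl, h1⟩, h2⟩ := h
      exact (WrapC.v1 H.k2_m4 (by omega) (by omega) (by omega) (by omega) (by omega) (by omega) (by omega) (by omega)).mpr (by omega)
    · obtain ⟨⟨rfl, rfl, h1⟩, h2⟩ := h
      exact (WrapC.v2 H.k2_m4 (by omega) (by omega) (by omega) (by omega) (by omega) (by omega) (by omega)).mpr (by omega)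
    · obtain ⟨⟨rfl, rfl, h1⟩, h2⟩ := h
      exact (WrapC.v1 H.k4_m6 (by omega) (by omega) (by omega) (by omega) (by omega) (by omega) (by omega) (by omega)).mpr (by omega)
    · obtain ⟨⟨rfl, rfl, h1⟩, h2⟩ := h
      exact (WrapC.v2 H.k4_m6 (by omega) (by omega) (by omega) (by omega) (by omega) (by omega) (by omega)).mpr (by omega)
    · obtain ⟨⟨rfl, rfl, h1⟩, h2⟩ := h
      exact (WrapC.v3 H.k4_m6 (by omega) (by omega) (by omega) (by omega) (by omega) (by omega) (by omega) (by omega)).mpr (by omega)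
  · intro j m p q hr h
    obtain ⟨-, -, hn1, hn2, hp1, hp2, hq1, hq2⟩ := hr
    unfold w5F at h
    simp only [Bool.or_eq_true, decide_eq_true_eq] at h
    rcases h with (((((h | h) | h) | (h | h)) | ((h | h) | (h | h))) | ((((h | h) | h) | (h | h)) | ((h | h) | (h | h)))) | (((((h | h) | h) | (h | h)) | ((h | h) | (h | h))) | ((((h | h) | h) | (h | h)) | ((h | h) | (h | h))))
    · obtain ⟨⟨rfl, rfl, h1⟩, h2⟩ := h
      exact mt (WrapC.v2 r6 (by omega) (by omega) (by omega) (by omega) (by omega) (by omega) (by omega)).mp (by omega)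
    · obtain ⟨⟨rfl, rfl, h1⟩, h2⟩ := h
      exact mt (WrapC.v3 r6 (by omega) (by omega) (by omega) (by omega) (by omega) (by omega) (by omega) (by omega)).mp (by omega)
    · obtain ⟨⟨rfl, rfl, h1⟩, h2⟩ := h
      exact mt (WrapC.v0 r2 (by omega) (by omega) (by omega) (by omega) (by omega) (by omega) (by omega)).mp (by omega)
    · obtain ⟨⟨rfl, rfl, h1⟩, h2⟩ := h
      exact mt (WrapC.v1 r2 (by omega) (by omega) (by omega) (by omega) (by omega) (by omega) (by omega) (by omega)).mp (by omega)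
    · obtain ⟨⟨rfl, rfl, h1⟩, h2⟩ := h
      exact mt (WrapC.v1 H.k2_m4 (by omega) (by omega) (by omega) (by omega) (by omega) (by omega) (by omega) (by omega)).mp (by omega)
    · obtain ⟨⟨rfl, rfl, h1⟩, h2⟩ := h
      exact mt (WrapC.v2 H.k2_m4 (by omega) (by omega) (by omega) (by omega) (by omega) (by omega) (by omega)).mp (by omega)
    · obtain ⟨⟨rfl, rfl, h1⟩, h2⟩ := h
      exact mt (WrapC.v1 H.k4_m6 (by omega) (by omega) (by omega) (by omega) (by omega) (by omega) (by omega) (by omega)).mp (by omega)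
    · obtain ⟨⟨rfl, rfl, h1⟩, h2⟩ := h
      exact mt (WrapC.v2 H.k4_m6 (by omega) (by omega) (by omega) (by omega) (by omega) (by omega) (by omega)).mp (by omega)
    · obtain ⟨⟨rfl, rfl, h1⟩, h2⟩ := h
      exact mt (WrapC.v3 H.k4_m6 (by omega) (by omega) (by omega) (by omega) (by omega) (by omega) (by omega) (by omega)).mp (by omega)
    · obtain ⟨rfl, rfl, h1⟩ := h
      exact NHT.rIn hf H.T (t := 4) (j := 4) (p := 0) (by omega) (by omega) (by omega) (by omega) (by omega) (by omega) (by omega) (by omega)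
    · obtain ⟨rfl, rfl, h1⟩ := h
      exact NHT.rIn hf H.T (t := 3) (j := 3) (p := 1) (by omega) (by omega) (by omega) (by omega) (by omega) (by omega) (by omega) (by omega)
    · obtain ⟨rfl, rfl, h1⟩ := h
      exact NHT.pIn hf H.T (t := 4) (j := 3) (by omega) (by omega) (by omega) (by omega) (by omega) (by omega) (by omega)
    · obtain ⟨rfl, rfl, h1⟩ := h
      exact NHT.rIn hf H.T (t := 4) (j := 4) (p := 1) (by omega) (by omega) (by omega) (by omega) (by omega) (by omega) (by omega) (by omega)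
    · obtain ⟨rfl, rfl, h1⟩ := h
      exact NHT.rIn hf H.T (t := 4) (j := 3) (p := 0) (by omega) (by omega) (by omega) (by omega) (by omega) (by omega) (by omega) (by omega)
    · obtain ⟨rfl, rfl, h1⟩ := h
      exact NHT.rIn hf H.T (t := 3) (j := 2) (p := 1) (by omega) (by omega) (by omega) (by omega) (by omega) (by omega) (by omega) (by omega)
    · obtain ⟨rfl, rfl, h1⟩ := h
      exact NHT.pIn hf H.T (t := 4) (j := 2) (by omega) (by omega) (by omega) (by omega) (by omega) (by omega) (by omega)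
    · obtain ⟨rfl, rfl, h1⟩ := h
      exact NHT.rIn hf H.T (t := 4) (j := 3) (p := 1) (by omega) (by omega) (by omega) (by omega) (by omega) (by omega) (by omega) (by omega)
    · obtain ⟨rfl, rfl, h1⟩ := h
      exact NHT.rIn hf H.T (t := 3) (j := 1) (p := 0) (by omega) (by omega) (by omega) (by omega) (by omega) (by omega) (by omega) (by omega)
    · obtain ⟨rfl, rfl, h1⟩ := h
      exact NHT.rIn hf H.T (t := 4) (j := 2) (p := 0) (by omega) (by omega) (by omega) (by omega) (by omega) (by omega) (by omega) (by omega)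
    · obtain ⟨rfl, rfl, h1⟩ := h
      exact K0D.nhu_pmmi hf H.U (by omega) (by omega) (by omega) (by omega) (by omega)
    · obtain ⟨rfl, rfl, h1⟩ := h
      exact K0D.nhu_pmmi hf H.U (by omega) (by omega) (by omega) (by omega) (by omega)
    · obtain ⟨rfl, rfl, h1⟩ := h
      exact NHU.pmi hf H.U (j := 1) (by omega) (by omega) (by omega) (by omega) (by omega) (by omega)
    · obtain ⟨rfl, rfl, h1⟩ := h
      exact NHU.pmi hf H.U (j := 1) (by omega) (by omega) (by omega) (by omega) (by omega) (by omega)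
    · obtain ⟨rfl, rfl, h1⟩ := h
      exact NHT.rIn hf H.T (t := 4) (j := 2) (p := 1) (by omega) (by omega) (by omega) (by omega) (by omega) (by omega) (by omega) (by omega)
    · obtain ⟨rfl, rfl, h1⟩ := h
      exact NHU.p0i hf H.U (j := 2) (by omega) (by omega) (by omega) (by omega) (by omega) (by omega)
    · obtain ⟨rfl, rfl, h1⟩ := h
      exact NHT.p0i hf H.T (j := 2) (by omega) (by omega) (by omega) (by omega) (by omega) (by omega)
    · obtain ⟨rfl, rfl, h1⟩ := h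
      exact NHU.p0i hf H.U (j := 2) (by omega) (by omega) (by omega) (by omega) (by omega) (by omega)
    · obtain ⟨rfl, rfl, h1⟩ := h
      exact H.P1 hf (by omega) (by omega) (by omega) (by omega) (by omega) (by omega)
    · obtain ⟨rfl, rfl, h1⟩ := h
      exact H.P3 hf (by omega) (by omega) (by omega) (by omega) (by omega) (by omega)
    · obtain ⟨rfl, rfl, h1⟩ := h
      exact H.P5 hf (by omega) (by omega) (by omega) (by omega) (by omega) (by omega)
    · obtain ⟨rfl, rfl, rfl, h1⟩ := h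
      exact H.Y1 hf (by omega) (by omega) (by omega) (by omega) (by omega) (by omega)
    · obtain ⟨rfl, rfl, rfl, h1⟩ := h
      exact nbf nb (by omega) (by omega) (by omega) (by omega) (by omega) (by omega)
    · obtain ⟨rfl, h1⟩ := h
      exact H.lw _ _ _ _ (by omega) (by omega) (by omega) (by omega) (by omega) (by omega)
    · obtain ⟨rfl, rfl, rfl, rfl⟩ := h
      exact fun h2 => g1 (mv h2 (by omega) (by omega) (by omega) (by omega))
    · obtain ⟨rfl, rfl, rfl, rfl⟩ := h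
      exact fun h2 => g2 (mv h2 (by omega) (by omega) (by omega) (by omega))
    · obtain ⟨rfl, rfl, rfl, rfl⟩ := h
      exact fun h2 => g3 (mv h2 (by omega) (by omega) (by omega) (by omega))

end Pool.Agent.SNT.L4T
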