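import Pool.Agent.SNT.LocChain2
import Pool.Agent.SNT.DRunI
import Pool.Agent.SNT.LW2

set_option autoImplicit false
set_option synthInstance.maxSize 1000
set_option linter.unusedVariables false

/-! The cell `(2 n + 1, 2 n - 8)` of `6 k + 8`. -/

namespace Pool.Agent.SNT.LineY8

open Pool.Agent.SNT Pool.Agent.SNT.Loc Pool.Agent.SNT.LW Pool.Agent.SNT.NHZ

variable {f : ℕ → ℕ → ℕ → ℕ → Prop} {k c n : ℕ}

structure In (f : ℕ → ℕ → ℕ → ℕ → Prop) (k c n : ℕ) : Prop where
  T : NHT f k c (2 * n)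
  C8_2 : Cw f (6 * k + 8) (c - 2) (n - 3)
  p7 : ∀ x y : ℕ, 2 * n ≤ x → x ≤ 2 * n + 1 → 2 * n + 6 ≤ y + 2 * k → y + 9 ≤ 2 * n → ¬ f (6 * k + 7) c x y
  y8 : ∀ y : ℕ, y % 2 = 0 → 2 * n + 6 ≤ y + 2 * k → y + 10 ≤ 2 * n → ¬ f (6 * k + 8) c (2 * n + 1) y

/-- the known ones -/
def K1Y (j n p q : ℕ) : Prop :=
    (j = 2 ∧ n = 1 ∧ (p = 1 ∧ q = 1 ∨ p = 3 ∧ q = 1))

/-- the known zeros -/
def K0Y (j n p q : ℕ) : Prop :=
    (j = 1 ∧ n = 2 ∧ (p = 2 ∧ q = 1 ∨ p = 3 ∧ q = 1)) ∨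
    (j = 1 ∧ n = 3 ∧ (p = 2 ∧ q = 1 ∨ p = 3 ∧ q = 1)) ∨
    (j = 2 ∧ n = 3 ∧ (p = 3 ∧ q = 1))

instance (j n p q : ℕ) : Decidable (K1Y j n p q) := by unfold K1Y; infer_instance

instance (j n p q : ℕ) : Decidable (K0Y j n p q) := by unfold K0Y; infer_instance

theorem base1Y (hf : Rule f) (I : In f k c n) : ∀ j n' p q : ℕ, InR 2 5 5 5 1 j n' p q → K1Y j n' p q →
    f (6 * k + 6 + j) (c - 3 + n') (2 * n - 2 + p) (2 * n - 11 + q) := by
  have hk := I.T.hk
  have hc := I.T.hc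
  have h4 := I.T.h4
  have hb := I.T.hb
  have hN := I.T.hN2
  have l8_2 : Lay (6 * k + 8) (c - 2) (k + 1) := ⟨by omega, by omega, by omega, by omega⟩
  intro j n' p q hr hx
  obtain ⟨r1, r2, r3, r4, r5, r6, r7, r8⟩ := hr
  unfold K1Y at hx
  exact (w0 l8_2 I.C8_2 (by omega) (by omega) (by omega) (by omega) (by omega) (by omega)).2 (by unfold V0; omega)

theorem base0Y (hf : Rule f) (I : In f k c n) : ∀ j n' p q : ℕ, InR 2 5 5 5 1 j n' p q → K0Y j n' p q →
    ¬ f (6 * k + 6 + j) (c - 3 + n') (2 * n - 2 + p) (2 * n - 11 + q) := by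
  have hk := I.T.hk
  have hc := I.T.hc
  have h4 := I.T.h4
  have hb := I.T.hb
  have hN := I.T.hN2
  have l8_2 : Lay (6 * k + 8) (c - 2) (k + 1) := ⟨by omega, by omega, by omega, by omega⟩
  intro j n' p q hr hx
  obtain ⟨r1, r2, r3, r4, r5, r6, r7, r8⟩ := hr
  unfold K0Y at hx
  rcases hx with hx | hx | hx
  · exact fun t => I.T.rm1i hf (j := 1) (p := 1) (by omega) (by omega) (by omega) (by omega) (by omega) (by omega) (mv t rfl (by omega) rfl rfl)
  · exact fun t => I.p7 (2 * n - 2 + p) (2 * n - 11 + q) (by omega) (by omega) (by omega) (by omega) (mv t (by omega) (by omega) rfl rfl)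
  · exact fun t => I.y8 (2 * n - 11 + q) (by omega) (by omega) (by omega) (mv t (by omega) (by omega) (by omega) rfl)

def lY : List (ℕ × ℕ × ℕ × ℕ) := [
  (0, 343, 12, 0xab0300ab80009180008c8000aa8700a80700918f008c8f006c07006987005f87005d07)]

theorem chkY : checkC2 2 5 5 5 0 1 0 1 0 (fun j n p q => decide (K1Y j n p q))
    (fun j n p q => decide (K0Y j n p q))
    0x0 0x80000000000000000000000000000000000000000000000000000000000000000000000000000000000000 lY = true := by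
  decide +kernel

theorem winY (hf : Rule f) (I : In f k c n) :
    (∀ j n' p q : ℕ, inC 2 5 5 5 1 j n' p q = true → tb 0x0 (enc 5 5 5 j n' p q) = true →
      f (6 * k + 6 + j) (c - 3 + n') (2 * n - 2 + p) (2 * n - 11 + q)) ∧
    (∀ j n' p q : ℕ, inC 2 5 5 5 1 j n' p q = true → tb 0x80000000000000000000000000000000000000000000000000000000000000000000000000000000000000 (enc 5 5 5 j n' p q) = true →
      ¬ f (6 * k + 6 + j) (c - 3 + n') (2 * n - 2 + p) (2 * n - 11 + q)) := by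
  have hk := I.T.hk
  have hc := I.T.hc
  have h4 := I.T.h4
  have hb := I.T.hb
  have hN := I.T.hN2
  have sw : SwOK (6 * k + 6) (c - 3) (2 * n - 2) (2 * n - 11) 0 1 0 1 0 :=
    ⟨fun h => absurd h (by decide), fun h => absurd h (by decide), fun h => absurd h (by decide), by omega, by omega, by omega, by omega⟩
  exact chain2_sound hf chkY sw (fun j n' p q hr h => base1Y hf I j n' p q hr (of_decide_eq_true h))
    (fun j n' p q hr h => base0Y hf I j n' p q hr (of_decide_eq_true h))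

theorem y8 (hf : Rule f) (I : In f k c n) : ¬ f (6 * k + 8) c (2 * n + 1) (2 * n - 8) := by
  have hk := I.T.hk
  have hb := I.T.hb
  have hN := I.T.hN2
  intro h
  exact (winY hf I).2 2 3 3 3 (by decide +kernel) (by decide +kernel) (mv h (by omega) (by omega) (by omega) (by omega))

end Pool.Agent.SNT.LineY8
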