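import Pool.Agent.SNT.LRD

set_option autoImplicit false
set_option linter.unusedVariables false
set_option synthInstance.maxSize 100000
set_option synthInstance.maxHeartbeats 4000000

/-! Local certificates of the location of the top leader (10). -/

namespace Pool.Agent.SNT.LRI

open Pool.Agent.SNT Pool.Agent.SNT.Loc Pool.Agent.SNT.LW Pool.Agent.SNT.NHZ

variable {f : ℕ → ℕ → ℕ → ℕ → Prop}

theorem cW2_0_2_5_chk : check 10 8 8 10 0 0 1 1 0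
    (fun j n p q => decide ((j = 8 ∧ n = 4 ∧ ((p = 2 ∧ q = 3) ∨ (p = 4 ∧ ((q = 3) ∨ (q = 5))) ∨ (p = 6 ∧ ((q = 5) ∨ (q = 7)))))
      ∨ (j = 2 ∧ n = 2 ∧ ((p = 2 ∧ ((q = 3) ∨ (q = 5))) ∨ (p = 3 ∧ q = 2) ∨ (p = 4 ∧ q = 5) ∨ (p = 5 ∧ q = 4)))
      ∨ (j = 10 ∧ n = 6 ∧ ((p = 4 ∧ ((q = 3) ∨ (q = 5))) ∨ (p = 6 ∧ ((q = 5) ∨ (q = 7)))))
      ∨ (j = 6 ∧ n = 2 ∧ ((p = 2 ∧ q = 3) ∨ (p = 4 ∧ q = 5)))
      ∨ (j = 4 ∧ n = 1 ∧ ((p = 2 ∧ q = 2) ∨ (p = 4 ∧ q = 4)))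
      ∨ (j = 8 ∧ n = 5 ∧ ((p = 4 ∧ q = 2) ∨ (p = 6 ∧ q = 4)))
      ∨ (j = 4 ∧ n = 4 ∧ (p = 4 ∧ ((q = 5) ∨ (q = 7))))
      ∨ (j = 2 ∧ n = 4 ∧ ((p = 2 ∧ q = 1) ∨ (p = 4 ∧ q = 3)))
      ∨ (j = 2 ∧ n = 3 ∧ ((p = 2 ∧ q = 2) ∨ (p = 4 ∧ q = 4)))
      ∨ (j = 4 ∧ n = 2 ∧ (p = 4 ∧ q = 3))
      ∨ (j = 6 ∧ n = 3 ∧ (p = 4 ∧ q = 2))
      ∨ (j = 2 ∧ n = 6 ∧ (p = 1 ∧ q = 4))))
    (fun j n p q => decide ((j = 8 ∧ n = 5 ∧ ((3 ≤ p ∧ p ≤ 4 ∧ 3 ≤ q ∧ q ≤ 6) ∨ (5 ≤ p ∧ p ≤ 6 ∧ 5 ≤ q ∧ q ≤ 8)))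
      ∨ (j = 6 ∧ n = 3 ∧ ((p = 1 ∧ 3 ≤ q ∧ q ≤ 4) ∨ (p = 2 ∧ 3 ≤ q ∧ q ≤ 5) ∨ (3 ≤ p ∧ p ≤ 4 ∧ 3 ≤ q ∧ q ≤ 6) ∨ (p = 5 ∧ 5 ≤ q ∧ q ≤ 6)))
      ∨ (j = 2 ∧ n = 3 ∧ ((1 ≤ p ∧ p ≤ 2 ∧ 3 ≤ q ∧ q ≤ 5) ∨ (p = 3 ∧ 3 ≤ q ∧ q ≤ 4)))
      ∨ (j = 1 ∧ n = 3 ∧ ((1 ≤ p ∧ p ≤ 2 ∧ 3 ≤ q ∧ q ≤ 5) ∨ (p = 3 ∧ 3 ≤ q ∧ q ≤ 4)))
      ∨ (j = 7 ∧ n = 3 ∧ ((p = 1 ∧ 3 ≤ q ∧ q ≤ 4) ∨ (p = 2 ∧ 4 ≤ q ∧ q ≤ 5) ∨ (p = 3 ∧ 5 ≤ q ∧ q ≤ 6) ∨ (p = 4 ∧ q = 6)))
      ∨ (j = 7 ∧ n = 4 ∧ ((p = 1 ∧ 3 ≤ q ∧ q ≤ 4) ∨ (p = 2 ∧ 4 ≤ q ∧ q ≤ 5) ∨ (p = 3 ∧ 5 ≤ q ∧ q ≤ 6) ∨ (p = 4 ∧ q = 6)))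
      ∨ (j = 1 ∧ n = 4 ∧ ((p = 1 ∧ q = 4) ∨ (p = 2 ∧ 2 ≤ q ∧ q ≤ 5) ∨ (p = 3 ∧ ((q = 2) ∨ (q = 4)))))
      ∨ (j = 9 ∧ n = 5 ∧ ((p = 3 ∧ 5 ≤ q ∧ q ≤ 6) ∨ (p = 4 ∧ q = 6) ∨ (p = 5 ∧ 7 ≤ q ∧ q ≤ 8) ∨ (p = 6 ∧ q = 8)))
      ∨ (j = 5 ∧ n = 4 ∧ ((p = 1 ∧ 4 ≤ q ∧ q ≤ 5) ∨ (p = 2 ∧ 5 ≤ q ∧ q ≤ 6) ∨ (p = 3 ∧ q = 6) ∨ (p = 4 ∧ q = 7)))
      ∨ (j = 9 ∧ n = 6 ∧ ((p = 3 ∧ 5 ≤ q ∧ q ≤ 6) ∨ (p = 4 ∧ q = 6) ∨ (p = 5 ∧ 7 ≤ q ∧ q ≤ 8) ∨ (p = 6 ∧ q = 8)))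
      ∨ (j = 5 ∧ n = 3 ∧ ((p = 1 ∧ 4 ≤ q ∧ q ≤ 5) ∨ (p = 2 ∧ 5 ≤ q ∧ q ≤ 6) ∨ (p = 3 ∧ q = 6)))
      ∨ (j = 4 ∧ n = 3 ∧ ((p = 1 ∧ 4 ≤ q ∧ q ≤ 5) ∨ (p = 2 ∧ 5 ≤ q ∧ q ≤ 6) ∨ (p = 3 ∧ q = 6)))
      ∨ (j = 4 ∧ n = 1 ∧ (1 ≤ p ∧ p ≤ 2 ∧ 3 ≤ q ∧ q ≤ 4))
      ∨ (j = 1 ∧ n = 1 ∧ (3 ≤ p ∧ p ≤ 4 ∧ 3 ≤ q ∧ q ≤ 4))
      ∨ (j = 1 ∧ n = 5 ∧ (2 ≤ p ∧ p ≤ 3 ∧ 2 ≤ q ∧ q ≤ 3))
      ∨ (j = 7 ∧ n = 5 ∧ ((p = 3 ∧ 6 ≤ q ∧ q ≤ 7) ∨ (p = 4 ∧ q = 7)))
      ∨ (j = 6 ∧ n = 5 ∧ ((p = 3 ∧ 6 ≤ q ∧ q ≤ 7) ∨ (p = 4 ∧ q = 7)))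
      ∨ (j = 5 ∧ n = 1 ∧ ((p = 1 ∧ 3 ≤ q ∧ q ≤ 4) ∨ (p = 2 ∧ q = 4)))
      ∨ (j = 5 ∧ n = 2 ∧ ((p = 1 ∧ 3 ≤ q ∧ q ≤ 4) ∨ (p = 2 ∧ q = 4)))
      ∨ (j = 7 ∧ n = 6 ∧ ((p = 3 ∧ 6 ≤ q ∧ q ≤ 7) ∨ (p = 4 ∧ q = 7)))
      ∨ (j = 2 ∧ n = 2 ∧ ((p = 3 ∧ q = 4) ∨ (p = 4 ∧ 3 ≤ q ∧ q ≤ 4)))
      ∨ (j = 1 ∧ n = 2 ∧ ((p = 3 ∧ q = 4) ∨ (p = 4 ∧ 3 ≤ q ∧ q ≤ 4)))
      ∨ (j = 4 ∧ n = 4 ∧ (p = 4 ∧ 3 ≤ q ∧ q ≤ 4))
      ∨ (j = 2 ∧ n = 4 ∧ (2 ≤ p ∧ p ≤ 3 ∧ q = 2))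
      ∨ (j = 3 ∧ n = 3 ∧ (p = 1 ∧ q = 5))
      ∨ (j = 3 ∧ n = 4 ∧ (p = 1 ∧ q = 5))
      ∨ (j = 4 ∧ n = 2 ∧ (p = 4 ∧ q = 4))))
    386
    0x7470308878008868009c7c209c74a074703088c0009ccca08820008820407470308870008870404c18004c18103588003588107470308878008868009c7c209c74a074703088c0009ccca08820008820407470308870008870404c18004c18103538003538405b20305da0005da040331030359800359840c510309cc0009cc040c520309cc8009cc84032c83035480035484035883035900035904049883049900049904033103049980049984032c03035400035404046c83049480049484046c0304940004940406ec03043e80043e84096c0306be8006be8409710306c38006c38409710306eb8006eb84096c0306e68006e68405ac8305d98005d98406ec8304670004670406ec83043f00043f0406f203046c80046c8406ec83046c00046c04097c0308648008648409c783071a00071a0409c70307198007198409718306ec0006ec04097c03086400086404097183085980085984083603085e80085e840c4c0309c68009c6840c470309c18009c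18408648309a48009a48408640309a40009a404097703085f00085f04097183099980099984083603099e80099e84097703099f00099f040c4c0309c70009c70406f18305a70005a70408360308368008368409770306f18006f1840c46030b06800b06840c51030b11800b1184055700069c52056100058eba02b88005888002e63a05b63a0d91800d90800d86800d85800ae8000add000ac1800ac0800ab6800ab5800aab80080d0007e68007db8005b78005b680056580053e00053300037700033580032a80030e0003030002eb0002e68002e00002dc8002db800d918f0d908f0d868f0d858f0c52070c4d070c4c870c47070c42070c41870c2a070c25070c24870c1f070c1a070c19870b0c870b0b870b01870b00870aea070ae9870ae9070ae8870ae80f0ae5070ae4870ae4070ae3870adf070ade870ade070add870add0f0ada070ad9870ad9070ad8870ac18f0ac08f0ab68f0ab58f0aab8f09c78709c28709c207099f87099a87099a07097707097207097187096c87096c07096707096687094f07094a07094987094487094407093f07093e87088c87088287088187085f87085a87085a07083c87083b870831870830870826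87081407081387080f07080e87080e07080d87080d0f080a0708098708090708088708048708040708038707ff0707fe8707e68f07db8f06f78706f20706ed0706ec8706e78706e70706ca0706c50706c48706bf8706bf07069c07069707069687067407066f07066e8706018705b78f05b68f05b60705b58705b18705b08705a78705a687058a07058507058487057f87057f0705660705658f056187055687053e0f05340705338705330f052f07052e87046787043f8703818703770f03358f033087033007032b07032a8f032787032687030e0f03090703088703048703040703038703030f02ff8702ff0702fe8702eb0f02e68f02e60702e58702e10702e08702e00f02dc8f02db8f02188702180702138702130701f10701f00701ec8701ec0701eb8701eb0701e70701c90701c88701c48701c40701c38701bf8701bf0701be8701a60701a58701a107017e07017d87017907017887 = true := by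
  decide +kernel

theorem cW2_0_2_5 (hf : Rule f) {k c n M R x y : ℕ} (H : LI f k c n)
    (eM : M = 6 * k + 2) (eR : R = c) (ex : x = 2 * n + 2) (ey : y + 2 * k = 2 * n + 5) : ¬ f M R x y := by
  intro hg
  have hk := H.T.hk
  have hc := H.T.hc
  have h4 := H.T.h4
  have hb := H.T.hb
  have hN := H.T.hN2
  have hg' : ∀ M' R' x' y' : ℕ, M' = M → R' = R → x' = x → y' = y → f M' R' x' y' := by
    rintro _ _ _ _ rfl rfl rfl rfl
    exact hg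
  clear hg
  obtain ⟨a0, ha0⟩ : ∃ z, z = 6 * k + 0 := ⟨_, rfl⟩
  obtain ⟨b0, hb0⟩ : ∃ z, z + 6 = c := ⟨c - 6, by omega⟩
  obtain ⟨x0, hx0⟩ : ∃ z, z = 2 * n + 1 := ⟨_, rfl⟩
  obtain ⟨y0, hy0⟩ : ∃ z, z + 2 * k = 2 * n + 1 := ⟨2 * n + 1 - 2 * k, by omega⟩
  refine check_sound hf (a0 := a0) (b0 := b0) (x0 := x0) (y0 := y0) cW2_0_2_5_chk
    ⟨fun h => absurd h (by decide), fun h => absurd h (by decide), fun h => absurd h (by decide), by omega, by omega,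
      by omega, by omega⟩ ?_ ?_
  · intro j m p q hr h
    obtain ⟨-, -, -, -, hp1, hp2, hq1, hq2⟩ := hr
    replace h := of_decide_eq_true h
    rcases h with h | h | h | h | h | h | h | h | h | h | h | h
    · obtain ⟨rfl, rfl, h⟩ := h
      exact (NW.w0v H.a8 (by omega) (by omega) (by omega) (by omega) (by omega) (by omega) (by omega)).mpr (by omega)
    · obtain ⟨rfl, rfl, h⟩ := h
      exact (WrapC.v0 H.a2 (by omega) (by omega) (by omega) (by omega) (by omega) (by omega) (by omega)).mpr (by omega)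
    · obtain ⟨rfl, rfl, h⟩ := h
      exact (NW.w0v H.a10 (by omega) (by omega) (by omega) (by omega) (by omega) (by omega) (by omega)).mpr (by omega)
    · obtain ⟨rfl, rfl, h⟩ := h
      exact (WrapC.v4 H.b6 (by omega) (by omega) (by omega) (by omega) (by omega) (by omega) (by omega)).mpr (by omega)
    · obtain ⟨rfl, rfl, h⟩ := h
      exact (WrapC.v1 H.b4 (by omega) (by omega) (by omega) (by omega) (by omega) (by omega) (by omega) (by omega)).mpr (by omega)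
    · obtain ⟨rfl, rfl, h⟩ := h
      exact (NW.w1v H.a8 (by omega) (by omega) (by omega) (by omega) (by omega) (by omega) (by omega) (by omega)).mpr (by omega)
    · obtain ⟨rfl, rfl, h⟩ := h
      exact (WrapC.v0 H.a4 (by omega) (by omega) (by omega) (by omega) (by omega) (by omega) (by omega)).mpr (by omega)
    · obtain ⟨rfl, rfl, h⟩ := h
      exact (WrapC.v2 H.a2 (by omega) (by omega) (by omega) (by omega) (by omega) (by omega) (by omega)).mpr (by omega)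
    · obtain ⟨rfl, rfl, h⟩ := h
      exact (WrapC.v1 H.a2 (by omega) (by omega) (by omega) (by omega) (by omega) (by omega) (by omega) (by omega)).mpr (by omega)
    · obtain ⟨rfl, rfl, h⟩ := h
      exact (WrapC.v2 H.b4 (by omega) (by omega) (by omega) (by omega) (by omega) (by omega) (by omega)).mpr (by omega)
    · obtain ⟨rfl, rfl, h⟩ := h
      exact (WrapC.v1 H.a6 (by omega) (by omega) (by omega) (by omega) (by omega) (by omega) (by omega) (by omega)).mpr (by omega)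
    · obtain ⟨rfl, rfl, h⟩ := h
      exact hg' _ _ _ _ (by omega) (by omega) (by omega) (by omega)
  · intro j m p q hr h
    obtain ⟨-, -, -, -, hp1, hp2, hq1, hq2⟩ := hr
    replace h := of_decide_eq_true h
    rcases h with h | h | h | h | h | h | h | h | h | h | h | h | h | h | h | h | h | h | h | h | h | h | h | h | h | h | h
    · obtain ⟨rfl, rfl, h⟩ := h
      exact mt (NW.w1v H.a8 (by omega) (by omega) (by omega) (by omega) (by omega) (by omega) (by omega) (by omega)).mp (by omega)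
    · obtain ⟨rfl, rfl, h⟩ := h
      exact mt (WrapC.v1 H.a6 (by omega) (by omega) (by omega) (by omega) (by omega) (by omega) (by omega) (by omega)).mp (by omega)
    · obtain ⟨rfl, rfl, h⟩ := h
      exact mt (WrapC.v1 H.a2 (by omega) (by omega) (by omega) (by omega) (by omega) (by omega) (by omega) (by omega)).mp (by omega)
    · obtain ⟨rfl, rfl, h⟩ := h
      exact H.eo _ _ _ _ (by omega) (by omega) (by omega) (by omega) (by omega) (by omega) (by omega)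
    · obtain ⟨rfl, rfl, h⟩ := h
      exact NHT.rIn hf H.T (t := 3) (p := 1) (j := 0) (by omega) (by omega) (by omega) (by omega) (by omega) (by omega) (by omega) (by omega)
    · obtain ⟨rfl, rfl, h⟩ := h
      exact NHT.pmi hf H.T (j := 0) (by omega) (by omega) (by omega) (by omega) (by omega) (by omega)
    · obtain ⟨rfl, rfl, h⟩ := h
      exact H.eo _ _ _ _ (by omega) (by omega) (by omega) (by omega) (by omega) (by omega) (by omega)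
    · obtain ⟨rfl, rfl, h⟩ := h
      exact NW.rm1i hf H.T (p := 1) (j := 0) (by omega) (by omega) (by omega) (by omega) (by omega) (by omega) (by omega)
    · obtain ⟨rfl, rfl, h⟩ := h
      exact NHT.pmi hf H.T (j := 1) (by omega) (by omega) (by omega) (by omega) (by omega) (by omega)
    · obtain ⟨rfl, rfl, h⟩ := h
      exact NHT.p0i hf H.T (j := 0) (by omega) (by omega) (by omega) (by omega) (by omega) (by omega)
    · obtain ⟨rfl, rfl, h⟩ := h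
      exact NHT.rIn hf H.T (t := 3) (p := 1) (j := 1) (by omega) (by omega) (by omega) (by omega) (by omega) (by omega) (by omega) (by omega)
    · obtain ⟨rfl, rfl, h⟩ := h
      exact NHT.rIn hf H.T (t := 3) (p := 0) (j := 1) (by omega) (by omega) (by omega) (by omega) (by omega) (by omega) (by omega) (by omega)
    · obtain ⟨rfl, rfl, h⟩ := h
      exact mt (WrapC.v1 H.b4 (by omega) (by omega) (by omega) (by omega) (by omega) (by omega) (by omega) (by omega)).mp (by omega)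
    · obtain ⟨rfl, rfl, h⟩ := h
      exact H.eo _ _ _ _ (by omega) (by omega) (by omega) (by omega) (by omega) (by omega) (by omega)
    · obtain ⟨rfl, rfl, h⟩ := h
      exact H.eo _ _ _ _ (by omega) (by omega) (by omega) (by omega) (by omega) (by omega) (by omega)
    · obtain ⟨rfl, rfl, h⟩ := h
      exact NW.rm1i hf H.T (p := 1) (j := 1) (by omega) (by omega) (by omega) (by omega) (by omega) (by omega) (by omega)
    · obtain ⟨rfl, rfl, h⟩ := h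
      exact NW.rm1i hf H.T (p := 0) (j := 1) (by omega) (by omega) (by omega) (by omega) (by omega) (by omega) (by omega)
    · obtain ⟨rfl, rfl, h⟩ := h
      exact NHT.rIn hf H.T (t := 2) (p := 1) (j := 0) (by omega) (by omega) (by omega) (by omega) (by omega) (by omega) (by omega) (by omega)
    · obtain ⟨rfl, rfl, h⟩ := h
      exact NHT.pIn hf H.T (t := 3) (j := 0) (by omega) (by omega) (by omega) (by omega) (by omega) (by omega) (by omega)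
    · obtain ⟨rfl, rfl, h⟩ := h
      exact NHT.p0i hf H.T (j := 1) (by omega) (by omega) (by omega) (by omega) (by omega) (by omega)
    · obtain ⟨rfl, rfl, h⟩ := h
      exact mt (WrapC.v0 H.a2 (by omega) (by omega) (by omega) (by omega) (by omega) (by omega) (by omega)).mp (by omega)
    · obtain ⟨rfl, rfl, h⟩ := h
      exact H.eo _ _ _ _ (by omega) (by omega) (by omega) (by omega) (by omega) (by omega) (by omega)
    · obtain ⟨rfl, rfl, h⟩ := h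
      exact mt (WrapC.v0 H.a4 (by omega) (by omega) (by omega) (by omega) (by omega) (by omega) (by omega)).mp (by omega)
    · obtain ⟨rfl, rfl, h⟩ := h
      exact mt (WrapC.v2 H.a2 (by omega) (by omega) (by omega) (by omega) (by omega) (by omega) (by omega)).mp (by omega)
    · obtain ⟨rfl, rfl, h⟩ := h
      exact NHT.rIn hf H.T (t := 3) (p := 1) (j := 2) (by omega) (by omega) (by omega) (by omega) (by omega) (by omega) (by omega) (by omega)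
    · obtain ⟨rfl, rfl, h⟩ := h
      exact NHT.pmi hf H.T (j := 2) (by omega) (by omega) (by omega) (by omega) (by omega) (by omega)
    · obtain ⟨rfl, rfl, h⟩ := h
      exact mt (WrapC.v2 H.b4 (by omega) (by omega) (by omega) (by omega) (by omega) (by omega) (by omega)).mp (by omega)

end Pool.Agent.SNT.LRI
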