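import Pool.Agent.SNT.LRD

set_option autoImplicit false
set_option linter.unusedVariables false
set_option synthInstance.maxSize 100000
set_option synthInstance.maxHeartbeats 4000000

/-! Local certificates of the location of the top leader (11). -/

namespace Pool.Agent.SNT.LRI

open Pool.Agent.SNT Pool.Agent.SNT.Loc Pool.Agent.SNT.LW Pool.Agent.SNT.NHZ

variable {f : ℕ → ℕ → ℕ → ℕ → Prop}

theorem cW2_0_2_7_chk : check 10 6 10 10 0 0 1 1 0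
    (fun j n p q => decide ((j = 4 ∧ n = 2 ∧ ((p = 4 ∧ ((q = 3) ∨ (q = 5))) ∨ (p = 5 ∧ q = 2) ∨ (p = 6 ∧ ((q = 5) ∨ (q = 7))) ∨ (p = 7 ∧ q = 4)))
      ∨ (j = 8 ∧ n = 2 ∧ ((p = 4 ∧ q = 3) ∨ (p = 6 ∧ ((q = 3) ∨ (q = 5))) ∨ (p = 8 ∧ ((q = 5) ∨ (q = 7)))))
      ∨ (j = 10 ∧ n = 4 ∧ ((p = 6 ∧ ((q = 3) ∨ (q = 5))) ∨ (p = 8 ∧ ((q = 5) ∨ (q = 7)))))
      ∨ (j = 8 ∧ n = 3 ∧ ((p = 6 ∧ q = 2) ∨ (p = 8 ∧ q = 4)))
      ∨ (j = 2 ∧ n = 2 ∧ ((p = 4 ∧ q = 1) ∨ (p = 6 ∧ q = 3)))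
      ∨ (j = 2 ∧ n = 1 ∧ ((p = 4 ∧ q = 2) ∨ (p = 6 ∧ q = 4)))
      ∨ (j = 6 ∧ n = 1 ∧ (p = 6 ∧ q = 2))
      ∨ (j = 4 ∧ n = 3 ∧ (p = 6 ∧ q = 4))
      ∨ (j = 2 ∧ n = 4 ∧ (p = 1 ∧ q = 4))))
    (fun j n p q => decide ((j = 8 ∧ n = 3 ∧ ((p = 4 ∧ 4 ≤ q ∧ q ≤ 5) ∨ (5 ≤ p ∧ p ≤ 6 ∧ 3 ≤ q ∧ q ≤ 6) ∨ (7 ≤ p ∧ p ≤ 8 ∧ 5 ≤ q ∧ q ≤ 8)))
      ∨ (j = 6 ∧ n = 1 ∧ ((p = 3 ∧ 3 ≤ q ∧ q ≤ 4) ∨ (p = 4 ∧ 3 ≤ q ∧ q ≤ 5) ∨ (5 ≤ p ∧ p ≤ 6 ∧ 3 ≤ q ∧ q ≤ 6) ∨ (p = 7 ∧ 5 ≤ q ∧ q ≤ 6)))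
      ∨ (j = 2 ∧ n = 1 ∧ ((((p = 1) ∨ (p = 5)) ∧ 3 ≤ q ∧ q ≤ 4) ∨ (2 ≤ p ∧ p ≤ 4 ∧ 3 ≤ q ∧ q ≤ 5)))
      ∨ (j = 1 ∧ n = 1 ∧ ((((1 ≤ p ∧ p ≤ 2) ∨ (p = 5)) ∧ 3 ≤ q ∧ q ≤ 4) ∨ (3 ≤ p ∧ p ≤ 4 ∧ 3 ≤ q ∧ q ≤ 5)))
      ∨ (j = 5 ∧ n = 2 ∧ ((p = 1 ∧ 3 ≤ q ∧ q ≤ 4) ∨ (p = 2 ∧ 3 ≤ q ∧ q ≤ 5) ∨ (p = 3 ∧ 4 ≤ q ∧ q ≤ 5) ∨ (p = 4 ∧ q = 5) ∨ (p = 5 ∧ q = 6) ∨ (p = 6 ∧ q = 7)))
      ∨ (j = 1 ∧ n = 2 ∧ ((((p = 1) ∨ (p = 3)) ∧ q = 4) ∨ (p = 2 ∧ 3 ≤ q ∧ q ≤ 4) ∨ (p = 4 ∧ 2 ≤ q ∧ q ≤ 5) ∨ (p = 5 ∧ ((q = 2) ∨ (q = 4)))))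
      ∨ (j = 9 ∧ n = 3 ∧ ((p = 4 ∧ 4 ≤ q ∧ q ≤ 5) ∨ (p = 5 ∧ 5 ≤ q ∧ q ≤ 6) ∨ (p = 6 ∧ q = 6) ∨ (p = 7 ∧ 7 ≤ q ∧ q ≤ 8) ∨ (p = 8 ∧ q = 8)))
      ∨ (j = 9 ∧ n = 4 ∧ ((p = 4 ∧ 4 ≤ q ∧ q ≤ 5) ∨ (p = 5 ∧ 5 ≤ q ∧ q ≤ 6) ∨ (p = 6 ∧ q = 6) ∨ (p = 7 ∧ 7 ≤ q ∧ q ≤ 8) ∨ (p = 8 ∧ q = 8)))
      ∨ (j = 5 ∧ n = 1 ∧ ((p = 1 ∧ 3 ≤ q ∧ q ≤ 4) ∨ (p = 2 ∧ 3 ≤ q ∧ q ≤ 5) ∨ (p = 3 ∧ 4 ≤ q ∧ q ≤ 5)))
      ∨ (j = 4 ∧ n = 1 ∧ ((p = 1 ∧ 3 ≤ q ∧ q ≤ 4) ∨ (p = 2 ∧ 3 ≤ q ∧ q ≤ 5) ∨ (p = 3 ∧ 4 ≤ q ∧ q ≤ 5)))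
      ∨ (j = 7 ∧ n = 1 ∧ ((p = 3 ∧ 3 ≤ q ∧ q ≤ 4) ∨ (p = 4 ∧ 4 ≤ q ∧ q ≤ 5) ∨ (p = 5 ∧ 5 ≤ q ∧ q ≤ 6) ∨ (p = 6 ∧ q = 6)))
      ∨ (j = 7 ∧ n = 2 ∧ ((p = 3 ∧ 3 ≤ q ∧ q ≤ 4) ∨ (p = 4 ∧ 4 ≤ q ∧ q ≤ 5) ∨ (p = 5 ∧ 5 ≤ q ∧ q ≤ 6) ∨ (p = 6 ∧ q = 6)))
      ∨ (j = 7 ∧ n = 3 ∧ ((p = 3 ∧ 4 ≤ q ∧ q ≤ 5) ∨ (p = 4 ∧ 5 ≤ q ∧ q ≤ 6) ∨ (p = 5 ∧ q = 6) ∨ (p = 6 ∧ q = 7)))
      ∨ (j = 6 ∧ n = 3 ∧ ((p = 3 ∧ 4 ≤ q ∧ q ≤ 5) ∨ (p = 4 ∧ 5 ≤ q ∧ q ≤ 6) ∨ (p = 5 ∧ q = 6) ∨ (p = 6 ∧ q = 7)))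
      ∨ (j = 7 ∧ n = 4 ∧ ((p = 3 ∧ 4 ≤ q ∧ q ≤ 5) ∨ (p = 4 ∧ 5 ≤ q ∧ q ≤ 6) ∨ (p = 5 ∧ q = 6) ∨ (p = 6 ∧ q = 7)))
      ∨ (j = 3 ∧ n = 1 ∧ ((p = 1 ∧ 3 ≤ q ∧ q ≤ 4) ∨ (p = 2 ∧ 4 ≤ q ∧ q ≤ 5) ∨ (p = 3 ∧ q = 5)))
      ∨ (j = 3 ∧ n = 2 ∧ ((p = 1 ∧ 3 ≤ q ∧ q ≤ 4) ∨ (p = 2 ∧ 4 ≤ q ∧ q ≤ 5) ∨ (p = 3 ∧ q = 5)))
      ∨ (j = 4 ∧ n = 3 ∧ (5 ≤ p ∧ p ≤ 6 ∧ 5 ≤ q ∧ q ≤ 6))
      ∨ (j = 1 ∧ n = 3 ∧ (4 ≤ p ∧ p ≤ 5 ∧ 2 ≤ q ∧ q ≤ 3))
      ∨ (j = 5 ∧ n = 3 ∧ ((p = 3 ∧ 5 ≤ q ∧ q ≤ 6) ∨ (p = 4 ∧ q = 6)))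
      ∨ (j = 4 ∧ n = 3 ∧ ((p = 3 ∧ 5 ≤ q ∧ q ≤ 6) ∨ (p = 4 ∧ q = 6)))
      ∨ (j = 5 ∧ n = 4 ∧ ((p = 3 ∧ 5 ≤ q ∧ q ≤ 6) ∨ (p = 4 ∧ q = 6)))
      ∨ (j = 4 ∧ n = 2 ∧ ((p = 5 ∧ q = 4) ∨ (p = 6 ∧ 3 ≤ q ∧ q ≤ 4)))
      ∨ (j = 2 ∧ n = 2 ∧ (4 ≤ p ∧ p ≤ 5 ∧ q = 2))
      ∨ (j = 3 ∧ n = 3 ∧ (p = 2 ∧ q = 5))
      ∨ (j = 2 ∧ n = 3 ∧ (p = 2 ∧ q = 5))
      ∨ (j = 3 ∧ n = 4 ∧ (p = 2 ∧ q = 5))))
    432
    0x6c503046780046781033100045dca09178306ba0006ba8a045d00045d0409128306b50006b50409228306c50006c50407f60507f0800922ca091d4a06c00006c00402d20304300004300409128306830006830408b38307b98007b98407c48308f08008f08404348304670004670407820308e00008e00408ae0306508006508407870307b90007b9040b740309170009170408b38307b980091d7a06bf8006bf8402d70304358004358402cd03042b00042b0406bb03045d80045d840b7f030922000922040308830309000309040b7a03091c80091c8407820307b40007b40408be0307c40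007c40408ae03061e80061e8403f40304260004260407bf0308eb0008eb0408b38306240006240408b30306238006238402c80302fa0002fa0408b38307b98009186a06ba8006ba8402d283030480030484064c0303f38003f38402d2030304000304040b6f8309120009120403fe0301a08001a08408b90307bf0007bf0403f983042b80042b8402cd0302ff0002ff0405200305570005570407b90308e50008e5040b75030917800917840b74030a48800b7a5a091d00091d0403f98302ff8002ff84030883033b00033b04064c0303c18003c184078c0307be8007be840b800309228009228407c40308f00008f00408be0307c48007c48407be8308ea8008ea8408b903078d80078d84078c03078c80078c8402d70303098003098403fe83043080043084065183051b00051b04078c0307be0007be0407b98308e58008e58404fc8005343a0cab800caa800ca0800c9f800a20000a150009ef8009ee8009e48009e38009d980075900056600053900053580053480052e00052a8005298003270002db8002d08002aa00029f000cab8f0caa8f0ca08f0c9f8f0b80070b7b070b7a870b75070b70070b6f870b6a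870b6a070b4e070b49070b48870b43070b3e070b3d870b38870b38070a4e870a4d870a43870a42870a22070a21870a21070a20870a200f0a1d070a1c870a1c070a1b870a17070a16870a16070a15870a150f0a12070a11870a11070a10870a0c870a0c0709ef8f09ee8f09e48f09e38f09d98f091d87091807091307091287090d87090d0708eb8708e60708e10708e08708db8708db0708b90708b40708b38708ae8708ae0708a90708a887088707088207088187087c87087c0708770708768707f68707eb8707e18707bf8707ba0707b50707b48707af8707af07079287079187078787078687077c87076007075f87075b07075a87075a0707598707590f075607075587075507075487075087075007074f87074b07074a8706bb0706b60706b587068907068407068387066187065c07065687065187065107064c87064c07064b87064707064687061f87061f07061a87061a0706198706150706148705938705898705670705668705660f056207056187055d0705580705578705390f05358f05348f053407053387052f07052e87052e0f052a8f05298f052587051a8704f38704f30704ee8704ee0704ed8704e90704e88704588704268703f98703f48703f40703ef0703ee8703c78703c28703c20703bd0703bc87033b8703318703270f02fa8702db8f02d68702d60702d10702d08f02cd8702cc8702c28702aa0f02a50702a48702a08702a007029f87029f0f029b87029b07029a8702968702960702958702910702908701dc8701dc0701d78701d70701ab0701aa0701a68701a60701a58701a50701a107019c07019b87019707017907017887017487017407017387016f87016f07016e87016a07016987016507016487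 = true := by
  decide +kernel

theorem cW2_0_2_7 (hf : Rule f) {k c n M R x y : ℕ} (H : LI f k c n)
    (eM : M = 6 * k + 2) (eR : R = c) (ex : x = 2 * n + 2) (ey : y + 2 * k = 2 * n + 7) : ¬ f M R x y := by
  intro hg
  have hk := H.T.hk
  have hc := H.T.hc
  have h4 := H.T.h4
  have hb := H.T.hb
  have hN := H.T.hN2
  have hg' : ∀ M' R' x' y' : ℕ, M' = M → R' = R → x' = x → y' = y → f M' R' x' y' := by
    rintro _ _ _ _ rfl rfl rfl rfl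
    exact hg
  clear hg
  obtain ⟨a0, ha0⟩ : ∃ z, z = 6 * k + 0 := ⟨_, rfl⟩
  obtain ⟨b0, hb0⟩ : ∃ z, z + 4 = c := ⟨c - 4, by omega⟩
  obtain ⟨x0, hx0⟩ : ∃ z, z = 2 * n + 1 := ⟨_, rfl⟩
  obtain ⟨y0, hy0⟩ : ∃ z, z + 2 * k = 2 * n + 3 := ⟨2 * n + 3 - 2 * k, by omega⟩
  refine check_sound hf (a0 := a0) (b0 := b0) (x0 := x0) (y0 := y0) cW2_0_2_7_chk
    ⟨fun h => absurd h (by decide), fun h => absurd h (by decide), fun h => absurd h (by decide), by omega, by omega,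
      by omega, by omega⟩ ?_ ?_
  · intro j m p q hr h
    obtain ⟨-, -, -, -, hp1, hp2, hq1, hq2⟩ := hr
    replace h := of_decide_eq_true h
    rcases h with h | h | h | h | h | h | h | h | h
    · obtain ⟨rfl, rfl, h⟩ := h
      exact (WrapC.v0 H.a4 (by omega) (by omega) (by omega) (by omega) (by omega) (by omega) (by omega)).mpr (by omega)
    · obtain ⟨rfl, rfl, h⟩ := h
      exact (NW.w0v H.a8 (by omega) (by omega) (by omega) (by omega) (by omega) (by omega) (by omega)).mpr (by omega)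
    · obtain ⟨rfl, rfl, h⟩ := h
      exact (NW.w0v H.a10 (by omega) (by omega) (by omega) (by omega) (by omega) (by omega) (by omega)).mpr (by omega)
    · obtain ⟨rfl, rfl, h⟩ := h
      exact (NW.w1v H.a8 (by omega) (by omega) (by omega) (by omega) (by omega) (by omega) (by omega) (by omega)).mpr (by omega)
    · obtain ⟨rfl, rfl, h⟩ := h
      exact (WrapC.v2 H.a2 (by omega) (by omega) (by omega) (by omega) (by omega) (by omega) (by omega)).mpr (by omega)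
    · obtain ⟨rfl, rfl, h⟩ := h
      exact (WrapC.v1 H.a2 (by omega) (by omega) (by omega) (by omega) (by omega) (by omega) (by omega) (by omega)).mpr (by omega)
    · obtain ⟨rfl, rfl, h⟩ := h
      exact (WrapC.v1 H.a6 (by omega) (by omega) (by omega) (by omega) (by omega) (by omega) (by omega) (by omega)).mpr (by omega)
    · obtain ⟨rfl, rfl, h⟩ := h
      exact (WrapC.v1 H.a4 (by omega) (by omega) (by omega) (by omega) (by omega) (by omega) (by omega) (by omega)).mpr (by omega)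
    · obtain ⟨rfl, rfl, h⟩ := h
      exact hg' _ _ _ _ (by omega) (by omega) (by omega) (by omega)
  · intro j m p q hr h
    obtain ⟨-, -, -, -, hp1, hp2, hq1, hq2⟩ := hr
    replace h := of_decide_eq_true h
    rcases h with h | h | h | h | h | h | h | h | h | h | h | h | h | h | h | h | h | h | h | h | h | h | h | h | h | h | h
    · obtain ⟨rfl, rfl, h⟩ := h
      exact mt (NW.w1v H.a8 (by omega) (by omega) (by omega) (by omega) (by omega) (by omega) (by omega) (by omega)).mp (by omega)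
    · obtain ⟨rfl, rfl, h⟩ := h
      exact mt (WrapC.v1 H.a6 (by omega) (by omega) (by omega) (by omega) (by omega) (by omega) (by omega) (by omega)).mp (by omega)
    · obtain ⟨rfl, rfl, h⟩ := h
      exact mt (WrapC.v1 H.a2 (by omega) (by omega) (by omega) (by omega) (by omega) (by omega) (by omega) (by omega)).mp (by omega)
    · obtain ⟨rfl, rfl, h⟩ := h
      exact H.eo _ _ _ _ (by omega) (by omega) (by omega) (by omega) (by omega) (by omega) (by omega)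
    · obtain ⟨rfl, rfl, h⟩ := h
      exact NHT.pmi hf H.T (j := 1) (by omega) (by omega) (by omega) (by omega) (by omega) (by omega)
    · obtain ⟨rfl, rfl, h⟩ := h
      exact H.eo _ _ _ _ (by omega) (by omega) (by omega) (by omega) (by omega) (by omega) (by omega)
    · obtain ⟨rfl, rfl, h⟩ := h
      exact NW.rm1i hf H.T (p := 1) (j := 0) (by omega) (by omega) (by omega) (by omega) (by omega) (by omega) (by omega)
    · obtain ⟨rfl, rfl, h⟩ := h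
      exact NHT.p0i hf H.T (j := 0) (by omega) (by omega) (by omega) (by omega) (by omega) (by omega)
    · obtain ⟨rfl, rfl, h⟩ := h
      exact NHT.rIn hf H.T (t := 3) (p := 1) (j := 1) (by omega) (by omega) (by omega) (by omega) (by omega) (by omega) (by omega) (by omega)
    · obtain ⟨rfl, rfl, h⟩ := h
      exact NHT.rIn hf H.T (t := 3) (p := 0) (j := 1) (by omega) (by omega) (by omega) (by omega) (by omega) (by omega) (by omega) (by omega)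
    · obtain ⟨rfl, rfl, h⟩ := h
      exact NHT.rIn hf H.T (t := 3) (p := 1) (j := 0) (by omega) (by omega) (by omega) (by omega) (by omega) (by omega) (by omega) (by omega)
    · obtain ⟨rfl, rfl, h⟩ := h
      exact NHT.pmi hf H.T (j := 0) (by omega) (by omega) (by omega) (by omega) (by omega) (by omega)
    · obtain ⟨rfl, rfl, h⟩ := h
      exact NW.rm1i hf H.T (p := 1) (j := 1) (by omega) (by omega) (by omega) (by omega) (by omega) (by omega) (by omega)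
    · obtain ⟨rfl, rfl, h⟩ := h
      exact NW.rm1i hf H.T (p := 0) (j := 1) (by omega) (by omega) (by omega) (by omega) (by omega) (by omega) (by omega)
    · obtain ⟨rfl, rfl, h⟩ := h
      exact NHT.p0i hf H.T (j := 1) (by omega) (by omega) (by omega) (by omega) (by omega) (by omega)
    · obtain ⟨rfl, rfl, h⟩ := h
      exact NHT.rIn hf H.T (t := 3) (p := 1) (j := 2) (by omega) (by omega) (by omega) (by omega) (by omega) (by omega) (by omega) (by omega)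
    · obtain ⟨rfl, rfl, h⟩ := h
      exact NHT.pmi hf H.T (j := 2) (by omega) (by omega) (by omega) (by omega) (by omega) (by omega)
    · obtain ⟨rfl, rfl, h⟩ := h
      exact mt (WrapC.v1 H.a4 (by omega) (by omega) (by omega) (by omega) (by omega) (by omega) (by omega) (by omega)).mp (by omega)
    · obtain ⟨rfl, rfl, h⟩ := h
      exact H.eo _ _ _ _ (by omega) (by omega) (by omega) (by omega) (by omega) (by omega) (by omega)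
    · obtain ⟨rfl, rfl, h⟩ := h
      exact NW.rm1i hf H.T (p := 1) (j := 2) (by omega) (by omega) (by omega) (by omega) (by omega) (by omega) (by omega)
    · obtain ⟨rfl, rfl, h⟩ := h
      exact NW.rm1i hf H.T (p := 0) (j := 2) (by omega) (by omega) (by omega) (by omega) (by omega) (by omega) (by omega)
    · obtain ⟨rfl, rfl, h⟩ := h
      exact NHT.p0i hf H.T (j := 2) (by omega) (by omega) (by omega) (by omega) (by omega) (by omega)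
    · obtain ⟨rfl, rfl, h⟩ := h
      exact mt (WrapC.v0 H.a4 (by omega) (by omega) (by omega) (by omega) (by omega) (by omega) (by omega)).mp (by omega)
    · obtain ⟨rfl, rfl, h⟩ := h
      exact mt (WrapC.v2 H.a2 (by omega) (by omega) (by omega) (by omega) (by omega) (by omega) (by omega)).mp (by omega)
    · obtain ⟨rfl, rfl, h⟩ := h
      exact NW.rm1i hf H.T (p := 1) (j := 3) (by omega) (by omega) (by omega) (by omega) (by omega) (by omega) (by omega)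
    · obtain ⟨rfl, rfl, h⟩ := h
      exact NW.rm1i hf H.T (p := 0) (j := 3) (by omega) (by omega) (by omega) (by omega) (by omega) (by omega) (by omega)
    · obtain ⟨rfl, rfl, h⟩ := h
      exact NHT.p0i hf H.T (j := 3) (by omega) (by omega) (by omega) (by omega) (by omega) (by omega)

end Pool.Agent.SNT.LRI
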