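import Pool.Agent.SNT.LRD

set_option autoImplicit false
set_option linter.unusedVariables false
set_option synthInstance.maxSize 100000
set_option synthInstance.maxHeartbeats 4000000

/-! Local certificates of the location of the top leader (3). -/

namespace Pool.Agent.SNT.LRI

open Pool.Agent.SNT Pool.Agent.SNT.Loc Pool.Agent.SNT.LW Pool.Agent.SNT.NHZ

variable {f : ℕ → ℕ → ℕ → ℕ → Prop}

theorem cW0_m1_m1_4_chk : check 2 7 4 5 0 0 1 1 0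
    (fun j n p q => decide ((j = 2 ∧ n = 5 ∧ (p = 2 ∧ q = 3))))
    (fun j n p q => decide ((j = 2 ∧ n = 1 ∧ (1 ≤ p ∧ p ≤ 2 ∧ 1 ≤ q ∧ q ≤ 2))
      ∨ (j = 1 ∧ n = 1 ∧ (1 ≤ p ∧ p ≤ 2 ∧ 1 ≤ q ∧ q ≤ 2))
      ∨ (j = 1 ∧ n = 2 ∧ (1 ≤ p ∧ p ≤ 2 ∧ 1 ≤ q ∧ q ≤ 2))
      ∨ (j = 1 ∧ n = 3 ∧ (1 ≤ p ∧ p ≤ 2 ∧ 2 ≤ q ∧ q ≤ 3))
      ∨ (j = 1 ∧ n = 4 ∧ (1 ≤ p ∧ p ≤ 2 ∧ 2 ≤ q ∧ q ≤ 3))
      ∨ (j = 2 ∧ n = 3 ∧ ((p = 1 ∧ 2 ≤ q ∧ q ≤ 3) ∨ (p = 2 ∧ q = 3)))))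
    30
    0xa60300b00000baaa00c48000c48f00b80700b08700ae0700ad8700a307009c07009b87009987009907007487007407007207007187006a87006a07006807006787006007005f87005d87005d07005607005587005387005307 = true := by
  decide +kernel

theorem cW0_m1_m1_4 (hf : Rule f) {k c n M R x y : ℕ} (H : LI f k c n)
    (eM : M = 6 * k + 0) (eR : R + 1 = c) (ex : x + 1 = 2 * n) (ey : y + 2 * k = 2 * n + 4) : ¬ f M R x y := by
  intro hg
  have hk := H.T.hk
  have hc := H.T.hc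
  have h4 := H.T.h4
  have hb := H.T.hb
  have hN := H.T.hN2
  have hg' : ∀ M' R' x' y' : ℕ, M' = M → R' = R → x' = x → y' = y → f M' R' x' y' := by
    rintro _ _ _ _ rfl rfl rfl rfl
    exact hg
  clear hg
  obtain ⟨a0, ha0⟩ : ∃ z, z + 2 = 6 * k := ⟨6 * k - 2, by omega⟩
  obtain ⟨b0, hb0⟩ : ∃ z, z + 6 = c := ⟨c - 6, by omega⟩
  obtain ⟨x0, hx0⟩ : ∃ z, z + 3 = 2 * n := ⟨2 * n - 3, by omega⟩
  obtain ⟨y0, hy0⟩ : ∃ z, z + 2 * k = 2 * n + 1 := ⟨2 * n + 1 - 2 * k, by omega⟩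
  refine check_sound hf (a0 := a0) (b0 := b0) (x0 := x0) (y0 := y0) cW0_m1_m1_4_chk
    ⟨fun h => absurd h (by decide), fun h => absurd h (by decide), fun h => absurd h (by decide), by omega, by omega,
      by omega, by omega⟩ ?_ ?_
  · intro j m p q hr h
    obtain ⟨-, -, -, -, hp1, hp2, hq1, hq2⟩ := hr
    replace h := of_decide_eq_true h
    obtain ⟨rfl, rfl, h⟩ := h
    exact hg' _ _ _ _ (by omega) (by omega) (by omega) (by omega)
  · intro j m p q hr h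
    obtain ⟨-, -, -, -, hp1, hp2, hq1, hq2⟩ := hr
    replace h := of_decide_eq_true h
    rcases h with h | h | h | h | h | h
    · obtain ⟨rfl, rfl, h⟩ := h
      exact mt (WrapC.v1 H.a0 (by omega) (by omega) (by omega) (by omega) (by omega) (by omega) (by omega) (by omega)).mp (by omega)
    · obtain ⟨rfl, rfl, h⟩ := h
      exact H.lw _ _ _ _ (by omega) (by omega) (by omega) (by omega) (by omega) (by omega)
    · obtain ⟨rfl, rfl, h⟩ := h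
      exact H.lw _ _ _ _ (by omega) (by omega) (by omega) (by omega) (by omega) (by omega)
    · obtain ⟨rfl, rfl, h⟩ := h
      exact H.lw _ _ _ _ (by omega) (by omega) (by omega) (by omega) (by omega) (by omega)
    · obtain ⟨rfl, rfl, h⟩ := h
      exact H.lw _ _ _ _ (by omega) (by omega) (by omega) (by omega) (by omega) (by omega)
    · obtain ⟨rfl, rfl, h⟩ := h
      exact NHT.rIn hf H.T (t := 3) (p := 0) (j := 3) (by omega) (by omega) (by omega) (by omega) (by omega) (by omega) (by omega) (by omega)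

theorem cW0_m1_0_4_chk : check 5 7 6 7 0 0 1 0 0
    (fun j n p q => decide ((j = 4 ∧ n = 3 ∧ (p = 4 ∧ q = 1))
      ∨ (j = 4 ∧ n = 2 ∧ (p = 4 ∧ q = 4))
      ∨ (j = 2 ∧ n = 5 ∧ (p = 3 ∧ q = 4))))
    (fun j n p q => decide ((j = 4 ∧ n = 3 ∧ (3 ≤ p ∧ p ≤ 4 ∧ 2 ≤ q ∧ q ≤ 5))
      ∨ (j = 2 ∧ n = 1 ∧ ((p = 1 ∧ 2 ≤ q ∧ q ≤ 3) ∨ (2 ≤ p ∧ p ≤ 3 ∧ 2 ≤ q ∧ q ≤ 4)))
      ∨ (j = 3 ∧ n = 3 ∧ ((p = 2 ∧ 3 ≤ q ∧ q ≤ 4) ∨ (p = 3 ∧ 2 ≤ q ∧ q ≤ 4) ∨ (p = 4 ∧ 2 ≤ q ∧ q ≤ 3)))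
      ∨ (j = 1 ∧ n = 1 ∧ (1 ≤ p ∧ p ≤ 3 ∧ 2 ≤ q ∧ q ≤ 3))
      ∨ (j = 1 ∧ n = 2 ∧ (1 ≤ p ∧ p ≤ 3 ∧ 2 ≤ q ∧ q ≤ 3))
      ∨ (j = 3 ∧ n = 4 ∧ ((p = 2 ∧ 3 ≤ q ∧ q ≤ 4) ∨ (p = 3 ∧ q = 3) ∨ (p = 4 ∧ 2 ≤ q ∧ q ≤ 3)))
      ∨ (j = 1 ∧ n = 3 ∧ (2 ≤ p ∧ p ≤ 3 ∧ 2 ≤ q ∧ q ≤ 3))
      ∨ (j = 1 ∧ n = 4 ∧ (2 ≤ p ∧ p ≤ 3 ∧ 2 ≤ q ∧ q ≤ 3))
      ∨ (j = 3 ∧ n = 1 ∧ (2 ≤ p ∧ p ≤ 3 ∧ 3 ≤ q ∧ q ≤ 4))
      ∨ (j = 5 ∧ n = 3 ∧ ((p = 3 ∧ 4 ≤ q ∧ q ≤ 5) ∨ (p = 4 ∧ q = 5)))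
      ∨ (j = 5 ∧ n = 4 ∧ ((p = 3 ∧ 4 ≤ q ∧ q ≤ 5) ∨ (p = 4 ∧ q = 5)))
      ∨ (j = 3 ∧ n = 2 ∧ ((p = 2 ∧ 3 ≤ q ∧ q ≤ 4) ∨ (p = 3 ∧ q = 4)))
      ∨ (j = 2 ∧ n = 3 ∧ (p = 2 ∧ q = 4))
      ∨ (j = 3 ∧ n = 2 ∧ (p = 3 ∧ q = 3))))
    92
    0x1860302188002afda03430003438a02198002198101ef83017180017184015c03017100017104015883016d80016d84029980028600019b80034387034007033f87032e87032b07032a8702ac8702ab87029b87029b07029a87029a0702998f02980702978702970702968702860f021c87021c0702190702160702158702078702070702048702040702038702010702008701ef8701ef0701ec0701eb8701da8701da0701d70701d687019b8f018687018587016e07015c87015b87015487014787014707014687014407014387014307014007013f8700f30700f28700ef8700ef0700de0700dd8700da8700da0700c90700c88700c58700c50700c20700c18700b40700b38700b08700b00700ad0700ac87 = true := by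
  decide +kernel

theorem cW0_m1_0_4 (hf : Rule f) {k c n M R x y : ℕ} (H : LI f k c n)
    (eM : M = 6 * k + 0) (eR : R + 1 = c) (ex : x = 2 * n) (ey : y + 2 * k = 2 * n + 4) : ¬ f M R x y := by
  intro hg
  have hk := H.T.hk
  have hc := H.T.hc
  have h4 := H.T.h4
  have hb := H.T.hb
  have hN := H.T.hN2
  have hg' : ∀ M' R' x' y' : ℕ, M' = M → R' = R → x' = x → y' = y → f M' R' x' y' := by
    rintro _ _ _ _ rfl rfl rfl rfl
    exact hg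
  clear hg
  obtain ⟨a0, ha0⟩ : ∃ z, z + 2 = 6 * k := ⟨6 * k - 2, by omega⟩
  obtain ⟨b0, hb0⟩ : ∃ z, z + 6 = c := ⟨c - 6, by omega⟩
  obtain ⟨x0, hx0⟩ : ∃ z, z + 3 = 2 * n := ⟨2 * n - 3, by omega⟩
  obtain ⟨y0, hy0⟩ : ∃ z, z + 2 * k = 2 * n + 0 := ⟨2 * n + 0 - 2 * k, by omega⟩
  refine check_sound hf (a0 := a0) (b0 := b0) (x0 := x0) (y0 := y0) cW0_m1_0_4_chk
    ⟨fun h => absurd h (by decide), fun h => absurd h (by decide), fun h => absurd h (by decide), by omega, by omega,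
      by omega, by omega⟩ ?_ ?_
  · intro j m p q hr h
    obtain ⟨-, -, -, -, hp1, hp2, hq1, hq2⟩ := hr
    replace h := of_decide_eq_true h
    rcases h with h | h | h
    · obtain ⟨rfl, rfl, h⟩ := h
      exact (WrapC.v1 H.a2 (by omega) (by omega) (by omega) (by omega) (by omega) (by omega) (by omega) (by omega)).mpr (by omega)
    · obtain ⟨rfl, rfl, h⟩ := h
      exact (WrapC.v0 H.a2 (by omega) (by omega) (by omega) (by omega) (by omega) (by omega) (by omega)).mpr (by omega)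
    · obtain ⟨rfl, rfl, h⟩ := h
      exact hg' _ _ _ _ (by omega) (by omega) (by omega) (by omega)
  · intro j m p q hr h
    obtain ⟨-, -, -, -, hp1, hp2, hq1, hq2⟩ := hr
    replace h := of_decide_eq_true h
    rcases h with h | h | h | h | h | h | h | h | h | h | h | h | h | h
    · obtain ⟨rfl, rfl, h⟩ := h
      exact mt (WrapC.v1 H.a2 (by omega) (by omega) (by omega) (by omega) (by omega) (by omega) (by omega) (by omega)).mp (by omega)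
    · obtain ⟨rfl, rfl, h⟩ := h
      exact mt (WrapC.v1 H.a0 (by omega) (by omega) (by omega) (by omega) (by omega) (by omega) (by omega) (by omega)).mp (by omega)
    · obtain ⟨rfl, rfl, h⟩ := h
      exact H.eo _ _ _ _ (by omega) (by omega) (by omega) (by omega) (by omega) (by omega) (by omega)
    · obtain ⟨rfl, rfl, h⟩ := h
      exact H.lw _ _ _ _ (by omega) (by omega) (by omega) (by omega) (by omega) (by omega)
    · obtain ⟨rfl, rfl, h⟩ := h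
      exact H.lw _ _ _ _ (by omega) (by omega) (by omega) (by omega) (by omega) (by omega)
    · obtain ⟨rfl, rfl, h⟩ := h
      exact H.eo _ _ _ _ (by omega) (by omega) (by omega) (by omega) (by omega) (by omega) (by omega)
    · obtain ⟨rfl, rfl, h⟩ := h
      exact H.lw _ _ _ _ (by omega) (by omega) (by omega) (by omega) (by omega) (by omega)
    · obtain ⟨rfl, rfl, h⟩ := h
      exact H.lw _ _ _ _ (by omega) (by omega) (by omega) (by omega) (by omega) (by omega)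
    · obtain ⟨rfl, rfl, h⟩ := h
      exact H.eo _ _ _ _ (by omega) (by omega) (by omega) (by omega) (by omega) (by omega) (by omega)
    · obtain ⟨rfl, rfl, h⟩ := h
      exact NHT.rIn hf H.T (t := 3) (p := 1) (j := 2) (by omega) (by omega) (by omega) (by omega) (by omega) (by omega) (by omega) (by omega)
    · obtain ⟨rfl, rfl, h⟩ := h
      exact NHT.pmi hf H.T (j := 2) (by omega) (by omega) (by omega) (by omega) (by omega) (by omega)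
    · obtain ⟨rfl, rfl, h⟩ := h
      exact NHT.pIn hf H.T (t := 3) (j := 2) (by omega) (by omega) (by omega) (by omega) (by omega) (by omega) (by omega)
    · obtain ⟨rfl, rfl, h⟩ := h
      exact NHT.rIn hf H.T (t := 3) (p := 0) (j := 3) (by omega) (by omega) (by omega) (by omega) (by omega) (by omega) (by omega) (by omega)
    · obtain ⟨rfl, rfl, h⟩ := h
      exact H.eo _ _ _ _ (by omega) (by omega) (by omega) (by omega) (by omega) (by omega) (by omega)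

theorem cW0_m1_1_4_chk : check 3 7 5 5 0 0 0 1 0
    (fun j n p q => decide ((j = 2 ∧ n = 5 ∧ (p = 3 ∧ q = 3))))
    (fun j n p q => decide ((j = 2 ∧ n = 1 ∧ (1 ≤ p ∧ p ≤ 3 ∧ 1 ≤ q ∧ q ≤ 3))
      ∨ (j = 1 ∧ n = 1 ∧ ((p = 1 ∧ 1 ≤ q ∧ q ≤ 2) ∨ (2 ≤ p ∧ p ≤ 3 ∧ 1 ≤ q ∧ q ≤ 3)))
      ∨ (j = 1 ∧ n = 2 ∧ ((p = 1 ∧ 1 ≤ q ∧ q ≤ 2) ∨ (2 ≤ p ∧ p ≤ 3 ∧ 1 ≤ q ∧ q ≤ 3)))
      ∨ (j = 1 ∧ n = 3 ∧ (2 ≤ p ∧ p ≤ 3 ∧ 2 ≤ q ∧ q ≤ 3))
      ∨ (j = 1 ∧ n = 4 ∧ (2 ≤ p ∧ p ≤ 3 ∧ 2 ≤ q ∧ q ≤ 3))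
      ∨ (j = 3 ∧ n = 1 ∧ (1 ≤ p ∧ p ≤ 2 ∧ 2 ≤ q ∧ q ≤ 3))
      ∨ (j = 3 ∧ n = 2 ∧ ((p = 1 ∧ 2 ≤ q ∧ q ≤ 3) ∨ (p = 2 ∧ q = 3)))
      ∨ (j = 3 ∧ n = 2 ∧ (p = 2 ∧ q = 2))))
    58
    0xce0300da8000ea3a01260300db0000db0400d08300dd0000dd0400d10300dd8000dd8400f68001260701258701238701230701198701190701170701168700f68f00e78700ce8700cd8700c48700c40700c38700c20700c18700c10700bf8700bf0700be87009287009207009007008f87008607008587008387008307007987007907007887007707007687007607007407007387006d07006c87006c07006a87006a07006987006787006707 = true := by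
  decide +kernel

theorem cW0_m1_1_4 (hf : Rule f) {k c n M R x y : ℕ} (H : LI f k c n)
    (eM : M = 6 * k + 0) (eR : R + 1 = c) (ex : x = 2 * n + 1) (ey : y + 2 * k = 2 * n + 4) : ¬ f M R x y := by
  intro hg
  have hk := H.T.hk
  have hc := H.T.hc
  have h4 := H.T.h4
  have hb := H.T.hb
  have hN := H.T.hN2
  have hg' : ∀ M' R' x' y' : ℕ, M' = M → R' = R → x' = x → y' = y → f M' R' x' y' := by
    rintro _ _ _ _ rfl rfl rfl rfl
    exact hg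
  clear hg
  obtain ⟨a0, ha0⟩ : ∃ z, z + 2 = 6 * k := ⟨6 * k - 2, by omega⟩
  obtain ⟨b0, hb0⟩ : ∃ z, z + 6 = c := ⟨c - 6, by omega⟩
  obtain ⟨x0, hx0⟩ : ∃ z, z + 2 = 2 * n := ⟨2 * n - 2, by omega⟩
  obtain ⟨y0, hy0⟩ : ∃ z, z + 2 * k = 2 * n + 1 := ⟨2 * n + 1 - 2 * k, by omega⟩
  refine check_sound hf (a0 := a0) (b0 := b0) (x0 := x0) (y0 := y0) cW0_m1_1_4_chk
    ⟨fun h => absurd h (by decide), fun h => absurd h (by decide), fun h => absurd h (by decide), by omega, by omega,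
      by omega, by omega⟩ ?_ ?_
  · intro j m p q hr h
    obtain ⟨-, -, -, -, hp1, hp2, hq1, hq2⟩ := hr
    replace h := of_decide_eq_true h
    obtain ⟨rfl, rfl, h⟩ := h
    exact hg' _ _ _ _ (by omega) (by omega) (by omega) (by omega)
  · intro j m p q hr h
    obtain ⟨-, -, -, -, hp1, hp2, hq1, hq2⟩ := hr
    replace h := of_decide_eq_true h
    rcases h with h | h | h | h | h | h | h | h
    · obtain ⟨rfl, rfl, h⟩ := h
      exact mt (WrapC.v1 H.a0 (by omega) (by omega) (by omega) (by omega) (by omega) (by omega) (by omega) (by omega)).mp (by omega)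
    · obtain ⟨rfl, rfl, h⟩ := h
      exact H.lw _ _ _ _ (by omega) (by omega) (by omega) (by omega) (by omega) (by omega)
    · obtain ⟨rfl, rfl, h⟩ := h
      exact H.lw _ _ _ _ (by omega) (by omega) (by omega) (by omega) (by omega) (by omega)
    · obtain ⟨rfl, rfl, h⟩ := h
      exact H.lw _ _ _ _ (by omega) (by omega) (by omega) (by omega) (by omega) (by omega)
    · obtain ⟨rfl, rfl, h⟩ := h
      exact H.lw _ _ _ _ (by omega) (by omega) (by omega) (by omega) (by omega) (by omega)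
    · obtain ⟨rfl, rfl, h⟩ := h
      exact H.eo _ _ _ _ (by omega) (by omega) (by omega) (by omega) (by omega) (by omega) (by omega)
    · obtain ⟨rfl, rfl, h⟩ := h
      exact NHT.pIn hf H.T (t := 3) (j := 2) (by omega) (by omega) (by omega) (by omega) (by omega) (by omega) (by omega)
    · obtain ⟨rfl, rfl, h⟩ := h
      exact H.eo _ _ _ _ (by omega) (by omega) (by omega) (by omega) (by omega) (by omega) (by omega)

theorem cW0_m1_0_5_chk : check 2 5 5 5 1 0 1 1 0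
    (fun j n p q => decide ((j = 1 ∧ n = 3 ∧ (p = 3 ∧ q = 2))))
    (fun j n p q => decide ((j = 2 ∧ n = 1 ∧ ((p = 1 ∧ 1 ≤ q ∧ q ≤ 2) ∨ (p = 2 ∧ 1 ≤ q ∧ q ≤ 3) ∨ (p = 3 ∧ 2 ≤ q ∧ q ≤ 3)))
      ∨ (j = 1 ∧ n = 1 ∧ ((p = 1 ∧ 1 ≤ q ∧ q ≤ 2) ∨ (p = 2 ∧ 1 ≤ q ∧ q ≤ 3) ∨ (p = 3 ∧ 2 ≤ q ∧ q ≤ 3)))
      ∨ (j = 2 ∧ n = 2 ∧ ((p = 1 ∧ 1 ≤ q ∧ q ≤ 2) ∨ (p = 2 ∧ 1 ≤ q ∧ q ≤ 3) ∨ (p = 3 ∧ 2 ≤ q ∧ q ≤ 3)))))
    29
    0x5e05005b00009f52009c52006c80009f07009e87009c87009c07009b87009987009907009287009207009007008f87008f07008d07008c87006c8f006087005a87005407005387005187005107005087004e87004e07 = true := by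
  decide +kernel

theorem cW0_m1_0_5 (hf : Rule f) {k c n M R x y : ℕ} (H : LI f k c n)
    (eM : M = 6 * k + 0) (eR : R + 1 = c) (ex : x = 2 * n) (ey : y + 2 * k = 2 * n + 5) : ¬ f M R x y := by
  intro hg
  have hk := H.T.hk
  have hc := H.T.hc
  have h4 := H.T.h4
  have hb := H.T.hb
  have hN := H.T.hN2
  have hg' : ∀ M' R' x' y' : ℕ, M' = M → R' = R → x' = x → y' = y → f M' R' x' y' := by
    rintro _ _ _ _ rfl rfl rfl rfl
    exact hg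
  clear hg
  obtain ⟨a0, ha0⟩ : ∃ z, z + 1 = 6 * k := ⟨6 * k - 1, by omega⟩
  obtain ⟨b0, hb0⟩ : ∃ z, z + 4 = c := ⟨c - 4, by omega⟩
  obtain ⟨x0, hx0⟩ : ∃ z, z + 3 = 2 * n := ⟨2 * n - 3, by omega⟩
  obtain ⟨y0, hy0⟩ : ∃ z, z + 2 * k = 2 * n + 3 := ⟨2 * n + 3 - 2 * k, by omega⟩
  refine check_sound hf (a0 := a0) (b0 := b0) (x0 := x0) (y0 := y0) cW0_m1_0_5_chk
    ⟨fun h => absurd h (by decide), fun h => absurd h (by decide), fun h => absurd h (by decide), by omega, by omega,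
      by omega, by omega⟩ ?_ ?_
  · intro j m p q hr h
    obtain ⟨-, -, -, -, hp1, hp2, hq1, hq2⟩ := hr
    replace h := of_decide_eq_true h
    obtain ⟨rfl, rfl, h⟩ := h
    exact hg' _ _ _ _ (by omega) (by omega) (by omega) (by omega)
  · intro j m p q hr h
    obtain ⟨-, -, -, -, hp1, hp2, hq1, hq2⟩ := hr
    replace h := of_decide_eq_true h
    rcases h with h | h | h
    · obtain ⟨rfl, rfl, h⟩ := h
      exact NHT.rIn hf H.T (t := 3) (p := 1) (j := 3) (by omega) (by omega) (by omega) (by omega) (by omega) (by omega) (by omega) (by omega)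
    · obtain ⟨rfl, rfl, h⟩ := h
      exact NHT.rIn hf H.T (t := 3) (p := 0) (j := 3) (by omega) (by omega) (by omega) (by omega) (by omega) (by omega) (by omega) (by omega)
    · obtain ⟨rfl, rfl, h⟩ := h
      exact NHT.pmi hf H.T (j := 3) (by omega) (by omega) (by omega) (by omega) (by omega) (by omega)

theorem cW0_m1_1_5_chk : check 3 7 5 5 0 0 0 0 0
    (fun j n p q => decide ((j = 2 ∧ n = 5 ∧ (p = 3 ∧ q = 3))))
    (fun j n p q => decide ((j = 2 ∧ n = 1 ∧ ((p = 1 ∧ 1 ≤ q ∧ q ≤ 2) ∨ (2 ≤ p ∧ p ≤ 3 ∧ 1 ≤ q ∧ q ≤ 3)))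
      ∨ (j = 1 ∧ n = 1 ∧ (2 ≤ p ∧ p ≤ 3 ∧ 1 ≤ q ∧ q ≤ 3))
      ∨ (j = 1 ∧ n = 2 ∧ (2 ≤ p ∧ p ≤ 3 ∧ 1 ≤ q ∧ q ≤ 3))
      ∨ (j = 1 ∧ n = 3 ∧ (2 ≤ p ∧ p ≤ 3 ∧ 2 ≤ q ∧ q ≤ 3))
      ∨ (j = 1 ∧ n = 4 ∧ (2 ≤ p ∧ p ≤ 3 ∧ 2 ≤ q ∧ q ≤ 3))
      ∨ (j = 3 ∧ n = 1 ∧ (1 ≤ p ∧ p ≤ 2 ∧ 1 ≤ q ∧ q ≤ 2))
      ∨ (j = 3 ∧ n = 2 ∧ ((p = 1 ∧ 1 ≤ q ∧ q ≤ 2) ∨ (p = 2 ∧ q = 2)))
      ∨ (j = 2 ∧ n = 3 ∧ (p = 2 ∧ q = 3))
      ∨ (j = 3 ∧ n = 2 ∧ (p = 2 ∧ q = 1))))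
    50
    0x1258300da8000ea3a00d08300dd0000dd0400d10300dd8000dd8400f68001258701250701230701228701190701188701168701160700f68f00e70700db0700ce0700c48700c40700c38700c20700c18700c10700bf0700be87009287009207009007008f87008607008587008387008307007987007907007887007707007687007607006d07006c87006c07006a87006a07006987 = true := by
  decide +kernel

theorem cW0_m1_1_5 (hf : Rule f) {k c n M R x y : ℕ} (H : LI f k c n)
    (eM : M = 6 * k + 0) (eR : R + 1 = c) (ex : x = 2 * n + 1) (ey : y + 2 * k = 2 * n + 5) : ¬ f M R x y := by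
  intro hg
  have hk := H.T.hk
  have hc := H.T.hc
  have h4 := H.T.h4
  have hb := H.T.hb
  have hN := H.T.hN2
  have hg' : ∀ M' R' x' y' : ℕ, M' = M → R' = R → x' = x → y' = y → f M' R' x' y' := by
    rintro _ _ _ _ rfl rfl rfl rfl
    exact hg
  clear hg
  obtain ⟨a0, ha0⟩ : ∃ z, z + 2 = 6 * k := ⟨6 * k - 2, by omega⟩
  obtain ⟨b0, hb0⟩ : ∃ z, z + 6 = c := ⟨c - 6, by omega⟩
  obtain ⟨x0, hx0⟩ : ∃ z, z + 2 = 2 * n := ⟨2 * n - 2, by omega⟩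
  obtain ⟨y0, hy0⟩ : ∃ z, z + 2 * k = 2 * n + 2 := ⟨2 * n + 2 - 2 * k, by omega⟩
  refine check_sound hf (a0 := a0) (b0 := b0) (x0 := x0) (y0 := y0) cW0_m1_1_5_chk
    ⟨fun h => absurd h (by decide), fun h => absurd h (by decide), fun h => absurd h (by decide), by omega, by omega,
      by omega, by omega⟩ ?_ ?_
  · intro j m p q hr h
    obtain ⟨-, -, -, -, hp1, hp2, hq1, hq2⟩ := hr
    replace h := of_decide_eq_true h
    obtain ⟨rfl, rfl, h⟩ := h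
    exact hg' _ _ _ _ (by omega) (by omega) (by omega) (by omega)
  · intro j m p q hr h
    obtain ⟨-, -, -, -, hp1, hp2, hq1, hq2⟩ := hr
    replace h := of_decide_eq_true h
    rcases h with h | h | h | h | h | h | h | h | h
    · obtain ⟨rfl, rfl, h⟩ := h
      exact mt (WrapC.v1 H.a0 (by omega) (by omega) (by omega) (by omega) (by omega) (by omega) (by omega) (by omega)).mp (by omega)
    · obtain ⟨rfl, rfl, h⟩ := h
      exact H.lw _ _ _ _ (by omega) (by omega) (by omega) (by omega) (by omega) (by omega)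
    · obtain ⟨rfl, rfl, h⟩ := h
      exact H.lw _ _ _ _ (by omega) (by omega) (by omega) (by omega) (by omega) (by omega)
    · obtain ⟨rfl, rfl, h⟩ := h
      exact H.lw _ _ _ _ (by omega) (by omega) (by omega) (by omega) (by omega) (by omega)
    · obtain ⟨rfl, rfl, h⟩ := h
      exact H.lw _ _ _ _ (by omega) (by omega) (by omega) (by omega) (by omega) (by omega)
    · obtain ⟨rfl, rfl, h⟩ := h
      exact H.eo _ _ _ _ (by omega) (by omega) (by omega) (by omega) (by omega) (by omega) (by omega)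
    · obtain ⟨rfl, rfl, h⟩ := h
      exact NHT.pIn hf H.T (t := 3) (j := 2) (by omega) (by omega) (by omega) (by omega) (by omega) (by omega) (by omega)
    · obtain ⟨rfl, rfl, h⟩ := h
      exact NHT.rIn hf H.T (t := 3) (p := 0) (j := 3) (by omega) (by omega) (by omega) (by omega) (by omega) (by omega) (by omega) (by omega)
    · obtain ⟨rfl, rfl, h⟩ := h
      exact H.eo _ _ _ _ (by omega) (by omega) (by omega) (by omega) (by omega) (by omega) (by omega)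

theorem cW0_m1_1_6_chk : check 2 7 4 5 0 0 1 1 0
    (fun j n p q => decide ((j = 2 ∧ n = 5 ∧ (p = 2 ∧ q = 3))))
    (fun j n p q => decide ((j = 2 ∧ n = 1 ∧ (1 ≤ p ∧ p ≤ 2 ∧ 1 ≤ q ∧ q ≤ 2))
      ∨ (j = 1 ∧ n = 1 ∧ (1 ≤ p ∧ p ≤ 2 ∧ 1 ≤ q ∧ q ≤ 2))
      ∨ (j = 1 ∧ n = 2 ∧ (1 ≤ p ∧ p ≤ 2 ∧ 1 ≤ q ∧ q ≤ 2))
      ∨ (j = 1 ∧ n = 3 ∧ (1 ≤ p ∧ p ≤ 2 ∧ 2 ≤ q ∧ q ≤ 3))
      ∨ (j = 1 ∧ n = 4 ∧ (1 ≤ p ∧ p ≤ 2 ∧ 2 ≤ q ∧ q ≤ 3))
      ∨ (j = 2 ∧ n = 3 ∧ ((p = 1 ∧ 2 ≤ q ∧ q ≤ 3) ∨ (p = 2 ∧ q = 3)))))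
    30
    0xa60300b00000baaa00c48000c48f00b80700b08700ae0700ad8700a307009c07009b87009987009907007487007407007207007187006a87006a07006807006787006007005f87005d87005d07005607005587005387005307 = true := by
  decide +kernel

theorem cW0_m1_1_6 (hf : Rule f) {k c n M R x y : ℕ} (H : LI f k c n)
    (eM : M = 6 * k + 0) (eR : R + 1 = c) (ex : x = 2 * n + 1) (ey : y + 2 * k = 2 * n + 6) : ¬ f M R x y := by
  intro hg
  have hk := H.T.hk
  have hc := H.T.hc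
  have h4 := H.T.h4
  have hb := H.T.hb
  have hN := H.T.hN2
  have hg' : ∀ M' R' x' y' : ℕ, M' = M → R' = R → x' = x → y' = y → f M' R' x' y' := by
    rintro _ _ _ _ rfl rfl rfl rfl
    exact hg
  clear hg
  obtain ⟨a0, ha0⟩ : ∃ z, z + 2 = 6 * k := ⟨6 * k - 2, by omega⟩
  obtain ⟨b0, hb0⟩ : ∃ z, z + 6 = c := ⟨c - 6, by omega⟩
  obtain ⟨x0, hx0⟩ : ∃ z, z + 1 = 2 * n := ⟨2 * n - 1, by omega⟩
  obtain ⟨y0, hy0⟩ : ∃ z, z + 2 * k = 2 * n + 3 := ⟨2 * n + 3 - 2 * k, by omega⟩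
  refine check_sound hf (a0 := a0) (b0 := b0) (x0 := x0) (y0 := y0) cW0_m1_1_6_chk
    ⟨fun h => absurd h (by decide), fun h => absurd h (by decide), fun h => absurd h (by decide), by omega, by omega,
      by omega, by omega⟩ ?_ ?_
  · intro j m p q hr h
    obtain ⟨-, -, -, -, hp1, hp2, hq1, hq2⟩ := hr
    replace h := of_decide_eq_true h
    obtain ⟨rfl, rfl, h⟩ := h
    exact hg' _ _ _ _ (by omega) (by omega) (by omega) (by omega)
  · intro j m p q hr h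
    obtain ⟨-, -, -, -, hp1, hp2, hq1, hq2⟩ := hr
    replace h := of_decide_eq_true h
    rcases h with h | h | h | h | h | h
    · obtain ⟨rfl, rfl, h⟩ := h
      exact mt (WrapC.v1 H.a0 (by omega) (by omega) (by omega) (by omega) (by omega) (by omega) (by omega) (by omega)).mp (by omega)
    · obtain ⟨rfl, rfl, h⟩ := h
      exact H.lw _ _ _ _ (by omega) (by omega) (by omega) (by omega) (by omega) (by omega)
    · obtain ⟨rfl, rfl, h⟩ := h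
      exact H.lw _ _ _ _ (by omega) (by omega) (by omega) (by omega) (by omega) (by omega)
    · obtain ⟨rfl, rfl, h⟩ := h
      exact H.lw _ _ _ _ (by omega) (by omega) (by omega) (by omega) (by omega) (by omega)
    · obtain ⟨rfl, rfl, h⟩ := h
      exact H.lw _ _ _ _ (by omega) (by omega) (by omega) (by omega) (by omega) (by omega)
    · obtain ⟨rfl, rfl, h⟩ := h
      exact NHT.rIn hf H.T (t := 3) (p := 0) (j := 3) (by omega) (by omega) (by omega) (by omega) (by omega) (by omega) (by omega) (by omega)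

theorem cW2_m1_m1_3_chk : check 2 5 4 4 0 0 1 1 0
    (fun j n p q => decide ((j = 2 ∧ n = 3 ∧ (p = 2 ∧ q = 2))))
    (fun j n p q => decide ((j = 2 ∧ n = 1 ∧ (1 ≤ p ∧ p ≤ 2 ∧ 1 ≤ q ∧ q ≤ 2))
      ∨ (j = 1 ∧ n = 1 ∧ (1 ≤ p ∧ p ≤ 2 ∧ 1 ≤ q ∧ q ≤ 2))
      ∨ (j = 1 ∧ n = 2 ∧ ((p = 1 ∧ q = 2) ∨ (p = 2 ∧ 1 ≤ q ∧ q ≤ 2)))))
    15
    0x6503006d00006d0f006287005d07005c87005b07005a87003d07003c87003b07003507003487003307003287 = true := by
  decide +kernel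

theorem cW2_m1_m1_3 (hf : Rule f) {k c n M R x y : ℕ} (H : LI f k c n)
    (eM : M = 6 * k + 2) (eR : R + 1 = c) (ex : x + 1 = 2 * n) (ey : y + 2 * k = 2 * n + 3) : ¬ f M R x y := by
  intro hg
  have hk := H.T.hk
  have hc := H.T.hc
  have h4 := H.T.h4
  have hb := H.T.hb
  have hN := H.T.hN2
  have hg' : ∀ M' R' x' y' : ℕ, M' = M → R' = R → x' = x → y' = y → f M' R' x' y' := by
    rintro _ _ _ _ rfl rfl rfl rfl
    exact hg
  clear hg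
  obtain ⟨a0, ha0⟩ : ∃ z, z = 6 * k + 0 := ⟨_, rfl⟩
  obtain ⟨b0, hb0⟩ : ∃ z, z + 4 = c := ⟨c - 4, by omega⟩
  obtain ⟨x0, hx0⟩ : ∃ z, z + 3 = 2 * n := ⟨2 * n - 3, by omega⟩
  obtain ⟨y0, hy0⟩ : ∃ z, z + 2 * k = 2 * n + 1 := ⟨2 * n + 1 - 2 * k, by omega⟩
  refine check_sound hf (a0 := a0) (b0 := b0) (x0 := x0) (y0 := y0) cW2_m1_m1_3_chk
    ⟨fun h => absurd h (by decide), fun h => absurd h (by decide), fun h => absurd h (by decide), by omega, by omega,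
      by omega, by omega⟩ ?_ ?_
  · intro j m p q hr h
    obtain ⟨-, -, -, -, hp1, hp2, hq1, hq2⟩ := hr
    replace h := of_decide_eq_true h
    obtain ⟨rfl, rfl, h⟩ := h
    exact hg' _ _ _ _ (by omega) (by omega) (by omega) (by omega)
  · intro j m p q hr h
    obtain ⟨-, -, -, -, hp1, hp2, hq1, hq2⟩ := hr
    replace h := of_decide_eq_true h
    rcases h with h | h | h
    · obtain ⟨rfl, rfl, h⟩ := h
      exact mt (WrapC.v1 H.a2 (by omega) (by omega) (by omega) (by omega) (by omega) (by omega) (by omega) (by omega)).mp (by omega)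
    · obtain ⟨rfl, rfl, h⟩ := h
      exact H.eo _ _ _ _ (by omega) (by omega) (by omega) (by omega) (by omega) (by omega) (by omega)
    · obtain ⟨rfl, rfl, h⟩ := h
      exact H.eo _ _ _ _ (by omega) (by omega) (by omega) (by omega) (by omega) (by omega) (by omega)

theorem cW2_m1_0_3_chk : check 2 5 4 4 0 0 0 1 0
    (fun j n p q => decide ((j = 2 ∧ n = 3 ∧ (p = 2 ∧ q = 2))))
    (fun j n p q => decide ((j = 2 ∧ n = 1 ∧ (1 ≤ p ∧ p ≤ 2 ∧ 1 ≤ q ∧ q ≤ 2))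
      ∨ (j = 1 ∧ n = 1 ∧ (1 ≤ p ∧ p ≤ 2 ∧ 1 ≤ q ∧ q ≤ 2))
      ∨ (j = 1 ∧ n = 2 ∧ ((p = 1 ∧ 1 ≤ q ∧ q ≤ 2) ∨ (p = 2 ∧ q = 2)))))
    15
    0x6503006d00006d0f006487005d07005c87005b07005a87003d07003b07003a87003507003487003307003287 = true := by
  decide +kernel

theorem cW2_m1_0_3 (hf : Rule f) {k c n M R x y : ℕ} (H : LI f k c n)
    (eM : M = 6 * k + 2) (eR : R + 1 = c) (ex : x = 2 * n) (ey : y + 2 * k = 2 * n + 3) : ¬ f M R x y := by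
  intro hg
  have hk := H.T.hk
  have hc := H.T.hc
  have h4 := H.T.h4
  have hb := H.T.hb
  have hN := H.T.hN2
  have hg' : ∀ M' R' x' y' : ℕ, M' = M → R' = R → x' = x → y' = y → f M' R' x' y' := by
    rintro _ _ _ _ rfl rfl rfl rfl
    exact hg
  clear hg
  obtain ⟨a0, ha0⟩ : ∃ z, z = 6 * k + 0 := ⟨_, rfl⟩
  obtain ⟨b0, hb0⟩ : ∃ z, z + 4 = c := ⟨c - 4, by omega⟩
  obtain ⟨x0, hx0⟩ : ∃ z, z + 2 = 2 * n := ⟨2 * n - 2, by omega⟩
  obtain ⟨y0, hy0⟩ : ∃ z, z + 2 * k = 2 * n + 1 := ⟨2 * n + 1 - 2 * k, by omega⟩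
  refine check_sound hf (a0 := a0) (b0 := b0) (x0 := x0) (y0 := y0) cW2_m1_0_3_chk
    ⟨fun h => absurd h (by decide), fun h => absurd h (by decide), fun h => absurd h (by decide), by omega, by omega,
      by omega, by omega⟩ ?_ ?_
  · intro j m p q hr h
    obtain ⟨-, -, -, -, hp1, hp2, hq1, hq2⟩ := hr
    replace h := of_decide_eq_true h
    obtain ⟨rfl, rfl, h⟩ := h
    exact hg' _ _ _ _ (by omega) (by omega) (by omega) (by omega)
  · intro j m p q hr h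
    obtain ⟨-, -, -, -, hp1, hp2, hq1, hq2⟩ := hr
    replace h := of_decide_eq_true h
    rcases h with h | h | h
    · obtain ⟨rfl, rfl, h⟩ := h
      exact mt (WrapC.v1 H.a2 (by omega) (by omega) (by omega) (by omega) (by omega) (by omega) (by omega) (by omega)).mp (by omega)
    · obtain ⟨rfl, rfl, h⟩ := h
      exact H.eo _ _ _ _ (by omega) (by omega) (by omega) (by omega) (by omega) (by omega) (by omega)
    · obtain ⟨rfl, rfl, h⟩ := h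
      exact H.eo _ _ _ _ (by omega) (by omega) (by omega) (by omega) (by omega) (by omega) (by omega)

end Pool.Agent.SNT.LRI
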