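import Pool.Agent.SNT.LRD

set_option autoImplicit false
set_option linter.unusedVariables false
set_option synthInstance.maxSize 100000
set_option synthInstance.maxHeartbeats 4000000

/-! Local certificates of the location of the top leader (4). -/

namespace Pool.Agent.SNT.LRI

open Pool.Agent.SNT Pool.Agent.SNT.Loc Pool.Agent.SNT.LW Pool.Agent.SNT.NHZ

variable {f : ℕ → ℕ → ℕ → ℕ → Prop}

theorem cW2_m1_1_3_chk : check 2 5 4 4 0 0 1 1 0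
    (fun j n p q => decide ((j = 2 ∧ n = 3 ∧ (p = 2 ∧ q = 2))))
    (fun j n p q => decide ((j = 2 ∧ n = 1 ∧ (1 ≤ p ∧ p ≤ 2 ∧ 1 ≤ q ∧ q ≤ 2))
      ∨ (j = 1 ∧ n = 1 ∧ (1 ≤ p ∧ p ≤ 2 ∧ 1 ≤ q ∧ q ≤ 2))
      ∨ (j = 1 ∧ n = 2 ∧ ((p = 1 ∧ q = 2) ∨ (p = 2 ∧ 1 ≤ q ∧ q ≤ 2)))))
    15
    0x6503006d00006d0f006287005d07005c87005b07005a87003d07003c87003b07003507003487003307003287 = true := by
  decide +kernel

theorem cW2_m1_1_3 (hf : Rule f) {k c n M R x y : ℕ} (H : LI f k c n)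
    (eM : M = 6 * k + 2) (eR : R + 1 = c) (ex : x = 2 * n + 1) (ey : y + 2 * k = 2 * n + 3) : ¬ f M R x y := by
  intro hg
  have hk := H.T.hk
  have hc := H.T.hc
  have h4 := H.T.h4
  have hb := H.T.hb
  have hN := H.T.hN2
  have hg' : ∀ M' R' x' y' : ℕ, M' = M → R' = R → x' = x → y' = y → f M' R' x' y' := by
    rintro _ _ _ _ rfl rfl rfl rfl
    exact hg
  clear hg
  obtain ⟨a0, ha0⟩ : ∃ z, z = 6 * k + 0 := ⟨_, rfl⟩
  obtain ⟨b0, hb0⟩ : ∃ z, z + 4 = c := ⟨c - 4, by omega⟩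
  obtain ⟨x0, hx0⟩ : ∃ z, z + 1 = 2 * n := ⟨2 * n - 1, by omega⟩
  obtain ⟨y0, hy0⟩ : ∃ z, z + 2 * k = 2 * n + 1 := ⟨2 * n + 1 - 2 * k, by omega⟩
  refine check_sound hf (a0 := a0) (b0 := b0) (x0 := x0) (y0 := y0) cW2_m1_1_3_chk
    ⟨fun h => absurd h (by decide), fun h => absurd h (by decide), fun h => absurd h (by decide), by omega, by omega,
      by omega, by omega⟩ ?_ ?_
  · intro j m p q hr h
    obtain ⟨-, -, -, -, hp1, hp2, hq1, hq2⟩ := hr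
    replace h := of_decide_eq_true h
    obtain ⟨rfl, rfl, h⟩ := h
    exact hg' _ _ _ _ (by omega) (by omega) (by omega) (by omega)
  · intro j m p q hr h
    obtain ⟨-, -, -, -, hp1, hp2, hq1, hq2⟩ := hr
    replace h := of_decide_eq_true h
    rcases h with h | h | h
    · obtain ⟨rfl, rfl, h⟩ := h
      exact mt (WrapC.v1 H.a2 (by omega) (by omega) (by omega) (by omega) (by omega) (by omega) (by omega) (by omega)).mp (by omega)
    · obtain ⟨rfl, rfl, h⟩ := h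
      exact H.eo _ _ _ _ (by omega) (by omega) (by omega) (by omega) (by omega) (by omega) (by omega)
    · obtain ⟨rfl, rfl, h⟩ := h
      exact H.eo _ _ _ _ (by omega) (by omega) (by omega) (by omega) (by omega) (by omega) (by omega)

theorem cW2_m1_1_4_chk : check 2 5 4 4 0 0 1 0 0
    (fun j n p q => decide ((j = 2 ∧ n = 3 ∧ (p = 2 ∧ q = 2))))
    (fun j n p q => decide ((j = 2 ∧ n = 1 ∧ (1 ≤ p ∧ p ≤ 2 ∧ 1 ≤ q ∧ q ≤ 2))
      ∨ (j = 1 ∧ n = 1 ∧ (1 ≤ p ∧ p ≤ 2 ∧ 1 ≤ q ∧ q ≤ 2))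
      ∨ (j = 1 ∧ n = 2 ∧ ((p = 1 ∧ q = 1) ∨ (p = 2 ∧ 1 ≤ q ∧ q ≤ 2)))))
    15
    0x6503006d00006d0f006307005d07005c87005b07005a87003d07003c87003a87003507003487003307003287 = true := by
  decide +kernel

theorem cW2_m1_1_4 (hf : Rule f) {k c n M R x y : ℕ} (H : LI f k c n)
    (eM : M = 6 * k + 2) (eR : R + 1 = c) (ex : x = 2 * n + 1) (ey : y + 2 * k = 2 * n + 4) : ¬ f M R x y := by
  intro hg
  have hk := H.T.hk
  have hc := H.T.hc
  have h4 := H.T.h4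
  have hb := H.T.hb
  have hN := H.T.hN2
  have hg' : ∀ M' R' x' y' : ℕ, M' = M → R' = R → x' = x → y' = y → f M' R' x' y' := by
    rintro _ _ _ _ rfl rfl rfl rfl
    exact hg
  clear hg
  obtain ⟨a0, ha0⟩ : ∃ z, z = 6 * k + 0 := ⟨_, rfl⟩
  obtain ⟨b0, hb0⟩ : ∃ z, z + 4 = c := ⟨c - 4, by omega⟩
  obtain ⟨x0, hx0⟩ : ∃ z, z + 1 = 2 * n := ⟨2 * n - 1, by omega⟩
  obtain ⟨y0, hy0⟩ : ∃ z, z + 2 * k = 2 * n + 2 := ⟨2 * n + 2 - 2 * k, by omega⟩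
  refine check_sound hf (a0 := a0) (b0 := b0) (x0 := x0) (y0 := y0) cW2_m1_1_4_chk
    ⟨fun h => absurd h (by decide), fun h => absurd h (by decide), fun h => absurd h (by decide), by omega, by omega,
      by omega, by omega⟩ ?_ ?_
  · intro j m p q hr h
    obtain ⟨-, -, -, -, hp1, hp2, hq1, hq2⟩ := hr
    replace h := of_decide_eq_true h
    obtain ⟨rfl, rfl, h⟩ := h
    exact hg' _ _ _ _ (by omega) (by omega) (by omega) (by omega)
  · intro j m p q hr h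
    obtain ⟨-, -, -, -, hp1, hp2, hq1, hq2⟩ := hr
    replace h := of_decide_eq_true h
    rcases h with h | h | h
    · obtain ⟨rfl, rfl, h⟩ := h
      exact mt (WrapC.v1 H.a2 (by omega) (by omega) (by omega) (by omega) (by omega) (by omega) (by omega) (by omega)).mp (by omega)
    · obtain ⟨rfl, rfl, h⟩ := h
      exact H.eo _ _ _ _ (by omega) (by omega) (by omega) (by omega) (by omega) (by omega) (by omega)
    · obtain ⟨rfl, rfl, h⟩ := h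
      exact H.eo _ _ _ _ (by omega) (by omega) (by omega) (by omega) (by omega) (by omega) (by omega)

theorem cW2_m1_2_4_chk : check 2 5 5 6 0 0 0 0 0
    (fun j n p q => decide ((j = 2 ∧ n = 2 ∧ (p = 3 ∧ q = 2))
      ∨ (j = 2 ∧ n = 1 ∧ (p = 1 ∧ q = 1))
      ∨ (j = 2 ∧ n = 3 ∧ (p = 2 ∧ q = 4))))
    (fun j n p q => decide ((j = 2 ∧ n = 1 ∧ (1 ≤ p ∧ p ≤ 2 ∧ 2 ≤ q ∧ q ≤ 3))
      ∨ (j = 1 ∧ n = 1 ∧ (1 ≤ p ∧ p ≤ 2 ∧ 2 ≤ q ∧ q ≤ 3))
      ∨ (j = 1 ∧ n = 2 ∧ ((p = 1 ∧ 2 ≤ q ∧ q ≤ 3) ∨ (p = 2 ∧ q = 3)))))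
    19
    0xbb8300cb0000be0000a88000cb0f00be0f00bb0700ac8700ac0700a98700a90700a88f007087006d87006d07006187006107005e87005e07 = true := by
  decide +kernel

theorem cW2_m1_2_4 (hf : Rule f) {k c n M R x y : ℕ} (H : LI f k c n)
    (eM : M = 6 * k + 2) (eR : R + 1 = c) (ex : x = 2 * n + 2) (ey : y + 2 * k = 2 * n + 4) : ¬ f M R x y := by
  intro hg
  have hk := H.T.hk
  have hc := H.T.hc
  have h4 := H.T.h4
  have hb := H.T.hb
  have hN := H.T.hN2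
  have hg' : ∀ M' R' x' y' : ℕ, M' = M → R' = R → x' = x → y' = y → f M' R' x' y' := by
    rintro _ _ _ _ rfl rfl rfl rfl
    exact hg
  clear hg
  obtain ⟨a0, ha0⟩ : ∃ z, z = 6 * k + 0 := ⟨_, rfl⟩
  obtain ⟨b0, hb0⟩ : ∃ z, z + 4 = c := ⟨c - 4, by omega⟩
  obtain ⟨x0, hx0⟩ : ∃ z, z = 2 * n + 0 := ⟨_, rfl⟩
  obtain ⟨y0, hy0⟩ : ∃ z, z + 2 * k = 2 * n + 0 := ⟨2 * n + 0 - 2 * k, by omega⟩
  refine check_sound hf (a0 := a0) (b0 := b0) (x0 := x0) (y0 := y0) cW2_m1_2_4_chk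
    ⟨fun h => absurd h (by decide), fun h => absurd h (by decide), fun h => absurd h (by decide), by omega, by omega,
      by omega, by omega⟩ ?_ ?_
  · intro j m p q hr h
    obtain ⟨-, -, -, -, hp1, hp2, hq1, hq2⟩ := hr
    replace h := of_decide_eq_true h
    rcases h with h | h | h
    · obtain ⟨rfl, rfl, h⟩ := h
      exact (WrapC.v2 H.a2 (by omega) (by omega) (by omega) (by omega) (by omega) (by omega) (by omega)).mpr (by omega)
    · obtain ⟨rfl, rfl, h⟩ := h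
      exact (WrapC.v1 H.a2 (by omega) (by omega) (by omega) (by omega) (by omega) (by omega) (by omega) (by omega)).mpr (by omega)
    · obtain ⟨rfl, rfl, h⟩ := h
      exact hg' _ _ _ _ (by omega) (by omega) (by omega) (by omega)
  · intro j m p q hr h
    obtain ⟨-, -, -, -, hp1, hp2, hq1, hq2⟩ := hr
    replace h := of_decide_eq_true h
    rcases h with h | h | h
    · obtain ⟨rfl, rfl, h⟩ := h
      exact mt (WrapC.v1 H.a2 (by omega) (by omega) (by omega) (by omega) (by omega) (by omega) (by omega) (by omega)).mp (by omega)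
    · obtain ⟨rfl, rfl, h⟩ := h
      exact H.eo _ _ _ _ (by omega) (by omega) (by omega) (by omega) (by omega) (by omega) (by omega)
    · obtain ⟨rfl, rfl, h⟩ := h
      exact H.eo _ _ _ _ (by omega) (by omega) (by omega) (by omega) (by omega) (by omega) (by omega)

theorem cW2_m1_1_5_chk : check 2 5 4 4 0 0 1 1 0
    (fun j n p q => decide ((j = 2 ∧ n = 3 ∧ (p = 2 ∧ q = 2))))
    (fun j n p q => decide ((j = 2 ∧ n = 1 ∧ (1 ≤ p ∧ p ≤ 2 ∧ 1 ≤ q ∧ q ≤ 2))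
      ∨ (j = 1 ∧ n = 1 ∧ (1 ≤ p ∧ p ≤ 2 ∧ 1 ≤ q ∧ q ≤ 2))
      ∨ (j = 1 ∧ n = 2 ∧ ((p = 1 ∧ q = 2) ∨ (p = 2 ∧ 1 ≤ q ∧ q ≤ 2)))))
    15
    0x6503006d00006d0f006287005d07005c87005b07005a87003d07003c87003b07003507003487003307003287 = true := by
  decide +kernel

theorem cW2_m1_1_5 (hf : Rule f) {k c n M R x y : ℕ} (H : LI f k c n)
    (eM : M = 6 * k + 2) (eR : R + 1 = c) (ex : x = 2 * n + 1) (ey : y + 2 * k = 2 * n + 5) : ¬ f M R x y := by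
  intro hg
  have hk := H.T.hk
  have hc := H.T.hc
  have h4 := H.T.h4
  have hb := H.T.hb
  have hN := H.T.hN2
  have hg' : ∀ M' R' x' y' : ℕ, M' = M → R' = R → x' = x → y' = y → f M' R' x' y' := by
    rintro _ _ _ _ rfl rfl rfl rfl
    exact hg
  clear hg
  obtain ⟨a0, ha0⟩ : ∃ z, z = 6 * k + 0 := ⟨_, rfl⟩
  obtain ⟨b0, hb0⟩ : ∃ z, z + 4 = c := ⟨c - 4, by omega⟩
  obtain ⟨x0, hx0⟩ : ∃ z, z + 1 = 2 * n := ⟨2 * n - 1, by omega⟩
  obtain ⟨y0, hy0⟩ : ∃ z, z + 2 * k = 2 * n + 3 := ⟨2 * n + 3 - 2 * k, by omega⟩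
  refine check_sound hf (a0 := a0) (b0 := b0) (x0 := x0) (y0 := y0) cW2_m1_1_5_chk
    ⟨fun h => absurd h (by decide), fun h => absurd h (by decide), fun h => absurd h (by decide), by omega, by omega,
      by omega, by omega⟩ ?_ ?_
  · intro j m p q hr h
    obtain ⟨-, -, -, -, hp1, hp2, hq1, hq2⟩ := hr
    replace h := of_decide_eq_true h
    obtain ⟨rfl, rfl, h⟩ := h
    exact hg' _ _ _ _ (by omega) (by omega) (by omega) (by omega)
  · intro j m p q hr h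
    obtain ⟨-, -, -, -, hp1, hp2, hq1, hq2⟩ := hr
    replace h := of_decide_eq_true h
    rcases h with h | h | h
    · obtain ⟨rfl, rfl, h⟩ := h
      exact mt (WrapC.v1 H.a2 (by omega) (by omega) (by omega) (by omega) (by omega) (by omega) (by omega) (by omega)).mp (by omega)
    · obtain ⟨rfl, rfl, h⟩ := h
      exact H.eo _ _ _ _ (by omega) (by omega) (by omega) (by omega) (by omega) (by omega) (by omega)
    · obtain ⟨rfl, rfl, h⟩ := h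
      exact H.eo _ _ _ _ (by omega) (by omega) (by omega) (by omega) (by omega) (by omega) (by omega)

theorem cW2_m1_2_5_chk : check 2 5 4 4 0 0 0 1 0
    (fun j n p q => decide ((j = 2 ∧ n = 3 ∧ (p = 2 ∧ q = 2))))
    (fun j n p q => decide ((j = 2 ∧ n = 1 ∧ (1 ≤ p ∧ p ≤ 2 ∧ 1 ≤ q ∧ q ≤ 2))
      ∨ (j = 1 ∧ n = 1 ∧ (1 ≤ p ∧ p ≤ 2 ∧ 1 ≤ q ∧ q ≤ 2))
      ∨ (j = 1 ∧ n = 2 ∧ ((p = 1 ∧ 1 ≤ q ∧ q ≤ 2) ∨ (p = 2 ∧ q = 2)))))
    15
    0x6503006d00006d0f006487005d07005c87005b07005a87003d07003b07003a87003507003487003307003287 = true := by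
  decide +kernel

theorem cW2_m1_2_5 (hf : Rule f) {k c n M R x y : ℕ} (H : LI f k c n)
    (eM : M = 6 * k + 2) (eR : R + 1 = c) (ex : x = 2 * n + 2) (ey : y + 2 * k = 2 * n + 5) : ¬ f M R x y := by
  intro hg
  have hk := H.T.hk
  have hc := H.T.hc
  have h4 := H.T.h4
  have hb := H.T.hb
  have hN := H.T.hN2
  have hg' : ∀ M' R' x' y' : ℕ, M' = M → R' = R → x' = x → y' = y → f M' R' x' y' := by
    rintro _ _ _ _ rfl rfl rfl rfl
    exact hg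
  clear hg
  obtain ⟨a0, ha0⟩ : ∃ z, z = 6 * k + 0 := ⟨_, rfl⟩
  obtain ⟨b0, hb0⟩ : ∃ z, z + 4 = c := ⟨c - 4, by omega⟩
  obtain ⟨x0, hx0⟩ : ∃ z, z = 2 * n + 0 := ⟨_, rfl⟩
  obtain ⟨y0, hy0⟩ : ∃ z, z + 2 * k = 2 * n + 3 := ⟨2 * n + 3 - 2 * k, by omega⟩
  refine check_sound hf (a0 := a0) (b0 := b0) (x0 := x0) (y0 := y0) cW2_m1_2_5_chk
    ⟨fun h => absurd h (by decide), fun h => absurd h (by decide), fun h => absurd h (by decide), by omega, by omega,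
      by omega, by omega⟩ ?_ ?_
  · intro j m p q hr h
    obtain ⟨-, -, -, -, hp1, hp2, hq1, hq2⟩ := hr
    replace h := of_decide_eq_true h
    obtain ⟨rfl, rfl, h⟩ := h
    exact hg' _ _ _ _ (by omega) (by omega) (by omega) (by omega)
  · intro j m p q hr h
    obtain ⟨-, -, -, -, hp1, hp2, hq1, hq2⟩ := hr
    replace h := of_decide_eq_true h
    rcases h with h | h | h
    · obtain ⟨rfl, rfl, h⟩ := h
      exact mt (WrapC.v1 H.a2 (by omega) (by omega) (by omega) (by omega) (by omega) (by omega) (by omega) (by omega)).mp (by omega)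
    · obtain ⟨rfl, rfl, h⟩ := h
      exact H.eo _ _ _ _ (by omega) (by omega) (by omega) (by omega) (by omega) (by omega) (by omega)
    · obtain ⟨rfl, rfl, h⟩ := h
      exact H.eo _ _ _ _ (by omega) (by omega) (by omega) (by omega) (by omega) (by omega) (by omega)

theorem cW2_m1_2_6_chk : check 9 6 7 5 1 0 0 0 0
    (fun j n p q => decide ((j = 7 ∧ n = 2 ∧ (p = 5 ∧ q = 2))
      ∨ (j = 9 ∧ n = 4 ∧ (p = 5 ∧ q = 2))
      ∨ (j = 1 ∧ n = 3 ∧ (p = 2 ∧ q = 2))))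
    (fun j n p q => decide ((j = 7 ∧ n = 3 ∧ ((p = 3 ∧ 1 ≤ q ∧ q ≤ 2) ∨ (4 ≤ p ∧ p ≤ 5 ∧ 1 ≤ q ∧ q ≤ 3)))
      ∨ (j = 6 ∧ n = 3 ∧ ((p = 2 ∧ 1 ≤ q ∧ q ≤ 2) ∨ (p = 3 ∧ 2 ≤ q ∧ q ≤ 3) ∨ (p = 4 ∧ q = 3)))
      ∨ (j = 5 ∧ n = 3 ∧ ((p = 2 ∧ 1 ≤ q ∧ q ≤ 2) ∨ (p = 3 ∧ 2 ≤ q ∧ q ≤ 3) ∨ (p = 4 ∧ q = 3)))
      ∨ (j = 8 ∧ n = 3 ∧ ((p = 3 ∧ 1 ≤ q ∧ q ≤ 2) ∨ (p = 4 ∧ 2 ≤ q ∧ q ≤ 3) ∨ (p = 5 ∧ q = 3)))
      ∨ (j = 6 ∧ n = 4 ∧ ((p = 2 ∧ 1 ≤ q ∧ q ≤ 2) ∨ (p = 3 ∧ 2 ≤ q ∧ q ≤ 3) ∨ (p = 4 ∧ q = 3)))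
      ∨ (j = 8 ∧ n = 4 ∧ ((p = 3 ∧ 1 ≤ q ∧ q ≤ 2) ∨ (p = 4 ∧ 2 ≤ q ∧ q ≤ 3) ∨ (p = 5 ∧ q = 3)))
      ∨ (j = 5 ∧ n = 1 ∧ (3 ≤ p ∧ p ≤ 4 ∧ 1 ≤ q ∧ q ≤ 2))
      ∨ (j = 1 ∧ n = 1 ∧ (1 ≤ p ∧ p ≤ 2 ∧ 1 ≤ q ∧ q ≤ 2))
      ∨ (j = 2 ∧ n = 1 ∧ ((p = 1 ∧ 1 ≤ q ∧ q ≤ 2) ∨ (p = 2 ∧ q = 2)))
      ∨ (j = 4 ∧ n = 1 ∧ ((p = 2 ∧ 1 ≤ q ∧ q ≤ 2) ∨ (p = 3 ∧ q = 2)))
      ∨ (j = 3 ∧ n = 1 ∧ ((p = 2 ∧ 1 ≤ q ∧ q ≤ 2) ∨ (p = 3 ∧ q = 2)))
      ∨ (j = 6 ∧ n = 1 ∧ ((p = 3 ∧ 1 ≤ q ∧ q ≤ 2) ∨ (p = 4 ∧ q = 2)))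
      ∨ (j = 2 ∧ n = 2 ∧ ((p = 1 ∧ 1 ≤ q ∧ q ≤ 2) ∨ (p = 2 ∧ q = 2)))
      ∨ (j = 4 ∧ n = 2 ∧ ((p = 2 ∧ 1 ≤ q ∧ q ≤ 2) ∨ (p = 3 ∧ q = 2)))
      ∨ (j = 6 ∧ n = 2 ∧ ((p = 3 ∧ 1 ≤ q ∧ q ≤ 2) ∨ (p = 4 ∧ q = 2)))
      ∨ (j = 4 ∧ n = 3 ∧ (p = 2 ∧ q = 2))
      ∨ (j = 3 ∧ n = 3 ∧ (p = 2 ∧ q = 2))))
    118
    0x2a40301bd8001cfaa00e90000fb2a039b8302c68002c70a01e08001e10a02c48301de0001de0402c78301e10001e104039c0302c70002c70403990302c40002c40401e103025b80025b8400fa8000fa8402a40301cf0001cf04039b8302b50002b50402a40302b58002b58400fb0301638001638403990302b28002b284040480030f8000a38004048f039c07039987039907039687039607038a87038807038787038507038487033007032187032107032087031f07031e87031e07031c07031b87030f8f02c78702c50702c48702c20702c18702b60702b38702b30702b08702b00702a40702a18702a107029287029007028f87025e07025907024d07024a87024a07024787024707023b0702298702290702270702268701de8701cf8701cd0701cc8701be0701bb8701bb0701758701640701550701528701520700fb0700f88700f80700e98700e70700e68700a38f009207008087008007007e07007d87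 = true := by
  decide +kernel

theorem cW2_m1_2_6 (hf : Rule f) {k c n M R x y : ℕ} (H : LI f k c n)
    (eM : M = 6 * k + 2) (eR : R + 1 = c) (ex : x = 2 * n + 2) (ey : y + 2 * k = 2 * n + 6) : ¬ f M R x y := by
  intro hg
  have hk := H.T.hk
  have hc := H.T.hc
  have h4 := H.T.h4
  have hb := H.T.hb
  have hN := H.T.hN2
  have hg' : ∀ M' R' x' y' : ℕ, M' = M → R' = R → x' = x → y' = y → f M' R' x' y' := by
    rintro _ _ _ _ rfl rfl rfl rfl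
    exact hg
  clear hg
  obtain ⟨a0, ha0⟩ : ∃ z, z = 6 * k + 1 := ⟨_, rfl⟩
  obtain ⟨b0, hb0⟩ : ∃ z, z + 4 = c := ⟨c - 4, by omega⟩
  obtain ⟨x0, hx0⟩ : ∃ z, z = 2 * n + 0 := ⟨_, rfl⟩
  obtain ⟨y0, hy0⟩ : ∃ z, z + 2 * k = 2 * n + 4 := ⟨2 * n + 4 - 2 * k, by omega⟩
  refine check_sound hf (a0 := a0) (b0 := b0) (x0 := x0) (y0 := y0) cW2_m1_2_6_chk
    ⟨fun h => absurd h (by decide), fun h => absurd h (by decide), fun h => absurd h (by decide), by omega, by omega,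
      by omega, by omega⟩ ?_ ?_
  · intro j m p q hr h
    obtain ⟨-, -, -, -, hp1, hp2, hq1, hq2⟩ := hr
    replace h := of_decide_eq_true h
    rcases h with h | h | h
    · obtain ⟨rfl, rfl, h⟩ := h
      exact (NW.w0v H.a8 (by omega) (by omega) (by omega) (by omega) (by omega) (by omega) (by omega)).mpr (by omega)
    · obtain ⟨rfl, rfl, h⟩ := h
      exact (NW.w0v H.a10 (by omega) (by omega) (by omega) (by omega) (by omega) (by omega) (by omega)).mpr (by omega)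
    · obtain ⟨rfl, rfl, h⟩ := h
      exact hg' _ _ _ _ (by omega) (by omega) (by omega) (by omega)
  · intro j m p q hr h
    obtain ⟨-, -, -, -, hp1, hp2, hq1, hq2⟩ := hr
    replace h := of_decide_eq_true h
    rcases h with h | h | h | h | h | h | h | h | h | h | h | h | h | h | h | h | h
    · obtain ⟨rfl, rfl, h⟩ := h
      exact mt (NW.w1v H.a8 (by omega) (by omega) (by omega) (by omega) (by omega) (by omega) (by omega) (by omega)).mp (by omega)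
    · obtain ⟨rfl, rfl, h⟩ := h
      exact NW.rm1i hf H.T (p := 1) (j := 1) (by omega) (by omega) (by omega) (by omega) (by omega) (by omega) (by omega)
    · obtain ⟨rfl, rfl, h⟩ := h
      exact NW.rm1i hf H.T (p := 0) (j := 1) (by omega) (by omega) (by omega) (by omega) (by omega) (by omega) (by omega)
    · obtain ⟨rfl, rfl, h⟩ := h
      exact NW.rm1i hf H.T (p := 1) (j := 0) (by omega) (by omega) (by omega) (by omega) (by omega) (by omega) (by omega)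
    · obtain ⟨rfl, rfl, h⟩ := h
      exact NHT.p0i hf H.T (j := 1) (by omega) (by omega) (by omega) (by omega) (by omega) (by omega)
    · obtain ⟨rfl, rfl, h⟩ := h
      exact NHT.p0i hf H.T (j := 0) (by omega) (by omega) (by omega) (by omega) (by omega) (by omega)
    · obtain ⟨rfl, rfl, h⟩ := h
      exact mt (WrapC.v1 H.a6 (by omega) (by omega) (by omega) (by omega) (by omega) (by omega) (by omega) (by omega)).mp (by omega)
    · obtain ⟨rfl, rfl, h⟩ := h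
      exact mt (WrapC.v1 H.a2 (by omega) (by omega) (by omega) (by omega) (by omega) (by omega) (by omega) (by omega)).mp (by omega)
    · obtain ⟨rfl, rfl, h⟩ := h
      exact NHT.rIn hf H.T (t := 3) (p := 1) (j := 2) (by omega) (by omega) (by omega) (by omega) (by omega) (by omega) (by omega) (by omega)
    · obtain ⟨rfl, rfl, h⟩ := h
      exact NHT.rIn hf H.T (t := 3) (p := 1) (j := 1) (by omega) (by omega) (by omega) (by omega) (by omega) (by omega) (by omega) (by omega)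
    · obtain ⟨rfl, rfl, h⟩ := h
      exact NHT.rIn hf H.T (t := 3) (p := 0) (j := 1) (by omega) (by omega) (by omega) (by omega) (by omega) (by omega) (by omega) (by omega)
    · obtain ⟨rfl, rfl, h⟩ := h
      exact NHT.rIn hf H.T (t := 3) (p := 1) (j := 0) (by omega) (by omega) (by omega) (by omega) (by omega) (by omega) (by omega) (by omega)
    · obtain ⟨rfl, rfl, h⟩ := h
      exact NHT.pmi hf H.T (j := 2) (by omega) (by omega) (by omega) (by omega) (by omega) (by omega)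
    · obtain ⟨rfl, rfl, h⟩ := h
      exact NHT.pmi hf H.T (j := 1) (by omega) (by omega) (by omega) (by omega) (by omega) (by omega)
    · obtain ⟨rfl, rfl, h⟩ := h
      exact NHT.pmi hf H.T (j := 0) (by omega) (by omega) (by omega) (by omega) (by omega) (by omega)
    · obtain ⟨rfl, rfl, h⟩ := h
      exact NW.rm1i hf H.T (p := 1) (j := 2) (by omega) (by omega) (by omega) (by omega) (by omega) (by omega) (by omega)
    · obtain ⟨rfl, rfl, h⟩ := h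
      exact NW.rm1i hf H.T (p := 0) (j := 2) (by omega) (by omega) (by omega) (by omega) (by omega) (by omega) (by omega)

theorem cW3_m1_m1_3_chk : check 4 5 5 5 1 0 1 1 0
    (fun j n p q => decide ((j = 2 ∧ n = 3 ∧ (p = 2 ∧ q = 2))))
    (fun j n p q => decide ((j = 4 ∧ n = 1 ∧ ((p = 1 ∧ 1 ≤ q ∧ q ≤ 2) ∨ (p = 2 ∧ 1 ≤ q ∧ q ≤ 3) ∨ (p = 3 ∧ 2 ≤ q ∧ q ≤ 3)))
      ∨ (j = 3 ∧ n = 1 ∧ ((p = 1 ∧ 1 ≤ q ∧ q ≤ 2) ∨ (p = 2 ∧ 1 ≤ q ∧ q ≤ 3) ∨ (p = 3 ∧ 2 ≤ q ∧ q ≤ 3)))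
      ∨ (j = 4 ∧ n = 2 ∧ ((p = 1 ∧ 1 ≤ q ∧ q ≤ 2) ∨ (p = 2 ∧ 1 ≤ q ∧ q ≤ 3) ∨ (p = 3 ∧ 2 ≤ q ∧ q ≤ 3)))
      ∨ (j = 1 ∧ n = 1 ∧ (1 ≤ p ∧ p ≤ 2 ∧ 1 ≤ q ∧ q ≤ 2))
      ∨ (j = 2 ∧ n = 1 ∧ ((p = 1 ∧ 1 ≤ q ∧ q ≤ 2) ∨ (p = 2 ∧ q = 2)))
      ∨ (j = 2 ∧ n = 2 ∧ ((p = 1 ∧ 1 ≤ q ∧ q ≤ 2) ∨ (p = 2 ∧ q = 2)))))
    42
    0xdb0500d800011c52011952008f00009c2a00a880011c07011b87011987011907011887011687011607010f87010f07010d07010c87010c07010a0701098700dd8700d78700d10700d08700ce8700ce0700cd8700cb8700cb0700a88f009c07009987009907008f87008d07008c87005a87005107005087004e87004e07 = true := by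
  decide +kernel

theorem cW3_m1_m1_3 (hf : Rule f) {k c n M R x y : ℕ} (H : LI f k c n)
    (eM : M = 6 * k + 3) (eR : R + 1 = c) (ex : x + 1 = 2 * n) (ey : y + 2 * k = 2 * n + 3) : ¬ f M R x y := by
  intro hg
  have hk := H.T.hk
  have hc := H.T.hc
  have h4 := H.T.h4
  have hb := H.T.hb
  have hN := H.T.hN2
  have hg' : ∀ M' R' x' y' : ℕ, M' = M → R' = R → x' = x → y' = y → f M' R' x' y' := by
    rintro _ _ _ _ rfl rfl rfl rfl
    exact hg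
  clear hg
  obtain ⟨a0, ha0⟩ : ∃ z, z = 6 * k + 1 := ⟨_, rfl⟩
  obtain ⟨b0, hb0⟩ : ∃ z, z + 4 = c := ⟨c - 4, by omega⟩
  obtain ⟨x0, hx0⟩ : ∃ z, z + 3 = 2 * n := ⟨2 * n - 3, by omega⟩
  obtain ⟨y0, hy0⟩ : ∃ z, z + 2 * k = 2 * n + 1 := ⟨2 * n + 1 - 2 * k, by omega⟩
  refine check_sound hf (a0 := a0) (b0 := b0) (x0 := x0) (y0 := y0) cW3_m1_m1_3_chk
    ⟨fun h => absurd h (by decide), fun h => absurd h (by decide), fun h => absurd h (by decide), by omega, by omega,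
      by omega, by omega⟩ ?_ ?_
  · intro j m p q hr h
    obtain ⟨-, -, -, -, hp1, hp2, hq1, hq2⟩ := hr
    replace h := of_decide_eq_true h
    obtain ⟨rfl, rfl, h⟩ := h
    exact hg' _ _ _ _ (by omega) (by omega) (by omega) (by omega)
  · intro j m p q hr h
    obtain ⟨-, -, -, -, hp1, hp2, hq1, hq2⟩ := hr
    replace h := of_decide_eq_true h
    rcases h with h | h | h | h | h | h
    · obtain ⟨rfl, rfl, h⟩ := h
      exact NHT.rIn hf H.T (t := 3) (p := 1) (j := 1) (by omega) (by omega) (by omega) (by omega) (by omega) (by omega) (by omega) (by omega)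
    · obtain ⟨rfl, rfl, h⟩ := h
      exact NHT.rIn hf H.T (t := 3) (p := 0) (j := 1) (by omega) (by omega) (by omega) (by omega) (by omega) (by omega) (by omega) (by omega)
    · obtain ⟨rfl, rfl, h⟩ := h
      exact NHT.pmi hf H.T (j := 1) (by omega) (by omega) (by omega) (by omega) (by omega) (by omega)
    · obtain ⟨rfl, rfl, h⟩ := h
      exact mt (WrapC.v1 H.a2 (by omega) (by omega) (by omega) (by omega) (by omega) (by omega) (by omega) (by omega)).mp (by omega)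
    · obtain ⟨rfl, rfl, h⟩ := h
      exact NHT.rIn hf H.T (t := 3) (p := 1) (j := 2) (by omega) (by omega) (by omega) (by omega) (by omega) (by omega) (by omega) (by omega)
    · obtain ⟨rfl, rfl, h⟩ := h
      exact NHT.pmi hf H.T (j := 2) (by omega) (by omega) (by omega) (by omega) (by omega) (by omega)

theorem cW3_m1_0_3_chk : check 7 5 7 5 1 0 0 1 0
    (fun j n p q => decide ((j = 7 ∧ n = 2 ∧ ((p = 3 ∧ q = 1) ∨ (p = 5 ∧ ((q = 1) ∨ (q = 3)))))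
      ∨ (j = 2 ∧ n = 3 ∧ (p = 2 ∧ q = 2))))
    (fun j n p q => decide ((j = 5 ∧ n = 1 ∧ ((p = 2 ∧ 1 ≤ q ∧ q ≤ 2) ∨ (3 ≤ p ∧ p ≤ 4 ∧ 1 ≤ q ∧ q ≤ 3)))
      ∨ (j = 4 ∧ n = 1 ∧ ((p = 1 ∧ 1 ≤ q ∧ q ≤ 2) ∨ (p = 2 ∧ 2 ≤ q ∧ q ≤ 3) ∨ (p = 3 ∧ q = 3)))
      ∨ (j = 3 ∧ n = 1 ∧ ((p = 1 ∧ 1 ≤ q ∧ q ≤ 2) ∨ (p = 2 ∧ 2 ≤ q ∧ q ≤ 3) ∨ (p = 3 ∧ q = 3)))
      ∨ (j = 6 ∧ n = 1 ∧ ((p = 2 ∧ 1 ≤ q ∧ q ≤ 2) ∨ (p = 3 ∧ 2 ≤ q ∧ q ≤ 3) ∨ (p = 4 ∧ q = 3)))
      ∨ (j = 4 ∧ n = 2 ∧ ((p = 1 ∧ 1 ≤ q ∧ q ≤ 2) ∨ (p = 2 ∧ 2 ≤ q ∧ q ≤ 3) ∨ (p = 3 ∧ q = 3)))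
      ∨ (j = 6 ∧ n = 2 ∧ ((p = 2 ∧ 1 ≤ q ∧ q ≤ 2) ∨ (p = 3 ∧ 2 ≤ q ∧ q ≤ 3) ∨ (p = 4 ∧ q = 3)))
      ∨ (j = 1 ∧ n = 1 ∧ (1 ≤ p ∧ p ≤ 2 ∧ 1 ≤ q ∧ q ≤ 2))
      ∨ (j = 2 ∧ n = 1 ∧ (p = 1 ∧ q = 2))
      ∨ (j = 2 ∧ n = 2 ∧ (p = 1 ∧ q = 2))))
    84
    0x23b83018980018a0a00c68000d822023b0301890001898a023b03017780017784023b8301898001898400c60000c60401870300c38000c384023883018680018684023b8301780001780400d803012f80012f84023883017500017504029580029480028f8000e98002958f02948f028f8f023b87023907023887023607023587022a0702278702270702248702240701e40701e30701de0701d28701d20701d18701d00701cf8701cf0701cd0701cc87018a07018787018707018487018407017887017607017587017307017287013007012f07012107011e87011e07011b87011b0700e98f00d58700c407008007006f07006e87006c87006c07 = true := by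
  decide +kernel

theorem cW3_m1_0_3 (hf : Rule f) {k c n M R x y : ℕ} (H : LI f k c n)
    (eM : M = 6 * k + 3) (eR : R + 1 = c) (ex : x = 2 * n) (ey : y + 2 * k = 2 * n + 3) : ¬ f M R x y := by
  intro hg
  have hk := H.T.hk
  have hc := H.T.hc
  have h4 := H.T.h4
  have hb := H.T.hb
  have hN := H.T.hN2
  have hg' : ∀ M' R' x' y' : ℕ, M' = M → R' = R → x' = x → y' = y → f M' R' x' y' := by
    rintro _ _ _ _ rfl rfl rfl rfl
    exact hg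
  clear hg
  obtain ⟨a0, ha0⟩ : ∃ z, z = 6 * k + 1 := ⟨_, rfl⟩
  obtain ⟨b0, hb0⟩ : ∃ z, z + 4 = c := ⟨c - 4, by omega⟩
  obtain ⟨x0, hx0⟩ : ∃ z, z + 2 = 2 * n := ⟨2 * n - 2, by omega⟩
  obtain ⟨y0, hy0⟩ : ∃ z, z + 2 * k = 2 * n + 1 := ⟨2 * n + 1 - 2 * k, by omega⟩
  refine check_sound hf (a0 := a0) (b0 := b0) (x0 := x0) (y0 := y0) cW3_m1_0_3_chk
    ⟨fun h => absurd h (by decide), fun h => absurd h (by decide), fun h => absurd h (by decide), by omega, by omega,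
      by omega, by omega⟩ ?_ ?_
  · intro j m p q hr h
    obtain ⟨-, -, -, -, hp1, hp2, hq1, hq2⟩ := hr
    replace h := of_decide_eq_true h
    rcases h with h | h
    · obtain ⟨rfl, rfl, h⟩ := h
      exact (NW.w0v H.a8 (by omega) (by omega) (by omega) (by omega) (by omega) (by omega) (by omega)).mpr (by omega)
    · obtain ⟨rfl, rfl, h⟩ := h
      exact hg' _ _ _ _ (by omega) (by omega) (by omega) (by omega)
  · intro j m p q hr h
    obtain ⟨-, -, -, -, hp1, hp2, hq1, hq2⟩ := hr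
    replace h := of_decide_eq_true h
    rcases h with h | h | h | h | h | h | h | h | h
    · obtain ⟨rfl, rfl, h⟩ := h
      exact mt (WrapC.v1 H.a6 (by omega) (by omega) (by omega) (by omega) (by omega) (by omega) (by omega) (by omega)).mp (by omega)
    · obtain ⟨rfl, rfl, h⟩ := h
      exact NHT.rIn hf H.T (t := 3) (p := 1) (j := 1) (by omega) (by omega) (by omega) (by omega) (by omega) (by omega) (by omega) (by omega)
    · obtain ⟨rfl, rfl, h⟩ := h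
      exact NHT.rIn hf H.T (t := 3) (p := 0) (j := 1) (by omega) (by omega) (by omega) (by omega) (by omega) (by omega) (by omega) (by omega)
    · obtain ⟨rfl, rfl, h⟩ := h
      exact NHT.rIn hf H.T (t := 3) (p := 1) (j := 0) (by omega) (by omega) (by omega) (by omega) (by omega) (by omega) (by omega) (by omega)
    · obtain ⟨rfl, rfl, h⟩ := h
      exact NHT.pmi hf H.T (j := 1) (by omega) (by omega) (by omega) (by omega) (by omega) (by omega)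
    · obtain ⟨rfl, rfl, h⟩ := h
      exact NHT.pmi hf H.T (j := 0) (by omega) (by omega) (by omega) (by omega) (by omega) (by omega)
    · obtain ⟨rfl, rfl, h⟩ := h
      exact mt (WrapC.v1 H.a2 (by omega) (by omega) (by omega) (by omega) (by omega) (by omega) (by omega) (by omega)).mp (by omega)
    · obtain ⟨rfl, rfl, h⟩ := h
      exact NHT.rIn hf H.T (t := 3) (p := 1) (j := 2) (by omega) (by omega) (by omega) (by omega) (by omega) (by omega) (by omega) (by omega)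
    · obtain ⟨rfl, rfl, h⟩ := h
      exact NHT.pmi hf H.T (j := 2) (by omega) (by omega) (by omega) (by omega) (by omega) (by omega)

end Pool.Agent.SNT.LRI
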