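import Pool.Agent.SNT.LRD

set_option autoImplicit false
set_option linter.unusedVariables false
set_option synthInstance.maxSize 100000
set_option synthInstance.maxHeartbeats 4000000

/-! Local certificates of the location of the top leader (5). -/

namespace Pool.Agent.SNT.LRI

open Pool.Agent.SNT Pool.Agent.SNT.Loc Pool.Agent.SNT.LW Pool.Agent.SNT.NHZ

variable {f : ℕ → ℕ → ℕ → ℕ → Prop}

theorem cW3_m1_0_4_chk : check 3 5 5 5 0 0 0 0 0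
    (fun j n p q => decide ((j = 3 ∧ n = 3 ∧ (p = 2 ∧ q = 2))))
    (fun j n p q => decide ((j = 2 ∧ n = 1 ∧ ((p = 1 ∧ 1 ≤ q ∧ q ≤ 2) ∨ (p = 2 ∧ 1 ≤ q ∧ q ≤ 3) ∨ (p = 3 ∧ 2 ≤ q ∧ q ≤ 3)))
      ∨ (j = 3 ∧ n = 1 ∧ ((p = 1 ∧ 1 ≤ q ∧ q ≤ 2) ∨ (p = 2 ∧ 2 ≤ q ∧ q ≤ 3) ∨ (p = 3 ∧ q = 3)))
      ∨ (j = 3 ∧ n = 2 ∧ ((p = 1 ∧ 1 ≤ q ∧ q ≤ 2) ∨ (p = 2 ∧ 2 ≤ q ∧ q ≤ 3) ∨ (p = 3 ∧ q = 3)))
      ∨ (j = 1 ∧ n = 3 ∧ (1 ≤ p ∧ p ≤ 2 ∧ 1 ≤ q ∧ q ≤ 2))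
      ∨ (j = 1 ∧ n = 2 ∧ ((p = 1 ∧ 1 ≤ q ∧ q ≤ 2) ∨ (p = 2 ∧ q = 1)))
      ∨ (j = 2 ∧ n = 3 ∧ (p = 1 ∧ q = 2))))
    33
    0xdd83005d8000cd8000a8e200daaa00e70000e70f00dd8700db0700da8700d80700d78700d10700ce8700ce0700cb8700cb0700a607009c07009287009207009007008f87008f07008d07008c87006a07006987006787006707005d07005b07005a87 = true := by
  decide +kernel

theorem cW3_m1_0_4 (hf : Rule f) {k c n M R x y : ℕ} (H : LI f k c n)
    (eM : M = 6 * k + 3) (eR : R + 1 = c) (ex : x = 2 * n) (ey : y + 2 * k = 2 * n + 4) : ¬ f M R x y := by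
  intro hg
  have hk := H.T.hk
  have hc := H.T.hc
  have h4 := H.T.h4
  have hb := H.T.hb
  have hN := H.T.hN2
  have hg' : ∀ M' R' x' y' : ℕ, M' = M → R' = R → x' = x → y' = y → f M' R' x' y' := by
    rintro _ _ _ _ rfl rfl rfl rfl
    exact hg
  clear hg
  obtain ⟨a0, ha0⟩ : ∃ z, z = 6 * k + 0 := ⟨_, rfl⟩
  obtain ⟨b0, hb0⟩ : ∃ z, z + 4 = c := ⟨c - 4, by omega⟩
  obtain ⟨x0, hx0⟩ : ∃ z, z + 2 = 2 * n := ⟨2 * n - 2, by omega⟩
  obtain ⟨y0, hy0⟩ : ∃ z, z + 2 * k = 2 * n + 2 := ⟨2 * n + 2 - 2 * k, by omega⟩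
  refine check_sound hf (a0 := a0) (b0 := b0) (x0 := x0) (y0 := y0) cW3_m1_0_4_chk
    ⟨fun h => absurd h (by decide), fun h => absurd h (by decide), fun h => absurd h (by decide), by omega, by omega,
      by omega, by omega⟩ ?_ ?_
  · intro j m p q hr h
    obtain ⟨-, -, -, -, hp1, hp2, hq1, hq2⟩ := hr
    replace h := of_decide_eq_true h
    obtain ⟨rfl, rfl, h⟩ := h
    exact hg' _ _ _ _ (by omega) (by omega) (by omega) (by omega)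
  · intro j m p q hr h
    obtain ⟨-, -, -, -, hp1, hp2, hq1, hq2⟩ := hr
    replace h := of_decide_eq_true h
    rcases h with h | h | h | h | h | h
    · obtain ⟨rfl, rfl, h⟩ := h
      exact mt (WrapC.v1 H.a2 (by omega) (by omega) (by omega) (by omega) (by omega) (by omega) (by omega) (by omega)).mp (by omega)
    · obtain ⟨rfl, rfl, h⟩ := h
      exact NHT.rIn hf H.T (t := 3) (p := 1) (j := 2) (by omega) (by omega) (by omega) (by omega) (by omega) (by omega) (by omega) (by omega)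
    · obtain ⟨rfl, rfl, h⟩ := h
      exact NHT.pmi hf H.T (j := 2) (by omega) (by omega) (by omega) (by omega) (by omega) (by omega)
    · obtain ⟨rfl, rfl, h⟩ := h
      exact H.eo _ _ _ _ (by omega) (by omega) (by omega) (by omega) (by omega) (by omega) (by omega)
    · obtain ⟨rfl, rfl, h⟩ := h
      exact H.eo _ _ _ _ (by omega) (by omega) (by omega) (by omega) (by omega) (by omega) (by omega)
    · obtain ⟨rfl, rfl, h⟩ := h
      exact NW.rm1i hf H.T (p := 0) (j := 3) (by omega) (by omega) (by omega) (by omega) (by omega) (by omega) (by omega)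

theorem cW3_m1_1_4_chk : check 5 5 5 6 0 0 1 0 0
    (fun j n p q => decide ((j = 3 ∧ n = 3 ∧ (p = 2 ∧ q = 2))))
    (fun j n p q => decide ((j = 2 ∧ n = 1 ∧ (1 ≤ p ∧ p ≤ 2 ∧ 2 ≤ q ∧ q ≤ 4))
      ∨ (j = 1 ∧ n = 2 ∧ ((p = 1 ∧ ((q = 1) ∨ (q = 3))) ∨ (p = 2 ∧ 1 ≤ q ∧ q ≤ 4)))
      ∨ (j = 3 ∧ n = 2 ∧ ((p = 1 ∧ 2 ≤ q ∧ q ≤ 3) ∨ (p = 2 ∧ 3 ≤ q ∧ q ≤ 4) ∨ (p = 3 ∧ q = 4)))
      ∨ (j = 5 ∧ n = 1 ∧ (1 ≤ p ∧ p ≤ 2 ∧ 2 ≤ q ∧ q ≤ 3))
      ∨ (j = 4 ∧ n = 1 ∧ (1 ≤ p ∧ p ≤ 2 ∧ 2 ≤ q ∧ q ≤ 3))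
      ∨ (j = 5 ∧ n = 2 ∧ (1 ≤ p ∧ p ≤ 2 ∧ 2 ≤ q ∧ q ≤ 3))
      ∨ (j = 1 ∧ n = 1 ∧ (1 ≤ p ∧ p ≤ 2 ∧ 3 ≤ q ∧ q ≤ 4))
      ∨ (j = 1 ∧ n = 3 ∧ (1 ≤ p ∧ p ≤ 2 ∧ 1 ≤ q ∧ q ≤ 2))
      ∨ (j = 4 ∧ n = 3 ∧ ((p = 2 ∧ 3 ≤ q ∧ q ≤ 4) ∨ (p = 3 ∧ q = 4)))
      ∨ (j = 3 ∧ n = 1 ∧ ((p = 1 ∧ 2 ≤ q ∧ q ≤ 3) ∨ (p = 2 ∧ q = 3)))
      ∨ (j = 3 ∧ n = 3 ∧ (p = 2 ∧ q = 4))
      ∨ (j = 1 ∧ n = 2 ∧ (p = 1 ∧ q = 4))))
    61
    0x14e85015200019cd201643200f70000bc000106aa00bc01006d0000ca72011500019c87019c07019987019907018d87018d07018a87018a07016407016107016087015507014e07014287014207013f87013f0701160701150f010a0701070701068701038701030700f78700f48700f40700b90700b80700ad0700ac8700ac0700aa0700a98700a907007f07007e87007c07007b87007107007087007007006f87006e07006d87006c87006207006187005f07005e87 = true := by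
  decide +kernel

theorem cW3_m1_1_4 (hf : Rule f) {k c n M R x y : ℕ} (H : LI f k c n)
    (eM : M = 6 * k + 3) (eR : R + 1 = c) (ex : x = 2 * n + 1) (ey : y + 2 * k = 2 * n + 4) : ¬ f M R x y := by
  intro hg
  have hk := H.T.hk
  have hc := H.T.hc
  have h4 := H.T.h4
  have hb := H.T.hb
  have hN := H.T.hN2
  have hg' : ∀ M' R' x' y' : ℕ, M' = M → R' = R → x' = x → y' = y → f M' R' x' y' := by
    rintro _ _ _ _ rfl rfl rfl rfl
    exact hg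
  clear hg
  obtain ⟨a0, ha0⟩ : ∃ z, z = 6 * k + 0 := ⟨_, rfl⟩
  obtain ⟨b0, hb0⟩ : ∃ z, z + 4 = c := ⟨c - 4, by omega⟩
  obtain ⟨x0, hx0⟩ : ∃ z, z + 1 = 2 * n := ⟨2 * n - 1, by omega⟩
  obtain ⟨y0, hy0⟩ : ∃ z, z + 2 * k = 2 * n + 2 := ⟨2 * n + 2 - 2 * k, by omega⟩
  refine check_sound hf (a0 := a0) (b0 := b0) (x0 := x0) (y0 := y0) cW3_m1_1_4_chk
    ⟨fun h => absurd h (by decide), fun h => absurd h (by decide), fun h => absurd h (by decide), by omega, by omega,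
      by omega, by omega⟩ ?_ ?_
  · intro j m p q hr h
    obtain ⟨-, -, -, -, hp1, hp2, hq1, hq2⟩ := hr
    replace h := of_decide_eq_true h
    obtain ⟨rfl, rfl, h⟩ := h
    exact hg' _ _ _ _ (by omega) (by omega) (by omega) (by omega)
  · intro j m p q hr h
    obtain ⟨-, -, -, -, hp1, hp2, hq1, hq2⟩ := hr
    replace h := of_decide_eq_true h
    rcases h with h | h | h | h | h | h | h | h | h | h | h | h
    · obtain ⟨rfl, rfl, h⟩ := h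
      exact mt (WrapC.v1 H.a2 (by omega) (by omega) (by omega) (by omega) (by omega) (by omega) (by omega) (by omega)).mp (by omega)
    · obtain ⟨rfl, rfl, h⟩ := h
      exact H.eo _ _ _ _ (by omega) (by omega) (by omega) (by omega) (by omega) (by omega) (by omega)
    · obtain ⟨rfl, rfl, h⟩ := h
      exact NHT.pmi hf H.T (j := 2) (by omega) (by omega) (by omega) (by omega) (by omega) (by omega)
    · obtain ⟨rfl, rfl, h⟩ := h
      exact NHT.rIn hf H.T (t := 3) (p := 1) (j := 1) (by omega) (by omega) (by omega) (by omega) (by omega) (by omega) (by omega) (by omega)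
    · obtain ⟨rfl, rfl, h⟩ := h
      exact NHT.rIn hf H.T (t := 3) (p := 0) (j := 1) (by omega) (by omega) (by omega) (by omega) (by omega) (by omega) (by omega) (by omega)
    · obtain ⟨rfl, rfl, h⟩ := h
      exact NHT.pmi hf H.T (j := 1) (by omega) (by omega) (by omega) (by omega) (by omega) (by omega)
    · obtain ⟨rfl, rfl, h⟩ := h
      exact H.eo _ _ _ _ (by omega) (by omega) (by omega) (by omega) (by omega) (by omega) (by omega)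
    · obtain ⟨rfl, rfl, h⟩ := h
      exact H.eo _ _ _ _ (by omega) (by omega) (by omega) (by omega) (by omega) (by omega) (by omega)
    · obtain ⟨rfl, rfl, h⟩ := h
      exact NW.rm1i hf H.T (p := 0) (j := 2) (by omega) (by omega) (by omega) (by omega) (by omega) (by omega) (by omega)
    · obtain ⟨rfl, rfl, h⟩ := h
      exact NHT.rIn hf H.T (t := 3) (p := 1) (j := 2) (by omega) (by omega) (by omega) (by omega) (by omega) (by omega) (by omega) (by omega)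
    · obtain ⟨rfl, rfl, h⟩ := h
      exact NW.rm1i hf H.T (p := 1) (j := 3) (by omega) (by omega) (by omega) (by omega) (by omega) (by omega) (by omega)
    · obtain ⟨rfl, rfl, h⟩ := h
      exact NHT.pmi hf H.T (j := 3) (by omega) (by omega) (by omega) (by omega) (by omega) (by omega)

theorem cW3_m1_1_5_chk : check 4 5 5 5 1 0 1 1 0
    (fun j n p q => decide ((j = 2 ∧ n = 3 ∧ (p = 2 ∧ q = 2))))
    (fun j n p q => decide ((j = 4 ∧ n = 1 ∧ ((p = 1 ∧ 1 ≤ q ∧ q ≤ 2) ∨ (p = 2 ∧ 1 ≤ q ∧ q ≤ 3) ∨ (p = 3 ∧ 2 ≤ q ∧ q ≤ 3)))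
      ∨ (j = 3 ∧ n = 1 ∧ ((p = 1 ∧ 1 ≤ q ∧ q ≤ 2) ∨ (p = 2 ∧ 1 ≤ q ∧ q ≤ 3) ∨ (p = 3 ∧ 2 ≤ q ∧ q ≤ 3)))
      ∨ (j = 4 ∧ n = 2 ∧ ((p = 1 ∧ 1 ≤ q ∧ q ≤ 2) ∨ (p = 2 ∧ 1 ≤ q ∧ q ≤ 3) ∨ (p = 3 ∧ 2 ≤ q ∧ q ≤ 3)))
      ∨ (j = 1 ∧ n = 1 ∧ (1 ≤ p ∧ p ≤ 2 ∧ 1 ≤ q ∧ q ≤ 2))
      ∨ (j = 2 ∧ n = 1 ∧ ((p = 1 ∧ 1 ≤ q ∧ q ≤ 2) ∨ (p = 2 ∧ q = 2)))
      ∨ (j = 2 ∧ n = 2 ∧ ((p = 1 ∧ 1 ≤ q ∧ q ≤ 2) ∨ (p = 2 ∧ q = 2)))))
    42
    0xdb0500d800011c52011952008f00009c2a00a880011c07011b87011987011907011887011687011607010f87010f07010d07010c87010c07010a0701098700dd8700d78700d10700d08700ce8700ce0700cd8700cb8700cb0700a88f009c07009987009907008f87008d07008c87005a87005107005087004e87004e07 = true := by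
  decide +kernel

theorem cW3_m1_1_5 (hf : Rule f) {k c n M R x y : ℕ} (H : LI f k c n)
    (eM : M = 6 * k + 3) (eR : R + 1 = c) (ex : x = 2 * n + 1) (ey : y + 2 * k = 2 * n + 5) : ¬ f M R x y := by
  intro hg
  have hk := H.T.hk
  have hc := H.T.hc
  have h4 := H.T.h4
  have hb := H.T.hb
  have hN := H.T.hN2
  have hg' : ∀ M' R' x' y' : ℕ, M' = M → R' = R → x' = x → y' = y → f M' R' x' y' := by
    rintro _ _ _ _ rfl rfl rfl rfl
    exact hg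
  clear hg
  obtain ⟨a0, ha0⟩ : ∃ z, z = 6 * k + 1 := ⟨_, rfl⟩
  obtain ⟨b0, hb0⟩ : ∃ z, z + 4 = c := ⟨c - 4, by omega⟩
  obtain ⟨x0, hx0⟩ : ∃ z, z + 1 = 2 * n := ⟨2 * n - 1, by omega⟩
  obtain ⟨y0, hy0⟩ : ∃ z, z + 2 * k = 2 * n + 3 := ⟨2 * n + 3 - 2 * k, by omega⟩
  refine check_sound hf (a0 := a0) (b0 := b0) (x0 := x0) (y0 := y0) cW3_m1_1_5_chk
    ⟨fun h => absurd h (by decide), fun h => absurd h (by decide), fun h => absurd h (by decide), by omega, by omega,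
      by omega, by omega⟩ ?_ ?_
  · intro j m p q hr h
    obtain ⟨-, -, -, -, hp1, hp2, hq1, hq2⟩ := hr
    replace h := of_decide_eq_true h
    obtain ⟨rfl, rfl, h⟩ := h
    exact hg' _ _ _ _ (by omega) (by omega) (by omega) (by omega)
  · intro j m p q hr h
    obtain ⟨-, -, -, -, hp1, hp2, hq1, hq2⟩ := hr
    replace h := of_decide_eq_true h
    rcases h with h | h | h | h | h | h
    · obtain ⟨rfl, rfl, h⟩ := h
      exact NHT.rIn hf H.T (t := 3) (p := 1) (j := 1) (by omega) (by omega) (by omega) (by omega) (by omega) (by omega) (by omega) (by omega)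
    · obtain ⟨rfl, rfl, h⟩ := h
      exact NHT.rIn hf H.T (t := 3) (p := 0) (j := 1) (by omega) (by omega) (by omega) (by omega) (by omega) (by omega) (by omega) (by omega)
    · obtain ⟨rfl, rfl, h⟩ := h
      exact NHT.pmi hf H.T (j := 1) (by omega) (by omega) (by omega) (by omega) (by omega) (by omega)
    · obtain ⟨rfl, rfl, h⟩ := h
      exact mt (WrapC.v1 H.a2 (by omega) (by omega) (by omega) (by omega) (by omega) (by omega) (by omega) (by omega)).mp (by omega)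
    · obtain ⟨rfl, rfl, h⟩ := h
      exact NHT.rIn hf H.T (t := 3) (p := 1) (j := 2) (by omega) (by omega) (by omega) (by omega) (by omega) (by omega) (by omega) (by omega)
    · obtain ⟨rfl, rfl, h⟩ := h
      exact NHT.pmi hf H.T (j := 2) (by omega) (by omega) (by omega) (by omega) (by omega) (by omega)

theorem cW3_m1_2_5_chk : check 7 5 7 5 1 0 0 1 0
    (fun j n p q => decide ((j = 7 ∧ n = 2 ∧ ((p = 3 ∧ q = 1) ∨ (p = 5 ∧ ((q = 1) ∨ (q = 3)))))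
      ∨ (j = 2 ∧ n = 3 ∧ (p = 2 ∧ q = 2))))
    (fun j n p q => decide ((j = 5 ∧ n = 1 ∧ ((p = 2 ∧ 1 ≤ q ∧ q ≤ 2) ∨ (3 ≤ p ∧ p ≤ 4 ∧ 1 ≤ q ∧ q ≤ 3)))
      ∨ (j = 4 ∧ n = 1 ∧ ((p = 1 ∧ 1 ≤ q ∧ q ≤ 2) ∨ (p = 2 ∧ 2 ≤ q ∧ q ≤ 3) ∨ (p = 3 ∧ q = 3)))
      ∨ (j = 3 ∧ n = 1 ∧ ((p = 1 ∧ 1 ≤ q ∧ q ≤ 2) ∨ (p = 2 ∧ 2 ≤ q ∧ q ≤ 3) ∨ (p = 3 ∧ q = 3)))
      ∨ (j = 6 ∧ n = 1 ∧ ((p = 2 ∧ 1 ≤ q ∧ q ≤ 2) ∨ (p = 3 ∧ 2 ≤ q ∧ q ≤ 3) ∨ (p = 4 ∧ q = 3)))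
      ∨ (j = 4 ∧ n = 2 ∧ ((p = 1 ∧ 1 ≤ q ∧ q ≤ 2) ∨ (p = 2 ∧ 2 ≤ q ∧ q ≤ 3) ∨ (p = 3 ∧ q = 3)))
      ∨ (j = 6 ∧ n = 2 ∧ ((p = 2 ∧ 1 ≤ q ∧ q ≤ 2) ∨ (p = 3 ∧ 2 ≤ q ∧ q ≤ 3) ∨ (p = 4 ∧ q = 3)))
      ∨ (j = 1 ∧ n = 1 ∧ (1 ≤ p ∧ p ≤ 2 ∧ 1 ≤ q ∧ q ≤ 2))
      ∨ (j = 2 ∧ n = 1 ∧ (p = 1 ∧ q = 2))
      ∨ (j = 2 ∧ n = 2 ∧ (p = 1 ∧ q = 2))))
    84
    0x23b83018980018a0a00c68000d822023b0301890001898a023b03017780017784023b8301898001898400c60000c60401870300c38000c384023883018680018684023b8301780001780400d803012f80012f84023883017500017504029580029480028f8000e98002958f02948f028f8f023b87023907023887023607023587022a0702278702270702248702240701e40701e30701de0701d28701d20701d18701d00701cf8701cf0701cd0701cc87018a07018787018707018487018407017887017607017587017307017287013007012f07012107011e87011e07011b87011b0700e98f00d58700c407008007006f07006e87006c87006c07 = true := by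
  decide +kernel

theorem cW3_m1_2_5 (hf : Rule f) {k c n M R x y : ℕ} (H : LI f k c n)
    (eM : M = 6 * k + 3) (eR : R + 1 = c) (ex : x = 2 * n + 2) (ey : y + 2 * k = 2 * n + 5) : ¬ f M R x y := by
  intro hg
  have hk := H.T.hk
  have hc := H.T.hc
  have h4 := H.T.h4
  have hb := H.T.hb
  have hN := H.T.hN2
  have hg' : ∀ M' R' x' y' : ℕ, M' = M → R' = R → x' = x → y' = y → f M' R' x' y' := by
    rintro _ _ _ _ rfl rfl rfl rfl
    exact hg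
  clear hg
  obtain ⟨a0, ha0⟩ : ∃ z, z = 6 * k + 1 := ⟨_, rfl⟩
  obtain ⟨b0, hb0⟩ : ∃ z, z + 4 = c := ⟨c - 4, by omega⟩
  obtain ⟨x0, hx0⟩ : ∃ z, z = 2 * n + 0 := ⟨_, rfl⟩
  obtain ⟨y0, hy0⟩ : ∃ z, z + 2 * k = 2 * n + 3 := ⟨2 * n + 3 - 2 * k, by omega⟩
  refine check_sound hf (a0 := a0) (b0 := b0) (x0 := x0) (y0 := y0) cW3_m1_2_5_chk
    ⟨fun h => absurd h (by decide), fun h => absurd h (by decide), fun h => absurd h (by decide), by omega, by omega,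
      by omega, by omega⟩ ?_ ?_
  · intro j m p q hr h
    obtain ⟨-, -, -, -, hp1, hp2, hq1, hq2⟩ := hr
    replace h := of_decide_eq_true h
    rcases h with h | h
    · obtain ⟨rfl, rfl, h⟩ := h
      exact (NW.w0v H.a8 (by omega) (by omega) (by omega) (by omega) (by omega) (by omega) (by omega)).mpr (by omega)
    · obtain ⟨rfl, rfl, h⟩ := h
      exact hg' _ _ _ _ (by omega) (by omega) (by omega) (by omega)
  · intro j m p q hr h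
    obtain ⟨-, -, -, -, hp1, hp2, hq1, hq2⟩ := hr
    replace h := of_decide_eq_true h
    rcases h with h | h | h | h | h | h | h | h | h
    · obtain ⟨rfl, rfl, h⟩ := h
      exact mt (WrapC.v1 H.a6 (by omega) (by omega) (by omega) (by omega) (by omega) (by omega) (by omega) (by omega)).mp (by omega)
    · obtain ⟨rfl, rfl, h⟩ := h
      exact NHT.rIn hf H.T (t := 3) (p := 1) (j := 1) (by omega) (by omega) (by omega) (by omega) (by omega) (by omega) (by omega) (by omega)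
    · obtain ⟨rfl, rfl, h⟩ := h
      exact NHT.rIn hf H.T (t := 3) (p := 0) (j := 1) (by omega) (by omega) (by omega) (by omega) (by omega) (by omega) (by omega) (by omega)
    · obtain ⟨rfl, rfl, h⟩ := h
      exact NHT.rIn hf H.T (t := 3) (p := 1) (j := 0) (by omega) (by omega) (by omega) (by omega) (by omega) (by omega) (by omega) (by omega)
    · obtain ⟨rfl, rfl, h⟩ := h
      exact NHT.pmi hf H.T (j := 1) (by omega) (by omega) (by omega) (by omega) (by omega) (by omega)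
    · obtain ⟨rfl, rfl, h⟩ := h
      exact NHT.pmi hf H.T (j := 0) (by omega) (by omega) (by omega) (by omega) (by omega) (by omega)
    · obtain ⟨rfl, rfl, h⟩ := h
      exact mt (WrapC.v1 H.a2 (by omega) (by omega) (by omega) (by omega) (by omega) (by omega) (by omega) (by omega)).mp (by omega)
    · obtain ⟨rfl, rfl, h⟩ := h
      exact NHT.rIn hf H.T (t := 3) (p := 1) (j := 2) (by omega) (by omega) (by omega) (by omega) (by omega) (by omega) (by omega) (by omega)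
    · obtain ⟨rfl, rfl, h⟩ := h
      exact NHT.pmi hf H.T (j := 2) (by omega) (by omega) (by omega) (by omega) (by omega) (by omega)

theorem cW3_m1_2_6_chk : check 3 5 5 5 0 0 0 0 0
    (fun j n p q => decide ((j = 3 ∧ n = 3 ∧ (p = 2 ∧ q = 2))))
    (fun j n p q => decide ((j = 2 ∧ n = 1 ∧ ((p = 1 ∧ 1 ≤ q ∧ q ≤ 2) ∨ (p = 2 ∧ 1 ≤ q ∧ q ≤ 3) ∨ (p = 3 ∧ 2 ≤ q ∧ q ≤ 3)))
      ∨ (j = 3 ∧ n = 1 ∧ ((p = 1 ∧ 1 ≤ q ∧ q ≤ 2) ∨ (p = 2 ∧ 2 ≤ q ∧ q ≤ 3) ∨ (p = 3 ∧ q = 3)))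
      ∨ (j = 3 ∧ n = 2 ∧ ((p = 1 ∧ 1 ≤ q ∧ q ≤ 2) ∨ (p = 2 ∧ 2 ≤ q ∧ q ≤ 3) ∨ (p = 3 ∧ q = 3)))
      ∨ (j = 1 ∧ n = 3 ∧ (1 ≤ p ∧ p ≤ 2 ∧ 1 ≤ q ∧ q ≤ 2))
      ∨ (j = 1 ∧ n = 2 ∧ ((p = 1 ∧ 1 ≤ q ∧ q ≤ 2) ∨ (p = 2 ∧ q = 1)))
      ∨ (j = 2 ∧ n = 3 ∧ (p = 1 ∧ q = 2))))
    33
    0xdd83005d8000cd8000a8e200daaa00e70000e70f00dd8700db0700da8700d80700d78700d10700ce8700ce0700cb8700cb0700a607009c07009287009207009007008f87008f07008d07008c87006a07006987006787006707005d07005b07005a87 = true := by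
  decide +kernel

theorem cW3_m1_2_6 (hf : Rule f) {k c n M R x y : ℕ} (H : LI f k c n)
    (eM : M = 6 * k + 3) (eR : R + 1 = c) (ex : x = 2 * n + 2) (ey : y + 2 * k = 2 * n + 6) : ¬ f M R x y := by
  intro hg
  have hk := H.T.hk
  have hc := H.T.hc
  have h4 := H.T.h4
  have hb := H.T.hb
  have hN := H.T.hN2
  have hg' : ∀ M' R' x' y' : ℕ, M' = M → R' = R → x' = x → y' = y → f M' R' x' y' := by
    rintro _ _ _ _ rfl rfl rfl rfl
    exact hg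
  clear hg
  obtain ⟨a0, ha0⟩ : ∃ z, z = 6 * k + 0 := ⟨_, rfl⟩
  obtain ⟨b0, hb0⟩ : ∃ z, z + 4 = c := ⟨c - 4, by omega⟩
  obtain ⟨x0, hx0⟩ : ∃ z, z = 2 * n + 0 := ⟨_, rfl⟩
  obtain ⟨y0, hy0⟩ : ∃ z, z + 2 * k = 2 * n + 4 := ⟨2 * n + 4 - 2 * k, by omega⟩
  refine check_sound hf (a0 := a0) (b0 := b0) (x0 := x0) (y0 := y0) cW3_m1_2_6_chk
    ⟨fun h => absurd h (by decide), fun h => absurd h (by decide), fun h => absurd h (by decide), by omega, by omega,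
      by omega, by omega⟩ ?_ ?_
  · intro j m p q hr h
    obtain ⟨-, -, -, -, hp1, hp2, hq1, hq2⟩ := hr
    replace h := of_decide_eq_true h
    obtain ⟨rfl, rfl, h⟩ := h
    exact hg' _ _ _ _ (by omega) (by omega) (by omega) (by omega)
  · intro j m p q hr h
    obtain ⟨-, -, -, -, hp1, hp2, hq1, hq2⟩ := hr
    replace h := of_decide_eq_true h
    rcases h with h | h | h | h | h | h
    · obtain ⟨rfl, rfl, h⟩ := h
      exact mt (WrapC.v1 H.a2 (by omega) (by omega) (by omega) (by omega) (by omega) (by omega) (by omega) (by omega)).mp (by omega)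
    · obtain ⟨rfl, rfl, h⟩ := h
      exact NHT.rIn hf H.T (t := 3) (p := 1) (j := 2) (by omega) (by omega) (by omega) (by omega) (by omega) (by omega) (by omega) (by omega)
    · obtain ⟨rfl, rfl, h⟩ := h
      exact NHT.pmi hf H.T (j := 2) (by omega) (by omega) (by omega) (by omega) (by omega) (by omega)
    · obtain ⟨rfl, rfl, h⟩ := h
      exact H.eo _ _ _ _ (by omega) (by omega) (by omega) (by omega) (by omega) (by omega) (by omega)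
    · obtain ⟨rfl, rfl, h⟩ := h
      exact H.eo _ _ _ _ (by omega) (by omega) (by omega) (by omega) (by omega) (by omega) (by omega)
    · obtain ⟨rfl, rfl, h⟩ := h
      exact NW.rm1i hf H.T (p := 0) (j := 3) (by omega) (by omega) (by omega) (by omega) (by omega) (by omega) (by omega)

theorem cW4_m1_0_3_chk : check 2 5 5 5 1 0 1 1 0
    (fun j n p q => decide ((j = 1 ∧ n = 3 ∧ (p = 3 ∧ q = 2))))
    (fun j n p q => decide ((j = 2 ∧ n = 1 ∧ ((p = 1 ∧ 1 ≤ q ∧ q ≤ 2) ∨ (p = 2 ∧ 1 ≤ q ∧ q ≤ 3) ∨ (p = 3 ∧ 2 ≤ q ∧ q ≤ 3)))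
      ∨ (j = 1 ∧ n = 1 ∧ ((p = 1 ∧ 1 ≤ q ∧ q ≤ 2) ∨ (p = 2 ∧ 1 ≤ q ∧ q ≤ 3) ∨ (p = 3 ∧ 2 ≤ q ∧ q ≤ 3)))
      ∨ (j = 2 ∧ n = 2 ∧ ((p = 1 ∧ 1 ≤ q ∧ q ≤ 2) ∨ (p = 2 ∧ 1 ≤ q ∧ q ≤ 3) ∨ (p = 3 ∧ 2 ≤ q ∧ q ≤ 3)))))
    29
    0x5e05005b00009f52009c52006c80009f07009e87009c87009c07009b87009987009907009287009207009007008f87008f07008d07008c87006c8f006087005a87005407005387005187005107005087004e87004e07 = true := by
  decide +kernel

theorem cW4_m1_0_3 (hf : Rule f) {k c n M R x y : ℕ} (H : LI f k c n)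
    (eM : M = 6 * k + 4) (eR : R + 1 = c) (ex : x = 2 * n) (ey : y + 2 * k = 2 * n + 3) : ¬ f M R x y := by
  intro hg
  have hk := H.T.hk
  have hc := H.T.hc
  have h4 := H.T.h4
  have hb := H.T.hb
  have hN := H.T.hN2
  have hg' : ∀ M' R' x' y' : ℕ, M' = M → R' = R → x' = x → y' = y → f M' R' x' y' := by
    rintro _ _ _ _ rfl rfl rfl rfl
    exact hg
  clear hg
  obtain ⟨a0, ha0⟩ : ∃ z, z = 6 * k + 3 := ⟨_, rfl⟩
  obtain ⟨b0, hb0⟩ : ∃ z, z + 4 = c := ⟨c - 4, by omega⟩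
  obtain ⟨x0, hx0⟩ : ∃ z, z + 3 = 2 * n := ⟨2 * n - 3, by omega⟩
  obtain ⟨y0, hy0⟩ : ∃ z, z + 2 * k = 2 * n + 1 := ⟨2 * n + 1 - 2 * k, by omega⟩
  refine check_sound hf (a0 := a0) (b0 := b0) (x0 := x0) (y0 := y0) cW4_m1_0_3_chk
    ⟨fun h => absurd h (by decide), fun h => absurd h (by decide), fun h => absurd h (by decide), by omega, by omega,
      by omega, by omega⟩ ?_ ?_
  · intro j m p q hr h
    obtain ⟨-, -, -, -, hp1, hp2, hq1, hq2⟩ := hr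
    replace h := of_decide_eq_true h
    obtain ⟨rfl, rfl, h⟩ := h
    exact hg' _ _ _ _ (by omega) (by omega) (by omega) (by omega)
  · intro j m p q hr h
    obtain ⟨-, -, -, -, hp1, hp2, hq1, hq2⟩ := hr
    replace h := of_decide_eq_true h
    rcases h with h | h | h
    · obtain ⟨rfl, rfl, h⟩ := h
      exact NHT.rIn hf H.T (t := 3) (p := 1) (j := 1) (by omega) (by omega) (by omega) (by omega) (by omega) (by omega) (by omega) (by omega)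
    · obtain ⟨rfl, rfl, h⟩ := h
      exact NHT.rIn hf H.T (t := 3) (p := 0) (j := 1) (by omega) (by omega) (by omega) (by omega) (by omega) (by omega) (by omega) (by omega)
    · obtain ⟨rfl, rfl, h⟩ := h
      exact NHT.pmi hf H.T (j := 1) (by omega) (by omega) (by omega) (by omega) (by omega) (by omega)

theorem cW4_m1_1_4_chk : check 5 7 6 5 1 0 1 1 0
    (fun j n p q => decide ((j = 3 ∧ n = 2 ∧ (p = 2 ∧ q = 1))
      ∨ (j = 5 ∧ n = 4 ∧ (p = 4 ∧ q = 3))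
      ∨ (j = 1 ∧ n = 5 ∧ (p = 2 ∧ q = 3))))
    (fun j n p q => decide ((j = 1 ∧ n = 1 ∧ (1 ≤ p ∧ p ≤ 2 ∧ 1 ≤ q ∧ q ≤ 2))
      ∨ (j = 3 ∧ n = 3 ∧ (2 ≤ p ∧ p ≤ 3 ∧ 2 ≤ q ∧ q ≤ 3))
      ∨ (j = 2 ∧ n = 3 ∧ ((p = 1 ∧ 2 ≤ q ∧ q ≤ 3) ∨ (p = 2 ∧ q = 3)))
      ∨ (j = 1 ∧ n = 3 ∧ ((p = 1 ∧ 2 ≤ q ∧ q ≤ 3) ∨ (p = 2 ∧ q = 3)))
      ∨ (j = 4 ∧ n = 3 ∧ ((p = 2 ∧ 2 ≤ q ∧ q ≤ 3) ∨ (p = 3 ∧ q = 3)))
      ∨ (j = 2 ∧ n = 1 ∧ ((p = 1 ∧ 1 ≤ q ∧ q ≤ 2) ∨ (p = 2 ∧ q = 2)))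
      ∨ (j = 2 ∧ n = 4 ∧ ((p = 1 ∧ 2 ≤ q ∧ q ≤ 3) ∨ (p = 2 ∧ q = 3)))
      ∨ (j = 4 ∧ n = 4 ∧ ((p = 2 ∧ 2 ≤ q ∧ q ≤ 3) ∨ (p = 3 ∧ q = 3)))
      ∨ (j = 2 ∧ n = 2 ∧ ((p = 1 ∧ 1 ≤ q ∧ q ≤ 2) ∨ (p = 2 ∧ q = 2)))))
    47
    0x1e90301140001148a00f60301050001050400f603009c00009c04025480015e8000ba8002548f01e90701e68701e60701da0701d78701d707018007017107017087016e87016e07015e8f01148701120701118701058701030701028700f60700f38700f30700e70700e48700e40700ba8f00a907009c87009a07009987008a07007e07007d87007b87007b07 = true := by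
  decide +kernel

theorem cW4_m1_1_4 (hf : Rule f) {k c n M R x y : ℕ} (H : LI f k c n)
    (eM : M = 6 * k + 4) (eR : R + 1 = c) (ex : x = 2 * n + 1) (ey : y + 2 * k = 2 * n + 4) : ¬ f M R x y := by
  intro hg
  have hk := H.T.hk
  have hc := H.T.hc
  have h4 := H.T.h4
  have hb := H.T.hb
  have hN := H.T.hN2
  have hg' : ∀ M' R' x' y' : ℕ, M' = M → R' = R → x' = x → y' = y → f M' R' x' y' := by
    rintro _ _ _ _ rfl rfl rfl rfl
    exact hg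
  clear hg
  obtain ⟨a0, ha0⟩ : ∃ z, z = 6 * k + 3 := ⟨_, rfl⟩
  obtain ⟨b0, hb0⟩ : ∃ z, z + 6 = c := ⟨c - 6, by omega⟩
  obtain ⟨x0, hx0⟩ : ∃ z, z + 1 = 2 * n := ⟨2 * n - 1, by omega⟩
  obtain ⟨y0, hy0⟩ : ∃ z, z + 2 * k = 2 * n + 1 := ⟨2 * n + 1 - 2 * k, by omega⟩
  refine check_sound hf (a0 := a0) (b0 := b0) (x0 := x0) (y0 := y0) cW4_m1_1_4_chk
    ⟨fun h => absurd h (by decide), fun h => absurd h (by decide), fun h => absurd h (by decide), by omega, by omega,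
      by omega, by omega⟩ ?_ ?_
  · intro j m p q hr h
    obtain ⟨-, -, -, -, hp1, hp2, hq1, hq2⟩ := hr
    replace h := of_decide_eq_true h
    rcases h with h | h | h
    · obtain ⟨rfl, rfl, h⟩ := h
      exact (WrapC.v4 H.b6 (by omega) (by omega) (by omega) (by omega) (by omega) (by omega) (by omega)).mpr (by omega)
    · obtain ⟨rfl, rfl, h⟩ := h
      exact (NW.w0v H.a8 (by omega) (by omega) (by omega) (by omega) (by omega) (by omega) (by omega)).mpr (by omega)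
    · obtain ⟨rfl, rfl, h⟩ := h
      exact hg' _ _ _ _ (by omega) (by omega) (by omega) (by omega)
  · intro j m p q hr h
    obtain ⟨-, -, -, -, hp1, hp2, hq1, hq2⟩ := hr
    replace h := of_decide_eq_true h
    rcases h with h | h | h | h | h | h | h | h | h
    · obtain ⟨rfl, rfl, h⟩ := h
      exact mt (WrapC.v1 H.b4 (by omega) (by omega) (by omega) (by omega) (by omega) (by omega) (by omega) (by omega)).mp (by omega)
    · obtain ⟨rfl, rfl, h⟩ := h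
      exact mt (WrapC.v1 H.a6 (by omega) (by omega) (by omega) (by omega) (by omega) (by omega) (by omega) (by omega)).mp (by omega)
    · obtain ⟨rfl, rfl, h⟩ := h
      exact NHT.rIn hf H.T (t := 3) (p := 1) (j := 1) (by omega) (by omega) (by omega) (by omega) (by omega) (by omega) (by omega) (by omega)
    · obtain ⟨rfl, rfl, h⟩ := h
      exact NHT.rIn hf H.T (t := 3) (p := 0) (j := 1) (by omega) (by omega) (by omega) (by omega) (by omega) (by omega) (by omega) (by omega)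
    · obtain ⟨rfl, rfl, h⟩ := h
      exact NHT.rIn hf H.T (t := 3) (p := 1) (j := 0) (by omega) (by omega) (by omega) (by omega) (by omega) (by omega) (by omega) (by omega)
    · obtain ⟨rfl, rfl, h⟩ := h
      exact NHT.rIn hf H.T (t := 2) (p := 1) (j := 0) (by omega) (by omega) (by omega) (by omega) (by omega) (by omega) (by omega) (by omega)
    · obtain ⟨rfl, rfl, h⟩ := h
      exact NHT.pmi hf H.T (j := 1) (by omega) (by omega) (by omega) (by omega) (by omega) (by omega)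
    · obtain ⟨rfl, rfl, h⟩ := h
      exact NHT.pmi hf H.T (j := 0) (by omega) (by omega) (by omega) (by omega) (by omega) (by omega)
    · obtain ⟨rfl, rfl, h⟩ := h
      exact NHT.pIn hf H.T (t := 3) (j := 0) (by omega) (by omega) (by omega) (by omega) (by omega) (by omega) (by omega)

theorem cW4_m1_2_5_chk : check 2 5 5 5 1 0 1 1 0
    (fun j n p q => decide ((j = 1 ∧ n = 3 ∧ (p = 3 ∧ q = 2))))
    (fun j n p q => decide ((j = 2 ∧ n = 1 ∧ ((p = 1 ∧ 1 ≤ q ∧ q ≤ 2) ∨ (p = 2 ∧ 1 ≤ q ∧ q ≤ 3) ∨ (p = 3 ∧ 2 ≤ q ∧ q ≤ 3)))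
      ∨ (j = 1 ∧ n = 1 ∧ ((p = 1 ∧ 1 ≤ q ∧ q ≤ 2) ∨ (p = 2 ∧ 1 ≤ q ∧ q ≤ 3) ∨ (p = 3 ∧ 2 ≤ q ∧ q ≤ 3)))
      ∨ (j = 2 ∧ n = 2 ∧ ((p = 1 ∧ 1 ≤ q ∧ q ≤ 2) ∨ (p = 2 ∧ 1 ≤ q ∧ q ≤ 3) ∨ (p = 3 ∧ 2 ≤ q ∧ q ≤ 3)))))
    29
    0x5e05005b00009f52009c52006c80009f07009e87009c87009c07009b87009987009907009287009207009007008f87008f07008d07008c87006c8f006087005a87005407005387005187005107005087004e87004e07 = true := by
  decide +kernel

theorem cW4_m1_2_5 (hf : Rule f) {k c n M R x y : ℕ} (H : LI f k c n)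
    (eM : M = 6 * k + 4) (eR : R + 1 = c) (ex : x = 2 * n + 2) (ey : y + 2 * k = 2 * n + 5) : ¬ f M R x y := by
  intro hg
  have hk := H.T.hk
  have hc := H.T.hc
  have h4 := H.T.h4
  have hb := H.T.hb
  have hN := H.T.hN2
  have hg' : ∀ M' R' x' y' : ℕ, M' = M → R' = R → x' = x → y' = y → f M' R' x' y' := by
    rintro _ _ _ _ rfl rfl rfl rfl
    exact hg
  clear hg
  obtain ⟨a0, ha0⟩ : ∃ z, z = 6 * k + 3 := ⟨_, rfl⟩
  obtain ⟨b0, hb0⟩ : ∃ z, z + 4 = c := ⟨c - 4, by omega⟩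
  obtain ⟨x0, hx0⟩ : ∃ z, z + 1 = 2 * n := ⟨2 * n - 1, by omega⟩
  obtain ⟨y0, hy0⟩ : ∃ z, z + 2 * k = 2 * n + 3 := ⟨2 * n + 3 - 2 * k, by omega⟩
  refine check_sound hf (a0 := a0) (b0 := b0) (x0 := x0) (y0 := y0) cW4_m1_2_5_chk
    ⟨fun h => absurd h (by decide), fun h => absurd h (by decide), fun h => absurd h (by decide), by omega, by omega,
      by omega, by omega⟩ ?_ ?_
  · intro j m p q hr h
    obtain ⟨-, -, -, -, hp1, hp2, hq1, hq2⟩ := hr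
    replace h := of_decide_eq_true h
    obtain ⟨rfl, rfl, h⟩ := h
    exact hg' _ _ _ _ (by omega) (by omega) (by omega) (by omega)
  · intro j m p q hr h
    obtain ⟨-, -, -, -, hp1, hp2, hq1, hq2⟩ := hr
    replace h := of_decide_eq_true h
    rcases h with h | h | h
    · obtain ⟨rfl, rfl, h⟩ := h
      exact NHT.rIn hf H.T (t := 3) (p := 1) (j := 1) (by omega) (by omega) (by omega) (by omega) (by omega) (by omega) (by omega) (by omega)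
    · obtain ⟨rfl, rfl, h⟩ := h
      exact NHT.rIn hf H.T (t := 3) (p := 0) (j := 1) (by omega) (by omega) (by omega) (by omega) (by omega) (by omega) (by omega) (by omega)
    · obtain ⟨rfl, rfl, h⟩ := h
      exact NHT.pmi hf H.T (j := 1) (by omega) (by omega) (by omega) (by omega) (by omega) (by omega)

end Pool.Agent.SNT.LRI
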