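import Pool.Agent.SNT.LRD

set_option autoImplicit false
set_option linter.unusedVariables false
set_option synthInstance.maxSize 100000
set_option synthInstance.maxHeartbeats 4000000

/-! Local certificates of the location of the top leader (6). -/

namespace Pool.Agent.SNT.LRI

open Pool.Agent.SNT Pool.Agent.SNT.Loc Pool.Agent.SNT.LW Pool.Agent.SNT.NHZ

variable {f : ℕ → ℕ → ℕ → ℕ → Prop}

theorem cW3_0_2_6_chk : check 6 8 6 7 0 0 1 1 0
    (fun j n p q => decide ((j = 4 ∧ n = 2 ∧ (p = 2 ∧ q = 1))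
      ∨ (j = 6 ∧ n = 4 ∧ (p = 4 ∧ q = 3))
      ∨ (j = 2 ∧ n = 4 ∧ (p = 4 ∧ q = 5))
      ∨ (j = 1 ∧ n = 6 ∧ (p = 1 ∧ q = 3))))
    (fun j n p q => decide ((j = 3 ∧ n = 3 ∧ ((p = 1 ∧ 2 ≤ q ∧ q ≤ 4) ∨ (p = 2 ∧ 3 ≤ q ∧ q ≤ 5) ∨ (p = 3 ∧ 4 ≤ q ∧ q ≤ 5)))
      ∨ (j = 2 ∧ n = 3 ∧ ((p = 1 ∧ 2 ≤ q ∧ q ≤ 4) ∨ (p = 2 ∧ 3 ≤ q ∧ q ≤ 5) ∨ (p = 3 ∧ 4 ≤ q ∧ q ≤ 5)))
      ∨ (j = 3 ∧ n = 4 ∧ ((p = 1 ∧ 2 ≤ q ∧ q ≤ 4) ∨ (p = 2 ∧ 3 ≤ q ∧ q ≤ 5) ∨ (p = 3 ∧ 4 ≤ q ∧ q ≤ 5)))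
      ∨ (j = 5 ∧ n = 5 ∧ ((p = 1 ∧ 3 ≤ q ∧ q ≤ 4) ∨ (p = 2 ∧ 3 ≤ q ∧ q ≤ 5) ∨ (p = 3 ∧ 4 ≤ q ∧ q ≤ 5)))
      ∨ (j = 4 ∧ n = 5 ∧ ((p = 1 ∧ 3 ≤ q ∧ q ≤ 4) ∨ (p = 2 ∧ 3 ≤ q ∧ q ≤ 5) ∨ (p = 3 ∧ 4 ≤ q ∧ q ≤ 5)))
      ∨ (j = 5 ∧ n = 6 ∧ ((p = 1 ∧ 3 ≤ q ∧ q ≤ 4) ∨ (p = 2 ∧ 3 ≤ q ∧ q ≤ 5) ∨ (p = 3 ∧ 4 ≤ q ∧ q ≤ 5)))
      ∨ (j = 2 ∧ n = 1 ∧ (1 ≤ p ∧ p ≤ 2 ∧ 1 ≤ q ∧ q ≤ 2))
      ∨ (j = 4 ∧ n = 3 ∧ (2 ≤ p ∧ p ≤ 3 ∧ 2 ≤ q ∧ q ≤ 3))
      ∨ (j = 3 ∧ n = 5 ∧ ((p = 1 ∧ 3 ≤ q ∧ q ≤ 4) ∨ (p = 2 ∧ q = 4)))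
      ∨ (j = 2 ∧ n = 5 ∧ ((p = 1 ∧ 3 ≤ q ∧ q ≤ 4) ∨ (p = 2 ∧ q = 4)))
      ∨ (j = 5 ∧ n = 3 ∧ ((p = 2 ∧ 2 ≤ q ∧ q ≤ 3) ∨ (p = 3 ∧ q = 3)))
      ∨ (j = 3 ∧ n = 1 ∧ ((p = 1 ∧ 1 ≤ q ∧ q ≤ 2) ∨ (p = 2 ∧ q = 2)))
      ∨ (j = 5 ∧ n = 4 ∧ ((p = 2 ∧ 2 ≤ q ∧ q ≤ 3) ∨ (p = 3 ∧ q = 3)))
      ∨ (j = 3 ∧ n = 2 ∧ ((p = 1 ∧ 1 ≤ q ∧ q ≤ 2) ∨ (p = 2 ∧ q = 2)))
      ∨ (j = 3 ∧ n = 6 ∧ ((p = 1 ∧ 3 ≤ q ∧ q ≤ 4) ∨ (p = 2 ∧ q = 4)))))
    121
    0x3278503238003d35203cf52027e80027f0a01ac8002554a01ad8002595203a80302540002548a01c180027f6a03278503238003d35203cf52027e80027e84025483026980026984022a03019700019704022a03023f00023f0401ad0001ad0404538002d18001b480012b0004538f03d30703d28703cf8703cf0703ce8703cb8703cb0703be0703bd8703ba8703ba0703b98703b68703b60703a80703a48703a407039307038f87038f07032b07032307031607031587031287031207031187030e87030e0703000702eb0702ea8702e78702e70702d18f027f07027b87027b07026a07026687026607025907025887025587025507025487025187025107025087024407024387024087024007023f87023c87023c07023b87022a0702268702260702150702118702110701d30701c20701be8701be0701b48f01b10701a907019c07019b87019887019807019787019487019407019387017e07016d07016c87016987016907012b0f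 = true := by
  decide +kernel

theorem cW3_0_2_6 (hf : Rule f) {k c n M R x y : ℕ} (H : LI f k c n)
    (eM : M = 6 * k + 3) (eR : R = c) (ex : x = 2 * n + 2) (ey : y + 2 * k = 2 * n + 6) : ¬ f M R x y := by
  intro hg
  have hk := H.T.hk
  have hc := H.T.hc
  have h4 := H.T.h4
  have hb := H.T.hb
  have hN := H.T.hN2
  have hg' : ∀ M' R' x' y' : ℕ, M' = M → R' = R → x' = x → y' = y → f M' R' x' y' := by
    rintro _ _ _ _ rfl rfl rfl rfl
    exact hg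
  clear hg
  obtain ⟨a0, ha0⟩ : ∃ z, z = 6 * k + 2 := ⟨_, rfl⟩
  obtain ⟨b0, hb0⟩ : ∃ z, z + 6 = c := ⟨c - 6, by omega⟩
  obtain ⟨x0, hx0⟩ : ∃ z, z = 2 * n + 1 := ⟨_, rfl⟩
  obtain ⟨y0, hy0⟩ : ∃ z, z + 2 * k = 2 * n + 3 := ⟨2 * n + 3 - 2 * k, by omega⟩
  refine check_sound hf (a0 := a0) (b0 := b0) (x0 := x0) (y0 := y0) cW3_0_2_6_chk
    ⟨fun h => absurd h (by decide), fun h => absurd h (by decide), fun h => absurd h (by decide), by omega, by omega,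
      by omega, by omega⟩ ?_ ?_
  · intro j m p q hr h
    obtain ⟨-, -, -, -, hp1, hp2, hq1, hq2⟩ := hr
    replace h := of_decide_eq_true h
    rcases h with h | h | h | h
    · obtain ⟨rfl, rfl, h⟩ := h
      exact (WrapC.v4 H.b6 (by omega) (by omega) (by omega) (by omega) (by omega) (by omega) (by omega)).mpr (by omega)
    · obtain ⟨rfl, rfl, h⟩ := h
      exact (NW.w0v H.a8 (by omega) (by omega) (by omega) (by omega) (by omega) (by omega) (by omega)).mpr (by omega)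
    · obtain ⟨rfl, rfl, h⟩ := h
      exact (WrapC.v0 H.a4 (by omega) (by omega) (by omega) (by omega) (by omega) (by omega) (by omega)).mpr (by omega)
    · obtain ⟨rfl, rfl, h⟩ := h
      exact hg' _ _ _ _ (by omega) (by omega) (by omega) (by omega)
  · intro j m p q hr h
    obtain ⟨-, -, -, -, hp1, hp2, hq1, hq2⟩ := hr
    replace h := of_decide_eq_true h
    rcases h with h | h | h | h | h | h | h | h | h | h | h | h | h | h | h
    · obtain ⟨rfl, rfl, h⟩ := h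
      exact NHT.rIn hf H.T (t := 3) (p := 1) (j := 1) (by omega) (by omega) (by omega) (by omega) (by omega) (by omega) (by omega) (by omega)
    · obtain ⟨rfl, rfl, h⟩ := h
      exact NHT.rIn hf H.T (t := 3) (p := 0) (j := 1) (by omega) (by omega) (by omega) (by omega) (by omega) (by omega) (by omega) (by omega)
    · obtain ⟨rfl, rfl, h⟩ := h
      exact NHT.pmi hf H.T (j := 1) (by omega) (by omega) (by omega) (by omega) (by omega) (by omega)
    · obtain ⟨rfl, rfl, h⟩ := h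
      exact NW.rm1i hf H.T (p := 1) (j := 1) (by omega) (by omega) (by omega) (by omega) (by omega) (by omega) (by omega)
    · obtain ⟨rfl, rfl, h⟩ := h
      exact NW.rm1i hf H.T (p := 0) (j := 1) (by omega) (by omega) (by omega) (by omega) (by omega) (by omega) (by omega)
    · obtain ⟨rfl, rfl, h⟩ := h
      exact NHT.p0i hf H.T (j := 1) (by omega) (by omega) (by omega) (by omega) (by omega) (by omega)
    · obtain ⟨rfl, rfl, h⟩ := h
      exact mt (WrapC.v1 H.b4 (by omega) (by omega) (by omega) (by omega) (by omega) (by omega) (by omega) (by omega)).mp (by omega)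
    · obtain ⟨rfl, rfl, h⟩ := h
      exact mt (WrapC.v1 H.a6 (by omega) (by omega) (by omega) (by omega) (by omega) (by omega) (by omega) (by omega)).mp (by omega)
    · obtain ⟨rfl, rfl, h⟩ := h
      exact NW.rm1i hf H.T (p := 1) (j := 2) (by omega) (by omega) (by omega) (by omega) (by omega) (by omega) (by omega)
    · obtain ⟨rfl, rfl, h⟩ := h
      exact NW.rm1i hf H.T (p := 0) (j := 2) (by omega) (by omega) (by omega) (by omega) (by omega) (by omega) (by omega)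
    · obtain ⟨rfl, rfl, h⟩ := h
      exact NHT.rIn hf H.T (t := 3) (p := 1) (j := 0) (by omega) (by omega) (by omega) (by omega) (by omega) (by omega) (by omega) (by omega)
    · obtain ⟨rfl, rfl, h⟩ := h
      exact NHT.rIn hf H.T (t := 2) (p := 1) (j := 0) (by omega) (by omega) (by omega) (by omega) (by omega) (by omega) (by omega) (by omega)
    · obtain ⟨rfl, rfl, h⟩ := h
      exact NHT.pmi hf H.T (j := 0) (by omega) (by omega) (by omega) (by omega) (by omega) (by omega)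
    · obtain ⟨rfl, rfl, h⟩ := h
      exact NHT.pIn hf H.T (t := 3) (j := 0) (by omega) (by omega) (by omega) (by omega) (by omega) (by omega) (by omega)
    · obtain ⟨rfl, rfl, h⟩ := h
      exact NHT.p0i hf H.T (j := 2) (by omega) (by omega) (by omega) (by omega) (by omega) (by omega)

theorem cW9_m1_1_2_chk : check 2 4 3 3 1 1 0 1 0
    (fun j n p q => decide ((j = 1 ∧ n = 1 ∧ (p = 1 ∧ q = 1))
      ∨ (j = 2 ∧ n = 2 ∧ (p = 1 ∧ q = 1))))
    (fun j n p q => decide (False))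
    4
    0x2f05001880002f0f00188f = true := by
  decide +kernel

theorem cW9_m1_1_2 (hf : Rule f) {k c n M R x y : ℕ} (H : LI f k c n)
    (eM : M = 6 * k + 9) (eR : R + 1 = c) (ex : x = 2 * n + 1) (ey : y + 2 * k = 2 * n + 2) : ¬ f M R x y := by
  intro hg
  have hk := H.T.hk
  have hc := H.T.hc
  have h4 := H.T.h4
  have hb := H.T.hb
  have hN := H.T.hN2
  have hg' : ∀ M' R' x' y' : ℕ, M' = M → R' = R → x' = x → y' = y → f M' R' x' y' := by
    rintro _ _ _ _ rfl rfl rfl rfl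
    exact hg
  clear hg
  obtain ⟨a0, ha0⟩ : ∃ z, z = 6 * k + 7 := ⟨_, rfl⟩
  obtain ⟨b0, hb0⟩ : ∃ z, z + 3 = c := ⟨c - 3, by omega⟩
  obtain ⟨x0, hx0⟩ : ∃ z, z = 2 * n + 0 := ⟨_, rfl⟩
  obtain ⟨y0, hy0⟩ : ∃ z, z + 2 * k = 2 * n + 1 := ⟨2 * n + 1 - 2 * k, by omega⟩
  refine check_sound hf (a0 := a0) (b0 := b0) (x0 := x0) (y0 := y0) cW9_m1_1_2_chk
    ⟨fun h => absurd h (by decide), fun h => absurd h (by decide), fun h => absurd h (by decide), by omega, by omega,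
      by omega, by omega⟩ ?_ ?_
  · intro j m p q hr h
    obtain ⟨-, -, -, -, hp1, hp2, hq1, hq2⟩ := hr
    replace h := of_decide_eq_true h
    rcases h with h | h
    · obtain ⟨rfl, rfl, h⟩ := h
      exact (NW.w0v H.a8 (by omega) (by omega) (by omega) (by omega) (by omega) (by omega) (by omega)).mpr (by omega)
    · obtain ⟨rfl, rfl, h⟩ := h
      exact hg' _ _ _ _ (by omega) (by omega) (by omega) (by omega)
  · intro j m p q hr h
    obtain ⟨-, -, -, -, hp1, hp2, hq1, hq2⟩ := hr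
    replace h := of_decide_eq_true h
    exact h.elim

theorem cW9_m1_1_1_chk : check 2 4 3 4 1 1 0 1 0
    (fun j n p q => decide ((j = 1 ∧ n = 1 ∧ (p = 1 ∧ q = 1))
      ∨ (j = 2 ∧ n = 2 ∧ (p = 1 ∧ q = 2))))
    (fun j n p q => decide (False))
    4
    0x3f05002080003f0f00208f = true := by
  decide +kernel

theorem cW9_m1_1_1 (hf : Rule f) {k c n M R x y : ℕ} (H : LI f k c n)
    (eM : M = 6 * k + 9) (eR : R + 1 = c) (ex : x = 2 * n + 1) (ey : y + 2 * k = 2 * n + 1) : ¬ f M R x y := by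
  intro hg
  have hk := H.T.hk
  have hc := H.T.hc
  have h4 := H.T.h4
  have hb := H.T.hb
  have hN := H.T.hN2
  have hg' : ∀ M' R' x' y' : ℕ, M' = M → R' = R → x' = x → y' = y → f M' R' x' y' := by
    rintro _ _ _ _ rfl rfl rfl rfl
    exact hg
  clear hg
  obtain ⟨a0, ha0⟩ : ∃ z, z = 6 * k + 7 := ⟨_, rfl⟩
  obtain ⟨b0, hb0⟩ : ∃ z, z + 3 = c := ⟨c - 3, by omega⟩
  obtain ⟨x0, hx0⟩ : ∃ z, z = 2 * n + 0 := ⟨_, rfl⟩
  obtain ⟨y0, hy0⟩ : ∃ z, z + 2 * k + 1 = 2 * n := ⟨2 * n - 2 * k - 1, by omega⟩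
  refine check_sound hf (a0 := a0) (b0 := b0) (x0 := x0) (y0 := y0) cW9_m1_1_1_chk
    ⟨fun h => absurd h (by decide), fun h => absurd h (by decide), fun h => absurd h (by decide), by omega, by omega,
      by omega, by omega⟩ ?_ ?_
  · intro j m p q hr h
    obtain ⟨-, -, -, -, hp1, hp2, hq1, hq2⟩ := hr
    replace h := of_decide_eq_true h
    rcases h with h | h
    · obtain ⟨rfl, rfl, h⟩ := h
      exact (NW.w0v H.a8 (by omega) (by omega) (by omega) (by omega) (by omega) (by omega) (by omega)).mpr (by omega)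
    · obtain ⟨rfl, rfl, h⟩ := h
      exact hg' _ _ _ _ (by omega) (by omega) (by omega) (by omega)
  · intro j m p q hr h
    obtain ⟨-, -, -, -, hp1, hp2, hq1, hq2⟩ := hr
    replace h := of_decide_eq_true h
    exact h.elim

theorem cW9_m1_2_3_chk : check 2 4 4 4 1 1 0 1 0
    (fun j n p q => decide ((j = 1 ∧ n = 1 ∧ (p = 1 ∧ q = 1))
      ∨ (j = 2 ∧ n = 2 ∧ (p = 2 ∧ q = 2))))
    (fun j n p q => decide (False))
    4
    0x5505002a8000550f002a8f = true := by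
  decide +kernel

theorem cW9_m1_2_3 (hf : Rule f) {k c n M R x y : ℕ} (H : LI f k c n)
    (eM : M = 6 * k + 9) (eR : R + 1 = c) (ex : x = 2 * n + 2) (ey : y + 2 * k = 2 * n + 3) : ¬ f M R x y := by
  intro hg
  have hk := H.T.hk
  have hc := H.T.hc
  have h4 := H.T.h4
  have hb := H.T.hb
  have hN := H.T.hN2
  have hg' : ∀ M' R' x' y' : ℕ, M' = M → R' = R → x' = x → y' = y → f M' R' x' y' := by
    rintro _ _ _ _ rfl rfl rfl rfl
    exact hg
  clear hg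
  obtain ⟨a0, ha0⟩ : ∃ z, z = 6 * k + 7 := ⟨_, rfl⟩
  obtain ⟨b0, hb0⟩ : ∃ z, z + 3 = c := ⟨c - 3, by omega⟩
  obtain ⟨x0, hx0⟩ : ∃ z, z = 2 * n + 0 := ⟨_, rfl⟩
  obtain ⟨y0, hy0⟩ : ∃ z, z + 2 * k = 2 * n + 1 := ⟨2 * n + 1 - 2 * k, by omega⟩
  refine check_sound hf (a0 := a0) (b0 := b0) (x0 := x0) (y0 := y0) cW9_m1_2_3_chk
    ⟨fun h => absurd h (by decide), fun h => absurd h (by decide), fun h => absurd h (by decide), by omega, by omega,
      by omega, by omega⟩ ?_ ?_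
  · intro j m p q hr h
    obtain ⟨-, -, -, -, hp1, hp2, hq1, hq2⟩ := hr
    replace h := of_decide_eq_true h
    rcases h with h | h
    · obtain ⟨rfl, rfl, h⟩ := h
      exact (NW.w0v H.a8 (by omega) (by omega) (by omega) (by omega) (by omega) (by omega) (by omega)).mpr (by omega)
    · obtain ⟨rfl, rfl, h⟩ := h
      exact hg' _ _ _ _ (by omega) (by omega) (by omega) (by omega)
  · intro j m p q hr h
    obtain ⟨-, -, -, -, hp1, hp2, hq1, hq2⟩ := hr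
    replace h := of_decide_eq_true h
    exact h.elim

theorem cW9_m1_2_2_chk : check 2 4 4 3 1 1 0 1 0
    (fun j n p q => decide ((j = 1 ∧ n = 1 ∧ (p = 1 ∧ q = 1))
      ∨ (j = 2 ∧ n = 2 ∧ (p = 2 ∧ q = 1))))
    (fun j n p q => decide (False))
    4
    0x3f85002000003f8f00200f = true := by
  decide +kernel

theorem cW9_m1_2_2 (hf : Rule f) {k c n M R x y : ℕ} (H : LI f k c n)
    (eM : M = 6 * k + 9) (eR : R + 1 = c) (ex : x = 2 * n + 2) (ey : y + 2 * k = 2 * n + 2) : ¬ f M R x y := by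
  intro hg
  have hk := H.T.hk
  have hc := H.T.hc
  have h4 := H.T.h4
  have hb := H.T.hb
  have hN := H.T.hN2
  have hg' : ∀ M' R' x' y' : ℕ, M' = M → R' = R → x' = x → y' = y → f M' R' x' y' := by
    rintro _ _ _ _ rfl rfl rfl rfl
    exact hg
  clear hg
  obtain ⟨a0, ha0⟩ : ∃ z, z = 6 * k + 7 := ⟨_, rfl⟩
  obtain ⟨b0, hb0⟩ : ∃ z, z + 3 = c := ⟨c - 3, by omega⟩
  obtain ⟨x0, hx0⟩ : ∃ z, z = 2 * n + 0 := ⟨_, rfl⟩
  obtain ⟨y0, hy0⟩ : ∃ z, z + 2 * k = 2 * n + 1 := ⟨2 * n + 1 - 2 * k, by omega⟩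
  refine check_sound hf (a0 := a0) (b0 := b0) (x0 := x0) (y0 := y0) cW9_m1_2_2_chk
    ⟨fun h => absurd h (by decide), fun h => absurd h (by decide), fun h => absurd h (by decide), by omega, by omega,
      by omega, by omega⟩ ?_ ?_
  · intro j m p q hr h
    obtain ⟨-, -, -, -, hp1, hp2, hq1, hq2⟩ := hr
    replace h := of_decide_eq_true h
    rcases h with h | h
    · obtain ⟨rfl, rfl, h⟩ := h
      exact (NW.w0v H.a8 (by omega) (by omega) (by omega) (by omega) (by omega) (by omega) (by omega)).mpr (by omega)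
    · obtain ⟨rfl, rfl, h⟩ := h
      exact hg' _ _ _ _ (by omega) (by omega) (by omega) (by omega)
  · intro j m p q hr h
    obtain ⟨-, -, -, -, hp1, hp2, hq1, hq2⟩ := hr
    replace h := of_decide_eq_true h
    exact h.elim

theorem cW9_0_2_3_chk : check 2 3 4 4 0 1 1 0 0
    (fun j n p q => decide ((j = 2 ∧ n = 1 ∧ (p = 2 ∧ q = 2))
      ∨ (j = 1 ∧ n = 1 ∧ (p = 1 ∧ q = 1))))
    (fun j n p q => decide (False))
    4
    0x3d05002280003d0f00228f = true := by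
  decide +kernel

theorem cW9_0_2_3 (hf : Rule f) {k c n M R x y : ℕ} (H : LI f k c n)
    (eM : M = 6 * k + 9) (eR : R = c) (ex : x = 2 * n + 2) (ey : y + 2 * k = 2 * n + 3) : ¬ f M R x y := by
  intro hg
  have hk := H.T.hk
  have hc := H.T.hc
  have h4 := H.T.h4
  have hb := H.T.hb
  have hN := H.T.hN2
  have hg' : ∀ M' R' x' y' : ℕ, M' = M → R' = R → x' = x → y' = y → f M' R' x' y' := by
    rintro _ _ _ _ rfl rfl rfl rfl
    exact hg
  clear hg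
  obtain ⟨a0, ha0⟩ : ∃ z, z = 6 * k + 8 := ⟨_, rfl⟩
  obtain ⟨b0, hb0⟩ : ∃ z, z + 1 = c := ⟨c - 1, by omega⟩
  obtain ⟨x0, hx0⟩ : ∃ z, z = 2 * n + 1 := ⟨_, rfl⟩
  obtain ⟨y0, hy0⟩ : ∃ z, z + 2 * k = 2 * n + 2 := ⟨2 * n + 2 - 2 * k, by omega⟩
  refine check_sound hf (a0 := a0) (b0 := b0) (x0 := x0) (y0 := y0) cW9_0_2_3_chk
    ⟨fun h => absurd h (by decide), fun h => absurd h (by decide), fun h => absurd h (by decide), by omega, by omega,
      by omega, by omega⟩ ?_ ?_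
  · intro j m p q hr h
    obtain ⟨-, -, -, -, hp1, hp2, hq1, hq2⟩ := hr
    replace h := of_decide_eq_true h
    rcases h with h | h
    · obtain ⟨rfl, rfl, h⟩ := h
      exact (NW.w0v H.a10 (by omega) (by omega) (by omega) (by omega) (by omega) (by omega) (by omega)).mpr (by omega)
    · obtain ⟨rfl, rfl, h⟩ := h
      exact hg' _ _ _ _ (by omega) (by omega) (by omega) (by omega)
  · intro j m p q hr h
    obtain ⟨-, -, -, -, hp1, hp2, hq1, hq2⟩ := hr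
    replace h := of_decide_eq_true h
    exact h.elim

theorem cW9_0_2_2_chk : check 2 4 4 6 1 0 0 0 0
    (fun j n p q => decide ((j = 1 ∧ n = 1 ∧ (p = 1 ∧ q = 1))
      ∨ (j = 2 ∧ n = 2 ∧ (p = 2 ∧ q = 4))))
    (fun j n p q => decide ((j = 1 ∧ n = 1 ∧ (1 ≤ p ∧ p ≤ 2 ∧ 2 ≤ q ∧ q ≤ 3))))
    10
    0x7f83008000003f8000800f004f07004387004307004087004007003f8f = true := by
  decide +kernel

theorem cW9_0_2_2 (hf : Rule f) {k c n M R x y : ℕ} (H : LI f k c n)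
    (eM : M = 6 * k + 9) (eR : R = c) (ex : x = 2 * n + 2) (ey : y + 2 * k = 2 * n + 2) : ¬ f M R x y := by
  intro hg
  have hk := H.T.hk
  have hc := H.T.hc
  have h4 := H.T.h4
  have hb := H.T.hb
  have hN := H.T.hN2
  have hg' : ∀ M' R' x' y' : ℕ, M' = M → R' = R → x' = x → y' = y → f M' R' x' y' := by
    rintro _ _ _ _ rfl rfl rfl rfl
    exact hg
  clear hg
  obtain ⟨a0, ha0⟩ : ∃ z, z = 6 * k + 7 := ⟨_, rfl⟩
  obtain ⟨b0, hb0⟩ : ∃ z, z + 2 = c := ⟨c - 2, by omega⟩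
  obtain ⟨x0, hx0⟩ : ∃ z, z = 2 * n + 0 := ⟨_, rfl⟩
  obtain ⟨y0, hy0⟩ : ∃ z, z + 2 * k + 2 = 2 * n := ⟨2 * n - 2 * k - 2, by omega⟩
  refine check_sound hf (a0 := a0) (b0 := b0) (x0 := x0) (y0 := y0) cW9_0_2_2_chk
    ⟨fun h => absurd h (by decide), fun h => absurd h (by decide), fun h => absurd h (by decide), by omega, by omega,
      by omega, by omega⟩ ?_ ?_
  · intro j m p q hr h
    obtain ⟨-, -, -, -, hp1, hp2, hq1, hq2⟩ := hr
    replace h := of_decide_eq_true h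
    rcases h with h | h
    · obtain ⟨rfl, rfl, h⟩ := h
      exact (NW.w1v H.a8 (by omega) (by omega) (by omega) (by omega) (by omega) (by omega) (by omega) (by omega)).mpr (by omega)
    · obtain ⟨rfl, rfl, h⟩ := h
      exact hg' _ _ _ _ (by omega) (by omega) (by omega) (by omega)
  · intro j m p q hr h
    obtain ⟨-, -, -, -, hp1, hp2, hq1, hq2⟩ := hr
    replace h := of_decide_eq_true h
    obtain ⟨rfl, rfl, h⟩ := h
    exact mt (NW.w1v H.a8 (by omega) (by omega) (by omega) (by omega) (by omega) (by omega) (by omega) (by omega)).mp (by omega)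

end Pool.Agent.SNT.LRI
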