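import Pool.Agent.SNT.LRD

set_option autoImplicit false
set_option linter.unusedVariables false
set_option synthInstance.maxSize 100000
set_option synthInstance.maxHeartbeats 4000000

/-! Local certificates of the location of the top leader (7). -/

namespace Pool.Agent.SNT.LRI

open Pool.Agent.SNT Pool.Agent.SNT.Loc Pool.Agent.SNT.LW Pool.Agent.SNT.NHZ

variable {f : ℕ → ℕ → ℕ → ℕ → Prop}

theorem cW1_0_0_4_chk : check 12 8 10 10 0 0 1 1 0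
    (fun j n p q => decide ((j = 4 ∧ n = 2 ∧ ((p = 2 ∧ ((q = 1) ∨ (q = 3))) ∨ (p = 4 ∧ ((q = 3) ∨ (q = 5))) ∨ (p = 5 ∧ q = 2) ∨ (p = 6 ∧ ((q = 5) ∨ (q = 7))) ∨ (p = 7 ∧ q = 4) ∨ (p = 8 ∧ q = 7)))
      ∨ (j = 10 ∧ n = 4 ∧ ((p = 4 ∧ q = 3) ∨ (p = 6 ∧ ((q = 3) ∨ (q = 5))) ∨ (p = 8 ∧ ((q = 5) ∨ (q = 7)))))
      ∨ (j = 12 ∧ n = 6 ∧ ((p = 6 ∧ ((q = 3) ∨ (q = 5))) ∨ (p = 8 ∧ ((q = 5) ∨ (q = 7)))))
      ∨ (j = 6 ∧ n = 2 ∧ ((p = 4 ∧ q = 1) ∨ (p = 6 ∧ q = 3) ∨ (p = 8 ∧ q = 5)))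
      ∨ (j = 6 ∧ n = 1 ∧ ((p = 4 ∧ q = 2) ∨ (p = 6 ∧ q = 4) ∨ (p = 8 ∧ q = 6)))
      ∨ (j = 6 ∧ n = 4 ∧ ((p = 6 ∧ ((q = 5) ∨ (q = 7))) ∨ (p = 8 ∧ q = 7)))
      ∨ (j = 4 ∧ n = 4 ∧ ((p = 4 ∧ q = 1) ∨ (p = 6 ∧ q = 3) ∨ (p = 8 ∧ q = 5)))
      ∨ (j = 4 ∧ n = 3 ∧ ((p = 4 ∧ q = 2) ∨ (p = 6 ∧ q = 4) ∨ (p = 8 ∧ q = 6)))
      ∨ (j = 8 ∧ n = 2 ∧ ((p = 4 ∧ q = 3) ∨ (p = 6 ∧ q = 5)))
      ∨ (j = 10 ∧ n = 5 ∧ ((p = 6 ∧ q = 2) ∨ (p = 8 ∧ q = 4)))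
      ∨ (j = 2 ∧ n = 1 ∧ ((p = 4 ∧ q = 2) ∨ (p = 6 ∧ q = 4)))
      ∨ (j = 8 ∧ n = 3 ∧ (p = 6 ∧ q = 2))
      ∨ (j = 3 ∧ n = 6 ∧ (p = 1 ∧ q = 3))))
    (fun j n p q => decide ((j = 4 ∧ n = 3 ∧ ((p = 1 ∧ 2 ≤ q ∧ q ≤ 4) ∨ (p = 2 ∧ 1 ≤ q ∧ q ≤ 4) ∨ (p = 3 ∧ 1 ≤ q ∧ q ≤ 5) ∨ (p = 4 ∧ 3 ≤ q ∧ q ≤ 5) ∨ (p = 5 ∧ 3 ≤ q ∧ q ≤ 4)))
      ∨ (j = 3 ∧ n = 3 ∧ ((p = 1 ∧ 2 ≤ q ∧ q ≤ 4) ∨ (p = 2 ∧ 1 ≤ q ∧ q ≤ 4) ∨ (p = 3 ∧ 1 ≤ q ∧ q ≤ 5) ∨ (p = 4 ∧ 3 ≤ q ∧ q ≤ 5) ∨ (p = 5 ∧ 3 ≤ q ∧ q ≤ 4)))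
      ∨ (j = 10 ∧ n = 5 ∧ ((5 ≤ p ∧ p ≤ 6 ∧ 3 ≤ q ∧ q ≤ 6) ∨ (7 ≤ p ∧ p ≤ 8 ∧ 5 ≤ q ∧ q ≤ 8)))
      ∨ (j = 8 ∧ n = 3 ∧ ((p = 3 ∧ 3 ≤ q ∧ q ≤ 4) ∨ (p = 4 ∧ 3 ≤ q ∧ q ≤ 5) ∨ (5 ≤ p ∧ p ≤ 6 ∧ 3 ≤ q ∧ q ≤ 6) ∨ (p = 7 ∧ 5 ≤ q ∧ q ≤ 6)))
      ∨ (j = 3 ∧ n = 4 ∧ ((((p = 1) ∨ (p = 3) ∨ (p = 5)) ∧ ((q = 2) ∨ (q = 4))) ∨ (p = 2 ∧ 1 ≤ q ∧ q ≤ 4) ∨ (p = 4 ∧ 2 ≤ q ∧ q ≤ 5)))
      ∨ (j = 3 ∧ n = 1 ∧ ((3 ≤ p ∧ p ≤ 4 ∧ 1 ≤ q ∧ q ≤ 2) ∨ (5 ≤ p ∧ p ≤ 6 ∧ 3 ≤ q ∧ q ≤ 4) ∨ (7 ≤ p ∧ p ≤ 8 ∧ 5 ≤ q ∧ q ≤ 6)))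
      ∨ (j = 7 ∧ n = 3 ∧ ((p = 2 ∧ 3 ≤ q ∧ q ≤ 4) ∨ (p = 3 ∧ 4 ≤ q ∧ q ≤ 6) ∨ (p = 4 ∧ 5 ≤ q ∧ q ≤ 7) ∨ (p = 5 ∧ 6 ≤ q ∧ q ≤ 7)))
      ∨ (j = 6 ∧ n = 3 ∧ ((p = 2 ∧ 3 ≤ q ∧ q ≤ 4) ∨ (p = 3 ∧ 4 ≤ q ∧ q ≤ 6) ∨ (p = 4 ∧ 5 ≤ q ∧ q ≤ 7) ∨ (p = 5 ∧ 6 ≤ q ∧ q ≤ 7)))
      ∨ (j = 7 ∧ n = 4 ∧ ((p = 2 ∧ 3 ≤ q ∧ q ≤ 4) ∨ (p = 3 ∧ 4 ≤ q ∧ q ≤ 6) ∨ (p = 4 ∧ 5 ≤ q ∧ q ≤ 7) ∨ (p = 5 ∧ 6 ≤ q ∧ q ≤ 7)))
      ∨ (j = 4 ∧ n = 2 ∧ ((p = 3 ∧ q = 2) ∨ (p = 4 ∧ 1 ≤ q ∧ q ≤ 2) ∨ (p = 5 ∧ q = 4) ∨ (p = 6 ∧ 3 ≤ q ∧ q ≤ 4) ∨ (p = 7 ∧ q = 6) ∨ (p = 8 ∧ 5 ≤ q ∧ q ≤ 6)))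
      ∨ (j = 3 ∧ n = 2 ∧ ((p = 3 ∧ q = 2) ∨ (p = 4 ∧ 1 ≤ q ∧ q ≤ 2) ∨ (p = 5 ∧ q = 4) ∨ (p = 6 ∧ 3 ≤ q ∧ q ≤ 4) ∨ (p = 7 ∧ q = 6) ∨ (p = 8 ∧ 5 ≤ q ∧ q ≤ 6)))
      ∨ (j = 3 ∧ n = 5 ∧ ((2 ≤ p ∧ p ≤ 3 ∧ 3 ≤ q ∧ q ≤ 4) ∨ (4 ≤ p ∧ p ≤ 5 ∧ 2 ≤ q ∧ q ≤ 3)))
      ∨ (j = 9 ∧ n = 3 ∧ ((p = 3 ∧ 3 ≤ q ∧ q ≤ 4) ∨ (p = 4 ∧ 4 ≤ q ∧ q ≤ 5) ∨ (p = 5 ∧ 5 ≤ q ∧ q ≤ 6) ∨ (p = 6 ∧ q = 6)))
      ∨ (j = 9 ∧ n = 4 ∧ ((p = 3 ∧ 3 ≤ q ∧ q ≤ 4) ∨ (p = 4 ∧ 4 ≤ q ∧ q ≤ 5) ∨ (p = 5 ∧ 5 ≤ q ∧ q ≤ 6) ∨ (p = 6 ∧ q = 6)))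
      ∨ (j = 6 ∧ n = 1 ∧ ((p = 2 ∧ 2 ≤ q ∧ q ≤ 3) ∨ (p = 3 ∧ 2 ≤ q ∧ q ≤ 4) ∨ (p = 4 ∧ 3 ≤ q ∧ q ≤ 4)))
      ∨ (j = 11 ∧ n = 5 ∧ ((p = 5 ∧ 5 ≤ q ∧ q ≤ 6) ∨ (p = 6 ∧ q = 6) ∨ (p = 7 ∧ 7 ≤ q ∧ q ≤ 8) ∨ (p = 8 ∧ q = 8)))
      ∨ (j = 5 ∧ n = 3 ∧ ((p = 1 ∧ 3 ≤ q ∧ q ≤ 4) ∨ (p = 2 ∧ q = 4) ∨ (p = 3 ∧ 5 ≤ q ∧ q ≤ 6) ∨ (p = 4 ∧ q = 6)))
      ∨ (j = 5 ∧ n = 4 ∧ ((p = 1 ∧ 3 ≤ q ∧ q ≤ 4) ∨ (p = 2 ∧ q = 4) ∨ (p = 3 ∧ 5 ≤ q ∧ q ≤ 6) ∨ (p = 4 ∧ q = 6)))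
      ∨ (j = 11 ∧ n = 6 ∧ ((p = 5 ∧ 5 ≤ q ∧ q ≤ 6) ∨ (p = 6 ∧ q = 6) ∨ (p = 7 ∧ 7 ≤ q ∧ q ≤ 8) ∨ (p = 8 ∧ q = 8)))
      ∨ (j = 7 ∧ n = 1 ∧ ((p = 2 ∧ 2 ≤ q ∧ q ≤ 3) ∨ (p = 3 ∧ 3 ≤ q ∧ q ≤ 4) ∨ (p = 4 ∧ q = 4)))
      ∨ (j = 7 ∧ n = 2 ∧ ((p = 2 ∧ 2 ≤ q ∧ q ≤ 3) ∨ (p = 3 ∧ 3 ≤ q ∧ q ≤ 4) ∨ (p = 4 ∧ q = 4)))
      ∨ (j = 6 ∧ n = 4 ∧ ((p = 6 ∧ 3 ≤ q ∧ q ≤ 4) ∨ (p = 7 ∧ q = 6) ∨ (p = 8 ∧ 5 ≤ q ∧ q ≤ 6)))
      ∨ (j = 1 ∧ n = 6 ∧ (1 ≤ p ∧ p ≤ 2 ∧ 2 ≤ q ∧ q ≤ 3))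
      ∨ (j = 1 ∧ n = 5 ∧ (1 ≤ p ∧ p ≤ 2 ∧ 2 ≤ q ∧ q ≤ 3))
      ∨ (j = 9 ∧ n = 5 ∧ ((p = 5 ∧ 6 ≤ q ∧ q ≤ 7) ∨ (p = 6 ∧ q = 7)))
      ∨ (j = 8 ∧ n = 5 ∧ ((p = 5 ∧ 6 ≤ q ∧ q ≤ 7) ∨ (p = 6 ∧ q = 7)))
      ∨ (j = 9 ∧ n = 6 ∧ ((p = 5 ∧ 6 ≤ q ∧ q ≤ 7) ∨ (p = 6 ∧ q = 7)))
      ∨ (j = 6 ∧ n = 2 ∧ ((p = 4 ∧ q = 2) ∨ (p = 6 ∧ q = 4) ∨ (p = 8 ∧ q = 6)))
      ∨ (j = 3 ∧ n = 6 ∧ ((p = 2 ∧ 3 ≤ q ∧ q ≤ 4) ∨ (p = 3 ∧ q = 4)))
      ∨ (j = 4 ∧ n = 4 ∧ (4 ≤ p ∧ p ≤ 5 ∧ q = 2))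
      ∨ (j = 5 ∧ n = 2 ∧ (p = 5 ∧ q = 6))))
    560
    0x6cf03085f000a21ea0a3e830a75800c3d7a0dcd800dcc800f5dc20f5d4a0a3e830a75800c3d7a0dcd000dcd040a3e830a75800c3d7a0dd2000f62ca0dc8000dc804091780091781077d00077d010bce0308a88008a88107128007181a074a80074a840713830745800745840ef3830f25800f2584071383074580077d3a0782000782040bd3830c05800c05840d6e030f30800f30841287030f62000f62040754830755000755041288030f62800f6284072303075580075584127c0310ec8012825a0f5d000f5d0407180308a80008a80408e48309170009170408a403057e80057e840ef3830bce000bce040ef3030bcd800bcd840ef9030f2b000f2b040ef3830bce000bce8a08a90008a9040d6e030da0800da0840ef3830bce000bce8a08ae0008ae040d6e030f30000f30040bc90308a38008a3840bd4030c06000c06041282030f5c800f5c84071383074580077d3a0912000912040ef3830d95800d958408b30308e58008e5840ef9030bd3800bd3810a39000a39040d6e030da0000da0040a3f030a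76000a760412870310f78010f784071e03075000075004071e83075080075084071903074b00074b040bd4830a3a000a3a0408ae8308e08008e084127d030f57800f578409e0000a173209ea0009ea040d68030d9a800d9a8408e48308e50008e50407140307460007460409d4000b64ca0a0b8309cf0009cf0408ae0308e00008e0040ef9030d9b000d9b0407548307870007870407548308e48008e4840d68030d68800d68840a3f850a3a000bd4d20bcf5208ae8008ae8404578305ec8005ec840eee030bc8800bc8840ef8830f2a800f2a8409d5000b6a5209df000a16ba0a1b800a1080068180068c800a533a0a483a06b93a06c43a141780141680140c80140b8010c40010b900109380109280108880108780107d800d35000d04800cf9800a53800a49800a488009ee8009e38009d88009bd0009b20009a700073280072780071c8007010006f60006eb0006cf8006c90006c58006c48006be0006ba8006b98006af8006ae8005e28003720003670014178f14168f140c8f140b8f128807128307128287127d07127807127787125607125107125087124b0712460712458710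f28710f18710e78710e68710c60710c58710c50710c48710c40f10c10710c08710c00710bf8710bb0710ba8710ba0710b98710b90f10b60710b58710b50710b48710938f10928f10888f10878f107d8f0f5d870f58870f58070f2b870f26870f26070ef9070ef4070ef3870eee870eee070ee9070ee8870ec7070ec2070ec1870ebc870ebc070eb7070eb6870dd2870dc8870dc7870d9b870d96870d96070d6d870d63870d62870d58870d3c070d3b870d37070d36870d36070d35870d350f0d32070d31870d31070d30870d2c870d2c070d2b870d27070d26870d048f0cf98f0bd4870bd4070bcf870bcf070bce870bca070bc9870bc9070bc4070bc3870ba2870ba2070b9d870b9d070b9c870b98070b97870b97070b92070b91870b6a070b65070b64870b5f870b5f070b38070b33070b32870b2d870b2d070aa7870a538f0a53070a52870a4e070a4d870a498f0a488f0a48070a47870a44870a43870a42870a39870a38870a12870a12070a0d870a0d070a0c870a08070a07870a07070a02070a018709ef0709ee8f09ea8709e40709e38f09df8709d90709d88f09d48709bd0f09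b20f09a80709a78709a70f09a30709a28709a207099d87099d0708af0708aa0708a98708a407089f07089e87087d07087807087787087207086d07086c87085007078787077c8707328f07278f072287072207071d07071c8f071987071887071787070e8707010f06f60f06f10706f08706ec8706ec0706eb8706eb0f06e78706e70706e68706e60706e58706e20706e18706e10706e08706dd0706dc8706dc0706cf8f06cf0706ce8706ca0706c98706c90f06c58f06c48f06c40706c38706bf0706be8706be0f06ba8f06b98f06b90706b88706b40706b38706af8f06ae8f05ed0705e80705e78705e28f05c48705c40705bf8705bf0705bb0705ba8705b60705b587059307059207058e87058e07058d87058d07058907058807058407058387058307058287057f07057e07056107056087055c87055c07055b87055787055707055687055607055587055207055187055107055087054d07054c87054c07053f07053e87053a07053407053387052f07052907052887052407050d07050c8705080705078705020705018704fd0704fc8704f70704f68704f20704f18704528703720f03670f02c78702c70702c28702c207029587029507029087029007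 = true := by
  decide +kernel

theorem cW1_0_0_4 (hf : Rule f) {k c n M R x y : ℕ} (H : LI f k c n)
    (eM : M = 6 * k + 1) (eR : R = c) (ex : x = 2 * n) (ey : y + 2 * k = 2 * n + 4) : ¬ f M R x y := by
  intro hg
  have hk := H.T.hk
  have hc := H.T.hc
  have h4 := H.T.h4
  have hb := H.T.hb
  have hN := H.T.hN2
  have hg' : ∀ M' R' x' y' : ℕ, M' = M → R' = R → x' = x → y' = y → f M' R' x' y' := by
    rintro _ _ _ _ rfl rfl rfl rfl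
    exact hg
  clear hg
  obtain ⟨a0, ha0⟩ : ∃ z, z + 2 = 6 * k := ⟨6 * k - 2, by omega⟩
  obtain ⟨b0, hb0⟩ : ∃ z, z + 6 = c := ⟨c - 6, by omega⟩
  obtain ⟨x0, hx0⟩ : ∃ z, z + 1 = 2 * n := ⟨2 * n - 1, by omega⟩
  obtain ⟨y0, hy0⟩ : ∃ z, z + 2 * k = 2 * n + 1 := ⟨2 * n + 1 - 2 * k, by omega⟩
  refine check_sound hf (a0 := a0) (b0 := b0) (x0 := x0) (y0 := y0) cW1_0_0_4_chk
    ⟨fun h => absurd h (by decide), fun h => absurd h (by decide), fun h => absurd h (by decide), by omega, by omega,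
      by omega, by omega⟩ ?_ ?_
  · intro j m p q hr h
    obtain ⟨-, -, -, -, hp1, hp2, hq1, hq2⟩ := hr
    replace h := of_decide_eq_true h
    rcases h with h | h | h | h | h | h | h | h | h | h | h | h | h
    · obtain ⟨rfl, rfl, h⟩ := h
      exact (WrapC.v0 H.a2 (by omega) (by omega) (by omega) (by omega) (by omega) (by omega) (by omega)).mpr (by omega)
    · obtain ⟨rfl, rfl, h⟩ := h
      exact (NW.w0v H.a8 (by omega) (by omega) (by omega) (by omega) (by omega) (by omega) (by omega)).mpr (by omega)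
    · obtain ⟨rfl, rfl, h⟩ := h
      exact (NW.w0v H.a10 (by omega) (by omega) (by omega) (by omega) (by omega) (by omega) (by omega)).mpr (by omega)
    · obtain ⟨rfl, rfl, h⟩ := h
      exact (WrapC.v2 H.b4 (by omega) (by omega) (by omega) (by omega) (by omega) (by omega) (by omega)).mpr (by omega)
    · obtain ⟨rfl, rfl, h⟩ := h
      exact (WrapC.v1 H.b4 (by omega) (by omega) (by omega) (by omega) (by omega) (by omega) (by omega) (by omega)).mpr (by omega)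
    · obtain ⟨rfl, rfl, h⟩ := h
      exact (WrapC.v0 H.a4 (by omega) (by omega) (by omega) (by omega) (by omega) (by omega) (by omega)).mpr (by omega)
    · obtain ⟨rfl, rfl, h⟩ := h
      exact (WrapC.v2 H.a2 (by omega) (by omega) (by omega) (by omega) (by omega) (by omega) (by omega)).mpr (by omega)
    · obtain ⟨rfl, rfl, h⟩ := h
      exact (WrapC.v1 H.a2 (by omega) (by omega) (by omega) (by omega) (by omega) (by omega) (by omega) (by omega)).mpr (by omega)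
    · obtain ⟨rfl, rfl, h⟩ := h
      exact (WrapC.v4 H.b6 (by omega) (by omega) (by omega) (by omega) (by omega) (by omega) (by omega)).mpr (by omega)
    · obtain ⟨rfl, rfl, h⟩ := h
      exact (NW.w1v H.a8 (by omega) (by omega) (by omega) (by omega) (by omega) (by omega) (by omega) (by omega)).mpr (by omega)
    · obtain ⟨rfl, rfl, h⟩ := h
      exact (WrapC.v1 H.a0 (by omega) (by omega) (by omega) (by omega) (by omega) (by omega) (by omega) (by omega)).mpr (by omega)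
    · obtain ⟨rfl, rfl, h⟩ := h
      exact (WrapC.v1 H.a6 (by omega) (by omega) (by omega) (by omega) (by omega) (by omega) (by omega) (by omega)).mpr (by omega)
    · obtain ⟨rfl, rfl, h⟩ := h
      exact hg' _ _ _ _ (by omega) (by omega) (by omega) (by omega)
  · intro j m p q hr h
    obtain ⟨-, -, -, -, hp1, hp2, hq1, hq2⟩ := hr
    replace h := of_decide_eq_true h
    rcases h with h | h | h | h | h | h | h | h | h | h | h | h | h | h | h | h | h | h | h | h | h | h | h | h | h | h | h | h | h | h | h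
    · obtain ⟨rfl, rfl, h⟩ := h
      exact mt (WrapC.v1 H.a2 (by omega) (by omega) (by omega) (by omega) (by omega) (by omega) (by omega) (by omega)).mp (by omega)
    · obtain ⟨rfl, rfl, h⟩ := h
      exact H.eo _ _ _ _ (by omega) (by omega) (by omega) (by omega) (by omega) (by omega) (by omega)
    · obtain ⟨rfl, rfl, h⟩ := h
      exact mt (NW.w1v H.a8 (by omega) (by omega) (by omega) (by omega) (by omega) (by omega) (by omega) (by omega)).mp (by omega)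
    · obtain ⟨rfl, rfl, h⟩ := h
      exact mt (WrapC.v1 H.a6 (by omega) (by omega) (by omega) (by omega) (by omega) (by omega) (by omega) (by omega)).mp (by omega)
    · obtain ⟨rfl, rfl, h⟩ := h
      exact H.eo _ _ _ _ (by omega) (by omega) (by omega) (by omega) (by omega) (by omega) (by omega)
    · obtain ⟨rfl, rfl, h⟩ := h
      exact H.eo _ _ _ _ (by omega) (by omega) (by omega) (by omega) (by omega) (by omega) (by omega)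
    · obtain ⟨rfl, rfl, h⟩ := h
      exact NHT.rIn hf H.T (t := 3) (p := 1) (j := 1) (by omega) (by omega) (by omega) (by omega) (by omega) (by omega) (by omega) (by omega)
    · obtain ⟨rfl, rfl, h⟩ := h
      exact NHT.rIn hf H.T (t := 3) (p := 0) (j := 1) (by omega) (by omega) (by omega) (by omega) (by omega) (by omega) (by omega) (by omega)
    · obtain ⟨rfl, rfl, h⟩ := h
      exact NHT.pmi hf H.T (j := 1) (by omega) (by omega) (by omega) (by omega) (by omega) (by omega)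
    · obtain ⟨rfl, rfl, h⟩ := h
      exact mt (WrapC.v0 H.a2 (by omega) (by omega) (by omega) (by omega) (by omega) (by omega) (by omega)).mp (by omega)
    · obtain ⟨rfl, rfl, h⟩ := h
      exact H.eo _ _ _ _ (by omega) (by omega) (by omega) (by omega) (by omega) (by omega) (by omega)
    · obtain ⟨rfl, rfl, h⟩ := h
      exact H.eo _ _ _ _ (by omega) (by omega) (by omega) (by omega) (by omega) (by omega) (by omega)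
    · obtain ⟨rfl, rfl, h⟩ := h
      exact NHT.rIn hf H.T (t := 3) (p := 1) (j := 0) (by omega) (by omega) (by omega) (by omega) (by omega) (by omega) (by omega) (by omega)
    · obtain ⟨rfl, rfl, h⟩ := h
      exact NHT.pmi hf H.T (j := 0) (by omega) (by omega) (by omega) (by omega) (by omega) (by omega)
    · obtain ⟨rfl, rfl, h⟩ := h
      exact mt (WrapC.v1 H.b4 (by omega) (by omega) (by omega) (by omega) (by omega) (by omega) (by omega) (by omega)).mp (by omega)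
    · obtain ⟨rfl, rfl, h⟩ := h
      exact NW.rm1i hf H.T (p := 1) (j := 0) (by omega) (by omega) (by omega) (by omega) (by omega) (by omega) (by omega)
    · obtain ⟨rfl, rfl, h⟩ := h
      exact NHT.rIn hf H.T (t := 3) (p := 1) (j := 2) (by omega) (by omega) (by omega) (by omega) (by omega) (by omega) (by omega) (by omega)
    · obtain ⟨rfl, rfl, h⟩ := h
      exact NHT.pmi hf H.T (j := 2) (by omega) (by omega) (by omega) (by omega) (by omega) (by omega)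
    · obtain ⟨rfl, rfl, h⟩ := h
      exact NHT.p0i hf H.T (j := 0) (by omega) (by omega) (by omega) (by omega) (by omega) (by omega)
    · obtain ⟨rfl, rfl, h⟩ := h
      exact NHT.rIn hf H.T (t := 2) (p := 1) (j := 0) (by omega) (by omega) (by omega) (by omega) (by omega) (by omega) (by omega) (by omega)
    · obtain ⟨rfl, rfl, h⟩ := h
      exact NHT.pIn hf H.T (t := 3) (j := 0) (by omega) (by omega) (by omega) (by omega) (by omega) (by omega) (by omega)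
    · obtain ⟨rfl, rfl, h⟩ := h
      exact mt (WrapC.v0 H.a4 (by omega) (by omega) (by omega) (by omega) (by omega) (by omega) (by omega)).mp (by omega)
    · obtain ⟨rfl, rfl, h⟩ := h
      exact H.lw _ _ _ _ (by omega) (by omega) (by omega) (by omega) (by omega) (by omega)
    · obtain ⟨rfl, rfl, h⟩ := h
      exact H.lw _ _ _ _ (by omega) (by omega) (by omega) (by omega) (by omega) (by omega)
    · obtain ⟨rfl, rfl, h⟩ := h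
      exact NW.rm1i hf H.T (p := 1) (j := 1) (by omega) (by omega) (by omega) (by omega) (by omega) (by omega) (by omega)
    · obtain ⟨rfl, rfl, h⟩ := h
      exact NW.rm1i hf H.T (p := 0) (j := 1) (by omega) (by omega) (by omega) (by omega) (by omega) (by omega) (by omega)
    · obtain ⟨rfl, rfl, h⟩ := h
      exact NHT.p0i hf H.T (j := 1) (by omega) (by omega) (by omega) (by omega) (by omega) (by omega)
    · obtain ⟨rfl, rfl, h⟩ := h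
      exact mt (WrapC.v2 H.b4 (by omega) (by omega) (by omega) (by omega) (by omega) (by omega) (by omega)).mp (by omega)
    · obtain ⟨rfl, rfl, h⟩ := h
      exact H.eo _ _ _ _ (by omega) (by omega) (by omega) (by omega) (by omega) (by omega) (by omega)
    · obtain ⟨rfl, rfl, h⟩ := h
      exact mt (WrapC.v2 H.a2 (by omega) (by omega) (by omega) (by omega) (by omega) (by omega) (by omega)).mp (by omega)
    · obtain ⟨rfl, rfl, h⟩ := h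
      exact NHT.pIn hf H.T (t := 3) (j := 1) (by omega) (by omega) (by omega) (by omega) (by omega) (by omega) (by omega)

end Pool.Agent.SNT.LRI
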