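import Pool.Agent.SNT.LRD

set_option autoImplicit false
set_option linter.unusedVariables false
set_option synthInstance.maxSize 100000
set_option synthInstance.maxHeartbeats 4000000

/-! Local certificates of the location of the top leader (8). -/

namespace Pool.Agent.SNT.LRI

open Pool.Agent.SNT Pool.Agent.SNT.Loc Pool.Agent.SNT.LW Pool.Agent.SNT.NHZ

variable {f : ℕ → ℕ → ℕ → ℕ → Prop}

theorem cW1_0_m2_4_chk : check 12 8 12 10 0 0 1 1 0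
    (fun j n p q => decide ((j = 4 ∧ n = 2 ∧ ((p = 2 ∧ q = 1) ∨ (p = 4 ∧ ((q = 1) ∨ (q = 3))) ∨ (p = 6 ∧ ((q = 3) ∨ (q = 5))) ∨ (p = 7 ∧ q = 2) ∨ (p = 8 ∧ ((q = 5) ∨ (q = 7))) ∨ (p = 9 ∧ q = 4) ∨ (p = 10 ∧ q = 7)))
      ∨ (j = 10 ∧ n = 4 ∧ ((p = 6 ∧ q = 3) ∨ (p = 8 ∧ ((q = 3) ∨ (q = 5))) ∨ (p = 10 ∧ ((q = 5) ∨ (q = 7)))))
      ∨ (j = 6 ∧ n = 4 ∧ ((p = 8 ∧ ((q = 5) ∨ (q = 7))) ∨ (p = 9 ∧ q = 4) ∨ (p = 10 ∧ q = 7)))
      ∨ (j = 12 ∧ n = 6 ∧ ((p = 8 ∧ ((q = 3) ∨ (q = 5))) ∨ (p = 10 ∧ ((q = 5) ∨ (q = 7)))))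
      ∨ (j = 8 ∧ n = 2 ∧ ((p = 4 ∧ q = 1) ∨ (p = 6 ∧ q = 3) ∨ (p = 8 ∧ q = 5)))
      ∨ (j = 6 ∧ n = 2 ∧ ((p = 6 ∧ q = 1) ∨ (p = 8 ∧ q = 3) ∨ (p = 10 ∧ q = 5)))
      ∨ (j = 6 ∧ n = 1 ∧ ((p = 6 ∧ q = 2) ∨ (p = 8 ∧ q = 4) ∨ (p = 10 ∧ q = 6)))
      ∨ (j = 4 ∧ n = 4 ∧ ((p = 6 ∧ q = 1) ∨ (p = 8 ∧ q = 3) ∨ (p = 10 ∧ q = 5)))
      ∨ (j = 4 ∧ n = 3 ∧ ((p = 6 ∧ q = 2) ∨ (p = 8 ∧ q = 4) ∨ (p = 10 ∧ q = 6)))
      ∨ (j = 10 ∧ n = 5 ∧ ((p = 8 ∧ q = 2) ∨ (p = 10 ∧ q = 4)))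
      ∨ (j = 2 ∧ n = 1 ∧ ((p = 6 ∧ q = 2) ∨ (p = 8 ∧ q = 4)))
      ∨ (j = 8 ∧ n = 4 ∧ (p = 10 ∧ q = 3))
      ∨ (j = 8 ∧ n = 3 ∧ (p = 8 ∧ q = 2))
      ∨ (j = 3 ∧ n = 6 ∧ (p = 1 ∧ q = 3))))
    (fun j n p q => decide ((j = 8 ∧ n = 3 ∧ ((p = 4 ∧ 2 ≤ q ∧ q ≤ 3) ∨ (p = 5 ∧ 2 ≤ q ∧ q ≤ 4) ∨ (p = 6 ∧ 3 ≤ q ∧ q ≤ 5) ∨ (7 ≤ p ∧ p ≤ 8 ∧ 3 ≤ q ∧ q ≤ 7) ∨ (p = 9 ∧ 3 ≤ q ∧ q ≤ 6)))
      ∨ (j = 10 ∧ n = 5 ∧ ((p = 6 ∧ 4 ≤ q ∧ q ≤ 5) ∨ (7 ≤ p ∧ p ≤ 8 ∧ 3 ≤ q ∧ q ≤ 6) ∨ (9 ≤ p ∧ p ≤ 10 ∧ 5 ≤ q ∧ q ≤ 8)))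
      ∨ (j = 4 ∧ n = 3 ∧ ((p = 2 ∧ 2 ≤ q ∧ q ≤ 3) ∨ (p = 3 ∧ 2 ≤ q ∧ q ≤ 4) ∨ (p = 4 ∧ 2 ≤ q ∧ q ≤ 5) ∨ (5 ≤ p ∧ p ≤ 6 ∧ 3 ≤ q ∧ q ≤ 5) ∨ (p = 7 ∧ 3 ≤ q ∧ q ≤ 4)))
      ∨ (j = 3 ∧ n = 3 ∧ ((3 ≤ p ∧ p ≤ 4 ∧ 2 ≤ q ∧ q ≤ 4) ∨ (5 ≤ p ∧ p ≤ 6 ∧ 3 ≤ q ∧ q ≤ 5) ∨ (p = 7 ∧ 3 ≤ q ∧ q ≤ 4)))
      ∨ (j = 3 ∧ n = 1 ∧ ((5 ≤ p ∧ p ≤ 6 ∧ 1 ≤ q ∧ q ≤ 2) ∨ (7 ≤ p ∧ p ≤ 8 ∧ 3 ≤ q ∧ q ≤ 4) ∨ (9 ≤ p ∧ p ≤ 10 ∧ 5 ≤ q ∧ q ≤ 6)))
      ∨ (j = 3 ∧ n = 4 ∧ ((((p = 3) ∨ (p = 7)) ∧ ((q = 2) ∨ (q = 4))) ∨ (p = 4 ∧ 2 ≤ q ∧ q ≤ 4) ∨ (p = 5 ∧ q = 4) ∨ (p = 6 ∧ 2 ≤ q ∧ q ≤ 5)))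
      ∨ (j = 7 ∧ n = 3 ∧ ((p = 3 ∧ 2 ≤ q ∧ q ≤ 3) ∨ (p = 4 ∧ q = 3) ∨ (p = 5 ∧ 4 ≤ q ∧ q ≤ 5) ∨ (p = 6 ∧ 5 ≤ q ∧ q ≤ 6) ∨ (p = 7 ∧ 6 ≤ q ∧ q ≤ 7) ∨ (p = 8 ∧ q = 7)))
      ∨ (j = 3 ∧ n = 5 ∧ ((2 ≤ p ∧ p ≤ 4 ∧ 3 ≤ q ∧ q ≤ 4) ∨ (6 ≤ p ∧ p ≤ 7 ∧ 2 ≤ q ∧ q ≤ 3)))
      ∨ (j = 6 ∧ n = 3 ∧ ((p = 3 ∧ 2 ≤ q ∧ q ≤ 3) ∨ (p = 4 ∧ 3 ≤ q ∧ q ≤ 4) ∨ (p = 5 ∧ 4 ≤ q ∧ q ≤ 5) ∨ (p = 6 ∧ 5 ≤ q ∧ q ≤ 6) ∨ (p = 7 ∧ q = 6)))
      ∨ (j = 9 ∧ n = 3 ∧ ((p = 4 ∧ 2 ≤ q ∧ q ≤ 3) ∨ (p = 5 ∧ 3 ≤ q ∧ q ≤ 4) ∨ (p = 6 ∧ 4 ≤ q ∧ q ≤ 5) ∨ (p = 7 ∧ 5 ≤ q ∧ q ≤ 6) ∨ (p = 8 ∧ q = 6)))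
      ∨ (j = 7 ∧ n = 4 ∧ ((p = 3 ∧ 2 ≤ q ∧ q ≤ 3) ∨ (p = 4 ∧ q = 3) ∨ (p = 5 ∧ 4 ≤ q ∧ q ≤ 5) ∨ (p = 6 ∧ 5 ≤ q ∧ q ≤ 6) ∨ (p = 7 ∧ 6 ≤ q ∧ q ≤ 7)))
      ∨ (j = 9 ∧ n = 4 ∧ ((p = 4 ∧ 2 ≤ q ∧ q ≤ 3) ∨ (p = 5 ∧ 3 ≤ q ∧ q ≤ 4) ∨ (p = 6 ∧ 4 ≤ q ∧ q ≤ 5) ∨ (p = 7 ∧ 5 ≤ q ∧ q ≤ 6) ∨ (p = 8 ∧ q = 6)))
      ∨ (j = 6 ∧ n = 1 ∧ ((3 ≤ p ∧ p ≤ 4 ∧ 2 ≤ q ∧ q ≤ 3) ∨ (p = 5 ∧ 2 ≤ q ∧ q ≤ 4) ∨ (p = 6 ∧ 3 ≤ q ∧ q ≤ 4)))
      ∨ (j = 4 ∧ n = 2 ∧ ((p = 5 ∧ q = 2) ∨ (p = 6 ∧ 1 ≤ q ∧ q ≤ 2) ∨ (p = 7 ∧ q = 4) ∨ (p = 8 ∧ 3 ≤ q ∧ q ≤ 4) ∨ (p = 9 ∧ q = 6) ∨ (p = 10 ∧ 5 ≤ q ∧ q ≤ 6)))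
      ∨ (j = 3 ∧ n = 2 ∧ ((p = 5 ∧ q = 2) ∨ (p = 6 ∧ 1 ≤ q ∧ q ≤ 2) ∨ (p = 7 ∧ q = 4) ∨ (p = 8 ∧ 3 ≤ q ∧ q ≤ 4) ∨ (p = 9 ∧ q = 6) ∨ (p = 10 ∧ 5 ≤ q ∧ q ≤ 6)))
      ∨ (j = 11 ∧ n = 5 ∧ ((p = 6 ∧ 4 ≤ q ∧ q ≤ 5) ∨ (p = 7 ∧ 5 ≤ q ∧ q ≤ 6) ∨ (p = 8 ∧ q = 6) ∨ (p = 9 ∧ 7 ≤ q ∧ q ≤ 8) ∨ (p = 10 ∧ q = 8)))
      ∨ (j = 5 ∧ n = 3 ∧ ((p = 2 ∧ 2 ≤ q ∧ q ≤ 3) ∨ (p = 3 ∧ 3 ≤ q ∧ q ≤ 4) ∨ (p = 4 ∧ 4 ≤ q ∧ q ≤ 5) ∨ (p = 5 ∧ q = 5) ∨ (p = 6 ∧ q = 6)))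
      ∨ (j = 5 ∧ n = 4 ∧ ((p = 2 ∧ 2 ≤ q ∧ q ≤ 3) ∨ (p = 3 ∧ 3 ≤ q ∧ q ≤ 4) ∨ (p = 4 ∧ 4 ≤ q ∧ q ≤ 5) ∨ (p = 5 ∧ q = 5) ∨ (p = 6 ∧ q = 6)))
      ∨ (j = 11 ∧ n = 6 ∧ ((p = 6 ∧ 4 ≤ q ∧ q ≤ 5) ∨ (p = 7 ∧ 5 ≤ q ∧ q ≤ 6) ∨ (p = 8 ∧ q = 6) ∨ (p = 9 ∧ 7 ≤ q ∧ q ≤ 8) ∨ (p = 10 ∧ q = 8)))
      ∨ (j = 9 ∧ n = 5 ∧ ((p = 5 ∧ 4 ≤ q ∧ q ≤ 5) ∨ (p = 6 ∧ 5 ≤ q ∧ q ≤ 6) ∨ (p = 7 ∧ 6 ≤ q ∧ q ≤ 7) ∨ (p = 8 ∧ q = 7)))
      ∨ (j = 8 ∧ n = 5 ∧ ((p = 5 ∧ 4 ≤ q ∧ q ≤ 5) ∨ (p = 6 ∧ 5 ≤ q ∧ q ≤ 6) ∨ (p = 7 ∧ 6 ≤ q ∧ q ≤ 7) ∨ (p = 8 ∧ q = 7)))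
      ∨ (j = 7 ∧ n = 1 ∧ ((3 ≤ p ∧ p ≤ 4 ∧ 2 ≤ q ∧ q ≤ 3) ∨ (p = 5 ∧ 3 ≤ q ∧ q ≤ 4) ∨ (p = 6 ∧ q = 4)))
      ∨ (j = 7 ∧ n = 2 ∧ ((3 ≤ p ∧ p ≤ 4 ∧ 2 ≤ q ∧ q ≤ 3) ∨ (p = 5 ∧ 3 ≤ q ∧ q ≤ 4) ∨ (p = 6 ∧ q = 4)))
      ∨ (j = 9 ∧ n = 6 ∧ ((p = 5 ∧ 4 ≤ q ∧ q ≤ 5) ∨ (p = 6 ∧ 5 ≤ q ∧ q ≤ 6) ∨ (p = 7 ∧ 6 ≤ q ∧ q ≤ 7) ∨ (p = 8 ∧ q = 7)))
      ∨ (j = 6 ∧ n = 4 ∧ ((p = 8 ∧ 3 ≤ q ∧ q ≤ 4) ∨ (p = 9 ∧ q = 6) ∨ (p = 10 ∧ 5 ≤ q ∧ q ≤ 6)))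
      ∨ (j = 3 ∧ n = 6 ∧ ((((p = 2) ∨ (p = 4)) ∧ 3 ≤ q ∧ q ≤ 4) ∨ (p = 3 ∧ q = 4)))
      ∨ (j = 4 ∧ n = 5 ∧ ((p = 2 ∧ 3 ≤ q ∧ q ≤ 4) ∨ (p = 3 ∧ q = 4) ∨ (p = 4 ∧ q = 5)))
      ∨ (j = 1 ∧ n = 6 ∧ (1 ≤ p ∧ p ≤ 2 ∧ 2 ≤ q ∧ q ≤ 3))
      ∨ (j = 1 ∧ n = 5 ∧ (1 ≤ p ∧ p ≤ 2 ∧ 2 ≤ q ∧ q ≤ 3))
      ∨ (j = 7 ∧ n = 5 ∧ ((p = 5 ∧ 5 ≤ q ∧ q ≤ 6) ∨ (p = 6 ∧ q = 6)))
      ∨ (j = 6 ∧ n = 5 ∧ ((p = 5 ∧ 5 ≤ q ∧ q ≤ 6) ∨ (p = 6 ∧ q = 6)))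
      ∨ (j = 7 ∧ n = 6 ∧ ((p = 5 ∧ 5 ≤ q ∧ q ≤ 6) ∨ (p = 6 ∧ q = 6)))
      ∨ (j = 6 ∧ n = 2 ∧ ((p = 6 ∧ q = 2) ∨ (p = 8 ∧ q = 4) ∨ (p = 10 ∧ q = 6)))
      ∨ (j = 4 ∧ n = 4 ∧ (6 ≤ p ∧ p ≤ 7 ∧ q = 2))
      ∨ (j = 2 ∧ n = 5 ∧ (p = 1 ∧ q = 3))
      ∨ (j = 5 ∧ n = 5 ∧ (p = 4 ∧ q = 5))
      ∨ (j = 5 ∧ n = 2 ∧ (p = 7 ∧ q = 6))))
    741
    0xe09830be3000c1f220c13830bcd000dadca0ea8830ae3000ae38a0c50830c91800eb37a1093801273c20c50830c91800eb37a108e00108e041278030eb2800eb2841273030ead800ead840c50830c91800eb37a1093001093040aed800aed810903000903040890030a70000a70040ea8830ae3000ae38a0908800908840ea9030ae3800ae3841278830eb3000eb3040a70030aac000aac04102003123c00123c04126e030ea8800ea884101b031237001237040c50030c8c000c8c040a70030a70800a708408d08308d10008d104102003105c00105c040e25830a60000a608a08bc8008f92a0ade800ade84101503123100126daa0ea800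0ea8041051831231801231841638031272801272840e25830a60000a608a08bc8008f92a0ade800ae3920ae8800ae88408950308d18008d184163303126d80126d840e30830a70000a700106aa8006aa840c4b030c87000c87040e30030a6a800a6a8411ea830e25000e2504163d03127780127784101a03101a80101a840a75830ab1800ab18411f0030e2a800e2a840e30030e6c000e6c041015031051001051040a6b8308c78008c78411f5830e30000e300408908308cc8008cc84101f03105b80105b84088b0308c70008c70411f5830e30000e308a0a6b000a6b0411f0030e2a800e301a0e71000e7104120083105c80105c84101b0310570010570411ea830e25000e258a0a60000a608a08bc8008f92a08fe8008fe84101a831056801056840e35830c4b000c4b040c50830c8c800c8c840ab0830ab1000ab104163203126d00126d0411f5030e2f800e2f84101b8311fb8011fb840bd2000db2ca0bc8000bc8041268830ea3000ea30408860308c20008c20411f5831051801051840db2830c0e000c0e0411f003104c00104c040a70830aac800aac8411fb030e35800e35841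20083123c80123c84163e031278801278840e30830e6c800e6c840a6b830aa7800aa78411fa831236801236840ab0830aed000aed0408d083090d00090d040a6b030aa7000aa704163d0312780012780416320314528016385a127300127304162d831268001268040e35830e71800e71840c56030c92000c92040fa3800fdfa20bde000bde04162d8312680012688a0e67000e670408fe030ade000ade040dff030dc3800dc3840a66030aa2000aa20408900308cc0008cc0411f003122c00122c0408f90308fe0008fe0408858308c18008c184082d030a0d000c29ea0e09800e09840c1f030dff000dff04101f03123b80123b840533830718800718840e36030e72000e72040f98800fd9b20bd3000db8520bdd000c1eba0c23800c188007d58007e0800c653a0c5a3a08173a08223a181d80181c8018128018118014200014150013e58013e48013da8013d98013cf801023800fdd000fa2800f97800f8c800c65800c5f000c5b800c5a800bec800be1800bd6800bb1000ba6000b9b0008a480089980088e80086900085e00085300082d80082700082380082280081c0008188008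1780080d80080c80080280070e80042600041b00181d8f181c8f18128f18118f163e07163907163887163307162e07162d8716288716280716020715fd0715fc8715f70715f20715f18715ec8715ec07145887145787144d87144c8714220714218714210714208714200f141d07141c87141c07141b8714170714168714160714158714150f141207141187141107141087140c87140c0713e58f13e48f13da8f13d98f13cf8f127387126e87126e07126907126887126387126307123787123287123207122d07122c8712278712270711fb0711f60711f58711f08711f00711eb0711ea8711e58711e50711bf0711ba0711b98711b48711b40711af0711ae8711a98711a907109887109787108e87108d87108387105787105287105207104d07104c8710478710470710238f102087101f87101e87101687101587101487100a870fe4070fe3870fe3070fe2870fdf870fdf070fde870fde070fdd870fdd0f0fda870fda070fd9870fd9070fd8870fd4870fd4070fd3870fcf070fce870fce070fc9870fc9070fa28f0f9e870f9d870f978f0f8c8f0ea9070ea4070ea3870e6d070e6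8070e67870e36870e36070e31070e30870e2b870e2b070e25870e20870e20070dff870dfa870dfa070df5070df4870def870def070de9870de4870de4070db8070db3070db2870dad870dad070da8870da8070d7c070d77070d76870d71870d71070d6c870d6c070ccd870cc3870c8d070c88070c87870c658f0c65070c64870c60070c5f870c5f0f0c5b8f0c5a8f0c5a070c59870c55870c54870c4b870c4a870c40870c1a070c15070c14870c0f870c0f070c0a070c09870c04870c04070bed070bec8f0be8870be2070be18f0bdd870bd7070bd68f0bd2870bc8870bb10f0ba60f0b9c070b9b870b9b0f0b97070b96870b96070b91870b91070b8c870b8c070aa2870a71070a6b870a66870a66070a61070a60870a5b870a5b070a35070a2f870a2a870a2a070a25070a24870a1f870a1f0709fe07090d8709038708f88708c28708bd0708b80708b78708a48f08998f089587089487089407088f07088e8f088b87088a8708808708690f085e0f08590708588708548708540708538708530f084f87084f07084e87084a87084a07084987084907084507084487084407083f87083f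07082d8f082d07082c8708280708278708270f08238f08228f082207082187081d07081c87081c0f08188f08178f081707081687081207081187080d8f080c8f08028f071e07071d87071907071407071387070e8f06f08706f00706eb8706eb0706e20706e18706dd0706dc8706d80706d78706b50706b40706b08706b00706af8706af0706ab0706a60706a58706a50706a10706a007067907067887067487067407067387066f87066f07066e87066a07066987066907066507066487066407064d07064c87064807064207064187063d07063707063687063207061107061087060c07060b8706060706058706010706008705fb0705fa8705f60705f587052e8704f28704260f041b0f035387035307034e87034e07031787031707031287031207 = true := by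
  decide +kernel

theorem cW1_0_m2_4 (hf : Rule f) {k c n M R x y : ℕ} (H : LI f k c n)
    (eM : M = 6 * k + 1) (eR : R = c) (ex : x + 2 = 2 * n) (ey : y + 2 * k = 2 * n + 4) : ¬ f M R x y := by
  intro hg
  have hk := H.T.hk
  have hc := H.T.hc
  have h4 := H.T.h4
  have hb := H.T.hb
  have hN := H.T.hN2
  have hg' : ∀ M' R' x' y' : ℕ, M' = M → R' = R → x' = x → y' = y → f M' R' x' y' := by
    rintro _ _ _ _ rfl rfl rfl rfl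
    exact hg
  clear hg
  obtain ⟨a0, ha0⟩ : ∃ z, z + 2 = 6 * k := ⟨6 * k - 2, by omega⟩
  obtain ⟨b0, hb0⟩ : ∃ z, z + 6 = c := ⟨c - 6, by omega⟩
  obtain ⟨x0, hx0⟩ : ∃ z, z + 3 = 2 * n := ⟨2 * n - 3, by omega⟩
  obtain ⟨y0, hy0⟩ : ∃ z, z + 2 * k = 2 * n + 1 := ⟨2 * n + 1 - 2 * k, by omega⟩
  refine check_sound hf (a0 := a0) (b0 := b0) (x0 := x0) (y0 := y0) cW1_0_m2_4_chk
    ⟨fun h => absurd h (by decide), fun h => absurd h (by decide), fun h => absurd h (by decide), by omega, by omega,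
      by omega, by omega⟩ ?_ ?_
  · intro j m p q hr h
    obtain ⟨-, -, -, -, hp1, hp2, hq1, hq2⟩ := hr
    replace h := of_decide_eq_true h
    rcases h with h | h | h | h | h | h | h | h | h | h | h | h | h | h
    · obtain ⟨rfl, rfl, h⟩ := h
      exact (WrapC.v0 H.a2 (by omega) (by omega) (by omega) (by omega) (by omega) (by omega) (by omega)).mpr (by omega)
    · obtain ⟨rfl, rfl, h⟩ := h
      exact (NW.w0v H.a8 (by omega) (by omega) (by omega) (by omega) (by omega) (by omega) (by omega)).mpr (by omega)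
    · obtain ⟨rfl, rfl, h⟩ := h
      exact (WrapC.v0 H.a4 (by omega) (by omega) (by omega) (by omega) (by omega) (by omega) (by omega)).mpr (by omega)
    · obtain ⟨rfl, rfl, h⟩ := h
      exact (NW.w0v H.a10 (by omega) (by omega) (by omega) (by omega) (by omega) (by omega) (by omega)).mpr (by omega)
    · obtain ⟨rfl, rfl, h⟩ := h
      exact (WrapC.v4 H.b6 (by omega) (by omega) (by omega) (by omega) (by omega) (by omega) (by omega)).mpr (by omega)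
    · obtain ⟨rfl, rfl, h⟩ := h
      exact (WrapC.v2 H.b4 (by omega) (by omega) (by omega) (by omega) (by omega) (by omega) (by omega)).mpr (by omega)
    · obtain ⟨rfl, rfl, h⟩ := h
      exact (WrapC.v1 H.b4 (by omega) (by omega) (by omega) (by omega) (by omega) (by omega) (by omega) (by omega)).mpr (by omega)
    · obtain ⟨rfl, rfl, h⟩ := h
      exact (WrapC.v2 H.a2 (by omega) (by omega) (by omega) (by omega) (by omega) (by omega) (by omega)).mpr (by omega)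
    · obtain ⟨rfl, rfl, h⟩ := h
      exact (WrapC.v1 H.a2 (by omega) (by omega) (by omega) (by omega) (by omega) (by omega) (by omega) (by omega)).mpr (by omega)
    · obtain ⟨rfl, rfl, h⟩ := h
      exact (NW.w1v H.a8 (by omega) (by omega) (by omega) (by omega) (by omega) (by omega) (by omega) (by omega)).mpr (by omega)
    · obtain ⟨rfl, rfl, h⟩ := h
      exact (WrapC.v1 H.a0 (by omega) (by omega) (by omega) (by omega) (by omega) (by omega) (by omega) (by omega)).mpr (by omega)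
    · obtain ⟨rfl, rfl, h⟩ := h
      exact (WrapC.v2 H.a6 (by omega) (by omega) (by omega) (by omega) (by omega) (by omega) (by omega)).mpr (by omega)
    · obtain ⟨rfl, rfl, h⟩ := h
      exact (WrapC.v1 H.a6 (by omega) (by omega) (by omega) (by omega) (by omega) (by omega) (by omega) (by omega)).mpr (by omega)
    · obtain ⟨rfl, rfl, h⟩ := h
      exact hg' _ _ _ _ (by omega) (by omega) (by omega) (by omega)
  · intro j m p q hr h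
    obtain ⟨-, -, -, -, hp1, hp2, hq1, hq2⟩ := hr
    replace h := of_decide_eq_true h
    rcases h with h | h | h | h | h | h | h | h | h | h | h | h | h | h | h | h | h | h | h | h | h | h | h | h | h | h | h | h | h | h | h | h | h | h | h | h | h
    · obtain ⟨rfl, rfl, h⟩ := h
      exact mt (WrapC.v1 H.a6 (by omega) (by omega) (by omega) (by omega) (by omega) (by omega) (by omega) (by omega)).mp (by omega)
    · obtain ⟨rfl, rfl, h⟩ := h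
      exact mt (NW.w1v H.a8 (by omega) (by omega) (by omega) (by omega) (by omega) (by omega) (by omega) (by omega)).mp (by omega)
    · obtain ⟨rfl, rfl, h⟩ := h
      exact mt (WrapC.v1 H.a2 (by omega) (by omega) (by omega) (by omega) (by omega) (by omega) (by omega) (by omega)).mp (by omega)
    · obtain ⟨rfl, rfl, h⟩ := h
      exact H.eo _ _ _ _ (by omega) (by omega) (by omega) (by omega) (by omega) (by omega) (by omega)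
    · obtain ⟨rfl, rfl, h⟩ := h
      exact H.eo _ _ _ _ (by omega) (by omega) (by omega) (by omega) (by omega) (by omega) (by omega)
    · obtain ⟨rfl, rfl, h⟩ := h
      exact H.eo _ _ _ _ (by omega) (by omega) (by omega) (by omega) (by omega) (by omega) (by omega)
    · obtain ⟨rfl, rfl, h⟩ := h
      exact NHT.rIn hf H.T (t := 3) (p := 1) (j := 1) (by omega) (by omega) (by omega) (by omega) (by omega) (by omega) (by omega) (by omega)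
    · obtain ⟨rfl, rfl, h⟩ := h
      exact H.eo _ _ _ _ (by omega) (by omega) (by omega) (by omega) (by omega) (by omega) (by omega)
    · obtain ⟨rfl, rfl, h⟩ := h
      exact NHT.rIn hf H.T (t := 3) (p := 0) (j := 1) (by omega) (by omega) (by omega) (by omega) (by omega) (by omega) (by omega) (by omega)
    · obtain ⟨rfl, rfl, h⟩ := h
      exact NHT.rIn hf H.T (t := 3) (p := 1) (j := 0) (by omega) (by omega) (by omega) (by omega) (by omega) (by omega) (by omega) (by omega)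
    · obtain ⟨rfl, rfl, h⟩ := h
      exact NHT.pmi hf H.T (j := 1) (by omega) (by omega) (by omega) (by omega) (by omega) (by omega)
    · obtain ⟨rfl, rfl, h⟩ := h
      exact NHT.pmi hf H.T (j := 0) (by omega) (by omega) (by omega) (by omega) (by omega) (by omega)
    · obtain ⟨rfl, rfl, h⟩ := h
      exact mt (WrapC.v1 H.b4 (by omega) (by omega) (by omega) (by omega) (by omega) (by omega) (by omega) (by omega)).mp (by omega)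
    · obtain ⟨rfl, rfl, h⟩ := h
      exact mt (WrapC.v0 H.a2 (by omega) (by omega) (by omega) (by omega) (by omega) (by omega) (by omega)).mp (by omega)
    · obtain ⟨rfl, rfl, h⟩ := h
      exact H.eo _ _ _ _ (by omega) (by omega) (by omega) (by omega) (by omega) (by omega) (by omega)
    · obtain ⟨rfl, rfl, h⟩ := h
      exact NW.rm1i hf H.T (p := 1) (j := 0) (by omega) (by omega) (by omega) (by omega) (by omega) (by omega) (by omega)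
    · obtain ⟨rfl, rfl, h⟩ := h
      exact NHT.rIn hf H.T (t := 3) (p := 1) (j := 2) (by omega) (by omega) (by omega) (by omega) (by omega) (by omega) (by omega) (by omega)
    · obtain ⟨rfl, rfl, h⟩ := h
      exact NHT.pmi hf H.T (j := 2) (by omega) (by omega) (by omega) (by omega) (by omega) (by omega)
    · obtain ⟨rfl, rfl, h⟩ := h
      exact NHT.p0i hf H.T (j := 0) (by omega) (by omega) (by omega) (by omega) (by omega) (by omega)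
    · obtain ⟨rfl, rfl, h⟩ := h
      exact NW.rm1i hf H.T (p := 1) (j := 1) (by omega) (by omega) (by omega) (by omega) (by omega) (by omega) (by omega)
    · obtain ⟨rfl, rfl, h⟩ := h
      exact NW.rm1i hf H.T (p := 0) (j := 1) (by omega) (by omega) (by omega) (by omega) (by omega) (by omega) (by omega)
    · obtain ⟨rfl, rfl, h⟩ := h
      exact NHT.rIn hf H.T (t := 2) (p := 1) (j := 0) (by omega) (by omega) (by omega) (by omega) (by omega) (by omega) (by omega) (by omega)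
    · obtain ⟨rfl, rfl, h⟩ := h
      exact NHT.pIn hf H.T (t := 3) (j := 0) (by omega) (by omega) (by omega) (by omega) (by omega) (by omega) (by omega)
    · obtain ⟨rfl, rfl, h⟩ := h
      exact NHT.p0i hf H.T (j := 1) (by omega) (by omega) (by omega) (by omega) (by omega) (by omega)
    · obtain ⟨rfl, rfl, h⟩ := h
      exact mt (WrapC.v0 H.a4 (by omega) (by omega) (by omega) (by omega) (by omega) (by omega) (by omega)).mp (by omega)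
    · obtain ⟨rfl, rfl, h⟩ := h
      exact H.eo _ _ _ _ (by omega) (by omega) (by omega) (by omega) (by omega) (by omega) (by omega)
    · obtain ⟨rfl, rfl, h⟩ := h
      exact NW.rm1i hf H.T (p := 0) (j := 3) (by omega) (by omega) (by omega) (by omega) (by omega) (by omega) (by omega)
    · obtain ⟨rfl, rfl, h⟩ := h
      exact H.lw _ _ _ _ (by omega) (by omega) (by omega) (by omega) (by omega) (by omega)
    · obtain ⟨rfl, rfl, h⟩ := h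
      exact H.lw _ _ _ _ (by omega) (by omega) (by omega) (by omega) (by omega) (by omega)
    · obtain ⟨rfl, rfl, h⟩ := h
      exact NW.rm1i hf H.T (p := 1) (j := 2) (by omega) (by omega) (by omega) (by omega) (by omega) (by omega) (by omega)
    · obtain ⟨rfl, rfl, h⟩ := h
      exact NW.rm1i hf H.T (p := 0) (j := 2) (by omega) (by omega) (by omega) (by omega) (by omega) (by omega) (by omega)
    · obtain ⟨rfl, rfl, h⟩ := h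
      exact NHT.p0i hf H.T (j := 2) (by omega) (by omega) (by omega) (by omega) (by omega) (by omega)
    · obtain ⟨rfl, rfl, h⟩ := h
      exact mt (WrapC.v2 H.b4 (by omega) (by omega) (by omega) (by omega) (by omega) (by omega) (by omega)).mp (by omega)
    · obtain ⟨rfl, rfl, h⟩ := h
      exact mt (WrapC.v2 H.a2 (by omega) (by omega) (by omega) (by omega) (by omega) (by omega) (by omega)).mp (by omega)
    · obtain ⟨rfl, rfl, h⟩ := h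
      exact NW.rm1i hf H.T (p := 0) (j := 4) (by omega) (by omega) (by omega) (by omega) (by omega) (by omega) (by omega)
    · obtain ⟨rfl, rfl, h⟩ := h
      exact NW.rm1i hf H.T (p := 1) (j := 3) (by omega) (by omega) (by omega) (by omega) (by omega) (by omega) (by omega)
    · obtain ⟨rfl, rfl, h⟩ := h
      exact NHT.pIn hf H.T (t := 3) (j := 1) (by omega) (by omega) (by omega) (by omega) (by omega) (by omega) (by omega)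

end Pool.Agent.SNT.LRI
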