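import Pool.Agent.SNT.LRD

set_option autoImplicit false
set_option linter.unusedVariables false
set_option synthInstance.maxSize 100000
set_option synthInstance.maxHeartbeats 4000000

/-! Local certificates of the location of the top leader (9). -/

namespace Pool.Agent.SNT.LRI

open Pool.Agent.SNT Pool.Agent.SNT.Loc Pool.Agent.SNT.LW Pool.Agent.SNT.NHZ

variable {f : ℕ → ℕ → ℕ → ℕ → Prop}

theorem cW2_m1_0_4_chk : check 9 8 10 10 1 0 1 1 0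
    (fun j n p q => decide ((j = 1 ∧ n = 2 ∧ ((p = 2 ∧ ((q = 1) ∨ (q = 3))) ∨ (p = 4 ∧ ((q = 3) ∨ (q = 5))) ∨ (p = 5 ∧ q = 2) ∨ (p = 6 ∧ q = 5) ∨ (p = 7 ∧ q = 4)))
      ∨ (j = 7 ∧ n = 4 ∧ ((p = 4 ∧ q = 3) ∨ (p = 6 ∧ ((q = 3) ∨ (q = 5))) ∨ (p = 8 ∧ ((q = 5) ∨ (q = 7)))))
      ∨ (j = 3 ∧ n = 4 ∧ ((p = 6 ∧ ((q = 1) ∨ (q = 5) ∨ (q = 7))) ∨ (p = 7 ∧ q = 4) ∨ (p = 8 ∧ q = 7)))
      ∨ (j = 9 ∧ n = 6 ∧ ((p = 4 ∧ q = 3) ∨ (p = 6 ∧ ((q = 3) ∨ (q = 5))) ∨ (p = 8 ∧ ((q = 5) ∨ (q = 7)))))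
      ∨ (j = 5 ∧ n = 2 ∧ ((p = 2 ∧ q = 1) ∨ (p = 4 ∧ ((q = 1) ∨ (q = 3))) ∨ (p = 6 ∧ q = 5)))
      ∨ (j = 3 ∧ n = 2 ∧ ((p = 4 ∧ q = 1) ∨ (p = 6 ∧ q = 3) ∨ (p = 8 ∧ q = 5)))
      ∨ (j = 1 ∧ n = 4 ∧ ((p = 4 ∧ q = 1) ∨ (p = 6 ∧ q = 3) ∨ (p = 8 ∧ q = 5)))
      ∨ (j = 1 ∧ n = 3 ∧ ((p = 4 ∧ q = 2) ∨ (p = 6 ∧ q = 4) ∨ (p = 8 ∧ q = 6)))
      ∨ (j = 3 ∧ n = 1 ∧ ((p = 4 ∧ q = 2) ∨ (p = 6 ∧ q = 4)))
      ∨ (j = 7 ∧ n = 5 ∧ ((p = 6 ∧ q = 2) ∨ (p = 8 ∧ q = 4)))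
      ∨ (j = 5 ∧ n = 4 ∧ ((p = 6 ∧ q = 1) ∨ (p = 8 ∧ q = 3)))
      ∨ (j = 5 ∧ n = 3 ∧ (p = 6 ∧ q = 2))
      ∨ (j = 1 ∧ n = 5 ∧ (p = 1 ∧ q = 3))))
    (fun j n p q => decide ((j = 7 ∧ n = 5 ∧ ((p = 3 ∧ 3 ≤ q ∧ q ≤ 4) ∨ (p = 4 ∧ 3 ≤ q ∧ q ≤ 5) ∨ (5 ≤ p ∧ p ≤ 6 ∧ 3 ≤ q ∧ q ≤ 7) ∨ (p = 7 ∧ 3 ≤ q ∧ q ≤ 8) ∨ (p = 8 ∧ 5 ≤ q ∧ q ≤ 8)))
      ∨ (j = 5 ∧ n = 3 ∧ ((p = 2 ∧ 2 ≤ q ∧ q ≤ 3) ∨ (p = 3 ∧ 2 ≤ q ∧ q ≤ 4) ∨ (p = 4 ∧ 2 ≤ q ∧ q ≤ 5) ∨ (p = 5 ∧ 2 ≤ q ∧ q ≤ 6) ∨ (6 ≤ p ∧ p ≤ 7 ∧ 3 ≤ q ∧ q ≤ 6)))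
      ∨ (j = 4 ∧ n = 4 ∧ ((p = 1 ∧ 2 ≤ q ∧ q ≤ 4) ∨ (p = 2 ∧ 3 ≤ q ∧ q ≤ 5) ∨ (p = 3 ∧ 4 ≤ q ∧ q ≤ 6) ∨ (p = 4 ∧ 5 ≤ q ∧ q ≤ 7) ∨ (p = 5 ∧ 6 ≤ q ∧ q ≤ 7) ∨ (p = 6 ∧ q = 7)))
      ∨ (j = 4 ∧ n = 3 ∧ ((p = 1 ∧ 2 ≤ q ∧ q ≤ 4) ∨ (p = 2 ∧ 3 ≤ q ∧ q ≤ 5) ∨ (p = 3 ∧ 4 ≤ q ∧ q ≤ 6) ∨ (p = 4 ∧ 5 ≤ q ∧ q ≤ 7) ∨ (p = 5 ∧ 6 ≤ q ∧ q ≤ 7)))
      ∨ (j = 3 ∧ n = 3 ∧ ((p = 1 ∧ 2 ≤ q ∧ q ≤ 4) ∨ (p = 2 ∧ 3 ≤ q ∧ q ≤ 5) ∨ (p = 3 ∧ 4 ≤ q ∧ q ≤ 6) ∨ (p = 4 ∧ 5 ≤ q ∧ q ≤ 7) ∨ (p = 5 ∧ 6 ≤ q ∧ q ≤ 7)))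
      ∨ (j = 1 ∧ n = 3 ∧ ((p = 1 ∧ 2 ≤ q ∧ q ≤ 3) ∨ (p = 2 ∧ 2 ≤ q ∧ q ≤ 4) ∨ (p = 3 ∧ 2 ≤ q ∧ q ≤ 5) ∨ (p = 4 ∧ 3 ≤ q ∧ q ≤ 5) ∨ (p = 5 ∧ 3 ≤ q ∧ q ≤ 4)))
      ∨ (j = 8 ∧ n = 5 ∧ ((p = 3 ∧ 3 ≤ q ∧ q ≤ 4) ∨ (p = 4 ∧ 4 ≤ q ∧ q ≤ 5) ∨ (p = 5 ∧ 5 ≤ q ∧ q ≤ 6) ∨ (p = 6 ∧ q = 6) ∨ (p = 7 ∧ 7 ≤ q ∧ q ≤ 8) ∨ (p = 8 ∧ q = 8)))
      ∨ (j = 8 ∧ n = 6 ∧ ((p = 3 ∧ 3 ≤ q ∧ q ≤ 4) ∨ (p = 4 ∧ 4 ≤ q ∧ q ≤ 5) ∨ (p = 5 ∧ 5 ≤ q ∧ q ≤ 6) ∨ (p = 6 ∧ q = 6) ∨ (p = 7 ∧ 7 ≤ q ∧ q ≤ 8) ∨ (p = 8 ∧ q = 8)))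
      ∨ (j = 6 ∧ n = 3 ∧ ((p = 2 ∧ 2 ≤ q ∧ q ≤ 3) ∨ (p = 3 ∧ 3 ≤ q ∧ q ≤ 4) ∨ (p = 4 ∧ 4 ≤ q ∧ q ≤ 5) ∨ (p = 5 ∧ 5 ≤ q ∧ q ≤ 6) ∨ (p = 6 ∧ q = 6)))
      ∨ (j = 6 ∧ n = 4 ∧ ((p = 2 ∧ 2 ≤ q ∧ q ≤ 3) ∨ (p = 3 ∧ 3 ≤ q ∧ q ≤ 4) ∨ (p = 4 ∧ 4 ≤ q ∧ q ≤ 5) ∨ (p = 5 ∧ 5 ≤ q ∧ q ≤ 6) ∨ (p = 6 ∧ q = 6)))
      ∨ (j = 3 ∧ n = 1 ∧ ((1 ≤ p ∧ p ≤ 2 ∧ 2 ≤ q ∧ q ≤ 3) ∨ (p = 3 ∧ 2 ≤ q ∧ q ≤ 4) ∨ (p = 4 ∧ 3 ≤ q ∧ q ≤ 4)))
      ∨ (j = 6 ∧ n = 5 ∧ ((p = 3 ∧ 4 ≤ q ∧ q ≤ 5) ∨ (p = 4 ∧ 5 ≤ q ∧ q ≤ 6) ∨ (p = 5 ∧ 6 ≤ q ∧ q ≤ 7) ∨ (p = 6 ∧ q = 7)))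
      ∨ (j = 5 ∧ n = 5 ∧ ((p = 3 ∧ 4 ≤ q ∧ q ≤ 5) ∨ (p = 4 ∧ 5 ≤ q ∧ q ≤ 6) ∨ (p = 5 ∧ 6 ≤ q ∧ q ≤ 7) ∨ (p = 6 ∧ q = 7)))
      ∨ (j = 4 ∧ n = 1 ∧ ((1 ≤ p ∧ p ≤ 2 ∧ 2 ≤ q ∧ q ≤ 3) ∨ (p = 3 ∧ 3 ≤ q ∧ q ≤ 4) ∨ (p = 4 ∧ q = 4)))
      ∨ (j = 4 ∧ n = 2 ∧ ((1 ≤ p ∧ p ≤ 2 ∧ 2 ≤ q ∧ q ≤ 3) ∨ (p = 3 ∧ 3 ≤ q ∧ q ≤ 4) ∨ (p = 4 ∧ q = 4)))
      ∨ (j = 6 ∧ n = 6 ∧ ((p = 3 ∧ 4 ≤ q ∧ q ≤ 5) ∨ (p = 4 ∧ 5 ≤ q ∧ q ≤ 6) ∨ (p = 5 ∧ 6 ≤ q ∧ q ≤ 7) ∨ (p = 6 ∧ q = 7)))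
      ∨ (j = 3 ∧ n = 4 ∧ ((p = 6 ∧ 3 ≤ q ∧ q ≤ 4) ∨ (p = 7 ∧ q = 6) ∨ (p = 8 ∧ 5 ≤ q ∧ q ≤ 6)))
      ∨ (j = 2 ∧ n = 3 ∧ ((p = 1 ∧ q = 3) ∨ (p = 2 ∧ q = 4) ∨ (p = 3 ∧ q = 5) ∨ (p = 4 ∧ q = 6)))
      ∨ (j = 2 ∧ n = 4 ∧ ((p = 1 ∧ q = 3) ∨ (p = 2 ∧ q = 4) ∨ (p = 3 ∧ q = 5) ∨ (p = 4 ∧ q = 6)))
      ∨ (j = 3 ∧ n = 2 ∧ ((p = 4 ∧ q = 2) ∨ (p = 6 ∧ q = 4)))
      ∨ (j = 5 ∧ n = 4 ∧ (6 ≤ p ∧ p ≤ 7 ∧ q = 2))
      ∨ (j = 1 ∧ n = 4 ∧ (4 ≤ p ∧ p ≤ 5 ∧ q = 2))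
      ∨ (j = 4 ∧ n = 5 ∧ (p = 3 ∧ q = 5))
      ∨ (j = 3 ∧ n = 5 ∧ (p = 3 ∧ q = 5))
      ∨ (j = 2 ∧ n = 2 ∧ (p = 5 ∧ q = 6))
      ∨ (j = 4 ∧ n = 6 ∧ (p = 3 ∧ q = 5))))
    736
    0x51f0505568006b4da055b92078203045c80045d0a05f28505ed000787d2078252042f8004349202d7000467ca078d03046780046784078783042f8004349202d7000467ca05f80005f804078d03046780046781029f80029f8402cd0002cd04058e03075500075504078283045d00045d040aac83075500075a1204348004348403f903029b00029b040aad0307878007878403f883029a80029a840aac030754800754840ab283078d00078d0403fe0302a00002a004071883074a80074a84058d83074f80074f8403fe0302a08002a0840aac830787000787040aa7830782000782040ab183075a00075a0407140303f38003f38404030302a50002a5040aa80307828007828408b8030a7a000a7a040a43830a75800a75840a7e8307598007598403f38303f88003f884058e8305c58005c5840403030435800435840aa7030781800781840dd1030a79800a798407188303f3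0003f3040aa203077c80077c840dd1030aab800aab8404030302a58002a5840dc7830aa2000aa2040dcc030aa6800aa6840a4383071e00071e8a03fe0003fe0408bd0308ef8008ef8407138303ee0003ee04043483046700046704071e0307500007500408f0830a80800a808408bd0308ef800ab26a078c80078c840dd7030ab2000ab204058e8305c08005c0840a38830a6a800a6a840a4383071e00071e0105c50005c504071d8303f80003f8040aad8307880007880408b88308ea8008ea8403fe03043000043004058d8305bf8005bf84058e0305c00005c00403f903042b00042b040a4283071d00071d0408be0308f00008f004071983057f00057f040dd2030aad000aad04071f0303fe8003fe8405890305bb0005bb040dd1030aac000aac040dc7030aa1800aa184071e830723800723840c3d830aa7800aa784071903074b00074b040dc2030a9c800a9c840a49030723800723810589000589040a38830713000713040a438308e58008e5840dd8030ab2800ab2840a388307130007189a05ba8005ba8405940305c60005c604071e8307508007508408ee830921000921040a3e030718800718840a3d83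0a6f800a6f8408b80308b88008be1a08f08008f0840a49030a7b000a7b040524000524040a428308e48008e4840dcc030aa7000aa7040dd7030ab1800ab1840a4383071e00071e8a03f90003f90403f883042a80042a840a430308e50008e5040dcd030c3d800c3d840a48830a7a800a7a840dc7830aa2000aa28a077d00077d040a42830a74800a74840a3e0308e00008e00405670306f70006f70405568306e68006e6840a388307130007138a03bc0003bc04045d030462000462040a3e030a70000a70040dcc030c3c800c3c8408f0030a80000a80040a388308da8008da8408b80308ea0008ea0406af830551000551040a3d8308df8008df840dd2030aac800aac840724030756000756040a7e830ab1000ab104072383075580075584072483058a00058a0404348304350004350408ee8308ef0008ef0406af8306e10006e1040a490308eb0008eb0406b4830556000556040a43030a75000a750403fe8304308004308405560306e60006e60406b483051e80051e840a3d830718000718040a4303071d80071d8408bd030a7f800a7f8405250006ba52052f000566ba056b8005608005a33a05983a0f67800f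66800f5c800f5b800f51800c14000c09000be3800be2800bd8800bd7800bcd8008c18008b680088500085480084980084880083e8005a380059d00059980059880059680053e8005338005288005020004f700029080028280027780026c80025100024600023b00021900021480020e00020a8002098001ff8001fe800f678f0f668f0f5c8f0f5b8f0f518f0dd8070dd3070dd2870dcd070dc8070dc7870dc2870dc2070dbd070dbc870da6070da1070da0870d9b070d96070d95870d90870d90070d8b070d8a870c42870c41870c40870c38870c37870c36870c2c870c16070c15870c15070c14870c140f0c11070c10870c10070c0f870c0f070c0e870c0b870c0b070c0a870c0a070c09870c090f0c06870c06070c05870c05070c04870c00870c00070bff870bfb070bfa870be38f0be28f0bd88f0bd78f0bcd8f0aad870aa8870aa8070aa3070aa2870a9d870a9d070a7b870a76870a76070a71070a70870a6b870a6b070a49070a44070a43870a3e870a3e070a39070a38870a33870a33070a17070a12070a11870a0c870a0c070a07070a06870a01870a0107092287092187091887091787091687090d87090c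8708eb8708e68708e60708e10708e08708db8708db0708c18f08be8708bd8708bc8708bc0708b70708b68f08b38708b28708a887088c07088b87088b07088a8708870708868708860708858708850f088207088187088107088087088007087c87087c07087b87087b0708770708768708760708718708710708548f08498f08488f083e8f077d87074b87072987072487072407071f87071f07071e87071a07071987071907071487071407071387070f07070e87070e0706f28706f20706ed8706ed0706ec8706e80706e78706e70706e28706e20706e18706dd0706dc8706dc0706ba0706b50706b48706af8706af0706aa8706aa07068807068307068287067d87067d0706788706780705f78705ed8705ec8705bb8705a38f05a30705a287059e07059d87059d0f05998f05988f05980705978705968f059487059387059287058987058887057e87056287056207055d87055d07055c87055807055787055707055287055207055187054d07054c87054c07053e8f05340705338f052f8705290705288f052487052387051a8705020f04f80704f78704f70f04f30704f28704f20704ed8704ed0704e88704e80703ff0703f98703f40703ee8703cd0703c78703c20703bc8703a00702d78702cc8702908f02828f02778f027287027207026d07026c8f026987026887025e8702510f02460f024107024087023c87023c07023b87023b0f023787023707023687023607023207023187023107022c87022c0702190f02148f020e0f020a8f02098f01ff8f01fe8f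 = true := by
  decide +kernel

theorem cW2_m1_0_4 (hf : Rule f) {k c n M R x y : ℕ} (H : LI f k c n)
    (eM : M = 6 * k + 2) (eR : R + 1 = c) (ex : x = 2 * n) (ey : y + 2 * k = 2 * n + 4) : ¬ f M R x y := by
  intro hg
  have hk := H.T.hk
  have hc := H.T.hc
  have h4 := H.T.h4
  have hb := H.T.hb
  have hN := H.T.hN2
  have hg' : ∀ M' R' x' y' : ℕ, M' = M → R' = R → x' = x → y' = y → f M' R' x' y' := by
    rintro _ _ _ _ rfl rfl rfl rfl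
    exact hg
  clear hg
  obtain ⟨a0, ha0⟩ : ∃ z, z = 6 * k + 1 := ⟨_, rfl⟩
  obtain ⟨b0, hb0⟩ : ∃ z, z + 6 = c := ⟨c - 6, by omega⟩
  obtain ⟨x0, hx0⟩ : ∃ z, z + 1 = 2 * n := ⟨2 * n - 1, by omega⟩
  obtain ⟨y0, hy0⟩ : ∃ z, z + 2 * k = 2 * n + 1 := ⟨2 * n + 1 - 2 * k, by omega⟩
  refine check_sound hf (a0 := a0) (b0 := b0) (x0 := x0) (y0 := y0) cW2_m1_0_4_chk
    ⟨fun h => absurd h (by decide), fun h => absurd h (by decide), fun h => absurd h (by decide), by omega, by omega,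
      by omega, by omega⟩ ?_ ?_
  · intro j m p q hr h
    obtain ⟨-, -, -, -, hp1, hp2, hq1, hq2⟩ := hr
    replace h := of_decide_eq_true h
    rcases h with h | h | h | h | h | h | h | h | h | h | h | h | h
    · obtain ⟨rfl, rfl, h⟩ := h
      exact (WrapC.v0 H.a2 (by omega) (by omega) (by omega) (by omega) (by omega) (by omega) (by omega)).mpr (by omega)
    · obtain ⟨rfl, rfl, h⟩ := h
      exact (NW.w0v H.a8 (by omega) (by omega) (by omega) (by omega) (by omega) (by omega) (by omega)).mpr (by omega)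
    · obtain ⟨rfl, rfl, h⟩ := h
      exact (WrapC.v0 H.a4 (by omega) (by omega) (by omega) (by omega) (by omega) (by omega) (by omega)).mpr (by omega)
    · obtain ⟨rfl, rfl, h⟩ := h
      exact (NW.w0v H.a10 (by omega) (by omega) (by omega) (by omega) (by omega) (by omega) (by omega)).mpr (by omega)
    · obtain ⟨rfl, rfl, h⟩ := h
      exact (WrapC.v4 H.b6 (by omega) (by omega) (by omega) (by omega) (by omega) (by omega) (by omega)).mpr (by omega)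
    · obtain ⟨rfl, rfl, h⟩ := h
      exact (WrapC.v2 H.b4 (by omega) (by omega) (by omega) (by omega) (by omega) (by omega) (by omega)).mpr (by omega)
    · obtain ⟨rfl, rfl, h⟩ := h
      exact (WrapC.v2 H.a2 (by omega) (by omega) (by omega) (by omega) (by omega) (by omega) (by omega)).mpr (by omega)
    · obtain ⟨rfl, rfl, h⟩ := h
      exact (WrapC.v1 H.a2 (by omega) (by omega) (by omega) (by omega) (by omega) (by omega) (by omega) (by omega)).mpr (by omega)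
    · obtain ⟨rfl, rfl, h⟩ := h
      exact (WrapC.v1 H.b4 (by omega) (by omega) (by omega) (by omega) (by omega) (by omega) (by omega) (by omega)).mpr (by omega)
    · obtain ⟨rfl, rfl, h⟩ := h
      exact (NW.w1v H.a8 (by omega) (by omega) (by omega) (by omega) (by omega) (by omega) (by omega) (by omega)).mpr (by omega)
    · obtain ⟨rfl, rfl, h⟩ := h
      exact (WrapC.v2 H.a6 (by omega) (by omega) (by omega) (by omega) (by omega) (by omega) (by omega)).mpr (by omega)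
    · obtain ⟨rfl, rfl, h⟩ := h
      exact (WrapC.v1 H.a6 (by omega) (by omega) (by omega) (by omega) (by omega) (by omega) (by omega) (by omega)).mpr (by omega)
    · obtain ⟨rfl, rfl, h⟩ := h
      exact hg' _ _ _ _ (by omega) (by omega) (by omega) (by omega)
  · intro j m p q hr h
    obtain ⟨-, -, -, -, hp1, hp2, hq1, hq2⟩ := hr
    replace h := of_decide_eq_true h
    rcases h with h | h | h | h | h | h | h | h | h | h | h | h | h | h | h | h | h | h | h | h | h | h | h | h | h | h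
    · obtain ⟨rfl, rfl, h⟩ := h
      exact mt (NW.w1v H.a8 (by omega) (by omega) (by omega) (by omega) (by omega) (by omega) (by omega) (by omega)).mp (by omega)
    · obtain ⟨rfl, rfl, h⟩ := h
      exact mt (WrapC.v1 H.a6 (by omega) (by omega) (by omega) (by omega) (by omega) (by omega) (by omega) (by omega)).mp (by omega)
    · obtain ⟨rfl, rfl, h⟩ := h
      exact NHT.pmi hf H.T (j := 1) (by omega) (by omega) (by omega) (by omega) (by omega) (by omega)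
    · obtain ⟨rfl, rfl, h⟩ := h
      exact NHT.rIn hf H.T (t := 3) (p := 1) (j := 1) (by omega) (by omega) (by omega) (by omega) (by omega) (by omega) (by omega) (by omega)
    · obtain ⟨rfl, rfl, h⟩ := h
      exact NHT.rIn hf H.T (t := 3) (p := 0) (j := 1) (by omega) (by omega) (by omega) (by omega) (by omega) (by omega) (by omega) (by omega)
    · obtain ⟨rfl, rfl, h⟩ := h
      exact mt (WrapC.v1 H.a2 (by omega) (by omega) (by omega) (by omega) (by omega) (by omega) (by omega) (by omega)).mp (by omega)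
    · obtain ⟨rfl, rfl, h⟩ := h
      exact NW.rm1i hf H.T (p := 1) (j := 0) (by omega) (by omega) (by omega) (by omega) (by omega) (by omega) (by omega)
    · obtain ⟨rfl, rfl, h⟩ := h
      exact NHT.p0i hf H.T (j := 0) (by omega) (by omega) (by omega) (by omega) (by omega) (by omega)
    · obtain ⟨rfl, rfl, h⟩ := h
      exact NHT.rIn hf H.T (t := 3) (p := 1) (j := 0) (by omega) (by omega) (by omega) (by omega) (by omega) (by omega) (by omega) (by omega)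
    · obtain ⟨rfl, rfl, h⟩ := h
      exact NHT.pmi hf H.T (j := 0) (by omega) (by omega) (by omega) (by omega) (by omega) (by omega)
    · obtain ⟨rfl, rfl, h⟩ := h
      exact mt (WrapC.v1 H.b4 (by omega) (by omega) (by omega) (by omega) (by omega) (by omega) (by omega) (by omega)).mp (by omega)
    · obtain ⟨rfl, rfl, h⟩ := h
      exact NW.rm1i hf H.T (p := 1) (j := 1) (by omega) (by omega) (by omega) (by omega) (by omega) (by omega) (by omega)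
    · obtain ⟨rfl, rfl, h⟩ := h
      exact NW.rm1i hf H.T (p := 0) (j := 1) (by omega) (by omega) (by omega) (by omega) (by omega) (by omega) (by omega)
    · obtain ⟨rfl, rfl, h⟩ := h
      exact NHT.rIn hf H.T (t := 2) (p := 1) (j := 0) (by omega) (by omega) (by omega) (by omega) (by omega) (by omega) (by omega) (by omega)
    · obtain ⟨rfl, rfl, h⟩ := h
      exact NHT.pIn hf H.T (t := 3) (j := 0) (by omega) (by omega) (by omega) (by omega) (by omega) (by omega) (by omega)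
    · obtain ⟨rfl, rfl, h⟩ := h
      exact NHT.p0i hf H.T (j := 1) (by omega) (by omega) (by omega) (by omega) (by omega) (by omega)
    · obtain ⟨rfl, rfl, h⟩ := h
      exact mt (WrapC.v0 H.a4 (by omega) (by omega) (by omega) (by omega) (by omega) (by omega) (by omega)).mp (by omega)
    · obtain ⟨rfl, rfl, h⟩ := h
      exact NHT.rIn hf H.T (t := 3) (p := 1) (j := 2) (by omega) (by omega) (by omega) (by omega) (by omega) (by omega) (by omega) (by omega)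
    · obtain ⟨rfl, rfl, h⟩ := h
      exact NHT.pmi hf H.T (j := 2) (by omega) (by omega) (by omega) (by omega) (by omega) (by omega)
    · obtain ⟨rfl, rfl, h⟩ := h
      exact mt (WrapC.v2 H.b4 (by omega) (by omega) (by omega) (by omega) (by omega) (by omega) (by omega)).mp (by omega)
    · obtain ⟨rfl, rfl, h⟩ := h
      exact mt (WrapC.v2 H.a6 (by omega) (by omega) (by omega) (by omega) (by omega) (by omega) (by omega)).mp (by omega)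
    · obtain ⟨rfl, rfl, h⟩ := h
      exact mt (WrapC.v2 H.a2 (by omega) (by omega) (by omega) (by omega) (by omega) (by omega) (by omega)).mp (by omega)
    · obtain ⟨rfl, rfl, h⟩ := h
      exact NW.rm1i hf H.T (p := 1) (j := 2) (by omega) (by omega) (by omega) (by omega) (by omega) (by omega) (by omega)
    · obtain ⟨rfl, rfl, h⟩ := h
      exact NW.rm1i hf H.T (p := 0) (j := 2) (by omega) (by omega) (by omega) (by omega) (by omega) (by omega) (by omega)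
    · obtain ⟨rfl, rfl, h⟩ := h
      exact NHT.pIn hf H.T (t := 3) (j := 1) (by omega) (by omega) (by omega) (by omega) (by omega) (by omega) (by omega)
    · obtain ⟨rfl, rfl, h⟩ := h
      exact NHT.p0i hf H.T (j := 2) (by omega) (by omega) (by omega) (by omega) (by omega) (by omega)

end Pool.Agent.SNT.LRI
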