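import Pool.Agent.SNT.LRC1
import Pool.Agent.SNT.LRC2
import Pool.Agent.SNT.LRC3
import Pool.Agent.SNT.LRC4
import Pool.Agent.SNT.LRC5
import Pool.Agent.SNT.LRC6
import Pool.Agent.SNT.LRC7
import Pool.Agent.SNT.LRC8
import Pool.Agent.SNT.LRC9
import Pool.Agent.SNT.LRC10
import Pool.Agent.SNT.LRC11
import Pool.Agent.SNT.LineIn
import Pool.Agent.SNT.LineR0

set_option autoImplicit false

/-! Location of the top leader: the inputs of the line proof (row `c - 1`, column `2 n + 2`). -/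

namespace Pool.Agent.SNT.LRI

open Pool.Agent.SNT Pool.Agent.SNT.Loc Pool.Agent.SNT.LW Pool.Agent.SNT.NHZ

variable {f : ℕ → ℕ → ℕ → ℕ → Prop} {k c n R x y : ℕ}

theorem LI.cge (H : LI f k c n) : 12 * k + 100 ≤ c := H.T.hb

/-- layer `6 k + 2`, row `c - 1` -/
theorem r2 (hf : Rule f) (H : LI f k c n) (hR : R + 1 = c) (hx : 2 * n ≤ x + 4) (hx1 : x ≤ 2 * n + 2)
    (hy : 2 * n + 3 ≤ y + 2 * k) (hy1 : y + 6 ≤ 2 * n) (hd : x + 2 ≤ y + 2 * k) : ¬ f (6 * k + 2) R x y := by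
  have hk := H.T.hk
  rcases Nat.lt_or_ge x (2 * n - 3) with h1 | h1
  · have ex : x + 4 = 2 * n := by omega
    rcases Nat.lt_or_ge (2 * n + 5) (y + 2 * k) with h2 | h2
    · rcases Nat.lt_or_ge y (2 * n - 8) with h3 | h3
      · rcases Nat.mod_two_eq_zero_or_one y with h4 | h4
        · exact cG2_m1_m4_0 hf H (Y := y) h4 (by omega) (by omega) rfl hR ex (by omega)
        · exact cG2_m1_m4_1 hf H (Y := y - 1) (by omega) (by omega) (by omega) rfl hR ex (by omega)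
      · rcases (show y + 8 = 2 * n ∨ y + 7 = 2 * n ∨ y + 6 = 2 * n by omega) with h | h | h
        · exact cD2_m1_m4_m8 hf H rfl hR ex h
        · exact cD2_m1_m4_m7 hf H rfl hR ex h
        · exact cD2_m1_m4_m6 hf H rfl hR ex h
    · rcases (show y + 2 * k = 2 * n + 3 ∨ y + 2 * k = 2 * n + 4 ∨ y + 2 * k = 2 * n + 5 by omega) with h | h | h
      · exact cW2_m1_m4_3 hf H rfl hR ex h
      · exact cW2_m1_m4_4 hf H rfl hR ex h
      · exact cW2_m1_m4_5 hf H rfl hR ex h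
  · rcases Nat.lt_or_ge (x + 4) (y + 2 * k) with h2 | h2
    · rcases Nat.lt_or_ge x (y + 4) with h3 | h3
      · exact cD2_m1_m3_m6 hf H rfl hR (by omega) (by omega)
      · exact NW.rm1i hf H.T hR (p := 0) (j := 3) (by omega) (by omega) (by omega) (by omega) (by omega) (by omega)
    · rcases (show (x + 1 = 2 * n ∧ y + 2 * k = 2 * n + 3) ∨ (x = 2 * n ∧ y + 2 * k = 2 * n + 3) ∨
        (x = 2 * n + 1 ∧ y + 2 * k = 2 * n + 3) ∨ (x = 2 * n ∧ y + 2 * k = 2 * n + 4) ∨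
        (x = 2 * n + 1 ∧ y + 2 * k = 2 * n + 4) ∨ (x = 2 * n + 2 ∧ y + 2 * k = 2 * n + 4) ∨
        (x = 2 * n + 1 ∧ y + 2 * k = 2 * n + 5) ∨ (x = 2 * n + 2 ∧ y + 2 * k = 2 * n + 5) ∨
        (x = 2 * n + 2 ∧ y + 2 * k = 2 * n + 6) by omega) with h | h | h | h | h | h | h | h | h
      · exact cW2_m1_m1_3 hf H rfl hR h.1 h.2
      · exact cW2_m1_0_3 hf H rfl hR h.1 h.2
      · exact cW2_m1_1_3 hf H rfl hR h.1 h.2
      · exact cW2_m1_0_4 hf H rfl hR h.1 h.2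
      · exact cW2_m1_1_4 hf H rfl hR h.1 h.2
      · exact cW2_m1_2_4 hf H rfl hR h.1 h.2
      · exact cW2_m1_1_5 hf H rfl hR h.1 h.2
      · exact cW2_m1_2_5 hf H rfl hR h.1 h.2
      · exact cW2_m1_2_6 hf H rfl hR h.1 h.2

/-- layer `6 k + 3`, row `c - 1` -/
theorem r3 (hf : Rule f) (H : LI f k c n) (hR : R + 1 = c) (hx : 2 * n ≤ x + 3) (hx1 : x ≤ 2 * n + 2)
    (hy : 2 * n + 3 ≤ y + 2 * k) (hy1 : y + 6 ≤ 2 * n) (hd : x + 3 ≤ y + 2 * k) : ¬ f (6 * k + 3) R x y := by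
  have hk := H.T.hk
  rcases Nat.lt_or_ge (x + 4) (y + 2 * k) with h2 | h2
  · rcases Nat.lt_or_ge x (y + 4) with h3 | h3
    · exact cD3_m1_m3_m6 hf H rfl hR (by omega) (by omega)
    · exact NW.rm1i hf H.T hR (p := 1) (j := 3) (by omega) (by omega) (by omega) (by omega) (by omega) (by omega)
  · rcases (show (x + 1 = 2 * n ∧ y + 2 * k = 2 * n + 3) ∨ (x = 2 * n ∧ y + 2 * k = 2 * n + 3) ∨
      (x = 2 * n ∧ y + 2 * k = 2 * n + 4) ∨
      (x = 2 * n + 1 ∧ y + 2 * k = 2 * n + 4) ∨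
      (x = 2 * n + 1 ∧ y + 2 * k = 2 * n + 5) ∨ (x = 2 * n + 2 ∧ y + 2 * k = 2 * n + 5) ∨
      (x = 2 * n + 2 ∧ y + 2 * k = 2 * n + 6) by omega) with h | h | h | h | h | h | h
    · exact cW3_m1_m1_3 hf H rfl hR h.1 h.2
    · exact cW3_m1_0_3 hf H rfl hR h.1 h.2
    · exact cW3_m1_0_4 hf H rfl hR h.1 h.2
    · exact cW3_m1_1_4 hf H rfl hR h.1 h.2
    · exact cW3_m1_1_5 hf H rfl hR h.1 h.2
    · exact cW3_m1_2_5 hf H rfl hR h.1 h.2
    · exact cW3_m1_2_6 hf H rfl hR h.1 h.2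

/-- layer `6 k + 4`, row `c - 1` -/
theorem r4 (hf : Rule f) (H : LI f k c n) (hR : R + 1 = c) (hx : 2 * n ≤ x + 3) (hx1 : x ≤ 2 * n + 2)
    (hy : 2 * n + 3 ≤ y + 2 * k) (hy1 : y + 6 ≤ 2 * n) (hd : x + 3 ≤ y + 2 * k) : ¬ f (6 * k + 4) R x y := by
  have hk := H.T.hk
  rcases Nat.lt_or_ge (x + 3) (y + 2 * k) with h2 | h2
  · exact NW.rm1i hf H.T hR (p := 0) (j := 2) (by omega) (by omega) (by omega) (by omega) (by omega) (by omega)
  · rcases (show (x = 2 * n ∧ y + 2 * k = 2 * n + 3) ∨ (x = 2 * n + 1 ∧ y + 2 * k = 2 * n + 4) ∨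
      (x = 2 * n + 2 ∧ y + 2 * k = 2 * n + 5) by omega) with h | h | h
    · exact cW4_m1_0_3 hf H rfl hR h.1 h.2
    · exact cW4_m1_1_4 hf H rfl hR h.1 h.2
    · exact cW4_m1_2_5 hf H rfl hR h.1 h.2

/-- layer `6 k`, row `c - 1` -/
theorem r0 (hf : Rule f) (H : LI f k c n) (hR : R + 1 = c) (hx : 2 * n ≤ x + 4) (hx1 : x ≤ 2 * n + 1)
    (hy : 2 * n + 4 ≤ y + 2 * k) (hy1 : y + 8 ≤ 2 * n) (hd : x + 3 ≤ y + 2 * k) : ¬ f (6 * k) R x y := by
  have hk := H.T.hk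
  rcases Nat.lt_or_ge x (2 * n - 3) with h1 | h1
  · have ex : x + 4 = 2 * n := by omega
    rcases Nat.lt_or_ge (2 * n + 5) (y + 2 * k) with h2 | h2
    · rcases Nat.lt_or_ge y (2 * n - 8) with h3 | h3
      · rcases Nat.mod_two_eq_zero_or_one y with h4 | h4
        · exact cG0_m1_m4_0 hf H (Y := y) h4 (by omega) (by omega) rfl hR ex (by omega)
        · exact cG0_m1_m4_1 hf H (Y := y - 1) (by omega) (by omega) (by omega) rfl hR ex (by omega)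
      · exact cD0_m1_m4_m8 hf H rfl hR ex (by omega)
    · rcases (show y + 2 * k = 2 * n + 4 ∨ y + 2 * k = 2 * n + 5 by omega) with h | h
      · exact cW0_m1_m4_4 hf H rfl hR ex h
      · exact cW0_m1_m4_5 hf H rfl hR ex h
  · rcases Nat.lt_or_ge (x + 5) (y + 2 * k) with h2 | h2
    · exact NW.rm1i hf H.T hR (p := 0) (j := 4) (by omega) (by omega) (by omega) (by omega) (by omega) (by omega)
    · rcases (show (x + 1 = 2 * n ∧ y + 2 * k = 2 * n + 4) ∨ (x = 2 * n ∧ y + 2 * k = 2 * n + 4) ∨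
        (x = 2 * n + 1 ∧ y + 2 * k = 2 * n + 4) ∨ (x = 2 * n ∧ y + 2 * k = 2 * n + 5) ∨
        (x = 2 * n + 1 ∧ y + 2 * k = 2 * n + 5) ∨
        (x = 2 * n + 1 ∧ y + 2 * k = 2 * n + 6) by omega) with h | h | h | h | h | h
      · exact cW0_m1_m1_4 hf H rfl hR h.1 h.2
      · exact cW0_m1_0_4 hf H rfl hR h.1 h.2
      · exact cW0_m1_1_4 hf H rfl hR h.1 h.2
      · exact cW0_m1_0_5 hf H rfl hR h.1 h.2
      · exact cW0_m1_1_5 hf H rfl hR h.1 h.2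
      · exact cW0_m1_1_6 hf H rfl hR h.1 h.2

/-- the row `c - 1` -/
theorem zr (hf : Rule f) (H : LI f k c n) {j0 jt : ℕ} (hj0 : j0 + k = n + 2) (hjt : jt + 4 = n) (p x y : ℕ) (h1 : 1 ≤ p)
    (h2 : p ≤ 10) (h3 : 2 * n + (p + 1) / 2 ≤ x + 5) (h4 : x ≤ 2 * n + 2) (h5 : 2 * j0 ≤ y + 1) (h6 : y ≤ 2 * jt + 2)
    (h7 : x + 2 * j0 + (p + 1) / 2 ≤ y + 2 * n + 3) : ¬ f (6 * k + p) (c - 1) x y := by
  have hk := H.T.hk
  have hc := H.T.hc
  have hc4 := H.T.h4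
  have hb := H.T.hb
  have hN := H.T.hN2
  have hR : c - 1 + 1 = c := by omega
  interval_cases p
  · exact H.eo _ _ _ _ (by omega) (by omega) (by omega) (by omega) (by omega) (by omega) (by omega)
  · exact r2 hf H hR (by omega) (by omega) (by omega) (by omega) (by omega)
  · exact r3 hf H hR (by omega) (by omega) (by omega) (by omega) (by omega)
  · exact r4 hf H hR (by omega) (by omega) (by omega) (by omega) (by omega)
  · exact NW.rm1i hf H.T hR (p := 1) (j := 2) (by omega) (by omega) (by omega) (by omega) (by omega) (by omega)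
  · exact NW.rm1i hf H.T hR (p := 0) (j := 1) (by omega) (by omega) (by omega) (by omega) (by omega) (by omega)
  · exact NW.rm1i hf H.T hR (p := 1) (j := 1) (by omega) (by omega) (by omega) (by omega) (by omega) (by omega)
  · exact NW.rm1i hf H.T hR (p := 0) (j := 0) (by omega) (by omega) (by omega) (by omega) (by omega) (by omega)
  · exact NW.rm1i hf H.T hR (p := 1) (j := 0) (by omega) (by omega) (by omega) (by omega) (by omega) (by omega)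
  · exact mt (NW.w3v H.b10 rfl (by omega) (by omega) (by omega) (by omega) (by omega) (by omega) (by omega)).mp
      (by omega)

/-- the layers `6 k`, `6 k - 1` -/
theorem z0 (hf : Rule f) (H : LI f k c n) {j0 jt : ℕ} (hj0 : j0 + k = n + 2) (hjt : jt + 4 = n) (x y : ℕ)
    (h1 : 2 * n ≤ x + 4) (h2 : x ≤ 2 * n + 1) (h3 : 2 * j0 ≤ y) (h4 : y ≤ 2 * jt) (h5 : x + 2 * j0 ≤ y + 2 * n + 1) :
    ¬ f (6 * k) (c - 1) x y ∧ ¬ f (6 * k - 1) (c - 1) x y ∧ ¬ f (6 * k - 1) c x y := by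
  have hk := H.T.hk
  have hb := H.T.hb
  have hN := H.T.hN2
  refine ⟨r0 hf H (by omega) (by omega) (by omega) (by omega) (by omega) (by omega), ?_, ?_⟩
  · exact H.lw _ _ _ _ (by omega) (by omega) (by omega) (by omega) (by omega) (by omega)
  · exact H.lw _ _ _ _ (by omega) (by omega) (by omega) (by omega) (by omega) (by omega)

theorem q1 (hf : Rule f) (H : LI f k c n) {j0 : ℕ} (hj0 : j0 + k = n + 2) (i : ℕ)
    (h1 : n ≤ i + 1) (h2 : i ≤ n) : ¬ f (6 * k + 1) c (2 * i) (2 * j0) := by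
  rcases (show i = n ∨ i + 1 = n by omega) with h | h
  · exact cW1_0_0_4 hf H rfl rfl (by omega) (by omega)
  · exact cW1_0_m2_4 hf H rfl rfl (by omega) (by omega)

theorem p1 (H : LI f k c n) {j0 jt : ℕ} (hj0 : j0 + k = n + 2) (hjt : jt + 4 = n) (x y : ℕ)
    (h : x % 2 = 1 ∨ y % 2 = 1) (h1 : 2 * n ≤ x + 4) (h2 : x ≤ 2 * n + 2) (h3 : 2 * j0 ≤ y + 1) (h4 : y ≤ 2 * jt + 2)
    (h5 : x + 2 * j0 ≤ y + 2 * n + 2) : ¬ f (6 * k + 1) c x y := by
  have hk := H.T.hk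
  have hb := H.T.hb
  have hN := H.T.hN2
  exact H.eo _ _ _ _ rfl (by omega) (by omega) (by omega) (by omega) (by omega) (by omega)

theorem z2 (hf : Rule f) (H : LI f k c n) {j0 jt : ℕ} (hj0 : j0 + k = n + 2) (hjt : jt + 4 = n) (s y : ℕ)
    (h1 : 1 ≤ s) (h2 : s ≤ 4) (h3 : 2 * j0 + 2 ≤ y) (h4 : y ≤ 2 * jt + 2) : ¬ f (6 * k + 2 * s + 1) c (2 * n + 2) y := by
  have hk := H.T.hk
  have hb := H.T.hb
  have hN := H.T.hN2
  by_cases h : s = 1 ∧ y + 2 * k = 2 * n + 6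
  · obtain ⟨rfl, h⟩ := h
    exact cW3_0_2_6 hf H rfl rfl rfl h
  · exact NHT.p0i hf H.T (j := 4 - s) (by omega) (by omega) (by omega) (by omega) (by omega) (by omega)

theorem s10 (H : LI f k c n) {j0 jt : ℕ} (hj0 : j0 + k = n + 2) (hjt : jt + 4 = n) (j : ℕ)
    (h1 : j0 + 3 ≤ j) (h2 : j ≤ jt) : f (6 * k + 10) c (2 * n + 3) (2 * j) := by
  have hk := H.T.hk
  have hc := H.T.hc
  have hc4 := H.T.h4
  have hb := H.T.hb
  have hN := H.T.hN2
  exact (NW.w0v H.a10 rfl (by omega) (by omega) (by omega) (by omega) (by omega) (by omega)).mpr (by omega)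

theorem f6 (hf : Rule f) (H : LI f k c n) {j0 jt : ℕ} (hj0 : j0 + k = n + 2) (hjt : jt + 4 = n)
    (K : f (6 * k + 6) c (2 * n + 3) (2 * n + 6 - 2 * k) ∨ f (6 * k + 6) c (2 * n + 5) (2 * n + 8 - 2 * k)) (j : ℕ)
    (h1 : j0 + 1 ≤ j) (h2 : j ≤ jt) : ¬ f (6 * k + 6) c (2 * n + 2) (2 * j + 1) :=
  LineIn.f6 hf H.T K (by omega) (by omega) (by omega)

theorem f2 (hf : Rule f) (H : LI f k c n) {j0 jt : ℕ} (hj0 : j0 + k = n + 2) (hjt : jt + 4 = n)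
    (K : f (6 * k + 2) c (2 * n + 3) (2 * n + 8 - 2 * k) ∨ f (6 * k + 2) c (2 * n + 5) (2 * n + 10 - 2 * k)) (j : ℕ)
    (h1 : j0 ≤ j) (h2 : j ≤ jt) : ¬ f (6 * k + 2) c (2 * n + 2) (2 * j + 1) := by
  have hk := H.T.hk
  have hN := H.T.hN2
  rcases (show j = j0 ∨ j = j0 + 1 ∨ j0 + 2 ≤ j by omega) with h | h | h
  · exact cW2_0_2_5 hf H rfl rfl rfl (by omega)
  · exact cW2_0_2_7 hf H rfl rfl rfl (by omega)
  · exact LineIn.f2 hf H.T K (by omega) (by omega) (by omega)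

/-- **The inputs of the line proof.** -/
theorem LI.mkIn (hf : Rule f) (H : LI f k c n) {j0 jb jt : ℕ} (hj0 : j0 + k = n + 2) (hjt : jt + 4 = n)
    (hjb : j0 + 1 ≤ jb) (hbt : jb + 1 ≤ jt)
    (K6 : f (6 * k + 6) c (2 * n + 3) (2 * n + 6 - 2 * k) ∨ f (6 * k + 6) c (2 * n + 5) (2 * n + 8 - 2 * k))
    (K2 : f (6 * k + 2) c (2 * n + 3) (2 * n + 8 - 2 * k) ∨ f (6 * k + 2) c (2 * n + 5) (2 * n + 10 - 2 * k))
    (da : Sig.su f (6 * k + 4) c n jt)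
    (db : LineR0.HB f (6 * k) c n jb jt → Sig.su f (6 * k + 4) c (n - 1) (jt - 1))
    (dc : LineR0.HC f (6 * k) c n jb jt → Sig.su f (6 * k + 8) c n (jt - 1)) :
    LineR0.In f (6 * k) c n j0 jb jt where
  ha := by omega
  ha1 := by have := H.T.hk; omega
  hb := H.T.hc
  hb1 := by have := H.T.hb; omega
  hn := by have := H.T.hN2; omega
  h0 := by have := H.T.hN2; omega
  h0b := hjb
  hbt := hbt
  zr := zr hf H hj0 hjt
  z0 := z0 hf H hj0 hjt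
  q1 := q1 hf H hj0
  p1 := p1 H hj0 hjt
  z2 := z2 hf H hj0 hjt
  f2 := f2 hf H hj0 hjt K2
  f6 := f6 hf H hj0 hjt K6
  s10 := s10 H hj0 hjt
  da := da
  db := db
  dc := dc

/-- `P_(6k+9)` in the row `c - 1`, columns `2 n + 1`, `2 n + 2` -/
theorem p9m (hf : Rule f) (H : LI f k c n) (hR : R + 1 = c) (hx : x = 2 * n + 1 ∨ x = 2 * n + 2) (h1 : y + 2 ≤ x)
    (h2 : x ≤ y + 2 * k) : ¬ f (6 * k + 9) R x y := by
  have hk := H.T.hk
  rcases Nat.lt_or_ge (x + 1) (y + 2 * k) with h3 | h3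
  · exact NW.rm1i hf H.T hR (p := 1) (j := 0) (by omega) (by omega) (by omega) (by omega) (by omega) (by omega)
  · rcases (show (x = 2 * n + 1 ∧ y + 2 * k = 2 * n + 1) ∨ (x = 2 * n + 1 ∧ y + 2 * k = 2 * n + 2) ∨
      (x = 2 * n + 2 ∧ y + 2 * k = 2 * n + 2) ∨ (x = 2 * n + 2 ∧ y + 2 * k = 2 * n + 3) by omega) with h | h | h | h
    · exact cW9_m1_1_1 hf H rfl hR h.1 h.2
    · exact cW9_m1_1_2 hf H rfl hR h.1 h.2
    · exact cW9_m1_2_2 hf H rfl hR h.1 h.2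
    · exact cW9_m1_2_3 hf H rfl hR h.1 h.2

/-- `P_(6k+9)` in the row `c`, column `2 n + 2` -/
theorem p9_2 (hf : Rule f) (H : LI f k c n) (hR : R = c) (hx : x = 2 * n + 2) (h1 : y + 2 ≤ x)
    (h2 : x ≤ y + 2 * k) : ¬ f (6 * k + 9) R x y := by
  have hk := H.T.hk
  rcases Nat.lt_or_ge (x + 1) (y + 2 * k) with h3 | h3
  · exact NHT.p0i hf H.T (j := 0) (by omega) (by omega) (by omega) (by omega) (by omega) (by omega)
  · rcases (show y + 2 * k = 2 * n + 2 ∨ y + 2 * k = 2 * n + 3 by omega) with h | h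
    · exact cW9_0_2_2 hf H rfl hR hx h
    · exact cW9_0_2_3 hf H rfl hR hx h

end Pool.Agent.SNT.LRI
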