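import Pool.Agent.SNT.NWD
import Pool.Agent.SNT.LRD
import Pool.Agent.SNT.LineR0
import Pool.Agent.SNT.LRIn

set_option autoImplicit false

/-! The windows at the left wall (`Wall9`) of the top leader `6 k + 10`: hypotheses and the facts used by the local
certificates.  `c` is the IN row of `6 k + 10`, `n` its lead. -/

namespace Pool.Agent.SNT.LineR0

open Pool.Agent.SNT Pool.Agent.SNT.Sig Pool.Agent.SNT.SLine

variable {f : ℕ → ℕ → ℕ → ℕ → Prop} {a b n j0 jb jt : ℕ}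

/-- no missing `u` of `6k+8` in the column `n` -/
theorem In.u8 (hf : Rule f) (I : In f a b n j0 jb jt) {j : ℕ} (hj : j0 + 1 ≤ j) (hj1 : j + 1 ≤ jt) :
    su f (a + 8) b n j := by
  have ha := I.ha
  by_contra hu
  refine beam (M := a + 7) (i := n) (jt := jt - 1) hf (by omega) I.hb (by omega) (fun x y h4 a1 a2 a3 a4 => ?_)
    (fun j' a1 a2 => ?_) (fun p x y hp a1 a2 a3 a4 => ?_) (fun p x y hp hp1 a1 a2 a3 a4 => ?_) hu (I.dc (I.HC hf))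
  · exact I.P7ne hf h4 (by omega) (by omega) (by omega) (by omega) (by omega)
  · exact I.z2 4 (2 * j' + 2) (by omega) (by omega) (by omega) (by omega)
  · have := I.zr (7 + p) x y (by omega) (by omega) (by omega) (by omega) (by omega) (by omega) (by omega)
    rwa [← add_assoc] at this
  · have := I.zr (7 + p) x y (by omega) (by omega) (by omega) (by omega) (by omega) (by omega) (by omega)
    rwa [← add_assoc] at this

end Pool.Agent.SNT.LineR0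

namespace Pool.Agent.SNT.W9

open Pool.Agent.SNT Pool.Agent.SNT.Loc Pool.Agent.SNT.LW Pool.Agent.SNT.NHZ Pool.Agent.SNT.LRI Pool.Agent.SNT.Sig

variable {f : ℕ → ℕ → ℕ → ℕ → Prop}

/-- The hypotheses of the windows at the left wall. -/
structure W9H (f : ℕ → ℕ → ℕ → ℕ → Prop) (k c n : ℕ) : Prop where
  H : LI f k c n
  T' : NHT f k (c - 4) (2 * (n - k - 2))
  p4 : Cyc f (6 * k + 4) (c - 6) (2 * (n - k - 1) + 2)
  d0 : Cyc f (6 * k) (c - 2) (2 * (n - 3) + 2)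
  I : LineR0.In f (6 * k) c n (n + 2 - k) (n - 5) (n - 4)

/-- The line of the tip and the known part of the column `2 n + 1` of `6 k + 9`. -/
structure W9T (f : ℕ → ℕ → ℕ → ℕ → Prop) (k c n : ℕ) : Prop where
  tl : ∀ M R x y : ℕ, M = 6 * k + 10 → R = c → x = 2 * n + 1 → y % 2 = 0 → 2 * n + 8 ≤ y + 2 * k → y ≤ 2 * n →
    f M R x y
  p91 : ∀ M R x y : ℕ, M = 6 * k + 9 → R = c → x = 2 * n + 1 → 2 * n + 7 ≤ y + 2 * k → y + 1 ≤ 2 * n →
    ¬ f M R x y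

variable {k c n M R x y : ℕ}

theorem W9H.P1 (hf : Rule f) (W : W9H f k c n) (hM : M = 6 * k + 1) (hR : R = c) (h1 : 2 * n ≤ x + 3)
    (h2 : x ≤ 2 * n + 1) (h3 : 2 * n + 3 ≤ y + 2 * k) (h4 : y + 7 ≤ 2 * n) : ¬ f M R x y := by
  subst hM hR
  have hk := W.H.T.hk
  have hN := W.H.T.hN2
  exact W.I.P1 hf h1 h2 (by omega) (by omega)

theorem W9H.P1' (hf : Rule f) (W : W9H f k c n) (hM : M = 6 * k + 1) (hR : R = c) (h1 : 2 * n ≤ x + 4)
    (h2 : x ≤ 2 * n + 1) (h3 : 2 * n + 5 ≤ y + 2 * k) (h4 : y + 9 ≤ 2 * n) : ¬ f M R x y := by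
  subst hM hR
  have hk := W.H.T.hk
  have hN := W.H.T.hN2
  exact W.I.P1' hf h1 h2 (by omega) (by omega) (by omega)

theorem W9H.P3 (hf : Rule f) (W : W9H f k c n) (hM : M = 6 * k + 3) (hR : R = c) (h1 : 2 * n ≤ x + 1)
    (h2 : x ≤ 2 * n + 1) (h3 : 2 * n + 4 ≤ y + 2 * k) (h4 : y + 7 ≤ 2 * n) : ¬ f M R x y := by
  subst hM hR
  have hk := W.H.T.hk
  have hN := W.H.T.hN2
  exact W.I.P3 hf h1 h2 (by omega) (by omega)

theorem W9H.P3' (hf : Rule f) (W : W9H f k c n) (hM : M = 6 * k + 3) (hR : R = c) (h1 : 2 * n ≤ x + 3)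
    (h2 : x ≤ 2 * n + 1) (h3 : 2 * n + 4 ≤ y + 2 * k) (h5 : 2 * n ≤ x + 2 ∨ 2 * n + 6 ≤ y + 2 * k)
    (h4 : y + 9 ≤ 2 * n) : ¬ f M R x y := by
  subst hM hR
  have hk := W.H.T.hk
  have hN := W.H.T.hN2
  exact W.I.P3' hf h1 h2 (by omega) (by omega) (by omega)

theorem W9H.P5 (hf : Rule f) (W : W9H f k c n) (hM : M = 6 * k + 5) (hR : R = c) (h1 : 2 * n ≤ x)
    (h2 : x ≤ 2 * n + 1) (h3 : 2 * n + 5 ≤ y + 2 * k) (h4 : y + 7 ≤ 2 * n) : ¬ f M R x y := by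
  subst hM hR
  have hk := W.H.T.hk
  have hN := W.H.T.hN2
  exact W.I.P5 hf h1 h2 (by omega) (by omega)

theorem W9H.P5' (hf : Rule f) (W : W9H f k c n) (hM : M = 6 * k + 5) (hR : R = c) (h1 : 2 * n ≤ x + 2)
    (h2 : x ≤ 2 * n + 1) (h3 : 2 * n + 5 ≤ y + 2 * k) (h5 : 2 * n ≤ x + 1 ∨ 2 * n + 7 ≤ y + 2 * k)
    (h4 : y + 9 ≤ 2 * n) : ¬ f M R x y := by
  subst hM hR
  have hk := W.H.T.hk
  have hN := W.H.T.hN2
  exact W.I.P5' hf h1 h2 (by omega) (by omega) (by omega)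

theorem W9H.P7 (hf : Rule f) (W : W9H f k c n) (hM : M = 6 * k + 7) (hR : R = c) (h1 : 2 * n ≤ x + 1)
    (h2 : x ≤ 2 * n + 1) (h3 : 2 * n + 6 ≤ y + 2 * k) (h5 : 2 * n ≤ x ∨ 2 * n + 8 ≤ y + 2 * k)
    (h4 : y + 9 ≤ 2 * n) : ¬ f M R x y := by
  subst hM hR
  have hk := W.H.T.hk
  have hN := W.H.T.hN2
  exact W.I.P7 hf h1 h2 (by omega) (by omega) (by omega)

theorem W9H.P9 (hf : Rule f) (W : W9H f k c n) (hM : M = 6 * k + 9) (hR : R = c) (h1 : 2 * n ≤ x)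
    (h2 : x ≤ 2 * n + 1) (h3 : 2 * n + 7 ≤ y + 2 * k) (h5 : 2 * n + 1 ≤ x ∨ 2 * n + 9 ≤ y + 2 * k)
    (h4 : y + 9 ≤ 2 * n) : ¬ f M R x y := by
  subst hM hR
  have hk := W.H.T.hk
  have hN := W.H.T.hN2
  exact W.I.P9 hf h1 h2 (by omega) (by omega) (by omega)

theorem W9H.y4 (hf : Rule f) (W : W9H f k c n) (hM : M = 6 * k + 4) (hR : R = c) (hx : x = 2 * n + 1)
    (hy : y % 2 = 0) (h3 : 2 * n + 6 ≤ y + 2 * k) (h4 : y + 8 ≤ 2 * n) : ¬ f M R x y := by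
  subst hM hR hx
  have hk := W.H.T.hk
  have hN := W.H.T.hN2
  have h := W.I.y4 hf (j := y / 2) (by omega) (by omega)
  unfold Sig.bY at h
  rwa [show 2 * (y / 2) = y by omega] at h

theorem W9H.y4' (hf : Rule f) (W : W9H f k c n) (hM : M = 6 * k + 4) (hR : R = c) (hx : x + 1 = 2 * n)
    (hy : y % 2 = 0) (h3 : 2 * n + 6 ≤ y + 2 * k) (h4 : y + 10 ≤ 2 * n) : ¬ f M R x y := by
  subst hM hR
  have hk := W.H.T.hk
  have hN := W.H.T.hN2
  have h := W.I.y4' hf (i := n - 1) (j := y / 2) (by omega) (by omega) (by omega)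
  unfold Sig.bY at h
  rwa [show 2 * (y / 2) = y by omega, show 2 * (n - 1) + 1 = x by omega] at h

/-- no Y-cell of `6k+8` in the column `n` -/
theorem W9H.y8 (hf : Rule f) (W : W9H f k c n) (hM : M = 6 * k + 8) (hR : R = c) (hx : x = 2 * n + 1)
    (hy : y % 2 = 0) (h3 : 2 * n + 6 ≤ y + 2 * k) (h4 : y + 10 ≤ 2 * n) : ¬ f M R x y := by
  subst hM hR hx
  have hk := W.H.T.hk
  have hN := W.H.T.hN2
  obtain ⟨j, rfl⟩ : ∃ j, y = 2 * j := ⟨y / 2, by omega⟩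
  intro hY
  rcases W.I.u8 hf (j := j) (by omega) (by omega) with hX | hO
  · refine LineR0.no_coll hf (L := 6 * k + 8) (by omega) W.I.hb ?_ (fun p x y hp a1 a2 a3 a4 => ?_) hX hY
    · exact W.I.z2 4 (2 * j + 2) (by omega) (by omega) (by omega) (by omega)
    · exact NHT.rm1i hf W.H.T (p := p) (j := 0) (by omega) hp (by omega) (by omega) (by omega) (by omega)
  · exact Sig.O_Y hf hY hO

theorem W9H.x6 (hf : Rule f) (W : W9H f k c n) (hM : M = 6 * k + 6) (hR : R = c) (hx : x = 2 * n)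
    (hy : y % 2 = 1) (h3 : 2 * n + 7 ≤ y + 2 * k) (h4 : y + 7 ≤ 2 * n) : ¬ f M R x y := by
  subst hM hR hx
  have hk := W.H.T.hk
  have hN := W.H.T.hN2
  have h := W.I.x6 hf (j := y / 2) (by omega) (by omega)
  unfold Sig.bX at h
  rwa [show 2 * (y / 2) + 1 = y by omega] at h

theorem W9H.f2 (W : W9H f k c n) (hM : M = 6 * k + 2) (hR : R = c) (hx : x = 2 * n + 2)
    (hy : y % 2 = 1) (h3 : 2 * n + 5 ≤ y + 2 * k) (h4 : y + 7 ≤ 2 * n) : ¬ f M R x y := by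
  subst hM hR hx
  have hk := W.H.T.hk
  have hN := W.H.T.hN2
  have h := W.I.f2 (y / 2) (by omega) (by omega)
  rwa [show 2 * (y / 2) + 1 = y by omega] at h

theorem W9H.f6 (W : W9H f k c n) (hM : M = 6 * k + 6) (hR : R = c) (hx : x = 2 * n + 2)
    (hy : y % 2 = 1) (h3 : 2 * n + 7 ≤ y + 2 * k) (h4 : y + 7 ≤ 2 * n) : ¬ f M R x y := by
  subst hM hR hx
  have hk := W.H.T.hk
  have hN := W.H.T.hN2
  have h := W.I.f6 (y / 2) (by omega) (by omega)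
  rwa [show 2 * (y / 2) + 1 = y by omega] at h

theorem W9H.z2 {s : ℕ} (W : W9H f k c n) (hM : M = 6 * k + 2 * s + 1) (hR : R = c) (hx : x = 2 * n + 2)
    (h1 : 1 ≤ s) (h2 : s ≤ 4) (h3 : 2 * n + 6 ≤ y + 2 * k) (h4 : y + 6 ≤ 2 * n) : ¬ f M R x y := by
  subst hM hR hx
  have hk := W.H.T.hk
  have hN := W.H.T.hN2
  exact W.I.z2 s y h1 h2 (by omega) (by omega)

theorem W9H.zr {p : ℕ} (W : W9H f k c n) (hM : M = 6 * k + p) (hR : R + 1 = c) (h1 : 1 ≤ p) (h2 : p ≤ 10)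
    (h3 : 2 * n + (p + 1) / 2 ≤ x + 5) (h4 : x ≤ 2 * n + 2) (h5 : 2 * n + 3 ≤ y + 2 * k) (h6 : y + 6 ≤ 2 * n)
    (h7 : x + 1 + (p + 1) / 2 ≤ y + 2 * k) : ¬ f M R x y := by
  have hk := W.H.T.hk
  have hN := W.H.T.hN2
  have h := W.I.zr p x y h1 h2 h3 h4 (by omega) (by omega) (by omega)
  rwa [show c - 1 = R by omega, ← hM] at h

theorem W9H.z0 (W : W9H f k c n) (hM : M = 6 * k) (hR : R + 1 = c)
    (h3 : 2 * n ≤ x + 4) (h4 : x ≤ 2 * n + 1) (h5 : 2 * n + 4 ≤ y + 2 * k) (h6 : y + 8 ≤ 2 * n)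
    (h7 : x + 3 ≤ y + 2 * k) : ¬ f M R x y := by
  have hk := W.H.T.hk
  have hN := W.H.T.hN2
  have h := (W.I.z0 x y h3 h4 (by omega) (by omega) (by omega)).1
  rwa [show c - 1 = R by omega, ← hM] at h

theorem W9H.p9m (hf : Rule f) (W : W9H f k c n) (hM : M = 6 * k + 9) (hR : R + 1 = c)
    (hx : x = 2 * n + 1 ∨ x = 2 * n + 2) (h1 : y + 2 ≤ x) (h2 : x ≤ y + 2 * k) : ¬ f M R x y := by
  subst hM
  exact LRI.p9m hf W.H hR hx h1 h2

theorem W9H.p92 (hf : Rule f) (W : W9H f k c n) (hM : M = 6 * k + 9) (hR : R = c)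
    (hx : x = 2 * n + 2) (h1 : y + 2 ≤ x) (h2 : x ≤ y + 2 * k) : ¬ f M R x y := by
  subst hM
  exact LRI.p9_2 hf W.H hR hx h1 h2

theorem W9H.q1 (W : W9H f k c n) (hM : M = 6 * k + 1) (hR : R = c) (hx : x + 2 = 2 * n ∨ x = 2 * n)
    (hy : y + 2 * k = 2 * n + 4) : ¬ f M R x y := by
  subst hM hR
  have hk := W.H.T.hk
  have hN := W.H.T.hN2
  have h := W.I.q1 (x / 2) (by omega) (by omega)
  rwa [show 2 * (x / 2) = x by omega, show 2 * (n + 2 - k) = y by omega] at h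

end Pool.Agent.SNT.W9
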