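import Pool.Agent.SNT.LineV9A
import Pool.Agent.SNT.NbL
import Pool.Agent.SNT.W9D
import Pool.Agent.SNT.LineY8

set_option autoImplicit false

/-! The common inputs of the near-wall windows of the top leader, from the windows with the deep lead `n - k - 5` of `6 k`. -/

namespace Pool.Agent.SNT.LineVC

open Pool.Agent.SNT Pool.Agent.SNT.LRI Pool.Agent.SNT.LW Pool.Agent.SNT.NHZ

variable {f : ℕ → ℕ → ℕ → ℕ → Prop} {k b m c n : ℕ}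

/-- `c` is the IN row of `6 k + 10`, `n` its lead. -/
structure Com (f : ℕ → ℕ → ℕ → ℕ → Prop) (k c n : ℕ) : Prop where
  T : NHT f k c (2 * n)
  T1 : NHT f k (c - 4) (2 * (n - k - 2))
  lw : ∀ R x y : ℕ, c ≤ R + 14 → R ≤ c + 12 → 2 * n ≤ x + 60 → y ≤ x → x ≤ y + 4 * k → ¬ f (6 * k - 1) R x y
  C10_0 : Cw f (6 * k + 10) c n
  C10_4 : Cw f (6 * k + 10) (c - 4) (n - k - 2)
  C8_2 : Cw f (6 * k + 8) (c - 2) (n - 3)
  C8_6 : Cw f (6 * k + 8) (c - 6) (n - k - 5)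
  C6_4 : Cyc f (6 * k + 6) (c - 4) (2 * (n - 5) + 2)
  C6_8 : Cyc f (6 * k + 6) (c - 8) (2 * (n - k - 7) + 2)
  C4_2 : Cyc f (6 * k + 4) (c - 2) (2 * (n + 1) + 2)
  C4_6 : Cyc f (6 * k + 4) (c - 6) (2 * (n - k - 1) + 2)
  C2_4 : Cyc f (6 * k + 2) (c - 4) (2 * (n - 5) + 2)
  C2_8 : Cyc f (6 * k + 2) (c - 8) (2 * (n - k - 7) + 2)
  C0_6 : Cyc f (6 * k) (c - 6) (2 * (n - k - 5) + 2)
  C0_2 : Cyc f (6 * k) (c - 2) (2 * (n - 3) + 2)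
  p1 : ∀ x y : ℕ, 2 * n ≤ x + 3 → x ≤ 2 * n + 1 → 2 * n + 3 ≤ y + 2 * k → y + 7 ≤ 2 * n → ¬ f (6 * k + 1) c x y
  p3 : ∀ x y : ℕ, 2 * n ≤ x + 1 → x ≤ 2 * n + 1 → 2 * n + 4 ≤ y + 2 * k → y + 7 ≤ 2 * n → ¬ f (6 * k + 3) c x y
  p3' : ∀ x y : ℕ, 2 * n ≤ x + 2 → x ≤ 2 * n + 1 → 2 * n + 6 ≤ y + 2 * k → y + 9 ≤ 2 * n → ¬ f (6 * k + 3) c x y
  p5 : ∀ x y : ℕ, 2 * n ≤ x → x ≤ 2 * n + 1 → 2 * n + 5 ≤ y + 2 * k → y + 7 ≤ 2 * n → ¬ f (6 * k + 5) c x y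
  p7 : ∀ x y : ℕ, 2 * n ≤ x → x ≤ 2 * n + 1 → 2 * n + 6 ≤ y + 2 * k → y + 9 ≤ 2 * n → ¬ f (6 * k + 7) c x y
  p9 : ∀ x y : ℕ, x = 2 * n + 1 → 2 * n + 7 ≤ y + 2 * k → y + 1 ≤ 2 * n → 1 ≤ y → ¬ f (6 * k + 9) c x y
  y4 : ∀ y : ℕ, y % 2 = 0 → 2 * n + 6 ≤ y + 2 * k → y + 8 ≤ 2 * n → ¬ f (6 * k + 4) c (2 * n + 1) y
  y4' : ∀ y : ℕ, y % 2 = 0 → 2 * n + 6 ≤ y + 2 * k → y + 9 ≤ 2 * n → ¬ f (6 * k + 4) c (2 * n - 1) y
  y8 : ∀ y : ℕ, y % 2 = 0 → 2 * n + 6 ≤ y + 2 * k → y + 8 ≤ 2 * n → ¬ f (6 * k + 8) c (2 * n + 1) y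
  f2 : F2 f k c n
  f6 : F6 f k c n
  /-- no beam in the column `2 n + 3` of `6 k + 4` -/
  nb : ∀ y : ℕ, y % 2 = 0 → 2 * n + 3 ≤ y + 2 * k → y ≤ 2 * n → ¬ f (6 * k + 4) c (2 * n + 3) y

/-- the common inputs, in every cycle `j + 1` -/
theorem Com.of (hf : Rule f) (W : WL0 f k b m 5) (j : ℕ) :
    Com f k (b + 4 * (j + 1) + 22) (D1.nn k m (j + 1)) := by
  have H := (W.win (j + 1)).li hf
  have I := W.inp hf j
  have hF2 := F2.of hf H ((W.win (j + 1)).K2 hf)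
  have hF6 := F6.of hf H ((W.win (j + 1)).K6 hf)
  have e1 : D1.nn k m (j + 1) = D1.nn k m j + k + 2 := by unfold D1.nn; ring
  have e2 : D1.nn k m (j + 2) = D1.nn k m (j + 1) + k + 2 := by unfold D1.nn; ring
  have d4 := (W.win j).d4
  have a2' := ((W.win j).li hf).a2
  have T1 := (W.win (j + 1)).T4 hf
  have c6 := W.l0 (j + 1)
  have c2 := W.l0 (j + 2)
  have hk := H.T.hk
  have hN := H.T.hN2
  have hb := H.T.hb
  have hnb := fun (y : ℕ) (h1 : y % 2 = 0) (h2 : 2 * D1.nn k m (j + 1) + 3 ≤ y + 2 * k)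
    (h3 : y ≤ 2 * D1.nn k m (j + 1)) => NbL.nb_stack hf W.w j h1 h2 h3
  have e3 : 2 * (D1.nn k m (j + 1) - k - 2) = 2 * D1.nn k m j := by omega
  have T1' : NHT f k (b + 4 * (j + 1) + 22 - 4) (2 * (D1.nn k m (j + 1) - k - 2)) := by
    rw [e3]
    have h := ((W.win j).li hf).T
    rwa [show b + 4 * j + 22 = b + 4 * (j + 1) + 22 - 4 by omega] at h
  clear T1
  generalize D1.nn k m (j + 1) = n at *
  generalize D1.nn k m (j + 2) = n2 at *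
  generalize D1.nn k m j = n0 at *
  subst e1 e2
  have WH : W9.W9H f k (b + 4 * (j + 1) + 22) (n0 + k + 2) := {
    H := H
    T' := T1'
    p4 := D1.cyc_of_eq d4 (by omega) (by omega)
    d0 := D1.cyc_of_eq c2 (by omega) (by omega)
    I := I }
  exact {
    T := H.T
    T1 := T1'
    lw := fun R x y h1 h2 h3 h4 h5 => H.lw _ _ _ _ (by omega) h1 h2 h3 h4 h5
    C10_0 := H.a10
    C10_4 := NW.cw_mv H.b10 rfl rfl (by omega)
    C8_2 := H.a8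
    C8_6 := NW.cw_mv H.b8 rfl rfl (by omega)
    C6_4 := H.a6
    C6_8 := H.b6
    C4_2 := H.a4
    C4_6 := D1.cyc_of_eq d4 (by omega) (by omega)
    C2_4 := H.a2
    C2_8 := D1.cyc_of_eq a2' (by omega) (by omega)
    C0_6 := D1.cyc_of_eq c6 (by omega) (by omega)
    C0_2 := D1.cyc_of_eq c2 (by omega) (by omega)
    p1 := fun x y h1 h2 h3 h4 => I.P1 hf h1 h2 (by omega) (by omega)
    p3 := fun x y h1 h2 h3 h4 => I.P3 hf h1 h2 (by omega) (by omega)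
    p3' := fun x y h1 h2 h3 h4 => I.P3' hf (by omega) h2 (by omega) (by omega) (by omega)
    p5 := fun x y h1 h2 h3 h4 => I.P5 hf h1 h2 (by omega) (by omega)
    p7 := fun x y h1 h2 h3 h4 => I.P7 hf (by omega) h2 (by omega) (by omega) (by omega)
    p9 := fun x y h1 h2 h3 h4 => by
      subst h1
      rcases Nat.lt_or_ge (y + 8) (2 * (n0 + k + 2)) with h | h
      · exact H.p9_1 hf hF2 hF6 I (by omega) (by omega)
      · exact H.p9_1 hf hF2 hF6 I (by omega) (by omega)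
    y4 := fun y h1 h2 h3 => WH.y4 hf rfl rfl rfl h1 h2 h3
    y4' := fun y h1 h2 h3 => WH.y4' hf rfl rfl (by omega) h1 h2 (by omega)
    y8 := fun y h1 h2 h3 => by
      rcases Nat.lt_or_ge (y + 9) (2 * (n0 + k + 2)) with h | h
      · exact WH.y8 hf rfl rfl rfl h1 h2 (by omega)
      · obtain rfl : y = 2 * (n0 + k + 2) - 8 := by omega
        exact LineY8.y8 hf ⟨H.T, H.a8, fun x y h1 h2 h3 h4 => I.P7 hf (by omega) h2 (by omega) (by omega) (by omega),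
          fun y h1 h2 h3 => WH.y8 hf rfl rfl rfl h1 h2 h3⟩
    f2 := hF2
    f6 := hF6
    nb := hnb }

end Pool.Agent.SNT.LineVC
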