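import Pool.Agent.SNT.PL

set_option autoImplicit false
set_option synthInstance.maxSize 100000
set_option synthInstance.maxHeartbeats 4000000

/-! One run at the wall: the line `2 n - 2 k - 7` of `6 k`, row `c - 4` (deep lead `n - k - 5`). -/

namespace Pool.Agent.SNT.W2V

open Pool.Agent.SNT Pool.Agent.SNT.Sig Pool.Agent.SNT.Loc Pool.Agent.SNT.LW Pool.Agent.SNT.NHZ Pool.Agent.SNT.DRun
open Pool.Agent.SNT.PB Pool.Agent.SNT.D1E

variable {f : ℕ → ℕ → ℕ → ℕ → Prop}

theorem run_l5_chk : check 2 4 7 14 0 0 1 1 0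
    (fun j n p q => decide ((j = 2 ∧ n = 1 ∧ q ≤ p + 7 ∧ p + 0 ≤ q ∧ ((p + q + 0) % 2 = 0 ∧ q ≤ p + 0 ∧ (p + q + 0) % 4 = 0))
      ∨ (j = 2 ∧ n = 2 ∧ p = 1 ∧ q = 8)))
    (fun j n p q => decide ((j = 2 ∧ n = 1 ∧ q ≤ p + 7 ∧ p + 0 ≤ q ∧ ¬ ((p + q + 0) % 2 = 0 ∧ q ≤ p + 0 ∧ (p + q + 0) % 4 = 0))
      ∨ (j = 1 ∧ n = 2 ∧ q ≤ p + 7 ∧ p + 0 ≤ q)
      ∨ (j = 1 ∧ n = 1 ∧ q ≤ p + 7 ∧ p + 0 ≤ q)
      ∨ (j = 2 ∧ n = 2 ∧ p = 5 ∧ q = 8)))
    82
    0x2090302098002111a01fa0301fa8001fb0a01fb8002031a020a00020a0401f50001d70001c80002110702108702028702018701f50f01f38701f28701e00701df8701d90701d88701d80701d78701d70f01d20701d18701d10701d08701cb0701ca8701ca0701c98701c90701c88701c80f01c30701c28701c20701c187014d07014c87014607014587014507014487013f07013e87013e07013d87013807013787013707013687013607013587013007012f87012f07012e87011c07011b87011507011487011407011387010e07010d87010d07010c8701070701068701060701058701050701048700ff0700fe8700fe0700fd87 = true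 := by
  decide +kernel

/-- The OUT line `2 n - 2 k - 7` of `6 k` present at `d = 2 k - 7` is present at `d = 2 k - 3`. -/
theorem run_l5 (hf : Rule f) {k c n M : ℕ} (H : PL f k c n M) (C0 : Cyc f (6 * k) (c - 6) (2 * (n - (k + 5)) + 2))
    (h1 : f (6 * k) (c - 4) (2 * n - 14) (2 * n - 2 * k - 7)) : f (6 * k) (c - 4) (2 * n - 10) (2 * n - 2 * k - 7) := by
  by_contra g0
  have hk := H.T.hk
  have hc := H.T.hc
  have h4' := H.T.h4
  have hb := H.T.hb
  have hN := H.T.hN2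
  obtain ⟨a0, ha0⟩ : ∃ z, z + 2 = 6 * k := ⟨6 * k - (2), by omega⟩
  obtain ⟨b0, hb0⟩ : ∃ z, z + 6 = c := ⟨c - (6), by omega⟩
  obtain ⟨x0, hx0⟩ : ∃ z, z + 15 = 2 * n := ⟨2 * n - (15), by omega⟩
  obtain ⟨y0, hy0⟩ : ∃ z, z + 2 * k + 15 = 2 * n := ⟨2 * n - (2 * k + 15), by omega⟩
  refine check_sound hf (a0 := a0) (b0 := b0) (x0 := x0) (y0 := y0) run_l5_chk
    ⟨fun h => absurd h (by decide), fun h => absurd h (by decide), fun h => absurd h (by decide), by omega, by omega,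
      by omega, by omega⟩ ?_ ?_
  · intro j m p q hr h
    obtain ⟨-, -, -, -, hp1, hp2, hq1, hq2⟩ := hr
    replace h := of_decide_eq_true h
    rcases h with h | h
    · obtain ⟨rfl, rfl, h⟩ := h
      exact (WrapC.v1 C0 (by omega) (by omega) (by omega) (by omega) (by omega) (by omega) (by omega) (by omega)).mpr (by omega)
    · obtain ⟨rfl, rfl, rfl, rfl⟩ := h
      exact mv h1 (by omega) (by omega) (by omega) (by omega)
  · intro j m p q hr h
    obtain ⟨-, -, -, -, hp1, hp2, hq1, hq2⟩ := hr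
    replace h := of_decide_eq_true h
    rcases h with h | h | h | h
    · obtain ⟨rfl, rfl, h⟩ := h
      exact mt (WrapC.v1 C0 (by omega) (by omega) (by omega) (by omega) (by omega) (by omega) (by omega) (by omega)).mp (by omega)
    · obtain ⟨rfl, rfl, h⟩ := h
      exact H.lw _ _ _ _ (by omega) (by omega) (by omega) (by omega) (by omega) (by omega)
    · obtain ⟨rfl, rfl, h⟩ := h
      exact H.lw _ _ _ _ (by omega) (by omega) (by omega) (by omega) (by omega) (by omega)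
    · obtain ⟨rfl, rfl, rfl, rfl⟩ := h
      exact fun t => g0 (mv t (by omega) (by omega) (by omega) (by omega))

end Pool.Agent.SNT.W2V
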