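import Pool.Agent.SNT.LineV4
import Pool.Agent.SNT.LineVC
import Pool.Agent.SNT.W2V

set_option autoImplicit false

/-! The cells `v = 1, 4` of the wall empty the near-wall cell `d = 2 k - 7` of the line `2 n' - 3` of `6 k` in the row `c'`
(over the windows with the deep lead `n - k - 5` of `6 k`). -/

namespace Pool.Agent.SNT.LineVC

open Pool.Agent.SNT Pool.Agent.SNT.LRI Pool.Agent.SNT.LW Pool.Agent.SNT.NHZ Pool.Agent.SNT.D1E

variable {f : ℕ → ℕ → ℕ → ℕ → Prop} {k b m c n : ℕ}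

/-- the window as `PL` -/
theorem pl_of_win (hf : Rule f) (W : Win f k b m n) : PL f k (b + 22) n (n - 4) := by
  have h := (W.li hf).T.hN2
  exact PL.of_stack W.hs W.S W.hn (by omega) (by omega) (D1.cyc_of_eq W.d0 (by omega) (by omega))
    (WrapC.cyc_mono W.d2 (by omega)) W.d4

/-- the inputs of `LineV4` from the common ones -/
theorem Com.v4 (C : Com f k c n) (tl : f (6 * k + 10) c (2 * n + 1) (2 * n - 2 * k + 8))
    (l5 : f (6 * k) (c - 4) (2 * n - 10) (2 * n - 2 * k - 7)) : LineV4.In f k c n where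
  T := C.T
  lw := fun R x y h1 h2 h3 h4 h5 h6 => C.lw R x y (by omega) (by omega) (by omega) h5 (by have := C.T.hk; omega)
  C10_0 := C.C10_0
  C10_4 := C.C10_4
  C8_2 := C.C8_2
  C6_4 := C.C6_4
  C4_2 := C.C4_2
  C4_6 := C.C4_6
  C2_4 := C.C2_4
  C0_6 := C.C0_6
  C0_2 := C.C0_2
  p1 := C.p1
  p3 := C.p3
  p3' := C.p3'
  p5 := C.p5
  p7 := C.p7
  p9 := C.p9
  y4 := C.y4
  y4' := C.y4'
  y8 := fun y h1 h2 h3 => C.y8 y h1 (by omega) h3
  f6 := fun y h1 h2 h3 => C.f6 _ _ _ _ rfl rfl rfl h1 h2 h3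
  nb := fun y h1 h2 h3 => C.nb y h1 (by omega) h3
  tl := tl
  l5 := l5

/-- **`v = 1` or `v = 4` empties the line `2 n' - 3` of `6 k` at `d = 2 k - 7`.** -/
theorem W2 (hf : Rule f) (W : WL0 f k b m 5) (j : ℕ)
    (tip : f (6 * k + 10) (b + 4 * (j + 1) + 22) (2 * D1.nn k m (j + 1) + 1) (2 * D1.nn k m (j + 1)))
    (hv : f (6 * k + 9) (b + 4 * (j + 1) + 22) (2 * D1.nn k m (j + 1) + 1) (2 * D1.nn k m (j + 1) - 2 * k + 1) ∨
      f (6 * k + 9) (b + 4 * (j + 1) + 22) (2 * D1.nn k m (j + 1) + 1) (2 * D1.nn k m (j + 1) - 2 * k + 4)) :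
    ¬ f (6 * k) (b + 4 * (j + 1) + 22 - 4) (2 * D1.nn k m (j + 1) - 14) (2 * D1.nn k m (j + 1) - 2 * k - 7) := by
  intro h
  have C := Com.of hf W j
  have P := pl_of_win hf (W.win (j + 1))
  have H := (W.win (j + 1)).li hf
  have I := W.inp hf j
  have hF2 := F2.of hf H ((W.win (j + 1)).K2 hf)
  have hF6 := F6.of hf H ((W.win (j + 1)).K6 hf)
  have hk := H.T.hk
  have hN := H.T.hN2
  have hT := LineV9.tipline hf H hF2 hF6 I tip (y := 2 * D1.nn k m (j + 1) - 2 * k + 8) (by omega) (by omega) (by omega)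
  have l5 := W2V.run_l5 hf P (D1.cyc_of_eq (W.l0 (j + 1)) (by omega) (by omega)) h
  have V := C.v4 hT l5
  rcases hv with h1 | h4
  · exact LineV4.w9_1 hf V h1
  · exact LineV4.w9_4 hf V h4

end Pool.Agent.SNT.LineVC
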