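import Pool.Agent.SNT.TipK0
import Pool.Agent.SNT.LineR0

set_option autoImplicit false
set_option synthInstance.maxSize 100000
set_option synthInstance.maxHeartbeats 4000000

/-! The run of the column `2 n - 1` of `6 k + 2`, IN row, from the wall to the diagonal. -/

namespace Pool.Agent.SNT.RunDp

open Pool.Agent.SNT Pool.Agent.SNT.Sig Pool.Agent.SNT.Loc Pool.Agent.SNT.LW Pool.Agent.SNT.NHZ

variable {f : ℕ → ℕ → ℕ → ℕ → Prop}

theorem step_chk : check 3 4 6 6 0 0 0 0 0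
    (fun j n p q => decide ((j = 2 ∧ n = 2 ∧ p = 3 ∧ q = 2)))
    (fun j n p q => decide ((j = 2 ∧ n = 1 ∧ q ≤ p + 4 ∧ p ≤ q + 1)
      ∨ (j = 3 ∧ n = 1 ∧ q ≤ p + 4 ∧ p ≤ q + 1)
      ∨ (j = 2 ∧ n = 2 ∧ p = 3 ∧ q = 4)
      ∨ (j = 3 ∧ n = 2 ∧ 3 ≤ p ∧ p ≤ 4 ∧ 3 ≤ q ∧ q ≤ 4)))
    17
    0x10a0300be00010a0701098701070701068700f80700f78700f50700f48700c20700bf0700be0f00b00700af8700ad0700ac87 = true := by
  decide +kernel

/-- One step of the run of the column `2 n - 1` of `6 k + 2`, IN row. -/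
theorem step (hf : Rule f) {k c n s : ℕ} (T : NHT f k c (2 * n)) (hs : s % 2 = 0) (hs1 : s + 10 ≤ 2 * n) (hs2 : 2 * n + 4 ≤ s + 2 * k)
    (p3 : ∀ x y : ℕ, 2 * n ≤ x + 1 → x ≤ 2 * n + 1 → 2 * n + 4 ≤ y + 2 * k → y + 7 ≤ 2 * n → ¬ f (6 * k + 3) c x y)
    (h0 : f (6 * k + 2) c (2 * n - 1) s) : f (6 * k + 2) c (2 * n - 1) (s + 2) := by
  by_contra z0
  have hk := T.hk
  have hc := T.hc
  have h4' := T.h4
  have hb := T.hb
  have hN := T.hN2
  obtain ⟨a0, ha0⟩ : ∃ z, z = 6 * k := ⟨_, rfl⟩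
  obtain ⟨b0, hb0⟩ : ∃ z, z + 2 = c := ⟨c - 2, by omega⟩
  obtain ⟨x0, hx0⟩ : ∃ z, z + 4 = 2 * n := ⟨2 * n - 4, by omega⟩
  obtain ⟨y0, hy0⟩ : ∃ z, z + 2 = s := ⟨s - 2, by omega⟩
  refine check_sound hf (a0 := a0) (b0 := b0) (x0 := x0) (y0 := y0) step_chk
    ⟨fun h => absurd h (by decide), fun h => absurd h (by decide), fun h => absurd h (by decide), by omega, by omega,
      by omega, by omega⟩ ?_ ?_
  · intro j m p q hr h
    obtain ⟨-, -, -, -, hp1, hp2, hq1, hq2⟩ := hr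
    replace h := of_decide_eq_true h
    obtain ⟨rfl, rfl, rfl, rfl⟩ := h
    exact mv h0 (by omega) (by omega) (by omega) (by omega)
  · intro j m p q hr h
    obtain ⟨-, -, -, -, hp1, hp2, hq1, hq2⟩ := hr
    replace h := of_decide_eq_true h
    rcases h with h | h | h | h
    · obtain ⟨rfl, rfl, h⟩ := h
      exact fun t => NHT.rm1i hf T (p := 0) (j := 3) (by omega) (by omega) (by omega) (by omega) (by omega) (by omega) (mv t rfl (by omega) rfl rfl)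
    · obtain ⟨rfl, rfl, h⟩ := h
      exact fun t => NHT.rm1i hf T (p := 1) (j := 3) (by omega) (by omega) (by omega) (by omega) (by omega) (by omega) (mv t rfl (by omega) rfl rfl)
    · obtain ⟨rfl, rfl, rfl, rfl⟩ := h
      exact fun t => z0 (mv t (by omega) (by omega) (by omega) (by omega))
    · obtain ⟨rfl, rfl, h⟩ := h
      exact fun t => p3 _ _ (by omega) (by omega) (by omega) (by omega) (mv t (by omega) (by omega) rfl rfl)

/-- **run (d')**: the column `2 n - 1` of `6 k + 2`, IN row, from the wall to the diagonal -/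
theorem run_d (hf : Rule f) {k c n : ℕ} (T : NHT f k c (2 * n))
    (p3 : ∀ x y : ℕ, 2 * n ≤ x + 1 → x ≤ 2 * n + 1 → 2 * n + 4 ≤ y + 2 * k → y + 7 ≤ 2 * n → ¬ f (6 * k + 3) c x y)
    (h0 : f (6 * k + 2) c (2 * n - 1) (2 * n + 4 - 2 * k)) :
    ∀ y, 2 * n + 4 ≤ y + 2 * k → y + 8 ≤ 2 * n → y % 2 = 0 → f (6 * k + 2) c (2 * n - 1) y := by
  have hN := T.hN2
  have key : ∀ j : ℕ, 2 * n + 4 - 2 * k + 2 * j + 8 ≤ 2 * n → f (6 * k + 2) c (2 * n - 1) (2 * n + 4 - 2 * k + 2 * j) := by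
    intro j
    induction j with
    | zero => exact fun _ => h0
    | succ j ih =>
      intro h
      exact step hf T (s := 2 * n + 4 - 2 * k + 2 * j) (by omega) (by omega) (by omega) p3 (ih (by omega))
  intro y h1 h2 h3
  have h4 := key ((y - (2 * n + 4 - 2 * k)) / 2) (by omega)
  rwa [show 2 * n + 4 - 2 * k + 2 * ((y - (2 * n + 4 - 2 * k)) / 2) = y by omega] at h4

end Pool.Agent.SNT.RunDp
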