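import Pool.Agent.SNT.LPA
import Pool.Agent.SNT.LineV4A
import Pool.Agent.SNT.TrC
import Pool.Agent.SNT.RunDp
import Pool.Agent.SNT.LV5W

set_option autoImplicit false

/-! The cells `v = 1` and `v = 4` of `Wall9`, and the cells of `LocR10A`. -/

namespace Pool.Agent.SNT.LPA

open Pool.Agent.SNT Pool.Agent.SNT.LRI Pool.Agent.SNT.LW Pool.Agent.SNT.NHZ Pool.Agent.SNT.DRun Pool.Agent.SNT.D1E

variable {f : ℕ → ℕ → ℕ → ℕ → Prop} {k b m c n : ℕ}

theorem PA.ci (a : PA f k c n) : TrC.CI f k c n where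
  T := a.H.T
  lw := fun M R x y h1 h2 h3 h4 h5 h6 => a.Pl.lw M R x y h1 h2 h3 h4 h5 h6
  I := a.I
  D0 := WrapC.cyc_mono a.Z (by omega)
  c0 := WrapC.cyc_mono a.C0 (by omega)
  c2 := a.H.a2

/-- no beam of the column `2 n - 3` of `6 k` in the row `c`, near the wall -/
theorem PA.xm3w (hf : Rule f) (a : PA f k c n) (h : ¬ f (6 * k) (c - 2) (2 * n - 5) (2 * n - 12)) {y : ℕ}
    (hy : y % 2 = 0) (h1 : 2 * n + 2 ≤ y + 2 * k) (h2 : y + 10 ≤ 2 * n) : ¬ f (6 * k) c (2 * n - 3) y := by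
  have hk := a.H.T.hk
  have hN := a.H.T.hN2
  exact fun g => a.xm3 hf h (TrC.run_bu hf a.ci hy (by omega) h1 (by omega) (by omega) g)

/-- the in-line `2 n - 1` of `6 k + 2` runs to the diagonal -/
theorem PA.rd (hf : Rule f) (a : PA f k c n) {y : ℕ} (hy : y % 2 = 0) (h1 : 2 * n + 4 ≤ y + 2 * k) (h2 : y + 8 ≤ 2 * n)
    (h : f (6 * k + 2) c (2 * n - 1) y) : f (6 * k + 2) c (2 * n - 1) (2 * n - 8) := by
  have hk := a.H.T.hk
  have hN := a.H.T.hN2
  rcases Nat.lt_or_ge (y + 8) (2 * n) with h2' | h2'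
  · have h3 := TrC.run_du hf a.ci hy (y1 := 2 * n - 10) (by omega) h1 (by omega) (by omega) h
    have h4 := RunDp.step hf a.H.T (s := 2 * n - 10) (by omega) (by omega) (by omega)
      (fun x y a1 a2 a3 a4 => a.I.P3 hf a1 a2 (by omega) (by omega)) h3
    rwa [show 2 * n - 10 + 2 = 2 * n - 8 by omega] at h4
  · rwa [show 2 * n - 8 = y by omega]

/-- the out-line `2 n + 1` of `6 k + 2` in the row `c + 2` is present near the wall -/
theorem PA.o1 (hf : Rule f) (a : PA f k c n)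
    (d4 : f (6 * k + 2) c (2 * n - 1) (2 * n - 8) → f (6 * k + 2) c (2 * n - 1) (2 * n - 10) →
      ¬ f (6 * k + 2) (c + 2) (2 * n + 8) (2 * n + 1) → False)
    (h : ¬ f (6 * k) (c - 2) (2 * n - 5) (2 * n - 12)) : f (6 * k + 2) (c + 2) (2 * n + 2 * k - 8) (2 * n + 1) := by
  have hk := a.H.T.hk
  have hN := a.H.T.hN2
  have h1 : f (6 * k + 2) c (2 * n - 1) (2 * n + 8 - 2 * k) := by
    by_contra g
    exact L4T.w5 hf a.h4 (by rw [show n - k - 5 = n - (k + 5) by omega]; exact a.C0) a.Z a.nb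
      (a.x5w hf h (by omega) (by omega) (by omega))
      (fun t => g (by rwa [show 2 * n + 8 - 2 * k = 2 * n - 2 * k + 8 by omega]))
      (a.xm3w hf h (by omega) (by omega) (by omega))
  have h2 : f (6 * k + 2) (c + 2) (2 * n + 8) (2 * n + 1) := by
    by_contra g
    have h3 := a.rd hf (by omega) (by omega) (by omega) h1
    have h4 := TrC.run_dd hf a.ci (y0 := 2 * n - 10) (y1 := 2 * n - 8) (by omega) (by omega) (by omega) (by omega)
      (by omega) h3
    exact d4 h3 h4 g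
  exact TrR.run_ir hf a.Zb (x0 := 2 * n + 8) (by omega) (by omega) (by omega) (by omega) (by omega) h2

end Pool.Agent.SNT.LPA
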