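import Pool.Agent.SNT.LR10
import Pool.Agent.SNT.D1Ind

set_option autoImplicit false

/-! The top leader `6 k + 10` over `StackB`, from the steps of the improved leads. -/

namespace Pool.Agent.SNT.S6

open Pool.Agent.SNT Pool.Agent.SNT.NDB

variable {f : ℕ → ℕ → ℕ → ℕ → Prop}

/-- **`R10`** from the improved leads. -/
theorem R10A_of_lead (hf : Rule f) {k : ℕ}
    (I : ∀ b m : ℕ, StackB f k b m 0 0 0 0 0 1 → Imp f k b (m + 9 + (k + 2) * 4)) : LeadR10A f k := by
  intro b m S ht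
  exact leadR10_imp hf S.side S.stack (I b m S) ht

/-- The improved leads of one window from those of all cycles. -/
theorem imp_of_steps {k : ℕ} (hk : 8 ≤ k) (H : D1.Steps f k 0 1) (b m : ℕ) (S : StackB f k b m 0 0 0 0 0 1) :
    Imp f k b (m + 9 + (k + 2) * 4) := by
  obtain ⟨p0, p2, p4⟩ := D1.main H S hk 0
  obtain ⟨q0, q2, q4⟩ := D1.main H S hk 1
  have e0 : D1.nn k m 0 = m + 9 + (k + 2) * 4 := by unfold D1.nn; ring
  have e1 : D1.nn k m 1 = m + 9 + (k + 2) * 4 + k + 2 := by unfold D1.nn; ring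
  refine ⟨D1.cyc_of_eq p0 (by ring) (by rw [e0]), D1.cyc_of_eq q0 (by ring) (by rw [e1]; omega),
    D1.cyc_of_eq p2 (by ring) (by rw [e0]), D1.cyc_of_eq q2 (by ring) (by rw [e1]; omega),
    D1.cyc_of_eq p4 (by ring) (by rw [e0]), D1.cyc_of_eq q4 (by ring) (by rw [e1])⟩

/-- **`R10`** from the steps `D1.Steps`. -/
theorem R10A_of_steps (hf : Rule f) {k : ℕ} (hk : 8 ≤ k) (H : D1.Steps f k 0 1) : LeadR10A f k :=
  R10A_of_lead hf fun b m S => imp_of_steps hk H b m S

end Pool.Agent.SNT.S6
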