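import Pool.Agent.SNT.LRD

set_option autoImplicit false
set_option linter.unusedVariables false
set_option synthInstance.maxSize 100000
set_option synthInstance.maxHeartbeats 4000000

/-! Local certificates of the location of the top leader (1). -/

namespace Pool.Agent.SNT.LRI

open Pool.Agent.SNT Pool.Agent.SNT.Loc Pool.Agent.SNT.LW Pool.Agent.SNT.NHZ

variable {f : ℕ → ℕ → ℕ → ℕ → Prop}

theorem cW0_m1_m4_4_chk : check 2 5 4 4 1 0 0 0 0
    (fun j n p q => decide ((j = 1 ∧ n = 3 ∧ (p = 2 ∧ q = 2))))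
    (fun j n p q => decide ((j = 2 ∧ n = 1 ∧ (1 ≤ p ∧ p ≤ 2 ∧ 1 ≤ q ∧ q ≤ 2))
      ∨ (j = 1 ∧ n = 1 ∧ (1 ≤ p ∧ p ≤ 2 ∧ 1 ≤ q ∧ q ≤ 2))
      ∨ (j = 2 ∧ n = 2 ∧ ((p = 1 ∧ 1 ≤ q ∧ q ≤ 2) ∨ (p = 2 ∧ q = 1)))
      ∨ (j = 2 ∧ n = 2 ∧ (p = 2 ∧ q = 2))))
    16
    0x6503004500006507006487006307006287005d07005c87005b07005a8700450f003d07003507003487003307003287 = true := by
  decide +kernel

theorem cW0_m1_m4_4 (hf : Rule f) {k c n M R x y : ℕ} (H : LI f k c n)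
    (eM : M = 6 * k + 0) (eR : R + 1 = c) (ex : x + 4 = 2 * n) (ey : y + 2 * k = 2 * n + 4) : ¬ f M R x y := by
  intro hg
  have hk := H.T.hk
  have hc := H.T.hc
  have h4 := H.T.h4
  have hb := H.T.hb
  have hN := H.T.hN2
  have hg' : ∀ M' R' x' y' : ℕ, M' = M → R' = R → x' = x → y' = y → f M' R' x' y' := by
    rintro _ _ _ _ rfl rfl rfl rfl
    exact hg
  clear hg
  obtain ⟨a0, ha0⟩ : ∃ z, z + 1 = 6 * k := ⟨6 * k - 1, by omega⟩
  obtain ⟨b0, hb0⟩ : ∃ z, z + 4 = c := ⟨c - 4, by omega⟩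
  obtain ⟨x0, hx0⟩ : ∃ z, z + 6 = 2 * n := ⟨2 * n - 6, by omega⟩
  obtain ⟨y0, hy0⟩ : ∃ z, z + 2 * k = 2 * n + 2 := ⟨2 * n + 2 - 2 * k, by omega⟩
  refine check_sound hf (a0 := a0) (b0 := b0) (x0 := x0) (y0 := y0) cW0_m1_m4_4_chk
    ⟨fun h => absurd h (by decide), fun h => absurd h (by decide), fun h => absurd h (by decide), by omega, by omega,
      by omega, by omega⟩ ?_ ?_
  · intro j m p q hr h
    obtain ⟨-, -, -, -, hp1, hp2, hq1, hq2⟩ := hr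
    replace h := of_decide_eq_true h
    obtain ⟨rfl, rfl, h⟩ := h
    exact hg' _ _ _ _ (by omega) (by omega) (by omega) (by omega)
  · intro j m p q hr h
    obtain ⟨-, -, -, -, hp1, hp2, hq1, hq2⟩ := hr
    replace h := of_decide_eq_true h
    rcases h with h | h | h | h
    · obtain ⟨rfl, rfl, h⟩ := h
      exact NHT.rIn hf H.T (t := 3) (p := 1) (j := 3) (by omega) (by omega) (by omega) (by omega) (by omega) (by omega) (by omega) (by omega)
    · obtain ⟨rfl, rfl, h⟩ := h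
      exact NHT.rIn hf H.T (t := 3) (p := 0) (j := 3) (by omega) (by omega) (by omega) (by omega) (by omega) (by omega) (by omega) (by omega)
    · obtain ⟨rfl, rfl, h⟩ := h
      exact H.eo _ _ _ _ (by omega) (by omega) (by omega) (by omega) (by omega) (by omega) (by omega)
    · obtain ⟨rfl, rfl, h⟩ := h
      exact NHT.pmi hf H.T (j := 3) (by omega) (by omega) (by omega) (by omega) (by omega) (by omega)

theorem cW0_m1_m4_5_chk : check 2 5 4 4 0 0 0 1 0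
    (fun j n p q => decide ((j = 2 ∧ n = 3 ∧ (p = 2 ∧ q = 2))))
    (fun j n p q => decide ((j = 2 ∧ n = 1 ∧ (1 ≤ p ∧ p ≤ 2 ∧ 1 ≤ q ∧ q ≤ 2))
      ∨ (j = 1 ∧ n = 1 ∧ (1 ≤ p ∧ p ≤ 2 ∧ 1 ≤ q ∧ q ≤ 2))
      ∨ (j = 1 ∧ n = 2 ∧ (1 ≤ p ∧ p ≤ 2 ∧ 1 ≤ q ∧ q ≤ 2))))
    16
    0x6503006d00006d0f006487005d07005c87005b07005a87003d07003c87003b07003a87003507003487003307003287 = true := by
  decide +kernel

theorem cW0_m1_m4_5 (hf : Rule f) {k c n M R x y : ℕ} (H : LI f k c n)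
    (eM : M = 6 * k + 0) (eR : R + 1 = c) (ex : x + 4 = 2 * n) (ey : y + 2 * k = 2 * n + 5) : ¬ f M R x y := by
  intro hg
  have hk := H.T.hk
  have hc := H.T.hc
  have h4 := H.T.h4
  have hb := H.T.hb
  have hN := H.T.hN2
  have hg' : ∀ M' R' x' y' : ℕ, M' = M → R' = R → x' = x → y' = y → f M' R' x' y' := by
    rintro _ _ _ _ rfl rfl rfl rfl
    exact hg
  clear hg
  obtain ⟨a0, ha0⟩ : ∃ z, z + 2 = 6 * k := ⟨6 * k - 2, by omega⟩
  obtain ⟨b0, hb0⟩ : ∃ z, z + 4 = c := ⟨c - 4, by omega⟩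
  obtain ⟨x0, hx0⟩ : ∃ z, z + 6 = 2 * n := ⟨2 * n - 6, by omega⟩
  obtain ⟨y0, hy0⟩ : ∃ z, z + 2 * k = 2 * n + 3 := ⟨2 * n + 3 - 2 * k, by omega⟩
  refine check_sound hf (a0 := a0) (b0 := b0) (x0 := x0) (y0 := y0) cW0_m1_m4_5_chk
    ⟨fun h => absurd h (by decide), fun h => absurd h (by decide), fun h => absurd h (by decide), by omega, by omega,
      by omega, by omega⟩ ?_ ?_
  · intro j m p q hr h
    obtain ⟨-, -, -, -, hp1, hp2, hq1, hq2⟩ := hr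
    replace h := of_decide_eq_true h
    obtain ⟨rfl, rfl, h⟩ := h
    exact hg' _ _ _ _ (by omega) (by omega) (by omega) (by omega)
  · intro j m p q hr h
    obtain ⟨-, -, -, -, hp1, hp2, hq1, hq2⟩ := hr
    replace h := of_decide_eq_true h
    rcases h with h | h | h
    · obtain ⟨rfl, rfl, h⟩ := h
      exact NHT.rIn hf H.T (t := 3) (p := 0) (j := 3) (by omega) (by omega) (by omega) (by omega) (by omega) (by omega) (by omega) (by omega)
    · obtain ⟨rfl, rfl, h⟩ := h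
      exact H.lw _ _ _ _ (by omega) (by omega) (by omega) (by omega) (by omega) (by omega)
    · obtain ⟨rfl, rfl, h⟩ := h
      exact H.lw _ _ _ _ (by omega) (by omega) (by omega) (by omega) (by omega) (by omega)

theorem cW2_m1_m4_3_chk : check 2 5 4 4 0 0 0 1 0
    (fun j n p q => decide ((j = 2 ∧ n = 3 ∧ (p = 2 ∧ q = 2))))
    (fun j n p q => decide ((j = 1 ∧ n = 1 ∧ (1 ≤ p ∧ p ≤ 2 ∧ 1 ≤ q ∧ q ≤ 2))
      ∨ (j = 2 ∧ n = 1 ∧ (1 ≤ p ∧ p ≤ 2 ∧ 1 ≤ q ∧ q ≤ 2))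
      ∨ (j = 1 ∧ n = 2 ∧ ((p = 1 ∧ 1 ≤ q ∧ q ≤ 2) ∨ (p = 2 ∧ q = 2)))
      ∨ (j = 1 ∧ n = 2 ∧ (p = 2 ∧ q = 1))))
    16
    0x6503006d00006d0f006487005d07005c87005b07005a87003d07003c87003b07003a87003507003487003307003287 = true := by
  decide +kernel

theorem cW2_m1_m4_3 (hf : Rule f) {k c n M R x y : ℕ} (H : LI f k c n)
    (eM : M = 6 * k + 2) (eR : R + 1 = c) (ex : x + 4 = 2 * n) (ey : y + 2 * k = 2 * n + 3) : ¬ f M R x y := by
  intro hg
  have hk := H.T.hk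
  have hc := H.T.hc
  have h4 := H.T.h4
  have hb := H.T.hb
  have hN := H.T.hN2
  have hg' : ∀ M' R' x' y' : ℕ, M' = M → R' = R → x' = x → y' = y → f M' R' x' y' := by
    rintro _ _ _ _ rfl rfl rfl rfl
    exact hg
  clear hg
  obtain ⟨a0, ha0⟩ : ∃ z, z = 6 * k + 0 := ⟨_, rfl⟩
  obtain ⟨b0, hb0⟩ : ∃ z, z + 4 = c := ⟨c - 4, by omega⟩
  obtain ⟨x0, hx0⟩ : ∃ z, z + 6 = 2 * n := ⟨2 * n - 6, by omega⟩
  obtain ⟨y0, hy0⟩ : ∃ z, z + 2 * k = 2 * n + 1 := ⟨2 * n + 1 - 2 * k, by omega⟩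
  refine check_sound hf (a0 := a0) (b0 := b0) (x0 := x0) (y0 := y0) cW2_m1_m4_3_chk
    ⟨fun h => absurd h (by decide), fun h => absurd h (by decide), fun h => absurd h (by decide), by omega, by omega,
      by omega, by omega⟩ ?_ ?_
  · intro j m p q hr h
    obtain ⟨-, -, -, -, hp1, hp2, hq1, hq2⟩ := hr
    replace h := of_decide_eq_true h
    obtain ⟨rfl, rfl, h⟩ := h
    exact hg' _ _ _ _ (by omega) (by omega) (by omega) (by omega)
  · intro j m p q hr h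
    obtain ⟨-, -, -, -, hp1, hp2, hq1, hq2⟩ := hr
    replace h := of_decide_eq_true h
    rcases h with h | h | h | h
    · obtain ⟨rfl, rfl, h⟩ := h
      exact NHT.rIn hf H.T (t := 3) (p := 1) (j := 3) (by omega) (by omega) (by omega) (by omega) (by omega) (by omega) (by omega) (by omega)
    · obtain ⟨rfl, rfl, h⟩ := h
      exact NHT.rIn hf H.T (t := 3) (p := 0) (j := 2) (by omega) (by omega) (by omega) (by omega) (by omega) (by omega) (by omega) (by omega)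
    · obtain ⟨rfl, rfl, h⟩ := h
      exact H.eo _ _ _ _ (by omega) (by omega) (by omega) (by omega) (by omega) (by omega) (by omega)
    · obtain ⟨rfl, rfl, h⟩ := h
      exact NHT.pmi hf H.T (j := 3) (by omega) (by omega) (by omega) (by omega) (by omega) (by omega)

theorem cW2_m1_m4_4_chk : check 9 5 4 7 1 0 0 0 0
    (fun j n p q => decide ((j = 9 ∧ n = 2 ∧ (p = 2 ∧ ((q = 1) ∨ (q = 3) ∨ (q = 5))))
      ∨ (j = 1 ∧ n = 3 ∧ (p = 2 ∧ q = 2))))
    (fun j n p q => decide ((j = 7 ∧ n = 1 ∧ (1 ≤ p ∧ p ≤ 2 ∧ 1 ≤ q ∧ q ≤ 5))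
      ∨ (j = 6 ∧ n = 1 ∧ (1 ≤ p ∧ p ≤ 2 ∧ 1 ≤ q ∧ q ≤ 4))
      ∨ (j = 5 ∧ n = 1 ∧ (1 ≤ p ∧ p ≤ 2 ∧ 1 ≤ q ∧ q ≤ 4))
      ∨ (j = 4 ∧ n = 1 ∧ (1 ≤ p ∧ p ≤ 2 ∧ 1 ≤ q ∧ q ≤ 3))
      ∨ (j = 3 ∧ n = 1 ∧ (1 ≤ p ∧ p ≤ 2 ∧ 1 ≤ q ∧ q ≤ 3))
      ∨ (j = 2 ∧ n = 1 ∧ (1 ≤ p ∧ p ≤ 2 ∧ 1 ≤ q ∧ q ≤ 2))
      ∨ (j = 1 ∧ n = 1 ∧ (1 ≤ p ∧ p ≤ 2 ∧ 1 ≤ q ∧ q ≤ 2))
      ∨ (j = 6 ∧ n = 2 ∧ (p = 2 ∧ 1 ≤ q ∧ q ≤ 4))
      ∨ (j = 4 ∧ n = 2 ∧ (p = 2 ∧ 1 ≤ q ∧ q ≤ 3))
      ∨ (j = 2 ∧ n = 2 ∧ (p = 2 ∧ 1 ≤ q ∧ q ≤ 2))))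
    100
    0x2558301c58001c91202550301c50001c504013900013c9202550301c50001c89201388001388400ac8000b01202550301c50001c892013880013c1200ac0000ac0401c80301380001380402548301c48001c48402540301c40001c404029b80029a80029980007800029b8f029a8f02998f020f07020e0702018702010702008702000701ff8701fe0701fd8701fd0701fc8701fc0701c90701c88701c80701c78701bb0701ba8701ba0701b98701b78701b70701b68701b607018307018207017507017487017407017387017187017107017087017007013c87013c07013b87012e87012e07012d87012b07012a87012a0700f60700e88700e80700e78700e50700e48700e40700b00700af8700a20700a187009e87009e0700780f006a07005c07005b87005887005807 = true := by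
  decide +kernel

theorem cW2_m1_m4_4 (hf : Rule f) {k c n M R x y : ℕ} (H : LI f k c n)
    (eM : M = 6 * k + 2) (eR : R + 1 = c) (ex : x + 4 = 2 * n) (ey : y + 2 * k = 2 * n + 4) : ¬ f M R x y := by
  intro hg
  have hk := H.T.hk
  have hc := H.T.hc
  have h4 := H.T.h4
  have hb := H.T.hb
  have hN := H.T.hN2
  have hg' : ∀ M' R' x' y' : ℕ, M' = M → R' = R → x' = x → y' = y → f M' R' x' y' := by
    rintro _ _ _ _ rfl rfl rfl rfl
    exact hg
  clear hg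
  obtain ⟨a0, ha0⟩ : ∃ z, z = 6 * k + 1 := ⟨_, rfl⟩
  obtain ⟨b0, hb0⟩ : ∃ z, z + 4 = c := ⟨c - 4, by omega⟩
  obtain ⟨x0, hx0⟩ : ∃ z, z + 6 = 2 * n := ⟨2 * n - 6, by omega⟩
  obtain ⟨y0, hy0⟩ : ∃ z, z + 2 * k = 2 * n + 2 := ⟨2 * n + 2 - 2 * k, by omega⟩
  refine check_sound hf (a0 := a0) (b0 := b0) (x0 := x0) (y0 := y0) cW2_m1_m4_4_chk
    ⟨fun h => absurd h (by decide), fun h => absurd h (by decide), fun h => absurd h (by decide), by omega, by omega,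
      by omega, by omega⟩ ?_ ?_
  · intro j m p q hr h
    obtain ⟨-, -, -, -, hp1, hp2, hq1, hq2⟩ := hr
    replace h := of_decide_eq_true h
    rcases h with h | h
    · obtain ⟨rfl, rfl, h⟩ := h
      exact (NW.w2v H.b10 (by omega) (by omega) (by omega) (by omega) (by omega) (by omega) (by omega)).mpr (by omega)
    · obtain ⟨rfl, rfl, h⟩ := h
      exact hg' _ _ _ _ (by omega) (by omega) (by omega) (by omega)
  · intro j m p q hr h
    obtain ⟨-, -, -, -, hp1, hp2, hq1, hq2⟩ := hr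
    replace h := of_decide_eq_true h
    rcases h with h | h | h | h | h | h | h | h | h | h
    · obtain ⟨rfl, rfl, h⟩ := h
      exact mt (NW.w3v H.b8 (by omega) (by omega) (by omega) (by omega) (by omega) (by omega) (by omega) (by omega)).mp (by omega)
    · obtain ⟨rfl, rfl, h⟩ := h
      exact NHT.rIn hf H.T (t := 3) (p := 1) (j := 0) (by omega) (by omega) (by omega) (by omega) (by omega) (by omega) (by omega) (by omega)
    · obtain ⟨rfl, rfl, h⟩ := h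
      exact NHT.rIn hf H.T (t := 3) (p := 0) (j := 0) (by omega) (by omega) (by omega) (by omega) (by omega) (by omega) (by omega) (by omega)
    · obtain ⟨rfl, rfl, h⟩ := h
      exact NHT.rIn hf H.T (t := 3) (p := 1) (j := 1) (by omega) (by omega) (by omega) (by omega) (by omega) (by omega) (by omega) (by omega)
    · obtain ⟨rfl, rfl, h⟩ := h
      exact NHT.rIn hf H.T (t := 3) (p := 0) (j := 1) (by omega) (by omega) (by omega) (by omega) (by omega) (by omega) (by omega) (by omega)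
    · obtain ⟨rfl, rfl, h⟩ := h
      exact NHT.rIn hf H.T (t := 3) (p := 1) (j := 2) (by omega) (by omega) (by omega) (by omega) (by omega) (by omega) (by omega) (by omega)
    · obtain ⟨rfl, rfl, h⟩ := h
      exact NHT.rIn hf H.T (t := 3) (p := 0) (j := 2) (by omega) (by omega) (by omega) (by omega) (by omega) (by omega) (by omega) (by omega)
    · obtain ⟨rfl, rfl, h⟩ := h
      exact NHT.pmi hf H.T (j := 0) (by omega) (by omega) (by omega) (by omega) (by omega) (by omega)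
    · obtain ⟨rfl, rfl, h⟩ := h
      exact NHT.pmi hf H.T (j := 1) (by omega) (by omega) (by omega) (by omega) (by omega) (by omega)
    · obtain ⟨rfl, rfl, h⟩ := h
      exact NHT.pmi hf H.T (j := 2) (by omega) (by omega) (by omega) (by omega) (by omega) (by omega)

theorem cW2_m1_m4_5_chk : check 2 5 4 4 0 0 0 1 0
    (fun j n p q => decide ((j = 2 ∧ n = 3 ∧ (p = 2 ∧ q = 2))))
    (fun j n p q => decide ((j = 1 ∧ n = 1 ∧ (1 ≤ p ∧ p ≤ 2 ∧ 1 ≤ q ∧ q ≤ 2))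
      ∨ (j = 2 ∧ n = 1 ∧ (1 ≤ p ∧ p ≤ 2 ∧ 1 ≤ q ∧ q ≤ 2))
      ∨ (j = 1 ∧ n = 2 ∧ ((p = 1 ∧ 1 ≤ q ∧ q ≤ 2) ∨ (p = 2 ∧ q = 2)))
      ∨ (j = 1 ∧ n = 2 ∧ (p = 2 ∧ q = 1))))
    16
    0x6503006d00006d0f006487005d07005c87005b07005a87003d07003c87003b07003a87003507003487003307003287 = true := by
  decide +kernel

theorem cW2_m1_m4_5 (hf : Rule f) {k c n M R x y : ℕ} (H : LI f k c n)
    (eM : M = 6 * k + 2) (eR : R + 1 = c) (ex : x + 4 = 2 * n) (ey : y + 2 * k = 2 * n + 5) : ¬ f M R x y := by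
  intro hg
  have hk := H.T.hk
  have hc := H.T.hc
  have h4 := H.T.h4
  have hb := H.T.hb
  have hN := H.T.hN2
  have hg' : ∀ M' R' x' y' : ℕ, M' = M → R' = R → x' = x → y' = y → f M' R' x' y' := by
    rintro _ _ _ _ rfl rfl rfl rfl
    exact hg
  clear hg
  obtain ⟨a0, ha0⟩ : ∃ z, z = 6 * k + 0 := ⟨_, rfl⟩
  obtain ⟨b0, hb0⟩ : ∃ z, z + 4 = c := ⟨c - 4, by omega⟩
  obtain ⟨x0, hx0⟩ : ∃ z, z + 6 = 2 * n := ⟨2 * n - 6, by omega⟩
  obtain ⟨y0, hy0⟩ : ∃ z, z + 2 * k = 2 * n + 3 := ⟨2 * n + 3 - 2 * k, by omega⟩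
  refine check_sound hf (a0 := a0) (b0 := b0) (x0 := x0) (y0 := y0) cW2_m1_m4_5_chk
    ⟨fun h => absurd h (by decide), fun h => absurd h (by decide), fun h => absurd h (by decide), by omega, by omega,
      by omega, by omega⟩ ?_ ?_
  · intro j m p q hr h
    obtain ⟨-, -, -, -, hp1, hp2, hq1, hq2⟩ := hr
    replace h := of_decide_eq_true h
    obtain ⟨rfl, rfl, h⟩ := h
    exact hg' _ _ _ _ (by omega) (by omega) (by omega) (by omega)
  · intro j m p q hr h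
    obtain ⟨-, -, -, -, hp1, hp2, hq1, hq2⟩ := hr
    replace h := of_decide_eq_true h
    rcases h with h | h | h | h
    · obtain ⟨rfl, rfl, h⟩ := h
      exact NHT.rIn hf H.T (t := 3) (p := 1) (j := 3) (by omega) (by omega) (by omega) (by omega) (by omega) (by omega) (by omega) (by omega)
    · obtain ⟨rfl, rfl, h⟩ := h
      exact NHT.rIn hf H.T (t := 3) (p := 0) (j := 2) (by omega) (by omega) (by omega) (by omega) (by omega) (by omega) (by omega) (by omega)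
    · obtain ⟨rfl, rfl, h⟩ := h
      exact H.eo _ _ _ _ (by omega) (by omega) (by omega) (by omega) (by omega) (by omega) (by omega)
    · obtain ⟨rfl, rfl, h⟩ := h
      exact NHT.pmi hf H.T (j := 3) (by omega) (by omega) (by omega) (by omega) (by omega) (by omega)

theorem cD3_m1_m3_m6_chk : check 2 5 4 4 1 0 1 0 0
    (fun j n p q => decide ((j = 2 ∧ n = 3 ∧ (p = 2 ∧ q = 2))))
    (fun j n p q => decide ((j = 2 ∧ n = 1 ∧ (1 ≤ p ∧ p ≤ 2 ∧ 1 ≤ q ∧ q ≤ 2))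
      ∨ (j = 1 ∧ n = 1 ∧ (1 ≤ p ∧ p ≤ 2 ∧ 1 ≤ q ∧ q ≤ 2))
      ∨ (j = 2 ∧ n = 2 ∧ ((p = 1 ∧ q = 1) ∨ (p = 2 ∧ 1 ≤ q ∧ q ≤ 2)))
      ∨ (j = 2 ∧ n = 2 ∧ (p = 1 ∧ q = 2))
      ∨ (j = 1 ∧ n = 2 ∧ (p = 2 ∧ q = 2))))
    17
    0x6503006d00006d0f006507006487006307006287005d07005c87005b07005a87003d07003b07003507003487003307003287 = true := by
  decide +kernel

theorem cD3_m1_m3_m6 (hf : Rule f) {k c n M R x y : ℕ} (H : LI f k c n)
    (eM : M = 6 * k + 3) (eR : R + 1 = c) (ex : x + 3 = 2 * n) (ey : y + 6 = 2 * n) : ¬ f M R x y := by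
  intro hg
  have hk := H.T.hk
  have hc := H.T.hc
  have h4 := H.T.h4
  have hb := H.T.hb
  have hN := H.T.hN2
  have hg' : ∀ M' R' x' y' : ℕ, M' = M → R' = R → x' = x → y' = y → f M' R' x' y' := by
    rintro _ _ _ _ rfl rfl rfl rfl
    exact hg
  clear hg
  obtain ⟨a0, ha0⟩ : ∃ z, z = 6 * k + 1 := ⟨_, rfl⟩
  obtain ⟨b0, hb0⟩ : ∃ z, z + 4 = c := ⟨c - 4, by omega⟩
  obtain ⟨x0, hx0⟩ : ∃ z, z + 5 = 2 * n := ⟨2 * n - 5, by omega⟩
  obtain ⟨y0, hy0⟩ : ∃ z, z + 8 = 2 * n := ⟨2 * n - 8, by omega⟩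
  refine check_sound hf (a0 := a0) (b0 := b0) (x0 := x0) (y0 := y0) cD3_m1_m3_m6_chk
    ⟨fun h => absurd h (by decide), fun h => absurd h (by decide), fun h => absurd h (by decide), by omega, by omega,
      by omega, by omega⟩ ?_ ?_
  · intro j m p q hr h
    obtain ⟨-, -, -, -, hp1, hp2, hq1, hq2⟩ := hr
    replace h := of_decide_eq_true h
    obtain ⟨rfl, rfl, h⟩ := h
    exact hg' _ _ _ _ (by omega) (by omega) (by omega) (by omega)
  · intro j m p q hr h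
    obtain ⟨-, -, -, -, hp1, hp2, hq1, hq2⟩ := hr
    replace h := of_decide_eq_true h
    rcases h with h | h | h | h | h
    · obtain ⟨rfl, rfl, h⟩ := h
      exact NHT.rOut hf H.T (t := 2) (p := 1) (j := 1) (by omega) (by omega) (by omega) (by omega) (by omega) (by omega) (by omega) (by omega)
    · obtain ⟨rfl, rfl, h⟩ := h
      exact NHT.rOut hf H.T (t := 2) (p := 0) (j := 1) (by omega) (by omega) (by omega) (by omega) (by omega) (by omega) (by omega) (by omega)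
    · obtain ⟨rfl, rfl, h⟩ := h
      exact NHT.pmi hf H.T (j := 2) (by omega) (by omega) (by omega) (by omega) (by omega) (by omega)
    · obtain ⟨rfl, rfl, h⟩ := h
      exact NHT.pm hf H.T (j := 1) (by omega) (by omega) (by omega) (by omega) (by omega) (by omega)
    · obtain ⟨rfl, rfl, h⟩ := h
      exact mt (WrapC.v2 H.a2 (by omega) (by omega) (by omega) (by omega) (by omega) (by omega) (by omega)).mp (by omega)

theorem cD2_m1_m3_m6_chk : check 2 5 4 4 0 0 1 0 0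
    (fun j n p q => decide ((j = 2 ∧ n = 3 ∧ (p = 2 ∧ q = 2))))
    (fun j n p q => decide ((j = 2 ∧ n = 1 ∧ (1 ≤ p ∧ p ≤ 2 ∧ 1 ≤ q ∧ q ≤ 2))
      ∨ (j = 1 ∧ n = 1 ∧ (1 ≤ p ∧ p ≤ 2 ∧ 1 ≤ q ∧ q ≤ 2))
      ∨ (j = 1 ∧ n = 2 ∧ ((p = 1 ∧ q = 1) ∨ (p = 2 ∧ 1 ≤ q ∧ q ≤ 2)))
      ∨ (j = 2 ∧ n = 2 ∧ (p = 2 ∧ q = 2))))
    16
    0x6503006d00006d0f006507006307005d07005c87005b07005a87003d07003c87003a87003507003487003307003287 = true := by
  decide +kernel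

theorem cD2_m1_m3_m6 (hf : Rule f) {k c n M R x y : ℕ} (H : LI f k c n)
    (eM : M = 6 * k + 2) (eR : R + 1 = c) (ex : x + 3 = 2 * n) (ey : y + 6 = 2 * n) : ¬ f M R x y := by
  intro hg
  have hk := H.T.hk
  have hc := H.T.hc
  have h4 := H.T.h4
  have hb := H.T.hb
  have hN := H.T.hN2
  have hg' : ∀ M' R' x' y' : ℕ, M' = M → R' = R → x' = x → y' = y → f M' R' x' y' := by
    rintro _ _ _ _ rfl rfl rfl rfl
    exact hg
  clear hg
  obtain ⟨a0, ha0⟩ : ∃ z, z = 6 * k + 0 := ⟨_, rfl⟩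
  obtain ⟨b0, hb0⟩ : ∃ z, z + 4 = c := ⟨c - 4, by omega⟩
  obtain ⟨x0, hx0⟩ : ∃ z, z + 5 = 2 * n := ⟨2 * n - 5, by omega⟩
  obtain ⟨y0, hy0⟩ : ∃ z, z + 8 = 2 * n := ⟨2 * n - 8, by omega⟩
  refine check_sound hf (a0 := a0) (b0 := b0) (x0 := x0) (y0 := y0) cD2_m1_m3_m6_chk
    ⟨fun h => absurd h (by decide), fun h => absurd h (by decide), fun h => absurd h (by decide), by omega, by omega,
      by omega, by omega⟩ ?_ ?_
  · intro j m p q hr h
    obtain ⟨-, -, -, -, hp1, hp2, hq1, hq2⟩ := hr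
    replace h := of_decide_eq_true h
    obtain ⟨rfl, rfl, h⟩ := h
    exact hg' _ _ _ _ (by omega) (by omega) (by omega) (by omega)
  · intro j m p q hr h
    obtain ⟨-, -, -, -, hp1, hp2, hq1, hq2⟩ := hr
    replace h := of_decide_eq_true h
    rcases h with h | h | h | h
    · obtain ⟨rfl, rfl, h⟩ := h
      exact NHT.rOut hf H.T (t := 2) (p := 0) (j := 1) (by omega) (by omega) (by omega) (by omega) (by omega) (by omega) (by omega) (by omega)
    · obtain ⟨rfl, rfl, h⟩ := h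
      exact H.eo _ _ _ _ (by omega) (by omega) (by omega) (by omega) (by omega) (by omega) (by omega)
    · obtain ⟨rfl, rfl, h⟩ := h
      exact H.eo _ _ _ _ (by omega) (by omega) (by omega) (by omega) (by omega) (by omega) (by omega)
    · obtain ⟨rfl, rfl, h⟩ := h
      exact mt (WrapC.v2 H.a2 (by omega) (by omega) (by omega) (by omega) (by omega) (by omega) (by omega)).mp (by omega)

theorem cD0_m1_m4_m8_chk : check 2 5 4 4 1 0 0 0 0
    (fun j n p q => decide ((j = 1 ∧ n = 3 ∧ (p = 2 ∧ q = 2))))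
    (fun j n p q => decide ((j = 2 ∧ n = 1 ∧ (1 ≤ p ∧ p ≤ 2 ∧ 1 ≤ q ∧ q ≤ 2))
      ∨ (j = 1 ∧ n = 1 ∧ (1 ≤ p ∧ p ≤ 2 ∧ 1 ≤ q ∧ q ≤ 2))
      ∨ (j = 2 ∧ n = 2 ∧ ((p = 1 ∧ 1 ≤ q ∧ q ≤ 2) ∨ (p = 2 ∧ q = 1)))
      ∨ (j = 2 ∧ n = 2 ∧ (p = 2 ∧ q = 2))))
    16
    0x6503004500006507006487006307006287005d07005c87005b07005a8700450f003d07003507003487003307003287 = true := by
  decide +kernel

theorem cD0_m1_m4_m8 (hf : Rule f) {k c n M R x y : ℕ} (H : LI f k c n)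
    (eM : M = 6 * k + 0) (eR : R + 1 = c) (ex : x + 4 = 2 * n) (ey : y + 8 = 2 * n) : ¬ f M R x y := by
  intro hg
  have hk := H.T.hk
  have hc := H.T.hc
  have h4 := H.T.h4
  have hb := H.T.hb
  have hN := H.T.hN2
  have hg' : ∀ M' R' x' y' : ℕ, M' = M → R' = R → x' = x → y' = y → f M' R' x' y' := by
    rintro _ _ _ _ rfl rfl rfl rfl
    exact hg
  clear hg
  obtain ⟨a0, ha0⟩ : ∃ z, z + 1 = 6 * k := ⟨6 * k - 1, by omega⟩
  obtain ⟨b0, hb0⟩ : ∃ z, z + 4 = c := ⟨c - 4, by omega⟩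
  obtain ⟨x0, hx0⟩ : ∃ z, z + 6 = 2 * n := ⟨2 * n - 6, by omega⟩
  obtain ⟨y0, hy0⟩ : ∃ z, z + 10 = 2 * n := ⟨2 * n - 10, by omega⟩
  refine check_sound hf (a0 := a0) (b0 := b0) (x0 := x0) (y0 := y0) cD0_m1_m4_m8_chk
    ⟨fun h => absurd h (by decide), fun h => absurd h (by decide), fun h => absurd h (by decide), by omega, by omega,
      by omega, by omega⟩ ?_ ?_
  · intro j m p q hr h
    obtain ⟨-, -, -, -, hp1, hp2, hq1, hq2⟩ := hr
    replace h := of_decide_eq_true h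
    obtain ⟨rfl, rfl, h⟩ := h
    exact hg' _ _ _ _ (by omega) (by omega) (by omega) (by omega)
  · intro j m p q hr h
    obtain ⟨-, -, -, -, hp1, hp2, hq1, hq2⟩ := hr
    replace h := of_decide_eq_true h
    rcases h with h | h | h | h
    · obtain ⟨rfl, rfl, h⟩ := h
      exact NHT.rOut hf H.T (t := 2) (p := 1) (j := 2) (by omega) (by omega) (by omega) (by omega) (by omega) (by omega) (by omega) (by omega)
    · obtain ⟨rfl, rfl, h⟩ := h
      exact NHT.rOut hf H.T (t := 2) (p := 0) (j := 2) (by omega) (by omega) (by omega) (by omega) (by omega) (by omega) (by omega) (by omega)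
    · obtain ⟨rfl, rfl, h⟩ := h
      exact H.eo _ _ _ _ (by omega) (by omega) (by omega) (by omega) (by omega) (by omega) (by omega)
    · obtain ⟨rfl, rfl, h⟩ := h
      exact NHT.pmi hf H.T (j := 3) (by omega) (by omega) (by omega) (by omega) (by omega) (by omega)

end Pool.Agent.SNT.LRI
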