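import Pool.Agent.SNT.LRIn

set_option autoImplicit false

/-! Facts of the chain in the form used by the windows near the diagonal. -/

namespace Pool.Agent.SNT.LRI

open Pool.Agent.SNT Pool.Agent.SNT.Loc Pool.Agent.SNT.LW Pool.Agent.SNT.NHZ

variable {f : ℕ → ℕ → ℕ → ℕ → Prop}

/-- the column `2 n + 2` of `6 k + 2` -/
def F2 (f : ℕ → ℕ → ℕ → ℕ → Prop) (k c n : ℕ) : Prop :=
  ∀ M R x y : ℕ, M = 6 * k + 2 → R = c → x = 2 * n + 2 → y % 2 = 1 → 2 * n + 5 ≤ y + 2 * k → y + 2 ≤ 2 * n → ¬ f M R x y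

/-- the column `2 n + 2` of `6 k + 6` -/
def F6 (f : ℕ → ℕ → ℕ → ℕ → Prop) (k c n : ℕ) : Prop :=
  ∀ M R x y : ℕ, M = 6 * k + 6 → R = c → x = 2 * n + 2 → y % 2 = 1 → 2 * n + 7 ≤ y + 2 * k → y ≤ 2 * n + 1 → ¬ f M R x y

/-- `HB` with `jb = n - 5`, `jt = n - 4` -/
structure FB (f : ℕ → ℕ → ℕ → ℕ → Prop) (k c n : ℕ) : Prop where
  p1 : ∀ M R x y : ℕ, M = 6 * k + 1 → R = c → 2 * n ≤ x + 3 → x ≤ 2 * n + 1 → 2 * n ≤ y + 10 → y + 7 ≤ 2 * n → ¬ f M R x y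
  p3 : ∀ M R x y : ℕ, M = 6 * k + 3 → R = c → 2 * n ≤ x + 1 → x ≤ 2 * n + 1 → 2 * n ≤ y + 10 → y + 7 ≤ 2 * n → ¬ f M R x y
  p5 : ∀ M R x y : ℕ, M = 6 * k + 5 → R = c → 2 * n ≤ x → x ≤ 2 * n + 1 → 2 * n ≤ y + 10 → y + 7 ≤ 2 * n → ¬ f M R x y
  y4 : ∀ M R x y : ℕ, M = 6 * k + 4 → R = c → x = 2 * n + 1 → (y + 10 = 2 * n ∨ y + 8 = 2 * n) → ¬ f M R x y
  x6 : ∀ M R x y : ℕ, M = 6 * k + 6 → R = c → x = 2 * n → (y + 9 = 2 * n ∨ y + 7 = 2 * n) → ¬ f M R x y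

/-- `HC` with `jb = n - 5`, `jt = n - 4` -/
structure FC (f : ℕ → ℕ → ℕ → ℕ → Prop) (k c n : ℕ) : Prop where
  p1 : ∀ M R x y : ℕ, M = 6 * k + 1 → R = c → 2 * n ≤ x + 4 → x ≤ 2 * n + 1 → 2 * n ≤ y + 10 → y + 9 ≤ 2 * n → ¬ f M R x y
  p3 : ∀ M R x y : ℕ, M = 6 * k + 3 → R = c → 2 * n ≤ x + 3 → x ≤ 2 * n + 1 → 2 * n ≤ y + 10 → y + 9 ≤ 2 * n → ¬ f M R x y
  p5 : ∀ M R x y : ℕ, M = 6 * k + 5 → R = c → 2 * n ≤ x + 2 → x ≤ 2 * n + 1 → 2 * n ≤ y + 10 → y + 9 ≤ 2 * n →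
    (2 * n ≤ x + 1 ∨ 2 * n ≤ y + 9) → ¬ f M R x y
  p7 : ∀ M R x y : ℕ, M = 6 * k + 7 → R = c → x = 2 * n + 1 → 2 * n ≤ y + 10 → y + 9 ≤ 2 * n → ¬ f M R x y
  y4 : ∀ M R x y : ℕ, M = 6 * k + 4 → R = c → x + 1 = 2 * n → y + 10 = 2 * n → ¬ f M R x y

theorem FB.of {k c n : ℕ} (hn : 5 ≤ n) (h : LineR0.HB f (6 * k) c n (n - 5) (n - 4)) : FB f k c n := by
  obtain ⟨h1, h3, h5, h46, -⟩ := h
  refine ⟨?_, ?_, ?_, ?_, ?_⟩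
  · rintro _ _ x y rfl rfl a1 a2 a3 a4
    exact h1 x y a1 a2 (by omega) (by omega)
  · rintro _ _ x y rfl rfl a1 a2 a3 a4
    exact h3 x y a1 a2 (by omega) (by omega)
  · rintro _ _ x y rfl rfl a1 a2 a3 a4
    exact h5 x y a1 a2 (by omega) (by omega)
  · rintro _ _ x y rfl rfl rfl a1
    obtain ⟨j, rfl⟩ : ∃ j, y = 2 * j := ⟨y / 2, by omega⟩
    exact (h46 j (by omega) (by omega)).1
  · rintro _ _ x y rfl rfl rfl a1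
    obtain ⟨j, rfl⟩ : ∃ j, y = 2 * j + 1 := ⟨y / 2, by omega⟩
    exact (h46 j (by omega) (by omega)).2

theorem FC.of {k c n : ℕ} (hn : 5 ≤ n) (h : LineR0.HC f (6 * k) c n (n - 5) (n - 4)) : FC f k c n := by
  obtain ⟨-, h1, h3, h5, h7, h4⟩ := h
  refine ⟨?_, ?_, ?_, ?_, ?_⟩
  · rintro _ _ x y rfl rfl a1 a2 a3 a4
    exact h1 x y a1 a2 (by omega) (by omega)
  · rintro _ _ x y rfl rfl a1 a2 a3 a4
    exact h3 x y a1 a2 (by omega) (by omega)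
  · rintro _ _ x y rfl rfl a1 a2 a3 a4 a5
    exact h5 x y a1 a2 (by omega) (by omega) (by omega)
  · rintro _ _ x y rfl rfl rfl a1 a2
    exact (h7 y (by omega) (by omega)).2
  · rintro _ _ x y rfl rfl a1 a2
    obtain ⟨j, rfl⟩ : ∃ j, y = 2 * j := ⟨y / 2, by omega⟩
    obtain rfl : x = 2 * n - 1 := by omega
    exact h4 j (by omega) (by omega)

/-- `zr` -/
theorem zrx (hf : Rule f) {k c n : ℕ} (H : LI f k c n) {M R x y p : ℕ} (eM : M = 6 * k + p) (eR : R + 1 = c) (h1 : 1 ≤ p)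
    (h2 : p ≤ 10) (h3 : 2 * n + (p + 1) / 2 ≤ x + 5) (h4 : x ≤ 2 * n + 2) (h5 : 2 * n + 3 ≤ y + 2 * k) (h6 : y + 6 ≤ 2 * n)
    (h7 : x + (p + 1) / 2 + 1 ≤ y + 2 * k) : ¬ f M R x y := by
  have hk := H.T.hk
  have hN := H.T.hN2
  subst eM
  obtain rfl : R = c - 1 := by omega
  exact zr hf H (j0 := n + 2 - k) (jt := n - 4) (by omega) (by omega) p x y h1 h2 h3 h4 (by omega) (by omega) (by omega)

theorem F2.of (hf : Rule f) {k c n : ℕ} (H : LI f k c n)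
    (K : f (6 * k + 2) c (2 * n + 3) (2 * n + 8 - 2 * k) ∨ f (6 * k + 2) c (2 * n + 5) (2 * n + 10 - 2 * k)) : F2 f k c n := by
  have hk := H.T.hk
  have hN := H.T.hN2
  rintro _ _ x y rfl rfl rfl a1 a2 a3
  rcases (show y + 2 * k = 2 * n + 5 ∨ y + 2 * k = 2 * n + 7 ∨ 2 * n + 9 ≤ y + 2 * k by omega) with h | h | h
  · exact cW2_0_2_5 hf H rfl rfl rfl (by omega)
  · exact cW2_0_2_7 hf H rfl rfl rfl (by omega)
  · exact LineIn.f2 hf H.T K a1 (by omega) (by omega)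

theorem F6.of (hf : Rule f) {k c n : ℕ} (H : LI f k c n)
    (K : f (6 * k + 6) c (2 * n + 3) (2 * n + 6 - 2 * k) ∨ f (6 * k + 6) c (2 * n + 5) (2 * n + 8 - 2 * k)) : F6 f k c n := by
  rintro _ _ x y rfl rfl rfl a1 a2 a3
  exact LineIn.f6 hf H.T K a1 (by omega) (by omega)

end Pool.Agent.SNT.LRI
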