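import Pool.Agent.SNT.LRDef

set_option autoImplicit false
set_option linter.unusedVariables false
set_option synthInstance.maxSize 100000
set_option synthInstance.maxHeartbeats 4000000

/-! Windows near the diagonal. -/

namespace Pool.Agent.SNT.LRI

open Pool.Agent.SNT Pool.Agent.SNT.Loc Pool.Agent.SNT.LW Pool.Agent.SNT.NHZ

variable {f : ℕ → ℕ → ℕ → ℕ → Prop}

theorem dDA_1_chk : check 5 6 13 13 0 0 1 1 2
    (fun j n p q => decide ((j = 2 ∧ n = 2 ∧ ((p = 7 ∧ q = 4) ∨ (p = 9 ∧ ((q = 4) ∨ (q = 6) ∨ (q = 8))) ∨ (p = 11 ∧ ((q = 4) ∨ (q = 6)))))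
      ∨ (j = 2 ∧ n = 3 ∧ ((p = 6 ∧ q = 6) ∨ (p = 8 ∧ q = 8)))
      ∨ (j = 2 ∧ n = 1 ∧ (p = 7 ∧ q = 7))
      ∨ (j = 4 ∧ n = 2 ∧ (p = 8 ∧ q = 7))))
    (fun j n p q => decide ((j = 1 ∧ n = 3 ∧ ((p = 8 ∧ 1 ≤ q ∧ q ≤ 4) ∨ (p = 9 ∧ ((q = 2) ∨ (q = 4))) ∨ (10 ≤ p ∧ p ≤ 11 ∧ 1 ≤ q ∧ q ≤ 6)))
      ∨ (j = 1 ∧ n = 4 ∧ ((p = 8 ∧ 1 ≤ q ∧ q ≤ 4) ∨ (p = 9 ∧ ((q = 2) ∨ (q = 4))) ∨ (p = 10 ∧ 1 ≤ q ∧ q ≤ 5) ∨ (p = 11 ∧ ((q = 2) ∨ (q = 4) ∨ (q = 6)))))
      ∨ (j = 5 ∧ n = 3 ∧ ((p = 10 ∧ 4 ≤ q ∧ q ≤ 8) ∨ (p = 11 ∧ 4 ≤ q ∧ q ≤ 9)))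
      ∨ (j = 4 ∧ n = 3 ∧ ((p = 9 ∧ ((q = 2) ∨ (q = 4))) ∨ (p = 10 ∧ ((q = 2) ∨ (q = 4) ∨ (q = 6))) ∨ (p = 11 ∧ 4 ≤ q ∧ q ≤ 8)))
      ∨ (j = 2 ∧ n = 3 ∧ (10 ≤ p ∧ p ≤ 11 ∧ 1 ≤ q ∧ q ≤ 3))
      ∨ (j = 3 ∧ n = 3 ∧ ((p = 9 ∧ q = 2) ∨ (p = 10 ∧ 2 ≤ q ∧ q ≤ 3)))
      ∨ (j = 5 ∧ n = 4 ∧ ((p = 10 ∧ q = 7) ∨ (p = 11 ∧ ((q = 7) ∨ (q = 9)))))
      ∨ (j = 1 ∧ n = 4 ∧ (p = 11 ∧ ((q = 1) ∨ (q = 3) ∨ (q = 5))))
      ∨ (j = 2 ∧ n = 4 ∧ (p = 11 ∧ ((q = 2) ∨ (q = 4) ∨ (q = 6))))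
      ∨ (j = 4 ∧ n = 3 ∧ ((p = 10 ∧ q = 8) ∨ (p = 11 ∧ q = 9)))
      ∨ (j = 3 ∧ n = 1 ∧ (7 ≤ p ∧ p ≤ 8 ∧ q = 5))
      ∨ (j = 4 ∧ n = 1 ∧ (7 ≤ p ∧ p ≤ 8 ∧ q = 5))
      ∨ (j = 3 ∧ n = 4 ∧ (p = 10 ∧ q = 7))
      ∨ (j = 5 ∧ n = 4 ∧ (p = 11 ∧ q = 5))
      ∨ (j = 4 ∧ n = 4 ∧ (p = 9 ∧ q = 2))
      ∨ (j = 4 ∧ n = 4 ∧ (p = 10 ∧ q = 2))))
    283
    0x58383077e800980da0b82800b830a058383077e800980da098780098784097a8009819a058383077e800980da09810009810407550e055a83075500075504058a83078580078584050b8e056783050b80050b840b83030980800980840b580e0963830b58000b58040981830b7c800b7c84077f8e058483077f80077f8407620e05678307620007620407680e09708307680007680407748307750007750407868e058b8307868007868409818e0b8403098180098184090f0e0b6c03090f00090f0409828e0b850309828009828405928303358003358403720e057483037200037204059083033380033384092e0e0b8503092e00092e0403108e056783031080031084059083038800038804059183038900038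90408b98009288008cb8008c01209288108c68004cb8004be8004d78004ca8004bd8008cc0a04bc800b840e0b7d8e0b2f8e0b2f0e0b290e0b288e09348e09340e092d8e092c8e09260e08cc8008cc8e08770e08708e07878e067c0e06758e05928e05918e05908e053c8e053c0e053b8e05360e05358e05350e052b80051d8004e98004e98e04e88004e88e04dd8004dd8e04dc8004dc8e04db8004db8e04ce8004ce8e047b8003978e03970e03968e03960e03958e03950e03908e03900e038f8e038f0e038e8e03430e03428e03420e03418e03410e03408e033c8e033c0e033b8e033b0e033a8e033a0e0b85070b84070b83070b7d870b30870b30070b2f870b2f070b2e870b2e070b29870b29070b28870b28070b2787098a07098907098807098007097b07097a07097987097107097007096307093587093507093487093407093387093307092e87092d87092c87092b8709260709250708d40708cc8f08c50708b907087707087087078787073107073087072a07067c07067587059287059207059187059107059087059007058507058407058307057907056e07056107055407053c87053c07053b87053607053587053507052b8f051d8f04e98f04e88f04dd8f04dc8f04db8f04ce8f047b8f039787039707039687039607039587039507039087039007038f87038f07038e87038987038887038307038287038207038187034307034287034207034187034107034087033c87033c07033b87033b07033a87033a07033507033407032e87032e07032d87032d07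 = true := by
  decide +kernel

theorem dDA_1 (hf : Rule f) {k c n : ℕ} (H : LI f k c n) (hF2 : F2 f k c n) (hF6 : F6 f k c n)
    (g1 : ∀ {M R x y : ℕ}, M = 6 * k + 4 → R + 2 = c → x + 1 = 2 * n → y + 2 = 2 * n → f M R x y)
    (g2 : ∀ {M R x y : ℕ}, M = 6 * k + 4 → R = c → x = 2 * n → y + 7 = 2 * n → ¬ f M R x y)
    (g3 : ∀ {M R x y : ℕ}, M = 6 * k + 4 → R = c → x = 2 * n + 1 → y + 7 = 2 * n → ¬ f M R x y) : False := by
  have hk := H.T.hk
  have hc := H.T.hc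
  have h4 := H.T.h4
  have hb := H.T.hb
  have hN := H.T.hN2
  obtain ⟨a0, ha0⟩ : ∃ z, z = 6 * k + 0 := ⟨_, rfl⟩
  obtain ⟨b0, hb0⟩ : ∃ z, z + 4 = c := ⟨c - 4, by omega⟩
  obtain ⟨x0, hx0⟩ : ∃ z, z + 9 = 2 * n := ⟨2 * n - 9, by omega⟩
  obtain ⟨y0, hy0⟩ : ∃ z, z + 9 = 2 * n := ⟨2 * n - 9, by omega⟩
  refine check_sound hf (a0 := a0) (b0 := b0) (x0 := x0) (y0 := y0) dDA_1_chk
    ⟨fun _ => by omega, fun h => absurd h (by decide), fun h => absurd h (by decide), by omega, by omega,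
      by omega, by omega⟩ ?_ ?_
  · intro j m p q hr h
    obtain ⟨-, -, -, -, hp1, hp2, hq1, hq2⟩ := hr
    replace h := of_decide_eq_true h
    rcases h with h | h | h | h
    · obtain ⟨rfl, rfl, h⟩ := h
      exact (WrapC.v2 H.a2 (by omega) (by omega) (by omega) (by omega) (by omega) (by omega) (by omega)).mpr (by omega)
    · obtain ⟨rfl, rfl, h⟩ := h
      exact (WrapC.v3 H.a2 (by omega) (by omega) (by omega) (by omega) (by omega) (by omega) (by omega) (by omega)).mpr (by omega)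
    · obtain ⟨rfl, rfl, h⟩ := h
      exact (WrapC.v1 H.a2 (by omega) (by omega) (by omega) (by omega) (by omega) (by omega) (by omega) (by omega)).mpr (by omega)
    · obtain ⟨rfl, rfl, h⟩ := h
      exact g1 (by omega) (by omega) (by omega) (by omega)
  · intro j m p q hr h
    obtain ⟨-, -, -, -, hp1, hp2, hq1, hq2⟩ := hr
    replace h := of_decide_eq_true h
    rcases h with h | h | h | h | h | h | h | h | h | h | h | h | h | h | h | h
    · obtain ⟨rfl, rfl, h⟩ := h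
      exact H.eo _ _ _ _ (by omega) (by omega) (by omega) (by omega) (by omega) (by omega) (by omega)
    · obtain ⟨rfl, rfl, h⟩ := h
      exact H.eo _ _ _ _ (by omega) (by omega) (by omega) (by omega) (by omega) (by omega) (by omega)
    · obtain ⟨rfl, rfl, h⟩ := h
      exact NW.rm1 hf H.T (p := 1) (j := 1) (by omega) (by omega) (by omega) (by omega) (by omega) (by omega) (by omega)
    · obtain ⟨rfl, rfl, h⟩ := h
      exact NW.rm1i hf H.T (p := 0) (j := 2) (by omega) (by omega) (by omega) (by omega) (by omega) (by omega) (by omega)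
    · obtain ⟨rfl, rfl, h⟩ := h
      exact NW.rm1i hf H.T (p := 0) (j := 3) (by omega) (by omega) (by omega) (by omega) (by omega) (by omega) (by omega)
    · obtain ⟨rfl, rfl, h⟩ := h
      exact NW.rm1i hf H.T (p := 1) (j := 3) (by omega) (by omega) (by omega) (by omega) (by omega) (by omega) (by omega)
    · obtain ⟨rfl, rfl, h⟩ := h
      exact NHT.pOut hf H.T (t := 4) (j := 1) (by omega) (by omega) (by omega) (by omega) (by omega) (by omega) (by omega)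
    · obtain ⟨rfl, rfl, h⟩ := h
      exact NHT.p0i hf H.T (j := 4) (by omega) (by omega) (by omega) (by omega) (by omega) (by omega)
    · obtain ⟨rfl, rfl, h⟩ := h
      exact hF2 _ _ _ _ (by omega) (by omega) (by omega) (by omega) (by omega) (by omega)
    · obtain ⟨rfl, rfl, h⟩ := h
      exact NW.rm1 hf H.T (p := 0) (j := 1) (by omega) (by omega) (by omega) (by omega) (by omega) (by omega) (by omega)
    · obtain ⟨rfl, rfl, h⟩ := h
      exact NHT.rOut hf H.T (t := 2) (p := 1) (j := 1) (by omega) (by omega) (by omega) (by omega) (by omega) (by omega) (by omega) (by omega)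
    · obtain ⟨rfl, rfl, h⟩ := h
      exact NHT.rOut hf H.T (t := 2) (p := 0) (j := 0) (by omega) (by omega) (by omega) (by omega) (by omega) (by omega) (by omega) (by omega)
    · obtain ⟨rfl, rfl, h⟩ := h
      exact NHT.pOut hf H.T (t := 4) (j := 2) (by omega) (by omega) (by omega) (by omega) (by omega) (by omega) (by omega)
    · obtain ⟨rfl, rfl, h⟩ := h
      exact NHT.p0i hf H.T (j := 2) (by omega) (by omega) (by omega) (by omega) (by omega) (by omega)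
    · obtain ⟨rfl, rfl, h⟩ := h
      exact g2 (by omega) (by omega) (by omega) (by omega)
    · obtain ⟨rfl, rfl, h⟩ := h
      exact g3 (by omega) (by omega) (by omega) (by omega)

theorem dDA_3_chk : check 5 6 13 13 0 0 1 1 2
    (fun j n p q => decide ((j = 2 ∧ n = 2 ∧ ((p = 7 ∧ q = 6) ∨ (p = 9 ∧ ((q = 4) ∨ (q = 6) ∨ (q = 8))) ∨ (p = 11 ∧ ((q = 4) ∨ (q = 6)))))
      ∨ (j = 2 ∧ n = 3 ∧ ((p = 6 ∧ q = 6) ∨ (p = 8 ∧ q = 8)))
      ∨ (j = 2 ∧ n = 1 ∧ ((p = 5 ∧ q = 5) ∨ (p = 7 ∧ q = 7)))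
      ∨ (j = 4 ∧ n = 1 ∧ (p = 8 ∧ q = 8))
      ∨ (j = 4 ∧ n = 2 ∧ (p = 6 ∧ q = 5))))
    (fun j n p q => decide ((j = 1 ∧ n = 3 ∧ ((((p = 8) ∨ (10 ≤ p ∧ p ≤ 11)) ∧ 1 ≤ q ∧ q ≤ 6) ∨ (p = 9 ∧ ((q = 2) ∨ (q = 4) ∨ (q = 6)))))
      ∨ (j = 1 ∧ n = 4 ∧ ((p = 8 ∧ 1 ≤ q ∧ q ≤ 6) ∨ (((p = 9) ∨ (p = 11)) ∧ ((q = 2) ∨ (q = 4) ∨ (q = 6))) ∨ (p = 10 ∧ 1 ≤ q ∧ q ≤ 5)))
      ∨ (j = 4 ∧ n = 3 ∧ ((p = 9 ∧ 4 ≤ q ∧ q ≤ 7) ∨ (p = 10 ∧ ((q = 4) ∨ (q = 6) ∨ (q = 8))) ∨ (p = 11 ∧ 4 ≤ q ∧ q ≤ 9)))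
      ∨ (j = 5 ∧ n = 3 ∧ ((p = 10 ∧ 4 ≤ q ∧ q ≤ 8) ∨ (p = 11 ∧ 4 ≤ q ∧ q ≤ 9)))
      ∨ (j = 2 ∧ n = 3 ∧ (10 ≤ p ∧ p ≤ 11 ∧ 1 ≤ q ∧ q ≤ 3))
      ∨ (j = 5 ∧ n = 4 ∧ ((p = 10 ∧ q = 7) ∨ (p = 11 ∧ ((q = 7) ∨ (q = 9)))))
      ∨ (j = 1 ∧ n = 4 ∧ (p = 11 ∧ ((q = 1) ∨ (q = 3) ∨ (q = 5))))
      ∨ (j = 2 ∧ n = 4 ∧ (p = 11 ∧ ((q = 2) ∨ (q = 4) ∨ (q = 6))))
      ∨ (j = 3 ∧ n = 3 ∧ (9 ≤ p ∧ p ≤ 10 ∧ q = 2))
      ∨ (j = 4 ∧ n = 3 ∧ (9 ≤ p ∧ p ≤ 10 ∧ q = 2))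
      ∨ (j = 5 ∧ n = 4 ∧ (p = 11 ∧ 4 ≤ q ∧ q ≤ 5))
      ∨ (j = 3 ∧ n = 4 ∧ (p = 10 ∧ q = 7))
      ∨ (j = 4 ∧ n = 4 ∧ (p = 9 ∧ q = 2))
      ∨ (j = 4 ∧ n = 4 ∧ (p = 10 ∧ q = 2))))
    292
    0x980830987800b834a097a8009819a0585830781000982d207800007800409808309810009810407548e055983075480075484058483077f80077f84059083078500078504052e8e059083052e80052e8407620e056783076200076204076e8e057383076e80076e84058b8307868007868409638e0b6c03096380096384090f0e0b6c03090f00090f0409708e0b7903097080097084092e0e0b8503092e00092e040b2a0e0928830b24000b2a000b2a0e0b2a04092f0e092883092900092f00092f0e092f040b7e8e0928830b78800b7e800b7e8e0b7e8409838e092883097d8009838009838e09838403338e05908303338003338403108e05678303108003108403358e05928303358003358403720e05748303720003720403880e05908303880003880403650e056783036500036504091a80091a8108b88004cb8004be8004d78004ca8004bd8004c9800b850e0b840e0b7d8e0b308e0b300e0b2f8e0b2f0e0b2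98e0b290e0b288e09358e09350e09348e09340e092e8e092d8e08be8008be8e08788005928e05918e053c8e05360e052b80051d8004e98004e98e04e88004e88e04dd8004dd8e04dc8004dc8e04db8004db8e04cf8004cf8e047b80046d8003978e03970e03968e03960e03908e03900e038f8e038a8e03888e03840e03838e03820e03818e03430e03428e03420e03418e033c8e033c0e033b8e033b0e03360e03340e032f8e032f0e032d8e032d0e0b85070b84070b83070b82870b7d870b30870b30070b2f870b2f070b2e870b2e070b29870b29070b28870b28070b2787098a07098807098007097e07097c07097b07097a07097987097107093587093507093487093407093387093307092e87092d87092c87092b8709278709270709268709260709250708d40708c60708be8f08788f078787073087072a07059287059207059187059087059007058507058407056e07056d07056107055307053c87053c07053b87053607053587053507052b8f051d8f04e98f04e88f04dd8f04dc8f04db8f04cf8f047b8f046d8f039787039707039687039607039587039507039087039007038f87038f07038e87038a87038987038887038407038387038307038287038207038187034307034287034207034187034107034087033c87033c07033b87033b07033a87033a07033607033507033407032f87032f07032e87032e07032d87032d07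 = true := by
  decide +kernel

theorem dDA_3 (hf : Rule f) {k c n : ℕ} (H : LI f k c n) (hF2 : F2 f k c n) (hF6 : F6 f k c n)
    (g1 : ∀ {M R x y : ℕ}, M = 6 * k + 4 → R + 2 = c → x + 3 = 2 * n → y + 4 = 2 * n → f M R x y)
    (g2 : ∀ {M R x y : ℕ}, M = 6 * k + 4 → R = c → x = 2 * n → y + 7 = 2 * n → ¬ f M R x y)
    (g3 : ∀ {M R x y : ℕ}, M = 6 * k + 4 → R = c → x = 2 * n + 1 → y + 7 = 2 * n → ¬ f M R x y) : False := by
  have hk := H.T.hk
  have hc := H.T.hc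
  have h4 := H.T.h4
  have hb := H.T.hb
  have hN := H.T.hN2
  obtain ⟨a0, ha0⟩ : ∃ z, z = 6 * k + 0 := ⟨_, rfl⟩
  obtain ⟨b0, hb0⟩ : ∃ z, z + 4 = c := ⟨c - 4, by omega⟩
  obtain ⟨x0, hx0⟩ : ∃ z, z + 9 = 2 * n := ⟨2 * n - 9, by omega⟩
  obtain ⟨y0, hy0⟩ : ∃ z, z + 9 = 2 * n := ⟨2 * n - 9, by omega⟩
  refine check_sound hf (a0 := a0) (b0 := b0) (x0 := x0) (y0 := y0) dDA_3_chk
    ⟨fun _ => by omega, fun h => absurd h (by decide), fun h => absurd h (by decide), by omega, by omega,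
      by omega, by omega⟩ ?_ ?_
  · intro j m p q hr h
    obtain ⟨-, -, -, -, hp1, hp2, hq1, hq2⟩ := hr
    replace h := of_decide_eq_true h
    rcases h with h | h | h | h | h
    · obtain ⟨rfl, rfl, h⟩ := h
      exact (WrapC.v2 H.a2 (by omega) (by omega) (by omega) (by omega) (by omega) (by omega) (by omega)).mpr (by omega)
    · obtain ⟨rfl, rfl, h⟩ := h
      exact (WrapC.v3 H.a2 (by omega) (by omega) (by omega) (by omega) (by omega) (by omega) (by omega) (by omega)).mpr (by omega)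
    · obtain ⟨rfl, rfl, h⟩ := h
      exact (WrapC.v1 H.a2 (by omega) (by omega) (by omega) (by omega) (by omega) (by omega) (by omega) (by omega)).mpr (by omega)
    · obtain ⟨rfl, rfl, h⟩ := h
      exact (WrapC.v3 H.b4 (by omega) (by omega) (by omega) (by omega) (by omega) (by omega) (by omega) (by omega)).mpr (by omega)
    · obtain ⟨rfl, rfl, h⟩ := h
      exact g1 (by omega) (by omega) (by omega) (by omega)
  · intro j m p q hr h
    obtain ⟨-, -, -, -, hp1, hp2, hq1, hq2⟩ := hr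
    replace h := of_decide_eq_true h
    rcases h with h | h | h | h | h | h | h | h | h | h | h | h | h | h
    · obtain ⟨rfl, rfl, h⟩ := h
      exact H.eo _ _ _ _ (by omega) (by omega) (by omega) (by omega) (by omega) (by omega) (by omega)
    · obtain ⟨rfl, rfl, h⟩ := h
      exact H.eo _ _ _ _ (by omega) (by omega) (by omega) (by omega) (by omega) (by omega) (by omega)
    · obtain ⟨rfl, rfl, h⟩ := h
      exact NW.rm1 hf H.T (p := 0) (j := 1) (by omega) (by omega) (by omega) (by omega) (by omega) (by omega) (by omega)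
    · obtain ⟨rfl, rfl, h⟩ := h
      exact NW.rm1 hf H.T (p := 1) (j := 1) (by omega) (by omega) (by omega) (by omega) (by omega) (by omega) (by omega)
    · obtain ⟨rfl, rfl, h⟩ := h
      exact NW.rm1i hf H.T (p := 0) (j := 3) (by omega) (by omega) (by omega) (by omega) (by omega) (by omega) (by omega)
    · obtain ⟨rfl, rfl, h⟩ := h
      exact NHT.pOut hf H.T (t := 4) (j := 1) (by omega) (by omega) (by omega) (by omega) (by omega) (by omega) (by omega)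
    · obtain ⟨rfl, rfl, h⟩ := h
      exact NHT.p0i hf H.T (j := 4) (by omega) (by omega) (by omega) (by omega) (by omega) (by omega)
    · obtain ⟨rfl, rfl, h⟩ := h
      exact hF2 _ _ _ _ (by omega) (by omega) (by omega) (by omega) (by omega) (by omega)
    · obtain ⟨rfl, rfl, h⟩ := h
      exact NW.rm1i hf H.T (p := 1) (j := 3) (by omega) (by omega) (by omega) (by omega) (by omega) (by omega) (by omega)
    · obtain ⟨rfl, rfl, h⟩ := h
      exact NW.rm1i hf H.T (p := 0) (j := 2) (by omega) (by omega) (by omega) (by omega) (by omega) (by omega) (by omega)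
    · obtain ⟨rfl, rfl, h⟩ := h
      exact NHT.p0i hf H.T (j := 2) (by omega) (by omega) (by omega) (by omega) (by omega) (by omega)
    · obtain ⟨rfl, rfl, h⟩ := h
      exact NHT.pOut hf H.T (t := 4) (j := 2) (by omega) (by omega) (by omega) (by omega) (by omega) (by omega) (by omega)
    · obtain ⟨rfl, rfl, h⟩ := h
      exact g2 (by omega) (by omega) (by omega) (by omega)
    · obtain ⟨rfl, rfl, h⟩ := h
      exact g3 (by omega) (by omega) (by omega) (by omega)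

theorem dDC_5_chk : check 11 6 16 16 1 0 1 1 2
    (fun j n p q => decide ((j = 9 ∧ n = 2 ∧ ((p = 10 ∧ ((q = 1) ∨ (q = 3) ∨ (q = 5) ∨ (q = 7))) ∨ (p = 12 ∧ ((q = 1) ∨ (q = 3) ∨ (q = 5) ∨ (q = 7) ∨ (q = 9)))))
      ∨ (j = 7 ∧ n = 2 ∧ (((p = 11) ∨ (p = 13)) ∧ ((q = 6) ∨ (q = 8) ∨ (q = 10))))
      ∨ (j = 3 ∧ n = 2 ∧ ((((p = 7) ∨ (p = 11) ∨ (p = 13)) ∧ q = 6) ∨ (p = 9 ∧ ((q = 6) ∨ (q = 8)))))
      ∨ (j = 11 ∧ n = 4 ∧ (p = 14 ∧ ((q = 5) ∨ (q = 7) ∨ (q = 9))))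
      ∨ (j = 9 ∧ n = 4 ∧ (((p = 11) ∨ (p = 13)) ∧ q = 10))
      ∨ (j = 5 ∧ n = 1 ∧ (p = 8 ∧ q = 8))
      ∨ (j = 7 ∧ n = 3 ∧ (p = 8 ∧ q = 8))
      ∨ (j = 3 ∧ n = 3 ∧ (p = 8 ∧ q = 8))
      ∨ (j = 3 ∧ n = 1 ∧ (p = 7 ∧ q = 7))
      ∨ (j = 1 ∧ n = 1 ∧ (p = 6 ∧ q = 6))
      ∨ (j = 5 ∧ n = 2 ∧ (p = 6 ∧ q = 5))))
    (fun j n p q => decide ((j = 6 ∧ n = 3 ∧ ((p = 10 ∧ 1 ≤ q ∧ q ≤ 7) ∨ (p = 11 ∧ ((1 ≤ q ∧ q ≤ 4) ∨ (q = 6))) ∨ (p = 12 ∧ 3 ≤ q ∧ q ≤ 8) ∨ (p = 13 ∧ 5 ≤ q ∧ q ≤ 9)))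
      ∨ (j = 5 ∧ n = 3 ∧ ((p = 9 ∧ ((q = 1) ∨ (q = 3) ∨ (q = 5))) ∨ (p = 10 ∧ ((q = 1) ∨ (q = 3) ∨ (5 ≤ q ∧ q ≤ 6))) ∨ (11 ≤ p ∧ p ≤ 12 ∧ ((q = 3) ∨ (5 ≤ q ∧ q ≤ 6) ∨ (q = 8))) ∨ (p = 13 ∧ ((q = 5) ∨ (8 ≤ q ∧ q ≤ 9)))))
      ∨ (j = 2 ∧ n = 3 ∧ ((p = 7 ∧ q = 6) ∨ (p = 8 ∧ 3 ≤ q ∧ q ≤ 6) ∨ (p = 9 ∧ ((3 ≤ q ∧ q ≤ 4) ∨ (q = 6))) ∨ (p = 10 ∧ 4 ≤ q ∧ q ≤ 6) ∨ (12 ≤ p ∧ p ≤ 13 ∧ 5 ≤ q ∧ q ≤ 6)))
      ∨ (j = 2 ∧ n = 4 ∧ ((((p = 7) ∨ (p = 13)) ∧ q = 6) ∨ (p = 8 ∧ 3 ≤ q ∧ q ≤ 7) ∨ (p = 9 ∧ ((q = 4) ∨ (q = 6))) ∨ (p = 10 ∧ 4 ≤ q ∧ q ≤ 6) ∨ (p = 12 ∧ 5 ≤ q ∧ q ≤ 6)))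
      ∨ (j = 4 ∧ n = 3 ∧ ((9 ≤ p ∧ p ≤ 10 ∧ 1 ≤ q ∧ q ≤ 5) ∨ (p = 12 ∧ q = 4) ∨ (p = 13 ∧ 4 ≤ q ∧ q ≤ 5)))
      ∨ (j = 3 ∧ n = 3 ∧ ((p = 8 ∧ q = 5) ∨ (((p = 10) ∨ (12 ≤ p ∧ p ≤ 13)) ∧ 4 ≤ q ∧ q ≤ 5)))
      ∨ (j = 6 ∧ n = 4 ∧ ((p = 11 ∧ 1 ≤ q ∧ q ≤ 4) ∨ (p = 12 ∧ 3 ≤ q ∧ q ≤ 4)))
      ∨ (j = 4 ∧ n = 4 ∧ ((p = 10 ∧ 1 ≤ q ∧ q ≤ 4) ∨ (p = 11 ∧ q = 4)))
      ∨ (j = 8 ∧ n = 3 ∧ (11 ≤ p ∧ p ≤ 12 ∧ ((q = 2) ∨ (q = 4))))
      ∨ (j = 5 ∧ n = 1 ∧ (11 ≤ p ∧ p ≤ 12 ∧ 8 ≤ q ∧ q ≤ 9))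
      ∨ (j = 6 ∧ n = 4 ∧ (p = 13 ∧ ((5 ≤ q ∧ q ≤ 6) ∨ (8 ≤ q ∧ q ≤ 9))))
      ∨ (j = 5 ∧ n = 3 ∧ ((p = 9 ∧ q = 7) ∨ (p = 10 ∧ q = 8) ∨ (p = 11 ∧ q = 9)))
      ∨ (j = 7 ∧ n = 3 ∧ (12 ≤ p ∧ p ≤ 13 ∧ q = 5))
      ∨ (j = 6 ∧ n = 3 ∧ ((p = 10 ∧ q = 8) ∨ (p = 11 ∧ q = 9)))
      ∨ (j = 4 ∧ n = 4 ∧ (p = 13 ∧ 4 ≤ q ∧ q ≤ 5))
      ∨ (j = 7 ∧ n = 4 ∧ (p = 13 ∧ ((q = 6) ∨ (q = 8))))
      ∨ (j = 3 ∧ n = 4 ∧ (p = 13 ∧ ((q = 4) ∨ (q = 6))))
      ∨ (j = 4 ∧ n = 4 ∧ (p = 9 ∧ 1 ≤ q ∧ q ≤ 2))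
      ∨ (j = 6 ∧ n = 4 ∧ (p = 11 ∧ q = 9))
      ∨ (j = 2 ∧ n = 4 ∧ (p = 13 ∧ q = 5))
      ∨ (j = 5 ∧ n = 4 ∧ (p = 10 ∧ q = 1))
      ∨ (j = 8 ∧ n = 4 ∧ (p = 12 ∧ q = 2))
      ∨ (j = 6 ∧ n = 4 ∧ (p = 10 ∧ q = 1))
      ∨ (j = 5 ∧ n = 4 ∧ (p = 12 ∧ q = 3))
      ∨ (j = 2 ∧ n = 4 ∧ (p = 9 ∧ q = 3))
      ∨ (j = 9 ∧ n = 4 ∧ (p = 11 ∧ q = 2))
      ∨ (j = 9 ∧ n = 4 ∧ (p = 12 ∧ q = 2))))
    710
    0xb4a030e4a800e49801152d211525a145200175a521a5a001d62da1d6b00206bca1d5b001d639a0b4a030e4a800e49801152d211525a145200175a521a5a001d62da1d63001d63041a3e0e204e831a3e001a3e0420640e1d64832064002064041d3e0e204e831d3e001d3e041d4e03204e00204e041a458e1745831a45801a458414538e0b4b030e4b800e4a801153d211535a1453801453840b4a030b42800b4b1a0e4b801153d21453800e4980145b9211525a115280115284175b031a5b001a5b040b4a030e49800e4a8011525a1152d214528014528414350e0b34830e3c800e2c80113d4a11355a1435001435041d61831d6a00206aca1d5a00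1d5a041762031a62001a62040aa48e0e2d830aa4800aa4840e5a830b4a000b4a040dda0e1462030dda000dda040ada0e0e6a830ada000ada041d61831d62001d62041759031a59001a59040e248e0b24830e24800e2484176b0316da8016da841a3d8e1d4e031a3d801a3d841a360e1736831a36001a36040b5a0e0e6a830b5a000b5a040e4b0e0b4b030e4b000e4b040aac8e0b35830aac800aac8414358e1135831435801435840e528e0b52830e52800e528407ac8e0b358307ac8007ac840dae0e1436830dae000dae04082c8e0b3583082c80082c840e350e0b35830e35000e350414360e113e031436001436040e5b0e0b5b030e5b000e5b0407db0e0e6b8307db0007db0407da8e0b6b0307da8007da8408358e0e3e83083580083584085a8e0b6b03085a80085a840dda8e1163830dda800dda840aad8e0b36830aad800aad840e5a8e1163830e5a800e5a840b358e0e3e830b35800b35840e360e0b36830e36000e36041a4e83174580174584116c00114680146cca144ed210ce0e134e0310ce0010ce04114580115c00144dd2145cca145c0e1a6c83145c00145c0413dc0e1a6c8313dc0013dc041a6c0e176c031a6c001a6c041a640e176c031a64001a6404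143e0e143603143e00143e0413da8e176b0313da8013da84145a8e176b03145a80145a84145b8e176c03145b80145b8413db8e176c0313db8013db84146b03146b80146b8411628e14620311628011628413ce0e134e0313ce0013ce0414648e145c8314648014648410bd8e144d8310bd8010bd8414460e144d8314460014460410bd0e144d8310bd0010bd0414540e144c0314540014540411540e114c031154001154040e3c0e07bb83083b800b3c4a0e3c000e3c0413d48e10cc8313cd0013d48013d48e13d48414548e10cc83144d0014548014548e14548411510314518014518411510314510014510410cd0e10cc8310d48010cd0010cd0e10cd040e6b0e0b6b030e6b000e6b04114d0e10cc83115480114d00114d0e114d04142e0e142603142e00142e0411510311518011518410bb80234f001d56801d55801c4e001c3e001c3d0016568016468016368016558016458016358013bbc2102b000a36800a35800a44800a34800a338023748e2373802372801d6d001d6d0e1d5d001d5d0e1c64801c648e1c63801c638e1c62801c61801c60801c53801c538e1c52801c51801c5080176c0e176b0e16ea8e16e28e16c400166d0e166c00166c0e166b00166b0e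165d0e165c00165c0e165b00165b0e146c8e146c0e146b0e146a8e14620e14618e145c8e145a0e14598e13ec8e13ec0e13eb0e13ea8e13e40e13e30e13e28e13e20e13e18e13dc8e13db0e13da0e13d98e13d40e13d38e11618e10ec8e10ec0e10ea8e10e40e10e30e10e28e10e18e10dc8e10dc0e10db0e10da8e10d98e10d40e10d30e10d28e10cb8e10ca8e10328010328e0fe48e0fe40e0fdc8e0fdc0e0fc4000e5a0e0e520e0dd28e0dd20e0dca8e0b6b0e0aea8e0ae28e0ad28e0ad20e0ac4000ac28e0a6b000a6b0e0a5b000a5b0e0a4c000a4c0e0a4b000a4b0e0a3b000a3b0e09bb80086b0e086a8e08630e08628e08530e08528e084b0e084a0e08498e08438e08430e08428e08420e08418e083b0e07eb0e07ea8e07e30e07e28e07d30e07d28e07cb0e07ca0e07c98e07c30e07c28e07c20e07c18e07bb0e03b30023748f23738f23728f1d6d0f1d6b871d6a871d61071d5d0f1d5c871d5b871d5a871d59871d59071d4e871d4d871c648f1c638f1c628f1c618f1c608f1c538f1c528f1c518f1c508f1a610719e20719e10719da0719d907176c87176c07176b87176b07176a87175a87175987175887174e87173d87172e8716ea8716e28716c40f166d0f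166c0f166b0f165d0f165c0f165b0f146c87146c07146b07146a87146207146187145c87145a0714598714590714588714508713ec8713ec0713eb8713eb0713ea8713e40713e38713e30713e28713e20713e18713dc8713db0713da0713d98713d90713d88713d40713d38713d30713d28713d20713d18713d10713d087116c87116a87116187115c87115b87115987115087114e87114d87114b87114a87114987114887113d87113c87112e87112d87112c87111d8710ec8710ec0710ea8710e40710e30710e28710e18710dc8710dc0710db0710da8710d98710d40710d30710d28710d18710d08710cb8710ca8710c98710c887104d87104c87103b8710328f0fe4870fe4070fdc870fdc070fc40f0e6a870e6a070e5a070e52070e51870e51070e50870e49070e48870dea870dea070de2070dd2870dd2070dd1870dd1070dd0870dca870dca070dc9870dc9070dc8870b6b870b6b070b6a870b6a070b5a870b4a870b49870b3e870b3b870b2e870b2d870b2c870b1c870aea870aea070ae2870ae2070ad2870ad2070ac40f0ac2870a6b0f0a5b0f0a4c0f0a4b0f0a3b0f09bb8f086b07086a87086307086287085307085287085207084b07084a07084987084387084307084287084207084187083b0707eb0707ea8707e30707e28707d30707d28707d20707cb0707ca0707c98707c30707c28707c20707c18707bb07043b8703b30f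 = true := by
  decide +kernel

theorem dDC_5 (hf : Rule f) {k c n : ℕ} (H : LI f k c n) (hF2 : F2 f k c n) (hF6 : F6 f k c n)
    (hB : FB f k c n) (hC : FC f k c n)
    (g1 : ∀ {M R x y : ℕ}, M = 6 * k + 4 → R + 2 = c → x + 5 = 2 * n → y + 6 = 2 * n → f M R x y)
    (g2 : ∀ {M R x y : ℕ}, M = 6 * k + 8 → R = c → x = 2 * n → y + 9 = 2 * n → ¬ f M R x y)
    (g3 : ∀ {M R x y : ℕ}, M = 6 * k + 8 → R = c → x = 2 * n + 1 → y + 9 = 2 * n → ¬ f M R x y) : False := by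
  have hk := H.T.hk
  have hc := H.T.hc
  have h4 := H.T.h4
  have hb := H.T.hb
  have hN := H.T.hN2
  obtain ⟨a0, ha0⟩ : ∃ z, z + 1 = 6 * k := ⟨6 * k - 1, by omega⟩
  obtain ⟨b0, hb0⟩ : ∃ z, z + 4 = c := ⟨c - 4, by omega⟩
  obtain ⟨x0, hx0⟩ : ∃ z, z + 11 = 2 * n := ⟨2 * n - 11, by omega⟩
  obtain ⟨y0, hy0⟩ : ∃ z, z + 11 = 2 * n := ⟨2 * n - 11, by omega⟩
  refine check_sound hf (a0 := a0) (b0 := b0) (x0 := x0) (y0 := y0) dDC_5_chk
    ⟨fun _ => by omega, fun h => absurd h (by decide), fun h => absurd h (by decide), by omega, by omega,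
      by omega, by omega⟩ ?_ ?_
  · intro j m p q hr h
    obtain ⟨-, -, -, -, hp1, hp2, hq1, hq2⟩ := hr
    replace h := of_decide_eq_true h
    rcases h with h | h | h | h | h | h | h | h | h | h | h
    · obtain ⟨rfl, rfl, h⟩ := h
      exact (NW.w0v H.a8 (by omega) (by omega) (by omega) (by omega) (by omega) (by omega) (by omega)).mpr (by omega)
    · obtain ⟨rfl, rfl, h⟩ := h
      exact (WrapC.v2 H.a6 (by omega) (by omega) (by omega) (by omega) (by omega) (by omega) (by omega)).mpr (by omega)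
    · obtain ⟨rfl, rfl, h⟩ := h
      exact (WrapC.v2 H.a2 (by omega) (by omega) (by omega) (by omega) (by omega) (by omega) (by omega)).mpr (by omega)
    · obtain ⟨rfl, rfl, h⟩ := h
      exact (NW.w0v H.a10 (by omega) (by omega) (by omega) (by omega) (by omega) (by omega) (by omega)).mpr (by omega)
    · obtain ⟨rfl, rfl, h⟩ := h
      exact (NW.w2v H.a8 (by omega) (by omega) (by omega) (by omega) (by omega) (by omega) (by omega)).mpr (by omega)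
    · obtain ⟨rfl, rfl, h⟩ := h
      exact (WrapC.v3 H.b4 (by omega) (by omega) (by omega) (by omega) (by omega) (by omega) (by omega) (by omega)).mpr (by omega)
    · obtain ⟨rfl, rfl, h⟩ := h
      exact (WrapC.v3 H.a6 (by omega) (by omega) (by omega) (by omega) (by omega) (by omega) (by omega) (by omega)).mpr (by omega)
    · obtain ⟨rfl, rfl, h⟩ := h
      exact (WrapC.v3 H.a2 (by omega) (by omega) (by omega) (by omega) (by omega) (by omega) (by omega) (by omega)).mpr (by omega)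
    · obtain ⟨rfl, rfl, h⟩ := h
      exact (WrapC.v1 H.a2 (by omega) (by omega) (by omega) (by omega) (by omega) (by omega) (by omega) (by omega)).mpr (by omega)
    · obtain ⟨rfl, rfl, h⟩ := h
      exact (WrapC.v3 H.a0 (by omega) (by omega) (by omega) (by omega) (by omega) (by omega) (by omega) (by omega)).mpr (by omega)
    · obtain ⟨rfl, rfl, h⟩ := h
      exact g1 (by omega) (by omega) (by omega) (by omega)
  · intro j m p q hr h
    obtain ⟨-, -, -, -, hp1, hp2, hq1, hq2⟩ := hr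
    replace h := of_decide_eq_true h
    rcases h with h | h | h | h | h | h | h | h | h | h | h | h | h | h | h | h | h | h | h | h | h | h | h | h | h | h | h
    · obtain ⟨rfl, rfl, h⟩ := h
      exact NW.rm1i hf H.T (p := 1) (j := 2) (by omega) (by omega) (by omega) (by omega) (by omega) (by omega) (by omega)
    · obtain ⟨rfl, rfl, h⟩ := h
      exact NW.rm1i hf H.T (p := 0) (j := 2) (by omega) (by omega) (by omega) (by omega) (by omega) (by omega) (by omega)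
    · obtain ⟨rfl, rfl, h⟩ := h
      exact H.eo _ _ _ _ (by omega) (by omega) (by omega) (by omega) (by omega) (by omega) (by omega)
    · obtain ⟨rfl, rfl, h⟩ := h
      exact H.eo _ _ _ _ (by omega) (by omega) (by omega) (by omega) (by omega) (by omega) (by omega)
    · obtain ⟨rfl, rfl, h⟩ := h
      exact NW.rm1i hf H.T (p := 1) (j := 3) (by omega) (by omega) (by omega) (by omega) (by omega) (by omega) (by omega)
    · obtain ⟨rfl, rfl, h⟩ := h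
      exact zrx hf H (p := 2) (by omega) (by omega) (by omega) (by omega) (by omega) (by omega) (by omega) (by omega) (by omega)
    · obtain ⟨rfl, rfl, h⟩ := h
      exact hB.p5 _ _ _ _ (by omega) (by omega) (by omega) (by omega) (by omega) (by omega)
    · obtain ⟨rfl, rfl, h⟩ := h
      exact hB.p3 _ _ _ _ (by omega) (by omega) (by omega) (by omega) (by omega) (by omega)
    · obtain ⟨rfl, rfl, h⟩ := h
      exact NW.rm1i hf H.T (p := 1) (j := 1) (by omega) (by omega) (by omega) (by omega) (by omega) (by omega) (by omega)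
    · obtain ⟨rfl, rfl, h⟩ := h
      exact NHT.rOut hf H.T (t := 2) (p := 0) (j := 0) (by omega) (by omega) (by omega) (by omega) (by omega) (by omega) (by omega) (by omega)
    · obtain ⟨rfl, rfl, h⟩ := h
      exact NHT.p0i hf H.T (j := 2) (by omega) (by omega) (by omega) (by omega) (by omega) (by omega)
    · obtain ⟨rfl, rfl, h⟩ := h
      exact NW.rm1 hf H.T (p := 0) (j := 1) (by omega) (by omega) (by omega) (by omega) (by omega) (by omega) (by omega)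
    · obtain ⟨rfl, rfl, h⟩ := h
      exact NW.rm1i hf H.T (p := 0) (j := 1) (by omega) (by omega) (by omega) (by omega) (by omega) (by omega) (by omega)
    · obtain ⟨rfl, rfl, h⟩ := h
      exact NW.rm1 hf H.T (p := 1) (j := 1) (by omega) (by omega) (by omega) (by omega) (by omega) (by omega) (by omega)
    · obtain ⟨rfl, rfl, h⟩ := h
      exact NHT.p0i hf H.T (j := 3) (by omega) (by omega) (by omega) (by omega) (by omega) (by omega)
    · obtain ⟨rfl, rfl, h⟩ := h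
      exact hF6 _ _ _ _ (by omega) (by omega) (by omega) (by omega) (by omega) (by omega)
    · obtain ⟨rfl, rfl, h⟩ := h
      exact hF2 _ _ _ _ (by omega) (by omega) (by omega) (by omega) (by omega) (by omega)
    · obtain ⟨rfl, rfl, h⟩ := h
      exact hC.p3 _ _ _ _ (by omega) (by omega) (by omega) (by omega) (by omega) (by omega)
    · obtain ⟨rfl, rfl, h⟩ := h
      exact NHT.pOut hf H.T (t := 4) (j := 1) (by omega) (by omega) (by omega) (by omega) (by omega) (by omega) (by omega)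
    · obtain ⟨rfl, rfl, h⟩ := h
      exact NHT.p0i hf H.T (j := 4) (by omega) (by omega) (by omega) (by omega) (by omega) (by omega)
    · obtain ⟨rfl, rfl, h⟩ := h
      exact hC.y4 _ _ _ _ (by omega) (by omega) (by omega) (by omega)
    · obtain ⟨rfl, rfl, h⟩ := h
      exact hC.p7 _ _ _ _ (by omega) (by omega) (by omega) (by omega) (by omega)
    · obtain ⟨rfl, rfl, h⟩ := h
      exact hC.p5 _ _ _ _ (by omega) (by omega) (by omega) (by omega) (by omega) (by omega) (by omega)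
    · obtain ⟨rfl, rfl, h⟩ := h
      exact hB.y4 _ _ _ _ (by omega) (by omega) (by omega) (by omega)
    · obtain ⟨rfl, rfl, h⟩ := h
      exact hB.p1 _ _ _ _ (by omega) (by omega) (by omega) (by omega) (by omega) (by omega)
    · obtain ⟨rfl, rfl, h⟩ := h
      exact g2 (by omega) (by omega) (by omega) (by omega)
    · obtain ⟨rfl, rfl, h⟩ := h
      exact g3 (by omega) (by omega) (by omega) (by omega)

end Pool.Agent.SNT.LRI
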