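import Pool.Agent.SNT.LRDef

set_option autoImplicit false
set_option linter.unusedVariables false
set_option synthInstance.maxSize 100000
set_option synthInstance.maxHeartbeats 4000000

/-! Windows near the diagonal. -/

namespace Pool.Agent.SNT.LRI

open Pool.Agent.SNT Pool.Agent.SNT.Loc Pool.Agent.SNT.LW Pool.Agent.SNT.NHZ

variable {f : ℕ → ℕ → ℕ → ℕ → Prop}

theorem vD2_1_chk : check 8 7 19 19 0 1 1 1 2
    (fun j n p q => decide ((j = 4 ∧ n = 3 ∧ ((p = 9 ∧ q = 8) ∨ (p = 11 ∧ q = 10) ∨ (((p = 13) ∨ (p = 15) ∨ (p = 17)) ∧ ((q = 10) ∨ (q = 12)))))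
      ∨ (j = 2 ∧ n = 1 ∧ ((((p = 7) ∨ (p = 9)) ∧ ((q = 4) ∨ (q = 6))) ∨ (p = 11 ∧ ((q = 8) ∨ (q = 10))) ∨ (((p = 13) ∨ (p = 15)) ∧ q = 10)))
      ∨ (j = 6 ∧ n = 1 ∧ (((p = 9) ∨ (p = 11)) ∧ ((q = 4) ∨ (q = 8))))
      ∨ (j = 8 ∧ n = 3 ∧ (p = 11 ∧ ((q = 8) ∨ (q = 10))))
      ∨ (j = 4 ∧ n = 4 ∧ ((p = 10 ∧ q = 10) ∨ (p = 12 ∧ q = 12)))
      ∨ (j = 6 ∧ n = 2 ∧ (p = 12 ∧ q = 12))
      ∨ (j = 8 ∧ n = 4 ∧ (p = 12 ∧ q = 12))
      ∨ (j = 4 ∧ n = 2 ∧ (p = 11 ∧ q = 11))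
      ∨ (j = 2 ∧ n = 2 ∧ (p = 10 ∧ q = 10))
      ∨ (j = 2 ∧ n = 3 ∧ (p = 8 ∧ q = 1))
      ∨ (j = 6 ∧ n = 3 ∧ (p = 10 ∧ q = 3))))
    (fun j n p q => decide ((j = 3 ∧ n = 4 ∧ ((((p = 11) ∨ (14 ≤ p ∧ p ≤ 16)) ∧ q = 10) ∨ (p = 17 ∧ 10 ≤ q ∧ q ≤ 11)))
      ∨ (j = 2 ∧ n = 4 ∧ ((((p = 14) ∨ (p = 16)) ∧ q = 10) ∨ (p = 17 ∧ 10 ≤ q ∧ q ≤ 11)))
      ∨ (j = 3 ∧ n = 2 ∧ (8 ≤ p ∧ p ≤ 9 ∧ 2 ≤ q ∧ q ≤ 3))
      ∨ (j = 3 ∧ n = 5 ∧ (((12 ≤ p ∧ p ≤ 13) ∨ (p = 15) ∨ (p = 17)) ∧ q = 10))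
      ∨ (j = 7 ∧ n = 4 ∧ ((10 ≤ p ∧ p ≤ 11 ∧ q = 7) ∨ (p = 15 ∧ q = 12)))
      ∨ (j = 6 ∧ n = 4 ∧ ((10 ≤ p ∧ p ≤ 11 ∧ q = 7) ∨ (p = 15 ∧ q = 12)))
      ∨ (j = 2 ∧ n = 2 ∧ ((p = 8 ∧ q = 2) ∨ (p = 9 ∧ 2 ≤ q ∧ q ≤ 3)))
      ∨ (j = 5 ∧ n = 5 ∧ ((p = 15 ∧ q = 11) ∨ (p = 16 ∧ 11 ≤ q ∧ q ≤ 12)))
      ∨ (j = 7 ∧ n = 5 ∧ ((p = 14 ∧ q = 12) ∨ (p = 15 ∧ 12 ≤ q ∧ q ≤ 13)))
      ∨ (j = 7 ∧ n = 4 ∧ ((p = 14 ∧ q = 12) ∨ (p = 15 ∧ q = 13)))
      ∨ (j = 6 ∧ n = 4 ∧ ((p = 14 ∧ q = 12) ∨ (p = 15 ∧ q = 13)))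
      ∨ (j = 3 ∧ n = 3 ∧ (p = 9 ∧ ((q = 3) ∨ (q = 5))))
      ∨ (j = 7 ∧ n = 3 ∧ (10 ≤ p ∧ p ≤ 11 ∧ q = 5))
      ∨ (j = 1 ∧ n = 5 ∧ (p = 10 ∧ 9 ≤ q ∧ q ≤ 10))
      ∨ (j = 3 ∧ n = 3 ∧ (p = 8 ∧ ((q = 3) ∨ (q = 5))))
      ∨ (j = 3 ∧ n = 5 ∧ (p = 17 ∧ q = 11))
      ∨ (j = 1 ∧ n = 4 ∧ (p = 10 ∧ q = 9))
      ∨ (j = 2 ∧ n = 5 ∧ (p = 17 ∧ q = 10))))
    388
    0xd1f05082580120ec20dd3720dca800ddc8012c45a12d65a0c6b000c58000c74000c7300115ac21151521163c211634a0c738e0d1f05082580120ec20dd3720dca800ddc8012c45a12d65a0c61800c73800c738e0c73840de60e12e9030de6000de604120e83082600082f00082f0e082f040dd40e120e830ddd000dd4000dd40e0dd40412060e115103120600120604120f8e115a83120f80120f8412058e11510312058012058412c38e120e8312cc8012c38012c38e12c3840d0b0011fac20c4c000c430011455211334a0c4b000c300011445211204a0c270e110d030c27000c27040c4a8e1143030c4a800c4a841176830d3b800d3b8412c48e1cad0312c48012c4841176830d45000d450412fc030df9000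df9041cd20312e90012e9041189830d4e800d4e8412fc030d44800d448411160e110d0311160011160411438e1143031143801143840c620e1151030c62000c620412c40e1cad0312c40012c404117683122b00122b041cd20312348012348412c58e1cae0312c58012c58417be0e1cad0317be0017be042696031ca3801ca3842696031cad001cad0420f10325ea0025e10025e10e25e104118983123e00123e04269e8e20f103269580269e80269e8e269e8420fa8e20f10320f18020fa8020fa8e20fa841cc88e1cbf031cc8801cc8841ca30e1ca2831ca3001ca30421af0e20f10321a60021af0021af0e21af0420dd0025ccc2201500201e0025054a251752200200201d0025a6ea1fef0029fe0025caf229eb00201c00201c0e1ea3001ea200165500164200165400164100164000162c000c0a000af8000ae5000ad1000abe000ad0000abd002ac6002a07002a070e2a06002a060e26a80e26a78e269e0e25f38e25f30e25e98e25ca8e25c10e21040e21038e20fa0e20db0e20d18e251552201b001f7e001ebe001ebe0e1ebc001eab001eab0e1ea9001cd20e1cd18e1cc80e17080016f40016830016820016700016700e166f00166f0e165d00165d0e165c00165c0e16490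016490e16350016350e15950012d58e12cc0e120e0e11440e11430e113a8e11398e108e8e108e0e10850e10848e0c49000c490e0bac000b9f0e0b9e8e0b950e0b27000b14000b01000b010e0b00000b000e0aec000aec0e0aeb000aeb0e0ad9000ad90e0ad8000ad80e2ac60f2a070f2a060f26a80726a787269e0725f38725f30725e98725ca8725c107251507250b8721a68721040721038720fa0720db0720d187203c87202887202787202687202587201b0f2015872002871f7e0f1ebe0f1ebc0f1eab0f1ea90f1cd2071cd1871cc80717d88717c58717b48717b38717b28717080f16f40f16830f16820f16700f166f0f165d0f165c0f16490f16350f15950f12fc0712fb8712e88712d58712cc07124787124707123d87123407122a87120e07114407114307113a87113987108e87108e071085071084870e0c870e0c070df9870de6870dd4870dd2870d58070d57870d4e070d3b070c90870c7d870c6a870c69870c57870c56870c55870c54870c53870c490f0c43870c30870c1d870bac0f0b9f070b9e870b95070b270f0b140f0b010f0b000f0aec0f0aeb0f0ad90f0ad80f08da0708d987082507 = true := by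
  decide +kernel

theorem vD2_1 (hf : Rule f) {k c n : ℕ} (H : LI f k c n)
    (g1 : ∀ {M R x y : ℕ}, M = 6 * k + 0 → R + 2 = c → x + 5 = 2 * n → y + 12 = 2 * n → f M R x y)
    (g2 : ∀ {M R x y : ℕ}, M = 6 * k + 0 → R = c → x = 2 * n + 4 → y + 3 = 2 * n → ¬ f M R x y)
    (g3 : ∀ {M R x y : ℕ}, M = 6 * k + 4 → R + 2 = c → x + 3 = 2 * n → y + 10 = 2 * n → f M R x y) : False := by
  have hk := H.T.hk
  have hc := H.T.hc
  have h4 := H.T.h4
  have hb := H.T.hb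
  have hN := H.T.hN2
  obtain ⟨a0, ha0⟩ : ∃ z, z + 2 = 6 * k := ⟨6 * k - 2, by omega⟩
  obtain ⟨b0, hb0⟩ : ∃ z, z + 5 = c := ⟨c - 5, by omega⟩
  obtain ⟨x0, hx0⟩ : ∃ z, z + 13 = 2 * n := ⟨2 * n - 13, by omega⟩
  obtain ⟨y0, hy0⟩ : ∃ z, z + 13 = 2 * n := ⟨2 * n - 13, by omega⟩
  refine check_sound hf (a0 := a0) (b0 := b0) (x0 := x0) (y0 := y0) vD2_1_chk
    ⟨fun _ => by omega, fun h => absurd h (by decide), fun h => absurd h (by decide), by omega, by omega,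
      by omega, by omega⟩ ?_ ?_
  · intro j m p q hr h
    obtain ⟨-, -, -, -, hp1, hp2, hq1, hq2⟩ := hr
    replace h := of_decide_eq_true h
    rcases h with h | h | h | h | h | h | h | h | h | h | h
    · obtain ⟨rfl, rfl, h⟩ := h
      exact (WrapC.v2 H.a2 (by omega) (by omega) (by omega) (by omega) (by omega) (by omega) (by omega)).mpr (by omega)
    · obtain ⟨rfl, rfl, h⟩ := h
      exact (WrapC.v2 H.a0 (by omega) (by omega) (by omega) (by omega) (by omega) (by omega) (by omega)).mpr (by omega)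
    · obtain ⟨rfl, rfl, h⟩ := h
      exact (WrapC.v2 H.b4 (by omega) (by omega) (by omega) (by omega) (by omega) (by omega) (by omega)).mpr (by omega)
    · obtain ⟨rfl, rfl, h⟩ := h
      exact (WrapC.v2 H.a6 (by omega) (by omega) (by omega) (by omega) (by omega) (by omega) (by omega)).mpr (by omega)
    · obtain ⟨rfl, rfl, h⟩ := h
      exact (WrapC.v3 H.a2 (by omega) (by omega) (by omega) (by omega) (by omega) (by omega) (by omega) (by omega)).mpr (by omega)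
    · obtain ⟨rfl, rfl, h⟩ := h
      exact (WrapC.v3 H.b4 (by omega) (by omega) (by omega) (by omega) (by omega) (by omega) (by omega) (by omega)).mpr (by omega)
    · obtain ⟨rfl, rfl, h⟩ := h
      exact (WrapC.v3 H.a6 (by omega) (by omega) (by omega) (by omega) (by omega) (by omega) (by omega) (by omega)).mpr (by omega)
    · obtain ⟨rfl, rfl, h⟩ := h
      exact (WrapC.v1 H.a2 (by omega) (by omega) (by omega) (by omega) (by omega) (by omega) (by omega) (by omega)).mpr (by omega)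
    · obtain ⟨rfl, rfl, h⟩ := h
      exact (WrapC.v3 H.a0 (by omega) (by omega) (by omega) (by omega) (by omega) (by omega) (by omega) (by omega)).mpr (by omega)
    · obtain ⟨rfl, rfl, h⟩ := h
      exact g1 (by omega) (by omega) (by omega) (by omega)
    · obtain ⟨rfl, rfl, h⟩ := h
      exact g3 (by omega) (by omega) (by omega) (by omega)
  · intro j m p q hr h
    obtain ⟨-, -, -, -, hp1, hp2, hq1, hq2⟩ := hr
    replace h := of_decide_eq_true h
    rcases h with h | h | h | h | h | h | h | h | h | h | h | h | h | h | h | h | h | h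
    · obtain ⟨rfl, rfl, h⟩ := h
      exact H.eo _ _ _ _ (by omega) (by omega) (by omega) (by omega) (by omega) (by omega) (by omega)
    · obtain ⟨rfl, rfl, h⟩ := h
      exact NW.rm1 hf H.T (p := 0) (j := 3) (by omega) (by omega) (by omega) (by omega) (by omega) (by omega) (by omega)
    · obtain ⟨rfl, rfl, h⟩ := h
      exact NHT.rIn hf H.T (t := 3) (p := 1) (j := 3) (by omega) (by omega) (by omega) (by omega) (by omega) (by omega) (by omega) (by omega)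
    · obtain ⟨rfl, rfl, h⟩ := h
      exact H.eo _ _ _ _ (by omega) (by omega) (by omega) (by omega) (by omega) (by omega) (by omega)
    · obtain ⟨rfl, rfl, h⟩ := h
      exact NW.rm1i hf H.T (p := 1) (j := 2) (by omega) (by omega) (by omega) (by omega) (by omega) (by omega) (by omega)
    · obtain ⟨rfl, rfl, h⟩ := h
      exact NW.rm1i hf H.T (p := 0) (j := 2) (by omega) (by omega) (by omega) (by omega) (by omega) (by omega) (by omega)
    · obtain ⟨rfl, rfl, h⟩ := h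
      exact NHT.rIn hf H.T (t := 3) (p := 0) (j := 3) (by omega) (by omega) (by omega) (by omega) (by omega) (by omega) (by omega) (by omega)
    · obtain ⟨rfl, rfl, h⟩ := h
      exact NHT.pOut hf H.T (t := 4) (j := 2) (by omega) (by omega) (by omega) (by omega) (by omega) (by omega) (by omega)
    · obtain ⟨rfl, rfl, h⟩ := h
      exact NHT.pOut hf H.T (t := 4) (j := 1) (by omega) (by omega) (by omega) (by omega) (by omega) (by omega) (by omega)
    · obtain ⟨rfl, rfl, h⟩ := h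
      exact NW.rm1 hf H.T (p := 1) (j := 1) (by omega) (by omega) (by omega) (by omega) (by omega) (by omega) (by omega)
    · obtain ⟨rfl, rfl, h⟩ := h
      exact NW.rm1 hf H.T (p := 0) (j := 1) (by omega) (by omega) (by omega) (by omega) (by omega) (by omega) (by omega)
    · obtain ⟨rfl, rfl, h⟩ := h
      exact NHT.pmi hf H.T (j := 3) (by omega) (by omega) (by omega) (by omega) (by omega) (by omega)
    · obtain ⟨rfl, rfl, h⟩ := h
      exact NHT.pmi hf H.T (j := 1) (by omega) (by omega) (by omega) (by omega) (by omega) (by omega)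
    · obtain ⟨rfl, rfl, h⟩ := h
      exact H.lw _ _ _ _ (by omega) (by omega) (by omega) (by omega) (by omega) (by omega)
    · obtain ⟨rfl, rfl, h⟩ := h
      exact H.eo _ _ _ _ (by omega) (by omega) (by omega) (by omega) (by omega) (by omega) (by omega)
    · obtain ⟨rfl, rfl, h⟩ := h
      exact NHT.pOut hf H.T (t := 4) (j := 3) (by omega) (by omega) (by omega) (by omega) (by omega) (by omega) (by omega)
    · obtain ⟨rfl, rfl, h⟩ := h
      exact H.lw _ _ _ _ (by omega) (by omega) (by omega) (by omega) (by omega) (by omega)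
    · obtain ⟨rfl, rfl, h⟩ := h
      exact g2 (by omega) (by omega) (by omega) (by omega)

theorem vD2_2_chk : check 8 9 19 19 0 1 1 1 2
    (fun j n p q => decide ((j = 6 ∧ n = 3 ∧ ((p = 11 ∧ ((q = 6) ∨ (q = 8) ∨ (q = 10))) ∨ (p = 13 ∧ ((q = 6) ∨ (q = 8) ∨ (q = 12))) ∨ (p = 15 ∧ q = 12)))
      ∨ (j = 4 ∧ n = 5 ∧ ((p = 9 ∧ q = 8) ∨ (p = 11 ∧ q = 10) ∨ (((p = 13) ∨ (p = 15)) ∧ ((q = 10) ∨ (q = 12)))))
      ∨ (j = 2 ∧ n = 3 ∧ ((p = 7 ∧ ((q = 4) ∨ (q = 6))) ∨ (p = 9 ∧ q = 4) ∨ (p = 11 ∧ ((q = 8) ∨ (q = 10))) ∨ (p = 13 ∧ q = 10)))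
      ∨ (j = 8 ∧ n = 5 ∧ ((p = 13 ∧ ((q = 8) ∨ (q = 10) ∨ (q = 12))) ∨ (p = 15 ∧ ((q = 12) ∨ (q = 14)))))
      ∨ (j = 4 ∧ n = 6 ∧ ((p = 10 ∧ q = 10) ∨ (p = 12 ∧ q = 12)))
      ∨ (j = 2 ∧ n = 4 ∧ ((p = 6 ∧ q = 6) ∨ (p = 10 ∧ q = 10)))
      ∨ (j = 2 ∧ n = 1 ∧ (((p = 6) ∨ (p = 8)) ∧ q = 1))
      ∨ (j = 6 ∧ n = 4 ∧ (p = 10 ∧ q = 10))
      ∨ (j = 8 ∧ n = 6 ∧ (p = 14 ∧ q = 14))
      ∨ (j = 4 ∧ n = 3 ∧ (p = 8 ∧ q = 3))
      ∨ (j = 2 ∧ n = 5 ∧ (p = 8 ∧ q = 1))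
      ∨ (j = 6 ∧ n = 5 ∧ (p = 12 ∧ q = 5))))
    (fun j n p q => decide ((j = 3 ∧ n = 6 ∧ ((14 ≤ p ∧ p ≤ 15 ∧ q = 10) ∨ (16 ≤ p ∧ p ≤ 17 ∧ 10 ≤ q ∧ q ≤ 11)))
      ∨ (j = 2 ∧ n = 6 ∧ ((p = 14 ∧ q = 10) ∨ (16 ≤ p ∧ p ≤ 17 ∧ 10 ≤ q ∧ q ≤ 11)))
      ∨ (j = 1 ∧ n = 7 ∧ (10 ≤ p ∧ p ≤ 11 ∧ 9 ≤ q ∧ q ≤ 10))
      ∨ (j = 7 ∧ n = 7 ∧ ((p = 14 ∧ q = 12) ∨ (p = 15 ∧ 12 ≤ q ∧ q ≤ 13)))
      ∨ (j = 3 ∧ n = 7 ∧ ((p = 15 ∧ q = 10) ∨ (p = 17 ∧ 10 ≤ q ∧ q ≤ 11)))
      ∨ (j = 1 ∧ n = 6 ∧ ((p = 10 ∧ 9 ≤ q ∧ q ≤ 10) ∨ (p = 11 ∧ q = 9)))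
      ∨ (j = 7 ∧ n = 6 ∧ (14 ≤ p ∧ p ≤ 15 ∧ q = 12))
      ∨ (j = 6 ∧ n = 6 ∧ (14 ≤ p ∧ p ≤ 15 ∧ q = 12))
      ∨ (j = 3 ∧ n = 4 ∧ (p = 9 ∧ 2 ≤ q ∧ q ≤ 3))
      ∨ (j = 2 ∧ n = 4 ∧ (p = 9 ∧ 2 ≤ q ∧ q ≤ 3))
      ∨ (j = 3 ∧ n = 5 ∧ (p = 9 ∧ ((q = 3) ∨ (q = 5))))
      ∨ (j = 3 ∧ n = 5 ∧ (p = 8 ∧ ((q = 3) ∨ (q = 5))))
      ∨ (j = 3 ∧ n = 7 ∧ (p = 15 ∧ q = 11))
      ∨ (j = 3 ∧ n = 7 ∧ (p = 13 ∧ q = 10))
      ∨ (j = 2 ∧ n = 7 ∧ (p = 17 ∧ q = 10))))
    372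
    0x171a83118000188d62171a83117680117684122100187a4a17b283114700115900120532120e2a120f0012180012180e121804170783116d00116d0411528e186a03115280115284185e0e0b0105115a00120e6217b2c2187000185e00185e0e185e0417078311638011638411518e16f50311518011518411510e16f50311510011510412070e186a0312070012070417b48e16ff8317b48017b48410b80e17070310b80010b80417b40e16ff8317b40017b40417aa0e16f50317aa0017aa0417b38e16fe8317b38017b38417a98e16f50317a98017a98418688e25230318688018688418680e25230318680018680412058e12050312058012058425348e31f00325348025348425350e31f0032535002535042ad10e3075032ad1002ad10418678e17b28318708018678018678e186784114600179ec2108700107e0016dfc216d6c2108600106b0016e85216c44a10850010580016e75216b14a0fa38e1547830fa3800fa38416288e1574831628801628840f9a0e1547830f9a000f9a0415fc0e15478315fc0015fc04308703313b80313b842518832519002519042ad0003128c22a08002a11003060c23069c229f5002a1000304e4a30725229e2002a0f00303b4a36d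70036c40036c30036b000369d0029cf0028aa0028a900288300287000289500288200307152286f001d62001d4f001d61001d4e001d4d001d39001ba0001045000f34000f33000f20000ef9000f0b000ef8000d73000d7200378b0036e00036e00e36df0036df0e36cc0036cc0e36cb0036cb0e36ca0036ca0e2a0e002a0e0e29490028c50028c50e28b20028b20e28b00028b00e28af0028af0e289e00289e0e289d00289d0e289c00289c0e1e15001e01001d7d001d7d0e1d7c001d7c0e1d6a001d6a0e1d69001d690e1d56001d560e1d42001d420e1bcd001bcd0e18a00e189f8e17eb8e17eb0e17e20e17e18e16e80e16e70e16de8e16dd8e16328e16320e12470e11930e11928e11898e11890e10840010840e0fe7000fda0e0fd98e0fbf000f4f000f4f0e0f3c000f3c0e0f3b000f3b0e0f26000f260e0f14000f140e0f13000f130e0db2000db20e0d9f000d9f0e0bb58e0bb50e0bab8e0b008e0af70e378b0f36e00f36df0f36cc0f36cb0f36ca0f31f00731ef8731e607313b073131872b97872ae2872ad9072a2e872a1c872a1b872a19872a18872a0e0f2a078729f58729e28729490f28c50f28b20f28b00f28af0f289e0f289d0f289c0f1ec0871ebf871e150f1e010f1d7d0f1d7c0f1d6a0f1d690f1d560f1d420f1bcd0f18a007189f87188d07188c8718798717eb8717eb0717e20717e18717d80717ce8716e80716e70716de8716dd87163287163207124707123487122187121187120d8711fb8711930711928711898711890711760710b88710a68710a58710a487109287109187108f87108e8710840f107d87106b871058870fe70f0fda070fd9870fbf0f0f4f0f0f3c0f0f3b0f0f260f0f140f0f130f0f12870eee870db20f0d9f0f0bb5870bb5070bac070bab870b00870af7870af707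 = true := by
  decide +kernel

theorem vD2_2 (hf : Rule f) {k c n : ℕ} (H : LI f k c n)
    (g1 : ∀ {M R x y : ℕ}, M = 6 * k + 0 → R + 2 = c → x + 5 = 2 * n → y + 12 = 2 * n → f M R x y)
    (g2 : ∀ {M R x y : ℕ}, M = 6 * k + 0 → R = c → x = 2 * n + 4 → y + 3 = 2 * n → ¬ f M R x y)
    (g3 : ∀ {M R x y : ℕ}, M = 6 * k + 4 → R + 2 = c → x + 1 = 2 * n → y + 8 = 2 * n → f M R x y) : False := by
  have hk := H.T.hk
  have hc := H.T.hc
  have h4 := H.T.h4
  have hb := H.T.hb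
  have hN := H.T.hN2
  obtain ⟨a0, ha0⟩ : ∃ z, z + 2 = 6 * k := ⟨6 * k - 2, by omega⟩
  obtain ⟨b0, hb0⟩ : ∃ z, z + 7 = c := ⟨c - 7, by omega⟩
  obtain ⟨x0, hx0⟩ : ∃ z, z + 13 = 2 * n := ⟨2 * n - 13, by omega⟩
  obtain ⟨y0, hy0⟩ : ∃ z, z + 13 = 2 * n := ⟨2 * n - 13, by omega⟩
  refine check_sound hf (a0 := a0) (b0 := b0) (x0 := x0) (y0 := y0) vD2_2_chk
    ⟨fun _ => by omega, fun h => absurd h (by decide), fun h => absurd h (by decide), by omega, by omega,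
      by omega, by omega⟩ ?_ ?_
  · intro j m p q hr h
    obtain ⟨-, -, -, -, hp1, hp2, hq1, hq2⟩ := hr
    replace h := of_decide_eq_true h
    rcases h with h | h | h | h | h | h | h | h | h | h | h | h
    · obtain ⟨rfl, rfl, h⟩ := h
      exact (WrapC.v2 H.b4 (by omega) (by omega) (by omega) (by omega) (by omega) (by omega) (by omega)).mpr (by omega)
    · obtain ⟨rfl, rfl, h⟩ := h
      exact (WrapC.v2 H.a2 (by omega) (by omega) (by omega) (by omega) (by omega) (by omega) (by omega)).mpr (by omega)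
    · obtain ⟨rfl, rfl, h⟩ := h
      exact (WrapC.v2 H.a0 (by omega) (by omega) (by omega) (by omega) (by omega) (by omega) (by omega)).mpr (by omega)
    · obtain ⟨rfl, rfl, h⟩ := h
      exact (WrapC.v2 H.a6 (by omega) (by omega) (by omega) (by omega) (by omega) (by omega) (by omega)).mpr (by omega)
    · obtain ⟨rfl, rfl, h⟩ := h
      exact (WrapC.v3 H.a2 (by omega) (by omega) (by omega) (by omega) (by omega) (by omega) (by omega) (by omega)).mpr (by omega)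
    · obtain ⟨rfl, rfl, h⟩ := h
      exact (WrapC.v3 H.a0 (by omega) (by omega) (by omega) (by omega) (by omega) (by omega) (by omega) (by omega)).mpr (by omega)
    · obtain ⟨rfl, rfl, h⟩ := h
      exact (WrapC.v0 H.a0 (by omega) (by omega) (by omega) (by omega) (by omega) (by omega) (by omega)).mpr (by omega)
    · obtain ⟨rfl, rfl, h⟩ := h
      exact (WrapC.v3 H.b4 (by omega) (by omega) (by omega) (by omega) (by omega) (by omega) (by omega) (by omega)).mpr (by omega)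
    · obtain ⟨rfl, rfl, h⟩ := h
      exact (WrapC.v3 H.a6 (by omega) (by omega) (by omega) (by omega) (by omega) (by omega) (by omega) (by omega)).mpr (by omega)
    · obtain ⟨rfl, rfl, h⟩ := h
      exact (WrapC.v0 H.a2 (by omega) (by omega) (by omega) (by omega) (by omega) (by omega) (by omega)).mpr (by omega)
    · obtain ⟨rfl, rfl, h⟩ := h
      exact g1 (by omega) (by omega) (by omega) (by omega)
    · obtain ⟨rfl, rfl, h⟩ := h
      exact g3 (by omega) (by omega) (by omega) (by omega)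
  · intro j m p q hr h
    obtain ⟨-, -, -, -, hp1, hp2, hq1, hq2⟩ := hr
    replace h := of_decide_eq_true h
    rcases h with h | h | h | h | h | h | h | h | h | h | h | h | h | h | h
    · obtain ⟨rfl, rfl, h⟩ := h
      exact NW.rm1 hf H.T (p := 1) (j := 3) (by omega) (by omega) (by omega) (by omega) (by omega) (by omega) (by omega)
    · obtain ⟨rfl, rfl, h⟩ := h
      exact NW.rm1 hf H.T (p := 0) (j := 3) (by omega) (by omega) (by omega) (by omega) (by omega) (by omega) (by omega)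
    · obtain ⟨rfl, rfl, h⟩ := h
      exact H.lw _ _ _ _ (by omega) (by omega) (by omega) (by omega) (by omega) (by omega)
    · obtain ⟨rfl, rfl, h⟩ := h
      exact NHT.pOut hf H.T (t := 4) (j := 1) (by omega) (by omega) (by omega) (by omega) (by omega) (by omega) (by omega)
    · obtain ⟨rfl, rfl, h⟩ := h
      exact NHT.p0i hf H.T (j := 4) (by omega) (by omega) (by omega) (by omega) (by omega) (by omega)
    · obtain ⟨rfl, rfl, h⟩ := h
      exact H.lw _ _ _ _ (by omega) (by omega) (by omega) (by omega) (by omega) (by omega)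
    · obtain ⟨rfl, rfl, h⟩ := h
      exact NW.rm1 hf H.T (p := 1) (j := 1) (by omega) (by omega) (by omega) (by omega) (by omega) (by omega) (by omega)
    · obtain ⟨rfl, rfl, h⟩ := h
      exact NW.rm1 hf H.T (p := 0) (j := 1) (by omega) (by omega) (by omega) (by omega) (by omega) (by omega) (by omega)
    · obtain ⟨rfl, rfl, h⟩ := h
      exact NHT.rIn hf H.T (t := 3) (p := 1) (j := 3) (by omega) (by omega) (by omega) (by omega) (by omega) (by omega) (by omega) (by omega)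
    · obtain ⟨rfl, rfl, h⟩ := h
      exact NHT.rIn hf H.T (t := 3) (p := 0) (j := 3) (by omega) (by omega) (by omega) (by omega) (by omega) (by omega) (by omega) (by omega)
    · obtain ⟨rfl, rfl, h⟩ := h
      exact NHT.pmi hf H.T (j := 3) (by omega) (by omega) (by omega) (by omega) (by omega) (by omega)
    · obtain ⟨rfl, rfl, h⟩ := h
      exact H.eo _ _ _ _ (by omega) (by omega) (by omega) (by omega) (by omega) (by omega) (by omega)
    · obtain ⟨rfl, rfl, h⟩ := h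
      exact NHT.pOut hf H.T (t := 4) (j := 3) (by omega) (by omega) (by omega) (by omega) (by omega) (by omega) (by omega)
    · obtain ⟨rfl, rfl, h⟩ := h
      exact H.eo _ _ _ _ (by omega) (by omega) (by omega) (by omega) (by omega) (by omega) (by omega)
    · obtain ⟨rfl, rfl, h⟩ := h
      exact g2 (by omega) (by omega) (by omega) (by omega)

end Pool.Agent.SNT.LRI
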