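import Pool.Agent.SNT.Loc

set_option autoImplicit false
set_option synthInstance.maxSize 1000

/-! Local certificates of the wide leaders: the diagonal turn, the line of the OUT row and the
edge. -/

namespace Pool.Agent.SNT.LW

open Loc

theorem dg2a_chk : check 3 7 9 9 1 1 1 1 2
    (fun j n p q => decide ((j = 1 ∧ n = 1 ∧ p = 2 ∧ q = 1) ∨ (j = 1 ∧ n = 1 ∧ p = 4 ∧ q = 1) ∨ (j = 3 ∧ n = 1 ∧ p = 3 ∧ q = 2) ∨ (j = 1 ∧ n = 3 ∧ p = 3 ∧ q = 2) ∨ (j = 1 ∧ n = 4 ∧ p = 4 ∧ q = 4) ∨ (j = 3 ∧ n = 2 ∧ p = 4 ∧ q = 4) ∨ (j = 1 ∧ n = 3 ∧ p = 5 ∧ q = 2) ∨ (j = 3 ∧ n = 3 ∧ p = 6 ∧ q = 3) ∨ (j = 3 ∧ n = 5 ∧ p = 7 ∧ q = 6)))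
    (fun j n p q => decide ((j = 3 ∧ n = 2 ∧ p = 4 ∧ q = 2) ∨ (j = 3 ∧ n = 3 ∧ p = 4 ∧ q = 3)))
    47
    0x3df83040c80040380040d0a04089a04040e03db83040400040404040d80017b80043b3a043b80038580019f80014a80029742014980043f80043f8e03df8e03b78003b68e03898003898e01d18001ac8001a38001a38e01568001568e014d80014d8e043f8f04360703e40703df8703db0703b78f03b68703898f01d18f01ac8f01a38f01568f015307014d8f = true := by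
  decide +kernel

theorem dg2a {f : ℕ → ℕ → ℕ → ℕ → Prop} (hf : Rule f) {a0 b0 x0 y0 : ℕ} (hxy : x0 = y0)
    (ha : a0 % 2 = 1) (hb : b0 % 2 = 1) (hx : x0 % 2 = 1) (hy : y0 % 2 = 1)
    (h1 : ∀ j n p q : ℕ, InR 3 7 9 9 1 j n p q →
      ((j = 1 ∧ n = 1 ∧ p = 2 ∧ q = 1) ∨ (j = 1 ∧ n = 1 ∧ p = 4 ∧ q = 1) ∨ (j = 3 ∧ n = 1 ∧ p = 3 ∧ q = 2) ∨ (j = 1 ∧ n = 3 ∧ p = 3 ∧ q = 2) ∨ (j = 1 ∧ n = 4 ∧ p = 4 ∧ q = 4) ∨ (j = 3 ∧ n = 2 ∧ p = 4 ∧ q = 4) ∨ (j = 1 ∧ n = 3 ∧ p = 5 ∧ q = 2) ∨ (j = 3 ∧ n = 3 ∧ p = 6 ∧ q = 3) ∨ (j = 3 ∧ n = 5 ∧ p = 7 ∧ q = 6)) →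
      f (a0 + j) (b0 + n) (x0 + p) (y0 + q))
    (h0 : ∀ j n p q : ℕ, InR 3 7 9 9 1 j n p q →
      ((j = 3 ∧ n = 2 ∧ p = 4 ∧ q = 2) ∨ (j = 3 ∧ n = 3 ∧ p = 4 ∧ q = 3)) →
      ¬ f (a0 + j) (b0 + n) (x0 + p) (y0 + q)) : False :=
  check_sound hf dg2a_chk
    ⟨fun _ => hxy, fun h => absurd h (by decide),
      fun h => absurd h (by decide), ha, hb, hx, hy⟩
    (fun j n p q hr h => h1 j n p q hr (of_decide_eq_true h))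
    (fun j n p q hr h => h0 j n p q hr (of_decide_eq_true h))

theorem dg2b_chk : check 3 7 11 11 1 1 1 1 2
    (fun j n p q => decide ((j = 1 ∧ n = 1 ∧ p = 2 ∧ q = 1) ∨ (j = 1 ∧ n = 1 ∧ p = 4 ∧ q = 1) ∨ (j = 3 ∧ n = 1 ∧ p = 3 ∧ q = 2) ∨ (j = 1 ∧ n = 3 ∧ p = 3 ∧ q = 2) ∨ (j = 1 ∧ n = 4 ∧ p = 4 ∧ q = 4) ∨ (j = 3 ∧ n = 2 ∧ p = 4 ∧ q = 4) ∨ (j = 1 ∧ n = 3 ∧ p = 5 ∧ q = 2) ∨ (j = 3 ∧ n = 3 ∧ p = 6 ∧ q = 3) ∨ (j = 1 ∧ n = 4 ∧ p = 6 ∧ q = 6) ∨ (j = 3 ∧ n = 4 ∧ p = 7 ∧ q = 7) ∨ (j = 1 ∧ n = 3 ∧ p = 7 ∧ q = 4) ∨ (j = 3 ∧ n = 5 ∧ p = 9 ∧ q = 6)))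
    (fun j n p q => decide ((j = 3 ∧ n = 2 ∧ p = 4 ∧ q = 2) ∨ (j = 1 ∧ n = 4 ∧ p = 5 ∧ q = 4) ∨ (j = 3 ∧ n = 4 ∧ p = 7 ∧ q = 5) ∨ (j = 3 ∧ n = 3 ∧ p = 4 ∧ q = 3)))
    63
    0x5c38306058005fa8006060a06009a06000e05c38306000006000406068006493a064e80064980065412064a0a049c8e049c03049c80049c84023280064a8002768002698003da4201ea8006598006598e06128006118e05c38e05878005448002bd8002b18002858002858e027980026e80026e8e01fa8001ef8001ef8e06598f064e0706440706430706128f06118705c90705c38705be0705878f05868705448f02f40702bd8f02b18f02858f02798f026e8f01fa8f01f60701ef8f = true := by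
  decide +kernel

theorem dg2b {f : ℕ → ℕ → ℕ → ℕ → Prop} (hf : Rule f) {a0 b0 x0 y0 : ℕ} (hxy : x0 = y0)
    (ha : a0 % 2 = 1) (hb : b0 % 2 = 1) (hx : x0 % 2 = 1) (hy : y0 % 2 = 1)
    (h1 : ∀ j n p q : ℕ, InR 3 7 11 11 1 j n p q →
      ((j = 1 ∧ n = 1 ∧ p = 2 ∧ q = 1) ∨ (j = 1 ∧ n = 1 ∧ p = 4 ∧ q = 1) ∨ (j = 3 ∧ n = 1 ∧ p = 3 ∧ q = 2) ∨ (j = 1 ∧ n = 3 ∧ p = 3 ∧ q = 2) ∨ (j = 1 ∧ n = 4 ∧ p = 4 ∧ q = 4) ∨ (j = 3 ∧ n = 2 ∧ p = 4 ∧ q = 4) ∨ (j = 1 ∧ n = 3 ∧ p = 5 ∧ q = 2) ∨ (j = 3 ∧ n = 3 ∧ p = 6 ∧ q = 3) ∨ (j = 1 ∧ n = 4 ∧ p = 6 ∧ q = 6) ∨ (j = 3 ∧ n = 4 ∧ p = 7 ∧ q = 7) ∨ (j = 1 ∧ n = 3 ∧ p = 7 ∧ q = 4) ∨ (j = 3 ∧ n = 5 ∧ p = 9 ∧ q = 6)) →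
      f (a0 + j) (b0 + n) (x0 + p) (y0 + q))
    (h0 : ∀ j n p q : ℕ, InR 3 7 11 11 1 j n p q →
      ((j = 3 ∧ n = 2 ∧ p = 4 ∧ q = 2) ∨ (j = 1 ∧ n = 4 ∧ p = 5 ∧ q = 4) ∨ (j = 3 ∧ n = 4 ∧ p = 7 ∧ q = 5) ∨ (j = 3 ∧ n = 3 ∧ p = 4 ∧ q = 3)) →
      ¬ f (a0 + j) (b0 + n) (x0 + p) (y0 + q)) : False :=
  check_sound hf dg2b_chk
    ⟨fun _ => hxy, fun h => absurd h (by decide),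
      fun h => absurd h (by decide), ha, hb, hx, hy⟩
    (fun j n p q hr h => h1 j n p q hr (of_decide_eq_true h))
    (fun j n p q hr h => h0 j n p q hr (of_decide_eq_true h))

theorem dg2c_chk : check 3 7 13 13 1 1 1 1 2
    (fun j n p q => decide (((j = 1 ∧ n = 1 ∧ p = 2 ∧ q = 1) ∨ (j = 3 ∧ n = 5 ∧ p = 11 ∧ q = 8) ∨ (j = 1 ∧ n = 1 ∧ p = 4 ∧ q = 1) ∨ (j = 3 ∧ n = 1 ∧ p = 3 ∧ q = 2) ∨ (j = 1 ∧ n = 3 ∧ p = 3 ∧ q = 2) ∨ (j = 1 ∧ n = 4 ∧ p = 4 ∧ q = 4)) ∨ ((j = 3 ∧ n = 2 ∧ p = 4 ∧ q = 4) ∨ (j = 3 ∧ n = 5 ∧ p = 9 ∧ q = 8) ∨ (j = 1 ∧ n = 3 ∧ p = 5 ∧ q = 2) ∨ (j = 3 ∧ n = 3 ∧ p = 6 ∧ q = 3) ∨ (j = 3 ∧ n = 3 ∧ p = 8 ∧ q = 5) ∨ (j = 1 ∧ n = 4 ∧ p = 6 ∧ q = 6)) ∨ ((j = 3 ∧ n = 4 ∧ p = 7 ∧ q = 7) ∨ (j = 1 ∧ n = 1 ∧ p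 = 8 ∧ q = 5) ∨ (j = 1 ∧ n = 3 ∧ p = 7 ∧ q = 4) ∨ (j = 3 ∧ n = 5 ∧ p = 11 ∧ q = 6))))
    (fun j n p q => decide ((j = 3 ∧ n = 2 ∧ p = 4 ∧ q = 2) ∨ (j = 3 ∧ n = 4 ∧ p = 9 ∧ q = 6) ∨ (j = 1 ∧ n = 4 ∧ p = 5 ∧ q = 4) ∨ (j = 1 ∧ n = 2 ∧ p = 8 ∧ q = 5) ∨ (j = 3 ∧ n = 4 ∧ p = 7 ∧ q = 5) ∨ (j = 3 ∧ n = 3 ∧ p = 4 ∧ q = 3)))
    99
    0x8078308628008558008630a085c9a085c0e080783085c00085c0408638008bf3a08bf8008c58008c00a08cc1206758e066f0306758006758408c08008d28008c79a08d99a06830e066f03067580067c9a068300068304062e8e05da03062e80062e84030d8008ce8008c18008cd80081080036a80035b80055d4202ab8008e08008e08e08df8008df8e08d38008d38e087e0e08718008708e08228008228e08078e07b38007578003cb8003bd80037c80037c8e036e8003618003618e02da8002be8002b18002b18e08e08f08df8f08d38f08d30708c70708c50708b90708b807087e0708718f08708708228f080e0708078708010707b38f07b28707578f04260704190703cb8f03c40703bd8f038a07037c8f036e8f03618f032f0702da8f02be8f02b90702b18f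 = true := by
  decide +kernel

theorem dg2c {f : ℕ → ℕ → ℕ → ℕ → Prop} (hf : Rule f) {a0 b0 x0 y0 : ℕ} (hxy : x0 = y0)
    (ha : a0 % 2 = 1) (hb : b0 % 2 = 1) (hx : x0 % 2 = 1) (hy : y0 % 2 = 1)
    (h1 : ∀ j n p q : ℕ, InR 3 7 13 13 1 j n p q →
      (((j = 1 ∧ n = 1 ∧ p = 2 ∧ q = 1) ∨ (j = 3 ∧ n = 5 ∧ p = 11 ∧ q = 8) ∨ (j = 1 ∧ n = 1 ∧ p = 4 ∧ q = 1) ∨ (j = 3 ∧ n = 1 ∧ p = 3 ∧ q = 2) ∨ (j = 1 ∧ n = 3 ∧ p = 3 ∧ q = 2) ∨ (j = 1 ∧ n = 4 ∧ p = 4 ∧ q = 4)) ∨ ((j = 3 ∧ n = 2 ∧ p = 4 ∧ q = 4) ∨ (j = 3 ∧ n = 5 ∧ p = 9 ∧ q = 8) ∨ (j = 1 ∧ n = 3 ∧ p = 5 ∧ q = 2) ∨ (j = 3 ∧ n = 3 ∧ p = 6 ∧ q = 3) ∨ (j = 3 ∧ n = 3 ∧ p = 8 ∧ q = 5) ∨ (j = 1 ∧ n = 4 ∧ p = 6 ∧ q = 6)) ∨ ((j = 3 ∧ n = 4 ∧ p = 7 ∧ q = 7) ∨ (j = 1 ∧ n = 1 ∧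 p = 8 ∧ q = 5) ∨ (j = 1 ∧ n = 3 ∧ p = 7 ∧ q = 4) ∨ (j = 3 ∧ n = 5 ∧ p = 11 ∧ q = 6))) →
      f (a0 + j) (b0 + n) (x0 + p) (y0 + q))
    (h0 : ∀ j n p q : ℕ, InR 3 7 13 13 1 j n p q →
      ((j = 3 ∧ n = 2 ∧ p = 4 ∧ q = 2) ∨ (j = 3 ∧ n = 4 ∧ p = 9 ∧ q = 6) ∨ (j = 1 ∧ n = 4 ∧ p = 5 ∧ q = 4) ∨ (j = 1 ∧ n = 2 ∧ p = 8 ∧ q = 5) ∨ (j = 3 ∧ n = 4 ∧ p = 7 ∧ q = 5) ∨ (j = 3 ∧ n = 3 ∧ p = 4 ∧ q = 3)) →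
      ¬ f (a0 + j) (b0 + n) (x0 + p) (y0 + q)) : False :=
  check_sound hf dg2c_chk
    ⟨fun _ => hxy, fun h => absurd h (by decide),
      fun h => absurd h (by decide), ha, hb, hx, hy⟩
    (fun j n p q hr h => h1 j n p q hr (of_decide_eq_true h))
    (fun j n p q hr h => h0 j n p q hr (of_decide_eq_true h))

theorem edgel_chk : check 3 6 9 10 1 0 1 0 0
    (fun j n p q => decide (((j = 3 ∧ n = 4 ∧ p = 6 ∧ q = 8) ∨ (j = 1 ∧ n = 4 ∧ p = 6 ∧ q = 6) ∨ (j = 3 ∧ n = 2 ∧ p = 7 ∧ q = 3) ∨ (j = 1 ∧ n = 3 ∧ p = 5 ∧ q = 4) ∨ (j = 3 ∧ n = 2 ∧ p = 5 ∧ q = 1) ∨ (j = 1 ∧ n = 2 ∧ p = 5 ∧ q = 1)) ∨ ((j = 1 ∧ n = 1 ∧ p = 1 ∧ q = 2) ∨ (j = 1 ∧ n = 2 ∧ p = 5 ∧ q = 5) ∨ (j = 3 ∧ n = 2 ∧ p = 5 ∧ q = 5) ∨ (j = 1 ∧ n = 3 ∧ p = 4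 ∧ q = 5) ∨ (j = 3 ∧ n = 1 ∧ p = 2 ∧ q = 1) ∨ (j = 3 ∧ n = 2 ∧ p = 4 ∧ q = 2)) ∨ ((j = 3 ∧ n = 1 ∧ p = 4 ∧ q = 3) ∨ (j = 1 ∧ n = 1 ∧ p = 4 ∧ q = 3) ∨ (j = 1 ∧ n = 2 ∧ p = 3 ∧ q = 3))))
    (fun j n p q => decide ((j = 3 ∧ n = 3 ∧ p = 5 ∧ q = 6) ∨ (j = 3 ∧ n = 1 ∧ p = 2 ∧ q = 2) ∨ (j = 3 ∧ n = 1 ∧ p = 2 ∧ q = 3) ∨ (j = 3 ∧ n = 2 ∧ p = 3 ∧ q = 3)))
    51
    0x3d08303fe0003fe8a03d08303d10003d10403c70003c70103ff00038f8003ff8a03949204000003a880039f80039d80039900036c8003618001e30001b00001ab8001838001818001788001508001410004000f03fa0703f90703cd0703a88f039f8f039e07039d8f03990f039507039487039407036c8f03628703620703618f01e30f01b00f01ab8f01838f01818f01788f01508f01410f = true := by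
  decide +kernel

theorem edgel {f : ℕ → ℕ → ℕ → ℕ → Prop} (hf : Rule f) {a0 b0 x0 y0 : ℕ}
    (ha : a0 % 2 = 1) (hb : b0 % 2 = 0) (hx : x0 % 2 = 1) (hy : y0 % 2 = 0)
    (h1 : ∀ j n p q : ℕ, InR 3 6 9 10 1 j n p q →
      (((j = 3 ∧ n = 4 ∧ p = 6 ∧ q = 8) ∨ (j = 1 ∧ n = 4 ∧ p = 6 ∧ q = 6) ∨ (j = 3 ∧ n = 2 ∧ p = 7 ∧ q = 3) ∨ (j = 1 ∧ n = 3 ∧ p = 5 ∧ q = 4) ∨ (j = 3 ∧ n = 2 ∧ p = 5 ∧ q = 1) ∨ (j = 1 ∧ n = 2 ∧ p = 5 ∧ q = 1)) ∨ ((j = 1 ∧ n = 1 ∧ p = 1 ∧ q = 2) ∨ (j = 1 ∧ n = 2 ∧ p = 5 ∧ q = 5) ∨ (j = 3 ∧ n = 2 ∧ p = 5 ∧ q = 5) ∨ (j = 1 ∧ n = 3 ∧ p = 4 ∧ q = 5) ∨ (j = 3 ∧ n = 1 ∧ p = 2 ∧ q = 1) ∨ (j = 3 ∧ n = 2 ∧ p = 4 ∧ q = 2)) ∨ ((j = 3 ∧ n = 1 ∧ p = 4 ∧ q = 3) ∨ (j = 1 ∧ n = 1 ∧ p = 4 ∧ q = 3) ∨ (j = 1 ∧ n =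 2 ∧ p = 3 ∧ q = 3))) →
      f (a0 + j) (b0 + n) (x0 + p) (y0 + q))
    (h0 : ∀ j n p q : ℕ, InR 3 6 9 10 1 j n p q →
      ((j = 3 ∧ n = 3 ∧ p = 5 ∧ q = 6) ∨ (j = 3 ∧ n = 1 ∧ p = 2 ∧ q = 2) ∨ (j = 3 ∧ n = 1 ∧ p = 2 ∧ q = 3) ∨ (j = 3 ∧ n = 2 ∧ p = 3 ∧ q = 3)) →
      ¬ f (a0 + j) (b0 + n) (x0 + p) (y0 + q)) : False :=
  check_sound hf edgel_chk
    ⟨fun h => absurd h (by decide), fun h => absurd h (by decide),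
      fun h => absurd h (by decide), ha, hb, hx, hy⟩
    (fun j n p q hr h => h1 j n p q hr (of_decide_eq_true h))
    (fun j n p q hr h => h0 j n p q hr (of_decide_eq_true h))

theorem edgeg_chk : check 3 7 9 10 1 1 1 0 0
    (fun j n p q => decide (((j = 3 ∧ n = 5 ∧ p = 6 ∧ q = 8) ∨ (j = 1 ∧ n = 4 ∧ p = 6 ∧ q = 5) ∨ (j = 3 ∧ n = 3 ∧ p = 5 ∧ q = 1) ∨ (j = 1 ∧ n = 5 ∧ p = 6 ∧ q = 4) ∨ (j = 1 ∧ n = 2 ∧ p = 4 ∧ q = 1) ∨ (j = 1 ∧ n = 4 ∧ p = 5 ∧ q = 2)) ∨ ((j = 1 ∧ n = 1 ∧ p = 1 ∧ q = 1) ∨ (j = 1 ∧ n = 3 ∧ p = 4 ∧ q = 6) ∨ (j = 3 ∧ n = 3 ∧ p = 7 ∧ q = 3) ∨ (j = 3 ∧ n = 2 ∧ p = 2 ∧ q = 1) ∨ (j = 1 ∧ n = 3 ∧ p = 2 ∧ q = 4) ∨ (j = 1 ∧ n = 4 ∧ p = 4 ∧ q = 3)) ∨ ((j = 1 ∧ n = 1 ∧ p = 1 ∧ q = 3) ∨ (j = 1 ∧ n = 3 ∧ p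 = 2 ∧ q = 2) ∨ (j = 3 ∧ n = 1 ∧ p = 2 ∧ q = 2) ∨ (j = 1 ∧ n = 3 ∧ p = 5 ∧ q = 3) ∨ (j = 3 ∧ n = 2 ∧ p = 4 ∧ q = 3))))
    (fun j n p q => decide ((j = 3 ∧ n = 4 ∧ p = 6 ∧ q = 6) ∨ (j = 3 ∧ n = 4 ∧ p = 5 ∧ q = 6) ∨ (j = 1 ∧ n = 4 ∧ p = 5 ∧ q = 4) ∨ (j = 1 ∧ n = 4 ∧ p = 4 ∧ q = 4) ∨ (j = 3 ∧ n = 3 ∧ p = 3 ∧ q = 3)))
    63
    0x4b283047f80048492047b0304800004b2ba04848004848404848304850004850404b30004b38a03728303730003730404438004b400045c8004518004489204208004158003e900023c00020f8002090002048001dc8001d90001ce0001cd0001a980016e80016d8004b40f04ae0704ad07048607048107045c8f04520704518f04490704488704480704208f04158f03e90f023c0f023707020f8f020a0702090f02050702048f01dc8f01d90f01ce0f01cd0f01a98f016e8f016d8f = true :=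 by
  decide +kernel

theorem edgeg {f : ℕ → ℕ → ℕ → ℕ → Prop} (hf : Rule f) {a0 b0 x0 y0 : ℕ}
    (ha : a0 % 2 = 1) (hb : b0 % 2 = 1) (hx : x0 % 2 = 1) (hy : y0 % 2 = 0)
    (h1 : ∀ j n p q : ℕ, InR 3 7 9 10 1 j n p q →
      (((j = 3 ∧ n = 5 ∧ p = 6 ∧ q = 8) ∨ (j = 1 ∧ n = 4 ∧ p = 6 ∧ q = 5) ∨ (j = 3 ∧ n = 3 ∧ p = 5 ∧ q = 1) ∨ (j = 1 ∧ n = 5 ∧ p = 6 ∧ q = 4) ∨ (j = 1 ∧ n = 2 ∧ p = 4 ∧ q = 1) ∨ (j = 1 ∧ n = 4 ∧ p = 5 ∧ q = 2)) ∨ ((j = 1 ∧ n = 1 ∧ p = 1 ∧ q = 1) ∨ (j = 1 ∧ n = 3 ∧ p = 4 ∧ q = 6) ∨ (j = 3 ∧ n = 3 ∧ p = 7 ∧ q = 3) ∨ (j = 3 ∧ n = 2 ∧ p = 2 ∧ q = 1) ∨ (j = 1 ∧ n = 3 ∧ p = 2 ∧ q = 4) ∨ (j = 1 ∧ n = 4 ∧ p = 4 ∧ q = 3)) ∨ ((j = 1 ∧ n = 1 ∧ p = 1 ∧ q = 3) ∨ (j = 1 ∧ n = 3 ∧ p = 2 ∧ q = 2) ∨ (j = 3 ∧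 n = 1 ∧ p = 2 ∧ q = 2) ∨ (j = 1 ∧ n = 3 ∧ p = 5 ∧ q = 3) ∨ (j = 3 ∧ n = 2 ∧ p = 4 ∧ q = 3))) →
      f (a0 + j) (b0 + n) (x0 + p) (y0 + q))
    (h0 : ∀ j n p q : ℕ, InR 3 7 9 10 1 j n p q →
      ((j = 3 ∧ n = 4 ∧ p = 6 ∧ q = 6) ∨ (j = 3 ∧ n = 4 ∧ p = 5 ∧ q = 6) ∨ (j = 1 ∧ n = 4 ∧ p = 5 ∧ q = 4) ∨ (j = 1 ∧ n = 4 ∧ p = 4 ∧ q = 4) ∨ (j = 3 ∧ n = 3 ∧ p = 3 ∧ q = 3)) →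
      ¬ f (a0 + j) (b0 + n) (x0 + p) (y0 + q)) : False :=
  check_sound hf edgeg_chk
    ⟨fun h => absurd h (by decide), fun h => absurd h (by decide),
      fun h => absurd h (by decide), ha, hb, hx, hy⟩
    (fun j n p q hr h => h1 j n p q hr (of_decide_eq_true h))
    (fun j n p q hr h => h0 j n p q hr (of_decide_eq_true h))

theorem ex_chk : check 2 4 5 6 0 0 1 1 0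
    (fun j n p q => decide ((j = 2 ∧ n = 2 ∧ p = 1 ∧ q = 4) ∨ (j = 2 ∧ n = 2 ∧ p = 3 ∧ q = 4) ∨ (j = 1 ∧ n = 2 ∧ p = 1 ∧ q = 1)))
    (fun j n p q => decide ((j = 2 ∧ n = 2 ∧ p = 2 ∧ q = 3) ∨ (j = 2 ∧ n = 1 ∧ p = 1 ∧ q = 2) ∨ (j = 2 ∧ n = 1 ∧ p = 1 ∧ q = 3) ∨ (j = 2 ∧ n = 1 ∧ p = 2 ∧ q = 2) ∨ (j = 2 ∧ n = 1 ∧ p = 2 ∧ q = 3) ∨ (j = 1 ∧ n = 1 ∧ p = 1 ∧ q = 2) ∨ (j = 1 ∧ n = 1 ∧ p = 1 ∧ q = 3) ∨ (j = 1 ∧ n = 1 ∧ p = 2 ∧ q = 2) ∨ (j = 1 ∧ n = 1 ∧ p = 2 ∧ q = 3)))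
    18
    0x618500a100009dc2009b00005d8000a10f009d87009b0f009a87008e87008e07008b87008b07005d8f005287005207004f87004f07 = true := by
  decide +kernel

theorem ex {f : ℕ → ℕ → ℕ → ℕ → Prop} (hf : Rule f) {a0 b0 x0 y0 : ℕ}
    (ha : a0 % 2 = 0) (hb : b0 % 2 = 0) (hx : x0 % 2 = 1) (hy : y0 % 2 = 1)
    (h1 : ∀ j n p q : ℕ, InR 2 4 5 6 1 j n p q →
      ((j = 2 ∧ n = 2 ∧ p = 1 ∧ q = 4) ∨ (j = 2 ∧ n = 2 ∧ p = 3 ∧ q = 4) ∨ (j = 1 ∧ n = 2 ∧ p = 1 ∧ q = 1)) →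
      f (a0 + j) (b0 + n) (x0 + p) (y0 + q))
    (h0 : ∀ j n p q : ℕ, InR 2 4 5 6 1 j n p q →
      ((j = 2 ∧ n = 2 ∧ p = 2 ∧ q = 3) ∨ (j = 2 ∧ n = 1 ∧ p = 1 ∧ q = 2) ∨ (j = 2 ∧ n = 1 ∧ p = 1 ∧ q = 3) ∨ (j = 2 ∧ n = 1 ∧ p = 2 ∧ q = 2) ∨ (j = 2 ∧ n = 1 ∧ p = 2 ∧ q = 3) ∨ (j = 1 ∧ n = 1 ∧ p = 1 ∧ q = 2) ∨ (j = 1 ∧ n = 1 ∧ p = 1 ∧ q = 3) ∨ (j = 1 ∧ n = 1 ∧ p = 2 ∧ q = 2) ∨ (j = 1 ∧ n = 1 ∧ p = 2 ∧ q = 3)) →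
      ¬ f (a0 + j) (b0 + n) (x0 + p) (y0 + q)) : False :=
  check_sound hf ex_chk
    ⟨fun h => absurd h (by decide), fun h => absurd h (by decide),
      fun h => absurd h (by decide), ha, hb, hx, hy⟩
    (fun j n p q hr h => h1 j n p q hr (of_decide_eq_true h))
    (fun j n p q hr h => h0 j n p q hr (of_decide_eq_true h))

theorem lint_chk : check 2 4 5 4 0 0 1 1 0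
    (fun j n p q => decide ((j = 2 ∧ n = 2 ∧ p = 3 ∧ q = 2)))
    (fun j n p q => decide ((j = 2 ∧ n = 1 ∧ p = 1 ∧ q = 1) ∨ (j = 2 ∧ n = 1 ∧ p = 1 ∧ q = 2) ∨ (j = 2 ∧ n = 1 ∧ p = 2 ∧ q = 1) ∨ (j = 2 ∧ n = 1 ∧ p = 2 ∧ q = 2) ∨ (j = 1 ∧ n = 1 ∧ p = 1 ∧ q = 1) ∨ (j = 1 ∧ n = 1 ∧ p = 1 ∧ q = 2) ∨ (j = 1 ∧ n = 1 ∧ p = 2 ∧ q = 1) ∨ (j = 1 ∧ n = 1 ∧ p = 2 ∧ q = 2) ∨ (j = 2 ∧ n = 2 ∧ p = 1 ∧ q = 2) ∨ (j = 1 ∧ n = 2 ∧ p = 1 ∧ q = 1) ∨ (j = 1 ∧ n = 2 ∧ p = 1 ∧ q = 2)))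
    15
    0x6903006b00006b0f006707006687005f07005e87005d07005c87003f07003e87003707003687003507003487 = true := by
  decide +kernel

theorem lint {f : ℕ → ℕ → ℕ → ℕ → Prop} (hf : Rule f) {a0 b0 x0 y0 : ℕ}
    (ha : a0 % 2 = 0) (hb : b0 % 2 = 0) (hx : x0 % 2 = 1) (hy : y0 % 2 = 1)
    (h1 : ∀ j n p q : ℕ, InR 2 4 5 4 1 j n p q →
      ((j = 2 ∧ n = 2 ∧ p = 3 ∧ q = 2)) →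
      f (a0 + j) (b0 + n) (x0 + p) (y0 + q))
    (h0 : ∀ j n p q : ℕ, InR 2 4 5 4 1 j n p q →
      ((j = 2 ∧ n = 1 ∧ p = 1 ∧ q = 1) ∨ (j = 2 ∧ n = 1 ∧ p = 1 ∧ q = 2) ∨ (j = 2 ∧ n = 1 ∧ p = 2 ∧ q = 1) ∨ (j = 2 ∧ n = 1 ∧ p = 2 ∧ q = 2) ∨ (j = 1 ∧ n = 1 ∧ p = 1 ∧ q = 1) ∨ (j = 1 ∧ n = 1 ∧ p = 1 ∧ q = 2) ∨ (j = 1 ∧ n = 1 ∧ p = 2 ∧ q = 1) ∨ (j = 1 ∧ n = 1 ∧ p = 2 ∧ q = 2) ∨ (j = 2 ∧ n = 2 ∧ p = 1 ∧ q = 2) ∨ (j = 1 ∧ n = 2 ∧ p = 1 ∧ q = 1) ∨ (j = 1 ∧ n = 2 ∧ p = 1 ∧ q = 2)) →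
      ¬ f (a0 + j) (b0 + n) (x0 + p) (y0 + q)) : False :=
  check_sound hf lint_chk
    ⟨fun h => absurd h (by decide), fun h => absurd h (by decide),
      fun h => absurd h (by decide), ha, hb, hx, hy⟩
    (fun j n p q hr h => h1 j n p q hr (of_decide_eq_true h))
    (fun j n p q hr h => h0 j n p q hr (of_decide_eq_true h))

theorem linm_chk : check 3 4 5 4 1 0 1 0 0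
    (fun j n p q => decide ((j = 3 ∧ n = 2 ∧ p = 2 ∧ q = 2) ∨ (j = 1 ∧ n = 2 ∧ p = 3 ∧ q = 1)))
    (fun j n p q => decide ((j = 1 ∧ n = 2 ∧ p = 2 ∧ q = 2) ∨ (j = 2 ∧ n = 1 ∧ p = 1 ∧ q = 1) ∨ (j = 2 ∧ n = 1 ∧ p = 1 ∧ q = 2) ∨ (j = 2 ∧ n = 1 ∧ p = 2 ∧ q = 1) ∨ (j = 2 ∧ n = 1 ∧ p = 2 ∧ q = 2) ∨ (j = 1 ∧ n = 1 ∧ p = 1 ∧ q = 1) ∨ (j = 1 ∧ n = 1 ∧ p = 1 ∧ q = 2) ∨ (j = 1 ∧ n = 1 ∧ p = 2 ∧ q = 1) ∨ (j = 1 ∧ n = 1 ∧ p = 2 ∧ q = 2) ∨ (j = 1 ∧ n = 2 ∧ p = 1 ∧ q = 1)))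
    16
    0x690300910000428000910f005f07005e87005d07005c8700428f004107003f07003e87003707003687003507003487 = true := by
  decide +kernel

theorem linm {f : ℕ → ℕ → ℕ → ℕ → Prop} (hf : Rule f) {a0 b0 x0 y0 : ℕ}
    (ha : a0 % 2 = 1) (hb : b0 % 2 = 0) (hx : x0 % 2 = 1) (hy : y0 % 2 = 0)
    (h1 : ∀ j n p q : ℕ, InR 3 4 5 4 1 j n p q →
      ((j = 3 ∧ n = 2 ∧ p = 2 ∧ q = 2) ∨ (j = 1 ∧ n = 2 ∧ p = 3 ∧ q = 1)) →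
      f (a0 + j) (b0 + n) (x0 + p) (y0 + q))
    (h0 : ∀ j n p q : ℕ, InR 3 4 5 4 1 j n p q →
      ((j = 1 ∧ n = 2 ∧ p = 2 ∧ q = 2) ∨ (j = 2 ∧ n = 1 ∧ p = 1 ∧ q = 1) ∨ (j = 2 ∧ n = 1 ∧ p = 1 ∧ q = 2) ∨ (j = 2 ∧ n = 1 ∧ p = 2 ∧ q = 1) ∨ (j = 2 ∧ n = 1 ∧ p = 2 ∧ q = 2) ∨ (j = 1 ∧ n = 1 ∧ p = 1 ∧ q = 1) ∨ (j = 1 ∧ n = 1 ∧ p = 1 ∧ q = 2) ∨ (j = 1 ∧ n = 1 ∧ p = 2 ∧ q = 1) ∨ (j = 1 ∧ n = 1 ∧ p = 2 ∧ q = 2) ∨ (j = 1 ∧ n = 2 ∧ p = 1 ∧ q = 1)) →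
      ¬ f (a0 + j) (b0 + n) (x0 + p) (y0 + q)) : False :=
  check_sound hf linm_chk
    ⟨fun h => absurd h (by decide), fun h => absurd h (by decide),
      fun h => absurd h (by decide), ha, hb, hx, hy⟩
    (fun j n p q hr h => h1 j n p q hr (of_decide_eq_true h))
    (fun j n p q hr h => h0 j n p q hr (of_decide_eq_true h))

end Pool.Agent.SNT.LW
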