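import Pool.Agent.SNT.UpW

set_option autoImplicit false
set_option maxHeartbeats 1000000

/-! The odd layers between two static even layers. -/

namespace Pool.Agent.SNT

variable {f : ℕ → ℕ → ℕ → ℕ → Prop}

/-- The ones of an even layer near the strip. -/
def Zn (a b y D : ℕ) : Prop :=
  (b % 2 = 0 ∧ D % 2 = 1 ∧ ((D + 1 ≤ 2 * (a / 6) ∧ (a + b + 2 * y + 2 * D) % 4 = 0) ∨
      (2 * (a / 6) ≤ D + 1 ∧ (a + b + 2 * y + D) % 4 = (1 + 2 * (a / 6)) % 4))) ∨
    (b % 2 = 1 ∧ D % 2 = 0 ∧ ((2 * (a / 6) ≤ D ∧ (a + b + 2 * y + D) % 4 = (1 + 2 * (a / 6)) % 4) ∨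
      (D = 0 ∧ (a + b + 2 * y) % 4 = 3)))

/-- The static field of an even layer near the strip. -/
theorem Fst_Zn {a b y D : ℕ} (ha : a % 2 = 0) (h6 : 6 ≤ a) (hab : a + 17 ≤ b)
    (hd : D ≤ 2 * (a / 6) + 8) : Fst a b (y + D) y ↔ Zn a b y D := by
  unfold Zn
  rw [Fst_of_le (by omega) (by omega)]
  have e1 : y + D - y = D := by omega
  rw [e1]
  unfold FF
  have h1 : ¬ FF1 a b D ((y + D) % 2) := by
    unfold FF1
    omega
  have h2 : ¬ FF2 a b D ((y + D) % 2) := by
    rintro ⟨g1, g2, g3, g4⟩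
    unfold FU at g3
    rcases g3 with g3 | g3 | g3 | g3 | g3 | g3 <;> omega
  have h4 : ¬ FF4 a b D ((y + D) % 2) := by
    unfold FF4
    omega
  have h5 : FT a (b - a) D := by
    right
    omega
  rw [iff_false_intro h1, iff_false_intro h2, iff_false_intro h4, false_or, false_or, or_false]
  unfold FF3
  simp only [iff_true_intro h5, true_and, and_true]
  constructor
  · rintro (⟨g1, g2, g3, g4, g5, g6⟩ | ⟨g1, g2, g3, g4, g5, g6⟩ | ⟨g1, g2, g3, g4, g6⟩ |
      ⟨g1, g2, g3, g4, g5, g6⟩)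
    · left; refine ⟨g2, g4, Or.inl ⟨g5, by omega⟩⟩
    · left; refine ⟨g2, g4, Or.inr ⟨g5, by omega⟩⟩
    · right; refine ⟨g2, g3, Or.inl ⟨g4, by omega⟩⟩
    · right; refine ⟨g2, by omega, Or.inr ⟨g3, by omega⟩⟩
  · rintro (⟨g1, g2, ⟨g3, g4⟩ | ⟨g3, g4⟩⟩ | ⟨g1, g2, ⟨g3, g4⟩ | ⟨g3, g4⟩⟩)
    · left; exact ⟨ha, g1, Or.inl (by omega), g2, g3, by omega⟩
    · right; left; exact ⟨ha, g1, Or.inl (by omega), g2, g3, by omega⟩
    · right; right; left; exact ⟨ha, g1, g2, g3, by omega⟩
    · right; right; right; exact ⟨ha, g1, g3, h6, by omega, Or.inl (by omega)⟩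

/-- The static field of an odd layer near the strip is zero. -/
theorem Fst_odd_zero {a b x y : ℕ} (ha : a % 2 = 1) (hab : a + 17 ≤ b) (hyx : y ≤ x)
    (hd : x ≤ y + 2 * (a / 6) + 8) : ¬ Fst a b x y := by
  rw [Fst_of_le (by omega) hyx]
  rintro (h | h | h | h)
  · unfold FF1 at h
    omega
  · obtain ⟨g1, g2, g3, g4⟩ := h
    unfold FU at g3
    rcases g3 with g3 | g3 | g3 | g3 | g3 | g3 <;> omega
  · unfold FF3 at h
    omega
  · unfold FF4 at h
    omega

theorem odd_dom {a b y D : ℕ} (ha : a % 2 = 0) (h6 : 6 ≤ a) (hab : a + 18 ≤ b) (hy : 1 ≤ y)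
    (hd : D ≤ 2 * (a / 6) + 7) : ∃ q r s : ℕ, q ≤ 1 ∧ r ≤ 1 ∧ s ≤ 1 ∧ r ≤ D + s ∧
      Fst a (b - q) (y + D - r) (y - s) := by
  have cand : ∀ q r s : ℕ, q ≤ 1 → r ≤ 1 → s ≤ 1 → r ≤ D + s → Zn a (b - q) (y - s) (D + s - r) →
      ∃ q r s : ℕ, q ≤ 1 ∧ r ≤ 1 ∧ s ≤ 1 ∧ r ≤ D + s ∧ Fst a (b - q) (y + D - r) (y - s) := by
    intro q r s hq hr hs hrs hZ
    refine ⟨q, r, s, hq, hr, hs, hrs, ?_⟩
    have e : y + D - r = (y - s) + (D + s - r) := by omega
    rw [e]
    exact (Fst_Zn ha h6 (by omega) (by omega)).2 hZ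
  unfold Zn at cand
  rcases Nat.mod_two_eq_zero_or_one b with hb | hb
  · rcases Nat.mod_two_eq_zero_or_one D with hD | hD
    · rcases Nat.lt_or_ge (2 * (a / 6)) D with h1 | h1
      · have h2 : (a + b + 2 * y + D) % 4 = (2 + 2 * (a / 6)) % 4 ∨
            (a + b + 2 * y + D) % 4 = (2 * (a / 6)) % 4 := by omega
        rcases h2 with h2 | h2
        · exact cand 0 1 0 (by omega) (by omega) (by omega) (by omega) (Or.inl (by omega))
        · exact cand 1 1 1 (by omega) (by omega) (by omega) (by omega) (Or.inr (by omega))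
      · have h2 : (a + b + 2 * y) % 4 = 0 ∨ (a + b + 2 * y) % 4 = 2 := by omega
        rcases Nat.eq_zero_or_pos D with h0 | h0
        · rcases h2 with h2 | h2
          · exact cand 1 0 0 (by omega) (by omega) (by omega) (by omega) (Or.inr (by omega))
          · exact cand 1 1 1 (by omega) (by omega) (by omega) (by omega) (Or.inr (by omega))
        · rcases h2 with h2 | h2
          · rcases Nat.lt_or_ge D (2 * (a / 6)) with h3 | h3
            · exact cand 0 0 1 (by omega) (by omega) (by omega) (by omega) (Or.inl (by omega))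
            · exact cand 1 1 1 (by omega) (by omega) (by omega) (by omega) (Or.inr (by omega))
          · exact cand 0 1 0 (by omega) (by omega) (by omega) (by omega) (Or.inl (by omega))
    · rcases Nat.lt_or_ge D (2 * (a / 6)) with h1 | h1
      · have h2 : (a + b + 2 * y) % 4 = 0 ∨ (a + b + 2 * y) % 4 = 2 := by omega
        rcases h2 with h2 | h2
        · exact cand 0 1 1 (by omega) (by omega) (by omega) (by omega) (Or.inl (by omega))
        · exact cand 0 0 0 (by omega) (by omega) (by omega) (by omega) (Or.inl (by omega))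
      · have h2 : (a + b + 2 * y + D) % 4 = (1 + 2 * (a / 6)) % 4 ∨
            (a + b + 2 * y + D) % 4 = (3 + 2 * (a / 6)) % 4 := by omega
        rcases h2 with h2 | h2
        · exact cand 0 0 0 (by omega) (by omega) (by omega) (by omega) (Or.inl (by omega))
        · exact cand 0 1 1 (by omega) (by omega) (by omega) (by omega) (Or.inl (by omega))
  · rcases Nat.mod_two_eq_zero_or_one D with hD | hD
    · rcases Nat.lt_or_ge (2 * (a / 6)) D with h1 | h1
      · have h2 : (a + b + 2 * y + D) % 4 = (1 + 2 * (a / 6)) % 4 ∨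
            (a + b + 2 * y + D) % 4 = (3 + 2 * (a / 6)) % 4 := by omega
        rcases h2 with h2 | h2
        · exact cand 0 0 0 (by omega) (by omega) (by omega) (by omega) (Or.inr (by omega))
        · exact cand 0 1 1 (by omega) (by omega) (by omega) (by omega) (Or.inr (by omega))
      · have h2 : (a + b + 2 * y) % 4 = 1 ∨ (a + b + 2 * y) % 4 = 3 := by omega
        rcases Nat.eq_zero_or_pos D with h0 | h0
        · rcases h2 with h2 | h2
          · exact cand 0 1 1 (by omega) (by omega) (by omega) (by omega) (Or.inr (by omega))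
          · exact cand 0 0 0 (by omega) (by omega) (by omega) (by omega) (Or.inr (by omega))
        · rcases h2 with h2 | h2
          · rcases Nat.lt_or_ge D (2 * (a / 6)) with h3 | h3
            · exact cand 1 0 1 (by omega) (by omega) (by omega) (by omega) (Or.inl (by omega))
            · exact cand 0 0 0 (by omega) (by omega) (by omega) (by omega) (Or.inr (by omega))
          · exact cand 1 1 0 (by omega) (by omega) (by omega) (by omega) (Or.inl (by omega))
    · rcases Nat.lt_or_ge D (2 * (a / 6)) with h1 | h1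
      · have h2 : (a + b + 2 * y) % 4 = 1 ∨ (a + b + 2 * y) % 4 = 3 := by omega
        rcases h2 with h2 | h2
        · exact cand 1 1 1 (by omega) (by omega) (by omega) (by omega) (Or.inl (by omega))
        · exact cand 1 0 0 (by omega) (by omega) (by omega) (by omega) (Or.inl (by omega))
      · have h2 : (a + b + 2 * y + D) % 4 = (2 + 2 * (a / 6)) % 4 ∨
            (a + b + 2 * y + D) % 4 = (2 * (a / 6)) % 4 := by omega
        rcases h2 with h2 | h2
        · exact cand 1 0 0 (by omega) (by omega) (by omega) (by omega) (Or.inl (by omega))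
        · exact cand 1 1 1 (by omega) (by omega) (by omega) (by omega) (Or.inl (by omega))

/-- A cell of an odd layer is zero if the even layer below it is static at the cells below. -/
theorem odd_static (hf : Rule f) {a b x y : ℕ} (ha : a % 2 = 0) (h8 : 8 ≤ a) (hab : a + 17 ≤ b)
    (hy : 1 ≤ y) (hyx : y ≤ x) (hd : x ≤ y + 2 * ((a - 2) / 6) + 7)
    (hs : ∀ q r s : ℕ, q ≤ 1 → r ≤ 1 → s ≤ 1 → r ≤ (x - y) + s →
      (f (a - 2) (b - q) (x - r) (y - s) ↔ Fst (a - 2) (b - q) (x - r) (y - s))) :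
    f (a - 1) b x y ↔ Fst (a - 1) b x y := by
  refine iff_of_false ?_ (Fst_odd_zero (by omega) (by omega) hyx (by omega))
  obtain ⟨q, r, s, hq, hr, hs', hrs, hF⟩ := odd_dom (a := a - 2) (b := b) (y := y) (D := x - y)
    (by omega) (by omega) (by omega) hy (by omega)
  have e : y + (x - y) - r = x - r := by omega
  rw [e] at hF
  have h1 := (hs q r s hq hr hs' hrs).2 hF
  refine zero_of_one hf 1 q r s le_rfl hq hr hs' (by omega) (by omega) (by omega) (by omega)
    (by omega) ?_
  have e2 : a - 1 - 1 = a - 2 := by omega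
  rw [e2]
  exact h1

end Pool.Agent.SNT
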