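import Pool.Agent.SNT.LW1
import Pool.Agent.SNT.PfDef
import Pool.Agent.SNT.Near
import Pool.Agent.SNT.UpO

set_option autoImplicit false

/-! The wide leaders: values of the static cells and the finite windows. -/

namespace Pool.Agent.SNT.LW

variable {f : ℕ → ℕ → ℕ → ℕ → Prop}

theorem fst0 {a b x y : ℕ} (ha : a % 2 = 0) (hb : (a + b) % 4 = 2) (hyx : y ≤ x)
    (hn : x + a + 12 ≤ b + y) : Fst a b x y ↔
      ((x + y) % 2 = 1 ∧ x < y + 2 * (a / 6) ∧ x % 2 = 1) ∨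
      ((x + y) % 2 = 1 ∧ 2 * (a / 6) + y ≤ x + 1 ∧ (x + y + 1) % 4 = (2 * (a / 6)) % 4) := by
  rw [Fst_near ha (by omega), hb]
  unfold NF
  rw [max_eq_left hyx, min_eq_right hyx]
  generalize a / 6 = h
  omega

theorem fst1 {a b x y : ℕ} (ha : a % 2 = 0) (h6 : 6 ≤ a) (hb : (a + b) % 4 = 3) (hyx : y ≤ x)
    (hn : x + a + 12 ≤ b + y) : Fst a b x y ↔
      ((x + y) % 2 = 0 ∧ 2 * (a / 6) + y ≤ x ∧ (x + y + 2) % 4 = (2 * (a / 6)) % 4) ∨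
      (x = y ∧ x % 2 = 0) := by
  rw [Fst_near ha (by omega), hb]
  unfold NF
  rw [max_eq_left hyx, min_eq_right hyx]
  have h1 : 1 ≤ a / 6 := by omega
  generalize a / 6 = h at h1 ⊢
  omega

theorem fst2 {a b x y : ℕ} (ha : a % 2 = 0) (hb : (a + b) % 4 = 0) (hyx : y ≤ x)
    (hn : x + a + 12 ≤ b + y) : Fst a b x y ↔
      ((x + y) % 2 = 1 ∧ x < y + 2 * (a / 6) ∧ x % 2 = 0) ∨
      ((x + y) % 2 = 1 ∧ 2 * (a / 6) + y ≤ x + 1 ∧ (x + y + 3) % 4 = (2 * (a / 6)) % 4) := by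
  rw [Fst_near ha (by omega), hb]
  unfold NF
  rw [max_eq_left hyx, min_eq_right hyx]
  generalize a / 6 = h
  omega

theorem fst3 {a b x y : ℕ} (ha : a % 2 = 0) (h6 : 6 ≤ a) (hb : (a + b) % 4 = 1) (hyx : y ≤ x)
    (hn : x + a + 12 ≤ b + y) : Fst a b x y ↔
      ((x + y) % 2 = 0 ∧ 2 * (a / 6) + y ≤ x ∧ (x + y) % 4 = (2 * (a / 6)) % 4) ∨
      (x = y ∧ x % 2 = 1) := by
  rw [Fst_near ha (by omega), hb]
  unfold NF
  rw [max_eq_left hyx, min_eq_right hyx]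
  have h1 : 1 ≤ a / 6 := by omega
  generalize a / 6 = h at h1 ⊢
  omega

/-- The value of a cell in the IN row. -/
def V0 (h x y : ℕ) : Prop := ((x + y) % 2 = 1 ∧ x < y + 2 * h ∧ x % 2 = 1) ∨
  ((x + y) % 2 = 1 ∧ 2 * h + y ≤ x + 1 ∧ (x + y + 1) % 4 = (2 * h) % 4)

/-- The value of a cell in the row after the IN row. -/
def V1 (h x y : ℕ) : Prop := ((x + y) % 2 = 0 ∧ 2 * h + y ≤ x ∧ (x + y + 2) % 4 = (2 * h) % 4) ∨
  (x = y ∧ x % 2 = 0)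

/-- The value of a cell in the OUT row. -/
def V2 (h x y : ℕ) : Prop := ((x + y) % 2 = 1 ∧ x < y + 2 * h ∧ x % 2 = 0) ∨
  ((x + y) % 2 = 1 ∧ 2 * h + y ≤ x + 1 ∧ (x + y + 3) % 4 = (2 * h) % 4)

/-- The value of a cell in the row after the OUT row. -/
def V3 (h x y : ℕ) : Prop := ((x + y) % 2 = 0 ∧ 2 * h + y ≤ x ∧ (x + y) % 4 = (2 * h) % 4) ∨
  (x = y ∧ x % 2 = 1)

/-- The side conditions of a layer with an IN row. -/
structure Lay (a b h : ℕ) : Prop where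
  ev : a % 2 = 0
  ge : 12 ≤ a
  hh : a / 6 = h
  ph : (a + b) % 4 = 2

theorem v0 {a b h n a' b' x y : ℕ} (l : Lay a b h) (C : Cyc f a b (2 * n + 2)) (ea : a' = a)
    (eb : b' = b) (hyx : y ≤ x) (hn : x + a + 12 ≤ b' + y) (hx : 2 * n + 3 ≤ x) :
    f a' b' x y ↔ V0 h x y := by
  obtain ⟨h1, h2, h3, h4⟩ := l
  subst h3 ea eb
  rw [C.r0 x y (by rw [max_eq_left hyx]; omega)]
  exact fst0 h1 h4 hyx hn

theorem v1 {a b h n a' b' x y : ℕ} (l : Lay a b h) (C : Cyc f a b (2 * n + 2)) (ea : a' = a)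
    (eb : b' = b + 1) (hyx : y ≤ x) (hn : x + a + 12 ≤ b' + y) (hx : 2 * n + 5 ≤ x) :
    f a' b' x y ↔ V1 h x y := by
  obtain ⟨h1, h2, h3, h4⟩ := l
  subst h3 ea eb
  rw [C.r1 x y (by rw [max_eq_left hyx]; omega)]
  exact fst1 h1 (by omega) (by omega) hyx hn

theorem v1s {a b h n a' b' x y : ℕ} (l : Lay a b h) (C : Cyc f a b (2 * n + 2)) (ea : a' = a)
    (eb : b' = b + 1) (hyx : y ≤ x) (hn : x + a + 12 ≤ b' + y) (hx : 2 * n + 4 ≤ x)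
    (hs : x ≤ y + 2 * h) : f a' b' x y ↔ V1 h x y := by
  obtain ⟨h1, h2, h3, h4⟩ := l
  subst h3 ea eb
  rw [C.r1s (by omega) x y (by rw [max_eq_left hyx, min_eq_right hyx]; exact hs)
    (by rw [max_eq_left hyx]; omega)]
  exact fst1 h1 (by omega) (by omega) hyx hn

theorem v2s {a b h n a' b' x y : ℕ} (l : Lay a b h) (C : Cyc f a b (2 * n + 2)) (ea : a' = a)
    (eb : b' = b + 2) (hyx : y ≤ x) (hn : x + a + 12 ≤ b' + y) (hy : 2 * n + 4 ≤ y)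
    (hs : x + 1 ≤ y + 2 * h) : f a' b' x y ↔ V2 h x y := by
  obtain ⟨h1, h2, h3, h4⟩ := l
  subst h3 ea eb
  rw [C.r2s x y (by rw [max_eq_left hyx, min_eq_right hyx]; exact hs)
    (by rw [min_eq_right hyx]; omega)]
  exact fst2 h1 (by omega) hyx hn

theorem v2x {a b h n a' b' x y : ℕ} (l : Lay a b h) (C : Cyc f a b (2 * n + 2)) (ea : a' = a)
    (eb : b' = b + 2) (hyx : y ≤ x) (hn : x + a + 12 ≤ b' + y) (hx : 2 * n + 7 ≤ x)
    (hs : y + 2 * h ≤ x) : f a' b' x y ↔ V2 h x y := by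
  obtain ⟨h1, h2, h3, h4⟩ := l
  subst h3 ea eb
  rw [C.r2x x y (by rw [max_eq_left hyx, min_eq_right hyx]; exact hs)
    (by rw [max_eq_left hyx]; omega)]
  exact fst2 h1 (by omega) hyx hn

theorem v3s {a b h n a' b' x y : ℕ} (l : Lay a b h) (C : Cyc f a b (2 * n + 2)) (ea : a' = a)
    (eb : b' = b + 3) (hyx : y ≤ x) (hn : x + a + 12 ≤ b' + y) (hy : 2 * n + 6 ≤ y)
    (hs : x + 1 ≤ y + 2 * h) : f a' b' x y ↔ V3 h x y := by
  obtain ⟨h1, h2, h3, h4⟩ := l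
  subst h3 ea eb
  rw [C.r3s x y (by rw [max_eq_left hyx, min_eq_right hyx]; exact hs)
    (by rw [min_eq_right hyx]; omega)]
  exact fst3 h1 (by omega) (by omega) hyx hn

theorem v3x {a b h n a' b' x y : ℕ} (l : Lay a b h) (C : Cyc f a b (2 * n + 2)) (ea : a' = a)
    (eb : b' = b + 3) (hyx : y ≤ x) (hn : x + a + 12 ≤ b' + y) (hx : 2 * n + 2 * h + 5 ≤ x) :
    f a' b' x y ↔ V3 h x y := by
  obtain ⟨h1, h2, h3, h4⟩ := l
  have hc : cc a = 2 * (a / 6) := by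
    unfold cc
    omega
  subst h3 ea eb
  rw [C.r3 x y (by rw [max_eq_left hyx, hc]; omega)]
  exact fst3 h1 (by omega) (by omega) hyx hn

/-- The weak profile: the cells near the corner of the out-line and near the wall are not
recorded. -/
structure Cw (f : ℕ → ℕ → ℕ → ℕ → Prop) (a b n : ℕ) : Prop where
  w0 : ∀ x y : ℕ, y ≤ x → 2 * n + 3 ≤ x → x + 3 ≤ y + 2 * (a / 6) ∨ 2 * n + 5 ≤ x →
    (f a b x y ↔ Fst a b x y)
  w1 : ∀ x y : ℕ, y ≤ x → 2 * n + 4 ≤ x → x + 3 ≤ y + 2 * (a / 6) ∨ 2 * n + 7 ≤ x →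
    (f a (b + 1) x y ↔ Fst a (b + 1) x y)
  w2s : ∀ x y : ℕ, y ≤ x → x + 1 ≤ y + 2 * (a / 6) → 2 * n + 4 ≤ y →
    (f a (b + 2) x y ↔ Fst a (b + 2) x y)
  w2x : ∀ x y : ℕ, y + 2 * (a / 6) ≤ x → 2 * n + 9 ≤ x →
    (f a (b + 2) x y ↔ Fst a (b + 2) x y)
  w3s : ∀ x y : ℕ, y ≤ x → x + 1 ≤ y + 2 * (a / 6) → 2 * n + 6 ≤ y →
    (f a (b + 3) x y ↔ Fst a (b + 3) x y)
  w3x : ∀ x y : ℕ, y ≤ x → 2 * n + 2 * (a / 6) + 6 ≤ x →
    (f a (b + 3) x y ↔ Fst a (b + 3) x y)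

theorem Cw.of_cyc {a b n : ℕ} (h6 : 12 ≤ a) (C : Cyc f a b (2 * n + 2)) : Cw f a b n where
  w0 := by
    intro x y hyx hx h
    exact C.r0 x y (by rw [max_eq_left hyx]; omega)
  w1 := by
    intro x y hyx hx h
    rcases Nat.lt_or_ge (2 * n + 4) x with h1 | h1
    · exact C.r1 x y (by rw [max_eq_left hyx]; omega)
    · exact C.r1s (by omega) x y (by rw [max_eq_left hyx, min_eq_right hyx]; omega)
        (by rw [max_eq_left hyx]; omega)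
  w2s := by
    intro x y hyx hs hy
    exact C.r2s x y (by rw [max_eq_left hyx, min_eq_right hyx]; exact hs)
      (by rw [min_eq_right hyx]; omega)
  w2x := by
    intro x y hs hx
    have hyx : y ≤ x := by omega
    exact C.r2x x y (by rw [max_eq_left hyx, min_eq_right hyx]; exact hs)
      (by rw [max_eq_left hyx]; omega)
  w3s := by
    intro x y hyx hs hy
    exact C.r3s x y (by rw [max_eq_left hyx, min_eq_right hyx]; exact hs)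
      (by rw [min_eq_right hyx]; omega)
  w3x := by
    intro x y hyx hx
    have hc : cc a = 2 * (a / 6) := by
      unfold cc
      omega
    exact C.r3 x y (by rw [max_eq_left hyx, hc]; omega)

theorem w0 {a b h n a' b' x y : ℕ} (l : Lay a b h) (C : Cw f a b n) (ea : a' = a)
    (eb : b' = b) (hyx : y ≤ x) (hn : x + a + 12 ≤ b' + y) (hx : 2 * n + 3 ≤ x)
    (hh : x + 3 ≤ y + 2 * h ∨ 2 * n + 5 ≤ x) : f a' b' x y ↔ V0 h x y := by
  obtain ⟨h1, h2, h3, h4⟩ := l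
  subst h3 ea eb
  rw [C.w0 x y hyx hx hh]
  exact fst0 h1 h4 hyx hn

theorem w1 {a b h n a' b' x y : ℕ} (l : Lay a b h) (C : Cw f a b n) (ea : a' = a)
    (eb : b' = b + 1) (hyx : y ≤ x) (hn : x + a + 12 ≤ b' + y) (hx : 2 * n + 4 ≤ x)
    (hh : x + 3 ≤ y + 2 * h ∨ 2 * n + 7 ≤ x) : f a' b' x y ↔ V1 h x y := by
  obtain ⟨h1, h2, h3, h4⟩ := l
  subst h3 ea eb
  rw [C.w1 x y hyx hx hh]
  exact fst1 h1 (by omega) (by omega) hyx hn

theorem w2s {a b h n a' b' x y : ℕ} (l : Lay a b h) (C : Cw f a b n) (ea : a' = a)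
    (eb : b' = b + 2) (hyx : y ≤ x) (hn : x + a + 12 ≤ b' + y) (hy : 2 * n + 4 ≤ y)
    (hs : x + 1 ≤ y + 2 * h) : f a' b' x y ↔ V2 h x y := by
  obtain ⟨h1, h2, h3, h4⟩ := l
  subst h3 ea eb
  rw [C.w2s x y hyx hs hy]
  exact fst2 h1 (by omega) hyx hn

theorem w2x {a b h n a' b' x y : ℕ} (l : Lay a b h) (C : Cw f a b n) (ea : a' = a)
    (eb : b' = b + 2) (hyx : y ≤ x) (hn : x + a + 12 ≤ b' + y) (hx : 2 * n + 9 ≤ x)
    (hs : y + 2 * h ≤ x) : f a' b' x y ↔ V2 h x y := by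
  obtain ⟨h1, h2, h3, h4⟩ := l
  subst h3 ea eb
  rw [C.w2x x y hs hx]
  exact fst2 h1 (by omega) hyx hn

theorem w3s {a b h n a' b' x y : ℕ} (l : Lay a b h) (C : Cw f a b n) (ea : a' = a)
    (eb : b' = b + 3) (hyx : y ≤ x) (hn : x + a + 12 ≤ b' + y) (hy : 2 * n + 6 ≤ y)
    (hs : x + 1 ≤ y + 2 * h) : f a' b' x y ↔ V3 h x y := by
  obtain ⟨h1, h2, h3, h4⟩ := l
  subst h3 ea eb
  rw [C.w3s x y hyx hs hy]
  exact fst3 h1 (by omega) (by omega) hyx hn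

theorem w3x {a b h n a' b' x y : ℕ} (l : Lay a b h) (C : Cw f a b n) (ea : a' = a)
    (eb : b' = b + 3) (hyx : y ≤ x) (hn : x + a + 12 ≤ b' + y)
    (hx : 2 * n + 2 * h + 6 ≤ x) : f a' b' x y ↔ V3 h x y := by
  obtain ⟨h1, h2, h3, h4⟩ := l
  subst h3 ea eb
  rw [C.w3x x y hyx hx]
  exact fst3 h1 (by omega) (by omega) hyx hn

theorem mv {a b x y a' b' x' y' : ℕ} (h : f a b x y) (ha : a' = a) (hb : b' = b) (hx : x' = x)
    (hy : y' = y) : f a' b' x' y' := by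
  subst ha hb hx hy
  exact h

end Pool.Agent.SNT.LW
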