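import Pool.Agent.SNT.Core
import Pool.Agent.SNT.FstInd

set_option autoImplicit false

/-! One row forcing, part A: bookkeeping. -/

namespace Pool.Agent.SNT

/-- The three lower planes of the plane `(a, b)`, `a ≤ b`. -/
def RowLow (a b a' b' : ℕ) : Prop :=
  (a = a' + 1 ∧ b' = b) ∨ (a' = a ∧ b = b' + 1 ∧ a ≤ b') ∨ (a = a' + 1 ∧ b = b' + 1)

/-- The moves of the two large counters. -/
def CellStep (d e d' e' : ℕ) : Prop :=
  (d' = d ∧ e' = e) ∨ (d' = d + 1 ∧ e' = e) ∨ (d' = d ∧ e' + e = 1) ∨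
    (d' + 1 = d ∧ e' + e = 1)

/-- The cell has a one of the static field below it in a strictly lower plane. -/
def Low (a b d e : ℕ) : Prop :=
  ∃ a' b' d' e', RowLow a b a' b' ∧ CellStep d e d' e' ∧ FF a' b' d' e'

/-- The planes strictly below `(a, b)` are static at the cell `(x, y)`. -/
def LS (f : ℕ → ℕ → ℕ → ℕ → Prop) (a b x y : ℕ) : Prop :=
  ∀ p q : ℕ, p ≤ 1 → q ≤ 1 → 1 ≤ p + q → p ≤ a → q ≤ b →
    (f (a - p) (b - q) x y ↔ Fst (a - p) (b - q) x y)

variable {f : ℕ → ℕ → ℕ → ℕ → Prop}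

/-- A cell with a static one below it is zero. -/
theorem not_of_low (hf : Rule f) {a b x y : ℕ} (hab : a ≤ b) (hyx : y ≤ x) (hy : 1 ≤ y)
    (hl : Low a b (x - y) (x % 2)) (hls : ∀ r s, r ≤ 1 → s ≤ 1 → LS f a b (x - r) (y - s)) :
    ¬ f a b x y := by
  intro h
  obtain ⟨a', b', d', e', hr, hc, hF⟩ := hl
  -- the shift
  have key : ∀ p q r s : ℕ, p ≤ 1 → q ≤ 1 → 1 ≤ p + q → p ≤ a → q ≤ b → r ≤ 1 → s ≤ 1 →
      y - s ≤ x - r → a - p ≤ b - q → FF (a - p) (b - q) ((x - r) - (y - s)) ((x - r) % 2) →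
      False := by
    intro p q r s hp hq hpq hpa hqb hr hs h1 h2 h3
    have h4 := hf.down h hp hq hr hs (by omega) hpa hqb (by omega) (by omega)
    exact h4 ((hls r s hr hs p q hp hq hpq hpa hqb).2 ((Fst_of_le h2 h1).2 h3))
  have step : ∀ p q : ℕ, p ≤ 1 → q ≤ 1 → 1 ≤ p + q → p ≤ a → q ≤ b → a - p ≤ b - q →
      FF (a - p) (b - q) d' e' → False := by
    intro p q hp hq hpq hpa hqb h2 h3
    rcases hc with ⟨h5, h6⟩ | ⟨h5, h6⟩ | ⟨h5, h6⟩ | ⟨h5, h6⟩
    · refine key p q 0 0 hp hq hpq hpa hqb (by omega) (by omega) (by omega) h2 ?_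
      rw [Nat.sub_zero, Nat.sub_zero, ← h5, ← h6]
      exact h3
    · refine key p q 0 1 hp hq hpq hpa hqb (by omega) (by omega) (by omega) h2 ?_
      have e1 : x - 0 - (y - 1) = d' := by omega
      rw [e1, Nat.sub_zero, ← h6]
      exact h3
    · refine key p q 1 1 hp hq hpq hpa hqb (by omega) (by omega) (by omega) h2 ?_
      have e1 : x - 1 - (y - 1) = d' := by omega
      have e2 : (x - 1) % 2 = e' := by omega
      rw [e1, e2]
      exact h3
    · refine key p q 1 0 hp hq hpq hpa hqb (by omega) (by omega) (by omega) h2 ?_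
      have e1 : x - 1 - (y - 0) = d' := by omega
      have e2 : (x - 1) % 2 = e' := by omega
      rw [e1, e2]
      exact h3
  rcases hr with ⟨h1, h2⟩ | ⟨h1, h2, h3⟩ | ⟨h1, h2⟩
  · refine step 1 0 (by omega) (by omega) (by omega) (by omega) (by omega) (by omega) ?_
    have e1 : a - 1 = a' := by omega
    have e2 : b - 0 = b' := by omega
    rw [e1, e2]
    exact hF
  · refine step 0 1 (by omega) (by omega) (by omega) (by omega) (by omega) (by omega) ?_
    have e1 : a - 0 = a' := by omega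
    have e2 : b - 1 = b' := by omega
    rw [e1, e2]
    exact hF
  · refine step 1 1 (by omega) (by omega) (by omega) (by omega) (by omega) (by omega) ?_
    have e1 : a - 1 = a' := by omega
    have e2 : b - 1 = b' := by omega
    rw [e1, e2]
    exact hF

/-- If no static one lies below the cell in a lower plane then a predecessor which is `1` is in
the same plane. -/
theorem exists_pred_of_not_low (hf : Rule f) {a b x y : ℕ} (hab : a ≤ b) (hyx : y ≤ x)
    (hy : 1 ≤ y) (hne : ¬ (a % 2 = 0 ∧ b % 2 = 0 ∧ x % 2 = 0 ∧ y % 2 = 0))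
    (hl : ¬ Low a b (x - y) (x % 2)) (hls : ∀ r s, r ≤ 1 → s ≤ 1 → LS f a b (x - r) (y - s))
    (h : ¬ f a b x y) : f a b (x - 1) y ∨ f a b x (y - 1) ∨ f a b (x - 1) (y - 1) := by
  obtain ⟨p, q, r, s, hp, hq, hr, hs, hsum, hpa, hqb, hrx, hsy, hff⟩ := hf.exists_pred hne h
  rcases Nat.lt_or_ge 0 (p + q) with hpq | hpq
  · exfalso
    apply hl
    have h1 := (hls r s hr hs p q hp hq hpq hpa hqb).1 hff
    -- normalise the order of `a - p`, `b - q`
    have hrow : ∃ a' b', RowLow a b a' b' ∧ a' ≤ b' ∧ Fst a' b' (x - r) (y - s) := by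
      rcases Nat.lt_or_ge (b - q) (a - p) with h2 | h2
      · have : p = 0 ∧ q = 1 ∧ a = b := by omega
        obtain ⟨rfl, rfl, rfl⟩ := this
        refine ⟨a - 1, a, Or.inl ⟨by omega, rfl⟩, by omega, ?_⟩
        rw [Fst_swap_ab]
        exact h1
      · refine ⟨a - p, b - q, ?_, h2, h1⟩
        unfold RowLow
        omega
    obtain ⟨a', b', hrow, hab', hF⟩ := hrow
    rcases Nat.lt_or_ge (x - r) (y - s) with h3 | h3
    · have : r = 1 ∧ s = 0 ∧ x = y := by omega
      obtain ⟨rfl, rfl, rfl⟩ := this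
      rw [Fst_swap_xy, Fst_of_le hab' (by omega)] at hF
      refine ⟨a', b', _, _, hrow, ?_, hF⟩
      unfold CellStep
      omega
    · rw [Fst_of_le hab' h3] at hF
      refine ⟨a', b', _, _, hrow, ?_, hF⟩
      unfold CellStep
      omega
  · have hp0 : p = 0 := by omega
    have hq0 : q = 0 := by omega
    subst hp0 hq0
    rw [Nat.sub_zero, Nat.sub_zero] at hff
    have : (r = 1 ∧ s = 0) ∨ (r = 0 ∧ s = 1) ∨ (r = 1 ∧ s = 1) := by omega
    rcases this with ⟨rfl, rfl⟩ | ⟨rfl, rfl⟩ | ⟨rfl, rfl⟩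
    · exact Or.inl hff
    · exact Or.inr (Or.inl hff)
    · exact Or.inr (Or.inr hff)

/-- Ones of the static field have no static one below them. -/
theorem not_low_of_FF {a b d e : ℕ} (hab : a ≤ b) (he : e ≤ 1) (h : FF a b d e) :
    ¬ Low a b d e := by
  rintro ⟨a', b', d', e', hr, hc, hF⟩
  refine FF_indep a b d e a' b' d' e' hab he (Or.inl ⟨?_, ?_⟩) h hF
  · unfold RowLow at hr
    unfold RowMv
    omega
  · unfold CellStep at hc
    unfold CellMv
    omega

/-- A cell is `1` if the static field has nothing below it in the lower planes and its three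
predecessors in the plane are zero. -/
theorem of_row_zero (hf : Rule f) {a b x y : ℕ} (hab : a ≤ b) (hyx : y ≤ x)
    (hy : 1 ≤ y) (hne : ¬ (a % 2 = 0 ∧ b % 2 = 0 ∧ x % 2 = 0 ∧ y % 2 = 0))
    (hl : ¬ Low a b (x - y) (x % 2)) (hls : ∀ r s, r ≤ 1 → s ≤ 1 → LS f a b (x - r) (y - s))
    (h1 : ¬ f a b (x - 1) y) (h2 : ¬ f a b x (y - 1)) (h3 : ¬ f a b (x - 1) (y - 1)) :
    f a b x y := by
  by_contra h
  rcases exists_pred_of_not_low hf hab hyx hy hne hl hls h with h4 | h4 | h4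
  · exact h1 h4
  · exact h2 h4
  · exact h3 h4

end Pool.Agent.SNT
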