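import Pool.Agent.SNT.LimA

set_option autoImplicit false

/-! One row forcing, part B: facts on the static field. -/

namespace Pool.Agent.SNT

theorem open_O {a b d : ℕ} (hab : a ≤ b) (ha : a % 2 = 0) (hb : b % 2 = 0) (hd : d % 2 = 0)
    (h : (2 ≤ d ∧ d + 2 ≤ 2 * (a / 6)) ∨
      (2 ≤ d ∧ a = b ∧ (a % 6 = 2 ∨ a % 6 = 4) ∧ d ≤ 2 * (a / 6)) ∨
      (d = 0 ∧ 6 ≤ a ∧ ((a % 6 = 0 ∧ b = a + 2) ∨ (a % 6 = 4 ∧ (b = a ∨ b = a + 2))))) :
    ¬ Low a b d 1 := by
  rintro ⟨a', b', d', e', hrow, hcell, hF⟩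
  rcases hF with hF | hF | hF | hF
  · unfold RowLow at hrow
    unfold CellStep at hcell
    rcases hF with hF | hF | hF | hF | hF | hF <;> omega
  · obtain ⟨h1, h2, h3, h4⟩ := hF
    unfold FU at h3
    unfold RowLow at hrow
    unfold CellStep at hcell
    rcases hrow with hr | hr | hr <;> rcases hcell with hc | hc | hc | hc <;>
    rcases h3 with h3 | h3 | h3 | h3 | h3 | h3 <;> omega
  · unfold RowLow at hrow
    unfold CellStep at hcell
    rcases hF with hF | hF | hF | hF <;> rcases hrow with hr | hr | hr <;>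
      rcases hcell with hc | hc | hc | hc <;> omega
  · unfold RowLow at hrow
    unfold CellStep at hcell
    rcases hF with hF | hF | hF | hF <;> omega

/-- Lower rows. -/
theorem rowLow_a {a b : ℕ} (ha : 1 ≤ a) : RowLow a b (a - 1) b :=
  Or.inl ⟨by omega, rfl⟩

theorem rowLow_b {a b : ℕ} (hb : a < b) : RowLow a b a (b - 1) :=
  Or.inr (Or.inl ⟨rfl, by omega, by omega⟩)

theorem rowLow_ab {a b : ℕ} (ha : 1 ≤ a) (hb : 1 ≤ b) : RowLow a b (a - 1) (b - 1) :=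
  Or.inr (Or.inr ⟨by omega, by omega⟩)

theorem cellStep_0 (d e : ℕ) : CellStep d e d e := Or.inl ⟨rfl, rfl⟩

theorem cellStep_y (d e : ℕ) : CellStep d e (d + 1) e := Or.inr (Or.inl ⟨rfl, rfl⟩)

theorem cellStep_xy {d e : ℕ} (he : e ≤ 1) : CellStep d e d (1 - e) :=
  Or.inr (Or.inr (Or.inl ⟨rfl, by omega⟩))

theorem cellStep_x {d e : ℕ} (he : e ≤ 1) (hd : 1 ≤ d) : CellStep d e (d - 1) (1 - e) :=
  Or.inr (Or.inr (Or.inr ⟨by omega, by omega⟩))

theorem low_X1 {a b : ℕ} (hab : a ≤ b) (ha : a % 2 = 0) (h6 : 6 ≤ a)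
    (h : ((a + b) % 4 = 2 ∧ ¬ (b = a + 2 ∧ (a % 6 = 0 ∨ a % 6 = 4))) ∨ (a = b ∧ a % 6 = 2)) :
    Low a b 1 0 := by
  rcases h with ⟨h1, h2⟩ | ⟨rfl, h2⟩
  · refine ⟨a, b - 1, 0, 1, rowLow_b (by omega), cellStep_x (by omega) (by omega), ?_⟩
    refine Or.inr (Or.inr (Or.inl (Or.inr (Or.inr (Or.inr ?_)))))
    omega
  · refine ⟨a - 1, a - 1, 0, 1, rowLow_ab (by omega) (by omega),
      cellStep_x (by omega) (by omega), ?_⟩
    refine Or.inr (Or.inr (Or.inr (Or.inr (Or.inr (Or.inl ?_)))))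
    omega

theorem low_Ytop {a b : ℕ} (hab : a ≤ b) (ha : a % 2 = 0) (h6 : 6 ≤ a)
    (h : (a + b) % 4 = 0) (hv : a = b → a % 6 = 0) : Low a b (2 * (a / 6) - 1) 1 := by
  rcases Nat.eq_or_lt_of_le hab with h1 | h1
  · subst h1
    have h2 := hv rfl
    rcases Nat.lt_or_ge a 12 with h3 | h3
    · have h4 : a = 6 := by omega
      subst h4
      refine ⟨5, 6, 0, 0, rowLow_a (by omega), cellStep_x (by omega) (by omega), ?_⟩
      decide
    · refine ⟨a - 1, a - 1, 2 * (a / 6), 1, rowLow_ab (by omega) (by omega), ?_, ?_⟩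
      · have := cellStep_y (2 * (a / 6) - 1) 1
        have e1 : 2 * (a / 6) - 1 + 1 = 2 * (a / 6) := by omega
        rwa [e1] at this
      · refine Or.inr (Or.inl ⟨by omega, by omega, ?_, by omega⟩)
        refine Or.inr (Or.inr (Or.inr (Or.inr (Or.inr ?_))))
        omega
  · refine ⟨a, b - 1, 2 * (a / 6), 1, rowLow_b h1, ?_, ?_⟩
    · have := cellStep_y (2 * (a / 6) - 1) 1
      have e1 : 2 * (a / 6) - 1 + 1 = 2 * (a / 6) := by omega
      rwa [e1] at this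
    · refine Or.inr (Or.inr (Or.inl (Or.inr (Or.inr (Or.inl ?_)))))
      refine ⟨by omega, by omega, by omega, by omega, Or.inr (by omega), by omega⟩

theorem low_Yvac {a : ℕ} (h6 : 6 ≤ a) (hv : a % 6 = 2 ∨ a % 6 = 4) :
    Low a a (2 * (a / 6) + 1) 1 := by
  rcases hv with hv | hv
  · refine ⟨a - 1, a - 1, 2 * (a / 6) + 1, 0, rowLow_ab (by omega) (by omega),
      cellStep_xy (by omega), ?_⟩
    refine Or.inr (Or.inl ⟨by omega, by omega, ?_, by omega⟩)
    refine Or.inr (Or.inl ?_)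
    omega
  · refine ⟨a - 1, a - 1, 2 * (a / 6) + 1 + 1, 1, rowLow_ab (by omega) (by omega),
      cellStep_y _ _, ?_⟩
    refine Or.inr (Or.inl ⟨by omega, by omega, ?_, by omega⟩)
    refine Or.inr (Or.inr (Or.inr (Or.inl ?_)))
    omega

theorem low_O0 {a b : ℕ} (hab : a ≤ b) (ha : a % 2 = 0) (h6 : 6 ≤ a)
    (h : (a + b) % 4 = 0) (hv : a = b → a % 6 = 0) : Low a b 0 1 := by
  rcases Nat.eq_or_lt_of_le hab with h1 | h1
  · subst h1
    have h2 := hv rfl
    refine ⟨a - 1, a, 0, 0, rowLow_a (by omega), cellStep_xy (by omega), ?_⟩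
    refine Or.inr (Or.inr (Or.inr (Or.inr (Or.inr (Or.inr ?_)))))
    omega
  · refine ⟨a, b - 1, 0, 0, rowLow_b h1, cellStep_xy (by omega), ?_⟩
    refine Or.inr (Or.inr (Or.inl (Or.inr (Or.inr (Or.inr ?_)))))
    omega

theorem low_Ok {a b : ℕ} (hab : a ≤ b) (ha : a % 2 = 0) (h6 : 6 ≤ a)
    (h : (a + b) % 4 = 2) : Low a b (2 * (a / 6)) 1 := by
  by_cases h1 : b = a + 2 ∧ (a % 6 = 2 ∨ a % 6 = 4)
  · obtain ⟨rfl, h2⟩ := h1
    refine ⟨a, a + 2 - 1, 2 * (a / 6) + 1, 1, rowLow_b (by omega), cellStep_y _ _, ?_⟩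
    refine Or.inr (Or.inl ⟨by omega, by omega, ?_, by omega⟩)
    rcases h2 with h2 | h2
    · refine Or.inr (Or.inr (Or.inl ?_))
      omega
    · refine Or.inr (Or.inr (Or.inr (Or.inr (Or.inl ?_))))
      omega
  · refine ⟨a, b - 1, 2 * (a / 6), 0, rowLow_b (by omega), cellStep_xy (by omega), ?_⟩
    refine Or.inr (Or.inr (Or.inl (Or.inr (Or.inr (Or.inl ?_)))))
    refine ⟨by omega, by omega, by omega, by omega, ?_, by omega⟩
    by_cases h2 : a % 6 = 0
    · exact Or.inl ⟨Or.inl h2, by omega⟩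
    · exact Or.inr (by omega)

/-- The centre of the planes `(6 k + 2, 6 k + 3)` and `(4, 7)`. -/
theorem open_centre {a b : ℕ} (h : (b = a + 1 ∧ a % 6 = 2 ∧ 6 ≤ a) ∨ (a = 4 ∧ b = 7)) :
    ¬ Low a b 1 0 := by
  rintro ⟨a', b', d', e', hrow, hcell, hF⟩
  rcases hF with hF | hF | hF | hF
  · unfold RowLow at hrow
    unfold CellStep at hcell
    rcases hF with hF | hF | hF | hF | hF | hF <;> omega
  · obtain ⟨h1, h2, h3, h4⟩ := hF
    unfold FU at h3
    unfold RowLow at hrow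
    unfold CellStep at hcell
    rcases hrow with hr | hr | hr <;> rcases hcell with hc | hc | hc | hc <;>
    rcases h3 with h3 | h3 | h3 | h3 | h3 | h3 <;> omega
  · unfold RowLow at hrow
    unfold CellStep at hcell
    unfold FF3 FT at hF
    rcases hF with hF | hF | hF | hF <;> rcases hrow with hr | hr | hr <;>
      rcases hcell with hc | hc | hc | hc <;> omega
  · unfold RowLow at hrow
    unfold CellStep at hcell
    rcases hF with hF | hF | hF | hF <;> omega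

theorem low_centre_E {a b : ℕ} (h : (b = a + 1 ∧ a % 6 = 2 ∧ 6 ≤ a) ∨ (a = 4 ∧ b = 7)) :
    Low a b 2 0 := by
  rcases h with ⟨rfl, h1, h2⟩ | ⟨rfl, rfl⟩
  · refine ⟨a, a + 1 - 1, 2, 1, rowLow_b (by omega), cellStep_xy (by omega), ?_⟩
    rcases Nat.lt_or_ge a 14 with h3 | h3
    · have h4 : a = 8 := by omega
      subst h4
      decide
    · refine Or.inr (Or.inr (Or.inr (Or.inl ?_)))
      omega
  · refine ⟨4, 6, 2, 1, rowLow_b (by omega), cellStep_xy (by omega), ?_⟩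
    decide

theorem low_centre_Y {a b : ℕ} (h : (b = a + 1 ∧ a % 6 = 2 ∧ 6 ≤ a) ∨ (a = 4 ∧ b = 7)) :
    Low a b 1 1 := by
  rcases h with ⟨rfl, h1, h2⟩ | ⟨rfl, rfl⟩
  · refine ⟨a, a + 1 - 1, 2, 1, rowLow_b (by omega), cellStep_y _ _, ?_⟩
    rcases Nat.lt_or_ge a 14 with h3 | h3
    · have h4 : a = 8 := by omega
      subst h4
      decide
    · refine Or.inr (Or.inr (Or.inr (Or.inl ?_)))
      omega
  · refine ⟨4, 6, 2, 1, rowLow_b (by omega), cellStep_y _ _, ?_⟩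
    decide

end Pool.Agent.SNT
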