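import Pool.Agent.SNT.LimA

set_option autoImplicit false

/-! One row forcing, part C: the strips of the planes with `a`, `b` even. -/

namespace Pool.Agent.SNT

variable {f : ℕ → ℕ → ℕ → ℕ → Prop}

/-- The lower planes are static beyond `K`. -/
def LSK (f : ℕ → ℕ → ℕ → ℕ → Prop) (a b K : ℕ) : Prop :=
  ∀ x y : ℕ, K < max x y → LS f a b x y

/-- No particles `(odd, even)`: induction from the outer end `T` of the strip inwards. -/
theorem strip_Y_zero (hf : Rule f) {a b K T : ℕ} (hab : a ≤ b) (ha : a % 2 = 0) (hb : b % 2 = 0)
    (hls : LSK f a b K) (hT : T % 2 = 1) (hlow : Low a b T 1)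
    (hopen : ∀ d : ℕ, d % 2 = 0 → 2 ≤ d → d + 1 ≤ T → ¬ Low a b d 1) :
    ∀ n d x : ℕ, d + 2 * n = T → d % 2 = 1 → x % 2 = 1 → K + 1 < x → T + 2 ≤ x →
      ¬ f a b x (x - d) := by
  intro n
  induction n with
  | zero =>
    intro d x hn hd hx hK hTx h
    have hdT : d = T := by omega
    subst hdT
    have e2 : x - (x - d) = d := by omega
    refine not_of_low hf (x := x) (y := x - d) hab (by omega) (by omega) ?_ ?_ h
    · rw [e2, hx]
      exact hlow
    · intro r s hr hs
      exact hls _ _ (lt_of_lt_of_le (by omega) (le_max_left _ _))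
  | succ n ih =>
    intro d x hn hd hx hK hTx h
    -- the cell `O` at `(x, x - d - 1)`
    have hz : ¬ f a b x (x - d - 1) := by
      have := hf.down h (p := 0) (q := 0) (r := 0) (s := 1) (by omega) (by omega) (by omega)
        (by omega) (by omega) (by omega) (by omega) (by omega) (by omega)
      exact this
    have e2 : x - (x - d - 1) = d + 1 := by omega
    have h3 := exists_pred_of_not_low hf (x := x) (y := x - d - 1) hab (by omega) (by omega)
      (by omega) (by
        rw [e2, hx]
        exact hopen (d + 1) (by omega) (by omega) (by omega))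
      (by
        intro r s hr hs
        exact hls _ _ (lt_of_lt_of_le (by omega) (le_max_left _ _))) hz
    rcases h3 with h3 | h3 | h3
    · have := hf.down h (p := 0) (q := 0) (r := 1) (s := 1) (by omega) (by omega) (by omega)
        (by omega) (by omega) (by omega) (by omega) (by omega) (by omega)
      exact this h3
    · have e3 : x - d - 1 - 1 = x - (d + 2) := by omega
      rw [e3] at h3
      exact ih (d + 2) x (by omega) (by omega) hx hK hTx h3
    · exact hf.not_allEven h3 ⟨ha, hb, by omega, by omega⟩

/-- No particles `(even, odd)`: induction from the diagonal outwards. -/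
theorem strip_X_zero (hf : Rule f) {a b K S : ℕ} (hab : a ≤ b) (ha : a % 2 = 0) (hb : b % 2 = 0)
    (hls : LSK f a b K) (hlow : Low a b 1 0 ∨ ¬ Low a b 0 1)
    (hopen : ∀ d : ℕ, d % 2 = 0 → 2 ≤ d → d + 2 ≤ S → ¬ Low a b d 1) :
    ∀ n d y : ℕ, d = 2 * n + 1 → d + 1 ≤ S → y % 2 = 1 → K + 1 < y → 1 < y →
      ¬ f a b (y + d) y := by
  intro n
  induction n with
  | zero =>
    intro d y hn hd hy hK hy2 h
    have hd1 : d = 1 := by omega
    subst hd1
    have hmax : ∀ u v : ℕ, y ≤ u + 1 → LS f a b u v := fun u v hu =>
      hls u v (lt_of_lt_of_le (by omega) (le_max_left _ _))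
    rcases hlow with hlow | hlow
    · refine not_of_low hf (x := y + 1) (y := y) hab (by omega) (by omega) ?_ ?_ h
      · have e1 : y + 1 - y = 1 := by omega
        have e2 : (y + 1) % 2 = 0 := by omega
        rw [e1, e2]
        exact hlow
      · intro r s hr hs
        exact hmax _ _ (by omega)
    · have hz : ¬ f a b y y := by
        have := hf.down h (p := 0) (q := 0) (r := 1) (s := 0) (by omega) (by omega) (by omega)
          (by omega) (by omega) (by omega) (by omega) (by omega) (by omega)
        exact this
      have hp : ¬ f a b y (y - 1) := by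
        have := hf.down h (p := 0) (q := 0) (r := 1) (s := 1) (by omega) (by omega) (by omega)
          (by omega) (by omega) (by omega) (by omega) (by omega) (by omega)
        exact this
      have h3 := exists_pred_of_not_low hf (x := y) (y := y) hab le_rfl (by omega)
        (by omega) (by
          rw [Nat.sub_self, hy]
          exact hlow)
        (by
          intro r s hr hs
          exact hmax _ _ (by omega)) hz
      rcases h3 with h3 | h3 | h3
      · rw [hf.swap_xy] at h3
        exact hp h3
      · exact hp h3
      · exact hf.not_allEven h3 ⟨ha, hb, by omega, by omega⟩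
  | succ n ih =>
    intro d y hn hd hy hK hy2 h
    have hmax : ∀ u v : ℕ, y ≤ u + 1 → LS f a b u v := fun u v hu =>
      hls u v (lt_of_lt_of_le (by omega) (le_max_left _ _))
    have hz : ¬ f a b (y + d - 1) y := by
      have := hf.down h (p := 0) (q := 0) (r := 1) (s := 0) (by omega) (by omega) (by omega)
        (by omega) (by omega) (by omega) (by omega) (by omega) (by omega)
      exact this
    have e2 : y + d - 1 - y = d - 1 := by omega
    have e3 : (y + d - 1) % 2 = 1 := by omega
    have h3 := exists_pred_of_not_low hf (x := y + d - 1) (y := y) hab (by omega) (by omega)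
      (by omega) (by
        rw [e2, e3]
        exact hopen (d - 1) (by omega) (by omega) (by omega))
      (by
        intro r s hr hs
        exact hmax _ _ (by omega)) hz
    rcases h3 with h3 | h3 | h3
    · have e4 : y + d - 1 - 1 = y + (d - 2) := by omega
      rw [e4] at h3
      exact ih (d - 2) y (by omega) (by omega) hy hK hy2 h3
    · have := hf.down h (p := 0) (q := 0) (r := 1) (s := 1) (by omega) (by omega) (by omega)
        (by omega) (by omega) (by omega) (by omega) (by omega) (by omega)
      exact this h3
    · exact hf.not_allEven h3 ⟨ha, hb, by omega, by omega⟩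

/-- The lines of a type I strip. -/
theorem strip_X_one (hf : Rule f) {a b K S : ℕ} (hab : a ≤ b) (ha : a % 2 = 0) (hb : b % 2 = 0)
    (hls : LSK f a b K) (hO : Low a b 0 1)
    (hX : ∀ d : ℕ, d % 2 = 1 → d + 1 ≤ S → ¬ Low a b d 0)
    (hY : ∀ d x : ℕ, d % 2 = 1 → d + 1 ≤ S → x % 2 = 1 → K + 1 < x → S + 1 ≤ x →
      ¬ f a b x (x - d)) :
    ∀ n d y : ℕ, d = 2 * n + 1 → d + 1 ≤ S → y % 2 = 1 → K + 1 < y → S + 1 ≤ y →
      f a b (y + d) y := by
  intro n
  induction n with
  | zero =>
    intro d y hn hd hy hK hy2
    have hmax : ∀ u v : ℕ, y ≤ u + 1 → LS f a b u v := fun u v hu =>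
      hls u v (lt_of_lt_of_le (by omega) (le_max_left _ _))
    have hd1 : d = 1 := by omega
    subst hd1
    refine of_row_zero hf hab (by omega) (by omega) (by omega) ?_ ?_ ?_ ?_ ?_
    · have e1 : y + 1 - y = 1 := by omega
      have e2 : (y + 1) % 2 = 0 := by omega
      rw [e1, e2]
      exact hX 1 rfl (by omega)
    · intro r s hr hs
      exact hmax _ _ (by omega)
    · have e1 : y + 1 - 1 = y := by omega
      rw [e1]
      refine not_of_low hf hab le_rfl (by omega) ?_ ?_
      · rw [Nat.sub_self, hy]
        exact hO
      · intro r s hr hs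
        exact hmax _ _ (by omega)
    · intro h
      exact hf.not_allEven h ⟨ha, hb, by omega, by omega⟩
    · have := hY 1 y rfl (by omega) hy hK (by omega)
      have e1 : y + 1 - 1 = y := by omega
      rw [e1]
      exact this
  | succ n ih =>
    intro d y hn hd hy hK hy2
    have hmax : ∀ u v : ℕ, y ≤ u + 1 → LS f a b u v := fun u v hu =>
      hls u v (lt_of_lt_of_le (by omega) (le_max_left _ _))
    refine of_row_zero hf hab (by omega) (by omega) (by omega) ?_ ?_ ?_ ?_ ?_
    · have e1 : y + d - y = d := by omega
      have e2 : (y + d) % 2 = 0 := by omega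
      rw [e1, e2]
      exact hX d (by omega) (by omega)
    · intro r s hr hs
      exact hmax _ _ (by omega)
    · have h1 := ih (d - 2) y (by omega) (by omega) hy hK hy2
      have h2 := hf.up h1 (p := 0) (q := 0) (r := 1) (s := 0) (by omega) (by omega) (by omega)
        (by omega) (by omega)
      have e1 : y + (d - 2) + 1 = y + d - 1 := by omega
      rw [e1] at h2
      exact h2
    · intro h
      exact hf.not_allEven h ⟨ha, hb, by omega, by omega⟩
    · have := hY d (y + d - 1) (by omega) (by omega) (by omega) (by omega) (by omega)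
      have e1 : y + d - 1 - d = y - 1 := by omega
      rw [e1] at this
      exact this

/-- The lines of a type II strip. -/
theorem strip_Y_one (hf : Rule f) {a b K S : ℕ} (hab : a ≤ b) (ha : a % 2 = 0) (hb : b % 2 = 0)
    (hls : LSK f a b K) (hS : S % 2 = 0) (hO : Low a b S 1)
    (hY : ∀ d : ℕ, d % 2 = 1 → d + 1 ≤ S → ¬ Low a b d 1)
    (hX : ∀ d y : ℕ, d % 2 = 1 → d + 1 ≤ S → y % 2 = 1 → K + 1 < y → 1 < y →
      ¬ f a b (y + d) y) :
    ∀ n d x : ℕ, d + 2 * n + 1 = S → d % 2 = 1 → x % 2 = 1 → K + S + 1 < x → S + 4 ≤ x →
      f a b x (x - d) := by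
  intro n
  induction n with
  | zero =>
    intro d x hn hd hx hK hx2
    have hmax : ∀ u v : ℕ, x ≤ u + 2 → LS f a b u v := fun u v hu =>
      hls u v (lt_of_lt_of_le (by omega) (le_max_left _ _))
    refine of_row_zero hf hab (by omega) (by omega) (by omega) ?_ ?_ ?_ ?_ ?_
    · have e1 : x - (x - d) = d := by omega
      rw [e1, hx]
      exact hY d hd (by omega)
    · intro r s hr hs
      exact hmax _ _ (by omega)
    · intro h
      exact hf.not_allEven h ⟨ha, hb, by omega, by omega⟩
    · refine not_of_low hf hab (by omega) (by omega) ?_ ?_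
      · have e1 : x - (x - d - 1) = S := by omega
        rw [e1, hx]
        exact hO
      · intro r s hr hs
        exact hmax _ _ (by omega)
    · have := hX d (x - d - 1) hd (by omega) (by omega) (by omega) (by omega)
      have e1 : x - d - 1 + d = x - 1 := by omega
      rw [e1] at this
      exact this
  | succ n ih =>
    intro d x hn hd hx hK hx2
    have hmax : ∀ u v : ℕ, x ≤ u + 2 → LS f a b u v := fun u v hu =>
      hls u v (lt_of_lt_of_le (by omega) (le_max_left _ _))
    refine of_row_zero hf hab (by omega) (by omega) (by omega) ?_ ?_ ?_ ?_ ?_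
    · have e1 : x - (x - d) = d := by omega
      rw [e1, hx]
      exact hY d hd (by omega)
    · intro r s hr hs
      exact hmax _ _ (by omega)
    · intro h
      exact hf.not_allEven h ⟨ha, hb, by omega, by omega⟩
    · have h1 := ih (d + 2) x (by omega) (by omega) hx hK hx2
      have h2 := hf.up h1 (p := 0) (q := 0) (r := 0) (s := 1) (by omega) (by omega) (by omega)
        (by omega) (by omega)
      have e1 : x - (d + 2) + 1 = x - d - 1 := by omega
      rw [e1] at h2
      exact h2
    · have := hX d (x - d - 1) hd (by omega) (by omega) (by omega) (by omega)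
      have e1 : x - d - 1 + d = x - 1 := by omega
      rw [e1] at this
      exact this

/-- The ones `(odd, odd)` of the vacuum strips. -/
theorem strip_O_one (hf : Rule f) {a b K S : ℕ} (hab : a ≤ b) (ha : a % 2 = 0) (hb : b % 2 = 0)
    (hls : LSK f a b K)
    (hX : ∀ d y : ℕ, d % 2 = 1 → d + 1 ≤ S → y % 2 = 1 → K + 1 < y → 1 < y →
      ¬ f a b (y + d) y)
    (hY : ∀ d x : ℕ, d % 2 = 1 → d ≤ S + 1 → x % 2 = 1 → K + 1 < x → S + 3 ≤ x →
      ¬ f a b x (x - d)) :
    ∀ d y : ℕ, d % 2 = 0 → d ≤ S → ¬ Low a b d 1 → y % 2 = 1 → K + 1 < y → S + 3 ≤ y →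
      f a b (y + d) y := by
  intro d y hd hdS hl hy hK hy2
  refine of_row_zero hf hab (by omega) (by omega) (by omega) ?_ ?_ ?_ ?_ ?_
  · have e1 : y + d - y = d := by omega
    have e2 : (y + d) % 2 = 1 := by omega
    rw [e1, e2]
    exact hl
  · intro r s hr hs
    exact hls _ _ (lt_of_lt_of_le (by omega) (le_max_left _ _))
  · rcases Nat.eq_zero_or_pos d with h0 | h0
    · subst h0
      have := hY 1 y rfl (by omega) hy hK (by omega)
      rw [hf.swap_xy]
      exact this
    · have := hX (d - 1) y (by omega) (by omega) hy hK (by omega)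
      have e1 : y + (d - 1) = y + d - 1 := by omega
      rw [e1] at this
      exact this
  · have := hY (d + 1) (y + d) (by omega) (by omega) (by omega) (by omega) (by omega)
    have e1 : y + d - (d + 1) = y - 1 := by omega
    rw [e1] at this
    exact this
  · intro h
    exact hf.not_allEven h ⟨ha, hb, by omega, by omega⟩

end Pool.Agent.SNT
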