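import Pool.Agent.SNT.LimG

set_option autoImplicit false

/-! One row forcing, part F: the row predecessors of the ones outside the strips. -/

namespace Pool.Agent.SNT

/-- The ones which are not forced by the lower planes within one step. -/
def Exc (a b d : ℕ) : Prop :=
  (a % 2 = 0 ∧ b % 2 = 0 ∧ d + 1 ≤ 2 * (a / 6)) ∨
  (a = b ∧ 6 ≤ a ∧ (a % 6 = 2 ∨ a % 6 = 4) ∧ d ≤ 2 * (a / 6)) ∨
  (d = 0 ∧ 6 ≤ a ∧ b = a + 1 ∧ a % 6 = 2) ∨ (a = 4 ∧ b = 7 ∧ d = 0)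

theorem Exc.n0 {a b d : ℕ} (hx : ¬ Exc a b d) :
    ¬ (a % 2 = 0 ∧ b % 2 = 0 ∧ d + 1 ≤ 2 * (a / 6)) := fun h' => hx (Or.inl h')

theorem Exc.n1 {a b d : ℕ} (hx : ¬ Exc a b d) :
    a = b → (a % 6 = 2 ∨ a % 6 = 4) → 6 ≤ a → 2 * (a / 6) < d := by
  intro h1 h2 h3
  by_contra h4
  exact hx (Or.inr (Or.inl ⟨h1, h3, h2, by omega⟩))

theorem Exc.n2 {a b d : ℕ} (hx : ¬ Exc a b d) : ¬ (d = 0 ∧ 6 ≤ a ∧ b = a + 1 ∧ a % 6 = 2) :=
  fun h' => hx (Or.inr (Or.inr (Or.inl h')))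

theorem Exc.n3 {a b d : ℕ} (hx : ¬ Exc a b d) : ¬ (a = 4 ∧ b = 7 ∧ d = 0) :=
  fun h' => hx (Or.inr (Or.inr (Or.inr ⟨h'.1, h'.2.1, h'.2.2⟩)))

theorem row_pred_low {a b d e d' e' : ℕ} (hab : a ≤ b) (he : e ≤ 1) (hu : d < a + b)
    (h : FF a b d e) (hx : ¬ Exc a b d) (hc : CellMv d e d' e') :
    (a % 2 = 0 ∧ b % 2 = 0 ∧ d' % 2 = 0 ∧ e' = 0) ∨ Low a b d' e' ∨
      (a % 2 = 0 ∧ b % 2 = 0 ∧ d + 5 = a + b ∧ d' = d + 1 ∧ e' = 1 ∧ e = 1 ∧ 3 ≤ a) := by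
  have fin : ∀ D E : ℕ, (Low a b D E ∨ (a % 2 = 0 ∧ b % 2 = 0 ∧ D % 2 = 0 ∧ E = 0)) →
      (a % 2 = 0 ∧ b % 2 = 0 ∧ D % 2 = 0 ∧ E = 0) ∨ Low a b D E ∨
      (a % 2 = 0 ∧ b % 2 = 0 ∧ d + 5 = a + b ∧ D = d + 1 ∧ E = 1 ∧ e = 1 ∧ 3 ≤ a) := by
    intro D E hDE
    rcases hDE with h1 | h1
    · exact Or.inr (Or.inl h1)
    · exact Or.inl h1
  -- the three moves
  have hmv : (1 ≤ d ∧ d' = d - 1 ∧ e' = 1 - e) ∨ (d' = d + 1 ∧ e' = e) ∨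
      (d' = d ∧ e' = 1 - e) := by
    unfold CellMv at hc
    omega
  clear hc
  rcases h with h | h | h | h
  · rcases h with h | h | h | h | h | h
    · exfalso
      omega
    · obtain ⟨h1, h2, rfl, h4⟩ := h
      rcases hmv with ⟨h0, rfl, rfl⟩ | ⟨rfl, rfl⟩ | ⟨rfl, rfl⟩
      · exact fin _ _ (rp_11_x hab h1 h2 h4 h0)
      · exact fin _ _ (rp_11_y hab h1 h2 h4)
      · exact fin _ _ (rp_11_xy hab h1 h2 h4)
    · obtain ⟨h1, h2, rfl, h4⟩ := h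
      rcases hmv with ⟨h0, rfl, rfl⟩ | ⟨rfl, rfl⟩ | ⟨rfl, rfl⟩
      · exact fin _ _ (rp_12_x hab h1 h2 h4 h0)
      · exact fin _ _ (rp_12_y hab h1 h2 h4)
      · exact fin _ _ (rp_12_xy hab h1 h2 h4)
    · obtain ⟨h1, h2, rfl, h4, h5⟩ := h
      rcases hmv with ⟨h0, rfl, rfl⟩ | ⟨rfl, rfl⟩ | ⟨rfl, rfl⟩
      · exact fin _ _ (rp_13_x hab h1 h2 h4 h5 h0)
      · exact Or.inr (Or.inr ⟨h1, h2, by omega, rfl, rfl, rfl, h5⟩)
      · exact fin _ _ (rp_13_xy hab h1 h2 h4 h5)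
    · obtain ⟨h1, rfl, h4⟩ := h
      rcases Nat.eq_zero_or_pos (a % 2) with h2 | h2
      · have h3 : b % 2 = 1 := by omega
        rcases hmv with ⟨h0, rfl, rfl⟩ | ⟨rfl, rfl⟩ | ⟨rfl, rfl⟩
        · exact fin _ _ (rp_14e_x hab h2 h3 h4 h0)
        · exact fin _ _ (rp_14e_y hab h2 h3 h4)
        · exact fin _ _ (rp_14e_xy hab h2 h3 h4)
      · have h2' : a % 2 = 1 := by omega
        have h3 : b % 2 = 0 := by omega
        rcases hmv with ⟨h0, rfl, rfl⟩ | ⟨rfl, rfl⟩ | ⟨rfl, rfl⟩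
        · exact fin _ _ (rp_14o_x hab h2' h3 h4 h0)
        · exact fin _ _ (rp_14o_y hab h2' h3 h4)
        · exact fin _ _ (rp_14o_xy hab h2' h3 h4)
    · obtain ⟨h1, h2, rfl, h4, h5⟩ := h
      rcases hmv with ⟨h0, rfl, rfl⟩ | ⟨rfl, rfl⟩ | ⟨rfl, rfl⟩
      · exact fin _ _ (rp_15_x hab h1 h2 h4 h5 h0)
      · exact fin _ _ (rp_15_y hab h1 h2 h4 h5)
      · exact fin _ _ (rp_15_xy hab h1 h2 h4 h5)
  · obtain ⟨h8, h11, hFU, hq⟩ := h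
    rcases Nat.eq_zero_or_pos (a % 2) with ha | ha
    · rcases Nat.eq_zero_or_pos (b % 2) with hb | hb
      · rcases hq with ⟨hq, rfl⟩ | ⟨hq, rfl⟩ | ⟨hq, rfl⟩ <;>
          rcases hmv with ⟨h0, rfl, rfl⟩ | ⟨rfl, rfl⟩ | ⟨rfl, rfl⟩
        · exact fin _ _ (rp_2ee_x_4 hab ha hb h8 hq hFU (Exc.n1 hx) h0)
        · exact fin _ _ (rp_2ee_y_4 hab ha hb h8 hq hFU)
        · exact fin _ _ (rp_2ee_xy_4 hab ha hb h8 hq hFU)
        · exact fin _ _ (rp_2ee_x_8 hab ha hb h8 hq hFU (Exc.n1 hx) h0)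
        · exact fin _ _ (rp_2ee_y_8 hab ha hb h8 hq hFU)
        · exact fin _ _ (rp_2ee_xy_8 hab ha hb h8 hq hFU)
        · exact fin _ _ (rp_2ee_x_1 hab ha hb h8 hq hFU (Exc.n1 hx) h0)
        · exact fin _ _ (rp_2ee_y_1 hab ha hb h8 hq hFU)
        · exact fin _ _ (rp_2ee_xy_1 hab ha hb h8 hq hFU)
      · have hb' : b % 2 = 1 := by omega
        rcases hq with ⟨hq, rfl⟩ | ⟨hq, rfl⟩ | ⟨hq, rfl⟩ <;>
          rcases hmv with ⟨h0, rfl, rfl⟩ | ⟨rfl, rfl⟩ | ⟨rfl, rfl⟩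
        · exact fin _ _ (rp_2eo_x_4 hab ha hb' h8 hq hFU h0)
        · exact fin _ _ (rp_2eo_y_4 hab ha hb' h8 hq hFU)
        · exact fin _ _ (rp_2eo_xy_4 hab ha hb' h8 hq hFU)
        · exact fin _ _ (rp_2eo_x_8 hab ha hb' h8 hq hFU h0)
        · exact fin _ _ (rp_2eo_y_8 hab ha hb' h8 hq hFU)
        · exact fin _ _ (rp_2eo_xy_8 hab ha hb' h8 hq hFU)
        · exact fin _ _ (rp_2eo_x_1 hab ha hb' h8 hq hFU h0)
        · exact fin _ _ (rp_2eo_y_1 hab ha hb' h8 hq hFU)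
        · exact fin _ _ (rp_2eo_xy_1 hab ha hb' h8 hq hFU)
    · have ha' : a % 2 = 1 := by omega
      rcases Nat.eq_zero_or_pos (b % 2) with hb | hb
      · rcases hq with ⟨hq, rfl⟩ | ⟨hq, rfl⟩ | ⟨hq, rfl⟩ <;>
          rcases hmv with ⟨h0, rfl, rfl⟩ | ⟨rfl, rfl⟩ | ⟨rfl, rfl⟩
        · exact fin _ _ (rp_2oe_x_4 hab ha' hb h8 hq hFU h0)
        · exact fin _ _ (rp_2oe_y_4 hab ha' hb h8 hq hFU)
        · exact fin _ _ (rp_2oe_xy_4 hab ha' hb h8 hq hFU)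
        · exact fin _ _ (rp_2oe_x_8 hab ha' hb h8 hq hFU h0)
        · exact fin _ _ (rp_2oe_y_8 hab ha' hb h8 hq hFU)
        · exact fin _ _ (rp_2oe_xy_8 hab ha' hb h8 hq hFU)
        · exact fin _ _ (rp_2oe_x_1 hab ha' hb h8 hq hFU h0)
        · exact fin _ _ (rp_2oe_y_1 hab ha' hb h8 hq hFU)
        · exact fin _ _ (rp_2oe_xy_1 hab ha' hb h8 hq hFU)
      · have hb' : b % 2 = 1 := by omega
        have h11' : d + 11 ≤ a + b := by omega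
        rcases hq with ⟨hq, rfl⟩ | ⟨hq, rfl⟩ | ⟨hq, rfl⟩ <;>
          rcases hmv with ⟨h0, rfl, rfl⟩ | ⟨rfl, rfl⟩ | ⟨rfl, rfl⟩
        · exact fin _ _ (rp_2oo_x_4 hab ha' hb' h11' hq hFU h0)
        · exact fin _ _ (rp_2oo_y_4 hab ha' hb' h11' hq hFU)
        · exact fin _ _ (rp_2oo_xy_4 hab ha' hb' h11' hq hFU)
        · exact fin _ _ (rp_2oo_x_8 hab ha' hb' h11' hq hFU h0)
        · exact fin _ _ (rp_2oo_y_8 hab ha' hb' h11' hq hFU)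
        · exact fin _ _ (rp_2oo_xy_8 hab ha' hb' h11' hq hFU)
        · exact fin _ _ (rp_2oo_x_1 hab ha' hb' h11' hq hFU h0)
        · exact fin _ _ (rp_2oo_y_1 hab ha' hb' h11' hq hFU)
        · exact fin _ _ (rp_2oo_xy_1 hab ha' hb' h11' hq hFU)
  · rcases h with h | h | h | h
    · exfalso
      have := Exc.n0 hx
      omega
    · obtain ⟨ha, hb, h3, h4, h5, h6, h7⟩ := h
      have hk : 2 * (a / 6) + 1 ≤ d := by
        have := Exc.n0 hx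
        omega
      rcases (by omega : e = 0 ∨ e = 1) with rfl | rfl <;>
          rcases hmv with ⟨h0, rfl, rfl⟩ | ⟨rfl, rfl⟩ | ⟨rfl, rfl⟩
      · exact fin _ _ (rp_31_x_0 hab ha hb h4 hk h6 h7)
      · exact fin _ _ (rp_31_y_0 hab ha hb h4 hk h6 h7)
      · exact fin _ _ (rp_31_xy_0 hab ha hb h4 hk h6 h7)
      · exact fin _ _ (rp_31_x_1 hab ha hb h4 hk h6 h7)
      · exact fin _ _ (rp_31_y_1 hab ha hb h4 hk h6 h7)
      · exact fin _ _ (rp_31_xy_1 hab ha hb h4 hk h6 h7)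
    · obtain ⟨ha, hb, h4, h5, h6, h7⟩ := h
      rcases (by omega : e = 0 ∨ e = 1) with rfl | rfl
      · by_cases hu5 : d + 5 ≤ a + b
        · rcases hmv with ⟨h0, rfl, rfl⟩ | ⟨rfl, rfl⟩ | ⟨rfl, rfl⟩
          · exact fin _ _ (rp_32_x_0 hab ha hb h4 h5 h6 h7 hu5 (Exc.n3 hx) h0)
          · exact fin _ _ (rp_32_y_0 hab ha hb h4 h5 h6 h7 hu5 (Exc.n3 hx))
          · exact fin _ _ (rp_32_xy_0 hab ha hb h4 h5 h6 h7 hu5 (Exc.n3 hx))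
        · -- `a = 0`, `u = 1`
          have h8 : a + b = d + 1 := by
            unfold FT at h6
            omega
          rcases hmv with ⟨h0, rfl, rfl⟩ | ⟨rfl, rfl⟩ | ⟨rfl, rfl⟩
          · exact fin _ _ (rp_14e_x hab ha hb h8 h0)
          · exact fin _ _ (rp_14e_y hab ha hb h8)
          · exact fin _ _ (rp_14e_xy hab ha hb h8)
      · rcases hmv with ⟨h0, rfl, rfl⟩ | ⟨rfl, rfl⟩ | ⟨rfl, rfl⟩
        · exact fin _ _ (rp_32_x_1 hab ha hb h4 h5 h6 h7 (Exc.n3 hx) h0)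
        · exact fin _ _ (rp_32_y_1 hab ha hb h4 h5 h6 h7 (Exc.n3 hx))
        · exact fin _ _ (rp_32_xy_1 hab ha hb h4 h5 h6 h7 (Exc.n3 hx))
    · obtain ⟨ha, hb, h4, h5, h6, h7⟩ := h
      have h3 : a + 3 ≤ b := by
        have := Exc.n2 hx
        omega
      rcases (by omega : e = 0 ∨ e = 1) with rfl | rfl <;>
          rcases hmv with ⟨h0, rfl, rfl⟩ | ⟨rfl, rfl⟩ | ⟨rfl, rfl⟩
      · exfalso
        omega
      · exact fin _ _ (rp_33_y_0 hab ha hb h4 h5 h6 h3)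
      · exact fin _ _ (rp_33_xy_0 hab ha hb h4 h5 h6 h3)
      · exfalso
        omega
      · exact fin _ _ (rp_33_y_1 hab ha hb h4 h5 h6 h3)
      · exact fin _ _ (rp_33_xy_1 hab ha hb h4 h5 h6 h3)
  · rcases h with h | h | h | h
    · exfalso
      have := Exc.n1 hx h.1 (Or.inl h.2.1) (by omega)
      omega
    · exfalso
      have := Exc.n1 hx h.1 (Or.inr h.2.1) (by omega)
      omega
    · obtain ⟨h1, h2, rfl, h4, h5⟩ := h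
      rcases hmv with ⟨h0, rfl, rfl⟩ | ⟨rfl, rfl⟩ | ⟨rfl, rfl⟩
      · exfalso
        omega
      · exact fin _ _ (rp_42_y hab h1 h2 h4 h5)
      · exact fin _ _ (rp_42_xy hab h1 h2 h4 h5)
    · obtain ⟨h1, h2, rfl, h4⟩ := h
      rcases hmv with ⟨h0, rfl, rfl⟩ | ⟨rfl, rfl⟩ | ⟨rfl, rfl⟩
      · exfalso
        omega
      · exact fin _ _ (rp_43_y hab h1 h2 h4)
      · exact fin _ _ (rp_43_xy hab h1 h2 h4)

end Pool.Agent.SNT
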