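import Pool.Agent.SNT.LimC
import Pool.Agent.SNT.LimF

set_option autoImplicit false

/-! One row forcing, part D: ones and zeros outside the strips, cellwise. -/

namespace Pool.Agent.SNT

variable {f : ℕ → ℕ → ℕ → ℕ → Prop}

/-- A static one with all its row predecessors zero. -/
theorem one_of_row_zero (hf : Rule f) {a b x y : ℕ} (hab : a ≤ b) (hyx : y ≤ x) (hy : 1 ≤ y)
    (hF : FF a b (x - y) (x % 2)) (hls : ∀ r s, r ≤ 1 → s ≤ 1 → LS f a b (x - r) (y - s))
    (h1 : ¬ f a b (x - 1) y) (h2 : ¬ f a b x (y - 1)) (h3 : ¬ f a b (x - 1) (y - 1)) :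
    f a b x y := by
  refine of_row_zero hf hab hyx hy ?_ (not_low_of_FF hab (by omega) hF) hls h1 h2 h3
  intro h
  exact FF_not_even a b _ _ hab hF ⟨h.1, h.2.1, by omega, h.2.2.1⟩

/-- Row predecessors, general form: if the cell `(d', e')` is masked or low then `f` vanishes. -/
theorem not_of_masked_or_low (hf : Rule f) {a b x y : ℕ} (hab : a ≤ b) (hyx : y ≤ x) (hy : 1 ≤ y)
    (h : (a % 2 = 0 ∧ b % 2 = 0 ∧ (x - y) % 2 = 0 ∧ x % 2 = 0) ∨ Low a b (x - y) (x % 2))
    (hls : ∀ r s, r ≤ 1 → s ≤ 1 → LS f a b (x - r) (y - s)) : ¬ f a b x y := by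
  rcases h with h | h
  · intro h'
    exact hf.not_allEven h' ⟨h.1, h.2.1, h.2.2.2, by omega⟩
  · exact not_of_low hf hab hyx hy h hls

/-- Ones outside the exceptional set, the case `u = 5` excluded. -/
theorem E1_aux (hf : Rule f) {a b x y : ℕ} (hab : a ≤ b) (hyx : y ≤ x) (hy : 3 ≤ y)
    (hu : x < a + b + y) (hF : FF a b (x - y) (x % 2)) (hne : ¬ Exc a b (x - y))
    (h5 : ¬ (a % 2 = 0 ∧ b % 2 = 0 ∧ (x - y) + 5 = a + b ∧ x % 2 = 1 ∧ 3 ≤ a))
    (hls : ∀ i j, i ≤ 2 → j ≤ 2 → LS f a b (x - i) (y - j)) : f a b x y := by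
  have he : x % 2 ≤ 1 := by omega
  have hrow := fun d' e' => row_pred_low (d' := d') (e' := e') hab he (by omega) hF hne
  have hy1 : ¬ f a b x (y - 1) := by
    have h1 := hrow (x - (y - 1)) (x % 2) (by unfold CellMv; omega)
    refine not_of_masked_or_low hf hab (by omega) (by omega) ?_ ?_
    · rcases h1 with h1 | h1 | h1
      · exact Or.inl h1
      · exact Or.inr h1
      · exact absurd ⟨h1.1, h1.2.1, h1.2.2.1, h1.2.2.2.2.2.1, h1.2.2.2.2.2.2⟩ h5
    · intro r s hr hs
      have := hls r (1 + s) (by omega) (by omega)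
      rwa [← Nat.sub_sub] at this
  refine one_of_row_zero hf hab hyx (by omega) hF ?_ ?_ hy1 ?_
  · intro r s hr hs
    exact hls r s (by omega) (by omega)
  · rcases Nat.eq_or_lt_of_le hyx with h0 | h0
    · subst h0
      rw [hf.swap_xy]
      exact hy1
    · have h1 := hrow ((x - 1) - y) ((x - 1) % 2) (by unfold CellMv; omega)
      refine not_of_masked_or_low hf hab (by omega) (by omega) ?_ ?_
      · rcases h1 with h1 | h1 | h1
        · exact Or.inl h1
        · exact Or.inr h1
        · exact absurd h1.2.2.2.1 (by omega)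
      · intro r s hr hs
        have := hls (1 + r) s (by omega) (by omega)
        rwa [← Nat.sub_sub] at this
  · have h1 := hrow ((x - 1) - (y - 1)) ((x - 1) % 2) (by unfold CellMv; omega)
    refine not_of_masked_or_low hf hab (by omega) (by omega) ?_ ?_
    · rcases h1 with h1 | h1 | h1
      · exact Or.inl h1
      · exact Or.inr h1
      · exact absurd h1.2.2.2.1 (by omega)
    · intro r s hr hs
      have := hls (1 + r) (1 + s) (by omega) (by omega)
      rwa [← Nat.sub_sub, ← Nat.sub_sub] at this

/-- Ones outside the exceptional set. -/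
theorem E1 (hf : Rule f) {a b x y : ℕ} (hab : a ≤ b) (hyx : y ≤ x) (hy : 5 ≤ y)
    (hF : FF a b (x - y) (x % 2)) (hne : ¬ Exc a b (x - y))
    (hls : ∀ i j, i ≤ 2 → j ≤ 4 → LS f a b (x - i) (y - j)) : f a b x y := by
  rcases Nat.lt_or_ge x (a + b + y) with hu | hu
  · by_cases h5 : a % 2 = 0 ∧ b % 2 = 0 ∧ (x - y) + 5 = a + b ∧ x % 2 = 1 ∧ 3 ≤ a
    · obtain ⟨ha, hb, h5, hx, ha3⟩ := h5
      -- the one at `u = 3`
      have h3 : f a b x (y - 2) := by
        refine E1_aux hf hab (by omega) (by omega) (by omega) ?_ ?_ (by omega) ?_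
        · refine Or.inl (Or.inr (Or.inr (Or.inl ?_)))
          omega
        · unfold Exc
          omega
        · intro i j hi hj
          have := hls i (2 + j) (by omega) (by omega)
          rwa [← Nat.sub_sub] at this
      have hy1 : ¬ f a b x (y - 1) := by
        have := hf.up h3 (p := 0) (q := 0) (r := 0) (s := 1) (by omega) (by omega) (by omega)
          (by omega) (by omega)
        have e1 : y - 2 + 1 = y - 1 := by omega
        rw [e1] at this
        exact this
      have he : x % 2 ≤ 1 := by omega
      have hrow := fun d' e' => row_pred_low (d' := d') (e' := e') hab he (by omega) hF hne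
      refine one_of_row_zero hf hab hyx (by omega) hF ?_ ?_ hy1 ?_
      · intro r s hr hs
        exact hls r s (by omega) (by omega)
      · have h1 := hrow ((x - 1) - y) ((x - 1) % 2) (by unfold CellMv; omega)
        refine not_of_masked_or_low hf hab (by omega) (by omega) ?_ ?_
        · rcases h1 with h1 | h1 | h1
          · exact Or.inl h1
          · exact Or.inr h1
          · exact absurd h1.2.2.2.1 (by omega)
        · intro r s hr hs
          have := hls (1 + r) s (by omega) (by omega)
          rwa [← Nat.sub_sub] at this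
      · have h1 := hrow ((x - 1) - (y - 1)) ((x - 1) % 2) (by unfold CellMv; omega)
        refine not_of_masked_or_low hf hab (by omega) (by omega) ?_ ?_
        · rcases h1 with h1 | h1 | h1
          · exact Or.inl h1
          · exact Or.inr h1
          · exact absurd h1.2.2.2.1 (by omega)
        · intro r s hr hs
          have := hls (1 + r) (1 + s) (by omega) (by omega)
          rwa [← Nat.sub_sub, ← Nat.sub_sub] at this
    · refine E1_aux hf hab hyx (by omega) hu hF hne h5 ?_
      intro i j hi hj
      exact hls i j hi (by omega)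
  · -- `u ≤ 0`
    rcases Nat.lt_or_ge (a + b + y) x with hu2 | hu2
    · rw [hf.far a b x y (by omega)]
      have hd : a + b < x - y := by omega
      rcases hF with hF | hF | hF | hF
      · rcases hF with hF | hF | hF | hF | hF | hF <;> omega
      · exact absurd hF.1 (by omega)
      · unfold FF3 FT at hF
        omega
      · unfold FF4 at hF
        omega
    · exfalso
      have hd : a + b = x - y := by omega
      rcases hF with hF | hF | hF | hF
      · rcases hF with hF | hF | hF | hF | hF | hF <;> omega
      · exact absurd hF.1 (by omega)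
      · unfold FF3 FT at hF
        omega
      · unfold FF4 at hF
        omega

/-- The centres of the planes `(6 k + 2, 6 k + 3)` and `(4, 7)`. -/
theorem E1_centre (hf : Rule f) {a b x : ℕ}
    (hc : (b = a + 1 ∧ a % 6 = 2 ∧ 6 ≤ a) ∨ (a = 4 ∧ b = 7)) (hx : 5 ≤ x) (hx2 : x % 2 = 1)
    (hF : FF a b 0 1)
    (hls : ∀ i j, i ≤ 3 → j ≤ 4 → LS f a b (x - i) (x - j)) : f a b x x := by
  have hab : a ≤ b := by omega
  have hY : ¬ f a b x (x - 1) := by
    refine not_of_low hf hab (by omega) (by omega) ?_ ?_
    · have e1 : x - (x - 1) = 1 := by omega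
      rw [e1, hx2]
      exact low_centre_Y hc
    · intro r s hr hs
      have := hls r (1 + s) (by omega) (by omega)
      rwa [← Nat.sub_sub] at this
  refine one_of_row_zero hf hab le_rfl (by omega) ?_ ?_ ?_ hY ?_
  · rw [Nat.sub_self, hx2]
    exact hF
  · intro r s hr hs
    exact hls r s (by omega) (by omega)
  · rw [hf.swap_xy]
    exact hY
  · intro h
    -- the cell `(z, z - 1)`, `z = x - 1`
    have hz : ¬ f a b (x - 1) (x - 1 - 1) := by
      have := hf.down h (p := 0) (q := 0) (r := 0) (s := 1) (by omega) (by omega) (by omega)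
        (by omega) (by omega) (by omega) (by omega) (by omega) (by omega)
      exact this
    have e1 : x - 1 - (x - 1 - 1) = 1 := by omega
    have e2 : (x - 1) % 2 = 0 := by omega
    have h3 := exists_pred_of_not_low hf (x := x - 1) (y := x - 1 - 1) hab (by omega) (by omega)
      (by omega) (by
        rw [e1, e2]
        exact open_centre hc) (by
        intro r s hr hs
        have := hls (1 + r) (1 + (1 + s)) (by omega) (by omega)
        rwa [← Nat.sub_sub, ← Nat.sub_sub, ← Nat.sub_sub] at this) hz
    rcases h3 with h3 | h3 | h3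
    · have := hf.down h (p := 0) (q := 0) (r := 1) (s := 1) (by omega) (by omega) (by omega)
        (by omega) (by omega) (by omega) (by omega) (by omega) (by omega)
      exact this h3
    · refine not_of_low hf (x := x - 1) (y := x - 1 - 1 - 1) hab (by omega) (by omega) ?_ ?_ h3
      · have e3 : x - 1 - (x - 1 - 1 - 1) = 2 := by omega
        rw [e3, e2]
        exact low_centre_E hc
      · intro r s hr hs
        have := hls (1 + r) (1 + (1 + (1 + s))) (by omega) (by omega)
        rwa [← Nat.sub_sub, ← Nat.sub_sub, ← Nat.sub_sub, ← Nat.sub_sub] at this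
    · refine not_of_low hf (x := x - 1 - 1) (y := x - 1 - 1 - 1) hab (by omega) (by omega)
        ?_ ?_ h3
      · have e3 : x - 1 - 1 - (x - 1 - 1 - 1) = 1 := by omega
        have e4 : (x - 1 - 1) % 2 = 1 := by omega
        rw [e3, e4]
        exact low_centre_Y hc
      · intro r s hr hs
        have := hls (1 + (1 + r)) (1 + (1 + (1 + s))) (by omega) (by omega)
        rwa [← Nat.sub_sub, ← Nat.sub_sub, ← Nat.sub_sub, ← Nat.sub_sub, ← Nat.sub_sub] at this

end Pool.Agent.SNT
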