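import Pool.Agent.SNT.LimB

set_option autoImplicit false
set_option linter.unusedVariables false

/-! One row forcing: explicit static ones below the row predecessors of the static ones
outside the strips (generated table, part 5). -/

namespace Pool.Agent.SNT

theorem rp_31_x_0 {a b d : ℕ} (hab : a ≤ b)
    (ha : a % 2 = 0)
    (hb : b % 2 = 0)
    (hd1 : d % 2 = 1)
    (hk : 2 * (a / 6) + 1 ≤ d)
    (hT : FT a (b - a) d)
    (h4 : (a + b + 0 + 3 * d) % 4 = (1 + 2 * (a / 6)) % 4) :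
    Low a b (d - 1) 1 ∨ (a % 2 = 0 ∧ b % 2 = 0 ∧ (d - 1) % 2 = 0 ∧ 1 = 0) := by
  unfold FT at hT
  exact Or.inl ⟨a, b - 1, d - 1, 0, by unfold RowLow; omega, by unfold CellStep; omega,
        Or.inr (Or.inr (Or.inl (Or.inr (Or.inr (Or.inl ⟨by omega, by omega, by omega, by omega, by unfold FT; omega, by omega⟩)))))⟩

theorem rp_31_x_1 {a b d : ℕ} (hab : a ≤ b)
    (ha : a % 2 = 0)
    (hb : b % 2 = 0)
    (hd1 : d % 2 = 1)
    (hk : 2 * (a / 6) + 1 ≤ d)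
    (hT : FT a (b - a) d)
    (h4 : (a + b + 2 + 3 * d) % 4 = (1 + 2 * (a / 6)) % 4) :
    Low a b (d - 1) 0 ∨ (a % 2 = 0 ∧ b % 2 = 0 ∧ (d - 1) % 2 = 0 ∧ 0 = 0) := by
  exact Or.inr (by omega)

theorem rp_31_xy_0 {a b d : ℕ} (hab : a ≤ b)
    (ha : a % 2 = 0)
    (hb : b % 2 = 0)
    (hd1 : d % 2 = 1)
    (hk : 2 * (a / 6) + 1 ≤ d)
    (hT : FT a (b - a) d)
    (h4 : (a + b + 0 + 3 * d) % 4 = (1 + 2 * (a / 6)) % 4) :
    Low a b (d) 1 ∨ (a % 2 = 0 ∧ b % 2 = 0 ∧ (d) % 2 = 0 ∧ 1 = 0) := by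
  unfold FT at hT
  exact Or.inl ⟨a, b - 1, d - 1, 0, by unfold RowLow; omega, by unfold CellStep; omega,
        Or.inr (Or.inr (Or.inl (Or.inr (Or.inr (Or.inl ⟨by omega, by omega, by omega, by omega, by unfold FT; omega, by omega⟩)))))⟩

theorem rp_31_xy_1 {a b d : ℕ} (hab : a ≤ b)
    (ha : a % 2 = 0)
    (hb : b % 2 = 0)
    (hd1 : d % 2 = 1)
    (hk : 2 * (a / 6) + 1 ≤ d)
    (hT : FT a (b - a) d)
    (h4 : (a + b + 2 + 3 * d) % 4 = (1 + 2 * (a / 6)) % 4) :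
    Low a b (d) 0 ∨ (a % 2 = 0 ∧ b % 2 = 0 ∧ (d) % 2 = 0 ∧ 0 = 0) := by
  unfold FT at hT
  exact Or.inl ⟨a, b - 1, d - 1, 1, by unfold RowLow; omega, by unfold CellStep; omega,
        Or.inr (Or.inr (Or.inl (Or.inr (Or.inr (Or.inl ⟨by omega, by omega, by omega, by omega, by unfold FT; omega, by omega⟩)))))⟩

theorem rp_31_y_0 {a b d : ℕ} (hab : a ≤ b)
    (ha : a % 2 = 0)
    (hb : b % 2 = 0)
    (hd1 : d % 2 = 1)
    (hk : 2 * (a / 6) + 1 ≤ d)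
    (hT : FT a (b - a) d)
    (h4 : (a + b + 0 + 3 * d) % 4 = (1 + 2 * (a / 6)) % 4) :
    Low a b (d + 1) 0 ∨ (a % 2 = 0 ∧ b % 2 = 0 ∧ (d + 1) % 2 = 0 ∧ 0 = 0) := by
  exact Or.inr (by omega)

theorem rp_31_y_1 {a b d : ℕ} (hab : a ≤ b)
    (ha : a % 2 = 0)
    (hb : b % 2 = 0)
    (hd1 : d % 2 = 1)
    (hk : 2 * (a / 6) + 1 ≤ d)
    (hT : FT a (b - a) d)
    (h4 : (a + b + 2 + 3 * d) % 4 = (1 + 2 * (a / 6)) % 4) :
    Low a b (d + 1) 1 ∨ (a % 2 = 0 ∧ b % 2 = 0 ∧ (d + 1) % 2 = 0 ∧ 1 = 0) := by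
  unfold FT at hT
  by_cases h0 : (a % 6 = 0 ∨ a = 2) ∨ d + 5 ≤ (b - a) + 2 * (a / 6)
  · exact Or.inl ⟨a, b - 1, d + 1, 0, by unfold RowLow; omega, by unfold CellStep; omega,
          Or.inr (Or.inr (Or.inl (Or.inr (Or.inr (Or.inl ⟨by omega, by omega, by omega, by omega, by unfold FT; omega, by omega⟩)))))⟩
  · have h5 : d + 3 = (b - a) + 2 * (a / 6) := by omega
    obtain ⟨k, hk6⟩ : ∃ k, a / 6 = k := ⟨_, rfl⟩
    rw [hk6] at h5 h0 hT hk h4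
    clear hT
    rcases (by omega : a = 6 * k + 2 ∨ a = 6 * k + 4) with h1 | h1
    · have hk1 : 1 ≤ k := by omega
      clear h0 hk6
      exact Or.inl ⟨a, b - 1, d + 2, 1, by unfold RowLow; omega, by unfold CellStep; omega,
            Or.inr (Or.inl ⟨by omega, by omega, Or.inr (Or.inr (Or.inl (by omega))), by omega⟩)⟩
    · clear h0 hk6
      exact Or.inl ⟨a, b - 1, d + 2, 1, by unfold RowLow; omega, by unfold CellStep; omega,
            Or.inr (Or.inl ⟨by omega, by omega, Or.inr (Or.inr (Or.inr (Or.inr (Or.inl (by omega))))), by omega⟩)⟩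

theorem rp_32_x_0 {a b d : ℕ} (hab : a ≤ b)
    (ha : a % 2 = 0)
    (hb : b % 2 = 1)
    (hd1 : d % 2 = 0)
    (hk : 2 * (a / 6) ≤ d)
    (hT : FT a (b - a) d)
    (h4 : (a + b + 0 + 3 * d) % 4 = (1 + 2 * (a / 6)) % 4)
    (hu : d + 5 ≤ a + b)
    (hx : ¬ (a = 4 ∧ b = 7 ∧ d = 0))
    (hd : 1 ≤ d) :
    Low a b (d - 1) 1 ∨ (a % 2 = 0 ∧ b % 2 = 0 ∧ (d - 1) % 2 = 0 ∧ 1 = 0) := by
  unfold FT at hT
  exact Or.inl ⟨a, b - 1, d - 1, 0, by unfold RowLow; omega, by unfold CellStep; omega,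
        Or.inr (Or.inr (Or.inl (Or.inr (Or.inl ⟨by omega, by omega, by omega, by omega, by omega, by unfold FT; omega, by omega⟩))))⟩

theorem rp_32_xy_0 {a b d : ℕ} (hab : a ≤ b)
    (ha : a % 2 = 0)
    (hb : b % 2 = 1)
    (hd1 : d % 2 = 0)
    (hk : 2 * (a / 6) ≤ d)
    (hT : FT a (b - a) d)
    (h4 : (a + b + 0 + 3 * d) % 4 = (1 + 2 * (a / 6)) % 4)
    (hu : d + 5 ≤ a + b)
    (hx : ¬ (a = 4 ∧ b = 7 ∧ d = 0)) :
    Low a b (d) 1 ∨ (a % 2 = 0 ∧ b % 2 = 0 ∧ (d) % 2 = 0 ∧ 1 = 0) := by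
  unfold FT at hT
  rcases Nat.eq_zero_or_pos d with h0 | h0
  · by_cases h1 : a = 2 ∧ b = 3
    · obtain ⟨h2, h3⟩ := h1
      exact Or.inl ⟨a, b - 1, d + 1, 1, by unfold RowLow; omega, by unfold CellStep; omega,
            Or.inl (Or.inr (Or.inr (Or.inl (by omega))))⟩
    · exact Or.inl ⟨a, b - 1, d + 1, 1, by unfold RowLow; omega, by unfold CellStep; omega,
            Or.inr (Or.inr (Or.inl (Or.inr (Or.inl ⟨by omega, by omega, by omega, by omega, by omega, by unfold FT; omega, by omega⟩))))⟩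
  · exact Or.inl ⟨a, b - 1, d - 1, 0, by unfold RowLow; omega, by unfold CellStep; omega,
          Or.inr (Or.inr (Or.inl (Or.inr (Or.inl ⟨by omega, by omega, by omega, by omega, by omega, by unfold FT; omega, by omega⟩))))⟩

theorem rp_32_x_1 {a b d : ℕ} (hab : a ≤ b)
    (ha : a % 2 = 0)
    (hb : b % 2 = 1)
    (hd1 : d % 2 = 0)
    (hk : 2 * (a / 6) ≤ d)
    (hT : FT a (b - a) d)
    (h4 : (a + b + 2 + 3 * d) % 4 = (1 + 2 * (a / 6)) % 4)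
    (hx : ¬ (a = 4 ∧ b = 7 ∧ d = 0))
    (hd : 1 ≤ d) :
    Low a b (d - 1) 0 ∨ (a % 2 = 0 ∧ b % 2 = 0 ∧ (d - 1) % 2 = 0 ∧ 0 = 0) := by
  unfold FT at hT
  exact Or.inl ⟨a, b - 1, d - 1, 1, by unfold RowLow; omega, by unfold CellStep; omega,
        Or.inr (Or.inr (Or.inl (Or.inr (Or.inl ⟨by omega, by omega, by omega, by omega, by omega, by unfold FT; omega, by omega⟩))))⟩

theorem rp_32_xy_1 {a b d : ℕ} (hab : a ≤ b)
    (ha : a % 2 = 0)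
    (hb : b % 2 = 1)
    (hd1 : d % 2 = 0)
    (hk : 2 * (a / 6) ≤ d)
    (hT : FT a (b - a) d)
    (h4 : (a + b + 2 + 3 * d) % 4 = (1 + 2 * (a / 6)) % 4)
    (hx : ¬ (a = 4 ∧ b = 7 ∧ d = 0)) :
    Low a b (d) 0 ∨ (a % 2 = 0 ∧ b % 2 = 0 ∧ (d) % 2 = 0 ∧ 0 = 0) := by
  unfold FT at hT
  rcases Nat.eq_zero_or_pos d with h0 | h0
  · exact Or.inl ⟨a, b - 1, d + 1, 0, by unfold RowLow; omega, by unfold CellStep; omega,
          Or.inr (Or.inr (Or.inl (Or.inr (Or.inl ⟨by omega, by omega, by omega, by omega, by omega, by unfold FT; omega, by omega⟩))))⟩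
  · exact Or.inl ⟨a, b - 1, d - 1, 1, by unfold RowLow; omega, by unfold CellStep; omega,
          Or.inr (Or.inr (Or.inl (Or.inr (Or.inl ⟨by omega, by omega, by omega, by omega, by omega, by unfold FT; omega, by omega⟩))))⟩

theorem rp_32_y_0 {a b d : ℕ} (hab : a ≤ b)
    (ha : a % 2 = 0)
    (hb : b % 2 = 1)
    (hd1 : d % 2 = 0)
    (hk : 2 * (a / 6) ≤ d)
    (hT : FT a (b - a) d)
    (h4 : (a + b + 0 + 3 * d) % 4 = (1 + 2 * (a / 6)) % 4)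
    (hu : d + 5 ≤ a + b)
    (hx : ¬ (a = 4 ∧ b = 7 ∧ d = 0)) :
    Low a b (d + 1) 0 ∨ (a % 2 = 0 ∧ b % 2 = 0 ∧ (d + 1) % 2 = 0 ∧ 0 = 0) := by
  unfold FT at hT
  by_cases h0 : (a % 6 = 0 ∨ a = 2) ∧ (b - a) + 2 * (a / 6) < d + 3
  · rcases (by omega : (a % 6 = 0 ∧ 6 ≤ a) ∨ a = 2) with h1 | h1
    · exact Or.inl ⟨a - 1, b - 1, d + 1, 1, by unfold RowLow; omega, by unfold CellStep; omega,
            Or.inr (Or.inl ⟨by omega, by omega, Or.inr (Or.inr (Or.inr (Or.inr (Or.inr (by omega))))), by omega⟩)⟩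
    · exact Or.inl ⟨a - 1, b - 1, d + 2, 0, by unfold RowLow; omega, by unfold CellStep; omega,
            Or.inl (Or.inr (Or.inr (Or.inr (Or.inr (Or.inl (by omega))))))⟩
  · exact Or.inl ⟨a, b - 1, d + 1, 1, by unfold RowLow; omega, by unfold CellStep; omega,
          Or.inr (Or.inr (Or.inl (Or.inr (Or.inl ⟨by omega, by omega, by omega, by omega, by omega, by unfold FT; omega, by omega⟩))))⟩

theorem rp_32_y_1 {a b d : ℕ} (hab : a ≤ b)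
    (ha : a % 2 = 0)
    (hb : b % 2 = 1)
    (hd1 : d % 2 = 0)
    (hk : 2 * (a / 6) ≤ d)
    (hT : FT a (b - a) d)
    (h4 : (a + b + 2 + 3 * d) % 4 = (1 + 2 * (a / 6)) % 4)
    (hx : ¬ (a = 4 ∧ b = 7 ∧ d = 0)) :
    Low a b (d + 1) 1 ∨ (a % 2 = 0 ∧ b % 2 = 0 ∧ (d + 1) % 2 = 0 ∧ 1 = 0) := by
  unfold FT at hT
  by_cases h0 : (a % 6 = 0 ∨ a = 2) ∨ d + 5 ≤ (b - a) + 2 * (a / 6)
  · exact Or.inl ⟨a, b - 1, d + 1, 0, by unfold RowLow; omega, by unfold CellStep; omega,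
          Or.inr (Or.inr (Or.inl (Or.inr (Or.inl ⟨by omega, by omega, by omega, by omega, by omega, by unfold FT; omega, by omega⟩))))⟩
  · have h5 : d + 3 = (b - a) + 2 * (a / 6) := by omega
    obtain ⟨k, hk6⟩ : ∃ k, a / 6 = k := ⟨_, rfl⟩
    rw [hk6] at h5 h0 hT hk h4
    clear hT
    rcases (by omega : a = 6 * k + 2 ∨ a = 6 * k + 4) with h1 | h1
    · have hk1 : 1 ≤ k := by omega
      clear h0 hk6
      exact Or.inl ⟨a, b - 1, d + 2, 1, by unfold RowLow; omega, by unfold CellStep; omega,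
            Or.inr (Or.inl ⟨by omega, by omega, Or.inr (Or.inr (Or.inl (by omega))), by omega⟩)⟩
    · clear h0 hk6
      exact Or.inl ⟨a, b - 1, d + 2, 1, by unfold RowLow; omega, by unfold CellStep; omega,
            Or.inr (Or.inl ⟨by omega, by omega, Or.inr (Or.inr (Or.inr (Or.inr (Or.inl (by omega))))), by omega⟩)⟩

theorem rp_33_xy_0 {a b d : ℕ} (hab : a ≤ b)
    (ha : a % 2 = 0)
    (hb : b % 2 = 1)
    (hd0 : d = 0)
    (h6 : 6 ≤ a)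
    (h4 : (a + b + 0) % 4 = 3)
    (h3 : a + 3 ≤ b) :
    Low a b (d) 1 ∨ (a % 2 = 0 ∧ b % 2 = 0 ∧ (d) % 2 = 0 ∧ 1 = 0) := by
  exact Or.inl ⟨a, b - 1, d + 1, 1, by unfold RowLow; omega, by unfold CellStep; omega,
        Or.inr (Or.inr (Or.inl (Or.inl (by omega))))⟩

theorem rp_33_y_0 {a b d : ℕ} (hab : a ≤ b)
    (ha : a % 2 = 0)
    (hb : b % 2 = 1)
    (hd0 : d = 0)
    (h6 : 6 ≤ a)
    (h4 : (a + b + 0) % 4 = 3)
    (h3 : a + 3 ≤ b) :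
    Low a b (d + 1) 0 ∨ (a % 2 = 0 ∧ b % 2 = 0 ∧ (d + 1) % 2 = 0 ∧ 0 = 0) := by
  exact Or.inl ⟨a, b - 1, d + 1, 1, by unfold RowLow; omega, by unfold CellStep; omega,
        Or.inr (Or.inr (Or.inl (Or.inl (by omega))))⟩

theorem rp_33_xy_1 {a b d : ℕ} (hab : a ≤ b)
    (ha : a % 2 = 0)
    (hb : b % 2 = 1)
    (hd0 : d = 0)
    (h6 : 6 ≤ a)
    (h4 : (a + b + 2) % 4 = 3)
    (h3 : a + 3 ≤ b) :
    Low a b (d) 0 ∨ (a % 2 = 0 ∧ b % 2 = 0 ∧ (d) % 2 = 0 ∧ 0 = 0) := by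
  exact Or.inl ⟨a, b - 1, d + 1, 0, by unfold RowLow; omega, by unfold CellStep; omega,
        Or.inr (Or.inr (Or.inl (Or.inl (by omega))))⟩

theorem rp_33_y_1 {a b d : ℕ} (hab : a ≤ b)
    (ha : a % 2 = 0)
    (hb : b % 2 = 1)
    (hd0 : d = 0)
    (h6 : 6 ≤ a)
    (h4 : (a + b + 2) % 4 = 3)
    (h3 : a + 3 ≤ b) :
    Low a b (d + 1) 1 ∨ (a % 2 = 0 ∧ b % 2 = 0 ∧ (d + 1) % 2 = 0 ∧ 1 = 0) := by
  exact Or.inl ⟨a, b - 1, d + 1, 0, by unfold RowLow; omega, by unfold CellStep; omega,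
        Or.inr (Or.inr (Or.inl (Or.inl (by omega))))⟩

theorem rp_42_xy {a b d : ℕ} (hab : a ≤ b)
    (h0 : a = b)
    (hr : a % 6 = 1)
    (hd0 : d = 0)
    (h6 : 6 ≤ a) :
    Low a b (d) 0 ∨ (a % 2 = 0 ∧ b % 2 = 0 ∧ (d) % 2 = 0 ∧ 0 = 0) := by
  exact Or.inl ⟨a - 1, b - 1, d + 1, 0, by unfold RowLow; omega, by unfold CellStep; omega,
        Or.inr (Or.inr (Or.inl (Or.inl (by omega))))⟩

theorem rp_42_y {a b d : ℕ} (hab : a ≤ b)
    (h0 : a = b)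
    (hr : a % 6 = 1)
    (hd0 : d = 0)
    (h6 : 6 ≤ a) :
    Low a b (d + 1) 1 ∨ (a % 2 = 0 ∧ b % 2 = 0 ∧ (d + 1) % 2 = 0 ∧ 1 = 0) := by
  exact Or.inl ⟨a - 1, b - 1, d + 1, 0, by unfold RowLow; omega, by unfold CellStep; omega,
        Or.inr (Or.inr (Or.inl (Or.inl (by omega))))⟩

theorem rp_43_xy {a b d : ℕ} (hab : a ≤ b)
    (h0 : b = a + 1)
    (hr : a % 6 = 5)
    (hd0 : d = 0) :
    Low a b (d) 1 ∨ (a % 2 = 0 ∧ b % 2 = 0 ∧ (d) % 2 = 0 ∧ 1 = 0) := by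
  by_cases h6 : 6 ≤ a
  · exact Or.inl ⟨a - 1, b, d + 1, 1, by unfold RowLow; omega, by unfold CellStep; omega,
          Or.inr (Or.inr (Or.inl (Or.inl (by omega))))⟩
  · exact Or.inl ⟨a - 1, b - 1, d + 1, 1, by unfold RowLow; omega, by unfold CellStep; omega,
          Or.inr (Or.inl ⟨by omega, by omega, Or.inr (Or.inr (Or.inr (Or.inr (Or.inl (by omega))))), by omega⟩)⟩

theorem rp_43_y {a b d : ℕ} (hab : a ≤ b)
    (h0 : b = a + 1)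
    (hr : a % 6 = 5)
    (hd0 : d = 0) :
    Low a b (d + 1) 0 ∨ (a % 2 = 0 ∧ b % 2 = 0 ∧ (d + 1) % 2 = 0 ∧ 0 = 0) := by
  by_cases h6 : 6 ≤ a
  · exact Or.inl ⟨a - 1, b, d + 1, 1, by unfold RowLow; omega, by unfold CellStep; omega,
          Or.inr (Or.inr (Or.inl (Or.inl (by omega))))⟩
  · exact Or.inl ⟨a - 1, b - 1, d + 1, 1, by unfold RowLow; omega, by unfold CellStep; omega,
          Or.inr (Or.inl ⟨by omega, by omega, Or.inr (Or.inr (Or.inr (Or.inr (Or.inl (by omega))))), by omega⟩)⟩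

end Pool.Agent.SNT
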