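import Pool.Agent.SNT.LimG1
import Pool.Agent.SNT.LimG2
import Pool.Agent.SNT.LimG3
import Pool.Agent.SNT.LimG4
import Pool.Agent.SNT.LimG5

/-! One row forcing: explicit static ones below the row predecessors of the static ones
outside the strips (generated table, all parts). -/
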