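import Pool.Agent.SNT.LimB

set_option autoImplicit false
set_option linter.unusedVariables false

/-! One row forcing: explicit static ones below the row predecessors of the static ones
outside the strips (generated table, part 1b). -/

namespace Pool.Agent.SNT

theorem rp_2ee_xy_1 {a b d : ℕ} (hab : a ≤ b)
    (ha : a % 2 = 0)
    (hb : b % 2 = 0)
    (h8 : d + 8 ≤ a + b)
    (hq : (a + b - d) % 10 = 1)
    (hFU : FU a (a + b - d)) :
    Low a b (d) 1 ∨ (a % 2 = 0 ∧ b % 2 = 0 ∧ (d) % 2 = 0 ∧ 1 = 0) := by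
  unfold FU at hFU
  rcases hFU with hF | hF | hF | hF | hF | hF
  · exact Or.inl ⟨a - 1, b, d - 1, 0, by unfold RowLow; omega, by unfold CellStep; omega,
          Or.inr (Or.inl ⟨by omega, by omega, Or.inr (Or.inr (Or.inr (Or.inr (Or.inr (by omega))))), by omega⟩)⟩
  · exfalso; omega
  · exact Or.inl ⟨a - 1, b, d - 1, 0, by unfold RowLow; omega, by unfold CellStep; omega,
          Or.inr (Or.inl ⟨by omega, by omega, Or.inr (Or.inl (by omega)), by omega⟩)⟩
  · exfalso; omega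
  · exact Or.inl ⟨a - 1, b, d - 1, 0, by unfold RowLow; omega, by unfold CellStep; omega,
          Or.inr (Or.inl ⟨by omega, by omega, Or.inr (Or.inr (Or.inr (Or.inl (by omega)))), by omega⟩)⟩
  · exfalso; omega

theorem rp_2ee_xy_4 {a b d : ℕ} (hab : a ≤ b)
    (ha : a % 2 = 0)
    (hb : b % 2 = 0)
    (h8 : d + 8 ≤ a + b)
    (hq : (a + b - d) % 10 = 4)
    (hFU : FU a (a + b - d)) :
    Low a b (d) 0 ∨ (a % 2 = 0 ∧ b % 2 = 0 ∧ (d) % 2 = 0 ∧ 0 = 0) := by
  unfold FU at hFU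
  rcases hFU with hF | hF | hF | hF | hF | hF
  · exact Or.inr (by omega)
  · exfalso; omega
  · exact Or.inr (by omega)
  · exfalso; omega
  · exact Or.inr (by omega)
  · exfalso; omega

theorem rp_2ee_xy_8 {a b d : ℕ} (hab : a ≤ b)
    (ha : a % 2 = 0)
    (hb : b % 2 = 0)
    (h8 : d + 8 ≤ a + b)
    (hq : (a + b - d) % 10 = 8)
    (hFU : FU a (a + b - d)) :
    Low a b (d) 0 ∨ (a % 2 = 0 ∧ b % 2 = 0 ∧ (d) % 2 = 0 ∧ 0 = 0) := by
  unfold FU at hFU
  rcases hFU with hF | hF | hF | hF | hF | hF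
  · exact Or.inr (by omega)
  · exfalso; omega
  · exact Or.inr (by omega)
  · exfalso; omega
  · exact Or.inr (by omega)
  · exfalso; omega

theorem rp_2ee_y_1 {a b d : ℕ} (hab : a ≤ b)
    (ha : a % 2 = 0)
    (hb : b % 2 = 0)
    (h8 : d + 8 ≤ a + b)
    (hq : (a + b - d) % 10 = 1)
    (hFU : FU a (a + b - d)) :
    Low a b (d + 1) 0 ∨ (a % 2 = 0 ∧ b % 2 = 0 ∧ (d + 1) % 2 = 0 ∧ 0 = 0) := by
  unfold FU at hFU
  rcases hFU with hF | hF | hF | hF | hF | hF
  · exact Or.inr (by omega)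
  · exfalso; omega
  · exact Or.inr (by omega)
  · exfalso; omega
  · exact Or.inr (by omega)
  · exfalso; omega

theorem rp_2ee_y_4 {a b d : ℕ} (hab : a ≤ b)
    (ha : a % 2 = 0)
    (hb : b % 2 = 0)
    (h8 : d + 8 ≤ a + b)
    (hq : (a + b - d) % 10 = 4)
    (hFU : FU a (a + b - d)) :
    Low a b (d + 1) 1 ∨ (a % 2 = 0 ∧ b % 2 = 0 ∧ (d + 1) % 2 = 0 ∧ 1 = 0) := by
  unfold FU at hFU
  rcases hFU with hF | hF | hF | hF | hF | hF
  · exact Or.inl ⟨a - 1, b - 1, d + 1, 0, by unfold RowLow; omega, by unfold CellStep; omega,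
          Or.inr (Or.inl ⟨by omega, by omega, Or.inr (Or.inr (Or.inr (Or.inr (Or.inr (by omega))))), by omega⟩)⟩
  · exfalso; omega
  · exact Or.inl ⟨a - 1, b - 1, d + 1, 0, by unfold RowLow; omega, by unfold CellStep; omega,
          Or.inr (Or.inl ⟨by omega, by omega, Or.inr (Or.inl (by omega)), by omega⟩)⟩
  · exfalso; omega
  · exact Or.inl ⟨a - 1, b - 1, d + 1, 0, by unfold RowLow; omega, by unfold CellStep; omega,
          Or.inr (Or.inl ⟨by omega, by omega, Or.inr (Or.inr (Or.inr (Or.inl (by omega)))), by omega⟩)⟩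
  · exfalso; omega

theorem rp_2ee_y_8 {a b d : ℕ} (hab : a ≤ b)
    (ha : a % 2 = 0)
    (hb : b % 2 = 0)
    (h8 : d + 8 ≤ a + b)
    (hq : (a + b - d) % 10 = 8)
    (hFU : FU a (a + b - d)) :
    Low a b (d + 1) 1 ∨ (a % 2 = 0 ∧ b % 2 = 0 ∧ (d + 1) % 2 = 0 ∧ 1 = 0) := by
  unfold FU at hFU
  rcases hFU with hF | hF | hF | hF | hF | hF
  · rcases Nat.eq_or_lt_of_le h8 with h0 | h0
    · exact Or.inl ⟨a - 1, b - 1, d + 2, 1, by unfold RowLow; omega, by unfold CellStep; omega,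
            Or.inl (Or.inr (Or.inr (Or.inr (Or.inr (Or.inr (by omega))))))⟩
    · exact Or.inl ⟨a - 1, b - 1, d + 2, 1, by unfold RowLow; omega, by unfold CellStep; omega,
            Or.inr (Or.inl ⟨by omega, by omega, Or.inr (Or.inr (Or.inr (Or.inr (Or.inr (by omega))))), by omega⟩)⟩
  · exfalso; omega
  · rcases Nat.eq_or_lt_of_le h8 with h0 | h0
    · exact Or.inl ⟨a - 1, b - 1, d + 2, 1, by unfold RowLow; omega, by unfold CellStep; omega,
            Or.inl (Or.inr (Or.inr (Or.inr (Or.inr (Or.inr (by omega))))))⟩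
    · exact Or.inl ⟨a - 1, b - 1, d + 2, 1, by unfold RowLow; omega, by unfold CellStep; omega,
            Or.inr (Or.inl ⟨by omega, by omega, Or.inr (Or.inl (by omega)), by omega⟩)⟩
  · exfalso; omega
  · rcases Nat.eq_or_lt_of_le h8 with h0 | h0
    · exact Or.inl ⟨a - 1, b - 1, d + 2, 1, by unfold RowLow; omega, by unfold CellStep; omega,
            Or.inl (Or.inr (Or.inr (Or.inr (Or.inr (Or.inr (by omega))))))⟩
    · exact Or.inl ⟨a - 1, b - 1, d + 2, 1, by unfold RowLow; omega, by unfold CellStep; omega,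
            Or.inr (Or.inl ⟨by omega, by omega, Or.inr (Or.inr (Or.inr (Or.inl (by omega)))), by omega⟩)⟩
  · exfalso; omega

end Pool.Agent.SNT
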