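import Pool.Agent.SNT.LimG1a
import Pool.Agent.SNT.LimG1b

/-! One row forcing (generated table, parts 1a and 1b). -/
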