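import Pool.Agent.SNT.LocZ2
import Pool.Agent.SNT.PfDef

set_option autoImplicit false

/-! Location from below: the cycle over an odd layer which is dirty in the row `b + 2`. -/

namespace Pool.Agent.SNT

variable {f : ℕ → ℕ → ℕ → ℕ → Prop}

namespace LocZ

open TipI

/-- Row `3` of the cycle, inside the strip, local in the odd layer. -/
theorem S3' (hf : Rule f) {a b K : ℕ} (hab : a + 5 ≤ b) (ha : a % 2 = 0) (hb : b % 2 = 1)
    (h6 : 6 ≤ a) (h4 : (a + b) % 4 = 1) (hK : a + b + 6 ≤ K) (hK2 : K % 2 = 0)
    (hA : ∀ u v q : ℕ, K + 2 ≤ min u v → q ≤ 1 →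
      (f (a - 1) (b - q) u v ↔ Fst (a - 1) (b - q) u v))
    (hP : ∀ u v : ℕ, max u v + 1 ≤ min u v + 2 * (a / 6) → K + 1 < min u v →
      (f a (b - 1) u v ↔ Fst a (b - 1) u v))
    {x y : ℕ} (hyx : y ≤ x) (hd : x + 1 ≤ y + 2 * (a / 6)) (hy : K + 3 < y) :
    f a b x y ↔ Fst a b x y := by
  have hab' : a ≤ b := by omega
  have hline : ∀ u v : ℕ, v < u → u + 1 ≤ v + 2 * (a / 6) → K + 1 < v → u % 2 = 0 → v % 2 = 1 →
      f a (b - 1) u v := by
    intro u v h3 h5 h2 h7 h8
    rw [hP u v (by omega) (by omega)]
    exact (Fst_I (by omega) ha (by omega) (by omega) h3.le h5).2 ⟨h7, h8⟩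
  rw [Fst_odd (by omega) ha hb hyx hd]
  rcases Nat.eq_or_lt_of_le hyx with h2 | h2
  · subst h2
    rcases Nat.mod_two_eq_zero_or_one y with hy2 | hy2
    · refine iff_of_false ?_ (by omega)
      refine zero_of_one hf 0 1 0 1 (by omega) (by omega) (by omega) (by omega) (by omega)
        (by omega) (by omega) (by omega) (by omega) ?_
      exact hline y (y - 1) (by omega) (by omega) (by omega) (by omega) (by omega)
    · have h3 : (a + b + 2 * y) % 4 = 3 := by omega
      refine iff_of_true ?_ ⟨rfl, h3⟩
      have hm1 : ¬ f a b y (y - 1) := by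
        refine zero_of_one hf 0 1 1 1 (by omega) (by omega) (by omega) (by omega) (by omega)
          (by omega) (by omega) (by omega) (by omega) ?_
        exact hline (y - 1) (y - 1 - 1) (by omega) (by omega) (by omega) (by omega) (by omega)
      refine of_row_zero hf hab' le_rfl (by omega) (by omega) ?_ ?_ ?_ hm1 ?_
      · refine not_low_of_FF hab' (by omega) (Dm.fc11 ?_)
        omega
      · intro r s hr hs p q hp hq hpq hpa hqb
        rcases Nat.eq_zero_or_pos p with h0 | h0
        · subst h0
          have hq1 : q = 1 := by omega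
          subst hq1
          exact hP _ _ (by omega) (by omega)
        · have hp1 : p = 1 := by omega
          subst hp1
          exact hA _ _ _ (by omega) hq
      · rw [hf.swap_xy]
        exact hm1
      · refine zero_of_one hf 0 1 0 1 (by omega) (by omega) (by omega) (by omega) (by omega)
          (by omega) (by omega) (by omega) (by omega) ?_
        exact hline (y - 1) (y - 1 - 1) (by omega) (by omega) (by omega) (by omega) (by omega)
  · refine iff_of_false ?_ (by omega)
    rcases Nat.mod_two_eq_zero_or_one x with hx2 | hx2 <;>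
      rcases Nat.mod_two_eq_zero_or_one y with hy2 | hy2
    · refine zero_of_one hf 0 1 0 1 (by omega) (by omega) (by omega) (by omega) (by omega)
        (by omega) (by omega) (by omega) (by omega) ?_
      exact hline x (y - 1) (by omega) (by omega) (by omega) (by omega) (by omega)
    · refine zero_of_one hf 0 1 0 0 (by omega) (by omega) (by omega) (by omega) (by omega)
        (by omega) (by omega) (by omega) (by omega) ?_
      exact hline x y (by omega) (by omega) (by omega) (by omega) (by omega)
    · refine zero_of_one hf 0 1 1 1 (by omega) (by omega) (by omega) (by omega) (by omega)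
        (by omega) (by omega) (by omega) (by omega) ?_
      exact hline (x - 1) (y - 1) (by omega) (by omega) (by omega) (by omega) (by omega)
    · refine zero_of_one hf 0 1 1 0 (by omega) (by omega) (by omega) (by omega) (by omega)
        (by omega) (by omega) (by omega) (by omega) ?_
      exact hline (x - 1) y (by omega) (by omega) (by omega) (by omega) (by omega)

/-- Hypotheses of the dirty cycle: `b` is the IN row of `A`, `n` the lead. -/
structure DH (f : ℕ → ℕ → ℕ → ℕ → Prop) (A b n : ℕ) : Prop where
  hA : A % 2 = 0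
  h6 : 12 ≤ A
  hb2 : b % 2 = 0
  h4 : (A + b) % 4 = 2
  hAb : A + 2 * (A / 6) + 40 ≤ b
  hn : A + b + 30 ≤ 2 * n
  C : Cyc f A b (2 * n + 2)
  r0 : St f A b (2 * n)
  p0 : St f (A - 1) b (2 * n)
  p1 : St f (A - 1) (b + 1) (2 * n)
  p2a : ∀ u v : ℕ, v ≤ u → 2 * n + 2 < u → v + 2 * (A / 6) ≤ u →
    (f (A - 1) (b + 2) u v ↔ Fst (A - 1) (b + 2) u v)
  p2b : ∀ u v : ℕ, v ≤ u → 2 * n + 1 < v → (f (A - 1) (b + 2) u v ↔ Fst (A - 1) (b + 2) u v)
  p3 : St f (A - 1) (b + 3) (2 * n)

namespace DH

variable {A b n : ℕ}

theorem r1 (hf : Rule f) (H : DH f A b n) : St f A (b + 1) (2 * n + 2) := by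
  have h1 := H.hA; have h2 := H.hb2; have h3 := H.h4; have h4 := H.hAb; have h5 := H.hn
  have h6 := H.h6
  refine QF_even_flat hf (by omega) (by omega) (by omega) ?_ (Or.inr (by omega))
  intro x y hxy p q hp hq hpq hpa hqb
  rcases Nat.eq_zero_or_pos p with hp0 | hp0
  · subst hp0
    have hq1 : q = 1 := by omega
    subst hq1
    exact H.r0 x y hxy
  · have hp1 : p = 1 := by omega
    subst hp1
    rcases Nat.eq_zero_or_pos q with hq0 | hq0
    · subst hq0
      exact H.p1 x y hxy
    · have hq1 : q = 1 := by omega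
      subst hq1
      exact H.p0 x y hxy

theorem r1s (hf : Rule f) (H : DH f A b n) : ∀ x y : ℕ, max x y ≤ min x y + 2 * (A / 6) →
    2 * n + 1 < max x y → (f A (b + 1) x y ↔ Fst A (b + 1) x y) := by
  have h1 := H.hA; have h2 := H.hb2; have h3 := H.h4; have h4 := H.hAb; have h5 := H.hn
  have h6 := H.h6
  intro x y h7 h8
  refine all_of_half hf (P := fun x y => x ≤ y + 2 * (A / 6) ∧ 2 * n + 1 < x) ?_ x y ⟨h7, h8⟩
  intro x y hyx hP
  refine S1 hf (by omega) h1 (by omega) (by omega) (by omega) (by omega) (by omega) ?_ hyx hP.1 hP.2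
  intro x y hxy p q hp hq hpq hpa hqb
  rcases Nat.eq_zero_or_pos p with hp0 | hp0
  · subst hp0
    have hq1 : q = 1 := by omega
    subst hq1
    exact H.r0 x y hxy
  · have hp1 : p = 1 := by omega
    subst hp1
    rcases Nat.eq_zero_or_pos q with hq0 | hq0
    · subst hq0
      exact H.p1 x y hxy
    · have hq1 : q = 1 := by omega
      subst hq1
      exact H.p0 x y hxy

theorem r2x (hf : Rule f) (H : DH f A b n) : ∀ x y : ℕ, min x y + 2 * (A / 6) ≤ max x y →
    2 * n + 4 < max x y → (f A (b + 2) x y ↔ Fst A (b + 2) x y) := by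
  have h1 := H.hA; have h2 := H.hb2; have h3 := H.h4; have h4 := H.hAb; have h5 := H.hn
  have h6 := H.h6
  intro x y h7 h8
  refine all_of_half hf (P := fun x y => y + 2 * (A / 6) ≤ x ∧ 2 * n + 4 < x) ?_ x y ⟨h7, h8⟩
  intro x y hyx hP
  obtain ⟨hd, hx⟩ := hP
  rcases Nat.lt_or_ge (A + (b + 2) + y) x with hfar | hfar
  · rw [hf.far A (b + 2) x y (by omega), Fst_far (by omega) (by omega)]
  have hls : ∀ u v : ℕ, v ≤ u → 2 * n + 2 < u → 2 * (A / 6) ≤ u - v → LS f A (b + 2) u v := by
    intro u v huv hu hd' p q hp hq hpq hpa hqb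
    rcases Nat.eq_zero_or_pos p with hp0 | hp0
    · subst hp0
      have hq1 : q = 1 := by omega
      subst hq1
      exact H.r1 hf u v (by omega)
    · have hp1 : p = 1 := by omega
      subst hp1
      rcases Nat.eq_zero_or_pos q with hq0 | hq0
      · subst hq0
        exact H.p2a u v huv hu (by omega)
      · have hq1 : q = 1 := by omega
        subst hq1
        exact H.p1 u v (by omega)
  rcases Nat.lt_or_ge (x - y) (2 * (A / 6) + 3) with hd3 | hd3
  swap
  · exact QF_loc hf (L := 2 * n + 2) (D := 2 * (A / 6)) (by omega) (by omega) hyx (by omega)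
      (by omega) (by omega) (by omega) hls
  -- the ones of the row `b + 1`
  have g1 : ∀ u v : ℕ, v ≤ u → 2 * n + 2 < u → u < v + 2 * (A / 6) + 8 →
      (u + v) % 2 = 0 → 2 * (A / 6) + v ≤ u → (u + v + 2) % 4 = (2 * (A / 6)) % 4 →
      f A (b + 1) u v := by
    intro u v huv hu hud g2 g3 g4
    rw [H.r1 hf u v (by omega), fst_three h1 (by omega) (by omega) huv (by omega)]
    exact Or.inl ⟨g2, g3, g4⟩
  have z0 : ∀ u v : ℕ, u = v + 2 * (A / 6) → 2 * n + 3 ≤ u → ¬ f A (b + 2) u v := by
    intro u v huv hu
    rcases Nat.mod_two_eq_zero_or_one u with hu2 | hu2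
    · intro h
      exact hf.not_allEven h (by omega)
    · exact kill hf (g1 u v (by omega) (by omega) (by omega) (by omega) (by omega) (by omega))
        (by omega) (by omega) (by omega) (by omega) (by omega)
  have z1 : ∀ u v : ℕ, u = v + 2 * (A / 6) + 1 → 2 * n + 4 ≤ u → u % 2 = 0 →
      ¬ f A (b + 2) u v := by
    intro u v huv hu hu2
    exact kill hf (g1 (u - 1) v (by omega) (by omega) (by omega) (by omega) (by omega) (by omega))
      (by omega) (by omega) (by omega) (by omega) (by omega)
  have z2 : ∀ u v : ℕ, u = v + 2 * (A / 6) + 2 → 2 * n + 4 ≤ u → ¬ f A (b + 2) u v := by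
    intro u v huv hu
    rcases Nat.mod_two_eq_zero_or_one u with hu2 | hu2
    · intro h
      exact hf.not_allEven h (by omega)
    · exact kill hf (g1 (u - 1) (v - 1) (by omega) (by omega) (by omega) (by omega) (by omega)
        (by omega)) (by omega) (by omega) (by omega) (by omega) (by omega)
  have hc : x = y + 2 * (A / 6) ∨ x = y + 2 * (A / 6) + 1 ∨ x = y + 2 * (A / 6) + 2 := by omega
  rcases hc with e | e | e
  · refine iff_of_false (z0 x y e (by omega)) ?_
    rw [fst_zero h1 (by omega) hyx (by omega)]
    omega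
  · rcases Nat.mod_two_eq_zero_or_one x with hx2 | hx2
    · refine iff_of_false (z1 x y e (by omega) hx2) ?_
      rw [fst_zero h1 (by omega) hyx (by omega)]
      omega
    · have hF : Fst A (b + 2) x y := by
        rw [fst_zero h1 (by omega) hyx (by omega)]
        omega
      refine iff_of_true ?_ hF
      by_contra hno
      obtain ⟨p, q, r, s, hp, hq, hr, hs, hsum, hpa, hqb, hrx, hsy, hone⟩ :=
        hf.exists_pred (by omega) hno
      rcases Nat.lt_or_ge 0 (p + q) with hpq | hpq
      · rcases Nat.eq_zero_or_pos p with hp0 | hp0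
        · subst hp0
          have hq1 : b + 2 - q = b + 1 := by omega
          rw [hq1, Nat.sub_zero, H.r1 hf _ _ (by omega),
            fst_three h1 (by omega) (by omega) (by omega) (by omega)] at hone
          omega
        · have hp1 : p = 1 := by omega
          subst hp1
          rcases Nat.eq_zero_or_pos q with hq0 | hq0
          · subst hq0
            rw [Nat.sub_zero, H.p2a _ _ (by omega) (by omega) (by omega)] at hone
            exact Fst_near_odd (by omega) (by omega) hone
          · have hq1 : b + 2 - q = b + 1 := by omega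
            rw [hq1, H.p1 _ _ (by omega)] at hone
            exact Fst_near_odd (by omega) (by omega) hone
      · have hp0 : p = 0 := by omega
        have hq0 : q = 0 := by omega
        subst hp0
        subst hq0
        simp only [Nat.sub_zero] at hone
        have hrs : (r = 0 ∧ s = 1) ∨ (r = 1 ∧ s = 0) ∨ (r = 1 ∧ s = 1) := by omega
        rcases hrs with ⟨rfl, rfl⟩ | ⟨rfl, rfl⟩ | ⟨rfl, rfl⟩
        · exact z2 _ _ (by omega) (by omega) hone
        · exact z0 _ _ (by omega) (by omega) hone
        · exact z1 _ _ (by omega) (by omega) (by omega) hone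
  · refine iff_of_false (z2 x y e (by omega)) ?_
    rw [fst_zero h1 (by omega) hyx (by omega)]
    omega

end DH

end LocZ

end Pool.Agent.SNT
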