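import Pool.Agent.SNT.LocG

set_option autoImplicit false

/-! Location from below: the cycle over an odd layer which is dirty in the rows `b + 2`, `b + 3`
(weak hypotheses). -/

namespace Pool.Agent.SNT

variable {f : ℕ → ℕ → ℕ → ℕ → Prop}

namespace LocZ

open TipI

/-- Row `3` of the cycle, inside the strip, local in the odd layer. -/
theorem S3n (hf : Rule f) {a b K : ℕ} (hab : a + 5 ≤ b) (ha : a % 2 = 0) (hb : b % 2 = 1)
    (h6 : 6 ≤ a) (h4 : (a + b) % 4 = 1) (hK : a + b + 6 ≤ K) (hK2 : K % 2 = 0)
    (hA : ∀ u v q : ℕ, v ≤ u → u ≤ v + 1 → K + 3 < v → (u = v ∨ v % 2 = 0) → q ≤ 1 →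
      (f (a - 1) (b - q) u v ↔ Fst (a - 1) (b - q) u v))
    (hP : ∀ u v : ℕ, max u v + 1 ≤ min u v + 2 * (a / 6) → K + 1 < min u v →
      (f a (b - 1) u v ↔ Fst a (b - 1) u v))
    {x y : ℕ} (hyx : y ≤ x) (hd : x + 1 ≤ y + 2 * (a / 6)) (hy : K + 3 < y) :
    f a b x y ↔ Fst a b x y := by
  have hab' : a ≤ b := by omega
  have hline : ∀ u v : ℕ, v < u → u + 1 ≤ v + 2 * (a / 6) → K + 1 < v → u % 2 = 0 → v % 2 = 1 →
      f a (b - 1) u v := by
    intro u v h3 h5 h2 h7 h8
    rw [hP u v (by omega) (by omega)]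
    exact (Fst_I (by omega) ha (by omega) (by omega) h3.le h5).2 ⟨h7, h8⟩
  rw [Fst_odd (by omega) ha hb hyx hd]
  rcases Nat.eq_or_lt_of_le hyx with h2 | h2
  · subst h2
    rcases Nat.mod_two_eq_zero_or_one y with hy2 | hy2
    · refine iff_of_false ?_ (by omega)
      refine zero_of_one hf 0 1 0 1 (by omega) (by omega) (by omega) (by omega) (by omega)
        (by omega) (by omega) (by omega) (by omega) ?_
      exact hline y (y - 1) (by omega) (by omega) (by omega) (by omega) (by omega)
    · have h3 : (a + b + 2 * y) % 4 = 3 := by omega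
      refine iff_of_true ?_ ⟨rfl, h3⟩
      have hm1 : ¬ f a b y (y - 1) := by
        refine zero_of_one hf 0 1 1 1 (by omega) (by omega) (by omega) (by omega) (by omega)
          (by omega) (by omega) (by omega) (by omega) ?_
        exact hline (y - 1) (y - 1 - 1) (by omega) (by omega) (by omega) (by omega) (by omega)
      refine of_row_zero hf hab' le_rfl (by omega) (by omega) ?_ ?_ ?_ hm1 ?_
      · refine not_low_of_FF hab' (by omega) (Dm.fc11 ?_)
        omega
      · intro r s hr hs p q hp hq hpq hpa hqb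
        rcases Nat.eq_zero_or_pos p with h0 | h0
        · subst h0
          have hq1 : q = 1 := by omega
          subst hq1
          exact hP _ _ (by omega) (by omega)
        · have hp1 : p = 1 := by omega
          subst hp1
          rcases Nat.lt_or_ge (y - r) (y - s) with h9 | h9
          · rw [hf.swap_xy, Fst_swap_xy]
            exact hA _ _ _ (by omega) (by omega) (by omega) (by omega) hq
          · exact hA _ _ _ h9 (by omega) (by omega) (by omega) hq
      · rw [hf.swap_xy]
        exact hm1
      · refine zero_of_one hf 0 1 0 1 (by omega) (by omega) (by omega) (by omega) (by omega)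
          (by omega) (by omega) (by omega) (by omega) ?_
        exact hline (y - 1) (y - 1 - 1) (by omega) (by omega) (by omega) (by omega) (by omega)
  · refine iff_of_false ?_ (by omega)
    rcases Nat.mod_two_eq_zero_or_one x with hx2 | hx2 <;>
      rcases Nat.mod_two_eq_zero_or_one y with hy2 | hy2
    · refine zero_of_one hf 0 1 0 1 (by omega) (by omega) (by omega) (by omega) (by omega)
        (by omega) (by omega) (by omega) (by omega) ?_
      exact hline x (y - 1) (by omega) (by omega) (by omega) (by omega) (by omega)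
    · refine zero_of_one hf 0 1 0 0 (by omega) (by omega) (by omega) (by omega) (by omega)
        (by omega) (by omega) (by omega) (by omega) ?_
      exact hline x y (by omega) (by omega) (by omega) (by omega) (by omega)
    · refine zero_of_one hf 0 1 1 1 (by omega) (by omega) (by omega) (by omega) (by omega)
        (by omega) (by omega) (by omega) (by omega) ?_
      exact hline (x - 1) (y - 1) (by omega) (by omega) (by omega) (by omega) (by omega)
    · refine zero_of_one hf 0 1 1 0 (by omega) (by omega) (by omega) (by omega) (by omega)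
        (by omega) (by omega) (by omega) (by omega) ?_
      exact hline (x - 1) y (by omega) (by omega) (by omega) (by omega) (by omega)

/-- Hypotheses of the cycle: `b` is the IN row of `A`, `n` the lead; the rows `b`, `b + 1`. -/
structure DG (f : ℕ → ℕ → ℕ → ℕ → Prop) (A b n : ℕ) : Prop where
  hA : A % 2 = 0
  h6 : 12 ≤ A
  hb2 : b % 2 = 0
  h4 : (A + b) % 4 = 2
  hAb : A + 2 * (A / 6) + 40 ≤ b
  hn : A + b + 30 ≤ 2 * n
  C : Cyc f A b (2 * n + 2)
  r0 : St f A b (2 * n)
  p0 : St f (A - 1) b (2 * n)
  p1 : St f (A - 1) (b + 1) (2 * n)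

/-- The odd layer in the row `b + 2`, lines from `2 n + 2` on. -/
def P2b (f : ℕ → ℕ → ℕ → ℕ → Prop) (A b n : ℕ) : Prop :=
  ∀ u v : ℕ, v ≤ u → 2 * n + 1 < v → (f (A - 1) (b + 2) u v ↔ Fst (A - 1) (b + 2) u v)

namespace DG

variable {A b n : ℕ}

theorem r1 (hf : Rule f) (H : DG f A b n) : St f A (b + 1) (2 * n + 2) := by
  have h1 := H.hA; have h2 := H.hb2; have h3 := H.h4; have h4 := H.hAb; have h5 := H.hn
  have h6 := H.h6
  refine QF_even_flat hf (by omega) (by omega) (by omega) ?_ (Or.inr (by omega))
  intro x y hxy p q hp hq hpq hpa hqb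
  rcases Nat.eq_zero_or_pos p with hp0 | hp0
  · subst hp0
    have hq1 : q = 1 := by omega
    subst hq1
    exact H.r0 x y hxy
  · have hp1 : p = 1 := by omega
    subst hp1
    rcases Nat.eq_zero_or_pos q with hq0 | hq0
    · subst hq0
      exact H.p1 x y hxy
    · have hq1 : q = 1 := by omega
      subst hq1
      exact H.p0 x y hxy

theorem r1s (hf : Rule f) (H : DG f A b n) : ∀ x y : ℕ, max x y ≤ min x y + 2 * (A / 6) →
    2 * n + 1 < max x y → (f A (b + 1) x y ↔ Fst A (b + 1) x y) := by
  have h1 := H.hA; have h2 := H.hb2; have h3 := H.h4; have h4 := H.hAb; have h5 := H.hn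
  have h6 := H.h6
  intro x y h7 h8
  refine all_of_half hf (P := fun x y => x ≤ y + 2 * (A / 6) ∧ 2 * n + 1 < x) ?_ x y ⟨h7, h8⟩
  intro x y hyx hP
  refine S1 hf (by omega) h1 (by omega) (by omega) (by omega) (by omega) (by omega) ?_ hyx hP.1 hP.2
  intro x y hxy p q hp hq hpq hpa hqb
  rcases Nat.eq_zero_or_pos p with hp0 | hp0
  · subst hp0
    have hq1 : q = 1 := by omega
    subst hq1
    exact H.r0 x y hxy
  · have hp1 : p = 1 := by omega
    subst hp1
    rcases Nat.eq_zero_or_pos q with hq0 | hq0
    · subst hq0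
      exact H.p1 x y hxy
    · have hq1 : q = 1 := by omega
      subst hq1
      exact H.p0 x y hxy

/-- The diagonal one of the row `b + 1`. -/
theorem diag1 (hf : Rule f) (H : DG f A b n) : f A (b + 1) (2 * n + 2) (2 * n + 2) := by
  have h1 := H.hA; have h2 := H.hb2; have h3 := H.h4; have h4 := H.hAb; have h5 := H.hn
  have h6 := H.h6
  rw [H.r1s hf _ _ (by omega) (by omega), fst_three h1 (by omega) (by omega) le_rfl (by omega)]
  omega

theorem star (hf : Rule f) (H : DG f A b n) (hp2 : P2b f A b n) (hi : Up2 f A b n) {x : ℕ} (hx2 : x % 2 = 1)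
    (hx : 2 * n + 5 ≤ x) (hd : x + 1 ≤ 2 * n + 2 + 2 * (A / 6)) :
    ¬ f A (b + 2) x (2 * n + 2) := by
  have h1 := H.hA; have h2 := H.hb2; have h3 := H.h4; have h4 := H.hAb; have h5 := H.hn
  have h6 := H.h6
  intro hY
  have z0 : ∀ u v : ℕ, v ≤ u → 2 * n < u → u < v + 2 * (A / 6) + 8 → ¬ f (A - 1) b u v := by
    intro u v huv hu hd h
    rw [H.p0 u v (by omega)] at h
    exact Fst_near_odd (by omega) (by omega) h
  have z1 : ∀ u v : ℕ, v ≤ u → 2 * n < u → u < v + 2 * (A / 6) + 8 → ¬ f (A - 1) (b + 1) u v := by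
    intro u v huv hu hd h
    rw [H.p1 u v (by omega)] at h
    exact Fst_near_odd (by omega) (by omega) h
  have z2 : ∀ u v : ℕ, v ≤ u → 2 * n + 1 < v → u < v + 2 * (A / 6) + 8 →
      ¬ f (A - 1) (b + 2) u v := by
    intro u v huv hu hd h
    rw [hp2 u v huv hu] at h
    exact Fst_near_odd (by omega) (by omega) h
  have hz : f (A + 1) (b + 2) (x + 1) (2 * n + 4) := by
    by_contra hno
    obtain ⟨p, q, r, s, hp, hq, hr, hs, hsum, hpa, hqb, hrx, hsy, hone⟩ :=
      hf.exists_pred (by omega) hno
    rcases Nat.eq_zero_or_pos p with hp0 | hp0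
    · subst hp0
      rw [Nat.sub_zero] at hone
      rcases Nat.eq_zero_or_pos q with hq0 | hq0
      · subst hq0
        rw [Nat.sub_zero] at hone
        refine eonly hf h1 (by omega) ?_ hone
        intro q' r' s' hq' hr' hs'
        rcases Nat.eq_zero_or_pos q' with h7 | h7
        · subst h7
          exact z2 _ _ (by omega) (by omega) (by omega)
        · have h8 : b + 2 - q' = b + 1 := by omega
          rw [h8]
          exact z1 _ _ (by omega) (by omega) (by omega)
      · have hq1 : b + 2 - q = b + 1 := by omega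
        rw [hq1] at hone
        refine eonly hf h1 (by omega) ?_ hone
        intro q' r' s' hq' hr' hs'
        rcases Nat.eq_zero_or_pos q' with h7 | h7
        · subst h7
          exact z1 _ _ (by omega) (by omega) (by omega)
        · have h8 : b + 1 - q' = b := by omega
          rw [h8]
          exact z0 _ _ (by omega) (by omega) (by omega)
    · have hp1 : p = 1 := by omega
      subst hp1
      rw [Nat.add_sub_cancel] at hone
      rcases Nat.eq_zero_or_pos q with hq0 | hq0
      · subst hq0
        rw [Nat.sub_zero] at hone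
        have hrs : (r = 0 ∧ s = 0) ∨ (r = 1 ∧ s = 0) ∨ s = 1 := by omega
        rcases hrs with ⟨rfl, rfl⟩ | ⟨rfl, rfl⟩ | rfl
        · exact hf.not_allEven hone (by omega)
        · rw [H.C.r2s _ _ (by omega) (by omega),
            fst_zero h1 (by omega) (by omega) (by omega)] at hone
          omega
        · exact kill hf hY (a' := A) (b' := b + 2) (x' := x + 1 - r) (y' := 2 * n + 4 - 1)
            (by omega) (by omega) (by omega) (by omega) (by omega) hone
      · have hq1 : b + 2 - q = b + 1 := by omega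
        rw [hq1, H.r1s hf _ _ (by omega) (by omega),
          fst_three h1 (by omega) (by omega) (by omega) (by omega)] at hone
        omega
  have hk : ¬ f (A + 2) (b + 2) (x + 2) (2 * n + 4) :=
    kill hf hz (by omega) (by omega) (by omega) (by omega) (by omega)
  apply hk
  rw [hi _ _ (by omega) (by omega) (by omega), fst_two (by omega) (by omega) (by omega) (by omega)]
  omega

theorem Yzero (hf : Rule f) (H : DG f A b n) (hp2 : P2b f A b n) (hi : Up2 f A b n) {x : ℕ} (hx2 : x % 2 = 1)
    (hx : 2 * n + 3 ≤ x) (hd : x + 1 ≤ 2 * n + 2 + 2 * (A / 6)) :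
    ¬ f A (b + 2) x (2 * n + 2) := by
  rcases Nat.lt_or_ge x (2 * n + 5) with h | h
  · have e : x = 2 * n + 3 := by omega
    subst e
    exact kill hf (H.diag1 hf) (by omega) (by omega) (by omega) (by omega) (by omega)
  · exact H.star hf hp2 hi hx2 h hd

theorem line (hf : Rule f) (H : DG f A b n) (hp2 : P2b f A b n) (hi : Up2 f A b n) : ∀ t : ℕ,
    2 * n + 4 + 2 * t + 1 ≤ 2 * n + 3 + 2 * (A / 6) →
      f A (b + 2) (2 * n + 4 + 2 * t) (2 * n + 3) := by
  have h1 := H.hA; have h2 := H.hb2; have h3 := H.h4; have h4 := H.hAb; have h5 := H.hn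
  have h6 := H.h6
  intro t
  induction t with
  | zero =>
    intro hd
    by_contra hno
    obtain ⟨p, q, r, s, hp, hq, hr, hs, hsum, hpa, hqb, hrx, hsy, hone⟩ :=
      hf.exists_pred (by omega) hno
    rcases Nat.eq_zero_or_pos p with hp0 | hp0
    · subst hp0
      rw [Nat.sub_zero] at hone
      rcases Nat.eq_zero_or_pos q with hq0 | hq0
      · subst hq0
        rw [Nat.sub_zero] at hone
        have hrs : (r = 0 ∧ s = 1) ∨ (r = 1 ∧ s = 0) ∨ (r = 1 ∧ s = 1) := by omega
        rcases hrs with ⟨rfl, rfl⟩ | ⟨rfl, rfl⟩ | ⟨rfl, rfl⟩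
        · exact hf.not_allEven hone (by omega)
        · exact kill hf (H.diag1 hf) (a' := A) (b' := b + 2) (x' := 2 * n + 4 + 2 * 0 - 1)
            (y' := 2 * n + 3 - 0) (by omega) (by omega) (by omega) (by omega) (by omega) hone
        · exact H.Yzero hf hp2 hi (x := 2 * n + 4 + 2 * 0 - 1) (by omega) (by omega) (by omega)
            hone
      · have hq1 : b + 2 - q = b + 1 := by omega
        rw [hq1, H.r1s hf _ _ (by omega) (by omega),
          fst_three h1 (by omega) (by omega) (by omega) (by omega)] at hone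
        omega
    · have hp1 : p = 1 := by omega
      subst hp1
      rcases Nat.eq_zero_or_pos q with hq0 | hq0
      · subst hq0
        rw [Nat.sub_zero, hp2 _ _ (by omega) (by omega)] at hone
        exact Fst_near_odd (by omega) (by omega) hone
      · have hq1 : b + 2 - q = b + 1 := by omega
        rw [hq1, H.p1 _ _ (by omega)] at hone
        exact Fst_near_odd (by omega) (by omega) hone
  | succ t ih =>
    intro hd
    have ih' := ih (by omega)
    by_contra hno
    obtain ⟨p, q, r, s, hp, hq, hr, hs, hsum, hpa, hqb, hrx, hsy, hone⟩ :=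
      hf.exists_pred (by omega) hno
    rcases Nat.eq_zero_or_pos p with hp0 | hp0
    · subst hp0
      rw [Nat.sub_zero] at hone
      rcases Nat.eq_zero_or_pos q with hq0 | hq0
      · subst hq0
        rw [Nat.sub_zero] at hone
        have hrs : (r = 0 ∧ s = 1) ∨ (r = 1 ∧ s = 0) ∨ (r = 1 ∧ s = 1) := by omega
        rcases hrs with ⟨rfl, rfl⟩ | ⟨rfl, rfl⟩ | ⟨rfl, rfl⟩
        · exact hf.not_allEven hone (by omega)
        · exact kill hf ih' (a' := A) (b' := b + 2) (x' := 2 * n + 4 + 2 * (t + 1) - 1)
            (y' := 2 * n + 3 - 0) (by omega) (by omega) (by omega) (by omega) (by omega) hone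
        · exact H.Yzero hf hp2 hi (x := 2 * n + 4 + 2 * (t + 1) - 1) (by omega) (by omega) (by omega)
            hone
      · have hq1 : b + 2 - q = b + 1 := by omega
        rw [hq1, H.r1s hf _ _ (by omega) (by omega),
          fst_three h1 (by omega) (by omega) (by omega) (by omega)] at hone
        omega
    · have hp1 : p = 1 := by omega
      subst hp1
      rcases Nat.eq_zero_or_pos q with hq0 | hq0
      · subst hq0
        rw [Nat.sub_zero, hp2 _ _ (by omega) (by omega)] at hone
        exact Fst_near_odd (by omega) (by omega) hone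
      · have hq1 : b + 2 - q = b + 1 := by omega
        rw [hq1, H.p1 _ _ (by omega)] at hone
        exact Fst_near_odd (by omega) (by omega) hone

theorem r2s (hf : Rule f) (H : DG f A b n) (hp2 : P2b f A b n) (hi : Up2 f A b n) : ∀ x y : ℕ,
    max x y + 1 ≤ min x y + 2 * (A / 6) → 2 * n + 1 < min x y →
      (f A (b + 2) x y ↔ Fst A (b + 2) x y) := by
  have h1 := H.hA; have h2 := H.hb2; have h3 := H.h4; have h4 := H.hAb; have h5 := H.hn
  have h6 := H.h6
  intro x y h7 h8
  rcases Nat.lt_or_ge (2 * n + 3) (min x y) with h9 | h9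
  · exact H.C.r2s x y h7 (by omega)
  refine all_of_half hf (P := fun x y => x + 1 ≤ y + 2 * (A / 6) ∧ 2 * n + 1 < y ∧
    y ≤ 2 * n + 3) ?_ x y ⟨h7, h8, h9⟩
  intro x y hyx hP
  obtain ⟨hd, hy, hy3⟩ := hP
  have hl : ∀ u : ℕ, u % 2 = 0 → 2 * n + 4 ≤ u → u + 1 ≤ 2 * n + 3 + 2 * (A / 6) →
      f A (b + 2) u (2 * n + 3) := by
    intro u hu2 hu hud
    have h10 := H.line hf hp2 hi ((u - (2 * n + 4)) / 2) (by omega)
    have e : 2 * n + 4 + 2 * ((u - (2 * n + 4)) / 2) = u := by omega
    rw [e] at h10
    exact h10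
  have hyy : y = 2 * n + 2 ∨ y = 2 * n + 3 := by omega
  rw [fst_zero h1 (by omega) hyx (by omega)]
  rcases hyy with rfl | rfl
  · rcases Nat.mod_two_eq_zero_or_one x with hx2 | hx2
    · refine iff_of_false ?_ (by omega)
      intro h
      exact hf.not_allEven h (by omega)
    · refine iff_of_false ?_ (by omega)
      exact H.Yzero hf hp2 hi hx2 (by omega) hd
  · rcases Nat.mod_two_eq_zero_or_one x with hx2 | hx2
    · refine iff_of_true ?_ (by omega)
      exact hl x hx2 (by omega) hd
    · refine iff_of_false ?_ (by omega)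
      rcases Nat.eq_or_lt_of_le hyx with h10 | h10
      · subst h10
        exact kill hf (H.diag1 hf) (by omega) (by omega) (by omega) (by omega) (by omega)
      · exact kill hf (hl (x - 1) (by omega) (by omega) (by omega)) (by omega) (by omega)
          (by omega) (by omega) (by omega)

/-- THE DIRTY CYCLE: `r2x` is a hypothesis. -/
theorem cy3 (hf : Rule f) (H : DG f A b n) (hp2 : P2b f A b n) (hi : Up2 f A b n)
    (hx2 : ∀ x y : ℕ, min x y + 2 * (A / 6) ≤ max x y → 2 * n + 4 < max x y →
      (f A (b + 2) x y ↔ Fst A (b + 2) x y))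
    (hp2c : ∀ u v : ℕ, v ≤ u → 2 * n + 2 * (A / 6) < u →
      (f (A - 1) (b + 2) u v ↔ Fst (A - 1) (b + 2) u v))
    (hp3a : ∀ u v : ℕ, v ≤ u → u ≤ v + 1 → 2 * n + 3 < v → (u = v ∨ v % 2 = 0) →
      (f (A - 1) (b + 3) u v ↔ Fst (A - 1) (b + 3) u v))
    (hp3b : ∀ u v : ℕ, v ≤ u → 2 * n + 2 * (A / 6) < u →
      (f (A - 1) (b + 3) u v ↔ Fst (A - 1) (b + 3) u v)) : Cy3 f A b (2 * n) := by
  have h1 := H.hA; have h2 := H.hb2; have h3 := H.h4; have h4 := H.hAb; have h5 := H.hn
  have h6 := H.h6
  have hcc : cc A = 2 * (A / 6) := by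
    unfold cc
    omega
  have r2 : St f A (b + 2) (2 * n + cc A) := by
    intro x y hxy
    rw [hcc] at hxy
    rcases Nat.lt_or_ge (max x y) (min x y + 2 * (A / 6)) with h7 | h7
    · exact H.r2s hf hp2 hi x y (by omega) (by omega)
    · exact hx2 x y h7 (by omega)
  refine ⟨H.r0, H.r1 hf, fun _ => H.r1s hf, r2, hx2, H.r2s hf hp2 hi, ?_, ?_⟩
  · rw [hcc] at r2 ⊢
    refine QF_even_flat hf (by omega) (by omega) (by omega) ?_ (Or.inr (by omega))
    intro x y hxy p q hp hq hpq hpa hqb
    rcases Nat.eq_zero_or_pos p with hp0 | hp0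
    · subst hp0
      have hq1 : q = 1 := by omega
      subst hq1
      exact r2 x y hxy
    · have hp1 : p = 1 := by omega
      subst hp1
      rcases Nat.eq_zero_or_pos q with hq0 | hq0
      · subst hq0
        rcases le_total y x with h | h
        · exact hp3b x y h (by omega)
        · rw [Nat.sub_zero, hf.swap_xy, Fst_swap_xy]
          exact hp3b y x h (by omega)
      · have hq1 : q = 1 := by omega
        subst hq1
        have e : b + 3 - 1 = b + 2 := by omega
        rw [e]
        rcases le_total y x with h | h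
        · exact hp2c x y h (by omega)
        · rw [hf.swap_xy, Fst_swap_xy]
          exact hp2c y x h (by omega)
  · intro x y h7 h8
    refine all_of_half hf (P := fun x y => x + 1 ≤ y + 2 * (A / 6) ∧ 2 * n + 3 < y) ?_ x y ⟨h7, h8⟩
    intro x y hyx hP
    refine S3n hf (K := 2 * n) (by omega) h1 (by omega) (by omega) (by omega) (by omega) (by omega)
      ?_ (H.r2s hf hp2 hi) hyx hP.1 hP.2
    intro u v q hvu huv hv hpar hq
    rcases Nat.eq_zero_or_pos q with hq0 | hq0
    · subst hq0
      exact hp3a u v hvu huv (by omega) hpar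
    · have hq1 : q = 1 := by omega
      subst hq1
      have e : b + 3 - 1 = b + 2 := by omega
      rw [e]
      exact hp2 u v hvu (by omega)

end DG

end LocZ

end Pool.Agent.SNT
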