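import Pool.Agent.SNT.LocDG
import Pool.Agent.SNT.IsoLocB

set_option autoImplicit false

/-! LOCATION STEP of the layer `6 k + 4` with a lead above the improved one: the zones of the odd layers and the
IN row. `b` is the IN row, `n` the column of the tip. -/

namespace Pool.Agent.SNT

variable {f : ℕ → ℕ → ℕ → ℕ → Prop}

namespace LocL4

open TipI LocZ LocG

/-- The window of the layer `6 k + 4`: IN row `b`, lead `n`; `X` is far behind the front. -/
structure HL (f : ℕ → ℕ → ℕ → ℕ → Prop) (k n b X : ℕ) : Prop where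
  hk : 8 ≤ k
  hb2 : b % 2 = 0
  h4 : (6 * k + b) % 4 = 2
  hbk : 40 * k + 400 ≤ b
  hXb : b + 10 * k + 100 ≤ X
  hX : X + 4 * k + 60 ≤ 2 * n
  fr : ∀ a r x y : ℕ, a ≤ 6 * k + 10 → b ≤ r + 8 → r ≤ b + 8 → y ≤ x → X < x →
    b + y < x + 6 * k + 60 → (f a r x y ↔ Fst a r x y)
  z1 : ∀ r : ℕ, b ≤ r + 8 → r ≤ b + 8 → St f (6 * k - 1) r X
  qe : ∀ r x y : ℕ, b ≤ r + 4 → r ≤ b + 4 → ¬ (r % 2 = 0 ∧ x % 2 = 0 ∧ y % 2 = 0) → y ≤ x →
    X + 1 < x → (f (6 * k + 1) r x y ↔ Fst (6 * k + 1) r x y)
  qm4 : ∀ x y : ℕ, y ≤ x → 2 * n < x + 4 → (f (6 * k + 1) (b - 4) x y ↔ Fst (6 * k + 1) (b - 4) x y)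
  qm2 : ∀ x y : ℕ, y ≤ x → 2 * n < x + 6 → (f (6 * k + 1) (b - 2) x y ↔ Fst (6 * k + 1) (b - 2) x y)
  q0f : ∀ x y : ℕ, y ≤ x → 2 * n < x + 3 → (f (6 * k + 1) b x y ↔ Fst (6 * k + 1) b x y)
  q2a : ∀ x y : ℕ, y ≤ x → 2 * n + 2 * k < x + 2 →
    (f (6 * k + 1) (b + 2) x y ↔ Fst (6 * k + 1) (b + 2) x y)
  c0 : Cyc f (6 * k) (b - 4) (2 * n - 8)
  b6d : ∀ x : ℕ, x % 2 = 1 → 2 * n < x + 5 → f (6 * k + 2) (b - 3) x x
  b6x : ∀ x y : ℕ, y + 2 * k + 1 ≤ x → 2 * n < x + 6 → x + 6 * k + 40 ≤ b + y →
    (x + y) % 4 = (2 * k) % 4 → f (6 * k + 2) (b - 3) x y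
  b2 : Cyc f (6 * k + 2) (b - 2) (2 * n - 6)
  am : Cyc f (6 * k + 4) (b - 4) (2 * n - 8)
  a0 : Cyc f (6 * k + 4) b (2 * n + 2)
  d0 : St f (6 * k + 6) (b - 2) (2 * n - 2)
  d2 : St f (6 * k + 6) (b + 2) (2 * n + 2 * k - 4)
  p3 : ∀ y : ℕ, y + 4 ≤ 2 * n → 2 * n + 4 ≤ y + 2 * k → ¬ f (6 * k + 3) b (2 * n) y
  p5 : ∀ x y : ℕ, 2 * n ≤ y → y + 2 ≤ x → x + 3 ≤ y + 2 * k → ¬ f (6 * k + 5) (b + 2) x y

namespace HL

variable {k n b X : ℕ}

/-- A static cell of an odd layer in the near zone is zero. -/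
theorem zo (H : HL f k n b X) {a r x y : ℕ} (ha : a % 2 = 1) (ha2 : a ≤ 6 * k + 7)
    (hr : b ≤ r + 8) (hyx : y ≤ x) (hn : x + 6 * k + 40 ≤ b + y)
    (h : f a r x y ↔ Fst a r x y) : ¬ f a r x y := by
  rw [h]
  exact Fst_near_odd ha (by omega)

/-- Static cells of an odd layer. -/
theorem mko (H : HL f k n b X) {a r x y : ℕ} (ha : a % 2 = 1) (ha2 : a ≤ 6 * k + 7)
    (hr : b ≤ r + 8) (hr2 : r ≤ b + 8) (hyx : y ≤ x) (hx : X < x)
    (h : x + 6 * k + 60 ≤ b + y → ¬ f a r x y) : f a r x y ↔ Fst a r x y := by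
  rcases Nat.lt_or_ge (b + y) (x + 6 * k + 60) with h1 | h1
  · exact H.fr a r x y (by omega) hr hr2 hyx hx h1
  · exact iff_of_false (h h1) (Fst_near_odd ha (by omega))

/-- Static cells of any layer. -/
theorem mke (H : HL f k n b X) {a r x y : ℕ} (ha2 : a ≤ 6 * k + 7)
    (hr : b ≤ r + 8) (hr2 : r ≤ b + 8) (hyx : y ≤ x) (hx : X < x)
    (h : x + 6 * k + 60 ≤ b + y → (f a r x y ↔ Fst a r x y)) : f a r x y ↔ Fst a r x y := by
  rcases Nat.lt_or_ge (b + y) (x + 6 * k + 60) with h1 | h1
  · exact H.fr a r x y (by omega) hr hr2 hyx hx h1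
  · exact h h1

/-- The layer `6 k - 1` is zero. -/
theorem z1z (H : HL f k n b X) {r x y : ℕ} (hr : b ≤ r + 8) (hr2 : r ≤ b + 8) (hyx : y ≤ x)
    (hx : X < x) (hn : x + 6 * k + 40 ≤ b + y) : ¬ f (6 * k - 1) r x y := by
  have h1 := H.hk
  exact H.zo (by omega) (by omega) hr hyx hn (H.z1 r hr hr2 x y (by omega))

/-- The exterior of the layer `6 k` in the row `b - 1`. -/
theorem cm1 (hf : Rule f) (H : HL f k n b X) {x y : ℕ} (hd : y + 2 * k + 1 ≤ x)
    (hx : 2 * n < x + 2) : f (6 * k) (b - 1) x y ↔ Fst (6 * k) (b - 1) x y := by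
  have h1 := H.hk; have h2 := H.hb2; have h3 := H.h4; have h4 := H.hbk; have h5 := H.hXb
  have h6 := H.hX
  have e6 : 6 * k / 6 = k := by omega
  refine H.mke (by omega) (by omega) (by omega) (by omega) (by omega) ?_
  intro hn
  refine ext_gen hf (D := 2 * k) (by omega) (by omega) (by omega) (by omega) (by omega)
    (by rw [e6]; omega) (by omega) ?_ ?_
  · intro u v h7 h8 h9 h10
    have e : b - 1 - 1 = b - 4 + 2 := by omega
    rw [e]
    exact H.c0.r2x u v (by rw [e6]; omega) (by omega)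
  · intro _ q r s hq hr hs
    exact H.z1z (by omega) (by omega) (by omega) (by omega) (by omega)

theorem c00 (hf : Rule f) (H : HL f k n b X) {x y : ℕ} (hd : y + 2 * k + 2 ≤ x)
    (hx : 2 * n < x) : f (6 * k) b x y ↔ Fst (6 * k) b x y := by
  have h1 := H.hk; have h2 := H.hb2; have h3 := H.h4; have h4 := H.hbk; have h5 := H.hXb
  have h6 := H.hX
  have e6 : 6 * k / 6 = k := by omega
  refine H.mke (by omega) (by omega) (by omega) (by omega) (by omega) ?_
  intro hn
  refine ext_gen hf (D := 2 * k + 1) (by omega) (by omega) (by omega) (by omega) (by omega)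
    (by rw [e6]; omega) (by omega) ?_ ?_
  · intro u v h7 h8 h9 h10
    exact H.cm1 hf (by omega) (by omega)
  · intro _ q r s hq hr hs
    exact H.z1z (by omega) (by omega) (by omega) (by omega) (by omega)

theorem c1 (hf : Rule f) (H : HL f k n b X) {x y : ℕ} (hd : y + 2 * k + 3 ≤ x)
    (hx : 2 * n + 2 < x) : f (6 * k) (b + 1) x y ↔ Fst (6 * k) (b + 1) x y := by
  have h1 := H.hk; have h2 := H.hb2; have h3 := H.h4; have h4 := H.hbk; have h5 := H.hXb
  have h6 := H.hX
  have e6 : 6 * k / 6 = k := by omega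
  refine H.mke (by omega) (by omega) (by omega) (by omega) (by omega) ?_
  intro hn
  refine ext_gen hf (D := 2 * k + 2) (by omega) (by omega) (by omega) (by omega) (by omega)
    (by rw [e6]; omega) (by omega) ?_ ?_
  · intro u v h7 h8 h9 h10
    have e : b + 1 - 1 = b := by omega
    rw [e]
    exact H.c00 hf (by omega) (by omega)
  · intro _ q r s hq hr hs
    exact H.z1z (by omega) (by omega) (by omega) (by omega) (by omega)

/-- The layer `6 k + 1` in the row `b + 2`, exterior. -/
theorem q2b (hf : Rule f) (H : HL f k n b X) {x y : ℕ} (hd : y + 2 * k + 2 ≤ x)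
    (hx : 2 * n + 3 < x) : f (6 * k + 1) (b + 2) x y ↔ Fst (6 * k + 1) (b + 2) x y := by
  have h1 := H.hk; have h2 := H.hb2; have h3 := H.h4; have h4 := H.hbk; have h5 := H.hXb
  have h6 := H.hX
  have e6 : 6 * k / 6 = k := by omega
  refine H.mko (by omega) (by omega) (by omega) (by omega) (by omega) (by omega) ?_
  intro hn
  by_cases hE : (b + 2) % 2 = 0 ∧ x % 2 = 0 ∧ y % 2 = 0
  swap
  · exact H.zo (by omega) (by omega) (by omega) (by omega) (by omega)
      (H.qe (b + 2) x y (by omega) (by omega) hE (by omega) (by omega))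
  · obtain ⟨-, hx2, hy2⟩ := hE
    rcases (show (x + y) % 4 = (2 + 2 * k) % 4 ∨ (x + y) % 4 = (2 * k) % 4 by omega) with hc | hc
    · -- sandwich
      have ho : f (6 * k) (b - 1) (x - 1) (y - 1) := by
        rw [H.cm1 hf (by omega) (by omega), fst_ext (by omega) (by omega) (by omega) (by omega)
          (by rw [e6]; omega), e6]
        omega
      have := sand_b hf ho (by omega)
      have e1 : b - 1 + 3 = b + 2 := by omega
      have e2 : x - 1 + 1 = x := by omega
      have e3 : y - 1 + 1 = y := by omega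
      rwa [e1, e2, e3] at this
    · have ho : f (6 * k) (b + 1) (x - 1) (y - 1) := by
        rw [H.c1 hf (by omega) (by omega), fst_ext (by omega) (by omega) (by omega) (by omega)
          (by rw [e6]; omega), e6]
        omega
      exact kill hf ho (by omega) (by omega) (by omega) (by omega) (by omega)

/-- The layer `6 k + 1` in the row `b + 2`, diagonal. -/
theorem q2d (hf : Rule f) (H : HL f k n b X) {x : ℕ} (hx : 2 * n ≤ x) :
    f (6 * k + 1) (b + 2) x x ↔ Fst (6 * k + 1) (b + 2) x x := by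
  have h1 := H.hk; have h2 := H.hb2; have h3 := H.h4; have h4 := H.hbk; have h5 := H.hXb
  have h6 := H.hX
  have e6 : 6 * k / 6 = k := by omega
  rcases Nat.mod_two_eq_zero_or_one x with hx2 | hx2
  swap
  · exact H.qe (b + 2) x x (by omega) (by omega) (by omega) (by omega) (by omega)
  · refine H.mko (by omega) (by omega) (by omega) (by omega) (by omega) (by omega) ?_
    intro hn
    have ho : f (6 * k) (b - 1) (x - 1) (x - 1) := by
      have e : b - 1 = b - 4 + 3 := by omega
      rw [e, H.c0.r3s _ _ (by rw [e6]; omega) (by omega), Fst_odd (by omega) (by omega) (by omega)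
        le_rfl (by rw [e6]; omega)]
      omega
    have := sand_b hf ho (by omega)
    have e1 : b - 1 + 3 = b + 2 := by omega
    have e2 : x - 1 + 1 = x := by omega
    rwa [e1, e2] at this

/-- The odd layer `6 k + 3` over `6 k + 2`: only the exceptional cells. -/
theorem eoP (hf : Rule f) (H : HL f k n b X) {r x y : ℕ} (hyx : y ≤ x)
    (hne : ¬ (r % 2 = 0 ∧ x % 2 = 0 ∧ y % 2 = 0))
    (H0 : ∀ q u v : ℕ, q ≤ 1 → v ≤ u → x ≤ u + 1 → u ≤ x → y ≤ v + 1 → v ≤ y →
      ¬ f (6 * k + 1) (r - q) u v) : ¬ f (6 * k + 3) r x y := by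
  have := eonly hf (A := 6 * k + 2) (b := r) (x := x) (y := y) (by omega) hne ?_
  · exact this
  · intro q i s hq hi hs
    have e : 6 * k + 2 - 1 = 6 * k + 1 := by omega
    rw [e]
    rcases Nat.lt_or_ge (x - i) (y - s) with h9 | h9
    · rw [hf.swap_xy]
      exact H0 q (y - s) (x - i) hq (by omega) (by omega) (by omega) (by omega) (by omega)
    · exact H0 q (x - i) (y - s) hq h9 (by omega) (by omega) (by omega) (by omega)

/-- `6 k + 3` in the row `b - 1`. -/
theorem pm1 (hf : Rule f) (H : HL f k n b X) {x y : ℕ} (hyx : y ≤ x) (hx : 2 * n < x + 5) :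
    f (6 * k + 3) (b - 1) x y ↔ Fst (6 * k + 3) (b - 1) x y := by
  have h1 := H.hk; have h2 := H.hb2; have h3 := H.h4; have h4 := H.hbk; have h5 := H.hXb
  have h6 := H.hX
  refine H.mko (by omega) (by omega) (by omega) (by omega) (by omega) (by omega) ?_
  intro hn
  refine H.eoP hf hyx (by omega) ?_
  intro q u v hq hvu hu1 hu2 hv1 hv2
  rcases Nat.eq_zero_or_pos q with hq0 | hq0
  · subst hq0
    exact H.zo (by omega) (by omega) (by omega) hvu (by omega)
      (H.qe (b - 1) u v (by omega) (by omega) (by omega) hvu (by omega))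
  · have e : b - 1 - q = b - 2 := by omega
    rw [e]
    exact H.zo (by omega) (by omega) (by omega) hvu (by omega) (H.qm2 u v hvu (by omega))

/-- `6 k + 3` in the row `b - 3`. -/
theorem pm3 (hf : Rule f) (H : HL f k n b X) {x y : ℕ} (hyx : y ≤ x) (hx : 2 * n < x + 3) :
    f (6 * k + 3) (b - 3) x y ↔ Fst (6 * k + 3) (b - 3) x y := by
  have h1 := H.hk; have h2 := H.hb2; have h3 := H.h4; have h4 := H.hbk; have h5 := H.hXb
  have h6 := H.hX
  refine H.mko (by omega) (by omega) (by omega) (by omega) (by omega) (by omega) ?_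
  intro hn
  refine H.eoP hf hyx (by omega) ?_
  intro q u v hq hvu hu1 hu2 hv1 hv2
  rcases Nat.eq_zero_or_pos q with hq0 | hq0
  · subst hq0
    exact H.zo (by omega) (by omega) (by omega) hvu (by omega)
      (H.qe (b - 3) u v (by omega) (by omega) (by omega) hvu (by omega))
  · have e : b - 3 - q = b - 4 := by omega
    rw [e]
    exact H.zo (by omega) (by omega) (by omega) hvu (by omega) (H.qm4 u v hvu (by omega))

/-- `6 k + 3` in the row `b - 2`. -/
theorem pm2 (hf : Rule f) (H : HL f k n b X) {x y : ℕ} (hyx : y ≤ x)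
    (hx : 2 * n < x + 4) : f (6 * k + 3) (b - 2) x y ↔ Fst (6 * k + 3) (b - 2) x y := by
  have h1 := H.hk; have h2 := H.hb2; have h3 := H.h4; have h4 := H.hbk; have h5 := H.hXb
  have h6 := H.hX
  have e6 : (6 * k + 2) / 6 = k := by omega
  refine H.mko (by omega) (by omega) (by omega) (by omega) (by omega) (by omega) ?_
  intro hn
  by_cases hE : (b - 2) % 2 = 0 ∧ x % 2 = 0 ∧ y % 2 = 0
  swap
  · refine H.eoP hf (by omega) hE ?_
    intro q u v hq hvu hu1 hu2 hv1 hv2
    rcases Nat.eq_zero_or_pos q with hq0 | hq0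
    · subst hq0
      exact H.zo (by omega) (by omega) (by omega) hvu (by omega) (H.qm2 u v hvu (by omega))
    · have e : b - 2 - q = b - 3 := by omega
      rw [e]
      exact H.zo (by omega) (by omega) (by omega) hvu (by omega)
        (H.qe (b - 3) u v (by omega) (by omega) (by omega) hvu (by omega))
  · obtain ⟨-, hx2, hy2⟩ := hE
    rcases Nat.lt_or_ge (y + 2 * k) x with hd | hd
    · rcases (show (x + y) % 4 = (2 + 2 * k) % 4 ∨ (x + y) % 4 = (2 * k) % 4 by omega) with hc | hc
      · exact kill hf (H.b6x (x - 1) (y - 1) (by omega) (by omega) (by omega) (by omega))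
          (by omega) (by omega) (by omega) (by omega) (by omega)
      · exact kill hf (H.b6x x y (by omega) (by omega) (by omega) (by omega))
          (by omega) (by omega) (by omega) (by omega) (by omega)
    · rcases Nat.eq_or_lt_of_le hyx with h0 | h0
      · subst h0
        exact kill hf (H.b6d (y - 1) (by omega) (by omega))
          (by omega) (by omega) (by omega) (by omega) (by omega)
      · have hc : f (6 * k + 2) (b - 2) (x - 1) y := by
          rw [H.b2.r0 (x - 1) y (by omega), Fst_II (by omega) (by omega) (by omega) (by omega)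
            (by omega) (by rw [e6]; omega)]
          omega
        exact kill hf hc (by omega) (by omega) (by omega) (by omega) (by omega)

/-- The ones of the layer `6 k + 2` in the row `b - 1`, exterior. -/
theorem bm1 (H : HL f k n b X) {x y : ℕ} (hd : y + 2 * k ≤ x) (hx : 2 * n < x + 4)
    (hn : x + 6 * k + 40 ≤ b + y) (hc : (x + y) % 4 = (2 + 2 * k) % 4) :
    f (6 * k + 2) (b - 1) x y := by
  have h1 := H.hk; have h2 := H.hb2; have h3 := H.h4; have h4 := H.hbk
  have e6 : (6 * k + 2) / 6 = k := by omega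
  have e : b - 1 = b - 2 + 1 := by omega
  rw [e, H.b2.r1 _ _ (by omega), fst_ext (by omega) (by omega) (by omega) (by omega)
    (by rw [e6]; omega), e6]
  omega

/-- The diagonal ones of the layer `6 k + 2` in the row `b - 1`. -/
theorem bm1d (H : HL f k n b X) {x : ℕ} (hx : 2 * n < x + 4) (hx2 : x % 2 = 0) :
    f (6 * k + 2) (b - 1) x x := by
  have h1 := H.hk; have h2 := H.hb2; have h3 := H.h4; have h4 := H.hbk; have h6 := H.hX
  have e6 : (6 * k + 2) / 6 = k := by omega
  have e : b - 1 = b - 2 + 1 := by omega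
  rw [e, H.b2.r1s (by omega) _ _ (by rw [e6]; omega) (by omega), Fst_odd (by omega) (by omega)
    (by omega) le_rfl (by rw [e6]; omega)]
  omega

/-- The ones of the layer `6 k + 2` in its OUT row `b`. -/
theorem b0o (H : HL f k n b X) {x y : ℕ} (hyx : y < x) (hd : x + 1 ≤ y + 2 * k)
    (hy : 2 * n < y + 5) (hx2 : x % 2 = 0) (hy2 : y % 2 = 1) : f (6 * k + 2) b x y := by
  have h1 := H.hk; have h2 := H.hb2; have h3 := H.h4; have h4 := H.hbk; have h6 := H.hX
  have e6 : (6 * k + 2) / 6 = k := by omega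
  have e : b = b - 2 + 2 := by omega
  rw [e, H.b2.r2s _ _ (by rw [e6]; omega) (by omega), Fst_I (by omega) (by omega) (by omega)
    (by omega) hyx.le (by rw [e6]; omega)]
  exact ⟨hx2, hy2⟩

/-- `6 k + 3` in the row `b`. -/
theorem p0 (hf : Rule f) (H : HL f k n b X) {x y : ℕ} (hyx : y ≤ x)
    (hx : 2 * n < x + 2) : f (6 * k + 3) b x y ↔ Fst (6 * k + 3) b x y := by
  have h1 := H.hk; have h2 := H.hb2; have h3 := H.h4; have h4 := H.hbk; have h5 := H.hXb
  have h6 := H.hX
  have e6 : (6 * k + 4) / 6 = k := by omega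
  refine H.mko (by omega) (by omega) (by omega) (by omega) (by omega) (by omega) ?_
  intro hn
  by_cases hE : b % 2 = 0 ∧ x % 2 = 0 ∧ y % 2 = 0
  swap
  · refine H.eoP hf (by omega) hE ?_
    intro q u v hq hvu hu1 hu2 hv1 hv2
    rcases Nat.eq_zero_or_pos q with hq0 | hq0
    · subst hq0
      exact H.zo (by omega) (by omega) (by omega) hvu (by omega) (H.q0f u v (by omega) (by omega))
    · have e : b - q = b - 1 := by omega
      rw [e]
      exact H.zo (by omega) (by omega) (by omega) hvu (by omega)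
        (H.qe (b - 1) u v (by omega) (by omega) (by omega) hvu (by omega))
  obtain ⟨-, hx2, hy2⟩ := hE
  rcases Nat.lt_or_ge x (y + 2 * k) with hd | hd
  swap
  · rcases (show (x + y) % 4 = (2 + 2 * k) % 4 ∨ (x + y) % 4 = (2 * k) % 4 by omega) with hc | hc
    · exact kill hf (H.bm1 (x := x) (y := y) (by omega) (by omega) (by omega) (by omega))
        (by omega) (by omega) (by omega) (by omega) (by omega)
    · exact kill hf (H.bm1 (x := x - 1) (y := y - 1) (by omega) (by omega) (by omega) (by omega))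
        (by omega) (by omega) (by omega) (by omega) (by omega)
  rcases Nat.eq_or_lt_of_le hyx with h0 | h0
  · subst h0
    exact kill hf (H.bm1d (x := y) (by omega) (by omega))
      (by omega) (by omega) (by omega) (by omega) (by omega)
  rcases Nat.lt_or_ge (2 * n) x with hx3 | hx3
  · intro h'
    have hc : f (6 * k + 4) b (x + 1) y := by
      rw [H.a0.r0 (x + 1) y (by omega), Fst_II (by omega) (by omega) (by omega) (by omega)
        (by omega) (by rw [e6]; omega)]
      omega
    exact kill hf h' (by omega) (by omega) (by omega) (by omega) (by omega) hc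
  have ex : x = 2 * n := by omega
  subst ex
  rcases Nat.lt_or_ge (2 * n) (y + 4) with h7 | h7
  · exact kill hf (H.b0o (x := 2 * n) (y := y - 1) (by omega) (by omega) (by omega) (by omega)
      (by omega)) (by omega) (by omega) (by omega) (by omega) (by omega)
  rcases Nat.lt_or_ge (y + 2 * k) (2 * n + 3) with h8 | h8
  · have ho := H.bm1 (x := 2 * n - 1) (y := y - 3) (by omega) (by omega) (by omega) (by omega)
    have := sand_y hf ho (by omega)
    have e1 : b - 1 + 1 = b := by omega
    have e2 : 2 * n - 1 + 1 = 2 * n := by omega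
    have e3 : y - 3 + 3 = y := by omega
    rwa [e1, e2, e3] at this
  · exact H.p3 y (by omega) (by omega)

/-- The odd layer above in the rows `b - 3`, `b - 2`. -/
theorem um (hf : Rule f) (H : HL f k n b X) {r x y : ℕ} (hr : r = b - 3 ∨ r = b - 2) (hyx : y < x)
    (hd : x + 1 ≤ y + 2 * k) (hx : 2 * n < x + 2) : ¬ f (6 * k + 5) r x y := by
  have h1 := H.hk; have h2 := H.hb2; have h3 := H.h4; have h4 := H.hbk; have h5 := H.hXb
  have h6 := H.hX
  intro h
  have e6 : (6 * k + 6) / 6 = k + 1 := by omega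
  have one : ∀ u v : ℕ, v < u → u + 1 ≤ v + 2 * k + 2 → 2 * n < u + 2 → u % 2 = 1 → v % 2 = 0 →
      f (6 * k + 6) (b - 2) u v := by
    intro u v h7 h8 h9 h10 h11
    rw [H.d0 u v (by omega), Fst_II (by omega) (by omega) (by omega) (by omega)
      (by omega) (by rw [e6]; omega)]
    omega
  have hk2 : ∀ u v : ℕ, x ≤ u → u ≤ x + 1 → y ≤ v → v ≤ y + 1 →
      f (6 * k + 6) (b - 2) u v → False := by
    intro u v h7 h8 h9 h10 h11
    exact kill hf h (by omega) (by omega) ⟨h7, h8⟩ ⟨h9, h10⟩ (by omega) h11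
  rcases Nat.mod_two_eq_zero_or_one x with hx' | hx' <;>
    rcases Nat.mod_two_eq_zero_or_one y with hy' | hy'
  · exact hk2 (x + 1) y (by omega) (by omega) (by omega) (by omega)
      (one _ _ (by omega) (by omega) (by omega) (by omega) (by omega))
  · exact hk2 (x + 1) (y + 1) (by omega) (by omega) (by omega) (by omega)
      (one _ _ (by omega) (by omega) (by omega) (by omega) (by omega))
  · exact hk2 x y (by omega) (by omega) (by omega) (by omega)
      (one _ _ (by omega) (by omega) (by omega) (by omega) (by omega))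
  · exact hk2 x (y + 1) (by omega) (by omega) (by omega) (by omega)
      (one _ _ (by omega) (by omega) (by omega) (by omega) (by omega))

/-- THE IN ROW. -/
theorem r0 (hf : Rule f) (H : HL f k n b X) (tip : f (6 * k + 4) b (2 * n + 1) (2 * n)) :
    St f (6 * k + 4) b (2 * n) := by
  have h1 := H.hk; have h2 := H.hb2; have h3 := H.h4; have h4 := H.hbk; have h5 := H.hXb
  have h6 := H.hX
  have e6 : (6 * k + 4) / 6 = k := by omega
  have e3 : 6 * k + 4 - 1 = 6 * k + 3 := by omega
  have e44 : b - 4 + 4 = b := by omega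
  have hyp : IsoB.Hyp f (6 * k + 4) (b - 4) n (2 * n - 8 + 1) := by
    refine IsoB.Hyp.of_cyc (by omega) H.am (by omega) ?_ ?_ ?_ ?_ ?_
    · intro x y hd hx
      rw [e3, show b - 4 + 2 = b - 2 by omega]
      exact H.pm2 hf (by omega) (by omega)
    · intro x y hd hx
      rw [e3, show b - 4 + 3 = b - 1 by omega]
      exact H.pm1 hf (by omega) (by omega)
    · intro x y hyx hx
      rw [e3, e44]
      exact H.p0 hf hyx hx
    · intro i x y hi1 hi3 hyx hd hx1 hx2
      rw [e6] at hd
      rw [e3]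
      rcases (show i = 1 ∨ i = 2 ∨ i = 3 by omega) with rfl | rfl | rfl
      · rw [show b - 4 + 1 = b - 3 by omega]
        exact H.zo (by omega) (by omega) (by omega) hyx (by omega) (H.pm3 hf hyx (by omega))
      · rw [show b - 4 + 2 = b - 2 by omega]
        exact H.zo (by omega) (by omega) (by omega) hyx (by omega) (H.pm2 hf hyx (by omega))
      · rw [show b - 4 + 3 = b - 1 by omega]
        exact H.zo (by omega) (by omega) (by omega) hyx (by omega) (H.pm1 hf hyx (by omega))
    · intro i x y hi1 hi2 hyx hd hx1 hx2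
      rw [e6] at hd
      exact H.um hf (by omega) hyx hd hx1
  have h := IsoB.tip_row hf (A := 6 * k + 4) (b := b - 4) (N := n) (K := 2 * n - 8 + 1)
    ⟨by omega, by omega, by omega, by omega, by omega, by omega⟩ hyp
    (by rw [e44]; exact H.a0.r0) (by rw [e44]; exact tip)
  rwa [e44] at h

end HL

end LocL4

end Pool.Agent.SNT
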