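import Pool.Agent.SNT.LocL4a
import Pool.Agent.SNT.Mid

set_option autoImplicit false

/-! LOCATION STEP of the layer `6 k + 4` with a lead above the improved one: the OUT row. -/

namespace Pool.Agent.SNT

variable {f : ℕ → ℕ → ℕ → ℕ → Prop}

namespace LocL4

open TipI LocZ LocG

/-- The odd layer above in the OUT row, at the crossing cells of the line `2 n + 4`. -/
def U2 (f : ℕ → ℕ → ℕ → ℕ → Prop) (A b n : ℕ) : Prop :=
  ∀ x : ℕ, x % 2 = 1 → 2 * n + 5 ≤ x → x + 1 ≤ 2 * n + 2 + 2 * (A / 6) →
    ¬ f (A + 1) (b + 2) (x + 1) (2 * n + 4)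

namespace DG

variable {A b n : ℕ}

theorem star (hf : Rule f) (H : LocZ.DG f A b n) (hp2 : P2b f A b n) (hi : U2 f A b n) {x : ℕ} (hx2 : x % 2 = 1)
    (hx : 2 * n + 5 ≤ x) (hd : x + 1 ≤ 2 * n + 2 + 2 * (A / 6)) :
    ¬ f A (b + 2) x (2 * n + 2) := by
  have h1 := H.hA; have h2 := H.hb2; have h3 := H.h4; have h4 := H.hAb; have h5 := H.hn
  have h6 := H.h6
  intro hY
  have z0 : ∀ u v : ℕ, v ≤ u → 2 * n < u → u < v + 2 * (A / 6) + 8 → ¬ f (A - 1) b u v := by
    intro u v huv hu hd h
    rw [H.p0 u v (by omega)] at h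
    exact Fst_near_odd (by omega) (by omega) h
  have z1 : ∀ u v : ℕ, v ≤ u → 2 * n < u → u < v + 2 * (A / 6) + 8 → ¬ f (A - 1) (b + 1) u v := by
    intro u v huv hu hd h
    rw [H.p1 u v (by omega)] at h
    exact Fst_near_odd (by omega) (by omega) h
  have z2 : ∀ u v : ℕ, v ≤ u → 2 * n + 1 < v → u < v + 2 * (A / 6) + 8 →
      ¬ f (A - 1) (b + 2) u v := by
    intro u v huv hu hd h
    rw [hp2 u v huv hu] at h
    exact Fst_near_odd (by omega) (by omega) h
  have hz : f (A + 1) (b + 2) (x + 1) (2 * n + 4) := by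
    by_contra hno
    obtain ⟨p, q, r, s, hp, hq, hr, hs, hsum, hpa, hqb, hrx, hsy, hone⟩ :=
      hf.exists_pred (by omega) hno
    rcases Nat.eq_zero_or_pos p with hp0 | hp0
    · subst hp0
      rw [Nat.sub_zero] at hone
      rcases Nat.eq_zero_or_pos q with hq0 | hq0
      · subst hq0
        rw [Nat.sub_zero] at hone
        refine eonly hf h1 (by omega) ?_ hone
        intro q' r' s' hq' hr' hs'
        rcases Nat.eq_zero_or_pos q' with h7 | h7
        · subst h7
          exact z2 _ _ (by omega) (by omega) (by omega)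
        · have h8 : b + 2 - q' = b + 1 := by omega
          rw [h8]
          exact z1 _ _ (by omega) (by omega) (by omega)
      · have hq1 : b + 2 - q = b + 1 := by omega
        rw [hq1] at hone
        refine eonly hf h1 (by omega) ?_ hone
        intro q' r' s' hq' hr' hs'
        rcases Nat.eq_zero_or_pos q' with h7 | h7
        · subst h7
          exact z1 _ _ (by omega) (by omega) (by omega)
        · have h8 : b + 1 - q' = b := by omega
          rw [h8]
          exact z0 _ _ (by omega) (by omega) (by omega)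
    · have hp1 : p = 1 := by omega
      subst hp1
      rw [Nat.add_sub_cancel] at hone
      rcases Nat.eq_zero_or_pos q with hq0 | hq0
      · subst hq0
        rw [Nat.sub_zero] at hone
        have hrs : (r = 0 ∧ s = 0) ∨ (r = 1 ∧ s = 0) ∨ s = 1 := by omega
        rcases hrs with ⟨rfl, rfl⟩ | ⟨rfl, rfl⟩ | rfl
        · exact hf.not_allEven hone (by omega)
        · rw [H.C.r2s _ _ (by omega) (by omega),
            fst_zero h1 (by omega) (by omega) (by omega)] at hone
          omega
        · exact kill hf hY (a' := A) (b' := b + 2) (x' := x + 1 - r) (y' := 2 * n + 4 - 1)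
            (by omega) (by omega) (by omega) (by omega) (by omega) hone
      · have hq1 : b + 2 - q = b + 1 := by omega
        rw [hq1, H.r1s hf _ _ (by omega) (by omega),
          fst_three h1 (by omega) (by omega) (by omega) (by omega)] at hone
        omega
  exact hi x hx2 hx hd hz

theorem Yzero (hf : Rule f) (H : LocZ.DG f A b n) (hp2 : P2b f A b n) (hi : U2 f A b n) {x : ℕ} (hx2 : x % 2 = 1)
    (hx : 2 * n + 3 ≤ x) (hd : x + 1 ≤ 2 * n + 2 + 2 * (A / 6)) :
    ¬ f A (b + 2) x (2 * n + 2) := by
  rcases Nat.lt_or_ge x (2 * n + 5) with h | h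
  · have e : x = 2 * n + 3 := by omega
    subst e
    exact kill hf (H.diag1 hf) (by omega) (by omega) (by omega) (by omega) (by omega)
  · exact star hf H hp2 hi hx2 h hd

theorem line (hf : Rule f) (H : LocZ.DG f A b n) (hp2 : P2b f A b n) (hi : U2 f A b n) : ∀ t : ℕ,
    2 * n + 4 + 2 * t + 1 ≤ 2 * n + 3 + 2 * (A / 6) →
      f A (b + 2) (2 * n + 4 + 2 * t) (2 * n + 3) := by
  have h1 := H.hA; have h2 := H.hb2; have h3 := H.h4; have h4 := H.hAb; have h5 := H.hn
  have h6 := H.h6
  intro t
  induction t with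
  | zero =>
    intro hd
    by_contra hno
    obtain ⟨p, q, r, s, hp, hq, hr, hs, hsum, hpa, hqb, hrx, hsy, hone⟩ :=
      hf.exists_pred (by omega) hno
    rcases Nat.eq_zero_or_pos p with hp0 | hp0
    · subst hp0
      rw [Nat.sub_zero] at hone
      rcases Nat.eq_zero_or_pos q with hq0 | hq0
      · subst hq0
        rw [Nat.sub_zero] at hone
        have hrs : (r = 0 ∧ s = 1) ∨ (r = 1 ∧ s = 0) ∨ (r = 1 ∧ s = 1) := by omega
        rcases hrs with ⟨rfl, rfl⟩ | ⟨rfl, rfl⟩ | ⟨rfl, rfl⟩
        · exact hf.not_allEven hone (by omega)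
        · exact kill hf (H.diag1 hf) (a' := A) (b' := b + 2) (x' := 2 * n + 4 + 2 * 0 - 1)
            (y' := 2 * n + 3 - 0) (by omega) (by omega) (by omega) (by omega) (by omega) hone
        · exact Yzero hf H hp2 hi (x := 2 * n + 4 + 2 * 0 - 1) (by omega) (by omega) (by omega)
            hone
      · have hq1 : b + 2 - q = b + 1 := by omega
        rw [hq1, H.r1s hf _ _ (by omega) (by omega),
          fst_three h1 (by omega) (by omega) (by omega) (by omega)] at hone
        omega
    · have hp1 : p = 1 := by omega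
      subst hp1
      rcases Nat.eq_zero_or_pos q with hq0 | hq0
      · subst hq0
        rw [Nat.sub_zero, hp2 _ _ (by omega) (by omega)] at hone
        exact Fst_near_odd (by omega) (by omega) hone
      · have hq1 : b + 2 - q = b + 1 := by omega
        rw [hq1, H.p1 _ _ (by omega)] at hone
        exact Fst_near_odd (by omega) (by omega) hone
  | succ t ih =>
    intro hd
    have ih' := ih (by omega)
    by_contra hno
    obtain ⟨p, q, r, s, hp, hq, hr, hs, hsum, hpa, hqb, hrx, hsy, hone⟩ :=
      hf.exists_pred (by omega) hno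
    rcases Nat.eq_zero_or_pos p with hp0 | hp0
    · subst hp0
      rw [Nat.sub_zero] at hone
      rcases Nat.eq_zero_or_pos q with hq0 | hq0
      · subst hq0
        rw [Nat.sub_zero] at hone
        have hrs : (r = 0 ∧ s = 1) ∨ (r = 1 ∧ s = 0) ∨ (r = 1 ∧ s = 1) := by omega
        rcases hrs with ⟨rfl, rfl⟩ | ⟨rfl, rfl⟩ | ⟨rfl, rfl⟩
        · exact hf.not_allEven hone (by omega)
        · exact kill hf ih' (a' := A) (b' := b + 2) (x' := 2 * n + 4 + 2 * (t + 1) - 1)
            (y' := 2 * n + 3 - 0) (by omega) (by omega) (by omega) (by omega) (by omega) hone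
        · exact Yzero hf H hp2 hi (x := 2 * n + 4 + 2 * (t + 1) - 1) (by omega) (by omega) (by omega)
            hone
      · have hq1 : b + 2 - q = b + 1 := by omega
        rw [hq1, H.r1s hf _ _ (by omega) (by omega),
          fst_three h1 (by omega) (by omega) (by omega) (by omega)] at hone
        omega
    · have hp1 : p = 1 := by omega
      subst hp1
      rcases Nat.eq_zero_or_pos q with hq0 | hq0
      · subst hq0
        rw [Nat.sub_zero, hp2 _ _ (by omega) (by omega)] at hone
        exact Fst_near_odd (by omega) (by omega) hone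
      · have hq1 : b + 2 - q = b + 1 := by omega
        rw [hq1, H.p1 _ _ (by omega)] at hone
        exact Fst_near_odd (by omega) (by omega) hone

theorem r2s (hf : Rule f) (H : LocZ.DG f A b n) (hp2 : P2b f A b n) (hi : U2 f A b n) : ∀ x y : ℕ,
    max x y + 1 ≤ min x y + 2 * (A / 6) → 2 * n + 1 < min x y →
      (f A (b + 2) x y ↔ Fst A (b + 2) x y) := by
  have h1 := H.hA; have h2 := H.hb2; have h3 := H.h4; have h4 := H.hAb; have h5 := H.hn
  have h6 := H.h6
  intro x y h7 h8
  rcases Nat.lt_or_ge (2 * n + 3) (min x y) with h9 | h9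
  · exact H.C.r2s x y h7 (by omega)
  refine all_of_half hf (P := fun x y => x + 1 ≤ y + 2 * (A / 6) ∧ 2 * n + 1 < y ∧
    y ≤ 2 * n + 3) ?_ x y ⟨h7, h8, h9⟩
  intro x y hyx hP
  obtain ⟨hd, hy, hy3⟩ := hP
  have hl : ∀ u : ℕ, u % 2 = 0 → 2 * n + 4 ≤ u → u + 1 ≤ 2 * n + 3 + 2 * (A / 6) →
      f A (b + 2) u (2 * n + 3) := by
    intro u hu2 hu hud
    have h10 := line hf H hp2 hi ((u - (2 * n + 4)) / 2) (by omega)
    have e : 2 * n + 4 + 2 * ((u - (2 * n + 4)) / 2) = u := by omega
    rw [e] at h10
    exact h10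
  have hyy : y = 2 * n + 2 ∨ y = 2 * n + 3 := by omega
  rw [fst_zero h1 (by omega) hyx (by omega)]
  rcases hyy with rfl | rfl
  · rcases Nat.mod_two_eq_zero_or_one x with hx2 | hx2
    · refine iff_of_false ?_ (by omega)
      intro h
      exact hf.not_allEven h (by omega)
    · refine iff_of_false ?_ (by omega)
      exact Yzero hf H hp2 hi hx2 (by omega) hd
  · rcases Nat.mod_two_eq_zero_or_one x with hx2 | hx2
    · refine iff_of_true ?_ (by omega)
      exact hl x hx2 (by omega) hd
    · refine iff_of_false ?_ (by omega)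
      rcases Nat.eq_or_lt_of_le hyx with h10 | h10
      · subst h10
        exact kill hf (H.diag1 hf) (by omega) (by omega) (by omega) (by omega) (by omega)
      · exact kill hf (hl (x - 1) (by omega) (by omega) (by omega)) (by omega) (by omega)
          (by omega) (by omega) (by omega)

/-- THE DIRTY CYCLE: `r2x` is a hypothesis. -/
theorem cy3 (hf : Rule f) (H : LocZ.DG f A b n) (hp2 : P2b f A b n) (hi : U2 f A b n)
    (hx2 : ∀ x y : ℕ, min x y + 2 * (A / 6) ≤ max x y → 2 * n + 4 < max x y →
      (f A (b + 2) x y ↔ Fst A (b + 2) x y))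
    (hp2c : ∀ u v : ℕ, v ≤ u → 2 * n + 2 * (A / 6) < u →
      (f (A - 1) (b + 2) u v ↔ Fst (A - 1) (b + 2) u v))
    (hp3a : ∀ u v : ℕ, v ≤ u → u ≤ v + 1 → 2 * n + 3 < v → (u = v ∨ v % 2 = 0) →
      (f (A - 1) (b + 3) u v ↔ Fst (A - 1) (b + 3) u v))
    (hp3b : ∀ u v : ℕ, v ≤ u → 2 * n + 2 * (A / 6) < u →
      (f (A - 1) (b + 3) u v ↔ Fst (A - 1) (b + 3) u v)) : Cy3 f A b (2 * n) := by
  have h1 := H.hA; have h2 := H.hb2; have h3 := H.h4; have h4 := H.hAb; have h5 := H.hn
  have h6 := H.h6
  have hcc : cc A = 2 * (A / 6) := by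
    unfold cc
    omega
  have r2 : St f A (b + 2) (2 * n + cc A) := by
    intro x y hxy
    rw [hcc] at hxy
    rcases Nat.lt_or_ge (max x y) (min x y + 2 * (A / 6)) with h7 | h7
    · exact r2s hf H hp2 hi x y (by omega) (by omega)
    · exact hx2 x y h7 (by omega)
  refine ⟨H.r0, H.r1 hf, fun _ => H.r1s hf, r2, hx2, r2s hf H hp2 hi, ?_, ?_⟩
  · rw [hcc] at r2 ⊢
    refine QF_even_flat hf (by omega) (by omega) (by omega) ?_ (Or.inr (by omega))
    intro x y hxy p q hp hq hpq hpa hqb
    rcases Nat.eq_zero_or_pos p with hp0 | hp0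
    · subst hp0
      have hq1 : q = 1 := by omega
      subst hq1
      exact r2 x y hxy
    · have hp1 : p = 1 := by omega
      subst hp1
      rcases Nat.eq_zero_or_pos q with hq0 | hq0
      · subst hq0
        rcases le_total y x with h | h
        · exact hp3b x y h (by omega)
        · rw [Nat.sub_zero, hf.swap_xy, Fst_swap_xy]
          exact hp3b y x h (by omega)
      · have hq1 : q = 1 := by omega
        subst hq1
        have e : b + 3 - 1 = b + 2 := by omega
        rw [e]
        rcases le_total y x with h | h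
        · exact hp2c x y h (by omega)
        · rw [hf.swap_xy, Fst_swap_xy]
          exact hp2c y x h (by omega)
  · intro x y h7 h8
    refine all_of_half hf (P := fun x y => x + 1 ≤ y + 2 * (A / 6) ∧ 2 * n + 3 < y) ?_ x y ⟨h7, h8⟩
    intro x y hyx hP
    refine S3n hf (K := 2 * n) (by omega) h1 (by omega) (by omega) (by omega) (by omega) (by omega)
      ?_ (r2s hf H hp2 hi) hyx hP.1 hP.2
    intro u v q hvu huv hv hpar hq
    rcases Nat.eq_zero_or_pos q with hq0 | hq0
    · subst hq0
      exact hp3a u v hvu huv (by omega) hpar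
    · have hq1 : q = 1 := by omega
      subst hq1
      have e : b + 3 - 1 = b + 2 := by omega
      rw [e]
      exact hp2 u v hvu (by omega)

end DG

namespace HL

variable {k n b X : ℕ}

/-- The ones of the leader in its IN row. -/
theorem aone (H : HL f k n b X) (hr : St f (6 * k + 4) b (2 * n)) {x y : ℕ} (hyx : y < x)
    (hd : x + 1 ≤ y + 2 * k) (hx : 2 * n < x) (hx2 : x % 2 = 1) (hy2 : y % 2 = 0) :
    f (6 * k + 4) b x y := by
  have h1 := H.hk; have h2 := H.hb2; have h3 := H.h4; have h4 := H.hbk
  have e6 : (6 * k + 4) / 6 = k := by omega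
  rw [hr x y (by omega), Fst_II (by omega) (by omega) h2 (by omega) hyx.le (by rw [e6]; omega)]
  exact ⟨hx2, hy2⟩

/-- `6 k + 3` in the row `b + 1`. -/
theorem p1 (hf : Rule f) (H : HL f k n b X) (hr : St f (6 * k + 4) b (2 * n)) {x y : ℕ}
    (hyx : y ≤ x) (hx : 2 * n < x) : f (6 * k + 3) (b + 1) x y ↔ Fst (6 * k + 3) (b + 1) x y := by
  have h1 := H.hk; have h2 := H.hb2; have h3 := H.h4; have h4 := H.hbk; have h5 := H.hXb
  have h6 := H.hX
  refine H.mko (by omega) (by omega) (by omega) (by omega) (by omega) (by omega) ?_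
  intro hn
  refine H.eoP hf hyx (by omega) ?_
  intro q u v hq hvu hu1 hu2 hv1 hv2
  rcases Nat.eq_zero_or_pos q with hq0 | hq0
  · subst hq0
    exact H.zo (by omega) (by omega) (by omega) hvu (by omega)
      (H.qe (b + 1) u v (by omega) (by omega) (by omega) hvu (by omega))
  · have e : b + 1 - q = b := by omega
    rw [e]
    exact H.zo (by omega) (by omega) (by omega) hvu (by omega) (H.q0f u v hvu (by omega))

/-- The rows `b`, `b + 1` of the leader. -/
theorem dg (hf : Rule f) (H : HL f k n b X) (hr : St f (6 * k + 4) b (2 * n)) :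
    DG f (6 * k + 4) b n := by
  have h1 := H.hk; have h2 := H.hb2; have h3 := H.h4; have h4 := H.hbk; have h5 := H.hXb
  have h6 := H.hX
  have e3 : 6 * k + 4 - 1 = 6 * k + 3 := by omega
  have e6 : (6 * k + 4) / 6 = k := by omega
  refine ⟨by omega, by omega, h2, by omega, by rw [e6]; omega, by omega, H.a0, hr, ?_, ?_⟩
  · rw [e3]
    exact St_of_half hf fun x y hyx hx => H.p0 hf hyx (by omega)
  · rw [e3]
    exact St_of_half hf fun x y hyx hx => H.p1 hf hr hyx hx

/-- The layer `6 k + 2` in the row `b + 1`, exterior. -/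
theorem b1x (hf : Rule f) (H : HL f k n b X) (hr : St f (6 * k + 4) b (2 * n)) {x y : ℕ}
    (hd : y + 2 * k + 1 ≤ x) (hx : 2 * n + 2 < x) :
    f (6 * k + 2) (b + 1) x y ↔ Fst (6 * k + 2) (b + 1) x y := by
  have h1 := H.hk; have h2 := H.hb2; have h3 := H.h4; have h4 := H.hbk; have h5 := H.hXb
  have h6 := H.hX
  have e6 : (6 * k + 2) / 6 = k := by omega
  refine H.mke (by omega) (by omega) (by omega) (by omega) (by omega) ?_
  intro hn
  refine ext_gen hf (D := 2 * k) (by omega) (by omega) (by omega) (by omega) (by omega)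
    (by rw [e6]; omega) (by omega) ?_ ?_
  · intro u v h7 h8 h9 h10
    have e : b + 1 - 1 = b - 2 + 2 := by omega
    rw [e]
    exact H.b2.r2x u v (by rw [e6]; omega) (by omega)
  · intro _ q r s hq hr' hs
    have e3 : 6 * k + 2 - 1 = 6 * k + 1 := by omega
    rw [e3]
    rcases Nat.eq_zero_or_pos q with hq0 | hq0
    · subst hq0
      exact H.zo (by omega) (by omega) (by omega) (by omega) (by omega)
        (H.qe (b + 1) _ _ (by omega) (by omega) (by omega) (by omega) (by omega))
    · have e : b + 1 - q = b := by omega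
      rw [e]
      exact H.zo (by omega) (by omega) (by omega) (by omega) (by omega)
        (H.q0f _ _ (by omega) (by omega))

/-- The ones of `6 k + 2` in the row `b + 1`, exterior. -/
theorem b1o (hf : Rule f) (H : HL f k n b X) (hr : St f (6 * k + 4) b (2 * n)) {x y : ℕ}
    (hd : y + 2 * k + 1 ≤ x) (hx : 2 * n + 2 < x) (hn : x + 6 * k + 40 ≤ b + y)
    (hc : (x + y) % 4 = (2 * k) % 4) : f (6 * k + 2) (b + 1) x y := by
  have h1 := H.hk; have h2 := H.hb2; have h3 := H.h4; have h4 := H.hbk
  have e6 : (6 * k + 2) / 6 = k := by omega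
  rw [H.b1x hf hr hd hx, fst_ext (by omega) (by omega) (by omega) (by omega)
    (by rw [e6]; omega), e6]
  omega

/-- The diagonal ones of `6 k + 2` in the row `b + 1`. -/
theorem b1d (H : HL f k n b X) {x : ℕ} (hx : 2 * n ≤ x) (hx2 : x % 2 = 1) :
    f (6 * k + 2) (b + 1) x x := by
  have h1 := H.hk; have h2 := H.hb2; have h3 := H.h4; have h4 := H.hbk; have h6 := H.hX
  have e6 : (6 * k + 2) / 6 = k := by omega
  have e : b + 1 = b - 2 + 3 := by omega
  rw [e, H.b2.r3s _ _ (by rw [e6]; omega) (by omega), Fst_odd (by omega) (by omega) (by omega)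
    le_rfl (by rw [e6]; omega)]
  omega

/-- `6 k + 3` in the row `b + 2`, exterior. -/
theorem p2x (hf : Rule f) (H : HL f k n b X) (hr : St f (6 * k + 4) b (2 * n)) {x y : ℕ}
    (hd : y + 2 * k ≤ x) (hx : 2 * n + 3 < x) (hpar : x = y + 2 * k → x % 2 = 0) :
    f (6 * k + 3) (b + 2) x y ↔ Fst (6 * k + 3) (b + 2) x y := by
  have h1 := H.hk; have h2 := H.hb2; have h3 := H.h4; have h4 := H.hbk; have h5 := H.hXb
  have h6 := H.hX
  refine H.mko (by omega) (by omega) (by omega) (by omega) (by omega) (by omega) ?_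
  intro hn
  rcases Nat.mod_two_eq_zero_or_one x with hx2 | hx2 <;>
    rcases Nat.mod_two_eq_zero_or_one y with hy2 | hy2
  · -- exceptional
    rcases (show x = y + 2 * k ∨ y + 2 * k + 2 ≤ x by omega) with hc | hc
    · have ho := H.b1o hf hr (x := x - 1) (y := y - 3) (by omega) (by omega) (by omega) (by omega)
      have := sand_y hf ho (by omega)
      have e1 : b + 1 + 1 = b + 2 := by omega
      have e2 : x - 1 + 1 = x := by omega
      have e3 : y - 3 + 3 = y := by omega
      rwa [e1, e2, e3] at this
    · rcases (show (x + y) % 4 = (2 + 2 * k) % 4 ∨ (x + y) % 4 = (2 * k) % 4 by omega)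
        with hc' | hc'
      · exact kill hf (H.b1o hf hr (x := x - 1) (y := y - 1) (by omega) (by omega) (by omega)
          (by omega)) (by omega) (by omega) (by omega) (by omega) (by omega)
      · exact kill hf (H.b1o hf hr (x := x) (y := y) (by omega) (by omega) (by omega)
          (by omega)) (by omega) (by omega) (by omega) (by omega) (by omega)
  · refine H.eoP hf (by omega) (by omega) ?_
    intro q u v hq hvu hu1 hu2 hv1 hv2
    rcases Nat.eq_zero_or_pos q with hq0 | hq0
    · subst hq0
      rw [Nat.sub_zero]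
      by_cases hE : (b + 2) % 2 = 0 ∧ u % 2 = 0 ∧ v % 2 = 0
      · exact H.zo (by omega) (by omega) (by omega) hvu (by omega)
          (H.q2b hf (by omega) (by omega))
      · exact H.zo (by omega) (by omega) (by omega) hvu (by omega)
          (H.qe (b + 2) u v (by omega) (by omega) hE hvu (by omega))
    · exact H.zo (by omega) (by omega) (by omega) hvu (by omega)
        (H.qe (b + 2 - q) u v (by omega) (by omega) (by omega) hvu (by omega))
  · rcases (show x = y + 2 * k + 1 ∨ y + 2 * k + 3 ≤ x by omega) with hc | hc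
    · exact kill hf (H.b1o hf hr (x := x) (y := y - 1) (by omega) (by omega) (by omega)
        (by omega)) (by omega) (by omega) (by omega) (by omega) (by omega)
    · refine H.eoP hf (by omega) (by omega) ?_
      intro q u v hq hvu hu1 hu2 hv1 hv2
      rcases Nat.eq_zero_or_pos q with hq0 | hq0
      · subst hq0
        rw [Nat.sub_zero]
        by_cases hE : (b + 2) % 2 = 0 ∧ u % 2 = 0 ∧ v % 2 = 0
        · exact H.zo (by omega) (by omega) (by omega) hvu (by omega)
            (H.q2b hf (by omega) (by omega))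
        · exact H.zo (by omega) (by omega) (by omega) hvu (by omega)
            (H.qe (b + 2) u v (by omega) (by omega) hE hvu (by omega))
      · exact H.zo (by omega) (by omega) (by omega) hvu (by omega)
          (H.qe (b + 2 - q) u v (by omega) (by omega) (by omega) hvu (by omega))
  · refine H.eoP hf (by omega) (by omega) ?_
    intro q u v hq hvu hu1 hu2 hv1 hv2
    rcases Nat.eq_zero_or_pos q with hq0 | hq0
    · subst hq0
      rw [Nat.sub_zero]
      by_cases hE : (b + 2) % 2 = 0 ∧ u % 2 = 0 ∧ v % 2 = 0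
      · exact H.zo (by omega) (by omega) (by omega) hvu (by omega)
          (H.q2b hf (by omega) (by omega))
      · exact H.zo (by omega) (by omega) (by omega) hvu (by omega)
          (H.qe (b + 2) u v (by omega) (by omega) hE hvu (by omega))
    · exact H.zo (by omega) (by omega) (by omega) hvu (by omega)
        (H.qe (b + 2 - q) u v (by omega) (by omega) (by omega) hvu (by omega))

/-- Non-exceptional cells of `6 k + 3` in the rows `b + 2`, `b + 3`, far to the right. -/
theorem pfar (hf : Rule f) (H : HL f k n b X) {r x y : ℕ} (hr : r = b + 2 ∨ r = b + 3)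
    (hyx : y ≤ x) (hx : 2 * n + 2 * k < x)
    (hne : ¬ (r % 2 = 0 ∧ x % 2 = 0 ∧ y % 2 = 0)) (hn : x + 6 * k + 60 ≤ b + y) :
    ¬ f (6 * k + 3) r x y := by
  have h1 := H.hk; have h2 := H.hb2; have h3 := H.h4; have h4 := H.hbk; have h5 := H.hXb
  have h6 := H.hX
  refine H.eoP hf hyx hne ?_
  intro q u v hq hvu hu1 hu2 hv1 hv2
  by_cases hE : (r - q) % 2 = 0
  · have e : r - q = b + 2 := by omega
    rw [e]
    exact H.zo (by omega) (by omega) (by omega) hvu (by omega) (H.q2a u v hvu (by omega))
  · exact H.zo (by omega) (by omega) (by omega) hvu (by omega)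
      (H.qe (r - q) u v (by omega) (by omega) (by omega) hvu (by omega))

/-- The row `b + 1` of the leader, in the strip. -/
theorem a1z (hf : Rule f) (H : HL f k n b X) (hr : St f (6 * k + 4) b (2 * n)) {x y : ℕ}
    (hyx : y ≤ x) (hd : x + 1 ≤ y + 2 * k) (hx : 2 * n + 1 < x) (hne : x = y → x % 2 = 1) :
    ¬ f (6 * k + 4) (b + 1) x y := by
  have h1 := H.hk; have h2 := H.hb2; have h3 := H.h4; have h4 := H.hbk; have h6 := H.hX
  have e6 : (6 * k + 4) / 6 = k := by omega
  rw [(H.dg hf hr).r1s hf x y (by rw [e6]; omega) (by omega),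
    Fst_odd (by omega) (by omega) (by omega) hyx (by rw [e6]; omega)]
  omega

/-- The diagonal ones of the leader in the row `b + 1`. -/
theorem a1d (hf : Rule f) (H : HL f k n b X) (hr : St f (6 * k + 4) b (2 * n)) {x : ℕ}
    (hx : 2 * n + 1 < x) (hx2 : x % 2 = 0) : f (6 * k + 4) (b + 1) x x := by
  have h1 := H.hk; have h2 := H.hb2; have h3 := H.h4; have h4 := H.hbk; have h6 := H.hX
  have e6 : (6 * k + 4) / 6 = k := by omega
  rw [(H.dg hf hr).r1s hf x x (by rw [e6]; omega) (by omega),
    Fst_odd (by omega) (by omega) (by omega) le_rfl (by rw [e6]; omega)]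
  omega

/-- The ones of `6 k + 6` in its IN row `b + 2`. -/
theorem done (H : HL f k n b X) {x y : ℕ} (hyx : y < x) (hd : x + 1 ≤ y + 2 * k + 2)
    (hx : 2 * n + 2 * k < x + 4) (hx2 : x % 2 = 1) (hy2 : y % 2 = 0) : f (6 * k + 6) (b + 2) x y := by
  have h1 := H.hk; have h2 := H.hb2; have h3 := H.h4; have h4 := H.hbk
  have e6 : (6 * k + 6) / 6 = k + 1 := by omega
  rw [H.d2 x y (by omega), Fst_II (by omega) (by omega) (by omega) (by omega) hyx.le
    (by rw [e6]; omega)]
  exact ⟨hx2, hy2⟩

/-- The OUT row of the leader, known part. -/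
theorem a2 (H : HL f k n b X) {x y : ℕ} (hyx : y ≤ x) (hd : x + 1 ≤ y + 2 * k)
    (hy : 2 * n + 3 < y) : f (6 * k + 4) (b + 2) x y ↔ (x % 2 = 0 ∧ y % 2 = 1) := by
  have h1 := H.hk; have h2 := H.hb2; have h3 := H.h4; have h4 := H.hbk; have h6 := H.hX
  have e6 : (6 * k + 4) / 6 = k := by omega
  rw [H.a0.r2s x y (by rw [e6]; omega) (by omega), Fst_I (by omega) (by omega) (by omega)
    (by omega) hyx (by rw [e6]; omega)]

/-- The cell `(2 n + 5, 2 n + 3)`. -/
theorem p53 (hf : Rule f) (H : HL f k n b X) (hr : St f (6 * k + 4) b (2 * n)) :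
    ¬ f (6 * k + 3) (b + 2) (2 * n + 5) (2 * n + 3) := by
  have h1 := H.hk; have h2 := H.hb2; have h3 := H.h4; have h4 := H.hbk; have h5 := H.hXb
  have h6 := H.hX
  intro h
  have hz : ¬ f (6 * k + 5) (b + 2) (2 * n + 6) (2 * n + 4) :=
    H.p5 _ _ (by omega) (by omega) (by omega)
  have h5' : f (6 * k + 5) (b + 2) (2 * n + 5) (2 * n + 3) := by
    by_contra hno
    obtain ⟨p, q, r, s, hp, hq, hr', hs, hsum, hpa, hqb, hrx, hsy, hone⟩ :=
      hf.exists_pred (by omega) hz
    rcases Nat.eq_zero_or_pos p with hp0 | hp0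
    · subst hp0
      rw [Nat.sub_zero] at hone
      rcases Nat.eq_zero_or_pos q with hq0 | hq0
      · subst hq0
        rw [Nat.sub_zero] at hone
        have hrs : (r = 0 ∧ s = 1) ∨ (r = 1 ∧ s = 0) ∨ (r = 1 ∧ s = 1) := by omega
        rcases hrs with ⟨rfl, rfl⟩ | ⟨rfl, rfl⟩ | ⟨rfl, rfl⟩
        · exact H.p5 _ _ (by omega) (by omega) (by omega) hone
        · exact kill hf (H.a1d hf hr (x := 2 * n + 4) (by omega) (by omega)) (by omega) (by omega)
            (by omega) (by omega) (by omega) hone
        · exact hno hone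
      · have e : b + 2 - q = b + 1 := by omega
        rw [e] at hone
        rcases Nat.eq_zero_or_pos s with hs0 | hs0
        · exact kill hf (H.aone hr (x := 2 * n + 5) (y := 2 * n + 4) (by omega) (by omega)
            (by omega) (by omega) (by omega)) (by omega) (by omega) (by omega) (by omega)
            (by omega) hone
        · exact kill hf (H.aone hr (x := 2 * n + 5) (y := 2 * n + 2) (by omega) (by omega)
            (by omega) (by omega) (by omega)) (by omega) (by omega) (by omega) (by omega)
            (by omega) hone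
    · have hp1 : p = 1 := by omega
      subst hp1
      have e5 : 6 * k + 5 - 1 = 6 * k + 4 := by omega
      rw [e5] at hone
      rcases Nat.eq_zero_or_pos q with hq0 | hq0
      · subst hq0
        rw [Nat.sub_zero] at hone
        rcases Nat.eq_zero_or_pos s with hs0 | hs0
        · subst hs0
          rcases Nat.eq_zero_or_pos r with hr0 | hr0
          · subst hr0
            exact hf.not_allEven hone (by omega)
          · rw [H.a2 (by omega) (by omega) (by omega)] at hone
            omega
        · exact kill hf h (by omega) (by omega) (by omega) (by omega) (by omega) hone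
      · have e : b + 2 - q = b + 1 := by omega
        rw [e] at hone
        exact H.a1z hf hr (by omega) (by omega) (by omega) (by omega) hone
  have hz2 : ¬ f (6 * k + 5) (b + 2) (2 * n + 4) (2 * n + 3) := by
    intro h'
    exact kill hf h' (by omega) (by omega) (by omega) (by omega) (by omega) h5'
  obtain ⟨p, q, r, s, hp, hq, hr', hs, hsum, hpa, hqb, hrx, hsy, hone⟩ :=
    hf.exists_pred (by omega) hz2
  have hdg := H.a1d hf hr (x := 2 * n + 2) (by omega) (by omega)
  rcases Nat.eq_zero_or_pos p with hp0 | hp0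
  · subst hp0
    rw [Nat.sub_zero] at hone
    rcases Nat.eq_zero_or_pos q with hq0 | hq0
    · subst hq0
      rw [Nat.sub_zero] at hone
      rcases Nat.eq_zero_or_pos r with hr0 | hr0
      · exact kill hf hone (by omega) (by omega) (by omega) (by omega) (by omega) h5'
      · exact kill hf hdg (by omega) (by omega) (by omega) (by omega) (by omega) hone
    · have e : b + 2 - q = b + 1 := by omega
      rw [e] at hone
      exact kill hf (H.aone hr (x := 2 * n + 3) (y := 2 * n + 2) (by omega) (by omega)
        (by omega) (by omega) (by omega)) (by omega) (by omega) (by omega) (by omega)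
        (by omega) hone
  · have hp1 : p = 1 := by omega
    subst hp1
    have e5 : 6 * k + 5 - 1 = 6 * k + 4 := by omega
    rw [e5] at hone
    rcases Nat.eq_zero_or_pos q with hq0 | hq0
    · subst hq0
      rw [Nat.sub_zero] at hone
      rcases Nat.eq_zero_or_pos r with hr0 | hr0
      · subst hr0
        rcases Nat.eq_zero_or_pos s with hs0 | hs0
        · exact kill hf hone (by omega) (by omega) (by omega) (by omega) (by omega) h5'
        · exact hf.not_allEven hone (by omega)
      · exact kill hf hdg (by omega) (by omega) (by omega) (by omega) (by omega) hone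
    · have e : b + 2 - q = b + 1 := by omega
      rw [e] at hone
      exact H.a1z hf hr (by omega) (by omega) (by omega) (by omega) hone

/-- The odd layer above the leader in the row `b + 1`. -/
theorem u1 (hf : Rule f) (H : HL f k n b X) (hr : St f (6 * k + 4) b (2 * n)) {x y : ℕ}
    (hyx : y + 2 ≤ x) (hd : x + 1 ≤ y + 2 * k) (hx : 2 * n + 1 < x) (hy : 2 ≤ y) :
    ¬ f (6 * k + 5) (b + 1) x y := by
  rcases Nat.mod_two_eq_zero_or_one x with hx2 | hx2 <;>
    rcases Nat.mod_two_eq_zero_or_one y with hy2 | hy2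
  · exact kill hf (H.aone hr (x := x - 1) (y := y) (by omega) (by omega) (by omega) (by omega)
      (by omega)) (by omega) (by omega) (by omega) (by omega) (by omega)
  · exact kill hf (H.aone hr (x := x - 1) (y := y - 1) (by omega) (by omega) (by omega) (by omega)
      (by omega)) (by omega) (by omega) (by omega) (by omega) (by omega)
  · exact kill hf (H.aone hr (x := x) (y := y) (by omega) (by omega) (by omega) (by omega)
      (by omega)) (by omega) (by omega) (by omega) (by omega) (by omega)
  · exact kill hf (H.aone hr (x := x) (y := y - 1) (by omega) (by omega) (by omega) (by omega)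
      (by omega)) (by omega) (by omega) (by omega) (by omega) (by omega)

/-- The odd layer above the leader in the row `b + 2`. -/
theorem u2 (hf : Rule f) (H : HL f k n b X) {x y : ℕ}
    (hyx : y + 2 ≤ x) (hd : x + 1 ≤ y + 2 * k) (hy : 2 * n ≤ y) :
    ¬ f (6 * k + 5) (b + 2) x y := by
  rcases Nat.lt_or_ge (y + 2 * k) (x + 3) with hw | hw
  swap
  · exact H.p5 x y hy hyx hw
  intro h
  rcases Nat.mod_two_eq_zero_or_one x with hx2 | hx2 <;>
    rcases Nat.mod_two_eq_zero_or_one y with hy2 | hy2
  · exact kill hf h (by omega) (by omega) (by omega) (by omega) (by omega)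
      (H.done (x := x + 1) (y := y) (by omega) (by omega) (by omega) (by omega) (by omega))
  · exact kill hf h (by omega) (by omega) (by omega) (by omega) (by omega)
      (H.done (x := x + 1) (y := y + 1) (by omega) (by omega) (by omega) (by omega) (by omega))
  · exact kill hf h (by omega) (by omega) (by omega) (by omega) (by omega)
      (H.done (x := x) (y := y) (by omega) (by omega) (by omega) (by omega) (by omega))
  · exact kill hf h (by omega) (by omega) (by omega) (by omega) (by omega)
      (H.done (x := x) (y := y + 1) (by omega) (by omega) (by omega) (by omega) (by omega))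

/-- `6 k + 3` in the row `b + 2`, lines from `2 n + 2` on. -/
theorem p2b (hf : Rule f) (H : HL f k n b X) (hr : St f (6 * k + 4) b (2 * n)) {x y : ℕ}
    (hyx : y ≤ x) (hy : 2 * n + 1 < y) :
    f (6 * k + 3) (b + 2) x y ↔ Fst (6 * k + 3) (b + 2) x y := by
  have h1 := H.hk; have h2 := H.hb2; have h3 := H.h4; have h4 := H.hbk; have h5 := H.hXb
  have h6 := H.hX
  rcases Nat.lt_or_ge (x + 1) (y + 2 * k) with hd | hd
  swap
  · by_cases hE : (b + 2) % 2 = 0 ∧ x % 2 = 0 ∧ y % 2 = 0
    · exact H.p2x hf hr (by omega) (by omega) (by omega)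
    · refine H.mko (by omega) (by omega) (by omega) (by omega) (by omega) (by omega) ?_
      intro hn
      exact H.pfar hf (Or.inl rfl) hyx (by omega) hE hn
  refine H.mko (by omega) (by omega) (by omega) (by omega) (by omega) (by omega) ?_
  intro hn
  rcases Nat.eq_or_lt_of_le hyx with h0 | h0
  · -- the diagonal
    subst h0
    rcases Nat.mod_two_eq_zero_or_one y with hy2 | hy2
    · exact kill hf (H.b1d (x := y - 1) (by omega) (by omega)) (by omega) (by omega) (by omega)
        (by omega) (by omega)
    · exact kill hf (H.b1d (x := y) (by omega) (by omega)) (by omega) (by omega) (by omega)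
        (by omega) (by omega)
  rcases Nat.lt_or_ge (2 * n + 3) y with hy3 | hy3
  · intro h
    rcases Nat.mod_two_eq_zero_or_one x with hx2 | hx2 <;>
      rcases Nat.mod_two_eq_zero_or_one y with hy2 | hy2
    · exact kill hf h (by omega) (by omega) (by omega) (by omega) (by omega)
        ((H.a2 (x := x) (y := y + 1) (by omega) (by omega) (by omega)).2 (by omega))
    · exact kill hf h (by omega) (by omega) (by omega) (by omega) (by omega)
        ((H.a2 (x := x) (y := y) (by omega) (by omega) (by omega)).2 (by omega))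
    · exact kill hf h (by omega) (by omega) (by omega) (by omega) (by omega)
        ((H.a2 (x := x + 1) (y := y + 1) (by omega) (by omega) (by omega)).2 (by omega))
    · exact kill hf h (by omega) (by omega) (by omega) (by omega) (by omega)
        ((H.a2 (x := x + 1) (y := y) (by omega) (by omega) (by omega)).2 (by omega))
  rcases Nat.lt_or_ge x (y + 3) with hd3 | hd3
  · have hc : (x = 2 * n + 3 ∧ y = 2 * n + 2) ∨ (x = 2 * n + 4 ∧ y = 2 * n + 2) ∨
        (x = 2 * n + 4 ∧ y = 2 * n + 3) ∨ (x = 2 * n + 5 ∧ y = 2 * n + 3) := by omega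
    rcases hc with ⟨rfl, rfl⟩ | ⟨rfl, rfl⟩ | ⟨rfl, rfl⟩ | ⟨rfl, rfl⟩
    · refine H.eoP hf (by omega) (by omega) ?_
      intro q u v hq hvu hu1 hu2 hv1 hv2
      by_cases hE : (b + 2 - q) % 2 = 0 ∧ u % 2 = 0 ∧ v % 2 = 0
      · have e : b + 2 - q = b + 2 := by omega
        have eu : u = v := by omega
        rw [e, eu]
        exact H.zo (by omega) (by omega) (by omega) le_rfl (by omega)
          (H.q2d hf (by omega))
      · exact H.zo (by omega) (by omega) (by omega) hvu (by omega)
          (H.qe (b + 2 - q) u v (by omega) (by omega) hE hvu (by omega))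
    · have := sand_x hf (H.b1d (x := 2 * n + 1) (by omega) (by omega)) (by omega)
      exact this
    · exact kill hf (H.b1d (x := 2 * n + 3) (by omega) (by omega)) (by omega) (by omega)
        (by omega) (by omega) (by omega)
    · exact H.p53 hf hr
  · have hcov : Sig.Cov f (6 * k + 4) (b + 2) x y := by
      have := Mid.cov_of hf (a := 6 * k + 4) (b := b + 1) (x := x) (y := y) (by omega) ?_ ?_
      · exact this
      · intro i s q hi hs hq
        rcases Nat.eq_zero_or_pos q with hq0 | hq0
        · subst hq0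
          have e : b + 1 + 1 - 0 = b + 2 := by omega
          rw [e]
          exact H.u2 hf (by omega) (by omega) (by omega)
        · have e : b + 1 + 1 - q = b + 1 := by omega
          rw [e]
          exact H.u1 hf hr (by omega) (by omega) (by omega) (by omega)
      · intro i s hi hs
        exact H.a1z hf hr (by omega) (by omega) (by omega) (by omega)
    exact Sig.zero_below hf (a := 6 * k + 3) (b := b + 2) (p := 1) (q := 0) hcov le_rfl (by omega)
      (by omega)

/-- `6 k + 3` in the row `b + 2`, far to the right. -/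
theorem p2c (hf : Rule f) (H : HL f k n b X) (hr : St f (6 * k + 4) b (2 * n)) {x y : ℕ}
    (hyx : y ≤ x) (hx : 2 * n + 2 * k < x) :
    f (6 * k + 3) (b + 2) x y ↔ Fst (6 * k + 3) (b + 2) x y := by
  have h1 := H.hk; have h2 := H.hb2; have h3 := H.h4; have h4 := H.hbk; have h5 := H.hXb
  have h6 := H.hX
  rcases Nat.lt_or_ge (2 * n + 1) y with hy | hy
  · exact H.p2b hf hr hyx hy
  · by_cases hE : (b + 2) % 2 = 0 ∧ x % 2 = 0 ∧ y % 2 = 0
    · exact H.p2x hf hr (by omega) (by omega) (by omega)
    · refine H.mko (by omega) (by omega) (by omega) (by omega) (by omega) (by omega) ?_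
      intro hn
      exact H.pfar hf (Or.inl rfl) hyx (by omega) hE hn

theorem p3b (hf : Rule f) (H : HL f k n b X) {x y : ℕ}
    (hyx : y ≤ x) (hx : 2 * n + 2 * k < x) :
    f (6 * k + 3) (b + 3) x y ↔ Fst (6 * k + 3) (b + 3) x y := by
  have h1 := H.hk; have h2 := H.hb2; have h3 := H.h4; have h4 := H.hbk; have h5 := H.hXb
  have h6 := H.hX
  refine H.mko (by omega) (by omega) (by omega) (by omega) (by omega) (by omega) ?_
  intro hn
  exact H.pfar hf (Or.inr rfl) hyx (by omega) (by omega) hn

theorem p3a (hf : Rule f) (H : HL f k n b X) {x y : ℕ}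
    (hyx : y ≤ x) (hxy : x ≤ y + 1) (hy : 2 * n + 3 < y) (hpar : x = y ∨ y % 2 = 0) :
    f (6 * k + 3) (b + 3) x y ↔ Fst (6 * k + 3) (b + 3) x y := by
  have h1 := H.hk; have h2 := H.hb2; have h3 := H.h4; have h4 := H.hbk; have h5 := H.hXb
  have h6 := H.hX
  refine H.mko (by omega) (by omega) (by omega) (by omega) (by omega) (by omega) ?_
  intro hn
  refine H.eoP hf hyx (by omega) ?_
  intro q u v hq hvu hu1 hu2 hv1 hv2
  by_cases hE : (b + 3 - q) % 2 = 0 ∧ u % 2 = 0 ∧ v % 2 = 0
  · have e : b + 3 - q = b + 2 := by omega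
    have eu : u = v := by omega
    rw [e, eu]
    exact H.zo (by omega) (by omega) (by omega) le_rfl (by omega)
      (H.q2d hf (by omega))
  · exact H.zo (by omega) (by omega) (by omega) hvu (by omega)
      (H.qe (b + 3 - q) u v (by omega) (by omega) hE hvu (by omega))

/-- The OUT row of the leader, exterior. -/
theorem r2x (hf : Rule f) (H : HL f k n b X) (hr : St f (6 * k + 4) b (2 * n)) {x y : ℕ}
    (hd : y + 2 * k ≤ x) (hx : 2 * n + 4 < x) :
    f (6 * k + 4) (b + 2) x y ↔ Fst (6 * k + 4) (b + 2) x y := by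
  have h1 := H.hk; have h2 := H.hb2; have h3 := H.h4; have h4 := H.hbk; have h5 := H.hXb
  have h6 := H.hX
  have e6 : (6 * k + 4) / 6 = k := by omega
  refine H.mke (by omega) (by omega) (by omega) (by omega) (by omega) ?_
  intro hn
  rcases Nat.eq_or_lt_of_le hd with h0 | h0
  · refine ext_wall hf (by omega) (by omega) (by omega) (by omega) (by omega)
      (by rw [e6]; omega) ?_
    intro u v h7 h8 h9
    exact (H.dg hf hr).r1 hf u v (by omega)
  · refine ext_gen hf (D := 2 * k) (by omega) (by omega) (by omega) (by omega) (by omega)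
      (by rw [e6]; omega) (by omega) ?_ ?_
    · intro u v h7 h8 h9 h10
      exact (H.dg hf hr).r1 hf u v (by omega)
    · intro hc q r s hq hr' hs
      rw [e6] at hc
      have e3 : 6 * k + 4 - 1 = 6 * k + 3 := by omega
      rw [e3]
      rcases Nat.eq_zero_or_pos q with hq0 | hq0
      · subst hq0
        exact H.zo (by omega) (by omega) (by omega) (by omega) (by omega)
          (H.p2x hf hr (by omega) (by omega) (by omega))
      · have e : b + 2 - q = b + 1 := by omega
        rw [e]
        exact H.zo (by omega) (by omega) (by omega) (by omega) (by omega)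
          (H.p1 hf hr (by omega) (by omega))

/-- THE CYCLE OF THE LEADER. -/
theorem cy3 (hf : Rule f) (H : HL f k n b X) (tip : f (6 * k + 4) b (2 * n + 1) (2 * n)) :
    Cy3 f (6 * k + 4) b (2 * n) := by
  have hr := H.r0 hf tip
  have e3 : 6 * k + 4 - 1 = 6 * k + 3 := by omega
  have e6 : (6 * k + 4) / 6 = k := by omega
  refine DG.cy3 hf (H.dg hf hr) ?_ ?_ ?_ ?_ ?_ ?_
  · intro u v hvu hv
    rw [e3]
    exact H.p2b hf hr hvu hv
  · intro x hx2 hx hd
    rw [e6] at hd
    exact H.u2 hf (by omega) (by omega) (by omega)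
  · intro x y hd hx
    rw [e6] at hd
    refine all_of_half hf (P := fun x y => y + 2 * k ≤ x ∧ 2 * n + 4 < x) ?_ x y ⟨hd, hx⟩
    intro x y hyx hP
    exact H.r2x hf hr hP.1 hP.2
  · intro u v hvu hu
    rw [e6] at hu
    rw [e3]
    exact H.p2c hf hr hvu hu
  · intro u v hvu huv hv hpar
    rw [e3]
    exact H.p3a hf hvu huv hv hpar
  · intro u v hvu hu
    rw [e6] at hu
    rw [e3]
    exact H.p3b hf hvu hu

end HL

end LocL4

end Pool.Agent.SNT
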