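import Pool.Agent.SNT.ZTwA
import Pool.Agent.SNT.ZTwB
import Pool.Agent.SNT.ZTwC
import Pool.Agent.SNT.ZTwD
import Pool.Agent.SNT.ZTwE

set_option autoImplicit false

/-! Location of the leader `6 k + 10`: assembly from the minimal list of cells of the odd layer. -/

namespace Pool.Agent.SNT.ZTw

open Pool.Agent.SNT.LW TipI

/-- The inputs of the location of the leader `6 k + 10`; `n` is its lead at `b + 22`. -/
structure Mn (f : ℕ → ℕ → ℕ → ℕ → Prop) (k b n : ℕ) : Prop where
  K : KF f k b n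
  C8 : Cw f (6 * k + 8) (b + 20) (n - 3)
  C8n : Cw f (6 * k + 8) (b + 24) (n + k - 1)
  C' : Cw f (6 * k + 10) (b + 18) (n - k - 2)
  C : Cw f (6 * k + 10) (b + 22) n
  fr : ∀ i x y : ℕ, i ≤ 100 → y ≤ x → 2 * n ≤ x + 20 → b ≤ 2 * (x - y) →
    (f (6 * k + 10) (b + i) x y ↔ Fst (6 * k + 10) (b + i) x y)

variable {f : ℕ → ℕ → ℕ → ℕ → Prop} {k b n : ℕ}

/-- The inputs from the window. -/
theorem Mn.of {m : ℕ} (hs : Side k b m) (S : Stack6 f k b m 0 0 0 0 0 1)
    (hn : n = m + 9 + (k + 2) * 4) (I : Imp f k b n) : Mn f k b n := by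
  have K := KF.of hs S hn I
  obtain ⟨hk, hb2, hb4, hbl, hm⟩ := hs
  have e5 : (k + 2) * 5 = 5 * k + 10 := by ring
  have e4 : (k + 2) * 4 = 4 * k + 8 := by ring
  have e3 : (k + 2) * 3 = 3 * k + 6 := by ring
  rw [e4] at hn
  have A84 := S.l8 4
  have A85 := S.l8 5
  have A3 := S.l10 3
  have A4 := S.l10 4
  rw [e3] at A3
  rw [e4] at A84 A4
  rw [e5] at A85
  have cst : ∀ {a b' n' b'' n'' : ℕ}, Cw f a b' n' → b' = b'' → n' = n'' → Cw f a b'' n'' := by
    intro a b' n' b'' n'' h h1 h2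
    subst h1; subst h2; exact h
  refine ⟨K, cst A84 (by omega) (by omega), cst A85 (by omega) (by omega),
    cst A3 (by omega) (by omega), cst A4 (by omega) (by omega), ?_⟩
  · intro i x y hi hyx hx hd
    exact S.fr _ i x y (by omega) hi (by rw [max_eq_left hyx]; omega)
      (by rw [max_eq_left hyx, min_eq_right hyx]; omega)

namespace Mn

/-- Zeros of `6 k + 9` in the row `b + 20`. -/
theorem zm2 (hf : Rule f) (M : Mn f k b n) {x y : ℕ} (hx : 2 * n ≤ x) (hd : y + 2 * k + 2 ≤ x)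
    (hnr : 2 * x < 2 * y + b + 10) : ¬ f (6 * k + 9) (b + 20) x y := by
  have k1 := M.K.hk
  have k2 := M.K.hb
  have k3 := M.K.ph
  have k4 := M.K.big
  have k5 := M.K.hn
  have hc : (x + y + 2 * n) % 4 = 0 ∨ (x + y + 2 * n) % 4 = 1 ∨ (x + y + 2 * n) % 4 = 2 ∨
    (x + y + 2 * n) % 4 = 3 := by omega
  rcases (show (6 * k + 8 + (b + 20) + x + y) % 4 = (1 + 2 * (k + 1)) % 4 ∨
    (6 * k + 8 + (b + 20) + x + y) % 4 = (2 + 2 * (k + 1)) % 4 ∨
    (6 * k + 8 + (b + 20) + x + y) % 4 = (3 + 2 * (k + 1)) % 4 ∨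
    (6 * k + 8 + (b + 20) + x + y) % 4 = (2 * (k + 1)) % 4 by omega) with h | h | h | h
  · exact kill hf ((M.K.g82 x y (by omega) (by omega) (by omega)).2 h) (by omega) (by omega)
      (by omega) (by omega) (by omega)
  · exact kill hf ((M.K.g83 x y (by omega) (by omega) (by omega)).2 (by omega)) (by omega)
      (by omega) (by omega) (by omega) (by omega)
  · exact kill hf ((M.K.g83 x (y - 1) (by omega) (by omega) (by omega)).2 (by omega)) (by omega)
      (by omega) (by omega) (by omega) (by omega)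
  · exact kill hf ((M.K.g83 (x - 1) (y - 1) (by omega) (by omega) (by omega)).2 (by omega))
      (by omega) (by omega) (by omega) (by omega) (by omega)

/-- Zeros of `6 k + 9` in the row `b + 21`. -/
theorem zm1 (hf : Rule f) (M : Mn f k b n) {x y : ℕ} (hx : 2 * n ≤ x) (hd : y + 2 * k + 2 ≤ x)
    (hnr : 2 * x < 2 * y + b + 10) : ¬ f (6 * k + 9) (b + 21) x y := by
  have k1 := M.K.hk
  have k2 := M.K.hb
  have k3 := M.K.ph
  have k4 := M.K.big
  have k5 := M.K.hn
  rcases (show (6 * k + 8 + (b + 21) + x + y) % 4 = (1 + 2 * (k + 1)) % 4 ∨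
    (6 * k + 8 + (b + 21) + x + y) % 4 = (2 + 2 * (k + 1)) % 4 ∨
    (6 * k + 8 + (b + 21) + x + y) % 4 = (3 + 2 * (k + 1)) % 4 ∨
    (6 * k + 8 + (b + 21) + x + y) % 4 = (2 * (k + 1)) % 4 by omega) with h | h | h | h
  · rcases Nat.eq_or_lt_of_le hx with h0 | h0
    · subst h0
      exact f1 hf M.K (D := 2 * n - y - 2 * k - 2) (by omega) (by omega) (by omega) (by omega)
    · exact kill hf ((M.K.g81 x y (by omega) (by omega) (by omega)).2 h) (by omega) (by omega)
        (by omega) (by omega) (by omega)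
  · exact kill hf ((M.K.g82 x y (by omega) (by omega) (by omega)).2 (by omega)) (by omega)
      (by omega) (by omega) (by omega) (by omega)
  · exact kill hf ((M.K.g82 x (y - 1) (by omega) (by omega) (by omega)).2 (by omega)) (by omega)
      (by omega) (by omega) (by omega) (by omega)
  · exact kill hf ((M.K.g82 (x - 1) (y - 1) (by omega) (by omega) (by omega)).2 (by omega))
      (by omega) (by omega) (by omega) (by omega) (by omega)

/-- Zeros of `6 k + 9` in the row `b + 22`. -/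
theorem z0 (hf : Rule f) (M : Mn f k b n) {x y : ℕ} (hx : 2 * n + 2 ≤ x)
    (hd : y + 2 * k + 2 ≤ x) (hnr : 2 * x < 2 * y + b + 10) : ¬ f (6 * k + 9) (b + 22) x y := by
  have k1 := M.K.hk
  have k2 := M.K.hb
  have k3 := M.K.ph
  have k4 := M.K.big
  have k5 := M.K.hn
  rcases (show (6 * k + 8 + (b + 22) + x + y) % 4 = (1 + 2 * (k + 1)) % 4 ∨
    (6 * k + 8 + (b + 22) + x + y) % 4 = (2 + 2 * (k + 1)) % 4 ∨
    (6 * k + 8 + (b + 22) + x + y) % 4 = (3 + 2 * (k + 1)) % 4 ∨
    (6 * k + 8 + (b + 22) + x + y) % 4 = (2 * (k + 1)) % 4 by omega) with h | h | h | h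
  · rcases Nat.eq_or_lt_of_le hx with h0 | h0
    · subst h0
      exact f2 hf M.K (D := 2 * n + 2 - y - 2 * k - 2) (by omega) (by omega) (by omega) (by omega)
    · exact kill hf ((M.K.g80 x y (by omega) (by omega) (by omega)).2 h) (by omega) (by omega)
        (by omega) (by omega) (by omega)
  · exact kill hf ((M.K.g81 x y (by omega) (by omega) (by omega)).2 (by omega)) (by omega)
      (by omega) (by omega) (by omega) (by omega)
  · exact kill hf ((M.K.g81 x (y - 1) (by omega) (by omega) (by omega)).2 (by omega)) (by omega)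
      (by omega) (by omega) (by omega) (by omega)
  · exact kill hf ((M.K.g81 (x - 1) (y - 1) (by omega) (by omega) (by omega)).2 (by omega))
      (by omega) (by omega) (by omega) (by omega) (by omega)

/-- Zeros of `6 k + 9` in the row `b + 23`. -/
theorem z1 (hf : Rule f) (M : Mn f k b n) {x y : ℕ} (hx : 2 * n + 4 ≤ x)
    (hd : y + 2 * k + 2 ≤ x) (hno : x = 2 * n + 4 → y + 2 * k + 3 ≤ x)
    (hnr : 2 * x < 2 * y + b + 10) : ¬ f (6 * k + 9) (b + 23) x y := by
  have k1 := M.K.hk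
  have k2 := M.K.hb
  have k3 := M.K.ph
  have k4 := M.K.big
  have k5 := M.K.hn
  rcases (show (6 * k + 8 + (b + 23) + x + y) % 4 = (1 + 2 * (k + 1)) % 4 ∨
    (6 * k + 8 + (b + 23) + x + y) % 4 = (2 + 2 * (k + 1)) % 4 ∨
    (6 * k + 8 + (b + 23) + x + y) % 4 = (3 + 2 * (k + 1)) % 4 ∨
    (6 * k + 8 + (b + 23) + x + y) % 4 = (2 * (k + 1)) % 4 by omega) with h | h | h | h
  · rcases (show x = 2 * n + 4 ∨ x = 2 * n + 5 ∨ 2 * n + 6 ≤ x by omega) with h0 | h0 | h0
    · subst h0
      have := hno rfl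
      exact f3 hf M.K (D := 2 * n + 4 - y - 2 * k - 2) (by omega) (by omega) (by omega) (by omega)
    · subst h0
      exact f4 hf M.K (D := 2 * n + 5 - y - 2 * k - 2) (by omega) (by omega) (by omega) (by omega)
    · intro hz
      have h1 : f (6 * k + 10) (b + 23) (x + 1) (y + 1) := by
        rw [show b + 23 = b + 22 + 1 by omega, M.C.w1 (x + 1) (y + 1) (by omega) (by omega)
          (by omega), LocG.fst_ext (by omega) (by omega) (by omega) (by omega) (by omega)]
        omega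
      exact kill hf hz (by omega) (by omega) (by omega) (by omega) (by omega) h1
  · exact kill hf ((M.K.g80 x y (by omega) (by omega) (by omega)).2 (by omega)) (by omega)
      (by omega) (by omega) (by omega) (by omega)
  · exact kill hf ((M.K.g80 x (y - 1) (by omega) (by omega) (by omega)).2 (by omega)) (by omega)
      (by omega) (by omega) (by omega) (by omega)
  · exact kill hf ((M.K.g80 (x - 1) (y - 1) (by omega) (by omega) (by omega)).2 (by omega))
      (by omega) (by omega) (by omega) (by omega) (by omega)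

/-- Zeros of `6 k + 9` in the row `b + 24` (the predecessors of the ones of the columns
`2 n + 7` and `2 n + 8`). -/
theorem z2 (hf : Rule f) (M : Mn f k b n)
    (hz2 : ¬ f (6 * k + 9) (b + 24) (2 * n + 6) (2 * n + 3 - 2 * k)) {x y : ℕ}
    (hx : 2 * n + 6 ≤ x) (hx2 : x ≤ 2 * n + 8) (hd : y + 2 * k + 2 ≤ x)
    (hres : (x = 2 * n + 6 ∧ ((x - y - 2 * k - 2) % 4 = 0 ∨ (x - y - 2 * k - 2) % 4 = 1)) ∨
      (x = 2 * n + 7 ∧ (x - y - 2 * k - 2) % 4 ≠ 0) ∨
      (x = 2 * n + 8 ∧ ((x - y - 2 * k - 2) % 4 = 0 ∨ (x - y - 2 * k - 2) % 4 = 3)))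
    (hnr : 2 * x < 2 * y + b + 10) : ¬ f (6 * k + 9) (b + 24) x y := by
  have k1 := M.K.hk
  have k2 := M.K.hb
  have k3 := M.K.ph
  have k4 := M.K.big
  have k5 := M.K.hn
  -- the sandwich with the row `b + 21` of `6 k + 8`
  have sb : (6 * k + 8 + (b + 21) + (x - 1) + (y - 1)) % 4 = (1 + 2 * (k + 1)) % 4 →
      ¬ f (6 * k + 9) (b + 24) x y := by
    intro h
    have h1 := LocG.sand_b hf ((M.K.g81 (x - 1) (y - 1) (by omega) (by omega) (by omega)).2 h)
      (by omega)
    rw [show 6 * k + 8 + 1 = 6 * k + 9 by omega, show b + 21 + 3 = b + 24 by omega,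
      show x - 1 + 1 = x by omega, show y - 1 + 1 = y by omega] at h1
    exact h1
  rcases hres with ⟨rfl, h | h⟩ | ⟨rfl, h⟩ | ⟨rfl, h | h⟩
  · exact sb (by omega)
  · rcases (show 2 * n + 6 - y - 2 * k - 2 = 1 ∨ 5 ≤ 2 * n + 6 - y - 2 * k - 2 by omega) with
      h1 | h1
    · rw [show y = 2 * n + 3 - 2 * k by omega]
      exact hz2
    · exact f5 hf M.K (D := 2 * n + 6 - y - 2 * k - 2) (by omega) (by omega) (by omega) (by omega)
  · rcases (show (2 * n + 7 - y - 2 * k - 2) % 4 = 1 ∨ (2 * n + 7 - y - 2 * k - 2) % 4 = 2 ∨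
      (2 * n + 7 - y - 2 * k - 2) % 4 = 3 by omega) with h1 | h1 | h1
    · exact f7 hf M.K (D := 2 * n + 7 - y - 2 * k - 2) (by omega) (by omega) (by omega) (by omega)
    · exact sb (by omega)
    · exact f6 hf M.K (D := 2 * n + 7 - y - 2 * k - 2) (by omega) (by omega) (by omega) (by omega)
  · exact sb (by omega)
  · exact f8 hf M.K (D := 2 * n + 8 - y - 2 * k - 2) (by omega) (by omega) (by omega) (by omega)

/-- The row before the IN row. -/
theorem ext3 (hf : Rule f) (M : Mn f k b n) {x y : ℕ} (hx : 2 * n + 1 ≤ x)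
    (hd : y + 2 * k + 3 ≤ x) :
    f (6 * k + 10) (b + 21) x y ↔ Fst (6 * k + 10) (b + 21) x y := by
  have k1 := M.K.hk
  have k2 := M.K.hb
  have k3 := M.K.ph
  have k4 := M.K.big
  have k5 := M.K.hn
  rcases Nat.lt_or_ge (2 * x) (2 * y + b) with hnr | hnr
  swap
  · exact M.fr 21 x y (by omega) (by omega) (by omega) (by omega)
  refine LocG.ext_gen hf (D := 2 * k + 2) (by omega) (by omega) (by omega) (by omega) (by omega)
    (by omega) (by omega) ?_ ?_
  · intro u v h1 h2 h3 h4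
    rw [show b + 21 - 1 = b + 18 + 2 by omega]
    exact M.C'.w2x u v (by omega) (by omega)
  · intro _ q r s hq hr hs
    rw [show 6 * k + 10 - 1 = 6 * k + 9 by omega]
    rcases Nat.eq_zero_or_pos q with hq0 | hq0
    · subst hq0
      exact zm1 hf M (by omega) (by omega) (by omega)
    · rw [show b + 21 - q = b + 20 by omega]
      exact zm2 hf M (by omega) (by omega) (by omega)

/-- The IN row at the distances from `2 h + 2` on. -/
theorem in_far (hf : Rule f) (M : Mn f k b n) {x y : ℕ} (hx : 2 * n + 3 ≤ x)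
    (hd : y + 2 * k + 4 ≤ x) :
    f (6 * k + 10) (b + 22) x y ↔ Fst (6 * k + 10) (b + 22) x y := by
  have k1 := M.K.hk
  have k2 := M.K.hb
  have k3 := M.K.ph
  have k4 := M.K.big
  have k5 := M.K.hn
  rcases Nat.lt_or_ge (2 * x) (2 * y + b) with hnr | hnr
  swap
  · exact M.fr 22 x y (by omega) (by omega) (by omega) (by omega)
  refine LocG.ext_gen hf (D := 2 * k + 3) (by omega) (by omega) (by omega) (by omega) (by omega)
    (by omega) (by omega) ?_ ?_
  · intro u v h1 h2 h3 h4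
    rw [show b + 22 - 1 = b + 21 by omega]
    exact ext3 hf M (by omega) (by omega)
  · intro _ q r s hq hr hs
    rw [show 6 * k + 10 - 1 = 6 * k + 9 by omega]
    rcases Nat.eq_zero_or_pos q with hq0 | hq0
    · subst hq0
      exact z0 hf M (by omega) (by omega) (by omega)
    · rw [show b + 22 - q = b + 21 by omega]
      exact zm1 hf M (by omega) (by omega) (by omega)

end Mn

end Pool.Agent.SNT.ZTw
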