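import Pool.Agent.SNT.LocMin

set_option autoImplicit false

/-! Location of the leader `6 k + 10`: the rows of the profile. -/

namespace Pool.Agent.SNT.ZTw

open Pool.Agent.SNT.LW TipI

variable {f : ℕ → ℕ → ℕ → ℕ → Prop} {k b n : ℕ}

namespace Mn

/-- The last cell of the column `2 n + 3` in the strip of the IN row. -/
theorem hwall (hf : Rule f) (M : Mn f k b n) {w : ℕ} (hw : w + 2 * k = 2 * n + 2) :
    f (6 * k + 10) (b + 22) (2 * n + 3) w := by
  have k1 := M.K.hk
  have k2 := M.K.hb
  have k3 := M.K.ph
  have k4 := M.K.big
  have k5 := M.K.hn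
  have up : f (6 * k + 10) (b + 22) (2 * n + 3) (w + 2) := by
    rw [M.C.w0 _ _ (by omega) (by omega) (by omega), fst0 (by omega) (by omega) (by omega)
      (by omega)]
    omega
  have hno : ¬ f (6 * k + 10) (b + 22) (2 * n + 3) (w + 1) := by
    intro h
    exact kill hf h (by omega) (by omega) (by omega) (by omega) (by omega) up
  obtain ⟨p, q, r, s, hp, hq, hr', hs, hsum, hpa, hqb, hrx, hsy, hone⟩ :=
    hf.exists_pred (by omega) hno
  rcases Nat.eq_zero_or_pos s with hs0 | hs0
  · exfalso
    subst hs0
    exact kill hf hone (by omega) (by omega) (by omega) (by omega) (by omega) up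
  have hs1 : s = 1 := by omega
  subst hs1
  rw [Nat.add_sub_cancel] at hone
  rcases Nat.eq_zero_or_pos p with hp0 | hp0
  · subst hp0
    rcases Nat.eq_zero_or_pos q with hq0 | hq0
    · subst hq0
      rcases Nat.eq_zero_or_pos r with hr0 | hr0
      · subst hr0
        exact hone
      · exfalso
        exact hf.not_allEven hone (by omega)
    · exfalso
      rw [show b + 22 - q = b + 18 + 3 by omega, Nat.sub_zero,
        M.C'.w3s _ _ (by omega) (by omega) (by omega),
        fst3 (by omega) (by omega) (by omega) (by omega) (by omega)] at hone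
      omega
  · exfalso
    have hp1 : p = 1 := by omega
    subst hp1
    rw [show 6 * k + 10 - 1 = 6 * k + 9 by omega] at hone
    rcases Nat.eq_zero_or_pos q with hq0 | hq0
    · subst hq0
      rw [Nat.sub_zero] at hone
      rcases Nat.eq_zero_or_pos r with hr0 | hr0
      · subst hr0
        exact kill hf ((M.K.g81 (2 * n + 3) (w - 1) (by omega) (by omega) (by omega)).2
          (by omega)) (by omega) (by omega) (by omega) (by omega) (by omega) hone
      · have h1 := LocG.sand_y hf ((M.K.g81 (2 * n + 1) (w - 3) (by omega) (by omega)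
          (by omega)).2 (by omega)) (by omega)
        exact h1 (mv hone (by omega) (by omega) (by omega) (by omega))
    · rw [show b + 22 - q = b + 21 by omega] at hone
      rcases Nat.eq_zero_or_pos r with hr0 | hr0
      · subst hr0
        have h1 : f (6 * k + 8) (b + 20) (2 * n + 3) w := by
          rw [M.C8.w0 _ _ (by omega) (by omega) (by omega), fst0 (by omega) (by omega) (by omega)
            (by omega)]
          omega
        exact kill hf h1 (by omega) (by omega) (by omega) (by omega) (by omega) hone
      · have h1 : f (6 * k + 8) (b + 20) (2 * n + 1) w := by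
          rw [M.C8.w0 _ _ (by omega) (by omega) (by omega), fst0 (by omega) (by omega) (by omega)
            (by omega)]
          omega
        exact kill hf h1 (by omega) (by omega) (by omega) (by omega) (by omega) hone

/-- The IN row, the columns from `2 n + 3` on. -/
theorem w0x (hf : Rule f) (M : Mn f k b n) {x y : ℕ} (hyx : y ≤ x) (hx : 2 * n + 3 ≤ x) :
    f (6 * k + 10) (b + 22) x y ↔ Fst (6 * k + 10) (b + 22) x y := by
  have k1 := M.K.hk
  have k2 := M.K.hb
  have k3 := M.K.ph
  have k4 := M.K.big
  have k5 := M.K.hn
  by_cases hc : x + 3 ≤ y + 2 * (k + 1) ∨ 2 * n + 5 ≤ x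
  · exact M.C.w0 x y hyx hx (by omega)
  by_cases hfar : y + 2 * k + 4 ≤ x
  · exact in_far hf M hx hfar
  rw [fst0 (by omega) (by omega) hyx (by omega)]
  have z0' : ∀ v : ℕ, v + 2 * k = 2 * n + 1 → ¬ f (6 * k + 10) (b + 22) (2 * n + 3) v := by
    intro v hv h'
    exact kill hf h' (by omega) (by omega) (by omega) (by omega) (by omega)
      (hwall hf M (w := v + 1) (by omega))
  have z1' : ∀ v : ℕ, v + 2 * k = 2 * n → ¬ f (6 * k + 10) (b + 22) (2 * n + 3) v := by
    intro v hv
    have h1 : f (6 * k + 10) (b + 21) (2 * n + 3) (v - 1) := by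
      rw [ext3 hf M (by omega) (by omega),
        fst3 (by omega) (by omega) (by omega) (by omega) (by omega)]
      omega
    exact kill hf h1 (by omega) (by omega) (by omega) (by omega) (by omega)
  rcases (show x = 2 * n + 3 ∨ x = 2 * n + 4 by omega) with hx1 | hx1
  · rcases (show x = y + 2 * k ∨ x = y + 2 * k + 1 ∨ x = y + 2 * k + 2 ∨ x = y + 2 * k + 3 by omega)
      with h | h | h | h
    · refine iff_of_false ?_ (by omega)
      exact kill hf (hwall hf M (w := y - 1) (by omega)) (by omega) (by omega) (by omega)
        (by omega) (by omega)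
    · refine iff_of_true ?_ (by omega)
      rw [hx1]
      exact hwall hf M (by omega)
    · refine iff_of_false ?_ (by omega)
      rw [hx1]
      exact z0' y (by omega)
    · refine iff_of_false ?_ (by omega)
      rw [hx1]
      exact z1' y (by omega)
  · rcases Nat.mod_two_eq_zero_or_one y with hy2 | hy2
    · refine iff_of_false ?_ (by omega)
      intro h'
      exact hf.not_allEven h' (by omega)
    · rcases (show x = y + 2 * k + 1 ∨ x = y + 2 * k + 3 by omega) with h | h
      · refine iff_of_false ?_ (by omega)
        exact kill hf (hwall hf M (w := y - 1) (by omega)) (by omega) (by omega) (by omega)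
          (by omega) (by omega)
      · refine iff_of_true ?_ (by omega)
        by_contra hno
        obtain ⟨p, q, r, s, hp, hq, hr', hs', hsum, hpa, hqb, hrx, hsy, hone⟩ :=
          hf.exists_pred (by omega) hno
        rcases Nat.eq_zero_or_pos p with hp0 | hp0
        · subst hp0
          rcases Nat.eq_zero_or_pos q with hq0 | hq0
          · subst hq0
            simp only [Nat.sub_zero] at hone
            have hrs : (r = 0 ∧ s = 1) ∨ (r = 1 ∧ s = 0) ∨ (r = 1 ∧ s = 1) := by omega
            rcases hrs with ⟨rfl, rfl⟩ | ⟨rfl, rfl⟩ | ⟨rfl, rfl⟩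
            · exact hf.not_allEven hone (by omega)
            · rw [show x - 1 = 2 * n + 3 by omega] at hone
              exact z0' _ (by omega) hone
            · rw [show x - 1 = 2 * n + 3 by omega] at hone
              exact z1' _ (by omega) hone
          · rw [show b + 22 - q = b + 21 by omega, Nat.sub_zero] at hone
            rcases Nat.lt_or_ge (y - s + 2 * (k + 1)) (x - r) with h5 | h5
            · rw [ext3 hf M (by omega) (by omega),
                fst3 (by omega) (by omega) (by omega) (by omega) (by omega)] at hone
              omega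
            · exact kill hf hone (a' := 6 * k + 10) (b' := b + 22) (x' := 2 * n + 3) (y' := y + 1)
                (by omega) (by omega) (by omega) (by omega) (by omega)
                (hwall hf M (w := y + 1) (by omega))
        · have hp1 : p = 1 := by omega
          subst hp1
          rw [show 6 * k + 10 - 1 = 6 * k + 9 by omega] at hone
          rcases Nat.eq_zero_or_pos q with hq0 | hq0
          · subst hq0
            exact z0 hf M (by omega) (by omega) (by omega) hone
          · rw [show b + 22 - q = b + 21 by omega] at hone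
            exact zm1 hf M (by omega) (by omega) (by omega) hone

/-- The IN row. -/
theorem w0all (hf : Rule f) (M : Mn f k b n)
    (L0 : ∀ x y : ℕ, y ≤ x → x + 1 ≤ y + 2 * k → x = 2 * n + 1 ∨ x = 2 * n + 2 →
      (f (6 * k + 10) (b + 22) x y ↔ Fst (6 * k + 10) (b + 22) x y)) {x y : ℕ} (hyx : y ≤ x)
    (hx : 2 * n + 1 ≤ x) (hc : x + 1 ≤ y + 2 * k ∨ 2 * n + 3 ≤ x) :
    f (6 * k + 10) (b + 22) x y ↔ Fst (6 * k + 10) (b + 22) x y := by
  rcases Nat.lt_or_ge x (2 * n + 3) with h | h
  · exact L0 x y hyx (by omega) (by omega)
  · exact w0x hf M hyx h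

/-- Zeros of `6 k + 9` near the diagonal, row `b + 22`. -/
theorem d0 (hf : Rule f) (M : Mn f k b n) {x y : ℕ} (hyx : y ≤ x) (hd : x ≤ y + 1)
    (hx : 2 * n + 1 ≤ x) : ¬ f (6 * k + 9) (b + 22) x y := by
  have k1 := M.K.hk
  have k2 := M.K.hb
  have k3 := M.K.ph
  have k4 := M.K.big
  have k5 := M.K.hn
  have dg : ∀ e : ℕ, e % 2 = 0 → 2 * n ≤ e → f (6 * k + 8) (b + 21) e e := by
    intro e h1 h2
    rw [show b + 21 = b + 20 + 1 by omega, M.C8.w1 e e le_rfl (by omega) (by omega),
      fst1 (by omega) (by omega) (by omega) le_rfl (by omega)]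
    omega
  rcases Nat.mod_two_eq_zero_or_one x with h | h
  · rcases (show y = x ∨ y + 1 = x by omega) with h1 | h1
    · exact kill hf (dg x h (by omega)) (by omega) (by omega) (by omega) (by omega) (by omega)
    · have h2 : f (6 * k + 8) (b + 22) x y := by
        rw [show b + 22 = b + 20 + 2 by omega, M.C8.w2s x y hyx (by omega) (by omega),
          fst2 (by omega) (by omega) hyx (by omega)]
        omega
      exact kill hf h2 (by omega) (by omega) (by omega) (by omega) (by omega)
  · exact kill hf (dg (x - 1) (by omega) (by omega)) (by omega) (by omega) (by omega) (by omega)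
      (by omega)

/-- Zeros of `6 k + 9` near the diagonal, row `b + 23`. -/
theorem d1 (hf : Rule f) (M : Mn f k b n) {x y : ℕ} (hyx : y ≤ x) (hd : x ≤ y + 1)
    (hx : 2 * n + 1 ≤ x) : ¬ f (6 * k + 9) (b + 23) x y := by
  have k1 := M.K.hk
  have k2 := M.K.hb
  have k3 := M.K.ph
  have k4 := M.K.big
  have k5 := M.K.hn
  have dg : ∀ e : ℕ, e % 2 = 1 → 2 * n ≤ e → f (6 * k + 8) (b + 23) e e := by
    intro e h1 h2
    rw [show b + 23 = b + 20 + 3 by omega, M.C8.w3s e e le_rfl (by omega) (by omega),
      fst3 (by omega) (by omega) (by omega) le_rfl (by omega)]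
    omega
  have od : ∀ u v : ℕ, u % 2 = 0 → v + 1 = u → 2 * n ≤ u → f (6 * k + 8) (b + 22) u v := by
    intro u v h1 h2 h3
    rw [show b + 22 = b + 20 + 2 by omega, M.C8.w2s u v (by omega) (by omega) (by omega),
      fst2 (by omega) (by omega) (by omega) (by omega)]
    omega
  rcases Nat.mod_two_eq_zero_or_one x with h | h
  · rcases (show y = x ∨ y + 1 = x by omega) with h1 | h1
    · exact kill hf (dg (x - 1) (by omega) (by omega)) (by omega) (by omega) (by omega) (by omega)
        (by omega)
    · exact kill hf (od x y h h1 (by omega)) (by omega) (by omega) (by omega) (by omega)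
        (by omega)
  · rcases (show y = x ∨ y + 1 = x by omega) with h1 | h1
    · exact kill hf (dg x h (by omega)) (by omega) (by omega) (by omega) (by omega) (by omega)
    · exact kill hf (od (x - 1) (x - 2) (by omega) (by omega) (by omega)) (by omega) (by omega)
        (by omega) (by omega) (by omega)

end Mn

end Pool.Agent.SNT.ZTw
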