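import Pool.Agent.SNT.LocDG
import Pool.Agent.SNT.Mid

set_option autoImplicit false

/-! LOCATION of the leader `6 k + 4`: the zones of the odd layers in the rows up to the IN row. -/

namespace Pool.Agent.SNT

variable {f : ℕ → ℕ → ℕ → ℕ → Prop}

namespace LocR4

open TipI LocZ LocG

/-- The window of the leader `6 k + 4`: IN row `b`, lead `n`; `X` is far behind the front. -/
structure HS (f : ℕ → ℕ → ℕ → ℕ → Prop) (k n b X : ℕ) : Prop where
  hk : 8 ≤ k
  hb2 : b % 2 = 0
  h4 : (6 * k + b) % 4 = 2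
  hbk : 40 * k + 400 ≤ b
  hXb : b + 10 * k + 100 ≤ X
  hX : X + 4 * k + 60 ≤ 2 * n
  fr : ∀ a r x y : ℕ, a ≤ 6 * k + 10 → b ≤ r + 8 → r ≤ b + 8 → y ≤ x → X < x →
    b + y < x + 6 * k + 60 → (f a r x y ↔ Fst a r x y)
  z1 : ∀ r : ℕ, b ≤ r + 8 → r ≤ b + 8 → St f (6 * k - 1) r X
  qe : ∀ r x y : ℕ, b ≤ r + 4 → r ≤ b + 4 → ¬ (r % 2 = 0 ∧ x % 2 = 0 ∧ y % 2 = 0) → y ≤ x →
    X + 1 < x → (f (6 * k + 1) r x y ↔ Fst (6 * k + 1) r x y)
  qm2 : ∀ x y : ℕ, y ≤ x → 2 * n < x + 6 → (f (6 * k + 1) (b - 2) x y ↔ Fst (6 * k + 1) (b - 2) x y)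
  q0a : ∀ x y : ℕ, y ≤ x → 2 * n < y + 3 → (f (6 * k + 1) b x y ↔ Fst (6 * k + 1) b x y)
  q0b : ∀ x y : ℕ, y + 2 * k ≤ x + 1 → 2 * n < x + 2 → (f (6 * k + 1) b x y ↔ Fst (6 * k + 1) b x y)
  q2a : ∀ x y : ℕ, y ≤ x → 2 * n + 2 * k < x + 2 →
    (f (6 * k + 1) (b + 2) x y ↔ Fst (6 * k + 1) (b + 2) x y)
  c0 : Cyc f (6 * k) (b - 4) (2 * n - 8)
  b6 : St f (6 * k + 2) (b - 3) (2 * n - 6)
  b2 : Cyc f (6 * k + 2) (b - 2) (2 * n - 4)
  am : Cyc f (6 * k + 4) (b - 4) (2 * n - 2 * k - 2)
  a0 : Cyc f (6 * k + 4) b (2 * n + 2)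
  d2 : St f (6 * k + 6) (b + 2) (2 * n + 6)
  mid : Mid.H f k (6 * k + 4) b n

namespace HS

variable {k n b X : ℕ}

/-- A static cell of an odd layer in the near zone is zero. -/
theorem zo (H : HS f k n b X) {a r x y : ℕ} (ha : a % 2 = 1) (ha2 : a ≤ 6 * k + 7)
    (hr : b ≤ r + 8) (hyx : y ≤ x) (hn : x + 6 * k + 40 ≤ b + y)
    (h : f a r x y ↔ Fst a r x y) : ¬ f a r x y := by
  rw [h]
  exact Fst_near_odd ha (by omega)

/-- Static cells of an odd layer. -/
theorem mko (H : HS f k n b X) {a r x y : ℕ} (ha : a % 2 = 1) (ha2 : a ≤ 6 * k + 7)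
    (hr : b ≤ r + 8) (hr2 : r ≤ b + 8) (hyx : y ≤ x) (hx : X < x)
    (h : x + 6 * k + 60 ≤ b + y → ¬ f a r x y) : f a r x y ↔ Fst a r x y := by
  rcases Nat.lt_or_ge (b + y) (x + 6 * k + 60) with h1 | h1
  · exact H.fr a r x y (by omega) hr hr2 hyx hx h1
  · exact iff_of_false (h h1) (Fst_near_odd ha (by omega))

/-- Static cells of any layer. -/
theorem mke (H : HS f k n b X) {a r x y : ℕ} (ha2 : a ≤ 6 * k + 7)
    (hr : b ≤ r + 8) (hr2 : r ≤ b + 8) (hyx : y ≤ x) (hx : X < x)
    (h : x + 6 * k + 60 ≤ b + y → (f a r x y ↔ Fst a r x y)) : f a r x y ↔ Fst a r x y := by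
  rcases Nat.lt_or_ge (b + y) (x + 6 * k + 60) with h1 | h1
  · exact H.fr a r x y (by omega) hr hr2 hyx hx h1
  · exact h h1

/-- The layer `6 k - 1` is zero. -/
theorem z1z (H : HS f k n b X) {r x y : ℕ} (hr : b ≤ r + 8) (hr2 : r ≤ b + 8) (hyx : y ≤ x)
    (hx : X < x) (hn : x + 6 * k + 40 ≤ b + y) : ¬ f (6 * k - 1) r x y := by
  have h1 := H.hk
  exact H.zo (by omega) (by omega) hr hyx hn (H.z1 r hr hr2 x y (by omega))

/-- The exterior of the layer `6 k` in the row `b - 1`. -/
theorem cm1 (hf : Rule f) (H : HS f k n b X) {x y : ℕ} (hd : y + 2 * k + 1 ≤ x)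
    (hx : 2 * n < x + 2) : f (6 * k) (b - 1) x y ↔ Fst (6 * k) (b - 1) x y := by
  have h1 := H.hk; have h2 := H.hb2; have h3 := H.h4; have h4 := H.hbk; have h5 := H.hXb
  have h6 := H.hX
  have e6 : 6 * k / 6 = k := by omega
  refine H.mke (by omega) (by omega) (by omega) (by omega) (by omega) ?_
  intro hn
  refine ext_gen hf (D := 2 * k) (by omega) (by omega) (by omega) (by omega) (by omega)
    (by rw [e6]; omega) (by omega) ?_ ?_
  · intro u v h7 h8 h9 h10
    have e : b - 1 - 1 = b - 4 + 2 := by omega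
    rw [e]
    exact H.c0.r2x u v (by rw [e6]; omega) (by omega)
  · intro _ q r s hq hr hs
    exact H.z1z (by omega) (by omega) (by omega) (by omega) (by omega)

theorem c00 (hf : Rule f) (H : HS f k n b X) {x y : ℕ} (hd : y + 2 * k + 2 ≤ x)
    (hx : 2 * n < x) : f (6 * k) b x y ↔ Fst (6 * k) b x y := by
  have h1 := H.hk; have h2 := H.hb2; have h3 := H.h4; have h4 := H.hbk; have h5 := H.hXb
  have h6 := H.hX
  have e6 : 6 * k / 6 = k := by omega
  refine H.mke (by omega) (by omega) (by omega) (by omega) (by omega) ?_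
  intro hn
  refine ext_gen hf (D := 2 * k + 1) (by omega) (by omega) (by omega) (by omega) (by omega)
    (by rw [e6]; omega) (by omega) ?_ ?_
  · intro u v h7 h8 h9 h10
    exact H.cm1 hf (by omega) (by omega)
  · intro _ q r s hq hr hs
    exact H.z1z (by omega) (by omega) (by omega) (by omega) (by omega)

theorem c1 (hf : Rule f) (H : HS f k n b X) {x y : ℕ} (hd : y + 2 * k + 3 ≤ x)
    (hx : 2 * n + 2 < x) : f (6 * k) (b + 1) x y ↔ Fst (6 * k) (b + 1) x y := by
  have h1 := H.hk; have h2 := H.hb2; have h3 := H.h4; have h4 := H.hbk; have h5 := H.hXb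
  have h6 := H.hX
  have e6 : 6 * k / 6 = k := by omega
  refine H.mke (by omega) (by omega) (by omega) (by omega) (by omega) ?_
  intro hn
  refine ext_gen hf (D := 2 * k + 2) (by omega) (by omega) (by omega) (by omega) (by omega)
    (by rw [e6]; omega) (by omega) ?_ ?_
  · intro u v h7 h8 h9 h10
    have e : b + 1 - 1 = b := by omega
    rw [e]
    exact H.c00 hf (by omega) (by omega)
  · intro _ q r s hq hr hs
    exact H.z1z (by omega) (by omega) (by omega) (by omega) (by omega)

/-- The layer `6 k + 1` in the row `b + 2`, exterior. -/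
theorem q2b (hf : Rule f) (H : HS f k n b X) {x y : ℕ} (hd : y + 2 * k + 2 ≤ x)
    (hx : 2 * n + 3 < x) : f (6 * k + 1) (b + 2) x y ↔ Fst (6 * k + 1) (b + 2) x y := by
  have h1 := H.hk; have h2 := H.hb2; have h3 := H.h4; have h4 := H.hbk; have h5 := H.hXb
  have h6 := H.hX
  have e6 : 6 * k / 6 = k := by omega
  refine H.mko (by omega) (by omega) (by omega) (by omega) (by omega) (by omega) ?_
  intro hn
  by_cases hE : (b + 2) % 2 = 0 ∧ x % 2 = 0 ∧ y % 2 = 0
  swap
  · exact H.zo (by omega) (by omega) (by omega) (by omega) (by omega)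
      (H.qe (b + 2) x y (by omega) (by omega) hE (by omega) (by omega))
  · obtain ⟨-, hx2, hy2⟩ := hE
    rcases (show (x + y) % 4 = (2 + 2 * k) % 4 ∨ (x + y) % 4 = (2 * k) % 4 by omega) with hc | hc
    · -- sandwich
      have ho : f (6 * k) (b - 1) (x - 1) (y - 1) := by
        rw [H.cm1 hf (by omega) (by omega), fst_ext (by omega) (by omega) (by omega) (by omega)
          (by rw [e6]; omega), e6]
        omega
      have := sand_b hf ho (by omega)
      have e1 : b - 1 + 3 = b + 2 := by omega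
      have e2 : x - 1 + 1 = x := by omega
      have e3 : y - 1 + 1 = y := by omega
      rwa [e1, e2, e3] at this
    · have ho : f (6 * k) (b + 1) (x - 1) (y - 1) := by
        rw [H.c1 hf (by omega) (by omega), fst_ext (by omega) (by omega) (by omega) (by omega)
          (by rw [e6]; omega), e6]
        omega
      exact kill hf ho (by omega) (by omega) (by omega) (by omega) (by omega)

/-- The layer `6 k + 1` in the row `b + 2`, diagonal. -/
theorem q2d (hf : Rule f) (H : HS f k n b X) {x : ℕ} (hx : 2 * n ≤ x) :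
    f (6 * k + 1) (b + 2) x x ↔ Fst (6 * k + 1) (b + 2) x x := by
  have h1 := H.hk; have h2 := H.hb2; have h3 := H.h4; have h4 := H.hbk; have h5 := H.hXb
  have h6 := H.hX
  have e6 : 6 * k / 6 = k := by omega
  rcases Nat.mod_two_eq_zero_or_one x with hx2 | hx2
  swap
  · exact H.qe (b + 2) x x (by omega) (by omega) (by omega) (by omega) (by omega)
  · refine H.mko (by omega) (by omega) (by omega) (by omega) (by omega) (by omega) ?_
    intro hn
    have ho : f (6 * k) (b - 1) (x - 1) (x - 1) := by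
      have e : b - 1 = b - 4 + 3 := by omega
      rw [e, H.c0.r3s _ _ (by rw [e6]; omega) (by omega), Fst_odd (by omega) (by omega) (by omega)
        le_rfl (by rw [e6]; omega)]
      omega
    have := sand_b hf ho (by omega)
    have e1 : b - 1 + 3 = b + 2 := by omega
    have e2 : x - 1 + 1 = x := by omega
    rwa [e1, e2] at this

/-- The odd layer `6 k + 3` over `6 k + 2`: only the exceptional cells. -/
theorem eoP (hf : Rule f) (H : HS f k n b X) {r x y : ℕ} (hyx : y ≤ x)
    (hne : ¬ (r % 2 = 0 ∧ x % 2 = 0 ∧ y % 2 = 0))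
    (H0 : ∀ q u v : ℕ, q ≤ 1 → v ≤ u → x ≤ u + 1 → u ≤ x → y ≤ v + 1 → v ≤ y →
      ¬ f (6 * k + 1) (r - q) u v) : ¬ f (6 * k + 3) r x y := by
  have := eonly hf (A := 6 * k + 2) (b := r) (x := x) (y := y) (by omega) hne ?_
  · exact this
  · intro q i s hq hi hs
    have e : 6 * k + 2 - 1 = 6 * k + 1 := by omega
    rw [e]
    rcases Nat.lt_or_ge (x - i) (y - s) with h9 | h9
    · rw [hf.swap_xy]
      exact H0 q (y - s) (x - i) hq (by omega) (by omega) (by omega) (by omega) (by omega)
    · exact H0 q (x - i) (y - s) hq h9 (by omega) (by omega) (by omega) (by omega)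

/-- `6 k + 3` in the row `b - 1`. -/
theorem pm1 (hf : Rule f) (H : HS f k n b X) {x y : ℕ} (hyx : y ≤ x) (hx : 2 * n < x + 5) :
    f (6 * k + 3) (b - 1) x y ↔ Fst (6 * k + 3) (b - 1) x y := by
  have h1 := H.hk; have h2 := H.hb2; have h3 := H.h4; have h4 := H.hbk; have h5 := H.hXb
  have h6 := H.hX
  refine H.mko (by omega) (by omega) (by omega) (by omega) (by omega) (by omega) ?_
  intro hn
  refine H.eoP hf hyx (by omega) ?_
  intro q u v hq hvu hu1 hu2 hv1 hv2
  rcases Nat.eq_zero_or_pos q with hq0 | hq0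
  · subst hq0
    exact H.zo (by omega) (by omega) (by omega) hvu (by omega)
      (H.qe (b - 1) u v (by omega) (by omega) (by omega) hvu (by omega))
  · have e : b - 1 - q = b - 2 := by omega
    rw [e]
    exact H.zo (by omega) (by omega) (by omega) hvu (by omega) (H.qm2 u v hvu (by omega))

/-- `6 k + 3` in the row `b - 2`, exterior. -/
theorem pm2 (hf : Rule f) (H : HS f k n b X) {x y : ℕ} (hd : y + 2 * k ≤ x)
    (hx : 2 * n < x + 5) : f (6 * k + 3) (b - 2) x y ↔ Fst (6 * k + 3) (b - 2) x y := by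
  have h1 := H.hk; have h2 := H.hb2; have h3 := H.h4; have h4 := H.hbk; have h5 := H.hXb
  have h6 := H.hX
  have e6 : (6 * k + 2) / 6 = k := by omega
  refine H.mko (by omega) (by omega) (by omega) (by omega) (by omega) (by omega) ?_
  intro hn
  by_cases hE : (b - 2) % 2 = 0 ∧ x % 2 = 0 ∧ y % 2 = 0
  swap
  · refine H.eoP hf (by omega) hE ?_
    intro q u v hq hvu hu1 hu2 hv1 hv2
    rcases Nat.eq_zero_or_pos q with hq0 | hq0
    · subst hq0
      exact H.zo (by omega) (by omega) (by omega) hvu (by omega) (H.qm2 u v hvu (by omega))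
    · have e : b - 2 - q = b - 3 := by omega
      rw [e]
      exact H.zo (by omega) (by omega) (by omega) hvu (by omega)
        (H.qe (b - 3) u v (by omega) (by omega) (by omega) hvu (by omega))
  · obtain ⟨-, hx2, hy2⟩ := hE
    rcases (show (x + y) % 4 = (2 + 2 * k) % 4 ∨ (x + y) % 4 = (2 * k) % 4 by omega) with hc | hc
    · have ho : f (6 * k + 2) (b - 3) (x - 1) (y - 1) := by
        rw [H.b6 _ _ (by omega), fst_ext (by omega) (by omega) (by omega) (by omega)
          (by rw [e6]; omega), e6]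
        omega
      exact kill hf ho (by omega) (by omega) (by omega) (by omega) (by omega)
    · have ho : f (6 * k + 2) (b - 3) x y := by
        rw [H.b6 _ _ (by omega), fst_ext (by omega) (by omega) (by omega) (by omega)
          (by rw [e6]; omega), e6]
        omega
      exact kill hf ho (by omega) (by omega) (by omega) (by omega) (by omega)

/-- The ones of the layer `6 k + 2` in the row `b - 1`, exterior. -/
theorem bm1 (H : HS f k n b X) {x y : ℕ} (hd : y + 2 * k ≤ x) (hx : 2 * n < x + 2)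
    (hn : x + 6 * k + 40 ≤ b + y) (hc : (x + y) % 4 = (2 + 2 * k) % 4) :
    f (6 * k + 2) (b - 1) x y := by
  have h1 := H.hk; have h2 := H.hb2; have h3 := H.h4; have h4 := H.hbk
  have e6 : (6 * k + 2) / 6 = k := by omega
  have e : b - 1 = b - 2 + 1 := by omega
  rw [e, H.b2.r1 _ _ (by omega), fst_ext (by omega) (by omega) (by omega) (by omega)
    (by rw [e6]; omega), e6]
  omega

/-- `6 k + 3` in the row `b`, exterior. -/
theorem p0x (hf : Rule f) (H : HS f k n b X) {x y : ℕ} (hd : y + 2 * k ≤ x)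
    (hx : 2 * n ≤ x) : f (6 * k + 3) b x y ↔ Fst (6 * k + 3) b x y := by
  have h1 := H.hk; have h2 := H.hb2; have h3 := H.h4; have h4 := H.hbk; have h5 := H.hXb
  have h6 := H.hX
  have e6 : (6 * k + 2) / 6 = k := by omega
  refine H.mko (by omega) (by omega) (by omega) (by omega) (by omega) (by omega) ?_
  intro hn
  by_cases hE : b % 2 = 0 ∧ x % 2 = 0 ∧ y % 2 = 0
  swap
  · refine H.eoP hf (by omega) hE ?_
    intro q u v hq hvu hu1 hu2 hv1 hv2
    rcases Nat.eq_zero_or_pos q with hq0 | hq0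
    · subst hq0
      exact H.zo (by omega) (by omega) (by omega) hvu (by omega) (H.q0b u v (by omega) (by omega))
    · have e : b - q = b - 1 := by omega
      rw [e]
      exact H.zo (by omega) (by omega) (by omega) hvu (by omega)
        (H.qe (b - 1) u v (by omega) (by omega) (by omega) hvu (by omega))
  · obtain ⟨-, hx2, hy2⟩ := hE
    rcases (show (x + y) % 4 = (2 + 2 * k) % 4 ∨ (x + y) % 4 = (2 * k) % 4 by omega) with hc | hc
    · exact kill hf (H.bm1 (x := x) (y := y) (by omega) (by omega) (by omega) (by omega))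
        (by omega) (by omega) (by omega) (by omega) (by omega)
    · exact kill hf (H.bm1 (x := x - 1) (y := y - 1) (by omega) (by omega) (by omega) (by omega))
        (by omega) (by omega) (by omega) (by omega) (by omega)

/-- The layer `6 k + 4` in the row `b - 1`, exterior. -/
theorem am1x (hf : Rule f) (H : HS f k n b X) {x y : ℕ} (hd : y + 2 * k + 1 ≤ x)
    (hx : 2 * n < x + 2) : f (6 * k + 4) (b - 1) x y ↔ Fst (6 * k + 4) (b - 1) x y := by
  have h1 := H.hk; have h2 := H.hb2; have h3 := H.h4; have h4 := H.hbk; have h5 := H.hXb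
  have h6 := H.hX
  have e6 : (6 * k + 4) / 6 = k := by omega
  refine H.mke (by omega) (by omega) (by omega) (by omega) (by omega) ?_
  intro hn
  refine ext_gen hf (D := 2 * k) (by omega) (by omega) (by omega) (by omega) (by omega)
    (by rw [e6]; omega) (by omega) ?_ ?_
  · intro u v h7 h8 h9 h10
    have e : b - 1 - 1 = b - 4 + 2 := by omega
    rw [e]
    exact H.am.r2x u v (by rw [e6]; omega) (by omega)
  · intro _ q r s hq hr hs
    have e3 : 6 * k + 4 - 1 = 6 * k + 3 := by omega
    rw [e3]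
    rcases Nat.eq_zero_or_pos q with hq0 | hq0
    · subst hq0
      exact H.zo (by omega) (by omega) (by omega) (by omega) (by omega)
        (H.pm1 hf (by omega) (by omega))
    · have e : b - 1 - q = b - 2 := by omega
      rw [e]
      exact H.zo (by omega) (by omega) (by omega) (by omega) (by omega)
        (H.pm2 hf (by omega) (by omega))

end HS

end LocR4

end Pool.Agent.SNT
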