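import Pool.Agent.SNT.LocR4a

set_option autoImplicit false

/-! LOCATION of the leader `6 k + 4`: the IN row of the leader, and the odd layers in the rows
`b`, `b + 1`. -/

namespace Pool.Agent.SNT

variable {f : ℕ → ℕ → ℕ → ℕ → Prop}

namespace LocR4

open TipI LocZ LocG

namespace HS

variable {k n b X : ℕ}

/-- The layer `6 k + 4` in the row `b - 1`, exterior ones and zeros, columns from `2 n + 1` on. -/
theorem am1 (H : HS f k n b X) {x y : ℕ} (hd : y + 2 * k ≤ x) (hx : 2 * n < x)
    (hn : x + 6 * k + 40 ≤ b + y) :
    f (6 * k + 4) (b - 1) x y ↔ (x + y) % 4 = (2 * k) % 4 := by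
  have h1 := H.hk; have h2 := H.hb2; have h3 := H.h4; have h4 := H.hbk; have h6 := H.hX
  have e6 : (6 * k + 4) / 6 = k := by omega
  have hcc : cc (6 * k + 4) = 2 * k := by
    unfold cc
    omega
  have e : b - 1 = b - 4 + 3 := by omega
  have h7 := H.am.r3
  rw [hcc] at h7
  rw [e, h7 x y (by omega), fst_ext (by omega) (by omega) (by omega) (by omega)
    (by rw [e6]; omega), e6]
  omega

/-- The strip of the layer `6 k + 4` in the row `b - 1`. -/
theorem am1s (H : HS f k n b X) {x y : ℕ} (hyx : y < x) (hd : x + 1 ≤ y + 2 * k)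
    (hx : 2 * n < x ∨ 2 * n + 1 < y + 2 * k) : ¬ f (6 * k + 4) (b - 1) x y := by
  have h1 := H.hk; have h2 := H.hb2; have h3 := H.h4; have h4 := H.hbk; have h6 := H.hX
  have e6 : (6 * k + 4) / 6 = k := by omega
  have hcc : cc (6 * k + 4) = 2 * k := by
    unfold cc
    omega
  have e : b - 1 = b - 4 + 3 := by omega
  have hF : ¬ Fst (6 * k + 4) (b - 4 + 3) x y := by
    rw [Fst_odd (by omega) (by omega) (by omega) hyx.le (by rw [e6]; omega)]
    omega
  rw [e]
  rcases hx with hx | hx
  · have h7 := H.am.r3
    rw [hcc] at h7
    rw [h7 x y (by omega)]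
    exact hF
  · rw [H.am.r3s x y (by rw [e6]; omega) (by omega)]
    exact hF

/-- The odd layer `6 k + 3` at the predecessors of the line of the tip. -/
theorem p0t (hf : Rule f) (H : HS f k n b X) {t x y : ℕ} (ht : t + 2 ≤ k) (hx : 2 * n ≤ x)
    (hx2 : x ≤ 2 * n + 1) (hy : y + 2 * t + 2 = 2 * n) : ¬ f (6 * k + 3) b x y := by
  have h1 := H.hk; have h2 := H.hb2; have h3 := H.h4; have h4 := H.hbk; have h5 := H.hXb
  have h6 := H.hX
  rcases Nat.lt_or_ge (t + 2) k with h7 | h7
  · have hcov := H.mid.cov0 hf (x := x) (y := y) (by omega) (by omega) (by omega)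
    exact Sig.zero_below hf (a := 6 * k + 3) (b := b) (p := 1) (q := 0) hcov le_rfl (by omega)
      (by omega)
  · rcases Nat.lt_or_ge (2 * n) x with h8 | h8
    · exact kill hf (H.bm1 (x := x) (y := y - 1) (by omega) (by omega) (by omega) (by omega))
        (by omega) (by omega) (by omega) (by omega) (by omega)
    · have ho := H.bm1 (x := x - 1) (y := y - 3) (by omega) (by omega) (by omega) (by omega)
      have := sand_y hf ho (by omega)
      have e1 : b - 1 + 1 = b := by omega
      have e2 : x - 1 + 1 = x := by omega
      have e3 : y - 3 + 3 = y := by omega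
      rwa [e1, e2, e3] at this

/-- The in-line of the tip. -/
theorem travel (hf : Rule f) (H : HS f k n b X) (tip : f (6 * k + 4) b (2 * n + 1) (2 * n)) :
    ∀ t : ℕ, t + 1 ≤ k → f (6 * k + 4) b (2 * n + 1) (2 * n - 2 * t) := by
  have h1 := H.hk; have h2 := H.hb2; have h3 := H.h4; have h4 := H.hbk; have h5 := H.hXb
  have h6 := H.hX
  intro t
  induction t with
  | zero => intro _; exact tip
  | succ t ih =>
    intro ht
    have ih' := ih (by omega)
    have hz : ¬ f (6 * k + 4) b (2 * n + 1) (2 * n - 2 * t - 1) := by
      intro h'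
      exact kill hf h' (a' := 6 * k + 4) (b' := b) (x' := 2 * n + 1) (y' := 2 * n - 2 * t)
        (by omega) (by omega) (by omega) (by omega) (by omega) ih'
    obtain ⟨p, q, r, s, hp, hq, hr, hs, hsum, hpa, hqb, hrx, hsy, hone⟩ :=
      hf.exists_pred (by omega) hz
    rcases Nat.eq_zero_or_pos s with hs0 | hs0
    · exfalso
      exact kill hf hone (a' := 6 * k + 4) (b' := b) (x' := 2 * n + 1) (y' := 2 * n - 2 * t)
        (by omega) (by omega) (by omega) (by omega) (by omega) ih'
    have hs1 : s = 1 := by omega
    subst hs1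
    rcases Nat.eq_zero_or_pos p with hp0 | hp0
    · subst hp0
      rcases Nat.eq_zero_or_pos q with hq0 | hq0
      · subst hq0
        rcases Nat.eq_zero_or_pos r with hr0 | hr0
        · subst hr0
          have e : 2 * n - 2 * t - 1 - 1 = 2 * n - 2 * (t + 1) := by omega
          rw [e] at hone
          exact hone
        · exfalso
          exact hf.not_allEven hone (by omega)
      · have hq1 : q = 1 := by omega
        subst hq1
        exfalso
        exact H.am1s (x := 2 * n + 1 - r) (y := 2 * n - 2 * t - 1 - 1) (by omega) (by omega)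
          (by omega) hone
    · have hp1 : p = 1 := by omega
      subst hp1
      exfalso
      have e3 : 6 * k + 4 - 1 = 6 * k + 3 := by omega
      rw [e3] at hone
      rcases Nat.eq_zero_or_pos q with hq0 | hq0
      · subst hq0
        exact H.p0t hf (t := t) (x := 2 * n + 1 - r) (y := 2 * n - 2 * t - 1 - 1) (by omega)
          (by omega) (by omega) (by omega) hone
      · have hq1 : q = 1 := by omega
        subst hq1
        exact H.zo (by omega) (by omega) (by omega) (by omega) (by omega)
          (H.pm1 hf (x := 2 * n + 1 - r) (y := 2 * n - 2 * t - 1 - 1) (by omega) (by omega)) hone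

/-- THE IN ROW OF THE LEADER. -/
theorem r0 (hf : Rule f) (H : HS f k n b X) (tip : f (6 * k + 4) b (2 * n + 1) (2 * n)) :
    St f (6 * k + 4) b (2 * n) := by
  have h1 := H.hk; have h2 := H.hb2; have h3 := H.h4; have h4 := H.hbk; have h5 := H.hXb
  have h6 := H.hX
  have e6 : (6 * k + 4) / 6 = k := by omega
  have e3 : 6 * k + 4 - 1 = 6 * k + 3 := by omega
  refine St_of_half hf ?_
  intro x y hyx hx
  rcases Nat.lt_or_ge (2 * n + 2) x with hx2 | hx2
  · exact H.a0.r0 x y (by omega)
  refine H.mke (by omega) (by omega) (by omega) hyx (by omega) ?_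
  intro hn
  have hline : ∀ v : ℕ, v % 2 = 0 → v ≤ 2 * n → 2 * n + 2 ≤ v + 2 * k →
      f (6 * k + 4) b (2 * n + 1) v := by
    intro v hv hv1 hv2
    have := H.travel hf tip ((2 * n - v) / 2) (by omega)
    have e : 2 * n - 2 * ((2 * n - v) / 2) = v := by omega
    rwa [e] at this
  have z0 : ∀ v : ℕ, 2 * n + 1 = v + 2 * k → ¬ f (6 * k + 4) b (2 * n + 1) v := by
    intro v hv h'
    exact kill hf h' (a' := 6 * k + 4) (b' := b) (x' := 2 * n + 1) (y' := v + 1)
      (by omega) (by omega) (by omega) (by omega) (by omega)
      (hline (v + 1) (by omega) (by omega) (by omega))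
  have z1 : ∀ v : ℕ, 2 * n + 1 = v + (2 * k + 1) → ¬ f (6 * k + 4) b (2 * n + 1) v := by
    intro v hv
    exact kill hf ((H.am1 (x := 2 * n + 1) (y := v - 1) (by omega) (by omega) (by omega)).2
      (by omega)) (by omega) (by omega) (by omega) (by omega) (by omega)
  rcases Nat.lt_or_ge x (y + 2 * k + 2) with hd | hd
  swap
  · refine ext_gen hf (D := 2 * k + 1) (by omega) (by omega) (by omega) (by omega) (by omega)
      (by rw [e6]; omega) (by omega) ?_ ?_
    · intro u v h7 h8 h9 h10
      exact H.am1x hf (by omega) (by omega)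
    · intro _ q r s hq hr hs
      rw [e3]
      rcases Nat.eq_zero_or_pos q with hq0 | hq0
      · subst hq0
        exact H.zo (by omega) (by omega) (by omega) (by omega) (by omega)
          (H.p0x hf (by omega) (by omega))
      · have e : b - q = b - 1 := by omega
        rw [e]
        exact H.zo (by omega) (by omega) (by omega) (by omega) (by omega)
          (H.pm1 hf (by omega) (by omega))
  rcases Nat.lt_or_ge x (y + 2 * k) with hs | hs
  · -- the strip
    rw [Fst_II (by omega) (by omega) h2 (by omega) hyx (by rw [e6]; omega)]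
    rcases Nat.lt_or_ge (2 * n + 1) x with hx1 | hx1
    · refine iff_of_false ?_ (by omega)
      rcases Nat.mod_two_eq_zero_or_one y with hy2 | hy2
      · intro h'
        exact hf.not_allEven h' (by omega)
      · exact kill hf (hline (y - 1) (by omega) (by omega) (by omega)) (by omega) (by omega)
          (by omega) (by omega) (by omega)
    · have ex : x = 2 * n + 1 := by omega
      subst ex
      rcases Nat.mod_two_eq_zero_or_one y with hy2 | hy2
      · exact iff_of_true (hline y hy2 (by omega) (by omega)) (by omega)
      · refine iff_of_false ?_ (by omega)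
        exact kill hf (hline (y - 1) (by omega) (by omega) (by omega)) (by omega) (by omega)
          (by omega) (by omega) (by omega)
  · rw [fst_ext (by omega) (by omega) (by omega) (by omega) (by rw [e6]; omega), e6]
    rcases Nat.lt_or_ge (2 * n + 1) x with hx1 | hx1
    · rcases Nat.mod_two_eq_zero_or_one y with hy2 | hy2
      · refine iff_of_false ?_ (by omega)
        intro h'
        exact hf.not_allEven h' (by omega)
      · -- born
        refine iff_of_true ?_ (by omega)
        by_contra hno
        obtain ⟨p, q, r, s, hp, hq, hr', hs', hsum, hpa, hqb, hrx, hsy, hone⟩ :=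
          hf.exists_pred (by omega) hno
        rcases Nat.eq_zero_or_pos p with hp0 | hp0
        · subst hp0
          rcases Nat.eq_zero_or_pos q with hq0 | hq0
          · subst hq0
            simp only [Nat.sub_zero] at hone
            have hrs : (r = 0 ∧ s = 1) ∨ (r = 1 ∧ s = 0) ∨ (r = 1 ∧ s = 1) := by omega
            rcases hrs with ⟨rfl, rfl⟩ | ⟨rfl, rfl⟩ | ⟨rfl, rfl⟩
            · exact hf.not_allEven hone (by omega)
            · have e : x - 1 = 2 * n + 1 := by omega
              rw [e] at hone
              exact z0 _ (by omega) hone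
            · have e : x - 1 = 2 * n + 1 := by omega
              rw [e] at hone
              exact z1 _ (by omega) hone
          · have hq1 : q = 1 := by omega
            subst hq1
            rw [Nat.sub_zero, H.am1 (by omega) (by omega) (by omega)] at hone
            omega
        · have hp1 : p = 1 := by omega
          subst hp1
          rw [e3] at hone
          rcases Nat.eq_zero_or_pos q with hq0 | hq0
          · subst hq0
            exact H.zo (by omega) (by omega) (by omega) (by omega) (by omega)
              (H.p0x hf (x := x - r) (y := y - s) (by omega) (by omega)) hone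
          · have hq1 : q = 1 := by omega
            subst hq1
            exact H.zo (by omega) (by omega) (by omega) (by omega) (by omega)
              (H.pm1 hf (x := x - r) (y := y - s) (by omega) (by omega)) hone
    · have ex : x = 2 * n + 1 := by omega
      subst ex
      rcases (show 2 * n + 1 = y + 2 * k ∨ 2 * n + 1 = y + (2 * k + 1) by omega) with hc | hc
      · refine iff_of_false (z0 y hc) (by omega)
      · refine iff_of_false (z1 y hc) (by omega)

/-- The ones of the leader in its IN row. -/
theorem aone (H : HS f k n b X) (hr : St f (6 * k + 4) b (2 * n)) {x y : ℕ} (hyx : y < x)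
    (hd : x + 1 ≤ y + 2 * k) (hx : 2 * n < x) (hx2 : x % 2 = 1) (hy2 : y % 2 = 0) :
    f (6 * k + 4) b x y := by
  have h1 := H.hk; have h2 := H.hb2; have h3 := H.h4; have h4 := H.hbk
  have e6 : (6 * k + 4) / 6 = k := by omega
  rw [hr x y (by omega), Fst_II (by omega) (by omega) h2 (by omega) hyx.le (by rw [e6]; omega)]
  exact ⟨hx2, hy2⟩

/-- `6 k + 3` in the row `b`. -/
theorem p0 (hf : Rule f) (H : HS f k n b X) (hr : St f (6 * k + 4) b (2 * n)) {x y : ℕ}
    (hyx : y ≤ x) (hx : 2 * n ≤ x) : f (6 * k + 3) b x y ↔ Fst (6 * k + 3) b x y := by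
  have h1 := H.hk; have h2 := H.hb2; have h3 := H.h4; have h4 := H.hbk; have h5 := H.hXb
  have h6 := H.hX
  rcases Nat.lt_or_ge x (y + 2 * k) with hd | hd
  swap
  · exact H.p0x hf hd hx
  refine H.mko (by omega) (by omega) (by omega) (by omega) (by omega) (by omega) ?_
  intro hn
  rcases Nat.mod_two_eq_zero_or_one x with hx2 | hx2 <;>
    rcases Nat.mod_two_eq_zero_or_one y with hy2 | hy2
  · intro h'
    exact kill hf h' (by omega) (by omega) (by omega) (by omega) (by omega)
      (H.aone hr (x := x + 1) (y := y) (by omega) (by omega) (by omega) (by omega) (by omega))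
  · intro h'
    exact kill hf h' (by omega) (by omega) (by omega) (by omega) (by omega)
      (H.aone hr (x := x + 1) (y := y + 1) (by omega) (by omega) (by omega) (by omega) (by omega))
  · intro h'
    exact kill hf h' (by omega) (by omega) (by omega) (by omega) (by omega)
      (H.aone hr (x := x) (y := y) (by omega) (by omega) (by omega) (by omega) (by omega))
  · rcases Nat.lt_or_ge y x with h7 | h7
    · intro h'
      exact kill hf h' (by omega) (by omega) (by omega) (by omega) (by omega)
        (H.aone hr (x := x) (y := y + 1) (by omega) (by omega) (by omega) (by omega) (by omega))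
    · refine H.eoP hf hyx (by omega) ?_
      intro q u v hq hvu hu1 hu2 hv1 hv2
      rcases Nat.eq_zero_or_pos q with hq0 | hq0
      · subst hq0
        exact H.zo (by omega) (by omega) (by omega) hvu (by omega) (H.q0a u v hvu (by omega))
      · have e : b - q = b - 1 := by omega
        rw [e]
        exact H.zo (by omega) (by omega) (by omega) hvu (by omega)
          (H.qe (b - 1) u v (by omega) (by omega) (by omega) hvu (by omega))

/-- `6 k + 1` in the row `b`. -/
theorem q0 (hf : Rule f) (H : HS f k n b X) (hr : St f (6 * k + 4) b (2 * n)) {x y : ℕ}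
    (hyx : y ≤ x) (hx : 2 * n ≤ x) : f (6 * k + 1) b x y ↔ Fst (6 * k + 1) b x y := by
  have h1 := H.hk; have h2 := H.hb2; have h3 := H.h4; have h4 := H.hbk; have h5 := H.hXb
  have h6 := H.hX
  have e6 : (6 * k + 2) / 6 = k := by omega
  by_cases hE : b % 2 = 0 ∧ x % 2 = 0 ∧ y % 2 = 0
  swap
  · exact H.qe b x y (by omega) (by omega) hE hyx (by omega)
  rcases Nat.lt_or_ge (2 * n) (y + 3) with h7 | h7
  · exact H.q0a x y hyx h7
  rcases Nat.lt_or_ge (x + 1) (y + 2 * k) with h8 | h8
  swap
  · exact H.q0b x y h8 (by omega)
  refine H.mko (by omega) (by omega) (by omega) (by omega) hyx (by omega) ?_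
  intro hn
  have hcov : Sig.Cov f (6 * k + 2) b x y := by
    have := Mid.cov_of hf (a := 6 * k + 2) (b := b - 1) (x := x) (y := y) (by omega) ?_ ?_
    · have e : b - 1 + 1 = b := by omega
      rwa [e] at this
    · intro i s q hi hs hq
      rcases Nat.eq_zero_or_pos q with hq0 | hq0
      · subst hq0
        have e : b - 1 + 1 - 0 = b := by omega
        rw [e]
        exact H.zo (by omega) (by omega) (by omega) (by omega) (by omega)
          (H.p0 hf hr (x := x + i) (y := y + s) (by omega) (by omega))
      · have e : b - 1 + 1 - q = b - 1 := by omega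
        rw [e]
        exact H.zo (by omega) (by omega) (by omega) (by omega) (by omega)
          (H.pm1 hf (x := x + i) (y := y + s) (by omega) (by omega))
    · intro i s hi hs
      have e : b - 1 = b - 2 + 1 := by omega
      rw [e, H.b2.r1s (by omega) _ _ (by rw [e6]; omega) (by omega),
        Fst_odd (by omega) (by omega) (by omega) (by omega) (by rw [e6]; omega)]
      omega
  exact Sig.zero_below hf (a := 6 * k + 1) (b := b) (p := 1) (q := 0) hcov le_rfl (by omega)
    (by omega)

/-- `6 k + 3` in the row `b + 1`. -/
theorem p1 (hf : Rule f) (H : HS f k n b X) (hr : St f (6 * k + 4) b (2 * n)) {x y : ℕ}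
    (hyx : y ≤ x) (hx : 2 * n < x) : f (6 * k + 3) (b + 1) x y ↔ Fst (6 * k + 3) (b + 1) x y := by
  have h1 := H.hk; have h2 := H.hb2; have h3 := H.h4; have h4 := H.hbk; have h5 := H.hXb
  have h6 := H.hX
  refine H.mko (by omega) (by omega) (by omega) (by omega) (by omega) (by omega) ?_
  intro hn
  refine H.eoP hf hyx (by omega) ?_
  intro q u v hq hvu hu1 hu2 hv1 hv2
  rcases Nat.eq_zero_or_pos q with hq0 | hq0
  · subst hq0
    exact H.zo (by omega) (by omega) (by omega) hvu (by omega)
      (H.qe (b + 1) u v (by omega) (by omega) (by omega) hvu (by omega))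
  · have e : b + 1 - q = b := by omega
    rw [e]
    exact H.zo (by omega) (by omega) (by omega) hvu (by omega) (H.q0 hf hr hvu (by omega))

/-- The rows `b`, `b + 1` of the leader. -/
theorem dg (hf : Rule f) (H : HS f k n b X) (hr : St f (6 * k + 4) b (2 * n)) :
    DG f (6 * k + 4) b n := by
  have h1 := H.hk; have h2 := H.hb2; have h3 := H.h4; have h4 := H.hbk; have h5 := H.hXb
  have h6 := H.hX
  have e3 : 6 * k + 4 - 1 = 6 * k + 3 := by omega
  have e6 : (6 * k + 4) / 6 = k := by omega
  refine ⟨by omega, by omega, h2, by omega, by rw [e6]; omega, by omega, H.a0, hr, ?_, ?_⟩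
  · rw [e3]
    exact St_of_half hf fun x y hyx hx => H.p0 hf hr hyx (by omega)
  · rw [e3]
    exact St_of_half hf fun x y hyx hx => H.p1 hf hr hyx hx

end HS

end LocR4

end Pool.Agent.SNT
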