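import Pool.Agent.SNT.LocR4c

set_option autoImplicit false

/-! LOCATION of the leader `6 k + 6`: the window, and the IN row of the leader. -/

namespace Pool.Agent.SNT

variable {f : ℕ → ℕ → ℕ → ℕ → Prop}

namespace LocR6

open TipI LocZ LocG

/-- The window of the leader `6 k + 6`: IN row `b`, lead `n`; `X` is far behind the front. -/
structure HT (f : ℕ → ℕ → ℕ → ℕ → Prop) (k n b X : ℕ) : Prop where
  hk : 8 ≤ k
  hb2 : b % 2 = 0
  h4 : (6 * k + b) % 4 = 0
  hbk : 40 * k + 400 ≤ b
  hXb : b + 10 * k + 100 ≤ X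
  hX : X + 6 * k + 80 ≤ 2 * n
  fr : ∀ a r x y : ℕ, a ≤ 6 * k + 10 → b ≤ r + 8 → r ≤ b + 8 → y ≤ x → X < x →
    b + y < x + 6 * k + 60 → (f a r x y ↔ Fst a r x y)
  S0 : LocR4.HS f k (n - 2) (b - 2) X
  S1 : LocR4.HS f k (n + k) (b + 2) X
  B0 : Cyc f (6 * k + 4) (b - 2) (2 * n - 4)
  B3 : St f (6 * k + 4) (b - 3) (2 * n - 6)
  B1 : St f (6 * k + 4) (b + 2) (2 * n + 2 * k)
  C0 : Cyc f (6 * k + 2) (b - 4) (2 * n - 8)
  Am : Cyc f (6 * k + 6) (b - 4) (2 * n - 2 * k - 2)
  A0 : Cyc f (6 * k + 6) b (2 * n + 2)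
  edge : f (6 * k + 6) (b - 2) (2 * n) (2 * n - 2 * k - 1)
  um : ∀ x y : ℕ, y ≤ x → x + 1 ≤ y + 2 * (k + 1) → 2 * n + 4 ≤ y + 2 * k →
    (f (6 * k + 8) b x y ↔ Fst (6 * k + 8) b x y)
  um3 : ∀ x y : ℕ, y ≤ x → x + 1 ≤ y + 2 * (k + 1) → 2 * n + 6 ≤ y + 2 * k →
    (f (6 * k + 8) (b + 1) x y ↔ Fst (6 * k + 8) (b + 1) x y)
  u0 : ∀ x y : ℕ, y ≤ x → 2 * n + 7 ≤ x → x + 3 ≤ y + 2 * (k + 1) ∨ 2 * n + 9 ≤ x →
    (f (6 * k + 8) (b + 2) x y ↔ Fst (6 * k + 8) (b + 2) x y)
  v2 : ∀ x y : ℕ, y ≤ x → x + 1 ≤ y + 2 * (k + 1) → 2 * n + 8 ≤ y + 2 * k →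
    (f (6 * k + 10) (b + 2) x y ↔ Fst (6 * k + 10) (b + 2) x y)

namespace HT

variable {k n b X : ℕ}

/-- Static cells of an odd layer. -/
theorem mko (H : HT f k n b X) {a r x y : ℕ} (ha : a % 2 = 1) (ha2 : a ≤ 6 * k + 9)
    (hr : b ≤ r + 8) (hr2 : r ≤ b + 8) (hyx : y ≤ x) (hx : X < x)
    (h : x + 6 * k + 60 ≤ b + y → ¬ f a r x y) : f a r x y ↔ Fst a r x y := by
  rcases Nat.lt_or_ge (b + y) (x + 6 * k + 60) with h1 | h1
  · exact H.fr a r x y (by omega) hr hr2 hyx hx h1
  · exact iff_of_false (h h1) (Fst_near_odd (by omega) (by omega))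

/-- Static cells of any layer. -/
theorem mke (H : HT f k n b X) {a r x y : ℕ} (ha2 : a ≤ 6 * k + 9)
    (hr : b ≤ r + 8) (hr2 : r ≤ b + 8) (hyx : y ≤ x) (hx : X < x)
    (h : x + 6 * k + 60 ≤ b + y → (f a r x y ↔ Fst a r x y)) : f a r x y ↔ Fst a r x y := by
  rcases Nat.lt_or_ge (b + y) (x + 6 * k + 60) with h1 | h1
  · exact H.fr a r x y (by omega) hr hr2 hyx hx h1
  · exact h h1

theorem hr0 (H : HT f k n b X) : St f (6 * k + 4) (b - 2) (2 * (n - 2)) := by
  have := H.hX
  have e : 2 * (n - 2) = 2 * n - 4 := by omega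
  rw [e]
  exact H.B0.r0

theorem hr1 (H : HT f k n b X) : St f (6 * k + 4) (b + 2) (2 * (n + k)) := by
  have e : 2 * (n + k) = 2 * n + 2 * k := by omega
  rw [e]
  exact H.B1

/-- `6 k + 3` in the row `b - 3`. -/
theorem q3 (hf : Rule f) (H : HT f k n b X) {x y : ℕ} (hyx : y ≤ x) (hx : 2 * n ≤ x + 8)
    (hn : x + 6 * k + 50 ≤ b + y) : ¬ f (6 * k + 3) (b - 3) x y := by
  have h := H.S0.pm1 hf (x := x) (y := y) hyx (by omega)
  have e : b - 2 - 1 = b - 3 := by omega
  rw [e] at h
  rw [h]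
  exact Fst_near_odd (by omega) (by omega)

/-- `6 k + 3` in the row `b - 2`. -/
theorem q2 (hf : Rule f) (H : HT f k n b X) {x y : ℕ} (hyx : y ≤ x) (hx : 2 * n ≤ x + 4)
    (hn : x + 6 * k + 50 ≤ b + y) : ¬ f (6 * k + 3) (b - 2) x y := by
  rw [H.S0.p0 hf H.hr0 (x := x) (y := y) hyx (by omega)]
  exact Fst_near_odd (by omega) (by omega)

/-- `6 k + 3` in the row `b - 1`. -/
theorem q1 (hf : Rule f) (H : HT f k n b X) {x y : ℕ} (hyx : y ≤ x) (hx : 2 * n ≤ x + 3)
    (hn : x + 6 * k + 50 ≤ b + y) : ¬ f (6 * k + 3) (b - 1) x y := by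
  have := H.hX; have := H.hbk
  have h := H.S0.p1 hf H.hr0 (x := x) (y := y) hyx (by omega)
  have e : b - 2 + 1 = b - 1 := by omega
  rw [e] at h
  rw [h]
  exact Fst_near_odd (by omega) (by omega)

/-- `6 k + 3` in the row `b`, exterior. -/
theorem q0x (hf : Rule f) (H : HT f k n b X) {x y : ℕ} (hd : y + 2 * k ≤ x) (hx : 2 * n ≤ x)
    (hpar : x = y + 2 * k → x % 2 = 0) (hn : x + 6 * k + 50 ≤ b + y) :
    ¬ f (6 * k + 3) b x y := by
  have := H.hX; have := H.hbk
  have h := H.S0.p2x hf H.hr0 (x := x) (y := y) hd (by omega) hpar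
  have e : b - 2 + 2 = b := by omega
  rw [e] at h
  rw [h]
  exact Fst_near_odd (by omega) (by omega)

/-- `6 k + 3` in the row `b`, lines. -/
theorem q0l (hf : Rule f) (H : HT f k n b X) {x y : ℕ} (hyx : y ≤ x) (hy : 2 * n ≤ y + 2)
    (hn : x + 6 * k + 50 ≤ b + y) : ¬ f (6 * k + 3) b x y := by
  have := H.hX; have := H.hbk
  have h := H.S0.p2b hf H.hr0 (x := x) (y := y) hyx (by omega)
  have e : b - 2 + 2 = b := by omega
  rw [e] at h
  rw [h]
  exact Fst_near_odd (by omega) (by omega)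

/-- `6 k + 1`: only exceptional cells. -/
theorem we (H : HT f k n b X) {r x y : ℕ} (hr1 : b ≤ r + 2) (hr2 : r ≤ b + 4)
    (hne : ¬ (r % 2 = 0 ∧ x % 2 = 0 ∧ y % 2 = 0)) (hyx : y ≤ x) (hx : X + 1 < x)
    (hn : x + 6 * k + 48 ≤ b + y) : ¬ f (6 * k + 1) r x y := by
  rw [H.S1.qe r x y (by omega) (by omega) hne hyx hx]
  exact Fst_near_odd (by omega) (by omega)

/-- `6 k + 1` in the row `b`, exterior. -/
theorem w0x (hf : Rule f) (H : HT f k n b X) {x y : ℕ} (hd : y + 2 * k + 2 ≤ x)
    (hx : 2 * n ≤ x) (hn : x + 6 * k + 48 ≤ b + y) : ¬ f (6 * k + 1) b x y := by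
  have := H.hX; have := H.hbk
  have h := H.S0.q2b hf (x := x) (y := y) hd (by omega)
  have e : b - 2 + 2 = b := by omega
  rw [e] at h
  rw [h]
  exact Fst_near_odd (by omega) (by omega)

/-- `6 k + 1` in the row `b`, diagonal. -/
theorem w0d (hf : Rule f) (H : HT f k n b X) {x : ℕ} (hx : 2 * n ≤ x + 4) :
    ¬ f (6 * k + 1) b x x := by
  have := H.hX; have := H.hbk
  have h := H.S0.q2d hf (x := x) (by omega)
  have e : b - 2 + 2 = b := by omega
  rw [e] at h
  rw [h]
  exact Fst_near_odd (by omega) (by omega)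

/-- `6 k + 1` in the row `b`, far to the right. -/
theorem w0a (H : HT f k n b X) {x y : ℕ} (hyx : y ≤ x) (hx : 2 * n + 2 * k ≤ x + 5)
    (hn : x + 6 * k + 48 ≤ b + y) : ¬ f (6 * k + 1) b x y := by
  have := H.hX; have := H.hbk
  have h := H.S0.q2a x y hyx (by omega)
  have e : b - 2 + 2 = b := by omega
  rw [e] at h
  rw [h]
  exact Fst_near_odd (by omega) (by omega)

/-- The odd layer `6 k + 5` over `6 k + 4`: only the exceptional cells. -/
theorem eoP (hf : Rule f) {r x y : ℕ} (hyx : y ≤ x)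
    (hne : ¬ (r % 2 = 0 ∧ x % 2 = 0 ∧ y % 2 = 0))
    (H0 : ∀ q u v : ℕ, q ≤ 1 → v ≤ u → x ≤ u + 1 → u ≤ x → y ≤ v + 1 → v ≤ y →
      ¬ f (6 * k + 3) (r - q) u v) : ¬ f (6 * k + 5) r x y := by
  have := eonly hf (A := 6 * k + 4) (b := r) (x := x) (y := y) (by omega) hne ?_
  · exact this
  · intro q i s hq hi hs
    have e : 6 * k + 4 - 1 = 6 * k + 3 := by omega
    rw [e]
    rcases Nat.lt_or_ge (x - i) (y - s) with h9 | h9
    · rw [hf.swap_xy]
      exact H0 q (y - s) (x - i) hq (by omega) (by omega) (by omega) (by omega) (by omega)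
    · exact H0 q (x - i) (y - s) hq h9 (by omega) (by omega) (by omega) (by omega)

/-- The odd layer `6 k + 3` over `6 k + 2`: only the exceptional cells. -/
theorem eoQ (hf : Rule f) {r x y : ℕ} (hyx : y ≤ x)
    (hne : ¬ (r % 2 = 0 ∧ x % 2 = 0 ∧ y % 2 = 0))
    (H0 : ∀ q u v : ℕ, q ≤ 1 → v ≤ u → x ≤ u + 1 → u ≤ x → y ≤ v + 1 → v ≤ y →
      ¬ f (6 * k + 1) (r - q) u v) : ¬ f (6 * k + 3) r x y := by
  have := eonly hf (A := 6 * k + 2) (b := r) (x := x) (y := y) (by omega) hne ?_
  · exact this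
  · intro q i s hq hi hs
    have e : 6 * k + 2 - 1 = 6 * k + 1 := by omega
    rw [e]
    rcases Nat.lt_or_ge (x - i) (y - s) with h9 | h9
    · rw [hf.swap_xy]
      exact H0 q (y - s) (x - i) hq (by omega) (by omega) (by omega) (by omega) (by omega)
    · exact H0 q (x - i) (y - s) hq h9 (by omega) (by omega) (by omega) (by omega)

/-- `6 k + 5` in the row `b - 1`. -/
theorem pm1 (hf : Rule f) (H : HT f k n b X) {x y : ℕ} (hyx : y ≤ x) (hx : 2 * n ≤ x + 2)
    (hn : x + 6 * k + 54 ≤ b + y) : ¬ f (6 * k + 5) (b - 1) x y := by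
  have h2 := H.hb2; have h4 := H.hbk
  refine eoP hf hyx (by omega) ?_
  intro q u v hq hvu hu1 hu2 hv1 hv2
  rcases Nat.eq_zero_or_pos q with hq0 | hq0
  · subst hq0
    exact H.q1 hf hvu (by omega) (by omega)
  · have e : b - 1 - q = b - 2 := by omega
    rw [e]
    exact H.q2 hf hvu (by omega) (by omega)

/-- `6 k + 5` in the row `b - 2`, exterior. -/
theorem pm2 (hf : Rule f) (H : HT f k n b X) {x y : ℕ} (hd : y + 2 * k ≤ x)
    (hx : 2 * n ≤ x + 3) (hn : x + 6 * k + 54 ≤ b + y) : ¬ f (6 * k + 5) (b - 2) x y := by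
  have h1 := H.hk; have h2 := H.hb2; have h3 := H.h4; have h4 := H.hbk; have h6 := H.hX
  have h5 := H.hXb
  have e6 : (6 * k + 4) / 6 = k := by omega
  by_cases hE : (b - 2) % 2 = 0 ∧ x % 2 = 0 ∧ y % 2 = 0
  swap
  · refine eoP hf (by omega) hE ?_
    intro q u v hq hvu hu1 hu2 hv1 hv2
    rcases Nat.eq_zero_or_pos q with hq0 | hq0
    · subst hq0
      exact H.q2 hf hvu (by omega) (by omega)
    · have e : b - 2 - q = b - 3 := by omega
      rw [e]
      exact H.q3 hf hvu (by omega) (by omega)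
  · obtain ⟨-, hx2, hy2⟩ := hE
    rcases (show (x + y) % 4 = (2 + 2 * k) % 4 ∨ (x + y) % 4 = (2 * k) % 4 by omega) with hc | hc
    · have ho : f (6 * k + 4) (b - 3) (x - 1) (y - 1) := by
        rw [H.B3 _ _ (by omega), fst_ext (by omega) (by omega) (by omega) (by omega)
          (by rw [e6]; omega), e6]
        omega
      exact kill hf ho (by omega) (by omega) (by omega) (by omega) (by omega)
    · have ho : f (6 * k + 4) (b - 3) x y := by
        rw [H.B3 _ _ (by omega), fst_ext (by omega) (by omega) (by omega) (by omega)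
          (by rw [e6]; omega), e6]
        omega
      exact kill hf ho (by omega) (by omega) (by omega) (by omega) (by omega)

/-- The ones of the layer `6 k + 4` in the row `b - 1`, exterior. -/
theorem bm1 (H : HT f k n b X) {x y : ℕ} (hd : y + 2 * k ≤ x) (hx : 2 * n ≤ x + 1)
    (hn : x + 6 * k + 50 ≤ b + y) (hc : (x + y) % 4 = (2 + 2 * k) % 4) :
    f (6 * k + 4) (b - 1) x y := by
  have h1 := H.hk; have h2 := H.hb2; have h3 := H.h4; have h4 := H.hbk; have h6 := H.hX
  have e6 : (6 * k + 4) / 6 = k := by omega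
  have e : b - 1 = b - 2 + 1 := by omega
  rw [e, H.B0.r1 _ _ (by omega), fst_ext (by omega) (by omega) (by omega) (by omega)
    (by rw [e6]; omega), e6]
  omega

/-- The ones of the layer `6 k + 4` in the row `b`, exterior. -/
theorem b0o (H : HT f k n b X) {x y : ℕ} (hd : y + 2 * k ≤ x) (hx : 2 * n < x)
    (hn : x + 6 * k + 50 ≤ b + y) (hc : (x + y) % 4 = (1 + 2 * k) % 4) :
    f (6 * k + 4) b x y := by
  have h1 := H.hk; have h2 := H.hb2; have h3 := H.h4; have h4 := H.hbk; have h6 := H.hX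
  have e6 : (6 * k + 4) / 6 = k := by omega
  have h := H.B0.r2x x y (by rw [e6]; omega) (by omega)
  have e : b - 2 + 2 = b := by omega
  rw [e] at h
  rw [h, fst_ext (by omega) (by omega) (by omega) (by omega) (by rw [e6]; omega), e6]
  omega

/-- `6 k + 5` in the row `b` at the predecessors of a one of `6 k + 6`. -/
theorem pb4 (hf : Rule f) (H : HT f k n b X) {x y r s : ℕ} (hd : y + 2 * k + 2 ≤ x)
    (hx : 2 * n < x) (hn : x + 6 * k + 56 ≤ b + y) (hc : (x + y) % 4 = (1 + 2 * k) % 4)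
    (hr : r ≤ 1) (hs : s ≤ 1) : ¬ f (6 * k + 5) b (x - r) (y - s) := by
  have h1 := H.hk; have h2 := H.hb2; have h4 := H.hbk; have h6 := H.hX; have h5 := H.hXb
  rcases Nat.eq_zero_or_pos s with hs0 | hs0
  · rcases Nat.eq_zero_or_pos r with hr0 | hr0
    · exact kill hf (H.b0o (x := x) (y := y) (by omega) hx (by omega) hc)
        (by omega) (by omega) (by omega) (by omega) (by omega)
    · exact kill hf (H.bm1 (x := x - 2) (y := y - 1) (by omega) (by omega) (by omega) (by omega))
        (by omega) (by omega) (by omega) (by omega) (by omega)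
  · exact kill hf (H.bm1 (x := x - 1) (y := y - 2) (by omega) (by omega) (by omega) (by omega))
      (by omega) (by omega) (by omega) (by omega) (by omega)

/-- The layer `6 k + 6` in the row `b - 1`, exterior. -/
theorem am1x (hf : Rule f) (H : HT f k n b X) {x y : ℕ} (hd : y + 2 * k + 3 ≤ x)
    (hx : 2 * n ≤ x + 1) : f (6 * k + 6) (b - 1) x y ↔ Fst (6 * k + 6) (b - 1) x y := by
  have h1 := H.hk; have h2 := H.hb2; have h3 := H.h4; have h4 := H.hbk; have h5 := H.hXb
  have h6 := H.hX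
  have e6 : (6 * k + 6) / 6 = k + 1 := by omega
  refine H.mke (by omega) (by omega) (by omega) (by omega) (by omega) ?_
  intro hn
  refine ext_gen hf (D := 2 * k + 2) (by omega) (by omega) (by omega) (by omega) (by omega)
    (by rw [e6]; omega) (by omega) ?_ ?_
  · intro u v h7 h8 h9 h10
    have e : b - 1 - 1 = b - 4 + 2 := by omega
    rw [e]
    exact H.Am.r2x u v (by rw [e6]; omega) (by omega)
  · intro _ q r s hq hr hs
    have e3 : 6 * k + 6 - 1 = 6 * k + 5 := by omega
    rw [e3]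
    rcases Nat.eq_zero_or_pos q with hq0 | hq0
    · subst hq0
      exact H.pm1 hf (by omega) (by omega) (by omega)
    · have e : b - 1 - q = b - 2 := by omega
      rw [e]
      exact H.pm2 hf (by omega) (by omega) (by omega)

/-- Ones and zeros of the layer `6 k + 6` in the row `b - 1`, exterior. -/
theorem am1 (hf : Rule f) (H : HT f k n b X) {x y : ℕ} (hd : y + 2 * k + 3 ≤ x)
    (hx : 2 * n ≤ x + 1) (hn : x + 6 * k + 50 ≤ b + y) :
    f (6 * k + 6) (b - 1) x y ↔ (x + y) % 4 = (2 + 2 * k) % 4 := by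
  have h1 := H.hk; have h2 := H.hb2; have h3 := H.h4; have h4 := H.hbk
  have e6 : (6 * k + 6) / 6 = k + 1 := by omega
  rw [H.am1x hf hd hx, fst_ext (by omega) (by omega) (by omega) (by omega)
    (by rw [e6]; omega), e6]
  omega

/-- The strip of the layer `6 k + 6` in the row `b - 1`. -/
theorem am1s (H : HT f k n b X) {x y : ℕ} (hyx : y < x) (hd : x ≤ y + 2 * k + 1)
    (hy : 2 * n + 2 ≤ y + 2 * k) : ¬ f (6 * k + 6) (b - 1) x y := by
  have h1 := H.hk; have h2 := H.hb2; have h3 := H.h4; have h4 := H.hbk; have h6 := H.hX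
  have e6 : (6 * k + 6) / 6 = k + 1 := by omega
  have e : b - 1 = b - 4 + 3 := by omega
  rw [e, H.Am.r3s x y (by rw [e6]; omega) (by omega),
    Fst_odd (by omega) (by omega) (by omega) hyx.le (by rw [e6]; omega)]
  omega

/-- The OUT row `b` of the layer `6 k + 8`. -/
theorem uo (H : HT f k n b X) {x y : ℕ} (hyx : y < x) (hd : x ≤ y + 2 * k + 1)
    (hy : 2 * n + 4 ≤ y + 2 * k) (hx2 : x % 2 = 0) (hy2 : y % 2 = 1) :
    f (6 * k + 8) b x y := by
  have h1 := H.hk; have h2 := H.hb2; have h3 := H.h4; have h4 := H.hbk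
  have e6 : (6 * k + 8) / 6 = k + 1 := by omega
  rw [H.um x y (by omega) (by omega) hy, Fst_I (by omega) (by omega) (by omega) (by omega)
    (by omega) (by rw [e6]; omega)]
  exact ⟨hx2, hy2⟩

/-- `6 k + 7` in the rows `b - 1`, `b`. -/
theorem u7 (hf : Rule f) (H : HT f k n b X) {q x y : ℕ} (hq : q ≤ 1) (hyx : y < x)
    (hd : x ≤ y + 2 * k) (hy : 2 * n + 4 ≤ y + 2 * k) : ¬ f (6 * k + 7) (b - q) x y := by
  have h4 := H.hbk
  intro h
  rcases Nat.mod_two_eq_zero_or_one x with hx2 | hx2 <;>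
    rcases Nat.mod_two_eq_zero_or_one y with hy2 | hy2
  · exact kill hf h (by omega) (by omega) (by omega) (by omega) (by omega)
      (H.uo (x := x) (y := y + 1) (by omega) (by omega) (by omega) (by omega) (by omega))
  · exact kill hf h (by omega) (by omega) (by omega) (by omega) (by omega)
      (H.uo (x := x) (y := y) (by omega) (by omega) (by omega) (by omega) (by omega))
  · exact kill hf h (by omega) (by omega) (by omega) (by omega) (by omega)
      (H.uo (x := x + 1) (y := y + 1) (by omega) (by omega) (by omega) (by omega) (by omega))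
  · exact kill hf h (by omega) (by omega) (by omega) (by omega) (by omega)
      (H.uo (x := x + 1) (y := y) (by omega) (by omega) (by omega) (by omega) (by omega))

/-- The odd layer `6 k + 5` at the predecessors of the line of the tip. -/
theorem p0t (hf : Rule f) (H : HT f k n b X) {t x y : ℕ} (ht : t + 1 ≤ k) (hx : 2 * n ≤ x)
    (hx2 : x ≤ 2 * n + 1) (hy : y + 2 * t + 2 = 2 * n) : ¬ f (6 * k + 5) b x y := by
  have h1 := H.hk; have h2 := H.hb2; have h3 := H.h4; have h4 := H.hbk; have h5 := H.hXb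
  have h6 := H.hX
  rcases Nat.lt_or_ge (t + 2) k with h7 | h7
  · have hcov : Sig.Cov f (6 * k + 6) b x y := by
      have := Mid.cov_of hf (a := 6 * k + 6) (b := b - 1) (x := x) (y := y) (by omega) ?_ ?_
      · have e : b - 1 + 1 = b := by omega
        rwa [e] at this
      · intro i s q hi hs hq
        have e : b - 1 + 1 - q = b - q := by omega
        rw [e]
        exact H.u7 hf hq (by omega) (by omega) (by omega)
      · intro i s hi hs
        exact H.am1s (by omega) (by omega) (by omega)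
    exact Sig.zero_below hf (a := 6 * k + 5) (b := b) (p := 1) (q := 0) hcov le_rfl (by omega)
      (by omega)
  rcases (show t + 2 = k ∨ t + 1 = k by omega) with h8 | h8
  · rcases Nat.lt_or_ge (2 * n) x with h9 | h9
    · exact kill hf (H.bm1 (x := x) (y := y - 1) (by omega) (by omega) (by omega) (by omega))
        (by omega) (by omega) (by omega) (by omega) (by omega)
    · have ho := H.bm1 (x := x - 1) (y := y - 3) (by omega) (by omega) (by omega) (by omega)
      have := sand_y hf ho (by omega)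
      have e1 : b - 1 + 1 = b := by omega
      have e2 : x - 1 + 1 = x := by omega
      have e3 : y - 3 + 3 = y := by omega
      rwa [e1, e2, e3] at this
  · rcases Nat.lt_or_ge (2 * n) x with h9 | h9
    · exact kill hf (H.b0o (x := x) (y := y) (by omega) (by omega) (by omega) (by omega))
        (by omega) (by omega) (by omega) (by omega) (by omega)
    · exact kill hf (H.bm1 (x := x - 1) (y := y - 1) (by omega) (by omega) (by omega) (by omega))
        (by omega) (by omega) (by omega) (by omega) (by omega)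

/-- The in-line of the tip. -/
theorem travel (hf : Rule f) (H : HT f k n b X) (tip : f (6 * k + 6) b (2 * n + 1) (2 * n)) :
    ∀ t : ℕ, t ≤ k → f (6 * k + 6) b (2 * n + 1) (2 * n - 2 * t) := by
  have h1 := H.hk; have h2 := H.hb2; have h3 := H.h4; have h4 := H.hbk; have h5 := H.hXb
  have h6 := H.hX
  intro t
  induction t with
  | zero => intro _; exact tip
  | succ t ih =>
    intro ht
    have ih' := ih (by omega)
    have hz : ¬ f (6 * k + 6) b (2 * n + 1) (2 * n - 2 * t - 1) := by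
      intro h'
      exact kill hf h' (a' := 6 * k + 6) (b' := b) (x' := 2 * n + 1) (y' := 2 * n - 2 * t)
        (by omega) (by omega) (by omega) (by omega) (by omega) ih'
    obtain ⟨p, q, r, s, hp, hq, hr, hs, hsum, hpa, hqb, hrx, hsy, hone⟩ :=
      hf.exists_pred (by omega) hz
    rcases Nat.eq_zero_or_pos s with hs0 | hs0
    · exfalso
      exact kill hf hone (a' := 6 * k + 6) (b' := b) (x' := 2 * n + 1) (y' := 2 * n - 2 * t)
        (by omega) (by omega) (by omega) (by omega) (by omega) ih'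
    have hs1 : s = 1 := by omega
    subst hs1
    rcases Nat.eq_zero_or_pos p with hp0 | hp0
    · subst hp0
      rcases Nat.eq_zero_or_pos q with hq0 | hq0
      · subst hq0
        rcases Nat.eq_zero_or_pos r with hr0 | hr0
        · subst hr0
          have e : 2 * n - 2 * t - 1 - 1 = 2 * n - 2 * (t + 1) := by omega
          rw [e] at hone
          exact hone
        · exfalso
          exact hf.not_allEven hone (by omega)
      · have hq1 : q = 1 := by omega
        subst hq1
        exfalso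
        rcases Nat.lt_or_ge (t + 1) k with h7 | h7
        · exact H.am1s (x := 2 * n + 1 - r) (y := 2 * n - 2 * t - 1 - 1) (by omega) (by omega)
            (by omega) hone
        · exact kill hf H.edge (by omega) (by omega) (by omega) (by omega) (by omega) hone
    · have hp1 : p = 1 := by omega
      subst hp1
      exfalso
      have e3 : 6 * k + 6 - 1 = 6 * k + 5 := by omega
      rw [e3] at hone
      rcases Nat.eq_zero_or_pos q with hq0 | hq0
      · subst hq0
        exact H.p0t hf (t := t) (x := 2 * n + 1 - r) (y := 2 * n - 2 * t - 1 - 1) (by omega)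
          (by omega) (by omega) (by omega) hone
      · have hq1 : q = 1 := by omega
        subst hq1
        exact H.pm1 hf (x := 2 * n + 1 - r) (y := 2 * n - 2 * t - 1 - 1) (by omega) (by omega)
          (by omega) hone

end HT

end LocR6

end Pool.Agent.SNT
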