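import Pool.Agent.SNT.LocR6a

set_option autoImplicit false

/-! LOCATION of the leader `6 k + 6`: the IN row of the leader, and the row `b + 1`. -/

namespace Pool.Agent.SNT

variable {f : ℕ → ℕ → ℕ → ℕ → Prop}

namespace LocR6

open TipI LocZ LocG

namespace HT

variable {k n b X : ℕ}

/-- THE IN ROW OF THE LEADER. -/
theorem r0 (hf : Rule f) (H : HT f k n b X) (tip : f (6 * k + 6) b (2 * n + 1) (2 * n)) :
    St f (6 * k + 6) b (2 * n) := by
  have h1 := H.hk; have h2 := H.hb2; have h3 := H.h4; have h4 := H.hbk; have h5 := H.hXb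
  have h6 := H.hX
  have e6 : (6 * k + 6) / 6 = k + 1 := by omega
  have e3 : 6 * k + 6 - 1 = 6 * k + 5 := by omega
  refine St_of_half hf ?_
  intro x y hyx hx
  rcases Nat.lt_or_ge (2 * n + 2) x with hx2 | hx2
  · exact H.A0.r0 x y (by omega)
  refine H.mke (by omega) (by omega) (by omega) hyx (by omega) ?_
  intro hn
  have hline : ∀ v : ℕ, v % 2 = 0 → v ≤ 2 * n → 2 * n ≤ v + 2 * k →
      f (6 * k + 6) b (2 * n + 1) v := by
    intro v hv hv1 hv2
    have := H.travel hf tip ((2 * n - v) / 2) (by omega)
    have e : 2 * n - 2 * ((2 * n - v) / 2) = v := by omega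
    rwa [e] at this
  have z0 : ∀ v : ℕ, 2 * n + 1 = v + (2 * k + 2) → ¬ f (6 * k + 6) b (2 * n + 1) v := by
    intro v hv h'
    exact kill hf h' (a' := 6 * k + 6) (b' := b) (x' := 2 * n + 1) (y' := v + 1)
      (by omega) (by omega) (by omega) (by omega) (by omega)
      (hline (v + 1) (by omega) (by omega) (by omega))
  have z1 : ∀ v : ℕ, 2 * n + 1 = v + (2 * k + 3) → ¬ f (6 * k + 6) b (2 * n + 1) v := by
    intro v hv
    exact kill hf ((H.am1 hf (x := 2 * n + 1) (y := v - 1) (by omega) (by omega) (by omega)).2
      (by omega)) (by omega) (by omega) (by omega) (by omega) (by omega)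
  have zm : ∀ v : ℕ, 2 * n + 1 = v + (2 * k + 2) → ¬ f (6 * k + 6) (b - 1) (2 * n + 1) v := by
    intro v hv
    have ho : f (6 * k + 6) (b - 2) (2 * n + 1) (v - 1) := by
      have e : b - 2 = b - 4 + 2 := by omega
      rw [e, H.Am.r2x _ _ (by rw [e6]; omega) (by omega), fst_ext (by omega) (by omega) (by omega)
        (by omega) (by rw [e6]; omega), e6]
      omega
    exact kill hf ho (by omega) (by omega) (by omega) (by omega) (by omega)
  rcases Nat.lt_or_ge x (y + 2 * k + 4) with hd | hd
  swap
  · refine ext_gen hf (D := 2 * k + 3) (by omega) (by omega) (by omega) (by omega) (by omega)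
      (by rw [e6]; omega) (by omega) ?_ ?_
    · intro u v h7 h8 h9 h10
      exact H.am1x hf (by omega) (by omega)
    · intro hc q r s hq hr hs
      rw [e3]
      rw [e6] at hc
      rcases Nat.eq_zero_or_pos q with hq0 | hq0
      · subst hq0
        exact H.pb4 hf (x := x) (y := y) (by omega) (by omega) (by omega) (by omega) hr hs
      · have e : b - q = b - 1 := by omega
        rw [e]
        exact H.pm1 hf (by omega) (by omega) (by omega)
  rcases Nat.lt_or_ge x (y + 2 * k + 2) with hs | hs
  · -- the strip
    rw [Fst_II (by omega) (by omega) h2 (by omega) hyx (by rw [e6]; omega)]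
    rcases Nat.lt_or_ge (2 * n + 1) x with hx1 | hx1
    · refine iff_of_false ?_ (by omega)
      rcases Nat.mod_two_eq_zero_or_one y with hy2 | hy2
      · intro h'
        exact hf.not_allEven h' (by omega)
      · exact kill hf (hline (y - 1) (by omega) (by omega) (by omega)) (by omega) (by omega)
          (by omega) (by omega) (by omega)
    · have ex : x = 2 * n + 1 := by omega
      subst ex
      rcases Nat.mod_two_eq_zero_or_one y with hy2 | hy2
      · exact iff_of_true (hline y hy2 (by omega) (by omega)) (by omega)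
      · refine iff_of_false ?_ (by omega)
        exact kill hf (hline (y - 1) (by omega) (by omega) (by omega)) (by omega) (by omega)
          (by omega) (by omega) (by omega)
  · rw [fst_ext (by omega) (by omega) (by omega) (by omega) (by rw [e6]; omega), e6]
    rcases Nat.lt_or_ge (2 * n + 1) x with hx1 | hx1
    · rcases Nat.mod_two_eq_zero_or_one y with hy2 | hy2
      · refine iff_of_false ?_ (by omega)
        intro h'
        exact hf.not_allEven h' (by omega)
      · -- born
        refine iff_of_true ?_ (by omega)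
        by_contra hno
        obtain ⟨p, q, r, s, hp, hq, hr', hs', hsum, hpa, hqb, hrx, hsy, hone⟩ :=
          hf.exists_pred (by omega) hno
        rcases Nat.eq_zero_or_pos p with hp0 | hp0
        · subst hp0
          rcases Nat.eq_zero_or_pos q with hq0 | hq0
          · subst hq0
            simp only [Nat.sub_zero] at hone
            have hrs : (r = 0 ∧ s = 1) ∨ (r = 1 ∧ s = 0) ∨ (r = 1 ∧ s = 1) := by omega
            rcases hrs with ⟨rfl, rfl⟩ | ⟨rfl, rfl⟩ | ⟨rfl, rfl⟩
            · exact hf.not_allEven hone (by omega)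
            · have e : x - 1 = 2 * n + 1 := by omega
              rw [e] at hone
              exact z0 _ (by omega) hone
            · have e : x - 1 = 2 * n + 1 := by omega
              rw [e] at hone
              exact z1 _ (by omega) hone
          · have hq1 : q = 1 := by omega
            subst hq1
            rw [Nat.sub_zero] at hone
            have hrs : (r = 1 ∧ s = 0) ∨ ¬ (r = 1 ∧ s = 0) := by omega
            rcases hrs with ⟨rfl, rfl⟩ | hrs
            · have e : x - 1 = 2 * n + 1 := by omega
              rw [e] at hone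
              exact zm _ (by omega) hone
            · rw [H.am1 hf (by omega) (by omega) (by omega)] at hone
              omega
        · have hp1 : p = 1 := by omega
          subst hp1
          rw [e3] at hone
          rcases Nat.eq_zero_or_pos q with hq0 | hq0
          · subst hq0
            exact H.pb4 hf (x := x) (y := y) (by omega) (by omega) (by omega) (by omega) hr' hs'
              hone
          · have hq1 : q = 1 := by omega
            subst hq1
            exact H.pm1 hf (x := x - r) (y := y - s) (by omega) (by omega) (by omega) hone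
    · have ex : x = 2 * n + 1 := by omega
      subst ex
      rcases (show 2 * n + 1 = y + (2 * k + 2) ∨ 2 * n + 1 = y + (2 * k + 3) by omega) with
        hc | hc
      · refine iff_of_false (z0 y hc) (by omega)
      · refine iff_of_false (z1 y hc) (by omega)

/-- The ones of the leader in its IN row. -/
theorem aone (H : HT f k n b X) (hr : St f (6 * k + 6) b (2 * n)) {x y : ℕ} (hyx : y < x)
    (hd : x ≤ y + 2 * k + 1) (hx : 2 * n < x) (hx2 : x % 2 = 1) (hy2 : y % 2 = 0) :
    f (6 * k + 6) b x y := by
  have h1 := H.hk; have h2 := H.hb2; have h3 := H.h4; have h4 := H.hbk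
  have e6 : (6 * k + 6) / 6 = k + 1 := by omega
  rw [hr x y (by omega), Fst_II (by omega) (by omega) h2 (by omega) hyx.le (by rw [e6]; omega)]
  exact ⟨hx2, hy2⟩

/-- The ones of the leader in its IN row, exterior. -/
theorem aonex (H : HT f k n b X) (hr : St f (6 * k + 6) b (2 * n)) {x y : ℕ}
    (hd : y + 2 * k + 2 ≤ x) (hx : 2 * n < x) (hn : x + 6 * k + 50 ≤ b + y)
    (hc : (x + y) % 4 = (1 + 2 * k) % 4) : f (6 * k + 6) b x y := by
  have h1 := H.hk; have h2 := H.hb2; have h3 := H.h4; have h4 := H.hbk; have h6 := H.hX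
  have e6 : (6 * k + 6) / 6 = k + 1 := by omega
  rw [hr x y (by omega), fst_ext (by omega) (by omega) (by omega) (by omega)
    (by rw [e6]; omega), e6]
  omega

/-- `6 k + 5` in the row `b`, strip. -/
theorem p0s (hf : Rule f) (H : HT f k n b X) (hr : St f (6 * k + 6) b (2 * n)) {x y : ℕ}
    (hyx : y ≤ x) (hx : 2 * n ≤ x) (hd : x ≤ y + 2 * k + 1) : ¬ f (6 * k + 5) b x y := by
  have h1 := H.hk; have h2 := H.hb2; have h3 := H.h4; have h4 := H.hbk; have h5 := H.hXb
  have h6 := H.hX
  rcases Nat.mod_two_eq_zero_or_one x with hx2 | hx2 <;>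
    rcases Nat.mod_two_eq_zero_or_one y with hy2 | hy2
  · intro h'
    exact kill hf h' (by omega) (by omega) (by omega) (by omega) (by omega)
      (H.aone hr (x := x + 1) (y := y) (by omega) (by omega) (by omega) (by omega) (by omega))
  · intro h'
    exact kill hf h' (by omega) (by omega) (by omega) (by omega) (by omega)
      (H.aone hr (x := x + 1) (y := y + 1) (by omega) (by omega) (by omega) (by omega) (by omega))
  · intro h'
    exact kill hf h' (by omega) (by omega) (by omega) (by omega) (by omega)
      (H.aone hr (x := x) (y := y) (by omega) (by omega) (by omega) (by omega) (by omega))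
  · rcases Nat.lt_or_ge y x with h7 | h7
    · intro h'
      exact kill hf h' (by omega) (by omega) (by omega) (by omega) (by omega)
        (H.aone hr (x := x) (y := y + 1) (by omega) (by omega) (by omega) (by omega) (by omega))
    · refine eoP hf hyx (by omega) ?_
      intro q u v hq hvu hu1 hu2 hv1 hv2
      rcases Nat.eq_zero_or_pos q with hq0 | hq0
      · subst hq0
        exact H.q0l hf hvu (by omega) (by omega)
      · have e : b - q = b - 1 := by omega
        rw [e]
        exact H.q1 hf hvu (by omega) (by omega)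

/-- `6 k + 5` in the row `b`, exterior. -/
theorem p0x (hf : Rule f) (H : HT f k n b X) (hr : St f (6 * k + 6) b (2 * n)) {x y : ℕ}
    (hx : 2 * n < x) (hd : y + 2 * k + 2 ≤ x) (hn : x + 6 * k + 52 ≤ b + y) :
    ¬ f (6 * k + 5) b x y := by
  have h1 := H.hk; have h2 := H.hb2; have h3 := H.h4; have h4 := H.hbk; have h5 := H.hXb
  have h6 := H.hX
  rcases (show (x + y) % 4 = (1 + 2 * k) % 4 ∨ (x + y) % 4 = (2 * k) % 4 ∨
    (x + y) % 4 = (3 + 2 * k) % 4 ∨ (x + y) % 4 = (2 + 2 * k) % 4 by omega) with
    hc | hc | hc | hc
  · exact kill hf (H.b0o (x := x) (y := y) (by omega) (by omega) (by omega) hc)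
      (by omega) (by omega) (by omega) (by omega) (by omega)
  · intro h'
    exact kill hf h' (by omega) (by omega) (by omega) (by omega) (by omega)
      (H.aonex hr (x := x + 1) (y := y) (by omega) (by omega) (by omega) (by omega))
  · intro h'
    exact kill hf h' (by omega) (by omega) (by omega) (by omega) (by omega)
      (H.aonex hr (x := x + 1) (y := y + 1) (by omega) (by omega) (by omega) (by omega))
  · exact kill hf (H.bm1 (x := x) (y := y) (by omega) (by omega) (by omega) hc)
      (by omega) (by omega) (by omega) (by omega) (by omega)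

/-- `6 k + 5` in the row `b`. -/
theorem p0 (hf : Rule f) (H : HT f k n b X) (hr : St f (6 * k + 6) b (2 * n)) {x y : ℕ}
    (hyx : y ≤ x) (hx : 2 * n < x) : f (6 * k + 5) b x y ↔ Fst (6 * k + 5) b x y := by
  have h1 := H.hk; have h2 := H.hb2; have h3 := H.h4; have h4 := H.hbk; have h5 := H.hXb
  have h6 := H.hX
  refine H.mko (by omega) (by omega) (by omega) (by omega) (by omega) (by omega) ?_
  intro hn
  rcases Nat.lt_or_ge x (y + 2 * k + 2) with hd | hd
  · exact H.p0s hf hr hyx (by omega) (by omega)
  · exact H.p0x hf hr hx hd (by omega)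

/-- `6 k + 1` in the row `b`, lines from `2 n` on. -/
theorem w0 (hf : Rule f) (H : HT f k n b X) {x y : ℕ} (hyx : y ≤ x) (hy : 2 * n ≤ y + 1)
    (hn : x + 6 * k + 52 ≤ b + y) : ¬ f (6 * k + 1) b x y := by
  have h1 := H.hk; have h2 := H.hb2; have h3 := H.h4; have h4 := H.hbk; have h5 := H.hXb
  have h6 := H.hX
  have e6 : (6 * k + 2) / 6 = k := by omega
  by_cases hE : b % 2 = 0 ∧ x % 2 = 0 ∧ y % 2 = 0
  swap
  · exact H.we (by omega) (by omega) hE hyx (by omega) (by omega)
  rcases Nat.lt_or_ge (x + 4) (y + 2 * k) with h7 | h7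
  swap
  · exact H.w0a hyx (by omega) (by omega)
  rcases Nat.eq_or_lt_of_le hyx with h8 | h8
  · subst h8
    exact H.w0d hf (by omega)
  have hcov : Sig.Cov f (6 * k + 2) b x y := by
    have := Mid.cov_of hf (a := 6 * k + 2) (b := b - 1) (x := x) (y := y) (by omega) ?_ ?_
    · have e : b - 1 + 1 = b := by omega
      rwa [e] at this
    · intro i s q hi hs hq
      rcases Nat.eq_zero_or_pos q with hq0 | hq0
      · subst hq0
        have e : b - 1 + 1 - 0 = b := by omega
        rw [e]
        exact H.q0l hf (x := x + i) (y := y + s) (by omega) (by omega) (by omega)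
      · have e : b - 1 + 1 - q = b - 1 := by omega
        rw [e]
        exact H.q1 hf (x := x + i) (y := y + s) (by omega) (by omega) (by omega)
    · intro i s hi hs
      have e : b - 1 = b - 4 + 3 := by omega
      rw [e, H.C0.r3s _ _ (by rw [e6]; omega) (by omega),
        Fst_odd (by omega) (by omega) (by omega) (by omega) (by rw [e6]; omega)]
      omega
  exact Sig.zero_below hf (a := 6 * k + 1) (b := b) (p := 1) (q := 0) hcov le_rfl (by omega)
    (by omega)

/-- `6 k + 3` in the row `b + 1`, lines from `2 n` on. -/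
theorem q1n (hf : Rule f) (H : HT f k n b X) {x y : ℕ} (hyx : y ≤ x) (hy : 2 * n ≤ y)
    (hn : x + 6 * k + 54 ≤ b + y) : ¬ f (6 * k + 3) (b + 1) x y := by
  have h1 := H.hk; have h2 := H.hb2; have h4 := H.hbk; have h5 := H.hXb; have h6 := H.hX
  refine eoQ hf hyx (by omega) ?_
  intro q u v hq hvu hu1 hu2 hv1 hv2
  rcases Nat.eq_zero_or_pos q with hq0 | hq0
  · subst hq0
    exact H.we (by omega) (by omega) (by omega) hvu (by omega) (by omega)
  · have e : b + 1 - q = b := by omega
    rw [e]
    exact H.w0 hf hvu (by omega) (by omega)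

/-- `6 k + 3` in the row `b + 1`, exterior. -/
theorem q1x (hf : Rule f) (H : HT f k n b X) {x y : ℕ} (hd : y + 2 * k + 1 ≤ x)
    (hd2 : x = y + 2 * k + 1 → x % 2 = 0) (hx : 2 * n ≤ x)
    (hn : x + 6 * k + 54 ≤ b + y) : ¬ f (6 * k + 3) (b + 1) x y := by
  have h1 := H.hk; have h2 := H.hb2; have h4 := H.hbk; have h5 := H.hXb; have h6 := H.hX
  refine eoQ hf (by omega) (by omega) ?_
  intro q u v hq hvu hu1 hu2 hv1 hv2
  rcases Nat.eq_zero_or_pos q with hq0 | hq0
  · subst hq0
    exact H.we (by omega) (by omega) (by omega) hvu (by omega) (by omega)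
  · have e : b + 1 - q = b := by omega
    rw [e]
    by_cases hE : b % 2 = 0 ∧ u % 2 = 0 ∧ v % 2 = 0
    · exact H.w0x hf (by omega) (by omega) (by omega)
    · exact H.we (by omega) (by omega) hE hvu (by omega) (by omega)

/-- `6 k + 5` in the row `b + 1`, lines from `2 n + 1` on. -/
theorem p1b (hf : Rule f) (H : HT f k n b X) {x y : ℕ} (hyx : y ≤ x) (hy : 2 * n < y)
    (hn : x + 6 * k + 56 ≤ b + y) : ¬ f (6 * k + 5) (b + 1) x y := by
  have h1 := H.hk; have h2 := H.hb2; have h4 := H.hbk; have h5 := H.hXb; have h6 := H.hX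
  refine eoP hf hyx (by omega) ?_
  intro q u v hq hvu hu1 hu2 hv1 hv2
  rcases Nat.eq_zero_or_pos q with hq0 | hq0
  · subst hq0
    exact H.q1n hf hvu (by omega) (by omega)
  · have e : b + 1 - q = b := by omega
    rw [e]
    exact H.q0l hf hvu (by omega) (by omega)

/-- The layer `6 k + 4` in the row `b + 1`, exterior ones. -/
theorem b1o (hf : Rule f) (H : HT f k n b X) {x y : ℕ} (hd : y + 2 * k + 1 ≤ x)
    (hx : 2 * n + 2 < x) (hn : x + 6 * k + 56 ≤ b + y) (hc : (x + y) % 4 = (2 * k) % 4) :
    f (6 * k + 4) (b + 1) x y := by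
  have h1 := H.hk; have h2 := H.hb2; have h3 := H.h4; have h4 := H.hbk; have h5 := H.hXb
  have h6 := H.hX
  have e6 : (6 * k + 4) / 6 = k := by omega
  have h : f (6 * k + 4) (b + 1) x y ↔ Fst (6 * k + 4) (b + 1) x y := by
    refine ext_gen hf (D := 2 * k) (by omega) (by omega) (by omega) (by omega) (by omega)
      (by rw [e6]; omega) (by omega) ?_ ?_
    · intro u v h7 h8 h9 h10
      have e : b + 1 - 1 = b - 2 + 2 := by omega
      rw [e]
      exact H.B0.r2x u v (by rw [e6]; omega) (by omega)
    · intro _ q r s hq hr hs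
      have e3 : 6 * k + 4 - 1 = 6 * k + 3 := by omega
      rw [e3]
      rcases Nat.eq_zero_or_pos q with hq0 | hq0
      · subst hq0
        exact H.q1x hf (x := x - r) (y := y - s) (by omega) (by omega) (by omega) (by omega)
      · have e : b + 1 - q = b := by omega
        rw [e]
        exact H.q0x hf (x := x - r) (y := y - s) (by omega) (by omega) (by omega) (by omega)
  rw [h, fst_ext (by omega) (by omega) (by omega) (by omega) (by rw [e6]; omega), e6]
  omega

/-- The diagonal of the layer `6 k + 4` in the row `b + 1`. -/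
theorem b1d (H : HT f k n b X) {x : ℕ} (hx : 2 * n ≤ x) (hx2 : x % 2 = 1) :
    f (6 * k + 4) (b + 1) x x := by
  have h1 := H.hk; have h2 := H.hb2; have h3 := H.h4; have h4 := H.hbk; have h6 := H.hX
  have e6 : (6 * k + 4) / 6 = k := by omega
  have e : b + 1 = b - 2 + 3 := by omega
  rw [e, H.B0.r3s _ _ (by rw [e6]; omega) (by omega),
    Fst_odd (by omega) (by omega) (by omega) le_rfl (by rw [e6]; omega)]
  omega

/-- `6 k + 5` in the row `b`, near. -/
theorem p0n (hf : Rule f) (H : HT f k n b X) (hr : St f (6 * k + 6) b (2 * n)) {x y : ℕ}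
    (hyx : y ≤ x) (hx : 2 * n < x) (hn : x + 6 * k + 52 ≤ b + y) : ¬ f (6 * k + 5) b x y := by
  rcases Nat.lt_or_ge x (y + 2 * k + 2) with hd | hd
  · exact H.p0s hf hr hyx (by omega) (by omega)
  · exact H.p0x hf hr hx hd (by omega)

/-- `6 k + 5` in the row `b + 1` at the predecessors of an exterior one of `6 k + 6`. -/
theorem pb1 (hf : Rule f) (H : HT f k n b X) {x y r s : ℕ} (hd : y + 2 * k + 2 ≤ x)
    (hx : 2 * n + 2 < x) (hn : x + 6 * k + 60 ≤ b + y) (hc : (x + y) % 4 = (2 * k) % 4)
    (hr : r ≤ 1) (hs : s ≤ 1) : ¬ f (6 * k + 5) (b + 1) (x - r) (y - s) := by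
  have h1 := H.hk; have h2 := H.hb2; have h4 := H.hbk; have h6 := H.hX; have h5 := H.hXb
  rcases Nat.eq_zero_or_pos s with hs0 | hs0
  · rcases Nat.eq_zero_or_pos r with hr0 | hr0
    · exact kill hf (H.b1o hf (x := x) (y := y) (by omega) hx (by omega) hc)
        (by omega) (by omega) (by omega) (by omega) (by omega)
    · exact kill hf (H.b0o (x := x - 2) (y := y - 1) (by omega) (by omega) (by omega) (by omega))
        (by omega) (by omega) (by omega) (by omega) (by omega)
  · exact kill hf (H.b0o (x := x - 1) (y := y - 2) (by omega) (by omega) (by omega) (by omega))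
      (by omega) (by omega) (by omega) (by omega) (by omega)

/-- The row `b + 1` of the leader, exterior. -/
theorem r1x (hf : Rule f) (H : HT f k n b X) (hr : St f (6 * k + 6) b (2 * n)) {x y : ℕ}
    (hd : y + 2 * k + 2 ≤ x) (hx : 2 * n + 2 < x) :
    f (6 * k + 6) (b + 1) x y ↔ Fst (6 * k + 6) (b + 1) x y := by
  have h1 := H.hk; have h2 := H.hb2; have h3 := H.h4; have h4 := H.hbk; have h5 := H.hXb
  have h6 := H.hX
  have e6 : (6 * k + 6) / 6 = k + 1 := by omega
  have e3 : 6 * k + 6 - 1 = 6 * k + 5 := by omega
  refine H.mke (by omega) (by omega) (by omega) (by omega) (by omega) ?_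
  intro hn
  refine ext_gen hf (D := 2 * k + 1) (by omega) (by omega) (by omega) (by omega) (by omega)
    (by rw [e6]; omega) (by omega) ?_ ?_
  · intro u v h10 h11 h12 h13
    have e : b + 1 - 1 = b := by omega
    rw [e]
    exact hr u v (by omega)
  · intro hc q r s hq hr' hs'
    rw [e6] at hc
    rw [e3]
    rcases Nat.eq_zero_or_pos q with hq0 | hq0
    · subst hq0
      exact H.pb1 hf (x := x) (y := y) hd hx (by omega) (by omega) hr' hs'
    · have e : b + 1 - q = b := by omega
      rw [e]
      exact H.p0n hf hr (x := x - r) (y := y - s) (by omega) (by omega) (by omega)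

/-- The row `b + 1` of the leader, strip. -/
theorem r1s (hf : Rule f) (H : HT f k n b X) (hr : St f (6 * k + 6) b (2 * n)) :
    ∀ x y : ℕ, max x y ≤ min x y + 2 * (k + 1) → 2 * n + 1 < max x y →
      (f (6 * k + 6) (b + 1) x y ↔ Fst (6 * k + 6) (b + 1) x y) := by
  have h1 := H.hk; have h2 := H.hb2; have h3 := H.h4; have h4 := H.hbk; have h5 := H.hXb
  have h6 := H.hX
  have e6 : (6 * k + 6) / 6 = k + 1 := by omega
  have e3 : 6 * k + 6 - 1 = 6 * k + 5 := by omega
  intro x y h7 h8
  refine all_of_half hf (P := fun x y => x ≤ y + 2 * (k + 1) ∧ 2 * n + 1 < x) ?_ x y ⟨h7, h8⟩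
  intro x y hyx hP
  obtain ⟨hd, hx⟩ := hP
  have hz : ∀ u v : ℕ, v < u → u ≤ v + 2 * k + 1 → 2 * n + 1 < u →
      ¬ f (6 * k + 6) (b + 1) u v := by
    intro u v h9 h10 h11
    rcases Nat.mod_two_eq_zero_or_one u with hx2 | hx2 <;>
      rcases Nat.mod_two_eq_zero_or_one v with hy2 | hy2
    · exact kill hf (H.aone hr (x := u - 1) (y := v) (by omega) (by omega) (by omega) (by omega)
        (by omega)) (by omega) (by omega) (by omega) (by omega) (by omega)
    · exact kill hf (H.aone hr (x := u - 1) (y := v - 1) (by omega) (by omega) (by omega)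
        (by omega) (by omega)) (by omega) (by omega) (by omega) (by omega) (by omega)
    · exact kill hf (H.aone hr (x := u) (y := v) (by omega) (by omega) (by omega)
        (by omega) (by omega)) (by omega) (by omega) (by omega) (by omega) (by omega)
    · exact kill hf (H.aone hr (x := u) (y := v - 1) (by omega) (by omega) (by omega)
        (by omega) (by omega)) (by omega) (by omega) (by omega) (by omega) (by omega)
  rcases Nat.eq_or_lt_of_le hyx with hdi | hlt
  · subst hdi
    rw [Fst_odd (by omega) (by omega) (by omega) le_rfl (by rw [e6]; omega)]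
    rcases Nat.mod_two_eq_zero_or_one y with hy2 | hy2
    · refine iff_of_true ?_ (by omega)
      by_contra hno
      obtain ⟨p, q, r, s, hp, hq, hr', hs', hsum, hpa, hqb, hrx, hsy, hone⟩ :=
        hf.exists_pred (by omega) hno
      rcases Nat.eq_zero_or_pos p with hp0 | hp0
      · subst hp0
        rw [Nat.sub_zero] at hone
        rcases Nat.eq_zero_or_pos q with hq0 | hq0
        · subst hq0
          rw [Nat.sub_zero] at hone
          have hrs : (r = 0 ∧ s = 1) ∨ (r = 1 ∧ s = 0) ∨ (r = 1 ∧ s = 1) := by omega
          rcases hrs with ⟨rfl, rfl⟩ | ⟨rfl, rfl⟩ | ⟨rfl, rfl⟩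
          · exact hz y (y - 1) (by omega) (by omega) (by omega) hone
          · rw [hf.swap_xy] at hone
            exact hz y (y - 1) (by omega) (by omega) (by omega) hone
          · exact kill hf (H.aone hr (x := y - 1) (y := y - 1 - 1) (by omega) (by omega) (by omega)
              (by omega) (by omega)) (by omega) (by omega) (by omega) (by omega) (by omega) hone
        · have hq1 : q = 1 := by omega
          subst hq1
          have e : b + 1 - 1 = b := by omega
          rw [e, hr _ _ (by omega)] at hone
          rcases Nat.lt_or_ge (y - r) (y - s) with h9 | h9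
          · rw [Fst_swap_xy, Fst_II (by omega) (by omega) h2 (by omega) h9.le
              (by rw [e6]; omega)] at hone
            omega
          · rw [Fst_II (by omega) (by omega) h2 (by omega) h9 (by rw [e6]; omega)] at hone
            omega
      · have hp1 : p = 1 := by omega
        subst hp1
        rw [e3] at hone
        rcases Nat.eq_zero_or_pos q with hq0 | hq0
        · subst hq0
          rw [Nat.sub_zero] at hone
          rcases Nat.lt_or_ge (y - r) (y - s) with h9 | h9
          · rw [hf.swap_xy] at hone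
            exact H.p1b hf (x := y - s) (y := y - r) (by omega) (by omega) (by omega) hone
          · exact H.p1b hf (x := y - r) (y := y - s) (by omega) (by omega) (by omega) hone
        · have hq1 : q = 1 := by omega
          subst hq1
          have e : b + 1 - 1 = b := by omega
          rw [e] at hone
          rcases Nat.lt_or_ge (y - r) (y - s) with h9 | h9
          · rw [hf.swap_xy] at hone
            exact H.p0s hf hr (x := y - s) (y := y - r) (by omega) (by omega) (by omega) hone
          · exact H.p0s hf hr (x := y - r) (y := y - s) (by omega) (by omega) (by omega) hone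
    · refine iff_of_false ?_ (by omega)
      exact kill hf (H.aone hr (x := y) (y := y - 1) (by omega) (by omega) (by omega)
        (by omega) (by omega)) (by omega) (by omega) (by omega) (by omega) (by omega)
  rcases Nat.lt_or_ge x (y + 2 * k + 2) with h9 | h9
  · rw [Fst_odd (by omega) (by omega) (by omega) hyx (by rw [e6]; omega)]
    exact iff_of_false (hz x y hlt (by omega) hx) (by omega)
  have hdd : x = y + 2 * k + 2 := by omega
  rcases Nat.lt_or_ge (2 * n + 2) x with h10 | h10
  · exact H.r1x hf hr (by omega) h10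
  refine H.mke (by omega) (by omega) (by omega) hyx (by omega) ?_
  intro hn
  rw [fst_ext (by omega) (by omega) (by omega) (by omega) (by rw [e6]; omega), e6]
  refine iff_of_false ?_ (by omega)
  exact kill hf (H.aone hr (x := x - 1) (y := y) (by omega) (by omega) (by omega)
    (by omega) (by omega)) (by omega) (by omega) (by omega) (by omega) (by omega)

/-- THE ROW `b + 1` OF THE LEADER. -/
theorem r1 (hf : Rule f) (H : HT f k n b X) (hr : St f (6 * k + 6) b (2 * n)) :
    St f (6 * k + 6) (b + 1) (2 * n + 2) := by
  refine St_of_half hf ?_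
  intro x y hyx hx
  rcases Nat.lt_or_ge x (y + 2 * k + 2) with hd | hd
  · exact H.r1s hf hr x y (by omega) (by omega)
  · exact H.r1x hf hr hd hx

end HT

end LocR6

end Pool.Agent.SNT
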