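import Pool.Agent.SNT.LocR6b

set_option autoImplicit false

/-! LOCATION of the leader `6 k + 6`: the OUT row. -/

namespace Pool.Agent.SNT

variable {f : ℕ → ℕ → ℕ → ℕ → Prop}

namespace LocR6

open TipI LocZ LocG

namespace HT

variable {k n b X : ℕ}

/-- `6 k + 2` in the row `b - 1`, exterior. -/
theorem cm1x (hf : Rule f) (H : HT f k n b X) {x y : ℕ} (hd : y + 2 * k + 1 ≤ x)
    (hx : 2 * n ≤ x + 1) : f (6 * k + 2) (b - 1) x y ↔ Fst (6 * k + 2) (b - 1) x y := by
  have h1 := H.hk; have h2 := H.hb2; have h3 := H.h4; have h4 := H.hbk; have h5 := H.hXb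
  have h6 := H.hX
  have e6 : (6 * k + 2) / 6 = k := by omega
  refine H.mke (by omega) (by omega) (by omega) (by omega) (by omega) ?_
  intro hn
  refine ext_gen hf (D := 2 * k) (by omega) (by omega) (by omega) (by omega) (by omega)
    (by rw [e6]; omega) (by omega) ?_ ?_
  · intro u v h7 h8 h9 h10
    have e : b - 1 - 1 = b - 4 + 2 := by omega
    rw [e]
    exact H.C0.r2x u v (by rw [e6]; omega) (by omega)
  · intro _ q r s hq hr hs
    have e3 : 6 * k + 2 - 1 = 6 * k + 1 := by omega
    rw [e3]
    rcases Nat.eq_zero_or_pos q with hq0 | hq0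
    · subst hq0
      exact H.we (by omega) (by omega) (by omega) (by omega) (by omega) (by omega)
    · have e : b - 1 - q = b - 2 := by omega
      rw [e, H.S0.q0 hf H.hr0 (by omega) (by omega)]
      exact Fst_near_odd (by omega) (by omega)

/-- `6 k + 2` in the row `b`, exterior. -/
theorem c0x (hf : Rule f) (H : HT f k n b X) {x y : ℕ} (hd : y + 2 * k + 2 ≤ x)
    (hx : 2 * n < x) : f (6 * k + 2) b x y ↔ Fst (6 * k + 2) b x y := by
  have h1 := H.hk; have h2 := H.hb2; have h3 := H.h4; have h4 := H.hbk; have h5 := H.hXb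
  have h6 := H.hX
  have e6 : (6 * k + 2) / 6 = k := by omega
  refine H.mke (by omega) (by omega) (by omega) (by omega) (by omega) ?_
  intro hn
  refine ext_gen hf (D := 2 * k + 1) (by omega) (by omega) (by omega) (by omega) (by omega)
    (by rw [e6]; omega) (by omega) ?_ ?_
  · intro u v h7 h8 h9 h10
    exact H.cm1x hf (by omega) (by omega)
  · intro _ q r s hq hr hs
    have e3 : 6 * k + 2 - 1 = 6 * k + 1 := by omega
    rw [e3]
    rcases Nat.eq_zero_or_pos q with hq0 | hq0
    · subst hq0
      by_cases hE : (b - 0) % 2 = 0 ∧ (x - r) % 2 = 0 ∧ (y - s) % 2 = 0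
      · exact H.w0x hf (by omega) (by omega) (by omega)
      · exact H.we (by omega) (by omega) hE (by omega) (by omega) (by omega)
    · exact H.we (by omega) (by omega) (by omega) (by omega) (by omega) (by omega)

/-- `6 k + 2` in the row `b + 1`, exterior ones. -/
theorem c1o (hf : Rule f) (H : HT f k n b X) {x y : ℕ} (hd : y + 2 * k + 3 ≤ x)
    (hx : 2 * n + 2 < x) (hn : x + 6 * k + 56 ≤ b + y) (hc : (x + y) % 4 = (2 + 2 * k) % 4) :
    f (6 * k + 2) (b + 1) x y := by
  have h1 := H.hk; have h2 := H.hb2; have h3 := H.h4; have h4 := H.hbk; have h5 := H.hXb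
  have h6 := H.hX
  have e6 : (6 * k + 2) / 6 = k := by omega
  have h : f (6 * k + 2) (b + 1) x y ↔ Fst (6 * k + 2) (b + 1) x y := by
    refine ext_gen hf (D := 2 * k + 2) (by omega) (by omega) (by omega) (by omega) (by omega)
      (by rw [e6]; omega) (by omega) ?_ ?_
    · intro u v h7 h8 h9 h10
      have e : b + 1 - 1 = b := by omega
      rw [e]
      exact H.c0x hf (by omega) (by omega)
    · intro _ q r s hq hr hs
      have e3 : 6 * k + 2 - 1 = 6 * k + 1 := by omega
      rw [e3]
      rcases Nat.eq_zero_or_pos q with hq0 | hq0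
      · subst hq0
        exact H.we (by omega) (by omega) (by omega) (by omega) (by omega) (by omega)
      · have e : b + 1 - q = b := by omega
        rw [e]
        exact H.w0x hf (by omega) (by omega) (by omega)
  rw [h, fst_ext (by omega) (by omega) (by omega) (by omega) (by rw [e6]; omega), e6]
  omega

/-- `6 k + 1` in the row `b + 2`, exterior, one class. -/
theorem w2e (hf : Rule f) (H : HT f k n b X) {x y : ℕ} (hd : y + 2 * k + 3 ≤ x)
    (hx : 2 * n < x) (hn : x + 6 * k + 56 ≤ b + y) (hc : (x + y) % 4 = (2 * k) % 4) :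
    ¬ f (6 * k + 1) (b + 2) x y := by
  have h1 := H.hk; have h2 := H.hb2; have h3 := H.h4; have h4 := H.hbk; have h5 := H.hXb
  have h6 := H.hX
  have e6 : 6 * k / 6 = k := by omega
  have ho : f (6 * k) (b - 1) (x - 1) (y - 1) := by
    have e : b - 1 = b - 2 + 1 := by omega
    rw [e, H.S0.c1 hf (by omega) (by omega), fst_ext (by omega) (by omega) (by omega) (by omega)
      (by rw [e6]; omega), e6]
    omega
  have := sand_b hf ho (by omega)
  have e1 : b - 1 + 3 = b + 2 := by omega
  have e2 : x - 1 + 1 = x := by omega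
  have e3 : y - 1 + 1 = y := by omega
  rwa [e1, e2, e3] at this

/-- `6 k + 5` in the row `b + 2` at the predecessors of an exterior one of `6 k + 6`. -/
theorem pb2 (hf : Rule f) (H : HT f k n b X) {x y r s : ℕ} (hd : y + 2 * k + 3 ≤ x)
    (hx : 2 * n + 4 < x) (hn : x + 6 * k + 60 ≤ b + y) (hc : (x + y) % 4 = (3 + 2 * k) % 4)
    (hr : r ≤ 1) (hs : s ≤ 1) : ¬ f (6 * k + 5) (b + 2) (x - r) (y - s) := by
  have h1 := H.hk; have h2 := H.hb2; have h4 := H.hbk; have h6 := H.hX; have h5 := H.hXb
  rcases Nat.eq_zero_or_pos r with hr0 | hr0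
  swap
  · exact kill hf (H.b1o hf (x := x - 2) (y := y - 1) (by omega) (by omega) (by omega) (by omega))
      (by omega) (by omega) (by omega) (by omega) (by omega)
  rcases Nat.eq_zero_or_pos s with hs0 | hs0
  swap
  · exact kill hf (H.b1o hf (x := x - 1) (y := y - 2) (by omega) (by omega) (by omega) (by omega))
      (by omega) (by omega) (by omega) (by omega) (by omega)
  subst hr0; subst hs0
  rw [Nat.sub_zero, Nat.sub_zero]
  refine eoP hf (by omega) (by omega) ?_
  intro q u v hq hvu hu1 hu2 hv1 hv2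
  rcases Nat.eq_zero_or_pos q with hq0 | hq0
  swap
  · have e : b + 2 - q = b + 1 := by omega
    rw [e]
    exact H.q1x hf (by omega) (by omega) (by omega) (by omega)
  subst hq0
  rw [Nat.sub_zero]
  rcases Nat.eq_or_lt_of_le hu2 with hux | hux
  · exact kill hf (H.c1o hf (x := x) (y := y - 1) (by omega) (by omega) (by omega) (by omega))
      (by omega) (by omega) (by omega) (by omega) (by omega)
  have eu : u = x - 1 := by omega
  subst eu
  rcases Nat.eq_or_lt_of_le hv2 with hvy | hvy
  · subst hvy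
    rcases Nat.lt_or_ge (v + 2 * k + 3) x with h7 | h7
    · exact kill hf (H.c1o hf (x := x - 1) (y := v) (by omega) (by omega) (by omega) (by omega))
        (by omega) (by omega) (by omega) (by omega) (by omega)
    · have ho := H.c1o hf (x := x - 2) (y := v - 3) (by omega) (by omega) (by omega) (by omega)
      have := sand_y hf ho (by omega)
      have e1 : b + 1 + 1 = b + 2 := by omega
      have e2 : x - 2 + 1 = x - 1 := by omega
      have e3 : v - 3 + 3 = v := by omega
      rwa [e1, e2, e3] at this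
  · have ev : v = y - 1 := by omega
    subst ev
    refine eoQ hf (by omega) (by omega) ?_
    intro q u v hq hvu hu1 hu2 hv1 hv2
    by_cases hE : (b + 2 - q) % 2 = 0 ∧ u % 2 = 0 ∧ v % 2 = 0
    · have e : b + 2 - q = b + 2 := by omega
      rw [e]
      exact H.w2e hf (by omega) (by omega) (by omega) (by omega)
    · exact H.we (by omega) (by omega) hE hvu (by omega) (by omega)

/-- The OUT row of the leader, exterior. -/
theorem r2x (hf : Rule f) (H : HT f k n b X) (hr : St f (6 * k + 6) b (2 * n)) {x y : ℕ}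
    (hd : y + 2 * k + 2 ≤ x) (hx : 2 * n + 4 < x) :
    f (6 * k + 6) (b + 2) x y ↔ Fst (6 * k + 6) (b + 2) x y := by
  have h1 := H.hk; have h2 := H.hb2; have h3 := H.h4; have h4 := H.hbk; have h5 := H.hXb
  have h6 := H.hX
  have e6 : (6 * k + 6) / 6 = k + 1 := by omega
  have e3 : 6 * k + 6 - 1 = 6 * k + 5 := by omega
  refine H.mke (by omega) (by omega) (by omega) (by omega) (by omega) ?_
  intro hn
  rcases Nat.eq_or_lt_of_le hd with h0 | h0
  · refine ext_wall hf (by omega) (by omega) (by omega) (by omega) (by omega)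
      (by rw [e6]; omega) ?_
    intro u v h7 h8 h9
    exact H.r1 hf hr u v (by omega)
  · refine ext_gen hf (D := 2 * k + 2) (by omega) (by omega) (by omega) (by omega) (by omega)
      (by rw [e6]; omega) (by omega) ?_ ?_
    · intro u v h7 h8 h9 h10
      exact H.r1 hf hr u v (by omega)
    · intro hc q r s hq hr' hs
      rw [e6] at hc
      rw [e3]
      rcases Nat.eq_zero_or_pos q with hq0 | hq0
      · subst hq0
        exact H.pb2 hf (x := x) (y := y) (by omega) (by omega) (by omega) (by omega) hr' hs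
      · have e : b + 2 - q = b + 1 := by omega
        rw [e]
        exact kill hf (H.b0o (x := x - 1) (y := y - 1) (by omega) (by omega) (by omega)
          (by omega)) (by omega) (by omega) (by omega) (by omega) (by omega)

/-- Non-exceptional cells of `6 k + 5` in the rows `b + 2`, `b + 3`, far to the right. -/
theorem pfar (hf : Rule f) (H : HT f k n b X) {r x y : ℕ} (hr : r = b + 2 ∨ r = b + 3)
    (hyx : y ≤ x) (hx : 2 * n + 2 * k + 1 < x)
    (hne : ¬ (r % 2 = 0 ∧ x % 2 = 0 ∧ y % 2 = 0)) (hn : x + 6 * k + 60 ≤ b + y) :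
    ¬ f (6 * k + 5) r x y := by
  have h1 := H.hk; have h2 := H.hb2; have h3 := H.h4; have h4 := H.hbk; have h5 := H.hXb
  have h6 := H.hX
  have c0 : ∀ u v : ℕ, v ≤ u → x ≤ u + 1 → u ≤ x → y ≤ v + 1 → v ≤ y →
      ¬ f (6 * k + 3) (b + 2) u v := by
    intro u v h7 h8 h9 h10 h11
    rw [H.S1.p0 hf H.hr1 h7 (by omega)]
    exact Fst_near_odd (by omega) (by omega)
  have c1 : ∀ u v : ℕ, v ≤ u → x ≤ u + 1 → u ≤ x → y ≤ v + 1 → v ≤ y →
      ¬ f (6 * k + 3) (b + 3) u v := by
    intro u v h7 h8 h9 h10 h11
    have e : b + 3 = b + 2 + 1 := by omega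
    rw [e, H.S1.p1 hf H.hr1 h7 (by omega)]
    exact Fst_near_odd (by omega) (by omega)
  have cm : ∀ u v : ℕ, v ≤ u → x ≤ u + 1 → u ≤ x → y ≤ v + 1 → v ≤ y →
      ¬ f (6 * k + 3) (b + 1) u v := by
    intro u v h7 h8 h9 h10 h11
    have e : b + 1 = b + 2 - 1 := by omega
    rw [e, H.S1.pm1 hf h7 (by omega)]
    exact Fst_near_odd (by omega) (by omega)
  refine eoP hf hyx hne ?_
  intro q u v hq hvu hu1 hu2 hv1 hv2
  rcases (show r - q = b + 1 ∨ r - q = b + 2 ∨ r - q = b + 3 by omega) with e | e | e
  · rw [e]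
    exact cm u v hvu hu1 hu2 hv1 hv2
  · rw [e]
    exact c0 u v hvu hu1 hu2 hv1 hv2
  · rw [e]
    exact c1 u v hvu hu1 hu2 hv1 hv2

/-- Exceptional cells of `6 k + 5` in the row `b + 2`, exterior. -/
theorem p2e (hf : Rule f) (H : HT f k n b X) {x y : ℕ} (hd : y + 2 * k + 1 ≤ x)
    (hx : 2 * n + 3 < x) (hx2 : x % 2 = 0) (hy2 : y % 2 = 0) (hn : x + 6 * k + 60 ≤ b + y) :
    ¬ f (6 * k + 5) (b + 2) x y := by
  have h1 := H.hk; have h2 := H.hb2; have h4 := H.hbk; have h6 := H.hX; have h5 := H.hXb
  rcases (show (x + y) % 4 = (2 + 2 * k) % 4 ∨ (x + y) % 4 = (2 * k) % 4 by omega) with hc | hc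
  · exact kill hf (H.b1o hf (x := x - 1) (y := y - 1) (by omega) (by omega) (by omega) (by omega))
      (by omega) (by omega) (by omega) (by omega) (by omega)
  · exact kill hf (H.b1o hf (x := x) (y := y) (by omega) (by omega) (by omega) (by omega))
      (by omega) (by omega) (by omega) (by omega) (by omega)

/-- The row `b + 1` of the leader, in the strip. -/
theorem a1z (hf : Rule f) (H : HT f k n b X) (hr : St f (6 * k + 6) b (2 * n)) {x y : ℕ}
    (hyx : y ≤ x) (hd : x ≤ y + 2 * k + 1) (hx : 2 * n + 1 < x) (hne : x = y → x % 2 = 1) :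
    ¬ f (6 * k + 6) (b + 1) x y := by
  have h1 := H.hk; have h2 := H.hb2; have h3 := H.h4; have h4 := H.hbk; have h6 := H.hX
  have e6 : (6 * k + 6) / 6 = k + 1 := by omega
  rw [H.r1s hf hr x y (by omega) (by omega),
    Fst_odd (by omega) (by omega) (by omega) hyx (by rw [e6]; omega)]
  omega

/-- The diagonal ones of the leader in the row `b + 1`. -/
theorem a1d (hf : Rule f) (H : HT f k n b X) (hr : St f (6 * k + 6) b (2 * n)) {x : ℕ}
    (hx : 2 * n + 1 < x) (hx2 : x % 2 = 0) : f (6 * k + 6) (b + 1) x x := by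
  have h1 := H.hk; have h2 := H.hb2; have h3 := H.h4; have h4 := H.hbk; have h6 := H.hX
  have e6 : (6 * k + 6) / 6 = k + 1 := by omega
  rw [H.r1s hf hr x x (by omega) (by omega),
    Fst_odd (by omega) (by omega) (by omega) le_rfl (by rw [e6]; omega)]
  omega

/-- The ones of `6 k + 8` in its IN row `b + 2`. -/
theorem done (H : HT f k n b X) {x y : ℕ} (hyx : y < x) (hd : x ≤ y + 2 * k + 1)
    (hx : 2 * n + 6 < x) (hx9 : x + 1 ≤ y + 2 * k ∨ 2 * n + 8 < x) (hx2 : x % 2 = 1)
    (hy2 : y % 2 = 0) : f (6 * k + 8) (b + 2) x y := by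
  have h1 := H.hk; have h2 := H.hb2; have h3 := H.h4; have h4 := H.hbk
  have e6 : (6 * k + 8) / 6 = k + 1 := by omega
  rw [H.u0 x y hyx.le (by omega) (by omega), Fst_II (by omega) (by omega) (by omega) (by omega)
    hyx.le (by rw [e6]; omega)]
  exact ⟨hx2, hy2⟩

/-- The ones of `6 k + 10` in its OUT row `b + 2`. -/
theorem tone (H : HT f k n b X) {x y : ℕ} (hyx : y < x) (hd : x ≤ y + 2 * k + 1)
    (hy : 2 * n + 8 ≤ y + 2 * k) (hx2 : x % 2 = 0) (hy2 : y % 2 = 1) :
    f (6 * k + 10) (b + 2) x y := by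
  have h1 := H.hk; have h2 := H.hb2; have h3 := H.h4; have h4 := H.hbk
  have e6 : (6 * k + 10) / 6 = k + 1 := by omega
  rw [H.v2 x y hyx.le (by omega) hy, Fst_I (by omega) (by omega) (by omega) (by omega) hyx.le
    (by rw [e6]; omega)]
  exact ⟨hx2, hy2⟩

/-- `6 k + 9` in the rows `b + 1`, `b + 2`. -/
theorem t9 (hf : Rule f) (H : HT f k n b X) {q x y : ℕ} (hq : q ≤ 1) (hyx : y < x)
    (hd : x ≤ y + 2 * k) (hy : 2 * n + 8 ≤ y + 2 * k) : ¬ f (6 * k + 9) (b + 2 - q) x y := by
  intro h
  rcases Nat.mod_two_eq_zero_or_one x with hx2 | hx2 <;>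
    rcases Nat.mod_two_eq_zero_or_one y with hy2 | hy2
  · exact kill hf h (by omega) (by omega) (by omega) (by omega) (by omega)
      (H.tone (x := x) (y := y + 1) (by omega) (by omega) (by omega) (by omega) (by omega))
  · exact kill hf h (by omega) (by omega) (by omega) (by omega) (by omega)
      (H.tone (x := x) (y := y) (by omega) (by omega) (by omega) (by omega) (by omega))
  · exact kill hf h (by omega) (by omega) (by omega) (by omega) (by omega)
      (H.tone (x := x + 1) (y := y + 1) (by omega) (by omega) (by omega) (by omega) (by omega))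
  · exact kill hf h (by omega) (by omega) (by omega) (by omega) (by omega)
      (H.tone (x := x + 1) (y := y) (by omega) (by omega) (by omega) (by omega) (by omega))

/-- `6 k + 8` in the row `b + 1`. -/
theorem d1z (H : HT f k n b X) {x y : ℕ} (hyx : y ≤ x) (hd : x ≤ y + 2 * k + 1)
    (hy : 2 * n + 6 ≤ y + 2 * k) (hne : x = y → x % 2 = 0) : ¬ f (6 * k + 8) (b + 1) x y := by
  have h1 := H.hk; have h2 := H.hb2; have h3 := H.h4; have h4 := H.hbk
  have e6 : (6 * k + 8) / 6 = k + 1 := by omega
  rw [H.um3 x y hyx (by omega) hy, Fst_odd (by omega) (by omega) (by omega) hyx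
    (by rw [e6]; omega)]
  omega

/-- The odd layer above the leader in the row `b + 1`. -/
theorem u1 (hf : Rule f) (H : HT f k n b X) (hr : St f (6 * k + 6) b (2 * n)) {x y : ℕ}
    (hyx : y + 2 ≤ x) (hd : x ≤ y + 2 * k + 1) (hx : 2 * n + 1 < x) (hy : 2 ≤ y) :
    ¬ f (6 * k + 7) (b + 1) x y := by
  rcases Nat.mod_two_eq_zero_or_one x with hx2 | hx2 <;>
    rcases Nat.mod_two_eq_zero_or_one y with hy2 | hy2
  · exact kill hf (H.aone hr (x := x - 1) (y := y) (by omega) (by omega) (by omega) (by omega)
      (by omega)) (by omega) (by omega) (by omega) (by omega) (by omega)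
  · exact kill hf (H.aone hr (x := x - 1) (y := y - 1) (by omega) (by omega) (by omega) (by omega)
      (by omega)) (by omega) (by omega) (by omega) (by omega) (by omega)
  · exact kill hf (H.aone hr (x := x) (y := y) (by omega) (by omega) (by omega) (by omega)
      (by omega)) (by omega) (by omega) (by omega) (by omega) (by omega)
  · exact kill hf (H.aone hr (x := x) (y := y - 1) (by omega) (by omega) (by omega) (by omega)
      (by omega)) (by omega) (by omega) (by omega) (by omega) (by omega)

/-- The odd layer above the leader in the row `b + 2`. -/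
theorem u2 (hf : Rule f) (H : HT f k n b X) {x y : ℕ}
    (hyx : y + 2 ≤ x) (hd : x ≤ y + 2 * k + 1) (hy : 2 * n + 8 ≤ y + 2 * k)
    (hd2 : y + 2 * k ≤ x → 2 * n + 7 < x) : ¬ f (6 * k + 7) (b + 2) x y := by
  rcases Nat.lt_or_ge x (y + 2 * k) with h7 | h7
  · have hcov : Sig.Cov f (6 * k + 8) (b + 2) x y := by
      have := Mid.cov_of hf (a := 6 * k + 8) (b := b + 1) (x := x) (y := y) (by omega) ?_ ?_
      · exact this
      · intro i s q hi hs hq
        have e : b + 1 + 1 - q = b + 2 - q := by omega
        rw [e]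
        exact H.t9 hf hq (by omega) (by omega) (by omega)
      · intro i s hi hs
        exact H.d1z (by omega) (by omega) (by omega) (by omega)
    exact Sig.zero_below hf (a := 6 * k + 7) (b := b + 2) (p := 1) (q := 0) hcov le_rfl (by omega)
      (by omega)
  · have h8 := hd2 h7
    intro h
    rcases Nat.mod_two_eq_zero_or_one x with hx2 | hx2 <;>
      rcases Nat.mod_two_eq_zero_or_one y with hy2 | hy2
    · exact kill hf h (by omega) (by omega) (by omega) (by omega) (by omega)
        (H.done (x := x + 1) (y := y) (by omega) (by omega) (by omega) (by omega) (by omega)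
          (by omega))
    · exact kill hf h (by omega) (by omega) (by omega) (by omega) (by omega)
        (H.done (x := x + 1) (y := y + 1) (by omega) (by omega) (by omega) (by omega) (by omega)
          (by omega))
    · exact kill hf h (by omega) (by omega) (by omega) (by omega) (by omega)
        (H.done (x := x) (y := y) (by omega) (by omega) (by omega) (by omega) (by omega)
          (by omega))
    · exact kill hf h (by omega) (by omega) (by omega) (by omega) (by omega)
        (H.done (x := x) (y := y + 1) (by omega) (by omega) (by omega) (by omega) (by omega)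
          (by omega))

/-- The OUT row of the leader, known part. -/
theorem a2 (H : HT f k n b X) {x y : ℕ} (hyx : y ≤ x) (hd : x ≤ y + 2 * k + 1)
    (hy : 2 * n + 3 < y) : f (6 * k + 6) (b + 2) x y ↔ (x % 2 = 0 ∧ y % 2 = 1) := by
  have h1 := H.hk; have h2 := H.hb2; have h3 := H.h4; have h4 := H.hbk; have h6 := H.hX
  have e6 : (6 * k + 6) / 6 = k + 1 := by omega
  rw [H.A0.r2s x y (by rw [e6]; omega) (by omega), Fst_I (by omega) (by omega) (by omega)
    (by omega) hyx (by rw [e6]; omega)]

end HT

end LocR6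

end Pool.Agent.SNT
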