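import Pool.Agent.SNT.LocR6c

set_option autoImplicit false

/-! LOCATION of the leader `6 k + 6`: the odd layer `6 k + 5` in the row `b + 2`, and the cycle. -/

namespace Pool.Agent.SNT

variable {f : ℕ → ℕ → ℕ → ℕ → Prop}

namespace LocR6

open TipI LocZ LocG

namespace HT

variable {k n b X : ℕ}

/-- The cell `(2 n + 5, 2 n + 3)`. -/
theorem p53 (hf : Rule f) (H : HT f k n b X) (hr : St f (6 * k + 6) b (2 * n)) :
    ¬ f (6 * k + 5) (b + 2) (2 * n + 5) (2 * n + 3) := by
  have h1 := H.hk; have h2 := H.hb2; have h3 := H.h4; have h4 := H.hbk; have h5 := H.hXb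
  have h6 := H.hX
  intro h
  have hD := H.done (x := 2 * n + 7) (y := 2 * n + 4) (by omega) (by omega) (by omega) (by omega)
    (by omega) (by omega)
  have hz : ¬ f (6 * k + 7) (b + 2) (2 * n + 6) (2 * n + 4) := by
    intro h'
    exact kill hf h' (by omega) (by omega) (by omega) (by omega) (by omega) hD
  have h5' : f (6 * k + 7) (b + 2) (2 * n + 5) (2 * n + 3) := by
    by_contra hno
    obtain ⟨p, q, r, s, hp, hq, hr', hs, hsum, hpa, hqb, hrx, hsy, hone⟩ :=
      hf.exists_pred (by omega) hz
    rcases Nat.eq_zero_or_pos p with hp0 | hp0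
    · subst hp0
      rw [Nat.sub_zero] at hone
      rcases Nat.eq_zero_or_pos q with hq0 | hq0
      · subst hq0
        rw [Nat.sub_zero] at hone
        have hrs : (r = 0 ∧ s = 1) ∨ (r = 1 ∧ s = 0) ∨ (r = 1 ∧ s = 1) := by omega
        rcases hrs with ⟨rfl, rfl⟩ | ⟨rfl, rfl⟩ | ⟨rfl, rfl⟩
        · exact kill hf hone (by omega) (by omega) (by omega) (by omega) (by omega) hD
        · exact kill hf (H.a1d hf hr (x := 2 * n + 4) (by omega) (by omega)) (by omega) (by omega)
            (by omega) (by omega) (by omega) hone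
        · exact hno hone
      · have e : b + 2 - q = b + 1 := by omega
        rw [e] at hone
        rcases Nat.eq_zero_or_pos s with hs0 | hs0
        · exact kill hf (H.aone hr (x := 2 * n + 5) (y := 2 * n + 4) (by omega) (by omega)
            (by omega) (by omega) (by omega)) (by omega) (by omega) (by omega) (by omega)
            (by omega) hone
        · exact kill hf (H.aone hr (x := 2 * n + 5) (y := 2 * n + 2) (by omega) (by omega)
            (by omega) (by omega) (by omega)) (by omega) (by omega) (by omega) (by omega)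
            (by omega) hone
    · have hp1 : p = 1 := by omega
      subst hp1
      have e5 : 6 * k + 7 - 1 = 6 * k + 6 := by omega
      rw [e5] at hone
      rcases Nat.eq_zero_or_pos q with hq0 | hq0
      · subst hq0
        rw [Nat.sub_zero] at hone
        rcases Nat.eq_zero_or_pos s with hs0 | hs0
        · subst hs0
          rcases Nat.eq_zero_or_pos r with hr0 | hr0
          · subst hr0
            exact hf.not_allEven hone (by omega)
          · rw [H.a2 (by omega) (by omega) (by omega)] at hone
            omega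
        · exact kill hf h (by omega) (by omega) (by omega) (by omega) (by omega) hone
      · have e : b + 2 - q = b + 1 := by omega
        rw [e] at hone
        exact H.a1z hf hr (by omega) (by omega) (by omega) (by omega) hone
  have hz2 : ¬ f (6 * k + 7) (b + 2) (2 * n + 4) (2 * n + 3) := by
    intro h'
    exact kill hf h' (by omega) (by omega) (by omega) (by omega) (by omega) h5'
  obtain ⟨p, q, r, s, hp, hq, hr', hs, hsum, hpa, hqb, hrx, hsy, hone⟩ :=
    hf.exists_pred (by omega) hz2
  have hdg := H.a1d hf hr (x := 2 * n + 2) (by omega) (by omega)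
  rcases Nat.eq_zero_or_pos p with hp0 | hp0
  · subst hp0
    rw [Nat.sub_zero] at hone
    rcases Nat.eq_zero_or_pos q with hq0 | hq0
    · subst hq0
      rw [Nat.sub_zero] at hone
      rcases Nat.eq_zero_or_pos r with hr0 | hr0
      · exact kill hf hone (by omega) (by omega) (by omega) (by omega) (by omega) h5'
      · exact kill hf hdg (by omega) (by omega) (by omega) (by omega) (by omega) hone
    · have e : b + 2 - q = b + 1 := by omega
      rw [e] at hone
      exact kill hf (H.aone hr (x := 2 * n + 3) (y := 2 * n + 2) (by omega) (by omega)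
        (by omega) (by omega) (by omega)) (by omega) (by omega) (by omega) (by omega)
        (by omega) hone
  · have hp1 : p = 1 := by omega
    subst hp1
    have e5 : 6 * k + 7 - 1 = 6 * k + 6 := by omega
    rw [e5] at hone
    rcases Nat.eq_zero_or_pos q with hq0 | hq0
    · subst hq0
      rw [Nat.sub_zero] at hone
      rcases Nat.eq_zero_or_pos r with hr0 | hr0
      · subst hr0
        rcases Nat.eq_zero_or_pos s with hs0 | hs0
        · exact kill hf hone (by omega) (by omega) (by omega) (by omega) (by omega) h5'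
        · exact hf.not_allEven hone (by omega)
      · exact kill hf hdg (by omega) (by omega) (by omega) (by omega) (by omega) hone
    · have e : b + 2 - q = b + 1 := by omega
      rw [e] at hone
      exact H.a1z hf hr (by omega) (by omega) (by omega) (by omega) hone

/-- The cell `(2 n + 3, 2 n + 2)`. -/
theorem p32 (hf : Rule f) (H : HT f k n b X) (hr : St f (6 * k + 6) b (2 * n)) :
    ¬ f (6 * k + 5) (b + 2) (2 * n + 3) (2 * n + 2) := by
  have h1 := H.hk; have h2 := H.hb2; have h3 := H.h4; have h4 := H.hbk; have h5 := H.hXb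
  have h6 := H.hX
  have e6 : (6 * k + 8) / 6 = k + 1 := by omega
  intro h
  have hdg := H.a1d hf hr (x := 2 * n + 2) (by omega) (by omega)
  have h7 : f (6 * k + 7) (b + 2) (2 * n + 4) (2 * n + 3) := by
    by_contra hno
    obtain ⟨p, q, r, s, hp, hq, hr', hs, hsum, hpa, hqb, hrx, hsy, hone⟩ :=
      hf.exists_pred (by omega) hno
    rcases Nat.eq_zero_or_pos p with hp0 | hp0
    · subst hp0
      rw [Nat.sub_zero] at hone
      rcases Nat.eq_zero_or_pos q with hq0 | hq0
      · subst hq0
        rw [Nat.sub_zero] at hone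
        rcases Nat.eq_zero_or_pos r with hr0 | hr0
        · subst hr0
          exact H.u2 hf (by omega) (by omega) (by omega) (by omega) hone
        · exact kill hf hdg (by omega) (by omega) (by omega) (by omega) (by omega) hone
      · have e : b + 2 - q = b + 1 := by omega
        rw [e] at hone
        exact kill hf (H.aone hr (x := 2 * n + 3) (y := 2 * n + 2) (by omega) (by omega)
          (by omega) (by omega) (by omega)) (by omega) (by omega) (by omega) (by omega)
          (by omega) hone
    · have hp1 : p = 1 := by omega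
      subst hp1
      have e5 : 6 * k + 7 - 1 = 6 * k + 6 := by omega
      rw [e5] at hone
      rcases Nat.eq_zero_or_pos q with hq0 | hq0
      · subst hq0
        rw [Nat.sub_zero] at hone
        have hrs : (r = 0 ∧ s = 1) ∨ ¬ (r = 0 ∧ s = 1) := by omega
        rcases hrs with ⟨rfl, rfl⟩ | hrs
        · exact hf.not_allEven hone (by omega)
        · exact kill hf h (by omega) (by omega) (by omega) (by omega) (by omega) hone
      · have e : b + 2 - q = b + 1 := by omega
        rw [e] at hone
        exact H.a1z hf hr (by omega) (by omega) (by omega) (by omega) hone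
  have h8 : f (6 * k + 8) (b + 1) (2 * n + 3) (2 * n + 3) := by
    rw [H.um3 _ _ le_rfl (by omega) (by omega), Fst_odd (by omega) (by omega) (by omega) le_rfl
      (by rw [e6]; omega)]
    omega
  have h9 : f (6 * k + 9) (b + 2) (2 * n + 5) (2 * n + 4) := by
    by_contra hno
    obtain ⟨p, q, r, s, hp, hq, hr', hs, hsum, hpa, hqb, hrx, hsy, hone⟩ :=
      hf.exists_pred (by omega) hno
    rcases Nat.eq_zero_or_pos p with hp0 | hp0
    · subst hp0
      rw [Nat.sub_zero] at hone
      have hrs : (r = 1 ∧ s = 0) ∨ ¬ (r = 1 ∧ s = 0) := by omega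
      rcases hrs with ⟨rfl, rfl⟩ | hrs
      · exact kill hf h8 (by omega) (by omega) (by omega) (by omega) (by omega) hone
      · exact H.t9 hf hq (by omega) (by omega) (by omega) hone
    · have hp1 : p = 1 := by omega
      subst hp1
      have e5 : 6 * k + 9 - 1 = 6 * k + 8 := by omega
      rw [e5] at hone
      rcases Nat.eq_zero_or_pos q with hq0 | hq0
      · subst hq0
        rw [Nat.sub_zero] at hone
        have hrs : (r = 1 ∧ s = 0) ∨ ¬ (r = 1 ∧ s = 0) := by omega
        rcases hrs with ⟨rfl, rfl⟩ | hrs
        · exact hf.not_allEven hone (by omega)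
        · exact kill hf h7 (by omega) (by omega) (by omega) (by omega) (by omega) hone
      · have e : b + 2 - q = b + 1 := by omega
        rw [e] at hone
        exact H.d1z (by omega) (by omega) (by omega) (by omega) hone
  exact kill hf h9 (by omega) (by omega) (by omega) (by omega) (by omega)
    (H.tone (x := 2 * n + 6) (y := 2 * n + 5) (by omega) (by omega) (by omega) (by omega)
      (by omega))

/-- `6 k + 5` in the row `b + 2`, lines from `2 n + 2` on. -/
theorem p2b (hf : Rule f) (H : HT f k n b X) (hr : St f (6 * k + 6) b (2 * n)) {x y : ℕ}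
    (hyx : y ≤ x) (hy : 2 * n + 1 < y) :
    f (6 * k + 5) (b + 2) x y ↔ Fst (6 * k + 5) (b + 2) x y := by
  have h1 := H.hk; have h2 := H.hb2; have h3 := H.h4; have h4 := H.hbk; have h5 := H.hXb
  have h6 := H.hX
  refine H.mko (by omega) (by omega) (by omega) (by omega) (by omega) (by omega) ?_
  intro hn
  rcases Nat.lt_or_ge x (y + 2 * k + 1) with hd | hd
  swap
  · by_cases hE : (b + 2) % 2 = 0 ∧ x % 2 = 0 ∧ y % 2 = 0
    · exact H.p2e hf hd (by omega) (by omega) (by omega) (by omega)
    · exact H.pfar hf (Or.inl rfl) hyx (by omega) hE (by omega)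
  rcases Nat.eq_or_lt_of_le hyx with h0 | h0
  · -- the diagonal
    subst h0
    rcases Nat.mod_two_eq_zero_or_one y with hy2 | hy2
    · exact kill hf (H.b1d (x := y - 1) (by omega) (by omega)) (by omega) (by omega) (by omega)
        (by omega) (by omega)
    · exact kill hf (H.b1d (x := y) (by omega) (by omega)) (by omega) (by omega) (by omega)
        (by omega) (by omega)
  rcases Nat.lt_or_ge (2 * n + 3) y with hy3 | hy3
  · intro h
    rcases Nat.mod_two_eq_zero_or_one x with hx2 | hx2 <;>
      rcases Nat.mod_two_eq_zero_or_one y with hy2 | hy2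
    · exact kill hf h (by omega) (by omega) (by omega) (by omega) (by omega)
        ((H.a2 (x := x) (y := y + 1) (by omega) (by omega) (by omega)).2 (by omega))
    · exact kill hf h (by omega) (by omega) (by omega) (by omega) (by omega)
        ((H.a2 (x := x) (y := y) (by omega) (by omega) (by omega)).2 (by omega))
    · exact kill hf h (by omega) (by omega) (by omega) (by omega) (by omega)
        ((H.a2 (x := x + 1) (y := y + 1) (by omega) (by omega) (by omega)).2 (by omega))
    · exact kill hf h (by omega) (by omega) (by omega) (by omega) (by omega)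
        ((H.a2 (x := x + 1) (y := y) (by omega) (by omega) (by omega)).2 (by omega))
  rcases Nat.lt_or_ge x (y + 3) with hd3 | hd3
  · have hc : (x = 2 * n + 3 ∧ y = 2 * n + 2) ∨ (x = 2 * n + 4 ∧ y = 2 * n + 2) ∨
        (x = 2 * n + 4 ∧ y = 2 * n + 3) ∨ (x = 2 * n + 5 ∧ y = 2 * n + 3) := by omega
    rcases hc with ⟨rfl, rfl⟩ | ⟨rfl, rfl⟩ | ⟨rfl, rfl⟩ | ⟨rfl, rfl⟩
    · exact H.p32 hf hr
    · have := sand_x hf (H.b1d (x := 2 * n + 1) (by omega) (by omega)) (by omega)
      exact this
    · exact kill hf (H.b1d (x := 2 * n + 3) (by omega) (by omega)) (by omega) (by omega)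
        (by omega) (by omega) (by omega)
    · exact H.p53 hf hr
  · have hcov : Sig.Cov f (6 * k + 6) (b + 2) x y := by
      have := Mid.cov_of hf (a := 6 * k + 6) (b := b + 1) (x := x) (y := y) (by omega) ?_ ?_
      · exact this
      · intro i s q hi hs hq
        rcases Nat.eq_zero_or_pos q with hq0 | hq0
        · subst hq0
          have e : b + 1 + 1 - 0 = b + 2 := by omega
          rw [e]
          exact H.u2 hf (by omega) (by omega) (by omega) (by omega)
        · have e : b + 1 + 1 - q = b + 1 := by omega
          rw [e]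
          exact H.u1 hf hr (by omega) (by omega) (by omega) (by omega)
      · intro i s hi hs
        exact H.a1z hf hr (by omega) (by omega) (by omega) (by omega)
    exact Sig.zero_below hf (a := 6 * k + 5) (b := b + 2) (p := 1) (q := 0) hcov le_rfl (by omega)
      (by omega)

/-- `6 k + 5` in the row `b + 2`, near. -/
theorem p2n (hf : Rule f) (H : HT f k n b X) (hr : St f (6 * k + 6) b (2 * n)) {x y : ℕ}
    (hyx : y ≤ x) (hy : 2 * n + 1 < y) (hn : x + 6 * k + 60 ≤ b + y) :
    ¬ f (6 * k + 5) (b + 2) x y := by
  rw [H.p2b hf hr hyx hy]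
  exact Fst_near_odd (by omega) (by omega)

/-- `6 k + 5` in the row `b + 2`, far to the right. -/
theorem p2c (hf : Rule f) (H : HT f k n b X) (hr : St f (6 * k + 6) b (2 * n)) {x y : ℕ}
    (hyx : y ≤ x) (hx : 2 * n + 2 * k + 1 < x) :
    f (6 * k + 5) (b + 2) x y ↔ Fst (6 * k + 5) (b + 2) x y := by
  have h1 := H.hk; have h2 := H.hb2; have h3 := H.h4; have h4 := H.hbk; have h5 := H.hXb
  have h6 := H.hX
  rcases Nat.lt_or_ge (2 * n + 1) y with hy | hy
  · exact H.p2b hf hr hyx hy
  · refine H.mko (by omega) (by omega) (by omega) (by omega) (by omega) (by omega) ?_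
    intro hn
    by_cases hE : (b + 2) % 2 = 0 ∧ x % 2 = 0 ∧ y % 2 = 0
    · exact H.p2e hf (by omega) (by omega) (by omega) (by omega) (by omega)
    · exact H.pfar hf (Or.inl rfl) hyx (by omega) hE (by omega)

/-- `6 k + 5` in the row `b + 3`, far to the right. -/
theorem p3b (hf : Rule f) (H : HT f k n b X) {x y : ℕ}
    (hyx : y ≤ x) (hx : 2 * n + 2 * k + 1 < x) :
    f (6 * k + 5) (b + 3) x y ↔ Fst (6 * k + 5) (b + 3) x y := by
  have h1 := H.hk; have h2 := H.hb2; have h3 := H.h4; have h4 := H.hbk; have h5 := H.hXb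
  have h6 := H.hX
  refine H.mko (by omega) (by omega) (by omega) (by omega) (by omega) (by omega) ?_
  intro hn
  exact H.pfar hf (Or.inr rfl) hyx (by omega) (by omega) hn

theorem star (hf : Rule f) (H : HT f k n b X) (hr : St f (6 * k + 6) b (2 * n)) {x : ℕ}
    (hx2 : x % 2 = 1) (hx : 2 * n + 5 ≤ x) (hd : x ≤ 2 * n + 2 + 2 * k + 1) :
    ¬ f (6 * k + 6) (b + 2) x (2 * n + 2) := by
  have h1 := H.hk; have h2 := H.hb2; have h3 := H.h4; have h4 := H.hbk; have h5 := H.hXb
  have h6 := H.hX
  intro hY
  have hz : f (6 * k + 7) (b + 2) (x + 1) (2 * n + 4) := by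
    by_contra hno
    obtain ⟨p, q, r, s, hp, hq, hr', hs, hsum, hpa, hqb, hrx, hsy, hone⟩ :=
      hf.exists_pred (by omega) hno
    rcases Nat.eq_zero_or_pos p with hp0 | hp0
    · subst hp0
      rw [Nat.sub_zero] at hone
      rcases Nat.eq_zero_or_pos q with hq0 | hq0
      · subst hq0
        rw [Nat.sub_zero] at hone
        refine eonly hf (A := 6 * k + 6) (by omega) (by omega) ?_ hone
        intro q' r' s' hq' hr' hs'
        have e3 : 6 * k + 6 - 1 = 6 * k + 5 := by omega
        rw [e3]
        rcases Nat.eq_zero_or_pos q' with h7 | h7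
        · subst h7
          exact H.p2n hf hr (by omega) (by omega) (by omega)
        · have h8 : b + 2 - q' = b + 1 := by omega
          rw [h8]
          exact H.p1b hf (by omega) (by omega) (by omega)
      · have hq1 : b + 2 - q = b + 1 := by omega
        rw [hq1] at hone
        refine eonly hf (A := 6 * k + 6) (by omega) (by omega) ?_ hone
        intro q' r' s' hq' hr' hs'
        have e3 : 6 * k + 6 - 1 = 6 * k + 5 := by omega
        rw [e3]
        rcases Nat.eq_zero_or_pos q' with h7 | h7
        · subst h7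
          exact H.p1b hf (by omega) (by omega) (by omega)
        · have h8 : b + 1 - q' = b := by omega
          rw [h8]
          exact H.p0n hf hr (by omega) (by omega) (by omega)
    · have hp1 : p = 1 := by omega
      subst hp1
      have e5 : 6 * k + 7 - 1 = 6 * k + 6 := by omega
      rw [e5] at hone
      rcases Nat.eq_zero_or_pos q with hq0 | hq0
      · subst hq0
        rw [Nat.sub_zero] at hone
        have hrs : (r = 0 ∧ s = 0) ∨ (r = 1 ∧ s = 0) ∨ s = 1 := by omega
        rcases hrs with ⟨rfl, rfl⟩ | ⟨rfl, rfl⟩ | rfl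
        · exact hf.not_allEven hone (by omega)
        · rw [H.a2 (by omega) (by omega) (by omega)] at hone
          omega
        · exact kill hf hY (a' := 6 * k + 6) (b' := b + 2) (x' := x + 1 - r) (y' := 2 * n + 4 - 1)
            (by omega) (by omega) (by omega) (by omega) (by omega) hone
      · have hq1 : b + 2 - q = b + 1 := by omega
        rw [hq1] at hone
        exact H.a1z hf hr (by omega) (by omega) (by omega) (by omega) hone
  exact kill hf hz (by omega) (by omega) (by omega) (by omega) (by omega)
    (H.done (x := x + 2) (y := 2 * n + 4) (by omega) (by omega) (by omega) (by omega) (by omega)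
      (by omega))

theorem Yzero (hf : Rule f) (H : HT f k n b X) (hr : St f (6 * k + 6) b (2 * n)) {x : ℕ}
    (hx2 : x % 2 = 1) (hx : 2 * n + 3 ≤ x) (hd : x ≤ 2 * n + 2 + 2 * k + 1) :
    ¬ f (6 * k + 6) (b + 2) x (2 * n + 2) := by
  rcases Nat.lt_or_ge x (2 * n + 5) with h | h
  · have e : x = 2 * n + 3 := by omega
    subst e
    exact kill hf (H.a1d hf hr (x := 2 * n + 2) (by omega) (by omega)) (by omega) (by omega)
      (by omega) (by omega) (by omega)
  · exact H.star hf hr hx2 h hd

theorem line (hf : Rule f) (H : HT f k n b X) (hr : St f (6 * k + 6) b (2 * n)) : ∀ t : ℕ,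
    2 * n + 4 + 2 * t ≤ 2 * n + 3 + 2 * k + 1 →
      f (6 * k + 6) (b + 2) (2 * n + 4 + 2 * t) (2 * n + 3) := by
  have h1 := H.hk; have h2 := H.hb2; have h3 := H.h4; have h4 := H.hbk; have h5 := H.hXb
  have h6 := H.hX
  intro t
  induction t with
  | zero =>
    intro hd
    by_contra hno
    obtain ⟨p, q, r, s, hp, hq, hr', hs, hsum, hpa, hqb, hrx, hsy, hone⟩ :=
      hf.exists_pred (by omega) hno
    rcases Nat.eq_zero_or_pos p with hp0 | hp0
    · subst hp0
      rw [Nat.sub_zero] at hone
      rcases Nat.eq_zero_or_pos q with hq0 | hq0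
      · subst hq0
        rw [Nat.sub_zero] at hone
        have hrs : (r = 0 ∧ s = 1) ∨ (r = 1 ∧ s = 0) ∨ (r = 1 ∧ s = 1) := by omega
        rcases hrs with ⟨rfl, rfl⟩ | ⟨rfl, rfl⟩ | ⟨rfl, rfl⟩
        · exact hf.not_allEven hone (by omega)
        · exact kill hf (H.a1d hf hr (x := 2 * n + 2) (by omega) (by omega)) (a' := 6 * k + 6)
            (b' := b + 2) (x' := 2 * n + 4 + 2 * 0 - 1)
            (y' := 2 * n + 3 - 0) (by omega) (by omega) (by omega) (by omega) (by omega) hone
        · exact H.Yzero hf hr (x := 2 * n + 4 + 2 * 0 - 1) (by omega) (by omega) (by omega)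
            hone
      · have hq1 : b + 2 - q = b + 1 := by omega
        rw [hq1] at hone
        exact H.a1z hf hr (by omega) (by omega) (by omega) (by omega) hone
    · have hp1 : p = 1 := by omega
      subst hp1
      have e5 : 6 * k + 6 - 1 = 6 * k + 5 := by omega
      rw [e5] at hone
      rcases Nat.eq_zero_or_pos q with hq0 | hq0
      · subst hq0
        exact H.p2n hf hr (by omega) (by omega) (by omega) hone
      · have hq1 : b + 2 - q = b + 1 := by omega
        rw [hq1] at hone
        exact H.p1b hf (by omega) (by omega) (by omega) hone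
  | succ t ih =>
    intro hd
    have ih' := ih (by omega)
    by_contra hno
    obtain ⟨p, q, r, s, hp, hq, hr', hs, hsum, hpa, hqb, hrx, hsy, hone⟩ :=
      hf.exists_pred (by omega) hno
    rcases Nat.eq_zero_or_pos p with hp0 | hp0
    · subst hp0
      rw [Nat.sub_zero] at hone
      rcases Nat.eq_zero_or_pos q with hq0 | hq0
      · subst hq0
        rw [Nat.sub_zero] at hone
        have hrs : (r = 0 ∧ s = 1) ∨ (r = 1 ∧ s = 0) ∨ (r = 1 ∧ s = 1) := by omega
        rcases hrs with ⟨rfl, rfl⟩ | ⟨rfl, rfl⟩ | ⟨rfl, rfl⟩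
        · exact hf.not_allEven hone (by omega)
        · exact kill hf ih' (a' := 6 * k + 6) (b' := b + 2) (x' := 2 * n + 4 + 2 * (t + 1) - 1)
            (y' := 2 * n + 3 - 0) (by omega) (by omega) (by omega) (by omega) (by omega) hone
        · exact H.Yzero hf hr (x := 2 * n + 4 + 2 * (t + 1) - 1) (by omega) (by omega)
            (by omega) hone
      · have hq1 : b + 2 - q = b + 1 := by omega
        rw [hq1] at hone
        have hrs : (r = 0 ∧ s = 1) ∨ ¬ (r = 0 ∧ s = 1) := by omega
        rcases hrs with ⟨rfl, rfl⟩ | hrs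
        · exact kill hf (H.aone hr (x := 2 * n + 4 + 2 * (t + 1) - 1) (y := 2 * n + 2) (by omega)
            (by omega) (by omega) (by omega) (by omega)) (by omega) (by omega) (by omega)
            (by omega) (by omega) hone
        · exact H.a1z hf hr (by omega) (by omega) (by omega) (by omega) hone
    · have hp1 : p = 1 := by omega
      subst hp1
      have e5 : 6 * k + 6 - 1 = 6 * k + 5 := by omega
      rw [e5] at hone
      rcases Nat.eq_zero_or_pos q with hq0 | hq0
      · subst hq0
        exact H.p2n hf hr (by omega) (by omega) (by omega) hone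
      · have hq1 : b + 2 - q = b + 1 := by omega
        rw [hq1] at hone
        exact H.p1b hf (by omega) (by omega) (by omega) hone

/-- The OUT row of the leader, strip. -/
theorem r2s (hf : Rule f) (H : HT f k n b X) (hr : St f (6 * k + 6) b (2 * n)) : ∀ x y : ℕ,
    max x y + 1 ≤ min x y + 2 * (k + 1) → 2 * n + 1 < min x y →
      (f (6 * k + 6) (b + 2) x y ↔ Fst (6 * k + 6) (b + 2) x y) := by
  have h1 := H.hk; have h2 := H.hb2; have h3 := H.h4; have h4 := H.hbk; have h5 := H.hXb
  have h6 := H.hX
  have e6 : (6 * k + 6) / 6 = k + 1 := by omega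
  intro x y h7 h8
  rcases Nat.lt_or_ge (2 * n + 3) (min x y) with h9 | h9
  · exact H.A0.r2s x y (by rw [e6]; exact h7) (by omega)
  refine all_of_half hf (P := fun x y => x + 1 ≤ y + 2 * (k + 1) ∧ 2 * n + 1 < y ∧
    y ≤ 2 * n + 3) ?_ x y ⟨h7, h8, h9⟩
  intro x y hyx hP
  obtain ⟨hd, hy, hy3⟩ := hP
  have hl : ∀ u : ℕ, u % 2 = 0 → 2 * n + 4 ≤ u → u ≤ 2 * n + 3 + 2 * k + 1 →
      f (6 * k + 6) (b + 2) u (2 * n + 3) := by
    intro u hu2 hu hud
    have h10 := H.line hf hr ((u - (2 * n + 4)) / 2) (by omega)
    have e : 2 * n + 4 + 2 * ((u - (2 * n + 4)) / 2) = u := by omega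
    rw [e] at h10
    exact h10
  have hyy : y = 2 * n + 2 ∨ y = 2 * n + 3 := by omega
  rw [Fst_I (by omega) (by omega) (by omega) (by omega) hyx (by rw [e6]; omega)]
  rcases hyy with rfl | rfl
  · rcases Nat.mod_two_eq_zero_or_one x with hx2 | hx2
    · refine iff_of_false ?_ (by omega)
      intro h
      exact hf.not_allEven h (by omega)
    · refine iff_of_false ?_ (by omega)
      exact H.Yzero hf hr hx2 (by omega) (by omega)
  · rcases Nat.mod_two_eq_zero_or_one x with hx2 | hx2
    · refine iff_of_true ?_ (by omega)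
      exact hl x hx2 (by omega) (by omega)
    · refine iff_of_false ?_ (by omega)
      rcases Nat.eq_or_lt_of_le hyx with h10 | h10
      · subst h10
        exact kill hf (H.a1d hf hr (x := 2 * n + 2) (by omega) (by omega)) (by omega) (by omega)
          (by omega) (by omega) (by omega)
      · exact kill hf (hl (x - 1) (by omega) (by omega) (by omega)) (by omega) (by omega)
          (by omega) (by omega) (by omega)

/-- The row `b + 3` of the leader, strip. -/
theorem r3s (hf : Rule f) (H : HT f k n b X) (hr : St f (6 * k + 6) b (2 * n))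
    (hz : f (6 * k + 6) (b + 3) (2 * n + 5) (2 * n + 5)) : ∀ x y : ℕ,
    max x y + 1 ≤ min x y + 2 * (k + 1) → 2 * n + 3 < min x y →
      (f (6 * k + 6) (b + 3) x y ↔ Fst (6 * k + 6) (b + 3) x y) := by
  have h1 := H.hk; have h2 := H.hb2; have h3 := H.h4; have h4 := H.hbk; have h5 := H.hXb
  have h6 := H.hX
  have e6 : (6 * k + 6) / 6 = k + 1 := by omega
  intro x y h7 h8
  rcases Nat.lt_or_ge (2 * n + 5) (min x y) with h9 | h9
  · exact H.A0.r3s x y (by rw [e6]; exact h7) (by omega)
  refine all_of_half hf (P := fun x y => x + 1 ≤ y + 2 * (k + 1) ∧ 2 * n + 3 < y ∧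
    y ≤ 2 * n + 5) ?_ x y ⟨h7, h8, h9⟩
  intro x y hyx hP
  obtain ⟨hd, hy, hy5⟩ := hP
  have hl : ∀ u v : ℕ, v < u → u ≤ v + 2 * k + 1 → 2 * n + 1 < v → u % 2 = 0 → v % 2 = 1 →
      f (6 * k + 6) (b + 2) u v := by
    intro u v h10 h11 h12 h13 h14
    rw [H.r2s hf hr u v (by omega) (by omega), Fst_I (by omega) (by omega) (by omega) (by omega)
      h10.le (by rw [e6]; omega)]
    exact ⟨h13, h14⟩
  rw [Fst_odd (by omega) (by omega) (by omega) hyx (by rw [e6]; omega)]
  rcases Nat.eq_or_lt_of_le hyx with h10 | h10
  · subst h10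
    rcases Nat.mod_two_eq_zero_or_one y with hy2 | hy2
    · refine iff_of_false ?_ (by omega)
      exact kill hf (hl y (y - 1) (by omega) (by omega) (by omega) (by omega) (by omega))
        (by omega) (by omega) (by omega) (by omega) (by omega)
    · have e : y = 2 * n + 5 := by omega
      subst e
      exact iff_of_true hz (by omega)
  · refine iff_of_false ?_ (by omega)
    rcases Nat.mod_two_eq_zero_or_one x with hx2 | hx2 <;>
      rcases Nat.mod_two_eq_zero_or_one y with hy2 | hy2
    · exact kill hf (hl x (y - 1) (by omega) (by omega) (by omega) (by omega) (by omega))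
        (by omega) (by omega) (by omega) (by omega) (by omega)
    · exact kill hf (hl x y (by omega) (by omega) (by omega) (by omega) (by omega))
        (by omega) (by omega) (by omega) (by omega) (by omega)
    · exact kill hf (hl (x - 1) (y - 1) (by omega) (by omega) (by omega) (by omega) (by omega))
        (by omega) (by omega) (by omega) (by omega) (by omega)
    · exact kill hf (hl (x - 1) y (by omega) (by omega) (by omega) (by omega) (by omega))
        (by omega) (by omega) (by omega) (by omega) (by omega)

/-- THE CYCLE OF THE LEADER. -/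
theorem cy3 (hf : Rule f) (H : HT f k n b X) (tip : f (6 * k + 6) b (2 * n + 1) (2 * n))
    (hz : f (6 * k + 6) (b + 3) (2 * n + 5) (2 * n + 5)) :
    Cy3 f (6 * k + 6) b (2 * n) := by
  have hr := H.r0 hf tip
  have h1 := H.hk; have h2 := H.hb2; have h3 := H.h4; have h4 := H.hbk; have h5 := H.hXb
  have h6 := H.hX
  have e3 : 6 * k + 6 - 1 = 6 * k + 5 := by omega
  have e6 : (6 * k + 6) / 6 = k + 1 := by omega
  have hcc : cc (6 * k + 6) = 2 * (k + 1) := by
    unfold cc
    omega
  have hx2 : ∀ x y : ℕ, min x y + 2 * ((6 * k + 6) / 6) ≤ max x y → 2 * n + 4 < max x y →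
      (f (6 * k + 6) (b + 2) x y ↔ Fst (6 * k + 6) (b + 2) x y) := by
    intro x y hd hx
    rw [e6] at hd
    refine all_of_half hf (P := fun x y => y + 2 * (k + 1) ≤ x ∧ 2 * n + 4 < x) ?_ x y ⟨hd, hx⟩
    intro x y hyx hP
    exact H.r2x hf hr (by omega) hP.2
  have r2 : St f (6 * k + 6) (b + 2) (2 * n + cc (6 * k + 6)) := by
    intro x y hxy
    rw [hcc] at hxy
    rcases Nat.lt_or_ge (max x y) (min x y + 2 * (k + 1)) with h7 | h7
    · exact H.r2s hf hr x y (by omega) (by omega)
    · exact hx2 x y (by rw [e6]; exact h7) (by omega)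
  refine ⟨hr, H.r1 hf hr, fun _ => ?_, r2, hx2, ?_, ?_, ?_⟩
  · rw [e6]
    exact H.r1s hf hr
  · rw [e6]
    exact H.r2s hf hr
  · rw [hcc] at r2 ⊢
    refine QF_even_flat hf (by omega) (by omega) (by omega) ?_ (Or.inr (by omega))
    intro x y hxy p q hp hq hpq hpa hqb
    rcases Nat.eq_zero_or_pos p with hp0 | hp0
    · subst hp0
      have hq1 : q = 1 := by omega
      subst hq1
      exact r2 x y hxy
    · have hp1 : p = 1 := by omega
      subst hp1
      rw [e3]
      rcases Nat.eq_zero_or_pos q with hq0 | hq0
      · subst hq0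
        rw [Nat.sub_zero]
        rcases le_total y x with h | h
        · exact H.p3b hf h (by omega)
        · rw [hf.swap_xy, Fst_swap_xy]
          exact H.p3b hf h (by omega)
      · have hq1 : q = 1 := by omega
        subst hq1
        have e : b + 3 - 1 = b + 2 := by omega
        rw [e]
        rcases le_total y x with h | h
        · exact H.p2c hf hr h (by omega)
        · rw [hf.swap_xy, Fst_swap_xy]
          exact H.p2c hf hr h (by omega)
  · rw [e6]
    exact H.r3s hf hr hz

end HT

end LocR6

end Pool.Agent.SNT
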