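import Pool.Agent.SNT.LocR4f
import Pool.Agent.SNT.LocR6d
import Pool.Agent.SNT.LW4
import Pool.Agent.SNT.StackShift

set_option autoImplicit false

/-! LOCATION for the leader `6 k + 6` in the window of the six layers. -/

namespace Pool.Agent.SNT

variable {f : ℕ → ℕ → ℕ → ℕ → Prop}

namespace S6

open LocZ LocG Pool.Agent.SNT.LW

/-- The window of the leader `6 k + 4`, one period later. -/
theorem hs_of_stack5 (hf : Rule f) {k b m : ℕ} (hs : Side k b m)
    (S : Stack6 f k b m 0 0 1 1 1 1) :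
    LocR4.HS f k (m + 3 + (k + 2) * 5) (b + 20) (2 * m - (100 * k + 1000)) := by
  have Z2 := zh_zero hs S 3 (by omega)
  have Z3 := zh_zero hs S 4 (by omega)
  obtain ⟨hk, hb2, hb, hkb, hbm⟩ := hs
  have hk5 : (k + 2) * 5 = (k + 2) * 4 + (k + 2) := by ring
  have hkk : (k + 2) * 4 = (k + 2) * 3 + (k + 2) := by ring
  have hk3 : (k + 2) * 3 = (k + 2) * 2 + (k + 2) := by ring
  have hk2 : (k + 2) * 2 = (k + 2) + (k + 2) := by ring
  have e0 : 6 * k / 6 = k := by omega
  have z1 : ∀ r : ℕ, b + 20 ≤ r + 8 → r ≤ b + 20 + 8 →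
      St f (6 * k - 1) r (2 * m - (100 * k + 1000)) := by
    intro r h1 h2
    have h3 := S.lw (r - b) (by omega)
    have e : b + (r - b) = r := by omega
    rwa [e] at h3
  have fr : ∀ a r x y : ℕ, a ≤ 6 * k + 10 → b + 20 ≤ r + 8 → r ≤ b + 20 + 8 → y ≤ x →
      2 * m - (100 * k + 1000) < x → b + 20 + y < x + 6 * k + 60 →
      (f a r x y ↔ Fst a r x y) := by
    intro a r x y h1 h2 h3 h4 h5 h6
    have h7 := S.fr a (r - b) x y h1 (by omega) (by omega) (by omega)
    have e : b + (r - b) = r := by omega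
    rwa [e] at h7
  have c0 := S.l0 4
  have b2 := S.l2 4
  have b6 := (S.l2 3).r3
  have am := S.l4 4
  have a0 := S.l4 5
  have d2 := (S.l6 5).r0
  have hcc : cc (6 * k + 2) = 2 * k := by
    unfold cc
    omega
  rw [hcc] at b6
  refine ⟨hk, by omega, by omega, by omega, by omega, by omega, fr, z1, ?_, ?_, ?_, ?_, ?_, ?_,
    ?_, ?_, ?_, ?_, ?_, ?_⟩
  · -- only exceptional cells
    intro r x y h1 h2 hne hyx hx
    rcases Nat.lt_or_ge (b + 20 + y) (x + 6 * k + 60) with h3 | h3
    · exact fr _ r x y (by omega) (by omega) (by omega) hyx (by omega) h3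
    · refine iff_of_false ?_ (Fst_near_odd (by omega) (by omega))
      refine eonly hf (A := 6 * k) (by omega) hne ?_
      intro q i s hq hi hs'
      rw [z1 (r - q) (by omega) (by omega) _ _ (by omega)]
      exact Fst_near_odd (by omega) (by omega)
  · intro x y hyx hx
    have := (Z2.out6 hf) x y (by omega)
    have e : b + 4 * 3 + 6 = b + 20 - 2 := by omega
    rwa [e] at this
  · intro x y hyx hx
    have := Z2.in8b hf (x := x) (y := y) hyx (by omega)
    have e : b + 4 * 3 + 8 = b + 20 := by omega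
    rwa [e] at this
  · intro x y hd hx
    have := Z2.in8a hf (x := x) (y := y) (by rw [e0]; omega) (by omega)
    have e : b + 4 * 3 + 8 = b + 20 := by omega
    rwa [e] at this
  · intro x y hyx hx
    have := (Z3.out6 hf) x y (by omega)
    have e : b + 4 * 4 + 6 = b + 20 + 2 := by omega
    rwa [e] at this
  · convert c0 using 1 <;> omega
  · have e : b + 2 + 4 * 3 + 3 = b + 20 - 3 := by omega
    rw [e] at b6
    exact b6.mono (by omega)
  · convert b2 using 1 <;> omega
  · convert am using 1 <;> omega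
  · exact a0
  · have e : b + 2 + 4 * 5 = b + 20 + 2 := by omega
    rw [e] at d2
    exact d2.mono (by omega)
  · have l4 := S.l4 5
    have l3 := S.l4 4
    have m4 := S.l6 5
    have m3 := S.l6 4
    have u3 := S.l8 4
    have u4 := S.l8 5
    have C4 : Cyc f (6 * k + 4 + 4) (b + 20) (2 * (m + 3 + (k + 2) * 5 + 2 - k) + 4) :=
      cyc_of_cw' hf (by omega) (by omega) (by omega) (by omega) u3 u4 (by omega) (by omega)
        (by omega) (by omega)
    refine ⟨hk, by omega, by omega, by omega, by omega, by omega, by omega, ?_, ?_, ?_, ?_, C4,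
      ?_⟩
    · convert l4 using 1
    · convert l3 using 1 <;> omega
    · convert m3 using 1 <;> omega
    · convert m4 using 1 <;> omega
    · intro x y h1 h2 h3
      exact u3.w2s x y h1 h2 (by omega)

/-- The window of the leader `6 k + 6`. -/
theorem ht_of_stack (hf : Rule f) {k b m : ℕ} (hs : Side k b m)
    (S : Stack6 f k b m 0 0 0 1 1 1) :
    LocR6.HT f k (m + 5 + (k + 2) * 4) (b + 18) (2 * m - (100 * k + 1000)) := by
  have S' : Stack6 f k b m 0 0 1 1 1 1 :=
    ⟨S.l0, S.l2, fun i => (S.l4 i).mono' (by omega), S.l6, S.l8, S.l10, S.lw, S.fr⟩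
  have S0 := hs_of_stack hf hs S'
  have S1 := hs_of_stack5 hf hs S'
  obtain ⟨hk, hb2, hb, hkb, hbm⟩ := hs
  have hk5 : (k + 2) * 5 = (k + 2) * 4 + (k + 2) := by ring
  have hkk : (k + 2) * 4 = (k + 2) * 3 + (k + 2) := by ring
  have hk3 : (k + 2) * 3 = (k + 2) * 2 + (k + 2) := by ring
  have hk2 : (k + 2) * 2 = (k + 2) + (k + 2) := by ring
  have e8 : (6 * k + 8) / 6 = k + 1 := by omega
  have e10 : (6 * k + 10) / 6 = k + 1 := by omega
  have W : Wd f (6 * k + 4) (b + 10) (k + 1) k (m + 5 + (k + 2) * 2) (m + 2 + (k + 2) * 3) :=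
    ⟨by omega, by omega, by omega, by omega, by omega, by omega, by omega, by omega, by omega,
      .of (S.l6 2) (by omega) (by omega) (by omega) (by omega),
      .of (S.l6 3) (by omega) (by omega) (by omega) (by omega),
      .of (S.l6 4) (by omega) (by omega) (by omega) (by omega),
      .of (S.l4 3) (by omega) (by omega) (by omega) (by omega),
      .of (S.l4 4) (by omega) (by omega) (by omega) (by omega)⟩
  have hedge := edge hf W
  have fr : ∀ a r x y : ℕ, a ≤ 6 * k + 10 → b + 18 ≤ r + 8 → r ≤ b + 18 + 8 → y ≤ x →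
      2 * m - (100 * k + 1000) < x → b + 18 + y < x + 6 * k + 60 →
      (f a r x y ↔ Fst a r x y) := by
    intro a r x y h1 h2 h3 h4 h5 h6
    have h7 := S.fr a (r - b) x y h1 (by omega) (by omega) (by omega)
    have e : b + (r - b) = r := by omega
    rwa [e] at h7
  have B0 := S.l4 4
  have B3 := (S.l4 3).r3
  have B1 := (S.l4 5).r0
  have C0 := S.l2 3
  have Am := S.l6 3
  have A0 := S.l6 4
  have U3 := S.l8 3
  have U4 := S.l8 4
  have V3 := S.l10 3
  have hcc : cc (6 * k + 4) = 2 * k := by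
    unfold cc
    omega
  rw [hcc] at B3
  refine ⟨hk, by omega, by omega, by omega, by omega, by omega, fr, ?_, ?_, ?_, ?_, ?_, ?_, ?_,
    ?_, ?_, ?_, ?_, ?_, ?_⟩
  · have e1 : m + 5 + (k + 2) * 4 - 2 = m + 3 + (k + 2) * 4 := by omega
    have e2 : b + 18 - 2 = b + 16 := by omega
    rw [e1, e2]
    exact S0
  · have e1 : m + 5 + (k + 2) * 4 + k = m + 3 + (k + 2) * 5 := by omega
    have e2 : b + 18 + 2 = b + 20 := by omega
    rw [e1, e2]
    exact S1
  · convert B0 using 1 <;> omega
  · have e : b + 4 * 3 + 3 = b + 18 - 3 := by omega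
    rw [e] at B3
    exact B3.mono (by omega)
  · have e : b + 4 * 5 = b + 18 + 2 := by omega
    rw [e] at B1
    exact B1.mono (by omega)
  · convert C0 using 1 <;> omega
  · convert Am using 1 <;> omega
  · convert A0 using 1
  · have e0 : 6 * k + 4 + 2 = 6 * k + 6 := by omega
    have e1 : b + 10 + 6 = b + 18 - 2 := by omega
    have e2 : 2 * (m + 5 + (k + 2) * 2 + (k + 1) + 1) + 2 * (k + 1) + 2 =
        2 * (m + 5 + (k + 2) * 4) := by omega
    have e3 : 2 * (m + 5 + (k + 2) * 2 + (k + 1) + 1) + 3 =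
        2 * (m + 5 + (k + 2) * 4) - 2 * k - 1 := by omega
    rw [e0, e1, e2, e3] at hedge
    exact hedge
  · intro x y h1 h2 h3
    have := U3.w2s x y h1 (by rw [e8]; omega) (by omega)
    have e : b + 4 + 4 * 3 + 2 = b + 18 := by omega
    rwa [e] at this
  · intro x y h1 h2 h3
    have := U3.w3s x y h1 (by rw [e8]; omega) (by omega)
    have e : b + 4 + 4 * 3 + 3 = b + 18 + 1 := by omega
    rwa [e] at this
  · intro x y h1 h2 h3
    have := U4.w0 x y h1 (by omega) (by rw [e8]; omega)
    have e : b + 4 + 4 * 4 = b + 18 + 2 := by omega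
    rwa [e] at this
  · intro x y h1 h2 h3
    have := V3.w2s x y h1 (by rw [e10]; omega) (by omega)
    have e : b + 6 + 4 * 3 + 2 = b + 18 + 2 := by omega
    rwa [e] at this

/-- LOCATION of the leader `6 k + 6` from the one diagonal cell of the row `b + 21`. -/
theorem locR6_of (hf : Rule f) {k b m : ℕ} (hs : Side k b m) (S : Stack6 f k b m 0 0 0 1 1 1)
    (tip : f (6 * k + 6) (b + 18) (2 * (m + 5 + (k + 2) * 4) + 1) (2 * (m + 5 + (k + 2) * 4)))
    (hz : f (6 * k + 6) (b + 18 + 3) (2 * (m + 5 + (k + 2) * 4) + 5)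
      (2 * (m + 5 + (k + 2) * 4) + 5)) :
    Cy3 f (6 * k + 6) (b + 18) (2 * (m + 5 + (k + 2) * 4)) :=
  (ht_of_stack hf hs S).cy3 hf tip hz

end S6

end Pool.Agent.SNT
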