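import Pool.Agent.SNT.LocR8z
import Pool.Agent.SNT.NWD
import Pool.Agent.SNT.WrapC

set_option autoImplicit false

/-! The window near the diagonal below the leader `6 k + 8` (`c` its IN row, `n` its lead), with the improved leads of
`6 k` and `6 k + 2`. -/

namespace Pool.Agent.SNT.LocR8

open Pool.Agent.SNT Pool.Agent.SNT.Loc Pool.Agent.SNT.LW Pool.Agent.SNT.NHZ

variable {f : ℕ → ℕ → ℕ → ℕ → Prop}

/-- The hypotheses of the windows near the diagonal. -/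
structure DW (f : ℕ → ℕ → ℕ → ℕ → Prop) (k c n : ℕ) : Prop where
  T : NHT8 f k c (2 * n)
  H : LocR8Z.H8 f k (c - 4) n
  lw : ∀ {M R x y : ℕ}, M + 1 = 6 * k → c ≤ R + 10 → R ≤ c + 10 → 2 * n ≤ x + 24 → y ≤ x → x ≤ y + 4 * k → ¬ f M R x y
  c0m : Cyc f (6 * k) (c - 8) (2 * (n - 9) + 2)
  c0 : Cyc f (6 * k) (c - 4) (2 * (n - 5) + 2)
  c2m : Cyc f (6 * k + 2) (c - 6) (2 * (n - 7) + 2)
  c2 : Cyc f (6 * k + 2) (c - 2) (2 * (n - 2) + 2)
  c4m : Cyc f (6 * k + 4) (c - 4) (2 * (n - 5) + 2)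
  c6m : Cyc f (6 * k + 6) (c - 6) (2 * (n - (k + 5)) + 2)
  c6 : Cyc f (6 * k + 6) (c - 2) (2 * (n - 3) + 2)
  c8m : Cw f (6 * k + 8) (c - 4) (n - (k + 2))
  c8 : Cw f (6 * k + 8) c n
  c10m : Cw f (6 * k + 10) (c - 2) (n - k)
  c10 : Cw f (6 * k + 10) (c + 2) (n + 2)

theorem DW.of_stack (hf : Rule f) {k b m : ℕ} (hs : Side k b m) (S : Stack6 f k b m 0 0 0 0 1 1)
    (tip : f (6 * k + 8) (b + 20) (2 * (m + 7 + (k + 2) * 4) + 1) (2 * (m + 7 + (k + 2) * 4)))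
    (d2 : Cyc f (6 * k + 2) (b + 18) (2 * (m + 5 + (k + 2) * 4) + 2))
    (d0 : Cyc f (6 * k) (b + 16) (2 * (m + 2 + (k + 2) * 4) + 2)) :
    DW f k (b + 20) (m + 7 + (k + 2) * 4) := by
  have T := NHT8.of_stack hs S
  have H := LocR8Z.H8.of_stack hf hs S tip
  obtain ⟨hk, hb, h4, hbl, hm⟩ := hs
  have e4 : (k + 2) * 4 = 4 * k + 8 := by ring
  have l0 := S.l0 3
  have l2 := S.l2 3
  have l4 := S.l4 4
  have l6m := S.l6 3
  have l6 := S.l6 4
  have l8m := S.l8 3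
  have l8 := S.l8 4
  have l10m := S.l10 3
  have l10 := S.l10 4
  have e3 : (k + 2) * 3 = 3 * k + 6 := by ring
  rw [e3] at l0 l2 l6m l8m l10m
  rw [e4] at l4 l6 l8 l10 T H d2 d0 ⊢
  refine ⟨T, ?_, ?_, ?_, ?_, ?_, ?_, ?_, ?_, ?_, ?_, ?_, ?_, ?_⟩
  · rwa [show b + 20 - 4 = b + 16 by omega]
  · intro M R x y hM h1 h2 h3 h5 h6
    have h7 := S.lw (R - b) (by omega)
    have e : b + (R - b) = R := by omega
    have e2 : 6 * k - 1 = M := by omega
    rw [e, e2] at h7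
    rw [h7 x y (by rw [max_eq_left h5]; omega)]
    exact Fst_near_odd (by omega) (by rw [max_eq_left h5, min_eq_right h5]; omega)
  · exact LocR8Z.cyc_cast l0 (by omega) (by omega)
  · exact LocR8Z.cyc_cast d0 (by omega) (by omega)
  · exact LocR8Z.cyc_cast l2 (by omega) (by omega)
  · exact LocR8Z.cyc_cast d2 (by omega) (by omega)
  · exact LocR8Z.cyc_cast l4 (by omega) (by omega)
  · exact LocR8Z.cyc_cast l6m (by omega) (by omega)
  · exact LocR8Z.cyc_cast l6 (by omega) (by omega)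
  · exact l8m.cast rfl (by omega) (by omega)
  · exact l8.cast rfl (by omega) (by omega)
  · exact l10m.cast rfl (by omega) (by omega)
  · exact l10.cast rfl (by omega) (by omega)

end Pool.Agent.SNT.LocR8
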