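import Pool.Agent.SNT.LW4
import Pool.Agent.SNT.LocTop

set_option autoImplicit false

/-! Location of the leader `6 k + 8`: the strip of the IN row in the columns `2 n + 1`, `2 n + 2`
(the field `L0`). -/

namespace Pool.Agent.SNT.LW

variable {f : ℕ → ℕ → ℕ → ℕ → Prop}

/-- Two different comparable cells of a unit cube are not both one. -/
theorem klu (hf : Rule f) {a b x y a' b' x' y' : ℕ} (h : f a b x y)
    (ha : a ≤ a' ∧ a' ≤ a + 1) (hb : b ≤ b' ∧ b' ≤ b + 1) (hx : x ≤ x' ∧ x' ≤ x + 1)
    (hy : y ≤ y' ∧ y' ≤ y + 1) (hne : a + b + x + y < a' + b' + x' + y') :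
    ¬ f a' b' x' y' := by
  have h1 := hf.up h (p := a' - a) (q := b' - b) (r := x' - x) (s := y' - y) (by omega) (by omega)
    (by omega) (by omega) (by omega)
  exact fun t => h1 (mv t (by omega) (by omega) (by omega) (by omega))

/-- A cell with a one among its successors is zero. -/
theorem kld (hf : Rule f) {a b x y a' b' x' y' : ℕ} (h : f a' b' x' y')
    (ha : a ≤ a' ∧ a' ≤ a + 1) (hb : b ≤ b' ∧ b' ≤ b + 1) (hx : x ≤ x' ∧ x' ≤ x + 1)
    (hy : y ≤ y' ∧ y' ≤ y + 1) (hne : a + b + x + y < a' + b' + x' + y') :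
    ¬ f a b x y := fun h1 => klu hf h1 ha hb hx hy hne h

/-- The inputs: `B = 6 k + 6`, `r = b + 18`, `n` the lead of `B + 2` in the row `r + 2`. -/
structure L0In (f : ℕ → ℕ → ℕ → ℕ → Prop) (B r h n : ℕ) : Prop where
  hB : B % 2 = 0
  h12 : 12 ≤ B
  hr : r % 2 = 0
  ph : (B + r) % 4 = 2
  hg : B / 6 = h
  hh : (B + 2) / 6 = h
  hh4 : (B + 4) / 6 = h
  hk : 6 ≤ h
  big : 2 * B + 60 ≤ r
  hn : h + 10 ≤ n
  D : ∃ l : ℕ, l + 3 = n ∧ Cyc f B r (2 * l + 2)
  C' : ∃ q m : ℕ, q + 2 = r ∧ m + h + 1 = n ∧ Cw f (B + 2) q m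
  C : Cw f (B + 2) (r + 2) n
  E : ∃ p : ℕ, p + h = n + 1 ∧ Cw f (B + 4) r p

variable {B r h n : ℕ}

/-- The static row `r` of `B`. -/
theorem L0In.b0 (W : L0In f B r h n) {x y : ℕ} (hyx : y ≤ x) (hx : 2 * n ≤ x + 3)
    (hd : x ≤ y + 2 * h + 4) : f B r x y ↔ V0 h x y := by
  obtain ⟨l, hl, D⟩ := W.D
  have h1 := W.big
  have h2 := W.hg
  exact v0 ⟨W.hB, W.h12, W.hg, W.ph⟩ D rfl rfl hyx (by omega) (by omega)

/-- The static row `r + 1` of `B`. -/
theorem L0In.b1 (W : L0In f B r h n) {x y : ℕ} (hyx : y ≤ x) (hx : 2 * n ≤ x + 1)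
    (hd : x ≤ y + 2 * h + 4) : f B (r + 1) x y ↔ V1 h x y := by
  obtain ⟨l, hl, D⟩ := W.D
  have h1 := W.big
  have h2 := W.hg
  exact v1 ⟨W.hB, W.h12, W.hg, W.ph⟩ D rfl rfl hyx (by omega) (by omega)

/-- The row `r + 1` of `B + 2`. -/
theorem L0In.a1 (W : L0In f B r h n) {x y : ℕ} (hyx : y < x) (hy : 2 * n + 4 ≤ y + 2 * h)
    (hs : x + 1 ≤ y + 2 * h) : ¬ f (B + 2) (r + 1) x y := by
  obtain ⟨q, m, hq, hm, C'⟩ := W.C'
  have h1 := W.big
  have h2 := W.hh
  have h3 := W.hB
  have h4 := W.h12
  have h5 := W.ph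
  intro t
  have := (w3s (a' := B + 2) (b' := r + 1) ⟨by omega, by omega, W.hh, by omega⟩ C' rfl (by omega)
    (by omega) (by omega) (by omega) (by omega)).1 t
  unfold V3 at this
  omega

/-- The static part of the row `r + 2` of `B + 2`. -/
theorem L0In.a2 (W : L0In f B r h n) {x y : ℕ} (hyx : y ≤ x) (hx : 2 * n + 3 ≤ x)
    (hd : x + 3 ≤ y + 2 * h) : f (B + 2) (r + 2) x y ↔ V0 h x y := by
  have h1 := W.big
  have h2 := W.hh
  have h3 := W.hB
  have h4 := W.h12
  have h5 := W.ph
  exact w0 ⟨by omega, by omega, W.hh, by omega⟩ W.C rfl rfl hyx (by omega) (by omega) (by omega)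

/-- The ones of the row `r + 2` of `B + 4`. -/
theorem L0In.e2 (W : L0In f B r h n) {x y : ℕ} (hyx : y ≤ x) (hy : 2 * n + 6 ≤ y + 2 * h)
    (hs : x + 1 ≤ y + 2 * h) (hx2 : x % 2 = 0) (hy2 : y % 2 = 1) : f (B + 4) (r + 2) x y := by
  obtain ⟨p, hp, E⟩ := W.E
  have h1 := W.big
  have h2 := W.hh4
  have h3 := W.hB
  have h4 := W.h12
  have h5 := W.ph
  exact (w2s ⟨by omega, by omega, W.hh4, by omega⟩ E rfl rfl hyx (by omega) (by omega)
    (by omega)).2 (by unfold V2; omega)

/-- One step down the column `2 n + 1`. -/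
theorem L0In.step (hf : Rule f) (W : L0In f B r h n) {y : ℕ} (hy2 : y % 2 = 0)
    (hy : 2 * n + 6 ≤ y + 2 * h) (hyn : y + 2 ≤ 2 * n)
    (t : f (B + 2) (r + 2) (2 * n + 1) (y + 2)) : f (B + 2) (r + 2) (2 * n + 1) y := by
  have e1 := W.hB
  have e2 := W.hr
  have e3 := W.hk
  have e4 := W.hn
  have hE := W.e2 (x := 2 * n + 2) (y := y + 1) (by omega) (by omega) (by omega) (by omega)
    (by omega)
  have hA := (W.a2 (x := 2 * n + 3) (y := y + 2) (by omega) (by omega) (by omega)).2
    (by unfold V0; omega)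
  by_contra hX
  -- the corner `(B + 3, r + 2, 2 n + 2, y + 1)` is not one and has no predecessor
  refine absurd ((hf (B + 3) (r + 2) (2 * n + 2) (y + 1)).2 ⟨by omega, ?_⟩)
    (kld hf hE (by omega) (by omega) (by omega) (by omega) (by omega))
  intro p q u v hp hq hu hv hs _ _ _ _ hff
  rcases (show p = 0 ∨ p = 1 by omega) with rfl | rfl
  · exact kld hf hE (by omega) (by omega) (by omega) (by omega) (by omega) hff
  · rcases (show q = 0 ∨ q = 1 by omega) with rfl | rfl
    · rcases (show v = 0 ∨ v = 1 by omega) with rfl | rfl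
      · rcases (show u = 0 ∨ u = 1 by omega) with rfl | rfl
        · exact kld hf hA (by omega) (by omega) (by omega) (by omega) (by omega) hff
        · exact kld hf t (by omega) (by omega) (by omega) (by omega) (by omega) hff
      · rcases (show u = 0 ∨ u = 1 by omega) with rfl | rfl
        · exact hf.not_allEven hff ⟨by omega, by omega, by omega, by omega⟩
        · exact hX (mv hff (by omega) (by omega) (by omega) (by omega))
    · exact W.a1 (by omega) (by omega) (by omega)
        (mv hff (by omega : B + 2 = _) (by omega : r + 1 = _) rfl rfl)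

/-- The cell `(2 n + 1, 2 n - 2 h + 4)` of the odd layer below is zero. -/
theorem L0In.p1 (hf : Rule f) (W : L0In f B r h n) {e : ℕ} (he : e + 2 * h = 2 * n + 4) :
    ¬ f (B + 1) (r + 2) (2 * n + 1) e := by
  have e1 := W.hB
  have e2 := W.hr
  have e3 := W.hk
  have e4 := W.hn
  have k1 := (W.b1 (x := 2 * n - 1) (y := e - 5) (by omega) (by omega) (by omega)).2
    (by unfold V1; omega)
  have k2 := (W.b1 (x := 2 * n + 1) (y := e - 3) (by omega) (by omega) (by omega)).2
    (by unfold V1; omega)
  have k3 := (W.b0 (x := 2 * n - 1) (y := e - 4) (by omega) (by omega) (by omega)).2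
    (by unfold V0; omega)
  have k4 := (W.b0 (x := 2 * n - 1) (y := e - 2) (by omega) (by omega) (by omega)).2
    (by unfold V0; omega)
  have k5 := (W.b0 (x := 2 * n + 1) (y := e - 2) (by omega) (by omega) (by omega)).2
    (by unfold V0; omega)
  intro hX
  -- the cell `(2 n, e - 2)` is one
  have h1 : f (B + 1) (r + 2) (2 * n) (e - 2) := by
    by_contra hY
    refine absurd ((hf (B + 1) (r + 2) (2 * n + 1) (e - 1)).2 ⟨by omega, ?_⟩)
      (kld hf hX (by omega) (by omega) (by omega) (by omega) (by omega))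
    intro p q u v hp hq hu hv hs _ _ _ _ hff
    rcases (show p = 0 ∨ p = 1 by omega) with rfl | rfl <;>
    rcases (show q = 0 ∨ q = 1 by omega) with rfl | rfl <;>
    rcases (show u = 0 ∨ u = 1 by omega) with rfl | rfl <;>
    rcases (show v = 0 ∨ v = 1 by omega) with rfl | rfl <;>
    first
    | omega
    | exact hY (mv hff (by omega) (by omega) (by omega) (by omega))
    | exact kld hf hX (by omega) (by omega) (by omega) (by omega) (by omega) hff
    | exact klu hf k1 (by omega) (by omega) (by omega) (by omega) (by omega) hff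
    | exact klu hf k2 (by omega) (by omega) (by omega) (by omega) (by omega) hff
    | exact klu hf k3 (by omega) (by omega) (by omega) (by omega) (by omega) hff
    | exact klu hf k4 (by omega) (by omega) (by omega) (by omega) (by omega) hff
    | exact klu hf k5 (by omega) (by omega) (by omega) (by omega) (by omega) hff
    | exact hf.not_allEven hff ⟨by omega, by omega, by omega, by omega⟩
    | exact absurd ((W.b1 (by omega) (by omega) (by omega)).1
        (mv hff (by omega : B = _) (by omega : r + 1 = _) rfl rfl)) (by unfold V1; omega)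
  refine absurd ((hf (B + 1) (r + 2) (2 * n) (e - 3)).2 ⟨by omega, ?_⟩)
    (kld hf h1 (by omega) (by omega) (by omega) (by omega) (by omega))
  intro p q u v hp hq hu hv hs _ _ _ _ hff
  rcases (show p = 0 ∨ p = 1 by omega) with rfl | rfl <;>
  rcases (show q = 0 ∨ q = 1 by omega) with rfl | rfl <;>
  rcases (show u = 0 ∨ u = 1 by omega) with rfl | rfl <;>
  rcases (show v = 0 ∨ v = 1 by omega) with rfl | rfl <;>
  first
  | omega
  | exact kld hf h1 (by omega) (by omega) (by omega) (by omega) (by omega) hff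
  | exact klu hf k1 (by omega) (by omega) (by omega) (by omega) (by omega) hff
  | exact klu hf k2 (by omega) (by omega) (by omega) (by omega) (by omega) hff
  | exact klu hf k3 (by omega) (by omega) (by omega) (by omega) (by omega) hff
  | exact klu hf k4 (by omega) (by omega) (by omega) (by omega) (by omega) hff
  | exact klu hf k5 (by omega) (by omega) (by omega) (by omega) (by omega) hff
  | exact hf.not_allEven hff ⟨by omega, by omega, by omega, by omega⟩
  | exact absurd ((W.b1 (by omega) (by omega) (by omega)).1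
      (mv hff (by omega : B = _) (by omega : r + 1 = _) rfl rfl)) (by unfold V1; omega)

/-- The last cell of the column `2 n + 1`. -/
theorem L0In.last (hf : Rule f) (W : L0In f B r h n) {e : ℕ} (he : e + 2 * h = 2 * n + 4)
    (t : f (B + 2) (r + 2) (2 * n + 1) (e + 2)) : f (B + 2) (r + 2) (2 * n + 1) e := by
  have e1 := W.hB
  have e2 := W.hr
  have e3 := W.hk
  have e4 := W.hn
  have k2 := (W.b1 (x := 2 * n + 1) (y := e - 3) (by omega) (by omega) (by omega)).2
    (by unfold V1; omega)
  have k5 := (W.b0 (x := 2 * n + 1) (y := e - 2) (by omega) (by omega) (by omega)).2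
    (by unfold V0; omega)
  have k6 := (W.b0 (x := 2 * n + 1) (y := e) (by omega) (by omega) (by omega)).2
    (by unfold V0; omega)
  have k7 := (W.a2 (x := 2 * n + 3) (y := e + 2) (by omega) (by omega) (by omega)).2
    (by unfold V0; omega)
  by_contra hX
  have hP := W.p1 hf he
  -- the cell `(2 n + 2, e)` of the odd layer is one
  have h1 : f (B + 1) (r + 2) (2 * n + 2) e := by
    by_contra hY
    refine absurd ((hf (B + 2) (r + 2) (2 * n + 2) (e + 1)).2 ⟨by omega, ?_⟩)
      (kld hf k7 (by omega) (by omega) (by omega) (by omega) (by omega))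
    intro p q u v hp hq hu hv hs _ _ _ _ hff
    rcases (show p = 0 ∨ p = 1 by omega) with rfl | rfl <;>
    rcases (show q = 0 ∨ q = 1 by omega) with rfl | rfl <;>
    rcases (show u = 0 ∨ u = 1 by omega) with rfl | rfl <;>
    rcases (show v = 0 ∨ v = 1 by omega) with rfl | rfl <;>
    first
    | omega
    | exact hX (mv hff (by omega) (by omega) (by omega) (by omega))
    | exact hY (mv hff (by omega) (by omega) (by omega) (by omega))
    | exact hP (mv hff (by omega) (by omega) (by omega) (by omega))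
    | exact kld hf t (by omega) (by omega) (by omega) (by omega) (by omega) hff
    | exact kld hf k7 (by omega) (by omega) (by omega) (by omega) (by omega) hff
    | exact klu hf k2 (by omega) (by omega) (by omega) (by omega) (by omega) hff
    | exact klu hf k5 (by omega) (by omega) (by omega) (by omega) (by omega) hff
    | exact klu hf k6 (by omega) (by omega) (by omega) (by omega) (by omega) hff
    | exact hf.not_allEven hff ⟨by omega, by omega, by omega, by omega⟩
    | exact W.a1 (by omega) (by omega) (by omega)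
        (mv hff (by omega : B + 2 = _) (by omega : r + 1 = _) rfl rfl)
  refine absurd ((hf (B + 1) (r + 2) (2 * n + 2) (e - 1)).2 ⟨by omega, ?_⟩)
    (kld hf h1 (by omega) (by omega) (by omega) (by omega) (by omega))
  intro p q u v hp hq hu hv hs _ _ _ _ hff
  rcases (show p = 0 ∨ p = 1 by omega) with rfl | rfl <;>
  rcases (show q = 0 ∨ q = 1 by omega) with rfl | rfl <;>
  rcases (show u = 0 ∨ u = 1 by omega) with rfl | rfl <;>
  rcases (show v = 0 ∨ v = 1 by omega) with rfl | rfl <;>
  first
  | omega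
  | exact kld hf h1 (by omega) (by omega) (by omega) (by omega) (by omega) hff
  | exact klu hf k2 (by omega) (by omega) (by omega) (by omega) (by omega) hff
  | exact klu hf k5 (by omega) (by omega) (by omega) (by omega) (by omega) hff
  | exact klu hf k6 (by omega) (by omega) (by omega) (by omega) (by omega) hff
  | exact hf.not_allEven hff ⟨by omega, by omega, by omega, by omega⟩
  | exact absurd ((W.b1 (by omega) (by omega) (by omega)).1
      (mv hff (by omega : B = _) (by omega : r + 1 = _) rfl rfl)) (by unfold V1; omega)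

/-- The column `2 n + 1`. -/
theorem L0In.col (hf : Rule f) (W : L0In f B r h n)
    (tip : f (B + 2) (r + 2) (2 * n + 1) (2 * n)) :
    ∀ t : ℕ, t + 2 ≤ h → f (B + 2) (r + 2) (2 * n + 1) (2 * (n - t)) := by
  have e4 := W.hn
  intro t
  induction t with
  | zero => exact fun _ => tip
  | succ t ih =>
    intro ht
    have h1 := ih (by omega)
    rcases Nat.lt_or_ge (t + 3) h with h2 | h2
    · exact W.step hf (by omega) (by omega) (by omega) (mv h1 rfl rfl rfl (by omega))
    · exact W.last hf (by omega) (mv h1 rfl rfl rfl (by omega))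

/-- The field `L0`. -/
theorem L0In.main (hf : Rule f) (W : L0In f B r h n)
    (tip : f (B + 2) (r + 2) (2 * n + 1) (2 * n)) (x y : ℕ) (hyx : y ≤ x)
    (hd : x + 3 ≤ y + 2 * h) (hx : x = 2 * n + 1 ∨ x = 2 * n + 2) :
    f (B + 2) (r + 2) x y ↔ Fst (B + 2) (r + 2) x y := by
  have e1 := W.hB
  have e2 := W.hr
  have e3 := W.hk
  have e4 := W.hn
  have e5 := W.ph
  have e6 := W.big
  have e7 := W.hh
  have hF : Fst (B + 2) (r + 2) x y ↔ V0 h x y := by
    have := fst0 (a := B + 2) (b := r + 2) (x := x) (y := y) (by omega) (by omega) hyx (by omega)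
    rw [e7] at this
    exact this
  rw [hF]
  have hc : ∀ y : ℕ, y % 2 = 0 → 2 * n + 4 ≤ y + 2 * h → y ≤ 2 * n →
      f (B + 2) (r + 2) (2 * n + 1) y := by
    intro y h1 h2 h3
    exact mv (W.col hf tip (n - y / 2) (by omega)) rfl rfl rfl (by omega)
  rcases hx with rfl | rfl
  · rcases Nat.mod_two_eq_zero_or_one y with hy | hy
    · exact iff_of_true (hc y hy (by omega) (by omega)) (by unfold V0; omega)
    · refine iff_of_false ?_ (by unfold V0; omega)
      rcases Nat.lt_or_ge (2 * n) y with h1 | h1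
      · exact klu hf tip (by omega) (by omega) (by omega) (by omega) (by omega)
      · exact kld hf (hc (y + 1) (by omega) (by omega) (by omega)) (by omega) (by omega)
          (by omega) (by omega) (by omega)
  · refine iff_of_false ?_ (by unfold V0; omega)
    intro q
    rcases Nat.mod_two_eq_zero_or_one y with hy | hy
    · exact hf.not_allEven q ⟨by omega, by omega, by omega, by omega⟩
    · exact klu hf (hc (y - 1) (by omega) (by omega) (by omega)) (by omega) (by omega)
        (by omega) (by omega) (by omega) q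

end Pool.Agent.SNT.LW

namespace Pool.Agent.SNT.S6

open Pool.Agent.SNT.LW

/-- The field `L0` for the leader `6 k + 8`. -/
theorem topL0_8 {f : ℕ → ℕ → ℕ → ℕ → Prop} (hf : Rule f) {k b m : ℕ} (hs : Side k b m)
    (S : Stack6 f k b m 0 0 0 0 1 1)
    (tip : f (6 * k + 8) (b + 20) (2 * (m + 7 + (k + 2) * 4) + 1)
      (2 * (m + 7 + (k + 2) * 4))) (x y : ℕ) (hyx : y ≤ x) (hd : x + 1 ≤ y + 2 * k)
    (hx : x = 2 * (m + 7 + (k + 2) * 4) + 1 ∨ x = 2 * (m + 7 + (k + 2) * 4) + 2) :
    f (6 * k + 8) (b + 20) x y ↔ Fst (6 * k + 8) (b + 20) x y := by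
  obtain ⟨hk, hb, hph, hbig, hm⟩ := hs
  have W : L0In f (6 * k + 6) (b + 18) (k + 1) (m + 7 + (k + 2) * 4) := by
    refine ⟨by omega, by omega, by omega, by omega, by omega, by omega, by omega, by omega,
      by omega, by omega, ⟨m + 4 + (k + 2) * 4, by omega, ?_⟩,
      ⟨b + 16, m + 7 + (k + 2) * 3, by omega, by omega, ?_⟩, ?_,
      ⟨m + 9 + (k + 2) * 3, by omega, ?_⟩⟩
    · have := S.l6 4
      have e1 : b + 2 + 4 * 4 = b + 18 := by omega
      have e2 : m + 4 + 0 + (k + 2) * 4 = m + 4 + (k + 2) * 4 := by omega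
      rw [e1, e2] at this
      exact this
    · exact (S.l8 3).cast (by omega) (by omega) (by omega)
    · exact (S.l8 4).cast (by omega) (by omega) (by omega)
    · exact (S.l10 3).cast (by omega) (by omega) (by omega)
  have e1 : 6 * k + 6 + 2 = 6 * k + 8 := by omega
  have e2 : b + 18 + 2 = b + 20 := by omega
  have h := W.main hf
  rw [e1, e2] at h
  exact h tip x y hyx (by omega) hx

end Pool.Agent.SNT.S6
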