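import Pool.Agent.SNT.LocR8x

set_option autoImplicit false
set_option synthInstance.maxSize 100000
set_option synthInstance.maxHeartbeats 4000000

/-! LOCATION of the leader `6 k + 8`: the field `z2` in the exterior: the layer `6 k + 7` in the row `c + 2`, `c = b + 20`
the IN row of the leader, from the column `2 n + 6` on. -/

namespace Pool.Agent.SNT.LocR8

open Pool.Agent.SNT Pool.Agent.SNT.Loc Pool.Agent.SNT.ExtC Pool.Agent.SNT.TipI Pool.Agent.SNT.LocZ Pool.Agent.SNT.LocG

variable {f : ℕ → ℕ → ℕ → ℕ → Prop}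

theorem z2p2_chk : check 5 10 13 11 0 0 1 1 0
    (fun j n p q => decide ((j = 4 ∧ n = 2 ∧ q ≤ p + 6 ∧ ((p + q + 1) % 4 = 0))
      ∨ (j = 4 ∧ n = 5 ∧ 8 ≤ p ∧ q ≤ p + 6 ∧ ((p + q + 0) % 4 = 0))
      ∨ (j = 2 ∧ n = 3 ∧ 2 ≤ p ∧ q ≤ p + 6 ∧ ((p + q + 0) % 4 = 0))
      ∨ (j = 5 ∧ n = 8 ∧ p = 11 ∧ q = 9)))
    (fun j n p q => decide ((j = 4 ∧ n = 2 ∧ q ≤ p + 6 ∧ ¬ ((p + q + 1) % 4 = 0))
      ∨ (j = 4 ∧ n = 5 ∧ 8 ≤ p ∧ q ≤ p + 6 ∧ ¬ ((p + q + 0) % 4 = 0))
      ∨ (j = 2 ∧ n = 3 ∧ 2 ≤ p ∧ q ≤ p + 6 ∧ ¬ ((p + q + 0) % 4 = 0))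
      ∨ (j = 1)
      ∨ (j = 3 ∧ n = 5 ∧ q ≤ p + 5)
      ∨ (j = 3 ∧ n = 6 ∧ 6 ≤ p ∧ q ≤ p + 5)))
    171
    0x1026830d0d800d08800d0d810d08810cba800cba810c73800c67800c73810c67810c20800c14800c20810c148105ef8005e380063d3a06313a064280063d8006368006318006903a068b3a06d78006843a067f3a06cb801074000cc6800cc1800cbf800bde800bd9800bd2800bcd800bc6800bc180069580069080068b8006d781068980068480067f8006cb81067d8006788010740f0d0e070d0d070d03070cc68f0cc6070cc5870cc18f0cc1070cc0870cc0070cbf8f0c73070c67070bde8f0bd98f0bd9070bd8870bd3870bd3070bd28f0bcd8f0bcd070bcc870bc7870bc7070bc68f0bc18f0a42870a42070a3d870a3d070a3c870a38070a378709fb0709fa8709f60709f58709f50709f08709f00709ef8709ef0709ea0709e98706d20706c60706958f06908f069007068f87068b8f068b07068a87068a0706898f06858706850706848f068407068387067f8f067f07067e87067e07067d8f06798706790706788f064307063707062b07040c87040c0704070704068704008704000703fb0703fa8703c50703c48703c00703bf8703bf0703ba8703ba0703b90703b88703b40703b38703b30703ae8703ae07037d87037d07037887037807037787037307037287037207037187037107036c87036c07036b87036707036687036607036587036087036007032a87032a07032507032487031e87031e07031907031887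 = true := by
  decide +kernel

/-- The cell `(6 k + 3, c + 2, N + 4, Y)`, `Y` even, `N + Y ≡ 2 k + 2`. -/
theorem z2p2 (hf : Rule f) {k c N Y E : ℕ} (hk : 8 ≤ k) (hc : c % 2 = 0) (h4 : (6 * k + 8 + c) % 4 = 2)
    (hN : N % 2 = 0) (hc2 : 10 ≤ c) (hY9 : 10 ≤ Y) (hY : (N + Y + 2 * k) % 4 = 2) (hd : Y + 2 * k + 4 ≤ N)
    (hE : N + 12 ≤ Y + E)
    (hL : ∀ {M R x y : ℕ}, M + 1 = 6 * k → c ≤ R + 6 → R ≤ c + 2 → N ≤ x + 8 → y ≤ x → x ≤ y + E → ¬ f M R x y)
    (C2 : ∀ {M R x y : ℕ}, M = 6 * k + 2 → R + 4 = c → N < x + 8 → y + 2 * k ≤ x → x ≤ y + E →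
      (f M R x y ↔ (M + R + x + y) % 4 = (1 + 2 * k) % 4))
    (C2b : ∀ {M R x y : ℕ}, M = 6 * k + 2 → R + 1 = c → N < x → y + 2 * k ≤ x → x ≤ y + E →
      (f M R x y ↔ (M + R + x + y) % 4 = (1 + 2 * k) % 4))
    (C0b : ∀ {M R x y : ℕ}, M = 6 * k → R + 3 = c → N < x + 6 → y + 2 * k ≤ x → x ≤ y + E →
      (f M R x y ↔ (M + R + x + y) % 4 = (1 + 2 * k) % 4))
    (Pm : ∀ {M R x y : ℕ}, M = 6 * k + 1 → R + 1 = c → N < x + 20 → y + 2 * k + 1 ≤ x → x ≤ y + E → ¬ f M R x y)
    (P0 : ∀ {M R x y : ℕ}, M = 6 * k + 1 → R = c → N < x + 2 → y + 2 * k + 1 ≤ x → x ≤ y + E → ¬ f M R x y) :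
    ¬ f (6 * k + 3) (c + 2) (N + 4) Y := by
  intro h0
  have h1 : ∀ {M R x y : ℕ}, M = 6 * k + 3 → R = c + 2 → x = N + 4 → y = Y → f M R x y := by
    intro M R x y e1 e2 e3 e4
    subst e1 e2 e3 e4
    exact h0
  obtain ⟨a0, ha0⟩ : ∃ z, z + 2 = 6 * k := ⟨6 * k - 2, by omega⟩
  obtain ⟨b0, hb0⟩ : ∃ z, z + 6 = c := ⟨c - 6, by omega⟩
  obtain ⟨x0, hx0⟩ : ∃ z, z + 7 = N := ⟨N - 7, by omega⟩
  obtain ⟨y0, hy0⟩ : ∃ z, z + 9 = Y := ⟨Y - 9, by omega⟩
  refine check_sound hf (a0 := a0) (b0 := b0) (x0 := x0) (y0 := y0) z2p2_chk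
    ⟨fun h => absurd h (by decide), fun h => absurd h (by decide), fun h => absurd h (by decide), by omega, by omega,
      by omega, by omega⟩ ?_ ?_
  · intro j m p q hr h
    obtain ⟨-, -, hm1, hm2, hp1, hp2, hq1, hq2⟩ := hr
    replace h := of_decide_eq_true h
    rcases h with h | h | h | h
    · obtain ⟨rfl, rfl, h⟩ := h
      exact (C2 (by omega) (by omega) (by omega) (by omega) (by omega)).mpr (by omega)
    · obtain ⟨rfl, rfl, h⟩ := h
      exact (C2b (by omega) (by omega) (by omega) (by omega) (by omega)).mpr (by omega)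
    · obtain ⟨rfl, rfl, h⟩ := h
      exact (C0b (by omega) (by omega) (by omega) (by omega) (by omega)).mpr (by omega)
    · obtain ⟨rfl, rfl, rfl, rfl⟩ := h
      exact h1 (by omega) (by omega) (by omega) (by omega)
  · intro j m p q hr h
    obtain ⟨-, -, hm1, hm2, hp1, hp2, hq1, hq2⟩ := hr
    replace h := of_decide_eq_true h
    rcases h with h | h | h | h | h | h
    · obtain ⟨rfl, rfl, h⟩ := h
      exact mt (C2 (by omega) (by omega) (by omega) (by omega) (by omega)).mp (by omega)
    · obtain ⟨rfl, rfl, h⟩ := h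
      exact mt (C2b (by omega) (by omega) (by omega) (by omega) (by omega)).mp (by omega)
    · obtain ⟨rfl, rfl, h⟩ := h
      exact mt (C0b (by omega) (by omega) (by omega) (by omega) (by omega)).mp (by omega)
    · obtain rfl := h
      exact hL (by omega) (by omega) (by omega) (by omega) (by omega) (by omega)
    · obtain ⟨rfl, rfl, h⟩ := h
      exact Pm (by omega) (by omega) (by omega) (by omega) (by omega)
    · obtain ⟨rfl, rfl, h⟩ := h
      exact P0 (by omega) (by omega) (by omega) (by omega) (by omega)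

theorem z2p0_chk : check 2 5 4 4 1 1 0 0 0
    (fun j n p q => decide ((j = 1 ∧ n = 1 ∧ ((p + q + 3) % 4 = 0))
      ∨ (j = 2 ∧ n = 3 ∧ p = 2 ∧ q = 2)))
    (fun j n p q => decide ((j = 1 ∧ n = 1 ∧ ¬ ((p + q + 3) % 4 = 0))
      ∨ (j = 2 ∧ n = 1)))
    11
    0x6503006d00006d0f005d07005c87005b07005a87003507003487003307003287 = true := by
  decide +kernel

/-- The cell `(6 k + 3, c + 2, N + 4, Y)`, `Y` even, `N + Y ≡ 2 k`. -/
theorem z2p0 (hf : Rule f) {k c N Y E : ℕ} (hk : 8 ≤ k) (hc : c % 2 = 0) (h4 : (6 * k + 8 + c) % 4 = 2)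
    (hN : N % 2 = 0) (hc2 : 10 ≤ c) (hY9 : 10 ≤ Y) (hY : (N + Y + 2 * k) % 4 = 0) (hd : Y + 2 * k + 4 ≤ N)
    (hE : N + 12 ≤ Y + E)
    (C2c : ∀ {M R x y : ℕ}, M = 6 * k + 2 → R = c → N + 2 < x → y + 2 * k ≤ x → x ≤ y + E →
      (f M R x y ↔ (M + R + x + y) % 4 = (1 + 2 * k) % 4))
    (Q0 : ∀ {M R x y : ℕ}, M = 6 * k + 3 → R = c → N < x → y + 2 * k + 2 ≤ x → x ≤ y + E → ¬ f M R x y) :
    ¬ f (6 * k + 3) (c + 2) (N + 4) Y := by
  intro h0
  have h1 : ∀ {M R x y : ℕ}, M = 6 * k + 3 → R = c + 2 → x = N + 4 → y = Y → f M R x y := by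
    intro M R x y e1 e2 e3 e4
    subst e1 e2 e3 e4
    exact h0
  obtain ⟨a0, ha0⟩ : ∃ z, z = 6 * k + 1 := ⟨_, rfl⟩
  obtain ⟨b0, hb0⟩ : ∃ z, z + 1 = c := ⟨c - 1, by omega⟩
  obtain ⟨x0, hx0⟩ : ∃ z, z = N + 2 := ⟨_, rfl⟩
  obtain ⟨y0, hy0⟩ : ∃ z, z + 2 = Y := ⟨Y - 2, by omega⟩
  refine check_sound hf (a0 := a0) (b0 := b0) (x0 := x0) (y0 := y0) z2p0_chk
    ⟨fun h => absurd h (by decide), fun h => absurd h (by decide), fun h => absurd h (by decide), by omega, by omega,
      by omega, by omega⟩ ?_ ?_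
  · intro j m p q hr h
    obtain ⟨-, -, hm1, hm2, hp1, hp2, hq1, hq2⟩ := hr
    replace h := of_decide_eq_true h
    rcases h with h | h
    · obtain ⟨rfl, rfl, h⟩ := h
      exact (C2c (by omega) (by omega) (by omega) (by omega) (by omega)).mpr (by omega)
    · obtain ⟨rfl, rfl, rfl, rfl⟩ := h
      exact h1 (by omega) (by omega) (by omega) (by omega)
  · intro j m p q hr h
    obtain ⟨-, -, hm1, hm2, hp1, hp2, hq1, hq2⟩ := hr
    replace h := of_decide_eq_true h
    rcases h with h | h
    · obtain ⟨rfl, rfl, h⟩ := h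
      exact mt (C2c (by omega) (by omega) (by omega) (by omega) (by omega)).mp (by omega)
    · obtain ⟨rfl, rfl⟩ := h
      exact Q0 (by omega) (by omega) (by omega) (by omega) (by omega)

/-- The exterior zones with a larger bound of the distances. -/
theorem X8.of_stackE (hf : Rule f) {k b m : ℕ} (hs : Side k b m) (S : Stack6 f k b m 0 0 0 0 1 1)
    (D2 : Cyc f (6 * k + 2) (b + 18) (2 * (m + 5 + (k + 2) * 4) + 2))
    (D0 : Cyc f (6 * k) (b + 16) (2 * (m + 2 + (k + 2) * 4) + 2)) :
    X8 f k (b + 20) (2 * (m + 7 + (k + 2) * 4)) (b / 2 + 40) := by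
  obtain ⟨hk, hb2, hb4, hbk, hbm⟩ := hs
  have e4 : (k + 2) * 4 = 4 * k + 8 := by ring
  have e3 : (k + 2) * 3 = 3 * k + 6 := by ring
  have g0 : 6 * k / 6 = k := by omega
  have g2 : (6 * k + 2) / 6 = k := by omega
  have g4 : (6 * k + 4) / 6 = k := by omega
  obtain ⟨N, hN⟩ : ∃ N, N = 2 * (m + 7 + (k + 2) * 4) := ⟨_, rfl⟩
  obtain ⟨E, hE⟩ : ∃ E, E = b / 2 + 40 := ⟨_, rfl⟩
  obtain ⟨X, hX⟩ : ∃ X, X = 2 * m - (100 * k + 1000) := ⟨_, rfl⟩
  rw [← hN, ← hE]
  -- the layer `6 k - 1`
  have z : ∀ r V : ℕ, b + 4 ≤ r → r ≤ b + 40 → X ≤ V → Ze f (6 * k - 1) r V 0 (E + 20) := by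
    intro r V h1 h2 h3
    have h4 := S.lw (r - b) (by omega)
    have e : b + (r - b) = r := by omega
    rw [e, ← hX] at h4
    exact Ze.of_st (by omega) (by omega) h4 h3
  -- the cycles
  have C0m := S.l0 3
  have C0 := D0
  have C2m := S.l2 3
  have C2 := D2
  have C4 := S.l4 4
  rw [e3] at C0m C2m
  rw [e4] at C0 C2 C4 hN
  -- the layer `6 k + 1` in the odd rows
  have qo : ∀ r : ℕ, b + 8 ≤ r → r ≤ b + 30 → r % 2 = 0 →
      Ze f (6 * k + 1) (r + 1) (N - 20) 1 (E + 19) := by
    intro r h1 h2 h3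
    have := Ze.odd hf (L := 6 * k) (P := 6 * k - 1) (Q := 6 * k + 1) (r := r) (V := N - 21) (D := 0)
      (E := E + 20) (by omega) (by omega) (by omega) h3 (z _ _ (by omega) (by omega) (by omega))
      (z _ _ (by omega) (by omega) (by omega)) (by omega)
    exact this.mono (by omega) (by omega) (by omega)
  -- `6 k` in the row `c - 5`
  have t1 : Ex f (6 * k) (b + 15) (N - 10) (2 * k + 1) (E + 19) :=
    (Ex.step hf (L := 6 * k) (P := 6 * k - 1) (r := b + 14) (V := N - 12) (D := 2 * k) (DP := 1)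
      (E := E + 20) (by omega) (by omega) (by omega) (by omega) (by omega) (by omega)
      (Ex.of_r2x C0m (by omega) (by omega) (by omega))
      ((z _ _ (by omega) (by omega) (by omega)).mono le_rfl (by omega) le_rfl)
      ((z _ _ (by omega) (by omega) (by omega)).mono le_rfl (by omega) le_rfl)
      (D' := 2 * k + 1) (by omega) (by omega) le_rfl).mono (by omega) le_rfl (by omega)
  have t2 : Ze f (6 * k + 1) (b + 16) (N - 9) (2 * k + 1) (E + 18) :=
    (Ze.even hf (L := 6 * k) (P := 6 * k - 1) (r := b + 15) (V := N - 10) (W := N - 20)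
      (D := 2 * k + 1) (DP := 0) (E := E + 19) (by omega) (by omega) (by omega) (by omega)
      (by omega) (by omega) (by omega) (by omega) t1
      ((z _ _ (by omega) (by omega) (by omega)).mono le_rfl le_rfl (by omega))
      ((z _ _ (by omega) (by omega) (by omega)).mono le_rfl le_rfl (by omega))
      (V' := N - 9) (D' := 2 * k + 1) (by omega) (Or.inl (by omega)) le_rfl (by omega)).mono
      le_rfl le_rfl (by omega)
  have t5 : Ex f (6 * k + 2) (b + 17) (N - 6) (2 * k + 2) (E + 17) :=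
    (Ex.step hf (L := 6 * k + 2) (P := 6 * k + 1) (r := b + 16) (V := N - 8) (D := 2 * k)
      (DP := 2 * k + 1) (E := E + 18) (by omega) (by omega) (by omega) (by omega) (by omega)
      (by omega) (Ex.of_r2x C2m (by omega) (by omega) (by omega))
      ((qo (b + 16) (by omega) (by omega) (by omega)).mono (by omega) (by omega) (by omega))
      (t2.mono (by omega) le_rfl le_rfl) (D' := 2 * k + 2) (by omega) (by omega) (by omega)).mono
      (by omega) le_rfl (by omega)
  have t6 : Ze f (6 * k + 1) (b + 18) (N - 5) (2 * k) (E + 17) :=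
    (Ze.even hf (L := 6 * k) (P := 6 * k - 1) (r := b + 17) (V := N - 6) (W := N - 20)
      (D := 2 * k) (DP := 0) (E := E + 18) (by omega) (by omega) (by omega) (by omega)
      (by omega) (by omega) (by omega) (by omega) (Ex.of_st C0.r1 (by omega))
      ((z _ _ (by omega) (by omega) (by omega)).mono le_rfl le_rfl (by omega))
      ((z _ _ (by omega) (by omega) (by omega)).mono le_rfl le_rfl (by omega))
      (V' := N - 5) (D' := 2 * k) (by omega) (Or.inl (by omega)) le_rfl (by omega)).mono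
      le_rfl le_rfl (by omega)
  have t7 : Ze f (6 * k + 3) (b + 18) (N - 4) (2 * k + 2) (E + 16) :=
    (Ze.even hf (L := 6 * k + 2) (P := 6 * k + 1) (r := b + 17) (V := N - 6) (W := N - 5)
      (D := 2 * k + 2) (DP := 2 * k) (E := E + 17) (by omega) (by omega) (by omega) (by omega)
      (by omega) (by omega) (by omega) (by omega) t5 t6
      ((qo (b + 16) (by omega) (by omega) (by omega)).mono (by omega) (by omega) (by omega))
      (V' := N - 4) (D' := 2 * k + 2) (by omega) (Or.inl (by omega)) le_rfl (by omega)).mono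
      le_rfl le_rfl (by omega)
  have t8 : Ze f (6 * k + 3) (b + 19) (N - 4) (2 * k + 1) (E + 16) :=
    (Ze.odd hf (L := 6 * k + 2) (P := 6 * k + 1) (Q := 6 * k + 3) (r := b + 18) (V := N - 5)
      (D := 2 * k) (E := E + 17) (by omega) (by omega) (by omega) (by omega)
      ((qo (b + 18) (by omega) (by omega) (by omega)).mono (by omega) (by omega) (by omega)) t6
      (by omega)).mono (by omega) le_rfl (by omega)
  have t9 : Ex f (6 * k + 4) (b + 19) (N - 2) (2 * k + 3) (E + 15) :=
    (Ex.step hf (L := 6 * k + 4) (P := 6 * k + 3) (r := b + 18) (V := N - 4) (D := 2 * k)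
      (DP := 2 * k + 2) (E := E + 16) (by omega) (by omega) (by omega) (by omega) (by omega)
      (by omega) (Ex.of_r2x C4 (by omega) (by omega) (by omega))
      (t8.mono (by omega) (by omega) le_rfl) (t7.mono (by omega) le_rfl le_rfl)
      (D' := 2 * k + 3) (by omega) (by omega) (by omega)).mono (by omega) le_rfl (by omega)
  have t10 : Ex f (6 * k) (b + 19) (N - 2) (2 * k + 1) (E + 17) :=
    (Ex.step hf (L := 6 * k) (P := 6 * k - 1) (r := b + 18) (V := N - 4) (D := 2 * k)
      (DP := 1) (E := E + 18) (by omega) (by omega) (by omega) (by omega) (by omega) (by omega)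
      (Ex.of_r2x C0 (by omega) (by omega) (by omega))
      ((z _ _ (by omega) (by omega) (by omega)).mono le_rfl (by omega) (by omega))
      ((z _ _ (by omega) (by omega) (by omega)).mono le_rfl (by omega) (by omega))
      (D' := 2 * k + 1) (by omega) (by omega) le_rfl).mono (by omega) le_rfl (by omega)
  have t11 : Ze f (6 * k + 1) (b + 20) (N - 2) (2 * k + 1) (E + 16) :=
    (Ze.even hf (L := 6 * k) (P := 6 * k - 1) (r := b + 19) (V := N - 2) (W := N - 20)
      (D := 2 * k + 1) (DP := 0) (E := E + 17) (by omega) (by omega) (by omega) (by omega)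
      (by omega) (by omega) (by omega) (by omega) t10
      ((z _ _ (by omega) (by omega) (by omega)).mono le_rfl le_rfl (by omega))
      ((z _ _ (by omega) (by omega) (by omega)).mono le_rfl le_rfl (by omega))
      (V' := N - 2) (D' := 2 * k + 1) (by omega) (Or.inr ⟨le_rfl, by omega⟩) le_rfl
      (by omega)).mono le_rfl le_rfl (by omega)
  have t12 : Ze f (6 * k + 3) (b + 21) (N - 1) (2 * k + 2) (E + 15) :=
    (Ze.odd hf (L := 6 * k + 2) (P := 6 * k + 1) (Q := 6 * k + 3) (r := b + 20) (V := N - 2)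
      (D := 2 * k + 1) (E := E + 16) (by omega) (by omega) (by omega) (by omega)
      ((qo (b + 20) (by omega) (by omega) (by omega)).mono (by omega) (by omega) (by omega)) t11
      (by omega)).mono (by omega) le_rfl (by omega)
  have t13 : Ze f (6 * k + 3) (b + 20) N (2 * k + 2) (E + 14) :=
    (Ze.even hf (L := 6 * k + 2) (P := 6 * k + 1) (r := b + 19) (V := N) (W := N - 1)
      (D := 2 * k) (DP := 2 * k + 1) (E := E + 15) (by omega) (by omega) (by omega) (by omega)
      (by omega) (by omega) (by omega) (by omega) (Ex.of_st C2.r1 (by omega))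
      (t11.mono (by omega) le_rfl (by omega))
      ((qo (b + 18) (by omega) (by omega) (by omega)).mono (by omega) (by omega) (by omega))
      (V' := N) (D' := 2 * k + 2) (by omega) (Or.inr ⟨le_rfl, by omega⟩) (by omega)
      (by omega)).mono le_rfl le_rfl (by omega)
  have t14 : Ze f (6 * k + 5) (b + 20) (N + 1) (2 * k + 3) (E + 13) :=
    (Ze.even hf (L := 6 * k + 4) (P := 6 * k + 3) (r := b + 19) (V := N - 2) (W := N)
      (D := 2 * k + 3) (DP := 2 * k + 2) (E := E + 14) (by omega) (by omega) (by omega) (by omega)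
      (by omega) (by omega) (by omega) (by omega) (t9.mono le_rfl le_rfl (by omega)) t13
      (t8.mono (by omega) (by omega) (by omega))
      (V' := N + 1) (D' := 2 * k + 3) (by omega) (Or.inl (by omega)) (by omega)
      (by omega)).mono le_rfl le_rfl (by omega)
  have t15 : Ze f (6 * k + 5) (b + 21) (N + 1) (2 * k + 3) (E + 13) :=
    (Ze.odd hf (L := 6 * k + 4) (P := 6 * k + 3) (Q := 6 * k + 5) (r := b + 20) (V := N)
      (D := 2 * k + 2) (E := E + 14) (by omega) (by omega) (by omega) (by omega)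
      (t12.mono (by omega) le_rfl (by omega)) t13 (by omega)).mono (by omega) le_rfl (by omega)
  have t16 : Ze f (6 * k + 7) (b + 21) (N + 2) (2 * k + 4) (E + 12) :=
    (Ze.odd hf (L := 6 * k + 6) (P := 6 * k + 5) (Q := 6 * k + 7) (r := b + 20) (V := N + 1)
      (D := 2 * k + 3) (E := E + 13) (by omega) (by omega) (by omega) (by omega)
      t15 t14 (by omega)).mono (by omega) le_rfl (by omega)
  have r2 : b + 20 - 2 = b + 18 := by omega
  have r1 : b + 20 - 1 = b + 19 := by omega
  refine ⟨?_, ?_, ?_, ?_, ?_, ?_, ?_, ?_, ?_, ?_, ?_⟩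
  · rw [r2]; exact t6.mono le_rfl le_rfl (by omega)
  · exact t11.mono le_rfl le_rfl (by omega)
  · rw [r2]; exact t7.mono le_rfl le_rfl (by omega)
  · rw [r1]; exact t8.mono le_rfl le_rfl (by omega)
  · exact t13.mono le_rfl le_rfl (by omega)
  · exact t12.mono le_rfl le_rfl (by omega)
  · exact t14.mono le_rfl le_rfl (by omega)
  · exact t15.mono le_rfl le_rfl (by omega)
  · exact t16.mono le_rfl le_rfl (by omega)
  · rw [r1]; exact t10.mono le_rfl le_rfl (by omega)
  · rw [r1]; exact t9.mono le_rfl le_rfl (by omega)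


/-- The field `z2` in the exterior. -/
theorem z2_ext (hf : Rule f) {k b m : ℕ} (hs : Side k b m) (S : Stack6 f k b m 0 0 0 0 1 1)
    (D2 : Cyc f (6 * k + 2) (b + 18) (2 * (m + 5 + (k + 2) * 4) + 2))
    (D0 : Cyc f (6 * k) (b + 16) (2 * (m + 2 + (k + 2) * 4) + 2)) (x y : ℕ)
    (hx : 2 * (m + 7 + (k + 2) * 4) + 6 ≤ x) (hd : y + 2 * k + 10 ≤ x) (hn : 2 * x < 2 * y + b) :
    ¬ f (6 * k + 7) (b + 22) x y := by
  have X := X8.of_stackE hf hs S D2 D0
  obtain ⟨hk, hb2, hb4, hbk, hbm⟩ := hs
  have e4 : (k + 2) * 4 = 4 * k + 8 := by ring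
  have e3 : (k + 2) * 3 = 3 * k + 6 := by ring
  have g0 : 6 * k / 6 = k := by omega
  have g2 : (6 * k + 2) / 6 = k := by omega
  have g4 : (6 * k + 4) / 6 = k := by omega
  have g6 : (6 * k + 6) / 6 = k + 1 := by omega
  obtain ⟨N, hN⟩ : ∃ N, N = 2 * (m + 7 + (k + 2) * 4) := ⟨_, rfl⟩
  obtain ⟨E, hE⟩ : ∃ E, E = b / 2 + 40 := ⟨_, rfl⟩
  rw [← hN, ← hE] at X
  rw [← hN] at hx
  obtain ⟨Z, hZ⟩ : ∃ Z, Z = 2 * m - (100 * k + 1000) := ⟨_, rfl⟩
  have z : ∀ r V : ℕ, b + 4 ≤ r → r ≤ b + 40 → Z ≤ V → Ze f (6 * k - 1) r V 0 (E + 20) := by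
    intro r V h1 h2 h3
    have h4 := S.lw (r - b) (by omega)
    have e : b + (r - b) = r := by omega
    rw [e, ← hZ] at h4
    exact Ze.of_st (by omega) (by omega) h4 h3
  have C2m := S.l2 3
  have C6 := S.l6 4
  rw [e3] at C2m
  rw [e4] at D0 D2 C6 hN
  have qo : ∀ r : ℕ, b + 8 ≤ r → r ≤ b + 30 → r % 2 = 0 →
      Ze f (6 * k + 1) (r + 1) (N - 20) 1 (E + 19) := by
    intro r h1 h2 h3
    have := Ze.odd hf (L := 6 * k) (P := 6 * k - 1) (Q := 6 * k + 1) (r := r) (V := N - 21) (D := 0)
      (E := E + 20) (by omega) (by omega) (by omega) h3 (z _ _ (by omega) (by omega) (by omega))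
      (z _ _ (by omega) (by omega) (by omega)) (by omega)
    exact this.mono (by omega) (by omega) (by omega)
  have r1 : b + 20 - 1 = b + 19 := by omega
  have x0 := X.e0
  have x4 := X.e4
  rw [r1] at x0 x4
  -- the layer `6 k`
  have a1 : Ex f (6 * k) (b + 20) N (2 * k + 2) (E - 1) :=
    (Ex.step hf (L := 6 * k) (P := 6 * k - 1) (r := b + 19) (V := N - 2) (D := 2 * k + 1) (DP := 1)
      (E := E) (by omega) (by omega) (by omega) (by omega) (by omega) (by omega) x0
      ((z _ _ (by omega) (by omega) (by omega)).mono le_rfl (by omega) (by omega))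
      ((z _ _ (by omega) (by omega) (by omega)).mono le_rfl (by omega) (by omega))
      (D' := 2 * k + 2) (by omega) (by omega) le_rfl).mono (by omega) le_rfl (by omega)
  have a2 : Ex f (6 * k) (b + 21) (N + 2) (2 * k + 3) (E - 2) :=
    (Ex.step hf (L := 6 * k) (P := 6 * k - 1) (r := b + 20) (V := N) (D := 2 * k + 2) (DP := 1)
      (E := E - 1) (by omega) (by omega) (by omega) (by omega) (by omega) (by omega) a1
      ((z _ _ (by omega) (by omega) (by omega)).mono le_rfl (by omega) (by omega))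
      ((z _ _ (by omega) (by omega) (by omega)).mono le_rfl (by omega) (by omega))
      (D' := 2 * k + 3) (by omega) (by omega) le_rfl).mono (by omega) le_rfl (by omega)
  have p1 : Ze f (6 * k + 1) (b + 22) (N + 2) (2 * k + 3) (E - 3) :=
    (Ze.even hf (L := 6 * k) (P := 6 * k - 1) (r := b + 21) (V := N + 2) (W := N - 20)
      (D := 2 * k + 3) (DP := 0) (E := E - 2) (by omega) (by omega) (by omega) (by omega)
      (by omega) (by omega) (by omega) (by omega) a2
      ((z _ _ (by omega) (by omega) (by omega)).mono le_rfl le_rfl (by omega))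
      ((z _ _ (by omega) (by omega) (by omega)).mono le_rfl le_rfl (by omega))
      (V' := N + 2) (D' := 2 * k + 3) (by omega) (Or.inr ⟨le_rfl, by omega⟩) le_rfl
      (by omega)).mono le_rfl le_rfl (by omega)
  -- the layer `6 k + 2`
  have b1 : Ex f (6 * k + 2) (b + 20) (N + 2) (2 * k) E :=
    Ex.of_r2x D2 (by omega) (by omega) (by omega)
  have b2 : Ex f (6 * k + 2) (b + 21) (N + 4) (2 * k + 2) (E - 1) :=
    (Ex.step hf (L := 6 * k + 2) (P := 6 * k + 1) (r := b + 20) (V := N + 2) (D := 2 * k)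
      (DP := 2 * k + 1) (E := E) (by omega) (by omega) (by omega) (by omega) (by omega)
      (by omega) b1
      ((qo (b + 20) (by omega) (by omega) (by omega)).mono (by omega) (by omega) (by omega))
      (X.q0.mono (by omega) le_rfl le_rfl) (D' := 2 * k + 2) (by omega) (by omega) (by omega)).mono
      (by omega) le_rfl (by omega)
  have p3a : Ze f (6 * k + 3) (b + 22) (N + 4) (2 * k + 4) (E - 4) :=
    (Ze.even hf (L := 6 * k + 2) (P := 6 * k + 1) (r := b + 21) (V := N + 4) (W := N + 2)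
      (D := 2 * k + 2) (DP := 2 * k + 3) (E := E - 3) (by omega) (by omega) (by omega) (by omega)
      (by omega) (by omega) (by omega) (by omega) (b2.mono le_rfl le_rfl (by omega)) p1
      ((qo (b + 20) (by omega) (by omega) (by omega)).mono (by omega) (by omega) (by omega))
      (V' := N + 4) (D' := 2 * k + 4) (by omega) (Or.inr ⟨le_rfl, by omega⟩) (by omega)
      (by omega)).mono le_rfl le_rfl (by omega)
  have p3 : Ze f (6 * k + 3) (b + 22) (N + 3) (2 * k + 8) (E - 15) := by
    intro u v h1 h2 h3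
    rcases Nat.lt_or_ge (N + 4) u with h5 | h5
    · exact p3a u v h5 (by omega) (by omega)
    have e : u = N + 4 := by omega
    subst e
    rcases Nat.mod_two_eq_zero_or_one v with h6 | h6
    · -- the certificates
      rcases (show (N + v + 2 * k) % 4 = 2 ∨ (N + v + 2 * k) % 4 = 0 by omega) with h7 | h7
      · refine z2p2 hf (k := k) (c := b + 20) (N := N) (Y := v) (E := E) hk (by omega) (by omega)
          (by omega) (by omega) (by omega) h7 (by omega) (by omega) ?_ ?_ ?_ ?_ ?_ ?_
        · intro M R x y i1 i2 i3 i4 i5 i6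
          have i : M = 6 * k - 1 := by omega
          subst i
          exact z R (N - 20) (by omega) (by omega) (by omega) x y (by omega) (by omega) (by omega)
        · intro M R x y i1 i2 i3 i4 i5
          have i : R = b + 16 := by omega
          subst i1 i
          rw [Ex.of_r2x C2m (V := N - 8) (D := 2 * k) (E := E) (by omega) (by omega) (by omega)
            x y (by omega) (by omega) (by omega),
            fst_ext (by omega) (by omega) (by omega) (by omega) (by omega), g2]
        · intro M R x y i1 i2 i3 i4 i5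
          have i : R = b + 19 := by omega
          subst i1 i
          rw [Ex.of_st D2.r1 (V := N) (D := 2 * k) (E := E) (by omega)
            x y (by omega) (by omega) (by omega),
            fst_ext (by omega) (by omega) (by omega) (by omega) (by omega), g2]
        · intro M R x y i1 i2 i3 i4 i5
          have i : R = b + 17 := by omega
          subst i1 i
          rw [Ex.of_st D0.r1 (V := N - 6) (D := 2 * k) (E := E) (by omega)
            x y (by omega) (by omega) (by omega),
            fst_ext (by omega) (by omega) (by omega) (by omega) (by omega), g0]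
        · intro M R x y i1 i2 i3 i4 i5
          have i : R = b + 18 + 1 := by omega
          subst i1 i
          exact qo (b + 18) (by omega) (by omega) (by omega) x y (by omega) (by omega) (by omega)
        · intro M R x y i1 i2 i3 i4 i5
          subst i1 i2
          exact X.q0 x y (by omega) (by omega) (by omega)
      · refine z2p0 hf (k := k) (c := b + 20) (N := N) (Y := v) (E := E) hk (by omega) (by omega)
          (by omega) (by omega) (by omega) h7 (by omega) (by omega) ?_ ?_
        · intro M R x y i1 i2 i3 i4 i5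
          subst i1 i2
          rw [b1 x y (by omega) (by omega) (by omega),
            fst_ext (by omega) (by omega) (by omega) (by omega) (by omega), g2]
        · intro M R x y i1 i2 i3 i4 i5
          subst i1 i2
          exact X.r0 x y (by omega) (by omega) (by omega)
    · refine eonly hf (A := 6 * k + 2) (by omega) (by omega) ?_
      intro q i s hq hi hs
      have e1 : 6 * k + 2 - 1 = 6 * k + 1 := by omega
      rw [e1]
      rcases Nat.eq_zero_or_pos q with hq0 | hq0
      · subst hq0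
        exact p1 (N + 4 - i) (v - s) (by omega) (by omega) (by omega)
      · have e2 : b + 22 - q = b + 20 + 1 := by omega
        rw [e2]
        exact qo (b + 20) (by omega) (by omega) (by omega) (N + 4 - i) (v - s) (by omega) (by omega)
          (by omega)
  -- the layer `6 k + 4`
  have c1 : Ex f (6 * k + 4) (b + 20) (N + 1) (2 * k + 4) (E - 1) :=
    (Ex.step hf (L := 6 * k + 4) (P := 6 * k + 3) (r := b + 19) (V := N - 1) (D := 2 * k + 3)
      (DP := 2 * k + 2) (E := E) (by omega) (by omega) (by omega) (by omega) (by omega)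
      (by omega) (x4.mono (by omega) le_rfl le_rfl)
      (X.r0.mono (by omega) le_rfl le_rfl) ((r1 ▸ X.r1).mono (by omega) (by omega) le_rfl)
      (D' := 2 * k + 4) (by omega) (by omega) (by omega)).mono (by omega) le_rfl (by omega)
  have c2 : Ex f (6 * k + 4) (b + 21) (N + 3) (2 * k + 5) (E - 2) :=
    (Ex.step hf (L := 6 * k + 4) (P := 6 * k + 3) (r := b + 20) (V := N + 1) (D := 2 * k + 4)
      (DP := 2 * k + 2) (E := E - 1) (by omega) (by omega) (by omega) (by omega) (by omega)
      (by omega) c1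
      (X.rp.mono (by omega) le_rfl (by omega)) (X.r0.mono (by omega) le_rfl (by omega))
      (D' := 2 * k + 5) (by omega) (by omega) (by omega)).mono (by omega) le_rfl (by omega)
  have p5 : Ze f (6 * k + 5) (b + 22) (N + 4) (2 * k + 9) (E - 16) :=
    (Ze.even hf (L := 6 * k + 4) (P := 6 * k + 3) (r := b + 21) (V := N + 3) (W := N + 3)
      (D := 2 * k + 5) (DP := 2 * k + 8) (E := E - 15) (by omega) (by omega) (by omega) (by omega)
      (by omega) (by omega) (by omega) (by omega) (c2.mono le_rfl le_rfl (by omega)) p3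
      (X.rp.mono (by omega) (by omega) (by omega))
      (V' := N + 4) (D' := 2 * k + 9) (by omega) (Or.inl (by omega)) (by omega)
      (by omega)).mono le_rfl le_rfl (by omega)
  -- the layer `6 k + 6`
  have d1 : Ex f (6 * k + 6) (b + 20) N (2 * k + 2) E :=
    Ex.of_r2x C6 (by omega) (by omega) (by omega)
  have d2 : Ex f (6 * k + 6) (b + 21) (N + 2) (2 * k + 4) (E - 1) :=
    (Ex.step hf (L := 6 * k + 6) (P := 6 * k + 5) (r := b + 20) (V := N) (D := 2 * k + 2)
      (DP := 2 * k + 3) (E := E) (by omega) (by omega) (by omega) (by omega) (by omega)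
      (by omega) d1
      (X.sp.mono (by omega) le_rfl le_rfl) (X.s0.mono (by omega) le_rfl le_rfl)
      (D' := 2 * k + 4) (by omega) (by omega) (by omega)).mono (by omega) le_rfl (by omega)
  have p7 : Ze f (6 * k + 7) (b + 22) (N + 5) (2 * k + 10) (E - 17) :=
    (Ze.even hf (L := 6 * k + 6) (P := 6 * k + 5) (r := b + 21) (V := N + 2) (W := N + 4)
      (D := 2 * k + 4) (DP := 2 * k + 9) (E := E - 16) (by omega) (by omega) (by omega) (by omega)
      (by omega) (by omega) (by omega) (by omega) (d2.mono le_rfl le_rfl (by omega)) p5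
      (X.sp.mono (by omega) (by omega) (by omega))
      (V' := N + 5) (D' := 2 * k + 10) (by omega) (Or.inl (by omega)) (by omega)
      (by omega)).mono le_rfl le_rfl (by omega)
  exact p7 x y (by omega) (by omega) (by omega)

end Pool.Agent.SNT.LocR8
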