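import Pool.Agent.SNT.NHZone8
import Pool.Agent.SNT.NWD

set_option autoImplicit false
set_option synthInstance.maxSize 100000
set_option synthInstance.maxHeartbeats 4000000

/-! K0 of the layer `6 k + 2` in its IN row `b + 18`, below the leader `6 k + 8`: the third cells above the wall of the
columns `2 n - 5` and `2 n - 3` are not both zero. -/

namespace Pool.Agent.SNT.LocR8

open Pool.Agent.SNT Pool.Agent.SNT.Loc Pool.Agent.SNT.LW Pool.Agent.SNT.NHZ

variable {f : ℕ → ℕ → ℕ → ℕ → Prop}

theorem k2_chk : check 7 6 9 11 0 0 0 1 0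
    (fun j n p q => decide ((j = 4 ∧ n = 1 ∧ ((p + q + 1) % 2 = 0 ∧ q + 1 ≤ p ∧ (p + q + 3) % 4 = 0))
      ∨ (j = 4 ∧ n = 2 ∧ q + 1 ≤ p ∧ (((p + q + 1) % 2 = 1 ∧ p ≤ q + 0 ∧ p % 2 = 0) ∨ ((p + q + 1) % 2 = 1 ∧ q ≤ p + 0 ∧ (p + q) % 4 = 0)))
      ∨ (j = 6 ∧ n = 2 ∧ (((p + q + 1) % 2 = 1 ∧ p ≤ q + 0 ∧ p % 2 = 1) ∨ ((p + q + 1) % 2 = 1 ∧ q ≤ p + 0 ∧ (p + q + 2) % 4 = 0)))))
    (fun j n p q => decide ((j = 4 ∧ n = 1 ∧ ¬ ((p + q + 1) % 2 = 0 ∧ q + 1 ≤ p ∧ (p + q + 3) % 4 = 0))
      ∨ (j = 4 ∧ n = 2 ∧ q + 1 ≤ p ∧ ¬ (((p + q + 1) % 2 = 1 ∧ p ≤ q + 0 ∧ p % 2 = 0) ∨ ((p + q + 1) % 2 = 1 ∧ q ≤ p + 0 ∧ (p + q) % 4 = 0)))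
      ∨ (j = 6 ∧ n = 2 ∧ ¬ (((p + q + 1) % 2 = 1 ∧ p ≤ q + 0 ∧ p % 2 = 1) ∨ ((p + q + 1) % 2 = 1 ∧ q ≤ p + 0 ∧ (p + q + 2) % 4 = 0)))
      ∨ (j = 1)
      ∨ (j = 4 ∧ n = 3 ∧ 2 ≤ q ∧ p + 3 ≤ q)
      ∨ (j = 5 ∧ n = 3 ∧ p + 2 ≤ q)
      ∨ (j = 5 ∧ n = 4 ∧ 7 ≤ q ∧ p + 3 ≤ q)
      ∨ (j = 7 ∧ n = 4 ∧ 4 ≤ p ∧ p + 1 ≤ q)
      ∨ (j = 4 ∧ n = 4 ∧ p = 3 ∧ q = 7)
      ∨ (j = 4 ∧ n = 4 ∧ p = 5 ∧ q = 9)))
    532
    0x90f8306b78006b78105830006acca05500505878005500105880a057c80058880057d0a05890a057d80057d8409038306ac0006ac04032503044e00044e0407b40007b401055c00055c0102d28303fb8003fb8402f90304220004220406ab8305770005770402d28303fb80055c7a06850007b45a090f00090f0402d30303fc0003fc04090f8307b40006b78007b40106b78105568005568402fa83042380057e6206a68006a68402ff83042880042884055003058200058204033103045a00045a0402f403041d00041d0406a783044f80044f8402f803042100042104030403042d00042d04063d0305458005458407a80007a80106790306798006798402f80304210005505a06790006790406790306ab0006ab0402fe83042780042784030983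043280043284030503042e00042e04032b03045400045404030483042d80042d8405260306800006800402c70303f00003f00403370304600004600402fa0304230004230402ce0303f70003f704032b83045480045484033603045f00045f04064f8303f78003f78402c68303ef8003ef8402f98304228004228402ff0304280004280402f503041e00041e04064e83052600052604033683045f80045f84030003042900042904064e83055700055704032c03045500045504090a0306b20006b204065403055c80055c8402f383041c80041c8403300304590004590402f483041d80041d84030a0304330004330406850306b70006b70402fd8304268004268406b303045a80045a84064283067400067404064f8303c60003c604068503068580068584033583045e80045e84065403055d00055d0406b88305578005578402fe0304270004270402d38303fc8003fc84032a8304538004538406540306860006860402f88304218004218406550303cb8003cb8406540303cb0003cb04032603044f00044f04064283054b00054b04064803055080055084064e8303c58003c584065503055d8006b8ea05890005890406490305518005518406480305510005510402d40303fd0003fd0409038306ab8006ab8408d103090300090304030583042e80042e84064803067a00067a04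06490305518006acea057d00057d0406ac83054b80054b84073f000776ba078400078300077c00077900077800077700077000076d00076c00076b0007610007600005300005240005180004ff0004f30004e700090f87090a0709098709048709040709038708fe0708fd8707e08707d48707840f07830f078287078207077d07077c87077c0f07790f07780f07770f07768707760707710707708707700f076d0f076c0f076b0f07610f07600f06b88706b30706b28706ad8706ad0706ac8706a78706a70706a20706a187068707068687068187068107068087067c07067b87067b07067a87067607067587067507067487067087067007058f87058e87058a07058487058387058287057e07057887057787055e07055887055807055307055287055207054d07054c87054c0705478705470705468705460705300f052b87052a87052a0705248705240f052087051f87051e87051e0705188705180f05138704ff0f04fa8704fa0704f98704f90704f50704f48704f40704f38704f30f04ef8704ef0704ee8704ee0704ed8704ed0704e90704e88704e80704e78704e70f04e28704e20704dd0704dc87033187033087032f8703268703258703248702d88702d78702ce8702cd8702cc8702cb8702c38702c28702c18702c087020e07020d87020d07020c87020c07020887020807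02078702070702068702030702028702020702018702010701fd8701fd0701fc8701fc0701fb8701f78701f70701f68701f60701e10701e08701e00701dc8701dc0701db8701db0701da8701d70701d68701d60701d58701d50701d48701d40701d18701d10701d08701d00701cf8701cf0701ce8701cc0701cb8701cb0701ca8701ca0701c98701c90701c68701c60701c58701c50701c48701af8701af0701ae8701ab0701aa8701aa0701a98701a90701a58701a50701a48701a40701a38701a30701a28701a007019f87019f07019e87019e07019d87019d07019a87019a07019987019907019887019807019787019507019487019407019387019307017987017907017887017807017787017407017387017307017287017207016e07016d87016c87016c07016b87016707016687016607 = true := by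
  decide +kernel

theorem k2_aux (hf : Rule f) {k c n X : ℕ}
    (T : NHT8 f k c (2 * n))
    (hL : ∀ {M R x y : ℕ}, M + 1 = 6 * k → c ≤ R + 10 → R ≤ c + 2 → 2 * n ≤ x + 20 → y ≤ x → x ≤ y + 4 * k → ¬ f M R x y)
    (C2 : Cyc f (6 * k + 2) (c - 6) (2 * (n - 7) + 2)) (C4a : Cyc f (6 * k + 4) (c - 8) (2 * (n - (k + 7)) + 2))
    (hX : 2 * n ≤ X + 5) (ho : X % 2 = 1)
    (h1 : ∀ {M R x y : ℕ}, M = 6 * k + 2 → R + 2 = c → x = X → y + 2 * k = X + 5 → ¬ f M R x y)
    (h2 : ∀ {M R x y : ℕ}, M = 6 * k + 2 → R + 2 = c → x = X + 2 → y + 2 * k = X + 7 → ¬ f M R x y) : False := by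
  have hk := T.hk
  have hc := T.hc
  have h4 := T.h4
  have hb := T.hb
  have hN := T.hN2
  obtain ⟨a0, ha0⟩ : ∃ z, z + 2 = 6 * k := ⟨6 * k - 2, by omega⟩
  obtain ⟨b0, hb0⟩ : ∃ z, z + 6 = c := ⟨c - 6, by omega⟩
  obtain ⟨x0, hx0⟩ : ∃ z, z + 3 = X := ⟨X - 3, by omega⟩
  obtain ⟨y0, hy0⟩ : ∃ z, z + 2 * k + 20 = X + 18 := ⟨X + 18 - 2 * k - 20, by omega⟩
  refine check_sound hf (a0 := a0) (b0 := b0) (x0 := x0) (y0 := y0) k2_chk
    ⟨fun h => absurd h (by decide), fun h => absurd h (by decide), fun h => absurd h (by decide), by omega, by omega,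
      by omega, by omega⟩ ?_ ?_
  · intro j m p q hr h
    obtain ⟨-, -, hm1, hm2, hp1, hp2, hq1, hq2⟩ := hr
    replace h := of_decide_eq_true h
    rcases h with h | h | h
    · obtain ⟨rfl, rfl, h⟩ := h
      exact (WrapC.v1 C2 (by omega) (by omega) (by omega) (by omega) (by omega) (by omega) (by omega) (by omega)).mpr (by omega)
    · obtain ⟨rfl, rfl, h⟩ := h
      exact (WrapC.v2 C2 (by omega) (by omega) (by omega) (by omega) (by omega) (by omega) (by omega)).mpr (by omega)
    · obtain ⟨rfl, rfl, h⟩ := h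
      exact (WrapC.v4 C4a (by omega) (by omega) (by omega) (by omega) (by omega) (by omega) (by omega)).mpr (by omega)
  · intro j m p q hr h
    obtain ⟨-, -, hm1, hm2, hp1, hp2, hq1, hq2⟩ := hr
    replace h := of_decide_eq_true h
    rcases h with h | h | h | h | h | h | h | h | h | h
    · obtain ⟨rfl, rfl, h⟩ := h
      exact mt (WrapC.v1 C2 (by omega) (by omega) (by omega) (by omega) (by omega) (by omega) (by omega) (by omega)).mp (by omega)
    · obtain ⟨rfl, rfl, h⟩ := h
      exact mt (WrapC.v2 C2 (by omega) (by omega) (by omega) (by omega) (by omega) (by omega) (by omega)).mp (by omega)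
    · obtain ⟨rfl, rfl, h⟩ := h
      exact mt (WrapC.v4 C4a (by omega) (by omega) (by omega) (by omega) (by omega) (by omega) (by omega)).mp (by omega)
    · obtain rfl := h
      exact hL (by omega) (by omega) (by omega) (by omega) (by omega) (by omega)
    · obtain ⟨rfl, rfl, h⟩ := h
      exact NHT8.rQ hf T (t := 3) (p := 0) (j := 2) (by omega) (by omega) (by omega) (by omega) (by omega) (by omega) (by omega) (by omega)
    · obtain ⟨rfl, rfl, h⟩ := h
      exact NHT8.rI hf T (t := 2) (p := 1) (j := 1) (by omega) (by omega) (by omega) (by omega) (by omega) (by omega) (by omega) (by omega)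
    · obtain ⟨rfl, rfl, h⟩ := h
      exact NHT8.pQ4 hf T (j := 2) (by omega) (by omega) (by omega) (by omega) (by omega) (by omega)
    · obtain ⟨rfl, rfl, h⟩ := h
      exact NHT8.pI hf T (t := 3) (j := 0) (by omega) (by omega) (by omega) (by omega) (by omega) (by omega) (by omega)
    · obtain ⟨rfl, rfl, rfl, rfl⟩ := h
      exact h1 (by omega) (by omega) (by omega) (by omega)
    · obtain ⟨rfl, rfl, rfl, rfl⟩ := h
      exact h2 (by omega) (by omega) (by omega) (by omega)

/-- **K0 of the layer `6 k + 2`** in the row `b + 18`: the third cells above the wall of two adjacent columns are not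
both zero, from the column `2 n - 5` on. -/
theorem k2_gen (hf : Rule f) {k b m : ℕ} (hs : Side k b m) (S : Stack6 f k b m 0 0 0 0 1 1) {x y : ℕ}
    (hx : 2 * (m + 7 + (k + 2) * 4) ≤ x + 5) (ho : x % 2 = 1) (hy : y + 2 * k = x + 5) :
    f (6 * k + 2) (b + 18) x y ∨ f (6 * k + 2) (b + 18) (x + 2) (y + 2) := by
  by_contra hc
  have h1' : ¬ f (6 * k + 2) (b + 18) x y := fun h => hc (Or.inl h)
  have h2' : ¬ f (6 * k + 2) (b + 18) (x + 2) (y + 2) := fun h => hc (Or.inr h)
  have T := NHT8.of_stack hs S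
  have hlw : ∀ {M R x y : ℕ}, M + 1 = 6 * k → b + 20 ≤ R + 10 → R ≤ b + 20 + 2 →
      2 * (m + 7 + (k + 2) * 4) ≤ x + 20 → y ≤ x → x ≤ y + 4 * k → ¬ f M R x y := by
    intro M R x y e1 e2 e3 e4 e5 e6
    have hb := hs.2.2.2.1
    have e : M = 6 * k - 1 := by omega
    subst e
    exact lw_zero hs S (i := R - b) (by omega) (by omega) (by omega) e5 (by omega)
  obtain ⟨hk, hb, h4, hb2, hm⟩ := hs
  refine k2_aux hf (c := b + 20) (n := m + 7 + (k + 2) * 4) T hlw ?_ ?_ hx ho ?_ ?_
  · have e : b + 20 - 6 = b + 2 + 4 * 3 := by omega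
    have e2 : m + 7 + (k + 2) * 4 - 7 = m + k + 2 + 0 + (k + 2) * 3 := by omega
    rw [e, e2]
    exact S.l2 3
  · have e : b + 20 - 8 = b + 4 * 3 := by omega
    have e2 : m + 7 + (k + 2) * 4 - (k + 7) = m + 2 + 0 + (k + 2) * 3 := by omega
    rw [e, e2]
    exact S.l4 3
  · intro M' R' x' y' e1 e2 e3 e4 h
    exact h1' (mv h (by omega) (by omega) (by omega) (by omega))
  · intro M' R' x' y' e1 e2 e3 e4 h
    exact h2' (mv h (by omega) (by omega) (by omega) (by omega))

theorem k2 (hf : Rule f) {k b m : ℕ} (hs : Side k b m) (S : Stack6 f k b m 0 0 0 0 1 1) {x y : ℕ}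
    (hx : x + 5 = 2 * (m + 7 + (k + 2) * 4)) (hy : y + 2 * k = x + 5) :
    f (6 * k + 2) (b + 18) x y ∨ f (6 * k + 2) (b + 18) (x + 2) (y + 2) :=
  k2_gen hf hs S (by omega) (by omega) hy

end Pool.Agent.SNT.LocR8
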