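import Pool.Agent.SNT.NHZone

set_option autoImplicit false

/-! The clean zones of the window of the leader `6 k + 8` (`c` is its IN row, `N = 2 n` its lead). -/

namespace Pool.Agent.SNT.NHZ

open Pool.Agent.SNT Pool.Agent.SNT.Sig Pool.Agent.SNT.ZoneT Pool.Agent.SNT.ZoneI Pool.Agent.SNT.LW

variable {f : ℕ → ℕ → ℕ → ℕ → Prop}

/-- the bounds of the OUT rows below the leader -/
def YO8 (N t : ℕ) : ℕ := if t < 4 then N - 14 + 4 * t else N + 4

/-- the bounds of the OUT rows one cycle before -/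
def YQ8 (k N t : ℕ) : ℕ := if t < 4 then N - 2 * k - 18 + 4 * t else if t < 5 then N - 2 * k else N + 4 - 2 * k

/-- the bounds of the IN rows -/
def X8 (N t : ℕ) : ℕ := if t < 4 then N - 15 + 4 * t else if t < 5 then N + 3 else N + 7

/-- The towers of the leader `6 k + 8`. -/
structure NHT8 (f : ℕ → ℕ → ℕ → ℕ → Prop) (k c N : ℕ) : Prop where
  hk : 8 ≤ k
  hc : c % 2 = 0
  h4 : (6 * k + 8 + c) % 4 = 2
  hb : 12 * k + 100 ≤ c
  hN : N % 2 = 0
  hN2 : 4 * k + 100 ≤ N
  O : Tower f (6 * k) (c - 6) 4 (2 * k) (YO8 N)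
  Q : Tower f (6 * k) (c - 10) 5 (2 * k) (YQ8 k N)
  I : InTower f (6 * k) (c - 8) 5 (2 * k) (X8 N)

variable {k c N : ℕ}

/-- OUT tower: the odd layers in the OUT or IN row of `6 k + 2 * t` and in the row before -/
theorem NHT8.pO (hf : Rule f) (h : NHT8 f k c N) {t : ℕ} (ht : t ≤ 3) {L R j x y : ℕ} (hj : j ≤ t) (hL : L + 1 + 2 * j = 6 * k + 2 * t)
    (hR : R + 7 = c + 2 * t ∨ R + 6 = c + 2 * t) (hy : N + 4 * t ≤ y + 14) (h1 : y + 1 + j ≤ x) (h2 : x + 2 + j ≤ y + 2 * k) : ¬ f L R x y :=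
  h.O.P hf (t := t) (s := t - j) (j := j) (q := c + 2 * t - 6 - R) (by omega) (by omega) (by omega) (by omega)
    (by have := h.hb; omega) (by unfold YO8; rw [if_pos (by omega)]; have := h.hN2; omega) h1 h2

/-- coverings -/
theorem NHT8.cO (hf : Rule f) (h : NHT8 f k c N) {t : ℕ} (ht : t ≤ 3) {L R j x y : ℕ} (hj : j ≤ t) (hL : L + 2 * j = 6 * k + 2 * t)
    (hR : R + 6 = c + 2 * t) (hy : N + 4 * t ≤ y + 14) (h0 : y + 2 ≤ x) (h1 : y + 1 + j ≤ x) (h2 : x + 2 + j ≤ y + 2 * k) : Cov f L R x y := by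
  have hb := h.hb
  rcases Nat.eq_zero_or_pos j with hj0 | hj0
  · subst hj0
    have := h.O.cov_out (t := t) (x := x) (y := y) (by omega) (by unfold YO8; rw [if_pos (by omega)]; have := h.hN2; omega) h0 (by omega)
    have e1 : 6 * k + 2 * t = L := by omega
    have e2 : c - 6 + 2 * t = R := by omega
    rwa [e1, e2] at this
  · exact h.O.cov hf (t := t) (s := t - j) (j := j) (by omega) (by omega) hj0 (by omega) (by omega)
      (by unfold YO8; rw [if_pos (by omega)]; have := h.hN2; omega) h1 h2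

/-- the row after -/
theorem NHT8.rO (hf : Rule f) (h : NHT8 f k c N) {t : ℕ} (ht : t ≤ 3) {L R p j x y : ℕ} (hj : j ≤ t) (hp : p ≤ 1)
    (hL : L + 2 * j = 6 * k + 2 * t + p) (hR : R + 5 = c + 2 * t) (hy : N + 4 * t ≤ y + 13) (h1 : y + 1 + j ≤ x) (h2 : x + 2 + j ≤ y + 2 * k) :
    ¬ f L R x y :=
  h.O.after hf (t := t) (s := t - j) (j := j) (p := p) (q := 1) (by omega) (by omega) hp le_rfl (by omega) (by omega)
    (by have := h.hb; omega) (by unfold YO8; rw [if_pos (by omega)]; have := h.hN2; omega) h1 h2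

/-- the odd layers above in the row itself -/
theorem NHT8.aO (hf : Rule f) (h : NHT8 f k c N) {t : ℕ} (ht : t ≤ 3) {L R j x y : ℕ} (hj : j ≤ t)
    (hL : L + 2 * j = 6 * k + 2 * t + 1) (hR : R + 6 = c + 2 * t) (hy : N + 4 * t ≤ y + 13) (h1 : y + 1 + j ≤ x) (h2 : x + 2 + j ≤ y + 2 * k) :
    ¬ f L R x y :=
  h.O.after hf (t := t) (s := t - j) (j := j) (p := 1) (q := 0) (by omega) (by omega) le_rfl (by omega) (by omega)
    (by omega) (by have := h.hb; omega) (by unfold YO8; rw [if_pos (by omega)]; have := h.hN2; omega) h1 h2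

/-- OUT tower, top: the odd layers in the OUT or IN row of `6 k + 8` and in the row before -/
theorem NHT8.pO4 (hf : Rule f) (h : NHT8 f k c N) {L R j x y : ℕ} (hj : j ≤ 4) (hL : L + 1 + 2 * j = 6 * k + 8)
    (hR : R = c + 1 ∨ R = c + 2) (hy : N + 4 ≤ y) (h1 : y + 1 + j ≤ x) (h2 : x + 2 + j ≤ y + 2 * k) : ¬ f L R x y :=
  h.O.P hf (t := 4) (s := 4 - j) (j := j) (q := c + 8 - 6 - R) (by omega) (by omega) (by omega) (by omega)
    (by have := h.hb; omega) (by unfold YO8; rw [if_neg (by omega)]; have := h.hN2; omega) h1 h2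

/-- coverings -/
theorem NHT8.cO4 (hf : Rule f) (h : NHT8 f k c N) {L R j x y : ℕ} (hj : j ≤ 4) (hL : L + 2 * j = 6 * k + 8)
    (hR : R = c + 2) (hy : N + 4 ≤ y) (h0 : y + 2 ≤ x) (h1 : y + 1 + j ≤ x) (h2 : x + 2 + j ≤ y + 2 * k) : Cov f L R x y := by
  have hb := h.hb
  rcases Nat.eq_zero_or_pos j with hj0 | hj0
  · subst hj0
    have := h.O.cov_out (t := 4) (x := x) (y := y) (by omega) (by unfold YO8; rw [if_neg (by omega)]; have := h.hN2; omega) h0 (by omega)
    have e1 : 6 * k + 2 * 4 = L := by omega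
    have e2 : c - 6 + 2 * 4 = R := by omega
    rwa [e1, e2] at this
  · exact h.O.cov hf (t := 4) (s := 4 - j) (j := j) (by omega) (by omega) hj0 (by omega) (by omega)
      (by unfold YO8; rw [if_neg (by omega)]; have := h.hN2; omega) h1 h2

/-- the row after -/
theorem NHT8.rO4 (hf : Rule f) (h : NHT8 f k c N) {L R p j x y : ℕ} (hj : j ≤ 4) (hp : p ≤ 1)
    (hL : L + 2 * j = 6 * k + 8 + p) (hR : R = c + 3) (hy : N + 5 ≤ y) (h1 : y + 1 + j ≤ x) (h2 : x + 2 + j ≤ y + 2 * k) :
    ¬ f L R x y :=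
  h.O.after hf (t := 4) (s := 4 - j) (j := j) (p := p) (q := 1) (by omega) (by omega) hp le_rfl (by omega) (by omega)
    (by have := h.hb; omega) (by unfold YO8; rw [if_neg (by omega)]; have := h.hN2; omega) h1 h2

/-- the odd layers above in the row itself -/
theorem NHT8.aO4 (hf : Rule f) (h : NHT8 f k c N) {L R j x y : ℕ} (hj : j ≤ 4)
    (hL : L + 2 * j = 6 * k + 8 + 1) (hR : R = c + 2) (hy : N + 5 ≤ y) (h1 : y + 1 + j ≤ x) (h2 : x + 2 + j ≤ y + 2 * k) :
    ¬ f L R x y :=
  h.O.after hf (t := 4) (s := 4 - j) (j := j) (p := 1) (q := 0) (by omega) (by omega) le_rfl (by omega) (by omega)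
    (by omega) (by have := h.hb; omega) (by unfold YO8; rw [if_neg (by omega)]; have := h.hN2; omega) h1 h2

/-- OUT tower of the cycle before: the odd layers in the OUT or IN row of `6 k + 2 * t` and in the row before -/
theorem NHT8.pQ (hf : Rule f) (h : NHT8 f k c N) {t : ℕ} (ht : t ≤ 3) {L R j x y : ℕ} (hj : j ≤ t) (hL : L + 1 + 2 * j = 6 * k + 2 * t)
    (hR : R + 11 = c + 2 * t ∨ R + 10 = c + 2 * t) (hy : N + 4 * t ≤ y + 2 * k + 18) (h1 : y + 1 + j ≤ x) (h2 : x + 2 + j ≤ y + 2 * k) : ¬ f L R x y :=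
  h.Q.P hf (t := t) (s := t - j) (j := j) (q := c + 2 * t - 10 - R) (by omega) (by omega) (by omega) (by omega)
    (by have := h.hb; omega) (by unfold YQ8; rw [if_pos (by omega)]; have := h.hN2; omega) h1 h2

/-- coverings -/
theorem NHT8.cQ (hf : Rule f) (h : NHT8 f k c N) {t : ℕ} (ht : t ≤ 3) {L R j x y : ℕ} (hj : j ≤ t) (hL : L + 2 * j = 6 * k + 2 * t)
    (hR : R + 10 = c + 2 * t) (hy : N + 4 * t ≤ y + 2 * k + 18) (h0 : y + 2 ≤ x) (h1 : y + 1 + j ≤ x) (h2 : x + 2 + j ≤ y + 2 * k) : Cov f L R x y := by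
  have hb := h.hb
  rcases Nat.eq_zero_or_pos j with hj0 | hj0
  · subst hj0
    have := h.Q.cov_out (t := t) (x := x) (y := y) (by omega) (by unfold YQ8; rw [if_pos (by omega)]; have := h.hN2; omega) h0 (by omega)
    have e1 : 6 * k + 2 * t = L := by omega
    have e2 : c - 10 + 2 * t = R := by omega
    rwa [e1, e2] at this
  · exact h.Q.cov hf (t := t) (s := t - j) (j := j) (by omega) (by omega) hj0 (by omega) (by omega)
      (by unfold YQ8; rw [if_pos (by omega)]; have := h.hN2; omega) h1 h2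

/-- the row after -/
theorem NHT8.rQ (hf : Rule f) (h : NHT8 f k c N) {t : ℕ} (ht : t ≤ 3) {L R p j x y : ℕ} (hj : j ≤ t) (hp : p ≤ 1)
    (hL : L + 2 * j = 6 * k + 2 * t + p) (hR : R + 9 = c + 2 * t) (hy : N + 4 * t ≤ y + 2 * k + 17) (h1 : y + 1 + j ≤ x) (h2 : x + 2 + j ≤ y + 2 * k) :
    ¬ f L R x y :=
  h.Q.after hf (t := t) (s := t - j) (j := j) (p := p) (q := 1) (by omega) (by omega) hp le_rfl (by omega) (by omega)
    (by have := h.hb; omega) (by unfold YQ8; rw [if_pos (by omega)]; have := h.hN2; omega) h1 h2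

/-- the odd layers above in the row itself -/
theorem NHT8.aQ (hf : Rule f) (h : NHT8 f k c N) {t : ℕ} (ht : t ≤ 3) {L R j x y : ℕ} (hj : j ≤ t)
    (hL : L + 2 * j = 6 * k + 2 * t + 1) (hR : R + 10 = c + 2 * t) (hy : N + 4 * t ≤ y + 2 * k + 17) (h1 : y + 1 + j ≤ x) (h2 : x + 2 + j ≤ y + 2 * k) :
    ¬ f L R x y :=
  h.Q.after hf (t := t) (s := t - j) (j := j) (p := 1) (q := 0) (by omega) (by omega) le_rfl (by omega) (by omega)
    (by omega) (by have := h.hb; omega) (by unfold YQ8; rw [if_pos (by omega)]; have := h.hN2; omega) h1 h2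

/-- OUT tower of the cycle before, `6 k + 8`: the odd layers in the OUT or IN row of `6 k + 8` and in the row before -/
theorem NHT8.pQ4 (hf : Rule f) (h : NHT8 f k c N) {L R j x y : ℕ} (hj : j ≤ 4) (hL : L + 1 + 2 * j = 6 * k + 8)
    (hR : R + 3 = c ∨ R + 2 = c) (hy : N ≤ y + 2 * k) (h1 : y + 1 + j ≤ x) (h2 : x + 2 + j ≤ y + 2 * k) : ¬ f L R x y :=
  h.Q.P hf (t := 4) (s := 4 - j) (j := j) (q := c + 8 - 10 - R) (by omega) (by omega) (by omega) (by omega)
    (by have := h.hb; omega) (by unfold YQ8; rw [if_neg (by omega), if_pos (by omega)]; have := h.hN2; omega) h1 h2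

/-- coverings -/
theorem NHT8.cQ4 (hf : Rule f) (h : NHT8 f k c N) {L R j x y : ℕ} (hj : j ≤ 4) (hL : L + 2 * j = 6 * k + 8)
    (hR : R + 2 = c) (hy : N ≤ y + 2 * k) (h0 : y + 2 ≤ x) (h1 : y + 1 + j ≤ x) (h2 : x + 2 + j ≤ y + 2 * k) : Cov f L R x y := by
  have hb := h.hb
  rcases Nat.eq_zero_or_pos j with hj0 | hj0
  · subst hj0
    have := h.Q.cov_out (t := 4) (x := x) (y := y) (by omega) (by unfold YQ8; rw [if_neg (by omega), if_pos (by omega)]; have := h.hN2; omega) h0 (by omega)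
    have e1 : 6 * k + 2 * 4 = L := by omega
    have e2 : c - 10 + 2 * 4 = R := by omega
    rwa [e1, e2] at this
  · exact h.Q.cov hf (t := 4) (s := 4 - j) (j := j) (by omega) (by omega) hj0 (by omega) (by omega)
      (by unfold YQ8; rw [if_neg (by omega), if_pos (by omega)]; have := h.hN2; omega) h1 h2

/-- the row after -/
theorem NHT8.rQ4 (hf : Rule f) (h : NHT8 f k c N) {L R p j x y : ℕ} (hj : j ≤ 4) (hp : p ≤ 1)
    (hL : L + 2 * j = 6 * k + 8 + p) (hR : R + 1 = c) (hy : N + 1 ≤ y + 2 * k) (h1 : y + 1 + j ≤ x) (h2 : x + 2 + j ≤ y + 2 * k) :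
    ¬ f L R x y :=
  h.Q.after hf (t := 4) (s := 4 - j) (j := j) (p := p) (q := 1) (by omega) (by omega) hp le_rfl (by omega) (by omega)
    (by have := h.hb; omega) (by unfold YQ8; rw [if_neg (by omega), if_pos (by omega)]; have := h.hN2; omega) h1 h2

/-- the odd layers above in the row itself -/
theorem NHT8.aQ4 (hf : Rule f) (h : NHT8 f k c N) {L R j x y : ℕ} (hj : j ≤ 4)
    (hL : L + 2 * j = 6 * k + 8 + 1) (hR : R + 2 = c) (hy : N + 1 ≤ y + 2 * k) (h1 : y + 1 + j ≤ x) (h2 : x + 2 + j ≤ y + 2 * k) :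
    ¬ f L R x y :=
  h.Q.after hf (t := 4) (s := 4 - j) (j := j) (p := 1) (q := 0) (by omega) (by omega) le_rfl (by omega) (by omega)
    (by omega) (by have := h.hb; omega) (by unfold YQ8; rw [if_neg (by omega), if_pos (by omega)]; have := h.hN2; omega) h1 h2

/-- OUT tower of the cycle before, `6 k + 10`: the odd layers in the OUT or IN row of `6 k + 10` and in the row before -/
theorem NHT8.pQ5 (hf : Rule f) (h : NHT8 f k c N) {L R j x y : ℕ} (hj : j ≤ 5) (hL : L + 1 + 2 * j = 6 * k + 10)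
    (hR : R + 1 = c ∨ R = c) (hy : N + 4 ≤ y + 2 * k) (h1 : y + 1 + j ≤ x) (h2 : x + 2 + j ≤ y + 2 * k) : ¬ f L R x y :=
  h.Q.P hf (t := 5) (s := 5 - j) (j := j) (q := c + 10 - 10 - R) (by omega) (by omega) (by omega) (by omega)
    (by have := h.hb; omega) (by unfold YQ8; rw [if_neg (by omega), if_neg (by omega)]; have := h.hN2; omega) h1 h2

/-- coverings -/
theorem NHT8.cQ5 (hf : Rule f) (h : NHT8 f k c N) {L R j x y : ℕ} (hj : j ≤ 5) (hL : L + 2 * j = 6 * k + 10)
    (hR : R = c) (hy : N + 4 ≤ y + 2 * k) (h0 : y + 2 ≤ x) (h1 : y + 1 + j ≤ x) (h2 : x + 2 + j ≤ y + 2 * k) : Cov f L R x y := by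
  have hb := h.hb
  rcases Nat.eq_zero_or_pos j with hj0 | hj0
  · subst hj0
    have := h.Q.cov_out (t := 5) (x := x) (y := y) (by omega) (by unfold YQ8; rw [if_neg (by omega), if_neg (by omega)]; have := h.hN2; omega) h0 (by omega)
    have e1 : 6 * k + 2 * 5 = L := by omega
    have e2 : c - 10 + 2 * 5 = R := by omega
    rwa [e1, e2] at this
  · exact h.Q.cov hf (t := 5) (s := 5 - j) (j := j) (by omega) (by omega) hj0 (by omega) (by omega)
      (by unfold YQ8; rw [if_neg (by omega), if_neg (by omega)]; have := h.hN2; omega) h1 h2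

/-- the row after -/
theorem NHT8.rQ5 (hf : Rule f) (h : NHT8 f k c N) {L R p j x y : ℕ} (hj : j ≤ 5) (hp : p ≤ 1)
    (hL : L + 2 * j = 6 * k + 10 + p) (hR : R = c + 1) (hy : N + 5 ≤ y + 2 * k) (h1 : y + 1 + j ≤ x) (h2 : x + 2 + j ≤ y + 2 * k) :
    ¬ f L R x y :=
  h.Q.after hf (t := 5) (s := 5 - j) (j := j) (p := p) (q := 1) (by omega) (by omega) hp le_rfl (by omega) (by omega)
    (by have := h.hb; omega) (by unfold YQ8; rw [if_neg (by omega), if_neg (by omega)]; have := h.hN2; omega) h1 h2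

/-- the odd layers above in the row itself -/
theorem NHT8.aQ5 (hf : Rule f) (h : NHT8 f k c N) {L R j x y : ℕ} (hj : j ≤ 5)
    (hL : L + 2 * j = 6 * k + 10 + 1) (hR : R = c) (hy : N + 5 ≤ y + 2 * k) (h1 : y + 1 + j ≤ x) (h2 : x + 2 + j ≤ y + 2 * k) :
    ¬ f L R x y :=
  h.Q.after hf (t := 5) (s := 5 - j) (j := j) (p := 1) (q := 0) (by omega) (by omega) le_rfl (by omega) (by omega)
    (by omega) (by have := h.hb; omega) (by unfold YQ8; rw [if_neg (by omega), if_neg (by omega)]; have := h.hN2; omega) h1 h2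

/-- IN tower: the odd layers in the OUT or IN row of `6 k + 2 * t` and in the row before -/
theorem NHT8.pI (hf : Rule f) (h : NHT8 f k c N) {t : ℕ} (ht : t ≤ 3) {L R j x y : ℕ} (hj : j ≤ t) (hL : L + 1 + 2 * j = 6 * k + 2 * t)
    (hR : R + 9 = c + 2 * t ∨ R + 8 = c + 2 * t) (hx : N + 4 * t ≤ x + 16) (h1 : y + 1 + j ≤ x) (h2 : x + 2 + j ≤ y + 2 * k) : ¬ f L R x y :=
  h.I.P hf (t := t) (s := t - j) (j := j) (q := c + 2 * t - 8 - R) (by omega) (by omega) (by omega) (by omega)
    (by have := h.hb; omega) (by unfold X8; rw [if_pos (by omega)]; have := h.hN2; omega) (by have := h.hN2; omega) h1 h2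

/-- coverings -/
theorem NHT8.cI (hf : Rule f) (h : NHT8 f k c N) {t : ℕ} (ht : t ≤ 3) {L R j x y : ℕ} (hj : j ≤ t) (hL : L + 2 * j = 6 * k + 2 * t)
    (hR : R + 8 = c + 2 * t) (hx : N + 4 * t ≤ x + 16) (h0 : y + 2 ≤ x) (h1 : y + 1 + j ≤ x) (h2 : x + 2 + j ≤ y + 2 * k) : Cov f L R x y :=
  h.I.cov hf (t := t) (s := t - j) (j := j) (by omega) (by omega) (by omega) (by have := h.hb; omega)
    (by unfold X8; rw [if_pos (by omega)]; have := h.hN2; omega) (by have := h.hN2; omega) h0 h1 h2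

/-- the row after -/
theorem NHT8.rI (hf : Rule f) (h : NHT8 f k c N) {t : ℕ} (ht : t ≤ 3) {L R p j x y : ℕ} (hj : j ≤ t) (hp : p ≤ 1)
    (hL : L + 2 * j = 6 * k + 2 * t + p) (hR : R + 7 = c + 2 * t) (hx : N + 4 * t ≤ x + 15) (h1 : y + 1 + j ≤ x) (h2 : x + 2 + j ≤ y + 2 * k) :
    ¬ f L R x y :=
  h.I.after hf (t := t) (s := t - j) (j := j) (p := p) (q := 1) (by omega) (by omega) hp le_rfl (by omega) (by omega)
    (by have := h.hb; omega) (by unfold X8; rw [if_pos (by omega)]; have := h.hN2; omega) (by have := h.hN2; omega) h1 h2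

/-- the odd layers above in the row itself -/
theorem NHT8.aI (hf : Rule f) (h : NHT8 f k c N) {t : ℕ} (ht : t ≤ 3) {L R j x y : ℕ} (hj : j ≤ t)
    (hL : L + 2 * j = 6 * k + 2 * t + 1) (hR : R + 8 = c + 2 * t) (hx : N + 4 * t ≤ x + 15) (h1 : y + 1 + j ≤ x) (h2 : x + 2 + j ≤ y + 2 * k) :
    ¬ f L R x y :=
  h.I.after hf (t := t) (s := t - j) (j := j) (p := 1) (q := 0) (by omega) (by omega) le_rfl (by omega) (by omega)
    (by omega) (by have := h.hb; omega) (by unfold X8; rw [if_pos (by omega)]; have := h.hN2; omega) (by have := h.hN2; omega) h1 h2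

/-- IN tower, the leader: the odd layers in the OUT or IN row of `6 k + 8` and in the row before -/
theorem NHT8.pI4 (hf : Rule f) (h : NHT8 f k c N) {L R j x y : ℕ} (hj : j ≤ 4) (hL : L + 1 + 2 * j = 6 * k + 8)
    (hR : R + 1 = c ∨ R = c) (hx : N + 2 ≤ x) (h1 : y + 1 + j ≤ x) (h2 : x + 2 + j ≤ y + 2 * k) : ¬ f L R x y :=
  h.I.P hf (t := 4) (s := 4 - j) (j := j) (q := c + 8 - 8 - R) (by omega) (by omega) (by omega) (by omega)
    (by have := h.hb; omega) (by unfold X8; rw [if_neg (by omega), if_pos (by omega)]; have := h.hN2; omega) (by have := h.hN2; omega) h1 h2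

/-- coverings -/
theorem NHT8.cI4 (hf : Rule f) (h : NHT8 f k c N) {L R j x y : ℕ} (hj : j ≤ 4) (hL : L + 2 * j = 6 * k + 8)
    (hR : R = c) (hx : N + 2 ≤ x) (h0 : y + 2 ≤ x) (h1 : y + 1 + j ≤ x) (h2 : x + 2 + j ≤ y + 2 * k) : Cov f L R x y :=
  h.I.cov hf (t := 4) (s := 4 - j) (j := j) (by omega) (by omega) (by omega) (by have := h.hb; omega)
    (by unfold X8; rw [if_neg (by omega), if_pos (by omega)]; have := h.hN2; omega) (by have := h.hN2; omega) h0 h1 h2

/-- the row after -/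
theorem NHT8.rI4 (hf : Rule f) (h : NHT8 f k c N) {L R p j x y : ℕ} (hj : j ≤ 4) (hp : p ≤ 1)
    (hL : L + 2 * j = 6 * k + 8 + p) (hR : R = c + 1) (hx : N + 3 ≤ x) (h1 : y + 1 + j ≤ x) (h2 : x + 2 + j ≤ y + 2 * k) :
    ¬ f L R x y :=
  h.I.after hf (t := 4) (s := 4 - j) (j := j) (p := p) (q := 1) (by omega) (by omega) hp le_rfl (by omega) (by omega)
    (by have := h.hb; omega) (by unfold X8; rw [if_neg (by omega), if_pos (by omega)]; have := h.hN2; omega) (by have := h.hN2; omega) h1 h2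

/-- the odd layers above in the row itself -/
theorem NHT8.aI4 (hf : Rule f) (h : NHT8 f k c N) {L R j x y : ℕ} (hj : j ≤ 4)
    (hL : L + 2 * j = 6 * k + 8 + 1) (hR : R = c) (hx : N + 3 ≤ x) (h1 : y + 1 + j ≤ x) (h2 : x + 2 + j ≤ y + 2 * k) :
    ¬ f L R x y :=
  h.I.after hf (t := 4) (s := 4 - j) (j := j) (p := 1) (q := 0) (by omega) (by omega) le_rfl (by omega) (by omega)
    (by omega) (by have := h.hb; omega) (by unfold X8; rw [if_neg (by omega), if_pos (by omega)]; have := h.hN2; omega) (by have := h.hN2; omega) h1 h2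

/-- IN tower, `6 k + 10`: the odd layers in the OUT or IN row of `6 k + 10` and in the row before -/
theorem NHT8.pI5 (hf : Rule f) (h : NHT8 f k c N) {L R j x y : ℕ} (hj : j ≤ 5) (hL : L + 1 + 2 * j = 6 * k + 10)
    (hR : R = c + 1 ∨ R = c + 2) (hx : N + 6 ≤ x) (h1 : y + 1 + j ≤ x) (h2 : x + 2 + j ≤ y + 2 * k) : ¬ f L R x y :=
  h.I.P hf (t := 5) (s := 5 - j) (j := j) (q := c + 10 - 8 - R) (by omega) (by omega) (by omega) (by omega)
    (by have := h.hb; omega) (by unfold X8; rw [if_neg (by omega), if_neg (by omega)]; have := h.hN2; omega) (by have := h.hN2; omega) h1 h2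

/-- coverings -/
theorem NHT8.cI5 (hf : Rule f) (h : NHT8 f k c N) {L R j x y : ℕ} (hj : j ≤ 5) (hL : L + 2 * j = 6 * k + 10)
    (hR : R = c + 2) (hx : N + 6 ≤ x) (h0 : y + 2 ≤ x) (h1 : y + 1 + j ≤ x) (h2 : x + 2 + j ≤ y + 2 * k) : Cov f L R x y :=
  h.I.cov hf (t := 5) (s := 5 - j) (j := j) (by omega) (by omega) (by omega) (by have := h.hb; omega)
    (by unfold X8; rw [if_neg (by omega), if_neg (by omega)]; have := h.hN2; omega) (by have := h.hN2; omega) h0 h1 h2

/-- the row after -/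
theorem NHT8.rI5 (hf : Rule f) (h : NHT8 f k c N) {L R p j x y : ℕ} (hj : j ≤ 5) (hp : p ≤ 1)
    (hL : L + 2 * j = 6 * k + 10 + p) (hR : R = c + 3) (hx : N + 7 ≤ x) (h1 : y + 1 + j ≤ x) (h2 : x + 2 + j ≤ y + 2 * k) :
    ¬ f L R x y :=
  h.I.after hf (t := 5) (s := 5 - j) (j := j) (p := p) (q := 1) (by omega) (by omega) hp le_rfl (by omega) (by omega)
    (by have := h.hb; omega) (by unfold X8; rw [if_neg (by omega), if_neg (by omega)]; have := h.hN2; omega) (by have := h.hN2; omega) h1 h2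

/-- the odd layers above in the row itself -/
theorem NHT8.aI5 (hf : Rule f) (h : NHT8 f k c N) {L R j x y : ℕ} (hj : j ≤ 5)
    (hL : L + 2 * j = 6 * k + 10 + 1) (hR : R = c + 2) (hx : N + 7 ≤ x) (h1 : y + 1 + j ≤ x) (h2 : x + 2 + j ≤ y + 2 * k) :
    ¬ f L R x y :=
  h.I.after hf (t := 5) (s := 5 - j) (j := j) (p := 1) (q := 0) (by omega) (by omega) le_rfl (by omega) (by omega)
    (by omega) (by have := h.hb; omega) (by unfold X8; rw [if_neg (by omega), if_neg (by omega)]; have := h.hN2; omega) (by have := h.hN2; omega) h1 h2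

/-- The towers from the window. -/
theorem NHT8.of_stack {b m : ℕ} (hs : Side k b m) (S : Stack6 f k b m 0 0 0 0 1 1) :
    NHT8 f k (b + 20) (2 * (m + 7 + (k + 2) * 4)) := by
  obtain ⟨hk, hb, h4, hb2, hm⟩ := hs
  refine ⟨hk, by omega, by omega, by omega, by omega, by omega, ?_, ?_, ?_⟩
  · refine ⟨by omega, by omega, by omega, by omega, ?_, ?_⟩
    · intro t ht
      unfold YO8
      rcases Nat.lt_or_ge (t + 1) 4 with h1 | h1
      · rw [if_pos (by omega), if_pos (by omega)]; omega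
      · rw [if_pos (by omega), if_neg (by omega)]; omega
    · intro t x y ht hy h1 h2 hx1 hy1
      unfold YO8 at hy
      interval_cases t
      · rw [if_pos (by omega)] at hy
        exact (out_cyc (S.l0 3) (by omega) (by omega) (by omega) (by omega) (by omega) h1 (by omega)).2 ⟨hx1, hy1⟩
      · rw [if_pos (by omega)] at hy
        exact (out_cyc (S.l2 3) (by omega) (by omega) (by omega) (by omega) (by omega) h1 (by omega)).2 ⟨hx1, hy1⟩
      · rw [if_pos (by omega)] at hy
        exact (out_cyc (S.l4 4) (by omega) (by omega) (by omega) (by omega) (by omega) h1 (by omega)).2 ⟨hx1, hy1⟩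
      · rw [if_pos (by omega)] at hy
        exact (out_cyc (S.l6 4) (by omega) (by omega) (by omega) (by omega) (by omega) h1 (by omega)).2 ⟨hx1, hy1⟩
      · rw [if_neg (by omega)] at hy
        exact (out_cw (S.l8 4) (by omega) (by omega) (by omega) (by omega) (by omega) h1 (by omega)).2 ⟨hx1, hy1⟩
  · refine ⟨by omega, by omega, by omega, by omega, ?_, ?_⟩
    · intro t ht
      unfold YQ8
      interval_cases t
      · rw [if_pos (by omega), if_pos (by omega)]; omega
      · rw [if_pos (by omega), if_pos (by omega)]; omega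
      · rw [if_pos (by omega), if_pos (by omega)]; omega
      · rw [if_pos (by omega), if_neg (by omega), if_pos (by omega)]; omega
      · rw [if_neg (by omega), if_pos (by omega), if_neg (by omega), if_neg (by omega)]; omega
    · intro t x y ht hy h1 h2 hx1 hy1
      unfold YQ8 at hy
      interval_cases t
      · rw [if_pos (by omega)] at hy
        exact (out_cyc (S.l0 2) (by omega) (by omega) (by omega) (by omega) (by omega) h1 (by omega)).2 ⟨hx1, hy1⟩
      · rw [if_pos (by omega)] at hy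
        exact (out_cyc (S.l2 2) (by omega) (by omega) (by omega) (by omega) (by omega) h1 (by omega)).2 ⟨hx1, hy1⟩
      · rw [if_pos (by omega)] at hy
        exact (out_cyc (S.l4 3) (by omega) (by omega) (by omega) (by omega) (by omega) h1 (by omega)).2 ⟨hx1, hy1⟩
      · rw [if_pos (by omega)] at hy
        exact (out_cyc (S.l6 3) (by omega) (by omega) (by omega) (by omega) (by omega) h1 (by omega)).2 ⟨hx1, hy1⟩
      · rw [if_neg (by omega), if_pos (by omega)] at hy
        exact (out_cw (S.l8 3) (by omega) (by omega) (by omega) (by omega) (by omega) h1 (by omega)).2 ⟨hx1, hy1⟩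
      · rw [if_neg (by omega), if_neg (by omega)] at hy
        exact (out_cw (S.l10 3) (by omega) (by omega) (by omega) (by omega) (by omega) h1 (by omega)).2 ⟨hx1, hy1⟩
  · refine ⟨by omega, by omega, by omega, by omega, ?_, ?_, ?_⟩
    · intro t ht
      unfold X8
      interval_cases t
      · rw [if_pos (by omega)]; omega
      · rw [if_pos (by omega)]; omega
      · rw [if_pos (by omega)]; omega
      · rw [if_pos (by omega)]; omega
      · rw [if_neg (by omega), if_pos (by omega)]; omega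
      · rw [if_neg (by omega), if_neg (by omega)]; omega
    · intro t ht
      unfold X8
      interval_cases t
      · rw [if_pos (by omega), if_pos (by omega)]; omega
      · rw [if_pos (by omega), if_pos (by omega)]; omega
      · rw [if_pos (by omega), if_pos (by omega)]; omega
      · rw [if_pos (by omega), if_neg (by omega), if_pos (by omega)]; omega
      · rw [if_neg (by omega), if_pos (by omega), if_neg (by omega), if_neg (by omega)]; omega
    · intro t x y ht hy h1 h2 hx1 hy1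
      unfold X8 at hy
      interval_cases t
      · rw [if_pos (by omega)] at hy
        have e : b + 20 - 8 + 2 * 0 = b + 4 * 3 := by omega
        rw [e]
        exact (in_cyc (S.l0 3) (by omega) (by omega) (by omega) (by omega) h1 (by omega)).2 ⟨hx1, hy1⟩
      · rw [if_pos (by omega)] at hy
        have e : b + 20 - 8 + 2 * 1 = b + 2 + 4 * 3 := by omega
        rw [e]
        exact (in_cyc (S.l2 3) (by omega) (by omega) (by omega) (by omega) h1 (by omega)).2 ⟨hx1, hy1⟩
      · rw [if_pos (by omega)] at hy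
        have e : b + 20 - 8 + 2 * 2 = b + 4 * 4 := by omega
        rw [e]
        exact (in_cyc (S.l4 4) (by omega) (by omega) (by omega) (by omega) h1 (by omega)).2 ⟨hx1, hy1⟩
      · rw [if_pos (by omega)] at hy
        have e : b + 20 - 8 + 2 * 3 = b + 2 + 4 * 4 := by omega
        rw [e]
        exact (in_cyc (S.l6 4) (by omega) (by omega) (by omega) (by omega) h1 (by omega)).2 ⟨hx1, hy1⟩
      · rw [if_neg (by omega), if_pos (by omega)] at hy
        have e : b + 20 - 8 + 2 * 4 = b + 4 + 4 * 4 := by omega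
        rw [e]
        exact (in_cw (S.l8 4) (by omega) (by omega) (by omega) (by omega) h1 (by omega)).2 ⟨hx1, hy1⟩
      · rw [if_neg (by omega), if_neg (by omega)] at hy
        have e : b + 20 - 8 + 2 * 5 = b + 6 + 4 * 4 := by omega
        rw [e]
        exact (in_cw (S.l10 4) (by omega) (by omega) (by omega) (by omega) h1 (by omega)).2 ⟨hx1, hy1⟩

end Pool.Agent.SNT.NHZ
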