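import Pool.Agent.SNT.NWD
import Pool.Agent.SNT.NWHof
import Pool.Agent.SNT.NHZone8

set_option autoImplicit false

/-! The third cell above the wall of two adjacent in-lines of `6 k + 4`, leader `6 k + 8` (helper33). -/

namespace Pool.Agent.SNT.LocR8

open Pool.Agent.SNT Pool.Agent.SNT.Loc Pool.Agent.SNT.LW

variable {f : ℕ → ℕ → ℕ → ℕ → Prop} {k c n : ℕ}

/-- The hypotheses of the window. -/
structure K4H (f : ℕ → ℕ → ℕ → ℕ → Prop) (k c n : ℕ) : Prop where
  hk : 8 ≤ k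
  hc : c % 2 = 0
  h4 : (6 * k + 8 + c) % 4 = 2
  hb : 12 * k + 100 ≤ c
  hn : 6 * k + 100 ≤ n
  T : NHZ.NHT8 f k c (2 * n)
  c0 : Cyc f (6 * k) (c - 4) (2 * (n - 5) + 2)
  c2a : Cyc f (6 * k + 2) (c - 6) (2 * (n - 7) + 2)
  c4 : Cyc f (6 * k + 4) (c - 4) (2 * (n - 5) + 2)
  c6 : Cyc f (6 * k + 6) (c - 2) (2 * (n - 3) + 2)
  lw : ∀ M R x y : ℕ, M + 1 = 6 * k → c ≤ R + 12 → R ≤ c + 12 → 2 * n ≤ x + 20 → y ≤ x →
    x ≤ y + 4 * k → ¬ f M R x y

def k4T (j n p q : ℕ) : Bool :=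
  decide (j = 2 ∧ n = 1 ∧ q ≤ p + 14 ∧ p + 6 > 0 ∧ (((p + q) % 2 = 1 ∧ p < q ∧ (p) % 2 = 1) ∨ (q ≤ p + 1 ∧ (p + q + 1) % 4 = 0))) ||
    (decide (j = 2 ∧ n = 2 ∧ q ≤ p + 14 ∧ ((p + 4 > 0) ∨ (p ≤ q ∧ p + 5 > 0)) ∧ (q ≤ p ∧ (p + q + 2) % 4 = 0)) ||
    (decide (j = 2 ∧ n = 3 ∧ q ≤ p + 14 ∧ q ≤ p ∧ p + 2 > 0 ∧ (((p + q) % 2 = 1 ∧ p < q ∧ (p) % 2 = 0) ∨ (q ≤ p + 1 ∧ (p + q + 3) % 4 = 0))) ||
    (decide (j = 4 ∧ n = 1 ∧ q ≤ p + 14 ∧ q ≤ p ∧ p + 6 > 0 ∧ (((p + q) % 2 = 1 ∧ p < q ∧ (p) % 2 = 0) ∨ (q ≤ p + 1 ∧ (p + q + 3) % 4 = 0))) ||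
    (decide (j = 6 ∧ n = 1 ∧ q ≤ p + 14 ∧ p + 6 > 0 ∧ (((p + q) % 2 = 1 ∧ p < q ∧ (p) % 2 = 1) ∨ (q ≤ p + 1 ∧ (p + q + 1) % 4 = 0))) ||
    (decide (j = 6 ∧ n = 2 ∧ q ≤ p + 14 ∧ ((p + 4 > 0) ∨ (p ≤ q ∧ p + 5 > 0)) ∧ (q ≤ p ∧ (p + q + 2) % 4 = 0)) ||
    (decide (j = 6 ∧ n = 3 ∧ q ≤ p + 14 ∧ q ≤ p ∧ p + 2 > 0 ∧ (((p + q) % 2 = 1 ∧ p < q ∧ (p) % 2 = 0) ∨ (q ≤ p + 1 ∧ (p + q + 3) % 4 = 0))) ||
    (decide (j = 8 ∧ n = 3 ∧ q ≤ p + 14 ∧ p + 2 > 0 ∧ (((p + q) % 2 = 1 ∧ p < q + 2 ∧ (p) % 2 = 1) ∨ (q + 1 ≤ p ∧ (p + q + 1) % 4 = 2))) ||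
    (decide (j = 8 ∧ n = 4 ∧ q ≤ p + 14 ∧ ((p > 0) ∨ (p ≤ q + 2 ∧ p + 1 > 0)) ∧ (q + 2 ≤ p ∧ (p + q + 2) % 4 = 2))))))))))

def k4F (j n p q : ℕ) : Bool :=
  decide (j = 2 ∧ n = 2 ∧ q ≤ p + 14 ∧ ((p + 4 > 0) ∨ (p ≤ q ∧ p + 5 > 0)) ∧ ¬ (q ≤ p ∧ (p + q + 2) % 4 = 0)) ||
    (decide (j = 2 ∧ n = 3 ∧ q ≤ p + 14 ∧ q ≤ p ∧ p + 2 > 0 ∧ ¬ (((p + q) % 2 = 1 ∧ p < q ∧ (p) % 2 = 0) ∨ (q ≤ p + 1 ∧ (p + q + 3) % 4 = 0))) ||
    (decide (j = 4 ∧ n = 1 ∧ q ≤ p + 14 ∧ q ≤ p ∧ p + 6 > 0 ∧ ¬ (((p + q) % 2 = 1 ∧ p < q ∧ (p) % 2 = 0) ∨ (q ≤ p + 1 ∧ (p + q + 3) % 4 = 0))) ||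
    (decide (j = 6 ∧ n = 2 ∧ q ≤ p + 14 ∧ ((p + 4 > 0) ∨ (p ≤ q ∧ p + 5 > 0)) ∧ ¬ (q ≤ p ∧ (p + q + 2) % 4 = 0)) ||
    (decide (j = 6 ∧ n = 3 ∧ q ≤ p + 14 ∧ q ≤ p ∧ p + 2 > 0 ∧ ¬ (((p + q) % 2 = 1 ∧ p < q ∧ (p) % 2 = 0) ∨ (q ≤ p + 1 ∧ (p + q + 3) % 4 = 0))) ||
    (decide (j = 8 ∧ n = 4 ∧ q ≤ p + 14 ∧ ((p > 0) ∨ (p ≤ q + 2 ∧ p + 1 > 0)) ∧ ¬ (q + 2 ≤ p ∧ (p + q + 2) % 4 = 2)) ||
    (decide (j = 2 ∧ n = 4 ∧ p + 5 ≤ q ∧ q ≤ p + 12) ||
    (decide (j = 3 ∧ n = 1 ∧ p + 3 ≤ q ∧ q ≤ p + 14) ||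
    (decide (j = 3 ∧ n = 2 ∧ p + 4 ≤ q ∧ q ≤ p + 13) ||
    (decide (j = 3 ∧ n = 3 ∧ p + 4 ≤ q ∧ q ≤ p + 13) ||
    (decide (j = 3 ∧ n = 4 ∧ p + 5 ≤ q ∧ q ≤ p + 12) ||
    (decide (j = 4 ∧ n = 2 ∧ p + 3 ≤ q ∧ q ≤ p + 14) ||
    (decide (j = 4 ∧ n = 4 ∧ p + 4 ≤ q ∧ q ≤ p + 13) ||
    (decide (j = 5 ∧ n = 2 ∧ p + 3 ≤ q ∧ q ≤ p + 14) ||
    (decide (j = 5 ∧ n = 3 ∧ p + 3 ≤ q ∧ q ≤ p + 14) ||
    (decide (j = 5 ∧ n = 4 ∧ p + 4 ≤ q ∧ q ≤ p + 13) ||
    (decide (j = 5 ∧ n = 5 ∧ p ≥ 4 ∧ p + 4 ≤ q ∧ q ≤ p + 13) ||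
    (decide (j = 6 ∧ n = 4 ∧ p + 3 ≤ q ∧ q ≤ p + 14) ||
    (decide (j = 7 ∧ n = 2 ∧ p + 2 ≤ q ∧ q ≤ p + 15) ||
    (decide (j = 7 ∧ n = 3 ∧ p + 2 ≤ q ∧ q ≤ p + 15) ||
    (decide (j = 7 ∧ n = 4 ∧ p + 3 ≤ q ∧ q ≤ p + 14) ||
    (decide (j = 7 ∧ n = 5 ∧ p ≥ 4 ∧ p + 3 ≤ q ∧ q ≤ p + 14) ||
    (decide (j = 7 ∧ n = 5 ∧ q ≥ 6 ∧ p + 4 ≤ q ∧ q ≤ p + 13) ||
    (decide (j = 9 ∧ n = 4 ∧ p + 2 ≤ q ∧ q ≤ p + 15) ||
    (decide (j = 9 ∧ n = 5 ∧ p ≥ 4 ∧ p + 2 ≤ q ∧ q ≤ p + 15) ||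
    (decide (j = 9 ∧ n = 5 ∧ q ≥ 6 ∧ p + 3 ≤ q ∧ q ≤ p + 14) ||
    (decide (j = 1 ∧ q ≤ p + 14) ||
    (decide (j = 6 ∧ n = 5 ∧ p = 3 ∧ q = 8) ||
    (decide (j = 6 ∧ n = 5 ∧ p = 5 ∧ q = 10)))))))))))))))))))))))))))))

theorem k4_chk : check 9 7 9 12 0 1 0 0 0 k4T k4F
    885
    0xe73830b79000b79010cfe830e79000e798a0b7f000b7f010b72800b72840cfe830e79000e798a0b7f000b7f0109f88009f88409ff800b805a0d0b830e86000e868a0b8c000b8c010a05800a05840a0b830a0c000a0c0409c80009ce120a0a800a10920a048509c8000a0a9209ce120d0b830e86000e868a0b8c000b8c010a12800b8d4a0d0b830e86000e868a0b8c000b8c010a0c800a0c840a0b000a0b0109ce0009ce040a10800a10840d0b830e86000e868a0b8c000b8c010a12800b8d4a0d0b830e86000e868a0b8c000b8c010a0c800a0c840a0b000a0b01088a00088a04071083088a80088a840b8d030a0c000a0c01088b00088b040b7f0309c80009ce120b850309ce0009ce040cf9800e7a5a0b858009ff800b860a0b805a088b80088b840716030890000890040716830890800890840d0b830e86000e868a0b8c000b8c010a0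5800b804a0b7f0309c80009ce120b850309ce0009ce040cf9800e7a5a0b85800b860a0b8d030a0c000a0c0409ff8009ff840891000891040b7f0309c80009ce120b850309ce0009ce0409ff800cf9800b805a0e7a5a0b85800b8c1a0d0b830e86000e868a0b8c000b8c040891800891840b8d0308920008920406e603089600089604071c83089680089684041603059000059004041683059080059084041b8305958005958403e603059600059604041c83059680059684042283059c80059c8404288305a28005a28403e603041c80041c8409ce030b48000b4804099f830b4f800b4f8409a5830b56000b5604098c8009929209988009d53a09ce0309ce8009ce8409988309cf0009cf0409db0009db010e7e830e7f000e859a0e86000e868a0b8c000b8c0109a58009a5810999800999810e7e830e7f000e859a0e86000e868a0b8c000b8c01099f80099f810993800993840b8d030a0c000a0c0409d50009d504099f8309d58009d58409db0309db8009db8409a58309dc0009dc0406d383084d80084d8406d403084e00084e0406da0308540008540406da8308548008548406db0308550008550406db8308558008558406e003085a00085a0406e083085a80085a8406e103085b00085b0406e183085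b80085b8406e203085c00085c0406e70308610008610406a38306d98006d98406a00506998008205206d5b206db8006db8406b08306e68006e68406b08306e70006e70403d903055300055304051d83055380055384051e0305540005540403db0305550005550403e003055a00055a0403e083055a80055a8403aa83055b00055b0403ab83055b80055b8403e60305600005600405600305608005608403b08305610005610403b18305618005618403b18305620005620403ed0305670005670403ed8305678005678403b78305680005680403f303056d00056d0403a38303d98003d98403a38303da0003da0403a48303da8003da84051f0303db0003db0403aa8303e08003e08403e60303e68003e68403b08303e70003e70403b18303e78003e78403b78303ed8003ed840992830993000993040b0c83081200081204069d83081780081784069e03081800081804069e8308188008188406a483081e80081e840b1983081f00081f0406aa8308248008248406ab0308250008250406ab8308258008258406b183082b80082b8403a383051d80051d84051d83051e00051e0403a483051e80051e8403aa8305248005248403aa8305250005250403b083052a80052a84052a83052b00052b0403b183052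b80052b8403b78305318005318403b78305320005320403bd8305378005378403aa8303ab0003ab0406620307dc0007dc0406680307e20007e20406688307e28007e284066f0307e90007e90406750307ef0007ef0406758307ef8007ef84066e03066e80066e84067b03067b80067b840b128307e20007e81204b78004b7840b1f8307ef0007f51204c48004c48409e08009d3800673800b5ac20b4dc207edc203eb800cd4800cc7800ca0000c9f000c93000c920009ab0009a380099e00099680099100097580096e00096880096100095b80093300092600063e0006368006310003bb8003b60003eb8103ae8003a900038600038080037900037380036680035080034b00034380033f00033e000336800332000331000e86870e80870e80070e7a070e79870e74070e73870e73070e6d870e6d070e50870e4a870e4a070e44070e43870e3e070e3d870e3d070e37870e37070d06070d05070d04070cfa070cf9070cf8070cd6870cd6070cd5870cd5070cd48f0cd0870cd0070ccf870ccf070cce870cce070cca070cc9870cc9070cc8870cc8070cc78f0cc4070cc3870cc3070cc2870cc2070cbd870cbd070ca00f0c9f0f0c930f0c920f0b8d070b8c870b87070b86870b86070b80070b7f870b7a070b7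9870b73070b57070b56870b51070b50870b50070b4a070b49870b44070b43870b43070b3d070b3c870b19870b13870b13070b0c870b06870b06070ae3870add870add070ad6870ad0870ad0070a13070a12070a10070a0d070a06070a05070a04070a000709f90709dd0709dc8709d70709d68709d60709d00709cf8709ca0709c98709c90709c30709c28709ab0f09aa8709aa0709a50709a48709a40709a38f099e87099e0f099d87099d0709990709980709978709970709968f09918709910f098c0709758f096f87096f07096e0f09698709690709688f09638709630709628709620709610f095d87095d07095c87095c07095b8f09568709560709330f09260f088c07085607082007081f87081a0708198708190708128707ea0707e98707e40707e38707e30707dc87071c0707100706dc0706d58706cf8706cf0706b10706b00706a60706a50706a40706a307069907069807069707067007066f87066a07066987066907066287065c07064507064487063e87063e0f063d87063d0706390706380706378706370706368f06318706310f062c07055587052c07052587051f87051f0705190705188704e90704e30704e28704bf8704b90704b28704ac07042807041c07041b0704100703d50703b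d0703bc8703bb8f03b68703b60f03b58703b50703b10703b00703af8703af0703ae8f03a98703a90f03a50703a40703a30703a287039c8703878703870703860f03818703810703808f037b87037b07037a87037a0703790f03758703750703748703740703738f036f87036f07036e87036e07036d87036d0703690703688703680703678703670703668f03508f034b0f03438f033f0f033e0f03368f03320f03310f02ae8702ae0702a88702a80702a28702a20702a18702a107029c87029c07029b87029b07029687029607029587027907027887027807027387027307027287027207027187027107026d87026d07026c87026c07026b87026b07026687026607026587026507026107026087026007025f87025f07025e87025b07025a87025907025887024387024307024287023d87023d07023c87023b87023b07023787023707023687023607023587023507023187023107023087023007022f87022b87022b07022a87022a07022987022907022887022507022487022407022387022307022287020d87020d0702078702070702018702010702008702000701fb8701fb0701fa8701fa0701f58701f50701f48701f40701f38701f30701ee8701ee0701ed8701ed07 = true := by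
  decide +kernel

theorem k4_w (hf : Rule f) (H : K4H f k c n) :
    f (6 * k + 4) c (2 * n + 0 + 1) (2 * n + 0 - 2 * k + 6) ∨ f (6 * k + 4) c (2 * n + 0 + 3) (2 * n + 0 - 2 * k + 8) := by
  by_contra hg
  have hk := H.hk
  have hc := H.hc
  have h4 := H.h4
  have hb := H.hb
  have hN2 := H.hn
  obtain ⟨a0, ha0⟩ : ∃ a0, a0 + 2 = 6 * k := ⟨6 * k - 2, by omega⟩
  obtain ⟨b0, hb0⟩ : ∃ b0, b0 + 5 = c := ⟨c - 5, by omega⟩
  obtain ⟨x0, hx0⟩ : ∃ x0, x0 + 2 = 2 * n + 0 := ⟨2 * n + 0 - 2, by omega⟩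
  obtain ⟨y0, hy0⟩ : ∃ y0, y0 + 2 = 2 * n + 0 - 2 * k := ⟨2 * n + 0 - 2 * k - 2, by omega⟩
  refine check_sound hf (a0 := a0) (b0 := b0) (x0 := x0) (y0 := y0) k4_chk
    ⟨fun h => absurd h (by decide), fun h => absurd h (by decide), fun h => absurd h (by decide),
      by omega, by omega, by omega, by omega⟩ ?_ ?_
  · intro j m p q hr h
    obtain ⟨-, -, hn1, hn2, hp1, hp2, hq1, hq2⟩ := hr
    unfold k4T at h
    simp only [Bool.or_eq_true, decide_eq_true_eq] at h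
    rcases h with h | h | h | h | h | h | h | h | h
    · obtain ⟨⟨rfl, rfl, h1⟩, h2⟩ := h
      exact (WrapC.v0 H.c0 (by omega) (by omega) (by omega) (by omega) (by omega) (by omega) (by omega)).mpr (by omega)
    · obtain ⟨⟨rfl, rfl, h1⟩, h2⟩ := h
      exact (WrapC.v1 H.c0 (by omega) (by omega) (by omega) (by omega) (by omega) (by omega) (by omega) (by omega)).mpr (by omega)
    · obtain ⟨⟨rfl, rfl, h1⟩, h2⟩ := h
      exact (WrapC.v2 H.c0 (by omega) (by omega) (by omega) (by omega) (by omega) (by omega) (by omega)).mpr (by omega)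
    · obtain ⟨⟨rfl, rfl, h1⟩, h2⟩ := h
      exact (WrapC.v2 H.c2a (by omega) (by omega) (by omega) (by omega) (by omega) (by omega) (by omega)).mpr (by omega)
    · obtain ⟨⟨rfl, rfl, h1⟩, h2⟩ := h
      exact (WrapC.v0 H.c4 (by omega) (by omega) (by omega) (by omega) (by omega) (by omega) (by omega)).mpr (by omega)
    · obtain ⟨⟨rfl, rfl, h1⟩, h2⟩ := h
      exact (WrapC.v1 H.c4 (by omega) (by omega) (by omega) (by omega) (by omega) (by omega) (by omega) (by omega)).mpr (by omega)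
    · obtain ⟨⟨rfl, rfl, h1⟩, h2⟩ := h
      exact (WrapC.v2 H.c4 (by omega) (by omega) (by omega) (by omega) (by omega) (by omega) (by omega)).mpr (by omega)
    · obtain ⟨⟨rfl, rfl, h1⟩, h2⟩ := h
      exact (WrapC.v0 H.c6 (by omega) (by omega) (by omega) (by omega) (by omega) (by omega) (by omega)).mpr (by omega)
    · obtain ⟨⟨rfl, rfl, h1⟩, h2⟩ := h
      exact (WrapC.v1 H.c6 (by omega) (by omega) (by omega) (by omega) (by omega) (by omega) (by omega) (by omega)).mpr (by omega)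
  · intro j m p q hr h
    obtain ⟨-, -, hn1, hn2, hp1, hp2, hq1, hq2⟩ := hr
    unfold k4F at h
    simp only [Bool.or_eq_true, decide_eq_true_eq] at h
    rcases h with h | h | h | h | h | h | h | h | h | h | h | h | h | h | h | h | h | h | h | h | h | h | h | h | h | h | h | h | h
    · obtain ⟨⟨rfl, rfl, h1⟩, h2⟩ := h
      exact mt (WrapC.v1 H.c0 (by omega) (by omega) (by omega) (by omega) (by omega) (by omega) (by omega) (by omega)).mp (by omega)
    · obtain ⟨⟨rfl, rfl, h1⟩, h2⟩ := h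
      exact mt (WrapC.v2 H.c0 (by omega) (by omega) (by omega) (by omega) (by omega) (by omega) (by omega)).mp (by omega)
    · obtain ⟨⟨rfl, rfl, h1⟩, h2⟩ := h
      exact mt (WrapC.v2 H.c2a (by omega) (by omega) (by omega) (by omega) (by omega) (by omega) (by omega)).mp (by omega)
    · obtain ⟨⟨rfl, rfl, h1⟩, h2⟩ := h
      exact mt (WrapC.v1 H.c4 (by omega) (by omega) (by omega) (by omega) (by omega) (by omega) (by omega) (by omega)).mp (by omega)
    · obtain ⟨⟨rfl, rfl, h1⟩, h2⟩ := h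
      exact mt (WrapC.v2 H.c4 (by omega) (by omega) (by omega) (by omega) (by omega) (by omega) (by omega)).mp (by omega)
    · obtain ⟨⟨rfl, rfl, h1⟩, h2⟩ := h
      exact mt (WrapC.v1 H.c6 (by omega) (by omega) (by omega) (by omega) (by omega) (by omega) (by omega) (by omega)).mp (by omega)
    · obtain ⟨rfl, rfl, h1⟩ := h
      exact NHZ.NHT8.rI hf H.T (t := 3) (j := 3) (p := 0) (by omega) (by omega) (by omega) (by omega) (by omega) (by omega) (by omega) (by omega)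
    · obtain ⟨rfl, rfl, h1⟩ := h
      exact NHZ.NHT8.pI hf H.T (t := 2) (j := 1) (by omega) (by omega) (by omega) (by omega) (by omega) (by omega) (by omega)
    · obtain ⟨rfl, rfl, h1⟩ := h
      exact NHZ.NHT8.rI hf H.T (t := 2) (j := 2) (p := 1) (by omega) (by omega) (by omega) (by omega) (by omega) (by omega) (by omega) (by omega)
    · obtain ⟨rfl, rfl, h1⟩ := h
      exact NHZ.NHT8.pI hf H.T (t := 3) (j := 2) (by omega) (by omega) (by omega) (by omega) (by omega) (by omega) (by omega)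
    · obtain ⟨rfl, rfl, h1⟩ := h
      exact NHZ.NHT8.rI hf H.T (t := 3) (j := 3) (p := 1) (by omega) (by omega) (by omega) (by omega) (by omega) (by omega) (by omega) (by omega)
    · obtain ⟨rfl, rfl, h1⟩ := h
      exact NHZ.NHT8.rI hf H.T (t := 2) (j := 1) (p := 0) (by omega) (by omega) (by omega) (by omega) (by omega) (by omega) (by omega) (by omega)
    · obtain ⟨rfl, rfl, h1⟩ := h
      exact NHZ.NHT8.rI hf H.T (t := 3) (j := 2) (p := 0) (by omega) (by omega) (by omega) (by omega) (by omega) (by omega) (by omega) (by omega)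
    · obtain ⟨rfl, rfl, h1⟩ := h
      exact NHZ.NHT8.rI hf H.T (t := 2) (j := 1) (p := 1) (by omega) (by omega) (by omega) (by omega) (by omega) (by omega) (by omega) (by omega)
    · obtain ⟨rfl, rfl, h1⟩ := h
      exact NHZ.NHT8.pI hf H.T (t := 3) (j := 1) (by omega) (by omega) (by omega) (by omega) (by omega) (by omega) (by omega)
    · obtain ⟨rfl, rfl, h1⟩ := h
      exact NHZ.NHT8.rI hf H.T (t := 3) (j := 2) (p := 1) (by omega) (by omega) (by omega) (by omega) (by omega) (by omega) (by omega) (by omega)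
    · obtain ⟨rfl, rfl, h1⟩ := h
      exact NHZ.NHT8.pI4 hf H.T (j := 2) (by omega) (by omega) (by omega) (by omega) (by omega) (by omega)
    · obtain ⟨rfl, rfl, h1⟩ := h
      exact NHZ.NHT8.rI hf H.T (t := 3) (j := 1) (p := 0) (by omega) (by omega) (by omega) (by omega) (by omega) (by omega) (by omega) (by omega)
    · obtain ⟨rfl, rfl, h1⟩ := h
      exact NHZ.NHT8.rI hf H.T (t := 2) (j := 0) (p := 1) (by omega) (by omega) (by omega) (by omega) (by omega) (by omega) (by omega) (by omega)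
    · obtain ⟨rfl, rfl, h1⟩ := h
      exact NHZ.NHT8.pI hf H.T (t := 3) (j := 0) (by omega) (by omega) (by omega) (by omega) (by omega) (by omega) (by omega)
    · obtain ⟨rfl, rfl, h1⟩ := h
      exact NHZ.NHT8.rI hf H.T (t := 3) (j := 1) (p := 1) (by omega) (by omega) (by omega) (by omega) (by omega) (by omega) (by omega) (by omega)
    · obtain ⟨rfl, rfl, h1⟩ := h
      exact NHZ.NHT8.pI4 hf H.T (j := 1) (by omega) (by omega) (by omega) (by omega) (by omega) (by omega)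
    · obtain ⟨rfl, rfl, h1⟩ := h
      exact NHZ.NHT8.pQ5 hf H.T (j := 2) (by omega) (by omega) (by omega) (by omega) (by omega) (by omega)
    · obtain ⟨rfl, rfl, h1⟩ := h
      exact NHZ.NHT8.rI hf H.T (t := 3) (j := 0) (p := 1) (by omega) (by omega) (by omega) (by omega) (by omega) (by omega) (by omega) (by omega)
    · obtain ⟨rfl, rfl, h1⟩ := h
      exact NHZ.NHT8.pI4 hf H.T (j := 0) (by omega) (by omega) (by omega) (by omega) (by omega) (by omega)
    · obtain ⟨rfl, rfl, h1⟩ := h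
      exact NHZ.NHT8.pQ5 hf H.T (j := 1) (by omega) (by omega) (by omega) (by omega) (by omega) (by omega)
    · obtain ⟨rfl, h1⟩ := h
      exact H.lw _ _ _ _ (by omega) (by omega) (by omega) (by omega) (by omega) (by omega)
    · obtain ⟨rfl, rfl, rfl, rfl⟩ := h
      exact fun h2 => hg (Or.inl (mv h2 (by omega) (by omega) (by omega) (by omega)))
    · obtain ⟨rfl, rfl, rfl, rfl⟩ := h
      exact fun h2 => hg (Or.inr (mv h2 (by omega) (by omega) (by omega) (by omega)))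

theorem K4H.of_stack {k b m : ℕ} (hs : Side k b m) (S : Stack6 f k b m 0 0 0 0 1 1) {n : ℕ}
    (hn : n = m + 7 + (k + 2) * 4) (d0 : Cyc f (6 * k) (b + 16) (2 * (n - 5) + 2)) :
    K4H f k (b + 20) n where
  hk := hs.1
  hc := by have := hs.2.1; omega
  h4 := by have := hs.2.2.1; omega
  hb := by have := hs.2.2.2.1; omega
  hn := by have := hs.2.2.2.1; have := hs.2.2.2.2; omega
  T := by
    subst hn
    exact NHZ.NHT8.of_stack hs S
  c0 := NW.cyc_mv d0 rfl (by omega) rfl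
  c2a := NW.cyc_mv (S.l2 3) rfl (by omega) (by omega)
  c4 := NW.cyc_mv (S.l4 4) rfl (by omega) (by omega)
  c6 := NW.cyc_mv (S.l6 4) rfl (by omega) (by omega)
  lw := by
    intro M R x y hM h1 h2 h3 h4 h5
    obtain ⟨k1, k2, k3, k4, k5⟩ := hs
    have e : M = 6 * k - 1 := by omega
    rw [e]
    exact NHZ.lw_zero ⟨k1, k2, k3, k4, k5⟩ S (i := R - b) (by omega) (by omega) (by omega) h4 (by omega)

/-- The third cells above the wall of the in-lines `2 n + 1` and `2 n + 3` of `6 k + 4`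
are not both empty. -/
theorem k4 {b m : ℕ} (hf : Rule f) (hs : Side k b m) (S : Stack6 f k b m 0 0 0 0 1 1)
    (d0 : Cyc f (6 * k) (b + 16) (2 * (m + 2 + (k + 2) * 4) + 2)) {x y : ℕ}
    (hx : x = 2 * (m + 7 + (k + 2) * 4) + 1) (hy : y + 2 * k = x + 5) :
    f (6 * k + 4) (b + 20) x y ∨ f (6 * k + 4) (b + 20) (x + 2) (y + 2) := by
  have hk := hs.1
  have hm := hs.2.2.2.2
  have e : m + 2 + (k + 2) * 4 = m + 7 + (k + 2) * 4 - 5 := by omega
  rw [e] at d0
  rcases k4_w hf (K4H.of_stack hs S rfl d0) with h | h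
  · exact Or.inl (mv h (by omega) (by omega) (by omega) (by omega))
  · exact Or.inr (mv h (by omega) (by omega) (by omega) (by omega))

end Pool.Agent.SNT.LocR8
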