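import Pool.Agent.SNT.LocR8DW
import Pool.Agent.SNT.LocR8K2
import Pool.Agent.SNT.LocR8K4
import Pool.Agent.SNT.DRun
import Pool.Agent.SNT.LocR8_d4aa
import Pool.Agent.SNT.LocR8_d4ab
import Pool.Agent.SNT.LocR8_d4ba
import Pool.Agent.SNT.LocR8_d4bb
import Pool.Agent.SNT.LocR8_d5a
import Pool.Agent.SNT.LocR8_d5b

set_option autoImplicit false

/-! The two diagonal cells of the zone `z3` of the leader `6 k + 8`: the present in-lines of `6 k + 2`
and of `6 k + 4` run up to the diagonal. -/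

namespace Pool.Agent.SNT.LocR8

open Pool.Agent.SNT Pool.Agent.SNT.Loc Pool.Agent.SNT.LW Pool.Agent.SNT.NHZ

variable {f : ℕ → ℕ → ℕ → ℕ → Prop}

/-- The run of an in-line of `6 k + 2` in the row `c - 2`. -/
theorem run2 (hf : Rule f) {k c n x y : ℕ} (T : NHT8 f k c (2 * n)) (hx : x % 2 = 1)
    (hx2 : 2 * n ≤ x + 5) (hy : y + 2 * k = x + 5) (h : f (6 * k + 2) (c - 2) x y) :
    f (6 * k + 2) (c - 2) x (x - 5) := by
  have hk := T.hk
  have hc := T.hc
  have hb := T.hb
  have hN := T.hN2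
  refine DRun.col_run hf (y0 := y) (y1 := x - 5) (by omega) (by omega) hx (by omega) ?_ h
    (x - 5) (by omega) le_rfl (by omega)
  intro z h1 h2 h3
  exact T.cQ4 hf (j := 3) (by omega) (by omega) (by omega) (by omega) (by omega) (by omega)
    (by omega)

/-- The run of an in-line of `6 k + 4` in the row `c`. -/
theorem run4 (hf : Rule f) {k c n x y : ℕ} (T : NHT8 f k c (2 * n)) (hx : x % 2 = 1)
    (hx2 : 2 * n + 1 ≤ x) (hy : y + 2 * k = x + 5) (h : f (6 * k + 4) c x y) :
    f (6 * k + 4) c x (x - 5) := by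
  have hk := T.hk
  have hc := T.hc
  have hb := T.hb
  have hN := T.hN2
  refine DRun.col_run hf (y0 := y) (y1 := x - 5) (by omega) (by omega) hx (by omega) ?_ h
    (x - 5) (by omega) le_rfl (by omega)
  intro z h1 h2 h3
  exact T.cQ5 hf (j := 3) (by omega) (by omega) (by omega) (by omega) (by omega) (by omega)
    (by omega)

/-- **The diagonal cells of `z3`.** -/
theorem z3_cells (hf : Rule f) {k b m : ℕ} (hs : Side k b m) (S : Stack6 f k b m 0 0 0 0 1 1)
    (tip : f (6 * k + 8) (b + 20) (2 * (m + 7 + (k + 2) * 4) + 1) (2 * (m + 7 + (k + 2) * 4)))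
    (d2 : Cyc f (6 * k + 2) (b + 18) (2 * (m + 5 + (k + 2) * 4) + 2))
    (d0 : Cyc f (6 * k) (b + 16) (2 * (m + 2 + (k + 2) * 4) + 2)) {x : ℕ}
    (hx : x = 2 * (m + 7 + (k + 2) * 4) + 4 ∨ x = 2 * (m + 7 + (k + 2) * 4) + 5) :
    ¬ f (6 * k + 7) (b + 23) x x := by
  have W := DW.of_stack hf hs S tip d2 d0
  have T := W.T
  obtain ⟨n, hn⟩ : ∃ n, n = m + 7 + (k + 2) * 4 := ⟨_, rfl⟩
  have p4 := k4 hf hs S d0 (x := 2 * n + 1) (y := 2 * n + 6 - 2 * k) (by omega) (by omega)
  have p2 := k2 hf hs S (x := 2 * n - 5) (y := 2 * n - 2 * k) (by omega) (by omega)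
  have hk := hs.1
  have hm := hs.2.2.2.2
  have hb := hs.2.2.2.1
  rw [← hn] at W T tip hx
  have q4 : f (6 * k + 4) (b + 20) (2 * n + 1) (2 * n - 4) ∨
      f (6 * k + 4) (b + 20) (2 * n + 3) (2 * n - 2) := by
    rcases p4 with h | h
    · left
      have h1 := run4 hf T (by omega) (by omega) (by omega) h
      exact mv h1 rfl rfl rfl (by omega)
    · right
      have h1 := run4 hf T (by omega) (by omega) (by omega) h
      exact mv h1 rfl rfl (by omega) (by omega)
  have q2 : f (6 * k + 2) (b + 20 - 2) (2 * n - 5) (2 * n - 10) ∨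
      f (6 * k + 2) (b + 20 - 2) (2 * n - 3) (2 * n - 8) := by
    have e : b + 18 = b + 20 - 2 := by omega
    rw [e] at p2
    rcases p2 with h | h
    · left
      have h1 := run2 hf T (by omega) (by omega) (by omega) h
      exact mv h1 rfl rfl rfl (by omega)
    · right
      have h1 := run2 hf T (by omega) (by omega) (by omega) h
      exact mv h1 rfl rfl (by omega) (by omega)
  rcases hx with rfl | rfl
  · rcases q2 with h2 | h2 <;> rcases q4 with h4 | h4
    · exact d4aa hf W tip h2 h4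
    · exact d4ab hf W tip h2 h4
    · exact d4ba hf W tip h2 h4
    · exact d4bb hf W tip h2 h4
  · rcases q4 with h4 | h4
    · exact d5a hf W tip h4
    · exact d5b hf W tip h4

end Pool.Agent.SNT.LocR8
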