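import Pool.Agent.SNT.ExtC
import Pool.Agent.SNT.Stack6

set_option autoImplicit false

/-! LOCATION of the leader `6 k + 8`: the odd layers in the exterior, rows up to `c + 1`, where
`c = b + 20` is the IN row of the leader. -/

namespace Pool.Agent.SNT.LocR8

open Pool.Agent.SNT.ExtC

variable {f : ℕ → ℕ → ℕ → ℕ → Prop}

/-- The exterior zones of the leader `6 k + 8` (`c` its IN row, `N = 2 n`). -/
structure X8 (f : ℕ → ℕ → ℕ → ℕ → Prop) (k c N E : ℕ) : Prop where
  q2 : Ze f (6 * k + 1) (c - 2) (N - 5) (2 * k) E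
  q0 : Ze f (6 * k + 1) c (N - 2) (2 * k + 1) E
  r2 : Ze f (6 * k + 3) (c - 2) (N - 4) (2 * k + 2) E
  r1 : Ze f (6 * k + 3) (c - 1) (N - 4) (2 * k + 1) E
  r0 : Ze f (6 * k + 3) c N (2 * k + 2) E
  rp : Ze f (6 * k + 3) (c + 1) (N - 1) (2 * k + 2) E
  s0 : Ze f (6 * k + 5) c (N + 1) (2 * k + 3) E
  sp : Ze f (6 * k + 5) (c + 1) (N + 1) (2 * k + 3) E
  tp : Ze f (6 * k + 7) (c + 1) (N + 2) (2 * k + 4) E
  e0 : Ex f (6 * k) (c - 1) (N - 2) (2 * k + 1) E
  e4 : Ex f (6 * k + 4) (c - 1) (N - 2) (2 * k + 3) E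

theorem X8.of_stack (hf : Rule f) {k b m : ℕ} (hs : Side k b m) (S : Stack6 f k b m 0 0 0 0 1 1)
    (D2 : Cyc f (6 * k + 2) (b + 18) (2 * (m + 5 + (k + 2) * 4) + 2))
    (D0 : Cyc f (6 * k) (b + 16) (2 * (m + 2 + (k + 2) * 4) + 2)) :
    X8 f k (b + 20) (2 * (m + 7 + (k + 2) * 4)) (b / 2) := by
  obtain ⟨hk, hb2, hb4, hbk, hbm⟩ := hs
  have e4 : (k + 2) * 4 = 4 * k + 8 := by ring
  have e3 : (k + 2) * 3 = 3 * k + 6 := by ring
  have g0 : 6 * k / 6 = k := by omega
  have g2 : (6 * k + 2) / 6 = k := by omega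
  have g4 : (6 * k + 4) / 6 = k := by omega
  obtain ⟨N, hN⟩ : ∃ N, N = 2 * (m + 7 + (k + 2) * 4) := ⟨_, rfl⟩
  obtain ⟨E, hE⟩ : ∃ E, E = b / 2 := ⟨_, rfl⟩
  obtain ⟨X, hX⟩ : ∃ X, X = 2 * m - (100 * k + 1000) := ⟨_, rfl⟩
  rw [← hN, ← hE]
  -- the layer `6 k - 1`
  have z : ∀ r V : ℕ, b + 4 ≤ r → r ≤ b + 40 → X ≤ V → Ze f (6 * k - 1) r V 0 (E + 20) := by
    intro r V h1 h2 h3
    have h4 := S.lw (r - b) (by omega)
    have e : b + (r - b) = r := by omega
    rw [e, ← hX] at h4
    exact Ze.of_st (by omega) (by omega) h4 h3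
  -- the cycles
  have C0m := S.l0 3
  have C0 := D0
  have C2m := S.l2 3
  have C2 := D2
  have C4 := S.l4 4
  rw [e3] at C0m C2m
  rw [e4] at C0 C2 C4 hN
  -- the layer `6 k + 1` in the odd rows
  have qo : ∀ r : ℕ, b + 8 ≤ r → r ≤ b + 30 → r % 2 = 0 →
      Ze f (6 * k + 1) (r + 1) (N - 20) 1 (E + 19) := by
    intro r h1 h2 h3
    have := Ze.odd hf (L := 6 * k) (P := 6 * k - 1) (Q := 6 * k + 1) (r := r) (V := N - 21) (D := 0)
      (E := E + 20) (by omega) (by omega) (by omega) h3 (z _ _ (by omega) (by omega) (by omega))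
      (z _ _ (by omega) (by omega) (by omega)) (by omega)
    exact this.mono (by omega) (by omega) (by omega)
  -- `6 k` in the row `c - 5`
  have t1 : Ex f (6 * k) (b + 15) (N - 10) (2 * k + 1) (E + 19) :=
    (Ex.step hf (L := 6 * k) (P := 6 * k - 1) (r := b + 14) (V := N - 12) (D := 2 * k) (DP := 1)
      (E := E + 20) (by omega) (by omega) (by omega) (by omega) (by omega) (by omega)
      (Ex.of_r2x C0m (by omega) (by omega) (by omega))
      ((z _ _ (by omega) (by omega) (by omega)).mono le_rfl (by omega) le_rfl)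
      ((z _ _ (by omega) (by omega) (by omega)).mono le_rfl (by omega) le_rfl)
      (D' := 2 * k + 1) (by omega) (by omega) le_rfl).mono (by omega) le_rfl (by omega)
  have t2 : Ze f (6 * k + 1) (b + 16) (N - 9) (2 * k + 1) (E + 18) :=
    (Ze.even hf (L := 6 * k) (P := 6 * k - 1) (r := b + 15) (V := N - 10) (W := N - 20)
      (D := 2 * k + 1) (DP := 0) (E := E + 19) (by omega) (by omega) (by omega) (by omega)
      (by omega) (by omega) (by omega) (by omega) t1
      ((z _ _ (by omega) (by omega) (by omega)).mono le_rfl le_rfl (by omega))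
      ((z _ _ (by omega) (by omega) (by omega)).mono le_rfl le_rfl (by omega))
      (V' := N - 9) (D' := 2 * k + 1) (by omega) (Or.inl (by omega)) le_rfl (by omega)).mono
      le_rfl le_rfl (by omega)
  have t5 : Ex f (6 * k + 2) (b + 17) (N - 6) (2 * k + 2) (E + 17) :=
    (Ex.step hf (L := 6 * k + 2) (P := 6 * k + 1) (r := b + 16) (V := N - 8) (D := 2 * k)
      (DP := 2 * k + 1) (E := E + 18) (by omega) (by omega) (by omega) (by omega) (by omega)
      (by omega) (Ex.of_r2x C2m (by omega) (by omega) (by omega))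
      ((qo (b + 16) (by omega) (by omega) (by omega)).mono (by omega) (by omega) (by omega))
      (t2.mono (by omega) le_rfl le_rfl) (D' := 2 * k + 2) (by omega) (by omega) (by omega)).mono
      (by omega) le_rfl (by omega)
  have t6 : Ze f (6 * k + 1) (b + 18) (N - 5) (2 * k) (E + 17) :=
    (Ze.even hf (L := 6 * k) (P := 6 * k - 1) (r := b + 17) (V := N - 6) (W := N - 20)
      (D := 2 * k) (DP := 0) (E := E + 18) (by omega) (by omega) (by omega) (by omega)
      (by omega) (by omega) (by omega) (by omega) (Ex.of_st C0.r1 (by omega))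
      ((z _ _ (by omega) (by omega) (by omega)).mono le_rfl le_rfl (by omega))
      ((z _ _ (by omega) (by omega) (by omega)).mono le_rfl le_rfl (by omega))
      (V' := N - 5) (D' := 2 * k) (by omega) (Or.inl (by omega)) le_rfl (by omega)).mono
      le_rfl le_rfl (by omega)
  have t7 : Ze f (6 * k + 3) (b + 18) (N - 4) (2 * k + 2) (E + 16) :=
    (Ze.even hf (L := 6 * k + 2) (P := 6 * k + 1) (r := b + 17) (V := N - 6) (W := N - 5)
      (D := 2 * k + 2) (DP := 2 * k) (E := E + 17) (by omega) (by omega) (by omega) (by omega)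
      (by omega) (by omega) (by omega) (by omega) t5 t6
      ((qo (b + 16) (by omega) (by omega) (by omega)).mono (by omega) (by omega) (by omega))
      (V' := N - 4) (D' := 2 * k + 2) (by omega) (Or.inl (by omega)) le_rfl (by omega)).mono
      le_rfl le_rfl (by omega)
  have t8 : Ze f (6 * k + 3) (b + 19) (N - 4) (2 * k + 1) (E + 16) :=
    (Ze.odd hf (L := 6 * k + 2) (P := 6 * k + 1) (Q := 6 * k + 3) (r := b + 18) (V := N - 5)
      (D := 2 * k) (E := E + 17) (by omega) (by omega) (by omega) (by omega)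
      ((qo (b + 18) (by omega) (by omega) (by omega)).mono (by omega) (by omega) (by omega)) t6
      (by omega)).mono (by omega) le_rfl (by omega)
  have t9 : Ex f (6 * k + 4) (b + 19) (N - 2) (2 * k + 3) (E + 15) :=
    (Ex.step hf (L := 6 * k + 4) (P := 6 * k + 3) (r := b + 18) (V := N - 4) (D := 2 * k)
      (DP := 2 * k + 2) (E := E + 16) (by omega) (by omega) (by omega) (by omega) (by omega)
      (by omega) (Ex.of_r2x C4 (by omega) (by omega) (by omega))
      (t8.mono (by omega) (by omega) le_rfl) (t7.mono (by omega) le_rfl le_rfl)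
      (D' := 2 * k + 3) (by omega) (by omega) (by omega)).mono (by omega) le_rfl (by omega)
  have t10 : Ex f (6 * k) (b + 19) (N - 2) (2 * k + 1) (E + 17) :=
    (Ex.step hf (L := 6 * k) (P := 6 * k - 1) (r := b + 18) (V := N - 4) (D := 2 * k)
      (DP := 1) (E := E + 18) (by omega) (by omega) (by omega) (by omega) (by omega) (by omega)
      (Ex.of_r2x C0 (by omega) (by omega) (by omega))
      ((z _ _ (by omega) (by omega) (by omega)).mono le_rfl (by omega) (by omega))
      ((z _ _ (by omega) (by omega) (by omega)).mono le_rfl (by omega) (by omega))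
      (D' := 2 * k + 1) (by omega) (by omega) le_rfl).mono (by omega) le_rfl (by omega)
  have t11 : Ze f (6 * k + 1) (b + 20) (N - 2) (2 * k + 1) (E + 16) :=
    (Ze.even hf (L := 6 * k) (P := 6 * k - 1) (r := b + 19) (V := N - 2) (W := N - 20)
      (D := 2 * k + 1) (DP := 0) (E := E + 17) (by omega) (by omega) (by omega) (by omega)
      (by omega) (by omega) (by omega) (by omega) t10
      ((z _ _ (by omega) (by omega) (by omega)).mono le_rfl le_rfl (by omega))
      ((z _ _ (by omega) (by omega) (by omega)).mono le_rfl le_rfl (by omega))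
      (V' := N - 2) (D' := 2 * k + 1) (by omega) (Or.inr ⟨le_rfl, by omega⟩) le_rfl
      (by omega)).mono le_rfl le_rfl (by omega)
  have t12 : Ze f (6 * k + 3) (b + 21) (N - 1) (2 * k + 2) (E + 15) :=
    (Ze.odd hf (L := 6 * k + 2) (P := 6 * k + 1) (Q := 6 * k + 3) (r := b + 20) (V := N - 2)
      (D := 2 * k + 1) (E := E + 16) (by omega) (by omega) (by omega) (by omega)
      ((qo (b + 20) (by omega) (by omega) (by omega)).mono (by omega) (by omega) (by omega)) t11
      (by omega)).mono (by omega) le_rfl (by omega)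
  have t13 : Ze f (6 * k + 3) (b + 20) N (2 * k + 2) (E + 14) :=
    (Ze.even hf (L := 6 * k + 2) (P := 6 * k + 1) (r := b + 19) (V := N) (W := N - 1)
      (D := 2 * k) (DP := 2 * k + 1) (E := E + 15) (by omega) (by omega) (by omega) (by omega)
      (by omega) (by omega) (by omega) (by omega) (Ex.of_st C2.r1 (by omega))
      (t11.mono (by omega) le_rfl (by omega))
      ((qo (b + 18) (by omega) (by omega) (by omega)).mono (by omega) (by omega) (by omega))
      (V' := N) (D' := 2 * k + 2) (by omega) (Or.inr ⟨le_rfl, by omega⟩) (by omega)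
      (by omega)).mono le_rfl le_rfl (by omega)
  have t14 : Ze f (6 * k + 5) (b + 20) (N + 1) (2 * k + 3) (E + 13) :=
    (Ze.even hf (L := 6 * k + 4) (P := 6 * k + 3) (r := b + 19) (V := N - 2) (W := N)
      (D := 2 * k + 3) (DP := 2 * k + 2) (E := E + 14) (by omega) (by omega) (by omega) (by omega)
      (by omega) (by omega) (by omega) (by omega) (t9.mono le_rfl le_rfl (by omega)) t13
      (t8.mono (by omega) (by omega) (by omega))
      (V' := N + 1) (D' := 2 * k + 3) (by omega) (Or.inl (by omega)) (by omega)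
      (by omega)).mono le_rfl le_rfl (by omega)
  have t15 : Ze f (6 * k + 5) (b + 21) (N + 1) (2 * k + 3) (E + 13) :=
    (Ze.odd hf (L := 6 * k + 4) (P := 6 * k + 3) (Q := 6 * k + 5) (r := b + 20) (V := N)
      (D := 2 * k + 2) (E := E + 14) (by omega) (by omega) (by omega) (by omega)
      (t12.mono (by omega) le_rfl (by omega)) t13 (by omega)).mono (by omega) le_rfl (by omega)
  have t16 : Ze f (6 * k + 7) (b + 21) (N + 2) (2 * k + 4) (E + 12) :=
    (Ze.odd hf (L := 6 * k + 6) (P := 6 * k + 5) (Q := 6 * k + 7) (r := b + 20) (V := N + 1)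
      (D := 2 * k + 3) (E := E + 13) (by omega) (by omega) (by omega) (by omega)
      t15 t14 (by omega)).mono (by omega) le_rfl (by omega)
  have r2 : b + 20 - 2 = b + 18 := by omega
  have r1 : b + 20 - 1 = b + 19 := by omega
  refine ⟨?_, ?_, ?_, ?_, ?_, ?_, ?_, ?_, ?_, ?_, ?_⟩
  · rw [r2]; exact t6.mono le_rfl le_rfl (by omega)
  · exact t11.mono le_rfl le_rfl (by omega)
  · rw [r2]; exact t7.mono le_rfl le_rfl (by omega)
  · rw [r1]; exact t8.mono le_rfl le_rfl (by omega)
  · exact t13.mono le_rfl le_rfl (by omega)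
  · exact t12.mono le_rfl le_rfl (by omega)
  · exact t14.mono le_rfl le_rfl (by omega)
  · exact t15.mono le_rfl le_rfl (by omega)
  · exact t16.mono le_rfl le_rfl (by omega)
  · rw [r1]; exact t10.mono le_rfl le_rfl (by omega)
  · rw [r1]; exact t9.mono le_rfl le_rfl (by omega)

/-- The field `z1` in the exterior. -/
theorem z1_ext (hf : Rule f) {k b m : ℕ} (hs : Side k b m) (S : Stack6 f k b m 0 0 0 0 1 1)
    (D2 : Cyc f (6 * k + 2) (b + 18) (2 * (m + 5 + (k + 2) * 4) + 2))
    (D0 : Cyc f (6 * k) (b + 16) (2 * (m + 2 + (k + 2) * 4) + 2)) (x y : ℕ)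
    (hx : 2 * (m + 7 + (k + 2) * 4) + 3 ≤ x) (hd : y + 2 * k + 4 ≤ x) (hn : 2 * x < 2 * y + b) :
    ¬ f (6 * k + 7) (b + 21) x y :=
  (X8.of_stack hf hs S D2 D0).tp x y (by omega) (by omega) (by omega)

end Pool.Agent.SNT.LocR8
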