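import Pool.Agent.SNT.Core

set_option autoImplicit false

/-!
# Covering, alternation and the signal calculus

All statements hold for every solution of the four counter rule; `a`, `L` are layers, `b` rows. Regions are arbitrary predicates
`Z x y` (lower left corner of a 2x2 window, or block coordinates `i j`).

* Part A: blocking, windows, covering (`Cov`), the zone below a zero layer (`zone_step`, `zone_down`, `zone_row`).
* Part B: the alternation lemma (`alt_step`, `alt_cols`, `alt_rows`).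
* Part C: block signals in an even layer and an even row (`sr`, `su`), collisions, lines.
-/

namespace Pool.Agent.SNT

namespace Sig

variable {f : ℕ → ℕ → ℕ → ℕ → Prop}

/-! ### Part A -/

/-- a one blocks its successors -/
theorem kill (hf : Rule f) {a b x y : ℕ} (h : f a b x y) (p q r s : ℕ) (hp : p ≤ 1) (hq : q ≤ 1) (hr : r ≤ 1) (hs : s ≤ 1)
    (h1 : 1 ≤ p + q + r + s) : ¬ f (a + p) (b + q) (x + r) (y + s) := by
  intro h2
  refine (hf _ _ _ _).1 h2 |>.2 p q r s hp hq hr hs h1 (by omega) (by omega) (by omega) (by omega) ?_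
  rw [Nat.add_sub_cancel, Nat.add_sub_cancel, Nat.add_sub_cancel, Nat.add_sub_cancel]
  exact h

/-- a zero which is not all even has a one among its predecessors -/
theorem pred (hf : Rule f) {a b x y : ℕ} (h0 : ¬ f a b x y) (hpar : ¬ (a % 2 = 0 ∧ b % 2 = 0 ∧ x % 2 = 0 ∧ y % 2 = 0)) :
    ∃ p q r s : ℕ, p ≤ 1 ∧ q ≤ 1 ∧ r ≤ 1 ∧ s ≤ 1 ∧ 1 ≤ p + q + r + s ∧ p ≤ a ∧ q ≤ b ∧ r ≤ x ∧ s ≤ y ∧
      f (a - p) (b - q) (x - r) (y - s) := by
  by_contra hn
  apply h0
  rw [hf]
  refine ⟨hpar, fun p q r s hp hq hr hs h1 hpa hqb hrx hsy h2 => hn ?_⟩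
  exact ⟨p, q, r, s, hp, hq, hr, hs, h1, hpa, hqb, hrx, hsy, h2⟩

/-- the window with lower left corner `(x, y)` is zero -/
def W0 (f : ℕ → ℕ → ℕ → ℕ → Prop) (a b x y : ℕ) : Prop :=
  ¬ f a b x y ∧ ¬ f a b (x + 1) y ∧ ¬ f a b x (y + 1) ∧ ¬ f a b (x + 1) (y + 1)

/-- the window with lower left corner `(x, y)` contains a one -/
def Cov (f : ℕ → ℕ → ℕ → ℕ → Prop) (a b x y : ℕ) : Prop :=
  f a b x y ∨ f a b (x + 1) y ∨ f a b x (y + 1) ∨ f a b (x + 1) (y + 1)

theorem not_W0 {a b x y : ℕ} : ¬ W0 f a b x y ↔ Cov f a b x y := by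
  unfold W0 Cov
  tauto

theorem W0.mk' {a b x y : ℕ} (h : ∀ r s : ℕ, r ≤ 1 → s ≤ 1 → ¬ f a b (x + r) (y + s)) : W0 f a b x y :=
  ⟨h 0 0 (by omega) (by omega), h 1 0 (by omega) (by omega), h 0 1 (by omega) (by omega), h 1 1 (by omega) (by omega)⟩

theorem W0.get {a b x y : ℕ} (h : W0 f a b x y) {r s : ℕ} (hr : r ≤ 1) (hs : s ≤ 1) : ¬ f a b (x + r) (y + s) := by
  obtain ⟨h1, h2, h3, h4⟩ := h
  interval_cases r <;> interval_cases s
  · exact h1
  · exact h3
  · exact h2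
  · exact h4

/-- the key: a zero cell whose four windows below are zero except the one of `(a, b + 1)` is covered by it -/
theorem cov_of_zero (hf : Rule f) {a b x y : ℕ}
    (hpar : ¬ ((a + 1) % 2 = 0 ∧ (b + 1) % 2 = 0 ∧ (x + 1) % 2 = 0 ∧ (y + 1) % 2 = 0))
    (h1 : W0 f (a + 1) (b + 1) x y) (h2 : W0 f (a + 1) b x y) (h3 : W0 f a b x y) : Cov f a (b + 1) x y := by
  rw [← not_W0]
  intro h4
  obtain ⟨p, q, r, s, hp, hq, hr, hs, h5, -, -, -, -, h6⟩ := pred hf h1.2.2.2 hpar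
  have e1 : x + 1 - r = x + (1 - r) := by omega
  have e2 : y + 1 - s = y + (1 - s) := by omega
  rw [e1, e2] at h6
  interval_cases p <;> interval_cases q
  · rw [Nat.sub_zero, Nat.sub_zero] at h6
    exact h1.get (by omega) (by omega) h6
  · rw [Nat.sub_zero, Nat.add_sub_cancel] at h6
    exact h2.get (by omega) (by omega) h6
  · rw [Nat.sub_zero, Nat.add_sub_cancel] at h6
    exact h4.get (by omega) (by omega) h6
  · rw [Nat.add_sub_cancel, Nat.add_sub_cancel] at h6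
    exact h3.get (by omega) (by omega) h6

/-- a covered window makes the vertex of the next layer and of the next row zero -/
theorem zero_of_cov (hf : Rule f) {a b x y p q : ℕ} (h : Cov f a b x y) (hp : p ≤ 1) (hq : q ≤ 1) (hpq : 1 ≤ p + q) :
    ¬ f (a + p) (b + q) (x + 1) (y + 1) := by
  rcases h with h | h | h | h
  · exact kill hf h p q 1 1 hp hq le_rfl le_rfl (by omega)
  · exact kill hf h p q 0 1 hp hq (by omega) le_rfl (by omega)
  · exact kill hf h p q 1 0 hp hq le_rfl (by omega) (by omega)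
  · exact kill hf h p q 0 0 hp hq (by omega) (by omega) (by omega)

/-- the layer (or row) below a covered window is zero at its lower left corner -/
theorem zero_below (hf : Rule f) {a b x y p q : ℕ} (h : Cov f (a + p) (b + q) x y) (hp : p ≤ 1) (hq : q ≤ 1) (hpq : 1 ≤ p + q) :
    ¬ f a b x y := by
  intro h1
  rcases h with h | h | h | h
  · exact kill hf h1 p q 0 0 hp hq (by omega) (by omega) (by omega) h
  · exact kill hf h1 p q 1 0 hp hq le_rfl (by omega) (by omega) h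
  · exact kill hf h1 p q 0 1 hp hq (by omega) le_rfl (by omega) h
  · exact kill hf h1 p q 1 1 hp hq le_rfl le_rfl (by omega) h

/-- the windows all of whose cells are in the region -/
def Sh (Z : ℕ → ℕ → Prop) (x y : ℕ) : Prop := Z x y ∧ Z (x + 1) y ∧ Z x (y + 1) ∧ Z (x + 1) (y + 1)

theorem Sh.mono {Z Z' : ℕ → ℕ → Prop} (h : ∀ x y, Z x y → Z' x y) {x y : ℕ} (h1 : Sh Z x y) : Sh Z' x y :=
  ⟨h _ _ h1.1, h _ _ h1.2.1, h _ _ h1.2.2.1, h _ _ h1.2.2.2⟩

theorem W0_of_Sh {Z : ℕ → ℕ → Prop} {a b x y : ℕ} (h : ∀ x y, Z x y → ¬ f a b x y) (h1 : Sh Z x y) : W0 f a b x y :=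
  ⟨h _ _ h1.1, h _ _ h1.2.1, h _ _ h1.2.2.1, h _ _ h1.2.2.2⟩

/-- one step down: `P_(a+2)` zero in the row `b + 1` (`a + 2` odd), the row `b` zero in the layers `a + 1, a + 2` =>
the layer `a + 1` is covering and `P_a` is zero -/
theorem zone_step (hf : Rule f) {a b : ℕ} (ha : a % 2 = 1) {Z : ℕ → ℕ → Prop} (h1 : ∀ x y, Z x y → ¬ f (a + 2) (b + 1) x y)
    (h2 : ∀ x y, Z x y → ¬ f (a + 2) b x y) (h3 : ∀ x y, Z x y → ¬ f (a + 1) b x y) {x y : ℕ} (hxy : Sh Z x y) :
    Cov f (a + 1) (b + 1) x y ∧ ¬ f a (b + 1) x y := by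
  have h4 : Cov f (a + 1) (b + 1) x y := by
    refine cov_of_zero hf (by omega) ?_ ?_ ?_
    · exact W0_of_Sh h1 hxy
    · exact W0_of_Sh h2 hxy
    · exact W0_of_Sh h3 hxy
  exact ⟨h4, zero_below hf (p := 1) (q := 0) h4 le_rfl (by omega) (by omega)⟩

/-- the zone: `P_(a+2m)` zero in the row `b + 1`, the row `b` zero in all layers `a ... a + 2m` => the even layers between
are covering, the odd ones zero (the region shrinks by one per step) -/
theorem zone_down (hf : Rule f) {a b : ℕ} (ha : a % 2 = 1) (m : ℕ) {Z : ℕ → ℕ → Prop}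
    (h1 : ∀ x y, Z x y → ¬ f (a + 2 * m) (b + 1) x y)
    (h2 : ∀ l x y, l ≤ 2 * m → Z x y → ¬ f (a + l) b x y) (t : ℕ) (ht : t < m) {x y : ℕ} (hxy : (Sh^[m - t]) Z x y) :
    Cov f (a + 2 * t + 1) (b + 1) x y ∧ ¬ f (a + 2 * t) (b + 1) x y := by
  have key : ∀ j : ℕ, j ≤ m → ∀ x y, (Sh^[j]) Z x y → Z x y ∧ ¬ f (a + 2 * (m - j)) (b + 1) x y ∧
      (1 ≤ j → Cov f (a + 2 * (m - j) + 1) (b + 1) x y) := by
    intro j
    induction j with
    | zero =>
      intro _ x y hxy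
      exact ⟨hxy, h1 x y hxy, fun h => absurd h (by omega)⟩
    | succ j ih =>
      intro hj x y hxy
      rw [Function.iterate_succ_apply'] at hxy
      have ih' := ih (by omega)
      have h3 : a + 2 * (m - j) = a + 2 * (m - (j + 1)) + 2 := by omega
      have h4 := zone_step hf (a := a + 2 * (m - (j + 1))) (b := b) (by omega) (Z := (Sh^[j]) Z)
        (fun x y hz => by rw [← h3]; exact (ih' x y hz).2.1)
        (fun x y hz => by
          have := h2 (2 * (m - (j + 1)) + 2) x y (by omega) (ih' x y hz).1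
          rwa [← add_assoc] at this)
        (fun x y hz => by
          have := h2 (2 * (m - (j + 1)) + 1) x y (by omega) (ih' x y hz).1
          rwa [← add_assoc] at this) hxy
      exact ⟨(ih' x y hxy.1).1, h4.2, fun _ => h4.1⟩
  obtain ⟨-, h3, h4⟩ := key (m - t) (by omega) x y hxy
  have h5 : m - (m - t) = t := by omega
  rw [h5] at h3 h4
  exact ⟨h4 (by omega), h3⟩

/-- the next row above a covered window is zero, in the layer of the window and in the next one -/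
theorem zone_row (hf : Rule f) {a b x y : ℕ} (h : Cov f a b x y) :
    ¬ f a (b + 1) (x + 1) (y + 1) ∧ ¬ f (a + 1) (b + 1) (x + 1) (y + 1) ∧ ¬ f (a + 1) b (x + 1) (y + 1) :=
  ⟨zero_of_cov hf (p := 0) (q := 1) h (by omega) le_rfl (by omega), zero_of_cov hf (p := 1) (q := 1) h le_rfl le_rfl (by omega),
    zero_of_cov hf (p := 1) (q := 0) h le_rfl (by omega) (by omega)⟩

/-- the transposed solution -/
theorem swap (hf : Rule f) : Rule (fun a b x y => f a b y x) := by
  intro a b x y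
  change f a b y x ↔ _
  rw [hf]
  constructor
  · rintro ⟨h1, h2⟩
    exact ⟨fun h => h1 ⟨h.1, h.2.1, h.2.2.2, h.2.2.1⟩, fun p q r s hp hq hr hs h3 hpa hqb hrx hsy =>
      h2 p q s r hp hq hs hr (by omega) hpa hqb hsy hrx⟩
  · rintro ⟨h1, h2⟩
    exact ⟨fun h => h1 ⟨h.1, h.2.1, h.2.2.2, h.2.2.1⟩, fun p q r s hp hq hr hs h3 hpa hqb hrx hsy =>
      h2 p q s r hp hq hs hr (by omega) hpa hqb hsy hrx⟩

theorem Cov.swap {a b x y : ℕ} : Cov (fun a b x y => f a b y x) a b x y ↔ Cov f a b y x := by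
  unfold Cov
  tauto

/-! ### Part B: alternation -/

/-- one step: column `x + 2` zero, the windows `(x + 1, y)` covered => column `x + 1` alternates, column `x` is zero -/
theorem alt_step (hf : Rule f) {a b x y0 y1 : ℕ} (hcov : ∀ y, y0 ≤ y → y ≤ y1 → Cov f a b (x + 1) y)
    (hz : ∀ y, y0 ≤ y → y ≤ y1 + 1 → ¬ f a b (x + 2) y) :
    (∀ y, y0 ≤ y → y ≤ y1 → (f a b (x + 1) (y + 1) ↔ ¬ f a b (x + 1) y)) ∧ (∀ y, y0 ≤ y → y ≤ y1 → ¬ f a b x y) := by
  have h1 : ∀ y, y0 ≤ y → y ≤ y1 → (f a b (x + 1) (y + 1) ↔ ¬ f a b (x + 1) y) := by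
    intro y hy hy1
    constructor
    · intro h h2
      exact kill hf h2 0 0 0 1 (by omega) (by omega) (by omega) le_rfl (by omega) h
    · intro h
      rcases hcov y hy hy1 with h2 | h2 | h2 | h2
      · exact absurd h2 h
      · exact absurd h2 (hz y hy (by omega))
      · exact h2
      · exact absurd h2 (hz (y + 1) (by omega) (by omega))
  refine ⟨h1, fun y hy hy1 h => ?_⟩
  have h2 := kill hf h 0 0 1 0 (by omega) (by omega) le_rfl (by omega) (by omega)
  have h3 := kill hf h 0 0 1 1 (by omega) (by omega) le_rfl le_rfl (by omega)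
  exact h3 ((h1 y hy hy1).2 h2)

/-- ALTERNATION: the region `l x' ≤ y ≤ g x'` (`l` antitone, `g` strictly increasing) is covering for the columns
`x .. x + 2m`, the column `x + 2m` is zero => all the columns `x + 2j` are zero and the columns `x + 2j + 1` alternate -/
theorem alt_cols (hf : Rule f) {a b x m : ℕ} {l g : ℕ → ℕ} (hl : ∀ x', x ≤ x' → x' < x + 2 * m → l (x' + 1) ≤ l x')
    (hg : ∀ x', x ≤ x' → x' < x + 2 * m → g x' + 1 ≤ g (x' + 1))
    (hcov : ∀ x' y, x ≤ x' → x' < x + 2 * m → l x' ≤ y → y ≤ g x' → Cov f a b x' y)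
    (hz : ∀ y, l (x + 2 * m) ≤ y → y ≤ g (x + 2 * m) → ¬ f a b (x + 2 * m) y) :
    (∀ j y, j ≤ m → l (x + 2 * j) ≤ y → y ≤ g (x + 2 * j) → ¬ f a b (x + 2 * j) y) ∧
    (∀ j y, j < m → l (x + 2 * j + 1) ≤ y → y ≤ g (x + 2 * j + 1) →
      (f a b (x + 2 * j + 1) (y + 1) ↔ ¬ f a b (x + 2 * j + 1) y)) := by
  have key : ∀ t, t ≤ m → (∀ y, l (x + 2 * (m - t)) ≤ y → y ≤ g (x + 2 * (m - t)) → ¬ f a b (x + 2 * (m - t)) y) ∧
      (1 ≤ t → ∀ y, l (x + 2 * (m - t) + 1) ≤ y → y ≤ g (x + 2 * (m - t) + 1) →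
        (f a b (x + 2 * (m - t) + 1) (y + 1) ↔ ¬ f a b (x + 2 * (m - t) + 1) y)) := by
    intro t
    induction t with
    | zero =>
      intro _
      exact ⟨hz, fun h => absurd h (by omega)⟩
    | succ t ih =>
      intro ht
      obtain ⟨ih1, -⟩ := ih (by omega)
      have e1 : x + 2 * (m - t) = x + 2 * (m - (t + 1)) + 2 := by omega
      rw [e1] at ih1
      have hl1 := hl (x + 2 * (m - (t + 1))) (by omega) (by omega)
      have hl2 := hl (x + 2 * (m - (t + 1)) + 1) (by omega) (by omega)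
      have hg1 := hg (x + 2 * (m - (t + 1))) (by omega) (by omega)
      have hg2 := hg (x + 2 * (m - (t + 1)) + 1) (by omega) (by omega)
      rw [add_assoc] at hl2 hg2
      obtain ⟨s1, s2⟩ := alt_step hf (a := a) (b := b) (x := x + 2 * (m - (t + 1))) (y0 := l (x + 2 * (m - (t + 1)) + 1))
        (y1 := g (x + 2 * (m - (t + 1)) + 1))
        (fun y hy hy1 => hcov _ y (by omega) (by omega) hy hy1)
        (fun y hy hy1 => ih1 y (hl2.trans hy) (hy1.trans hg2))
      exact ⟨fun y hy hy1 => s2 y (hl1.trans hy) (by omega), fun _ => s1⟩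
  constructor
  · intro j y hj hy hy1
    have h1 := (key (m - j) (by omega)).1 y
    have e1 : m - (m - j) = j := by omega
    rw [e1] at h1
    exact h1 hy hy1
  · intro j y hj hy hy1
    have h1 := (key (m - j) (by omega)).2 (by omega) y
    have e1 : m - (m - j) = j := by omega
    rw [e1] at h1
    exact h1 hy hy1

/-- the same for rows -/
theorem alt_rows (hf : Rule f) {a b y m : ℕ} {l g : ℕ → ℕ} (hl : ∀ y', y ≤ y' → y' < y + 2 * m → l (y' + 1) ≤ l y')
    (hg : ∀ y', y ≤ y' → y' < y + 2 * m → g y' + 1 ≤ g (y' + 1))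
    (hcov : ∀ x y', y ≤ y' → y' < y + 2 * m → l y' ≤ x → x ≤ g y' → Cov f a b x y')
    (hz : ∀ x, l (y + 2 * m) ≤ x → x ≤ g (y + 2 * m) → ¬ f a b x (y + 2 * m)) :
    (∀ j x, j ≤ m → l (y + 2 * j) ≤ x → x ≤ g (y + 2 * j) → ¬ f a b x (y + 2 * j)) ∧
    (∀ j x, j < m → l (y + 2 * j + 1) ≤ x → x ≤ g (y + 2 * j + 1) →
      (f a b (x + 1) (y + 2 * j + 1) ↔ ¬ f a b x (y + 2 * j + 1))) :=
  alt_cols (swap hf) hl hg (fun y' x h1 h2 h3 h4 => Cov.swap.2 (hcov x y' h1 h2 h3 h4)) hz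

/-- an alternating column: the values are determined by one of them -/
theorem alt_val {P : ℕ → Prop} {y0 y1 : ℕ} (h : ∀ y, y0 ≤ y → y < y1 → (P (y + 1) ↔ ¬ P y)) {y : ℕ} (hy : y0 ≤ y) (hy1 : y ≤ y1) :
    (P y ↔ (P y0 ↔ (y - y0) % 2 = 0)) := by
  induction y, hy using Nat.le_induction with
  | base =>
    rw [Nat.sub_self]
    simp
  | succ y hy ih =>
    have h1 := ih (by omega)
    have h2 := h y hy (by omega)
    have h3 : ((y + 1 - y0) % 2 = 0) ↔ ¬ ((y - y0) % 2 = 0) := by omega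
    rw [h2, h1, h3]
    tauto

/-! ### Part C: signals -/

/-- the three cells of the block `(i, j)` -/
def bX (f : ℕ → ℕ → ℕ → ℕ → Prop) (L b i j : ℕ) : Prop := f L b (2 * i) (2 * j + 1)
/-- the three cells of the block `(i, j)` -/
def bY (f : ℕ → ℕ → ℕ → ℕ → Prop) (L b i j : ℕ) : Prop := f L b (2 * i + 1) (2 * j)
/-- the three cells of the block `(i, j)` -/
def bO (f : ℕ → ℕ → ℕ → ℕ → Prop) (L b i j : ℕ) : Prop := f L b (2 * i + 1) (2 * j + 1)
/-- the signal to the right -/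
def sr (f : ℕ → ℕ → ℕ → ℕ → Prop) (L b i j : ℕ) : Prop := bY f L b i j ∨ bO f L b i j
/-- the signal upwards -/
def su (f : ℕ → ℕ → ℕ → ℕ → Prop) (L b i j : ℕ) : Prop := bX f L b i j ∨ bO f L b i j

/-- the cell `(x, y)` of the plane `(L, b)` is not blocked from the planes `(L - 1, b)`, `(L, b - 1)`, `(L - 1, b - 1)` -/
def NB (f : ℕ → ℕ → ℕ → ℕ → Prop) (L b x y : ℕ) : Prop :=
  ∀ p q r s : ℕ, p ≤ 1 → q ≤ 1 → r ≤ 1 → s ≤ 1 → 1 ≤ p + q → p ≤ L → q ≤ b → r ≤ x → s ≤ y →
    ¬ f (L - p) (b - q) (x - r) (y - s)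

theorem NB.of_W0 {L b x y : ℕ} (h1 : W0 f L (b + 1) x y) (h2 : W0 f (L + 1) b x y) (h3 : W0 f L b x y) :
    NB f (L + 1) (b + 1) (x + 1) (y + 1) := by
  intro p q r s hp hq hr hs hpq _ _ _ _ h6
  have e1 : x + 1 - r = x + (1 - r) := by omega
  have e2 : y + 1 - s = y + (1 - s) := by omega
  rw [e1, e2] at h6
  interval_cases p <;> interval_cases q
  · omega
  · rw [Nat.sub_zero, Nat.add_sub_cancel] at h6
    exact h2.get (by omega) (by omega) h6
  · rw [Nat.sub_zero, Nat.add_sub_cancel] at h6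
    exact h1.get (by omega) (by omega) h6
  · rw [Nat.add_sub_cancel, Nat.add_sub_cancel] at h6
    exact h3.get (by omega) (by omega) h6

/-- the value of a cell which is not blocked from below -/
theorem NB.iff (hf : Rule f) {L b x y : ℕ} (h : NB f L b x y) (hpar : ¬ (L % 2 = 0 ∧ b % 2 = 0 ∧ x % 2 = 0 ∧ y % 2 = 0)) :
    f L b x y ↔ ∀ r s : ℕ, r ≤ 1 → s ≤ 1 → 1 ≤ r + s → r ≤ x → s ≤ y → ¬ f L b (x - r) (y - s) := by
  rw [hf]
  constructor
  · rintro ⟨-, h1⟩ r s hr hs hrs hrx hsy h2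
    refine h1 0 0 r s (by omega) (by omega) hr hs (by omega) (by omega) (by omega) hrx hsy ?_
    exact h2
  · intro h1
    refine ⟨hpar, fun p q r s hp hq hr hs hsum hpa hqb hrx hsy h2 => ?_⟩
    by_cases hpq : 1 ≤ p + q
    · exact h p q r s hp hq hr hs hpq hpa hqb hrx hsy h2
    · have hp0 : p = 0 := by omega
      have hq0 : q = 0 := by omega
      subst hp0
      subst hq0
      exact h1 r s hr hs (by omega) hrx hsy h2

section
variable {L b : ℕ}

theorem even_zero (hf : Rule f) (hL : L % 2 = 0) (hb : b % 2 = 0) {x y : ℕ} (hx : x % 2 = 0) (hy : y % 2 = 0) : ¬ f L b x y := by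
  intro h
  exact (hf _ _ _ _).1 h |>.1 ⟨hL, hb, hx, hy⟩

/-- `Y(i, j + 1) = not u(i, j)` -/
theorem rY (hf : Rule f) (hL : L % 2 = 0) (hb : b % 2 = 0) {i j : ℕ} (h : NB f L b (2 * i + 1) (2 * (j + 1))) :
    bY f L b i (j + 1) ↔ ¬ su f L b i j := by
  unfold bY su bX bO
  rw [h.iff hf (by omega)]
  have e1 : 2 * (j + 1) - 1 = 2 * j + 1 := by omega
  constructor
  · intro h1 h2
    rcases h2 with h2 | h2
    · have h3 := h1 1 1 le_rfl le_rfl (by omega) (by omega) (by omega)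
      rw [Nat.add_sub_cancel, e1] at h3
      exact h3 h2
    · have h3 := h1 0 1 (by omega) le_rfl (by omega) (by omega) (by omega)
      rw [Nat.sub_zero, e1] at h3
      exact h3 h2
  · intro h1 r s hr hs hrs hrx hsy
    interval_cases r <;> interval_cases s
    · omega
    · rw [Nat.sub_zero, e1]
      exact fun h2 => h1 (Or.inr h2)
    · rw [Nat.add_sub_cancel, Nat.sub_zero]
      exact even_zero hf hL hb (by omega) (by omega)
    · rw [Nat.add_sub_cancel, e1]
      exact fun h2 => h1 (Or.inl h2)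

/-- `Y(i, 0) = 1` -/
theorem rY0 (hf : Rule f) (hL : L % 2 = 0) (hb : b % 2 = 0) {i : ℕ} (h : NB f L b (2 * i + 1) 0) : bY f L b i 0 := by
  unfold bY
  rw [mul_zero, h.iff hf (by omega)]
  intro r s hr hs hrs hrx hsy
  have hs0 : s = 0 := by omega
  have hr1 : r = 1 := by omega
  subst hs0
  subst hr1
  rw [Nat.add_sub_cancel]
  exact even_zero hf hL hb (by omega) (by omega)

/-- `X(i + 1, j) = not r(i, j)` -/
theorem rX (hf : Rule f) (hL : L % 2 = 0) (hb : b % 2 = 0) {i j : ℕ} (h : NB f L b (2 * (i + 1)) (2 * j + 1)) :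
    bX f L b (i + 1) j ↔ ¬ sr f L b i j := by
  unfold bX sr bY bO
  rw [h.iff hf (by omega)]
  have e1 : 2 * (i + 1) - 1 = 2 * i + 1 := by omega
  constructor
  · intro h1 h2
    rcases h2 with h2 | h2
    · have h3 := h1 1 1 le_rfl le_rfl (by omega) (by omega) (by omega)
      rw [Nat.add_sub_cancel, e1] at h3
      exact h3 h2
    · have h3 := h1 1 0 le_rfl (by omega) (by omega) (by omega) (by omega)
      rw [Nat.sub_zero, e1] at h3
      exact h3 h2
  · intro h1 r s hr hs hrs hrx hsy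
    interval_cases r <;> interval_cases s
    · omega
    · rw [Nat.add_sub_cancel, Nat.sub_zero]
      exact even_zero hf hL hb (by omega) (by omega)
    · rw [Nat.sub_zero, e1]
      exact fun h2 => h1 (Or.inr h2)
    · rw [Nat.add_sub_cancel, e1]
      exact fun h2 => h1 (Or.inl h2)

/-- `X(0, j) = 1` -/
theorem rX0 (hf : Rule f) (hL : L % 2 = 0) (hb : b % 2 = 0) {j : ℕ} (h : NB f L b 0 (2 * j + 1)) : bX f L b 0 j := by
  unfold bX
  rw [mul_zero, h.iff hf (by omega)]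
  intro r s hr hs hrs hrx hsy
  have hr0 : r = 0 := by omega
  have hs1 : s = 1 := by omega
  subst hr0
  subst hs1
  rw [Nat.add_sub_cancel]
  exact even_zero hf hL hb (by omega) (by omega)

/-- `O = not X and not Y` -/
theorem rO (hf : Rule f) (hL : L % 2 = 0) (hb : b % 2 = 0) {i j : ℕ} (h : NB f L b (2 * i + 1) (2 * j + 1)) :
    bO f L b i j ↔ ¬ bX f L b i j ∧ ¬ bY f L b i j := by
  unfold bX bY bO
  rw [h.iff hf (by omega)]
  constructor
  · intro h1
    have h2 := h1 1 0 le_rfl (by omega) (by omega) (by omega) (by omega)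
    have h3 := h1 0 1 (by omega) le_rfl (by omega) (by omega) (by omega)
    rw [Nat.add_sub_cancel, Nat.sub_zero] at h2 h3
    exact ⟨h2, h3⟩
  · rintro ⟨h1, h2⟩ r s hr hs hrs hrx hsy
    interval_cases r <;> interval_cases s
    · omega
    · rw [Nat.add_sub_cancel, Nat.sub_zero]
      exact h2
    · rw [Nat.add_sub_cancel, Nat.sub_zero]
      exact h1
    · rw [Nat.add_sub_cancel, Nat.add_sub_cancel]
      exact even_zero hf hL hb (by omega) (by omega)

/-! blocking rules which hold without any hypothesis -/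

theorem sr_kill (hf : Rule f) {i j : ℕ} (h : sr f L b i j) : ¬ bX f L b (i + 1) j := by
  unfold bX
  rcases h with h | h
  · exact kill hf h 0 0 1 1 (by omega) (by omega) le_rfl le_rfl (by omega)
  · exact kill hf h 0 0 1 0 (by omega) (by omega) le_rfl (by omega) (by omega)

theorem su_kill (hf : Rule f) {i j : ℕ} (h : su f L b i j) : ¬ bY f L b i (j + 1) := by
  unfold bY
  rcases h with h | h
  · exact kill hf h 0 0 1 1 (by omega) (by omega) le_rfl le_rfl (by omega)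
  · exact kill hf h 0 0 0 1 (by omega) (by omega) (by omega) le_rfl (by omega)

theorem O_X (hf : Rule f) {i j : ℕ} (h : bX f L b i j) : ¬ bO f L b i j :=
  kill hf h 0 0 1 0 (by omega) (by omega) le_rfl (by omega) (by omega)

theorem O_Y (hf : Rule f) {i j : ℕ} (h : bY f L b i j) : ¬ bO f L b i j :=
  kill hf h 0 0 0 1 (by omega) (by omega) (by omega) le_rfl (by omega)

/-- the block `(i, j)` is not blocked from below (three cells) -/
structure Free (f : ℕ → ℕ → ℕ → ℕ → Prop) (L b i j : ℕ) : Prop where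
  X : NB f L b (2 * i) (2 * j + 1)
  Y : NB f L b (2 * i + 1) (2 * j)
  O : NB f L b (2 * i + 1) (2 * j + 1)

/-- THE TABLE: incoming `r = r(i, j + 1)`, `u = u(i + 1, j)`: outgoing `r' = r or not u`, `u' = u or not r` -/
theorem table (hf : Rule f) (hL : L % 2 = 0) (hb : b % 2 = 0) {i j : ℕ} (h : Free f L b (i + 1) (j + 1)) :
    (bX f L b (i + 1) (j + 1) ↔ ¬ sr f L b i (j + 1)) ∧ (bY f L b (i + 1) (j + 1) ↔ ¬ su f L b (i + 1) j) ∧
    (bO f L b (i + 1) (j + 1) ↔ sr f L b i (j + 1) ∧ su f L b (i + 1) j) ∧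
    (sr f L b (i + 1) (j + 1) ↔ sr f L b i (j + 1) ∨ ¬ su f L b (i + 1) j) ∧
    (su f L b (i + 1) (j + 1) ↔ su f L b (i + 1) j ∨ ¬ sr f L b i (j + 1)) := by
  have h1 := rX hf hL hb h.X
  have h2 := rY hf hL hb h.Y
  have h3 := rO hf hL hb h.O
  have h4 : sr f L b (i + 1) (j + 1) ↔ bY f L b (i + 1) (j + 1) ∨ bO f L b (i + 1) (j + 1) := Iff.rfl
  have h5 : su f L b (i + 1) (j + 1) ↔ bX f L b (i + 1) (j + 1) ∨ bO f L b (i + 1) (j + 1) := Iff.rfl
  rw [h1, h2] at h3
  rw [h4, h5, h1, h2, h3]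
  tauto

/-- a collision in the block `(i, j)` -/
def Coll (f : ℕ → ℕ → ℕ → ℕ → Prop) (L b i j : ℕ) : Prop := bX f L b i j ∧ bY f L b i j

/-- a covered window at the upper right corner of the block excludes a collision -/
theorem no_coll_of_cov (hf : Rule f) (hL : L % 2 = 0) (hb : b % 2 = 0) {i j : ℕ} (h : Cov f L b (2 * i + 1) (2 * j + 1)) :
    ¬ Coll f L b i j := by
  rintro ⟨h1, h2⟩
  have h3 : ¬ f L b (2 * i + 1) (2 * j + 1) := O_X hf h1
  have h4 : ¬ f L b (2 * i + 1 + 1) (2 * j + 1) := by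
    have := sr_kill hf (Or.inl h2 : sr f L b i j)
    unfold bX at this
    rwa [show 2 * (i + 1) = 2 * i + 1 + 1 by omega] at this
  have h5 : ¬ f L b (2 * i + 1) (2 * j + 1 + 1) := by
    have := su_kill hf (Or.inl h1 : su f L b i j)
    unfold bY at this
    rwa [show 2 * (j + 1) = 2 * j + 1 + 1 by omega] at this
  rcases h with h | h | h | h
  · exact h3 h
  · exact h4 h
  · exact h5 h
  · exact even_zero hf hL hb (by omega) (by omega) h

/-- no E-cell of the layer above (and nothing else around) excludes a collision; row `b' + 1` even -/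
theorem no_coll_of_zero (hf : Rule f) {b' : ℕ} (hL : L % 2 = 0) (hb : (b' + 1) % 2 = 0) {i j : ℕ}
    (h1 : W0 f (L + 1) (b' + 1) (2 * i + 1) (2 * j + 1)) (h2 : W0 f (L + 1) b' (2 * i + 1) (2 * j + 1))
    (h3 : W0 f L b' (2 * i + 1) (2 * j + 1)) : ¬ Coll f L (b' + 1) i j :=
  no_coll_of_cov hf hL hb (cov_of_zero hf (by omega) h1 h2 h3)

/-- a collision gives an E-cell of the layer above, if nothing else blocks it -/
theorem E_of_coll (hf : Rule f) (hL : L % 2 = 0) (hb : b % 2 = 0) {i j : ℕ} (h : Coll f L b i j)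
    (h0 : ∀ r s : ℕ, r ≤ 1 → s ≤ 1 → 1 ≤ r + s → ¬ f (L + 1) b (2 * i + 2 - r) (2 * j + 2 - s))
    (h1 : ∀ p r s : ℕ, p ≤ 1 → r ≤ 1 → s ≤ 1 → 1 ≤ b → ¬ f (L + 1 - p) (b - 1) (2 * i + 2 - r) (2 * j + 2 - s)) :
    f (L + 1) b (2 * i + 2) (2 * j + 2) := by
  rw [hf]
  refine ⟨by omega, fun p q r s hp hq hr hs hsum _ hqb _ _ => ?_⟩
  by_cases hq1 : q = 1
  · subst hq1
    exact h1 p r s hp hr hs hqb
  have hq0 : q = 0 := by omega
  subst hq0
  rw [Nat.sub_zero]
  by_cases hp1 : p = 1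
  · subst hp1
    rw [Nat.add_sub_cancel]
    have h3 : ¬ f L b (2 * i + 1) (2 * j + 1) := O_X hf h.1
    have h4 : ¬ f L b (2 * i + 2) (2 * j + 1) := sr_kill hf (Or.inl h.2 : sr f L b i j)
    have h5 : ¬ f L b (2 * i + 1) (2 * j + 2) := su_kill hf (Or.inl h.1 : su f L b i j)
    have h6 : ¬ f L b (2 * i + 2) (2 * j + 2) := even_zero hf hL hb (by omega) (by omega)
    have e1 : 2 * i + 2 - 1 = 2 * i + 1 := by omega
    have e2 : 2 * j + 2 - 1 = 2 * j + 1 := by omega
    interval_cases r <;> interval_cases s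
    · rw [Nat.sub_zero, Nat.sub_zero]
      exact h6
    · rw [Nat.sub_zero, e2]
      exact h4
    · rw [Nat.sub_zero, e1]
      exact h5
    · rw [e1, e2]
      exact h3
  · have hp0 : p = 0 := by omega
    subst hp0
    rw [Nat.sub_zero]
    exact h0 r s hr hs (by omega)

/-- STRAIGHT: a free block without collision transmits both signals -/
theorem straight (hf : Rule f) (hL : L % 2 = 0) (hb : b % 2 = 0) {i j : ℕ} (h : Free f L b (i + 1) (j + 1))
    (hc : ¬ Coll f L b (i + 1) (j + 1)) :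
    (sr f L b (i + 1) (j + 1) ↔ sr f L b i (j + 1)) ∧ (su f L b (i + 1) (j + 1) ↔ su f L b (i + 1) j) := by
  obtain ⟨h1, h2, h3, h4, h5⟩ := table hf hL hb h
  unfold Coll at hc
  rw [h1, h2] at hc
  rw [h4, h5]
  by_cases c1 : sr f L b i (j + 1) <;> by_cases c2 : su f L b (i + 1) j <;> simp [c1, c2] at hc ⊢

/-- at least one of the two signals is there after a free block -/
theorem or_after (hf : Rule f) (hL : L % 2 = 0) (hb : b % 2 = 0) {i j : ℕ} (h : NB f L b (2 * i + 1) (2 * j + 1)) :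
    sr f L b i j ∨ su f L b i j := by
  have h3 := rO hf hL hb h
  unfold sr su
  tauto

/-- a signal `r = 1` persists (only the O-cell must be free) -/
theorem r1_step (hf : Rule f) (hL : L % 2 = 0) (hb : b % 2 = 0) {i j : ℕ} (h : NB f L b (2 * (i + 1) + 1) (2 * j + 1))
    (h1 : sr f L b i j) : sr f L b (i + 1) j := by
  have h2 := sr_kill hf h1
  have h3 := rO hf hL hb h
  unfold sr
  tauto

/-- a signal `u = 1` persists (only the O-cell must be free) -/
theorem u1_step (hf : Rule f) (hL : L % 2 = 0) (hb : b % 2 = 0) {i j : ℕ} (h : NB f L b (2 * i + 1) (2 * (j + 1) + 1))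
    (h1 : su f L b i j) : su f L b i (j + 1) := by
  have h2 := su_kill hf h1
  have h3 := rO hf hL hb h
  unfold su
  tauto

/-- a missing signal `r = 0` persists if there is no collision (only the X-cell must be free), and then `u = 1` -/
theorem r0_step (hf : Rule f) (hL : L % 2 = 0) (hb : b % 2 = 0) {i j : ℕ} (h : NB f L b (2 * (i + 1)) (2 * j + 1))
    (hc : ¬ Coll f L b (i + 1) j) (h1 : ¬ sr f L b i j) : ¬ sr f L b (i + 1) j ∧ su f L b (i + 1) j := by
  have h2 := (rX hf hL hb h).2 h1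
  have h3 := O_X hf h2
  unfold Coll at hc
  unfold sr su
  tauto

/-- a missing signal `u = 0` persists if there is no collision (only the Y-cell must be free), and then `r = 1` -/
theorem u0_step (hf : Rule f) (hL : L % 2 = 0) (hb : b % 2 = 0) {i j : ℕ} (h : NB f L b (2 * i + 1) (2 * (j + 1)))
    (hc : ¬ Coll f L b i (j + 1)) (h1 : ¬ su f L b i j) : ¬ su f L b i (j + 1) ∧ sr f L b i (j + 1) := by
  have h2 := (rY hf hL hb h).2 h1
  have h3 := O_Y hf h2
  unfold Coll at hc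
  unfold sr su
  tauto

/-! the cells of `P_(L-1)`: resets -/

/-- E-type: everything of the block is killed -/
theorem E_reset (hf : Rule f) {i j : ℕ} (h : f L b (2 * i) (2 * j)) :
    ¬ bX f (L + 1) b i j ∧ ¬ bY f (L + 1) b i j ∧ ¬ bO f (L + 1) b i j ∧ ¬ sr f (L + 1) b i j ∧ ¬ su f (L + 1) b i j := by
  have h1 : ¬ bX f (L + 1) b i j := kill hf h 1 0 0 1 le_rfl (by omega) (by omega) le_rfl (by omega)
  have h2 : ¬ bY f (L + 1) b i j := kill hf h 1 0 1 0 le_rfl (by omega) le_rfl (by omega) (by omega)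
  have h3 : ¬ bO f (L + 1) b i j := kill hf h 1 0 1 1 le_rfl (by omega) le_rfl le_rfl (by omega)
  refine ⟨h1, h2, h3, ?_, ?_⟩
  · unfold sr
    tauto
  · unfold su
    tauto

/-- y-type: `r := 0`, `u := X`, the next X is killed -/
theorem Y_reset (hf : Rule f) {i j : ℕ} (h : f L b (2 * i + 1) (2 * j)) :
    ¬ bY f (L + 1) b i j ∧ ¬ bO f (L + 1) b i j ∧ ¬ bX f (L + 1) b (i + 1) j ∧ ¬ sr f (L + 1) b i j ∧
      (su f (L + 1) b i j ↔ bX f (L + 1) b i j) := by
  have h1 : ¬ bY f (L + 1) b i j := kill hf h 1 0 0 0 le_rfl (by omega) (by omega) (by omega) (by omega)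
  have h2 : ¬ bO f (L + 1) b i j := kill hf h 1 0 0 1 le_rfl (by omega) (by omega) le_rfl (by omega)
  have h3 : ¬ bX f (L + 1) b (i + 1) j := kill hf h 1 0 1 1 le_rfl (by omega) le_rfl le_rfl (by omega)
  refine ⟨h1, h2, h3, ?_, ?_⟩
  · unfold sr
    tauto
  · unfold su
    tauto

/-- x-type: `u := 0`, `r := Y`, the next Y is killed -/
theorem X_reset (hf : Rule f) {i j : ℕ} (h : f L b (2 * i) (2 * j + 1)) :
    ¬ bX f (L + 1) b i j ∧ ¬ bO f (L + 1) b i j ∧ ¬ bY f (L + 1) b i (j + 1) ∧ ¬ su f (L + 1) b i j ∧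
      (sr f (L + 1) b i j ↔ bY f (L + 1) b i j) := by
  have h1 : ¬ bX f (L + 1) b i j := kill hf h 1 0 0 0 le_rfl (by omega) (by omega) (by omega) (by omega)
  have h2 : ¬ bO f (L + 1) b i j := kill hf h 1 0 1 0 le_rfl (by omega) le_rfl (by omega) (by omega)
  have h3 : ¬ bY f (L + 1) b i (j + 1) := kill hf h 1 0 1 1 le_rfl (by omega) le_rfl le_rfl (by omega)
  refine ⟨h1, h2, h3, ?_, ?_⟩
  · unfold su
    tauto
  · unfold sr
    tauto

/-- o-type: kills `O(i, j)`, `X(i + 1, j)`, `Y(i, j + 1)` -/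
theorem O_reset (hf : Rule f) {i j : ℕ} (h : f L b (2 * i + 1) (2 * j + 1)) :
    ¬ bO f (L + 1) b i j ∧ ¬ bX f (L + 1) b (i + 1) j ∧ ¬ bY f (L + 1) b i (j + 1) :=
  ⟨kill hf h 1 0 0 0 le_rfl (by omega) (by omega) (by omega) (by omega),
    kill hf h 1 0 1 0 le_rfl (by omega) le_rfl (by omega) (by omega),
    kill hf h 1 0 0 1 le_rfl (by omega) (by omega) le_rfl (by omega)⟩

/-! lines -/

/-- `r = 1` along a line -/
theorem r1_line (hf : Rule f) (hL : L % 2 = 0) (hb : b % 2 = 0) {i0 i1 j : ℕ}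
    (h : ∀ i, i0 < i → i ≤ i1 → NB f L b (2 * i + 1) (2 * j + 1)) (h1 : sr f L b i0 j) :
    ∀ i, i0 ≤ i → i ≤ i1 → sr f L b i j ∧ (i0 < i → ¬ bX f L b i j) := by
  intro i hi hi1
  induction i, hi using Nat.le_induction with
  | base => exact ⟨h1, fun h => absurd h (by omega)⟩
  | succ i hi ih =>
    have ih1 := (ih (by omega)).1
    exact ⟨r1_step hf hL hb (h (i + 1) (by omega) hi1) ih1, fun _ => sr_kill hf ih1⟩

/-- `u = 1` along a line -/
theorem u1_line (hf : Rule f) (hL : L % 2 = 0) (hb : b % 2 = 0) {i j0 j1 : ℕ}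
    (h : ∀ j, j0 < j → j ≤ j1 → NB f L b (2 * i + 1) (2 * j + 1)) (h1 : su f L b i j0) :
    ∀ j, j0 ≤ j → j ≤ j1 → su f L b i j ∧ (j0 < j → ¬ bY f L b i j) := by
  intro j hj hj1
  induction j, hj using Nat.le_induction with
  | base => exact ⟨h1, fun h => absurd h (by omega)⟩
  | succ j hj ih =>
    have ih1 := (ih (by omega)).1
    exact ⟨u1_step hf hL hb (h (j + 1) (by omega) hj1) ih1, fun _ => su_kill hf ih1⟩

/-- `r = 0` along a line on which every block is either free at its X-cell or under an E-cell of `P_(L-1)`, without collisions -/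
theorem r0_line (hf : Rule f) (hL : L % 2 = 0) (hb : b % 2 = 0) {i0 i1 j : ℕ}
    (h : ∀ i, i0 < i → i ≤ i1 → NB f L b (2 * i) (2 * j + 1) ∨ (1 ≤ L ∧ f (L - 1) b (2 * i) (2 * j)))
    (hc : ∀ i, i0 < i → i ≤ i1 → ¬ Coll f L b i j) (h1 : ¬ sr f L b i0 j) :
    ∀ i, i0 ≤ i → i ≤ i1 → ¬ sr f L b i j := by
  intro i hi hi1
  induction i, hi using Nat.le_induction with
  | base => exact h1
  | succ i hi ih =>
    have ih1 := ih (by omega)
    rcases h (i + 1) (by omega) hi1 with h2 | ⟨hL1, h2⟩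
    · exact (r0_step hf hL hb h2 (hc (i + 1) (by omega) hi1) ih1).1
    · obtain ⟨L', rfl⟩ : ∃ L', L = L' + 1 := ⟨L - 1, by omega⟩
      rw [Nat.add_sub_cancel] at h2
      exact (E_reset hf h2).2.2.2.1

/-- `u = 0` along a line, as before -/
theorem u0_line (hf : Rule f) (hL : L % 2 = 0) (hb : b % 2 = 0) {i j0 j1 : ℕ}
    (h : ∀ j, j0 < j → j ≤ j1 → NB f L b (2 * i + 1) (2 * j) ∨ (1 ≤ L ∧ f (L - 1) b (2 * i) (2 * j)))
    (hc : ∀ j, j0 < j → j ≤ j1 → ¬ Coll f L b i j) (h1 : ¬ su f L b i j0) :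
    ∀ j, j0 ≤ j → j ≤ j1 → ¬ su f L b i j := by
  intro j hj hj1
  induction j, hj using Nat.le_induction with
  | base => exact h1
  | succ j hj ih =>
    have ih1 := ih (by omega)
    rcases h (j + 1) (by omega) hj1 with h2 | ⟨hL1, h2⟩
    · exact (u0_step hf hL hb h2 (hc (j + 1) (by omega) hj1) ih1).1
    · obtain ⟨L', rfl⟩ : ∃ L', L = L' + 1 := ⟨L - 1, by omega⟩
      rw [Nat.add_sub_cancel] at h2
      exact (E_reset hf h2).2.2.2.2

/-- both signals are constant along the lines of a free region without collisions: right going -/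
theorem r_line (hf : Rule f) (hL : L % 2 = 0) (hb : b % 2 = 0) {i0 i1 j : ℕ} (hj : 1 ≤ j)
    (h : ∀ i, i0 < i → i ≤ i1 → Free f L b i j) (hc : ∀ i, i0 < i → i ≤ i1 → ¬ Coll f L b i j) :
    ∀ i, i0 ≤ i → i ≤ i1 → (sr f L b i j ↔ sr f L b i0 j) := by
  obtain ⟨j', rfl⟩ : ∃ j', j = j' + 1 := ⟨j - 1, by omega⟩
  intro i hi hi1
  induction i, hi using Nat.le_induction with
  | base => exact Iff.rfl
  | succ i hi ih =>
    rw [(straight hf hL hb (h (i + 1) (by omega) hi1) (hc (i + 1) (by omega) hi1)).1]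
    exact ih (by omega)

/-- upward going -/
theorem u_line (hf : Rule f) (hL : L % 2 = 0) (hb : b % 2 = 0) {i j0 j1 : ℕ} (hi : 1 ≤ i)
    (h : ∀ j, j0 < j → j ≤ j1 → Free f L b i j) (hc : ∀ j, j0 < j → j ≤ j1 → ¬ Coll f L b i j) :
    ∀ j, j0 ≤ j → j ≤ j1 → (su f L b i j ↔ su f L b i j0) := by
  obtain ⟨i', rfl⟩ : ∃ i', i = i' + 1 := ⟨i - 1, by omega⟩
  intro j hj hj1
  induction j, hj using Nat.le_induction with
  | base => exact Iff.rfl
  | succ j hj ih =>
    rw [(straight hf hL hb (h (j + 1) (by omega) hj1) (hc (j + 1) (by omega) hj1)).2]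
    exact ih (by omega)

end

end Sig

end Pool.Agent.SNT
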