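import Pool.Agent.SNT.LocTop
import Pool.Agent.SNT.NHZone8
import Pool.Agent.SNT.LocG
import Pool.Agent.SNT.ExtC
import Pool.Agent.SNT.Sig
import Pool.Agent.SNT.LocR8L0
import Pool.Agent.SNT.LocL2

set_option autoImplicit false

/-! LOCATION of the leader `6 k + 8`: the zones of the odd layer `6 k + 7` in the rows `c + 2`, ..,
`c + 7`, where `c + 4` is the IN row of the leader. -/

namespace Pool.Agent.SNT.LocR8Z

open Pool.Agent.SNT.TipI Pool.Agent.SNT.LocG Pool.Agent.SNT.LW Pool.Agent.SNT.NHZ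

variable {f : ℕ → ℕ → ℕ → ℕ → Prop}

/-- The odd layer over an even layer in the exterior. -/
theorem ext_kill (hf : Rule f) {B r x y : ℕ} (hB : B % 2 = 0) (h6 : 6 ≤ B)
    (hd : y + 2 * (B / 6) ≤ x) (hn : x + B + 20 ≤ r + y) (hy : 4 ≤ y)
    (h0 : f B r x y ↔ Fst B r x y)
    (h1 : ∀ u v : ℕ, x ≤ u + 1 → u ≤ x → v + 2 * (B / 6) ≤ u → y ≤ v + 1 → v ≤ y →
      (f B (r - 1) u v ↔ Fst B (r - 1) u v)) : ¬ f (B + 1) r x y := by
  have e0 := h0
  have e1 := h1 x y (by omega) (by omega) (by omega) (by omega) (by omega)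
  have e2 := h1 x (y - 1) (by omega) (by omega) (by omega) (by omega) (by omega)
  have e3 := h1 (x - 1) (y - 1) (by omega) (by omega) (by omega) (by omega) (by omega)
  rw [fst_ext hB h6 (by omega) (by omega) (by omega)] at e0 e1 e2 e3
  obtain ⟨g, hg⟩ : ∃ g, g = B / 6 := ⟨_, rfl⟩
  rw [← hg] at e0 e1 e2 e3
  rcases (show (B + r + x + y) % 4 = (1 + 2 * g) % 4 ∨
      (B + (r - 1) + x + y) % 4 = (1 + 2 * g) % 4 ∨
      (B + (r - 1) + x + (y - 1)) % 4 = (1 + 2 * g) % 4 ∨
      (B + (r - 1) + (x - 1) + (y - 1)) % 4 = (1 + 2 * g) % 4 by omega) with h7 | h7 | h7 | h7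
  · exact kill hf (e0.2 h7) (by omega) (by omega) (by omega) (by omega) (by omega)
  · exact kill hf (e1.2 h7) (by omega) (by omega) (by omega) (by omega) (by omega)
  · exact kill hf (e2.2 h7) (by omega) (by omega) (by omega) (by omega) (by omega)
  · exact kill hf (e3.2 h7) (by omega) (by omega) (by omega) (by omega) (by omega)

theorem cyc_cast {a b b' K K' : ℕ} (h : Cyc f a b K) (hb : b' = b) (hK : K' = K) :
    Cyc f a b' K' := by
  subst hb hK
  exact h

/-- What is used: `c + 4` is the IN row of the leader `6 k + 8`, `n` its lead. -/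
structure H8 (f : ℕ → ℕ → ℕ → ℕ → Prop) (k c n : ℕ) : Prop where
  hk : 8 ≤ k
  hc : c % 2 = 0
  h4 : (6 * k + c) % 4 = 2
  hb : 100 * k + 1000 ≤ c
  hn : c + c ≤ n + 100
  T : NHT8 f k (c + 4) (2 * n)
  B1 : Cyc f (6 * k + 6) (c - 2) (2 * (n - k - 5) + 2)
  B2 : Cyc f (6 * k + 6) (c + 2) (2 * (n - 3) + 2)
  B3 : Cyc f (6 * k + 6) (c + 6) (2 * (n + k - 1) + 2)
  A1 : Cw f (6 * k + 8) c (n - k - 2)
  A2 : Cw f (6 * k + 8) (c + 4) n
  L0 : ∀ x y : ℕ, y ≤ x → x + 1 ≤ y + 2 * k → x = 2 * n + 1 ∨ x = 2 * n + 2 →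
    (f (6 * k + 8) (c + 4) x y ↔ Fst (6 * k + 8) (c + 4) x y)

namespace H8

variable {k c n : ℕ}

theorem lB1 (H : H8 f k c n) : Lay (6 * k + 6) (c - 2) (k + 1) :=
  ⟨by omega, by have := H.hk; omega, by omega, by have := H.h4; have := H.hb; omega⟩

theorem lB2 (H : H8 f k c n) : Lay (6 * k + 6) (c + 2) (k + 1) :=
  ⟨by omega, by have := H.hk; omega, by omega, by have := H.h4; have := H.hb; omega⟩

theorem lB3 (H : H8 f k c n) : Lay (6 * k + 6) (c + 6) (k + 1) :=
  ⟨by omega, by have := H.hk; omega, by omega, by have := H.h4; have := H.hb; omega⟩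

theorem lA1 (H : H8 f k c n) : Lay (6 * k + 8) c (k + 1) :=
  ⟨by omega, by have := H.hk; omega, by omega, by have := H.h4; have := H.hb; omega⟩

theorem lA2 (H : H8 f k c n) : Lay (6 * k + 8) (c + 4) (k + 1) :=
  ⟨by omega, by have := H.hk; omega, by omega, by have := H.h4; have := H.hb; omega⟩

/-- `6 k + 6` in the rows `c + 1`, `c + 2`, `c + 3`, exterior. -/
theorem bx (H : H8 f k c n) {r u v : ℕ} (hr : r = c + 1 ∨ r = c + 2 ∨ r = c + 3 ∨ r = c + 4)
    (hd : v + 2 * ((6 * k + 6) / 6) ≤ u) (hu : 2 * n < u + 4) (hu2 : c + 3 ≤ r → 2 * n < u + 2)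
    (hu3 : c + 4 ≤ r → 2 * n < u) :
    f (6 * k + 6) r u v ↔ Fst (6 * k + 6) r u v := by
  have h1 := H.hk; have h2 := H.hc; have h3 := H.h4; have h4 := H.hb; have h5 := H.hn
  have hc6 : cc (6 * k + 6) = 2 * k + 2 := by
    unfold cc
    omega
  rcases hr with rfl | rfl | rfl | rfl
  · have := H.B1.r3 u v (by rw [hc6, max_eq_left (by omega)]; omega)
    have e : c - 2 + 3 = c + 1 := by omega
    rwa [e] at this
  · exact H.B2.r0 u v (by rw [max_eq_left (by omega)]; omega)
  · exact H.B2.r1 u v (by rw [max_eq_left (by omega)]; omega)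
  · exact H.B2.r2x u v (by rw [max_eq_left (by omega), min_eq_right (by omega)]; omega)
      (by rw [max_eq_left (by omega)]; omega)

/-- Row `c + 2`, exterior. -/
theorem zm2 (hf : Rule f) (H : H8 f k c n) {x y : ℕ} (hd : y + 2 * k + 2 ≤ x)
    (hn : 2 * x < 2 * y + c) (hx : 2 * n < x + 3) : ¬ f (6 * k + 7) (c + 2) x y := by
  have h1 := H.hk; have h2 := H.hc; have h3 := H.h4; have h4 := H.hb; have h5 := H.hn
  refine ext_kill hf (B := 6 * k + 6) (r := c + 2) (by omega) (by omega) (by omega) (by omega)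
    (by omega) (H.bx (by omega) (by omega) (by omega) (by omega) (by omega)) ?_
  intro u v h6 h7 h8 h9 h10
  exact H.bx (by omega) (by omega) (by omega) (by omega) (by omega)

/-- The ones of the IN row `c + 2` of `6 k + 6`. -/
theorem b2one (H : H8 f k c n) {u v : ℕ} (hu2 : u % 2 = 1) (hv2 : v % 2 = 0) (hvu : v ≤ u)
    (hd : u ≤ v + 2 * k + 1) (hu : 2 * n < u + 4) (hn : 2 * u < 2 * v + c + 8) :
    f (6 * k + 6) (c + 2) u v := by
  have h1 := H.hk; have h2 := H.hc; have h3 := H.h4; have h4 := H.hb; have h5 := H.hn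
  exact (v0 H.lB2 H.B2 rfl rfl (by omega) (by omega) (by omega)).2 (by unfold V0; omega)

/-- Row `c + 3`, strip. -/
theorem zm1s (hf : Rule f) (H : H8 f k c n) {x y : ℕ} (hd1 : y + 1 ≤ x) (hd : x ≤ y + 2 * k + 1)
    (hx : 2 * n < x + 3) : ¬ f (6 * k + 7) (c + 3) x y := by
  have h1 := H.hk; have h2 := H.hc; have h3 := H.h4; have h4 := H.hb; have h5 := H.hn
  rcases Nat.mod_two_eq_zero_or_one x with hx2 | hx2 <;>
    rcases Nat.mod_two_eq_zero_or_one y with hy2 | hy2
  · exact kill hf (H.b2one (u := x - 1) (v := y) (by omega) (by omega) (by omega) (by omega)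
      (by omega) (by omega)) (by omega) (by omega) (by omega) (by omega) (by omega)
  · exact kill hf (H.b2one (u := x - 1) (v := y - 1) (by omega) (by omega) (by omega) (by omega)
      (by omega) (by omega)) (by omega) (by omega) (by omega) (by omega) (by omega)
  · exact kill hf (H.b2one (u := x) (v := y) (by omega) (by omega) (by omega) (by omega)
      (by omega) (by omega)) (by omega) (by omega) (by omega) (by omega) (by omega)
  · exact kill hf (H.b2one (u := x) (v := y - 1) (by omega) (by omega) (by omega) (by omega)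
      (by omega) (by omega)) (by omega) (by omega) (by omega) (by omega) (by omega)

/-- Row `c + 3`. -/
theorem zm1 (hf : Rule f) (H : H8 f k c n) {x y : ℕ} (hd : y + 1 ≤ x)
    (hn : 2 * x < 2 * y + c) (hx : 2 * n < x + 2) : ¬ f (6 * k + 7) (c + 3) x y := by
  have h1 := H.hk; have h2 := H.hc; have h3 := H.h4; have h4 := H.hb; have h5 := H.hn
  rcases Nat.lt_or_ge x (y + 2 * k + 2) with h6 | h6
  · exact H.zm1s hf hd (by omega) (by omega)
  refine ext_kill hf (B := 6 * k + 6) (r := c + 3) (by omega) (by omega) (by omega) (by omega)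
    (by omega) (H.bx (by omega) (by omega) (by omega) (by omega) (by omega)) ?_
  intro u v h7 h8 h9 h10 h11
  exact H.bx (by omega) (by omega) (by omega) (by omega) (by omega)

/-- The diagonal ones of the row `c + 3` of `6 k + 6`. -/
theorem b3d (H : H8 f k c n) {u : ℕ} (hu2 : u % 2 = 0) (hu : 2 * n < u + 3) :
    f (6 * k + 6) (c + 3) u u := by
  have h1 := H.hk; have h2 := H.hc; have h3 := H.h4; have h4 := H.hb; have h5 := H.hn
  exact (v1s H.lB2 H.B2 rfl rfl le_rfl (by omega) (by omega) (by omega)).2 (by unfold V1; omega)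

/-- The wall ones of the row `c + 3` of `6 k + 6`. -/
theorem b3w (H : H8 f k c n) {u v : ℕ} (hd : v + 2 * k + 2 ≤ u) (hn : 2 * u < 2 * v + c + 8)
    (hu : 2 * n < u + 2) (hs : (u + v + 2) % 4 = (2 * k + 2) % 4) : f (6 * k + 6) (c + 3) u v := by
  have h1 := H.hk; have h2 := H.hc; have h3 := H.h4; have h4 := H.hb; have h5 := H.hn
  exact (v1 H.lB2 H.B2 rfl rfl (by omega) (by omega) (by omega)).2 (by unfold V1; omega)

/-- The ones of the OUT row `c + 4` of `6 k + 6`. -/
theorem b4one (H : H8 f k c n) {u v : ℕ} (hu2 : u % 2 = 0) (hv2 : v % 2 = 1) (hvu : v ≤ u)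
    (hd : u ≤ v + 2 * k + 1) (hv : 2 * n < v + 3) (hn : 2 * u < 2 * v + c + 8) :
    f (6 * k + 6) (c + 4) u v := by
  have h1 := H.hk; have h2 := H.hc; have h3 := H.h4; have h4 := H.hb; have h5 := H.hn
  exact (v2s H.lB2 H.B2 rfl rfl (by omega) (by omega) (by omega) (by omega)).2
    (by unfold V2; omega)

/-- The ones of the IN row `c + 4` of `6 k + 8`. -/
theorem a4one (H : H8 f k c n) {u v : ℕ} (hu2 : u % 2 = 1) (hv2 : v % 2 = 0) (hvu : v ≤ u)
    (hd : u ≤ v + 2 * k + 1) (hu : 2 * n + 1 ≤ u) (hc : u + 1 ≤ v + 2 * k ∨ 2 * n + 5 ≤ u)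
    (hn : 2 * u < 2 * v + c + 8) : f (6 * k + 8) (c + 4) u v := by
  have h1 := H.hk; have h2 := H.hc; have h3 := H.h4; have h4 := H.hb; have h5 := H.hn
  rcases Nat.lt_or_ge u (2 * n + 3) with h6 | h6
  · rw [H.L0 u v hvu (by omega) (by omega), fst0 (by omega) (by omega) hvu (by omega)]
    left
    omega
  · exact (w0 H.lA2 H.A2 rfl rfl hvu (by omega) h6 (by omega)).2 (by unfold V0; omega)

/-- Row `c + 4`, near the diagonal. -/
theorem z0d (hf : Rule f) (H : H8 f k c n) {x y : ℕ} (hyx : y ≤ x) (hd : x ≤ y + 1)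
    (hx : 2 * n < x) : ¬ f (6 * k + 7) (c + 4) x y := by
  have h1 := H.hk; have h2 := H.hc; have h3 := H.h4; have h4 := H.hb; have h5 := H.hn
  rcases Nat.mod_two_eq_zero_or_one x with hx2 | hx2
  · exact kill hf (H.b4one (u := x) (v := x - 1) (by omega) (by omega) (by omega) (by omega)
      (by omega) (by omega)) (by omega) (by omega) (by omega) (by omega) (by omega)
  · rcases Nat.eq_or_lt_of_le hyx with h6 | h6
    · subst h6
      exact kill hf (H.b3d (u := y - 1) (by omega) (by omega)) (by omega) (by omega) (by omega)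
        (by omega) (by omega)
    · exact kill hf (H.b4one (u := x - 1) (v := x - 2) (by omega) (by omega) (by omega)
        (by omega) (by omega) (by omega)) (by omega) (by omega) (by omega) (by omega) (by omega)

/-- Row `c + 4`, strip. -/
theorem z0s (hf : Rule f) (H : H8 f k c n) {x y : ℕ} (hd1 : y + 2 ≤ x) (hd : x + 1 ≤ y + 2 * k)
    (hx : 2 * n < x) : ¬ f (6 * k + 7) (c + 4) x y := by
  have h1 := H.hk; have h2 := H.hc; have h3 := H.h4; have h4 := H.hb; have h5 := H.hn
  intro h
  rcases Nat.mod_two_eq_zero_or_one x with hx2 | hx2 <;>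
    rcases Nat.mod_two_eq_zero_or_one y with hy2 | hy2
  · exact kill hf h (by omega) (by omega) (by omega) (by omega) (by omega)
      (H.a4one (u := x + 1) (v := y) (by omega) (by omega) (by omega) (by omega) (by omega)
        (by omega) (by omega))
  · exact kill hf h (by omega) (by omega) (by omega) (by omega) (by omega)
      (H.a4one (u := x + 1) (v := y + 1) (by omega) (by omega) (by omega) (by omega) (by omega)
        (by omega) (by omega))
  · exact kill hf h (by omega) (by omega) (by omega) (by omega) (by omega)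
      (H.a4one (u := x) (v := y) (by omega) (by omega) (by omega) (by omega) (by omega)
        (by omega) (by omega))
  · exact kill hf h (by omega) (by omega) (by omega) (by omega) (by omega)
      (H.a4one (u := x) (v := y + 1) (by omega) (by omega) (by omega) (by omega) (by omega)
        (by omega) (by omega))

/-- Row `c + 4`, the distance `2 k`. -/
theorem z0w (hf : Rule f) (H : H8 f k c n) {x y : ℕ} (hd : x = y + 2 * k)
    (hx : 2 * n < x) : ¬ f (6 * k + 7) (c + 4) x y := by
  have h1 := H.hk; have h2 := H.hc; have h3 := H.h4; have h4 := H.hb; have h5 := H.hn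
  rcases Nat.mod_two_eq_zero_or_one x with hx2 | hx2
  · have h6 := H.b3w (u := x - 1) (v := y - 3) (by omega) (by omega) (by omega) (by omega)
    have h7 := sand_y hf h6 (by omega)
    have e1 : x - 1 + 1 = x := by omega
    have e2 : y - 3 + 3 = y := by omega
    rwa [e1, e2] at h7
  · intro h
    exact kill hf h (by omega) (by omega) (by omega) (by omega) (by omega)
      (H.a4one (u := x) (v := y + 1) (by omega) (by omega) (by omega) (by omega) (by omega)
        (by omega) (by omega))

/-- Row `c + 4`, the distance `2 k + 1`. -/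
theorem z0v (hf : Rule f) (H : H8 f k c n) {x y : ℕ} (hd : x = y + 2 * k + 1)
    (hx : 2 * n < x) (hx2 : x % 2 = 1 ∨ 2 * n + 2 < x) : ¬ f (6 * k + 7) (c + 4) x y := by
  have h1 := H.hk; have h2 := H.hc; have h3 := H.h4; have h4 := H.hb; have h5 := H.hn
  rcases Nat.mod_two_eq_zero_or_one x with h6 | h6
  · intro h
    exact kill hf h (by omega) (by omega) (by omega) (by omega) (by omega)
      (H.a4one (u := x + 1) (v := y + 1) (by omega) (by omega) (by omega) (by omega) (by omega)
        (by omega) (by omega))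
  · exact kill hf (H.b3w (u := x) (v := y - 1) (by omega) (by omega) (by omega) (by omega))
      (by omega) (by omega) (by omega) (by omega) (by omega)

/-- Row `c + 4`, exterior. -/
theorem z0x (hf : Rule f) (H : H8 f k c n) {x y : ℕ} (hd : y + 2 * k + 2 ≤ x)
    (hn : 2 * x < 2 * y + c) (hx : 2 * n < x) : ¬ f (6 * k + 7) (c + 4) x y := by
  have h1 := H.hk; have h2 := H.hc; have h3 := H.h4; have h4 := H.hb; have h5 := H.hn
  refine ext_kill hf (B := 6 * k + 6) (r := c + 4) (by omega) (by omega) (by omega) (by omega)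
    (by omega) (H.bx (by omega) (by omega) (by omega) (by omega) (by omega)) ?_
  intro u v h7 h8 h9 h10 h11
  exact H.bx (by omega) (by omega) (by omega) (by omega) (by omega)

/-- Row `c + 4`, all distances. -/
theorem z0 (hf : Rule f) (H : H8 f k c n) {x y : ℕ} (hyx : y ≤ x) (hn : 2 * x < 2 * y + c)
    (hx : 2 * n < x) (hx2 : x ≠ y + 2 * k + 1 ∨ x % 2 = 1 ∨ 2 * n + 2 < x) :
    ¬ f (6 * k + 7) (c + 4) x y := by
  rcases (show x ≤ y + 1 ∨ (y + 2 ≤ x ∧ x + 1 ≤ y + 2 * k) ∨ x = y + 2 * k ∨
    x = y + 2 * k + 1 ∨ y + 2 * k + 2 ≤ x by omega) with h | h | h | h | h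
  · exact H.z0d hf hyx h hx
  · exact H.z0s hf h.1 h.2 hx
  · exact H.z0w hf h hx
  · exact H.z0v hf h hx (by omega)
  · exact H.z0x hf h hn hx

/-- The diagonal ones of the row `c + 5` of `6 k + 6`. -/
theorem b5d (H : H8 f k c n) {u : ℕ} (hu2 : u % 2 = 1) (hu : 2 * n ≤ u) :
    f (6 * k + 6) (c + 5) u u := by
  have h1 := H.hk; have h2 := H.hc; have h3 := H.h4; have h4 := H.hb; have h5 := H.hn
  exact (v3s H.lB2 H.B2 rfl rfl le_rfl (by omega) (by omega) (by omega)).2 (by unfold V3; omega)

/-- The ones of the IN row `c + 6` of `6 k + 6`. -/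
theorem b6one (H : H8 f k c n) {u v : ℕ} (hu2 : u % 2 = 1) (hv2 : v % 2 = 0) (hvu : v ≤ u)
    (hd : u ≤ v + 2 * k + 1) (hu : 2 * n + 2 * k + 1 ≤ u) (hn : 2 * u < 2 * v + c + 8) :
    f (6 * k + 6) (c + 6) u v := by
  have h1 := H.hk; have h2 := H.hc; have h3 := H.h4; have h4 := H.hb; have h5 := H.hn
  exact (v0 H.lB3 H.B3 rfl rfl (by omega) (by omega) (by omega)).2 (by unfold V0; omega)

/-- The ones of the OUT row `c + 6` of `6 k + 8`. -/
theorem a6one (H : H8 f k c n) {u v : ℕ} (hu2 : u % 2 = 0) (hv2 : v % 2 = 1) (hvu : v ≤ u)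
    (hd : u ≤ v + 2 * k + 1) (hv : 2 * n + 4 ≤ v) (hn : 2 * u < 2 * v + c + 8) :
    f (6 * k + 8) (c + 6) u v := by
  have h1 := H.hk; have h2 := H.hc; have h3 := H.h4; have h4 := H.hb; have h5 := H.hn
  exact (w2s H.lA2 H.A2 rfl rfl (by omega) (by omega) (by omega) (by omega)).2
    (by unfold V2; omega)

/-- Row `c + 5`, near the diagonal. -/
theorem z1d (hf : Rule f) (H : H8 f k c n) {x y : ℕ} (hyx : y ≤ x) (hd : x ≤ y + 1)
    (hx : 2 * n < x) : ¬ f (6 * k + 7) (c + 5) x y := by
  have h1 := H.hk; have h2 := H.hc; have h3 := H.h4; have h4 := H.hb; have h5 := H.hn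
  rcases Nat.mod_two_eq_zero_or_one x with hx2 | hx2
  · exact kill hf (H.b5d (u := x - 1) (by omega) (by omega)) (by omega) (by omega) (by omega)
      (by omega) (by omega)
  · rcases Nat.eq_or_lt_of_le hyx with h6 | h6
    · subst h6
      exact kill hf (H.b5d (u := y) (by omega) (by omega)) (by omega) (by omega) (by omega)
        (by omega) (by omega)
    · exact kill hf (H.b4one (u := x - 1) (v := x - 2) (by omega) (by omega) (by omega)
        (by omega) (by omega) (by omega)) (by omega) (by omega) (by omega) (by omega) (by omega)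

/-- Row `c + 5`, strip. -/
theorem z1s (hf : Rule f) (H : H8 f k c n) {x y : ℕ} (hd1 : y + 2 ≤ x) (hd : x ≤ y + 2 * k)
    (hx : 2 * n + 2 < x) : ¬ f (6 * k + 7) (c + 5) x y := by
  have h1 := H.hk; have h2 := H.hc; have h3 := H.h4; have h4 := H.hb; have h5 := H.hn
  have hcov : Sig.Cov f (6 * k + 6) (c + 3 + 1) (x - 1) (y - 1) := by
    refine Sig.cov_of_zero hf (by omega) (Sig.W0.mk' fun r s hr hs => ?_)
      (Sig.W0.mk' fun r s hr hs => ?_) (Sig.W0.mk' fun r s hr hs => ?_)
    · exact H.z0 hf (by omega) (by omega) (by omega) (by omega)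
    · exact H.zm1 hf (by omega) (by omega) (by omega)
    · intro h
      have := (v1s H.lB2 H.B2 rfl rfl (by omega) (by omega) (by omega) (by omega)).1 h
      unfold V1 at this
      omega
  have h6 := Sig.zero_of_cov hf hcov (p := 1) (q := 1) le_rfl le_rfl (by omega)
  have e1 : x - 1 + 1 = x := by omega
  have e2 : y - 1 + 1 = y := by omega
  rwa [e1, e2] at h6

/-- Row `c + 6`, near the diagonal. -/
theorem z2d (hf : Rule f) (H : H8 f k c n) {x y : ℕ} (hyx : y ≤ x) (hd : x ≤ y + 1)
    (hy : 2 * n + 4 ≤ y) : ¬ f (6 * k + 7) (c + 6) x y := by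
  have h1 := H.hk; have h2 := H.hc; have h3 := H.h4; have h4 := H.hb; have h5 := H.hn
  rcases Nat.mod_two_eq_zero_or_one x with hx2 | hx2
  · exact kill hf (H.b5d (u := x - 1) (by omega) (by omega)) (by omega) (by omega) (by omega)
      (by omega) (by omega)
  · rcases Nat.eq_or_lt_of_le hyx with h6 | h6
    · subst h6
      exact kill hf (H.b5d (u := y) (by omega) (by omega)) (by omega) (by omega) (by omega)
        (by omega) (by omega)
    · intro h
      exact kill hf h (by omega) (by omega) (by omega) (by omega) (by omega)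
        (H.a6one (u := x + 1) (v := x) (by omega) (by omega) (by omega) (by omega) (by omega)
          (by omega))

/-- `6 k + 6` in the rows `c + 5`, `c + 6`, `c + 7`, far to the right. -/
theorem by' (H : H8 f k c n) {r u v : ℕ} (hr : r = c + 5 ∨ r = c + 6 ∨ r = c + 7)
    (hvu : v ≤ u) (hu : 2 * n + 2 * k + 1 ≤ u) (hu3 : c + 7 ≤ r → 2 * n + 2 * k + 3 ≤ u) :
    f (6 * k + 6) r u v ↔ Fst (6 * k + 6) r u v := by
  have h1 := H.hk; have h2 := H.hc; have h3 := H.h4; have h4 := H.hb; have h5 := H.hn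
  have hc6 : cc (6 * k + 6) = 2 * k + 2 := by
    unfold cc
    omega
  rcases hr with rfl | rfl | rfl
  · exact H.B2.r3 u v (by rw [hc6, max_eq_left (by omega)]; omega)
  · exact H.B3.r0 u v (by rw [max_eq_left (by omega)]; omega)
  · exact H.B3.r1 u v (by rw [max_eq_left (by omega)]; omega)

/-- Rows `c + 6` and `c + 7`, far to the right. -/
theorem z23r (hf : Rule f) (H : H8 f k c n) {r x y : ℕ} (hr : r = c + 6 ∨ r = c + 7)
    (hyx : y ≤ x) (hn : 2 * x < 2 * y + c) (hx : 2 * n + 2 * k + 3 ≤ x) :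
    ¬ f (6 * k + 7) r x y := by
  have h1 := H.hk; have h2 := H.hc; have h3 := H.h4; have h4 := H.hb; have h5 := H.hn
  rcases Nat.lt_or_ge x (y + 2 * k + 2) with h6 | h6
  swap
  · refine ext_kill hf (B := 6 * k + 6) (r := r) (by omega) (by omega) (by omega) (by omega)
      (by omega) (H.by' (by omega) (by omega) (by omega) (by omega)) ?_
    intro u v h7 h8 h9 h10 h11
    exact H.by' (by omega) (by omega) (by omega) (by omega)
  rcases Nat.mod_two_eq_zero_or_one x with hx2 | hx2 <;>
    rcases Nat.mod_two_eq_zero_or_one y with hy2 | hy2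
  · rcases Nat.eq_or_lt_of_le hyx with h7 | h7
    · subst h7
      rcases hr with rfl | rfl
      · exact kill hf (H.b5d (u := y - 1) (by omega) (by omega)) (by omega) (by omega)
          (by omega) (by omega) (by omega)
      · have h8 : f (6 * k + 6) (c + 7) y y :=
          (v1s H.lB3 H.B3 rfl rfl le_rfl (by omega) (by omega) (by omega)).2
            (by unfold V1; omega)
        exact kill hf h8 (by omega) (by omega) (by omega) (by omega) (by omega)
    · exact kill hf (H.b6one (u := x - 1) (v := y) (by omega) (by omega) (by omega) (by omega)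
        (by omega) (by omega)) (by omega) (by omega) (by omega) (by omega) (by omega)
  · exact kill hf (H.b6one (u := x - 1) (v := y - 1) (by omega) (by omega) (by omega) (by omega)
      (by omega) (by omega)) (by omega) (by omega) (by omega) (by omega) (by omega)
  · exact kill hf (H.b6one (u := x) (v := y) (by omega) (by omega) (by omega) (by omega)
      (by omega) (by omega)) (by omega) (by omega) (by omega) (by omega) (by omega)
  · exact kill hf (H.b6one (u := x) (v := y - 1) (by omega) (by omega) (by omega) (by omega)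
      (by omega) (by omega)) (by omega) (by omega) (by omega) (by omega) (by omega)

/-- Row `c + 7`, the distance `1`, odd columns. -/
theorem z3o (hf : Rule f) (H : H8 f k c n) {x : ℕ} (hx2 : x % 2 = 1) (hx : 2 * n < x) :
    ¬ f (6 * k + 7) (c + 7) x (x - 1) := by
  have h1 := H.hk; have h2 := H.hc; have h3 := H.h4; have h4 := H.hb; have h5 := H.hn
  have h6 := sand_b hf (H.b4one (u := x - 1) (v := x - 2) (by omega) (by omega) (by omega)
    (by omega) (by omega) (by omega)) (by omega)
  have e1 : x - 1 + 1 = x := by omega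
  have e2 : x - 2 + 1 = x - 1 := by omega
  rwa [e1, e2] at h6

/-- Row `c + 7`, the diagonal from `2 n + 6` on. -/
theorem z3d (hf : Rule f) (H : H8 f k c n) {x : ℕ} (hx : 2 * n + 6 ≤ x) :
    ¬ f (6 * k + 7) (c + 7) x x := by
  have h1 := H.hk; have h2 := H.hc; have h3 := H.h4; have h4 := H.hb; have h5 := H.hn
  have one : ∀ u : ℕ, u % 2 = 1 → 2 * n + 6 ≤ u → f (6 * k + 8) (c + 7) u u := by
    intro u hu2 hu
    exact (w3s H.lA2 H.A2 rfl rfl le_rfl (by omega) (by omega) (by omega)).2
      (by unfold V3; omega)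
  intro h
  rcases Nat.mod_two_eq_zero_or_one x with hx2 | hx2
  · exact kill hf h (by omega) (by omega) (by omega) (by omega) (by omega)
      (one (x + 1) (by omega) (by omega))
  · exact kill hf h (by omega) (by omega) (by omega) (by omega) (by omega)
      (one x (by omega) (by omega))

end H8

/-- The rows of the leader `6 k + 8` from the window. -/
theorem H8.of_stack (hf : Rule f) {k b m : ℕ} (hs : Side k b m)
    (S : Stack6 f k b m 0 0 0 0 1 1)
    (tip : f (6 * k + 8) (b + 20) (2 * (m + 7 + (k + 2) * 4) + 1)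
      (2 * (m + 7 + (k + 2) * 4))) : H8 f k (b + 16) (m + 7 + (k + 2) * 4) := by
  have T := NHT8.of_stack hs S
  have L0 := S6.topL0_8 hf hs S tip
  obtain ⟨hk, hb2, hb4, hbl, hm⟩ := hs
  have B1 := S.l6 3
  have B2 := S.l6 4
  have B3 := S.l6 5
  have A1 := S.l8 3
  have A2 := S.l8 4
  have e5 : (k + 2) * 5 = 5 * k + 10 := by ring
  have e4 : (k + 2) * 4 = 4 * k + 8 := by ring
  have e3 : (k + 2) * 3 = 3 * k + 6 := by ring
  rw [e3] at B1 A1
  rw [e4] at B2 A2 T L0 tip ⊢
  rw [e5] at B3
  refine ⟨hk, by omega, by omega, by omega, by omega, ?_, ?_, ?_, ?_, ?_, ?_, ?_⟩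
  · have e : b + 16 + 4 = b + 20 := by omega
    rwa [e]
  · exact cyc_cast B1 (by omega) (by omega)
  · exact cyc_cast B2 (by omega) (by omega)
  · exact cyc_cast B3 (by omega) (by omega)
  · exact A1.cast rfl (by omega) (by omega)
  · exact A2.cast rfl (by omega) (by omega)
  · have e : b + 16 + 4 = b + 20 := by omega
    rwa [e]

end Pool.Agent.SNT.LocR8Z
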