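import Pool.Agent.SNT.Z8D

set_option autoImplicit false

/-! `P_(6 k + 7)` next to the wall, leader `6 k + 8` (helper33). -/

namespace Pool.Agent.SNT.Z8

open Pool.Agent.SNT Pool.Agent.SNT.Loc Pool.Agent.SNT.LW

variable {f : ℕ → ℕ → ℕ → ℕ → Prop} {k c n : ℕ}

def z1_e_0T (j n p q : ℕ) : Bool :=
  decide (j = 2 ∧ n = 1 ∧ q ≤ p + 16 ∧ q ≤ p + 2 ∧ p + 2 > 0 ∧ (((p + q) % 2 = 1 ∧ p + 2 < q ∧ (p) % 2 = 0) ∨ (q ≤ p + 3 ∧ (p + q + 1) % 4 = 0))) ||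
    (decide (j = 4 ∧ n = 1 ∧ q ≤ p + 16 ∧ p > 0 ∧ (((p + q) % 2 = 1 ∧ p + 2 < q ∧ (p) % 2 = 1) ∨ (q ≤ p + 3 ∧ (p + q + 3) % 4 = 0))) ||
    (decide (j = 4 ∧ n = 2 ∧ q ≤ p + 16 ∧ ((p > 2) ∨ (p + 2 ≤ q ∧ p > 1)) ∧ (q ≤ p + 2 ∧ (p + q) % 4 = 0)) ||
    (decide (j = 4 ∧ n = 3 ∧ q ≤ p + 16 ∧ q ≤ p + 2 ∧ p > 4 ∧ (((p + q) % 2 = 1 ∧ p + 2 < q ∧ (p) % 2 = 0) ∨ (q ≤ p + 3 ∧ (p + q + 1) % 4 = 0))) ||
    (decide (j = 6 ∧ n = 1 ∧ q ≤ p + 16 ∧ q ≤ p + 2 ∧ p + 2 > 0 ∧ (((p + q) % 2 = 1 ∧ p + 2 < q ∧ (p) % 2 = 0) ∨ (q ≤ p + 3 ∧ (p + q + 1) % 4 = 0))) ||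
    (decide (j = 8 ∧ n = 1 ∧ q ≤ p + 16 ∧ p + 2 > 0 ∧ (((p + q) % 2 = 1 ∧ p < q ∧ (p) % 2 = 1) ∨ (q ≤ p + 1 ∧ (p + q + 3) % 4 = 2))) ||
    (decide (j = 8 ∧ n = 2 ∧ q ≤ p + 16 ∧ ((p > 0) ∨ (p ≤ q ∧ p + 1 > 0)) ∧ (q ≤ p ∧ (p + q) % 4 = 2)) ||
    (decide (j = 8 ∧ n = 3 ∧ q ≤ p + 16 ∧ q ≤ p ∧ p > 2 ∧ (((p + q) % 2 = 1 ∧ p < q ∧ (p) % 2 = 0) ∨ (q ≤ p + 1 ∧ (p + q + 1) % 4 = 2))) ||
    (decide (j = 9 ∧ n = 4 ∧ p = 6 ∧ q = 6)))))))))

def z1_e_0F (j n p q : ℕ) : Bool :=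
  decide (j = 2 ∧ n = 1 ∧ q ≤ p + 16 ∧ q ≤ p + 2 ∧ p + 2 > 0 ∧ ¬ (((p + q) % 2 = 1 ∧ p + 2 < q ∧ (p) % 2 = 0) ∨ (q ≤ p + 3 ∧ (p + q + 1) % 4 = 0))) ||
    (decide (j = 4 ∧ n = 2 ∧ q ≤ p + 16 ∧ ((p > 2) ∨ (p + 2 ≤ q ∧ p > 1)) ∧ ¬ (q ≤ p + 2 ∧ (p + q) % 4 = 0)) ||
    (decide (j = 4 ∧ n = 3 ∧ q ≤ p + 16 ∧ q ≤ p + 2 ∧ p > 4 ∧ ¬ (((p + q) % 2 = 1 ∧ p + 2 < q ∧ (p) % 2 = 0) ∨ (q ≤ p + 3 ∧ (p + q + 1) % 4 = 0))) ||
    (decide (j = 6 ∧ n = 1 ∧ q ≤ p + 16 ∧ q ≤ p + 2 ∧ p + 2 > 0 ∧ ¬ (((p + q) % 2 = 1 ∧ p + 2 < q ∧ (p) % 2 = 0) ∨ (q ≤ p + 3 ∧ (p + q + 1) % 4 = 0))) ||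
    (decide (j = 8 ∧ n = 3 ∧ q ≤ p + 16 ∧ q ≤ p ∧ p > 2 ∧ ¬ (((p + q) % 2 = 1 ∧ p < q ∧ (p) % 2 = 0) ∨ (q ≤ p + 1 ∧ (p + q + 1) % 4 = 2))) ||
    (decide (j = 1 ∧ q ≤ p + 16))))))

theorem z1_e_0_chk : check 9 6 8 8 0 1 0 0 0 z1_e_0T z1_e_0F
    329
    0x5170305d700069b5204f60004f60105170305d700069b5205168305d68005d684051a80051a81069b0305168005168404f58004f584051b0305db0005db04043183045200045204039283045280045284039303045300045304039603045600045604039683045680045684039a03045a00045a04036e03038e00038e04037183039180039184037183039200039204020e0302ce0002ce04020e8302ce8002ce84020f0302cf0002cf0402118302d18002d18402120302d20002d20402128302d28002d28402130302d30002d30402158302d58002d58402160302d60002d60402168302d68002d68402b98302d98002d984021a0302da0002da0401e98302098002098401ed03020d00020d0401f28302128002128401f28302130002130401f60302160002160401f98302198002198401f983021a00021a04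03718304318004318401e98302a98002a98401ed0302ad0002ad0401ee8302ae8002ae8401ef0302af0002af0401f58302b58002b58401f98302b98002b98401d10301f50001f50401ca0301ca8001ca8404d68004cd800596c2058dc201d68001cd80075b00067600065680064d80063700062e0004b18004ae0004a88004a500037a80037700037500035b00035580035200034e80034c80033600032d0003298001b50001d68101b18001ae0001cd8101a88001a500075b0f067b07067a8706768706760f06568f064d8f06370f062e0f04fb0704fa0704f30704f20704b68704b60704b28704b20704b18f04ae0f04ad8704ad0704a98704a90704a88f04a50f037a8f037a0703798703770f03768703760703758703750f037307037207037107036a07035b0f03558f03520f035187035107034e8f034e07034d87034d07034c8f034a0703360f032d0f03298f01fa0701f90701f30701f20701f10701eb0701ea0701e90701b68701b60701b50f01b28701b20701b18f01b10701b08701ae0f01ad8701ad0701ac8701aa0701a98701a90701a88f01a58701a50f015a070159870156870156070155870155070153070152870152070151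87015107014f07014e87014e07014d87014d07014b07014a87014a07014987013a07013987013907013687013607013587013507013307013287013207013187013107012f07012e87012e07012d87012d07012c87012b07012a87012a07012987012907012887012587012507011987011907011687011607011587011507011287011207011187011107011087010f07010e87010e07010d87010d07010c87010b07010a87010a0701098701090701088701060701058701050700f68700f60700f28700f20700f10700f08700ed8700ed0700ec8700ea0700e98700e90700e60700e587 = true := by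
  decide +kernel

theorem z1_e_0 (hf : Rule f) (H : Z8H f k c n) :
    ¬ f (6 * k + 7) (c + 1) (2 * n + 4) (2 * n + 4 - 2 * k - 2) := by
  by_contra hg
  have hk := H.hk
  have hc := H.hc
  have h4 := H.h4
  have hb := H.hb
  have hN2 := H.hn
  obtain ⟨a0, ha0⟩ : ∃ a0, a0 + 2 = 6 * k := ⟨6 * k - 2, by omega⟩
  obtain ⟨b0, hb0⟩ : ∃ b0, b0 + 3 = c := ⟨c - 3, by omega⟩
  obtain ⟨x0, hx0⟩ : ∃ x0, x0 + 6 = 2 * n + 4 := ⟨2 * n + 4 - 6, by omega⟩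
  obtain ⟨y0, hy0⟩ : ∃ y0, y0 + 8 = 2 * n + 4 - 2 * k := ⟨2 * n + 4 - 2 * k - 8, by omega⟩
  refine check_sound hf (a0 := a0) (b0 := b0) (x0 := x0) (y0 := y0) z1_e_0_chk
    ⟨fun h => absurd h (by decide), fun h => absurd h (by decide), fun h => absurd h (by decide),
      by omega, by omega, by omega, by omega⟩ ?_ ?_
  · intro j m p q hr h
    obtain ⟨-, -, hn1, hn2, hp1, hp2, hq1, hq2⟩ := hr
    unfold z1_e_0T at h
    simp only [Bool.or_eq_true, decide_eq_true_eq] at h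
    rcases h with h | h | h | h | h | h | h | h | h
    · obtain ⟨⟨rfl, rfl, h1⟩, h2⟩ := h
      exact (WrapC.v2 H.c0 (by omega) (by omega) (by omega) (by omega) (by omega) (by omega) (by omega)).mpr (by omega)
    · obtain ⟨⟨rfl, rfl, h1⟩, h2⟩ := h
      exact (WrapC.v0 H.c2 (by omega) (by omega) (by omega) (by omega) (by omega) (by omega) (by omega)).mpr (by omega)
    · obtain ⟨⟨rfl, rfl, h1⟩, h2⟩ := h
      exact (WrapC.v1 H.c2 (by omega) (by omega) (by omega) (by omega) (by omega) (by omega) (by omega) (by omega)).mpr (by omega)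
    · obtain ⟨⟨rfl, rfl, h1⟩, h2⟩ := h
      exact (WrapC.v2 H.c2 (by omega) (by omega) (by omega) (by omega) (by omega) (by omega) (by omega)).mpr (by omega)
    · obtain ⟨⟨rfl, rfl, h1⟩, h2⟩ := h
      exact (WrapC.v2 H.c4 (by omega) (by omega) (by omega) (by omega) (by omega) (by omega) (by omega)).mpr (by omega)
    · obtain ⟨⟨rfl, rfl, h1⟩, h2⟩ := h
      exact (WrapC.v0 H.c6 (by omega) (by omega) (by omega) (by omega) (by omega) (by omega) (by omega)).mpr (by omega)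
    · obtain ⟨⟨rfl, rfl, h1⟩, h2⟩ := h
      exact (WrapC.v1 H.c6 (by omega) (by omega) (by omega) (by omega) (by omega) (by omega) (by omega) (by omega)).mpr (by omega)
    · obtain ⟨⟨rfl, rfl, h1⟩, h2⟩ := h
      exact (WrapC.v2 H.c6 (by omega) (by omega) (by omega) (by omega) (by omega) (by omega) (by omega)).mpr (by omega)
    · obtain ⟨rfl, rfl, rfl, rfl⟩ := h
      exact mv hg (by omega) (by omega) (by omega) (by omega)
  · intro j m p q hr h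
    obtain ⟨-, -, hn1, hn2, hp1, hp2, hq1, hq2⟩ := hr
    unfold z1_e_0F at h
    simp only [Bool.or_eq_true, decide_eq_true_eq] at h
    rcases h with h | h | h | h | h | h
    · obtain ⟨⟨rfl, rfl, h1⟩, h2⟩ := h
      exact mt (WrapC.v2 H.c0 (by omega) (by omega) (by omega) (by omega) (by omega) (by omega) (by omega)).mp (by omega)
    · obtain ⟨⟨rfl, rfl, h1⟩, h2⟩ := h
      exact mt (WrapC.v1 H.c2 (by omega) (by omega) (by omega) (by omega) (by omega) (by omega) (by omega) (by omega)).mp (by omega)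
    · obtain ⟨⟨rfl, rfl, h1⟩, h2⟩ := h
      exact mt (WrapC.v2 H.c2 (by omega) (by omega) (by omega) (by omega) (by omega) (by omega) (by omega)).mp (by omega)
    · obtain ⟨⟨rfl, rfl, h1⟩, h2⟩ := h
      exact mt (WrapC.v2 H.c4 (by omega) (by omega) (by omega) (by omega) (by omega) (by omega) (by omega)).mp (by omega)
    · obtain ⟨⟨rfl, rfl, h1⟩, h2⟩ := h
      exact mt (WrapC.v2 H.c6 (by omega) (by omega) (by omega) (by omega) (by omega) (by omega) (by omega)).mp (by omega)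
    · obtain ⟨rfl, h1⟩ := h
      exact H.lw _ _ _ _ (by omega) (by omega) (by omega) (by omega) (by omega) (by omega)

def z1_o_m2T (j n p q : ℕ) : Bool :=
  decide (j = 1 ∧ n = 1 ∧ q ≤ p + 13 ∧ p + 4 > 0 ∧ (((p + q + 1) % 2 = 1 ∧ p < q + 3 ∧ (p) % 2 = 1) ∨ (q + 2 ≤ p ∧ (p + q + 2) % 4 = 2))) ||
    (decide (j = 2 ∧ n = 4 ∧ p = 3 ∧ q = 2))

def z1_o_m2F (j n p q : ℕ) : Bool :=
  decide (j = 1 ∧ n = 2 ∧ q ≤ p + 13 ∧ ((p + 2 > 0) ∨ (p ≤ q + 3 ∧ p + 3 > 0)) ∧ ¬ (q + 3 ≤ p ∧ (p + q + 3) % 4 = 2))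

theorem z1_o_m2_chk : check 2 6 5 4 1 1 0 1 0 z1_o_m2T z1_o_m2F
    12
    0x9d0300a700004c8000488000a70f005e87005707005687005507005487004c8f00488f = true := by
  decide +kernel

theorem z1_o_m2 (hf : Rule f) (H : Z8H f k c n) :
    ¬ f (6 * k + 7) (c + 1) (2 * n + 2 + 1) (2 * n + 2 - 2 * k + 1) := by
  by_contra hg
  have hk := H.hk
  have hc := H.hc
  have h4 := H.h4
  have hb := H.hb
  have hN2 := H.hn
  obtain ⟨a0, ha0⟩ : ∃ a0, a0 = 6 * k + 5 := ⟨6 * k + 5, by omega⟩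
  obtain ⟨b0, hb0⟩ : ∃ b0, b0 + 3 = c := ⟨c - 3, by omega⟩
  obtain ⟨x0, hx0⟩ : ∃ x0, x0 + 2 = 2 * n + 2 := ⟨2 * n + 2 - 2, by omega⟩
  obtain ⟨y0, hy0⟩ : ∃ y0, y0 + 1 = 2 * n + 2 - 2 * k := ⟨2 * n + 2 - 2 * k - 1, by omega⟩
  refine check_sound hf (a0 := a0) (b0 := b0) (x0 := x0) (y0 := y0) z1_o_m2_chk
    ⟨fun h => absurd h (by decide), fun h => absurd h (by decide), fun h => absurd h (by decide),
      by omega, by omega, by omega, by omega⟩ ?_ ?_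
  · intro j m p q hr h
    obtain ⟨-, -, hn1, hn2, hp1, hp2, hq1, hq2⟩ := hr
    unfold z1_o_m2T at h
    simp only [Bool.or_eq_true, decide_eq_true_eq] at h
    rcases h with h | h
    · obtain ⟨⟨rfl, rfl, h1⟩, h2⟩ := h
      exact (WrapC.v0 H.c6 (by omega) (by omega) (by omega) (by omega) (by omega) (by omega) (by omega)).mpr (by omega)
    · obtain ⟨rfl, rfl, rfl, rfl⟩ := h
      exact mv hg (by omega) (by omega) (by omega) (by omega)
  · intro j m p q hr h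
    obtain ⟨-, -, hn1, hn2, hp1, hp2, hq1, hq2⟩ := hr
    unfold z1_o_m2F at h
    simp only [Bool.or_eq_true, decide_eq_true_eq] at h
    · obtain ⟨⟨rfl, rfl, h1⟩, h2⟩ := h
      exact mt (WrapC.v1 H.c6 (by omega) (by omega) (by omega) (by omega) (by omega) (by omega) (by omega) (by omega)).mp (by omega)

def z1_o_m3T (j n p q : ℕ) : Bool :=
  decide (j = 3 ∧ n = 2 ∧ q ≤ p + 13 ∧ ((p > 1 ∧ p ≤ q) ∨ (p > 3)) ∧ (((p + q + 1) % 2 = 1 ∧ p < q + 3 ∧ (p + 1) % 2 = 1) ∨ (q + 2 ≤ p ∧ (p + q) % 4 = 2))) ||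
    (decide (j = 2 ∧ n = 3 ∧ p = 2 ∧ q = 2))

def z1_o_m3F (j n p q : ℕ) : Bool :=
  decide (j = 1 ∧ n = 1 ∧ q ≤ p + 13 ∧ ((p + 3 > 0) ∨ (p ≤ q + 3 ∧ p + 4 > 0)) ∧ ¬ (q + 3 ≤ p ∧ (p + q + 1) % 4 = 2))

theorem z1_o_m3_chk : check 3 5 4 4 1 0 1 0 0 z1_o_m3T z1_o_m3F
    10
    0x6503008d00006d00008d0f006d0f003b07003507003487003307003287 = true := by
  decide +kernel

theorem z1_o_m3 (hf : Rule f) (H : Z8H f k c n) :
    ¬ f (6 * k + 7) (c + 1) (2 * n + 2 + 1) (2 * n + 2 - 2 * k + 2) := by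
  by_contra hg
  have hk := H.hk
  have hc := H.hc
  have h4 := H.h4
  have hb := H.hb
  have hN2 := H.hn
  obtain ⟨a0, ha0⟩ : ∃ a0, a0 = 6 * k + 5 := ⟨6 * k + 5, by omega⟩
  obtain ⟨b0, hb0⟩ : ∃ b0, b0 + 2 = c := ⟨c - 2, by omega⟩
  obtain ⟨x0, hx0⟩ : ∃ x0, x0 + 1 = 2 * n + 2 := ⟨2 * n + 2 - 1, by omega⟩
  obtain ⟨y0, hy0⟩ : ∃ y0, y0 + 0 = 2 * n + 2 - 2 * k := ⟨2 * n + 2 - 2 * k - 0, by omega⟩
  refine check_sound hf (a0 := a0) (b0 := b0) (x0 := x0) (y0 := y0) z1_o_m3_chk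
    ⟨fun h => absurd h (by decide), fun h => absurd h (by decide), fun h => absurd h (by decide),
      by omega, by omega, by omega, by omega⟩ ?_ ?_
  · intro j m p q hr h
    obtain ⟨-, -, hn1, hn2, hp1, hp2, hq1, hq2⟩ := hr
    unfold z1_o_m3T at h
    simp only [Bool.or_eq_true, decide_eq_true_eq] at h
    rcases h with h | h
    · obtain ⟨⟨rfl, rfl, h1⟩, h2⟩ := h
      exact (NW.w0v H.c8 (by omega) (by omega) (by omega) (by omega) (by omega) (by omega) (by omega)).mpr (by omega)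
    · obtain ⟨rfl, rfl, rfl, rfl⟩ := h
      exact mv hg (by omega) (by omega) (by omega) (by omega)
  · intro j m p q hr h
    obtain ⟨-, -, hn1, hn2, hp1, hp2, hq1, hq2⟩ := hr
    unfold z1_o_m3F at h
    simp only [Bool.or_eq_true, decide_eq_true_eq] at h
    · obtain ⟨⟨rfl, rfl, h1⟩, h2⟩ := h
      exact mt (WrapC.v1 H.c6 (by omega) (by omega) (by omega) (by omega) (by omega) (by omega) (by omega) (by omega)).mp (by omega)

def z1_e_3T (j n p q : ℕ) : Bool :=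
  decide (j = 1 ∧ n = 1 ∧ q ≤ p + 19 ∧ q ≤ p + 3 ∧ p + 3 > 0 ∧ (((p + q + 1) % 2 = 1 ∧ p + 3 < q ∧ (p + 1) % 2 = 0) ∨ (q ≤ p + 4 ∧ (p + q) % 4 = 2))) ||
    (decide (j = 2 ∧ n = 2 ∧ p = 1 ∧ q = 1))

def z1_e_3F (j n p q : ℕ) : Bool :=
  false

theorem z1_e_3_chk : check 2 4 3 3 1 1 1 0 0 z1_e_3T z1_e_3F
    4
    0x2f05001880002f0f00188f = true := by
  decide +kernel

theorem z1_e_3 (hf : Rule f) (H : Z8H f k c n) :
    ¬ f (6 * k + 7) (c + 1) (2 * n + 4) (2 * n + 4 - 2 * k - 5) := by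
  by_contra hg
  have hk := H.hk
  have hc := H.hc
  have h4 := H.h4
  have hb := H.hb
  have hN2 := H.hn
  obtain ⟨a0, ha0⟩ : ∃ a0, a0 = 6 * k + 5 := ⟨6 * k + 5, by omega⟩
  obtain ⟨b0, hb0⟩ : ∃ b0, b0 + 1 = c := ⟨c - 1, by omega⟩
  obtain ⟨x0, hx0⟩ : ∃ x0, x0 + 1 = 2 * n + 4 := ⟨2 * n + 4 - 1, by omega⟩
  obtain ⟨y0, hy0⟩ : ∃ y0, y0 + 6 = 2 * n + 4 - 2 * k := ⟨2 * n + 4 - 2 * k - 6, by omega⟩
  refine check_sound hf (a0 := a0) (b0 := b0) (x0 := x0) (y0 := y0) z1_e_3_chk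
    ⟨fun h => absurd h (by decide), fun h => absurd h (by decide), fun h => absurd h (by decide),
      by omega, by omega, by omega, by omega⟩ ?_ ?_
  · intro j m p q hr h
    obtain ⟨-, -, hn1, hn2, hp1, hp2, hq1, hq2⟩ := hr
    unfold z1_e_3T at h
    simp only [Bool.or_eq_true, decide_eq_true_eq] at h
    rcases h with h | h
    · obtain ⟨⟨rfl, rfl, h1⟩, h2⟩ := h
      exact (WrapC.v2 H.c6 (by omega) (by omega) (by omega) (by omega) (by omega) (by omega) (by omega)).mpr (by omega)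
    · obtain ⟨rfl, rfl, rfl, rfl⟩ := h
      exact mv hg (by omega) (by omega) (by omega) (by omega)
  · intro j m p q hr h
    exact absurd h (by simp [z1_e_3F])

def z1_o_3T (j n p q : ℕ) : Bool :=
  decide (j = 1 ∧ n = 1 ∧ q ≤ p + 19 ∧ q ≤ p + 3 ∧ p + 1 > 0 ∧ (((p + q + 1) % 2 = 1 ∧ p + 3 < q ∧ (p + 1) % 2 = 0) ∨ (q ≤ p + 4 ∧ (p + q) % 4 = 2))) ||
    (decide (j = 2 ∧ n = 2 ∧ p = 2 ∧ q = 2))

def z1_o_3F (j n p q : ℕ) : Bool :=
  false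

theorem z1_o_3_chk : check 2 4 4 4 1 1 1 0 0 z1_o_3T z1_o_3F
    4
    0x5505002a8000550f002a8f = true := by
  decide +kernel

theorem z1_o_3 (hf : Rule f) (H : Z8H f k c n) :
    ¬ f (6 * k + 7) (c + 1) (2 * n + 2 + 1) (2 * n + 2 - 2 * k - 4) := by
  by_contra hg
  have hk := H.hk
  have hc := H.hc
  have h4 := H.h4
  have hb := H.hb
  have hN2 := H.hn
  obtain ⟨a0, ha0⟩ : ∃ a0, a0 = 6 * k + 5 := ⟨6 * k + 5, by omega⟩
  obtain ⟨b0, hb0⟩ : ∃ b0, b0 + 1 = c := ⟨c - 1, by omega⟩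
  obtain ⟨x0, hx0⟩ : ∃ x0, x0 + 1 = 2 * n + 2 := ⟨2 * n + 2 - 1, by omega⟩
  obtain ⟨y0, hy0⟩ : ∃ y0, y0 + 6 = 2 * n + 2 - 2 * k := ⟨2 * n + 2 - 2 * k - 6, by omega⟩
  refine check_sound hf (a0 := a0) (b0 := b0) (x0 := x0) (y0 := y0) z1_o_3_chk
    ⟨fun h => absurd h (by decide), fun h => absurd h (by decide), fun h => absurd h (by decide),
      by omega, by omega, by omega, by omega⟩ ?_ ?_
  · intro j m p q hr h
    obtain ⟨-, -, hn1, hn2, hp1, hp2, hq1, hq2⟩ := hr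
    unfold z1_o_3T at h
    simp only [Bool.or_eq_true, decide_eq_true_eq] at h
    rcases h with h | h
    · obtain ⟨⟨rfl, rfl, h1⟩, h2⟩ := h
      exact (WrapC.v2 H.c6 (by omega) (by omega) (by omega) (by omega) (by omega) (by omega) (by omega)).mpr (by omega)
    · obtain ⟨rfl, rfl, rfl, rfl⟩ := h
      exact mv hg (by omega) (by omega) (by omega) (by omega)
  · intro j m p q hr h
    exact absurd h (by simp [z1_o_3F])

end Pool.Agent.SNT.Z8
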