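import Pool.Agent.SNT.Z8D

set_option autoImplicit false

/-! `P_(6 k + 7)` next to the wall, leader `6 k + 8` (helper33). -/

namespace Pool.Agent.SNT.Z8

open Pool.Agent.SNT Pool.Agent.SNT.Loc Pool.Agent.SNT.LW

variable {f : ℕ → ℕ → ℕ → ℕ → Prop} {k c n : ℕ}

def z1_o_2T (j n p q : ℕ) : Bool :=
  decide (j = 2 ∧ n = 1 ∧ q ≤ p + 18 ∧ q ≤ p + 4 ∧ p + 1 > 0 ∧ (((p + q) % 2 = 1 ∧ p + 4 < q ∧ (p + 1) % 2 = 0) ∨ (q ≤ p + 5 ∧ (p + q + 1) % 4 = 0))) ||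
    (decide (j = 4 ∧ n = 2 ∧ q ≤ p + 18 ∧ ((p > 3) ∨ (p + 4 ≤ q ∧ p > 2)) ∧ (q ≤ p + 4 ∧ (p + q) % 4 = 0)) ||
    (decide (j = 4 ∧ n = 3 ∧ q ≤ p + 18 ∧ q ≤ p + 4 ∧ p > 5 ∧ (((p + q) % 2 = 1 ∧ p + 4 < q ∧ (p + 1) % 2 = 0) ∨ (q ≤ p + 5 ∧ (p + q + 1) % 4 = 0))) ||
    (decide (j = 6 ∧ n = 1 ∧ q ≤ p + 18 ∧ q ≤ p + 4 ∧ p + 1 > 0 ∧ (((p + q) % 2 = 1 ∧ p + 4 < q ∧ (p + 1) % 2 = 0) ∨ (q ≤ p + 5 ∧ (p + q + 1) % 4 = 0))) ||
    (decide (j = 8 ∧ n = 1 ∧ q ≤ p + 18 ∧ p + 1 > 0 ∧ (((p + q) % 2 = 1 ∧ p + 2 < q ∧ (p + 1) % 2 = 1) ∨ (q ≤ p + 3 ∧ (p + q + 3) % 4 = 2))) ||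
    (decide (j = 8 ∧ n = 2 ∧ q ≤ p + 18 ∧ ((p > 1) ∨ (p + 2 ≤ q ∧ p > 0)) ∧ (q ≤ p + 2 ∧ (p + q) % 4 = 2)) ||
    (decide (j = 8 ∧ n = 3 ∧ q ≤ p + 18 ∧ q ≤ p + 2 ∧ p > 3 ∧ (((p + q) % 2 = 1 ∧ p + 2 < q ∧ (p + 1) % 2 = 0) ∨ (q ≤ p + 3 ∧ (p + q + 1) % 4 = 2))) ||
    (decide (j = 9 ∧ n = 4 ∧ p = 6 ∧ q = 6))))))))

def z1_o_2F (j n p q : ℕ) : Bool :=
  decide (j = 2 ∧ n = 1 ∧ q ≤ p + 18 ∧ q ≤ p + 4 ∧ p + 1 > 0 ∧ ¬ (((p + q) % 2 = 1 ∧ p + 4 < q ∧ (p + 1) % 2 = 0) ∨ (q ≤ p + 5 ∧ (p + q + 1) % 4 = 0))) ||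
    (decide (j = 4 ∧ n = 2 ∧ q ≤ p + 18 ∧ ((p > 3) ∨ (p + 4 ≤ q ∧ p > 2)) ∧ ¬ (q ≤ p + 4 ∧ (p + q) % 4 = 0)) ||
    (decide (j = 6 ∧ n = 1 ∧ q ≤ p + 18 ∧ q ≤ p + 4 ∧ p + 1 > 0 ∧ ¬ (((p + q) % 2 = 1 ∧ p + 4 < q ∧ (p + 1) % 2 = 0) ∨ (q ≤ p + 5 ∧ (p + q + 1) % 4 = 0))) ||
    (decide (j = 8 ∧ n = 3 ∧ q ≤ p + 18 ∧ q ≤ p + 2 ∧ p > 3 ∧ ¬ (((p + q) % 2 = 1 ∧ p + 2 < q ∧ (p + 1) % 2 = 0) ∨ (q ≤ p + 3 ∧ (p + q + 1) % 4 = 2))) ||
    (decide (j = 1 ∧ q ≤ p + 18)))))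

theorem z1_o_2_chk : check 9 6 8 8 0 1 1 1 0 z1_o_2T z1_o_2F
    148
    0x2120302d2000396da045680051b5a03730003771202120302d2000396da045680051b5a03770003770403770304370004370405db00069b4204f60004f28005b64205b2c204d68004d30004cd8001f60001f2800596c2059342058dc201d30001f60101f28101cd80075b00067600067280065680065300064d80063700062e0004b18004ae0004aa8004a88004a500037a80035b0003520001b70001b18001d30101ae0001aa8001cd8101a88001a500075b0f067b07067a8706770706768706760f06728f06568f06530f064d8f06370f062e0f04f68704f58704ee8704b68704b60704b30704b28704b20704b18f04af0704ae8704ae0f04ad8704ad0704aa8f04a98704a90704a88f04a50f037a8f037687035b0f03570703568703530703528703520f01f58701ee8701ed8701b70f01b30701b28701b18f01af0701ae8701ae0f01ad8701ad0701aa8f01a98701a90701a88f01a50f015207015187014e07014d87013607013587013287013207013187012e87012e07012d87011607011587011307011287011207011187010f07010e87010e07010d87010d0701098701090700f30700f28700ef0700ee8700ed8700ed0700e98700e907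 = true := by
  decide +kernel

theorem z1_o_2 (hf : Rule f) (H : Z8H f k c n) :
    ¬ f (6 * k + 7) (c + 1) (2 * n + 2 + 1) (2 * n + 2 - 2 * k - 3) := by
  by_contra hg
  have hk := H.hk
  have hc := H.hc
  have h4 := H.h4
  have hb := H.hb
  have hN2 := H.hn
  obtain ⟨a0, ha0⟩ : ∃ a0, a0 + 2 = 6 * k := ⟨6 * k - 2, by omega⟩
  obtain ⟨b0, hb0⟩ : ∃ b0, b0 + 3 = c := ⟨c - 3, by omega⟩
  obtain ⟨x0, hx0⟩ : ∃ x0, x0 + 5 = 2 * n + 2 := ⟨2 * n + 2 - 5, by omega⟩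
  obtain ⟨y0, hy0⟩ : ∃ y0, y0 + 9 = 2 * n + 2 - 2 * k := ⟨2 * n + 2 - 2 * k - 9, by omega⟩
  refine check_sound hf (a0 := a0) (b0 := b0) (x0 := x0) (y0 := y0) z1_o_2_chk
    ⟨fun h => absurd h (by decide), fun h => absurd h (by decide), fun h => absurd h (by decide),
      by omega, by omega, by omega, by omega⟩ ?_ ?_
  · intro j m p q hr h
    obtain ⟨-, -, hn1, hn2, hp1, hp2, hq1, hq2⟩ := hr
    unfold z1_o_2T at h
    simp only [Bool.or_eq_true, decide_eq_true_eq] at h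
    rcases h with h | h | h | h | h | h | h | h
    · obtain ⟨⟨rfl, rfl, h1⟩, h2⟩ := h
      exact (WrapC.v2 H.c0 (by omega) (by omega) (by omega) (by omega) (by omega) (by omega) (by omega)).mpr (by omega)
    · obtain ⟨⟨rfl, rfl, h1⟩, h2⟩ := h
      exact (WrapC.v1 H.c2 (by omega) (by omega) (by omega) (by omega) (by omega) (by omega) (by omega) (by omega)).mpr (by omega)
    · obtain ⟨⟨rfl, rfl, h1⟩, h2⟩ := h
      exact (WrapC.v2 H.c2 (by omega) (by omega) (by omega) (by omega) (by omega) (by omega) (by omega)).mpr (by omega)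
    · obtain ⟨⟨rfl, rfl, h1⟩, h2⟩ := h
      exact (WrapC.v2 H.c4 (by omega) (by omega) (by omega) (by omega) (by omega) (by omega) (by omega)).mpr (by omega)
    · obtain ⟨⟨rfl, rfl, h1⟩, h2⟩ := h
      exact (WrapC.v0 H.c6 (by omega) (by omega) (by omega) (by omega) (by omega) (by omega) (by omega)).mpr (by omega)
    · obtain ⟨⟨rfl, rfl, h1⟩, h2⟩ := h
      exact (WrapC.v1 H.c6 (by omega) (by omega) (by omega) (by omega) (by omega) (by omega) (by omega) (by omega)).mpr (by omega)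
    · obtain ⟨⟨rfl, rfl, h1⟩, h2⟩ := h
      exact (WrapC.v2 H.c6 (by omega) (by omega) (by omega) (by omega) (by omega) (by omega) (by omega)).mpr (by omega)
    · obtain ⟨rfl, rfl, rfl, rfl⟩ := h
      exact mv hg (by omega) (by omega) (by omega) (by omega)
  · intro j m p q hr h
    obtain ⟨-, -, hn1, hn2, hp1, hp2, hq1, hq2⟩ := hr
    unfold z1_o_2F at h
    simp only [Bool.or_eq_true, decide_eq_true_eq] at h
    rcases h with h | h | h | h | h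
    · obtain ⟨⟨rfl, rfl, h1⟩, h2⟩ := h
      exact mt (WrapC.v2 H.c0 (by omega) (by omega) (by omega) (by omega) (by omega) (by omega) (by omega)).mp (by omega)
    · obtain ⟨⟨rfl, rfl, h1⟩, h2⟩ := h
      exact mt (WrapC.v1 H.c2 (by omega) (by omega) (by omega) (by omega) (by omega) (by omega) (by omega) (by omega)).mp (by omega)
    · obtain ⟨⟨rfl, rfl, h1⟩, h2⟩ := h
      exact mt (WrapC.v2 H.c4 (by omega) (by omega) (by omega) (by omega) (by omega) (by omega) (by omega)).mp (by omega)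
    · obtain ⟨⟨rfl, rfl, h1⟩, h2⟩ := h
      exact mt (WrapC.v2 H.c6 (by omega) (by omega) (by omega) (by omega) (by omega) (by omega) (by omega)).mp (by omega)
    · obtain ⟨rfl, h1⟩ := h
      exact H.lw _ _ _ _ (by omega) (by omega) (by omega) (by omega) (by omega) (by omega)

def z1_e_m2T (j n p q : ℕ) : Bool :=
  decide (j = 3 ∧ n = 2 ∧ q ≤ p + 14 ∧ ((p > 0 ∧ p + 1 ≤ q) ∨ (p > 2)) ∧ (((p + q) % 2 = 1 ∧ p < q + 2 ∧ (p) % 2 = 1) ∨ (q + 1 ≤ p ∧ (p + q + 1) % 4 = 2))) ||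
    (decide (j = 2 ∧ n = 3 ∧ p = 2 ∧ q = 2))

def z1_e_m2F (j n p q : ℕ) : Bool :=
  decide (j = 1 ∧ n = 1 ∧ q ≤ p + 14 ∧ ((p + 4 > 0) ∨ (p ≤ q + 2 ∧ p + 5 > 0)) ∧ ¬ (q + 2 ≤ p ∧ (p + q + 2) % 4 = 2))

theorem z1_e_m2_chk : check 3 5 5 4 1 0 0 0 0 z1_e_m2T z1_e_m2F
    12
    0x7d0300b10000ad0000870000b10f00ad0f00870f004b07004107004087003f07003e87 = true := by
  decide +kernel

theorem z1_e_m2 (hf : Rule f) (H : Z8H f k c n) :
    ¬ f (6 * k + 7) (c + 1) (2 * n + 4) (2 * n + 4 - 2 * k) := by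
  by_contra hg
  have hk := H.hk
  have hc := H.hc
  have h4 := H.h4
  have hb := H.hb
  have hN2 := H.hn
  obtain ⟨a0, ha0⟩ : ∃ a0, a0 = 6 * k + 5 := ⟨6 * k + 5, by omega⟩
  obtain ⟨b0, hb0⟩ : ∃ b0, b0 + 2 = c := ⟨c - 2, by omega⟩
  obtain ⟨x0, hx0⟩ : ∃ x0, x0 + 2 = 2 * n + 4 := ⟨2 * n + 4 - 2, by omega⟩
  obtain ⟨y0, hy0⟩ : ∃ y0, y0 + 2 = 2 * n + 4 - 2 * k := ⟨2 * n + 4 - 2 * k - 2, by omega⟩
  refine check_sound hf (a0 := a0) (b0 := b0) (x0 := x0) (y0 := y0) z1_e_m2_chk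
    ⟨fun h => absurd h (by decide), fun h => absurd h (by decide), fun h => absurd h (by decide),
      by omega, by omega, by omega, by omega⟩ ?_ ?_
  · intro j m p q hr h
    obtain ⟨-, -, hn1, hn2, hp1, hp2, hq1, hq2⟩ := hr
    unfold z1_e_m2T at h
    simp only [Bool.or_eq_true, decide_eq_true_eq] at h
    rcases h with h | h
    · obtain ⟨⟨rfl, rfl, h1⟩, h2⟩ := h
      exact (NW.w0v H.c8 (by omega) (by omega) (by omega) (by omega) (by omega) (by omega) (by omega)).mpr (by omega)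
    · obtain ⟨rfl, rfl, rfl, rfl⟩ := h
      exact mv hg (by omega) (by omega) (by omega) (by omega)
  · intro j m p q hr h
    obtain ⟨-, -, hn1, hn2, hp1, hp2, hq1, hq2⟩ := hr
    unfold z1_e_m2F at h
    simp only [Bool.or_eq_true, decide_eq_true_eq] at h
    · obtain ⟨⟨rfl, rfl, h1⟩, h2⟩ := h
      exact mt (WrapC.v1 H.c6 (by omega) (by omega) (by omega) (by omega) (by omega) (by omega) (by omega) (by omega)).mp (by omega)

def z1_e_m1T (j n p q : ℕ) : Bool :=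
  decide (j = 1 ∧ n = 1 ∧ q ≤ p + 15 ∧ p + 6 > 0 ∧ (((p + q + 1) % 2 = 1 ∧ p < q + 1 ∧ (p) % 2 = 1) ∨ (q ≤ p ∧ (p + q) % 4 = 2))) ||
    (decide (j = 2 ∧ n = 4 ∧ p = 2 ∧ q = 2))

def z1_e_m1F (j n p q : ℕ) : Bool :=
  decide (j = 1 ∧ n = 2 ∧ q ≤ p + 15 ∧ ((p + 4 > 0) ∨ (p ≤ q + 1 ∧ p + 5 > 0)) ∧ ¬ (q + 1 ≤ p ∧ (p + q + 1) % 4 = 2))

theorem z1_e_m1_chk : check 2 6 4 4 1 1 0 1 0 z1_e_m1T z1_e_m1F
    10
    0x7d03008500003a8000850f004c87004507004487004307004287003a8f = true := by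
  decide +kernel

theorem z1_e_m1 (hf : Rule f) (H : Z8H f k c n) :
    ¬ f (6 * k + 7) (c + 1) (2 * n + 4) (2 * n + 4 - 2 * k - 1) := by
  by_contra hg
  have hk := H.hk
  have hc := H.hc
  have h4 := H.h4
  have hb := H.hb
  have hN2 := H.hn
  obtain ⟨a0, ha0⟩ : ∃ a0, a0 = 6 * k + 5 := ⟨6 * k + 5, by omega⟩
  obtain ⟨b0, hb0⟩ : ∃ b0, b0 + 3 = c := ⟨c - 3, by omega⟩
  obtain ⟨x0, hx0⟩ : ∃ x0, x0 + 2 = 2 * n + 4 := ⟨2 * n + 4 - 2, by omega⟩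
  obtain ⟨y0, hy0⟩ : ∃ y0, y0 + 3 = 2 * n + 4 - 2 * k := ⟨2 * n + 4 - 2 * k - 3, by omega⟩
  refine check_sound hf (a0 := a0) (b0 := b0) (x0 := x0) (y0 := y0) z1_e_m1_chk
    ⟨fun h => absurd h (by decide), fun h => absurd h (by decide), fun h => absurd h (by decide),
      by omega, by omega, by omega, by omega⟩ ?_ ?_
  · intro j m p q hr h
    obtain ⟨-, -, hn1, hn2, hp1, hp2, hq1, hq2⟩ := hr
    unfold z1_e_m1T at h
    simp only [Bool.or_eq_true, decide_eq_true_eq] at h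
    rcases h with h | h
    · obtain ⟨⟨rfl, rfl, h1⟩, h2⟩ := h
      exact (WrapC.v0 H.c6 (by omega) (by omega) (by omega) (by omega) (by omega) (by omega) (by omega)).mpr (by omega)
    · obtain ⟨rfl, rfl, rfl, rfl⟩ := h
      exact mv hg (by omega) (by omega) (by omega) (by omega)
  · intro j m p q hr h
    obtain ⟨-, -, hn1, hn2, hp1, hp2, hq1, hq2⟩ := hr
    unfold z1_e_m1F at h
    simp only [Bool.or_eq_true, decide_eq_true_eq] at h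
    · obtain ⟨⟨rfl, rfl, h1⟩, h2⟩ := h
      exact mt (WrapC.v1 H.c6 (by omega) (by omega) (by omega) (by omega) (by omega) (by omega) (by omega) (by omega)).mp (by omega)

def z1_e_2T (j n p q : ℕ) : Bool :=
  decide (j = 1 ∧ n = 1 ∧ q ≤ p + 17 ∧ q ≤ p + 1 ∧ p + 2 > 0 ∧ (((p + q + 1) % 2 = 1 ∧ p + 1 < q ∧ (p) % 2 = 0) ∨ (q ≤ p + 2 ∧ (p + q) % 4 = 2))) ||
    (decide (j = 2 ∧ n = 2 ∧ p = 2 ∧ q = 1))

def z1_e_2F (j n p q : ℕ) : Bool :=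
  false

theorem z1_e_2_chk : check 2 4 4 3 1 1 0 1 0 z1_e_2T z1_e_2F
    4
    0x3f85002000003f8f00200f = true := by
  decide +kernel

theorem z1_e_2 (hf : Rule f) (H : Z8H f k c n) :
    ¬ f (6 * k + 7) (c + 1) (2 * n + 4) (2 * n + 4 - 2 * k - 4) := by
  by_contra hg
  have hk := H.hk
  have hc := H.hc
  have h4 := H.h4
  have hb := H.hb
  have hN2 := H.hn
  obtain ⟨a0, ha0⟩ : ∃ a0, a0 = 6 * k + 5 := ⟨6 * k + 5, by omega⟩
  obtain ⟨b0, hb0⟩ : ∃ b0, b0 + 1 = c := ⟨c - 1, by omega⟩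
  obtain ⟨x0, hx0⟩ : ∃ x0, x0 + 2 = 2 * n + 4 := ⟨2 * n + 4 - 2, by omega⟩
  obtain ⟨y0, hy0⟩ : ∃ y0, y0 + 5 = 2 * n + 4 - 2 * k := ⟨2 * n + 4 - 2 * k - 5, by omega⟩
  refine check_sound hf (a0 := a0) (b0 := b0) (x0 := x0) (y0 := y0) z1_e_2_chk
    ⟨fun h => absurd h (by decide), fun h => absurd h (by decide), fun h => absurd h (by decide),
      by omega, by omega, by omega, by omega⟩ ?_ ?_
  · intro j m p q hr h
    obtain ⟨-, -, hn1, hn2, hp1, hp2, hq1, hq2⟩ := hr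
    unfold z1_e_2T at h
    simp only [Bool.or_eq_true, decide_eq_true_eq] at h
    rcases h with h | h
    · obtain ⟨⟨rfl, rfl, h1⟩, h2⟩ := h
      exact (WrapC.v2 H.c6 (by omega) (by omega) (by omega) (by omega) (by omega) (by omega) (by omega)).mpr (by omega)
    · obtain ⟨rfl, rfl, rfl, rfl⟩ := h
      exact mv hg (by omega) (by omega) (by omega) (by omega)
  · intro j m p q hr h
    exact absurd h (by simp [z1_e_2F])

def z1_o_1T (j n p q : ℕ) : Bool :=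
  decide (j = 1 ∧ n = 1 ∧ q ≤ p + 17 ∧ q ≤ p + 1 ∧ p + 2 > 0 ∧ (((p + q + 1) % 2 = 1 ∧ p + 1 < q ∧ (p) % 2 = 0) ∨ (q ≤ p + 2 ∧ (p + q) % 4 = 2))) ||
    (decide (j = 2 ∧ n = 2 ∧ p = 1 ∧ q = 1))

def z1_o_1F (j n p q : ℕ) : Bool :=
  false

theorem z1_o_1_chk : check 2 4 3 3 1 1 0 1 0 z1_o_1T z1_o_1F
    4
    0x2f05001880002f0f00188f = true := by
  decide +kernel

theorem z1_o_1 (hf : Rule f) (H : Z8H f k c n) :
    ¬ f (6 * k + 7) (c + 1) (2 * n + 2 + 1) (2 * n + 2 - 2 * k - 2) := by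
  by_contra hg
  have hk := H.hk
  have hc := H.hc
  have h4 := H.h4
  have hb := H.hb
  have hN2 := H.hn
  obtain ⟨a0, ha0⟩ : ∃ a0, a0 = 6 * k + 5 := ⟨6 * k + 5, by omega⟩
  obtain ⟨b0, hb0⟩ : ∃ b0, b0 + 1 = c := ⟨c - 1, by omega⟩
  obtain ⟨x0, hx0⟩ : ∃ x0, x0 + 0 = 2 * n + 2 := ⟨2 * n + 2 - 0, by omega⟩
  obtain ⟨y0, hy0⟩ : ∃ y0, y0 + 3 = 2 * n + 2 - 2 * k := ⟨2 * n + 2 - 2 * k - 3, by omega⟩
  refine check_sound hf (a0 := a0) (b0 := b0) (x0 := x0) (y0 := y0) z1_o_1_chk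
    ⟨fun h => absurd h (by decide), fun h => absurd h (by decide), fun h => absurd h (by decide),
      by omega, by omega, by omega, by omega⟩ ?_ ?_
  · intro j m p q hr h
    obtain ⟨-, -, hn1, hn2, hp1, hp2, hq1, hq2⟩ := hr
    unfold z1_o_1T at h
    simp only [Bool.or_eq_true, decide_eq_true_eq] at h
    rcases h with h | h
    · obtain ⟨⟨rfl, rfl, h1⟩, h2⟩ := h
      exact (WrapC.v2 H.c6 (by omega) (by omega) (by omega) (by omega) (by omega) (by omega) (by omega)).mpr (by omega)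
    · obtain ⟨rfl, rfl, rfl, rfl⟩ := h
      exact mv hg (by omega) (by omega) (by omega) (by omega)
  · intro j m p q hr h
    exact absurd h (by simp [z1_o_1F])

end Pool.Agent.SNT.Z8
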