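import Pool.Agent.SNT.Z1Wa
import Pool.Agent.SNT.Z1Wb
import Pool.Agent.SNT.Z1Wc

set_option autoImplicit false

/-! `P_(6 k + 7)` next to the wall, leader `6 k + 8` (helper33). -/

namespace Pool.Agent.SNT.Z8

open Pool.Agent.SNT Pool.Agent.SNT.Loc Pool.Agent.SNT.LW

variable {f : ℕ → ℕ → ℕ → ℕ → Prop} {k c n : ℕ}

/-- Near the wall `P_(6 k + 7)` vanishes in the row `c + 1` ahead of `2 n + 3`. -/
theorem Z8H.z1 (hf : Rule f) (H : Z8H f k c n) {x y : ℕ} (hx : 2 * n + 3 ≤ x) (h1 : y + 2 * k ≤ x + 1)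
    (h2 : x ≤ y + 2 * k + 5) : ¬ f (6 * k + 7) (c + 1) x y := by
  have hk := H.hk
  have hn := H.hn
  rcases Nat.even_or_odd' x with ⟨i, hi | hi⟩
  · obtain ⟨l, rfl⟩ : ∃ l, i = l + 2 := ⟨i - 2, by omega⟩
    have G : Z8H f k c l := H.mono (by omega)
    have hd : x + 1 = y + 2 * k ∨ x = y + 2 * k ∨ x = y + 2 * k + 1 ∨ x = y + 2 * k + 2 ∨ x = y + 2 * k + 3 ∨
        x = y + 2 * k + 4 ∨ x = y + 2 * k + 5 := by omega
    rcases hd with hd | hd | hd | hd | hd | hd | hd
    · exact fun h => z1_e_m3 hf G (mv h (by omega) (by omega) (by omega) (by omega))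
    · exact fun h => z1_e_m2 hf G (mv h (by omega) (by omega) (by omega) (by omega))
    · exact fun h => z1_e_m1 hf G (mv h (by omega) (by omega) (by omega) (by omega))
    · exact fun h => z1_e_0 hf G (mv h (by omega) (by omega) (by omega) (by omega))
    · exact fun h => z1_e_1 hf G (mv h (by omega) (by omega) (by omega) (by omega))
    · exact fun h => z1_e_2 hf G (mv h (by omega) (by omega) (by omega) (by omega))
    · exact fun h => z1_e_3 hf G (mv h (by omega) (by omega) (by omega) (by omega))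
  · obtain ⟨l, rfl⟩ : ∃ l, i = l + 1 := ⟨i - 1, by omega⟩
    have G : Z8H f k c l := H.mono (by omega)
    have hd : x + 1 = y + 2 * k ∨ x = y + 2 * k ∨ x = y + 2 * k + 1 ∨ x = y + 2 * k + 2 ∨ x = y + 2 * k + 3 ∨
        x = y + 2 * k + 4 ∨ x = y + 2 * k + 5 := by omega
    rcases hd with hd | hd | hd | hd | hd | hd | hd
    · exact fun h => z1_o_m3 hf G (mv h (by omega) (by omega) (by omega) (by omega))
    · exact fun h => z1_o_m2 hf G (mv h (by omega) (by omega) (by omega) (by omega))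
    · exact fun h => z1_o_m1 hf G (mv h (by omega) (by omega) (by omega) (by omega))
    · exact fun h => z1_o_0 hf G (mv h (by omega) (by omega) (by omega) (by omega))
    · exact fun h => z1_o_1 hf G (mv h (by omega) (by omega) (by omega) (by omega))
    · exact fun h => z1_o_2 hf G (mv h (by omega) (by omega) (by omega) (by omega))
    · exact fun h => z1_o_3 hf G (mv h (by omega) (by omega) (by omega) (by omega))

theorem z1_wall {b m : ℕ} (hf : Rule f) (hs : Side k b m) (S : Stack6 f k b m 0 0 0 0 1 1)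
    (hn : n = m + 7 + (k + 2) * 4)
    (d2 : Cyc f (6 * k + 2) (b + 18) (2 * (n - 2) + 2))
    (d0 : Cyc f (6 * k) (b + 16) (2 * (n - 5) + 2)) (x y : ℕ) (hx : 2 * n + 3 ≤ x)
    (h1 : y + 2 * k - 1 ≤ x) (h2 : x ≤ y + 2 * k + 5) : ¬ f (6 * k + 7) (b + 21) x y :=
  (Z8H.of_stack hs S hn d2 d0).z1 hf hx (by omega) h2

end Pool.Agent.SNT.Z8
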