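import Pool.Agent.SNT.Z8D

set_option autoImplicit false

/-! `P_(6 k + 7)` next to the wall in the row `c + 2`, leader `6 k + 8` (helper33). -/

namespace Pool.Agent.SNT.Z8

open Pool.Agent.SNT Pool.Agent.SNT.Loc Pool.Agent.SNT.LW

variable {f : ℕ → ℕ → ℕ → ℕ → Prop} {k c n : ℕ}

def z2_o_3T (j n p q : ℕ) : Bool :=
  decide (j = 2 ∧ n = 1 ∧ q ≤ p + 18 ∧ q ≤ p + 4 ∧ p + 3 > 0 ∧ (((p + q) % 2 = 1 ∧ p + 4 < q ∧ (p + 1) % 2 = 0) ∨ (q ≤ p + 5 ∧ (p + q + 1) % 4 = 0))) ||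
    (decide (j = 4 ∧ n = 1 ∧ q ≤ p + 18 ∧ p + 1 > 0 ∧ (((p + q) % 2 = 1 ∧ p + 4 < q ∧ (p + 1) % 2 = 1) ∨ (q ≤ p + 5 ∧ (p + q + 3) % 4 = 0))) ||
    (decide (j = 4 ∧ n = 2 ∧ q ≤ p + 18 ∧ ((p > 1) ∨ (p + 4 ≤ q ∧ p > 0)) ∧ (q ≤ p + 4 ∧ (p + q) % 4 = 0)) ||
    (decide (j = 4 ∧ n = 3 ∧ q ≤ p + 18 ∧ q ≤ p + 4 ∧ p > 3 ∧ (((p + q) % 2 = 1 ∧ p + 4 < q ∧ (p + 1) % 2 = 0) ∨ (q ≤ p + 5 ∧ (p + q + 1) % 4 = 0))) ||
    (decide (j = 6 ∧ n = 1 ∧ q ≤ p + 18 ∧ q ≤ p + 4 ∧ p + 3 > 0 ∧ (((p + q) % 2 = 1 ∧ p + 4 < q ∧ (p + 1) % 2 = 0) ∨ (q ≤ p + 5 ∧ (p + q + 1) % 4 = 0))) ||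
    (decide (j = 8 ∧ n = 1 ∧ q ≤ p + 18 ∧ p + 3 > 0 ∧ (((p + q) % 2 = 1 ∧ p + 2 < q ∧ (p + 1) % 2 = 1) ∨ (q ≤ p + 3 ∧ (p + q + 3) % 4 = 2))) ||
    (decide (j = 8 ∧ n = 2 ∧ q ≤ p + 18 ∧ ((p + 1 > 0) ∨ (p + 2 ≤ q ∧ p + 2 > 0)) ∧ (q ≤ p + 2 ∧ (p + q) % 4 = 2)) ||
    (decide (j = 8 ∧ n = 3 ∧ q ≤ p + 18 ∧ q ≤ p + 2 ∧ p > 1 ∧ (((p + q) % 2 = 1 ∧ p + 2 < q ∧ (p + 1) % 2 = 0) ∨ (q ≤ p + 3 ∧ (p + q + 1) % 4 = 2))) ||
    (decide (j = 9 ∧ n = 5 ∧ p = 8 ∧ q = 7)))))))))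

def z2_o_3F (j n p q : ℕ) : Bool :=
  decide (j = 2 ∧ n = 1 ∧ q ≤ p + 18 ∧ q ≤ p + 4 ∧ p + 3 > 0 ∧ ¬ (((p + q) % 2 = 1 ∧ p + 4 < q ∧ (p + 1) % 2 = 0) ∨ (q ≤ p + 5 ∧ (p + q + 1) % 4 = 0))) ||
    (decide (j = 4 ∧ n = 3 ∧ q ≤ p + 18 ∧ q ≤ p + 4 ∧ p > 3 ∧ ¬ (((p + q) % 2 = 1 ∧ p + 4 < q ∧ (p + 1) % 2 = 0) ∨ (q ≤ p + 5 ∧ (p + q + 1) % 4 = 0))) ||
    (decide (j = 6 ∧ n = 1 ∧ q ≤ p + 18 ∧ q ≤ p + 4 ∧ p + 3 > 0 ∧ ¬ (((p + q) % 2 = 1 ∧ p + 4 < q ∧ (p + 1) % 2 = 0) ∨ (q ≤ p + 5 ∧ (p + q + 1) % 4 = 0))) ||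
    (decide (j = 8 ∧ n = 3 ∧ q ≤ p + 18 ∧ q ≤ p + 2 ∧ p > 1 ∧ ¬ (((p + q) % 2 = 1 ∧ p + 2 < q ∧ (p + 1) % 2 = 0) ∨ (q ≤ p + 3 ∧ (p + q + 1) % 4 = 2))) ||
    (decide (j = 1 ∧ q ≤ p + 18)))))

theorem z2_o_3_chk : check 9 7 10 9 0 1 1 1 0 z2_o_3T z2_o_3F
    622
    0x33e0304790005b95a06f40008345a096f000aaa4203748304af8005efda072a80086ada09a5800ae0c203788304b38005f3da072e80086a4a05bd0006f8420837800972c203788304b38005f3da072e80086a4a06f8000837d209728009728403748304af8005efda072a80072a8409a50009a504083400096f420aaa000aaa04034f8003500a033e0304790005b95a06f40008345a096f000aaa4203748304af8005efda072a80086ada09a5800ae0c203788304b38005f3da072e80086a4a05bd0006f8420837800972c203788304b38005f3da072e80086a4a06f8000837d209728009728403748304af8005efda072a80072a8409a50009a504083400096f420aaa000aaa0403500003500408050008058a033e0304790005b95a06f40008345a096f000aaa4203748304af8005efda072a80086ada09a58005bd000ae0c20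6f84208380009734203748304af8005efda072a80086ada09a5800ae0c2097300097304083400096f420aaa000aaa0408058008058405c70005c70105c100034c0005c101034c0103198003198102e303031480031484031880031d9a033e0304790005b95a06f40008345a096f000aaa4203748304af8005efda072a80086ada09a5800ae0c203748304af8005efda072a80086a5206f80008385a03748304af8005efda072a80086a5205bd0006f84208378008378409a50009a504083400096f420aaa000aaa0405c70005f38005c70105f38105c100034b8005c101034b8103190003190402e303031480031912031d80031d8407cf0007cf01093c0307ce8007ce84033e0304790005b95a06f40008345a096f000aaa4203748304af8005efda072a80086ada09a5800ae0c203748304af8005efda072a80086a5203788304b38005f3da072e80072e8405c10006fc4208378005bd0008380a06f842034203047d0005bd5a06f80006f80409a50009a504083400096f420aaa000aaa0405c70005c701034c00035000034c01035001031d8003198002e300031d8103198102e30102e70002e704090a03066200066204080f80080b8008078008018007fd8005c300080f81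080b810807810801810938c205c30103480007dd0007d90007d50007d10007cb00032380031f80031b80034801031580031180091842091442091042090c4209064203238102f100031f8102ed00031b8102e90002e50003158103118102df000c1b800a85800a81800a7d800a7b800a77800a73800a53000a4f000a4b000a47000a45000a41000a26800a22800a1e800a1c800a1a800a18800a148007b08007ac8007aa8007a88007a68007a48007a280079e80079a80079880079480059a80059880059480059080058e80058c80058a80058680056c00056800056400056200056000055e00055a00055400053f80053b80053780053580053180052d80052b8005278002c48002c08002f10102be8002bc8002ed0102ba8002b88002e90102b68002e50102b28002ae8002df0102ac8002a8800c1b8f0adc070a858f0a818f0a7d8f0a7d070a7c870a7b8f0a78870a78070a778f0a738f0a530f0a4f0f0a4b0f0a470f0a450f0a410f0a268f0a228f0a1e8f0a1c8f0a1a8f0a188f0a148f086607086507080b07080a0708030708020708010707f90707b08f07b00707af8707ac8f07ac0707ab8707ab0707aa8f07a88f07a80707a78707a70707a68f07a48f07a40707a38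707a30707a28f07a20707a187079f87079f07079e8f079e07079d87079d07079a8f07998707990707988f07948f05ef07059a8f059a0705998705988f05960705958705950705948f05940705938705918705910705908f059007058f87058f07058e8f058c8f058c07058b87058b07058a8f05878705870705868f056c0f05680f05640f05620f05600f055e0f055a0f05540f053f8f053b8f05378f05358f05318f052d8f052b8f05278f037807037007031f07031e07031d07031707031607031507031407030d07030c0702c48f02c40702c38702c08f02c00702bf8702bf0702be8f02bc8f02bc0702bb8702bb0702ba8f02b88f02b80702b78702b70702b68f02b60702b58702b38702b30702b28f02b20702b18702b10702ae8f02ad8702ad0702ac8f02a88f023d87023d07023987023907023887023507023487021507021487021107021087021007020d07020c87020c07020b8702088702080702078702070702068702030702028702020701fe8701fe0701e88701e80701e78701e48701e40701e38701e30701e28701e20701e08701e00701df8701df0701de8701de0701dd8701dc0701db8701db0701da8701da0701d98701d90701d68701d60701d58701d50701d20701d18701d10701bb8701bb0701b78701b70701b68701b60701b58701b50701b38701b30701b28701b20701b18701b10701b08701af0701ae8701ae0701ad8701ad0701ac8701ac0701aa0701a98701a90701a88701a80701a78701a58701a50701a48701a40701a38701a307019f87019f07018907018887018507018487018407018107018087018007017d07017c87017c07017b07017a87017887017807017707017687017607017287017207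 = true := by
  decide +kernel

theorem z2_o_3 (hf : Rule f) (H : Z8H f k c n) :
    ¬ f (6 * k + 7) (c + 2) (2 * n + 6 + 1) (2 * n + 6 - 2 * k - 4) := by
  by_contra hg
  have hk := H.hk
  have hc := H.hc
  have h4 := H.h4
  have hb := H.hb
  have hN2 := H.hn
  obtain ⟨a0, ha0⟩ : ∃ a0, a0 + 2 = 6 * k := ⟨6 * k - 2, by omega⟩
  obtain ⟨b0, hb0⟩ : ∃ b0, b0 + 3 = c := ⟨c - 3, by omega⟩
  obtain ⟨x0, hx0⟩ : ∃ x0, x0 + 7 = 2 * n + 6 := ⟨2 * n + 6 - 7, by omega⟩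
  obtain ⟨y0, hy0⟩ : ∃ y0, y0 + 11 = 2 * n + 6 - 2 * k := ⟨2 * n + 6 - 2 * k - 11, by omega⟩
  refine check_sound hf (a0 := a0) (b0 := b0) (x0 := x0) (y0 := y0) z2_o_3_chk
    ⟨fun h => absurd h (by decide), fun h => absurd h (by decide), fun h => absurd h (by decide),
      by omega, by omega, by omega, by omega⟩ ?_ ?_
  · intro j m p q hr h
    obtain ⟨-, -, hn1, hn2, hp1, hp2, hq1, hq2⟩ := hr
    unfold z2_o_3T at h
    simp only [Bool.or_eq_true, decide_eq_true_eq] at h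
    rcases h with h | h | h | h | h | h | h | h | h
    · obtain ⟨⟨rfl, rfl, h1⟩, h2⟩ := h
      exact (WrapC.v2 H.c0 (by omega) (by omega) (by omega) (by omega) (by omega) (by omega) (by omega)).mpr (by omega)
    · obtain ⟨⟨rfl, rfl, h1⟩, h2⟩ := h
      exact (WrapC.v0 H.c2 (by omega) (by omega) (by omega) (by omega) (by omega) (by omega) (by omega)).mpr (by omega)
    · obtain ⟨⟨rfl, rfl, h1⟩, h2⟩ := h
      exact (WrapC.v1 H.c2 (by omega) (by omega) (by omega) (by omega) (by omega) (by omega) (by omega) (by omega)).mpr (by omega)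
    · obtain ⟨⟨rfl, rfl, h1⟩, h2⟩ := h
      exact (WrapC.v2 H.c2 (by omega) (by omega) (by omega) (by omega) (by omega) (by omega) (by omega)).mpr (by omega)
    · obtain ⟨⟨rfl, rfl, h1⟩, h2⟩ := h
      exact (WrapC.v2 H.c4 (by omega) (by omega) (by omega) (by omega) (by omega) (by omega) (by omega)).mpr (by omega)
    · obtain ⟨⟨rfl, rfl, h1⟩, h2⟩ := h
      exact (WrapC.v0 H.c6 (by omega) (by omega) (by omega) (by omega) (by omega) (by omega) (by omega)).mpr (by omega)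
    · obtain ⟨⟨rfl, rfl, h1⟩, h2⟩ := h
      exact (WrapC.v1 H.c6 (by omega) (by omega) (by omega) (by omega) (by omega) (by omega) (by omega) (by omega)).mpr (by omega)
    · obtain ⟨⟨rfl, rfl, h1⟩, h2⟩ := h
      exact (WrapC.v2 H.c6 (by omega) (by omega) (by omega) (by omega) (by omega) (by omega) (by omega)).mpr (by omega)
    · obtain ⟨rfl, rfl, rfl, rfl⟩ := h
      exact mv hg (by omega) (by omega) (by omega) (by omega)
  · intro j m p q hr h
    obtain ⟨-, -, hn1, hn2, hp1, hp2, hq1, hq2⟩ := hr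
    unfold z2_o_3F at h
    simp only [Bool.or_eq_true, decide_eq_true_eq] at h
    rcases h with h | h | h | h | h
    · obtain ⟨⟨rfl, rfl, h1⟩, h2⟩ := h
      exact mt (WrapC.v2 H.c0 (by omega) (by omega) (by omega) (by omega) (by omega) (by omega) (by omega)).mp (by omega)
    · obtain ⟨⟨rfl, rfl, h1⟩, h2⟩ := h
      exact mt (WrapC.v2 H.c2 (by omega) (by omega) (by omega) (by omega) (by omega) (by omega) (by omega)).mp (by omega)
    · obtain ⟨⟨rfl, rfl, h1⟩, h2⟩ := h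
      exact mt (WrapC.v2 H.c4 (by omega) (by omega) (by omega) (by omega) (by omega) (by omega) (by omega)).mp (by omega)
    · obtain ⟨⟨rfl, rfl, h1⟩, h2⟩ := h
      exact mt (WrapC.v2 H.c6 (by omega) (by omega) (by omega) (by omega) (by omega) (by omega) (by omega)).mp (by omega)
    · obtain ⟨rfl, h1⟩ := h
      exact H.lw _ _ _ _ (by omega) (by omega) (by omega) (by omega) (by omega) (by omega)

def z2_e_3T (j n p q : ℕ) : Bool :=
  decide (j = 1 ∧ n = 1 ∧ q ≤ p + 17 ∧ ((p + 4 > 0) ∨ (p + 1 ≤ q ∧ p + 5 > 0)) ∧ (q ≤ p + 1 ∧ (p + q + 3) % 4 = 2)) ||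
    (decide (j = 1 ∧ n = 2 ∧ q ≤ p + 17 ∧ q ≤ p + 1 ∧ p + 2 > 0 ∧ (((p + q + 1) % 2 = 1 ∧ p + 1 < q ∧ (p) % 2 = 0) ∨ (q ≤ p + 2 ∧ (p + q) % 4 = 2))) ||
    (decide (j = 2 ∧ n = 4 ∧ p = 4 ∧ q = 2)))

def z2_e_3F (j n p q : ℕ) : Bool :=
  decide (j = 1 ∧ n = 2 ∧ q ≤ p + 17 ∧ q ≤ p + 1 ∧ p + 2 > 0 ∧ ¬ (((p + q + 1) % 2 = 1 ∧ p + 1 < q ∧ (p) % 2 = 0) ∨ (q ≤ p + 2 ∧ (p + q) % 4 = 2)))

theorem z2_e_3_chk : check 2 6 6 4 1 0 0 1 0 z2_e_3T z2_e_3F
    13
    0xbb0300c90000628000588000570000c90f00670700668700650700648700628f00588f00570f = true := by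
  decide +kernel

theorem z2_e_3 (hf : Rule f) (H : Z8H f k c n) :
    ¬ f (6 * k + 7) (c + 2) (2 * n + 6) (2 * n + 6 - 2 * k - 5) := by
  by_contra hg
  have hk := H.hk
  have hc := H.hc
  have h4 := H.h4
  have hb := H.hb
  have hN2 := H.hn
  obtain ⟨a0, ha0⟩ : ∃ a0, a0 = 6 * k + 5 := ⟨6 * k + 5, by omega⟩
  obtain ⟨b0, hb0⟩ : ∃ b0, b0 + 2 = c := ⟨c - 2, by omega⟩
  obtain ⟨x0, hx0⟩ : ∃ x0, x0 + 4 = 2 * n + 6 := ⟨2 * n + 6 - 4, by omega⟩
  obtain ⟨y0, hy0⟩ : ∃ y0, y0 + 7 = 2 * n + 6 - 2 * k := ⟨2 * n + 6 - 2 * k - 7, by omega⟩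
  refine check_sound hf (a0 := a0) (b0 := b0) (x0 := x0) (y0 := y0) z2_e_3_chk
    ⟨fun h => absurd h (by decide), fun h => absurd h (by decide), fun h => absurd h (by decide),
      by omega, by omega, by omega, by omega⟩ ?_ ?_
  · intro j m p q hr h
    obtain ⟨-, -, hn1, hn2, hp1, hp2, hq1, hq2⟩ := hr
    unfold z2_e_3T at h
    simp only [Bool.or_eq_true, decide_eq_true_eq] at h
    rcases h with h | h | h
    · obtain ⟨⟨rfl, rfl, h1⟩, h2⟩ := h
      exact (WrapC.v1 H.c6 (by omega) (by omega) (by omega) (by omega) (by omega) (by omega) (by omega) (by omega)).mpr (by omega)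
    · obtain ⟨⟨rfl, rfl, h1⟩, h2⟩ := h
      exact (WrapC.v2 H.c6 (by omega) (by omega) (by omega) (by omega) (by omega) (by omega) (by omega)).mpr (by omega)
    · obtain ⟨rfl, rfl, rfl, rfl⟩ := h
      exact mv hg (by omega) (by omega) (by omega) (by omega)
  · intro j m p q hr h
    obtain ⟨-, -, hn1, hn2, hp1, hp2, hq1, hq2⟩ := hr
    unfold z2_e_3F at h
    simp only [Bool.or_eq_true, decide_eq_true_eq] at h
    · obtain ⟨⟨rfl, rfl, h1⟩, h2⟩ := h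
      exact mt (WrapC.v2 H.c6 (by omega) (by omega) (by omega) (by omega) (by omega) (by omega) (by omega)).mp (by omega)

def z2_o_2T (j n p q : ℕ) : Bool :=
  decide (j = 1 ∧ n = 1 ∧ q ≤ p + 18 ∧ ((p + 7 > 0) ∨ (p + 2 ≤ q ∧ p + 8 > 0)) ∧ (q ≤ p + 2 ∧ (p + q) % 4 = 2)) ||
    (decide (j = 2 ∧ n = 4 ∧ p = 2 ∧ q = 2))

def z2_o_2F (j n p q : ℕ) : Bool :=
  decide (j = 1 ∧ n = 2 ∧ q ≤ p + 18 ∧ q ≤ p + 2 ∧ p + 5 > 0 ∧ ¬ (((p + q) % 2 = 1 ∧ p + 2 < q ∧ (p + 1) % 2 = 0) ∨ (q ≤ p + 3 ∧ (p + q + 1) % 4 = 2)))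

theorem z2_o_2_chk : check 2 6 4 4 1 0 1 1 0 z2_o_2T z2_o_2F
    9
    0x7d03008500003a8000850f004507004487004307004287003a8f = true := by
  decide +kernel

theorem z2_o_2 (hf : Rule f) (H : Z8H f k c n) :
    ¬ f (6 * k + 7) (c + 2) (2 * n + 6 + 1) (2 * n + 6 - 2 * k - 3) := by
  by_contra hg
  have hk := H.hk
  have hc := H.hc
  have h4 := H.h4
  have hb := H.hb
  have hN2 := H.hn
  obtain ⟨a0, ha0⟩ : ∃ a0, a0 = 6 * k + 5 := ⟨6 * k + 5, by omega⟩
  obtain ⟨b0, hb0⟩ : ∃ b0, b0 + 2 = c := ⟨c - 2, by omega⟩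
  obtain ⟨x0, hx0⟩ : ∃ x0, x0 + 1 = 2 * n + 6 := ⟨2 * n + 6 - 1, by omega⟩
  obtain ⟨y0, hy0⟩ : ∃ y0, y0 + 5 = 2 * n + 6 - 2 * k := ⟨2 * n + 6 - 2 * k - 5, by omega⟩
  refine check_sound hf (a0 := a0) (b0 := b0) (x0 := x0) (y0 := y0) z2_o_2_chk
    ⟨fun h => absurd h (by decide), fun h => absurd h (by decide), fun h => absurd h (by decide),
      by omega, by omega, by omega, by omega⟩ ?_ ?_
  · intro j m p q hr h
    obtain ⟨-, -, hn1, hn2, hp1, hp2, hq1, hq2⟩ := hr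
    unfold z2_o_2T at h
    simp only [Bool.or_eq_true, decide_eq_true_eq] at h
    rcases h with h | h
    · obtain ⟨⟨rfl, rfl, h1⟩, h2⟩ := h
      exact (WrapC.v1 H.c6 (by omega) (by omega) (by omega) (by omega) (by omega) (by omega) (by omega) (by omega)).mpr (by omega)
    · obtain ⟨rfl, rfl, rfl, rfl⟩ := h
      exact mv hg (by omega) (by omega) (by omega) (by omega)
  · intro j m p q hr h
    obtain ⟨-, -, hn1, hn2, hp1, hp2, hq1, hq2⟩ := hr
    unfold z2_o_2F at h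
    simp only [Bool.or_eq_true, decide_eq_true_eq] at h
    · obtain ⟨⟨rfl, rfl, h1⟩, h2⟩ := h
      exact mt (WrapC.v2 H.c6 (by omega) (by omega) (by omega) (by omega) (by omega) (by omega) (by omega)).mp (by omega)

end Pool.Agent.SNT.Z8
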