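import Pool.Agent.SNT.Z8D

set_option autoImplicit false

/-! `P_(6 k + 7)` next to the wall in the row `c + 2`, leader `6 k + 8` (helper33). -/

namespace Pool.Agent.SNT.Z8

open Pool.Agent.SNT Pool.Agent.SNT.Loc Pool.Agent.SNT.LW

variable {f : ℕ → ℕ → ℕ → ℕ → Prop} {k c n : ℕ}

def z2_o_0T (j n p q : ℕ) : Bool :=
  decide (j = 2 ∧ n = 1 ∧ q ≤ p + 17 ∧ q ≤ p + 3 ∧ p + 4 > 0 ∧ (((p + q + 1) % 2 = 1 ∧ p + 3 < q ∧ (p) % 2 = 0) ∨ (q ≤ p + 4 ∧ (p + q) % 4 = 0))) ||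
    (decide (j = 4 ∧ n = 1 ∧ q ≤ p + 17 ∧ p + 2 > 0 ∧ (((p + q + 1) % 2 = 1 ∧ p + 3 < q ∧ (p) % 2 = 1) ∨ (q ≤ p + 4 ∧ (p + q + 2) % 4 = 0))) ||
    (decide (j = 4 ∧ n = 2 ∧ q ≤ p + 17 ∧ ((p > 0) ∨ (p + 3 ≤ q ∧ p + 1 > 0)) ∧ (q ≤ p + 3 ∧ (p + q + 3) % 4 = 0)) ||
    (decide (j = 4 ∧ n = 3 ∧ q ≤ p + 17 ∧ q ≤ p + 3 ∧ p > 2 ∧ (((p + q + 1) % 2 = 1 ∧ p + 3 < q ∧ (p) % 2 = 0) ∨ (q ≤ p + 4 ∧ (p + q) % 4 = 0))) ||
    (decide (j = 6 ∧ n = 1 ∧ q ≤ p + 17 ∧ q ≤ p + 3 ∧ p + 4 > 0 ∧ (((p + q + 1) % 2 = 1 ∧ p + 3 < q ∧ (p) % 2 = 0) ∨ (q ≤ p + 4 ∧ (p + q) % 4 = 0))) ||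
    (decide (j = 8 ∧ n = 1 ∧ q ≤ p + 17 ∧ p + 4 > 0 ∧ (((p + q + 1) % 2 = 1 ∧ p + 1 < q ∧ (p) % 2 = 1) ∨ (q ≤ p + 2 ∧ (p + q + 2) % 4 = 2))) ||
    (decide (j = 8 ∧ n = 2 ∧ q ≤ p + 17 ∧ ((p + 2 > 0) ∨ (p + 1 ≤ q ∧ p + 3 > 0)) ∧ (q ≤ p + 1 ∧ (p + q + 3) % 4 = 2)) ||
    (decide (j = 8 ∧ n = 3 ∧ q ≤ p + 17 ∧ q ≤ p + 1 ∧ p > 0 ∧ (((p + q + 1) % 2 = 1 ∧ p + 1 < q ∧ (p) % 2 = 0) ∨ (q ≤ p + 2 ∧ (p + q) % 4 = 2))) ||
    (decide (j = 9 ∧ n = 5 ∧ p = 7 ∧ q = 8)))))))))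

def z2_o_0F (j n p q : ℕ) : Bool :=
  decide (j = 2 ∧ n = 1 ∧ q ≤ p + 17 ∧ q ≤ p + 3 ∧ p + 4 > 0 ∧ ¬ (((p + q + 1) % 2 = 1 ∧ p + 3 < q ∧ (p) % 2 = 0) ∨ (q ≤ p + 4 ∧ (p + q) % 4 = 0))) ||
    (decide (j = 4 ∧ n = 3 ∧ q ≤ p + 17 ∧ q ≤ p + 3 ∧ p > 2 ∧ ¬ (((p + q + 1) % 2 = 1 ∧ p + 3 < q ∧ (p) % 2 = 0) ∨ (q ≤ p + 4 ∧ (p + q) % 4 = 0))) ||
    (decide (j = 6 ∧ n = 1 ∧ q ≤ p + 17 ∧ q ≤ p + 3 ∧ p + 4 > 0 ∧ ¬ (((p + q + 1) % 2 = 1 ∧ p + 3 < q ∧ (p) % 2 = 0) ∨ (q ≤ p + 4 ∧ (p + q) % 4 = 0))) ||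
    (decide (j = 8 ∧ n = 2 ∧ q ≤ p + 17 ∧ ((p + 2 > 0) ∨ (p + 1 ≤ q ∧ p + 3 > 0)) ∧ ¬ (q ≤ p + 1 ∧ (p + q + 3) % 4 = 2)) ||
    (decide (j = 8 ∧ n = 3 ∧ q ≤ p + 17 ∧ q ≤ p + 1 ∧ p > 0 ∧ ¬ (((p + q + 1) % 2 = 1 ∧ p + 1 < q ∧ (p) % 2 = 0) ∨ (q ≤ p + 2 ∧ (p + q) % 4 = 2))) ||
    (decide (j = 1 ∧ q ≤ p + 17))))))

theorem z2_o_0_chk : check 9 7 9 10 0 1 0 1 0 z2_o_0T z2_o_0F
    571
    0x34083047b8005bc5a06f7000837da09a5000ae042096d800aa8c203740304af0005ef5203738304ae8004ae84072a00086a5203780304b30005f3da072e80072e8409a50005bc000ae04206f742083280096dc20aa8800aa884083c00083c0105c08005c0810345030480000480040347030482000482040ae003083780083781096d800aa8c205f383072e800869c206fb8009a500083c5a0ae0420977000ab24203470304820005ef72072a00086a5205f38005f38109a50005c0800ae04206fbc2083c000977420ab2000ab204083280096dc20aa8800aa88405bc0003780003738005bc010378010373810340800340840314000346ba03140303410003410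403140303418003418403450304800005c0da06fb80083c5a0977000ab242034105030f0003469a031412034083047b8005bc5a06f7000837da09a5000ae042096d800aa8c203738304ae8005ef5a072a00086a5203780304b30005f3da072e80072e8409a50005bc000ae04206f742083280096dc20aa8800aa88403140003140405c08006fbc2083c000977420ab2000ab20403420003420405c70005c701034b80034b8103450304800005c0da06fb80083c5a0977000ab242034083047b8005bc5a06f7000837da09a5000ae042096d800aa8c203780304b30005f3da072e80086a4a05ef03072a00072a0409a50005bc000ae04206f742083280096dc20aa8800aa88405c08006fbc2083c000977420ab2000ab20405c700030f0005c70103141203468003468403450304800005c0da06fb80083c5a0977000ab242034105030f0003469a031412034083047b8005bc5a06f7000837da09a5000ae042096d800aa8c203738304ae8005ef5a072a00086a5203780304b30005f3da072e80072e8409a50005bc000ae04206f742083280096dc20aa8800aa88403140003140405c08006fbc2083c000977420ab2000ab20405c70005c701034b80034b81034700034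7040a71000a76120be8830a76000a760407fb0008001203450304800005c0da06fb80083c5a0977000ab2420ae0030837800972c2034083047b8005bc5a030f00031412034083047b8005bc5a03140003140406f7000837da097280097284083c000977420ab2000ab204080000080004031f03045a00045a04080f80080900080480080f8108090108048103500007dc8007d80007d18007cd00032380035001031d000318800917c2091342090cc209084202f70003238102f08002ec00031d0103188102e58002e1000c1b000a85800a7f000a7a800a52800a4e000a47800a43000a26000a21800a1b000a168007b00007ab8007a98007a50007a080079e80079a00079580059880059400058f80058d80058900058480056c00056780056580056100055c80055800053f80053900053480053000052e0005298005250002f70102c40002bf8002f08102bd8002ec0102b90002b48002e58102b28002e10102ae0002a9800c1b0f0ada870a858f0a85070a84870a80870a80070a7f870a7f0f0a7b070a7a8f0a76870a75870a528f0a4e0f0a49070a48870a478f0a44070a43870a430f0a260f0a218f0a1b0f0a168f086487080a8708098708088708008707ff870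7b00f07af8707af0707ab8f07ab0707aa8707aa0707a98f07a60707a58707a50f07a48707a40707a08f07a007079f87079f07079e8f079b07079a87079a0f07958f05ee87059a0705998705988f05950705948705940f059387059307058f8f058f07058e87058e07058d8f058a0705898705890f05848f056c0f05678f05658f05610f055c8f05580f053f8f05390f05348f05300f052e0f05298f05250f037787036e87031e87031d87031c8703148703138703128702ca0702c98702c50702c48702c40f02c38702c30702bf8f02bf0702be8702be0702bd8f02ba0702b98702b90f02b88702b80702b48f02b40702b38702b30702b28f02af0702ae8702ae0f02a98f023d07023c87023907023887023807023787023407023387023307021507021487021087021007020f87020c07020b87020b07020a87020a0702098702070702068702060702058702050702048702008702000701e88701e80701e78701e40701e38701e30701e28701e20701e18701df0701de8701de0701dd8701dd0701dc8701da0701d98701d90701d88701d80701d78701d40701d38701d30701bc0701bb8701bb0701b70701b68701b60701b58701b50701b48701b20701b18701b10701b08701b00701af8701ac0701ab8701ab0701aa8701aa0701a70701a68701a60701a58701a50701a10701a087018f07018e87018a07018987018887018807018407018387018307017f07017e87017d87017d07017907017887017807017407017387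 = true := by
  decide +kernel

theorem z2_o_0 (hf : Rule f) (H : Z8H f k c n) :
    ¬ f (6 * k + 7) (c + 2) (2 * n + 6 + 1) (2 * n + 6 - 2 * k - 1) := by
  by_contra hg
  have hk := H.hk
  have hc := H.hc
  have h4 := H.h4
  have hb := H.hb
  have hN2 := H.hn
  obtain ⟨a0, ha0⟩ : ∃ a0, a0 + 2 = 6 * k := ⟨6 * k - 2, by omega⟩
  obtain ⟨b0, hb0⟩ : ∃ b0, b0 + 3 = c := ⟨c - 3, by omega⟩
  obtain ⟨x0, hx0⟩ : ∃ x0, x0 + 6 = 2 * n + 6 := ⟨2 * n + 6 - 6, by omega⟩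
  obtain ⟨y0, hy0⟩ : ∃ y0, y0 + 9 = 2 * n + 6 - 2 * k := ⟨2 * n + 6 - 2 * k - 9, by omega⟩
  refine check_sound hf (a0 := a0) (b0 := b0) (x0 := x0) (y0 := y0) z2_o_0_chk
    ⟨fun h => absurd h (by decide), fun h => absurd h (by decide), fun h => absurd h (by decide),
      by omega, by omega, by omega, by omega⟩ ?_ ?_
  · intro j m p q hr h
    obtain ⟨-, -, hn1, hn2, hp1, hp2, hq1, hq2⟩ := hr
    unfold z2_o_0T at h
    simp only [Bool.or_eq_true, decide_eq_true_eq] at h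
    rcases h with h | h | h | h | h | h | h | h | h
    · obtain ⟨⟨rfl, rfl, h1⟩, h2⟩ := h
      exact (WrapC.v2 H.c0 (by omega) (by omega) (by omega) (by omega) (by omega) (by omega) (by omega)).mpr (by omega)
    · obtain ⟨⟨rfl, rfl, h1⟩, h2⟩ := h
      exact (WrapC.v0 H.c2 (by omega) (by omega) (by omega) (by omega) (by omega) (by omega) (by omega)).mpr (by omega)
    · obtain ⟨⟨rfl, rfl, h1⟩, h2⟩ := h
      exact (WrapC.v1 H.c2 (by omega) (by omega) (by omega) (by omega) (by omega) (by omega) (by omega) (by omega)).mpr (by omega)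
    · obtain ⟨⟨rfl, rfl, h1⟩, h2⟩ := h
      exact (WrapC.v2 H.c2 (by omega) (by omega) (by omega) (by omega) (by omega) (by omega) (by omega)).mpr (by omega)
    · obtain ⟨⟨rfl, rfl, h1⟩, h2⟩ := h
      exact (WrapC.v2 H.c4 (by omega) (by omega) (by omega) (by omega) (by omega) (by omega) (by omega)).mpr (by omega)
    · obtain ⟨⟨rfl, rfl, h1⟩, h2⟩ := h
      exact (WrapC.v0 H.c6 (by omega) (by omega) (by omega) (by omega) (by omega) (by omega) (by omega)).mpr (by omega)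
    · obtain ⟨⟨rfl, rfl, h1⟩, h2⟩ := h
      exact (WrapC.v1 H.c6 (by omega) (by omega) (by omega) (by omega) (by omega) (by omega) (by omega) (by omega)).mpr (by omega)
    · obtain ⟨⟨rfl, rfl, h1⟩, h2⟩ := h
      exact (WrapC.v2 H.c6 (by omega) (by omega) (by omega) (by omega) (by omega) (by omega) (by omega)).mpr (by omega)
    · obtain ⟨rfl, rfl, rfl, rfl⟩ := h
      exact mv hg (by omega) (by omega) (by omega) (by omega)
  · intro j m p q hr h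
    obtain ⟨-, -, hn1, hn2, hp1, hp2, hq1, hq2⟩ := hr
    unfold z2_o_0F at h
    simp only [Bool.or_eq_true, decide_eq_true_eq] at h
    rcases h with h | h | h | h | h | h
    · obtain ⟨⟨rfl, rfl, h1⟩, h2⟩ := h
      exact mt (WrapC.v2 H.c0 (by omega) (by omega) (by omega) (by omega) (by omega) (by omega) (by omega)).mp (by omega)
    · obtain ⟨⟨rfl, rfl, h1⟩, h2⟩ := h
      exact mt (WrapC.v2 H.c2 (by omega) (by omega) (by omega) (by omega) (by omega) (by omega) (by omega)).mp (by omega)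
    · obtain ⟨⟨rfl, rfl, h1⟩, h2⟩ := h
      exact mt (WrapC.v2 H.c4 (by omega) (by omega) (by omega) (by omega) (by omega) (by omega) (by omega)).mp (by omega)
    · obtain ⟨⟨rfl, rfl, h1⟩, h2⟩ := h
      exact mt (WrapC.v1 H.c6 (by omega) (by omega) (by omega) (by omega) (by omega) (by omega) (by omega) (by omega)).mp (by omega)
    · obtain ⟨⟨rfl, rfl, h1⟩, h2⟩ := h
      exact mt (WrapC.v2 H.c6 (by omega) (by omega) (by omega) (by omega) (by omega) (by omega) (by omega)).mp (by omega)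
    · obtain ⟨rfl, h1⟩ := h
      exact H.lw _ _ _ _ (by omega) (by omega) (by omega) (by omega) (by omega) (by omega)

def z2_o_4T (j n p q : ℕ) : Bool :=
  decide (j = 1 ∧ n = 1 ∧ q ≤ p + 20 ∧ ((p + 5 > 0) ∨ (p + 4 ≤ q ∧ p + 6 > 0)) ∧ (q ≤ p + 4 ∧ (p + q + 2) % 4 = 2)) ||
    (decide (j = 1 ∧ n = 2 ∧ q ≤ p + 20 ∧ q ≤ p + 4 ∧ p + 3 > 0 ∧ (((p + q) % 2 = 1 ∧ p + 4 < q ∧ (p + 1) % 2 = 0) ∨ (q ≤ p + 5 ∧ (p + q + 3) % 4 = 2))) ||
    (decide (j = 2 ∧ n = 4 ∧ p = 4 ∧ q = 4)))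

def z2_o_4F (j n p q : ℕ) : Bool :=
  decide (j = 1 ∧ n = 2 ∧ q ≤ p + 20 ∧ q ≤ p + 4 ∧ p + 3 > 0 ∧ ¬ (((p + q) % 2 = 1 ∧ p + 4 < q ∧ (p + 1) % 2 = 0) ∨ (q ≤ p + 5 ∧ (p + q + 3) % 4 = 2)))

theorem z2_o_4_chk : check 2 6 6 6 1 0 1 1 0 z2_o_4T z2_o_4F
    15
    0x11883012e00009680009400008500008280012e0f009a87009a0700978700970700968f00940f00850f00828f = true := by
  decide +kernel

theorem z2_o_4 (hf : Rule f) (H : Z8H f k c n) :
    ¬ f (6 * k + 7) (c + 2) (2 * n + 6 + 1) (2 * n + 6 - 2 * k - 5) := by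
  by_contra hg
  have hk := H.hk
  have hc := H.hc
  have h4 := H.h4
  have hb := H.hb
  have hN2 := H.hn
  obtain ⟨a0, ha0⟩ : ∃ a0, a0 = 6 * k + 5 := ⟨6 * k + 5, by omega⟩
  obtain ⟨b0, hb0⟩ : ∃ b0, b0 + 2 = c := ⟨c - 2, by omega⟩
  obtain ⟨x0, hx0⟩ : ∃ x0, x0 + 3 = 2 * n + 6 := ⟨2 * n + 6 - 3, by omega⟩
  obtain ⟨y0, hy0⟩ : ∃ y0, y0 + 9 = 2 * n + 6 - 2 * k := ⟨2 * n + 6 - 2 * k - 9, by omega⟩
  refine check_sound hf (a0 := a0) (b0 := b0) (x0 := x0) (y0 := y0) z2_o_4_chk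
    ⟨fun h => absurd h (by decide), fun h => absurd h (by decide), fun h => absurd h (by decide),
      by omega, by omega, by omega, by omega⟩ ?_ ?_
  · intro j m p q hr h
    obtain ⟨-, -, hn1, hn2, hp1, hp2, hq1, hq2⟩ := hr
    unfold z2_o_4T at h
    simp only [Bool.or_eq_true, decide_eq_true_eq] at h
    rcases h with h | h | h
    · obtain ⟨⟨rfl, rfl, h1⟩, h2⟩ := h
      exact (WrapC.v1 H.c6 (by omega) (by omega) (by omega) (by omega) (by omega) (by omega) (by omega) (by omega)).mpr (by omega)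
    · obtain ⟨⟨rfl, rfl, h1⟩, h2⟩ := h
      exact (WrapC.v2 H.c6 (by omega) (by omega) (by omega) (by omega) (by omega) (by omega) (by omega)).mpr (by omega)
    · obtain ⟨rfl, rfl, rfl, rfl⟩ := h
      exact mv hg (by omega) (by omega) (by omega) (by omega)
  · intro j m p q hr h
    obtain ⟨-, -, hn1, hn2, hp1, hp2, hq1, hq2⟩ := hr
    unfold z2_o_4F at h
    simp only [Bool.or_eq_true, decide_eq_true_eq] at h
    · obtain ⟨⟨rfl, rfl, h1⟩, h2⟩ := h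
      exact mt (WrapC.v2 H.c6 (by omega) (by omega) (by omega) (by omega) (by omega) (by omega) (by omega)).mp (by omega)

def z2_e_4T (j n p q : ℕ) : Bool :=
  decide (j = 1 ∧ n = 1 ∧ q ≤ p + 20 ∧ ((p + 6 > 0) ∨ (p + 4 ≤ q ∧ p + 7 > 0)) ∧ (q ≤ p + 4 ∧ (p + q) % 4 = 2)) ||
    (decide (j = 2 ∧ n = 4 ∧ p = 2 ∧ q = 2))

def z2_e_4F (j n p q : ℕ) : Bool :=
  decide (j = 1 ∧ n = 2 ∧ q ≤ p + 20 ∧ q ≤ p + 4 ∧ p + 4 > 0 ∧ ¬ (((p + q) % 2 = 1 ∧ p + 4 < q ∧ (p) % 2 = 0) ∨ (q ≤ p + 5 ∧ (p + q + 1) % 4 = 2)))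

theorem z2_e_4_chk : check 2 6 4 4 1 0 0 0 0 z2_e_4T z2_e_4F
    9
    0x7d03008500003a8000850f004507004487004307004287003a8f = true := by
  decide +kernel

theorem z2_e_4 (hf : Rule f) (H : Z8H f k c n) :
    ¬ f (6 * k + 7) (c + 2) (2 * n + 6) (2 * n + 6 - 2 * k - 6) := by
  by_contra hg
  have hk := H.hk
  have hc := H.hc
  have h4 := H.h4
  have hb := H.hb
  have hN2 := H.hn
  obtain ⟨a0, ha0⟩ : ∃ a0, a0 = 6 * k + 5 := ⟨6 * k + 5, by omega⟩
  obtain ⟨b0, hb0⟩ : ∃ b0, b0 + 2 = c := ⟨c - 2, by omega⟩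
  obtain ⟨x0, hx0⟩ : ∃ x0, x0 + 2 = 2 * n + 6 := ⟨2 * n + 6 - 2, by omega⟩
  obtain ⟨y0, hy0⟩ : ∃ y0, y0 + 8 = 2 * n + 6 - 2 * k := ⟨2 * n + 6 - 2 * k - 8, by omega⟩
  refine check_sound hf (a0 := a0) (b0 := b0) (x0 := x0) (y0 := y0) z2_e_4_chk
    ⟨fun h => absurd h (by decide), fun h => absurd h (by decide), fun h => absurd h (by decide),
      by omega, by omega, by omega, by omega⟩ ?_ ?_
  · intro j m p q hr h
    obtain ⟨-, -, hn1, hn2, hp1, hp2, hq1, hq2⟩ := hr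
    unfold z2_e_4T at h
    simp only [Bool.or_eq_true, decide_eq_true_eq] at h
    rcases h with h | h
    · obtain ⟨⟨rfl, rfl, h1⟩, h2⟩ := h
      exact (WrapC.v1 H.c6 (by omega) (by omega) (by omega) (by omega) (by omega) (by omega) (by omega) (by omega)).mpr (by omega)
    · obtain ⟨rfl, rfl, rfl, rfl⟩ := h
      exact mv hg (by omega) (by omega) (by omega) (by omega)
  · intro j m p q hr h
    obtain ⟨-, -, hn1, hn2, hp1, hp2, hq1, hq2⟩ := hr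
    unfold z2_e_4F at h
    simp only [Bool.or_eq_true, decide_eq_true_eq] at h
    · obtain ⟨⟨rfl, rfl, h1⟩, h2⟩ := h
      exact mt (WrapC.v2 H.c6 (by omega) (by omega) (by omega) (by omega) (by omega) (by omega) (by omega)).mp (by omega)

end Pool.Agent.SNT.Z8
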