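import Pool.Agent.SNT.Z8D

set_option autoImplicit false

/-! `P_(6 k + 7)` next to the wall in the row `c + 2`, leader `6 k + 8` (helper33). -/

namespace Pool.Agent.SNT.Z8

open Pool.Agent.SNT Pool.Agent.SNT.Loc Pool.Agent.SNT.LW

variable {f : ℕ → ℕ → ℕ → ℕ → Prop} {k c n : ℕ}

def z2_e_5T (j n p q : ℕ) : Bool :=
  decide (j = 2 ∧ n = 1 ∧ q ≤ p + 20 ∧ q ≤ p + 6 ∧ p + 1 > 0 ∧ (((p + q) % 2 = 1 ∧ p + 6 < q ∧ (p + 1) % 2 = 0) ∨ (q ≤ p + 7 ∧ (p + q + 3) % 4 = 0))) ||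
    (decide (j = 4 ∧ n = 1 ∧ q ≤ p + 20 ∧ p > 1 ∧ (((p + q) % 2 = 1 ∧ p + 6 < q ∧ (p + 1) % 2 = 1) ∨ (q ≤ p + 7 ∧ (p + q + 1) % 4 = 0))) ||
    (decide (j = 4 ∧ n = 2 ∧ q ≤ p + 20 ∧ ((p > 3) ∨ (p + 6 ≤ q ∧ p > 2)) ∧ (q ≤ p + 6 ∧ (p + q + 2) % 4 = 0)) ||
    (decide (j = 4 ∧ n = 3 ∧ q ≤ p + 20 ∧ q ≤ p + 6 ∧ p > 5 ∧ (((p + q) % 2 = 1 ∧ p + 6 < q ∧ (p + 1) % 2 = 0) ∨ (q ≤ p + 7 ∧ (p + q + 3) % 4 = 0))) ||
    (decide (j = 6 ∧ n = 1 ∧ q ≤ p + 20 ∧ q ≤ p + 6 ∧ p + 1 > 0 ∧ (((p + q) % 2 = 1 ∧ p + 6 < q ∧ (p + 1) % 2 = 0) ∨ (q ≤ p + 7 ∧ (p + q + 3) % 4 = 0))) ||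
    (decide (j = 8 ∧ n = 1 ∧ q ≤ p + 20 ∧ p + 1 > 0 ∧ (((p + q) % 2 = 1 ∧ p + 4 < q ∧ (p + 1) % 2 = 1) ∨ (q ≤ p + 5 ∧ (p + q + 1) % 4 = 2))) ||
    (decide (j = 8 ∧ n = 2 ∧ q ≤ p + 20 ∧ ((p > 1) ∨ (p + 4 ≤ q ∧ p > 0)) ∧ (q ≤ p + 4 ∧ (p + q + 2) % 4 = 2)) ||
    (decide (j = 8 ∧ n = 3 ∧ q ≤ p + 20 ∧ q ≤ p + 4 ∧ p > 3 ∧ (((p + q) % 2 = 1 ∧ p + 4 < q ∧ (p + 1) % 2 = 0) ∨ (q ≤ p + 5 ∧ (p + q + 3) % 4 = 2))) ||
    (decide (j = 9 ∧ n = 5 ∧ p = 9 ∧ q = 8)))))))))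

def z2_e_5F (j n p q : ℕ) : Bool :=
  decide (j = 2 ∧ n = 1 ∧ q ≤ p + 20 ∧ q ≤ p + 6 ∧ p + 1 > 0 ∧ ¬ (((p + q) % 2 = 1 ∧ p + 6 < q ∧ (p + 1) % 2 = 0) ∨ (q ≤ p + 7 ∧ (p + q + 3) % 4 = 0))) ||
    (decide (j = 4 ∧ n = 3 ∧ q ≤ p + 20 ∧ q ≤ p + 6 ∧ p > 5 ∧ ¬ (((p + q) % 2 = 1 ∧ p + 6 < q ∧ (p + 1) % 2 = 0) ∨ (q ≤ p + 7 ∧ (p + q + 3) % 4 = 0))) ||
    (decide (j = 6 ∧ n = 1 ∧ q ≤ p + 20 ∧ q ≤ p + 6 ∧ p + 1 > 0 ∧ ¬ (((p + q) % 2 = 1 ∧ p + 6 < q ∧ (p + 1) % 2 = 0) ∨ (q ≤ p + 7 ∧ (p + q + 3) % 4 = 0))) ||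
    (decide (j = 8 ∧ n = 3 ∧ q ≤ p + 20 ∧ q ≤ p + 4 ∧ p > 3 ∧ ¬ (((p + q) % 2 = 1 ∧ p + 4 < q ∧ (p + 1) % 2 = 0) ∨ (q ≤ p + 5 ∧ (p + q + 3) % 4 = 2))) ||
    (decide (j = 1 ∧ q ≤ p + 20)))))

theorem z2_e_5_chk : check 9 7 11 10 0 1 1 1 0 z2_e_5T z2_e_5F
    376
    0x3fe03057f000705da0886800a0d5a0b8e000d0f4203f983057a8007015a0882000a08da0b89800d0ac2043b0305bc000742da08c3800a4a5a0bcb000d4c420a08800b89c20d0a800d0a840a0d000b8e420d0f000d0f0409d68009d20009d00009cb8009c700071080070c0009d68109d20109d0010b4cc20b4842071081070c01040900040480099980099500099080098e80098a0009858003d70003d28003ce0004090103cc0004048103c78003c3000b1ac20b16420b11c20b0fc20b0b420b06c203d70103d28103958003ce0103910003cc01038c8003c781038a8003c3010386000381800ecd000cdd000cd8800cd4000cd2000ccd800cc9000cc4800c9b800c97000c92800c90800c8c000c87800c65000c60800c5c000c5a000c55800c5100096300095e80095c80095a00095800095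380095180094f00094d0009488009440006da0006d38006cf0006ca8006c880069d00069880069680069400069200068d80068900066680066200066000065b80065700065500036380035f00035a80039581035880035600039101035400038c81034f80038a81034d80034b000386010349000381810344800340000ecd0f0d4b870cdd0f0cd88f0cd8070cd7870cd40f0cd3870cd3070cd2870cd20f0cce870cce070ccd8f0cc90f0cc48f0c9b8f0c970f0c928f0c908f0c8c0f0c878f0c650f0c608f0c5c0f0c5a0f0c558f0c510f0a498709d18709d08709cf8709c68709630f096287096207095e8f095e07095d87095d07095c8f095a0f09598709590709588709580f09578709570709548709540709538f09530709528709520709518f094f0f094e87094e07094d87094d0f09498709490709488f09440f073d8706da0f06d98706d90706d50706d48706d40706d38f06d00706cf8706cf0f06ce8706ce0706ca8f06ca0706c98706c90706c88f06c487069d0f06988f06968f06940f06920f068d8f06890f06668f06620f06600f065b8f06570f06550f043a8703d68703cd8703cc8703cb8703c28703c18703638f035f0f035e8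7035e07035a8f035a0703598703590703588f03560f03558703550703548703540f035387035307035087035007034f8f034f07034e87034e07034d8f034b0f034a87034a0703498703490f03458703450703448f03400f02ba0702b98702b50702b487028807028787028387028307028287027e87027e07027d87027d07027c87027887027807027787027387027307025607025587025187025107025087024d07024c87024c07024b87024b07024a87024807024787024707024687024607024587024207024187024107024087023d07023c87023c07021f07021e87021a87021a07021987021607021587021507021487021407021387021107021087021007020f87020f07020e87020b87020b07020a87020a0702098702090702068702060702058702050702048702040702008702000701ff8701fb8701fb0701dd8701dd0701d90701d88701d80701d48701d40701d38701d28701d20701cf8701cf0701ce0701cd8701cd0701c98701c90701c88701c48701c407 = true := by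
  decide +kernel

theorem z2_e_5 (hf : Rule f) (H : Z8H f k c n) :
    ¬ f (6 * k + 7) (c + 2) (2 * n + 6) (2 * n + 6 - 2 * k - 7) := by
  by_contra hg
  have hk := H.hk
  have hc := H.hc
  have h4 := H.h4
  have hb := H.hb
  have hN2 := H.hn
  obtain ⟨a0, ha0⟩ : ∃ a0, a0 + 2 = 6 * k := ⟨6 * k - 2, by omega⟩
  obtain ⟨b0, hb0⟩ : ∃ b0, b0 + 3 = c := ⟨c - 3, by omega⟩
  obtain ⟨x0, hx0⟩ : ∃ x0, x0 + 9 = 2 * n + 6 := ⟨2 * n + 6 - 9, by omega⟩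
  obtain ⟨y0, hy0⟩ : ∃ y0, y0 + 15 = 2 * n + 6 - 2 * k := ⟨2 * n + 6 - 2 * k - 15, by omega⟩
  refine check_sound hf (a0 := a0) (b0 := b0) (x0 := x0) (y0 := y0) z2_e_5_chk
    ⟨fun h => absurd h (by decide), fun h => absurd h (by decide), fun h => absurd h (by decide),
      by omega, by omega, by omega, by omega⟩ ?_ ?_
  · intro j m p q hr h
    obtain ⟨-, -, hn1, hn2, hp1, hp2, hq1, hq2⟩ := hr
    unfold z2_e_5T at h
    simp only [Bool.or_eq_true, decide_eq_true_eq] at h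
    rcases h with h | h | h | h | h | h | h | h | h
    · obtain ⟨⟨rfl, rfl, h1⟩, h2⟩ := h
      exact (WrapC.v2 H.c0 (by omega) (by omega) (by omega) (by omega) (by omega) (by omega) (by omega)).mpr (by omega)
    · obtain ⟨⟨rfl, rfl, h1⟩, h2⟩ := h
      exact (WrapC.v0 H.c2 (by omega) (by omega) (by omega) (by omega) (by omega) (by omega) (by omega)).mpr (by omega)
    · obtain ⟨⟨rfl, rfl, h1⟩, h2⟩ := h
      exact (WrapC.v1 H.c2 (by omega) (by omega) (by omega) (by omega) (by omega) (by omega) (by omega) (by omega)).mpr (by omega)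
    · obtain ⟨⟨rfl, rfl, h1⟩, h2⟩ := h
      exact (WrapC.v2 H.c2 (by omega) (by omega) (by omega) (by omega) (by omega) (by omega) (by omega)).mpr (by omega)
    · obtain ⟨⟨rfl, rfl, h1⟩, h2⟩ := h
      exact (WrapC.v2 H.c4 (by omega) (by omega) (by omega) (by omega) (by omega) (by omega) (by omega)).mpr (by omega)
    · obtain ⟨⟨rfl, rfl, h1⟩, h2⟩ := h
      exact (WrapC.v0 H.c6 (by omega) (by omega) (by omega) (by omega) (by omega) (by omega) (by omega)).mpr (by omega)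
    · obtain ⟨⟨rfl, rfl, h1⟩, h2⟩ := h
      exact (WrapC.v1 H.c6 (by omega) (by omega) (by omega) (by omega) (by omega) (by omega) (by omega) (by omega)).mpr (by omega)
    · obtain ⟨⟨rfl, rfl, h1⟩, h2⟩ := h
      exact (WrapC.v2 H.c6 (by omega) (by omega) (by omega) (by omega) (by omega) (by omega) (by omega)).mpr (by omega)
    · obtain ⟨rfl, rfl, rfl, rfl⟩ := h
      exact mv hg (by omega) (by omega) (by omega) (by omega)
  · intro j m p q hr h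
    obtain ⟨-, -, hn1, hn2, hp1, hp2, hq1, hq2⟩ := hr
    unfold z2_e_5F at h
    simp only [Bool.or_eq_true, decide_eq_true_eq] at h
    rcases h with h | h | h | h | h
    · obtain ⟨⟨rfl, rfl, h1⟩, h2⟩ := h
      exact mt (WrapC.v2 H.c0 (by omega) (by omega) (by omega) (by omega) (by omega) (by omega) (by omega)).mp (by omega)
    · obtain ⟨⟨rfl, rfl, h1⟩, h2⟩ := h
      exact mt (WrapC.v2 H.c2 (by omega) (by omega) (by omega) (by omega) (by omega) (by omega) (by omega)).mp (by omega)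
    · obtain ⟨⟨rfl, rfl, h1⟩, h2⟩ := h
      exact mt (WrapC.v2 H.c4 (by omega) (by omega) (by omega) (by omega) (by omega) (by omega) (by omega)).mp (by omega)
    · obtain ⟨⟨rfl, rfl, h1⟩, h2⟩ := h
      exact mt (WrapC.v2 H.c6 (by omega) (by omega) (by omega) (by omega) (by omega) (by omega) (by omega)).mp (by omega)
    · obtain ⟨rfl, h1⟩ := h
      exact H.lw _ _ _ _ (by omega) (by omega) (by omega) (by omega) (by omega) (by omega)

def z2_e_6T (j n p q : ℕ) : Bool :=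
  decide (j = 1 ∧ n = 1 ∧ q ≤ p + 22 ∧ ((p + 4 > 0) ∨ (p + 6 ≤ q ∧ p + 5 > 0)) ∧ (q ≤ p + 6 ∧ (p + q + 2) % 4 = 2)) ||
    (decide (j = 1 ∧ n = 2 ∧ q ≤ p + 22 ∧ q ≤ p + 6 ∧ p + 2 > 0 ∧ (((p + q) % 2 = 1 ∧ p + 6 < q ∧ (p) % 2 = 0) ∨ (q ≤ p + 7 ∧ (p + q + 3) % 4 = 2))) ||
    (decide (j = 2 ∧ n = 4 ∧ p = 4 ∧ q = 4)))

def z2_e_6F (j n p q : ℕ) : Bool :=
  decide (j = 1 ∧ n = 2 ∧ q ≤ p + 22 ∧ q ≤ p + 6 ∧ p + 2 > 0 ∧ ¬ (((p + q) % 2 = 1 ∧ p + 6 < q ∧ (p) % 2 = 0) ∨ (q ≤ p + 7 ∧ (p + q + 3) % 4 = 2)))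

theorem z2_e_6_chk : check 2 6 6 6 1 0 0 0 0 z2_e_6T z2_e_6F
    15
    0x11883012e00009680009400008500008280012e0f009a87009a0700978700970700968f00940f00850f00828f = true := by
  decide +kernel

theorem z2_e_6 (hf : Rule f) (H : Z8H f k c n) :
    ¬ f (6 * k + 7) (c + 2) (2 * n + 6) (2 * n + 6 - 2 * k - 8) := by
  by_contra hg
  have hk := H.hk
  have hc := H.hc
  have h4 := H.h4
  have hb := H.hb
  have hN2 := H.hn
  obtain ⟨a0, ha0⟩ : ∃ a0, a0 = 6 * k + 5 := ⟨6 * k + 5, by omega⟩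
  obtain ⟨b0, hb0⟩ : ∃ b0, b0 + 2 = c := ⟨c - 2, by omega⟩
  obtain ⟨x0, hx0⟩ : ∃ x0, x0 + 4 = 2 * n + 6 := ⟨2 * n + 6 - 4, by omega⟩
  obtain ⟨y0, hy0⟩ : ∃ y0, y0 + 12 = 2 * n + 6 - 2 * k := ⟨2 * n + 6 - 2 * k - 12, by omega⟩
  refine check_sound hf (a0 := a0) (b0 := b0) (x0 := x0) (y0 := y0) z2_e_6_chk
    ⟨fun h => absurd h (by decide), fun h => absurd h (by decide), fun h => absurd h (by decide),
      by omega, by omega, by omega, by omega⟩ ?_ ?_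
  · intro j m p q hr h
    obtain ⟨-, -, hn1, hn2, hp1, hp2, hq1, hq2⟩ := hr
    unfold z2_e_6T at h
    simp only [Bool.or_eq_true, decide_eq_true_eq] at h
    rcases h with h | h | h
    · obtain ⟨⟨rfl, rfl, h1⟩, h2⟩ := h
      exact (WrapC.v1 H.c6 (by omega) (by omega) (by omega) (by omega) (by omega) (by omega) (by omega) (by omega)).mpr (by omega)
    · obtain ⟨⟨rfl, rfl, h1⟩, h2⟩ := h
      exact (WrapC.v2 H.c6 (by omega) (by omega) (by omega) (by omega) (by omega) (by omega) (by omega)).mpr (by omega)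
    · obtain ⟨rfl, rfl, rfl, rfl⟩ := h
      exact mv hg (by omega) (by omega) (by omega) (by omega)
  · intro j m p q hr h
    obtain ⟨-, -, hn1, hn2, hp1, hp2, hq1, hq2⟩ := hr
    unfold z2_e_6F at h
    simp only [Bool.or_eq_true, decide_eq_true_eq] at h
    · obtain ⟨⟨rfl, rfl, h1⟩, h2⟩ := h
      exact mt (WrapC.v2 H.c6 (by omega) (by omega) (by omega) (by omega) (by omega) (by omega) (by omega)).mp (by omega)

def z2_o_1T (j n p q : ℕ) : Bool :=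
  decide (j = 1 ∧ n = 1 ∧ q ≤ p + 19 ∧ ((p + 7 > 0) ∨ (p + 3 ≤ q ∧ p + 8 > 0)) ∧ (q ≤ p + 3 ∧ (p + q + 3) % 4 = 2)) ||
    (decide (j = 1 ∧ n = 2 ∧ q ≤ p + 19 ∧ q ≤ p + 3 ∧ p + 5 > 0 ∧ (((p + q + 1) % 2 = 1 ∧ p + 3 < q ∧ (p + 1) % 2 = 0) ∨ (q ≤ p + 4 ∧ (p + q) % 4 = 2))) ||
    (decide (j = 2 ∧ n = 4 ∧ p = 2 ∧ q = 4)))

def z2_o_1F (j n p q : ℕ) : Bool :=
  decide (j = 1 ∧ n = 2 ∧ q ≤ p + 19 ∧ q ≤ p + 3 ∧ p + 5 > 0 ∧ ¬ (((p + q + 1) % 2 = 1 ∧ p + 3 < q ∧ (p + 1) % 2 = 0) ∨ (q ≤ p + 4 ∧ (p + q) % 4 = 2)))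

theorem z2_o_1_chk : check 2 6 4 6 1 0 1 0 0 z2_o_1T z2_o_1F
    11
    0xbb8300c80000638000580000c80f00678700670700648700640700638f00580f = true := by
  decide +kernel

theorem z2_o_1 (hf : Rule f) (H : Z8H f k c n) :
    ¬ f (6 * k + 7) (c + 2) (2 * n + 6 + 1) (2 * n + 6 - 2 * k - 2) := by
  by_contra hg
  have hk := H.hk
  have hc := H.hc
  have h4 := H.h4
  have hb := H.hb
  have hN2 := H.hn
  obtain ⟨a0, ha0⟩ : ∃ a0, a0 = 6 * k + 5 := ⟨6 * k + 5, by omega⟩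
  obtain ⟨b0, hb0⟩ : ∃ b0, b0 + 2 = c := ⟨c - 2, by omega⟩
  obtain ⟨x0, hx0⟩ : ∃ x0, x0 + 1 = 2 * n + 6 := ⟨2 * n + 6 - 1, by omega⟩
  obtain ⟨y0, hy0⟩ : ∃ y0, y0 + 6 = 2 * n + 6 - 2 * k := ⟨2 * n + 6 - 2 * k - 6, by omega⟩
  refine check_sound hf (a0 := a0) (b0 := b0) (x0 := x0) (y0 := y0) z2_o_1_chk
    ⟨fun h => absurd h (by decide), fun h => absurd h (by decide), fun h => absurd h (by decide),
      by omega, by omega, by omega, by omega⟩ ?_ ?_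
  · intro j m p q hr h
    obtain ⟨-, -, hn1, hn2, hp1, hp2, hq1, hq2⟩ := hr
    unfold z2_o_1T at h
    simp only [Bool.or_eq_true, decide_eq_true_eq] at h
    rcases h with h | h | h
    · obtain ⟨⟨rfl, rfl, h1⟩, h2⟩ := h
      exact (WrapC.v1 H.c6 (by omega) (by omega) (by omega) (by omega) (by omega) (by omega) (by omega) (by omega)).mpr (by omega)
    · obtain ⟨⟨rfl, rfl, h1⟩, h2⟩ := h
      exact (WrapC.v2 H.c6 (by omega) (by omega) (by omega) (by omega) (by omega) (by omega) (by omega)).mpr (by omega)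
    · obtain ⟨rfl, rfl, rfl, rfl⟩ := h
      exact mv hg (by omega) (by omega) (by omega) (by omega)
  · intro j m p q hr h
    obtain ⟨-, -, hn1, hn2, hp1, hp2, hq1, hq2⟩ := hr
    unfold z2_o_1F at h
    simp only [Bool.or_eq_true, decide_eq_true_eq] at h
    · obtain ⟨⟨rfl, rfl, h1⟩, h2⟩ := h
      exact mt (WrapC.v2 H.c6 (by omega) (by omega) (by omega) (by omega) (by omega) (by omega) (by omega)).mp (by omega)

end Pool.Agent.SNT.Z8
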