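import Pool.Agent.SNT.Z8D

set_option autoImplicit false

/-! `P_(6 k + 7)` next to the wall in the row `c + 2`, leader `6 k + 8` (helper33). -/

namespace Pool.Agent.SNT.Z8

open Pool.Agent.SNT Pool.Agent.SNT.Loc Pool.Agent.SNT.LW

variable {f : ℕ → ℕ → ℕ → ℕ → Prop} {k c n : ℕ}

def z2_f_1T (j n p q : ℕ) : Bool :=
  decide (j = 2 ∧ n = 1 ∧ q ≤ p + 17 ∧ q ≤ p + 3 ∧ p + 6 > 0 ∧ (((p + q + 1) % 2 = 1 ∧ p + 3 < q ∧ (p) % 2 = 0) ∨ (q ≤ p + 4 ∧ (p + q) % 4 = 0))) ||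
    (decide (j = 4 ∧ n = 1 ∧ q ≤ p + 17 ∧ p + 4 > 0 ∧ (((p + q + 1) % 2 = 1 ∧ p + 3 < q ∧ (p) % 2 = 1) ∨ (q ≤ p + 4 ∧ (p + q + 2) % 4 = 0))) ||
    (decide (j = 4 ∧ n = 2 ∧ q ≤ p + 17 ∧ ((p + 2 > 0) ∨ (p + 3 ≤ q ∧ p + 3 > 0)) ∧ (q ≤ p + 3 ∧ (p + q + 3) % 4 = 0)) ||
    (decide (j = 4 ∧ n = 3 ∧ q ≤ p + 17 ∧ q ≤ p + 3 ∧ p > 0 ∧ (((p + q + 1) % 2 = 1 ∧ p + 3 < q ∧ (p) % 2 = 0) ∨ (q ≤ p + 4 ∧ (p + q) % 4 = 0))) ||
    (decide (j = 6 ∧ n = 1 ∧ q ≤ p + 17 ∧ q ≤ p + 3 ∧ p + 6 > 0 ∧ (((p + q + 1) % 2 = 1 ∧ p + 3 < q ∧ (p) % 2 = 0) ∨ (q ≤ p + 4 ∧ (p + q) % 4 = 0))) ||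
    (decide (j = 8 ∧ n = 1 ∧ q ≤ p + 17 ∧ p + 6 > 0 ∧ (((p + q + 1) % 2 = 1 ∧ p + 1 < q ∧ (p) % 2 = 1) ∨ (q ≤ p + 2 ∧ (p + q + 2) % 4 = 2))) ||
    (decide (j = 8 ∧ n = 2 ∧ q ≤ p + 17 ∧ ((p + 4 > 0) ∨ (p + 1 ≤ q ∧ p + 5 > 0)) ∧ (q ≤ p + 1 ∧ (p + q + 3) % 4 = 2)) ||
    (decide (j = 8 ∧ n = 3 ∧ q ≤ p + 17 ∧ q ≤ p + 1 ∧ p + 2 > 0 ∧ (((p + q + 1) % 2 = 1 ∧ p + 1 < q ∧ (p) % 2 = 0) ∨ (q ≤ p + 2 ∧ (p + q) % 4 = 2))) ||
    (decide (j = 10 ∧ n = 4 ∧ q ≤ p + 17 ∧ ((p > 1 ∧ p + 4 ≤ q) ∨ (p > 4)) ∧ (q ≤ p + 1 ∧ (p + q + 3) % 4 = 2)) ||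
    (decide (j = 10 ∧ n = 5 ∧ q ≤ p + 17 ∧ q ≤ p + 1 ∧ p > 6 ∧ (((p + q + 1) % 2 = 1 ∧ p + 1 < q ∧ (p) % 2 = 0) ∨ (q ≤ p + 2 ∧ (p + q) % 4 = 2))) ||
    (decide (j = 9 ∧ n = 5 ∧ p = 6 ∧ q = 6)))))))))))

def z2_f_1F (j n p q : ℕ) : Bool :=
  decide (j = 2 ∧ n = 1 ∧ q ≤ p + 17 ∧ q ≤ p + 3 ∧ p + 6 > 0 ∧ ¬ (((p + q + 1) % 2 = 1 ∧ p + 3 < q ∧ (p) % 2 = 0) ∨ (q ≤ p + 4 ∧ (p + q) % 4 = 0))) ||
    (decide (j = 4 ∧ n = 3 ∧ q ≤ p + 17 ∧ q ≤ p + 3 ∧ p > 0 ∧ ¬ (((p + q + 1) % 2 = 1 ∧ p + 3 < q ∧ (p) % 2 = 0) ∨ (q ≤ p + 4 ∧ (p + q) % 4 = 0))) ||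
    (decide (j = 6 ∧ n = 1 ∧ q ≤ p + 17 ∧ q ≤ p + 3 ∧ p + 6 > 0 ∧ ¬ (((p + q + 1) % 2 = 1 ∧ p + 3 < q ∧ (p) % 2 = 0) ∨ (q ≤ p + 4 ∧ (p + q) % 4 = 0))) ||
    (decide (j = 8 ∧ n = 3 ∧ q ≤ p + 17 ∧ q ≤ p + 1 ∧ p + 2 > 0 ∧ ¬ (((p + q + 1) % 2 = 1 ∧ p + 1 < q ∧ (p) % 2 = 0) ∨ (q ≤ p + 2 ∧ (p + q) % 4 = 2))) ||
    (decide (j = 1 ∧ q ≤ p + 17)))))

theorem z2_f_1_chk : check 10 7 10 8 0 1 0 1 0 z2_f_1T z2_f_1F
    364
    0x30703041f00053b52030683041e80041e84065300076f5206260306528006528408870009a352062603065280076ed2088680088684077303088b00088b04053e80053e81030a0304220004220402e283042280042284030b03042300042304030e03042600042604030e8304268004268402e603030e00030e04071b0307430007430405118005118102dd0303f50003f50403cd8303f58003f58402de8303f68003f68402df0303f70003f70403d10303f90003f90402e18303f98003f98402e20303fa0003fa0405170005170102e28303fa8003fa8402e30303fb0003fb0402b2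0302da0002da0402b58302dd8002dd8402b90302e10002e10402bb0302e30002e30402b50303cd0003cd0402bb0303d30003d304051a800632c2074f0008674209a680072200071e800abec2072201071e81097f0009798009760006fa8006f70006f18006ee0002be800a97420a91c20a8e420812c2080f420809c208064202be81029180028e000bdb000bae000baa800abb00095b00095200094e80094c80094900094580092a80092700092500092180091e0009030008fa0008f68006cd8006ca0006c68006c48006c10006bd8004f30004ed8004ea0004e68004e48004e10004dd8004c98004c60004c28004bf0004b98004b60004a200049e80049b00049900049580049200026a00026680029181026480028e01026100025d800bdb0f0bae0f0baa8f0abb0f09a287095b0f09570709568709530709528709520f095187095107094e8f094e07094d87094d07094c8f094a0709498709490f09458f092a8f09270f09250f09218f091e0f09030f08fa0f08f68f077287076a87072287072187071a8706d28706d20706cf0706ce8706ce0706cd8f06cb0706ca8706ca0f06c98706c90706c68f06c60706c58706c50706c48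f06c20706c18706c10f06bd8f053a8704f30f04f28704f20704ef0704ee8704ee0704ed8f04eb0704ea8704ea0f04e98704e90704e68f04e60704e58704e50704e48f04e20704e18704e10f04dd8f04c98f04c60f04c28f04bf0f04b98f04b60f04a20f049e8f049b0f04990f04958f04920f030a8703098703028702ba8702b98702b88702b28702b18702b087026a0f02698702690702668f02660702658702650702648f02620702618702610f025d8f01f68701f60701f58701f30701f28701f20701f18701ef0701ee8701ee0701ed8701eb0701ea8701ea0701ce8701ce0701cd8701cb0701ca8701ca0701c98701c90701c70701c68701c60701c58701c50701c48701c30701c28701c20701c10701c08701a68701a60701a58701a30701a28701a20701a18701a10701a087019f07019e87019e07019d87019d07019c87019b07019a87019a07019987019907019887019607019587017e87017e07017b07017a87017a07017987017907017887017707017687017607017587017507017487017207017187017107017087016e07016d87015187015107014e07014d87014d07014a07014987 = true := by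
  decide +kernel

theorem z2_f_1 (hf : Rule f) (H : Z8H f k c n) :
    ¬ f (6 * k + 7) (c + 2) (2 * n + 8) (2 * n + 8 - 2 * k - 3) := by
  by_contra hg
  have hk := H.hk
  have hc := H.hc
  have h4 := H.h4
  have hb := H.hb
  have hN2 := H.hn
  obtain ⟨a0, ha0⟩ : ∃ a0, a0 + 2 = 6 * k := ⟨6 * k - 2, by omega⟩
  obtain ⟨b0, hb0⟩ : ∃ b0, b0 + 3 = c := ⟨c - 3, by omega⟩
  obtain ⟨x0, hx0⟩ : ∃ x0, x0 + 6 = 2 * n + 8 := ⟨2 * n + 8 - 6, by omega⟩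
  obtain ⟨y0, hy0⟩ : ∃ y0, y0 + 9 = 2 * n + 8 - 2 * k := ⟨2 * n + 8 - 2 * k - 9, by omega⟩
  refine check_sound hf (a0 := a0) (b0 := b0) (x0 := x0) (y0 := y0) z2_f_1_chk
    ⟨fun h => absurd h (by decide), fun h => absurd h (by decide), fun h => absurd h (by decide),
      by omega, by omega, by omega, by omega⟩ ?_ ?_
  · intro j m p q hr h
    obtain ⟨-, -, hn1, hn2, hp1, hp2, hq1, hq2⟩ := hr
    unfold z2_f_1T at h
    simp only [Bool.or_eq_true, decide_eq_true_eq] at h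
    rcases h with h | h | h | h | h | h | h | h | h | h | h
    · obtain ⟨⟨rfl, rfl, h1⟩, h2⟩ := h
      exact (WrapC.v2 H.c0 (by omega) (by omega) (by omega) (by omega) (by omega) (by omega) (by omega)).mpr (by omega)
    · obtain ⟨⟨rfl, rfl, h1⟩, h2⟩ := h
      exact (WrapC.v0 H.c2 (by omega) (by omega) (by omega) (by omega) (by omega) (by omega) (by omega)).mpr (by omega)
    · obtain ⟨⟨rfl, rfl, h1⟩, h2⟩ := h
      exact (WrapC.v1 H.c2 (by omega) (by omega) (by omega) (by omega) (by omega) (by omega) (by omega) (by omega)).mpr (by omega)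
    · obtain ⟨⟨rfl, rfl, h1⟩, h2⟩ := h
      exact (WrapC.v2 H.c2 (by omega) (by omega) (by omega) (by omega) (by omega) (by omega) (by omega)).mpr (by omega)
    · obtain ⟨⟨rfl, rfl, h1⟩, h2⟩ := h
      exact (WrapC.v2 H.c4 (by omega) (by omega) (by omega) (by omega) (by omega) (by omega) (by omega)).mpr (by omega)
    · obtain ⟨⟨rfl, rfl, h1⟩, h2⟩ := h
      exact (WrapC.v0 H.c6 (by omega) (by omega) (by omega) (by omega) (by omega) (by omega) (by omega)).mpr (by omega)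
    · obtain ⟨⟨rfl, rfl, h1⟩, h2⟩ := h
      exact (WrapC.v1 H.c6 (by omega) (by omega) (by omega) (by omega) (by omega) (by omega) (by omega) (by omega)).mpr (by omega)
    · obtain ⟨⟨rfl, rfl, h1⟩, h2⟩ := h
      exact (WrapC.v2 H.c6 (by omega) (by omega) (by omega) (by omega) (by omega) (by omega) (by omega)).mpr (by omega)
    · obtain ⟨⟨rfl, rfl, h1⟩, h2⟩ := h
      exact (NW.w1v H.c8 (by omega) (by omega) (by omega) (by omega) (by omega) (by omega) (by omega) (by omega)).mpr (by omega)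
    · obtain ⟨⟨rfl, rfl, h1⟩, h2⟩ := h
      exact (NW.w2v H.c8 (by omega) (by omega) (by omega) (by omega) (by omega) (by omega) (by omega)).mpr (by omega)
    · obtain ⟨rfl, rfl, rfl, rfl⟩ := h
      exact mv hg (by omega) (by omega) (by omega) (by omega)
  · intro j m p q hr h
    obtain ⟨-, -, hn1, hn2, hp1, hp2, hq1, hq2⟩ := hr
    unfold z2_f_1F at h
    simp only [Bool.or_eq_true, decide_eq_true_eq] at h
    rcases h with h | h | h | h | h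
    · obtain ⟨⟨rfl, rfl, h1⟩, h2⟩ := h
      exact mt (WrapC.v2 H.c0 (by omega) (by omega) (by omega) (by omega) (by omega) (by omega) (by omega)).mp (by omega)
    · obtain ⟨⟨rfl, rfl, h1⟩, h2⟩ := h
      exact mt (WrapC.v2 H.c2 (by omega) (by omega) (by omega) (by omega) (by omega) (by omega) (by omega)).mp (by omega)
    · obtain ⟨⟨rfl, rfl, h1⟩, h2⟩ := h
      exact mt (WrapC.v2 H.c4 (by omega) (by omega) (by omega) (by omega) (by omega) (by omega) (by omega)).mp (by omega)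
    · obtain ⟨⟨rfl, rfl, h1⟩, h2⟩ := h
      exact mt (WrapC.v2 H.c6 (by omega) (by omega) (by omega) (by omega) (by omega) (by omega) (by omega)).mp (by omega)
    · obtain ⟨rfl, h1⟩ := h
      exact H.lw _ _ _ _ (by omega) (by omega) (by omega) (by omega) (by omega) (by omega)

def z2_e_2T (j n p q : ℕ) : Bool :=
  decide (j = 1 ∧ n = 1 ∧ q ≤ p + 18 ∧ ((p + 4 > 0) ∨ (p + 2 ≤ q ∧ p + 5 > 0)) ∧ (q ≤ p + 2 ∧ (p + q + 2) % 4 = 2)) ||
    (decide (j = 1 ∧ n = 2 ∧ q ≤ p + 18 ∧ q ≤ p + 2 ∧ p + 2 > 0 ∧ (((p + q) % 2 = 1 ∧ p + 2 < q ∧ (p) % 2 = 0) ∨ (q ≤ p + 3 ∧ (p + q + 3) % 4 = 2))) ||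
    (decide (j = 2 ∧ n = 4 ∧ p = 4 ∧ q = 4)))

def z2_e_2F (j n p q : ℕ) : Bool :=
  decide (j = 1 ∧ n = 2 ∧ q ≤ p + 18 ∧ q ≤ p + 2 ∧ p + 2 > 0 ∧ ¬ (((p + q) % 2 = 1 ∧ p + 2 < q ∧ (p) % 2 = 0) ∨ (q ≤ p + 3 ∧ (p + q + 3) % 4 = 2)))

theorem z2_e_2_chk : check 2 6 6 6 1 0 0 0 0 z2_e_2T z2_e_2F
    15
    0x11883012e00009680009400008500008280012e0f009a87009a0700978700970700968f00940f00850f00828f = true := by
  decide +kernel

theorem z2_e_2 (hf : Rule f) (H : Z8H f k c n) :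
    ¬ f (6 * k + 7) (c + 2) (2 * n + 6) (2 * n + 6 - 2 * k - 4) := by
  by_contra hg
  have hk := H.hk
  have hc := H.hc
  have h4 := H.h4
  have hb := H.hb
  have hN2 := H.hn
  obtain ⟨a0, ha0⟩ : ∃ a0, a0 = 6 * k + 5 := ⟨6 * k + 5, by omega⟩
  obtain ⟨b0, hb0⟩ : ∃ b0, b0 + 2 = c := ⟨c - 2, by omega⟩
  obtain ⟨x0, hx0⟩ : ∃ x0, x0 + 4 = 2 * n + 6 := ⟨2 * n + 6 - 4, by omega⟩
  obtain ⟨y0, hy0⟩ : ∃ y0, y0 + 8 = 2 * n + 6 - 2 * k := ⟨2 * n + 6 - 2 * k - 8, by omega⟩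
  refine check_sound hf (a0 := a0) (b0 := b0) (x0 := x0) (y0 := y0) z2_e_2_chk
    ⟨fun h => absurd h (by decide), fun h => absurd h (by decide), fun h => absurd h (by decide),
      by omega, by omega, by omega, by omega⟩ ?_ ?_
  · intro j m p q hr h
    obtain ⟨-, -, hn1, hn2, hp1, hp2, hq1, hq2⟩ := hr
    unfold z2_e_2T at h
    simp only [Bool.or_eq_true, decide_eq_true_eq] at h
    rcases h with h | h | h
    · obtain ⟨⟨rfl, rfl, h1⟩, h2⟩ := h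
      exact (WrapC.v1 H.c6 (by omega) (by omega) (by omega) (by omega) (by omega) (by omega) (by omega) (by omega)).mpr (by omega)
    · obtain ⟨⟨rfl, rfl, h1⟩, h2⟩ := h
      exact (WrapC.v2 H.c6 (by omega) (by omega) (by omega) (by omega) (by omega) (by omega) (by omega)).mpr (by omega)
    · obtain ⟨rfl, rfl, rfl, rfl⟩ := h
      exact mv hg (by omega) (by omega) (by omega) (by omega)
  · intro j m p q hr h
    obtain ⟨-, -, hn1, hn2, hp1, hp2, hq1, hq2⟩ := hr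
    unfold z2_e_2F at h
    simp only [Bool.or_eq_true, decide_eq_true_eq] at h
    · obtain ⟨⟨rfl, rfl, h1⟩, h2⟩ := h
      exact mt (WrapC.v2 H.c6 (by omega) (by omega) (by omega) (by omega) (by omega) (by omega) (by omega)).mp (by omega)

def z2_o_5T (j n p q : ℕ) : Bool :=
  decide (j = 1 ∧ n = 1 ∧ q ≤ p + 19 ∧ ((p + 5 > 0) ∨ (p + 3 ≤ q ∧ p + 6 > 0)) ∧ (q ≤ p + 3 ∧ (p + q + 3) % 4 = 2)) ||
    (decide (j = 1 ∧ n = 2 ∧ q ≤ p + 19 ∧ q ≤ p + 3 ∧ p + 3 > 0 ∧ (((p + q + 1) % 2 = 1 ∧ p + 3 < q ∧ (p + 1) % 2 = 0) ∨ (q ≤ p + 4 ∧ (p + q) % 4 = 2))) ||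
    (decide (j = 2 ∧ n = 4 ∧ p = 4 ∧ q = 2)))

def z2_o_5F (j n p q : ℕ) : Bool :=
  decide (j = 1 ∧ n = 2 ∧ q ≤ p + 19 ∧ q ≤ p + 3 ∧ p + 3 > 0 ∧ ¬ (((p + q + 1) % 2 = 1 ∧ p + 3 < q ∧ (p + 1) % 2 = 0) ∨ (q ≤ p + 4 ∧ (p + q) % 4 = 2)))

theorem z2_o_5_chk : check 2 6 6 4 1 0 1 0 0 z2_o_5T z2_o_5F
    13
    0xbb0300c90000628000588000570000c90f00670700668700650700648700628f00588f00570f = true := by
  decide +kernel

theorem z2_o_5 (hf : Rule f) (H : Z8H f k c n) :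
    ¬ f (6 * k + 7) (c + 2) (2 * n + 6 + 1) (2 * n + 6 - 2 * k - 6) := by
  by_contra hg
  have hk := H.hk
  have hc := H.hc
  have h4 := H.h4
  have hb := H.hb
  have hN2 := H.hn
  obtain ⟨a0, ha0⟩ : ∃ a0, a0 = 6 * k + 5 := ⟨6 * k + 5, by omega⟩
  obtain ⟨b0, hb0⟩ : ∃ b0, b0 + 2 = c := ⟨c - 2, by omega⟩
  obtain ⟨x0, hx0⟩ : ∃ x0, x0 + 3 = 2 * n + 6 := ⟨2 * n + 6 - 3, by omega⟩
  obtain ⟨y0, hy0⟩ : ∃ y0, y0 + 8 = 2 * n + 6 - 2 * k := ⟨2 * n + 6 - 2 * k - 8, by omega⟩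
  refine check_sound hf (a0 := a0) (b0 := b0) (x0 := x0) (y0 := y0) z2_o_5_chk
    ⟨fun h => absurd h (by decide), fun h => absurd h (by decide), fun h => absurd h (by decide),
      by omega, by omega, by omega, by omega⟩ ?_ ?_
  · intro j m p q hr h
    obtain ⟨-, -, hn1, hn2, hp1, hp2, hq1, hq2⟩ := hr
    unfold z2_o_5T at h
    simp only [Bool.or_eq_true, decide_eq_true_eq] at h
    rcases h with h | h | h
    · obtain ⟨⟨rfl, rfl, h1⟩, h2⟩ := h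
      exact (WrapC.v1 H.c6 (by omega) (by omega) (by omega) (by omega) (by omega) (by omega) (by omega) (by omega)).mpr (by omega)
    · obtain ⟨⟨rfl, rfl, h1⟩, h2⟩ := h
      exact (WrapC.v2 H.c6 (by omega) (by omega) (by omega) (by omega) (by omega) (by omega) (by omega)).mpr (by omega)
    · obtain ⟨rfl, rfl, rfl, rfl⟩ := h
      exact mv hg (by omega) (by omega) (by omega) (by omega)
  · intro j m p q hr h
    obtain ⟨-, -, hn1, hn2, hp1, hp2, hq1, hq2⟩ := hr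
    unfold z2_o_5F at h
    simp only [Bool.or_eq_true, decide_eq_true_eq] at h
    · obtain ⟨⟨rfl, rfl, h1⟩, h2⟩ := h
      exact mt (WrapC.v2 H.c6 (by omega) (by omega) (by omega) (by omega) (by omega) (by omega) (by omega)).mp (by omega)

def z2_e_0T (j n p q : ℕ) : Bool :=
  decide (j = 1 ∧ n = 1 ∧ q ≤ p + 16 ∧ ((p + 6 > 0) ∨ (p ≤ q ∧ p + 7 > 0)) ∧ (q ≤ p ∧ (p + q) % 4 = 2)) ||
    (decide (j = 2 ∧ n = 4 ∧ p = 2 ∧ q = 2))

def z2_e_0F (j n p q : ℕ) : Bool :=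
  decide (j = 1 ∧ n = 2 ∧ q ≤ p + 16 ∧ q ≤ p ∧ p + 4 > 0 ∧ ¬ (((p + q) % 2 = 1 ∧ p < q ∧ (p) % 2 = 0) ∨ (q ≤ p + 1 ∧ (p + q + 1) % 4 = 2)))

theorem z2_e_0_chk : check 2 6 4 4 1 0 0 0 0 z2_e_0T z2_e_0F
    8
    0x7d03008500003a8000850f004507004487004287003a8f = true := by
  decide +kernel

theorem z2_e_0 (hf : Rule f) (H : Z8H f k c n) :
    ¬ f (6 * k + 7) (c + 2) (2 * n + 6) (2 * n + 6 - 2 * k - 2) := by
  by_contra hg
  have hk := H.hk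
  have hc := H.hc
  have h4 := H.h4
  have hb := H.hb
  have hN2 := H.hn
  obtain ⟨a0, ha0⟩ : ∃ a0, a0 = 6 * k + 5 := ⟨6 * k + 5, by omega⟩
  obtain ⟨b0, hb0⟩ : ∃ b0, b0 + 2 = c := ⟨c - 2, by omega⟩
  obtain ⟨x0, hx0⟩ : ∃ x0, x0 + 2 = 2 * n + 6 := ⟨2 * n + 6 - 2, by omega⟩
  obtain ⟨y0, hy0⟩ : ∃ y0, y0 + 4 = 2 * n + 6 - 2 * k := ⟨2 * n + 6 - 2 * k - 4, by omega⟩
  refine check_sound hf (a0 := a0) (b0 := b0) (x0 := x0) (y0 := y0) z2_e_0_chk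
    ⟨fun h => absurd h (by decide), fun h => absurd h (by decide), fun h => absurd h (by decide),
      by omega, by omega, by omega, by omega⟩ ?_ ?_
  · intro j m p q hr h
    obtain ⟨-, -, hn1, hn2, hp1, hp2, hq1, hq2⟩ := hr
    unfold z2_e_0T at h
    simp only [Bool.or_eq_true, decide_eq_true_eq] at h
    rcases h with h | h
    · obtain ⟨⟨rfl, rfl, h1⟩, h2⟩ := h
      exact (WrapC.v1 H.c6 (by omega) (by omega) (by omega) (by omega) (by omega) (by omega) (by omega) (by omega)).mpr (by omega)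
    · obtain ⟨rfl, rfl, rfl, rfl⟩ := h
      exact mv hg (by omega) (by omega) (by omega) (by omega)
  · intro j m p q hr h
    obtain ⟨-, -, hn1, hn2, hp1, hp2, hq1, hq2⟩ := hr
    unfold z2_e_0F at h
    simp only [Bool.or_eq_true, decide_eq_true_eq] at h
    · obtain ⟨⟨rfl, rfl, h1⟩, h2⟩ := h
      exact mt (WrapC.v2 H.c6 (by omega) (by omega) (by omega) (by omega) (by omega) (by omega) (by omega)).mp (by omega)

end Pool.Agent.SNT.Z8
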