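import Pool.Agent.SNT.LocTop8
import Pool.Agent.SNT.LocR8x
import Pool.Agent.SNT.LocR8Z2x
import Pool.Agent.SNT.LB8
import Pool.Agent.SNT.LocR8z
import Pool.Agent.SNT.LocR8Z3
import Pool.Agent.SNT.Z1W
import Pool.Agent.SNT.Z2W
import Pool.Agent.SNT.LocL2
import Pool.Agent.SNT.LocR8L0

set_option autoImplicit false

/-! LOCATION of the leader `6 k + 8` from the improved leads: assembly. -/

namespace Pool.Agent.SNT.LocR8

open Pool.Agent.SNT Pool.Agent.SNT.Loc Pool.Agent.SNT.LW Pool.Agent.SNT.NHZ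

variable {f : ℕ → ℕ → ℕ → ℕ → Prop}

theorem ztop8_of (hf : Rule f) {k b m : ℕ} (hs : Side k b m) (S : Stack6 f k b m 0 0 0 0 1 1)
    (tip : f (6 * k + 8) (b + 20) (2 * (m + 7 + (k + 2) * 4) + 1) (2 * (m + 7 + (k + 2) * 4)))
    (d2 : Cyc f (6 * k + 2) (b + 18) (2 * (m + 5 + (k + 2) * 4) + 2))
    (d0 : Cyc f (6 * k) (b + 16) (2 * (m + 2 + (k + 2) * 4) + 2)) :
    ZTop8 f (6 * k + 8) (b + 16) (m + 7 + (k + 2) * 4) := by
  have H := LocR8Z.H8.of_stack hf hs S tip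
  have hz3 := fun x hx => z3_cells hf hs S tip d2 d0 (x := x) hx
  have hz1e := fun x y => z1_ext hf hs S d2 d0 x y
  have hz2e := fun x y => z2_ext hf hs S d2 d0 x y
  have hs' := hs
  obtain ⟨hk, hb2, hb4, hbl, hm⟩ := hs
  obtain ⟨n, hn⟩ : ∃ n, n = m + 7 + (k + 2) * 4 := ⟨_, rfl⟩
  have hz1w := Z8.z1_wall (n := n) hf hs' S hn (d2 := by
    rw [hn, show m + 7 + (k + 2) * 4 - 2 = m + 5 + (k + 2) * 4 by omega]; exact d2) (d0 := by
    rw [hn, show m + 7 + (k + 2) * 4 - 5 = m + 2 + (k + 2) * 4 by omega]; exact d0)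
  have hz2w := Z8.z2_wall (n := n) hf hs' S hn (d2 := by
    rw [hn, show m + 7 + (k + 2) * 4 - 2 = m + 5 + (k + 2) * 4 by omega]; exact d2) (d0 := by
    rw [hn, show m + 7 + (k + 2) * 4 - 5 = m + 2 + (k + 2) * 4 by omega]; exact d0)
  have hz2c := fun x y => S6.locR8_b (n := n) (x := x) (y := y) hf hs' S hn (d2 := by
    rw [hn, show m + 7 + (k + 2) * 4 - 2 = m + 5 + (k + 2) * 4 by omega]; exact d2) (d0 := by
    rw [hn, show m + 7 + (k + 2) * 4 - 5 = m + 2 + (k + 2) * 4 by omega]; exact d0)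
  rw [← hn] at H hz3 hz1e hz2e ⊢
  have hmn : 2 * m + 14 ≤ 2 * n := by omega
  have hdiv : (6 * k + 8) / 6 = k + 1 := by omega
  have key : ∀ i x y : ℕ, i ≤ 100 → y ≤ x → 2 * n < x + 2 →
      (2 * x < 2 * y + b → ¬ f (6 * k + 7) (b + i) x y) →
      (f (6 * k + 8 - 1) (b + i) x y ↔ Fst (6 * k + 8 - 1) (b + i) x y) := by
    intro i x y h1 h2 h3 h4
    have e : 6 * k + 8 - 1 = 6 * k + 7 := by omega
    rw [e]
    exact S6.st_of_zero hs' S (by omega) (by omega) h1 h2 (by omega) h4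
  refine ⟨?_, ?_, ?_, ?_, ?_, ?_, ?_⟩
  · intro x y h1 h2
    rw [hdiv] at h1
    refine key 18 x y (by omega) (by omega) h2 fun h => ?_
    exact H.zm2 hf (by omega) (by omega) (by omega)
  · intro x y h1 h2
    rw [hdiv] at h1
    refine key 19 x y (by omega) (by omega) h2 fun h => ?_
    exact H.zm1 hf (by omega) (by omega) (by omega)
  · intro x y h1 h2 h3
    rw [hdiv] at h3
    refine key 20 x y (by omega) h1 (by omega) fun h => ?_
    exact H.z0 hf h1 (by omega) h2 (by omega)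
  · intro x y h1 h2 h3
    refine key 21 x y (by omega) h1 (by omega) fun h => ?_
    rcases (show x ≤ y + 1 ∨ (y + 2 ≤ x ∧ x ≤ y + 2 * k ∧ 2 * n + 2 < x) ∨
      (y + 2 * k - 1 ≤ x ∧ x ≤ y + 2 * k + 5 ∧ 2 * n + 3 ≤ x) ∨
      (y + 2 * k + 4 ≤ x ∧ 2 * n + 3 ≤ x) by omega) with h4 | h4 | h4 | h4
    · exact H.z1d hf h1 h4 h2
    · exact H.z1s hf h4.1 h4.2.1 h4.2.2
    · exact hz1w x y h4.2.2 h4.1 h4.2.1
    · exact hz1e x y h4.2 h4.1 h
  · intro x y h1 h2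
    rw [hdiv] at h2
    refine key 22 x y (by omega) h1 (by omega) fun h => ?_
    rcases (show (y + 2 * k + 2 ≤ x ∧ x ≤ y + 2 * k + 9 ∧ 2 * n + 6 ≤ x ∧
        ¬ (x = 2 * n + 6 ∧ x = y + 2 * k + 3)) ∨ (x = 2 * n + 6 ∧ x = y + 2 * k + 3) ∨
      (y + 2 * k + 10 ≤ x ∧ 2 * n + 6 ≤ x) ∨ (x ≤ y + 1 ∧ 2 * n + 4 ≤ y) ∨
        2 * n + 2 * k + 3 ≤ x by omega) with h4 | h4 | h4 | h4 | h4
    · exact hz2w x y h4.2.2.1 h4.1 h4.2.1 h4.2.2.2
    · exact hz2c x y h4.1 h4.2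
    · exact hz2e x y h4.2 h4.1 h
    · exact H.z2d hf h1 h4.1 h4.2
    · exact H.z23r hf (Or.inl rfl) h1 (by omega) h4
  · intro x y h1 h2
    rw [hdiv] at h2
    refine key 23 x y (by omega) h1 (by omega) fun h => ?_
    rcases (show (x = y ∧ 2 * n + 6 ≤ x) ∨ (x = y ∧ (x = 2 * n + 4 ∨ x = 2 * n + 5)) ∨
      (y = x - 1 ∧ x % 2 = 1 ∧ 2 * n < x) ∨ 2 * n + 2 * k + 3 ≤ x by omega)
      with h4 | h4 | h4 | h4
    · obtain ⟨rfl, h5⟩ := h4
      exact H.z3d hf h5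
    · obtain ⟨rfl, h5⟩ := h4
      exact hz3 x h5
    · obtain ⟨rfl, h5, h6⟩ := h4
      exact H.z3o hf h5 h6
    · exact H.z23r hf (Or.inr rfl) h1 (by omega) h4
  · intro x y h1 h2
    rcases Nat.lt_or_ge x y with h3 | h3
    · omega
    · have h5 := S.fr (6 * k + 8) 22 x y (by omega) (by omega)
        (by rw [max_eq_left h3]; omega) (by rw [max_eq_left h3, min_eq_right h3]; omega)
      exact h5

/-- LOCATION of the leader `6 k + 8` from the improved leads. -/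
theorem locR8_of (hf : Rule f) {k b m : ℕ} (hs : Side k b m) (S : Stack6 f k b m 0 0 0 0 1 1)
    (tip : f (6 * k + 8) (b + 20) (2 * (m + 7 + (k + 2) * 4) + 1) (2 * (m + 7 + (k + 2) * 4)))
    (d2 : Cyc f (6 * k + 2) (b + 18) (2 * (m + 5 + (k + 2) * 4) + 2))
    (d0 : Cyc f (6 * k) (b + 16) (2 * (m + 2 + (k + 2) * 4) + 2)) :
    Cw f (6 * k + 8) (b + 20) (m + 6 + (k + 2) * 4) := by
  have Z := ztop8_of hf hs S tip d2 d0
  have L0 := S6.topL0_8 hf hs S tip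
  have L2 := S6.topL2_8 hf hs S tip
  have C' := S.l8 3
  have C := S.l8 4
  obtain ⟨hk, hb2, hb4, hbl, hm⟩ := hs
  have hdiv : (6 * k + 8) / 6 = k + 1 := by omega
  have e3 : (k + 2) * 3 = 3 * k + 6 := by ring
  have e4 : (k + 2) * 4 = 4 * k + 8 := by ring
  rw [e3] at C'
  rw [e4] at C Z L0 L2 ⊢
  have h := loc_top8 hf (A := 6 * k + 8) (c := b + 16) (n := m + 7 + (4 * k + 8))
    (n' := m + 6 + (4 * k + 8)) (m' := m + 6 + 1 + (3 * k + 6)) (by omega) (by omega)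
    (by omega) (by omega) (by omega) (by omega) (by omega) ?_ ?_ Z ?_ ?_
  · exact h
  · exact C'.cast rfl (by omega) (by omega)
  · exact C.cast rfl (by omega) (by omega)
  · intro x y h1 h2 h3
    exact L0 x y h1 (by omega) h3
  · intro x y h1 h2 h3
    exact L2 x y h1 (by omega) h3

end Pool.Agent.SNT.LocR8
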