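import Pool.Agent.SNT.LocTop
import Pool.Agent.SNT.LocG

set_option autoImplicit false

/-! Location of the top leader from weaker zones of the odd layer (the leader `6 k + 8`). -/

namespace Pool.Agent.SNT.LW

open TipI

variable {f : ℕ → ℕ → ℕ → ℕ → Prop}

/-- (Weaker `z`.) The IN row `c + 4`, columns `2 n + 3` and `2 n + 4`, all distances. -/
theorem loc_w0y (hf : Rule f) {A c n : ℕ} (hA : A % 2 = 0) (h12 : 12 ≤ A) (ph : (A + c) % 4 = 2)
    (big : 2 * A + 40 ≤ c) (hn : A + c + 40 ≤ 2 * n)
    (w0 : ∀ x y : ℕ, y ≤ x → 2 * n + 3 ≤ x → x + 3 ≤ y + 2 * (A / 6) ∨ 2 * n + 5 ≤ x →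
      (f A (c + 4) x y ↔ Fst A (c + 4) x y))
    (x2 : ∀ x y : ℕ, y + 2 * (A / 6) ≤ x → 2 * n < x + 2 →
      (f A (c + 2) x y ↔ Fst A (c + 2) x y))
    (s3 : ∀ x y : ℕ, y ≤ x → x + 1 ≤ y + 2 * (A / 6) → 2 * n + 4 ≤ y + 2 * (A / 6) →
      (f A (c + 3) x y ↔ Fst A (c + 3) x y))
    (l2 : ∀ x y : ℕ, y + 2 * (A / 6) ≤ x → 2 * n < x + 2 →
      (f (A - 1) (c + 2) x y ↔ Fst (A - 1) (c + 2) x y))
    (l3 : ∀ x y : ℕ, y + 2 * (A / 6) ≤ x → 2 * n < x + 2 →
      (f (A - 1) (c + 3) x y ↔ Fst (A - 1) (c + 3) x y))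
    (l4 : ∀ x y : ℕ, y + 2 * (A / 6) ≤ x → 2 * n < x →
      (f (A - 1) (c + 4) x y ↔ Fst (A - 1) (c + 4) x y))
    (z : ∀ i x y : ℕ, 3 ≤ i → i ≤ 4 → 2 * n + 2 ≤ x → x ≤ 2 * n + 4 → y + 2 * (A / 6) ≤ x + 2 →
      x ≤ y + 2 * (A / 6) + 2 → (x = 2 * n + 2 → y + 2 * (A / 6) = x + 2) →
      ¬ f (A - 1) (c + i) x y) :
    ∀ x y : ℕ, y ≤ x → 2 * n + 3 ≤ x → (f A (c + 4) x y ↔ Fst A (c + 4) x y) := by
  intro x y hyx hx
  by_cases hc : x + 3 ≤ y + 2 * (A / 6) ∨ 2 * n + 5 ≤ x
  · exact w0 x y hyx hx hc
  have hx4 : x = 2 * n + 3 ∨ x = 2 * n + 4 := by omega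
  have hd0 : y + 2 * (A / 6) ≤ x + 2 := by omega
  have ext : ∀ u v : ℕ, 2 * n < u → v + 2 * (A / 6) + 1 ≤ u →
      (f A (c + 3) u v ↔ Fst A (c + 3) u v) := fun u v h1 h2 =>
    ext3' hf hA h12 ph big hn x2 l2 l3 h1 h2
  -- the last cell of the column `2 n + 3`
  have hwall : ∀ w : ℕ, w + 2 * (A / 6) = 2 * n + 4 → f A (c + 4) (2 * n + 3) w := by
    intro w hw
    have up : f A (c + 4) (2 * n + 3) (w + 2) := by
      rw [w0 _ _ (by omega) (by omega) (by omega),
        LocZ.fst_two hA (by omega) (by omega) (by omega)]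
      omega
    have hno : ¬ f A (c + 4) (2 * n + 3) (w + 1) := by
      intro h
      exact kill hf h (by omega) (by omega) (by omega) (by omega) (by omega) up
    obtain ⟨p, q, r, s, hp, hq, hr', hs, hsum, hpa, hqb, hrx, hsy, hone⟩ :=
      hf.exists_pred (by omega) hno
    rcases Nat.eq_zero_or_pos s with hs0 | hs0
    · exfalso
      subst hs0
      exact kill hf hone (by omega) (by omega) (by omega) (by omega) (by omega) up
    have hs1 : s = 1 := by omega
    subst hs1
    rw [Nat.add_sub_cancel] at hone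
    rcases Nat.eq_zero_or_pos p with hp0 | hp0
    · subst hp0
      rcases Nat.eq_zero_or_pos q with hq0 | hq0
      · subst hq0
        rcases Nat.eq_zero_or_pos r with hr0 | hr0
        · subst hr0
          exact hone
        · exfalso
          exact hf.not_allEven hone (by omega)
      · exfalso
        have hq1 : c + 4 - q = c + 3 := by omega
        rw [hq1, Nat.sub_zero, s3 _ _ (by omega) (by omega) (by omega),
          LocZ.fst_one hA (by omega) (by omega) (by omega) (by omega)] at hone
        omega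
    · have hp1 : p = 1 := by omega
      subst hp1
      exfalso
      have hq2 : c + 4 - q = c + (4 - q) := by omega
      rw [hq2] at hone
      exact z (4 - q) _ _ (by omega) (by omega) (by omega) (by omega) (by omega) (by omega)
        (by omega) hone
  have z0 : ∀ v : ℕ, 2 * n + 3 = v + 2 * (A / 6) → ¬ f A (c + 4) (2 * n + 3) v := by
    intro v hv h'
    exact kill hf h' (a' := A) (b' := c + 4) (x' := 2 * n + 3) (y' := v + 1)
      (by omega) (by omega) (by omega) (by omega) (by omega)
      (hwall (v + 1) (by omega))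
  have z1 : ∀ v : ℕ, 2 * n + 3 = v + (2 * (A / 6) + 1) → ¬ f A (c + 4) (2 * n + 3) v := by
    intro v hv
    have h1 : f A (c + 3) (2 * n + 3) (v - 1) := by
      rw [ext _ _ (by omega) (by omega)]
      have e : 2 * n + 3 = (v - 1) + (2 * (A / 6) + 2) := by omega
      rw [e, Fst_zone hA (by omega) (by omega) (by omega)]
      omega
    exact kill hf h1 (by omega) (by omega) (by omega) (by omega) (by omega)
  have hls : ∀ u v : ℕ, v ≤ u → 2 * n < u → 2 * (A / 6) + 1 ≤ u - v → LS f A (c + 4) u v := by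
    intro u v huv hu hd' p q hp hq hpq hpa hqb
    rcases Nat.eq_zero_or_pos p with hp0 | hp0
    · subst hp0
      have hq1 : q = 1 := by omega
      subst hq1
      exact ext _ _ (by omega) (by omega)
    · have hp1 : p = 1 := by omega
      subst hp1
      rcases Nat.eq_zero_or_pos q with hq0 | hq0
      · subst hq0
        exact l4 u v (by omega) (by omega)
      · have hq1 : q = 1 := by omega
        subst hq1
        exact l3 u v (by omega) (by omega)
  have h3one : ∀ v : ℕ, 2 * n + 3 = v + (2 * (A / 6) + 3) → f A (c + 4) (2 * n + 3) v := by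
    intro v hv
    refine one_loc hf (L := 2 * n) (D := 2 * (A / 6) + 1) (by omega) (by omega) (by omega)
      (by omega) (by omega) (by omega) hls ?_
    rw [hv, Fst_zone hA (by omega) (by omega) (by omega)]
    omega
  rcases Nat.lt_or_ge (x - y) (2 * (A / 6) + 4) with hd | hd
  swap
  · rcases Nat.lt_or_ge (A + c + 4 + y) x with hfar | hfar
    · rw [hf.far A (c + 4) x y (by omega), Fst_far (by omega) (by omega)]
    · exact QF_loc hf (L := 2 * n) (D := 2 * (A / 6) + 1) (by omega) (by omega) hyx (by omega)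
        (by omega) (by omega) (by omega) hls
  obtain ⟨D, hD⟩ : ∃ D, x = y + D := ⟨x - y, by omega⟩
  have hFst := Fst_zone (a := A) (b := c + 4) (y := y) (D := D) hA (by omega) (by omega) (by omega)
  rw [← hD] at hFst
  rcases hx4 with hx1 | hx1
  · have hDc : D + 2 = 2 * (A / 6) ∨ D + 1 = 2 * (A / 6) ∨ D = 2 * (A / 6) ∨
        D = 2 * (A / 6) + 1 ∨ D = 2 * (A / 6) + 2 ∨ D = 2 * (A / 6) + 3 := by omega
    rcases hDc with hDc | hDc | hDc | hDc | hDc | hDc
    · refine iff_of_false ?_ ?_
      · rw [hx1]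
        exact kill hf (hwall (y - 1) (by omega)) (by omega) (by omega)
          (by omega) (by omega) (by omega)
      · rw [hFst]
        omega
    · refine iff_of_true ?_ ?_
      · rw [hx1]
        exact hwall y (by omega)
      · rw [hFst]
        omega
    · refine iff_of_false ?_ ?_
      · rw [hx1]
        exact z0 y (by omega)
      · rw [hFst]
        omega
    · refine iff_of_false ?_ ?_
      · rw [hx1]
        exact z1 y (by omega)
      · rw [hFst]
        omega
    · refine iff_of_false ?_ ?_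
      · rw [hx1]
        exact kill hf (h3one (y - 1) (by omega)) (by omega) (by omega)
          (by omega) (by omega) (by omega)
      · rw [hFst]
        omega
    · refine iff_of_true ?_ ?_
      · rw [hx1]
        exact h3one y (by omega)
      · rw [hFst]
        omega
  · rcases Nat.mod_two_eq_zero_or_one y with hy2 | hy2
    · refine iff_of_false ?_ ?_
      · intro h'
        exact hf.not_allEven h' (by omega)
      · rw [hFst]
        omega
    · have hDc : D + 1 = 2 * (A / 6) ∨ D = 2 * (A / 6) + 1 ∨ D = 2 * (A / 6) + 3 := by omega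
      rcases hDc with hDc | hDc | hDc
      · refine iff_of_false ?_ ?_
        · exact kill hf (hwall (y - 1) (by omega)) (by omega) (by omega)
            (by omega) (by omega) (by omega)
        · rw [hFst]
          omega
      · refine iff_of_true ?_ ?_
        · by_contra hno
          obtain ⟨p, q, r, s, hp, hq, hr', hs', hsum, hpa, hqb, hrx, hsy, hone⟩ :=
            hf.exists_pred (by omega) hno
          rcases Nat.eq_zero_or_pos p with hp0 | hp0
          · subst hp0
            rcases Nat.eq_zero_or_pos q with hq0 | hq0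
            · subst hq0
              simp only [Nat.sub_zero] at hone
              have hrs : (r = 0 ∧ s = 1) ∨ (r = 1 ∧ s = 0) ∨ (r = 1 ∧ s = 1) := by omega
              rcases hrs with ⟨rfl, rfl⟩ | ⟨rfl, rfl⟩ | ⟨rfl, rfl⟩
              · exact hf.not_allEven hone (by omega)
              · have e : x - 1 = 2 * n + 3 := by omega
                rw [e] at hone
                exact z0 _ (by omega) hone
              · have e : x - 1 = 2 * n + 3 := by omega
                rw [e] at hone
                exact z1 _ (by omega) hone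
            · have hq1 : q = 1 := by omega
              subst hq1
              have e3 : c + 4 - 1 = c + 3 := by omega
              rw [e3, Nat.sub_zero] at hone
              rcases Nat.lt_or_ge (y - s + 2 * (A / 6)) (x - r) with h5 | h5
              · rw [ext _ _ (by omega) (by omega)] at hone
                obtain ⟨D', hD'⟩ : ∃ D', x - r = (y - s) + D' := ⟨x - r - (y - s), by omega⟩
                rw [hD', Fst_zone hA (by omega) (by omega) (by omega)] at hone
                omega
              · have hr1 : r = 1 := by omega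
                have hs0 : s = 0 := by omega
                subst hr1
                subst hs0
                exact kill hf hone (a' := A) (b' := c + 4) (x' := 2 * n + 3) (y' := y + 1)
                  (by omega) (by omega) (by omega) (by omega) (by omega)
                  (hwall (y + 1) (by omega))
          · have hp1 : p = 1 := by omega
            subst hp1
            have hq2 : c + 4 - q = c + (4 - q) := by omega
            rw [hq2] at hone
            exact z (4 - q) _ _ (by omega) (by omega) (by omega) (by omega) (by omega) (by omega)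
              (by omega) hone
        · rw [hFst]
          omega
      · refine iff_of_false ?_ ?_
        · have := h3one (y - 1) (by omega)
          exact kill hf this (by omega) (by omega) (by omega) (by omega) (by omega)
        · rw [hFst]
          omega

/-- (Weaker `p3`.) Row `b + 3` of the weak profile, inside the strip. -/
theorem loc_w3t (hf : Rule f) {A b n : ℕ} (hA : A % 2 = 0) (h12 : 12 ≤ A) (ph : (A + b) % 4 = 2)
    (big : A + 2 * (A / 6) + 40 ≤ b)
    (w2s : ∀ x y : ℕ, y ≤ x → x + 1 ≤ y + 2 * (A / 6) → 2 * n + 4 ≤ y →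
      (f A (b + 2) x y ↔ Fst A (b + 2) x y))
    (p2 : ∀ x y : ℕ, y ≤ x → x ≤ y + 1 → 2 * n + 6 ≤ y →
      (f (A - 1) (b + 2) x y ↔ Fst (A - 1) (b + 2) x y))
    (p3 : ∀ x y : ℕ, y ≤ x → x ≤ y + 1 → 2 * n + 6 ≤ y → (x = y ∨ x % 2 = 1) →
      (f (A - 1) (b + 3) x y ↔ Fst (A - 1) (b + 3) x y)) :
    ∀ x y : ℕ, y ≤ x → x + 1 ≤ y + 2 * (A / 6) → 2 * n + 6 ≤ y →
      (f A (b + 3) x y ↔ Fst A (b + 3) x y) := by
  intro x y hyx hs hy
  have one : ∀ u v : ℕ, v ≤ u → u + 1 ≤ v + 2 * (A / 6) → 2 * n + 4 ≤ v → u % 2 = 0 → v % 2 = 1 →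
      f A (b + 2) u v := by
    intro u v h1 h2 h3 h5 h6
    rw [w2s u v h1 h2 h3, fst2 hA (by omega) h1 (by omega)]
    left
    omega
  rw [fst3 hA (by omega) (by omega) hyx (by omega)]
  rcases Nat.eq_or_lt_of_le hyx with hd | hd
  · subst hd
    rcases Nat.mod_two_eq_zero_or_one y with hy2 | hy2
    · refine iff_of_false ?_ (by omega)
      exact kill hf (one y (y - 1) (by omega) (by omega) (by omega) (by omega) (by omega))
        (by omega) (by omega) (by omega) (by omega) (by omega)
    · refine iff_of_true ?_ (by omega)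
      by_contra hno
      obtain ⟨p, q, r, s, hp, hq, hr, hs', hsum, hpa, hqb, hrx, hsy, hone⟩ :=
        hf.exists_pred (by omega) hno
      have k1 : ¬ f A (b + 3) y (y - 1) :=
        kill hf (one (y - 1) (y - 2) (by omega) (by omega) (by omega) (by omega) (by omega))
          (by omega) (by omega) (by omega) (by omega) (by omega)
      have k2 : ¬ f A (b + 3) (y - 1) (y - 1) :=
        kill hf (one (y - 1) (y - 2) (by omega) (by omega) (by omega) (by omega) (by omega))
          (by omega) (by omega) (by omega) (by omega) (by omega)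
      have k3 : ¬ f A (b + 3) (y - 1) y := by
        rw [hf.swap_xy]
        exact k1
      have m0 : ¬ f A (b + 2) y y := by
        rw [w2s y y le_rfl (by omega) (by omega), fst2 hA (by omega) le_rfl (by omega)]
        omega
      have m1 : ¬ f A (b + 2) y (y - 1) := by
        rw [w2s y (y - 1) (by omega) (by omega) (by omega), fst2 hA (by omega) (by omega)
          (by omega)]
        omega
      have m2 : ¬ f A (b + 2) (y - 1) (y - 1) := by
        rw [w2s (y - 1) (y - 1) le_rfl (by omega) (by omega), fst2 hA (by omega) le_rfl (by omega)]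
        omega
      have m3 : ¬ f A (b + 2) (y - 1) y := by
        rw [hf.swap_xy]
        exact m1
      have odd : ∀ c u v : ℕ, (c = b + 2 ∨ c = b + 3) → 2 * n + 6 ≤ min u v →
          max u v ≤ min u v + 1 → (u = v ∨ max u v % 2 = 1) → ¬ f (A - 1) c u v := by
        intro c u v hc' h1 h2 h2' h3
        have h4 : f (A - 1) c u v ↔ Fst (A - 1) c u v := by
          refine all_of_half hf (P := fun x y => 2 * n + 6 ≤ y ∧ x ≤ y + 1 ∧ (x = y ∨ x % 2 = 1))
            ?_ u v ⟨h1, h2, by omega⟩
          intro x y hyx h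
          rcases hc' with hc' | hc'
          · subst hc'
            exact p2 x y hyx (by omega) (by omega)
          · subst hc'
            exact p3 x y hyx (by omega) (by omega) (by omega)
        exact Fst_near_odd (by omega) (by omega) (h4.1 h3)
      rcases Nat.eq_zero_or_pos p with hp0 | hp0
      · subst hp0
        rcases Nat.eq_zero_or_pos q with hq0 | hq0
        · subst hq0
          simp only [Nat.sub_zero] at hone
          have hrs : (r = 0 ∧ s = 1) ∨ (r = 1 ∧ s = 0) ∨ (r = 1 ∧ s = 1) := by omega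
          rcases hrs with ⟨rfl, rfl⟩ | ⟨rfl, rfl⟩ | ⟨rfl, rfl⟩
          · exact k1 hone
          · exact k3 hone
          · exact k2 hone
        · have hq1 : b + 3 - q = b + 2 := by omega
          rw [hq1, Nat.sub_zero] at hone
          have hrs : (r = 0 ∧ s = 0) ∨ (r = 0 ∧ s = 1) ∨ (r = 1 ∧ s = 0) ∨ (r = 1 ∧ s = 1) := by
            omega
          rcases hrs with ⟨rfl, rfl⟩ | ⟨rfl, rfl⟩ | ⟨rfl, rfl⟩ | ⟨rfl, rfl⟩
          · exact m0 hone
          · exact m1 hone
          · exact m3 hone
          · exact m2 hone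
      · have hp1 : p = 1 := by omega
        subst hp1
        exact odd (b + 3 - q) (y - r) (y - s) (by omega) (by omega) (by omega) (by omega) hone
  · refine iff_of_false ?_ (by omega)
    rcases Nat.mod_two_eq_zero_or_one x with hx2 | hx2 <;>
      rcases Nat.mod_two_eq_zero_or_one y with hy2 | hy2
    · exact kill hf (one x (y - 1) (by omega) (by omega) (by omega) (by omega) (by omega))
        (by omega) (by omega) (by omega) (by omega) (by omega)
    · exact kill hf (one x y (by omega) (by omega) (by omega) (by omega) (by omega))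
        (by omega) (by omega) (by omega) (by omega) (by omega)
    · exact kill hf (one (x - 1) (y - 1) (by omega) (by omega) (by omega) (by omega) (by omega))
        (by omega) (by omega) (by omega) (by omega) (by omega)
    · exact kill hf (one (x - 1) y (by omega) (by omega) (by omega) (by omega) (by omega))
        (by omega) (by omega) (by omega) (by omega) (by omega)

/-- The exterior of the OUT row `b + 2` from the row `b + 1` ahead of `L`, the layer below only
from `L + 2` on. -/
theorem loc_w2y (hf : Rule f) {A b L : ℕ} (hA : A % 2 = 0) (h12 : 12 ≤ A) (ph : (A + b) % 4 = 2)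
    (hL2 : A + b + 40 ≤ L)
    (r1 : ∀ x y : ℕ, y + 2 * (A / 6) ≤ x + 1 → y ≤ x → L < x →
      (f A (b + 1) x y ↔ Fst A (b + 1) x y))
    (p1 : ∀ x y : ℕ, y + 2 * (A / 6) ≤ x → L < x →
      (f (A - 1) (b + 1) x y ↔ Fst (A - 1) (b + 1) x y))
    (p2 : ∀ x y : ℕ, y + 2 * (A / 6) ≤ x → L + 1 < x → x + A + 16 ≤ b + y →
      (f (A - 1) (b + 2) x y ↔ Fst (A - 1) (b + 2) x y)) {x y : ℕ}
    (hd : y + 2 * (A / 6) ≤ x) (hx : L + 2 < x) (hn : x + A + 20 ≤ b + y) :
      f A (b + 2) x y ↔ Fst A (b + 2) x y := by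
  rcases Nat.eq_or_lt_of_le hd with hd' | hd'
  · refine LocG.ext_wall hf hA (by omega) (by omega) (by omega) (by omega) hd'.symm ?_
    intro u v h1 h2 h3
    exact r1 u v (by omega) (by omega) (by omega)
  · refine LocG.ext_gen hf (D := 2 * (A / 6)) hA (by omega) (by omega) (by omega) (by omega)
      (Or.inl le_rfl) (by omega) ?_ ?_
    · intro u v h1 h2 h3 h4
      exact r1 u v (by omega) (by omega) (by omega)
    · intro _ q r s hq hr hs hone
      rcases Nat.eq_zero_or_pos q with hq0 | hq0
      · subst hq0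
        rw [Nat.sub_zero, p2 _ _ (by omega) (by omega) (by omega)] at hone
        exact Fst_near_odd (by omega) (by
          rw [max_eq_left (by omega), min_eq_right (by omega)]
          omega) hone
      · have hq1 : b + 2 - q = b + 1 := by omega
        rw [hq1, p1 _ _ (by omega) (by omega)] at hone
        exact Fst_near_odd (by omega) (by
          rw [max_eq_left (by omega), min_eq_right (by omega)]
          omega) hone

/-- The zones of `P_(A-1)` which the location needs: `c` is the previous IN row, `c + 4` the IN row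
with the lead `n`. -/
structure ZTop8 (f : ℕ → ℕ → ℕ → ℕ → Prop) (A c n : ℕ) : Prop where
  zm2 : ∀ x y : ℕ, y + 2 * (A / 6) ≤ x → 2 * n < x + 2 →
    (f (A - 1) (c + 2) x y ↔ Fst (A - 1) (c + 2) x y)
  zm1 : ∀ x y : ℕ, y + 2 * (A / 6) ≤ x + 2 → 2 * n < x + 2 →
    (f (A - 1) (c + 3) x y ↔ Fst (A - 1) (c + 3) x y)
  z0 : ∀ x y : ℕ, y ≤ x → 2 * n < x →
    (x ≤ y + 1 ∨ y + 2 * (A / 6) = x + 2 ∨ y + 2 * (A / 6) ≤ x ∨ 2 * n + 2 < x) →
    (f (A - 1) (c + 4) x y ↔ Fst (A - 1) (c + 4) x y)
  z1 : ∀ x y : ℕ, y ≤ x → 2 * n < x → (x ≤ y + 1 ∨ 2 * n + 2 < x) →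
    (f (A - 1) (c + 5) x y ↔ Fst (A - 1) (c + 5) x y)
  z2 : ∀ x y : ℕ, y ≤ x → (y + 2 * (A / 6) ≤ x ∧ 2 * n + 6 ≤ x ∧ x + A + 12 ≤ c + y) ∨
    (x ≤ y + 1 ∧ 2 * n + 4 ≤ y) ∨ 2 * n + 2 * (A / 6) + 1 ≤ x →
    (f (A - 1) (c + 6) x y ↔ Fst (A - 1) (c + 6) x y)
  z3 : ∀ x y : ℕ, y ≤ x → (x ≤ y + 1 ∧ 2 * n + 4 ≤ y ∧ (x = y ∨ x % 2 = 1)) ∨
    2 * n + 2 * (A / 6) + 1 ≤ x → (f (A - 1) (c + 7) x y ↔ Fst (A - 1) (c + 7) x y)
  far : ∀ x y : ℕ, 2 * n + 7 ≤ x → c + 4 + y < x + A + 20 →
    (f A (c + 6) x y ↔ Fst A (c + 6) x y)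

/-- LOCATION of the top leader. -/
theorem loc_top8 (hf : Rule f) {A c n n' m' : ℕ} (hA : A % 2 = 0) (h24 : 24 ≤ A)
    (ph : (A + c) % 4 = 2) (big : 2 * A + 40 ≤ c) (hn : A + c + 60 ≤ 2 * n) (hn' : n' + 1 = n)
    (hm : m' + A / 6 + 1 = n) (C' : Cw f A c m') (C : Cw f A (c + 4) n) (Z : ZTop8 f A c n)
    (L0 : ∀ x y : ℕ, y ≤ x → x + 3 ≤ y + 2 * (A / 6) → x = 2 * n + 1 ∨ x = 2 * n + 2 →
      (f A (c + 4) x y ↔ Fst A (c + 4) x y))
    (L2 : ∀ x y : ℕ, y ≤ x → x + 1 ≤ y + 2 * (A / 6) → y = 2 * n + 2 ∨ y = 2 * n + 3 →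
      (f A (c + 6) x y ↔ Fst A (c + 6) x y)) : Cw f A (c + 4) n' := by
  have odd : ∀ r x y : ℕ, c ≤ r → y ≤ x → x ≤ y + 2 * (A / 6) + 2 →
      (f (A - 1) r x y ↔ Fst (A - 1) r x y) → ¬ f (A - 1) r x y := by
    intro r x y h1 h2 h3 h4 h5
    exact odd_zero (by omega) (by omega) h2 (by omega) (h4.1 h5)
  have w0 : ∀ x y : ℕ, y ≤ x → 2 * n' + 3 ≤ x → x + 3 ≤ y + 2 * (A / 6) ∨ 2 * n' + 5 ≤ x →
      (f A (c + 4) x y ↔ Fst A (c + 4) x y) := by
    intro x y hyx hx hc
    rcases Nat.lt_or_ge x (2 * n + 3) with h | h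
    · exact L0 x y hyx (by omega) (by omega)
    · refine loc_w0y hf hA (by omega) ph big (by omega) C.w0 ?_ ?_ Z.zm2 ?_ ?_ ?_ x y hyx h
      · intro u v h1 h2
        exact C'.w2x u v h1 (by omega)
      · intro u v h1 h2 h3
        exact C'.w3s u v h1 h2 (by omega)
      · intro u v h1 h2
        exact Z.zm1 u v (by omega) h2
      · intro u v h1 h2
        exact Z.z0 u v (by omega) h2 (by omega)
      · intro i u v h1 h2 h3 h4 h5 h6 h7
        have hi : i = 3 ∨ i = 4 := by omega
        rcases hi with rfl | rfl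
        · exact odd _ _ _ (by omega) (by omega) (by omega) (Z.zm1 u v (by omega) (by omega))
        · exact odd _ _ _ (by omega) (by omega) (by omega)
            (Z.z0 u v (by omega) (by omega) (by omega))
  have w2s : ∀ x y : ℕ, y ≤ x → x + 1 ≤ y + 2 * (A / 6) → 2 * n' + 4 ≤ y →
      (f A (c + 4 + 2) x y ↔ Fst A (c + 4 + 2) x y) := by
    intro x y hyx hs hy
    rcases Nat.lt_or_ge y (2 * n + 4) with h | h
    · exact L2 x y hyx hs (by omega)
    · exact C.w2s x y hyx hs h
  have w1 := loc_w1 hf (b := c + 4) (n := n') hA (by omega) (by omega) (by omega) (by omega) w0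
    (fun x y h1 h2 h3 => Z.z0 x y h1 (by omega) (by omega))
    (fun x y h1 h2 h3 => Z.z1 x y h1 (by omega) (by omega))
  have w2x : ∀ x y : ℕ, y + 2 * (A / 6) ≤ x → 2 * n' + 9 ≤ x →
      (f A (c + 4 + 2) x y ↔ Fst A (c + 4 + 2) x y) := by
    intro x y hd hx
    rcases Nat.lt_or_ge (c + 4 + y) (x + A + 20) with hfar | hfar
    · exact Z.far x y (by omega) hfar
    refine loc_w2y hf (b := c + 4) (L := 2 * n + 4) hA (by omega) (by omega) (by omega)
      ?_ ?_ ?_ hd (by omega) (by omega)
    · intro u v _ h2 h3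
      exact w1 u v h2 (by omega) (by omega)
    · intro u v h1 h2
      exact Z.z1 u v (by omega) (by omega) (by omega)
    · intro u v h1 h2 h3
      exact Z.z2 u v (by omega) (by omega)
  refine ⟨w0, w1, w2s, w2x, ?_, ?_⟩
  · refine loc_w3t hf (b := c + 4) (n := n') hA (by omega) (by omega) (by omega) w2s ?_ ?_
    · intro x y h1 h2 h3
      exact Z.z2 x y h1 (by omega)
    · intro x y h1 h2 h3 h4
      exact Z.z3 x y h1 (by omega)
  · intro x y hyx hx
    refine loc_w3x hf (b := c + 4) (n := n') hA h24 (by omega) (by omega) (by omega) w2s w2x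
      ?_ ?_ x y hyx (by omega)
    · intro x y h1 h2
      exact Z.z2 x y h1 (by omega)
    · intro x y h1 h2
      exact Z.z3 x y h1 (by omega)

end Pool.Agent.SNT.LW
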