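import Pool.Agent.SNT.LWC
import Pool.Agent.SNT.TipI

set_option autoImplicit false

/-! Location of the top leader, weak profile: the rows `b + 1` and `b + 3` from the rows `b` and
`b + 2` and the zones of the odd layer below. -/

namespace Pool.Agent.SNT.LW

open TipI

variable {f : ℕ → ℕ → ℕ → ℕ → Prop}

/-- Row `b + 1` of the weak profile. -/
theorem loc_w1 (hf : Rule f) {A b n : ℕ} (hA : A % 2 = 0) (h12 : 12 ≤ A) (ph : (A + b) % 4 = 2)
    (big : A + 2 * (A / 6) + 40 ≤ b) (hn : A + b + 30 ≤ 2 * n)
    (w0 : ∀ x y : ℕ, y ≤ x → 2 * n + 3 ≤ x → x + 3 ≤ y + 2 * (A / 6) ∨ 2 * n + 5 ≤ x →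
      (f A b x y ↔ Fst A b x y))
    (p0 : ∀ x y : ℕ, y ≤ x → 2 * n + 3 ≤ x → x ≤ y + 1 ∨ 2 * n + 5 ≤ x →
      (f (A - 1) b x y ↔ Fst (A - 1) b x y))
    (p1 : ∀ x y : ℕ, y ≤ x → 2 * n + 3 ≤ x → x ≤ y + 1 ∨ 2 * n + 5 ≤ x →
      (f (A - 1) (b + 1) x y ↔ Fst (A - 1) (b + 1) x y)) :
    ∀ x y : ℕ, y ≤ x → 2 * n + 4 ≤ x → x + 3 ≤ y + 2 * (A / 6) ∨ 2 * n + 7 ≤ x →
      (f A (b + 1) x y ↔ Fst A (b + 1) x y) := by
  have ext : St f A (b + 1) (2 * n + 4 + 2) := by
    refine QF_even_flat hf (by omega) (by omega) (by omega) ?_ (Or.inr (by omega))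
    intro x y hxy p q hp hq hpq hpa hqb
    rcases Nat.eq_zero_or_pos p with hp0 | hp0
    · subst hp0
      have hq1 : q = 1 := by omega
      subst hq1
      refine all_of_half hf (P := fun x y => 2 * n + 4 < x) ?_ x y hxy
      intro x y hyx h
      exact w0 x y hyx (by omega) (by omega)
    · have hp1 : p = 1 := by omega
      subst hp1
      rcases Nat.eq_zero_or_pos q with hq0 | hq0
      · subst hq0
        refine all_of_half hf (P := fun x y => 2 * n + 4 < x) ?_ x y hxy
        intro x y hyx h
        exact p1 x y hyx (by omega) (by omega)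
      · have hq1 : q = 1 := by omega
        subst hq1
        refine all_of_half hf (P := fun x y => 2 * n + 4 < x) ?_ x y hxy
        intro x y hyx h
        exact p0 x y hyx (by omega) (by omega)
  intro x y hyx hx hc
  rcases Nat.lt_or_ge (2 * n + 4 + 2) x with h | h
  · exact ext x y (by rw [max_eq_left hyx]; exact h)
  have hs : x + 3 ≤ y + 2 * (A / 6) := by omega
  have one : ∀ u v : ℕ, v ≤ u → 2 * n + 3 ≤ u → u + 3 ≤ v + 2 * (A / 6) ∨ 2 * n + 5 ≤ u →
      u < v + 2 * (A / 6) → u % 2 = 1 → v % 2 = 0 → f A b u v := by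
    intro u v h1 h2 h3 h4 h5 h6
    rw [w0 u v h1 h2 h3, fst0 hA ph h1 (by omega)]
    left
    omega
  rw [fst1 hA (by omega) (by omega) hyx (by omega)]
  rcases Nat.eq_or_lt_of_le hyx with hd | hd
  · subst hd
    rcases Nat.mod_two_eq_zero_or_one y with hy2 | hy2
    · refine iff_of_true ?_ (by omega)
      by_contra hno
      obtain ⟨p, q, r, s, hp, hq, hr, hs', hsum, hpa, hqb, hrx, hsy, hone⟩ :=
        hf.exists_pred (by omega) hno
      -- the row itself: the three neighbours are killed from the row `b`
      have k1 : ¬ f A (b + 1) y (y - 1) :=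
        kill hf (one (y - 1) (y - 2) (by omega) (by omega) (by omega) (by omega) (by omega)
          (by omega)) (by omega) (by omega) (by omega) (by omega) (by omega)
      have k2 : ¬ f A (b + 1) (y - 1) (y - 1) :=
        kill hf (one (y - 1) (y - 2) (by omega) (by omega) (by omega) (by omega) (by omega)
          (by omega)) (by omega) (by omega) (by omega) (by omega) (by omega)
      have k3 : ¬ f A (b + 1) (y - 1) y := by
        rw [hf.swap_xy]
        exact k1
      -- the row below
      have m0 : ¬ f A b y y := by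
        rw [w0 y y le_rfl (by omega) (by omega), fst0 hA ph le_rfl (by omega)]
        omega
      have m1 : ¬ f A b y (y - 1) := by
        rw [w0 y (y - 1) (by omega) (by omega) (by omega), fst0 hA ph (by omega) (by omega)]
        omega
      have m2 : ¬ f A b (y - 1) (y - 1) := by
        rw [w0 (y - 1) (y - 1) le_rfl (by omega) (by omega), fst0 hA ph le_rfl (by omega)]
        omega
      have m3 : ¬ f A b (y - 1) y := by
        rw [hf.swap_xy]
        exact m1
      -- the odd layer below
      have odd : ∀ c u v : ℕ, (c = b ∨ c = b + 1) → 2 * n + 3 ≤ min u v →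
          max u v ≤ min u v + 1 → ¬ f (A - 1) c u v := by
        intro c u v hc' h1 h2 h3
        have h4 : f (A - 1) c u v ↔ Fst (A - 1) c u v := by
          refine all_of_half hf (P := fun x y => 2 * n + 3 ≤ y ∧ x ≤ y + 1) ?_ u v ⟨h1, h2⟩
          intro x y hyx h
          rcases hc' with hc' | hc'
          · subst hc'
            exact p0 x y hyx (by omega) (by omega)
          · subst hc'
            exact p1 x y hyx (by omega) (by omega)
        exact Fst_near_odd (by omega) (by omega) (h4.1 h3)
      rcases Nat.eq_zero_or_pos p with hp0 | hp0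
      · subst hp0
        rcases Nat.eq_zero_or_pos q with hq0 | hq0
        · subst hq0
          simp only [Nat.sub_zero] at hone
          have hrs : (r = 0 ∧ s = 1) ∨ (r = 1 ∧ s = 0) ∨ (r = 1 ∧ s = 1) := by omega
          rcases hrs with ⟨rfl, rfl⟩ | ⟨rfl, rfl⟩ | ⟨rfl, rfl⟩
          · exact k1 hone
          · exact k3 hone
          · exact k2 hone
        · have hq1 : b + 1 - q = b := by omega
          rw [hq1, Nat.sub_zero] at hone
          have hrs : (r = 0 ∧ s = 0) ∨ (r = 0 ∧ s = 1) ∨ (r = 1 ∧ s = 0) ∨ (r = 1 ∧ s = 1) := by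
            omega
          rcases hrs with ⟨rfl, rfl⟩ | ⟨rfl, rfl⟩ | ⟨rfl, rfl⟩ | ⟨rfl, rfl⟩
          · exact m0 hone
          · exact m1 hone
          · exact m3 hone
          · exact m2 hone
      · have hp1 : p = 1 := by omega
        subst hp1
        exact odd (b + 1 - q) (y - r) (y - s) (by omega) (by omega) (by omega) hone
    · refine iff_of_false ?_ (by omega)
      exact kill hf (one y (y - 1) (by omega) (by omega) (by omega) (by omega) (by omega)
        (by omega)) (by omega) (by omega) (by omega) (by omega) (by omega)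
  · refine iff_of_false ?_ (by omega)
    rcases Nat.mod_two_eq_zero_or_one x with hx2 | hx2 <;>
      rcases Nat.mod_two_eq_zero_or_one y with hy2 | hy2
    · exact kill hf (one (x - 1) y (by omega) (by omega) (by omega) (by omega) (by omega)
        (by omega)) (by omega) (by omega) (by omega) (by omega) (by omega)
    · exact kill hf (one (x - 1) (y - 1) (by omega) (by omega) (by omega) (by omega) (by omega)
        (by omega)) (by omega) (by omega) (by omega) (by omega) (by omega)
    · exact kill hf (one x y (by omega) (by omega) (by omega) (by omega) (by omega)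
        (by omega)) (by omega) (by omega) (by omega) (by omega) (by omega)
    · exact kill hf (one x (y - 1) (by omega) (by omega) (by omega) (by omega) (by omega)
        (by omega)) (by omega) (by omega) (by omega) (by omega) (by omega)

/-- Row `b + 3` of the weak profile, inside the strip. -/
theorem loc_w3s (hf : Rule f) {A b n : ℕ} (hA : A % 2 = 0) (h12 : 12 ≤ A) (ph : (A + b) % 4 = 2)
    (big : A + 2 * (A / 6) + 40 ≤ b)
    (w2s : ∀ x y : ℕ, y ≤ x → x + 1 ≤ y + 2 * (A / 6) → 2 * n + 4 ≤ y →
      (f A (b + 2) x y ↔ Fst A (b + 2) x y))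
    (p2 : ∀ x y : ℕ, y ≤ x → x ≤ y + 1 → 2 * n + 6 ≤ y →
      (f (A - 1) (b + 2) x y ↔ Fst (A - 1) (b + 2) x y))
    (p3 : ∀ x y : ℕ, y ≤ x → x ≤ y + 1 → 2 * n + 6 ≤ y →
      (f (A - 1) (b + 3) x y ↔ Fst (A - 1) (b + 3) x y)) :
    ∀ x y : ℕ, y ≤ x → x + 1 ≤ y + 2 * (A / 6) → 2 * n + 6 ≤ y →
      (f A (b + 3) x y ↔ Fst A (b + 3) x y) := by
  intro x y hyx hs hy
  have one : ∀ u v : ℕ, v ≤ u → u + 1 ≤ v + 2 * (A / 6) → 2 * n + 4 ≤ v → u % 2 = 0 → v % 2 = 1 →
      f A (b + 2) u v := by
    intro u v h1 h2 h3 h5 h6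
    rw [w2s u v h1 h2 h3, fst2 hA (by omega) h1 (by omega)]
    left
    omega
  rw [fst3 hA (by omega) (by omega) hyx (by omega)]
  rcases Nat.eq_or_lt_of_le hyx with hd | hd
  · subst hd
    rcases Nat.mod_two_eq_zero_or_one y with hy2 | hy2
    · refine iff_of_false ?_ (by omega)
      exact kill hf (one y (y - 1) (by omega) (by omega) (by omega) (by omega) (by omega))
        (by omega) (by omega) (by omega) (by omega) (by omega)
    · refine iff_of_true ?_ (by omega)
      by_contra hno
      obtain ⟨p, q, r, s, hp, hq, hr, hs', hsum, hpa, hqb, hrx, hsy, hone⟩ :=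
        hf.exists_pred (by omega) hno
      have k1 : ¬ f A (b + 3) y (y - 1) :=
        kill hf (one (y - 1) (y - 2) (by omega) (by omega) (by omega) (by omega) (by omega))
          (by omega) (by omega) (by omega) (by omega) (by omega)
      have k2 : ¬ f A (b + 3) (y - 1) (y - 1) :=
        kill hf (one (y - 1) (y - 2) (by omega) (by omega) (by omega) (by omega) (by omega))
          (by omega) (by omega) (by omega) (by omega) (by omega)
      have k3 : ¬ f A (b + 3) (y - 1) y := by
        rw [hf.swap_xy]
        exact k1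
      have m0 : ¬ f A (b + 2) y y := by
        rw [w2s y y le_rfl (by omega) (by omega), fst2 hA (by omega) le_rfl (by omega)]
        omega
      have m1 : ¬ f A (b + 2) y (y - 1) := by
        rw [w2s y (y - 1) (by omega) (by omega) (by omega), fst2 hA (by omega) (by omega)
          (by omega)]
        omega
      have m2 : ¬ f A (b + 2) (y - 1) (y - 1) := by
        rw [w2s (y - 1) (y - 1) le_rfl (by omega) (by omega), fst2 hA (by omega) le_rfl (by omega)]
        omega
      have m3 : ¬ f A (b + 2) (y - 1) y := by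
        rw [hf.swap_xy]
        exact m1
      have odd : ∀ c u v : ℕ, (c = b + 2 ∨ c = b + 3) → 2 * n + 6 ≤ min u v →
          max u v ≤ min u v + 1 → ¬ f (A - 1) c u v := by
        intro c u v hc' h1 h2 h3
        have h4 : f (A - 1) c u v ↔ Fst (A - 1) c u v := by
          refine all_of_half hf (P := fun x y => 2 * n + 6 ≤ y ∧ x ≤ y + 1) ?_ u v ⟨h1, h2⟩
          intro x y hyx h
          rcases hc' with hc' | hc'
          · subst hc'
            exact p2 x y hyx (by omega) (by omega)
          · subst hc'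
            exact p3 x y hyx (by omega) (by omega)
        exact Fst_near_odd (by omega) (by omega) (h4.1 h3)
      rcases Nat.eq_zero_or_pos p with hp0 | hp0
      · subst hp0
        rcases Nat.eq_zero_or_pos q with hq0 | hq0
        · subst hq0
          simp only [Nat.sub_zero] at hone
          have hrs : (r = 0 ∧ s = 1) ∨ (r = 1 ∧ s = 0) ∨ (r = 1 ∧ s = 1) := by omega
          rcases hrs with ⟨rfl, rfl⟩ | ⟨rfl, rfl⟩ | ⟨rfl, rfl⟩
          · exact k1 hone
          · exact k3 hone
          · exact k2 hone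
        · have hq1 : b + 3 - q = b + 2 := by omega
          rw [hq1, Nat.sub_zero] at hone
          have hrs : (r = 0 ∧ s = 0) ∨ (r = 0 ∧ s = 1) ∨ (r = 1 ∧ s = 0) ∨ (r = 1 ∧ s = 1) := by
            omega
          rcases hrs with ⟨rfl, rfl⟩ | ⟨rfl, rfl⟩ | ⟨rfl, rfl⟩ | ⟨rfl, rfl⟩
          · exact m0 hone
          · exact m1 hone
          · exact m3 hone
          · exact m2 hone
      · have hp1 : p = 1 := by omega
        subst hp1
        exact odd (b + 3 - q) (y - r) (y - s) (by omega) (by omega) (by omega) hone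
  · refine iff_of_false ?_ (by omega)
    rcases Nat.mod_two_eq_zero_or_one x with hx2 | hx2 <;>
      rcases Nat.mod_two_eq_zero_or_one y with hy2 | hy2
    · exact kill hf (one x (y - 1) (by omega) (by omega) (by omega) (by omega) (by omega))
        (by omega) (by omega) (by omega) (by omega) (by omega)
    · exact kill hf (one x y (by omega) (by omega) (by omega) (by omega) (by omega))
        (by omega) (by omega) (by omega) (by omega) (by omega)
    · exact kill hf (one (x - 1) (y - 1) (by omega) (by omega) (by omega) (by omega) (by omega))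
        (by omega) (by omega) (by omega) (by omega) (by omega)
    · exact kill hf (one (x - 1) y (by omega) (by omega) (by omega) (by omega) (by omega))
        (by omega) (by omega) (by omega) (by omega) (by omega)

/-- Row `b + 3` of the weak profile, all distances. -/
theorem loc_w3x (hf : Rule f) {A b n : ℕ} (hA : A % 2 = 0) (h24 : 24 ≤ A) (ph : (A + b) % 4 = 2)
    (big : A + 2 * (A / 6) + 40 ≤ b) (hn : A + b + 30 ≤ 2 * n)
    (w2s : ∀ x y : ℕ, y ≤ x → x + 1 ≤ y + 2 * (A / 6) → 2 * n + 4 ≤ y →
      (f A (b + 2) x y ↔ Fst A (b + 2) x y))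
    (w2x : ∀ x y : ℕ, y + 2 * (A / 6) ≤ x → 2 * n + 9 ≤ x →
      (f A (b + 2) x y ↔ Fst A (b + 2) x y))
    (p2 : ∀ x y : ℕ, y ≤ x → 2 * n + 2 * (A / 6) + 3 ≤ x →
      (f (A - 1) (b + 2) x y ↔ Fst (A - 1) (b + 2) x y))
    (p3 : ∀ x y : ℕ, y ≤ x → 2 * n + 2 * (A / 6) + 3 ≤ x →
      (f (A - 1) (b + 3) x y ↔ Fst (A - 1) (b + 3) x y)) :
    ∀ x y : ℕ, y ≤ x → 2 * n + 2 * (A / 6) + 5 ≤ x →
      (f A (b + 3) x y ↔ Fst A (b + 3) x y) := by
  have ext : St f A (b + 3) (2 * n + 2 * (A / 6) + 2 + 2) := by
    refine QF_even_flat hf (by omega) (by omega) (by omega) ?_ (Or.inr (by omega))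
    intro x y hxy p q hp hq hpq hpa hqb
    rcases Nat.eq_zero_or_pos p with hp0 | hp0
    · subst hp0
      have hq1 : q = 1 := by omega
      subst hq1
      refine all_of_half hf (P := fun x y => 2 * n + 2 * (A / 6) + 2 < x) ?_ x y hxy
      intro x y hyx h
      rcases Nat.lt_or_ge x (y + 2 * (A / 6)) with h1 | h1
      · exact w2s x y hyx (by omega) (by omega)
      · exact w2x x y h1 (by omega)
    · have hp1 : p = 1 := by omega
      subst hp1
      rcases Nat.eq_zero_or_pos q with hq0 | hq0
      · subst hq0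
        refine all_of_half hf (P := fun x y => 2 * n + 2 * (A / 6) + 2 < x) ?_ x y hxy
        intro x y hyx h
        exact p3 x y hyx (by omega)
      · have hq1 : q = 1 := by omega
        subst hq1
        refine all_of_half hf (P := fun x y => 2 * n + 2 * (A / 6) + 2 < x) ?_ x y hxy
        intro x y hyx h
        exact p2 x y hyx (by omega)
  intro x y hyx hx
  exact ext x y (by rw [max_eq_left hyx]; omega)

end Pool.Agent.SNT.LW
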