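import Pool.Agent.SNT.TipI
import Pool.Agent.SNT.Near

set_option autoImplicit false

/-! Location from below: the zones of the odd layer over an isolated even layer. -/

namespace Pool.Agent.SNT

variable {f : ℕ → ℕ → ℕ → ℕ → Prop}

namespace LocZ

open TipI

/-- The plane is zero near the diagonal, ahead of `X`. -/
def Z0 (f : ℕ → ℕ → ℕ → ℕ → Prop) (a b X T : ℕ) : Prop :=
  ∀ x y : ℕ, X < max x y → max x y < min x y + T → ¬ f a b x y

/-- The plane is static far from the diagonal, ahead of `X`. -/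
def Fr (f : ℕ → ℕ → ℕ → ℕ → Prop) (a b X T : ℕ) : Prop :=
  ∀ x y : ℕ, X < max x y → min x y + T ≤ max x y → (f a b x y ↔ Fst a b x y)

theorem Z0.of_st {a b X T : ℕ} (ha : a % 2 = 1) (hT : T + a + 12 ≤ b) (h : St f a b X) :
    Z0 f a b X T := by
  intro x y h1 h2 h3
  rw [h x y h1] at h3
  exact Fst_near_odd ha (by omega) h3

theorem St.of_zero {a b X T : ℕ} (ha : a % 2 = 1) (hT : T + a + 12 ≤ b) (h : Z0 f a b X T)
    (hr : Fr f a b X T) : St f a b X := by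
  intro x y h1
  rcases Nat.lt_or_ge (max x y) (min x y + T) with h2 | h2
  · exact iff_of_false (h x y h1 h2) (Fst_near_odd ha (by omega))
  · exact hr x y h1 h2

/-- The odd layer over an isolated even layer consists of `E` cells. -/
theorem eonly (hf : Rule f) {A b x y : ℕ} (hA : A % 2 = 0) (hne : ¬ (b % 2 = 0 ∧ x % 2 = 0 ∧ y % 2 = 0))
    (hz : ∀ q r s : ℕ, q ≤ 1 → r ≤ 1 → s ≤ 1 → ¬ f (A - 1) (b - q) (x - r) (y - s)) :
    ¬ f (A + 1) b x y := by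
  intro h
  have h0 : ¬ f A b x y := by
    intro h'
    exact kill hf h' (by omega) (by omega) (by omega) (by omega) (by omega) h
  obtain ⟨p, q, r, s, hp, hq, hr, hs, hsum, hpa, hqb, hrx, hsy, hone⟩ :=
    hf.exists_pred (by omega) h0
  rcases Nat.eq_zero_or_pos p with hp0 | hp0
  · subst hp0
    exact kill hf hone (by omega) (by omega) (by omega) (by omega) (by omega) h
  · have hp1 : p = 1 := by omega
    subst hp1
    exact hz q r s hq hr hs hone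

theorem eonly_Z (hf : Rule f) {A b X T : ℕ} (hA : A % 2 = 0) (hTX : T ≤ X)
    (h0 : Z0 f (A - 1) b X T) (h1 : Z0 f (A - 1) (b - 1) X T) {x y : ℕ}
    (hne : ¬ (b % 2 = 0 ∧ x % 2 = 0 ∧ y % 2 = 0)) (hx : X + 1 < max x y)
    (hd : max x y + 1 < min x y + T) : ¬ f (A + 1) b x y := by
  refine eonly hf hA hne ?_
  intro q r s hq hr hs
  rcases Nat.eq_zero_or_pos q with hq0 | hq0
  · subst hq0
    exact h0 _ _ (by omega) (by omega)
  · have hq1 : q = 1 := by omega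
    subst hq1
    exact h1 _ _ (by omega) (by omega)

theorem eonly_odd (hf : Rule f) {A b X T : ℕ} (hA : A % 2 = 0) (hb1 : b % 2 = 1)
    (hTX : T + 1 ≤ X) (h0 : Z0 f (A - 1) b X (T + 1)) (h1 : Z0 f (A - 1) (b - 1) X (T + 1)) :
    Z0 f (A + 1) b (X + 1) T := by
  intro x y hx hd
  exact eonly_Z hf hA hTX h0 h1 (by omega) hx (by omega)

/-- Row `B + ρ ≡ 1`: `Fst` near the diagonal. -/
theorem fst_one {B b x y : ℕ} (hB : B % 2 = 0) (h6 : 6 ≤ B) (hb : (B + b) % 4 = 1) (hyx : y ≤ x)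
    (hn : x + B + 12 ≤ b + y) : Fst B b x y ↔
      ((x + y) % 2 = 0 ∧ 2 * (B / 6) + y ≤ x ∧ (x + y) % 4 = (2 * (B / 6)) % 4) ∨
      (x = y ∧ x % 2 = 1) := by
  rw [Fst_near hB (by omega), hb]
  unfold NF
  rw [max_eq_left hyx, min_eq_right hyx]
  omega

/-- Row `B + ρ ≡ 3`. -/
theorem fst_three {B b x y : ℕ} (hB : B % 2 = 0) (h6 : 6 ≤ B) (hb : (B + b) % 4 = 3) (hyx : y ≤ x)
    (hn : x + B + 12 ≤ b + y) : Fst B b x y ↔
      ((x + y) % 2 = 0 ∧ 2 * (B / 6) + y ≤ x ∧ (x + y + 2) % 4 = (2 * (B / 6)) % 4) ∨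
      (x = y ∧ x % 2 = 0) := by
  rw [Fst_near hB (by omega), hb]
  unfold NF
  rw [max_eq_left hyx, min_eq_right hyx]
  omega

/-- Row `B + ρ ≡ 2` (IN row). -/
theorem fst_two {B b x y : ℕ} (hB : B % 2 = 0) (hb : (B + b) % 4 = 2) (hyx : y ≤ x)
    (hn : x + B + 12 ≤ b + y) : Fst B b x y ↔
      ((x + y) % 2 = 1 ∧ x < y + 2 * (B / 6) ∧ x % 2 = 1) ∨
      ((x + y) % 2 = 1 ∧ 2 * (B / 6) + y ≤ x + 1 ∧ (x + y + 1) % 4 = (2 * (B / 6)) % 4) := by
  rw [Fst_near hB (by omega), hb]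
  unfold NF
  rw [max_eq_left hyx, min_eq_right hyx]
  omega

/-- Row `B + ρ ≡ 0` (OUT row). -/
theorem fst_zero {B b x y : ℕ} (hB : B % 2 = 0) (hb : (B + b) % 4 = 0) (hyx : y ≤ x)
    (hn : x + B + 12 ≤ b + y) : Fst B b x y ↔
      ((x + y) % 2 = 1 ∧ x < y + 2 * (B / 6) ∧ x % 2 = 0) ∨
      ((x + y) % 2 = 1 ∧ 2 * (B / 6) + y ≤ x + 1 ∧ (x + y + 3) % 4 = (2 * (B / 6)) % 4) := by
  rw [Fst_near hB (by omega), hb]
  unfold NF
  rw [max_eq_left hyx, min_eq_right hyx]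
  omega

end LocZ

end Pool.Agent.SNT
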