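import Pool.Agent.SNT.LocW13
import Pool.Agent.SNT.LocZ

set_option autoImplicit false

/-! Location of the top leader, weak profile: the exterior of the IN row and of the OUT row. -/

namespace Pool.Agent.SNT.LW

open TipI

variable {f : ℕ → ℕ → ℕ → ℕ → Prop}

/-- The exterior of the row before the IN row, local in the exterior of the row before. -/
theorem ext3' (hf : Rule f) {A c n : ℕ} (hA : A % 2 = 0) (h12 : 12 ≤ A) (ph : (A + c) % 4 = 2)
    (big : 2 * A + 40 ≤ c) (hn : A + c + 40 ≤ 2 * n)
    (x2 : ∀ x y : ℕ, y + 2 * (A / 6) ≤ x → 2 * n < x + 2 →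
      (f A (c + 2) x y ↔ Fst A (c + 2) x y))
    (l2 : ∀ x y : ℕ, y + 2 * (A / 6) ≤ x → 2 * n < x + 2 →
      (f (A - 1) (c + 2) x y ↔ Fst (A - 1) (c + 2) x y))
    (l3 : ∀ x y : ℕ, y + 2 * (A / 6) ≤ x → 2 * n < x + 2 →
      (f (A - 1) (c + 3) x y ↔ Fst (A - 1) (c + 3) x y)) {x y : ℕ}
    (hx : 2 * n < x) (hd : y + 2 * (A / 6) + 1 ≤ x) :
    f A (c + 3) x y ↔ Fst A (c + 3) x y := by
  have hls : ∀ u v : ℕ, v ≤ u → 2 * n - 2 < u → 2 * (A / 6) ≤ u - v → LS f A (c + 3) u v := by
    intro u v huv hu hd' p q hp hq hpq hpa hqb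
    rcases Nat.eq_zero_or_pos p with hp0 | hp0
    · subst hp0
      have hq1 : q = 1 := by omega
      subst hq1
      exact x2 u v (by omega) (by omega)
    · have hp1 : p = 1 := by omega
      subst hp1
      rcases Nat.eq_zero_or_pos q with hq0 | hq0
      · subst hq0
        exact l3 u v (by omega) (by omega)
      · have hq1 : q = 1 := by omega
        subst hq1
        exact l2 u v (by omega) (by omega)
  rcases Nat.lt_or_ge (A + c + 3 + y) x with hfar | hfar
  · rw [hf.far A (c + 3) x y (by omega), Fst_far (by omega) (by omega)]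
  have hy6 : 6 ≤ y := by omega
  rcases Nat.lt_or_ge (x - y) (2 * (A / 6) + 3) with hd3 | hd3
  · have key : ∀ u v : ℕ, u = v + (2 * (A / 6) + 2) → u % 2 = 1 → 2 * n < u → 6 ≤ v →
        f A (c + 3) u v := by
      intro u v huv hu hu2 hv
      refine one_loc hf (L := 2 * n - 2) (D := 2 * (A / 6)) (by omega) (by omega) (by omega) hv
        (by omega) (by omega) hls ?_
      rw [huv]
      rw [Fst_zone hA (by omega) (by omega) (by omega)]
      omega
    rcases Nat.mod_two_eq_zero_or_one x with hx2 | hx2 <;>
      rcases Nat.lt_or_ge (x - y) (2 * (A / 6) + 2) with hd2 | hd2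
    · have e : x = y + (2 * (A / 6) + 1) := by omega
      have hF : ¬ Fst A (c + 3) x y := by
        rw [e, Fst_zone hA (by omega) (by omega) (by omega)]
        omega
      refine iff_of_false ?_ hF
      have h1 : f A (c + 2) (x - 1) (y - 1) := by
        rw [x2 _ _ (by omega) (by omega)]
        have e2 : x - 1 = (y - 1) + (2 * (A / 6) + 1) := by omega
        rw [e2, Fst_zone hA (by omega) (by omega) (by omega)]
        omega
      exact kill hf h1 (by omega) (by omega) (by omega) (by omega) (by omega)
    · have e : x = y + (2 * (A / 6) + 2) := by omega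
      have hF : ¬ Fst A (c + 3) x y := by
        rw [e, Fst_zone hA (by omega) (by omega) (by omega)]
        omega
      refine iff_of_false ?_ hF
      exact kill hf (key (x - 1) (y - 1) (by omega) (by omega) (by omega) (by omega))
        (by omega) (by omega) (by omega) (by omega) (by omega)
    · have e : x = y + (2 * (A / 6) + 1) := by omega
      have hF : ¬ Fst A (c + 3) x y := by
        rw [e, Fst_zone hA (by omega) (by omega) (by omega)]
        omega
      refine iff_of_false ?_ hF
      exact kill hf (key x (y - 1) (by omega) (by omega) (by omega) (by omega))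
        (by omega) (by omega) (by omega) (by omega) (by omega)
    · have e : x = y + (2 * (A / 6) + 2) := by omega
      refine iff_of_true (key x y (by omega) hx2 (by omega) (by omega)) ?_
      rw [e, Fst_zone hA (by omega) (by omega) (by omega)]
      omega
  · exact QF_loc hf (L := 2 * n - 2) (D := 2 * (A / 6)) (by omega) (by omega) (by omega) (by omega)
      hy6 (by omega) (by omega) hls

/-- The IN row `c + 4`, columns `2 n + 3` and `2 n + 4`, all distances. -/
theorem loc_w0x (hf : Rule f) {A c n : ℕ} (hA : A % 2 = 0) (h12 : 12 ≤ A) (ph : (A + c) % 4 = 2)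
    (big : 2 * A + 40 ≤ c) (hn : A + c + 40 ≤ 2 * n)
    (w0 : ∀ x y : ℕ, y ≤ x → 2 * n + 3 ≤ x → x + 3 ≤ y + 2 * (A / 6) ∨ 2 * n + 5 ≤ x →
      (f A (c + 4) x y ↔ Fst A (c + 4) x y))
    (x2 : ∀ x y : ℕ, y + 2 * (A / 6) ≤ x → 2 * n < x + 2 →
      (f A (c + 2) x y ↔ Fst A (c + 2) x y))
    (s3 : ∀ x y : ℕ, y ≤ x → x + 1 ≤ y + 2 * (A / 6) → 2 * n + 4 ≤ y + 2 * (A / 6) →
      (f A (c + 3) x y ↔ Fst A (c + 3) x y))
    (l2 : ∀ x y : ℕ, y + 2 * (A / 6) ≤ x → 2 * n < x + 2 →
      (f (A - 1) (c + 2) x y ↔ Fst (A - 1) (c + 2) x y))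
    (l3 : ∀ x y : ℕ, y + 2 * (A / 6) ≤ x → 2 * n < x + 2 →
      (f (A - 1) (c + 3) x y ↔ Fst (A - 1) (c + 3) x y))
    (l4 : ∀ x y : ℕ, y + 2 * (A / 6) ≤ x → 2 * n < x →
      (f (A - 1) (c + 4) x y ↔ Fst (A - 1) (c + 4) x y))
    (z : ∀ i x y : ℕ, 3 ≤ i → i ≤ 4 → 2 * n + 2 ≤ x → x ≤ 2 * n + 4 → y + 2 * (A / 6) ≤ x + 2 →
      x ≤ y + 2 * (A / 6) + 2 → ¬ f (A - 1) (c + i) x y) :
    ∀ x y : ℕ, y ≤ x → 2 * n + 3 ≤ x → (f A (c + 4) x y ↔ Fst A (c + 4) x y) := by
  intro x y hyx hx
  by_cases hc : x + 3 ≤ y + 2 * (A / 6) ∨ 2 * n + 5 ≤ x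
  · exact w0 x y hyx hx hc
  have hx4 : x = 2 * n + 3 ∨ x = 2 * n + 4 := by omega
  have hd0 : y + 2 * (A / 6) ≤ x + 2 := by omega
  have ext : ∀ u v : ℕ, 2 * n < u → v + 2 * (A / 6) + 1 ≤ u →
      (f A (c + 3) u v ↔ Fst A (c + 3) u v) := fun u v h1 h2 =>
    ext3' hf hA h12 ph big hn x2 l2 l3 h1 h2
  -- the last cell of the column `2 n + 3`
  have hwall : ∀ w : ℕ, w + 2 * (A / 6) = 2 * n + 4 → f A (c + 4) (2 * n + 3) w := by
    intro w hw
    have up : f A (c + 4) (2 * n + 3) (w + 2) := by
      rw [w0 _ _ (by omega) (by omega) (by omega),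
        LocZ.fst_two hA (by omega) (by omega) (by omega)]
      omega
    have hno : ¬ f A (c + 4) (2 * n + 3) (w + 1) := by
      intro h
      exact kill hf h (by omega) (by omega) (by omega) (by omega) (by omega) up
    obtain ⟨p, q, r, s, hp, hq, hr', hs, hsum, hpa, hqb, hrx, hsy, hone⟩ :=
      hf.exists_pred (by omega) hno
    rcases Nat.eq_zero_or_pos s with hs0 | hs0
    · exfalso
      subst hs0
      exact kill hf hone (by omega) (by omega) (by omega) (by omega) (by omega) up
    have hs1 : s = 1 := by omega
    subst hs1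
    rw [Nat.add_sub_cancel] at hone
    rcases Nat.eq_zero_or_pos p with hp0 | hp0
    · subst hp0
      rcases Nat.eq_zero_or_pos q with hq0 | hq0
      · subst hq0
        rcases Nat.eq_zero_or_pos r with hr0 | hr0
        · subst hr0
          exact hone
        · exfalso
          exact hf.not_allEven hone (by omega)
      · exfalso
        have hq1 : c + 4 - q = c + 3 := by omega
        rw [hq1, Nat.sub_zero, s3 _ _ (by omega) (by omega) (by omega),
          LocZ.fst_one hA (by omega) (by omega) (by omega) (by omega)] at hone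
        omega
    · have hp1 : p = 1 := by omega
      subst hp1
      exfalso
      have hq2 : c + 4 - q = c + (4 - q) := by omega
      rw [hq2] at hone
      exact z (4 - q) _ _ (by omega) (by omega) (by omega) (by omega) (by omega) (by omega) hone
  have z0 : ∀ v : ℕ, 2 * n + 3 = v + 2 * (A / 6) → ¬ f A (c + 4) (2 * n + 3) v := by
    intro v hv h'
    exact kill hf h' (a' := A) (b' := c + 4) (x' := 2 * n + 3) (y' := v + 1)
      (by omega) (by omega) (by omega) (by omega) (by omega)
      (hwall (v + 1) (by omega))
  have z1 : ∀ v : ℕ, 2 * n + 3 = v + (2 * (A / 6) + 1) → ¬ f A (c + 4) (2 * n + 3) v := by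
    intro v hv
    have h1 : f A (c + 3) (2 * n + 3) (v - 1) := by
      rw [ext _ _ (by omega) (by omega)]
      have e : 2 * n + 3 = (v - 1) + (2 * (A / 6) + 2) := by omega
      rw [e, Fst_zone hA (by omega) (by omega) (by omega)]
      omega
    exact kill hf h1 (by omega) (by omega) (by omega) (by omega) (by omega)
  have hls : ∀ u v : ℕ, v ≤ u → 2 * n < u → 2 * (A / 6) + 1 ≤ u - v → LS f A (c + 4) u v := by
    intro u v huv hu hd' p q hp hq hpq hpa hqb
    rcases Nat.eq_zero_or_pos p with hp0 | hp0
    · subst hp0
      have hq1 : q = 1 := by omega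
      subst hq1
      exact ext _ _ (by omega) (by omega)
    · have hp1 : p = 1 := by omega
      subst hp1
      rcases Nat.eq_zero_or_pos q with hq0 | hq0
      · subst hq0
        exact l4 u v (by omega) (by omega)
      · have hq1 : q = 1 := by omega
        subst hq1
        exact l3 u v (by omega) (by omega)
  have h3one : ∀ v : ℕ, 2 * n + 3 = v + (2 * (A / 6) + 3) → f A (c + 4) (2 * n + 3) v := by
    intro v hv
    refine one_loc hf (L := 2 * n) (D := 2 * (A / 6) + 1) (by omega) (by omega) (by omega)
      (by omega) (by omega) (by omega) hls ?_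
    rw [hv, Fst_zone hA (by omega) (by omega) (by omega)]
    omega
  rcases Nat.lt_or_ge (x - y) (2 * (A / 6) + 4) with hd | hd
  swap
  · rcases Nat.lt_or_ge (A + c + 4 + y) x with hfar | hfar
    · rw [hf.far A (c + 4) x y (by omega), Fst_far (by omega) (by omega)]
    · exact QF_loc hf (L := 2 * n) (D := 2 * (A / 6) + 1) (by omega) (by omega) hyx (by omega)
        (by omega) (by omega) (by omega) hls
  obtain ⟨D, hD⟩ : ∃ D, x = y + D := ⟨x - y, by omega⟩
  have hFst := Fst_zone (a := A) (b := c + 4) (y := y) (D := D) hA (by omega) (by omega) (by omega)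
  rw [← hD] at hFst
  rcases hx4 with hx1 | hx1
  · have hDc : D + 2 = 2 * (A / 6) ∨ D + 1 = 2 * (A / 6) ∨ D = 2 * (A / 6) ∨
        D = 2 * (A / 6) + 1 ∨ D = 2 * (A / 6) + 2 ∨ D = 2 * (A / 6) + 3 := by omega
    rcases hDc with hDc | hDc | hDc | hDc | hDc | hDc
    · refine iff_of_false ?_ ?_
      · rw [hx1]
        exact kill hf (hwall (y - 1) (by omega)) (by omega) (by omega)
          (by omega) (by omega) (by omega)
      · rw [hFst]
        omega
    · refine iff_of_true ?_ ?_
      · rw [hx1]
        exact hwall y (by omega)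
      · rw [hFst]
        omega
    · refine iff_of_false ?_ ?_
      · rw [hx1]
        exact z0 y (by omega)
      · rw [hFst]
        omega
    · refine iff_of_false ?_ ?_
      · rw [hx1]
        exact z1 y (by omega)
      · rw [hFst]
        omega
    · refine iff_of_false ?_ ?_
      · rw [hx1]
        exact kill hf (h3one (y - 1) (by omega)) (by omega) (by omega)
          (by omega) (by omega) (by omega)
      · rw [hFst]
        omega
    · refine iff_of_true ?_ ?_
      · rw [hx1]
        exact h3one y (by omega)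
      · rw [hFst]
        omega
  · rcases Nat.mod_two_eq_zero_or_one y with hy2 | hy2
    · refine iff_of_false ?_ ?_
      · intro h'
        exact hf.not_allEven h' (by omega)
      · rw [hFst]
        omega
    · have hDc : D + 1 = 2 * (A / 6) ∨ D = 2 * (A / 6) + 1 ∨ D = 2 * (A / 6) + 3 := by omega
      rcases hDc with hDc | hDc | hDc
      · refine iff_of_false ?_ ?_
        · exact kill hf (hwall (y - 1) (by omega)) (by omega) (by omega)
            (by omega) (by omega) (by omega)
        · rw [hFst]
          omega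
      · refine iff_of_true ?_ ?_
        · by_contra hno
          obtain ⟨p, q, r, s, hp, hq, hr', hs', hsum, hpa, hqb, hrx, hsy, hone⟩ :=
            hf.exists_pred (by omega) hno
          rcases Nat.eq_zero_or_pos p with hp0 | hp0
          · subst hp0
            rcases Nat.eq_zero_or_pos q with hq0 | hq0
            · subst hq0
              simp only [Nat.sub_zero] at hone
              have hrs : (r = 0 ∧ s = 1) ∨ (r = 1 ∧ s = 0) ∨ (r = 1 ∧ s = 1) := by omega
              rcases hrs with ⟨rfl, rfl⟩ | ⟨rfl, rfl⟩ | ⟨rfl, rfl⟩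
              · exact hf.not_allEven hone (by omega)
              · have e : x - 1 = 2 * n + 3 := by omega
                rw [e] at hone
                exact z0 _ (by omega) hone
              · have e : x - 1 = 2 * n + 3 := by omega
                rw [e] at hone
                exact z1 _ (by omega) hone
            · have hq1 : q = 1 := by omega
              subst hq1
              have e3 : c + 4 - 1 = c + 3 := by omega
              rw [e3, Nat.sub_zero] at hone
              rcases Nat.lt_or_ge (y - s + 2 * (A / 6)) (x - r) with h5 | h5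
              · rw [ext _ _ (by omega) (by omega)] at hone
                obtain ⟨D', hD'⟩ : ∃ D', x - r = (y - s) + D' := ⟨x - r - (y - s), by omega⟩
                rw [hD', Fst_zone hA (by omega) (by omega) (by omega)] at hone
                omega
              · have hr1 : r = 1 := by omega
                have hs0 : s = 0 := by omega
                subst hr1
                subst hs0
                exact kill hf hone (a' := A) (b' := c + 4) (x' := 2 * n + 3) (y' := y + 1)
                  (by omega) (by omega) (by omega) (by omega) (by omega)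
                  (hwall (y + 1) (by omega))
          · have hp1 : p = 1 := by omega
            subst hp1
            have hq2 : c + 4 - q = c + (4 - q) := by omega
            rw [hq2] at hone
            exact z (4 - q) _ _ (by omega) (by omega) (by omega) (by omega) (by omega) (by omega)
              hone
        · rw [hFst]
          omega
      · refine iff_of_false ?_ ?_
        · have := h3one (y - 1) (by omega)
          exact kill hf this (by omega) (by omega) (by omega) (by omega) (by omega)
        · rw [hFst]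
          omega

/-- The exterior of the OUT row `b + 2` from the row `b + 1` ahead of `L`. -/
theorem loc_w2x (hf : Rule f) {A b L : ℕ} (hA : A % 2 = 0) (h12 : 12 ≤ A) (ph : (A + b) % 4 = 2)
    (big : 2 * A + 40 ≤ b) (hL : L % 2 = 0) (hL2 : A + b + 40 ≤ L)
    (r1 : ∀ x y : ℕ, y + 2 * (A / 6) ≤ x + 1 → y ≤ x → L < x →
      (f A (b + 1) x y ↔ Fst A (b + 1) x y))
    (p1 : ∀ x y : ℕ, y + 2 * (A / 6) ≤ x → L < x →
      (f (A - 1) (b + 1) x y ↔ Fst (A - 1) (b + 1) x y))
    (p2 : ∀ x y : ℕ, y + 2 * (A / 6) ≤ x → L < x →
      (f (A - 1) (b + 2) x y ↔ Fst (A - 1) (b + 2) x y)) :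
    ∀ x y : ℕ, y + 2 * (A / 6) ≤ x → L + 2 < x → (f A (b + 2) x y ↔ Fst A (b + 2) x y) := by
  intro x y hd hx
  rcases Nat.lt_or_ge (A + (b + 2) + y) x with hfar | hfar
  · rw [hf.far A (b + 2) x y (by omega), Fst_far (by omega) (by omega)]
  have hls : ∀ u v : ℕ, v ≤ u → L < u → 2 * (A / 6) ≤ u - v → LS f A (b + 2) u v := by
    intro u v huv hu hd' p q hp hq hpq hpa hqb
    rcases Nat.eq_zero_or_pos p with hp0 | hp0
    · subst hp0
      have hq1 : q = 1 := by omega
      subst hq1
      exact r1 u v (by omega) huv hu
    · have hp1 : p = 1 := by omega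
      subst hp1
      rcases Nat.eq_zero_or_pos q with hq0 | hq0
      · subst hq0
        exact p2 u v (by omega) hu
      · have hq1 : q = 1 := by omega
        subst hq1
        exact p1 u v (by omega) hu
  rcases Nat.lt_or_ge (x - y) (2 * (A / 6) + 3) with hd3 | hd3
  swap
  · exact QF_loc hf (L := L) (D := 2 * (A / 6)) (by omega) (by omega) (by omega) (by omega)
      (by omega) (by omega) (by omega) hls
  -- the ones of the row `b + 1`
  have g1 : ∀ u v : ℕ, v ≤ u → L < u → u < v + 2 * (A / 6) + 8 →
      (u + v) % 2 = 0 → 2 * (A / 6) + v ≤ u → (u + v + 2) % 4 = (2 * (A / 6)) % 4 →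
      f A (b + 1) u v := by
    intro u v huv hu hud g2 g3 g4
    rw [r1 u v (by omega) huv hu, LocZ.fst_three hA (by omega) (by omega) huv (by omega)]
    exact Or.inl ⟨g2, g3, g4⟩
  have z0 : ∀ u v : ℕ, u = v + 2 * (A / 6) → L < u → ¬ f A (b + 2) u v := by
    intro u v huv hu
    rcases Nat.mod_two_eq_zero_or_one u with hu2 | hu2
    · intro h
      exact hf.not_allEven h (by omega)
    · exact kill hf (g1 u v (by omega) (by omega) (by omega) (by omega) (by omega) (by omega))
        (by omega) (by omega) (by omega) (by omega) (by omega)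
  have z1 : ∀ u v : ℕ, u = v + 2 * (A / 6) + 1 → L + 1 < u → u % 2 = 0 → ¬ f A (b + 2) u v := by
    intro u v huv hu hu2
    exact kill hf (g1 (u - 1) v (by omega) (by omega) (by omega) (by omega) (by omega) (by omega))
      (by omega) (by omega) (by omega) (by omega) (by omega)
  have z2 : ∀ u v : ℕ, u = v + 2 * (A / 6) + 2 → L + 1 < u → ¬ f A (b + 2) u v := by
    intro u v huv hu
    rcases Nat.mod_two_eq_zero_or_one u with hu2 | hu2
    · intro h
      exact hf.not_allEven h (by omega)
    · exact kill hf (g1 (u - 1) (v - 1) (by omega) (by omega) (by omega) (by omega) (by omega)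
        (by omega)) (by omega) (by omega) (by omega) (by omega) (by omega)
  have hc : x = y + 2 * (A / 6) ∨ x = y + 2 * (A / 6) + 1 ∨ x = y + 2 * (A / 6) + 2 := by omega
  rcases hc with e | e | e
  · refine iff_of_false (z0 x y e (by omega)) ?_
    rw [LocZ.fst_zero hA (by omega) (by omega) (by omega)]
    omega
  · rcases Nat.mod_two_eq_zero_or_one x with hx2 | hx2
    · refine iff_of_false (z1 x y e (by omega) hx2) ?_
      rw [LocZ.fst_zero hA (by omega) (by omega) (by omega)]
      omega
    · have hF : Fst A (b + 2) x y := by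
        rw [LocZ.fst_zero hA (by omega) (by omega) (by omega)]
        omega
      refine iff_of_true ?_ hF
      by_contra hno
      obtain ⟨p, q, r, s, hp, hq, hr, hs, hsum, hpa, hqb, hrx, hsy, hone⟩ :=
        hf.exists_pred (by omega) hno
      rcases Nat.lt_or_ge 0 (p + q) with hpq | hpq
      · rcases Nat.eq_zero_or_pos p with hp0 | hp0
        · subst hp0
          have hq1 : b + 2 - q = b + 1 := by omega
          rw [hq1, Nat.sub_zero, r1 _ _ (by omega) (by omega) (by omega),
            LocZ.fst_three hA (by omega) (by omega) (by omega) (by omega)] at hone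
          omega
        · have hp1 : p = 1 := by omega
          subst hp1
          rcases Nat.eq_zero_or_pos q with hq0 | hq0
          · subst hq0
            rw [Nat.sub_zero, p2 _ _ (by omega) (by omega)] at hone
            exact odd_zero (by omega) (by omega) (by omega) (by omega) hone
          · have hq1 : b + 2 - q = b + 1 := by omega
            rw [hq1, p1 _ _ (by omega) (by omega)] at hone
            exact odd_zero (by omega) (by omega) (by omega) (by omega) hone
      · have hp0 : p = 0 := by omega
        have hq0 : q = 0 := by omega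
        subst hp0
        subst hq0
        simp only [Nat.sub_zero] at hone
        have hrs : (r = 0 ∧ s = 1) ∨ (r = 1 ∧ s = 0) ∨ (r = 1 ∧ s = 1) := by omega
        rcases hrs with ⟨rfl, rfl⟩ | ⟨rfl, rfl⟩ | ⟨rfl, rfl⟩
        · exact z2 _ _ (by omega) (by omega) hone
        · exact z0 _ _ (by omega) (by omega) hone
        · exact z1 _ _ (by omega) (by omega) (by omega) hone
  · refine iff_of_false (z2 x y e (by omega)) ?_
    rw [LocZ.fst_zero hA (by omega) (by omega) (by omega)]
    omega

end Pool.Agent.SNT.LW
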