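import Pool.Agent.SNT.LocZ

set_option autoImplicit false

/-! Location from below: the zones of the odd layer over an isolated even layer, part 2. -/

namespace Pool.Agent.SNT

variable {f : ℕ → ℕ → ℕ → ℕ → Prop}

namespace LocZ

open TipI

/-- `E` cells over the bulk of a clean row, IN row. -/
theorem bulk_in (hf : Rule f) {B b L W T x y : ℕ} (hB : B % 2 = 0) (h6 : 6 ≤ B)
    (hb : (B + b) % 4 = 2) (hT : T + B + 20 ≤ b)
    (ones : ∀ u v : ℕ, v + W ≤ u → L < u → u < v + T → Fst B (b - 1) u v → f B (b - 1) u v)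
    (hW : 2 * (B / 6) ≤ W) (hx2 : x % 2 = 0) (hy2 : y % 2 = 0) (hy : 1 ≤ y) (hx : L + 1 < x)
    (hd : y + W ≤ x) (hxT : x < y + T) : ¬ f (B + 1) b x y := by
  have hc : (x + y) % 4 = (2 * (B / 6)) % 4 ∨ (x + y + 2) % 4 = (2 * (B / 6)) % 4 := by omega
  rcases hc with hc | hc
  · have h1 : f B (b - 1) x y := by
      refine ones x y hd (by omega) hxT ?_
      rw [fst_one hB h6 (by omega) (by omega) (by omega)]
      left
      exact ⟨by omega, by omega, hc⟩
    exact kill hf h1 (by omega) (by omega) (by omega) (by omega) (by omega)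
  · have h1 : f B (b - 1) (x - 1) (y - 1) := by
      refine ones (x - 1) (y - 1) (by omega) (by omega) (by omega) ?_
      rw [fst_one hB h6 (by omega) (by omega) (by omega)]
      left
      exact ⟨by omega, by omega, by omega⟩
    exact kill hf h1 (by omega) (by omega) (by omega) (by omega) (by omega)

/-- `E` cells over the bulk of a clean row, OUT row. -/
theorem bulk_out (hf : Rule f) {B b L W T x y : ℕ} (hB : B % 2 = 0) (h6 : 6 ≤ B)
    (hb : (B + b) % 4 = 0) (hT : T + B + 20 ≤ b)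
    (ones : ∀ u v : ℕ, v + W ≤ u → L < u → u < v + T → Fst B (b - 1) u v → f B (b - 1) u v)
    (hW : 2 * (B / 6) ≤ W) (hx2 : x % 2 = 0) (hy2 : y % 2 = 0) (hy : 1 ≤ y) (hx : L + 1 < x)
    (hd : y + W ≤ x) (hxT : x < y + T) : ¬ f (B + 1) b x y := by
  have hc : (x + y + 2) % 4 = (2 * (B / 6)) % 4 ∨ (x + y) % 4 = (2 * (B / 6)) % 4 := by omega
  rcases hc with hc | hc
  · have h1 : f B (b - 1) x y := by
      refine ones x y hd (by omega) hxT ?_
      rw [fst_three hB h6 (by omega) (by omega) (by omega)]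
      left
      exact ⟨by omega, by omega, hc⟩
    exact kill hf h1 (by omega) (by omega) (by omega) (by omega) (by omega)
  · have h1 : f B (b - 1) (x - 1) (y - 1) := by
      refine ones (x - 1) (y - 1) (by omega) (by omega) (by omega) ?_
      rw [fst_three hB h6 (by omega) (by omega) (by omega)]
      left
      exact ⟨by omega, by omega, by omega⟩
    exact kill hf h1 (by omega) (by omega) (by omega) (by omega) (by omega)

/-- OUT row, strip. -/
theorem out_strip (hf : Rule f) {B b K X T x y : ℕ} (hB : B % 2 = 0) (h6 : 6 ≤ B)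
    (hb : (B + b) % 4 = 0) (hT : T + B + 20 ≤ b) (hX : X + 2 ≤ K) (hTh : 2 * (B / 6) + 4 ≤ T)
    (hTX : T ≤ X)
    (yf : ∀ u v : ℕ, v ≤ u → u % 2 = 1 → v % 2 = 0 → u + 1 ≤ v + 2 * (B / 6) → K + 2 < u →
      ¬ f B b u v)
    (r1 : ∀ u v : ℕ, max u v ≤ min u v + 2 * (B / 6) → K + 1 < max u v →
      (f B (b - 1) u v ↔ Fst B (b - 1) u v))
    (z0 : Z0 f (B - 1) b X T) (z1 : Z0 f (B - 1) (b - 1) X T) (hx2 : x % 2 = 0) (hy2 : y % 2 = 0)
    (hyx : y + 2 ≤ x) (hd : x + 2 ≤ y + 2 * (B / 6)) (hx : K + 3 < x) : ¬ f (B + 1) b x y := by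
  intro h
  have h0 : ¬ f B b x (y - 1) := by
    intro h'
    exact kill hf h' (by omega) (by omega) (by omega) (by omega) (by omega) h
  obtain ⟨p, q, r, s, hp, hq, hr, hs, hsum, hpa, hqb, hrx, hsy, hone⟩ :=
    hf.exists_pred (by omega) h0
  rcases Nat.eq_zero_or_pos p with hp0 | hp0
  · subst hp0
    rcases Nat.eq_zero_or_pos q with hq0 | hq0
    · subst hq0
      simp only [Nat.sub_zero] at hone
      have hrs : (r = 0 ∧ s = 1) ∨ (r = 1 ∧ s = 0) ∨ (r = 1 ∧ s = 1) := by omega
      rcases hrs with ⟨rfl, rfl⟩ | ⟨rfl, rfl⟩ | ⟨rfl, rfl⟩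
      · exact hf.not_allEven hone (by omega)
      · exact kill hf hone (by omega) (by omega) (by omega) (by omega) (by omega) h
      · exact yf _ _ (by omega) (by omega) (by omega) (by omega) (by omega) hone
    · have hq1 : q = 1 := by omega
      subst hq1
      rw [Nat.sub_zero, r1 _ _ (by omega) (by omega),
        fst_three hB h6 (by omega) (by omega) (by omega)] at hone
      omega
  · have hp1 : p = 1 := by omega
    subst hp1
    rcases Nat.eq_zero_or_pos q with hq0 | hq0
    · subst hq0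
      exact z0 _ _ (by omega) (by omega) hone
    · have hq1 : q = 1 := by omega
      subst hq1
      exact z1 _ _ (by omega) (by omega) hone

/-- OUT row: no `E` cell ahead of `K + 3`. -/
theorem zone_out (hf : Rule f) {B b K X T : ℕ} (hB : B % 2 = 0) (h6 : 6 ≤ B)
    (hb : (B + b) % 4 = 0) (hT : T + B + 20 ≤ b) (hX : X + 2 ≤ K) (hTh : 2 * (B / 6) + 4 ≤ T)
    (hTX : T + 1 ≤ X)
    (yf : ∀ u v : ℕ, v ≤ u → u % 2 = 1 → v % 2 = 0 → u + 1 ≤ v + 2 * (B / 6) → K + 2 < u →
      ¬ f B b u v)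
    (r1 : St f B (b - 1) (K + 2))
    (r1s : ∀ u v : ℕ, max u v ≤ min u v + 2 * (B / 6) → K + 1 < max u v →
      (f B (b - 1) u v ↔ Fst B (b - 1) u v))
    (z0 : Z0 f (B - 1) b X (T + 1)) (z1 : Z0 f (B - 1) (b - 1) X (T + 1)) :
    Z0 f (B + 1) b (K + 3) T := by
  have main : ∀ x y : ℕ, y ≤ x → K + 3 < x → x < y + T → ¬ f (B + 1) b x y := by
    intro x y hyx hx hd
    by_cases hE : b % 2 = 0 ∧ x % 2 = 0 ∧ y % 2 = 0
    swap
    · exact eonly_Z hf hB (by omega) z0 z1 hE (by omega) (by omega)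
    obtain ⟨hb2, hx2, hy2⟩ := hE
    rcases Nat.lt_or_ge x (y + 2 * (B / 6)) with h1 | h1
    · rcases Nat.eq_or_lt_of_le hyx with h2 | h2
      · subst h2
        have h3 : f B (b - 1) y y := by
          rw [r1s _ _ (by omega) (by omega), fst_three hB h6 (by omega) le_rfl (by omega)]
          right
          exact ⟨rfl, hx2⟩
        exact kill hf h3 (by omega) (by omega) (by omega) (by omega) (by omega)
      · exact out_strip hf hB h6 hb hT hX hTh (by omega) yf r1s
          (fun u v h3 h4 => z0 u v h3 (by omega)) (fun u v h3 h4 => z1 u v h3 (by omega)) hx2 hy2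
          (by omega) (by omega) hx
    · refine bulk_out hf (L := K + 2) (W := 2 * (B / 6)) hB h6 hb hT ?_ le_rfl hx2 hy2 (by omega)
        (by omega) h1 hd
      intro u v h3 h4 h5 hF
      exact (r1 u v (by omega)).2 hF
  intro x y hx hd
  rcases le_total y x with h | h
  · exact main x y h (by omega) (by omega)
  · rw [hf.swap_xy]
    exact main y x h (by omega) (by omega)

/-- IN row, strip, high part. -/
theorem in_strip (hf : Rule f) {B b K X T x y : ℕ} (hB : B % 2 = 0) (h6 : 6 ≤ B)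
    (hb : (B + b) % 4 = 2) (hT : T + B + 20 ≤ b) (hX : X + 2 ≤ K) (hTh : 2 * (B / 6) + 4 ≤ T)
    (hTX : T ≤ X)
    (xf : ∀ u v : ℕ, v < u → u % 2 = 0 → v % 2 = 1 → u + 1 ≤ v + 2 * (B / 6) → K + 4 < v →
      ¬ f B b u v)
    (r3s : ∀ u v : ℕ, max u v + 1 ≤ min u v + 2 * (B / 6) → K + 3 < min u v →
      (f B (b - 1) u v ↔ Fst B (b - 1) u v))
    (z0 : Z0 f (B - 1) b X T) (z1 : Z0 f (B - 1) (b - 1) X T) (hx2 : x % 2 = 0) (hy2 : y % 2 = 0)
    (hyx : y + 2 ≤ x) (hd : x + 2 ≤ y + 2 * (B / 6)) (hy : K + 5 < y) : ¬ f (B + 1) b x y := by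
  intro h
  have h0 : ¬ f B b (x - 1) y := by
    intro h'
    exact kill hf h' (by omega) (by omega) (by omega) (by omega) (by omega) h
  obtain ⟨p, q, r, s, hp, hq, hr, hs, hsum, hpa, hqb, hrx, hsy, hone⟩ :=
    hf.exists_pred (by omega) h0
  rcases Nat.eq_zero_or_pos p with hp0 | hp0
  · subst hp0
    rcases Nat.eq_zero_or_pos q with hq0 | hq0
    · subst hq0
      simp only [Nat.sub_zero] at hone
      have hrs : (r = 0 ∧ s = 1) ∨ (r = 1 ∧ s = 0) ∨ (r = 1 ∧ s = 1) := by omega
      rcases hrs with ⟨rfl, rfl⟩ | ⟨rfl, rfl⟩ | ⟨rfl, rfl⟩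
      · exact kill hf hone (by omega) (by omega) (by omega) (by omega) (by omega) h
      · exact hf.not_allEven hone (by omega)
      · exact xf _ _ (by omega) (by omega) (by omega) (by omega) (by omega) hone
    · have hq1 : q = 1 := by omega
      subst hq1
      rw [Nat.sub_zero, r3s _ _ (by omega) (by omega),
        fst_one hB h6 (by omega) (by omega) (by omega)] at hone
      omega
  · have hp1 : p = 1 := by omega
    subst hp1
    rcases Nat.eq_zero_or_pos q with hq0 | hq0
    · subst hq0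
      exact z0 _ _ (by omega) (by omega) hone
    · have hq1 : q = 1 := by omega
      subst hq1
      exact z1 _ _ (by omega) (by omega) hone

/-- IN row: no cell with both coordinates beyond `K + 5`. -/
theorem zone_in_high (hf : Rule f) {B b K X T : ℕ} (hB : B % 2 = 0) (h6 : 6 ≤ B)
    (hb : (B + b) % 4 = 2) (hT : T + B + 20 ≤ b) (hX : X + 2 ≤ K) (hTh : 2 * (B / 6) + 4 ≤ T)
    (hTX : T + 1 ≤ X)
    (xf : ∀ u v : ℕ, v < u → u % 2 = 0 → v % 2 = 1 → u + 1 ≤ v + 2 * (B / 6) → K + 4 < v →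
      ¬ f B b u v)
    (r3s : ∀ u v : ℕ, max u v + 1 ≤ min u v + 2 * (B / 6) → K + 3 < min u v →
      (f B (b - 1) u v ↔ Fst B (b - 1) u v))
    (r3 : St f B (b - 1) (K + 2 * (B / 6) + 2))
    (z0 : Z0 f (B - 1) b X (T + 1)) (z1 : Z0 f (B - 1) (b - 1) X (T + 1)) :
    ∀ x y : ℕ, K + 5 < min x y → max x y < min x y + T → ¬ f (B + 1) b x y := by
  have main : ∀ x y : ℕ, y ≤ x → K + 5 < y → x < y + T → ¬ f (B + 1) b x y := by
    intro x y hyx hx hd
    by_cases hE : b % 2 = 0 ∧ x % 2 = 0 ∧ y % 2 = 0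
    swap
    · exact eonly_Z hf hB (by omega) z0 z1 hE (by omega) (by omega)
    obtain ⟨hb2, hx2, hy2⟩ := hE
    rcases Nat.lt_or_ge x (y + 2 * (B / 6)) with h1 | h1
    · rcases Nat.eq_or_lt_of_le hyx with h2 | h2
      · subst h2
        have h3 : f B (b - 1) (y - 1) (y - 1) := by
          rw [r3s _ _ (by omega) (by omega), fst_one hB h6 (by omega) le_rfl (by omega)]
          right
          exact ⟨rfl, by omega⟩
        exact kill hf h3 (by omega) (by omega) (by omega) (by omega) (by omega)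
      · exact in_strip hf hB h6 hb hT hX hTh (by omega) xf r3s
          (fun u v h3 h4 => z0 u v h3 (by omega)) (fun u v h3 h4 => z1 u v h3 (by omega)) hx2 hy2
          (by omega) (by omega) hx
    · refine bulk_in hf (L := K + 2 * (B / 6) + 2) (W := 2 * (B / 6)) hB h6 hb hT ?_ le_rfl hx2 hy2
        (by omega) (by omega) h1 hd
      intro u v h3 h4 h5 hF
      exact (r3 u v (by omega)).2 hF
  intro x y hx hd
  rcases le_total y x with h | h
  · exact main x y h (by omega) (by omega)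
  · rw [hf.swap_xy]
    exact main y x h (by omega) (by omega)

/-- IN row, exterior part. -/
theorem zone_in_ext (hf : Rule f) {B b K X T : ℕ} (hB : B % 2 = 0) (h6 : 6 ≤ B)
    (hb : (B + b) % 4 = 2) (hT : T + B + 20 ≤ b) (hX : X + 2 ≤ K) (hTh : 2 * (B / 6) + 4 ≤ T)
    (hTX : T + 1 ≤ X) (hTK : T + 20 ≤ K) (hK2 : K % 2 = 0)
    (yf : ∀ u v : ℕ, v ≤ u → u % 2 = 1 → v % 2 = 0 → u + 1 ≤ v + 2 * (B / 6) → K + 2 < u →
      ¬ f B (b - 2) u v)
    (r2x : ∀ u v : ℕ, min u v + 2 * (B / 6) ≤ max u v → K + 4 < max u v →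
      (f B (b - 2) u v ↔ Fst B (b - 2) u v))
    (l1 : St f (B - 1) (b - 1) X) (l2 : St f (B - 1) (b - 2) X)
    (z0 : Z0 f (B - 1) b X (T + 1)) (z1 : Z0 f (B - 1) (b - 1) X (T + 1))
    (z2 : Z0 f (B - 1) (b - 2) X (T + 1)) {x y : ℕ} (hyx : y + 2 * (B / 6) ≤ x + 1)
    (hx : K + 6 < x) (hd : x < y + T) : ¬ f (B + 1) b x y := by
  by_cases hE : b % 2 = 0 ∧ x % 2 = 0 ∧ y % 2 = 0
  swap
  · exact eonly_Z hf hB (by omega) z0 z1 hE (by omega) (by omega)
  obtain ⟨hb2, hx2, hy2⟩ := hE
  rcases Nat.lt_or_ge x (y + 2 * (B / 6) + 1) with h1 | h1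
  · -- the wall
    intro h
    have e : x = y + 2 * (B / 6) := by omega
    have h0 : ¬ f B (b - 1) x y := by
      intro h'
      exact kill hf h' (by omega) (by omega) (by omega) (by omega) (by omega) h
    obtain ⟨p, q, r, s, hp, hq, hr, hs, hsum, hpa, hqb, hrx, hsy, hone⟩ :=
      hf.exists_pred (by omega) h0
    rcases Nat.eq_zero_or_pos p with hp0 | hp0
    · subst hp0
      rcases Nat.eq_zero_or_pos q with hq0 | hq0
      · subst hq0
        exact kill hf hone (by omega) (by omega) (by omega) (by omega) (by omega) h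
      · have hq1 : q = 1 := by omega
        subst hq1
        have e3 : b - 1 - 1 = b - 2 := by omega
        rw [e3, Nat.sub_zero] at hone
        have hrs : (r = 0 ∧ s = 0) ∨ (r = 1 ∧ s = 0) ∨ s = 1 := by omega
        rcases hrs with ⟨rfl, rfl⟩ | ⟨rfl, rfl⟩ | rfl
        · exact hf.not_allEven hone (by omega)
        · exact yf _ _ (by omega) (by omega) (by omega) (by omega) (by omega) hone
        · rw [r2x _ _ (by omega) (by omega),
            fst_zero hB (by omega) (by omega) (by omega)] at hone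
          omega
    · have hp1 : p = 1 := by omega
      subst hp1
      rcases Nat.eq_zero_or_pos q with hq0 | hq0
      · subst hq0
        exact z1 _ _ (by omega) (by omega) hone
      · have hq1 : q = 1 := by omega
        subst hq1
        have e3 : b - 1 - 1 = b - 2 := by omega
        rw [e3] at hone
        exact z2 _ _ (by omega) (by omega) hone
  · refine bulk_in hf (L := K + 6) (W := 2 * (B / 6) + 2) hB h6 hb hT ?_ (by omega) hx2 hy2
        (by omega) (by omega) (by omega) hd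
    intro u v h3 h4 h5 hF
    refine one_loc hf (L := K + 4) (D := 2 * (B / 6)) (by omega) (by omega) (by omega) (by omega)
      (by omega) (by omega) ?_ hF
    intro u v huv hu hd' p q hp hq hpq hpa hqb
    rcases Nat.eq_zero_or_pos p with hp0 | hp0
    · subst hp0
      have hq1 : q = 1 := by omega
      subst hq1
      have e3 : b - 1 - 1 = b - 2 := by omega
      rw [e3]
      exact r2x u v (by omega) (by omega)
    · have hp1 : p = 1 := by omega
      subst hp1
      rcases Nat.eq_zero_or_pos q with hq0 | hq0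
      · subst hq0
        exact l1 u v (by omega)
      · have hq1 : q = 1 := by omega
        subst hq1
        have e3 : b - 1 - 1 = b - 2 := by omega
        rw [e3]
        exact l2 u v (by omega)

end LocZ

end Pool.Agent.SNT
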