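import Pool.Agent.SNT.NWB

set_option autoImplicit false
set_option synthInstance.maxSize 100000
set_option synthInstance.maxHeartbeats 4000000

/-! the corner implication, part 1, and the purity of 6 k + 2 at x = 2 n + 5 -/

namespace Pool.Agent.SNT.NDB

open Pool.Agent.SNT Pool.Agent.SNT.Loc Pool.Agent.SNT.LW Pool.Agent.SNT.NHZ Pool.Agent.SNT.NW

variable {f : ℕ → ℕ → ℕ → ℕ → Prop}

theorem u25_a_chk : check 4 8 6 5 0 0 1 1 2
    (fun j n p q => decide ((j = 2 ∧ n = 1 ∧ q ≤ p + 0 ∧ (p = q ∧ p % 2 = 0))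
      ∨ (j = 4 ∧ n = 6 ∧ p = 4 ∧ q = 3)
      ∨ (j = 4 ∧ n = 4 ∧ p = 2 ∧ q = 1)))
    (fun j n p q => decide ((j = 2 ∧ n = 1 ∧ q ≤ p + 0 ∧ ¬ (p = q ∧ p % 2 = 0))
      ∨ (j = 1 ∧ n = 1 ∧ q ≤ p + 0)
      ∨ (j = 1 ∧ n = 2 ∧ q ≤ p + 0)
      ∨ (j = 1 ∧ n = 3 ∧ q ≤ p + 0)
      ∨ (j = 1 ∧ n = 4 ∧ q ≤ p + 0)
      ∨ (j = 1 ∧ n = 5 ∧ q ≤ p + 0)
      ∨ (j = 1 ∧ n = 6 ∧ q ≤ p + 0)))
    78
    0x1410301b90002345a01320301aa0001aa0401260001260101410301b90002345a01230001230401238e01410301b90002345a01200001231a01258001238001238e012384012f8e019e0301ad00023462012f80012f84019b8e023683019d80019b80019b8e019b8401ac8e01348301ac8001ac8401bb8e021f8002458002218002218e01050000c88e00b98e00ad8e00aa8e009e8e009b8e02458f02250702218f013407012f0701170701110701050f00c90700c88700c60700bc8700bc0700ba0700b98700b70700ae0700ad8700ad0700ab0700aa8700a807009f07009e87009c07009b87009907 = true := by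
  decide +kernel

theorem u25_a (hf : Rule f) {k c n : ℕ} (H : NWJ f k c n)
    (LW : ∀ M R x y : ℕ, M + 1 = 6 * k → c ≤ R + 12 → R ≤ c + 12 → 2 * n ≤ x + 20 → y ≤ x → x ≤ y + 4 * k → ¬ f M R x y)
    (C0 : Cyc f (6 * k) (c - 6) (2 * (n - 7) + 2))
    (h32 : f (6 * k + 2) (c) (2 * n + 3) (2 * n + 2)) :
    ¬ f (6 * k + 2) (c + 2) (2 * n + 5) (2 * n + 4) := by
  intro hg
  have hk := H.T.hk
  have hc := H.T.hc
  have h4 := H.T.h4
  have hb := H.T.hb
  have hN := H.T.hN2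
  have hg' : ∀ M R x y : ℕ, M = 6 * k + 2 → R = c + 2 → x = 2 * n + 5 → y = 2 * n + 4 → f M R x y := by
    intro M R x y e1 e2 e3 e4
    rw [e1, e2, e3, e4]
    exact hg
  clear hg
  have h32' : ∀ M R x y : ℕ, M = 6 * k + 2 → R = c → x = 2 * n + 3 → y = 2 * n + 2 → f M R x y := by
    intro M R x y e1 e2 e3 e4
    rw [e1, e2, e3, e4]
    exact h32
  clear h32
  obtain ⟨a0, ha0⟩ : ∃ z, z + 2 = 6 * k := ⟨6 * k - 2, by omega⟩
  obtain ⟨b0, hb0⟩ : ∃ z, z + 4 = c := ⟨c - 4, by omega⟩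
  obtain ⟨x0, hx0⟩ : ∃ z, z = 2 * n + 1 := ⟨_, rfl⟩
  obtain ⟨y0, hy0⟩ : ∃ z, z = 2 * n + 1 := ⟨_, rfl⟩
  refine check_sound hf (a0 := a0) (b0 := b0) (x0 := x0) (y0 := y0) u25_a_chk
    ⟨fun _ => by omega, fun h => absurd h (by decide), fun h => absurd h (by decide), by omega, by omega,
      by omega, by omega⟩ ?_ ?_
  · intro j m p q hr h
    obtain ⟨-, -, -, -, hp1, hp2, hq1, hq2⟩ := hr
    replace h := of_decide_eq_true h
    rcases h with h | h | h
    · obtain ⟨rfl, rfl, h⟩ := h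
      exact (WrapC.v3 C0 (by omega) (by omega) (by omega) (by omega) (by omega) (by omega) (by omega) (by omega)).mpr (by omega)
    · obtain ⟨rfl, rfl, rfl, rfl⟩ := h
      exact hg' _ _ _ _ (by omega) (by omega) (by omega) (by omega)
    · obtain ⟨rfl, rfl, rfl, rfl⟩ := h
      exact h32' _ _ _ _ (by omega) (by omega) (by omega) (by omega)
  · intro j m p q hr h
    obtain ⟨-, -, -, -, hp1, hp2, hq1, hq2⟩ := hr
    replace h := of_decide_eq_true h
    rcases h with h | h | h | h | h | h | h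
    · obtain ⟨rfl, rfl, h⟩ := h
      exact mt (WrapC.v3 C0 (by omega) (by omega) (by omega) (by omega) (by omega) (by omega) (by omega) (by omega)).mp (by omega)
    · obtain ⟨rfl, rfl, h⟩ := h
      exact LW _ _ _ _ (by omega) (by omega) (by omega) (by omega) (by omega) (by omega)
    · obtain ⟨rfl, rfl, h⟩ := h
      exact LW _ _ _ _ (by omega) (by omega) (by omega) (by omega) (by omega) (by omega)
    · obtain ⟨rfl, rfl, h⟩ := h
      exact LW _ _ _ _ (by omega) (by omega) (by omega) (by omega) (by omega) (by omega)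
    · obtain ⟨rfl, rfl, h⟩ := h
      exact LW _ _ _ _ (by omega) (by omega) (by omega) (by omega) (by omega) (by omega)
    · obtain ⟨rfl, rfl, h⟩ := h
      exact LW _ _ _ _ (by omega) (by omega) (by omega) (by omega) (by omega) (by omega)
    · obtain ⟨rfl, rfl, h⟩ := h
      exact LW _ _ _ _ (by omega) (by omega) (by omega) (by omega) (by omega) (by omega)

theorem u25_b0_chk : check 4 8 8 7 0 0 1 1 2
    (fun j n p q => decide ((j = 4 ∧ n = 3 ∧ q ≤ p + 0 ∧ (p = q ∧ p % 2 = 0))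
      ∨ (j = 2 ∧ n = 1 ∧ q ≤ p + 0 ∧ (p = q ∧ p % 2 = 0))
      ∨ (j = 4 ∧ n = 6 ∧ p = 6 ∧ q = 5)
      ∨ (j = 4 ∧ n = 4 ∧ p = 2 ∧ q = 1)))
    (fun j n p q => decide ((j = 4 ∧ n = 3 ∧ q ≤ p + 0 ∧ ¬ (p = q ∧ p % 2 = 0))
      ∨ (j = 2 ∧ n = 1 ∧ q ≤ p + 0 ∧ ¬ (p = q ∧ p % 2 = 0))
      ∨ (j = 1 ∧ n = 1 ∧ q ≤ p + 0)
      ∨ (j = 1 ∧ n = 2 ∧ q ≤ p + 0)
      ∨ (j = 1 ∧ n = 3 ∧ q ≤ p + 0)
      ∨ (j = 1 ∧ n = 4 ∧ q ≤ p + 0)
      ∨ (j = 1 ∧ n = 5 ∧ q ≤ p + 0)
      ∨ (j = 1 ∧ n = 6 ∧ q ≤ p + 0)))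
    107
    0x2540303340004185a02380303180003180403378e025783033780033784041c0004201a025c03033c00033c04030803032400032404031b8e023b83031b80031b8402400303200003200402238e02078302238002238403238e02438303238003238403078e042383030780030784033f8e041f8e03f480043f8003f78003f78e03e40003dc0001ec0001e400017b8e01738e015f8e01578e01438e013b8e043f8f04040703fc0703f78f03e40f03dc0f024307023c07023b07023407020c0702040701ec0f01eb8701eb0701e80701e78701e40f017c07017b87017807017787017707017407017387017007016387016307016007015f87015c07015b87015b07015807015787015407014787014707014407014387014007013f87013f07013c07013b87013807012787012707012407012387010b87010b07010807010787 = true := by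
  decide +kernel

theorem u25_b0 (hf : Rule f) {k c n : ℕ} (H : NWJ f k c n)
    (LW : ∀ M R x y : ℕ, M + 1 = 6 * k → c ≤ R + 12 → R ≤ c + 12 → 2 * n ≤ x + 20 → y ≤ x → x ≤ y + 4 * k → ¬ f M R x y)
    (C0 : Cyc f (6 * k) (c - 6) (2 * (n - 7) + 2))
    (h10 : f (6 * k + 2) (c) (2 * n + 1) (2 * n)) :
    ¬ f (6 * k + 2) (c + 2) (2 * n + 5) (2 * n + 4) := by
  intro hg
  have hk := H.T.hk
  have hc := H.T.hc
  have h4 := H.T.h4
  have hb := H.T.hb
  have hN := H.T.hN2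
  have hg' : ∀ M R x y : ℕ, M = 6 * k + 2 → R = c + 2 → x = 2 * n + 5 → y = 2 * n + 4 → f M R x y := by
    intro M R x y e1 e2 e3 e4
    rw [e1, e2, e3, e4]
    exact hg
  clear hg
  have h10' : ∀ M R x y : ℕ, M = 6 * k + 2 → R = c → x = 2 * n + 1 → y = 2 * n → f M R x y := by
    intro M R x y e1 e2 e3 e4
    rw [e1, e2, e3, e4]
    exact h10
  clear h10
  obtain ⟨a0, ha0⟩ : ∃ z, z + 2 = 6 * k := ⟨6 * k - 2, by omega⟩
  obtain ⟨b0, hb0⟩ : ∃ z, z + 4 = c := ⟨c - 4, by omega⟩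
  obtain ⟨x0, hx0⟩ : ∃ z, z + 1 = 2 * n := ⟨2 * n - 1, by omega⟩
  obtain ⟨y0, hy0⟩ : ∃ z, z + 1 = 2 * n := ⟨2 * n - 1, by omega⟩
  refine check_sound hf (a0 := a0) (b0 := b0) (x0 := x0) (y0 := y0) u25_b0_chk
    ⟨fun _ => by omega, fun h => absurd h (by decide), fun h => absurd h (by decide), by omega, by omega,
      by omega, by omega⟩ ?_ ?_
  · intro j m p q hr h
    obtain ⟨-, -, -, -, hp1, hp2, hq1, hq2⟩ := hr
    replace h := of_decide_eq_true h
    rcases h with h | h | h | h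
    · obtain ⟨rfl, rfl, h⟩ := h
      exact (WrapC.v3 H.c2 (by omega) (by omega) (by omega) (by omega) (by omega) (by omega) (by omega) (by omega)).mpr (by omega)
    · obtain ⟨rfl, rfl, h⟩ := h
      exact (WrapC.v3 C0 (by omega) (by omega) (by omega) (by omega) (by omega) (by omega) (by omega) (by omega)).mpr (by omega)
    · obtain ⟨rfl, rfl, rfl, rfl⟩ := h
      exact hg' _ _ _ _ (by omega) (by omega) (by omega) (by omega)
    · obtain ⟨rfl, rfl, rfl, rfl⟩ := h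
      exact h10' _ _ _ _ (by omega) (by omega) (by omega) (by omega)
  · intro j m p q hr h
    obtain ⟨-, -, -, -, hp1, hp2, hq1, hq2⟩ := hr
    replace h := of_decide_eq_true h
    rcases h with h | h | h | h | h | h | h | h
    · obtain ⟨rfl, rfl, h⟩ := h
      exact mt (WrapC.v3 H.c2 (by omega) (by omega) (by omega) (by omega) (by omega) (by omega) (by omega) (by omega)).mp (by omega)
    · obtain ⟨rfl, rfl, h⟩ := h
      exact mt (WrapC.v3 C0 (by omega) (by omega) (by omega) (by omega) (by omega) (by omega) (by omega) (by omega)).mp (by omega)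
    · obtain ⟨rfl, rfl, h⟩ := h
      exact LW _ _ _ _ (by omega) (by omega) (by omega) (by omega) (by omega) (by omega)
    · obtain ⟨rfl, rfl, h⟩ := h
      exact LW _ _ _ _ (by omega) (by omega) (by omega) (by omega) (by omega) (by omega)
    · obtain ⟨rfl, rfl, h⟩ := h
      exact LW _ _ _ _ (by omega) (by omega) (by omega) (by omega) (by omega) (by omega)
    · obtain ⟨rfl, rfl, h⟩ := h
      exact LW _ _ _ _ (by omega) (by omega) (by omega) (by omega) (by omega) (by omega)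
    · obtain ⟨rfl, rfl, h⟩ := h
      exact LW _ _ _ _ (by omega) (by omega) (by omega) (by omega) (by omega) (by omega)
    · obtain ⟨rfl, rfl, h⟩ := h
      exact LW _ _ _ _ (by omega) (by omega) (by omega) (by omega) (by omega) (by omega)

theorem c8_f1a_chk : check 9 7 7 7 0 0 1 1 2
    (fun j n p q => decide ((j = 4 ∧ n = 2 ∧ q ≤ p + 0 ∧ ((p + q) % 2 = 1 ∧ p % 2 = 1))
      ∨ (j = 4 ∧ n = 3 ∧ q ≤ p + 0 ∧ (p = q ∧ p % 2 = 0))
      ∨ (j = 8 ∧ n = 3 ∧ q ≤ p + 0 ∧ (p = q ∧ p % 2 = 0))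
      ∨ (j = 2 ∧ n = 1 ∧ q ≤ p + 0 ∧ (p = q ∧ p % 2 = 0))
      ∨ (j = 6 ∧ n = 5 ∧ p = 5 ∧ q = 5)
      ∨ (j = 6 ∧ n = 2 ∧ p = 2 ∧ q = 1)))
    (fun j n p q => decide ((j = 4 ∧ n = 2 ∧ q ≤ p + 0 ∧ ¬ ((p + q) % 2 = 1 ∧ p % 2 = 1))
      ∨ (j = 4 ∧ n = 3 ∧ q ≤ p + 0 ∧ ¬ (p = q ∧ p % 2 = 0))
      ∨ (j = 8 ∧ n = 3 ∧ q ≤ p + 0 ∧ ¬ (p = q ∧ p % 2 = 0))
      ∨ (j = 2 ∧ n = 1 ∧ q ≤ p + 0 ∧ ¬ (p = q ∧ p % 2 = 0))
      ∨ (j = 1 ∧ n = 1 ∧ q ≤ p + 0)
      ∨ (j = 1 ∧ n = 2 ∧ q ≤ p + 0)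
      ∨ (j = 1 ∧ n = 3 ∧ q ≤ p + 0)
      ∨ (j = 6 ∧ n = 3 ∧ q + 2 ≤ p)
      ∨ (j = 9 ∧ n = 3 ∧ q + 1 ≤ p)
      ∨ (j = 1 ∧ n = 4 ∧ q ≤ p + 0)
      ∨ (j = 7 ∧ n = 4 ∧ q + 2 ≤ p)
      ∨ (j = 9 ∧ n = 4 ∧ q + 1 ≤ p)
      ∨ (j = 1 ∧ n = 5 ∧ q ≤ p + 0)))
    185
    0x67903051e00052192048f0004931a01c203026d80031cd201ac8001ac8101c883027400031fc201c80302738002738401a88001a88402700e01c48302700002700401ac0e031f8301ac0001ac0402550e01a98302550002550403c80003cb0003cb0e03cb0405258304928004928403ce8303e70003e70403e08e03c80303e08003e08405258304758004758402548e01a903025480025484046183050d00050d04050903050c80050c8406790305090005090404ff8e06728304ff8004ff8403cb0303ce8003ce84045a80050642043a8002e78006788e06780e06748e06600e065f8e065c0e05b58005b48e05b40e05b08e05ad80049380043d80043d8e03078003070e03068e02ff8002f18002ea8002ea8e017780011c8e011c0e01190e01188e01040e01038e01008e01000e00fc8e00eb8e00eb0e00e80e00e78e00e40e067907067887067807067507067487066087066007065f87065c87065c0705ca0705c30705b58f05b50705b48705b40705b18705b10705b08705ad8f052587052507052187052107051d8704938f047a07047207046187046107045d87045d07045987044907044207044107043d8f032307031c07030a87030a0703078f03070703068703038703030702ff8f02f18f02ea8f01c50701c40701be07019407018d0701778f011d07011c87011c0701198701190701188701158701150701048701040701038701010701008701000700fd0700fc8700eb8700eb0700e88700e80700e78700e48700e407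 = true := by
  decide +kernel

theorem c8_f1a (hf : Rule f) {k c n : ℕ} (H : NWJ f k c n)
    (LW : ∀ M R x y : ℕ, M + 1 = 6 * k → c ≤ R + 12 → R ≤ c + 12 → 2 * n ≤ x + 20 → y ≤ x → x ≤ y + 4 * k → ¬ f M R x y)
    (C0 : Cyc f (6 * k) (c - 6) (2 * (n - 7) + 2))
    (U2 : ∀ M R x y : ℕ, M = 6 * k + 2 → R = c + 2 → y = 2 * n + 4 → x % 2 = 1 → 2 * n + 5 ≤ x →
      x + 5 ≤ 2 * n + 2 * k → ¬ f M R x y)
    (U6 : ∀ M R x y : ℕ, M = 6 * k + 6 → R = c + 2 → y = 2 * n + 4 → x % 2 = 1 → 2 * n + 7 ≤ x →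
      x + 5 ≤ 2 * n + 2 * k → ¬ f M R x y)
    (ht1 : f (6 * k + 4) (c - 2) (2 * n - 1) (2 * n - 2)) :
    ¬ f (6 * k + 4) (c + 1) (2 * n + 2) (2 * n + 2) := by
  intro hg
  have hk := H.T.hk
  have hc := H.T.hc
  have h4 := H.T.h4
  have hb := H.T.hb
  have hN := H.T.hN2
  have hg' : ∀ M R x y : ℕ, M = 6 * k + 4 → R = c + 1 → x = 2 * n + 2 → y = 2 * n + 2 → f M R x y := by
    intro M R x y e1 e2 e3 e4
    rw [e1, e2, e3, e4]
    exact hg
  clear hg
  have ht1' : ∀ M R x y : ℕ, M = 6 * k + 4 → R = c - 2 → x = 2 * n - 1 → y = 2 * n - 2 → f M R x y := by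
    intro M R x y e1 e2 e3 e4
    rw [e1, e2, e3, e4]
    exact ht1
  clear ht1
  obtain ⟨a0, ha0⟩ : ∃ z, z + 2 = 6 * k := ⟨6 * k - 2, by omega⟩
  obtain ⟨b0, hb0⟩ : ∃ z, z + 4 = c := ⟨c - 4, by omega⟩
  obtain ⟨x0, hx0⟩ : ∃ z, z + 3 = 2 * n := ⟨2 * n - 3, by omega⟩
  obtain ⟨y0, hy0⟩ : ∃ z, z + 3 = 2 * n := ⟨2 * n - 3, by omega⟩
  refine check_sound hf (a0 := a0) (b0 := b0) (x0 := x0) (y0 := y0) c8_f1a_chk
    ⟨fun _ => by omega, fun h => absurd h (by decide), fun h => absurd h (by decide), by omega, by omega,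
      by omega, by omega⟩ ?_ ?_
  · intro j m p q hr h
    obtain ⟨-, -, -, -, hp1, hp2, hq1, hq2⟩ := hr
    replace h := of_decide_eq_true h
    rcases h with h | h | h | h | h | h
    · obtain ⟨rfl, rfl, h⟩ := h
      exact (WrapC.v2 H.c2 (by omega) (by omega) (by omega) (by omega) (by omega) (by omega) (by omega)).mpr (by omega)
    · obtain ⟨rfl, rfl, h⟩ := h
      exact (WrapC.v3 H.c2 (by omega) (by omega) (by omega) (by omega) (by omega) (by omega) (by omega) (by omega)).mpr (by omega)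
    · obtain ⟨rfl, rfl, h⟩ := h
      exact (WrapC.v3 H.c6 (by omega) (by omega) (by omega) (by omega) (by omega) (by omega) (by omega) (by omega)).mpr (by omega)
    · obtain ⟨rfl, rfl, h⟩ := h
      exact (WrapC.v3 C0 (by omega) (by omega) (by omega) (by omega) (by omega) (by omega) (by omega) (by omega)).mpr (by omega)
    · obtain ⟨rfl, rfl, rfl, rfl⟩ := h
      exact hg' _ _ _ _ (by omega) (by omega) (by omega) (by omega)
    · obtain ⟨rfl, rfl, rfl, rfl⟩ := h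
      exact ht1' _ _ _ _ (by omega) (by omega) (by omega) (by omega)
  · intro j m p q hr h
    obtain ⟨-, -, -, -, hp1, hp2, hq1, hq2⟩ := hr
    replace h := of_decide_eq_true h
    rcases h with h | h | h | h | h | h | h | h | h | h | h | h | h
    · obtain ⟨rfl, rfl, h⟩ := h
      exact mt (WrapC.v2 H.c2 (by omega) (by omega) (by omega) (by omega) (by omega) (by omega) (by omega)).mp (by omega)
    · obtain ⟨rfl, rfl, h⟩ := h
      exact mt (WrapC.v3 H.c2 (by omega) (by omega) (by omega) (by omega) (by omega) (by omega) (by omega) (by omega)).mp (by omega)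
    · obtain ⟨rfl, rfl, h⟩ := h
      exact mt (WrapC.v3 H.c6 (by omega) (by omega) (by omega) (by omega) (by omega) (by omega) (by omega) (by omega)).mp (by omega)
    · obtain ⟨rfl, rfl, h⟩ := h
      exact mt (WrapC.v3 C0 (by omega) (by omega) (by omega) (by omega) (by omega) (by omega) (by omega) (by omega)).mp (by omega)
    · obtain ⟨rfl, rfl, h⟩ := h
      exact LW _ _ _ _ (by omega) (by omega) (by omega) (by omega) (by omega) (by omega)
    · obtain ⟨rfl, rfl, h⟩ := h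
      exact LW _ _ _ _ (by omega) (by omega) (by omega) (by omega) (by omega) (by omega)
    · obtain ⟨rfl, rfl, h⟩ := h
      exact LW _ _ _ _ (by omega) (by omega) (by omega) (by omega) (by omega) (by omega)
    · obtain ⟨rfl, rfl, h⟩ := h
      exact rm1 hf H.T (p := 0) (j := 1) (by omega) (by omega) (by omega) (by omega) (by omega) (by omega) (by omega)
    · obtain ⟨rfl, rfl, h⟩ := h
      exact rm1 hf H.T (p := 1) (j := 0) (by omega) (by omega) (by omega) (by omega) (by omega) (by omega) (by omega)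
    · obtain ⟨rfl, rfl, h⟩ := h
      exact LW _ _ _ _ (by omega) (by omega) (by omega) (by omega) (by omega) (by omega)
    · obtain ⟨rfl, rfl, h⟩ := h
      exact NHT.p0 hf H.T (j := 1) (by omega) (by omega) (by omega) (by omega) (by omega) (by omega)
    · obtain ⟨rfl, rfl, h⟩ := h
      exact NHT.p0 hf H.T (j := 0) (by omega) (by omega) (by omega) (by omega) (by omega) (by omega)
    · obtain ⟨rfl, rfl, h⟩ := h
      exact LW _ _ _ _ (by omega) (by omega) (by omega) (by omega) (by omega) (by omega)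

theorem c8_f1b_chk : check 6 7 9 9 0 0 1 1 2
    (fun j n p q => decide ((j = 4 ∧ n = 1 ∧ q ≤ p + 0 ∧ (p = q ∧ p % 2 = 1))
      ∨ (j = 4 ∧ n = 2 ∧ q ≤ p + 0 ∧ ((p + q) % 2 = 1 ∧ p % 2 = 1))
      ∨ (j = 4 ∧ n = 3 ∧ q ≤ p + 0 ∧ (p = q ∧ p % 2 = 0))
      ∨ (j = 2 ∧ n = 1 ∧ q ≤ p + 0 ∧ (p = q ∧ p % 2 = 0))
      ∨ (j = 6 ∧ n = 5 ∧ p = 7 ∧ q = 7)
      ∨ (j = 6 ∧ n = 2 ∧ p = 2 ∧ q = 1)
      ∨ (j = 6 ∧ n = 2 ∧ p = 6 ∧ q = 5)))
    (fun j n p q => decide ((j = 4 ∧ n = 1 ∧ q ≤ p + 0 ∧ ¬ (p = q ∧ p % 2 = 1))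
      ∨ (j = 4 ∧ n = 2 ∧ q ≤ p + 0 ∧ ¬ ((p + q) % 2 = 1 ∧ p % 2 = 1))
      ∨ (j = 4 ∧ n = 3 ∧ q ≤ p + 0 ∧ ¬ (p = q ∧ p % 2 = 0))
      ∨ (j = 2 ∧ n = 1 ∧ q ≤ p + 0 ∧ ¬ (p = q ∧ p % 2 = 0))
      ∨ (j = 1 ∧ n = 1 ∧ q ≤ p + 0)
      ∨ (j = 1 ∧ n = 2 ∧ q ≤ p + 0)
      ∨ (j = 1 ∧ n = 3 ∧ q ≤ p + 0)
      ∨ (j = 6 ∧ n = 3 ∧ q + 2 ≤ p)
      ∨ (j = 1 ∧ n = 4 ∧ q ≤ p + 0)
      ∨ (j = 1 ∧ n = 5 ∧ q ≤ p + 0)
      ∨ (j = 6 ∧ n = 2 ∧ p = 4 ∧ q = 3)))
    283
    0x2e40303ff80051fd202ba8002bf9a02e40303ff80051fd202e38303ff0003ff0402bf8002bf8402bf0e05238302bf0002bf04063f00063b00075fda075bda063b8e063b03063b80063b8407608007648007659a07699a06490e02c983040d80052dd206490006490402f60304118004118402f68304120004120404080e02ec8304080004080404090e02ed8304090004090402ca0e02a18302ca0002ca0402a50302cd8002cd8402a48302cd0002cd0402cd8303e90003e90403df0e02c38303df0003df0402bb8e02930302bb8002bb8402c88e029b8302c88002c88402c00e02978302c00002c0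0402c90303e48003e48403da8e02bf0303da8003da8402938e02930302938002938406458e064503064580064584072d80070f80072d8106fb8004d48004d38004ca8004c98007928007408e07368e07138007138e06ff8006ff8e05058005050e05048e04fb8004fb0e04fa8e04f18004e18004e08004e08e04d78004d78e04d68004d68e04cd8004cd8e04a580049b80027d0e027c8e02738002730e02728e02720e026d8e02698001d60e01d58e01d10e01d08e01d00e01cc0e01cb8e01c70e01ad8e01ad0e01a88e01a80e01a78e01a38e01a30e019e8e018a0e01898e01850e01800e017f8e017f0e017b0e017a8e01618e01610e015c8e01578e01570e01568e01528e01520e07928f076907076107075f0707570707408707368707138f07050706ff8f052907051f0705058f05050705048705008705000704fb8f04fb0704fa8704f68704f60704f18f04e18f04e08f04d78f04d68f04cd8f04a58f049b8f02f20702f10702e90702e80702df0702a10702a007029707029607028e07027d07027c87027c07027b8702788702780702778702770702738f027307027287027207026e87026e07026d8702698f01db0701da8701da0701d68701d60701d58701d18701d10701d08701d00701cc8701cc0701cb8701c78701c70701b28701b20701b18701ae0701ad8701ad0701a90701a88701a80701a78701a40701a38701a307019f07019e87018a07018987018907018887018587018507018487018407018087018007017f87017f07017b87017b07017a87017687017607016187016107016087016007015d07015c87015c07015b87015787015707015687015307015287015207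 = true := by
  decide +kernel

theorem c8_f1b (hf : Rule f) {k c n : ℕ} (H : NWJ f k c n)
    (LW : ∀ M R x y : ℕ, M + 1 = 6 * k → c ≤ R + 12 → R ≤ c + 12 → 2 * n ≤ x + 20 → y ≤ x → x ≤ y + 4 * k → ¬ f M R x y)
    (C0 : Cyc f (6 * k) (c - 6) (2 * (n - 7) + 2))
    (U2 : ∀ M R x y : ℕ, M = 6 * k + 2 → R = c + 2 → y = 2 * n + 4 → x % 2 = 1 → 2 * n + 5 ≤ x →
      x + 5 ≤ 2 * n + 2 * k → ¬ f M R x y)
    (U6 : ∀ M R x y : ℕ, M = 6 * k + 6 → R = c + 2 → y = 2 * n + 4 → x % 2 = 1 → 2 * n + 7 ≤ x →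
      x + 5 ≤ 2 * n + 2 * k → ¬ f M R x y)
    (ht2 : f (6 * k + 4) (c - 2) (2 * n - 3) (2 * n - 4))
    (hu1 : ¬ f (6 * k + 4) (c - 2) (2 * n - 1) (2 * n - 2))
    (ht0 : f (6 * k + 4) (c - 2) (2 * n + 1) (2 * n)) :
    ¬ f (6 * k + 4) (c + 1) (2 * n + 2) (2 * n + 2) := by
  intro hg
  have hk := H.T.hk
  have hc := H.T.hc
  have h4 := H.T.h4
  have hb := H.T.hb
  have hN := H.T.hN2
  have hg' : ∀ M R x y : ℕ, M = 6 * k + 4 → R = c + 1 → x = 2 * n + 2 → y = 2 * n + 2 → f M R x y := by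
    intro M R x y e1 e2 e3 e4
    rw [e1, e2, e3, e4]
    exact hg
  clear hg
  have ht2' : ∀ M R x y : ℕ, M = 6 * k + 4 → R = c - 2 → x = 2 * n - 3 → y = 2 * n - 4 → f M R x y := by
    intro M R x y e1 e2 e3 e4
    rw [e1, e2, e3, e4]
    exact ht2
  clear ht2
  have hu1' : ∀ M R x y : ℕ, M = 6 * k + 4 → R = c - 2 → x = 2 * n - 1 → y = 2 * n - 2 → ¬ f M R x y := by
    intro M R x y e1 e2 e3 e4
    rw [e1, e2, e3, e4]
    exact hu1
  clear hu1
  have ht0' : ∀ M R x y : ℕ, M = 6 * k + 4 → R = c - 2 → x = 2 * n + 1 → y = 2 * n → f M R x y := by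
    intro M R x y e1 e2 e3 e4
    rw [e1, e2, e3, e4]
    exact ht0
  clear ht0
  obtain ⟨a0, ha0⟩ : ∃ z, z + 2 = 6 * k := ⟨6 * k - 2, by omega⟩
  obtain ⟨b0, hb0⟩ : ∃ z, z + 4 = c := ⟨c - 4, by omega⟩
  obtain ⟨x0, hx0⟩ : ∃ z, z + 5 = 2 * n := ⟨2 * n - 5, by omega⟩
  obtain ⟨y0, hy0⟩ : ∃ z, z + 5 = 2 * n := ⟨2 * n - 5, by omega⟩
  refine check_sound hf (a0 := a0) (b0 := b0) (x0 := x0) (y0 := y0) c8_f1b_chk
    ⟨fun _ => by omega, fun h => absurd h (by decide), fun h => absurd h (by decide), by omega, by omega,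
      by omega, by omega⟩ ?_ ?_
  · intro j m p q hr h
    obtain ⟨-, -, -, -, hp1, hp2, hq1, hq2⟩ := hr
    replace h := of_decide_eq_true h
    rcases h with h | h | h | h | h | h | h
    · obtain ⟨rfl, rfl, h⟩ := h
      exact (WrapC.v1 H.c2 (by omega) (by omega) (by omega) (by omega) (by omega) (by omega) (by omega) (by omega)).mpr (by omega)
    · obtain ⟨rfl, rfl, h⟩ := h
      exact (WrapC.v2 H.c2 (by omega) (by omega) (by omega) (by omega) (by omega) (by omega) (by omega)).mpr (by omega)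
    · obtain ⟨rfl, rfl, h⟩ := h
      exact (WrapC.v3 H.c2 (by omega) (by omega) (by omega) (by omega) (by omega) (by omega) (by omega) (by omega)).mpr (by omega)
    · obtain ⟨rfl, rfl, h⟩ := h
      exact (WrapC.v3 C0 (by omega) (by omega) (by omega) (by omega) (by omega) (by omega) (by omega) (by omega)).mpr (by omega)
    · obtain ⟨rfl, rfl, rfl, rfl⟩ := h
      exact hg' _ _ _ _ (by omega) (by omega) (by omega) (by omega)
    · obtain ⟨rfl, rfl, rfl, rfl⟩ := h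
      exact ht2' _ _ _ _ (by omega) (by omega) (by omega) (by omega)
    · obtain ⟨rfl, rfl, rfl, rfl⟩ := h
      exact ht0' _ _ _ _ (by omega) (by omega) (by omega) (by omega)
  · intro j m p q hr h
    obtain ⟨-, -, -, -, hp1, hp2, hq1, hq2⟩ := hr
    replace h := of_decide_eq_true h
    rcases h with h | h | h | h | h | h | h | h | h | h | h
    · obtain ⟨rfl, rfl, h⟩ := h
      exact mt (WrapC.v1 H.c2 (by omega) (by omega) (by omega) (by omega) (by omega) (by omega) (by omega) (by omega)).mp (by omega)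
    · obtain ⟨rfl, rfl, h⟩ := h
      exact mt (WrapC.v2 H.c2 (by omega) (by omega) (by omega) (by omega) (by omega) (by omega) (by omega)).mp (by omega)
    · obtain ⟨rfl, rfl, h⟩ := h
      exact mt (WrapC.v3 H.c2 (by omega) (by omega) (by omega) (by omega) (by omega) (by omega) (by omega) (by omega)).mp (by omega)
    · obtain ⟨rfl, rfl, h⟩ := h
      exact mt (WrapC.v3 C0 (by omega) (by omega) (by omega) (by omega) (by omega) (by omega) (by omega) (by omega)).mp (by omega)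
    · obtain ⟨rfl, rfl, h⟩ := h
      exact LW _ _ _ _ (by omega) (by omega) (by omega) (by omega) (by omega) (by omega)
    · obtain ⟨rfl, rfl, h⟩ := h
      exact LW _ _ _ _ (by omega) (by omega) (by omega) (by omega) (by omega) (by omega)
    · obtain ⟨rfl, rfl, h⟩ := h
      exact LW _ _ _ _ (by omega) (by omega) (by omega) (by omega) (by omega) (by omega)
    · obtain ⟨rfl, rfl, h⟩ := h
      exact rm1 hf H.T (p := 0) (j := 1) (by omega) (by omega) (by omega) (by omega) (by omega) (by omega) (by omega)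
    · obtain ⟨rfl, rfl, h⟩ := h
      exact LW _ _ _ _ (by omega) (by omega) (by omega) (by omega) (by omega) (by omega)
    · obtain ⟨rfl, rfl, h⟩ := h
      exact LW _ _ _ _ (by omega) (by omega) (by omega) (by omega) (by omega) (by omega)
    · obtain ⟨rfl, rfl, rfl, rfl⟩ := h
      exact hu1' _ _ _ _ (by omega) (by omega) (by omega) (by omega)

theorem c8_21_chk : check 6 3 10 5 1 1 0 0 0
    (fun j n p q => decide ((j = 6 ∧ n = 1 ∧ p = 8 ∧ q = 3)
      ∨ (j = 1 ∧ n = 1 ∧ p = 7 ∧ q = 2)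
      ∨ (j = 1 ∧ n = 1 ∧ p = 7 ∧ q = 1)))
    (fun j n p q => decide ((j = 4 ∧ n = 1 ∧ p = 8 ∧ q = 2)))
    4
    0x768500760000768f00760f = true := by
  decide +kernel

theorem c8_21 (hf : Rule f) {k c n : ℕ} (H : NWJ f k c n)
    (LW : ∀ M R x y : ℕ, M + 1 = 6 * k → c ≤ R + 12 → R ≤ c + 12 → 2 * n ≤ x + 20 → y ≤ x → x ≤ y + 4 * k → ¬ f M R x y)
    (C0 : Cyc f (6 * k) (c - 6) (2 * (n - 7) + 2))
    (U2 : ∀ M R x y : ℕ, M = 6 * k + 2 → R = c + 2 → y = 2 * n + 4 → x % 2 = 1 → 2 * n + 5 ≤ x →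
      x + 5 ≤ 2 * n + 2 * k → ¬ f M R x y)
    (U6 : ∀ M R x y : ℕ, M = 6 * k + 6 → R = c + 2 → y = 2 * n + 4 → x % 2 = 1 → 2 * n + 7 ≤ x →
      x + 5 ≤ 2 * n + 2 * k → ¬ f M R x y)
    (h9 : f (6 * k + 9) (c + 2) (2 * n + 8) (2 * n + 3))
    (ga : f (6 * k + 4) (c + 2) (2 * n + 7) (2 * n + 2))
    (gb : f (6 * k + 4) (c + 2) (2 * n + 7) (2 * n + 1)) :
    f (6 * k + 7) (c + 2) (2 * n + 8) (2 * n + 2) := by
  by_contra hg
  have hk := H.T.hk
  have hc := H.T.hc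
  have h4 := H.T.h4
  have hb := H.T.hb
  have hN := H.T.hN2
  have hg' : ∀ M R x y : ℕ, M = 6 * k + 7 → R = c + 2 → x = 2 * n + 8 → y = 2 * n + 2 → ¬ f M R x y := by
    intro M R x y e1 e2 e3 e4
    rw [e1, e2, e3, e4]
    exact hg
  clear hg
  have h9' : ∀ M R x y : ℕ, M = 6 * k + 9 → R = c + 2 → x = 2 * n + 8 → y = 2 * n + 3 → f M R x y := by
    intro M R x y e1 e2 e3 e4
    rw [e1, e2, e3, e4]
    exact h9
  clear h9
  have ga' : ∀ M R x y : ℕ, M = 6 * k + 4 → R = c + 2 → x = 2 * n + 7 → y = 2 * n + 2 → f M R x y := by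
    intro M R x y e1 e2 e3 e4
    rw [e1, e2, e3, e4]
    exact ga
  clear ga
  have gb' : ∀ M R x y : ℕ, M = 6 * k + 4 → R = c + 2 → x = 2 * n + 7 → y = 2 * n + 1 → f M R x y := by
    intro M R x y e1 e2 e3 e4
    rw [e1, e2, e3, e4]
    exact gb
  clear gb
  obtain ⟨a0, ha0⟩ : ∃ z, z = 6 * k + 3 := ⟨_, rfl⟩
  obtain ⟨b0, hb0⟩ : ∃ z, z = c + 1 := ⟨_, rfl⟩
  obtain ⟨x0, hx0⟩ : ∃ z, z = 2 * n + 0 := ⟨_, rfl⟩
  obtain ⟨y0, hy0⟩ : ∃ z, z = 2 * n + 0 := ⟨_, rfl⟩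
  refine check_sound hf (a0 := a0) (b0 := b0) (x0 := x0) (y0 := y0) c8_21_chk
    ⟨fun h => absurd h (by decide), fun h => absurd h (by decide), fun h => absurd h (by decide), by omega, by omega,
      by omega, by omega⟩ ?_ ?_
  · intro j m p q hr h
    obtain ⟨-, -, -, -, hp1, hp2, hq1, hq2⟩ := hr
    replace h := of_decide_eq_true h
    rcases h with h | h | h
    · obtain ⟨rfl, rfl, rfl, rfl⟩ := h
      exact h9' _ _ _ _ (by omega) (by omega) (by omega) (by omega)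
    · obtain ⟨rfl, rfl, rfl, rfl⟩ := h
      exact ga' _ _ _ _ (by omega) (by omega) (by omega) (by omega)
    · obtain ⟨rfl, rfl, rfl, rfl⟩ := h
      exact gb' _ _ _ _ (by omega) (by omega) (by omega) (by omega)
  · intro j m p q hr h
    obtain ⟨-, -, -, -, hp1, hp2, hq1, hq2⟩ := hr
    replace h := of_decide_eq_true h
    obtain ⟨rfl, rfl, rfl, rfl⟩ := h
    exact hg' _ _ _ _ (by omega) (by omega) (by omega) (by omega)

theorem c8_30_chk : check 11 6 13 10 0 0 0 0 2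
    (fun j n p q => decide ((j = 6 ∧ n = 1 ∧ 8 ≤ p ∧ q ≤ p + 0 ∧ (p = q ∧ p % 2 = 0))
      ∨ (j = 11 ∧ n = 4 ∧ p = 10 ∧ q = 5)
      ∨ (j = 6 ∧ n = 4 ∧ p = 9 ∧ q = 5)
      ∨ (j = 6 ∧ n = 4 ∧ p = 9 ∧ q = 2)))
    (fun j n p q => decide ((j = 6 ∧ n = 1 ∧ 8 ≤ p ∧ q ≤ p + 0 ∧ ¬ (p = q ∧ p % 2 = 0))
      ∨ (j = 1 ∧ n = 1 ∧ q ≤ p + 0)
      ∨ (j = 4 ∧ n = 1 ∧ q + 3 ≤ p)
      ∨ (j = 5 ∧ n = 1 ∧ q + 3 ≤ p)
      ∨ (j = 8 ∧ n = 1 ∧ q + 1 ≤ p)
      ∨ (j = 9 ∧ n = 1 ∧ q + 1 ≤ p)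
      ∨ (j = 1 ∧ n = 2 ∧ q ≤ p + 0)
      ∨ (j = 5 ∧ n = 2 ∧ q + 3 ≤ p)
      ∨ (j = 9 ∧ n = 2 ∧ q + 1 ≤ p)
      ∨ (j = 1 ∧ n = 3 ∧ q ≤ p + 0)
      ∨ (j = 3 ∧ n = 3 ∧ q + 5 ≤ p)
      ∨ (j = 4 ∧ n = 3 ∧ q + 4 ≤ p)
      ∨ (j = 5 ∧ n = 3 ∧ q + 4 ≤ p)
      ∨ (j = 6 ∧ n = 3 ∧ q + 3 ≤ p)
      ∨ (j = 7 ∧ n = 3 ∧ q + 3 ≤ p)
      ∨ (j = 8 ∧ n = 3 ∧ q + 2 ≤ p)
      ∨ (j = 9 ∧ n = 3 ∧ q + 2 ≤ p)
      ∨ (j = 10 ∧ n = 3 ∧ q + 1 ≤ p)
      ∨ (j = 11 ∧ n = 3 ∧ q + 1 ≤ p)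
      ∨ (j = 1 ∧ n = 4 ∧ q ≤ p + 0)
      ∨ (j = 5 ∧ n = 4 ∧ 6 ≤ q ∧ q + 4 ≤ p)
      ∨ (j = 7 ∧ n = 4 ∧ 6 ≤ q ∧ q + 3 ≤ p)
      ∨ (j = 9 ∧ n = 4 ∧ 6 ≤ q ∧ q + 2 ≤ p)
      ∨ (j = 4 ∧ n = 4 ∧ 7 ≤ p ∧ 6 ≤ q ∧ q ≤ 6 ∧ p % 2 = 1)
      ∨ (j = 8 ∧ n = 4 ∧ 9 ≤ p ∧ 6 ≤ q ∧ q ≤ 6 ∧ p % 2 = 1)
      ∨ (j = 9 ∧ n = 4 ∧ p = 10 ∧ q = 4)))
    338
    0x4398305bf00074ada043e0305c40005c40405c000074b5208d0800a574a04398305c000074b5205bf000745ca08cb8008cb84043f0305c50005c50407458308cb800a575a074a80074b0a04398004398407458308cb800a575a074a80074b0a03f90003f904043e8305c48005c48407458308cb800a575a074a80074b0a03f88003f88405a38e041d8305a38005a38404348305ba8005ba8404398305bf8005bf8408d703074b00074b040be38308d20008d2040b5c830a17800a17840e6e030b1b800b1b840ce7850ce2000e6e4a0e68ca0b16800b168406ce8506c90008554a070aaa070b00070b040be3830891000891040eef830bde800bde840eef830b9d800b9d840ce7850ce2000e6e4a0e68ca0b57800b578403bd8305438005438403fe830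584800584840e6e030b5c800b5c8403bd030543000543040e68830b16000b16040e6d830b1b000b1b040e6d830b5c000b5c0403b883053e80053e8403f983057f80057f8403f383057980057984084f83053e00053e0403f903057f00057f040e68830b57000b57040a57030745800745840d6e030be2000be2010a51800a51840a57800a560002ae0e02ad8e02a90e02a88e026d0e026c8e02680e02678e0eef870eef070eea870eea070eae870eae070ea9870ea9070e6e070e6d870e6d070e69070e68870e68070e63870e63070e2d070e2c870e2c070e28070e27870e27070e22870e22070d6e070d69070d64070d2d070d2c870d28870d28070d27870d23870d23070ce8070ce7070cdd070ca7070ca6870ca6070ca2070ca1870ca1070c9c870c9c070be8070be3870be3070bde070ba7070ba6870ba2870ba2070ba1870ba1070ba0870b9d070b9c070b9b870a5d070a5c070a578f0a560f0a52070a1c870a1c070a1b070a1a870a17070a16070a15870a11070a108709d10709958709950709908709900708d707089607089587089087089007088f87088b07088a87085507085487085007084f87084f07084a87084a07081407081387080f07080e87080e07080987080907075107074c0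7074607074507071007070f87070a87070a0707098707090707050707048707040706ff8706ff0706cf0706c407068e07068d87068907068887068807068387068307058407058387058307057e87057e07057907043a07043907042f07041d0703b80703ad0702b90702b88702b80702b78702b40702b38702b30702b28702ae8702ae0702ad8702a98702a90702a887027887027807027787027707027687027387027307027287027207027187026e87026e07026d87026d07026c87026887026807026787023787023707023687023287023207023187022d87022d07022c87022c0702278702270701f68701f60701f58701f18701f10701f08701ec8701ec07 = true := by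
  decide +kernel

theorem c8_30 (hf : Rule f) {k c n : ℕ} (H : NWJ f k c n)
    (LW : ∀ M R x y : ℕ, M + 1 = 6 * k → c ≤ R + 12 → R ≤ c + 12 → 2 * n ≤ x + 20 → y ≤ x → x ≤ y + 4 * k → ¬ f M R x y)
    (C0 : Cyc f (6 * k) (c - 6) (2 * (n - 7) + 2))
    (U2 : ∀ M R x y : ℕ, M = 6 * k + 2 → R = c + 2 → y = 2 * n + 4 → x % 2 = 1 → 2 * n + 5 ≤ x →
      x + 5 ≤ 2 * n + 2 * k → ¬ f M R x y)
    (U6 : ∀ M R x y : ℕ, M = 6 * k + 6 → R = c + 2 → y = 2 * n + 4 → x % 2 = 1 → 2 * n + 7 ≤ x →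
      x + 5 ≤ 2 * n + 2 * k → ¬ f M R x y)
    (h9 : f (6 * k + 9) (c + 2) (2 * n + 8) (2 * n + 3))
    (ga : f (6 * k + 4) (c + 2) (2 * n + 7) (2 * n + 3))
    (gb : f (6 * k + 4) (c + 2) (2 * n + 7) (2 * n)) :
    f (6 * k + 7) (c + 2) (2 * n + 8) (2 * n + 2) := by
  by_contra hg
  have hk := H.T.hk
  have hc := H.T.hc
  have h4 := H.T.h4
  have hb := H.T.hb
  have hN := H.T.hN2
  have hg' : ∀ M R x y : ℕ, M = 6 * k + 7 → R = c + 2 → x = 2 * n + 8 → y = 2 * n + 2 → ¬ f M R x y := by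
    intro M R x y e1 e2 e3 e4
    rw [e1, e2, e3, e4]
    exact hg
  clear hg
  have h9' : ∀ M R x y : ℕ, M = 6 * k + 9 → R = c + 2 → x = 2 * n + 8 → y = 2 * n + 3 → f M R x y := by
    intro M R x y e1 e2 e3 e4
    rw [e1, e2, e3, e4]
    exact h9
  clear h9
  have ga' : ∀ M R x y : ℕ, M = 6 * k + 4 → R = c + 2 → x = 2 * n + 7 → y = 2 * n + 3 → f M R x y := by
    intro M R x y e1 e2 e3 e4
    rw [e1, e2, e3, e4]
    exact ga
  clear ga
  have gb' : ∀ M R x y : ℕ, M = 6 * k + 4 → R = c + 2 → x = 2 * n + 7 → y = 2 * n → f M R x y := by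
    intro M R x y e1 e2 e3 e4
    rw [e1, e2, e3, e4]
    exact gb
  clear gb
  obtain ⟨a0, ha0⟩ : ∃ z, z + 2 = 6 * k := ⟨6 * k - 2, by omega⟩
  obtain ⟨b0, hb0⟩ : ∃ z, z + 2 = c := ⟨c - 2, by omega⟩
  obtain ⟨x0, hx0⟩ : ∃ z, z + 2 = 2 * n := ⟨2 * n - 2, by omega⟩
  obtain ⟨y0, hy0⟩ : ∃ z, z + 2 = 2 * n := ⟨2 * n - 2, by omega⟩
  refine check_sound hf (a0 := a0) (b0 := b0) (x0 := x0) (y0 := y0) c8_30_chk
    ⟨fun _ => by omega, fun h => absurd h (by decide), fun h => absurd h (by decide), by omega, by omega,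
      by omega, by omega⟩ ?_ ?_
  · intro j m p q hr h
    obtain ⟨-, -, -, -, hp1, hp2, hq1, hq2⟩ := hr
    replace h := of_decide_eq_true h
    rcases h with h | h | h | h
    · obtain ⟨rfl, rfl, h⟩ := h
      exact (WrapC.v1 H.c4 (by omega) (by omega) (by omega) (by omega) (by omega) (by omega) (by omega) (by omega)).mpr (by omega)
    · obtain ⟨rfl, rfl, rfl, rfl⟩ := h
      exact h9' _ _ _ _ (by omega) (by omega) (by omega) (by omega)
    · obtain ⟨rfl, rfl, rfl, rfl⟩ := h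
      exact ga' _ _ _ _ (by omega) (by omega) (by omega) (by omega)
    · obtain ⟨rfl, rfl, rfl, rfl⟩ := h
      exact gb' _ _ _ _ (by omega) (by omega) (by omega) (by omega)
  · intro j m p q hr h
    obtain ⟨-, -, -, -, hp1, hp2, hq1, hq2⟩ := hr
    replace h := of_decide_eq_true h
    rcases h with h | h | h | h | h | h | h | h | h | h | h | h | h | h | h | h | h | h | h | h | h | h | h | h | h | h
    · obtain ⟨rfl, rfl, h⟩ := h
      exact mt (WrapC.v1 H.c4 (by omega) (by omega) (by omega) (by omega) (by omega) (by omega) (by omega) (by omega)).mp (by omega)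
    · obtain ⟨rfl, rfl, h⟩ := h
      exact LW _ _ _ _ (by omega) (by omega) (by omega) (by omega) (by omega) (by omega)
    · obtain ⟨rfl, rfl, h⟩ := h
      exact rm1 hf H.T (p := 0) (j := 2) (by omega) (by omega) (by omega) (by omega) (by omega) (by omega) (by omega)
    · obtain ⟨rfl, rfl, h⟩ := h
      exact rm1 hf H.T (p := 1) (j := 2) (by omega) (by omega) (by omega) (by omega) (by omega) (by omega) (by omega)
    · obtain ⟨rfl, rfl, h⟩ := h
      exact rm1 hf H.T (p := 0) (j := 0) (by omega) (by omega) (by omega) (by omega) (by omega) (by omega) (by omega)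
    · obtain ⟨rfl, rfl, h⟩ := h
      exact rm1 hf H.T (p := 1) (j := 0) (by omega) (by omega) (by omega) (by omega) (by omega) (by omega) (by omega)
    · obtain ⟨rfl, rfl, h⟩ := h
      exact LW _ _ _ _ (by omega) (by omega) (by omega) (by omega) (by omega) (by omega)
    · obtain ⟨rfl, rfl, h⟩ := h
      exact NHT.p0 hf H.T (j := 2) (by omega) (by omega) (by omega) (by omega) (by omega) (by omega)
    · obtain ⟨rfl, rfl, h⟩ := h
      exact NHT.p0 hf H.T (j := 0) (by omega) (by omega) (by omega) (by omega) (by omega) (by omega)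
    · obtain ⟨rfl, rfl, h⟩ := h
      exact LW _ _ _ _ (by omega) (by omega) (by omega) (by omega) (by omega) (by omega)
    · obtain ⟨rfl, rfl, h⟩ := h
      exact r1 hf H.T (p := 1) (j := 4) (by omega) (by omega) (by omega) (by omega) (by omega) (by omega) (by omega)
    · obtain ⟨rfl, rfl, h⟩ := h
      exact r1 hf H.T (p := 0) (j := 3) (by omega) (by omega) (by omega) (by omega) (by omega) (by omega) (by omega)
    · obtain ⟨rfl, rfl, h⟩ := h
      exact r1 hf H.T (p := 1) (j := 3) (by omega) (by omega) (by omega) (by omega) (by omega) (by omega) (by omega)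
    · obtain ⟨rfl, rfl, h⟩ := h
      exact r1 hf H.T (p := 0) (j := 2) (by omega) (by omega) (by omega) (by omega) (by omega) (by omega) (by omega)
    · obtain ⟨rfl, rfl, h⟩ := h
      exact r1 hf H.T (p := 1) (j := 2) (by omega) (by omega) (by omega) (by omega) (by omega) (by omega) (by omega)
    · obtain ⟨rfl, rfl, h⟩ := h
      exact r1 hf H.T (p := 0) (j := 1) (by omega) (by omega) (by omega) (by omega) (by omega) (by omega) (by omega)
    · obtain ⟨rfl, rfl, h⟩ := h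
      exact r1 hf H.T (p := 1) (j := 1) (by omega) (by omega) (by omega) (by omega) (by omega) (by omega) (by omega)
    · obtain ⟨rfl, rfl, h⟩ := h
      exact r1 hf H.T (p := 0) (j := 0) (by omega) (by omega) (by omega) (by omega) (by omega) (by omega) (by omega)
    · obtain ⟨rfl, rfl, h⟩ := h
      exact r1 hf H.T (p := 1) (j := 0) (by omega) (by omega) (by omega) (by omega) (by omega) (by omega) (by omega)
    · obtain ⟨rfl, rfl, h⟩ := h
      exact LW _ _ _ _ (by omega) (by omega) (by omega) (by omega) (by omega) (by omega)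
    · obtain ⟨rfl, rfl, h⟩ := h
      exact NHT.p2 hf H.T (j := 3) (by omega) (by omega) (by omega) (by omega) (by omega) (by omega)
    · obtain ⟨rfl, rfl, h⟩ := h
      exact NHT.p2 hf H.T (j := 2) (by omega) (by omega) (by omega) (by omega) (by omega) (by omega)
    · obtain ⟨rfl, rfl, h⟩ := h
      exact NHT.p2 hf H.T (j := 1) (by omega) (by omega) (by omega) (by omega) (by omega) (by omega)
    · obtain ⟨rfl, rfl, h⟩ := h
      exact U2 _ _ _ _ (by omega) (by omega) (by omega) (by omega) (by omega) (by omega)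
    · obtain ⟨rfl, rfl, h⟩ := h
      exact U6 _ _ _ _ (by omega) (by omega) (by omega) (by omega) (by omega) (by omega)
    · obtain ⟨rfl, rfl, rfl, rfl⟩ := h
      exact hg' _ _ _ _ (by omega) (by omega) (by omega) (by omega)

end Pool.Agent.SNT.NDB
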