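import Pool.Agent.SNT.NWB

set_option autoImplicit false
set_option synthInstance.maxSize 100000
set_option synthInstance.maxHeartbeats 4000000

/-! the corner implication, part 5 -/

namespace Pool.Agent.SNT.NDB

open Pool.Agent.SNT Pool.Agent.SNT.Loc Pool.Agent.SNT.LW Pool.Agent.SNT.NHZ Pool.Agent.SNT.NW

variable {f : ℕ → ℕ → ℕ → ℕ → Prop}

theorem c8_f3b_chk : check 9 8 13 10 0 0 1 1 2
    (fun j n p q => decide ((j = 4 ∧ n = 1 ∧ q ≤ p + 0 ∧ (p = q ∧ p % 2 = 1))
      ∨ (j = 4 ∧ n = 2 ∧ q ≤ p + 0 ∧ ((p + q) % 2 = 1 ∧ p % 2 = 1))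
      ∨ (j = 4 ∧ n = 3 ∧ q ≤ p + 0 ∧ (p = q ∧ p % 2 = 0))
      ∨ (j = 6 ∧ n = 2 ∧ 8 ≤ p ∧ q ≤ p + 0 ∧ ((p + q) % 2 = 1 ∧ p % 2 = 0))
      ∨ (j = 6 ∧ n = 3 ∧ 9 ≤ p ∧ q ≤ p + 0 ∧ (p = q ∧ p % 2 = 1))
      ∨ (j = 8 ∧ n = 1 ∧ q ≤ p + 0 ∧ (p = q ∧ p % 2 = 1))
      ∨ (j = 8 ∧ n = 2 ∧ q ≤ p + 0 ∧ ((p + q) % 2 = 1 ∧ p % 2 = 1))
      ∨ (j = 8 ∧ n = 3 ∧ q ≤ p + 0 ∧ (p = q ∧ p % 2 = 0))
      ∨ (j = 2 ∧ n = 1 ∧ q ≤ p + 0 ∧ (p = q ∧ p % 2 = 0))
      ∨ (j = 5 ∧ n = 6 ∧ p = 8 ∧ q = 3)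
      ∨ (j = 6 ∧ n = 2 ∧ p = 4 ∧ q = 3)))
    (fun j n p q => decide ((j = 4 ∧ n = 1 ∧ q ≤ p + 0 ∧ ¬ (p = q ∧ p % 2 = 1))
      ∨ (j = 4 ∧ n = 2 ∧ q ≤ p + 0 ∧ ¬ ((p + q) % 2 = 1 ∧ p % 2 = 1))
      ∨ (j = 4 ∧ n = 3 ∧ q ≤ p + 0 ∧ ¬ (p = q ∧ p % 2 = 0))
      ∨ (j = 6 ∧ n = 2 ∧ 8 ≤ p ∧ q ≤ p + 0 ∧ ¬ ((p + q) % 2 = 1 ∧ p % 2 = 0))
      ∨ (j = 6 ∧ n = 3 ∧ 9 ≤ p ∧ q ≤ p + 0 ∧ ¬ (p = q ∧ p % 2 = 1))
      ∨ (j = 8 ∧ n = 1 ∧ q ≤ p + 0 ∧ ¬ (p = q ∧ p % 2 = 1))
      ∨ (j = 8 ∧ n = 2 ∧ q ≤ p + 0 ∧ ¬ ((p + q) % 2 = 1 ∧ p % 2 = 1))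
      ∨ (j = 8 ∧ n = 3 ∧ q ≤ p + 0 ∧ ¬ (p = q ∧ p % 2 = 0))
      ∨ (j = 2 ∧ n = 1 ∧ q ≤ p + 0 ∧ ¬ (p = q ∧ p % 2 = 0))
      ∨ (j = 1 ∧ n = 1 ∧ q ≤ p + 0)
      ∨ (j = 2 ∧ n = 1 ∧ q + 4 ≤ p)
      ∨ (j = 2 ∧ n = 1 ∧ q + 3 ≤ p)
      ∨ (j = 3 ∧ n = 1 ∧ q + 4 ≤ p)
      ∨ (j = 3 ∧ n = 1 ∧ q + 3 ≤ p)
      ∨ (j = 4 ∧ n = 1 ∧ q + 3 ≤ p)
      ∨ (j = 4 ∧ n = 1 ∧ q + 2 ≤ p)
      ∨ (j = 5 ∧ n = 1 ∧ q + 3 ≤ p)
      ∨ (j = 5 ∧ n = 1 ∧ q + 2 ≤ p)
      ∨ (j = 6 ∧ n = 1 ∧ q + 2 ≤ p)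
      ∨ (j = 6 ∧ n = 1 ∧ q + 1 ≤ p)
      ∨ (j = 7 ∧ n = 1 ∧ q + 2 ≤ p)
      ∨ (j = 7 ∧ n = 1 ∧ q + 1 ≤ p)
      ∨ (j = 8 ∧ n = 1 ∧ q + 1 ≤ p)
      ∨ (j = 9 ∧ n = 1 ∧ q + 1 ≤ p)
      ∨ (j = 1 ∧ n = 2 ∧ q ≤ p + 0)
      ∨ (j = 3 ∧ n = 2 ∧ q + 4 ≤ p)
      ∨ (j = 3 ∧ n = 2 ∧ q + 3 ≤ p)
      ∨ (j = 5 ∧ n = 2 ∧ q + 3 ≤ p)
      ∨ (j = 5 ∧ n = 2 ∧ q + 2 ≤ p)
      ∨ (j = 7 ∧ n = 2 ∧ q + 2 ≤ p)
      ∨ (j = 7 ∧ n = 2 ∧ q + 1 ≤ p)
      ∨ (j = 9 ∧ n = 2 ∧ q + 1 ≤ p)
      ∨ (j = 1 ∧ n = 3 ∧ q ≤ p + 0)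
      ∨ (j = 2 ∧ n = 3 ∧ q + 5 ≤ p)
      ∨ (j = 2 ∧ n = 3 ∧ q + 4 ≤ p)
      ∨ (j = 3 ∧ n = 3 ∧ q + 5 ≤ p)
      ∨ (j = 3 ∧ n = 3 ∧ q + 4 ≤ p)
      ∨ (j = 3 ∧ n = 3 ∧ 5 ≤ p ∧ q + 5 ≤ p)
      ∨ (j = 4 ∧ n = 3 ∧ q + 4 ≤ p)
      ∨ (j = 4 ∧ n = 3 ∧ q + 3 ≤ p)
      ∨ (j = 5 ∧ n = 3 ∧ q + 4 ≤ p)
      ∨ (j = 5 ∧ n = 3 ∧ q + 3 ≤ p)
      ∨ (j = 5 ∧ n = 3 ∧ 5 ≤ p ∧ q + 4 ≤ p)
      ∨ (j = 6 ∧ n = 3 ∧ q + 3 ≤ p)
      ∨ (j = 6 ∧ n = 3 ∧ q + 2 ≤ p)
      ∨ (j = 7 ∧ n = 3 ∧ q + 3 ≤ p)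
      ∨ (j = 7 ∧ n = 3 ∧ q + 2 ≤ p)
      ∨ (j = 7 ∧ n = 3 ∧ 5 ≤ p ∧ q + 3 ≤ p)
      ∨ (j = 8 ∧ n = 3 ∧ q + 2 ≤ p)
      ∨ (j = 8 ∧ n = 3 ∧ q + 1 ≤ p)
      ∨ (j = 9 ∧ n = 3 ∧ q + 2 ≤ p)
      ∨ (j = 9 ∧ n = 3 ∧ q + 1 ≤ p)
      ∨ (j = 9 ∧ n = 3 ∧ 5 ≤ p ∧ q + 2 ≤ p)
      ∨ (j = 1 ∧ n = 4 ∧ q ≤ p + 0)
      ∨ (j = 3 ∧ n = 4 ∧ 5 ≤ p ∧ q + 5 ≤ p)
      ∨ (j = 3 ∧ n = 4 ∧ q + 4 ≤ p)
      ∨ (j = 5 ∧ n = 4 ∧ 5 ≤ p ∧ q + 4 ≤ p)
      ∨ (j = 5 ∧ n = 4 ∧ q + 3 ≤ p)
      ∨ (j = 7 ∧ n = 4 ∧ 5 ≤ p ∧ q + 3 ≤ p)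
      ∨ (j = 7 ∧ n = 4 ∧ q + 2 ≤ p)
      ∨ (j = 9 ∧ n = 4 ∧ 5 ≤ p ∧ q + 2 ≤ p)
      ∨ (j = 9 ∧ n = 4 ∧ q + 1 ≤ p)
      ∨ (j = 1 ∧ n = 5 ∧ q ≤ p + 0)
      ∨ (j = 2 ∧ n = 5 ∧ 6 ≤ p ∧ p ≤ q + 9 ∧ q + 6 ≤ p)
      ∨ (j = 2 ∧ n = 5 ∧ 2 ≤ q ∧ q + 5 ≤ p)
      ∨ (j = 3 ∧ n = 5 ∧ 6 ≤ p ∧ p ≤ q + 9 ∧ q + 6 ≤ p)
      ∨ (j = 3 ∧ n = 5 ∧ 2 ≤ q ∧ q + 5 ≤ p)
      ∨ (j = 3 ∧ n = 5 ∧ 7 ≤ q ∧ q + 5 ≤ p)
      ∨ (j = 4 ∧ n = 5 ∧ 6 ≤ p ∧ q + 5 ≤ p)
      ∨ (j = 4 ∧ n = 5 ∧ 2 ≤ q ∧ q + 4 ≤ p)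
      ∨ (j = 5 ∧ n = 5 ∧ 6 ≤ p ∧ q + 5 ≤ p)
      ∨ (j = 5 ∧ n = 5 ∧ 2 ≤ q ∧ q + 4 ≤ p)
      ∨ (j = 5 ∧ n = 5 ∧ 7 ≤ q ∧ q + 4 ≤ p)
      ∨ (j = 6 ∧ n = 5 ∧ 6 ≤ p ∧ q + 4 ≤ p)
      ∨ (j = 6 ∧ n = 5 ∧ 2 ≤ q ∧ q + 3 ≤ p)
      ∨ (j = 7 ∧ n = 5 ∧ 6 ≤ p ∧ q + 4 ≤ p)
      ∨ (j = 7 ∧ n = 5 ∧ 2 ≤ q ∧ q + 3 ≤ p)
      ∨ (j = 7 ∧ n = 5 ∧ 7 ≤ q ∧ q + 3 ≤ p)
      ∨ (j = 8 ∧ n = 5 ∧ 6 ≤ p ∧ q + 3 ≤ p)
      ∨ (j = 8 ∧ n = 5 ∧ 2 ≤ q ∧ q + 2 ≤ p)
      ∨ (j = 9 ∧ n = 5 ∧ 6 ≤ p ∧ q + 3 ≤ p)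
      ∨ (j = 9 ∧ n = 5 ∧ 2 ≤ q ∧ q + 2 ≤ p)
      ∨ (j = 9 ∧ n = 5 ∧ 7 ≤ q ∧ q + 2 ≤ p)
      ∨ (j = 1 ∧ n = 6 ∧ q ≤ p + 0)
      ∨ (j = 3 ∧ n = 6 ∧ 7 ≤ q ∧ q + 5 ≤ p)
      ∨ (j = 5 ∧ n = 6 ∧ 7 ≤ q ∧ q + 4 ≤ p)
      ∨ (j = 7 ∧ n = 6 ∧ 7 ≤ q ∧ q + 3 ≤ p)
      ∨ (j = 9 ∧ n = 6 ∧ 7 ≤ q ∧ q + 2 ≤ p)
      ∨ (j = 4 ∧ n = 6 ∧ 8 ≤ p ∧ 7 ≤ q ∧ q ≤ 7 ∧ p % 2 = 0)
      ∨ (j = 8 ∧ n = 6 ∧ 10 ≤ p ∧ 7 ≤ q ∧ q ≤ 7 ∧ p % 2 = 0)
      ∨ (j = 6 ∧ n = 2 ∧ p = 2 ∧ q = 1)
      ∨ (j = 6 ∧ n = 5 ∧ p = 5 ∧ q = 5)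
      ∨ (j = 5 ∧ n = 6 ∧ p = 8 ∧ q = 4)))
    1634
    0x57b8307838009d1f20bd9800bde9205c60307ce8007cd8009dbd209db5a04f983074280098be209c78009cd1a0b93800de1f20fe4800fea1a0fef000ff4120de6000deb12056b03077300097bca0b83000d90da0dd2000fdfda0f98800f9e1a0dcd800fe4800dd31a0fea1a0dd8000fef000de10e0ff4120feeda0ddd030b8e000d9642056b030773000980da0940000981aa04ee8307378009867a094400093b00093b0e093b040b88800b88840fe5030d96000d96040fe40e0dd7830b88800d965a0b93800de1f20fdf800fe4000fe40e0fe4040de10e0fee800fee8409bd030bc5800bc58409800e04ee8307378009867a0b8e000d96420fe4800fea1a0fef000ff4120de1000de6120bd3000bd38a09800009800405708307788007788409cd03098600098604057603077e00077e040dd7830b88800d90c20f98800f9e1a0fe4800fea1a0fef000ff4120dd8000de1000de10e0de6120bd3000935000bd38a097bba09c10009bc8009bc8e09bc840bc50e09bd030bc5000bc5040bd38e0de6030bd3800bd3840deb000deb04057b830783800783840fa30e0da0030fa3000fa3040b8e8e09cd03077e000986ca0b8e800b8e84053503073d00073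d040fa80e0f9e830fe4800fea1a0fef000ff4120f9f000fa8000fa80e0fa8040da00e0fa3030fe4800fea1a0fef000ff4120da0000da0040fa3030fa3800fa3840d9b030d9b800d9b840b93830bd4800bd4840de6030fee000fee040ff8830dea800dea840deb030ff3000ff30409db0009db04058583078d80078d8405cb8307d38007d384054983058a80058a84054403058500058504058a83079280079284054903058a00058a0405ca8307d28007d28405cb0307d30007d304074b83058480058484058a03079200079204058503078d00078d040fe90e0ddd030b8e000d96420dd2000fdfda0f98800f9e1a0fe4800fea1a0d5a000fef000fa8720ff4120fe0000fe9000fe90e0fe9040de18e0ff4030de1800de1840fe98e0ff4030fe9800fe9840bcf8e09cd03077e0009c7ea0bcf800bcf840bd98e0bde800bde840b578309958009958409d50009d50105bf8307cc8007cc8405c50307cd0007cd040be88309da8009da84095983099a80099a840549830751800751840b57830b9d800b9d840b838e056b03077300097bca0b83800b8384052a030732000732040ff9030be3800be3840b61830ba2800ba2840be3030be8000be804094f0309950009950405c60307ce0007ce04058483078c80078c84094f030b9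d000b9d04095f03074c80074c81053e8005802a05808005808404bd8305038005038404bd03050300050304095f03070b80070b8404c783050880050884050903071100071104050883071080071084054f0307570007570404c80305090005090404c803050e00050e04050e030716000716040b6203095f00095f040b57830b5c800b5c84094f030954000954040d65030da6000da6040f6d030fae000fae0407bf8307c48007c484050303070b00070b0404bd0304c20004c2040d6a030dab000dab041409030ff4000ff40405b70307bf0007bf040f72030fb3000fb3040f77030b62000b620404c80304cd0004cd04097f8e04e383072c800939d2097f80097f84093503097600097604072c0e052403072c00072c0405710e052b850526000738d2056c3205710005710405b20e05ad0305b20005b204056f8e073683056f80056f8407280e05200307280007280407728e056a830772800772840d8b8e0d4a830d8b800d8b840b530e04f983074280094b4a0b53000b53040b890e0981830b89000b89040d958e0d54030d95800d95840985030b8d000b8d040b940e0b53030b94000b94040b8f0e0987030b8f000b8f040d9c0e0d97030d9c000d9c040fa88e0fa8030fa8800fa8840d9a8e0d59030d9a800d9a840b9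28e098a830b92800b92840b4c8e098a830b4c800b4c8409858e09448309858009858407738e056b8307738007738407778e073683077780077784097c0e093b03097c00097c04072d0e052503072d00072d0407790e05710307790007790409d08009c30009d08109c30109818e04ee8307378009404a09818009818407370e052f03073700073704077d0e057503077d00077d0409908e094f8309908009908407478e053f8307478007478407840e057c0307840007840407470e053f0307470007470409870e09460309870009870407420e053a03074200074204077e8e057683077e80077e84077f0e057703077f00077f0405718e07388305718005718407380e05300307380007380407798e07388307798007798405b583056a00056a0405a80307af8007af8407388e0b4e0307388007388407330e052b03073300073304072d8e093b83072d80072d8409770e09360309770009770407288e0520830728800728840f990e0d4b030f99000f99040f998e0f94830f99800f99840d4b030f94000f940407b90e05b10307b90007b90407be8e05b68307be8007be8407be0e05b60307be0007be0407ba8e05ad8307ba8007ba8409c80e09c30309c80009c80407878e07468307878007878405720e053103057200057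20407c88e05c08307c88007c88407c00e05b80307c00007c00407c40e05bc0307c40007c40407c50e05bd0307c50007c504098f8e094e83098f80098f840b978e0b56830b97800b97840b920e0b4c030b92000b9204098a0e094903098a00098a0407820e07410307820007820407468e053e8307468007468407338e052b83073380073384073b8e053383073b80073b84056c8e052b83056c80056c8409490e0b4c030949000949040b3d8e0b3d030b3d800b3d840b430e0f53830b43000b430406e70e04df0306e70006e70404e80e04a70304e80004e80404e88e04a78304e88004e88406e78e04df8306e78006e78406ec8e04e48306ec8006ec8404ed8e04a78304ed8004ed8404df8e049e0304df8004df8406ed0e04e50306ed0006ed0406f20e04ea0306f20006f20404e50e04a40304e50004e50404f30e04b20304f30004f30404ef0e04ae0304ef0004ef0407000e04f80307000007000406f78e04ef8306f78006f78404f88e04b28304f88004f884053e03057f00057f0404f80e04b20304f80004f80407058e04fd8307058007058407060e04fe0307060007060404f50e04b40304f50004f50404fd8e04bc8304fd8004fd8407870e057f030787000787040b488e0b48030b48800b488404fa0e04b90304f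a0004fa0406f18e04e98306f18006f18406fc8e04f48306fc8006fc840b570e0d5e8e0d64000f6cca0f62030d5f800d5f840d5f0e0f62030d5f000d5f040f62830f63000f67800f678e0f67840f620e1377830f62000f620406e68e04de8306e68006e68407c28007b08009cfd209b94a076f8e056783076f80076f8407ab8e05a38307ab8007ab8407b10e05a90307b10007b10404ac0e04a70304ac0004ac0404a98e04a90304a98004a98407ac0e05a40307ac0007ac040d538e0f61830d53800d53840f1c8e0d14830f1c800f1c840d0e800cd9000d0e810cc3000bc10008c38008b98008b88008ae8008ad80112f0011240010e8000fa20e0fa18e0f9c8e0f618e0f610e0f608e0f5c0e0f5b8e0f200e0f1f8e0f1b0e0f1a8e0d9f8e0d9f0e0d9a0e0d998e0d948e0d188e0d180e0d178e0d130e0d128e0d0d8e0cdd800cdd8e0cc7800cc78e0bd80e0bd7800bd78e0b970e0b568e0b4b8e0b158e0b0a8e0acf8e09d18e098f0e098e8e098e0e09898e09890e090f00090e8e090e0e090d8e09088e09080e09078e09040009038e09030e09028e09020e08fd8e08fd0e08f90008f88e08f80e08ee0008d30008d20008c80008c80e08c70008c70e08bd0008bd0e08bc0008bc0e08b20008b20e087c8008718007868e078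60e07810e07408e073b0e06ff8e06fa0e057e8e057e0e057d8e05790e05788e04fd0e04f78e04f20e04ec8e047d00047c8e047c0e047b8e04768e04720004718e04710e04708e04700e046b8e046b0e04670004660e04658e04608e045c0003b98e03b90e03b88e03b78e03b70e03b68e03b40e03b38e03b30e03b28e03b20e03b18e03ae8e03ae0e03ad8e03ad0e03ac8e03a90e03a88e03a80e03788e03780e03778e03768e03760e03758e03730e03728e03720e03718e03710e03708e036d8e036d0e036c8e036c0e036b8e03680e03678e03670e03628e03378e03370e03368e03360e03320e03318e03310e03308e03300e032c8e032c0e032b8e032b0e03270e03268e03260e03258e03218e03210e03208e031c0e031b8e02f58e02f50e02f10e02f08e02f00e02ef8e02eb8e02eb0e02ea8e02ea0e02e60e02e58e02e50e02e48e02e08e02e00e02df8e02db0e02da8e02d58e02b58e02b50e02b48e02b00e02af8e02af0e02aa8e02aa0e02a98e02a90e02a50e02a48e02a40e02a38e029f8e029f0e029e8e029a0e02998e02948e02748e02740e02738e026f0e026e8e02698e02690e02688e02680e02640e02638e02630e025e0e025d8e02590e02588e14090714088714040714038713c80713c78713c30713c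28713778713770713720713368713360713310712008711fb8711c00711bf8711bb0711ba87116a87112f0f112e87112e0711298711290711240f10e80f0ff9070ff8870ff3870fb8070fb7870fb7070fb2870fb2070fad070fa7870fa2070fa1870f9c870f77070f76870f72070f71870f6c870f6c070f67070f66870f61870f61070f60870f5c070f5b870f36070f35870f31070f30870f2b870f2b070f26070f20870f20070f1f870f1b070f1a870df0870de6870de5870ddc870dd2870db0070daf870daf070daa870daa070da9870da5070da4870d9f870d9f070d9a070d99870d94870d90870d6e870d64870d5a870d59870d58870d50870d4f870d4e870d46870d45870d2e070d2d870d29070d28870d24070d23870d23070d1e070d18870d18070d17870d13070d12870d0d870cdd8f0cce870ccd870cc78f0be8870bd8070bd78f0ba7870ba7070ba2070ba1870b9c870b97070b61870b61070b5c070b56870b56070b51070b50870b4b870b20870b20070b1b070b15870b15070b10070b0f870b0a870acf8709e08709db8709d68709d58709d48709d18709cc8709cb8709ca8709c28709b88709b787099f87099f07099a07099987099487099407099387098f07098e87098e07098987098907095e87095487094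a87094987094887094087093f87093e87093687093587093487091e07091d87091907091887091807091407091387091307090f0f090e87090e07090d87090d0709098709090709088709080709078709040f09038709030709028709020708fe8708fe0708fd8708fd0708f90f08f88708f80708f38708f30708ee0f08d30f08d20f08c80f08c70f08bd0f08bc0f08b20f087c8f08718f079187078c07078b87078687078607078107075687075107074b87074b07074607074087073b07071587071007070a87070a0707050706ff8706fa0705c68705c58705c48705bc8705bb8705ba8705b28705b18705b08705a88705a787059e87058987058907058407058387057e87057e07057d87057907057887054e87054487054387053a87053987053887053087052f87052e87052687052587052487052387051b87051a87050d8705080705078705028705020704fd0704fc8704f78704f20704ec8704cc8704c28704c18704b88704b78704b68704ae8704ad8704ac8704a38704a28704a187049987049887048707048687048607048207048187048107047d0f047c87047c07047b87047b0704778704770704768704760704720f047187047107047087047007046c87046c07046b87046b0704670f046687046607046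587046187046107046087045c0f03c38703c30703c28703c20703be8703be0703bd8703bd0703bc8703b98703b90703b88703b80703b78703b70703b68703b48703b40703b38703b30703b28703b20703b18703af0703ae8703ae0703ad8703ad0703ac8703a98703a90703a88703a80703a40703a387038287038207038187038107037d87037d07037c87037c07037b87037887037807037787037707037687037607037587037387037307037287037207037187037107037087036e07036d87036d07036c87036c07036b87036887036807036787036707036307036287036207035d87035d07034707034687034207034187034107034087033c87033c07033b87033b07033787033707033687033607033587033287033207033187033107033087033007032d07032c87032c07032b87032b07032787032707032687032607032587032207032187032107032087031c87031c07031b8703170703168703060703058703010703008703000702ff8702fc0702fb8702fb0702fa8702f68702f60702f58702f50702f48702f18702f10702f08702f00702ef8702ec0702eb8702eb0702ea8702ea0702e68702e60702e58702e50702e48702e10702e08702e00702df8702db8702db0702da8702d60702d58702c50702c48702c00702bf8702bf0702bb0702ba8702ba0702b98702b58702b50702b48702b40702b08702b00702af8702af0702ae8702ab0702aa8702aa0702a98702a90702a58702a50702a48702a40702a38702a007029f87029f07029e87029a87029a07029987029507029487027f07027e87027e07027a07027987027907027487027407027387027307026f87026f07026e87026e07026987026907026887026807026487026407026387026307025e87025e07025d87025987025907025887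 = true := by
  decide +kernel

theorem c8_f3b (hf : Rule f) {k c n : ℕ} (H : NWJ f k c n)
    (LW : ∀ M R x y : ℕ, M + 1 = 6 * k → c ≤ R + 12 → R ≤ c + 12 → 2 * n ≤ x + 20 → y ≤ x → x ≤ y + 4 * k → ¬ f M R x y)
    (C0 : Cyc f (6 * k) (c - 6) (2 * (n - 7) + 2))
    (U2 : ∀ M R x y : ℕ, M = 6 * k + 2 → R = c + 2 → y = 2 * n + 4 → x % 2 = 1 → 2 * n + 5 ≤ x →
      x + 5 ≤ 2 * n + 2 * k → ¬ f M R x y)
    (U6 : ∀ M R x y : ℕ, M = 6 * k + 6 → R = c + 2 → y = 2 * n + 4 → x % 2 = 1 → 2 * n + 7 ≤ x →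
      x + 5 ≤ 2 * n + 2 * k → ¬ f M R x y)
    (hu1 : ¬ f (6 * k + 4) (c - 2) (2 * n - 1) (2 * n - 2))
    (ht0 : f (6 * k + 4) (c - 2) (2 * n + 1) (2 * n))
    (f1 : ¬ f (6 * k + 4) (c + 1) (2 * n + 2) (2 * n + 2))
    (f2 : ¬ f (6 * k + 3) (c + 2) (2 * n + 5) (2 * n + 1)) :
    ¬ f (6 * k + 3) (c + 2) (2 * n + 5) (2 * n) := by
  intro hg
  have hk := H.T.hk
  have hc := H.T.hc
  have h4 := H.T.h4
  have hb := H.T.hb
  have hN := H.T.hN2
  have hg' : ∀ M R x y : ℕ, M = 6 * k + 3 → R = c + 2 → x = 2 * n + 5 → y = 2 * n → f M R x y := by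
    intro M R x y e1 e2 e3 e4
    rw [e1, e2, e3, e4]
    exact hg
  clear hg
  have hu1' : ∀ M R x y : ℕ, M = 6 * k + 4 → R = c - 2 → x = 2 * n - 1 → y = 2 * n - 2 → ¬ f M R x y := by
    intro M R x y e1 e2 e3 e4
    rw [e1, e2, e3, e4]
    exact hu1
  clear hu1
  have ht0' : ∀ M R x y : ℕ, M = 6 * k + 4 → R = c - 2 → x = 2 * n + 1 → y = 2 * n → f M R x y := by
    intro M R x y e1 e2 e3 e4
    rw [e1, e2, e3, e4]
    exact ht0
  clear ht0
  have f1' : ∀ M R x y : ℕ, M = 6 * k + 4 → R = c + 1 → x = 2 * n + 2 → y = 2 * n + 2 → ¬ f M R x y := by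
    intro M R x y e1 e2 e3 e4
    rw [e1, e2, e3, e4]
    exact f1
  clear f1
  have f2' : ∀ M R x y : ℕ, M = 6 * k + 3 → R = c + 2 → x = 2 * n + 5 → y = 2 * n + 1 → ¬ f M R x y := by
    intro M R x y e1 e2 e3 e4
    rw [e1, e2, e3, e4]
    exact f2
  clear f2
  obtain ⟨a0, ha0⟩ : ∃ z, z + 2 = 6 * k := ⟨6 * k - 2, by omega⟩
  obtain ⟨b0, hb0⟩ : ∃ z, z + 4 = c := ⟨c - 4, by omega⟩
  obtain ⟨x0, hx0⟩ : ∃ z, z + 3 = 2 * n := ⟨2 * n - 3, by omega⟩
  obtain ⟨y0, hy0⟩ : ∃ z, z + 3 = 2 * n := ⟨2 * n - 3, by omega⟩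
  refine check_sound hf (a0 := a0) (b0 := b0) (x0 := x0) (y0 := y0) c8_f3b_chk
    ⟨fun _ => by omega, fun h => absurd h (by decide), fun h => absurd h (by decide), by omega, by omega,
      by omega, by omega⟩ ?_ ?_
  · intro j m p q hr h
    obtain ⟨-, -, -, -, hp1, hp2, hq1, hq2⟩ := hr
    replace h := of_decide_eq_true h
    rcases h with h | h | h | h | h | h | h | h | h | h | h
    · obtain ⟨rfl, rfl, h⟩ := h
      exact (WrapC.v1 H.c2 (by omega) (by omega) (by omega) (by omega) (by omega) (by omega) (by omega) (by omega)).mpr (by omega)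
    · obtain ⟨rfl, rfl, h⟩ := h
      exact (WrapC.v2 H.c2 (by omega) (by omega) (by omega) (by omega) (by omega) (by omega) (by omega)).mpr (by omega)
    · obtain ⟨rfl, rfl, h⟩ := h
      exact (WrapC.v3 H.c2 (by omega) (by omega) (by omega) (by omega) (by omega) (by omega) (by omega) (by omega)).mpr (by omega)
    · obtain ⟨rfl, rfl, h⟩ := h
      exact (WrapC.v0 H.c4 (by omega) (by omega) (by omega) (by omega) (by omega) (by omega) (by omega)).mpr (by omega)
    · obtain ⟨rfl, rfl, h⟩ := h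
      exact (WrapC.v1 H.c4 (by omega) (by omega) (by omega) (by omega) (by omega) (by omega) (by omega) (by omega)).mpr (by omega)
    · obtain ⟨rfl, rfl, h⟩ := h
      exact (WrapC.v1 H.c6 (by omega) (by omega) (by omega) (by omega) (by omega) (by omega) (by omega) (by omega)).mpr (by omega)
    · obtain ⟨rfl, rfl, h⟩ := h
      exact (WrapC.v2 H.c6 (by omega) (by omega) (by omega) (by omega) (by omega) (by omega) (by omega)).mpr (by omega)
    · obtain ⟨rfl, rfl, h⟩ := h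
      exact (WrapC.v3 H.c6 (by omega) (by omega) (by omega) (by omega) (by omega) (by omega) (by omega) (by omega)).mpr (by omega)
    · obtain ⟨rfl, rfl, h⟩ := h
      exact (WrapC.v3 C0 (by omega) (by omega) (by omega) (by omega) (by omega) (by omega) (by omega) (by omega)).mpr (by omega)
    · obtain ⟨rfl, rfl, rfl, rfl⟩ := h
      exact hg' _ _ _ _ (by omega) (by omega) (by omega) (by omega)
    · obtain ⟨rfl, rfl, rfl, rfl⟩ := h
      exact ht0' _ _ _ _ (by omega) (by omega) (by omega) (by omega)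
  · intro j m p q hr h
    obtain ⟨-, -, -, -, hp1, hp2, hq1, hq2⟩ := hr
    replace h := of_decide_eq_true h
    rcases h with h | h | h | h | h | h | h | h | h | h | h | h | h | h | h | h | h | h | h | h | h | h | h | h | h | h | h | h | h | h | h | h | h | h | h | h | h | h | h | h | h | h | h | h | h | h | h | h | h | h | h | h | h | h | h | h | h | h | h | h | h | h | h | h | h | h | h | h | h | h | h | h | h | h | h | h | h | h | h | h | h | h | h | h | h | h | h | h | h | h | h | h | h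
    · obtain ⟨rfl, rfl, h⟩ := h
      exact mt (WrapC.v1 H.c2 (by omega) (by omega) (by omega) (by omega) (by omega) (by omega) (by omega) (by omega)).mp (by omega)
    · obtain ⟨rfl, rfl, h⟩ := h
      exact mt (WrapC.v2 H.c2 (by omega) (by omega) (by omega) (by omega) (by omega) (by omega) (by omega)).mp (by omega)
    · obtain ⟨rfl, rfl, h⟩ := h
      exact mt (WrapC.v3 H.c2 (by omega) (by omega) (by omega) (by omega) (by omega) (by omega) (by omega) (by omega)).mp (by omega)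
    · obtain ⟨rfl, rfl, h⟩ := h
      exact mt (WrapC.v0 H.c4 (by omega) (by omega) (by omega) (by omega) (by omega) (by omega) (by omega)).mp (by omega)
    · obtain ⟨rfl, rfl, h⟩ := h
      exact mt (WrapC.v1 H.c4 (by omega) (by omega) (by omega) (by omega) (by omega) (by omega) (by omega) (by omega)).mp (by omega)
    · obtain ⟨rfl, rfl, h⟩ := h
      exact mt (WrapC.v1 H.c6 (by omega) (by omega) (by omega) (by omega) (by omega) (by omega) (by omega) (by omega)).mp (by omega)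
    · obtain ⟨rfl, rfl, h⟩ := h
      exact mt (WrapC.v2 H.c6 (by omega) (by omega) (by omega) (by omega) (by omega) (by omega) (by omega)).mp (by omega)
    · obtain ⟨rfl, rfl, h⟩ := h
      exact mt (WrapC.v3 H.c6 (by omega) (by omega) (by omega) (by omega) (by omega) (by omega) (by omega) (by omega)).mp (by omega)
    · obtain ⟨rfl, rfl, h⟩ := h
      exact mt (WrapC.v3 C0 (by omega) (by omega) (by omega) (by omega) (by omega) (by omega) (by omega) (by omega)).mp (by omega)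
    · obtain ⟨rfl, rfl, h⟩ := h
      exact LW _ _ _ _ (by omega) (by omega) (by omega) (by omega) (by omega) (by omega)
    · obtain ⟨rfl, rfl, h⟩ := h
      exact NHT.rIn hf H.T (t := 3) (p := 0) (j := 3) (by omega) (by omega) (by omega) (by omega) (by omega) (by omega) (by omega) (by omega)
    · obtain ⟨rfl, rfl, h⟩ := h
      exact NHT.rOut hf H.T (t := 2) (p := 0) (j := 2) (by omega) (by omega) (by omega) (by omega) (by omega) (by omega) (by omega) (by omega)
    · obtain ⟨rfl, rfl, h⟩ := h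
      exact NHT.pmi hf H.T (j := 3) (by omega) (by omega) (by omega) (by omega) (by omega) (by omega)
    · obtain ⟨rfl, rfl, h⟩ := h
      exact NHT.pm hf H.T (j := 2) (by omega) (by omega) (by omega) (by omega) (by omega) (by omega)
    · obtain ⟨rfl, rfl, h⟩ := h
      exact NHT.rIn hf H.T (t := 3) (p := 0) (j := 2) (by omega) (by omega) (by omega) (by omega) (by omega) (by omega) (by omega) (by omega)
    · obtain ⟨rfl, rfl, h⟩ := h
      exact NHT.rOut hf H.T (t := 2) (p := 0) (j := 1) (by omega) (by omega) (by omega) (by omega) (by omega) (by omega) (by omega) (by omega)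
    · obtain ⟨rfl, rfl, h⟩ := h
      exact NHT.pmi hf H.T (j := 2) (by omega) (by omega) (by omega) (by omega) (by omega) (by omega)
    · obtain ⟨rfl, rfl, h⟩ := h
      exact NHT.pm hf H.T (j := 1) (by omega) (by omega) (by omega) (by omega) (by omega) (by omega)
    · obtain ⟨rfl, rfl, h⟩ := h
      exact NHT.rIn hf H.T (t := 3) (p := 0) (j := 1) (by omega) (by omega) (by omega) (by omega) (by omega) (by omega) (by omega) (by omega)
    · obtain ⟨rfl, rfl, h⟩ := h
      exact NHT.rOut hf H.T (t := 2) (p := 0) (j := 0) (by omega) (by omega) (by omega) (by omega) (by omega) (by omega) (by omega) (by omega)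
    · obtain ⟨rfl, rfl, h⟩ := h
      exact NHT.pmi hf H.T (j := 1) (by omega) (by omega) (by omega) (by omega) (by omega) (by omega)
    · obtain ⟨rfl, rfl, h⟩ := h
      exact NHT.pm hf H.T (j := 0) (by omega) (by omega) (by omega) (by omega) (by omega) (by omega)
    · obtain ⟨rfl, rfl, h⟩ := h
      exact NHT.rIn hf H.T (t := 3) (p := 0) (j := 0) (by omega) (by omega) (by omega) (by omega) (by omega) (by omega) (by omega) (by omega)
    · obtain ⟨rfl, rfl, h⟩ := h
      exact NHT.pmi hf H.T (j := 0) (by omega) (by omega) (by omega) (by omega) (by omega) (by omega)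
    · obtain ⟨rfl, rfl, h⟩ := h
      exact LW _ _ _ _ (by omega) (by omega) (by omega) (by omega) (by omega) (by omega)
    · obtain ⟨rfl, rfl, h⟩ := h
      exact NHT.pmi hf H.T (j := 3) (by omega) (by omega) (by omega) (by omega) (by omega) (by omega)
    · obtain ⟨rfl, rfl, h⟩ := h
      exact NHT.pm hf H.T (j := 2) (by omega) (by omega) (by omega) (by omega) (by omega) (by omega)
    · obtain ⟨rfl, rfl, h⟩ := h
      exact NHT.pmi hf H.T (j := 2) (by omega) (by omega) (by omega) (by omega) (by omega) (by omega)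
    · obtain ⟨rfl, rfl, h⟩ := h
      exact NHT.pm hf H.T (j := 1) (by omega) (by omega) (by omega) (by omega) (by omega) (by omega)
    · obtain ⟨rfl, rfl, h⟩ := h
      exact NHT.pmi hf H.T (j := 1) (by omega) (by omega) (by omega) (by omega) (by omega) (by omega)
    · obtain ⟨rfl, rfl, h⟩ := h
      exact NHT.pm hf H.T (j := 0) (by omega) (by omega) (by omega) (by omega) (by omega) (by omega)
    · obtain ⟨rfl, rfl, h⟩ := h
      exact NHT.pmi hf H.T (j := 0) (by omega) (by omega) (by omega) (by omega) (by omega) (by omega)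
    · obtain ⟨rfl, rfl, h⟩ := h
      exact LW _ _ _ _ (by omega) (by omega) (by omega) (by omega) (by omega) (by omega)
    · obtain ⟨rfl, rfl, h⟩ := h
      exact rm1i hf H.T (p := 0) (j := 4) (by omega) (by omega) (by omega) (by omega) (by omega) (by omega) (by omega)
    · obtain ⟨rfl, rfl, h⟩ := h
      exact rm1 hf H.T (p := 0) (j := 3) (by omega) (by omega) (by omega) (by omega) (by omega) (by omega) (by omega)
    · obtain ⟨rfl, rfl, h⟩ := h
      exact rm1i hf H.T (p := 1) (j := 4) (by omega) (by omega) (by omega) (by omega) (by omega) (by omega) (by omega)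
    · obtain ⟨rfl, rfl, h⟩ := h
      exact rm1 hf H.T (p := 1) (j := 3) (by omega) (by omega) (by omega) (by omega) (by omega) (by omega) (by omega)
    · obtain ⟨rfl, rfl, h⟩ := h
      exact NHT.p0i hf H.T (j := 4) (by omega) (by omega) (by omega) (by omega) (by omega) (by omega)
    · obtain ⟨rfl, rfl, h⟩ := h
      exact rm1i hf H.T (p := 0) (j := 3) (by omega) (by omega) (by omega) (by omega) (by omega) (by omega) (by omega)
    · obtain ⟨rfl, rfl, h⟩ := h
      exact rm1 hf H.T (p := 0) (j := 2) (by omega) (by omega) (by omega) (by omega) (by omega) (by omega) (by omega)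
    · obtain ⟨rfl, rfl, h⟩ := h
      exact rm1i hf H.T (p := 1) (j := 3) (by omega) (by omega) (by omega) (by omega) (by omega) (by omega) (by omega)
    · obtain ⟨rfl, rfl, h⟩ := h
      exact rm1 hf H.T (p := 1) (j := 2) (by omega) (by omega) (by omega) (by omega) (by omega) (by omega) (by omega)
    · obtain ⟨rfl, rfl, h⟩ := h
      exact NHT.p0i hf H.T (j := 3) (by omega) (by omega) (by omega) (by omega) (by omega) (by omega)
    · obtain ⟨rfl, rfl, h⟩ := h
      exact rm1i hf H.T (p := 0) (j := 2) (by omega) (by omega) (by omega) (by omega) (by omega) (by omega) (by omega)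
    · obtain ⟨rfl, rfl, h⟩ := h
      exact rm1 hf H.T (p := 0) (j := 1) (by omega) (by omega) (by omega) (by omega) (by omega) (by omega) (by omega)
    · obtain ⟨rfl, rfl, h⟩ := h
      exact rm1i hf H.T (p := 1) (j := 2) (by omega) (by omega) (by omega) (by omega) (by omega) (by omega) (by omega)
    · obtain ⟨rfl, rfl, h⟩ := h
      exact rm1 hf H.T (p := 1) (j := 1) (by omega) (by omega) (by omega) (by omega) (by omega) (by omega) (by omega)
    · obtain ⟨rfl, rfl, h⟩ := h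
      exact NHT.p0i hf H.T (j := 2) (by omega) (by omega) (by omega) (by omega) (by omega) (by omega)
    · obtain ⟨rfl, rfl, h⟩ := h
      exact rm1i hf H.T (p := 0) (j := 1) (by omega) (by omega) (by omega) (by omega) (by omega) (by omega) (by omega)
    · obtain ⟨rfl, rfl, h⟩ := h
      exact rm1 hf H.T (p := 0) (j := 0) (by omega) (by omega) (by omega) (by omega) (by omega) (by omega) (by omega)
    · obtain ⟨rfl, rfl, h⟩ := h
      exact rm1i hf H.T (p := 1) (j := 1) (by omega) (by omega) (by omega) (by omega) (by omega) (by omega) (by omega)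
    · obtain ⟨rfl, rfl, h⟩ := h
      exact rm1 hf H.T (p := 1) (j := 0) (by omega) (by omega) (by omega) (by omega) (by omega) (by omega) (by omega)
    · obtain ⟨rfl, rfl, h⟩ := h
      exact NHT.p0i hf H.T (j := 1) (by omega) (by omega) (by omega) (by omega) (by omega) (by omega)
    · obtain ⟨rfl, rfl, h⟩ := h
      exact LW _ _ _ _ (by omega) (by omega) (by omega) (by omega) (by omega) (by omega)
    · obtain ⟨rfl, rfl, h⟩ := h
      exact NHT.p0i hf H.T (j := 4) (by omega) (by omega) (by omega) (by omega) (by omega) (by omega)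
    · obtain ⟨rfl, rfl, h⟩ := h
      exact NHT.p0 hf H.T (j := 3) (by omega) (by omega) (by omega) (by omega) (by omega) (by omega)
    · obtain ⟨rfl, rfl, h⟩ := h
      exact NHT.p0i hf H.T (j := 3) (by omega) (by omega) (by omega) (by omega) (by omega) (by omega)
    · obtain ⟨rfl, rfl, h⟩ := h
      exact NHT.p0 hf H.T (j := 2) (by omega) (by omega) (by omega) (by omega) (by omega) (by omega)
    · obtain ⟨rfl, rfl, h⟩ := h
      exact NHT.p0i hf H.T (j := 2) (by omega) (by omega) (by omega) (by omega) (by omega) (by omega)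
    · obtain ⟨rfl, rfl, h⟩ := h
      exact NHT.p0 hf H.T (j := 1) (by omega) (by omega) (by omega) (by omega) (by omega) (by omega)
    · obtain ⟨rfl, rfl, h⟩ := h
      exact NHT.p0i hf H.T (j := 1) (by omega) (by omega) (by omega) (by omega) (by omega) (by omega)
    · obtain ⟨rfl, rfl, h⟩ := h
      exact NHT.p0 hf H.T (j := 0) (by omega) (by omega) (by omega) (by omega) (by omega) (by omega)
    · obtain ⟨rfl, rfl, h⟩ := h
      exact LW _ _ _ _ (by omega) (by omega) (by omega) (by omega) (by omega) (by omega)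
    · obtain ⟨rfl, rfl, h⟩ := h
      exact r1i hf H.T (p := 0) (j := 5) (by omega) (by omega) (by omega) (by omega) (by omega) (by omega) (by omega)
    · obtain ⟨rfl, rfl, h⟩ := h
      exact r1 hf H.T (p := 0) (j := 4) (by omega) (by omega) (by omega) (by omega) (by omega) (by omega) (by omega)
    · obtain ⟨rfl, rfl, h⟩ := h
      exact r1i hf H.T (p := 1) (j := 5) (by omega) (by omega) (by omega) (by omega) (by omega) (by omega) (by omega)
    · obtain ⟨rfl, rfl, h⟩ := h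
      exact r1 hf H.T (p := 1) (j := 4) (by omega) (by omega) (by omega) (by omega) (by omega) (by omega) (by omega)
    · obtain ⟨rfl, rfl, h⟩ := h
      exact NHT.p2 hf H.T (j := 4) (by omega) (by omega) (by omega) (by omega) (by omega) (by omega)
    · obtain ⟨rfl, rfl, h⟩ := h
      exact r1i hf H.T (p := 0) (j := 4) (by omega) (by omega) (by omega) (by omega) (by omega) (by omega) (by omega)
    · obtain ⟨rfl, rfl, h⟩ := h
      exact r1 hf H.T (p := 0) (j := 3) (by omega) (by omega) (by omega) (by omega) (by omega) (by omega) (by omega)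
    · obtain ⟨rfl, rfl, h⟩ := h
      exact r1i hf H.T (p := 1) (j := 4) (by omega) (by omega) (by omega) (by omega) (by omega) (by omega) (by omega)
    · obtain ⟨rfl, rfl, h⟩ := h
      exact r1 hf H.T (p := 1) (j := 3) (by omega) (by omega) (by omega) (by omega) (by omega) (by omega) (by omega)
    · obtain ⟨rfl, rfl, h⟩ := h
      exact NHT.p2 hf H.T (j := 3) (by omega) (by omega) (by omega) (by omega) (by omega) (by omega)
    · obtain ⟨rfl, rfl, h⟩ := h
      exact r1i hf H.T (p := 0) (j := 3) (by omega) (by omega) (by omega) (by omega) (by omega) (by omega) (by omega)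
    · obtain ⟨rfl, rfl, h⟩ := h
      exact r1 hf H.T (p := 0) (j := 2) (by omega) (by omega) (by omega) (by omega) (by omega) (by omega) (by omega)
    · obtain ⟨rfl, rfl, h⟩ := h
      exact r1i hf H.T (p := 1) (j := 3) (by omega) (by omega) (by omega) (by omega) (by omega) (by omega) (by omega)
    · obtain ⟨rfl, rfl, h⟩ := h
      exact r1 hf H.T (p := 1) (j := 2) (by omega) (by omega) (by omega) (by omega) (by omega) (by omega) (by omega)
    · obtain ⟨rfl, rfl, h⟩ := h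
      exact NHT.p2 hf H.T (j := 2) (by omega) (by omega) (by omega) (by omega) (by omega) (by omega)
    · obtain ⟨rfl, rfl, h⟩ := h
      exact r1i hf H.T (p := 0) (j := 2) (by omega) (by omega) (by omega) (by omega) (by omega) (by omega) (by omega)
    · obtain ⟨rfl, rfl, h⟩ := h
      exact r1 hf H.T (p := 0) (j := 1) (by omega) (by omega) (by omega) (by omega) (by omega) (by omega) (by omega)
    · obtain ⟨rfl, rfl, h⟩ := h
      exact r1i hf H.T (p := 1) (j := 2) (by omega) (by omega) (by omega) (by omega) (by omega) (by omega) (by omega)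
    · obtain ⟨rfl, rfl, h⟩ := h
      exact r1 hf H.T (p := 1) (j := 1) (by omega) (by omega) (by omega) (by omega) (by omega) (by omega) (by omega)
    · obtain ⟨rfl, rfl, h⟩ := h
      exact NHT.p2 hf H.T (j := 1) (by omega) (by omega) (by omega) (by omega) (by omega) (by omega)
    · obtain ⟨rfl, rfl, h⟩ := h
      exact LW _ _ _ _ (by omega) (by omega) (by omega) (by omega) (by omega) (by omega)
    · obtain ⟨rfl, rfl, h⟩ := h
      exact NHT.p2 hf H.T (j := 4) (by omega) (by omega) (by omega) (by omega) (by omega) (by omega)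
    · obtain ⟨rfl, rfl, h⟩ := h
      exact NHT.p2 hf H.T (j := 3) (by omega) (by omega) (by omega) (by omega) (by omega) (by omega)
    · obtain ⟨rfl, rfl, h⟩ := h
      exact NHT.p2 hf H.T (j := 2) (by omega) (by omega) (by omega) (by omega) (by omega) (by omega)
    · obtain ⟨rfl, rfl, h⟩ := h
      exact NHT.p2 hf H.T (j := 1) (by omega) (by omega) (by omega) (by omega) (by omega) (by omega)
    · obtain ⟨rfl, rfl, h⟩ := h
      exact U2 _ _ _ _ (by omega) (by omega) (by omega) (by omega) (by omega) (by omega)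
    · obtain ⟨rfl, rfl, h⟩ := h
      exact U6 _ _ _ _ (by omega) (by omega) (by omega) (by omega) (by omega) (by omega)
    · obtain ⟨rfl, rfl, rfl, rfl⟩ := h
      exact hu1' _ _ _ _ (by omega) (by omega) (by omega) (by omega)
    · obtain ⟨rfl, rfl, rfl, rfl⟩ := h
      exact f1' _ _ _ _ (by omega) (by omega) (by omega) (by omega)
    · obtain ⟨rfl, rfl, rfl, rfl⟩ := h
      exact f2' _ _ _ _ (by omega) (by omega) (by omega) (by omega)

end Pool.Agent.SNT.NDB
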