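import Pool.Agent.SNT.NWB

set_option autoImplicit false
set_option synthInstance.maxSize 100000
set_option synthInstance.maxHeartbeats 4000000

/-! the ten cells of the layer 6 k + 3 next to the diagonal -/

namespace Pool.Agent.SNT.NDB

open Pool.Agent.SNT Pool.Agent.SNT.Loc Pool.Agent.SNT.LW Pool.Agent.SNT.NHZ Pool.Agent.SNT.NW

variable {f : ℕ → ℕ → ℕ → ℕ → Prop}

theorem p3_7_3_chk : check 11 7 9 9 0 1 0 0 2
    (fun j n p q => decide ((j = 4 ∧ n = 1 ∧ q ≤ p + 0 ∧ ((p + q) % 2 = 1 ∧ p % 2 = 0))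
      ∨ (j = 6 ∧ n = 1 ∧ 5 ≤ p ∧ q ≤ p + 0 ∧ ((p + q) % 2 = 1 ∧ p % 2 = 1))
      ∨ (j = 10 ∧ n = 4 ∧ q ≤ p + 0 ∧ (p = q ∧ p % 2 = 1))
      ∨ (j = 5 ∧ n = 5 ∧ p = 7 ∧ q = 3)))
    (fun j n p q => decide ((j = 4 ∧ n = 1 ∧ q ≤ p + 0 ∧ ¬ ((p + q) % 2 = 1 ∧ p % 2 = 0))
      ∨ (j = 6 ∧ n = 1 ∧ 5 ≤ p ∧ q ≤ p + 0 ∧ ¬ ((p + q) % 2 = 1 ∧ p % 2 = 1))
      ∨ (j = 10 ∧ n = 4 ∧ q ≤ p + 0 ∧ ¬ (p = q ∧ p % 2 = 1))
      ∨ (j = 1 ∧ n = 1 ∧ q ≤ p + 0)
      ∨ (j = 1 ∧ n = 2 ∧ q ≤ p + 0)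
      ∨ (j = 1 ∧ n = 3 ∧ q ≤ p + 0)
      ∨ (j = 7 ∧ n = 3 ∧ q + 2 ≤ p)
      ∨ (j = 9 ∧ n = 3 ∧ q + 1 ≤ p)
      ∨ (j = 1 ∧ n = 4 ∧ q ≤ p + 0)
      ∨ (j = 8 ∧ n = 4 ∧ q + 2 ≤ p)
      ∨ (j = 9 ∧ n = 4 ∧ 4 ≤ q ∧ q + 2 ≤ p)
      ∨ (j = 11 ∧ n = 4 ∧ 4 ≤ q ∧ q + 1 ≤ p)
      ∨ (j = 1 ∧ n = 5 ∧ q ≤ p + 0)
      ∨ (j = 11 ∧ n = 5 ∧ 4 ≤ q ∧ q + 1 ≤ p)
      ∨ (j = 4 ∧ n = 5 ∧ 5 ≤ p ∧ 4 ≤ q ∧ q ≤ 4 ∧ p % 2 = 1)
      ∨ (j = 8 ∧ n = 5 ∧ 7 ≤ p ∧ 4 ≤ q ∧ q ≤ 4 ∧ p % 2 = 1)))
    285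
    0xab78308530008538a06178006180a052500054e2a02ee0304098004098405318e05090305318005318403b88e029d0303b88003b88402a98303c50003c504055a0303e88003e88402d20303ed8003ed8403b40e02988303b40003b404085403061800061804061b0e085703061b00061b0402a90303c48003c48402d18303ed0003ed04040a0e02ee83040a00040a04084e8e0ab303084e80084e84061f8e085b83061f80061f84043a0e031e03043a00043a040439000559da04050e02e98304050004050404008e02e50304008004008402f50e05598302f50002f50404058e02ea03040580040584042d8e031203042d80042d84043e8e032303043e80043e8402f98304150004150404298e030e03042980042984043e0e032283043e00043e040ab8030853800853840ab70e0d1b830ab7000ab70406e30006e20006650004a70004a6000bd8000bce000abb8e0ab68e0a938e0a930e0a8e8e0a8e0e0a898e09a00e099b0e085c0e085b8e08570e06ef0006ef0e06ee0006e60006e60e06e50006750006750e055a0e04b30004b30e04aa0e02068e02060e02028e02020e02018e01fe0e01fd8e01df0e01de8e01de0e01dd8e01da8e01da0e01d98e01d90e01d60e01d58e01d50e01d48e01b68e01b60e01b58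e01b20e01b18e01b10e01b08e01ad8e01ad0e01ac8e01ac0e01898e01890e01888e01850e01848e01840e01610e01608e01600e015c8e015c0e015b8e0d1b870d1b070d16870cf3070cf2870cee070bfb870bd80f0bd7870bd7070bd3070bd2870bce0f0abb870ab6870a93870a93070a8e870a8e070a898709a007099b07097387096a87085c07085b87085b07085707085687085207073b8707338706ef0f06ee0f06e60f06e50f06750f055a07055587055487054d8705048704fc8704b30f04aa0f031e87031d87030d8702cd8702cc8702c58702bc87027c87027b87027487026b8702078702070702068702060702030702028702020702018701fe0701fd8701df0701de8701de0701dd8701da8701da0701d98701d90701d60701d58701d50701d48701b68701b60701b58701b50701b20701b18701b10701b08701ad8701ad0701ac8701ac07018e07018d87018d07018987018907018887018507018487018407016587016507016487016107016087016007015c87015c07015b87 = true := by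
  decide +kernel

theorem p3_7_3 (hf : Rule f) {k c n : ℕ} (H : NWJ f k c n)
    (LW : ∀ M R x y : ℕ, M + 1 = 6 * k → c ≤ R + 12 → R ≤ c + 12 → 2 * n ≤ x + 20 → y ≤ x → x ≤ y + 4 * k → ¬ f M R x y)
    (U2 : ∀ M R x y : ℕ, M = 6 * k + 2 → R = c + 2 → y = 2 * n + 4 → x % 2 = 1 → 2 * n + 5 ≤ x →
      x + 5 ≤ 2 * n + 2 * k → ¬ f M R x y)
    (U6 : ∀ M R x y : ℕ, M = 6 * k + 6 → R = c + 2 → y = 2 * n + 4 → x % 2 = 1 → 2 * n + 7 ≤ x →
      x + 5 ≤ 2 * n + 2 * k → ¬ f M R x y) :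
    ¬ f (6 * k + 3) (c + 2) (2 * n + 7) (2 * n + 3) := by
  intro hg
  have hk := H.T.hk
  have hc := H.T.hc
  have h4 := H.T.h4
  have hb := H.T.hb
  have hN := H.T.hN2
  have hg' : ∀ M R x y : ℕ, M = 6 * k + 3 → R = c + 2 → x = 2 * n + 7 → y = 2 * n + 3 → f M R x y := by
    intro M R x y e1 e2 e3 e4
    rw [e1, e2, e3, e4]
    exact hg
  clear hg
  obtain ⟨a0, ha0⟩ : ∃ z, z + 2 = 6 * k := ⟨6 * k - 2, by omega⟩
  obtain ⟨b0, hb0⟩ : ∃ z, z + 3 = c := ⟨c - 3, by omega⟩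
  obtain ⟨x0, hx0⟩ : ∃ z, z = 2 * n + 0 := ⟨_, rfl⟩
  obtain ⟨y0, hy0⟩ : ∃ z, z = 2 * n + 0 := ⟨_, rfl⟩
  refine check_sound hf (a0 := a0) (b0 := b0) (x0 := x0) (y0 := y0) p3_7_3_chk
    ⟨fun _ => by omega, fun h => absurd h (by decide), fun h => absurd h (by decide), by omega, by omega,
      by omega, by omega⟩ ?_ ?_
  · intro j m p q hr h
    obtain ⟨-, -, -, -, hp1, hp2, hq1, hq2⟩ := hr
    replace h := of_decide_eq_true h
    rcases h with h | h | h | h
    · obtain ⟨rfl, rfl, h⟩ := h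
      exact (WrapC.v2 H.c2 (by omega) (by omega) (by omega) (by omega) (by omega) (by omega) (by omega)).mpr (by omega)
    · obtain ⟨rfl, rfl, h⟩ := h
      exact (WrapC.v0 H.c4 (by omega) (by omega) (by omega) (by omega) (by omega) (by omega) (by omega)).mpr (by omega)
    · obtain ⟨rfl, rfl, h⟩ := h
      exact (w3v H.c8 (by omega) (by omega) (by omega) (by omega) (by omega) (by omega) (by omega) (by omega)).mpr (by omega)
    · obtain ⟨rfl, rfl, rfl, rfl⟩ := h
      exact hg' _ _ _ _ (by omega) (by omega) (by omega) (by omega)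
  · intro j m p q hr h
    obtain ⟨-, -, -, -, hp1, hp2, hq1, hq2⟩ := hr
    replace h := of_decide_eq_true h
    rcases h with h | h | h | h | h | h | h | h | h | h | h | h | h | h | h | h
    · obtain ⟨rfl, rfl, h⟩ := h
      exact mt (WrapC.v2 H.c2 (by omega) (by omega) (by omega) (by omega) (by omega) (by omega) (by omega)).mp (by omega)
    · obtain ⟨rfl, rfl, h⟩ := h
      exact mt (WrapC.v0 H.c4 (by omega) (by omega) (by omega) (by omega) (by omega) (by omega) (by omega)).mp (by omega)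
    · obtain ⟨rfl, rfl, h⟩ := h
      exact mt (w3v H.c8 (by omega) (by omega) (by omega) (by omega) (by omega) (by omega) (by omega) (by omega)).mp (by omega)
    · obtain ⟨rfl, rfl, h⟩ := h
      exact LW _ _ _ _ (by omega) (by omega) (by omega) (by omega) (by omega) (by omega)
    · obtain ⟨rfl, rfl, h⟩ := h
      exact LW _ _ _ _ (by omega) (by omega) (by omega) (by omega) (by omega) (by omega)
    · obtain ⟨rfl, rfl, h⟩ := h
      exact LW _ _ _ _ (by omega) (by omega) (by omega) (by omega) (by omega) (by omega)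
    · obtain ⟨rfl, rfl, h⟩ := h
      exact NHT.p0 hf H.T (j := 1) (by omega) (by omega) (by omega) (by omega) (by omega) (by omega)
    · obtain ⟨rfl, rfl, h⟩ := h
      exact NHT.p0 hf H.T (j := 0) (by omega) (by omega) (by omega) (by omega) (by omega) (by omega)
    · obtain ⟨rfl, rfl, h⟩ := h
      exact LW _ _ _ _ (by omega) (by omega) (by omega) (by omega) (by omega) (by omega)
    · obtain ⟨rfl, rfl, h⟩ := h
      exact r1 hf H.T (p := 0) (j := 1) (by omega) (by omega) (by omega) (by omega) (by omega) (by omega) (by omega)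
    · obtain ⟨rfl, rfl, h⟩ := h
      exact NHT.p2 hf H.T (j := 1) (by omega) (by omega) (by omega) (by omega) (by omega) (by omega)
    · obtain ⟨rfl, rfl, h⟩ := h
      exact NHT.p2 hf H.T (j := 0) (by omega) (by omega) (by omega) (by omega) (by omega) (by omega)
    · obtain ⟨rfl, rfl, h⟩ := h
      exact LW _ _ _ _ (by omega) (by omega) (by omega) (by omega) (by omega) (by omega)
    · obtain ⟨rfl, rfl, h⟩ := h
      exact NHT.p2 hf H.T (j := 0) (by omega) (by omega) (by omega) (by omega) (by omega) (by omega)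
    · obtain ⟨rfl, rfl, h⟩ := h
      exact U2 _ _ _ _ (by omega) (by omega) (by omega) (by omega) (by omega) (by omega)
    · obtain ⟨rfl, rfl, h⟩ := h
      exact U6 _ _ _ _ (by omega) (by omega) (by omega) (by omega) (by omega) (by omega)

theorem p3_8_3_chk : check 5 5 6 6 0 1 1 0 0
    (fun j n p q => decide ((j = 5 ∧ n = 3 ∧ p = 3 ∧ q = 3)))
    (fun j n p q => decide ((j = 1 ∧ n = 1)
      ∨ (j = 1 ∧ n = 2)
      ∨ (j = 4 ∧ n = 2 ∧ q ≤ p + 1)
      ∨ (j = 1 ∧ n = 3)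
      ∨ (j = 4 ∧ n = 3 ∧ 4 ≤ q ∧ p % 2 = 0)))
    106
    0xe203013c0001a8ea00f10000f49a01a88300e20000e204014f0001ac5200df8301398001a8f201ab8001ab8400df0301390001390401a88300df0000df0400f183014b80014b8400f103014b00014b0400e283013c80013c8400f483014e80014e8400f78301518001518400e583013f80013f8400f80301520001520400e303013d00013d0400e60301400001400402028002028f01ac0701a90701a807019a0701998701970701968701960701938701930700f50700f40700ee0700d10700d00700ca07009e07009d87009d07009b07009a87009a07009787009707009687009487009407009387008c07008b87008b07008907008887008807008787008607008587008507008487008287008207008187007a07007987007907007707007687007607007587007407007387007307007287007087007007006f87 = true := by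
  decide +kernel

theorem p3_8_3 (hf : Rule f) {k c n : ℕ} (H : NWJ f k c n)
    (LW : ∀ M R x y : ℕ, M + 1 = 6 * k → c ≤ R + 12 → R ≤ c + 12 → 2 * n ≤ x + 20 → y ≤ x → x ≤ y + 4 * k → ¬ f M R x y)
    (U2 : ∀ M R x y : ℕ, M = 6 * k + 2 → R = c + 2 → y = 2 * n + 4 → x % 2 = 1 → 2 * n + 5 ≤ x →
      x + 5 ≤ 2 * n + 2 * k → ¬ f M R x y)
    (U6 : ∀ M R x y : ℕ, M = 6 * k + 6 → R = c + 2 → y = 2 * n + 4 → x % 2 = 1 → 2 * n + 7 ≤ x →
      x + 5 ≤ 2 * n + 2 * k → ¬ f M R x y) :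
    ¬ f (6 * k + 3) (c + 2) (2 * n + 8) (2 * n + 3) := by
  intro hg
  have hk := H.T.hk
  have hc := H.T.hc
  have h4 := H.T.h4
  have hb := H.T.hb
  have hN := H.T.hN2
  have hg' : ∀ M R x y : ℕ, M = 6 * k + 3 → R = c + 2 → x = 2 * n + 8 → y = 2 * n + 3 → f M R x y := by
    intro M R x y e1 e2 e3 e4
    rw [e1, e2, e3, e4]
    exact hg
  clear hg
  obtain ⟨a0, ha0⟩ : ∃ z, z + 2 = 6 * k := ⟨6 * k - 2, by omega⟩
  obtain ⟨b0, hb0⟩ : ∃ z, z + 1 = c := ⟨c - 1, by omega⟩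
  obtain ⟨x0, hx0⟩ : ∃ z, z = 2 * n + 5 := ⟨_, rfl⟩
  obtain ⟨y0, hy0⟩ : ∃ z, z = 2 * n + 0 := ⟨_, rfl⟩
  refine check_sound hf (a0 := a0) (b0 := b0) (x0 := x0) (y0 := y0) p3_8_3_chk
    ⟨fun h => absurd h (by decide), fun h => absurd h (by decide), fun h => absurd h (by decide), by omega, by omega,
      by omega, by omega⟩ ?_ ?_
  · intro j m p q hr h
    obtain ⟨-, -, -, -, hp1, hp2, hq1, hq2⟩ := hr
    replace h := of_decide_eq_true h
    obtain ⟨rfl, rfl, rfl, rfl⟩ := h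
    exact hg' _ _ _ _ (by omega) (by omega) (by omega) (by omega)
  · intro j m p q hr h
    obtain ⟨-, -, -, -, hp1, hp2, hq1, hq2⟩ := hr
    replace h := of_decide_eq_true h
    rcases h with h | h | h | h | h
    · obtain ⟨rfl, rfl⟩ := h
      exact LW _ _ _ _ (by omega) (by omega) (by omega) (by omega) (by omega) (by omega)
    · obtain ⟨rfl, rfl⟩ := h
      exact LW _ _ _ _ (by omega) (by omega) (by omega) (by omega) (by omega) (by omega)
    · obtain ⟨rfl, rfl, h⟩ := h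
      exact r1 hf H.T (p := 0) (j := 3) (by omega) (by omega) (by omega) (by omega) (by omega) (by omega) (by omega)
    · obtain ⟨rfl, rfl⟩ := h
      exact LW _ _ _ _ (by omega) (by omega) (by omega) (by omega) (by omega) (by omega)
    · obtain ⟨rfl, rfl, h⟩ := h
      exact U2 _ _ _ _ (by omega) (by omega) (by omega) (by omega) (by omega) (by omega)

theorem p3_9_3_chk : check 5 5 5 6 0 1 0 0 0
    (fun j n p q => decide ((j = 5 ∧ n = 3 ∧ p = 3 ∧ q = 3)))
    (fun j n p q => decide ((j = 1 ∧ n = 1)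
      ∨ (j = 1 ∧ n = 2)
      ∨ (j = 4 ∧ n = 2 ∧ q ≤ p + 2)
      ∨ (j = 1 ∧ n = 3)
      ∨ (j = 4 ∧ n = 3 ∧ 4 ≤ q ∧ p % 2 = 1)))
    84
    0xbb030106000163fa00ca8301150001150401160001645200bb8301068001068400bc0301070001070400ca8301158001158400be0301090001090400cd0301180001180400be8301098001098400bf03010a00010a0400cd8301188001188400ce0301190001190401ae8001ae8f01640701610701600701550701548701540701520701518701510700cb0700ca0700ad0700ac07008307008287008207008187008007007f87007f07007e87007c87007c07007407007387007307007287007107007087007007006f87006e07006d87006d07006c87006507006487006407006387006207006187006107006087005f07005e87005e07005d87 = true := by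
  decide +kernel

theorem p3_9_3 (hf : Rule f) {k c n : ℕ} (H : NWJ f k c n)
    (LW : ∀ M R x y : ℕ, M + 1 = 6 * k → c ≤ R + 12 → R ≤ c + 12 → 2 * n ≤ x + 20 → y ≤ x → x ≤ y + 4 * k → ¬ f M R x y)
    (U2 : ∀ M R x y : ℕ, M = 6 * k + 2 → R = c + 2 → y = 2 * n + 4 → x % 2 = 1 → 2 * n + 5 ≤ x →
      x + 5 ≤ 2 * n + 2 * k → ¬ f M R x y)
    (U6 : ∀ M R x y : ℕ, M = 6 * k + 6 → R = c + 2 → y = 2 * n + 4 → x % 2 = 1 → 2 * n + 7 ≤ x →
      x + 5 ≤ 2 * n + 2 * k → ¬ f M R x y) :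
    ¬ f (6 * k + 3) (c + 2) (2 * n + 9) (2 * n + 3) := by
  intro hg
  have hk := H.T.hk
  have hc := H.T.hc
  have h4 := H.T.h4
  have hb := H.T.hb
  have hN := H.T.hN2
  have hg' : ∀ M R x y : ℕ, M = 6 * k + 3 → R = c + 2 → x = 2 * n + 9 → y = 2 * n + 3 → f M R x y := by
    intro M R x y e1 e2 e3 e4
    rw [e1, e2, e3, e4]
    exact hg
  clear hg
  obtain ⟨a0, ha0⟩ : ∃ z, z + 2 = 6 * k := ⟨6 * k - 2, by omega⟩
  obtain ⟨b0, hb0⟩ : ∃ z, z + 1 = c := ⟨c - 1, by omega⟩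
  obtain ⟨x0, hx0⟩ : ∃ z, z = 2 * n + 6 := ⟨_, rfl⟩
  obtain ⟨y0, hy0⟩ : ∃ z, z = 2 * n + 0 := ⟨_, rfl⟩
  refine check_sound hf (a0 := a0) (b0 := b0) (x0 := x0) (y0 := y0) p3_9_3_chk
    ⟨fun h => absurd h (by decide), fun h => absurd h (by decide), fun h => absurd h (by decide), by omega, by omega,
      by omega, by omega⟩ ?_ ?_
  · intro j m p q hr h
    obtain ⟨-, -, -, -, hp1, hp2, hq1, hq2⟩ := hr
    replace h := of_decide_eq_true h
    obtain ⟨rfl, rfl, rfl, rfl⟩ := h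
    exact hg' _ _ _ _ (by omega) (by omega) (by omega) (by omega)
  · intro j m p q hr h
    obtain ⟨-, -, -, -, hp1, hp2, hq1, hq2⟩ := hr
    replace h := of_decide_eq_true h
    rcases h with h | h | h | h | h
    · obtain ⟨rfl, rfl⟩ := h
      exact LW _ _ _ _ (by omega) (by omega) (by omega) (by omega) (by omega) (by omega)
    · obtain ⟨rfl, rfl⟩ := h
      exact LW _ _ _ _ (by omega) (by omega) (by omega) (by omega) (by omega) (by omega)
    · obtain ⟨rfl, rfl, h⟩ := h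
      exact r1 hf H.T (p := 0) (j := 3) (by omega) (by omega) (by omega) (by omega) (by omega) (by omega) (by omega)
    · obtain ⟨rfl, rfl⟩ := h
      exact LW _ _ _ _ (by omega) (by omega) (by omega) (by omega) (by omega) (by omega)
    · obtain ⟨rfl, rfl, h⟩ := h
      exact U2 _ _ _ _ (by omega) (by omega) (by omega) (by omega) (by omega) (by omega)

theorem p3_7_2_chk : check 11 7 10 10 0 1 1 1 2
    (fun j n p q => decide ((j = 4 ∧ n = 2 ∧ q ≤ p + 0 ∧ (p = q ∧ p % 2 = 0))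
      ∨ (j = 6 ∧ n = 1 ∧ 6 ≤ p ∧ q ≤ p + 0 ∧ ((p + q) % 2 = 1 ∧ p % 2 = 0))
      ∨ (j = 10 ∧ n = 4 ∧ q ≤ p + 0 ∧ (p = q ∧ p % 2 = 0))
      ∨ (j = 5 ∧ n = 5 ∧ p = 8 ∧ q = 3)))
    (fun j n p q => decide ((j = 4 ∧ n = 2 ∧ q ≤ p + 0 ∧ ¬ (p = q ∧ p % 2 = 0))
      ∨ (j = 6 ∧ n = 1 ∧ 6 ≤ p ∧ q ≤ p + 0 ∧ ¬ ((p + q) % 2 = 1 ∧ p % 2 = 0))
      ∨ (j = 10 ∧ n = 4 ∧ q ≤ p + 0 ∧ ¬ (p = q ∧ p % 2 = 0))
      ∨ (j = 1 ∧ n = 1 ∧ q ≤ p + 0)
      ∨ (j = 9 ∧ n = 1 ∧ q + 1 ≤ p)
      ∨ (j = 1 ∧ n = 2 ∧ q ≤ p + 0)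
      ∨ (j = 2 ∧ n = 2 ∧ q + 4 ≤ p)
      ∨ (j = 9 ∧ n = 2 ∧ q + 1 ≤ p)
      ∨ (j = 10 ∧ n = 2 ∧ q + 1 ≤ p)
      ∨ (j = 1 ∧ n = 3 ∧ q ≤ p + 0)
      ∨ (j = 3 ∧ n = 3 ∧ q + 4 ≤ p)
      ∨ (j = 5 ∧ n = 3 ∧ q + 3 ≤ p)
      ∨ (j = 7 ∧ n = 3 ∧ q + 2 ≤ p)
      ∨ (j = 9 ∧ n = 3 ∧ q + 1 ≤ p)
      ∨ (j = 1 ∧ n = 4 ∧ q ≤ p + 0)
      ∨ (j = 3 ∧ n = 4 ∧ q + 5 ≤ p)
      ∨ (j = 4 ∧ n = 4 ∧ q + 4 ≤ p)
      ∨ (j = 5 ∧ n = 4 ∧ q + 4 ≤ p)
      ∨ (j = 7 ∧ n = 4 ∧ q + 3 ≤ p)
      ∨ (j = 8 ∧ n = 4 ∧ q + 2 ≤ p)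
      ∨ (j = 9 ∧ n = 4 ∧ q + 2 ≤ p)
      ∨ (j = 11 ∧ n = 4 ∧ q + 1 ≤ p)
      ∨ (j = 1 ∧ n = 5 ∧ q ≤ p + 0)
      ∨ (j = 7 ∧ n = 5 ∧ 5 ≤ q ∧ q + 3 ≤ p)
      ∨ (j = 11 ∧ n = 5 ∧ 5 ≤ q ∧ q + 1 ≤ p)
      ∨ (j = 4 ∧ n = 5 ∧ 6 ≤ p ∧ 5 ≤ q ∧ q ≤ 5 ∧ p % 2 = 0)
      ∨ (j = 8 ∧ n = 5 ∧ 8 ≤ p ∧ 5 ≤ q ∧ q ≤ 5 ∧ p % 2 = 0)))
    415
    0x3db03053980069cd203ae83050c80050c8405310e03d303053100053104063883066a80066a8403a98305078005078403a08304fe80068f6a03cd83053080053084050c8e03ae83050c80050c8403a90e069c8303a90003a904053e8e03e083053e80053e8406258006330006330e06330406658e07918306658006658407880e0d3c830a49000a498a0788000788040d3c830a49000a4e12075a80075a8407568e0a4a03075680075684078c8307918007918404c78e03698304c78004c78406578e062583065780065784049e0e034003049e00049e04049d8e033f83049d80049d8404958e033783049580049584049a8e033c83049a80049a840a4d83078c00078c0407510e0a44830751000751040a488e0d3c030a48800a4884049b0e033d03049b00049b0404f98e039b8304f9800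4f9840a4e0e0d41830a4e000a4e0404a28e03448304a28004a28404960e03380304960004960404fa0e039c0304fa0004fa04053880052680069bd206854a04f48e03968304f48004f48405218e03c38305218005218407518e0a450307518007518403ad8e037b8303ad8003ad8405270e03c90305270005270405220e03c4030522000522040d3c0e102f830d3c000d3c0403ad0e037b0303ad0003ad0408830008790008820008780007e3000ea0000e95000d0a0e0a530e0a528e0a520e0a4d8e0a4d0e0a480e08908e088f8e08868008868e08858008858e07f98007f98e069c8e066a0e06698e06690e06648e06640e06010e06008e05fc0e05fb8e05f200050b8e050b0e05060e04d48e034a0e03498e03448e02828e02820e02818e02810e02808e027d8e027d0e027c8e027c0e027b8e02780e02778e02770e02768e02508e02500e024f8e024f0e024e8e024b8e024b0e024a8e024a0e02498e02468e02460e02458e02450e02448e021e0e021d8e02198e02190e02188e02180e02148e02140e02138e02130e01ec8e01ec0e01eb8e01e78e01e70e01e68e01e28e01e20e01e18e01ba8e01ba0e01b98e01b58e01b50e01b48e01b08e01b00e01af8e102f87102f07102a070ffd870ffd070ff8070ecc870ea00f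0e9f870e9f070e9a870e9a070e950f0d41070d3b870d0f870d0f070d0a070d09870d04870be3070bdd870bac870bab870a53070a52870a52070a4d870a4d070a480708ef8708e68708908f088f8f08868f08858f07f98f079107069c87069787069687068e87068487066a0706698706690706648706640706338706298706208706068706060706018706010706008705fc8705fc0705fb8705f78705f70705f20f050b87050b0705060704da0704d48703db8703da8703d28703c88703be87037787037687037587036e87036487034a07034987034907034887034487034407034387033f07031287030a87030887030087028287028207028187028107028087027d87027d07027c87027c07027b87027807027787027707027687025087025007024f87024f07024e87024b87024b07024a87024a07024987024687024607024587024507024487021e87021e07021d87021d07021c8702198702190702188702180702178702148702140702138702130701ec8701ec0701eb8701eb0701ea8701e78701e70701e68701e60701e58701e28701e20701e18701e10701dd0701dc8701dc0701ba8701ba0701b98701b58701b50701b48701b40701b08701b00701af8701af0701ab0701aa8701aa07 = true := by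
  decide +kernel

theorem p3_7_2 (hf : Rule f) {k c n : ℕ} (H : NWJ f k c n)
    (LW : ∀ M R x y : ℕ, M + 1 = 6 * k → c ≤ R + 12 → R ≤ c + 12 → 2 * n ≤ x + 20 → y ≤ x → x ≤ y + 4 * k → ¬ f M R x y)
    (U2 : ∀ M R x y : ℕ, M = 6 * k + 2 → R = c + 2 → y = 2 * n + 4 → x % 2 = 1 → 2 * n + 5 ≤ x →
      x + 5 ≤ 2 * n + 2 * k → ¬ f M R x y)
    (U6 : ∀ M R x y : ℕ, M = 6 * k + 6 → R = c + 2 → y = 2 * n + 4 → x % 2 = 1 → 2 * n + 7 ≤ x →
      x + 5 ≤ 2 * n + 2 * k → ¬ f M R x y) :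
    ¬ f (6 * k + 3) (c + 2) (2 * n + 7) (2 * n + 2) := by
  intro hg
  have hk := H.T.hk
  have hc := H.T.hc
  have h4 := H.T.h4
  have hb := H.T.hb
  have hN := H.T.hN2
  have hg' : ∀ M R x y : ℕ, M = 6 * k + 3 → R = c + 2 → x = 2 * n + 7 → y = 2 * n + 2 → f M R x y := by
    intro M R x y e1 e2 e3 e4
    rw [e1, e2, e3, e4]
    exact hg
  clear hg
  obtain ⟨a0, ha0⟩ : ∃ z, z + 2 = 6 * k := ⟨6 * k - 2, by omega⟩
  obtain ⟨b0, hb0⟩ : ∃ z, z + 3 = c := ⟨c - 3, by omega⟩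
  obtain ⟨x0, hx0⟩ : ∃ z, z + 1 = 2 * n := ⟨2 * n - 1, by omega⟩
  obtain ⟨y0, hy0⟩ : ∃ z, z + 1 = 2 * n := ⟨2 * n - 1, by omega⟩
  refine check_sound hf (a0 := a0) (b0 := b0) (x0 := x0) (y0 := y0) p3_7_2_chk
    ⟨fun _ => by omega, fun h => absurd h (by decide), fun h => absurd h (by decide), by omega, by omega,
      by omega, by omega⟩ ?_ ?_
  · intro j m p q hr h
    obtain ⟨-, -, -, -, hp1, hp2, hq1, hq2⟩ := hr
    replace h := of_decide_eq_true h
    rcases h with h | h | h | h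
    · obtain ⟨rfl, rfl, h⟩ := h
      exact (WrapC.v3 H.c2 (by omega) (by omega) (by omega) (by omega) (by omega) (by omega) (by omega) (by omega)).mpr (by omega)
    · obtain ⟨rfl, rfl, h⟩ := h
      exact (WrapC.v0 H.c4 (by omega) (by omega) (by omega) (by omega) (by omega) (by omega) (by omega)).mpr (by omega)
    · obtain ⟨rfl, rfl, h⟩ := h
      exact (w3v H.c8 (by omega) (by omega) (by omega) (by omega) (by omega) (by omega) (by omega) (by omega)).mpr (by omega)
    · obtain ⟨rfl, rfl, rfl, rfl⟩ := h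
      exact hg' _ _ _ _ (by omega) (by omega) (by omega) (by omega)
  · intro j m p q hr h
    obtain ⟨-, -, -, -, hp1, hp2, hq1, hq2⟩ := hr
    replace h := of_decide_eq_true h
    rcases h with h | h | h | h | h | h | h | h | h | h | h | h | h | h | h | h | h | h | h | h | h | h | h | h | h | h | h
    · obtain ⟨rfl, rfl, h⟩ := h
      exact mt (WrapC.v3 H.c2 (by omega) (by omega) (by omega) (by omega) (by omega) (by omega) (by omega) (by omega)).mp (by omega)
    · obtain ⟨rfl, rfl, h⟩ := h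
      exact mt (WrapC.v0 H.c4 (by omega) (by omega) (by omega) (by omega) (by omega) (by omega) (by omega)).mp (by omega)
    · obtain ⟨rfl, rfl, h⟩ := h
      exact mt (w3v H.c8 (by omega) (by omega) (by omega) (by omega) (by omega) (by omega) (by omega) (by omega)).mp (by omega)
    · obtain ⟨rfl, rfl, h⟩ := h
      exact LW _ _ _ _ (by omega) (by omega) (by omega) (by omega) (by omega) (by omega)
    · obtain ⟨rfl, rfl, h⟩ := h
      exact NHT.pmi hf H.T (j := 0) (by omega) (by omega) (by omega) (by omega) (by omega) (by omega)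
    · obtain ⟨rfl, rfl, h⟩ := h
      exact LW _ _ _ _ (by omega) (by omega) (by omega) (by omega) (by omega) (by omega)
    · obtain ⟨rfl, rfl, h⟩ := h
      exact rm1 hf H.T (p := 0) (j := 3) (by omega) (by omega) (by omega) (by omega) (by omega) (by omega) (by omega)
    · obtain ⟨rfl, rfl, h⟩ := h
      exact rm1 hf H.T (p := 1) (j := 0) (by omega) (by omega) (by omega) (by omega) (by omega) (by omega) (by omega)
    · obtain ⟨rfl, rfl, h⟩ := h
      exact rm1i hf H.T (p := 0) (j := 0) (by omega) (by omega) (by omega) (by omega) (by omega) (by omega) (by omega)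
    · obtain ⟨rfl, rfl, h⟩ := h
      exact LW _ _ _ _ (by omega) (by omega) (by omega) (by omega) (by omega) (by omega)
    · obtain ⟨rfl, rfl, h⟩ := h
      exact NHT.p0 hf H.T (j := 3) (by omega) (by omega) (by omega) (by omega) (by omega) (by omega)
    · obtain ⟨rfl, rfl, h⟩ := h
      exact NHT.p0 hf H.T (j := 2) (by omega) (by omega) (by omega) (by omega) (by omega) (by omega)
    · obtain ⟨rfl, rfl, h⟩ := h
      exact NHT.p0 hf H.T (j := 1) (by omega) (by omega) (by omega) (by omega) (by omega) (by omega)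
    · obtain ⟨rfl, rfl, h⟩ := h
      exact NHT.p0 hf H.T (j := 0) (by omega) (by omega) (by omega) (by omega) (by omega) (by omega)
    · obtain ⟨rfl, rfl, h⟩ := h
      exact LW _ _ _ _ (by omega) (by omega) (by omega) (by omega) (by omega) (by omega)
    · obtain ⟨rfl, rfl, h⟩ := h
      exact r1 hf H.T (p := 1) (j := 4) (by omega) (by omega) (by omega) (by omega) (by omega) (by omega) (by omega)
    · obtain ⟨rfl, rfl, h⟩ := h
      exact r1 hf H.T (p := 0) (j := 3) (by omega) (by omega) (by omega) (by omega) (by omega) (by omega) (by omega)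
    · obtain ⟨rfl, rfl, h⟩ := h
      exact r1 hf H.T (p := 1) (j := 3) (by omega) (by omega) (by omega) (by omega) (by omega) (by omega) (by omega)
    · obtain ⟨rfl, rfl, h⟩ := h
      exact r1 hf H.T (p := 1) (j := 2) (by omega) (by omega) (by omega) (by omega) (by omega) (by omega) (by omega)
    · obtain ⟨rfl, rfl, h⟩ := h
      exact r1 hf H.T (p := 0) (j := 1) (by omega) (by omega) (by omega) (by omega) (by omega) (by omega) (by omega)
    · obtain ⟨rfl, rfl, h⟩ := h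
      exact r1 hf H.T (p := 1) (j := 1) (by omega) (by omega) (by omega) (by omega) (by omega) (by omega) (by omega)
    · obtain ⟨rfl, rfl, h⟩ := h
      exact r1 hf H.T (p := 1) (j := 0) (by omega) (by omega) (by omega) (by omega) (by omega) (by omega) (by omega)
    · obtain ⟨rfl, rfl, h⟩ := h
      exact LW _ _ _ _ (by omega) (by omega) (by omega) (by omega) (by omega) (by omega)
    · obtain ⟨rfl, rfl, h⟩ := h
      exact NHT.p2 hf H.T (j := 2) (by omega) (by omega) (by omega) (by omega) (by omega) (by omega)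
    · obtain ⟨rfl, rfl, h⟩ := h
      exact NHT.p2 hf H.T (j := 0) (by omega) (by omega) (by omega) (by omega) (by omega) (by omega)
    · obtain ⟨rfl, rfl, h⟩ := h
      exact U2 _ _ _ _ (by omega) (by omega) (by omega) (by omega) (by omega) (by omega)
    · obtain ⟨rfl, rfl, h⟩ := h
      exact U6 _ _ _ _ (by omega) (by omega) (by omega) (by omega) (by omega) (by omega)

theorem p3_9_2_chk : check 5 5 5 7 0 1 0 1 0
    (fun j n p q => decide ((j = 5 ∧ n = 3 ∧ p = 3 ∧ q = 3)))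
    (fun j n p q => decide ((j = 1 ∧ n = 1)
      ∨ (j = 1 ∧ n = 2)
      ∨ (j = 4 ∧ n = 2 ∧ q ≤ p + 3)
      ∨ (j = 1 ∧ n = 3)
      ∨ (j = 4 ∧ n = 3 ∧ 5 ≤ q ∧ p % 2 = 1)))
    110
    0xec83014480019fd200db03013280013284014380019ed200da8301320001320400da03013180013184019e8300da0000da0400eb8301430001430400de0301358001358400de8301360001360400dd8301350001350400ef8301470001470400f00301478001478400db8301330001330400f08301480001480400df0301368001368400ef0301468001468401f60001f60f019f87019c07019b07018e07018d87018d07018c87018a87018a0701898701890700ed0700ec0700eb0700ca0700c90700c807009907009887009807009787009707009587009507009487009407009387009187009107009087009007008787008707008687008607008587008407008387008307008287008207008087008007007f87007f07007e87007607007587007507007487007407007287007207007187007107007087006f07006e87006e07006d87006d07 = true := by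
  decide +kernel

theorem p3_9_2 (hf : Rule f) {k c n : ℕ} (H : NWJ f k c n)
    (LW : ∀ M R x y : ℕ, M + 1 = 6 * k → c ≤ R + 12 → R ≤ c + 12 → 2 * n ≤ x + 20 → y ≤ x → x ≤ y + 4 * k → ¬ f M R x y)
    (U2 : ∀ M R x y : ℕ, M = 6 * k + 2 → R = c + 2 → y = 2 * n + 4 → x % 2 = 1 → 2 * n + 5 ≤ x →
      x + 5 ≤ 2 * n + 2 * k → ¬ f M R x y)
    (U6 : ∀ M R x y : ℕ, M = 6 * k + 6 → R = c + 2 → y = 2 * n + 4 → x % 2 = 1 → 2 * n + 7 ≤ x →
      x + 5 ≤ 2 * n + 2 * k → ¬ f M R x y) :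
    ¬ f (6 * k + 3) (c + 2) (2 * n + 9) (2 * n + 2) := by
  intro hg
  have hk := H.T.hk
  have hc := H.T.hc
  have h4 := H.T.h4
  have hb := H.T.hb
  have hN := H.T.hN2
  have hg' : ∀ M R x y : ℕ, M = 6 * k + 3 → R = c + 2 → x = 2 * n + 9 → y = 2 * n + 2 → f M R x y := by
    intro M R x y e1 e2 e3 e4
    rw [e1, e2, e3, e4]
    exact hg
  clear hg
  obtain ⟨a0, ha0⟩ : ∃ z, z + 2 = 6 * k := ⟨6 * k - 2, by omega⟩
  obtain ⟨b0, hb0⟩ : ∃ z, z + 1 = c := ⟨c - 1, by omega⟩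
  obtain ⟨x0, hx0⟩ : ∃ z, z = 2 * n + 6 := ⟨_, rfl⟩
  obtain ⟨y0, hy0⟩ : ∃ z, z + 1 = 2 * n := ⟨2 * n - 1, by omega⟩
  refine check_sound hf (a0 := a0) (b0 := b0) (x0 := x0) (y0 := y0) p3_9_2_chk
    ⟨fun h => absurd h (by decide), fun h => absurd h (by decide), fun h => absurd h (by decide), by omega, by omega,
      by omega, by omega⟩ ?_ ?_
  · intro j m p q hr h
    obtain ⟨-, -, -, -, hp1, hp2, hq1, hq2⟩ := hr
    replace h := of_decide_eq_true h
    obtain ⟨rfl, rfl, rfl, rfl⟩ := h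
    exact hg' _ _ _ _ (by omega) (by omega) (by omega) (by omega)
  · intro j m p q hr h
    obtain ⟨-, -, -, -, hp1, hp2, hq1, hq2⟩ := hr
    replace h := of_decide_eq_true h
    rcases h with h | h | h | h | h
    · obtain ⟨rfl, rfl⟩ := h
      exact LW _ _ _ _ (by omega) (by omega) (by omega) (by omega) (by omega) (by omega)
    · obtain ⟨rfl, rfl⟩ := h
      exact LW _ _ _ _ (by omega) (by omega) (by omega) (by omega) (by omega) (by omega)
    · obtain ⟨rfl, rfl, h⟩ := h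
      exact r1 hf H.T (p := 0) (j := 3) (by omega) (by omega) (by omega) (by omega) (by omega) (by omega) (by omega)
    · obtain ⟨rfl, rfl⟩ := h
      exact LW _ _ _ _ (by omega) (by omega) (by omega) (by omega) (by omega) (by omega)
    · obtain ⟨rfl, rfl, h⟩ := h
      exact U2 _ _ _ _ (by omega) (by omega) (by omega) (by omega) (by omega) (by omega)

theorem p3_7_1_chk : check 9 6 6 10 0 0 0 0 0
    (fun j n p q => decide ((j = 6 ∧ n = 1 ∧ 2 ≤ p ∧ q ≤ p + 6 ∧ (q = p + 6 ∧ p % 2 = 0))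
      ∨ (j = 5 ∧ n = 4 ∧ p = 3 ∧ q = 3)))
    (fun j n p q => decide ((j = 6 ∧ n = 1 ∧ 2 ≤ p ∧ q ≤ p + 6 ∧ ¬ (q = p + 6 ∧ p % 2 = 0))
      ∨ (j = 1 ∧ n = 1 ∧ q ≤ p + 6)
      ∨ (j = 4 ∧ n = 1 ∧ q ≤ p + 3)
      ∨ (j = 5 ∧ n = 1 ∧ q ≤ p + 3)
      ∨ (j = 8 ∧ n = 1 ∧ q ≤ p + 5)
      ∨ (j = 9 ∧ n = 1 ∧ q ≤ p + 5)
      ∨ (j = 1 ∧ n = 2 ∧ q ≤ p + 6)
      ∨ (j = 5 ∧ n = 2 ∧ q ≤ p + 3)
      ∨ (j = 9 ∧ n = 2 ∧ q ≤ p + 5)
      ∨ (j = 1 ∧ n = 3 ∧ q ≤ p + 6)
      ∨ (j = 5 ∧ n = 3 ∧ q ≤ p + 2)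
      ∨ (j = 6 ∧ n = 3 ∧ q ≤ p + 3)
      ∨ (j = 7 ∧ n = 3 ∧ 6 ≤ q ∧ q ≤ p + 3)
      ∨ (j = 8 ∧ n = 3 ∧ q ≤ p + 4)
      ∨ (j = 9 ∧ n = 3 ∧ 6 ≤ q ∧ q ≤ p + 4)
      ∨ (j = 1 ∧ n = 4 ∧ q ≤ p + 6)
      ∨ (j = 5 ∧ n = 4 ∧ 6 ≤ q ∧ q ≤ p + 2)
      ∨ (j = 7 ∧ n = 4 ∧ 6 ≤ q ∧ q ≤ p + 3)
      ∨ (j = 9 ∧ n = 4 ∧ 6 ≤ q ∧ q ≤ p + 4)
      ∨ (j = 4 ∧ n = 4 ∧ 6 ≤ q ∧ q ≤ 6 ∧ p % 2 = 1)
      ∨ (j = 8 ∧ n = 4 ∧ 3 ≤ p ∧ 6 ≤ q ∧ q ≤ 6 ∧ p % 2 = 1)))
    285
    0x6e383057680057b9205f38505ee0006a84a06a2ca053580053a9205f38505ee0006a84a06a2ca05178005178404a48004a484040e00041312032285031d0003d74a03efea03f00003f004031d05032280033baa03d74a033c00033c0404130303368003368401ce8302828002828401b58302698002698403d18302640002640401d38302878002878403590003590101ce0302820002820403cc0303360003360401eb8302a00002a00401f10302a50002a50403d183033b80033b8401d30302870002870401b50302690002690403590303598003598406a803051c80051c84029f000358da01cd8302818002818401d28302868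002868403588301cd0001cd0401eb83029f80029f8401f08302a48002a48401d20302860002860401cd0302810002810401f00302a40002a40403d70303410003410403d103033b00033b0406e38305588005588406a803053a80053a8406a783051c00051c0406a28305170005170406a28305350005350403d68303408003408406a783053a00053a04040c8006e38706e30706de8706de0706c58706c50706c08706c00706a80706a78706a70706a30706a28706a207069d87069d07068a07068987068907068507068487068407067f87067f07062f07062a07061187061107060c87060c0705f40705f30705e90705d60705d58705d50705d10705d08705d00705cb8705cb07057b87057b07057607055d87055d0705580704c70704a98704a90704a407048107046887046807046387046307041307040c8f03f50703f48703ef8703ef0703ea0703d70703d68703d60703d20703d18703d10703d08703cc8703cc0703cb8703c70703c68703b90703b88703b80703b40703b38703b30703b28703ae8703ae0703ad8703a90703a887035f07035a0703540703530703230703220703180703050703048703040703000702ff8702ff0702fe8702fa8702fa0702f98702f50702f48701ec0701eb0701b00701af07013d07013c87013c07013b87013807013787013707013687013287013207011f87011f07011e87011e07011d87011a87011a0701198701190701188701158701150701148701140701138701018701010701008701000700ff8700fc8700fc0700fb8700fb0700fa8700f78700f70700f68700f60700f58700e38700e30700e28700de8700de0700dd87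 = true := by
  decide +kernel

theorem p3_7_1 (hf : Rule f) {k c n : ℕ} (H : NWJ f k c n)
    (LW : ∀ M R x y : ℕ, M + 1 = 6 * k → c ≤ R + 12 → R ≤ c + 12 → 2 * n ≤ x + 20 → y ≤ x → x ≤ y + 4 * k → ¬ f M R x y)
    (U2 : ∀ M R x y : ℕ, M = 6 * k + 2 → R = c + 2 → y = 2 * n + 4 → x % 2 = 1 → 2 * n + 5 ≤ x →
      x + 5 ≤ 2 * n + 2 * k → ¬ f M R x y)
    (U6 : ∀ M R x y : ℕ, M = 6 * k + 6 → R = c + 2 → y = 2 * n + 4 → x % 2 = 1 → 2 * n + 7 ≤ x →
      x + 5 ≤ 2 * n + 2 * k → ¬ f M R x y) :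
    ¬ f (6 * k + 3) (c + 2) (2 * n + 7) (2 * n + 1) := by
  intro hg
  have hk := H.T.hk
  have hc := H.T.hc
  have h4 := H.T.h4
  have hb := H.T.hb
  have hN := H.T.hN2
  have hg' : ∀ M R x y : ℕ, M = 6 * k + 3 → R = c + 2 → x = 2 * n + 7 → y = 2 * n + 1 → f M R x y := by
    intro M R x y e1 e2 e3 e4
    rw [e1, e2, e3, e4]
    exact hg
  clear hg
  obtain ⟨a0, ha0⟩ : ∃ z, z + 2 = 6 * k := ⟨6 * k - 2, by omega⟩
  obtain ⟨b0, hb0⟩ : ∃ z, z + 2 = c := ⟨c - 2, by omega⟩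
  obtain ⟨x0, hx0⟩ : ∃ z, z = 2 * n + 4 := ⟨_, rfl⟩
  obtain ⟨y0, hy0⟩ : ∃ z, z + 2 = 2 * n := ⟨2 * n - 2, by omega⟩
  refine check_sound hf (a0 := a0) (b0 := b0) (x0 := x0) (y0 := y0) p3_7_1_chk
    ⟨fun h => absurd h (by decide), fun h => absurd h (by decide), fun h => absurd h (by decide), by omega, by omega,
      by omega, by omega⟩ ?_ ?_
  · intro j m p q hr h
    obtain ⟨-, -, -, -, hp1, hp2, hq1, hq2⟩ := hr
    replace h := of_decide_eq_true h
    rcases h with h | h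
    · obtain ⟨rfl, rfl, h⟩ := h
      exact (WrapC.v1 H.c4 (by omega) (by omega) (by omega) (by omega) (by omega) (by omega) (by omega) (by omega)).mpr (by omega)
    · obtain ⟨rfl, rfl, rfl, rfl⟩ := h
      exact hg' _ _ _ _ (by omega) (by omega) (by omega) (by omega)
  · intro j m p q hr h
    obtain ⟨-, -, -, -, hp1, hp2, hq1, hq2⟩ := hr
    replace h := of_decide_eq_true h
    rcases h with h | h | h | h | h | h | h | h | h | h | h | h | h | h | h | h | h | h | h | h | h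
    · obtain ⟨rfl, rfl, h⟩ := h
      exact mt (WrapC.v1 H.c4 (by omega) (by omega) (by omega) (by omega) (by omega) (by omega) (by omega) (by omega)).mp (by omega)
    · obtain ⟨rfl, rfl, h⟩ := h
      exact LW _ _ _ _ (by omega) (by omega) (by omega) (by omega) (by omega) (by omega)
    · obtain ⟨rfl, rfl, h⟩ := h
      exact rm1 hf H.T (p := 0) (j := 2) (by omega) (by omega) (by omega) (by omega) (by omega) (by omega) (by omega)
    · obtain ⟨rfl, rfl, h⟩ := h
      exact rm1 hf H.T (p := 1) (j := 2) (by omega) (by omega) (by omega) (by omega) (by omega) (by omega) (by omega)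
    · obtain ⟨rfl, rfl, h⟩ := h
      exact rm1 hf H.T (p := 0) (j := 0) (by omega) (by omega) (by omega) (by omega) (by omega) (by omega) (by omega)
    · obtain ⟨rfl, rfl, h⟩ := h
      exact rm1 hf H.T (p := 1) (j := 0) (by omega) (by omega) (by omega) (by omega) (by omega) (by omega) (by omega)
    · obtain ⟨rfl, rfl, h⟩ := h
      exact LW _ _ _ _ (by omega) (by omega) (by omega) (by omega) (by omega) (by omega)
    · obtain ⟨rfl, rfl, h⟩ := h
      exact NHT.p0 hf H.T (j := 2) (by omega) (by omega) (by omega) (by omega) (by omega) (by omega)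
    · obtain ⟨rfl, rfl, h⟩ := h
      exact NHT.p0 hf H.T (j := 0) (by omega) (by omega) (by omega) (by omega) (by omega) (by omega)
    · obtain ⟨rfl, rfl, h⟩ := h
      exact LW _ _ _ _ (by omega) (by omega) (by omega) (by omega) (by omega) (by omega)
    · obtain ⟨rfl, rfl, h⟩ := h
      exact r1 hf H.T (p := 1) (j := 3) (by omega) (by omega) (by omega) (by omega) (by omega) (by omega) (by omega)
    · obtain ⟨rfl, rfl, h⟩ := h
      exact r1 hf H.T (p := 0) (j := 2) (by omega) (by omega) (by omega) (by omega) (by omega) (by omega) (by omega)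
    · obtain ⟨rfl, rfl, h⟩ := h
      exact NHT.p2 hf H.T (j := 2) (by omega) (by omega) (by omega) (by omega) (by omega) (by omega)
    · obtain ⟨rfl, rfl, h⟩ := h
      exact r1 hf H.T (p := 0) (j := 1) (by omega) (by omega) (by omega) (by omega) (by omega) (by omega) (by omega)
    · obtain ⟨rfl, rfl, h⟩ := h
      exact NHT.p2 hf H.T (j := 1) (by omega) (by omega) (by omega) (by omega) (by omega) (by omega)
    · obtain ⟨rfl, rfl, h⟩ := h
      exact LW _ _ _ _ (by omega) (by omega) (by omega) (by omega) (by omega) (by omega)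
    · obtain ⟨rfl, rfl, h⟩ := h
      exact NHT.p2 hf H.T (j := 3) (by omega) (by omega) (by omega) (by omega) (by omega) (by omega)
    · obtain ⟨rfl, rfl, h⟩ := h
      exact NHT.p2 hf H.T (j := 2) (by omega) (by omega) (by omega) (by omega) (by omega) (by omega)
    · obtain ⟨rfl, rfl, h⟩ := h
      exact NHT.p2 hf H.T (j := 1) (by omega) (by omega) (by omega) (by omega) (by omega) (by omega)
    · obtain ⟨rfl, rfl, h⟩ := h
      exact U2 _ _ _ _ (by omega) (by omega) (by omega) (by omega) (by omega) (by omega)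
    · obtain ⟨rfl, rfl, h⟩ := h
      exact U6 _ _ _ _ (by omega) (by omega) (by omega) (by omega) (by omega) (by omega)

theorem p3_8_1_chk : check 5 4 7 8 0 0 1 0 0
    (fun j n p q => decide ((j = 5 ∧ n = 2 ∧ p = 3 ∧ q = 3)))
    (fun j n p q => decide ((j = 1 ∧ n = 1)
      ∨ (j = 3 ∧ n = 1 ∧ p ≤ q + 3 ∧ q ≤ p + 2)
      ∨ (j = 4 ∧ n = 1 ∧ q ≤ p + 3)
      ∨ (j = 5 ∧ n = 1 ∧ q ≤ p + 3)
      ∨ (j = 1 ∧ n = 2)
      ∨ (j = 5 ∧ n = 2 ∧ 6 ≤ q ∧ q ≤ p + 3)
      ∨ (j = 4 ∧ n = 2 ∧ 6 ≤ q ∧ p % 2 = 0)))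
    84
    0x12583019600020a52012a03019a00019a04027f03020a00020a04020a03020a80020a840195000205ca012583019580019584012183019180019184020583010500010504020583012100012104012103019100019104027580027f07027b0702758f026307026287025f07025e87020f07020b0702060702050701f30701f28701ef0701ee8701ee0701ed8701ea0701e98701e90701e58701e507017e07017d87017a07017987017907017587017507012607012507011d0700ba0700b98700b60700b58700b50700b18700b10700b08700ad8700ad0700ac87009e07009d87009a07009987009907009587009507009487009187009107009087 = true := by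
  decide +kernel

theorem p3_8_1 (hf : Rule f) {k c n : ℕ} (H : NWJ f k c n)
    (LW : ∀ M R x y : ℕ, M + 1 = 6 * k → c ≤ R + 12 → R ≤ c + 12 → 2 * n ≤ x + 20 → y ≤ x → x ≤ y + 4 * k → ¬ f M R x y)
    (U2 : ∀ M R x y : ℕ, M = 6 * k + 2 → R = c + 2 → y = 2 * n + 4 → x % 2 = 1 → 2 * n + 5 ≤ x →
      x + 5 ≤ 2 * n + 2 * k → ¬ f M R x y)
    (U6 : ∀ M R x y : ℕ, M = 6 * k + 6 → R = c + 2 → y = 2 * n + 4 → x % 2 = 1 → 2 * n + 7 ≤ x →
      x + 5 ≤ 2 * n + 2 * k → ¬ f M R x y) :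
    ¬ f (6 * k + 3) (c + 2) (2 * n + 8) (2 * n + 1) := by
  intro hg
  have hk := H.T.hk
  have hc := H.T.hc
  have h4 := H.T.h4
  have hb := H.T.hb
  have hN := H.T.hN2
  have hg' : ∀ M R x y : ℕ, M = 6 * k + 3 → R = c + 2 → x = 2 * n + 8 → y = 2 * n + 1 → f M R x y := by
    intro M R x y e1 e2 e3 e4
    rw [e1, e2, e3, e4]
    exact hg
  clear hg
  obtain ⟨a0, ha0⟩ : ∃ z, z + 2 = 6 * k := ⟨6 * k - 2, by omega⟩
  obtain ⟨b0, hb0⟩ : ∃ z, z = c + 0 := ⟨_, rfl⟩
  obtain ⟨x0, hx0⟩ : ∃ z, z = 2 * n + 5 := ⟨_, rfl⟩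
  obtain ⟨y0, hy0⟩ : ∃ z, z + 2 = 2 * n := ⟨2 * n - 2, by omega⟩
  refine check_sound hf (a0 := a0) (b0 := b0) (x0 := x0) (y0 := y0) p3_8_1_chk
    ⟨fun h => absurd h (by decide), fun h => absurd h (by decide), fun h => absurd h (by decide), by omega, by omega,
      by omega, by omega⟩ ?_ ?_
  · intro j m p q hr h
    obtain ⟨-, -, -, -, hp1, hp2, hq1, hq2⟩ := hr
    replace h := of_decide_eq_true h
    obtain ⟨rfl, rfl, rfl, rfl⟩ := h
    exact hg' _ _ _ _ (by omega) (by omega) (by omega) (by omega)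
  · intro j m p q hr h
    obtain ⟨-, -, -, -, hp1, hp2, hq1, hq2⟩ := hr
    replace h := of_decide_eq_true h
    rcases h with h | h | h | h | h | h | h
    · obtain ⟨rfl, rfl⟩ := h
      exact LW _ _ _ _ (by omega) (by omega) (by omega) (by omega) (by omega) (by omega)
    · obtain ⟨rfl, rfl, h⟩ := h
      exact r1 hf H.T (p := 1) (j := 4) (by omega) (by omega) (by omega) (by omega) (by omega) (by omega) (by omega)
    · obtain ⟨rfl, rfl, h⟩ := h
      exact r1 hf H.T (p := 0) (j := 3) (by omega) (by omega) (by omega) (by omega) (by omega) (by omega) (by omega)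
    · obtain ⟨rfl, rfl, h⟩ := h
      exact r1 hf H.T (p := 1) (j := 3) (by omega) (by omega) (by omega) (by omega) (by omega) (by omega) (by omega)
    · obtain ⟨rfl, rfl⟩ := h
      exact LW _ _ _ _ (by omega) (by omega) (by omega) (by omega) (by omega) (by omega)
    · obtain ⟨rfl, rfl, h⟩ := h
      exact NHT.p2 hf H.T (j := 3) (by omega) (by omega) (by omega) (by omega) (by omega) (by omega)
    · obtain ⟨rfl, rfl, h⟩ := h
      exact U2 _ _ _ _ (by omega) (by omega) (by omega) (by omega) (by omega) (by omega)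

theorem p3_9_1_chk : check 5 5 6 7 0 1 0 1 0
    (fun j n p q => decide ((j = 5 ∧ n = 3 ∧ p = 3 ∧ q = 2)))
    (fun j n p q => decide ((j = 1 ∧ n = 1)
      ∨ (j = 1 ∧ n = 2)
      ∨ (j = 4 ∧ n = 2 ∧ q ≤ p + 3)
      ∨ (j = 5 ∧ n = 2 ∧ q ≤ p + 3)
      ∨ (j = 1 ∧ n = 3)
      ∨ (j = 3 ∧ n = 3 ∧ 5 ≤ q ∧ q ≤ p + 2)
      ∨ (j = 5 ∧ n = 3 ∧ 5 ≤ q ∧ q ≤ p + 3)
      ∨ (j = 4 ∧ n = 3 ∧ 5 ≤ q ∧ p % 2 = 1)))
    231
    0x11a0301838001f05201828001ef52011d03018600018604025c00025c8a011a0301838001f05201828001ef5201f30001f30401ef0301ef8001ef84011c83018580018584011903018200018204011a0301838001f05201828001ef52011903018200018204011c83018580018584025c8301ef0001ef0401f303025c00025c04010800010804011a0301838001f05201828001ef52011d03018600018604025c00025c8a011a0301838001f05201828001ef5201f30001f30401ef0301ef8001ef8401190301820001820401070001070401ee83010380010384011a0301838001f05201828001ef5201190301820001820401f300025cca01190301820001ef5a01ef8001ef8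4012103018a0001f342025c00025c04010780010784011d0301860001efca011a0301828001828401838001f052025880025884025c8301ef0001ef01010400010404010403016d00016d04010783017080017084010483016d80016d84010803017100017104011a03018300018304010503016e00016e04010883017180017184011d83018680018684010b83017480017484010c03017500017504010583016e80016e84010903017200017204025780025c8702590702578f02478702470702440702438701f38701f28701f00701ec8701eb8701ea8701de8701de0701dd8701db0701da8701da0701d98701d90701d78701d70701d68701d60701d58701870701208701198701188700f68700f08700ef8700ee8700b80700b78700b48700b40700b38700b30700b10700b08700b00700af8700ad8700ad0700ac8700ac0700a30700a28700a20700a007009f87009f07009e87009e07009c87009c07009b87009b07009a87009907009887009807009787009707008e07008d87008d07008b07008a87008a07008987008907008787008707008687008607008587008407008387008307008287008207 = true := by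
  decide +kernel

theorem p3_9_1 (hf : Rule f) {k c n : ℕ} (H : NWJ f k c n)
    (LW : ∀ M R x y : ℕ, M + 1 = 6 * k → c ≤ R + 12 → R ≤ c + 12 → 2 * n ≤ x + 20 → y ≤ x → x ≤ y + 4 * k → ¬ f M R x y)
    (U2 : ∀ M R x y : ℕ, M = 6 * k + 2 → R = c + 2 → y = 2 * n + 4 → x % 2 = 1 → 2 * n + 5 ≤ x →
      x + 5 ≤ 2 * n + 2 * k → ¬ f M R x y)
    (U6 : ∀ M R x y : ℕ, M = 6 * k + 6 → R = c + 2 → y = 2 * n + 4 → x % 2 = 1 → 2 * n + 7 ≤ x →
      x + 5 ≤ 2 * n + 2 * k → ¬ f M R x y) :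
    ¬ f (6 * k + 3) (c + 2) (2 * n + 9) (2 * n + 1) := by
  intro hg
  have hk := H.T.hk
  have hc := H.T.hc
  have h4 := H.T.h4
  have hb := H.T.hb
  have hN := H.T.hN2
  have hg' : ∀ M R x y : ℕ, M = 6 * k + 3 → R = c + 2 → x = 2 * n + 9 → y = 2 * n + 1 → f M R x y := by
    intro M R x y e1 e2 e3 e4
    rw [e1, e2, e3, e4]
    exact hg
  clear hg
  obtain ⟨a0, ha0⟩ : ∃ z, z + 2 = 6 * k := ⟨6 * k - 2, by omega⟩
  obtain ⟨b0, hb0⟩ : ∃ z, z + 1 = c := ⟨c - 1, by omega⟩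
  obtain ⟨x0, hx0⟩ : ∃ z, z = 2 * n + 6 := ⟨_, rfl⟩
  obtain ⟨y0, hy0⟩ : ∃ z, z + 1 = 2 * n := ⟨2 * n - 1, by omega⟩
  refine check_sound hf (a0 := a0) (b0 := b0) (x0 := x0) (y0 := y0) p3_9_1_chk
    ⟨fun h => absurd h (by decide), fun h => absurd h (by decide), fun h => absurd h (by decide), by omega, by omega,
      by omega, by omega⟩ ?_ ?_
  · intro j m p q hr h
    obtain ⟨-, -, -, -, hp1, hp2, hq1, hq2⟩ := hr
    replace h := of_decide_eq_true h
    obtain ⟨rfl, rfl, rfl, rfl⟩ := h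
    exact hg' _ _ _ _ (by omega) (by omega) (by omega) (by omega)
  · intro j m p q hr h
    obtain ⟨-, -, -, -, hp1, hp2, hq1, hq2⟩ := hr
    replace h := of_decide_eq_true h
    rcases h with h | h | h | h | h | h | h | h
    · obtain ⟨rfl, rfl⟩ := h
      exact LW _ _ _ _ (by omega) (by omega) (by omega) (by omega) (by omega) (by omega)
    · obtain ⟨rfl, rfl⟩ := h
      exact LW _ _ _ _ (by omega) (by omega) (by omega) (by omega) (by omega) (by omega)
    · obtain ⟨rfl, rfl, h⟩ := h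
      exact r1 hf H.T (p := 0) (j := 3) (by omega) (by omega) (by omega) (by omega) (by omega) (by omega) (by omega)
    · obtain ⟨rfl, rfl, h⟩ := h
      exact r1 hf H.T (p := 1) (j := 3) (by omega) (by omega) (by omega) (by omega) (by omega) (by omega) (by omega)
    · obtain ⟨rfl, rfl⟩ := h
      exact LW _ _ _ _ (by omega) (by omega) (by omega) (by omega) (by omega) (by omega)
    · obtain ⟨rfl, rfl, h⟩ := h
      exact NHT.p2 hf H.T (j := 4) (by omega) (by omega) (by omega) (by omega) (by omega) (by omega)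
    · obtain ⟨rfl, rfl, h⟩ := h
      exact NHT.p2 hf H.T (j := 3) (by omega) (by omega) (by omega) (by omega) (by omega) (by omega)
    · obtain ⟨rfl, rfl, h⟩ := h
      exact U2 _ _ _ _ (by omega) (by omega) (by omega) (by omega) (by omega) (by omega)

theorem p3_7_0_chk : check 9 6 6 11 0 0 0 1 0
    (fun j n p q => decide ((j = 6 ∧ n = 1 ∧ 2 ≤ p ∧ q ≤ p + 7 ∧ (q = p + 7 ∧ p % 2 = 0))
      ∨ (j = 5 ∧ n = 4 ∧ p = 3 ∧ q = 3)))
    (fun j n p q => decide ((j = 6 ∧ n = 1 ∧ 2 ≤ p ∧ q ≤ p + 7 ∧ ¬ (q = p + 7 ∧ p % 2 = 0))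
      ∨ (j = 1 ∧ n = 1 ∧ q ≤ p + 7)
      ∨ (j = 4 ∧ n = 1 ∧ q ≤ p + 4)
      ∨ (j = 5 ∧ n = 1 ∧ q ≤ p + 4)
      ∨ (j = 8 ∧ n = 1 ∧ q ≤ p + 6)
      ∨ (j = 9 ∧ n = 1 ∧ q ≤ p + 6)
      ∨ (j = 1 ∧ n = 2 ∧ q ≤ p + 7)
      ∨ (j = 5 ∧ n = 2 ∧ q ≤ p + 4)
      ∨ (j = 9 ∧ n = 2 ∧ q ≤ p + 6)
      ∨ (j = 1 ∧ n = 3 ∧ q ≤ p + 7)
      ∨ (j = 5 ∧ n = 3 ∧ 2 ≤ q ∧ q ≤ p + 3)
      ∨ (j = 6 ∧ n = 3 ∧ q ≤ p + 3)
      ∨ (j = 6 ∧ n = 3 ∧ 2 ≤ q ∧ q ≤ p + 4)
      ∨ (j = 7 ∧ n = 3 ∧ 7 ≤ q ∧ q ≤ p + 4)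
      ∨ (j = 8 ∧ n = 3 ∧ 2 ≤ q ∧ q ≤ p + 5)
      ∨ (j = 9 ∧ n = 3 ∧ 7 ≤ q ∧ q ≤ p + 5)
      ∨ (j = 1 ∧ n = 4 ∧ q ≤ p + 7)
      ∨ (j = 5 ∧ n = 4 ∧ 7 ≤ q ∧ q ≤ p + 3)
      ∨ (j = 7 ∧ n = 4 ∧ 7 ≤ q ∧ q ≤ p + 4)
      ∨ (j = 9 ∧ n = 4 ∧ 7 ≤ q ∧ q ≤ p + 5)
      ∨ (j = 4 ∧ n = 4 ∧ 7 ≤ q ∧ q ≤ 7 ∧ p % 2 = 1)
      ∨ (j = 8 ∧ n = 4 ∧ 3 ≤ p ∧ 7 ≤ q ∧ q ≤ 7 ∧ p % 2 = 1)))
    315
    0x7940306028006081205c083068100074cd2068c000752ca05c08306870006870405c083068680068684051b80051b84047600047b92037305036d000439ca0454ea045500045504036d05037300038eaa0439ca038f00038f04047b8303890003890401fd0302c30002c30401e18302a78002a78404338302a18002a18402028302c88002c88403af0003af01042d8303888003888401fc8302c28002c284043383038e80038e8401e10302a70002a70404398303948003948402020302c80002c804021d0302e38002e38402230302e90002e90407940305e18005e18407528305c08005c084075203059f00059f04074c83059980059984074c8305ba8005ba8403af0303af8003af84043303038e00038e0401fc0302c20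002c20402018302c78002c784042d0303880003880402e28003ae5201fb8302c18002c18402010302c70002c70402220302e80002e80402008302c68002c684043283038d80038d8403ae0301fb0001fb0401fb0302c10002c10402218302e78002e784043903039400039404021c0302e20002e20407520305c00005c004047400079407079387078e87078e07077307077287076d87076d07075287075207075187074d07074c87074c07074707074687073187073107073087072c07072b87072b0707260707258706cd8706c80706ad0706ac8706a78706a707068c87068b87068087066b87066b07066a87066607066587066507066007065f8706080706078706020705e70705e68705e107054187052107052087051b0704f48704d98704d90704d40704d387047b8704740f045a87045a07045487045407044e87043987043907043887043407043387043307043287043207042e07042d87042d07042c87042807042787042707041887041807041787041307041287041207041187041107040d07040c87040c07040b8704070704068704060703b58703b00703a98703a887037387037287036787036687035287035207035187034d07034c87034c07034b87034b07034707034687034607034587034107034087034007021d87021c87021b8701db8701da8701d987015d07015c87015c07015b87015b07015787015707015687015607015587015187015107015087015007013c87013c07013b87013b07013a87013a07013707013687013607013587013507013487013187013107013087013007012f87012f07011b87011b07011a87011a07011987011907011607011587011507011487011407011387011087011007010f87010f07010e87010e0700fa8700fa0700f98700f50700f48700f407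 = true := by
  decide +kernel

theorem p3_7_0 (hf : Rule f) {k c n : ℕ} (H : NWJ f k c n)
    (LW : ∀ M R x y : ℕ, M + 1 = 6 * k → c ≤ R + 12 → R ≤ c + 12 → 2 * n ≤ x + 20 → y ≤ x → x ≤ y + 4 * k → ¬ f M R x y)
    (U2 : ∀ M R x y : ℕ, M = 6 * k + 2 → R = c + 2 → y = 2 * n + 4 → x % 2 = 1 → 2 * n + 5 ≤ x →
      x + 5 ≤ 2 * n + 2 * k → ¬ f M R x y)
    (U6 : ∀ M R x y : ℕ, M = 6 * k + 6 → R = c + 2 → y = 2 * n + 4 → x % 2 = 1 → 2 * n + 7 ≤ x →
      x + 5 ≤ 2 * n + 2 * k → ¬ f M R x y) :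
    ¬ f (6 * k + 3) (c + 2) (2 * n + 7) (2 * n) := by
  intro hg
  have hk := H.T.hk
  have hc := H.T.hc
  have h4 := H.T.h4
  have hb := H.T.hb
  have hN := H.T.hN2
  have hg' : ∀ M R x y : ℕ, M = 6 * k + 3 → R = c + 2 → x = 2 * n + 7 → y = 2 * n → f M R x y := by
    intro M R x y e1 e2 e3 e4
    rw [e1, e2, e3, e4]
    exact hg
  clear hg
  obtain ⟨a0, ha0⟩ : ∃ z, z + 2 = 6 * k := ⟨6 * k - 2, by omega⟩
  obtain ⟨b0, hb0⟩ : ∃ z, z + 2 = c := ⟨c - 2, by omega⟩
  obtain ⟨x0, hx0⟩ : ∃ z, z = 2 * n + 4 := ⟨_, rfl⟩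
  obtain ⟨y0, hy0⟩ : ∃ z, z + 3 = 2 * n := ⟨2 * n - 3, by omega⟩
  refine check_sound hf (a0 := a0) (b0 := b0) (x0 := x0) (y0 := y0) p3_7_0_chk
    ⟨fun h => absurd h (by decide), fun h => absurd h (by decide), fun h => absurd h (by decide), by omega, by omega,
      by omega, by omega⟩ ?_ ?_
  · intro j m p q hr h
    obtain ⟨-, -, -, -, hp1, hp2, hq1, hq2⟩ := hr
    replace h := of_decide_eq_true h
    rcases h with h | h
    · obtain ⟨rfl, rfl, h⟩ := h
      exact (WrapC.v1 H.c4 (by omega) (by omega) (by omega) (by omega) (by omega) (by omega) (by omega) (by omega)).mpr (by omega)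
    · obtain ⟨rfl, rfl, rfl, rfl⟩ := h
      exact hg' _ _ _ _ (by omega) (by omega) (by omega) (by omega)
  · intro j m p q hr h
    obtain ⟨-, -, -, -, hp1, hp2, hq1, hq2⟩ := hr
    replace h := of_decide_eq_true h
    rcases h with h | h | h | h | h | h | h | h | h | h | h | h | h | h | h | h | h | h | h | h | h | h
    · obtain ⟨rfl, rfl, h⟩ := h
      exact mt (WrapC.v1 H.c4 (by omega) (by omega) (by omega) (by omega) (by omega) (by omega) (by omega) (by omega)).mp (by omega)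
    · obtain ⟨rfl, rfl, h⟩ := h
      exact LW _ _ _ _ (by omega) (by omega) (by omega) (by omega) (by omega) (by omega)
    · obtain ⟨rfl, rfl, h⟩ := h
      exact rm1 hf H.T (p := 0) (j := 2) (by omega) (by omega) (by omega) (by omega) (by omega) (by omega) (by omega)
    · obtain ⟨rfl, rfl, h⟩ := h
      exact rm1 hf H.T (p := 1) (j := 2) (by omega) (by omega) (by omega) (by omega) (by omega) (by omega) (by omega)
    · obtain ⟨rfl, rfl, h⟩ := h
      exact rm1 hf H.T (p := 0) (j := 0) (by omega) (by omega) (by omega) (by omega) (by omega) (by omega) (by omega)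
    · obtain ⟨rfl, rfl, h⟩ := h
      exact rm1 hf H.T (p := 1) (j := 0) (by omega) (by omega) (by omega) (by omega) (by omega) (by omega) (by omega)
    · obtain ⟨rfl, rfl, h⟩ := h
      exact LW _ _ _ _ (by omega) (by omega) (by omega) (by omega) (by omega) (by omega)
    · obtain ⟨rfl, rfl, h⟩ := h
      exact NHT.p0 hf H.T (j := 2) (by omega) (by omega) (by omega) (by omega) (by omega) (by omega)
    · obtain ⟨rfl, rfl, h⟩ := h
      exact NHT.p0 hf H.T (j := 0) (by omega) (by omega) (by omega) (by omega) (by omega) (by omega)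
    · obtain ⟨rfl, rfl, h⟩ := h
      exact LW _ _ _ _ (by omega) (by omega) (by omega) (by omega) (by omega) (by omega)
    · obtain ⟨rfl, rfl, h⟩ := h
      exact r1 hf H.T (p := 1) (j := 3) (by omega) (by omega) (by omega) (by omega) (by omega) (by omega) (by omega)
    · obtain ⟨rfl, rfl, h⟩ := h
      exact r1i hf H.T (p := 0) (j := 3) (by omega) (by omega) (by omega) (by omega) (by omega) (by omega) (by omega)
    · obtain ⟨rfl, rfl, h⟩ := h
      exact r1 hf H.T (p := 0) (j := 2) (by omega) (by omega) (by omega) (by omega) (by omega) (by omega) (by omega)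
    · obtain ⟨rfl, rfl, h⟩ := h
      exact NHT.p2 hf H.T (j := 2) (by omega) (by omega) (by omega) (by omega) (by omega) (by omega)
    · obtain ⟨rfl, rfl, h⟩ := h
      exact r1 hf H.T (p := 0) (j := 1) (by omega) (by omega) (by omega) (by omega) (by omega) (by omega) (by omega)
    · obtain ⟨rfl, rfl, h⟩ := h
      exact NHT.p2 hf H.T (j := 1) (by omega) (by omega) (by omega) (by omega) (by omega) (by omega)
    · obtain ⟨rfl, rfl, h⟩ := h
      exact LW _ _ _ _ (by omega) (by omega) (by omega) (by omega) (by omega) (by omega)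
    · obtain ⟨rfl, rfl, h⟩ := h
      exact NHT.p2 hf H.T (j := 3) (by omega) (by omega) (by omega) (by omega) (by omega) (by omega)
    · obtain ⟨rfl, rfl, h⟩ := h
      exact NHT.p2 hf H.T (j := 2) (by omega) (by omega) (by omega) (by omega) (by omega) (by omega)
    · obtain ⟨rfl, rfl, h⟩ := h
      exact NHT.p2 hf H.T (j := 1) (by omega) (by omega) (by omega) (by omega) (by omega) (by omega)
    · obtain ⟨rfl, rfl, h⟩ := h
      exact U2 _ _ _ _ (by omega) (by omega) (by omega) (by omega) (by omega) (by omega)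
    · obtain ⟨rfl, rfl, h⟩ := h
      exact U6 _ _ _ _ (by omega) (by omega) (by omega) (by omega) (by omega) (by omega)

theorem p3_9_0_chk : check 5 4 6 9 0 0 0 1 0
    (fun j n p q => decide ((j = 5 ∧ n = 2 ∧ p = 3 ∧ q = 3)))
    (fun j n p q => decide ((j = 1 ∧ n = 1)
      ∨ (j = 3 ∧ n = 1 ∧ 2 ≤ q ∧ p ≤ q + 1 ∧ q ≤ p + 4)
      ∨ (j = 4 ∧ n = 1 ∧ 2 ≤ q ∧ p ≤ q + 2 ∧ q ≤ p + 5)
      ∨ (j = 5 ∧ n = 1 ∧ 2 ≤ q ∧ p ≤ q + 2 ∧ q ≤ p + 5)
      ∨ (j = 1 ∧ n = 2)
      ∨ (j = 5 ∧ n = 2 ∧ 7 ≤ q ∧ p ≤ q + 2 ∧ q ≤ p + 5)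
      ∨ (j = 4 ∧ n = 2 ∧ 7 ≤ q ∧ p % 2 = 1)))
    92
    0x11e03018a0001f64201190301858001858402678301f60001f60401f60301f68001f68401848001f552011c83018880018884011d0301890001890401f50300fd0000fd0401f50301180001180401180301840001840402610002678702630702610f024c87024c0702480702478701fb8701f70701f18701f08701e08701e00701dc0701db8701db0701da8701da0701d98701d68701d60701d58701d507016f07016e87016e07016d87016a87016a0701698701690701198701188701178700b20700b18700b10700b08700b00700ad8700ad0700ac8700ac0700ab8700a88700a80700a78700a707009707009687009607009587009507009287009207009187009107009087008d87008d07008c87008c07 = true := by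
  decide +kernel

theorem p3_9_0 (hf : Rule f) {k c n : ℕ} (H : NWJ f k c n)
    (LW : ∀ M R x y : ℕ, M + 1 = 6 * k → c ≤ R + 12 → R ≤ c + 12 → 2 * n ≤ x + 20 → y ≤ x → x ≤ y + 4 * k → ¬ f M R x y)
    (U2 : ∀ M R x y : ℕ, M = 6 * k + 2 → R = c + 2 → y = 2 * n + 4 → x % 2 = 1 → 2 * n + 5 ≤ x →
      x + 5 ≤ 2 * n + 2 * k → ¬ f M R x y)
    (U6 : ∀ M R x y : ℕ, M = 6 * k + 6 → R = c + 2 → y = 2 * n + 4 → x % 2 = 1 → 2 * n + 7 ≤ x →
      x + 5 ≤ 2 * n + 2 * k → ¬ f M R x y) :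
    ¬ f (6 * k + 3) (c + 2) (2 * n + 9) (2 * n) := by
  intro hg
  have hk := H.T.hk
  have hc := H.T.hc
  have h4 := H.T.h4
  have hb := H.T.hb
  have hN := H.T.hN2
  have hg' : ∀ M R x y : ℕ, M = 6 * k + 3 → R = c + 2 → x = 2 * n + 9 → y = 2 * n → f M R x y := by
    intro M R x y e1 e2 e3 e4
    rw [e1, e2, e3, e4]
    exact hg
  clear hg
  obtain ⟨a0, ha0⟩ : ∃ z, z + 2 = 6 * k := ⟨6 * k - 2, by omega⟩
  obtain ⟨b0, hb0⟩ : ∃ z, z = c + 0 := ⟨_, rfl⟩
  obtain ⟨x0, hx0⟩ : ∃ z, z = 2 * n + 6 := ⟨_, rfl⟩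
  obtain ⟨y0, hy0⟩ : ∃ z, z + 3 = 2 * n := ⟨2 * n - 3, by omega⟩
  refine check_sound hf (a0 := a0) (b0 := b0) (x0 := x0) (y0 := y0) p3_9_0_chk
    ⟨fun h => absurd h (by decide), fun h => absurd h (by decide), fun h => absurd h (by decide), by omega, by omega,
      by omega, by omega⟩ ?_ ?_
  · intro j m p q hr h
    obtain ⟨-, -, -, -, hp1, hp2, hq1, hq2⟩ := hr
    replace h := of_decide_eq_true h
    obtain ⟨rfl, rfl, rfl, rfl⟩ := h
    exact hg' _ _ _ _ (by omega) (by omega) (by omega) (by omega)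
  · intro j m p q hr h
    obtain ⟨-, -, -, -, hp1, hp2, hq1, hq2⟩ := hr
    replace h := of_decide_eq_true h
    rcases h with h | h | h | h | h | h | h
    · obtain ⟨rfl, rfl⟩ := h
      exact LW _ _ _ _ (by omega) (by omega) (by omega) (by omega) (by omega) (by omega)
    · obtain ⟨rfl, rfl, h⟩ := h
      exact r1 hf H.T (p := 1) (j := 4) (by omega) (by omega) (by omega) (by omega) (by omega) (by omega) (by omega)
    · obtain ⟨rfl, rfl, h⟩ := h
      exact r1 hf H.T (p := 0) (j := 3) (by omega) (by omega) (by omega) (by omega) (by omega) (by omega) (by omega)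
    · obtain ⟨rfl, rfl, h⟩ := h
      exact r1 hf H.T (p := 1) (j := 3) (by omega) (by omega) (by omega) (by omega) (by omega) (by omega) (by omega)
    · obtain ⟨rfl, rfl⟩ := h
      exact LW _ _ _ _ (by omega) (by omega) (by omega) (by omega) (by omega) (by omega)
    · obtain ⟨rfl, rfl, h⟩ := h
      exact NHT.p2 hf H.T (j := 3) (by omega) (by omega) (by omega) (by omega) (by omega) (by omega)
    · obtain ⟨rfl, rfl, h⟩ := h
      exact U2 _ _ _ _ (by omega) (by omega) (by omega) (by omega) (by omega) (by omega)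

end Pool.Agent.SNT.NDB
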