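import Pool.Agent.SNT.NHAsm2
import Pool.Agent.SNT.NBP3
import Pool.Agent.SNT.NBC1
import Pool.Agent.SNT.NBC2
import Pool.Agent.SNT.NBC3
import Pool.Agent.SNT.NBC4
import Pool.Agent.SNT.NBC5

set_option autoImplicit false

/-!
# The corner of the top leader

`NHG` (the facts of the assembly `NHAsm2`) from the improved leads `NWJ`, the layer `6 k - 1`, the lead `n - 7` of `6 k`, the
purity, the near-wall facts, the pair of tips `(0, 1)` of `6 k + 2` in the row `c` and two pairs of tips of `6 k + 4` in the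
row `c - 2`.
-/

namespace Pool.Agent.SNT.NDB

open Pool.Agent.SNT Pool.Agent.SNT.Sig Pool.Agent.SNT.NHZ Pool.Agent.SNT.NW Pool.Agent.SNT.NHA

variable {f : ℕ → ℕ → ℕ → ℕ → Prop} {k c n : ℕ}

/-- The inputs of the corner. -/
structure CorB (f : ℕ → ℕ → ℕ → ℕ → Prop) (k c n : ℕ) : Prop where
  H : NWJ f k c n
  LW : ∀ M R x y : ℕ, M + 1 = 6 * k → c ≤ R + 12 → R ≤ c + 12 → 2 * n ≤ x + 20 → y ≤ x → x ≤ y + 4 * k → ¬ f M R x y
  C0 : Cyc f (6 * k) (c - 6) (2 * (n - 7) + 2)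
  /-- purity -/
  u2 : ∀ x : ℕ, x % 2 = 1 → 2 * n + 7 ≤ x → x + 1 ≤ 2 * n + 2 * k → ¬ f (6 * k + 2) (c + 2) x (2 * n + 4)
  u6 : ∀ x : ℕ, x % 2 = 1 → 2 * n + 7 ≤ x → x + 1 ≤ 2 * n + 2 * k → ¬ f (6 * k + 6) (c + 2) x (2 * n + 4)
  /-- the pair of tips of `6 k + 2` -/
  p01 : f (6 * k + 2) c (2 * n + 1) (2 * n) ∨ f (6 * k + 2) c (2 * n + 3) (2 * n + 2)
  /-- two pairs of tips of `6 k + 4` -/
  t4a : f (6 * k + 4) (c - 2) (2 * n - 3) (2 * n - 4) ∨ f (6 * k + 4) (c - 2) (2 * n - 1) (2 * n - 2)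
  t4b : f (6 * k + 4) (c - 2) (2 * n - 1) (2 * n - 2) ∨ f (6 * k + 4) (c - 2) (2 * n + 1) (2 * n)

/-- the purity of `6 k + 2` at `x = 2 n + 5` -/
theorem CorB.u25 (hf : Rule f) (K : CorB f k c n) : ¬ f (6 * k + 2) (c + 2) (2 * n + 5) (2 * n + 4) := by
  rcases K.p01 with h | h
  · exact u25_b0 hf K.H K.LW K.C0 h
  · exact u25_a hf K.H K.LW K.C0 h

theorem CorB.U2 (hf : Rule f) (K : CorB f k c n) : ∀ M R x y : ℕ, M = 6 * k + 2 → R = c + 2 → y = 2 * n + 4 →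
    x % 2 = 1 → 2 * n + 5 ≤ x → x + 5 ≤ 2 * n + 2 * k → ¬ f M R x y := by
  intro M R x y e1 e2 e3 e4 e5 e6
  subst e1 e2 e3
  rcases Nat.lt_or_ge x (2 * n + 7) with h | h
  · rw [show x = 2 * n + 5 by omega]
    exact K.u25 hf
  · exact K.u2 x e4 h (by omega)

theorem CorB.U6 (K : CorB f k c n) : ∀ M R x y : ℕ, M = 6 * k + 6 → R = c + 2 → y = 2 * n + 4 →
    x % 2 = 1 → 2 * n + 7 ≤ x → x + 5 ≤ 2 * n + 2 * k → ¬ f M R x y := by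
  intro M R x y e1 e2 e3 e4 e5 e6
  subst e1 e2 e3
  exact K.u6 x e4 e5 (by omega)

/-- three cells of the corner -/
theorem CorB.F (hf : Rule f) (K : CorB f k c n) :
    ¬ f (6 * k + 4) (c + 1) (2 * n + 2) (2 * n + 2) ∧ ¬ f (6 * k + 3) (c + 2) (2 * n + 5) (2 * n + 1) ∧
      ¬ f (6 * k + 3) (c + 2) (2 * n + 5) (2 * n) := by
  have U2 := K.U2 hf
  have U6 := K.U6
  by_cases h1 : f (6 * k + 4) (c - 2) (2 * n - 1) (2 * n - 2)
  · have f1 := c8_f1a hf K.H K.LW K.C0 U2 U6 h1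
    have f2 := c8_f2a hf K.H K.LW K.C0 U2 U6 h1 f1
    exact ⟨f1, f2, c8_f3a hf K.H K.LW K.C0 U2 U6 h1 f1 f2⟩
  · have h2 := K.t4a.resolve_right h1
    have h0 := K.t4b.resolve_left h1
    have f1 := c8_f1b hf K.H K.LW K.C0 U2 U6 h2 h1 h0
    have f2 := c8_f2b hf K.H K.LW K.C0 U2 U6 h1 h0 f1
    exact ⟨f1, f2, c8_f3b hf K.H K.LW K.C0 U2 U6 h1 h0 f1 f2⟩

/-- the implication of the corner -/
theorem CorB.c8 (hf : Rule f) (K : CorB f k c n) (a : sr f (6 * k + 4) (c + 2) (n + 3) (n + 1))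
    (b : sr f (6 * k + 4) (c + 2) (n + 3) n) (h9 : f (6 * k + 9) (c + 2) (2 * n + 8) (2 * n + 3)) :
    f (6 * k + 7) (c + 2) (2 * n + 8) (2 * n + 2) := by
  have U2 := K.U2 hf
  have U6 := K.U6
  obtain ⟨f1, f2, f3⟩ := K.F hf
  rw [sr, bY, bO] at a b
  rw [show 2 * (n + 3) + 1 = 2 * n + 7 by omega] at a b
  rw [show 2 * (n + 1) + 1 = 2 * n + 3 by omega, show 2 * (n + 1) = 2 * n + 2 by omega] at a
  rcases a with a | a <;> rcases b with b | b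
  · exact c8_c20 hf K.H K.LW K.C0 U2 U6 h9 a b f1 f2 f3
  · exact c8_21 hf K.H K.LW K.C0 U2 U6 h9 a b
  · exact c8_30 hf K.H K.LW K.C0 U2 U6 h9 a b
  · exact c8_c31 hf K.H K.LW K.C0 U2 U6 h9 a b f1 f2 f3

/-- **The facts of the assembly.** -/
theorem CorB.nhg (hf : Rule f) (K : CorB f k c n)
    (w1 : sr f (6 * k + 4) (c + 2) (n + k - 4) (n + 1)) (w0 : sr f (6 * k + 4) (c + 2) (n + k - 4) n)
    (w8 : sr f (6 * k + 8) (c + 2) (n + k - 3) (n + 1))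
    (w7 : ¬ f (6 * k + 7) (c + 2) (2 * n + 2 * k - 6) (2 * n + 3))
    (w9 : ∀ j : ℕ, j ≤ 2 → ¬ f (6 * k + 9) (c + 2) (2 * n + 2 * k - 2 + 2 * j) (2 * n + 3)) : NHG f k c n := by
  have U2 := K.U2 hf
  have U6 := K.U6
  refine ⟨K.H.T, K.H.lw, fun x h1 h2 h3 => K.u2 x h3 h1 (by omega), fun x h1 h2 h3 => K.u6 x h3 h1 (by omega), w1, w0, w8,
    w7, w9, ?_, ?_, ?_, ?_, K.c8 hf⟩
  · intro x h1 h2
    obtain rfl | rfl | rfl : x = 2 * n + 7 ∨ x = 2 * n + 8 ∨ x = 2 * n + 9 := by omega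
    · exact p3_7_3 hf K.H K.LW U2 U6
    · exact p3_8_3 hf K.H K.LW U2 U6
    · exact p3_9_3 hf K.H K.LW U2 U6
  · intro x h1 h2 h3
    obtain rfl | rfl : x = 2 * n + 7 ∨ x = 2 * n + 9 := by omega
    · exact p3_7_2 hf K.H K.LW U2 U6
    · exact p3_9_2 hf K.H K.LW U2 U6
  · intro x h1 h2
    obtain rfl | rfl | rfl : x = 2 * n + 7 ∨ x = 2 * n + 8 ∨ x = 2 * n + 9 := by omega
    · exact p3_7_1 hf K.H K.LW U2 U6
    · exact p3_8_1 hf K.H K.LW U2 U6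
    · exact p3_9_1 hf K.H K.LW U2 U6
  · intro x h1 h2 h3
    obtain rfl | rfl : x = 2 * n + 7 ∨ x = 2 * n + 9 := by omega
    · exact p3_7_0 hf K.H K.LW U2 U6
    · exact p3_9_0 hf K.H K.LW U2 U6

end Pool.Agent.SNT.NDB
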