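import Pool.Agent.SNT.PL

set_option autoImplicit false
set_option synthInstance.maxSize 100000
set_option synthInstance.maxHeartbeats 4000000

/-! Near-wall windows of the missing line `M` of `6 k + 2`. -/

namespace Pool.Agent.SNT.D1E

open Pool.Agent.SNT Pool.Agent.SNT.Sig Pool.Agent.SNT.Loc Pool.Agent.SNT.LW Pool.Agent.SNT.NHZ Pool.Agent.SNT.DRun
open Pool.Agent.SNT.PB

variable {f : ℕ → ℕ → ℕ → ℕ → Prop}

theorem k0_pair_w_chk : check 8 7 14 13 0 1 0 1 0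
    (fun j n p q => decide ((j = 2 ∧ n = 3 ∧ (((p + q + 1) % 2 = 1 ∧ p ≤ q + 0 ∧ p % 2 = 1) ∨ ((p + q + 1) % 2 = 1 ∧ q ≤ p + 0 ∧ (p + q + 2) % 4 = 0)))
      ∨ (j = 2 ∧ n = 4 ∧ ((3 ≤ p) ∨ (p ≤ q + 1 ∧ 2 ≤ p)) ∧ ((p + q + 1) % 2 = 0 ∧ q + 1 ≤ p ∧ (p + q + 3) % 4 = 0))
      ∨ (j = 2 ∧ n = 5 ∧ q + 1 ≤ p ∧ 5 ≤ p ∧ (((p + q + 1) % 2 = 1 ∧ p ≤ q + 0 ∧ p % 2 = 0) ∨ ((p + q + 1) % 2 = 1 ∧ q ≤ p + 0 ∧ (p + q) % 4 = 0)))
      ∨ (j = 4 ∧ n = 5 ∧ 7 ≤ p ∧ (((p + q + 1) % 2 = 1 ∧ p ≤ q + 0 ∧ p % 2 = 1) ∨ ((p + q + 1) % 2 = 1 ∧ q ≤ p + 0 ∧ (p + q + 2) % 4 = 0)))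
      ∨ (j = 4 ∧ n = 1 ∧ (((p + q + 1) % 2 = 1 ∧ p ≤ q + 0 ∧ p % 2 = 1) ∨ ((p + q + 1) % 2 = 1 ∧ q ≤ p + 0 ∧ (p + q + 2) % 4 = 0)))
      ∨ (j = 4 ∧ n = 3 ∧ q + 1 ≤ p ∧ (((p + q + 1) % 2 = 1 ∧ p ≤ q + 0 ∧ p % 2 = 0) ∨ ((p + q + 1) % 2 = 1 ∧ q ≤ p + 0 ∧ (p + q) % 4 = 0)))
      ∨ (j = 6 ∧ n = 3 ∧ (((p + q + 1) % 2 = 1 ∧ p ≤ q + 0 ∧ p % 2 = 1) ∨ ((p + q + 1) % 2 = 1 ∧ q ≤ p + 0 ∧ (p + q + 2) % 4 = 0)))
      ∨ (j = 6 ∧ n = 4 ∧ ((3 ≤ p) ∨ (p ≤ q + 1 ∧ 2 ≤ p)) ∧ ((p + q + 1) % 2 = 0 ∧ q + 1 ≤ p ∧ (p + q + 3) % 4 = 0))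
      ∨ (j = 8 ∧ n = 5 ∧ 5 ≤ p ∧ (((p + q + 1) % 2 = 1 ∧ p ≤ q + 2 ∧ p % 2 = 1) ∨ ((p + q + 1) % 2 = 1 ∧ q + 2 ≤ p ∧ (p + q + 2) % 4 = 2)))))
    (fun j n p q => decide ((j = 1 ∧ n = 2)
      ∨ (j = 1 ∧ n = 4)
      ∨ (j = 1 ∧ n = 5)
      ∨ (j = 5 ∧ n = 5 ∧ 4 ≤ p ∧ p + 2 ≤ q)
      ∨ (j = 4 ∧ n = 5 ∧ p = 3 ∧ q = 7)
      ∨ (j = 4 ∧ n = 5 ∧ p = 5 ∧ q = 9)))
    235
    0x1363830e63000e638a0bd903094e800bd252094d800bd1520e4e000e54920bd903094e800bd2520e4f000e55920bd1000bd1041355830e54800e54840b75000b7b920bdd800bde0a0b7b830bd7000bd7040b14000d985a0b21000b833a0b7b830b7c000b7c040e62830b7c800b7c8406d003094d00094d040bd90308f38008f38406d103094e00094e0406d7830955000955040e62830bd8000bd80406d68309540009540406d78309548009548406dd03095a80095a840e62830bde000bde0406d68309538009538406dd03095a00095a0406d68306d70006d7041363830e62800e62840bdf800bdf840b16000d99d20b23000b15000da6d20d98d20b30000b22000b9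1b20da5d20b3d000b2f000b9f3a0b913a0ba5800b97800b898005bd800c07ba0bf9ba0bebba061fba15e10015e00015d30015d200108a801030001024001023001022001017001016001015000c0e000c08000c00000bfa000bf2000bed000bec000b19000a66000a65000a59000a58000a570006e30006a480069680068880067a80063d00063c00062f00062e0006260006220006210006200006140006130015e10f15e00f15d30f15d20f10df8710d187108a8f10300f10240f10230f10220f10170f10160f10150f0e63870e5d070e5c870e5c070e55870c0e0f0c080f0c00870c000f0bfa0f0bf2870bf20f0bed0f0bec0f0be6870be5870be4870be0070bd8870bd7870bd2070bcb870bca870b3d870b2f870b22870b21870b20870b190f0b15870b14870a660f0a650f0a590f0a580f0a570f06e30f06dc8706d08706cf8706a48f06968f06888f067a8f063d0f063c0f062f0f062e0f06260f06220f06210f06200f06188706140f06130f046007045a87045a07045987045907045407045387045307045287044d87044d07044c87044c0703ff8703ff0703fe8703fe0703f90703f88703f80703f78703f28703f20703f18703f107034087 = true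 := by
  decide +kernel

theorem k0_pair_w (hf : Rule f) {k c n M y : ℕ} (H : PL f k c n M) (hy : y + 2 * k = 2 * M + 6)
    (h1 : ¬ f (6 * k + 2) (c - 4) (2 * M + 1) y) (h2 : ¬ f (6 * k + 2) (c - 4) (2 * M - 1) (y - 2)) : False := by
  have hk := H.T.hk
  have hc := H.T.hc
  have h4' := H.T.h4
  have hb := H.T.hb
  have hN := H.T.hN2
  have hM := H.hM
  obtain ⟨a0, ha0⟩ : ∃ z, z + 2 = 6 * k := ⟨6 * k - 2, by omega⟩
  obtain ⟨b0, hb0⟩ : ∃ z, z + 9 = c := ⟨c - 9, by omega⟩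
  obtain ⟨x0, hx0⟩ : ∃ z, z + 5 = 2 * M + 1 := ⟨2 * M + 1 - 5, by omega⟩
  obtain ⟨y0, hy0⟩ : ∃ z, z + 9 = y := ⟨y - 9, by omega⟩
  refine check_sound hf (a0 := a0) (b0 := b0) (x0 := x0) (y0 := y0) k0_pair_w_chk
    ⟨fun h => absurd h (by decide), fun h => absurd h (by decide), fun h => absurd h (by decide), by omega, by omega,
      by omega, by omega⟩ ?_ ?_
  · intro j m p q hr h
    obtain ⟨-, -, -, -, hp1, hp2, hq1, hq2⟩ := hr
    replace h := of_decide_eq_true h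
    rcases h with h | h | h | h | h | h | h | h | h
    · obtain ⟨rfl, rfl, h⟩ := h
      exact (WrapC.v0 H.c0 (by omega) (by omega) (by omega) (by omega) (by omega) (by omega) (by omega)).mpr (by omega)
    · obtain ⟨rfl, rfl, h⟩ := h
      exact (WrapC.v1 H.c0 (by omega) (by omega) (by omega) (by omega) (by omega) (by omega) (by omega) (by omega)).mpr (by omega)
    · obtain ⟨rfl, rfl, h⟩ := h
      exact (WrapC.v2 H.c0 (by omega) (by omega) (by omega) (by omega) (by omega) (by omega) (by omega)).mpr (by omega)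
    · obtain ⟨rfl, rfl, h⟩ := h
      exact (WrapC.v0 H.c2 (by omega) (by omega) (by omega) (by omega) (by omega) (by omega) (by omega)).mpr (by omega)
    · obtain ⟨rfl, rfl, h⟩ := h
      exact (WrapC.v0 H.c2a (by omega) (by omega) (by omega) (by omega) (by omega) (by omega) (by omega)).mpr (by omega)
    · obtain ⟨rfl, rfl, h⟩ := h
      exact (WrapC.v2 H.c2a (by omega) (by omega) (by omega) (by omega) (by omega) (by omega) (by omega)).mpr (by omega)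
    · obtain ⟨rfl, rfl, h⟩ := h
      exact (WrapC.v0 H.c4a (by omega) (by omega) (by omega) (by omega) (by omega) (by omega) (by omega)).mpr (by omega)
    · obtain ⟨rfl, rfl, h⟩ := h
      exact (WrapC.v1 H.c4a (by omega) (by omega) (by omega) (by omega) (by omega) (by omega) (by omega) (by omega)).mpr (by omega)
    · obtain ⟨rfl, rfl, h⟩ := h
      exact (WrapC.v0 H.c6 (by omega) (by omega) (by omega) (by omega) (by omega) (by omega) (by omega)).mpr (by omega)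
  · intro j m p q hr h
    obtain ⟨-, -, -, -, hp1, hp2, hq1, hq2⟩ := hr
    replace h := of_decide_eq_true h
    rcases h with h | h | h | h | h | h
    · obtain ⟨rfl, rfl⟩ := h
      exact H.lw _ _ _ _ (by omega) (by omega) (by omega) (by omega) (by omega) (by omega)
    · obtain ⟨rfl, rfl⟩ := h
      exact H.lw _ _ _ _ (by omega) (by omega) (by omega) (by omega) (by omega) (by omega)
    · obtain ⟨rfl, rfl⟩ := h
      exact H.lw _ _ _ _ (by omega) (by omega) (by omega) (by omega) (by omega) (by omega)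
    · obtain ⟨rfl, rfl, h⟩ := h
      exact NHT.pIn hf H.T (t := 3) (j := 1) (by omega) (by omega) (by omega) (by omega) (by omega) (by omega) (by omega)
    · obtain ⟨rfl, rfl, rfl, rfl⟩ := h
      exact fun t => h2 (mv t (by omega) (by omega) (by omega) (by omega))
    · obtain ⟨rfl, rfl, rfl, rfl⟩ := h
      exact fun t => h1 (mv t (by omega) (by omega) (by omega) (by omega))

theorem x_wall_chk : check 7 6 9 7 1 0 1 1 0
    (fun j n p q => decide ((j = 1 ∧ n = 2 ∧ (((p + q) % 2 = 1 ∧ p ≤ q + 1 ∧ p % 2 = 0) ∨ ((p + q) % 2 = 1 ∧ q + 1 ≤ p ∧ (p + q + 1) % 4 = 0)))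
      ∨ (j = 1 ∧ n = 3 ∧ ((p + q) % 2 = 0 ∧ q + 2 ≤ p ∧ (p + q + 2) % 4 = 0))
      ∨ (j = 3 ∧ n = 4 ∧ 4 ≤ p ∧ (((p + q) % 2 = 1 ∧ p ≤ q + 1 ∧ p % 2 = 0) ∨ ((p + q) % 2 = 1 ∧ q + 1 ≤ p ∧ (p + q + 1) % 4 = 0)))
      ∨ (j = 5 ∧ n = 2 ∧ (((p + q) % 2 = 1 ∧ p ≤ q + 1 ∧ p % 2 = 0) ∨ ((p + q) % 2 = 1 ∧ q + 1 ≤ p ∧ (p + q + 1) % 4 = 0)))
      ∨ (j = 7 ∧ n = 4 ∧ 2 ≤ p ∧ (((p + q) % 2 = 1 ∧ p ≤ q + 3 ∧ p % 2 = 0) ∨ ((p + q) % 2 = 1 ∧ q + 3 ≤ p ∧ (p + q + 1) % 4 = 2)))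
      ∨ (j = 3 ∧ n = 4 ∧ p = 2 ∧ q = 1)))
    (fun j n p q => decide ((j = 3 ∧ n = 1 ∧ ¬ ((p + q) % 2 = 0 ∧ q + 2 ≤ p ∧ (p + q + 2) % 4 = 0))
      ∨ (j = 4 ∧ n = 4 ∧ p + 1 ≤ q)
      ∨ (j = 3 ∧ n = 4 ∧ p = 2 ∧ q = 3)))
    42
    0x4fc03037e00037e01027a80033b5202818002a53a02a88002cc3a05b98005b88003ff8003f88003f78002cf8002cc8002c48002bc80012a8001048001038005b98f05b88f043b0703ff8f03f88f03f78f037a8702cf8f02cc8f02c80702c48f02c10702bd8702bc8f028207027a07025b07025a87012a8f01048f01038f = true := by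
  decide +kernel

theorem x_wall (hf : Rule f) {k c n M y : ℕ} (H : PL f k c n M) (hy : y + 2 * k = 2 * M + 2)
    (h0 : f (6 * k + 2) (c - 4) (2 * M + 1) y) (hg : ¬ f (6 * k + 2) (c - 4) (2 * M + 1) (y + 2)) : False := by
  have hk := H.T.hk
  have hc := H.T.hc
  have h4' := H.T.h4
  have hb := H.T.hb
  have hN := H.T.hN2
  have hM := H.hM
  obtain ⟨a0, ha0⟩ : ∃ z, z + 1 = 6 * k := ⟨6 * k - 1, by omega⟩
  obtain ⟨b0, hb0⟩ : ∃ z, z + 8 = c := ⟨c - 8, by omega⟩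
  obtain ⟨x0, hx0⟩ : ∃ z, z + 2 = 2 * M + 1 := ⟨2 * M + 1 - 2, by omega⟩
  obtain ⟨y0, hy0⟩ : ∃ z, z + 1 = y := ⟨y - 1, by omega⟩
  refine check_sound hf (a0 := a0) (b0 := b0) (x0 := x0) (y0 := y0) x_wall_chk
    ⟨fun h => absurd h (by decide), fun h => absurd h (by decide), fun h => absurd h (by decide), by omega, by omega,
      by omega, by omega⟩ ?_ ?_
  · intro j m p q hr h
    obtain ⟨-, -, -, -, hp1, hp2, hq1, hq2⟩ := hr
    replace h := of_decide_eq_true h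
    rcases h with h | h | h | h | h | h
    · obtain ⟨rfl, rfl, h⟩ := h
      exact (WrapC.v0 H.c0 (by omega) (by omega) (by omega) (by omega) (by omega) (by omega) (by omega)).mpr (by omega)
    · obtain ⟨rfl, rfl, h⟩ := h
      exact (WrapC.v1 H.c0 (by omega) (by omega) (by omega) (by omega) (by omega) (by omega) (by omega) (by omega)).mpr (by omega)
    · obtain ⟨rfl, rfl, h⟩ := h
      exact (WrapC.v0 H.c2 (by omega) (by omega) (by omega) (by omega) (by omega) (by omega) (by omega)).mpr (by omega)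
    · obtain ⟨rfl, rfl, h⟩ := h
      exact (WrapC.v0 H.c4a (by omega) (by omega) (by omega) (by omega) (by omega) (by omega) (by omega)).mpr (by omega)
    · obtain ⟨rfl, rfl, h⟩ := h
      exact (WrapC.v0 H.c6 (by omega) (by omega) (by omega) (by omega) (by omega) (by omega) (by omega)).mpr (by omega)
    · obtain ⟨rfl, rfl, rfl, rfl⟩ := h
      exact mv h0 (by omega) (by omega) (by omega) (by omega)
  · intro j m p q hr h
    obtain ⟨-, -, -, -, hp1, hp2, hq1, hq2⟩ := hr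
    replace h := of_decide_eq_true h
    rcases h with h | h | h
    · obtain ⟨rfl, rfl, h⟩ := h
      exact mt (WrapC.v1 H.c2a (by omega) (by omega) (by omega) (by omega) (by omega) (by omega) (by omega) (by omega)).mp (by omega)
    · obtain ⟨rfl, rfl, h⟩ := h
      exact NHT.pIn hf H.T (t := 3) (j := 1) (by omega) (by omega) (by omega) (by omega) (by omega) (by omega) (by omega)
    · obtain ⟨rfl, rfl, rfl, rfl⟩ := h
      exact fun t => hg (mv t (by omega) (by omega) (by omega) (by omega))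

end Pool.Agent.SNT.D1E
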