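import Pool.Agent.SNT.Sig

set_option autoImplicit false

/-! The two lowest odd layers in the row `R` next to the top OUT line (steps (2) and (5) of the
line proof): the row `R - 1` is zero, `P_(a+1)` only has births, `P_(a+1)`, `P_(a+3)` and the
cells (odd, `T + 4`) of the OUT layer `a + 2` are zero. -/

namespace Pool.Agent.SNT.NHP

open Pool.Agent.SNT Pool.Agent.SNT.Sig

variable {f : ℕ → ℕ → ℕ → ℕ → Prop}

/-- a one blocks its successors, in the form of inequalities -/
theorem kl (hf : Rule f) {a b x y a' b' x' y' : ℕ} (h : f a b x y) (h1 : a ≤ a') (h2 : a' ≤ a + 1)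
    (h3 : b ≤ b') (h4 : b' ≤ b + 1) (h5 : x ≤ x') (h6 : x' ≤ x + 1) (h7 : y ≤ y')
    (h8 : y' ≤ y + 1) (h9 : a < a' ∨ b < b' ∨ x < x' ∨ y < y') : ¬ f a' b' x' y' := by
  have := kill hf h (a' - a) (b' - b) (x' - x) (y' - y) (by omega) (by omega) (by omega)
    (by omega) (by omega)
  rwa [show a + (a' - a) = a' by omega, show b + (b' - b) = b' by omega,
    show x + (x' - x) = x' by omega, show y + (y' - y) = y' by omega] at this

/-- an even cell is zero -/
theorem ev (hf : Rule f) {a b x y : ℕ} (ha : a % 2 = 0) (hb : b % 2 = 0) (hx : x % 2 = 0)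
    (hy : y % 2 = 0) : ¬ f a b x y := fun h => ((hf a b x y).1 h).1 ⟨ha, hb, hx, hy⟩

/-- the predecessors in the same row of a zero cell, if the row before is zero -/
theorem predr (hf : Rule f) {L R x y : ℕ} (h0 : ¬ f L R x y)
    (hpar : ¬ (L % 2 = 0 ∧ R % 2 = 0 ∧ x % 2 = 0 ∧ y % 2 = 0))
    (hr : ∀ p r s : ℕ, p ≤ 1 → r ≤ 1 → s ≤ 1 → ¬ f (L - p) (R - 1) (x - r) (y - s)) :
    f L R (x - 1) y ∨ f L R x (y - 1) ∨ f L R (x - 1) (y - 1) ∨ f (L - 1) R x y ∨
      f (L - 1) R (x - 1) y ∨ f (L - 1) R x (y - 1) ∨ f (L - 1) R (x - 1) (y - 1) := by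
  obtain ⟨p, q, r, s, hp, hq, hr', hs, h5, -, -, -, -, h6⟩ := pred hf h0 hpar
  interval_cases q
  · rw [Nat.sub_zero] at h6
    interval_cases p <;> interval_cases r <;> interval_cases s <;>
      (try simp only [Nat.sub_zero] at h6) <;> first | exact absurd h5 (by decide) | tauto
  · exact absurd h6 (hr p r s hp hr' hs)

/-- The hypotheses. -/
structure HP (f : ℕ → ℕ → ℕ → ℕ → Prop) (a R T x0 x1 : ℕ) : Prop where
  ha : a % 2 = 0
  hR : R % 2 = 0
  hT : T % 2 = 0
  ha1 : 1 ≤ a
  hR1 : 1 ≤ R
  hT1 : 1 ≤ T
  hx1 : 1 ≤ x0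
  row : ∀ L x y : ℕ, a + 1 ≤ L → L ≤ a + 3 → x0 ≤ x → x ≤ x1 → T ≤ y + 1 → y ≤ T + 4 →
    ¬ f L (R - 1) x y
  e1 : ∀ x y : ℕ, x0 ≤ x → x ≤ x1 → T ≤ y + 1 → y ≤ T + 3 → ¬ (x % 2 = 0 ∧ y % 2 = 0) →
    ¬ f (a + 1) R x y
  p1 : ∀ x : ℕ, x0 ≤ x → x ≤ x1 → ¬ f (a + 1) R x (T + 4)
  p3 : ∀ x : ℕ, x0 ≤ x → x ≤ x1 → ¬ f (a + 3) R x (T + 4)
  pur : ∀ x : ℕ, x0 ≤ x → x ≤ x1 → x % 2 = 1 → ¬ f (a + 2) R x (T + 4)

variable {a R T x0 x1 : ℕ}

/-- the predecessors of a cell of the layers `a + 2`, `a + 3` in the row `R` -/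
theorem HP.pr (hf : Rule f) (S : HP f a R T x0 x1) {L x y : ℕ} (hL : a + 2 ≤ L) (hL' : L ≤ a + 3)
    (hx : x0 + 1 ≤ x) (hx' : x ≤ x1) (hy : T ≤ y) (hy' : y ≤ T + 4) (h0 : ¬ f L R x y)
    (hpar : ¬ (L % 2 = 0 ∧ x % 2 = 0 ∧ y % 2 = 0)) :
    f L R (x - 1) y ∨ f L R x (y - 1) ∨ f L R (x - 1) (y - 1) ∨ f (L - 1) R x y ∨
      f (L - 1) R (x - 1) y ∨ f (L - 1) R x (y - 1) ∨ f (L - 1) R (x - 1) (y - 1) := by
  refine predr hf h0 (fun h => hpar ⟨h.1, h.2.2.1, h.2.2.2⟩) fun p r s hp hr hs => ?_
  exact S.row _ _ _ (by omega) (by omega) (by omega) (by omega) (by omega) (by omega)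

/-- a block of the row `T + 2`, `T + 3` of the OUT layer has a cell in the row `T + 3` or is
emptied by a birth of `P_(a+1)` -/
theorem HP.blk' (hf : Rule f) (S : HP f a R T x0 x1) {x : ℕ} (hx : x0 ≤ x) (hx' : x + 1 ≤ x1)
    (he : x % 2 = 0) : f (a + 2) R x (T + 3) ∨ f (a + 2) R (x + 1) (T + 3) := by
  have ha := S.ha
  have hR := S.hR
  have hT := S.hT
  have h0 := S.pur (x + 1) (by omega) hx' (by omega)
  have := S.pr hf (by omega) (by omega) (by omega) hx' (by omega) (by omega) h0 (by omega)
  rw [show a + 2 - 1 = a + 1 by omega, Nat.add_sub_cancel, show T + 4 - 1 = T + 3 by omega] at this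
  rcases this with h | h | h | h | h | h | h
  · exact absurd h (ev hf (by omega) hR he (by omega))
  · exact Or.inr h
  · exact Or.inl h
  · exact absurd h (S.p1 _ (by omega) hx')
  · exact absurd h (S.p1 _ hx (by omega))
  · exact absurd h (S.e1 _ _ (by omega) hx' (by omega) (by omega) (by omega))
  · exact absurd h (S.e1 _ _ hx (by omega) (by omega) (by omega) (by omega))

/-- `P_(a+1)` is zero in the line `T + 2` -/
theorem HP.p1_2 (hf : Rule f) (S : HP f a R T x0 x1) {x : ℕ} (hx : x0 ≤ x) (hx' : x + 1 ≤ x1) :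
    ¬ f (a + 1) R x (T + 2) := by
  intro h
  rcases Nat.mod_two_eq_zero_or_one x with he | he
  · rcases S.blk' hf hx hx' he with g | g
    · exact kl hf h (by omega) (by omega) le_rfl (by omega) le_rfl (by omega) (by omega)
        (by omega) (by omega) g
    · exact kl hf h (by omega) (by omega) le_rfl (by omega) (by omega) (by omega) (by omega)
        (by omega) (by omega) g
  · exact S.e1 x (T + 2) hx (by omega) (by omega) (by omega) (by omega) h

/-- `P_(a+3)` is zero in the line `T + 3` -/
theorem HP.p3_3 (hf : Rule f) (S : HP f a R T x0 x1) {x : ℕ} (hx : x0 + 1 ≤ x)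
    (hx' : x + 1 ≤ x1) : ¬ f (a + 3) R x (T + 3) := by
  have ha := S.ha
  have hR := S.hR
  have hT := S.hT
  intro h
  rcases Nat.mod_two_eq_zero_or_one x with he | he
  · have hz : ¬ f (a + 2) R x (T + 3) := fun g => kl hf g (by omega) (by omega) le_rfl (by omega)
      le_rfl (by omega) le_rfl (by omega) (by omega) h
    have := S.pr hf (by omega) (by omega) hx (by omega) (by omega) (by omega) hz (by omega)
    rw [show a + 2 - 1 = a + 1 by omega, show T + 3 - 1 = T + 2 by omega] at this
    rcases this with g | g | g | g | g | g | g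
    · exact kl hf g (by omega) (by omega) le_rfl (by omega) (by omega) (by omega) le_rfl
        (by omega) (by omega) h
    · exact ev hf (by omega) hR he (by omega) g
    · exact kl hf g (by omega) (by omega) le_rfl (by omega) (by omega) (by omega) (by omega)
        (by omega) (by omega) h
    · exact S.e1 _ _ (by omega) (by omega) (by omega) (by omega) (by omega) g
    · exact S.e1 _ _ (by omega) (by omega) (by omega) (by omega) (by omega) g
    · exact S.p1_2 hf (by omega) (by omega) g
    · exact S.p1_2 hf (by omega) (by omega) g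
  · rcases S.blk' hf (x := x - 1) (by omega) (by omega) (by omega) with g | g
    · exact kl hf g (by omega) (by omega) le_rfl (by omega) (by omega) (by omega) le_rfl
        (by omega) (by omega) h
    · rw [show x - 1 + 1 = x by omega] at g
      exact kl hf g (by omega) (by omega) le_rfl (by omega) (by omega) (by omega) le_rfl
        (by omega) (by omega) h

/-- `P_(a+3)` is zero at (odd, `T + 2`) -/
theorem HP.p3_2 (hf : Rule f) (S : HP f a R T x0 x1) {x : ℕ} (hx : x0 + 1 ≤ x) (hx' : x ≤ x1)
    (ho : x % 2 = 1) : ¬ f (a + 3) R x (T + 2) := by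
  have ha := S.ha
  have hR := S.hR
  have hT := S.hT
  intro h
  have hz : ¬ f (a + 2) R x (T + 2) := fun g => kl hf g (by omega) (by omega) le_rfl (by omega)
    le_rfl (by omega) le_rfl (by omega) (by omega) h
  have := S.pr hf (by omega) (by omega) hx (by omega) (by omega) (by omega) hz (by omega)
  rw [show a + 2 - 1 = a + 1 by omega, show T + 2 - 1 = T + 1 by omega] at this
  rcases this with g | g | g | g | g | g | g
  · exact ev hf (by omega) hR (by omega) (by omega) g
  · exact kl hf g (by omega) (by omega) le_rfl (by omega) (by omega) (by omega) (by omega)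
      (by omega) (by omega) h
  · exact kl hf g (by omega) (by omega) le_rfl (by omega) (by omega) (by omega) (by omega)
      (by omega) (by omega) h
  · exact S.e1 _ _ (by omega) (by omega) (by omega) (by omega) (by omega) g
  · exact S.p1_2 hf (by omega) (by omega) g
  · exact S.e1 _ _ (by omega) (by omega) (by omega) (by omega) (by omega) g
  · exact S.e1 _ _ (by omega) (by omega) (by omega) (by omega) (by omega) g

/-- `P_(a+1)` is zero in the line `T` -/
theorem HP.p1_0 (hf : Rule f) (S : HP f a R T x0 x1) {x : ℕ} (hx : x0 ≤ x) (hx' : x + 3 ≤ x1) :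
    ¬ f (a + 1) R x T := by
  have ha := S.ha
  have hR := S.hR
  have hT := S.hT
  intro h
  rcases Nat.mod_two_eq_zero_or_one x with he | he
  · have k1 : ¬ f (a + 2) R x (T + 1) := kl hf h (by omega) (by omega) le_rfl (by omega)
      le_rfl (by omega) (by omega) (by omega) (by omega)
    have k2 : ¬ f (a + 2) R (x + 1) (T + 1) := kl hf h (by omega) (by omega) le_rfl (by omega)
      (by omega) (by omega) (by omega) (by omega) (by omega)
    have g1 : f (a + 2) R (x + 1) (T + 2) := by
      by_contra hz
      have := S.pr hf (by omega) (by omega) (by omega) (by omega) (by omega) (by omega) hz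
        (by omega)
      rw [show a + 2 - 1 = a + 1 by omega, show T + 2 - 1 = T + 1 by omega,
        Nat.add_sub_cancel] at this
      rcases this with g | g | g | g | g | g | g
      · exact ev hf (by omega) hR he (by omega) g
      · exact k2 g
      · exact k1 g
      · exact S.p1_2 hf (by omega) (by omega) g
      · exact S.p1_2 hf (by omega) (by omega) g
      · exact S.e1 _ _ (by omega) (by omega) (by omega) (by omega) (by omega) g
      · exact S.e1 _ _ (by omega) (by omega) (by omega) (by omega) (by omega) g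
    have g2 : ¬ f (a + 2) R (x + 1) (T + 3) := kl hf g1 (by omega) (by omega) le_rfl (by omega)
      (by omega) (by omega) (by omega) (by omega) (by omega)
    have g4 : ¬ f (a + 2) R (x + 2) (T + 3) := kl hf g1 (by omega) (by omega) le_rfl (by omega)
      (by omega) (by omega) (by omega) (by omega) (by omega)
    have := S.pr hf (L := a + 3) (by omega) (by omega) (by omega) (by omega) (by omega) le_rfl
      (S.p3 (x + 2) (by omega) (by omega)) (by omega)
    rw [show a + 3 - 1 = a + 2 by omega, show T + 4 - 1 = T + 3 by omega,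
      show x + 2 - 1 = x + 1 by omega] at this
    rcases this with g | g | g | g | g | g | g
    · exact S.p3 _ (by omega) (by omega) g
    · exact S.p3_3 hf (by omega) (by omega) g
    · exact S.p3_3 hf (by omega) (by omega) g
    · exact ev hf (by omega) hR (by omega) (by omega) g
    · exact S.pur _ (by omega) (by omega) (by omega) g
    · exact g4 g
    · exact g2 g
  · exact S.e1 x T hx (by omega) (by omega) (by omega) (by omega) h

/-- `P_(a+3)` is zero in the line `T + 1` -/
theorem HP.p3_1 (hf : Rule f) (S : HP f a R T x0 x1) {x : ℕ} (hx : x0 + 1 ≤ x)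
    (hx' : x + 3 ≤ x1) : ¬ f (a + 3) R x (T + 1) := by
  have ha := S.ha
  have hR := S.hR
  have hT := S.hT
  intro h
  have hz : ¬ f (a + 2) R x (T + 1) := fun g => kl hf g (by omega) (by omega) le_rfl (by omega)
    le_rfl (by omega) le_rfl (by omega) (by omega) h
  have := S.pr hf (by omega) (by omega) hx (by omega) (by omega) (by omega) hz (by omega)
  rw [show a + 2 - 1 = a + 1 by omega, Nat.add_sub_cancel] at this
  rcases this with g | g | g | g | g | g | g
  · exact kl hf g (by omega) (by omega) le_rfl (by omega) (by omega) (by omega) (by omega)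
      (by omega) (by omega) h
  · exact kl hf g (by omega) (by omega) le_rfl (by omega) (by omega) (by omega) (by omega)
      (by omega) (by omega) h
  · exact kl hf g (by omega) (by omega) le_rfl (by omega) (by omega) (by omega) (by omega)
      (by omega) (by omega) h
  · exact S.e1 _ _ (by omega) (by omega) (by omega) (by omega) (by omega) g
  · exact S.e1 _ _ (by omega) (by omega) (by omega) (by omega) (by omega) g
  · exact S.p1_0 hf (by omega) (by omega) g
  · exact S.p1_0 hf (by omega) (by omega) g

/-- `P_(a+3)` is zero at (odd, `T`) -/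
theorem HP.p3_0 (hf : Rule f) (S : HP f a R T x0 x1) {x : ℕ} (hx : x0 + 1 ≤ x)
    (hx' : x + 2 ≤ x1) (ho : x % 2 = 1) : ¬ f (a + 3) R x T := by
  have ha := S.ha
  have hR := S.hR
  have hT := S.hT
  have hT1 := S.hT1
  intro h
  have hz : ¬ f (a + 2) R x T := fun g => kl hf g (by omega) (by omega) le_rfl (by omega)
    le_rfl (by omega) le_rfl (by omega) (by omega) h
  have := S.pr hf (by omega) (by omega) hx (by omega) (by omega) (by omega) hz (by omega)
  rw [show a + 2 - 1 = a + 1 by omega] at this
  rcases this with g | g | g | g | g | g | g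
  · exact kl hf g (by omega) (by omega) le_rfl (by omega) (by omega) (by omega) (by omega)
      (by omega) (by omega) h
  · exact kl hf g (by omega) (by omega) le_rfl (by omega) (by omega) (by omega) (by omega)
      (by omega) (by omega) h
  · exact kl hf g (by omega) (by omega) le_rfl (by omega) (by omega) (by omega) (by omega)
      (by omega) (by omega) h
  · exact S.e1 _ _ (by omega) (by omega) (by omega) (by omega) (by omega) g
  · exact S.p1_0 hf (by omega) (by omega) g
  · exact S.e1 _ _ (by omega) (by omega) (by omega) (by omega) (by omega) g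
  · exact S.e1 _ _ (by omega) (by omega) (by omega) (by omega) (by omega) g

end Pool.Agent.SNT.NHP
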