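import Pool.Agent.SNT.Sig

set_option autoImplicit false

/-!
# No healer for the top layer, part Q

One-step lemmas in the OUT row `b + 1` of the top leader (`b` is odd and clean). `a` is the odd layer `6 k + 3`, so
`a + 1 = 6 k + 4`, `a + 2 = 6 k + 5`, `a + 3 = 6 k + 6`, `a + 4 = 6 k + 7`; `v` is the even column `2 n`. Everything is stated for
any odd `a`, `b` and any even `v`.
-/

namespace Pool.Agent.SNT

namespace NHQ

open Sig

variable {f : ℕ → ℕ → ℕ → ℕ → Prop}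

/-- A zero above a clean row. -/
theorem pr (hf : Rule f) {a b x y : ℕ}
    (hpar : ¬ ((a + 1) % 2 = 0 ∧ (b + 1) % 2 = 0 ∧ (x + 1) % 2 = 0 ∧ (y + 1) % 2 = 0))
    (h1 : W0 f (a + 1) b x y) (h2 : W0 f a b x y) (h0 : ¬ f (a + 1) (b + 1) (x + 1) (y + 1)) :
    f (a + 1) (b + 1) x (y + 1) ∨ f (a + 1) (b + 1) (x + 1) y ∨ f (a + 1) (b + 1) x y ∨
      Cov f a (b + 1) x y := by
  by_contra hn
  rw [not_or, not_or, not_or] at hn
  obtain ⟨n1, n2, n3, n4⟩ := hn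
  obtain ⟨p, q, r, s, hp, hq, hr, hs, h5, -, -, -, -, h6⟩ := pred hf h0 hpar
  have e1 : x + 1 - r = x + (1 - r) := by omega
  have e2 : y + 1 - s = y + (1 - s) := by omega
  rw [e1, e2] at h6
  interval_cases p <;> interval_cases q
  · rw [Nat.sub_zero, Nat.sub_zero] at h6
    interval_cases r <;> interval_cases s
    · exact absurd h5 (by omega)
    · exact n2 h6
    · exact n1 h6
    · exact n3 h6
  · rw [Nat.sub_zero, Nat.add_sub_cancel] at h6
    exact h1.get (by omega) (by omega) h6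
  · rw [Nat.sub_zero, Nat.add_sub_cancel] at h6
    rw [← not_W0, not_not] at n4
    exact n4.get (by omega) (by omega) h6
  · rw [Nat.add_sub_cancel, Nat.add_sub_cancel] at h6
    exact h2.get (by omega) (by omega) h6

/-- A vertex `(x + 1, y + 1)`, not both coordinates even, of an odd layer, with a clean row below and a zero window `(x, y)` of the
odd layer two below it, is zero. -/
theorem odd_zero (hf : Rule f) {a b x y : ℕ} (hpar : ¬ ((x + 1) % 2 = 0 ∧ (y + 1) % 2 = 0))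
    (hc4 : W0 f (a + 1) b x y) (hc3 : W0 f a b x y) (hp3 : W0 f a (b + 1) x y) :
    ¬ f (a + 2) (b + 1) (x + 1) (y + 1) := by
  intro h
  have z : ∀ r s : ℕ, r ≤ 1 → s ≤ 1 → ¬ f (a + 1) (b + 1) (x + r) (y + s) := by
    intro r s hr hs h1
    refine kill hf h1 1 0 (1 - r) (1 - s) (by omega) (by omega) (by omega) (by omega) (by omega) ?_
    rw [show x + r + (1 - r) = x + 1 by omega, show y + s + (1 - s) = y + 1 by omega]
    exact h
  have z0 : ¬ f (a + 1) (b + 1) (x + 1) (y + 1) := z 1 1 (by omega) (by omega)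
  rcases pr hf (a := a) (b := b) (x := x) (y := y) (by omega) hc4 hc3 z0 with h1 | h1 | h1 | h1
  · exact z 0 1 (by omega) (by omega) h1
  · exact z 1 0 (by omega) (by omega) h1
  · exact z 0 0 (by omega) (by omega) h1
  · exact not_W0.2 h1 hp3

/-- `P5(2i,2) = 0`: the block `(i,1)` of `L6` would be empty, against `Y(i,2) = 0`. -/
theorem p5_even2 (hf : Rule f) {a b x v : ℕ} (ha : a % 2 = 1) (hb : b % 2 = 1) (hx : x % 2 = 0) (hv : v % 2 = 0)
    (hY : ¬ f (a + 3) (b + 1) (x + 1) (v + 4))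
    (hc6 : W0 f (a + 3) b x (v + 3)) (hc5 : W0 f (a + 2) b x (v + 3))
    (h4 : ¬ f (a + 2) (b + 1) x (v + 4)) (h4' : ¬ f (a + 2) (b + 1) (x + 1) (v + 4)) :
    ¬ f (a + 2) (b + 1) x (v + 2) := by
  intro h
  have k1 : ¬ f (a + 3) (b + 1) x (v + 3) := kill hf h 1 0 0 1 (by omega) (by omega) (by omega) (by omega) (by omega)
  have k2 : ¬ f (a + 3) (b + 1) (x + 1) (v + 3) := kill hf h 1 0 1 1 (by omega) (by omega) (by omega) (by omega) (by omega)
  have k3 : ¬ f (a + 2) (b + 1) x (v + 3) := kill hf h 0 0 0 1 (by omega) (by omega) (by omega) (by omega) (by omega)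
  have k4 : ¬ f (a + 2) (b + 1) (x + 1) (v + 3) := kill hf h 0 0 1 1 (by omega) (by omega) (by omega) (by omega) (by omega)
  rcases pr hf (a := a + 2) (b := b) (x := x) (y := v + 3) (by omega) hc6 hc5 hY with h1 | h1 | h1 | h1 | h1 | h1 | h1
  · exact even_zero hf (L := a + 3) (b := b + 1) (by omega) (by omega) (x := x) (y := v + 4) hx (by omega) h1
  · exact k2 h1
  · exact k1 h1
  · exact k3 h1
  · exact k4 h1
  · exact h4 h1
  · exact h4' h1

/-- A block with `Y` or `O` (columns `x + 1`, rows `y`, `y + 1`) kills the two cells `(x + 1, y + 1)`, `(x + 2, y + 1)` of the odd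
layer above it. -/
theorem of_sr (hf : Rule f) {a b x y : ℕ} (hr : f (a + 1) (b + 1) (x + 1) y ∨ f (a + 1) (b + 1) (x + 1) (y + 1)) :
    ¬ f (a + 2) (b + 1) (x + 1) (y + 1) ∧ ¬ f (a + 2) (b + 1) (x + 2) (y + 1) := by
  rcases hr with h | h
  · exact ⟨kill hf h 1 0 0 1 (by omega) (by omega) (by omega) (by omega) (by omega),
      kill hf h 1 0 1 1 (by omega) (by omega) (by omega) (by omega) (by omega)⟩
  · exact ⟨kill hf h 1 0 0 0 (by omega) (by omega) (by omega) (by omega) (by omega),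
      kill hf h 1 0 1 0 (by omega) (by omega) (by omega) (by omega) (by omega)⟩

/-- The blocks `(i, j)`, `i0 ≤ i ≤ i1`, of the even layer `a + 1` (columns `v + 2 i + 1`, rows `y`, `y + 1`) have `Y` or `O` =>
the odd layer above is zero in the row `y + 1`, `v + 2 i0 + 1 ≤ x ≤ v + 2 i1 + 2`. -/
theorem row_of_sr (hf : Rule f) {a b v y i0 i1 : ℕ}
    (hr : ∀ i, i0 ≤ i → i ≤ i1 →
      f (a + 1) (b + 1) (v + 2 * i + 1) y ∨ f (a + 1) (b + 1) (v + 2 * i + 1) (y + 1))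
    {x : ℕ} (h1 : v + 2 * i0 + 1 ≤ x) (h2 : x ≤ v + 2 * i1 + 2) :
    ¬ f (a + 2) (b + 1) x (y + 1) := by
  obtain ⟨i, h3⟩ : ∃ i, x = v + 2 * i + 1 ∨ x = v + 2 * i + 2 := ⟨(x - v - 1) / 2, by omega⟩
  have h4 := of_sr hf (x := v + 2 * i) (hr i (by omega) (by omega))
  rcases h3 with h3 | h3
  · rw [h3]
    exact h4.1
  · rw [h3]
    exact h4.2

/-- The hypotheses of part Q. `v = 2 n`; blocks `i0 ≤ i ≤ i1` for the block row `1`, `i0 ≤ i ≤ i2` for the block row `0`. -/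
structure HQ (f : ℕ → ℕ → ℕ → ℕ → Prop) (a b v i0 i1 i2 : ℕ) : Prop where
  ha : a % 2 = 1
  hb : b % 2 = 1
  hv : v % 2 = 0
  /-- the row `b` is clean in the planes `a .. a + 4` -/
  cl : ∀ l x y : ℕ, l ≤ 4 → v + 2 * i0 ≤ x → x ≤ v + 2 * i1 + 2 → v + 1 ≤ y → y ≤ v + 4 → ¬ f (a + l) b x y
  /-- purity of `6 k + 6` -/
  hY : ∀ i, i0 ≤ i → i ≤ i1 → ¬ f (a + 3) (b + 1) (v + 2 * i + 1) (v + 4)
  /-- `P5 = 0` in the row `4` -/
  p5 : ∀ x, v + 2 * i0 ≤ x → x ≤ v + 2 * i1 + 2 → ¬ f (a + 2) (b + 1) x (v + 4)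
  /-- `P3 = 0` in the rows `1, 2` -/
  p3 : ∀ x y, v + 2 * i0 ≤ x → x ≤ v + 2 * i1 + 2 → v + 1 ≤ y → y ≤ v + 2 → ¬ f a (b + 1) x y
  /-- the blocks `(i, 1)` of `6 k + 4` have `Y` or `O` -/
  r1 : ∀ i, i0 ≤ i → i ≤ i1 →
    f (a + 1) (b + 1) (v + 2 * i + 1) (v + 2) ∨ f (a + 1) (b + 1) (v + 2 * i + 1) (v + 2 + 1)
  /-- the blocks `(i, 0)` of `6 k + 4` have `Y` or `O` -/
  r0 : ∀ i, i0 ≤ i → i ≤ i2 →
    f (a + 1) (b + 1) (v + 2 * i + 1) v ∨ f (a + 1) (b + 1) (v + 2 * i + 1) (v + 1)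

namespace HQ

variable {a b v i0 i1 i2 : ℕ}

theorem cw (H : HQ f a b v i0 i1 i2) {l x y : ℕ} (hl : l ≤ 4) (h1 : v + 2 * i0 ≤ x) (h2 : x + 1 ≤ v + 2 * i1 + 2)
    (h3 : v + 1 ≤ y) (h4 : y + 1 ≤ v + 4) : W0 f (a + l) b x y :=
  ⟨H.cl l _ _ hl h1 (by omega) h3 (by omega), H.cl l _ _ hl (by omega) h2 h3 (by omega),
    H.cl l _ _ hl h1 (by omega) (by omega) h4, H.cl l _ _ hl (by omega) h2 (by omega) h4⟩

/-- `P5(x,3) = 0`. -/
theorem p5_3 (hf : Rule f) (H : HQ f a b v i0 i1 i2) {x : ℕ} (h1 : v + 2 * i0 + 1 ≤ x) (h2 : x ≤ v + 2 * i1 + 2) :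
    ¬ f (a + 2) (b + 1) x (v + 3) :=
  row_of_sr hf (v := v) (y := v + 2) H.r1 h1 h2

/-- `P5(x,1) = 0`. -/
theorem p5_1 (hf : Rule f) (H : HQ f a b v i0 i1 i2) {x : ℕ} (h1 : v + 2 * i0 + 1 ≤ x) (h2 : x ≤ v + 2 * i2 + 2) :
    ¬ f (a + 2) (b + 1) x (v + 1) :=
  row_of_sr hf (v := v) (y := v) H.r0 h1 h2

/-- `P5(x,2) = 0`. -/
theorem p5_2 (hf : Rule f) (H : HQ f a b v i0 i1 i2) {x : ℕ} (h1 : v + 2 * i0 ≤ x) (h2 : x ≤ v + 2 * i1 + 1) :
    ¬ f (a + 2) (b + 1) x (v + 2) := by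
  have ha := H.ha
  have hb := H.hb
  have hv := H.hv
  rcases Nat.mod_two_eq_zero_or_one x with h3 | h3
  · have hY := H.hY ((x - v) / 2) (by omega) (by omega)
    rw [show v + 2 * ((x - v) / 2) + 1 = x + 1 by omega] at hY
    exact p5_even2 hf ha hb h3 hv hY (H.cw (by omega) h1 (by omega) (by omega) (by omega))
      (H.cw (by omega) h1 (by omega) (by omega) (by omega)) (H.p5 _ h1 (by omega)) (H.p5 _ (by omega) (by omega))
  · obtain ⟨u, rfl⟩ : ∃ u, x = u + 1 := ⟨x - 1, by omega⟩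
    refine odd_zero hf (a := a) (b := b) (x := u) (y := v + 1) (by omega)
      (H.cw (by omega) (by omega) (by omega) (by omega) (by omega))
      (H.cw (l := 0) (by omega) (by omega) (by omega) (by omega) (by omega)) ⟨?_, ?_, ?_, ?_⟩
    · exact H.p3 _ _ (by omega) (by omega) (by omega) (by omega)
    · exact H.p3 _ _ (by omega) (by omega) (by omega) (by omega)
    · exact H.p3 _ _ (by omega) (by omega) (by omega) (by omega)
    · exact H.p3 _ _ (by omega) (by omega) (by omega) (by omega)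

/-- `P7(x,3) = 0`. -/
theorem p7_3 (hf : Rule f) (H : HQ f a b v i0 i1 i2) {x : ℕ} (h1 : v + 2 * i0 + 2 ≤ x) (h2 : x ≤ v + 2 * i1 + 1) :
    ¬ f (a + 4) (b + 1) x (v + 3) := by
  have hv := H.hv
  obtain ⟨u, rfl⟩ : ∃ u, x = u + 1 := ⟨x - 1, by omega⟩
  refine odd_zero hf (a := a + 2) (b := b) (x := u) (y := v + 2) (by omega)
    (H.cw (l := 3) (by omega) (by omega) (by omega) (by omega) (by omega))
    (H.cw (by omega) (by omega) (by omega) (by omega) (by omega)) ⟨?_, ?_, ?_, ?_⟩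
  · exact H.p5_2 hf (by omega) (by omega)
  · exact H.p5_2 hf (by omega) (by omega)
  · exact H.p5_3 hf (by omega) (by omega)
  · exact H.p5_3 hf (by omega) (by omega)

/-- `P7(2i+1,2) = 0`. -/
theorem p7_2 (hf : Rule f) (H : HQ f a b v i0 i1 i2) (h12 : i2 ≤ i1) {x : ℕ} (hx : x % 2 = 1)
    (h1 : v + 2 * i0 + 2 ≤ x) (h2 : x ≤ v + 2 * i2 + 2) :
    ¬ f (a + 4) (b + 1) x (v + 2) := by
  have hv := H.hv
  obtain ⟨u, rfl⟩ : ∃ u, x = u + 1 := ⟨x - 1, by omega⟩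
  refine odd_zero hf (a := a + 2) (b := b) (x := u) (y := v + 1) (by omega)
    (H.cw (l := 3) (by omega) (by omega) (by omega) (by omega) (by omega))
    (H.cw (by omega) (by omega) (by omega) (by omega) (by omega)) ⟨?_, ?_, ?_, ?_⟩
  · exact H.p5_1 hf (by omega) (by omega)
  · exact H.p5_1 hf (by omega) (by omega)
  · exact H.p5_2 hf (by omega) (by omega)
  · exact H.p5_2 hf (by omega) (by omega)

end HQ

end NHQ

end Pool.Agent.SNT
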