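import Pool.Agent.SNT.NHZoneU
import Pool.Agent.SNT.NHZone2
import Pool.Agent.SNT.NWD
import Pool.Agent.SNT.DRunI

set_option autoImplicit false

/-! The near-diagonal windows of the top leader `6 k + 10` (`c` is its IN row, `n` its lead): the hypotheses. -/

namespace Pool.Agent.SNT.PB

open Pool.Agent.SNT Pool.Agent.SNT.Sig Pool.Agent.SNT.Loc Pool.Agent.SNT.LW Pool.Agent.SNT.NHZ Pool.Agent.SNT.DRun

variable {f : ℕ → ℕ → ℕ → ℕ → Prop}

/-- The hypotheses of the near-diagonal windows: the leads of `6 k`, `6 k + 2`, `6 k + 4` are the improved ones. -/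
structure PB (f : ℕ → ℕ → ℕ → ℕ → Prop) (k c n : ℕ) : Prop where
  T : NHT f k c (2 * n)
  c0 : Cyc f (6 * k) (c - 6) (2 * (n - 7) + 2)
  c2 : Cyc f (6 * k + 2) (c - 4) (2 * (n - 3) + 2)
  c4 : Cyc f (6 * k + 4) (c - 2) (2 * (n + 1) + 2)
  c4a : Cyc f (6 * k + 4) (c - 6) (2 * (n - 7) + 2)
  c6 : Cyc f (6 * k + 6) (c - 4) (2 * (n - 5) + 2)
  c8 : Cw f (6 * k + 8) (c - 2) (n - 3)
  c10 : Cw f (6 * k + 10) c n
  lw : ∀ M R x y : ℕ, M + 1 = 6 * k → c ≤ R + 12 → R ≤ c + 12 → 2 * n ≤ x + 20 → y ≤ x → x ≤ y + 4 * k → ¬ f M R x y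

theorem cyc_mv {a b N a' b' N' : ℕ} (h : Cyc f a b N) (ha : a' = a) (hb : b' = b) (hn : N' = N) : Cyc f a' b' N' := by
  subst ha hb hn
  exact h

theorem cw_mv {a b n a' b' n' : ℕ} (h : Cw f a b n) (ha : a' = a) (hb : b' = b) (hn : n' = n) : Cw f a' b' n' := by
  subst ha hb hn
  exact h

theorem PB.of_stack {k b m : ℕ} (hs : Side k b m) (S : Stack6 f k b m 0 0 0 0 0 1) {n : ℕ}
    (hn : n = m + 9 + (k + 2) * 4)
    (d0 : Cyc f (6 * k) (b + 16) (2 * (n - 7) + 2))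
    (d2 : Cyc f (6 * k + 2) (b + 18) (2 * (n - 3) + 2))
    (d4 : Cyc f (6 * k + 4) (b + 20) (2 * (n + 1) + 2)) : PB f k (b + 22) n where
  T := by
    subst hn
    exact NHT.of_stack hs S
  c0 := cyc_mv d0 rfl (by omega) rfl
  c2 := cyc_mv d2 rfl (by omega) rfl
  c4 := cyc_mv d4 rfl (by omega) rfl
  c4a := cyc_mv (S.l4 4) rfl (by omega) (by omega)
  c6 := cyc_mv (S.l6 4) rfl (by omega) (by omega)
  c8 := cw_mv (S.l8 4) rfl (by omega) (by omega)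
  c10 := cw_mv (S.l10 4) rfl (by omega) (by omega)
  lw := by
    intro M R x y hM h1 h2 h3 h4 h5
    obtain ⟨k1, k2, k3, k4, k5⟩ := hs
    have e : M = 6 * k - 1 := by omega
    rw [e]
    exact lw_zero ⟨k1, k2, k3, k4, k5⟩ S (i := R - b) (by omega) (by omega) (by omega) h4 (by omega)

end Pool.Agent.SNT.PB
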