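import Pool.Agent.SNT.NWD
import Pool.Agent.SNT.PB

set_option autoImplicit false

/-! The near-wall windows of the OUT row `c + 2` over the leads `n - 5` of `6 k`, `n - 2` of `6 k + 2`, `n + 1` of `6 k + 4`
(in all cycles), with the purity at `y = 2 n + 4`: the hypotheses. -/

namespace Pool.Agent.SNT.NWW

open Pool.Agent.SNT Pool.Agent.SNT.Sig Pool.Agent.SNT.Loc Pool.Agent.SNT.LW Pool.Agent.SNT.NHZ

variable {f : ℕ → ℕ → ℕ → ℕ → Prop}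

/-- The hypotheses of the near-wall windows. -/
structure NWW (f : ℕ → ℕ → ℕ → ℕ → Prop) (k c n : ℕ) : Prop where
  T : NHT f k c (2 * n)
  c0 : Cyc f (6 * k) (c - 2) (2 * (n + k - 3) + 2)
  c0a : Cyc f (6 * k) (c - 6) (2 * (n - 5) + 2)
  c2 : Cyc f (6 * k + 2) (c - 4) (2 * (n - 2) + 2)
  c4 : Cyc f (6 * k + 4) (c - 2) (2 * (n + 1) + 2)
  lw : ∀ M R x y : ℕ, M + 1 = 6 * k → c ≤ R + 12 → R ≤ c + 12 → 2 * n ≤ x + 20 → y ≤ x → x ≤ y + 4 * k → ¬ f M R x y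

/-- The purity of the OUT rows of `6 k + 2`, `6 k + 6` at `y = 2 n + 4`. -/
structure PurW (f : ℕ → ℕ → ℕ → ℕ → Prop) (k c n : ℕ) : Prop where
  u2 : ∀ M R x y : ℕ, M = 6 * k + 2 → R = c + 2 → y = 2 * n + 4 → x % 2 = 1 → 2 * n + 9 ≤ x →
    x + 1 ≤ 2 * n + 2 * k → ¬ f M R x y
  u6 : ∀ M R x y : ℕ, M = 6 * k + 6 → R = c + 2 → y = 2 * n + 4 → x % 2 = 1 → 2 * n + 7 ≤ x →
    x + 1 ≤ 2 * n + 2 * k → ¬ f M R x y

theorem NWW.of_stack {k b m : ℕ} (hs : Side k b m) (S : Stack6 f k b m 0 0 0 0 0 1) {n : ℕ}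
    (hn : n = m + 9 + (k + 2) * 4)
    (d0 : Cyc f (6 * k) (b + 16) (2 * (n - 5) + 2))
    (d2 : Cyc f (6 * k + 2) (b + 18) (2 * (n - 2) + 2))
    (d4 : Cyc f (6 * k + 4) (b + 20) (2 * (n + 1) + 2))
    (e0 : Cyc f (6 * k) (b + 20) (2 * (n + k - 3) + 2)) : NWW f k (b + 22) n where
  T := by
    subst hn
    exact NHT.of_stack hs S
  c0 := PB.cyc_mv e0 rfl (by omega) rfl
  c0a := PB.cyc_mv d0 rfl (by omega) rfl
  c2 := PB.cyc_mv d2 rfl (by omega) rfl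
  c4 := PB.cyc_mv d4 rfl (by omega) rfl
  lw := by
    intro M R x y hM h1 h2 h3 h4 h5
    obtain ⟨k1, k2, k3, k4, k5⟩ := hs
    have e : M = 6 * k - 1 := by omega
    rw [e]
    exact lw_zero ⟨k1, k2, k3, k4, k5⟩ S (i := R - b) (by omega) (by omega) (by omega) h4 (by omega)

end Pool.Agent.SNT.NWW
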