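import Pool.Agent.SNT.Mid

set_option autoImplicit false

/-! The narrow leader, from its three certificates. -/

namespace Pool.Agent.SNT.Mid

open Pool.Agent.SNT Pool.Agent.SNT.Sig

variable {f : ℕ → ℕ → ℕ → ℕ → Prop} {k A b n : ℕ}

/-- The certificate `K0`: the in-line `n - 1` is present near the wall. -/
def CertK (f : ℕ → ℕ → ℕ → ℕ → Prop) (k A b n : ℕ) : Prop :=
  f A b (2 * n - 1) (2 * n - 2 * k + 4)

/-- The certificate `DG`: two cells near the diagonal are zero if the in-line `n - 1` is present. -/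
def CertD (f : ℕ → ℕ → ℕ → ℕ → Prop) (A b n : ℕ) : Prop :=
  (∀ y, 2 * n ≤ y + 12 → y + 2 ≤ 2 * n → (f A b (2 * n - 1) y ↔ y % 2 = 0)) →
    ¬ f A (b + 2) (2 * n + 3) (2 * n) ∧ ¬ f A (b + 2) (2 * n + 5) (2 * n)

/-- The certificate `W`: the out-column `n + 1` carries a signal near the wall. -/
def CertW (f : ℕ → ℕ → ℕ → ℕ → Prop) (k A b n : ℕ) : Prop :=
  f A (b + 2) (2 * n + 3) (2 * n - 2 * k + 8)

/-- **The narrow leader.** -/
theorem narrow_core (hf : Rule f) (h : H f k A b n) (ht : ¬ f A b (2 * n + 1) (2 * n))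
    (K : CertK f k A b n) (D : CertD f A b n) (W : CertW f k A b n) : False := by
  have hk := h.hk
  have hn := h.hn
  have hl : ∀ y, 2 * n ≤ y + 12 → y + 2 ≤ 2 * n → (f A b (2 * n - 1) y ↔ y % 2 = 0) := by
    intro y h1 h2
    exact h.linem hf (y0 := 2 * n - 2 * k + 4) (by omega) K (by omega) (by omega) h2
  obtain ⟨g3, g5⟩ := D hl
  have := h.col_dead hf ht g3 g5 (j := n - k + 4) (by omega) (by omega) (2 * n + 3) (by omega)
    (by omega)
  rw [show 2 * (n - k + 4) = 2 * n - 2 * k + 8 by omega] at this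
  exact this W

end Pool.Agent.SNT.Mid
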