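import Mathlib

set_option autoImplicit false

/-! NOTH: for an exact tip of an isolated even layer of half width `h ≥ 4` the out-line `c' - h` is
never complete in the OUT row (`D = h` is impossible).  Shifted block coordinates: the lead of the
previous OUT row is `m = 3`, the lead of the IN row is `n = h + 4`, the lead of the OUT row is
`c' = h + 5`; the rows are `B - 7, ..., B`. -/

namespace Pool.Agent.SNT.Noth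

/-- The rule of an isolated even layer in block coordinates: `e = (2i, 2j)`, `x = (2i, 2j+1)`,
`y = (2i+1, 2j)`, `o = (2i+1, 2j+1)`; rows `0, ..., 7`, the odd ones are the even planes. -/
structure Iso (h : ℕ) (e x y o : ℕ → ℕ → ℕ → Prop) : Prop where
  rx : ∀ k i j, (k ≤ 6 ∧ j ≤ i ∧ i ≤ j + h + 3) → (x (k + 1) (i + 1) j ↔ ¬ o (k + 1) i j ∧ ¬ e (k + 1) (i + 1) j ∧
    ¬ y (k + 1) i j ∧ ¬ x k (i + 1) j ∧ ¬ o k i j ∧ ¬ e k (i + 1) j ∧ ¬ y k i j)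
  ry : ∀ k i j, (k ≤ 6 ∧ j < i ∧ i ≤ j + h + 3) → (y (k + 1) i (j + 1) ↔ ¬ o (k + 1) i j ∧ ¬ e (k + 1) i (j + 1) ∧
    ¬ x (k + 1) i j ∧ ¬ y k i (j + 1) ∧ ¬ o k i j ∧ ¬ e k i (j + 1) ∧ ¬ x k i j)
  ro : ∀ k i j, (k ≤ 6 ∧ j ≤ i ∧ i ≤ j + h + 3) → (o (k + 1) i j ↔ ¬ x (k + 1) i j ∧ ¬ y (k + 1) i j ∧ ¬ e (k + 1) i j ∧
    ¬ o k i j ∧ ¬ x k i j ∧ ¬ y k i j ∧ ¬ e k i j)
  re : ∀ k i j, (k ≤ 6 ∧ k % 2 = 1 ∧ j ≤ i ∧ i ≤ j + h + 3) → (e (k + 1) (i + 1) (j + 1) ↔ ¬ y (k + 1) i (j + 1) ∧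
    ¬ x (k + 1) (i + 1) j ∧ ¬ o (k + 1) i j ∧ ¬ e k (i + 1) (j + 1) ∧ ¬ y k i (j + 1) ∧
    ¬ x k (i + 1) j ∧ ¬ o k i j)
  me : ∀ k i j, k % 2 = 1 → ¬ e k i j
  sym : ∀ k i j, x k i j ↔ y k j i

/-- The block is empty. -/
def Emp (e x y o : ℕ → ℕ → ℕ → Prop) (k i j : ℕ) : Prop :=
  ¬ e k i j ∧ ¬ x k i j ∧ ¬ y k i j ∧ ¬ o k i j

/-- The static cells used. -/
structure Hyp (h : ℕ) (e x y o : ℕ → ℕ → ℕ → Prop) : Prop where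
  iso : Iso h e x y o
  h4 : 4 ≤ h
  a1 : o 0 2 2
  a2 : o 0 1 1
  a3 : ¬ o 0 2 1
  a4 : ¬ x 0 2 1
  a5 : ¬ y 0 2 2
  a6 : ¬ e 0 2 2
  b1 : ¬ y 1 2 2
  b2 : ¬ x 1 3 2
  c1 : ∀ i, 4 ≤ i → i ≤ h + 1 → Emp e x y o 2 i 2
  c2 : ∀ i, 4 ≤ i → i ≤ h + 2 → Emp e x y o 2 i 3
  c3 : ¬ e 2 (h + 2) 2
  c4 : ¬ x 2 (h + 2) 2
  c5 : ¬ y 2 3 3
  c6 : ¬ o 2 3 3
  c7 : ¬ y 2 3 2
  c8 : ¬ o 2 3 2
  c9 : ¬ o 2 3 1
  c10 : o 2 (h + 1) 1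
  c11 : ∀ i, 5 ≤ i → i ≤ h + 3 → Emp e x y o 2 i 4
  d1 : ∀ i, 5 ≤ i → i ≤ h + 4 → x 3 i 4
  d2 : ∀ i, 4 ≤ i → i ≤ h + 3 → ¬ y 3 i 4
  d3 : y 3 (h + 3) 3
  d4 : Emp e x y o 3 (h + 3) 2
  d5 : y 3 (h + 2) 2
  d6 : Emp e x y o 3 (h + 2) 1
  d7 : x 3 (h + 3) 1
  d8 : y 3 (h + 3) 1
  d9 : x 3 (h + 2) 0
  d10 : y 3 (h + 2) 0
  d11 : y 3 (h + 1) 1
  d12 : x 3 (h + 4) 2
  d13 : Emp e x y o 3 (h + 4) 1
  d14 : Emp e x y o 3 (h + 3) 0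
  d15 : ¬ o 3 (h + 3) 3
  e1 : ∀ j, 4 ≤ j → j ≤ h + 4 → o 4 j j
  e2 : ∀ i j, 5 ≤ j → j < i → i ≤ h + 4 → Emp e x y o 4 i j
  f1 : ¬ y 5 (h + 4) (h + 4)

variable {h : ℕ} {e x y o : ℕ → ℕ → ℕ → Prop}

theorem t1 (H : Hyp h e x y o) : o 1 2 1 := by
  have g1 : o 0 1 1 := H.a2
  have g2 : ¬ o 0 2 1 := H.a3
  have g3 : ¬ x 0 2 1 := H.a4
  have g4 : ¬ y 0 2 2 := H.a5
  have g5 : ¬ e 0 2 2 := H.a6
  have g6 : ¬ y 1 2 2 := H.b1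
  have g7 : ¬ x 1 2 1 := (fun t => ((H.iso.rx 0 1 1 (by omega)).1 t).2.2.2.2.1 g1)
  have g8 : o 1 2 1 := by_contra fun t => g6 ((H.iso.ry 0 2 1 (by omega)).2 ⟨t, (H.iso.me 1 2 2 (by decide)), g7, g4, g2, g5, g3⟩)
  exact g8

theorem t2 (H : Hyp h e x y o) : ¬ e 2 3 3 := by
  intro hh
  have g1 : o 0 2 2 := H.a1
  have g2 : ¬ y 1 2 2 := H.b1
  have g3 : ¬ x 1 3 2 := H.b2
  have g4 : o 1 2 1 := (t1 H)
  have g5 : ¬ o 1 2 2 := (fun t => ((H.iso.ro 0 2 2 (by omega)).1 t).2.2.2.1 g1)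
  have g6 : ¬ y 2 2 2 := (fun t => ((H.iso.ry 1 2 1 (by omega)).1 t).2.2.2.2.1 g4)
  have g7 : ¬ e 2 3 2 := (fun t => ((H.iso.re 1 2 1 (by omega)).1 t).2.2.2.2.2.2 g4)
  have g8 : ¬ x 2 3 2 := (fun t => ((H.iso.re 1 2 2 (by omega)).1 hh).1 ((H.iso.sym 2 3 2).1 t))
  have g9 : ¬ o 2 2 2 := ((H.iso.re 1 2 2 (by omega)).1 hh).2.2.1
  exact g8 ((H.iso.rx 1 2 2 (by omega)).2 ⟨g9, g7, g6, g3, g5, (H.iso.me 1 3 2 (by decide)), g2⟩)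

theorem t3 (H : Hyp h e x y o) : ¬ x 3 3 2 := by
  intro hh
  have g1 : o 0 2 2 := H.a1
  have g2 : ¬ y 1 2 2 := H.b1
  have g3 : ¬ x 1 3 2 := H.b2
  have g4 : o 1 2 1 := (t1 H)
  have g5 : ¬ o 1 2 2 := (fun t => ((H.iso.ro 0 2 2 (by omega)).1 t).2.2.2.1 g1)
  have g6 : ¬ y 2 2 2 := (fun t => ((H.iso.ry 1 2 1 (by omega)).1 t).2.2.2.2.1 g4)
  have g7 : ¬ e 2 3 2 := (fun t => ((H.iso.re 1 2 1 (by omega)).1 t).2.2.2.2.2.2 g4)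
  have g8 : ¬ x 2 3 2 := ((H.iso.rx 2 2 2 (by omega)).1 hh).2.2.2.1
  have g9 : ¬ o 2 2 2 := ((H.iso.rx 2 2 2 (by omega)).1 hh).2.2.2.2.1
  exact g8 ((H.iso.rx 1 2 2 (by omega)).2 ⟨g9, g7, g6, g3, g5, (H.iso.me 1 3 2 (by decide)), g2⟩)

theorem t4 (H : Hyp h e x y o) : ¬ y 3 3 3 := by
  intro hh
  have g1 : o 4 4 4 := (H.e1 4 (by have := H.h4; omega) (by have := H.h4; omega))
  have g2 : ¬ e 4 4 4 := ((H.iso.ro 3 4 4 (by omega)).1 g1).2.2.1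
  have g3 : ¬ o 3 3 3 := (fun t => ((H.iso.ro 2 3 3 (by omega)).1 t).1 ((H.iso.sym 3 3 3).2 hh))
  have g4 : ¬ x 3 4 3 := (fun t => ((H.iso.rx 2 3 3 (by omega)).1 t).2.2.1 hh)
  have g5 : ¬ o 4 3 3 := (fun t => ((H.iso.ro 3 3 3 (by omega)).1 t).2.2.2.2.1 ((H.iso.sym 3 3 3).2 hh))
  have g6 : ¬ x 4 4 3 := (fun t => ((H.iso.rx 3 3 3 (by omega)).1 t).2.2.2.2.2.2 hh)
  exact g2 ((H.iso.re 3 3 3 (by omega)).2 ⟨(fun t => g6 ((H.iso.sym 4 4 3).2 t)), g6, g5, (H.iso.me 3 4 4 (by decide)), (fun t => g4 ((H.iso.sym 3 4 3).2 t)), g4, g3⟩)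

theorem t5 (H : Hyp h e x y o) : o 3 3 3 := by
  have g1 : ¬ y 2 3 3 := H.c5
  have g2 : ¬ o 2 3 3 := H.c6
  have g3 : ¬ e 2 3 3 := (t2 H)
  have g4 : ¬ y 3 3 3 := (t4 H)
  have g5 : o 3 3 3 := (H.iso.ro 2 3 3 (by omega)).2 ⟨(fun t => g4 ((H.iso.sym 3 3 3).1 t)), g4, (H.iso.me 3 3 3 (by decide)), g2, (fun t => g1 ((H.iso.sym 2 3 3).1 t)), g1, g3⟩
  exact g5

theorem t6 (H : Hyp h e x y o) : ¬ y 3 4 3 := by
  intro hh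
  have g1 : ¬ y 3 4 4 := (H.d2 4 (by have := H.h4; omega) (by have := H.h4; omega))
  have g2 : o 4 4 4 := (H.e1 4 (by have := H.h4; omega) (by have := H.h4; omega))
  have g3 : o 3 3 3 := (t5 H)
  have g4 : ¬ y 4 4 4 := (fun t => ((H.iso.ro 3 4 4 (by omega)).1 g2).1 ((H.iso.sym 4 4 4).2 t))
  have g5 : ¬ e 4 4 4 := ((H.iso.ro 3 4 4 (by omega)).1 g2).2.2.1
  have g6 : ¬ x 3 4 3 := (fun t => ((H.iso.rx 2 3 3 (by omega)).1 t).1 g3)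
  have g7 : ¬ x 4 4 3 := (fun t => ((H.iso.rx 3 3 3 (by omega)).1 t).2.2.2.2.1 g3)
  have g8 : ¬ o 3 4 3 := (fun t => ((H.iso.ro 2 4 3 (by omega)).1 t).2.1 hh)
  have g9 : ¬ o 4 4 3 := (fun t => ((H.iso.ro 3 4 3 (by omega)).1 t).2.2.2.2.2.1 hh)
  exact g4 ((H.iso.ry 3 4 3 (by omega)).2 ⟨g9, g5, g7, g1, g8, (H.iso.me 3 4 4 (by decide)), g6⟩)

theorem t7 (H : Hyp h e x y o) : o 3 4 3 := by
  have g1 : ¬ e 2 4 3 := (H.c2 4 (by have := H.h4; omega) (by have := H.h4; omega)).1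
  have g2 : ¬ x 2 4 3 := (H.c2 4 (by have := H.h4; omega) (by have := H.h4; omega)).2.1
  have g3 : ¬ y 2 4 3 := (H.c2 4 (by have := H.h4; omega) (by have := H.h4; omega)).2.2.1
  have g4 : ¬ o 2 4 3 := (H.c2 4 (by have := H.h4; omega) (by have := H.h4; omega)).2.2.2
  have g5 : o 3 3 3 := (t5 H)
  have g6 : ¬ y 3 4 3 := (t6 H)
  have g7 : ¬ x 3 4 3 := (fun t => ((H.iso.rx 2 3 3 (by omega)).1 t).1 g5)
  have g8 : o 3 4 3 := (H.iso.ro 2 4 3 (by omega)).2 ⟨g7, g6, (H.iso.me 3 4 3 (by decide)), g4, g2, g3, g1⟩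
  exact g8

/-- The line `m` of the previous OUT row. -/
theorem lineM (H : Hyp h e x y o) : ∀ i, 3 ≤ i → i ≤ h + 2 → o 3 i 3 := by
  have key : ∀ t, t + 4 ≤ h + 2 → o 3 (t + 4) 3 := by
    intro t
    induction t with
    | zero => intro _; exact t7 H
    | succ t ih =>
      intro ht
      have h1 := ih (by omega)
      have h2 : ¬ x 3 (t + 5) 3 := fun u => ((H.iso.rx 2 (t + 4) 3 (by omega)).1 u).1 h1
      have h3 := H.c2 (t + 5) (by omega) (by omega)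
      have h4 := H.c11 (t + 5) (by omega) (by omega)
      have h5 := H.d2 (t + 5) (by omega) (by omega)
      exact by_contra fun u => h5 ((H.iso.ry 2 (t + 5) 3 (by omega)).2 ⟨u,
        H.iso.me 3 (t + 5) 4 (by decide), h2, h4.2.2.1, h3.2.2.2, h4.1, h3.2.1⟩)
  intro i h1 h2
  rcases Nat.lt_or_ge i 4 with h3 | h3
  · obtain rfl : i = 3 := by omega
    exact t5 H
  · obtain ⟨t, rfl⟩ : ∃ t, i = t + 4 := ⟨i - 4, by omega⟩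
    exact key t (by omega)

theorem w1 (H : Hyp h e x y o) : ¬ x 3 (h + 3) 3 := by
  have h4 := H.h4
  have g1 : o 3 (h + 2) 3 := (lineM H (h + 2) (by have := H.h4; omega) (by have := H.h4; omega))
  have g2 : ¬ x 3 (h + 3) 3 := (fun t => ((H.iso.rx 2 (h + 2) 3 (by omega)).1 t).1 g1)
  exact g2

theorem w2 (H : Hyp h e x y o) : y 4 (h + 3) 4 := by
  have h4 := H.h4
  have g1 : y 3 (h + 3) 3 := H.d3
  have g2 : ¬ o 3 (h + 3) 3 := H.d15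
  have g3 : ¬ y 3 (h + 3) 4 := (H.d2 (h + 3) (by have := H.h4; omega) (by have := H.h4; omega))
  have g4 : o 3 (h + 2) 3 := (lineM H (h + 2) (by have := H.h4; omega) (by have := H.h4; omega))
  have g5 : ¬ x 3 (h + 3) 3 := (w1 H)
  have g6 : ¬ o 4 (h + 3) 3 := (fun t => ((H.iso.ro 3 (h + 3) 3 (by omega)).1 t).2.2.2.2.2.1 g1)
  have g7 : ¬ x 4 (h + 3) 3 := (fun t => ((H.iso.rx 3 (h + 2) 3 (by omega)).1 t).2.2.2.2.1 g4)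
  have g8 : ¬ e 4 (h + 3) 4 := (fun t => ((H.iso.re 3 (h + 2) 3 (by omega)).1 t).2.2.2.2.2.2 g4)
  have g9 : y 4 (h + 3) 4 := (H.iso.ry 3 (h + 3) 3 (by omega)).2 ⟨g6, g8, g7, g3, g2, (H.iso.me 3 (h + 3) 4 (by decide)), g5⟩
  exact g9

theorem w3 (H : Hyp h e x y o) : ¬ x 5 (h + 4) 4 := by
  have h4 := H.h4
  have g1 : y 4 (h + 3) 4 := (w2 H)
  have g2 : ¬ x 5 (h + 4) 4 := (fun t => ((H.iso.rx 4 (h + 3) 4 (by omega)).1 t).2.2.2.2.2.2 g1)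
  exact g2

theorem w4 (H : Hyp h e x y o) : ¬ y 5 (h + 3) 4 := by
  have h4 := H.h4
  have g1 : y 4 (h + 3) 4 := (w2 H)
  have g2 : ¬ y 5 (h + 3) 4 := (fun t => ((H.iso.ry 4 (h + 3) 3 (by omega)).1 t).2.2.2.1 g1)
  exact g2

theorem w5 (H : Hyp h e x y o) : ¬ o 5 (h + 3) 4 := by
  have h4 := H.h4
  have g1 : y 4 (h + 3) 4 := (w2 H)
  have g2 : ¬ o 5 (h + 3) 4 := (fun t => ((H.iso.ro 4 (h + 3) 4 (by omega)).1 t).2.2.2.2.2.1 g1)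
  exact g2

theorem w6 (H : Hyp h e x y o) : o 4 (h + 3) 2 := by
  have h4 := H.h4
  have g1 : y 3 (h + 2) 2 := H.d5
  have g2 : x 3 (h + 3) 1 := H.d7
  have g3 : ¬ x 3 (h + 3) 2 := H.d4.2.1
  have g4 : ¬ y 3 (h + 3) 2 := H.d4.2.2.1
  have g5 : ¬ o 3 (h + 3) 2 := H.d4.2.2.2
  have g6 : ¬ e 4 (h + 3) 2 := (fun t => ((H.iso.re 3 (h + 2) 1 (by omega)).1 t).2.2.2.2.1 g1)
  have g7 : ¬ x 4 (h + 3) 2 := (fun t => ((H.iso.rx 3 (h + 2) 2 (by omega)).1 t).2.2.2.2.2.2 g1)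
  have g8 : ¬ y 4 (h + 3) 2 := (fun t => ((H.iso.ry 3 (h + 3) 1 (by omega)).1 t).2.2.2.2.2.2 g2)
  have g9 : o 4 (h + 3) 2 := (H.iso.ro 3 (h + 3) 2 (by omega)).2 ⟨g7, g8, g6, g5, g3, g4, (H.iso.me 3 (h + 3) 2 (by decide))⟩
  exact g9

theorem w7 (H : Hyp h e x y o) : o 4 (h + 2) 1 := by
  have h4 := H.h4
  have g1 : x 3 (h + 2) 0 := H.d9
  have g2 : y 3 (h + 1) 1 := H.d11
  have g3 : ¬ x 3 (h + 2) 1 := H.d6.2.1
  have g4 : ¬ y 3 (h + 2) 1 := H.d6.2.2.1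
  have g5 : ¬ o 3 (h + 2) 1 := H.d6.2.2.2
  have g6 : ¬ e 4 (h + 2) 1 := (fun t => ((H.iso.re 3 (h + 1) 0 (by omega)).1 t).2.2.2.2.2.1 g1)
  have g7 : ¬ y 4 (h + 2) 1 := (fun t => ((H.iso.ry 3 (h + 2) 0 (by omega)).1 t).2.2.2.2.2.2 g1)
  have g8 : ¬ x 4 (h + 2) 1 := (fun t => ((H.iso.rx 3 (h + 1) 1 (by omega)).1 t).2.2.2.2.2.2 g2)
  have g9 : o 4 (h + 2) 1 := (H.iso.ro 3 (h + 2) 1 (by omega)).2 ⟨g8, g7, g6, g5, g3, g4, (H.iso.me 3 (h + 2) 1 (by decide))⟩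
  exact g9

/-- The row `m + 1` of the plane above the previous OUT row. -/
theorem emp4 (H : Hyp h e x y o) : ∀ i, 5 ≤ i → i ≤ h + 2 → Emp e x y o 4 i 4 := by
  intro i h1 h2
  obtain ⟨t, rfl⟩ : ∃ t, i = t + 1 := ⟨i - 1, by omega⟩
  have g1 := lineM H t (by omega) (by omega)
  have g2 := lineM H (t + 1) (by omega) (by omega)
  have g3 := H.d1 (t + 1) (by omega) (by omega)
  exact ⟨fun u => ((H.iso.re 3 t 3 (by omega)).1 u).2.2.2.2.2.2 g1,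
    fun u => ((H.iso.rx 3 t 4 (by omega)).1 u).2.2.2.1 g3,
    fun u => ((H.iso.ry 3 (t + 1) 3 (by omega)).1 u).2.2.2.2.1 g2,
    fun u => ((H.iso.ro 3 (t + 1) 4 (by omega)).1 u).2.2.2.2.1 g3⟩

/-- No `x`-signals in the IN row, rows `≥ m + 2`. -/
theorem noX5 (H : Hyp h e x y o) (j : ℕ) (hj : 5 ≤ j) : ∀ i, j < i → i ≤ h + 4 → ¬ x 5 i j := by
  intro i h1 h2
  obtain ⟨t, rfl⟩ : ∃ t, i = j + t + 1 := ⟨i - j - 1, by omega⟩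
  clear h1
  induction t with
  | zero =>
    intro u
    exact ((H.iso.rx 4 j j (by omega)).1 u).2.2.2.2.1 (H.e1 j (by omega) (by omega))
  | succ t ih =>
    have h3 := ih (by omega)
    have h4 := H.e2 (j + t + 1) j hj (by omega) (by omega)
    intro u
    have h5 := (H.iso.rx 4 (j + t + 1) j (by omega)).1 u
    exact h5.1 ((H.iso.ro 4 (j + t + 1) j (by omega)).2 ⟨h3, h5.2.2.1,
      H.iso.me 5 (j + t + 1) j (by decide), h4.2.2.2, h4.2.1, h4.2.2.1, h4.1⟩)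

/-- No `x`-signals in the IN row, row `m + 1`. -/
theorem noX4 (H : Hyp h e x y o) : ∀ i, 5 ≤ i → i ≤ h + 4 → ¬ x 5 i 4 := by
  intro i h1 h2
  rcases Nat.lt_or_ge i (h + 4) with h3 | h3
  · obtain ⟨t, rfl⟩ : ∃ t, i = 4 + t + 1 := ⟨i - 5, by omega⟩
    clear h1 h2
    induction t with
    | zero =>
      intro u
      exact ((H.iso.rx 4 4 4 (by omega)).1 u).2.2.2.2.1 (H.e1 4 (by omega) (by have := H.h4; omega))
    | succ t ih =>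
      have h3 := ih (by omega)
      have h4 := emp4 H (4 + t + 1) (by omega) (by omega)
      intro u
      have h5 := (H.iso.rx 4 (4 + t + 1) 4 (by omega)).1 u
      exact h5.1 ((H.iso.ro 4 (4 + t + 1) 4 (by omega)).2 ⟨h3, h5.2.2.1,
        H.iso.me 5 (4 + t + 1) 4 (by decide), h4.2.2.2, h4.2.1, h4.2.2.1, h4.1⟩)
  · obtain rfl : i = h + 4 := by omega
    exact w3 H

/-- The column `n` of the IN row. -/
theorem colN (H : Hyp h e x y o) : ∀ j, 5 ≤ j → j ≤ h + 4 → ¬ y 5 (h + 4) j := by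
  have key : ∀ t j, j + t = h + 4 → 5 ≤ j → ¬ y 5 (h + 4) j := by
    intro t
    induction t with
    | zero =>
      intro j h1 _
      obtain rfl : j = h + 4 := by omega
      exact H.f1
    | succ t ih =>
      intro j h1 h2
      have h3 := ih (j + 1) (by omega) (by omega)
      have h4 := noX5 H j h2 (h + 4) (by omega) (by omega)
      have h5 := H.e2 (h + 4) j h2 (by omega) (by omega)
      have h6 : ¬ y 4 (h + 4) (j + 1) ∧ ¬ e 4 (h + 4) (j + 1) := by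
        rcases Nat.lt_or_ge (j + 1) (h + 4) with h7 | h7
        · have h8 := H.e2 (h + 4) (j + 1) (by omega) h7 (by omega)
          exact ⟨h8.2.2.1, h8.1⟩
        · obtain rfl : j = h + 3 := by omega
          have h8 := (H.iso.ro 3 (h + 4) (h + 4) (by omega)).1 (H.e1 (h + 4) (by omega) (by omega))
          exact ⟨h8.2.1, h8.2.2.1⟩
      intro u
      have h9 : ¬ o 5 (h + 4) j := fun v => ((H.iso.ro 4 (h + 4) j (by omega)).1 v).2.1 u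
      exact h3 ((H.iso.ry 4 (h + 4) j (by omega)).2 ⟨h9, H.iso.me 5 (h + 4) (j + 1) (by decide),
        h4, h6.1, h5.2.2.2, h6.2, h5.2.1⟩)
  intro j h1 h2
  exact key (h + 4 - j) j (by omega) h1

theorem w8 (H : Hyp h e x y o) : o 5 (h + 4) 4 := by
  have h4 := H.h4
  have g1 : x 3 (h + 4) 4 := (H.d1 (h + 4) (by have := H.h4; omega) (by have := H.h4; omega))
  have g2 : ¬ e 4 (h + 4) 5 := (H.e2 (h + 4) 5 (by have := H.h4; omega) (by have := H.h4; omega) (by have := H.h4; omega)).1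
  have g3 : ¬ y 4 (h + 4) 5 := (H.e2 (h + 4) 5 (by have := H.h4; omega) (by have := H.h4; omega) (by have := H.h4; omega)).2.2.1
  have g4 : ¬ x 5 (h + 4) 4 := (noX4 H (h + 4) (by have := H.h4; omega) (by have := H.h4; omega))
  have g5 : ¬ y 5 (h + 4) 5 := (colN H 5 (by omega) (by have := H.h4; omega))
  have g6 : ¬ x 4 (h + 4) 4 := (fun t => ((H.iso.rx 3 (h + 3) 4 (by omega)).1 t).2.2.2.1 g1)
  have g7 : ¬ o 4 (h + 4) 4 := (fun t => ((H.iso.ro 3 (h + 4) 4 (by omega)).1 t).2.2.2.2.1 g1)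
  have g8 : o 5 (h + 4) 4 := by_contra fun t => g5 ((H.iso.ry 4 (h + 4) 4 (by omega)).2 ⟨t, (H.iso.me 5 (h + 4) 5 (by decide)), g4, g3, g7, g2, g6⟩)
  exact g8

theorem w9 (H : Hyp h e x y o) : y 5 (h + 3) 5 := by
  have h4 := H.h4
  have g1 : x 3 (h + 3) 4 := (H.d1 (h + 3) (by have := H.h4; omega) (by have := H.h4; omega))
  have g2 : ¬ e 4 (h + 3) 5 := (H.e2 (h + 3) 5 (by have := H.h4; omega) (by have := H.h4; omega) (by have := H.h4; omega)).1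
  have g3 : ¬ y 4 (h + 3) 5 := (H.e2 (h + 3) 5 (by have := H.h4; omega) (by have := H.h4; omega) (by have := H.h4; omega)).2.2.1
  have g4 : ¬ o 5 (h + 3) 4 := (w5 H)
  have g5 : ¬ x 5 (h + 3) 4 := (noX4 H (h + 3) (by have := H.h4; omega) (by have := H.h4; omega))
  have g6 : ¬ x 4 (h + 3) 4 := (fun t => ((H.iso.rx 3 (h + 2) 4 (by omega)).1 t).2.2.2.1 g1)
  have g7 : ¬ o 4 (h + 3) 4 := (fun t => ((H.iso.ro 3 (h + 3) 4 (by omega)).1 t).2.2.2.2.1 g1)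
  have g8 : y 5 (h + 3) 5 := (H.iso.ry 4 (h + 3) 4 (by omega)).2 ⟨g4, (H.iso.me 5 (h + 3) 5 (by decide)), g5, g3, g7, g2, g6⟩
  exact g8

theorem w10 (H : Hyp h e x y o) : ¬ o 5 (h + 3) 5 := by
  have h4 := H.h4
  have g1 : y 5 (h + 3) 5 := (w9 H)
  have g2 : ¬ o 5 (h + 3) 5 := (fun t => ((H.iso.ro 4 (h + 3) 5 (by omega)).1 t).2.1 g1)
  exact g2

theorem w11 (H : Hyp h e x y o) : ¬ y 5 (h + 4) 4 := by
  have h4 := H.h4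
  have g1 : o 5 (h + 4) 4 := (w8 H)
  have g2 : ¬ y 5 (h + 4) 4 := ((H.iso.ro 4 (h + 4) 4 (by omega)).1 g1).2.1
  exact g2

theorem w12 (H : Hyp h e x y o) : o 5 (h + 4) 5 := by
  have h4 := H.h4
  have g1 : ¬ e 4 (h + 4) 5 := (H.e2 (h + 4) 5 (by have := H.h4; omega) (by have := H.h4; omega) (by have := H.h4; omega)).1
  have g2 : ¬ x 4 (h + 4) 5 := (H.e2 (h + 4) 5 (by have := H.h4; omega) (by have := H.h4; omega) (by have := H.h4; omega)).2.1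
  have g3 : ¬ y 4 (h + 4) 5 := (H.e2 (h + 4) 5 (by have := H.h4; omega) (by have := H.h4; omega) (by have := H.h4; omega)).2.2.1
  have g4 : ¬ o 4 (h + 4) 5 := (H.e2 (h + 4) 5 (by have := H.h4; omega) (by have := H.h4; omega) (by have := H.h4; omega)).2.2.2
  have g5 : ¬ y 5 (h + 4) 5 := (colN H 5 (by omega) (by have := H.h4; omega))
  have g6 : ¬ x 5 (h + 4) 5 := (noX5 H 5 (by omega) (h + 4) (by have := H.h4; omega) (by have := H.h4; omega))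
  have g7 : o 5 (h + 4) 5 := (H.iso.ro 4 (h + 4) 5 (by omega)).2 ⟨g6, g5, (H.iso.me 5 (h + 4) 5 (by decide)), g4, g2, g3, g1⟩
  exact g7

theorem edge (H : Hyp h e x y o) (q1 : ¬ y 5 (h + 5) 5) (q2 : ¬ o 5 (h + 5) 4) (q3 : y 5 (h + 5) 4) (q4 : ¬ y 6 (h + 5) 6) (q5 : ¬ y 7 (h + 5) 6) : x 7 (h + 5) 5 := by
  have h4 := H.h4
  have g1 : o 5 (h + 4) 4 := (w8 H)
  have g2 : o 5 (h + 4) 5 := (w12 H)
  have g3 : ¬ x 5 (h + 5) 4 := (fun t => ((H.iso.rx 4 (h + 4) 4 (by omega)).1 t).1 g1)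
  have g4 : ¬ x 6 (h + 5) 4 := (fun t => ((H.iso.rx 5 (h + 4) 4 (by omega)).1 t).2.2.2.2.1 g1)
  have g5 : ¬ e 6 (h + 5) 5 := (fun t => ((H.iso.re 5 (h + 4) 4 (by omega)).1 t).2.2.2.2.2.2 g1)
  have g6 : ¬ x 6 (h + 5) 5 := (fun t => ((H.iso.rx 5 (h + 4) 5 (by omega)).1 t).2.2.2.2.1 g2)
  have g7 : ¬ e 6 (h + 5) 6 := (fun t => ((H.iso.re 5 (h + 4) 5 (by omega)).1 t).2.2.2.2.2.2 g2)
  have g8 : ¬ o 6 (h + 5) 4 := (fun t => ((H.iso.ro 5 (h + 5) 4 (by omega)).1 t).2.2.2.2.2.1 q3)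
  have g9 : y 6 (h + 5) 5 := (H.iso.ry 5 (h + 5) 4 (by omega)).2 ⟨g8, g5, g4, q1, q2, (H.iso.me 5 (h + 5) 5 (by decide)), g3⟩
  have g10 : ¬ o 6 (h + 5) 5 := (fun t => ((H.iso.ro 5 (h + 5) 5 (by omega)).1 t).2.1 g9)
  have g11 : ¬ o 7 (h + 5) 5 := (fun t => ((H.iso.ro 6 (h + 5) 5 (by omega)).1 t).2.2.2.2.2.1 g9)
  have g12 : x 7 (h + 5) 5 := by_contra fun t => q5 ((H.iso.ry 6 (h + 5) 5 (by omega)).2 ⟨g11, (H.iso.me 7 (h + 5) 6 (by decide)), t, q4, g10, g7, g6⟩)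
  exact g12

/-- The columns of the IN row. -/
theorem cC (H : Hyp h e x y o) (i : ℕ) (h1 : 5 ≤ i) (h2 : i ≤ h + 2) : y 5 i 4 ∨ o 5 i 4 := by
  have g1 := noX4 H i h1 (by omega)
  have g2 := emp4 H i h1 h2
  by_cases g3 : y 5 i 4
  · exact Or.inl g3
  · exact Or.inr ((H.iso.ro 4 i 4 (by omega)).2 ⟨g1, g3, H.iso.me 5 i 4 (by decide), g2.2.2.2,
      g2.2.1, g2.2.2.1, g2.1⟩)

theorem cA (H : Hyp h e x y o) (i : ℕ) (h1 : 5 ≤ i) (h2 : i ≤ h + 4) : y 5 i 5 ∨ o 5 i 4 := by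
  rcases Nat.lt_or_ge i (h + 3) with h3 | h3
  · have g1 := noX4 H i h1 (by omega)
    have g2 := emp4 H i h1 (by omega)
    have g3 : ¬ y 4 i 5 ∧ ¬ e 4 i 5 := by
      rcases Nat.lt_or_ge 5 i with h7 | h7
      · have h8 := H.e2 i 5 (by omega) h7 (by omega)
        exact ⟨h8.2.2.1, h8.1⟩
      · obtain rfl : i = 5 := by omega
        have h8 := (H.iso.ro 3 5 5 (by omega)).1 (H.e1 5 (by omega) (by have := H.h4; omega))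
        exact ⟨h8.2.1, h8.2.2.1⟩
    by_cases g4 : o 5 i 4
    · exact Or.inr g4
    · exact Or.inl ((H.iso.ry 4 i 4 (by omega)).2 ⟨g4, H.iso.me 5 i 5 (by decide), g1, g3.1,
        g2.2.2.2, g3.2, g2.2.1⟩)
  · rcases Nat.lt_or_ge i (h + 4) with h4 | h4
    · obtain rfl : i = h + 3 := by omega
      exact Or.inl (w9 H)
    · obtain rfl : i = h + 4 := by omega
      exact Or.inr (w8 H)

theorem cB (H : Hyp h e x y o) (i : ℕ) (h1 : 6 ≤ i) (h2 : i ≤ h + 4) : y 5 i 5 ∨ o 5 i 5 := by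
  have g1 := noX5 H 5 (by omega) i (by omega) h2
  have g2 := H.e2 i 5 (by omega) (by omega) h2
  by_cases g3 : y 5 i 5
  · exact Or.inl g3
  · exact Or.inr ((H.iso.ro 4 i 5 (by omega)).2 ⟨g1, g3, H.iso.me 5 i 5 (by decide), g2.2.2.2,
      g2.2.1, g2.2.2.1, g2.1⟩)

/-- The row `B - 1`. -/
theorem r1 (H : Hyp h e x y o) (i : ℕ) (h1 : 6 ≤ i) (h2 : i ≤ h + 4) :
    ¬ e 6 i 5 ∧ ¬ y 6 i 5 ∧ ¬ o 6 i 5 := by
  obtain ⟨t, rfl⟩ : ∃ t, i = t + 1 := ⟨i - 1, by omega⟩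
  refine ⟨fun u => ?_, fun u => ?_, fun u => ?_⟩
  · have g := (H.iso.re 5 t 4 (by omega)).1 u
    rcases cA H t (by omega) (by omega) with g1 | g1
    · exact g.2.2.2.2.1 g1
    · exact g.2.2.2.2.2.2 g1
  · have g := (H.iso.ry 5 (t + 1) 4 (by omega)).1 u
    rcases cA H (t + 1) (by omega) (by omega) with g1 | g1
    · exact g.2.2.2.1 g1
    · exact g.2.2.2.2.1 g1
  · have g := (H.iso.ro 5 (t + 1) 5 (by omega)).1 u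
    rcases cB H (t + 1) (by omega) (by omega) with g1 | g1
    · exact g.2.2.2.2.2.1 g1
    · exact g.2.2.2.1 g1

theorem r2 (H : Hyp h e x y o) (i : ℕ) (h1 : 7 ≤ i) (h2 : i ≤ h + 4) : ¬ x 6 i 5 := by
  obtain ⟨t, rfl⟩ : ∃ t, i = t + 1 := ⟨i - 1, by omega⟩
  intro u
  have g := (H.iso.rx 5 t 5 (by omega)).1 u
  rcases cB H t (by omega) (by omega) with g1 | g1
  · exact g.2.2.2.2.2.2 g1
  · exact g.2.2.2.2.1 g1

theorem r3 (H : Hyp h e x y o) (i : ℕ) (h1 : 6 ≤ i) (h2 : i ≤ h + 3) : ¬ x 6 i 4 := by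
  obtain ⟨t, rfl⟩ : ∃ t, i = t + 1 := ⟨i - 1, by omega⟩
  intro u
  have g := (H.iso.rx 5 t 4 (by omega)).1 u
  rcases cC H t (by omega) (by omega) with g1 | g1
  · exact g.2.2.2.2.2.2 g1
  · exact g.2.2.2.2.1 g1

theorem r4 (H : Hyp h e x y o) (i : ℕ) (h1 : 5 ≤ i) (h2 : i ≤ h + 2) : ¬ o 6 i 4 := by
  intro u
  have g := (H.iso.ro 5 i 4 (by omega)).1 u
  rcases cC H i h1 h2 with g1 | g1
  · exact g.2.2.2.2.2.1 g1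
  · exact g.2.2.2.1 g1

/-- The complete out-line `m + 2`. -/
theorem lineX (H : Hyp h e x y o) (G : x 7 (h + 5) 5) : ∀ i, 7 ≤ i → i ≤ h + 5 → x 7 i 5 := by
  have key : ∀ t i, i + t = h + 5 → 7 ≤ i → x 7 i 5 := by
    intro t
    induction t with
    | zero =>
      intro i h1 _
      obtain rfl : i = h + 5 := by omega
      exact G
    | succ t ih =>
      intro i h1 h2
      have g1 := (H.iso.rx 6 i 5 (by omega)).1 (ih (i + 1) (by omega) (by omega))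
      have g2 := r1 H i (by omega) (by omega)
      have g3 := r2 H i h2 (by omega)
      exact by_contra fun u => g1.1 ((H.iso.ro 6 i 5 (by omega)).2 ⟨u, g1.2.2.1,
        H.iso.me 7 i 5 (by decide), g2.2.2, g3, g2.2.1, g2.1⟩)
  intro i h1 h2
  exact key (h + 5 - i) i (by omega) h1

theorem lineY (H : Hyp h e x y o) (G : x 7 (h + 5) 5) (i : ℕ) (h1 : 6 ≤ i) (h2 : i ≤ h + 4) :
    ¬ y 7 i 5 ∧ ¬ o 7 i 5 := by
  have g1 := (H.iso.rx 6 i 5 (by omega)).1 (lineX H G (i + 1) (by omega) (by omega))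
  exact ⟨g1.2.2.1, g1.1⟩

theorem u1a (H : Hyp h e x y o) (G : x 7 (h + 5) 5) (hp : y 5 5 5) : e 6 5 5 := by
  have g1 : ¬ e 6 6 5 := (r1 H 6 (by have := H.h4; omega) (by have := H.h4; omega)).1
  have g2 : ¬ y 6 6 5 := (r1 H 6 (by have := H.h4; omega) (by have := H.h4; omega)).2.1
  have g3 : ¬ o 6 6 5 := (r1 H 6 (by have := H.h4; omega) (by have := H.h4; omega)).2.2
  have g4 : ¬ y 7 6 5 := (lineY H G 6 (by have := H.h4; omega) (by have := H.h4; omega)).1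
  have g5 : ¬ o 7 6 5 := (lineY H G 6 (by have := H.h4; omega) (by have := H.h4; omega)).2
  have g6 : ¬ y 6 5 5 := (fun t => ((H.iso.ry 5 5 4 (by omega)).1 t).2.2.2.1 hp)
  have g7 : ¬ o 6 5 5 := (fun t => ((H.iso.ro 5 5 5 (by omega)).1 t).2.2.2.2.1 ((H.iso.sym 5 5 5).2 hp))
  have g8 : ¬ x 6 6 5 := (fun t => ((H.iso.rx 5 5 5 (by omega)).1 t).2.2.2.2.2.2 hp)
  have g9 : x 7 6 5 := by_contra fun t => g5 ((H.iso.ro 6 6 5 (by omega)).2 ⟨t, g4, (H.iso.me 7 6 5 (by decide)), g3, g8, g2, g1⟩)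
  have g10 : ¬ o 7 5 5 := ((H.iso.rx 6 5 5 (by omega)).1 g9).1
  have g11 : ¬ y 7 5 5 := ((H.iso.rx 6 5 5 (by omega)).1 g9).2.2.1
  have g12 : e 6 5 5 := by_contra fun t => g10 ((H.iso.ro 6 5 5 (by omega)).2 ⟨(fun t => g11 ((H.iso.sym 7 5 5).1 t)), g11, (H.iso.me 7 5 5 (by decide)), g7, (fun t => g6 ((H.iso.sym 6 5 5).1 t)), g6, t⟩)
  exact g12

theorem u1b (H : Hyp h e x y o) (G : x 7 (h + 5) 5) (hp : ¬ y 5 5 5) (hq : o 5 5 4) : e 6 5 5 := by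
  refine by_contra fun hh => ?_
  have g1 : o 4 5 5 := (H.e1 5 (by have := H.h4; omega) (by have := H.h4; omega))
  have g2 : ¬ e 6 6 5 := (r1 H 6 (by have := H.h4; omega) (by have := H.h4; omega)).1
  have g3 : ¬ y 6 6 5 := (r1 H 6 (by have := H.h4; omega) (by have := H.h4; omega)).2.1
  have g4 : ¬ o 6 6 5 := (r1 H 6 (by have := H.h4; omega) (by have := H.h4; omega)).2.2
  have g5 : ¬ y 7 6 5 := (lineY H G 6 (by have := H.h4; omega) (by have := H.h4; omega)).1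
  have g6 : ¬ o 7 6 5 := (lineY H G 6 (by have := H.h4; omega) (by have := H.h4; omega)).2
  have g7 : ¬ o 5 5 5 := (fun t => ((H.iso.ro 4 5 5 (by omega)).1 t).2.2.2.1 g1)
  have g8 : ¬ y 6 5 5 := (fun t => ((H.iso.ry 5 5 4 (by omega)).1 t).2.2.2.2.1 hq)
  have g9 : o 6 5 5 := (H.iso.ro 5 5 5 (by omega)).2 ⟨(fun t => g8 ((H.iso.sym 6 5 5).1 t)), g8, hh, g7, (fun t => hp ((H.iso.sym 5 5 5).1 t)), hp, (H.iso.me 5 5 5 (by decide))⟩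
  have g10 : ¬ x 6 6 5 := (fun t => ((H.iso.rx 5 5 5 (by omega)).1 t).1 g9)
  have g11 : ¬ x 7 6 5 := (fun t => ((H.iso.rx 6 5 5 (by omega)).1 t).2.2.2.2.1 g9)
  exact g6 ((H.iso.ro 6 6 5 (by omega)).2 ⟨g11, g5, (H.iso.me 7 6 5 (by decide)), g4, g10, g3, g2⟩)

theorem u1 (H : Hyp h e x y o) (G : x 7 (h + 5) 5) : e 6 5 5 := by
  by_cases hp : y 5 5 5
  · exact u1a H G hp
  · rcases cA H 5 (by omega) (by have := H.h4; omega) with h1 | h1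
    · exact absurd h1 hp
    · exact u1b H G hp h1

theorem u2a (H : Hyp h e x y o) (G : x 7 (h + 5) 5) (hp : ¬ y 5 4 4) (hq : x 5 4 3) : False := by
  have g1 : o 4 4 4 := (H.e1 4 (by have := H.h4; omega) (by have := H.h4; omega))
  have g2 : e 6 5 5 := (u1 H G)
  have g3 : ¬ o 5 4 4 := (fun t => ((H.iso.ro 4 4 4 (by omega)).1 t).2.2.2.1 g1)
  have g4 : ¬ o 6 4 4 := ((H.iso.re 5 4 4 (by omega)).1 g2).2.2.1
  have g5 : ¬ e 6 4 4 := (fun t => ((H.iso.re 5 3 3 (by omega)).1 t).2.2.2.2.1 ((H.iso.sym 5 4 3).1 hq))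
  have g6 : ¬ y 6 4 4 := (fun t => ((H.iso.ry 5 4 3 (by omega)).1 t).2.2.2.2.2.2 hq)
  exact g4 ((H.iso.ro 5 4 4 (by omega)).2 ⟨(fun t => g6 ((H.iso.sym 6 4 4).1 t)), g6, g5, g3, (fun t => hp ((H.iso.sym 5 4 4).1 t)), hp, (H.iso.me 5 4 4 (by decide))⟩)

theorem u2b (H : Hyp h e x y o) (G : x 7 (h + 5) 5) (hp : ¬ y 5 4 4) (hq : ¬ x 5 4 3) : False := by
  have g1 : o 4 4 4 := (H.e1 4 (by have := H.h4; omega) (by have := H.h4; omega))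
  have g2 : o 3 3 3 := (lineM H 3 (by have := H.h4; omega) (by have := H.h4; omega))
  have g3 : o 3 4 3 := (lineM H 4 (by have := H.h4; omega) (by have := H.h4; omega))
  have g4 : ¬ x 5 5 4 := (noX4 H 5 (by have := H.h4; omega) (by have := H.h4; omega))
  have g5 : e 6 5 5 := (u1 H G)
  have g6 : ¬ y 4 4 4 := (fun t => ((H.iso.ro 3 4 4 (by omega)).1 g1).1 ((H.iso.sym 4 4 4).2 t))
  have g7 : ¬ e 4 4 4 := ((H.iso.ro 3 4 4 (by omega)).1 g1).2.2.1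
  have g8 : ¬ o 5 4 4 := (fun t => ((H.iso.ro 4 4 4 (by omega)).1 t).2.2.2.1 g1)
  have g9 : ¬ x 4 4 3 := (fun t => ((H.iso.rx 3 3 3 (by omega)).1 t).2.2.2.2.1 g2)
  have g10 : ¬ o 4 4 3 := (fun t => ((H.iso.ro 3 4 3 (by omega)).1 t).2.2.2.1 g3)
  have g11 : ¬ x 6 5 4 := (fun t => ((H.iso.re 5 4 4 (by omega)).1 g5).1 ((H.iso.sym 6 5 4).1 t))
  have g12 : ¬ o 6 4 4 := ((H.iso.re 5 4 4 (by omega)).1 g5).2.2.1
  have g13 : o 5 4 3 := by_contra fun t => hp ((H.iso.ry 4 4 3 (by omega)).2 ⟨t, (H.iso.me 5 4 4 (by decide)), hq, g6, g10, g7, g9⟩)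
  have g14 : ¬ y 6 4 4 := (fun t => ((H.iso.ry 5 4 3 (by omega)).1 t).2.2.2.2.1 g13)
  have g15 : ¬ e 6 5 4 := (fun t => ((H.iso.re 5 4 3 (by omega)).1 t).2.2.2.2.2.2 g13)
  exact g11 ((H.iso.rx 5 4 4 (by omega)).2 ⟨g12, g15, g14, g4, g8, (H.iso.me 5 5 4 (by decide)), hp⟩)

theorem u2 (H : Hyp h e x y o) (G : x 7 (h + 5) 5) : y 5 4 4 := by
  by_contra hp
  by_cases hq : x 5 4 3
  · exact u2a H G hp hq
  · exact u2b H G hp hq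

theorem v1 (H : Hyp h e x y o) : ¬ x 5 (h + 2) 2 := by
  have h4 := H.h4
  intro hh
  have g1 : o 2 (h + 1) 1 := H.c10
  have g2 : y 3 (h + 1) 1 := H.d11
  have g3 : ¬ x 3 (h + 2) 1 := H.d6.2.1
  have g4 : ¬ o 3 (h + 1) 1 := (fun t => ((H.iso.ro 2 (h + 1) 1 (by omega)).1 t).2.2.2.1 g1)
  have g5 : ¬ y 3 (h + 1) 2 := (fun t => ((H.iso.ry 2 (h + 1) 1 (by omega)).1 t).2.2.2.2.1 g1)
  have g6 : ¬ o 4 (h + 1) 1 := (fun t => ((H.iso.ro 3 (h + 1) 1 (by omega)).1 t).2.2.2.2.2.1 g2)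
  have g7 : ¬ x 4 (h + 2) 1 := (fun t => ((H.iso.rx 3 (h + 1) 1 (by omega)).1 t).2.2.2.2.2.2 g2)
  have g8 : ¬ e 4 (h + 2) 2 := ((H.iso.rx 4 (h + 1) 2 (by omega)).1 hh).2.2.2.2.2.1
  have g9 : ¬ y 4 (h + 1) 2 := ((H.iso.rx 4 (h + 1) 2 (by omega)).1 hh).2.2.2.2.2.2
  exact g8 ((H.iso.re 3 (h + 1) 1 (by omega)).2 ⟨g9, g7, g6, (H.iso.me 3 (h + 2) 2 (by decide)), g5, g3, g4⟩)

theorem v2 (H : Hyp h e x y o) : ¬ x 5 (h + 3) 3 := by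
  have h4 := H.h4
  intro hh
  have g1 : y 3 (h + 2) 2 := H.d5
  have g2 : ¬ x 3 (h + 3) 2 := H.d4.2.1
  have g3 : o 3 (h + 2) 3 := (lineM H (h + 2) (by have := H.h4; omega) (by have := H.h4; omega))
  have g4 : ¬ o 3 (h + 2) 2 := (fun t => ((H.iso.ro 2 (h + 2) 2 (by omega)).1 t).2.1 g1)
  have g5 : ¬ o 4 (h + 2) 2 := (fun t => ((H.iso.ro 3 (h + 2) 2 (by omega)).1 t).2.2.2.2.2.1 g1)
  have g6 : ¬ x 4 (h + 3) 2 := (fun t => ((H.iso.rx 3 (h + 2) 2 (by omega)).1 t).2.2.2.2.2.2 g1)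
  have g7 : ¬ y 3 (h + 2) 3 := ((H.iso.ro 2 (h + 2) 3 (by omega)).1 g3).2.1
  have g8 : ¬ e 4 (h + 3) 3 := ((H.iso.rx 4 (h + 2) 3 (by omega)).1 hh).2.2.2.2.2.1
  have g9 : ¬ y 4 (h + 2) 3 := ((H.iso.rx 4 (h + 2) 3 (by omega)).1 hh).2.2.2.2.2.2
  exact g8 ((H.iso.re 3 (h + 2) 2 (by omega)).2 ⟨g9, g6, g5, (H.iso.me 3 (h + 3) 3 (by decide)), g7, g2, g4⟩)

theorem v3 (H : Hyp h e x y o) : ¬ x 4 (h + 2) 2 := by
  have h4 := H.h4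
  intro hh
  have g1 : o 2 (h + 1) 1 := H.c10
  have g2 : y 3 (h + 1) 1 := H.d11
  have g3 : ¬ x 3 (h + 2) 1 := H.d6.2.1
  have g4 : ¬ o 3 (h + 1) 1 := (fun t => ((H.iso.ro 2 (h + 1) 1 (by omega)).1 t).2.2.2.1 g1)
  have g5 : ¬ y 3 (h + 1) 2 := (fun t => ((H.iso.ry 2 (h + 1) 1 (by omega)).1 t).2.2.2.2.1 g1)
  have g6 : ¬ o 4 (h + 1) 1 := (fun t => ((H.iso.ro 3 (h + 1) 1 (by omega)).1 t).2.2.2.2.2.1 g2)
  have g7 : ¬ x 4 (h + 2) 1 := (fun t => ((H.iso.rx 3 (h + 1) 1 (by omega)).1 t).2.2.2.2.2.2 g2)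
  have g8 : ¬ e 4 (h + 2) 2 := ((H.iso.rx 3 (h + 1) 2 (by omega)).1 hh).2.1
  have g9 : ¬ y 4 (h + 1) 2 := ((H.iso.rx 3 (h + 1) 2 (by omega)).1 hh).2.2.1
  exact g8 ((H.iso.re 3 (h + 1) 1 (by omega)).2 ⟨g9, g7, g6, (H.iso.me 3 (h + 2) 2 (by decide)), g5, g3, g4⟩)

theorem v4 (H : Hyp h e x y o) : ¬ e 4 (h + 2) 3 := by
  have h4 := H.h4
  intro hh
  have g1 : ¬ e 2 (h + 2) 2 := H.c3
  have g2 : ¬ x 2 (h + 2) 2 := H.c4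
  have g3 : o 2 (h + 1) 1 := H.c10
  have g4 : ¬ y 2 (h + 1) 2 := (H.c1 (h + 1) (by have := H.h4; omega) (by have := H.h4; omega)).2.2.1
  have g5 : ¬ o 2 (h + 1) 2 := (H.c1 (h + 1) (by have := H.h4; omega) (by have := H.h4; omega)).2.2.2
  have g6 : ¬ y 3 (h + 1) 2 := (fun t => ((H.iso.ry 2 (h + 1) 1 (by omega)).1 t).2.2.2.2.1 g3)
  have g7 : ¬ x 3 (h + 2) 2 := ((H.iso.re 3 (h + 1) 2 (by omega)).1 hh).2.2.2.2.2.1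
  have g8 : ¬ o 3 (h + 1) 2 := ((H.iso.re 3 (h + 1) 2 (by omega)).1 hh).2.2.2.2.2.2
  exact g7 ((H.iso.rx 2 (h + 1) 2 (by omega)).2 ⟨g8, (H.iso.me 3 (h + 2) 2 (by decide)), g6, g2, g5, g1, g4⟩)

theorem v5 (H : Hyp h e x y o) : ¬ x 6 (h + 3) 2 := by
  have h4 := H.h4
  intro hh
  have g1 : y 3 (h + 2) 2 := H.d5
  have g2 : o 4 (h + 2) 1 := (w7 H)
  have g3 : ¬ y 4 (h + 2) 2 := (fun t => ((H.iso.ry 3 (h + 2) 1 (by omega)).1 t).2.2.2.1 g1)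
  have g4 : ¬ o 4 (h + 2) 2 := (fun t => ((H.iso.ro 3 (h + 2) 2 (by omega)).1 t).2.2.2.2.2.1 g1)
  have g5 : ¬ e 4 (h + 3) 2 := (fun t => ((H.iso.re 3 (h + 2) 1 (by omega)).1 t).2.2.2.2.1 g1)
  have g6 : ¬ x 4 (h + 3) 2 := (fun t => ((H.iso.rx 3 (h + 2) 2 (by omega)).1 t).2.2.2.2.2.2 g1)
  have g7 : ¬ y 5 (h + 2) 2 := (fun t => ((H.iso.ry 4 (h + 2) 1 (by omega)).1 t).2.2.2.2.1 g2)
  have g8 : ¬ x 5 (h + 3) 2 := ((H.iso.rx 5 (h + 2) 2 (by omega)).1 hh).2.2.2.1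
  have g9 : ¬ o 5 (h + 2) 2 := ((H.iso.rx 5 (h + 2) 2 (by omega)).1 hh).2.2.2.2.1
  exact g8 ((H.iso.rx 4 (h + 2) 2 (by omega)).2 ⟨g9, (H.iso.me 5 (h + 3) 2 (by decide)), g7, g6, g4, g5, g3⟩)

theorem v6 (H : Hyp h e x y o) : ¬ e 6 (h + 3) 3 := by
  have h4 := H.h4
  intro hh
  have g1 : y 3 (h + 2) 2 := H.d5
  have g2 : o 4 (h + 2) 1 := (w7 H)
  have g3 : ¬ y 4 (h + 2) 2 := (fun t => ((H.iso.ry 3 (h + 2) 1 (by omega)).1 t).2.2.2.1 g1)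
  have g4 : ¬ o 4 (h + 2) 2 := (fun t => ((H.iso.ro 3 (h + 2) 2 (by omega)).1 t).2.2.2.2.2.1 g1)
  have g5 : ¬ e 4 (h + 3) 2 := (fun t => ((H.iso.re 3 (h + 2) 1 (by omega)).1 t).2.2.2.2.1 g1)
  have g6 : ¬ x 4 (h + 3) 2 := (fun t => ((H.iso.rx 3 (h + 2) 2 (by omega)).1 t).2.2.2.2.2.2 g1)
  have g7 : ¬ y 5 (h + 2) 2 := (fun t => ((H.iso.ry 4 (h + 2) 1 (by omega)).1 t).2.2.2.2.1 g2)
  have g8 : ¬ x 5 (h + 3) 2 := ((H.iso.re 5 (h + 2) 2 (by omega)).1 hh).2.2.2.2.2.1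
  have g9 : ¬ o 5 (h + 2) 2 := ((H.iso.re 5 (h + 2) 2 (by omega)).1 hh).2.2.2.2.2.2
  exact g8 ((H.iso.rx 4 (h + 2) 2 (by omega)).2 ⟨g9, (H.iso.me 5 (h + 3) 2 (by decide)), g7, g6, g4, g5, g3⟩)

theorem v7 (H : Hyp h e x y o) : ¬ x 6 (h + 4) 3 := by
  have h4 := H.h4
  intro hh
  have g1 : y 3 (h + 2) 2 := H.d5
  have g2 : x 3 (h + 3) 1 := H.d7
  have g3 : x 3 (h + 2) 0 := H.d9
  have g4 : y 3 (h + 2) 0 := H.d10
  have g5 : ¬ y 3 (h + 2) 1 := H.d6.2.2.1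
  have g6 : ¬ x 3 (h + 3) 0 := H.d14.2.1
  have g7 : o 4 (h + 3) 2 := (w6 H)
  have g8 : o 4 (h + 2) 1 := (w7 H)
  have g9 : ¬ e 4 (h + 3) 2 := (fun t => ((H.iso.re 3 (h + 2) 1 (by omega)).1 t).2.2.2.2.1 g1)
  have g10 : ¬ x 4 (h + 3) 1 := (fun t => ((H.iso.rx 3 (h + 2) 1 (by omega)).1 t).2.2.2.1 g2)
  have g11 : ¬ o 4 (h + 3) 1 := (fun t => ((H.iso.ro 3 (h + 3) 1 (by omega)).1 t).2.2.2.2.1 g2)
  have g12 : ¬ y 4 (h + 3) 2 := (fun t => ((H.iso.ry 3 (h + 3) 1 (by omega)).1 t).2.2.2.2.2.2 g2)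
  have g13 : ¬ o 3 (h + 2) 0 := (fun t => ((H.iso.ro 2 (h + 2) 0 (by omega)).1 t).1 g3)
  have g14 : ¬ o 4 (h + 2) 0 := (fun t => ((H.iso.ro 3 (h + 2) 0 (by omega)).1 t).2.2.2.2.1 g3)
  have g15 : ¬ y 4 (h + 2) 1 := (fun t => ((H.iso.ry 3 (h + 2) 0 (by omega)).1 t).2.2.2.2.2.2 g3)
  have g16 : ¬ x 4 (h + 3) 0 := (fun t => ((H.iso.rx 3 (h + 2) 0 (by omega)).1 t).2.2.2.2.2.2 g4)
  have g17 : e 4 (h + 3) 1 := (H.iso.re 3 (h + 2) 0 (by omega)).2 ⟨g15, g16, g14, (H.iso.me 3 (h + 3) 1 (by decide)), g5, g6, g13⟩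
  have g18 : ¬ o 5 (h + 3) 2 := (fun t => ((H.iso.ro 4 (h + 3) 2 (by omega)).1 t).2.2.2.1 g7)
  have g19 : ¬ y 5 (h + 3) 3 := (fun t => ((H.iso.ry 4 (h + 3) 2 (by omega)).1 t).2.2.2.2.1 g7)
  have g20 : ¬ x 5 (h + 4) 2 := (fun t => ((H.iso.rx 4 (h + 3) 2 (by omega)).1 t).2.2.2.2.1 g7)
  have g21 : ¬ x 5 (h + 3) 1 := (fun t => ((H.iso.rx 4 (h + 2) 1 (by omega)).1 t).2.2.2.2.1 g8)
  have g22 : ¬ o 5 (h + 3) 1 := (fun t => ((H.iso.ro 4 (h + 3) 1 (by omega)).1 t).2.2.2.2.2.2 g17)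
  have g23 : y 5 (h + 3) 2 := (H.iso.ry 4 (h + 3) 1 (by omega)).2 ⟨g22, (H.iso.me 5 (h + 3) 2 (by decide)), g21, g12, g11, g9, g10⟩
  have g24 : ¬ o 6 (h + 3) 2 := (fun t => ((H.iso.ro 5 (h + 3) 2 (by omega)).1 t).2.2.2.2.2.1 g23)
  have g25 : ¬ x 6 (h + 4) 2 := (fun t => ((H.iso.rx 5 (h + 3) 2 (by omega)).1 t).2.2.2.2.2.2 g23)
  have g26 : ¬ e 6 (h + 4) 3 := ((H.iso.rx 5 (h + 3) 3 (by omega)).1 hh).2.1
  have g27 : ¬ y 6 (h + 3) 3 := ((H.iso.rx 5 (h + 3) 3 (by omega)).1 hh).2.2.1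
  exact g26 ((H.iso.re 5 (h + 3) 2 (by omega)).2 ⟨g27, g25, g24, (H.iso.me 5 (h + 4) 3 (by decide)), g19, g20, g18⟩)

theorem v8 (H : Hyp h e x y o) : ¬ y 6 (h + 2) 4 := by
  have h4 := H.h4
  intro hh
  have g1 : o 3 (h + 1) 3 := (lineM H (h + 1) (by have := H.h4; omega) (by have := H.h4; omega))
  have g2 : o 3 (h + 2) 3 := (lineM H (h + 2) (by have := H.h4; omega) (by have := H.h4; omega))
  have g3 : ¬ e 4 (h + 2) 4 := (emp4 H (h + 2) (by have := H.h4; omega) (by have := H.h4; omega)).1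
  have g4 : ¬ y 4 (h + 2) 4 := (emp4 H (h + 2) (by have := H.h4; omega) (by have := H.h4; omega)).2.2.1
  have g5 : ¬ x 4 (h + 2) 3 := (fun t => ((H.iso.rx 3 (h + 1) 3 (by omega)).1 t).2.2.2.2.1 g1)
  have g6 : ¬ o 4 (h + 2) 3 := (fun t => ((H.iso.ro 3 (h + 2) 3 (by omega)).1 t).2.2.2.1 g2)
  have g7 : ¬ y 5 (h + 2) 4 := ((H.iso.ry 5 (h + 2) 3 (by omega)).1 hh).2.2.2.1
  have g8 : ¬ o 5 (h + 2) 3 := ((H.iso.ry 5 (h + 2) 3 (by omega)).1 hh).2.2.2.2.1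
  have g9 : ¬ x 5 (h + 2) 3 := ((H.iso.ry 5 (h + 2) 3 (by omega)).1 hh).2.2.2.2.2.2
  exact g7 ((H.iso.ry 4 (h + 2) 3 (by omega)).2 ⟨g8, (H.iso.me 5 (h + 2) 4 (by decide)), g9, g4, g6, g3, g5⟩)

theorem v9 (H : Hyp h e x y o) (G : x 7 (h + 5) 5) : ¬ e 6 (h + 3) 4 := by
  have h4 := H.h4
  intro hh
  have g1 : ¬ e 6 (h + 3) 5 := (r1 H (h + 3) (by have := H.h4; omega) (by have := H.h4; omega)).1
  have g2 : ¬ y 6 (h + 3) 5 := (r1 H (h + 3) (by have := H.h4; omega) (by have := H.h4; omega)).2.1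
  have g3 : ¬ y 7 (h + 3) 5 := (lineY H G (h + 3) (by have := H.h4; omega) (by have := H.h4; omega)).1
  have g4 : ¬ x 6 (h + 3) 4 := (r3 H (h + 3) (by have := H.h4; omega) (by have := H.h4; omega))
  have g5 : ¬ o 6 (h + 3) 4 := (fun t => ((H.iso.ro 5 (h + 3) 4 (by omega)).1 t).2.2.1 hh)
  have g6 : ¬ x 7 (h + 3) 4 := (fun t => ((H.iso.rx 6 (h + 2) 4 (by omega)).1 t).2.2.2.2.2.1 hh)
  have g7 : ¬ o 7 (h + 3) 4 := (fun t => ((H.iso.ro 6 (h + 3) 4 (by omega)).1 t).2.2.2.2.2.2 hh)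
  exact g3 ((H.iso.ry 6 (h + 3) 4 (by omega)).2 ⟨g7, (H.iso.me 7 (h + 3) 5 (by decide)), g6, g2, g5, g1, g4⟩)

theorem v10 (H : Hyp h e x y o) (G : x 7 (h + 5) 5) : ¬ o 6 (h + 2) 3 := by
  have h4 := H.h4
  intro hh
  have g1 : y 3 (h + 3) 3 := H.d3
  have g2 : x 3 (h + 3) 1 := H.d7
  have g3 : y 3 (h + 3) 1 := H.d8
  have g4 : x 3 (h + 4) 2 := H.d12
  have g5 : ¬ y 3 (h + 3) 2 := H.d4.2.2.1
  have g6 : ¬ x 3 (h + 4) 1 := H.d13.2.1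
  have g7 : o 3 (h + 1) 3 := (lineM H (h + 1) (by have := H.h4; omega) (by have := H.h4; omega))
  have g8 : o 3 (h + 2) 3 := (lineM H (h + 2) (by have := H.h4; omega) (by have := H.h4; omega))
  have g9 : ¬ y 5 (h + 3) 4 := (w4 H)
  have g10 : ¬ o 5 (h + 3) 4 := (w5 H)
  have g11 : o 4 (h + 3) 2 := (w6 H)
  have g12 : ¬ x 5 (h + 3) 4 := (noX4 H (h + 3) (by have := H.h4; omega) (by have := H.h4; omega))
  have g13 : o 5 (h + 4) 4 := (w8 H)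
  have g14 : ¬ y 5 (h + 4) 4 := (w11 H)
  have g15 : ¬ x 6 (h + 3) 4 := (r3 H (h + 3) (by have := H.h4; omega) (by have := H.h4; omega))
  have g16 : ¬ e 6 (h + 4) 5 := (r1 H (h + 4) (by have := H.h4; omega) (by have := H.h4; omega)).1
  have g17 : ¬ y 6 (h + 4) 5 := (r1 H (h + 4) (by have := H.h4; omega) (by have := H.h4; omega)).2.1
  have g18 : ¬ y 7 (h + 4) 5 := (lineY H G (h + 4) (by have := H.h4; omega) (by have := H.h4; omega)).1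
  have g19 : ¬ x 5 (h + 3) 3 := (v2 H)
  have g20 : ¬ e 4 (h + 2) 3 := (v4 H)
  have g21 : ¬ x 6 (h + 4) 3 := (v7 H)
  have g22 : ¬ e 6 (h + 3) 4 := (v9 H G)
  have g23 : ¬ y 4 (h + 3) 3 := (fun t => ((H.iso.ry 3 (h + 3) 2 (by omega)).1 t).2.2.2.1 g1)
  have g24 : ¬ o 4 (h + 3) 3 := (fun t => ((H.iso.ro 3 (h + 3) 3 (by omega)).1 t).2.2.2.2.2.1 g1)
  have g25 : ¬ e 4 (h + 4) 3 := (fun t => ((H.iso.re 3 (h + 3) 2 (by omega)).1 t).2.2.2.2.1 g1)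
  have g26 : ¬ o 3 (h + 3) 1 := (fun t => ((H.iso.ro 2 (h + 3) 1 (by omega)).1 t).1 g2)
  have g27 : ¬ o 4 (h + 3) 1 := (fun t => ((H.iso.ro 3 (h + 3) 1 (by omega)).1 t).2.2.2.2.1 g2)
  have g28 : ¬ y 4 (h + 3) 2 := (fun t => ((H.iso.ry 3 (h + 3) 1 (by omega)).1 t).2.2.2.2.2.2 g2)
  have g29 : ¬ x 4 (h + 4) 1 := (fun t => ((H.iso.rx 3 (h + 3) 1 (by omega)).1 t).2.2.2.2.2.2 g3)
  have g30 : ¬ x 4 (h + 4) 2 := (fun t => ((H.iso.rx 3 (h + 3) 2 (by omega)).1 t).2.2.2.1 g4)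
  have g31 : ¬ o 4 (h + 4) 2 := (fun t => ((H.iso.ro 3 (h + 4) 2 (by omega)).1 t).2.2.2.2.1 g4)
  have g32 : ¬ y 4 (h + 4) 3 := (fun t => ((H.iso.ry 3 (h + 4) 2 (by omega)).1 t).2.2.2.2.2.2 g4)
  have g33 : e 4 (h + 4) 2 := (H.iso.re 3 (h + 3) 1 (by omega)).2 ⟨g28, g29, g27, (H.iso.me 3 (h + 4) 2 (by decide)), g5, g6, g26⟩
  have g34 : ¬ x 4 (h + 2) 3 := (fun t => ((H.iso.rx 3 (h + 1) 3 (by omega)).1 t).2.2.2.2.1 g7)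
  have g35 : ¬ o 4 (h + 2) 3 := (fun t => ((H.iso.ro 3 (h + 2) 3 (by omega)).1 t).2.2.2.1 g8)
  have g36 : ¬ x 4 (h + 3) 3 := (fun t => ((H.iso.rx 3 (h + 2) 3 (by omega)).1 t).2.2.2.2.1 g8)
  have g37 : ¬ y 5 (h + 3) 3 := (fun t => ((H.iso.ry 4 (h + 3) 2 (by omega)).1 t).2.2.2.2.1 g11)
  have g38 : ¬ x 5 (h + 4) 2 := (fun t => ((H.iso.rx 4 (h + 3) 2 (by omega)).1 t).2.2.2.2.1 g11)
  have g39 : ¬ o 6 (h + 4) 4 := (fun t => ((H.iso.ro 5 (h + 4) 4 (by omega)).1 t).2.2.2.1 g13)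
  have g40 : ¬ o 5 (h + 4) 2 := (fun t => ((H.iso.ro 4 (h + 4) 2 (by omega)).1 t).2.2.2.2.2.2 g33)
  have g41 : y 5 (h + 4) 3 := (H.iso.ry 4 (h + 4) 2 (by omega)).2 ⟨g40, (H.iso.me 5 (h + 4) 3 (by decide)), g38, g32, g31, g25, g30⟩
  have g42 : ¬ o 5 (h + 4) 3 := (fun t => ((H.iso.ro 4 (h + 4) 3 (by omega)).1 t).2.1 g41)
  have g43 : ¬ o 6 (h + 4) 3 := (fun t => ((H.iso.ro 5 (h + 4) 3 (by omega)).1 t).2.2.2.2.2.1 g41)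
  have g44 : ¬ o 5 (h + 2) 3 := ((H.iso.ro 5 (h + 2) 3 (by omega)).1 hh).2.2.2.1
  have g45 : ¬ x 5 (h + 2) 3 := ((H.iso.ro 5 (h + 2) 3 (by omega)).1 hh).2.2.2.2.1
  have g46 : ¬ y 5 (h + 2) 3 := ((H.iso.ro 5 (h + 2) 3 (by omega)).1 hh).2.2.2.2.2.1
  have g47 : y 4 (h + 2) 3 := by_contra fun t => g44 ((H.iso.ro 4 (h + 2) 3 (by omega)).2 ⟨g45, g46, (H.iso.me 5 (h + 2) 3 (by decide)), g35, g34, t, g20⟩)
  have g48 : ¬ e 4 (h + 3) 3 := (fun t => ((H.iso.re 3 (h + 2) 2 (by omega)).1 t).1 g47)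
  have g49 : o 5 (h + 3) 3 := (H.iso.ro 4 (h + 3) 3 (by omega)).2 ⟨g19, g37, (H.iso.me 5 (h + 3) 3 (by decide)), g24, g36, g23, g48⟩
  have g50 : ¬ x 5 (h + 4) 3 := (fun t => ((H.iso.rx 4 (h + 3) 3 (by omega)).1 t).1 g49)
  have g51 : ¬ y 6 (h + 3) 4 := (fun t => ((H.iso.ry 5 (h + 3) 3 (by omega)).1 t).2.2.2.2.1 g49)
  have g52 : ¬ e 6 (h + 4) 4 := (fun t => ((H.iso.re 5 (h + 3) 3 (by omega)).1 t).2.2.2.2.2.2 g49)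
  have g53 : y 6 (h + 4) 4 := (H.iso.ry 5 (h + 4) 3 (by omega)).2 ⟨g43, g52, g21, g14, g42, (H.iso.me 5 (h + 4) 4 (by decide)), g50⟩
  have g54 : o 6 (h + 3) 4 := (H.iso.ro 5 (h + 3) 4 (by omega)).2 ⟨g15, g51, g22, g10, g12, g9, (H.iso.me 5 (h + 3) 4 (by decide))⟩
  have g55 : ¬ o 7 (h + 4) 4 := (fun t => ((H.iso.ro 6 (h + 4) 4 (by omega)).1 t).2.2.2.2.2.1 g53)
  have g56 : ¬ x 6 (h + 4) 4 := (fun t => ((H.iso.rx 5 (h + 3) 4 (by omega)).1 t).1 g54)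
  have g57 : ¬ x 7 (h + 4) 4 := (fun t => ((H.iso.rx 6 (h + 3) 4 (by omega)).1 t).2.2.2.2.1 g54)
  exact g18 ((H.iso.ry 6 (h + 4) 4 (by omega)).2 ⟨g55, (H.iso.me 7 (h + 4) 5 (by decide)), g57, g17, g39, g16, g56⟩)

theorem v11 (H : Hyp h e x y o) (G : x 7 (h + 5) 5) : ¬ o 6 (h + 3) 3 := by
  have h4 := H.h4
  intro hh
  have g1 : y 3 (h + 3) 3 := H.d3
  have g2 : y 3 (h + 2) 2 := H.d5
  have g3 : x 3 (h + 3) 1 := H.d7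
  have g4 : y 3 (h + 3) 1 := H.d8
  have g5 : x 3 (h + 2) 0 := H.d9
  have g6 : y 3 (h + 2) 0 := H.d10
  have g7 : x 3 (h + 4) 2 := H.d12
  have g8 : ¬ y 3 (h + 3) 2 := H.d4.2.2.1
  have g9 : ¬ y 3 (h + 2) 1 := H.d6.2.2.1
  have g10 : ¬ x 3 (h + 4) 1 := H.d13.2.1
  have g11 : ¬ x 3 (h + 3) 0 := H.d14.2.1
  have g12 : ¬ y 5 (h + 3) 4 := (w4 H)
  have g13 : ¬ o 5 (h + 3) 4 := (w5 H)
  have g14 : o 4 (h + 3) 2 := (w6 H)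
  have g15 : o 4 (h + 2) 1 := (w7 H)
  have g16 : ¬ x 5 (h + 3) 4 := (noX4 H (h + 3) (by have := H.h4; omega) (by have := H.h4; omega))
  have g17 : o 5 (h + 4) 4 := (w8 H)
  have g18 : ¬ x 6 (h + 3) 4 := (r3 H (h + 3) (by have := H.h4; omega) (by have := H.h4; omega))
  have g19 : ¬ e 6 (h + 4) 5 := (r1 H (h + 4) (by have := H.h4; omega) (by have := H.h4; omega)).1
  have g20 : ¬ y 6 (h + 4) 5 := (r1 H (h + 4) (by have := H.h4; omega) (by have := H.h4; omega)).2.1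
  have g21 : ¬ y 7 (h + 4) 5 := (lineY H G (h + 4) (by have := H.h4; omega) (by have := H.h4; omega)).1
  have g22 : ¬ x 6 (h + 4) 3 := (v7 H)
  have g23 : ¬ e 6 (h + 3) 4 := (v9 H G)
  have g24 : ¬ y 4 (h + 3) 3 := (fun t => ((H.iso.ry 3 (h + 3) 2 (by omega)).1 t).2.2.2.1 g1)
  have g25 : ¬ o 4 (h + 3) 3 := (fun t => ((H.iso.ro 3 (h + 3) 3 (by omega)).1 t).2.2.2.2.2.1 g1)
  have g26 : ¬ e 4 (h + 4) 3 := (fun t => ((H.iso.re 3 (h + 3) 2 (by omega)).1 t).2.2.2.2.1 g1)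
  have g27 : ¬ x 4 (h + 4) 3 := (fun t => ((H.iso.rx 3 (h + 3) 3 (by omega)).1 t).2.2.2.2.2.2 g1)
  have g28 : ¬ e 4 (h + 3) 2 := (fun t => ((H.iso.re 3 (h + 2) 1 (by omega)).1 t).2.2.2.2.1 g2)
  have g29 : ¬ o 3 (h + 3) 1 := (fun t => ((H.iso.ro 2 (h + 3) 1 (by omega)).1 t).1 g3)
  have g30 : ¬ x 4 (h + 3) 1 := (fun t => ((H.iso.rx 3 (h + 2) 1 (by omega)).1 t).2.2.2.1 g3)
  have g31 : ¬ o 4 (h + 3) 1 := (fun t => ((H.iso.ro 3 (h + 3) 1 (by omega)).1 t).2.2.2.2.1 g3)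
  have g32 : ¬ y 4 (h + 3) 2 := (fun t => ((H.iso.ry 3 (h + 3) 1 (by omega)).1 t).2.2.2.2.2.2 g3)
  have g33 : ¬ x 4 (h + 4) 1 := (fun t => ((H.iso.rx 3 (h + 3) 1 (by omega)).1 t).2.2.2.2.2.2 g4)
  have g34 : ¬ o 3 (h + 2) 0 := (fun t => ((H.iso.ro 2 (h + 2) 0 (by omega)).1 t).1 g5)
  have g35 : ¬ o 4 (h + 2) 0 := (fun t => ((H.iso.ro 3 (h + 2) 0 (by omega)).1 t).2.2.2.2.1 g5)
  have g36 : ¬ y 4 (h + 2) 1 := (fun t => ((H.iso.ry 3 (h + 2) 0 (by omega)).1 t).2.2.2.2.2.2 g5)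
  have g37 : ¬ x 4 (h + 3) 0 := (fun t => ((H.iso.rx 3 (h + 2) 0 (by omega)).1 t).2.2.2.2.2.2 g6)
  have g38 : ¬ x 4 (h + 4) 2 := (fun t => ((H.iso.rx 3 (h + 3) 2 (by omega)).1 t).2.2.2.1 g7)
  have g39 : ¬ o 4 (h + 4) 2 := (fun t => ((H.iso.ro 3 (h + 4) 2 (by omega)).1 t).2.2.2.2.1 g7)
  have g40 : ¬ y 4 (h + 4) 3 := (fun t => ((H.iso.ry 3 (h + 4) 2 (by omega)).1 t).2.2.2.2.2.2 g7)
  have g41 : e 4 (h + 4) 2 := (H.iso.re 3 (h + 3) 1 (by omega)).2 ⟨g32, g33, g31, (H.iso.me 3 (h + 4) 2 (by decide)), g8, g10, g29⟩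
  have g42 : e 4 (h + 3) 1 := (H.iso.re 3 (h + 2) 0 (by omega)).2 ⟨g36, g37, g35, (H.iso.me 3 (h + 3) 1 (by decide)), g9, g11, g34⟩
  have g43 : ¬ o 5 (h + 3) 2 := (fun t => ((H.iso.ro 4 (h + 3) 2 (by omega)).1 t).2.2.2.1 g14)
  have g44 : ¬ y 5 (h + 3) 3 := (fun t => ((H.iso.ry 4 (h + 3) 2 (by omega)).1 t).2.2.2.2.1 g14)
  have g45 : ¬ x 5 (h + 4) 2 := (fun t => ((H.iso.rx 4 (h + 3) 2 (by omega)).1 t).2.2.2.2.1 g14)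
  have g46 : ¬ x 5 (h + 3) 1 := (fun t => ((H.iso.rx 4 (h + 2) 1 (by omega)).1 t).2.2.2.2.1 g15)
  have g47 : ¬ o 6 (h + 4) 4 := (fun t => ((H.iso.ro 5 (h + 4) 4 (by omega)).1 t).2.2.2.1 g17)
  have g48 : ¬ o 5 (h + 4) 2 := (fun t => ((H.iso.ro 4 (h + 4) 2 (by omega)).1 t).2.2.2.2.2.2 g41)
  have g49 : ¬ o 5 (h + 3) 1 := (fun t => ((H.iso.ro 4 (h + 3) 1 (by omega)).1 t).2.2.2.2.2.2 g42)
  have g50 : y 5 (h + 4) 3 := (H.iso.ry 4 (h + 4) 2 (by omega)).2 ⟨g48, (H.iso.me 5 (h + 4) 3 (by decide)), g45, g40, g39, g26, g38⟩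
  have g51 : y 5 (h + 3) 2 := (H.iso.ry 4 (h + 3) 1 (by omega)).2 ⟨g49, (H.iso.me 5 (h + 3) 2 (by decide)), g46, g32, g31, g28, g30⟩
  have g52 : ¬ o 6 (h + 4) 3 := (fun t => ((H.iso.ro 5 (h + 4) 3 (by omega)).1 t).2.2.2.2.2.1 g50)
  have g53 : ¬ o 6 (h + 3) 2 := (fun t => ((H.iso.ro 5 (h + 3) 2 (by omega)).1 t).2.2.2.2.2.1 g51)
  have g54 : ¬ x 6 (h + 4) 2 := (fun t => ((H.iso.rx 5 (h + 3) 2 (by omega)).1 t).2.2.2.2.2.2 g51)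
  have g55 : ¬ y 6 (h + 3) 3 := ((H.iso.ro 5 (h + 3) 3 (by omega)).1 hh).2.1
  have g56 : ¬ o 5 (h + 3) 3 := ((H.iso.ro 5 (h + 3) 3 (by omega)).1 hh).2.2.2.1
  have g57 : ¬ y 6 (h + 3) 4 := (fun t => ((H.iso.ry 5 (h + 3) 3 (by omega)).1 t).1 hh)
  have g58 : ¬ e 6 (h + 4) 4 := (fun t => ((H.iso.re 5 (h + 3) 3 (by omega)).1 t).2.2.1 hh)
  have g59 : ¬ x 7 (h + 4) 3 := (fun t => ((H.iso.rx 6 (h + 3) 3 (by omega)).1 t).2.2.2.2.1 hh)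
  have g60 : e 6 (h + 4) 3 := (H.iso.re 5 (h + 3) 2 (by omega)).2 ⟨g55, g54, g53, (H.iso.me 5 (h + 4) 3 (by decide)), g44, g45, g43⟩
  have g61 : x 5 (h + 4) 3 := (H.iso.rx 4 (h + 3) 3 (by omega)).2 ⟨g56, (H.iso.me 5 (h + 4) 3 (by decide)), g44, g27, g25, g26, g24⟩
  have g62 : o 6 (h + 3) 4 := (H.iso.ro 5 (h + 3) 4 (by omega)).2 ⟨g18, g57, g23, g13, g16, g12, (H.iso.me 5 (h + 3) 4 (by decide))⟩
  have g63 : ¬ o 7 (h + 4) 3 := (fun t => ((H.iso.ro 6 (h + 4) 3 (by omega)).1 t).2.2.2.2.2.2 g60)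
  have g64 : ¬ y 6 (h + 4) 4 := (fun t => ((H.iso.ry 5 (h + 4) 3 (by omega)).1 t).2.2.2.2.2.2 g61)
  have g65 : ¬ x 6 (h + 4) 4 := (fun t => ((H.iso.rx 5 (h + 3) 4 (by omega)).1 t).1 g62)
  have g66 : ¬ x 7 (h + 4) 4 := (fun t => ((H.iso.rx 6 (h + 3) 4 (by omega)).1 t).2.2.2.2.1 g62)
  have g67 : y 7 (h + 4) 4 := (H.iso.ry 6 (h + 4) 3 (by omega)).2 ⟨g63, (H.iso.me 7 (h + 4) 4 (by decide)), g59, g64, g52, g58, g22⟩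
  have g68 : o 7 (h + 4) 4 := by_contra fun t => g21 ((H.iso.ry 6 (h + 4) 4 (by omega)).2 ⟨t, (H.iso.me 7 (h + 4) 5 (by decide)), g66, g20, g47, g19, g65⟩)
  exact ((fun t => ((H.iso.ro 6 (h + 4) 4 (by omega)).1 t).2.1 g67)) g68

theorem k1 (H : Hyp h e x y o) (G : x 7 (h + 5) 5) (hc : o 6 (h + 3) 4) : x 5 (h + 2) 3 := by
  have h4 := H.h4
  have g1 : y 3 (h + 3) 3 := H.d3
  have g2 : x 3 (h + 3) 1 := H.d7
  have g3 : y 3 (h + 3) 1 := H.d8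
  have g4 : x 3 (h + 4) 2 := H.d12
  have g5 : ¬ y 3 (h + 3) 2 := H.d4.2.2.1
  have g6 : ¬ x 3 (h + 4) 1 := H.d13.2.1
  have g7 : o 3 (h + 1) 3 := (lineM H (h + 1) (by have := H.h4; omega) (by have := H.h4; omega))
  have g8 : o 3 (h + 2) 3 := (lineM H (h + 2) (by have := H.h4; omega) (by have := H.h4; omega))
  have g9 : ¬ y 5 (h + 3) 4 := (w4 H)
  have g10 : o 4 (h + 3) 2 := (w6 H)
  have g11 : o 5 (h + 4) 4 := (w8 H)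
  have g12 : ¬ y 5 (h + 4) 4 := (w11 H)
  have g13 : ¬ e 6 (h + 4) 5 := (r1 H (h + 4) (by have := H.h4; omega) (by have := H.h4; omega)).1
  have g14 : ¬ y 6 (h + 4) 5 := (r1 H (h + 4) (by have := H.h4; omega) (by have := H.h4; omega)).2.1
  have g15 : ¬ y 7 (h + 4) 5 := (lineY H G (h + 4) (by have := H.h4; omega) (by have := H.h4; omega)).1
  have g16 : ¬ x 5 (h + 3) 3 := (v2 H)
  have g17 : ¬ e 4 (h + 2) 3 := (v4 H)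
  have g18 : ¬ x 6 (h + 4) 3 := (v7 H)
  have g19 : ¬ e 6 (h + 3) 4 := (v9 H G)
  have g20 : ¬ o 6 (h + 3) 3 := (v11 H G)
  have g21 : ¬ y 4 (h + 3) 3 := (fun t => ((H.iso.ry 3 (h + 3) 2 (by omega)).1 t).2.2.2.1 g1)
  have g22 : ¬ o 4 (h + 3) 3 := (fun t => ((H.iso.ro 3 (h + 3) 3 (by omega)).1 t).2.2.2.2.2.1 g1)
  have g23 : ¬ e 4 (h + 4) 3 := (fun t => ((H.iso.re 3 (h + 3) 2 (by omega)).1 t).2.2.2.2.1 g1)
  have g24 : ¬ o 3 (h + 3) 1 := (fun t => ((H.iso.ro 2 (h + 3) 1 (by omega)).1 t).1 g2)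
  have g25 : ¬ o 4 (h + 3) 1 := (fun t => ((H.iso.ro 3 (h + 3) 1 (by omega)).1 t).2.2.2.2.1 g2)
  have g26 : ¬ y 4 (h + 3) 2 := (fun t => ((H.iso.ry 3 (h + 3) 1 (by omega)).1 t).2.2.2.2.2.2 g2)
  have g27 : ¬ x 4 (h + 4) 1 := (fun t => ((H.iso.rx 3 (h + 3) 1 (by omega)).1 t).2.2.2.2.2.2 g3)
  have g28 : ¬ x 4 (h + 4) 2 := (fun t => ((H.iso.rx 3 (h + 3) 2 (by omega)).1 t).2.2.2.1 g4)
  have g29 : ¬ o 4 (h + 4) 2 := (fun t => ((H.iso.ro 3 (h + 4) 2 (by omega)).1 t).2.2.2.2.1 g4)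
  have g30 : ¬ y 4 (h + 4) 3 := (fun t => ((H.iso.ry 3 (h + 4) 2 (by omega)).1 t).2.2.2.2.2.2 g4)
  have g31 : e 4 (h + 4) 2 := (H.iso.re 3 (h + 3) 1 (by omega)).2 ⟨g26, g27, g25, (H.iso.me 3 (h + 4) 2 (by decide)), g5, g6, g24⟩
  have g32 : ¬ x 4 (h + 2) 3 := (fun t => ((H.iso.rx 3 (h + 1) 3 (by omega)).1 t).2.2.2.2.1 g7)
  have g33 : ¬ o 4 (h + 2) 3 := (fun t => ((H.iso.ro 3 (h + 2) 3 (by omega)).1 t).2.2.2.1 g8)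
  have g34 : ¬ x 4 (h + 3) 3 := (fun t => ((H.iso.rx 3 (h + 2) 3 (by omega)).1 t).2.2.2.2.1 g8)
  have g35 : ¬ y 5 (h + 3) 3 := (fun t => ((H.iso.ry 4 (h + 3) 2 (by omega)).1 t).2.2.2.2.1 g10)
  have g36 : ¬ x 5 (h + 4) 2 := (fun t => ((H.iso.rx 4 (h + 3) 2 (by omega)).1 t).2.2.2.2.1 g10)
  have g37 : ¬ o 6 (h + 4) 4 := (fun t => ((H.iso.ro 5 (h + 4) 4 (by omega)).1 t).2.2.2.1 g11)
  have g38 : ¬ y 6 (h + 3) 4 := ((H.iso.ro 5 (h + 3) 4 (by omega)).1 hc).2.1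
  have g39 : ¬ x 6 (h + 4) 4 := (fun t => ((H.iso.rx 5 (h + 3) 4 (by omega)).1 t).1 hc)
  have g40 : ¬ x 7 (h + 4) 4 := (fun t => ((H.iso.rx 6 (h + 3) 4 (by omega)).1 t).2.2.2.2.1 hc)
  have g41 : ¬ o 5 (h + 4) 2 := (fun t => ((H.iso.ro 4 (h + 4) 2 (by omega)).1 t).2.2.2.2.2.2 g31)
  have g42 : y 5 (h + 4) 3 := (H.iso.ry 4 (h + 4) 2 (by omega)).2 ⟨g41, (H.iso.me 5 (h + 4) 3 (by decide)), g36, g30, g29, g23, g28⟩
  have g43 : o 7 (h + 4) 4 := by_contra fun t => g15 ((H.iso.ry 6 (h + 4) 4 (by omega)).2 ⟨t, (H.iso.me 7 (h + 4) 5 (by decide)), g40, g14, g37, g13, g39⟩)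
  have g44 : ¬ o 5 (h + 4) 3 := (fun t => ((H.iso.ro 4 (h + 4) 3 (by omega)).1 t).2.1 g42)
  have g45 : ¬ o 6 (h + 4) 3 := (fun t => ((H.iso.ro 5 (h + 4) 3 (by omega)).1 t).2.2.2.2.2.1 g42)
  have g46 : ¬ y 6 (h + 4) 4 := ((H.iso.ro 6 (h + 4) 4 (by omega)).1 g43).2.2.2.2.2.1
  have g47 : ¬ e 6 (h + 4) 4 := ((H.iso.ro 6 (h + 4) 4 (by omega)).1 g43).2.2.2.2.2.2
  have g48 : x 5 (h + 4) 3 := by_contra fun t => g46 ((H.iso.ry 5 (h + 4) 3 (by omega)).2 ⟨g45, g47, g18, g12, g44, (H.iso.me 5 (h + 4) 4 (by decide)), t⟩)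
  have g49 : ¬ o 5 (h + 3) 3 := ((H.iso.rx 4 (h + 3) 3 (by omega)).1 g48).1
  have g50 : e 4 (h + 3) 3 := by_contra fun t => g49 ((H.iso.ro 4 (h + 3) 3 (by omega)).2 ⟨g16, g35, (H.iso.me 5 (h + 3) 3 (by decide)), g22, g34, g21, t⟩)
  have g51 : x 6 (h + 3) 3 := by_contra fun t => g38 ((H.iso.ry 5 (h + 3) 3 (by omega)).2 ⟨g20, g19, t, g9, g49, (H.iso.me 5 (h + 3) 4 (by decide)), g16⟩)
  have g52 : ¬ y 4 (h + 2) 3 := ((H.iso.re 3 (h + 2) 2 (by omega)).1 g50).1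
  have g53 : ¬ o 5 (h + 2) 3 := ((H.iso.rx 5 (h + 2) 3 (by omega)).1 g51).2.2.2.2.1
  have g54 : ¬ y 5 (h + 2) 3 := ((H.iso.rx 5 (h + 2) 3 (by omega)).1 g51).2.2.2.2.2.2
  have g55 : x 5 (h + 2) 3 := by_contra fun t => g53 ((H.iso.ro 4 (h + 2) 3 (by omega)).2 ⟨t, g54, (H.iso.me 5 (h + 2) 3 (by decide)), g33, g32, g52, g17⟩)
  exact g55

theorem k2 (H : Hyp h e x y o) (G : x 7 (h + 5) 5) (hc : o 6 (h + 3) 4) : x 3 (h + 2) 2 := by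
  have h4 := H.h4
  have g1 : y 3 (h + 3) 3 := H.d3
  have g2 : y 3 (h + 2) 2 := H.d5
  have g3 : x 3 (h + 3) 1 := H.d7
  have g4 : y 3 (h + 3) 1 := H.d8
  have g5 : x 3 (h + 4) 2 := H.d12
  have g6 : ¬ y 3 (h + 3) 2 := H.d4.2.2.1
  have g7 : ¬ x 3 (h + 4) 1 := H.d13.2.1
  have g8 : o 3 (h + 2) 3 := (lineM H (h + 2) (by have := H.h4; omega) (by have := H.h4; omega))
  have g9 : o 4 (h + 3) 2 := (w6 H)
  have g10 : o 5 (h + 4) 4 := (w8 H)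
  have g11 : ¬ y 5 (h + 4) 4 := (w11 H)
  have g12 : ¬ e 6 (h + 4) 5 := (r1 H (h + 4) (by have := H.h4; omega) (by have := H.h4; omega)).1
  have g13 : ¬ y 6 (h + 4) 5 := (r1 H (h + 4) (by have := H.h4; omega) (by have := H.h4; omega)).2.1
  have g14 : ¬ y 7 (h + 4) 5 := (lineY H G (h + 4) (by have := H.h4; omega) (by have := H.h4; omega)).1
  have g15 : ¬ x 5 (h + 3) 3 := (v2 H)
  have g16 : ¬ x 4 (h + 2) 2 := (v3 H)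
  have g17 : ¬ e 4 (h + 2) 3 := (v4 H)
  have g18 : ¬ x 6 (h + 4) 3 := (v7 H)
  have g19 : ¬ y 4 (h + 3) 3 := (fun t => ((H.iso.ry 3 (h + 3) 2 (by omega)).1 t).2.2.2.1 g1)
  have g20 : ¬ o 4 (h + 3) 3 := (fun t => ((H.iso.ro 3 (h + 3) 3 (by omega)).1 t).2.2.2.2.2.1 g1)
  have g21 : ¬ e 4 (h + 4) 3 := (fun t => ((H.iso.re 3 (h + 3) 2 (by omega)).1 t).2.2.2.2.1 g1)
  have g22 : ¬ o 3 (h + 2) 2 := (fun t => ((H.iso.ro 2 (h + 2) 2 (by omega)).1 t).2.1 g2)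
  have g23 : ¬ o 4 (h + 2) 2 := (fun t => ((H.iso.ro 3 (h + 2) 2 (by omega)).1 t).2.2.2.2.2.1 g2)
  have g24 : ¬ o 3 (h + 3) 1 := (fun t => ((H.iso.ro 2 (h + 3) 1 (by omega)).1 t).1 g3)
  have g25 : ¬ o 4 (h + 3) 1 := (fun t => ((H.iso.ro 3 (h + 3) 1 (by omega)).1 t).2.2.2.2.1 g3)
  have g26 : ¬ y 4 (h + 3) 2 := (fun t => ((H.iso.ry 3 (h + 3) 1 (by omega)).1 t).2.2.2.2.2.2 g3)
  have g27 : ¬ x 4 (h + 4) 1 := (fun t => ((H.iso.rx 3 (h + 3) 1 (by omega)).1 t).2.2.2.2.2.2 g4)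
  have g28 : ¬ x 4 (h + 4) 2 := (fun t => ((H.iso.rx 3 (h + 3) 2 (by omega)).1 t).2.2.2.1 g5)
  have g29 : ¬ o 4 (h + 4) 2 := (fun t => ((H.iso.ro 3 (h + 4) 2 (by omega)).1 t).2.2.2.2.1 g5)
  have g30 : ¬ y 4 (h + 4) 3 := (fun t => ((H.iso.ry 3 (h + 4) 2 (by omega)).1 t).2.2.2.2.2.2 g5)
  have g31 : e 4 (h + 4) 2 := (H.iso.re 3 (h + 3) 1 (by omega)).2 ⟨g26, g27, g25, (H.iso.me 3 (h + 4) 2 (by decide)), g6, g7, g24⟩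
  have g32 : ¬ y 3 (h + 2) 3 := ((H.iso.ro 2 (h + 2) 3 (by omega)).1 g8).2.1
  have g33 : ¬ x 4 (h + 3) 3 := (fun t => ((H.iso.rx 3 (h + 2) 3 (by omega)).1 t).2.2.2.2.1 g8)
  have g34 : ¬ y 5 (h + 3) 3 := (fun t => ((H.iso.ry 4 (h + 3) 2 (by omega)).1 t).2.2.2.2.1 g9)
  have g35 : ¬ x 5 (h + 4) 2 := (fun t => ((H.iso.rx 4 (h + 3) 2 (by omega)).1 t).2.2.2.2.1 g9)
  have g36 : ¬ o 6 (h + 4) 4 := (fun t => ((H.iso.ro 5 (h + 4) 4 (by omega)).1 t).2.2.2.1 g10)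
  have g37 : ¬ x 6 (h + 4) 4 := (fun t => ((H.iso.rx 5 (h + 3) 4 (by omega)).1 t).1 hc)
  have g38 : ¬ x 7 (h + 4) 4 := (fun t => ((H.iso.rx 6 (h + 3) 4 (by omega)).1 t).2.2.2.2.1 hc)
  have g39 : ¬ o 5 (h + 4) 2 := (fun t => ((H.iso.ro 4 (h + 4) 2 (by omega)).1 t).2.2.2.2.2.2 g31)
  have g40 : y 5 (h + 4) 3 := (H.iso.ry 4 (h + 4) 2 (by omega)).2 ⟨g39, (H.iso.me 5 (h + 4) 3 (by decide)), g35, g30, g29, g21, g28⟩
  have g41 : o 7 (h + 4) 4 := by_contra fun t => g14 ((H.iso.ry 6 (h + 4) 4 (by omega)).2 ⟨t, (H.iso.me 7 (h + 4) 5 (by decide)), g38, g13, g36, g12, g37⟩)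
  have g42 : ¬ o 5 (h + 4) 3 := (fun t => ((H.iso.ro 4 (h + 4) 3 (by omega)).1 t).2.1 g40)
  have g43 : ¬ o 6 (h + 4) 3 := (fun t => ((H.iso.ro 5 (h + 4) 3 (by omega)).1 t).2.2.2.2.2.1 g40)
  have g44 : ¬ y 6 (h + 4) 4 := ((H.iso.ro 6 (h + 4) 4 (by omega)).1 g41).2.2.2.2.2.1
  have g45 : ¬ e 6 (h + 4) 4 := ((H.iso.ro 6 (h + 4) 4 (by omega)).1 g41).2.2.2.2.2.2
  have g46 : x 5 (h + 4) 3 := by_contra fun t => g44 ((H.iso.ry 5 (h + 4) 3 (by omega)).2 ⟨g43, g45, g18, g11, g42, (H.iso.me 5 (h + 4) 4 (by decide)), t⟩)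
  have g47 : ¬ o 5 (h + 3) 3 := ((H.iso.rx 4 (h + 3) 3 (by omega)).1 g46).1
  have g48 : e 4 (h + 3) 3 := by_contra fun t => g47 ((H.iso.ro 4 (h + 3) 3 (by omega)).2 ⟨g15, g34, (H.iso.me 5 (h + 3) 3 (by decide)), g20, g33, g19, t⟩)
  have g49 : ¬ y 4 (h + 2) 3 := ((H.iso.re 3 (h + 2) 2 (by omega)).1 g48).1
  have g50 : x 3 (h + 2) 2 := by_contra fun t => g49 ((H.iso.ry 3 (h + 2) 2 (by omega)).2 ⟨g23, g17, g16, g32, g22, (H.iso.me 3 (h + 2) 3 (by decide)), t⟩)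
  exact g50

theorem k3 (H : Hyp h e x y o) (G : x 7 (h + 5) 5) (hc : ¬ o 6 (h + 3) 4) : x 3 (h + 2) 2 := by
  have h4 := H.h4
  have g1 : y 3 (h + 3) 3 := H.d3
  have g2 : y 3 (h + 2) 2 := H.d5
  have g3 : o 3 (h + 2) 3 := (lineM H (h + 2) (by have := H.h4; omega) (by have := H.h4; omega))
  have g4 : ¬ y 5 (h + 3) 4 := (w4 H)
  have g5 : ¬ o 5 (h + 3) 4 := (w5 H)
  have g6 : o 4 (h + 3) 2 := (w6 H)
  have g7 : ¬ x 5 (h + 3) 4 := (noX4 H (h + 3) (by have := H.h4; omega) (by have := H.h4; omega))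
  have g8 : ¬ x 6 (h + 3) 4 := (r3 H (h + 3) (by have := H.h4; omega) (by have := H.h4; omega))
  have g9 : ¬ x 5 (h + 3) 3 := (v2 H)
  have g10 : ¬ x 4 (h + 2) 2 := (v3 H)
  have g11 : ¬ e 4 (h + 2) 3 := (v4 H)
  have g12 : ¬ e 6 (h + 3) 4 := (v9 H G)
  have g13 : ¬ y 4 (h + 3) 3 := (fun t => ((H.iso.ry 3 (h + 3) 2 (by omega)).1 t).2.2.2.1 g1)
  have g14 : ¬ o 4 (h + 3) 3 := (fun t => ((H.iso.ro 3 (h + 3) 3 (by omega)).1 t).2.2.2.2.2.1 g1)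
  have g15 : ¬ o 3 (h + 2) 2 := (fun t => ((H.iso.ro 2 (h + 2) 2 (by omega)).1 t).2.1 g2)
  have g16 : ¬ o 4 (h + 2) 2 := (fun t => ((H.iso.ro 3 (h + 2) 2 (by omega)).1 t).2.2.2.2.2.1 g2)
  have g17 : ¬ y 3 (h + 2) 3 := ((H.iso.ro 2 (h + 2) 3 (by omega)).1 g3).2.1
  have g18 : ¬ x 4 (h + 3) 3 := (fun t => ((H.iso.rx 3 (h + 2) 3 (by omega)).1 t).2.2.2.2.1 g3)
  have g19 : y 6 (h + 3) 4 := by_contra fun t => hc ((H.iso.ro 5 (h + 3) 4 (by omega)).2 ⟨g8, t, g12, g5, g7, g4, (H.iso.me 5 (h + 3) 4 (by decide))⟩)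
  have g20 : ¬ y 5 (h + 3) 3 := (fun t => ((H.iso.ry 4 (h + 3) 2 (by omega)).1 t).2.2.2.2.1 g6)
  have g21 : ¬ o 5 (h + 3) 3 := ((H.iso.ry 5 (h + 3) 3 (by omega)).1 g19).2.2.2.2.1
  have g22 : e 4 (h + 3) 3 := by_contra fun t => g21 ((H.iso.ro 4 (h + 3) 3 (by omega)).2 ⟨g9, g20, (H.iso.me 5 (h + 3) 3 (by decide)), g14, g18, g13, t⟩)
  have g23 : ¬ y 4 (h + 2) 3 := ((H.iso.re 3 (h + 2) 2 (by omega)).1 g22).1
  have g24 : x 3 (h + 2) 2 := by_contra fun t => g23 ((H.iso.ry 3 (h + 2) 2 (by omega)).2 ⟨g16, g11, g10, g17, g15, (H.iso.me 3 (h + 2) 3 (by decide)), t⟩)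
  exact g24

theorem k4 (H : Hyp h e x y o) (G : x 7 (h + 5) 5) (hc : ¬ o 6 (h + 3) 4) : x 7 (h + 3) 4 := by
  have h4 := H.h4
  have g1 : ¬ y 5 (h + 3) 4 := (w4 H)
  have g2 : ¬ o 5 (h + 3) 4 := (w5 H)
  have g3 : ¬ x 5 (h + 3) 4 := (noX4 H (h + 3) (by have := H.h4; omega) (by have := H.h4; omega))
  have g4 : ¬ e 6 (h + 3) 5 := (r1 H (h + 3) (by have := H.h4; omega) (by have := H.h4; omega)).1
  have g5 : ¬ y 6 (h + 3) 5 := (r1 H (h + 3) (by have := H.h4; omega) (by have := H.h4; omega)).2.1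
  have g6 : ¬ y 7 (h + 3) 5 := (lineY H G (h + 3) (by have := H.h4; omega) (by have := H.h4; omega)).1
  have g7 : ¬ x 6 (h + 3) 4 := (r3 H (h + 3) (by have := H.h4; omega) (by have := H.h4; omega))
  have g8 : ¬ e 6 (h + 3) 4 := (v9 H G)
  have g9 : y 6 (h + 3) 4 := by_contra fun t => hc ((H.iso.ro 5 (h + 3) 4 (by omega)).2 ⟨g7, t, g8, g2, g3, g1, (H.iso.me 5 (h + 3) 4 (by decide))⟩)
  have g10 : ¬ o 7 (h + 3) 4 := (fun t => ((H.iso.ro 6 (h + 3) 4 (by omega)).1 t).2.2.2.2.2.1 g9)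
  have g11 : x 7 (h + 3) 4 := by_contra fun t => g6 ((H.iso.ry 6 (h + 3) 4 (by omega)).2 ⟨g10, (H.iso.me 7 (h + 3) 5 (by decide)), t, g5, hc, g4, g7⟩)
  exact g11

theorem k5 (H : Hyp h e x y o) (G : x 7 (h + 5) 5) : x 3 (h + 2) 2 := by
  by_cases hc : o 6 (h + 3) 4
  · exact k2 H G hc
  · exact k3 H G hc

/-- The out-line `m - 1` of the previous OUT row is complete down to `D = 2`. -/
theorem line2 (H : Hyp h e x y o) (G : x 7 (h + 5) 5) : ∀ i, 4 ≤ i → i ≤ h + 2 → x 3 i 2 := by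
  have key : ∀ t i, i + t = h + 2 → 4 ≤ i → x 3 i 2 := by
    intro t
    induction t with
    | zero =>
      intro i h1 _
      obtain rfl : i = h + 2 := by omega
      exact k5 H G
    | succ t ih =>
      intro i h1 h2
      have g1 := (H.iso.rx 2 i 2 (by omega)).1 (ih (i + 1) (by omega) (by omega))
      have g2 := H.c1 i h2 (by omega)
      exact by_contra fun u => g1.1 ((H.iso.ro 2 i 2 (by omega)).2 ⟨u, g1.2.2.1,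
        H.iso.me 3 i 2 (by decide), g2.2.2.2, g2.2.1, g2.2.2.1, g2.1⟩)
  intro i h1 h2
  exact key (h + 2 - i) i (by omega) h1

/-- Case I: the `x`-signal of the row `m` of the IN row comes from the diagonal. -/
theorem line3 (H : Hyp h e x y o) (G : x 7 (h + 5) 5) (hc : o 6 (h + 3) 4) : ∀ i, 4 ≤ i → i ≤ h + 2 → x 5 i 3 := by
  have key : ∀ t i, i + t = h + 2 → 4 ≤ i → x 5 i 3 := by
    intro t
    induction t with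
    | zero =>
      intro i h1 _
      obtain rfl : i = h + 2 := by omega
      exact k1 H G hc
    | succ t ih =>
      intro i h1 h2
      obtain ⟨s, rfl⟩ : ∃ s, i = s + 1 := ⟨i - 1, by omega⟩
      have g1 := (H.iso.rx 4 (s + 1) 3 (by omega)).1 (ih (s + 1 + 1) (by omega) (by omega))
      have a1 := lineM H s (by omega) (by omega)
      have a2 := lineM H (s + 1) (by omega) (by omega)
      have a3 := line2 H G (s + 1) h2 (by omega)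
      exact by_contra fun u => g1.1 ((H.iso.ro 4 (s + 1) 3 (by omega)).2 ⟨u, g1.2.2.1,
        H.iso.me 5 (s + 1) 3 (by decide),
        fun v => ((H.iso.ro 3 (s + 1) 3 (by omega)).1 v).2.2.2.1 a2,
        fun v => ((H.iso.rx 3 s 3 (by omega)).1 v).2.2.2.2.1 a1,
        fun v => ((H.iso.ry 3 (s + 1) 2 (by omega)).1 v).2.2.2.2.2.2 a3,
        fun v => ((H.iso.re 3 s 2 (by omega)).1 v).2.2.2.2.2.1 a3⟩)
  intro i h1 h2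
  exact key (h + 2 - i) i (by omega) h1

/-- Case II: the out-line `m + 1` of the OUT row. -/
theorem line4 (H : Hyp h e x y o) (G : x 7 (h + 5) 5) (hc : ¬ o 6 (h + 3) 4) : ∀ i, 6 ≤ i → i ≤ h + 3 → x 7 i 4 := by
  have key : ∀ t i, i + t = h + 3 → 6 ≤ i → x 7 i 4 := by
    intro t
    induction t with
    | zero =>
      intro i h1 _
      obtain rfl : i = h + 3 := by omega
      exact k4 H G hc
    | succ t ih =>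
      intro i h1 h2
      have g1 := (H.iso.rx 6 i 4 (by omega)).1 (ih (i + 1) (by omega) (by omega))
      have a1 := r1 H i h2 (by omega)
      have a2 := (lineY H G i h2 (by omega)).1
      have a3 := r3 H i h2 (by omega)
      exact by_contra fun u => a2 ((H.iso.ry 6 i 4 (by omega)).2 ⟨g1.1,
        H.iso.me 7 i 5 (by decide), u, a1.2.1, g1.2.2.2.2.1, a1.1, a3⟩)
  intro i h1 h2
  exact key (h + 3 - i) i (by omega) h1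

theorem z1 (H : Hyp h e x y o) (G : x 7 (h + 5) 5) (hq : x 5 4 3) : False := by
  have g1 : y 5 4 4 := (u2 H G)
  exact (((H.iso.ry 4 4 3 (by omega)).1 g1).2.2.1) hq

theorem z3 (H : Hyp h e x y o) (G : x 7 (h + 5) 5) : ¬ y 5 3 3 := by
  intro hh
  have g1 : ¬ x 3 3 2 := (t3 H)
  have g2 : ¬ y 3 3 3 := (t4 H)
  have g3 : x 3 4 2 := (line2 H G 4 (by omega) (by have := H.h4; omega))
  have g4 : ¬ o 3 3 2 := ((H.iso.rx 2 3 2 (by omega)).1 g3).1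
  have g5 : ¬ y 4 3 3 := ((H.iso.ry 4 3 2 (by omega)).1 hh).2.2.2.1
  have g6 : ¬ o 4 3 2 := ((H.iso.ry 4 3 2 (by omega)).1 hh).2.2.2.2.1
  have g7 : ¬ e 4 3 3 := ((H.iso.ry 4 3 2 (by omega)).1 hh).2.2.2.2.2.1
  have g8 : ¬ x 4 3 2 := ((H.iso.ry 4 3 2 (by omega)).1 hh).2.2.2.2.2.2
  exact g5 ((H.iso.ry 3 3 2 (by omega)).2 ⟨g6, g7, g8, g2, g4, (H.iso.me 3 3 3 (by decide)), g1⟩)

theorem z4 (H : Hyp h e x y o) (G : x 7 (h + 5) 5) : ¬ y 4 3 2 := by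
  intro hh
  have g1 : ¬ y 2 3 2 := H.c7
  have g2 : ¬ o 2 3 1 := H.c9
  have g3 : o 1 2 1 := (t1 H)
  have g4 : x 3 4 2 := (line2 H G 4 (by omega) (by have := H.h4; omega))
  have g5 : ¬ x 2 3 1 := (fun t => ((H.iso.rx 1 2 1 (by omega)).1 t).2.2.2.2.1 g3)
  have g6 : ¬ e 2 3 2 := (fun t => ((H.iso.re 1 2 1 (by omega)).1 t).2.2.2.2.2.2 g3)
  have g7 : ¬ y 3 3 2 := ((H.iso.rx 2 3 2 (by omega)).1 g4).2.2.1
  have g8 : ¬ o 3 3 1 := ((H.iso.ry 3 3 1 (by omega)).1 hh).2.2.2.2.1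
  have g9 : ¬ x 3 3 1 := ((H.iso.ry 3 3 1 (by omega)).1 hh).2.2.2.2.2.2
  exact g7 ((H.iso.ry 2 3 1 (by omega)).2 ⟨g8, (H.iso.me 3 3 2 (by decide)), g9, g1, g2, g6, g5⟩)

theorem z2 (H : Hyp h e x y o) (G : x 7 (h + 5) 5) (hq : x 7 6 4) : False := by
  have g1 : ¬ y 2 3 2 := H.c7
  have g2 : ¬ o 2 3 1 := H.c9
  have g3 : o 1 2 1 := (t1 H)
  have g4 : ¬ x 3 3 2 := (t3 H)
  have g5 : o 3 3 3 := (lineM H 3 (by have := H.h4; omega) (by have := H.h4; omega))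
  have g6 : o 3 4 3 := (lineM H 4 (by have := H.h4; omega) (by have := H.h4; omega))
  have g7 : ¬ o 6 5 4 := (r4 H 5 (by have := H.h4; omega) (by have := H.h4; omega))
  have g8 : e 6 5 5 := (u1 H G)
  have g9 : y 5 4 4 := (u2 H G)
  have g10 : x 3 4 2 := (line2 H G 4 (by omega) (by have := H.h4; omega))
  have g11 : ¬ y 5 3 3 := (z3 H G)
  have g12 : ¬ y 4 3 2 := (z4 H G)
  have g13 : ¬ x 2 3 1 := (fun t => ((H.iso.rx 1 2 1 (by omega)).1 t).2.2.2.2.1 g3)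
  have g14 : ¬ e 2 3 2 := (fun t => ((H.iso.re 1 2 1 (by omega)).1 t).2.2.2.2.2.2 g3)
  have g15 : ¬ o 4 3 3 := (fun t => ((H.iso.ro 3 3 3 (by omega)).1 t).2.2.2.1 g5)
  have g16 : ¬ x 4 4 3 := (fun t => ((H.iso.rx 3 3 3 (by omega)).1 t).2.2.2.2.1 g5)
  have g17 : ¬ o 4 4 3 := (fun t => ((H.iso.ro 3 4 3 (by omega)).1 t).2.2.2.1 g6)
  have g18 : ¬ x 6 5 4 := (fun t => ((H.iso.re 5 4 4 (by omega)).1 g8).1 ((H.iso.sym 6 5 4).1 t))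
  have g19 : ¬ o 6 4 4 := ((H.iso.re 5 4 4 (by omega)).1 g8).2.2.1
  have g20 : ¬ o 5 4 3 := ((H.iso.ry 4 4 3 (by omega)).1 g9).1
  have g21 : ¬ x 5 4 3 := ((H.iso.ry 4 4 3 (by omega)).1 g9).2.2.1
  have g22 : ¬ y 6 4 4 := (fun t => ((H.iso.ry 5 4 3 (by omega)).1 t).2.2.2.1 g9)
  have g23 : ¬ e 6 5 4 := (fun t => ((H.iso.re 5 4 3 (by omega)).1 t).2.2.2.2.1 g9)
  have g24 : ¬ o 3 3 2 := ((H.iso.rx 2 3 2 (by omega)).1 g10).1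
  have g25 : ¬ y 3 3 2 := ((H.iso.rx 2 3 2 (by omega)).1 g10).2.2.1
  have g26 : ¬ x 4 4 2 := (fun t => ((H.iso.rx 3 3 2 (by omega)).1 t).2.2.2.1 g10)
  have g27 : ¬ e 4 4 3 := (fun t => ((H.iso.re 3 3 2 (by omega)).1 t).2.2.2.2.2.1 g10)
  have g28 : ¬ y 4 4 3 := (fun t => ((H.iso.ry 3 4 2 (by omega)).1 t).2.2.2.2.2.2 g10)
  have g29 : ¬ o 7 5 4 := ((H.iso.rx 6 5 4 (by omega)).1 hq).1
  have g30 : ¬ y 7 5 4 := ((H.iso.rx 6 5 4 (by omega)).1 hq).2.2.1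
  have g31 : ¬ y 6 5 4 := ((H.iso.rx 6 5 4 (by omega)).1 hq).2.2.2.2.2.2
  have g32 : y 5 4 3 := by_contra fun t => g20 ((H.iso.ro 4 4 3 (by omega)).2 ⟨g21, t, (H.iso.me 5 4 3 (by decide)), g17, g16, g28, g27⟩)
  have g33 : x 7 5 4 := by_contra fun t => g29 ((H.iso.ro 6 5 4 (by omega)).2 ⟨t, g30, (H.iso.me 7 5 4 (by decide)), g7, g18, g31, g23⟩)
  have g34 : ¬ x 5 4 2 := ((H.iso.ry 4 4 2 (by omega)).1 g32).2.2.1
  have g35 : ¬ o 7 4 4 := ((H.iso.rx 6 4 4 (by omega)).1 g33).1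
  have g36 : ¬ y 7 4 4 := ((H.iso.rx 6 4 4 (by omega)).1 g33).2.2.1
  have g37 : e 6 4 4 := by_contra fun t => g35 ((H.iso.ro 6 4 4 (by omega)).2 ⟨(fun t => g36 ((H.iso.sym 7 4 4).1 t)), g36, (H.iso.me 7 4 4 (by decide)), g19, (fun t => g22 ((H.iso.sym 6 4 4).1 t)), g22, t⟩)
  have g38 : ¬ o 5 3 3 := ((H.iso.re 5 3 3 (by omega)).1 g37).2.2.2.2.2.2
  have g39 : y 4 3 3 := by_contra fun t => g21 ((H.iso.rx 4 3 3 (by omega)).2 ⟨g38, (H.iso.me 5 4 3 (by decide)), g11, g16, g15, g27, t⟩)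
  have g40 : ¬ o 4 3 2 := ((H.iso.ry 3 3 2 (by omega)).1 g39).1
  have g41 : ¬ x 4 3 2 := ((H.iso.ry 3 3 2 (by omega)).1 g39).2.2.1
  have g42 : e 4 3 2 := by_contra fun t => g40 ((H.iso.ro 3 3 2 (by omega)).2 ⟨g41, g12, t, g24, g4, g25, (H.iso.me 3 3 2 (by decide))⟩)
  have g43 : ¬ x 3 3 1 := ((H.iso.re 3 2 1 (by omega)).1 g42).2.2.2.2.2.1
  have g44 : ¬ y 5 3 2 := (fun t => ((H.iso.ry 4 3 1 (by omega)).1 t).2.2.2.2.2.1 g42)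
  have g45 : ¬ o 5 3 2 := (fun t => ((H.iso.ro 4 3 2 (by omega)).1 t).2.2.2.2.2.2 g42)
  have g46 : o 3 3 1 := by_contra fun t => g25 ((H.iso.ry 2 3 1 (by omega)).2 ⟨t, (H.iso.me 3 3 2 (by decide)), g43, g1, g2, g14, g13⟩)
  have g47 : e 4 4 2 := by_contra fun t => g34 ((H.iso.rx 4 3 2 (by omega)).2 ⟨g45, (H.iso.me 5 4 2 (by decide)), g44, g26, g40, t, g12⟩)
  exact ((fun t => ((H.iso.re 3 3 1 (by omega)).1 t).2.2.2.2.2.2 g46)) g47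

/-- `D = h` is impossible: the out-line `c' - h` is not complete. -/
theorem noth (H : Hyp h e x y o) : ¬ x 7 (h + 5) 5 := by
  intro G
  have h4 := H.h4
  by_cases hc : o 6 (h + 3) 4
  · exact z1 H G (line3 H G hc 4 (by omega) (by omega))
  · exact z2 H G (line4 H G hc 6 (by omega) (by omega))

end Pool.Agent.SNT.Noth
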