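import Pool.Agent.SNT.Noth
import Pool.Agent.SNT.Near
import Pool.Agent.SNT.BirthE

set_option autoImplicit false

/-! NOTH for the four counter rule: in a window of an exact front of an isolated even layer `A`,
`h = A / 6 ≥ 4`, the out-line `c' - h` of the OUT row is not complete.  Rows `b1, ..., b1 + 7`,
`b1 + 1` and `b1 + 5` are IN rows, `b1 + 3` and `b1 + 7` are OUT rows; the lead of the first IN row
is `n0 + 2`, the lead of the OUT row `b1 + 7` is `c' = n0 + h + 5`. -/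

namespace Pool.Agent.SNT

variable {f : ℕ → ℕ → ℕ → ℕ → Prop}

/-- The rule of an isolated layer. -/
theorem iso_iff (hf : Rule f) {A B X Y : ℕ}
    (low : ∀ q r s : ℕ, q ≤ 1 → r ≤ 1 → s ≤ 1 → 1 ≤ A → ¬ f (A - 1) (B + q) (X + r) (Y + s)) :
    f A (B + 1) (X + 1) (Y + 1) ↔
      ¬ (A % 2 = 0 ∧ (B + 1) % 2 = 0 ∧ (X + 1) % 2 = 0 ∧ (Y + 1) % 2 = 0) ∧
      ¬ f A (B + 1) X (Y + 1) ∧ ¬ f A (B + 1) (X + 1) Y ∧ ¬ f A (B + 1) X Y ∧
      ¬ f A B (X + 1) (Y + 1) ∧ ¬ f A B X (Y + 1) ∧ ¬ f A B (X + 1) Y ∧ ¬ f A B X Y := by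
  constructor
  · intro h
    refine ⟨hf.not_allEven h, ?_, ?_, ?_, ?_, ?_, ?_, ?_⟩
    · exact hf.down h (p := 0) (q := 0) (r := 1) (s := 0) (by omega) (by omega) (by omega)
        (by omega) (by omega) (by omega) (by omega) (by omega) (by omega)
    · exact hf.down h (p := 0) (q := 0) (r := 0) (s := 1) (by omega) (by omega) (by omega)
        (by omega) (by omega) (by omega) (by omega) (by omega) (by omega)
    · exact hf.down h (p := 0) (q := 0) (r := 1) (s := 1) (by omega) (by omega) (by omega)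
        (by omega) (by omega) (by omega) (by omega) (by omega) (by omega)
    · exact hf.down h (p := 0) (q := 1) (r := 0) (s := 0) (by omega) (by omega) (by omega)
        (by omega) (by omega) (by omega) (by omega) (by omega) (by omega)
    · exact hf.down h (p := 0) (q := 1) (r := 1) (s := 0) (by omega) (by omega) (by omega)
        (by omega) (by omega) (by omega) (by omega) (by omega) (by omega)
    · exact hf.down h (p := 0) (q := 1) (r := 0) (s := 1) (by omega) (by omega) (by omega)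
        (by omega) (by omega) (by omega) (by omega) (by omega) (by omega)
    · exact hf.down h (p := 0) (q := 1) (r := 1) (s := 1) (by omega) (by omega) (by omega)
        (by omega) (by omega) (by omega) (by omega) (by omega) (by omega)
  · rintro ⟨h0, h1, h2, h3, h4, h5, h6, h7⟩
    rw [hf]
    refine ⟨h0, ?_⟩
    intro p q r s hp hq hr hs hsum hpa hqb hrx hsy
    have hp' : p = 0 ∨ p = 1 := by omega
    have hq' : q = 0 ∨ q = 1 := by omega
    have hr' : r = 0 ∨ r = 1 := by omega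
    have hs' : s = 0 ∨ s = 1 := by omega
    rcases hp' with rfl | rfl
    · rcases hq' with rfl | rfl
      · rcases hr' with rfl | rfl
        · rcases hs' with rfl | rfl
          · omega
          · exact h2
        · rcases hs' with rfl | rfl
          · exact h1
          · exact h3
      · rcases hr' with rfl | rfl
        · rcases hs' with rfl | rfl
          · exact h4
          · exact h6
        · rcases hs' with rfl | rfl
          · exact h5
          · exact h7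
    · have e1 : B + 1 - q = B + (1 - q) := by omega
      have e2 : X + 1 - r = X + (1 - r) := by omega
      have e3 : Y + 1 - s = Y + (1 - s) := by omega
      rw [e1, e2, e3]
      exact low _ _ _ (by omega) (by omega) (by omega) hpa

/-- The window of the exact front used for NOTH. -/
structure NWin (f : ℕ → ℕ → ℕ → ℕ → Prop) (A b1 n0 : ℕ) : Prop where
  low : ∀ k x y, k ≤ 7 → y ≤ x → x ≤ y + 2 * (A / 6) + 8 → 2 * n0 ≤ x → ¬ f (A - 1) (b1 + k) x y
  p3 : ∀ x y, y ≤ x → x < y + 2 * (A / 6) → 2 * n0 + 6 ≤ y + 2 * (A / 6) →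
    (f A b1 x y ↔ Fst A b1 x y)
  t0 : ¬ f A (b1 + 1) (2 * n0 + 5) (2 * n0 + 4)
  s0 : ∀ x y, y ≤ x → x < y + 2 * (A / 6) → 2 * n0 + 6 ≤ x →
    (f A (b1 + 1) x y ↔ Fst A (b1 + 1) x y)
  s1 : ∀ x y, y ≤ x → x < y + 2 * (A / 6) → 2 * n0 + 7 ≤ x →
    (f A (b1 + 2) x y ↔ Fst A (b1 + 2) x y)
  x1 : ∀ x y, y ≤ x → y + 2 * (A / 6) ≤ x → 2 * n0 + 9 ≤ x →
    (f A (b1 + 2) x y ↔ Fst A (b1 + 2) x y)
  s2 : ∀ x y, y ≤ x → x < y + 2 * (A / 6) → 2 * n0 + 8 ≤ y →
    (f A (b1 + 3) x y ↔ Fst A (b1 + 3) x y)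
  x2 : ∀ x y, y ≤ x → y + 2 * (A / 6) ≤ x → 2 * n0 + 11 ≤ x →
    (f A (b1 + 3) x y ↔ Fst A (b1 + 3) x y)
  s3 : ∀ x y, y ≤ x → x < y + 2 * (A / 6) → 2 * n0 + 10 ≤ y →
    (f A (b1 + 4) x y ↔ Fst A (b1 + 4) x y)
  dg : f A (b1 + 4) (2 * n0 + 9) (2 * n0 + 9)
  t4 : ¬ f A (b1 + 5) (2 * (n0 + A / 6 + 4) + 1) (2 * (n0 + A / 6 + 4))
  x4 : ∀ x y, y ≤ x → y + 2 * (A / 6) ≤ x → 2 * (n0 + A / 6 + 4) + 3 ≤ x →
    (f A (b1 + 5) x y ↔ Fst A (b1 + 5) x y)
  s5 : ∀ x y, y ≤ x → x < y + 2 * (A / 6) → 2 * (n0 + A / 6 + 4) + 3 ≤ x →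
    (f A (b1 + 6) x y ↔ Fst A (b1 + 6) x y)

/-- The block functions of the window. -/
def bE (f : ℕ → ℕ → ℕ → ℕ → Prop) (A b1 n0 : ℕ) : ℕ → ℕ → ℕ → Prop :=
  fun k i j => f A (b1 + k) (2 * (n0 + i)) (2 * (n0 + j))

/-- The block functions of the window. -/
def bX (f : ℕ → ℕ → ℕ → ℕ → Prop) (A b1 n0 : ℕ) : ℕ → ℕ → ℕ → Prop :=
  fun k i j => f A (b1 + k) (2 * (n0 + i)) (2 * (n0 + j) + 1)

/-- The block functions of the window. -/
def bY (f : ℕ → ℕ → ℕ → ℕ → Prop) (A b1 n0 : ℕ) : ℕ → ℕ → ℕ → Prop :=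
  fun k i j => f A (b1 + k) (2 * (n0 + i) + 1) (2 * (n0 + j))

/-- The block functions of the window. -/
def bO (f : ℕ → ℕ → ℕ → ℕ → Prop) (A b1 n0 : ℕ) : ℕ → ℕ → ℕ → Prop :=
  fun k i j => f A (b1 + k) (2 * (n0 + i) + 1) (2 * (n0 + j) + 1)

theorem iso_win (hf : Rule f) {A b1 n0 : ℕ} (hA : A % 2 = 0)
    (hb4 : (A + b1) % 4 = 1) (W : NWin f A b1 n0) :
    Noth.Iso (A / 6) (bE f A b1 n0) (bX f A b1 n0) (bY f A b1 n0) (bO f A b1 n0) := by
  have low : ∀ k i j, k ≤ 6 → j ≤ i → i ≤ j + A / 6 + 3 → ∀ X Y, 2 * (n0 + i) ≤ X →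
      X ≤ 2 * (n0 + i) + 1 → 2 * (n0 + j) ≤ Y → Y ≤ 2 * (n0 + j) + 1 → (i = j → X = Y) →
      (X = 2 * (n0 + i) + 1 ∨ Y = 2 * (n0 + j) ∨ j < i) →
      ∀ q r s : ℕ, q ≤ 1 → r ≤ 1 → s ≤ 1 → 1 ≤ A →
      ¬ f (A - 1) (b1 + k + q) (X + r) (Y + s) := by
    intro k i j hk hji hij X Y hX1 hX2 hY1 hY2 hXY hor q r s hq hr hs _
    rw [Nat.add_assoc b1 k q]
    rcases Nat.lt_or_ge (X + r) (Y + s) with h1 | h1
    · rw [hf.swap_xy]
      exact W.low (k + q) (Y + s) (X + r) (by omega) (by omega) (by omega) (by omega)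
    · exact W.low (k + q) (X + r) (Y + s) (by omega) (by omega) (by omega) (by omega)
  refine ⟨?_, ?_, ?_, ?_, ?_, ?_⟩
  · intro k i j hk
    have := iso_iff hf (A := A) (B := b1 + k) (X := 2 * (n0 + i) + 1) (Y := 2 * (n0 + j)) ?_
    · exact this.trans ⟨fun g => g.2, fun g => ⟨by omega, g⟩⟩
    · intro q r s hq hr hs hA1
      rw [Nat.add_assoc b1 k q]
      exact W.low (k + q) _ _ (by omega) (by omega) (by omega) (by omega)
  · intro k i j hk
    have := iso_iff hf (A := A) (B := b1 + k) (X := 2 * (n0 + i)) (Y := 2 * (n0 + j) + 1) ?_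
    · exact this.trans ⟨fun g => ⟨g.2.2.1, g.2.1, g.2.2.2.1, g.2.2.2.2.1, g.2.2.2.2.2.2.1,
        g.2.2.2.2.2.1, g.2.2.2.2.2.2.2⟩, fun g => ⟨by omega, g.2.1, g.1, g.2.2.1, g.2.2.2.1,
        g.2.2.2.2.2.1, g.2.2.2.2.1, g.2.2.2.2.2.2⟩⟩
    · intro q r s hq hr hs hA1
      rw [Nat.add_assoc b1 k q]
      exact W.low (k + q) _ _ (by omega) (by omega) (by omega) (by omega)
  · intro k i j hk
    have := iso_iff hf (A := A) (B := b1 + k) (X := 2 * (n0 + i)) (Y := 2 * (n0 + j))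
      (low k i j hk.1 hk.2.1 hk.2.2 _ _ (by omega) (by omega) (by omega) (by omega) (by omega)
        (by omega))
    exact this.trans ⟨fun g => ⟨g.2.1, g.2.2.1, g.2.2.2.1, g.2.2.2.2.1, g.2.2.2.2.2.1,
      g.2.2.2.2.2.2.1, g.2.2.2.2.2.2.2⟩, fun g => ⟨by omega, g.1, g.2.1, g.2.2.1, g.2.2.2.1,
      g.2.2.2.2.1, g.2.2.2.2.2.1, g.2.2.2.2.2.2⟩⟩
  · intro k i j hk
    have := iso_iff hf (A := A) (B := b1 + k) (X := 2 * (n0 + i) + 1) (Y := 2 * (n0 + j) + 1)
      (low k i j hk.1 hk.2.2.1 hk.2.2.2 _ _ (by omega) (by omega) (by omega) (by omega) (by omega)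
        (by omega))
    exact this.trans ⟨fun g => g.2, fun g => ⟨by omega, g⟩⟩
  · intro k i j hk hff
    exact hf.not_allEven hff ⟨hA, by omega, by omega, by omega⟩
  · intro k i j
    exact hf.swap_xy _ _ _ _

set_option maxHeartbeats 4000000 in
/-- The static cells used in NOTH. -/
theorem hyp_win (hf : Rule f) {A b1 n0 : ℕ} (hA : A % 2 = 0) (hh : 4 ≤ A / 6)
    (hb4 : (A + b1) % 4 = 1) (hb : 2 * A + 40 ≤ b1) (W : NWin f A b1 n0) :
    Noth.Hyp (A / 6) (bE f A b1 n0) (bX f A b1 n0) (bY f A b1 n0) (bO f A b1 n0) := by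
  have iso := iso_win hf hA hb4 W
  obtain ⟨h, hh'⟩ : ∃ h, h = A / 6 := ⟨_, rfl⟩
  rw [← hh'] at iso ⊢
  have P3 : ∀ x y, y ≤ x → x < y + 2 * h → 2 * n0 + 6 ≤ y + 2 * h →
      (f A (b1 + 0) x y ↔ NF h 1 x y) := by
    intro x y h0 h1 h2
    have h3 := (W.p3 x y h0 (by omega) (by omega)).trans (Fst_near hA (by omega))
    rw [← hh', hb4] at h3
    exact h3
  have S0 : ∀ x y, y ≤ x → x < y + 2 * h → 2 * n0 + 6 ≤ x →
      (f A (b1 + 1) x y ↔ NF h 2 x y) := by
    intro x y h0 h1 h2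
    have h3 := (W.s0 x y h0 (by omega) (by omega)).trans (Fst_near hA (by omega))
    rw [← hh', show (A + (b1 + 1)) % 4 = 2 by omega] at h3
    exact h3
  have S1 : ∀ x y, y ≤ x → x < y + 2 * h → 2 * n0 + 7 ≤ x →
      (f A (b1 + 2) x y ↔ NF h 3 x y) := by
    intro x y h0 h1 h2
    have h3 := (W.s1 x y h0 (by omega) (by omega)).trans (Fst_near hA (by omega))
    rw [← hh', show (A + (b1 + 2)) % 4 = 3 by omega] at h3
    exact h3
  have X1 : ∀ x y, y ≤ x → y + 2 * h ≤ x ∧ x ≤ y + 2 * h + 12 → 2 * n0 + 9 ≤ x →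
      (f A (b1 + 2) x y ↔ NF h 3 x y) := by
    intro x y h0 h1 h2
    have h3 := (W.x1 x y h0 (by omega) (by omega)).trans (Fst_near hA (by omega))
    rw [← hh', show (A + (b1 + 2)) % 4 = 3 by omega] at h3
    exact h3
  have S2 : ∀ x y, y ≤ x → x < y + 2 * h → 2 * n0 + 8 ≤ y →
      (f A (b1 + 3) x y ↔ NF h 0 x y) := by
    intro x y h0 h1 h2
    have h3 := (W.s2 x y h0 (by omega) (by omega)).trans (Fst_near hA (by omega))
    rw [← hh', show (A + (b1 + 3)) % 4 = 0 by omega] at h3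
    exact h3
  have X2 : ∀ x y, y ≤ x → y + 2 * h ≤ x ∧ x ≤ y + 2 * h + 12 → 2 * n0 + 11 ≤ x →
      (f A (b1 + 3) x y ↔ NF h 0 x y) := by
    intro x y h0 h1 h2
    have h3 := (W.x2 x y h0 (by omega) (by omega)).trans (Fst_near hA (by omega))
    rw [← hh', show (A + (b1 + 3)) % 4 = 0 by omega] at h3
    exact h3
  have S3 : ∀ x y, y ≤ x → x < y + 2 * h → 2 * n0 + 10 ≤ y →
      (f A (b1 + 4) x y ↔ NF h 1 x y) := by
    intro x y h0 h1 h2
    have h3 := (W.s3 x y h0 (by omega) (by omega)).trans (Fst_near hA (by omega))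
    rw [← hh', show (A + (b1 + 4)) % 4 = 1 by omega] at h3
    exact h3
  have h4 : 4 ≤ h := by omega
  refine
    { iso := iso, h4 := h4, a1 := ?_, a2 := ?_, a3 := ?_, a4 := ?_, a5 := ?_, a6 := ?_, b1 := ?_,
      b2 := ?_, c1 := ?_, c2 := ?_, c3 := ?_, c4 := ?_, c5 := ?_, c6 := ?_, c7 := ?_, c8 := ?_,
      c9 := ?_, c10 := ?_, c11 := ?_, d1 := ?_, d2 := ?_, d3 := ?_, d4 := ?_, d5 := ?_, d6 := ?_,
      d7 := ?_, d8 := ?_, d9 := ?_, d10 := ?_, d11 := ?_, d12 := ?_, d13 := ?_, d14 := ?_,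
      d15 := ?_, e1 := ?_, e2 := ?_, f1 := ?_ }
  · show f A (b1 + 0) _ _
    rw [P3 _ _ (by omega) (by omega) (by omega)]; unfold NF; omega
  · show f A (b1 + 0) _ _
    rw [P3 _ _ (by omega) (by omega) (by omega)]; unfold NF; omega
  · show ¬ f A (b1 + 0) _ _
    rw [P3 _ _ (by omega) (by omega) (by omega)]; unfold NF; omega
  · show ¬ f A (b1 + 0) _ _
    rw [P3 _ _ (by omega) (by omega) (by omega)]; unfold NF; omega
  · show ¬ f A (b1 + 0) _ _
    rw [P3 _ _ (by omega) (by omega) (by omega)]; unfold NF; omega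
  · show ¬ f A (b1 + 0) _ _
    rw [P3 _ _ (by omega) (by omega) (by omega)]; unfold NF; omega
  · exact W.t0
  · show ¬ f A (b1 + 1) _ _
    rw [S0 _ _ (by omega) (by omega) (by omega)]; unfold NF; omega
  · intro i h1 h2
    refine ⟨?_, ?_, ?_, ?_⟩
    · show ¬ f A (b1 + 2) _ _
      rw [S1 _ _ (by omega) (by omega) (by omega)]; unfold NF; omega
    · show ¬ f A (b1 + 2) _ _
      rw [S1 _ _ (by omega) (by omega) (by omega)]; unfold NF; omega
    · show ¬ f A (b1 + 2) _ _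
      rw [S1 _ _ (by omega) (by omega) (by omega)]; unfold NF; omega
    · show ¬ f A (b1 + 2) _ _
      rw [S1 _ _ (by omega) (by omega) (by omega)]; unfold NF; omega
  · intro i h1 h2
    refine ⟨?_, ?_, ?_, ?_⟩
    · show ¬ f A (b1 + 2) _ _
      rw [S1 _ _ (by omega) (by omega) (by omega)]; unfold NF; omega
    · show ¬ f A (b1 + 2) _ _
      rw [S1 _ _ (by omega) (by omega) (by omega)]; unfold NF; omega
    · show ¬ f A (b1 + 2) _ _
      rw [S1 _ _ (by omega) (by omega) (by omega)]; unfold NF; omega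
    · show ¬ f A (b1 + 2) _ _
      rw [S1 _ _ (by omega) (by omega) (by omega)]; unfold NF; omega
  · show ¬ f A (b1 + 2) _ _
    rw [X1 _ _ (by omega) (by omega) (by omega)]; unfold NF; omega
  · show ¬ f A (b1 + 2) _ _
    rw [S1 _ _ (by omega) (by omega) (by omega)]; unfold NF; omega
  · show ¬ f A (b1 + 2) _ _
    rw [S1 _ _ (by omega) (by omega) (by omega)]; unfold NF; omega
  · show ¬ f A (b1 + 2) _ _
    rw [S1 _ _ (by omega) (by omega) (by omega)]; unfold NF; omega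
  · show ¬ f A (b1 + 2) _ _
    rw [S1 _ _ (by omega) (by omega) (by omega)]; unfold NF; omega
  · show ¬ f A (b1 + 2) _ _
    rw [S1 _ _ (by omega) (by omega) (by omega)]; unfold NF; omega
  · show ¬ f A (b1 + 2) _ _
    rw [S1 _ _ (by omega) (by omega) (by omega)]; unfold NF; omega
  · show f A (b1 + 2) _ _
    rw [X1 _ _ (by omega) (by omega) (by omega)]; unfold NF; omega
  · intro i h1 h2
    refine ⟨?_, ?_, ?_, ?_⟩
    · show ¬ f A (b1 + 2) _ _
      rw [S1 _ _ (by omega) (by omega) (by omega)]; unfold NF; omega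
    · show ¬ f A (b1 + 2) _ _
      rw [S1 _ _ (by omega) (by omega) (by omega)]; unfold NF; omega
    · show ¬ f A (b1 + 2) _ _
      rw [S1 _ _ (by omega) (by omega) (by omega)]; unfold NF; omega
    · show ¬ f A (b1 + 2) _ _
      rw [S1 _ _ (by omega) (by omega) (by omega)]; unfold NF; omega
  · intro i h1 h2
    show f A (b1 + 3) _ _
    rw [S2 _ _ (by omega) (by omega) (by omega)]; unfold NF; omega
  · intro i h1 h2
    show ¬ f A (b1 + 3) _ _
    rw [S2 _ _ (by omega) (by omega) (by omega)]; unfold NF; omega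
  · show f A (b1 + 3) _ _
    rw [X2 _ _ (by omega) (by omega) (by omega)]; unfold NF; omega
  · refine ⟨?_, ?_, ?_, ?_⟩
    · show ¬ f A (b1 + 3) _ _
      rw [X2 _ _ (by omega) (by omega) (by omega)]; unfold NF; omega
    · show ¬ f A (b1 + 3) _ _
      rw [X2 _ _ (by omega) (by omega) (by omega)]; unfold NF; omega
    · show ¬ f A (b1 + 3) _ _
      rw [X2 _ _ (by omega) (by omega) (by omega)]; unfold NF; omega
    · show ¬ f A (b1 + 3) _ _
      rw [X2 _ _ (by omega) (by omega) (by omega)]; unfold NF; omega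
  · show f A (b1 + 3) _ _
    rw [X2 _ _ (by omega) (by omega) (by omega)]; unfold NF; omega
  · refine ⟨?_, ?_, ?_, ?_⟩
    · show ¬ f A (b1 + 3) _ _
      rw [X2 _ _ (by omega) (by omega) (by omega)]; unfold NF; omega
    · show ¬ f A (b1 + 3) _ _
      rw [X2 _ _ (by omega) (by omega) (by omega)]; unfold NF; omega
    · show ¬ f A (b1 + 3) _ _
      rw [X2 _ _ (by omega) (by omega) (by omega)]; unfold NF; omega
    · show ¬ f A (b1 + 3) _ _
      rw [X2 _ _ (by omega) (by omega) (by omega)]; unfold NF; omega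
  · show f A (b1 + 3) _ _
    rw [X2 _ _ (by omega) (by omega) (by omega)]; unfold NF; omega
  · show f A (b1 + 3) _ _
    rw [X2 _ _ (by omega) (by omega) (by omega)]; unfold NF; omega
  · show f A (b1 + 3) _ _
    rw [X2 _ _ (by omega) (by omega) (by omega)]; unfold NF; omega
  · show f A (b1 + 3) _ _
    rw [X2 _ _ (by omega) (by omega) (by omega)]; unfold NF; omega
  · show f A (b1 + 3) _ _
    rw [X2 _ _ (by omega) (by omega) (by omega)]; unfold NF; omega
  · show f A (b1 + 3) _ _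
    rw [X2 _ _ (by omega) (by omega) (by omega)]; unfold NF; omega
  · refine ⟨?_, ?_, ?_, ?_⟩
    · show ¬ f A (b1 + 3) _ _
      rw [X2 _ _ (by omega) (by omega) (by omega)]; unfold NF; omega
    · show ¬ f A (b1 + 3) _ _
      rw [X2 _ _ (by omega) (by omega) (by omega)]; unfold NF; omega
    · show ¬ f A (b1 + 3) _ _
      rw [X2 _ _ (by omega) (by omega) (by omega)]; unfold NF; omega
    · show ¬ f A (b1 + 3) _ _
      rw [X2 _ _ (by omega) (by omega) (by omega)]; unfold NF; omega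
  · refine ⟨?_, ?_, ?_, ?_⟩
    · show ¬ f A (b1 + 3) _ _
      rw [X2 _ _ (by omega) (by omega) (by omega)]; unfold NF; omega
    · show ¬ f A (b1 + 3) _ _
      rw [X2 _ _ (by omega) (by omega) (by omega)]; unfold NF; omega
    · show ¬ f A (b1 + 3) _ _
      rw [X2 _ _ (by omega) (by omega) (by omega)]; unfold NF; omega
    · show ¬ f A (b1 + 3) _ _
      rw [X2 _ _ (by omega) (by omega) (by omega)]; unfold NF; omega
  · show ¬ f A (b1 + 3) _ _
    rw [X2 _ _ (by omega) (by omega) (by omega)]; unfold NF; omega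
  · intro j h1 h2
    show f A (b1 + 4) _ _
    rcases Nat.lt_or_ge 4 j with h5 | h5
    · rw [S3 _ _ (by omega) (by omega) (by omega)]; unfold NF; omega
    · obtain rfl : j = 4 := by omega
      exact W.dg
  · intro i j h1 h2 h5
    refine ⟨?_, ?_, ?_, ?_⟩
    · show ¬ f A (b1 + 4) _ _
      rw [S3 _ _ (by omega) (by omega) (by omega)]; unfold NF; omega
    · show ¬ f A (b1 + 4) _ _
      rw [S3 _ _ (by omega) (by omega) (by omega)]; unfold NF; omega
    · show ¬ f A (b1 + 4) _ _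
      rw [S3 _ _ (by omega) (by omega) (by omega)]; unfold NF; omega
    · show ¬ f A (b1 + 4) _ _
      rw [S3 _ _ (by omega) (by omega) (by omega)]; unfold NF; omega
  · show ¬ f A (b1 + 5) _ _
    have := W.t4
    rw [← hh'] at this
    exact this

end Pool.Agent.SNT
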