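import Pool.Agent.SNT.NothF

set_option autoImplicit false

/-! NOTH and the strict birth lemma for an exact front (`FPer`) of an even layer `A`,
`A / 6 ≥ 4`. -/

namespace Pool.Agent.SNT

variable {f : ℕ → ℕ → ℕ → ℕ → Prop}

/-- The out-line `c' - h` of the OUT row `b1 + 7` is not complete. -/
theorem noth_win (hf : Rule f) {A b1 n0 : ℕ} (hA : A % 2 = 0) (hh : 4 ≤ A / 6)
    (hb4 : (A + b1) % 4 = 1) (hb : 2 * A + 40 ≤ b1) (W : NWin f A b1 n0) :
    ¬ f A (b1 + 7) (2 * (n0 + (A / 6 + 5))) (2 * (n0 + 5) + 1) :=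
  Noth.noth (hyp_win hf hA hh hb4 hb W)

/-- The cell `y(c', c' - h + 1)` of the OUT row `b1 + 7` is one. -/
theorem edge_win (hf : Rule f) {A b1 n0 : ℕ} (hA : A % 2 = 0) (hh : 4 ≤ A / 6)
    (hb4 : (A + b1) % 4 = 1) (hb : 2 * A + 40 ≤ b1) (W : NWin f A b1 n0) :
    f A (b1 + 7) (2 * (n0 + (A / 6 + 5)) + 1) (2 * (n0 + 6)) := by
  by_contra hcon
  have H := hyp_win hf hA hh hb4 hb W
  refine noth_win hf hA hh hb4 hb W (Noth.edge H ?_ ?_ ?_ ?_ hcon)
  · show ¬ f A (b1 + 5) _ _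
    rw [W.x4 _ _ (by omega) (by omega) (by omega), Fst_near hA (by omega),
      show (A + (b1 + 5)) % 4 = 2 by omega]
    unfold NF
    omega
  · show ¬ f A (b1 + 5) _ _
    rw [W.x4 _ _ (by omega) (by omega) (by omega), Fst_near hA (by omega),
      show (A + (b1 + 5)) % 4 = 2 by omega]
    unfold NF
    omega
  · show f A (b1 + 5) _ _
    rw [W.x4 _ _ (by omega) (by omega) (by omega), Fst_near hA (by omega),
      show (A + (b1 + 5)) % 4 = 2 by omega]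
    unfold NF
    omega
  · show ¬ f A (b1 + 6) _ _
    rw [W.s5 _ _ (by omega) (by omega) (by omega), Fst_near hA (by omega),
      show (A + (b1 + 6)) % 4 = 3 by omega]
    unfold NF
    omega

/-- Four periods of an exact front contain the window of NOTH. -/
theorem nwin_of_per (hf : Rule f) {A b n : ℕ} (hA : A % 2 = 0) (hb : (A + b) % 4 = 2)
    (hb2 : A + 20 ≤ b) (h4 : 4 ≤ A / 6) (hn : 2 ≤ n) (P0 : FPer f A b n)
    (P1 : FPer f A (b + 4) (n + A / 6 + 2)) (P2 : FPer f A (b + 8) (n + 2 * (A / 6) + 4))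
    (P3 : FPer f A (b + 12) (n + 3 * (A / 6) + 6)) :
    NWin f A (b + 7) (n + 2 * (A / 6) + 2) where
  low := by
    intro k x y hk hyx hd hx
    have e : k = 0 ∨ (1 ≤ k ∧ k ≤ 4) ∨ (5 ≤ k ∧ k ≤ 7) := by omega
    rcases e with rfl | ⟨h1, h2⟩ | ⟨h1, h2⟩
    · exact P1.low 3 x y (by omega) hyx hd (by omega)
    · have e : b + 7 + k = b + 8 + (k - 1) := by omega
      rw [e]
      exact P2.low _ x y (by omega) hyx hd (by omega)
    · have e : b + 7 + k = b + 12 + (k - 5) := by omega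
      rw [e]
      exact P3.low _ x y (by omega) hyx hd (by omega)
  p3 := by
    intro x y h1 h2 h3
    exact P1.s3 x y h1 (Or.inl ⟨h2, by omega⟩)
  t0 := by
    have h1 := P2.tip
    have e1 : 2 * (n + 2 * (A / 6) + 4) + 1 = 2 * (n + 2 * (A / 6) + 2) + 5 := by ring
    have e2 : 2 * (n + 2 * (A / 6) + 4) = 2 * (n + 2 * (A / 6) + 2) + 4 := by ring
    rw [e1, e2] at h1
    exact h1
  s0 := by
    intro x y h1 h2 h3
    exact P2.s0 x y h1 (by omega) (Or.inl h2)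
  s1 := by
    intro x y h1 h2 h3
    exact P2.s1 x y h1 (by omega) (Or.inl h2)
  x1 := by
    intro x y h1 h2 h3
    exact P2.s1 x y h1 (by omega) (Or.inr (by omega))
  s2 := by
    intro x y h1 h2 h3
    exact P2.s2 x y h1 (Or.inl ⟨h2, by omega⟩)
  x2 := by
    intro x y h1 h2 h3
    exact P2.s2 x y h1 (Or.inr ⟨h2, by omega⟩)
  s3 := by
    intro x y h1 h2 h3
    exact P2.s3 x y h1 (Or.inl ⟨h2, by omega⟩)
  dg := by
    have h1 := diag_of_per hf hA hb hb2 (by omega) hn P0 P1 P2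
    have e1 : 2 * (n + 2 * (A / 6) + 4) + 5 = 2 * (n + 2 * (A / 6) + 2) + 9 := by ring
    rw [e1] at h1
    exact h1
  t4 := by
    have h1 := P3.tip
    have e1 : n + 3 * (A / 6) + 6 = n + 2 * (A / 6) + 2 + A / 6 + 4 := by ring
    rw [e1] at h1
    exact h1
  x4 := by
    intro x y h1 h2 h3
    exact P3.s0 x y h1 (by omega) (Or.inr (by omega))
  s5 := by
    intro x y h1 h2 h3
    exact P3.s1 x y h1 (by omega) (Or.inl h2)

/-- **NOTH**: behind an exact front of four periods the out-line `c' - h` of the last OUT row is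
not complete, `c' = n₃ + 1`, `n₃ = n + 3 h + 6` the lead of the last period. -/
theorem noth_of_per (hf : Rule f) {A b n : ℕ} (hA : A % 2 = 0) (hb : (A + b) % 4 = 2)
    (hb2 : 2 * A + 40 ≤ b) (h4 : 4 ≤ A / 6) (hn : 2 ≤ n) (P0 : FPer f A b n)
    (P1 : FPer f A (b + 4) (n + A / 6 + 2)) (P2 : FPer f A (b + 8) (n + 2 * (A / 6) + 4))
    (P3 : FPer f A (b + 12) (n + 3 * (A / 6) + 6)) :
    ¬ f A (b + 14) (2 * (n + 3 * (A / 6) + 6) + 2) (2 * (n + 2 * (A / 6) + 6) + 3) := by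
  have W := nwin_of_per hf hA hb (by omega) h4 hn P0 P1 P2 P3
  have h1 := noth_win hf hA h4 (by omega) (by omega) W
  have e1 : 2 * (n + 2 * (A / 6) + 2 + (A / 6 + 5)) = 2 * (n + 3 * (A / 6) + 6) + 2 := by ring
  have e2 : 2 * (n + 2 * (A / 6) + 2 + 5) + 1 = 2 * (n + 2 * (A / 6) + 6) + 3 := by ring
  rw [e1, e2] at h1
  exact h1

/-- The edge cell `y(c', c' - h + 1)` of the last OUT row is one. -/
theorem edge_of_per (hf : Rule f) {A b n : ℕ} (hA : A % 2 = 0) (hb : (A + b) % 4 = 2)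
    (hb2 : 2 * A + 40 ≤ b) (h4 : 4 ≤ A / 6) (hn : 2 ≤ n) (P0 : FPer f A b n)
    (P1 : FPer f A (b + 4) (n + A / 6 + 2)) (P2 : FPer f A (b + 8) (n + 2 * (A / 6) + 4))
    (P3 : FPer f A (b + 12) (n + 3 * (A / 6) + 6)) :
    f A (b + 14) (2 * (n + 3 * (A / 6) + 6) + 3) (2 * (n + 2 * (A / 6) + 6) + 4) := by
  have W := nwin_of_per hf hA hb (by omega) h4 hn P0 P1 P2 P3
  have h1 := edge_win hf hA h4 (by omega) (by omega) W
  have e1 : 2 * (n + 2 * (A / 6) + 2 + (A / 6 + 5)) + 1 = 2 * (n + 3 * (A / 6) + 6) + 3 := by ring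
  have e2 : 2 * (n + 2 * (A / 6) + 2 + 6) = 2 * (n + 2 * (A / 6) + 6) + 4 := by ring
  rw [e1, e2] at h1
  exact h1

/-- **Strict birth lemma.**  In every OUT row behind an exact front of an even layer `A`,
`h = A / 6 ≥ 4` (last of four consecutive periods, lead `n₃ = n + 3 h + 6`, `c' = n₃ + 1`), there
is a cell `E(c' + 1, c' + 1 - D)` of the next layer with value one, `1 ≤ D ≤ h - 1`:
the cell is `(2 n₃ + 4, 2 j + 2)`, `n₃ - h + 2 ≤ j ≤ n₃`. -/
theorem strict_birth_of_per (hf : Rule f) {A b n : ℕ} (hA : A % 2 = 0) (hb : (A + b) % 4 = 2)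
    (hb2 : 2 * A + 40 ≤ b) (h4 : 4 ≤ A / 6) (hn : 2 ≤ n) (P0 : FPer f A b n)
    (P1 : FPer f A (b + 4) (n + A / 6 + 2)) (P2 : FPer f A (b + 8) (n + 2 * (A / 6) + 4))
    (P3 : FPer f A (b + 12) (n + 3 * (A / 6) + 6)) :
    ∃ j : ℕ, n + 2 * (A / 6) + 8 ≤ j ∧ j ≤ n + 3 * (A / 6) + 6 ∧
      f (A + 1) (b + 14) (2 * (n + 3 * (A / 6) + 6) + 4) (2 * j + 2) := by
  have e1 : n + A / 6 + 2 + A / 6 + 2 = n + 2 * (A / 6) + 4 := by ring
  have e2 : n + A / 6 + 2 + 2 * (A / 6) + 4 = n + 3 * (A / 6) + 6 := by ring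
  have e3 : b + 4 + 4 = b + 8 := rfl
  have e4 : b + 4 + 8 = b + 12 := rfl
  obtain ⟨j, hj1, hj2, hj⟩ := birth_of_per hf hA (b := b + 4) (n := n + A / 6 + 2) (by omega)
    (by omega) (by omega) (by omega) P1 (by rw [e1]; exact P2) (by rw [e2]; exact P3)
  rw [e2] at hj2 hj
  refine ⟨j, ?_, hj2, hj⟩
  by_contra hcon
  have ej : j = n + 2 * (A / 6) + 7 := by omega
  subst ej
  have h1 := edge_of_per hf hA hb hb2 h4 hn P0 P1 P2 P3
  refine Hole.kill_gen hf h1 ?_ hj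
  omega

end Pool.Agent.SNT
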