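import Pool.Agent.SNT.Loc
import Pool.Agent.SNT.NHZoneU

set_option autoImplicit false
set_option synthInstance.maxSize 100000
set_option maxRecDepth 100000
set_option linter.unusedVariables false

/-! Near wall: the cell `(2 n + 2 k - 8, 2 n - 2)` of the layer `6 k + 1` in the row `c + 2` is zero (leads `(1, -4, -7)`,
purity of `6 k + 2`, `6 k + 6` at `y = 2 n + 4`) (helper82). -/

namespace Pool.Agent.SNT.Loc

theorem o2w8_cert_chk : check 7 8 14 11 0 0 0 1 0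
    (fun j n p q => decide (((((((j = 2 ∧ n = 1 ∧ p = 6 ∧ q = 1) ∨ (j = 2 ∧ n = 1 ∧ p = 8 ∧ q = 3)) ∨ (j = 2 ∧ n = 1 ∧ p = 9 ∧ q = 2)) ∨ (((j = 2 ∧ n = 1 ∧ p = 10 ∧ q = 1) ∨ (j = 2 ∧ n = 1 ∧ p = 10 ∧ q = 5)) ∨ (j = 2 ∧ n = 1 ∧ p = 11 ∧ q = 4))) ∨ ((((j = 3 ∧ n = 6 ∧ p = 2 ∧ q = 3) ∨ (j = 4 ∧ n = 2 ∧ p = 8 ∧ q = 4)) ∨ (j = 4 ∧ n = 2 ∧ p = 8 ∧ q = 6)) ∨ ((j = 4 ∧ n = 2 ∧ p = 9 ∧ q = 3) ∨ (j = 4 ∧ n = 2 ∧ p = 10 ∧ q = 6)))) ∨ (((((j = 4 ∧ n = 2 ∧ p = 10 ∧ q = 8) ∨ (j = 4 ∧ n = 3 ∧ p = 8 ∧ q = 3)) ∨ (j = 4 ∧ n = 3 ∧ p = 9 ∧ q = 2)) ∨ ((j = 4 ∧ n = 3 ∧ p = 10 ∧ q = 5) ∨ (j = 4 ∧ n = 3 ∧ p = 11 ∧ q = 4))) ∨ ((((j = 4 ∧ n = 3 ∧ p = 12 ∧ q = 7) ∨ (j = 6 ∧ n = 2 ∧ p = 9 ∧ q = 5)) ∨ (j = 6 ∧ n = 3 ∧ p = 9 ∧ q = 4)) ∨ ((j = 6 ∧ n = 3 ∧ p = 11 ∧ q = 6) ∨ (j = 6 ∧ n = 4 ∧ p = 11 ∧ q = 5)))))))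
    (fun j n p q => decide (((((((((j = 1 ∨ (j = 2 ∧ n = 1 ∧ p = 6 ∧ q = 2)) ∨ ((j = 2 ∧ n = 1 ∧ p = 6 ∧ q = 3) ∨ (j = 2 ∧ n = 1 ∧ p = 7 ∧ q = 1))) ∨ (((j = 2 ∧ n = 1 ∧ p = 7 ∧ q = 3) ∨ (j = 2 ∧ n = 1 ∧ p = 7 ∧ q = 4)) ∨ ((j = 2 ∧ n = 1 ∧ p = 7 ∧ q = 5) ∨ (j = 2 ∧ n = 1 ∧ p = 7 ∧ q = 6)))) ∨ ((((j = 2 ∧ n = 1 ∧ p = 7 ∧ q = 7) ∨ (j = 2 ∧ n = 1 ∧ p = 8 ∧ q = 1)) ∨ ((j = 2 ∧ n = 1 ∧ p = 8 ∧ q = 2) ∨ (j = 2 ∧ n = 1 ∧ p = 8 ∧ q = 4))) ∨ (((j = 2 ∧ n = 1 ∧ p = 8 ∧ q = 5) ∨ (j = 2 ∧ n = 1 ∧ p = 8 ∧ q = 6)) ∨ (j = 2 ∧ n = 1 ∧ p = 8 ∧ q = 7)))) ∨ (((((j = 2 ∧ n = 1 ∧ p = 9 ∧ q = 3) ∨ (j = 2 ∧ n = 1 ∧ p = 9 ∧ q = 4)) ∨ ((j = 2 ∧ n = 1 ∧ p = 9 ∧ q = 5) ∨ (j = 2 ∧ n = 1 ∧ p = 10 ∧ q = 2))) ∨ (((j = 2 ∧ n = 1 ∧ p = 10 ∧ q = 3) ∨ (j = 2 ∧ n = 1 ∧ p = 10 ∧ q = 4)) ∨ ((j = 2 ∧ n = 1 ∧ p = 11 ∧ q = 2) ∨ (j = 2 ∧ n = 1 ∧ p = 11 ∧ q = 3))))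 ∨ ((((j = 2 ∧ n = 3 ∧ p = 6 ∧ q = 6) ∨ (j = 2 ∧ n = 3 ∧ p = 7 ∧ q = 7)) ∨ ((j = 2 ∧ n = 3 ∧ p = 8 ∧ q = 8) ∨ (j = 2 ∧ n = 5 ∧ p = 1 ∧ q = 5))) ∨ (((j = 2 ∧ n = 5 ∧ p = 1 ∧ q = 6) ∨ (j = 2 ∧ n = 5 ∧ p = 1 ∧ q = 7)) ∨ (j = 2 ∧ n = 5 ∧ p = 2 ∧ q = 5))))) ∨ ((((((j = 2 ∧ n = 5 ∧ p = 2 ∧ q = 6) ∨ (j = 2 ∧ n = 5 ∧ p = 2 ∧ q = 7)) ∨ ((j = 2 ∧ n = 5 ∧ p = 2 ∧ q = 8) ∨ (j = 2 ∧ n = 5 ∧ p = 3 ∧ q = 4))) ∨ (((j = 2 ∧ n = 5 ∧ p = 3 ∧ q = 5) ∨ (j = 2 ∧ n = 5 ∧ p = 3 ∧ q = 6)) ∨ ((j = 2 ∧ n = 5 ∧ p = 4 ∧ q = 5) ∨ (j = 2 ∧ n = 5 ∧ p = 4 ∧ q = 6)))) ∨ ((((j = 2 ∧ n = 5 ∧ p = 4 ∧ q = 7) ∨ (j = 2 ∧ n = 5 ∧ p = 5 ∧ q = 6)) ∨ ((j = 2 ∧ n = 5 ∧ p = 5 ∧ q = 7) ∨ (j = 2 ∧ n = 5 ∧ p = 5 ∧ q = 8))) ∨ (((j = 2 ∧ n = 5 ∧ p = 6 ∧ q = 7) ∨ (j = 2 ∧ n = 5 ∧ p = 6 ∧ q = 8)) ∨ (j = 2 ∧ n = 5 ∧ p = 7 ∧ q = 8)))) ∨ (((((j = 2 ∧ n = 5 ∧ p = 8 ∧ q = 9)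 ∨ (j = 3 ∧ n = 1 ∧ p = 7 ∧ q = 6)) ∨ ((j = 3 ∧ n = 1 ∧ p = 7 ∧ q = 7) ∨ (j = 3 ∧ n = 1 ∧ p = 8 ∧ q = 7))) ∨ (((j = 3 ∧ n = 2 ∧ p = 7 ∧ q = 6) ∨ (j = 3 ∧ n = 2 ∧ p = 7 ∧ q = 7)) ∨ (j = 3 ∧ n = 2 ∧ p = 8 ∧ q = 7))) ∨ ((((j = 3 ∧ n = 3 ∧ p = 7 ∧ q = 7) ∨ (j = 3 ∧ n = 3 ∧ p = 8 ∧ q = 8)) ∨ ((j = 3 ∧ n = 4 ∧ p = 7 ∧ q = 7) ∨ (j = 3 ∧ n = 4 ∧ p = 8 ∧ q = 8))) ∨ (((j = 3 ∧ n = 5 ∧ p = 2 ∧ q = 4) ∨ (j = 3 ∧ n = 5 ∧ p = 2 ∧ q = 5)) ∨ (j = 3 ∧ n = 5 ∧ p = 2 ∧ q = 6)))))) ∨ (((((((j = 3 ∧ n = 5 ∧ p = 2 ∧ q = 7) ∨ (j = 3 ∧ n = 5 ∧ p = 2 ∧ q = 8)) ∨ ((j = 3 ∧ n = 5 ∧ p = 3 ∧ q = 4) ∨ (j = 3 ∧ n = 5 ∧ p = 3 ∧ q = 5))) ∨ (((j = 3 ∧ n = 5 ∧ p = 3 ∧ q = 6) ∨ (j = 3 ∧ n = 5 ∧ p = 3 ∧ q = 7)) ∨ ((j = 3 ∧ n = 5 ∧ p = 3 ∧ q = 8) ∨ (j = 3 ∧ n = 5 ∧ p = 3 ∧ q = 9)))) ∨ ((((j = 3 ∧ n = 5 ∧ p = 4 ∧ q = 6) ∨ (j = 3 ∧ n = 5 ∧ p = 4 ∧ q = 7)) ∨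 ((j = 3 ∧ n = 5 ∧ p = 4 ∧ q = 8) ∨ (j = 3 ∧ n = 5 ∧ p = 4 ∧ q = 9))) ∨ (((j = 3 ∧ n = 5 ∧ p = 5 ∧ q = 6) ∨ (j = 3 ∧ n = 5 ∧ p = 5 ∧ q = 7)) ∨ (j = 3 ∧ n = 5 ∧ p = 5 ∧ q = 8)))) ∨ (((((j = 3 ∧ n = 5 ∧ p = 5 ∧ q = 9) ∨ (j = 3 ∧ n = 5 ∧ p = 6 ∧ q = 7)) ∨ ((j = 3 ∧ n = 5 ∧ p = 6 ∧ q = 8) ∨ (j = 3 ∧ n = 5 ∧ p = 6 ∧ q = 9))) ∨ (((j = 3 ∧ n = 5 ∧ p = 7 ∧ q = 8) ∨ (j = 3 ∧ n = 5 ∧ p = 7 ∧ q = 9)) ∨ ((j = 3 ∧ n = 5 ∧ p = 8 ∧ q = 9) ∨ (j = 3 ∧ n = 6 ∧ p = 3 ∧ q = 9)))) ∨ ((((j = 3 ∧ n = 6 ∧ p = 4 ∧ q = 9) ∨ (j = 3 ∧ n = 6 ∧ p = 5 ∧ q = 9)) ∨ ((j = 3 ∧ n = 6 ∧ p = 6 ∧ q = 9) ∨ (j = 3 ∧ n = 6 ∧ p = 7 ∧ q = 9))) ∨ (((j = 3 ∧ n = 6 ∧ p = 8 ∧ q = 9) ∨ (j = 4 ∧ n = 3 ∧ p = 7 ∧ q = 5)) ∨ (j = 4 ∧ n = 3 ∧ p = 7 ∧ q = 6))))) ∨ ((((((j = 4 ∧ n = 3 ∧ p = 8 ∧ q = 4) ∨ (j = 4 ∧ n = 3 ∧ p = 8 ∧ q = 5)) ∨ ((j = 4 ∧ n = 3 ∧ p = 8 ∧ q = 6) ∨ (j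 = 4 ∧ n = 3 ∧ p = 8 ∧ q = 7))) ∨ (((j = 4 ∧ n = 3 ∧ p = 9 ∧ q = 3) ∨ (j = 4 ∧ n = 3 ∧ p = 9 ∧ q = 4)) ∨ ((j = 4 ∧ n = 3 ∧ p = 9 ∧ q = 5) ∨ (j = 4 ∧ n = 3 ∧ p = 9 ∧ q = 6)))) ∨ ((((j = 4 ∧ n = 3 ∧ p = 9 ∧ q = 7) ∨ (j = 4 ∧ n = 3 ∧ p = 10 ∧ q = 3)) ∨ ((j = 4 ∧ n = 3 ∧ p = 10 ∧ q = 4) ∨ (j = 4 ∧ n = 3 ∧ p = 10 ∧ q = 6))) ∨ (((j = 4 ∧ n = 3 ∧ p = 10 ∧ q = 7) ∨ (j = 4 ∧ n = 3 ∧ p = 11 ∧ q = 5)) ∨ (j = 4 ∧ n = 3 ∧ p = 11 ∧ q = 6)))) ∨ (((((j = 4 ∧ n = 3 ∧ p = 11 ∧ q = 7) ∨ (j = 4 ∧ n = 3 ∧ p = 12 ∧ q = 5)) ∨ ((j = 4 ∧ n = 3 ∧ p = 12 ∧ q = 6) ∨ (j = 4 ∧ n = 5 ∧ p = 2 ∧ q = 4))) ∨ (((j = 4 ∧ n = 5 ∧ p = 2 ∧ q = 5) ∨ (j = 4 ∧ n = 5 ∧ p = 2 ∧ q = 6)) ∨ (j = 4 ∧ n = 5 ∧ p = 2 ∧ q = 7))) ∨ ((((j = 4 ∧ n = 5 ∧ p = 2 ∧ q = 8) ∨ (j = 4 ∧ n = 5 ∧ p = 2 ∧ q = 9)) ∨ ((j = 4 ∧ n = 5 ∧ p = 3 ∧ q = 4) ∨ (j = 4 ∧ n = 5 ∧ p = 3 ∧ q = 5))) ∨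 (((j = 4 ∧ n = 5 ∧ p = 3 ∧ q = 6) ∨ (j = 4 ∧ n = 5 ∧ p = 3 ∧ q = 7)) ∨ (j = 4 ∧ n = 5 ∧ p = 3 ∧ q = 8))))))) ∨ ((((((((j = 4 ∧ n = 5 ∧ p = 3 ∧ q = 9) ∨ (j = 4 ∧ n = 5 ∧ p = 4 ∧ q = 6)) ∨ ((j = 4 ∧ n = 5 ∧ p = 4 ∧ q = 7) ∨ (j = 4 ∧ n = 5 ∧ p = 4 ∧ q = 8))) ∨ (((j = 4 ∧ n = 5 ∧ p = 4 ∧ q = 9) ∨ (j = 4 ∧ n = 5 ∧ p = 5 ∧ q = 6)) ∨ ((j = 4 ∧ n = 5 ∧ p = 5 ∧ q = 7) ∨ (j = 4 ∧ n = 5 ∧ p = 5 ∧ q = 8)))) ∨ ((((j = 4 ∧ n = 5 ∧ p = 5 ∧ q = 9) ∨ (j = 4 ∧ n = 5 ∧ p = 6 ∧ q = 6)) ∨ ((j = 4 ∧ n = 5 ∧ p = 6 ∧ q = 7) ∨ (j = 4 ∧ n = 5 ∧ p = 6 ∧ q = 8))) ∨ (((j = 4 ∧ n = 5 ∧ p = 6 ∧ q = 9) ∨ (j = 4 ∧ n = 5 ∧ p = 7 ∧ q = 7)) ∨ (j = 4 ∧ n = 5 ∧ p = 7 ∧ q = 8)))) ∨ (((((j = 4 ∧ n = 5 ∧ p = 7 ∧ q = 9) ∨ (j = 4 ∧ n = 5 ∧ p = 8 ∧ q = 8)) ∨ ((j = 4 ∧ n = 5 ∧ p = 8 ∧ q = 9) ∨ (j = 4 ∧ n = 5 ∧ p = 9 ∧ q = 9))) ∨ (((j = 4 ∧ n = 6 ∧ p = 3 ∧ q = 9)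 ∨ (j = 4 ∧ n = 6 ∧ p = 5 ∧ q = 9)) ∨ ((j = 4 ∧ n = 6 ∧ p = 7 ∧ q = 9) ∨ (j = 4 ∧ n = 6 ∧ p = 9 ∧ q = 9)))) ∨ ((((j = 5 ∧ n = 3 ∧ p = 8 ∧ q = 7) ∨ (j = 5 ∧ n = 3 ∧ p = 9 ∧ q = 8)) ∨ ((j = 5 ∧ n = 4 ∧ p = 8 ∧ q = 7) ∨ (j = 5 ∧ n = 4 ∧ p = 9 ∧ q = 8))) ∨ (((j = 5 ∧ n = 5 ∧ p = 3 ∧ q = 6) ∨ (j = 5 ∧ n = 5 ∧ p = 3 ∧ q = 7)) ∨ (j = 5 ∧ n = 5 ∧ p = 3 ∧ q = 8))))) ∨ ((((((j = 5 ∧ n = 5 ∧ p = 3 ∧ q = 9) ∨ (j = 5 ∧ n = 5 ∧ p = 4 ∧ q = 6)) ∨ ((j = 5 ∧ n = 5 ∧ p = 4 ∧ q = 7) ∨ (j = 5 ∧ n = 5 ∧ p = 4 ∧ q = 8))) ∨ (((j = 5 ∧ n = 5 ∧ p = 4 ∧ q = 9) ∨ (j = 5 ∧ n = 5 ∧ p = 5 ∧ q = 7)) ∨ ((j = 5 ∧ n = 5 ∧ p = 5 ∧ q = 8) ∨ (j = 5 ∧ n = 5 ∧ p = 5 ∧ q = 9)))) ∨ ((((j = 5 ∧ n = 5 ∧ p = 6 ∧ q = 7) ∨ (j = 5 ∧ n = 5 ∧ p = 6 ∧ q = 8)) ∨ ((j = 5 ∧ n = 5 ∧ p = 6 ∧ q = 9) ∨ (j = 5 ∧ n = 5 ∧ p = 7 ∧ q = 7))) ∨ (((j = 5 ∧ n = 5 ∧ p = 7 ∧ q = 8) ∨ (j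 = 5 ∧ n = 5 ∧ p = 7 ∧ q = 9)) ∨ (j = 5 ∧ n = 5 ∧ p = 8 ∧ q = 8)))) ∨ (((((j = 5 ∧ n = 5 ∧ p = 8 ∧ q = 9) ∨ (j = 5 ∧ n = 6 ∧ p = 3 ∧ q = 9)) ∨ ((j = 5 ∧ n = 6 ∧ p = 4 ∧ q = 9) ∨ (j = 5 ∧ n = 6 ∧ p = 5 ∧ q = 9))) ∨ (((j = 5 ∧ n = 6 ∧ p = 6 ∧ q = 9) ∨ (j = 5 ∧ n = 6 ∧ p = 7 ∧ q = 9)) ∨ (j = 5 ∧ n = 6 ∧ p = 8 ∧ q = 9))) ∨ ((((j = 6 ∧ n = 3 ∧ p = 8 ∧ q = 5) ∨ (j = 6 ∧ n = 3 ∧ p = 8 ∧ q = 6)) ∨ ((j = 6 ∧ n = 3 ∧ p = 9 ∧ q = 5) ∨ (j = 6 ∧ n = 3 ∧ p = 9 ∧ q = 6))) ∨ (((j = 6 ∧ n = 3 ∧ p = 9 ∧ q = 7) ∨ (j = 6 ∧ n = 3 ∧ p = 9 ∧ q = 8)) ∨ (j = 6 ∧ n = 3 ∧ p = 10 ∧ q = 5)))))) ∨ (((((((j = 6 ∧ n = 3 ∧ p = 10 ∧ q = 6) ∨ (j = 6 ∧ n = 3 ∧ p = 10 ∧ q = 7)) ∨ ((j = 6 ∧ n = 3 ∧ p = 10 ∧ q = 8) ∨ (j = 6 ∧ n = 3 ∧ p = 11 ∧ q = 7))) ∨ (((j = 6 ∧ n = 3 ∧ p = 11 ∧ q = 8) ∨ (j = 6 ∧ n = 3 ∧ p = 12 ∧ q = 7)) ∨ ((j = 6 ∧ n = 3 ∧ p = 12 ∧ q = 8)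 ∨ (j = 6 ∧ n = 4 ∧ p = 11 ∧ q = 6)))) ∨ ((((j = 6 ∧ n = 4 ∧ p = 12 ∧ q = 6) ∨ (j = 6 ∧ n = 5 ∧ p = 5 ∧ q = 7)) ∨ ((j = 6 ∧ n = 5 ∧ p = 5 ∧ q = 8) ∨ (j = 6 ∧ n = 5 ∧ p = 6 ∧ q = 7))) ∨ (((j = 6 ∧ n = 5 ∧ p = 6 ∧ q = 8) ∨ (j = 6 ∧ n = 5 ∧ p = 7 ∧ q = 7)) ∨ (j = 6 ∧ n = 5 ∧ p = 7 ∧ q = 8)))) ∨ (((((j = 6 ∧ n = 5 ∧ p = 7 ∧ q = 9) ∨ (j = 6 ∧ n = 5 ∧ p = 8 ∧ q = 7)) ∨ ((j = 6 ∧ n = 5 ∧ p = 8 ∧ q = 8) ∨ (j = 6 ∧ n = 5 ∧ p = 8 ∧ q = 9))) ∨ (((j = 6 ∧ n = 5 ∧ p = 9 ∧ q = 8) ∨ (j = 6 ∧ n = 5 ∧ p = 9 ∧ q = 9)) ∨ ((j = 6 ∧ n = 5 ∧ p = 10 ∧ q = 9) ∨ (j = 7 ∧ n = 3 ∧ p = 8 ∧ q = 5)))) ∨ ((((j = 7 ∧ n = 3 ∧ p = 8 ∧ q = 6) ∨ (j = 7 ∧ n = 3 ∧ p = 9 ∧ q = 5)) ∨ ((j = 7 ∧ n = 3 ∧ p = 9 ∧ q = 6) ∨ (j = 7 ∧ n = 3 ∧ p = 9 ∧ q = 7))) ∨ (((j = 7 ∧ n = 3 ∧ p = 9 ∧ q = 8) ∨ (j = 7 ∧ n = 3 ∧ p = 10 ∧ q = 6)) ∨ (j = 7 ∧ n = 3 ∧ p = 10 ∧ q = 7)))))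 ∨ ((((((j = 7 ∧ n = 3 ∧ p = 10 ∧ q = 8) ∨ (j = 7 ∧ n = 3 ∧ p = 11 ∧ q = 7)) ∨ ((j = 7 ∧ n = 3 ∧ p = 11 ∧ q = 8) ∨ (j = 7 ∧ n = 4 ∧ p = 8 ∧ q = 5))) ∨ (((j = 7 ∧ n = 4 ∧ p = 8 ∧ q = 6) ∨ (j = 7 ∧ n = 4 ∧ p = 9 ∧ q = 5)) ∨ ((j = 7 ∧ n = 4 ∧ p = 9 ∧ q = 6) ∨ (j = 7 ∧ n = 4 ∧ p = 9 ∧ q = 7)))) ∨ ((((j = 7 ∧ n = 4 ∧ p = 9 ∧ q = 8) ∨ (j = 7 ∧ n = 4 ∧ p = 10 ∧ q = 6)) ∨ ((j = 7 ∧ n = 4 ∧ p = 10 ∧ q = 7) ∨ (j = 7 ∧ n = 4 ∧ p = 10 ∧ q = 8))) ∨ (((j = 7 ∧ n = 4 ∧ p = 11 ∧ q = 7) ∨ (j = 7 ∧ n = 4 ∧ p = 11 ∧ q = 8)) ∨ (j = 7 ∧ n = 5 ∧ p = 7 ∧ q = 8)))) ∨ (((((j = 7 ∧ n = 5 ∧ p = 7 ∧ q = 9) ∨ (j = 7 ∧ n = 5 ∧ p = 8 ∧ q = 8)) ∨ ((j = 7 ∧ n = 5 ∧ p = 8 ∧ q = 9) ∨ (j = 7 ∧ n = 5 ∧ p = 9 ∧ q = 8))) ∨ (((j = 7 ∧ n = 5 ∧ p = 9 ∧ q = 9) ∨ (j = 7 ∧ n = 5 ∧ p = 10 ∧ q = 9)) ∨ (j = 7 ∧ n = 5 ∧ p = 11 ∧ q = 9))) ∨ ((((j = 7 ∧ n = 5 ∧ p = 12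 ∧ q = 9) ∨ (j = 7 ∧ n = 6 ∧ p = 7 ∧ q = 9)) ∨ ((j = 7 ∧ n = 6 ∧ p = 8 ∧ q = 9) ∨ (j = 7 ∧ n = 6 ∧ p = 9 ∧ q = 9))) ∨ (((j = 7 ∧ n = 6 ∧ p = 10 ∧ q = 9) ∨ (j = 7 ∧ n = 6 ∧ p = 11 ∧ q = 9)) ∨ (j = 7 ∧ n = 6 ∧ p = 12 ∧ q = 9))))))))))
    885
    0x6430308ab000b195a12ec830e110010794212e10012e18a106e00106e0112d68310680010680412ec831079001079040ba3030e0b000e0b040b9e030e06000e060412d68312db8012db840b98030e05800e05840ba4030935800935840b98030e00000e00041063001063010def800def8106ad030915800b83520914800b82520dea000dea040ba4030e0b800e0b840ba4030935800ba3520e10800e10840b98030b9d000b9d040b50830db8800db88406800308e80008e804062d830895800895840b8c800b8d0a06bd03092500092504103683108400108404089b8308e88008e884129e8312ec0012ec040b81000b810106b10309190009190406330306800006800406b1030919000b81420de9800de9840fea0310378010378406bd030925000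b935a0dfb000dfb0406c80309300009300406c203092a00092a040b09000d7142124c830d76800d76810b03000b0304103683129e80129e84124c830d76800d76810b56800b56840d76830dc3800dc3840fdf03102c00102c0406b203091a00091a0406750308dd0008dd0406bd030925000b8d420dfa800dfa840b81030b87000b87040b60800b608106908308f88008f8840643030690000690040b08000d70421246030d70000d70040ba4030b50800b508406d383093b80093b8406d283093a80093a8406b18309198009198406870308ef0008ef0406860308ee0008ee0406388306390006390406b283091a80091a840df0830b82000b820406bd030925000b8d420df5000df5040b14000b140108a60308a68008a6840b03030b50000b500406c8830930800930841240830d6a800d6a8406608308c88008c884089c0308e90008e904129e83129f00129f0406bd830925800925840e06830b98000b9804067b0308e30008e30408a60308f30008f304124603102b80102b8405f1830859800859841247030d71000d710406ab03091380091384124c8312998012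998406d403093c00093c0408ab0308f80008f804124083102600102604063e0308a60008a6040b9903092a80092a8406ac030914000914040b81030b81800b81841240830d6b000d6b041240830fd9000fd9040b8e03091f80091f840b09030b56000b560406388306858006858406b803092000092004068a8308f28008f284067a8308e28008e284124c8310320010320405ec03085400085404063e03068b00068b0406c8830930800b994a0e00800e00840dfb830b8d000b8d040fe48310318010318406bc8309248009248408a08308ed8008ed8406868308ee8008ee8406cd030935000935041247031294001294040b19000b190406d303093b00093b0406c783092f80092f8406ce0309360009360406b703091f00091f0406ad030915000915040fea0310370010370406388306860006860406c303092b00092b040594000801d20b0d0005fb8005f68005930005ea800d754205fb8105f68105a80005a300059e000800d205ea810597000592000fe3000f96800f8a800f3e000acc800ac5800ac0800ab9800ab4800a75000a74000a6d000a69000a6800091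280055b8005568005a80105548005a301054f80059e01054a80059701059201053e8012ec8712e70712e18712dc0712d68712d107129f87129a07129487128f07128e87128987128907128407128387124c87124c07124707124687124607124187124107124087124007123b07123a8711ff8711ff0711fa0711f98711f90711f48711f40711f38711f30711ee0711ed87108487107987107887106e87106d87106287102c87102707102687102187102107102087101c07101b87101b071016071015871010871010070fe9870fe9070fe3870fe30f0fde870fdd870fd2870f9d070f9c870f97870f97070f968f0f92070f91870f91070f90870f8c870f8c070f8b870f8b070f8a8f0f86070f85870f3e0f0e06870e01070dfb870df6070df0870deb070db9870db9070db4070db3870db3070dae870dae070dad870da9070da8870da8070da3870da3070da2870da2070d9e070d9d870d9d070d9c870d71870d6b870d24870d1e870ba4070b9e870b9d870b99070b93870b92870b8e070b88870b87870b83070b7d870b7c870b7b870b57070b51870b51070b4c070b4b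870b4b070b46870b46070b45870b45070b41070b40870b40070b3f870b3b870b3b070b3a870b3a070b36070b35870b35070b34870b34070b33870b30870b30070b2f870b2f070b2e870b2e070b18870b0e870b0d870b0c870b03870b02870acc8f0acc070acb870ac7070ac6870ac6070ac58f0ac1870ac1070ac08f0ac0070abf870abc070abb870abb070aba870aba070ab98f0ab6870ab6070ab5870ab5070ab48f0ab0870ab0070a750f0a740f0a6d0f0a690f0a680f093687093107092b87092607092087091b0709128f08e98708e40708e38708de8708de0708dd8708d90708d88708d80708d78708d38708d30708d28708d20708ce0708cd8708cd0708cc8708cc0708cb8708c80708c78708c70708c68708c607089c07089607084f0708490708018707fc0707fb8707b48707af0707ae8706ce8706cd8706cc8706c28706c18706b78706b68706ac8706ab8706aa87068187067b87067607067587067087067007066f87066a87066a07066987066487066407066387066007065f87065f07065e87065a07065987065907063d8706348706338706328706288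706278706138705e70705e10705db0705ae8705a48705a38705a287059987059887059787059687058c87055b8f055b07055a8705568f05560705558705550705548f055107055087055007054f8f054c87054c07054b87054b07054a8f054a07054987054707054687054607054587054507054407053f87053f07053e8f046c07046b87046b07046a87046a07046687046607046587046507046487046087046007045f87045f07045b07045a87045a07045987045587045507045487045407045007044f87044f07044e87044a87044a07044987044907044887044507044487044407044387044307044287043f87043f07043e87043e07043d87043d07042887042807042307042287042207041f07041e87041e07041d87041d07041c87041987041907041887041807041787041387041307041287041207040e07040d87040d07040c8704088704080704078704070704030704028704020704018703fd8703fd0703fc8703fc0703fb8703f88703f80703f78703f70703f68703f60703f58703f30703f28703f20703f18703f10703f08703f00703db8703db07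03da8703d60703d58703d50703d20703d18703d10703d08703d00703cf8703cc8703cc0703cb8703cb0703ca8703c60703c58703c50703c08703c00703bf8703ba8703ba0703ab8703ab0703a60703a587039387039307038e87038e07038d87038987038907038887038807038407038387038307038287038207037e87037e07037d87037d07037c87037887037807037307037287034687034607034187034107034087034007033f87033c87033c07033b87033b07033a87033a07033707033687033607033587033507033187033107033087033007032f87032f07032e87032a0703298703290703248703240702f30702f28702ee0702ed8702ed0702e90702e88702e80702e38702e30702e20702e18702dd0702dc8702dc0702d78702d707 = true := by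
  decide +kernel

theorem o2w8_cert {f : ℕ → ℕ → ℕ → ℕ → Prop} (hf : Rule f) {a0 b0 x0 y0 : ℕ}
    (ha : a0 % 2 = 0) (hb : b0 % 2 = 0) (hx : x0 % 2 = 0) (hy : y0 % 2 = 1)
    (h1 : ∀ j n p q : ℕ, InR 7 8 14 11 1 j n p q →
      (((((((j = 2 ∧ n = 1 ∧ p = 6 ∧ q = 1) ∨ (j = 2 ∧ n = 1 ∧ p = 8 ∧ q = 3)) ∨ (j = 2 ∧ n = 1 ∧ p = 9 ∧ q = 2)) ∨ (((j = 2 ∧ n = 1 ∧ p = 10 ∧ q = 1) ∨ (j = 2 ∧ n = 1 ∧ p = 10 ∧ q = 5)) ∨ (j = 2 ∧ n = 1 ∧ p = 11 ∧ q = 4))) ∨ ((((j = 3 ∧ n = 6 ∧ p = 2 ∧ q = 3) ∨ (j = 4 ∧ n = 2 ∧ p = 8 ∧ q = 4)) ∨ (j = 4 ∧ n = 2 ∧ p = 8 ∧ q = 6)) ∨ ((j = 4 ∧ n = 2 ∧ p = 9 ∧ q = 3) ∨ (j = 4 ∧ n = 2 ∧ p = 10 ∧ q = 6)))) ∨ (((((j = 4 ∧ n = 2 ∧ p = 10 ∧ q = 8) ∨ (j = 4 ∧ n = 3 ∧ p = 8 ∧ q = 3)) ∨ (j = 4 ∧ n = 3 ∧ p = 9 ∧ q = 2)) ∨ ((j = 4 ∧ n = 3 ∧ p = 10 ∧ q = 5) ∨ (j = 4 ∧ n = 3 ∧ p = 11 ∧ q = 4))) ∨ ((((j = 4 ∧ n = 3 ∧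 p = 12 ∧ q = 7) ∨ (j = 6 ∧ n = 2 ∧ p = 9 ∧ q = 5)) ∨ (j = 6 ∧ n = 3 ∧ p = 9 ∧ q = 4)) ∨ ((j = 6 ∧ n = 3 ∧ p = 11 ∧ q = 6) ∨ (j = 6 ∧ n = 4 ∧ p = 11 ∧ q = 5)))))) →
      f (a0 + j) (b0 + n) (x0 + p) (y0 + q))
    (h0 : ∀ j n p q : ℕ, InR 7 8 14 11 1 j n p q →
      (((((((((j = 1 ∨ (j = 2 ∧ n = 1 ∧ p = 6 ∧ q = 2)) ∨ ((j = 2 ∧ n = 1 ∧ p = 6 ∧ q = 3) ∨ (j = 2 ∧ n = 1 ∧ p = 7 ∧ q = 1))) ∨ (((j = 2 ∧ n = 1 ∧ p = 7 ∧ q = 3) ∨ (j = 2 ∧ n = 1 ∧ p = 7 ∧ q = 4)) ∨ ((j = 2 ∧ n = 1 ∧ p = 7 ∧ q = 5) ∨ (j = 2 ∧ n = 1 ∧ p = 7 ∧ q = 6)))) ∨ ((((j = 2 ∧ n = 1 ∧ p = 7 ∧ q = 7) ∨ (j = 2 ∧ n = 1 ∧ p = 8 ∧ q = 1)) ∨ ((j = 2 ∧ n = 1 ∧ p = 8 ∧ q = 2) ∨ (j = 2 ∧ n = 1 ∧ p = 8 ∧ q = 4))) ∨ (((j = 2 ∧ n = 1 ∧ p = 8 ∧ q = 5) ∨ (j = 2 ∧ n = 1 ∧ p = 8 ∧ q = 6)) ∨ (j = 2 ∧ n = 1 ∧ p = 8 ∧ q = 7)))) ∨ (((((j = 2 ∧ n = 1 ∧ p = 9 ∧ q = 3) ∨ (j = 2 ∧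 n = 1 ∧ p = 9 ∧ q = 4)) ∨ ((j = 2 ∧ n = 1 ∧ p = 9 ∧ q = 5) ∨ (j = 2 ∧ n = 1 ∧ p = 10 ∧ q = 2))) ∨ (((j = 2 ∧ n = 1 ∧ p = 10 ∧ q = 3) ∨ (j = 2 ∧ n = 1 ∧ p = 10 ∧ q = 4)) ∨ ((j = 2 ∧ n = 1 ∧ p = 11 ∧ q = 2) ∨ (j = 2 ∧ n = 1 ∧ p = 11 ∧ q = 3)))) ∨ ((((j = 2 ∧ n = 3 ∧ p = 6 ∧ q = 6) ∨ (j = 2 ∧ n = 3 ∧ p = 7 ∧ q = 7)) ∨ ((j = 2 ∧ n = 3 ∧ p = 8 ∧ q = 8) ∨ (j = 2 ∧ n = 5 ∧ p = 1 ∧ q = 5))) ∨ (((j = 2 ∧ n = 5 ∧ p = 1 ∧ q = 6) ∨ (j = 2 ∧ n = 5 ∧ p = 1 ∧ q = 7)) ∨ (j = 2 ∧ n = 5 ∧ p = 2 ∧ q = 5))))) ∨ ((((((j = 2 ∧ n = 5 ∧ p = 2 ∧ q = 6) ∨ (j = 2 ∧ n = 5 ∧ p = 2 ∧ q = 7)) ∨ ((j = 2 ∧ n = 5 ∧ p = 2 ∧ q = 8) ∨ (j = 2 ∧ n = 5 ∧ p = 3 ∧ q = 4))) ∨ (((j = 2 ∧ n = 5 ∧ p = 3 ∧ q = 5) ∨ (j = 2 ∧ n = 5 ∧ p = 3 ∧ q = 6)) ∨ ((j = 2 ∧ n = 5 ∧ p = 4 ∧ q = 5) ∨ (j = 2 ∧ n = 5 ∧ p = 4 ∧ q = 6)))) ∨ ((((j = 2 ∧ n = 5 ∧ p = 4 ∧ q = 7) ∨ (j = 2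 ∧ n = 5 ∧ p = 5 ∧ q = 6)) ∨ ((j = 2 ∧ n = 5 ∧ p = 5 ∧ q = 7) ∨ (j = 2 ∧ n = 5 ∧ p = 5 ∧ q = 8))) ∨ (((j = 2 ∧ n = 5 ∧ p = 6 ∧ q = 7) ∨ (j = 2 ∧ n = 5 ∧ p = 6 ∧ q = 8)) ∨ (j = 2 ∧ n = 5 ∧ p = 7 ∧ q = 8)))) ∨ (((((j = 2 ∧ n = 5 ∧ p = 8 ∧ q = 9) ∨ (j = 3 ∧ n = 1 ∧ p = 7 ∧ q = 6)) ∨ ((j = 3 ∧ n = 1 ∧ p = 7 ∧ q = 7) ∨ (j = 3 ∧ n = 1 ∧ p = 8 ∧ q = 7))) ∨ (((j = 3 ∧ n = 2 ∧ p = 7 ∧ q = 6) ∨ (j = 3 ∧ n = 2 ∧ p = 7 ∧ q = 7)) ∨ (j = 3 ∧ n = 2 ∧ p = 8 ∧ q = 7))) ∨ ((((j = 3 ∧ n = 3 ∧ p = 7 ∧ q = 7) ∨ (j = 3 ∧ n = 3 ∧ p = 8 ∧ q = 8)) ∨ ((j = 3 ∧ n = 4 ∧ p = 7 ∧ q = 7) ∨ (j = 3 ∧ n = 4 ∧ p = 8 ∧ q = 8))) ∨ (((j = 3 ∧ n = 5 ∧ p = 2 ∧ q = 4) ∨ (j = 3 ∧ n = 5 ∧ p = 2 ∧ q = 5)) ∨ (j = 3 ∧ n = 5 ∧ p = 2 ∧ q = 6)))))) ∨ (((((((j = 3 ∧ n = 5 ∧ p = 2 ∧ q = 7) ∨ (j = 3 ∧ n = 5 ∧ p = 2 ∧ q = 8)) ∨ ((j = 3 ∧ n = 5 ∧ p = 3 ∧ q = 4) ∨ (j = 3 ∧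 n = 5 ∧ p = 3 ∧ q = 5))) ∨ (((j = 3 ∧ n = 5 ∧ p = 3 ∧ q = 6) ∨ (j = 3 ∧ n = 5 ∧ p = 3 ∧ q = 7)) ∨ ((j = 3 ∧ n = 5 ∧ p = 3 ∧ q = 8) ∨ (j = 3 ∧ n = 5 ∧ p = 3 ∧ q = 9)))) ∨ ((((j = 3 ∧ n = 5 ∧ p = 4 ∧ q = 6) ∨ (j = 3 ∧ n = 5 ∧ p = 4 ∧ q = 7)) ∨ ((j = 3 ∧ n = 5 ∧ p = 4 ∧ q = 8) ∨ (j = 3 ∧ n = 5 ∧ p = 4 ∧ q = 9))) ∨ (((j = 3 ∧ n = 5 ∧ p = 5 ∧ q = 6) ∨ (j = 3 ∧ n = 5 ∧ p = 5 ∧ q = 7)) ∨ (j = 3 ∧ n = 5 ∧ p = 5 ∧ q = 8)))) ∨ (((((j = 3 ∧ n = 5 ∧ p = 5 ∧ q = 9) ∨ (j = 3 ∧ n = 5 ∧ p = 6 ∧ q = 7)) ∨ ((j = 3 ∧ n = 5 ∧ p = 6 ∧ q = 8) ∨ (j = 3 ∧ n = 5 ∧ p = 6 ∧ q = 9))) ∨ (((j = 3 ∧ n = 5 ∧ p = 7 ∧ q = 8) ∨ (j = 3 ∧ n = 5 ∧ p = 7 ∧ q = 9)) ∨ ((j = 3 ∧ n = 5 ∧ p = 8 ∧ q = 9) ∨ (j = 3 ∧ n = 6 ∧ p = 3 ∧ q = 9)))) ∨ ((((j = 3 ∧ n = 6 ∧ p = 4 ∧ q = 9) ∨ (j = 3 ∧ n = 6 ∧ p = 5 ∧ q = 9)) ∨ ((j = 3 ∧ n = 6 ∧ p = 6 ∧ q = 9) ∨ (j = 3 ∧ n = 6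 ∧ p = 7 ∧ q = 9))) ∨ (((j = 3 ∧ n = 6 ∧ p = 8 ∧ q = 9) ∨ (j = 4 ∧ n = 3 ∧ p = 7 ∧ q = 5)) ∨ (j = 4 ∧ n = 3 ∧ p = 7 ∧ q = 6))))) ∨ ((((((j = 4 ∧ n = 3 ∧ p = 8 ∧ q = 4) ∨ (j = 4 ∧ n = 3 ∧ p = 8 ∧ q = 5)) ∨ ((j = 4 ∧ n = 3 ∧ p = 8 ∧ q = 6) ∨ (j = 4 ∧ n = 3 ∧ p = 8 ∧ q = 7))) ∨ (((j = 4 ∧ n = 3 ∧ p = 9 ∧ q = 3) ∨ (j = 4 ∧ n = 3 ∧ p = 9 ∧ q = 4)) ∨ ((j = 4 ∧ n = 3 ∧ p = 9 ∧ q = 5) ∨ (j = 4 ∧ n = 3 ∧ p = 9 ∧ q = 6)))) ∨ ((((j = 4 ∧ n = 3 ∧ p = 9 ∧ q = 7) ∨ (j = 4 ∧ n = 3 ∧ p = 10 ∧ q = 3)) ∨ ((j = 4 ∧ n = 3 ∧ p = 10 ∧ q = 4) ∨ (j = 4 ∧ n = 3 ∧ p = 10 ∧ q = 6))) ∨ (((j = 4 ∧ n = 3 ∧ p = 10 ∧ q = 7) ∨ (j = 4 ∧ n = 3 ∧ p = 11 ∧ q = 5)) ∨ (j = 4 ∧ n = 3 ∧ p = 11 ∧ q = 6)))) ∨ (((((j = 4 ∧ n = 3 ∧ p = 11 ∧ q = 7) ∨ (j = 4 ∧ n = 3 ∧ p = 12 ∧ q = 5)) ∨ ((j = 4 ∧ n = 3 ∧ p = 12 ∧ q = 6) ∨ (j = 4 ∧ n = 5 ∧ p = 2 ∧ q = 4))) ∨ (((j =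 4 ∧ n = 5 ∧ p = 2 ∧ q = 5) ∨ (j = 4 ∧ n = 5 ∧ p = 2 ∧ q = 6)) ∨ (j = 4 ∧ n = 5 ∧ p = 2 ∧ q = 7))) ∨ ((((j = 4 ∧ n = 5 ∧ p = 2 ∧ q = 8) ∨ (j = 4 ∧ n = 5 ∧ p = 2 ∧ q = 9)) ∨ ((j = 4 ∧ n = 5 ∧ p = 3 ∧ q = 4) ∨ (j = 4 ∧ n = 5 ∧ p = 3 ∧ q = 5))) ∨ (((j = 4 ∧ n = 5 ∧ p = 3 ∧ q = 6) ∨ (j = 4 ∧ n = 5 ∧ p = 3 ∧ q = 7)) ∨ (j = 4 ∧ n = 5 ∧ p = 3 ∧ q = 8))))))) ∨ ((((((((j = 4 ∧ n = 5 ∧ p = 3 ∧ q = 9) ∨ (j = 4 ∧ n = 5 ∧ p = 4 ∧ q = 6)) ∨ ((j = 4 ∧ n = 5 ∧ p = 4 ∧ q = 7) ∨ (j = 4 ∧ n = 5 ∧ p = 4 ∧ q = 8))) ∨ (((j = 4 ∧ n = 5 ∧ p = 4 ∧ q = 9) ∨ (j = 4 ∧ n = 5 ∧ p = 5 ∧ q = 6)) ∨ ((j = 4 ∧ n = 5 ∧ p = 5 ∧ q = 7) ∨ (j = 4 ∧ n = 5 ∧ p = 5 ∧ q = 8)))) ∨ ((((j = 4 ∧ n = 5 ∧ p = 5 ∧ q = 9) ∨ (j = 4 ∧ n = 5 ∧ p = 6 ∧ q = 6)) ∨ ((j = 4 ∧ n = 5 ∧ p = 6 ∧ q = 7) ∨ (j = 4 ∧ n = 5 ∧ p = 6 ∧ q = 8))) ∨ (((j = 4 ∧ n = 5 ∧ p = 6 ∧ q = 9) ∨ (j = 4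 ∧ n = 5 ∧ p = 7 ∧ q = 7)) ∨ (j = 4 ∧ n = 5 ∧ p = 7 ∧ q = 8)))) ∨ (((((j = 4 ∧ n = 5 ∧ p = 7 ∧ q = 9) ∨ (j = 4 ∧ n = 5 ∧ p = 8 ∧ q = 8)) ∨ ((j = 4 ∧ n = 5 ∧ p = 8 ∧ q = 9) ∨ (j = 4 ∧ n = 5 ∧ p = 9 ∧ q = 9))) ∨ (((j = 4 ∧ n = 6 ∧ p = 3 ∧ q = 9) ∨ (j = 4 ∧ n = 6 ∧ p = 5 ∧ q = 9)) ∨ ((j = 4 ∧ n = 6 ∧ p = 7 ∧ q = 9) ∨ (j = 4 ∧ n = 6 ∧ p = 9 ∧ q = 9)))) ∨ ((((j = 5 ∧ n = 3 ∧ p = 8 ∧ q = 7) ∨ (j = 5 ∧ n = 3 ∧ p = 9 ∧ q = 8)) ∨ ((j = 5 ∧ n = 4 ∧ p = 8 ∧ q = 7) ∨ (j = 5 ∧ n = 4 ∧ p = 9 ∧ q = 8))) ∨ (((j = 5 ∧ n = 5 ∧ p = 3 ∧ q = 6) ∨ (j = 5 ∧ n = 5 ∧ p = 3 ∧ q = 7)) ∨ (j = 5 ∧ n = 5 ∧ p = 3 ∧ q = 8))))) ∨ ((((((j = 5 ∧ n = 5 ∧ p = 3 ∧ q = 9) ∨ (j = 5 ∧ n = 5 ∧ p = 4 ∧ q = 6)) ∨ ((j = 5 ∧ n = 5 ∧ p = 4 ∧ q = 7) ∨ (j = 5 ∧ n = 5 ∧ p = 4 ∧ q = 8))) ∨ (((j = 5 ∧ n = 5 ∧ p = 4 ∧ q = 9) ∨ (j = 5 ∧ n = 5 ∧ p = 5 ∧ q = 7)) ∨ ((j = 5 ∧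 n = 5 ∧ p = 5 ∧ q = 8) ∨ (j = 5 ∧ n = 5 ∧ p = 5 ∧ q = 9)))) ∨ ((((j = 5 ∧ n = 5 ∧ p = 6 ∧ q = 7) ∨ (j = 5 ∧ n = 5 ∧ p = 6 ∧ q = 8)) ∨ ((j = 5 ∧ n = 5 ∧ p = 6 ∧ q = 9) ∨ (j = 5 ∧ n = 5 ∧ p = 7 ∧ q = 7))) ∨ (((j = 5 ∧ n = 5 ∧ p = 7 ∧ q = 8) ∨ (j = 5 ∧ n = 5 ∧ p = 7 ∧ q = 9)) ∨ (j = 5 ∧ n = 5 ∧ p = 8 ∧ q = 8)))) ∨ (((((j = 5 ∧ n = 5 ∧ p = 8 ∧ q = 9) ∨ (j = 5 ∧ n = 6 ∧ p = 3 ∧ q = 9)) ∨ ((j = 5 ∧ n = 6 ∧ p = 4 ∧ q = 9) ∨ (j = 5 ∧ n = 6 ∧ p = 5 ∧ q = 9))) ∨ (((j = 5 ∧ n = 6 ∧ p = 6 ∧ q = 9) ∨ (j = 5 ∧ n = 6 ∧ p = 7 ∧ q = 9)) ∨ (j = 5 ∧ n = 6 ∧ p = 8 ∧ q = 9))) ∨ ((((j = 6 ∧ n = 3 ∧ p = 8 ∧ q = 5) ∨ (j = 6 ∧ n = 3 ∧ p = 8 ∧ q = 6)) ∨ ((j = 6 ∧ n = 3 ∧ p = 9 ∧ q = 5) ∨ (j = 6 ∧ n = 3 ∧ p = 9 ∧ q = 6))) ∨ (((j = 6 ∧ n = 3 ∧ p = 9 ∧ q = 7) ∨ (j = 6 ∧ n = 3 ∧ p = 9 ∧ q = 8)) ∨ (j = 6 ∧ n = 3 ∧ p = 10 ∧ q = 5)))))) ∨ (((((((j =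 6 ∧ n = 3 ∧ p = 10 ∧ q = 6) ∨ (j = 6 ∧ n = 3 ∧ p = 10 ∧ q = 7)) ∨ ((j = 6 ∧ n = 3 ∧ p = 10 ∧ q = 8) ∨ (j = 6 ∧ n = 3 ∧ p = 11 ∧ q = 7))) ∨ (((j = 6 ∧ n = 3 ∧ p = 11 ∧ q = 8) ∨ (j = 6 ∧ n = 3 ∧ p = 12 ∧ q = 7)) ∨ ((j = 6 ∧ n = 3 ∧ p = 12 ∧ q = 8) ∨ (j = 6 ∧ n = 4 ∧ p = 11 ∧ q = 6)))) ∨ ((((j = 6 ∧ n = 4 ∧ p = 12 ∧ q = 6) ∨ (j = 6 ∧ n = 5 ∧ p = 5 ∧ q = 7)) ∨ ((j = 6 ∧ n = 5 ∧ p = 5 ∧ q = 8) ∨ (j = 6 ∧ n = 5 ∧ p = 6 ∧ q = 7))) ∨ (((j = 6 ∧ n = 5 ∧ p = 6 ∧ q = 8) ∨ (j = 6 ∧ n = 5 ∧ p = 7 ∧ q = 7)) ∨ (j = 6 ∧ n = 5 ∧ p = 7 ∧ q = 8)))) ∨ (((((j = 6 ∧ n = 5 ∧ p = 7 ∧ q = 9) ∨ (j = 6 ∧ n = 5 ∧ p = 8 ∧ q = 7)) ∨ ((j = 6 ∧ n = 5 ∧ p = 8 ∧ q = 8) ∨ (j = 6 ∧ n = 5 ∧ p = 8 ∧ q = 9))) ∨ (((j = 6 ∧ n = 5 ∧ p = 9 ∧ q = 8) ∨ (j = 6 ∧ n = 5 ∧ p = 9 ∧ q = 9)) ∨ ((j = 6 ∧ n = 5 ∧ p = 10 ∧ q = 9) ∨ (j = 7 ∧ n = 3 ∧ p = 8 ∧ q = 5)))) ∨ ((((j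 = 7 ∧ n = 3 ∧ p = 8 ∧ q = 6) ∨ (j = 7 ∧ n = 3 ∧ p = 9 ∧ q = 5)) ∨ ((j = 7 ∧ n = 3 ∧ p = 9 ∧ q = 6) ∨ (j = 7 ∧ n = 3 ∧ p = 9 ∧ q = 7))) ∨ (((j = 7 ∧ n = 3 ∧ p = 9 ∧ q = 8) ∨ (j = 7 ∧ n = 3 ∧ p = 10 ∧ q = 6)) ∨ (j = 7 ∧ n = 3 ∧ p = 10 ∧ q = 7))))) ∨ ((((((j = 7 ∧ n = 3 ∧ p = 10 ∧ q = 8) ∨ (j = 7 ∧ n = 3 ∧ p = 11 ∧ q = 7)) ∨ ((j = 7 ∧ n = 3 ∧ p = 11 ∧ q = 8) ∨ (j = 7 ∧ n = 4 ∧ p = 8 ∧ q = 5))) ∨ (((j = 7 ∧ n = 4 ∧ p = 8 ∧ q = 6) ∨ (j = 7 ∧ n = 4 ∧ p = 9 ∧ q = 5)) ∨ ((j = 7 ∧ n = 4 ∧ p = 9 ∧ q = 6) ∨ (j = 7 ∧ n = 4 ∧ p = 9 ∧ q = 7)))) ∨ ((((j = 7 ∧ n = 4 ∧ p = 9 ∧ q = 8) ∨ (j = 7 ∧ n = 4 ∧ p = 10 ∧ q = 6)) ∨ ((j = 7 ∧ n = 4 ∧ p = 10 ∧ q = 7) ∨ (j = 7 ∧ n = 4 ∧ p = 10 ∧ q = 8))) ∨ (((j = 7 ∧ n = 4 ∧ p = 11 ∧ q = 7) ∨ (j = 7 ∧ n = 4 ∧ p = 11 ∧ q = 8)) ∨ (j = 7 ∧ n = 5 ∧ p = 7 ∧ q = 8)))) ∨ (((((j = 7 ∧ n = 5 ∧ p = 7 ∧ q = 9)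 ∨ (j = 7 ∧ n = 5 ∧ p = 8 ∧ q = 8)) ∨ ((j = 7 ∧ n = 5 ∧ p = 8 ∧ q = 9) ∨ (j = 7 ∧ n = 5 ∧ p = 9 ∧ q = 8))) ∨ (((j = 7 ∧ n = 5 ∧ p = 9 ∧ q = 9) ∨ (j = 7 ∧ n = 5 ∧ p = 10 ∧ q = 9)) ∨ (j = 7 ∧ n = 5 ∧ p = 11 ∧ q = 9))) ∨ ((((j = 7 ∧ n = 5 ∧ p = 12 ∧ q = 9) ∨ (j = 7 ∧ n = 6 ∧ p = 7 ∧ q = 9)) ∨ ((j = 7 ∧ n = 6 ∧ p = 8 ∧ q = 9) ∨ (j = 7 ∧ n = 6 ∧ p = 9 ∧ q = 9))) ∨ (((j = 7 ∧ n = 6 ∧ p = 10 ∧ q = 9) ∨ (j = 7 ∧ n = 6 ∧ p = 11 ∧ q = 9)) ∨ (j = 7 ∧ n = 6 ∧ p = 12 ∧ q = 9))))))))) →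
      ¬ f (a0 + j) (b0 + n) (x0 + p) (y0 + q)) : False :=
  check_sound hf o2w8_cert_chk
    ⟨fun h => absurd h (by decide), fun h => absurd h (by decide),
      fun h => absurd h (by decide), ha, hb, hx, hy⟩
    (fun j n p q hr h => h1 j n p q hr (of_decide_eq_true h))
    (fun j n p q hr h => h0 j n p q hr (of_decide_eq_true h))

end Pool.Agent.SNT.Loc

namespace Pool.Agent.SNT.O2W

open Pool.Agent.SNT Pool.Agent.SNT.Sig Pool.Agent.SNT.ZoneT Pool.Agent.SNT.ZoneI Pool.Agent.SNT.LW Pool.Agent.SNT.NHZ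

variable {f : ℕ → ℕ → ℕ → ℕ → Prop} {k b m : ℕ}

/-- the cell `d = 2 k - 6` of the line `y = 2 n - 2` of `6 k + 1` in the row `c + 2` -/
theorem out2_w8 (hf : Rule f) (hs : Side k b m) (S : Stack6 f k b m 0 0 0 0 0 1) {n : ℕ}
    (hn : n = m + 9 + (k + 2) * 4)
    (d0 : Cyc f (6 * k) (b + 16) (2 * (n - 7) + 2)) (d2 : Cyc f (6 * k + 2) (b + 18) (2 * (n - 4) + 2))
    (d4 : Cyc f (6 * k + 4) (b + 20) (2 * (n + 1) + 2))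
    (hp2 : ∀ x : ℕ, x % 2 = 1 → 2 * n + 9 ≤ x → x + 1 ≤ 2 * n + 2 * k → ¬ f (6 * k + 2) (b + 24) x (2 * n + 4))
    (hp6 : ∀ x : ℕ, x % 2 = 1 → 2 * n + 7 ≤ x → x + 1 ≤ 2 * n + 2 * k → ¬ f (6 * k + 6) (b + 24) x (2 * n + 4)) :
    ¬ f (6 * k + 1) (b + 24) (2 * n + 2 * k - 8) (2 * n - 2) := by
  intro h
  have Z := NHT.of_stack hs S
  have U := NHU.of_stack hs S
  obtain ⟨hk, hb, h4, hb2, hm⟩ := hs
  have hlw : ∀ L R x y : ℕ, L + 1 = 6 * k → b ≤ R → R ≤ b + 40 → 2 * m ≤ x → y ≤ x →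
      x ≤ y + 3 * k → ¬ f L R x y := by
    intro L R x y hM h2 h3 h4' h5 h6 h
    have e : L = 6 * k - 1 := by omega
    have e2 : R = b + (R - b) := by omega
    rw [e, e2] at h
    have h7 := (S.lw (R - b) (by omega) x y (by rw [max_eq_left h5]; omega)).1 h
    exact Fst_near_odd (by omega) (by rw [max_eq_left h5, min_eq_right h5]; omega) h7
  have y0_6 : Lay (6 * k) (b + 16) k := ⟨by omega, by omega, by omega, by omega⟩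
  have y2_3 : Lay (6 * k + 2) (b + 2 + 4 * 4) k := ⟨by omega, by omega, by omega, by omega⟩
  have y2_5 : Lay (6 * k + 2) (b + 18) k := ⟨by omega, by omega, by omega, by omega⟩
  have y4_3 : Lay (6 * k + 4) (b + 4 * 5) k := ⟨by omega, by omega, by omega, by omega⟩
  obtain ⟨n1, rfl⟩ : ∃ n1, n = n1 + 7 := ⟨n - 7, by omega⟩
  rw [show n1 + 7 - 7 = n1 from rfl] at d0
  rw [show n1 + 7 - 4 = n1 + 3 from rfl] at d2
  obtain ⟨x0, ex⟩ : ∃ x0, x0 + 10 = 2 * (n1 + 7) + 2 * k := ⟨2 * (n1 + 7) + 2 * k - 10, by omega⟩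
  obtain ⟨y0, ey⟩ : ∃ y0, y0 + 5 = 2 * (n1 + 7) := ⟨2 * (n1 + 7) - 5, by omega⟩
  obtain ⟨a0, ea⟩ : ∃ a0, a0 + 2 = 6 * k := ⟨6 * k - 2, by omega⟩
  refine Loc.o2w8_cert hf (a0 := a0) (b0 := b + 18) (x0 := x0) (y0 := y0) (by omega) (by omega)
    (by omega) (by omega) ?_ ?_
  · intro j n p q _ hx
    rcases hx with (((((⟨rfl, rfl, rfl, rfl⟩ | ⟨rfl, rfl, rfl, rfl⟩) | ⟨rfl, rfl, rfl, rfl⟩) | ((⟨rfl, rfl, rfl, rfl⟩ | ⟨rfl, rfl, rfl, rfl⟩) | ⟨rfl, rfl, rfl, rfl⟩)) | 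
      (((⟨rfl, rfl, rfl, rfl⟩ | ⟨rfl, rfl, rfl, rfl⟩) | ⟨rfl, rfl, rfl, rfl⟩) | (⟨rfl, rfl, rfl, rfl⟩ | ⟨rfl, rfl, rfl, rfl⟩))) | ((((⟨rfl, rfl, rfl, rfl⟩ | 
      ⟨rfl, rfl, rfl, rfl⟩) | ⟨rfl, rfl, rfl, rfl⟩) | (⟨rfl, rfl, rfl, rfl⟩ | ⟨rfl, rfl, rfl, rfl⟩)) | (((⟨rfl, rfl, rfl, rfl⟩ | ⟨rfl, rfl, rfl, rfl⟩) | 
      ⟨rfl, rfl, rfl, rfl⟩) | (⟨rfl, rfl, rfl, rfl⟩ | ⟨rfl, rfl, rfl, rfl⟩))))
    · exact (v3x y0_6 d0 (by omega) (by omega) (by omega) (by omega) (by omega)).2 (by unfold V3; omega)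
    · exact (v3x y0_6 d0 (by omega) (by omega) (by omega) (by omega) (by omega)).2 (by unfold V3; omega)
    · exact (v3x y0_6 d0 (by omega) (by omega) (by omega) (by omega) (by omega)).2 (by unfold V3; omega)
    · exact (v3x y0_6 d0 (by omega) (by omega) (by omega) (by omega) (by omega)).2 (by unfold V3; omega)
    · exact (v3x y0_6 d0 (by omega) (by omega) (by omega) (by omega) (by omega)).2 (by unfold V3; omega)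
    · exact (v3x y0_6 d0 (by omega) (by omega) (by omega) (by omega) (by omega)).2 (by unfold V3; omega)
    · exact mv h (by omega) (by omega) (by omega) (by omega)
    · exact (v2s y2_5 d2 (by omega) (by omega) (by omega) (by omega) (by omega) (by omega)).2 (by unfold V2; omega)
    · exact (v2s y2_5 d2 (by omega) (by omega) (by omega) (by omega) (by omega) (by omega)).2 (by unfold V2; omega)
    · exact (v2x y2_3 (S.l2 4) (by omega) (by omega) (by omega) (by omega) (by omega) (by omega)).2 (by unfold V2; omega)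
    · exact (v2s y2_5 d2 (by omega) (by omega) (by omega) (by omega) (by omega) (by omega)).2 (by unfold V2; omega)
    · exact (v2s y2_5 d2 (by omega) (by omega) (by omega) (by omega) (by omega) (by omega)).2 (by unfold V2; omega)
    · exact (v3x y2_5 d2 (by omega) (by omega) (by omega) (by omega) (by omega)).2 (by unfold V3; omega)
    · exact (v3x y2_5 d2 (by omega) (by omega) (by omega) (by omega) (by omega)).2 (by unfold V3; omega)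
    · exact (v3x y2_5 d2 (by omega) (by omega) (by omega) (by omega) (by omega)).2 (by unfold V3; omega)
    · exact (v3x y2_5 d2 (by omega) (by omega) (by omega) (by omega) (by omega)).2 (by unfold V3; omega)
    · exact (v3x y2_5 d2 (by omega) (by omega) (by omega) (by omega) (by omega)).2 (by unfold V3; omega)
    · exact (v0 y4_3 (S.l4 5) (by omega) (by omega) (by omega) (by omega) (by omega)).2 (by unfold V0; omega)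
    · exact (v1 y4_3 (S.l4 5) (by omega) (by omega) (by omega) (by omega) (by omega)).2 (by unfold V1; omega)
    · exact (v1 y4_3 (S.l4 5) (by omega) (by omega) (by omega) (by omega) (by omega)).2 (by unfold V1; omega)
    · exact (v2x y4_3 (S.l4 5) (by omega) (by omega) (by omega) (by omega) (by omega) (by omega)).2 (by unfold V2; omega)
  · intro j n p q hr hx
    rcases hx with ((((((((rfl | ⟨rfl, rfl, rfl, rfl⟩) | (⟨rfl, rfl, rfl, rfl⟩ | ⟨rfl, rfl, rfl, rfl⟩)) | ((⟨rfl, rfl, rfl, rfl⟩ | ⟨rfl, rfl, rfl, rfl⟩) | 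
      (⟨rfl, rfl, rfl, rfl⟩ | ⟨rfl, rfl, rfl, rfl⟩))) | (((⟨rfl, rfl, rfl, rfl⟩ | ⟨rfl, rfl, rfl, rfl⟩) | (⟨rfl, rfl, rfl, rfl⟩ | ⟨rfl, rfl, rfl, rfl⟩)) | 
      ((⟨rfl, rfl, rfl, rfl⟩ | ⟨rfl, rfl, rfl, rfl⟩) | ⟨rfl, rfl, rfl, rfl⟩))) | ((((⟨rfl, rfl, rfl, rfl⟩ | ⟨rfl, rfl, rfl, rfl⟩) | (⟨rfl, rfl, rfl, rfl⟩ | 
      ⟨rfl, rfl, rfl, rfl⟩)) | ((⟨rfl, rfl, rfl, rfl⟩ | ⟨rfl, rfl, rfl, rfl⟩) | (⟨rfl, rfl, rfl, rfl⟩ | ⟨rfl, rfl, rfl, rfl⟩))) | (((⟨rfl, rfl, rfl, rfl⟩ | 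
      ⟨rfl, rfl, rfl, rfl⟩) | (⟨rfl, rfl, rfl, rfl⟩ | ⟨rfl, rfl, rfl, rfl⟩)) | ((⟨rfl, rfl, rfl, rfl⟩ | ⟨rfl, rfl, rfl, rfl⟩) | ⟨rfl, rfl, rfl, rfl⟩)))) | 
      (((((⟨rfl, rfl, rfl, rfl⟩ | ⟨rfl, rfl, rfl, rfl⟩) | (⟨rfl, rfl, rfl, rfl⟩ | ⟨rfl, rfl, rfl, rfl⟩)) | ((⟨rfl, rfl, rfl, rfl⟩ | ⟨rfl, rfl, rfl, rfl⟩) | 
      (⟨rfl, rfl, rfl, rfl⟩ | ⟨rfl, rfl, rfl, rfl⟩))) | (((⟨rfl, rfl, rfl, rfl⟩ | ⟨rfl, rfl, rfl, rfl⟩) | (⟨rfl, rfl, rfl, rfl⟩ | ⟨rfl, rfl, rfl, rfl⟩)) | 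
      ((⟨rfl, rfl, rfl, rfl⟩ | ⟨rfl, rfl, rfl, rfl⟩) | ⟨rfl, rfl, rfl, rfl⟩))) | ((((⟨rfl, rfl, rfl, rfl⟩ | ⟨rfl, rfl, rfl, rfl⟩) | (⟨rfl, rfl, rfl, rfl⟩ | 
      ⟨rfl, rfl, rfl, rfl⟩)) | ((⟨rfl, rfl, rfl, rfl⟩ | ⟨rfl, rfl, rfl, rfl⟩) | ⟨rfl, rfl, rfl, rfl⟩)) | (((⟨rfl, rfl, rfl, rfl⟩ | ⟨rfl, rfl, rfl, rfl⟩) | 
      (⟨rfl, rfl, rfl, rfl⟩ | ⟨rfl, rfl, rfl, rfl⟩)) | ((⟨rfl, rfl, rfl, rfl⟩ | ⟨rfl, rfl, rfl, rfl⟩) | ⟨rfl, rfl, rfl, rfl⟩))))) | ((((((⟨rfl, rfl, rfl, rfl⟩ | 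
      ⟨rfl, rfl, rfl, rfl⟩) | (⟨rfl, rfl, rfl, rfl⟩ | ⟨rfl, rfl, rfl, rfl⟩)) | ((⟨rfl, rfl, rfl, rfl⟩ | ⟨rfl, rfl, rfl, rfl⟩) | (⟨rfl, rfl, rfl, rfl⟩ | 
      ⟨rfl, rfl, rfl, rfl⟩))) | (((⟨rfl, rfl, rfl, rfl⟩ | ⟨rfl, rfl, rfl, rfl⟩) | (⟨rfl, rfl, rfl, rfl⟩ | ⟨rfl, rfl, rfl, rfl⟩)) | ((⟨rfl, rfl, rfl, rfl⟩ | 
      ⟨rfl, rfl, rfl, rfl⟩) | ⟨rfl, rfl, rfl, rfl⟩))) | ((((⟨rfl, rfl, rfl, rfl⟩ | ⟨rfl, rfl, rfl, rfl⟩) | (⟨rfl, rfl, rfl, rfl⟩ | ⟨rfl, rfl, rfl, rfl⟩)) | 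
      ((⟨rfl, rfl, rfl, rfl⟩ | ⟨rfl, rfl, rfl, rfl⟩) | (⟨rfl, rfl, rfl, rfl⟩ | ⟨rfl, rfl, rfl, rfl⟩))) | (((⟨rfl, rfl, rfl, rfl⟩ | ⟨rfl, rfl, rfl, rfl⟩) | 
      (⟨rfl, rfl, rfl, rfl⟩ | ⟨rfl, rfl, rfl, rfl⟩)) | ((⟨rfl, rfl, rfl, rfl⟩ | ⟨rfl, rfl, rfl, rfl⟩) | ⟨rfl, rfl, rfl, rfl⟩)))) | (((((⟨rfl, rfl, rfl, rfl⟩ | 
      ⟨rfl, rfl, rfl, rfl⟩) | (⟨rfl, rfl, rfl, rfl⟩ | ⟨rfl, rfl, rfl, rfl⟩)) | ((⟨rfl, rfl, rfl, rfl⟩ | ⟨rfl, rfl, rfl, rfl⟩) | (⟨rfl, rfl, rfl, rfl⟩ | 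
      ⟨rfl, rfl, rfl, rfl⟩))) | (((⟨rfl, rfl, rfl, rfl⟩ | ⟨rfl, rfl, rfl, rfl⟩) | (⟨rfl, rfl, rfl, rfl⟩ | ⟨rfl, rfl, rfl, rfl⟩)) | ((⟨rfl, rfl, rfl, rfl⟩ | 
      ⟨rfl, rfl, rfl, rfl⟩) | ⟨rfl, rfl, rfl, rfl⟩))) | ((((⟨rfl, rfl, rfl, rfl⟩ | ⟨rfl, rfl, rfl, rfl⟩) | (⟨rfl, rfl, rfl, rfl⟩ | ⟨rfl, rfl, rfl, rfl⟩)) | 
      ((⟨rfl, rfl, rfl, rfl⟩ | ⟨rfl, rfl, rfl, rfl⟩) | ⟨rfl, rfl, rfl, rfl⟩)) | (((⟨rfl, rfl, rfl, rfl⟩ | ⟨rfl, rfl, rfl, rfl⟩) | (⟨rfl, rfl, rfl, rfl⟩ | 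
      ⟨rfl, rfl, rfl, rfl⟩)) | ((⟨rfl, rfl, rfl, rfl⟩ | ⟨rfl, rfl, rfl, rfl⟩) | ⟨rfl, rfl, rfl, rfl⟩)))))) | (((((((⟨rfl, rfl, rfl, rfl⟩ | ⟨rfl, rfl, rfl, rfl⟩) | 
      (⟨rfl, rfl, rfl, rfl⟩ | ⟨rfl, rfl, rfl, rfl⟩)) | ((⟨rfl, rfl, rfl, rfl⟩ | ⟨rfl, rfl, rfl, rfl⟩) | (⟨rfl, rfl, rfl, rfl⟩ | ⟨rfl, rfl, rfl, rfl⟩))) | 
      (((⟨rfl, rfl, rfl, rfl⟩ | ⟨rfl, rfl, rfl, rfl⟩) | (⟨rfl, rfl, rfl, rfl⟩ | ⟨rfl, rfl, rfl, rfl⟩)) | ((⟨rfl, rfl, rfl, rfl⟩ | ⟨rfl, rfl, rfl, rfl⟩) | 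
      ⟨rfl, rfl, rfl, rfl⟩))) | ((((⟨rfl, rfl, rfl, rfl⟩ | ⟨rfl, rfl, rfl, rfl⟩) | (⟨rfl, rfl, rfl, rfl⟩ | ⟨rfl, rfl, rfl, rfl⟩)) | ((⟨rfl, rfl, rfl, rfl⟩ | 
      ⟨rfl, rfl, rfl, rfl⟩) | (⟨rfl, rfl, rfl, rfl⟩ | ⟨rfl, rfl, rfl, rfl⟩))) | (((⟨rfl, rfl, rfl, rfl⟩ | ⟨rfl, rfl, rfl, rfl⟩) | (⟨rfl, rfl, rfl, rfl⟩ | 
      ⟨rfl, rfl, rfl, rfl⟩)) | ((⟨rfl, rfl, rfl, rfl⟩ | ⟨rfl, rfl, rfl, rfl⟩) | ⟨rfl, rfl, rfl, rfl⟩)))) | (((((⟨rfl, rfl, rfl, rfl⟩ | ⟨rfl, rfl, rfl, rfl⟩) | 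
      (⟨rfl, rfl, rfl, rfl⟩ | ⟨rfl, rfl, rfl, rfl⟩)) | ((⟨rfl, rfl, rfl, rfl⟩ | ⟨rfl, rfl, rfl, rfl⟩) | (⟨rfl, rfl, rfl, rfl⟩ | ⟨rfl, rfl, rfl, rfl⟩))) | 
      (((⟨rfl, rfl, rfl, rfl⟩ | ⟨rfl, rfl, rfl, rfl⟩) | (⟨rfl, rfl, rfl, rfl⟩ | ⟨rfl, rfl, rfl, rfl⟩)) | ((⟨rfl, rfl, rfl, rfl⟩ | ⟨rfl, rfl, rfl, rfl⟩) | 
      ⟨rfl, rfl, rfl, rfl⟩))) | ((((⟨rfl, rfl, rfl, rfl⟩ | ⟨rfl, rfl, rfl, rfl⟩) | (⟨rfl, rfl, rfl, rfl⟩ | ⟨rfl, rfl, rfl, rfl⟩)) | ((⟨rfl, rfl, rfl, rfl⟩ | 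
      ⟨rfl, rfl, rfl, rfl⟩) | ⟨rfl, rfl, rfl, rfl⟩)) | (((⟨rfl, rfl, rfl, rfl⟩ | ⟨rfl, rfl, rfl, rfl⟩) | (⟨rfl, rfl, rfl, rfl⟩ | ⟨rfl, rfl, rfl, rfl⟩)) | 
      ((⟨rfl, rfl, rfl, rfl⟩ | ⟨rfl, rfl, rfl, rfl⟩) | ⟨rfl, rfl, rfl, rfl⟩))))) | ((((((⟨rfl, rfl, rfl, rfl⟩ | ⟨rfl, rfl, rfl, rfl⟩) | (⟨rfl, rfl, rfl, rfl⟩ | 
      ⟨rfl, rfl, rfl, rfl⟩)) | ((⟨rfl, rfl, rfl, rfl⟩ | ⟨rfl, rfl, rfl, rfl⟩) | (⟨rfl, rfl, rfl, rfl⟩ | ⟨rfl, rfl, rfl, rfl⟩))) | (((⟨rfl, rfl, rfl, rfl⟩ | 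
      ⟨rfl, rfl, rfl, rfl⟩) | (⟨rfl, rfl, rfl, rfl⟩ | ⟨rfl, rfl, rfl, rfl⟩)) | ((⟨rfl, rfl, rfl, rfl⟩ | ⟨rfl, rfl, rfl, rfl⟩) | ⟨rfl, rfl, rfl, rfl⟩))) | 
      ((((⟨rfl, rfl, rfl, rfl⟩ | ⟨rfl, rfl, rfl, rfl⟩) | (⟨rfl, rfl, rfl, rfl⟩ | ⟨rfl, rfl, rfl, rfl⟩)) | ((⟨rfl, rfl, rfl, rfl⟩ | ⟨rfl, rfl, rfl, rfl⟩) | 
      (⟨rfl, rfl, rfl, rfl⟩ | ⟨rfl, rfl, rfl, rfl⟩))) | (((⟨rfl, rfl, rfl, rfl⟩ | ⟨rfl, rfl, rfl, rfl⟩) | (⟨rfl, rfl, rfl, rfl⟩ | ⟨rfl, rfl, rfl, rfl⟩)) | 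
      ((⟨rfl, rfl, rfl, rfl⟩ | ⟨rfl, rfl, rfl, rfl⟩) | ⟨rfl, rfl, rfl, rfl⟩)))) | (((((⟨rfl, rfl, rfl, rfl⟩ | ⟨rfl, rfl, rfl, rfl⟩) | (⟨rfl, rfl, rfl, rfl⟩ | 
      ⟨rfl, rfl, rfl, rfl⟩)) | ((⟨rfl, rfl, rfl, rfl⟩ | ⟨rfl, rfl, rfl, rfl⟩) | (⟨rfl, rfl, rfl, rfl⟩ | ⟨rfl, rfl, rfl, rfl⟩))) | (((⟨rfl, rfl, rfl, rfl⟩ | 
      ⟨rfl, rfl, rfl, rfl⟩) | (⟨rfl, rfl, rfl, rfl⟩ | ⟨rfl, rfl, rfl, rfl⟩)) | ((⟨rfl, rfl, rfl, rfl⟩ | ⟨rfl, rfl, rfl, rfl⟩) | ⟨rfl, rfl, rfl, rfl⟩))) | 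
      ((((⟨rfl, rfl, rfl, rfl⟩ | ⟨rfl, rfl, rfl, rfl⟩) | (⟨rfl, rfl, rfl, rfl⟩ | ⟨rfl, rfl, rfl, rfl⟩)) | ((⟨rfl, rfl, rfl, rfl⟩ | ⟨rfl, rfl, rfl, rfl⟩) | 
      ⟨rfl, rfl, rfl, rfl⟩)) | (((⟨rfl, rfl, rfl, rfl⟩ | ⟨rfl, rfl, rfl, rfl⟩) | (⟨rfl, rfl, rfl, rfl⟩ | ⟨rfl, rfl, rfl, rfl⟩)) | ((⟨rfl, rfl, rfl, rfl⟩ | 
      ⟨rfl, rfl, rfl, rfl⟩) | ⟨rfl, rfl, rfl, rfl⟩)))))))
    · obtain ⟨r1, r2, r3, r4, r5, r6, r7, r8⟩ := hr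
      exact hlw _ _ _ _ (by omega) (by omega) (by omega) (by omega) (by omega) (by omega)
    · exact fun t => absurd ((v3s y0_6 d0 (by omega) (by omega) (by omega) (by omega) (by omega) (by omega)).1 t) (by unfold V3; omega)
    · exact fun t => absurd ((v3s y0_6 d0 (by omega) (by omega) (by omega) (by omega) (by omega) (by omega)).1 t) (by unfold V3; omega)
    · exact fun t => absurd ((v3x y0_6 d0 (by omega) (by omega) (by omega) (by omega) (by omega)).1 t) (by unfold V3; omega)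
    · exact fun t => absurd ((v3s y0_6 d0 (by omega) (by omega) (by omega) (by omega) (by omega) (by omega)).1 t) (by unfold V3; omega)
    · exact fun t => absurd ((v3s y0_6 d0 (by omega) (by omega) (by omega) (by omega) (by omega) (by omega)).1 t) (by unfold V3; omega)
    · exact fun t => absurd ((v3s y0_6 d0 (by omega) (by omega) (by omega) (by omega) (by omega) (by omega)).1 t) (by unfold V3; omega)
    · exact fun t => absurd ((v3s y0_6 d0 (by omega) (by omega) (by omega) (by omega) (by omega) (by omega)).1 t) (by unfold V3; omega)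
    · exact fun t => absurd ((v3s y0_6 d0 (by omega) (by omega) (by omega) (by omega) (by omega) (by omega)).1 t) (by unfold V3; omega)
    · exact fun t => absurd ((v3x y0_6 d0 (by omega) (by omega) (by omega) (by omega) (by omega)).1 t) (by unfold V3; omega)
    · exact fun t => absurd ((v3x y0_6 d0 (by omega) (by omega) (by omega) (by omega) (by omega)).1 t) (by unfold V3; omega)
    · exact fun t => absurd ((v3s y0_6 d0 (by omega) (by omega) (by omega) (by omega) (by omega) (by omega)).1 t) (by unfold V3; omega)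
    · exact fun t => absurd ((v3s y0_6 d0 (by omega) (by omega) (by omega) (by omega) (by omega) (by omega)).1 t) (by unfold V3; omega)
    · exact fun t => absurd ((v3s y0_6 d0 (by omega) (by omega) (by omega) (by omega) (by omega) (by omega)).1 t) (by unfold V3; omega)
    · exact fun t => absurd ((v3s y0_6 d0 (by omega) (by omega) (by omega) (by omega) (by omega) (by omega)).1 t) (by unfold V3; omega)
    · exact fun t => absurd ((v3x y0_6 d0 (by omega) (by omega) (by omega) (by omega) (by omega)).1 t) (by unfold V3; omega)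
    · exact fun t => absurd ((v3x y0_6 d0 (by omega) (by omega) (by omega) (by omega) (by omega)).1 t) (by unfold V3; omega)
    · exact fun t => absurd ((v3s y0_6 d0 (by omega) (by omega) (by omega) (by omega) (by omega) (by omega)).1 t) (by unfold V3; omega)
    · exact fun t => absurd ((v3x y0_6 d0 (by omega) (by omega) (by omega) (by omega) (by omega)).1 t) (by unfold V3; omega)
    · exact fun t => absurd ((v3x y0_6 d0 (by omega) (by omega) (by omega) (by omega) (by omega)).1 t) (by unfold V3; omega)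
    · exact fun t => absurd ((v3x y0_6 d0 (by omega) (by omega) (by omega) (by omega) (by omega)).1 t) (by unfold V3; omega)
    · exact fun t => absurd ((v3x y0_6 d0 (by omega) (by omega) (by omega) (by omega) (by omega)).1 t) (by unfold V3; omega)
    · exact fun t => absurd ((v3x y0_6 d0 (by omega) (by omega) (by omega) (by omega) (by omega)).1 t) (by unfold V3; omega)
    · exact Z.rOut hf (t := 3) (p := 0) (j := 3) (by omega) (by omega) (by omega) (by omega) (by omega) (by omega) (by omega) (by omega)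
    · exact Z.rOut hf (t := 3) (p := 0) (j := 3) (by omega) (by omega) (by omega) (by omega) (by omega) (by omega) (by omega) (by omega)
    · exact Z.rOut hf (t := 3) (p := 0) (j := 3) (by omega) (by omega) (by omega) (by omega) (by omega) (by omega) (by omega) (by omega)
    · exact Z.rOut hf (t := 4) (p := 0) (j := 4) (by omega) (by omega) (by omega) (by omega) (by omega) (by omega) (by omega) (by omega)
    · exact Z.rOut hf (t := 4) (p := 0) (j := 4) (by omega) (by omega) (by omega) (by omega) (by omega) (by omega) (by omega) (by omega)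
    · exact Z.rOut hf (t := 4) (p := 0) (j := 4) (by omega) (by omega) (by omega) (by omega) (by omega) (by omega) (by omega) (by omega)
    · exact Z.rOut hf (t := 4) (p := 0) (j := 4) (by omega) (by omega) (by omega) (by omega) (by omega) (by omega) (by omega) (by omega)
    · exact Z.rOut hf (t := 4) (p := 0) (j := 4) (by omega) (by omega) (by omega) (by omega) (by omega) (by omega) (by omega) (by omega)
    · exact Z.rOut hf (t := 4) (p := 0) (j := 4) (by omega) (by omega) (by omega) (by omega) (by omega) (by omega) (by omega) (by omega)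
    · exact Z.rOut hf (t := 4) (p := 0) (j := 4) (by omega) (by omega) (by omega) (by omega) (by omega) (by omega) (by omega) (by omega)
    · exact Z.rOut hf (t := 4) (p := 0) (j := 4) (by omega) (by omega) (by omega) (by omega) (by omega) (by omega) (by omega) (by omega)
    · exact Z.rOut hf (t := 4) (p := 0) (j := 4) (by omega) (by omega) (by omega) (by omega) (by omega) (by omega) (by omega) (by omega)
    · exact Z.rOut hf (t := 4) (p := 0) (j := 4) (by omega) (by omega) (by omega) (by omega) (by omega) (by omega) (by omega) (by omega)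
    · exact Z.rOut hf (t := 4) (p := 0) (j := 4) (by omega) (by omega) (by omega) (by omega) (by omega) (by omega) (by omega) (by omega)
    · exact Z.rOut hf (t := 4) (p := 0) (j := 4) (by omega) (by omega) (by omega) (by omega) (by omega) (by omega) (by omega) (by omega)
    · exact Z.rOut hf (t := 4) (p := 0) (j := 4) (by omega) (by omega) (by omega) (by omega) (by omega) (by omega) (by omega) (by omega)
    · exact Z.rOut hf (t := 4) (p := 0) (j := 4) (by omega) (by omega) (by omega) (by omega) (by omega) (by omega) (by omega) (by omega)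
    · exact Z.rOut hf (t := 4) (p := 0) (j := 4) (by omega) (by omega) (by omega) (by omega) (by omega) (by omega) (by omega) (by omega)
    · exact Z.rOut hf (t := 4) (p := 0) (j := 4) (by omega) (by omega) (by omega) (by omega) (by omega) (by omega) (by omega) (by omega)
    · exact Z.rOut hf (t := 4) (p := 0) (j := 4) (by omega) (by omega) (by omega) (by omega) (by omega) (by omega) (by omega) (by omega)
    · exact Z.rOut hf (t := 4) (p := 0) (j := 4) (by omega) (by omega) (by omega) (by omega) (by omega) (by omega) (by omega) (by omega)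
    · exact Z.rOut hf (t := 4) (p := 0) (j := 4) (by omega) (by omega) (by omega) (by omega) (by omega) (by omega) (by omega) (by omega)
    · exact Z.rOut hf (t := 4) (p := 0) (j := 4) (by omega) (by omega) (by omega) (by omega) (by omega) (by omega) (by omega) (by omega)
    · exact Z.pm hf (j := 2) (by omega) (by omega) (by omega) (by omega) (by omega) (by omega)
    · exact Z.pm hf (j := 2) (by omega) (by omega) (by omega) (by omega) (by omega) (by omega)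
    · exact Z.pm hf (j := 2) (by omega) (by omega) (by omega) (by omega) (by omega) (by omega)
    · exact Z.pm hf (j := 2) (by omega) (by omega) (by omega) (by omega) (by omega) (by omega)
    · exact Z.pm hf (j := 2) (by omega) (by omega) (by omega) (by omega) (by omega) (by omega)
    · exact Z.pm hf (j := 2) (by omega) (by omega) (by omega) (by omega) (by omega) (by omega)
    · exact Z.p0 hf (j := 3) (by omega) (by omega) (by omega) (by omega) (by omega) (by omega)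
    · exact Z.p0 hf (j := 3) (by omega) (by omega) (by omega) (by omega) (by omega) (by omega)
    · exact Z.p0 hf (j := 3) (by omega) (by omega) (by omega) (by omega) (by omega) (by omega)
    · exact Z.p0 hf (j := 3) (by omega) (by omega) (by omega) (by omega) (by omega) (by omega)
    · exact Z.rOut hf (t := 4) (p := 1) (j := 4) (by omega) (by omega) (by omega) (by omega) (by omega) (by omega) (by omega) (by omega)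
    · exact Z.rOut hf (t := 4) (p := 1) (j := 4) (by omega) (by omega) (by omega) (by omega) (by omega) (by omega) (by omega) (by omega)
    · exact Z.rOut hf (t := 4) (p := 1) (j := 4) (by omega) (by omega) (by omega) (by omega) (by omega) (by omega) (by omega) (by omega)
    · exact Z.rOut hf (t := 4) (p := 1) (j := 4) (by omega) (by omega) (by omega) (by omega) (by omega) (by omega) (by omega) (by omega)
    · exact Z.rOut hf (t := 4) (p := 1) (j := 4) (by omega) (by omega) (by omega) (by omega) (by omega) (by omega) (by omega) (by omega)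
    · exact Z.rOut hf (t := 4) (p := 1) (j := 4) (by omega) (by omega) (by omega) (by omega) (by omega) (by omega) (by omega) (by omega)
    · exact Z.rOut hf (t := 4) (p := 1) (j := 4) (by omega) (by omega) (by omega) (by omega) (by omega) (by omega) (by omega) (by omega)
    · exact Z.rOut hf (t := 4) (p := 1) (j := 4) (by omega) (by omega) (by omega) (by omega) (by omega) (by omega) (by omega) (by omega)
    · exact Z.rOut hf (t := 4) (p := 1) (j := 4) (by omega) (by omega) (by omega) (by omega) (by omega) (by omega) (by omega) (by omega)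
    · exact Z.rOut hf (t := 4) (p := 1) (j := 4) (by omega) (by omega) (by omega) (by omega) (by omega) (by omega) (by omega) (by omega)
    · exact Z.p2 hf (j := 4) (by omega) (by omega) (by omega) (by omega) (by omega) (by omega)
    · exact Z.rOut hf (t := 4) (p := 1) (j := 4) (by omega) (by omega) (by omega) (by omega) (by omega) (by omega) (by omega) (by omega)
    · exact Z.rOut hf (t := 4) (p := 1) (j := 4) (by omega) (by omega) (by omega) (by omega) (by omega) (by omega) (by omega) (by omega)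
    · exact Z.rOut hf (t := 4) (p := 1) (j := 4) (by omega) (by omega) (by omega) (by omega) (by omega) (by omega) (by omega) (by omega)
    · exact Z.p2 hf (j := 4) (by omega) (by omega) (by omega) (by omega) (by omega) (by omega)
    · exact Z.rOut hf (t := 4) (p := 1) (j := 4) (by omega) (by omega) (by omega) (by omega) (by omega) (by omega) (by omega) (by omega)
    · exact Z.rOut hf (t := 4) (p := 1) (j := 4) (by omega) (by omega) (by omega) (by omega) (by omega) (by omega) (by omega) (by omega)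
    · exact Z.rOut hf (t := 4) (p := 1) (j := 4) (by omega) (by omega) (by omega) (by omega) (by omega) (by omega) (by omega) (by omega)
    · exact Z.p2 hf (j := 4) (by omega) (by omega) (by omega) (by omega) (by omega) (by omega)
    · exact Z.rOut hf (t := 4) (p := 1) (j := 4) (by omega) (by omega) (by omega) (by omega) (by omega) (by omega) (by omega) (by omega)
    · exact Z.rOut hf (t := 4) (p := 1) (j := 4) (by omega) (by omega) (by omega) (by omega) (by omega) (by omega) (by omega) (by omega)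
    · exact Z.p2 hf (j := 4) (by omega) (by omega) (by omega) (by omega) (by omega) (by omega)
    · exact Z.rOut hf (t := 4) (p := 1) (j := 4) (by omega) (by omega) (by omega) (by omega) (by omega) (by omega) (by omega) (by omega)
    · exact Z.p2 hf (j := 4) (by omega) (by omega) (by omega) (by omega) (by omega) (by omega)
    · exact Z.p2 hf (j := 4) (by omega) (by omega) (by omega) (by omega) (by omega) (by omega)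
    · exact Z.p2 hf (j := 4) (by omega) (by omega) (by omega) (by omega) (by omega) (by omega)
    · exact Z.p2 hf (j := 4) (by omega) (by omega) (by omega) (by omega) (by omega) (by omega)
    · exact Z.p2 hf (j := 4) (by omega) (by omega) (by omega) (by omega) (by omega) (by omega)
    · exact Z.p2 hf (j := 4) (by omega) (by omega) (by omega) (by omega) (by omega) (by omega)
    · exact Z.p2 hf (j := 4) (by omega) (by omega) (by omega) (by omega) (by omega) (by omega)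
    · exact Z.p2 hf (j := 4) (by omega) (by omega) (by omega) (by omega) (by omega) (by omega)
    · exact fun t => absurd ((v3s y2_5 d2 (by omega) (by omega) (by omega) (by omega) (by omega) (by omega)).1 t) (by unfold V3; omega)
    · exact fun t => absurd ((v3s y2_5 d2 (by omega) (by omega) (by omega) (by omega) (by omega) (by omega)).1 t) (by unfold V3; omega)
    · exact fun t => absurd ((v3s y2_5 d2 (by omega) (by omega) (by omega) (by omega) (by omega) (by omega)).1 t) (by unfold V3; omega)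
    · exact fun t => absurd ((v3s y2_5 d2 (by omega) (by omega) (by omega) (by omega) (by omega) (by omega)).1 t) (by unfold V3; omega)
    · exact fun t => absurd ((v3s y2_5 d2 (by omega) (by omega) (by omega) (by omega) (by omega) (by omega)).1 t) (by unfold V3; omega)
    · exact fun t => absurd ((v3s y2_5 d2 (by omega) (by omega) (by omega) (by omega) (by omega) (by omega)).1 t) (by unfold V3; omega)
    · exact fun t => absurd ((v3x y2_5 d2 (by omega) (by omega) (by omega) (by omega) (by omega)).1 t) (by unfold V3; omega)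
    · exact fun t => absurd ((v3x y2_5 d2 (by omega) (by omega) (by omega) (by omega) (by omega)).1 t) (by unfold V3; omega)
    · exact fun t => absurd ((v3s y2_5 d2 (by omega) (by omega) (by omega) (by omega) (by omega) (by omega)).1 t) (by unfold V3; omega)
    · exact fun t => absurd ((v3s y2_5 d2 (by omega) (by omega) (by omega) (by omega) (by omega) (by omega)).1 t) (by unfold V3; omega)
    · exact fun t => absurd ((v3s y2_5 d2 (by omega) (by omega) (by omega) (by omega) (by omega) (by omega)).1 t) (by unfold V3; omega)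
    · exact fun t => absurd ((v3x y2_5 d2 (by omega) (by omega) (by omega) (by omega) (by omega)).1 t) (by unfold V3; omega)
    · exact fun t => absurd ((v3x y2_5 d2 (by omega) (by omega) (by omega) (by omega) (by omega)).1 t) (by unfold V3; omega)
    · exact fun t => absurd ((v3s y2_5 d2 (by omega) (by omega) (by omega) (by omega) (by omega) (by omega)).1 t) (by unfold V3; omega)
    · exact fun t => absurd ((v3s y2_5 d2 (by omega) (by omega) (by omega) (by omega) (by omega) (by omega)).1 t) (by unfold V3; omega)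
    · exact fun t => absurd ((v3x y2_5 d2 (by omega) (by omega) (by omega) (by omega) (by omega)).1 t) (by unfold V3; omega)
    · exact fun t => absurd ((v3x y2_5 d2 (by omega) (by omega) (by omega) (by omega) (by omega)).1 t) (by unfold V3; omega)
    · exact fun t => absurd ((v3s y2_5 d2 (by omega) (by omega) (by omega) (by omega) (by omega) (by omega)).1 t) (by unfold V3; omega)
    · exact fun t => absurd ((v3x y2_5 d2 (by omega) (by omega) (by omega) (by omega) (by omega)).1 t) (by unfold V3; omega)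
    · exact fun t => absurd ((v3x y2_5 d2 (by omega) (by omega) (by omega) (by omega) (by omega)).1 t) (by unfold V3; omega)
    · exact Z.rOut hf (t := 4) (p := 0) (j := 3) (by omega) (by omega) (by omega) (by omega) (by omega) (by omega) (by omega) (by omega)
    · exact Z.rOut hf (t := 4) (p := 0) (j := 3) (by omega) (by omega) (by omega) (by omega) (by omega) (by omega) (by omega) (by omega)
    · exact Z.rOut hf (t := 4) (p := 0) (j := 3) (by omega) (by omega) (by omega) (by omega) (by omega) (by omega) (by omega) (by omega)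
    · exact Z.rOut hf (t := 4) (p := 0) (j := 3) (by omega) (by omega) (by omega) (by omega) (by omega) (by omega) (by omega) (by omega)
    · exact Z.rOut hf (t := 4) (p := 0) (j := 3) (by omega) (by omega) (by omega) (by omega) (by omega) (by omega) (by omega) (by omega)
    · exact Z.rOut hf (t := 4) (p := 0) (j := 3) (by omega) (by omega) (by omega) (by omega) (by omega) (by omega) (by omega) (by omega)
    · exact Z.rOut hf (t := 4) (p := 0) (j := 3) (by omega) (by omega) (by omega) (by omega) (by omega) (by omega) (by omega) (by omega)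
    · exact Z.rOut hf (t := 4) (p := 0) (j := 3) (by omega) (by omega) (by omega) (by omega) (by omega) (by omega) (by omega) (by omega)
    · exact Z.rOut hf (t := 4) (p := 0) (j := 3) (by omega) (by omega) (by omega) (by omega) (by omega) (by omega) (by omega) (by omega)
    · exact Z.rOut hf (t := 4) (p := 0) (j := 3) (by omega) (by omega) (by omega) (by omega) (by omega) (by omega) (by omega) (by omega)
    · exact Z.rOut hf (t := 4) (p := 0) (j := 3) (by omega) (by omega) (by omega) (by omega) (by omega) (by omega) (by omega) (by omega)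
    · exact Z.rOut hf (t := 4) (p := 0) (j := 3) (by omega) (by omega) (by omega) (by omega) (by omega) (by omega) (by omega) (by omega)
    · exact Z.rOut hf (t := 4) (p := 0) (j := 3) (by omega) (by omega) (by omega) (by omega) (by omega) (by omega) (by omega) (by omega)
    · exact Z.rOut hf (t := 4) (p := 0) (j := 3) (by omega) (by omega) (by omega) (by omega) (by omega) (by omega) (by omega) (by omega)
    · exact Z.rOut hf (t := 4) (p := 0) (j := 3) (by omega) (by omega) (by omega) (by omega) (by omega) (by omega) (by omega) (by omega)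
    · exact Z.rOut hf (t := 4) (p := 0) (j := 3) (by omega) (by omega) (by omega) (by omega) (by omega) (by omega) (by omega) (by omega)
    · exact Z.rOut hf (t := 4) (p := 0) (j := 3) (by omega) (by omega) (by omega) (by omega) (by omega) (by omega) (by omega) (by omega)
    · exact Z.rOut hf (t := 4) (p := 0) (j := 3) (by omega) (by omega) (by omega) (by omega) (by omega) (by omega) (by omega) (by omega)
    · exact Z.rOut hf (t := 4) (p := 0) (j := 3) (by omega) (by omega) (by omega) (by omega) (by omega) (by omega) (by omega) (by omega)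
    · exact Z.rOut hf (t := 4) (p := 0) (j := 3) (by omega) (by omega) (by omega) (by omega) (by omega) (by omega) (by omega) (by omega)
    · exact Z.rOut hf (t := 4) (p := 0) (j := 3) (by omega) (by omega) (by omega) (by omega) (by omega) (by omega) (by omega) (by omega)
    · exact Z.rOut hf (t := 4) (p := 0) (j := 3) (by omega) (by omega) (by omega) (by omega) (by omega) (by omega) (by omega) (by omega)
    · exact Z.rOut hf (t := 4) (p := 0) (j := 3) (by omega) (by omega) (by omega) (by omega) (by omega) (by omega) (by omega) (by omega)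
    · exact Z.rOut hf (t := 4) (p := 0) (j := 3) (by omega) (by omega) (by omega) (by omega) (by omega) (by omega) (by omega) (by omega)
    · exact Z.rOut hf (t := 4) (p := 0) (j := 3) (by omega) (by omega) (by omega) (by omega) (by omega) (by omega) (by omega) (by omega)
    · exact Z.rOut hf (t := 4) (p := 0) (j := 3) (by omega) (by omega) (by omega) (by omega) (by omega) (by omega) (by omega) (by omega)
    · exact Z.rOut hf (t := 4) (p := 0) (j := 3) (by omega) (by omega) (by omega) (by omega) (by omega) (by omega) (by omega) (by omega)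
    · exact Z.rOut hf (t := 4) (p := 0) (j := 3) (by omega) (by omega) (by omega) (by omega) (by omega) (by omega) (by omega) (by omega)
    · exact Z.rOut hf (t := 4) (p := 0) (j := 3) (by omega) (by omega) (by omega) (by omega) (by omega) (by omega) (by omega) (by omega)
    · exact Z.rOut hf (t := 4) (p := 0) (j := 3) (by omega) (by omega) (by omega) (by omega) (by omega) (by omega) (by omega) (by omega)
    · exact fun t => hp2 _ (by omega) (by omega) (by omega) (mv t (by omega) (by omega) rfl (by omega))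
    · exact fun t => hp2 _ (by omega) (by omega) (by omega) (mv t (by omega) (by omega) rfl (by omega))
    · exact fun t => hp2 _ (by omega) (by omega) (by omega) (mv t (by omega) (by omega) rfl (by omega))
    · exact fun t => hp2 _ (by omega) (by omega) (by omega) (mv t (by omega) (by omega) rfl (by omega))
    · exact Z.p0 hf (j := 2) (by omega) (by omega) (by omega) (by omega) (by omega) (by omega)
    · exact Z.p0 hf (j := 2) (by omega) (by omega) (by omega) (by omega) (by omega) (by omega)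
    · exact Z.p0 hf (j := 2) (by omega) (by omega) (by omega) (by omega) (by omega) (by omega)
    · exact Z.p0 hf (j := 2) (by omega) (by omega) (by omega) (by omega) (by omega) (by omega)
    · exact Z.rOut hf (t := 4) (p := 1) (j := 3) (by omega) (by omega) (by omega) (by omega) (by omega) (by omega) (by omega) (by omega)
    · exact Z.rOut hf (t := 4) (p := 1) (j := 3) (by omega) (by omega) (by omega) (by omega) (by omega) (by omega) (by omega) (by omega)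
    · exact Z.rOut hf (t := 4) (p := 1) (j := 3) (by omega) (by omega) (by omega) (by omega) (by omega) (by omega) (by omega) (by omega)
    · exact Z.p2 hf (j := 3) (by omega) (by omega) (by omega) (by omega) (by omega) (by omega)
    · exact Z.rOut hf (t := 4) (p := 1) (j := 3) (by omega) (by omega) (by omega) (by omega) (by omega) (by omega) (by omega) (by omega)
    · exact Z.rOut hf (t := 4) (p := 1) (j := 3) (by omega) (by omega) (by omega) (by omega) (by omega) (by omega) (by omega) (by omega)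
    · exact Z.rOut hf (t := 4) (p := 1) (j := 3) (by omega) (by omega) (by omega) (by omega) (by omega) (by omega) (by omega) (by omega)
    · exact Z.p2 hf (j := 3) (by omega) (by omega) (by omega) (by omega) (by omega) (by omega)
    · exact Z.rOut hf (t := 4) (p := 1) (j := 3) (by omega) (by omega) (by omega) (by omega) (by omega) (by omega) (by omega) (by omega)
    · exact Z.rOut hf (t := 4) (p := 1) (j := 3) (by omega) (by omega) (by omega) (by omega) (by omega) (by omega) (by omega) (by omega)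
    · exact Z.p2 hf (j := 3) (by omega) (by omega) (by omega) (by omega) (by omega) (by omega)
    · exact Z.rOut hf (t := 4) (p := 1) (j := 3) (by omega) (by omega) (by omega) (by omega) (by omega) (by omega) (by omega) (by omega)
    · exact Z.rOut hf (t := 4) (p := 1) (j := 3) (by omega) (by omega) (by omega) (by omega) (by omega) (by omega) (by omega) (by omega)
    · exact Z.p2 hf (j := 3) (by omega) (by omega) (by omega) (by omega) (by omega) (by omega)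
    · exact Z.rOut hf (t := 4) (p := 1) (j := 3) (by omega) (by omega) (by omega) (by omega) (by omega) (by omega) (by omega) (by omega)
    · exact Z.rOut hf (t := 4) (p := 1) (j := 3) (by omega) (by omega) (by omega) (by omega) (by omega) (by omega) (by omega) (by omega)
    · exact Z.p2 hf (j := 3) (by omega) (by omega) (by omega) (by omega) (by omega) (by omega)
    · exact Z.rOut hf (t := 4) (p := 1) (j := 3) (by omega) (by omega) (by omega) (by omega) (by omega) (by omega) (by omega) (by omega)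
    · exact Z.p2 hf (j := 3) (by omega) (by omega) (by omega) (by omega) (by omega) (by omega)
    · exact Z.p2 hf (j := 3) (by omega) (by omega) (by omega) (by omega) (by omega) (by omega)
    · exact Z.p2 hf (j := 3) (by omega) (by omega) (by omega) (by omega) (by omega) (by omega)
    · exact Z.p2 hf (j := 3) (by omega) (by omega) (by omega) (by omega) (by omega) (by omega)
    · exact Z.p2 hf (j := 3) (by omega) (by omega) (by omega) (by omega) (by omega) (by omega)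
    · exact Z.p2 hf (j := 3) (by omega) (by omega) (by omega) (by omega) (by omega) (by omega)
    · exact Z.p2 hf (j := 3) (by omega) (by omega) (by omega) (by omega) (by omega) (by omega)
    · exact fun t => absurd ((v1 y4_3 (S.l4 5) (by omega) (by omega) (by omega) (by omega) (by omega)).1 t) (by unfold V1; omega)
    · exact fun t => absurd ((v1 y4_3 (S.l4 5) (by omega) (by omega) (by omega) (by omega) (by omega)).1 t) (by unfold V1; omega)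
    · exact fun t => absurd ((v1 y4_3 (S.l4 5) (by omega) (by omega) (by omega) (by omega) (by omega)).1 t) (by unfold V1; omega)
    · exact fun t => absurd ((v1 y4_3 (S.l4 5) (by omega) (by omega) (by omega) (by omega) (by omega)).1 t) (by unfold V1; omega)
    · exact fun t => absurd ((v1 y4_3 (S.l4 5) (by omega) (by omega) (by omega) (by omega) (by omega)).1 t) (by unfold V1; omega)
    · exact fun t => absurd ((v1 y4_3 (S.l4 5) (by omega) (by omega) (by omega) (by omega) (by omega)).1 t) (by unfold V1; omega)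
    · exact fun t => absurd ((v1 y4_3 (S.l4 5) (by omega) (by omega) (by omega) (by omega) (by omega)).1 t) (by unfold V1; omega)
    · exact fun t => absurd ((v1 y4_3 (S.l4 5) (by omega) (by omega) (by omega) (by omega) (by omega)).1 t) (by unfold V1; omega)
    · exact fun t => absurd ((v1 y4_3 (S.l4 5) (by omega) (by omega) (by omega) (by omega) (by omega)).1 t) (by unfold V1; omega)
    · exact fun t => absurd ((v1 y4_3 (S.l4 5) (by omega) (by omega) (by omega) (by omega) (by omega)).1 t) (by unfold V1; omega)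
    · exact fun t => absurd ((v1 y4_3 (S.l4 5) (by omega) (by omega) (by omega) (by omega) (by omega)).1 t) (by unfold V1; omega)
    · exact fun t => absurd ((v1 y4_3 (S.l4 5) (by omega) (by omega) (by omega) (by omega) (by omega)).1 t) (by unfold V1; omega)
    · exact fun t => absurd ((v1 y4_3 (S.l4 5) (by omega) (by omega) (by omega) (by omega) (by omega)).1 t) (by unfold V1; omega)
    · exact fun t => absurd ((v1 y4_3 (S.l4 5) (by omega) (by omega) (by omega) (by omega) (by omega)).1 t) (by unfold V1; omega)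
    · exact fun t => absurd ((v2x y4_3 (S.l4 5) (by omega) (by omega) (by omega) (by omega) (by omega) (by omega)).1 t) (by unfold V2; omega)
    · exact fun t => absurd ((v2x y4_3 (S.l4 5) (by omega) (by omega) (by omega) (by omega) (by omega) (by omega)).1 t) (by unfold V2; omega)
    · exact Z.rOut hf (t := 4) (p := 0) (j := 2) (by omega) (by omega) (by omega) (by omega) (by omega) (by omega) (by omega) (by omega)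
    · exact Z.rOut hf (t := 4) (p := 0) (j := 2) (by omega) (by omega) (by omega) (by omega) (by omega) (by omega) (by omega) (by omega)
    · exact Z.rOut hf (t := 4) (p := 0) (j := 2) (by omega) (by omega) (by omega) (by omega) (by omega) (by omega) (by omega) (by omega)
    · exact Z.rOut hf (t := 4) (p := 0) (j := 2) (by omega) (by omega) (by omega) (by omega) (by omega) (by omega) (by omega) (by omega)
    · exact Z.rOut hf (t := 4) (p := 0) (j := 2) (by omega) (by omega) (by omega) (by omega) (by omega) (by omega) (by omega) (by omega)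
    · exact Z.rOut hf (t := 4) (p := 0) (j := 2) (by omega) (by omega) (by omega) (by omega) (by omega) (by omega) (by omega) (by omega)
    · exact Z.rOut hf (t := 4) (p := 0) (j := 2) (by omega) (by omega) (by omega) (by omega) (by omega) (by omega) (by omega) (by omega)
    · exact Z.rOut hf (t := 4) (p := 0) (j := 2) (by omega) (by omega) (by omega) (by omega) (by omega) (by omega) (by omega) (by omega)
    · exact Z.rOut hf (t := 4) (p := 0) (j := 2) (by omega) (by omega) (by omega) (by omega) (by omega) (by omega) (by omega) (by omega)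
    · exact Z.rOut hf (t := 4) (p := 0) (j := 2) (by omega) (by omega) (by omega) (by omega) (by omega) (by omega) (by omega) (by omega)
    · exact Z.rOut hf (t := 4) (p := 0) (j := 2) (by omega) (by omega) (by omega) (by omega) (by omega) (by omega) (by omega) (by omega)
    · exact Z.rOut hf (t := 4) (p := 0) (j := 2) (by omega) (by omega) (by omega) (by omega) (by omega) (by omega) (by omega) (by omega)
    · exact Z.rOut hf (t := 4) (p := 0) (j := 2) (by omega) (by omega) (by omega) (by omega) (by omega) (by omega) (by omega) (by omega)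
    · exact U.p0 hf (j := 1) (by omega) (by omega) (by omega) (by omega) (by omega) (by omega)
    · exact Z.p0 hf (j := 1) (by omega) (by omega) (by omega) (by omega) (by omega) (by omega)
    · exact U.p0 hf (j := 1) (by omega) (by omega) (by omega) (by omega) (by omega) (by omega)
    · exact U.p0 hf (j := 1) (by omega) (by omega) (by omega) (by omega) (by omega) (by omega)
    · exact Z.p0 hf (j := 1) (by omega) (by omega) (by omega) (by omega) (by omega) (by omega)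
    · exact Z.p0 hf (j := 1) (by omega) (by omega) (by omega) (by omega) (by omega) (by omega)
    · exact U.p0 hf (j := 1) (by omega) (by omega) (by omega) (by omega) (by omega) (by omega)
    · exact U.p0 hf (j := 1) (by omega) (by omega) (by omega) (by omega) (by omega) (by omega)
    · exact Z.p0 hf (j := 1) (by omega) (by omega) (by omega) (by omega) (by omega) (by omega)
    · exact U.p0 hf (j := 1) (by omega) (by omega) (by omega) (by omega) (by omega) (by omega)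
    · exact U.p0 hf (j := 1) (by omega) (by omega) (by omega) (by omega) (by omega) (by omega)
    · exact U.p0 hf (j := 1) (by omega) (by omega) (by omega) (by omega) (by omega) (by omega)
    · exact Z.p0 hf (j := 1) (by omega) (by omega) (by omega) (by omega) (by omega) (by omega)
    · exact U.p0 hf (j := 1) (by omega) (by omega) (by omega) (by omega) (by omega) (by omega)
    · exact U.p0 hf (j := 1) (by omega) (by omega) (by omega) (by omega) (by omega) (by omega)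
    · exact Z.p0 hf (j := 1) (by omega) (by omega) (by omega) (by omega) (by omega) (by omega)
    · exact Z.p0 hf (j := 1) (by omega) (by omega) (by omega) (by omega) (by omega) (by omega)
    · exact U.p0 hf (j := 1) (by omega) (by omega) (by omega) (by omega) (by omega) (by omega)
    · exact U.p0 hf (j := 1) (by omega) (by omega) (by omega) (by omega) (by omega) (by omega)
    · exact Z.p0 hf (j := 1) (by omega) (by omega) (by omega) (by omega) (by omega) (by omega)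
    · exact U.p0 hf (j := 1) (by omega) (by omega) (by omega) (by omega) (by omega) (by omega)
    · exact U.p0 hf (j := 1) (by omega) (by omega) (by omega) (by omega) (by omega) (by omega)
    · exact Z.rOut hf (t := 4) (p := 1) (j := 2) (by omega) (by omega) (by omega) (by omega) (by omega) (by omega) (by omega) (by omega)
    · exact Z.p2 hf (j := 2) (by omega) (by omega) (by omega) (by omega) (by omega) (by omega)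
    · exact Z.rOut hf (t := 4) (p := 1) (j := 2) (by omega) (by omega) (by omega) (by omega) (by omega) (by omega) (by omega) (by omega)
    · exact Z.p2 hf (j := 2) (by omega) (by omega) (by omega) (by omega) (by omega) (by omega)
    · exact Z.rOut hf (t := 4) (p := 1) (j := 2) (by omega) (by omega) (by omega) (by omega) (by omega) (by omega) (by omega) (by omega)
    · exact Z.p2 hf (j := 2) (by omega) (by omega) (by omega) (by omega) (by omega) (by omega)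
    · exact Z.p2 hf (j := 2) (by omega) (by omega) (by omega) (by omega) (by omega) (by omega)
    · exact U.p2 hf (j := 2) (by omega) (by omega) (by omega) (by omega) (by omega) (by omega)
    · exact U.p2 hf (j := 2) (by omega) (by omega) (by omega) (by omega) (by omega) (by omega)
    · exact Z.p2 hf (j := 2) (by omega) (by omega) (by omega) (by omega) (by omega) (by omega)
    · exact Z.p2 hf (j := 2) (by omega) (by omega) (by omega) (by omega) (by omega) (by omega)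
    · exact Z.p2 hf (j := 2) (by omega) (by omega) (by omega) (by omega) (by omega) (by omega)
    · exact Z.p2 hf (j := 2) (by omega) (by omega) (by omega) (by omega) (by omega) (by omega)
    · exact U.p2 hf (j := 2) (by omega) (by omega) (by omega) (by omega) (by omega) (by omega)
    · exact U.p2 hf (j := 2) (by omega) (by omega) (by omega) (by omega) (by omega) (by omega)

end Pool.Agent.SNT.O2W
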