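import Pool.Agent.SNT.O4a
import Pool.Agent.SNT.ZbL

set_option autoImplicit false

/-! The wall signal of `6k+4` in the block row `n + 1` of the row `c + 2`, carried to the block column `n + 4`; the cell
`(2 n + 6, 2 n - 2)` of `6k+1`. -/

namespace Pool.Agent.SNT.O4b

open Pool.Agent.SNT Pool.Agent.SNT.Sig Pool.Agent.SNT.NHP Pool.Agent.SNT.NHZ Pool.Agent.SNT.SLine Pool.Agent.SNT.Zb
open Pool.Agent.SNT.D1E

variable {f : ℕ → ℕ → ℕ → ℕ → Prop} {k c n : ℕ}

theorem w4 (hf : Rule f) (I : PL f k c n (n - 4)) (H : ZBH f k c n) (a : ¬ f (6 * k + 1) (c + 2) (2 * n + 8) (2 * n + 2)) :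
    f (6 * k + 4) (c + 2) (2 * n + 9) (2 * n + 2) ∨ f (6 * k + 4) (c + 2) (2 * n + 9) (2 * n + 3) := by
  have hk := H.T.hk
  have hc := H.T.hc
  have key : sr f (6 * k + 4) (c + 2) (n + 4) (n + 1) := by
    rcases Nat.eq_or_lt_of_le hk with h8 | h8
    · have := H.w1
      rwa [show n + k - 4 = n + 4 by omega] at this
    · by_contra hn
      refine SLine.s_line hf (L := 6 * k + 4) (b := c + 2) (j := n + 1) (i0 := n + 4) (i1 := n + k - 4) (by omega)
        (by omega) (by omega) (fun x y a1 a2 a3 a4 a5 => ?_) (fun i' a1 a2 => ?_) (fun p x y hp a1 a2 a3 a4 => ?_)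
        (fun p x y hp a1 a2 a3 a4 => ?_) hn (i := n + k - 4) (by omega) le_rfl H.w1
      · rw [show 6 * k + 4 - 1 = 6 * k + 3 by omega]
        rcases Nat.lt_or_ge x (2 * n + 10) with h | h
        · obtain rfl : x = 2 * n + 9 := by omega
          obtain rfl | rfl : y = 2 * n + 3 ∨ y = 2 * n + 2 := by omega
          · exact O4a.p93 hf I a
          · exact O4a.p92 hf I a
        · obtain rfl | rfl : y = 2 * n + 3 ∨ y = 2 * n + 2 := by omega
          · exact H.p3_3' hf (by omega) (by omega)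
          · exact H.p3_2 hf (by omega) (by omega) (by omega)
      · rw [show 2 * (n + 1) + 2 = 2 * n + 4 by omega]
        exact H.r2 hf _ _ (by omega) (by omega) (by omega) (by omega) (by omega)
      · exact H.r1 hf _ _ _ (by omega) (by omega) (by omega) (by omega) (by omega)
      · exact H.r1 hf _ _ _ (by omega) (by omega) (by omega) (by omega) (by omega)
  rw [sr, bY, bO, show 2 * (n + 4) + 1 = 2 * n + 9 by omega, show 2 * (n + 1) = 2 * n + 2 by omega] at key
  exact key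

/-- the cell `(2 n + 6, 2 n - 2)` -/
theorem c6 (hf : Rule f) (I : PL f k c n (n - 4)) (H : ZBH f k c n) (a8 : ¬ f (6 * k + 1) (c + 2) (2 * n + 8) (2 * n + 2))
    (a62 : ¬ f (6 * k + 1) (c + 2) (2 * n + 6) (2 * n + 2)) (a60 : ¬ f (6 * k + 1) (c + 2) (2 * n + 6) (2 * n))
    (u2 : ¬ f (6 * k + 2) (c + 2) (2 * n + 7) (2 * n + 4)) (u6 : ¬ f (6 * k + 6) (c + 2) (2 * n + 7) (2 * n + 4)) :
    ¬ f (6 * k + 1) (c + 2) (2 * n + 6) (2 * n - 2) := by
  rcases w4 hf I H a8 with w | w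
  · exact O4a.c6A hf I a62 a60 u2 u6 w
  · exact O4a.c6B hf I a62 a60 u2 u6 w

end Pool.Agent.SNT.O4b
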