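import Pool.Agent.SNT.OutD0

set_option autoImplicit false
set_option synthInstance.maxSize 100000
set_option synthInstance.maxHeartbeats 4000000

/-! The OUT row `c + 2` of the top leader near the diagonal: windows (helper13, generator of helper20). -/

namespace Pool.Agent.SNT.OutD

open Pool.Agent.SNT Pool.Agent.SNT.Sig Pool.Agent.SNT.Loc Pool.Agent.SNT.LW Pool.Agent.SNT.NHZ Pool.Agent.SNT.DRun

variable {f : ℕ → ℕ → ℕ → ℕ → Prop}

theorem w_o6a_chk : check 12 8 17 17 0 0 1 1 2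
    (fun j n p q => decide ((j = 2 ∧ n = 1 ∧ q ≤ p ∧ (p = q ∧ p % 2 = 0))
      ∨ (j = 4 ∧ n = 2 ∧ q ≤ p ∧ 3 ≤ q ∧ ((p + q) % 2 = 1 ∧ p % 2 = 1))
      ∨ (j = 4 ∧ n = 3 ∧ q ≤ p ∧ 5 ≤ q ∧ (p = q ∧ p % 2 = 0))
      ∨ (j = 6 ∧ n = 2 ∧ q ≤ p ∧ 12 ≤ p ∧ ((p + q) % 2 = 1 ∧ p % 2 = 0))
      ∨ (j = 6 ∧ n = 3 ∧ q ≤ p ∧ 13 ≤ p ∧ (p = q ∧ p % 2 = 1))
      ∨ (j = 10 ∧ n = 4 ∧ q ≤ p ∧ 5 ≤ q ∧ ((p + q) % 2 = 1 ∧ p % 2 = 1))
      ∨ (j = 10 ∧ n = 5 ∧ q ≤ p ∧ 7 ≤ q ∧ (p = q ∧ p % 2 = 0))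
      ∨ (j = 12 ∧ n = 6 ∧ q ≤ p ∧ 11 ≤ q ∧ ((p + q) % 2 = 1 ∧ p % 2 = 1))
      ∨ (j = 2 ∧ n = 2 ∧ p = 8 ∧ q = 1)
      ∨ (j = 3 ∧ n = 6 ∧ p = 13 ∧ q = 13)))
    (fun j n p q => decide ((j = 2 ∧ n = 1 ∧ q ≤ p ∧ ¬ (p = q ∧ p % 2 = 0))
      ∨ (j = 1 ∧ n = 2 ∧ q ≤ p)
      ∨ (j = 1 ∧ n = 3 ∧ q ≤ p)
      ∨ (j = 1 ∧ n = 4 ∧ q ≤ p)
      ∨ (j = 1 ∧ n = 5 ∧ q ≤ p)
      ∨ (j = 1 ∧ n = 6 ∧ q ≤ p)
      ∨ (j = 2 ∧ n = 3 ∧ 4 ≤ p ∧ q + 5 ≤ p ∧ p ≤ q + 10)
      ∨ (j = 3 ∧ n = 3 ∧ 4 ≤ p ∧ q + 5 ≤ p ∧ p ≤ q + 10)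
      ∨ (j = 5 ∧ n = 4 ∧ 5 ≤ q ∧ q + 3 ≤ p ∧ p ≤ q + 12)
      ∨ (j = 7 ∧ n = 4 ∧ 5 ≤ q ∧ q + 2 ≤ p ∧ p ≤ q + 13)
      ∨ (j = 9 ∧ n = 5 ∧ 11 ≤ q ∧ q + 2 ≤ p ∧ p ≤ q + 13)))
    357
    0xedc030a60000eecd210ca830ba4800bac800b1c800ba4810bac810b1c810b1c0e10d3830b25800fa9c20a8c8e1020030b8a800b939a0c2c800c359a0b94000b9c920c35830b93800b93840bb48e1042030bb4800bb4840c3583070f80070f840a6a800ef7520a93800a7b800f184a0f08520a94800a8c800a8c8e0a8c840a72000efed20b14000b1c000b1c0e0b1c040fa98306080006080405ff8e10ca830bac800ba4800b25800bac810ba4810fa9c206078005ff8005ff8e05ff841020030afa000afa0410290e0ba48310290010290419310310200010200419530310420010420410398e0bac831039801039840bb58e0bac830bb5800bb5840b0b8e0efe830b0b800b0b840bb50e0bac830bb5000bb5040b1d0e0b1c830b25000b1d000b1d0e0b1d040c458e1163830c45800c458419410e22520319410019410422418e2be3032241802241841953030fb1800fb18419380e192f83193800193804193a8e225403193a80193a84193a0e193983193a001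93a040efe830f8f800f8f8419430e2254031943001943040c3d0e0cd7030c35000c3d000c3d0e0c3d0411528e0cd703115a8011528011528e1152842beb0e358c832beb002beb0407b90e0cd70307b10007b90007b90e07b9040b0a800f8ec20a70800a68800a688e0a68840a46800f5bea3a19803a18803066802fde802fd6801d3e801cae801ca4801ca3801c9d80142d80141b8014098013a58013a480139d80139380138c80138b80138180137b80137a801379801368801357801164000a35800a048009f28009e08009ce803a198f3a188f31000730668f2fde8f2fde8e2fde8f2bea8e2bea8726c60722640e22640722520722518722638e226387225b0e225b072249071dd0071dce071d3e8f1cb68e1cb68f1ca48f1ca38f1cb58e1cb58f19408e19408714c60714b50714a40714a307142d8f141b8f14098f13a58f13a48f13a58e13a58f13938f13a48e13a48f13938e13938f13818f13a38e13a38f13928e13928f13818e13818f13808e13808f137f8e137f8f11640f0f8b8e0f8b870f830e0f83070cdf070cce070bbf070bbe070bad070bac070b9c070b8b070b078e0b07870aff0e0aff070a8c070a8b070a7b070a7a070a6a070a68070a58070a47070a6d8e0a6d8f0a048f0a030709fa8709f28f0a030e0a030709fa8e09fa8709f18e09f18709e08f0a020e0a020709f98e09f98709df8e09df8709ce8f09e78e09e78709e70e09e70709de8e09de8708530708528708528e085287084a0707c28707c20707c20e07c20707b98707c18e07c18707c10e07c10707b88e07b88707288707280707310e07310707288e072887072007071f8707308e07308707280e072807071f8e071f8707300e073007071e8e071e8706988706980706978706980e069807068f87068f0706a00e06a00706978e069787068f0e068f07069f8e069f8706970e069707068e8e068e87068e0e068e0705ff07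 = true := by
  decide +kernel

theorem w_o6a (hf : Rule f) {k c n : ℕ} (H : PO f k c n 7 4)
    (h0 : f (6 * k + 1) (c + 2) (2 * n + 6) (2 * n + 6))
    (h1 : f (6 * k) (c - 2) (2 * n + 1) (2 * n - 6)) : False := by
  have hk := H.T.hk
  have hc := H.T.hc
  have h4' := H.T.h4
  have hb := H.T.hb
  have hN := H.T.hN2
  obtain ⟨a0, ha0⟩ : ∃ z, z + 2 = 6 * k := ⟨6 * k - 2, by omega⟩
  obtain ⟨b0, hb0⟩ : ∃ z, z + 4 = c := ⟨c - 4, by omega⟩
  obtain ⟨x0, hx0⟩ : ∃ z, z + 7 = 2 * n := ⟨2 * n - 7, by omega⟩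
  refine check_sound hf (a0 := a0) (b0 := b0) (x0 := x0) (y0 := x0) w_o6a_chk
    ⟨fun _ => rfl, fun h => absurd h (by decide), fun h => absurd h (by decide), by omega, by omega,
      by omega, by omega⟩ ?_ ?_
  · intro j m p q hr h
    obtain ⟨-, -, -, -, hp1, hp2, hq1, hq2⟩ := hr
    replace h := of_decide_eq_true h
    rcases h with h | h | h | h | h | h | h | h | h | h
    · obtain ⟨rfl, rfl, h⟩ := h
      exact (WrapC.v3 H.c0 (by omega) (by omega) (by omega) (by omega) (by omega) (by omega) (by omega) (by omega)).mpr (by omega)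
    · obtain ⟨rfl, rfl, h⟩ := h
      exact (WrapC.v2 H.c2 (by omega) (by omega) (by omega) (by omega) (by omega) (by omega) (by omega)).mpr (by omega)
    · obtain ⟨rfl, rfl, h⟩ := h
      exact (WrapC.v3 H.c2 (by omega) (by omega) (by omega) (by omega) (by omega) (by omega) (by omega) (by omega)).mpr (by omega)
    · obtain ⟨rfl, rfl, h⟩ := h
      exact (WrapC.v0 H.c4 (by omega) (by omega) (by omega) (by omega) (by omega) (by omega) (by omega)).mpr (by omega)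
    · obtain ⟨rfl, rfl, h⟩ := h
      exact (WrapC.v1 H.c4 (by omega) (by omega) (by omega) (by omega) (by omega) (by omega) (by omega) (by omega)).mpr (by omega)
    · obtain ⟨rfl, rfl, h⟩ := h
      exact (NW.w2v H.c8 (by omega) (by omega) (by omega) (by omega) (by omega) (by omega) (by omega)).mpr (by omega)
    · obtain ⟨rfl, rfl, h⟩ := h
      exact (NW.w3v H.c8 (by omega) (by omega) (by omega) (by omega) (by omega) (by omega) (by omega) (by omega)).mpr (by omega)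
    · obtain ⟨rfl, rfl, h⟩ := h
      exact (NW.w2v H.c10 (by omega) (by omega) (by omega) (by omega) (by omega) (by omega) (by omega)).mpr (by omega)
    · obtain ⟨rfl, rfl, rfl, rfl⟩ := h
      exact mv h1 (by omega) (by omega) (by omega) (by omega)
    · obtain ⟨rfl, rfl, rfl, rfl⟩ := h
      exact mv h0 (by omega) (by omega) (by omega) (by omega)
  · intro j m p q hr h
    obtain ⟨-, -, -, -, hp1, hp2, hq1, hq2⟩ := hr
    replace h := of_decide_eq_true h
    rcases h with h | h | h | h | h | h | h | h | h | h | h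
    · obtain ⟨rfl, rfl, h⟩ := h
      exact mt (WrapC.v3 H.c0 (by omega) (by omega) (by omega) (by omega) (by omega) (by omega) (by omega) (by omega)).mp (by omega)
    · obtain ⟨rfl, rfl, h⟩ := h
      exact H.lw _ _ _ _ (by omega) (by omega) (by omega) (by omega) (by omega) (by omega)
    · obtain ⟨rfl, rfl, h⟩ := h
      exact H.lw _ _ _ _ (by omega) (by omega) (by omega) (by omega) (by omega) (by omega)
    · obtain ⟨rfl, rfl, h⟩ := h
      exact H.lw _ _ _ _ (by omega) (by omega) (by omega) (by omega) (by omega) (by omega)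
    · obtain ⟨rfl, rfl, h⟩ := h
      exact H.lw _ _ _ _ (by omega) (by omega) (by omega) (by omega) (by omega) (by omega)
    · obtain ⟨rfl, rfl, h⟩ := h
      exact H.lw _ _ _ _ (by omega) (by omega) (by omega) (by omega) (by omega) (by omega)
    · obtain ⟨rfl, rfl, h⟩ := h
      exact fun t => NHT.rm1i hf H.T (p := 0) (j := 4) (by omega) (by omega) (by omega) (by omega) (by omega) (by omega) (mv t rfl (by omega) rfl rfl)
    · obtain ⟨rfl, rfl, h⟩ := h
      exact fun t => NHT.rm1i hf H.T (p := 1) (j := 4) (by omega) (by omega) (by omega) (by omega) (by omega) (by omega) (mv t rfl (by omega) rfl rfl)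
    · obtain ⟨rfl, rfl, h⟩ := h
      exact NHT.p0 hf H.T (j := 2) (by omega) (by omega) (by omega) (by omega) (by omega) (by omega)
    · obtain ⟨rfl, rfl, h⟩ := h
      exact NHT.p0 hf H.T (j := 1) (by omega) (by omega) (by omega) (by omega) (by omega) (by omega)
    · obtain ⟨rfl, rfl, h⟩ := h
      exact NHT.p2 hf H.T (j := 1) (by omega) (by omega) (by omega) (by omega) (by omega) (by omega)

theorem w_o6b_chk : check 7 8 15 15 0 0 1 1 2
    (fun j n p q => decide ((j = 2 ∧ n = 1 ∧ q ≤ p ∧ (p = q ∧ p % 2 = 0))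
      ∨ (j = 4 ∧ n = 2 ∧ q ≤ p ∧ ((p + q) % 2 = 1 ∧ p % 2 = 1))
      ∨ (j = 4 ∧ n = 3 ∧ q ≤ p ∧ 3 ≤ q ∧ (p = q ∧ p % 2 = 0))
      ∨ (j = 6 ∧ n = 2 ∧ q ≤ p ∧ 10 ≤ p ∧ ((p + q) % 2 = 1 ∧ p % 2 = 0))
      ∨ (j = 6 ∧ n = 3 ∧ q ≤ p ∧ 11 ≤ p ∧ (p = q ∧ p % 2 = 1))
      ∨ (j = 2 ∧ n = 2 ∧ p = 8 ∧ q = 1)
      ∨ (j = 3 ∧ n = 6 ∧ p = 11 ∧ q = 11)))
    (fun j n p q => decide ((j = 2 ∧ n = 1 ∧ q ≤ p ∧ ¬ (p = q ∧ p % 2 = 0))
      ∨ (j = 1 ∧ n = 2 ∧ q ≤ p)
      ∨ (j = 1 ∧ n = 3 ∧ q ≤ p)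
      ∨ (j = 1 ∧ n = 4 ∧ q ≤ p)
      ∨ (j = 1 ∧ n = 5 ∧ q ≤ p)
      ∨ (j = 1 ∧ n = 6 ∧ q ≤ p)
      ∨ (j = 2 ∧ n = 3 ∧ 2 ≤ p ∧ q + 5 ≤ p ∧ p ≤ q + 10)
      ∨ (j = 3 ∧ n = 3 ∧ 7 ≤ p ∧ q + 5 ≤ p ∧ p ≤ q + 10)
      ∨ (j = 7 ∧ n = 4 ∧ 3 ≤ q ∧ q + 2 ≤ p)))
    169
    0x9928309218e13a58313ad0013b51a1740801ac54a13b5031739001739040ca5000ca50109188009190a090b0e09fb83090b00090b04090a8e098a83091180090a80090a8e090a8405870e09fb8305870005870409fa8e098a8309f38009fa8009fa8e09fa8405868e098a83058d8005868005868e0586840837800bbc4a08388008b13a091a8009218009218e09218408a1800c25c20821800828800ba5c20bacc208280e0b9c03081f800babda0828000828040826800c22f216c1801658801657800fb1800fa1800f48800f47800f38800f37800f36800f31800f28800f27800f22800f18800d870008258007c88007b88007a8800798801ac5071ac4871abd0717410716c18f16588f16578f102907101a070fb18f0fa18f0f488f0f478f0f388f0f378f0f368f0f388e0f388f0f288f0f278f0f378e0f378f0f188f0d870f0c22870c1b0709f407092207092107091207091107089e87089707084007083107083007082e0708258f08210708200708100707c88f07c70707bf8707b88f07b78707b68707af0707b78e07b78707a88f079f8707988f067e8e067e87067707067e0e067e0706768e067687060e87060e07060e0e060e07060687060607060d8e060d8706060e06060705fe87059e07059d87059d8e059d87059607059487058e07058d07052487052407051c8704bc8704bc0704b50704b487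 = true := by
  decide +kernel

theorem w_o6b (hf : Rule f) {k c n : ℕ} (H : PO f k c n 7 4)
    (h0 : f (6 * k + 1) (c + 2) (2 * n + 6) (2 * n + 6))
    (h1 : f (6 * k) (c - 2) (2 * n + 3) (2 * n - 4)) : False := by
  have hk := H.T.hk
  have hc := H.T.hc
  have h4' := H.T.h4
  have hb := H.T.hb
  have hN := H.T.hN2
  obtain ⟨a0, ha0⟩ : ∃ z, z + 2 = 6 * k := ⟨6 * k - 2, by omega⟩
  obtain ⟨b0, hb0⟩ : ∃ z, z + 4 = c := ⟨c - 4, by omega⟩
  obtain ⟨x0, hx0⟩ : ∃ z, z + 5 = 2 * n := ⟨2 * n - 5, by omega⟩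
  refine check_sound hf (a0 := a0) (b0 := b0) (x0 := x0) (y0 := x0) w_o6b_chk
    ⟨fun _ => rfl, fun h => absurd h (by decide), fun h => absurd h (by decide), by omega, by omega,
      by omega, by omega⟩ ?_ ?_
  · intro j m p q hr h
    obtain ⟨-, -, -, -, hp1, hp2, hq1, hq2⟩ := hr
    replace h := of_decide_eq_true h
    rcases h with h | h | h | h | h | h | h
    · obtain ⟨rfl, rfl, h⟩ := h
      exact (WrapC.v3 H.c0 (by omega) (by omega) (by omega) (by omega) (by omega) (by omega) (by omega) (by omega)).mpr (by omega)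
    · obtain ⟨rfl, rfl, h⟩ := h
      exact (WrapC.v2 H.c2 (by omega) (by omega) (by omega) (by omega) (by omega) (by omega) (by omega)).mpr (by omega)
    · obtain ⟨rfl, rfl, h⟩ := h
      exact (WrapC.v3 H.c2 (by omega) (by omega) (by omega) (by omega) (by omega) (by omega) (by omega) (by omega)).mpr (by omega)
    · obtain ⟨rfl, rfl, h⟩ := h
      exact (WrapC.v0 H.c4 (by omega) (by omega) (by omega) (by omega) (by omega) (by omega) (by omega)).mpr (by omega)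
    · obtain ⟨rfl, rfl, h⟩ := h
      exact (WrapC.v1 H.c4 (by omega) (by omega) (by omega) (by omega) (by omega) (by omega) (by omega) (by omega)).mpr (by omega)
    · obtain ⟨rfl, rfl, rfl, rfl⟩ := h
      exact mv h1 (by omega) (by omega) (by omega) (by omega)
    · obtain ⟨rfl, rfl, rfl, rfl⟩ := h
      exact mv h0 (by omega) (by omega) (by omega) (by omega)
  · intro j m p q hr h
    obtain ⟨-, -, -, -, hp1, hp2, hq1, hq2⟩ := hr
    replace h := of_decide_eq_true h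
    rcases h with h | h | h | h | h | h | h | h | h
    · obtain ⟨rfl, rfl, h⟩ := h
      exact mt (WrapC.v3 H.c0 (by omega) (by omega) (by omega) (by omega) (by omega) (by omega) (by omega) (by omega)).mp (by omega)
    · obtain ⟨rfl, rfl, h⟩ := h
      exact H.lw _ _ _ _ (by omega) (by omega) (by omega) (by omega) (by omega) (by omega)
    · obtain ⟨rfl, rfl, h⟩ := h
      exact H.lw _ _ _ _ (by omega) (by omega) (by omega) (by omega) (by omega) (by omega)
    · obtain ⟨rfl, rfl, h⟩ := h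
      exact H.lw _ _ _ _ (by omega) (by omega) (by omega) (by omega) (by omega) (by omega)
    · obtain ⟨rfl, rfl, h⟩ := h
      exact H.lw _ _ _ _ (by omega) (by omega) (by omega) (by omega) (by omega) (by omega)
    · obtain ⟨rfl, rfl, h⟩ := h
      exact H.lw _ _ _ _ (by omega) (by omega) (by omega) (by omega) (by omega) (by omega)
    · obtain ⟨rfl, rfl, h⟩ := h
      exact fun t => NHT.rm1i hf H.T (p := 0) (j := 4) (by omega) (by omega) (by omega) (by omega) (by omega) (by omega) (mv t rfl (by omega) rfl rfl)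
    · obtain ⟨rfl, rfl, h⟩ := h
      exact NHT.p0i hf H.T (j := 4) (by omega) (by omega) (by omega) (by omega) (by omega) (by omega)
    · obtain ⟨rfl, rfl, h⟩ := h
      exact NHT.p0 hf H.T (j := 1) (by omega) (by omega) (by omega) (by omega) (by omega) (by omega)

theorem w_p8a_chk : check 12 8 17 17 0 0 1 1 2
    (fun j n p q => decide ((j = 2 ∧ n = 1 ∧ q ≤ p ∧ (p = q ∧ p % 2 = 0))
      ∨ (j = 4 ∧ n = 2 ∧ q ≤ p ∧ 3 ≤ q ∧ ((p + q) % 2 = 1 ∧ p % 2 = 1))
      ∨ (j = 4 ∧ n = 3 ∧ q ≤ p ∧ 5 ≤ q ∧ (p = q ∧ p % 2 = 0))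
      ∨ (j = 6 ∧ n = 2 ∧ q ≤ p ∧ 12 ≤ p ∧ ((p + q) % 2 = 1 ∧ p % 2 = 0))
      ∨ (j = 6 ∧ n = 3 ∧ q ≤ p ∧ 13 ≤ p ∧ (p = q ∧ p % 2 = 1))
      ∨ (j = 10 ∧ n = 4 ∧ q ≤ p ∧ 5 ≤ q ∧ ((p + q) % 2 = 1 ∧ p % 2 = 1))
      ∨ (j = 10 ∧ n = 5 ∧ q ≤ p ∧ 7 ≤ q ∧ (p = q ∧ p % 2 = 0))
      ∨ (j = 12 ∧ n = 6 ∧ q ≤ p ∧ 11 ≤ q ∧ ((p + q) % 2 = 1 ∧ p % 2 = 1))
      ∨ (j = 2 ∧ n = 2 ∧ p = 8 ∧ q = 1)
      ∨ (j = 3 ∧ n = 6 ∧ p = 15 ∧ q = 13)))
    (fun j n p q => decide ((j = 2 ∧ n = 1 ∧ q ≤ p ∧ ¬ (p = q ∧ p % 2 = 0))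
      ∨ (j = 1 ∧ n = 3 ∧ q ≤ p)
      ∨ (j = 1 ∧ n = 4 ∧ q ≤ p)
      ∨ (j = 1 ∧ n = 5 ∧ q ≤ p)
      ∨ (j = 1 ∧ n = 6 ∧ q ≤ p)
      ∨ (j = 2 ∧ n = 3 ∧ 4 ≤ p ∧ q + 5 ≤ p ∧ p ≤ q + 10)
      ∨ (j = 3 ∧ n = 3 ∧ 4 ≤ p ∧ q + 5 ≤ p ∧ p ≤ q + 10)
      ∨ (j = 5 ∧ n = 4 ∧ 5 ≤ q ∧ q + 3 ≤ p ∧ p ≤ q + 12)
      ∨ (j = 7 ∧ n = 4 ∧ 5 ≤ q ∧ q + 2 ≤ p ∧ p ≤ q + 13)
      ∨ (j = 9 ∧ n = 5 ∧ 11 ≤ q ∧ q + 2 ≤ p ∧ p ≤ q + 13)))
    418
    0xcd7030cdf800cd7800ce89a0ce09a0732000c46e20ba4800bac800ba4810bac8107288e0cd7030cdf800cd7800ce89a0ce09a0732000c46e207208007288007288e0728840b1c800fa0c20a82800a7a800f06c20efec20a720e0c3d030c3d800c469a0c4f000c47000ce8ba0ce0ba0c3d030c3d800c469a0c3e0e0b9c830c2d000c35921029801032120b9c830c2d000c35920ba5800ba5840a73000effd20a84000f10d20b25800bb6220bac830b1c800b1c840c46000c3e000c3e0e0c3e040c4f800c4f840cd78e0c3d030c3d800cd73a0cdf800cd7800cd78e0cd7840c3c8e0bab830c3c800c3c840c2c0e0b93030c2c000c2c040b8a8e10200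30b8a800b8a840a81000f05ca0a82000a72000a720e0a72040cd7030cdf800cd7800ce89a0ce09a0732000c46e20720800728800ba4c20bacc20b1c800fa0c210390010290010290e1029040ce0830c46800c46840ce08307c28007c2840b240e1042030b24000b24040b2d8e0f18830b2d800b2d840b120e1030030b12000b120410200e1931031020001020040bad8e0ba4830bad800bad840b1b8e0f06830b1b800b1b840ba50e0ba4830ba5000ba50410420e19530310420010420410398e0fa08310318010398010398e1039840b1d0e0f10830b1d000b1d0419410e22520319410019410422418e2be3032241802241840fb18e0f18830fb1800fb18419380e192f83193800193804226403195280195284194183194a00194a040f8f8e0efe830f8f800f8f842264031953001953040efc030a78800a78842beb0e358c832beb002beb040b0a800f8ec20a68800a70800eecc20ef4c20a700e0efc030a70000a70040a6e800f8bf23a19803a18803066802fde802fd6801d3e801cb6801cb5801ca4801ca380142d80141b8014098013a58013a480139d80139380139280139180138c80138b80138180138080137f80137b80137a801379801368801175001165000a6d800a048009f28009e08009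ce803a198f3a188f31000730668f2fde8f2fde8e2fde8f2bea8e2bea8726c607226407226387225b072252072251872249071de0071dce071d3e8f1cb68f1cb58f1ca48f1ca38f19408e19408714c60714b50714a40714a307142d8f141b8f14098f13a58f13a48f13a58e13a58f13938f13928f13918f13a48e13a48f13938e13938f13818f13808f137f8f13a38e13a38f13928e13928f13818e13818f13808e13808f11750f11750e11750f0f8b870f83070ce0070cce070bbe070bae070bad070bac070bab070b9c070b8a070b07870aff070a8c070a7b070a7a070a79070a78070a77070a6d8f0a68070a048f0a03870a038e0a038709f28f09f18709f08709e80709e78709e7070a028e0a028709fa0e09fa0709f18e09f18709e08f09df8709de8709df8e09df8709ce8f08648708640708648e086487085c07085b8708640e086407085b8e085b87084a0707d40707d38707d40e07d40707cb8707cb0707d38e07d38707cb0e07cb0707c20707c20e07c20707b98707b88707b00707c10e07c10707b88e07b88707318707318e073187072907072807072707072007071f87071e8707308e07308707280e072807071f8e071f87071e8e071e8707160e07160706a18706a10706a10e06a107069887069787069707069687068f87068f07068e87068e0706a00e06a00706978e069787068f0e068f07069f8e069f8706970e069707068e8e068e87068e0e068e0706858e068587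 = true := by
  decide +kernel

theorem w_p8a (hf : Rule f) {k c n : ℕ} (H : PO f k c n 7 4)
    (h0 : f (6 * k + 1) (c + 2) (2 * n + 8) (2 * n + 6))
    (h1 : f (6 * k) (c - 2) (2 * n + 1) (2 * n - 6)) : False := by
  have hk := H.T.hk
  have hc := H.T.hc
  have h4' := H.T.h4
  have hb := H.T.hb
  have hN := H.T.hN2
  obtain ⟨a0, ha0⟩ : ∃ z, z + 2 = 6 * k := ⟨6 * k - 2, by omega⟩
  obtain ⟨b0, hb0⟩ : ∃ z, z + 4 = c := ⟨c - 4, by omega⟩
  obtain ⟨x0, hx0⟩ : ∃ z, z + 7 = 2 * n := ⟨2 * n - 7, by omega⟩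
  refine check_sound hf (a0 := a0) (b0 := b0) (x0 := x0) (y0 := x0) w_p8a_chk
    ⟨fun _ => rfl, fun h => absurd h (by decide), fun h => absurd h (by decide), by omega, by omega,
      by omega, by omega⟩ ?_ ?_
  · intro j m p q hr h
    obtain ⟨-, -, -, -, hp1, hp2, hq1, hq2⟩ := hr
    replace h := of_decide_eq_true h
    rcases h with h | h | h | h | h | h | h | h | h | h
    · obtain ⟨rfl, rfl, h⟩ := h
      exact (WrapC.v3 H.c0 (by omega) (by omega) (by omega) (by omega) (by omega) (by omega) (by omega) (by omega)).mpr (by omega)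
    · obtain ⟨rfl, rfl, h⟩ := h
      exact (WrapC.v2 H.c2 (by omega) (by omega) (by omega) (by omega) (by omega) (by omega) (by omega)).mpr (by omega)
    · obtain ⟨rfl, rfl, h⟩ := h
      exact (WrapC.v3 H.c2 (by omega) (by omega) (by omega) (by omega) (by omega) (by omega) (by omega) (by omega)).mpr (by omega)
    · obtain ⟨rfl, rfl, h⟩ := h
      exact (WrapC.v0 H.c4 (by omega) (by omega) (by omega) (by omega) (by omega) (by omega) (by omega)).mpr (by omega)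
    · obtain ⟨rfl, rfl, h⟩ := h
      exact (WrapC.v1 H.c4 (by omega) (by omega) (by omega) (by omega) (by omega) (by omega) (by omega) (by omega)).mpr (by omega)
    · obtain ⟨rfl, rfl, h⟩ := h
      exact (NW.w2v H.c8 (by omega) (by omega) (by omega) (by omega) (by omega) (by omega) (by omega)).mpr (by omega)
    · obtain ⟨rfl, rfl, h⟩ := h
      exact (NW.w3v H.c8 (by omega) (by omega) (by omega) (by omega) (by omega) (by omega) (by omega) (by omega)).mpr (by omega)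
    · obtain ⟨rfl, rfl, h⟩ := h
      exact (NW.w2v H.c10 (by omega) (by omega) (by omega) (by omega) (by omega) (by omega) (by omega)).mpr (by omega)
    · obtain ⟨rfl, rfl, rfl, rfl⟩ := h
      exact mv h1 (by omega) (by omega) (by omega) (by omega)
    · obtain ⟨rfl, rfl, rfl, rfl⟩ := h
      exact mv h0 (by omega) (by omega) (by omega) (by omega)
  · intro j m p q hr h
    obtain ⟨-, -, -, -, hp1, hp2, hq1, hq2⟩ := hr
    replace h := of_decide_eq_true h
    rcases h with h | h | h | h | h | h | h | h | h | h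
    · obtain ⟨rfl, rfl, h⟩ := h
      exact mt (WrapC.v3 H.c0 (by omega) (by omega) (by omega) (by omega) (by omega) (by omega) (by omega) (by omega)).mp (by omega)
    · obtain ⟨rfl, rfl, h⟩ := h
      exact H.lw _ _ _ _ (by omega) (by omega) (by omega) (by omega) (by omega) (by omega)
    · obtain ⟨rfl, rfl, h⟩ := h
      exact H.lw _ _ _ _ (by omega) (by omega) (by omega) (by omega) (by omega) (by omega)
    · obtain ⟨rfl, rfl, h⟩ := h
      exact H.lw _ _ _ _ (by omega) (by omega) (by omega) (by omega) (by omega) (by omega)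
    · obtain ⟨rfl, rfl, h⟩ := h
      exact H.lw _ _ _ _ (by omega) (by omega) (by omega) (by omega) (by omega) (by omega)
    · obtain ⟨rfl, rfl, h⟩ := h
      exact fun t => NHT.rm1i hf H.T (p := 0) (j := 4) (by omega) (by omega) (by omega) (by omega) (by omega) (by omega) (mv t rfl (by omega) rfl rfl)
    · obtain ⟨rfl, rfl, h⟩ := h
      exact fun t => NHT.rm1i hf H.T (p := 1) (j := 4) (by omega) (by omega) (by omega) (by omega) (by omega) (by omega) (mv t rfl (by omega) rfl rfl)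
    · obtain ⟨rfl, rfl, h⟩ := h
      exact NHT.p0 hf H.T (j := 2) (by omega) (by omega) (by omega) (by omega) (by omega) (by omega)
    · obtain ⟨rfl, rfl, h⟩ := h
      exact NHT.p0 hf H.T (j := 1) (by omega) (by omega) (by omega) (by omega) (by omega) (by omega)
    · obtain ⟨rfl, rfl, h⟩ := h
      exact NHT.p2 hf H.T (j := 1) (by omega) (by omega) (by omega) (by omega) (by omega) (by omega)

theorem w_p8b_chk : check 4 8 19 19 0 0 1 1 2
    (fun j n p q => decide ((j = 2 ∧ n = 1 ∧ q ≤ p ∧ p ≤ q + 14 ∧ (p = q ∧ p % 2 = 0))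
      ∨ (j = 4 ∧ n = 2 ∧ q ≤ p ∧ 5 ≤ q ∧ p ≤ q + 14 ∧ ((p + q) % 2 = 1 ∧ p % 2 = 1))
      ∨ (j = 4 ∧ n = 3 ∧ q ≤ p ∧ 7 ≤ q ∧ p ≤ q + 14 ∧ (p = q ∧ p % 2 = 0))
      ∨ (j = 2 ∧ n = 2 ∧ p = 8 ∧ q = 1)
      ∨ (j = 2 ∧ n = 2 ∧ p = 12 ∧ q = 5)
      ∨ (j = 3 ∧ n = 6 ∧ p = 17 ∧ q = 15)))
    (fun j n p q => decide ((j = 2 ∧ n = 1 ∧ q ≤ p ∧ p ≤ q + 14 ∧ ¬ (p = q ∧ p % 2 = 0))
      ∨ (j = 1 ∧ n = 1 ∧ q ≤ p)
      ∨ (j = 1 ∧ n = 2 ∧ q ≤ p)
      ∨ (j = 1 ∧ n = 3 ∧ q ≤ p)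
      ∨ (j = 1 ∧ n = 4 ∧ q ≤ p)
      ∨ (j = 1 ∧ n = 5 ∧ q ≤ p)
      ∨ (j = 1 ∧ n = 6 ∧ q ≤ p)
      ∨ (j = 3 ∧ n = 1 ∧ 5 ≤ p ∧ q + 4 ≤ p ∧ p ≤ q + 11)
      ∨ (j = 3 ∧ n = 2 ∧ 5 ≤ p ∧ q + 4 ≤ p ∧ p ≤ q + 11)
      ∨ (j = 2 ∧ n = 3 ∧ 6 ≤ p ∧ q + 5 ≤ p ∧ p ≤ q + 10)
      ∨ (j = 3 ∧ n = 3 ∧ 6 ≤ p ∧ q + 5 ≤ p ∧ p ≤ q + 10)
      ∨ (j = 2 ∧ n = 2 ∧ p = 10 ∧ q = 3)))
    354
    0x1293830c30801289620cee00129bd20cdc830ce5801293da0cf88012a6da0dd3030dd3800e923a0f50800f5a9a0f64000f5b001022ba1019ba0dd3030dd3800e923a0f50800f5a9a0f63800f51800f6d9a0f5b9a0f520e0e9d830f52000f52040d2a0012d7d20df2000ea6a20f64800f648410188e0dd3030dd3800e923a0f50800f5a9a100f8010188010188e10188412cf030ddf800ddf8412d7830de8800de8840e888e0dca030e88800e88840ea7800ec2800f65b20f77aa0eb98e12e0830dfa800eafaa0eb9800eb9840eb90e0eaf830eb9000eb9040d14000d02000d020e0d02040dbf801363c20d00800cf7800cf78e0cf7840de780138bc20d28800d1f8012ccc212c3c20d27800d0c8012d55212b14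a0d26800cf9801388f21352ea0cd180193980191180188e80188d80188580187a80187980187880187380187280187180185e80184b80184a8018498018378018368015d00015be000d25800ce680132aea0cbe800c88800c74800c60800c4c800c388019398f19118f188e8f188d8f188e8e188e8f187a8f18798f18788f18a08e18a08f188d8e188d8f187a8e187a8f18798e18798f18788e18788f18658e18658f18528e18528f18648e18648f18518e18518f15d00f15d00e15d00f138887137f0713888e138887137f0e137f0713608e13608713570e13570712ac0e12ac0712a28e12a28711f80e11f80711ee8e11ee871019070ec3070eb1070eaf070e9d070e9c070e88070de4870ddb070de48e0de4870ddb0e0ddb070dbc8e0dbc870db30e0db3070d33070d31070d30070d258f0d21070d1f070d1e070d0d070d0c070d0b070cfa070cf9070cf7070d258e0d258f0ce6070ce5070cd3070d118e0d11870cd2070cfd8e0cfd8f0c888f0c87870c7c870c7c070c9a8e0c9a870c910e0c91070c878e0c87870c748f0c73870c73070c72870c9a0e0c9a070c908e0c90870c738e0c73870c608f0c7c8e0c7c870c730e0c73070c7c0e0c7c070c728e0c72870c5f8e0c5f870c4c8f0c5f0e0c5f070c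4b8e0c4b870c388f0c5e0e0c5e070c540e0c54070c4a8e0c4a870c668e0c66870c5d0e0c5d070a7e870a7e070a7e8e0a7e870a75070a74870a7e0e0a7e070a748e0a748709d38709d30709ca0709c98709c90709d38e09d38709ca0e09ca0709c08709c00709bf8709d30e09d30709c98e09c98709c00e09c00709c90e09c90709bf8e09bf8709ac87091f07091e87091587091507091f0e091f0709158e091587090b07091e8e091e8709150e091507090207090187090b0e090b0709018e09018708f80708ed8708ed8e08ed8708e40708570708568708570e085707084d87084d0708568e085687084d0e084d07085f8e085f8708560e08560708390708390e083907082f87082e87082587082507082e8e082e8708250e08250707710707708707708e07708707770e077707076d8e076d8706c28e06c28706b90e06b907 = true := by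
  decide +kernel

theorem w_p8b (hf : Rule f) {k c n : ℕ} (H : PO f k c n 7 4)
    (h0 : f (6 * k + 1) (c + 2) (2 * n + 8) (2 * n + 6))
    (h1 : f (6 * k) (c - 2) (2 * n - 1) (2 * n - 8))
    (h2 : f (6 * k) (c - 2) (2 * n + 3) (2 * n - 4))
    (z0 : ¬ f (6 * k) (c - 2) (2 * n + 1) (2 * n - 6)) : False := by
  have hk := H.T.hk
  have hc := H.T.hc
  have h4' := H.T.h4
  have hb := H.T.hb
  have hN := H.T.hN2
  obtain ⟨a0, ha0⟩ : ∃ z, z + 2 = 6 * k := ⟨6 * k - 2, by omega⟩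
  obtain ⟨b0, hb0⟩ : ∃ z, z + 4 = c := ⟨c - 4, by omega⟩
  obtain ⟨x0, hx0⟩ : ∃ z, z + 9 = 2 * n := ⟨2 * n - 9, by omega⟩
  refine check_sound hf (a0 := a0) (b0 := b0) (x0 := x0) (y0 := x0) w_p8b_chk
    ⟨fun _ => rfl, fun h => absurd h (by decide), fun h => absurd h (by decide), by omega, by omega,
      by omega, by omega⟩ ?_ ?_
  · intro j m p q hr h
    obtain ⟨-, -, -, -, hp1, hp2, hq1, hq2⟩ := hr
    replace h := of_decide_eq_true h
    rcases h with h | h | h | h | h | h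
    · obtain ⟨rfl, rfl, h⟩ := h
      exact (WrapC.v3 H.c0 (by omega) (by omega) (by omega) (by omega) (by omega) (by omega) (by omega) (by omega)).mpr (by omega)
    · obtain ⟨rfl, rfl, h⟩ := h
      exact (WrapC.v2 H.c2 (by omega) (by omega) (by omega) (by omega) (by omega) (by omega) (by omega)).mpr (by omega)
    · obtain ⟨rfl, rfl, h⟩ := h
      exact (WrapC.v3 H.c2 (by omega) (by omega) (by omega) (by omega) (by omega) (by omega) (by omega) (by omega)).mpr (by omega)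
    · obtain ⟨rfl, rfl, rfl, rfl⟩ := h
      exact mv h1 (by omega) (by omega) (by omega) (by omega)
    · obtain ⟨rfl, rfl, rfl, rfl⟩ := h
      exact mv h2 (by omega) (by omega) (by omega) (by omega)
    · obtain ⟨rfl, rfl, rfl, rfl⟩ := h
      exact mv h0 (by omega) (by omega) (by omega) (by omega)
  · intro j m p q hr h
    obtain ⟨-, -, -, -, hp1, hp2, hq1, hq2⟩ := hr
    replace h := of_decide_eq_true h
    rcases h with h | h | h | h | h | h | h | h | h | h | h | h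
    · obtain ⟨rfl, rfl, h⟩ := h
      exact mt (WrapC.v3 H.c0 (by omega) (by omega) (by omega) (by omega) (by omega) (by omega) (by omega) (by omega)).mp (by omega)
    · obtain ⟨rfl, rfl, h⟩ := h
      exact H.lw _ _ _ _ (by omega) (by omega) (by omega) (by omega) (by omega) (by omega)
    · obtain ⟨rfl, rfl, h⟩ := h
      exact H.lw _ _ _ _ (by omega) (by omega) (by omega) (by omega) (by omega) (by omega)
    · obtain ⟨rfl, rfl, h⟩ := h
      exact H.lw _ _ _ _ (by omega) (by omega) (by omega) (by omega) (by omega) (by omega)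
    · obtain ⟨rfl, rfl, h⟩ := h
      exact H.lw _ _ _ _ (by omega) (by omega) (by omega) (by omega) (by omega) (by omega)
    · obtain ⟨rfl, rfl, h⟩ := h
      exact H.lw _ _ _ _ (by omega) (by omega) (by omega) (by omega) (by omega) (by omega)
    · obtain ⟨rfl, rfl, h⟩ := h
      exact H.lw _ _ _ _ (by omega) (by omega) (by omega) (by omega) (by omega) (by omega)
    · obtain ⟨rfl, rfl, h⟩ := h
      exact NHT.pmi hf H.T (j := 3) (by omega) (by omega) (by omega) (by omega) (by omega) (by omega)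
    · obtain ⟨rfl, rfl, h⟩ := h
      exact NHT.pmi hf H.T (j := 3) (by omega) (by omega) (by omega) (by omega) (by omega) (by omega)
    · obtain ⟨rfl, rfl, h⟩ := h
      exact fun t => NHT.rm1i hf H.T (p := 0) (j := 4) (by omega) (by omega) (by omega) (by omega) (by omega) (by omega) (mv t rfl (by omega) rfl rfl)
    · obtain ⟨rfl, rfl, h⟩ := h
      exact fun t => NHT.rm1i hf H.T (p := 1) (j := 4) (by omega) (by omega) (by omega) (by omega) (by omega) (by omega) (mv t rfl (by omega) rfl rfl)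
    · obtain ⟨rfl, rfl, rfl, rfl⟩ := h
      exact fun t => z0 (mv t (by omega) (by omega) (by omega) (by omega))

end Pool.Agent.SNT.OutD
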