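import Pool.Agent.SNT.OutD1
import Pool.Agent.SNT.OutD2
import Pool.Agent.SNT.K0L0c

set_option autoImplicit false

/-! The OUT row `c + 2` of the top leader near the diagonal: `P_(6k+1)` is zero at `d = 0, 2, 4` (helper13). -/

namespace Pool.Agent.SNT.OutD

open Pool.Agent.SNT Pool.Agent.SNT.Sig Pool.Agent.SNT.Loc Pool.Agent.SNT.LW Pool.Agent.SNT.NHZ Pool.Agent.SNT.DRun

variable {f : ℕ → ℕ → ℕ → ℕ → Prop}

/-- `d = 0` -/
theorem out0 (hf : Rule f) {k c n x : ℕ} (H : PO f k c n 5 2) (hx : x % 2 = 0) (hX : 2 * n + 8 ≤ x)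
    (K : ∀ u v, 2 * n + 1 ≤ u → u % 2 = 1 → v + 2 * k = u + 5 → f (6 * k) (c - 2) u v ∨ f (6 * k) (c - 2) (u + 2) (v + 2)) :
    ¬ f (6 * k + 1) (c + 2) x x := by
  have hN := H.T.hN2
  intro h
  obtain ⟨n', hn'⟩ : ∃ n', x = 2 * n' + 8 := ⟨(x - 8) / 2, by omega⟩
  have H' : PO f k c n' 5 2 := H.mono (by omega) (by omega) (by omega)
  have h' : f (6 * k + 1) (c + 2) (2 * n' + 8) (2 * n' + 8) := mv h rfl rfl hn'.symm hn'.symm
  rcases pair0 hf H'.T (x := 2 * n' + 3) (by omega) (by omega)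
    (fun y hy => K _ _ (by omega) (by omega) hy) with g | g
  · exact w_o8a hf H' h' (mv g rfl rfl rfl (by omega))
  · exact w_o8b hf H' h' (mv g rfl rfl (by omega) (by omega))

/-- `d = 4` -/
theorem out4 (hf : Rule f) {k c n x y : ℕ} (H : PO f k c n 5 2) (hx : x % 2 = 0) (hy : x = y + 4) (hX : 2 * n + 8 ≤ x) :
    ¬ f (6 * k + 1) (c + 2) x y := by
  intro h
  obtain ⟨n', hn'⟩ : ∃ n', x = 2 * n' + 8 := ⟨(x - 8) / 2, by omega⟩
  have H' : PO f k c n' 5 2 := H.mono (by omega) (by omega) (by omega)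
  exact w_q8 hf H' (mv h rfl rfl (by omega) (by omega))

/-- `d = 2` -/
theorem out2 (hf : Rule f) {k c n x y : ℕ} (H : PO f k c n 6 3) (hx : x % 2 = 0) (hy : x = y + 2) (hX : 2 * n + 10 ≤ x)
    (K : ∀ u v, 2 * n + 1 ≤ u → u % 2 = 1 → v + 2 * k = u + 5 → f (6 * k) (c - 2) u v ∨ f (6 * k) (c - 2) (u + 2) (v + 2)) :
    ¬ f (6 * k + 1) (c + 2) x y := by
  have hN := H.T.hN2
  intro h
  obtain ⟨n', hn'⟩ : ∃ n', x = 2 * n' + 10 := ⟨(x - 10) / 2, by omega⟩
  have H' : PO f k c n' 6 3 := H.mono (by omega) (by omega) (by omega)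
  have h' : f (6 * k + 1) (c + 2) (2 * n' + 10) (2 * n' + 8) := mv h rfl rfl (by omega) (by omega)
  rcases pair0 hf H'.T (x := 2 * n' + 1) (by omega) (by omega)
    (fun y hy => K _ _ (by omega) (by omega) hy) with g | g
  · exact w_o10a hf H' h' (mv g rfl rfl rfl (by omega))
  · exact w_o10b hf H' h' (mv g rfl rfl (by omega) (by omega))

/-- the two cells of the leads `n - 7`, `n - 4` -/
theorem out_m4 (hf : Rule f) {k c n : ℕ} (H : PO f k c n 7 4)
    (K : ∀ u v, 2 * n ≤ u + 3 → u % 2 = 1 → v + 2 * k = u + 5 → f (6 * k) (c - 2) u v ∨ f (6 * k) (c - 2) (u + 2) (v + 2)) :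
    ¬ f (6 * k + 1) (c + 2) (2 * n + 6) (2 * n + 6) ∧ ¬ f (6 * k + 1) (c + 2) (2 * n + 8) (2 * n + 6) := by
  have hN := H.T.hN2
  have P1 := pair0 hf H.T (x := 2 * n + 1) (by omega) (by omega) (fun y hy => K _ _ (by omega) (by omega) hy)
  have Pm := pair0 hf H.T (x := 2 * n - 1) (by omega) (by omega) (fun y hy => K _ _ (by omega) (by omega) hy)
  refine ⟨fun h => ?_, fun h => ?_⟩
  · rcases P1 with g | g
    · exact w_o6a hf H h (mv g rfl rfl rfl (by omega))
    · exact w_o6b hf H h (mv g rfl rfl (by omega) (by omega))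
  · by_cases g : f (6 * k) (c - 2) (2 * n + 1) (2 * n - 6)
    · exact w_p8a hf H h g
    · refine w_p8b hf H h ?_ ?_ g
      · rcases Pm with t | t
        · exact mv t rfl rfl rfl (by omega)
        · exact absurd (mv t rfl rfl (by omega) (by omega)) g
      · rcases P1 with t | t
        · exact absurd (mv t rfl rfl rfl (by omega)) g
        · exact mv t rfl rfl (by omega) (by omega)

/-- **The OUT row near the diagonal**: `P_(6k+1)` is zero at `d = 0, 2, 4` in the slanted zone `4 M + 2 k + 12 ≤ x + y`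
(`M` = lead of `6 k + 2`). -/
theorem out_diag (hf : Rule f) {k b m n M x y : ℕ} (hs : Side k b m) (S : Stack6 f k b m 0 0 0 0 0 1)
    (hn : n = m + 9 + (k + 2) * 4) (hM : n ≤ M + 4) (hM' : M + 2 ≤ n)
    (d0 : Cyc f (6 * k) (b + 16) (2 * (M - 3) + 2)) (d2 : Cyc f (6 * k + 2) (b + 18) (2 * M + 2))
    (d4 : Cyc f (6 * k + 4) (b + 20) (2 * (n + 1) + 2)) (hx : x % 2 = 0)
    (hd : x = y ∨ x = y + 2 ∨ x = y + 4) (hz : 4 * M + 2 * k + 12 ≤ x + y) : ¬ f (6 * k + 1) (b + 24) x y := by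
  obtain ⟨hk, hb, h4, hb4, hm⟩ := id hs
  have H : PO f k (b + 22) n (n - M + 3) (n - M) :=
    PO.of_stack hs S hn (PB.cyc_mv d0 rfl rfl (by omega)) (PB.cyc_mv d2 rfl rfl (by omega)) d4
  have H52 : PO f k (b + 22) n 5 2 := H.mono le_rfl (by omega) (by omega)
  have e2 : b + 22 + 2 = b + 24 := by omega
  have e0 : b + 22 - 2 = b + 20 := by omega
  have K : ∀ u v, 2 * n + 1 ≤ u → u % 2 = 1 → v + 2 * k = u + 5 →
      f (6 * k) (b + 22 - 2) u v ∨ f (6 * k) (b + 22 - 2) (u + 2) (v + 2) := by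
    intro u v h1 h2 h3
    rw [e0]
    exact K0D.k0_stack hf hs S hn (Z8.cyc_mono d0 (by omega)) (Z8.cyc_mono d2 (by omega)) d4 h1 h2 h3
  rcases hd with rfl | hd | hd
  · rcases Nat.lt_or_ge x (2 * n + 8) with h8 | h8
    · have eM : M = n - 4 := by omega
      have ex : x = 2 * n + 6 := by omega
      have H74 : PO f k (b + 22) n 7 4 := H.mono le_rfl (by omega) (by omega)
      have t := (out_m4 hf H74 (fun u v h1 h2 h3 => by
        rw [e0]
        exact K0D.k0d_stack hf hs S hn (Z8.cyc_mono d0 (by omega)) (Z8.cyc_mono d2 (by omega)) d4 h1 h2 h3)).1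
      rw [e2] at t
      rwa [ex]
    · have t := out0 hf H52 hx h8 K
      rwa [e2] at t
  · rcases Nat.lt_or_ge x (2 * n + 10) with h8 | h8
    · have eM : M = n - 4 := by omega
      have ex : x = 2 * n + 8 := by omega
      have ey : y = 2 * n + 6 := by omega
      have H74 : PO f k (b + 22) n 7 4 := H.mono le_rfl (by omega) (by omega)
      have t := (out_m4 hf H74 (fun u v h1 h2 h3 => by
        rw [e0]
        exact K0D.k0d_stack hf hs S hn (Z8.cyc_mono d0 (by omega)) (Z8.cyc_mono d2 (by omega)) d4 h1 h2 h3)).2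
      rw [e2] at t
      rwa [ex, ey]
    · rcases Nat.lt_or_ge M (n - 2) with h2 | h2
      · have H63 : PO f k (b + 22) n 6 3 := H.mono le_rfl (by omega) (by omega)
        have t := out2 hf H63 hx hd h8 K
        rwa [e2] at t
      · have H63 : PO f k (b + 22) (n + 1) 6 3 := H.mono (by omega) (by omega) (by omega)
        have t := out2 hf H63 hx hd (by omega) (fun u v h1 h2 h3 => K u v (by omega) h2 h3)
        rwa [e2] at t
  · have t := out4 hf H52 hx hd (by omega)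
    rwa [e2] at t

end Pool.Agent.SNT.OutD
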