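import Pool.Agent.SNT.PB
import Pool.Agent.SNT.K0L0d
import Pool.Agent.SNT.DRun

set_option autoImplicit false

/-! The OUT row `c + 2` of the top leader near the diagonal: hypotheses, and the run of `6 k` in the row `c - 2` (helper13). -/

namespace Pool.Agent.SNT.OutD

open Pool.Agent.SNT Pool.Agent.SNT.Sig Pool.Agent.SNT.Loc Pool.Agent.SNT.LW Pool.Agent.SNT.NHZ Pool.Agent.SNT.DRun

variable {f : ℕ → ℕ → ℕ → ℕ → Prop}

/-- The hypotheses of the windows: the leads of `6 k` and `6 k + 2` are `n - l0` and `n - l2`. -/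
structure PO (f : ℕ → ℕ → ℕ → ℕ → Prop) (k c n l0 l2 : ℕ) : Prop where
  T : NHT f k c (2 * n)
  c0 : Cyc f (6 * k) (c - 6) (2 * (n - l0) + 2)
  c2 : Cyc f (6 * k + 2) (c - 4) (2 * (n - l2) + 2)
  c4 : Cyc f (6 * k + 4) (c - 2) (2 * (n + 1) + 2)
  c4a : Cyc f (6 * k + 4) (c - 6) (2 * (n - 7) + 2)
  c6 : Cyc f (6 * k + 6) (c - 4) (2 * (n - 5) + 2)
  c8 : Cw f (6 * k + 8) (c - 2) (n - 3)
  c10 : Cw f (6 * k + 10) c n
  lw : ∀ M R x y : ℕ, M + 1 = 6 * k → c ≤ R + 12 → R ≤ c + 12 → 2 * n ≤ x + 20 → y ≤ x → x ≤ y + 4 * k → ¬ f M R x y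

theorem PO.mono {k c n n' l0 l2 l0' l2' : ℕ} (H : PO f k c n l0 l2) (h : n ≤ n') (h0 : n - l0 ≤ n' - l0')
    (h2 : n - l2 ≤ n' - l2') : PO f k c n' l0' l2' where
  T := W4.nht_mono H.T (by omega) (by omega)
  c0 := Z8.cyc_mono H.c0 (by omega)
  c2 := Z8.cyc_mono H.c2 (by omega)
  c4 := Z8.cyc_mono H.c4 (by omega)
  c4a := Z8.cyc_mono H.c4a (by omega)
  c6 := Z8.cyc_mono H.c6 (by omega)
  c8 := H.c8.mono (by omega)
  c10 := H.c10.mono (by omega)
  lw := fun M R x y h1 h2 h3 h4 h5 h6 => H.lw M R x y h1 h2 h3 (by omega) h5 h6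

theorem PO.of_stack {k b m l0 l2 : ℕ} (hs : Side k b m) (S : Stack6 f k b m 0 0 0 0 0 1) {n : ℕ}
    (hn : n = m + 9 + (k + 2) * 4)
    (d0 : Cyc f (6 * k) (b + 16) (2 * (n - l0) + 2))
    (d2 : Cyc f (6 * k + 2) (b + 18) (2 * (n - l2) + 2))
    (d4 : Cyc f (6 * k + 4) (b + 20) (2 * (n + 1) + 2)) : PO f k (b + 22) n l0 l2 where
  T := by
    subst hn
    exact NHT.of_stack hs S
  c0 := PB.cyc_mv d0 rfl (by omega) rfl
  c2 := PB.cyc_mv d2 rfl (by omega) rfl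
  c4 := PB.cyc_mv d4 rfl (by omega) rfl
  c4a := PB.cyc_mv (S.l4 4) rfl (by omega) (by omega)
  c6 := PB.cyc_mv (S.l6 4) rfl (by omega) (by omega)
  c8 := PB.cw_mv (S.l8 4) rfl (by omega) (by omega)
  c10 := PB.cw_mv (S.l10 4) rfl (by omega) (by omega)
  lw := by
    intro M R x y hM h1 h2 h3 h4 h5
    obtain ⟨k1, k2, k3, k4, k5⟩ := hs
    have e : M = 6 * k - 1 := by omega
    rw [e]
    exact lw_zero ⟨k1, k2, k3, k4, k5⟩ S (i := R - b) (by omega) (by omega) (by omega) h4 (by omega)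

/-- the run in the layer `6 k`, row `c - 2`, from the third cell above the wall to `d = 7` -/
theorem run0 (hf : Rule f) {k c n x y0 : ℕ} (T : NHT f k c (2 * n)) (hx : x % 2 = 1) (hy : y0 % 2 = 0)
    (hX : 2 * n ≤ x + 4) (hw : x + 5 ≤ y0 + 2 * k) (h0 : f (6 * k) (c - 2) x y0) :
    ∀ y, y0 ≤ y → y + 7 ≤ x → y % 2 = 0 → f (6 * k) (c - 2) x y := by
  have hc := T.hc
  have hb := T.hb
  intro y h1 h2 h3
  exact col_run hf (y1 := x - 7) (by omega) (by omega) hx hy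
    (fun z h4 h5 h6 => T.cIn hf (t := 4) (j := 4) (by omega) (by omega) (by omega) (by omega) (by omega) (by omega) (by omega)
      (by omega)) h0 y h1 (by omega) h3

/-- the pair of `6 k` in the row `c - 2` at `d = 7` -/
theorem pair0 (hf : Rule f) {k c n x : ℕ} (T : NHT f k c (2 * n)) (hx : x % 2 = 1) (hX : 2 * n ≤ x + 4)
    (h : ∀ y, y + 2 * k = x + 5 → f (6 * k) (c - 2) x y ∨ f (6 * k) (c - 2) (x + 2) (y + 2)) :
    f (6 * k) (c - 2) x (x - 7) ∨ f (6 * k) (c - 2) (x + 2) (x + 2 - 7) := by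
  have hN := T.hN2
  have hk := T.hk
  obtain ⟨y, hy⟩ : ∃ y, y + 2 * k = x + 5 := ⟨x + 5 - 2 * k, by omega⟩
  rcases h y hy with h | h
  · exact Or.inl (run0 hf T hx (by omega) hX (by omega) h _ (by omega) (by omega) (by omega))
  · exact Or.inr (run0 hf T (by omega) (by omega) (by omega) (by omega) h _ (by omega) (by omega) (by omega))

end Pool.Agent.SNT.OutD
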