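import Pool.Agent.SNT.OutD0

set_option autoImplicit false
set_option synthInstance.maxSize 100000
set_option synthInstance.maxHeartbeats 4000000

/-! The OUT row `c + 2` of the top leader near the diagonal: windows (helper13, generator of helper20). -/

namespace Pool.Agent.SNT.OutD

open Pool.Agent.SNT Pool.Agent.SNT.Sig Pool.Agent.SNT.Loc Pool.Agent.SNT.LW Pool.Agent.SNT.NHZ Pool.Agent.SNT.DRun

variable {f : ℕ → ℕ → ℕ → ℕ → Prop}

theorem w_o8a_chk : check 7 8 17 17 0 0 1 1 2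
    (fun j n p q => decide ((j = 2 ∧ n = 1 ∧ q ≤ p ∧ (p = q ∧ p % 2 = 0))
      ∨ (j = 4 ∧ n = 2 ∧ q ≤ p ∧ 5 ≤ q ∧ ((p + q) % 2 = 1 ∧ p % 2 = 1))
      ∨ (j = 4 ∧ n = 3 ∧ q ≤ p ∧ 7 ≤ q ∧ (p = q ∧ p % 2 = 0))
      ∨ (j = 6 ∧ n = 2 ∧ q ≤ p ∧ 10 ≤ p ∧ ((p + q) % 2 = 1 ∧ p % 2 = 0))
      ∨ (j = 6 ∧ n = 3 ∧ q ≤ p ∧ 11 ≤ p ∧ (p = q ∧ p % 2 = 1))
      ∨ (j = 6 ∧ n = 4 ∧ q ≤ p ∧ 11 ≤ q ∧ ((p + q) % 2 = 1 ∧ p % 2 = 1))
      ∨ (j = 2 ∧ n = 2 ∧ p = 8 ∧ q = 1)
      ∨ (j = 3 ∧ n = 6 ∧ p = 13 ∧ q = 13)))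
    (fun j n p q => decide ((j = 2 ∧ n = 1 ∧ q ≤ p ∧ ¬ (p = q ∧ p % 2 = 0))
      ∨ (j = 1 ∧ n = 2 ∧ q ≤ p)
      ∨ (j = 1 ∧ n = 3 ∧ q ≤ p)
      ∨ (j = 1 ∧ n = 4 ∧ q ≤ p)
      ∨ (j = 1 ∧ n = 5 ∧ q ≤ p)
      ∨ (j = 1 ∧ n = 6 ∧ q ≤ p)
      ∨ (j = 3 ∧ n = 1 ∧ q + 4 ≤ p ∧ p ≤ q + 11)
      ∨ (j = 3 ∧ n = 2 ∧ q + 4 ≤ p ∧ p ≤ q + 11)
      ∨ (j = 2 ∧ n = 3 ∧ 2 ≤ p ∧ q + 5 ≤ p ∧ p ≤ q + 10)
      ∨ (j = 3 ∧ n = 3 ∧ 7 ≤ p ∧ q + 5 ≤ p ∧ p ≤ q + 10)
      ∨ (j = 7 ∧ n = 4 ∧ 3 ≤ q ∧ q + 2 ≤ p ∧ p ≤ q + 13)))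
    293
    0x10d3830b25800fa9c20a8c8e0b1c830b140e0bb4830c45000c458a1020030b8a800b939a1020030afa000afa040b94000b9c920c2c800c3c8e0c3c841163830c45800c45840b9c830676800676840c350e0cd7030c3d000c35000c350e0c35041931031020001020040b9c8e1032030b9c800b9c8410420e19530310420010420407b10e0cd70307b90007b10007b10e07b1040a82000a72000f06ca0efed20b1c000b14000b140e0b14040a92800a6a800f174a0ef7520a93800a7b800f184a0f08520a94800a8c800a8c8e0a8c840b250e0b1c830b1d000b25000b250e0b250410ca830ba4800bac800ba4810bac810b1c800b1c840bad8e0ba4830bad800bad8410318e0ba4831031801031840b0b8e0efe830b0b800b0b842242031928801928841927831928001928042242031931001931040b0a800f8ec20a68800a70800eecc20ef4c20a700e0efc030a70000a70040a6e801ddf801dce801d2c801c9c801c8b80142d80141b8014098013a58013a48013a380139d80139380139280138c80138b80138180138080137b80137a801379801368801164000f8bf20a6d800a048009f28009e08009ce8022520e22520722518e22518722490e2249071ddf8f1dce8f1dbe071d2c8f1ca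48e1ca48f1ca38e1ca38f14c60714a40714a307142d8f141b8f14098f13a58f13a48f13a38f13a58e13a58f13938f13928f13a48e13a48f13938e13938f13818f13808f13a38e13a38f13928e13928f13818e13818f13808e13808f11640f0f8b870f83070efb070ef2870e6b070e62870cdf070cce070bbf070bae070bad070bac070b9c070b8b070b07870aff070a8c070a8b070a8a070a7b070a7a070a78070a77070a6d8f0a6a070a68070a048f0a03070a020709fa8709f98709f28f09f1870a030e0a030709fa8e09fa8709e78709e70709f18e09f18709e08f09df8709de870a020e0a020709f98e09f98709df8e09df8709ce8f08530708528708528e085287084a0707c28707c20707c18707c10707c20e07c20707b98707b88707310707308707300707288707280707288e072887072007071f8707308e07308707280e072807071f8e071f8707300e073007071e8e071e8706a007069f8706988706980706978706970706980e069807068f87068f0706a00e06a00706978e069787068f0e068f07069f8e069f8706970e069707068e8e068e87068e0e068e0705ff07 = true := by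
  decide +kernel

theorem w_o8a (hf : Rule f) {k c n : ℕ} (H : PO f k c n 5 2)
    (h0 : f (6 * k + 1) (c + 2) (2 * n + 8) (2 * n + 8))
    (h1 : f (6 * k) (c - 2) (2 * n + 3) (2 * n - 4)) : False := by
  have hk := H.T.hk
  have hc := H.T.hc
  have h4' := H.T.h4
  have hb := H.T.hb
  have hN := H.T.hN2
  obtain ⟨a0, ha0⟩ : ∃ z, z + 2 = 6 * k := ⟨6 * k - 2, by omega⟩
  obtain ⟨b0, hb0⟩ : ∃ z, z + 4 = c := ⟨c - 4, by omega⟩
  obtain ⟨x0, hx0⟩ : ∃ z, z + 5 = 2 * n := ⟨2 * n - 5, by omega⟩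
  refine check_sound hf (a0 := a0) (b0 := b0) (x0 := x0) (y0 := x0) w_o8a_chk
    ⟨fun _ => rfl, fun h => absurd h (by decide), fun h => absurd h (by decide), by omega, by omega,
      by omega, by omega⟩ ?_ ?_
  · intro j m p q hr h
    obtain ⟨-, -, -, -, hp1, hp2, hq1, hq2⟩ := hr
    replace h := of_decide_eq_true h
    rcases h with h | h | h | h | h | h | h | h
    · obtain ⟨rfl, rfl, h⟩ := h
      exact (WrapC.v3 H.c0 (by omega) (by omega) (by omega) (by omega) (by omega) (by omega) (by omega) (by omega)).mpr (by omega)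
    · obtain ⟨rfl, rfl, h⟩ := h
      exact (WrapC.v2 H.c2 (by omega) (by omega) (by omega) (by omega) (by omega) (by omega) (by omega)).mpr (by omega)
    · obtain ⟨rfl, rfl, h⟩ := h
      exact (WrapC.v3 H.c2 (by omega) (by omega) (by omega) (by omega) (by omega) (by omega) (by omega) (by omega)).mpr (by omega)
    · obtain ⟨rfl, rfl, h⟩ := h
      exact (WrapC.v0 H.c4 (by omega) (by omega) (by omega) (by omega) (by omega) (by omega) (by omega)).mpr (by omega)
    · obtain ⟨rfl, rfl, h⟩ := h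
      exact (WrapC.v1 H.c4 (by omega) (by omega) (by omega) (by omega) (by omega) (by omega) (by omega) (by omega)).mpr (by omega)
    · obtain ⟨rfl, rfl, h⟩ := h
      exact (WrapC.v2 H.c4 (by omega) (by omega) (by omega) (by omega) (by omega) (by omega) (by omega)).mpr (by omega)
    · obtain ⟨rfl, rfl, rfl, rfl⟩ := h
      exact mv h1 (by omega) (by omega) (by omega) (by omega)
    · obtain ⟨rfl, rfl, rfl, rfl⟩ := h
      exact mv h0 (by omega) (by omega) (by omega) (by omega)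
  · intro j m p q hr h
    obtain ⟨-, -, -, -, hp1, hp2, hq1, hq2⟩ := hr
    replace h := of_decide_eq_true h
    rcases h with h | h | h | h | h | h | h | h | h | h | h
    · obtain ⟨rfl, rfl, h⟩ := h
      exact mt (WrapC.v3 H.c0 (by omega) (by omega) (by omega) (by omega) (by omega) (by omega) (by omega) (by omega)).mp (by omega)
    · obtain ⟨rfl, rfl, h⟩ := h
      exact H.lw _ _ _ _ (by omega) (by omega) (by omega) (by omega) (by omega) (by omega)
    · obtain ⟨rfl, rfl, h⟩ := h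
      exact H.lw _ _ _ _ (by omega) (by omega) (by omega) (by omega) (by omega) (by omega)
    · obtain ⟨rfl, rfl, h⟩ := h
      exact H.lw _ _ _ _ (by omega) (by omega) (by omega) (by omega) (by omega) (by omega)
    · obtain ⟨rfl, rfl, h⟩ := h
      exact H.lw _ _ _ _ (by omega) (by omega) (by omega) (by omega) (by omega) (by omega)
    · obtain ⟨rfl, rfl, h⟩ := h
      exact H.lw _ _ _ _ (by omega) (by omega) (by omega) (by omega) (by omega) (by omega)
    · obtain ⟨rfl, rfl, h⟩ := h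
      exact NHT.pmi hf H.T (j := 3) (by omega) (by omega) (by omega) (by omega) (by omega) (by omega)
    · obtain ⟨rfl, rfl, h⟩ := h
      exact NHT.pmi hf H.T (j := 3) (by omega) (by omega) (by omega) (by omega) (by omega) (by omega)
    · obtain ⟨rfl, rfl, h⟩ := h
      exact fun t => NHT.rm1i hf H.T (p := 0) (j := 4) (by omega) (by omega) (by omega) (by omega) (by omega) (by omega) (mv t rfl (by omega) rfl rfl)
    · obtain ⟨rfl, rfl, h⟩ := h
      exact NHT.p0i hf H.T (j := 4) (by omega) (by omega) (by omega) (by omega) (by omega) (by omega)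
    · obtain ⟨rfl, rfl, h⟩ := h
      exact NHT.p0 hf H.T (j := 1) (by omega) (by omega) (by omega) (by omega) (by omega) (by omega)

theorem w_o8b_chk : check 6 8 15 15 0 0 1 1 2
    (fun j n p q => decide ((j = 2 ∧ n = 1 ∧ q ≤ p ∧ (p = q ∧ p % 2 = 0))
      ∨ (j = 4 ∧ n = 2 ∧ q ≤ p ∧ 3 ≤ q ∧ ((p + q) % 2 = 1 ∧ p % 2 = 1))
      ∨ (j = 4 ∧ n = 3 ∧ q ≤ p ∧ 5 ≤ q ∧ (p = q ∧ p % 2 = 0))
      ∨ (j = 6 ∧ n = 4 ∧ q ≤ p ∧ 9 ≤ q ∧ ((p + q) % 2 = 1 ∧ p % 2 = 1))
      ∨ (j = 2 ∧ n = 2 ∧ p = 8 ∧ q = 1)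
      ∨ (j = 3 ∧ n = 6 ∧ p = 11 ∧ q = 11)))
    (fun j n p q => decide ((j = 2 ∧ n = 1 ∧ q ≤ p ∧ ¬ (p = q ∧ p % 2 = 0))
      ∨ (j = 1 ∧ n = 2 ∧ q ≤ p)
      ∨ (j = 1 ∧ n = 3 ∧ q ≤ p)
      ∨ (j = 1 ∧ n = 4 ∧ q ≤ p)
      ∨ (j = 1 ∧ n = 5 ∧ q ≤ p)
      ∨ (j = 1 ∧ n = 6 ∧ q ≤ p)
      ∨ (j = 2 ∧ n = 3 ∧ q + 5 ≤ p ∧ p ≤ q + 10)
      ∨ (j = 3 ∧ n = 3 ∧ 5 ≤ p ∧ q + 5 ≤ p ∧ p ≤ q + 10)))
    174
    0xb9703081a000ba5d209928309218e13a7030c97000c9701090380090b1209838009fbb2098280098a9a098a0e13b5030ca5000ca50109188009190a098a00098a040822800837800bae520bbc4a08318008388008aa3a08b13a091a8009218009218e09218408a1800c25c208288008218008218e0821840803800bf8ea174080173180172b80172a800fb1800f48800f47800f41800f38800f32800f31800f22800f13800d870007f48007c88007b88007a88017408f17318f17408e17408f17318e17318f102907101b070fb18f0f488f0f478f0f488e0f488f0f388f0f478e0f478f0f388e0f388f0f378e0f378f0f368e0f368f0d870f0c228e0c22870c1b0e0c1b0709f407092207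092107091307091207091107090307089e8e089e8708970e08970708400708320708310708300708220708210708130708040708258e08258f07c88f07c70707bf8707b88f07c70e07c70707bf8e07bf8707b78e07b78707a88f07be8e07be8707be0e07be0707b68e07b687067e8e067e87067707067e0e067e0706768e067687060e87060e07060e0e060e07060687060607060d8e060d8706060e06060705fe87059e07059d87059d8e059d87059607059487058e07058d0705948e059487058d0e058d07052487052407051c8705248e05248705240e052407051c8e051c8704bc8704bc0704bc8e04bc8704b50704b48704bc0e04bc0704b48e04b487 = true := by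
  decide +kernel

theorem w_o8b (hf : Rule f) {k c n : ℕ} (H : PO f k c n 5 2)
    (h0 : f (6 * k + 1) (c + 2) (2 * n + 8) (2 * n + 8))
    (h1 : f (6 * k) (c - 2) (2 * n + 5) (2 * n - 2)) : False := by
  have hk := H.T.hk
  have hc := H.T.hc
  have h4' := H.T.h4
  have hb := H.T.hb
  have hN := H.T.hN2
  obtain ⟨a0, ha0⟩ : ∃ z, z + 2 = 6 * k := ⟨6 * k - 2, by omega⟩
  obtain ⟨b0, hb0⟩ : ∃ z, z + 4 = c := ⟨c - 4, by omega⟩
  obtain ⟨x0, hx0⟩ : ∃ z, z + 3 = 2 * n := ⟨2 * n - 3, by omega⟩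
  refine check_sound hf (a0 := a0) (b0 := b0) (x0 := x0) (y0 := x0) w_o8b_chk
    ⟨fun _ => rfl, fun h => absurd h (by decide), fun h => absurd h (by decide), by omega, by omega,
      by omega, by omega⟩ ?_ ?_
  · intro j m p q hr h
    obtain ⟨-, -, -, -, hp1, hp2, hq1, hq2⟩ := hr
    replace h := of_decide_eq_true h
    rcases h with h | h | h | h | h | h
    · obtain ⟨rfl, rfl, h⟩ := h
      exact (WrapC.v3 H.c0 (by omega) (by omega) (by omega) (by omega) (by omega) (by omega) (by omega) (by omega)).mpr (by omega)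
    · obtain ⟨rfl, rfl, h⟩ := h
      exact (WrapC.v2 H.c2 (by omega) (by omega) (by omega) (by omega) (by omega) (by omega) (by omega)).mpr (by omega)
    · obtain ⟨rfl, rfl, h⟩ := h
      exact (WrapC.v3 H.c2 (by omega) (by omega) (by omega) (by omega) (by omega) (by omega) (by omega) (by omega)).mpr (by omega)
    · obtain ⟨rfl, rfl, h⟩ := h
      exact (WrapC.v2 H.c4 (by omega) (by omega) (by omega) (by omega) (by omega) (by omega) (by omega)).mpr (by omega)
    · obtain ⟨rfl, rfl, rfl, rfl⟩ := h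
      exact mv h1 (by omega) (by omega) (by omega) (by omega)
    · obtain ⟨rfl, rfl, rfl, rfl⟩ := h
      exact mv h0 (by omega) (by omega) (by omega) (by omega)
  · intro j m p q hr h
    obtain ⟨-, -, -, -, hp1, hp2, hq1, hq2⟩ := hr
    replace h := of_decide_eq_true h
    rcases h with h | h | h | h | h | h | h | h
    · obtain ⟨rfl, rfl, h⟩ := h
      exact mt (WrapC.v3 H.c0 (by omega) (by omega) (by omega) (by omega) (by omega) (by omega) (by omega) (by omega)).mp (by omega)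
    · obtain ⟨rfl, rfl, h⟩ := h
      exact H.lw _ _ _ _ (by omega) (by omega) (by omega) (by omega) (by omega) (by omega)
    · obtain ⟨rfl, rfl, h⟩ := h
      exact H.lw _ _ _ _ (by omega) (by omega) (by omega) (by omega) (by omega) (by omega)
    · obtain ⟨rfl, rfl, h⟩ := h
      exact H.lw _ _ _ _ (by omega) (by omega) (by omega) (by omega) (by omega) (by omega)
    · obtain ⟨rfl, rfl, h⟩ := h
      exact H.lw _ _ _ _ (by omega) (by omega) (by omega) (by omega) (by omega) (by omega)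
    · obtain ⟨rfl, rfl, h⟩ := h
      exact H.lw _ _ _ _ (by omega) (by omega) (by omega) (by omega) (by omega) (by omega)
    · obtain ⟨rfl, rfl, h⟩ := h
      exact fun t => NHT.rm1i hf H.T (p := 0) (j := 4) (by omega) (by omega) (by omega) (by omega) (by omega) (by omega) (mv t rfl (by omega) rfl rfl)
    · obtain ⟨rfl, rfl, h⟩ := h
      exact NHT.p0i hf H.T (j := 4) (by omega) (by omega) (by omega) (by omega) (by omega) (by omega)

theorem w_q8_chk : check 5 7 10 10 0 1 0 0 2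
    (fun j n p q => decide ((j = 2 ∧ n = 1 ∧ q ≤ p ∧ ((p + q) % 2 = 1 ∧ p % 2 = 0))
      ∨ (j = 4 ∧ n = 1 ∧ q ≤ p ∧ 3 ≤ p ∧ ((p + q) % 2 = 1 ∧ p % 2 = 1))
      ∨ (j = 4 ∧ n = 2 ∧ q ≤ p ∧ 4 ≤ p ∧ (p = q ∧ p % 2 = 0))
      ∨ (j = 4 ∧ n = 3 ∧ q ≤ p ∧ 4 ≤ q ∧ ((p + q) % 2 = 1 ∧ p % 2 = 0))
      ∨ (j = 1 ∧ n = 5 ∧ p = 6 ∧ q = 2)))
    (fun j n p q => decide ((j = 5 ∧ n = 3 ∧ q + 2 ≤ p)
      ∨ (j = 2 ∧ n = 4 ∧ q + 4 ≤ p)
      ∨ (j = 3 ∧ n = 4 ∧ 2 ≤ q ∧ q + 4 ≤ p)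
      ∨ (j = 4 ∧ n = 4 ∧ q + 3 ≤ p)
      ∨ (j = 5 ∧ n = 4 ∧ 2 ≤ q ∧ q + 3 ≤ p)
      ∨ (j = 3 ∧ n = 5 ∧ 2 ≤ q ∧ q + 4 ≤ p)
      ∨ (j = 5 ∧ n = 5 ∧ 2 ≤ q ∧ q + 3 ≤ p)))
    169
    0x7e803067f8007e2d205260005268a04c20303960003960405018e04cf8305018005018407e28304ef0004ef0407e28305210005210404c18e07830304c18004c18404bc8e07830304bc8004bc8407830306520006520406650e07910306650006650404c20e07838304c20004c20404bd0e07838304bd0004bd0407838306528006528407bd8e078c0307bd8007bd8407838307b58007b58407c28e07910307c28007c284063880062b0005f20005cf0005ce0005c50005c40005c18005c08005b78005b680030d80030c8003038003028003000002ff0002f60002f50002650007fa0e07fa0707f50e07f50707f48e07f48707ef8e07ef8707f40e07f40707ef0e07ef0707c80e07c80707c78e07c78707c20e07c20707bd0e07bd07079107079087078c07078b8707868707910e079107078c0e078c0707908e079087078b8e078b8707868e078687068a07067f07066a0e066a0706698e06698706640e066407065f0e065f0706388f062e0706388e06388f06250705f20f05cf0f05ce0f05c50f05c40f05cf0e05cf0f05c50e05c50f05ce0e05ce0f05c40e05c40f05388e05388705380e05380705068e05068705060e05060703c30703a88e03a88703a80e03a80703a30e03a307037107035f07030d8f030c8f03038f03028f030d8e030d8f03038e03038f030c8e030c8f03028e03028f02770e02770f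 = true := by
  decide +kernel

theorem w_q8 (hf : Rule f) {k c n : ℕ} (H : PO f k c n 5 2)
    (h0 : f (6 * k + 1) (c + 2) (2 * n + 8) (2 * n + 4)) : False := by
  have hk := H.T.hk
  have hc := H.T.hc
  have h4' := H.T.h4
  have hb := H.T.hb
  have hN := H.T.hN2
  obtain ⟨a0, ha0⟩ : ∃ z, z = 6 * k := ⟨_, rfl⟩
  obtain ⟨b0, hb0⟩ : ∃ z, z + 3 = c := ⟨c - 3, by omega⟩
  obtain ⟨x0, hx0⟩ : ∃ z, z = 2 * n + 2 := ⟨_, rfl⟩
  refine check_sound hf (a0 := a0) (b0 := b0) (x0 := x0) (y0 := x0) w_q8_chk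
    ⟨fun _ => rfl, fun h => absurd h (by decide), fun h => absurd h (by decide), by omega, by omega,
      by omega, by omega⟩ ?_ ?_
  · intro j m p q hr h
    obtain ⟨-, -, -, -, hp1, hp2, hq1, hq2⟩ := hr
    replace h := of_decide_eq_true h
    rcases h with h | h | h | h | h
    · obtain ⟨rfl, rfl, h⟩ := h
      exact (WrapC.v2 H.c2 (by omega) (by omega) (by omega) (by omega) (by omega) (by omega) (by omega)).mpr (by omega)
    · obtain ⟨rfl, rfl, h⟩ := h
      exact (WrapC.v0 H.c4 (by omega) (by omega) (by omega) (by omega) (by omega) (by omega) (by omega)).mpr (by omega)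
    · obtain ⟨rfl, rfl, h⟩ := h
      exact (WrapC.v1 H.c4 (by omega) (by omega) (by omega) (by omega) (by omega) (by omega) (by omega) (by omega)).mpr (by omega)
    · obtain ⟨rfl, rfl, h⟩ := h
      exact (WrapC.v2 H.c4 (by omega) (by omega) (by omega) (by omega) (by omega) (by omega) (by omega)).mpr (by omega)
    · obtain ⟨rfl, rfl, rfl, rfl⟩ := h
      exact mv h0 (by omega) (by omega) (by omega) (by omega)
  · intro j m p q hr h
    obtain ⟨-, -, -, -, hp1, hp2, hq1, hq2⟩ := hr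
    replace h := of_decide_eq_true h
    rcases h with h | h | h | h | h | h | h
    · obtain ⟨rfl, rfl, h⟩ := h
      exact NHT.p0 hf H.T (j := 1) (by omega) (by omega) (by omega) (by omega) (by omega) (by omega)
    · obtain ⟨rfl, rfl, h⟩ := h
      exact fun t => NHT.r1 hf H.T (p := 0) (j := 3) (by omega) (by omega) (by omega) (by omega) (by omega) (by omega) (mv t rfl (by omega) rfl rfl)
    · obtain ⟨rfl, rfl, h⟩ := h
      exact NHT.p2 hf H.T (j := 3) (by omega) (by omega) (by omega) (by omega) (by omega) (by omega)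
    · obtain ⟨rfl, rfl, h⟩ := h
      exact fun t => NHT.r1 hf H.T (p := 0) (j := 2) (by omega) (by omega) (by omega) (by omega) (by omega) (by omega) (mv t rfl (by omega) rfl rfl)
    · obtain ⟨rfl, rfl, h⟩ := h
      exact NHT.p2 hf H.T (j := 2) (by omega) (by omega) (by omega) (by omega) (by omega) (by omega)
    · obtain ⟨rfl, rfl, h⟩ := h
      exact NHT.p2 hf H.T (j := 3) (by omega) (by omega) (by omega) (by omega) (by omega) (by omega)
    · obtain ⟨rfl, rfl, h⟩ := h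
      exact NHT.p2 hf H.T (j := 2) (by omega) (by omega) (by omega) (by omega) (by omega) (by omega)

theorem w_o10a_chk : check 12 8 19 19 0 0 1 1 2
    (fun j n p q => decide ((j = 2 ∧ n = 1 ∧ q ≤ p ∧ p ≤ q + 14 ∧ (p = q ∧ p % 2 = 0))
      ∨ (j = 4 ∧ n = 2 ∧ q ≤ p ∧ 5 ≤ q ∧ p ≤ q + 14 ∧ ((p + q) % 2 = 1 ∧ p % 2 = 1))
      ∨ (j = 4 ∧ n = 3 ∧ q ≤ p ∧ 7 ≤ q ∧ p ≤ q + 14 ∧ (p = q ∧ p % 2 = 0))
      ∨ (j = 6 ∧ n = 2 ∧ q ≤ p ∧ 12 ≤ p ∧ p ≤ q + 14 ∧ ((p + q) % 2 = 1 ∧ p % 2 = 0))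
      ∨ (j = 6 ∧ n = 3 ∧ q ≤ p ∧ 13 ≤ p ∧ p ≤ q + 14 ∧ (p = q ∧ p % 2 = 1))
      ∨ (j = 10 ∧ n = 4 ∧ q ≤ p ∧ 5 ≤ q ∧ p ≤ q + 14 ∧ ((p + q) % 2 = 1 ∧ p % 2 = 1))
      ∨ (j = 10 ∧ n = 5 ∧ q ≤ p ∧ 7 ≤ q ∧ p ≤ q + 14 ∧ (p = q ∧ p % 2 = 0))
      ∨ (j = 12 ∧ n = 6 ∧ q ≤ p ∧ 11 ≤ q ∧ p ≤ q + 14 ∧ ((p + q) % 2 = 1 ∧ p % 2 = 1))
      ∨ (j = 2 ∧ n = 2 ∧ p = 8 ∧ q = 1)
      ∨ (j = 3 ∧ n = 6 ∧ p = 17 ∧ q = 15)))
    (fun j n p q => decide ((j = 2 ∧ n = 1 ∧ q ≤ p ∧ p ≤ q + 14 ∧ ¬ (p = q ∧ p % 2 = 0))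
      ∨ (j = 1 ∧ n = 2 ∧ q ≤ p)
      ∨ (j = 1 ∧ n = 3 ∧ q ≤ p)
      ∨ (j = 1 ∧ n = 4 ∧ q ≤ p)
      ∨ (j = 1 ∧ n = 5 ∧ q ≤ p)
      ∨ (j = 1 ∧ n = 6 ∧ q ≤ p)
      ∨ (j = 3 ∧ n = 1 ∧ 3 ≤ p ∧ q + 4 ≤ p ∧ p ≤ q + 11)
      ∨ (j = 2 ∧ n = 3 ∧ 4 ≤ p ∧ q + 5 ≤ p ∧ p ≤ q + 10)
      ∨ (j = 5 ∧ n = 4 ∧ 5 ≤ q ∧ q + 3 ≤ p ∧ p ≤ q + 12)
      ∨ (j = 7 ∧ n = 4 ∧ 5 ≤ q ∧ q + 2 ≤ p ∧ p ≤ q + 13)
      ∨ (j = 9 ∧ n = 5 ∧ 11 ≤ q ∧ q + 2 ≤ p ∧ p ≤ q + 13)))
    491
    0x1289030cee00129bd2100f03101880100f8010229a10199a0902000f5ae20e9b830f50800f50840de780138bc20d1f800d288012c3c212ccc20d280e0f50030f50800f5a9a0f5b001019ba0f50030f50800f5a9a0f64800f64840f50030f5080100f3a101880100f80100f8e100f840f3d0e0f33830f3d000f3d040e6c050dad800e75920e6bb20f29800f29840e7c8e142b030e7c800e7c840e75830f2a000f2a040e758308be0008be040d14000d020012b8ca12afd20d0b8e0f50030f50800f5a9a0f5b001019ba0f50030f50800f5a9a0f64800f648410188e0f50030f5080100f3a100f8010188010188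e1018840e87800e87810d14800d0b8e0d0b840ddb8e12cb830ddb800ddb840d28000d28041019830f5a800f5a8410198309b68009b6840dc80e142b030dc8000dc8040ea58e0ea5030ea5800ea5840f510e0f47830f51000f51040e7f830f3e000f3e0412df830df0000df0040f4f8e0e9a830f4f800f4f840e898e0e7f830e89800e89840de58e143f030de5800de5841f7d03142b00142b0414230e0e7e83142300142304082d8e0e9083082d80082d840e908e143f030e90800e90840ddc0e12cb830ddc000ddc040de60e12cc030de6000de60412cc830de6800de6841f9103143f00143f040e87831435801435840e888e0e7e830e88800e88840dd28e12b8830dd2800dd2840e7f0e0e7e830e7f000e7f0412cc030d31800d31840dca8e12ba030dca800dca8412cc830ddd000ddd042acf031f7d001f7d0436cc032ac5802ac58412b88313768013768412cc03138a00138a0412cc0313808013808412cc83138a80138a841f610e1f60831f61001f61042ae3031f90801f90841f750e1f74831f75001f75042ae3031f91001f910442d28336cc0036cc040dbf801363c20d00800cf7800cf78e0cf7840cd180488080487f803c66803bbb803bb28024778023cc8023cb8023b88023b78019398019258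019118018fd80188d80188c80187a80187980187880187180186680186580185e80185d80184a8018498018368015d00015be000d86aa0cbe800c74800c60800c4c800c388048808f487f8f3d25073c668f3bbb8f3bbb8e3bbb8f36cb873073072ae3072ae2872ad9072acf072ace872ac507253f07252b0724778f23cc8f23cb8f23b88f23b78f1f7c8719e30719d00719cf0719bc0719398f19258f19118f18fd8f188d8f188c8f187a8f18798f18788f187a8e187a8f18668f18658f18798e18798f18668e18668f18658e18658f18528e18528f18518e18518f15d00f15d00e15d00f11f80e11f80711ee8e11ee871019071005070e9c070e9b070e9a070e89070e87070e76070e75070e62070dbc8e0dbc870db30e0db3070d33070d32070d1f070d1e070d0c070d0b070cf7070ce5070cd2070cfd8e0cfd8f0c87070c86870c7d870c7d070c748f0c73870c73070c72870c69870c69070c738e0c73870c608f0c5f870c730e0c73070c698e0c69870c5f8e0c5f870c4c8f0c4b8e0c4b870c388f0c548e0c54870c540e0c54070c4a8e0c4a870a7e870a7e070a7e8e0a7e870a75070a74870a7e0e0a7e070a748e0a74870a610709ca0709c98709ca0e09ca0709c08709c00709c98e09c98709c00e09c00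709b60709b60e09b60709ac8709ab8709a20709b50e09b50709ab8e09ab8709a10e09a10709978e09978709018709008709018e09018708f80708f70708f60708ed8708ed0708ec8708ec0709008e09008708f70e08f70708e38708e30708ed0e08ed0708e38e08e38708da0708d98708f60e08f60708ec8e08ec8708e30e08e30708d98e08d98708ec0e08ec0708d88e08d887084c07084287084207084187083907083887083807083787082f07082e87082e0708420e08420708388e083887082f0e082f0708258708250708418e08418708380e083807082e8e082e8708250e08250708378e083787082e0e082e0708248e08248708240e08240708188e081887080f0e080f0708180e081807080e8e080e8707640e076407075a8e075a8707638e076387075a0e075a07 = true := by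
  decide +kernel

theorem w_o10a (hf : Rule f) {k c n : ℕ} (H : PO f k c n 6 3)
    (h0 : f (6 * k + 1) (c + 2) (2 * n + 10) (2 * n + 8))
    (h1 : f (6 * k) (c - 2) (2 * n + 1) (2 * n - 6)) : False := by
  have hk := H.T.hk
  have hc := H.T.hc
  have h4' := H.T.h4
  have hb := H.T.hb
  have hN := H.T.hN2
  obtain ⟨a0, ha0⟩ : ∃ z, z + 2 = 6 * k := ⟨6 * k - 2, by omega⟩
  obtain ⟨b0, hb0⟩ : ∃ z, z + 4 = c := ⟨c - 4, by omega⟩
  obtain ⟨x0, hx0⟩ : ∃ z, z + 7 = 2 * n := ⟨2 * n - 7, by omega⟩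
  refine check_sound hf (a0 := a0) (b0 := b0) (x0 := x0) (y0 := x0) w_o10a_chk
    ⟨fun _ => rfl, fun h => absurd h (by decide), fun h => absurd h (by decide), by omega, by omega,
      by omega, by omega⟩ ?_ ?_
  · intro j m p q hr h
    obtain ⟨-, -, -, -, hp1, hp2, hq1, hq2⟩ := hr
    replace h := of_decide_eq_true h
    rcases h with h | h | h | h | h | h | h | h | h | h
    · obtain ⟨rfl, rfl, h⟩ := h
      exact (WrapC.v3 H.c0 (by omega) (by omega) (by omega) (by omega) (by omega) (by omega) (by omega) (by omega)).mpr (by omega)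
    · obtain ⟨rfl, rfl, h⟩ := h
      exact (WrapC.v2 H.c2 (by omega) (by omega) (by omega) (by omega) (by omega) (by omega) (by omega)).mpr (by omega)
    · obtain ⟨rfl, rfl, h⟩ := h
      exact (WrapC.v3 H.c2 (by omega) (by omega) (by omega) (by omega) (by omega) (by omega) (by omega) (by omega)).mpr (by omega)
    · obtain ⟨rfl, rfl, h⟩ := h
      exact (WrapC.v0 H.c4 (by omega) (by omega) (by omega) (by omega) (by omega) (by omega) (by omega)).mpr (by omega)
    · obtain ⟨rfl, rfl, h⟩ := h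
      exact (WrapC.v1 H.c4 (by omega) (by omega) (by omega) (by omega) (by omega) (by omega) (by omega) (by omega)).mpr (by omega)
    · obtain ⟨rfl, rfl, h⟩ := h
      exact (NW.w2v H.c8 (by omega) (by omega) (by omega) (by omega) (by omega) (by omega) (by omega)).mpr (by omega)
    · obtain ⟨rfl, rfl, h⟩ := h
      exact (NW.w3v H.c8 (by omega) (by omega) (by omega) (by omega) (by omega) (by omega) (by omega) (by omega)).mpr (by omega)
    · obtain ⟨rfl, rfl, h⟩ := h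
      exact (NW.w2v H.c10 (by omega) (by omega) (by omega) (by omega) (by omega) (by omega) (by omega)).mpr (by omega)
    · obtain ⟨rfl, rfl, rfl, rfl⟩ := h
      exact mv h1 (by omega) (by omega) (by omega) (by omega)
    · obtain ⟨rfl, rfl, rfl, rfl⟩ := h
      exact mv h0 (by omega) (by omega) (by omega) (by omega)
  · intro j m p q hr h
    obtain ⟨-, -, -, -, hp1, hp2, hq1, hq2⟩ := hr
    replace h := of_decide_eq_true h
    rcases h with h | h | h | h | h | h | h | h | h | h | h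
    · obtain ⟨rfl, rfl, h⟩ := h
      exact mt (WrapC.v3 H.c0 (by omega) (by omega) (by omega) (by omega) (by omega) (by omega) (by omega) (by omega)).mp (by omega)
    · obtain ⟨rfl, rfl, h⟩ := h
      exact H.lw _ _ _ _ (by omega) (by omega) (by omega) (by omega) (by omega) (by omega)
    · obtain ⟨rfl, rfl, h⟩ := h
      exact H.lw _ _ _ _ (by omega) (by omega) (by omega) (by omega) (by omega) (by omega)
    · obtain ⟨rfl, rfl, h⟩ := h
      exact H.lw _ _ _ _ (by omega) (by omega) (by omega) (by omega) (by omega) (by omega)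
    · obtain ⟨rfl, rfl, h⟩ := h
      exact H.lw _ _ _ _ (by omega) (by omega) (by omega) (by omega) (by omega) (by omega)
    · obtain ⟨rfl, rfl, h⟩ := h
      exact H.lw _ _ _ _ (by omega) (by omega) (by omega) (by omega) (by omega) (by omega)
    · obtain ⟨rfl, rfl, h⟩ := h
      exact NHT.pmi hf H.T (j := 3) (by omega) (by omega) (by omega) (by omega) (by omega) (by omega)
    · obtain ⟨rfl, rfl, h⟩ := h
      exact fun t => NHT.rm1i hf H.T (p := 0) (j := 4) (by omega) (by omega) (by omega) (by omega) (by omega) (by omega) (mv t rfl (by omega) rfl rfl)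
    · obtain ⟨rfl, rfl, h⟩ := h
      exact NHT.p0 hf H.T (j := 2) (by omega) (by omega) (by omega) (by omega) (by omega) (by omega)
    · obtain ⟨rfl, rfl, h⟩ := h
      exact NHT.p0 hf H.T (j := 1) (by omega) (by omega) (by omega) (by omega) (by omega) (by omega)
    · obtain ⟨rfl, rfl, h⟩ := h
      exact NHT.p2 hf H.T (j := 1) (by omega) (by omega) (by omega) (by omega) (by omega) (by omega)

theorem w_o10b_chk : check 7 8 17 17 0 0 1 1 2
    (fun j n p q => decide ((j = 2 ∧ n = 1 ∧ q ≤ p ∧ (p = q ∧ p % 2 = 0))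
      ∨ (j = 4 ∧ n = 2 ∧ q ≤ p ∧ 3 ≤ q ∧ ((p + q) % 2 = 1 ∧ p % 2 = 1))
      ∨ (j = 4 ∧ n = 3 ∧ q ≤ p ∧ 5 ≤ q ∧ (p = q ∧ p % 2 = 0))
      ∨ (j = 6 ∧ n = 2 ∧ q ≤ p ∧ 10 ≤ p ∧ ((p + q) % 2 = 1 ∧ p % 2 = 0))
      ∨ (j = 6 ∧ n = 3 ∧ q ≤ p ∧ 11 ≤ p ∧ (p = q ∧ p % 2 = 1))
      ∨ (j = 6 ∧ n = 4 ∧ q ≤ p ∧ 11 ≤ q ∧ ((p + q) % 2 = 1 ∧ p % 2 = 1))
      ∨ (j = 2 ∧ n = 2 ∧ p = 8 ∧ q = 1)
      ∨ (j = 3 ∧ n = 6 ∧ p = 15 ∧ q = 13)))
    (fun j n p q => decide ((j = 2 ∧ n = 1 ∧ q ≤ p ∧ ¬ (p = q ∧ p % 2 = 0))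
      ∨ (j = 1 ∧ n = 3 ∧ q ≤ p)
      ∨ (j = 1 ∧ n = 4 ∧ q ≤ p)
      ∨ (j = 1 ∧ n = 5 ∧ q ≤ p)
      ∨ (j = 1 ∧ n = 6 ∧ q ≤ p)
      ∨ (j = 2 ∧ n = 3 ∧ 2 ≤ p ∧ q + 5 ≤ p ∧ p ≤ q + 10)
      ∨ (j = 3 ∧ n = 3 ∧ 7 ≤ p ∧ q + 5 ≤ p ∧ p ≤ q + 10)
      ∨ (j = 7 ∧ n = 4 ∧ 3 ≤ q ∧ q + 2 ≤ p ∧ p ≤ q + 13)))
    414
    0xedc030a60000eecd20cd7030cdf800cd7800ce89a0ce09a0732000c46e20720800b1c800728800ba4c20fa0c20bacc20b1c0e0ba3030c2b800c3c800c349a0c3d0a0c3d800c469a0c4f000c47000ce8ba0ce0ba0ba3030c2b800c3c800c349a0c3d0a0c3d800c469a0c3e0e0b93830c2c800c359a0b94000b9c920c35830b93800b93841032030b9c800b9c840c3583070f80070f840c3e000c3e040a73000effd20a84000f10d20b25800bb6220c4f800c4f840cd78e0ba3030c2b800c3c800c349a0c3d0a0c3d800cd73a0cdf800cd7800cd78e0cd7840c2c0e0b93030c2c000c2c040b8a8e1020030b8a800b8a840a72000a82000efed20f06ca0b14000b1c000b1c0e0b1c040bac8e0cd7030cdf800cd7800ce89a0ce09a0732000c46e20b1c800fa0c20ba4800bac800bac8e0bac840ce0830c4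6800c46840fa083068f80068f840ce08307c28007c2840afa0e1020030afa000afa040b240e1042030b24000b24040b1d8e0f10830b1d800b1d8410290e1939831029001029040ba50e0b1c85068f800fa0c20ba4ea0bb5000ba5000ba50e0ba50410300e1941031030001030040b0b8e0efe830b0b800b0b8410320e1943031032001032040bad8e0fa0830bb5800bad800bad8e0bad8410318e0fa08310398010318010318e1031840b1d0e0fa0830b25000b1d000b1d0e0b1d0419288e22420319288019288419280e1927831928001928040fb18e0f18830fb1800fb1840fa88e1941830fa8800fa8840f9f8e0f06830f9f800f9f8406980e0fa08306900006980006980e0698040f980e1939830f98000f980419310e2242031931001931040b0a800f8ec20a70800a68800a688e0a68840a46800f5bea1dce801dc7801dc6801d2c801c9c801c8b80142d80141b8014098013a58013a480139d80139380139280138c80138b80137b80137a801379801368801357801175001165000a35800a048009f28009e08009ce8022520e22520722518e22518722490e2249071dce8f1ddf8e1ddf8f1dce8e1dce8f1dbe071d2c8f1ca48e1ca48f1ca38e1ca38f14b60714b50714b40714a307142d8f141b8f140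98f13a58f13a48f13a58e13a58f13938f13928f13a48e13a48f13938e13938f13a38e13a38f13928e13928f13818e13818f13808e13808f137f8e137f8f11750f11750e11750f0f8b8e0f8b870f830e0f83070ce0070cce070bbe070bae070bad070bac070b9c070b9b070b9a070b8b070b8a070b078e0b07870aff0e0aff070a8c070a7b070a7a070a68070a58070a47070a6d8e0a6d8f0a048f0a03870a038e0a038709f28f09f1870a028e0a028709fa0e09fa0709f18e09f18709e08f09df8e09df8709ce8f09e78e09e78709e70e09e70709de8e09de8708648708640708648e086487085c07085b8708640e086407085b8e085b87084a0707d40707d38707d40e07d40707cb8707cb0707d38e07d38707cb0e07cb0707c20707c20e07c20707b98707b88707b00707c10e07c10707b88e07b88707b00e07b00707a78707318707318e073187072907072807072007071f87071e8707308e07308707280e072807071f8e071f8707170707160707300e073007071e8e071e8707160e07160706a18706a10706a10e06a107069887069787068f07068e87068e0706a00e06a00706978e069787068f0e068f07068587069f8e069f8706970e069707068e8e068e87068e0e068e0706858e068587 = true :=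 by
  decide +kernel

theorem w_o10b (hf : Rule f) {k c n : ℕ} (H : PO f k c n 6 3)
    (h0 : f (6 * k + 1) (c + 2) (2 * n + 10) (2 * n + 8))
    (h1 : f (6 * k) (c - 2) (2 * n + 3) (2 * n - 4)) : False := by
  have hk := H.T.hk
  have hc := H.T.hc
  have h4' := H.T.h4
  have hb := H.T.hb
  have hN := H.T.hN2
  obtain ⟨a0, ha0⟩ : ∃ z, z + 2 = 6 * k := ⟨6 * k - 2, by omega⟩
  obtain ⟨b0, hb0⟩ : ∃ z, z + 4 = c := ⟨c - 4, by omega⟩
  obtain ⟨x0, hx0⟩ : ∃ z, z + 5 = 2 * n := ⟨2 * n - 5, by omega⟩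
  refine check_sound hf (a0 := a0) (b0 := b0) (x0 := x0) (y0 := x0) w_o10b_chk
    ⟨fun _ => rfl, fun h => absurd h (by decide), fun h => absurd h (by decide), by omega, by omega,
      by omega, by omega⟩ ?_ ?_
  · intro j m p q hr h
    obtain ⟨-, -, -, -, hp1, hp2, hq1, hq2⟩ := hr
    replace h := of_decide_eq_true h
    rcases h with h | h | h | h | h | h | h | h
    · obtain ⟨rfl, rfl, h⟩ := h
      exact (WrapC.v3 H.c0 (by omega) (by omega) (by omega) (by omega) (by omega) (by omega) (by omega) (by omega)).mpr (by omega)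
    · obtain ⟨rfl, rfl, h⟩ := h
      exact (WrapC.v2 H.c2 (by omega) (by omega) (by omega) (by omega) (by omega) (by omega) (by omega)).mpr (by omega)
    · obtain ⟨rfl, rfl, h⟩ := h
      exact (WrapC.v3 H.c2 (by omega) (by omega) (by omega) (by omega) (by omega) (by omega) (by omega) (by omega)).mpr (by omega)
    · obtain ⟨rfl, rfl, h⟩ := h
      exact (WrapC.v0 H.c4 (by omega) (by omega) (by omega) (by omega) (by omega) (by omega) (by omega)).mpr (by omega)
    · obtain ⟨rfl, rfl, h⟩ := h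
      exact (WrapC.v1 H.c4 (by omega) (by omega) (by omega) (by omega) (by omega) (by omega) (by omega) (by omega)).mpr (by omega)
    · obtain ⟨rfl, rfl, h⟩ := h
      exact (WrapC.v2 H.c4 (by omega) (by omega) (by omega) (by omega) (by omega) (by omega) (by omega)).mpr (by omega)
    · obtain ⟨rfl, rfl, rfl, rfl⟩ := h
      exact mv h1 (by omega) (by omega) (by omega) (by omega)
    · obtain ⟨rfl, rfl, rfl, rfl⟩ := h
      exact mv h0 (by omega) (by omega) (by omega) (by omega)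
  · intro j m p q hr h
    obtain ⟨-, -, -, -, hp1, hp2, hq1, hq2⟩ := hr
    replace h := of_decide_eq_true h
    rcases h with h | h | h | h | h | h | h | h
    · obtain ⟨rfl, rfl, h⟩ := h
      exact mt (WrapC.v3 H.c0 (by omega) (by omega) (by omega) (by omega) (by omega) (by omega) (by omega) (by omega)).mp (by omega)
    · obtain ⟨rfl, rfl, h⟩ := h
      exact H.lw _ _ _ _ (by omega) (by omega) (by omega) (by omega) (by omega) (by omega)
    · obtain ⟨rfl, rfl, h⟩ := h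
      exact H.lw _ _ _ _ (by omega) (by omega) (by omega) (by omega) (by omega) (by omega)
    · obtain ⟨rfl, rfl, h⟩ := h
      exact H.lw _ _ _ _ (by omega) (by omega) (by omega) (by omega) (by omega) (by omega)
    · obtain ⟨rfl, rfl, h⟩ := h
      exact H.lw _ _ _ _ (by omega) (by omega) (by omega) (by omega) (by omega) (by omega)
    · obtain ⟨rfl, rfl, h⟩ := h
      exact fun t => NHT.rm1i hf H.T (p := 0) (j := 4) (by omega) (by omega) (by omega) (by omega) (by omega) (by omega) (mv t rfl (by omega) rfl rfl)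
    · obtain ⟨rfl, rfl, h⟩ := h
      exact NHT.p0i hf H.T (j := 4) (by omega) (by omega) (by omega) (by omega) (by omega) (by omega)
    · obtain ⟨rfl, rfl, h⟩ := h
      exact NHT.p0 hf H.T (j := 1) (by omega) (by omega) (by omega) (by omega) (by omega) (by omega)

end Pool.Agent.SNT.OutD
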