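import Pool.Agent.SNT.PL
import Pool.Agent.SNT.WrapC

set_option autoImplicit false
set_option synthInstance.maxSize 100000
set_option synthInstance.maxHeartbeats 4000000

/-! The runs of `6 k` in the row `c - 2`, columns `2 M - 1`, `2 M + 1`, `2 M + 3` (`M` = lead of `6 k + 2`, `n - 4 ≤ M ≤ n`),
from `d = 2 k - 5` to `d = 5` (helper13, core miner of helper57). -/

namespace Pool.Agent.SNT.OutE

open Pool.Agent.SNT Pool.Agent.SNT.Sig Pool.Agent.SNT.Loc Pool.Agent.SNT.LW Pool.Agent.SNT.NHZ Pool.Agent.SNT.DRun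
open Pool.Agent.SNT.PB Pool.Agent.SNT.D1E

variable {f : ℕ → ℕ → ℕ → ℕ → Prop}

/-- The window with the leads of the cycle before and the zero cells of `6 k + 1`. -/
structure Q (f : ℕ → ℕ → ℕ → ℕ → Prop) (k c n M : ℕ) : Prop extends PL f k c n M where
  c0p : Cyc f (6 * k) (c - 10) (2 * (M - 3 - (k + 2)) + 2)
  c2p : Cyc f (6 * k + 2) (c - 8) (2 * (M - (k + 2)) + 2)
  c4p : Cyc f (6 * k + 4) (c - 6) (2 * (n + 1 - (k + 2)) + 2)
  /-- OUT row of the cycle before -/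
  PO : ∀ x y : ℕ, x % 2 = 0 → y % 2 = 0 → y ≤ x → x + 4 ≤ y + 2 * k → 4 * M + 4 ≤ x + y + 2 * k → ¬ f (6 * k + 1) (c - 2) x y
  /-- IN row of the cycle before -/
  PI : ∀ x y : ℕ, x % 2 = 0 → y % 2 = 0 → y ≤ x → x + 4 ≤ y + 2 * k → 4 * M ≤ x + y + 4 * k → 2 * M ≤ y + 2 * k + 2 →
    ¬ f (6 * k + 1) (c - 4) x y
  /-- IN row -/
  PC : ∀ x y : ℕ, x % 2 = 0 → y % 2 = 0 → y ≤ x → x + 4 ≤ y + 2 * k → 4 * M + 8 ≤ x + y → 2 * M + 2 ≤ y →
    ¬ f (6 * k + 1) c x y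

theorem st_m1_chk : check 8 7 15 15 0 1 0 1 0
    (fun j n p q => decide ((j = 2 ∧ n = 5 ∧ p = 7 ∧ q = 7)))
    (fun j n p q => decide ((j = 3 ∧ n = 5 ∧ p % 2 = 0 ∧ q % 2 = 1 ∧ q ≤ p + 7 ∧ p ≤ q + 1 ∧ 15 ≤ p + q)
      ∨ (j = 1 ∧ n = 5 ∧ q ≤ p + 7 ∧ p ≤ q + 5)
      ∨ (j = 1 ∧ n = 4 ∧ q ≤ p + 7 ∧ p ≤ q + 5)
      ∨ (j = 1 ∧ n = 3 ∧ q ≤ p + 7 ∧ p ≤ q + 5)
      ∨ (j = 1 ∧ n = 2 ∧ q ≤ p + 7 ∧ p ≤ q + 5)
      ∨ (j = 2 ∧ n = 2 ∧ q ≤ p + 6 ∧ p ≤ q + 4 ∧ 6 ≤ p)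
      ∨ (j = 3 ∧ n = 3 ∧ 8 ≤ p ∧ q ≤ p + 4 ∧ p ≤ q + 1)
      ∨ (j = 3 ∧ n = 2 ∧ 5 ≤ p ∧ q ≤ p + 4 ∧ p ≤ q + 1)
      ∨ (j = 2 ∧ n = 5 ∧ p = 7 ∧ q = 9)))
    64
    0xbad8307b8800accca07a98007b19a0bad8307b10007b10407b1030b35000b35040892830ba6000ba6040892830ba6000bad9207b08007b10a07b18007b1840891800bad870acc870acc070a5c070a5b870a54870a5407089a0708928708918f088b0707b90707aa0707a907074887074807074107074087074007073987073907073887057f07057e87057787057707050e87050e07050707050687049e07049d87049d07049687049607049587042d87042d07042c87042607042587042507 = true := by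
  decide +kernel

theorem st_m1 (hf : Rule f) {k c n M s : ℕ} (H : Q f k c n M) (hs : s % 2 = 0) (h1 : s + 8 ≤ 2 * M) (h2 : 2 * M + 4 ≤ s + 2 * k)
    (g1 : f (6 * k) (c - 2) (2 * M - 1) s) (g2 : ¬ f (6 * k) (c - 2) (2 * M - 1) (s + 2)) : False := by
  have hk := H.T.hk
  have hc := H.T.hc
  have h4' := H.T.h4
  have hb := H.T.hb
  have hN := H.T.hN2
  have hM := H.hM
  have hM' := H.hM'
  have PO := H.PO
  have PI := H.PI
  obtain ⟨a0, ha0⟩ : ∃ z, z + 2 = 6 * k := ⟨6 * k - 2, by omega⟩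
  obtain ⟨b0, hb0⟩ : ∃ z, z + 7 = c := ⟨c - 7, by omega⟩
  obtain ⟨x0, hx0⟩ : ∃ z, z + 8 = 2 * M := ⟨2 * M - 8, by omega⟩
  obtain ⟨y0, hy0⟩ : ∃ z, z + 7 = s := ⟨s - 7, by omega⟩
  refine check_sound hf (a0 := a0) (b0 := b0) (x0 := x0) (y0 := y0) st_m1_chk
    ⟨fun h => absurd h (by decide), fun h => absurd h (by decide), fun h => absurd h (by decide), by omega, by omega,
      by omega, by omega⟩ ?_ ?_
  · intro j m p q hr h
    obtain ⟨-, -, -, -, hp1, hp2, hq1, hq2⟩ := hr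
    replace h := of_decide_eq_true h
    obtain ⟨rfl, rfl, rfl, rfl⟩ := h
    exact mv g1 (by omega) (by omega) (by omega) (by omega)
  · intro j m p q hr h
    obtain ⟨-, -, -, -, hp1, hp2, hq1, hq2⟩ := hr
    replace h := of_decide_eq_true h
    rcases h with h | h | h | h | h | h | h | h | h
    · obtain ⟨rfl, rfl, h⟩ := h
      exact fun t => PO (x0 + p) (y0 + q) (by omega) (by omega) (by omega) (by omega) (by omega) (mv t (by omega) (by omega) rfl rfl)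
    · obtain ⟨rfl, rfl, h⟩ := h
      exact H.lw _ _ _ _ (by omega) (by omega) (by omega) (by omega) (by omega) (by omega)
    · obtain ⟨rfl, rfl, h⟩ := h
      exact H.lw _ _ _ _ (by omega) (by omega) (by omega) (by omega) (by omega) (by omega)
    · obtain ⟨rfl, rfl, h⟩ := h
      exact H.lw _ _ _ _ (by omega) (by omega) (by omega) (by omega) (by omega) (by omega)
    · obtain ⟨rfl, rfl, h⟩ := h
      exact H.lw _ _ _ _ (by omega) (by omega) (by omega) (by omega) (by omega) (by omega)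
    · obtain ⟨rfl, rfl, h⟩ := h
      exact mt (WrapC.v1 H.c0 (by omega) (by omega) (by omega) (by omega) (by omega) (by omega) (by omega) (by omega)).mp (by omega)
    · obtain ⟨rfl, rfl, h⟩ := h
      exact NHT.pIn hf H.T (t := 3) (j := 2) (by omega) (by omega) (by omega) (by omega) (by omega) (by omega) (by omega)
    · obtain ⟨rfl, rfl, h⟩ := h
      exact NHT.rIn hf H.T (t := 2) (p := 1) (j := 2) (by omega) (by omega) (by omega) (by omega) (by omega) (by omega) (by omega) (by omega)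
    · obtain ⟨rfl, rfl, rfl, rfl⟩ := h
      exact fun t => g2 (mv t (by omega) (by omega) (by omega) (by omega))

theorem st_p1_chk : check 5 5 8 11 0 1 1 1 0
    (fun j n p q => decide ((j = 2 ∧ n = 3 ∧ p = 4 ∧ q = 5)))
    (fun j n p q => decide ((j = 3 ∧ n = 3 ∧ p % 2 = 1 ∧ q % 2 = 1 ∧ q ≤ p + 8 ∧ p ≤ q + 0 ∧ 6 ≤ p + q)
      ∨ (j = 1 ∧ n = 3 ∧ q ≤ p + 8 ∧ p ≤ q + 4)
      ∨ (j = 1 ∧ n = 2 ∧ q ≤ p + 8 ∧ p ≤ q + 4)
      ∨ (j = 2 ∧ n = 2 ∧ 4 ≤ p ∧ q ≤ p + 4 ∧ p + 1 ≤ q)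
      ∨ (j = 3 ∧ n = 2 ∧ 4 ≤ p ∧ q ≤ p + 4 ∧ p + 1 ≤ q)
      ∨ (j = 2 ∧ n = 3 ∧ p = 4 ∧ q = 7)))
    25
    0x25583033180033712025480033707030b07030a87030587030507025b0702558702548f025007022f07022e87022987022907017987017907017407017387014d87014d07014807014787 = true := by
  decide +kernel

theorem st_p1 (hf : Rule f) {k c n M s : ℕ} (H : Q f k c n M) (hs : s % 2 = 0) (h1 : s + 6 ≤ 2 * M) (h2 : 2 * M + 6 ≤ s + 2 * k)
    (g1 : f (6 * k) (c - 2) (2 * M + 1) s) (g2 : ¬ f (6 * k) (c - 2) (2 * M + 1) (s + 2)) : False := by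
  have hk := H.T.hk
  have hc := H.T.hc
  have h4' := H.T.h4
  have hb := H.T.hb
  have hN := H.T.hN2
  have hM := H.hM
  have hM' := H.hM'
  have PO := H.PO
  have PI := H.PI
  obtain ⟨a0, ha0⟩ : ∃ z, z + 2 = 6 * k := ⟨6 * k - 2, by omega⟩
  obtain ⟨b0, hb0⟩ : ∃ z, z + 5 = c := ⟨c - 5, by omega⟩
  obtain ⟨x0, hx0⟩ : ∃ z, z + 3 = 2 * M := ⟨2 * M - 3, by omega⟩
  obtain ⟨y0, hy0⟩ : ∃ z, z + 5 = s := ⟨s - 5, by omega⟩
  refine check_sound hf (a0 := a0) (b0 := b0) (x0 := x0) (y0 := y0) st_p1_chk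
    ⟨fun h => absurd h (by decide), fun h => absurd h (by decide), fun h => absurd h (by decide), by omega, by omega,
      by omega, by omega⟩ ?_ ?_
  · intro j m p q hr h
    obtain ⟨-, -, -, -, hp1, hp2, hq1, hq2⟩ := hr
    replace h := of_decide_eq_true h
    obtain ⟨rfl, rfl, rfl, rfl⟩ := h
    exact mv g1 (by omega) (by omega) (by omega) (by omega)
  · intro j m p q hr h
    obtain ⟨-, -, -, -, hp1, hp2, hq1, hq2⟩ := hr
    replace h := of_decide_eq_true h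
    rcases h with h | h | h | h | h | h
    · obtain ⟨rfl, rfl, h⟩ := h
      exact fun t => PO (x0 + p) (y0 + q) (by omega) (by omega) (by omega) (by omega) (by omega) (mv t (by omega) (by omega) rfl rfl)
    · obtain ⟨rfl, rfl, h⟩ := h
      exact H.lw _ _ _ _ (by omega) (by omega) (by omega) (by omega) (by omega) (by omega)
    · obtain ⟨rfl, rfl, h⟩ := h
      exact H.lw _ _ _ _ (by omega) (by omega) (by omega) (by omega) (by omega) (by omega)
    · obtain ⟨rfl, rfl, h⟩ := h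
      exact NHT.rIn hf H.T (t := 3) (p := 0) (j := 3) (by omega) (by omega) (by omega) (by omega) (by omega) (by omega) (by omega) (by omega)
    · obtain ⟨rfl, rfl, h⟩ := h
      exact NHT.rIn hf H.T (t := 3) (p := 1) (j := 3) (by omega) (by omega) (by omega) (by omega) (by omega) (by omega) (by omega) (by omega)
    · obtain ⟨rfl, rfl, rfl, rfl⟩ := h
      exact fun t => g2 (mv t (by omega) (by omega) (by omega) (by omega))

theorem st_p3_chk : check 5 5 8 11 0 1 1 1 0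
    (fun j n p q => decide ((j = 2 ∧ n = 3 ∧ p = 4 ∧ q = 5)))
    (fun j n p q => decide ((j = 1 ∧ n = 3 ∧ q ≤ p + 8 ∧ p ≤ q + 4)
      ∨ (j = 1 ∧ n = 2 ∧ q ≤ p + 8 ∧ p ≤ q + 4)
      ∨ (j = 3 ∧ n = 3 ∧ 5 ≤ p ∧ q ≤ p + 4 ∧ p + 1 ≤ q)
      ∨ (j = 2 ∧ n = 2 ∧ 2 ≤ p ∧ q ≤ p + 4 ∧ p + 1 ≤ q)
      ∨ (j = 3 ∧ n = 2 ∧ 2 ≤ p ∧ q ≤ p + 4 ∧ p + 1 ≤ q)
      ∨ (j = 2 ∧ n = 3 ∧ p = 4 ∧ q = 7)))
    29
    0x33185024f8003371202559a025480033707033687030b07030a87030587030507025b0702558702548f025007022f07022e87022987022907022407022387017987017907017407017387014d87014d07014807014787 = true := by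
  decide +kernel

theorem st_p3 (hf : Rule f) {k c n M s : ℕ} (H : Q f k c n M) (hs : s % 2 = 0) (h1 : s + 4 ≤ 2 * M) (h2 : 2 * M + 8 ≤ s + 2 * k)
    (g1 : f (6 * k) (c - 2) (2 * M + 3) s) (g2 : ¬ f (6 * k) (c - 2) (2 * M + 3) (s + 2)) : False := by
  have hk := H.T.hk
  have hc := H.T.hc
  have h4' := H.T.h4
  have hb := H.T.hb
  have hN := H.T.hN2
  have hM := H.hM
  have hM' := H.hM'
  have PO := H.PO
  have PI := H.PI
  obtain ⟨a0, ha0⟩ : ∃ z, z + 2 = 6 * k := ⟨6 * k - 2, by omega⟩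
  obtain ⟨b0, hb0⟩ : ∃ z, z + 5 = c := ⟨c - 5, by omega⟩
  obtain ⟨x0, hx0⟩ : ∃ z, z + 1 = 2 * M := ⟨2 * M - 1, by omega⟩
  obtain ⟨y0, hy0⟩ : ∃ z, z + 5 = s := ⟨s - 5, by omega⟩
  refine check_sound hf (a0 := a0) (b0 := b0) (x0 := x0) (y0 := y0) st_p3_chk
    ⟨fun h => absurd h (by decide), fun h => absurd h (by decide), fun h => absurd h (by decide), by omega, by omega,
      by omega, by omega⟩ ?_ ?_
  · intro j m p q hr h
    obtain ⟨-, -, -, -, hp1, hp2, hq1, hq2⟩ := hr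
    replace h := of_decide_eq_true h
    obtain ⟨rfl, rfl, rfl, rfl⟩ := h
    exact mv g1 (by omega) (by omega) (by omega) (by omega)
  · intro j m p q hr h
    obtain ⟨-, -, -, -, hp1, hp2, hq1, hq2⟩ := hr
    replace h := of_decide_eq_true h
    rcases h with h | h | h | h | h | h
    · obtain ⟨rfl, rfl, h⟩ := h
      exact H.lw _ _ _ _ (by omega) (by omega) (by omega) (by omega) (by omega) (by omega)
    · obtain ⟨rfl, rfl, h⟩ := h
      exact H.lw _ _ _ _ (by omega) (by omega) (by omega) (by omega) (by omega) (by omega)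
    · obtain ⟨rfl, rfl, h⟩ := h
      exact NHT.pmi hf H.T (j := 3) (by omega) (by omega) (by omega) (by omega) (by omega) (by omega)
    · obtain ⟨rfl, rfl, h⟩ := h
      exact NHT.rIn hf H.T (t := 3) (p := 0) (j := 3) (by omega) (by omega) (by omega) (by omega) (by omega) (by omega) (by omega) (by omega)
    · obtain ⟨rfl, rfl, h⟩ := h
      exact NHT.rIn hf H.T (t := 3) (p := 1) (j := 3) (by omega) (by omega) (by omega) (by omega) (by omega) (by omega) (by omega) (by omega)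
    · obtain ⟨rfl, rfl, rfl, rfl⟩ := h
      exact fun t => g2 (mv t (by omega) (by omega) (by omega) (by omega))

/-- the run in the column `2 * M - 1` -/
theorem run_m1 (hf : Rule f) {k c n M y0 : ℕ} (H : Q f k c n M) (hy : y0 % 2 = 0) (hw : 2 * M + 4 ≤ y0 + 2 * k)
    (h0 : f (6 * k) (c - 2) (2 * M - 1) y0) :
    ∀ y, y0 ≤ y → y + 6 ≤ 2 * M → y % 2 = 0 → f (6 * k) (c - 2) (2 * M - 1) y := by
  intro y h1 h2 h3
  obtain ⟨i, rfl⟩ : ∃ i, y = y0 + 2 * i := ⟨(y - y0) / 2, by omega⟩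
  induction i with
  | zero => simpa using h0
  | succ i ih =>
    have := ih (by omega) (by omega) (by omega)
    by_contra hn
    exact st_m1 hf H (s := y0 + 2 * i) (by omega) (by omega) (by omega) this
      (fun t => hn (mv t rfl rfl rfl (by omega)))

/-- the run in the column `2 * M + 1` -/
theorem run_p1 (hf : Rule f) {k c n M y0 : ℕ} (H : Q f k c n M) (hy : y0 % 2 = 0) (hw : 2 * M + 6 ≤ y0 + 2 * k)
    (h0 : f (6 * k) (c - 2) (2 * M + 1) y0) :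
    ∀ y, y0 ≤ y → y + 4 ≤ 2 * M → y % 2 = 0 → f (6 * k) (c - 2) (2 * M + 1) y := by
  intro y h1 h2 h3
  obtain ⟨i, rfl⟩ : ∃ i, y = y0 + 2 * i := ⟨(y - y0) / 2, by omega⟩
  induction i with
  | zero => simpa using h0
  | succ i ih =>
    have := ih (by omega) (by omega) (by omega)
    by_contra hn
    exact st_p1 hf H (s := y0 + 2 * i) (by omega) (by omega) (by omega) this
      (fun t => hn (mv t rfl rfl rfl (by omega)))

/-- the run in the column `2 * M + 3` -/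
theorem run_p3 (hf : Rule f) {k c n M y0 : ℕ} (H : Q f k c n M) (hy : y0 % 2 = 0) (hw : 2 * M + 8 ≤ y0 + 2 * k)
    (h0 : f (6 * k) (c - 2) (2 * M + 3) y0) :
    ∀ y, y0 ≤ y → y + 2 ≤ 2 * M → y % 2 = 0 → f (6 * k) (c - 2) (2 * M + 3) y := by
  intro y h1 h2 h3
  obtain ⟨i, rfl⟩ : ∃ i, y = y0 + 2 * i := ⟨(y - y0) / 2, by omega⟩
  induction i with
  | zero => simpa using h0
  | succ i ih =>
    have := ih (by omega) (by omega) (by omega)
    by_contra hn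
    exact st_p3 hf H (s := y0 + 2 * i) (by omega) (by omega) (by omega) this
      (fun t => hn (mv t rfl rfl rfl (by omega)))

end Pool.Agent.SNT.OutE
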