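import Pool.Agent.SNT.Z8D

set_option autoImplicit false

/-! The near-wall window of `P_(6 k + 1)` in the row `c - 4` (`c` is the IN row of `6 k + 10`, `n` its lead), for the
improved leads of `6 k`: the hypotheses (helper33). -/

namespace Pool.Agent.SNT.P1W

open Pool.Agent.SNT Pool.Agent.SNT.Loc Pool.Agent.SNT.LW

variable {f : ℕ → ℕ → ℕ → ℕ → Prop}

/-- The hypotheses of the window. -/
structure P1H (f : ℕ → ℕ → ℕ → ℕ → Prop) (k c n : ℕ) : Prop where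
  hk : 8 ≤ k
  hc : c % 2 = 0
  h4 : (6 * k + 10 + c) % 4 = 2
  hb : 12 * k + 100 ≤ c
  hn : 6 * k + 100 ≤ n
  c0 : Cyc f (6 * k) (c - 6) (2 * (n - 4) + 2)
  c2 : Cyc f (6 * k + 2) (c - 4) (2 * (n - 3) + 2)
  c2a : Cyc f (6 * k + 2) (c - 8) (2 * (n - 8) + 2)
  c4 : Cyc f (6 * k + 4) (c - 6) (2 * (n - 6) + 2)
  c6 : Cyc f (6 * k + 6) (c - 4) (2 * (n - 4) + 2)
  lw : ∀ M R x y : ℕ, M + 1 = 6 * k → c ≤ R + 12 → R ≤ c + 12 → 2 * n ≤ x + 30 → y ≤ x →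
    x ≤ y + 4 * k → ¬ f M R x y

theorem P1H.of_stack {k b m e8 e10 : ℕ} (hs : Side k b m) (S : Stack6 f k b m 0 0 0 0 e8 e10) {n N : ℕ}
    (hn : n = m + 9 + (k + 2) * 4) (h1 : N = n ∨ N + 1 = n)
    (d0 : Cyc f (6 * k) (b + 16) (2 * (N - 4) + 2))
    (d2 : Cyc f (6 * k + 2) (b + 18) (2 * (N - 3) + 2)) : P1H f k (b + 22) N where
  hk := hs.1
  hc := by have := hs.2.1; omega
  h4 := by have := hs.2.2.1; omega
  hb := by have := hs.2.2.2.1; omega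
  hn := by have := hs.2.2.2.1; have := hs.2.2.2.2; omega
  c0 := NW.cyc_mv d0 rfl (by omega) rfl
  c2 := NW.cyc_mv d2 rfl (by omega) rfl
  c2a := NW.cyc_mv (Z8.cyc_mono (K' := 2 * (N - 8) + 2) (S.l2 3) (by have := hs.2.2.2.1; have := hs.2.2.2.2; omega)) rfl (by omega) rfl
  c4 := NW.cyc_mv (Z8.cyc_mono (K' := 2 * (N - 6) + 2) (S.l4 4) (by have := hs.2.2.2.1; have := hs.2.2.2.2; omega)) rfl (by omega) rfl
  c6 := NW.cyc_mv (Z8.cyc_mono (K' := 2 * (N - 4) + 2) (S.l6 4) (by have := hs.2.2.2.1; have := hs.2.2.2.2; omega)) rfl (by omega) rfl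
  lw := by
    intro M R x y hM h1 h2 h3 h4 h5
    obtain ⟨k1, k2, k3, k4, k5⟩ := hs
    have e : M = 6 * k - 1 := by omega
    rw [e]
    exact NHZ.lw_zero ⟨k1, k2, k3, k4, k5⟩ S (i := R - b) (by omega) (by omega) (by omega) h4 (by omega)

end Pool.Agent.SNT.P1W
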