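import Pool.Agent.SNT.PL
import Pool.Agent.SNT.WrapC

set_option autoImplicit false
set_option synthInstance.maxSize 100000
set_option synthInstance.maxHeartbeats 4000000

/-! The pair of columns `2 M + 1`, `2 M + 3` of `6 k` in the row `c - 2` near the wall (helper13, generator of helper37, miner of
helper57). -/

namespace Pool.Agent.SNT.P1M

open Pool.Agent.SNT Pool.Agent.SNT.Sig Pool.Agent.SNT.Loc Pool.Agent.SNT.LW Pool.Agent.SNT.NHZ Pool.Agent.SNT.DRun
open Pool.Agent.SNT.PB Pool.Agent.SNT.D1E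

variable {f : ℕ → ℕ → ℕ → ℕ → Prop}

theorem p1_chk : check 4 7 11 15 0 1 0 1 0
    (fun j n p q => decide ((j = 2 ∧ n = 2 ∧ q ≤ p + 13 ∧ p + 1 ≤ q ∧ 2 ≤ p ∧ ((p + q + 1) % 2 = 0 ∧ q ≤ p + 1 ∧ (p + q + 1) % 4 = 0))
      ∨ (j = 2 ∧ n = 3 ∧ q ≤ p + 1 ∧ 5 ≤ p ∧ (((p + q + 1) % 2 = 1 ∧ p + 2 ≤ q ∧ p % 2 = 0) ∨ ((p + q + 1) % 2 = 1 ∧ q ≤ p + 2 ∧ (p + q + 2) % 4 = 0)))
      ∨ (j = 4 ∧ n = 4 ∧ q ≤ p + 13 ∧ p + 1 ≤ q ∧ 8 ≤ p ∧ ((p + q + 1) % 2 = 0 ∧ q ≤ p + 1 ∧ (p + q + 1) % 4 = 0))))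
    (fun j n p q => decide ((j = 2 ∧ n = 2 ∧ q ≤ p + 13 ∧ p + 1 ≤ q ∧ 2 ≤ p ∧ ¬ ((p + q + 1) % 2 = 0 ∧ q ≤ p + 1 ∧ (p + q + 1) % 4 = 0))
      ∨ (j = 2 ∧ n = 3 ∧ q ≤ p + 1 ∧ 5 ≤ p ∧ ¬ (((p + q + 1) % 2 = 1 ∧ p + 2 ≤ q ∧ p % 2 = 0) ∨ ((p + q + 1) % 2 = 1 ∧ q ≤ p + 2 ∧ (p + q + 2) % 4 = 0)))
      ∨ (j = 1 ∧ n = 5 ∧ q ≤ p + 13 ∧ p ≤ q + 15)
      ∨ (j = 1 ∧ n = 4 ∧ q ≤ p + 13 ∧ p ≤ q + 15)
      ∨ (j = 1 ∧ n = 3 ∧ q ≤ p + 13 ∧ p ≤ q + 15)
      ∨ (j = 1 ∧ n = 2 ∧ q ≤ p + 13 ∧ p ≤ q + 15)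
      ∨ (j = 2 ∧ n = 4 ∧ 5 ≤ p ∧ q ≤ p + 13 ∧ p + 6 ≤ q)
      ∨ (j = 3 ∧ n = 4 ∧ 5 ≤ p ∧ q ≤ p + 13 ∧ p + 6 ≤ q)
      ∨ (j = 2 ∧ n = 5 ∧ p = 5 ∧ q = 11)
      ∨ (j = 2 ∧ n = 5 ∧ p = 7 ∧ q = 13)
      ∨ (j = 3 ∧ n = 5 ∧ p = 6 ∧ q = 9)
      ∨ (j = 3 ∧ n = 5 ∧ p = 6 ∧ q = 11)
      ∨ (j = 3 ∧ n = 5 ∧ p = 8 ∧ q = 11)
      ∨ (j = 3 ∧ n = 5 ∧ p = 8 ∧ q = 13)))
    289
    0x8a38306598008a2d206060006060105a40005a40105ac830840800893aa0649800892d205f60005fd9206580006588a05ab8005ab81059c80059c8405fd8305fe0005fe0405a40308380008380408a38306598008a2d2065880065884065a83089b80089b8408a383065980065981089a80089a8405bc83060f00060f0405b403084800084804060d8306608006608405b50308490008490405b40306068006068405ab8305fe8005fe8405b40305b48005bc9a08510008510405a50308390008390405ab8308400008400405fd83083f80083f8405b403084880084884060d8308a20008a204064983088b00088b0405ac8305ff8005ff84065a83089c00089c0405bc8308508008508405ac8308410008410405a40305a48005a4840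60d83060e00060e0405bb8308500008500405b50306078006078405a40305f70005f704064a83088c00088c04065983089b00089b0405b40305b48005bc9a060f80060f8405a50305f78005f78405fd8306508006508405ac8305ff0005ff0405b40306070006070405bb83060e80060e840a988005b28005a2800560800550800a988f08a38708a287089387089287084987083987066207066107065a87065307065207065107064a8706430706420706080706008706000705f80705bc0705bb0705ba8705b30705b28f05ad0705ac0705ab0705aa8705a30705a28f059d07059c07056a0705698705690705688705628705620705618705610705608f055b07055a87055a0705598705590705588705528705520705518705510705508f054b07054a87054a07054987041907041887041807041787041707041687041187041107041087041007040f87040f0704090704088704080704078704018704010704008704000703cc0703cb8703c68703c60703c58703c50703c48703c40703bf0703be8703be0703bd8703bd0703bc8703bc0703bb8703b68703b60703b58703b50703b48703b40703af0703ae8703ae0703ad87037b07037a87037a07037987037907037387037307037287037207037187036c07036b87036b07036a87036a07036987036907036387036307036287036207036187035c07035b87035b07035a87032887032807032787032707032107032087032007031f87031987031907031887031807031787031707031107031087031007030f87030987030907030887030807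 = true := by
  decide +kernel

/-- **P1**: the columns `2 M + 1`, `2 M + 3` of `6 k` in the row `c - 2` are not both missing near the wall, given four zero cells
of `P_(6k+1)` (`PZ.o1`, `PZ.o2` of the cycle before); `n ≤ M + 4`. -/
theorem p1 (hf : Rule f) {k c n M : ℕ} (H : PL f k c n M)
    (z3 : ¬ f (6 * k + 1) (c - 2) (2 * M + 2) (2 * M + 4 - 2 * k)) (z4 : ¬ f (6 * k + 1) (c - 2) (2 * M + 2) (2 * M + 6 - 2 * k))
    (z5 : ¬ f (6 * k + 1) (c - 2) (2 * M + 4) (2 * M + 6 - 2 * k)) (z6 : ¬ f (6 * k + 1) (c - 2) (2 * M + 4) (2 * M + 8 - 2 * k))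
    (g1 : ¬ f (6 * k) (c - 2) (2 * M + 1) (2 * M + 6 - 2 * k)) (g2 : ¬ f (6 * k) (c - 2) (2 * M + 3) (2 * M + 8 - 2 * k)) :
    False := by
  have hk := H.T.hk
  have hc := H.T.hc
  have h4' := H.T.h4
  have hb := H.T.hb
  have hN := H.T.hN2
  have hM := H.hM
  have hM' := H.hM'
  obtain ⟨a0, ha0⟩ : ∃ z, z + 2 = 6 * k := ⟨6 * k - 2, by omega⟩
  obtain ⟨b0, hb0⟩ : ∃ z, z + 7 = c := ⟨c - 7, by omega⟩
  obtain ⟨x0, hx0⟩ : ∃ z, z + 4 = 2 * M := ⟨2 * M - 4, by omega⟩
  obtain ⟨y0, hy0⟩ : ∃ z, z + 2 * k + 5 = 2 * M := ⟨2 * M - 2 * k - 5, by omega⟩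
  refine check_sound hf (a0 := a0) (b0 := b0) (x0 := x0) (y0 := y0) p1_chk
    ⟨fun h => absurd h (by decide), fun h => absurd h (by decide), fun h => absurd h (by decide), by omega, by omega,
      by omega, by omega⟩ ?_ ?_
  · intro j m p q hr h
    obtain ⟨-, -, -, -, hp1, hp2, hq1, hq2⟩ := hr
    replace h := of_decide_eq_true h
    rcases h with h | h | h
    · obtain ⟨rfl, rfl, h⟩ := h
      exact (WrapC.v1 H.c0 (by omega) (by omega) (by omega) (by omega) (by omega) (by omega) (by omega) (by omega)).mpr (by omega)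
    · obtain ⟨rfl, rfl, h⟩ := h
      exact (WrapC.v2 H.c0 (by omega) (by omega) (by omega) (by omega) (by omega) (by omega) (by omega)).mpr (by omega)
    · obtain ⟨rfl, rfl, h⟩ := h
      exact (WrapC.v1 H.c2 (by omega) (by omega) (by omega) (by omega) (by omega) (by omega) (by omega) (by omega)).mpr (by omega)
  · intro j m p q hr h
    obtain ⟨-, -, -, -, hp1, hp2, hq1, hq2⟩ := hr
    replace h := of_decide_eq_true h
    rcases h with h | h | h | h | h | h | h | h | h | h | h | h | h | h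
    · obtain ⟨rfl, rfl, h⟩ := h
      exact mt (WrapC.v1 H.c0 (by omega) (by omega) (by omega) (by omega) (by omega) (by omega) (by omega) (by omega)).mp (by omega)
    · obtain ⟨rfl, rfl, h⟩ := h
      exact mt (WrapC.v2 H.c0 (by omega) (by omega) (by omega) (by omega) (by omega) (by omega) (by omega)).mp (by omega)
    · obtain ⟨rfl, rfl, h⟩ := h
      exact H.lw _ _ _ _ (by omega) (by omega) (by omega) (by omega) (by omega) (by omega)
    · obtain ⟨rfl, rfl, h⟩ := h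
      exact H.lw _ _ _ _ (by omega) (by omega) (by omega) (by omega) (by omega) (by omega)
    · obtain ⟨rfl, rfl, h⟩ := h
      exact H.lw _ _ _ _ (by omega) (by omega) (by omega) (by omega) (by omega) (by omega)
    · obtain ⟨rfl, rfl, h⟩ := h
      exact H.lw _ _ _ _ (by omega) (by omega) (by omega) (by omega) (by omega) (by omega)
    · obtain ⟨rfl, rfl, h⟩ := h
      exact NHT.rIn hf H.T (t := 3) (p := 0) (j := 3) (by omega) (by omega) (by omega) (by omega) (by omega) (by omega) (by omega) (by omega)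
    · obtain ⟨rfl, rfl, h⟩ := h
      exact NHT.rIn hf H.T (t := 3) (p := 1) (j := 3) (by omega) (by omega) (by omega) (by omega) (by omega) (by omega) (by omega) (by omega)
    · obtain ⟨rfl, rfl, rfl, rfl⟩ := h
      exact fun t => g1 (mv t (by omega) (by omega) (by omega) (by omega))
    · obtain ⟨rfl, rfl, rfl, rfl⟩ := h
      exact fun t => g2 (mv t (by omega) (by omega) (by omega) (by omega))
    · obtain ⟨rfl, rfl, rfl, rfl⟩ := h
      exact fun t => z3 (mv t (by omega) (by omega) (by omega) (by omega))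
    · obtain ⟨rfl, rfl, rfl, rfl⟩ := h
      exact fun t => z4 (mv t (by omega) (by omega) (by omega) (by omega))
    · obtain ⟨rfl, rfl, rfl, rfl⟩ := h
      exact fun t => z5 (mv t (by omega) (by omega) (by omega) (by omega))
    · obtain ⟨rfl, rfl, rfl, rfl⟩ := h
      exact fun t => z6 (mv t (by omega) (by omega) (by omega) (by omega))

end Pool.Agent.SNT.P1M
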