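import Pool.Agent.SNT.WrapC
import Pool.Agent.SNT.NHZone
import Pool.Agent.SNT.NHZoneU

set_option autoImplicit false
set_option synthInstance.maxSize 100000
set_option synthInstance.maxHeartbeats 4000000
set_option linter.unusedVariables false

/-! Wall cells of the odd layer `6 k + 1` in the rows `c` and `c + 2` (helper23). -/

namespace Pool.Agent.SNT.P1W

open Pool.Agent.SNT Pool.Agent.SNT.Loc Pool.Agent.SNT.LW Pool.Agent.SNT.NHZ

variable {f : ℕ → ℕ → ℕ → ℕ → Prop}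

/-- The hypotheses of the wall windows: `M` is the lead of `6 k + 2` in the row `c - 4`. -/
structure WM (f : ℕ → ℕ → ℕ → ℕ → Prop) (k c n M : ℕ) : Prop where
  T : NHT f k c (2 * n)
  U : NHU f k c (2 * n)
  hM : n ≤ M + 4
  hM' : M + 2 ≤ n
  c0 : Cyc f (6 * k) (c - 6) (2 * (M - 3) + 2)
  c2 : Cyc f (6 * k + 2) (c - 4) (2 * M + 2)
  c4 : Cyc f (6 * k + 4) (c - 2) (2 * (n + 1) + 2)
  c0n : Cyc f (6 * k) (c - 2) (2 * (M - 3 + (k + 2)) + 2)
  c2n : Cyc f (6 * k + 2) c (2 * (M + (k + 2)) + 2)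

theorem mv {a b x y a' b' x' y' : ℕ} (h : f a b x y) (h1 : a' = a) (h2 : b' = b) (h3 : x' = x) (h4 : y' = y) :
    f a' b' x' y' := by
  subst h1 h2 h3 h4
  exact h

theorem in4_chk : check 5 6 9 9 0 0 0 0 0
    (fun j n p q => decide ((j = 1 ∧ n = 4 ∧ p = 4 ∧ q = 4) ∨ (j = 2 ∧ n = 1 ∧ p = 5 ∧ q = 1) ∨ (j = 4 ∧ n = 2 ∧ p = 5 ∧ q = 2) ∨ (j = 4 ∧ n = 2 ∧ p = 5 ∧ q = 4) ∨ (j = 4 ∧ n = 2 ∧ p = 7 ∧ q = 4) ∨ (j = 4 ∧ n = 2 ∧ p = 7 ∧ q = 6) ∨ (j = 4 ∧ n = 3 ∧ p = 7 ∧ q = 3)))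
    (fun j n p q => decide (((j = 2 ∧ n = 1 ∧ p = 3 ∧ q = 3) ∨ (j = 2 ∧ n = 1 ∧ p = 3 ∧ q = 4) ∨ (j = 2 ∧ n = 1 ∧ p = 4 ∧ q = 2) ∨ (j = 2 ∧ n = 1 ∧ p = 4 ∧ q = 3) ∨ (j = 2 ∧ n = 1 ∧ p = 4 ∧ q = 4) ∨ (j = 2 ∧ n = 1 ∧ p = 4 ∧ q = 5) ∨ (j = 2 ∧ n = 1 ∧ p = 5 ∧ q = 2) ∨ (j = 2 ∧ n = 1 ∧ p = 5 ∧ q = 3) ∨ (j = 2 ∧ n = 1 ∧ p = 5 ∧ q = 4) ∨ (j = 2 ∧ n = 1 ∧ p = 5 ∧ q = 5) ∨ (j = 2 ∧ n = 1 ∧ p = 6 ∧ q = 2) ∨ (j = 2 ∧ n = 1 ∧ p = 6 ∧ q = 3)) ∨
      ((j = 2 ∧ n = 1 ∧ p = 6 ∧ q = 4) ∨ (j = 2 ∧ n = 1 ∧ p = 6 ∧ q = 5) ∨ (j = 2 ∧ n = 3 ∧ p = 4 ∧ q = 5) ∨ (j = 3 ∧ n = 1 ∧ p = 3 ∧ q = 3) ∨ (j = 3 ∧ n = 1 ∧ p = 3 ∧ q = 4) ∨ (j = 3 ∧ n = 1 ∧ p = 4 ∧ q = 4) ∨ (j = 3 ∧ n = 1 ∧ p = 4 ∧ q = 5) ∨ (j = 3 ∧ n = 1 ∧ p = 5 ∧ q = 5) ∨ (j = 3 ∧ n = 2 ∧ p = 3 ∧ q = 3) ∨ (j = 3 ∧ n = 2 ∧ p = 3 ∧ q = 4) ∨ (j = 3 ∧ n = 2 ∧ p = 4 ∧ q = 4) ∨ (j = 3 ∧ n = 2 ∧ p = 4 ∧ q = 5)) ∨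
      ((j = 3 ∧ n = 2 ∧ p = 5 ∧ q = 5) ∨ (j = 3 ∧ n = 3 ∧ p = 4 ∧ q = 5) ∨ (j = 3 ∧ n = 4 ∧ p = 4 ∧ q = 5) ∨ (j = 4 ∧ n = 3 ∧ p = 4 ∧ q = 4) ∨ (j = 4 ∧ n = 3 ∧ p = 4 ∧ q = 5) ∨ (j = 4 ∧ n = 3 ∧ p = 5 ∧ q = 5) ∨ (j = 4 ∧ n = 3 ∧ p = 5 ∧ q = 6) ∨ (j = 4 ∧ n = 3 ∧ p = 6 ∧ q = 4) ∨ (j = 4 ∧ n = 3 ∧ p = 6 ∧ q = 5) ∨ (j = 4 ∧ n = 3 ∧ p = 6 ∧ q = 6) ∨ (j = 4 ∧ n = 3 ∧ p = 7 ∧ q = 4) ∨ (j = 4 ∧ n = 3 ∧ p = 7 ∧ q = 5)) ∨
      ((j = 5 ∧ n = 3 ∧ p = 4 ∧ q = 4) ∨ (j = 5 ∧ n = 3 ∧ p = 4 ∧ q = 5) ∨ (j = 5 ∧ n = 3 ∧ p = 5 ∧ q = 4) ∨ (j = 5 ∧ n = 3 ∧ p = 5 ∧ q = 5) ∨ (j = 5 ∧ n = 3 ∧ p = 5 ∧ q = 6) ∨ (j = 5 ∧ n = 3 ∧ p = 6 ∧ q = 4) ∨ (j = 5 ∧ n = 3 ∧ p = 6 ∧ q = 5) ∨ (j = 5 ∧ n = 3 ∧ p = 6 ∧ q = 6) ∨ (j = 5 ∧ n = 3 ∧ p = 7 ∧ q = 5) ∨ (j = 5 ∧ n = 4 ∧ p = 4 ∧ q = 4) ∨ (j = 5 ∧ n = 4 ∧ p = 4 ∧ q = 5) ∨ (j = 5 ∧ n = 4 ∧ p = 5 ∧ q = 4)) ∨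
      ((j = 5 ∧ n = 4 ∧ p = 5 ∧ q = 5) ∨ (j = 5 ∧ n = 4 ∧ p = 5 ∧ q = 6) ∨ (j = 5 ∧ n = 4 ∧ p = 6 ∧ q = 4) ∨ (j = 5 ∧ n = 4 ∧ p = 6 ∧ q = 5) ∨ (j = 5 ∧ n = 4 ∧ p = 6 ∧ q = 6) ∨ (j = 5 ∧ n = 4 ∧ p = 7 ∧ q = 5))))
    127
    0x39403048280057a52048b80058352039403048700048b92049000049004057e83039380039384034303027880027884034303027880039462048680048684033e03027380027384034783037000037004057f03039400039404057e83036b00036b04058303039880039884034203024f80024f84034283027800027804034303036b80036b84034683036f80036f84058303039800039804046680043f80043e8004358004348002258001a900058307057f07057e87057e07057a87057a07057987057587057507055a87055687055607055587055207055187055107054d07054c87048c07048b0704820704678704670704668f046387046307046287045f07045e87045a07045987043f8f043e8f04358f04348f038f87036707034307033e87033e07033987033907031a87031607031587031107031087029c07027407025407025307024b07024a07022c07022b87022b07022a8702278702270702268702260702258f022307022287022207022187021e07021d8701a90f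 = true := by
  decide +kernel

/-- the cells `d = 2 k - 4` of the row `c`, `x ≥ 2 n + 4` -/
theorem in4 (hf : Rule f) {k c n M : ℕ} (H : WM f k c n M) {s : ℕ} (hs : 2 * n + 4 ≤ s) (hse : s % 2 = 0)
    (h0 : f (6 * k + 1) (c) (s) (s + 4 - 2 * k)) : False := by
  have hM := H.hM
  have hM' := H.hM'
  have hk := H.T.hk
  have hc := H.T.hc
  have h4' := H.T.h4
  have hb := H.T.hb
  have hN := H.T.hN2
  obtain ⟨a0, ha0⟩ : ∃ z, z = 6 * k + 0 := ⟨_, rfl⟩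
  obtain ⟨b0, hb0⟩ : ∃ z, z + 4 = c := ⟨c - 4, by omega⟩
  obtain ⟨x0, hx0⟩ : ∃ z, z + 4 = s := ⟨s - 4, by omega⟩
  obtain ⟨y0, hy0⟩ : ∃ z, z = (s - 2 * k) + 0 := ⟨_, rfl⟩
  refine check_sound hf (a0 := a0) (b0 := b0) (x0 := x0) (y0 := y0) in4_chk
    ⟨fun h => absurd h (by decide), fun h => absurd h (by decide), fun h => absurd h (by decide), by omega, by omega,
      by omega, by omega⟩ ?_ ?_
  · intro j m p q hr h
    clear hr
    replace h := of_decide_eq_true h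
    rcases h with ⟨rfl, rfl, rfl, rfl⟩ | ⟨rfl, rfl, rfl, rfl⟩ | ⟨rfl, rfl, rfl, rfl⟩ | ⟨rfl, rfl, rfl, rfl⟩ | ⟨rfl, rfl, rfl, rfl⟩ | ⟨rfl, rfl, rfl, rfl⟩ | ⟨rfl, rfl, rfl, rfl⟩
    · exact mv h0 (by omega) (by omega) (by omega) (by omega)
    · exact (WrapC.v1 H.c2 (by omega) (by omega) (by omega) (by omega) (by omega) (by omega) (by omega) (by omega)).mpr (by omega)
    · exact (WrapC.v0 H.c4 (by omega) (by omega) (by omega) (by omega) (by omega) (by omega) (by omega)).mpr (by omega)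
    · exact (WrapC.v0 H.c4 (by omega) (by omega) (by omega) (by omega) (by omega) (by omega) (by omega)).mpr (by omega)
    · exact (WrapC.v0 H.c4 (by omega) (by omega) (by omega) (by omega) (by omega) (by omega) (by omega)).mpr (by omega)
    · exact (WrapC.v0 H.c4 (by omega) (by omega) (by omega) (by omega) (by omega) (by omega) (by omega)).mpr (by omega)
    · exact (WrapC.v1 H.c4 (by omega) (by omega) (by omega) (by omega) (by omega) (by omega) (by omega) (by omega)).mpr (by omega)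
  · intro j m p q hr h
    clear hr
    replace h := of_decide_eq_true h
    rcases h with h | h | h | h | h
    · rcases h with ⟨rfl, rfl, rfl, rfl⟩ | ⟨rfl, rfl, rfl, rfl⟩ | ⟨rfl, rfl, rfl, rfl⟩ | ⟨rfl, rfl, rfl, rfl⟩ | ⟨rfl, rfl, rfl, rfl⟩ | ⟨rfl, rfl, rfl, rfl⟩ | ⟨rfl, rfl, rfl, rfl⟩ | ⟨rfl, rfl, rfl, rfl⟩ | ⟨rfl, rfl, rfl, rfl⟩ | ⟨rfl, rfl, rfl, rfl⟩ | ⟨rfl, rfl, rfl, rfl⟩ | ⟨rfl, rfl, rfl, rfl⟩
      · exact mt (WrapC.v1 H.c2 (by omega) (by omega) (by omega) (by omega) (by omega) (by omega) (by omega) (by omega)).mp (by omega)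
      · exact mt (WrapC.v1 H.c2 (by omega) (by omega) (by omega) (by omega) (by omega) (by omega) (by omega) (by omega)).mp (by omega)
      · exact mt (WrapC.v1 H.c2 (by omega) (by omega) (by omega) (by omega) (by omega) (by omega) (by omega) (by omega)).mp (by omega)
      · exact mt (WrapC.v1 H.c2 (by omega) (by omega) (by omega) (by omega) (by omega) (by omega) (by omega) (by omega)).mp (by omega)
      · exact mt (WrapC.v1 H.c2 (by omega) (by omega) (by omega) (by omega) (by omega) (by omega) (by omega) (by omega)).mp (by omega)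
      · exact mt (WrapC.v1 H.c2 (by omega) (by omega) (by omega) (by omega) (by omega) (by omega) (by omega) (by omega)).mp (by omega)
      · exact mt (WrapC.v1 H.c2 (by omega) (by omega) (by omega) (by omega) (by omega) (by omega) (by omega) (by omega)).mp (by omega)
      · exact mt (WrapC.v1 H.c2 (by omega) (by omega) (by omega) (by omega) (by omega) (by omega) (by omega) (by omega)).mp (by omega)
      · exact mt (WrapC.v1 H.c2 (by omega) (by omega) (by omega) (by omega) (by omega) (by omega) (by omega) (by omega)).mp (by omega)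
      · exact mt (WrapC.v1 H.c2 (by omega) (by omega) (by omega) (by omega) (by omega) (by omega) (by omega) (by omega)).mp (by omega)
      · exact mt (WrapC.v1 H.c2 (by omega) (by omega) (by omega) (by omega) (by omega) (by omega) (by omega) (by omega)).mp (by omega)
      · exact mt (WrapC.v1 H.c2 (by omega) (by omega) (by omega) (by omega) (by omega) (by omega) (by omega) (by omega)).mp (by omega)
    · rcases h with ⟨rfl, rfl, rfl, rfl⟩ | ⟨rfl, rfl, rfl, rfl⟩ | ⟨rfl, rfl, rfl, rfl⟩ | ⟨rfl, rfl, rfl, rfl⟩ | ⟨rfl, rfl, rfl, rfl⟩ | ⟨rfl, rfl, rfl, rfl⟩ | ⟨rfl, rfl, rfl, rfl⟩ | ⟨rfl, rfl, rfl, rfl⟩ | ⟨rfl, rfl, rfl, rfl⟩ | ⟨rfl, rfl, rfl, rfl⟩ | ⟨rfl, rfl, rfl, rfl⟩ | ⟨rfl, rfl, rfl, rfl⟩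
      · exact mt (WrapC.v1 H.c2 (by omega) (by omega) (by omega) (by omega) (by omega) (by omega) (by omega) (by omega)).mp (by omega)
      · exact mt (WrapC.v1 H.c2 (by omega) (by omega) (by omega) (by omega) (by omega) (by omega) (by omega) (by omega)).mp (by omega)
      · exact fun t => NHT.rm1i hf H.T (p := 0) (j := 3) (by omega) (by omega) (by omega) (by omega) (by omega) (by omega) (mv t rfl (by omega) rfl rfl)
      · exact NHT.pmi hf H.T (j := 2) (by omega) (by omega) (by omega) (by omega) (by omega) (by omega)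
      · exact NHT.pmi hf H.T (j := 2) (by omega) (by omega) (by omega) (by omega) (by omega) (by omega)
      · exact NHT.pmi hf H.T (j := 2) (by omega) (by omega) (by omega) (by omega) (by omega) (by omega)
      · exact NHT.pmi hf H.T (j := 2) (by omega) (by omega) (by omega) (by omega) (by omega) (by omega)
      · exact NHT.pmi hf H.T (j := 2) (by omega) (by omega) (by omega) (by omega) (by omega) (by omega)
      · exact NHT.pmi hf H.T (j := 2) (by omega) (by omega) (by omega) (by omega) (by omega) (by omega)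
      · exact NHT.pmi hf H.T (j := 2) (by omega) (by omega) (by omega) (by omega) (by omega) (by omega)
      · exact NHT.pmi hf H.T (j := 2) (by omega) (by omega) (by omega) (by omega) (by omega) (by omega)
      · exact NHT.pmi hf H.T (j := 2) (by omega) (by omega) (by omega) (by omega) (by omega) (by omega)
    · rcases h with ⟨rfl, rfl, rfl, rfl⟩ | ⟨rfl, rfl, rfl, rfl⟩ | ⟨rfl, rfl, rfl, rfl⟩ | ⟨rfl, rfl, rfl, rfl⟩ | ⟨rfl, rfl, rfl, rfl⟩ | ⟨rfl, rfl, rfl, rfl⟩ | ⟨rfl, rfl, rfl, rfl⟩ | ⟨rfl, rfl, rfl, rfl⟩ | ⟨rfl, rfl, rfl, rfl⟩ | ⟨rfl, rfl, rfl, rfl⟩ | ⟨rfl, rfl, rfl, rfl⟩ | ⟨rfl, rfl, rfl, rfl⟩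
      · exact NHT.pmi hf H.T (j := 2) (by omega) (by omega) (by omega) (by omega) (by omega) (by omega)
      · exact NHT.p0i hf H.T (j := 3) (by omega) (by omega) (by omega) (by omega) (by omega) (by omega)
      · exact NHT.p0i hf H.T (j := 3) (by omega) (by omega) (by omega) (by omega) (by omega) (by omega)
      · exact fun t => NHT.rm1i hf H.T (p := 0) (j := 2) (by omega) (by omega) (by omega) (by omega) (by omega) (by omega) (mv t rfl (by omega) rfl rfl)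
      · exact fun t => NHT.rm1i hf H.T (p := 0) (j := 2) (by omega) (by omega) (by omega) (by omega) (by omega) (by omega) (mv t rfl (by omega) rfl rfl)
      · exact fun t => NHT.rm1i hf H.T (p := 0) (j := 2) (by omega) (by omega) (by omega) (by omega) (by omega) (by omega) (mv t rfl (by omega) rfl rfl)
      · exact fun t => NHT.rm1i hf H.T (p := 0) (j := 2) (by omega) (by omega) (by omega) (by omega) (by omega) (by omega) (mv t rfl (by omega) rfl rfl)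
      · exact mt (WrapC.v1 H.c4 (by omega) (by omega) (by omega) (by omega) (by omega) (by omega) (by omega) (by omega)).mp (by omega)
      · exact mt (WrapC.v1 H.c4 (by omega) (by omega) (by omega) (by omega) (by omega) (by omega) (by omega) (by omega)).mp (by omega)
      · exact mt (WrapC.v1 H.c4 (by omega) (by omega) (by omega) (by omega) (by omega) (by omega) (by omega) (by omega)).mp (by omega)
      · exact mt (WrapC.v1 H.c4 (by omega) (by omega) (by omega) (by omega) (by omega) (by omega) (by omega) (by omega)).mp (by omega)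
      · exact mt (WrapC.v1 H.c4 (by omega) (by omega) (by omega) (by omega) (by omega) (by omega) (by omega) (by omega)).mp (by omega)
    · rcases h with ⟨rfl, rfl, rfl, rfl⟩ | ⟨rfl, rfl, rfl, rfl⟩ | ⟨rfl, rfl, rfl, rfl⟩ | ⟨rfl, rfl, rfl, rfl⟩ | ⟨rfl, rfl, rfl, rfl⟩ | ⟨rfl, rfl, rfl, rfl⟩ | ⟨rfl, rfl, rfl, rfl⟩ | ⟨rfl, rfl, rfl, rfl⟩ | ⟨rfl, rfl, rfl, rfl⟩ | ⟨rfl, rfl, rfl, rfl⟩ | ⟨rfl, rfl, rfl, rfl⟩ | ⟨rfl, rfl, rfl, rfl⟩
      · exact NHT.p0i hf H.T (j := 2) (by omega) (by omega) (by omega) (by omega) (by omega) (by omega)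
      · exact NHT.p0i hf H.T (j := 2) (by omega) (by omega) (by omega) (by omega) (by omega) (by omega)
      · exact NHU.p0i hf H.U (j := 2) (by omega) (by omega) (by omega) (by omega) (by omega) (by omega)
      · exact NHT.p0i hf H.T (j := 2) (by omega) (by omega) (by omega) (by omega) (by omega) (by omega)
      · exact NHT.p0i hf H.T (j := 2) (by omega) (by omega) (by omega) (by omega) (by omega) (by omega)
      · exact NHU.p0i hf H.U (j := 2) (by omega) (by omega) (by omega) (by omega) (by omega) (by omega)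
      · exact NHU.p0i hf H.U (j := 2) (by omega) (by omega) (by omega) (by omega) (by omega) (by omega)
      · exact NHT.p0i hf H.T (j := 2) (by omega) (by omega) (by omega) (by omega) (by omega) (by omega)
      · exact NHU.p0i hf H.U (j := 2) (by omega) (by omega) (by omega) (by omega) (by omega) (by omega)
      · exact NHT.p0i hf H.T (j := 2) (by omega) (by omega) (by omega) (by omega) (by omega) (by omega)
      · exact NHT.p0i hf H.T (j := 2) (by omega) (by omega) (by omega) (by omega) (by omega) (by omega)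
      · exact NHU.p0i hf H.U (j := 2) (by omega) (by omega) (by omega) (by omega) (by omega) (by omega)
    · rcases h with ⟨rfl, rfl, rfl, rfl⟩ | ⟨rfl, rfl, rfl, rfl⟩ | ⟨rfl, rfl, rfl, rfl⟩ | ⟨rfl, rfl, rfl, rfl⟩ | ⟨rfl, rfl, rfl, rfl⟩ | ⟨rfl, rfl, rfl, rfl⟩
      · exact NHT.p0i hf H.T (j := 2) (by omega) (by omega) (by omega) (by omega) (by omega) (by omega)
      · exact NHT.p0i hf H.T (j := 2) (by omega) (by omega) (by omega) (by omega) (by omega) (by omega)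
      · exact NHU.p0i hf H.U (j := 2) (by omega) (by omega) (by omega) (by omega) (by omega) (by omega)
      · exact NHU.p0i hf H.U (j := 2) (by omega) (by omega) (by omega) (by omega) (by omega) (by omega)
      · exact NHT.p0i hf H.T (j := 2) (by omega) (by omega) (by omega) (by omega) (by omega) (by omega)
      · exact NHU.p0i hf H.U (j := 2) (by omega) (by omega) (by omega) (by omega) (by omega) (by omega)

theorem out4_chk : check 5 6 9 9 0 0 0 0 0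
    (fun j n p q => decide ((j = 1 ∧ n = 4 ∧ p = 4 ∧ q = 4) ∨ (j = 4 ∧ n = 1 ∧ p = 5 ∧ q = 1) ∨ (j = 4 ∧ n = 1 ∧ p = 7 ∧ q = 3)))
    (fun j n p q => decide (((j = 2 ∧ n = 1 ∧ p = 3 ∧ q = 3) ∨ (j = 2 ∧ n = 1 ∧ p = 3 ∧ q = 4) ∨ (j = 2 ∧ n = 1 ∧ p = 4 ∧ q = 3) ∨ (j = 2 ∧ n = 1 ∧ p = 4 ∧ q = 4) ∨ (j = 2 ∧ n = 1 ∧ p = 4 ∧ q = 5) ∨ (j = 2 ∧ n = 1 ∧ p = 5 ∧ q = 3) ∨ (j = 2 ∧ n = 1 ∧ p = 5 ∧ q = 4) ∨ (j = 2 ∧ n = 1 ∧ p = 5 ∧ q = 5) ∨ (j = 2 ∧ n = 3 ∧ p = 4 ∧ q = 5) ∨ (j = 3 ∧ n = 1 ∧ p = 3 ∧ q = 3) ∨ (j = 3 ∧ n = 1 ∧ p = 3 ∧ q = 4) ∨ (j = 3 ∧ n = 1 ∧ p = 4 ∧ q = 4)) ∨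
      ((j = 3 ∧ n = 1 ∧ p = 4 ∧ q = 5) ∨ (j = 3 ∧ n = 1 ∧ p = 5 ∧ q = 5) ∨ (j = 3 ∧ n = 2 ∧ p = 3 ∧ q = 3) ∨ (j = 3 ∧ n = 2 ∧ p = 3 ∧ q = 4) ∨ (j = 3 ∧ n = 2 ∧ p = 4 ∧ q = 4) ∨ (j = 3 ∧ n = 2 ∧ p = 4 ∧ q = 5) ∨ (j = 3 ∧ n = 2 ∧ p = 5 ∧ q = 5) ∨ (j = 3 ∧ n = 3 ∧ p = 4 ∧ q = 5) ∨ (j = 3 ∧ n = 4 ∧ p = 4 ∧ q = 5) ∨ (j = 4 ∧ n = 1 ∧ p = 4 ∧ q = 2) ∨ (j = 4 ∧ n = 1 ∧ p = 4 ∧ q = 3) ∨ (j = 4 ∧ n = 1 ∧ p = 5 ∧ q = 2)) ∨
      ((j = 4 ∧ n = 1 ∧ p = 5 ∧ q = 3) ∨ (j = 4 ∧ n = 1 ∧ p = 5 ∧ q = 4) ∨ (j = 4 ∧ n = 1 ∧ p = 5 ∧ q = 5) ∨ (j = 4 ∧ n = 1 ∧ p = 6 ∧ q = 2) ∨ (j = 4 ∧ n = 1 ∧ p = 6 ∧ q = 3) ∨ (j = 4 ∧ n = 1 ∧ p = 6 ∧ q = 4) ∨ (j = 4 ∧ n = 1 ∧ p = 6 ∧ q = 5) ∨ (j = 4 ∧ n = 1 ∧ p = 7 ∧ q = 4) ∨ (j = 4 ∧ n = 1 ∧ p = 7 ∧ q = 5) ∨ (j = 4 ∧ n = 3 ∧ p = 4 ∧ q = 4) ∨ (j = 4 ∧ n = 3 ∧ p = 4 ∧ q = 5) ∨ (j = 4 ∧ n = 3 ∧ p = 5 ∧ q = 5)) ∨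
      ((j = 4 ∧ n = 3 ∧ p = 5 ∧ q = 6) ∨ (j = 4 ∧ n = 3 ∧ p = 6 ∧ q = 6) ∨ (j = 5 ∧ n = 1 ∧ p = 4 ∧ q = 2) ∨ (j = 5 ∧ n = 1 ∧ p = 4 ∧ q = 3) ∨ (j = 5 ∧ n = 1 ∧ p = 5 ∧ q = 2) ∨ (j = 5 ∧ n = 1 ∧ p = 5 ∧ q = 3) ∨ (j = 5 ∧ n = 1 ∧ p = 5 ∧ q = 4) ∨ (j = 5 ∧ n = 1 ∧ p = 5 ∧ q = 5) ∨ (j = 5 ∧ n = 1 ∧ p = 6 ∧ q = 3) ∨ (j = 5 ∧ n = 1 ∧ p = 6 ∧ q = 4) ∨ (j = 5 ∧ n = 1 ∧ p = 6 ∧ q = 5) ∨ (j = 5 ∧ n = 1 ∧ p = 7 ∧ q = 4)) ∨
      ((j = 5 ∧ n = 1 ∧ p = 7 ∧ q = 5) ∨ (j = 5 ∧ n = 2 ∧ p = 4 ∧ q = 2) ∨ (j = 5 ∧ n = 2 ∧ p = 4 ∧ q = 3) ∨ (j = 5 ∧ n = 2 ∧ p = 5 ∧ q = 2) ∨ (j = 5 ∧ n = 2 ∧ p = 5 ∧ q = 3) ∨ (j = 5 ∧ n = 2 ∧ p = 5 ∧ q = 4) ∨ (j = 5 ∧ n = 2 ∧ p = 5 ∧ q = 5) ∨ (j = 5 ∧ n = 2 ∧ p = 6 ∧ q = 3) ∨ (j = 5 ∧ n = 2 ∧ p = 6 ∧ q = 4) ∨ (j = 5 ∧ n = 2 ∧ p = 6 ∧ q = 5) ∨ (j = 5 ∧ n = 2 ∧ p = 7 ∧ q = 4) ∨ (j = 5 ∧ n = 2 ∧ p = 7 ∧ q = 5)) ∨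
      ((j = 5 ∧ n = 3 ∧ p = 4 ∧ q = 4) ∨ (j = 5 ∧ n = 3 ∧ p = 4 ∧ q = 5) ∨ (j = 5 ∧ n = 3 ∧ p = 5 ∧ q = 4) ∨ (j = 5 ∧ n = 3 ∧ p = 5 ∧ q = 5) ∨ (j = 5 ∧ n = 3 ∧ p = 5 ∧ q = 6) ∨ (j = 5 ∧ n = 3 ∧ p = 6 ∧ q = 5) ∨ (j = 5 ∧ n = 3 ∧ p = 6 ∧ q = 6) ∨ (j = 5 ∧ n = 4 ∧ p = 4 ∧ q = 4) ∨ (j = 5 ∧ n = 4 ∧ p = 4 ∧ q = 5) ∨ (j = 5 ∧ n = 4 ∧ p = 5 ∧ q = 4) ∨ (j = 5 ∧ n = 4 ∧ p = 5 ∧ q = 5) ∨ (j = 5 ∧ n = 4 ∧ p = 5 ∧ q = 6)) ∨
      ((j = 5 ∧ n = 4 ∧ p = 6 ∧ q = 5) ∨ (j = 5 ∧ n = 4 ∧ p = 6 ∧ q = 6))))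
    154
    0x33e0302738003947a057f03039400039404034283036b00036b04034303027880027884043a83046300046304057f03036b80036b84053203031e80031e84034283027800027804052c83034200034204053203031f00031f04052d83034280034284057a03038f00038f04052d83031a00031a04052c83031980031984053203034780034784052803033d80033d84033e03036680036684052d83046300057f6a048280057a52039380039384052803045e00045e04052803031500031504052803043580043584041580040b8001a900057f07057e87057a87057a07057987057587057507055687055607055207055187055107054d07054c87053207053187052d87052d07052c8705290705288705280705278705238705230705098705090705050705048705040705008705000704ff8704ff0704fb0704fa87048c07048207046387045f07045e87045a07045987043a0704390704300704168704160704158f041207041187041107041087040d87040d07040c87040c07040b8f040807040787038f87036707034307033e87033e07033987033907031a87031607031587031107031087029c07027407024b07022787022707022687022307022287022207021e07021d8701a90f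 = true := by
  decide +kernel

/-- the cells `d = 2 k - 4` of the row `c + 2`, `y ≥ 2 n + 4` -/
theorem out4 (hf : Rule f) {k c n M : ℕ} (H : WM f k c n M) {s : ℕ} (hs : 2 * n ≤ s) (hse : s % 2 = 0)
    (h0 : f (6 * k + 1) (c + 2) (s + 2 * k) (s + 4)) : False := by
  have hM := H.hM
  have hM' := H.hM'
  have hk := H.T.hk
  have hc := H.T.hc
  have h4' := H.T.h4
  have hb := H.T.hb
  have hN := H.T.hN2
  obtain ⟨a0, ha0⟩ : ∃ z, z = 6 * k + 0 := ⟨_, rfl⟩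
  obtain ⟨b0, hb0⟩ : ∃ z, z + 2 = c := ⟨c - 2, by omega⟩
  obtain ⟨x0, hx0⟩ : ∃ z, z + 4 = s + 2 * k := ⟨s + 2 * k - 4, by omega⟩
  obtain ⟨y0, hy0⟩ : ∃ z, z = s + 0 := ⟨_, rfl⟩
  refine check_sound hf (a0 := a0) (b0 := b0) (x0 := x0) (y0 := y0) out4_chk
    ⟨fun h => absurd h (by decide), fun h => absurd h (by decide), fun h => absurd h (by decide), by omega, by omega,
      by omega, by omega⟩ ?_ ?_
  · intro j m p q hr h
    clear hr
    replace h := of_decide_eq_true h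
    rcases h with ⟨rfl, rfl, rfl, rfl⟩ | ⟨rfl, rfl, rfl, rfl⟩ | ⟨rfl, rfl, rfl, rfl⟩
    · exact mv h0 (by omega) (by omega) (by omega) (by omega)
    · exact (WrapC.v1 H.c4 (by omega) (by omega) (by omega) (by omega) (by omega) (by omega) (by omega) (by omega)).mpr (by omega)
    · exact (WrapC.v1 H.c4 (by omega) (by omega) (by omega) (by omega) (by omega) (by omega) (by omega) (by omega)).mpr (by omega)
  · intro j m p q hr h
    clear hr
    replace h := of_decide_eq_true h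
    rcases h with h | h | h | h | h | h | h
    · rcases h with ⟨rfl, rfl, rfl, rfl⟩ | ⟨rfl, rfl, rfl, rfl⟩ | ⟨rfl, rfl, rfl, rfl⟩ | ⟨rfl, rfl, rfl, rfl⟩ | ⟨rfl, rfl, rfl, rfl⟩ | ⟨rfl, rfl, rfl, rfl⟩ | ⟨rfl, rfl, rfl, rfl⟩ | ⟨rfl, rfl, rfl, rfl⟩ | ⟨rfl, rfl, rfl, rfl⟩ | ⟨rfl, rfl, rfl, rfl⟩ | ⟨rfl, rfl, rfl, rfl⟩ | ⟨rfl, rfl, rfl, rfl⟩
      · exact mt (WrapC.v3 H.c2 (by omega) (by omega) (by omega) (by omega) (by omega) (by omega) (by omega) (by omega)).mp (by omega)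
      · exact mt (WrapC.v3 H.c2 (by omega) (by omega) (by omega) (by omega) (by omega) (by omega) (by omega) (by omega)).mp (by omega)
      · exact mt (WrapC.v3 H.c2 (by omega) (by omega) (by omega) (by omega) (by omega) (by omega) (by omega) (by omega)).mp (by omega)
      · exact mt (WrapC.v3 H.c2 (by omega) (by omega) (by omega) (by omega) (by omega) (by omega) (by omega) (by omega)).mp (by omega)
      · exact mt (WrapC.v3 H.c2 (by omega) (by omega) (by omega) (by omega) (by omega) (by omega) (by omega) (by omega)).mp (by omega)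
      · exact mt (WrapC.v3 H.c2 (by omega) (by omega) (by omega) (by omega) (by omega) (by omega) (by omega) (by omega)).mp (by omega)
      · exact mt (WrapC.v3 H.c2 (by omega) (by omega) (by omega) (by omega) (by omega) (by omega) (by omega) (by omega)).mp (by omega)
      · exact mt (WrapC.v3 H.c2 (by omega) (by omega) (by omega) (by omega) (by omega) (by omega) (by omega) (by omega)).mp (by omega)
      · exact fun t => NHT.r1 hf H.T (p := 0) (j := 3) (by omega) (by omega) (by omega) (by omega) (by omega) (by omega) (mv t rfl (by omega) rfl rfl)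
      · exact NHT.p0 hf H.T (j := 2) (by omega) (by omega) (by omega) (by omega) (by omega) (by omega)
      · exact NHT.p0i hf H.T (j := 3) (by omega) (by omega) (by omega) (by omega) (by omega) (by omega)
      · exact NHT.p0 hf H.T (j := 2) (by omega) (by omega) (by omega) (by omega) (by omega) (by omega)
    · rcases h with ⟨rfl, rfl, rfl, rfl⟩ | ⟨rfl, rfl, rfl, rfl⟩ | ⟨rfl, rfl, rfl, rfl⟩ | ⟨rfl, rfl, rfl, rfl⟩ | ⟨rfl, rfl, rfl, rfl⟩ | ⟨rfl, rfl, rfl, rfl⟩ | ⟨rfl, rfl, rfl, rfl⟩ | ⟨rfl, rfl, rfl, rfl⟩ | ⟨rfl, rfl, rfl, rfl⟩ | ⟨rfl, rfl, rfl, rfl⟩ | ⟨rfl, rfl, rfl, rfl⟩ | ⟨rfl, rfl, rfl, rfl⟩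
      · exact NHT.p0i hf H.T (j := 3) (by omega) (by omega) (by omega) (by omega) (by omega) (by omega)
      · exact NHT.p0 hf H.T (j := 2) (by omega) (by omega) (by omega) (by omega) (by omega) (by omega)
      · exact NHT.p0 hf H.T (j := 2) (by omega) (by omega) (by omega) (by omega) (by omega) (by omega)
      · exact NHT.p0i hf H.T (j := 3) (by omega) (by omega) (by omega) (by omega) (by omega) (by omega)
      · exact NHT.p0 hf H.T (j := 2) (by omega) (by omega) (by omega) (by omega) (by omega) (by omega)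
      · exact NHT.p0i hf H.T (j := 3) (by omega) (by omega) (by omega) (by omega) (by omega) (by omega)
      · exact NHT.p0 hf H.T (j := 2) (by omega) (by omega) (by omega) (by omega) (by omega) (by omega)
      · exact NHT.p2 hf H.T (j := 3) (by omega) (by omega) (by omega) (by omega) (by omega) (by omega)
      · exact NHT.p2 hf H.T (j := 3) (by omega) (by omega) (by omega) (by omega) (by omega) (by omega)
      · exact mt (WrapC.v1 H.c4 (by omega) (by omega) (by omega) (by omega) (by omega) (by omega) (by omega) (by omega)).mp (by omega)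
      · exact mt (WrapC.v1 H.c4 (by omega) (by omega) (by omega) (by omega) (by omega) (by omega) (by omega) (by omega)).mp (by omega)
      · exact mt (WrapC.v1 H.c4 (by omega) (by omega) (by omega) (by omega) (by omega) (by omega) (by omega) (by omega)).mp (by omega)
    · rcases h with ⟨rfl, rfl, rfl, rfl⟩ | ⟨rfl, rfl, rfl, rfl⟩ | ⟨rfl, rfl, rfl, rfl⟩ | ⟨rfl, rfl, rfl, rfl⟩ | ⟨rfl, rfl, rfl, rfl⟩ | ⟨rfl, rfl, rfl, rfl⟩ | ⟨rfl, rfl, rfl, rfl⟩ | ⟨rfl, rfl, rfl, rfl⟩ | ⟨rfl, rfl, rfl, rfl⟩ | ⟨rfl, rfl, rfl, rfl⟩ | ⟨rfl, rfl, rfl, rfl⟩ | ⟨rfl, rfl, rfl, rfl⟩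
      · exact mt (WrapC.v1 H.c4 (by omega) (by omega) (by omega) (by omega) (by omega) (by omega) (by omega) (by omega)).mp (by omega)
      · exact mt (WrapC.v1 H.c4 (by omega) (by omega) (by omega) (by omega) (by omega) (by omega) (by omega) (by omega)).mp (by omega)
      · exact mt (WrapC.v1 H.c4 (by omega) (by omega) (by omega) (by omega) (by omega) (by omega) (by omega) (by omega)).mp (by omega)
      · exact mt (WrapC.v1 H.c4 (by omega) (by omega) (by omega) (by omega) (by omega) (by omega) (by omega) (by omega)).mp (by omega)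
      · exact mt (WrapC.v1 H.c4 (by omega) (by omega) (by omega) (by omega) (by omega) (by omega) (by omega) (by omega)).mp (by omega)
      · exact mt (WrapC.v1 H.c4 (by omega) (by omega) (by omega) (by omega) (by omega) (by omega) (by omega) (by omega)).mp (by omega)
      · exact mt (WrapC.v1 H.c4 (by omega) (by omega) (by omega) (by omega) (by omega) (by omega) (by omega) (by omega)).mp (by omega)
      · exact mt (WrapC.v1 H.c4 (by omega) (by omega) (by omega) (by omega) (by omega) (by omega) (by omega) (by omega)).mp (by omega)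
      · exact mt (WrapC.v1 H.c4 (by omega) (by omega) (by omega) (by omega) (by omega) (by omega) (by omega) (by omega)).mp (by omega)
      · exact fun t => NHT.r1 hf H.T (p := 0) (j := 2) (by omega) (by omega) (by omega) (by omega) (by omega) (by omega) (mv t rfl (by omega) rfl rfl)
      · exact fun t => NHT.r1 hf H.T (p := 0) (j := 2) (by omega) (by omega) (by omega) (by omega) (by omega) (by omega) (mv t rfl (by omega) rfl rfl)
      · exact fun t => NHT.r1 hf H.T (p := 0) (j := 2) (by omega) (by omega) (by omega) (by omega) (by omega) (by omega) (mv t rfl (by omega) rfl rfl)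
    · rcases h with ⟨rfl, rfl, rfl, rfl⟩ | ⟨rfl, rfl, rfl, rfl⟩ | ⟨rfl, rfl, rfl, rfl⟩ | ⟨rfl, rfl, rfl, rfl⟩ | ⟨rfl, rfl, rfl, rfl⟩ | ⟨rfl, rfl, rfl, rfl⟩ | ⟨rfl, rfl, rfl, rfl⟩ | ⟨rfl, rfl, rfl, rfl⟩ | ⟨rfl, rfl, rfl, rfl⟩ | ⟨rfl, rfl, rfl, rfl⟩ | ⟨rfl, rfl, rfl, rfl⟩ | ⟨rfl, rfl, rfl, rfl⟩
      · exact fun t => NHT.r1 hf H.T (p := 0) (j := 2) (by omega) (by omega) (by omega) (by omega) (by omega) (by omega) (mv t rfl (by omega) rfl rfl)
      · exact fun t => NHT.r1 hf H.T (p := 0) (j := 2) (by omega) (by omega) (by omega) (by omega) (by omega) (by omega) (mv t rfl (by omega) rfl rfl)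
      · exact NHU.p0i hf H.U (j := 2) (by omega) (by omega) (by omega) (by omega) (by omega) (by omega)
      · exact NHT.p0 hf H.T (j := 1) (by omega) (by omega) (by omega) (by omega) (by omega) (by omega)
      · exact NHU.p0 hf H.U (j := 1) (by omega) (by omega) (by omega) (by omega) (by omega) (by omega)
      · exact NHU.p0i hf H.U (j := 2) (by omega) (by omega) (by omega) (by omega) (by omega) (by omega)
      · exact NHT.p0 hf H.T (j := 1) (by omega) (by omega) (by omega) (by omega) (by omega) (by omega)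
      · exact NHT.p0i hf H.T (j := 2) (by omega) (by omega) (by omega) (by omega) (by omega) (by omega)
      · exact NHU.p0 hf H.U (j := 1) (by omega) (by omega) (by omega) (by omega) (by omega) (by omega)
      · exact NHU.p0i hf H.U (j := 2) (by omega) (by omega) (by omega) (by omega) (by omega) (by omega)
      · exact NHT.p0 hf H.T (j := 1) (by omega) (by omega) (by omega) (by omega) (by omega) (by omega)
      · exact NHU.p0 hf H.U (j := 1) (by omega) (by omega) (by omega) (by omega) (by omega) (by omega)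
    · rcases h with ⟨rfl, rfl, rfl, rfl⟩ | ⟨rfl, rfl, rfl, rfl⟩ | ⟨rfl, rfl, rfl, rfl⟩ | ⟨rfl, rfl, rfl, rfl⟩ | ⟨rfl, rfl, rfl, rfl⟩ | ⟨rfl, rfl, rfl, rfl⟩ | ⟨rfl, rfl, rfl, rfl⟩ | ⟨rfl, rfl, rfl, rfl⟩ | ⟨rfl, rfl, rfl, rfl⟩ | ⟨rfl, rfl, rfl, rfl⟩ | ⟨rfl, rfl, rfl, rfl⟩ | ⟨rfl, rfl, rfl, rfl⟩
      · exact NHU.p0i hf H.U (j := 2) (by omega) (by omega) (by omega) (by omega) (by omega) (by omega)
      · exact NHU.p0i hf H.U (j := 2) (by omega) (by omega) (by omega) (by omega) (by omega) (by omega)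
      · exact NHT.p0 hf H.T (j := 1) (by omega) (by omega) (by omega) (by omega) (by omega) (by omega)
      · exact NHU.p0 hf H.U (j := 1) (by omega) (by omega) (by omega) (by omega) (by omega) (by omega)
      · exact NHU.p0i hf H.U (j := 2) (by omega) (by omega) (by omega) (by omega) (by omega) (by omega)
      · exact NHT.p0 hf H.T (j := 1) (by omega) (by omega) (by omega) (by omega) (by omega) (by omega)
      · exact NHT.p0i hf H.T (j := 2) (by omega) (by omega) (by omega) (by omega) (by omega) (by omega)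
      · exact NHU.p0 hf H.U (j := 1) (by omega) (by omega) (by omega) (by omega) (by omega) (by omega)
      · exact NHU.p0i hf H.U (j := 2) (by omega) (by omega) (by omega) (by omega) (by omega) (by omega)
      · exact NHT.p0 hf H.T (j := 1) (by omega) (by omega) (by omega) (by omega) (by omega) (by omega)
      · exact NHU.p0 hf H.U (j := 1) (by omega) (by omega) (by omega) (by omega) (by omega) (by omega)
      · exact NHU.p0i hf H.U (j := 2) (by omega) (by omega) (by omega) (by omega) (by omega) (by omega)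
    · rcases h with ⟨rfl, rfl, rfl, rfl⟩ | ⟨rfl, rfl, rfl, rfl⟩ | ⟨rfl, rfl, rfl, rfl⟩ | ⟨rfl, rfl, rfl, rfl⟩ | ⟨rfl, rfl, rfl, rfl⟩ | ⟨rfl, rfl, rfl, rfl⟩ | ⟨rfl, rfl, rfl, rfl⟩ | ⟨rfl, rfl, rfl, rfl⟩ | ⟨rfl, rfl, rfl, rfl⟩ | ⟨rfl, rfl, rfl, rfl⟩ | ⟨rfl, rfl, rfl, rfl⟩ | ⟨rfl, rfl, rfl, rfl⟩
      · exact NHT.p2 hf H.T (j := 2) (by omega) (by omega) (by omega) (by omega) (by omega) (by omega)
      · exact NHT.p2 hf H.T (j := 2) (by omega) (by omega) (by omega) (by omega) (by omega) (by omega)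
      · exact NHU.p2 hf H.U (j := 2) (by omega) (by omega) (by omega) (by omega) (by omega) (by omega)
      · exact NHT.p2 hf H.T (j := 2) (by omega) (by omega) (by omega) (by omega) (by omega) (by omega)
      · exact NHT.p2 hf H.T (j := 2) (by omega) (by omega) (by omega) (by omega) (by omega) (by omega)
      · exact NHU.p2 hf H.U (j := 2) (by omega) (by omega) (by omega) (by omega) (by omega) (by omega)
      · exact NHT.p2 hf H.T (j := 2) (by omega) (by omega) (by omega) (by omega) (by omega) (by omega)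
      · exact NHT.p2 hf H.T (j := 2) (by omega) (by omega) (by omega) (by omega) (by omega) (by omega)
      · exact NHT.p2 hf H.T (j := 2) (by omega) (by omega) (by omega) (by omega) (by omega) (by omega)
      · exact NHU.p2 hf H.U (j := 2) (by omega) (by omega) (by omega) (by omega) (by omega) (by omega)
      · exact NHT.p2 hf H.T (j := 2) (by omega) (by omega) (by omega) (by omega) (by omega) (by omega)
      · exact NHT.p2 hf H.T (j := 2) (by omega) (by omega) (by omega) (by omega) (by omega) (by omega)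
    · rcases h with ⟨rfl, rfl, rfl, rfl⟩ | ⟨rfl, rfl, rfl, rfl⟩
      · exact NHU.p2 hf H.U (j := 2) (by omega) (by omega) (by omega) (by omega) (by omega) (by omega)
      · exact NHT.p2 hf H.T (j := 2) (by omega) (by omega) (by omega) (by omega) (by omega) (by omega)

theorem in2_chk : check 5 6 9 9 0 0 0 0 0
    (fun j n p q => decide ((j = 1 ∧ n = 4 ∧ p = 4 ∧ q = 4) ∨ (j = 2 ∧ n = 2 ∧ p = 4 ∧ q = 3) ∨ (j = 2 ∧ n = 2 ∧ p = 4 ∧ q = 5) ∨ (j = 4 ∧ n = 2 ∧ p = 5 ∧ q = 4) ∨ (j = 4 ∧ n = 3 ∧ p = 5 ∧ q = 3)))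
    (fun j n p q => decide (((j = 2 ∧ n = 3 ∧ p = 4 ∧ q = 4) ∨ (j = 2 ∧ n = 3 ∧ p = 4 ∧ q = 5) ∨ (j = 2 ∧ n = 3 ∧ p = 5 ∧ q = 4) ∨ (j = 2 ∧ n = 3 ∧ p = 5 ∧ q = 5) ∨ (j = 4 ∧ n = 3 ∧ p = 4 ∧ q = 4) ∨ (j = 4 ∧ n = 3 ∧ p = 4 ∧ q = 5) ∨ (j = 4 ∧ n = 3 ∧ p = 5 ∧ q = 4) ∨ (j = 4 ∧ n = 3 ∧ p = 5 ∧ q = 5) ∨ (j = 4 ∧ n = 3 ∧ p = 6 ∧ q = 4) ∨ (j = 4 ∧ n = 3 ∧ p = 6 ∧ q = 5) ∨ (j = 5 ∧ n = 3 ∧ p = 4 ∧ q = 4) ∨ (j = 5 ∧ n = 3 ∧ p = 4 ∧ q = 5)) ∨
      ((j = 5 ∧ n = 3 ∧ p = 5 ∧ q = 4) ∨ (j = 5 ∧ n = 3 ∧ p = 5 ∧ q = 5) ∨ (j = 5 ∧ n = 3 ∧ p = 6 ∧ q = 5) ∨ (j = 5 ∧ n = 4 ∧ p = 4 ∧ q = 4) ∨ (j = 5 ∧ n = 4 ∧ p = 4 ∧ q = 5) ∨ (j = 5 ∧ n = 4 ∧ p = 5 ∧ q = 4) ∨ (j = 5 ∧ n = 4 ∧ p = 5 ∧ q = 5) ∨ (j = 5 ∧ n = 4 ∧ p = 6 ∧ q = 5))))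
    41
    0x39403048700057a42039403048b80057ec2048280048284045d80043580024b80024a8001a900057e87057a07057987057587057507055607055187055107054d07054c87048b07048207046307046287045e87045e07045d8f045a0704598704358f029c07027887027807027407027387024b8f024a8f01a90f = true := by
  decide +kernel

/-- the cells `d = 2 k - 2` of the row `c`, `y ≥ 2 M + 6` -/
theorem in2 (hf : Rule f) {k c n M : ℕ} (H : WM f k c n M) {s : ℕ} (hs : 2 * M + 4 ≤ s) (hse : s % 2 = 0)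
    (h0 : f (6 * k + 1) (c) (s + 2 * k) (s + 2)) : False := by
  have hM := H.hM
  have hM' := H.hM'
  have hk := H.T.hk
  have hc := H.T.hc
  have h4' := H.T.h4
  have hb := H.T.hb
  have hN := H.T.hN2
  obtain ⟨a0, ha0⟩ : ∃ z, z = 6 * k + 0 := ⟨_, rfl⟩
  obtain ⟨b0, hb0⟩ : ∃ z, z + 4 = c := ⟨c - 4, by omega⟩
  obtain ⟨x0, hx0⟩ : ∃ z, z + 4 = s + 2 * k := ⟨s + 2 * k - 4, by omega⟩
  obtain ⟨y0, hy0⟩ : ∃ z, z + 2 = s := ⟨s - 2, by omega⟩
  refine check_sound hf (a0 := a0) (b0 := b0) (x0 := x0) (y0 := y0) in2_chk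
    ⟨fun h => absurd h (by decide), fun h => absurd h (by decide), fun h => absurd h (by decide), by omega, by omega,
      by omega, by omega⟩ ?_ ?_
  · intro j m p q hr h
    clear hr
    replace h := of_decide_eq_true h
    rcases h with ⟨rfl, rfl, rfl, rfl⟩ | ⟨rfl, rfl, rfl, rfl⟩ | ⟨rfl, rfl, rfl, rfl⟩ | ⟨rfl, rfl, rfl, rfl⟩ | ⟨rfl, rfl, rfl, rfl⟩
    · exact mv h0 (by omega) (by omega) (by omega) (by omega)
    · exact (WrapC.v2 H.c2 (by omega) (by omega) (by omega) (by omega) (by omega) (by omega) (by omega)).mpr (by omega)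
    · exact (WrapC.v2 H.c2 (by omega) (by omega) (by omega) (by omega) (by omega) (by omega) (by omega)).mpr (by omega)
    · exact (WrapC.v0 H.c4 (by omega) (by omega) (by omega) (by omega) (by omega) (by omega) (by omega)).mpr (by omega)
    · exact (WrapC.v1 H.c4 (by omega) (by omega) (by omega) (by omega) (by omega) (by omega) (by omega) (by omega)).mpr (by omega)
  · intro j m p q hr h
    clear hr
    replace h := of_decide_eq_true h
    rcases h with h | h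
    · rcases h with ⟨rfl, rfl, rfl, rfl⟩ | ⟨rfl, rfl, rfl, rfl⟩ | ⟨rfl, rfl, rfl, rfl⟩ | ⟨rfl, rfl, rfl, rfl⟩ | ⟨rfl, rfl, rfl, rfl⟩ | ⟨rfl, rfl, rfl, rfl⟩ | ⟨rfl, rfl, rfl, rfl⟩ | ⟨rfl, rfl, rfl, rfl⟩ | ⟨rfl, rfl, rfl, rfl⟩ | ⟨rfl, rfl, rfl, rfl⟩ | ⟨rfl, rfl, rfl, rfl⟩ | ⟨rfl, rfl, rfl, rfl⟩
      · exact mt (WrapC.v3 H.c2 (by omega) (by omega) (by omega) (by omega) (by omega) (by omega) (by omega) (by omega)).mp (by omega)
      · exact mt (WrapC.v3 H.c2 (by omega) (by omega) (by omega) (by omega) (by omega) (by omega) (by omega) (by omega)).mp (by omega)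
      · exact mt (WrapC.v3 H.c2 (by omega) (by omega) (by omega) (by omega) (by omega) (by omega) (by omega) (by omega)).mp (by omega)
      · exact mt (WrapC.v3 H.c2 (by omega) (by omega) (by omega) (by omega) (by omega) (by omega) (by omega) (by omega)).mp (by omega)
      · exact mt (WrapC.v1 H.c4 (by omega) (by omega) (by omega) (by omega) (by omega) (by omega) (by omega) (by omega)).mp (by omega)
      · exact mt (WrapC.v1 H.c4 (by omega) (by omega) (by omega) (by omega) (by omega) (by omega) (by omega) (by omega)).mp (by omega)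
      · exact mt (WrapC.v1 H.c4 (by omega) (by omega) (by omega) (by omega) (by omega) (by omega) (by omega) (by omega)).mp (by omega)
      · exact mt (WrapC.v1 H.c4 (by omega) (by omega) (by omega) (by omega) (by omega) (by omega) (by omega) (by omega)).mp (by omega)
      · exact mt (WrapC.v1 H.c4 (by omega) (by omega) (by omega) (by omega) (by omega) (by omega) (by omega) (by omega)).mp (by omega)
      · exact mt (WrapC.v1 H.c4 (by omega) (by omega) (by omega) (by omega) (by omega) (by omega) (by omega) (by omega)).mp (by omega)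
      · exact NHU.p0i hf H.U (j := 2) (by omega) (by omega) (by omega) (by omega) (by omega) (by omega)
      · exact NHT.p0 hf H.T (j := 1) (by omega) (by omega) (by omega) (by omega) (by omega) (by omega)
    · rcases h with ⟨rfl, rfl, rfl, rfl⟩ | ⟨rfl, rfl, rfl, rfl⟩ | ⟨rfl, rfl, rfl, rfl⟩ | ⟨rfl, rfl, rfl, rfl⟩ | ⟨rfl, rfl, rfl, rfl⟩ | ⟨rfl, rfl, rfl, rfl⟩ | ⟨rfl, rfl, rfl, rfl⟩ | ⟨rfl, rfl, rfl, rfl⟩
      · exact NHU.p0 hf H.U (j := 1) (by omega) (by omega) (by omega) (by omega) (by omega) (by omega)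
      · exact NHU.p0i hf H.U (j := 2) (by omega) (by omega) (by omega) (by omega) (by omega) (by omega)
      · exact NHU.p0 hf H.U (j := 1) (by omega) (by omega) (by omega) (by omega) (by omega) (by omega)
      · exact NHU.p0i hf H.U (j := 2) (by omega) (by omega) (by omega) (by omega) (by omega) (by omega)
      · exact NHT.p0 hf H.T (j := 1) (by omega) (by omega) (by omega) (by omega) (by omega) (by omega)
      · exact NHU.p0 hf H.U (j := 1) (by omega) (by omega) (by omega) (by omega) (by omega) (by omega)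
      · exact NHU.p0i hf H.U (j := 2) (by omega) (by omega) (by omega) (by omega) (by omega) (by omega)
      · exact NHU.p0 hf H.U (j := 1) (by omega) (by omega) (by omega) (by omega) (by omega) (by omega)

theorem in0_chk : check 7 7 11 11 1 1 1 1 0
    (fun j n p q => decide ((j = 1 ∧ n = 4 ∧ p = 4 ∧ q = 4) ∨ (j = 2 ∧ n = 5 ∧ p = 5 ∧ q = 5)))
    (fun j n p q => decide (False))
    4
    0x49b8502b180049b8f02b18f = true := by
  decide +kernel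

/-- the cells `d = 2 k` of the row `c`, `y ≥ 2 M + 4` -/
theorem in0 (hf : Rule f) {k c n M : ℕ} (H : WM f k c n M) {s : ℕ} (hs : 2 * M + 4 ≤ s) (hse : s % 2 = 0)
    (h0 : f (6 * k + 1) (c) (s + 2 * k) (s)) : False := by
  have hM := H.hM
  have hM' := H.hM'
  have hk := H.T.hk
  have hc := H.T.hc
  have h4' := H.T.h4
  have hb := H.T.hb
  have hN := H.T.hN2
  obtain ⟨a0, ha0⟩ : ∃ z, z + 1 = 6 * k := ⟨6 * k - 1, by omega⟩
  obtain ⟨b0, hb0⟩ : ∃ z, z + 5 = c := ⟨c - 5, by omega⟩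
  obtain ⟨x0, hx0⟩ : ∃ z, z + 5 = s + 2 * k := ⟨s + 2 * k - 5, by omega⟩
  obtain ⟨y0, hy0⟩ : ∃ z, z + 5 = s := ⟨s - 5, by omega⟩
  refine check_sound hf (a0 := a0) (b0 := b0) (x0 := x0) (y0 := y0) in0_chk
    ⟨fun h => absurd h (by decide), fun h => absurd h (by decide), fun h => absurd h (by decide), by omega, by omega,
      by omega, by omega⟩ ?_ ?_
  · intro j m p q hr h
    clear hr
    replace h := of_decide_eq_true h
    rcases h with ⟨rfl, rfl, rfl, rfl⟩ | ⟨rfl, rfl, rfl, rfl⟩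
    · exact (WrapC.v1 H.c0n (by omega) (by omega) (by omega) (by omega) (by omega) (by omega) (by omega) (by omega)).mpr (by omega)
    · exact mv h0 (by omega) (by omega) (by omega) (by omega)
  · intro j m p q hr h
    clear hr
    replace h := of_decide_eq_true h
    exact h.elim

theorem inm2_chk : check 7 7 11 11 1 1 1 1 0
    (fun j n p q => decide ((j = 1 ∧ n = 1 ∧ p = 2 ∧ q = 3) ∨ (j = 1 ∧ n = 1 ∧ p = 3 ∧ q = 2) ∨ (j = 1 ∧ n = 3 ∧ p = 4 ∧ q = 3) ∨ (j = 2 ∧ n = 5 ∧ p = 5 ∧ q = 5) ∨ (j = 3 ∧ n = 2 ∧ p = 5 ∧ q = 5) ∨ (j = 3 ∧ n = 3 ∧ p = 4 ∧ q = 5)))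
    (fun j n p q => decide ((j = 1 ∧ n = 1 ∧ p = 3 ∧ q = 4) ∨ (j = 1 ∧ n = 1 ∧ p = 4 ∧ q = 3) ∨ (j = 1 ∧ n = 1 ∧ p = 4 ∧ q = 4) ∨ (j = 1 ∧ n = 3 ∧ p = 4 ∧ q = 4) ∨ (j = 1 ∧ n = 3 ∧ p = 4 ∧ q = 5) ∨ (j = 1 ∧ n = 3 ∧ p = 5 ∧ q = 4)))
    24
    0x42285023880045f2203e04205c480058d80049b8002748001f58001f08005c48f058d8f049b8f027b07027a8702758702750702748f01fc0701fb8701f68701f60701f58f01f08f = true := by
  decide +kernel

/-- the cells `d = 2 k + 2` of the row `c`, `y ≥ 2 M` -/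
theorem inm2 (hf : Rule f) {k c n M : ℕ} (H : WM f k c n M) {s : ℕ} (hs : 2 * M + 2 ≤ s) (hse : s % 2 = 0)
    (h0 : f (6 * k + 1) (c) (s + 2 * k) (s - 2)) : False := by
  have hM := H.hM
  have hM' := H.hM'
  have hk := H.T.hk
  have hc := H.T.hc
  have h4' := H.T.h4
  have hb := H.T.hb
  have hN := H.T.hN2
  obtain ⟨a0, ha0⟩ : ∃ z, z + 1 = 6 * k := ⟨6 * k - 1, by omega⟩
  obtain ⟨b0, hb0⟩ : ∃ z, z + 5 = c := ⟨c - 5, by omega⟩
  obtain ⟨x0, hx0⟩ : ∃ z, z + 5 = s + 2 * k := ⟨s + 2 * k - 5, by omega⟩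
  obtain ⟨y0, hy0⟩ : ∃ z, z + 7 = s := ⟨s - 7, by omega⟩
  refine check_sound hf (a0 := a0) (b0 := b0) (x0 := x0) (y0 := y0) inm2_chk
    ⟨fun h => absurd h (by decide), fun h => absurd h (by decide), fun h => absurd h (by decide), by omega, by omega,
      by omega, by omega⟩ ?_ ?_
  · intro j m p q hr h
    clear hr
    replace h := of_decide_eq_true h
    rcases h with ⟨rfl, rfl, rfl, rfl⟩ | ⟨rfl, rfl, rfl, rfl⟩ | ⟨rfl, rfl, rfl, rfl⟩ | ⟨rfl, rfl, rfl, rfl⟩ | ⟨rfl, rfl, rfl, rfl⟩ | ⟨rfl, rfl, rfl, rfl⟩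
    · exact (WrapC.v2 H.c0 (by omega) (by omega) (by omega) (by omega) (by omega) (by omega) (by omega)).mpr (by omega)
    · exact (WrapC.v2 H.c0 (by omega) (by omega) (by omega) (by omega) (by omega) (by omega) (by omega)).mpr (by omega)
    · exact (WrapC.v0 H.c0n (by omega) (by omega) (by omega) (by omega) (by omega) (by omega) (by omega)).mpr (by omega)
    · exact mv h0 (by omega) (by omega) (by omega) (by omega)
    · exact (WrapC.v1 H.c2 (by omega) (by omega) (by omega) (by omega) (by omega) (by omega) (by omega) (by omega)).mpr (by omega)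
    · exact (WrapC.v2 H.c2 (by omega) (by omega) (by omega) (by omega) (by omega) (by omega) (by omega)).mpr (by omega)
  · intro j m p q hr h
    clear hr
    replace h := of_decide_eq_true h
    rcases h with ⟨rfl, rfl, rfl, rfl⟩ | ⟨rfl, rfl, rfl, rfl⟩ | ⟨rfl, rfl, rfl, rfl⟩ | ⟨rfl, rfl, rfl, rfl⟩ | ⟨rfl, rfl, rfl, rfl⟩ | ⟨rfl, rfl, rfl, rfl⟩
    · exact mt (WrapC.v2 H.c0 (by omega) (by omega) (by omega) (by omega) (by omega) (by omega) (by omega)).mp (by omega)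
    · exact mt (WrapC.v2 H.c0 (by omega) (by omega) (by omega) (by omega) (by omega) (by omega) (by omega)).mp (by omega)
    · exact mt (WrapC.v2 H.c0 (by omega) (by omega) (by omega) (by omega) (by omega) (by omega) (by omega)).mp (by omega)
    · exact mt (WrapC.v0 H.c0n (by omega) (by omega) (by omega) (by omega) (by omega) (by omega) (by omega)).mp (by omega)
    · exact mt (WrapC.v0 H.c0n (by omega) (by omega) (by omega) (by omega) (by omega) (by omega) (by omega)).mp (by omega)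
    · exact mt (WrapC.v0 H.c0n (by omega) (by omega) (by omega) (by omega) (by omega) (by omega) (by omega)).mp (by omega)

end Pool.Agent.SNT.P1W
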