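import Pool.Agent.SNT.WrapC

/-! The cells at and behind the wall of the layer `6 k + 1` in the second row behind a cycle of the layer `6 k`
(helper73): a one of the layer `6 k` in the second row of its cycle makes the cell of `6 k + 1` three rows later on the
same diagonal empty. This is `OUT0`, `d = 2 k`, for all leads. -/

set_option autoImplicit false

namespace Pool.Agent.SNT.P1Wall

open Pool.Agent.SNT

variable {f : ℕ → ℕ → ℕ → ℕ → Prop}

/-- A one of an even layer empties the cell of the next layer three rows and one step later. -/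
theorem skip3 (hf : Rule f) {M R x y : ℕ} (hM : M % 2 = 0) (h0 : f M R x y) :
    ¬ f (M + 1) (R + 3) (x + 1) (y + 1) := by
  intro h1
  have k1 := ((hf _ _ _ _).1 h1).2
  have h2 : f (M + 1) (R + 2) (x + 1) (y + 1) := by
    rw [hf]
    refine ⟨fun h => by omega, fun p q r s hp hq hr hs hsum ha hb hx hy h3 => ?_⟩
    rcases Nat.lt_or_ge q 1 with hq0 | hq1
    · refine k1 p 1 r s hp le_rfl hr hs (by omega) ha (by omega) hx hy ?_
      have e : R + 3 - 1 = R + 2 - q := by omega
      rw [e]
      exact h3
    · have hq' : q = 1 := by omega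
      subst hq'
      have k3 := ((hf _ _ _ _).1 h3).2 (1 - p) 1 (1 - r) (1 - s) (by omega) le_rfl (by omega) (by omega)
        (by omega) (by omega) (by omega) (by omega) (by omega)
      apply k3
      have e1 : M + 1 - p - (1 - p) = M := by omega
      have e2 : R + 2 - 1 - 1 = R := by omega
      have e3 : x + 1 - r - (1 - r) = x := by omega
      have e4 : y + 1 - s - (1 - s) = y := by omega
      rw [e1, e2, e3, e4]
      exact h0
  exact k1 0 1 0 0 (by omega) le_rfl (by omega) (by omega) (by omega) (by omega) (by omega)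
    (by omega) (by omega) h2

/-- **The wall cells of `6 k + 1` in the row `B + 4`** (`B` = the IN row of a cycle of `6 k` with lead `K`):
`d ≥ 2 k`, `x + y ≡ 2 k (mod 4)`, `x > K + 3`. -/
theorem wall (hf : Rule f) {k B K x y : ℕ} (C : Cyc f (6 * k) B K) (hk : 1 ≤ k)
    (hB : (6 * k + B) % 4 = 2) (hd : y + 2 * k ≤ x) (hm : (x + y) % 4 = (2 * k) % 4) (hy : 1 ≤ y)
    (hx : K + 3 < x) (hn : x + 6 * k + 12 ≤ B + y) : ¬ f (6 * k + 1) (B + 4) x y := by
  obtain ⟨x', rfl⟩ : ∃ x', x = x' + 1 := ⟨x - 1, by omega⟩
  obtain ⟨y', rfl⟩ : ∃ y', y = y' + 1 := ⟨y - 1, by omega⟩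
  have h6 : 6 * k / 6 = k := by omega
  have h0 : f (6 * k) (B + 1) x' y' := by
    refine (WrapC.v1 C rfl (by omega) (by omega) hB rfl (by omega) (by omega) (Or.inl (by omega))).2
      (Or.inl ?_)
    rw [h6]
    omega
  exact skip3 hf (by omega) h0

end Pool.Agent.SNT.P1Wall
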