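import Pool.Agent.SNT.WrapC
import Pool.Agent.SNT.PfDef

/-! The cells `d = 2 k + 2` of the layer `6 k + 1` in the second row behind a cycle of the layer `6 k`, right of its front
(helper13): `o4` of `D1.PZ`. -/

set_option autoImplicit false

namespace Pool.Agent.SNT.P1Wall4

open Pool.Agent.SNT

variable {f : ℕ → ℕ → ℕ → ℕ → Prop}

/-- **The cells `d = 2 k + 2`** of `6 k + 1` in the row `B + 4` (`B` = the IN row of a cycle of `6 k` with lead `K`), `x`, `y`
even, `x > K + 2 k + 3`: the one of `6 k` at `(B + 3, x - 1, y - 1)` is a parent. -/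
theorem wall4 (hf : Rule f) {k B K x y : ℕ} (C : Cyc f (6 * k) B K) (hk : 2 ≤ k)
    (hB : (6 * k + B) % 4 = 2) (hd : x = y + 2 * k + 2) (hx2 : x % 2 = 0) (hy : 1 ≤ y)
    (hx : K + 2 * k + 3 < x) (hn : x + 6 * k + 12 ≤ B + y) : ¬ f (6 * k + 1) (B + 4) x y := by
  obtain ⟨x', rfl⟩ : ∃ x', x = x' + 1 := ⟨x - 1, by omega⟩
  obtain ⟨y', rfl⟩ : ∃ y', y = y' + 1 := ⟨y - 1, by omega⟩
  have h6 : 6 * k / 6 = k := by omega
  have h0 : f (6 * k) (B + 3) x' y' := by
    refine (WrapC.v3 C rfl (by omega) (by omega) hB rfl (by omega) (by omega) (Or.inl ?_)).2 (Or.inl ?_)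
    · rw [h6]
      omega
    · rw [h6]
      omega
  intro h1
  exact ((hf _ _ _ _).1 h1).2 1 1 1 1 le_rfl le_rfl le_rfl le_rfl (by omega) (by omega) (by omega) (by omega) (by omega)
    (by simpa using h0)

/-- `o4`: the next cycle of `6 k` has the lead `M + k - 1`. -/
theorem o4 (hf : Rule f) {k b m M x y : ℕ} (hs : Side k b m)
    (C : Cyc f (6 * k) (b + 20) (2 * (M + k - 1) + 2)) (hM : 1 ≤ M) (hd : x = y + 2 * k + 2) (hx2 : x % 2 = 0)
    (hx : 2 * M + 4 * k + 4 ≤ x) : ¬ f (6 * k + 1) (b + 24) x y := by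
  obtain ⟨hk, hb, h4, hb4, hm⟩ := hs
  exact wall4 hf (B := b + 20) C (by omega) (by omega) hd hx2 (by omega) (by omega) (by omega)

end Pool.Agent.SNT.P1Wall4
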