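import Pool.Agent.SNT.P1D

set_option autoImplicit false

/-! `P_(6 k + 1)` next to the wall in the row `c - 4` (helper33). -/

namespace Pool.Agent.SNT.P1W

open Pool.Agent.SNT Pool.Agent.SNT.Loc Pool.Agent.SNT.LW

variable {f : ℕ → ℕ → ℕ → ℕ → Prop} {k c n : ℕ}

def p1T (j n p q : ℕ) : Bool :=
  decide (j = 2 ∧ n = 2 ∧ q ≤ p + 12 ∧ p > 2 ∧ (((p + q) % 2 = 1 ∧ p < q + 2 ∧ (p) % 2 = 1) ∨ (q + 1 ≤ p ∧ (p + q + 3) % 4 = 0))) ||
    (decide (j = 2 ∧ n = 3 ∧ q ≤ p + 12 ∧ ((p > 4) ∨ (p ≤ q + 2 ∧ p > 3)) ∧ (q + 2 ≤ p ∧ (p + q) % 4 = 0)) ||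
    (decide (j = 4 ∧ n = 1 ∧ q ≤ p + 12 ∧ ((p + 4 > 0) ∨ (p ≤ q + 2 ∧ p + 5 > 0)) ∧ (q + 2 ≤ p ∧ (p + q) % 4 = 0)) ||
    (decide (j = 4 ∧ n = 2 ∧ q ≤ p + 12 ∧ q + 2 ≤ p ∧ p + 2 > 0 ∧ (((p + q) % 2 = 1 ∧ p < q + 2 ∧ (p) % 2 = 0) ∨ (q + 1 ≤ p ∧ (p + q + 1) % 4 = 0))) ||
    (decide (j = 4 ∧ n = 4 ∧ q ≤ p + 12 ∧ p > 4 ∧ (((p + q) % 2 = 1 ∧ p < q + 2 ∧ (p) % 2 = 1) ∨ (q + 1 ≤ p ∧ (p + q + 3) % 4 = 0))) ||
    (decide (j = 6 ∧ n = 2 ∧ q ≤ p + 12 ∧ p + 2 > 0 ∧ (((p + q) % 2 = 1 ∧ p < q + 2 ∧ (p) % 2 = 1) ∨ (q + 1 ≤ p ∧ (p + q + 3) % 4 = 0))) ||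
    (decide (j = 6 ∧ n = 3 ∧ q ≤ p + 12 ∧ ((p > 0) ∨ (p ≤ q + 2 ∧ p + 1 > 0)) ∧ (q + 2 ≤ p ∧ (p + q) % 4 = 0)) ||
    (decide (j = 8 ∧ n = 4 ∧ q ≤ p + 12 ∧ p > 2 ∧ (((p + q) % 2 = 1 ∧ p < q + 4 ∧ (p) % 2 = 1) ∨ (q + 3 ≤ p ∧ (p + q + 3) % 4 = 2))) ||
    (decide (j = 3 ∧ n = 4 ∧ p = 2 ∧ q = 2)))))))))

def p1F (j n p q : ℕ) : Bool :=
  decide (j = 2 ∧ n = 2 ∧ q ≤ p + 12 ∧ p > 2 ∧ ¬ (((p + q) % 2 = 1 ∧ p < q + 2 ∧ (p) % 2 = 1) ∨ (q + 1 ≤ p ∧ (p + q + 3) % 4 = 0))) ||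
    (decide (j = 2 ∧ n = 3 ∧ q ≤ p + 12 ∧ ((p > 4) ∨ (p ≤ q + 2 ∧ p > 3)) ∧ ¬ (q + 2 ≤ p ∧ (p + q) % 4 = 0)) ||
    (decide (j = 4 ∧ n = 1 ∧ q ≤ p + 12 ∧ ((p + 4 > 0) ∨ (p ≤ q + 2 ∧ p + 5 > 0)) ∧ ¬ (q + 2 ≤ p ∧ (p + q) % 4 = 0)) ||
    (decide (j = 4 ∧ n = 2 ∧ q ≤ p + 12 ∧ q + 2 ≤ p ∧ p + 2 > 0 ∧ ¬ (((p + q) % 2 = 1 ∧ p < q + 2 ∧ (p) % 2 = 0) ∨ (q + 1 ≤ p ∧ (p + q + 1) % 4 = 0))) ||
    (decide (j = 4 ∧ n = 4 ∧ q ≤ p + 12 ∧ p > 4 ∧ ¬ (((p + q) % 2 = 1 ∧ p < q + 2 ∧ (p) % 2 = 1) ∨ (q + 1 ≤ p ∧ (p + q + 3) % 4 = 0))) ||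
    (decide (j = 6 ∧ n = 3 ∧ q ≤ p + 12 ∧ ((p > 0) ∨ (p ≤ q + 2 ∧ p + 1 > 0)) ∧ ¬ (q + 2 ≤ p ∧ (p + q) % 4 = 0)) ||
    (decide (j = 1 ∧ q ≤ p + 12)))))))

theorem p1_chk : check 8 6 7 6 0 0 0 0 0 p1T p1F
    116
    0x2a703023e0002d4fa035580034f8003d3c203d0d202a703023e0002d4fa035280035284024400025cba015a0301db0001db0401600301de0001de0402298002aad2022f8002483a01368301b48001b484045500044f00044e00033c80032900032800032200025d00023200021d8002168001d500014b8001370001328001310001300004550f044f0f044e0f035507034f07034087034007033d87033d07033c8f033a87033a0703290f03280f03220f025d0f025c87025c0702590702530702328702320f023007022907021d8f02178702170702168f02148702140702138702110702108701d50f015d07015707014b8f014b07014a8701480701370f01368701360701338701330701328f01310f01300f00e20700e18700df0700de8700dc0700db8700d90700d88700cd0700cc8700ca0700c98700c70700c68700c40700c38700b88700b80700b58700b50700a38700a30700a08700a007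 = true := by
  decide +kernel

theorem p1 (hf : Rule f) (H : P1H f k c n) :
    ¬ f (6 * k + 1) (c - 4) (2 * n - 6) (2 * n - 2 * k - 4) := by
  by_contra hg
  have hk := H.hk
  have hc := H.hc
  have h4 := H.h4
  have hb := H.hb
  have hN2 := H.hn
  obtain ⟨a0, ha0⟩ : ∃ a0, a0 + 2 = 6 * k := ⟨6 * k - 2, by omega⟩
  obtain ⟨b0, hb0⟩ : ∃ b0, b0 + 8 = c := ⟨c - 8, by omega⟩
  obtain ⟨x0, hx0⟩ : ∃ x0, x0 + 8 = 2 * n := ⟨2 * n - 8, by omega⟩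
  obtain ⟨y0, hy0⟩ : ∃ y0, y0 + 6 = 2 * n - 2 * k := ⟨2 * n - 2 * k - 6, by omega⟩
  refine check_sound hf (a0 := a0) (b0 := b0) (x0 := x0) (y0 := y0) p1_chk
    ⟨fun h => absurd h (by decide), fun h => absurd h (by decide), fun h => absurd h (by decide),
      by omega, by omega, by omega, by omega⟩ ?_ ?_
  · intro j m p q hr h
    obtain ⟨-, -, hn1, hn2, hp1, hp2, hq1, hq2⟩ := hr
    unfold p1T at h
    simp only [Bool.or_eq_true, decide_eq_true_eq] at h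
    rcases h with h | h | h | h | h | h | h | h | h
    · obtain ⟨⟨rfl, rfl, h1⟩, h2⟩ := h
      exact (WrapC.v0 H.c0 (by omega) (by omega) (by omega) (by omega) (by omega) (by omega) (by omega)).mpr (by omega)
    · obtain ⟨⟨rfl, rfl, h1⟩, h2⟩ := h
      exact (WrapC.v1 H.c0 (by omega) (by omega) (by omega) (by omega) (by omega) (by omega) (by omega) (by omega)).mpr (by omega)
    · obtain ⟨⟨rfl, rfl, h1⟩, h2⟩ := h
      exact (WrapC.v1 H.c2a (by omega) (by omega) (by omega) (by omega) (by omega) (by omega) (by omega) (by omega)).mpr (by omega)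
    · obtain ⟨⟨rfl, rfl, h1⟩, h2⟩ := h
      exact (WrapC.v2 H.c2a (by omega) (by omega) (by omega) (by omega) (by omega) (by omega) (by omega)).mpr (by omega)
    · obtain ⟨⟨rfl, rfl, h1⟩, h2⟩ := h
      exact (WrapC.v0 H.c2 (by omega) (by omega) (by omega) (by omega) (by omega) (by omega) (by omega)).mpr (by omega)
    · obtain ⟨⟨rfl, rfl, h1⟩, h2⟩ := h
      exact (WrapC.v0 H.c4 (by omega) (by omega) (by omega) (by omega) (by omega) (by omega) (by omega)).mpr (by omega)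
    · obtain ⟨⟨rfl, rfl, h1⟩, h2⟩ := h
      exact (WrapC.v1 H.c4 (by omega) (by omega) (by omega) (by omega) (by omega) (by omega) (by omega) (by omega)).mpr (by omega)
    · obtain ⟨⟨rfl, rfl, h1⟩, h2⟩ := h
      exact (WrapC.v0 H.c6 (by omega) (by omega) (by omega) (by omega) (by omega) (by omega) (by omega)).mpr (by omega)
    · obtain ⟨rfl, rfl, rfl, rfl⟩ := h
      exact mv hg (by omega) (by omega) (by omega) (by omega)
  · intro j m p q hr h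
    obtain ⟨-, -, hn1, hn2, hp1, hp2, hq1, hq2⟩ := hr
    unfold p1F at h
    simp only [Bool.or_eq_true, decide_eq_true_eq] at h
    rcases h with h | h | h | h | h | h | h
    · obtain ⟨⟨rfl, rfl, h1⟩, h2⟩ := h
      exact mt (WrapC.v0 H.c0 (by omega) (by omega) (by omega) (by omega) (by omega) (by omega) (by omega)).mp (by omega)
    · obtain ⟨⟨rfl, rfl, h1⟩, h2⟩ := h
      exact mt (WrapC.v1 H.c0 (by omega) (by omega) (by omega) (by omega) (by omega) (by omega) (by omega) (by omega)).mp (by omega)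
    · obtain ⟨⟨rfl, rfl, h1⟩, h2⟩ := h
      exact mt (WrapC.v1 H.c2a (by omega) (by omega) (by omega) (by omega) (by omega) (by omega) (by omega) (by omega)).mp (by omega)
    · obtain ⟨⟨rfl, rfl, h1⟩, h2⟩ := h
      exact mt (WrapC.v2 H.c2a (by omega) (by omega) (by omega) (by omega) (by omega) (by omega) (by omega)).mp (by omega)
    · obtain ⟨⟨rfl, rfl, h1⟩, h2⟩ := h
      exact mt (WrapC.v0 H.c2 (by omega) (by omega) (by omega) (by omega) (by omega) (by omega) (by omega)).mp (by omega)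
    · obtain ⟨⟨rfl, rfl, h1⟩, h2⟩ := h
      exact mt (WrapC.v1 H.c4 (by omega) (by omega) (by omega) (by omega) (by omega) (by omega) (by omega) (by omega)).mp (by omega)
    · obtain ⟨rfl, h1⟩ := h
      exact H.lw _ _ _ _ (by omega) (by omega) (by omega) (by omega) (by omega) (by omega)

/-- `P_(6 k + 1)` vanishes in the row `c - 4` at `x = 2 n - 6`, `x - y = 2 k - 2`. -/
theorem p1_m6 {b m e8 e10 : ℕ} (hf : Rule f) (hs : Side k b m) (S : Stack6 f k b m 0 0 0 0 e8 e10)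
    (hn : n = m + 9 + (k + 2) * 4)
    (d0 : Cyc f (6 * k) (b + 16) (2 * (n - 5) + 2))
    (d2 : Cyc f (6 * k + 2) (b + 18) (2 * (n - 3) + 2)) {x y : ℕ} (hx : x + 6 = 2 * n) (hy : y + 2 * k = x + 2) :
    ¬ f (6 * k + 1) (b + 18) x y := by
  have H : P1H f k (b + 22) n := P1H.of_stack hs S hn (Or.inl rfl) (Z8.cyc_mono d0 (by omega)) d2
  exact fun h => p1 hf H (mv h rfl (by omega) (by omega) (by omega))

/-- `P_(6 k + 1)` vanishes in the row `c - 4` at `x = 2 n - 8`, `x - y = 2 k - 2`. -/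
theorem p1_m8 {b m e8 e10 : ℕ} (hf : Rule f) (hs : Side k b m) (S : Stack6 f k b m 0 0 0 0 e8 e10)
    (hn : n = m + 9 + (k + 2) * 4)
    (d0 : Cyc f (6 * k) (b + 16) (2 * (n - 5) + 2))
    (d2 : Cyc f (6 * k + 2) (b + 18) (2 * (n - 4) + 2)) {x y : ℕ} (hx : x + 8 = 2 * n) (hy : y + 2 * k = x + 2) :
    ¬ f (6 * k + 1) (b + 18) x y := by
  have H : P1H f k (b + 22) (n - 1) := P1H.of_stack hs S hn (Or.inr (by omega))
    (NW.cyc_mv d0 rfl rfl (by omega)) (NW.cyc_mv d2 rfl rfl (by omega))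
  exact fun h => p1 hf H (mv h rfl (by omega) (by omega) (by omega))

end Pool.Agent.SNT.P1W
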