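import Pool.Agent.SNT.PB

set_option autoImplicit false
set_option synthInstance.maxSize 100000
set_option synthInstance.maxHeartbeats 4000000

/-! Near-diagonal windows (PBt). -/

namespace Pool.Agent.SNT.PB

open Pool.Agent.SNT Pool.Agent.SNT.Sig Pool.Agent.SNT.Loc Pool.Agent.SNT.LW Pool.Agent.SNT.NHZ Pool.Agent.SNT.DRun

variable {f : ℕ → ℕ → ℕ → ℕ → Prop}

theorem t1_chk : check 5 6 9 9 0 0 1 1 2
    (fun j n p q => decide ((j = 2 ∧ n = 1 ∧ q ≤ p ∧ (p = q ∧ p % 2 = 0))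
      ∨ (j = 4 ∧ n = 2 ∧ q ≤ p ∧ ((p + q) % 2 = 1 ∧ p % 2 = 1))
      ∨ (j = 4 ∧ n = 3 ∧ q ≤ p ∧ 3 ≤ q ∧ (p = q ∧ p % 2 = 0))
      ∨ (j = 4 ∧ n = 4 ∧ p = 6 ∧ q = 1)))
    (fun j n p q => decide ((j = 1 ∧ n = 2 ∧ q ≤ p)
      ∨ (j = 1 ∧ n = 3 ∧ q ≤ p)
      ∨ (j = 1 ∧ n = 4 ∧ q ≤ p)
      ∨ (j = 5 ∧ n = 4 ∧ q + 3 ≤ p)
      ∨ (j = 4 ∧ n = 4 ∧ p = 6 ∧ q = 5)))
    99
    0x274830367800487f202788303940003940403988e02a58303988003988403980e02a503039800039804029c83038f80038f84036b0e027803036b00036b04047e8005724a04758004638004598004318004298004288002228005820e058207057d8e057d87048b8e048b87048707047f0704898e04898f04638f04598f04358e04358f043d8e043d8f04348e04348f02a10702a007029807025007024f0702470702228f01b28701b20701b18701ae0701ad8701ad0701ad8e01ad8701a90701ad0e01ad0701a88e01a887018a0701898701890701858701850701848701898e01898701850e01850701808701800701890e01890701848e01848701800e018007015d07015c87015c0701610e016107015c8e015c8701580701578701608e016087015c0e015c07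 = true := by
  decide +kernel

theorem t1 (hf : Rule f) {k c n : ℕ} (H : PB f k c n)
    (h0 : f (6 * k + 2) (c) (2 * n + 3) (2 * n - 2))
    (z0 : ¬ f (6 * k + 2) (c) (2 * n + 3) (2 * n + 2)) : False := by
  have hk := H.T.hk
  have hc := H.T.hc
  have h4' := H.T.h4
  have hb := H.T.hb
  have hN := H.T.hN2
  obtain ⟨a0, ha0⟩ : ∃ z, z + 2 = 6 * k := ⟨6 * k - 2, by omega⟩
  obtain ⟨b0, hb0⟩ : ∃ z, z + 4 = c := ⟨c - 4, by omega⟩
  obtain ⟨x0, hx0⟩ : ∃ z, z + 3 = 2 * n := ⟨2 * n - 3, by omega⟩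
  refine check_sound hf (a0 := a0) (b0 := b0) (x0 := x0) (y0 := x0) t1_chk
    ⟨fun _ => rfl, fun h => absurd h (by decide), fun h => absurd h (by decide), by omega, by omega,
      by omega, by omega⟩ ?_ ?_
  · intro j m p q hr h
    obtain ⟨-, -, -, -, hp1, hp2, hq1, hq2⟩ := hr
    replace h := of_decide_eq_true h
    rcases h with h | h | h | h
    · obtain ⟨rfl, rfl, h⟩ := h
      exact (WrapC.v3 H.c0 (by omega) (by omega) (by omega) (by omega) (by omega) (by omega) (by omega) (by omega)).mpr (by omega)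
    · obtain ⟨rfl, rfl, h⟩ := h
      exact (WrapC.v2 H.c2 (by omega) (by omega) (by omega) (by omega) (by omega) (by omega) (by omega)).mpr (by omega)
    · obtain ⟨rfl, rfl, h⟩ := h
      exact (WrapC.v3 H.c2 (by omega) (by omega) (by omega) (by omega) (by omega) (by omega) (by omega) (by omega)).mpr (by omega)
    · obtain ⟨rfl, rfl, rfl, rfl⟩ := h
      exact mv h0 (by omega) (by omega) (by omega) (by omega)
  · intro j m p q hr h
    obtain ⟨-, -, -, -, hp1, hp2, hq1, hq2⟩ := hr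
    replace h := of_decide_eq_true h
    rcases h with h | h | h | h | h
    · obtain ⟨rfl, rfl, h⟩ := h
      exact H.lw _ _ _ _ (by omega) (by omega) (by omega) (by omega) (by omega) (by omega)
    · obtain ⟨rfl, rfl, h⟩ := h
      exact H.lw _ _ _ _ (by omega) (by omega) (by omega) (by omega) (by omega) (by omega)
    · obtain ⟨rfl, rfl, h⟩ := h
      exact H.lw _ _ _ _ (by omega) (by omega) (by omega) (by omega) (by omega) (by omega)
    · obtain ⟨rfl, rfl, h⟩ := h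
      exact NHT.p0 hf H.T (j := 2) (by omega) (by omega) (by omega) (by omega) (by omega) (by omega)
    · obtain ⟨rfl, rfl, rfl, rfl⟩ := h
      exact fun t => z0 (mv t (by omega) (by omega) (by omega) (by omega))

theorem t2_chk : check 8 7 11 11 1 1 1 1 2
    (fun j n p q => decide ((j = 1 ∧ n = 1 ∧ q ≤ p ∧ ((p + q) % 2 = 1 ∧ p % 2 = 1))
      ∨ (j = 1 ∧ n = 2 ∧ q ≤ p ∧ (p = q ∧ p % 2 = 0))
      ∨ (j = 3 ∧ n = 1 ∧ q ≤ p ∧ 6 ≤ p ∧ ((p + q) % 2 = 1 ∧ p % 2 = 0))
      ∨ (j = 7 ∧ n = 3 ∧ q ≤ p ∧ ((p + q) % 2 = 1 ∧ p % 2 = 1))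
      ∨ (j = 7 ∧ n = 4 ∧ q ≤ p ∧ (p = q ∧ p % 2 = 0))
      ∨ (j = 1 ∧ n = 3 ∧ p = 6 ∧ q = 1)))
    (fun j n p q => decide ((j = 2 ∧ n = 3 ∧ q + 3 ≤ p)
      ∨ (j = 4 ∧ n = 3 ∧ q + 2 ≤ p)
      ∨ (j = 6 ∧ n = 4 ∧ 5 ≤ q ∧ q + 2 ≤ p)
      ∨ (j = 8 ∧ n = 5 ∧ 5 ≤ q ∧ q + 1 ≤ p)
      ∨ (j = 1 ∧ n = 3 ∧ p = 6 ∧ q = 5)))
    96
    0xb038307720007781a0b09030777800777840b09830778000778040b0e0e0e9a030b0e000b0e0409248e077d030924800924840b038e0e95030b03800b0384042800042300042801042301027f800270800cb6800caa800c73800c6f800c6e80055680055180042cd2027e800418ca026580023880020b8002018002008001fc8001f28001f1800e9a070e99870e9a0e0e9a070e998e0e99870ced070cb68f0caa8f0c738f0c7e8e0c7e8f0c738e0c738f0b080e0b0807092507091a07077c87077c8e077c8705d50705cb0705568f05568e05568f042c87042707042c8e042c8704270e042707028507028087027e8f02808e028087027b07027107027e8e027e8f02388f020b8f02018f02008f02018e02018f020b8e020b8f02008e02008f = true := by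
  decide +kernel

theorem t2 (hf : Rule f) {k c n : ℕ} (H : PB f k c n)
    (h0 : f (6 * k + 2) (c) (2 * n + 5) (2 * n))
    (z0 : ¬ f (6 * k + 2) (c) (2 * n + 5) (2 * n + 4)) : False := by
  have hk := H.T.hk
  have hc := H.T.hc
  have h4' := H.T.h4
  have hb := H.T.hb
  have hN := H.T.hN2
  obtain ⟨a0, ha0⟩ : ∃ z, z = 6 * k + 1 := ⟨_, rfl⟩
  obtain ⟨b0, hb0⟩ : ∃ z, z + 3 = c := ⟨c - 3, by omega⟩
  obtain ⟨x0, hx0⟩ : ∃ z, z + 1 = 2 * n := ⟨2 * n - 1, by omega⟩
  refine check_sound hf (a0 := a0) (b0 := b0) (x0 := x0) (y0 := x0) t2_chk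
    ⟨fun _ => rfl, fun h => absurd h (by decide), fun h => absurd h (by decide), by omega, by omega,
      by omega, by omega⟩ ?_ ?_
  · intro j m p q hr h
    obtain ⟨-, -, -, -, hp1, hp2, hq1, hq2⟩ := hr
    replace h := of_decide_eq_true h
    rcases h with h | h | h | h | h | h
    · obtain ⟨rfl, rfl, h⟩ := h
      exact (WrapC.v2 H.c2 (by omega) (by omega) (by omega) (by omega) (by omega) (by omega) (by omega)).mpr (by omega)
    · obtain ⟨rfl, rfl, h⟩ := h
      exact (WrapC.v3 H.c2 (by omega) (by omega) (by omega) (by omega) (by omega) (by omega) (by omega) (by omega)).mpr (by omega)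
    · obtain ⟨rfl, rfl, h⟩ := h
      exact (WrapC.v0 H.c4 (by omega) (by omega) (by omega) (by omega) (by omega) (by omega) (by omega)).mpr (by omega)
    · obtain ⟨rfl, rfl, h⟩ := h
      exact (NW.w2v H.c8 (by omega) (by omega) (by omega) (by omega) (by omega) (by omega) (by omega)).mpr (by omega)
    · obtain ⟨rfl, rfl, h⟩ := h
      exact (NW.w3v H.c8 (by omega) (by omega) (by omega) (by omega) (by omega) (by omega) (by omega) (by omega)).mpr (by omega)
    · obtain ⟨rfl, rfl, rfl, rfl⟩ := h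
      exact mv h0 (by omega) (by omega) (by omega) (by omega)
  · intro j m p q hr h
    obtain ⟨-, -, -, -, hp1, hp2, hq1, hq2⟩ := hr
    replace h := of_decide_eq_true h
    rcases h with h | h | h | h | h
    · obtain ⟨rfl, rfl, h⟩ := h
      exact NHT.p0 hf H.T (j := 2) (by omega) (by omega) (by omega) (by omega) (by omega) (by omega)
    · obtain ⟨rfl, rfl, h⟩ := h
      exact NHT.p0 hf H.T (j := 1) (by omega) (by omega) (by omega) (by omega) (by omega) (by omega)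
    · obtain ⟨rfl, rfl, h⟩ := h
      exact NHT.p2 hf H.T (j := 1) (by omega) (by omega) (by omega) (by omega) (by omega) (by omega)
    · obtain ⟨rfl, rfl, h⟩ := h
      exact NHT.p2 hf H.T (j := 0) (by omega) (by omega) (by omega) (by omega) (by omega) (by omega)
    · obtain ⟨rfl, rfl, rfl, rfl⟩ := h
      exact fun t => z0 (mv t (by omega) (by omega) (by omega) (by omega))

theorem t3_chk : check 3 5 9 9 1 1 1 1 2
    (fun j n p q => decide ((j = 1 ∧ n = 1 ∧ q ≤ p ∧ ((p + q) % 2 = 1 ∧ p % 2 = 1))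
      ∨ (j = 3 ∧ n = 3 ∧ q ≤ p ∧ 5 ≤ q ∧ ((p + q) % 2 = 1 ∧ p % 2 = 1))
      ∨ (j = 1 ∧ n = 3 ∧ p = 6 ∧ q = 1)))
    (fun j n p q => decide ((j = 2 ∧ n = 3 ∧ q + 3 ≤ p)
      ∨ (j = 1 ∧ n = 3 ∧ p = 6 ∧ q = 5)))
    29
    0x2288301548002f780021fca014b8001088001078000ff8000fe8002fb8e02fb8f022f8e022f87022b0e022b07015e0701618e016187015507015f8e015f8f01148e01148f010b8e010b8f01138e01138f010a8e010a8f = true := by
  decide +kernel

theorem t3 (hf : Rule f) {k c n : ℕ} (H : PB f k c n)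
    (h0 : f (6 * k + 2) (c) (2 * n + 7) (2 * n + 2))
    (z0 : ¬ f (6 * k + 2) (c) (2 * n + 7) (2 * n + 6)) : False := by
  have hk := H.T.hk
  have hc := H.T.hc
  have h4' := H.T.h4
  have hb := H.T.hb
  have hN := H.T.hN2
  obtain ⟨a0, ha0⟩ : ∃ z, z = 6 * k + 1 := ⟨_, rfl⟩
  obtain ⟨b0, hb0⟩ : ∃ z, z + 3 = c := ⟨c - 3, by omega⟩
  obtain ⟨x0, hx0⟩ : ∃ z, z = 2 * n + 1 := ⟨_, rfl⟩
  refine check_sound hf (a0 := a0) (b0 := b0) (x0 := x0) (y0 := x0) t3_chk
    ⟨fun _ => rfl, fun h => absurd h (by decide), fun h => absurd h (by decide), by omega, by omega,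
      by omega, by omega⟩ ?_ ?_
  · intro j m p q hr h
    obtain ⟨-, -, -, -, hp1, hp2, hq1, hq2⟩ := hr
    replace h := of_decide_eq_true h
    rcases h with h | h | h
    · obtain ⟨rfl, rfl, h⟩ := h
      exact (WrapC.v2 H.c2 (by omega) (by omega) (by omega) (by omega) (by omega) (by omega) (by omega)).mpr (by omega)
    · obtain ⟨rfl, rfl, h⟩ := h
      exact (WrapC.v2 H.c4 (by omega) (by omega) (by omega) (by omega) (by omega) (by omega) (by omega)).mpr (by omega)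
    · obtain ⟨rfl, rfl, rfl, rfl⟩ := h
      exact mv h0 (by omega) (by omega) (by omega) (by omega)
  · intro j m p q hr h
    obtain ⟨-, -, -, -, hp1, hp2, hq1, hq2⟩ := hr
    replace h := of_decide_eq_true h
    rcases h with h | h
    · obtain ⟨rfl, rfl, h⟩ := h
      exact NHT.p0 hf H.T (j := 2) (by omega) (by omega) (by omega) (by omega) (by omega) (by omega)
    · obtain ⟨rfl, rfl, rfl, rfl⟩ := h
      exact fun t => z0 (mv t (by omega) (by omega) (by omega) (by omega))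

end Pool.Agent.SNT.PB
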