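import Pool.Agent.SNT.W4D

set_option autoImplicit false

/-! The near-wall windows of `P_(6 k + 1)` in the row `c - 2` (`n - 4` is the lead of `6 k + 2` in the row `c - 4`
and its in-line `2 n - 7` is present): the hypotheses (helper33). -/

namespace Pool.Agent.SNT.PL

open Pool.Agent.SNT Pool.Agent.SNT.Loc Pool.Agent.SNT.LW Pool.Agent.SNT.NHZ

variable {f : ℕ → ℕ → ℕ → ℕ → Prop}

theorem st0v {M L B K R x y : ℕ} (C : St f L B K) (hM : M = L) (hL : L % 2 = 0) (hB : (L + B) % 4 = 2) (hR : R = B)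
    (hyx : y ≤ x) (hn : x + L + 12 ≤ R + y) (hK : K < x) : f M R x y ↔
      ((x + y) % 2 = 1 ∧ x < y + 2 * (L / 6) ∧ x % 2 = 1) ∨
      ((x + y) % 2 = 1 ∧ 2 * (L / 6) + y ≤ x + 1 ∧ (x + y + 1) % 4 = (2 * (L / 6)) % 4) := by
  subst hR hM
  rw [C x y (by rw [max_eq_left hyx]; exact hK)]
  exact LocZ.fst_two hL hB hyx hn

/-- The hypotheses of the windows. -/
structure PLH (f : ℕ → ℕ → ℕ → ℕ → Prop) (k c n : ℕ) : Prop where
  T : NHT f k c (2 * n)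
  hn : 6 * k + 100 ≤ n
  c0 : Cyc f (6 * k) (c - 6) (2 * (n - 7) + 2)
  c2 : Cyc f (6 * k + 2) (c - 4) (2 * (n - 4) + 2)
  s2 : St f (6 * k + 2) (c - 4) (2 * (n - 4))
  c2a : Cyc f (6 * k + 2) (c - 8) (2 * (n - 9) + 2)
  c4a : Cyc f (6 * k + 4) (c - 6) (2 * (n - 7) + 2)
  c6 : Cyc f (6 * k + 6) (c - 4) (2 * (n - 5) + 2)
  c8 : Cw f (6 * k + 8) (c - 2) (n - 3)
  lw : ∀ M R x y : ℕ, M + 1 = 6 * k → c ≤ R + 12 → R ≤ c + 12 → 2 * n ≤ x + 30 → y ≤ x →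
    x ≤ y + 4 * k → ¬ f M R x y

theorem PLH.of_stack {k b m : ℕ} (hs : Side k b m) (S : Stack6 f k b m 0 0 0 0 0 1) {n N n' : ℕ}
    (hn : n = m + 9 + (k + 2) * 4) (hN : n' = N + 4) (h1 : n ≤ n')
    (d0 : Cyc f (6 * k) (b + 16) (2 * (N - 3) + 2))
    (d2 : Cyc f (6 * k + 2) (b + 18) (2 * N + 2))
    (s2 : St f (6 * k + 2) (b + 18) (2 * N)) : PLH f k (b + 22) n' where
  T := by
    subst hn
    exact W4.nht_mono (NHT.of_stack hs S) (by omega) (by omega)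
  hn := by have := hs.2.2.2.1; have := hs.2.2.2.2; omega
  c0 := NW.cyc_mv d0 rfl (by omega) (by omega)
  c2 := NW.cyc_mv d2 rfl (by omega) (by omega)
  s2 := by
    have e1 : b + 22 - 4 = b + 18 := by omega
    have e2 : 2 * (n' - 4) = 2 * N := by omega
    rw [e1, e2]
    exact s2
  c2a := NW.cyc_mv (Z8.cyc_mono (K' := 2 * (n' - 9) + 2) (S.l2 3)
    (by have := hs.2.2.2.1; have := hs.2.2.2.2; omega)) rfl (by omega) rfl
  c4a := NW.cyc_mv (Z8.cyc_mono (S.l4 4) (K' := 2 * (n' - 7) + 2) (by omega)) rfl (by omega) rfl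
  c6 := NW.cyc_mv (Z8.cyc_mono (S.l6 4) (K' := 2 * (n' - 5) + 2) (by omega)) rfl (by omega) rfl
  c8 := NW.cw_mv ((S.l8 4).mono (n' := n' - 3) (by omega)) rfl (by omega) rfl
  lw := by
    intro M R x y hM h1 h2 h3 h4 h5
    obtain ⟨k1, k2, k3, k4, k5⟩ := hs
    have e : M = 6 * k - 1 := by omega
    rw [e]
    exact NHZ.lw_zero ⟨k1, k2, k3, k4, k5⟩ S (i := R - b) (by omega) (by omega) (by omega) h4 (by omega)

end Pool.Agent.SNT.PL
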