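import Pool.Agent.SNT.Z8D

set_option autoImplicit false

/-! The near-wall window of `P_(6 k + 1)` in the row `c - 4` with nominal leads: the hypotheses (helper33). -/

namespace Pool.Agent.SNT.PN

open Pool.Agent.SNT Pool.Agent.SNT.Loc Pool.Agent.SNT.LW

variable {f : ℕ → ℕ → ℕ → ℕ → Prop}

/-- The hypotheses of the window. -/
structure PNH (f : ℕ → ℕ → ℕ → ℕ → Prop) (k c n : ℕ) : Prop where
  hk : 8 ≤ k
  hc : c % 2 = 0
  h4 : (6 * k + 10 + c) % 4 = 2
  hb : 12 * k + 100 ≤ c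
  hn : 6 * k + 100 ≤ n
  c6 : Cyc f (6 * k + 6) (c - 4) (2 * (n - 5) + 2)
  c8 : Cw f (6 * k + 8) (c - 2) (n - 3)

theorem PNH.of_stack {k b m e10 : ℕ} (hs : Side k b m) (S : Stack6 f k b m 0 0 0 0 0 e10) {n i : ℕ}
    (hn : n = m + 9 + (k + 2) * 4) : PNH f k (b + 22) (n + i) where
  hk := hs.1
  hc := by have := hs.2.1; omega
  h4 := by have := hs.2.2.1; omega
  hb := by have := hs.2.2.2.1; omega
  hn := by have := hs.2.2.2.1; have := hs.2.2.2.2; omega
  c6 := NW.cyc_mv (Z8.cyc_mono (S.l6 4) (K' := 2 * (n + i - 5) + 2) (by omega)) rfl (by omega) rfl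
  c8 := NW.cw_mv ((S.l8 4).mono (n' := n + i - 3) (by omega)) rfl (by omega) rfl

end Pool.Agent.SNT.PN
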