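import Pool.Agent.SNT.Slice

set_option autoImplicit false

/-! Projection: `Qf r (m + 1)` semilinear implies `Qf r m` semilinear. -/

namespace Pool.Agent.SNT

open Finset Pointwise

theorem snoc_sub1_cast {m : ℕ} (y : Fin m → ℕ) (v : ℕ) (K : Finset (Fin m)) :
    sub1 (Fin.snoc y v : Fin (m + 1) → ℕ) (K.map Fin.castSuccEmb) =
      (Fin.snoc (sub1 y K) v : Fin (m + 1) → ℕ) := by
  ext i
  refine Fin.lastCases ?_ (fun i => ?_) i
  · have : Fin.last m ∉ K.map Fin.castSuccEmb := by
      simp only [mem_map, Fin.coe_castSuccEmb, not_exists, not_and]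
      intro j _ h
      exact absurd h (Fin.castSucc_lt_last j).ne
    unfold sub1
    simp only [this, if_false, Fin.snoc_last]
  · unfold sub1
    simp only [Fin.snoc_castSucc, mem_map, Fin.coe_castSuccEmb, Fin.castSucc_inj, exists_eq_right]

theorem snoc_sub1 {m : ℕ} (y : Fin m → ℕ) (v : ℕ) (K : Finset (Fin (m + 1))) :
    sub1 (Fin.snoc y v : Fin (m + 1) → ℕ) K =
      (Fin.snoc (sub1 y (univ.filter fun i => Fin.castSucc i ∈ K))
        (if Fin.last m ∈ K then v - 1 else v) : Fin (m + 1) → ℕ) := by
  ext i
  refine Fin.lastCases ?_ (fun i => ?_) i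
  · unfold sub1
    simp only [Fin.snoc_last]
  · unfold sub1
    simp only [Fin.snoc_castSucc, mem_filter, mem_univ, true_and]

theorem evn_snoc {m : ℕ} (y : Fin m → ℕ) (v : ℕ) :
    evn (Fin.snoc y v : Fin (m + 1) → ℕ) = evn y + (if v % 2 = 0 then 1 else 0) := by
  have h : ∀ {n : ℕ} (x : Fin n → ℕ), evn x = ∑ i, (if x i % 2 = 0 then 1 else 0) := by
    intro n x
    unfold evn
    rw [sum_boole]
    simp
  rw [h, h, Fin.sum_univ_castSucc]
  simp only [Fin.snoc_castSucc, Fin.snoc_last]

/-- The main step. -/
theorem proj_step {r m : ℕ} {Q : (Fin m → ℕ) → Prop} (hQ : IsQ r Q)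
    {Q' : (Fin (m + 1) → ℕ) → Prop} (hQ' : IsQ r Q') :
    ∀ (y : Fin m → ℕ) (v : ℕ), ∑ i, y i + 1 ≤ v →
      (Q y → (Q' (Fin.snoc y v) ↔ ¬ Q' (Fin.snoc y (v + 1)))) ∧
      (¬ Q y → ¬ Q' (Fin.snoc y v)) := by
  suffices H : ∀ s : ℕ, ∀ y : Fin m → ℕ, ∑ i, y i = s → ∀ v : ℕ, s + 1 ≤ v →
      (Q y → (Q' (Fin.snoc y v) ↔ ¬ Q' (Fin.snoc y (v + 1)))) ∧
      (¬ Q y → ¬ Q' (Fin.snoc y v)) from fun y v hv => H _ y rfl v hv
  intro s
  induction s using Nat.strong_induction_on with
  | _ s ih =>
    intro y hy v hv
    constructor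
    · intro hQy
      have hQy' := (hQ y).1 hQy
      -- value of Q' at `(y, w)`
      have key : ∀ w, s + 1 ≤ w → (Q' (Fin.snoc y w) ↔
          (evn y + (if w % 2 = 0 then 1 else 0) ≤ r ∧ ¬ Q' (Fin.snoc y (w - 1)))) := by
        intro w hw
        rw [hQ' (Fin.snoc y w), evn_snoc]
        refine and_congr_right fun _ => ?_
        constructor
        · intro h
          have h1 := h {Fin.last m} (singleton_nonempty _) (by
            intro i hi
            rw [mem_singleton] at hi
            subst hi
            simp only [Fin.snoc_last]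
            omega)
          rw [snoc_sub1] at h1
          have e1 : (univ.filter fun i : Fin m => Fin.castSucc i ∈ ({Fin.last m} : Finset _)) = ∅ := by
            ext i
            simp only [mem_filter, mem_univ, true_and, mem_singleton, notMem_empty, iff_false]
            exact (Fin.castSucc_lt_last i).ne
          rw [e1] at h1
          have e2 : sub1 y ∅ = y := by
            ext i
            simp [sub1]
          rw [e2, if_pos (mem_singleton_self _)] at h1
          exact h1
        · intro h K hKne hK
          rw [snoc_sub1]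
          set K' := (univ.filter fun i : Fin m => Fin.castSucc i ∈ K) with hK'
          by_cases hne : K'.Nonempty
          · have hK1 : ∀ i ∈ K', 1 ≤ y i := by
              intro i hi
              have := hK (Fin.castSucc i) (by simpa [hK'] using hi)
              rwa [Fin.snoc_castSucc] at this
            have hs := sum_sub1_lt y K' hK1 hne
            refine (ih _ (by omega) _ rfl _ ?_).2 (hQy'.2 K' hne hK1)
            split_ifs <;> omega
          · rw [not_nonempty_iff_eq_empty] at hne
            have hlast : Fin.last m ∈ K := by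
              obtain ⟨i, hi⟩ := hKne
              revert hi
              refine Fin.lastCases (fun h => h) (fun i => ?_) i
              intro hi
              exfalso
              have : i ∈ K' := by simpa [hK'] using hi
              rw [hne] at this
              exact notMem_empty _ this
            have e2 : sub1 y ∅ = y := by
              ext i
              simp [sub1]
            rw [hne, e2, if_pos hlast]
            exact h
      have hr := hQy'.1
      have k1 := key (v + 1) (by omega)
      simp only [Nat.add_sub_cancel] at k1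
      rcases Nat.mod_two_eq_zero_or_one v with hv2 | hv2
      · -- `v + 1` odd
        have : (v + 1) % 2 ≠ 0 := by omega
        rw [if_neg this] at k1
        rw [k1]
        simp [hr]
      · have h2 : (v + 1) % 2 = 0 := by omega
        rw [if_pos h2] at k1
        by_cases hr1 : evn y + 1 ≤ r
        · rw [k1]
          simp [hr1]
        · have h3 : ¬ Q' (Fin.snoc y (v + 1)) := by
            rw [k1]
            exact fun h => hr1 h.1
          have h4 : Q' (Fin.snoc y v) := by
            rw [key v hv, if_neg (by omega)]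
            refine ⟨by omega, ?_⟩
            intro h5
            have h6 := ((hQ' _).1 h5).1
            rw [evn_snoc, if_pos (by omega)] at h6
            exact hr1 h6
          simp [h3, h4]
    · intro hQy hQv
      rw [hQ'] at hQv
      rw [hQ] at hQy
      have hr : evn y ≤ r := by
        have := hQv.1
        rw [evn_snoc] at this
        omega
      have hex : ∃ K : Finset (Fin m), K.Nonempty ∧ (∀ i ∈ K, 1 ≤ y i) ∧ Q (sub1 y K) := by
        by_contra hcon
        push Not at hcon
        exact hQy ⟨hr, fun K h1 h2 => hcon K h1 h2⟩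
      obtain ⟨K, hne, hK, hQK⟩ := hex
      have hs := sum_sub1_lt y K hK hne
      have h1 := (ih _ (by omega) _ rfl (v - 1) (by omega)).1 hQK
      have ev : v - 1 + 1 = v := by omega
      rw [ev] at h1
      -- option `(y - 1_K, v)`
      have h2 : ¬ Q' (Fin.snoc (sub1 y K) v) := by
        have := hQv.2 (K.map Fin.castSuccEmb) (hne.map) (by
          intro i hi
          obtain ⟨j, hj, rfl⟩ := mem_map.1 hi
          rw [Fin.coe_castSuccEmb, Fin.snoc_castSucc]
          exact hK j hj)
        rwa [snoc_sub1_cast] at this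
      -- option `(y - 1_K, v - 1)`
      have h3 : ¬ Q' (Fin.snoc (sub1 y K) (v - 1)) := by
        have := hQv.2 (insert (Fin.last m) (K.map Fin.castSuccEmb)) (insert_nonempty _ _) (by
          intro i hi
          rcases mem_insert.1 hi with rfl | hi
          · rw [Fin.snoc_last]
            omega
          · obtain ⟨j, hj, rfl⟩ := mem_map.1 hi
            rw [Fin.coe_castSuccEmb, Fin.snoc_castSucc]
            exact hK j hj)
        rw [snoc_sub1, if_pos (mem_insert_self _ _)] at this
        have e1 : (univ.filter fun i : Fin m => Fin.castSucc i ∈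
            insert (Fin.last m) (K.map Fin.castSuccEmb)) = K := by
          ext i
          simp only [mem_filter, mem_univ, true_and, mem_insert, mem_map, Fin.coe_castSuccEmb,
            Fin.castSucc_inj, exists_eq_right]
          constructor
          · rintro (h | h)
            · exact absurd h (Fin.castSucc_lt_last i).ne
            · exact h
          · intro h
            exact Or.inr h
        rwa [e1] at this
      exact h3 (h1.2 h2)

theorem proj_iff {r m : ℕ} (y : Fin m → ℕ) :
    Qf r m y ↔ (Qf r (m + 1) (Fin.snoc y (∑ i, y i + 1)) ∨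
      Qf r (m + 1) (Fin.snoc y (∑ i, y i + 2))) := by
  have h1 := proj_step (isQ_Qf r m) (isQ_Qf r (m + 1)) y (∑ i, y i + 1) le_rfl
  have h2 := proj_step (isQ_Qf r m) (isQ_Qf r (m + 1)) y (∑ i, y i + 2) (by omega)
  constructor
  · intro h
    have h3 := h1.1 h
    by_cases h4 : Qf r (m + 1) (Fin.snoc y (∑ i, y i + 1))
    · exact Or.inl h4
    · right
      by_contra h5
      exact h4 (h3.2 h5)
  · intro h
    by_contra h3
    rcases h with h | h
    · exact h1.2 h3 h
    · exact h2.2 h3 h

/-- Preimage under the affine map `y ↦ (y, |y| + c)`. -/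
theorem snoc_semilinear {m : ℕ} {S : Set (Fin (m + 1) → ℕ)} (h : IsSemilinearSet S) (c : ℕ) :
    IsSemilinearSet {y : Fin m → ℕ | (Fin.snoc y (∑ i, y i + c) : Fin (m + 1) → ℕ) ∈ S} := by
  let φ : (Fin (m + 1) → ℕ) →ₗ[ℕ] (Fin (m + 1) → ℕ) :=
    { toFun := fun x => Fin.snoc (fun i => x (Fin.castSucc i))
        (∑ i : Fin m, x (Fin.castSucc i) + x (Fin.last m))
      map_add' := by
        intro x x'
        ext i
        refine Fin.lastCases ?_ (fun i => ?_) i
        · simp only [Fin.snoc_last, Pi.add_apply, sum_add_distrib]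
          ring
        · simp only [Fin.snoc_castSucc, Pi.add_apply]
      map_smul' := by
        intro d x
        ext i
        refine Fin.lastCases ?_ (fun i => ?_) i
        · simp only [Fin.snoc_last, Pi.smul_apply, smul_eq_mul, RingHom.id_apply, mul_add, mul_sum]
        · simp only [Fin.snoc_castSucc, Pi.smul_apply, RingHom.id_apply] }
  have h1 : IsSemilinearSet (φ ⁻¹' S) := h.preimage φ
  have h2 : IsSemilinearSet ((LinearMap.proj (Fin.last m) : (Fin (m + 1) → ℕ) →ₗ[ℕ] ℕ) ⁻¹' {c}) :=
    (IsSemilinearSet.singleton c).preimage _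
  have h3 := h1.inter h2
  let ψ : (Fin (m + 1) → ℕ) →ₗ[ℕ] (Fin m → ℕ) := LinearMap.pi fun i => LinearMap.proj (Fin.castSucc i)
  have h4 := h3.image ψ
  convert h4 using 1
  ext y
  simp only [Set.mem_ofPred_eq, Set.mem_image, Set.mem_inter_iff, Set.mem_preimage,
    Set.mem_singleton_iff]
  constructor
  · intro hy
    refine ⟨Fin.snoc y c, ⟨?_, ?_⟩, ?_⟩
    · have : φ (Fin.snoc y c) = Fin.snoc y (∑ i, y i + c) := by
        show (Fin.snoc (fun i => (Fin.snoc y c : Fin (m + 1) → ℕ) (Fin.castSucc i))
          (∑ i : Fin m, (Fin.snoc y c : Fin (m + 1) → ℕ) (Fin.castSucc i) +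
            (Fin.snoc y c : Fin (m + 1) → ℕ) (Fin.last m)) : Fin (m + 1) → ℕ) = _
        simp only [Fin.snoc_last, Fin.snoc_castSucc]
      rw [this]
      exact hy
    · show (Fin.snoc y c : Fin (m + 1) → ℕ) (Fin.last m) = c
      exact Fin.snoc_last (α := fun _ => ℕ) _ _
    · ext i
      show (Fin.snoc y c : Fin (m + 1) → ℕ) (Fin.castSucc i) = y i
      exact Fin.snoc_castSucc (α := fun _ => ℕ) _ _ _
  · rintro ⟨x, ⟨hx, hxc⟩, rfl⟩
    have hxc' : x (Fin.last m) = c := hxc
    have : (Fin.snoc (ψ x) (∑ i, ψ x i + c) : Fin (m + 1) → ℕ) = φ x := by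
      rw [← hxc']
      rfl
    rw [this]
    exact hx

theorem proj_semilinear {r m : ℕ} (h : IsSemilinearSet {y | Qf r (m + 1) y}) :
    IsSemilinearSet {y | Qf r m y} := by
  have h3 := (snoc_semilinear h 1).union (snoc_semilinear h 2)
  convert h3 using 1
  ext y
  exact proj_iff y

theorem proj_semilinear_add {r m d : ℕ} (h : IsSemilinearSet {y | Qf r (m + d) y}) :
    IsSemilinearSet {y | Qf r m y} := by
  induction d with
  | zero => exact h
  | succ d ih => exact ih (proj_semilinear h)

/-- For `k` tokens and `2 k + r` piles, `2 r ≤ k`, and `m ≤ k + 1 + r`. -/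
theorem semilinear_Qf_le {k r m : ℕ} (hk : 1 ≤ k) (hr : 2 * r ≤ k) (hm : m ≤ k + 1 + r)
    {P : Set (Fin (k + 1 + r + (k - 1)) → ℕ)} (hP : GameEq (k + 1 + r + (k - 1)) k P)
    (hs : FrozenSemi P) : IsSemilinearSet {y | Qf r m y} := by
  obtain ⟨d, hd⟩ := Nat.exists_eq_add_of_le hm
  refine proj_semilinear_add (d := d) ?_
  rw [← hd]
  exact semilinear_Qf hk hr hP hs.isSemilinearSet

end Pool.Agent.SNT
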