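import Pool.Agent.SNT.DRunI

set_option autoImplicit false

/-! [D] The purity of the OUT row `c + 2` of the layers `6 k + 2`, `6 k + 6` at `y = 2 n + 4`: assembly of the tips (K0 at
the wall + the run in the row `c`), the near-diagonal windows and the run in the row `c + 2`. -/

namespace Pool.Agent.SNT.Pur20

open Pool.Agent.SNT Pool.Agent.SNT.Sig Pool.Agent.SNT.NHZ Pool.Agent.SNT.DRun

variable {f : ℕ → ℕ → ℕ → ℕ → Prop} {k c n : ℕ}

/-- No two adjacent tips of the layer `L` in the row `c` are missing. -/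
def Tips (f : ℕ → ℕ → ℕ → ℕ → Prop) (L c n : ℕ) : Prop :=
  ∀ x : ℕ, x % 2 = 1 → 2 * n + 3 ≤ x → f L c x (x - 1) ∨ f L c (x + 2) (x + 1)

/-- **The purity at `y = 2 n + 4`.** -/
theorem pur (hf : Rule f) (T : NHT f k c (2 * n)) {L j : ℕ} (hj : 1 ≤ j) (hj4 : j ≤ 4) (hL : L + 2 * j = 6 * k + 10)
    (D : ∀ s : ℕ, s % 2 = 0 → 2 * n + 6 ≤ s → ¬ f L (c + 2) (s + 7) s)
    (h7 : ¬ f L (c + 2) (2 * n + 7) (2 * n + 4)) (h9 : ¬ f L (c + 2) (2 * n + 9) (2 * n + 4))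
    (h11 : ¬ f L (c + 2) (2 * n + 11) (2 * n + 4)) {x : ℕ}
    (hx : x % 2 = 1) (h1 : 2 * n + 7 ≤ x) (h2 : x + j ≤ 2 * n + 3 + 2 * k) : ¬ f L (c + 2) x (2 * n + 4) := by
  intro h
  rcases Nat.lt_or_ge x (2 * n + 13) with h3 | h3
  · obtain rfl | rfl | rfl : x = 2 * n + 7 ∨ x = 2 * n + 9 ∨ x = 2 * n + 11 := by omega
    · exact h7 h
    · exact h9 h
    · exact h11 h
  · have h4 := run_c2 hf T (L := L) (j := j) (x := x) (y0 := 2 * n + 4) hj (by omega) hL hx (by omega) (by omega)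
      (by omega) h (x - 7) (by omega) (by omega) (by omega)
    refine D (x - 7) (by omega) (by omega) ?_
    rwa [show x - 7 + 7 = x by omega]

/-- tips of `6 k + 6` in the row `c` -/
theorem tips6 (hf : Rule f) (T : NHT f k c (2 * n))
    (K6 : ∀ x y : ℕ, 2 * n + 3 ≤ x → x % 2 = 1 → y + 2 * k = x + 3 → f (6 * k + 6) c x y ∨ f (6 * k + 6) c (x + 2) (y + 2)) :
    Tips f (6 * k + 6) c n := by
  have hk := T.hk
  have hN2 := T.hN2
  intro x hx hX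
  obtain ⟨y, hy⟩ : ∃ y, y + 2 * k = x + 3 := ⟨x + 3 - 2 * k, by omega⟩
  exact tip6 hf T hx (by omega) (y0 := y) (y0' := y + 2) (by omega) (by omega) (by omega) (by omega) (by omega) (by omega)
    (K6 x y hX hx hy)

/-- tips of `6 k + 2` in the row `c` -/
theorem tips2 (hf : Rule f) (T : NHT f k c (2 * n)) {n4 n2 : ℕ} (hn4 : n4 + 2 ≤ n) (hn2 : n2 + 3 ≤ n)
    (C4 : Cyc f (6 * k + 4) (c - 2) (2 * n4 + 2)) (C2 : Cyc f (6 * k + 2) (c - 4) (2 * n2 + 2))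
    (K2 : ∀ x y : ℕ, 2 * n + 3 ≤ x → x % 2 = 1 → y + 2 * k = x + 5 → f (6 * k + 2) c x y ∨ f (6 * k + 2) c (x + 2) (y + 2)) :
    Tips f (6 * k + 2) c n := by
  have hk := T.hk
  have hN2 := T.hN2
  intro x hx hX
  obtain ⟨y, hy⟩ : ∃ y, y + 2 * k = x + 5 := ⟨x + 5 - 2 * k, by omega⟩
  exact tip2 hf T (D1.of_cyc T C4 C2) hx (by omega) (by omega) (by omega) (y0 := y) (y0' := y + 2) (by omega) (by omega)
    (by omega) (by omega) (by omega) (by omega) (K2 x y hX hx hy)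

/-- The near-diagonal windows of [D]. -/
structure ND (f : ℕ → ℕ → ℕ → ℕ → Prop) (k c n : ℕ) : Prop where
  d2 : ∀ s : ℕ, s % 2 = 0 → 2 * n + 6 ≤ s → (f (6 * k + 2) c (s + 3) (s + 2) ∨ f (6 * k + 2) c (s + 5) (s + 4)) →
    (f (6 * k + 6) c (s + 3) (s + 2) ∨ f (6 * k + 6) c (s + 5) (s + 4)) → ¬ f (6 * k + 2) (c + 2) (s + 7) s
  d6 : ∀ s : ℕ, s % 2 = 0 → 2 * n + 4 ≤ s → (f (6 * k + 6) c (s + 3) (s + 2) ∨ f (6 * k + 6) c (s + 5) (s + 4)) →
    ¬ f (6 * k + 6) (c + 2) (s + 7) s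
  c27 : Tips f (6 * k + 2) c n → Tips f (6 * k + 6) c n → ¬ f (6 * k + 2) (c + 2) (2 * n + 7) (2 * n + 4)
  c29 : Tips f (6 * k + 2) c n → Tips f (6 * k + 6) c n → ¬ f (6 * k + 2) (c + 2) (2 * n + 9) (2 * n + 4)
  c211 : Tips f (6 * k + 2) c n → Tips f (6 * k + 6) c n → ¬ f (6 * k + 2) (c + 2) (2 * n + 11) (2 * n + 4)
  c67 : Tips f (6 * k + 6) c n → ¬ f (6 * k + 6) (c + 2) (2 * n + 7) (2 * n + 4)
  c69 : Tips f (6 * k + 6) c n → ¬ f (6 * k + 6) (c + 2) (2 * n + 9) (2 * n + 4)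

/-- **[D]** -/
theorem purity (hf : Rule f) (T : NHT f k c (2 * n)) (t2 : Tips f (6 * k + 2) c n) (t6 : Tips f (6 * k + 6) c n)
    (W : ND f k c n) {x : ℕ} (hx : x % 2 = 1) (h1 : 2 * n + 7 ≤ x) (h2 : x + 1 ≤ 2 * n + 2 * k) :
    ¬ f (6 * k + 2) (c + 2) x (2 * n + 4) ∧ ¬ f (6 * k + 6) (c + 2) x (2 * n + 4) := by
  have hd6 : ∀ s : ℕ, s % 2 = 0 → 2 * n + 4 ≤ s → ¬ f (6 * k + 6) (c + 2) (s + 7) s := by
    intro s hs h3
    refine W.d6 s hs h3 ?_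
    have := t6 (s + 3) (by omega) (by omega)
    rwa [show s + 3 - 1 = s + 2 by omega, show s + 3 + 2 = s + 5 by omega, show s + 3 + 1 = s + 4 by omega] at this
  refine ⟨pur hf T (j := 4) (by omega) le_rfl (by omega) (fun s hs h3 => ?_) (W.c27 t2 t6) (W.c29 t2 t6) (W.c211 t2 t6) hx
    h1 (by omega), pur hf T (j := 2) (by omega) (by omega) (by omega) (fun s hs h3 => hd6 s hs (by omega)) (W.c67 t6)
    (W.c69 t6) ?_ hx h1 (by omega)⟩
  · refine W.d2 s hs h3 ?_ ?_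
    · have := t2 (s + 3) (by omega) (by omega)
      rwa [show s + 3 - 1 = s + 2 by omega, show s + 3 + 2 = s + 5 by omega, show s + 3 + 1 = s + 4 by omega] at this
    · have := t6 (s + 3) (by omega) (by omega)
      rwa [show s + 3 - 1 = s + 2 by omega, show s + 3 + 2 = s + 5 by omega, show s + 3 + 1 = s + 4 by omega] at this
  · have := hd6 (2 * n + 4) (by omega) le_rfl
    rwa [show 2 * n + 4 + 7 = 2 * n + 11 by omega] at this

end Pool.Agent.SNT.Pur20
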