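import Pool.Agent.SNT.Pur20
import Pool.Agent.SNT.PBt
import Pool.Agent.SNT.PB7a
import Pool.Agent.SNT.PB7b
import Pool.Agent.SNT.PB9
import Pool.Agent.SNT.PB11
import Pool.Agent.SNT.LN
import Pool.Agent.SNT.K0L4
import Pool.Agent.SNT.K0L6
import Pool.Agent.SNT.K0L2c

set_option autoImplicit false

/-! The purity of the OUT row `c + 2` of the layers `6 k + 2`, `6 k + 6` at `y = 2 n + 4`, over the leads `n - 7` of `6 k`,
`n - 3` of `6 k + 2` and `n + 1` of `6 k + 4`. -/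

namespace Pool.Agent.SNT.PB

open Pool.Agent.SNT Pool.Agent.SNT.Sig Pool.Agent.SNT.NHZ Pool.Agent.SNT.DRun Pool.Agent.SNT.Pur20

variable {f : ℕ → ℕ → ℕ → ℕ → Prop} {k c n : ℕ}

/-- the run up to the diagonal in the layer `6 k + 2`, row `c` -/
theorem tip_of (hf : Rule f) (H : PB f k c n) {x y : ℕ} (hx : x % 2 = 1) (hX : 2 * n + 3 ≤ x) (hy : y + 2 * k = x + 5)
    (h0 : f (6 * k + 2) c x y) : f (6 * k + 2) c x (x - 1) := by
  have hk := H.T.hk
  have hN := H.T.hN2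
  rcases Nat.lt_or_ge x (2 * n + 9) with h | h
  · have h1 := run2' hf H.T hx (y0 := y) (by omega) (by omega) (by omega) h0 (x - 5) (by omega) (by omega) (by omega)
    obtain rfl | rfl | rfl : x = 2 * n + 3 ∨ x = 2 * n + 5 ∨ x = 2 * n + 7 := by omega
    · by_contra h2
      exact t1 hf H (by rwa [show 2 * n + 3 - 5 = 2 * n - 2 by omega] at h1)
        (by rwa [show 2 * n + 3 - 1 = 2 * n + 2 by omega] at h2)
    · by_contra h2
      exact t2 hf H (by rwa [show 2 * n + 5 - 5 = 2 * n by omega] at h1)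
        (by rwa [show 2 * n + 5 - 1 = 2 * n + 4 by omega] at h2)
    · by_contra h2
      exact t3 hf H (by rwa [show 2 * n + 7 - 5 = 2 * n + 2 by omega] at h1)
        (by rwa [show 2 * n + 7 - 1 = 2 * n + 6 by omega] at h2)
  · exact run2 hf H.T (D1.of_cyc H.T H.c4 H.c2) hx (y0 := y) (by omega) (by omega) (by omega) (by omega) (by omega) h0 _
      (by omega) (by omega) (by omega)

/-- tips of `6 k + 2` in the row `c` -/
theorem tipsB (hf : Rule f) (H : PB f k c n)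
    (K2 : ∀ x y : ℕ, 2 * n + 3 ≤ x → x % 2 = 1 → y + 2 * k = x + 5 → f (6 * k + 2) c x y ∨ f (6 * k + 2) c (x + 2) (y + 2)) :
    Tips f (6 * k + 2) c n := by
  have hk := H.T.hk
  have hN := H.T.hN2
  intro x hx hX
  obtain ⟨y, hy⟩ : ∃ y, y + 2 * k = x + 5 := ⟨x + 5 - 2 * k, by omega⟩
  rcases K2 x y hX hx hy with h | h
  · exact Or.inl (tip_of hf H hx hX hy h)
  · exact Or.inr (tip_of hf H (x := x + 2) (y := y + 2) (by omega) (by omega) (by omega) h)

/-- two pairs of tips of `6 k + 4` in the row `c - 2` -/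
structure T4 (f : ℕ → ℕ → ℕ → ℕ → Prop) (k c n : ℕ) : Prop where
  a : f (6 * k + 4) (c - 2) (2 * n - 1) (2 * n - 2) ∨ f (6 * k + 4) (c - 2) (2 * n + 1) (2 * n)
  b : f (6 * k + 4) (c - 2) (2 * n + 1) (2 * n) ∨ f (6 * k + 4) (c - 2) (2 * n + 3) (2 * n + 2)

theorem co2_7 (hf : Rule f) (H : PB f k c n) (t4 : T4 f k c n) (t2 : Tips f (6 * k + 2) c n)
    (t6 : Tips f (6 * k + 6) c n) : ¬ f (6 * k + 2) (c + 2) (2 * n + 7) (2 * n + 4) := by
  intro h0
  have a := t2 (2 * n + 3) (by omega) (by omega)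
  have b := t6 (2 * n + 3) (by omega) (by omega)
  have e1 : 2 * n + 3 - 1 = 2 * n + 2 := by omega
  have e2 : 2 * n + 3 + 2 = 2 * n + 5 := by omega
  have e3 : 2 * n + 3 + 1 = 2 * n + 4 := by omega
  rw [e1, e2, e3] at a b
  by_cases T0 : f (6 * k + 4) (c - 2) (2 * n + 1) (2 * n)
  · by_cases A1 : f (6 * k + 2) c (2 * n + 3) (2 * n + 2)
    · by_cases B1 : f (6 * k + 6) c (2 * n + 3) (2 * n + 2)
      · by_cases B2 : f (6 * k + 6) c (2 * n + 5) (2 * n + 4)
        · exact c7_t0_0 hf H h0 A1 B1 B2 T0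
        · exact c7_t0_1 hf H h0 A1 B1 T0 B2
      · have B2 := b.resolve_left B1
        by_cases A2 : f (6 * k + 2) c (2 * n + 5) (2 * n + 4)
        · exact c7_t0_2 hf H h0 A1 A2 B2 T0
        · exact c7_t0_3 hf H h0 A1 B2 T0 A2 B1
    · have A2 := a.resolve_left A1
      by_cases B2 : f (6 * k + 6) c (2 * n + 5) (2 * n + 4)
      · exact c7_t0_4 hf H h0 A2 B2 T0 A1
      · exact c7_t0_5 hf H h0 A2 (b.resolve_right B2) T0 A1 B2
  · have Tm := t4.a.resolve_right T0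
    have T1 := t4.b.resolve_left T0
    rcases a with A | A <;> rcases b with B | B
    · exact c7_t1_0 hf H h0 A B Tm T1
    · exact c7_t1_1 hf H h0 A B Tm T1
    · exact c7_t1_2 hf H h0 A B Tm T1
    · exact c7_t1_3 hf H h0 A B Tm T1

theorem co2_9 (hf : Rule f) (H : PB f k c n) (t4 : T4 f k c n) (t2 : Tips f (6 * k + 2) c n)
    (t6 : Tips f (6 * k + 6) c n) : ¬ f (6 * k + 2) (c + 2) (2 * n + 9) (2 * n + 4) := by
  intro h0
  have a := t2 (2 * n + 5) (by omega) (by omega)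
  have b := t6 (2 * n + 3) (by omega) (by omega)
  have e1 : 2 * n + 3 - 1 = 2 * n + 2 := by omega
  have e2 : 2 * n + 3 + 2 = 2 * n + 5 := by omega
  have e3 : 2 * n + 3 + 1 = 2 * n + 4 := by omega
  have e4 : 2 * n + 5 - 1 = 2 * n + 4 := by omega
  have e5 : 2 * n + 5 + 2 = 2 * n + 7 := by omega
  have e6 : 2 * n + 5 + 1 = 2 * n + 6 := by omega
  rw [e1, e2, e3] at b
  rw [e4, e5, e6] at a
  by_cases B2 : f (6 * k + 6) c (2 * n + 5) (2 * n + 4)
  · by_cases T1 : f (6 * k + 4) (c - 2) (2 * n + 3) (2 * n + 2)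
    · rcases a with A | A
      · exact c9_1 hf H h0 A B2 T1
      · exact c9_4 hf H h0 A B2 T1
    · have T0 := t4.b.resolve_right T1
      rcases a with A | A
      · exact c9_0 hf H h0 A B2 T0
      · exact c9_7 hf H h0 A B2 T0 T1
  · have B1 := b.resolve_right B2
    rcases a with A | A <;> rcases t4.b with T | T
    · exact c9_3 hf H h0 A B1 T B2
    · exact c9_2 hf H h0 A B1 T B2
    · exact c9_6 hf H h0 A B1 T B2
    · exact c9_5 hf H h0 A B1 T

theorem co2_11 (hf : Rule f) (H : PB f k c n) (t2 : Tips f (6 * k + 2) c n)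
    (t6 : Tips f (6 * k + 6) c n) : ¬ f (6 * k + 2) (c + 2) (2 * n + 11) (2 * n + 4) := by
  intro h
  have hk := H.T.hk
  have h0 := run_c2 hf H.T (L := 6 * k + 2) (j := 4) (x := 2 * n + 11) (y0 := 2 * n + 4) (by omega) (by omega) (by omega)
    (by omega) (by omega) (by omega) (by omega) h (2 * n + 6) (by omega) (by omega) (by omega)
  have a := t2 (2 * n + 7) (by omega) (by omega)
  have b := t6 (2 * n + 5) (by omega) (by omega)
  have e1 : 2 * n + 7 - 1 = 2 * n + 6 := by omega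
  have e2 : 2 * n + 7 + 2 = 2 * n + 9 := by omega
  have e3 : 2 * n + 7 + 1 = 2 * n + 8 := by omega
  have e4 : 2 * n + 5 - 1 = 2 * n + 4 := by omega
  have e5 : 2 * n + 5 + 2 = 2 * n + 7 := by omega
  have e6 : 2 * n + 5 + 1 = 2 * n + 6 := by omega
  rw [e1, e2, e3] at a
  rw [e4, e5, e6] at b
  rcases a with A | A <;> rcases b with B | B
  · exact c11_0 hf H h0 A B
  · exact c11_1 hf H h0 A B
  · exact c11_2 hf H h0 A B
  · exact c11_3 hf H h0 A B

/-- **The near-diagonal windows.** -/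
theorem nd (hf : Rule f) (H : PB f k c n) (t4 : T4 f k c n) : ND f k c n := by
  have D : LN.DH f k c n := ⟨H.T, WrapC.cyc_mono H.c2 (by omega), H.c4, H.c6, H.c8, H.c10,
    fun M R x y a1 a2 a3 a4 => H.lw M R x y a1 a2 a3 (by omega)⟩
  refine ⟨fun s hs h3 h2 h6 => LN.d4_2 hf D hs h3 h2 h6, fun s hs h3 h6 => LN.d4_6 hf D hs h3 h6,
    fun t2 t6 => co2_7 hf H t4 t2 t6, fun t2 t6 => co2_9 hf H t4 t2 t6, fun t2 t6 => co2_11 hf H t2 t6, fun t6 => ?_,
    fun t6 => ?_⟩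
  · have := t6 (2 * n + 3) (by omega) (by omega)
    exact LN.co6_7 hf D (by rwa [show 2 * n + 3 - 1 = 2 * n + 2 by omega, show 2 * n + 3 + 2 = 2 * n + 5 by omega,
      show 2 * n + 3 + 1 = 2 * n + 4 by omega] at this)
  · have := t6 (2 * n + 3) (by omega) (by omega)
    exact LN.co6_9 hf D (by rwa [show 2 * n + 3 - 1 = 2 * n + 2 by omega, show 2 * n + 3 + 2 = 2 * n + 5 by omega,
      show 2 * n + 3 + 1 = 2 * n + 4 by omega] at this)

section
variable {b m : ℕ}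

/-- The tips of `6 k + 6` in the row `c`. -/
theorem tips6_stack (hf : Rule f) (hs : Side k b m) (S : Stack6 f k b m 0 0 0 0 0 1) (hn : n = m + 9 + (k + 2) * 4) :
    Tips f (6 * k + 6) (b + 22) n := by
  subst hn
  exact tips6 hf (NHT.of_stack hs S) (fun x y h1 h2 h3 => k0_L6 hf hs S rfl h1 h2 h3)

/-- The tips of `6 k + 2` in the row `c`. -/
theorem tips2_stack (hf : Rule f) (hs : Side k b m) (S : Stack6 f k b m 0 0 0 0 0 1) (hn : n = m + 9 + (k + 2) * 4)
    (d0 : Cyc f (6 * k) (b + 16) (2 * (n - 7) + 2)) (d2 : Cyc f (6 * k + 2) (b + 18) (2 * (n - 3) + 2))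
    (d4 : Cyc f (6 * k + 4) (b + 20) (2 * (n + 1) + 2)) : Tips f (6 * k + 2) (b + 22) n := by
  have H := PB.of_stack hs S hn d0 d2 d4
  subst hn
  exact tipsB hf H (fun x y h1 h2 h3 => K0L2c.k0_L2_stack hf hs S d2 d4 rfl (by omega) h2 h3)

/-- **[D] The purity at `y = 2 n + 4`.** -/
theorem purity_stack (hf : Rule f) (hs : Side k b m) (S : Stack6 f k b m 0 0 0 0 0 1) (hn : n = m + 9 + (k + 2) * 4)
    (d0 : Cyc f (6 * k) (b + 16) (2 * (n - 7) + 2)) (d2 : Cyc f (6 * k + 2) (b + 18) (2 * (n - 3) + 2))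
    (d4 : Cyc f (6 * k + 4) (b + 20) (2 * (n + 1) + 2)) {x : ℕ} (hx : x % 2 = 1) (h1 : 2 * n + 7 ≤ x)
    (h2 : x + 1 ≤ 2 * n + 2 * k) :
    ¬ f (6 * k + 2) (b + 24) x (2 * n + 4) ∧ ¬ f (6 * k + 6) (b + 24) x (2 * n + 4) := by
  have H := PB.of_stack hs S hn d0 d2 d4
  have t2 := tips2_stack hf hs S hn d0 d2 d4
  have t6 := tips6_stack hf hs S hn
  have t4 : T4 f k (b + 22) n := by
    have hN := H.T.hN2
    have hk := H.T.hk
    have A := K0L4.tip4_stack hf hs S (x := 2 * n - 1) (by omega) (by omega)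
    have B := K0L4.tip4_stack hf hs S (x := 2 * n + 1) (by omega) (by omega)
    refine ⟨?_, ?_⟩
    · rwa [show 2 * n - 1 - 1 = 2 * n - 2 by omega, show 2 * n - 1 + 2 = 2 * n + 1 by omega,
        show 2 * n - 1 + 1 = 2 * n by omega] at A
    · rwa [show 2 * n + 1 - 1 = 2 * n by omega, show 2 * n + 1 + 2 = 2 * n + 3 by omega,
        show 2 * n + 1 + 1 = 2 * n + 2 by omega] at B
  exact purity hf H.T t2 t6 (nd hf H t4) hx h1 h2

end

end Pool.Agent.SNT.PB
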