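import Pool.Agent.SNT.TipIso

set_option autoImplicit false
set_option maxHeartbeats 1000000

/-! Runaway over an arbitrary slope `s`: if the offset of a layer `A` over the slope `s` of the layers
below is unbounded then the layer `A` is violated with its own speed. -/

namespace Pool.Agent.SNT

variable {f : ℕ → ℕ → ℕ → ℕ → Prop}

/-- The linear bound of a layer with slope `s / 4`. -/
def LinS (f : ℕ → ℕ → ℕ → ℕ → Prop) (a s C : ℕ) : Prop :=
  ∀ b K : ℕ, s * b + C ≤ 4 * K → St f a b K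

theorem LinS.mono {a s C D : ℕ} (h : LinS f a s C) (hCD : C ≤ D) : LinS f a s D :=
  fun b K hb => h b K (by omega)

theorem Lin.toS {a s C : ℕ} (h : Lin f a C) (hs : cc a + 4 ≤ s) : LinS f a s C :=
  fun b K hb => h b K (le_trans (Nat.add_le_add_right (Nat.mul_le_mul_right b hs) C) hb)

theorem linS_of_lin (hf : Rule f) {a s : ℕ} (hs : cc a + 4 ≤ s) : ∃ C : ℕ, LinS f a s C := by
  obtain ⟨C, h⟩ := lin hf a
  exact ⟨C, h.toS hs⟩

/-- Odd layers inherit the slope. -/
theorem linS_odd (hf : Rule f) {a s C' : ℕ} (ha : a % 2 = 1) (hs : 8 ≤ s)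
    (hlow : LinS f (a - 1) s C') : ∃ C : ℕ, LinS f a s C := by
  obtain ⟨C1, hC1⟩ : ∃ C1 : ℕ, C1 = 4 * KK (a + (a + 4)) + 4 * (a + 20) + C' + 8 := ⟨_, rfl⟩
  have key : ∀ m K : ℕ, K % 2 = 0 → s * (a + 4 + m) + C1 ≤ 4 * K → St f a (a + 4 + m) K := by
    intro m
    induction m with
    | zero =>
      intro K hK hle
      exact (limit_quant hf a (a + 4)).mono (by omega)
    | succ m ih =>
      intro K hK hle
      have h3 : s * (a + 4 + (m + 1)) = s * (a + 4 + m) + s := by ring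
      have h5 : 8 * (a + 4 + m) ≤ s * (a + 4 + m) := Nat.mul_le_mul_right _ hs
      have hls : LSK f a (a + 4 + (m + 1)) (K - 2) := by
        intro x y hxy p q hp hq hpq hpa hqb
        rcases Nat.eq_zero_or_pos p with hp0 | hp0
        · subst hp0
          have hq1 : q = 1 := by omega
          subst hq1
          exact ih (K - 2) (by omega) (by omega) x y hxy
        · have hp1 : p = 1 := by omega
          subst hp1
          rcases Nat.eq_zero_or_pos q with hq0 | hq0
          · subst hq0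
            exact hlow (a + 4 + (m + 1)) (K - 2) (by omega) x y hxy
          · have hq1 : q = 1 := by omega
            subst hq1
            exact hlow (a + 4 + m) (K - 2) (by omega) x y hxy
      have h9 := QF_even_flat hf (by omega) (by omega) (by omega) hls (Or.inl ha)
      exact h9.mono (by omega)
  refine ⟨C1 + 4, ?_⟩
  intro b K hb
  rcases Nat.lt_or_ge b (a + 4) with h3 | h3
  · have h4 : KK (a + b) ≤ KK (a + (a + 4)) := KK_mono (by omega)
    exact (limit_quant hf a b).mono (by omega)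
  · obtain ⟨m, rfl⟩ : ∃ m, b = a + 4 + m := ⟨b - (a + 4), by omega⟩
    rcases Nat.mod_two_eq_zero_or_one K with hK | hK
    · exact key m K hK (by omega)
    · exact (key m (K - 1) (by omega) (by omega)).mono (by omega)

/-- From the IN rows to all rows. -/
theorem linS_even (hf : Rule f) {a s C' M B : ℕ} (ha : a % 2 = 0) (ha1 : 1 ≤ a) (hs : 8 ≤ s)
    (hlow : LinS f (a - 1) s C')
    (h : ∀ b : ℕ, B ≤ b → b % 2 = 0 → (a + b) % 4 = 2 → ∀ K : ℕ, s * b + M ≤ 4 * K → St f a b K) :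
    ∃ C : ℕ, LinS f a s C := by
  obtain ⟨h1, h2, _⟩ := cc_facts a
  refine ⟨M + C' + 4 * KK (a + (B + a + 8)) + 4 * (a + 20) + 4 * s + 4 * (cc a + 4) + 8, ?_⟩
  intro b K hb
  rcases Nat.lt_or_ge b (B + a + 8) with h3 | h3
  · have h4 : KK (a + b) ≤ KK (a + (B + a + 8)) := KK_mono (by omega)
    exact (limit_quant hf a b).mono (by omega)
  · obtain ⟨b', i, hi, hb2, hab, hB, rfl⟩ : ∃ b' i, i < 4 ∧ b' % 2 = 0 ∧ (a + b') % 4 = 2 ∧
        B + a + 4 < b' ∧ b = b' + i := by
      have hmod : (a + b) % 4 = 0 ∨ (a + b) % 4 = 1 ∨ (a + b) % 4 = 2 ∨ (a + b) % 4 = 3 := by omega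
      rcases hmod with h5 | h5 | h5 | h5
      · exact ⟨b - 2, 2, by omega, by omega, by omega, by omega, by omega⟩
      · exact ⟨b - 3, 3, by omega, by omega, by omega, by omega, by omega⟩
      · exact ⟨b, 0, by omega, by omega, by omega, by omega, by omega⟩
      · exact ⟨b - 1, 1, by omega, by omega, by omega, by omega, by omega⟩
    have e1 : s * (b' + i) = s * b' + s * i := by ring
    have e2 : s * i ≤ s * 3 := Nat.mul_le_mul_left _ (by omega)
    have e3 : 8 * b' ≤ s * b' := Nat.mul_le_mul_right _ hs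
    -- the threshold of the cycle
    obtain ⟨K0, hK0e, hK0a, hK0b⟩ : ∃ K0, K0 % 2 = 0 ∧ K0 + cc a + 2 ≤ K ∧ K ≤ K0 + cc a + 4 := by
      rcases Nat.mod_two_eq_zero_or_one K with hK | hK
      · exact ⟨K - cc a - 2, by omega, by omega, by omega⟩
      · exact ⟨K - cc a - 3, by omega, by omega, by omega⟩
    have hC := cycle hf (a := a) (b := b') (K := K0) (by omega) ha hb2 hab (by omega) hK0e
      (h b' (by omega) hb2 hab K0 (by omega)) (by
        intro j hj _
        refine hlow _ _ ?_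
        have e4 : s * (b' + j) = s * b' + s * j := by ring
        have e5 : s * j ≤ s * 4 := Nat.mul_le_mul_left _ hj
        omega)
    have hi' : i = 0 ∨ i = 1 ∨ i = 2 ∨ i = 3 := by omega
    rcases hi' with rfl | rfl | rfl | rfl
    · exact hC.r0.mono (by omega)
    · exact hC.r1.mono (by omega)
    · exact hC.r2.mono (by omega)
    · exact hC.r3.mono (by omega)

/-- One step with maximal speed far ahead of the lower layers gives tips for ever. -/
theorem tips_of_jump_s (hf : Rule f) {A b K C D G s : ℕ} (hA : A % 2 = 0) (h24 : 24 ≤ A)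
    (hs8 : 8 ≤ s) (hs : s + 2 ≤ cc A + 4) (hs2 : s ≤ cc (A - 2) + 4)
    (hl1 : LinS f (A - 1) s C) (hl2 : LinS f (A - 2) s C) (hl3 : LinS f (A - 3) s C)
    (hb : b % 2 = 0) (hT : (A + b) % 4 = 2) (hAB : A + 40 ≤ b)
    (hK2 : K % 2 = 0) (hKb : s * b + D ≤ 4 * K)
    (hD : C + 4 * G + 8 * (A + 100) ≤ D) (hG : 4 * (cc A + 4) + 24 ≤ G)
    (ht : TipIso f A G) (h0 : St f A b K) (h1 : ¬ St f A (b + 4) (K + cc A + 2)) :
    ∃ m : ℕ, 2 * m = K + cc A + 2 ∧ ∀ n : ℕ,
      ¬ f A (b + 4 + 4 * n) (2 * (m + (A / 6 + 2) * n) + 1) (2 * (m + (A / 6 + 2) * n)) := by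
  have ecc : cc A = 2 * (A / 6) := by
    unfold cc
    omega
  obtain ⟨hc2, hc4, hch⟩ := cc_facts (A - 2)
  obtain ⟨hd2, hd4, hdh⟩ := cc_facts A
  have hcd : cc (A - 2) ≤ cc A := cc_mono (by omega)
  -- linear bounds
  have hb8 : 8 * b ≤ s * b := Nat.mul_le_mul_right _ hs8
  have S1 : ∀ j L : ℕ, s * (b + j) + C ≤ 4 * L → St f (A - 1) (b + j) L := fun j L h => hl1 _ _ h
  have S2 : ∀ j L : ℕ, s * (b + j) + C ≤ 4 * L → St f (A - 2) (b + j) L := fun j L h => hl2 _ _ h
  have S3 : ∀ j L : ℕ, s * (b + j) + C ≤ 4 * L → St f (A - 3) (b + j) L := fun j L h => hl3 _ _ h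
  have hexp : ∀ j : ℕ, s * (b + j) = s * b + s * j := fun j => by ring
  have hjn : ∀ n i : ℕ, i ≤ 8 → s * (4 * n + i) ≤ 4 * (s * n) + 8 * s := by
    intro n i hi
    have e : s * (4 * n + i) = 4 * (s * n) + s * i := by ring
    have := Nat.mul_le_mul_left s hi
    omega
  have hcn : ∀ n : ℕ, s * n ≤ (cc A + 4) * n := fun n => Nat.mul_le_mul_right _ (by omega)
  have hcn2 : ∀ n : ℕ, s * n ≤ (cc (A - 2) + 4) * n := fun n => Nat.mul_le_mul_right _ hs2
  -- the cycles of the layer A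
  have hC := cycles_from hf (a := A) (b := b) (K := K) (by omega) hA hb hT (by omega) hK2 h0 (by
    intro n i hi _
    have e : b + 4 * n + i = b + (4 * n + i) := by omega
    rw [e]
    refine S1 _ _ ?_
    rw [hexp]
    have := hjn n i (by omega)
    have := hcn n
    omega)
  -- the tip
  obtain ⟨m, hm⟩ : ∃ m, 2 * m = K + cc A + 2 := ⟨(K + cc A + 2) / 2, by omega⟩
  refine ⟨m, hm, ?_⟩
  have C0 := hC 0
  rw [Nat.mul_zero, Nat.mul_zero, Nat.add_zero, Nat.add_zero] at C0
  have htip : ¬ f A (b + 4) (2 * m + 1) (2 * m) := by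
    intro hcon
    apply h1
    rw [← hm]
    refine ht (b + 4) m (by omega) (by omega) (by omega) (by omega) ?_ ?_ hcon
    · have e1 : b + 4 - 4 = b := by omega
      have e2 : 2 * m - 2 - 2 * (A / 6) = K := by omega
      rw [e1, e2]
      exact C0
    · intro i hi
      have e1 : b + 4 - 4 + i = b + i := by omega
      have e2 : 2 * m - 2 - 2 * (A / 6) - G = K - G := by omega
      rw [e1, e2]
      refine S1 _ _ ?_
      rw [hexp]
      have := hjn 0 i (by omega)
      rw [Nat.mul_zero, Nat.zero_add, Nat.mul_zero] at this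
      omega
  -- the layer A - 2
  obtain ⟨K2, hK2e, hK2a, hK2b⟩ : ∃ K2 : ℕ, K2 % 2 = 0 ∧ K2 + 2 ≤ 2 * m ∧ K ≤ K2 := by
    exact ⟨2 * m - 2, by omega, by omega, by omega⟩
  obtain ⟨P, hP⟩ : ∃ P, P = K2 - (cc (A - 2) + 4) := ⟨_, rfl⟩
  have hc := cycles_from hf (a := A - 2) (b := b + 2) (K := P) (by omega) (by omega) (by omega)
    (by omega) (by omega) (by omega) (S2 2 _ (by rw [hexp]; omega)) (by
      intro n i hi _
      have e0 : A - 2 - 1 = A - 3 := by omega
      have e : b + 2 + 4 * n + i = b + (4 * n + (2 + i)) := by omega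
      rw [e0, e]
      refine S3 _ _ ?_
      rw [hexp]
      have := hjn n (2 + i) (by omega)
      have := hcn2 n
      omega)
  refine tips_all hf (A := A) (b := b + 4) (m := m) (K2 := K2) hA h24 (by omega) (by omega)
    (by omega) (by omega) hK2e hK2a (by omega) ?_ ?_ (by omega) ?_ htip
  · intro n
    have e1 : b + 4 - 4 + 4 * n = b + 4 * n := by omega
    have e2 : 2 * m - 2 - 2 * (A / 6) = K := by omega
    rw [e1, e2]
    exact hC n
  · intro n
    have e1 : b + 4 - 2 + 4 * n = b + 2 + 4 * n := by omega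
    rw [e1, ← hP]
    exact hc n
  · have e1 : b + 4 - 1 = b + 3 := by omega
    rw [e1]
    refine S1 3 _ ?_
    rw [hexp]
    omega

/-- RUNAWAY over the slope `s`. -/
theorem runaway_s (hf : Rule f) {A s C : ℕ} (hA : A % 2 = 0) (h24 : 24 ≤ A)
    (hs8 : 8 ≤ s) (hs : s + 2 = cc A + 4) (hs2 : s ≤ cc (A - 2) + 4)
    (hl1 : LinS f (A - 1) s C) (hl2 : LinS f (A - 2) s C) (hl3 : LinS f (A - 3) s C)
    (hub : ¬ ∃ M B : ℕ, ∀ b : ℕ, B ≤ b → b % 2 = 0 → (A + b) % 4 = 2 → ∀ K : ℕ,
      s * b + M ≤ 4 * K → St f A b K) : SS f A := by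
  by_contra hSS
  apply hub
  obtain ⟨C0, hl0⟩ := lin hf A
  obtain ⟨G, hG⟩ : ∃ G, G = 4 * (cc A + 4) + 24 := ⟨_, rfl⟩
  obtain ⟨D, hD⟩ : ∃ D, D = C + 4 * G + 8 * (A + 100) := ⟨_, rfl⟩
  have ht : TipIso f A G := tip_iso hf hA h24 (by omega)
  have key : ∀ b K : ℕ, b % 2 = 0 → (A + b) % 4 = 2 → A + 40 ≤ b → K % 2 = 0 →
      s * b + D ≤ 4 * K → St f A b K → St f A (b + 4) (K + cc A + 2) := by
    intro b K hb hT hAB hK2 hKb h0
    by_contra h1
    obtain ⟨m, hm, htips⟩ := tips_of_jump_s hf hA h24 hs8 (by omega) hs2 hl1 hl2 hl3 hb hT hAB hK2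
      hKb (by omega) (by omega) ht h0 h1
    apply hSS
    refine ⟨(A / 6 + 2) * (b + 4), fun B => ⟨b + 4 + 4 * B, m + (A / 6 + 2) * B, by omega, by omega,
      by omega, ?_, htips B⟩⟩
    have e : (A / 6 + 2) * (b + 4 + 4 * B) = (A / 6 + 2) * (b + 4) + 4 * ((A / 6 + 2) * B) := by
      ring
    omega
  obtain ⟨hd2, hd4, hdh⟩ := cc_facts A
  -- a start
  obtain ⟨b0, hb0a, hb0b, hb0c⟩ : ∃ b0, b0 % 2 = 0 ∧ (A + b0) % 4 = 2 ∧ A + 40 ≤ b0 := by
    have h1 : A % 4 = 0 ∨ A % 4 = 2 := by omega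
    rcases h1 with h1 | h1
    · exact ⟨A + 42, by omega, by omega, by omega⟩
    · exact ⟨A + 44 - 2, by omega, by omega, by omega⟩
  obtain ⟨K0, hK0⟩ : ∃ K0, K0 = 2 * ((cc A + 4) * b0 + C0 + D) := ⟨_, rfl⟩
  have hle : s * b0 ≤ (cc A + 4) * b0 := Nat.mul_le_mul_right _ (by omega)
  have main : ∀ t : ℕ, St f A (b0 + 4 * t) (K0 + (cc A + 2) * t) := by
    intro t
    induction t with
    | zero =>
      have h5 := hl0 b0 K0 (by omega)
      exact h5
    | succ t ih =>
      have h3 : ((cc A + 2) * t) % 2 = 0 := by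
        rw [Nat.mul_mod]
        have : (cc A + 2) % 2 = 0 := by omega
        rw [this]
        simp
      have es : s = cc A + 2 := by omega
      have e3 : s * (b0 + 4 * t) = s * b0 + 4 * ((cc A + 2) * t) := by rw [es]; ring
      have h4 := key (b0 + 4 * t) (K0 + (cc A + 2) * t) (by omega) (by omega) (by omega) (by omega)
        (by omega) ih
      refine h4.congr rfl (by omega) ?_
      have e4 : (cc A + 2) * (t + 1) = (cc A + 2) * t + cc A + 2 := by ring
      omega
  refine ⟨4 * K0, b0, ?_⟩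
  intro b hb hb2 hT K hK
  obtain ⟨t, rfl⟩ : ∃ t, b = b0 + 4 * t := ⟨(b - b0) / 4, by omega⟩
  refine (main t).mono ?_
  have es : s = cc A + 2 := by omega
  have e3 : s * (b0 + 4 * t) = s * b0 + 4 * ((cc A + 2) * t) := by rw [es]; ring
  omega

/-- The layers `6 k + 5 + 2 i`, `i ≤ 3`, have slope `2 k + 4`, unless one of the layers `6 k + 6`,
`6 k + 8`, `6 k + 10` is violated at its own speed. -/
theorem lin_top (hf : Rule f) {k : ℕ} (hk : 3 ≤ k) (j : ℕ) (hj : j ≤ 5)
    (hno : ∀ i : ℕ, i < 3 → 2 * i + 1 ≤ j → ¬ SS f (6 * k + 6 + 2 * i)) :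
    ∃ C : ℕ, LinS f (6 * k + 5 + j) (2 * k + 4) C := by
  -- strong form: all the layers `6 k + 3, .., 6 k + 5 + j`
  have base : ∀ a : ℕ, a ≤ 6 * k + 5 → ∃ C : ℕ, LinS f a (2 * k + 4) C := by
    intro a ha
    refine linS_of_lin hf ?_
    unfold cc
    omega
  induction j using Nat.strong_induction_on with
  | _ j ih =>
    have low : ∀ a : ℕ, a < 6 * k + 5 + j → ∃ C : ℕ, LinS f a (2 * k + 4) C := by
      intro a ha
      rcases Nat.lt_or_ge a (6 * k + 6) with h | h
      · exact base a (by omega)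
      · obtain ⟨j', rfl⟩ : ∃ j', a = 6 * k + 5 + j' := ⟨a - (6 * k + 5), by omega⟩
        exact ih j' (by omega) (by omega) (fun i hi hij => hno i hi (by omega))
    rcases Nat.eq_zero_or_pos j with h0 | h0
    · subst h0
      exact base _ (by omega)
    · rcases Nat.mod_two_eq_zero_or_one j with hj2 | hj2
      · obtain ⟨C, h⟩ := low (6 * k + 5 + j - 1) (by omega)
        exact linS_odd hf (by omega) (by omega) h
      · obtain ⟨i, rfl⟩ : ∃ i, j = 2 * i + 1 := ⟨j / 2, by omega⟩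
        have eA : 6 * k + 5 + (2 * i + 1) = 6 * k + 6 + 2 * i := by omega
        obtain ⟨C1, h1⟩ := low (6 * k + 5 + (2 * i + 1) - 1) (by omega)
        obtain ⟨C2, h2⟩ := low (6 * k + 5 + (2 * i + 1) - 2) (by omega)
        obtain ⟨C3, h3⟩ := low (6 * k + 5 + (2 * i + 1) - 3) (by omega)
        have hn := hno i (by omega) le_rfl
        rw [← eA] at hn
        have hcc : cc (6 * k + 5 + (2 * i + 1)) = 2 * k + 2 := by unfold cc; omega
        have hcc2 : 2 * k ≤ cc (6 * k + 5 + (2 * i + 1) - 2) := by unfold cc; omega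
        by_contra hcon
        apply hn
        refine runaway_s hf (A := 6 * k + 5 + (2 * i + 1)) (s := 2 * k + 4) (C := C1 + C2 + C3)
          (by omega) (by omega) (by omega) (by omega) (by omega) (h1.mono (by omega))
          (h2.mono (by omega)) (h3.mono (by omega)) ?_
        rintro ⟨M, B, hMB⟩
        apply hcon
        exact linS_even hf (by omega) (by omega) (by omega) h1 hMB

end Pool.Agent.SNT
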