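import Pool.Agent.SNT.TipG
import Pool.Agent.SNT.UpFin

set_option autoImplicit false
set_option maxHeartbeats 1000000

/-! Runaway: if the offset of a layer `A` over the slope of the layer `A - 1` is unbounded then the
layer `A` is violated with its own speed. -/

namespace Pool.Agent.SNT

variable {f : ℕ → ℕ → ℕ → ℕ → Prop}

/-- The tip lemma for a layer `A` whose lower neighbour is `G` columns behind. -/
def TipIso (f : ℕ → ℕ → ℕ → ℕ → Prop) (A G : ℕ) : Prop :=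
  ∀ B m : ℕ, B % 2 = 0 → (A + B) % 4 = 2 → A + 40 ≤ B → A + B + 2 * (A / 6) + 40 + G ≤ 2 * m →
    Cyc f A (B - 4) (2 * m - 2 - 2 * (A / 6)) →
    (∀ i : ℕ, i ≤ 4 → St f (A - 1) (B - 4 + i) (2 * m - 2 - 2 * (A / 6) - G)) →
    f A B (2 * m + 1) (2 * m) → St f A B (2 * m)

/-- One step with maximal speed far ahead of the lower layers gives tips for ever. -/
theorem tips_of_jump (hf : Rule f) {A b K C D G : ℕ} (hA : A % 2 = 0) (h24 : 24 ≤ A)
    (hs : cc (A - 2) + 2 ≤ cc A) (hcc : cc (A - 1) = cc (A - 2))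
    (hl1 : Lin f (A - 1) C) (hl2 : Lin f (A - 2) C) (hl3 : Lin f (A - 3) C)
    (hb : b % 2 = 0) (hT : (A + b) % 4 = 2) (hAB : A + 40 ≤ b)
    (hK2 : K % 2 = 0) (hKb : (cc (A - 2) + 4) * b + D ≤ 4 * K)
    (hD : C + 4 * G + 8 * (A + 100) ≤ D) (hG : 4 * (cc A + 4) + 24 ≤ G)
    (ht : TipIso f A G) (h0 : St f A b K) (h1 : ¬ St f A (b + 4) (K + cc A + 2)) :
    ∃ m : ℕ, 2 * m = K + cc A + 2 ∧ ∀ n : ℕ,
      ¬ f A (b + 4 + 4 * n) (2 * (m + (A / 6 + 2) * n) + 1) (2 * (m + (A / 6 + 2) * n)) := by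
  have ecc : cc A = 2 * (A / 6) := by
    unfold cc
    omega
  obtain ⟨hc2, hc4, hch⟩ := cc_facts (A - 2)
  obtain ⟨hd2, hd4, hdh⟩ := cc_facts A
  have hc3 : cc (A - 3) ≤ cc (A - 2) := cc_mono (by omega)
  -- linear bounds
  have hb8 : 8 * b ≤ (cc (A - 2) + 4) * b := Nat.mul_le_mul_right _ (by omega)
  have S1 : ∀ j L : ℕ, (cc (A - 2) + 4) * (b + j) + C ≤ 4 * L → St f (A - 1) (b + j) L := by
    intro j L h
    exact hl1 _ _ (by rw [hcc]; exact h)
  have S2 : ∀ j L : ℕ, (cc (A - 2) + 4) * (b + j) + C ≤ 4 * L → St f (A - 2) (b + j) L := by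
    intro j L h
    exact hl2 _ _ h
  have S3 : ∀ j L : ℕ, (cc (A - 2) + 4) * (b + j) + C ≤ 4 * L → St f (A - 3) (b + j) L := by
    intro j L h
    refine hl3 _ _ (le_trans (Nat.add_le_add_right (Nat.mul_le_mul_right _ (by omega)) _) h)
  have hexp : ∀ j : ℕ, (cc (A - 2) + 4) * (b + j) = (cc (A - 2) + 4) * b + (cc (A - 2) + 4) * j :=
    fun j => by ring
  have hjn : ∀ n i : ℕ, i ≤ 8 → (cc (A - 2) + 4) * (4 * n + i) ≤
      4 * ((cc (A - 2) + 4) * n) + 8 * (cc (A - 2) + 4) := by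
    intro n i hi
    have e : (cc (A - 2) + 4) * (4 * n + i) = 4 * ((cc (A - 2) + 4) * n) +
      (cc (A - 2) + 4) * i := by ring
    have := Nat.mul_le_mul_left (cc (A - 2) + 4) hi
    omega
  have hcn : ∀ n : ℕ, (cc (A - 2) + 4) * n ≤ (cc A + 4) * n :=
    fun n => Nat.mul_le_mul_right _ (by omega)
  -- the cycles of the layer A
  have hC := cycles_from hf (a := A) (b := b) (K := K) (by omega) hA hb hT (by omega) hK2 h0 (by
    intro n i hi _
    have e : b + 4 * n + i = b + (4 * n + i) := by omega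
    rw [e]
    refine S1 _ _ ?_
    rw [hexp]
    have := hjn n i (by omega)
    have := hcn n
    omega)
  -- the tip
  obtain ⟨m, hm⟩ : ∃ m, 2 * m = K + cc A + 2 := ⟨(K + cc A + 2) / 2, by omega⟩
  refine ⟨m, hm, ?_⟩
  have C0 := hC 0
  rw [Nat.mul_zero, Nat.mul_zero, Nat.add_zero, Nat.add_zero] at C0
  have htip : ¬ f A (b + 4) (2 * m + 1) (2 * m) := by
    intro hcon
    apply h1
    rw [← hm]
    refine ht (b + 4) m (by omega) (by omega) (by omega) (by omega) ?_ ?_ hcon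
    · have e1 : b + 4 - 4 = b := by omega
      have e2 : 2 * m - 2 - 2 * (A / 6) = K := by omega
      rw [e1, e2]
      exact C0
    · intro i hi
      have e1 : b + 4 - 4 + i = b + i := by omega
      have e2 : 2 * m - 2 - 2 * (A / 6) - G = K - G := by omega
      rw [e1, e2]
      refine S1 _ _ ?_
      rw [hexp]
      have := hjn 0 i (by omega)
      rw [Nat.mul_zero, Nat.zero_add, Nat.mul_zero] at this
      omega
  -- the layer A - 2
  obtain ⟨K2, hK2e, hK2a, hK2b⟩ : ∃ K2 : ℕ, K2 % 2 = 0 ∧ K2 + 2 ≤ 2 * m ∧ K ≤ K2 := by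
    exact ⟨2 * m - 2, by omega, by omega, by omega⟩
  obtain ⟨P, hP⟩ : ∃ P, P = K2 - (cc (A - 2) + 4) := ⟨_, rfl⟩
  have hc := cycles_from hf (a := A - 2) (b := b + 2) (K := P) (by omega) (by omega) (by omega)
    (by omega) (by omega) (by omega) (S2 2 _ (by rw [hexp]; omega)) (by
      intro n i hi _
      have e0 : A - 2 - 1 = A - 3 := by omega
      have e : b + 2 + 4 * n + i = b + (4 * n + (2 + i)) := by omega
      rw [e0, e]
      refine S3 _ _ ?_
      rw [hexp]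
      have := hjn n (2 + i) (by omega)
      omega)
  refine tips_all hf (A := A) (b := b + 4) (m := m) (K2 := K2) hA h24 (by omega) (by omega)
    (by omega) (by omega) hK2e hK2a (by omega) ?_ ?_ (by omega) ?_ htip
  · intro n
    have e1 : b + 4 - 4 + 4 * n = b + 4 * n := by omega
    have e2 : 2 * m - 2 - 2 * (A / 6) = K := by omega
    rw [e1, e2]
    exact hC n
  · intro n
    have e1 : b + 4 - 2 + 4 * n = b + 2 + 4 * n := by omega
    rw [e1, ← hP]
    exact hc n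
  · have e1 : b + 4 - 1 = b + 3 := by omega
    rw [e1]
    refine S1 3 _ ?_
    rw [hexp]
    omega

theorem Lin.mono {a C D : ℕ} (h : Lin f a C) (hCD : C ≤ D) : Lin f a D :=
  fun b K hb => h b K (by omega)

/-- RUNAWAY: if the thresholds of the layer `A` in its IN rows are not bounded by a line of the
slope of the layer `A - 2`, then the layer `A` has tips for ever. -/
theorem runaway_of_tip (hf : Rule f) {A G : ℕ} (hA : A % 2 = 0) (h24 : 24 ≤ A)
    (hs : cc A = cc (A - 2) + 2) (hcc : cc (A - 1) = cc (A - 2)) (hG : 4 * (cc A + 4) + 24 ≤ G)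
    (ht : TipIso f A G)
    (hub : ¬ ∃ M B : ℕ, ∀ b : ℕ, B ≤ b → b % 2 = 0 → (A + b) % 4 = 2 → ∀ K : ℕ,
      (cc (A - 2) + 4) * b + M ≤ 4 * K → St f A b K) : SS f A := by
  by_contra hSS
  apply hub
  obtain ⟨C1, hl1⟩ := lin hf (A - 1)
  obtain ⟨C2, hl2⟩ := lin hf (A - 2)
  obtain ⟨C3, hl3⟩ := lin hf (A - 3)
  obtain ⟨C0, hl0⟩ := lin hf A
  obtain ⟨C, hC⟩ : ∃ C, C = C1 + C2 + C3 := ⟨_, rfl⟩
  obtain ⟨D, hD⟩ : ∃ D, D = C + 4 * G + 8 * (A + 100) := ⟨_, rfl⟩
  have key : ∀ b K : ℕ, b % 2 = 0 → (A + b) % 4 = 2 → A + 40 ≤ b → K % 2 = 0 →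
      (cc (A - 2) + 4) * b + D ≤ 4 * K → St f A b K → St f A (b + 4) (K + cc A + 2) := by
    intro b K hb hT hAB hK2 hKb h0
    by_contra h1
    obtain ⟨m, hm, htips⟩ := tips_of_jump hf hA h24 (by omega) hcc (hl1.mono (D := C) (by omega))
      (hl2.mono (D := C) (by omega)) (hl3.mono (D := C) (by omega)) hb hT hAB hK2 hKb (by omega)
      hG ht h0 h1
    apply hSS
    refine ⟨(A / 6 + 2) * (b + 4), fun B => ⟨b + 4 + 4 * B, m + (A / 6 + 2) * B, by omega, by omega,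
      by omega, ?_, htips B⟩⟩
    have e : (A / 6 + 2) * (b + 4 + 4 * B) = (A / 6 + 2) * (b + 4) + 4 * ((A / 6 + 2) * B) := by
      ring
    omega
  obtain ⟨hd2, hd4, hdh⟩ := cc_facts A
  -- a start
  obtain ⟨b0, hb0a, hb0b, hb0c⟩ : ∃ b0, b0 % 2 = 0 ∧ (A + b0) % 4 = 2 ∧ A + 40 ≤ b0 := by
    have h1 : A % 4 = 0 ∨ A % 4 = 2 := by omega
    rcases h1 with h1 | h1
    · exact ⟨A + 42, by omega, by omega, by omega⟩
    · exact ⟨A + 44 - 2, by omega, by omega, by omega⟩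
  obtain ⟨K0, hK0⟩ : ∃ K0, K0 = 2 * ((cc A + 4) * b0 + C0 + D) := ⟨_, rfl⟩
  have hle : (cc (A - 2) + 4) * b0 ≤ (cc A + 4) * b0 := Nat.mul_le_mul_right _ (by omega)
  have main : ∀ t : ℕ, St f A (b0 + 4 * t) (K0 + (cc A + 2) * t) := by
    intro t
    induction t with
    | zero =>
      have h5 := hl0 b0 K0 (by omega)
      exact h5
    | succ t ih =>
      have h3 : ((cc A + 2) * t) % 2 = 0 := by
        rw [Nat.mul_mod]
        have : (cc A + 2) % 2 = 0 := by omega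
        rw [this]
        simp
      have e3 : (cc (A - 2) + 4) * (b0 + 4 * t) = (cc (A - 2) + 4) * b0 +
          4 * ((cc A + 2) * t) := by rw [hs]; ring
      have h4 := key (b0 + 4 * t) (K0 + (cc A + 2) * t) (by omega) (by omega) (by omega) (by omega)
        (by omega) ih
      refine h4.congr rfl (by omega) ?_
      have e4 : (cc A + 2) * (t + 1) = (cc A + 2) * t + cc A + 2 := by ring
      omega
  refine ⟨4 * K0, b0, ?_⟩
  intro b hb hb2 hT K hK
  obtain ⟨t, rfl⟩ : ∃ t, b = b0 + 4 * t := ⟨(b - b0) / 4, by omega⟩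
  refine (main t).mono ?_
  have e3 : (cc (A - 2) + 4) * (b0 + 4 * t) = (cc (A - 2) + 4) * b0 +
      4 * ((cc A + 2) * t) := by rw [hs]; ring
  omega

end Pool.Agent.SNT
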