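import Pool.Agent.SNT.ZaW
import Pool.Agent.SNT.PurW

set_option autoImplicit false

/-! The wall cells `d = 2 k - 2` of `P_(6k+1)` in the row `c + 2`, all `x ≥ 2 n + 2 k`, leads `n - 5` of `6 k`, `n - 2` of
`6 k + 2`, `n + 1` of `6 k + 4` (helper94's windows). -/

namespace Pool.Agent.SNT.ZaX2

open Pool.Agent.SNT Pool.Agent.SNT.Sig Pool.Agent.SNT.NHZ Pool.Agent.SNT.DRun Pool.Agent.SNT.Pur20

variable {f : ℕ → ℕ → ℕ → ℕ → Prop} {k b m n : ℕ}

/-- **The cell `(X - 1, X + 1 - 2 k)` of `P_(6k+1)` in the row `c + 2`**, `c = b + 22`, `X ≥ 2 n + 2 k + 1` odd: it sends a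
beam up the column `X` of `6 k + 2`, which is pure. -/
theorem p1_dw (hf : Rule f) (hs : Side k b m) (S : Stack6 f k b m 0 0 0 0 0 1) (hn : n = m + 9 + (k + 2) * 4)
    (d0 : Cyc f (6 * k) (b + 16) (2 * (n - 5) + 2)) (d2 : Cyc f (6 * k + 2) (b + 18) (2 * (n - 2) + 2))
    (d4 : Cyc f (6 * k + 4) (b + 20) (2 * (n + 1) + 2))
    (hs' : Side k (b + 4) (m + (k + 2))) (S' : Stack6 f k (b + 4) (m + (k + 2)) 0 0 0 0 0 1)
    (e2 : Cyc f (6 * k + 2) (b + 22) (2 * (n + k) + 2)) {x y : ℕ} (hx : x % 2 = 0) (hX : 2 * n + 2 * k ≤ x)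
    (hy : x + 2 = y + 2 * k) : ¬ f (6 * k + 1) (b + 24) x y := by
  intro h
  obtain ⟨X, rfl⟩ : ∃ X, x = X - 1 := ⟨x + 1, by omega⟩
  have hX1 : 2 * n + 2 * k + 1 ≤ X := by omega
  have hn' : n + (k + 2) = m + (k + 2) + 9 + (k + 2) * 4 := by omega
  have T' : NHT f k (b + 26) (2 * (n + (k + 2))) := by
    rw [hn']
    exact NHT.of_stack hs' S'
  have U' : NHU f k (b + 26) (2 * (n + (k + 2))) := by
    rw [hn']
    exact NHU.of_stack hs' S'
  have c0a : Cyc f (6 * k) (b + 26 - 10) (2 * (n + (k + 2) - (k + 7)) + 2) := by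
    rw [show b + 26 - 10 = b + 16 by omega, show n + (k + 2) - (k + 7) = n - 5 by omega]
    exact d0
  have c2 : Cyc f (6 * k + 2) (b + 26 - 4) (2 * (n + (k + 2) - 2) + 2) := by
    rw [show b + 26 - 4 = b + 22 by omega, show n + (k + 2) - 2 = n + k by omega]
    exact e2
  have c2a : Cyc f (6 * k + 2) (b + 26 - 8) (2 * (n + (k + 2) - (k + 4)) + 2) := by
    rw [show b + 26 - 8 = b + 18 by omega, show n + (k + 2) - (k + 4) = n - 2 by omega]
    exact d2
  have c4a : Cyc f (6 * k + 4) (b + 26 - 6) (2 * (n + (k + 2) - (k + 1)) + 2) := by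
    rw [show b + 26 - 6 = b + 20 by omega, show n + (k + 2) - (k + 1) = n + 1 by omega]
    exact d4
  have c6 : Cyc f (6 * k + 6) (b + 26 - 4) (2 * (n + (k + 2) - 5) + 2) := by
    have := S'.l6 4
    rw [show b + 4 + 2 + 4 * 4 = b + 26 - 4 by omega, show m + (k + 2) + 4 + 0 + (k + 2) * 4 = n + (k + 2) - 5 by omega] at this
    exact this
  obtain ⟨Y, hY⟩ : ∃ Y, Y + 2 * k = X + 3 := ⟨X + 3 - 2 * k, by omega⟩
  have g3 : f (6 * k + 2) (b + 24) X Y := by
    by_contra h0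
    refine ZaW.wa hf (X := X) T' U' c0a c2 c2a c4a c6 (by omega) (by omega) ?_ ?_
    · intro M R u v a1 a2 a3 a4
      rwa [a1, show R = b + 24 by omega, show u = X - 1 by omega, show v = y by omega]
    · intro M R u v a1 a2 a3 a4
      rwa [a1, show R = b + 24 by omega, a3, show v = Y by omega]
  have g5 : f (6 * k + 2) (b + 24) X (Y + 2) := by
    by_contra h0
    refine ZaW.wb hf (X := X) T' (by omega) (by omega) ?_ ?_
    · intro M R u v a1 a2 a3 a4
      rwa [a1, show R = b + 24 by omega, a3, show v = Y by omega]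
    · intro M R u v a1 a2 a3 a4
      rwa [a1, show R = b + 24 by omega, a3, show v = Y + 2 by omega]
  have H := PW.PW.of_stack hs S hn d0 d2 d4
  have hk := H.T.hk
  have t2 := PW.tips2_stack hf hs S hn d0 d2 d4
  have t6 := PW.tips6_stack hf hs S hn
  have h4 := run_c2 hf H.T (L := 6 * k + 2) (j := 4) (x := X) (y0 := Y + 2) (by omega) (by omega)
    (by omega) (by omega) (by omega) (by omega) (by omega) g5 (X - 7) (by omega) (by omega) (by omega)
  have a := t2 (X - 4) (by omega) (by omega)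
  have b' := t6 (X - 4) (by omega) (by omega)
  obtain ⟨s, rfl⟩ : ∃ s, X = s + 7 := ⟨X - 7, by omega⟩
  rw [show s + 7 - 4 = s + 3 by omega, show s + 3 - 1 = s + 2 by omega] at a b'
  rw [show s + 7 - 7 = s by omega] at h4
  exact LN.d4_2 hf H.toDH (by omega) (by omega) a b' h4

end Pool.Agent.SNT.ZaX2
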