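import Pool.Agent.SNT.D1SB
import Pool.Agent.SNT.D1Plug
import Pool.Agent.SNT.P1W
import Pool.Agent.SNT.INdiag
import Pool.Agent.SNT.OutD
import Pool.Agent.SNT.P1Wall
import Pool.Agent.SNT.ZaL
import Pool.Agent.SNT.ZaX
import Pool.Agent.SNT.ZaX2
import Pool.Agent.SNT.NHZone2
import Pool.Agent.SNT.Z2X
import Pool.Agent.SNT.P1Wall4

set_option autoImplicit false

/-! The zeros of `P_(6k+1)` in the rows `c'` and `c' + 2` (`c' = b + 22`) used by the strict birth of `6 k + 2`, from the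
context `Ctx` of the last three tips: the slanted zones and the walls.  `M = n + t - 4` is the lead of `6 k + 2`. -/

namespace Pool.Agent.SNT.SBC

open Pool.Agent.SNT Pool.Agent.SNT.D1 Pool.Agent.SNT.NHZ

variable {f : ℕ → ℕ → ℕ → ℕ → Prop} {k b m t : ℕ}

/-- Everything about the window in terms of `n` and `M`. -/
structure W (f : ℕ → ℕ → ℕ → ℕ → Prop) (k b m n M : ℕ) : Prop where
  hs : Side k b m
  S : Stack6 f k b m 0 0 0 0 0 1
  hn : n = m + 9 + (k + 2) * 4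
  hM : n ≤ M + 4
  hM' : M + 2 ≤ n
  d0 : Cyc f (6 * k) (b + 16) (2 * (M - 3) + 2)
  d2 : Cyc f (6 * k + 2) (b + 18) (2 * M + 2)
  d4 : Cyc f (6 * k + 4) (b + 20) (2 * (n + 1) + 2)
  hs' : Side k (b + 4) (m + (k + 2))
  S' : Stack6 f k (b + 4) (m + (k + 2)) 0 0 0 0 0 1
  e0 : Cyc f (6 * k) (b + 20) (2 * (M - 3 + (k + 2)) + 2)
  e2 : Cyc f (6 * k + 2) (b + 22) (2 * (M + (k + 2)) + 2)
  e4 : Cyc f (6 * k + 4) (b + 24) (2 * (n + 1 + (k + 2)) + 2)

theorem W.of_ctx (C : Ctx f k b m t) {n : ℕ} (hn : n = m + 9 + (k + 2) * 4) : W f k b m n (n + t - 4) := by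
  have ht := C.t2
  obtain ⟨hs, S, d0, d2, d4, -⟩ := C.win hn
  have C1 := C.shift 1
  rw [show b + 4 * 1 = b + 4 by ring, show m + (k + 2) * 1 = m + (k + 2) by ring] at C1
  obtain ⟨hs', S', e0, e2, e4, -⟩ := C1.win (n := n + (k + 2)) (by omega)
  exact ⟨hs, S, hn, by omega, by omega, cyc_of_eq d0 rfl (by omega), d2, d4, hs', S',
    cyc_of_eq e0 (by omega) (by omega), cyc_of_eq e2 (by omega) (by omega), cyc_of_eq e4 (by omega) (by omega)⟩

variable {n M : ℕ}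

theorem W.T (w : W f k b m n M) : NHT f k (b + 22) (2 * n) := by
  rw [w.hn]
  exact NHT.of_stack w.hs w.S

theorem W.U (w : W f k b m n M) : NHU f k (b + 22) (2 * n) := by
  rw [w.hn]
  exact NHU.of_stack w.hs w.S

theorem W.wm (w : W f k b m n M) : P1W.WM f k (b + 22) n M where
  T := w.T
  U := w.U
  hM := w.hM
  hM' := w.hM'
  c0 := cyc_of_eq w.d0 (by omega) rfl
  c2 := cyc_of_eq w.d2 (by omega) rfl
  c4 := cyc_of_eq w.d4 (by omega) rfl
  c0n := cyc_of_eq w.e0 (by omega) rfl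
  c2n := w.e2

/-- **the slanted zone of the IN row** (`d ≤ 2 k - 4`), the part `2 M + 2 ≤ y`. -/
theorem W.in_slant (hf : Rule f) (w : W f k b m n M)
    {x y : ℕ} (hx : x % 2 = 0) (hy : y % 2 = 0) (hyx : y ≤ x) (hd : x + 4 ≤ y + 2 * k) (h : 4 * M + 8 ≤ x + y)
    (h2 : 2 * M + 2 ≤ y) :
    ¬ f (6 * k + 1) (b + 22) x y := by
  have hk : 8 ≤ k := w.hs.1
  have hM := w.hM
  have hM' := w.hM'
  by_cases h4 : x ≤ y + 8
  · refine INdiag.in_diag hf w.hs w.S w.hn w.hM w.hM' w.d0 w.d2 w.d4 hx ?_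
    omega
  by_cases h5 : x + 6 ≤ y + 2 * k
  · exact w.T.p0i hf (j := 4) (by omega) (by omega) (Or.inr rfl) (by omega) (by omega) (by omega)
  · have e : y = x + 4 - 2 * k := by omega
    have := P1W.in4 hf w.wm (s := x) (by omega) hx
    rwa [← e] at this

/-- the cells of the wall type `d = 2 k`, `2 k + 4` of the OUT row -/
theorem W.out_wall (hf : Rule f) (w : W f k b m n M) {x y : ℕ} (hy : y % 2 = 0) (h : x = y + 2 * k ∨ x = y + 2 * k + 4)
    (hx : 2 * M + 2 * k + 4 ≤ x) : ¬ f (6 * k + 1) (b + 24) x y := by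
  obtain ⟨hk, hb2, hb4, hbl, hm⟩ := id w.hs
  have hM := w.hM
  have hM' := w.hM'
  have hn := w.hn
  have := P1Wall.wall hf (k := k) (B := b + 20) (x := x) (y := y) w.e0 (by omega) (by omega) (by omega) (by omega) (by omega)
    (by omega) (by omega)
  rwa [show b + 20 + 4 = b + 24 by ring] at this

/-- **the slanted zone of the OUT row** (`d ≤ 2 k - 4`) -/
theorem W.out_slant (hf : Rule f) (w : W f k b m n M)
    {x y : ℕ} (hx : x % 2 = 0) (hy : y % 2 = 0) (hyx : y ≤ x) (hd : x + 4 ≤ y + 2 * k) (h : 4 * M + 2 * k + 12 ≤ x + y) :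
    ¬ f (6 * k + 1) (b + 24) x y := by
  have hk : 8 ≤ k := w.hs.1
  have hM := w.hM
  have hM' := w.hM'
  have hn := w.hn
  by_cases h4 : x ≤ y + 4
  · exact OutD.out_diag hf w.hs w.S w.hn w.hM w.hM' w.d0 w.d2 w.d4 hx (by omega) h
  by_cases hy4 : 2 * n + 4 ≤ y
  · by_cases h5 : x + 6 ≤ y + 2 * k
    · exact w.T.p2 hf (j := 4) (by omega) (by omega) (Or.inr (by ring)) hy4 (by omega) (by omega)
    · obtain ⟨s, rfl⟩ : ∃ s, y = s + 4 := ⟨y - 4, by omega⟩
      have e : x = s + 2 * k := by omega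
      subst e
      exact P1W.out4 hf w.wm (s := s) (by omega) (by omega)
  · have e0 : Cyc f (6 * k) (b + 20) (2 * (n + k - 3) + 2) := Z8.cyc_mono w.e0 (by omega)
    have d0 : Cyc f (6 * k) (b + 16) (2 * (n - 6) + 2) := Z8.cyc_mono w.d0 (by omega)
    have d2 : Cyc f (6 * k + 2) (b + 18) (2 * (n - 3) + 2) := Z8.cyc_mono w.d2 (by omega)
    have hy' : y = 2 * n + 2 ∨ y = 2 * n := by omega
    rcases hy' with rfl | rfl
    · exact Za.line2_3 hf w.hs w.S w.hn d0 d2 w.d4 e0 hx (by omega) (by omega)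
    · exact Za.line0_3 hf w.hs w.S w.hn d0 d2 w.d4 e0 hx (by omega) (by omega)

/-- **`PZ`** -/
theorem W.pz (hf : Rule f) (w : W f k b m n M) : PZ f k b M where
  i1 := fun x y hx hy hyx hd h h2 => w.in_slant hf hx hy hyx hd h h2
  i2 := by
    intro x y hx h1 h2
    obtain ⟨s, rfl⟩ : ∃ s, y = s + 2 := ⟨y - 2, by have := w.hs.1; omega⟩
    have e : x = s + 2 * k := by omega
    subst e
    exact P1W.in2 hf w.wm (s := s) (by omega) (by omega)
  i3 := by
    intro x y hx h1 h2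
    subst h1
    exact P1W.in0 hf w.wm (s := y) (by omega) (by omega)
  i4 := by
    intro x y hx h1 h2
    have := P1W.inm2 hf w.wm (s := y + 2) (by omega) (by omega)
    rw [show y + 2 + 2 * k = x by omega, show y + 2 - 2 = y by omega] at this
    exact this
  i5 := INdiag.in_diag hf w.hs w.S w.hn w.hM w.hM' w.d0 w.d2 w.d4 (by omega) (by omega)
  i6 := INdiag.in_diag hf w.hs w.S w.hn w.hM w.hM' w.d0 w.d2 w.d4 (by omega) (by omega)
  o1 := fun x y hx hy hyx hd h => w.out_slant hf hx hy hyx hd h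
  o2 := by
    intro x y hx h1 h2
    have hM := w.hM
    have hM' := w.hM'
    have hn := w.hn
    have hk : 8 ≤ k := w.hs.1
    by_cases h3 : 2 * n + 2 * k ≤ x
    · exact ZaX2.p1_dw hf w.hs w.S w.hn (Z8.cyc_mono w.d0 (by omega)) (Z8.cyc_mono w.d2 (by omega)) w.d4 w.hs' w.S'
        (Z8.cyc_mono w.e2 (by omega)) hx h3 h1
    · have := Z2X.p1_0w hf w.hs w.S w.hn (Z8.cyc_mono w.d0 (by omega)) (Z8.cyc_mono w.d2 (by omega)) w.d4
      rwa [show 2 * n + 2 * k - 2 = x by omega, show 2 * n = y by omega] at this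
  o3 := fun x y hx h1 h2 => w.out_wall hf (by omega) (Or.inl h1) (by omega)
  o4 := by
    intro x y hx h1 h2
    have hM := w.hM
    have hn := w.hn
    exact P1Wall4.o4 hf w.hs (cyc_of_eq w.e0 rfl (by omega)) (by omega) h1 hx h2
  o5 := fun x y hx h1 h2 => w.out_wall hf (by omega) (Or.inr h1) (by omega)

/-- The cells of `PX` which are not yet covered. -/
structure RX (f : ℕ → ℕ → ℕ → ℕ → Prop) (k b M : ℕ) : Prop where
  l1 : ∀ x : ℕ, x % 2 = 0 → 2 * M + 6 ≤ x → x ≤ 2 * M + 2 * k + 4 → ¬ f (6 * k + 1) (b + 24) x (2 * M + 6)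
  l2 : ¬ f (6 * k + 1) (b + 24) (2 * M + 4) (2 * M + 4)
  l3 : ¬ f (6 * k + 1) (b + 24) (2 * M + 6) (2 * M + 4)

/-- **`PX`** -/
theorem W.px (hf : Rule f) (w : W f k b m n M) (a2 : ¬ f (6 * k + 1) (b + 22) (2 * M + 2 * k) (2 * M + 2))
    (a3 : ¬ f (6 * k + 1) (b + 22) (2 * M + 2 * k + 2) (2 * M + 4)) (r : RX f k b M) : PX f k b M where
  a1 := INdiag.in_diag hf w.hs w.S w.hn w.hM w.hM' w.d0 w.d2 w.d4 (by omega) (by omega)
  a2 := a2
  a3 := a3
  a5 := by
    have := P1W.inm2 hf w.wm (s := 2 * M + 2) (by omega) (by omega)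
    rw [show 2 * M + 2 + 2 * k = 2 * M + 2 * k + 2 by omega, show 2 * M + 2 - 2 = 2 * M by omega] at this
    exact this
  a6 := by
    have := P1W.inm2 hf w.wm (s := 2 * M + 4) (by omega) (by omega)
    rw [show 2 * M + 4 + 2 * k = 2 * M + 2 * k + 4 by omega, show 2 * M + 4 - 2 = 2 * M + 2 by omega] at this
    exact this
  l1 := r.l1
  l2 := r.l2
  l3 := r.l3
  l4 := w.out_wall hf (by omega) (Or.inl (by omega)) (by omega)

end Pool.Agent.SNT.SBC
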