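import Pool.Agent.SNT.SBPlug
import Pool.Agent.SNT.ZaX
import Pool.Agent.SNT.Z2X
import Pool.Agent.SNT.O2W
import Pool.Agent.SNT.PurV
import Pool.Agent.SNT.P1M
import Pool.Agent.SNT.P2M
import Pool.Agent.SNT.OutE0

set_option autoImplicit false

/-! The pairs of the columns `2 M - 1`, `2 M + 1`, `2 M + 3` of `6 k` in the row `c - 2` over the context. -/

namespace Pool.Agent.SNT.D1

open Pool.Agent.SNT

variable {f : ℕ → ℕ → ℕ → ℕ → Prop} {k b m n M t : ℕ}

/-- the last cell of the line `y = 2 M + 6` -/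
theorem l1_last (hf : Rule f) (w : SBC.W f k b m n M) :
    ¬ f (6 * k + 1) (b + 24) (2 * M + 2 * k + 4) (2 * M + 6) := by
  have hM := w.hM
  have hM' := w.hM'
  have hn := w.hn
  have hk : 8 ≤ k := w.hs.1
  have e : M + 2 = n ∨ M + 3 = n ∨ M + 4 = n := by omega
  rcases e with e | e | e
  · have := ZaX.p1_2w hf w.hs w.S w.hn (Z8.cyc_mono w.d0 (by omega)) (Z8.cyc_mono w.d2 (by omega)) w.d4 w.hs' w.S'
      (Z8.cyc_mono w.e2 (by omega))
    rwa [show 2 * n + 2 * k = 2 * M + 2 * k + 4 by omega, show 2 * n + 2 = 2 * M + 6 by omega] at this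
  · have := Z2X.p1_0w hf w.hs w.S w.hn (Z8.cyc_mono w.d0 (by omega)) (Z8.cyc_mono w.d2 (by omega)) w.d4
    rwa [show 2 * n + 2 * k - 2 = 2 * M + 2 * k + 4 by omega, show 2 * n = 2 * M + 6 by omega] at this
  · have := O2W.out2_wall hf w.hs w.S w.hn (Z8.cyc_mono w.d0 (by omega)) (Z8.cyc_mono w.d2 (by omega)) w.d4
      (fun x h1 h2 h3 => (PV.purity_stack hf w.hs w.S w.hn (Z8.cyc_mono w.d0 (by omega)) (Z8.cyc_mono w.d2 (by omega)) w.d4 h1
        (by omega) (by omega)).1)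
      (fun x h1 h2 h3 => (PV.purity_stack hf w.hs w.S w.hn (Z8.cyc_mono w.d0 (by omega)) (Z8.cyc_mono w.d2 (by omega)) w.d4 h1
        (by omega) (by omega)).2) (x := 2 * M + 2 * k + 4) (by omega) (by omega) (by omega)
    rwa [show 2 * n - 2 = 2 * M + 6 by omega] at this

/-- **The pair of the columns `2 M - 1`, `2 M + 1`** (third cells), in the cycle `i + 1`. -/
theorem CtxE.p2 (hf : Rule f) (C : CtxE f k b m t) (i : ℕ) :
    f (6 * k) (b + 4 * (i + 1) + 20) (2 * ml k m t (i + 1) - 1) (2 * ml k m t (i + 1) + 4 - 2 * k) ∨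
      f (6 * k) (b + 4 * (i + 1) + 20) (2 * ml k m t (i + 1) + 1) (2 * ml k m t (i + 1) + 6 - 2 * k) := by
  have H := C.C.plw (i + 1)
  have w := C.w (i + 1)
  have v := C.w i
  have e := ml_succ1 k m t i
  have e1 : nn k m (i + 1) = nn k m i + (k + 2) := by
    unfold nn
    ring
  have hM := v.hM
  have hM' := v.hM'
  have hk : 8 ≤ k := v.hs.1
  have hN := H.T.hN2
  have hb : b + 4 * (i + 1) + 22 - 2 = b + 4 * (i + 1) + 20 := by omega
  have hb' : b + 4 * i + 24 = b + 4 * (i + 1) + 20 := by ring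
  have z1 := l1_last hf v
  have pz := v.pz hf
  by_contra hg
  have g2 : ¬ f (6 * k) (b + 4 * (i + 1) + 20) (2 * ml k m t (i + 1) - 1) (2 * ml k m t (i + 1) + 4 - 2 * k) :=
    fun h => hg (Or.inl h)
  have g1 : ¬ f (6 * k) (b + 4 * (i + 1) + 20) (2 * ml k m t (i + 1) + 1) (2 * ml k m t (i + 1) + 6 - 2 * k) :=
    fun h => hg (Or.inr h)
  refine P2M.p2 hf H w.hM' (cyc_of_eq v.d0 (by omega) (by omega)) (cyc_of_eq v.d2 (by omega) (by omega))
    (cyc_of_eq v.d4 (by omega) (by omega)) ?_ ?_ ?_ ?_ ?_ ?_ ?_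
  · rw [hb]
    exact C.e0 (i + 1)
  · rw [hb, ← hb']
    rwa [show 2 * ml k m t i + 2 * k + 4 = 2 * ml k m t (i + 1) by omega,
      show 2 * ml k m t i + 6 = 2 * ml k m t (i + 1) + 2 - 2 * k by omega] at z1
  · rw [hb, ← hb']
    exact pz.o1 _ _ (by omega) (by omega) (by omega) (by omega) (by omega)
  · rw [hb, ← hb']
    exact pz.o2 _ _ (by omega) (by omega) (by omega)
  · rw [hb, ← hb']
    exact pz.o1 _ _ (by omega) (by omega) (by omega) (by omega) (by omega)
  · rwa [hb]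
  · rwa [hb]

/-- the pair of the columns `2 M + 1`, `2 M + 3` at the distance `7`, in the cycle `R` -/
def PairA (f : ℕ → ℕ → ℕ → ℕ → Prop) (k t R : ℕ) : Prop := ∀ b m : ℕ, CtxE f k b m t →
  f (6 * k) (b + 4 * R + 20) (2 * ml k m t R + 1) (2 * ml k m t R - 6) ∨
    f (6 * k) (b + 4 * R + 20) (2 * ml k m t R + 3) (2 * ml k m t R - 4)

/-- the pair of the columns `2 M - 1`, `2 M + 1` at the distance `7`, in the cycle `R` -/
def PairB (f : ℕ → ℕ → ℕ → ℕ → Prop) (k t R : ℕ) : Prop := ∀ b m : ℕ, CtxE f k b m t →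
  f (6 * k) (b + 4 * R + 20) (2 * ml k m t R - 1) (2 * ml k m t R - 8) ∨
    f (6 * k) (b + 4 * R + 20) (2 * ml k m t R + 1) (2 * ml k m t R - 6)

theorem CtxE.q (hf : Rule f) (C : CtxE f k b m t) (i : ℕ) :
    OutE.Q f k (b + 4 * (i + 1) + 22) (nn k m (i + 1)) (ml k m t (i + 1)) := by
  have H := C.C.plw (i + 1)
  have v := C.w i
  have e := ml_succ1 k m t i
  have e1 : nn k m (i + 1) = nn k m i + (k + 2) := by
    unfold nn
    ring
  have hM := v.hM
  have hM' := v.hM'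
  have hk : 8 ≤ k := v.hs.1
  have hN := H.T.hN2
  have pz := v.pz hf
  have pw := (C.w (i + 1)).pz hf
  refine { toPL := H, c0p := cyc_of_eq v.d0 (by omega) (by omega), c2p := cyc_of_eq v.d2 (by omega) (by omega),
           c4p := cyc_of_eq v.d4 (by omega) (by omega), PO := ?_, PI := ?_, PC := ?_ }
  · intro x y h1 h2 h3 h4 h5
    rw [show b + 4 * (i + 1) + 22 - 2 = b + 4 * i + 24 by omega]
    exact pz.o1 x y h1 h2 h3 h4 (by omega)
  · intro x y h1 h2 h3 h4 h5 h6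
    rw [show b + 4 * (i + 1) + 22 - 4 = b + 4 * i + 22 by omega]
    exact pz.i1 x y h1 h2 h3 h4 (by omega) (by omega)
  · exact pw.i1

/-- **`PairB`** -/
theorem pairB (hf : Rule f) {i : ℕ} : PairB f k t (i + 1) := by
  intro b m C
  have Q := C.q hf i
  have hk : 8 ≤ k := (C.w i).hs.1
  have hN := Q.T.hN2
  have hM := Q.hM
  have hb : b + 4 * (i + 1) + 22 - 2 = b + 4 * (i + 1) + 20 := by omega
  rcases C.p2 hf i with h | h
  · refine Or.inl ?_
    rw [← hb] at h ⊢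
    exact OutE.run_m1 hf Q (by omega) (by omega) h _ (by omega) (by omega) (by omega)
  · refine Or.inr ?_
    rw [← hb] at h ⊢
    exact OutE.run_p1 hf Q (by omega) (by omega) h _ (by omega) (by omega) (by omega)

/-- `PairA` from the third cells -/
theorem pairA_of (hf : Rule f) {i : ℕ} (P : ∀ b m : ℕ, CtxE f k b m t →
    f (6 * k) (b + 4 * (i + 1) + 20) (2 * ml k m t (i + 1) + 1) (2 * ml k m t (i + 1) + 6 - 2 * k) ∨
      f (6 * k) (b + 4 * (i + 1) + 20) (2 * ml k m t (i + 1) + 3) (2 * ml k m t (i + 1) + 8 - 2 * k)) :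
    PairA f k t (i + 1) := by
  intro b m C
  have Q := C.q hf i
  have hk : 8 ≤ k := (C.w i).hs.1
  have hN := Q.T.hN2
  have hM := Q.hM
  have hb : b + 4 * (i + 1) + 22 - 2 = b + 4 * (i + 1) + 20 := by omega
  rcases P b m C with h | h
  · refine Or.inl ?_
    rw [← hb] at h ⊢
    exact OutE.run_p1 hf Q (by omega) (by omega) h _ (by omega) (by omega) (by omega)
  · refine Or.inr ?_
    rw [← hb] at h ⊢
    exact OutE.run_p3 hf Q (by omega) (by omega) h _ (by omega) (by omega) (by omega)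

/-- the third cells of the columns `2 M + 1`, `2 M + 3`, in the cycle `i + 1` -/
theorem CtxE.p1 (hf : Rule f) (C : CtxE f k b m t) (i : ℕ) :
    f (6 * k) (b + 4 * (i + 1) + 20) (2 * ml k m t (i + 1) + 1) (2 * ml k m t (i + 1) + 6 - 2 * k) ∨
      f (6 * k) (b + 4 * (i + 1) + 20) (2 * ml k m t (i + 1) + 3) (2 * ml k m t (i + 1) + 8 - 2 * k) := by
  have H := C.C.plw (i + 1)
  have v := C.w i
  have e := ml_succ1 k m t i
  have hM := v.hM
  have hM' := v.hM'
  have hk : 8 ≤ k := v.hs.1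
  have hN := H.T.hN2
  have hb : b + 4 * (i + 1) + 22 - 2 = b + 4 * (i + 1) + 20 := by omega
  have hb' : b + 4 * i + 24 = b + 4 * (i + 1) + 20 := by ring
  have pz := v.pz hf
  by_contra hg
  have g1 : ¬ f (6 * k) (b + 4 * (i + 1) + 20) (2 * ml k m t (i + 1) + 1) (2 * ml k m t (i + 1) + 6 - 2 * k) :=
    fun h => hg (Or.inl h)
  have g2 : ¬ f (6 * k) (b + 4 * (i + 1) + 20) (2 * ml k m t (i + 1) + 3) (2 * ml k m t (i + 1) + 8 - 2 * k) :=
    fun h => hg (Or.inr h)
  refine P1M.p1 hf H ?_ ?_ ?_ ?_ ?_ ?_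
  · rw [hb, ← hb']
    exact pz.o2 _ _ (by omega) (by omega) (by omega)
  · rw [hb, ← hb']
    exact pz.o1 _ _ (by omega) (by omega) (by omega) (by omega) (by omega)
  · rw [hb, ← hb']
    exact pz.o2 _ _ (by omega) (by omega) (by omega)
  · rw [hb, ← hb']
    exact pz.o1 _ _ (by omega) (by omega) (by omega) (by omega) (by omega)
  · rwa [hb]
  · rwa [hb]

/-- **`PairA`** -/
theorem pairA (hf : Rule f) {i : ℕ} : PairA f k t (i + 1) :=
  pairA_of hf fun _ _ C => C.p1 hf i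

end Pool.Agent.SNT.D1
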