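import Pool.Agent.SNT.BirthE
import Pool.Agent.SNT.SHoleB

set_option autoImplicit false

/-! The birth lemma for a layer `A` over a layer `A - 1` which is NOT zero: only the cells of
the layer `A - 1` which are really used have to be zero (helper44).

`SPer f A b n`: one period (`b` an IN row, `(2 n + 1, 2 n)` the missing tip, `h = A / 6`), as `FPer`, with
* `lowN`: the cells of `A - 1` which are not all even are zero;
* `lowE`: all even cells of the rows `b`, `b + 2` are zero in the slanted zone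
  `4 n + (h + 2) r ≤ x + y + 4 h + 1` (row `b + r`), where `x ≤ y + 2 h - 4`, or `x = y + 2 h - 2`
  and `2 n ≤ x`, or `x = y + 2 h` and `2 n + 2 ≤ x`, or a little beyond the strip;
* `lowI`: the cells `(2 n - 2 h - 2, 2 n - 2 h - 2)` and `(2 n - 2 h, 2 n - 2 h - 2)` of the IN row. -/

namespace Pool.Agent.SNT

variable {f : ℕ → ℕ → ℕ → ℕ → Prop}

/-- One period of an exact front of the even layer `A` (`h = A / 6`): `b` is an IN row
(`(A + b) % 4 = 2`) and `(2 n + 1, 2 n)` is the leading missing cell. -/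
structure SPer (f : ℕ → ℕ → ℕ → ℕ → Prop) (A b n : ℕ) : Prop where
  tip : ¬ f A b (2 * n + 1) (2 * n)
  s0 : ∀ x y : ℕ, y ≤ x → 2 * n + 2 ≤ x → (x < y + 2 * (A / 6) ∨ 2 * n + 3 ≤ x) →
    (f A b x y ↔ Fst A b x y)
  s1 : ∀ x y : ℕ, y ≤ x → 2 * n + 3 ≤ x → (x < y + 2 * (A / 6) ∨ 2 * n + 5 ≤ x) →
    (f A (b + 1) x y ↔ Fst A (b + 1) x y)
  s2 : ∀ x y : ℕ, y ≤ x → (x < y + 2 * (A / 6) ∧ 2 * n + 4 ≤ y ∨
    y + 2 * (A / 6) ≤ x ∧ 2 * n + 7 ≤ x) → (f A (b + 2) x y ↔ Fst A (b + 2) x y)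
  s3 : ∀ x y : ℕ, y ≤ x → (x < y + 2 * (A / 6) ∧ 2 * n + 6 ≤ y ∨
    y + 2 * (A / 6) ≤ x ∧ 2 * n + 2 * (A / 6) + 5 ≤ x) → (f A (b + 3) x y ↔ Fst A (b + 3) x y)
  lowN : ∀ r x y : ℕ, r ≤ 3 → (r % 2 = 1 ∨ x % 2 = 1 ∨ y % 2 = 1) → y ≤ x →
    x ≤ y + 2 * (A / 6) + 8 → 2 * n ≤ x + 2 * (A / 6) + 8 → ¬ f (A - 1) (b + r) x y
  lowE : ∀ r x y : ℕ, (r = 0 ∨ r = 2) → (x % 2 = 0 ∧ y % 2 = 0) → y ≤ x →
    4 * n + (A / 6 + 2) * r ≤ x + y + 4 * (A / 6) + 1 →
    (x + 4 ≤ y + 2 * (A / 6) ∧ (r = 2 ∨ 2 * n ≤ y + 2 * (A / 6) + 2) ∨ x + 2 = y + 2 * (A / 6) ∧ 2 * n ≤ x ∨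
      x = y + 2 * (A / 6) ∧ 2 * n + 2 ≤ x ∨
      x = y + 2 * (A / 6) + 2 ∧ (r = 0 ∧ 2 * n + 2 ≤ x ∨ r = 2 ∧ 2 * n + 2 * (A / 6) ≤ x) ∨
      x = y + 2 * (A / 6) + 4 ∧ r = 2 ∧ 2 * n + 2 * (A / 6) + 2 ≤ x) →
    ¬ f (A - 1) (b + r) x y
  lowI : ∀ x y : ℕ, y + 2 * (A / 6) + 2 = 2 * n → (x = y ∨ x = y + 2) → ¬ f (A - 1) b x y

namespace Hole

/-- Level form of the static region, rows `0 … 3` of one period.  The cell `(2 n + 1, 2 n + 1)` of
row `0` is excluded. -/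
theorem _root_.Pool.Agent.SNT.SPer.lev {A b n : ℕ} (P : SPer f A b n) (h2 : 3 ≤ A / 6) {r x y : ℕ}
    (hr : r ≤ 3) (hyx : y ≤ x) (hx : r = 0 → y < x)
    (hl : 4 * n + 1 + (A / 6 + 2) * r < x + y) : f A (b + r) x y ↔ Fst A (b + r) x y := by
  have e : r = 0 ∨ r = 1 ∨ r = 2 ∨ r = 3 := by omega
  rcases e with rfl | rfl | rfl | rfl
  · exact P.s0 x y hyx (by omega) (by omega)
  · exact P.s1 x y hyx (by omega) (by omega)
  · exact P.s2 x y hyx (by omega)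
  · exact P.s3 x y hyx (by omega)

/-- The cell `(2 n + 1, 2 n + 1)` of row `0` is zero. -/
theorem sdiag0 (hf : Rule f) {A b n : ℕ} (hA : A % 2 = 0) (hb : (A + b) % 4 = 2)
    (hb2 : A + 20 ≤ b) (h2 : 3 ≤ A / 6) (P : SPer f A b n) :
    ¬ f A (b + 4) (2 * (n + A / 6 + 2) + 1) (2 * (n + A / 6 + 2) + 1) := by
  have h3 : f A (b + 3) (2 * (n + A / 6 + 2) + 1) (2 * (n + A / 6 + 2) + 1) := by
    rw [P.s3 _ _ le_rfl (by omega), fst_iff_Fx hA (by omega) hb (by omega) hb2 le_rfl (by omega)]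
    unfold Fx
    omega
  exact kill_gen hf h3 (by omega)

/-- The zone of the rule. -/
def Zn (h m k x y : ℕ) : Prop :=
  x / 2 + 2 ≤ y / 2 + h ∧ (k = 2 ∨ k = 3 ∨ m ≤ y / 2 + 1) ∨
  x / 2 + 1 = y / 2 + h ∧ (k ≤ 3 ∧ m ≤ x / 2 + 2 ∨ m + h ≤ x / 2) ∨
  x / 2 = y / 2 + h ∧ (k ≤ 3 ∧ m ≤ x / 2 + 1 ∨ m + h + 1 ≤ x / 2) ∨
  x / 2 = y / 2 + h + 1 ∧ (k ≤ 1 ∧ m ≤ x / 2 + 1 ∨ (k = 2 ∨ k = 3) ∧ m + h ≤ x / 2 + 1 ∨
    (k = 4 ∨ k = 5) ∧ m + h + 1 ≤ x / 2) ∨
  x / 2 = y / 2 + h + 2 ∧ (k = 2 ∨ k = 3) ∧ m + h ≤ x / 2 + 1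

/-- The layer below is zero around a cell of the zone: `P0`, `P1` two consecutive periods,
rows `b + k`, `k ≤ 6`. -/
theorem zone_low (hf : Rule f) {A b n : ℕ} (P0 : SPer f A b n)
    (P1 : SPer f A (b + 4) (n + A / 6 + 2)) {k x y q r s : ℕ} (hk1 : 1 ≤ k) (hk : k ≤ 6)
    (hx1 : 1 ≤ x) (hy1 : 1 ≤ y) (hyx : y ≤ x) (hd : x ≤ y + 2 * (A / 6) + 6)
    (hl : 4 * (n + 2) + 1 + (A / 6 + 2) * k ≤ x + y + 4 * (A / 6 + 2))
    (hz : Zn (A / 6) (n + 2) k x y) (hq : q ≤ 1) (hr : r ≤ 1) (hs : s ≤ 1) :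
    ¬ f (A - 1) (b + (k - q)) (x - r) (y - s) := by
  have key : ∀ X Y : ℕ, Y ≤ X → X ≤ Y + 2 * (A / 6) + 8 → x + y ≤ X + Y + 2 → X + Y ≤ x + y →
      ((k - q) % 2 = 0 → X % 2 = 0 → Y % 2 = 0 → X = 2 * (x / 2) ∧ Y = 2 * (y / 2)) →
      ¬ f (A - 1) (b + (k - q)) X Y := by
    intro X Y h1 h2 h3 h3' h4
    by_cases hE : (k - q) % 2 = 0 ∧ X % 2 = 0 ∧ Y % 2 = 0
    · obtain ⟨h5, h6⟩ := h4 hE.1 hE.2.1 hE.2.2
      have hk' : (A / 6 + 2) * (k - q) = (A / 6 + 2) * k - (A / 6 + 2) * q := Nat.mul_sub _ _ _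
      have hq2 : q = 0 ∨ q = 1 := by omega
      have hz' : X + 4 ≤ Y + 2 * (A / 6) ∧ (k = 2 ∨ k = 3 ∨ 2 * n + 2 ≤ Y) ∨
          X + 2 = Y + 2 * (A / 6) ∧ (k ≤ 3 ∧ 2 * n ≤ X ∨ 2 * (n + A / 6 + 2) ≤ X) ∨
          X = Y + 2 * (A / 6) ∧ (k ≤ 3 ∧ 2 * n + 2 ≤ X ∨ 2 * (n + A / 6 + 2) + 2 ≤ X) ∨
          X = Y + 2 * (A / 6) + 2 ∧ (k ≤ 1 ∧ 2 * n + 2 ≤ X ∨
            (k = 2 ∨ k = 3) ∧ 2 * n + 2 * (A / 6) + 2 ≤ X ∨
            (k = 4 ∨ k = 5) ∧ 2 * (n + A / 6 + 2) + 2 ≤ X) ∨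
          X = Y + 2 * (A / 6) + 4 ∧ (k = 2 ∨ k = 3) ∧ 2 * n + 2 * (A / 6) + 2 ≤ X := by
        clear hk' hl hd hyx h1 h2 h3 h3' h4
        rcases hz with ⟨g, g'⟩ | ⟨g, g'⟩ | ⟨g, g'⟩ | ⟨g, g'⟩ | ⟨g, g1, g2⟩
        · exact Or.inl (by omega)
        · refine Or.inr (Or.inl ⟨by clear g'; omega, ?_⟩)
          rcases g' with ⟨g1, g2⟩ | g1
          · exact Or.inl ⟨g1, by omega⟩
          · exact Or.inr (by omega)
        · refine Or.inr (Or.inr (Or.inl ⟨by clear g'; omega, ?_⟩))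
          rcases g' with ⟨g1, g2⟩ | g1
          · exact Or.inl ⟨g1, by omega⟩
          · exact Or.inr (by omega)
        · refine Or.inr (Or.inr (Or.inr (Or.inl ⟨by clear g'; omega, ?_⟩)))
          rcases g' with ⟨g1, g2⟩ | ⟨g1, g2⟩ | ⟨g1, g2⟩
          · exact Or.inl ⟨g1, by omega⟩
          · exact Or.inr (Or.inl ⟨g1, by clear g1; omega⟩)
          · exact Or.inr (Or.inr ⟨g1, by clear g1; omega⟩)
        · exact Or.inr (Or.inr (Or.inr (Or.inr ⟨by clear g1; omega, g1, by clear g1; omega⟩)))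
      clear hz
      have e : k - q = 0 ∨ k - q = 2 ∨ k - q = 4 ∨ k - q = 6 := by clear hz'; omega
      have hsl : 4 * n + (A / 6 + 2) * (k - q) ≤ X + Y + 4 * (A / 6) + 1 := by
        clear hz' e
        rcases hq2 with rfl | rfl
        · omega
        · rw [hk']
          omega
      rcases e with e | e | e | e
      · rw [e] at hsl ⊢
        refine P0.lowE 0 X Y (by omega) (by omega) h1 (by omega) ?_
        rcases hz' with ⟨g, g'⟩ | ⟨g, g' | g'⟩ | ⟨g, g' | g'⟩ | ⟨g, g' | g' | g'⟩ | ⟨g, g', g''⟩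
        all_goals omega
      · rw [e] at hsl ⊢
        refine P0.lowE 2 X Y (by omega) (by omega) h1 (by omega) ?_
        rcases hz' with ⟨g, g'⟩ | ⟨g, g' | g'⟩ | ⟨g, g' | g'⟩ | ⟨g, g' | g' | g'⟩ | ⟨g, g', g''⟩
        all_goals omega
      · rw [e] at hsl ⊢
        have e2 : b + 4 = b + 4 + 0 := rfl
        rw [e2]
        refine P1.lowE 0 X Y (by omega) (by omega) h1 (by omega) ?_
        rcases hz' with ⟨g, g'⟩ | ⟨g, g' | g'⟩ | ⟨g, g' | g'⟩ | ⟨g, g' | g' | g'⟩ | ⟨g, g', g''⟩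
        all_goals omega
      · rw [e] at hsl ⊢
        have e2 : b + 6 = b + 4 + 2 := rfl
        rw [e2]
        refine P1.lowE 2 X Y (by omega) (by omega) h1 (by omega) ?_
        rcases hz' with ⟨g, g'⟩ | ⟨g, g' | g'⟩ | ⟨g, g' | g'⟩ | ⟨g, g' | g' | g'⟩ | ⟨g, g', g''⟩
        all_goals omega
    · have hn : 2 * n + 4 ≤ X + 2 * (A / 6) + 8 + 4 := by
        have := Nat.zero_le ((A / 6 + 2) * k)
        omega
      rcases Nat.lt_or_ge (k - q) 4 with h5 | h5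
      · exact P0.lowN _ X Y (by omega) (by omega) h1 h2 (by omega)
      · obtain ⟨t, ht⟩ : ∃ t, k - q = 4 + t := ⟨k - q - 4, by omega⟩
        have e2 : b + (4 + t) = b + 4 + t := by ring
        rw [ht, e2]
        have h6 : (A / 6 + 2) * k = (A / 6 + 2) * 4 + (A / 6 + 2) * (k - 4) := by
          rw [← Nat.mul_add]
          congr 1
          omega
        have := Nat.zero_le ((A / 6 + 2) * (k - 4))
        exact P1.lowN _ X Y (by omega) (by omega) h1 h2 (by omega)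
  rcases Nat.lt_or_ge (x - r) (y - s) with h1 | h1
  · rw [hf.swap_xy]
    exact key (y - s) (x - r) (by omega) (by omega) (by omega) (by omega) (by omega)
  · exact key (x - r) (y - s) h1 (by omega) (by omega) (by omega) (by omega)

theorem tips_of (hf : Rule f) {A b n : ℕ} (hA : A % 2 = 0) (h2 : 2 ≤ A / 6)
    (hm : 2 ≤ n) (hb : (A + b) % 4 = 2) (hb2 : A + 20 ≤ b)
    (st : ∀ k x y : ℕ, k ≤ 6 → y + (1 - k) ≤ x → x ≤ y + 2 * (A / 6) + 8 →
      4 * (n + 2) + 4 * (A / 6) + 1 + (A / 6 + 2) * k < x + y + 4 * (A / 6 + 2) →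
      (f A (b + k) x y ↔ Fst A (b + k) x y))
    (P0 : SPer f A b n) (P1 : SPer f A (b + 4) (n + A / 6 + 2)) :
    TipS (fun k x y => f A (b + k) x y) (A / 6) (n + 2) where
  hh := h2
  hm := by omega
  kill := by
    intro k x y k' x' y' hg hn
    exact kill_gen hf hg ⟨by omega, by omega, by omega, by omega, by omega, by omega, by omega,
      by omega, by omega⟩
  ev := by
    intro k x y he hg
    exact hf.not_allEven hg ⟨hA, by omega, he.2.1, he.2.2⟩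
  sym := by
    intro k x y hg
    exact (hf.swap_xy _ _ _ _).1 hg
  rule := by
    intro k x y k1 x1 y1 e hz g1 g2 g3 g4 g5 g6 g7
    obtain ⟨rfl, rfl, rfl⟩ := e
    obtain ⟨z1, z2, z3, z4, z5, z6⟩ := hz
    refine rule_gen (b1 := b + k1) (x1 := x1) (y1 := y1) hf ⟨by omega, rfl, rfl⟩ (by omega) ?_
      g1 g2 g3 g4 g5 g6 g7
    intro q r s hq hr hs
    have e0 : b + k1 + 1 - q = b + (k1 + 1 - q) := by omega
    rw [e0]
    exact zone_low hf P0 P1 (by omega) z1 (by omega) (by omega) z3 z4 z5 z6 hq hr hs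
  st := by
    intro k x y hz
    obtain ⟨z1, z2, z3, z4⟩ := hz
    rw [← fst_iff_Fx hA (by omega) hb (by omega) hb2 (by omega) z3]
    exact st k x y z1 z2 z3 z4

/-- Three periods of the front of layer `A` give the abstract structure. -/
theorem _root_.Pool.Agent.SNT.two_of_sper (hf : Rule f) {A b n : ℕ} (hA : A % 2 = 0)
    (hb : (A + b) % 4 = 2) (hb2 : A + 20 ≤ b) (h2 : 4 ≤ A / 6) (hn : 2 ≤ n) (P0 : SPer f A b n)
    (P1 : SPer f A (b + 4) (n + A / 6 + 2)) (P2 : SPer f A (b + 8) (n + 2 * (A / 6) + 4)) :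
    TwoS (fun k x y => f A (b + k) x y) (fun k x y => f A (b + 4 + k) x y) (A / 6) (n + 2) where
  h4 := h2
  T0 := by
    refine tips_of hf hA (by omega) hn hb hb2 ?_ P0 P1
    intro k x y hk hyx hd hl
    rcases Nat.lt_or_ge k 4 with hk4 | hk4
    · refine P0.lev (by omega) (by omega) (by omega) (by omega) ?_
      ring_nf at hl ⊢
      omega
    · by_cases hdg : k = 4 ∧ x = y ∧ x = 2 * (n + A / 6 + 2) + 1
      · obtain ⟨rfl, rfl, rfl⟩ := hdg
        refine iff_of_false (sdiag0 hf hA hb hb2 (by omega) P0) ?_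
        rw [fst_iff_Fx hA (by omega) hb (by omega) hb2 le_rfl (by omega)]
        unfold Fx
        omega
      · obtain ⟨r, rfl⟩ : ∃ r, k = 4 + r := ⟨k - 4, by omega⟩
        have e : b + (4 + r) = b + 4 + r := by ring
        rw [e]
        by_cases hr0 : r = 0 ∧ x = y
        · obtain ⟨rfl, rfl⟩ := hr0
          exact P1.s0 x x le_rfl (by omega) (by omega)
        · refine P1.lev (by omega) (by omega) (by omega) (by omega) ?_
          ring_nf at hl ⊢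
          omega
  T1 := by
    have e1 : n + A / 6 + 2 + A / 6 + 2 = n + 2 * (A / 6) + 4 := by ring
    have e2 : n + 2 + A / 6 + 2 = n + A / 6 + 2 + 2 := by ring
    rw [e2]
    refine tips_of hf hA (by omega) (by omega) (by omega) (by omega) ?_ P1 (by rw [e1]; exact P2)
    intro k x y hk hyx hd hl
    rcases Nat.lt_or_ge k 4 with hk4 | hk4
    · refine P1.lev (by omega) (by omega) (by omega) (by omega) ?_
      ring_nf at hl ⊢
      omega
    · by_cases hdg : k = 4 ∧ x = y ∧ x = 2 * (n + A / 6 + 2 + A / 6 + 2) + 1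
      · obtain ⟨rfl, rfl, rfl⟩ := hdg
        refine iff_of_false (sdiag0 hf hA (by omega) (by omega) (by omega) P1) ?_
        rw [fst_iff_Fx hA (by omega) (c := b + 4) (by omega) (by omega) (by omega) le_rfl
          (by omega)]
        unfold Fx
        omega
      · obtain ⟨r, rfl⟩ : ∃ r, k = 4 + r := ⟨k - 4, by omega⟩
        have e : b + 4 + (4 + r) = b + 8 + r := by ring
        rw [e]
        by_cases hr0 : r = 0 ∧ x = y
        · obtain ⟨rfl, rfl⟩ := hr0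
          exact P2.s0 x x le_rfl (by omega) (by omega)
        · refine P2.lev (by omega) (by omega) (by omega) (by omega) ?_
          ring_nf at hl ⊢
          omega
  L0 := by
    have h3 := P1.tip
    have e : 2 * (n + 2) + 2 * (A / 6) = 2 * (n + A / 6 + 2) := by ring
    rw [e]
    exact h3
  L1 := by
    have h3 := P2.tip
    have e : 2 * (n + 2 + A / 6 + 2) + 2 * (A / 6) = 2 * (n + 2 * (A / 6) + 4) := by ring
    rw [e]
    exact h3
  ov := by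
    intro x y
    exact Iff.rfl
  R := by
    intro k x y k1 x1 y1 e hz g1 g2 g3 g4 g5 g6 g7
    obtain ⟨rfl, rfl, rfl⟩ := e
    obtain ⟨z1, z2, z3, z4, z5⟩ := hz
    refine rule_gen (b1 := b + 4 + k1) (x1 := x1) (y1 := y1) hf ⟨by omega, rfl, rfl⟩ (by omega) ?_
      g1 g2 g3 g4 g5 g6 g7
    intro q r s hq hr hs
    have e0 : b + 4 + k1 + 1 - q = b + 4 + (k1 + 1 - q) := by omega
    rw [e0]
    have e1 : n + A / 6 + 2 + A / 6 + 2 = n + 2 * (A / 6) + 4 := by ring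
    rcases z5 with ⟨z5, z6⟩ | ⟨z5, z6, z7⟩
    · have e9 : n + 2 + A / 6 + 2 = n + A / 6 + 2 + 2 := by ring
      rw [e9] at z6
      refine zone_low hf P1 (by rw [e1]; exact P2) (by omega) z1 (by omega) (by omega) z3 z4
        (by omega) z6 hq hr hs
    · have ek : k1 = 3 := by omega
      subst ek
      have hq2 : q = 0 ∨ q = 1 := by omega
      rcases hq2 with rfl | rfl
      · have key : ∀ X Y : ℕ, Y ≤ X → (X = y1 ∨ X = y1 + 1 ∨ X = y1 + 2 ∨ X = y1 + 3) →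
            (Y = y1 ∨ Y = y1 + 1) → ¬ f (A - 1) (b + 8 + 0) X Y := by
          intro X Y h1 h3 h4
          by_cases hE : X % 2 = 0 ∧ Y % 2 = 0
          · exact P2.lowI X Y (by omega) (by omega)
          · exact P2.lowN 0 X Y (by omega) (by omega) h1 (by omega) (by omega)
        have e3 : b + 4 + (3 + 1 - 0) = b + 8 + 0 := by omega
        rw [e3]
        rcases Nat.lt_or_ge (x1 + 1 - r) (y1 + 1 - s) with h1 | h1
        · rw [hf.swap_xy]
          exact key _ _ (by omega) (by omega) (by omega)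
        · exact key _ _ h1 (by omega) (by omega)
      · have e3 : b + 4 + (3 + 1 - 1) = b + 4 + 3 := by omega
        rw [e3]
        rcases Nat.lt_or_ge (x1 + 1 - r) (y1 + 1 - s) with h1 | h1
        · rw [hf.swap_xy]
          exact P1.lowN 3 _ _ (by omega) (by omega) (by omega) (by omega) (by omega)
        · exact P1.lowN 3 _ _ (by omega) (by omega) (by omega) (by omega) (by omega)

end Hole

open Hole

/-- **Birth lemma.**  In every OUT row behind an exact front of an even layer `A`, `A / 6 ≥ 3`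
(last of three consecutive periods, lead `n₂ = n + 2 h + 4`), there is a cell of the next layer
with value one at `(2 n₂ + 4, 2 j + 2)`, `n₂ - h + 1 ≤ j ≤ n₂`. -/
theorem birth_of_sper (hf : Rule f) {A b n : ℕ} (hA : A % 2 = 0) (hb : (A + b) % 4 = 2)
    (hb2 : A + 20 ≤ b) (h2 : 4 ≤ A / 6) (hn : 2 ≤ n) (P0 : SPer f A b n)
    (P1 : SPer f A (b + 4) (n + A / 6 + 2)) (P2 : SPer f A (b + 8) (n + 2 * (A / 6) + 4))
    (hedge : f A (b + 10) (2 * (n + 2 * (A / 6) + 4) + 3) (2 * (n + A / 6 + 6))) :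
    ∃ j : ℕ, n + A / 6 + 6 ≤ j ∧ j ≤ n + 2 * (A / 6) + 4 ∧
      f (A + 1) (b + 10) (2 * (n + 2 * (A / 6) + 4) + 4) (2 * j + 2) := by
  by_contra hcon
  push Not at hcon
  have W := two_of_sper hf hA hb hb2 h2 hn P0 P1 P2
  apply W.birth
  intro j hj1 hj2
  rintro ⟨g1, g2, g3, g4, g5, g6, g7⟩
  have eX : 2 * (n + 2 + A / 6 + 2) + 2 * (A / 6) + 4 = 2 * (n + 2 * (A / 6) + 4) + 4 := by ring
  have eX1 : 2 * (n + 2 + A / 6 + 2) + 2 * (A / 6) + 3 = 2 * (n + 2 * (A / 6) + 4) + 3 := by ring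
  rw [eX] at g1 g4 g5
  rw [eX1] at g2 g3 g6 g7
  have hj3 : n + A / 6 + 6 ≤ j := by
    by_contra hj4
    have ej : j = n + A / 6 + 5 := by omega
    subst ej
    exact g2 hedge
  apply hcon j hj3 (by omega)
  have hlow : ∀ q r s : ℕ, q ≤ 2 → r ≤ 2 → s ≤ 2 →
      ¬ f (A - 1) (b + 10 - q) (2 * (n + 2 * (A / 6) + 4) + 4 - r) (2 * j + 2 - s) := by
    intro q r s hq hr hs
    have e0 : b + 10 - q = b + 8 + (2 - q) := by omega
    rw [e0]
    by_cases hE : (2 - q) % 2 = 0 ∧ (2 * (n + 2 * (A / 6) + 4) + 4 - r) % 2 = 0 ∧ (2 * j + 2 - s) % 2 = 0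
    · have e4 : q = 0 ∨ q = 2 := by omega
      rcases e4 with rfl | rfl
      · exact P2.lowE 2 _ _ (by omega) (by omega) (by omega) (by omega) (by omega)
      · exact P2.lowE 0 _ _ (by omega) (by omega) (by omega) (by omega) (by omega)
    · exact P2.lowN _ _ _ (by omega) (by omega) (by omega) (by omega) (by omega)
  have hd : ∀ q r s : ℕ, q ≤ 1 → r ≤ 1 → s ≤ 1 → 1 ≤ q + r + s →
      ¬ f (A + 1) (b + 10 - q) (2 * (n + 2 * (A / 6) + 4) + 4 - r) (2 * j + 2 - s) := by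
    intro q r s hq hr hs hsum
    refine dom_up hf (by omega) (by omega) ?_
    intro q' r' s' hq' hr' hs' _ _ _
    have e0 : b + 10 - q - q' = b + 10 - (q + q') := by omega
    have e1 : 2 * (n + 2 * (A / 6) + 4) + 4 - r - r' = 2 * (n + 2 * (A / 6) + 4) + 4 - (r + r') := by
      omega
    have e2 : 2 * j + 2 - s - s' = 2 * j + 2 - (s + s') := by omega
    rw [e0, e1, e2]
    exact hlow _ _ _ (by omega) (by omega) (by omega)
  rw [hf]
  refine ⟨by omega, ?_⟩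
  intro p q r s hp hq hr hs hsum hpa hqb hrx hsy
  have ep : p = 0 ∨ p = 1 := by omega
  rcases ep with rfl | rfl
  · exact hd q r s hq hr hs (by omega)
  · have e0 : A + 1 - 1 = A := by omega
    rw [e0]
    have eq : q = 0 ∨ q = 1 := by omega
    have er : r = 0 ∨ r = 1 := by omega
    have es : s = 0 ∨ s = 1 := by omega
    rcases eq with rfl | rfl <;> rcases er with rfl | rfl <;> rcases es with rfl | rfl
    · exact fun h' => hf.not_allEven h' ⟨hA, by omega, by omega, by omega⟩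
    · exact g1
    · exact g2
    · exact g3
    · exact g4
    · exact g5
    · exact g6
    · exact g7

namespace Hole

variable {G g : ℕ → ℕ → ℕ → Prop} {h p : ℕ}

theorem TwoS.xp5 (W : TwoS G g h p) :
    g 5 (2 * (p + h + 2) + 2 * h + 2) (2 * (p + h + 2) + 2 * h + 1) := by
  by_contra hx
  exact W.noreach (W.T1.reach W.L1 hx)

theorem TwoS.y6 (W : TwoS G g h p) :
    ¬ g 6 (2 * (p + h + 2) + 2 * h + 3) (2 * (p + h + 2) + 2 * h + 2) :=
  W.T1.kill W.xp5 (by omega)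

theorem TwoS.od6 (W : TwoS G g h p) :
    g 6 (2 * (p + h + 2) + 2 * h + 3) (2 * (p + h + 2) + 2 * h + 3) := by
  have h3 := W.h3
  have T1 := W.T1
  have y := W.y6
  have c1 := T1.C4 (i := p + h + 2 + h + 1) (j := p + h + 2 + h + 1) (by omega) (by omega)
    (by omega)
  have ez := T1.e5z W.L1
  have y5 : ¬ g 5 (2 * (p + h + 2) + 2 * h + 3) (2 * (p + h + 2) + 2 * h + 2) :=
    T1.kill c1 (by omega)
  exact T1.rule (k1 := 5) (x1 := 2 * (p + h + 2) + 2 * h + 2) (y1 := 2 * (p + h + 2) + 2 * h + 2)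
    ⟨by omega, by omega, by omega⟩ ⟨by omega, by omega, by omega, by omega, by omega, by omega⟩
    y (fun h' => y (T1.sym h')) (T1.ev (by omega)) (T1.kill c1 (by omega))
    y5 (fun h' => y5 (T1.sym h')) ez

end Hole

variable {f : ℕ → ℕ → ℕ → ℕ → Prop}

/-- `X'(n,n-1)` of the row after the IN row, shifted: `(2 n₂ + 2, 2 n₂ + 1)` of row `b + 9`. -/
theorem xp_of_sper (hf : Rule f) {A b n : ℕ} (hA : A % 2 = 0) (hb : (A + b) % 4 = 2)
    (hb2 : A + 20 ≤ b) (h2 : 4 ≤ A / 6) (hn : 2 ≤ n) (P0 : SPer f A b n)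
    (P1 : SPer f A (b + 4) (n + A / 6 + 2)) (P2 : SPer f A (b + 8) (n + 2 * (A / 6) + 4)) :
    f A (b + 9) (2 * (n + 2 * (A / 6) + 4) + 2) (2 * (n + 2 * (A / 6) + 4) + 1) := by
  have W := two_of_sper hf hA hb hb2 h2 hn P0 P1 P2
  have h3 := W.xp5
  have e1 : 2 * (n + 2 + A / 6 + 2) + 2 * (A / 6) = 2 * (n + 2 * (A / 6) + 4) := by ring
  rw [e1] at h3
  exact h3

/-- `Y(c',c')` of the OUT row is zero. -/
theorem y_of_sper (hf : Rule f) {A b n : ℕ} (hA : A % 2 = 0) (hb : (A + b) % 4 = 2)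
    (hb2 : A + 20 ≤ b) (h2 : 4 ≤ A / 6) (hn : 2 ≤ n) (P0 : SPer f A b n)
    (P1 : SPer f A (b + 4) (n + A / 6 + 2)) (P2 : SPer f A (b + 8) (n + 2 * (A / 6) + 4)) :
    ¬ f A (b + 10) (2 * (n + 2 * (A / 6) + 4) + 3) (2 * (n + 2 * (A / 6) + 4) + 2) := by
  have W := two_of_sper hf hA hb hb2 h2 hn P0 P1 P2
  have h3 := W.y6
  have e1 : 2 * (n + 2 + A / 6 + 2) + 2 * (A / 6) = 2 * (n + 2 * (A / 6) + 4) := by ring
  rw [e1] at h3
  exact h3

/-- `O(c',c')` of the OUT row is one. -/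
theorem o_of_sper (hf : Rule f) {A b n : ℕ} (hA : A % 2 = 0) (hb : (A + b) % 4 = 2)
    (hb2 : A + 20 ≤ b) (h2 : 4 ≤ A / 6) (hn : 2 ≤ n) (P0 : SPer f A b n)
    (P1 : SPer f A (b + 4) (n + A / 6 + 2)) (P2 : SPer f A (b + 8) (n + 2 * (A / 6) + 4)) :
    f A (b + 10) (2 * (n + 2 * (A / 6) + 4) + 3) (2 * (n + 2 * (A / 6) + 4) + 3) := by
  have W := two_of_sper hf hA hb hb2 h2 hn P0 P1 P2
  have h3 := W.od6
  have e1 : 2 * (n + 2 + A / 6 + 2) + 2 * (A / 6) = 2 * (n + 2 * (A / 6) + 4) := by ring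
  rw [e1] at h3
  exact h3

/-- The diagonal one at the front of the row after the OUT row. -/
theorem diag_of_sper (hf : Rule f) {A b n : ℕ} (hA : A % 2 = 0) (hb : (A + b) % 4 = 2)
    (hb2 : A + 20 ≤ b) (h2 : 4 ≤ A / 6) (hn : 2 ≤ n) (P0 : SPer f A b n)
    (P1 : SPer f A (b + 4) (n + A / 6 + 2)) (P2 : SPer f A (b + 8) (n + 2 * (A / 6) + 4)) :
    f A (b + 11) (2 * (n + 2 * (A / 6) + 4) + 5) (2 * (n + 2 * (A / 6) + 4) + 5) := by
  have W := two_of_sper hf hA hb hb2 h2 hn P0 P1 P2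
  have od := o_of_sper hf hA hb hb2 h2 hn P0 P1 P2
  have os := W.T1.OS6 W.L1 (i := n + 2 * (A / 6) + 6) (by omega) (by omega)
  have os' : f A (b + 10) (2 * (n + 2 * (A / 6) + 4) + 5) (2 * (n + 2 * (A / 6) + 4) + 3) := by
    have e1 : 2 * (n + 2 + A / 6 + 2) + 2 * (A / 6) = 2 * (n + 2 * (A / 6) + 4) := by ring
    have e2 : 2 * (n + 2 * (A / 6) + 6) + 1 = 2 * (n + 2 * (A / 6) + 4) + 5 := by ring
    rw [e1, e2] at os
    exact os
  have xs : f A (b + 10) (2 * (n + 2 * (A / 6) + 4) + 6) (2 * (n + 2 * (A / 6) + 4) + 5) := by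
    have e : b + 10 = b + 8 + 2 := by ring
    rw [e, P2.s2 _ _ (by omega) (by omega), fst_iff_Fx hA (by omega) (by omega) (by omega)
      (by omega) (by omega) (by omega)]
    unfold Fx
    omega
  have y : ¬ f A (b + 11) (2 * (n + 2 * (A / 6) + 4) + 5) (2 * (n + 2 * (A / 6) + 4) + 4) :=
    kill_gen hf os' (by omega)
  have y' : ¬ f A (b + 10) (2 * (n + 2 * (A / 6) + 4) + 5) (2 * (n + 2 * (A / 6) + 4) + 4) :=
    fun h' => kill_gen hf h' (by omega) xs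
  refine rule_gen (b1 := b + 10) (x1 := 2 * (n + 2 * (A / 6) + 4) + 4)
    (y1 := 2 * (n + 2 * (A / 6) + 4) + 4) hf ⟨rfl, rfl, rfl⟩ (by omega) ?_
    y (fun h' => y ((hf.swap_xy _ _ _ _).1 h')) (kill_gen hf od (by omega))
    (fun h' => kill_gen hf h' (by omega) xs) y' (fun h' => y' ((hf.swap_xy _ _ _ _).1 h'))
    (fun h' => hf.not_allEven h' ⟨hA, by omega, by omega, by omega⟩)
  intro q r s hq hr hs
  have e0 : b + 10 + 1 - q = b + 8 + (3 - q) := by omega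
  rw [e0]
  have key : ∀ X Y : ℕ, Y ≤ X → 2 * (n + 2 * (A / 6) + 4) + 4 ≤ Y → X ≤ 2 * (n + 2 * (A / 6) + 4) + 5 →
      ¬ f (A - 1) (b + 8 + (3 - q)) X Y := by
    intro X Y h1 h4 h5
    by_cases hE : (3 - q) % 2 = 0 ∧ X % 2 = 0 ∧ Y % 2 = 0
    · have e4 : q = 1 := by omega
      subst e4
      exact P2.lowE 2 _ _ (by omega) (by omega) (by omega) (by omega) (by omega)
    · exact P2.lowN _ _ _ (by omega) (by omega) (by omega) (by omega) (by omega)
  rcases Nat.lt_or_ge s r with h4 | h4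
  · rw [hf.swap_xy]
    exact key _ _ (by omega) (by omega) (by omega)
  · exact key _ _ (by omega) (by omega) (by omega)

end Pool.Agent.SNT
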