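import Pool.Agent.SNT.HoleA

set_option autoImplicit false

/-! The files `HoleB`, `BirthA`, `BirthB`, `BirthC` (one even layer in front of an exact front)
over the structure `TipS` with a smaller rule zone (helper44): see `SBirth`. -/

namespace Pool.Agent.SNT.Hole

/-- What is used about the layer `g` alone (levels are measured by `x + y`; the surface in
row `k` is `4 m + 4 h + 1 + (h + 2) (k - 4)`); the rule zone leaves out the cells beyond the strip
which are left of the front. -/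
structure TipS (g : ℕ → ℕ → ℕ → Prop) (h m : ℕ) : Prop where
  hh : 2 ≤ h
  hm : 4 ≤ m
  kill : ∀ {k x y k' x' y' : ℕ}, g k x y →
    (k ≤ k' ∧ k' ≤ k + 1 ∧ x ≤ x' ∧ x' ≤ x + 1 ∧ y ≤ y' ∧ y' ≤ y + 1 ∧ k + x + y < k' + x' + y') →
    ¬ g k' x' y'
  ev : ∀ {k x y : ℕ}, (k % 2 = 0 ∧ x % 2 = 0 ∧ y % 2 = 0) → ¬ g k x y
  sym : ∀ {k x y : ℕ}, g k x y → g k y x
  rule : ∀ {k x y k1 x1 y1 : ℕ}, (k = k1 + 1 ∧ x = x1 + 1 ∧ y = y1 + 1) →
    (k ≤ 6 ∧ (k % 2 = 1 ∨ x % 2 = 1 ∨ y % 2 = 1) ∧ y ≤ x ∧ x ≤ y + 2 * h + 6 ∧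
      4 * m + 1 + (h + 2) * k ≤ x + y + 4 * (h + 2) ∧
      (x / 2 + 2 ≤ y / 2 + h ∧ (k = 2 ∨ k = 3 ∨ m ≤ y / 2 + 1) ∨
      x / 2 + 1 = y / 2 + h ∧ (k ≤ 3 ∧ m ≤ x / 2 + 2 ∨ m + h ≤ x / 2) ∨
      x / 2 = y / 2 + h ∧ (k ≤ 3 ∧ m ≤ x / 2 + 1 ∨ m + h + 1 ≤ x / 2) ∨
      x / 2 = y / 2 + h + 1 ∧ (k ≤ 1 ∧ m ≤ x / 2 + 1 ∨ (k = 2 ∨ k = 3) ∧ m + h ≤ x / 2 + 1 ∨
        (k = 4 ∨ k = 5) ∧ m + h + 1 ≤ x / 2) ∨
      x / 2 = y / 2 + h + 2 ∧ (k = 2 ∨ k = 3) ∧ m + h ≤ x / 2 + 1)) →
    ¬ g k x y1 → ¬ g k x1 y → ¬ g k x1 y1 → ¬ g k1 x y → ¬ g k1 x y1 → ¬ g k1 x1 y →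
    ¬ g k1 x1 y1 → g k x y
  st : ∀ {k x y : ℕ}, (k ≤ 6 ∧ y + (1 - k) ≤ x ∧ x ≤ y + 2 * h + 8 ∧
      4 * m + 4 * h + 1 + (h + 2) * k < x + y + 4 * (h + 2)) → (g k x y ↔ Fx h k x y)

theorem TipS.st1 {g : ℕ → ℕ → ℕ → Prop} {h m : ℕ} (T : TipS g h m) {k x y : ℕ} (hc : k ≤ 6 ∧ y + (1 - k) ≤ x ∧ x ≤ y + 2 * h + 8 ∧
      4 * m + 4 * h + 1 + (h + 2) * k < x + y + 4 * (h + 2)) (hF : Fx h k x y) : g k x y :=
  (T.st hc).2 hF

theorem TipS.st0 {g : ℕ → ℕ → ℕ → Prop} {h m : ℕ} (T : TipS g h m) {k x y : ℕ} (hc : k ≤ 6 ∧ y + (1 - k) ≤ x ∧ x ≤ y + 2 * h + 8 ∧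
      4 * m + 4 * h + 1 + (h + 2) * k < x + y + 4 * (h + 2)) (hF : ¬ Fx h k x y) : ¬ g k x y :=
  fun h' => hF ((T.st hc).1 h')

variable {g : ℕ → ℕ → ℕ → Prop} {h m : ℕ}

/-- Complete lines in row `2`. -/
theorem TipS.line2 (T : TipS g h m) {j : ℕ} (hj : m ≤ j) :
    ∀ t : ℕ, t + 1 ≤ h → g 2 (2 * (j + h - t)) (2 * j + 1) := by
  have h2 := T.hh
  have h3 := T.hm
  intro t
  induction t with
  | zero =>
    intro _
    refine T.st1 ⟨by omega, by omega, by omega, by omega⟩ ?_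
    unfold Fx; omega
  | succ t ih =>
    intro ht
    have h4 := ih (by omega)
    by_contra hcon
    have hY : g 0 (2 * (j + h - (t + 1)) - 1) (2 * j) := by
      refine T.st1 ⟨by omega, by omega, by omega, by omega⟩ ?_
      unfold Fx; omega
    have hO : g 2 (2 * (j + h - t) - 1) (2 * j + 1) :=
      T.rule (k1 := 1) (x1 := 2 * (j + h - (t + 1))) (y1 := 2 * j)
        ⟨by omega, by omega, by omega⟩
        ⟨by omega, by omega, by omega, by omega, by omega, by omega⟩
        (fun h' => T.kill h' (by omega) h4) hcon (T.ev (by omega))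
        (fun h' => T.kill h' (by omega) h4) (fun h' => T.kill h' (by omega) h4)
        (T.kill hY (by omega)) (T.kill hY (by omega))
    exact T.kill hO (by omega) h4

theorem TipS.X2 (T : TipS g h m) {i j : ℕ} (hj : m ≤ j) (h1 : j + 1 ≤ i) (h2 : i ≤ j + h) :
    g 2 (2 * i) (2 * j + 1) := by
  have h3 := T.line2 hj (j + h - i) (by omega)
  have e : j + h - (j + h - i) = i := by omega
  rwa [e] at h3

/-- Row `3` is zero inside the strip. -/
theorem TipS.z3 (T : TipS g h m) {x y j : ℕ} (hj : m ≤ j) (hy : y = 2 * j + 1 ∨ y = 2 * j + 2)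
    (h1 : 2 * (j + 1) ≤ x) (h2 : x ≤ 2 * (j + h) + 1) : ¬ g 3 x y := by
  have h3 := T.X2 (i := x / 2) (j := j) hj (by omega) (by omega)
  exact T.kill h3 (by omega)

/-- The static cells just behind the surface in row `2`. -/
theorem TipS.Ya2 (T : TipS g h m) : g 2 (2 * m + 2 * h - 1) (2 * m - 2) := by
  have h2 := T.hh
  have h3 := T.hm
  have k1 : g 1 (2 * m + 2 * h - 2) (2 * m - 4) := by
    refine T.st1 ⟨by omega, by omega, by omega, by omega⟩ ?_
    unfold Fx; omega
  have k2 : g 1 (2 * m + 2 * h - 3) (2 * m - 3) := by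
    refine T.st1 ⟨by omega, by omega, by omega, by omega⟩ ?_
    unfold Fx; omega
  refine T.rule (k1 := 1) (x1 := 2 * m + 2 * h - 2) (y1 := 2 * m - 3)
    ⟨by omega, by omega, by omega⟩ ⟨by omega, by omega, by omega, by omega, by omega, by omega⟩
    (T.kill k1 (by omega)) (T.ev (by omega)) (T.kill k2 (by omega)) ?_ ?_ ?_ ?_ <;>
  · refine T.st0 ⟨by omega, by omega, by omega, by omega⟩ ?_
    unfold Fx; omega

theorem TipS.Xb2 (T : TipS g h m) : g 2 (2 * m + 2 * h) (2 * m - 3) := by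
  have h2 := T.hh
  have h3 := T.hm
  have k1 : g 1 (2 * m + 2 * h - 2) (2 * m - 4) := by
    refine T.st1 ⟨by omega, by omega, by omega, by omega⟩ ?_
    unfold Fx; omega
  refine T.rule (k1 := 1) (x1 := 2 * m + 2 * h - 1) (y1 := 2 * m - 4)
    ⟨by omega, by omega, by omega⟩ ⟨by omega, by omega, by omega, by omega, by omega, by omega⟩
    (T.ev (by omega)) (T.kill k1 (by omega)) (T.kill k1 (by omega)) ?_ ?_ ?_ ?_ <;>
  · refine T.st0 ⟨by omega, by omega, by omega, by omega⟩ ?_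
    unfold Fx; omega

theorem TipS.Yb2 (T : TipS g h m) : g 2 (2 * m + 2 * h + 1) (2 * m - 4) := by
  have h2 := T.hh
  have h3 := T.hm
  have k1 : g 1 (2 * m + 2 * h) (2 * m - 6) := by
    refine T.st1 ⟨by omega, by omega, by omega, by omega⟩ ?_
    unfold Fx; omega
  have k2 : g 1 (2 * m + 2 * h - 1) (2 * m - 5) := by
    refine T.st1 ⟨by omega, by omega, by omega, by omega⟩ ?_
    unfold Fx; omega
  refine T.rule (k1 := 1) (x1 := 2 * m + 2 * h) (y1 := 2 * m - 5)
    ⟨by omega, by omega, by omega⟩ ⟨by omega, by omega, by omega, by omega, by omega, by omega⟩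
    (T.kill k1 (by omega)) (T.ev (by omega)) (T.kill k2 (by omega)) ?_ ?_ ?_ ?_ <;>
  · refine T.st0 ⟨by omega, by omega, by omega, by omega⟩ ?_
    unfold Fx; omega

theorem TipS.Ym2 (T : TipS g h m) : g 2 (2 * m + 2 * h + 1) (2 * m) := by
  have h2 := T.hh
  have h3 := T.hm
  refine T.st1 ⟨by omega, by omega, by omega, by omega⟩ ?_
  unfold Fx; omega

theorem TipS.Xm2 (T : TipS g h m) : g 2 (2 * m + 2 * h + 2) (2 * m - 1) := by
  have h2 := T.hh
  have h3 := T.hm
  refine T.st1 ⟨by omega, by omega, by omega, by omega⟩ ?_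
  unfold Fx; omega

/-! Row `3`. -/

theorem TipS.E3a (T : TipS g h m) : g 3 (2 * m + 2 * h + 2) (2 * m + 2) := by
  have h2 := T.hh
  have h3 := T.hm
  refine T.rule (k1 := 2) (x1 := 2 * m + 2 * h + 1) (y1 := 2 * m + 1)
    ⟨by omega, by omega, by omega⟩ ⟨by omega, by omega, by omega, by omega, by omega, by omega⟩
    (T.kill T.Ym2 (by omega)) (T.z3 (j := m) (by omega) (by omega) (by omega) (by omega))
    (T.kill T.Ym2 (by omega)) (T.ev (by omega)) ?_ ?_ ?_ <;>
  · refine T.st0 ⟨by omega, by omega, by omega, by omega⟩ ?_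
    unfold Fx; omega

theorem TipS.O3a (T : TipS g h m) : g 3 (2 * m + 2 * h + 3) (2 * m + 1) := by
  have h2 := T.hh
  have h3 := T.hm
  refine T.rule (k1 := 2) (x1 := 2 * m + 2 * h + 2) (y1 := 2 * m)
    ⟨by omega, by omega, by omega⟩ ⟨by omega, by omega, by omega, by omega, by omega, by omega⟩
    (T.kill T.Xm2 (by omega)) (T.kill T.Ym2 (by omega)) (T.kill T.Ym2 (by omega)) ?_ ?_ ?_
    (T.ev (by omega)) <;>
  · refine T.st0 ⟨by omega, by omega, by omega, by omega⟩ ?_
    unfold Fx; omega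

theorem TipS.O3b (T : TipS g h m) : g 3 (2 * m + 2 * h + 1) (2 * m - 1) := by
  have h2 := T.hh
  have h3 := T.hm
  refine T.rule (k1 := 2) (x1 := 2 * m + 2 * h) (y1 := 2 * m - 2)
    ⟨by omega, by omega, by omega⟩ ⟨by omega, by omega, by omega, by omega, by omega, by omega⟩
    (T.kill T.Xb2 (by omega)) (T.kill T.Ya2 (by omega)) (T.kill T.Ya2 (by omega)) ?_ ?_ ?_
    (T.ev (by omega)) <;>
  · refine T.st0 ⟨by omega, by omega, by omega, by omega⟩ ?_
    unfold Fx; omega

theorem TipS.E3b (T : TipS g h m) : g 3 (2 * m + 2 * h + 2) (2 * m - 2) := by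
  have h2 := T.hh
  have h3 := T.hm
  refine T.rule (k1 := 2) (x1 := 2 * m + 2 * h + 1) (y1 := 2 * m - 3)
    ⟨by omega, by omega, by omega⟩ ⟨by omega, by omega, by omega, by omega, by omega, by omega⟩
    (T.kill T.Yb2 (by omega)) (T.kill T.Xb2 (by omega)) (T.kill T.Xb2 (by omega))
    (T.ev (by omega)) ?_ ?_ ?_ <;>
  · refine T.st0 ⟨by omega, by omega, by omega, by omega⟩ ?_
    unfold Fx; omega

/-- The diagonal ones of row `3`. -/
theorem TipS.D3 (T : TipS g h m) {j : ℕ} (hj : m + h ≤ j + 1) : g 3 (2 * j + 1) (2 * j + 1) := by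
  have h2 := T.hh
  have h3 := T.hm
  refine T.st1 ⟨by omega, by omega, by omega, by omega⟩ ?_
  unfold Fx; omega

/-- The edge alternative in row `3`. -/
theorem TipS.edge3 (T : TipS g h m) :
    g 3 (2 * m + 2 * h) (2 * m) ∨ g 3 (2 * m + 2 * h - 1) (2 * m) := by
  have h2 := T.hh
  have h3 := T.hm
  by_contra hcon
  push Not at hcon
  obtain ⟨c1, c2⟩ := hcon
  apply c1
  refine T.rule (k1 := 2) (x1 := 2 * m + 2 * h - 1) (y1 := 2 * m - 1)
    ⟨by omega, by omega, by omega⟩ ⟨by omega, by omega, by omega, by omega, by omega, by omega⟩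
    (T.kill T.Ya2 (by omega)) c2 (T.kill T.Ya2 (by omega))
    (T.ev (by omega)) ?_ ?_ ?_ <;>
  · refine T.st0 ⟨by omega, by omega, by omega, by omega⟩ ?_
    unfold Fx; omega


/-- Diagonal ones of row `3`. -/
theorem TipS.D3g (T : TipS g h m) {j : ℕ} (hj : m + 1 ≤ j) : g 3 (2 * j + 1) (2 * j + 1) := by
  have h2 := T.hh
  have h3 := T.hm
  have a := T.X2 (i := j + 1) (j := j) (by omega) (by omega) (by omega)
  have b := T.X2 (i := j) (j := j - 1) (by omega) (by omega) (by omega)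
  have c2 : ¬ g 2 (2 * j + 1) (2 * j) := fun h' => T.kill h' (by omega) a
  have c3 : ¬ g 3 (2 * j + 1) (2 * j) := T.kill b (by omega)
  exact T.rule (k1 := 2) (x1 := 2 * j) (y1 := 2 * j)
    ⟨by omega, by omega, by omega⟩ ⟨by omega, by omega, by omega, by omega, by omega, by omega⟩
    c3 (fun h' => c3 (T.sym h')) (T.kill b (by omega)) (fun h' => T.kill h' (by omega) a)
    c2 (fun h' => c2 (T.sym h')) (T.ev (by omega))

/-- No `X` in row `4`. -/
theorem TipS.NX4 (T : TipS g h m) {j : ℕ} (hj : m + 1 ≤ j) :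
    ∀ t : ℕ, t + 1 ≤ h → ¬ g 4 (2 * (j + 1 + t)) (2 * j + 1) := by
  have h2 := T.hh
  have h3 := T.hm
  intro t
  induction t with
  | zero =>
    intro _
    exact T.kill (T.D3g hj) (by omega)
  | succ t ih =>
    intro ht hX
    have h4 := ih (by omega)
    refine T.kill (k := 4) (x := 2 * (j + 1 + t) + 1) (y := 2 * j + 1) ?_ (by omega) hX
    refine T.rule (k1 := 3) (x1 := 2 * (j + 1 + t)) (y1 := 2 * j)
      ⟨by omega, by omega, by omega⟩ ⟨by omega, by omega, by omega, by omega, by omega, by omega⟩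
      (fun h' => T.kill h' (by omega) hX) h4 (T.ev (by omega))
      (T.z3 (j := j) (by omega) (by omega) (by omega) (by omega))
      (T.z3 (j := j - 1) (by omega) (by omega) (by omega) (by omega))
      (T.z3 (j := j) (by omega) (by omega) (by omega) (by omega))
      (T.z3 (j := j - 1) (by omega) (by omega) (by omega) (by omega))

theorem TipS.nx4 (T : TipS g h m) {i j : ℕ} (hj : m + 1 ≤ j) (h1 : j + 1 ≤ i) (h2 : i ≤ j + h) :
    ¬ g 4 (2 * i) (2 * j + 1) := by
  have h3 := T.NX4 hj (i - (j + 1)) (by omega)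
  have e : j + 1 + (i - (j + 1)) = i := by omega
  rwa [e] at h3

/-- Complete columns of row `4`. -/
theorem TipS.C4a (T : TipS g h m) {i : ℕ} (hi : m + h + 1 ≤ i) :
    ∀ t : ℕ, t + 1 ≤ h → g 4 (2 * i + 1) (2 * (i - t)) := by
  have h2 := T.hh
  have h3 := T.hm
  intro t
  induction t with
  | zero =>
    intro _
    refine T.st1 ⟨by omega, by omega, by omega, by omega⟩ ?_
    unfold Fx; omega
  | succ t ih =>
    intro ht
    have h4 := ih (by omega)
    by_contra hcon
    have hO : g 4 (2 * i + 1) (2 * (i - (t + 1)) + 1) :=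
      T.rule (k1 := 3) (x1 := 2 * i) (y1 := 2 * (i - (t + 1)))
        ⟨by omega, by omega, by omega⟩
        ⟨by omega, by omega, by omega, by omega, by omega, by omega⟩
        hcon (fun h' => T.kill h' (by omega) h4) (T.ev (by omega))
        (fun h' => T.kill h' (by omega) h4)
        (T.z3 (j := i - (t + 1) - 1) (by omega) (by omega) (by omega) (by omega))
        (fun h' => T.kill h' (by omega) h4)
        (T.z3 (j := i - (t + 1) - 1) (by omega) (by omega) (by omega) (by omega))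
    exact T.kill hO (by omega) h4

theorem TipS.C4 (T : TipS g h m) {i j : ℕ} (hi : m + h + 1 ≤ i) (h1 : i + 1 ≤ j + h) (h2 : j ≤ i) :
    g 4 (2 * i + 1) (2 * j) := by
  have h3 := T.C4a hi (i - j) (by omega)
  have e : i - (i - j) = j := by omega
  rwa [e] at h3

/-! The bulk next to the strip. -/

theorem TipS.Y2 (T : TipS g h m) {j : ℕ} (hj : m ≤ j) : g 2 (2 * (j + h) + 1) (2 * j) := by
  have h2 := T.hh
  have h3 := T.hm
  refine T.st1 ⟨by omega, by omega, by omega, by omega⟩ ?_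
  unfold Fx; omega

theorem TipS.X2b (T : TipS g h m) {j : ℕ} (hj : m ≤ j + 2) :
    g 2 (2 * (j + h + 2)) (2 * j + 1) := by
  have h2 := T.hh
  have h3 := T.hm
  by_cases e : m = j + 2
  · have := T.Xb2
    have e1 : 2 * m + 2 * h = 2 * (j + h + 2) := by omega
    have e2 : 2 * m - 3 = 2 * j + 1 := by omega
    rwa [e1, e2] at this
  · refine T.st1 ⟨by omega, by omega, by omega, by omega⟩ ?_
    unfold Fx; omega

theorem TipS.Y2b (T : TipS g h m) {j : ℕ} (hj : m ≤ j + 2) :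
    g 2 (2 * (j + h + 2) + 1) (2 * j) := by
  have h2 := T.hh
  have h3 := T.hm
  by_cases e : m = j + 2
  · have := T.Yb2
    have e1 : 2 * m + 2 * h + 1 = 2 * (j + h + 2) + 1 := by omega
    have e2 : 2 * m - 4 = 2 * j := by omega
    rwa [e1, e2] at this
  · refine T.st1 ⟨by omega, by omega, by omega, by omega⟩ ?_
    unfold Fx; omega

theorem TipS.E3 (T : TipS g h m) {j : ℕ} (hj : m + 1 ≤ j) : g 3 (2 * (j + h)) (2 * j) := by
  have h2 := T.hh
  have h3 := T.hm
  have a := T.X2 (i := j + h - 1) (j := j - 1) (by omega) (by omega) (by omega)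
  have b := T.Y2 (j := j - 1) (by omega)
  refine T.rule (k1 := 2) (x1 := 2 * (j + h) - 1) (y1 := 2 * j - 1)
    ⟨by omega, by omega, by omega⟩ ⟨by omega, by omega, by omega, by omega, by omega, by omega⟩
    (T.kill b (by omega)) (T.kill a (by omega)) (T.kill a (by omega)) (T.ev (by omega))
    ?_ ?_ ?_ <;>
  · refine T.st0 ⟨by omega, by omega, by omega, by omega⟩ ?_
    unfold Fx; omega

theorem TipS.O3 (T : TipS g h m) {j : ℕ} (hj : m ≤ j) : g 3 (2 * (j + h + 1) + 1) (2 * j + 1) := by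
  have h2 := T.hh
  have h3 := T.hm
  have a := T.Y2 (j := j) (by omega)
  have b := T.X2b (j := j - 1) (by omega)
  refine T.rule (k1 := 2) (x1 := 2 * (j + h + 1)) (y1 := 2 * j)
    ⟨by omega, by omega, by omega⟩ ⟨by omega, by omega, by omega, by omega, by omega, by omega⟩
    (T.kill b (by omega)) (T.kill a (by omega)) (T.kill a (by omega)) ?_ ?_ ?_
    (T.ev (by omega)) <;>
  · refine T.st0 ⟨by omega, by omega, by omega, by omega⟩ ?_
    unfold Fx; omega

theorem TipS.E3c (T : TipS g h m) {j : ℕ} (hj : m ≤ j + 1) : g 3 (2 * (j + h + 2)) (2 * j) := by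
  have h2 := T.hh
  have h3 := T.hm
  have a := T.X2b (j := j - 1) (by omega)
  have b := T.Y2b (j := j - 1) (by omega)
  refine T.rule (k1 := 2) (x1 := 2 * (j + h + 2) - 1) (y1 := 2 * j - 1)
    ⟨by omega, by omega, by omega⟩ ⟨by omega, by omega, by omega, by omega, by omega, by omega⟩
    (T.kill b (by omega)) (T.kill a (by omega)) (T.kill a (by omega))
    (T.ev (by omega)) ?_ ?_ ?_ <;>
  · refine T.st0 ⟨by omega, by omega, by omega, by omega⟩ ?_
    unfold Fx; omega

theorem TipS.X4 (T : TipS g h m) {j : ℕ} (hj : m + 1 ≤ j) : g 4 (2 * (j + h + 1)) (2 * j + 1) := by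
  have h2 := T.hh
  have h3 := T.hm
  have a := T.Y2 (j := j) (by omega)
  have b := T.E3 (j := j) (by omega)
  exact T.rule (k1 := 3) (x1 := 2 * (j + h) + 1) (y1 := 2 * j)
    ⟨by omega, by omega, by omega⟩ ⟨by omega, by omega, by omega, by omega, by omega, by omega⟩
    (T.ev (by omega)) (T.kill b (by omega)) (T.kill b (by omega))
    (T.kill a (by omega)) (T.kill a (by omega)) (T.kill a (by omega)) (T.kill a (by omega))

theorem TipS.Y4 (T : TipS g h m) {j : ℕ} (hj : m ≤ j) : g 4 (2 * (j + h + 1) + 1) (2 * j) := by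
  have h2 := T.hh
  have h3 := T.hm
  have a := T.X2b (j := j - 1) (by omega)
  have b := T.E3c (j := j - 1) (by omega)
  have c : g 3 (2 * (j + h) + 1) (2 * j - 1) := by
    by_cases e : m = j
    · have := T.O3b
      have e1 : 2 * m + 2 * h + 1 = 2 * (j + h) + 1 := by omega
      have e2 : 2 * m - 1 = 2 * j - 1 := by omega
      rwa [e1, e2] at this
    · have := T.O3 (j := j - 1) (by omega)
      have e1 : 2 * (j - 1 + h + 1) + 1 = 2 * (j + h) + 1 := by omega
      have e2 : 2 * (j - 1) + 1 = 2 * j - 1 := by omega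
      rwa [e1, e2] at this
  exact T.rule (k1 := 3) (x1 := 2 * (j + h + 1)) (y1 := 2 * j - 1)
    ⟨by omega, by omega, by omega⟩ ⟨by omega, by omega, by omega, by omega, by omega, by omega⟩
    (T.kill b (by omega)) (T.ev (by omega)) (T.kill c (by omega))
    (T.kill a (by omega)) (T.kill a (by omega)) (T.kill a (by omega)) (T.kill a (by omega))

/-- The edge ones of row `5`. -/
theorem TipS.O5 (T : TipS g h m) {j : ℕ} (hj : m + 2 ≤ j) : g 5 (2 * (j + h) + 1) (2 * j + 1) := by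
  have h2 := T.hh
  have h3 := T.hm
  have a := T.E3 (j := j) (by omega)
  have b := T.C4 (i := j + h - 1) (j := j) (by omega) (by omega) (by omega)
  have c := T.X4 (j := j - 1) (by omega)
  exact T.rule (k1 := 4) (x1 := 2 * (j + h)) (y1 := 2 * j)
    ⟨by omega, by omega, by omega⟩ ⟨by omega, by omega, by omega, by omega, by omega, by omega⟩
    (T.kill c (by omega)) (T.kill b (by omega)) (T.kill b (by omega))
    (T.kill a (by omega)) (T.kill a (by omega)) (T.kill a (by omega)) (T.ev (by omega))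

theorem TipS.E5 (T : TipS g h m) {j : ℕ} (hj : m + 2 ≤ j) : g 5 (2 * (j + h + 1)) (2 * j) := by
  have h2 := T.hh
  have h3 := T.hm
  have a := T.E3 (j := j) (by omega)
  have b := T.Y4 (j := j - 1) (by omega)
  have c := T.O3 (j := j - 1) (by omega)
  have d := T.O5 (j := j) (by omega)
  exact T.rule (k1 := 4) (x1 := 2 * (j + h) + 1) (y1 := 2 * j - 1)
    ⟨by omega, by omega, by omega⟩ ⟨by omega, by omega, by omega, by omega, by omega, by omega⟩
    (T.kill b (by omega)) (fun h' => T.kill h' (by omega) d) (T.kill b (by omega))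
    (T.ev (by omega)) (T.kill c (by omega)) (T.kill a (by omega)) (T.kill b (by omega))

theorem TipS.Y6 (T : TipS g h m) {j : ℕ} (hj : m + 3 ≤ j) : g 6 (2 * (j + h) + 1) (2 * j) := by
  have h2 := T.hh
  have h3 := T.hm
  have a := T.E5 (j := j - 1) (by omega)
  have b := T.O5 (j := j - 1) (by omega)
  have c := T.X4 (j := j - 1) (by omega)
  have d := T.O5 (j := j) (by omega)
  exact T.rule (k1 := 5) (x1 := 2 * (j + h)) (y1 := 2 * j - 1)
    ⟨by omega, by omega, by omega⟩ ⟨by omega, by omega, by omega, by omega, by omega, by omega⟩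
    (T.kill a (by omega)) (T.ev (by omega)) (T.kill b (by omega))
    (fun h' => T.kill h' (by omega) d) (T.kill c (by omega))
    (fun h' => T.kill h' (by omega) d) (T.kill c (by omega))

/-- No `Y` in the columns `≥ n + 2` of row `6`. -/
theorem TipS.NY6 (T : TipS g h m) {i : ℕ} (hi : m + h + 2 ≤ i) :
    ∀ t : ℕ, t + 1 ≤ h → ¬ g 6 (2 * i + 1) (2 * (i + 1 - h + t)) := by
  have h2 := T.hh
  have h3 := T.hm
  intro t
  induction t with
  | zero =>
    intro _
    have a := T.O5 (j := i - h) (by omega)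
    exact T.kill a (by omega)
  | succ t ih =>
    intro ht hY
    have h4 := ih (by omega)
    have c1 := T.C4 (i := i) (j := i + 1 - h + t) (by omega) (by omega) (by omega)
    have c2 := T.C4 (i := i - 1) (j := i + 1 - h + t) (by omega) (by omega) (by omega)
    refine T.kill (k := 6) (x := 2 * i + 1) (y := 2 * (i + 1 - h + t) + 1) ?_ (by omega) hY
    exact T.rule (k1 := 5) (x1 := 2 * i) (y1 := 2 * (i + 1 - h + t))
      ⟨by omega, by omega, by omega⟩ ⟨by omega, by omega, by omega, by omega, by omega, by omega⟩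
      h4 (fun h' => T.kill h' (by omega) hY) (T.ev (by omega))
      (T.kill c1 (by omega)) (T.kill c1 (by omega)) (T.kill c2 (by omega)) (T.kill c2 (by omega))

theorem TipS.ny6 (T : TipS g h m) {i j : ℕ} (hi : m + h + 2 ≤ i) (h1 : i + 1 ≤ j + h) (h2 : j ≤ i) :
    ¬ g 6 (2 * i + 1) (2 * j) := by
  have h3 := T.NY6 hi (j - (i + 1 - h)) (by omega)
  have e : i + 1 - h + (j - (i + 1 - h)) = j := by omega
  rwa [e] at h3

end Pool.Agent.SNT.Hole
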