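import Pool.Agent.SNT.SBirth
import Pool.Agent.SNT.NothS
import Pool.Agent.SNT.NothF

set_option autoImplicit false

/-! NOTH and the strict birth lemma for a layer `A` over a layer `A - 1` which is not zero
(helper44): see `SBirth`.

`SExt f A b n`: the cells of the layer `A - 1` used in NOTH besides those of `SPer`, for the last
period. -/

namespace Pool.Agent.SNT

variable {f : ℕ → ℕ → ℕ → ℕ → Prop}

/-- The other cells of the layer below used in NOTH (last period, `h = A / 6`). -/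
structure SExt (f : ℕ → ℕ → ℕ → ℕ → Prop) (A b n : ℕ) : Prop where
  /-- `(2 n - 2 h, 2 n - 2 h - 4)` of the IN row -/
  i1 : ∀ x y : ℕ, x + 2 * (A / 6) = 2 * n → y + 4 = x → ¬ f (A - 1) b x y
  /-- `(2 n - 4, 2 n - 2 h - 2)` and `(2 n - 2, 2 n - 2 h)` of the IN row (`d = 2 h - 2`) -/
  i2 : ∀ x y : ℕ, x + 2 = y + 2 * (A / 6) → (x + 4 = 2 * n ∨ x + 2 = 2 * n) → ¬ f (A - 1) b x y
  /-- `(2 n - 2, 2 n - 2 h - 4)` and `(2 n, 2 n - 2 h - 2)` of the IN row (`d = 2 h + 2`) -/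
  i4 : ∀ x y : ℕ, x = y + 2 * (A / 6) + 2 → (x + 2 = 2 * n ∨ x = 2 * n) → ¬ f (A - 1) b x y
  /-- the line `2 n - 2 h + 2` of the OUT row, from the diagonal to `d = 2 h - 2` -/
  o1 : ∀ x y : ℕ, y + 2 * (A / 6) = 2 * n + 2 → x % 2 = 0 → y ≤ x → x ≤ 2 * n →
    ¬ f (A - 1) (b + 2) x y
  /-- `(2 n - 2 h, 2 n - 2 h)`, `(2 n - 2 h + 2, 2 n - 2 h)`, `(2 n, 2 n - 2 h)` of the OUT row -/
  o2 : ∀ x y : ℕ, y + 2 * (A / 6) = 2 * n → (x = y ∨ x = y + 2 ∨ x = 2 * n) →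
    ¬ f (A - 1) (b + 2) x y

/-- The window of the exact front used for NOTH. -/
structure NWinS (f : ℕ → ℕ → ℕ → ℕ → Prop) (A b1 n0 uu : ℕ) : Prop where
  lowN : ∀ k x y, k ≤ 7 → (k % 2 = 0 ∨ x % 2 = 1 ∨ y % 2 = 1) → y ≤ x →
    x ≤ y + 2 * (A / 6) + 8 → 2 * n0 ≤ x → ¬ f (A - 1) (b1 + k) x y
  low1 : ∀ I, (I = 2 ∨ I = 3) → ¬ f (A - 1) (b1 + 1) (2 * (n0 + I)) (2 * (n0 + 2))
  low3 : ∀ I J, J ≤ I → 1 ≤ J ∧ 5 ≤ I + J → (I ≤ J + A / 6 ∨ A / 6 + 2 ≤ I) → I ≤ J + A / 6 + 2 →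
    ¬ f (A - 1) (b1 + 3) (2 * (n0 + I)) (2 * (n0 + J))
  low5 : ∀ I J, J ≤ I → (8 ≤ I + J ∧ 3 ≤ J ∧ I + 2 ≤ J + A / 6 ∨ I + 1 = J + A / 6 ∧ 3 ≤ J ∨
    I = J + A / 6 ∧ (J = 3 ∧ uu = 0 ∨ 5 ≤ J) ∨ I = J + A / 6 + 1 ∧ (J = 2 ∨ J = 3) ∨
    I = 4 ∧ (J = 3 ∨ J = 2)) →
    ¬ f (A - 1) (b1 + 5) (2 * (n0 + I)) (2 * (n0 + J))
  hi5 : uu ≠ 0 → f (A - 1) (b1 + 5) (2 * (n0 + (3 + A / 6))) (2 * (n0 + 3))
  low7 : ∀ I J, J ≤ I → (J = 5 ∧ I ≤ A / 6 + 4 ∨ J = 4 ∧ (I = 4 ∨ I = 5 ∨ I = A / 6 + 4) ∨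
    I = A / 6 + 5 ∧ J = 6) → ¬ f (A - 1) (b1 + 7) (2 * (n0 + I)) (2 * (n0 + J))
  p3 : ∀ x y, y ≤ x → x < y + 2 * (A / 6) → 2 * n0 + 6 ≤ y + 2 * (A / 6) →
    (f A b1 x y ↔ Fst A b1 x y)
  t0 : ¬ f A (b1 + 1) (2 * n0 + 5) (2 * n0 + 4)
  s0 : ∀ x y, y ≤ x → x < y + 2 * (A / 6) → 2 * n0 + 6 ≤ x →
    (f A (b1 + 1) x y ↔ Fst A (b1 + 1) x y)
  s1 : ∀ x y, y ≤ x → x < y + 2 * (A / 6) → 2 * n0 + 7 ≤ x →
    (f A (b1 + 2) x y ↔ Fst A (b1 + 2) x y)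
  x1 : ∀ x y, y ≤ x → y + 2 * (A / 6) ≤ x → 2 * n0 + 9 ≤ x →
    (f A (b1 + 2) x y ↔ Fst A (b1 + 2) x y)
  s2 : ∀ x y, y ≤ x → x < y + 2 * (A / 6) → 2 * n0 + 8 ≤ y →
    (f A (b1 + 3) x y ↔ Fst A (b1 + 3) x y)
  x2 : ∀ x y, y ≤ x → y + 2 * (A / 6) ≤ x → 2 * n0 + 11 ≤ x →
    (f A (b1 + 3) x y ↔ Fst A (b1 + 3) x y)
  s3 : ∀ x y, y ≤ x → x < y + 2 * (A / 6) → 2 * n0 + 10 ≤ y →
    (f A (b1 + 4) x y ↔ Fst A (b1 + 4) x y)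
  dg : f A (b1 + 4) (2 * n0 + 9) (2 * n0 + 9)
  t4 : ¬ f A (b1 + 5) (2 * (n0 + A / 6 + 4) + 1) (2 * (n0 + A / 6 + 4))
  x4 : ∀ x y, y ≤ x → y + 2 * (A / 6) ≤ x → 2 * (n0 + A / 6 + 4) + 3 ≤ x →
    (f A (b1 + 5) x y ↔ Fst A (b1 + 5) x y)
  s5 : ∀ x y, y ≤ x → x < y + 2 * (A / 6) → 2 * (n0 + A / 6 + 4) + 3 ≤ x →
    (f A (b1 + 6) x y ↔ Fst A (b1 + 6) x y)

/-- An all even cell of the layer below is zero. -/
def LZ (h uu k I J : ℕ) : Prop :=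
  k ≤ 1 ∧ J = 2 ∧ (I = 2 ∨ I = 3) ∨
  (k = 2 ∨ k = 3) ∧ 1 ≤ J ∧ 5 ≤ I + J ∧ (I ≤ J + h ∨ h + 2 ≤ I) ∧ I ≤ J + h + 2 ∨
  (k = 4 ∨ k = 5) ∧ (8 ≤ I + J ∧ 3 ≤ J ∧ I + 2 ≤ J + h ∨ I + 1 = J + h ∧ 3 ≤ J ∨
    I = J + h ∧ (J = 3 ∧ uu = 0 ∨ 5 ≤ J) ∨ I = J + h + 1 ∧ (J = 2 ∨ J = 3) ∨ I = 4 ∧ (J = 3 ∨ J = 2)) ∨
  k = 6 ∧ (J = 5 ∧ I ≤ h + 4 ∨ J = 4 ∧ (I = 4 ∨ I = 5 ∨ I = h + 4) ∨ I = h + 5 ∧ J = 6)

theorem NWinS.box (hf : Rule f) {A b1 n0 uu : ℕ} (W : NWinS f A b1 n0 uu)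
    {k X Y I J q r s : ℕ} (hk : k ≤ 6) (hz : LZ (A / 6) uu k I J) (hJI : J ≤ I)
    (hX : X ≤ 2 * (n0 + I) ∧ 2 * (n0 + I) ≤ X + 1 ∧ 2 * n0 ≤ X)
    (hY : Y ≤ 2 * (n0 + J) ∧ 2 * (n0 + J) ≤ Y + 1 ∧ 2 * n0 ≤ Y)
    (hd : X ≤ Y + 2 * (A / 6) + 7)
    (hq : q ≤ 1) (hr : r ≤ 1) (hs : s ≤ 1) :
    ¬ f (A - 1) (b1 + k + 1 - q) (X + 1 - r) (Y + 1 - s) := by
  have key : ∀ U V : ℕ, V ≤ U → U ≤ V + 2 * (A / 6) + 8 → 2 * n0 ≤ U →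
      (U % 2 = 0 → V % 2 = 0 → U = 2 * (n0 + I) ∧ V = 2 * (n0 + J)) →
      ¬ f (A - 1) (b1 + (k + 1 - q)) U V := by
    intro U V h1 h2 h3 h4
    by_cases hE : (k + 1 - q) % 2 = 1 ∧ U % 2 = 0 ∧ V % 2 = 0
    · obtain ⟨rfl, rfl⟩ := h4 hE.2.1 hE.2.2
      clear h4
      rcases hz with ⟨hk1, h5, h6⟩ | ⟨hk1, h5, h6, h7, h8⟩ | ⟨hk1, h5⟩ | ⟨hk1, h5⟩
      · have e : k + 1 - q = 1 := by omega
        rw [e, h5]
        exact W.low1 I h6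
      · have e : k + 1 - q = 3 := by omega
        rw [e]
        exact W.low3 I J hJI ⟨h5, h6⟩ h7 h8
      · have e : k + 1 - q = 5 := by clear h5; omega
        rw [e]
        exact W.low5 I J hJI h5
      · have e : k + 1 - q = 7 := by clear h5; omega
        rw [e]
        exact W.low7 I J hJI h5
    · exact W.lowN _ _ _ (by omega) (by omega) h1 h2 h3
  have e0 : b1 + k + 1 - q = b1 + (k + 1 - q) := by omega
  rw [e0]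
  rcases Nat.lt_or_ge (X + 1 - r) (Y + 1 - s) with h1 | h1
  · rw [hf.swap_xy]
    exact key _ _ (by omega) (by omega) (by omega) (by omega)
  · exact key _ _ h1 (by omega) (by omega) (by omega)

theorem iso_winS (hf : Rule f) {A b1 n0 uu : ℕ} (hA : A % 2 = 0)
    (hb4 : (A + b1) % 4 = 1) (W : NWinS f A b1 n0 uu) :
    NothS.Iso (A / 6) uu (bE f A b1 n0) (bX f A b1 n0) (bY f A b1 n0) (bO f A b1 n0) := by
  have kd : ∀ {b' x' y' b x y : ℕ}, f A b x y → b' ≤ b ∧ b ≤ b' + 1 ∧ x' ≤ x ∧ x ≤ x' + 1 ∧ y' ≤ y ∧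
      y ≤ y' + 1 ∧ b' + x' + y' < b + x + y → ¬ f A b' x' y' := by
    intro b' x' y' b x y h hc h'
    exact Hole.kill_gen hf h' (by omega) h
  refine ⟨?_, ?_, ?_, ?_, ?_, ?_, ?_, ?_, ?_, ?_, ?_, ?_⟩
  · intro k i j h
    exact ⟨kd h (by omega), kd h (by omega), kd h (by omega), kd h (by omega), kd h (by omega),
      kd h (by omega), kd h (by omega)⟩
  · intro k i j h
    exact ⟨kd h (by omega), kd h (by omega), kd h (by omega), kd h (by omega), kd h (by omega),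
      kd h (by omega), kd h (by omega)⟩
  · intro k i j h
    exact ⟨kd h (by omega), kd h (by omega), kd h (by omega), kd h (by omega), kd h (by omega),
      kd h (by omega), kd h (by omega)⟩
  · intro k i j h
    exact ⟨kd h (by omega), kd h (by omega), kd h (by omega), kd h (by omega), kd h (by omega),
      kd h (by omega), kd h (by omega)⟩
  · rintro k i j ⟨hk, hji, hij, hz⟩ ⟨g1, g2, g3, g4, g5, g6, g7⟩
    have hz' : LZ (A / 6) uu k (i + 1) j := hz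
    clear hz
    refine Hole.rule_gen (b1 := b1 + k) (x1 := 2 * (n0 + i) + 1) (y1 := 2 * (n0 + j)) hf
      ⟨by omega, by omega, by omega⟩ (by omega) ?_ g2 g1 g3 g4 g6 g5 g7
    intro q r s hq hr hs
    exact W.box hf hk (I := i + 1) (J := j) hz' (by omega) (by omega) (by omega)
      (by omega) hq hr hs
  · rintro k i j ⟨hk, hji, hij, hz⟩ ⟨g1, g2, g3, g4, g5, g6, g7⟩
    have hz' : LZ (A / 6) uu k i (j + 1) := hz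
    clear hz
    refine Hole.rule_gen (b1 := b1 + k) (x1 := 2 * (n0 + i)) (y1 := 2 * (n0 + j) + 1) hf
      ⟨by omega, by omega, by omega⟩ (by omega) ?_ g1 g2 g3 g4 g5 g6 g7
    intro q r s hq hr hs
    exact W.box hf hk (I := i) (J := j + 1) hz' (by omega) (by omega) (by omega)
      (by omega) hq hr hs
  · rintro k i j ⟨hk, hji, hij, hz⟩ ⟨g1, g2, g3, g4, g5, g6, g7⟩
    have hz' : LZ (A / 6) uu k i j := hz
    clear hz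
    refine Hole.rule_gen (b1 := b1 + k) (x1 := 2 * (n0 + i)) (y1 := 2 * (n0 + j)) hf
      ⟨by omega, by omega, by omega⟩ (by omega) ?_ g2 g1 g3 g4 g6 g5 g7
    intro q r s hq hr hs
    exact W.box hf hk (I := i) (J := j) hz' (by omega) (by omega) (by omega)
      (by omega) hq hr hs
  · rintro k i j ⟨hk, hk2, hji, hij, hz⟩ ⟨g1, g2, g3, g4, g5, g6, g7⟩
    have hz' : LZ (A / 6) uu k (i + 1) (j + 1) := by
      rcases hz with ⟨h1, h2⟩ | ⟨h1, h2⟩ | ⟨h1, h2⟩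
      · exact Or.inl ⟨by clear h2; omega, h2⟩
      · exact Or.inr (Or.inl ⟨Or.inr h1, h2⟩)
      · exact Or.inr (Or.inr (Or.inl ⟨Or.inr h1, h2⟩))
    clear hz
    refine Hole.rule_gen (b1 := b1 + k) (x1 := 2 * (n0 + i) + 1) (y1 := 2 * (n0 + j) + 1) hf
      ⟨by omega, by omega, by omega⟩ (by omega) ?_ g2 g1 g3 g4 g6 g5 g7
    intro q r s hq hr hs
    exact W.box hf hk (I := i + 1) (J := j + 1) hz' (by omega) (by omega) (by omega)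
      (by omega) hq hr hs
  · rintro ho ⟨g1, g2, g3, g4, g5, g6, g7⟩
    refine Hole.rule_gen (b1 := b1 + 5) (x1 := 2 * (n0 + (A / 6 + 4))) (y1 := 2 * (n0 + 3) + 1) hf
      ⟨by omega, by omega, by omega⟩ (by omega) ?_ g1 g2 g3 g4 g5 g6 g7
    intro q r s hq hr hs hP
    have e0 : b1 + 5 + 1 - q = b1 + (6 - q) := by omega
    rw [e0] at hP
    by_cases hE : q = 1 ∧ r = 1 ∧ s = 0
    · obtain ⟨rfl, rfl, rfl⟩ := hE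
      refine Hole.kill_gen hf hP ?_ ho
      omega
    · rcases Nat.lt_or_ge (2 * (n0 + (A / 6 + 4)) + 1 - r) (2 * (n0 + 3) + 1 + 1 - s) with h1 | h1
      · omega
      · exact W.lowN _ _ _ (by omega) (by omega) h1 (by omega) (by omega) hP
  · intro hu
    have h5 := W.hi5 hu
    have kk : ∀ {b' x' y' : ℕ}, b1 + 5 ≤ b' ∧ b' ≤ b1 + 6 ∧ 2 * (n0 + (3 + A / 6)) ≤ x' ∧
        x' ≤ 2 * (n0 + (3 + A / 6)) + 1 ∧ 2 * (n0 + 3) ≤ y' ∧ y' ≤ 2 * (n0 + 3) + 1 ∧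
        b1 + 5 + 2 * (n0 + (3 + A / 6)) + 2 * (n0 + 3) < b' + x' + y' → ¬ f A b' x' y' := by
      intro b' x' y' hc
      exact Hole.kill_gen hf h5 (by omega)
    exact ⟨kk (by omega), kk (by omega), kk (by omega), kk (by omega), kk (by omega),
      kk (by omega), kk (by omega)⟩
  · intro k i j hk hff
    exact hf.not_allEven hff ⟨hA, by omega, by omega, by omega⟩
  · intro k i j
    exact hf.swap_xy _ _ _ _

end Pool.Agent.SNT
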