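import Pool.Agent.SNT.SNothF

set_option autoImplicit false

namespace Pool.Agent.SNT

variable {f : ℕ → ℕ → ℕ → ℕ → Prop}

set_option maxHeartbeats 4000000 in
/-- The static cells used in NOTH. -/
theorem hyp_winS (hf : Rule f) {A b1 n0 uu : ℕ} (hA : A % 2 = 0) (hh : 4 ≤ A / 6)
    (hb4 : (A + b1) % 4 = 1) (hb : 2 * A + 40 ≤ b1) (W : NWinS f A b1 n0 uu) :
    NothS.Hyp (A / 6) uu (bE f A b1 n0) (bX f A b1 n0) (bY f A b1 n0) (bO f A b1 n0) := by
  have iso := iso_winS hf hA hb4 W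
  obtain ⟨h, hh'⟩ : ∃ h, h = A / 6 := ⟨_, rfl⟩
  rw [← hh'] at iso ⊢
  have P3 : ∀ x y, y ≤ x → x < y + 2 * h → 2 * n0 + 6 ≤ y + 2 * h →
      (f A (b1 + 0) x y ↔ NF h 1 x y) := by
    intro x y h0 h1 h2
    have h3 := (W.p3 x y h0 (by omega) (by omega)).trans (Fst_near hA (by omega))
    rw [← hh', hb4] at h3
    exact h3
  have S0 : ∀ x y, y ≤ x → x < y + 2 * h → 2 * n0 + 6 ≤ x →
      (f A (b1 + 1) x y ↔ NF h 2 x y) := by
    intro x y h0 h1 h2
    have h3 := (W.s0 x y h0 (by omega) (by omega)).trans (Fst_near hA (by omega))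
    rw [← hh', show (A + (b1 + 1)) % 4 = 2 by omega] at h3
    exact h3
  have S1 : ∀ x y, y ≤ x → x < y + 2 * h → 2 * n0 + 7 ≤ x →
      (f A (b1 + 2) x y ↔ NF h 3 x y) := by
    intro x y h0 h1 h2
    have h3 := (W.s1 x y h0 (by omega) (by omega)).trans (Fst_near hA (by omega))
    rw [← hh', show (A + (b1 + 2)) % 4 = 3 by omega] at h3
    exact h3
  have X1 : ∀ x y, y ≤ x → y + 2 * h ≤ x ∧ x ≤ y + 2 * h + 12 → 2 * n0 + 9 ≤ x →
      (f A (b1 + 2) x y ↔ NF h 3 x y) := by
    intro x y h0 h1 h2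
    have h3 := (W.x1 x y h0 (by omega) (by omega)).trans (Fst_near hA (by omega))
    rw [← hh', show (A + (b1 + 2)) % 4 = 3 by omega] at h3
    exact h3
  have S2 : ∀ x y, y ≤ x → x < y + 2 * h → 2 * n0 + 8 ≤ y →
      (f A (b1 + 3) x y ↔ NF h 0 x y) := by
    intro x y h0 h1 h2
    have h3 := (W.s2 x y h0 (by omega) (by omega)).trans (Fst_near hA (by omega))
    rw [← hh', show (A + (b1 + 3)) % 4 = 0 by omega] at h3
    exact h3
  have X2 : ∀ x y, y ≤ x → y + 2 * h ≤ x ∧ x ≤ y + 2 * h + 12 → 2 * n0 + 11 ≤ x →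
      (f A (b1 + 3) x y ↔ NF h 0 x y) := by
    intro x y h0 h1 h2
    have h3 := (W.x2 x y h0 (by omega) (by omega)).trans (Fst_near hA (by omega))
    rw [← hh', show (A + (b1 + 3)) % 4 = 0 by omega] at h3
    exact h3
  have S3 : ∀ x y, y ≤ x → x < y + 2 * h → 2 * n0 + 10 ≤ y →
      (f A (b1 + 4) x y ↔ NF h 1 x y) := by
    intro x y h0 h1 h2
    have h3 := (W.s3 x y h0 (by omega) (by omega)).trans (Fst_near hA (by omega))
    rw [← hh', show (A + (b1 + 4)) % 4 = 1 by omega] at h3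
    exact h3
  have h4 : 4 ≤ h := by omega
  refine
    { iso := iso, h4 := h4, a1 := ?_, a2 := ?_, a3 := ?_, a4 := ?_, a5 := ?_, a6 := ?_, b1 := ?_,
      b2 := ?_, c1 := ?_, c2 := ?_, c3 := ?_, c4 := ?_, c5 := ?_, c6 := ?_, c7 := ?_, c8 := ?_,
      c9 := ?_, c10 := ?_, c11 := ?_, d1 := ?_, d2 := ?_, d3 := ?_, d4 := ?_, d5 := ?_, d6 := ?_,
      d7 := ?_, d8 := ?_, d9 := ?_, d10 := ?_, d11 := ?_, d12 := ?_, d13 := ?_, d14 := ?_,
      d15 := ?_, e1 := ?_, e2 := ?_, f1 := ?_ }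
  · show f A (b1 + 0) _ _
    rw [P3 _ _ (by omega) (by omega) (by omega)]; unfold NF; omega
  · show f A (b1 + 0) _ _
    rw [P3 _ _ (by omega) (by omega) (by omega)]; unfold NF; omega
  · show ¬ f A (b1 + 0) _ _
    rw [P3 _ _ (by omega) (by omega) (by omega)]; unfold NF; omega
  · show ¬ f A (b1 + 0) _ _
    rw [P3 _ _ (by omega) (by omega) (by omega)]; unfold NF; omega
  · show ¬ f A (b1 + 0) _ _
    rw [P3 _ _ (by omega) (by omega) (by omega)]; unfold NF; omega
  · show ¬ f A (b1 + 0) _ _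
    rw [P3 _ _ (by omega) (by omega) (by omega)]; unfold NF; omega
  · exact W.t0
  · show ¬ f A (b1 + 1) _ _
    rw [S0 _ _ (by omega) (by omega) (by omega)]; unfold NF; omega
  · intro i h1 h2
    refine ⟨?_, ?_, ?_, ?_⟩
    · show ¬ f A (b1 + 2) _ _
      rw [S1 _ _ (by omega) (by omega) (by omega)]; unfold NF; omega
    · show ¬ f A (b1 + 2) _ _
      rw [S1 _ _ (by omega) (by omega) (by omega)]; unfold NF; omega
    · show ¬ f A (b1 + 2) _ _
      rw [S1 _ _ (by omega) (by omega) (by omega)]; unfold NF; omega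
    · show ¬ f A (b1 + 2) _ _
      rw [S1 _ _ (by omega) (by omega) (by omega)]; unfold NF; omega
  · intro i h1 h2
    refine ⟨?_, ?_, ?_, ?_⟩
    · show ¬ f A (b1 + 2) _ _
      rw [S1 _ _ (by omega) (by omega) (by omega)]; unfold NF; omega
    · show ¬ f A (b1 + 2) _ _
      rw [S1 _ _ (by omega) (by omega) (by omega)]; unfold NF; omega
    · show ¬ f A (b1 + 2) _ _
      rw [S1 _ _ (by omega) (by omega) (by omega)]; unfold NF; omega
    · show ¬ f A (b1 + 2) _ _
      rw [S1 _ _ (by omega) (by omega) (by omega)]; unfold NF; omega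
  · show ¬ f A (b1 + 2) _ _
    rw [X1 _ _ (by omega) (by omega) (by omega)]; unfold NF; omega
  · show ¬ f A (b1 + 2) _ _
    rw [S1 _ _ (by omega) (by omega) (by omega)]; unfold NF; omega
  · show ¬ f A (b1 + 2) _ _
    rw [S1 _ _ (by omega) (by omega) (by omega)]; unfold NF; omega
  · show ¬ f A (b1 + 2) _ _
    rw [S1 _ _ (by omega) (by omega) (by omega)]; unfold NF; omega
  · show ¬ f A (b1 + 2) _ _
    rw [S1 _ _ (by omega) (by omega) (by omega)]; unfold NF; omega
  · show ¬ f A (b1 + 2) _ _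
    rw [S1 _ _ (by omega) (by omega) (by omega)]; unfold NF; omega
  · show ¬ f A (b1 + 2) _ _
    rw [S1 _ _ (by omega) (by omega) (by omega)]; unfold NF; omega
  · show f A (b1 + 2) _ _
    rw [X1 _ _ (by omega) (by omega) (by omega)]; unfold NF; omega
  · intro i h1 h2
    refine ⟨?_, ?_, ?_, ?_⟩
    · show ¬ f A (b1 + 2) _ _
      rw [S1 _ _ (by omega) (by omega) (by omega)]; unfold NF; omega
    · show ¬ f A (b1 + 2) _ _
      rw [S1 _ _ (by omega) (by omega) (by omega)]; unfold NF; omega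
    · show ¬ f A (b1 + 2) _ _
      rw [S1 _ _ (by omega) (by omega) (by omega)]; unfold NF; omega
    · show ¬ f A (b1 + 2) _ _
      rw [S1 _ _ (by omega) (by omega) (by omega)]; unfold NF; omega
  · intro i h1 h2
    show f A (b1 + 3) _ _
    rw [S2 _ _ (by omega) (by omega) (by omega)]; unfold NF; omega
  · intro i h1 h2
    show ¬ f A (b1 + 3) _ _
    rw [S2 _ _ (by omega) (by omega) (by omega)]; unfold NF; omega
  · show f A (b1 + 3) _ _
    rw [X2 _ _ (by omega) (by omega) (by omega)]; unfold NF; omega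
  · refine ⟨?_, ?_, ?_, ?_⟩
    · show ¬ f A (b1 + 3) _ _
      rw [X2 _ _ (by omega) (by omega) (by omega)]; unfold NF; omega
    · show ¬ f A (b1 + 3) _ _
      rw [X2 _ _ (by omega) (by omega) (by omega)]; unfold NF; omega
    · show ¬ f A (b1 + 3) _ _
      rw [X2 _ _ (by omega) (by omega) (by omega)]; unfold NF; omega
    · show ¬ f A (b1 + 3) _ _
      rw [X2 _ _ (by omega) (by omega) (by omega)]; unfold NF; omega
  · show f A (b1 + 3) _ _
    rw [X2 _ _ (by omega) (by omega) (by omega)]; unfold NF; omega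
  · refine ⟨?_, ?_, ?_, ?_⟩
    · show ¬ f A (b1 + 3) _ _
      rw [X2 _ _ (by omega) (by omega) (by omega)]; unfold NF; omega
    · show ¬ f A (b1 + 3) _ _
      rw [X2 _ _ (by omega) (by omega) (by omega)]; unfold NF; omega
    · show ¬ f A (b1 + 3) _ _
      rw [X2 _ _ (by omega) (by omega) (by omega)]; unfold NF; omega
    · show ¬ f A (b1 + 3) _ _
      rw [X2 _ _ (by omega) (by omega) (by omega)]; unfold NF; omega
  · show f A (b1 + 3) _ _
    rw [X2 _ _ (by omega) (by omega) (by omega)]; unfold NF; omega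
  · show f A (b1 + 3) _ _
    rw [X2 _ _ (by omega) (by omega) (by omega)]; unfold NF; omega
  · show f A (b1 + 3) _ _
    rw [X2 _ _ (by omega) (by omega) (by omega)]; unfold NF; omega
  · show f A (b1 + 3) _ _
    rw [X2 _ _ (by omega) (by omega) (by omega)]; unfold NF; omega
  · show f A (b1 + 3) _ _
    rw [X2 _ _ (by omega) (by omega) (by omega)]; unfold NF; omega
  · show f A (b1 + 3) _ _
    rw [X2 _ _ (by omega) (by omega) (by omega)]; unfold NF; omega
  · refine ⟨?_, ?_, ?_, ?_⟩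
    · show ¬ f A (b1 + 3) _ _
      rw [X2 _ _ (by omega) (by omega) (by omega)]; unfold NF; omega
    · show ¬ f A (b1 + 3) _ _
      rw [X2 _ _ (by omega) (by omega) (by omega)]; unfold NF; omega
    · show ¬ f A (b1 + 3) _ _
      rw [X2 _ _ (by omega) (by omega) (by omega)]; unfold NF; omega
    · show ¬ f A (b1 + 3) _ _
      rw [X2 _ _ (by omega) (by omega) (by omega)]; unfold NF; omega
  · refine ⟨?_, ?_, ?_, ?_⟩
    · show ¬ f A (b1 + 3) _ _
      rw [X2 _ _ (by omega) (by omega) (by omega)]; unfold NF; omega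
    · show ¬ f A (b1 + 3) _ _
      rw [X2 _ _ (by omega) (by omega) (by omega)]; unfold NF; omega
    · show ¬ f A (b1 + 3) _ _
      rw [X2 _ _ (by omega) (by omega) (by omega)]; unfold NF; omega
    · show ¬ f A (b1 + 3) _ _
      rw [X2 _ _ (by omega) (by omega) (by omega)]; unfold NF; omega
  · show ¬ f A (b1 + 3) _ _
    rw [X2 _ _ (by omega) (by omega) (by omega)]; unfold NF; omega
  · intro j h1 h2
    show f A (b1 + 4) _ _
    rcases Nat.lt_or_ge 4 j with h5 | h5
    · rw [S3 _ _ (by omega) (by omega) (by omega)]; unfold NF; omega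
    · obtain rfl : j = 4 := by omega
      exact W.dg
  · intro i j h1 h2 h5
    refine ⟨?_, ?_, ?_, ?_⟩
    · show ¬ f A (b1 + 4) _ _
      rw [S3 _ _ (by omega) (by omega) (by omega)]; unfold NF; omega
    · show ¬ f A (b1 + 4) _ _
      rw [S3 _ _ (by omega) (by omega) (by omega)]; unfold NF; omega
    · show ¬ f A (b1 + 4) _ _
      rw [S3 _ _ (by omega) (by omega) (by omega)]; unfold NF; omega
    · show ¬ f A (b1 + 4) _ _
      rw [S3 _ _ (by omega) (by omega) (by omega)]; unfold NF; omega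
  · show ¬ f A (b1 + 5) _ _
    have := W.t4
    rw [← hh'] at this
    exact this

end Pool.Agent.SNT
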