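import Pool.Agent.SNT.Asm

set_option autoImplicit false

/-! The exact game with `2 k + r` piles (a move takes one token from exactly `k` piles), `2 r ≤ k`:
with `k - 1` huge piles it is the game with moves on `1, ..., k` of the `k + 1 + r` other piles, and
its P-positions which are not all even are given by `Qf r`. -/

namespace Pool.Agent.SNT

open Finset Pointwise

/-- Number of even entries. -/
def evn {m : ℕ} (y : Fin m → ℕ) : ℕ := (univ.filter (fun i => y i % 2 = 0)).card

/-- Remove one token from each pile of `K`. -/
def sub1 {m : ℕ} (y : Fin m → ℕ) (K : Finset (Fin m)) : Fin m → ℕ :=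
  fun i => if i ∈ K then y i - 1 else y i

theorem sum_sub1 {m : ℕ} (y : Fin m → ℕ) (K : Finset (Fin m)) (hK : ∀ i ∈ K, 1 ≤ y i) :
    ∑ i, sub1 y K i + K.card = ∑ i, y i := by
  have h1 : ∀ i, sub1 y K i + (if i ∈ K then 1 else 0) = y i := by
    intro i
    unfold sub1
    by_cases h : i ∈ K
    · have := hK i h
      simp only [h, if_true]
      omega
    · simp [h]
  have h2 : ∑ i, (sub1 y K i + (if i ∈ K then 1 else 0)) = ∑ i, y i :=
    sum_congr rfl fun i _ => h1 i
  rw [sum_add_distrib] at h2
  have h3 : ∑ i, (if i ∈ K then 1 else 0) = K.card := by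
    rw [sum_boole]
    simp
  omega

theorem sum_sub1_lt {m : ℕ} (y : Fin m → ℕ) (K : Finset (Fin m)) (hK : ∀ i ∈ K, 1 ≤ y i)
    (hne : K.Nonempty) : ∑ i, sub1 y K i < ∑ i, y i := by
  have := sum_sub1 y K hK
  have := hne.card_pos
  omega

/-- The defining equation of the functions `Q`. -/
def IsQ (r : ℕ) {m : ℕ} (Q : (Fin m → ℕ) → Prop) : Prop :=
  ∀ y, Q y ↔ evn y ≤ r ∧ ∀ K : Finset (Fin m), K.Nonempty → (∀ i ∈ K, 1 ≤ y i) → ¬ Q (sub1 y K)

/-- The function `Q`. -/
def Qf (r m : ℕ) : (Fin m → ℕ) → Prop :=
  WellFounded.fix (measure (fun y : Fin m → ℕ => ∑ i, y i)).wf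
    (fun y rec => evn y ≤ r ∧ ∀ K : Finset (Fin m), ∀ hne : K.Nonempty, ∀ hK : ∀ i ∈ K, 1 ≤ y i,
      ¬ rec (sub1 y K) (sum_sub1_lt y K hK hne))

theorem isQ_Qf (r m : ℕ) : IsQ r (Qf r m) := by
  intro y
  conv_lhs => unfold Qf
  rw [WellFounded.fix_eq]
  rfl

theorem IsQ.unique {r m : ℕ} {Q Q' : (Fin m → ℕ) → Prop} (h : IsQ r Q) (h' : IsQ r Q') :
    ∀ y, Q y ↔ Q' y := by
  suffices H : ∀ s : ℕ, ∀ y : Fin m → ℕ, ∑ i, y i = s → (Q y ↔ Q' y) from fun y => H _ y rfl
  intro s
  induction s using Nat.strong_induction_on with
  | _ s ih =>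
    intro y hy
    rw [h y, h' y]
    refine and_congr_right fun _ => forall_congr' fun K => forall_congr' fun hne =>
      forall_congr' fun hK => not_congr ?_
    exact ih _ (by rw [← hy]; exact sum_sub1_lt y K hK hne) _ rfl

/-- The interval game: a move removes one token from each pile of a nonempty set of at most `k`
piles. -/
def IsI (k : ℕ) {m : ℕ} (I : (Fin m → ℕ) → Prop) : Prop :=
  ∀ y, I y ↔ ∀ K : Finset (Fin m), K.Nonempty → K.card ≤ k → (∀ i ∈ K, 1 ≤ y i) → ¬ I (sub1 y K)

theorem append_sub1 {L h : ℕ} (y : Fin L → ℕ) (M : Fin h → ℕ) (S : Finset (Fin (L + h))) :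
    (fun i => if i ∈ S then Fin.append y M i - 1 else Fin.append y M i) =
      Fin.append (sub1 y (univ.filter fun i => Fin.castAdd h i ∈ S))
        (sub1 M (univ.filter fun i => Fin.natAdd L i ∈ S)) := by
  ext i
  refine Fin.addCases (fun i => ?_) (fun i => ?_) i
  · simp [sub1, Fin.append_left]
  · simp [sub1, Fin.append_right]

theorem card_split {L h : ℕ} (S : Finset (Fin (L + h))) :
    (univ.filter fun i : Fin L => Fin.castAdd h i ∈ S).card +
      (univ.filter fun i : Fin h => Fin.natAdd L i ∈ S).card = S.card := by
  have h0 : S.card = ∑ i : Fin (L + h), (if i ∈ S then 1 else 0) := by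
    rw [sum_boole]; simp
  rw [h0, Fin.sum_univ_add, sum_boole, sum_boole]
  simp

/-- The huge piles disappear. -/
theorem slice_huge {L k : ℕ} (hk : 1 ≤ k) {P : Set (Fin (L + (k - 1)) → ℕ)}
    (hP : GameEq (L + (k - 1)) k P) {I : (Fin L → ℕ) → Prop} (hI : IsI k I) :
    ∀ (y : Fin L → ℕ) (M : Fin (k - 1) → ℕ), (∀ j, ∑ i, y i ≤ M j) →
      (Fin.append y M ∈ P ↔ I y) := by
  suffices H : ∀ s : ℕ, ∀ (y : Fin L → ℕ) (M : Fin (k - 1) → ℕ), ∑ i, y i = s →
      (∀ j, ∑ i, y i ≤ M j) → (Fin.append y M ∈ P ↔ I y) from fun y M => H _ y M rfl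
  intro s
  induction s using Nat.strong_induction_on with
  | _ s ih =>
    intro y M hy hM
    rw [hP, hI]
    constructor
    · intro h K hne hKk hK hIK
      have hsum := sum_sub1 y K hK
      have hKpos := hne.card_pos
      -- complete `K` by huge piles
      obtain ⟨S2, hS2, hS2c⟩ := Finset.exists_subset_card_eq
        (s := (univ : Finset (Fin (k - 1)))) (n := k - K.card)
        (by rw [card_univ, Fintype.card_fin]; omega)
      set S : Finset (Fin (L + (k - 1))) :=
        K.map (Fin.castAddEmb (k - 1)) ∪ S2.map (Fin.natAddEmb L) with hSdef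
      have e1 : (univ.filter fun i : Fin L => Fin.castAdd (k - 1) i ∈ S) = K := by
        ext i
        simp only [hSdef, mem_filter, mem_univ, true_and, mem_union, mem_map, Fin.castAddEmb_apply,
          Fin.natAddEmb_apply, Fin.castAdd_inj]
        constructor
        · rintro (⟨j, hj, rfl⟩ | ⟨j, _, hj⟩)
          · exact hj
          · exfalso
            have := congrArg Fin.val hj
            simp at this
            omega
        · intro hi
          exact Or.inl ⟨i, hi, rfl⟩
      have e2 : (univ.filter fun i : Fin (k - 1) => Fin.natAdd L i ∈ S) = S2 := by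
        ext i
        simp only [hSdef, mem_filter, mem_univ, true_and, mem_union, mem_map, Fin.castAddEmb_apply,
          Fin.natAddEmb_apply, Fin.natAdd_inj]
        constructor
        · rintro (⟨j, _, hj⟩ | ⟨j, hj, rfl⟩)
          · exfalso
            have := congrArg Fin.val hj
            simp at this
            omega
          · exact hj
        · intro hi
          exact Or.inr ⟨i, hi, rfl⟩
      have hSc : S.card = k := by
        rw [← card_split S, e1, e2, hS2c]
        omega
      refine h S hSc ?_ ?_
      · intro i
        refine Fin.addCases (fun i => ?_) (fun i => ?_) i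
        · intro hi
          rw [Fin.append_left]
          apply hK
          have : i ∈ (univ.filter fun i : Fin L => Fin.castAdd (k - 1) i ∈ S) := by simpa using hi
          rwa [e1] at this
        · intro hi
          rw [Fin.append_right]
          have := hM i
          omega
      · rw [append_sub1, e1, e2]
        refine (ih _ (by omega) _ _ rfl ?_).2 hIK
        intro j
        have h1 := hM j
        have h2 : M j - 1 ≤ sub1 M S2 j := by
          unfold sub1; split_ifs <;> omega
        omega
    · intro h S hSc hS hSP
      rw [append_sub1] at hSP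
      set K := (univ.filter fun i : Fin L => Fin.castAdd (k - 1) i ∈ S) with hKdef
      set S2 := (univ.filter fun i : Fin (k - 1) => Fin.natAdd L i ∈ S) with hS2def
      have hc := card_split S
      rw [← hKdef, ← hS2def, hSc] at hc
      have hS2 : S2.card ≤ k - 1 := by
        calc S2.card ≤ (univ : Finset (Fin (k - 1))).card := card_le_univ _
          _ = k - 1 := by simp
      have hKpos : 0 < K.card := by omega
      have hK1 : ∀ i ∈ K, 1 ≤ y i := by
        intro i hi
        have := hS (Fin.castAdd (k - 1) i) (by simpa [hKdef] using hi)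
        rwa [Fin.append_left] at this
      have hsum := sum_sub1 y K hK1
      refine h K (card_pos.1 hKpos) (by omega) hK1 ?_
      refine (ih _ (by omega) _ _ rfl ?_).1 hSP
      intro j
      have h1 := hM j
      have h2 : M j - 1 ≤ sub1 M S2 j := by
        unfold sub1; split_ifs <;> omega
      omega

/-- Number of odd entries. -/
def odn {m : ℕ} (y : Fin m → ℕ) : Finset (Fin m) := univ.filter (fun i => y i % 2 = 1)

theorem evn_add_odn {m : ℕ} (y : Fin m → ℕ) : evn y + (odn y).card = m := by
  unfold evn odn
  have := Finset.card_filter_add_card_filter_not (s := (univ : Finset (Fin m)))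
    (fun i => y i % 2 = 0)
  rw [card_univ, Fintype.card_fin] at this
  have h2 : (univ.filter fun i => ¬ (y i % 2 = 0)) = univ.filter (fun i => y i % 2 = 1) := by
    ext i
    simp only [mem_filter, mem_univ, true_and]
    omega
  rw [h2] at this
  exact this

/-- All entries even. -/
def AllEven {m : ℕ} (y : Fin m → ℕ) : Prop := ∀ i, y i % 2 = 0

theorem interval_iff {k r : ℕ} (hr : 2 * r ≤ k) {I : (Fin (k + 1 + r) → ℕ) → Prop} (hI : IsI k I)
    {Q : (Fin (k + 1 + r) → ℕ) → Prop} (hQ : IsQ r Q) :
    ∀ y, I y ↔ (AllEven y ∨ Q y) := by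
  suffices H : ∀ s : ℕ, ∀ y : Fin (k + 1 + r) → ℕ, ∑ i, y i = s → (I y ↔ (AllEven y ∨ Q y)) from
    fun y => H _ y rfl
  intro s
  induction s using Nat.strong_induction_on with
  | _ s ih =>
    intro y hy
    have hcard := evn_add_odn y
    by_cases hev : AllEven y
    · -- pairing
      refine ⟨fun _ => Or.inl hev, fun _ => (hI y).2 fun K hne hKk hK hIK => ?_⟩
      rw [hI] at hIK
      have h2 : ∀ i ∈ K, 1 ≤ sub1 y K i := by
        intro i hi
        have h3 := hK i hi
        have h4 := hev i
        unfold sub1
        simp only [hi, if_true]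
        omega
      refine hIK K hne hKk h2 ?_
      refine (ih _ ?_ _ rfl).2 (Or.inl ?_)
      · have h5 := sum_sub1_lt _ K h2 hne
        have h6 := sum_sub1_lt _ K hK hne
        omega
      · intro i
        have h4 := hev i
        unfold sub1
        by_cases hi : i ∈ K
        · have h3 := hK i hi
          simp only [hi, if_true]
          omega
        · simp only [hi, if_false]
          exact h4
    · have hodd : (odn y).Nonempty := by
        unfold AllEven at hev
        push Not at hev
        obtain ⟨i, hi⟩ := hev
        exact ⟨i, by simp only [odn, mem_filter, mem_univ, true_and]; omega⟩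
      by_cases hr' : evn y ≤ r
      · -- the all-even positions are out of reach
        rw [hI, or_iff_right hev, hQ]
        have hne : ∀ K : Finset (Fin (k + 1 + r)), K.card ≤ k → ¬ AllEven (sub1 y K) := by
          intro K hK hall
          have : odn y ⊆ K := by
            intro i hi
            by_contra hiK
            have h1 := hall i
            simp only [odn, mem_filter, mem_univ, true_and] at hi
            unfold sub1 at h1
            simp only [hiK, if_false] at h1
            omega
          have := card_le_card this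
          omega
        constructor
        · intro h
          refine ⟨hr', fun K hKne hK hQK => ?_⟩
          have hQK' := (hQ _).1 hQK
          have hcap : K.card ≤ k := by
            have h1 : K ⊆ (univ.filter (fun i => y i % 2 = 0)) ∪
                (univ.filter (fun i => sub1 y K i % 2 = 0)) := by
              intro i hi
              simp only [mem_union, mem_filter, mem_univ, true_and]
              have := hK i hi
              unfold sub1
              simp only [hi, if_true]
              omega
            have h2 := (card_le_card h1).trans (card_union_le _ _)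
            have h3 : (univ.filter (fun i => y i % 2 = 0)).card = evn y := rfl
            have h4 : (univ.filter (fun i => sub1 y K i % 2 = 0)).card = evn (sub1 y K) := rfl
            have h5 := hQK'.1
            omega
          refine h K hKne hcap hK ((ih _ ?_ _ rfl).2 (Or.inr hQK))
          rw [← hy]
          exact sum_sub1_lt y K hK hKne
        · rintro ⟨_, h⟩ K hKne hKk hK hIK
          rcases (ih _ (by rw [← hy]; exact sum_sub1_lt y K hK hKne) _ rfl).1 hIK with h1 | h1
          · exact hne K hKk h1
          · exact h K hKne hK h1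
      · -- few odd piles: move to all even
        constructor
        · intro h
          exfalso
          rw [hI] at h
          have h1 : ∀ i ∈ odn y, 1 ≤ y i := by
            intro i hi
            simp only [odn, mem_filter, mem_univ, true_and] at hi
            omega
          refine h (odn y) hodd (by omega) h1 ?_
          refine (ih _ (by rw [← hy]; exact sum_sub1_lt y _ h1 hodd) _ rfl).2 (Or.inl ?_)
          intro i
          unfold sub1
          by_cases hi : i ∈ odn y
          · have hi' := hi
            simp only [odn, mem_filter, mem_univ, true_and] at hi'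
            simp only [hi, if_true]
            omega
          · have hi' := hi
            simp only [odn, mem_filter, mem_univ, true_and] at hi'
            simp only [hi, if_false]
            omega
        · rintro (h | h)
          · exact absurd h hev
          · exact absurd ((hQ y).1 h).1 hr'

/-- The interval game exists. -/
def If (k m : ℕ) : (Fin m → ℕ) → Prop :=
  WellFounded.fix (measure (fun y : Fin m → ℕ => ∑ i, y i)).wf
    (fun y rec => ∀ K : Finset (Fin m), ∀ hne : K.Nonempty, ∀ _ : K.card ≤ k,
      ∀ hK : ∀ i ∈ K, 1 ≤ y i, ¬ rec (sub1 y K) (sum_sub1_lt y K hK hne))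

theorem isI_If (k m : ℕ) : IsI k (If k m) := by
  intro y
  conv_lhs => unfold If
  rw [WellFounded.fix_eq]
  rfl

/-- The set `Q` for `k + 1 + r` piles is a slice of the P-positions. -/
theorem Qf_iff {k r : ℕ} (hk : 1 ≤ k) (hr : 2 * r ≤ k)
    {P : Set (Fin (k + 1 + r + (k - 1)) → ℕ)} (hP : GameEq (k + 1 + r + (k - 1)) k P)
    (y : Fin (k + 1 + r) → ℕ) :
    Qf r (k + 1 + r) y ↔
      (Fin.append y (fun _ : Fin (k - 1) => ∑ i, y i) ∈ P ∧ ¬ AllEven y) := by
  have h1 := slice_huge hk hP (isI_If k _) y (fun _ => ∑ i, y i) (fun _ => le_rfl)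
  have h2 := interval_iff hr (isI_If k _) (isQ_Qf r _) y
  rw [h1, h2]
  constructor
  · intro h
    refine ⟨Or.inr h, fun hall => ?_⟩
    have h3 := ((isQ_Qf r _ y).1 h).1
    have h4 := evn_add_odn y
    have h5 : (odn y).card = 0 := by
      rw [card_eq_zero]
      ext i
      simp only [odn, mem_filter, mem_univ, true_and, notMem_empty, iff_false]
      have := hall i
      omega
    omega
  · rintro ⟨h | h, h'⟩
    · exact absurd h h'
    · exact h

/-- `Q` for `k + 1 + r` piles is semilinear if the P-positions are. -/
theorem semilinear_Qf {k r : ℕ} (hk : 1 ≤ k) (hr : 2 * r ≤ k)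
    {P : Set (Fin (k + 1 + r + (k - 1)) → ℕ)} (hP : GameEq (k + 1 + r + (k - 1)) k P)
    (hs : IsSemilinearSet P) : IsSemilinearSet {y | Qf r (k + 1 + r) y} := by
  let φ : (Fin (k + 1 + r) → ℕ) →ₗ[ℕ] (Fin (k + 1 + r + (k - 1)) → ℕ) :=
    { toFun := fun y => Fin.append y (fun _ : Fin (k - 1) => ∑ i, y i)
      map_add' := by
        intro y y'
        ext i
        refine Fin.addCases (fun i => ?_) (fun i => ?_) i
        · simp [Fin.append_left]
        · simp [Fin.append_right, sum_add_distrib]
      map_smul' := by
        intro c y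
        ext i
        refine Fin.addCases (fun i => ?_) (fun i => ?_) i
        · simp [Fin.append_left]
        · simp [Fin.append_right, mul_sum] }
  have h1 : IsSemilinearSet (φ ⁻¹' P) := hs.preimage φ
  have h2 : IsSemilinearSet {y : Fin (k + 1 + r) → ℕ | AllEven y} := by
    have h3 : IsSemilinearSet ((LinearMap.lsmul ℕ (Fin (k + 1 + r) → ℕ) 2) ''
        (Set.univ : Set (Fin (k + 1 + r) → ℕ))) := (IsSemilinearSet.univ).image _
    convert h3 using 1
    ext y
    simp only [Set.mem_ofPred_eq, Set.mem_image, Set.mem_univ, true_and, LinearMap.lsmul_apply]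
    constructor
    · intro hy
      refine ⟨fun i => y i / 2, ?_⟩
      ext i
      have := hy i
      simp only [Pi.smul_apply, smul_eq_mul]
      omega
    · rintro ⟨x, rfl⟩ i
      simp only [Pi.smul_apply, smul_eq_mul]
      omega
  have h3 := h1.inter h2.compl
  convert h3 using 1
  ext y
  exact Qf_iff hk hr hP y

end Pool.Agent.SNT
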