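import Pool.Agent.SNT.RunS
import Pool.Agent.SNT.PfDef
import Pool.Agent.SNT.Base48

set_option autoImplicit false

/-! The frame of the induction: the hypotheses `up` and `low` of the record for the layers
`6 k, .., 6 k + 10`, and the end of the proof. -/

namespace Pool.Agent.SNT

variable {f : ℕ → ℕ → ℕ → ℕ → Prop}

/-- The induction statement. -/
def SK (f : ℕ → ℕ → ℕ → ℕ → Prop) (k : ℕ) : Prop := ∃ i : ℕ, i ≤ 2 ∧ SS f (6 * k + 2 * i)

/-- A linear bound of slope `(k + 2) / 2` of the thresholds gives a bound of the offsets. -/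
theorem pf_of_linS (hf : Rule f) {k a M C : ℕ} (hk : 2 ≤ k) (ha : a % 2 = 0)
    (hl : LinS f (a - 1) (2 * k + 4) C) (h : LinS f a (2 * k + 4) M) :
    ∃ J : ℤ, ∃ B : ℕ, ∀ b : ℕ, B ≤ b → Pf k f a b J := by
  refine ⟨((M : ℤ) + C + (k + 2) * a + 16 * (k + a + 20)), a + 4, ?_⟩
  intro b hb ha2 hb2 hab n hn
  have e1 := nuLead_exact (k := k) ha2 hab
  have h8 : (8 : ℤ) * b ≤ (2 * (k : ℤ) + 4) * b := by
    have : (8 : ℤ) ≤ 2 * (k : ℤ) + 4 := by omega
    exact mul_le_mul_of_nonneg_right this (by omega)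
  have h9 : (0 : ℤ) ≤ ((k : ℤ) + 2) * a := by positivity
  have key : (2 * (k : ℤ) + 4) * b + 8 * M + 8 * C + 128 * (k + a + 20) ≤ 8 * (n : ℤ) := by
    have e2 : 8 * nuLead k a b = (2 * (k : ℤ) + 4) * b + 4 * k - 2 * ((k : ℤ) - 2) * a := by
      linear_combination 2 * e1
    have e3 : 8 * (nuLead k a b + ((M : ℤ) + C + (k + 2) * a + 16 * (k + a + 20))) =
        (2 * (k : ℤ) + 4) * b + 4 * k - 2 * ((k : ℤ) - 2) * a + 8 * M + 8 * C +
          8 * ((k : ℤ) + 2) * a + 128 * (k + a + 20) := by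
      linear_combination e2
    have e4 : - 2 * ((k : ℤ) - 2) * a + 8 * ((k : ℤ) + 2) * a = 6 * (((k : ℤ) + 2) * a) + 8 * a := by
      ring
    have : (0 : ℤ) ≤ (a : ℤ) := by omega
    nlinarith
  have keyN : (2 * k + 4) * b + 8 * M + 8 * C + 128 * (k + a + 20) ≤ 8 * n := by
    have e5 : (((2 * k + 4) * b : ℕ) : ℤ) = (2 * (k : ℤ) + 4) * b := by push_cast; ring
    zify
    push_cast at e5
    linarith
  have h8N : 8 * b ≤ (2 * k + 4) * b := Nat.mul_le_mul_right _ (by omega)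
  refine cycle hf (by omega) ha hb2 hab (by omega) (by omega) (h b _ (by omega)) ?_
  intro i hi _
  refine hl _ _ ?_
  have h11 : (2 * k + 4) * (b + i) = (2 * k + 4) * b + (2 * k + 4) * i := by ring
  have h12 : (2 * k + 4) * i ≤ (2 * k + 4) * 4 := Nat.mul_le_mul_left _ hi
  omega

/-- The offsets of the layers `6 k, 6 k + 2, .., 6 k + 10` are bounded, unless one of the layers
`6 k + 6`, `6 k + 8`, `6 k + 10` is violated at its own speed. -/
theorem up_of_not_SK (hf : Rule f) {k : ℕ} (hk : 3 ≤ k) (hno : ¬ SK f (k + 1)) (i : ℕ)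
    (hi : i ≤ 5) : ∃ J : ℤ, ∃ B : ℕ, ∀ b : ℕ, B ≤ b → Pf k f (6 * k + 2 * i) b J := by
  have hno' : ∀ i : ℕ, i < 3 → ¬ SS f (6 * k + 6 + 2 * i) := by
    intro i hi h
    exact hno ⟨i, by omega, by
      have e : 6 * (k + 1) + 2 * i = 6 * k + 6 + 2 * i := by ring
      rw [e]
      exact h⟩
  have all : ∀ a : ℕ, a ≤ 6 * k + 10 → ∃ C : ℕ, LinS f a (2 * k + 4) C := by
    intro a ha
    rcases Nat.lt_or_ge a (6 * k + 6) with h | h
    · exact linS_of_lin hf (by unfold cc; omega)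
    · obtain ⟨j', rfl⟩ : ∃ j', a = 6 * k + 5 + j' := ⟨a - (6 * k + 5), by omega⟩
      exact lin_top hf hk j' (by omega) (fun i hi _ => hno' i hi)
  obtain ⟨C, hC⟩ := all (6 * k + 2 * i - 1) (by omega)
  obtain ⟨M, hM⟩ := all (6 * k + 2 * i) (by omega)
  exact pf_of_linS hf (by omega) (by omega) hC hM

/-- The offsets of one of the layers `6 k`, `6 k + 2`, `6 k + 4` do not tend to minus infinity. -/
theorem low_of_SK {k : ℕ} (hk : 2 ≤ k) (h : SK f k) :
    ∃ i : ℕ, i ≤ 2 ∧ ∃ J : ℤ, ∀ B : ℕ, ∃ b : ℕ, B ≤ b ∧ ¬ Pf k f (6 * k + 2 * i) b J := by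
  obtain ⟨i, hi, C, h⟩ := h
  refine ⟨i, hi, -((C : ℤ) + k + 20), fun B => ?_⟩
  obtain ⟨b, n, hB, hb2, hab, hle, hm⟩ := h (B + 6 * k + 20 + C)
  refine ⟨b, by omega, fun hP => hm ?_⟩
  have e6 : (6 * k + 2 * i) / 6 = k := by omega
  rw [e6] at hle
  have h2 : 4 * b ≤ (k + 2) * b := Nat.mul_le_mul_right _ (by omega)
  obtain ⟨n', rfl⟩ : ∃ n', n = n' + 1 := ⟨n - 1, by omega⟩
  have h4 := nuLead_exact (k := k) (a := 6 * k + 2 * i) (b := b) (by omega) hab
  have h5 : (0 : ℤ) ≤ ((k : ℤ) - 2) * ((6 * k + 2 * i : ℕ) : ℤ) := mul_nonneg (by omega) (by omega)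
  have h6 : ((k : ℤ) + 2) * b ≤ 4 * (n' + 1) + C := by exact_mod_cast hle
  have hS := (hP (by omega) hb2 hab n' (by omega)).r0
  exact (hS (2 * (n' + 1) + 1) (2 * (n' + 1)) (by omega)).2
    ((Fst_II (by omega) (by omega) hb2 hab (by omega) (by omega)).2 ⟨by omega, by omega⟩)

theorem no_diagPer_of_SK (hf : Rule f) {k : ℕ} (hk : 1 ≤ k) (h : SK f k) {N C : ℕ}
    (hN : 0 < N) (hC : 2 * C ≤ k) : ¬ DiagPer f N C := by
  intro hp
  obtain ⟨i, hi, C', h⟩ := h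
  obtain ⟨b, n, hB, hb2, h4, hle, hm⟩ := h (6 * k + 5 + (2 * C * (6 * k + 5) + C'))
  have e : (6 * k + 2 * i) / 6 = k := by omega
  rw [e] at hle
  have hF : Fst (6 * k + 2 * i) b (2 * n + 1) (2 * n) :=
    (Fst_II (by omega) (by omega) hb2 h4 (by omega) (by omega)).2 ⟨by omega, by omega⟩
  have hs : ¬ C * (6 * k + 2 * i + b + 1) ≤ max (2 * n + 1) (2 * n) := by
    intro h1
    exact hm ((St_of_diagPer hf hN hp (6 * k + 2 * i) b _ _ h1).2 hF)
  have h1 : 2 * n + 1 < C * (6 * k + 2 * i + b + 1) := by omega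
  have h2 : 2 * (C * (6 * k + 2 * i + b + 1)) = 2 * C * b + 2 * C * (6 * k + 2 * i + 1) := by ring
  have h3 : 2 * C * b ≤ k * b := Nat.mul_le_mul_right _ hC
  have h6 : 2 * C * (6 * k + 2 * i + 1) ≤ 2 * C * (6 * k + 5) := Nat.mul_le_mul_left _ (by omega)
  have h5 : (k + 2) * b = k * b + 2 * b := by ring
  omega

/-- FINAL: the induction step for `8 ≤ k` gives the frozen statement. -/
theorem final_of_step (h : ∀ f : ℕ → ℕ → ℕ → ℕ → Prop, Rule f →
      ∀ k : ℕ, 8 ≤ k → SK f k → SK f (k + 1)) :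
    ¬ (∀ n k : ℕ, 1 ≤ k →
      ∀ P : Set (Fin n → ℕ),
        (∀ x : Fin n → ℕ, x ∈ P ↔
          ∀ S : Finset (Fin n), S.card = k → (∀ i ∈ S, 1 ≤ x i) →
            (fun i => if i ∈ S then x i - 1 else x i) ∉ P) →
        ∃ m r : ℕ, ∃ base : Fin m → Fin n → ℕ, ∃ per : Fin m → Fin r → Fin n → ℕ,
          ∀ x : Fin n → ℕ, x ∈ P ↔
            ∃ i : Fin m, ∃ c : Fin r → ℕ, x = base i + ∑ j, c j • per i j) := by
  refine final_rule ?_
  intro f hf N C hN hp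
  have hall : ∀ m : ℕ, SK f (8 + m) := by
    intro m
    induction m with
    | zero => exact ⟨0, by omega, SS48 hf⟩
    | succ m ih => exact h f hf (8 + m) (by omega) ih
  exact no_diagPer_of_SK hf (k := 8 + (2 * C + 1)) (by omega) (hall _) hN (by omega) hp

end Pool.Agent.SNT
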