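import Mathlib

set_option autoImplicit false

/-! Sections of semilinear sets: along the last coordinate a semilinear subset of `ℕ^3` is periodic
from a threshold on which is linear in the other coordinates. -/

namespace Pool.Agent.SNT

open Finset Pointwise

/-- `s` is `N`-periodic in the last coordinate from `C (a + b + 1)` on. -/
def Per (N C : ℕ) (s : Set (Fin 3 → ℕ)) : Prop :=
  ∀ a b t : ℕ, C * (a + b + 1) ≤ t → (![a, b, t] ∈ s ↔ ![a, b, t + N] ∈ s)

theorem Per.mul {N C : ℕ} {s : Set (Fin 3 → ℕ)} (h : Per N C s) (M : ℕ) : Per (N * M) C s := by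
  induction M with
  | zero => intro a b t _; simp
  | succ M ih =>
    intro a b t ht
    rw [ih a b t ht, h a b (t + N * M) (by omega)]
    have : t + N * M + N = t + N * (M + 1) := by ring
    rw [this]

theorem Per.mono {N C C' : ℕ} {s : Set (Fin 3 → ℕ)} (h : Per N C s) (hC : C ≤ C') : Per N C' s := by
  intro a b t ht
  exact h a b t (le_trans (Nat.mul_le_mul_right _ hC) ht)

theorem Per.union {N C : ℕ} {s s' : Set (Fin 3 → ℕ)} (h : Per N C s) (h' : Per N C s') :
    Per N C (s ∪ s') := by
  intro a b t ht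
  simp only [Set.mem_union]
  rw [h a b t ht, h' a b t ht]

theorem linear_per (v : Fin 3 → ℕ) (T : Finset (Fin 3 → ℕ)) :
    ∃ N C : ℕ, 0 < N ∧
      Per N C (v +ᵥ (AddSubmonoid.closure (T : Set (Fin 3 → ℕ)) : Set (Fin 3 → ℕ))) := by
  classical
  set T0 := T.filter (fun p => p 0 = 0 ∧ p 1 = 0 ∧ p 2 ≠ 0) with hT0
  set N := ∏ p ∈ T0, p 2 with hN
  set K := ∑ p ∈ T, p 2 with hK
  have hNpos : 0 < N := by
    rw [hN]
    apply Finset.prod_pos
    intro p hp
    rw [hT0, mem_filter] at hp
    exact Nat.pos_of_ne_zero hp.2.2.2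
  have hmem : ∀ x : Fin 3 → ℕ, x ∈ AddSubmonoid.closure (T : Set (Fin 3 → ℕ)) ↔
      ∃ c : (Fin 3 → ℕ) → ℕ, x = ∑ p ∈ T, c p • p := by
    intro x
    constructor
    · intro hx
      induction hx using AddSubmonoid.closure_induction with
      | mem x hx =>
        refine ⟨fun p => if p = x then 1 else 0, ?_⟩
        rw [Finset.sum_eq_single x]
        · simp
        · intro p _ hpx; simp [hpx]
        · intro h; exact absurd hx h
      | zero => exact ⟨fun _ => 0, by simp⟩
      | add x y _ _ hx hy =>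
        obtain ⟨c, rfl⟩ := hx
        obtain ⟨c', rfl⟩ := hy
        refine ⟨fun p => c p + c' p, ?_⟩
        rw [← Finset.sum_add_distrib]
        exact Finset.sum_congr rfl fun p _ => by rw [add_smul]
    · rintro ⟨c, rfl⟩
      exact AddSubmonoid.sum_mem _ fun p hp =>
        AddSubmonoid.nsmul_mem _ (AddSubmonoid.subset_closure hp) _
  -- a long element uses a pure period often
  have hlong : ∀ c : (Fin 3 → ℕ) → ℕ, ∀ x : Fin 3 → ℕ, x = ∑ p ∈ T, c p • p →
      K * (x 0 + x 1) + N * K < x 2 → ∃ p ∈ T0, N ≤ c p := by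
    intro c x hx hlt
    by_contra hcon
    push Not at hcon
    have h2 : x 2 = ∑ p ∈ T, c p * p 2 := by rw [hx]; simp [Finset.sum_apply]
    have h0 : x 0 = ∑ p ∈ T, c p * p 0 := by rw [hx]; simp [Finset.sum_apply]
    have h1 : x 1 = ∑ p ∈ T, c p * p 1 := by rw [hx]; simp [Finset.sum_apply]
    have hb : ∀ p ∈ T, c p * p 2 ≤ K * (c p * p 0 + c p * p 1) + N * p 2 := by
      intro p hp
      by_cases hp0 : p ∈ T0
      · have := hcon p hp0
        have h3 : c p * p 2 ≤ N * p 2 := Nat.mul_le_mul_right _ this.le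
        omega
      · have hpK : p 2 ≤ K := Finset.single_le_sum (f := fun p : Fin 3 → ℕ => p 2)
          (fun _ _ => Nat.zero_le _) hp
        by_cases hz : p 2 = 0
        · simp [hz]
        · have hne : 1 ≤ p 0 + p 1 := by
            by_contra hlt1
            apply hp0
            rw [hT0, mem_filter]
            exact ⟨hp, by omega, by omega, hz⟩
          have : c p * p 2 ≤ K * (c p * p 0 + c p * p 1) := by
            calc c p * p 2 ≤ c p * K := Nat.mul_le_mul_left _ hpK
              _ = K * (c p * 1) := by ring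
              _ ≤ K * (c p * (p 0 + p 1)) := by gcongr
              _ = K * (c p * p 0 + c p * p 1) := by ring
          omega
    have hs := Finset.sum_le_sum hb
    rw [← h2, Finset.sum_add_distrib, ← Finset.mul_sum, Finset.sum_add_distrib, ← h0, ← h1,
      ← Finset.mul_sum, ← hK] at hs
    omega
  refine ⟨N, K + N * K + v 2 + 1, hNpos, ?_⟩
  intro a b t ht
  have hmv : ∀ y : Fin 3 → ℕ, y ∈ (v +ᵥ (AddSubmonoid.closure (T : Set (Fin 3 → ℕ)) :
      Set (Fin 3 → ℕ))) ↔ ∃ c : (Fin 3 → ℕ) → ℕ, y = v + ∑ p ∈ T, c p • p := by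
    intro y
    rw [Set.mem_vadd_set]
    constructor
    · rintro ⟨x, hx, rfl⟩
      obtain ⟨c, rfl⟩ := (hmem x).1 hx
      exact ⟨c, rfl⟩
    · rintro ⟨c, rfl⟩
      exact ⟨_, (hmem _).2 ⟨c, rfl⟩, rfl⟩
  have hdvd : ∀ p ∈ T0, p 2 ∣ N := fun p hp => Finset.dvd_prod_of_mem _ hp
  have hpure : ∀ p ∈ T0, (N / p 2) • p = ![0, 0, N] := by
    intro p hp
    have hpp := hp
    rw [hT0, mem_filter] at hp
    ext i
    fin_cases i
    · simp [hp.2.1]
    · simp [hp.2.2.1]
    · simp only [Pi.smul_apply, smul_eq_mul]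
      exact Nat.div_mul_cancel (hdvd p hpp)
  rw [hmv, hmv]
  have hbig : ∀ a' b' t' : ℕ, a' ≤ a → b' ≤ b → t ≤ t' + v 2 → K * (a' + b') + N * K < t' := by
    intro a' b' t' ha hb h
    have h1 : K * (a' + b') ≤ K * (a + b) := Nat.mul_le_mul_left _ (by omega)
    have h2 : (K + N * K + v 2 + 1) * (a + b + 1) =
      K * (a + b) + (K + (N * K + v 2 + 1) * (a + b + 1)) := by ring
    have h3 : (N * K + v 2 + 1) ≤ (N * K + v 2 + 1) * (a + b + 1) :=
      Nat.le_mul_of_pos_right _ (by omega)
    omega
  constructor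
  · rintro ⟨c, hc⟩
    set x := ∑ p ∈ T, c p • p with hx
    have e0 : a = v 0 + x 0 := congrFun hc 0
    have e1 : b = v 1 + x 1 := congrFun hc 1
    have e2 : t = v 2 + x 2 := congrFun hc 2
    obtain ⟨p, hp, _⟩ := hlong c x hx (hbig _ _ _ (by omega) (by omega) (by omega))
    have hpT : p ∈ T := (mem_filter.1 hp).1
    refine ⟨fun q => c q + (if q = p then N / p 2 else 0), ?_⟩
    have : ∑ q ∈ T, (c q + (if q = p then N / p 2 else 0)) • q = x + ![0, 0, N] := by
      simp only [add_smul]
      rw [Finset.sum_add_distrib, ← hx]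
      congr 1
      rw [Finset.sum_eq_single p]
      · simp only [if_true]; exact hpure p hp
      · intro q _ hq; simp [hq]
      · intro h; exact absurd hpT h
    rw [this]
    ext i
    fin_cases i
    · show a = v 0 + (x 0 + 0); omega
    · show b = v 1 + (x 1 + 0); omega
    · show t + N = v 2 + (x 2 + N); omega
  · rintro ⟨c, hc⟩
    set x := ∑ p ∈ T, c p • p with hx
    have e0 : a = v 0 + x 0 := congrFun hc 0
    have e1 : b = v 1 + x 1 := congrFun hc 1
    have e2 : t + N = v 2 + x 2 := congrFun hc 2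
    obtain ⟨p, hp, hcp⟩ := hlong c x hx (hbig _ _ _ (by omega) (by omega) (by omega))
    have hpT : p ∈ T := (mem_filter.1 hp).1
    refine ⟨fun q => c q - (if q = p then N / p 2 else 0), ?_⟩
    have : (∑ q ∈ T, (c q - (if q = p then N / p 2 else 0)) • q) + ![0, 0, N] = x := by
      rw [← hpure p hp, hx]
      have hs : (N / p 2) • p = ∑ q ∈ T, (if q = p then N / p 2 else 0) • q := by
        rw [Finset.sum_eq_single p]
        · simp
        · intro q _ hq; simp [hq]
        · intro h; exact absurd hpT h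
      rw [hs, ← Finset.sum_add_distrib]
      refine Finset.sum_congr rfl fun q _ => ?_
      rw [← add_smul]
      congr 1
      by_cases hq : q = p
      · subst hq
        simp only [if_true]
        have : N / q 2 ≤ N := Nat.div_le_self _ _
        omega
      · simp [hq]
    have f0 := congrFun this 0
    have f1 := congrFun this 1
    have f2 := congrFun this 2
    simp only [Pi.add_apply] at f0 f1 f2
    ext i
    fin_cases i
    · simp only [Fin.zero_eta, Pi.add_apply]
      show a = _
      change _ + 0 = _ at f0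
      omega
    · simp only [Fin.mk_one, Pi.add_apply]
      show b = _
      change _ + 0 = _ at f1
      omega
    · simp only [Fin.reduceFinMk, Pi.add_apply]
      show t = _
      change _ + N = _ at f2
      omega

/-- A semilinear subset of `ℕ^3` is periodic along the last coordinate from a linear threshold. -/
theorem semilinear_per {s : Set (Fin 3 → ℕ)} (hs : IsSemilinearSet s) :
    ∃ N C : ℕ, 0 < N ∧ Per N C s := by
  obtain ⟨S, hS, hlin, rfl⟩ := hs
  induction S, hS using Set.Finite.induction_on with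
  | empty => exact ⟨1, 0, one_pos, fun a b t _ => by simp⟩
  | @insert s S _ _ ih =>
    obtain ⟨N, C, hN, h⟩ := ih fun t ht => hlin t (Set.mem_insert_of_mem _ ht)
    obtain ⟨v, T, hT, hs⟩ := hlin s (Set.mem_insert _ _)
    obtain ⟨N', C', hN', h'⟩ := linear_per v hT.toFinset
    rw [Set.Finite.coe_toFinset, ← hs] at h'
    refine ⟨N * N', max C C', Nat.mul_pos hN hN', ?_⟩
    rw [Set.sUnion_insert]
    refine Per.union ?_ ?_
    · have := (h'.mul N).mono (le_max_right C C')
      rwa [Nat.mul_comm N' N] at this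
    · exact (h.mul N').mono (le_max_left C C')

end Pool.Agent.SNT
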