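import Pool.Agent.SNT.Runaway

set_option autoImplicit false
set_option maxHeartbeats 1000000

/-! The tip lemma for an isolated layer: if the line end is present then the row is static one
column earlier. -/

namespace Pool.Agent.SNT

variable {f : ℕ → ℕ → ℕ → ℕ → Prop}

/-- One row forcing at one cell outside the strip, local form. -/
theorem ext_loc (hf : Rule f) {a b x y : ℕ} (hab : a ≤ b) (hyx : y + 2 * (a / 6) + 3 ≤ x)
    (hx : a + b + 10 ≤ x) (hls : ∀ i j, i ≤ 3 → j ≤ 5 → LS f a b (x - i) (y - j)) :
    f a b x y ↔ Fst a b x y := by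
  rcases Nat.lt_or_ge (a + b + y) x with h1 | h1
  · rw [hf.far a b x y h1, Fst_far hab h1]
  · constructor
    · intro h
      by_contra hF
      exact E0 hf hab hyx (by omega) hF hls h
    · intro hF
      rw [Fst_of_le hab (by omega)] at hF
      refine E1 hf hab (by omega) (by omega) hF ?_ ?_
      · unfold Exc
        omega
      · intro i j hi hj
        exact hls i j (by omega) (by omega)

theorem tip_iso (hf : Rule f) {A G : ℕ} (hA : A % 2 = 0) (h24 : 24 ≤ A) (hG : 16 ≤ G) :
    TipIso f A G := by
  intro B m hB2 hT hAB hm C hlow htip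
  obtain ⟨h, hh⟩ : ∃ h, h = A / 6 := ⟨_, rfl⟩
  rw [← hh] at hm C hlow
  have ecc : cc A = 2 * h := by
    unfold cc
    omega
  have h4 : 4 ≤ h := by omega
  have r2x := C.r2x
  have r3 := C.r3
  have r3s := C.r3s
  have r4 := C.r4
  rw [ecc] at r3 r4
  rw [← hh] at r2x r3s
  have eB2 : B - 4 + 2 = B - 2 := by omega
  have eB1 : B - 4 + 3 = B - 1 := by omega
  have eB0 : B - 4 + 4 = B := by omega
  rw [eB2] at r2x
  rw [eB1] at r3 r3s
  rw [eB0] at r4
  -- the layer below
  have lowS : ∀ b x y : ℕ, B ≤ b + 2 → b ≤ B → 2 * m - 2 - 2 * h - G < max x y →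
      (f (A - 1) b x y ↔ Fst (A - 1) b x y) := by
    intro b x y h1 h2 h3
    have e : b = B - 4 + (b - (B - 4)) := by omega
    have h5 := hlow (b - (B - 4)) (by omega) x y h3
    rwa [← e] at h5
  have lowZ : ∀ b x y : ℕ, B ≤ b + 2 → b ≤ B → y ≤ x → x ≤ y + 2 * h + 12 →
      2 * m - 2 - 2 * h - G < x → ¬ f (A - 1) b x y := by
    intro b x y h1 h2 h3 h5 h6 h7
    exact Fst_odd_far (a := A - 1) (by omega) (by omega) h3 (by omega)
      ((lowS b x y h1 h2 (lt_of_lt_of_le h6 (le_max_left _ _))).1 h7)
  -- the exterior of the row B - 1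
  have R1 : ∀ x y : ℕ, y + 2 * h + 3 ≤ x → 2 * m + 5 < x + 2 * h →
      (f A (B - 1) x y ↔ Fst A (B - 1) x y) := by
    intro x y h1 h2
    refine ext_loc hf (by omega) (by omega) (by omega) ?_
    intro i j hi hj p q hp hq hpq hpa hqb
    rcases Nat.eq_zero_or_pos p with hp0 | hp0
    · subst hp0
      have hq1 : q = 1 := by omega
      subst hq1
      have e : B - 1 - 1 = B - 2 := by omega
      rw [e]
      exact r2x _ _ (by omega) (by omega)
    · have hp1 : p = 1 := by omega
      subst hp1
      exact lowS _ _ _ (by omega) (by omega) (lt_of_lt_of_le (by omega) (le_max_left _ _))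
  -- the exterior of the row B
  have R0 : ∀ x y : ℕ, y + 2 * h + 6 ≤ x → 2 * m < x → (f A B x y ↔ Fst A B x y) := by
    intro x y h1 h2
    refine ext_loc hf (by omega) (by omega) (by omega) ?_
    intro i j hi hj p q hp hq hpq hpa hqb
    rcases Nat.eq_zero_or_pos p with hp0 | hp0
    · subst hp0
      have hq1 : q = 1 := by omega
      subst hq1
      exact R1 _ _ (by omega) (by omega)
    · have hp1 : p = 1 := by omega
      subst hp1
      exact lowS _ _ _ (by omega) (by omega) (lt_of_lt_of_le (by omega) (le_max_left _ _))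
  -- static values near the wall
  have F : ∀ b x y : ℕ, y ≤ x → x ≤ y + (2 * h + 8) → A + 17 ≤ b →
      (Fst A b x y ↔ Zn A b y (x - y)) := by
    intro b x y h1 h2 h3
    have e : x = y + (x - y) := by omega
    conv_lhs => rw [e]
    exact Fst_Zn hA (by omega) h3 (by omega)
  unfold Zn at F
  rw [← hh] at F
  -- the row B - 1 near the wall
  have r1flat : ∀ x y : ℕ, 2 * m < x → (f A (B - 1) x y ↔ Fst A (B - 1) x y) := by
    intro x y h1
    exact r3 x y (lt_of_lt_of_le (by omega) (le_max_left _ _))
  have c1 : ∀ x y : ℕ, x = y + 2 * h + 1 → 2 * m ≤ x → ¬ f A (B - 1) x y := by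
    intro x y h1 h2 h3
    rcases Nat.lt_or_ge (2 * m) x with h5 | h5
    · have h6 := (r1flat x y h5).1 h3
      rw [F _ _ _ (by omega) (by omega) (by omega)] at h6
      omega
    · have h6 : f A (B - 2) (x - 1) (y - 1) := by
        rw [r2x _ _ (by omega) (by omega), F _ _ _ (by omega) (by omega) (by omega)]
        left
        exact ⟨by omega, by omega, Or.inr ⟨by omega, by omega⟩⟩
      have h7 := hf.down h3 (p := 0) (q := 1) (r := 1) (s := 1) (by omega) (by omega) (by omega)
        (by omega) (by omega) (by omega) (by omega) (by omega) (by omega)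
      have e : B - 1 - 1 = B - 2 := by omega
      rw [e] at h7
      exact h7 h6
  have c2 : ¬ f A (B - 1) (2 * m) (2 * m - 2 * h - 2) := by
    intro h3
    have h6 : f A (B - 2) (2 * m - 1) (2 * m - 2 * h - 2) := by
      rw [r2x _ _ (by omega) (by omega), F _ _ _ (by omega) (by omega) (by omega)]
      left
      exact ⟨by omega, by omega, Or.inr ⟨by omega, by omega⟩⟩
    have h7 := hf.down h3 (p := 0) (q := 1) (r := 1) (s := 0) (by omega) (by omega) (by omega)
      (by omega) (by omega) (by omega) (by omega) (by omega) (by omega)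
    have e : B - 1 - 1 = B - 2 := by omega
    rw [e] at h7
    exact h7 h6
  -- ones of the row B - 1
  have o1 : ∀ x y : ℕ, 2 * m < x → x = y + 2 * h + 2 → x % 2 = 1 → f A (B - 1) x y := by
    intro x y h1 h2 h3
    rw [r1flat x y h1, F _ _ _ (by omega) (by omega) (by omega)]
    right
    exact ⟨by omega, by omega, Or.inl ⟨by omega, by omega⟩⟩
  have o2 : f A (B - 1) (2 * m) (2 * m - 2 * h - 4) := by
    rw [R1 _ _ (by omega) (by omega), F _ _ _ (by omega) (by omega) (by omega)]
    right
    exact ⟨by omega, by omega, Or.inl ⟨by omega, by omega⟩⟩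
  -- the line
  have line : ∀ t : ℕ, t + 1 ≤ h → f A B (2 * m + 1) (2 * m - 2 * t) := by
    intro t
    induction t with
    | zero => intro _; exact htip
    | succ t ih =>
      intro ht
      have ih' := ih (by omega)
      have hz : ¬ f A B (2 * m + 1) (2 * m - 2 * t - 1) :=
        hf.down ih' (p := 0) (q := 0) (r := 0) (s := 1) (by omega) (by omega) (by omega)
          (by omega) (by omega) (by omega) (by omega) (by omega) (by omega)
      obtain ⟨p, q, r, s, hp, hq, hr, hs, hsum, hpa, hqb, hrx, hsy, hpred⟩ :=
        hf.exists_pred (a := A) (b := B) (x := 2 * m + 1) (y := 2 * m - 2 * t - 1) (by omega) hz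
      have hp' : p = 0 ∨ p = 1 := by omega
      have hq' : q = 0 ∨ q = 1 := by omega
      have hr' : r = 0 ∨ r = 1 := by omega
      have hs' : s = 0 ∨ s = 1 := by omega
      rcases hp' with rfl | rfl
      · rcases hq' with rfl | rfl
        · rcases hr' with rfl | rfl
          · have hs1 : s = 1 := by omega
            subst hs1
            have e : 2 * m - 2 * t - 1 - 1 = 2 * m - 2 * (t + 1) := by omega
            rw [e] at hpred
            exact hpred
          · exfalso
            rcases hs' with rfl | rfl
            · have h7 := hf.down ih' (p := 0) (q := 0) (r := 1) (s := 1) (by omega) (by omega)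
                (by omega) (by omega) (by omega) (by omega) (by omega) (by omega) (by omega)
              exact h7 hpred
            · exact hf.not_allEven hpred ⟨by omega, by omega, by omega, by omega⟩
        · exfalso
          rcases hr' with rfl | rfl
          · have h7 := (r1flat _ _ (by omega)).1 hpred
            rw [Fst_odd (by omega) hA (by omega) (by omega) (by omega)] at h7
            omega
          · rcases hs' with rfl | rfl
            · have h7 := hf.down ih' (p := 0) (q := 1) (r := 1) (s := 1) (by omega) (by omega)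
                (by omega) (by omega) (by omega) (by omega) (by omega) (by omega) (by omega)
              exact h7 hpred
            · have h7 := (r3s _ _ (by omega) (by omega)).1 hpred
              rw [Fst_odd (by omega) hA (by omega) (by omega) (by omega)] at h7
              omega
      · exfalso
        exact lowZ _ _ _ (by omega) (by omega) (by omega) (by omega) (by omega) hpred
  -- the row B near the wall
  have w0 : ∀ x y : ℕ, (x = 2 * m + 1 ∨ x = 2 * m + 2) → y + 2 * h ≤ x → x ≤ y + 2 * h + 5 →
      (x + y + 2 * h + 1) % 4 ≠ 0 → ¬ f A B x y := by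
    intro x y hx h1 h2 h3 hc
    have dn : ∀ q r s : ℕ, q ≤ 1 → r ≤ 1 → s ≤ 1 → 1 ≤ q + r + s →
        ¬ f A (B - q) (x - r) (y - s) := by
      intro q r s hq hr hs hsum
      have := hf.down hc (p := 0) (q := q) (r := r) (s := s) (by omega) hq hr hs (by omega)
        (by omega) (by omega) (by omega) (by omega)
      exact this
    rcases hx with rfl | rfl
    · have hy : y = 2 * m + 1 - 2 * h ∨ y = 2 * m - 2 * h ∨ y = 2 * m - 2 * h - 1 ∨
          y = 2 * m - 2 * h - 3 ∨ y = 2 * m - 2 * h - 4 := by omega
      rcases hy with rfl | rfl | rfl | rfl | rfl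
      · have h5 := line (h - 1) (by omega)
        have h7 := hf.down h5 (p := 0) (q := 0) (r := 0) (s := 1) (by omega) (by omega)
            (by omega) (by omega) (by omega) (by omega) (by omega) (by omega) (by omega)
        have e : 2 * m - 2 * (h - 1) - 1 = 2 * m + 1 - 2 * h := by omega
        rw [e] at h7
        exact h7 hc
      · refine dn 1 0 1 (by omega) (by omega) (by omega) (by omega) ?_
        exact o1 _ _ (by omega) (by omega) (by omega)
      · refine dn 1 0 0 (by omega) (by omega) (by omega) (by omega) ?_
        exact o1 _ _ (by omega) (by omega) (by omega)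
      · refine dn 1 1 1 (by omega) (by omega) (by omega) (by omega) ?_
        have e1 : 2 * m + 1 - 1 = 2 * m := by omega
        have e2 : 2 * m - 2 * h - 3 - 1 = 2 * m - 2 * h - 4 := by omega
        rw [e1, e2]
        exact o2
      · refine dn 1 1 0 (by omega) (by omega) (by omega) (by omega) ?_
        exact o2
    · have hy : y % 2 = 0 ∨ y = 2 * m - 2 * h - 1 := by omega
      rcases hy with hy | rfl
      · exact hf.not_allEven hc ⟨by omega, by omega, by omega, by omega⟩
      · refine dn 1 1 0 (by omega) (by omega) (by omega) (by omega) ?_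
        exact o1 _ _ (by omega) (by omega) (by omega)
  have w1 : ∀ x y : ℕ, (x = 2 * m + 1 ∨ x = 2 * m + 2) → y + 2 * h ≤ x → x ≤ y + 2 * h + 5 →
      (x + y + 2 * h + 1) % 4 = 0 → f A B x y := by
    intro x y hx h1 h2 h3
    by_contra hc
    obtain ⟨p, q, r, s, hp, hq, hr, hs, hsum, hpa, hqb, hrx, hsy, hpred⟩ :=
      hf.exists_pred (a := A) (b := B) (x := x) (y := y) (by omega) hc
    have hp' : p = 0 ∨ p = 1 := by omega
    have hq' : q = 0 ∨ q = 1 := by omega
    have hr' : r = 0 ∨ r = 1 := by omega
    have hs' : s = 0 ∨ s = 1 := by omega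
    rcases hp' with rfl | rfl
    swap
    · exact lowZ _ _ _ (by omega) (by omega) (by omega) (by omega) (by omega) hpred
    have hcase : (x = 2 * m + 1 ∧ y = 2 * m - 2 * h - 2) ∨
        (x = 2 * m + 2 ∧ y = 2 * m - 2 * h + 1) ∨ (x = 2 * m + 2 ∧ y = 2 * m - 2 * h - 3) := by
      omega
    rcases hq' with rfl | rfl
    · -- the row B
      rcases hcase with ⟨rfl, rfl⟩ | ⟨rfl, rfl⟩ | ⟨rfl, rfl⟩
      · rcases hr' with rfl | rfl
        · have hs1 : s = 1 := by omega
          subst hs1
          exact w0 _ _ (by omega) (by omega) (by omega) (by omega) hpred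
        · rcases hs' with rfl | rfl
          · exact hf.not_allEven hpred ⟨by omega, by omega, by omega, by omega⟩
          · have h7 := hf.down hpred (p := 0) (q := 1) (r := 0) (s := 1) (by omega) (by omega)
              (by omega) (by omega) (by omega) (by omega) (by omega) (by omega) (by omega)
            apply h7
            have e1 : 2 * m + 1 - 1 - 0 = 2 * m := by omega
            have e2 : 2 * m - 2 * h - 2 - 1 - 1 = 2 * m - 2 * h - 4 := by omega
            have e3 : B - 0 - 1 = B - 1 := by omega
            have e4 : A - 0 - 0 = A := by omega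
            rw [e1, e2, e3, e4]
            exact o2
      · rcases hr' with rfl | rfl
        · have hs1 : s = 1 := by omega
          subst hs1
          exact hf.not_allEven hpred ⟨by omega, by omega, by omega, by omega⟩
        · exact w0 _ _ (by omega) (by omega) (by omega) (by omega) hpred
      · rcases hr' with rfl | rfl
        · have hs1 : s = 1 := by omega
          subst hs1
          exact hf.not_allEven hpred ⟨by omega, by omega, by omega, by omega⟩
        · exact w0 _ _ (by omega) (by omega) (by omega) (by omega) hpred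
    · -- the row B - 1
      rcases hcase with ⟨rfl, rfl⟩ | ⟨rfl, rfl⟩ | ⟨rfl, rfl⟩
      · rcases hr' with rfl | rfl
        · have h7 := (r1flat _ _ (by omega)).1 hpred
          rw [F _ _ _ (by omega) (by omega) (by omega)] at h7
          omega
        · rcases hs' with rfl | rfl
          · exact c2 hpred
          · have h7 := (R1 _ _ (by omega) (by omega)).1 hpred
            rw [F _ _ _ (by omega) (by omega) (by omega)] at h7
            omega
      · have h7 := (r1flat _ _ (by omega)).1 hpred
        rw [F _ _ _ (by omega) (by omega) (by omega)] at h7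
        omega
      · have h7 := (r1flat _ _ (by omega)).1 hpred
        rw [F _ _ _ (by omega) (by omega) (by omega)] at h7
        omega
  -- all cells
  refine St_of_half hf ?_
  intro x y hyx hx
  rcases Nat.lt_or_ge (2 * m + 2) x with h1 | h1
  · exact r4 x y (lt_of_lt_of_le (by omega) (le_max_left _ _))
  have hx' : x = 2 * m + 1 ∨ x = 2 * m + 2 := by omega
  rcases Nat.lt_or_ge x (y + 2 * h) with h2 | h2
  · rw [Fst_II (by omega) hA hB2 hT hyx (by omega)]
    rcases hx' with rfl | rfl
    · rcases Nat.mod_two_eq_zero_or_one y with hy | hy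
      · refine iff_of_true ?_ ⟨by omega, hy⟩
        have h5 := line ((2 * m - y) / 2) (by omega)
        have e : 2 * m - 2 * ((2 * m - y) / 2) = y := by omega
        rwa [e] at h5
      · refine iff_of_false ?_ (by omega)
        have h5 := line ((2 * m + 1 - y) / 2) (by omega)
        have e : 2 * m - 2 * ((2 * m + 1 - y) / 2) = y - 1 := by omega
        rw [e] at h5
        exact zero_of_one hf 0 0 0 1 (by omega) (by omega) (by omega) (by omega) (by omega)
          (by omega) (by omega) (by omega) (by omega) h5
    · refine iff_of_false ?_ (by omega)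
      intro hc
      rcases Nat.mod_two_eq_zero_or_one y with hy | hy
      · exact hf.not_allEven hc ⟨by omega, by omega, by omega, by omega⟩
      · have h5 : f A B (2 * m + 3) (y + 1) := by
          rw [r4 _ _ (lt_of_lt_of_le (by omega) (le_max_left _ _)),
            Fst_II (by omega) hA hB2 hT (by omega) (by omega)]
          omega
        have h7 := hf.down h5 (p := 0) (q := 0) (r := 1) (s := 1) (by omega) (by omega)
            (by omega) (by omega) (by omega) (by omega) (by omega) (by omega) (by omega)
        exact h7 hc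
  · rcases Nat.lt_or_ge (y + 2 * h + 5) x with h3 | h3
    · exact R0 x y (by omega) hx
    · rw [F _ _ _ hyx (by omega) (by omega)]
      by_cases h5 : (x + y + 2 * h + 1) % 4 = 0
      · refine iff_of_true (w1 x y hx' h2 h3 h5) ?_
        left
        exact ⟨hB2, by omega, Or.inr ⟨by omega, by omega⟩⟩
      · refine iff_of_false (w0 x y hx' h2 h3 h5) ?_
        omega

/-- RUNAWAY. -/
theorem runaway (hf : Rule f) {A : ℕ} (hA : A % 2 = 0) (h24 : 24 ≤ A)
    (hs : cc A = cc (A - 2) + 2) (hcc : cc (A - 1) = cc (A - 2))
    (hub : ¬ ∃ M B : ℕ, ∀ b : ℕ, B ≤ b → b % 2 = 0 → (A + b) % 4 = 2 → ∀ K : ℕ,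
      (cc (A - 2) + 4) * b + M ≤ 4 * K → St f A b K) : SS f A :=
  runaway_of_tip hf hA h24 hs hcc (G := 4 * (cc A + 4) + 24) le_rfl
    (tip_iso hf hA h24 (by omega)) hub

/-- RUNAWAY for the layer `6 k + 6`. -/
theorem runaway6 (hf : Rule f) {k : ℕ} (hk : 3 ≤ k)
    (hub : ¬ ∃ M B : ℕ, ∀ b : ℕ, B ≤ b → b % 2 = 0 → (6 * k + 6 + b) % 4 = 2 → ∀ K : ℕ,
      (2 * k + 4) * b + M ≤ 4 * K → St f (6 * k + 6) b K) : SS f (6 * k + 6) := by
  have e1 : cc (6 * k + 6) = 2 * k + 2 := by unfold cc; omega
  have e2 : cc (6 * k + 6 - 1) = 2 * k := by unfold cc; omega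
  have e3 : cc (6 * k + 6 - 2) = 2 * k := by unfold cc; omega
  refine runaway hf (by omega) (by omega) (by omega) (by omega) ?_
  rw [e3]
  exact hub

end Pool.Agent.SNT
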