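import Pool.Agent.SNT.K0D
import Pool.Agent.SNT.PB

set_option autoImplicit false
set_option synthInstance.maxSize 100000
set_option synthInstance.maxHeartbeats 4000000

/-! Tip windows of `6 k` (row `c - 2`) and `6 k + 2` (row `c`), leads `n - 7`, `n - 4`, `n + 1`. -/

namespace Pool.Agent.SNT.TipK0

open Pool.Agent.SNT Pool.Agent.SNT.Sig Pool.Agent.SNT.Loc Pool.Agent.SNT.LW Pool.Agent.SNT.NHZ Pool.Agent.SNT.DRun
open Pool.Agent.SNT.PB Pool.Agent.SNT.K0D

variable {f : ℕ → ℕ → ℕ → ℕ → Prop}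

theorem tip0w_chk : check 4 7 16 16 0 1 0 0 2
    (fun j n p q => decide ((j = 2 ∧ n = 2 ∧ q ≤ p ∧ 2 ≤ q ∧ p = q ∧ p % 2 = 1)
      ∨ (j = 2 ∧ n = 3 ∧ p = 7 ∧ q = 2)))
    (fun j n p q => decide ((j = 2 ∧ n = 2 ∧ q ≤ p ∧ 2 ≤ q ∧ ¬ (p = q ∧ p % 2 = 1))
      ∨ (j = 1 ∧ n = 2 ∧ q ≤ p)
      ∨ (j = 1 ∧ n = 3 ∧ q ≤ p)
      ∨ (j = 3 ∧ n = 2 ∧ q + 3 ≤ p ∧ p ≤ q + 12)
      ∨ (j = 3 ∧ n = 3 ∧ 6 ≤ p ∧ q + 4 ≤ p ∧ p ≤ q + 11)
      ∨ (j = 3 ∧ n = 3 ∧ 4 ≤ q ∧ q + 3 ≤ p ∧ p ≤ q + 12)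
      ∨ (j = 2 ∧ n = 3 ∧ p = 7 ∧ q = 6)))
    35
    0x8ba0508ba800c425208b90008bb0a082a800c42070c41870c3a070c39870bc2070bc1870bba070bb98708c20708bb0708b90f08b307084207084187083b07083a87083a07083987083307083287082a8f053b07053a8705330705328704bb0704ba8704b30704b287 = true := by
  decide +kernel

theorem tip0w (hf : Rule f) {k c n : ℕ} (H : KH f k c n 7 4)
    (h0 : f (6 * k) (c - 2) (2 * n - 3) (2 * n - 8)) (z0 : ¬ f (6 * k) (c - 2) (2 * n - 3) (2 * n - 4)) : False := by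
  have hk := H.T.hk
  have hc := H.T.hc
  have h4' := H.T.h4
  have hb := H.T.hb
  have hN := H.T.hN2
  obtain ⟨a0, ha0⟩ : ∃ z, z + 2 = 6 * k := ⟨6 * k - 2, by omega⟩
  obtain ⟨b0, hb0⟩ : ∃ z, z + 5 = c := ⟨c - 5, by omega⟩
  obtain ⟨x0, hx0⟩ : ∃ z, z + 10 = 2 * n := ⟨2 * n - 10, by omega⟩
  refine check_sound hf (a0 := a0) (b0 := b0) (x0 := x0) (y0 := x0) tip0w_chk
    ⟨fun _ => rfl, fun h => absurd h (by decide), fun h => absurd h (by decide), by omega, by omega,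
      by omega, by omega⟩ ?_ ?_
  · intro j m p q hr h
    obtain ⟨-, -, -, -, hp1, hp2, hq1, hq2⟩ := hr
    replace h := of_decide_eq_true h
    rcases h with h | h
    · obtain ⟨rfl, rfl, h⟩ := h
      exact (WrapC.v3 H.k0_m6 (by omega) (by omega) (by omega) (by omega) (by omega) (by omega) (by omega) (by omega)).mpr (by omega)
    · obtain ⟨rfl, rfl, rfl, rfl⟩ := h
      exact mv h0 (by omega) (by omega) (by omega) (by omega)
  · intro j m p q hr h
    obtain ⟨-, -, -, -, hp1, hp2, hq1, hq2⟩ := hr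
    replace h := of_decide_eq_true h
    rcases h with h | h | h | h | h | h | h
    · obtain ⟨rfl, rfl, h⟩ := h
      exact mt (WrapC.v3 H.k0_m6 (by omega) (by omega) (by omega) (by omega) (by omega) (by omega) (by omega) (by omega)).mp (by omega)
    · obtain ⟨rfl, rfl, h⟩ := h
      exact H.lw _ _ _ _ (by omega) (by omega) (by omega) (by omega) (by omega) (by omega)
    · obtain ⟨rfl, rfl, h⟩ := h
      exact H.lw _ _ _ _ (by omega) (by omega) (by omega) (by omega) (by omega) (by omega)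
    · obtain ⟨rfl, rfl, h⟩ := h
      exact NHT.rOut hf H.T (t := 2) (p := 1) (j := 2) (by omega) (by omega) (by omega) (by omega) (by omega) (by omega) (by omega) (by omega)
    · obtain ⟨rfl, rfl, h⟩ := h
      exact NHT.pmi hf H.T (j := 3) (by omega) (by omega) (by omega) (by omega) (by omega) (by omega)
    · obtain ⟨rfl, rfl, h⟩ := h
      exact NHT.pm hf H.T (j := 2) (by omega) (by omega) (by omega) (by omega) (by omega) (by omega)
    · obtain ⟨rfl, rfl, rfl, rfl⟩ := h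
      exact fun t => z0 (mv t (by omega) (by omega) (by omega) (by omega))

theorem tip2w_chk : check 5 7 14 14 0 1 0 0 2
    (fun j n p q => decide ((j = 4 ∧ n = 4 ∧ q ≤ p ∧ 8 ≤ q ∧ p = q ∧ p % 2 = 1)
      ∨ (j = 2 ∧ n = 2 ∧ q ≤ p ∧ 2 ≤ q ∧ p = q ∧ p % 2 = 1)
      ∨ (j = 4 ∧ n = 5 ∧ p = 11 ∧ q = 6)))
    (fun j n p q => decide ((j = 4 ∧ n = 4 ∧ q ≤ p ∧ 8 ≤ q ∧ ¬ (p = q ∧ p % 2 = 1))
      ∨ (j = 2 ∧ n = 2 ∧ q ≤ p ∧ 2 ≤ q ∧ ¬ (p = q ∧ p % 2 = 1))
      ∨ (j = 1 ∧ n = 2 ∧ q ≤ p)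
      ∨ (j = 1 ∧ n = 3 ∧ q ≤ p)
      ∨ (j = 1 ∧ n = 4 ∧ q ≤ p)
      ∨ (j = 1 ∧ n = 5 ∧ q ≤ p)
      ∨ (j = 4 ∧ n = 4 ∧ 5 ≤ q ∧ q + 3 ≤ p)
      ∨ (j = 5 ∧ n = 4 ∧ 5 ≤ q ∧ q + 3 ≤ p)
      ∨ (j = 5 ∧ n = 5 ∧ 12 ≤ p ∧ q + 4 ≤ p)
      ∨ (j = 5 ∧ n = 5 ∧ 8 ≤ q ∧ q + 3 ≤ p)
      ∨ (j = 4 ∧ n = 5 ∧ p = 11 ∧ q = 10)))
    165
    0x791830a3f800cedc2078a830a38800a3884072780072f1a078a830a38800cedd2072f00072f04078a030a38000a380409e38e07358309e38009e38407280e0ced8307280007280406be8307208007208407210e06be8307210007210407218e06bf8307218007218407280309d60009d60406cb8e06c48306cb8006cb840cdf800cf30e0fa8520cf40e0cf2000c92800c920e0c918e0c838006710e06708e066a0e06698e06638006630e06628e06548004ea0e04e98e04e90e04e28e04e20e04db0e04880e04878e04870e04808e04800e04790e04250e04248e041e8e041e0e041d8e04170e04168e040f8e03c30e03c28e03bc0e03bb8e03b50e03b48e03ad8e0fa8070fa7870fa1070f46070f45870f3f070f3e870cfa070cf4070cf20f0ced070c98070c97870c928f0c92070c91870c91070c90870c8b070c838f07910707830706cd0706cc0706bf0706be0706bd07067107067087066a0706698706638f066307066287066207065c07065b87065b0706548f04ea0704e98704e90704e30704e28704e20704db8704db07048807048787048707048107048087048007047987047907042587042507042487041f07041e87041e07041d87041787041707041687041607041007040f87040f0703c30703c28703bc0703bb8703b50703b48703b40703ae0703ad8703ad07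 = true := by
  decide +kernel

theorem tip2w (hf : Rule f) {k c n : ℕ} (H : KH f k c n 7 4)
    (h0 : f (6 * k + 2) (c) (2 * n + 1) (2 * n - 4)) (z0 : ¬ f (6 * k + 2) (c) (2 * n + 1) (2 * n)) : False := by
  have hk := H.T.hk
  have hc := H.T.hc
  have h4' := H.T.h4
  have hb := H.T.hb
  have hN := H.T.hN2
  obtain ⟨a0, ha0⟩ : ∃ z, z + 2 = 6 * k := ⟨6 * k - 2, by omega⟩
  obtain ⟨b0, hb0⟩ : ∃ z, z + 5 = c := ⟨c - 5, by omega⟩
  obtain ⟨x0, hx0⟩ : ∃ z, z + 10 = 2 * n := ⟨2 * n - 10, by omega⟩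
  refine check_sound hf (a0 := a0) (b0 := b0) (x0 := x0) (y0 := x0) tip2w_chk
    ⟨fun _ => rfl, fun h => absurd h (by decide), fun h => absurd h (by decide), by omega, by omega,
      by omega, by omega⟩ ?_ ?_
  · intro j m p q hr h
    obtain ⟨-, -, -, -, hp1, hp2, hq1, hq2⟩ := hr
    replace h := of_decide_eq_true h
    rcases h with h | h | h
    · obtain ⟨rfl, rfl, h⟩ := h
      exact (WrapC.v3 H.k2_m4 (by omega) (by omega) (by omega) (by omega) (by omega) (by omega) (by omega) (by omega)).mpr (by omega)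
    · obtain ⟨rfl, rfl, h⟩ := h
      exact (WrapC.v3 H.k0_m6 (by omega) (by omega) (by omega) (by omega) (by omega) (by omega) (by omega) (by omega)).mpr (by omega)
    · obtain ⟨rfl, rfl, rfl, rfl⟩ := h
      exact mv h0 (by omega) (by omega) (by omega) (by omega)
  · intro j m p q hr h
    obtain ⟨-, -, -, -, hp1, hp2, hq1, hq2⟩ := hr
    replace h := of_decide_eq_true h
    rcases h with h | h | h | h | h | h | h | h | h | h | h
    · obtain ⟨rfl, rfl, h⟩ := h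
      exact mt (WrapC.v3 H.k2_m4 (by omega) (by omega) (by omega) (by omega) (by omega) (by omega) (by omega) (by omega)).mp (by omega)
    · obtain ⟨rfl, rfl, h⟩ := h
      exact mt (WrapC.v3 H.k0_m6 (by omega) (by omega) (by omega) (by omega) (by omega) (by omega) (by omega) (by omega)).mp (by omega)
    · obtain ⟨rfl, rfl, h⟩ := h
      exact H.lw _ _ _ _ (by omega) (by omega) (by omega) (by omega) (by omega) (by omega)
    · obtain ⟨rfl, rfl, h⟩ := h
      exact H.lw _ _ _ _ (by omega) (by omega) (by omega) (by omega) (by omega) (by omega)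
    · obtain ⟨rfl, rfl, h⟩ := h
      exact H.lw _ _ _ _ (by omega) (by omega) (by omega) (by omega) (by omega) (by omega)
    · obtain ⟨rfl, rfl, h⟩ := h
      exact H.lw _ _ _ _ (by omega) (by omega) (by omega) (by omega) (by omega) (by omega)
    · obtain ⟨rfl, rfl, h⟩ := h
      exact fun t => NHT.rm1 hf H.T (p := 0) (j := 2) (by omega) (by omega) (by omega) (by omega) (by omega) (by omega) (mv t rfl (by omega) rfl rfl)
    · obtain ⟨rfl, rfl, h⟩ := h
      exact fun t => NHT.rm1 hf H.T (p := 1) (j := 2) (by omega) (by omega) (by omega) (by omega) (by omega) (by omega) (mv t rfl (by omega) rfl rfl)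
    · obtain ⟨rfl, rfl, h⟩ := h
      exact NHT.p0i hf H.T (j := 3) (by omega) (by omega) (by omega) (by omega) (by omega) (by omega)
    · obtain ⟨rfl, rfl, h⟩ := h
      exact NHT.p0 hf H.T (j := 2) (by omega) (by omega) (by omega) (by omega) (by omega) (by omega)
    · obtain ⟨rfl, rfl, rfl, rfl⟩ := h
      exact fun t => z0 (mv t (by omega) (by omega) (by omega) (by omega))

end Pool.Agent.SNT.TipK0
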