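import Pool.Agent.SNT.LimE
import Pool.Agent.SNT.Dom

set_option autoImplicit false

/-! The upper bound, part 1: one row forcing with an even threshold, outside the strips. -/

namespace Pool.Agent.SNT

variable {f : ℕ → ℕ → ℕ → ℕ → Prop}

theorem low_of_dm {a b d e : ℕ} (h : Dm.Low a b d e) : Low a b d e := by
  obtain ⟨a', b', d', e', h1, h2, h3⟩ := h
  refine ⟨a', b', d', e', ?_, ?_, h3⟩
  · unfold Dm.RowLow at h1
    unfold RowLow
    omega
  · unfold Dm.CellStep at h2
    unfold CellStep
    omega

/-- Static zeros whose larger coordinate is odd. -/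
theorem dom_odd {a b d : ℕ} (hab : a < b) (hd : d ≤ a + b)
    (hs : 2 * (a / 6) ≤ d ∨ a % 2 = 1 ∨ b % 2 = 1 ∨ (a + b) % 4 = 2) (h : ¬ FF a b d 1) :
    Low a b d 1 ∨ FF a b (d + 1) 1 := by
  rcases Nat.lt_or_ge d (a + b) with hd' | hd'
  · rcases Dm.FF_dom (e := 1) hab.le hd' le_rfl with h1 | h1 | h1 | h1
    · exact absurd h1 h
    · exact absurd h1.2.2.2 (by omega)
    · exact Or.inl (low_of_dm h1)
    · right
      rcases h1 with h1 | h1 | h1 | h1 | h1 | h1 | h1 | h1 | h1 | h1 | h1 | h1 | h1
      · exfalso; omega
      · exact Dm.fc3 (by omega)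
      · exfalso; omega
      · exfalso; omega
      · exfalso; omega
      · exact Dm.fc8 (by omega)
      · exfalso; omega
      · exfalso; omega
      · exfalso; omega
      · exfalso; omega
      · exfalso; omega
      · exfalso; omega
      · exfalso; omega
  · have hd2 : d = a + b := by omega
    subst hd2
    rcases Nat.mod_two_eq_zero_or_one a with ha | ha <;>
      rcases Nat.mod_two_eq_zero_or_one b with hb | hb
    · right
      exact Or.inl (Or.inl (by omega))
    · left
      refine ⟨a, b - 1, a + b, 1, rowLow_b hab, cellStep_0 _ _, Or.inl (Or.inl (by omega))⟩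
    · left
      refine ⟨a - 1, b, a + b, 1, rowLow_a (by omega), cellStep_0 _ _, Or.inl (Or.inl (by omega))⟩
    · left
      refine ⟨a - 1, b - 1, a + b + 1, 1, rowLow_ab (by omega) (by omega), cellStep_y _ _,
        Or.inl (Or.inl (by omega))⟩

/-- The exceptional ones lie in the strips of the planes with both indices even. -/
theorem not_exc {a b d : ℕ} (hab : a + 4 ≤ b)
    (hs : 2 * (a / 6) ≤ d ∨ a % 2 = 1 ∨ b % 2 = 1) : ¬ Exc a b d := by
  unfold Exc
  omega

/-- One row forcing with an even threshold. -/
theorem QF_even (hf : Rule f) {a b K : ℕ} (hab : a + 4 ≤ b) (hK : a + b + 6 ≤ K)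
    (hK2 : K % 2 = 0) (hls : LSK f a b K) {x y : ℕ} (hyx : y ≤ x) (hx : K + 2 < x)
    (hs : 2 * (a / 6) ≤ x - y ∨ a % 2 = 1 ∨ b % 2 = 1) : f a b x y ↔ Fst a b x y := by
  have hab' : a ≤ b := by omega
  rcases Nat.lt_or_ge (a + b + y) x with h1 | h1
  · rw [hf.far a b x y h1, Fst_far hab' h1]
  have hLS : ∀ u v : ℕ, K < u → LS f a b u v := fun u v hu => hls u v
    (lt_of_lt_of_le hu (le_max_left _ _))
  constructor
  · intro h
    by_contra hF
    rcases Nat.mod_two_eq_zero_or_one x with hx2 | hx2
    · -- `x` even
      refine zero_of_row_ones hf (by omega) (by omega) hF ?_ ?_ h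
      · intro r s hr hs'
        exact hLS _ _ (by omega)
      · intro r s hr hs' hrs h2
        rcases Nat.lt_or_ge (x - r) (y - s) with h3 | h3
        · have h4 : r = 1 ∧ s = 0 ∧ x = y := by omega
          obtain ⟨rfl, rfl, rfl⟩ := h4
          rw [Fst_swap_xy] at h2
          rw [hf.swap_xy]
          rw [Fst_of_le hab' (by omega)] at h2
          refine E1 hf hab' (by omega) (by omega) h2 ?_ ?_
          · have h5 : a % 2 = 1 ∨ b % 2 = 1 := by
              rcases hs with h5 | h5
              · rcases Nat.mod_two_eq_zero_or_one a with ha | ha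
                · rcases Nat.mod_two_eq_zero_or_one b with hb | hb
                  · exact absurd ⟨ha, hb, hx2, hx2⟩ (hf.not_allEven h)
                  · exact Or.inr hb
                · exact Or.inl ha
              · exact h5
            exact not_exc hab (Or.inr h5)
          · intro i j hi hj
            exact hLS _ _ (by omega)
        · rw [Fst_of_le hab' h3] at h2
          refine E1 hf hab' h3 (by omega) h2 ?_ ?_
          · refine not_exc hab ?_
            rcases Nat.mod_two_eq_zero_or_one a with ha | ha
            · rcases Nat.mod_two_eq_zero_or_one b with hb | hb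
              · left
                have h6 : y % 2 = 1 := by
                  by_contra h7
                  exact hf.not_allEven h ⟨ha, hb, hx2, by omega⟩
                omega
              · exact Or.inr (Or.inr hb)
            · exact Or.inr (Or.inl ha)
          · intro i j hi hj
            exact hLS _ _ (by omega)
    · -- `x` odd
      rw [Fst_of_le hab' hyx, hx2] at hF
      rcases dom_odd (by omega) (by omega) (by omega) hF with h2 | h2
      · refine not_of_low hf hab' hyx (by omega) ?_ ?_ h
        · rw [hx2]
          exact h2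
        · intro r s hr hs'
          exact hLS _ _ (by omega)
      · have h3 : f a b x (y - 1) := by
          refine E1 hf hab' (by omega) (by omega) ?_ ?_ ?_
          · have e1 : x - (y - 1) = x - y + 1 := by omega
            rw [e1, hx2]
            exact h2
          · refine not_exc hab ?_
            omega
          · intro i j hi hj
            exact hLS _ _ (by omega)
        have h4 := hf.down h (p := 0) (q := 0) (r := 0) (s := 1) (by omega) (by omega) (by omega)
          (by omega) (by omega) (by omega) (by omega) (by omega) (by omega)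
        exact h4 h3
  · intro hF
    refine QF_ones hf hab' hK hls hyx hx (not_exc hab (by omega)) hF

/-- The flat form, for planes without strips. -/
theorem QF_even_flat (hf : Rule f) {a b K : ℕ} (hab : a + 4 ≤ b) (hK : a + b + 6 ≤ K)
    (hK2 : K % 2 = 0) (hls : LSK f a b K) (hs : a % 2 = 1 ∨ b % 2 = 1) :
    St f a b (K + 2) := by
  intro x y hxy
  rcases le_total y x with h | h
  · exact QF_even hf hab hK hK2 hls h (by omega) (by omega)
  · rw [hf.swap_xy, Fst_swap_xy]
    exact QF_even hf hab hK hK2 hls h (by omega) (by omega)

end Pool.Agent.SNT
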