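import Pool.Agent.SNT.Up1

set_option autoImplicit false

/-! The upper bound, part 2: the strip of an even layer, the cycle of four rows. -/

namespace Pool.Agent.SNT

variable {f : ℕ → ℕ → ℕ → ℕ → Prop}

/-- A static one in a lower plane below the cell. -/
theorem zero_of_one (hf : Rule f) {a b x y : ℕ} (p q r s : ℕ) (hp : p ≤ 1) (hq : q ≤ 1)
    (hr : r ≤ 1) (hs : s ≤ 1) (hsum : 1 ≤ p + q + r + s) (hpa : p ≤ a) (hqb : q ≤ b)
    (hrx : r ≤ x) (hsy : s ≤ y) (h : f (a - p) (b - q) (x - r) (y - s)) : ¬ f a b x y := by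
  intro h'
  exact hf.down h' hp hq hr hs hsum hpa hqb hrx hsy h

/-- The cells of an even-even strip which are one, `a + b ≡ 0 mod 4`. -/
theorem Fst_I {a b x y : ℕ} (hab : a < b) (ha : a % 2 = 0) (hb : b % 2 = 0)
    (h4 : (a + b) % 4 = 0) (hyx : y ≤ x) (hd : x + 1 ≤ y + 2 * (a / 6)) :
    Fst a b x y ↔ (x % 2 = 0 ∧ y % 2 = 1) := by
  rw [Fst_of_le hab.le hyx]
  constructor
  · intro h
    rcases h with h | h | h | h
    · unfold FF1 at h
      omega
    · unfold FF2 FU at h
      omega
    · unfold FF3 FT at h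
      omega
    · unfold FF4 at h
      omega
  · rintro ⟨h1, h2⟩
    exact Dm.fc8 (by omega)

/-- The cells of an even-even strip which are one, `a + b ≡ 2 mod 4`. -/
theorem Fst_II {a b x y : ℕ} (hab : a < b) (ha : a % 2 = 0) (hb : b % 2 = 0)
    (h4 : (a + b) % 4 = 2) (hyx : y ≤ x) (hd : x + 1 ≤ y + 2 * (a / 6)) :
    Fst a b x y ↔ (x % 2 = 1 ∧ y % 2 = 0) := by
  rw [Fst_of_le hab.le hyx]
  constructor
  · intro h
    rcases h with h | h | h | h
    · unfold FF1 at h
      omega
    · unfold FF2 FU at h
      omega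
    · unfold FF3 FT at h
      omega
    · unfold FF4 at h
      omega
  · rintro ⟨h1, h2⟩
    exact Dm.fc8 (by omega)

/-- The cells of an even-odd strip which are one. -/
theorem Fst_odd {a b x y : ℕ} (hab : a + 3 ≤ b) (ha : a % 2 = 0) (hb : b % 2 = 1)
    (hyx : y ≤ x) (hd : x + 1 ≤ y + 2 * (a / 6)) :
    Fst a b x y ↔ (x = y ∧ (a + b + 2 * x) % 4 = 3) := by
  rw [Fst_of_le (by omega) hyx]
  constructor
  · intro h
    rcases h with h | h | h | h
    · unfold FF1 at h
      omega
    · unfold FF2 FU at h
      omega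
    · unfold FF3 FT at h
      omega
    · unfold FF4 at h
      omega
  · rintro ⟨h1, h2⟩
    exact Dm.fc11 (by omega)

/-- `LS` in the strip `d ≤ 2 h` beyond `K + 1`. -/
def LSs (f : ℕ → ℕ → ℕ → ℕ → Prop) (a b K : ℕ) : Prop :=
  ∀ u v : ℕ, max u v ≤ min u v + 2 * (a / 6) → K + 1 < max u v → LS f a b u v

/-- Row `1` of the cycle (`a + b ≡ 3 mod 4`). -/
theorem S1 (hf : Rule f) {a b K : ℕ} (hab : a + 4 ≤ b) (ha : a % 2 = 0) (hb : b % 2 = 1)
    (h4 : (a + b) % 4 = 3) (h6 : 6 ≤ a) (hK : a + b + 6 ≤ K) (hK2 : K % 2 = 0)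
    (hls : LSK f a b K) {x y : ℕ} (hyx : y ≤ x) (hd : x ≤ y + 2 * (a / 6)) (hx : K + 1 < x) :
    f a b x y ↔ Fst a b x y := by
  have hab' : a ≤ b := by omega
  rcases Nat.lt_or_ge (K + 2) x with h1 | h1
  · exact QF_even hf hab hK hK2 hls hyx h1 (Or.inr (Or.inr hb))
  have hxK : x = K + 2 := by omega
  have hx2 : x % 2 = 0 := by omega
  -- the row below
  have hlow : ∀ u v : ℕ, K < max u v → (f a (b - 1) u v ↔ Fst a (b - 1) u v) := by
    intro u v huv
    exact hls u v huv 0 1 (by omega) (by omega) (by omega) (by omega) (by omega)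
  have hline : ∀ u v : ℕ, K < u → v < u → u + 1 ≤ v + 2 * (a / 6) → u % 2 = 1 → v % 2 = 0 →
      f a (b - 1) u v := by
    intro u v h2 h3 h5 h7 h8
    rw [hlow u v (lt_of_lt_of_le h2 (le_max_left _ _))]
    exact (Fst_II (by omega) ha (by omega) (by omega) h3.le h5).2 ⟨h7, h8⟩
  rcases Nat.eq_or_lt_of_le hyx with h2 | h2
  · -- the diagonal
    subst h2
    have hF : Fst a b y y := (Fst_odd (by omega) ha hb le_rfl (by omega)).2 ⟨rfl, by omega⟩
    refine iff_of_true ?_ hF
    have hm1 : ¬ f a b y (y - 1) := by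
      refine zero_of_one hf 0 1 1 1 (by omega) (by omega) (by omega) (by omega) (by omega)
        (by omega) (by omega) (by omega) (by omega) ?_
      exact hline (y - 1) (y - 1 - 1) (by omega) (by omega) (by omega) (by omega) (by omega)
    refine of_row_zero hf hab' le_rfl (by omega) (by omega) ?_ ?_ ?_ hm1 ?_
    · refine not_low_of_FF hab' (by omega) ?_
      rw [Fst_of_le hab' le_rfl] at hF
      exact hF
    · intro r s hr hs
      exact hls _ _ (by omega)
    · rw [hf.swap_xy]
      exact hm1
    · refine zero_of_one hf 0 1 0 1 (by omega) (by omega) (by omega) (by omega) (by omega)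
        (by omega) (by omega) (by omega) (by omega) ?_
      exact hline (y - 1) (y - 1 - 1) (by omega) (by omega) (by omega) (by omega) (by omega)
  · have hF : ¬ Fst a b x y := by
      rcases Nat.lt_or_ge x (y + 2 * (a / 6)) with h3 | h3
      · rw [Fst_odd (by omega) ha hb hyx (by omega)]
        omega
      · rw [Fst_of_le hab' hyx]
        intro h
        rcases h with h | h | h | h
        · unfold FF1 at h
          omega
        · unfold FF2 FU at h
          omega
        · unfold FF3 FT at h
          omega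
        · unfold FF4 at h
          omega
    refine iff_of_false ?_ hF
    rcases Nat.mod_two_eq_zero_or_one y with hy2 | hy2
    · refine zero_of_one hf 0 1 1 0 (by omega) (by omega) (by omega) (by omega) (by omega)
        (by omega) (by omega) (by omega) (by omega) ?_
      exact hline (x - 1) y (by omega) (by omega) (by omega) (by omega) (by omega)
    · refine zero_of_one hf 0 1 1 1 (by omega) (by omega) (by omega) (by omega) (by omega)
        (by omega) (by omega) (by omega) (by omega) ?_
      exact hline (x - 1) (y - 1) (by omega) (by omega) (by omega) (by omega) (by omega)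

/-- No particles `(odd, even)`. -/
theorem S2_Y (hf : Rule f) {a b K : ℕ} (hab : a + 4 ≤ b) (ha : a % 2 = 0) (hb : b % 2 = 0)
    (h6 : 6 ≤ a) (h4 : (a + b) % 4 = 0) (hK : a + b + 6 ≤ K) (hls : LSs f a b K) :
    ∀ n x y : ℕ, x + 2 * n + 1 = y + 2 * (a / 6) → y ≤ x → x % 2 = 1 → y % 2 = 0 → K + 2 < x →
      ¬ f a b x y := by
  have hab' : a ≤ b := by omega
  intro n
  induction n with
  | zero =>
    intro x y hn hyx hx hy hK' h
    refine not_of_low hf hab' hyx (by omega) ?_ ?_ h
    · have e1 : x - y = 2 * (a / 6) - 1 := by omega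
      rw [e1, hx]
      exact low_Ytop hab' ha h6 h4 (by omega)
    · intro r s hr hs
      exact hls _ _ (by omega) (by omega)
  | succ n ih =>
    intro x y hn hyx hx hy hK' h
    have hz : ¬ f a b x (y - 1) := by
      have := hf.down h (p := 0) (q := 0) (r := 0) (s := 1) (by omega) (by omega) (by omega)
        (by omega) (by omega) (by omega) (by omega) (by omega) (by omega)
      exact this
    have h3 := exists_pred_of_not_low hf (x := x) (y := y - 1) hab' (by omega) (by omega)
      (by omega) (by
        have e2 : x - (y - 1) = x - y + 1 := by omega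
        rw [e2, hx]
        exact open_O hab' ha hb (by omega) (Or.inl ⟨by omega, by omega⟩))
      (by
        intro r s hr hs
        exact hls _ _ (by omega) (by omega)) hz
    rcases h3 with h3 | h3 | h3
    · have := hf.down h (p := 0) (q := 0) (r := 1) (s := 1) (by omega) (by omega) (by omega)
        (by omega) (by omega) (by omega) (by omega) (by omega) (by omega)
      exact this h3
    · exact ih x (y - 1 - 1) (by omega) (by omega) hx (by omega) hK' h3
    · exact hf.not_allEven h3 ⟨ha, hb, by omega, by omega⟩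

/-- The lines of a row `2`. -/
theorem S2_X (hf : Rule f) {a b K : ℕ} (hab : a + 4 ≤ b) (ha : a % 2 = 0) (hb : b % 2 = 0)
    (h6 : 6 ≤ a) (h4 : (a + b) % 4 = 0) (hK : a + b + 6 ≤ K) (hK2 : K % 2 = 0)
    (hls : LSs f a b K) :
    ∀ n x y : ℕ, x = y + (2 * n + 1) → x + 1 ≤ y + 2 * (a / 6) → y % 2 = 1 → K + 1 < y →
      f a b x y := by
  have hab' : a ≤ b := by omega
  intro n
  induction n with
  | zero =>
    intro x y hn hd hy hK'
    refine of_row_zero hf hab' (by omega) (by omega) (by omega) ?_ ?_ ?_ ?_ ?_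
    · refine not_low_of_FF hab' (by omega) (Dm.fc8 ?_)
      omega
    · intro r s hr hs
      exact hls _ _ (by omega) (by omega)
    · have e1 : x - 1 = y := by omega
      rw [e1]
      refine not_of_low hf hab' le_rfl (by omega) ?_ ?_
      · rw [Nat.sub_self, hy]
        exact low_O0 hab' ha h6 h4 (by omega)
      · intro r s hr hs
        exact hls _ _ (by omega) (by omega)
    · intro h
      exact hf.not_allEven h ⟨ha, hb, by omega, by omega⟩
    · exact S2_Y hf hab ha hb h6 h4 hK hls ((y - 1 + 2 * (a / 6) - 1 - (x - 1)) / 2) (x - 1)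
        (y - 1) (by omega) (by omega) (by omega) (by omega) (by omega)
  | succ n ih =>
    intro x y hn hd hy hK'
    refine of_row_zero hf hab' (by omega) (by omega) (by omega) ?_ ?_ ?_ ?_ ?_
    · refine not_low_of_FF hab' (by omega) (Dm.fc8 ?_)
      omega
    · intro r s hr hs
      exact hls _ _ (by omega) (by omega)
    · have h1 := ih (x - 1 - 1) y (by omega) (by omega) hy hK'
      exact zero_of_one hf 0 0 1 0 (by omega) (by omega) (by omega) (by omega) (by omega)
        (by omega) (by omega) (by omega) (by omega) h1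
    · intro h
      exact hf.not_allEven h ⟨ha, hb, by omega, by omega⟩
    · exact S2_Y hf hab ha hb h6 h4 hK hls ((y - 1 + 2 * (a / 6) - 1 - (x - 1)) / 2) (x - 1)
        (y - 1) (by omega) (by omega) (by omega) (by omega) (by omega)

/-- Row `2` of the cycle (`a + b ≡ 0 mod 4`), inside the strip. -/
theorem S2 (hf : Rule f) {a b K : ℕ} (hab : a + 4 ≤ b) (ha : a % 2 = 0) (hb : b % 2 = 0)
    (h6 : 6 ≤ a) (h4 : (a + b) % 4 = 0) (hK : a + b + 6 ≤ K) (hK2 : K % 2 = 0)
    (hls : LSs f a b K) {x y : ℕ} (hyx : y ≤ x) (hd : x + 1 ≤ y + 2 * (a / 6)) (hy : K + 1 < y) :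
    f a b x y ↔ Fst a b x y := by
  have hab' : a ≤ b := by omega
  rw [Fst_I (by omega) ha hb h4 hyx hd]
  rcases Nat.mod_two_eq_zero_or_one x with hx2 | hx2 <;>
    rcases Nat.mod_two_eq_zero_or_one y with hy2 | hy2
  · refine iff_of_false ?_ (by omega)
    intro h
    exact hf.not_allEven h ⟨ha, hb, hx2, hy2⟩
  · refine iff_of_true ?_ ⟨hx2, hy2⟩
    exact S2_X hf hab ha hb h6 h4 hK hK2 hls ((x - y - 1) / 2) x y (by omega) hd hy2 hy
  · refine iff_of_false ?_ (by omega)
    exact S2_Y hf hab ha hb h6 h4 hK hls ((y + 2 * (a / 6) - 1 - x) / 2) x y (by omega) hyx hx2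
      hy2 (by omega)
  · refine iff_of_false ?_ (by omega)
    rcases Nat.eq_or_lt_of_le hyx with h2 | h2
    · subst h2
      refine not_of_low hf hab' le_rfl (by omega) ?_ ?_
      · rw [Nat.sub_self, hy2]
        exact low_O0 hab' ha h6 h4 (by omega)
      · intro r s hr hs
        exact hls _ _ (by omega) (by omega)
    · have h1 := S2_X hf hab ha hb h6 h4 hK hK2 hls ((x - 1 - y - 1) / 2) (x - 1) y (by omega)
        (by omega) hy2 hy
      exact zero_of_one hf 0 0 1 0 (by omega) (by omega) (by omega) (by omega) (by omega)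
        (by omega) (by omega) (by omega) (by omega) h1

/-- Row `3` of the cycle (`a + b ≡ 1 mod 4`), inside the strip. -/
theorem S3 (hf : Rule f) {a b K : ℕ} (hab : a + 5 ≤ b) (ha : a % 2 = 0) (hb : b % 2 = 1)
    (h6 : 6 ≤ a) (h4 : (a + b) % 4 = 1) (hK : a + b + 6 ≤ K) (hK2 : K % 2 = 0)
    (hA : ∀ u v q : ℕ, K < max u v → q ≤ 1 → (f (a - 1) (b - q) u v ↔ Fst (a - 1) (b - q) u v))
    (hP : ∀ u v : ℕ, max u v + 1 ≤ min u v + 2 * (a / 6) → K + 1 < min u v →
      (f a (b - 1) u v ↔ Fst a (b - 1) u v))
    {x y : ℕ} (hyx : y ≤ x) (hd : x + 1 ≤ y + 2 * (a / 6)) (hy : K + 3 < y) :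
    f a b x y ↔ Fst a b x y := by
  have hab' : a ≤ b := by omega
  have hline : ∀ u v : ℕ, v < u → u + 1 ≤ v + 2 * (a / 6) → K + 1 < v → u % 2 = 0 → v % 2 = 1 →
      f a (b - 1) u v := by
    intro u v h3 h5 h2 h7 h8
    rw [hP u v (by omega) (by omega)]
    exact (Fst_I (by omega) ha (by omega) (by omega) h3.le h5).2 ⟨h7, h8⟩
  rw [Fst_odd (by omega) ha hb hyx hd]
  rcases Nat.eq_or_lt_of_le hyx with h2 | h2
  · subst h2
    rcases Nat.mod_two_eq_zero_or_one y with hy2 | hy2
    · refine iff_of_false ?_ (by omega)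
      refine zero_of_one hf 0 1 0 1 (by omega) (by omega) (by omega) (by omega) (by omega)
        (by omega) (by omega) (by omega) (by omega) ?_
      exact hline y (y - 1) (by omega) (by omega) (by omega) (by omega) (by omega)
    · have h3 : (a + b + 2 * y) % 4 = 3 := by omega
      refine iff_of_true ?_ ⟨rfl, h3⟩
      have hm1 : ¬ f a b y (y - 1) := by
        refine zero_of_one hf 0 1 1 1 (by omega) (by omega) (by omega) (by omega) (by omega)
          (by omega) (by omega) (by omega) (by omega) ?_
        exact hline (y - 1) (y - 1 - 1) (by omega) (by omega) (by omega) (by omega) (by omega)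
      refine of_row_zero hf hab' le_rfl (by omega) (by omega) ?_ ?_ ?_ hm1 ?_
      · refine not_low_of_FF hab' (by omega) (Dm.fc11 ?_)
        omega
      · intro r s hr hs p q hp hq hpq hpa hqb
        rcases Nat.eq_zero_or_pos p with h0 | h0
        · subst h0
          have hq1 : q = 1 := by omega
          subst hq1
          exact hP _ _ (by omega) (by omega)
        · have hp1 : p = 1 := by omega
          subst hp1
          exact hA _ _ _ (by omega) hq
      · rw [hf.swap_xy]
        exact hm1
      · refine zero_of_one hf 0 1 0 1 (by omega) (by omega) (by omega) (by omega) (by omega)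
          (by omega) (by omega) (by omega) (by omega) ?_
        exact hline (y - 1) (y - 1 - 1) (by omega) (by omega) (by omega) (by omega) (by omega)
  · refine iff_of_false ?_ (by omega)
    rcases Nat.mod_two_eq_zero_or_one x with hx2 | hx2 <;>
      rcases Nat.mod_two_eq_zero_or_one y with hy2 | hy2
    · refine zero_of_one hf 0 1 0 1 (by omega) (by omega) (by omega) (by omega) (by omega)
        (by omega) (by omega) (by omega) (by omega) ?_
      exact hline x (y - 1) (by omega) (by omega) (by omega) (by omega) (by omega)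
    · refine zero_of_one hf 0 1 0 0 (by omega) (by omega) (by omega) (by omega) (by omega)
        (by omega) (by omega) (by omega) (by omega) ?_
      exact hline x y (by omega) (by omega) (by omega) (by omega) (by omega)
    · refine zero_of_one hf 0 1 1 1 (by omega) (by omega) (by omega) (by omega) (by omega)
        (by omega) (by omega) (by omega) (by omega) ?_
      exact hline (x - 1) (y - 1) (by omega) (by omega) (by omega) (by omega) (by omega)
    · refine zero_of_one hf 0 1 1 0 (by omega) (by omega) (by omega) (by omega) (by omega)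
        (by omega) (by omega) (by omega) (by omega) ?_
      exact hline (x - 1) y (by omega) (by omega) (by omega) (by omega) (by omega)

end Pool.Agent.SNT
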