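import Pool.Agent.SNT.Up2

set_option autoImplicit false

/-! The upper bound, part 3: row `4` of the cycle, and the cycle. -/

namespace Pool.Agent.SNT

variable {f : ℕ → ℕ → ℕ → ℕ → Prop}

/-- Row `4`: no particles `(even, odd)`. -/
theorem S4_X (hf : Rule f) {a b K : ℕ} (hab : a + 5 ≤ b) (ha : a % 2 = 0) (hb : b % 2 = 0)
    (h6 : 6 ≤ a) (h4 : (a + b) % 4 = 2) (hK : a + b + 6 ≤ K)
    (hA : ∀ u v q : ℕ, K < max u v → q ≤ 1 → (f (a - 1) (b - q) u v ↔ Fst (a - 1) (b - q) u v))
    (hP : ∀ u v : ℕ, max u v + 1 ≤ min u v + 2 * (a / 6) → K + 3 < min u v →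
      (f a (b - 1) u v ↔ Fst a (b - 1) u v)) :
    ∀ n x y : ℕ, x = y + (2 * n + 1) → x + 1 ≤ y + 2 * (a / 6) → y % 2 = 1 → K + 4 < y →
      ¬ f a b x y := by
  have hab' : a ≤ b := by omega
  intro n
  induction n with
  | zero =>
    intro x y hn hd hy hK'
    have h1 : f a (b - 1) y y := by
      rw [hP y y (by omega) (by omega)]
      exact (Fst_odd (by omega) ha (by omega) le_rfl (by omega)).2 ⟨rfl, by omega⟩
    refine zero_of_one hf 0 1 1 0 (by omega) (by omega) (by omega) (by omega) (by omega)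
        (by omega) (by omega) (by omega) (by omega) ?_
    have e1 : x - 1 = y := by omega
    rw [e1]
    exact h1
  | succ n ih =>
    intro x y hn hd hy hK' h
    have hz : ¬ f a b (x - 1) y := by
      have := hf.down h (p := 0) (q := 0) (r := 1) (s := 0) (by omega) (by omega) (by omega)
        (by omega) (by omega) (by omega) (by omega) (by omega) (by omega)
      exact this
    have h3 := exists_pred_of_not_low hf (x := x - 1) (y := y) hab' (by omega) (by omega)
      (by omega) (by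
        have e2 : (x - 1) % 2 = 1 := by omega
        rw [e2]
        exact open_O hab' ha hb (by omega) (Or.inl ⟨by omega, by omega⟩))
      (by
        intro r s hr hs p q hp hq hpq hpa hqb
        rcases Nat.eq_zero_or_pos p with h0 | h0
        · subst h0
          have hq1 : q = 1 := by omega
          subst hq1
          exact hP _ _ (by omega) (by omega)
        · have hp1 : p = 1 := by omega
          subst hp1
          exact hA _ _ _ (by omega) hq) hz
    rcases h3 with h3 | h3 | h3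
    · exact ih (x - 1 - 1) y (by omega) (by omega) hy hK' h3
    · have := hf.down h (p := 0) (q := 0) (r := 1) (s := 1) (by omega) (by omega) (by omega)
        (by omega) (by omega) (by omega) (by omega) (by omega) (by omega)
      exact this h3
    · exact hf.not_allEven h3 ⟨ha, hb, by omega, by omega⟩

/-- Row `4`: the lines. -/
theorem S4_Y (hf : Rule f) {a b K K' : ℕ} (hab : a + 5 ≤ b) (ha : a % 2 = 0) (hb : b % 2 = 0)
    (h6 : 6 ≤ a) (h4 : (a + b) % 4 = 2) (hK : a + b + 6 ≤ K) (hKK : K + 2 * (a / 6) + 2 ≤ K')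
    (hK2' : K' % 2 = 0)
    (hA : ∀ u v q : ℕ, K < max u v → q ≤ 1 → (f (a - 1) (b - q) u v ↔ Fst (a - 1) (b - q) u v))
    (hP : ∀ u v : ℕ, max u v + 1 ≤ min u v + 2 * (a / 6) → K + 3 < min u v →
      (f a (b - 1) u v ↔ Fst a (b - 1) u v))
    (hls : LSK f a b K') :
    ∀ n x y : ℕ, x + 2 * n + 1 = y + 2 * (a / 6) → y ≤ x → x % 2 = 1 → y % 2 = 0 → K' + 2 < x →
      f a b x y := by
  have hab' : a ≤ b := by omega
  have hLS : ∀ u v : ℕ, K' < u → LS f a b u v := fun u v hu => hls u v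
    (lt_of_lt_of_le hu (le_max_left _ _))
  have hX : ∀ x y : ℕ, x % 2 = 1 → y % 2 = 0 → y ≤ x → x + 1 ≤ y + 2 * (a / 6) → K' + 2 < x →
      ¬ f a b (x - 1) (y - 1) := by
    intro x y hx hy hyx hd hK'
    exact S4_X hf hab ha hb h6 h4 hK hA hP ((x - y - 1) / 2) (x - 1) (y - 1) (by omega)
      (by omega) (by omega) (by omega)
  intro n
  induction n with
  | zero =>
    intro x y hn hyx hx hy hK'
    refine of_row_zero hf hab' (by omega) (by omega) (by omega) ?_ ?_ ?_ ?_ ?_
    · refine not_low_of_FF hab' (by omega) (Dm.fc8 ?_)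
      omega
    · intro r s hr hs
      exact hLS _ _ (by omega)
    · intro h
      exact hf.not_allEven h ⟨ha, hb, by omega, by omega⟩
    · refine not_of_low hf hab' (by omega) (by omega) ?_ ?_
      · have e1 : x - (y - 1) = 2 * (a / 6) := by omega
        rw [e1, hx]
        exact low_Ok hab' ha h6 h4
      · intro r s hr hs
        exact hLS _ _ (by omega)
    · exact hX x y hx hy hyx (by omega) hK'
  | succ n ih =>
    intro x y hn hyx hx hy hK'
    refine of_row_zero hf hab' (by omega) (by omega) (by omega) ?_ ?_ ?_ ?_ ?_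
    · refine not_low_of_FF hab' (by omega) (Dm.fc8 ?_)
      omega
    · intro r s hr hs
      exact hLS _ _ (by omega)
    · intro h
      exact hf.not_allEven h ⟨ha, hb, by omega, by omega⟩
    · have h1 := ih x (y - 1 - 1) (by omega) (by omega) hx (by omega) hK'
      exact zero_of_one hf 0 0 0 1 (by omega) (by omega) (by omega) (by omega) (by omega)
        (by omega) (by omega) (by omega) (by omega) h1
    · exact hX x y hx hy hyx (by omega) hK'

/-- Row `4` of the cycle (`a + b ≡ 2 mod 4`), inside the strip. -/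
theorem S4 (hf : Rule f) {a b K K' : ℕ} (hab : a + 5 ≤ b) (ha : a % 2 = 0) (hb : b % 2 = 0)
    (h6 : 6 ≤ a) (h4 : (a + b) % 4 = 2) (hK : a + b + 6 ≤ K) (hKK : K + 2 * (a / 6) + 2 ≤ K')
    (hK2' : K' % 2 = 0)
    (hA : ∀ u v q : ℕ, K < max u v → q ≤ 1 → (f (a - 1) (b - q) u v ↔ Fst (a - 1) (b - q) u v))
    (hP : ∀ u v : ℕ, max u v + 1 ≤ min u v + 2 * (a / 6) → K + 3 < min u v →
      (f a (b - 1) u v ↔ Fst a (b - 1) u v))
    (hls : LSK f a b K') {x y : ℕ} (hyx : y ≤ x) (hd : x + 1 ≤ y + 2 * (a / 6))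
    (hx : K' + 2 < x) : f a b x y ↔ Fst a b x y := by
  rw [Fst_II (by omega) ha hb h4 hyx hd]
  rcases Nat.mod_two_eq_zero_or_one x with hx2 | hx2 <;>
    rcases Nat.mod_two_eq_zero_or_one y with hy2 | hy2
  · refine iff_of_false ?_ (by omega)
    intro h
    exact hf.not_allEven h ⟨ha, hb, hx2, hy2⟩
  · refine iff_of_false ?_ (by omega)
    exact S4_X hf hab ha hb h6 h4 hK hA hP ((x - y - 1) / 2) x y (by omega) hd hy2 (by omega)
  · refine iff_of_true ?_ ⟨hx2, hy2⟩
    exact S4_Y hf hab ha hb h6 h4 hK hKK hK2' hA hP hls ((y + 2 * (a / 6) - 1 - x) / 2) x y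
      (by omega) hyx hx2 hy2 hx
  · refine iff_of_false ?_ (by omega)
    have h1 := S4_Y hf hab ha hb h6 h4 hK hKK hK2' hA hP hls
      ((y - 1 + 2 * (a / 6) - 1 - x) / 2) x (y - 1)
      (by omega) (by omega) hx2 (by omega) hx
    exact zero_of_one hf 0 0 0 1 (by omega) (by omega) (by omega) (by omega) (by omega)
      (by omega) (by omega) (by omega) (by omega) h1

/-- A static half plane, from the half `y ≤ x`. -/
theorem St_of_half (hf : Rule f) {a b K : ℕ}
    (h : ∀ x y : ℕ, y ≤ x → K < x → (f a b x y ↔ Fst a b x y)) : St f a b K := by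
  intro x y hxy
  rcases le_total y x with h1 | h1
  · exact h x y h1 (by omega)
  · rw [hf.swap_xy, Fst_swap_xy]
    exact h y x h1 (by omega)

/-- The increment of the type I row. -/
def cc (a : ℕ) : ℕ := max 4 (2 * (a / 6))

/-- What is known of the rows of a cycle. -/
structure Cyc (f : ℕ → ℕ → ℕ → ℕ → Prop) (a b K : ℕ) : Prop where
  r0 : St f a b K
  r1 : St f a (b + 1) (K + 2)
  r1s : 6 ≤ a → ∀ x y : ℕ, max x y ≤ min x y + 2 * (a / 6) → K + 1 < max x y →
    (f a (b + 1) x y ↔ Fst a (b + 1) x y)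
  r2 : St f a (b + 2) (K + cc a)
  r2x : ∀ x y : ℕ, min x y + 2 * (a / 6) ≤ max x y → K + 4 < max x y →
    (f a (b + 2) x y ↔ Fst a (b + 2) x y)
  r2s : ∀ x y : ℕ, max x y + 1 ≤ min x y + 2 * (a / 6) → K + 1 < min x y →
    (f a (b + 2) x y ↔ Fst a (b + 2) x y)
  r3 : St f a (b + 3) (K + cc a + 2)
  r3s : ∀ x y : ℕ, max x y + 1 ≤ min x y + 2 * (a / 6) → K + 3 < min x y →
    (f a (b + 3) x y ↔ Fst a (b + 3) x y)
  r4 : St f a (b + 4) (K + cc a + 4)

/-- From the half `y ≤ x` to all cells. -/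
theorem all_of_half (hf : Rule f) {a b : ℕ} {P : ℕ → ℕ → Prop}
    (h : ∀ x y : ℕ, y ≤ x → P x y → (f a b x y ↔ Fst a b x y)) (x y : ℕ)
    (hP : P (max x y) (min x y)) : f a b x y ↔ Fst a b x y := by
  rcases le_total y x with h1 | h1
  · rw [max_eq_left h1, min_eq_right h1] at hP
    exact h x y h1 hP
  · rw [max_eq_right h1, min_eq_left h1] at hP
    rw [hf.swap_xy, Fst_swap_xy]
    exact h y x h1 hP

theorem cycle (hf : Rule f) {a b K : ℕ} (hab : a + 4 ≤ b) (ha : a % 2 = 0) (hb : b % 2 = 0)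
    (h4 : (a + b) % 4 = 2) (hK : a + b + 10 ≤ K) (hK2 : K % 2 = 0) (h0 : St f a b K)
    (hA : ∀ i : ℕ, i ≤ 4 → 1 ≤ a → St f (a - 1) (b + i) K) : Cyc f a b K := by
  have hcc : cc a % 2 = 0 ∧ 4 ≤ cc a ∧ 2 * (a / 6) ≤ cc a := by
    unfold cc
    omega
  obtain ⟨hc2, hc4, hch⟩ := hcc
  have hlsk : ∀ i L : ℕ, i ≤ 3 → K ≤ L → St f a (b + i) L → LSK f a (b + i + 1) L := by
    intro i L hi hL h x y hxy p q hp hq hpq hpa hqb
    rcases Nat.eq_zero_or_pos p with hp0 | hp0
    · subst hp0
      have hq1 : q = 1 := by omega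
      subst hq1
      exact h x y hxy
    · have hp1 : p = 1 := by omega
      subst hp1
      rcases Nat.eq_zero_or_pos q with hq0 | hq0
      · subst hq0
        exact hA (i + 1) (by omega) hpa x y (by omega)
      · have hq1 : q = 1 := by omega
        subst hq1
        exact hA i (by omega) hpa x y (by omega)
  have hA' : ∀ i : ℕ, i ≤ 3 → 6 ≤ a → ∀ u v q : ℕ, K < max u v → q ≤ 1 →
      (f (a - 1) (b + i + 1 - q) u v ↔ Fst (a - 1) (b + i + 1 - q) u v) := by
    intro i hi h6 u v q huv hq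
    rcases Nat.eq_zero_or_pos q with hq0 | hq0
    · subst hq0
      exact hA (i + 1) (by omega) (by omega) u v huv
    · have hq1 : q = 1 := by omega
      subst hq1
      exact hA i (by omega) (by omega) u v huv
  -- row 1
  have hl1 : LSK f a (b + 1) K := hlsk 0 K (by omega) le_rfl h0
  have r1 : St f a (b + 1) (K + 2) :=
    QF_even_flat hf (by omega) (by omega) hK2 hl1 (Or.inr (by omega))
  have r1s : 6 ≤ a → ∀ x y : ℕ, max x y ≤ min x y + 2 * (a / 6) → K + 1 < max x y →
      (f a (b + 1) x y ↔ Fst a (b + 1) x y) := by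
    intro h6 x y h1 h2
    refine all_of_half hf (P := fun x y => x ≤ y + 2 * (a / 6) ∧ K + 1 < x) ?_ x y ⟨h1, h2⟩
    intro x y hyx hP
    exact S1 hf (by omega) ha (by omega) (by omega) h6 (by omega) hK2 hl1 hyx hP.1 hP.2
  -- row 2
  have hl2 : LSK f a (b + 2) (K + 2) := hlsk 1 (K + 2) (by omega) (by omega) r1
  have r2x : ∀ x y : ℕ, min x y + 2 * (a / 6) ≤ max x y → K + 4 < max x y →
      (f a (b + 2) x y ↔ Fst a (b + 2) x y) := by
    intro x y h1 h2
    refine all_of_half hf (P := fun x y => y + 2 * (a / 6) ≤ x ∧ K + 4 < x) ?_ x y ⟨h1, h2⟩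
    intro x y hyx hP
    exact QF_even hf (by omega) (by omega) (by omega) hl2 hyx (by omega) (Or.inl (by omega))
  have r2s : ∀ x y : ℕ, max x y + 1 ≤ min x y + 2 * (a / 6) → K + 1 < min x y →
      (f a (b + 2) x y ↔ Fst a (b + 2) x y) := by
    intro x y h1 h2
    have h6 : 6 ≤ a := by omega
    refine all_of_half hf (P := fun x y => x + 1 ≤ y + 2 * (a / 6) ∧ K + 1 < y) ?_ x y ⟨h1, h2⟩
    intro x y hyx hP
    refine S2 hf (by omega) ha (by omega) h6 (by omega) (by omega) hK2 ?_ hyx hP.1 hP.2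
    intro u v huv1 huv2 p q hp hq hpq hpa hqb
    rcases Nat.eq_zero_or_pos p with hp0 | hp0
    · subst hp0
      have hq1 : q = 1 := by omega
      subst hq1
      exact r1s h6 u v huv1 huv2
    · have hp1 : p = 1 := by omega
      subst hp1
      exact hA' 1 (by omega) h6 u v q (by omega) hq
  have r2 : St f a (b + 2) (K + cc a) := by
    intro x y hxy
    rcases Nat.lt_or_ge (max x y) (min x y + 2 * (a / 6)) with h1 | h1
    · exact r2s x y (by omega) (by omega)
    · exact r2x x y h1 (by omega)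
  -- row 3
  have hl3 : LSK f a (b + 3) (K + cc a) := hlsk 2 (K + cc a) (by omega) (by omega) r2
  have r3 : St f a (b + 3) (K + cc a + 2) :=
    QF_even_flat hf (by omega) (by omega) (by omega) hl3 (Or.inr (by omega))
  have r3s : ∀ x y : ℕ, max x y + 1 ≤ min x y + 2 * (a / 6) → K + 3 < min x y →
      (f a (b + 3) x y ↔ Fst a (b + 3) x y) := by
    intro x y h1 h2
    have h6 : 6 ≤ a := by omega
    refine all_of_half hf (P := fun x y => x + 1 ≤ y + 2 * (a / 6) ∧ K + 3 < y) ?_ x y ⟨h1, h2⟩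
    intro x y hyx hP
    exact S3 hf (by omega) ha (by omega) h6 (by omega) (by omega) hK2 (hA' 2 (by omega) h6) r2s
      hyx hP.1 hP.2
  -- row 4
  have hl4 : LSK f a (b + 4) (K + cc a + 2) := hlsk 3 (K + cc a + 2) (by omega) (by omega) r3
  have r4 : St f a (b + 4) (K + cc a + 4) := by
    refine St_of_half hf ?_
    intro x y hyx hx
    rcases Nat.lt_or_ge x (y + 2 * (a / 6)) with h1 | h1
    · have h6 : 6 ≤ a := by omega
      exact S4 hf (K' := K + cc a + 2) (by omega) ha (by omega) h6 (by omega) (by omega)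
        (by omega) (by omega) (hA' 3 (by omega) h6) r3s hl4 hyx (by omega) (by omega)
    · exact QF_even hf (by omega) (by omega) (by omega) hl4 hyx (by omega) (Or.inl (by omega))
  exact ⟨h0, r1, r1s, r2, r2x, r2s, r3, r3s, r4⟩

end Pool.Agent.SNT
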