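import Pool.Agent.SNT.UpO

set_option autoImplicit false
set_option maxHeartbeats 1000000

/-! The chain of the even layers: the threshold of the layer `a` may be equal to the threshold of
the layer `a - 2` two rows later. -/

namespace Pool.Agent.SNT

variable {f : ℕ → ℕ → ℕ → ℕ → Prop}

theorem St.congr {a b a' b' K K' : ℕ} (h : St f a b K) (h1 : a = a') (h2 : b = b') (h3 : K ≤ K') :
    St f a' b' K' := by
  subst h1 h2
  exact h.mono h3

/-- The flat thresholds of the odd layer. -/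
theorem oddQ (hf : Rule f) {a b L K1 K2 : ℕ} (ha : a % 2 = 0) (h2 : 2 ≤ a) (hab : a + 4 ≤ b)
    (hL : a + b + 9 ≤ L) (hLe : L % 2 = 0) (hK12 : K1 + cc (a - 2) + 4 ≤ L)
    (hK2 : K2 ≤ L) (c1 : Cyc f (a - 2) (b - 2) K1) (c2 : Cyc f (a - 2) (b + 2) K2)
    (hq : St f (a - 1) (b - 1) (L - 4)) :
    St f (a - 1) b (L - 2) ∧ St f (a - 1) (b + 1) L ∧ St f (a - 1) (b + 2) (L + 2) ∧
      St f (a - 1) (b + 3) (L + 4) ∧ St f (a - 1) (b + 4) (L + cc (a - 2) + 2) := by
  obtain ⟨hc2, hc4, hch⟩ := cc_facts (a - 2)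
  have lsk : ∀ β L' : ℕ, St f (a - 2) (β + 1) L' → St f (a - 2) β L' → St f (a - 1) β L' →
      LSK f (a - 1) (β + 1) L' := by
    intro β L' g1 g2 g3 x y hxy p q hp hq hpq hpa hqb
    have hp' : p = 0 ∨ p = 1 := by omega
    have hq' : q = 0 ∨ q = 1 := by omega
    have ea : a - 1 - 1 = a - 2 := by omega
    rcases hp' with rfl | rfl
    · rcases hq' with rfl | rfl
      · omega
      · exact g3 x y hxy
    · rcases hq' with rfl | rfl
      · rw [ea]; exact g1 x y hxy
      · rw [ea]; exact g2 x y hxy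
  have step : ∀ β L' : ℕ, a + 4 ≤ β + 1 → a + β + 6 ≤ L' → L' % 2 = 0 →
      St f (a - 2) (β + 1) L' → St f (a - 2) β L' → St f (a - 1) β L' →
      St f (a - 1) (β + 1) (L' + 2) := by
    intro β L' g0 g1 g2 g3 g4 g5
    exact QF_even_flat hf (by omega) (by omega) g2 (lsk β L' g3 g4 g5) (Or.inl (by omega))
  have q0 : St f (a - 1) b (L - 2) :=
    (step (b - 1) (L - 4) (by omega) (by omega) (by omega)
      (c1.r2.congr rfl (by omega) (by omega)) (c1.r1.congr rfl (by omega) (by omega)) hq).congr rfl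
      (by omega) (by omega)
  have q1 : St f (a - 1) (b + 1) L :=
    (step b (L - 2) (by omega) (by omega) (by omega)
      (c1.r3.congr rfl (by omega) (by omega)) (c1.r2.congr rfl (by omega) (by omega)) q0).congr rfl
      (by omega) (by omega)
  have q2 : St f (a - 1) (b + 2) (L + 2) :=
    step (b + 1) L (by omega) (by omega) (by omega)
      (c2.r0.congr rfl (by omega) (by omega)) (c1.r3.congr rfl (by omega) (by omega)) q1
  have q3 : St f (a - 1) (b + 3) (L + 4) :=
    step (b + 2) (L + 2) (by omega) (by omega) (by omega)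
      (c2.r1.congr rfl (by omega) (by omega)) (c2.r0.congr rfl (by omega) (by omega)) q2
  have q4 : St f (a - 1) (b + 4) (L + cc (a - 2) + 2) :=
    step (b + 3) (L + cc (a - 2)) (by omega) (by omega) (by omega)
      (c2.r2.congr rfl (by omega) (by omega)) (c2.r1.congr rfl (by omega) (by omega))
      (q3.mono (by omega))
  exact ⟨q0, q1, q2, q3, q4⟩

/-- The odd layer in a cycle, from the even layer below it. -/
theorem OddB_of_cyc (hf : Rule f) {a b K K1 K2 : ℕ} (ha : a % 2 = 0) (h2 : 2 ≤ a) (h6 : a ≠ 6)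
    (hab : a + 17 ≤ b) (hK : a + b + 9 ≤ K) (hKe : K % 2 = 0)
    (hK12 : K1 + cc (a - 2) + 4 ≤ K) (hK2 : K2 ≤ K) (c1 : Cyc f (a - 2) (b - 2) K1)
    (c2 : Cyc f (a - 2) (b + 2) K2) (hq : St f (a - 1) (b - 1) (K - 4)) : OddB f a b K := by
  obtain ⟨hc2, hc4, hch⟩ := cc_facts (a - 2)
  obtain ⟨hd2, hd4, hdh⟩ := cc_facts a
  have hcd : cc (a - 2) ≤ cc a := cc_mono (by omega)
  obtain ⟨q0, q1, q2, q3, q4⟩ := oddQ hf ha h2 (by omega) hK hKe hK12 hK2 c1 c2 hq
  have P1 : St f (a - 2) (b + 1) (K - 2) := c1.r3.congr rfl (by omega) (by omega)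
  refine ⟨q0.mono (by omega), q1, q2, ?_, q3.mono (by omega), ?_, ?_, q4.mono (by omega), ?_⟩
  · intro g6 x y h1 h3
    refine all_of_half hf (P := fun x y => x ≤ y + 2 * (a / 6) ∧ K + 1 < x) ?_ x y ⟨h1, h3⟩
    intro x y hyx hP
    refine odd_static hf ha (by omega) (by omega) (by omega) hyx (by omega) ?_
    intro q r s hq' hr hs hrs
    have hq2 : q = 0 ∨ q = 1 := by omega
    rcases hq2 with rfl | rfl
    · exact c2.r0 _ _ (lt_of_lt_of_le (by omega) (le_max_left _ _))
    · exact P1 _ _ (lt_of_lt_of_le (by omega) (le_max_left _ _))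
  · intro g6 x y h1 h3
    refine all_of_half hf (P := fun x y => x ≤ y + 1 ∧ K + 2 < y) ?_ x y ⟨h1, h3⟩
    intro x y hyx hP
    refine odd_static hf ha (by omega) (by omega) (by omega) hyx (by omega) ?_
    intro q r s hq' hr hs hrs
    have hq2 : q = 0 ∨ q = 1 := by omega
    rcases hq2 with rfl | rfl
    · exact c2.r1s (by omega) _ _ (by omega) (by omega)
    · exact c2.r0 _ _ (lt_of_lt_of_le (by omega) (le_max_left _ _))
  · intro g6 x y h1 h3
    refine all_of_half hf (P := fun x y => x + 1 ≤ y + 2 * (a / 6) ∧ K + 3 < y) ?_ x y ⟨h1, h3⟩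
    intro x y hyx hP
    refine odd_static hf ha (by omega) (by omega) (by omega) hyx (by omega) ?_
    intro q r s hq' hr hs hrs
    have hq2 : q = 0 ∨ q = 1 := by omega
    rcases hq2 with rfl | rfl
    · exact c2.r1 _ _ (lt_of_lt_of_le (by omega) (le_max_left _ _))
    · exact c2.r0 _ _ (lt_of_lt_of_le (by omega) (le_max_left _ _))
  · intro g6 x y h1 h3
    refine all_of_half hf (P := fun x y => x + 1 ≤ y + 2 * (a / 6) ∧ K + 3 < y) ?_ x y ⟨h1, h3⟩
    intro x y hyx hP
    refine odd_static hf ha (by omega) (by omega) (by omega) hyx (by omega) ?_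
    intro q r s hq' hr hs hrs
    have hq2 : q = 0 ∨ q = 1 := by omega
    rcases hq2 with rfl | rfl
    · rcases Nat.lt_or_ge (max (x - r) (y - s)) (min (x - r) (y - s) + 2 * ((a - 2) / 6)) with
        h4 | h4
      · exact c2.r2s _ _ (by omega) (by omega)
      · exact c2.r2x _ _ h4 (by omega)
    · exact c2.r1 _ _ (lt_of_lt_of_le (by omega) (le_max_left _ _))

/-- One layer of the chain. -/
theorem chain_step (hf : Rule f) {a b K K2 off : ℕ} (ha : a % 2 = 0) (h2 : 2 ≤ a)
    (hab : a + 13 ≤ b) (hb : b % 2 = 0) (h4 : (a + b) % 4 = 2) (hK : a + b + 10 + off ≤ K)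
    (hKe : K % 2 = 0) (h6 : (off = 0 ∧ a ≠ 6) ∨ (off = 6 ∧ a = 6)) (hK2 : K2 + off ≤ K)
    (h0 : St f a b K) (hQ0 : OddB f a b K) (hq0 : St f (a - 1) (b + 3) (K + cc a - off))
    (hc : ∀ n : ℕ, Cyc f (a - 2) (b + 2 + 4 * n) (K2 + (cc (a - 2) + 4) * n)) :
    ∀ n : ℕ, Cyc f a (b + 4 * n) (K + (cc a + 4) * n) := by
  obtain ⟨hc2, hc4, hch⟩ := cc_facts (a - 2)
  obtain ⟨hd2, hd4, hdh⟩ := cc_facts a
  have hcd : cc (a - 2) ≤ cc a := cc_mono (by omega)
  have hev : ∀ n : ℕ, ((cc a + 4) * n) % 2 = 0 := by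
    intro n
    rw [Nat.mul_mod]
    have : (cc a + 4) % 2 = 0 := by omega
    rw [this]
    simp
  have main : ∀ n : ℕ, Cyc f a (b + 4 * n) (K + (cc a + 4) * n) ∧
      St f (a - 1) (b + 4 * n + 3) (K + (cc a + 4) * n + cc a - off) := by
    intro n
    induction n with
    | zero =>
      refine ⟨cycle_w hf (by omega) ha (by omega) (by omega) (by omega) (by omega) h0
        (fun _ => hQ0), hq0⟩
    | succ n ih =>
      obtain ⟨ih1, ih2⟩ := ih
      have e1 : (cc a + 4) * (n + 1) = (cc a + 4) * n + cc a + 4 := by ring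
      have e2 : (cc (a - 2) + 4) * (n + 1) = (cc (a - 2) + 4) * n + cc (a - 2) + 4 := by ring
      have h5 : (cc (a - 2) + 4) * n ≤ (cc a + 4) * n := Nat.mul_le_mul_right _ (by omega)
      have h7 : 8 * n ≤ (cc a + 4) * n := Nat.mul_le_mul_right _ (by omega)
      have hs : St f a (b + 4 * (n + 1)) (K + (cc a + 4) * (n + 1)) :=
        ih1.r4.congr rfl (by omega) (by omega)
      have c1 := hc n
      have c2 := hc (n + 1)
      have eb1 : b + 2 + 4 * n = b + 4 * (n + 1) - 2 := by omega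
      have eb2 : b + 2 + 4 * (n + 1) = b + 4 * (n + 1) + 2 := by omega
      rw [eb1] at c1
      rw [eb2] at c2
      have hK' := hev (n + 1)
      rcases h6 with ⟨rfl, h6⟩ | ⟨rfl, rfl⟩
      · have hq1 : St f (a - 1) (b + 4 * (n + 1) - 1) (K + (cc a + 4) * (n + 1) - 4) :=
          ih2.congr rfl (by omega) (by omega)
        have hO : OddB f a (b + 4 * (n + 1)) (K + (cc a + 4) * (n + 1)) :=
          OddB_of_cyc hf ha h2 h6 (by omega) (by omega) (by omega) (by omega) (by omega) c1 c2 hq1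
        obtain ⟨_, _, _, q3, _⟩ := oddQ hf (b := b + 4 * (n + 1)) (L := K + (cc a + 4) * (n + 1))
          ha h2 (by omega) (by omega) (by omega) (by omega) (by omega) c1 c2 hq1
        exact ⟨cycle_w hf (by omega) ha (by omega) (by omega) (by omega) (by omega) hs
          (fun _ => hO), q3.mono (by omega)⟩
      · have hcc4 : cc (6 - 2) = 4 := by decide
        have hq1 : St f (6 - 1) (b + 4 * (n + 1) - 1) (K + (cc 6 + 4) * (n + 1) - 6 - 4) :=
          ih2.congr rfl (by omega) (by omega)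
        obtain ⟨q0, q1, q2, q3, q4⟩ := oddQ hf (b := b + 4 * (n + 1))
          (L := K + (cc 6 + 4) * (n + 1) - 6)
          ha h2 (by omega) (by omega) (by omega) (by omega) (by omega) c1 c2 hq1
        have hO : OddB f 6 (b + 4 * (n + 1)) (K + (cc 6 + 4) * (n + 1)) :=
          OddB_of_flat (q0.mono (by omega)) (q1.mono (by omega)) (q2.mono (by omega))
            (q3.mono (by omega)) (q4.mono (by omega))
        exact ⟨cycle_w hf (by omega) ha (by omega) (by omega) (by omega) (by omega) hs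
          (fun _ => hO), q3.mono (by omega)⟩
  intro n
  exact (main n).1

end Pool.Agent.SNT
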