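import Pool.Agent.SNT.NHZone2
import Pool.Agent.SNT.D1Ind

set_option autoImplicit false

/-! The two beams of the row `c` of the layer `6 k` run from the diagonal down to the wall: only the zeros of the row
`c - 1` (the OUT row of `6 k + 10` one cycle before) are used. -/

namespace Pool.Agent.SNT.D1Z

open Pool.Agent.SNT Pool.Agent.SNT.NHZ Pool.Agent.SNT.Sig

variable {f : ℕ → ℕ → ℕ → ℕ → Prop}

/-- one step of a run: the rows `b - 1` of the layer and the layer below vanish -/
theorem step_down (hf : Rule f) {a b x y : ℕ} (h : f a b x (y + 2)) (ha1 : 1 ≤ a) (hb1 : 1 ≤ b) (hx : x % 2 = 1)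
    (z1 : ∀ q r s : ℕ, q ≤ 1 → r ≤ 1 → s ≤ 1 → ¬ f (a - 1) (b - q) (x - r) (y + 1 - s))
    (z2 : ∀ r s : ℕ, r ≤ 1 → s ≤ 1 → ¬ f a (b - 1) (x - r) (y + 1 - s))
    (z3 : ¬ f a b (x - 1) y) : f a b x y := by
  have h0 : ¬ f a b x (y + 1) := by
    have := hf.down h (p := 0) (q := 0) (r := 0) (s := 1) (by omega) (by omega) (by omega) (by omega) (by omega)
      (by omega) (by omega) (by omega) (by omega)
    rwa [Nat.sub_zero, Nat.sub_zero, Nat.sub_zero, show y + 2 - 1 = y + 1 by omega] at this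
  have h1 : ¬ f a b (x - 1) (y + 1) := by
    have := hf.down h (p := 0) (q := 0) (r := 1) (s := 1) (by omega) (by omega) (by omega) (by omega) (by omega)
      (by omega) (by omega) (by omega) (by omega)
    rwa [Nat.sub_zero, Nat.sub_zero, show y + 2 - 1 = y + 1 by omega] at this
  obtain ⟨p, q, r, s, hp, hq, hr, hs, h2, h3, h4, h5, h6, h7⟩ := pred hf h0 (by omega)
  interval_cases p
  · rw [Nat.sub_zero] at h7
    interval_cases q
    · rw [Nat.sub_zero] at h7
      interval_cases r <;> interval_cases s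
      · omega
      · rwa [Nat.sub_zero, Nat.add_sub_cancel] at h7
      · rw [Nat.sub_zero] at h7
        exact absurd h7 h1
      · rw [Nat.add_sub_cancel] at h7
        exact absurd h7 z3
    · exact absurd h7 (z2 r s hr hs)
  · exact absurd h7 (z1 q r s hq hr hs)

/-- the row `c - 1` of the layer `6 k` (`c = b + 26`, `n` the number of the later cycle) -/
theorem rm1_zero (hf : Rule f) {k b n : ℕ} (T : NHT f k (b + 22) (2 * n)) {x y : ℕ} (hy : 2 * n + 5 ≤ y)
    (h1 : y + 6 ≤ x) (h2 : x + 7 ≤ y + 2 * k) : ¬ f (6 * k) (b + 25) x y :=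
  T.O.after hf (t := 5) (s := 0) (j := 5) (p := 0) (q := 1) (by omega) (by omega) (by omega) (by omega) (by omega)
    (by omega) (by have := T.hb; omega) (by unfold Yf; rw [if_neg (by omega)]; omega) h1 h2

/-- **the beam of the column `2 M + 1`** of `6 k` in the row `c` -/
theorem beam_down (hf : Rule f) {k b m n M : ℕ} (hs : Side k (b + 4) (m + (k + 2)))
    (S : Stack6 f k (b + 4) (m + (k + 2)) 0 0 0 0 0 1) (T : NHT f k (b + 22) (2 * n))
    (hn : n = m + 9 + (k + 2) * 4) (hM : n + (k + 2) ≤ M + 4) {y : ℕ} (hy : y % 2 = 0) (hy1 : y + 9 ≤ 2 * M + 1)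
    (hy2 : 2 * M + 10 ≤ y + 2 * k) (h : f (6 * k) (b + 26) (2 * M + 1) (2 * M - 8)) :
    f (6 * k) (b + 26) (2 * M + 1) y := by
  obtain ⟨hk, hb2, hb4, hbl, hm⟩ := id hs
  obtain ⟨j, hj⟩ : ∃ j, y + 2 * j = 2 * M - 8 := ⟨(2 * M - 8 - y) / 2, by omega⟩
  induction j generalizing y with
  | zero =>
    have e : y = 2 * M - 8 := by omega
    rw [e]
    exact h
  | succ j ih =>
    have h1 : f (6 * k) (b + 26) (2 * M + 1) (y + 2) := ih (by omega) (by omega) (by omega) (by omega)
    refine step_down hf h1 (by omega) (by omega) (by omega) ?_ ?_ ?_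
    · intro q r s hq hr hs'
      exact lw_zero hs S (i := 22 - q) (by omega) (by omega) (by omega) (by omega) (by omega)
    · intro r s hr hs'
      exact rm1_zero hf T (by omega) (by omega) (by omega)
    · intro h3
      exact hf.not_allEven h3 ⟨by omega, by omega, by omega, hy⟩

/-- **the beam of the odd cells of the column `2 M + 3`** -/
theorem odd_down (hf : Rule f) {k b m n M : ℕ} (hs : Side k (b + 4) (m + (k + 2)))
    (S : Stack6 f k (b + 4) (m + (k + 2)) 0 0 0 0 0 1) (T : NHT f k (b + 22) (2 * n))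
    (hn : n = m + 9 + (k + 2) * 4) (hM : n + (k + 2) ≤ M + 4) {y : ℕ} (hy : y % 2 = 1) (hy1 : y + 8 ≤ 2 * M + 3)
    (hy2 : 2 * M + 11 ≤ y + 2 * k) (h : f (6 * k) (b + 26) (2 * M + 1) (2 * M - 8))
    (h' : f (6 * k) (b + 26) (2 * M + 3) (2 * M - 5)) :
    f (6 * k) (b + 26) (2 * M + 3) y := by
  obtain ⟨hk, hb2, hb4, hbl, hm⟩ := id hs
  obtain ⟨j, hj⟩ : ∃ j, y + 2 * j = 2 * M - 5 := ⟨(2 * M - 5 - y) / 2, by omega⟩
  induction j generalizing y with
  | zero =>
    have e : y = 2 * M - 5 := by omega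
    rw [e]
    exact h'
  | succ j ih =>
    have h1 : f (6 * k) (b + 26) (2 * M + 3) (y + 2) := ih (by omega) (by omega) (by omega) (by omega)
    refine step_down hf h1 (by omega) (by omega) (by omega) ?_ ?_ ?_
    · intro q r s hq hr hs'
      exact lw_zero hs S (i := 22 - q) (by omega) (by omega) (by omega) (by omega) (by omega)
    · intro r s hr hs'
      exact rm1_zero hf T (by omega) (by omega) (by omega)
    · have h2 : f (6 * k) (b + 26) (2 * M + 1) (y - 1) :=
        beam_down hf hs S T hn hM (by omega) (by omega) (by omega) h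
      have := hf.up h2 (p := 0) (q := 0) (r := 1) (s := 1) (by omega) (by omega) (by omega) (by omega) (by omega)
      rwa [Nat.add_zero, Nat.add_zero, show 2 * M + 1 + 1 = 2 * M + 3 - 1 by omega, show y - 1 + 1 = y by omega] at this

end Pool.Agent.SNT.D1Z
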