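import Pool.Agent.SNT.SBCells
import Pool.Agent.SNT.Z00R

set_option autoImplicit false

/-! The columns `2 M - 1`, `2 M + 1`, `2 M + 3` of `6 k` in the row `c - 2` (`c = b + 26`): from the third cell
(`d = 2 k - 5`) up to the diagonal. -/

namespace Pool.Agent.SNT.D1Z

open Pool.Agent.SNT Pool.Agent.SNT.NHZ Pool.Agent.SNT.Sig Pool.Agent.SNT.D1 Pool.Agent.SNT.SBC

variable {f : ℕ → ℕ → ℕ → ℕ → Prop}

/-- a one of the layer `a + 1` is all even in the last three coordinates if the layer `a - 1` vanishes -/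
theorem e_even (hf : Rule f) {a R x y : ℕ} (ha : 1 ≤ a)
    (lw : ∀ q r s : ℕ, q ≤ 1 → r ≤ 1 → s ≤ 1 → ¬ f (a - 1) (R - q) (x - r) (y - s)) (h : f (a + 1) R x y) :
    R % 2 = 0 ∧ x % 2 = 0 ∧ y % 2 = 0 := by
  by_contra hn
  have h0 : ¬ f a R x y := by
    have := hf.down h (p := 1) (q := 0) (r := 0) (s := 0) (by omega) (by omega) (by omega) (by omega) (by omega)
      (by omega) (by omega) (by omega) (by omega)
    rwa [Nat.sub_zero, Nat.sub_zero, Nat.sub_zero, Nat.add_sub_cancel] at this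
  obtain ⟨p, q, r, s, hp, hq, hr, hs, h2, h3, h4, h5, h6, h7⟩ := pred hf h0 (by omega)
  interval_cases p
  · rw [Nat.sub_zero] at h7
    have := hf.down h (p := 1) (q := q) (r := r) (s := s) (by omega) hq hr hs (by omega)
      (by omega) h4 h5 h6
    rw [Nat.add_sub_cancel] at this
    exact this h7
  · exact lw q r s hq hr hs h7

/-- a zero of the layer `a + 1` gives a covered window of the layer `a` -/
theorem cov_of_zero (hf : Rule f) {a R x y : ℕ} (ha : 1 ≤ a) (hae : a % 2 = 0) (hR : R % 2 = 0) (hx : 1 ≤ x) (hy : 1 ≤ y)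
    (hR1 : 1 ≤ R)
    (lw : ∀ q r s : ℕ, q ≤ 2 → r ≤ 2 → s ≤ 2 → ¬ f (a - 1) (R - q) (x - r) (y - s))
    (z : ∀ r s : ℕ, r ≤ 1 → s ≤ 1 → ¬ f a (R - 1) (x - r) (y - s))
    (h : ∀ r s : ℕ, r ≤ 1 → s ≤ 1 → (x - r) % 2 = 0 → (y - s) % 2 = 0 → ¬ f (a + 1) R (x - r) (y - s)) :
    Cov f a R (x - 1) (y - 1) := by
  have h0 : ¬ f (a + 1) R x y := by
    intro h1
    obtain ⟨-, e2, e3⟩ := e_even hf ha (fun q r s hq hr hs => lw q r s (by omega) (by omega) (by omega)) h1
    have := h 0 0 (by omega) (by omega) (by omega) (by omega)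
    exact this h1
  obtain ⟨p, q, r, s, hp, hq, hr, hs, h2, h3, h4, h5, h6, h7⟩ := pred hf h0 (by omega)
  interval_cases p
  · exfalso
    rw [Nat.sub_zero] at h7
    have h8 := e_even hf ha (R := R - q) (x := x - r) (y := y - s) (fun q' r' s' hq' hr' hs' => by
      rw [Nat.sub_sub, Nat.sub_sub, Nat.sub_sub]
      exact lw (q + q') (r + r') (s + s') (by omega) (by omega) (by omega)) h7
    obtain ⟨e1, e2, e3⟩ := h8
    have hq0 : q = 0 := by omega
    subst hq0
    exact h r s hr hs e2 e3 h7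
  · rw [Nat.add_sub_cancel] at h7
    interval_cases q
    · rw [Nat.sub_zero] at h7
      interval_cases r <;> interval_cases s
      · rw [Nat.sub_zero, Nat.sub_zero] at h7
        exact Or.inr (Or.inr (Or.inr (by rwa [Nat.sub_add_cancel hx, Nat.sub_add_cancel hy])))
      · rw [Nat.sub_zero] at h7
        exact Or.inr (Or.inl (by rwa [Nat.sub_add_cancel hx]))
      · rw [Nat.sub_zero] at h7
        exact Or.inr (Or.inr (Or.inl (by rwa [Nat.sub_add_cancel hy])))
      · exact Or.inl h7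
    · exact absurd h7 (z r s hr hs)

variable {k b m n M : ℕ}

/-- the row `c - 3 = b + 23` of the layer `6 k` at the distance `2 k - 5` -/
theorem row23w (hf : Rule f) (w' : W f k (b + 4) (m + (k + 2)) (n + (k + 2)) (M + (k + 2))) {x y : ℕ}
    (hx : x % 2 = 0) (hx1 : 2 * (M + (k + 2)) ≤ x) (hd : x + 5 = y + 2 * k) : ¬ f (6 * k) (b + 23) x y := by
  obtain ⟨hk, hb2, hb4, hbl, hm⟩ := id w'.hs
  have hM := w'.hM
  have hM' := w'.hM'
  have hn := w'.hn
  have hc : Cov f (6 * k) (b + 22) (x - 1) (y - 1) := by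
    refine cov_of_zero hf (by omega) (by omega) (by omega) (by omega) (by omega) (by omega) ?_ ?_ ?_
    · intro q r s hq hr hs
      exact lw_zero w'.hs w'.S (i := 18 - q) (by omega) (by omega) (by omega) (by omega) (by omega)
    · intro r s hr hs h
      have h1 := (w'.d0.r1s (by omega) (x - r) (y - s) (by rw [max_eq_left (by omega), min_eq_right (by omega)]; omega)
        (by rw [max_eq_left (by omega)]; omega)).1 (by rwa [show b + 4 + 16 + 1 = b + 22 - 1 by omega])
      have h2 := (Fst_odd (by omega) (by omega) (by omega) (by omega) (by omega)).1 h1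
      omega
    · intro r s hr hs h1 h2
      exact w'.T.pIn hf (t := 3) (j := 2) (by omega) (by omega) (by omega) (by omega) (by omega) (by omega) (by omega)
  have := zero_of_cov hf hc (p := 0) (q := 1) (by omega) (by omega) (by omega)
  rwa [Nat.add_zero, Nat.sub_add_cancel (by omega), Nat.sub_add_cancel (by omega), show b + 22 + 1 = b + 23 by omega] at this

/-- **the columns of `6 k` in the row `b + 24`, from the third cell upwards** -/
theorem col_up (hf : Rule f) (w : W f k b m n M) (w' : W f k (b + 4) (m + (k + 2)) (n + (k + 2)) (M + (k + 2))) {x : ℕ}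
    (hx : x % 2 = 1) (hx1 : 2 * (M + (k + 2)) ≤ x + 1) {y : ℕ} (hy : y % 2 = 0)
    (hy1 : x + 5 ≤ y + 2 * k) (hy2 : y + 5 ≤ x) (h : f (6 * k) (b + 24) x (x + 5 - 2 * k)) : f (6 * k) (b + 24) x y := by
  obtain ⟨hk, hb2, hb4, hbl, hm⟩ := id w'.hs
  have hM := w.hM
  have hM' := w.hM'
  have hn := w.hn
  refine DRun.col_run hf (y0 := x + 5 - 2 * k) (y1 := x - 5) (by omega) (by omega) hx (by omega) ?_ h y (by omega) (by omega) hy
  intro v hv1 hv2 hv
  have := cov_of_zero hf (a := 6 * k) (R := b + 24) (x := x + 1) (y := v + 1) (by omega) (by omega) (by omega) (by omega)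
    (by omega) (by omega) ?_ ?_ ?_
  · rwa [Nat.add_sub_cancel, Nat.add_sub_cancel] at this
  · intro q r s hq hr hs
    exact lw_zero w'.hs w'.S (i := 20 - q) (by omega) (by omega) (by omega) (by omega) (by omega)
  · intro r s hr hs
    rw [show b + 24 - 1 = b + 23 by omega]
    by_cases h1 : (x + 1 - r) + 6 ≤ (v + 1 - s) + 2 * k
    · exact w.T.r1 hf (j := 4) (p := 0) (by omega) (by omega) (by omega) (by omega) (by omega) (by omega)
    · exact row23w hf w' (by omega) (by omega) (by omega)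
  · intro r s hr hs h1 h2
    exact w.out_slant hf h1 h2 (by omega) (by omega) (by omega)

end Pool.Agent.SNT.D1Z
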