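import Pool.Agent.SNT.NWD
import Pool.Agent.SNT.NHZoneU
import Pool.Agent.SNT.NHZone2

set_option autoImplicit false
set_option synthInstance.maxSize 100000
set_option synthInstance.maxHeartbeats 4000000

/-! Near-wall windows for the cell `P_(6k+9) (c + 1) (2 n + 4) (2 n + 2 - 2 k)` (`c` is the IN row of the top leader `6 k + 10`,
`n` its lead), over the lead `n - k - 5` of `6 k` and the lead `n - 5` of `6 k + 2`. -/

namespace Pool.Agent.SNT.Z1P

open Pool.Agent.SNT Pool.Agent.SNT.Loc Pool.Agent.SNT.LW Pool.Agent.SNT.NHZ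

variable {f : ℕ → ℕ → ℕ → ℕ → Prop}

theorem zZ_r1i (hf : Rule f) {k c N M R x y p j : ℕ} (h : NHT f k c N) (hR : R = c + 1) (hj : j ≤ 5) (hp : p ≤ 1)
    (hL : M + 2 * j = 6 * k + 10 + p) (hx : N + 3 ≤ x) (h1 : y + 1 + j ≤ x) (h2 : x + 2 + j ≤ y + 2 * k) :
    ¬ f M R x y := by
  subst hR
  exact h.r1i hf hj hp hL hx h1 h2

theorem uP0 (hf : Rule f) {k c N M R x y j : ℕ} (h : NHU f k c N) (hj : j ≤ 0) (hL : M + 1 + 2 * j = 6 * k + 6)
    (hR : R + 5 = c ∨ R + 4 = c) (hx : N ≤ x + 8) (h1 : y + 1 + j ≤ x) (h2 : x + j ≤ y + 2 * k) : ¬ f M R x y :=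
  h.I.P hf (t := 0) (s := 0) (j := j) (q := c - 4 - R) (by omega) (by omega) (by omega) (by omega)
    (by have := h.hb; omega) (by unfold XU; rw [if_pos (by omega)]; have := h.hN2; omega) (by have := h.hN2; omega)
    (by omega) (by omega)

theorem uP1 (hf : Rule f) {k c N M R x y j : ℕ} (h : NHU f k c N) (hj : j ≤ 1) (hL : M + 1 + 2 * j = 6 * k + 8)
    (hR : R + 3 = c ∨ R + 2 = c) (hx : N ≤ x + 2) (h1 : y + 1 + j ≤ x) (h2 : x + j ≤ y + 2 * k) : ¬ f M R x y :=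
  h.pmi hf hj hL hR hx h1 h2

theorem uP2 (hf : Rule f) {k c N M R x y j : ℕ} (h : NHU f k c N) (hj : j ≤ 2) (hL : M + 1 + 2 * j = 6 * k + 10)
    (hR : R + 1 = c ∨ R = c) (hx : N + 4 ≤ x) (h1 : y + 1 + j ≤ x) (h2 : x + j ≤ y + 2 * k) : ¬ f M R x y :=
  h.p0i hf hj hL hR hx h1 h2

theorem uA0 (hf : Rule f) {k c N M R x y p j : ℕ} (h : NHU f k c N) (hR : R + 3 = c) (hj : j ≤ 0) (hp : p ≤ 1)
    (hL : M + 2 * j = 6 * k + 6 + p) (hx : N ≤ x + 7) (h1 : y + 1 + j ≤ x) (h2 : x + j ≤ y + 2 * k) : ¬ f M R x y :=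
  h.I.after hf (t := 0) (s := 0) (j := j) (p := p) (q := 1) (by omega) (by omega) hp le_rfl (by omega) (by omega)
    (by have := h.hb; omega) (by unfold XU; rw [if_pos (by omega)]; have := h.hN2; omega)
    (by have := h.hN2; omega) (by omega) (by omega)

theorem uA1 (hf : Rule f) {k c N M R x y p j : ℕ} (h : NHU f k c N) (hR : R + 1 = c) (hj : j ≤ 1) (hp : p ≤ 1)
    (hL : M + 2 * j = 6 * k + 8 + p) (hx : N ≤ x + 1) (h1 : y + 1 + j ≤ x) (h2 : x + j ≤ y + 2 * k) : ¬ f M R x y := by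
  have e : R = c - 1 := by omega
  subst e
  exact h.rm1i hf hj hp hL hx h1 h2

theorem uA2 (hf : Rule f) {k c N M R x y p j : ℕ} (h : NHU f k c N) (hR : R = c + 1) (hj : j ≤ 2) (hp : p ≤ 1)
    (hL : M + 2 * j = 6 * k + 10 + p) (hx : N + 5 ≤ x) (h1 : y + 1 + j ≤ x) (h2 : x + j ≤ y + 2 * k) : ¬ f M R x y := by
  subst hR
  exact h.r1i hf hj hp hL hx h1 h2

theorem z1p_chk : check 12 9 10 18 0 1 0 0 0
    (fun j n p q => decide ((j = 2 ∧ n = 1 ∧ (((p + q) % 2 = 1 ∧ p + 5 ≤ q ∧ p % 2 = 0) ∨ ((p + q) % 2 = 1 ∧ q ≤ p + 5 ∧ (p + q + 3) % 4 = 0)))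
      ∨ (j = 2 ∧ n = 2 ∧ ((p + q) % 2 = 0 ∧ q ≤ p + 4 ∧ (p + q) % 4 = 0))
      ∨ (j = 2 ∧ n = 3 ∧ (((p + q) % 2 = 1 ∧ p + 5 ≤ q ∧ p % 2 = 1) ∨ ((p + q) % 2 = 1 ∧ q ≤ p + 5 ∧ (p + q + 1) % 4 = 0)))
      ∨ (j = 4 ∧ n = 1 ∧ (((p + q) % 2 = 1 ∧ p + 5 ≤ q ∧ p % 2 = 1) ∨ ((p + q) % 2 = 1 ∧ q ≤ p + 5 ∧ (p + q + 1) % 4 = 0)))
      ∨ (j = 4 ∧ n = 3 ∧ q ≤ p + 4 ∧ (((p + q) % 2 = 1 ∧ p + 5 ≤ q ∧ p % 2 = 0) ∨ ((p + q) % 2 = 1 ∧ q ≤ p + 5 ∧ (p + q + 3) % 4 = 0)))
      ∨ (j = 6 ∧ n = 1 ∧ q ≤ p + 4 ∧ (((p + q) % 2 = 1 ∧ p + 5 ≤ q ∧ p % 2 = 0) ∨ ((p + q) % 2 = 1 ∧ q ≤ p + 5 ∧ (p + q + 3) % 4 = 0)))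
      ∨ (j = 8 ∧ n = 2 ∧ ((p + q) % 2 = 0 ∧ q ≤ p + 2 ∧ (p + q + 2) % 4 = 2))
      ∨ (j = 8 ∧ n = 3 ∧ q ≤ p + 2 ∧ (((p + q) % 2 = 1 ∧ p + 3 ≤ q ∧ p % 2 = 0) ∨ ((p + q) % 2 = 1 ∧ q ≤ p + 3 ∧ (p + q + 3) % 4 = 2)))
      ∨ (j = 11 ∧ n = 6 ∧ p = 8 ∧ q = 10)))
    (fun j n p q => decide ((j = 2 ∧ n = 1 ∧ ¬ (((p + q) % 2 = 1 ∧ p + 5 ≤ q ∧ p % 2 = 0) ∨ ((p + q) % 2 = 1 ∧ q ≤ p + 5 ∧ (p + q + 3) % 4 = 0)))
      ∨ (j = 2 ∧ n = 2 ∧ ¬ ((p + q) % 2 = 0 ∧ q ≤ p + 4 ∧ (p + q) % 4 = 0))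
      ∨ (j = 2 ∧ n = 3 ∧ ¬ (((p + q) % 2 = 1 ∧ p + 5 ≤ q ∧ p % 2 = 1) ∨ ((p + q) % 2 = 1 ∧ q ≤ p + 5 ∧ (p + q + 1) % 4 = 0)))
      ∨ (j = 4 ∧ n = 1 ∧ ¬ (((p + q) % 2 = 1 ∧ p + 5 ≤ q ∧ p % 2 = 1) ∨ ((p + q) % 2 = 1 ∧ q ≤ p + 5 ∧ (p + q + 1) % 4 = 0)))
      ∨ (j = 4 ∧ n = 3 ∧ q ≤ p + 4 ∧ ¬ (((p + q) % 2 = 1 ∧ p + 5 ≤ q ∧ p % 2 = 0) ∨ ((p + q) % 2 = 1 ∧ q ≤ p + 5 ∧ (p + q + 3) % 4 = 0)))
      ∨ (j = 6 ∧ n = 1 ∧ q ≤ p + 4 ∧ ¬ (((p + q) % 2 = 1 ∧ p + 5 ≤ q ∧ p % 2 = 0) ∨ ((p + q) % 2 = 1 ∧ q ≤ p + 5 ∧ (p + q + 3) % 4 = 0)))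
      ∨ (j = 8 ∧ n = 2 ∧ ¬ ((p + q) % 2 = 0 ∧ q ≤ p + 2 ∧ (p + q + 2) % 4 = 2))
      ∨ (j = 8 ∧ n = 3 ∧ q ≤ p + 2 ∧ ¬ (((p + q) % 2 = 1 ∧ p + 3 ≤ q ∧ p % 2 = 0) ∨ ((p + q) % 2 = 1 ∧ q ≤ p + 3 ∧ (p + q + 3) % 4 = 2)))
      ∨ (j = 1)
      ∨ (j = 7 ∧ n = 1 ∧ p + 4 ≤ q)
      ∨ (j = 3 ∧ n = 2 ∧ p + 9 ≤ q)
      ∨ (j = 7 ∧ n = 2 ∧ 2 ≤ p ∧ p + 5 ≤ q)
      ∨ (j = 9 ∧ n = 2 ∧ p + 4 ≤ q)
      ∨ (j = 7 ∧ n = 3 ∧ 2 ≤ p ∧ p + 5 ≤ q)
      ∨ (j = 9 ∧ n = 3 ∧ 2 ≤ p ∧ p + 4 ≤ q)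
      ∨ (j = 5 ∧ n = 4 ∧ p + 9 ≤ q)
      ∨ (j = 7 ∧ n = 4 ∧ 8 ≤ p ∧ p + 6 ≤ q)
      ∨ (j = 10 ∧ n = 4 ∧ p + 6 ≤ q)
      ∨ (j = 11 ∧ n = 4 ∧ 3 ≤ p ∧ p + 4 ≤ q)
      ∨ (j = 5 ∧ n = 5 ∧ 6 ≤ p ∧ p + 9 ≤ q)
      ∨ (j = 7 ∧ n = 5 ∧ 6 ≤ p ∧ p + 8 ≤ q)
      ∨ (j = 7 ∧ n = 5 ∧ 8 ≤ p ∧ p + 6 ≤ q)
      ∨ (j = 9 ∧ n = 5 ∧ 6 ≤ p ∧ p + 7 ≤ q)
      ∨ (j = 11 ∧ n = 5 ∧ 6 ≤ p ∧ p + 6 ≤ q)
      ∨ (j = 6 ∧ n = 6 ∧ 7 ≤ p ∧ p + 9 ≤ q)
      ∨ (j = 7 ∧ n = 6 ∧ 7 ≤ p ∧ p + 9 ≤ q)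
      ∨ (j = 8 ∧ n = 6 ∧ 7 ≤ p ∧ p + 8 ≤ q)
      ∨ (j = 9 ∧ n = 6 ∧ 7 ≤ p ∧ p + 8 ≤ q)
      ∨ (j = 10 ∧ n = 6 ∧ 7 ≤ p ∧ p + 7 ≤ q)
      ∨ (j = 11 ∧ n = 6 ∧ 7 ≤ p ∧ p + 7 ≤ q)
      ∨ (j = 12 ∧ n = 6 ∧ 7 ≤ p ∧ p + 6 ≤ q)
      ∨ (j = 7 ∧ n = 5 ∧ p = 6 ∧ q = 10)))
    699
    0x155203187c001bafda1ed980220d5a150203182c001bb0621eda001eda04220d031baf801baf84150203182c001b56421e80001e8004155283187c80187c84155303187d00187d040ef6031220001220041af2001af2011b55831ae9001ae904083e830bc3000bc304155c031886001886040ef503121f00121f040898030bc2000bc2041b558317bf0017bf04155b03188500188504149e03149e80149e840e9b8311c58011c58414a80317d20017d2041af2031af2801af2840e9c0311c60011c6040e91830eeb800eeb840e38030e38800e388411ce8311cf0011cf041b5e801b5e81150183182b80182b84083e830b69000b690408a2030bcc000bcc04149e0317c80017c80414f78315518015518408a0830bca800bca84149e0314f88014f8840834030b5e000b5e041a98831af3001af30410b783111b00111b040898030b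c2000ef5da121f80121f84155b831885801885840e4b0311750011750408ab030bd5000f08521232001232040f06800f068108a9030bd3000bd304083e830b68800b688417c8031822801822841e88831ee2801ee284150a83183480183484220d031b55801b55840ea48311ce8011ce840ea4830eff000eff041dcc83171500171501105d80105d841e88831ee3001ee3040834030b5e000e91da0eec000eec04122803122880122884083c8308970008970417c80317c88017c8840e9a000e9a01083c830b66800b66840b68830bc2800bc28408a0830bca800efe5a1228001228040e2d800e2d8107d0030afa000afa0411ce8312290012290417c803182200182204176e8317c90017c9040845030b6f000ea2da0f06000f0604083e830898800898840897830bc1800bc1841afa801afa8114a68014a6810d8b80144d00144280143a0010b5c2144d01144281143a010ead0008b38013fc0013f38013e90013e08013d60013cd800e5c000e5380085a000ead010e490008580008b3810e4080084f800847000e3600172642171dc2171342170ac217004216f7c20d96000d94000d83000e5c010e538107fe80085a0107f6000e490108580107f40007ed800e4081084f8107eb8008470107e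3000e360107da8007d8802537001aa9801aa1001a96801a8e001a50001a47801a3d001a34801a2a001a2180139800138f80138700138500137c801374001372001369801361000e02800dfa000df8000df9ba0def800df7ba0de7000de5000de6ba0ddc800dd4000dd2000dc9800dc1000d45000d43000d3c800d3a800d32000d29800d27800d21000d1f0007ad8007a50007a300079c8007fe81079a8007940007f60107920007f40107900007ed8107898007eb8107878007820007810007e301077f0007da8107768007d881077480076e00076c00075400074b80074980074300074100073880073680073000072e00072580071d00071b0007128006e78006e58006df0006dd0006d48006cc0025370f21b3071dcc871dc3871dc3071d72871d69871d69071b5e071b4d071b4c071aa98f1aa10f1aa0871aa0071a99071a98071a97871a97071a968f1a8e871a8e0f1a500f1a48871a48071a478f1a3f871a3f071a3e871a3e071a3d0f1a35871a35071a348f1a2a0f1a218f182307170c0716bb0716b20716b187150a0714f90714f80714f70714450714440714430714420714310713a20713a18713998713990713988713980f139107139087139007138f8f138f07138e871387871387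0f13868713860713858713850f137d87137d07137c8f137c07137b8713740f13738713730713728713720f136a87136a0713698f13610f0ea5070ea4070ea3070ea2070e93070e92070e91070e028f0e02070e01870dfa0f0df9870df9070df8870df80f0df7870df7070df1070df0870df0070def8f0def070dee870dee070de7870de70f0de6870de6070de5870de50f0dde070ddd870ddd070ddc8f0ddc070ddb870dd4870dd40f0dd3870dd3070dd2870dd20f0dca870dca070dc98f0dc10f0d450f0d430f0d3c8f0d3a8f0d33870d33070d320f0d31870d31070d2a870d2a070d298f0d28870d28070d278f0d210f0d1f0f085107085007084f07083f07083e07083d07083c07082b0707ad8f07a50f07a48707a40707a30f079c8f079c07079b87079b07079a8f079a0707998707940f07938707930707928707920f07918707910707908707900f078a87078a0707898f07890707888707880707878f07820f07810f078087078007077f87077f0f077e87077e0707778707770707768f07760707758707750707748f076e0f076d07076c87076c0f07540f074b8f07498f07430f07410f07388f07368f07300f072e0f07258f071d0f071b0f07128f06e78f06e58f06df0f06dd0f06d48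f06cc0f058987058907058107058087058007057f07057e87057807057787057687057607057587056f07056e87056e07056d87056d07056507056487056407053007052f87052f07052e07052d87052707052687052607052587052507052487051e07051d87051d07051c87051c07051b87051b07051a87051507051487051407051387051307051287051207051187050b87050b07050a87050a0705098705090705010705008704d60704d58704d48704d40704d38704cd0704cc8704cc0704cb8704cb0704ca8704ca0704c98704c38704c30704c28704c20704c18704c10704c08704ba8704ba0704b98704b90704b88704b80704b78704b18704b10704b08704b00704af8704af0704ae8704ae0704a78704a70704a68704a60704a58704a507049d07049c87047a87047a07047207047187047107047007046f87046987046907046887046787046707046687046087046007045f07045e87045e07045687045607045587045487045407044d87044d07044c07044b87044b07044307044287 = true := by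
  decide +kernel

theorem P_aux (hf : Rule f) {k c n X : ℕ}
    (T : NHT f k c (2 * n))
    (U : NHU f k c (2 * n))
    (hL : ∀ {M R x y : ℕ}, M + 1 = 6 * k → c ≤ R + 12 → R ≤ c + 2 → 2 * n ≤ x + 12 → y ≤ x → x ≤ y + 4 * k → ¬ f M R x y)
    (C0 : Cyc f (6 * k) (c - 6) (2 * (n - k - 5) + 2))
    (C2 : Cyc f (6 * k + 2) (c - 4) (2 * (n - 5) + 2))
    (C4a : Cyc f (6 * k + 4) (c - 6) (2 * (n - 7) + 2))
    (C6 : Cyc f (6 * k + 6) (c - 4) (2 * (n - 5) + 2))
    (hX : X = 2 * n + 1)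
    (g0 : ∀ {M R x y : ℕ}, M = 6 * k + 9 → R = c + 1 → x = X + 3 → y + 2 * k = X + 1 → f M R x y)
    (g1 : ∀ {M R x y : ℕ}, M = 6 * k + 5 → R = c → x = X + 1 → y + 2 * k = X + 1 → ¬ f M R x y) : False := by
  have hk := T.hk
  have hc := T.hc
  have h4 := T.h4
  have hb := T.hb
  have hN := T.hN2
  have ho : X % 2 = 1 := by omega
  obtain ⟨a0, ha0⟩ : ∃ z, z + 2 = 6 * k := ⟨6 * k - 2, by omega⟩
  obtain ⟨b0, hb0⟩ : ∃ z, z + 5 = c := ⟨c - 5, by omega⟩
  obtain ⟨x0, hx0⟩ : ∃ z, z + 5 = X := ⟨X - 5, by omega⟩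
  obtain ⟨y0, hy0⟩ : ∃ z, z + 2 * k + 20 = X + 11 := ⟨X + 11 - 2 * k - 20, by omega⟩
  refine check_sound hf (a0 := a0) (b0 := b0) (x0 := x0) (y0 := y0) z1p_chk
    ⟨fun h => absurd h (by decide), fun h => absurd h (by decide), fun h => absurd h (by decide), by omega, by omega,
      by omega, by omega⟩ ?_ ?_
  · intro j m p q hr h
    obtain ⟨-, -, hm1, hm2, hp1, hp2, hq1, hq2⟩ := hr
    replace h := of_decide_eq_true h
    rcases h with h | h | h | h | h | h | h | h | h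
    · obtain ⟨rfl, rfl, h⟩ := h
      exact (WrapC.v2 C0 (by omega) (by omega) (by omega) (by omega) (by omega) (by omega) (by omega)).mpr (by omega)
    · obtain ⟨rfl, rfl, h⟩ := h
      exact (WrapC.v3 C0 (by omega) (by omega) (by omega) (by omega) (by omega) (by omega) (by omega) (by omega)).mpr (by omega)
    · obtain ⟨rfl, rfl, h⟩ := h
      exact (WrapC.v4 C0 (by omega) (by omega) (by omega) (by omega) (by omega) (by omega) (by omega)).mpr (by omega)
    · obtain ⟨rfl, rfl, h⟩ := h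
      exact (WrapC.v0 C2 (by omega) (by omega) (by omega) (by omega) (by omega) (by omega) (by omega)).mpr (by omega)
    · obtain ⟨rfl, rfl, h⟩ := h
      exact (WrapC.v2 C2 (by omega) (by omega) (by omega) (by omega) (by omega) (by omega) (by omega)).mpr (by omega)
    · obtain ⟨rfl, rfl, h⟩ := h
      exact (WrapC.v2 C4a (by omega) (by omega) (by omega) (by omega) (by omega) (by omega) (by omega)).mpr (by omega)
    · obtain ⟨rfl, rfl, h⟩ := h
      exact (WrapC.v1 C6 (by omega) (by omega) (by omega) (by omega) (by omega) (by omega) (by omega) (by omega)).mpr (by omega)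
    · obtain ⟨rfl, rfl, h⟩ := h
      exact (WrapC.v2 C6 (by omega) (by omega) (by omega) (by omega) (by omega) (by omega) (by omega)).mpr (by omega)
    · obtain ⟨rfl, rfl, rfl, rfl⟩ := h
      exact g0 (by omega) (by omega) (by omega) (by omega)
  · intro j m p q hr h
    obtain ⟨-, -, hm1, hm2, hp1, hp2, hq1, hq2⟩ := hr
    replace h := of_decide_eq_true h
    rcases h with h | h | h | h | h | h | h | h | h | h | h | h | h | h | h | h | h | h | h | h | h | h | h | h | h | h | h | h | h | h | h | h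
    · obtain ⟨rfl, rfl, h⟩ := h
      exact mt (WrapC.v2 C0 (by omega) (by omega) (by omega) (by omega) (by omega) (by omega) (by omega)).mp (by omega)
    · obtain ⟨rfl, rfl, h⟩ := h
      exact mt (WrapC.v3 C0 (by omega) (by omega) (by omega) (by omega) (by omega) (by omega) (by omega) (by omega)).mp (by omega)
    · obtain ⟨rfl, rfl, h⟩ := h
      exact mt (WrapC.v4 C0 (by omega) (by omega) (by omega) (by omega) (by omega) (by omega) (by omega)).mp (by omega)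
    · obtain ⟨rfl, rfl, h⟩ := h
      exact mt (WrapC.v0 C2 (by omega) (by omega) (by omega) (by omega) (by omega) (by omega) (by omega)).mp (by omega)
    · obtain ⟨rfl, rfl, h⟩ := h
      exact mt (WrapC.v2 C2 (by omega) (by omega) (by omega) (by omega) (by omega) (by omega) (by omega)).mp (by omega)
    · obtain ⟨rfl, rfl, h⟩ := h
      exact mt (WrapC.v2 C4a (by omega) (by omega) (by omega) (by omega) (by omega) (by omega) (by omega)).mp (by omega)
    · obtain ⟨rfl, rfl, h⟩ := h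
      exact mt (WrapC.v1 C6 (by omega) (by omega) (by omega) (by omega) (by omega) (by omega) (by omega) (by omega)).mp (by omega)
    · obtain ⟨rfl, rfl, h⟩ := h
      exact mt (WrapC.v2 C6 (by omega) (by omega) (by omega) (by omega) (by omega) (by omega) (by omega)).mp (by omega)
    · obtain rfl := h
      exact hL (by omega) (by omega) (by omega) (by omega) (by omega) (by omega)
    · obtain ⟨rfl, rfl, h⟩ := h
      exact uP0 hf U (j := 0) (by omega) (by omega) (by omega) (by omega) (by omega) (by omega)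
    · obtain ⟨rfl, rfl, h⟩ := h
      exact NHT.rIn hf T (t := 3) (p := 1) (j := 3) (by omega) (by omega) (by omega) (by omega) (by omega) (by omega) (by omega) (by omega)
    · obtain ⟨rfl, rfl, h⟩ := h
      exact uP1 hf U (j := 1) (by omega) (by omega) (by omega) (by omega) (by omega) (by omega)
    · obtain ⟨rfl, rfl, h⟩ := h
      exact uA0 hf U (p := 1) (j := 0) (by omega) (by omega) (by omega) (by omega) (by omega) (by omega) (by omega)
    · obtain ⟨rfl, rfl, h⟩ := h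
      exact uP1 hf U (j := 1) (by omega) (by omega) (by omega) (by omega) (by omega) (by omega)
    · obtain ⟨rfl, rfl, h⟩ := h
      exact uP1 hf U (j := 0) (by omega) (by omega) (by omega) (by omega) (by omega) (by omega)
    · obtain ⟨rfl, rfl, h⟩ := h
      exact NHT.rIn hf T (t := 4) (p := 1) (j := 3) (by omega) (by omega) (by omega) (by omega) (by omega) (by omega) (by omega) (by omega)
    · obtain ⟨rfl, rfl, h⟩ := h
      exact uP2 hf U (j := 2) (by omega) (by omega) (by omega) (by omega) (by omega) (by omega)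
    · obtain ⟨rfl, rfl, h⟩ := h
      exact NHT.rIn hf T (t := 4) (p := 0) (j := 0) (by omega) (by omega) (by omega) (by omega) (by omega) (by omega) (by omega) (by omega)
    · obtain ⟨rfl, rfl, h⟩ := h
      exact uA1 hf U (p := 1) (j := 0) (by omega) (by omega) (by omega) (by omega) (by omega) (by omega) (by omega)
    · obtain ⟨rfl, rfl, h⟩ := h
      exact NHT.p0i hf T (j := 3) (by omega) (by omega) (by omega) (by omega) (by omega) (by omega)
    · obtain ⟨rfl, rfl, h⟩ := h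
      exact NHT.p0i hf T (j := 2) (by omega) (by omega) (by omega) (by omega) (by omega) (by omega)
    · obtain ⟨rfl, rfl, h⟩ := h
      exact uP2 hf U (j := 2) (by omega) (by omega) (by omega) (by omega) (by omega) (by omega)
    · obtain ⟨rfl, rfl, h⟩ := h
      exact NHT.p0i hf T (j := 1) (by omega) (by omega) (by omega) (by omega) (by omega) (by omega)
    · obtain ⟨rfl, rfl, h⟩ := h
      exact NHT.p0i hf T (j := 0) (by omega) (by omega) (by omega) (by omega) (by omega) (by omega)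
    · obtain ⟨rfl, rfl, h⟩ := h
      exact zZ_r1i hf T (p := 0) (j := 3) (by omega) (by omega) (by omega) (by omega) (by omega) (by omega) (by omega)
    · obtain ⟨rfl, rfl, h⟩ := h
      exact zZ_r1i hf T (p := 1) (j := 3) (by omega) (by omega) (by omega) (by omega) (by omega) (by omega) (by omega)
    · obtain ⟨rfl, rfl, h⟩ := h
      exact zZ_r1i hf T (p := 0) (j := 2) (by omega) (by omega) (by omega) (by omega) (by omega) (by omega) (by omega)
    · obtain ⟨rfl, rfl, h⟩ := h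
      exact zZ_r1i hf T (p := 1) (j := 2) (by omega) (by omega) (by omega) (by omega) (by omega) (by omega) (by omega)
    · obtain ⟨rfl, rfl, h⟩ := h
      exact zZ_r1i hf T (p := 0) (j := 1) (by omega) (by omega) (by omega) (by omega) (by omega) (by omega) (by omega)
    · obtain ⟨rfl, rfl, h⟩ := h
      exact zZ_r1i hf T (p := 1) (j := 1) (by omega) (by omega) (by omega) (by omega) (by omega) (by omega) (by omega)
    · obtain ⟨rfl, rfl, h⟩ := h
      exact zZ_r1i hf T (p := 0) (j := 0) (by omega) (by omega) (by omega) (by omega) (by omega) (by omega) (by omega)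
    · obtain ⟨rfl, rfl, rfl, rfl⟩ := h
      exact g1 (by omega) (by omega) (by omega) (by omega)

end Pool.Agent.SNT.Z1P
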