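import Pool.Agent.SNT.Z8D

set_option autoImplicit false

/-! `P_(6 k + 7)` next to the wall, leader `6 k + 8` (helper33). -/

namespace Pool.Agent.SNT.Z8

open Pool.Agent.SNT Pool.Agent.SNT.Loc Pool.Agent.SNT.LW

variable {f : ℕ → ℕ → ℕ → ℕ → Prop} {k c n : ℕ}

def z1_o_m1T (j n p q : ℕ) : Bool :=
  decide (j = 2 ∧ n = 1 ∧ q ≤ p + 17 ∧ q ≤ p + 3 ∧ p + 1 > 0 ∧ (((p + q + 1) % 2 = 1 ∧ p + 3 < q ∧ (p + 1) % 2 = 0) ∨ (q ≤ p + 4 ∧ (p + q + 2) % 4 = 0))) ||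
    (decide (j = 4 ∧ n = 1 ∧ q ≤ p + 17 ∧ p > 1 ∧ (((p + q + 1) % 2 = 1 ∧ p + 3 < q ∧ (p + 1) % 2 = 1) ∨ (q ≤ p + 4 ∧ (p + q) % 4 = 0))) ||
    (decide (j = 4 ∧ n = 2 ∧ q ≤ p + 17 ∧ ((p > 3) ∨ (p + 3 ≤ q ∧ p > 2)) ∧ (q ≤ p + 3 ∧ (p + q + 1) % 4 = 0)) ||
    (decide (j = 4 ∧ n = 3 ∧ q ≤ p + 17 ∧ q ≤ p + 3 ∧ p > 5 ∧ (((p + q + 1) % 2 = 1 ∧ p + 3 < q ∧ (p + 1) % 2 = 0) ∨ (q ≤ p + 4 ∧ (p + q + 2) % 4 = 0))) ||
    (decide (j = 6 ∧ n = 1 ∧ q ≤ p + 17 ∧ q ≤ p + 3 ∧ p + 1 > 0 ∧ (((p + q + 1) % 2 = 1 ∧ p + 3 < q ∧ (p + 1) % 2 = 0) ∨ (q ≤ p + 4 ∧ (p + q + 2) % 4 = 0))) ||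
    (decide (j = 8 ∧ n = 1 ∧ q ≤ p + 17 ∧ p + 1 > 0 ∧ (((p + q + 1) % 2 = 1 ∧ p + 1 < q ∧ (p + 1) % 2 = 1) ∨ (q ≤ p + 2 ∧ (p + q) % 4 = 2))) ||
    (decide (j = 8 ∧ n = 2 ∧ q ≤ p + 17 ∧ ((p > 1) ∨ (p + 1 ≤ q ∧ p > 0)) ∧ (q ≤ p + 1 ∧ (p + q + 1) % 4 = 2)) ||
    (decide (j = 8 ∧ n = 3 ∧ q ≤ p + 17 ∧ q ≤ p + 1 ∧ p > 3 ∧ (((p + q + 1) % 2 = 1 ∧ p + 1 < q ∧ (p + 1) % 2 = 0) ∨ (q ≤ p + 2 ∧ (p + q + 2) % 4 = 2))) ||
    (decide (j = 9 ∧ n = 4 ∧ p = 6 ∧ q = 8)))))))))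

def z1_o_m1F (j n p q : ℕ) : Bool :=
  decide (j = 2 ∧ n = 1 ∧ q ≤ p + 17 ∧ q ≤ p + 3 ∧ p + 1 > 0 ∧ ¬ (((p + q + 1) % 2 = 1 ∧ p + 3 < q ∧ (p + 1) % 2 = 0) ∨ (q ≤ p + 4 ∧ (p + q + 2) % 4 = 0))) ||
    (decide (j = 4 ∧ n = 2 ∧ q ≤ p + 17 ∧ ((p > 3) ∨ (p + 3 ≤ q ∧ p > 2)) ∧ ¬ (q ≤ p + 3 ∧ (p + q + 1) % 4 = 0)) ||
    (decide (j = 4 ∧ n = 3 ∧ q ≤ p + 17 ∧ q ≤ p + 3 ∧ p > 5 ∧ ¬ (((p + q + 1) % 2 = 1 ∧ p + 3 < q ∧ (p + 1) % 2 = 0) ∨ (q ≤ p + 4 ∧ (p + q + 2) % 4 = 0))) ||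
    (decide (j = 6 ∧ n = 1 ∧ q ≤ p + 17 ∧ q ≤ p + 3 ∧ p + 1 > 0 ∧ ¬ (((p + q + 1) % 2 = 1 ∧ p + 3 < q ∧ (p + 1) % 2 = 0) ∨ (q ≤ p + 4 ∧ (p + q + 2) % 4 = 0))) ||
    (decide (j = 8 ∧ n = 3 ∧ q ≤ p + 17 ∧ q ≤ p + 1 ∧ p > 3 ∧ ¬ (((p + q + 1) % 2 = 1 ∧ p + 1 < q ∧ (p + 1) % 2 = 0) ∨ (q ≤ p + 2 ∧ (p + q + 2) % 4 = 2))) ||
    (decide (j = 1 ∧ q ≤ p + 17))))))

theorem z1_o_m1_chk : check 9 6 8 10 0 1 1 0 0 z1_o_m1T z1_o_m1F
    343
    0x29c03038c000481da05718006624a047c8302968002970a029c03038c00047cca026980026984056c80056c84047d03056d00056d04026983029180029184026a800297b2026983029200029204029c03038c000481da05718006624a047c8302968002970a026480026992029c03038c00047cca026980026984056c80056c84047d03056d00056d04029280029284029803038800047d52056d00066252047c83056c80056c84048183057180057184029700029704029c03038c000481da05718006624a047c8302968002970a026480026992029c03038c00047cca026980026984056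c80056c84047d03056d00056d04029780029784029783026980026981047c83056c8006625a047d03056d00056d0404818305718005718402970002978a02648002648402980002980402748002a23a027483029c80029c84027483029d00029d04029c03038c000481da05718006624a029c03038c00047cca029703038700038704056c80056c84047d03056d00056d04026f8002749202a20002a204075200084242062f80063492084203063480063484044f03053f00053f04026983035980035984026983035a00035a04026f83035f80035f84027003036000036004023b83026400026404024203024280024284063900072942061180060b000606800279000701c206fb4206f6c2025180027901024b0002468009320008190007f18007eb0007e68007ca0007c38007bf0005e38005df0005dd0005d88005d400045a00042c0004278004048003f980025181022380021f00024b01021d00024681021880021400020d8009320f08198708190f08150707f18f07eb0f07e68f07ca0f07c38f07bf0f06350706340705e98705e90705e48705e40705e38f05e30705e28705df0f05de8705de0705dd8705dd0f05d98705d90705d88f05d40f045a0f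045987045907045507045407044a07042c0f04278f04270704268704220704048f03f98f027507027407026b07026a0702690702298702290702248702240702238f022307022287021f0f021e87021e07021d87021d0f021a0702198702190702188f02148702140f021387021307020e87020e07020d8f01b20701b18701ad0701ac8701ac0701ab8701a80701a78701a70701a68701a30701a28701a20701a187018a07018987018907018887018507018487018407018387018007017f87017f07017e87017b07017a87017a07017987017907017487017407016187016107016087015c87015c07015b87015b07015a87015807015787015707015687015607015587015307015287015207015187015107014d07014c87014c07014b87014b07014687014607013987013907013487013407013307013287012e87012e07012d87012a07012987012907012507012487012387012307011e87011e07 = true := by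
  decide +kernel

theorem z1_o_m1 (hf : Rule f) (H : Z8H f k c n) :
    ¬ f (6 * k + 7) (c + 1) (2 * n + 2 + 1) (2 * n + 2 - 2 * k) := by
  by_contra hg
  have hk := H.hk
  have hc := H.hc
  have h4 := H.h4
  have hb := H.hb
  have hN2 := H.hn
  obtain ⟨a0, ha0⟩ : ∃ a0, a0 + 2 = 6 * k := ⟨6 * k - 2, by omega⟩
  obtain ⟨b0, hb0⟩ : ∃ b0, b0 + 3 = c := ⟨c - 3, by omega⟩
  obtain ⟨x0, hx0⟩ : ∃ x0, x0 + 5 = 2 * n + 2 := ⟨2 * n + 2 - 5, by omega⟩
  obtain ⟨y0, hy0⟩ : ∃ y0, y0 + 8 = 2 * n + 2 - 2 * k := ⟨2 * n + 2 - 2 * k - 8, by omega⟩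
  refine check_sound hf (a0 := a0) (b0 := b0) (x0 := x0) (y0 := y0) z1_o_m1_chk
    ⟨fun h => absurd h (by decide), fun h => absurd h (by decide), fun h => absurd h (by decide),
      by omega, by omega, by omega, by omega⟩ ?_ ?_
  · intro j m p q hr h
    obtain ⟨-, -, hn1, hn2, hp1, hp2, hq1, hq2⟩ := hr
    unfold z1_o_m1T at h
    simp only [Bool.or_eq_true, decide_eq_true_eq] at h
    rcases h with h | h | h | h | h | h | h | h | h
    · obtain ⟨⟨rfl, rfl, h1⟩, h2⟩ := h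
      exact (WrapC.v2 H.c0 (by omega) (by omega) (by omega) (by omega) (by omega) (by omega) (by omega)).mpr (by omega)
    · obtain ⟨⟨rfl, rfl, h1⟩, h2⟩ := h
      exact (WrapC.v0 H.c2 (by omega) (by omega) (by omega) (by omega) (by omega) (by omega) (by omega)).mpr (by omega)
    · obtain ⟨⟨rfl, rfl, h1⟩, h2⟩ := h
      exact (WrapC.v1 H.c2 (by omega) (by omega) (by omega) (by omega) (by omega) (by omega) (by omega) (by omega)).mpr (by omega)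
    · obtain ⟨⟨rfl, rfl, h1⟩, h2⟩ := h
      exact (WrapC.v2 H.c2 (by omega) (by omega) (by omega) (by omega) (by omega) (by omega) (by omega)).mpr (by omega)
    · obtain ⟨⟨rfl, rfl, h1⟩, h2⟩ := h
      exact (WrapC.v2 H.c4 (by omega) (by omega) (by omega) (by omega) (by omega) (by omega) (by omega)).mpr (by omega)
    · obtain ⟨⟨rfl, rfl, h1⟩, h2⟩ := h
      exact (WrapC.v0 H.c6 (by omega) (by omega) (by omega) (by omega) (by omega) (by omega) (by omega)).mpr (by omega)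
    · obtain ⟨⟨rfl, rfl, h1⟩, h2⟩ := h
      exact (WrapC.v1 H.c6 (by omega) (by omega) (by omega) (by omega) (by omega) (by omega) (by omega) (by omega)).mpr (by omega)
    · obtain ⟨⟨rfl, rfl, h1⟩, h2⟩ := h
      exact (WrapC.v2 H.c6 (by omega) (by omega) (by omega) (by omega) (by omega) (by omega) (by omega)).mpr (by omega)
    · obtain ⟨rfl, rfl, rfl, rfl⟩ := h
      exact mv hg (by omega) (by omega) (by omega) (by omega)
  · intro j m p q hr h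
    obtain ⟨-, -, hn1, hn2, hp1, hp2, hq1, hq2⟩ := hr
    unfold z1_o_m1F at h
    simp only [Bool.or_eq_true, decide_eq_true_eq] at h
    rcases h with h | h | h | h | h | h
    · obtain ⟨⟨rfl, rfl, h1⟩, h2⟩ := h
      exact mt (WrapC.v2 H.c0 (by omega) (by omega) (by omega) (by omega) (by omega) (by omega) (by omega)).mp (by omega)
    · obtain ⟨⟨rfl, rfl, h1⟩, h2⟩ := h
      exact mt (WrapC.v1 H.c2 (by omega) (by omega) (by omega) (by omega) (by omega) (by omega) (by omega) (by omega)).mp (by omega)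
    · obtain ⟨⟨rfl, rfl, h1⟩, h2⟩ := h
      exact mt (WrapC.v2 H.c2 (by omega) (by omega) (by omega) (by omega) (by omega) (by omega) (by omega)).mp (by omega)
    · obtain ⟨⟨rfl, rfl, h1⟩, h2⟩ := h
      exact mt (WrapC.v2 H.c4 (by omega) (by omega) (by omega) (by omega) (by omega) (by omega) (by omega)).mp (by omega)
    · obtain ⟨⟨rfl, rfl, h1⟩, h2⟩ := h
      exact mt (WrapC.v2 H.c6 (by omega) (by omega) (by omega) (by omega) (by omega) (by omega) (by omega)).mp (by omega)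
    · obtain ⟨rfl, h1⟩ := h
      exact H.lw _ _ _ _ (by omega) (by omega) (by omega) (by omega) (by omega) (by omega)

def z1_e_m3T (j n p q : ℕ) : Bool :=
  decide (j = 1 ∧ n = 1 ∧ q ≤ p + 13 ∧ p + 6 > 0 ∧ (((p + q + 1) % 2 = 1 ∧ p < q + 3 ∧ (p) % 2 = 1) ∨ (q + 2 ≤ p ∧ (p + q + 2) % 4 = 2))) ||
    (decide (j = 2 ∧ n = 4 ∧ p = 2 ∧ q = 2))

def z1_e_m3F (j n p q : ℕ) : Bool :=
  decide (j = 1 ∧ n = 2 ∧ q ≤ p + 13 ∧ ((p + 4 > 0) ∨ (p ≤ q + 3 ∧ p + 5 > 0)) ∧ ¬ (q + 3 ≤ p ∧ (p + q + 3) % 4 = 2))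

theorem z1_e_m3_chk : check 2 6 4 4 1 1 0 1 0 z1_e_m3T z1_e_m3F
    10
    0x7d03008500003a8000850f004c87004507004487004307004287003a8f = true := by
  decide +kernel

theorem z1_e_m3 (hf : Rule f) (H : Z8H f k c n) :
    ¬ f (6 * k + 7) (c + 1) (2 * n + 4) (2 * n + 4 - 2 * k + 1) := by
  by_contra hg
  have hk := H.hk
  have hc := H.hc
  have h4 := H.h4
  have hb := H.hb
  have hN2 := H.hn
  obtain ⟨a0, ha0⟩ : ∃ a0, a0 = 6 * k + 5 := ⟨6 * k + 5, by omega⟩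
  obtain ⟨b0, hb0⟩ : ∃ b0, b0 + 3 = c := ⟨c - 3, by omega⟩
  obtain ⟨x0, hx0⟩ : ∃ x0, x0 + 2 = 2 * n + 4 := ⟨2 * n + 4 - 2, by omega⟩
  obtain ⟨y0, hy0⟩ : ∃ y0, y0 + 1 = 2 * n + 4 - 2 * k := ⟨2 * n + 4 - 2 * k - 1, by omega⟩
  refine check_sound hf (a0 := a0) (b0 := b0) (x0 := x0) (y0 := y0) z1_e_m3_chk
    ⟨fun h => absurd h (by decide), fun h => absurd h (by decide), fun h => absurd h (by decide),
      by omega, by omega, by omega, by omega⟩ ?_ ?_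
  · intro j m p q hr h
    obtain ⟨-, -, hn1, hn2, hp1, hp2, hq1, hq2⟩ := hr
    unfold z1_e_m3T at h
    simp only [Bool.or_eq_true, decide_eq_true_eq] at h
    rcases h with h | h
    · obtain ⟨⟨rfl, rfl, h1⟩, h2⟩ := h
      exact (WrapC.v0 H.c6 (by omega) (by omega) (by omega) (by omega) (by omega) (by omega) (by omega)).mpr (by omega)
    · obtain ⟨rfl, rfl, rfl, rfl⟩ := h
      exact mv hg (by omega) (by omega) (by omega) (by omega)
  · intro j m p q hr h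
    obtain ⟨-, -, hn1, hn2, hp1, hp2, hq1, hq2⟩ := hr
    unfold z1_e_m3F at h
    simp only [Bool.or_eq_true, decide_eq_true_eq] at h
    · obtain ⟨⟨rfl, rfl, h1⟩, h2⟩ := h
      exact mt (WrapC.v1 H.c6 (by omega) (by omega) (by omega) (by omega) (by omega) (by omega) (by omega) (by omega)).mp (by omega)

def z1_e_1T (j n p q : ℕ) : Bool :=
  decide (j = 1 ∧ n = 1 ∧ q ≤ p + 17 ∧ q ≤ p + 1 ∧ p + 2 > 0 ∧ (((p + q + 1) % 2 = 1 ∧ p + 1 < q ∧ (p) % 2 = 0) ∨ (q ≤ p + 2 ∧ (p + q) % 4 = 2))) ||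
    (decide (j = 2 ∧ n = 2 ∧ p = 2 ∧ q = 2))

def z1_e_1F (j n p q : ℕ) : Bool :=
  false

theorem z1_e_1_chk : check 2 4 4 4 1 1 0 1 0 z1_e_1T z1_e_1F
    4
    0x5505002a8000550f002a8f = true := by
  decide +kernel

theorem z1_e_1 (hf : Rule f) (H : Z8H f k c n) :
    ¬ f (6 * k + 7) (c + 1) (2 * n + 4) (2 * n + 4 - 2 * k - 3) := by
  by_contra hg
  have hk := H.hk
  have hc := H.hc
  have h4 := H.h4
  have hb := H.hb
  have hN2 := H.hn
  obtain ⟨a0, ha0⟩ : ∃ a0, a0 = 6 * k + 5 := ⟨6 * k + 5, by omega⟩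
  obtain ⟨b0, hb0⟩ : ∃ b0, b0 + 1 = c := ⟨c - 1, by omega⟩
  obtain ⟨x0, hx0⟩ : ∃ x0, x0 + 2 = 2 * n + 4 := ⟨2 * n + 4 - 2, by omega⟩
  obtain ⟨y0, hy0⟩ : ∃ y0, y0 + 5 = 2 * n + 4 - 2 * k := ⟨2 * n + 4 - 2 * k - 5, by omega⟩
  refine check_sound hf (a0 := a0) (b0 := b0) (x0 := x0) (y0 := y0) z1_e_1_chk
    ⟨fun h => absurd h (by decide), fun h => absurd h (by decide), fun h => absurd h (by decide),
      by omega, by omega, by omega, by omega⟩ ?_ ?_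
  · intro j m p q hr h
    obtain ⟨-, -, hn1, hn2, hp1, hp2, hq1, hq2⟩ := hr
    unfold z1_e_1T at h
    simp only [Bool.or_eq_true, decide_eq_true_eq] at h
    rcases h with h | h
    · obtain ⟨⟨rfl, rfl, h1⟩, h2⟩ := h
      exact (WrapC.v2 H.c6 (by omega) (by omega) (by omega) (by omega) (by omega) (by omega) (by omega)).mpr (by omega)
    · obtain ⟨rfl, rfl, rfl, rfl⟩ := h
      exact mv hg (by omega) (by omega) (by omega) (by omega)
  · intro j m p q hr h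
    exact absurd h (by simp [z1_e_1F])

def z1_o_0T (j n p q : ℕ) : Bool :=
  decide (j = 1 ∧ n = 1 ∧ q ≤ p + 17 ∧ q ≤ p + 1 ∧ p + 2 > 0 ∧ (((p + q + 1) % 2 = 1 ∧ p + 1 < q ∧ (p) % 2 = 0) ∨ (q ≤ p + 2 ∧ (p + q) % 4 = 2))) ||
    (decide (j = 2 ∧ n = 2 ∧ p = 1 ∧ q = 2))

def z1_o_0F (j n p q : ℕ) : Bool :=
  false

theorem z1_o_0_chk : check 2 4 3 4 1 1 0 1 0 z1_o_0T z1_o_0F
    4
    0x3f05002080003f0f00208f = true := by
  decide +kernel

theorem z1_o_0 (hf : Rule f) (H : Z8H f k c n) :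
    ¬ f (6 * k + 7) (c + 1) (2 * n + 2 + 1) (2 * n + 2 - 2 * k - 1) := by
  by_contra hg
  have hk := H.hk
  have hc := H.hc
  have h4 := H.h4
  have hb := H.hb
  have hN2 := H.hn
  obtain ⟨a0, ha0⟩ : ∃ a0, a0 = 6 * k + 5 := ⟨6 * k + 5, by omega⟩
  obtain ⟨b0, hb0⟩ : ∃ b0, b0 + 1 = c := ⟨c - 1, by omega⟩
  obtain ⟨x0, hx0⟩ : ∃ x0, x0 + 0 = 2 * n + 2 := ⟨2 * n + 2 - 0, by omega⟩
  obtain ⟨y0, hy0⟩ : ∃ y0, y0 + 3 = 2 * n + 2 - 2 * k := ⟨2 * n + 2 - 2 * k - 3, by omega⟩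
  refine check_sound hf (a0 := a0) (b0 := b0) (x0 := x0) (y0 := y0) z1_o_0_chk
    ⟨fun h => absurd h (by decide), fun h => absurd h (by decide), fun h => absurd h (by decide),
      by omega, by omega, by omega, by omega⟩ ?_ ?_
  · intro j m p q hr h
    obtain ⟨-, -, hn1, hn2, hp1, hp2, hq1, hq2⟩ := hr
    unfold z1_o_0T at h
    simp only [Bool.or_eq_true, decide_eq_true_eq] at h
    rcases h with h | h
    · obtain ⟨⟨rfl, rfl, h1⟩, h2⟩ := h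
      exact (WrapC.v2 H.c6 (by omega) (by omega) (by omega) (by omega) (by omega) (by omega) (by omega)).mpr (by omega)
    · obtain ⟨rfl, rfl, rfl, rfl⟩ := h
      exact mv hg (by omega) (by omega) (by omega) (by omega)
  · intro j m p q hr h
    exact absurd h (by simp [z1_o_0F])

end Pool.Agent.SNT.Z8
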