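import Pool.Agent.SNT.LL10
import Pool.Agent.SNT.NHZone
import Pool.Agent.SNT.NHZoneU
import Pool.Agent.SNT.NWD

set_option autoImplicit false
set_option synthInstance.maxSize 100000
set_option synthInstance.maxHeartbeats 4000000
set_option linter.unusedVariables false

/-! The two pairs near the wall in the row `c - 2` for the leads `(1, -5, -7)` (used for z3 and z4). -/

namespace Pool.Agent.SNT.Z34P

open Pool.Agent.SNT Pool.Agent.SNT.Loc Pool.Agent.SNT.LW Pool.Agent.SNT.NHZ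

variable {f : ℕ → ℕ → ℕ → ℕ → Prop}

/-- The hypotheses of the windows. -/
structure PS (f : ℕ → ℕ → ℕ → ℕ → Prop) (k c n : ℕ) : Prop where
  T : NHT f k c (2 * n)
  T' : NHT f k (c - 4) (2 * (n - (k + 2)))
  U : NHU f k c (2 * n)
  U' : NHU f k (c - 4) (2 * (n - (k + 2)))
  d0 : Cyc f (6 * k) (c - 6) (2 * (n - 7) + 2)
  d2 : Cyc f (6 * k + 2) (c - 4) (2 * (n - 5) + 2)
  d2a : Cyc f (6 * k + 2) (c - 8) (2 * (n - (k + 2) - 5) + 2)
  d4a : Cyc f (6 * k + 4) (c - 6) (2 * (n - (k + 2) + 1) + 2)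
  c6 : Cyc f (6 * k + 6) (c - 4) (2 * (n - 5) + 2)
  c6a : Cyc f (6 * k + 6) (c - 8) (2 * (n - (k + 2) - 5) + 2)
  c8 : Cw f (6 * k + 8) (c - 2) (n - 3)
  lw : ∀ M' R x y : ℕ, M' + 1 = 6 * k → c ≤ R + 12 → R ≤ c + 12 → 2 * n ≤ x + 20 → y ≤ x → x ≤ y + 4 * k → ¬ f M' R x y

theorem mv {a b x y a' b' x' y' : ℕ} (h : f a b x y) (h1 : a' = a) (h2 : b' = b) (h3 : x' = x) (h4 : y' = y) :
    f a' b' x' y' := by
  subst h1 h2 h3 h4
  exact h

theorem p1_aux_chk : check 10 7 17 21 0 1 1 1 0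
    (fun j n p q => decide ((j = 2 ∧ n = 3 ∧ 6 ≤ p ∧ q + 0 ≤ p ∧ (((p + q) % 2 = 1 ∧ p + 1 ≤ q ∧ (p + 1) % 2 = 0) ∨ (q ≤ p + 1 ∧ (p + q + 1) % 4 = 0)))
      ∨ (j = 2 ∧ n = 2 ∧ 4 ≤ p ∧ q ≤ p + 10 ∧ (q + 0 ≤ p ∧ (p + q) % 4 = 0))
      ∨ (j = 4 ∧ n = 4 ∧ 7 ≤ p ∧ p ≤ q + 0 ∧ q ≤ p + 10 ∧ (q + 0 ≤ p ∧ (p + q) % 4 = 0))
      ∨ (j = 4 ∧ n = 3 ∧ 6 ≤ p ∧ q ≤ p + 10 ∧ (((p + q) % 2 = 1 ∧ p + 1 ≤ q ∧ (p + 1) % 2 = 1) ∨ (q ≤ p + 1 ∧ (p + q + 3) % 4 = 0)))
      ∨ (j = 4 ∧ n = 2 ∧ 4 ≤ p ∧ q ≤ p + 10 ∧ (q + 0 ≤ p ∧ (p + q + 2) % 4 = 0))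
      ∨ (j = 4 ∧ n = 1 ∧ 3 ≤ q ∧ p + 1 ≤ q ∧ q ≤ p + 10 ∧ (((p + q) % 2 = 1 ∧ p + 1 ≤ q ∧ (p + 1) % 2 = 0) ∨ (q ≤ p + 1 ∧ (p + q + 1) % 4 = 0)))
      ∨ (j = 6 ∧ n = 3 ∧ 2 ≤ p ∧ q + 0 ≤ p ∧ (((p + q) % 2 = 1 ∧ p + 1 ≤ q ∧ (p + 1) % 2 = 0) ∨ (q ≤ p + 1 ∧ (p + q + 1) % 4 = 0)))
      ∨ (j = 6 ∧ n = 2 ∧ p ≤ q + 0 ∧ q ≤ p + 10 ∧ (q + 0 ≤ p ∧ (p + q) % 4 = 0))))
    (fun j n p q => decide ((j = 1 ∧ n = 5 ∧ q ≤ p + 10)
      ∨ (j = 1 ∧ n = 4 ∧ q ≤ p + 10)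
      ∨ (j = 1 ∧ n = 3 ∧ q ≤ p + 10)
      ∨ (j = 1 ∧ n = 2 ∧ q ≤ p + 10)
      ∨ (j = 2 ∧ n = 3 ∧ 6 ≤ p ∧ q + 0 ≤ p ∧ ¬ (((p + q) % 2 = 1 ∧ p + 1 ≤ q ∧ (p + 1) % 2 = 0) ∨ (q ≤ p + 1 ∧ (p + q + 1) % 4 = 0)))
      ∨ (j = 2 ∧ n = 2 ∧ 4 ≤ p ∧ q ≤ p + 10 ∧ ¬ (q + 0 ≤ p ∧ (p + q) % 4 = 0))
      ∨ (j = 4 ∧ n = 4 ∧ 7 ≤ p ∧ p ≤ q + 0 ∧ q ≤ p + 10 ∧ ¬ (q + 0 ≤ p ∧ (p + q) % 4 = 0))
      ∨ (j = 6 ∧ n = 3 ∧ 2 ≤ p ∧ q + 0 ≤ p ∧ ¬ (((p + q) % 2 = 1 ∧ p + 1 ≤ q ∧ (p + 1) % 2 = 0) ∨ (q ≤ p + 1 ∧ (p + q + 1) % 4 = 0)))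
      ∨ (j = 6 ∧ n = 2 ∧ p ≤ q + 0 ∧ q ≤ p + 10 ∧ ¬ (q + 0 ≤ p ∧ (p + q) % 4 = 0))
      ∨ (j = 8 ∧ n = 4 ∧ 7 ≤ p ∧ p ≤ q + 2 ∧ q ≤ p + 10 ∧ ¬ (q + 2 ≤ p ∧ (p + q) % 4 = 2))
      ∨ (j = 3 ∧ n = 5 ∧ 13 ≤ q ∧ p + 6 ≤ q ∧ q ≤ p + 10)
      ∨ (j = 5 ∧ n = 5 ∧ 13 ≤ q ∧ p + 5 ≤ q ∧ q ≤ p + 10)
      ∨ (j = 5 ∧ n = 3 ∧ 5 ≤ p ∧ p + 3 ≤ q ∧ q ≤ p + 10)
      ∨ (j = 5 ∧ n = 5 ∧ 9 ≤ p ∧ p + 4 ≤ q ∧ q ≤ p + 10)
      ∨ (j = 9 ∧ n = 5 ∧ 9 ≤ p ∧ p + 2 ≤ q ∧ q ≤ p + 10)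
      ∨ (j = 2 ∧ n = 4 ∧ 6 ≤ p ∧ p + 5 ≤ q ∧ q ≤ p + 10)
      ∨ (j = 3 ∧ n = 4 ∧ 6 ≤ p ∧ p + 5 ≤ q ∧ q ≤ p + 10)
      ∨ (j = 5 ∧ n = 4 ∧ 6 ≤ p ∧ p + 4 ≤ q ∧ q ≤ p + 10)
      ∨ (j = 5 ∧ n = 2 ∧ 2 ≤ p ∧ p + 3 ≤ q ∧ q ≤ p + 10)
      ∨ (j = 6 ∧ n = 4 ∧ 6 ≤ p ∧ p + 3 ≤ q ∧ q ≤ p + 10)
      ∨ (j = 9 ∧ n = 4 ∧ 6 ≤ p ∧ p + 2 ≤ q ∧ q ≤ p + 10)
      ∨ (j = 2 ∧ n = 4 ∧ 8 ≤ q ∧ p + 6 ≤ q ∧ q ≤ p + 10)
      ∨ (j = 7 ∧ n = 5 ∧ 13 ≤ q ∧ p + 2 ≤ q ∧ q ≤ p + 10)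
      ∨ (j = 7 ∧ n = 4 ∧ 13 ≤ q ∧ p + 2 ≤ q ∧ q ≤ p + 10)
      ∨ (j = 7 ∧ n = 5 ∧ 11 ≤ p ∧ p + 1 ≤ q ∧ q ≤ p + 10)
      ∨ (j = 7 ∧ n = 4 ∧ 11 ≤ p ∧ p + 1 ≤ q ∧ q ≤ p + 10)
      ∨ (j = 9 ∧ n = 5 ∧ 11 ≤ p ∧ p ≤ q + 0 ∧ q ≤ p + 10)
      ∨ (j = 9 ∧ n = 4 ∧ 11 ≤ p ∧ p ≤ q + 0 ∧ q ≤ p + 10)
      ∨ (j = 2 ∧ n = 5 ∧ p = 6 ∧ q = 11)
      ∨ (j = 2 ∧ n = 5 ∧ p = 8 ∧ q = 13)
      ∨ (j = 4 ∧ n = 5 ∧ p = 8 ∧ q = 13)))
    433
    0x2621031c48801c53122621031c53001c5304128500128501175c03126f00126f010ccf800cda120c28000d97800ce5ba0d980a0d98800d98841c47831c48001c48041270030d83000d83040cda03126e80126e840cda030cda800cda842fe4032616002616040c34830ce70012867a0d99000d99040c33830c34000c34040c1d8311b20011b2040d83031264801264840c34830ce70012867a0d99000d9901127a00127a040d8e03126f80126f840c348311c88011c8840d84031265801265841fcf832082002082040c338311c78011c784175d0311bd8011bd840cda030d8d000d8d040c33830c34000c3f1a0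cf2000cf2040c348311c880175d6a1270001270040d9903127a80127a840c1d8311b18011b1840c3e0311d28011d2840d9a030cdc000cdc040c33830ce6000ce6040c33830c34000c3f1a11d38011d3841c47831c48001c531a1c53801c540a1286001286040c3e030cf1000cf1040c1e830cd1000cd1040cf0030cf0800cf0840c29030cdb800cdb840d84030cc6000cc6040c33830ce6800ce6840c1e8311b28011b2840cf0030da3000da3040d84031265001265041c4903175c00175c04208c03208c80208c840cf0031284801284840d9a03127b00127b040c338311c80011c8040c1d830cd0800cd0840c290311bd0011bd04208c03213f00213f040c3f030cf1800cf1841fcf832563802563841fda03208d00208d040d9a03127b80127b840d8f031270801270840c1d830cd0000cd0040c3f0311d30011d3041fce001f1c0016be0016a800161600160d00160c0015f70015f600156400154e0014b200149d00149c000c32000c1c000b80000b6a002fe4072fe3872fd9872fd9072f31872f31072f27072f26872b02872a50072a4f872a45872a4507262107262087261687256e87256e07256407213f872082871fd9871fd9071fce871fce0f1fc4871f2787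1f27071f1d071f1c871f1c0f1f12871f12071c54071c49871c49071c3e871ba1871b97071b96871b8c071b8b871ae3871a3107176787176687176587175d0717528717518716c00716bf8716bf0716be8716be0f16b58716b50716b48716b40716b38716b30716aa8716aa0716a98716a90716a88716a80f16a007169f87169f07169e8716160f160d0f160c0f15f70f15f60f15640f154e0f14b20f149d0f149c0f12710711c90711be8711be0711b3070da4870da3870d9a070d8f870d8e870d8d870d84070d79870d78870ce7870cdd070cdc870cd2070cd1870cc7070c3e870c3d870c3d070c32870c320f0c29870c28870c27870c27070c1c870c1c0f0c13870c12870b8c870b8c070b8b870b8b070b82070b81870b81070b80870b800f0b77870b77070b76870b76070b6c070b6b870b6b070b6a870b6a0f0b61870b61070b60870b600708b88708b80708b78708b70708b68708b60708ae0708ad8708ad0708ac8708ac0708ab8708a30708a28708a20708a18708a107089807089787089707089687080e87080e0708060708058708050708048708040708038707fb8707fb0707fa8707fa0707f98707f90707f88707f80707f08707f00707ef8707ef0707ee8707ee0707ed8707e58707e50707e48707e407075d87075d07075c87075c07075b87075307075287075207075187075107074887074807074787074707074687074607074587073d07073c87073c07073b87073b0707328707320707318707310706ab0706aa8706aa0706a98706a08706a007069f87069f07069607069587069507069487068a87068a07068987068907068007067f87067f07067e87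 = true := by
  decide +kernel

theorem p1_aux (hf : Rule f) {k c n : ℕ} (H : PS f k c n)
    (h1 : ¬ f (6 * k) (c - 2) (2 * n - 7) (2 * n - 2 * k - 2))
    (h2 : ¬ f (6 * k) (c - 2) (2 * n - 5) (2 * n - 2 * k))
    (h3 : ¬ f (6 * k + 2) (c - 2) (2 * n - 5) (2 * n - 2 * k)) : False := by
  have hk := H.T.hk
  have hc := H.T.hc
  have h4' := H.T.h4
  have hb := H.T.hb
  have hN := H.T.hN2
  obtain ⟨a0, ha0⟩ : ∃ z, z + 2 = 6 * k := ⟨6 * k - 2, by omega⟩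
  obtain ⟨b0, hb0⟩ : ∃ z, z + 7 = c := ⟨c - 7, by omega⟩
  obtain ⟨x0, hx0⟩ : ∃ z, z + 13 = 2 * n := ⟨2 * n - 13, by omega⟩
  obtain ⟨y0, hy0⟩ : ∃ z, z + 2 * k + 13 = 2 * n := ⟨2 * n - 2 * k - 13, by omega⟩
  refine check_sound hf (a0 := a0) (b0 := b0) (x0 := x0) (y0 := y0) p1_aux_chk
    ⟨fun h => absurd h (by decide), fun h => absurd h (by decide), fun h => absurd h (by decide), by omega, by omega,
      by omega, by omega⟩ ?_ ?_
  · intro j m p q hr h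
    obtain ⟨-, -, hm1, hm2, hp1, hp2, hq1, hq2⟩ := hr
    replace h := of_decide_eq_true h
    rcases h with h | h | h | h | h | h | h | h
    · obtain ⟨rfl, rfl, h⟩ := h
      exact (WrapC.v2 H.d0 (by omega) (by omega) (by omega) (by omega) (by omega) (by omega) (by omega)).mpr (by omega)
    · obtain ⟨rfl, rfl, h⟩ := h
      exact (WrapC.v1 H.d0 (by omega) (by omega) (by omega) (by omega) (by omega) (by omega) (by omega) (by omega)).mpr (by omega)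
    · obtain ⟨rfl, rfl, h⟩ := h
      exact (WrapC.v1 H.d2 (by omega) (by omega) (by omega) (by omega) (by omega) (by omega) (by omega) (by omega)).mpr (by omega)
    · obtain ⟨rfl, rfl, h⟩ := h
      exact (WrapC.v4 H.d2a (by omega) (by omega) (by omega) (by omega) (by omega) (by omega) (by omega)).mpr (by omega)
    · obtain ⟨rfl, rfl, h⟩ := h
      exact (WrapC.v3 H.d2a (by omega) (by omega) (by omega) (by omega) (by omega) (by omega) (by omega) (by omega)).mpr (by omega)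
    · obtain ⟨rfl, rfl, h⟩ := h
      exact (WrapC.v2 H.d2a (by omega) (by omega) (by omega) (by omega) (by omega) (by omega) (by omega)).mpr (by omega)
    · obtain ⟨rfl, rfl, h⟩ := h
      exact (WrapC.v2 H.d4a (by omega) (by omega) (by omega) (by omega) (by omega) (by omega) (by omega)).mpr (by omega)
    · obtain ⟨rfl, rfl, h⟩ := h
      exact (WrapC.v1 H.d4a (by omega) (by omega) (by omega) (by omega) (by omega) (by omega) (by omega) (by omega)).mpr (by omega)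
  · intro j m p q hr h
    obtain ⟨-, -, hm1, hm2, hp1, hp2, hq1, hq2⟩ := hr
    replace h := of_decide_eq_true h
    rcases h with h | h | h | h | h | h | h | h | h | h | h | h | h | h | h | h | h | h | h | h | h | h | h | h | h | h | h | h | h | h | h
    · obtain ⟨rfl, rfl, h⟩ := h
      exact H.lw _ _ _ _ (by omega) (by omega) (by omega) (by omega) (by omega) (by omega)
    · obtain ⟨rfl, rfl, h⟩ := h
      exact H.lw _ _ _ _ (by omega) (by omega) (by omega) (by omega) (by omega) (by omega)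
    · obtain ⟨rfl, rfl, h⟩ := h
      exact H.lw _ _ _ _ (by omega) (by omega) (by omega) (by omega) (by omega) (by omega)
    · obtain ⟨rfl, rfl, h⟩ := h
      exact H.lw _ _ _ _ (by omega) (by omega) (by omega) (by omega) (by omega) (by omega)
    · obtain ⟨rfl, rfl, h⟩ := h
      exact mt (WrapC.v2 H.d0 (by omega) (by omega) (by omega) (by omega) (by omega) (by omega) (by omega)).mp (by omega)
    · obtain ⟨rfl, rfl, h⟩ := h
      exact mt (WrapC.v1 H.d0 (by omega) (by omega) (by omega) (by omega) (by omega) (by omega) (by omega) (by omega)).mp (by omega)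
    · obtain ⟨rfl, rfl, h⟩ := h
      exact mt (WrapC.v1 H.d2 (by omega) (by omega) (by omega) (by omega) (by omega) (by omega) (by omega) (by omega)).mp (by omega)
    · obtain ⟨rfl, rfl, h⟩ := h
      exact mt (WrapC.v2 H.d4a (by omega) (by omega) (by omega) (by omega) (by omega) (by omega) (by omega)).mp (by omega)
    · obtain ⟨rfl, rfl, h⟩ := h
      exact mt (WrapC.v1 H.d4a (by omega) (by omega) (by omega) (by omega) (by omega) (by omega) (by omega) (by omega)).mp (by omega)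
    · obtain ⟨rfl, rfl, h⟩ := h
      exact mt (WrapC.v1 H.c6 (by omega) (by omega) (by omega) (by omega) (by omega) (by omega) (by omega) (by omega)).mp (by omega)
    · obtain ⟨rfl, rfl, h⟩ := h
      exact NHT.p2 hf H.T' (j := 4) (by omega) (by omega) (by omega) (by omega) (by omega) (by omega)
    · obtain ⟨rfl, rfl, h⟩ := h
      exact NHT.p2 hf H.T' (j := 3) (by omega) (by omega) (by omega) (by omega) (by omega) (by omega)
    · obtain ⟨rfl, rfl, h⟩ := h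
      exact NHT.pIn hf H.T (t := 3) (j := 1) (by omega) (by omega) (by omega) (by omega) (by omega) (by omega) (by omega)
    · obtain ⟨rfl, rfl, h⟩ := h
      exact NHT.pmi hf H.T (j := 2) (by omega) (by omega) (by omega) (by omega) (by omega) (by omega)
    · obtain ⟨rfl, rfl, h⟩ := h
      exact NHT.pmi hf H.T (j := 0) (by omega) (by omega) (by omega) (by omega) (by omega) (by omega)
    · obtain ⟨rfl, rfl, h⟩ := h
      exact NHT.rIn hf H.T (t := 3) (p := 0) (j := 3) (by omega) (by omega) (by omega) (by omega) (by omega) (by omega) (by omega) (by omega)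
    · obtain ⟨rfl, rfl, h⟩ := h
      exact NHT.rIn hf H.T (t := 3) (p := 1) (j := 3) (by omega) (by omega) (by omega) (by omega) (by omega) (by omega) (by omega) (by omega)
    · obtain ⟨rfl, rfl, h⟩ := h
      exact NHT.rIn hf H.T (t := 3) (p := 1) (j := 2) (by omega) (by omega) (by omega) (by omega) (by omega) (by omega) (by omega) (by omega)
    · obtain ⟨rfl, rfl, h⟩ := h
      exact NHT.rIn hf H.T (t := 2) (p := 1) (j := 1) (by omega) (by omega) (by omega) (by omega) (by omega) (by omega) (by omega) (by omega)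
    · obtain ⟨rfl, rfl, h⟩ := h
      exact NHT.rIn hf H.T (t := 3) (p := 0) (j := 1) (by omega) (by omega) (by omega) (by omega) (by omega) (by omega) (by omega) (by omega)
    · obtain ⟨rfl, rfl, h⟩ := h
      exact NHT.rIn hf H.T (t := 3) (p := 1) (j := 0) (by omega) (by omega) (by omega) (by omega) (by omega) (by omega) (by omega) (by omega)
    · obtain ⟨rfl, rfl, h⟩ := h
      exact NHT.rOut hf H.T' (t := 4) (p := 0) (j := 4) (by omega) (by omega) (by omega) (by omega) (by omega) (by omega) (by omega) (by omega)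
    · obtain ⟨rfl, rfl, h⟩ := h
      exact NHU.p2 hf H.U' (j := 2) (by omega) (by omega) (by omega) (by omega) (by omega) (by omega)
    · obtain ⟨rfl, rfl, h⟩ := h
      exact NHU.p2 hf H.U' (j := 2) (by omega) (by omega) (by omega) (by omega) (by omega) (by omega)
    · obtain ⟨rfl, rfl, h⟩ := h
      exact NHU.pmi hf H.U (j := 1) (by omega) (by omega) (by omega) (by omega) (by omega) (by omega)
    · obtain ⟨rfl, rfl, h⟩ := h
      exact NHU.pmi hf H.U (j := 1) (by omega) (by omega) (by omega) (by omega) (by omega) (by omega)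
    · obtain ⟨rfl, rfl, h⟩ := h
      exact NHU.pmi hf H.U (j := 0) (by omega) (by omega) (by omega) (by omega) (by omega) (by omega)
    · obtain ⟨rfl, rfl, h⟩ := h
      exact NHU.pmi hf H.U (j := 0) (by omega) (by omega) (by omega) (by omega) (by omega) (by omega)
    · obtain ⟨rfl, rfl, rfl, rfl⟩ := h
      exact fun t => h1 (mv t (by omega) (by omega) (by omega) (by omega))
    · obtain ⟨rfl, rfl, rfl, rfl⟩ := h
      exact fun t => h2 (mv t (by omega) (by omega) (by omega) (by omega))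
    · obtain ⟨rfl, rfl, rfl, rfl⟩ := h
      exact fun t => h3 (mv t (by omega) (by omega) (by omega) (by omega))

theorem p1b_aux_chk : check 10 7 17 21 0 1 1 1 0
    (fun j n p q => decide ((j = 2 ∧ n = 3 ∧ 6 ≤ p ∧ q + 0 ≤ p ∧ (((p + q) % 2 = 1 ∧ p + 1 ≤ q ∧ (p + 1) % 2 = 0) ∨ (q ≤ p + 1 ∧ (p + q + 1) % 4 = 0)))
      ∨ (j = 2 ∧ n = 2 ∧ 4 ≤ p ∧ q ≤ p + 12 ∧ (q + 0 ≤ p ∧ (p + q) % 4 = 0))
      ∨ (j = 4 ∧ n = 4 ∧ 7 ≤ p ∧ p ≤ q + 0 ∧ q ≤ p + 12 ∧ (q + 0 ≤ p ∧ (p + q) % 4 = 0))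
      ∨ (j = 4 ∧ n = 3 ∧ 6 ≤ p ∧ q ≤ p + 12 ∧ (((p + q) % 2 = 1 ∧ p + 1 ≤ q ∧ (p + 1) % 2 = 1) ∨ (q ≤ p + 1 ∧ (p + q + 3) % 4 = 0)))
      ∨ (j = 4 ∧ n = 2 ∧ 4 ≤ p ∧ q ≤ p + 12 ∧ (q + 0 ≤ p ∧ (p + q + 2) % 4 = 0))
      ∨ (j = 4 ∧ n = 1 ∧ 3 ≤ q ∧ p + 1 ≤ q ∧ q ≤ p + 12 ∧ (((p + q) % 2 = 1 ∧ p + 1 ≤ q ∧ (p + 1) % 2 = 0) ∨ (q ≤ p + 1 ∧ (p + q + 1) % 4 = 0)))
      ∨ (j = 6 ∧ n = 3 ∧ 2 ≤ p ∧ q + 0 ≤ p ∧ (((p + q) % 2 = 1 ∧ p + 1 ≤ q ∧ (p + 1) % 2 = 0) ∨ (q ≤ p + 1 ∧ (p + q + 1) % 4 = 0)))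
      ∨ (j = 6 ∧ n = 2 ∧ p ≤ q + 0 ∧ q ≤ p + 12 ∧ (q + 0 ≤ p ∧ (p + q) % 4 = 0))))
    (fun j n p q => decide ((j = 1 ∧ n = 5 ∧ q ≤ p + 12)
      ∨ (j = 1 ∧ n = 4 ∧ q ≤ p + 12)
      ∨ (j = 1 ∧ n = 3 ∧ q ≤ p + 12)
      ∨ (j = 1 ∧ n = 2 ∧ q ≤ p + 12)
      ∨ (j = 2 ∧ n = 3 ∧ 6 ≤ p ∧ q + 0 ≤ p ∧ ¬ (((p + q) % 2 = 1 ∧ p + 1 ≤ q ∧ (p + 1) % 2 = 0) ∨ (q ≤ p + 1 ∧ (p + q + 1) % 4 = 0)))
      ∨ (j = 2 ∧ n = 2 ∧ 4 ≤ p ∧ q ≤ p + 12 ∧ ¬ (q + 0 ≤ p ∧ (p + q) % 4 = 0))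
      ∨ (j = 4 ∧ n = 4 ∧ 7 ≤ p ∧ p ≤ q + 0 ∧ q ≤ p + 12 ∧ ¬ (q + 0 ≤ p ∧ (p + q) % 4 = 0))
      ∨ (j = 6 ∧ n = 3 ∧ 2 ≤ p ∧ q + 0 ≤ p ∧ ¬ (((p + q) % 2 = 1 ∧ p + 1 ≤ q ∧ (p + 1) % 2 = 0) ∨ (q ≤ p + 1 ∧ (p + q + 1) % 4 = 0)))
      ∨ (j = 6 ∧ n = 2 ∧ p ≤ q + 0 ∧ q ≤ p + 12 ∧ ¬ (q + 0 ≤ p ∧ (p + q) % 4 = 0))
      ∨ (j = 8 ∧ n = 4 ∧ 7 ≤ p ∧ p ≤ q + 2 ∧ q ≤ p + 12 ∧ ¬ (q + 2 ≤ p ∧ (p + q) % 4 = 2))
      ∨ (j = 3 ∧ n = 5 ∧ 13 ≤ q ∧ p + 6 ≤ q ∧ q ≤ p + 11)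
      ∨ (j = 5 ∧ n = 5 ∧ 13 ≤ q ∧ p + 5 ≤ q ∧ q ≤ p + 12)
      ∨ (j = 5 ∧ n = 3 ∧ 5 ≤ p ∧ p + 3 ≤ q ∧ q ≤ p + 12)
      ∨ (j = 3 ∧ n = 5 ∧ 9 ≤ p ∧ p + 5 ≤ q ∧ q ≤ p + 12)
      ∨ (j = 5 ∧ n = 5 ∧ 9 ≤ p ∧ p + 4 ≤ q ∧ q ≤ p + 12)
      ∨ (j = 9 ∧ n = 5 ∧ 9 ≤ p ∧ p + 2 ≤ q ∧ q ≤ p + 12)
      ∨ (j = 2 ∧ n = 4 ∧ 6 ≤ p ∧ p + 5 ≤ q ∧ q ≤ p + 12)
      ∨ (j = 3 ∧ n = 4 ∧ 6 ≤ p ∧ p + 5 ≤ q ∧ q ≤ p + 12)
      ∨ (j = 5 ∧ n = 4 ∧ 6 ≤ p ∧ p + 4 ≤ q ∧ q ≤ p + 12)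
      ∨ (j = 5 ∧ n = 2 ∧ 2 ≤ p ∧ p + 3 ≤ q ∧ q ≤ p + 12)
      ∨ (j = 6 ∧ n = 4 ∧ 6 ≤ p ∧ p + 3 ≤ q ∧ q ≤ p + 12)
      ∨ (j = 9 ∧ n = 4 ∧ 6 ≤ p ∧ p + 2 ≤ q ∧ q ≤ p + 12)
      ∨ (j = 2 ∧ n = 4 ∧ 8 ≤ q ∧ p + 6 ≤ q ∧ q ≤ p + 11)
      ∨ (j = 7 ∧ n = 5 ∧ 13 ≤ q ∧ p + 2 ≤ q ∧ q ≤ p + 12)
      ∨ (j = 7 ∧ n = 4 ∧ 13 ≤ q ∧ p + 2 ≤ q ∧ q ≤ p + 12)
      ∨ (j = 7 ∧ n = 5 ∧ 11 ≤ p ∧ p + 1 ≤ q ∧ q ≤ p + 12)
      ∨ (j = 7 ∧ n = 4 ∧ 11 ≤ p ∧ p + 1 ≤ q ∧ q ≤ p + 12)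
      ∨ (j = 9 ∧ n = 5 ∧ 11 ≤ p ∧ p ≤ q + 0 ∧ q ≤ p + 12)
      ∨ (j = 9 ∧ n = 4 ∧ 11 ≤ p ∧ p ≤ q + 0 ∧ q ≤ p + 12)
      ∨ (j = 2 ∧ n = 5 ∧ p = 6 ∧ q = 13)
      ∨ (j = 2 ∧ n = 5 ∧ p = 8 ∧ q = 15)
      ∨ (j = 4 ∧ n = 5 ∧ p = 8 ∧ q = 13)))
    466
    0x1c53031285001285010ce5800ce5810c1d800c1d81175c03126f00126f010ccf800cda120d97800d980a0d83800d988012705a0d990a1c53031285001285010d8e000d8e040c28000c28010c13000c13042621031c53001c53042621031c48801c48840c33830ce6000ce6040c3e0311d28011d2840c1e8311b28011b284175d0311bd8011bd840cda03126e80126e840c1d830cd0800cd0840cda030d8d000d8d04208c03213f00213f041c4903175c00175c041287030d9a001286520d99000d99040c1d830cd0000cd0040c29030cdc000cdc040c3f0311d38011d3840c3f030cf2000cf2041c47831c48001c48040cf0031284801284842fe4032616002616041271030d84000d84040c280311bc8011bc840c348311c88011c8840c28030cdb000cdb041fcf832563802563840cf0030cf0800cf0840c1d8311b18011b1840c34831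1c880175d6a1270001270041287030d9a000d9a01127b00127b040c290311bd0011bd041c54031286001286040c1e830cd1000cd1040d9903127a80127a840c3e030cf1000cf1040c33830c34000c34040cf0030da3000da3040c29030cdb800cdb840c1d830c1e000c1e040c34830ce7000ce7041fda03208d00208d040c3f0311d30011d3040c338311c80011c8040d8e03126f80126f841fcf832082002082040d84031265801265840c338311c78011c7840cda030cda800cda840c3f030cf1800cf184208c03208c80208c840c33830ce6800ce6840d9a03127b80127b841271030d84000d84011265001265040c1d8311b20011b2041c47831c48001c531a1c53801c53840d83031264801264841fce001f1c0016be0016a800161600160d00160c0015f70015f600156400154e0014b200149d00149c000c32000c1c000b80000b6a002fe4072fe3872fd9872fd9072f31872f31072f27072f26872b02872a50072a4f872a45872a4507262107262087261687256e87256e07256407213f872082871fd9871fd9071fce871fce0f1fc4871f27871f27071f1d071f1c871f1c0f1f12871f12071c54071c49871c49071c3e871ba1871b97071b96871b8c071b8b87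1ae3871a3107176787176687176587175d0717528717518716c00716bf8716bf0716be8716be0f16b58716b50716b48716b40716b38716b30716aa8716aa0716a98716a90716a88716a80f16a007169f87169f07169e8716160f160d0f160c0f15f70f15f60f15640f154e0f14b20f149d0f149c0f128707128687127c87127c0712710712668711d48711d40711ca0711c98711c90711be8711be0711b40711b38711b3070da5870da4870da3870d9b070d8f870d8e870d8d870d85070d79870d78870cf3070cf2870ce8870ce8070ce7870cdd070cdc870cd2870cd2070cd1870cc7070c3e870c3d870c3d070c32870c320f0c29870c28870c27870c27070c1c870c1c0f0c13870c12870b8c870b8c070b8b870b8b070b82070b81870b81070b80870b800f0b77870b77070b76870b76070b75870b75070b6c070b6b870b6b070b6a870b6a0f0b61870b61070b60870b600708b88708b80708b78708b70708b68708b60708ae0708ad8708ad0708ac8708ac0708ab8708a28708a20708a18708a107089807089787089707089687080e87080e0708060708058708050708048708040708038707fb8707fb0707fa8707fa0707f98707f90707f88707f80707f00707ef8707ef0707ee8707ee0707ed8707e58707e50707e48707e407075d87075d07075c87075c07075b87075307075287075207075187075107074887074807074787074707074687074607074587073d07073c87073c07073b87073b0707328707320707318707310706ab0706aa8706aa0706a98706a08706a007069f87069f07069607069587069507069487069407069387068a87068a07068987068907068007067f87067f07067e87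 = true := by
  decide +kernel

theorem p1b_aux (hf : Rule f) {k c n : ℕ} (H : PS f k c n)
    (h1 : ¬ f (6 * k) (c - 2) (2 * n - 7) (2 * n - 2 * k))
    (h2 : ¬ f (6 * k) (c - 2) (2 * n - 5) (2 * n + 2 - 2 * k))
    (h3 : ¬ f (6 * k + 2) (c - 2) (2 * n - 5) (2 * n - 2 * k)) : False := by
  have hk := H.T.hk
  have hc := H.T.hc
  have h4' := H.T.h4
  have hb := H.T.hb
  have hN := H.T.hN2
  obtain ⟨a0, ha0⟩ : ∃ z, z + 2 = 6 * k := ⟨6 * k - 2, by omega⟩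
  obtain ⟨b0, hb0⟩ : ∃ z, z + 7 = c := ⟨c - 7, by omega⟩
  obtain ⟨x0, hx0⟩ : ∃ z, z + 13 = 2 * n := ⟨2 * n - 13, by omega⟩
  obtain ⟨y0, hy0⟩ : ∃ z, z + 2 * k + 13 = 2 * n := ⟨2 * n - 2 * k - 13, by omega⟩
  refine check_sound hf (a0 := a0) (b0 := b0) (x0 := x0) (y0 := y0) p1b_aux_chk
    ⟨fun h => absurd h (by decide), fun h => absurd h (by decide), fun h => absurd h (by decide), by omega, by omega,
      by omega, by omega⟩ ?_ ?_
  · intro j m p q hr h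
    obtain ⟨-, -, hm1, hm2, hp1, hp2, hq1, hq2⟩ := hr
    replace h := of_decide_eq_true h
    rcases h with h | h | h | h | h | h | h | h
    · obtain ⟨rfl, rfl, h⟩ := h
      exact (WrapC.v2 H.d0 (by omega) (by omega) (by omega) (by omega) (by omega) (by omega) (by omega)).mpr (by omega)
    · obtain ⟨rfl, rfl, h⟩ := h
      exact (WrapC.v1 H.d0 (by omega) (by omega) (by omega) (by omega) (by omega) (by omega) (by omega) (by omega)).mpr (by omega)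
    · obtain ⟨rfl, rfl, h⟩ := h
      exact (WrapC.v1 H.d2 (by omega) (by omega) (by omega) (by omega) (by omega) (by omega) (by omega) (by omega)).mpr (by omega)
    · obtain ⟨rfl, rfl, h⟩ := h
      exact (WrapC.v4 H.d2a (by omega) (by omega) (by omega) (by omega) (by omega) (by omega) (by omega)).mpr (by omega)
    · obtain ⟨rfl, rfl, h⟩ := h
      exact (WrapC.v3 H.d2a (by omega) (by omega) (by omega) (by omega) (by omega) (by omega) (by omega) (by omega)).mpr (by omega)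
    · obtain ⟨rfl, rfl, h⟩ := h
      exact (WrapC.v2 H.d2a (by omega) (by omega) (by omega) (by omega) (by omega) (by omega) (by omega)).mpr (by omega)
    · obtain ⟨rfl, rfl, h⟩ := h
      exact (WrapC.v2 H.d4a (by omega) (by omega) (by omega) (by omega) (by omega) (by omega) (by omega)).mpr (by omega)
    · obtain ⟨rfl, rfl, h⟩ := h
      exact (WrapC.v1 H.d4a (by omega) (by omega) (by omega) (by omega) (by omega) (by omega) (by omega) (by omega)).mpr (by omega)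
  · intro j m p q hr h
    obtain ⟨-, -, hm1, hm2, hp1, hp2, hq1, hq2⟩ := hr
    replace h := of_decide_eq_true h
    rcases h with h | h | h | h | h | h | h | h | h | h | h | h | h | h | h | h | h | h | h | h | h | h | h | h | h | h | h | h | h | h | h | h
    · obtain ⟨rfl, rfl, h⟩ := h
      exact H.lw _ _ _ _ (by omega) (by omega) (by omega) (by omega) (by omega) (by omega)
    · obtain ⟨rfl, rfl, h⟩ := h
      exact H.lw _ _ _ _ (by omega) (by omega) (by omega) (by omega) (by omega) (by omega)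
    · obtain ⟨rfl, rfl, h⟩ := h
      exact H.lw _ _ _ _ (by omega) (by omega) (by omega) (by omega) (by omega) (by omega)
    · obtain ⟨rfl, rfl, h⟩ := h
      exact H.lw _ _ _ _ (by omega) (by omega) (by omega) (by omega) (by omega) (by omega)
    · obtain ⟨rfl, rfl, h⟩ := h
      exact mt (WrapC.v2 H.d0 (by omega) (by omega) (by omega) (by omega) (by omega) (by omega) (by omega)).mp (by omega)
    · obtain ⟨rfl, rfl, h⟩ := h
      exact mt (WrapC.v1 H.d0 (by omega) (by omega) (by omega) (by omega) (by omega) (by omega) (by omega) (by omega)).mp (by omega)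
    · obtain ⟨rfl, rfl, h⟩ := h
      exact mt (WrapC.v1 H.d2 (by omega) (by omega) (by omega) (by omega) (by omega) (by omega) (by omega) (by omega)).mp (by omega)
    · obtain ⟨rfl, rfl, h⟩ := h
      exact mt (WrapC.v2 H.d4a (by omega) (by omega) (by omega) (by omega) (by omega) (by omega) (by omega)).mp (by omega)
    · obtain ⟨rfl, rfl, h⟩ := h
      exact mt (WrapC.v1 H.d4a (by omega) (by omega) (by omega) (by omega) (by omega) (by omega) (by omega) (by omega)).mp (by omega)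
    · obtain ⟨rfl, rfl, h⟩ := h
      exact mt (WrapC.v1 H.c6 (by omega) (by omega) (by omega) (by omega) (by omega) (by omega) (by omega) (by omega)).mp (by omega)
    · obtain ⟨rfl, rfl, h⟩ := h
      exact NHT.p2 hf H.T' (j := 4) (by omega) (by omega) (by omega) (by omega) (by omega) (by omega)
    · obtain ⟨rfl, rfl, h⟩ := h
      exact NHT.p2 hf H.T' (j := 3) (by omega) (by omega) (by omega) (by omega) (by omega) (by omega)
    · obtain ⟨rfl, rfl, h⟩ := h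
      exact NHT.pIn hf H.T (t := 3) (j := 1) (by omega) (by omega) (by omega) (by omega) (by omega) (by omega) (by omega)
    · obtain ⟨rfl, rfl, h⟩ := h
      exact NHT.pmi hf H.T (j := 3) (by omega) (by omega) (by omega) (by omega) (by omega) (by omega)
    · obtain ⟨rfl, rfl, h⟩ := h
      exact NHT.pmi hf H.T (j := 2) (by omega) (by omega) (by omega) (by omega) (by omega) (by omega)
    · obtain ⟨rfl, rfl, h⟩ := h
      exact NHT.pmi hf H.T (j := 0) (by omega) (by omega) (by omega) (by omega) (by omega) (by omega)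
    · obtain ⟨rfl, rfl, h⟩ := h
      exact NHT.rIn hf H.T (t := 3) (p := 0) (j := 3) (by omega) (by omega) (by omega) (by omega) (by omega) (by omega) (by omega) (by omega)
    · obtain ⟨rfl, rfl, h⟩ := h
      exact NHT.rIn hf H.T (t := 3) (p := 1) (j := 3) (by omega) (by omega) (by omega) (by omega) (by omega) (by omega) (by omega) (by omega)
    · obtain ⟨rfl, rfl, h⟩ := h
      exact NHT.rIn hf H.T (t := 3) (p := 1) (j := 2) (by omega) (by omega) (by omega) (by omega) (by omega) (by omega) (by omega) (by omega)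
    · obtain ⟨rfl, rfl, h⟩ := h
      exact NHT.rIn hf H.T (t := 2) (p := 1) (j := 1) (by omega) (by omega) (by omega) (by omega) (by omega) (by omega) (by omega) (by omega)
    · obtain ⟨rfl, rfl, h⟩ := h
      exact NHT.rIn hf H.T (t := 3) (p := 0) (j := 1) (by omega) (by omega) (by omega) (by omega) (by omega) (by omega) (by omega) (by omega)
    · obtain ⟨rfl, rfl, h⟩ := h
      exact NHT.rIn hf H.T (t := 3) (p := 1) (j := 0) (by omega) (by omega) (by omega) (by omega) (by omega) (by omega) (by omega) (by omega)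
    · obtain ⟨rfl, rfl, h⟩ := h
      exact NHT.rOut hf H.T' (t := 4) (p := 0) (j := 4) (by omega) (by omega) (by omega) (by omega) (by omega) (by omega) (by omega) (by omega)
    · obtain ⟨rfl, rfl, h⟩ := h
      exact NHU.p2 hf H.U' (j := 2) (by omega) (by omega) (by omega) (by omega) (by omega) (by omega)
    · obtain ⟨rfl, rfl, h⟩ := h
      exact NHU.p2 hf H.U' (j := 2) (by omega) (by omega) (by omega) (by omega) (by omega) (by omega)
    · obtain ⟨rfl, rfl, h⟩ := h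
      exact NHU.pmi hf H.U (j := 1) (by omega) (by omega) (by omega) (by omega) (by omega) (by omega)
    · obtain ⟨rfl, rfl, h⟩ := h
      exact NHU.pmi hf H.U (j := 1) (by omega) (by omega) (by omega) (by omega) (by omega) (by omega)
    · obtain ⟨rfl, rfl, h⟩ := h
      exact NHU.pmi hf H.U (j := 0) (by omega) (by omega) (by omega) (by omega) (by omega) (by omega)
    · obtain ⟨rfl, rfl, h⟩ := h
      exact NHU.pmi hf H.U (j := 0) (by omega) (by omega) (by omega) (by omega) (by omega) (by omega)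
    · obtain ⟨rfl, rfl, rfl, rfl⟩ := h
      exact fun t => h1 (mv t (by omega) (by omega) (by omega) (by omega))
    · obtain ⟨rfl, rfl, rfl, rfl⟩ := h
      exact fun t => h2 (mv t (by omega) (by omega) (by omega) (by omega))
    · obtain ⟨rfl, rfl, rfl, rfl⟩ := h
      exact fun t => h3 (mv t (by omega) (by omega) (by omega) (by omega))

theorem p2_aux_chk : check 10 7 13 17 0 1 1 1 0
    (fun j n p q => decide ((j = 2 ∧ n = 2 ∧ 2 ≤ p ∧ (q + 0 ≤ p ∧ (p + q) % 4 = 0))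
      ∨ (j = 4 ∧ n = 4 ∧ 5 ≤ p ∧ p ≤ q + 0 ∧ (q + 0 ≤ p ∧ (p + q) % 4 = 0))
      ∨ (j = 4 ∧ n = 3 ∧ 4 ≤ p ∧ (((p + q) % 2 = 1 ∧ p + 1 ≤ q ∧ (p + 1) % 2 = 1) ∨ (q ≤ p + 1 ∧ (p + q + 3) % 4 = 0)))
      ∨ (j = 4 ∧ n = 2 ∧ 2 ≤ p ∧ (q + 0 ≤ p ∧ (p + q + 2) % 4 = 0))
      ∨ (j = 4 ∧ n = 1 ∧ p + 1 ≤ q ∧ (((p + q) % 2 = 1 ∧ p + 1 ≤ q ∧ (p + 1) % 2 = 0) ∨ (q ≤ p + 1 ∧ (p + q + 1) % 4 = 0)))
      ∨ (j = 6 ∧ n = 3 ∧ q + 0 ≤ p ∧ (((p + q) % 2 = 1 ∧ p + 1 ≤ q ∧ (p + 1) % 2 = 0) ∨ (q ≤ p + 1 ∧ (p + q + 1) % 4 = 0)))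
      ∨ (j = 6 ∧ n = 2 ∧ p ≤ q + 0 ∧ (q + 0 ≤ p ∧ (p + q) % 4 = 0))
      ∨ (j = 8 ∧ n = 4 ∧ 5 ≤ p ∧ p ≤ q + 2 ∧ (q + 2 ≤ p ∧ (p + q) % 4 = 2))
      ∨ (j = 8 ∧ n = 3 ∧ 6 ≤ p ∧ (((p + q) % 2 = 1 ∧ p ≤ q + 1 ∧ (p + 1) % 2 = 1) ∨ (q + 1 ≤ p ∧ (p + q + 3) % 4 = 2)))
      ∨ (j = 10 ∧ n = 5 ∧ 8 ≤ p ∧ p + 1 ≤ q ∧ (((p + q) % 2 = 1 ∧ p ≤ q + 1 ∧ (p + 1) % 2 = 1) ∨ (q + 1 ≤ p ∧ (p + q + 3) % 4 = 2)))))
    (fun j n p q => decide ((j = 1 ∧ n = 5)
      ∨ (j = 1 ∧ n = 4)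
      ∨ (j = 1 ∧ n = 3)
      ∨ (j = 1 ∧ n = 2)
      ∨ (j = 2 ∧ n = 2 ∧ 2 ≤ p ∧ ¬ (q + 0 ≤ p ∧ (p + q) % 4 = 0))
      ∨ (j = 4 ∧ n = 4 ∧ 5 ≤ p ∧ p ≤ q + 0 ∧ ¬ (q + 0 ≤ p ∧ (p + q) % 4 = 0))
      ∨ (j = 6 ∧ n = 3 ∧ q + 0 ≤ p ∧ ¬ (((p + q) % 2 = 1 ∧ p + 1 ≤ q ∧ (p + 1) % 2 = 0) ∨ (q ≤ p + 1 ∧ (p + q + 1) % 4 = 0)))
      ∨ (j = 6 ∧ n = 2 ∧ p ≤ q + 0 ∧ ¬ (q + 0 ≤ p ∧ (p + q) % 4 = 0))
      ∨ (j = 8 ∧ n = 4 ∧ 5 ≤ p ∧ p ≤ q + 2 ∧ ¬ (q + 2 ≤ p ∧ (p + q) % 4 = 2))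
      ∨ (j = 5 ∧ n = 5 ∧ 11 ≤ q ∧ p + 5 ≤ q ∧ q ≤ p + 8)
      ∨ (j = 5 ∧ n = 3 ∧ 3 ≤ p ∧ p + 3 ≤ q)
      ∨ (j = 5 ∧ n = 5 ∧ 7 ≤ p ∧ p + 4 ≤ q ∧ q ≤ p + 8)
      ∨ (j = 7 ∧ n = 5 ∧ 7 ≤ p ∧ p + 3 ≤ q)
      ∨ (j = 9 ∧ n = 5 ∧ 7 ≤ p ∧ p + 2 ≤ q)
      ∨ (j = 4 ∧ n = 4 ∧ 4 ≤ p ∧ p + 4 ≤ q ∧ q ≤ p + 8)
      ∨ (j = 5 ∧ n = 4 ∧ 4 ≤ p ∧ p + 4 ≤ q ∧ q ≤ p + 8)
      ∨ (j = 5 ∧ n = 2 ∧ p + 3 ≤ q)
      ∨ (j = 6 ∧ n = 4 ∧ 4 ≤ p ∧ p + 3 ≤ q)
      ∨ (j = 7 ∧ n = 4 ∧ 4 ≤ p ∧ p + 3 ≤ q)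
      ∨ (j = 9 ∧ n = 4 ∧ 4 ≤ p ∧ p + 2 ≤ q)
      ∨ (j = 7 ∧ n = 5 ∧ 11 ≤ q ∧ p + 2 ≤ q ∧ q ≤ p + 8)
      ∨ (j = 7 ∧ n = 5 ∧ 9 ≤ p ∧ p + 1 ≤ q)
      ∨ (j = 7 ∧ n = 4 ∧ 9 ≤ p ∧ p + 1 ≤ q)
      ∨ (j = 9 ∧ n = 5 ∧ 9 ≤ p ∧ p ≤ q + 0)
      ∨ (j = 9 ∧ n = 4 ∧ 9 ≤ p ∧ p ≤ q + 0)
      ∨ (j = 6 ∧ n = 5 ∧ p = 6 ∧ q = 11)
      ∨ (j = 6 ∧ n = 5 ∧ p = 8 ∧ q = 13)
      ∨ (j = 4 ∧ n = 5 ∧ p = 6 ∧ q = 11)))
    341
    0x17a103142380142c12179783141a00141a010e76030e768011855a0e76030e6e00117cda0e7f000e7f041481030e6d000e6d041185030b70800b70840e6d0311728014815a0e75800e758414818017905a178680178f12141180141184141a03148900148904086a830b70000b700413ac001423ba14928017a15a13b58314240014240413b583172980172984142383172900172904078d830b01800b01841185030e76000e76041da303178f00178f0407ea830af0000af00413a383141200141204078d830b02000b02041dab8317978017978407f3830af9000af904142c00142c040859030b5e800b5e84141a03178e8017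8e8417a20314930014930413be03142d00142d04141a03141a80141a841d98831d99001da21a1a9d001a9d0413a38317178017178407eb030af0800af0840862030b67800b678413ac03172080172084078d8307fc0007fc041d98831d99001da21a1a9d001dabda1798001798041790031481001481040859830b5f000b5f0420a8001a2d001a1b0019c00019bf0019ae0019ad0013b40013a2001346001334000e18000e06000db2000daa000da0000d99000d98000d87000d44000d32000d20000cd6000cc5000cc4000cb3000cb200071e0020a80f1dab871dab071da3071d9a871d9a071d3d071d3c871d34871d2c071d2b871aa5871a94871a93871a92871a37871a37071a2f071a2e871a2e071a2d871a2d0f1a26871a26071a25871a25071a24871a24071a1c071a1b871a1b0f19c00f19bf0f19ae0f19ad0f17a20717a18717a10717a087179987179907179887179007178f87178787173387173307173287173207172b07172a87172a07172187172107171907171887171807149c87149b87149407148a87148987148207147887142e07142d87142587142507142487141c07141b87141387141307141287140a0714098713bd8713bd0713b48713b40f1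3ac8713ab8713ab0713a28713a20f139a87134f87134f0713470713468713460f133e87133e07133d87133d0713350713348713340f132c87132c07118507117c87117407111687110e07110d8711058711050711048710a7871095871039071027070e7f870e77070e6e870e6d870e6c870e180f0e11070e10870e08870e08070e07870e07070e060f0e00070dff870dff070dfe870dfe070df6070db20f0daa0f0da00f0d990f0d980f0d870f0d440f0d320f0d200f0cd60f0cc50f0cc40f0cb30f0cb20f086187085087078487077387071f07071e87071e0f071687071607056507056487055c87055c07055407055387055307054b87054b07054a8704f68704f60704ee0704ed8704e58704e50704e48704dd0704dc8704dc07048807048787047f87047f07047707047687047607046e87046e07046d87041987041907041107041087 = true := by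
  decide +kernel

theorem p2_aux (hf : Rule f) {k c n : ℕ} (H : PS f k c n)
    (h1 : ¬ f (6 * k + 4) (c - 2) (2 * n - 5) (2 * n - 2 * k))
    (h2 : ¬ f (6 * k + 4) (c - 2) (2 * n - 3) (2 * n + 2 - 2 * k))
    (h3 : ¬ f (6 * k + 2) (c - 2) (2 * n - 5) (2 * n - 2 * k)) : False := by
  have hk := H.T.hk
  have hc := H.T.hc
  have h4' := H.T.h4
  have hb := H.T.hb
  have hN := H.T.hN2
  obtain ⟨a0, ha0⟩ : ∃ z, z + 2 = 6 * k := ⟨6 * k - 2, by omega⟩
  obtain ⟨b0, hb0⟩ : ∃ z, z + 7 = c := ⟨c - 7, by omega⟩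
  obtain ⟨x0, hx0⟩ : ∃ z, z + 11 = 2 * n := ⟨2 * n - 11, by omega⟩
  obtain ⟨y0, hy0⟩ : ∃ z, z + 2 * k + 11 = 2 * n := ⟨2 * n - 2 * k - 11, by omega⟩
  refine check_sound hf (a0 := a0) (b0 := b0) (x0 := x0) (y0 := y0) p2_aux_chk
    ⟨fun h => absurd h (by decide), fun h => absurd h (by decide), fun h => absurd h (by decide), by omega, by omega,
      by omega, by omega⟩ ?_ ?_
  · intro j m p q hr h
    obtain ⟨-, -, hm1, hm2, hp1, hp2, hq1, hq2⟩ := hr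
    replace h := of_decide_eq_true h
    rcases h with h | h | h | h | h | h | h | h | h | h
    · obtain ⟨rfl, rfl, h⟩ := h
      exact (WrapC.v1 H.d0 (by omega) (by omega) (by omega) (by omega) (by omega) (by omega) (by omega) (by omega)).mpr (by omega)
    · obtain ⟨rfl, rfl, h⟩ := h
      exact (WrapC.v1 H.d2 (by omega) (by omega) (by omega) (by omega) (by omega) (by omega) (by omega) (by omega)).mpr (by omega)
    · obtain ⟨rfl, rfl, h⟩ := h
      exact (WrapC.v4 H.d2a (by omega) (by omega) (by omega) (by omega) (by omega) (by omega) (by omega)).mpr (by omega)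
    · obtain ⟨rfl, rfl, h⟩ := h
      exact (WrapC.v3 H.d2a (by omega) (by omega) (by omega) (by omega) (by omega) (by omega) (by omega) (by omega)).mpr (by omega)
    · obtain ⟨rfl, rfl, h⟩ := h
      exact (WrapC.v2 H.d2a (by omega) (by omega) (by omega) (by omega) (by omega) (by omega) (by omega)).mpr (by omega)
    · obtain ⟨rfl, rfl, h⟩ := h
      exact (WrapC.v2 H.d4a (by omega) (by omega) (by omega) (by omega) (by omega) (by omega) (by omega)).mpr (by omega)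
    · obtain ⟨rfl, rfl, h⟩ := h
      exact (WrapC.v1 H.d4a (by omega) (by omega) (by omega) (by omega) (by omega) (by omega) (by omega) (by omega)).mpr (by omega)
    · obtain ⟨rfl, rfl, h⟩ := h
      exact (WrapC.v1 H.c6 (by omega) (by omega) (by omega) (by omega) (by omega) (by omega) (by omega) (by omega)).mpr (by omega)
    · obtain ⟨rfl, rfl, h⟩ := h
      exact (WrapC.v4 H.c6a (by omega) (by omega) (by omega) (by omega) (by omega) (by omega) (by omega)).mpr (by omega)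
    · obtain ⟨rfl, rfl, h⟩ := h
      exact (NW.w0v H.c8 (by omega) (by omega) (by omega) (by omega) (by omega) (by omega) (by omega)).mpr (by omega)
  · intro j m p q hr h
    obtain ⟨-, -, hm1, hm2, hp1, hp2, hq1, hq2⟩ := hr
    replace h := of_decide_eq_true h
    rcases h with h | h | h | h | h | h | h | h | h | h | h | h | h | h | h | h | h | h | h | h | h | h | h | h | h | h | h | h
    · obtain ⟨rfl, rfl⟩ := h
      exact H.lw _ _ _ _ (by omega) (by omega) (by omega) (by omega) (by omega) (by omega)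
    · obtain ⟨rfl, rfl⟩ := h
      exact H.lw _ _ _ _ (by omega) (by omega) (by omega) (by omega) (by omega) (by omega)
    · obtain ⟨rfl, rfl⟩ := h
      exact H.lw _ _ _ _ (by omega) (by omega) (by omega) (by omega) (by omega) (by omega)
    · obtain ⟨rfl, rfl⟩ := h
      exact H.lw _ _ _ _ (by omega) (by omega) (by omega) (by omega) (by omega) (by omega)
    · obtain ⟨rfl, rfl, h⟩ := h
      exact mt (WrapC.v1 H.d0 (by omega) (by omega) (by omega) (by omega) (by omega) (by omega) (by omega) (by omega)).mp (by omega)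
    · obtain ⟨rfl, rfl, h⟩ := h
      exact mt (WrapC.v1 H.d2 (by omega) (by omega) (by omega) (by omega) (by omega) (by omega) (by omega) (by omega)).mp (by omega)
    · obtain ⟨rfl, rfl, h⟩ := h
      exact mt (WrapC.v2 H.d4a (by omega) (by omega) (by omega) (by omega) (by omega) (by omega) (by omega)).mp (by omega)
    · obtain ⟨rfl, rfl, h⟩ := h
      exact mt (WrapC.v1 H.d4a (by omega) (by omega) (by omega) (by omega) (by omega) (by omega) (by omega) (by omega)).mp (by omega)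
    · obtain ⟨rfl, rfl, h⟩ := h
      exact mt (WrapC.v1 H.c6 (by omega) (by omega) (by omega) (by omega) (by omega) (by omega) (by omega) (by omega)).mp (by omega)
    · obtain ⟨rfl, rfl, h⟩ := h
      exact NHT.p2 hf H.T' (j := 3) (by omega) (by omega) (by omega) (by omega) (by omega) (by omega)
    · obtain ⟨rfl, rfl, h⟩ := h
      exact NHT.pIn hf H.T (t := 3) (j := 1) (by omega) (by omega) (by omega) (by omega) (by omega) (by omega) (by omega)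
    · obtain ⟨rfl, rfl, h⟩ := h
      exact NHT.pmi hf H.T (j := 2) (by omega) (by omega) (by omega) (by omega) (by omega) (by omega)
    · obtain ⟨rfl, rfl, h⟩ := h
      exact NHT.pmi hf H.T (j := 1) (by omega) (by omega) (by omega) (by omega) (by omega) (by omega)
    · obtain ⟨rfl, rfl, h⟩ := h
      exact NHT.pmi hf H.T (j := 0) (by omega) (by omega) (by omega) (by omega) (by omega) (by omega)
    · obtain ⟨rfl, rfl, h⟩ := h
      exact NHT.rIn hf H.T (t := 3) (p := 0) (j := 2) (by omega) (by omega) (by omega) (by omega) (by omega) (by omega) (by omega) (by omega)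
    · obtain ⟨rfl, rfl, h⟩ := h
      exact NHT.rIn hf H.T (t := 3) (p := 1) (j := 2) (by omega) (by omega) (by omega) (by omega) (by omega) (by omega) (by omega) (by omega)
    · obtain ⟨rfl, rfl, h⟩ := h
      exact NHT.rIn hf H.T (t := 2) (p := 1) (j := 1) (by omega) (by omega) (by omega) (by omega) (by omega) (by omega) (by omega) (by omega)
    · obtain ⟨rfl, rfl, h⟩ := h
      exact NHT.rIn hf H.T (t := 3) (p := 0) (j := 1) (by omega) (by omega) (by omega) (by omega) (by omega) (by omega) (by omega) (by omega)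
    · obtain ⟨rfl, rfl, h⟩ := h
      exact NHT.rIn hf H.T (t := 3) (p := 1) (j := 1) (by omega) (by omega) (by omega) (by omega) (by omega) (by omega) (by omega) (by omega)
    · obtain ⟨rfl, rfl, h⟩ := h
      exact NHT.rIn hf H.T (t := 3) (p := 1) (j := 0) (by omega) (by omega) (by omega) (by omega) (by omega) (by omega) (by omega) (by omega)
    · obtain ⟨rfl, rfl, h⟩ := h
      exact NHU.p2 hf H.U' (j := 2) (by omega) (by omega) (by omega) (by omega) (by omega) (by omega)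
    · obtain ⟨rfl, rfl, h⟩ := h
      exact NHU.pmi hf H.U (j := 1) (by omega) (by omega) (by omega) (by omega) (by omega) (by omega)
    · obtain ⟨rfl, rfl, h⟩ := h
      exact NHU.pmi hf H.U (j := 1) (by omega) (by omega) (by omega) (by omega) (by omega) (by omega)
    · obtain ⟨rfl, rfl, h⟩ := h
      exact NHU.pmi hf H.U (j := 0) (by omega) (by omega) (by omega) (by omega) (by omega) (by omega)
    · obtain ⟨rfl, rfl, h⟩ := h
      exact NHU.pmi hf H.U (j := 0) (by omega) (by omega) (by omega) (by omega) (by omega) (by omega)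
    · obtain ⟨rfl, rfl, rfl, rfl⟩ := h
      exact fun t => h1 (mv t (by omega) (by omega) (by omega) (by omega))
    · obtain ⟨rfl, rfl, rfl, rfl⟩ := h
      exact fun t => h2 (mv t (by omega) (by omega) (by omega) (by omega))
    · obtain ⟨rfl, rfl, rfl, rfl⟩ := h
      exact fun t => h3 (mv t (by omega) (by omega) (by omega) (by omega))

/-- (P1): one of the three lines of the row `c - 2` is present near the wall. -/
theorem p1 (hf : Rule f) {k c n : ℕ} (H : PS f k c n) :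
    f (6 * k) (c - 2) (2 * n - 7) (2 * n - 2 * k - 2) ∨ f (6 * k) (c - 2) (2 * n - 5) (2 * n - 2 * k) ∨
      f (6 * k + 2) (c - 2) (2 * n - 5) (2 * n - 2 * k) := by
  by_contra h
  exact p1_aux hf H (fun t => h (Or.inl t)) (fun t => h (Or.inr (Or.inl t))) (fun t => h (Or.inr (Or.inr t)))

/-- (P1) two steps further from the wall. -/
theorem p1b (hf : Rule f) {k c n : ℕ} (H : PS f k c n) :
    f (6 * k) (c - 2) (2 * n - 7) (2 * n - 2 * k) ∨ f (6 * k) (c - 2) (2 * n - 5) (2 * n + 2 - 2 * k) ∨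
      f (6 * k + 2) (c - 2) (2 * n - 5) (2 * n - 2 * k) := by
  by_contra h
  exact p1b_aux hf H (fun t => h (Or.inl t)) (fun t => h (Or.inr (Or.inl t))) (fun t => h (Or.inr (Or.inr t)))

/-- (P2): one of the three lines of the row `c - 2` is present near the wall. -/
theorem p2 (hf : Rule f) {k c n : ℕ} (H : PS f k c n) :
    f (6 * k + 4) (c - 2) (2 * n - 5) (2 * n - 2 * k) ∨ f (6 * k + 4) (c - 2) (2 * n - 3) (2 * n + 2 - 2 * k) ∨
      f (6 * k + 2) (c - 2) (2 * n - 5) (2 * n - 2 * k) := by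
  by_contra h
  exact p2_aux hf H (fun t => h (Or.inl t)) (fun t => h (Or.inr (Or.inl t))) (fun t => h (Or.inr (Or.inr t)))

theorem nht_mv {k c N c' N' : ℕ} (C : NHT f k c N) (h1 : c' = c) (h2 : N' = N) : NHT f k c' N' := by
  subst h1 h2
  exact C

theorem nhu_mv {k c N c' N' : ℕ} (C : NHU f k c N) (h1 : c' = c) (h2 : N' = N) : NHU f k c' N' := by
  subst h1 h2
  exact C

theorem cyc_of {a b K b' K' : ℕ} (C : Cyc f a b K) (hb : b' = b) (hK : K' = K) : Cyc f a b' K' := by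
  subst hb hK
  exact C

theorem cw_of {a b n b' n' : ℕ} (C : Cw f a b n) (hb : b' = b) (hn : n' = n) : Cw f a b' n' := by
  subst hb hn
  exact C

/-- the structure of the cycle `j + 1` -/
theorem PS.of {k b m : ℕ} (W : StackW f k b m) (j : ℕ) :
    PS f k (b + 4 * (j + 1) + 22) (D1.nn k m (j + 1)) := by
  have W1 := W (j + 1)
  have W0 := W j
  have q (i : ℕ) : (k + 2) * (i + 1) = (k + 2) * i + k + 2 := by ring
  have e1 : D1.nn k m (j + 1) = D1.nn k m j + (k + 2) := by unfold D1.nn; ring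
  obtain ⟨hs, S, hn, d0, d2, d4⟩ := W1
  obtain ⟨hs', S', hn', d0', d2', d4'⟩ := W0
  have T := NHT.of_stack hs S
  have U := NHU.of_stack hs S
  have T' := NHT.of_stack hs' S'
  have U' := NHU.of_stack hs' S'
  obtain ⟨hk, hb, h4, hb2, hm⟩ := id hs
  obtain ⟨hk', hb', h4', hb2', hm'⟩ := id hs'
  have q4 := q 4
  have q3 := q 3
  have q2 := q 2
  have q1 := q 1
  have q0 := q 0
  generalize hN : D1.nn k m (j + 1) = n at *
  generalize hN' : D1.nn k m j = n' at *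
  generalize hM : m + (k + 2) * (j + 1) = mm at *
  generalize hM' : m + (k + 2) * j = mm' at *
  exact {
    T := nht_mv T rfl (by omega)
    T' := nht_mv T' (by omega) (by omega)
    U := nhu_mv U rfl (by omega)
    U' := nhu_mv U' (by omega) (by omega)
    d0 := cyc_of d0 (by omega) rfl
    d2 := cyc_of d2 (by omega) rfl
    d2a := cyc_of d2' (by omega) (by omega)
    d4a := cyc_of d4' (by omega) (by omega)
    c6 := cyc_of (S.l6 4) (by omega) (by omega)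
    c6a := cyc_of (S'.l6 4) (by omega) (by omega)
    c8 := cw_of (S.l8 4) (by omega) (by omega)
    lw := by
      intro M' R x y hM h1 h2 h3 h4 h5
      have e : M' = 6 * k - 1 := by omega
      rw [e]
      exact lw_zero hs S (i := R - (b + 4 * (j + 1))) (by omega) (by omega) (by omega) h4 (by omega) }

end Pool.Agent.SNT.Z34P
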