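import Pool.Agent.SNT.LocR2

set_option autoImplicit false

/-! Zones of the odd layer over an isolated even layer whose lead is far from the nominal one. -/

namespace Pool.Agent.SNT

variable {f : ℕ → ℕ → ℕ → ℕ → Prop}

namespace LocZ

open TipI

/-- The zones of `P_(B+1)` over an isolated layer `B`, with less of the row before the IN row (IN rows `ρ`, `ρ + 4`, `ρ + 8`; `K` is the
threshold at `ρ + 4`). -/
structure ZG (f : ℕ → ℕ → ℕ → ℕ → Prop) (B ρ K X T : ℕ) : Prop where
  hB : B % 2 = 0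
  h6 : 24 ≤ B
  hb2 : ρ % 2 = 0
  h4 : (B + ρ) % 4 = 2
  hT : T + B + 40 ≤ ρ
  hTh : 2 * (B / 6) + 12 ≤ T
  hTX : T + 20 ≤ X
  hXK : X + 2 * (B / 6) + 40 ≤ K
  hBK : B + ρ + 60 ≤ K
  hK2 : K % 2 = 0
  r3x : ∀ x y : ℕ, y + 2 * (B / 6) + 1 ≤ x → K - 2 < x → x < y + T → Fst B (ρ + 3) x y →
    f B (ρ + 3) x y
  C : Cyc f B (ρ + 4) K
  lw : ∀ i : ℕ, i ≤ 9 → St f (B - 1) (ρ + i) X
  fr : ∀ i : ℕ, i ≤ 9 → Fr f (B + 1) (ρ + i) X T

namespace ZG

variable {B ρ K X T : ℕ}

theorem z0 (H : ZG f B ρ K X T) {i : ℕ} (hi : i ≤ 9) : Z0 f (B - 1) (ρ + i) X (T + 3) := by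
  have h1 := H.hB; have h2 := H.hT; have h3 := H.h6
  exact Z0.of_st (by omega) (by omega) (H.lw i hi)

theorem eo (hf : Rule f) (H : ZG f B ρ K X T) {i x y : ℕ} (hi : i ≤ 9) (hi1 : 1 ≤ i)
    (hne : ¬ ((ρ + i) % 2 = 0 ∧ x % 2 = 0 ∧ y % 2 = 0)) (hx : X + 1 < max x y)
    (hd : max x y < min x y + T) : ¬ f (B + 1) (ρ + i) x y := by
  have h1 := H.hB; have h2 := H.hTX
  have e : ρ + i - 1 = ρ + (i - 1) := by omega
  refine eonly_Z hf (T := T + 3) h1 (by omega) (H.z0 hi) ?_ hne hx (by omega)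
  rw [e]
  exact H.z0 (by omega)

/-- Odd rows: static. -/
theorem odd (hf : Rule f) (H : ZG f B ρ K X T) {i : ℕ} (hi : i ≤ 9) (hi2 : i % 2 = 1) :
    St f (B + 1) (ρ + i) (X + 1) := by
  have h1 := H.hB; have h2 := H.hT; have h3 := H.hb2
  intro x y hx
  rcases Nat.lt_or_ge (max x y) (min x y + T) with h4 | h4
  · exact iff_of_false (H.eo hf hi (by omega) (by omega) hx h4)
      (Fst_near_odd (by omega) (by omega))
  · exact H.fr i hi x y (by omega) h4

/-- The IN row `ρ + 4`, exterior. -/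
theorem in4 (hf : Rule f) (H : ZG f B ρ K X T) {x y : ℕ} (hd : y + 2 * (B / 6) ≤ x)
    (hx : K < x) : f (B + 1) (ρ + 4) x y ↔ Fst (B + 1) (ρ + 4) x y := by
  have h1 := H.hB; have h2 := H.hT; have h3 := H.hb2; have h4 := H.h4; have h5 := H.hXK
  have h6 := H.hK2; have h7 := H.hTX; have h8 := H.h6; have h9 := H.hBK
  rcases Nat.lt_or_ge x (y + T) with h | h
  swap
  · exact H.fr 4 (by omega) x y (by omega) (by omega)
  refine iff_of_false ?_ (Fst_near_odd (by omega) (by omega))
  by_cases hE : x % 2 = 0 ∧ y % 2 = 0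
  swap
  · exact H.eo hf (by omega) (by omega) (by omega) (by omega) (by omega)
  rcases Nat.eq_or_lt_of_le hd with h10 | h10
  · have hc : f B (ρ + 4) (x - 1) y := by
      rw [H.C.r0 (x - 1) y (by omega), Fst_II (by omega) h1 (by omega) (by omega) (by omega)
        (by omega)]
      omega
    exact kill hf hc (by omega) (by omega) (by omega) (by omega) (by omega)
  · refine bulk_in hf (L := K - 2) (W := 2 * (B / 6) + 1) (T := T) h1 (by omega) (by omega)
      (by omega) ?_ (by omega) hE.1 hE.2 (by omega) (by omega) (by omega) h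
    intro u v h11 h12 h13 hF
    exact H.r3x u v (by omega) (by omega) h13 hF

theorem yf (hf : Rule f) (H : ZG f B ρ K X T) : ∀ u v : ℕ, v ≤ u → u % 2 = 1 → v % 2 = 0 →
    u + 1 ≤ v + 2 * (B / 6) → K + 2 < u → ¬ f B (ρ + 6) u v := by
  have h1 := H.hB; have h2 := H.hT; have h3 := H.hb2; have h4 := H.h4; have h5 := H.hXK
  have h6 := H.hK2; have h7 := H.hTX; have h8 := H.h6; have h9 := H.hBK
  intro u v h10 h11 h12 h13 h14
  refine S2_Y hf (a := B) (b := ρ + 6) (K := K) (by omega) h1 (by omega) (by omega) (by omega)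
    (by omega) ?_ ((v + 2 * (B / 6) - 1 - u) / 2) u v (by omega) h10 h11 h12 h14
  intro x y hd hx p q hp hq hpq hpa hqb
  rcases Nat.eq_zero_or_pos p with hp0 | hp0
  · subst hp0
    have hq1 : q = 1 := by omega
    subst hq1
    have e : ρ + 6 - 1 = ρ + 4 + 1 := by omega
    rw [e]
    exact H.C.r1s (by omega) x y hd hx
  · have hp1 : p = 1 := by omega
    subst hp1
    have e : ρ + 6 - q = ρ + (6 - q) := by omega
    rw [e]
    exact H.lw (6 - q) (by omega) x y (by omega)

theorem xf (hf : Rule f) (H : ZG f B ρ K X T) : ∀ u v : ℕ, v < u → u % 2 = 0 → v % 2 = 1 →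
    u + 1 ≤ v + 2 * (B / 6) → K + 4 < v → ¬ f B (ρ + 8) u v := by
  have h1 := H.hB; have h2 := H.hT; have h3 := H.hb2; have h4 := H.h4; have h5 := H.hXK
  have h6 := H.hK2; have h7 := H.hTX; have h8 := H.h6; have h9 := H.hBK
  intro u v h10 h11 h12 h13 h14
  refine S4_X hf (a := B) (b := ρ + 8) (K := K) (by omega) h1 (by omega) (by omega) (by omega)
    (by omega) ?_ ?_ ((u - v - 1) / 2) u v (by omega) h13 h12 h14
  · intro x y q hx hq
    have e : ρ + 8 - q = ρ + (8 - q) := by omega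
    rw [e]
    exact H.lw (8 - q) (by omega) x y (by omega)
  · intro x y hd hx
    have e : ρ + 8 - 1 = ρ + 4 + 3 := by omega
    rw [e]
    exact H.C.r3s x y hd hx

/-- The OUT row `ρ + 6`. -/
theorem out6 (hf : Rule f) (H : ZG f B ρ K X T) : St f (B + 1) (ρ + 6) (K + 2) := by
  have h1 := H.hB; have h2 := H.hT; have h3 := H.hb2; have h4 := H.h4; have h5 := H.hXK
  have h6 := H.hK2; have h7 := H.hTX; have h8 := H.h6; have h9 := H.hBK; have h10 := H.hTh
  intro x y hx
  rcases Nat.lt_or_ge (max x y) (min x y + T) with h | h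
  swap
  · exact H.fr 6 (by omega) x y (by omega) h
  refine iff_of_false ?_ (Fst_near_odd (by omega) (by omega))
  rcases Nat.lt_or_ge (K + 3) (max x y) with h11 | h11
  · refine zone_out hf (b := ρ + 6) (K := K) (X := X) (T := T) h1 (by omega) (by omega) (by omega)
      (by omega) (by omega) (by omega) (H.yf hf) ?_ ?_ ?_ ?_ x y h11 h
    · have e : ρ + 6 - 1 = ρ + 4 + 1 := by omega
      rw [e]
      exact H.C.r1
    · have e : ρ + 6 - 1 = ρ + 4 + 1 := by omega
      rw [e]
      exact H.C.r1s (by omega)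
    · intro u v h12 h13
      exact H.z0 (by omega) u v h12 (by omega)
    · have e : ρ + 6 - 1 = ρ + 5 := by omega
      rw [e]
      intro u v h12 h13
      exact H.z0 (by omega) u v h12 (by omega)
  · exact H.eo hf (by omega) (by omega) (by omega) (by omega) (by omega)

/-- The IN row `ρ + 8`, high part. -/
theorem in8b (hf : Rule f) (H : ZG f B ρ K X T) {x y : ℕ} (hyx : y ≤ x) (hy : K + 5 < y) :
    f (B + 1) (ρ + 8) x y ↔ Fst (B + 1) (ρ + 8) x y := by
  have h1 := H.hB; have h2 := H.hT; have h3 := H.hb2; have h4 := H.h4; have h5 := H.hXK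
  have h6 := H.hK2; have h7 := H.hTX; have h8 := H.h6; have h9 := H.hBK; have h10 := H.hTh
  rcases Nat.lt_or_ge (max x y) (min x y + T) with h | h
  swap
  · exact H.fr 8 (by omega) x y (by omega) h
  refine iff_of_false ?_ (Fst_near_odd (by omega) (by omega))
  have hcc : cc B = 2 * (B / 6) := by
    unfold cc
    omega
  have e : ρ + 8 - 1 = ρ + 4 + 3 := by omega
  refine zone_in_high hf (b := ρ + 8) (K := K) (X := X) (T := T) h1 (by omega) (by omega)
    (by omega) (by omega) (by omega) (by omega) (H.xf hf) ?_ ?_ ?_ ?_ x y (by omega) h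
  · rw [e]
    exact H.C.r3s
  · rw [e]
    have := H.C.r3
    rw [hcc] at this
    exact this
  · intro u v h12 h13
    exact H.z0 (by omega) u v h12 (by omega)
  · rw [e]
    intro u v h12 h13
    exact H.z0 (i := 7) (by omega) u v h12 (by omega)

/-- The IN row `ρ + 8`, exterior. -/
theorem in8a (hf : Rule f) (H : ZG f B ρ K X T) {x y : ℕ} (hyx : y + 2 * (B / 6) ≤ x + 1)
    (hx : K + 6 < x) : f (B + 1) (ρ + 8) x y ↔ Fst (B + 1) (ρ + 8) x y := by
  have h1 := H.hB; have h2 := H.hT; have h3 := H.hb2; have h4 := H.h4; have h5 := H.hXK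
  have h6 := H.hK2; have h7 := H.hTX; have h8 := H.h6; have h9 := H.hBK; have h10 := H.hTh
  rcases Nat.lt_or_ge (max x y) (min x y + T) with h | h
  swap
  · exact H.fr 8 (by omega) x y (by omega) h
  refine iff_of_false ?_ (Fst_near_odd (by omega) (by omega))
  have e1 : ρ + 8 - 1 = ρ + 7 := by omega
  have e2 : ρ + 8 - 2 = ρ + 6 := by omega
  refine zone_in_ext hf (b := ρ + 8) (K := K) (X := X) (T := T) h1 (by omega) (by omega)
    (by omega) (by omega) (by omega) (by omega) (by omega) h6 ?_ ?_ ?_ ?_ ?_ ?_ ?_ hyx hx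
    (by omega)
  · rw [e2]
    exact H.yf hf
  · rw [e2]
    exact H.C.r2x
  · rw [e1]
    exact H.lw 7 (by omega)
  · rw [e2]
    exact H.lw 6 (by omega)
  · intro u v h12 h13
    exact H.z0 (by omega) u v h12 (by omega)
  · rw [e1]
    intro u v h12 h13
    exact H.z0 (by omega) u v h12 (by omega)
  · rw [e2]
    intro u v h12 h13
    exact H.z0 (by omega) u v h12 (by omega)

end ZG

end LocZ

end Pool.Agent.SNT
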