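import Pool.Agent.SNT.Loc
import Pool.Agent.SNT.LocG
import Pool.Agent.SNT.LocTop

set_option autoImplicit false
set_option synthInstance.maxSize 2000
set_option maxRecDepth 4000

/-! Location of the leader `6 k + 10`: the known cells near the wall and the certificates for the
odd layer `6 k + 9`. -/

namespace Pool.Agent.SNT.ZTw

open Pool.Agent.SNT.LW Pool.Agent.SNT.Loc

theorem mv {f : ℕ → ℕ → ℕ → ℕ → Prop} {a b x y a' b' x' y' : ℕ} (h : f a b x y) (h1 : a = a')
    (h2 : b = b') (h3 : x = x') (h4 : y = y') : f a' b' x' y' := by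
  subst h1; subst h2; subst h3; subst h4; exact h

/-- The improved leads: `n` is the lead of `6 k + 10` at `b + 22`. -/
structure Imp (f : ℕ → ℕ → ℕ → ℕ → Prop) (k b n : ℕ) : Prop where
  c2 : Cyc f (6 * k + 2) (b + 18) (2 * (n - 5) + 2)
  c0 : Cyc f (6 * k) (b + 16) (2 * (n - 7) + 2)

/-- The exterior cells of a row are static: the sum modulo `4`. -/
def Gr (f : ℕ → ℕ → ℕ → ℕ → Prop) (b a r t h : ℕ) : Prop :=
  ∀ x y : ℕ, t ≤ x + 7 → y + 2 * h ≤ x → 2 * x < 2 * y + b + 60 →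
    (f a r x y ↔ (a + r + x + y) % 4 = (1 + 2 * h) % 4)

/-- The known cells; `n` is the lead of `6 k + 10` at `b + 22`. -/
structure KF (f : ℕ → ℕ → ℕ → ℕ → Prop) (k b n : ℕ) : Prop where
  hk : 8 ≤ k
  hb : b % 2 = 0
  ph : (6 * k + b) % 4 = 2
  big : 100 * k + 1000 ≤ b
  hn : 2 * b + 4 * k ≤ n
  lw : ∀ i x y : ℕ, i ≤ 100 → y ≤ x → 2 * n ≤ x + 40 → 2 * x < 2 * y + b + 60 →
    ¬ f (6 * k - 1) (b + i) x y
  g04 : Gr f b (6 * k) (b + 18) (2 * n) k
  g24 : Gr f b (6 * k + 2) (b + 18) (2 * n) k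
  g23 : Gr f b (6 * k + 2) (b + 19) (2 * n + 2) k
  g22 : Gr f b (6 * k + 2) (b + 20) (2 * n + 4) k
  g44 : Gr f b (6 * k + 4) (b + 18) (2 * n) k
  g64 : Gr f b (6 * k + 6) (b + 18) (2 * n) (k + 1)
  g63 : Gr f b (6 * k + 6) (b + 19) (2 * n + 2) (k + 1)
  g62 : Gr f b (6 * k + 6) (b + 20) (2 * n + 4) (k + 1)
  g84 : Gr f b (6 * k + 8) (b + 18) (2 * n - 8) (k + 1)
  g83 : Gr f b (6 * k + 8) (b + 19) (2 * n + 5) (k + 1)
  g82 : Gr f b (6 * k + 8) (b + 20) (2 * n + 6) (k + 1)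
  g81 : Gr f b (6 * k + 8) (b + 21) (2 * n + 8) (k + 1)
  g80 : Gr f b (6 * k + 8) (b + 22) (2 * n + 10) (k + 1)

variable {f : ℕ → ℕ → ℕ → ℕ → Prop}

theorem ext_of {a b h : ℕ} {x y : ℕ} (ha : a % 2 = 0) (h6 : 6 ≤ a) (hh : a / 6 = h)
    (hd : y + 2 * h ≤ x) (hn : x + a + 12 ≤ b + y) (H : f a b x y ↔ Fst a b x y) :
    f a b x y ↔ (a + b + x + y) % 4 = (1 + 2 * h) % 4 := by
  subst hh
  rw [H]
  exact LocG.fst_ext ha h6 (by omega) hn (Or.inl hd)

/-- The known cells from the window and the improved leads. -/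
theorem KF.of {k b m n : ℕ} (hs : Side k b m) (S : Stack6 f k b m 0 0 0 0 0 1)
    (hn : n = m + 9 + (k + 2) * 4) (I : Imp f k b n) : KF f k b n := by
  obtain ⟨hk, hb2, hb4, hbl, hm⟩ := hs
  have e4 : (k + 2) * 4 = 4 * k + 8 := by ring
  have e3 : (k + 2) * 3 = 3 * k + 6 := by ring
  rw [e4] at hn
  have A4 := S.l4 4
  have A6 := S.l6 4
  have A8 := S.l8 4
  have A8' := S.l8 3
  rw [e4] at A4 A6 A8
  rw [e3] at A8'
  have E4 : b + 4 * 4 = b + 16 := by ring
  have E6 : b + 2 + 4 * 4 = b + 18 := by ring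
  have E8 : b + 4 + 4 * 4 = b + 20 := by ring
  have E8' : b + 4 + 4 * 3 = b + 16 := by ring
  rw [E4] at A4
  rw [E6] at A6
  rw [E8] at A8
  rw [E8'] at A8'
  have mx : ∀ x y h : ℕ, y + 2 * h ≤ x → max x y = x ∧ min x y = y := by
    intro x y h hd
    exact ⟨max_eq_left (by omega), min_eq_right (by omega)⟩
  refine ⟨hk, hb2, hb4, hbl, by omega, ?_, ?_, ?_, ?_, ?_, ?_, ?_, ?_, ?_, ?_, ?_, ?_, ?_, ?_⟩
  · intro i x y hi hyx hx hnr
    rw [S.lw i hi x y (by rw [max_eq_left hyx]; omega)]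
    exact Fst_near_odd (by omega) (by rw [max_eq_left hyx, min_eq_right hyx]; omega)
  · intro x y hx hd hnr
    obtain ⟨m1, m2⟩ := mx x y k hd
    exact ext_of (by omega) (by omega) (by omega) hd (by omega)
      (I.c0.r2x x y (by rw [m1, m2]; omega) (by rw [m1]; omega))
  · intro x y hx hd hnr
    obtain ⟨m1, m2⟩ := mx x y k hd
    exact ext_of (by omega) (by omega) (by omega) hd (by omega)
      (I.c2.r0 x y (by rw [m1]; omega))
  · intro x y hx hd hnr
    obtain ⟨m1, m2⟩ := mx x y k hd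
    exact ext_of (by omega) (by omega) (by omega) hd (by omega)
      (I.c2.r1 x y (by rw [m1]; omega))
  · intro x y hx hd hnr
    obtain ⟨m1, m2⟩ := mx x y k hd
    exact ext_of (by omega) (by omega) (by omega) hd (by omega)
      (I.c2.r2x x y (by rw [m1, m2]; omega) (by rw [m1]; omega))
  · intro x y hx hd hnr
    obtain ⟨m1, m2⟩ := mx x y k hd
    exact ext_of (by omega) (by omega) (by omega) hd (by omega)
      (A4.r2x x y (by rw [m1, m2]; omega) (by rw [m1]; omega))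
  · intro x y hx hd hnr
    obtain ⟨m1, m2⟩ := mx x y (k + 1) hd
    exact ext_of (by omega) (by omega) (by omega) hd (by omega)
      (A6.r0 x y (by rw [m1]; omega))
  · intro x y hx hd hnr
    obtain ⟨m1, m2⟩ := mx x y (k + 1) hd
    exact ext_of (by omega) (by omega) (by omega) hd (by omega)
      (A6.r1 x y (by rw [m1]; omega))
  · intro x y hx hd hnr
    obtain ⟨m1, m2⟩ := mx x y (k + 1) hd
    exact ext_of (by omega) (by omega) (by omega) hd (by omega)
      (A6.r2x x y (by rw [m1, m2]; omega) (by rw [m1]; omega))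
  · intro x y hx hd hnr
    exact ext_of (by omega) (by omega) (by omega) hd (by omega)
      (A8'.w2x x y (by omega) (by omega))
  · intro x y hx hd hnr
    exact ext_of (by omega) (by omega) (by omega) hd (by omega)
      (A8'.w3x x y (by omega) (by omega))
  · intro x y hx hd hnr
    exact ext_of (by omega) (by omega) (by omega) hd (by omega)
      (A8.w0 x y (by omega) (by omega) (Or.inr (by omega)))
  · intro x y hx hd hnr
    exact ext_of (by omega) (by omega) (by omega) hd (by omega)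
      (A8.w1 x y (by omega) (by omega) (Or.inr (by omega)))
  · intro x y hx hd hnr
    exact ext_of (by omega) (by omega) (by omega) hd (by omega)
      (A8.w2x x y (by omega) (by omega))


end Pool.Agent.SNT.ZTw
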