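import Pool.Agent.SNT.ZTw

set_option autoImplicit false
set_option synthInstance.maxSize 2000
set_option maxRecDepth 4000

/-! Location of the leader `6 k + 10`: certificates for the odd layer `6 k + 9`. -/

namespace Pool.Agent.SNT.ZTw

open Pool.Agent.SNT.LW Pool.Agent.SNT.Loc

variable {f : ℕ → ℕ → ℕ → ℕ → Prop}


theorem f1w_chk : check 11 6 9 9 0 1 1 1 0
    (fun j n p q => decide ((j = 11 ∧ n = 4 ∧ p = 7 ∧ q = 7) ∨ (j = 2 ∧ n = 1 ∧ q ≤ p + 4 ∧ (p + q) % 4 = 3) ∨ (j = 4 ∧ n = 1 ∧ q ≤ p + 4 ∧ (p + q) % 4 = 1) ∨ (j = 4 ∧ n = 2 ∧ 2 ≤ p ∧ q ≤ p + 4 ∧ (p + q) % 4 = 0) ∨ (j = 4 ∧ n = 3 ∧ 4 ≤ p ∧ q ≤ p + 4 ∧ (p + q) % 4 = 3) ∨ (j = 6 ∧ n = 1 ∧ q ≤ p + 4 ∧ (p + q) % 4 = 3) ∨ (j = 8 ∧ n = 1 ∧ q ≤ p + 2 ∧ (p + q) % 4 = 3) ∨ (j = 8 ∧ n = 2 ∧ 2 ≤ p ∧ q ≤ p + 2 ∧ (p + q) % 4 = 2) ∨ (j = 8 ∧ n = 3 ∧ 4 ≤ p ∧ q ≤ p + 2 ∧ (p + q) % 4 = 1) ∨ (j = 10 ∧ n = 1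 ∧ q ≤ p + 2 ∧ (p + q) % 4 = 1) ∨ (j = 10 ∧ n = 2 ∧ 5 ≤ p ∧ q ≤ p + 2 ∧ (p + q) % 4 = 0) ∨ (j = 10 ∧ n = 3 ∧ 6 ≤ p ∧ q ≤ p + 2 ∧ (p + q) % 4 = 3) ∨ (j = 10 ∧ n = 4 ∧ 8 ≤ p ∧ q ≤ p + 2 ∧ (p + q) % 4 = 2)))
    (fun j n p q => decide ((j = 1) ∨ (j = 2 ∧ n = 1 ∧ q ≤ p + 4 ∧ (p + q) % 4 ≠ 3) ∨ (j = 4 ∧ n = 1 ∧ q ≤ p + 4 ∧ (p + q) % 4 ≠ 1) ∨ (j = 4 ∧ n = 2 ∧ 2 ≤ p ∧ q ≤ p + 4 ∧ (p + q) % 4 ≠ 0) ∨ (j = 4 ∧ n = 3 ∧ 4 ≤ p ∧ q ≤ p + 4 ∧ (p + q) % 4 ≠ 3) ∨ (j = 6 ∧ n = 1 ∧ q ≤ p + 4 ∧ (p + q) % 4 ≠ 3) ∨ (j = 8 ∧ n = 1 ∧ q ≤ p + 2 ∧ (p + q) % 4 ≠ 3) ∨ (j = 8 ∧ n = 2 ∧ 2 ≤ p ∧ q ≤ p + 2 ∧ (p + q) % 4 ≠ 2) ∨ (j = 8 ∧ n = 3 ∧ 4 ≤ p ∧ q ≤ p + 2 ∧ (p + q) % 4 ≠ 1) ∨ (j = 10 ∧ n = 1 ∧ q ≤ p + 2 ∧ (p + q) % 4 ≠ 1) ∨ (j = 10 ∧ n = 2 ∧ 5 ≤ p ∧ q ≤ p + 2 ∧ (p + q) % 4 ≠ 0) ∨ (j = 10 ∧ n = 3 ∧ 6 ≤ p ∧ q ≤ p + 2 ∧ (p + q) % 4 ≠ 3) ∨ (j = 10 ∧ n = 4 ∧ 8 ≤ p ∧ q ≤ p + 2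 ∧ (p + q) % 4 ≠ 2)))
    145
    0x29c03038f0004875a057a0006725a076500085842064400064000064401073342094b00061c000618000612000278000274000a435a070f42070b420705420278010274010246000b36000a1500083400083000082a00082600080c0008020007fe0007f80007da0007d00005ee0005ea0005e60005e40005e000046300045f00045900043b00043500043100040d00040300022200021e00021a000246010218000214000b360f0a1a870a1a070a16070a15870a150f08340f08300f082f87082f07082b07082a87082a0f08260f080c0f08020f07fe0f07f80f07da0f07d00f064487064387063b8705f38705f30705ef8705ef0705ee8705ee0f05eb0705ea8705ea0f05e98705e90705e60f05e50705e48705e40f05e00f04630f045f0f045e87045e07045a0704598704590f043b0f04350f04310f040d0f04030f027787026f87026e8702220f021e0f021d87021d07021a0f02190702188702180f02140f01a90701a88701a48701a407018507018487018107018087018007017c87017c07017b87015c87015c07015887015807015787015407015387015307015287014e87014e07012a87012a07012607012587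 = true := by
  decide +kernel

theorem f1w {f : ℕ → ℕ → ℕ → ℕ → Prop} (hf : Rule f) {a0 b0 x0 y0 : ℕ}
    (ha : a0 % 2 = 0) (hb : b0 % 2 = 1) (hx : x0 % 2 = 1) (hy : y0 % 2 = 1)
    (h1 : ∀ j n p q : ℕ, InR 11 6 9 9 1 j n p q →
      ((j = 11 ∧ n = 4 ∧ p = 7 ∧ q = 7) ∨ (j = 2 ∧ n = 1 ∧ q ≤ p + 4 ∧ (p + q) % 4 = 3) ∨ (j = 4 ∧ n = 1 ∧ q ≤ p + 4 ∧ (p + q) % 4 = 1) ∨ (j = 4 ∧ n = 2 ∧ 2 ≤ p ∧ q ≤ p + 4 ∧ (p + q) % 4 = 0) ∨ (j = 4 ∧ n = 3 ∧ 4 ≤ p ∧ q ≤ p + 4 ∧ (p + q) % 4 = 3) ∨ (j = 6 ∧ n = 1 ∧ q ≤ p + 4 ∧ (p + q) % 4 = 3) ∨ (j = 8 ∧ n = 1 ∧ q ≤ p + 2 ∧ (p + q) % 4 = 3) ∨ (j = 8 ∧ n = 2 ∧ 2 ≤ p ∧ q ≤ p + 2 ∧ (p + q) % 4 = 2) ∨ (j = 8 ∧ n = 3 ∧ 4 ≤ p ∧ q ≤ p + 2 ∧ (p + q) % 4 = 1) ∨ (j = 10 ∧ n = 1 ∧ q ≤ p + 2 ∧ (p + q) % 4 = 1) ∨ (j = 10 ∧ n = 2 ∧ 5 ≤ p ∧ q ≤ p + 2 ∧ (p + q) % 4 = 0) ∨ (j = 10 ∧ n = 3 ∧ 6 ≤ p ∧ q ≤ p + 2 ∧ (p + q) % 4 = 3) ∨ (j = 10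 ∧ n = 4 ∧ 8 ≤ p ∧ q ≤ p + 2 ∧ (p + q) % 4 = 2)) →
      f (a0 + j) (b0 + n) (x0 + p) (y0 + q))
    (h0 : ∀ j n p q : ℕ, InR 11 6 9 9 1 j n p q →
      ((j = 1) ∨ (j = 2 ∧ n = 1 ∧ q ≤ p + 4 ∧ (p + q) % 4 ≠ 3) ∨ (j = 4 ∧ n = 1 ∧ q ≤ p + 4 ∧ (p + q) % 4 ≠ 1) ∨ (j = 4 ∧ n = 2 ∧ 2 ≤ p ∧ q ≤ p + 4 ∧ (p + q) % 4 ≠ 0) ∨ (j = 4 ∧ n = 3 ∧ 4 ≤ p ∧ q ≤ p + 4 ∧ (p + q) % 4 ≠ 3) ∨ (j = 6 ∧ n = 1 ∧ q ≤ p + 4 ∧ (p + q) % 4 ≠ 3) ∨ (j = 8 ∧ n = 1 ∧ q ≤ p + 2 ∧ (p + q) % 4 ≠ 3) ∨ (j = 8 ∧ n = 2 ∧ 2 ≤ p ∧ q ≤ p + 2 ∧ (p + q) % 4 ≠ 2) ∨ (j = 8 ∧ n = 3 ∧ 4 ≤ p ∧ q ≤ p + 2 ∧ (p + q) % 4 ≠ 1) ∨ (j = 10 ∧ n = 1 ∧ q ≤ p + 2 ∧ (p + q) % 4 ≠ 1) ∨ (j = 10 ∧ n = 2 ∧ 5 ≤ p ∧ q ≤ p + 2 ∧ (p + q) % 4 ≠ 0) ∨ (j = 10 ∧ n = 3 ∧ 6 ≤ p ∧ q ≤ p + 2 ∧ (p + q) % 4 ≠ 3) ∨ (j = 10 ∧ n = 4 ∧ 8 ≤ p ∧ q ≤ p + 2 ∧ (p + q) % 4 ≠ 2)) →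
      ¬ f (a0 + j) (b0 + n) (x0 + p) (y0 + q)) : False :=
  check_sound hf f1w_chk
    ⟨fun h => absurd h (by decide), fun h => absurd h (by decide),
      fun h => absurd h (by decide), ha, hb, hx, hy⟩
    (fun j n p q hr h => h1 j n p q hr (of_decide_eq_true h))
    (fun j n p q hr h => h0 j n p q hr (of_decide_eq_true h))

theorem f1 (hf : Rule f) {k b n y D : ℕ} (K : KF f k b n)
    (hD : y + 2 * k + 2 + D = 2 * n) (hr : D % 4 = 2) (h0 : 2 ≤ D)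
    (hnr : 2 * (2 * n) < 2 * y + b + 20) : ¬ f (6 * k + 9) (b + 21) (2 * n) y := by
  have k1 := K.hk
  have k2 := K.hb
  have k3 := K.ph
  have k4 := K.big
  have k5 := K.hn
  intro goal
  refine f1w hf (a0 := 6 * k - 2) (b0 := b + 17) (x0 := 2 * n - 7) (y0 := y - 7)
    (by omega) (by omega) (by omega) (by omega) ?_ ?_
  · intro j r p q hr2 hx
    obtain ⟨i1, i2, i3, i4, i5, i6, i7, i8⟩ := hr2
    rcases hx with ⟨rfl, rfl, rfl, rfl⟩ |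
      ⟨rfl, rfl, h1, h2⟩ |
      ⟨rfl, rfl, h1, h2⟩ |
      ⟨rfl, rfl, h1, h2, h3⟩ |
      ⟨rfl, rfl, h1, h2, h3⟩ |
      ⟨rfl, rfl, h1, h2⟩ |
      ⟨rfl, rfl, h1, h2⟩ |
      ⟨rfl, rfl, h1, h2, h3⟩ |
      ⟨rfl, rfl, h1, h2, h3⟩ |
      ⟨rfl, rfl, h1, h2⟩ |
      ⟨rfl, rfl, h1, h2, h3⟩ |
      ⟨rfl, rfl, h1, h2, h3⟩ |
      ⟨rfl, rfl, h1, h2, h3⟩
    · exact mv goal (by omega) (by omega) (by omega) (by omega)
    · have e : 6 * k - 2 + 2 = 6 * k := by omega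
      have e' : b + 17 + 1 = b + 18 := by omega
      rw [e, e', K.g04 _ _ (by omega) (by omega) (by omega)]
      omega
    · have e : 6 * k - 2 + 4 = 6 * k + 2 := by omega
      have e' : b + 17 + 1 = b + 18 := by omega
      rw [e, e', K.g24 _ _ (by omega) (by omega) (by omega)]
      omega
    · have e : 6 * k - 2 + 4 = 6 * k + 2 := by omega
      have e' : b + 17 + 2 = b + 19 := by omega
      rw [e, e', K.g23 _ _ (by omega) (by omega) (by omega)]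
      omega
    · have e : 6 * k - 2 + 4 = 6 * k + 2 := by omega
      have e' : b + 17 + 3 = b + 20 := by omega
      rw [e, e', K.g22 _ _ (by omega) (by omega) (by omega)]
      omega
    · have e : 6 * k - 2 + 6 = 6 * k + 4 := by omega
      have e' : b + 17 + 1 = b + 18 := by omega
      rw [e, e', K.g44 _ _ (by omega) (by omega) (by omega)]
      omega
    · have e : 6 * k - 2 + 8 = 6 * k + 6 := by omega
      have e' : b + 17 + 1 = b + 18 := by omega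
      rw [e, e', K.g64 _ _ (by omega) (by omega) (by omega)]
      omega
    · have e : 6 * k - 2 + 8 = 6 * k + 6 := by omega
      have e' : b + 17 + 2 = b + 19 := by omega
      rw [e, e', K.g63 _ _ (by omega) (by omega) (by omega)]
      omega
    · have e : 6 * k - 2 + 8 = 6 * k + 6 := by omega
      have e' : b + 17 + 3 = b + 20 := by omega
      rw [e, e', K.g62 _ _ (by omega) (by omega) (by omega)]
      omega
    · have e : 6 * k - 2 + 10 = 6 * k + 8 := by omega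
      have e' : b + 17 + 1 = b + 18 := by omega
      rw [e, e', K.g84 _ _ (by omega) (by omega) (by omega)]
      omega
    · have e : 6 * k - 2 + 10 = 6 * k + 8 := by omega
      have e' : b + 17 + 2 = b + 19 := by omega
      rw [e, e', K.g83 _ _ (by omega) (by omega) (by omega)]
      omega
    · have e : 6 * k - 2 + 10 = 6 * k + 8 := by omega
      have e' : b + 17 + 3 = b + 20 := by omega
      rw [e, e', K.g82 _ _ (by omega) (by omega) (by omega)]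
      omega
    · have e : 6 * k - 2 + 10 = 6 * k + 8 := by omega
      have e' : b + 17 + 4 = b + 21 := by omega
      rw [e, e', K.g81 _ _ (by omega) (by omega) (by omega)]
      omega
  · intro j r p q hr2 hx
    obtain ⟨i1, i2, i3, i4, i5, i6, i7, i8⟩ := hr2
    rcases hx with rfl |
      ⟨rfl, rfl, h1, h2⟩ |
      ⟨rfl, rfl, h1, h2⟩ |
      ⟨rfl, rfl, h1, h2, h3⟩ |
      ⟨rfl, rfl, h1, h2, h3⟩ |
      ⟨rfl, rfl, h1, h2⟩ |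
      ⟨rfl, rfl, h1, h2⟩ |
      ⟨rfl, rfl, h1, h2, h3⟩ |
      ⟨rfl, rfl, h1, h2, h3⟩ |
      ⟨rfl, rfl, h1, h2⟩ |
      ⟨rfl, rfl, h1, h2, h3⟩ |
      ⟨rfl, rfl, h1, h2, h3⟩ |
      ⟨rfl, rfl, h1, h2, h3⟩
    · have e : 6 * k - 2 + 1 = 6 * k - 1 := by omega
      have e' : b + 17 + r = b + (17 + r) := by omega
      rw [e, e']
      exact K.lw _ _ _ (by omega) (by omega) (by omega) (by omega)
    · have e : 6 * k - 2 + 2 = 6 * k := by omega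
      have e' : b + 17 + 1 = b + 18 := by omega
      rw [e, e', K.g04 _ _ (by omega) (by omega) (by omega)]
      omega
    · have e : 6 * k - 2 + 4 = 6 * k + 2 := by omega
      have e' : b + 17 + 1 = b + 18 := by omega
      rw [e, e', K.g24 _ _ (by omega) (by omega) (by omega)]
      omega
    · have e : 6 * k - 2 + 4 = 6 * k + 2 := by omega
      have e' : b + 17 + 2 = b + 19 := by omega
      rw [e, e', K.g23 _ _ (by omega) (by omega) (by omega)]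
      omega
    · have e : 6 * k - 2 + 4 = 6 * k + 2 := by omega
      have e' : b + 17 + 3 = b + 20 := by omega
      rw [e, e', K.g22 _ _ (by omega) (by omega) (by omega)]
      omega
    · have e : 6 * k - 2 + 6 = 6 * k + 4 := by omega
      have e' : b + 17 + 1 = b + 18 := by omega
      rw [e, e', K.g44 _ _ (by omega) (by omega) (by omega)]
      omega
    · have e : 6 * k - 2 + 8 = 6 * k + 6 := by omega
      have e' : b + 17 + 1 = b + 18 := by omega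
      rw [e, e', K.g64 _ _ (by omega) (by omega) (by omega)]
      omega
    · have e : 6 * k - 2 + 8 = 6 * k + 6 := by omega
      have e' : b + 17 + 2 = b + 19 := by omega
      rw [e, e', K.g63 _ _ (by omega) (by omega) (by omega)]
      omega
    · have e : 6 * k - 2 + 8 = 6 * k + 6 := by omega
      have e' : b + 17 + 3 = b + 20 := by omega
      rw [e, e', K.g62 _ _ (by omega) (by omega) (by omega)]
      omega
    · have e : 6 * k - 2 + 10 = 6 * k + 8 := by omega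
      have e' : b + 17 + 1 = b + 18 := by omega
      rw [e, e', K.g84 _ _ (by omega) (by omega) (by omega)]
      omega
    · have e : 6 * k - 2 + 10 = 6 * k + 8 := by omega
      have e' : b + 17 + 2 = b + 19 := by omega
      rw [e, e', K.g83 _ _ (by omega) (by omega) (by omega)]
      omega
    · have e : 6 * k - 2 + 10 = 6 * k + 8 := by omega
      have e' : b + 17 + 3 = b + 20 := by omega
      rw [e, e', K.g82 _ _ (by omega) (by omega) (by omega)]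
      omega
    · have e : 6 * k - 2 + 10 = 6 * k + 8 := by omega
      have e' : b + 17 + 4 = b + 21 := by omega
      rw [e, e', K.g81 _ _ (by omega) (by omega) (by omega)]
      omega

theorem f2w_chk : check 11 7 11 10 0 1 1 1 0
    (fun j n p q => decide ((j = 11 ∧ n = 5 ∧ p = 9 ∧ q = 8) ∨ (j = 2 ∧ n = 1 ∧ q ≤ p + 4 ∧ (p + q) % 4 = 3) ∨ (j = 4 ∧ n = 1 ∧ q ≤ p + 4 ∧ (p + q) % 4 = 1) ∨ (j = 4 ∧ n = 2 ∧ 2 ≤ p ∧ q ≤ p + 4 ∧ (p + q) % 4 = 0) ∨ (j = 4 ∧ n = 3 ∧ 4 ≤ p ∧ q ≤ p + 4 ∧ (p + q) % 4 = 3) ∨ (j = 6 ∧ n = 1 ∧ q ≤ p + 4 ∧ (p + q) % 4 = 3) ∨ (j = 8 ∧ n = 1 ∧ q ≤ p + 2 ∧ (p + q) % 4 = 3) ∨ (j = 8 ∧ n = 2 ∧ 2 ≤ p ∧ q ≤ p + 2 ∧ (p + q) % 4 = 2) ∨ (j = 8 ∧ n = 3 ∧ 4 ≤ p ∧ q ≤ p + 2 ∧ (p + q) % 4 = 1) ∨ (j = 10 ∧ n = 1 ∧ q ≤ p + 2 ∧ (p + q) % 4 = 1) ∨ (j = 10 ∧ n = 2 ∧ 5 ≤ p ∧ q ≤ p + 2 ∧ (p + q) % 4 = 0) ∨ (j = 10 ∧ n = 3 ∧ 6 ≤ p ∧ q ≤ p + 2 ∧ (p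 + q) % 4 = 3) ∨ (j = 10 ∧ n = 4 ∧ 8 ≤ p ∧ q ≤ p + 2 ∧ (p + q) % 4 = 2) ∨ (j = 10 ∧ n = 5 ∧ 10 ≤ p ∧ q ≤ p + 2 ∧ (p + q) % 4 = 1)))
    (fun j n p q => decide ((j = 1) ∨ (j = 2 ∧ n = 1 ∧ q ≤ p + 4 ∧ (p + q) % 4 ≠ 3) ∨ (j = 4 ∧ n = 1 ∧ q ≤ p + 4 ∧ (p + q) % 4 ≠ 1) ∨ (j = 4 ∧ n = 2 ∧ 2 ≤ p ∧ q ≤ p + 4 ∧ (p + q) % 4 ≠ 0) ∨ (j = 4 ∧ n = 3 ∧ 4 ≤ p ∧ q ≤ p + 4 ∧ (p + q) % 4 ≠ 3) ∨ (j = 6 ∧ n = 1 ∧ q ≤ p + 4 ∧ (p + q) % 4 ≠ 3) ∨ (j = 8 ∧ n = 1 ∧ q ≤ p + 2 ∧ (p + q) % 4 ≠ 3) ∨ (j = 8 ∧ n = 2 ∧ 2 ≤ p ∧ q ≤ p + 2 ∧ (p + q) % 4 ≠ 2) ∨ (j = 8 ∧ n = 3 ∧ 4 ≤ p ∧ q ≤ p + 2 ∧ (p + q) % 4 ≠ 1) ∨ (j = 10 ∧ n = 1 ∧ q ≤ p + 2 ∧ (p + q) % 4 ≠ 1) ∨ (j = 10 ∧ n = 2 ∧ 5 ≤ p ∧ q ≤ p + 2 ∧ (p + q) % 4 ≠ 0) ∨ (j = 10 ∧ n = 3 ∧ 6 ≤ p ∧ q ≤ p + 2 ∧ (p + q) % 4 ≠ 3) ∨ (j = 10 ∧ n = 4 ∧ 8 ≤ p ∧ q ≤ p + 2 ∧ (p + q) % 4 ≠ 2) ∨ (j = 10 ∧ n = 5 ∧ 10 ≤ p ∧ q ≤ p + 2 ∧ (p + q) % 4 ≠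 1)))
    542
    0x3f40305750006fbda087c800a035a0b84000d05420b46830988800b0a4a04358305b680073d5a08be000a44520bc5000d46ca04358305b680073d5a08be000a44da0bc5800bc58407418007418104030004030104358305b680073d5a08be000a44da0bc5800d46c2043a0305bb000741da040800040801043a0305bb000741da04078004078404080305890005890408c2800a444a04358305b680073d5a08be0008be040bc5000bc50404038004038103c68003c68403c68304028004028407000007000103f8830579800579840704800885c20b8d0308858008858409ca830a06800a068403c68303fd8003fd840403030584000584040385000385010b88830881000881010542800542810384800384840989000989040a03000b84420d05000d0504070b00088c420ec7800a1280104e5a0b93c20d14800e95c2040383058480070b5a088c000a12da0b93800d14c20e95800e95840d10000d10010a0e000a0e0109d58009d10009cc8009c60009c18007068009d58109d10109cc8109c6010b42c207068103ff000d0e000d0980099f00099a80099880099600099400098f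80098b0009848003d18003cd0003c88003ff0103c20003bd800e8f420e8ac20b20420b1bc20b19c20b17420b15420b10c20b0c420b05c203d18103948003cd0103900003c881038b8003870003c20103bd8103808011cf001015801011000cde000cdc000cd7800cd3000cd1000cce800ccc800cc8000cc3800ca1000c9c800c9a800c98000c96000c91800c8d000c8b000c86800c6a800c66000c64000c5f800c5b000c59000c54800c5000096200095d80095b80095900095700095480095280094e0009498009478009430006d90006d48006d00006ce0006c98006c78006c50006c30006be8006a280069e00069c00069780069300069100068e80068c80068800066580066100065c80065a80065600065180064f80064b00035e00035980039481035780035500039001035300035080038b81034e80038701034a00034580038081034380033f0011cf0f104d8710170710168710158f10120710118710110f0d41870cde0f0cdd870cdd070cdc0f0cd9070cd8870cd8070cd78f0cd7070cd6870cd4070cd3870cd30f0cd2870cd2070cd1870cd10f0cce8f0cce070ccd870ccd070ccc8f0cc9070cc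8870cc80f0cc38f0ca10f0c9c8f0c9a8f0c980f0c960f0c918f0c8d0f0c8b0f0c868f0c6a8f0c660f0c640f0c5f8f0c5b0f0c590f0c548f0c500f0a3f870a3e8709db8709d18709d08709cf8709c78709c68709c58709bc8709680709678709638709630709628709620f096187096107095f07095e87095e07095d8f095d07095c87095c07095b8f095a0709598709590f09588709580709578709570f09548f09540709538709530709528f095207095187094f07094e87094e0f094d87094d07094c8709498f09488709480709478f09430f073c8706d90f06d48f06d40706d38706d00f06cf8706cf0706ce8706ce0f06cd8706cd0706ca8706ca0706c98f06c90706c88706c80706c78f06c50f06c48706c40706c38706c30f06bf8706bf0706be8f06a28f069e0f069c0f06978f06930f06910f068e8f068c8f06880f06658f06610f065c8f065a8f06560f06518f064f8f064b0f04398704308703cc8703cb8703c38703c28703c18703b88703b787035e0f035d87035d0703598f03590703588703580703578f03550f03548703540703538703530f03508f035007034f87034f07034e8f034e0703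4d87034b07034a87034a0f03498703490703488703458f03448703440703438f033f0f02b90702b88702b48702b40702b38702af8702af07028707028687028287028207028187027e07027d87027d07027c87027907027887027807027787027707027307027287027207026e07026d87025087025007024f87024c07024b87024b07024a87024787024707024687024607024587024507024287024207024187024107024087024007023c87023c07023b87023b07023787023707023687021987021907021507021487021407021387021307021087021007020f87020f07020e87020e07020b87020b07020a87020a0702098702090702060702058702050702048702040702038702010702008702000701ff8701ff0701fe8701fa8701fa0701dc8701dc0701d80701d78701d70701d38701d30701d28701cf0701ce8701ce0701cd0701cc8701ca0701c98701c88701c80701c78701c38701c307 = true := by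
  decide +kernel

theorem f2w {f : ℕ → ℕ → ℕ → ℕ → Prop} (hf : Rule f) {a0 b0 x0 y0 : ℕ}
    (ha : a0 % 2 = 0) (hb : b0 % 2 = 1) (hx : x0 % 2 = 1) (hy : y0 % 2 = 1)
    (h1 : ∀ j n p q : ℕ, InR 11 7 11 10 1 j n p q →
      ((j = 11 ∧ n = 5 ∧ p = 9 ∧ q = 8) ∨ (j = 2 ∧ n = 1 ∧ q ≤ p + 4 ∧ (p + q) % 4 = 3) ∨ (j = 4 ∧ n = 1 ∧ q ≤ p + 4 ∧ (p + q) % 4 = 1) ∨ (j = 4 ∧ n = 2 ∧ 2 ≤ p ∧ q ≤ p + 4 ∧ (p + q) % 4 = 0) ∨ (j = 4 ∧ n = 3 ∧ 4 ≤ p ∧ q ≤ p + 4 ∧ (p + q) % 4 = 3) ∨ (j = 6 ∧ n = 1 ∧ q ≤ p + 4 ∧ (p + q) % 4 = 3) ∨ (j = 8 ∧ n = 1 ∧ q ≤ p + 2 ∧ (p + q) % 4 = 3) ∨ (j = 8 ∧ n = 2 ∧ 2 ≤ p ∧ q ≤ p + 2 ∧ (p + q) % 4 = 2) ∨ (j = 8 ∧ n = 3 ∧ 4 ≤ p ∧ q ≤ p + 2 ∧ (p + q) % 4 = 1) ∨ (j = 10 ∧ n = 1 ∧ q ≤ p + 2 ∧ (p + q) % 4 = 1) ∨ (j = 10 ∧ n = 2 ∧ 5 ≤ p ∧ q ≤ p + 2 ∧ (p + q) % 4 = 0) ∨ (j = 10 ∧ n = 3 ∧ 6 ≤ p ∧ q ≤ p + 2 ∧ (p + q) % 4 = 3) ∨ (j = 10 ∧ n = 4 ∧ 8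 ≤ p ∧ q ≤ p + 2 ∧ (p + q) % 4 = 2) ∨ (j = 10 ∧ n = 5 ∧ 10 ≤ p ∧ q ≤ p + 2 ∧ (p + q) % 4 = 1)) →
      f (a0 + j) (b0 + n) (x0 + p) (y0 + q))
    (h0 : ∀ j n p q : ℕ, InR 11 7 11 10 1 j n p q →
      ((j = 1) ∨ (j = 2 ∧ n = 1 ∧ q ≤ p + 4 ∧ (p + q) % 4 ≠ 3) ∨ (j = 4 ∧ n = 1 ∧ q ≤ p + 4 ∧ (p + q) % 4 ≠ 1) ∨ (j = 4 ∧ n = 2 ∧ 2 ≤ p ∧ q ≤ p + 4 ∧ (p + q) % 4 ≠ 0) ∨ (j = 4 ∧ n = 3 ∧ 4 ≤ p ∧ q ≤ p + 4 ∧ (p + q) % 4 ≠ 3) ∨ (j = 6 ∧ n = 1 ∧ q ≤ p + 4 ∧ (p + q) % 4 ≠ 3) ∨ (j = 8 ∧ n = 1 ∧ q ≤ p + 2 ∧ (p + q) % 4 ≠ 3) ∨ (j = 8 ∧ n = 2 ∧ 2 ≤ p ∧ q ≤ p + 2 ∧ (p + q) % 4 ≠ 2) ∨ (j = 8 ∧ n = 3 ∧ 4 ≤ p ∧ q ≤ p + 2 ∧ (p + q) % 4 ≠ 1) ∨ (j = 10 ∧ n = 1 ∧ q ≤ p + 2 ∧ (p + q) % 4 ≠ 1) ∨ (j = 10 ∧ n = 2 ∧ 5 ≤ p ∧ q ≤ p + 2 ∧ (p + q) % 4 ≠ 0) ∨ (j = 10 ∧ n = 3 ∧ 6 ≤ p ∧ q ≤ p + 2 ∧ (p + q) % 4 ≠ 3) ∨ (j = 10 ∧ n = 4 ∧ 8 ≤ p ∧ q ≤ p + 2 ∧ (p + q) % 4 ≠ 2) ∨ (j = 10 ∧ n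 = 5 ∧ 10 ≤ p ∧ q ≤ p + 2 ∧ (p + q) % 4 ≠ 1)) →
      ¬ f (a0 + j) (b0 + n) (x0 + p) (y0 + q)) : False :=
  check_sound hf f2w_chk
    ⟨fun h => absurd h (by decide), fun h => absurd h (by decide),
      fun h => absurd h (by decide), ha, hb, hx, hy⟩
    (fun j n p q hr h => h1 j n p q hr (of_decide_eq_true h))
    (fun j n p q hr h => h0 j n p q hr (of_decide_eq_true h))

theorem f2 (hf : Rule f) {k b n y D : ℕ} (K : KF f k b n)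
    (hD : y + 2 * k + 2 + D = 2 * n + 2) (hr : D % 4 = 3) (h0 : 3 ≤ D)
    (hnr : 2 * (2 * n + 2) < 2 * y + b + 20) : ¬ f (6 * k + 9) (b + 22) (2 * n + 2) y := by
  have k1 := K.hk
  have k2 := K.hb
  have k3 := K.ph
  have k4 := K.big
  have k5 := K.hn
  intro goal
  refine f2w hf (a0 := 6 * k - 2) (b0 := b + 17) (x0 := 2 * n - 7) (y0 := y - 8)
    (by omega) (by omega) (by omega) (by omega) ?_ ?_
  · intro j r p q hr2 hx
    obtain ⟨i1, i2, i3, i4, i5, i6, i7, i8⟩ := hr2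
    rcases hx with ⟨rfl, rfl, rfl, rfl⟩ |
      ⟨rfl, rfl, h1, h2⟩ |
      ⟨rfl, rfl, h1, h2⟩ |
      ⟨rfl, rfl, h1, h2, h3⟩ |
      ⟨rfl, rfl, h1, h2, h3⟩ |
      ⟨rfl, rfl, h1, h2⟩ |
      ⟨rfl, rfl, h1, h2⟩ |
      ⟨rfl, rfl, h1, h2, h3⟩ |
      ⟨rfl, rfl, h1, h2, h3⟩ |
      ⟨rfl, rfl, h1, h2⟩ |
      ⟨rfl, rfl, h1, h2, h3⟩ |
      ⟨rfl, rfl, h1, h2, h3⟩ |
      ⟨rfl, rfl, h1, h2, h3⟩ |
      ⟨rfl, rfl, h1, h2, h3⟩
    · exact mv goal (by omega) (by omega) (by omega) (by omega)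
    · have e : 6 * k - 2 + 2 = 6 * k := by omega
      have e' : b + 17 + 1 = b + 18 := by omega
      rw [e, e', K.g04 _ _ (by omega) (by omega) (by omega)]
      omega
    · have e : 6 * k - 2 + 4 = 6 * k + 2 := by omega
      have e' : b + 17 + 1 = b + 18 := by omega
      rw [e, e', K.g24 _ _ (by omega) (by omega) (by omega)]
      omega
    · have e : 6 * k - 2 + 4 = 6 * k + 2 := by omega
      have e' : b + 17 + 2 = b + 19 := by omega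
      rw [e, e', K.g23 _ _ (by omega) (by omega) (by omega)]
      omega
    · have e : 6 * k - 2 + 4 = 6 * k + 2 := by omega
      have e' : b + 17 + 3 = b + 20 := by omega
      rw [e, e', K.g22 _ _ (by omega) (by omega) (by omega)]
      omega
    · have e : 6 * k - 2 + 6 = 6 * k + 4 := by omega
      have e' : b + 17 + 1 = b + 18 := by omega
      rw [e, e', K.g44 _ _ (by omega) (by omega) (by omega)]
      omega
    · have e : 6 * k - 2 + 8 = 6 * k + 6 := by omega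
      have e' : b + 17 + 1 = b + 18 := by omega
      rw [e, e', K.g64 _ _ (by omega) (by omega) (by omega)]
      omega
    · have e : 6 * k - 2 + 8 = 6 * k + 6 := by omega
      have e' : b + 17 + 2 = b + 19 := by omega
      rw [e, e', K.g63 _ _ (by omega) (by omega) (by omega)]
      omega
    · have e : 6 * k - 2 + 8 = 6 * k + 6 := by omega
      have e' : b + 17 + 3 = b + 20 := by omega
      rw [e, e', K.g62 _ _ (by omega) (by omega) (by omega)]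
      omega
    · have e : 6 * k - 2 + 10 = 6 * k + 8 := by omega
      have e' : b + 17 + 1 = b + 18 := by omega
      rw [e, e', K.g84 _ _ (by omega) (by omega) (by omega)]
      omega
    · have e : 6 * k - 2 + 10 = 6 * k + 8 := by omega
      have e' : b + 17 + 2 = b + 19 := by omega
      rw [e, e', K.g83 _ _ (by omega) (by omega) (by omega)]
      omega
    · have e : 6 * k - 2 + 10 = 6 * k + 8 := by omega
      have e' : b + 17 + 3 = b + 20 := by omega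
      rw [e, e', K.g82 _ _ (by omega) (by omega) (by omega)]
      omega
    · have e : 6 * k - 2 + 10 = 6 * k + 8 := by omega
      have e' : b + 17 + 4 = b + 21 := by omega
      rw [e, e', K.g81 _ _ (by omega) (by omega) (by omega)]
      omega
    · have e : 6 * k - 2 + 10 = 6 * k + 8 := by omega
      have e' : b + 17 + 5 = b + 22 := by omega
      rw [e, e', K.g80 _ _ (by omega) (by omega) (by omega)]
      omega
  · intro j r p q hr2 hx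
    obtain ⟨i1, i2, i3, i4, i5, i6, i7, i8⟩ := hr2
    rcases hx with rfl |
      ⟨rfl, rfl, h1, h2⟩ |
      ⟨rfl, rfl, h1, h2⟩ |
      ⟨rfl, rfl, h1, h2, h3⟩ |
      ⟨rfl, rfl, h1, h2, h3⟩ |
      ⟨rfl, rfl, h1, h2⟩ |
      ⟨rfl, rfl, h1, h2⟩ |
      ⟨rfl, rfl, h1, h2, h3⟩ |
      ⟨rfl, rfl, h1, h2, h3⟩ |
      ⟨rfl, rfl, h1, h2⟩ |
      ⟨rfl, rfl, h1, h2, h3⟩ |
      ⟨rfl, rfl, h1, h2, h3⟩ |
      ⟨rfl, rfl, h1, h2, h3⟩ |
      ⟨rfl, rfl, h1, h2, h3⟩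
    · have e : 6 * k - 2 + 1 = 6 * k - 1 := by omega
      have e' : b + 17 + r = b + (17 + r) := by omega
      rw [e, e']
      exact K.lw _ _ _ (by omega) (by omega) (by omega) (by omega)
    · have e : 6 * k - 2 + 2 = 6 * k := by omega
      have e' : b + 17 + 1 = b + 18 := by omega
      rw [e, e', K.g04 _ _ (by omega) (by omega) (by omega)]
      omega
    · have e : 6 * k - 2 + 4 = 6 * k + 2 := by omega
      have e' : b + 17 + 1 = b + 18 := by omega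
      rw [e, e', K.g24 _ _ (by omega) (by omega) (by omega)]
      omega
    · have e : 6 * k - 2 + 4 = 6 * k + 2 := by omega
      have e' : b + 17 + 2 = b + 19 := by omega
      rw [e, e', K.g23 _ _ (by omega) (by omega) (by omega)]
      omega
    · have e : 6 * k - 2 + 4 = 6 * k + 2 := by omega
      have e' : b + 17 + 3 = b + 20 := by omega
      rw [e, e', K.g22 _ _ (by omega) (by omega) (by omega)]
      omega
    · have e : 6 * k - 2 + 6 = 6 * k + 4 := by omega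
      have e' : b + 17 + 1 = b + 18 := by omega
      rw [e, e', K.g44 _ _ (by omega) (by omega) (by omega)]
      omega
    · have e : 6 * k - 2 + 8 = 6 * k + 6 := by omega
      have e' : b + 17 + 1 = b + 18 := by omega
      rw [e, e', K.g64 _ _ (by omega) (by omega) (by omega)]
      omega
    · have e : 6 * k - 2 + 8 = 6 * k + 6 := by omega
      have e' : b + 17 + 2 = b + 19 := by omega
      rw [e, e', K.g63 _ _ (by omega) (by omega) (by omega)]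
      omega
    · have e : 6 * k - 2 + 8 = 6 * k + 6 := by omega
      have e' : b + 17 + 3 = b + 20 := by omega
      rw [e, e', K.g62 _ _ (by omega) (by omega) (by omega)]
      omega
    · have e : 6 * k - 2 + 10 = 6 * k + 8 := by omega
      have e' : b + 17 + 1 = b + 18 := by omega
      rw [e, e', K.g84 _ _ (by omega) (by omega) (by omega)]
      omega
    · have e : 6 * k - 2 + 10 = 6 * k + 8 := by omega
      have e' : b + 17 + 2 = b + 19 := by omega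
      rw [e, e', K.g83 _ _ (by omega) (by omega) (by omega)]
      omega
    · have e : 6 * k - 2 + 10 = 6 * k + 8 := by omega
      have e' : b + 17 + 3 = b + 20 := by omega
      rw [e, e', K.g82 _ _ (by omega) (by omega) (by omega)]
      omega
    · have e : 6 * k - 2 + 10 = 6 * k + 8 := by omega
      have e' : b + 17 + 4 = b + 21 := by omega
      rw [e, e', K.g81 _ _ (by omega) (by omega) (by omega)]
      omega
    · have e : 6 * k - 2 + 10 = 6 * k + 8 := by omega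
      have e' : b + 17 + 5 = b + 22 := by omega
      rw [e, e', K.g80 _ _ (by omega) (by omega) (by omega)]
      omega

theorem f7w_chk : check 2 6 5 6 1 0 0 0 0
    (fun j n p q => decide ((j = 2 ∧ n = 4 ∧ p = 3 ∧ q = 4) ∨ (j = 1 ∧ n = 1 ∧ q ≤ p + 2 ∧ (p + q) % 4 = 0) ∨ (j = 1 ∧ n = 2 ∧ q ≤ p + 2 ∧ (p + q) % 4 = 3)))
    (fun j n p q => decide ((j = 1 ∧ n = 1 ∧ q ≤ p + 2 ∧ (p + q) % 4 ≠ 0) ∨ (j = 1 ∧ n = 2 ∧ q ≤ p + 2 ∧ (p + q) % 4 ≠ 3)))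
    15
    0xeb8300fb00007e80007c00007000006d8000fb0f008287008207007f87007f07007e8f007c0f00700f006d8f = true := by
  decide +kernel

theorem f7w {f : ℕ → ℕ → ℕ → ℕ → Prop} (hf : Rule f) {a0 b0 x0 y0 : ℕ}
    (ha : a0 % 2 = 1) (hb : b0 % 2 = 0) (hx : x0 % 2 = 0) (hy : y0 % 2 = 0)
    (h1 : ∀ j n p q : ℕ, InR 2 6 5 6 1 j n p q →
      ((j = 2 ∧ n = 4 ∧ p = 3 ∧ q = 4) ∨ (j = 1 ∧ n = 1 ∧ q ≤ p + 2 ∧ (p + q) % 4 = 0) ∨ (j = 1 ∧ n = 2 ∧ q ≤ p + 2 ∧ (p + q) % 4 = 3)) →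
      f (a0 + j) (b0 + n) (x0 + p) (y0 + q))
    (h0 : ∀ j n p q : ℕ, InR 2 6 5 6 1 j n p q →
      ((j = 1 ∧ n = 1 ∧ q ≤ p + 2 ∧ (p + q) % 4 ≠ 0) ∨ (j = 1 ∧ n = 2 ∧ q ≤ p + 2 ∧ (p + q) % 4 ≠ 3)) →
      ¬ f (a0 + j) (b0 + n) (x0 + p) (y0 + q)) : False :=
  check_sound hf f7w_chk
    ⟨fun h => absurd h (by decide), fun h => absurd h (by decide),
      fun h => absurd h (by decide), ha, hb, hx, hy⟩
    (fun j n p q hr h => h1 j n p q hr (of_decide_eq_true h))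
    (fun j n p q hr h => h0 j n p q hr (of_decide_eq_true h))

theorem f7 (hf : Rule f) {k b n y D : ℕ} (K : KF f k b n)
    (hD : y + 2 * k + 2 + D = 2 * n + 7) (hr : D % 4 = 1) (h0 : 1 ≤ D)
    (hnr : 2 * (2 * n + 7) < 2 * y + b + 20) : ¬ f (6 * k + 9) (b + 24) (2 * n + 7) y := by
  have k1 := K.hk
  have k2 := K.hb
  have k3 := K.ph
  have k4 := K.big
  have k5 := K.hn
  intro goal
  refine f7w hf (a0 := 6 * k + 7) (b0 := b + 20) (x0 := 2 * n + 4) (y0 := y - 4)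
    (by omega) (by omega) (by omega) (by omega) ?_ ?_
  · intro j r p q hr2 hx
    obtain ⟨i1, i2, i3, i4, i5, i6, i7, i8⟩ := hr2
    rcases hx with ⟨rfl, rfl, rfl, rfl⟩ |
      ⟨rfl, rfl, h1, h2⟩ |
      ⟨rfl, rfl, h1, h2⟩
    · exact mv goal (by omega) (by omega) (by omega) (by omega)
    · have e : 6 * k + 7 + 1 = 6 * k + 8 := by omega
      have e' : b + 20 + 1 = b + 21 := by omega
      rw [e, e', K.g81 _ _ (by omega) (by omega) (by omega)]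
      omega
    · have e : 6 * k + 7 + 1 = 6 * k + 8 := by omega
      have e' : b + 20 + 2 = b + 22 := by omega
      rw [e, e', K.g80 _ _ (by omega) (by omega) (by omega)]
      omega
  · intro j r p q hr2 hx
    obtain ⟨i1, i2, i3, i4, i5, i6, i7, i8⟩ := hr2
    rcases hx with ⟨rfl, rfl, h1, h2⟩ |
      ⟨rfl, rfl, h1, h2⟩
    · have e : 6 * k + 7 + 1 = 6 * k + 8 := by omega
      have e' : b + 20 + 1 = b + 21 := by omega
      rw [e, e', K.g81 _ _ (by omega) (by omega) (by omega)]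
      omega
    · have e : 6 * k + 7 + 1 = 6 * k + 8 := by omega
      have e' : b + 20 + 2 = b + 22 := by omega
      rw [e, e', K.g80 _ _ (by omega) (by omega) (by omega)]
      omega

theorem f8w_chk : check 2 6 5 6 1 0 1 1 0
    (fun j n p q => decide ((j = 2 ∧ n = 4 ∧ p = 3 ∧ q = 4) ∨ (j = 1 ∧ n = 1 ∧ q ≤ p + 4 ∧ (p + q) % 4 = 0) ∨ (j = 1 ∧ n = 2 ∧ q ≤ p + 4 ∧ (p + q) % 4 = 3)))
    (fun j n p q => decide ((j = 1 ∧ n = 1 ∧ q ≤ p + 4 ∧ (p + q) % 4 ≠ 0) ∨ (j = 1 ∧ n = 2 ∧ q ≤ p + 4 ∧ (p + q) % 4 ≠ 3)))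
    15
    0xeb8300fb00007e80007c00007000006d8000fb0f008287008207007f87007f07007e8f007c0f00700f006d8f = true := by
  decide +kernel

theorem f8w {f : ℕ → ℕ → ℕ → ℕ → Prop} (hf : Rule f) {a0 b0 x0 y0 : ℕ}
    (ha : a0 % 2 = 1) (hb : b0 % 2 = 0) (hx : x0 % 2 = 1) (hy : y0 % 2 = 1)
    (h1 : ∀ j n p q : ℕ, InR 2 6 5 6 1 j n p q →
      ((j = 2 ∧ n = 4 ∧ p = 3 ∧ q = 4) ∨ (j = 1 ∧ n = 1 ∧ q ≤ p + 4 ∧ (p + q) % 4 = 0) ∨ (j = 1 ∧ n = 2 ∧ q ≤ p + 4 ∧ (p + q) % 4 = 3)) →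
      f (a0 + j) (b0 + n) (x0 + p) (y0 + q))
    (h0 : ∀ j n p q : ℕ, InR 2 6 5 6 1 j n p q →
      ((j = 1 ∧ n = 1 ∧ q ≤ p + 4 ∧ (p + q) % 4 ≠ 0) ∨ (j = 1 ∧ n = 2 ∧ q ≤ p + 4 ∧ (p + q) % 4 ≠ 3)) →
      ¬ f (a0 + j) (b0 + n) (x0 + p) (y0 + q)) : False :=
  check_sound hf f8w_chk
    ⟨fun h => absurd h (by decide), fun h => absurd h (by decide),
      fun h => absurd h (by decide), ha, hb, hx, hy⟩
    (fun j n p q hr h => h1 j n p q hr (of_decide_eq_true h))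
    (fun j n p q hr h => h0 j n p q hr (of_decide_eq_true h))

theorem f8 (hf : Rule f) {k b n y D : ℕ} (K : KF f k b n)
    (hD : y + 2 * k + 2 + D = 2 * n + 8) (hr : D % 4 = 3) (h0 : 3 ≤ D)
    (hnr : 2 * (2 * n + 8) < 2 * y + b + 20) : ¬ f (6 * k + 9) (b + 24) (2 * n + 8) y := by
  have k1 := K.hk
  have k2 := K.hb
  have k3 := K.ph
  have k4 := K.big
  have k5 := K.hn
  intro goal
  refine f8w hf (a0 := 6 * k + 7) (b0 := b + 20) (x0 := 2 * n + 5) (y0 := y - 4)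
    (by omega) (by omega) (by omega) (by omega) ?_ ?_
  · intro j r p q hr2 hx
    obtain ⟨i1, i2, i3, i4, i5, i6, i7, i8⟩ := hr2
    rcases hx with ⟨rfl, rfl, rfl, rfl⟩ |
      ⟨rfl, rfl, h1, h2⟩ |
      ⟨rfl, rfl, h1, h2⟩
    · exact mv goal (by omega) (by omega) (by omega) (by omega)
    · have e : 6 * k + 7 + 1 = 6 * k + 8 := by omega
      have e' : b + 20 + 1 = b + 21 := by omega
      rw [e, e', K.g81 _ _ (by omega) (by omega) (by omega)]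
      omega
    · have e : 6 * k + 7 + 1 = 6 * k + 8 := by omega
      have e' : b + 20 + 2 = b + 22 := by omega
      rw [e, e', K.g80 _ _ (by omega) (by omega) (by omega)]
      omega
  · intro j r p q hr2 hx
    obtain ⟨i1, i2, i3, i4, i5, i6, i7, i8⟩ := hr2
    rcases hx with ⟨rfl, rfl, h1, h2⟩ |
      ⟨rfl, rfl, h1, h2⟩
    · have e : 6 * k + 7 + 1 = 6 * k + 8 := by omega
      have e' : b + 20 + 1 = b + 21 := by omega
      rw [e, e', K.g81 _ _ (by omega) (by omega) (by omega)]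
      omega
    · have e : 6 * k + 7 + 1 = 6 * k + 8 := by omega
      have e' : b + 20 + 2 = b + 22 := by omega
      rw [e, e', K.g80 _ _ (by omega) (by omega) (by omega)]
      omega

end Pool.Agent.SNT.ZTw
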