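import Pool.Agent.SNT.K0L2
import Pool.Agent.SNT.NHZone2

set_option autoImplicit false
set_option synthInstance.maxSize 100000
set_option synthInstance.maxHeartbeats 4000000

/-! The wall cell `d = 2 k - 2` of the line `y = 2 n + 2` of `P_(6k+1)` in the row `c + 2`: near-wall windows. -/

namespace Pool.Agent.SNT.ZaW

open Pool.Agent.SNT Pool.Agent.SNT.Loc Pool.Agent.SNT.LW Pool.Agent.SNT.NHZ

variable {f : ℕ → ℕ → ℕ → ℕ → Prop}

theorem zZ_r1i (hf : Rule f) {k c N M R x y p j : ℕ} (h : NHT f k c N) (hR : R = c + 1) (hj : j ≤ 5) (hp : p ≤ 1)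
    (hL : M + 2 * j = 6 * k + 10 + p) (hx : N + 3 ≤ x) (h1 : y + 1 + j ≤ x) (h2 : x + 2 + j ≤ y + 2 * k) :
    ¬ f M R x y := by
  subst hR
  exact h.r1i hf hj hp hL hx h1 h2

theorem uP0 (hf : Rule f) {k c N M R x y j : ℕ} (h : NHU f k c N) (hj : j ≤ 0) (hL : M + 1 + 2 * j = 6 * k + 6)
    (hR : R + 5 = c ∨ R + 4 = c) (hx : N ≤ x + 8) (h1 : y + 1 + j ≤ x) (h2 : x + j ≤ y + 2 * k) : ¬ f M R x y :=
  h.I.P hf (t := 0) (s := 0) (j := j) (q := c - 4 - R) (by omega) (by omega) (by omega) (by omega)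
    (by have := h.hb; omega) (by unfold XU; rw [if_pos (by omega)]; have := h.hN2; omega) (by have := h.hN2; omega)
    (by omega) (by omega)

theorem uP1 (hf : Rule f) {k c N M R x y j : ℕ} (h : NHU f k c N) (hj : j ≤ 1) (hL : M + 1 + 2 * j = 6 * k + 8)
    (hR : R + 3 = c ∨ R + 2 = c) (hx : N ≤ x + 2) (h1 : y + 1 + j ≤ x) (h2 : x + j ≤ y + 2 * k) : ¬ f M R x y :=
  h.pmi hf hj hL hR hx h1 h2

theorem uP2 (hf : Rule f) {k c N M R x y j : ℕ} (h : NHU f k c N) (hj : j ≤ 2) (hL : M + 1 + 2 * j = 6 * k + 10)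
    (hR : R + 1 = c ∨ R = c) (hx : N + 4 ≤ x) (h1 : y + 1 + j ≤ x) (h2 : x + j ≤ y + 2 * k) : ¬ f M R x y :=
  h.p0i hf hj hL hR hx h1 h2

theorem uA0 (hf : Rule f) {k c N M R x y p j : ℕ} (h : NHU f k c N) (hR : R + 3 = c) (hj : j ≤ 0) (hp : p ≤ 1)
    (hL : M + 2 * j = 6 * k + 6 + p) (hx : N ≤ x + 7) (h1 : y + 1 + j ≤ x) (h2 : x + j ≤ y + 2 * k) : ¬ f M R x y :=
  h.I.after hf (t := 0) (s := 0) (j := j) (p := p) (q := 1) (by omega) (by omega) hp le_rfl (by omega) (by omega)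
    (by have := h.hb; omega) (by unfold XU; rw [if_pos (by omega)]; have := h.hN2; omega)
    (by have := h.hN2; omega) (by omega) (by omega)

theorem uA1 (hf : Rule f) {k c N M R x y p j : ℕ} (h : NHU f k c N) (hR : R + 1 = c) (hj : j ≤ 1) (hp : p ≤ 1)
    (hL : M + 2 * j = 6 * k + 8 + p) (hx : N ≤ x + 1) (h1 : y + 1 + j ≤ x) (h2 : x + j ≤ y + 2 * k) : ¬ f M R x y := by
  have e : R = c - 1 := by omega
  subst e
  exact h.rm1i hf hj hp hL hx h1 h2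

theorem uA2 (hf : Rule f) {k c N M R x y p j : ℕ} (h : NHU f k c N) (hR : R = c + 1) (hj : j ≤ 2) (hp : p ≤ 1)
    (hL : M + 2 * j = 6 * k + 10 + p) (hx : N + 5 ≤ x) (h1 : y + 1 + j ≤ x) (h2 : x + j ≤ y + 2 * k) : ¬ f M R x y := by
  subst hR
  exact h.r1i hf hj hp hL hx h1 h2

theorem wa_chk : check 7 7 15 16 1 1 0 0 0
    (fun j n p q => decide ((j = 1 ∧ n = 1 ∧ 3 ≤ p ∧ (((p + q) % 2 = 1 ∧ p ≤ q + 1 ∧ p % 2 = 1) ∨ ((p + q) % 2 = 1 ∧ q + 1 ≤ p ∧ (p + q + 3) % 4 = 0)))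
      ∨ (j = 3 ∧ n = 4 ∧ ((11 ≤ p) ∨ (p ≤ q + 2 ∧ 10 ≤ p)) ∧ ((p + q) % 2 = 0 ∧ q + 2 ≤ p ∧ (p + q) % 4 = 0))
      ∨ (j = 3 ∧ n = 5 ∧ q + 2 ≤ p ∧ 13 ≤ p ∧ (((p + q) % 2 = 1 ∧ p ≤ q + 1 ∧ p % 2 = 0) ∨ ((p + q) % 2 = 1 ∧ q + 1 ≤ p ∧ (p + q + 1) % 4 = 0)))
      ∨ (j = 3 ∧ n = 1 ∧ ((5 ≤ p) ∨ (q + 2 ≤ p) ∨ (p ≤ q + 1 ∧ 4 ≤ q)) ∧ (((p + q) % 2 = 1 ∧ p ≤ q + 1 ∧ p % 2 = 0) ∨ ((p + q) % 2 = 1 ∧ q + 1 ≤ p ∧ (p + q + 1) % 4 = 0)))
      ∨ (j = 3 ∧ n = 3 ∧ 9 ≤ p ∧ (((p + q) % 2 = 1 ∧ p ≤ q + 1 ∧ p % 2 = 1) ∨ ((p + q) % 2 = 1 ∧ q + 1 ≤ p ∧ (p + q + 3) % 4 = 0)))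
      ∨ (j = 5 ∧ n = 1 ∧ (((p + q) % 2 = 1 ∧ p ≤ q + 1 ∧ p % 2 = 1) ∨ ((p + q) % 2 = 1 ∧ q + 1 ≤ p ∧ (p + q + 3) % 4 = 0)))
      ∨ (j = 5 ∧ n = 2 ∧ ((p + q) % 2 = 0 ∧ q + 2 ≤ p ∧ (p + q) % 4 = 0))
      ∨ (j = 7 ∧ n = 5 ∧ q + 4 ≤ p ∧ 7 ≤ p ∧ (((p + q) % 2 = 1 ∧ p ≤ q + 3 ∧ p % 2 = 0) ∨ ((p + q) % 2 = 1 ∧ q + 3 ≤ p ∧ (p + q + 1) % 4 = 2)))
      ∨ (j = 2 ∧ n = 5 ∧ p = 6 ∧ q = 6)))
    (fun j n p q => decide ((j = 1 ∧ n = 1 ∧ 3 ≤ p ∧ ¬ (((p + q) % 2 = 1 ∧ p ≤ q + 1 ∧ p % 2 = 1) ∨ ((p + q) % 2 = 1 ∧ q + 1 ≤ p ∧ (p + q + 3) % 4 = 0)))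
      ∨ (j = 3 ∧ n = 4 ∧ ((11 ≤ p) ∨ (p ≤ q + 2 ∧ 10 ≤ p)) ∧ ¬ ((p + q) % 2 = 0 ∧ q + 2 ≤ p ∧ (p + q) % 4 = 0))
      ∨ (j = 3 ∧ n = 5 ∧ q + 2 ≤ p ∧ 13 ≤ p ∧ ¬ (((p + q) % 2 = 1 ∧ p ≤ q + 1 ∧ p % 2 = 0) ∨ ((p + q) % 2 = 1 ∧ q + 1 ≤ p ∧ (p + q + 1) % 4 = 0)))
      ∨ (j = 3 ∧ n = 1 ∧ ((5 ≤ p) ∨ (q + 2 ≤ p) ∨ (p ≤ q + 1 ∧ 4 ≤ q)) ∧ ¬ (((p + q) % 2 = 1 ∧ p ≤ q + 1 ∧ p % 2 = 0) ∨ ((p + q) % 2 = 1 ∧ q + 1 ≤ p ∧ (p + q + 1) % 4 = 0)))
      ∨ (j = 3 ∧ n = 3 ∧ 9 ≤ p ∧ ¬ (((p + q) % 2 = 1 ∧ p ≤ q + 1 ∧ p % 2 = 1) ∨ ((p + q) % 2 = 1 ∧ q + 1 ≤ p ∧ (p + q + 3) % 4 = 0)))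
      ∨ (j = 5 ∧ n = 1 ∧ ¬ (((p + q) % 2 = 1 ∧ p ≤ q + 1 ∧ p % 2 = 1) ∨ ((p + q) % 2 = 1 ∧ q + 1 ≤ p ∧ (p + q + 3) % 4 = 0)))
      ∨ (j = 5 ∧ n = 2 ∧ ¬ ((p + q) % 2 = 0 ∧ q + 2 ≤ p ∧ (p + q) % 4 = 0))
      ∨ (j = 7 ∧ n = 5 ∧ q + 4 ≤ p ∧ 7 ≤ p ∧ ¬ (((p + q) % 2 = 1 ∧ p ≤ q + 3 ∧ p % 2 = 0) ∨ ((p + q) % 2 = 1 ∧ q + 3 ≤ p ∧ (p + q + 1) % 4 = 2)))
      ∨ (j = 2 ∧ n = 2 ∧ p + 2 ≤ q ∧ q ≤ p + 11)
      ∨ (j = 3 ∧ n = 4 ∧ 3 ≤ p ∧ p + 2 ≤ q ∧ q ≤ p + 11)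
      ∨ (j = 5 ∧ n = 4 ∧ 3 ≤ p ∧ p + 1 ≤ q ∧ q ≤ p + 12)
      ∨ (j = 6 ∧ n = 4 ∧ 8 ≤ p ∧ p ≤ q + 1 ∧ q ≤ p + 12)
      ∨ (j = 6 ∧ n = 5 ∧ 6 ≤ p ∧ p + 1 ≤ q ∧ q ≤ p + 12)
      ∨ (j = 6 ∧ n = 5 ∧ 8 ≤ p ∧ p ≤ q + 1 ∧ q ≤ p + 12)
      ∨ (j = 3 ∧ n = 5 ∧ p = 7 ∧ q = 8)))
    237
    0x924050c74800c6c420fbd4a0c64800fb4d212fc801644c2164d0312f48012f4840924050c74800c6c420fbd4a0c64800fb4d212f4801644d21304801304840c6c030c6c800c6c84154c8315c48015c484164d830fb5000fb5040ec4830f3c800f3c84164d030fb4800fb484154c0315c40015c404082b8308a38008a38408338308ab8008ab840ec5030f3d000f3d040ebc830f34800f34841655030fbc800fbc841655830fbd000fbd040ebc030f34000f3404082c0308a40008a4040ecd030f45000f4504121c831294801294840b84830bfc800bfc8415550315cd0015cd040fb40312fc0012fc040b7b830bf3800bf38415540315cc0015cc040ecc830f44800f44840b7c030bf4000bf40415558315cd8015cd840b73830beb800beb8408340308ac0008ac040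ec4030f3c000f3c0415548315cc8015cc8404728007bac20b0b000e534211a380111d00111c00111b00110d00110c00110b000b8d000b8c000a94800a93800a8a000a84800a83800a82800a74800a73800a7280091b0003fc0003fb0003f18003ec0003eb0003ea00165587165507165487164d87164d07164c87164587164507164487164407163c87163c0715dd8715dd0715dc8715d58715d50715d48713050712f407129587129507128d87128d07128c87128587128507128487128407127c87127c0712140712050712040711a48711a40711a38f119c87119c07119587119507119487119407119387118d87118d07118c87118c07118b87118487118407118387111d0f111c0f111b0f110d0f110c0f110b0f0c75070c6c070c64070bfd070bf5070bf4870bec870bec070b8d0f0b8c0f0b85070b84070b75070b74070b73070a948f0a938f0a93070a92870a8b070a8a870a8a0f0a848f0a838f0a828f0a748f0a738f0a728f091b0f07bc8707b40707ac0707ab8704e40704e30703fc0f03fb0f03fa8703fa0703f28703f20703f18f03ec0f03eb0f03ea0f = true := by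
  decide +kernel

/-- a one of `P_(6k+1)` at the distance `2 k - 2` sends a beam up the column `X` of `6 k + 2` -/
theorem wa (hf : Rule f) {k c n X : ℕ}
    (T : NHT f k c (2 * n)) (U : NHU f k c (2 * n))
    (C0a : Cyc f (6 * k) (c - 10) (2 * (n - (k + 7)) + 2)) (C2 : Cyc f (6 * k + 2) (c - 4) (2 * (n - 2) + 2))
    (C2a : Cyc f (6 * k + 2) (c - 8) (2 * (n - (k + 4)) + 2)) (C4a : Cyc f (6 * k + 4) (c - 6) (2 * (n - (k + 1)) + 2))
    (C6 : Cyc f (6 * k + 6) (c - 4) (2 * (n - 5) + 2))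
    (hX : 2 * n ≤ X + 3) (ho : X % 2 = 1)
    (h1 : ∀ {M R x y : ℕ}, M = 6 * k + 1 → R + 2 = c → x + 1 = X → y + 2 * k = X + 1 → f M R x y)
    (h0 : ∀ {M R x y : ℕ}, M = 6 * k + 2 → R + 2 = c → x = X → y + 2 * k = X + 3 → ¬ f M R x y) : False := by
  have hk := T.hk
  have hc := T.hc
  have h4 := T.h4
  have hb := T.hb
  have hN := T.hN2
  obtain ⟨a0, ha0⟩ : ∃ z, z + 1 = 6 * k := ⟨6 * k - 1, by omega⟩
  obtain ⟨b0, hb0⟩ : ∃ z, z + 7 = c := ⟨c - 7, by omega⟩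
  obtain ⟨x0, hx0⟩ : ∃ z, z + 7 = X := ⟨X - 7, by omega⟩
  obtain ⟨y0, hy0⟩ : ∃ z, z + 2 * k + 20 = X + 15 := ⟨X + 15 - 2 * k - 20, by omega⟩
  refine check_sound hf (a0 := a0) (b0 := b0) (x0 := x0) (y0 := y0) wa_chk
    ⟨fun h => absurd h (by decide), fun h => absurd h (by decide), fun h => absurd h (by decide), by omega, by omega,
      by omega, by omega⟩ ?_ ?_
  · intro j m p q hr h
    obtain ⟨-, -, hm1, hm2, hp1, hp2, hq1, hq2⟩ := hr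
    replace h := of_decide_eq_true h
    rcases h with h | h | h | h | h | h | h | h | h
    · obtain ⟨rfl, rfl, h⟩ := h
      exact (WrapC.v4 C0a (by omega) (by omega) (by omega) (by omega) (by omega) (by omega) (by omega)).mpr (by omega)
    · obtain ⟨rfl, rfl, h⟩ := h
      exact (WrapC.v1 C2 (by omega) (by omega) (by omega) (by omega) (by omega) (by omega) (by omega) (by omega)).mpr (by omega)
    · obtain ⟨rfl, rfl, h⟩ := h
      exact (WrapC.v2 C2 (by omega) (by omega) (by omega) (by omega) (by omega) (by omega) (by omega)).mpr (by omega)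
    · obtain ⟨rfl, rfl, h⟩ := h
      exact (WrapC.v2 C2a (by omega) (by omega) (by omega) (by omega) (by omega) (by omega) (by omega)).mpr (by omega)
    · obtain ⟨rfl, rfl, h⟩ := h
      exact (WrapC.v4 C2a (by omega) (by omega) (by omega) (by omega) (by omega) (by omega) (by omega)).mpr (by omega)
    · obtain ⟨rfl, rfl, h⟩ := h
      exact (WrapC.v0 C4a (by omega) (by omega) (by omega) (by omega) (by omega) (by omega) (by omega)).mpr (by omega)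
    · obtain ⟨rfl, rfl, h⟩ := h
      exact (WrapC.v1 C4a (by omega) (by omega) (by omega) (by omega) (by omega) (by omega) (by omega) (by omega)).mpr (by omega)
    · obtain ⟨rfl, rfl, h⟩ := h
      exact (WrapC.v2 C6 (by omega) (by omega) (by omega) (by omega) (by omega) (by omega) (by omega)).mpr (by omega)
    · obtain ⟨rfl, rfl, rfl, rfl⟩ := h
      exact h1 (by omega) (by omega) (by omega) (by omega)
  · intro j m p q hr h
    obtain ⟨-, -, hm1, hm2, hp1, hp2, hq1, hq2⟩ := hr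
    replace h := of_decide_eq_true h
    rcases h with h | h | h | h | h | h | h | h | h | h | h | h | h | h | h
    · obtain ⟨rfl, rfl, h⟩ := h
      exact mt (WrapC.v4 C0a (by omega) (by omega) (by omega) (by omega) (by omega) (by omega) (by omega)).mp (by omega)
    · obtain ⟨rfl, rfl, h⟩ := h
      exact mt (WrapC.v1 C2 (by omega) (by omega) (by omega) (by omega) (by omega) (by omega) (by omega) (by omega)).mp (by omega)
    · obtain ⟨rfl, rfl, h⟩ := h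
      exact mt (WrapC.v2 C2 (by omega) (by omega) (by omega) (by omega) (by omega) (by omega) (by omega)).mp (by omega)
    · obtain ⟨rfl, rfl, h⟩ := h
      exact mt (WrapC.v2 C2a (by omega) (by omega) (by omega) (by omega) (by omega) (by omega) (by omega)).mp (by omega)
    · obtain ⟨rfl, rfl, h⟩ := h
      exact mt (WrapC.v4 C2a (by omega) (by omega) (by omega) (by omega) (by omega) (by omega) (by omega)).mp (by omega)
    · obtain ⟨rfl, rfl, h⟩ := h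
      exact mt (WrapC.v0 C4a (by omega) (by omega) (by omega) (by omega) (by omega) (by omega) (by omega)).mp (by omega)
    · obtain ⟨rfl, rfl, h⟩ := h
      exact mt (WrapC.v1 C4a (by omega) (by omega) (by omega) (by omega) (by omega) (by omega) (by omega) (by omega)).mp (by omega)
    · obtain ⟨rfl, rfl, h⟩ := h
      exact mt (WrapC.v2 C6 (by omega) (by omega) (by omega) (by omega) (by omega) (by omega) (by omega)).mp (by omega)
    · obtain ⟨rfl, rfl, h⟩ := h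
      exact NHT.rIn hf T (t := 2) (p := 1) (j := 2) (by omega) (by omega) (by omega) (by omega) (by omega) (by omega) (by omega) (by omega)
    · obtain ⟨rfl, rfl, h⟩ := h
      exact NHT.rIn hf T (t := 3) (p := 0) (j := 2) (by omega) (by omega) (by omega) (by omega) (by omega) (by omega) (by omega) (by omega)
    · obtain ⟨rfl, rfl, h⟩ := h
      exact NHT.rIn hf T (t := 3) (p := 0) (j := 1) (by omega) (by omega) (by omega) (by omega) (by omega) (by omega) (by omega) (by omega)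
    · obtain ⟨rfl, rfl, h⟩ := h
      exact uP1 hf U (j := 1) (by omega) (by omega) (by omega) (by omega) (by omega) (by omega)
    · obtain ⟨rfl, rfl, h⟩ := h
      exact NHT.pIn hf T (t := 4) (j := 1) (by omega) (by omega) (by omega) (by omega) (by omega) (by omega) (by omega)
    · obtain ⟨rfl, rfl, h⟩ := h
      exact uP1 hf U (j := 1) (by omega) (by omega) (by omega) (by omega) (by omega) (by omega)
    · obtain ⟨rfl, rfl, rfl, rfl⟩ := h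
      exact h0 (by omega) (by omega) (by omega) (by omega)

theorem wb_chk : check 5 6 12 16 0 0 0 0 0
    (fun j n p q => decide ((j = 2 ∧ n = 4 ∧ p = 5 ∧ q = 8)))
    (fun j n p q => decide ((j = 2 ∧ n = 1 ∧ p + 3 ≤ q)
      ∨ (j = 3 ∧ n = 1 ∧ p + 3 ≤ q)
      ∨ (j = 3 ∧ n = 2 ∧ p + 3 ≤ q)
      ∨ (j = 3 ∧ n = 4 ∧ 4 ≤ p ∧ p + 4 ≤ q)
      ∨ (j = 2 ∧ n = 4 ∧ p = 5 ∧ q = 10)))
    47
    0x87503056c8007ad4a087503056c0007acca056d00056d0408750305748007b54a056480056484062c00087507086d07086c8707b50707b48707ad0707ac8707ac0707a50707a48707a407075507075487074d07074c87074c07074507074487074407063507062d07062c0f057507056507056407051507051487050d07050c87050c07050507050487050407 = true := by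
  decide +kernel

theorem wb (hf : Rule f) {k c n X : ℕ} (T : NHT f k c (2 * n))
    (hX : 2 * n ≤ X + 3) (ho : X % 2 = 1)
    (h1 : ∀ {M R x y : ℕ}, M = 6 * k + 2 → R + 2 = c → x = X → y + 2 * k = X + 3 → f M R x y)
    (h0 : ∀ {M R x y : ℕ}, M = 6 * k + 2 → R + 2 = c → x = X → y + 2 * k = X + 5 → ¬ f M R x y) : False := by
  have hk := T.hk
  have hc := T.hc
  have h4 := T.h4
  have hb := T.hb
  have hN := T.hN2
  obtain ⟨a0, ha0⟩ : ∃ z, z = 6 * k + 0 := ⟨_, rfl⟩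
  obtain ⟨b0, hb0⟩ : ∃ z, z + 6 = c := ⟨c - 6, by omega⟩
  obtain ⟨x0, hx0⟩ : ∃ z, z + 5 = X := ⟨X - 5, by omega⟩
  obtain ⟨y0, hy0⟩ : ∃ z, z + 2 * k + 20 = X + 15 := ⟨X + 15 - 2 * k - 20, by omega⟩
  refine check_sound hf (a0 := a0) (b0 := b0) (x0 := x0) (y0 := y0) wb_chk
    ⟨fun h => absurd h (by decide), fun h => absurd h (by decide), fun h => absurd h (by decide), by omega, by omega,
      by omega, by omega⟩ ?_ ?_
  · intro j m p q hr h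
    obtain ⟨-, -, hm1, hm2, hp1, hp2, hq1, hq2⟩ := hr
    replace h := of_decide_eq_true h
    obtain ⟨rfl, rfl, rfl, rfl⟩ := h
    exact h1 (by omega) (by omega) (by omega) (by omega)
  · intro j m p q hr h
    obtain ⟨-, -, hm1, hm2, hp1, hp2, hq1, hq2⟩ := hr
    replace h := of_decide_eq_true h
    rcases h with h | h | h | h | h
    · obtain ⟨rfl, rfl, h⟩ := h
      exact NHT.rIn hf T (t := 2) (p := 0) (j := 1) (by omega) (by omega) (by omega) (by omega) (by omega) (by omega) (by omega) (by omega)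
    · obtain ⟨rfl, rfl, h⟩ := h
      exact NHT.rIn hf T (t := 2) (p := 1) (j := 1) (by omega) (by omega) (by omega) (by omega) (by omega) (by omega) (by omega) (by omega)
    · obtain ⟨rfl, rfl, h⟩ := h
      exact NHT.pIn hf T (t := 3) (j := 1) (by omega) (by omega) (by omega) (by omega) (by omega) (by omega) (by omega)
    · obtain ⟨rfl, rfl, h⟩ := h
      exact NHT.pIn hf T (t := 4) (j := 2) (by omega) (by omega) (by omega) (by omega) (by omega) (by omega) (by omega)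
    · obtain ⟨rfl, rfl, rfl, rfl⟩ := h
      exact h0 (by omega) (by omega) (by omega) (by omega)

end Pool.Agent.SNT.ZaW
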